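import Pool.Agent.Lib.MP_f04ccf_co.M.CleanB

/-!
MP_f04ccf_co: the clean model of helper38 (note 15094 (2)): a frame with at most `r` doubles is
not clean.
-/

set_option autoImplicit false

namespace Pool.Agent.Lib.MP_f04ccf_co

open Finset

attribute [local instance] Classical.propDecidable

variable {V : Type*} {G : SimpleGraph V} {Z T : Finset V} {r m t : ℕ}

/-- **the clean model does not exist** -/
theorem Clean.false (hC : Clean G Z T) (h : S2 G r m t Z T) (hr : 2 ≤ r) (hP : PG G r)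
    (hb : (BB G Z T).card ≤ r) : False := by
  have hF := h.toPFrame
  have hrow : ∀ y : V, ∃ x, ∃ Z', y ∈ T → x ∈ T.erase y ∧ Z' ⊆ cP G Z T x y ∧
      2 * ((r : ℤ) - 1) * (((cAy G Z T y).card : ℤ) + (cB G Z T y).card)
        + ((∑ x' ∈ T.erase y, NE G (cP G Z T x' y) : ℕ) : ℤ) - NE G (cB G Z T y)
        - ∑ u ∈ cAy G Z T y, ((nd G (cAy G Z T y) u : ℤ) + 2 * nd G (cB G Z T y) u
            + 2 * (if x ∈ ends G T u then 0 else (nd G Z' u : ℤ)))
      ≤ 2 * ((r : ℤ) - 1) * S2.a G r Z T y := by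
    intro y
    by_cases hy : y ∈ T
    · obtain ⟨x, hx, Z', hZ', h1⟩ := hC.row h hr hP hb hy
      exact ⟨x, Z', fun _ => ⟨hx, hZ', h1⟩⟩
    · exact ⟨y, ∅, fun h => absurd h hy⟩
  choose ξ ζ hξ using hrow
  set R : ℤ := (r : ℤ) - 1 with hR
  have hR1 : 1 ≤ R := by omega
  -- the double full points
  have dBA : ∀ y, Disjoint (cB G Z T y) (cA G Z T) := by
    intro y
    rw [disjoint_left]
    intro w hw hw'
    exact (mem_cB.1 hw).2.2.2 (mem_cA.1 hw').2
  have dBB : ∀ x y, x ≠ y → Disjoint (cB G Z T x) (cB G Z T y) := by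
    intro x y hxy
    rw [disjoint_left]
    intro w hw hw'
    exact hxy (host_unique hw hw')
  -- the charge
  have hcharge : ∀ u ∈ cA G Z T, ∑ y ∈ ends G T u, ((nd G (cAy G Z T y) u : ℤ)
      + 2 * nd G (cB G Z T y) u + 2 * (if ξ y ∈ ends G T u then 0 else (nd G (ζ y) u : ℤ)))
      ≤ 2 * R := by
    intro u hu
    obtain ⟨huB, hfull⟩ := mem_cA.1 hu
    obtain ⟨y, z, hyz, he⟩ := card_eq_two.1 (show (ends G T u).card = 2 from (mem_BB.1 huB).2)
    have hyu : y ∈ ends G T u := by rw [he]; simp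
    have hzu : z ∈ ends G T u := by rw [he]; simp
    obtain ⟨hξy, hζy, _⟩ := hξ y (ends_sub hyu)
    obtain ⟨hξz, hζz, _⟩ := hξ z (ends_sub hzu)
    have hξy' := ne_of_mem_erase hξy
    have hξz' := ne_of_mem_erase hξz
    -- the fourth sets
    set Y := if ξ y ∈ ends G T u then (∅ : Finset V) else ζ y with hY
    set Y' := if ξ z ∈ ends G T u then (∅ : Finset V) else ζ z with hY'
    have eY : (if ξ y ∈ ends G T u then (0 : ℤ) else (nd G (ζ y) u : ℤ)) = nd G Y u := by
      rw [hY]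
      split_ifs with h1
      · simp [nd]
      · rfl
    have eY' : (if ξ z ∈ ends G T u then (0 : ℤ) else (nd G (ζ z) u : ℤ)) = nd G Y' u := by
      rw [hY']
      split_ifs with h1
      · simp [nd]
      · rfl
    have hYm : ∀ w ∈ Y, w ∈ cB G Z T (ξ y) ∧ y ∈ ends G T w ∧ ξ y ≠ y ∧ ξ y ≠ z := by
      intro w hw
      rw [hY] at hw
      split_ifs at hw with h1
      · exact absurd hw (notMem_empty _)
      · obtain ⟨k1, k2⟩ := mem_cP.1 (hζy hw)
        rw [he, mem_insert, mem_singleton, not_or] at h1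
        exact ⟨k1, k2, h1.1, h1.2⟩
    have hYm' : ∀ w ∈ Y', w ∈ cB G Z T (ξ z) ∧ z ∈ ends G T w ∧ ξ z ≠ y ∧ ξ z ≠ z := by
      intro w hw
      rw [hY'] at hw
      split_ifs at hw with h1
      · exact absurd hw (notMem_empty _)
      · obtain ⟨k1, k2⟩ := mem_cP.1 (hζz hw)
        rw [he, mem_insert, mem_singleton, not_or] at h1
        exact ⟨k1, k2, h1.1, h1.2⟩
    have d1 : Disjoint (cA G Z T) (cB G Z T y) := (dBA y).symm
    have d2 : Disjoint (cA G Z T ∪ cB G Z T y) (cB G Z T z) :=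
      disjoint_union_left.2 ⟨(dBA z).symm, dBB y z hyz⟩
    have d3 : Disjoint (cA G Z T ∪ cB G Z T y ∪ cB G Z T z) Y := by
      rw [disjoint_right]
      intro w hw hw'
      obtain ⟨k1, k2, k3, k4⟩ := hYm w hw
      rcases mem_union.1 hw' with hw' | hw'
      · rcases mem_union.1 hw' with hw' | hw'
        · exact disjoint_left.1 (dBA _) k1 hw'
        · exact k3 (host_unique k1 hw')
      · exact k4 (host_unique k1 hw')
    have d4 : Disjoint (cA G Z T ∪ cB G Z T y ∪ cB G Z T z ∪ Y) Y' := by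
      rw [disjoint_right]
      intro w hw hw'
      obtain ⟨k1, k2, k3, k4⟩ := hYm' w hw
      rcases mem_union.1 hw' with hw' | hw'
      · rcases mem_union.1 hw' with hw' | hw'
        · rcases mem_union.1 hw' with hw' | hw'
          · exact disjoint_left.1 (dBA _) k1 hw'
          · exact k3 (host_unique k1 hw')
        · exact k4 (host_unique k1 hw')
      · obtain ⟨g1, g2, g3, g4⟩ := hYm w hw'
        obtain ⟨g5, g6, _, _⟩ := mem_cB.1 g1
        rw [ends_eq_pair g5 g2 k2 hyz, mem_insert, mem_singleton] at g6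
        rcases g6 with g6 | g6
        · exact g3 g6
        · exact g4 g6
    have hsub : cA G Z T ∪ cB G Z T y ∪ cB G Z T z ∪ Y ∪ Y' ⊆ BB G Z T := by
      intro w hw
      rcases mem_union.1 hw with hw | hw
      · rcases mem_union.1 hw with hw | hw
        · rcases mem_union.1 hw with hw | hw
          · rcases mem_union.1 hw with hw | hw
            · exact (mem_cA.1 hw).1
            · exact (mem_cB.1 hw).1
          · exact (mem_cB.1 hw).1
        · exact (mem_cB.1 (hYm w hw).1).1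
      · exact (mem_cB.1 (hYm' w hw).1).1
    have e1 := nd_mono (G := G) hsub u
    rw [nd_union d4, nd_union d3, nd_union d2, nd_union d1] at e1
    have e2 : nd G (cAy G Z T y) u ≤ nd G (cA G Z T) u := nd_mono (filter_subset _ _) u
    have e3 : nd G (cAy G Z T z) u ≤ nd G (cA G Z T) u := nd_mono (filter_subset _ _) u
    have e4 := dg_add_nd (G := G) huB
    have e5 : (ends G T u).sum (fun y => ((nd G (cAy G Z T y) u : ℤ)
      + 2 * nd G (cB G Z T y) u + 2 * (if ξ y ∈ ends G T u then 0 else (nd G (ζ y) u : ℤ))))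
      = ((nd G (cAy G Z T y) u : ℤ) + 2 * nd G (cB G Z T y) u + 2 * nd G Y u)
        + ((nd G (cAy G Z T z) u : ℤ) + 2 * nd G (cB G Z T z) u + 2 * nd G Y' u) := by
      rw [← eY, ← eY']
      conv_lhs => rw [he]
      rw [sum_pair hyz, he]
    rw [e5]
    omega
  -- the swap
  have hswap : ∑ y ∈ T, ∑ u ∈ cAy G Z T y, ((nd G (cAy G Z T y) u : ℤ)
      + 2 * nd G (cB G Z T y) u + 2 * (if ξ y ∈ ends G T u then 0 else (nd G (ζ y) u : ℤ)))
      = ∑ u ∈ cA G Z T, ∑ y ∈ ends G T u, ((nd G (cAy G Z T y) u : ℤ)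
      + 2 * nd G (cB G Z T y) u + 2 * (if ξ y ∈ ends G T u then 0 else (nd G (ζ y) u : ℤ))) := by
    apply sum_comm'
    intro y u
    rw [mem_cAy]
    constructor
    · rintro ⟨k1, k2, k3⟩
      exact ⟨k3, k2⟩
    · rintro ⟨k1, k2⟩
      exact ⟨ends_sub k1, k2, k1⟩
  have hch : ∑ y ∈ T, ∑ u ∈ cAy G Z T y, ((nd G (cAy G Z T y) u : ℤ)
      + 2 * nd G (cB G Z T y) u + 2 * (if ξ y ∈ ends G T u then 0 else (nd G (ζ y) u : ℤ)))
      ≤ 2 * R * (cA G Z T).card := by
    rw [hswap]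
    have := sum_le_sum hcharge
    rw [sum_const, nsmul_eq_mul] at this
    linarith
  have hNE : ∑ y ∈ T, ((∑ x' ∈ T.erase y, NE G (cP G Z T x' y) : ℕ) : ℤ)
      = ∑ y ∈ T, (NE G (cB G Z T y) : ℤ) := by
    have h1 : ∑ y ∈ T, ∑ x' ∈ T.erase y, NE G (cP G Z T x' y)
        = ∑ x' ∈ T, ∑ y ∈ T.erase x', NE G (cP G Z T x' y) := by
      apply sum_comm'
      intro y x
      rw [mem_erase, mem_erase]
      tauto
    have h2 : ∑ x' ∈ T, ∑ y ∈ T.erase x', NE G (cP G Z T x' y) = ∑ x ∈ T, NE G (cB G Z T x) :=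
      sum_congr rfl fun x _ => (hC.NE_cB hF x).symm
    rw [← Nat.cast_sum, ← Nat.cast_sum, h1, h2]
  have hsum := sum_le_sum fun y hy => (hξ y hy).2.2
  rw [← mul_sum, sum_sub_distrib, sum_sub_distrib, sum_add_distrib, hNE, ← mul_sum,
    sum_add_distrib] at hsum
  have hA2 : ∑ y ∈ T, ((cAy G Z T y).card : ℤ) = 2 * (cA G Z T).card := by
    exact_mod_cast sum_cAy (G := G) (Z := Z) (T := T)
  have hB2 : ((BB G Z T).card : ℤ) = (cA G Z T).card + ∑ x ∈ T, ((cB G Z T x).card : ℤ) := by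
    exact_mod_cast hC.card_BB hF
  have ha : ((BB G Z T).card : ℤ) = 1 + ∑ v ∈ T, (S2.a G r Z T v : ℤ) := by
    exact_mod_cast h.b_eq
  rw [hA2] at hsum
  have hb2 : ∑ x ∈ T, ((cB G Z T x).card : ℤ) = (BB G Z T).card - (cA G Z T).card := by linarith
  have ha2 : ∑ v ∈ T, (S2.a G r Z T v : ℤ) = (BB G Z T).card - 1 := by linarith
  rw [hb2, ha2] at hsum
  nlinarith [hsum, hch]

end Pool.Agent.Lib.MP_f04ccf_co
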