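import Pool.Agent.Lib.MP_f04ccf_co.M.LvI

/-!
MP_f04ccf_co, TEXT D / S, cliques: **an item of value `v` is `v` units at its main ends** (over `LvI`, so
for both versions).

* `LvI.cut`: a full item (value one, one end, no misses), or an item whose pieces number `vl + 1` with an
  end `f` which is worst for any given order `φ` of the rows;
* `LvI.assign`: levels `g i ≤ kp i u` with sum `vl u` such that every end used at its full level has
  misses `mn` below the threshold `A i`, as soon as `R + t i * t j < A i * A j`;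
* `LvI.assign_all`, `LvI.sum_assign`: the levels of all items, the sum over the rows.
-/

set_option autoImplicit false

namespace Pool.Agent.Lib.MP_f04ccf_co

open Finset

attribute [local instance] Classical.propDecidable

section CliqU

variable {ι : Type*} {R : ℤ} {n : ℕ} {t s h e : ℕ → ℤ} {U : Finset ι} {ho : ι → ℕ} {vl : ι → ℤ}
  {kp ms mr mn : ℕ → ι → ℤ} {mu : ℕ → ℤ} {be : ℕ → ℕ → ℤ} {pc ar : ι → ℤ}

namespace LvI

/-- **the types**: full (one end, no misses) or one end too many, with a worst end for any order -/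
theorem cut (H : LvI R n t s h e U ho vl kp ms mr mn mu be pc ar)
    (k0 : ∀ u ∈ U, ∀ i < n, 0 ≤ kp i u) (v1 : ∀ u ∈ U, 1 ≤ vl u) {u : ι} (hu : u ∈ U)
    (φ : ℕ → ℤ) :
    (∃ i < n, kp i u = 1 ∧ vl u = 1 ∧ mn i u = 0 ∧ ∀ j < n, j ≠ i → kp j u = 0) ∨
    (pc u = 0 ∧ ∑ i ∈ range n, kp i u = vl u + 1 ∧
      ∃ f < n, 1 ≤ kp f u ∧ ∀ i < n, kp i u ≠ 0 → φ i ≤ φ f) := by
  rcases H.one u hu with h1 | ⟨h1, h2⟩
  · exact Or.inl h1
  · refine Or.inr ⟨h1, h2, ?_⟩
    have hne : ((range n).filter fun i => kp i u ≠ 0).Nonempty := by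
      by_contra hcon
      rw [not_nonempty_iff_eq_empty] at hcon
      have h3 : ∑ i ∈ range n, kp i u = 0 := sum_eq_zero fun i hi => by
        by_contra h4
        exact notMem_empty i (hcon ▸ mem_filter.2 ⟨hi, h4⟩)
      have h4 := v1 u hu
      linarith
    obtain ⟨f, hf, hmax⟩ := exists_max_image _ φ hne
    obtain ⟨f1, f2⟩ := mem_filter.1 hf
    have f3 := mem_range.1 f1
    refine ⟨f, f3, ?_, fun i hi h3 => hmax i (mem_filter.2 ⟨mem_range.2 hi, h3⟩)⟩
    have h3 := k0 u hu f f3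
    omega

/-- the levels: all ends, the end `f` one less -/
private lemma lev {f : ℕ} (k0 : ∀ u ∈ U, ∀ i < n, 0 ≤ kp i u) {u : ι} (hu : u ∈ U) (hf : f < n)
    (h1 : 1 ≤ kp f u) (h2 : ∑ i ∈ range n, kp i u = vl u + 1) :
    ∃ g : ℕ → ℕ, (∀ i < n, (g i : ℤ) ≤ kp i u) ∧ ∑ i ∈ range n, (g i : ℤ) = vl u ∧
      (g f : ℤ) = kp f u - 1 ∧ ∀ i < n, i ≠ f → (g i : ℤ) = kp i u := by
  refine ⟨fun i => (kp i u - if i = f then 1 else 0).toNat, ?_, ?_, ?_, ?_⟩
  · intro i hi
    have h3 := k0 u hu i hi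
    show (((kp i u - if i = f then 1 else 0).toNat : ℕ) : ℤ) ≤ kp i u
    by_cases h4 : i = f
    · rw [if_pos h4, h4]
      omega
    · rw [if_neg h4]
      omega
  · have h3 : ∀ i ∈ range n, (((kp i u - if i = f then 1 else 0).toNat : ℕ) : ℤ)
        = kp i u - if i = f then 1 else 0 := by
      intro i hi
      have h4 := k0 u hu i (mem_range.1 hi)
      refine Int.toNat_of_nonneg ?_
      by_cases h5 : i = f
      · rw [if_pos h5, h5]
        linarith
      · rw [if_neg h5]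
        linarith
    show ∑ i ∈ range n, (((kp i u - if i = f then 1 else 0).toNat : ℕ) : ℤ) = vl u
    rw [sum_congr rfl h3, sum_sub_distrib, h2, sum_ite_eq' (range n) f, if_pos (mem_range.2 hf)]
    ring
  · show (((kp f u - if f = f then 1 else 0).toNat : ℕ) : ℤ) = kp f u - 1
    rw [if_pos rfl]
    omega
  · intro i hi h4
    have h3 := k0 u hu i hi
    show (((kp i u - if i = f then 1 else 0).toNat : ℕ) : ℤ) = kp i u
    rw [if_neg h4]
    omega

/-- **an item is `vl u` units at its main ends**: every end used at its full level is below the threshold -/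
theorem assign (H : LvI R n t s h e U ho vl kp ms mr mn mu be pc ar)
    (k0 : ∀ u ∈ U, ∀ i < n, 0 ≤ kp i u) (v1 : ∀ u ∈ U, 1 ≤ vl u)
    (kh : ∀ u ∈ U, kp (ho u) u = 0) {u : ι} (hu : u ∈ U) {A : ℕ → ℤ}
    (hA0 : ∀ i < n, i ≠ ho u → 0 < A i)
    (hA : ∀ i < n, ∀ j < n, i ≠ j → i ≠ ho u → j ≠ ho u → R + t i * t j < A i * A j) :
    ∃ g : ℕ → ℕ, (∀ i < n, (g i : ℤ) ≤ kp i u) ∧ ∑ i ∈ range n, (g i : ℤ) = vl u ∧
      ∀ i < n, g i ≠ 0 → kp i u ≤ (g i : ℤ) → mn i u < A i := by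
  have hho : ∀ i, kp i u ≠ 0 → i ≠ ho u := fun i h1 h2 => h1 (h2 ▸ kh u hu)
  rcases H.cut k0 v1 hu (fun i => if A i ≤ mn i u then 1 else 0) with
    ⟨i, hi, h1, h2, h3, h4⟩ | ⟨h1, h2, f, hf, h3, h4⟩
  · refine ⟨fun j => if j = i then 1 else 0, ?_, ?_, ?_⟩
    · intro j hj
      show (((if j = i then 1 else 0 : ℕ)) : ℤ) ≤ kp j u
      by_cases h5 : j = i
      · rw [if_pos h5, h5, h1]
        rfl
      · rw [if_neg h5]
        exact k0 u hu j hj
    · show ∑ j ∈ range n, ((if j = i then 1 else 0 : ℕ) : ℤ) = vl u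
      rw [h2]
      have h5 : ∀ j ∈ range n, ((if j = i then 1 else 0 : ℕ) : ℤ) = if j = i then 1 else 0 := by
        intro j _
        by_cases h6 : j = i
        · rw [if_pos h6, if_pos h6]
          rfl
        · rw [if_neg h6, if_neg h6]
          rfl
      rw [sum_congr rfl h5, sum_ite_eq' (range n) i, if_pos (mem_range.2 hi)]
    · intro j hj h5 _
      have h6 : j = i := by
        by_contra h6
        exact h5 (if_neg h6)
      rw [h6, h3]
      exact hA0 i hi (hho i (by rw [h1]; exact one_ne_zero))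
  · obtain ⟨g, g1, g2, g3, g4⟩ := lev k0 hu hf h3 h2
    refine ⟨g, g1, g2, fun i hi h5 h6 => ?_⟩
    have hif : i ≠ f := by
      intro h7
      rw [h7, g3] at h6
      linarith
    by_contra hcon
    have h7 : A i ≤ mn i u := not_lt.1 hcon
    have h8 : kp i u ≠ 0 := by
      intro h9
      have h10 := g4 i hi hif
      rw [h9] at h10
      exact h5 (by exact_mod_cast h10)
    have h9 := h4 i hi h8
    have h10 : A f ≤ mn f u := by
      by_contra h11
      have h12 : (if A i ≤ mn i u then (1 : ℤ) else 0) ≤ if A f ≤ mn f u then 1 else 0 := h9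
      rw [if_pos h7, if_neg h11] at h12
      norm_num at h12
    have h11 := H.mpr u hu i hi f hf hif
    have h12 := hho i h8
    have h13 := hho f (by omega)
    have h14 := hA i hi f hf hif h12 h13
    have h15 := hA0 i hi h12
    have h16 := hA0 f hf h13
    have h17 : A i * A f ≤ mn i u * mn f u := mul_le_mul h7 h10 h16.le (by linarith)
    linarith

/-- **the levels of all items**, `A x i` the threshold for an end `i` of an item of the host `x` -/
theorem assign_all (H : LvI R n t s h e U ho vl kp ms mr mn mu be pc ar)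
    (k0 : ∀ u ∈ U, ∀ i < n, 0 ≤ kp i u) (v1 : ∀ u ∈ U, 1 ≤ vl u)
    (kh : ∀ u ∈ U, kp (ho u) u = 0) (hlt : ∀ u ∈ U, ho u < n) {A : ℕ → ℕ → ℤ}
    (hA0 : ∀ x < n, ∀ i < n, i ≠ x → 0 < A x i)
    (hA : ∀ x < n, ∀ i < n, ∀ j < n, i ≠ j → i ≠ x → j ≠ x → R + t i * t j < A x i * A x j) :
    ∃ g : ℕ → ι → ℕ, (∀ u ∈ U, ∀ i < n, (g i u : ℤ) ≤ kp i u) ∧
      (∀ u ∈ U, ∑ i ∈ range n, (g i u : ℤ) = vl u) ∧
      (∀ u ∈ U, g (ho u) u = 0) ∧
      ∀ u ∈ U, ∀ i < n, g i u ≠ 0 → kp i u ≤ (g i u : ℤ) → mn i u < A (ho u) i := by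
  have h1 : ∀ u : ι, ∃ g : ℕ → ℕ, u ∈ U → (∀ i < n, (g i : ℤ) ≤ kp i u) ∧
      ∑ i ∈ range n, (g i : ℤ) = vl u ∧
      ∀ i < n, g i ≠ 0 → kp i u ≤ (g i : ℤ) → mn i u < A (ho u) i := by
    intro u
    by_cases hu : u ∈ U
    · obtain ⟨g, hg⟩ := H.assign k0 v1 kh hu (hA0 _ (hlt u hu)) (hA _ (hlt u hu))
      exact ⟨g, fun _ => hg⟩
    · exact ⟨fun _ => 0, fun h2 => absurd h2 hu⟩
  choose g hg using h1
  refine ⟨fun i u => g u i, fun u hu => (hg u hu).1, fun u hu => (hg u hu).2.1, fun u hu => ?_,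
    fun u hu => (hg u hu).2.2⟩
  have h2 := (hg u hu).1 (ho u) (hlt u hu)
  rw [kh u hu] at h2
  show g u (ho u) = 0
  omega

/-- the units of all rows together are the value -/
theorem sum_assign {g : ℕ → ι → ℕ} (hg : ∀ u ∈ U, ∑ i ∈ range n, (g i u : ℤ) = vl u)
    (hh : ∀ u ∈ U, g (ho u) u = 0) :
    ∑ i ∈ range n, ∑ u ∈ U.filter (fun u => ho u ≠ i), (g i u : ℤ) = ∑ u ∈ U, vl u := by
  have h1 : ∀ i ∈ range n, ∑ u ∈ U.filter (fun u => ho u ≠ i), (g i u : ℤ)
      = ∑ u ∈ U, (g i u : ℤ) := by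
    intro i _
    refine sum_subset (filter_subset _ _) fun u hu hu' => ?_
    have h2 : ho u = i := by
      by_contra h3
      exact hu' (mem_filter.2 ⟨hu, h3⟩)
    rw [← h2, hh u hu]
    rfl
  rw [sum_congr rfl h1, sum_comm]
  exact sum_congr rfl hg

end LvI

end CliqU

end Pool.Agent.Lib.MP_f04ccf_co
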