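import Pool.Agent.Lib.MP_f04ccf_co.M.CsA

/-!
MP_f04ccf_co, TEXT D: **hosted cliques in the second order of the row and column tests** (note 18841).

For kept items `P` of values `v ≥ 1` with value sum `V`, number `N` and `minP` = the sum of `min` over the ordered
pairs, `V * V - V - minP` is what the second order of `P` is smaller than for value one.

* `offd_low`: it is at most `(V - N) (V + N - 1)`; `offd_low'`: at most `(1 - 1/v) V * V`, all values at most `v`;
  `offd_nonneg`: it is not negative;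
* `PConC.T0V`: the exact row test, plain items and blocks kept, with this letter;
* `PConC.V_le`: `V ≤ 2 d` and `(R - A) V ≤ R d` for a row with `2 A ≤ R` which hosts no blocks.
-/

set_option autoImplicit false

namespace Pool.Agent.Lib.MP_f04ccf_co

open Finset

attribute [local instance] Classical.propDecidable

section CliqV

variable {ι : Type*} {R : ℤ} {n : ℕ} {t s mu : ℕ → ℤ} {U : Finset ι} {ho : ι → ℕ} {vl : ι → ℤ}
  {kp mn : ℕ → ι → ℤ} {pc ar : ι → ℤ} {be kq NN sg : ℕ → ℕ → ℤ} {nu : ℕ → ι → ℤ} {z y : ℕ}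

private lemma offd_card (P : Finset ι) :
    ((P.offDiag.card : ℕ) : ℤ) = (P.card : ℤ) * ((P.card : ℤ) - 1) := by
  rw [offDiag_card]
  have h3 : P.card ≤ P.card * P.card := by
    rcases Nat.eq_zero_or_pos P.card with h5 | h5
    · rw [h5]
    · exact Nat.le_mul_of_pos_left _ h5
  rw [Nat.cast_sub h3]
  push_cast
  ring

private lemma offd_prod (P : Finset ι) (a : ι → ℤ) :
    ∑ e ∈ P.offDiag, a e.1 * a e.2 = (∑ u ∈ P, a u) * (∑ u ∈ P, a u) - ∑ u ∈ P, a u * a u := by
  have h1 : ∑ e ∈ P ×ˢ P, a e.1 * a e.2 = (∑ u ∈ P, a u) * (∑ u ∈ P, a u) := by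
    rw [sum_product, sum_mul]
    refine sum_congr rfl fun u _ => ?_
    rw [mul_sum]
  have h2 : ∑ e ∈ P.diag, a e.1 * a e.2 = ∑ u ∈ P, a u * a u := by
    rw [sum_diag]
  have h3 : ∑ e ∈ P.diag, a e.1 * a e.2 + ∑ e ∈ P.offDiag, a e.1 * a e.2
      = ∑ e ∈ P ×ˢ P, a e.1 * a e.2 := by
    rw [← sum_union P.disjoint_diag_offDiag, P.diag_union_offDiag]
  linarith

/-- **the gain is at least the one of value one** -/
lemma offd_ge {P : Finset ι} (h1 : ∀ u ∈ P, 1 ≤ vl u) :
    (P.card : ℤ) * ((P.card : ℤ) - 1) ≤ ∑ e ∈ P.offDiag, min (vl e.1) (vl e.2) := by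
  rw [← offd_card, card_eq_sum_ones]
  push_cast
  refine sum_le_sum fun e he => ?_
  obtain ⟨h2, h3, -⟩ := mem_offDiag.1 he
  exact le_min (h1 _ h2) (h1 _ h3)

/-- **the loss of cliques in the second order**, by value and number -/
lemma offd_low {P : Finset ι} (h1 : ∀ u ∈ P, 1 ≤ vl u) :
    (∑ u ∈ P, vl u) * (∑ u ∈ P, vl u) - ∑ u ∈ P, vl u
        - ∑ e ∈ P.offDiag, min (vl e.1) (vl e.2)
      ≤ (∑ u ∈ P, vl u - P.card) * (∑ u ∈ P, vl u + P.card - 1) := by
  have h2 := offd_ge h1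
  nlinarith [h2]

/-- **the loss of cliques in the second order**, all values at most `v` -/
lemma offd_low' {P : Finset ι} {v : ℤ} (h1 : ∀ u ∈ P, 1 ≤ vl u) (hv : ∀ u ∈ P, vl u ≤ v) :
    v * ((∑ u ∈ P, vl u) * (∑ u ∈ P, vl u) - ∑ u ∈ P, vl u
        - ∑ e ∈ P.offDiag, min (vl e.1) (vl e.2))
      ≤ (v - 1) * ((∑ u ∈ P, vl u) * (∑ u ∈ P, vl u)) := by
  have h2 : ∑ e ∈ P.offDiag, vl e.1 * vl e.2
      ≤ v * ∑ e ∈ P.offDiag, min (vl e.1) (vl e.2) := by
    rw [mul_sum]
    refine sum_le_sum fun e he => ?_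
    obtain ⟨h3, h4, -⟩ := mem_offDiag.1 he
    have a1 := h1 _ h3
    have a2 := h1 _ h4
    have a3 := hv _ h3
    have a4 := hv _ h4
    rcases le_total (vl e.1) (vl e.2) with h5 | h5
    · rw [min_eq_left h5]
      nlinarith
    · rw [min_eq_right h5]
      nlinarith
  rw [offd_prod] at h2
  have h3 : ∑ u ∈ P, vl u * vl u ≤ v * ∑ u ∈ P, vl u := by
    rw [mul_sum]
    refine sum_le_sum fun u hu => ?_
    have a1 := h1 u hu
    have a2 := hv u hu
    nlinarith
  nlinarith [h2, h3]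

/-- the loss is not negative -/
lemma offd_nonneg {P : Finset ι} (h1 : ∀ u ∈ P, 1 ≤ vl u) :
    0 ≤ (∑ u ∈ P, vl u) * (∑ u ∈ P, vl u) - ∑ u ∈ P, vl u
        - ∑ e ∈ P.offDiag, min (vl e.1) (vl e.2) := by
  have h4 : ∑ e ∈ P.offDiag, min (vl e.1) (vl e.2)
      ≤ ∑ e ∈ P.offDiag, vl e.1 * vl e.2 := by
    refine sum_le_sum fun e he => ?_
    obtain ⟨h3, h4, -⟩ := mem_offDiag.1 he
    have a1 := h1 _ h3
    have a2 := h1 _ h4
    rcases le_total (vl e.1) (vl e.2) with h5 | h5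
    · rw [min_eq_left h5]
      nlinarith
    · rw [min_eq_right h5]
      nlinarith
  rw [offd_prod] at h4
  have h5 : ∑ u ∈ P, vl u ≤ ∑ u ∈ P, vl u * vl u :=
    sum_le_sum fun u hu => by
      have a1 := h1 u hu
      nlinarith
  linarith

/-- **the exact row test with the plain items and the blocks kept**, `b` blocks (Konig pairs out) -/
theorem PConC.T0V (H : PConC R n t s mu U ho vl kp mn pc ar be kq NN sg nu) (hz : z < n)
    {m b : ℤ} (hm : m = ∑ u ∈ hsZ U ho pc z, vl u)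
    (hb : b = ∑ l ∈ (range n).erase z, (be z l - kq z l)) :
    2 * ((R - (t z + 1)) * (m + b)) + 2 * ((m + b) * (mu z - s z - b))
        - (m * m - m - ∑ e ∈ (hsZ U ho pc z).offDiag, min (vl e.1) (vl e.2))
      ≤ 2 * (R * (mu z - s z)) := by
  have h0 := H.csT hz (K := ∅) (lv := fun _ => 1) (empty_subset _)
    (fun u hu => absurd hu (notMem_empty u)) (fun u hu => absurd hu (notMem_empty u))
    (fun u hu => absurd hu (notMem_empty u)) (sv := 0) (by
      have e1 : svP n ho vl (∅ : Finset ι) (fun _ => 1) = 0 := by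
        unfold svP
        simp
      rw [filter_empty, e1]
      norm_num) hm hb (k := 0) (κ' := 0) (by rw [sum_empty]) (by rw [card_empty]; rfl)
  rw [sum_empty] at h0
  have hB : ∀ l ∈ (range n).erase z, 0 ≤ be z l - kq z l := fun l hl => by
    have := H.kqb z hz l (mem_range.1 (mem_of_mem_erase hl))
    linarith
  have h1 : ∑ l ∈ (range n).erase z, (be z l - kq z l) * (be z l - kq z l + 1) ≤ b * (b + 1) := by
    rw [hb, sum_mul]
    refine sum_le_sum fun l hl => ?_
    have h10 := hB l hl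
    have h11 : be z l - kq z l ≤ ∑ l ∈ (range n).erase z, (be z l - kq z l) :=
      single_le_sum (f := fun l => be z l - kq z l) (fun l hl => hB l hl) hl
    nlinarith
  nlinarith [h0, h1]

/-- **the plain value of a row without blocks**: `V ≤ 2 d` and `(R - A) V ≤ R d` -/
theorem PConC.V_le (H : PConC R n t s mu U ho vl kp mn pc ar be kq NN sg nu) (hz : z < n)
    (h2 : 2 * (t z + 1) ≤ R) (hb : ∀ l ∈ (range n).erase z, be z l ≤ kq z l) :
    ∑ u ∈ hsZ U ho pc z, vl u ≤ 2 * (mu z - s z)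
      ∧ (R - (t z + 1)) * ∑ u ∈ hsZ U ho pc z, vl u ≤ R * (mu z - s z) := by
  have hb0 : ∑ l ∈ (range n).erase z, (be z l - kq z l) = 0 := by
    refine sum_eq_zero fun l hl => ?_
    have h3 := H.kqb z hz l (mem_range.1 (mem_of_mem_erase hl))
    have h4 := hb l hl
    linarith
  have h0 := H.T0V hz (m := ∑ u ∈ hsZ U ho pc z, vl u) (b := 0) rfl hb0.symm
  have hV0 : 0 ≤ ∑ u ∈ hsZ U ho pc z, vl u := sum_nonneg fun u hu => by
    have := H.v1 u (mem_filter.1 hu).1
    linarith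
  have hG : 0 ≤ ∑ e ∈ (hsZ U ho pc z).offDiag, min (vl e.1) (vl e.2) := sum_nonneg fun e he => by
    obtain ⟨h9, h10, -⟩ := mem_offDiag.1 he
    have h11 := H.v1 _ (mem_filter.1 h9).1
    have h12 := H.v1 _ (mem_filter.1 h10).1
    exact le_min (by linarith) (by linarith)
  have hm := H.mu_plain hz
  have hbe : ∀ l ∈ (range n).erase z, 0 ≤ be z l := fun l hl =>
    H.be0 z hz l (mem_range.1 (mem_of_mem_erase hl))
  have hbs : 0 ≤ ∑ l ∈ (range n).erase z, be z l := sum_nonneg hbe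
  have hg := H.glob1 hz
  have hdt := H.dt z hz
  have hd := H.d_nonneg hz
  have hVs : ∑ u ∈ hsZ U ho pc z, vl u ≤ mu z := by
    unfold hsZ
    linarith
  have ht := H.t0 z hz
  generalize (∑ u ∈ hsZ U ho pc z, vl u) = V at *
  generalize (∑ e ∈ (hsZ U ho pc z).offDiag, min (vl e.1) (vl e.2)) = G at *
  generalize mu z - s z = d at *
  have h3 : 2 * (R * d) ≤ 4 * ((R - (t z + 1)) * d) := by nlinarith
  have h4 : V ≤ 2 * d := by
    by_contra hcon
    push Not at hcon
    have h5 : 0 ≤ R - (t z + 1) + d + 1 - V := by linarith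
    have h6 : R - (t z + 1) + d + 1 - V ≤ R - (t z + 1) - d := by linarith
    have h7 : (R - (t z + 1) + d + 1 - V) * (R - (t z + 1) + d + 1 - V)
        ≤ (R - (t z + 1) - d) * (R - (t z + 1) - d) := mul_self_le_mul_self h5 h6
    nlinarith [h0, h3, h7]
  refine ⟨h4, ?_⟩
  have h8 : 0 ≤ V * (2 * d - V + 1) := mul_nonneg hV0 (by linarith)
  nlinarith [h0, h8]

end CliqV

end Pool.Agent.Lib.MP_f04ccf_co
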