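import Pool.Agent.Lib.MP_f04ccf_co.S2Api

/-!
MP_f04ccf_co: property (P) on the union of several disjoint cliques (`rows`) and a set of testers:
`(P_A)`, `(P_A')` of note 15035, the one-row form, and the sum over the rows (`ACCOUNT`, 14961).
All inequalities are doubled, sums over pairs of rows are over ordered pairs.
-/

set_option autoImplicit false

namespace Pool.Agent.Lib.MP_f04ccf_co

open Finset

attribute [local instance] Classical.propDecidable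

section PA

variable {V : Type*} {G : SimpleGraph V} {r : ℕ} {ι : Type*}

/-- a double sum over ordered pairs of different indices -/
lemma sum_offdiag (A : Finset ι) (f : ι → ι → ℤ) :
    ∑ x ∈ A, ∑ y ∈ A.erase x, f x y = ∑ x ∈ A, ∑ y ∈ A, f x y - ∑ x ∈ A, f x x := by
  rw [← sum_sub_distrib]
  refine sum_congr rfl fun x hx => ?_
  rw [← sum_erase_add A (f x) hx]
  ring

/-- the missing pairs of a union -/
lemma NE_biUnion (A : Finset ι) (C : ι → Finset V) (Z : Finset V)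
    (hd : ∀ x ∈ A, ∀ y ∈ A, x ≠ y → Disjoint (C x) (C y)) (hZ : ∀ x ∈ A, Disjoint (C x) Z) :
    (NE G (Z ∪ A.biUnion C) : ℤ) = NE G Z + ∑ x ∈ A, (NE G (C x) : ℤ)
      + 2 * ∑ x ∈ A, ∑ v ∈ Z, (nd G (C x) v : ℤ)
      + ∑ x ∈ A, ∑ y ∈ A.erase x, ∑ v ∈ C y, (nd G (C x) v : ℤ) := by
  induction A using Finset.induction_on with
  | empty => simp
  | insert a A ha ih =>
    have hd' : ∀ x ∈ A, ∀ y ∈ A, x ≠ y → Disjoint (C x) (C y) := fun x hx y hy =>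
      hd x (mem_insert_of_mem hx) y (mem_insert_of_mem hy)
    have hZ' : ∀ x ∈ A, Disjoint (C x) Z := fun x hx => hZ x (mem_insert_of_mem hx)
    have hda : ∀ y ∈ A, Disjoint (C a) (C y) := fun y hy =>
      hd a (mem_insert_self a A) y (mem_insert_of_mem hy) fun h => ha (h ▸ hy)
    have h1 : Disjoint (C a) (Z ∪ A.biUnion C) := by
      rw [disjoint_union_right, disjoint_biUnion_right]
      exact ⟨hZ a (mem_insert_self a A), hda⟩
    have hZA : Disjoint Z (A.biUnion C) := by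
      rw [disjoint_biUnion_right]
      exact fun x hx => (hZ' x hx).symm
    have e0 : Z ∪ (insert a A).biUnion C = C a ∪ (Z ∪ A.biUnion C) := by
      rw [biUnion_insert]
      ext v
      simp only [mem_union]
      tauto
    have e1 : (NE G (C a ∪ (Z ∪ A.biUnion C)) : ℤ) = NE G (C a) + NE G (Z ∪ A.biUnion C)
        + 2 * ∑ v ∈ Z ∪ A.biUnion C, (nd G (C a) v : ℤ) := by
      have := NE_union (G := G) h1
      exact_mod_cast this
    have e2 : ∑ v ∈ Z ∪ A.biUnion C, (nd G (C a) v : ℤ)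
        = ∑ v ∈ Z, (nd G (C a) v : ℤ) + ∑ y ∈ A, ∑ v ∈ C y, (nd G (C a) v : ℤ) := by
      rw [sum_union hZA, sum_biUnion]
      exact fun x hx y hy hxy => hd' x hx y hy hxy
    have e3 : ∀ y ∈ A, ∑ v ∈ C a, (nd G (C y) v : ℤ) = ∑ v ∈ C y, (nd G (C a) v : ℤ) := by
      intro y _
      have := nd_comm (G := G) (C a) (C y)
      exact_mod_cast this
    have e4 : ∑ x ∈ insert a A, ∑ y ∈ (insert a A).erase x, ∑ v ∈ C y, (nd G (C x) v : ℤ)
        = 2 * ∑ y ∈ A, ∑ v ∈ C y, (nd G (C a) v : ℤ)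
          + ∑ x ∈ A, ∑ y ∈ A.erase x, ∑ v ∈ C y, (nd G (C x) v : ℤ) := by
      rw [sum_insert ha, erase_insert ha]
      have h5 : ∀ x ∈ A, ∑ y ∈ (insert a A).erase x, ∑ v ∈ C y, (nd G (C x) v : ℤ)
          = ∑ v ∈ C x, (nd G (C a) v : ℤ) + ∑ y ∈ A.erase x, ∑ v ∈ C y, (nd G (C x) v : ℤ) := by
        intro x hx
        have hxa : x ≠ a := fun h => ha (h ▸ hx)
        rw [erase_insert_of_ne hxa.symm, sum_insert, e3 x hx]
        exact fun h => ha (mem_of_mem_erase h)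
      rw [sum_congr rfl h5, sum_add_distrib]
      ring
    rw [e0, e1, ih hd' hZ', e2, e4, sum_insert ha, sum_insert ha]
    ring

lemma card_rows (A : Finset ι) (C : ι → Finset V) (Z : Finset V)
    (hd : ∀ x ∈ A, ∀ y ∈ A, x ≠ y → Disjoint (C x) (C y)) (hZ : ∀ x ∈ A, Disjoint (C x) Z) :
    ((Z ∪ A.biUnion C).card : ℤ) = Z.card + ∑ x ∈ A, ((C x).card : ℤ) := by
  have hZA : Disjoint Z (A.biUnion C) := by
    rw [disjoint_biUnion_right]
    exact fun x hx => (hZ x hx).symm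
  rw [card_union_of_disjoint hZA, card_biUnion hd]
  push_cast
  rfl

/-- the sum of degree and codegree over a set outside the clique -/
lemma sum_dg_nd {C Z : Finset V} (hd : Disjoint C Z) :
    ∑ v ∈ Z, (nd G C v : ℤ) = Z.card * C.card - ∑ v ∈ Z, (dg G C v : ℤ) := by
  have h3 : ∀ v ∈ Z, (nd G C v : ℤ) = C.card - dg G C v := by
    intro v hv
    have := nd_of_notMem (G := G) (disjoint_right.1 hd hv)
    have : (dg G C v : ℤ) + nd G C v = C.card := by exact_mod_cast this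
    linarith
  rw [sum_congr rfl h3, sum_sub_distrib, sum_const, nsmul_eq_mul]

/-- **`(P_A)`**: rows `C x`, `x ∈ A`, and any set `Z` outside them. -/
theorem PG.rows (hP : PG G r) (A : Finset ι) (C : ι → Finset V) (Z : Finset V)
    (hC : ∀ x ∈ A, Clq G (C x))
    (hd : ∀ x ∈ A, ∀ y ∈ A, x ≠ y → Disjoint (C x) (C y)) (hZ : ∀ x ∈ A, Disjoint (C x) Z) :
    2 * ∑ x ∈ A, ∑ v ∈ Z, (dg G (C x) v : ℤ)
      + ∑ x ∈ A, ∑ y ∈ A.erase x, ∑ v ∈ C y, (dg G (C x) v : ℤ)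
      ≤ 2 * ((r : ℤ) - 1) * A.card
        + 2 * (∑ x ∈ A, ((r : ℤ) - 1 - (C x).card)) * ((r : ℤ) - 1 - Z.card)
        + ∑ x ∈ A, ∑ y ∈ A.erase x,
            (((r : ℤ) - 1) + ((r : ℤ) - 1 - (C x).card) * ((r : ℤ) - 1 - (C y).card))
        + NE G Z := by
  have h1 := hP.ne (Z ∪ A.biUnion C) A.card
  rw [NE_biUnion A C Z hd hZ, card_rows A C Z hd hZ] at h1
  have e1 : ∑ x ∈ A, (NE G (C x) : ℤ) = 0 :=
    sum_eq_zero fun x hx => by rw [NE_clq (hC x hx)]; rfl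
  have e2 : ∑ x ∈ A, ∑ v ∈ Z, (nd G (C x) v : ℤ)
      = Z.card * ∑ x ∈ A, ((C x).card : ℤ) - ∑ x ∈ A, ∑ v ∈ Z, (dg G (C x) v : ℤ) := by
    rw [sum_congr rfl fun x hx => sum_dg_nd (hZ x hx), sum_sub_distrib, mul_sum]
  have e3 : ∑ x ∈ A, ∑ y ∈ A.erase x, ∑ v ∈ C y, (nd G (C x) v : ℤ)
      = ∑ x ∈ A, ∑ y ∈ A.erase x, ((C x).card : ℤ) * (C y).card
        - ∑ x ∈ A, ∑ y ∈ A.erase x, ∑ v ∈ C y, (dg G (C x) v : ℤ) := by
    rw [← sum_sub_distrib]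
    refine sum_congr rfl fun x hx => ?_
    rw [← sum_sub_distrib]
    refine sum_congr rfl fun y hy => ?_
    rw [sum_dg_nd (hd x hx y (mem_of_mem_erase hy) (ne_of_mem_erase hy).symm), mul_comm]
  rw [e1, e2, e3] at h1
  have e4 := sum_offdiag A fun x y => ((C x).card : ℤ) * (C y).card
  have e5 := sum_offdiag A fun x y =>
    (((r : ℤ) - 1) + ((r : ℤ) - 1 - (C x).card) * ((r : ℤ) - 1 - (C y).card))
  have e6 : ∑ x ∈ A, ∑ y ∈ A, ((C x).card : ℤ) * (C y).card = (∑ x ∈ A, ((C x).card : ℤ)) ^ 2 := by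
    rw [sq, sum_mul_sum]
  have e7 : ∑ x ∈ A, ∑ y ∈ A,
      (((r : ℤ) - 1) + ((r : ℤ) - 1 - (C x).card) * ((r : ℤ) - 1 - (C y).card))
      = A.card * (A.card * ((r : ℤ) - 1)) + (∑ x ∈ A, ((r : ℤ) - 1 - (C x).card)) ^ 2 := by
    simp only [sum_add_distrib, sum_const, nsmul_eq_mul]
    rw [sq, sum_mul_sum]
  have e8 : ∑ x ∈ A, ((r : ℤ) - 1 - (C x).card) = A.card * ((r : ℤ) - 1)
      - ∑ x ∈ A, ((C x).card : ℤ) := by
    rw [sum_sub_distrib, sum_const, nsmul_eq_mul]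
  have e9 : ∑ x ∈ A, (((r : ℤ) - 1) + ((r : ℤ) - 1 - (C x).card) * ((r : ℤ) - 1 - (C x).card))
      = A.card * ((r : ℤ) - 1) + A.card * ((r : ℤ) - 1) ^ 2
        - 2 * ((r : ℤ) - 1) * ∑ x ∈ A, ((C x).card : ℤ)
        + ∑ x ∈ A, ((C x).card : ℤ) * (C x).card := by
    have h2 : ∀ x ∈ A, (((r : ℤ) - 1) + ((r : ℤ) - 1 - (C x).card) * ((r : ℤ) - 1 - (C x).card))
        = (((r : ℤ) - 1) + ((r : ℤ) - 1) ^ 2) - 2 * ((r : ℤ) - 1) * (C x).card
          + ((C x).card : ℤ) * (C x).card := fun x _ => by ring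
    rw [sum_congr rfl h2, sum_add_distrib, sum_sub_distrib, sum_const, nsmul_eq_mul, mul_sum]
    ring
  rw [e4, e6] at h1
  rw [e5, e7, e9, e8]
  set S := ∑ x ∈ A, ((C x).card : ℤ) with hS
  set Q := ∑ x ∈ A, ((C x).card : ℤ) * (C x).card with hQ
  set X := ∑ x ∈ A, ∑ v ∈ Z, (dg G (C x) v : ℤ) with hX
  set Y := ∑ x ∈ A, ∑ y ∈ A.erase x, ∑ v ∈ C y, (dg G (C x) v : ℤ) with hY
  nlinarith

/-- the edges between disjoint sets: degree and codegree, ordered pairs of different indices -/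
lemma sum_offdiag_nd (A : Finset ι) (H : ι → Finset V)
    (hd : ∀ x ∈ A, ∀ y ∈ A, x ≠ y → Disjoint (H x) (H y)) :
    ∑ x ∈ A, ∑ y ∈ A.erase x, ∑ v ∈ H y, (nd G (H x) v : ℤ)
      = ∑ x ∈ A, ∑ y ∈ A.erase x, ((H x).card : ℤ) * (H y).card
        - ∑ x ∈ A, ∑ y ∈ A.erase x, ∑ v ∈ H y, (dg G (H x) v : ℤ) := by
  rw [← sum_sub_distrib]
  refine sum_congr rfl fun x hx => ?_
  rw [← sum_sub_distrib]
  refine sum_congr rfl fun y hy => ?_
  rw [sum_dg_nd (hd x hx y (mem_of_mem_erase hy) (ne_of_mem_erase hy).symm), mul_comm]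

/-- **`(P_A')`** with further testers `W`: rows `C x` with guests `H x`, `g x = |H x| - (r - 1 - |C x|)`. -/
theorem PG.rows_homes (hP : PG G r) (A : Finset ι) (C H : ι → Finset V) (W : Finset V)
    (hC : ∀ x ∈ A, Clq G (C x))
    (hd : ∀ x ∈ A, ∀ y ∈ A, x ≠ y → Disjoint (C x) (C y))
    (hH : ∀ x ∈ A, ∀ y ∈ A, x ≠ y → Disjoint (H x) (H y))
    (hCH : ∀ x ∈ A, ∀ y ∈ A, Disjoint (C x) (H y))
    (hCW : ∀ x ∈ A, Disjoint (C x) W) (hHW : ∀ x ∈ A, Disjoint (H x) W)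
    (g : ι → ℤ) (hg : ∀ x ∈ A, g x = (H x).card - ((r : ℤ) - 1 - (C x).card)) :
    2 * ((r : ℤ) - 1) * ∑ x ∈ A, (g x - 1)
      + 2 * ∑ x ∈ A, ∑ y ∈ A.erase x, ∑ v ∈ H y, (dg G (C x) v : ℤ)
      + ∑ x ∈ A, ∑ y ∈ A.erase x, ∑ v ∈ C y, (dg G (C x) v : ℤ)
      + ∑ x ∈ A, ∑ y ∈ A.erase x, ∑ v ∈ H y, (dg G (H x) v : ℤ)
      + 2 * ∑ v ∈ W, (∑ x ∈ A, ((dg G (C x) v : ℤ) + dg G (H x) v) - ∑ x ∈ A, g x)
      ≤ ∑ x ∈ A, ∑ y ∈ A.erase x, (((r : ℤ) - 1) + g x * g y)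
        + ∑ x ∈ A, (NE G (H x) : ℤ) + 2 * ∑ x ∈ A, ∑ v ∈ H x, (nd G (C x) v : ℤ)
        + NE G W := by
  have hCZ : ∀ x ∈ A, Disjoint (C x) (W ∪ A.biUnion H) := fun x hx => by
    rw [disjoint_union_right, disjoint_biUnion_right]
    exact ⟨hCW x hx, fun y hy => hCH x hx y hy⟩
  have h1 := hP.rows A C (W ∪ A.biUnion H) hC hd hCZ
  rw [NE_biUnion A H W hH hHW, card_rows A H W hH hHW] at h1
  have hWH : Disjoint W (A.biUnion H) := by
    rw [disjoint_biUnion_right]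
    exact fun x hx => (hHW x hx).symm
  have e1 : ∑ x ∈ A, ∑ v ∈ W ∪ A.biUnion H, (dg G (C x) v : ℤ)
      = ∑ x ∈ A, ∑ v ∈ W, (dg G (C x) v : ℤ) + ∑ x ∈ A, ∑ v ∈ H x, (dg G (C x) v : ℤ)
        + ∑ x ∈ A, ∑ y ∈ A.erase x, ∑ v ∈ H y, (dg G (C x) v : ℤ) := by
    rw [← sum_add_distrib, ← sum_add_distrib]
    refine sum_congr rfl fun x hx => ?_
    rw [sum_union hWH, sum_biUnion (fun x hx y hy hxy => hH x hx y hy hxy),
      ← sum_erase_add A (fun y => ∑ v ∈ H y, (dg G (C x) v : ℤ)) hx]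
    ring
  have e2 : ∑ x ∈ A, ∑ v ∈ H x, (dg G (C x) v : ℤ)
      = ∑ x ∈ A, ((H x).card : ℤ) * (C x).card - ∑ x ∈ A, ∑ v ∈ H x, (nd G (C x) v : ℤ) := by
    rw [← sum_sub_distrib]
    refine sum_congr rfl fun x hx => ?_
    rw [sum_dg_nd (hCH x hx x hx)]
    ring
  have e3 : ∑ x ∈ A, ∑ v ∈ W, (nd G (H x) v : ℤ)
      = W.card * ∑ x ∈ A, ((H x).card : ℤ) - ∑ x ∈ A, ∑ v ∈ W, (dg G (H x) v : ℤ) := by
    rw [sum_congr rfl fun x hx => sum_dg_nd (hHW x hx), sum_sub_distrib, mul_sum]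
  have e4 := sum_offdiag_nd (G := G) A H hH
  have e5 : ∑ v ∈ W, (∑ x ∈ A, ((dg G (C x) v : ℤ) + dg G (H x) v) - ∑ x ∈ A, g x)
      = ∑ x ∈ A, ∑ v ∈ W, (dg G (C x) v : ℤ) + ∑ x ∈ A, ∑ v ∈ W, (dg G (H x) v : ℤ)
        - W.card * ∑ x ∈ A, g x := by
    rw [sum_sub_distrib, sum_const, nsmul_eq_mul, sum_comm, ← sum_add_distrib]
    congr 1
    exact sum_congr rfl fun x _ => sum_add_distrib
  have hg' : ∀ x ∈ A, ((C x).card : ℤ) = (r : ℤ) - 1 - (H x).card + g x := fun x hx => by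
    rw [hg x hx]; ring
  -- everything in terms of `h = |H x|` and `g`
  have e6 : ∑ x ∈ A, ((r : ℤ) - 1 - (C x).card) = ∑ x ∈ A, ((H x).card : ℤ) - ∑ x ∈ A, g x := by
    rw [← sum_sub_distrib]
    exact sum_congr rfl fun x hx => by rw [hg' x hx]; ring
  have e7 : ∑ x ∈ A, ((H x).card : ℤ) * (C x).card
      = ((r : ℤ) - 1) * ∑ x ∈ A, ((H x).card : ℤ) - ∑ x ∈ A, ((H x).card : ℤ) * (H x).card
        + ∑ x ∈ A, ((H x).card : ℤ) * g x := by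
    rw [mul_sum, ← sum_sub_distrib, ← sum_add_distrib]
    exact sum_congr rfl fun x hx => by rw [hg' x hx]; ring
  have e8 : ∑ x ∈ A, ∑ y ∈ A.erase x,
      (((r : ℤ) - 1) + ((r : ℤ) - 1 - (C x).card) * ((r : ℤ) - 1 - (C y).card))
      = ∑ x ∈ A, ∑ y ∈ A.erase x, (((r : ℤ) - 1) + g x * g y)
        + ∑ x ∈ A, ∑ y ∈ A.erase x, ((H x).card : ℤ) * (H y).card
        - ∑ x ∈ A, ∑ y ∈ A.erase x, ((H x).card : ℤ) * g y
        - ∑ x ∈ A, ∑ y ∈ A.erase x, g x * ((H y).card : ℤ) := by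
    rw [← sum_add_distrib, ← sum_sub_distrib, ← sum_sub_distrib]
    refine sum_congr rfl fun x hx => ?_
    rw [← sum_add_distrib, ← sum_sub_distrib, ← sum_sub_distrib]
    refine sum_congr rfl fun y hy => ?_
    rw [hg' x hx, hg' y (mem_of_mem_erase hy)]
    ring
  have e9 := sum_offdiag A fun x y => ((H x).card : ℤ) * g y
  have e10 := sum_offdiag A fun x y => g x * ((H y).card : ℤ)
  have e11 : ∑ x ∈ A, ∑ y ∈ A, ((H x).card : ℤ) * g y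
      = (∑ x ∈ A, ((H x).card : ℤ)) * ∑ x ∈ A, g x := by rw [sum_mul_sum]
  have e12 : ∑ x ∈ A, ∑ y ∈ A, g x * ((H y).card : ℤ)
      = (∑ x ∈ A, g x) * ∑ x ∈ A, ((H x).card : ℤ) := by rw [sum_mul_sum]
  have e13 : ∑ x ∈ A, g x * ((H x).card : ℤ) = ∑ x ∈ A, ((H x).card : ℤ) * g x :=
    sum_congr rfl fun x _ => mul_comm _ _
  have e14 := sum_offdiag A fun x y => ((H x).card : ℤ) * (H y).card
  have e15 : ∑ x ∈ A, ∑ y ∈ A, ((H x).card : ℤ) * (H y).card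
      = (∑ x ∈ A, ((H x).card : ℤ)) ^ 2 := by rw [sq, sum_mul_sum]
  have e16 : ∑ x ∈ A, (g x - 1) = ∑ x ∈ A, g x - A.card := by
    rw [sum_sub_distrib, sum_const, nsmul_eq_mul, mul_one]
  rw [e1, e2, e3, e4, e6, e7, e8, e9, e10, e11, e12, e13, e14, e15] at h1
  rw [e5, e16]
  nlinarith

/-- one row `C` with guests `H` and further testers `W` -/
theorem PG.row_homes (hP : PG G r) {C H W : Finset V} (hC : Clq G C) (hCH : Disjoint C H)
    (hCW : Disjoint C W) (hHW : Disjoint H W) {g : ℤ}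
    (hg : g = H.card - ((r : ℤ) - 1 - C.card)) :
    2 * ((r : ℤ) - 1) * (g - 1) + 2 * ∑ v ∈ W, ((dg G C v : ℤ) + dg G H v - g)
      ≤ NE G H + 2 * ∑ v ∈ H, (nd G C v : ℤ) + NE G W := by
  have h1 := hP.rows_homes (ι := Unit) {()} (fun _ => C) (fun _ => H) W
    (fun _ _ => hC) (fun _ _ _ _ h => absurd (Subsingleton.elim _ _) h)
    (fun _ _ _ _ h => absurd (Subsingleton.elim _ _) h) (fun _ _ _ _ => hCH)
    (fun _ _ => hCW) (fun _ _ => hHW) (fun _ => g) (fun _ _ => hg)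
  simp only [sum_singleton, erase_singleton, sum_empty] at h1
  linarith

/-- **ACCOUNT**: the sum of `(P_x)` over all rows with arbitrary testers `Z x`, `b = 1 + Σ (r - |C x|)`. -/
theorem PG.account (hP : PG G r) (A : Finset ι) (C Z : ι → Finset V)
    (hC : ∀ x ∈ A, Clq G (C x)) (hZ : ∀ x ∈ A, Disjoint (C x) (Z x)) {b : ℤ}
    (hb : b = 1 + ∑ x ∈ A, ((r : ℤ) - (C x).card)) :
    2 * ((r : ℤ) - 1) * (1 + (∑ x ∈ A, ((Z x).card : ℤ) - b))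
      ≤ 2 * ∑ x ∈ A, ∑ v ∈ Z x, (nd G (C x) v : ℤ) + ∑ x ∈ A, (NE G (Z x) : ℤ) := by
  have h1 := sum_le_sum fun x hx => hP.val (hC x hx) (hZ x hx)
  rw [sum_sub_distrib, ← mul_sum, ← mul_sum] at h1
  have h2 : ∑ x ∈ A, ∑ v ∈ Z x, (((r : ℤ) - 1) - nd G (C x) v)
      = ((r : ℤ) - 1) * ∑ x ∈ A, ((Z x).card : ℤ) - ∑ x ∈ A, ∑ v ∈ Z x, (nd G (C x) v : ℤ) := by
    rw [mul_sum, ← sum_sub_distrib]
    refine sum_congr rfl fun x _ => ?_
    rw [sum_sub_distrib, sum_const, nsmul_eq_mul]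
    ring
  rw [h2] at h1
  rw [hb]
  nlinarith

end PA

end Pool.Agent.Lib.MP_f04ccf_co
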