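import Pool.Agent.Lib.MP_f04ccf_co.M.Back
import Pool.Agent.Lib.MP_f04ccf_co.M.PA
import Pool.Agent.Lib.MP_f04ccf_co.M.Tau

/-!
MP_f04ccf_co: the closure set account of note 15240.  `cn N S` is the vertex cover number of the
graph `N` inside `S`.  `closure_min`: a minimal set `A` of rows with `1 ≤ f A`, where
`f B = ∑ x ∈ B, (s x - out x B)`, and the removal inequality.  `PFrame.star`: property (P) on the
union of the slots of `A`.  `PFrame.star_kills`: the same with the kill graphs plugged in.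
`PFrame.front_test`: the test of one row with one front set for all hosts.
-/

set_option autoImplicit false

namespace Pool.Agent.Lib.MP_f04ccf_co

open Finset

attribute [local instance] Classical.propDecidable

section CoverNumber

variable {V : Type*} {G N N' : SimpleGraph V} {S S' : Finset V}

/-- the vertex cover number of `N` inside `S` -/
noncomputable def cn (N : SimpleGraph V) (S : Finset V) : ℕ :=
  sInf {k | ∃ K : Finset V, K ⊆ S ∧ CovN N S K ∧ K.card = k}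

lemma exists_cn (N : SimpleGraph V) (S : Finset V) :
    ∃ K : Finset V, K ⊆ S ∧ CovN N S K ∧ K.card = cn N S :=
  Nat.sInf_mem (s := {k | ∃ K : Finset V, K ⊆ S ∧ CovN N S K ∧ K.card = k})
    ⟨S.card, S, Subset.refl S, fun _ hp _ _ _ => Or.inl hp, rfl⟩

lemma cn_le {K : Finset V} (hK : CovN N S K) : cn N S ≤ (K ∩ S).card :=
  Nat.sInf_le ⟨K ∩ S, inter_subset_right, fun p hp q hq hpq => by
    rcases hK p hp q hq hpq with h | h
    · exact Or.inl (mem_inter.2 ⟨h, hp⟩)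
    · exact Or.inr (mem_inter.2 ⟨h, hq⟩), rfl⟩

lemma cn_le' {K : Finset V} (hK : CovN N S K) : cn N S ≤ K.card :=
  (cn_le hK).trans (card_le_card inter_subset_left)

lemma cn_le_card : cn N S ≤ S.card :=
  cn_le' (K := S) fun _ hp _ _ _ => Or.inl hp

lemma cn_mono (h : ∀ p ∈ S, ∀ q ∈ S, N.Adj p q → N'.Adj p q) : cn N S ≤ cn N' S := by
  obtain ⟨K, -, hK, hc⟩ := exists_cn N' S
  rw [← hc]
  exact cn_le' fun p hp q hq hpq => hK p hp q hq (h p hp q hq hpq)

lemma cn_mono_set (h : S ⊆ S') : cn N S ≤ cn N S' := by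
  obtain ⟨K, -, hK, hc⟩ := exists_cn N S'
  rw [← hc]
  exact cn_le' fun p hp q hq hpq => hK p (h hp) q (h hq) hpq

/-- subadditivity -/
lemma cn_sup_le {N₁ N₂ : SimpleGraph V}
    (h : ∀ p ∈ S, ∀ q ∈ S, N.Adj p q → N₁.Adj p q ∨ N₂.Adj p q) :
    cn N S ≤ cn N₁ S + cn N₂ S := by
  obtain ⟨K₁, -, hK₁, hc₁⟩ := exists_cn N₁ S
  obtain ⟨K₂, -, hK₂, hc₂⟩ := exists_cn N₂ S
  rw [← hc₁, ← hc₂]
  refine (cn_le' (K := K₁ ∪ K₂) fun p hp q hq hpq => ?_).trans (card_union_le _ _)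
  rcases h p hp q hq hpq with h1 | h1
  · rcases hK₁ p hp q hq h1 with h2 | h2
    · exact Or.inl (mem_union_left _ h2)
    · exact Or.inr (mem_union_left _ h2)
  · rcases hK₂ p hp q hq h1 with h2 | h2
    · exact Or.inl (mem_union_right _ h2)
    · exact Or.inr (mem_union_right _ h2)

/-- subadditivity for a family -/
lemma cn_sum_le {ι : Type*} (Y : Finset ι) (M : ι → SimpleGraph V)
    (h : ∀ p ∈ S, ∀ q ∈ S, N.Adj p q → ∃ y ∈ Y, (M y).Adj p q) :
    cn N S ≤ ∑ y ∈ Y, cn (M y) S := by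
  have hex := fun y => exists_cn (M y) S
  choose K _ hK hc using hex
  have h1 : CovN N S (Y.biUnion K) := by
    intro p hp q hq hpq
    obtain ⟨y, hy, hpq'⟩ := h p hp q hq hpq
    rcases hK y p hp q hq hpq' with h2 | h2
    · exact Or.inl (mem_biUnion.2 ⟨y, hy, h2⟩)
    · exact Or.inr (mem_biUnion.2 ⟨y, hy, h2⟩)
  refine (cn_le' h1).trans (card_biUnion_le.trans (le_of_eq ?_))
  exact sum_congr rfl fun y _ => hc y

/-- the complement of a cover of the missing pairs is a clique -/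
lemma card_le_cn {R : ℕ} (h : ∀ K : Finset V, K ⊆ S → Clq G K → K.card ≤ R) :
    S.card ≤ cn (co G) S + R := by
  obtain ⟨K, hKS, hK, hc⟩ := exists_cn (co G) S
  have h1 : Clq G (S \ K) := by
    intro p hp q hq hpq
    by_contra hn
    obtain ⟨p1, p2⟩ := mem_sdiff.1 hp
    obtain ⟨q1, q2⟩ := mem_sdiff.1 hq
    rcases hK p p1 q q1 (co_adj.2 ⟨hpq, hn⟩) with h2 | h2
    · exact p2 h2
    · exact q2 h2
  have h2 := h _ sdiff_subset h1
  have h3 := card_sdiff_add_card_eq_card hKS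
  omega

end CoverNumber

section Closure

variable {ι : Type*}

/-- the spare of `B` minus the kills leaving `B` -/
def fB (s : ι → ℤ) (out : ι → Finset ι → ℕ) (B : Finset ι) : ℤ := ∑ x ∈ B, (s x - out x B)

/-- **closure set**: a minimal set with `1 ≤ f A`, and the removal inequality -/
theorem closure_min {s : ι → ℤ} {out : ι → Finset ι → ℕ} {T : Finset ι} (hT : 1 ≤ fB s out T) :
    ∃ A ⊆ T, 1 ≤ fB s out A ∧ (∀ B, B ⊂ A → fB s out B ≤ 0) ∧
      ∀ y ∈ A, fB s out A - s y + out y A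
        ≤ ∑ x ∈ A.erase y, ((out x (A.erase y) : ℤ) - out x A) := by
  obtain ⟨A, hA, hmin⟩ := exists_min_image (T.powerset.filter (fun B => 1 ≤ fB s out B)) card
    ⟨T, mem_filter.2 ⟨mem_powerset.2 (Subset.refl T), hT⟩⟩
  obtain ⟨hA1, hA2⟩ := mem_filter.1 hA
  have hAT := mem_powerset.1 hA1
  have hm : ∀ B, B ⊂ A → fB s out B ≤ 0 := by
    intro B hB
    by_contra hcon
    have h1 := hmin B (mem_filter.2 ⟨mem_powerset.2 (hB.1.trans hAT), by omega⟩)
    have h2 := card_lt_card hB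
    omega
  refine ⟨A, hAT, hA2, hm, fun y hy => ?_⟩
  have h1 := hm (A.erase y) (erase_ssubset hy)
  unfold fB at h1 ⊢
  rw [← sum_erase_add A (fun x => s x - (out x A : ℤ)) hy]
  simp only [sum_sub_distrib] at h1 ⊢
  linarith

end Closure

section Star

variable {V : Type*} {G : SimpleGraph V} {Z T : Finset V} {hm : V → V} {r m t : ℕ}

/-- property (P) on the union of the slots of the rows in `A`, ordered pairs of rows -/
theorem PFrame.star (h : PFrame G r m t Z T) (hP : PG G r) {A : Finset V} (hA : A ⊆ T) :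
    2 * ((r : ℤ) - 1) * ∑ x ∈ A, (((MM G Z T hm x).card : ℤ) - r)
      + 2 * ∑ x ∈ A, ∑ y ∈ A.erase x, ∑ c ∈ Cl G Z T y, (dg G (MM G Z T hm x) c : ℤ)
      + ∑ x ∈ A, ∑ y ∈ A.erase x, ∑ v ∈ Ph G Z T hm y, (dg G (Ph G Z T hm x) v : ℤ)
      ≤ ∑ x ∈ A, ∑ y ∈ A.erase x, (((r : ℤ) - 1) + (((MM G Z T hm x).card : ℤ) - r + 1)
            * (((MM G Z T hm y).card : ℤ) - r + 1))
        + ∑ x ∈ A, ∑ y ∈ A.erase x, ∑ v ∈ Cl G Z T y, (dg G (Cl G Z T x) v : ℤ)
        + ∑ x ∈ A, (NE G (MM G Z T hm x) : ℤ) := by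
  have hcl : ∀ x ∈ A, Clq G (Cl G Z T x) := fun x hx => h.Cl_clq (hA hx)
  have hdC : ∀ x ∈ A, ∀ y ∈ A, x ≠ y → Disjoint (Cl G Z T x) (Cl G Z T y) :=
    fun x hx y hy hxy => Cl_Cl_disjoint (hA hx) (hA hy) hxy
  have hdH : ∀ x ∈ A, ∀ y ∈ A, x ≠ y → Disjoint (Ph G Z T hm x) (Ph G Z T hm y) := by
    intro x _ y _ hxy
    rw [disjoint_left]
    intro v hv hv'
    exact hxy ((mem_Ph.1 hv).2.symm.trans (mem_Ph.1 hv').2)
  have hdCH : ∀ x ∈ A, ∀ y ∈ A, Disjoint (Cl G Z T x) (Ph G Z T hm y) := by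
    intro x hx y _
    exact disjoint_of_subset_right (filter_subset _ _) (Cl_BB_disjoint (hA hx))
  have hcard : ∀ x ∈ A, ((MM G Z T hm x).card : ℤ)
      = (Cl G Z T x).card + (Ph G Z T hm x).card := by
    intro x hx
    unfold MM
    rw [card_union_of_disjoint (hdCH x hx x hx)]
    push_cast
    rfl
  have h1 := hP.rows_homes A (fun x => Cl G Z T x) (fun x => Ph G Z T hm x) ∅ hcl hdC hdH hdCH
    (fun _ _ => disjoint_empty_right _) (fun _ _ => disjoint_empty_right _)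
    (fun x => ((MM G Z T hm x).card : ℤ) - r + 1) (fun x hx => by
      rw [hcard x hx]
      ring)
  have hNE : ∀ x ∈ A, (NE G (MM G Z T hm x) : ℤ)
      = NE G (Ph G Z T hm x) + 2 * ∑ v ∈ Ph G Z T hm x, (nd G (Cl G Z T x) v : ℤ) := by
    intro x hx
    unfold MM
    rw [NE_union (hdCH x hx x hx), NE_clq (hcl x hx)]
    push_cast
    ring
  have hdg : ∀ x ∈ A, ∀ y ∈ A.erase x, ∑ c ∈ Cl G Z T y, (dg G (MM G Z T hm x) c : ℤ)
      = ∑ v ∈ Cl G Z T y, (dg G (Cl G Z T x) v : ℤ)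
        + ∑ v ∈ Ph G Z T hm x, (dg G (Cl G Z T y) v : ℤ) := by
    intro x hx y _
    have e1 : ∑ v ∈ Ph G Z T hm x, (dg G (Cl G Z T y) v : ℤ)
        = ∑ c ∈ Cl G Z T y, (dg G (Ph G Z T hm x) c : ℤ) := by
      have := dg_comm G (Ph G Z T hm x) (Cl G Z T y)
      exact_mod_cast this
    rw [e1, ← sum_add_distrib]
    refine sum_congr rfl fun c _ => ?_
    have e2 : dg G (MM G Z T hm x) c = dg G (Cl G Z T x) c + dg G (Ph G Z T hm x) c := by
      unfold MM dg
      rw [filter_union, card_union_of_disjoint (disjoint_filter_filter (hdCH x hx x hx))]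
    rw [e2]
    push_cast
    rfl
  have hsw : ∑ x ∈ A, ∑ y ∈ A.erase x, ∑ v ∈ Ph G Z T hm x, (dg G (Cl G Z T y) v : ℤ)
      = ∑ x ∈ A, ∑ y ∈ A.erase x, ∑ v ∈ Ph G Z T hm y, (dg G (Cl G Z T x) v : ℤ) := by
    rw [sum_offdiag A fun x y => ∑ v ∈ Ph G Z T hm x, (dg G (Cl G Z T y) v : ℤ),
      sum_offdiag A fun x y => ∑ v ∈ Ph G Z T hm y, (dg G (Cl G Z T x) v : ℤ), sum_comm]
  have hsum : ∑ x ∈ A, ∑ y ∈ A.erase x, ∑ c ∈ Cl G Z T y, (dg G (MM G Z T hm x) c : ℤ)
      = ∑ x ∈ A, ∑ y ∈ A.erase x, ∑ v ∈ Cl G Z T y, (dg G (Cl G Z T x) v : ℤ)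
        + ∑ x ∈ A, ∑ y ∈ A.erase x, ∑ v ∈ Ph G Z T hm y, (dg G (Cl G Z T x) v : ℤ) := by
    rw [← hsw, ← sum_add_distrib]
    refine sum_congr rfl fun x hx => ?_
    rw [← sum_add_distrib]
    exact sum_congr rfl fun y hy => hdg x hx y hy
  have hs : ∑ x ∈ A, (((MM G Z T hm x).card : ℤ) - r + 1 - 1)
      = ∑ x ∈ A, (((MM G Z T hm x).card : ℤ) - r) := sum_congr rfl fun x _ => by ring
  have e0 : (NE G (∅ : Finset V) : ℤ) = 0 := by
    have : NE G (∅ : Finset V) = 0 := rfl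
    rw [this]
    rfl
  rw [sum_congr rfl hNE, hsum, sum_add_distrib, ← mul_sum]
  simp only [hs, sum_empty, e0] at h1
  linarith

/-- **the account with kills**: `Γ x y` are missing pairs of the slot `x` given to the row `y ∈ A`,
`Ou x` are the others; Lemma N gives `hN` -/
theorem PFrame.star_kills (h : PFrame G r m t Z T) (hP : PG G r) {A : Finset V} (hA : A ⊆ T)
    (Γ : V → V → SimpleGraph V) (Ou : V → SimpleGraph V) (τ : V → V → ℕ) (q : V → V → ℤ)
    (hN : ∀ x ∈ A, ∀ y ∈ A.erase x, (E (Γ x y) (MM G Z T hm x) : ℤ)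
        + 2 * τ x y * ((Cl G Z T y).card - (Ph G Z T hm x).card) + q x y
      ≤ 2 * ∑ c ∈ Cl G Z T y, (dg G (MM G Z T hm x) c : ℤ))
    (hE : ∀ x ∈ A, ∀ p ∈ MM G Z T hm x, ∀ p' ∈ MM G Z T hm x, (co G).Adj p p' →
      (Ou x).Adj p p' ∨ ∃ y ∈ A.erase x, (Γ x y).Adj p p') :
    2 * ((r : ℤ) - 1) * ∑ x ∈ A, (((MM G Z T hm x).card : ℤ) - r)
      + ∑ x ∈ A, ∑ y ∈ A.erase x,
          (2 * τ x y * (((Cl G Z T y).card : ℤ) - (Ph G Z T hm x).card) + q x y)
      + ∑ x ∈ A, ∑ y ∈ A.erase x, ∑ v ∈ Ph G Z T hm y, (dg G (Ph G Z T hm x) v : ℤ)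
      ≤ ∑ x ∈ A, ∑ y ∈ A.erase x, (((r : ℤ) - 1) + (((MM G Z T hm x).card : ℤ) - r + 1)
            * (((MM G Z T hm y).card : ℤ) - r + 1))
        + ∑ x ∈ A, ∑ y ∈ A.erase x, ∑ v ∈ Cl G Z T y, (dg G (Cl G Z T x) v : ℤ)
        + ∑ x ∈ A, (E (Ou x) (MM G Z T hm x) : ℤ) := by
  have h1 := h.star hP (hm := hm) hA
  have h2 : ∀ x ∈ A, (NE G (MM G Z T hm x) : ℤ)
      ≤ E (Ou x) (MM G Z T hm x) + ∑ y ∈ A.erase x, (E (Γ x y) (MM G Z T hm x) : ℤ) := by
    intro x hx
    have e1 : NE G (MM G Z T hm x)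
        ≤ E (Ou x) (MM G Z T hm x) + ∑ y ∈ A.erase x, E (Γ x y) (MM G Z T hm x) := by
      unfold NE E
      rw [sum_comm, ← sum_add_distrib]
      refine sum_le_sum fun p hp => ?_
      have e2 : (MM G Z T hm x).filter (fun p' => p' ≠ p ∧ ¬ G.Adj p p')
          ⊆ (MM G Z T hm x).filter (fun p' => (Ou x).Adj p p')
            ∪ (A.erase x).biUnion
              (fun y => (MM G Z T hm x).filter (fun p' => (Γ x y).Adj p p')) := by
        intro p' hp'
        obtain ⟨a1, a2⟩ := mem_filter.1 hp'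
        rcases hE x hx p hp p' a1 (co_adj.2 ⟨a2.1.symm, a2.2⟩) with h3 | ⟨y, hy, h3⟩
        · exact mem_union_left _ (mem_filter.2 ⟨a1, h3⟩)
        · exact mem_union_right _ (mem_biUnion.2 ⟨y, hy, mem_filter.2 ⟨a1, h3⟩⟩)
      unfold nd dg
      refine (card_le_card e2).trans ((card_union_le _ _).trans ?_)
      exact Nat.add_le_add_left card_biUnion_le _
    exact_mod_cast e1
  have h3 : ∑ x ∈ A, ∑ y ∈ A.erase x, ((E (Γ x y) (MM G Z T hm x) : ℤ)
        + (2 * τ x y * (((Cl G Z T y).card : ℤ) - (Ph G Z T hm x).card) + q x y))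
      ≤ 2 * ∑ x ∈ A, ∑ y ∈ A.erase x, ∑ c ∈ Cl G Z T y, (dg G (MM G Z T hm x) c : ℤ) := by
    rw [mul_sum]
    refine sum_le_sum fun x hx => ?_
    rw [mul_sum]
    refine sum_le_sum fun y hy => ?_
    have := hN x hx y hy
    linarith
  have h4 := sum_le_sum h2
  rw [sum_add_distrib] at h4
  simp only [sum_add_distrib] at h3 h4 ⊢
  simp only [sum_add_distrib] at h1
  linarith

/-- **the test of one row with a front set**: `X` are the hosts, `Γ x` the pairs of the slot `x`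
which are served at `y`, `k ≤` the sum of the cover numbers -/
theorem PFrame.front_test (h : PFrame G r m t Z T) (hP : PG G r) {y : V} (hy : y ∈ T)
    {X : Finset V} (hX : X ⊆ T.erase y) (Γ : V → SimpleGraph V)
    (hs : ∀ x ∈ X, SrvBy G (Γ x) (MM G Z T hm x) (Cl G Z T y)) {k : ℕ}
    (hk : k ≤ ∑ x ∈ X, cn (Γ x) (MM G Z T hm x)) :
    ∃ p : ℕ, k ≤ p ∧ p ≤ 2 * k ∧
      2 * ((r : ℤ) - 1) * (((MM G Z T hm y).card : ℤ) - r)
        + 2 * k * (((r : ℤ) - 1) - (Ph G Z T hm y).card + (((MM G Z T hm y).card : ℤ) - r + 1))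
        ≤ NE G (MM G Z T hm y) + p * ((p : ℤ) - 1 + 2 * (((MM G Z T hm y).card : ℤ) - r + 1)) := by
  set S : V → Finset V := fun x => MM G Z T hm x with hS
  set W := X.biUnion S with hW
  have hdS : ∀ x ∈ T, ∀ x' ∈ T, x ≠ x' → Disjoint (S x) (S x') := by
    intro x hx x' hx' hne
    simp only [hS, MM]
    rw [disjoint_union_left, disjoint_union_right, disjoint_union_right]
    refine ⟨⟨Cl_Cl_disjoint hx hx' hne,
      disjoint_of_subset_right (filter_subset _ _) (Cl_BB_disjoint hx)⟩,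
      (disjoint_of_subset_right (filter_subset _ _) (Cl_BB_disjoint hx')).symm, ?_⟩
    rw [disjoint_left]
    intro v hv hv'
    exact hne ((mem_Ph.1 hv).2.symm.trans (mem_Ph.1 hv').2)
  have hXT : ∀ x ∈ X, x ∈ T ∧ x ≠ y := fun x hx =>
    ⟨mem_of_mem_erase (hX hx), ne_of_mem_erase (hX hx)⟩
  -- the front set
  obtain ⟨P, hPW, -, hPc, hPf⟩ := Tau.front_set_rel W
    (fun u v => ∃ x ∈ X, u ∈ S x ∧ v ∈ S x ∧ (Γ x).Adj u v) k (by
      intro K _ hK
      have e1 : ∀ x ∈ X, cn (Γ x) (S x) ≤ (K ∩ S x).card := by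
        intro x hx
        refine cn_le fun p hp q hq hpq => ?_
        exact hK p (mem_biUnion.2 ⟨x, hx, hp⟩) q (mem_biUnion.2 ⟨x, hx, hq⟩) ⟨x, hx, hp, hq, hpq⟩
      refine hk.trans ((sum_le_sum e1).trans ?_)
      rw [← card_biUnion]
      · exact card_le_card (biUnion_subset.2 fun x _ => inter_subset_left)
      · intro x hx x' hx' hne
        exact disjoint_of_subset_left inter_subset_right (disjoint_of_subset_right
          inter_subset_right (hdS x (hXT x hx).1 x' (hXT x' hx').1 hne)))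
  -- every point of the class sees `k` points of the front set
  have hload : ∀ c ∈ Cl G Z T y, k ≤ dg G P c := by
    intro c hc
    have e1 := hPf (W.filter (fun v => G.Adj c v)) (by
      rintro u hu v hv ⟨x, hx, hux, hvx, huv⟩
      rcases hs x hx u hux v hvx huv c hc with h1 | h1
      · exact Or.inl (mem_filter.2 ⟨hu, h1.symm⟩)
      · exact Or.inr (mem_filter.2 ⟨hv, h1.symm⟩))
    refine e1.trans (card_le_card fun v hv => ?_)
    obtain ⟨v1, v2⟩ := mem_inter.1 hv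
    exact mem_filter.2 ⟨v2, (mem_filter.1 v1).2⟩
  have hPd : Disjoint (S y) P := by
    refine disjoint_of_subset_right hPW ?_
    rw [hW, disjoint_biUnion_right]
    intro x hx
    exact hdS y hy x (hXT x hx).1 (hXT x hx).2.symm
  have hkp : k ≤ P.card := by
    have e1 := hload y (h.self_mem_Cl hy)
    exact e1.trans (card_filter_le _ _)
  refine ⟨P.card, hkp, hPc, ?_⟩
  -- the test
  have h1 := hP.ne1 (S y ∪ P)
  rw [NE_union hPd, card_union_of_disjoint hPd] at h1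
  have hCH : Disjoint (Cl G Z T y) (Ph G Z T hm y) :=
    disjoint_of_subset_right (filter_subset _ _) (Cl_BB_disjoint hy)
  have hcard : ((S y).card : ℤ) = (Cl G Z T y).card + (Ph G Z T hm y).card := by
    simp only [hS, MM]
    rw [card_union_of_disjoint hCH]
    push_cast
    rfl
  have h2 : ∑ v ∈ P, (nd G (S y) v : ℤ)
      ≤ P.card * (Cl G Z T y).card - k * (Cl G Z T y).card
        + P.card * (Ph G Z T hm y).card := by
    have e1 : ∀ v ∈ P, (nd G (S y) v : ℤ) ≤ nd G (Cl G Z T y) v + (Ph G Z T hm y).card := by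
      intro v _
      have e2 : nd G (S y) v = nd G (Cl G Z T y) v + nd G (Ph G Z T hm y) v := by
        simp only [hS, MM]
        exact nd_union hCH v
      have e3 : nd G (Ph G Z T hm y) v ≤ (Ph G Z T hm y).card := card_filter_le _ _
      rw [e2]
      push_cast
      have e3' : (nd G (Ph G Z T hm y) v : ℤ) ≤ (Ph G Z T hm y).card := by exact_mod_cast e3
      linarith
    have hCP : Disjoint (Cl G Z T y) P :=
      disjoint_of_subset_left (by simp only [hS, MM]; exact subset_union_left) hPd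
    have e4 := sum_dg_nd (G := G) hCP
    have e5 : (k : ℤ) * (Cl G Z T y).card ≤ ∑ v ∈ P, (dg G (Cl G Z T y) v : ℤ) := by
      have e6 : ∑ v ∈ P, (dg G (Cl G Z T y) v : ℤ) = ∑ c ∈ Cl G Z T y, (dg G P c : ℤ) := by
        have := dg_comm G P (Cl G Z T y)
        exact_mod_cast this
      rw [e6]
      have e7 : ∑ _c ∈ Cl G Z T y, (k : ℤ) ≤ ∑ c ∈ Cl G Z T y, (dg G P c : ℤ) :=
        sum_le_sum fun c hc => by exact_mod_cast hload c hc
      rw [sum_const, nsmul_eq_mul] at e7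
      linarith
    have e8 := sum_le_sum e1
    rw [sum_add_distrib, sum_const, nsmul_eq_mul, e4] at e8
    linarith
  have h3 : (NE G P : ℤ) ≤ P.card * (P.card - 1) := by
    have e1 := E_add_NE (G := G) P
    have e2 : (0 : ℤ) ≤ E G P := by positivity
    linarith
  push_cast at h1
  have hSy : (MM G Z T hm y) = S y := rfl
  rw [hSy]
  rw [hcard] at h1 ⊢
  nlinarith

/-- the same with `2 k` front points (`k ≥ 1 - s`) -/
theorem PFrame.front_test' (h : PFrame G r m t Z T) (hP : PG G r) {y : V} (hy : y ∈ T)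
    {X : Finset V} (hX : X ⊆ T.erase y) (Γ : V → SimpleGraph V)
    (hs : ∀ x ∈ X, SrvBy G (Γ x) (MM G Z T hm x) (Cl G Z T y)) {k : ℕ}
    (hk : k ≤ ∑ x ∈ X, cn (Γ x) (MM G Z T hm x))
    (hk1 : 1 ≤ (k : ℤ) + (((MM G Z T hm y).card : ℤ) - r)) :
    2 * ((r : ℤ) - 1) * (((MM G Z T hm y).card : ℤ) - r)
      + 2 * k * (((r : ℤ) - 1) - (Ph G Z T hm y).card)
      ≤ NE G (MM G Z T hm y) + 2 * k * (2 * (k : ℤ) + (((MM G Z T hm y).card : ℤ) - r)) := by
  obtain ⟨p, hp1, hp2, hp⟩ := h.front_test hP hy hX Γ hs hk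
  have h1 : (k : ℤ) ≤ p := by exact_mod_cast hp1
  have h2 : (p : ℤ) ≤ 2 * k := by exact_mod_cast hp2
  have h0 : (0 : ℤ) ≤ k := by positivity
  nlinarith [mul_nonneg (sub_nonneg.2 h2) (show (0 : ℤ) ≤ 2 * k + p - 1
    + 2 * (((MM G Z T hm y).card : ℤ) - r + 1) by linarith)]

end Star

end Pool.Agent.Lib.MP_f04ccf_co
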