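import Pool.Agent.Lib.MP_f04ccf_co.M.ZMat
import Pool.Agent.Lib.MP_f04ccf_co.S2Total
import Pool.Agent.Lib.MP_f04ccf_co.S2Over

/-!
MP_f04ccf_co: the account of note 15231 (2), (3).  All homes are full, the missing pairs of a home are
served.  For the row `y` the testers are `Ph y` and the vertices of one matching of pairs served at
`y`, all of them with the same home.
-/

set_option autoImplicit false

namespace Pool.Agent.Lib.MP_f04ccf_co

open Finset

attribute [local instance] Classical.propDecidable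

section ZAcc

variable {V : Type*} {G : SimpleGraph V} {r : ℕ}

/-- the missing pairs which are served by `C` -/
def svC (G : SimpleGraph V) (C : Finset V) : SimpleGraph V where
  Adj p q := (co G).Adj p q ∧ ∀ c ∈ C, G.Adj p c ∨ G.Adj q c
  symm := ⟨fun _ _ h => ⟨h.1.symm, fun c hc => (h.2 c hc).symm⟩⟩
  loopless := ⟨fun p h => (co G).loopless.irrefl p h.1⟩

lemma svC_le (C : Finset V) : svC G C ≤ co G := fun _ _ h => h.1

/-- a served pair misses at most `|C|` points of `C` together -/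
lemma svC_nd {C : Finset V} {p q : V} (h : (svC G C).Adj p q) :
    nd G C p + nd G C q ≤ C.card := by
  unfold nd
  rw [← card_union_of_disjoint, ← filter_or]
  · exact card_filter_le _ _
  · rw [disjoint_filter]
    intro c hc h2 h3
    rcases h.2 c hc with h4 | h4
    · exact h2.2 h4
    · exact h3.2 h4

/-- one row, tested with its guests `H` and the vertices of a matching of served pairs -/
lemma PG.row_match (hP : PG G r) {C H : Finset V} (hC : Clq G C) (hCH : Disjoint C H)
    {W : Finset V} {N : Finset (V × V)} (hN : Mt (svC G C) W N) (hCW : Disjoint C W)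
    (hHW : Disjoint H W) :
    2 * ((r : ℤ) - 1) * (C.card + H.card - r)
      + (2 * ((2 * ((r : ℤ) - 1) - 2 * H.card - C.card) * N.card) - E (co G) (Kt N))
      ≤ NE G H + 2 * ∑ v ∈ H, (nd G C v : ℤ) := by
  have hK := hN.Kt_sub
  have hHK : Disjoint H (Kt N) := hHW.mono_right hK
  have h1 := hP.val hC (Y := H ∪ Kt N) (disjoint_union_right.2 ⟨hCH, hCW.mono_right hK⟩)
  rw [sum_union hHK, NE_union hHK] at h1
  have h2 : ∑ x ∈ Kt N, (nd G H x : ℤ) ≤ 2 * N.card * H.card := by
    have e1 : ∀ x ∈ Kt N, (nd G H x : ℤ) ≤ H.card := by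
      intro x _
      have : nd G H x ≤ H.card := card_filter_le _ _
      exact_mod_cast this
    have e2 := sum_le_sum e1
    rw [sum_const, nsmul_eq_mul, hN.card_Kt] at e2
    push_cast at e2
    exact e2
  have h3 : ((2 * ((r : ℤ) - 1) - C.card) * N.card) ≤ ∑ v ∈ Kt N, (((r : ℤ) - 1) - nd G C v) := by
    rw [hN.sum_Kt]
    have e1 : ∀ e ∈ N, (2 * ((r : ℤ) - 1) - C.card)
        ≤ (((r : ℤ) - 1) - nd G C e.1) + (((r : ℤ) - 1) - nd G C e.2) := by
      intro e he
      have := svC_nd (hN.adj e he)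
      have h4 : (nd G C e.1 : ℤ) + nd G C e.2 ≤ C.card := by exact_mod_cast this
      linarith
    have e2 := sum_le_sum e1
    rw [sum_const, nsmul_eq_mul, mul_comm] at e2
    exact e2
  have h4 : ∑ v ∈ H, (((r : ℤ) - 1) - nd G C v) = H.card * ((r : ℤ) - 1)
      - ∑ v ∈ H, (nd G C v : ℤ) := by
    rw [sum_sub_distrib, sum_const, nsmul_eq_mul]
  have h5 : (NE G (Kt N) : ℤ) = E (co G) (Kt N) := by rw [NE_eq_E]
  rw [h4] at h1
  push_cast at h1
  rw [h5] at h1
  nlinarith

/-- the best host of a row -/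
lemma best_host {ι : Type*} (A : Finset ι) (n k e : ι → ℤ) (hn : ∀ x ∈ A, 0 ≤ n x)
    (hk : ∀ x ∈ A, 0 ≤ k x) (he : ∀ x ∈ A, 0 ≤ e x) (hk0 : ∀ x ∈ A, n x = 0 → k x = 0) :
    (∑ x ∈ A, (2 * (n x - 1) * k x - e x) ≤ 0) ∨
      ∃ x ∈ A, ∑ x ∈ A, (2 * (n x - 1) * k x - e x) ≤ 2 * (∑ x ∈ A, n x - 1) * k x - e x := by
  by_contra hcon
  push Not at hcon
  obtain ⟨h0, h1⟩ := hcon
  set S := ∑ x ∈ A, (2 * (n x - 1) * k x - e x) with hS
  set M := ∑ x ∈ A, n x with hM
  have hM0 : 0 ≤ M := sum_nonneg hn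
  have hnM : ∀ x ∈ A, n x ≤ M := fun x hx => single_le_sum (f := n) hn hx
  -- some `n x` is positive
  have hpos : ∃ x ∈ A, 0 < n x := by
    by_contra hcon
    push Not at hcon
    have h2 : S ≤ 0 := by
      rw [hS]
      refine sum_nonpos fun x hx => ?_
      have h3 : n x = 0 := le_antisymm (hcon x hx) (hn x hx)
      rw [hk0 x hx h3]
      have := he x hx
      linarith
    linarith
  obtain ⟨x0, hx0, hp⟩ := hpos
  have hlt : ∑ x ∈ A, n x * (2 * (M - 1) * k x - e x) < ∑ x ∈ A, n x * S := by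
    refine sum_lt_sum (fun x hx => mul_le_mul_of_nonneg_left (h1 x hx).le (hn x hx)) ⟨x0, hx0, ?_⟩
    exact mul_lt_mul_of_pos_left (h1 x0 hx0) hp
  rw [← sum_mul] at hlt
  have hge : M * S ≤ ∑ x ∈ A, n x * (2 * (M - 1) * k x - e x) := by
    rw [hS, mul_sum]
    refine sum_le_sum fun x hx => ?_
    have a1 := hnM x hx
    have a2 := hk x hx
    have a3 := he x hx
    have a4 := mul_nonneg (sub_nonneg.2 a1) a2
    have a5 := mul_nonneg (sub_nonneg.2 a1) a3
    nlinarith
  linarith

variable {Z T : Finset V} {hm : V → V} {m t : ℕ}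

/-- **the account**: all homes are full and the clique condition of `zmat` holds for every home -/
theorem PFrame.Z1_account (h : PFrame G r m t Z T) (hP : PG G r) (hh : Homes G Z T hm)
    (hfull : ∀ z ∈ BB G Z T, kk G Z T hm z = 0) (hD : (BB G Z T).card + 1 ≤ r)
    (hcl : ∀ x ∈ T, ∀ J : Finset V, J ⊆ Ph G Z T hm x → Clq (co G) J → 2 ≤ J.card →
      J.card ≤ ((T.erase x).filter
        (fun y => ∃ a ∈ J, ∃ b ∈ J, (svC G (Cl G Z T y)).Adj a b)).card + 1) :
    2 * ((r : ℤ) - 1) ≤ (BB G Z T).card + ∑ y ∈ T, max (((MM G Z T hm y).card : ℤ) - r) 0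
      * ((BB G Z T).card - (Ph G Z T hm y).card) := by
  -- matchings
  have hz : ∀ x, ∃ N : V → Finset (V × V), x ∈ T →
      (∀ y ∈ T.erase x, Mt (svC G (Cl G Z T y)) (Ph G Z T hm x) (N y)) ∧
      (E (co G) (Ph G Z T hm x) : ℤ) - (Ph G Z T hm x).card ≤ ∑ y ∈ T.erase x,
        (2 * (((Ph G Z T hm x).card : ℤ) - 1) * (N y).card - E (co G) (Kt (N y))) := by
    intro x
    by_cases hx : x ∈ T
    · obtain ⟨N, h1, _, h2⟩ := zmat (co G) (T.erase x) (fun y => svC G (Cl G Z T y))
        (fun y _ => svC_le _) _ (Ph G Z T hm x) rfl (hcl x hx)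
      exact ⟨N, fun _ => ⟨h1, h2⟩⟩
    · exact ⟨fun _ => ∅, fun h => absurd h hx⟩
  choose N hN using hz
  -- number of guests outside a row
  have hcardP : ∀ y ∈ T, ∑ x ∈ T.erase y, ((Ph G Z T hm x).card : ℤ)
      = (BB G Z T).card - (Ph G Z T hm y).card := by
    intro y hy
    have h1 : ∑ x ∈ T, ((Ph G Z T hm x).card : ℤ) = (BB G Z T).card := by
      have := PFrame.sum_Ph hh (fun _ => 1)
      simpa using this
    rw [← h1, ← add_sum_erase T _ hy]
    ring
  have hMt : ∀ y ∈ T, ∀ x ∈ T.erase y,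
      Mt (svC G (Cl G Z T y)) (Ph G Z T hm x) (N x y) := by
    intro y hy x hx
    exact (hN x (mem_of_mem_erase hx)).1 y (mem_erase.2 ⟨(ne_of_mem_erase hx).symm, hy⟩)
  have hkn : ∀ y ∈ T, ∀ x ∈ T.erase y, 2 * (N x y).card ≤ (Ph G Z T hm x).card := by
    intro y hy x hx
    rw [← (hMt y hy x hx).card_Kt]
    exact card_le_card (hMt y hy x hx).Kt_sub
  -- one row
  have hrow : ∀ y ∈ T, 2 * ((r : ℤ) - 1) * ((MM G Z T hm y).card - r)
      + ∑ x ∈ T.erase y, (2 * (((Ph G Z T hm x).card : ℤ) - 1) * (N x y).card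
        - E (co G) (Kt (N x y)))
      ≤ E (co G) (Ph G Z T hm y) + max (((MM G Z T hm y).card : ℤ) - r) 0
        * ((BB G Z T).card - (Ph G Z T hm y).card) := by
    intro y hy
    have hMM : ((MM G Z T hm y).card : ℤ) = (Cl G Z T y).card + (Ph G Z T hm y).card := by
      unfold MM
      rw [card_union_of_disjoint (MM_disj hy)]
      push_cast
      rfl
    have hmax0 : 0 ≤ max (((MM G Z T hm y).card : ℤ) - r) 0 := le_max_right _ _
    have hPB : ((Ph G Z T hm y).card : ℤ) ≤ (BB G Z T).card := by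
      have := card_le_card (filter_subset (fun z => hm z = y) (BB G Z T))
      exact_mod_cast this
    have hnn : 0 ≤ max (((MM G Z T hm y).card : ℤ) - r) 0
        * ((BB G Z T).card - (Ph G Z T hm y).card) := mul_nonneg hmax0 (by linarith)
    have hkk : ∑ v ∈ Ph G Z T hm y, (nd G (Cl G Z T y) v : ℤ) = 0 := by
      refine sum_eq_zero fun v hv => ?_
      have h1 := hfull v (mem_Ph.1 hv).1
      unfold kk at h1
      rw [(mem_Ph.1 hv).2, ← nd_eq_dg] at h1
      exact_mod_cast h1
    have hgen : ∀ (W : Finset V) (K : Finset (V × V)), Mt (svC G (Cl G Z T y)) W K →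
        Disjoint (Cl G Z T y) W → Disjoint (Ph G Z T hm y) W →
        2 * ((r : ℤ) - 1) * ((MM G Z T hm y).card - r)
          + (2 * (((r : ℤ) - 1) - (Ph G Z T hm y).card - 1
            - ((MM G Z T hm y).card - r)) * K.card - E (co G) (Kt K))
          ≤ E (co G) (Ph G Z T hm y) := by
      intro W K hK h1 h2
      have h3 := hP.row_match (h.Cl_clq hy) (MM_disj (hm := hm) hy) hK h1 h2
      rw [hkk, NE_eq_E] at h3
      rw [hMM]
      linarith
    rcases best_host (T.erase y) (fun x => ((Ph G Z T hm x).card : ℤ))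
      (fun x => ((N x y).card : ℤ)) (fun x => (E (co G) (Kt (N x y)) : ℤ))
      (fun x _ => by positivity) (fun x _ => by positivity) (fun x _ => by positivity)
      (fun x hx h0 => by
        have h1 := hkn y hy x hx
        have h2 : (Ph G Z T hm x).card = 0 := by exact_mod_cast h0
        have h3 : (N x y).card = 0 := by omega
        exact_mod_cast h3) with hS | ⟨x, hx, hS⟩
    · have h1 := hgen ∅ ∅ (Mt.empty _ _) (disjoint_empty_right _) (disjoint_empty_right _)
      rw [card_empty, Kt_empty, show E (co G) (∅ : Finset V) = 0 from rfl] at h1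
      push_cast at h1
      linarith
    · rw [hcardP y hy] at hS
      have hxT := mem_of_mem_erase hx
      have hxy := ne_of_mem_erase hx
      have h1 := hgen (Ph G Z T hm x) (N x y) (hMt y hy x hx)
        (disjoint_of_subset_right (filter_subset _ _) (Cl_BB_disjoint hy)) (by
          rw [disjoint_left]
          intro v hv hv'
          exact hxy ((mem_Ph.1 hv').2.symm.trans (mem_Ph.1 hv).2))
      have h2 : (2 * (N x y).card : ℤ) ≤ (BB G Z T).card - (Ph G Z T hm y).card := by
        have a1 := hkn y hy x hx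
        have a2 : ((Ph G Z T hm x).card : ℤ) ≤ ∑ x ∈ T.erase y, ((Ph G Z T hm x).card : ℤ) :=
          single_le_sum (f := fun x => ((Ph G Z T hm x).card : ℤ)) (fun _ _ => by positivity) hx
        rw [hcardP y hy] at a2
        have a3 : (2 * (N x y).card : ℤ) ≤ (Ph G Z T hm x).card := by exact_mod_cast a1
        linarith
      have h3 : (0 : ℤ) ≤ (N x y).card := by positivity
      have h4 : ((BB G Z T).card : ℤ) ≤ (r : ℤ) - 1 := by
        have : (((BB G Z T).card + 1 : ℕ) : ℤ) ≤ r := by exact_mod_cast hD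
        push_cast at this
        linarith
      have h5 : ((MM G Z T hm y).card : ℤ) - r ≤ max (((MM G Z T hm y).card : ℤ) - r) 0 :=
        le_max_left _ _
      have h6 : (2 * (N x y).card : ℤ) * (((MM G Z T hm y).card : ℤ) - r)
          ≤ max (((MM G Z T hm y).card : ℤ) - r) 0
            * ((BB G Z T).card - (Ph G Z T hm y).card) := by
        calc (2 * (N x y).card : ℤ) * (((MM G Z T hm y).card : ℤ) - r)
            ≤ (2 * (N x y).card : ℤ) * max (((MM G Z T hm y).card : ℤ) - r) 0 :=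
              mul_le_mul_of_nonneg_left h5 (by positivity)
          _ ≤ ((BB G Z T).card - (Ph G Z T hm y).card) * max (((MM G Z T hm y).card : ℤ) - r) 0 :=
              mul_le_mul_of_nonneg_right h2 hmax0
          _ = _ := mul_comm _ _
      have h7 : (0 : ℤ) ≤ (((r : ℤ) - 1) - (BB G Z T).card) * (N x y).card :=
        mul_nonneg (by linarith) h3
      nlinarith
  -- sum over the rows
  have hsum := sum_le_sum hrow
  rw [sum_add_distrib, sum_add_distrib, ← mul_sum, sum_sub_distrib, h.sum_card_MM hh, sum_const,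
    nsmul_eq_mul, h.cardT] at hsum
  have hswap : ∑ y ∈ T, ∑ x ∈ T.erase y, (2 * (((Ph G Z T hm x).card : ℤ) - 1) * (N x y).card
        - E (co G) (Kt (N x y)))
      = ∑ x ∈ T, ∑ y ∈ T.erase x, (2 * (((Ph G Z T hm x).card : ℤ) - 1) * (N x y).card
        - E (co G) (Kt (N x y))) := by
    refine sum_comm' fun y x => ?_
    rw [mem_erase, mem_erase]
    constructor
    · rintro ⟨h1, h2, h3⟩; exact ⟨⟨h2.symm, h1⟩, h3⟩
    · rintro ⟨⟨h1, h2⟩, h3⟩; exact ⟨h2, h1.symm, h3⟩
  have hlow := sum_le_sum fun x hx => (hN x hx).2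
  rw [hswap] at hsum
  rw [sum_sub_distrib] at hlow
  have hB : ∑ x ∈ T, ((Ph G Z T hm x).card : ℤ) = (BB G Z T).card := by
    have := PFrame.sum_Ph hh (fun _ => 1)
    simpa using this
  rw [hB] at hlow
  have : ((t : ℤ) * r + 1 - t * r) = 1 := by ring
  rw [this] at hsum
  linarith

/-- **[Z1]**: full homes, at most one overfull row, the clique condition: impossible -/
theorem PFrame.Z1 (h : PFrame G r m t Z T) (hr : 2 ≤ r) (hP : PG G r) (hh : Homes G Z T hm)
    (hfull : ∀ z ∈ BB G Z T, kk G Z T hm z = 0) (hD : (BB G Z T).card + 1 ≤ r) {y0 : V}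
    (hy0 : y0 ∈ T) (h0 : (MM G Z T hm y0).card ≤ r + 1)
    (h1 : ∀ y ∈ T, y ≠ y0 → (MM G Z T hm y).card ≤ r)
    (hcl : ∀ x ∈ T, ∀ J : Finset V, J ⊆ Ph G Z T hm x → Clq (co G) J → 2 ≤ J.card →
      J.card ≤ ((T.erase x).filter
        (fun y => ∃ a ∈ J, ∃ b ∈ J, (svC G (Cl G Z T y)).Adj a b)).card + 1) : False := by
  have h2 := h.Z1_account hP hh hfull hD hcl
  -- `y0` is overfull
  have hover : (MM G Z T hm y0).card = r + 1 := by
    by_contra hne
    have h3 := h.sum_card_MM hh
    have h4 : ∀ y ∈ T, ((MM G Z T hm y).card : ℤ) ≤ r := by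
      intro y hy
      by_cases hy1 : y = y0
      · subst hy1
        have : (MM G Z T hm y).card ≤ r := by omega
        exact_mod_cast this
      · exact_mod_cast h1 y hy hy1
    have h5 := sum_le_sum h4
    rw [sum_const, nsmul_eq_mul, h.cardT, h3] at h5
    linarith
  have h3 : ∑ y ∈ T, max (((MM G Z T hm y).card : ℤ) - r) 0
      * ((BB G Z T).card - (Ph G Z T hm y).card) = (BB G Z T).card - (Ph G Z T hm y0).card := by
    rw [sum_eq_single y0]
    · rw [hover]
      push_cast
      rw [show ((r : ℤ) + 1 - r) = 1 by ring]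
      rw [max_eq_left (by norm_num)]
      ring
    · intro y hy hne
      have h4 : ((MM G Z T hm y).card : ℤ) - r ≤ 0 := by
        have : ((MM G Z T hm y).card : ℤ) ≤ r := by exact_mod_cast h1 y hy hne
        linarith
      rw [max_eq_right h4, zero_mul]
    · exact fun h' => absurd hy0 h'
  rw [h3] at h2
  have h4 : 1 ≤ (Ph G Z T hm y0).card := by
    have e1 : (MM G Z T hm y0).card = (Cl G Z T y0).card + (Ph G Z T hm y0).card := by
      unfold MM
      rw [card_union_of_disjoint (MM_disj hy0)]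
    have e2 := h.Cl_card_le hr hP hy0
    omega
  have h5 : (((BB G Z T).card + 1 : ℕ) : ℤ) ≤ r := by exact_mod_cast hD
  have h6 : (1 : ℤ) ≤ (Ph G Z T hm y0).card := by exact_mod_cast h4
  push_cast at h5
  linarith

/-- the clique condition if all missing pairs of a home have different far rows and are served at
one of them -/
lemma clique_cond {x : V} (hx : x ∈ T) (hh : Homes G Z T hm)
    (hsv : ∀ p ∈ Ph G Z T hm x, ∀ q ∈ Ph G Z T hm x, (co G).Adj p q →
      ends G T p ≠ ends G T q ∧ ∃ y ∈ (ends G T p ∪ ends G T q).erase x,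
        (svC G (Cl G Z T y)).Adj p q)
    {J : Finset V} (hJ : J ⊆ Ph G Z T hm x) (hJc : Clq (co G) J) :
    J.card ≤ ((T.erase x).filter
      (fun y => ∃ a ∈ J, ∃ b ∈ J, (svC G (Cl G Z T y)).Adj a b)).card + 1 := by
  have hex : ∀ p, ∃ y, p ∈ J → y ≠ x ∧ y ∈ T ∧ ends G T p = {x, y} := by
    intro p
    by_cases hp : p ∈ J
    · obtain ⟨h1, h2⟩ := mem_Ph.1 (hJ hp)
      have h3 := hh p h1
      rw [h2] at h3
      obtain ⟨y, hy1, hy2, hy3⟩ := ends_other h1 h3
      exact ⟨y, fun _ => ⟨hy1, (mem_ends.1 hy2).1, hy3⟩⟩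
    · exact ⟨x, fun h => absurd h hp⟩
  choose tl htl using hex
  set P := (T.erase x).filter (fun y => ∃ a ∈ J, ∃ b ∈ J, (svC G (Cl G Z T y)).Adj a b) with hPdef
  set J' := J.filter (fun v => tl v ∈ P) with hJ'
  have hinj : Set.InjOn tl J := by
    intro v hv w hw hvw
    by_contra hne
    have h1 := hJc v hv w hw hne
    have h2 := (hsv v (hJ hv) w (hJ hw) h1).1
    apply h2
    rw [(htl v hv).2.2, (htl w hw).2.2, hvw]
  have hc1 : J'.card ≤ P.card := by
    rw [← card_image_of_injOn (hinj.mono (by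
      intro v hv
      exact mem_coe.2 (filter_subset _ _ (mem_coe.1 hv))) : Set.InjOn tl J')]
    refine card_le_card fun y hy => ?_
    obtain ⟨v, hv, rfl⟩ := mem_image.1 hy
    exact (mem_filter.1 hv).2
  have hc2 : (J \ J').card ≤ 1 := by
    rw [card_le_one]
    intro v hv w hw
    by_contra hne
    obtain ⟨v1, v2⟩ := mem_sdiff.1 hv
    obtain ⟨w1, w2⟩ := mem_sdiff.1 hw
    obtain ⟨y, hy, hy2⟩ := (hsv v (hJ v1) w (hJ w1) (hJc v v1 w w1 hne)).2
    obtain ⟨hyx, hy3⟩ := mem_erase.1 hy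
    have hyT : y ∈ T := by
      rcases mem_union.1 hy3 with h3 | h3
      · exact (mem_ends.1 h3).1
      · exact (mem_ends.1 h3).1
    have hyP : y ∈ P := mem_filter.2 ⟨mem_erase.2 ⟨hyx, hyT⟩, v, v1, w, w1, hy2⟩
    rcases mem_union.1 hy3 with h3 | h3
    · rw [(htl v v1).2.2, mem_insert, mem_singleton] at h3
      rcases h3 with h3 | h3
      · exact hyx h3
      · exact v2 (mem_filter.2 ⟨v1, h3 ▸ hyP⟩)
    · rw [(htl w w1).2.2, mem_insert, mem_singleton] at h3
      rcases h3 with h3 | h3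
      · exact hyx h3
      · exact w2 (mem_filter.2 ⟨w1, h3 ▸ hyP⟩)
  have hc3 := card_sdiff_add_card_eq_card (filter_subset (fun v => tl v ∈ P) J)
  rw [← hJ'] at hc3
  omega

end ZAcc

end Pool.Agent.Lib.MP_f04ccf_co
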