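import Pool.Agent.Lib.MP_f04ccf_co.M.Clos
import Pool.Agent.Lib.MP_f04ccf_co.M.ZAcc

/-!
MP_f04ccf_co: the closure set in the frame ((D1) of note 15348).  A missing pair of the slot `x` is
internal to `B` iff it is fully served at a row of `B - x`, or has two different far rows, both in
`B - x`.  `outB x B` is the cover number of the other missing pairs of the slot.
-/

set_option autoImplicit false

namespace Pool.Agent.Lib.MP_f04ccf_co

open Finset

attribute [local instance] Classical.propDecidable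

section ClosF

variable {V : Type*} {G : SimpleGraph V} {Z T : Finset V} {hm : V → V} {r m t : ℕ}

variable (G Z T) in
/-- the missing pairs of the slot `x` which are internal to `B` -/
def InG (x : V) (B : Finset V) : SimpleGraph V where
  Adj p q := (co G).Adj p q ∧ ((∃ y ∈ B.erase x, ∀ c ∈ Cl G Z T y, G.Adj p c ∨ G.Adj q c) ∨
    ∃ y ∈ B.erase x, ∃ z ∈ B.erase x, y ≠ z ∧ ends G T p = {x, y} ∧ ends G T q = {x, z})
  symm := ⟨fun p q h => ⟨h.1.symm, by
    rcases h.2 with ⟨y, hy, h2⟩ | ⟨y, hy, z, hz, h2, h3, h4⟩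
    · exact Or.inl ⟨y, hy, fun c hc => (h2 c hc).symm⟩
    · exact Or.inr ⟨z, hz, y, hy, h2.symm, h4, h3⟩⟩⟩
  loopless := ⟨fun p h => (co G).loopless.irrefl p h.1⟩

variable (G Z T) in
/-- the other missing pairs -/
def OuG (x : V) (B : Finset V) : SimpleGraph V where
  Adj p q := (co G).Adj p q ∧ ¬ (InG G Z T x B).Adj p q
  symm := ⟨fun _ _ h => ⟨h.1.symm, fun h' => h.2 h'.symm⟩⟩
  loopless := ⟨fun p h => (co G).loopless.irrefl p h.1⟩

variable (G Z T) in
/-- the pairs which are internal to `A` and not to `A - y` -/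
def UsG (x : V) (A : Finset V) (y : V) : SimpleGraph V where
  Adj p q := (InG G Z T x A).Adj p q ∧ ¬ (InG G Z T x (A.erase y)).Adj p q
  symm := ⟨fun _ _ h => ⟨h.1.symm, fun h' => h.2 h'.symm⟩⟩
  loopless := ⟨fun p h => (InG G Z T x A).loopless.irrefl p h.1⟩

variable (G Z T hm) in
/-- the kills of the slot `x` leaving `B` -/
noncomputable def outB (x : V) (B : Finset V) : ℕ := cn (OuG G Z T x B) (MM G Z T hm x)

variable (G Z T hm) in
/-- the kills of the slot `x` which use the row `y` of `A` -/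
noncomputable def useB (x : V) (A : Finset V) (y : V) : ℕ := cn (UsG G Z T x A y) (MM G Z T hm x)

variable (G Z T hm r) in
/-- `|H x| - T x` -/
noncomputable def sB (x : V) : ℤ := ((MM G Z T hm x).card : ℤ) - r

lemma InG.mono {x : V} {B B' : Finset V} (h : B ⊆ B') {p q : V} (hpq : (InG G Z T x B).Adj p q) :
    (InG G Z T x B').Adj p q := by
  refine ⟨hpq.1, ?_⟩
  rcases hpq.2 with ⟨y, hy, h2⟩ | ⟨y, hy, z, hz, h2⟩
  · exact Or.inl ⟨y, erase_subset_erase x h hy, h2⟩
  · exact Or.inr ⟨y, erase_subset_erase x h hy, z, erase_subset_erase x h hz, h2⟩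

/-- removal of one row -/
lemma outB_erase_le {x y : V} {A : Finset V} :
    outB G Z T hm x (A.erase y) ≤ outB G Z T hm x A + useB G Z T hm x A y := by
  refine cn_sup_le fun p _ q _ hpq => ?_
  by_cases h1 : (InG G Z T x A).Adj p q
  · exact Or.inr ⟨h1, hpq.2⟩
  · exact Or.inl ⟨hpq.1, h1⟩

lemma outB_mono {x : V} {B B' : Finset V} (h : B ⊆ B') :
    outB G Z T hm x B' ≤ outB G Z T hm x B :=
  cn_mono fun _ _ _ _ hpq => ⟨hpq.1, fun h' => hpq.2 (InG.mono h h')⟩

/-- the points of a slot: class or home -/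
lemma mem_MM {x p : V} : p ∈ MM G Z T hm x ↔ p ∈ Cl G Z T x ∨ p ∈ Ph G Z T hm x := by
  unfold MM
  exact mem_union

/-- the tail of a point of the home `x` -/
lemma Ph_tail (hh : Homes G Z T hm) {x p : V} (hp : p ∈ Ph G Z T hm x) :
    p ∈ BB G Z T ∧ ∃ y ∈ T.erase x, ends G T p = {x, y} := by
  obtain ⟨h1, h2⟩ := mem_Ph.1 hp
  have h3 : x ∈ ends G T p := by
    have := hh p h1
    rwa [h2] at this
  obtain ⟨y, hyx, hy, he⟩ := ends_other h1 h3
  exact ⟨h1, y, mem_erase.2 ⟨hyx, ends_sub hy⟩, he⟩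

/-- a missing pair of a slot with a point of the class is served at the tail -/
lemma PFrame.srv_PC (h : PFrame G r m t Z T) {x y p q : V} (hx : x ∈ T) (hy : y ∈ T)
    (hxy : x ≠ y) (hp : p ∈ BB G Z T) (he : ends G T p = {x, y}) (hq : q ∈ Cl G Z T x)
    (hpq : ¬ G.Adj p q) {c : V} (hc : c ∈ Cl G Z T y) : G.Adj p c ∨ G.Adj q c := by
  by_contra hcon
  push Not at hcon
  have hI : ({x, y} : Finset V) ⊆ T := by rw [← he]; exact ends_sub
  refine h.no3 hI card_le_two (PFrame.mem_ZI_of_BB hp he.subset)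
    (h.Cl_sub_ZI' hx (mem_insert_self _ _) hq)
    (h.Cl_sub_ZI' hy (mem_insert_of_mem (mem_singleton_self _)) hc)
    (BB_ne_Cl hp hx hq) (BB_ne_Cl hp hy hc) ?_ hpq hcon.1 hcon.2
  rintro rfl
  exact disjoint_left.1 (PFrame.Cl_disjoint hx hy hxy) hq hc

/-- a missing pair of doubles with the same ends is served at both rows -/
lemma PFrame.srv_PP (h : PFrame G r m t Z T) {x y p q : V} (hy : y ∈ T)
    (hp : p ∈ BB G Z T) (he : ends G T p = {x, y}) (hq : q ∈ BB G Z T)
    (he' : ends G T q = {x, y}) (hne : p ≠ q) (hpq : ¬ G.Adj p q) {c : V}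
    (hc : c ∈ Cl G Z T y) : G.Adj p c ∨ G.Adj q c := by
  by_contra hcon
  push Not at hcon
  have hI : ({x, y} : Finset V) ⊆ T := by rw [← he]; exact ends_sub
  exact h.no3 hI card_le_two (PFrame.mem_ZI_of_BB hp he.subset)
    (PFrame.mem_ZI_of_BB hq he'.subset)
    (h.Cl_sub_ZI' hy (mem_insert_of_mem (mem_singleton_self _)) hc)
    hne (BB_ne_Cl hp hy hc) (BB_ne_Cl hq hy hc) hpq hcon.1 hcon.2

/-- half-served pairs: the uncovered parts of the two classes are complete to each other -/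
lemma PFrame.half (h : PFrame G r m t Z T) {x y z p q : V} (hy : y ∈ T) (hz : z ∈ T)
    (hyz : y ≠ z) (hx : x ∈ T) (hp : p ∈ BB G Z T) (he : ends G T p = {x, y})
    (hq : q ∈ BB G Z T) (he' : ends G T q = {x, z}) (hne : p ≠ q) (hpq : ¬ G.Adj p q)
    {c c' : V} (hc : c ∈ Cl G Z T y) (hc' : c' ∈ Cl G Z T z)
    (n1 : ¬ G.Adj p c) (n2 : ¬ G.Adj q c) (n3 : ¬ G.Adj p c') (n4 : ¬ G.Adj q c') :
    G.Adj c c' := by
  by_contra hcon
  have hI : ({x, y, z} : Finset V) ⊆ T := by
    intro v hv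
    simp only [mem_insert, mem_singleton] at hv
    rcases hv with rfl | rfl | rfl <;> assumption
  refine h.no4 hI card_le_three
    (PFrame.mem_ZI_of_BB hp (by rw [he]; intro v; simp only [mem_insert, mem_singleton]; tauto))
    (PFrame.mem_ZI_of_BB hq (by rw [he']; intro v; simp only [mem_insert, mem_singleton]; tauto))
    (h.Cl_sub_ZI' hy (by simp) hc) (h.Cl_sub_ZI' hz (by simp) hc') hne
    (BB_ne_Cl hp hy hc) (BB_ne_Cl hq hy hc) (BB_ne_Cl hp hz hc') (BB_ne_Cl hq hz hc') ?_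
    hpq n1 n2 n3 n4 hcon
  rintro rfl
  exact disjoint_left.1 (PFrame.Cl_disjoint hy hz hyz) hc hc'

/-- all missing pairs of a slot are internal to the set of all rows -/
lemma PFrame.InG_all (h : PFrame G r m t Z T) (hh : Homes G Z T hm) {x p q : V} (hx : x ∈ T)
    (hp : p ∈ MM G Z T hm x) (hq : q ∈ MM G Z T hm x) (hpq : (co G).Adj p q) :
    (InG G Z T x T).Adj p q := by
  have key : ∀ p q : V, p ∈ Ph G Z T hm x → q ∈ MM G Z T hm x → (co G).Adj p q →
      (InG G Z T x T).Adj p q := by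
    intro p q hp hq hpq
    obtain ⟨hpB, y, hy, he⟩ := Ph_tail hh hp
    have hyT := mem_of_mem_erase hy
    have hyx := (ne_of_mem_erase hy).symm
    refine ⟨hpq, ?_⟩
    rcases mem_MM.1 hq with h1 | h1
    · exact Or.inl ⟨y, hy, fun c hc => h.srv_PC hx hyT hyx hpB he h1 hpq.2 hc⟩
    · obtain ⟨hqB, z, hz, he'⟩ := Ph_tail hh h1
      by_cases hyz : y = z
      · subst hyz
        exact Or.inl ⟨y, hy, fun c hc => h.srv_PP hyT hpB he hqB he' hpq.1 hpq.2 hc⟩
      · exact Or.inr ⟨y, hy, z, hz, hyz, he, he'⟩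
  rcases mem_MM.1 hp with h1 | h1
  · rcases mem_MM.1 hq with h2 | h2
    · exact absurd (h.Cl_clq hx p h1 q h2 hpq.1) hpq.2
    · exact (key q p h2 hp hpq.symm).symm
  · exact key p q h1 hq hpq

lemma PFrame.outB_all (h : PFrame G r m t Z T) (hh : Homes G Z T hm) {x : V} (hx : x ∈ T) :
    outB G Z T hm x T = 0 := by
  have h1 : CovN (OuG G Z T x T) (MM G Z T hm x) ∅ := fun p hp q hq hpq =>
    absurd (h.InG_all hh hx hp hq hpq.1) hpq.2
  have h2 := cn_le' h1
  unfold outB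
  rw [card_empty] at h2
  omega

lemma PFrame.fB_all (h : PFrame G r m t Z T) (hh : Homes G Z T hm) :
    fB (sB G Z T hm r) (outB G Z T hm) T = 1 := by
  unfold fB sB
  have h1 : ∑ x ∈ T, (((MM G Z T hm x).card : ℤ) - r - outB G Z T hm x T)
      = ∑ x ∈ T, (((MM G Z T hm x).card : ℤ) - r) := by
    refine sum_congr rfl fun x hx => ?_
    rw [h.outB_all hh hx]
    push_cast
    ring
  rw [h1, sum_sub_distrib, h.sum_card_MM hh, sum_const, h.cardT, nsmul_eq_mul]
  ring

/-- no clique of size `r`: the cover number of the missing pairs of a slot is at least `s + 1` -/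
lemma S2.sB_lt (h : S2 G r m t Z T) (hr : 1 ≤ r) {x : V} (_hx : x ∈ T) :
    sB G Z T hm r x + 1 ≤ cn (co G) (MM G Z T hm x) := by
  have hZ : MM G Z T hm x ⊆ Z := by
    intro v hv
    rcases mem_MM.1 hv with h1 | h1
    · exact (mem_Cl.1 h1).1
    · exact (mem_BB.1 (mem_Ph.1 h1).1).1.1
  have h1 := card_le_cn (G := G) (S := MM G Z T hm x) (R := r - 1)
    fun K hK hq => h.omega K (hK.trans hZ) hq
  unfold sB
  omega

lemma S2.fB_single (h : S2 G r m t Z T) (hr : 1 ≤ r) {x : V} (hx : x ∈ T) :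
    fB (sB G Z T hm r) (outB G Z T hm) {x} ≤ -1 := by
  have h1 := h.sB_lt (hm := hm) hr hx
  have h2 : cn (co G) (MM G Z T hm x) ≤ outB G Z T hm x {x} := by
    refine cn_mono fun p _ q _ hpq => ⟨hpq, fun h' => ?_⟩
    rcases h'.2 with ⟨y, hy, -⟩ | ⟨y, hy, -⟩ <;> simp at hy
  unfold fB
  rw [sum_singleton]
  omega

/-- the pairs which use the row `y` have an end with tail `y` -/
lemma UsG.tail (h : PFrame G r m t Z T) {x y : V} {A : Finset V} (hx : x ∈ T) (hy : y ∈ T)
    (hxy : x ≠ y) {p q : V} (hp : p ∈ MM G Z T hm x) (hq : q ∈ MM G Z T hm x)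
    (hpq : (UsG G Z T x A y).Adj p q) :
    (p ∈ Ph G Z T hm x ∧ y ∈ ends G T p) ∨ (q ∈ Ph G Z T hm x ∧ y ∈ ends G T q) := by
  have key : ∀ v, v ∈ MM G Z T hm x → y ∈ ends G T v → v ∈ Ph G Z T hm x ∧ y ∈ ends G T v := by
    intro v hv hyv
    rcases mem_MM.1 hv with h1 | h1
    · exfalso
      rcases (mem_Cl.1 h1).2 with h2 | ⟨-, h2⟩
      · rw [h2, h.ends_T hx] at hyv
        simp at hyv
      · rw [h2, mem_singleton] at hyv
        exact hxy hyv.symm
    · exact ⟨h1, hyv⟩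
  have hend : y ∈ ends G T p ∨ y ∈ ends G T q := by
    obtain ⟨h1, h2⟩ := hpq
    rcases h1.2 with ⟨y', hy', h3⟩ | ⟨y', hy', z', hz', h3, h4, h5⟩
    · by_cases hyy : y' = y
      · subst hyy
        rcases h3 y' (h.self_mem_Cl hy) with h4 | h4
        · exact Or.inl (mem_ends.2 ⟨hy, h4⟩)
        · exact Or.inr (mem_ends.2 ⟨hy, h4⟩)
      · exfalso
        refine h2 ⟨h1.1, Or.inl ⟨y', ?_, h3⟩⟩
        obtain ⟨a1, a2⟩ := mem_erase.1 hy'
        exact mem_erase.2 ⟨a1, mem_erase.2 ⟨hyy, a2⟩⟩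
    · by_cases hyy : y' = y
      · left
        rw [h4, hyy]
        simp
      · by_cases hzy : z' = y
        · right
          rw [h5, hzy]
          simp
        · exfalso
          refine h2 ⟨h1.1, Or.inr ⟨y', ?_, z', ?_, h3, h4, h5⟩⟩
          · obtain ⟨a1, a2⟩ := mem_erase.1 hy'
            exact mem_erase.2 ⟨a1, mem_erase.2 ⟨hyy, a2⟩⟩
          · obtain ⟨a1, a2⟩ := mem_erase.1 hz'
            exact mem_erase.2 ⟨a1, mem_erase.2 ⟨hzy, a2⟩⟩
  rcases hend with h1 | h1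
  · exact Or.inl (key p hp h1)
  · exact Or.inr (key q hq h1)

/-- the used kills are at most the members hosted at `x` with tail `y` -/
lemma PFrame.useB_le (h : PFrame G r m t Z T) {x y : V} {A : Finset V} (hx : x ∈ T) (hy : y ∈ T)
    (hxy : x ≠ y) :
    useB G Z T hm x A y ≤ ((Ph G Z T hm x).filter (fun v => y ∈ ends G T v)).card := by
  refine cn_le' fun p hp q hq hpq => ?_
  rcases UsG.tail h hx hy hxy hp hq hpq with h1 | h1
  · exact Or.inl (mem_filter.2 h1)
  · exact Or.inr (mem_filter.2 h1)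

/-- **(D1)**: the minimal closure set -/
theorem S2.clos (h : S2 G r m t Z T) (hr : 1 ≤ r) (hh : Homes G Z T hm) :
    ∃ A ⊆ T, 2 ≤ A.card ∧ 1 ≤ fB (sB G Z T hm r) (outB G Z T hm) A ∧
      (∀ B, B ⊂ A → fB (sB G Z T hm r) (outB G Z T hm) B ≤ 0) ∧
      ∀ y ∈ A, fB (sB G Z T hm r) (outB G Z T hm) A - sB G Z T hm r y + outB G Z T hm y A
        ≤ ∑ x ∈ A.erase y, (useB G Z T hm x A y : ℤ) := by
  obtain ⟨A, hA, h1, h2, h3⟩ := closure_min (s := sB G Z T hm r) (out := outB G Z T hm) (T := T)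
    (h.toPFrame.fB_all hh).ge
  refine ⟨A, hA, ?_, h1, h2, fun y hy => (h3 y hy).trans (sum_le_sum fun x _ => ?_)⟩
  · by_contra hcon
    have h4 : A.card ≤ 1 := by omega
    rcases A.eq_empty_or_nonempty with h5 | ⟨x, hx⟩
    · rw [h5] at h1
      unfold fB at h1
      simp at h1
    · have h6 : A = {x} := by
        refine (eq_singleton_iff_unique_mem).2 ⟨hx, fun v hv => card_le_one.1 h4 v hv x hx⟩
      have h7 := h.fB_single (hm := hm) hr (hA hx)
      rw [← h6] at h7
      omega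
  · have h4 := outB_erase_le (G := G) (Z := Z) (T := T) (hm := hm) (x := x) (y := y) (A := A)
    have h5 : (outB G Z T hm x (A.erase y) : ℤ) ≤ outB G Z T hm x A + useB G Z T hm x A y := by
      exact_mod_cast h4
    linarith

end ClosF

end Pool.Agent.Lib.MP_f04ccf_co
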