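import Pool.Agent.Lib.MP_f04ccf_co.M.HubR

/-!
MP_f04ccf_co, TEXT D: **every row has `d ≥ 1`** (`d z = mu z - s z`).

* `PCon.d_one`: `1 ≤ mu z - s z`, unless the block pairs fill `R - A z`;
* `PCon.d_one'`: the same, if some other row has `1 ≤ t j`.
-/

set_option autoImplicit false

namespace Pool.Agent.Lib.MP_f04ccf_co

open Finset

attribute [local instance] Classical.propDecidable

namespace PCon

variable {ι : Type*} {R : ℤ} {n : ℕ} {t s mu : ℕ → ℤ} {U : Finset ι} {ho : ι → ℕ} {vl : ι → ℤ}
  {kp mn : ℕ → ι → ℤ} {pc ar : ι → ℤ} {be kq NN sg : ℕ → ℕ → ℤ} {nu : ℕ → ι → ℤ}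

/-- **every row has `d ≥ 1`**, unless the block pairs fill `R - A z` -/
theorem d_one (H : PCon R n t s mu U ho vl kp mn pc ar be kq NN sg nu) {z : ℕ} (hz : z < n)
    (hP : ∑ l ∈ range n, (be z l - kq z l) < R - (t z + 1)) : 1 ≤ mu z - s z := by
  have h0 := H.mu0 hz
  have h3 := H.plain_nonneg hz
  have h4 : 0 ≤ ∑ l ∈ range n, (be z l - kq z l) :=
    sum_nonneg fun l hl => by
      have := H.kqb z hz l (mem_range.1 hl)
      linarith
  rcases le_or_gt 1 (∑ l ∈ range n, (be z l - kq z l) + (mu z - ∑ l ∈ range n, be z l)) with h5 | h5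
  · exact H.d_pos hz rfl rfl rfl hP h5
  · rcases eq_or_lt_of_le h0 with h6 | h6
    · -- nothing is hosted
      by_contra hcon
      have h7 : 0 ≤ s z := by linarith
      have h8 := H.mup z hz h7
      linarith
    · -- only Konig pairs
      have e1 : ∑ l ∈ range n, (be z l - kq z l) = 0 := by linarith
      have e2 : mu z - ∑ l ∈ range n, be z l = 0 := by linarith
      have e3 : ∑ l ∈ range n, kq z l = mu z := by
        rw [sum_sub_distrib] at e1
        linarith
      have hn5 := H.n5
      obtain ⟨j, hj, hjz⟩ : ∃ j < n, j ≠ z := by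
        rcases Nat.eq_zero_or_pos z with h7 | h7
        · exact ⟨1, by omega, by omega⟩
        · exact ⟨0, by omega, by omega⟩
      have h8 := H.two_rows hz hj (fun h => hjz h.symm)
      have h9 := H.t0 j hj
      have h10 := H.tK z hz (mu z - 1) (by linarith) (by rw [e3]; linarith) ∅ (empty_subset _)
        (fun u hu => absurd hu (notMem_empty u)) ∅ (empty_subset _)
        (fun u hu => absurd hu (notMem_empty u)) (fun _ => 0)
        (fun u hu => absurd hu (notMem_empty u)) (fun u hu => absurd hu (notMem_empty u))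
        (by
          have h11 := H.t0 z hz
          simp only [sum_empty]
          linarith)
      simp only [sum_empty] at h10
      by_contra hcon
      push Not at hcon
      have h11 := H.t0 z hz
      have h12 : 1 ≤ s z - (mu z - 1) := by linarith
      nlinarith

/-- **every row has `d ≥ 1`**, if some other row has `1 ≤ t j` -/
theorem d_one' (H : PCon R n t s mu U ho vl kp mn pc ar be kq NN sg nu) {z j : ℕ} (hz : z < n)
    (hj : j < n) (hjz : j ≠ z) (h1 : 1 ≤ t j) : 1 ≤ mu z - s z :=
  H.d_one hz (H.bl_lt hz hj hjz h1)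

end PCon

end Pool.Agent.Lib.MP_f04ccf_co
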