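import Pool.Agent.Lib.MP_f04ccf_co.M.RowLA
import Pool.Agent.Lib.MP_f04ccf_co.M.HubS

/-!
MP_f04ccf_co, TEXT D, regime L: **light rows, and the closing over the cells which are not light** (table L5).

* `LevC.sub_units`: any set of served units of a row as used items at levels (with its misses);
* `LevC.light_b`: a row `z` is light (`s z + #served units ≤ 0`) if `(A + 1) (A + 2 + b) < R` for the misses `b` of
  every unit served there (any order `φ` of the ends);
* `LevC.light5`: fewest misses (`φ u i = mn i u`), all `2 A i ≤ R`, `65 ≤ R`, `2 (A z)³ < R`;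
* `LevC.row_theta5`, `LevC.close_theta5`, `LevC.close_M5`: the row claims are needed for the rows `z` not in `L`
  only, and their sums run over the cells `y` not in `L` only.
-/

set_option autoImplicit false

namespace Pool.Agent.Lib.MP_f04ccf_co

open Finset

attribute [local instance] Classical.propDecidable

section ClosM5

variable {ι : Type*} {R : ℤ} {n : ℕ} {t s mu : ℕ → ℤ} {U : Finset ι} {ho : ι → ℕ} {vl : ι → ℤ}
  {kp mn : ℕ → ι → ℤ} {pc ar : ι → ℤ} {be kq NN sg : ℕ → ℕ → ℤ} {nu : ℕ → ι → ℤ} {z y : ℕ}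
  {φ : ι → ℕ → ℤ} {g : ℕ → ι → ℕ} {f : ι → ℕ}

/-- **a set of served units of a row** as used items at levels -/
theorem LevC.sub_units (C : LevC n U ho vl kp mn pc φ g f)
    (H : PCon R n t s mu U ho vl kp mn pc ar be kq NN sg nu) (hz : z < n)
    {V : Finset (ι × ℕ × ℕ)} (hV : V ⊆ (unV n U g).filter fun v => v.2.1 = z) :
    ∃ (K : Finset ι) (g' : ι → ℕ), K ⊆ U ∧ (∀ u ∈ K, ho u ≠ z) ∧ (∀ u ∈ K, 1 ≤ g' u) ∧
      (∀ u ∈ K, (g' u : ℤ) ≤ kp z u) ∧ ∑ u ∈ K, (g' u : ℤ) = (V.card : ℤ) ∧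
      ∑ u ∈ K, msP kp mn z g' u ≤ ∑ v ∈ V, unb kp mn g v := by
  have h0 : ∀ v ∈ V, v ∈ unV n U g ∧ v.2.1 = z := fun v hv => mem_filter.1 (hV hv)
  have hsub : ∀ u, V.filter (fun v => v.1 = u)
      ⊆ (unV n U g).filter fun v => v.1 = u ∧ v.2.1 = z := fun u v hv => by
    obtain ⟨h1, h2⟩ := mem_filter.1 hv
    exact mem_filter.2 ⟨(h0 v h1).1, h2, (h0 v h1).2⟩
  have hle : ∀ u ∈ U, (V.filter fun v => v.1 = u).card ≤ g z u := fun u hu => by
    rw [← unit_card_one (C.two H) hu hz]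
    exact card_le_card (hsub u)
  refine ⟨V.image Prod.fst, fun u => (V.filter fun v => v.1 = u).card, ?_, ?_, ?_, ?_, ?_, ?_⟩
  · intro u hu
    obtain ⟨v, hv, rfl⟩ := mem_image.1 hu
    exact (LevC.mem_unV (h0 v hv).1).1
  · intro u hu
    obtain ⟨v, hv, rfl⟩ := mem_image.1 hu
    intro h1
    exact C.main_ne (h0 v hv).1 ((h0 v hv).2.trans h1.symm)
  · intro u hu
    obtain ⟨v, hv, rfl⟩ := mem_image.1 hu
    exact card_pos.2 ⟨v, mem_filter.2 ⟨hv, rfl⟩⟩
  · intro u hu
    obtain ⟨v, hv, rfl⟩ := mem_image.1 hu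
    have h1 := (LevC.mem_unV (h0 v hv).1).1
    have h2 := C.le v.1 h1 z hz
    have h3 : (((V.filter fun w => w.1 = v.1).card : ℕ) : ℤ) ≤ (g z v.1 : ℤ) := by
      exact_mod_cast hle v.1 h1
    exact h3.trans h2
  · rw [card_eq_sum_card_image Prod.fst V]
    push_cast
    rfl
  · rw [← sum_fiberwise_of_maps_to (s := V) (t := V.image Prod.fst) (g := Prod.fst)
      (fun v hv => mem_image_of_mem _ hv) (unb kp mn g)]
    refine sum_le_sum fun u hu => ?_
    have huU : u ∈ U := by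
      obtain ⟨v, hv, rfl⟩ := mem_image.1 hu
      exact (LevC.mem_unV (h0 v hv).1).1
    have hpos : ∀ v ∈ V.filter (fun v => v.1 = u), 0 ≤ unb kp mn g v := fun v hv =>
      LevC.unb_nonneg H (h0 v (mem_filter.1 hv).1).1
    unfold msP
    split_ifs with h1
    · have h2 := C.le u huU z hz
      have h3 := hle u huU
      have h4 : (g z u : ℤ) ≤ ((V.filter fun v => v.1 = u).card : ℤ) := h2.trans h1
      have h5 : (V.filter fun v => v.1 = u).card = g z u := by
        have : g z u ≤ (V.filter fun v => v.1 = u).card := by exact_mod_cast h4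
        omega
      have h6 : V.filter (fun v => v.1 = u) = (unV n U g).filter fun v => v.1 = u ∧ v.2.1 = z :=
        eq_of_subset_of_card_le (hsub u) (by rw [h5, unit_card_one (C.two H) huU hz])
      obtain ⟨v, hv⟩ := mem_image.1 hu
      have h7 : 1 ≤ g z u := by
        rw [← h5]
        exact card_pos.2 ⟨v, mem_filter.2 ⟨hv.1, hv.2⟩⟩
      have h8 := C.two H u huU z hz
      have h9 : (u, z, g z u - 1) ∈ V.filter (fun v => v.1 = u) := by
        rw [h6]
        simp only [unV, mem_filter, mem_product, mem_range]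
        exact ⟨⟨⟨huU, hz, by omega⟩, by omega⟩, trivial, trivial⟩
      have h10 : unb kp mn g (u, z, g z u - 1) = mn z u := by
        unfold unb
        rw [if_pos]
        refine ⟨?_, ?_⟩
        · show kp z u ≤ (g z u : ℤ)
          rw [← h5]
          exact h1
        · show g z u - 1 + 1 = g z u
          omega
      rw [← h10]
      exact single_le_sum hpos h9
    · exact sum_nonneg hpos

/-- the hosted value is at most `R + 1` -/
lemma PCon.mu_le_R (H : PCon R n t s mu U ho vl kp mn pc ar be kq NN sg nu) (hz : z < n) :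
    mu z ≤ R + 1 := by
  have h1 := H.glob1 hz
  have h2 := H.dt z hz
  linarith

/-- **a row with hosted value alone above `d`** is impossible for a small row -/
theorem PCon.light_host (H : PCon R n t s mu U ho vl kp mn pc ar be kq NN sg nu) (hz : z < n)
    (h0 : (t z + 2) * (t z + 3) < R) (h9 : (3 * t z + 5) ^ 2 < 8 * R) : s z ≤ 0 := by
  by_contra hcon
  push Not at hcon
  have hd := H.dt z hz
  have hd0 := H.d_nonneg hz
  have ht := H.t0 z hz
  have hR := R_pos H
  have hQ0 : 0 ≤ ∑ l ∈ range n, kq z l := sum_nonneg fun l hl => H.kq0 z hz l (mem_range.1 hl)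
  rcases le_or_gt (s z) (∑ l ∈ range n, kq z l) with h1 | h1
  · -- enough Konig pairs: leave all of them but one
    have h2 := H.tK z hz (s z - 1) (by linarith) (by linarith) ∅ (empty_subset _)
      (fun u hu => absurd hu (notMem_empty u)) ∅ (empty_subset _)
      (fun u hu => absurd hu (notMem_empty u)) (fun _ => 0)
      (fun u hu => absurd hu (notMem_empty u)) (fun u hu => absurd hu (notMem_empty u))
      (by
        simp only [sum_empty]
        nlinarith)
    simp only [sum_empty] at h2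
    nlinarith [mul_nonneg ht (by linarith : (0 : ℤ) ≤ t z - (mu z - s z - 1))]
  · have h2 := H.tT z hz (range n) (Subset.refl _) ∅ (empty_subset _) ∅ (empty_subset _)
      (fun u hu => absurd hu (notMem_empty u)) ∅ (empty_subset _)
      (fun u hu => absurd hu (notMem_empty u)) (fun _ => 0)
      (fun u hu => absurd hu (notMem_empty u)) (fun u hu => absurd hu (notMem_empty u))
    have h3 : (range n).erase z \ range n = ∅ := sdiff_eq_empty_iff_subset.2 (erase_subset _ _)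
    have h4 : svP n ho vl (∅ : Finset ι) (fun _ => 0) = 0 := by
      unfold svP
      simp
    unfold TstP at h2
    rw [h3, h4, sdiff_empty] at h2
    simp only [sum_empty, add_zero, sub_zero, mul_zero, zero_mul, zero_sub] at h2
    have h5 : ∑ l ∈ range n, (be z l - kq z l) * (be z l - kq z l + 1)
        ≤ (t z + 2) * ∑ l ∈ range n, (be z l - kq z l) := by
      rw [mul_sum]
      refine sum_le_sum fun l hl => ?_
      have hln := mem_range.1 hl
      have h6 := H.kqb z hz l hln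
      have h7 := H.kq0 z hz l hln
      have h8 : be z l ≤ t z + 1 := by
        by_cases h9 : l = z
        · rw [h9, H.be_self hz]
          linarith
        · have h10 := H.be_le hln hz h9
          have h11 := H.be0 l hln z hz
          linarith
      nlinarith [mul_nonneg (by linarith : (0 : ℤ) ≤ be z l - kq z l)
        (by linarith : (0 : ℤ) ≤ t z + 2 - (be z l - kq z l + 1))]
    have h6 : ∑ l ∈ range n, (be z l - kq z l) ≤ mu z - ∑ l ∈ range n, kq z l := by
      rw [sum_sub_distrib]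
      have := H.plain_nonneg hz
      linarith
    have h7 : mu z ≤ R + 1 := H.mu_le_R hz
    obtain ⟨m, hm⟩ : ∃ m, m = mu z - ∑ l ∈ range n, kq z l := ⟨_, rfl⟩
    obtain ⟨p, hp⟩ : ∃ p, p = s z - ∑ l ∈ range n, kq z l := ⟨_, rfl⟩
    have hp1 : 1 ≤ p := by rw [hp]; linarith
    have hmp : p ≤ m := by rw [hp, hm]; linarith
    have hmR : m ≤ R + 1 := by rw [hm]; linarith
    rw [← hm, ← hp] at h2
    rw [← hm] at h6
    have h8 : 2 * ((R - m) * p) ≤ m * (3 * (t z + 1) - m) := by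
      nlinarith [mul_le_mul_of_nonneg_left h6 (by linarith : (0 : ℤ) ≤ t z + 2)]
    rcases le_or_gt m R with h10 | h10
    · have h11 : (R - m) * 1 ≤ (R - m) * p := mul_le_mul_of_nonneg_left hp1 (by linarith)
      nlinarith [sq_nonneg (3 * t z + 5 - 2 * m)]
    · have h11 : m = R + 1 := by linarith
      rw [h11] at h8 hmp
      nlinarith [mul_nonneg hR.le ht]

/-- **LIGHT ROWS**: `(A + 1) (A + 2 + b) < R` for the misses `b` of every unit served there -/
theorem LevC.light_b (C : LevC n U ho vl kp mn pc φ g f)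
    (H : PCon R n t s mu U ho vl kp mn pc ar be kq NN sg nu) (hz : z < n)
    (h0 : (t z + 2) * (t z + 3) < R) (h9 : (3 * t z + 5) ^ 2 < 8 * R)
    (hb : ∀ v ∈ unV n U g, v.2.1 = z → (t z + 2) * (t z + 3 + unb kp mn g v) < R) :
    z ∈ lightU n s (unV n U g) fun v => {v.2.1} := by
  by_contra hcon
  rw [not_lightU hz] at hcon
  have e1 : (unV n U g).filter (fun v => z ∈ ({v.2.1} : Finset ℕ))
      = (unV n U g).filter fun v => v.2.1 = z :=
    filter_congr fun v _ => by rw [mem_singleton]; exact eq_comm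
  rw [e1] at hcon
  have hs := H.light_host hz h0 h9
  have hd := H.dt z hz
  have ht := H.t0 z hz
  have hmu := H.mu0 hz
  obtain ⟨k, hk⟩ := Int.eq_ofNat_of_zero_le (show (0 : ℤ) ≤ 1 - s z by linarith)
  have hk2 : k ≤ ((unV n U g).filter fun v => v.2.1 = z).card := by
    have : (k : ℤ) ≤ (((unV n U g).filter fun v => v.2.1 = z).card : ℤ) := by
      have hk0 : (k : ℤ) = 1 - s z := hk.symm
      rw [hk0]
      linarith
    exact_mod_cast this
  obtain ⟨V, hV, hVc⟩ := exists_subset_card_eq hk2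
  obtain ⟨K, g', hK, hKh, hg1, hg2, hgs, hgb⟩ := C.sub_units H hz hV
  have hk' : (V.card : ℤ) = 1 - s z := by
    rw [hVc]
    exact hk.symm
  rw [hk'] at hgs
  have h1 := H.tN z hz K hK hKh g' hg1 hg2 (by rw [hgs]; nlinarith)
  rw [hgs] at h1
  have h2 : (t z + 2) * ∑ v ∈ V, unb kp mn g v
      ≤ (1 - s z) * (R - 1 - (t z + 2) * (t z + 3)) := by
    rw [mul_sum, ← hk', ← nsmul_eq_mul, ← sum_const]
    refine sum_le_sum fun v hv => ?_
    obtain ⟨h3, h4⟩ := mem_filter.1 (hV hv)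
    have h5 := hb v h3 h4
    nlinarith
  have h3 := mul_le_mul_of_nonneg_left hgb (by linarith : (0 : ℤ) ≤ t z + 2)
  have h4 : (1 - s z) * (R - 1 - (t z + 2) * (t z + 3))
      ≤ (mu z - s z + 1) * (R - 1 - (t z + 2) * (t z + 3)) :=
    mul_le_mul_of_nonneg_right (by linarith) (by linarith)
  have h5 := mul_le_mul_of_nonneg_left h1 (by linarith : (0 : ℤ) ≤ t z + 2)
  have h6 : (mu z - s z + 1) * (R - 1) ≤ (t z + 2) * (R - 1) :=
    mul_le_mul_of_nonneg_right (by linarith) (by nlinarith)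
  nlinarith

/-- the arithmetic of `light5` -/
lemma light5_num {R A b w : ℤ} (hA : 1 ≤ A) (hR : 65 ≤ R) (h1 : 2 * A ^ 3 < R)
    (hb2 : b ^ 2 ≤ R + (A - 1) * w) (hw : 2 * (w + 1) ≤ R) :
    (A + 1) * (A + 2 + b) < R ∧ (A + 1) * (A + 2) < R ∧ (3 * A + 2) ^ 2 < 8 * R := by
  have h2 : (A + 1) * (A + 2) < R ∧ (3 * A + 2) ^ 2 < 8 * R := by
    rcases le_or_gt A 3 with h3 | h3
    · constructor <;> nlinarith
    · constructor
      · nlinarith [mul_nonneg (by linarith : (0 : ℤ) ≤ A - 4) (by linarith : (0 : ℤ) ≤ A),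
          mul_nonneg (mul_nonneg (by linarith : (0 : ℤ) ≤ A - 4) (by linarith : (0 : ℤ) ≤ A))
            (by linarith : (0 : ℤ) ≤ A)]
      · nlinarith [mul_nonneg (by linarith : (0 : ℤ) ≤ A - 4) (by linarith : (0 : ℤ) ≤ A),
          mul_nonneg (mul_nonneg (by linarith : (0 : ℤ) ≤ A - 4) (by linarith : (0 : ℤ) ≤ A))
            (by linarith : (0 : ℤ) ≤ A)]
  refine ⟨?_, h2⟩
  by_contra hcon
  push Not at hcon
  rcases le_or_gt A 3 with h8 | h8
  · have h9 : A = 1 ∨ A = 2 ∨ A = 3 := by omega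
    rcases h9 with rfl | rfl | rfl
    · nlinarith
    · nlinarith
    · rcases le_or_gt b 11 with h10 | h10
      · linarith
      · nlinarith
  have h3 : R - (A + 1) * (A + 2) ≤ (A + 1) * b := by linarith
  have h4 : (R - (A + 1) * (A + 2)) ^ 2 ≤ ((A + 1) * b) ^ 2 :=
    pow_le_pow_left₀ (by linarith [h2.1]) h3 2
  have h5 : 2 * ((A + 1) * b) ^ 2 ≤ (A + 1) ^ 2 * (R * (A + 1)) := by
    have h6 : 2 * b ^ 2 ≤ R * (A + 1) := by
      nlinarith [mul_nonneg (by linarith : (0 : ℤ) ≤ A - 1)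
        (by linarith : (0 : ℤ) ≤ R - 2 * (w + 1))]
    have h7 := mul_le_mul_of_nonneg_left h6 (sq_nonneg (A + 1))
    nlinarith
  have h6 : R * (2 * R - 4 * ((A + 1) * (A + 2)) - (A + 1) ^ 3) ≤ 0 := by
    nlinarith [sq_nonneg ((A + 1) * (A + 2))]
  have h7 : 2 * R - 4 * ((A + 1) * (A + 2)) - (A + 1) ^ 3 ≤ 0 := by
    by_contra h8
    push Not at h8
    nlinarith [mul_pos (by linarith : (0 : ℤ) < R) h8]
  nlinarith [mul_nonneg (by linarith : (0 : ℤ) ≤ A - 4) (by linarith : (0 : ℤ) ≤ A),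
      mul_nonneg (mul_nonneg (by linarith : (0 : ℤ) ≤ A - 4) (by linarith : (0 : ℤ) ≤ A))
        (by linarith : (0 : ℤ) ≤ A)]

/-- **the rows with `2 A³ < R` are light** (fewest misses at the main end, all rows `≤ R / 2`) -/
theorem LevC.light5 (C : LevC n U ho vl kp mn pc (fun u i => mn i u) g f)
    (H : PCon R n t s mu U ho vl kp mn pc ar be kq NN sg nu) (hR : 65 ≤ R)
    (h2 : ∀ i < n, 2 * (t i + 1) ≤ R) (hz : z < n) (hA : 2 * (t z + 1) ^ 3 < R) :
    z ∈ lightU n s (unV n U g) fun v => {v.2.1} := by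
  have ht := H.t0 z hz
  have h3 := light5_num (b := 0) (w := 0) (by linarith : 1 ≤ t z + 1) hR hA (by nlinarith)
    (by linarith)
  refine C.light_b H hz (by nlinarith [h3.2.1]) (by nlinarith [h3.2.2]) fun v hv hvz => ?_
  have h4 := C.unb_sq H hv
  rw [hvz] at h4
  have h5 := (LevC.mem_unV hv).1
  have h6 := light5_num (b := unb kp mn g v) (w := t (f v.1)) (by linarith : 1 ≤ t z + 1) hR hA
    (by rw [add_sub_cancel_right]; exact h4) (h2 _ (C.fn v.1 h5))
  nlinarith [h6.1]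

/-! ### the closing over the cells which are not light -/

/-- **the shares of a row over its cells outside `L`**, any weights and factors -/
theorem LevC.row_theta5 (C : LevC n U ho vl kp mn pc φ g f)
    (H : PCon R n t s mu U ho vl kp mn pc ar be kq NN sg nu) (hz : z < n) {L : Finset ℕ}
    (hzL : z ∉ L) {F : Finset (ι × ℕ × ℕ)}
    (hF : F = freeU (unV n U g) (fun v => ho v.1) (fun v => {v.2.1}) L)
    (θ : ι × ℕ × ℕ → ℝ) (w : ℕ → ℝ) :
    ∑ v ∈ F.filter (fun v => ho v.1 = z), (1 - (1 - w v.2.1) * θ v)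
      + ∑ v ∈ F.filter (fun v => v.2.1 = z), w (ho v.1) * θ v
      = ∑ y ∈ ((range n).erase z).filter (fun y => y ∉ L),
        (w y * (rnE U ho vl pc be g z y : ℝ)
        + ((1 - w y) * rnHl n U ho g θ z y - w y * rnSl n U ho g θ z y)) := by
  have h0 : ∀ v ∈ unV n U g, v.2.1 < n ∧ ho v.1 < n ∧ v.2.1 ≠ ho v.1 := by
    intro v hv
    obtain ⟨h1, h2, h3⟩ := LevC.mem_unV hv
    exact ⟨h2, H.hlt _ h1, C.main_ne hv⟩
  have hFm : ∀ v, v ∈ F ↔ v ∈ unV n U g ∧ ho v.1 ∉ L ∧ v.2.1 ∉ L := by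
    intro v
    rw [hF]
    unfold freeU
    rw [mem_filter, disjoint_singleton_left]
  have e1 : ∑ v ∈ F.filter (fun v => ho v.1 = z), (1 - (1 - w v.2.1) * θ v)
      = ∑ y ∈ ((range n).erase z).filter (fun y => y ∉ L),
        (w y * (((unV n U g).filter fun v => ho v.1 = z ∧ v.2.1 = y).card : ℝ)
          + (1 - w y) * rnHl n U ho g θ z y) := by
    rw [← sum_fiberwise_of_maps_to (s := F.filter fun v => ho v.1 = z)
      (t := ((range n).erase z).filter fun y => y ∉ L) (g := fun v : ι × ℕ × ℕ => v.2.1)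
      fun v hv => ?_]
    · refine sum_congr rfl fun y hy => ?_
      have hyL := (mem_filter.1 hy).2
      have h2 : (F.filter fun v => ho v.1 = z).filter (fun v => v.2.1 = y)
          = (unV n U g).filter fun v => ho v.1 = z ∧ v.2.1 = y := by
        ext v
        rw [mem_filter, mem_filter, mem_filter, hFm]
        constructor
        · rintro ⟨⟨⟨h3, -, -⟩, h4⟩, h5⟩
          exact ⟨h3, h4, h5⟩
        · rintro ⟨h3, h4, h5⟩
          exact ⟨⟨⟨h3, by rw [h4]; exact hzL, by rw [h5]; exact hyL⟩, h4⟩, h5⟩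
      unfold rnHl
      rw [h2, sum_congr (s₁ := (unV n U g).filter fun v => ho v.1 = z ∧ v.2.1 = y)
        (g := fun v => w y + (1 - w y) * (1 - θ v)) rfl
        fun v hv => by rw [(mem_filter.1 hv).2.2]; ring, sum_add_distrib, sum_const, nsmul_eq_mul,
        ← mul_sum]
      ring
    · obtain ⟨h2, h3⟩ := mem_filter.1 hv
      obtain ⟨h4, -, h5⟩ := (hFm v).1 h2
      obtain ⟨h6, -, h7⟩ := h0 v h4
      exact mem_filter.2 ⟨mem_erase.2 ⟨fun h8 => h7 (by rw [h8, h3]), mem_range.2 h6⟩, h5⟩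
  have e2 : ∑ v ∈ F.filter (fun v => v.2.1 = z), w (ho v.1) * θ v
      = ∑ y ∈ ((range n).erase z).filter (fun y => y ∉ L),
        (w y * (((unV n U g).filter fun v => ho v.1 = y ∧ v.2.1 = z).card : ℝ)
          - w y * rnSl n U ho g θ z y) := by
    rw [← sum_fiberwise_of_maps_to (s := F.filter fun v => v.2.1 = z)
      (t := ((range n).erase z).filter fun y => y ∉ L) (g := fun v : ι × ℕ × ℕ => ho v.1)
      fun v hv => ?_]
    · refine sum_congr rfl fun y hy => ?_
      have hyL := (mem_filter.1 hy).2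
      have h2 : (F.filter fun v => v.2.1 = z).filter (fun v => ho v.1 = y)
          = (unV n U g).filter fun v => ho v.1 = y ∧ v.2.1 = z := by
        ext v
        rw [mem_filter, mem_filter, mem_filter, hFm]
        constructor
        · rintro ⟨⟨⟨h3, -, -⟩, h4⟩, h5⟩
          exact ⟨h3, h5, h4⟩
        · rintro ⟨h3, h4, h5⟩
          exact ⟨⟨⟨h3, by rw [h4]; exact hyL, by rw [h5]; exact hzL⟩, h5⟩, h4⟩
      unfold rnSl
      rw [h2, sum_congr (s₁ := (unV n U g).filter fun v => ho v.1 = y ∧ v.2.1 = z)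
        (g := fun v => w y + (-(w y)) * (1 - θ v)) rfl
        fun v hv => by rw [(mem_filter.1 hv).2.1]; ring, sum_add_distrib, sum_const, nsmul_eq_mul,
        ← mul_sum]
      ring
    · obtain ⟨h2, h3⟩ := mem_filter.1 hv
      obtain ⟨h4, h5, -⟩ := (hFm v).1 h2
      obtain ⟨-, h6, h7⟩ := h0 v h4
      exact mem_filter.2 ⟨mem_erase.2 ⟨fun h8 => h7 (by rw [h8, h3]), mem_range.2 h6⟩, h5⟩
  rw [e1, e2, ← sum_add_distrib]
  refine sum_congr rfl fun y hy => ?_
  have hyn := mem_range.1 (mem_of_mem_erase (mem_filter.1 hy).1)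
  have h3 : (rnE U ho vl pc be g z y : ℝ)
      = (((unV n U g).filter fun v => ho v.1 = z ∧ v.2.1 = y).card : ℝ)
      + (((unV n U g).filter fun v => ho v.1 = y ∧ v.2.1 = z).card : ℝ) := by
    have h4 : (((unV n U g).filter fun v => ho v.1 = z ∧ v.2.1 = y).card : ℤ)
        + (((unV n U g).filter fun v => ho v.1 = y ∧ v.2.1 = z).card : ℤ)
        = rnE U ho vl pc be g z y := by
      rw [C.card_host H hz hyn, C.card_serv H hz hyn]
      rfl
    rw [← h4]
    push_cast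
    rfl
  rw [h3]
  ring

/-- the term of a cell is not negative -/
lemma LevC.cell_nonneg (C : LevC n U ho vl kp mn pc φ g f)
    (H : PCon R n t s mu U ho vl kp mn pc ar be kq NN sg nu) (hz : z < n) (hy : y < n)
    {θ : ι × ℕ × ℕ → ℝ} (hθ : ∀ v ∈ unV n U g, 0 ≤ θ v ∧ θ v ≤ 1) {w : ℝ} (hw0 : 0 ≤ w)
    (hw1 : w ≤ 1) :
    0 ≤ w * (rnE U ho vl pc be g z y : ℝ)
        + ((1 - w) * rnHl n U ho g θ z y - w * rnSl n U ho g θ z y) := by
  have h3 : (rnE U ho vl pc be g z y : ℝ)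
      = (((unV n U g).filter fun v => ho v.1 = z ∧ v.2.1 = y).card : ℝ)
      + (((unV n U g).filter fun v => ho v.1 = y ∧ v.2.1 = z).card : ℝ) := by
    have h4 : (((unV n U g).filter fun v => ho v.1 = z ∧ v.2.1 = y).card : ℤ)
        + (((unV n U g).filter fun v => ho v.1 = y ∧ v.2.1 = z).card : ℤ)
        = rnE U ho vl pc be g z y := by
      rw [C.card_host H hz hy, C.card_serv H hz hy]
      rfl
    rw [← h4]
    push_cast
    rfl
  have h4 : 0 ≤ rnHl n U ho g θ z y :=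
    sum_nonneg fun v hv => by linarith [(hθ v (mem_filter.1 hv).1).2]
  have h5 : rnSl n U ho g θ z y
      ≤ (((unV n U g).filter fun v => ho v.1 = y ∧ v.2.1 = z).card : ℝ) := by
    unfold rnSl
    rw [← mul_one (((((unV n U g).filter fun v => ho v.1 = y ∧ v.2.1 = z).card : ℕ) : ℝ)),
      ← nsmul_eq_mul, ← sum_const]
    exact sum_le_sum fun v hv => by linarith [(hθ v (mem_filter.1 hv).1).1]
  rw [h3]
  have h6 : (0 : ℝ) ≤ (((unV n U g).filter fun v => ho v.1 = z ∧ v.2.1 = y).card : ℝ) :=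
    Nat.cast_nonneg _
  nlinarith [mul_nonneg hw0 h6, mul_nonneg (by linarith : (0 : ℝ) ≤ 1 - w) h4,
    mul_nonneg hw0 (by linarith : (0 : ℝ)
      ≤ (((unV n U g).filter fun v => ho v.1 = y ∧ v.2.1 = z).card : ℝ) - rnSl n U ho g θ z y)]

/-- **the closing over `P \ L`**, `T v = A_x / (A_x + A_m) * θ v`, any factors `θ`, any budgets `δ` -/
theorem LevC.close_theta5 (Lv : LevC n U ho vl kp mn pc φ g f)
    (H : PCon R n t s mu U ho vl kp mn pc ar be kq NN sg nu) (θ : ι × ℕ × ℕ → ℝ) {δ : ℕ → ℝ}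
    {L : Finset ℕ} (hL : L = lightU n s (unV n U g) fun v => {v.2.1})
    (h2 : ∀ z < n, z ∉ L → mu z - s z + 1 ≤ ∑ y ∈ (range n).erase z, rnE U ho vl pc be g z y →
      ∑ y ∈ ((range n).erase z).filter (fun y => y ∉ L),
        (((t y : ℝ) + 1) / ((t z : ℝ) + 1 + ((t y : ℝ) + 1)) * (rnE U ho vl pc be g z y : ℝ)
        + ((1 - ((t y : ℝ) + 1) / ((t z : ℝ) + 1 + ((t y : ℝ) + 1))) * rnHl n U ho g θ z y
          - ((t y : ℝ) + 1) / ((t z : ℝ) + 1 + ((t y : ℝ) + 1)) * rnSl n U ho g θ z y))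
      ≤ (mu z : ℝ) - s z + δ z)
    (h3 : ∑ i ∈ (range n).filter (fun i => i ∉ L), δ i < 1) : False := by
  refine Lv.close_M H (T := fun v => ((t (ho v.1) : ℝ) + 1)
    / ((t v.2.1 : ℝ) + 1 + ((t (ho v.1) : ℝ) + 1)) * θ v) hL rfl ?_ h3
  intro z hz hzL hz1
  have h4 : mu z - s z + 1 ≤ ∑ y ∈ (range n).erase z, rnE U ho vl pc be g z y := by
    rw [Lv.rnE_sum H hz]
    linarith
  have h5 := h2 z hz hzL h4
  have h6 := Lv.row_theta5 H hz hzL rfl θ
    fun y => ((t y : ℝ) + 1) / ((t z : ℝ) + 1 + ((t y : ℝ) + 1))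
  refine le_trans (le_of_eq ?_) h5
  rw [← h6]
  congr 1
  · refine sum_congr rfl fun v hv => ?_
    obtain ⟨h6, h7⟩ := mem_filter.1 hv
    obtain ⟨h8, h9, -⟩ := LevC.mem_unV (filter_subset _ _ h6)
    have h10 : (0 : ℝ) ≤ t z := by exact_mod_cast H.t0 z hz
    have h11 : (0 : ℝ) ≤ t v.2.1 := by exact_mod_cast H.t0 _ h9
    rw [h7]
    have h12 : (t v.2.1 : ℝ) + 1 + ((t z : ℝ) + 1) ≠ 0 := by positivity
    have h13 : (t z : ℝ) + 1 + ((t v.2.1 : ℝ) + 1) ≠ 0 := by positivity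
    have h14 : 1 - ((t v.2.1 : ℝ) + 1) / ((t z : ℝ) + 1 + ((t v.2.1 : ℝ) + 1))
        = ((t z : ℝ) + 1) / ((t v.2.1 : ℝ) + 1 + ((t z : ℝ) + 1)) := by
      field_simp
      ring
    rw [h14]
  · refine sum_congr rfl fun v hv => ?_
    rw [(mem_filter.1 hv).2]

/-- the lost factors `ρ m b` of the hosted units -/
lemma LevC.rnHl_rho (C : LevC n U ho vl kp mn pc φ g f)
    (H : PCon R n t s mu U ho vl kp mn pc ar be kq NN sg nu) (hy : y < n) (ρ : ℕ → ℝ) (z : ℕ) :
    rnHl n U ho g (fun v => 1 - ρ v.2.1 * (unb kp mn g v : ℝ)) z y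
      = ρ y * (rnHb U ho vl kp mn pc g z y : ℝ) := by
  have h1 : (rnHb U ho vl kp mn pc g z y : ℝ)
      = ∑ v ∈ (unV n U g).filter (fun v => ho v.1 = z ∧ v.2.1 = y), (unb kp mn g v : ℝ) := by
    have h2 := C.unb_host H (z := z) hy
    unfold rnHb
    rw [← h2]
    push_cast
    rfl
  rw [h1, mul_sum]
  unfold rnHl
  refine sum_congr rfl fun v hv => ?_
  beta_reduce
  rw [(mem_filter.1 hv).2.2]
  ring

/-- the lost factors `ρ z b` of the served units -/
lemma LevC.rnSl_rho (C : LevC n U ho vl kp mn pc φ g f)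
    (H : PCon R n t s mu U ho vl kp mn pc ar be kq NN sg nu) (hz : z < n) (ρ : ℕ → ℝ) (y : ℕ) :
    rnSl n U ho g (fun v => 1 - ρ v.2.1 * (unb kp mn g v : ℝ)) z y
      = ρ z * (rnSb U ho kp mn pc g z y : ℝ) := by
  have h1 : (rnSb U ho kp mn pc g z y : ℝ)
      = ∑ v ∈ (unV n U g).filter (fun v => ho v.1 = y ∧ v.2.1 = z), (unb kp mn g v : ℝ) := by
    have h2 := C.unb_serv H (y := y) hz
    unfold rnSb
    rw [← h2]
    push_cast
    rfl
  rw [h1, mul_sum]
  unfold rnSl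
  refine sum_congr rfl fun v hv => ?_
  beta_reduce
  rw [(mem_filter.1 hv).2.2]
  ring

/-- **REGIME L, TABLE L5, factor `1 - ρ m b` of the main end `m`**: fewest misses at the main end; only the rows with
`R ≤ 2 A³` have a claim, and its sum runs over the cells with `R ≤ 2 B³` -/
theorem LevC.close_M5 (Lv : LevC n U ho vl kp mn pc (fun u i => mn i u) g f)
    (H : PCon R n t s mu U ho vl kp mn pc ar be kq NN sg nu) (hR : 65 ≤ R)
    (hA : ∀ i < n, 2 * (t i + 1) ≤ R) {ρ : ℕ → ℝ} (hρ : ∀ y < n, 0 ≤ ρ y)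
    (hρ1 : ∀ v ∈ unV n U g, ρ v.2.1 * (unb kp mn g v : ℝ) ≤ 1)
    (h2 : ∀ z < n, R ≤ 2 * (t z + 1) ^ 3 →
      mu z - s z + 1 ≤ ∑ y ∈ (range n).erase z, rnE U ho vl pc be g z y →
      RowMr ρ (ρ z) R (((range n).erase z).filter fun y => R ≤ 2 * (t y + 1) ^ 3) (t z + 1)
        (mu z - s z) (fun y => t y + 1) (rnE U ho vl pc be g z) (rnHb U ho vl kp mn pc g z)
        (rnSb U ho kp mn pc g z)) : False := by
  refine Lv.close_theta5 H (fun v => 1 - ρ v.2.1 * (unb kp mn g v : ℝ)) rfl ?_ (H.sum_A_lt _)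
  intro z hz hzL hz1
  have hz3 : ∀ y < n, y ∉ lightU n s (unV n U g) (fun v => {v.2.1}) → R ≤ 2 * (t y + 1) ^ 3 := by
    intro y hy hyL
    by_contra hcon
    push Not at hcon
    exact hyL (Lv.light5 H hR hA hy hcon)
  have h4 := h2 z hz (hz3 z hz hzL) hz1
  unfold RowMr at h4
  push_cast at h4
  have hθ : ∀ v ∈ unV n U g, 0 ≤ 1 - ρ v.2.1 * (unb kp mn g v : ℝ)
      ∧ 1 - ρ v.2.1 * (unb kp mn g v : ℝ) ≤ 1 := fun v hv => by
    have h5 : (0 : ℝ) ≤ unb kp mn g v := by exact_mod_cast LevC.unb_nonneg H hv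
    have h6 := hρ _ (LevC.mem_unV hv).2.1
    exact ⟨by linarith [hρ1 v hv], by nlinarith [mul_nonneg h6 h5]⟩
  have hw : ∀ y < n, (0 : ℝ) ≤ ((t y : ℝ) + 1) / ((t z : ℝ) + 1 + ((t y : ℝ) + 1))
      ∧ ((t y : ℝ) + 1) / ((t z : ℝ) + 1 + ((t y : ℝ) + 1)) ≤ 1 := fun y hy => by
    have h6 : (0 : ℝ) ≤ t z := by exact_mod_cast H.t0 z hz
    have h7 : (0 : ℝ) ≤ t y := by exact_mod_cast H.t0 y hy
    refine ⟨by positivity, ?_⟩
    rw [div_le_one (by positivity)]
    linarith
  refine le_trans ?_ h4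
  refine (sum_le_sum_of_subset_of_nonneg
    (t := ((range n).erase z).filter fun y => R ≤ 2 * (t y + 1) ^ 3) ?_ fun y hy _ => ?_).trans
    (le_of_eq (sum_congr rfl fun y hy => ?_))
  · intro y hy
    obtain ⟨h5, h6⟩ := mem_filter.1 hy
    exact mem_filter.2 ⟨h5, hz3 y (mem_range.1 (mem_of_mem_erase h5)) h6⟩
  · have hyn := mem_range.1 (mem_of_mem_erase (mem_filter.1 hy).1)
    exact Lv.cell_nonneg H hz hyn hθ (hw y hyn).1 (hw y hyn).2
  · have hyn := mem_range.1 (mem_of_mem_erase (mem_filter.1 hy).1)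
    rw [Lv.rnHl_rho H hyn ρ z, Lv.rnSl_rho H hz ρ y]
    ring

/-- the factor of table L5 -/
noncomputable def rho5 (R : ℤ) (t : ℕ → ℤ) (m : ℕ) : ℝ :=
  if R ≤ 2 * (t m + 1) ^ 3 ∧ 8 * (t m + 1) ≤ R then 3 / (2 * (R : ℝ)) else 0

lemma rho5_nonneg (hR : 0 < R) (m : ℕ) : 0 ≤ rho5 R t m := by
  have h1 : (0 : ℝ) < R := by exact_mod_cast hR
  unfold rho5
  split_ifs
  · positivity
  · exact le_rfl

lemma LevC.rho5_le (Lv : LevC n U ho vl kp mn pc (fun u i => mn i u) g f)
    (H : PCon R n t s mu U ho vl kp mn pc ar be kq NN sg nu)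
    (h2 : ∀ i < n, 2 * t i ≤ R) {v : ι × ℕ × ℕ} (hv : v ∈ unV n U g) :
    rho5 R t v.2.1 * (unb kp mn g v : ℝ) ≤ 1 := by
  unfold rho5
  by_cases h1 : R ≤ 2 * (t v.2.1 + 1) ^ 3 ∧ 8 * (t v.2.1 + 1) ≤ R
  · have h3 := Lv.rho32 H h2 hv
    rw [if_pos h1.2] at h3
    rw [if_pos h1]
    exact h3
  · rw [if_neg h1, zero_mul]
    exact zero_le_one

end ClosM5

end Pool.Agent.Lib.MP_f04ccf_co
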