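import Pool.Agent.Lib.MP_f04ccf_co.M.ClosF

/-!
MP_f04ccf_co: the closure set with deletion sets (notes 15388, 15389 (C)).  `FeX B X`: after the
deletion of `X` every missing pair of a slot `x ∈ B` is fully served at a row of `B - x` or has two
different far rows, both in `B`.  Points of the classes may be deleted too, the centres are not.
`S2.closX`: there are `A` and `X` such that the reduced slots `S' x = S x \ X`, `x ∈ A`, form a closed
system with `∑ s' = 1`; every set which hits the hyperedges of the row `z` has at least `1 - s' z`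
points in the other slots.
-/

set_option autoImplicit false

namespace Pool.Agent.Lib.MP_f04ccf_co

open Finset

attribute [local instance] Classical.propDecidable

section ClosX

variable {V : Type*} {G : SimpleGraph V} {Z T : Finset V} {hm : V → V} {r m t : ℕ}

variable (G Z T hm) in
/-- the union of the slots of `B` -/
noncomputable def VB (B : Finset V) : Finset V := B.biUnion (fun x => MM G Z T hm x)

variable (G Z T) in
/-- the missing pair `p q` of the slot `x` is closed in `B` after the deletion of `X` -/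
def ClX (B X : Finset V) (x p q : V) : Prop :=
  (∃ y ∈ B.erase x, ∀ c ∈ Cl G Z T y, c ∉ X → G.Adj p c ∨ G.Adj q c) ∨
    ∃ y ∈ B.erase x, ∃ z ∈ B.erase x, y ≠ z ∧ ends G T p = {x, y} ∧ ends G T q = {x, z}

variable (G Z T hm) in
/-- `X` is a deletion set for `B` -/
def FeX (B X : Finset V) : Prop :=
  ∀ x ∈ B, ∀ p ∈ MM G Z T hm x, p ∉ X → ∀ q ∈ MM G Z T hm x, q ∉ X → (co G).Adj p q →
    ClX G Z T B X x p q

variable (G Z T hm) in
/-- the least size of a deletion set without centres -/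
noncomputable def ouX (B : Finset V) : ℕ :=
  sInf {k | ∃ X : Finset V, X ⊆ VB G Z T hm B \ T ∧ FeX G Z T hm B X ∧ X.card = k}

lemma mem_VB {B : Finset V} {v : V} : v ∈ VB G Z T hm B ↔ ∃ x ∈ B, v ∈ MM G Z T hm x := by
  unfold VB
  exact mem_biUnion

lemma MM_disjoint {x x' : V} (hx : x ∈ T) (hx' : x' ∈ T) (hne : x ≠ x') :
    Disjoint (MM G Z T hm x) (MM G Z T hm x') := by
  unfold MM
  rw [disjoint_union_left, disjoint_union_right, disjoint_union_right]
  refine ⟨⟨Cl_Cl_disjoint hx hx' hne,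
    disjoint_of_subset_right (filter_subset _ _) (Cl_BB_disjoint hx)⟩,
    (disjoint_of_subset_right (filter_subset _ _) (Cl_BB_disjoint hx')).symm, ?_⟩
  rw [disjoint_left]
  intro v hv hv'
  exact hne ((mem_Ph.1 hv).2.symm.trans (mem_Ph.1 hv').2)

lemma MM_subZ {x : V} : MM G Z T hm x ⊆ Z := by
  intro v hv
  rcases mem_MM.1 hv with h1 | h1
  · exact (mem_Cl.1 h1).1
  · exact (mem_BB.1 (mem_Ph.1 h1).1).1.1

/-- the centre of another row is not in the slot -/
lemma PFrame.centre_MM (_h : PFrame G r m t Z T) {x y : V} (hy : y ∈ T)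
    (hyM : y ∈ MM G Z T hm x) : y = x := by
  rcases mem_MM.1 hyM with h1 | h1
  · rcases (mem_Cl.1 h1).2 with h2 | ⟨h2, -⟩
    · exact h2
    · exact absurd hy h2
  · exact absurd hy (mem_BB.1 (mem_Ph.1 h1).1).1.2

/-- the centre is adjacent to its slot -/
lemma centre_adj (hh : Homes G Z T hm) {x p : V} (hp : p ∈ MM G Z T hm x)
    (hpx : p ≠ x) : G.Adj x p := by
  rcases mem_MM.1 hp with h1 | h1
  · rcases (mem_Cl.1 h1).2 with h2 | ⟨-, h2⟩
    · exact absurd h2 hpx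
    · have : x ∈ ends G T p := by rw [h2]; simp
      exact (mem_ends.1 this).2.symm
  · obtain ⟨h1, h2⟩ := mem_Ph.1 h1
    have h3 := hh p h1
    rw [h2] at h3
    exact (mem_ends.1 h3).2.symm

/-- a feasible set without centres -/
lemma PFrame.exists_feX (h : PFrame G r m t Z T) (B : Finset V) : ∃ X : Finset V, X ⊆ VB G Z T hm B \ T ∧ FeX G Z T hm B X ∧
      X.card = ouX G Z T hm B := by
  refine Nat.sInf_mem (s := {k | ∃ X : Finset V, X ⊆ VB G Z T hm B \ T ∧ FeX G Z T hm B X ∧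
    X.card = k}) ⟨_, VB G Z T hm B \ T, Subset.refl _, ?_, rfl⟩
  intro x hx p hp hpX q hq hqX hpq
  exfalso
  have key : ∀ v ∈ MM G Z T hm x, v ∉ VB G Z T hm B \ T → v = x := by
    intro v hv hvX
    have hvT : v ∈ T := by
      by_contra hvT
      exact hvX (mem_sdiff.2 ⟨mem_VB.2 ⟨x, hx, hv⟩, hvT⟩)
    exact h.centre_MM hvT hv
  exact hpq.1 ((key p hp hpX).trans (key q hq hqX).symm)

lemma ouX_le {B X : Finset V} (hX : X ⊆ VB G Z T hm B \ T) (hf : FeX G Z T hm B X) :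
    ouX G Z T hm B ≤ X.card := Nat.sInf_le ⟨X, hX, hf, rfl⟩

lemma FeX.mono {B X X' : Finset V} (hf : FeX G Z T hm B X) (h : X ⊆ X') :
    FeX G Z T hm B X' := by
  intro x hx p hp hpX q hq hqX hpq
  rcases hf x hx p hp (fun h' => hpX (h h')) q hq (fun h' => hqX (h h')) hpq with
    ⟨y, hy, h2⟩ | h2
  · exact Or.inl ⟨y, hy, fun c hc hcX => h2 c hc fun h' => hcX (h h')⟩
  · exact Or.inr h2

/-- the empty set is feasible for the set of all rows -/
lemma PFrame.feX_all (h : PFrame G r m t Z T) (hh : Homes G Z T hm) :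
    FeX G Z T hm T ∅ := by
  intro x hx p hp _ q hq _ hpq
  rcases (h.InG_all hh hx hp hq hpq).2 with ⟨y, hy, h2⟩ | h2
  · exact Or.inl ⟨y, hy, fun c hc _ => h2 c hc⟩
  · exact Or.inr h2

variable (G Z T hm r) in
/-- spare minus deletions -/
noncomputable def fX (B : Finset V) : ℤ := ∑ x ∈ B, sB G Z T hm r x - ouX G Z T hm B

lemma PFrame.fX_all (h : PFrame G r m t Z T) (hh : Homes G Z T hm) :
    1 ≤ fX G Z T hm r T := by
  have h1 := ouX_le (empty_subset _) (h.feX_all hh)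
  rw [card_empty] at h1
  have h2 := h.sum_card_MM hh
  unfold fX sB
  rw [sum_sub_distrib, h2, sum_const, h.cardT, nsmul_eq_mul]
  have h3 : (ouX G Z T hm T : ℤ) = 0 := by
    have : ouX G Z T hm T = 0 := by omega
    rw [this]
    rfl
  rw [h3]
  linarith

/-- **removal of a row**: a set which closes the pairs using the row `z` -/
lemma FeX.erase {A X X' : Finset V} {z : V} (hf : FeX G Z T hm A X)
    (hX' : ∀ x ∈ A.erase z, ∀ p ∈ MM G Z T hm x, p ∉ X → p ∉ X' → ∀ q ∈ MM G Z T hm x, q ∉ X →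
      q ∉ X' → (co G).Adj p q → (∀ c ∈ Cl G Z T z, c ∉ X → G.Adj p c ∨ G.Adj q c) ∨
        (∃ y ∈ A.erase x, y ≠ z ∧ ends G T p = {x, z} ∧ ends G T q = {x, y}) →
      ClX G Z T (A.erase z) (X ∪ X') x p q) :
    FeX G Z T hm (A.erase z) (X ∪ X') := by
  intro x hx p hp hpX q hq hqX hpq
  rw [mem_union, not_or] at hpX hqX
  rcases hf x (mem_of_mem_erase hx) p hp hpX.1 q hq hqX.1 hpq with
    ⟨y, hy, h2⟩ | ⟨y, hy, z', hz', h3, h4, h5⟩
  · by_cases hyz : y = z
    · subst hyz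
      exact hX' x hx p hp hpX.1 hpX.2 q hq hqX.1 hqX.2 hpq (Or.inl h2)
    · refine Or.inl ⟨y, ?_, fun c hc hcX => h2 c hc fun h' => hcX (mem_union_left _ h')⟩
      exact mem_erase.2 ⟨ne_of_mem_erase hy, mem_erase.2 ⟨hyz, mem_of_mem_erase hy⟩⟩
  · by_cases hyz : y = z
    · subst hyz
      exact hX' x hx p hp hpX.1 hpX.2 q hq hqX.1 hqX.2 hpq
        (Or.inr ⟨z', hz', h3.symm, h4, h5⟩)
    · by_cases hz'z : z' = z
      · subst hz'z
        have h6 := hX' x hx q hq hqX.1 hqX.2 p hp hpX.1 hpX.2 hpq.symm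
          (Or.inr ⟨y, hy, hyz, h5, h4⟩)
        rcases h6 with ⟨y', hy', h7⟩ | ⟨y', hy', z'', hz'', h7, h8, h9⟩
        · exact Or.inl ⟨y', hy', fun c hc hcX => (h7 c hc hcX).symm⟩
        · exact Or.inr ⟨z'', hz'', y', hy', h7.symm, h9, h8⟩
      · exact Or.inr ⟨y, mem_erase.2 ⟨ne_of_mem_erase hy, mem_erase.2 ⟨hyz, mem_of_mem_erase hy⟩⟩,
          z', mem_erase.2 ⟨ne_of_mem_erase hz', mem_erase.2 ⟨hz'z, mem_of_mem_erase hz'⟩⟩,
          h3, h4, h5⟩

/-- **closure theorem with deletion sets** -/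
theorem S2.closX (h : S2 G r m t Z T) (hr : 1 ≤ r) (hh : Homes G Z T hm) :
    ∃ A ⊆ T, ∃ X ⊆ VB G Z T hm A \ T, 2 ≤ A.card ∧ FeX G Z T hm A X ∧
      (∑ x ∈ A, (((MM G Z T hm x \ X).card : ℤ) - r) = 1) ∧
      (∀ x ∈ A, ((MM G Z T hm x \ X).card : ℤ) - r + 1 ≤ cn (co G) (MM G Z T hm x \ X)) ∧
      (∀ z ∈ A, ∀ X' : Finset V, (∀ v ∈ X', v ∉ T) → FeX G Z T hm (A.erase z) (X ∪ X') →
        1 - (((MM G Z T hm z \ X).card : ℤ) - r)
          ≤ (X' ∩ (VB G Z T hm (A.erase z) \ X)).card) := by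
  have hF := h.toPFrame
  obtain ⟨A, hA, hmin⟩ := exists_min_image
    (T.powerset.filter (fun B => 1 ≤ fX G Z T hm r B)) card
    ⟨T, mem_filter.2 ⟨mem_powerset.2 (Subset.refl T), hF.fX_all hh⟩⟩
  obtain ⟨hA1, hA2⟩ := mem_filter.1 hA
  have hAT := mem_powerset.1 hA1
  have hm' : ∀ B, B ⊂ A → fX G Z T hm r B ≤ 0 := by
    intro B hB
    by_contra hcon
    have h1 := hmin B (mem_filter.2 ⟨mem_powerset.2 (hB.1.trans hAT), by omega⟩)
    have h2 := card_lt_card hB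
    omega
  obtain ⟨X0, hX0, hf0, hc0⟩ := hF.exists_feX A
  -- sizes
  have hVc : ∀ B ⊆ T, ((VB G Z T hm B).card : ℤ) = ∑ x ∈ B, (sB G Z T hm r x + r) := by
    intro B hB
    unfold VB sB
    rw [card_biUnion fun x hx x' hx' hne => MM_disjoint (hB hx) (hB hx') hne]
    push_cast
    exact sum_congr rfl fun x _ => by ring
  have hTV : (T ∩ VB G Z T hm A).card ≤ A.card := by
    refine card_le_card fun v hv => ?_
    obtain ⟨v1, v2⟩ := mem_inter.1 hv
    obtain ⟨x, hx, hvx⟩ := mem_VB.1 v2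
    rw [hF.centre_MM v1 hvx]
    exact hx
  obtain ⟨k, hk⟩ : ∃ k : ℕ, (k : ℤ) = ∑ x ∈ A, sB G Z T hm r x - 1 := by
    have h1 : 0 ≤ ∑ x ∈ A, sB G Z T hm r x - 1 := by
      unfold fX at hA2
      have : (0 : ℤ) ≤ ouX G Z T hm A := by positivity
      linarith
    exact ⟨_, Int.toNat_of_nonneg h1⟩
  have hk1 : X0.card ≤ k := by
    have h1 : (X0.card : ℤ) ≤ k := by
      rw [hk, hc0]
      unfold fX at hA2
      linarith
    exact_mod_cast h1
  have hk2 : k ≤ (VB G Z T hm A \ T).card := by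
    have h1 := card_sdiff_add_card_inter (VB G Z T hm A) T
    rw [inter_comm] at h1
    have h2 := hVc A hAT
    rw [sum_add_distrib, sum_const, nsmul_eq_mul] at h2
    have h3 : (k : ℤ) + A.card ≤ (VB G Z T hm A).card := by
      rw [hk, h2]
      have h4 : (1 : ℤ) ≤ r := by exact_mod_cast hr
      nlinarith [show (0 : ℤ) ≤ A.card by positivity]
    have h5 : k + A.card ≤ (VB G Z T hm A).card := by exact_mod_cast h3
    omega
  obtain ⟨X, hX0X, hXV, hXc⟩ := exists_subsuperset_card_eq hX0 hk1 hk2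
  have hf := hf0.mono hX0X
  -- the deleted points of the parts
  have hsplit : ∀ B ⊆ A, ((VB G Z T hm B \ X).card : ℤ)
      = ∑ x ∈ B, (((MM G Z T hm x \ X).card : ℤ)) := by
    intro B hB
    have e1 : VB G Z T hm B \ X = B.biUnion (fun x => MM G Z T hm x \ X) := by
      ext v
      simp only [mem_sdiff, mem_VB, mem_biUnion]
      constructor
      · rintro ⟨⟨x, hx, hv⟩, hvX⟩
        exact ⟨x, hx, hv, hvX⟩
      · rintro ⟨x, hx, hv, hvX⟩
        exact ⟨⟨x, hx, hv⟩, hvX⟩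
    rw [e1, card_biUnion fun x hx x' hx' hne => disjoint_of_subset_left sdiff_subset
      (disjoint_of_subset_right sdiff_subset (MM_disjoint (hAT (hB hx)) (hAT (hB hx')) hne))]
    push_cast
    rfl
  have hdel : ∀ B ⊆ A, ((VB G Z T hm B \ X).card : ℤ)
      = (VB G Z T hm B).card - (X ∩ VB G Z T hm B).card := by
    intro B _
    have e1 := card_sdiff_add_card_inter (VB G Z T hm B) X
    rw [inter_comm] at e1
    have e2 : (((VB G Z T hm B) \ X).card : ℤ) + (X ∩ VB G Z T hm B).card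
        = (VB G Z T hm B).card := by exact_mod_cast e1
    linarith
  have hXA : X ∩ VB G Z T hm A = X :=
    inter_eq_left.2 fun v hv => (mem_sdiff.1 (hXV hv)).1
  have hsum : ∑ x ∈ A, (((MM G Z T hm x \ X).card : ℤ) - r) = 1 := by
    rw [sum_sub_distrib, ← hsplit A (Subset.refl A), hdel A (Subset.refl A), hXA, hVc A hAT,
      sum_add_distrib, hXc, hk]
    ring
  have htau : ∀ x ∈ A, ((MM G Z T hm x \ X).card : ℤ) - r + 1
      ≤ cn (co G) (MM G Z T hm x \ X) := by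
    intro x _
    have h1 := card_le_cn (G := G) (S := MM G Z T hm x \ X) (R := r - 1)
      fun K hK hq => h.omega K (hK.trans (sdiff_subset.trans MM_subZ)) hq
    omega
  refine ⟨A, hAT, X, hXV, ?_, hf, hsum, htau, ?_⟩
  · by_contra hcon
    have h4 : A.card ≤ 1 := by omega
    rcases A.eq_empty_or_nonempty with h5 | ⟨x, hx⟩
    · rw [h5] at hsum
      simp at hsum
    · have h6 : A = {x} := by
        refine (eq_singleton_iff_unique_mem).2 ⟨hx, fun v hv => card_le_one.1 h4 v hv x hx⟩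
      rw [h6, sum_singleton] at hsum
      have h7 := h.omega (MM G Z T hm x \ X) (sdiff_subset.trans MM_subZ) (by
        intro p hp q hq hpq
        by_contra hn
        obtain ⟨p1, p2⟩ := mem_sdiff.1 hp
        obtain ⟨q1, q2⟩ := mem_sdiff.1 hq
        have h8 := hf x hx p p1 p2 q q1 q2 (co_adj.2 ⟨hpq, hn⟩)
        rw [h6] at h8
        rcases h8 with ⟨y, hy, -⟩ | ⟨y, hy, -⟩ <;> simp at hy)
      omega
  · intro z hz X' hX'T hfe
    have h1 : fX G Z T hm r (A.erase z) ≤ 0 := hm' _ (erase_ssubset hz)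
    have hsub : (X ∪ X') ∩ VB G Z T hm (A.erase z) ⊆ VB G Z T hm (A.erase z) \ T := by
      intro v hv
      obtain ⟨v1, v2⟩ := mem_inter.1 hv
      refine mem_sdiff.2 ⟨v2, ?_⟩
      rcases mem_union.1 v1 with h3 | h3
      · exact (mem_sdiff.1 (hXV h3)).2
      · exact hX'T v h3
    have hfe' : FeX G Z T hm (A.erase z) ((X ∪ X') ∩ VB G Z T hm (A.erase z)) := by
      intro x hx p hp hpX q hq hqX hpq
      have hin : ∀ v ∈ MM G Z T hm x, v ∉ (X ∪ X') ∩ VB G Z T hm (A.erase z) → v ∉ X ∪ X' :=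
        fun v hv hvX h' => hvX (mem_inter.2 ⟨h', mem_VB.2 ⟨x, hx, hv⟩⟩)
      rcases hfe x hx p hp (hin p hp hpX) q hq (hin q hq hqX) hpq with ⟨y, hy, h2⟩ | h2
      · refine Or.inl ⟨y, hy, fun c hc hcX => h2 c hc fun h' => hcX (mem_inter.2 ⟨h', ?_⟩)⟩
        exact mem_VB.2 ⟨y, mem_of_mem_erase hy, mem_MM.2 (Or.inl hc)⟩
      · exact Or.inr h2
    have h2 := ouX_le hsub hfe'
    have h3 : ((X ∪ X') ∩ VB G Z T hm (A.erase z)).card
        ≤ (X ∩ VB G Z T hm (A.erase z)).card + (X' ∩ (VB G Z T hm (A.erase z) \ X)).card := by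
      refine (card_le_card ?_).trans (card_union_le _ _)
      intro v hv
      obtain ⟨v1, v2⟩ := mem_inter.1 hv
      by_cases hvX : v ∈ X
      · exact mem_union_left _ (mem_inter.2 ⟨hvX, v2⟩)
      · rcases mem_union.1 v1 with h4 | h4
        · exact absurd h4 hvX
        · exact mem_union_right _ (mem_inter.2 ⟨h4, mem_sdiff.2 ⟨v2, hvX⟩⟩)
    -- the sizes
    have h4 := hsplit (A.erase z) (erase_subset _ _)
    rw [hdel (A.erase z) (erase_subset _ _), hVc (A.erase z) ((erase_subset _ _).trans hAT),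
      sum_add_distrib, sum_const, nsmul_eq_mul] at h4
    have h5 := sum_erase_add A (fun x => ((MM G Z T hm x \ X).card : ℤ) - r) hz
    rw [hsum, sum_sub_distrib, sum_const, nsmul_eq_mul] at h5
    unfold fX at h1
    have h6 : (ouX G Z T hm (A.erase z) : ℤ)
        ≤ (X ∩ VB G Z T hm (A.erase z)).card + (X' ∩ (VB G Z T hm (A.erase z) \ X)).card := by
      exact_mod_cast h2.trans h3
    linarith

/-- a set which hits the hyperedges of the row `z` is a deletion set for `A - z` -/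
lemma FeX.erase_hit {A X X' : Finset V} {z : V} (hf : FeX G Z T hm A X)
    (h1 : ∀ x ∈ A.erase z, ∀ p ∈ MM G Z T hm x, p ∉ X → ∀ q ∈ MM G Z T hm x, q ∉ X →
      (co G).Adj p q → (∀ c ∈ Cl G Z T z, c ∉ X → G.Adj p c ∨ G.Adj q c) →
      p ∈ X' ∨ q ∈ X' ∨ ∃ y ∈ A.erase x, y ≠ z ∧
        ((ends G T p = {x, z} ∧ ends G T q = {x, y}) ∨
          (ends G T q = {x, z} ∧ ends G T p = {x, y})))
    (h2 : ∀ x ∈ A.erase z, ∀ p ∈ MM G Z T hm x, p ∉ X → ∀ q ∈ MM G Z T hm x, q ∉ X →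
      (co G).Adj p q → ∀ y ∈ A.erase x, y ≠ z → ends G T p = {x, z} → ends G T q = {x, y} →
      ∀ c ∈ Cl G Z T y, c ∉ X → ¬ G.Adj p c → ¬ G.Adj q c → p ∈ X' ∨ q ∈ X' ∨ c ∈ X') :
    FeX G Z T hm (A.erase z) (X ∪ X') := by
  refine hf.erase fun x hx p hp hpX hpX' q hq hqX hqX' hpq hor => ?_
  have key : ∀ p ∈ MM G Z T hm x, p ∉ X → p ∉ X' → ∀ q ∈ MM G Z T hm x, q ∉ X → q ∉ X' →
      (co G).Adj p q → ∀ y ∈ A.erase x, y ≠ z → ends G T p = {x, z} → ends G T q = {x, y} →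
      ∃ y ∈ (A.erase z).erase x, ∀ c ∈ Cl G Z T y, c ∉ X ∪ X' → G.Adj p c ∨ G.Adj q c := by
    intro p hp hpX hpX' q hq hqX hqX' hpq y hy hyz e1 e2
    refine ⟨y, mem_erase.2 ⟨ne_of_mem_erase hy, mem_erase.2 ⟨hyz, mem_of_mem_erase hy⟩⟩,
      fun c hc hcX => ?_⟩
    rw [mem_union, not_or] at hcX
    by_contra hcon
    push Not at hcon
    rcases h2 x hx p hp hpX q hq hqX hpq y hy hyz e1 e2 c hc hcX.1 hcon.1 hcon.2 with
      h3 | h3 | h3
    · exact hpX' h3
    · exact hqX' h3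
    · exact hcX.2 h3
  rcases hor with h3 | ⟨y, hy, hyz, e1, e2⟩
  · rcases h1 x hx p hp hpX q hq hqX hpq h3 with h4 | h4 | ⟨y, hy, hyz, ⟨e1, e2⟩ | ⟨e1, e2⟩⟩
    · exact absurd h4 hpX'
    · exact absurd h4 hqX'
    · exact Or.inl (key p hp hpX hpX' q hq hqX hqX' hpq y hy hyz e1 e2)
    · obtain ⟨y', hy', h5⟩ := key q hq hqX hqX' p hp hpX hpX' hpq.symm y hy hyz e1 e2
      exact Or.inl ⟨y', hy', fun c hc hcX => (h5 c hc hcX).symm⟩
  · exact Or.inl (key p hp hpX hpX' q hq hqX hqX' hpq y hy hyz e1 e2)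

/-- the neighbours of a point of the class `z` in the other slots are a deletion set for `A - z` -/
lemma PFrame.feX_nbr (h : PFrame G r m t Z T) {A X : Finset V} (hA : A ⊆ T)
    (hf : FeX G Z T hm A X) {z c : V} (hz : z ∈ A) (hc : c ∈ Cl G Z T z) (hcX : c ∉ X) :
    (∀ v ∈ (VB G Z T hm (A.erase z)).filter (fun v => G.Adj c v), v ∉ T) ∧
      FeX G Z T hm (A.erase z)
        (X ∪ (VB G Z T hm (A.erase z)).filter (fun v => G.Adj c v)) := by
  constructor
  · intro v hv hvT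
    obtain ⟨v1, v2⟩ := mem_filter.1 hv
    obtain ⟨x, hx, hvx⟩ := mem_VB.1 v1
    have h1 := h.centre_MM hvT hvx
    subst h1
    have h2 : v ∈ ends G T c := mem_ends.2 ⟨hvT, v2⟩
    rcases (mem_Cl.1 hc).2 with h3 | ⟨-, h3⟩
    · rw [h3, h.ends_T (hA hz)] at h2
      simp at h2
    · rw [h3, mem_singleton] at h2
      exact (ne_of_mem_erase hx) h2
  · have hin : ∀ x ∈ A.erase z, ∀ v ∈ MM G Z T hm x, G.Adj c v →
        v ∈ (VB G Z T hm (A.erase z)).filter (fun v => G.Adj c v) := fun x hx v hv hcv =>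
      mem_filter.2 ⟨mem_VB.2 ⟨x, hx, hv⟩, hcv⟩
    refine hf.erase_hit ?_ ?_
    · intro x hx p hp _ q hq _ _ h1
      rcases h1 c hc hcX with h2 | h2
      · exact Or.inl (hin x hx p hp h2.symm)
      · exact Or.inr (Or.inl (hin x hx q hq h2.symm))
    · intro x hx p hp _ q hq _ hpq y hy hyz e1 e2 c' hc' _ n3 n4
      by_cases n1 : G.Adj p c
      · exact Or.inl (hin x hx p hp n1.symm)
      by_cases n2 : G.Adj q c
      · exact Or.inr (Or.inl (hin x hx q hq n2.symm))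
      right; right
      have hyA := mem_of_mem_erase hy
      have hxA := mem_of_mem_erase hx
      have key : ∀ v ∈ MM G Z T hm x, ∀ w ∈ T, w ≠ x → w ∈ ends G T v → v ∈ BB G Z T := by
        intro v hv w hwT hwx hw
        rcases mem_MM.1 hv with h1 | h1
        · exfalso
          rcases (mem_Cl.1 h1).2 with h2 | ⟨-, h2⟩
          · rw [h2, h.ends_T (hA hxA)] at hw
            simp at hw
          · rw [h2, mem_singleton] at hw
            exact hwx hw
        · exact (mem_Ph.1 h1).1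
      have hpB := key p hp z (hA hz) (ne_of_mem_erase hx).symm (by rw [e1]; simp)
      have hqB := key q hq y (hA hyA) (ne_of_mem_erase hy) (by rw [e2]; simp)
      have h3 := h.half (hA hz) (hA hyA) hyz.symm (hA hxA) hpB e1 hqB e2 hpq.1 hpq.2 hc hc'
        n1 n2 n3 n4
      exact mem_filter.2 ⟨mem_VB.2 ⟨y, mem_erase.2 ⟨hyz, hyA⟩, mem_MM.2 (Or.inl hc')⟩, h3⟩

/-- **closure theorem**, with the consequences for the points of the classes -/
theorem S2.closX' (h : S2 G r m t Z T) (hr : 1 ≤ r) (hh : Homes G Z T hm) :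
    ∃ A ⊆ T, ∃ X ⊆ VB G Z T hm A \ T, 2 ≤ A.card ∧ FeX G Z T hm A X ∧
      (∑ x ∈ A, (((MM G Z T hm x \ X).card : ℤ) - r) = 1) ∧
      (∀ x ∈ A, ((MM G Z T hm x \ X).card : ℤ) - r + 1 ≤ cn (co G) (MM G Z T hm x \ X)) ∧
      (∀ z ∈ A, ∀ X' : Finset V, (∀ v ∈ X', v ∉ T) → FeX G Z T hm (A.erase z) (X ∪ X') →
        1 - (((MM G Z T hm z \ X).card : ℤ) - r)
          ≤ (X' ∩ (VB G Z T hm (A.erase z) \ X)).card) ∧
      (∀ z ∈ A, ∀ c ∈ Cl G Z T z, c ∉ X →
        1 - (((MM G Z T hm z \ X).card : ℤ) - r) ≤ dg G (VB G Z T hm (A.erase z) \ X) c) := by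
  obtain ⟨A, hA, X, hX, h1, h2, h3, h4, h5⟩ := h.closX hr hh
  refine ⟨A, hA, X, hX, h1, h2, h3, h4, h5, fun z hz c hc hcX => ?_⟩
  obtain ⟨h6, h7⟩ := h.toPFrame.feX_nbr hA h2 hz hc hcX
  have h8 := h5 z hz _ h6 h7
  have h9 : ((VB G Z T hm (A.erase z)).filter (fun v => G.Adj c v) ∩
      (VB G Z T hm (A.erase z) \ X)).card ≤ dg G (VB G Z T hm (A.erase z) \ X) c := by
    refine card_le_card fun v hv => ?_
    obtain ⟨v1, v2⟩ := mem_inter.1 hv
    exact mem_filter.2 ⟨v2, (mem_filter.1 v1).2⟩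
  have h10 : (((VB G Z T hm (A.erase z)).filter (fun v => G.Adj c v) ∩
      (VB G Z T hm (A.erase z) \ X)).card : ℤ) ≤ dg G (VB G Z T hm (A.erase z) \ X) c := by
    exact_mod_cast h9
  linarith

end ClosX

section StarGen

variable {V : Type*} {G : SimpleGraph V} {r : ℕ}

/-- property (P) on a union of slots `C x ∪ H x` (ordered pairs of rows) -/
theorem PG.star_gen (hP : PG G r) (A : Finset V) (C H : V → Finset V)
    (hC : ∀ x ∈ A, Clq G (C x))
    (hdC : ∀ x ∈ A, ∀ y ∈ A, x ≠ y → Disjoint (C x) (C y))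
    (hdH : ∀ x ∈ A, ∀ y ∈ A, x ≠ y → Disjoint (H x) (H y))
    (hdCH : ∀ x ∈ A, ∀ y ∈ A, Disjoint (C x) (H y)) :
    2 * ((r : ℤ) - 1) * ∑ x ∈ A, (((C x ∪ H x).card : ℤ) - r)
      + 2 * ∑ x ∈ A, ∑ y ∈ A.erase x, ∑ c ∈ C y, (dg G (C x ∪ H x) c : ℤ)
      + ∑ x ∈ A, ∑ y ∈ A.erase x, ∑ v ∈ H y, (dg G (H x) v : ℤ)
      ≤ ∑ x ∈ A, ∑ y ∈ A.erase x, (((r : ℤ) - 1) + (((C x ∪ H x).card : ℤ) - r + 1)
            * (((C y ∪ H y).card : ℤ) - r + 1))
        + ∑ x ∈ A, ∑ y ∈ A.erase x, ∑ v ∈ C y, (dg G (C x) v : ℤ)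
        + ∑ x ∈ A, (NE G (C x ∪ H x) : ℤ) := by
  have hcard : ∀ x ∈ A, ((C x ∪ H x).card : ℤ) = (C x).card + (H x).card := by
    intro x hx
    rw [card_union_of_disjoint (hdCH x hx x hx)]
    push_cast
    rfl
  have h1 := hP.rows_homes A C H ∅ hC hdC hdH hdCH
    (fun _ _ => disjoint_empty_right _) (fun _ _ => disjoint_empty_right _)
    (fun x => ((C x ∪ H x).card : ℤ) - r + 1) (fun x hx => by
      rw [hcard x hx]
      ring)
  have hNE : ∀ x ∈ A, (NE G (C x ∪ H x) : ℤ)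
      = NE G (H x) + 2 * ∑ v ∈ H x, (nd G (C x) v : ℤ) := by
    intro x hx
    rw [NE_union (hdCH x hx x hx), NE_clq (hC x hx)]
    push_cast
    ring
  have hdg : ∀ x ∈ A, ∀ y ∈ A.erase x, ∑ c ∈ C y, (dg G (C x ∪ H x) c : ℤ)
      = ∑ v ∈ C y, (dg G (C x) v : ℤ) + ∑ v ∈ H x, (dg G (C y) v : ℤ) := by
    intro x hx y _
    have e1 : ∑ v ∈ H x, (dg G (C y) v : ℤ) = ∑ c ∈ C y, (dg G (H x) c : ℤ) := by
      have := dg_comm G (H x) (C y)
      exact_mod_cast this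
    rw [e1, ← sum_add_distrib]
    refine sum_congr rfl fun c _ => ?_
    have e2 : dg G (C x ∪ H x) c = dg G (C x) c + dg G (H x) c := by
      unfold dg
      rw [filter_union, card_union_of_disjoint (disjoint_filter_filter (hdCH x hx x hx))]
    rw [e2]
    push_cast
    rfl
  have hsw : ∑ x ∈ A, ∑ y ∈ A.erase x, ∑ v ∈ H x, (dg G (C y) v : ℤ)
      = ∑ x ∈ A, ∑ y ∈ A.erase x, ∑ v ∈ H y, (dg G (C x) v : ℤ) := by
    rw [sum_offdiag A fun x y => ∑ v ∈ H x, (dg G (C y) v : ℤ),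
      sum_offdiag A fun x y => ∑ v ∈ H y, (dg G (C x) v : ℤ), sum_comm]
  have hsum : ∑ x ∈ A, ∑ y ∈ A.erase x, ∑ c ∈ C y, (dg G (C x ∪ H x) c : ℤ)
      = ∑ x ∈ A, ∑ y ∈ A.erase x, ∑ v ∈ C y, (dg G (C x) v : ℤ)
        + ∑ x ∈ A, ∑ y ∈ A.erase x, ∑ v ∈ H y, (dg G (C x) v : ℤ) := by
    rw [← hsw, ← sum_add_distrib]
    refine sum_congr rfl fun x hx => ?_
    rw [← sum_add_distrib]
    exact sum_congr rfl fun y hy => hdg x hx y hy
  have hs : ∑ x ∈ A, (((C x ∪ H x).card : ℤ) - r + 1 - 1)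
      = ∑ x ∈ A, (((C x ∪ H x).card : ℤ) - r) := sum_congr rfl fun x _ => by ring
  have e0 : (NE G (∅ : Finset V) : ℤ) = 0 := by
    have : NE G (∅ : Finset V) = 0 := rfl
    rw [this]
    rfl
  rw [sum_congr rfl hNE, hsum, sum_add_distrib, ← mul_sum]
  simp only [hs, sum_empty, e0] at h1
  linarith

/-- **row test with a given load**: every point of the clique `C` sees at least `k` points of `P` -/
theorem PG.row_load (hP : PG G r) {C H P : Finset V} {k : ℕ} (hCH : Disjoint C H)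
    (hCP : Disjoint C P) (hHP : Disjoint H P) (hk : ∀ c ∈ C, k ≤ dg G P c) :
    2 * ((r : ℤ) - 1) * (((C ∪ H).card : ℤ) - r)
      + 2 * k * (((r : ℤ) - 1) - H.card + (((C ∪ H).card : ℤ) - r + 1))
      + E G P + 2 * ∑ v ∈ P, (dg G H v : ℤ)
      ≤ NE G (C ∪ H) + P.card * ((P.card : ℤ) - 1 + 2 * (((C ∪ H).card : ℤ) - r + 1)) := by
  have h1 := hP.ne1 (C ∪ H ∪ P)
  have hd : Disjoint (C ∪ H) P := disjoint_union_left.2 ⟨hCP, hHP⟩
  rw [NE_union hd, card_union_of_disjoint hd] at h1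
  have hcard : ((C ∪ H).card : ℤ) = C.card + H.card := by
    rw [card_union_of_disjoint hCH]
    push_cast
    rfl
  have h2 : ∑ v ∈ P, (nd G (C ∪ H) v : ℤ)
      ≤ P.card * C.card - k * C.card + P.card * H.card - ∑ v ∈ P, (dg G H v : ℤ) := by
    have e1 : ∑ v ∈ P, (nd G (C ∪ H) v : ℤ)
        = ∑ v ∈ P, (nd G C v : ℤ) + ∑ v ∈ P, (nd G H v : ℤ) := by
      rw [← sum_add_distrib]
      refine sum_congr rfl fun v _ => ?_
      rw [nd_union hCH]
      push_cast
      rfl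
    have e4 := sum_dg_nd (G := G) hCP
    have e4' := sum_dg_nd (G := G) hHP
    have e5 : (k : ℤ) * C.card ≤ ∑ v ∈ P, (dg G C v : ℤ) := by
      have e6 : ∑ v ∈ P, (dg G C v : ℤ) = ∑ c ∈ C, (dg G P c : ℤ) := by
        have := dg_comm G P C
        exact_mod_cast this
      rw [e6]
      have e7 : ∑ _c ∈ C, (k : ℤ) ≤ ∑ c ∈ C, (dg G P c : ℤ) :=
        sum_le_sum fun c hc => by exact_mod_cast hk c hc
      rw [sum_const, nsmul_eq_mul] at e7
      linarith
    rw [e1, e4, e4']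
    linarith
  have h3 : (NE G P : ℤ) + E G P = P.card * (P.card - 1) := by
    have e1 := E_add_NE (G := G) P
    linarith
  push_cast at h1
  rw [hcard] at h1 ⊢
  nlinarith

end StarGen

end Pool.Agent.Lib.MP_f04ccf_co
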