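import Mathlib

/-!
MP_f04ccf_co, TEXT D: **the pair inequalities of a hosted clique in the column sum certificate** (statement only),
letters in units of `R`: `a` the host, `x` a main cell with `b` misses, `y` the cut cell with `q` misses, `e = 1/R`,
`v` the value, `k` the level of the main end, `φ` the factor, `δ` the deficit of a value, `β` the price of the mass.
-/

set_option autoImplicit false

namespace Pool.Agent.Lib.MP_f04ccf_co

/-- a main cell `x` and the cut cell `y` -/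
def ClqCom (a e x y b q : ℝ) : Prop :=
  e ≤ x ∧ 2 * x ≤ 1 ∧ e ≤ y ∧ 2 * y ≤ 1 ∧ x + y ≤ 1 - a ∧ 0 ≤ b ∧ b ≤ q ∧ q ≤ 1 - (y - e)
    ∧ b * q ≤ e + (x - e) * (y - e)

/-- the factor of a main cell -/
def ClqFa (e x φ : ℝ) : Prop :=
  φ = 0 ∨ (0 ≤ φ ∧ e * e ≤ 2 * x * x * x ∧ 2 * φ ≤ 3 ∧ φ ≤ 2 * (1 - 4 * x))

/-- **the pair inequalities** -/
structure ClqP (v a e δ β : ℝ) : Prop where
  hβ : v * ((1 - a) * v + 1) ≤ β * (2 * v + 1)
  hΓ : β ≤ (1 - a) * v
  /-- a main end of level `k` and the single cut end -/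
  mIn : ∀ k x y b q M N φ : ℝ, (k = 1 ∨ k = 2) → ClqCom a e x y b q → ClqFa e x φ →
    M ≤ k * (x - e - a) + b + v * a * (1 - (x - e)) →
    M ≤ k * (1 - a) + v * (1 - a) * (x - e) + (x - e) →
    N ≤ q + v * a * (1 - (y - e)) + (y - e) - 1 →
    N ≤ v * (1 - a) * (y - e) + (y - e) →
    v * (x * M + (1 - a) * a * φ * b - β * x * (a + x)) * (a + y)
      + k * (y * N - β * y * (a + y)) * (a + x)
      ≤ k * ((1 - a) ^ 2 * v - β * (1 - a) + v * δ) * ((a + x) * (a + y))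
  /-- a main end of level `k`, the cut end in a cell which is not charged -/
  mOut : ∀ k x y b q M φ : ℝ, (k = 1 ∨ k = 2) → ClqCom a e x y b q → ClqFa e x φ →
    M ≤ k * (x - e - a) + b + v * a * (1 - (x - e)) →
    M ≤ k * (1 - a) + v * (1 - a) * (x - e) + (x - e) →
    v * (x * M + (1 - a) * a * φ * b - β * x * (a + x)) * (a + y)
      + k * (- β * y * (a + y)) * (a + x)
      ≤ k * ((1 - a) ^ 2 * v - β * (1 - a) + v * δ) * ((a + x) * (a + y))
  /-- a single main end and the doubled cut end -/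
  cIn : ∀ x y b q M N φ : ℝ, ClqCom a e x y b q → ClqFa e x φ →
    M ≤ 1 * (x - e - a) + b + v * a * (1 - (x - e)) →
    M ≤ 1 * (1 - a) + v * (1 - a) * (x - e) + (x - e) →
    N ≤ q + v * a * (1 - (y - e)) + 2 * (y - e) - 1 - a →
    N ≤ 1 - a + v * (1 - a) * (y - e) + (y - e) →
    (v - 1) * (x * M + (1 - a) * a * φ * b - β * x * (a + x)) * (a + y)
      + (y * N - β * y * (a + y)) * (a + x)
      ≤ ((1 - a) ^ 2 * v - β * (1 - a) + v * δ) * ((a + x) * (a + y))
  /-- the doubled cut end alone -/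
  cOne : ∀ y N : ℝ, e ≤ y → 2 * y ≤ 1 → N ≤ v * a * (1 - (y - e)) + (y - e) - a →
    N ≤ 1 - a + v * (1 - a) * (y - e) + (y - e) →
    y * N - β * y * (a + y) ≤ ((1 - a) ^ 2 * v - β * (1 - a) + v * δ) * (a + y)

end Pool.Agent.Lib.MP_f04ccf_co
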