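import Pool.Agent.Lib.MP_f04ccf_co.M.CsB
import Pool.Agent.Lib.MP_f04ccf_co.M.ClqA

/-!
MP_f04ccf_co, TEXT D: **the hosted cliques of the column sum certificate**, pure reals: from the pair inequalities
`ClqP` (M/ClqA.lean) to the clique.

* `CsC.clique_of`: `∑ (g s + (1 - s) fc b / R) ≤ ∑ csL cr + csT c v + v δ R / c` for a clique of value `v`.
-/

set_option autoImplicit false

namespace Pool.Agent.Lib.MP_f04ccf_co

open Finset

/-- a cell which is not an end (or a blind single cut end) -/
lemma clq_non {v a e y N β : ℝ} (hv : 1 ≤ v) (ha : 0 ≤ a) (ha' : a ≤ 1) (he : 0 ≤ e) (hy : e ≤ y)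
    (hβ : v * ((1 - a) * v + 1) ≤ β * (2 * v + 1)) (h1 : N ≤ v * a * (1 - (y - e)))
    (h2 : N ≤ v * (1 - a) * (y - e) + (y - e)) : y * N - β * y * (a + y) ≤ 0 := by
  have hy0 : 0 ≤ y := he.trans hy
  have h3 : N ≤ β * (a + y) := by
    have h4 : N * (2 * v + 1) ≤ β * (a + y) * (2 * v + 1) := by
      have h5 := mul_le_mul_of_nonneg_left hβ (show 0 ≤ a + y by linarith)
      have h6 : N * (2 * v + 1) ≤ (v * ((1 - a) * v + 1)) * (a + (y - e)) := by
        have h7 := mul_le_mul_of_nonneg_left h1 (show 0 ≤ (1 - a) * v + 1 by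
          have := mul_nonneg (show 0 ≤ 1 - a by linarith) (show 0 ≤ v by linarith)
          linarith)
        have h8 := mul_le_mul_of_nonneg_left h2 (show 0 ≤ 2 * v + 1 - ((1 - a) * v + 1) by nlinarith)
        linarith
      have h9 : (v * ((1 - a) * v + 1)) * (a + (y - e)) ≤ (v * ((1 - a) * v + 1)) * (a + y) := by
        refine mul_le_mul_of_nonneg_left (by linarith) (mul_nonneg (by linarith) ?_)
        have := mul_nonneg (show 0 ≤ 1 - a by linarith) (show 0 ≤ v by linarith)
        linarith
      linarith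
    exact le_of_mul_le_mul_right h4 (by linarith)
  have h10 := mul_le_mul_of_nonneg_left h3 hy0
  linarith

/-- **the sum over the cells**, letters in units of `R`: `G l` is the cost of a cell minus `β` times its mass -/
lemma clq_sum {F : Finset ℕ} {G g : ℕ → ℝ} {v Γ Gf : ℝ} (hv : 0 < v)
    (h1 : ∀ l ∈ F, v * G l ≤ g l * (Γ - Gf)) (hS : ∑ l ∈ F, g l ≤ v) (h2 : Gf ≤ Γ) :
    ∑ l ∈ F, G l + Gf ≤ Γ := by
  have h3 : v * ∑ l ∈ F, G l ≤ (∑ l ∈ F, g l) * (Γ - Gf) := by
    rw [mul_sum, sum_mul]
    exact sum_le_sum h1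
  have h4 := mul_le_mul_of_nonneg_right hS (show 0 ≤ Γ - Gf by linarith)
  have h5 : v * ∑ l ∈ F, G l ≤ v * (Γ - Gf) := h3.trans h4
  have h6 := le_of_mul_le_mul_left h5 hv
  linarith

/-- **A HOSTED CLIQUE IN THE COLUMN SUM**, from the pair inequalities. `F`: the charged cells, `f`: the cut cell,
`k`: the ends, `g`: the levels, `mn`: the misses, `fc`: the factors -/
theorem CsC.clique_of {R A v δ : ℝ} {F : Finset ℕ} {t cr k g mn fc : ℕ → ℝ} {f : ℕ}
    (H : CsC R A F t) (hv : 2 ≤ v) (hδ : 0 ≤ δ)
    (hclq : ∃ β, ClqP v (A / R) (1 / R) δ β)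
    (htf : 0 ≤ t f) (htf2 : 2 * (t f + 1) ≤ R)
    (hsum : f ∉ F → A + ∑ l ∈ F, (t l + 1) + (t f + 1) ≤ R)
    (hD : ∀ l ∈ F, - t l ≤ cr l)
    (hK : ∀ l ∈ F, k l * (R - t l) - mn l + (t l - A) * v ≤ cr l)
    (hmn : ∀ l ∈ F, 0 ≤ mn l)
    (hk : ∀ l ∈ F, l ≠ f → g l = k l ∧ ((k l = 0 ∧ mn l = 0) ∨ ((k l = 1 ∨ (k l = 2 ∧ k f = 1))
      ∧ mn l ≤ mn f ∧ mn l * mn f ≤ R + t l * t f)))
    (hkf : (k f = 1 ∨ k f = 2) ∧ g f = k f - 1) (hqf : 0 ≤ mn f) (hqf' : mn f ≤ R - t f)
    (hgs : ∑ l ∈ F.erase f, g l + g f ≤ v)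
    (hfc : ∀ l ∈ F, l ≠ f → fc l = 0 ∨ (0 ≤ fc l ∧ R ≤ 2 * (t l + 1) ^ 3 ∧ 2 * fc l ≤ 3
      ∧ fc l * R ≤ 2 * (R - 4 * (t l + 1)))) :
    ∑ l ∈ F, (g l * csS A (t l + 1)
        + (1 - csS A (t l + 1)) * fc l * (if l = f then 0 else mn l) / R)
      ≤ ∑ l ∈ F, csL R A (t l) * cr l + csT R A F t * ((R - A) * v) + v * δ * R / (R - A) := by
  obtain ⟨β, C⟩ := hclq
  have hA := H.hA
  have hR2 := H.hR
  have hR0 : 0 < R := by linarith
  have hc := H.c_pos
  obtain ⟨a, ha⟩ : ∃ a, a = A / R := ⟨_, rfl⟩
  obtain ⟨e, he⟩ : ∃ e, e = 1 / R := ⟨_, rfl⟩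
  have haR : a * R = A := by rw [ha]; field_simp
  have heR : e * R = 1 := by rw [he]; field_simp
  rw [← ha, ← he] at C
  have he0 : 0 < e := by rw [he]; positivity
  have ha0 : 0 < a := by rw [ha]; positivity
  have ha1 : 2 * a ≤ 1 := by
    have : (2 * a) * R ≤ 1 * R := by linarith
    exact le_of_mul_le_mul_right this hR0
  have hβ0 : 0 ≤ β := by
    have h1 := C.hβ
    have h2 : 0 ≤ v * ((1 - a) * v + 1) := by
      have := mul_nonneg (show 0 ≤ 1 - a by linarith) (show 0 ≤ v by linarith)
      exact mul_nonneg (by linarith) (by linarith)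
    by_contra hcon
    push Not at hcon
    nlinarith
  obtain ⟨x, hx⟩ : ∃ x : ℕ → ℝ, x = fun l => (t l + 1) / R := ⟨_, rfl⟩
  have hxR : ∀ l, x l * R = t l + 1 := fun l => by rw [hx]; field_simp
  have htx : ∀ l, t l / R = x l - e := fun l => by rw [hx, he]; field_simp; ring
  obtain ⟨b, hb⟩ : ∃ b : ℕ → ℝ, b = fun l => mn l / R := ⟨_, rfl⟩
  have hbR : ∀ l, b l * R = mn l := fun l => by rw [hb]; field_simp
  have dv : ∀ {p q : ℝ}, p * R ≤ q * R → p ≤ q := fun h => le_of_mul_le_mul_right h hR0
  have dv2 : ∀ {p q : ℝ}, p * (R * R) ≤ q * (R * R) → p ≤ q :=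
    fun h => le_of_mul_le_mul_right h (mul_pos hR0 hR0)
  have hxe : ∀ l ∈ F, e ≤ x l := fun l hl => dv (by rw [heR, hxR]; linarith [H.t0 l hl])
  have hx2 : ∀ l ∈ F, 2 * x l ≤ 1 := fun l hl => dv (by
    rw [mul_assoc, hxR]
    linarith [H.t2 l hl])
  have hfe : e ≤ x f := dv (by rw [heR, hxR]; linarith)
  have hf2 : 2 * x f ≤ 1 := dv (by rw [mul_assoc, hxR]; linarith)
  have hsx : ∀ l, csS A (t l + 1) = x l / (a + x l) := by
    intro l
    unfold csS
    rw [← haR, ← hxR l]
    by_cases h0 : a + x l = 0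
    · rw [h0, div_zero, show a * R + x l * R = (a + x l) * R by ring, h0, zero_mul, div_zero]
    · rw [show a * R + x l * R = (a + x l) * R by ring, mul_div_mul_right _ _ hR0.ne']
  -- the numbers of a cell
  obtain ⟨Z, hZ⟩ : ∃ Z : ℕ → ℝ, Z = fun l => (1 - a) * g l + (1 - a) * v * (x l - e) - cr l / R :=
    ⟨_, rfl⟩
  obtain ⟨G, hG⟩ : ∃ G : ℕ → ℝ, G = fun l => (x l * Z l
      + (1 - a) * a * (if l = f then 0 else fc l) * b l - β * x l * (a + x l)) / (a + x l) :=
    ⟨_, rfl⟩
  have hcD : ∀ l ∈ F, - (cr l / R) ≤ x l - e := fun l hl => by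
    rw [← htx l, ← neg_div]
    exact div_le_div_of_nonneg_right (by linarith [hD l hl]) hR0.le
  have hcK : ∀ l ∈ F, - (cr l / R) ≤ - (k l * (1 - (x l - e))) + b l - (x l - e + e - a) * v
      + e * v := fun l hl => by
    have h1 := div_le_div_of_nonneg_right (hK l hl) hR0.le
    have h2 : (k l * (R - t l) - mn l + (t l - A) * v) / R
        = k l * (1 - (x l - e)) - b l + (x l - e - a) * v := by
      rw [← htx l, ← haR, hb]
      field_simp
    rw [h2] at h1
    linarith
  have hP : ∀ l ∈ F, 0 < a + x l := fun l hl => by linarith [hxe l hl]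
  have hPf : 0 < a + x f := by linarith
  -- the bounds of the number of a cell
  have hZD : ∀ l ∈ F, Z l ≤ g l * (1 - a) + v * (1 - a) * (x l - e) + (x l - e) := fun l hl => by
    have := hcD l hl
    rw [hZ]
    beta_reduce
    linarith
  have hZK : ∀ l ∈ F, Z l ≤ g l * (1 - a) - k l * (1 - (x l - e)) + b l
      + v * a * (1 - (x l - e)) := fun l hl => by
    have := hcK l hl
    rw [hZ]
    beta_reduce
    linarith
  -- the sum of the costs
  have goal : ∑ l ∈ F, G l + β * ∑ l ∈ F, x l ≤ (1 - a) ^ 2 * v + v * δ →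
      ∑ l ∈ F, (g l * csS A (t l + 1)
        + (1 - csS A (t l + 1)) * fc l * (if l = f then 0 else mn l) / R)
      ≤ ∑ l ∈ F, csL R A (t l) * cr l + csT R A F t * ((R - A) * v) + v * δ * R / (R - A) := by
    intro hgoal
    have hc1 : 0 < 1 - a := by linarith
    have hcR : R - A = (1 - a) * R := by rw [← haR]; ring
    have e1 : ∑ l ∈ F, G l + β * ∑ l ∈ F, x l
        = (1 - a) * ∑ l ∈ F, (g l * csS A (t l + 1)
          + (1 - csS A (t l + 1)) * fc l * (if l = f then 0 else mn l) / R)
          - (1 - a) * ∑ l ∈ F, csL R A (t l) * cr l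
          + (1 - a) * v * ∑ l ∈ F, csS A (t l + 1) * (x l - e) := by
      rw [mul_sum, mul_sum, mul_sum, mul_sum, ← sum_sub_distrib, ← sum_add_distrib,
        ← sum_add_distrib]
      refine sum_congr rfl fun l hl => ?_
      have h1 := (hP l hl).ne'
      have h2 : csL R A (t l) = csS A (t l + 1) / ((1 - a) * R) := by
        unfold csL
        rw [hcR]
      have h3 : (if l = f then 0 else fc l) * b l = fc l * (if l = f then 0 else mn l) / R := by
        rw [hb]
        split_ifs
        · simp
        · ring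
      rw [h2, hsx, hG]
      beta_reduce
      rw [mul_assoc ((1 - a) * a) (if l = f then 0 else fc l) (b l), h3, hZ]
      have h4 := hc1.ne'
      field_simp
      ring
    have e2 : csT R A F t * ((R - A) * v)
        = (1 - a) * v - v * ∑ l ∈ F, csS A (t l + 1) * (x l - e) := by
      have h1 : ∑ l ∈ F, csL R A (t l) * t l
          = (∑ l ∈ F, csS A (t l + 1) * (x l - e)) / (1 - a) := by
        rw [sum_div]
        refine sum_congr rfl fun l _ => ?_
        rw [← htx l]
        unfold csL
        rw [hcR]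
        have h4 := hc1.ne'
        field_simp
      unfold csT
      rw [h1, hcR]
      have h4 := hc1.ne'
      field_simp
    have e3 : v * δ * R / (R - A) = v * δ / (1 - a) := by
      rw [hcR]
      have h4 := hc1.ne'
      field_simp
    rw [e2, e3]
    rw [e1] at hgoal
    refine le_of_mul_le_mul_left ?_ hc1
    have e4 : (1 - a) * (∑ l ∈ F, csL R A (t l) * cr l
        + ((1 - a) * v - v * ∑ l ∈ F, csS A (t l + 1) * (x l - e)) + v * δ / (1 - a))
        = (1 - a) * ∑ l ∈ F, csL R A (t l) * cr l + (1 - a) ^ 2 * v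
          - (1 - a) * v * ∑ l ∈ F, csS A (t l + 1) * (x l - e) + v * δ := by
      have h4 := hc1.ne'
      field_simp
      ring
    rw [e4]
    linarith
  refine goal ?_
  -- the letters of the pair inequalities
  have hsumF : a + ∑ l ∈ F, x l ≤ 1 := by
    refine dv ?_
    rw [add_mul, haR, sum_mul, sum_congr rfl fun l _ => hxR l]
    linarith [H.sum]
  have hxf : ∀ l ∈ F, l ≠ f → x l + x f ≤ 1 - a := by
    intro l hl hlf
    by_cases hfF : f ∈ F
    · have h1 : x l + x f ≤ ∑ l ∈ F, x l := by
        have h2 : ∑ i ∈ ({l, f} : Finset ℕ), x i ≤ ∑ i ∈ F, x i := by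
          refine sum_le_sum_of_subset_of_nonneg ?_ fun i hi _ => ?_
          · intro i hi
            rcases mem_insert.1 hi with h | h
            · rw [h]
              exact hl
            · rw [mem_singleton.1 h]
              exact hfF
          · linarith [hxe i hi]
        rwa [sum_pair hlf] at h2
      linarith
    · have h1 : x l ≤ ∑ l ∈ F, x l := single_le_sum (fun i hi => by linarith [hxe i hi]) hl
      have h2 : a + ∑ l ∈ F, x l + x f ≤ 1 := by
        refine dv ?_
        rw [add_mul, add_mul, haR, sum_mul, sum_congr rfl fun l _ => hxR l, hxR]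
        linarith [hsum hfF]
      linarith
  have hbq : b f * R = mn f := hbR f
  have hCom : ∀ l ∈ F, l ≠ f → mn l ≤ mn f → mn l * mn f ≤ R + t l * t f →
      ClqCom a e (x l) (x f) (b l) (b f) := by
    intro l hl hlf h1 h2
    refine ⟨hxe l hl, hx2 l hl, hfe, hf2, hxf l hl hlf, dv ?_, dv ?_, dv ?_, dv2 ?_⟩
    · rw [hbR, zero_mul]
      exact hmn l hl
    · rw [hbR, hbR]
      exact h1
    · rw [hbR, sub_mul, sub_mul, hxR, heR]
      linarith
    · have e5 : b l * b f * (R * R) = mn l * mn f := by rw [← hbR l, ← hbR f]; ring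
      have e6 : (e + (x l - e) * (x f - e)) * (R * R) = R + t l * t f := by
        have h3 : (x l - e) * R = t l := by rw [sub_mul, hxR, heR]; ring
        have h4 : (x f - e) * R = t f := by rw [sub_mul, hxR, heR]; ring
        calc (e + (x l - e) * (x f - e)) * (R * R)
            = (e * R) * R + ((x l - e) * R) * ((x f - e) * R) := by ring
          _ = R + t l * t f := by rw [heR, h3, h4]; ring
      rw [e5, e6]
      exact h2
  have hFa : ∀ l ∈ F, l ≠ f → ClqFa e (x l) (if l = f then 0 else fc l) := by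
    intro l hl hlf
    rw [if_neg hlf]
    rcases hfc l hl hlf with h | ⟨h1, h2, h3, h4⟩
    · exact Or.inl h
    · refine Or.inr ⟨h1, ?_, h3, dv ?_⟩
      · have e7 : 2 * x l * x l * x l * (R * R * R) = 2 * (t l + 1) ^ 3 := by
          rw [← hxR l]
          ring
        have e8 : e * e * (R * R * R) = R := by
          calc e * e * (R * R * R) = (e * R) * (e * R) * R := by ring
            _ = R := by rw [heR]; ring
        refine le_of_mul_le_mul_right ?_ (mul_pos (mul_pos hR0 hR0) hR0)
        rw [e7, e8]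
        exact h2
      · have e9 : 2 * (1 - 4 * x l) * R = 2 * (R - 4 * (t l + 1)) := by
          rw [← hxR l]
          ring
        rw [e9]
        exact h4
  obtain ⟨Γ, hΓ⟩ : ∃ Γ, Γ = (1 - a) ^ 2 * v - β * (1 - a) + v * δ := ⟨_, rfl⟩
  have hΓ0 : 0 ≤ Γ := by
    have h1 := mul_nonneg (show 0 ≤ 1 - a by linarith) (show 0 ≤ (1 - a) * v - β by linarith [C.hΓ])
    have h2 := mul_nonneg (show 0 ≤ v by linarith) hδ
    rw [hΓ]
    nlinarith
  -- a cell which is not an end
  have hnon : ∀ l ∈ F, l ≠ f → k l = 0 → mn l = 0 → g l = k l → G l ≤ 0 := by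
    intro l hl hlf h1 h2 h3
    have h4 : b l = 0 := by rw [hb]; beta_reduce; rw [h2, zero_div]
    have h5 := clq_non (v := v) (a := a) (N := Z l) (by linarith) ha0.le (by linarith) he0.le
      (hxe l hl) C.hβ (by
        have := hZK l hl
        rw [h3, h1, h4] at this
        linarith) (by
        have := hZD l hl
        rw [h3, h1] at this
        linarith)
    rw [hG]
    beta_reduce
    rw [h4, mul_zero, add_zero]
    exact div_nonpos_of_nonpos_of_nonneg h5 (hP l hl).le
  -- main ends
  have hmainK : ∀ l ∈ F, g l = k l → Z l ≤ k l * (x l - e - a) + b l + v * a * (1 - (x l - e)) :=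
    fun l hl h1 => by
      have := hZK l hl
      rw [h1] at this
      linarith
  have hmainD : ∀ l ∈ F, g l = k l → Z l ≤ k l * (1 - a) + v * (1 - a) * (x l - e) + (x l - e) :=
    fun l hl h1 => by
      have := hZD l hl
      rw [h1] at this
      linarith
  have hsE : F.erase f ⊆ F := erase_subset _ _
  by_cases hfF : f ∈ F
  · -- the cut cell is charged
    obtain ⟨N, hN⟩ : ∃ N, N = Z f := ⟨_, rfl⟩
    obtain ⟨Gf, hGf⟩ : ∃ Gf, Gf = (x f * N - β * x f * (a + x f)) / (a + x f) := ⟨_, rfl⟩
    have hGf' : G f = Gf := by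
      rw [hG, hGf, hN]
      beta_reduce
      rw [if_pos rfl, mul_zero, zero_mul, add_zero]
    have hGfm : Gf * (a + x f) = x f * N - β * x f * (a + x f) := by
      rw [hGf]
      field_simp
    have hmass : ∑ l ∈ F, G l + β * ∑ l ∈ F, x l ≤ Γ + β * (1 - a) →
        ∑ l ∈ F, G l + β * ∑ l ∈ F, x l ≤ (1 - a) ^ 2 * v + v * δ := by
      intro h
      rw [hΓ] at h
      linarith
    refine hmass ?_
    have h0 := mul_le_mul_of_nonneg_left (show ∑ l ∈ F, x l ≤ 1 - a by linarith) hβ0
    suffices hmain : ∑ l ∈ F.erase f, G l + Gf ≤ Γ by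
      rw [← add_sum_erase F G hfF, hGf']
      linarith
    rcases hkf.1 with hk1 | hk2
    · -- single cut end
      have hg0 : g f = 0 := by rw [hkf.2, hk1]; ring
      have hN1 : N ≤ b f + v * a * (1 - (x f - e)) + (x f - e) - 1 := by
        have := hZK f hfF
        rw [hg0, hk1, ← hN] at this
        linarith
      have hN2 : N ≤ v * (1 - a) * (x f - e) + (x f - e) := by
        have := hZD f hfF
        rw [hg0, ← hN] at this
        linarith
      have hq1 : b f ≤ 1 - (x f - e) := by
        refine dv ?_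
        rw [hbR, sub_mul, sub_mul, hxR, heR]
        linarith
      have hGf0 : Gf ≤ 0 := by
        rw [hGf]
        refine div_nonpos_of_nonpos_of_nonneg ?_ hPf.le
        exact clq_non (by linarith) ha0.le (by linarith) he0.le hfe C.hβ (by linarith) hN2
      refine clq_sum (v := v) (by linarith) (g := g) ?_ (by linarith) (hGf0.trans hΓ0)
      intro l hl
      have hlF := hsE hl
      have hlf := ne_of_mem_erase hl
      obtain ⟨h1, h2⟩ := hk l hlF hlf
      rcases h2 with ⟨h2, h3⟩ | ⟨h2, h3, h4⟩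
      · rw [h1, h2, zero_mul]
        exact mul_nonpos_of_nonneg_of_nonpos (by linarith) (hnon l hlF hlf h2 h3 h1)
      · have h5 := C.mIn (k l) (x l) (x f) (b l) (b f) (Z l) N (if l = f then 0 else fc l)
          (by rcases h2 with h | h
              · exact Or.inl h
              · exact Or.inr h.1) (hCom l hlF hlf h3 h4) (hFa l hlF hlf)
          (hmainK l hlF h1) (hmainD l hlF h1) hN1 hN2
        rw [← hΓ] at h5
        have h6 : G l * (a + x l) = x l * Z l + (1 - a) * a * (if l = f then 0 else fc l) * b l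
            - β * x l * (a + x l) := by
          rw [hG]
          beta_reduce
          exact div_mul_cancel₀ _ (hP l hlF).ne'
        rw [← h6, ← hGfm] at h5
        have h7 : (v * G l + k l * Gf) * ((a + x l) * (a + x f))
            ≤ (k l * Γ) * ((a + x l) * (a + x f)) := by linarith
        have h8 := le_of_mul_le_mul_right h7 (mul_pos (hP l hlF) hPf)
        rw [h1]
        linarith
    · -- doubled cut end
      have hg1 : g f = 1 := by rw [hkf.2, hk2]; ring
      have hN1 : N ≤ b f + v * a * (1 - (x f - e)) + 2 * (x f - e) - 1 - a := by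
        have := hZK f hfF
        rw [hg1, hk2, ← hN] at this
        linarith
      have hN2 : N ≤ 1 - a + v * (1 - a) * (x f - e) + (x f - e) := by
        have := hZD f hfF
        rw [hg1, ← hN] at this
        linarith
      have hq1 : b f ≤ 1 - (x f - e) := by
        refine dv ?_
        rw [hbR, sub_mul, sub_mul, hxR, heR]
        linarith
      have hGfΓ : Gf ≤ Γ := by
        have h1 := C.cOne (x f) N hfe hf2 (by linarith) hN2
        rw [← hΓ, ← hGfm] at h1
        exact le_of_mul_le_mul_right h1 hPf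
      refine clq_sum (v := v - 1) (by linarith) (g := g) ?_ (by linarith) hGfΓ
      intro l hl
      have hlF := hsE hl
      have hlf := ne_of_mem_erase hl
      obtain ⟨h1, h2⟩ := hk l hlF hlf
      rcases h2 with ⟨h2, h3⟩ | ⟨h2, h3, h4⟩
      · rw [h1, h2, zero_mul]
        exact mul_nonpos_of_nonneg_of_nonpos (by linarith) (hnon l hlF hlf h2 h3 h1)
      · have hk1 : k l = 1 := by
          rcases h2 with h | h
          · exact h
          · rw [hk2] at h
            norm_num at h
        have h5 := C.cIn (x l) (x f) (b l) (b f) (Z l) N (if l = f then 0 else fc l)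
          (hCom l hlF hlf h3 h4) (hFa l hlF hlf)
          (by
            have := hmainK l hlF h1
            rw [hk1] at this
            exact this) (by
            have := hmainD l hlF h1
            rw [hk1] at this
            exact this) hN1 hN2
        rw [← hΓ] at h5
        have h6 : G l * (a + x l) = x l * Z l + (1 - a) * a * (if l = f then 0 else fc l) * b l
            - β * x l * (a + x l) := by
          rw [hG]
          beta_reduce
          exact div_mul_cancel₀ _ (hP l hlF).ne'
        rw [← h6, ← hGfm] at h5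
        have h7 : ((v - 1) * G l + Gf) * ((a + x l) * (a + x f))
            ≤ Γ * ((a + x l) * (a + x f)) := by linarith
        have h8 := le_of_mul_le_mul_right h7 (mul_pos (hP l hlF) hPf)
        rw [h1, hk1]
        linarith
  · -- the cut cell is not charged
    have hmass : a + ∑ l ∈ F, x l + x f ≤ 1 := by
      refine dv ?_
      rw [add_mul, add_mul, haR, sum_mul, sum_congr rfl fun l _ => hxR l, hxR]
      linarith [hsum hfF]
    have h0 := mul_le_mul_of_nonneg_left (show ∑ l ∈ F, x l ≤ 1 - a - x f by linarith) hβ0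
    have h00 : 0 ≤ β * x f := mul_nonneg hβ0 (by linarith)
    have hg0 : 0 ≤ g f := by
      rcases hkf.1 with h | h <;> rw [hkf.2, h] <;> norm_num
    have hF' : F.erase f = F := erase_eq_of_notMem hfF
    have hmain : ∑ l ∈ F, G l + (- (β * x f)) ≤ Γ := by
      refine clq_sum (v := v) (by linarith) (g := g) ?_ (by rw [hF'] at hgs; linarith) (by linarith)
      intro l hlF
      have hlf : l ≠ f := fun h => hfF (h ▸ hlF)
      obtain ⟨h1, h2⟩ := hk l hlF hlf
      rcases h2 with ⟨h2, h3⟩ | ⟨h2, h3, h4⟩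
      · rw [h1, h2, zero_mul]
        exact mul_nonpos_of_nonneg_of_nonpos (by linarith) (hnon l hlF hlf h2 h3 h1)
      · have h5 := C.mOut (k l) (x l) (x f) (b l) (b f) (Z l) (if l = f then 0 else fc l)
          (by rcases h2 with h | h
              · exact Or.inl h
              · exact Or.inr h.1) (hCom l hlF hlf h3 h4) (hFa l hlF hlf)
          (hmainK l hlF h1) (hmainD l hlF h1)
        rw [← hΓ] at h5
        have h6 : G l * (a + x l) = x l * Z l + (1 - a) * a * (if l = f then 0 else fc l) * b l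
            - β * x l * (a + x l) := by
          rw [hG]
          beta_reduce
          exact div_mul_cancel₀ _ (hP l hlF).ne'
        rw [← h6] at h5
        have h7 : (v * G l + k l * (- (β * x f))) * ((a + x l) * (a + x f))
            ≤ (k l * Γ) * ((a + x l) * (a + x f)) := by linarith
        have h8 := le_of_mul_le_mul_right h7 (mul_pos (hP l hlF) hPf)
        rw [h1]
        linarith
    rw [hΓ] at hmain
    linarith

end Pool.Agent.Lib.MP_f04ccf_co
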