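import Pool.Agent.Lib.MP_f04ccf_co.M.LemH

/-!
MP_f04ccf_co: the core of COMBO (notes 15635, 15714, 15743, 15860).  A uniform transversal `c` of
the rows `B`; the row `y` pays for the set `K y (c y)` of points.  If every union of these sets,
together with a correction `u c`, has at least `τ + γ(X missed)` points, then every point of `X`
brings `∑ a - 1 + (1 + γ) ∏ (1 - a)` on average, `a y v` the probability that the row `y` pays `v`.
-/

set_option autoImplicit false

namespace Pool.Agent.Lib.MP_f04ccf_co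

open Finset

attribute [local instance] Classical.propDecidable

section Num

variable {ι : Type*}

/-- the union bound -/
lemma union_bd (B : Finset ι) (a : ι → ℚ) (h0 : ∀ y ∈ B, 0 ≤ a y) (h1 : ∀ y ∈ B, a y ≤ 1) :
    1 ≤ ∑ y ∈ B, a y + ∏ y ∈ B, (1 - a y) := by
  induction B using Finset.induction_on with
  | empty => simp
  | insert y B hy ih =>
    have h2 := ih (fun z hz => h0 z (mem_insert_of_mem hz)) (fun z hz => h1 z (mem_insert_of_mem hz))
    rw [sum_insert hy, prod_insert hy]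
    have h3 := h0 y (mem_insert_self _ _)
    have h4 := h1 y (mem_insert_self _ _)
    have h5 : ∏ z ∈ B, (1 - a z) ≤ 1 := prod_le_one
      (fun z hz => by linarith [h1 z (mem_insert_of_mem hz)])
      (fun z hz => by linarith [h0 z (mem_insert_of_mem hz)])
    nlinarith

/-- the gain of a point of a uniform transversal -/
noncomputable def gam (B : Finset ι) (a : ι → ℚ) (l : ℚ) : ℚ :=
  ∑ y ∈ B, a y - 1 + (1 + l) * ∏ y ∈ B, (1 - a y)

/-- the gain is nonnegative -/
lemma gam_nonneg {B : Finset ι} {a : ι → ℚ} (h0 : ∀ y ∈ B, 0 ≤ a y) (h1 : ∀ y ∈ B, a y ≤ 1)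
    {l : ℚ} (hl : 0 ≤ l) : 0 ≤ gam B a l := by
  have h2 := union_bd B a h0 h1
  have h3 : 0 ≤ ∏ y ∈ B, (1 - a y) := prod_nonneg fun y hy => by linarith [h1 y hy]
  unfold gam
  nlinarith

/-- a point with a good row `y0`: the row test of `y0` with multiplier `l` brings the rest -/
lemma gam_good {B : Finset ι} {a : ι → ℚ} (h0 : ∀ y ∈ B, 0 ≤ a y) (h1 : ∀ y ∈ B, a y ≤ 1)
    {l : ℚ} {y0 : ι} (hy0 : y0 ∈ B) (hg : l ≤ (1 + l) * a y0) :
    l ≤ gam B a l + l * a y0 := by
  have h2 := union_bd (B.erase y0) a (fun y hy => h0 y (mem_of_mem_erase hy))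
    (fun y hy => h1 y (mem_of_mem_erase hy))
  have h3 : 0 ≤ ∏ y ∈ B.erase y0, (1 - a y) :=
    prod_nonneg fun y hy => by linarith [h1 y (mem_of_mem_erase hy)]
  have h5 : ∏ y ∈ B.erase y0, (1 - a y) ≤ 1 := prod_le_one
      (fun z hz => by linarith [h1 z (mem_of_mem_erase hz)])
      (fun z hz => by linarith [h0 z (mem_of_mem_erase hz)])
  unfold gam
  rw [← add_sum_erase B a hy0, ← mul_prod_erase B (fun y => 1 - a y) hy0]
  have h4 := h1 y0 hy0
  have h6 : 0 ≤ ((1 + l) * a y0 - l) * (1 - ∏ y ∈ B.erase y0, (1 - a y)) :=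
    mul_nonneg (by linarith) (by linarith)
  nlinarith

end Num

section Avg

variable {ι V : Type*} [Fintype ι]

/-- a product over some coordinates of a uniform transversal -/
lemma tr_prod (s : ι → Finset V) (B : Finset ι) (f : ι → V → ℚ) :
    (∏ y ∈ B, ((s y).card : ℚ)) * ∑ c ∈ Fintype.piFinset s, ∏ y ∈ B, f y (c y)
      = (∏ y, ((s y).card : ℚ)) * ∏ y ∈ B, ∑ a ∈ s y, f y a := by
  have h1 : ∑ c ∈ Fintype.piFinset s, ∏ y ∈ B, f y (c y)
      = ∏ y, ∑ a ∈ s y, (if y ∈ B then f y a else 1) := by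
    rw [prod_univ_sum]
    refine sum_congr rfl fun c _ => ?_
    rw [prod_ite_mem, univ_inter]
  have h2 : ∀ y, ∑ a ∈ s y, (if y ∈ B then f y a else 1)
      = if y ∈ B then ∑ a ∈ s y, f y a else ((s y).card : ℚ) := by
    intro y
    split_ifs
    · rfl
    · rw [sum_const, nsmul_eq_mul, mul_one]
  rw [h1, prod_congr rfl (fun y _ => h2 y), prod_ite, filter_mem_eq_inter, univ_inter]
  have h3 : (∏ y, ((s y).card : ℚ))
      = (∏ y ∈ B, ((s y).card : ℚ)) * ∏ y ∈ univ.filter (fun y => y ∉ B), ((s y).card : ℚ) := by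
    rw [← prod_filter_mul_prod_filter_not univ (fun y => y ∈ B), filter_mem_eq_inter, univ_inter]
  rw [h3]
  ring

end Avg

section Core

variable {ι V P : Type*} [Fintype ι]

/-- the fraction of the columns of the row `y` which pay for `v` -/
noncomputable def frc (C : ι → Finset V) (K : ι → V → Finset P) (v : P) (y : ι) : ℚ :=
  ((C y).filter (fun c => v ∈ K y c)).card / (C y).card

omit [Fintype ι] in
lemma frc_nonneg (C : ι → Finset V) (K : ι → V → Finset P) (v : P) (y : ι) :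
    0 ≤ frc C K v y := by
  unfold frc
  positivity

omit [Fintype ι] in
lemma frc_le_one (C : ι → Finset V) (K : ι → V → Finset P) (v : P) (y : ι) :
    frc C K v y ≤ 1 := by
  unfold frc
  refine div_le_one_of_le₀ ?_ (by positivity)
  exact_mod_cast card_filter_le _ _

/-- **CORE OF COMBO** -/
theorem cmb_core {C : ι → Finset V} (hC : ∀ y, (C y).Nonempty) {B : Finset ι}
    {K : ι → V → Finset P} {X : Finset P} {γ : P → ℚ} {τ : ℚ} {u : (ι → V) → ℚ}
    (h : ∀ c : ι → V, (∀ y, c y ∈ C y) →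
      τ + ∑ v ∈ X \ B.biUnion (fun y => K y (c y)), γ v
        ≤ ((B.biUnion (fun y => K y (c y))).card : ℚ) + u c) :
    τ + ∑ v ∈ X, gam B (frc C K v) (γ v)
      ≤ ∑ y ∈ B, (∑ c ∈ C y, ((K y c).card : ℚ)) / (C y).card
        + (∑ c ∈ Fintype.piFinset C, u c) / ∏ y, ((C y).card : ℚ) := by
  have hc0 : ∀ y, (0 : ℚ) < (C y).card := fun y => by exact_mod_cast card_pos.2 (hC y)
  set Pr : ℚ := ∏ y, ((C y).card : ℚ) with hPr
  have hP0 : 0 < Pr := prod_pos fun y _ => hc0 y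
  have hPc : ((Fintype.piFinset C).card : ℚ) = Pr := by
    rw [Fintype.card_piFinset, hPr]
    push_cast
    rfl
  -- one transversal
  have h1 : ∀ c ∈ Fintype.piFinset C,
      τ + ∑ v ∈ X, (∑ y ∈ B, (if v ∈ K y (c y) then (1 : ℚ) else 0) - 1
        + (1 + γ v) * ∏ y ∈ B, (if v ∈ K y (c y) then (0 : ℚ) else 1))
        ≤ ∑ y ∈ B, ((K y (c y)).card : ℚ) + u c := by
    intro c hc
    have hcm : ∀ y, c y ∈ C y := fun y => Fintype.mem_piFinset.1 hc y
    have g1 := h c hcm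
    set D : Finset P := B.biUnion (fun y => K y (c y)) with hD
    have g2 : ∀ v, (∏ y ∈ B, (if v ∈ K y (c y) then (0 : ℚ) else 1)) = if v ∈ D then 0 else 1 := by
      intro v
      split_ifs with hv
      · obtain ⟨y, hy, hv⟩ := mem_biUnion.1 hv
        exact prod_eq_zero hy (if_pos hv)
      · refine prod_eq_one fun y hy => if_neg fun hv' => hv (mem_biUnion.2 ⟨y, hy, hv'⟩)
    have g3 : ∑ y ∈ B, ((K y (c y)).card : ℚ)
        = ∑ v ∈ D, ∑ y ∈ B, (if v ∈ K y (c y) then (1 : ℚ) else 0) := by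
      rw [sum_comm]
      refine sum_congr rfl fun y hy => ?_
      rw [← sum_filter, sum_const, nsmul_eq_mul, mul_one]
      congr 2
      ext v
      rw [mem_filter]
      exact ⟨fun hv => ⟨mem_biUnion.2 ⟨y, hy, hv⟩, hv⟩, fun hv => hv.2⟩
    have g4 : ∀ v ∈ D, 1 ≤ ∑ y ∈ B, (if v ∈ K y (c y) then (1 : ℚ) else 0) := by
      intro v hv
      obtain ⟨y, hy, hv⟩ := mem_biUnion.1 hv
      refine le_trans (le_of_eq (if_pos hv).symm)
        (single_le_sum (f := fun y => if v ∈ K y (c y) then (1 : ℚ) else 0) ?_ hy)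
      intro z _
      positivity
    have g4' : ∀ v, v ∉ D → ∑ y ∈ B, (if v ∈ K y (c y) then (1 : ℚ) else 0) = 0 := by
      intro v hv
      exact sum_eq_zero fun y hy => if_neg fun hv' => hv (mem_biUnion.2 ⟨y, hy, hv'⟩)
    have g5 : (D.card : ℚ) + ∑ v ∈ X ∩ D,
        (∑ y ∈ B, (if v ∈ K y (c y) then (1 : ℚ) else 0) - 1)
        ≤ ∑ v ∈ D, ∑ y ∈ B, (if v ∈ K y (c y) then (1 : ℚ) else 0) := by
      have e1 : ∑ v ∈ X ∩ D, (∑ y ∈ B, (if v ∈ K y (c y) then (1 : ℚ) else 0) - 1)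
          ≤ ∑ v ∈ D, (∑ y ∈ B, (if v ∈ K y (c y) then (1 : ℚ) else 0) - 1) :=
        sum_le_sum_of_subset_of_nonneg inter_subset_right
          fun v hv _ => by linarith [g4 v hv]
      have e2 : ∑ v ∈ D, (∑ y ∈ B, (if v ∈ K y (c y) then (1 : ℚ) else 0) - 1)
          = ∑ v ∈ D, ∑ y ∈ B, (if v ∈ K y (c y) then (1 : ℚ) else 0) - D.card := by
        rw [sum_sub_distrib, sum_const, nsmul_eq_mul, mul_one]
      linarith
    have g6 : ∑ v ∈ X, (∑ y ∈ B, (if v ∈ K y (c y) then (1 : ℚ) else 0) - 1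
        + (1 + γ v) * ∏ y ∈ B, (if v ∈ K y (c y) then (0 : ℚ) else 1))
        = ∑ v ∈ X ∩ D, (∑ y ∈ B, (if v ∈ K y (c y) then (1 : ℚ) else 0) - 1)
          + ∑ v ∈ X \ D, γ v := by
      rw [← sum_inter_add_sum_sdiff X D]
      congr 1
      · refine sum_congr rfl fun v hv => ?_
        rw [g2 v, if_pos (mem_inter.1 hv).2]
        ring
      · refine sum_congr rfl fun v hv => ?_
        rw [g2 v, if_neg (mem_sdiff.1 hv).2, g4' v (mem_sdiff.1 hv).2]
        ring
    rw [g6, g3]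
    linarith
  -- the average
  have h2 := sum_le_sum h1
  rw [sum_add_distrib, sum_add_distrib, sum_const, nsmul_eq_mul, hPc, sum_comm] at h2
  have h3 : ∀ v ∈ X, ∑ c ∈ Fintype.piFinset C,
      (∑ y ∈ B, (if v ∈ K y (c y) then (1 : ℚ) else 0) - 1
        + (1 + γ v) * ∏ y ∈ B, (if v ∈ K y (c y) then (0 : ℚ) else 1))
      = Pr * gam B (frc C K v) (γ v) := by
    intro v _
    have e1 : ∑ c ∈ Fintype.piFinset C, ∑ y ∈ B, (if v ∈ K y (c y) then (1 : ℚ) else 0)
        = Pr * ∑ y ∈ B, frc C K v y := by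
      rw [sum_comm, mul_sum]
      refine sum_congr rfl fun y _ => ?_
      have g1 := tr_one C y (fun a => if v ∈ K y a then (1 : ℚ) else 0)
      have g2 : ∑ a ∈ C y, (if v ∈ K y a then (1 : ℚ) else 0)
          = ((C y).filter (fun c => v ∈ K y c)).card := by
        rw [← sum_filter, sum_const, nsmul_eq_mul, mul_one]
      rw [g2] at g1
      unfold frc
      rw [← mul_div_assoc, eq_div_iff (hc0 y).ne', mul_comm]
      exact g1
    have e2 : ∑ c ∈ Fintype.piFinset C, ∏ y ∈ B, (if v ∈ K y (c y) then (0 : ℚ) else 1)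
        = Pr * ∏ y ∈ B, (1 - frc C K v y) := by
      have g1 := tr_prod C B (fun y a => if v ∈ K y a then (0 : ℚ) else 1)
      have g2 : ∀ y ∈ B, ∑ a ∈ C y, (if v ∈ K y a then (0 : ℚ) else 1)
          = (C y).card * (1 - frc C K v y) := by
        intro y _
        have k1 : ∑ a ∈ C y, (if v ∈ K y a then (0 : ℚ) else 1)
            = (C y).card - ((C y).filter (fun c => v ∈ K y c)).card := by
          have k2 : ∀ a ∈ C y, (if v ∈ K y a then (0 : ℚ) else 1)
              = 1 - (if v ∈ K y a then (1 : ℚ) else 0) := by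
            intro a _
            split_ifs <;> norm_num
          rw [sum_congr rfl k2, sum_sub_distrib, sum_const, nsmul_eq_mul, mul_one, ← sum_filter,
            sum_const, nsmul_eq_mul, mul_one]
        rw [k1]
        unfold frc
        rw [mul_sub, mul_one, mul_div_cancel₀ _ (hc0 y).ne']
      rw [prod_congr rfl g2, prod_mul_distrib] at g1
      have g3 : (0 : ℚ) < ∏ y ∈ B, ((C y).card : ℚ) := prod_pos fun y _ => hc0 y
      refine mul_left_cancel₀ g3.ne' (g1.trans ?_)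
      ring
    rw [sum_add_distrib, sum_sub_distrib, e1, sum_const, nsmul_eq_mul, hPc, ← mul_sum, e2]
    unfold gam
    ring
  have h4 : ∑ c ∈ Fintype.piFinset C, ∑ y ∈ B, ((K y (c y)).card : ℚ)
      = Pr * ∑ y ∈ B, (∑ c ∈ C y, ((K y c).card : ℚ)) / (C y).card := by
    rw [sum_comm, mul_sum]
    refine sum_congr rfl fun y _ => ?_
    have g1 := tr_one C y (fun a => ((K y a).card : ℚ))
    rw [← mul_div_assoc, eq_div_iff (hc0 y).ne', mul_comm]
    exact g1
  rw [sum_congr rfl h3, ← mul_sum, ← mul_add, h4] at h2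
  refine le_of_mul_le_mul_left (h2.trans (le_of_eq ?_)) hP0
  rw [mul_add, mul_div_cancel₀ _ hP0.ne']

/-- the hypothesis of `cmb_core` from degrees: every `F`-independent part `M` of `X` has
`τ + γ(M) ≤ d v` for one of its points -/
lemma cmb_deg {F : SimpleGraph P} {H X : Finset P} (hX : X ⊆ H) {γ : P → ℚ} (hγ : ∀ v, 0 ≤ γ v)
    {τ : ℚ} (hτ : ∀ D : Finset P, CovN F H D → τ ≤ D.card)
    (hd : ∀ M ⊆ X, M.Nonempty → (∀ p ∈ M, ∀ q ∈ M, ¬ F.Adj p q) →
      ∃ v ∈ M, τ + ∑ p ∈ M, γ p ≤ dg F H v)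
    {D U : Finset P} (hD : CovN F H (D ∪ U)) :
    τ + ∑ v ∈ X \ D, γ v ≤ (D.card : ℚ) + ∑ v ∈ U, (1 + γ v) := by
  have h1 : ∑ v ∈ X \ D, γ v ≤ ∑ v ∈ X \ (D ∪ U), γ v + ∑ v ∈ U, γ v := by
    rw [← sum_union_inter]
    have e1 : X \ D ⊆ X \ (D ∪ U) ∪ U := by
      intro v hv
      obtain ⟨a, b⟩ := mem_sdiff.1 hv
      by_cases hu : v ∈ U
      · exact mem_union_right _ hu
      · exact mem_union_left _ (mem_sdiff.2 ⟨a, fun h => (mem_union.1 h).elim b hu⟩)
    have e2 := sum_le_sum_of_subset_of_nonneg (f := γ) e1 fun v _ _ => hγ v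
    have e3 : 0 ≤ ∑ v ∈ X \ (D ∪ U) ∩ U, γ v := sum_nonneg fun v _ => hγ v
    linarith
  have h2 : τ + ∑ v ∈ X \ (D ∪ U), γ v ≤ ((D ∪ U).card : ℚ) := by
    rcases (X \ (D ∪ U)).eq_empty_or_nonempty with h0 | h0
    · rw [h0, sum_empty, add_zero]
      exact hτ _ hD
    · obtain ⟨v, hv, h3⟩ := hd _ sdiff_subset h0 (by
        intro p hp q hq hpq
        obtain ⟨a, b⟩ := mem_sdiff.1 hp
        obtain ⟨a', b'⟩ := mem_sdiff.1 hq
        rcases hD p (hX a) q (hX a') hpq with h | h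
        · exact b h
        · exact b' h)
      refine h3.trans ?_
      obtain ⟨a, b⟩ := mem_sdiff.1 hv
      unfold dg
      have e1 : H.filter (fun w => F.Adj v w) ⊆ D ∪ U := by
        intro w hw
        obtain ⟨w1, w2⟩ := mem_filter.1 hw
        exact (hD v (hX a) w w1 w2).resolve_left b
      exact_mod_cast card_le_card e1
  have h3 : ((D ∪ U).card : ℚ) ≤ D.card + U.card := by exact_mod_cast card_union_le D U
  have h4 : ∑ v ∈ U, (1 + γ v) = U.card + ∑ v ∈ U, γ v := by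
    rw [sum_add_distrib, sum_const, nsmul_eq_mul, mul_one]
  rw [h4]
  linarith

end Core

end Pool.Agent.Lib.MP_f04ccf_co
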