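import Pool.Agent.Lib.MP_f04ccf_co.M.LemNT
import Pool.Agent.Lib.MP_f04ccf_co.M.StarX
import Pool.Agent.Lib.MP_f04ccf_co.M.HSys

/-!
MP_f04ccf_co: LEMMA F and the split cover number (note 15670 (0), (2)).  One host with home part `H`
and class part `P`, missing pairs `F` (none inside `P`), tails `tl`.  A split cover consists of
points `X` of `H` and, for every row `z`, of points `Y z` of `P` which are used only for members
with tail `z` (the copies `a^z` of the class points).  `spn` is the least size `|X| + Σ |Y z|`.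

`sp_base`, `sp_tr`: the neighbourhoods of a partial transversal give a split cover.
`sp_hall`: in a minimum split cover `Y z` is matched into the members with tail `z` outside `X`.
`lemF_raw`: the number of missing pairs for any split cover; `lemF`: the bound of note 15670 (2) with
LEMMA C as hypothesis on every row.  Frame forms at the end.
-/

set_option autoImplicit false

namespace Pool.Agent.Lib.MP_f04ccf_co

open Finset

attribute [local instance] Classical.propDecidable

section Split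

variable {ι V : Type*}

/-- split cover: `X` and the copies `Y z` cover all pairs of `F` -/
def SpCov (F : SimpleGraph V) (tl : V → ι) (H P X : Finset V) (Y : ι → Finset V) : Prop :=
  (∀ p ∈ H, ∀ q ∈ H, F.Adj p q → p ∈ X ∨ q ∈ X) ∧
    ∀ v ∈ H, ∀ a ∈ P, F.Adj v a → v ∈ X ∨ a ∈ Y (tl v)

/-- the split cover number -/
noncomputable def spn (F : SimpleGraph V) (tl : V → ι) (H P : Finset V) (B : Finset ι) : ℕ :=
  sInf {k | ∃ (X : Finset V) (Y : ι → Finset V), X ⊆ H ∧ (∀ z, Y z ⊆ P) ∧ SpCov F tl H P X Y ∧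
    X.card + ∑ z ∈ B, (Y z).card = k}

/-- the members with tail `z` outside `X` with a missing class point -/
noncomputable def WN (F : SimpleGraph V) (tl : V → ι) (H P X : Finset V) (z : ι) : Finset V :=
  H.filter (fun w => w ∉ X ∧ tl w = z ∧ ∃ a ∈ P, F.Adj w a)

variable {G F : SimpleGraph V} {tl : V → ι} {H P X : Finset V} {Y : ι → Finset V} {B : Finset ι}

lemma mem_WN {z : ι} {w : V} :
    w ∈ WN F tl H P X z ↔ w ∈ H ∧ w ∉ X ∧ tl w = z ∧ ∃ a ∈ P, F.Adj w a := mem_filter

/-- a minimum split cover -/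
lemma exists_spn (F : SimpleGraph V) (tl : V → ι) (H P : Finset V) (B : Finset ι) :
    ∃ (X : Finset V) (Y : ι → Finset V), X ⊆ H ∧ (∀ z, Y z ⊆ P) ∧ SpCov F tl H P X Y ∧
      X.card + ∑ z ∈ B, (Y z).card = spn F tl H P B :=
  Nat.sInf_mem (s := {k | ∃ (X : Finset V) (Y : ι → Finset V), X ⊆ H ∧ (∀ z, Y z ⊆ P) ∧
    SpCov F tl H P X Y ∧ X.card + ∑ z ∈ B, (Y z).card = k})
    ⟨H.card + ∑ _z ∈ B, P.card, H, fun _ => P, Subset.refl _, fun _ => Subset.refl _,
      ⟨fun _ hp _ _ _ => Or.inl hp, fun _ hv _ _ _ => Or.inl hv⟩, rfl⟩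

lemma spn_le (h : SpCov F tl H P X Y) : spn F tl H P B ≤ X.card + ∑ z ∈ B, (Y z).card := by
  have h1 : SpCov F tl H P (X ∩ H) (fun z => Y z ∩ P) := by
    refine ⟨fun p hp q hq hpq => ?_, fun v hv a ha hva => ?_⟩
    · rcases h.1 p hp q hq hpq with h2 | h2
      · exact Or.inl (mem_inter.2 ⟨h2, hp⟩)
      · exact Or.inr (mem_inter.2 ⟨h2, hq⟩)
    · rcases h.2 v hv a ha hva with h2 | h2
      · exact Or.inl (mem_inter.2 ⟨h2, hv⟩)
      · exact Or.inr (mem_inter.2 ⟨h2, ha⟩)
  have h2 : spn F tl H P B ≤ (X ∩ H).card + ∑ z ∈ B, (Y z ∩ P).card :=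
    Nat.sInf_le ⟨X ∩ H, fun z => Y z ∩ P, inter_subset_right, fun _ => inter_subset_right, h1, rfl⟩
  refine h2.trans (add_le_add (card_le_card inter_subset_left) ?_)
  exact sum_le_sum fun z _ => card_le_card inter_subset_left

/-- the cover number of `F` is at most the split cover number -/
lemma cn_le_spn (hP : ∀ a ∈ P, ∀ b ∈ P, ¬ F.Adj a b)
    (htl : ∀ v ∈ H, ∀ a ∈ P, F.Adj v a → tl v ∈ B) : cn F (H ∪ P) ≤ spn F tl H P B := by
  obtain ⟨X, Y, -, -, hc, hk⟩ := exists_spn F tl H P B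
  rw [← hk]
  have key : ∀ v ∈ H, ∀ a ∈ P, F.Adj v a → v ∈ X ∪ B.biUnion Y ∨ a ∈ X ∪ B.biUnion Y := by
    intro v hv a ha hva
    rcases hc.2 v hv a ha hva with h1 | h1
    · exact Or.inl (mem_union_left _ h1)
    · exact Or.inr (mem_union_right _ (mem_biUnion.2 ⟨tl v, htl v hv a ha hva, h1⟩))
  have h1 : CovN F (H ∪ P) (X ∪ B.biUnion Y) := by
    intro p hp q hq hpq
    rcases mem_union.1 hp with hp1 | hp1 <;> rcases mem_union.1 hq with hq1 | hq1
    · rcases hc.1 p hp1 q hq1 hpq with h2 | h2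
      · exact Or.inl (mem_union_left _ h2)
      · exact Or.inr (mem_union_left _ h2)
    · exact key p hp1 q hq1 hpq
    · exact (key q hq1 p hp1 hpq.symm).symm
    · exact absurd hpq (hP p hp1 q hq1)
  exact (cn_le' h1).trans ((card_union_le _ _).trans (add_le_add_right card_biUnion_le _))

/-- **the split cover of one transversal** -/
theorem sp_base {c : ι → V} {K : ι → Finset V} {L : Finset V} (hHP : Disjoint H P)
    (htl : ∀ v ∈ H, ∀ a ∈ P, F.Adj v a → tl v ∈ B)
    (hK : ∀ z ∈ B, ∀ v ∈ MN G F tl H P z (c z), ∀ a ∈ P, F.Adj v a → v ∈ K z ∨ a ∈ K z)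
    (hL : ∀ p ∈ H, ∀ q ∈ H, F.Adj p q → (∃ z ∈ B, G.Adj (c z) p ∨ G.Adj (c z) q) ∨ p ∈ L ∨ q ∈ L) :
    spn F tl H P B ≤ ∑ z ∈ B, (dg G H (c z) + (K z).card) + L.card := by
  set X : Finset V := B.biUnion (fun z => H.filter (fun v => G.Adj (c z) v) ∪ (K z ∩ H)) ∪ L
    with hX
  have seen : ∀ z ∈ B, ∀ v ∈ H, G.Adj (c z) v → v ∈ X := fun z hz v hv hcv =>
    mem_union_left _ (mem_biUnion.2 ⟨z, hz, mem_union_left _ (mem_filter.2 ⟨hv, hcv⟩)⟩)
  have inK : ∀ z ∈ B, ∀ v ∈ K z, v ∈ H → v ∈ X := fun z hz v hv hvH =>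
    mem_union_left _ (mem_biUnion.2 ⟨z, hz, mem_union_right _ (mem_inter.2 ⟨hv, hvH⟩)⟩)
  have hc : SpCov F tl H P X (fun z => K z ∩ P) := by
    refine ⟨fun p hp q hq hpq => ?_, fun v hv a ha hva => ?_⟩
    · rcases hL p hp q hq hpq with ⟨z, hz, h1 | h1⟩ | h1 | h1
      · exact Or.inl (seen z hz p hp h1)
      · exact Or.inr (seen z hz q hq h1)
      · exact Or.inl (mem_union_right _ h1)
      · exact Or.inr (mem_union_right _ h1)
    · have hz := htl v hv a ha hva
      by_cases h1 : G.Adj (c (tl v)) v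
      · exact Or.inl (seen _ hz v hv h1)
      · rcases hK _ hz v (mem_MN.2 ⟨hv, rfl, h1, a, ha, hva⟩) a ha hva with h2 | h2
        · exact Or.inl (inK _ hz _ h2 hv)
        · exact Or.inr (mem_inter.2 ⟨h2, ha⟩)
  have h1 := spn_le (B := B) hc
  have h2 : X.card ≤ ∑ z ∈ B, (dg G H (c z) + (K z ∩ H).card) + L.card := by
    refine (card_union_le _ _).trans (Nat.add_le_add_right ?_ _)
    refine card_biUnion_le.trans (sum_le_sum fun z _ => ?_)
    exact card_union_le _ _
  have h3 : ∑ z ∈ B, (dg G H (c z) + (K z ∩ H).card) + ∑ z ∈ B, (K z ∩ P).card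
      ≤ ∑ z ∈ B, (dg G H (c z) + (K z).card) := by
    rw [← sum_add_distrib]
    refine sum_le_sum fun z _ => ?_
    have h4 : (K z ∩ H).card + (K z ∩ P).card ≤ (K z).card := by
      rw [← card_union_of_disjoint (hHP.mono inter_subset_right inter_subset_right)]
      exact card_le_card (union_subset inter_subset_left inter_subset_left)
    omega
  omega

/-- the simple form: every pair of a member with tail `z` and a class point is covered by `c z` -/
theorem sp_tr {c : ι → V} {L : Finset V} (hHP : Disjoint H P)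
    (htl : ∀ v ∈ H, ∀ a ∈ P, F.Adj v a → tl v ∈ B)
    (hs : ∀ z ∈ B, ∀ v ∈ H, ∀ a ∈ P, F.Adj v a → tl v = z → G.Adj (c z) v ∨ G.Adj (c z) a)
    (hL : ∀ p ∈ H, ∀ q ∈ H, F.Adj p q → (∃ z ∈ B, G.Adj (c z) p ∨ G.Adj (c z) q) ∨ p ∈ L ∨ q ∈ L) :
    spn F tl H P B ≤ ∑ z ∈ B, dg G (H ∪ P) (c z) + L.card := by
  have h1 := sp_base (G := G) (c := c) (K := fun z => UN G F tl H P z (c z)) hHP htl
    (fun z _ v hv a ha hva => Or.inr (mem_UN.2 ⟨ha, v, hv, hva⟩)) hL
  refine h1.trans (Nat.add_le_add_right (sum_le_sum fun z hz => ?_) _)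
  have h2 := card_UN_le (hs z hz)
  have h3 : dg G (H ∪ P) (c z) = dg G H (c z) + dg G P (c z) := by
    unfold dg
    rw [filter_union, card_union_of_disjoint (disjoint_filter_filter hHP)]
  omega

/-- **Hall**: in a minimum split cover the copies `Y z` are matched into the members with tail `z`
outside `X` -/
theorem sp_hall (hc : SpCov F tl H P X Y)
    (hmin : X.card + ∑ z ∈ B, (Y z).card = spn F tl H P B) {z : ι} (hz : z ∈ B) :
    ∃ f : V → V, (∀ a ∈ Y z, f a ∈ WN F tl H P X z ∧ F.Adj (f a) a) ∧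
      Set.InjOn f (Y z : Set V) := by
  have hall : ∀ A : Finset {x // x ∈ Y z},
      A.card ≤ (A.biUnion fun a => (WN F tl H P X z).filter (fun w => F.Adj w a.1)).card := by
    intro A
    set Q : Finset V := A.map (Function.Embedding.subtype _) with hQ
    have hQY : Q ⊆ Y z := by
      intro a ha
      rw [hQ, mem_map] at ha
      obtain ⟨y, -, rfl⟩ := ha
      exact y.2
    have hQc : Q.card = A.card := card_map _
    set N : Finset V := A.biUnion fun a => (WN F tl H P X z).filter (fun w => F.Adj w a.1)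
      with hN
    have h1 : SpCov F tl H P (X ∪ N) (fun y => if y = z then Y z \ Q else Y y) := by
      refine ⟨fun p hp q hq hpq => ?_, fun v hv a ha hva => ?_⟩
      · rcases hc.1 p hp q hq hpq with h2 | h2
        · exact Or.inl (mem_union_left _ h2)
        · exact Or.inr (mem_union_left _ h2)
      · by_cases hvX : v ∈ X
        · exact Or.inl (mem_union_left _ hvX)
        have h2 := (hc.2 v hv a ha hva).resolve_left hvX
        by_cases hvz : tl v = z
        · by_cases haQ : a ∈ Q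
          · refine Or.inl (mem_union_right _ ?_)
            rw [hQ, mem_map] at haQ
            obtain ⟨y, hy, hya⟩ := haQ
            rw [hN, mem_biUnion]
            refine ⟨y, hy, mem_filter.2 ⟨mem_WN.2 ⟨hv, hvX, hvz, a, ha, hva⟩, ?_⟩⟩
            have : y.1 = a := hya
            rw [this]
            exact hva
          · right
            rw [hvz] at h2
            show a ∈ (if tl v = z then Y z \ Q else Y (tl v))
            rw [if_pos hvz]
            exact mem_sdiff.2 ⟨h2, haQ⟩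
        · right
          show a ∈ (if tl v = z then Y z \ Q else Y (tl v))
          rw [if_neg hvz]
          exact h2
    have h2 := spn_le (B := B) h1
    have h3 : ∑ y ∈ B, (if y = z then Y z \ Q else Y y).card + Q.card = ∑ y ∈ B, (Y y).card := by
      rw [← add_sum_erase B _ hz, ← add_sum_erase B (fun y => (Y y).card) hz, if_pos rfl]
      have h4 : ∑ y ∈ B.erase z, (if y = z then Y z \ Q else Y y).card
          = ∑ y ∈ B.erase z, (Y y).card :=
        sum_congr rfl fun y hy => by rw [if_neg (ne_of_mem_erase hy)]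
      rw [h4]
      have h5 := card_sdiff_add_card_eq_card hQY
      omega
    have h4 := card_union_le X N
    rw [← hQc]
    omega
  obtain ⟨f, hf, hfm⟩ := (Finset.all_card_le_biUnion_card_iff_exists_injective
    (fun a : {x // x ∈ Y z} => (WN F tl H P X z).filter (fun w => F.Adj w a.1))).mp hall
  refine ⟨fun a => if h : a ∈ Y z then f ⟨a, h⟩ else a, fun a ha => ?_, ?_⟩
  · have h1 := mem_filter.1 (hfm ⟨a, ha⟩)
    simp only [dif_pos ha]
    exact h1
  · intro a ha b hb hab
    have ha' : a ∈ Y z := ha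
    have hb' : b ∈ Y z := hb
    simp only [dif_pos ha', dif_pos hb'] at hab
    have h1 := hf hab
    exact congrArg Subtype.val h1

/-- in a minimum split cover `|Y z| ≤ |WN z|` -/
lemma sp_hall_card (hc : SpCov F tl H P X Y)
    (hmin : X.card + ∑ z ∈ B, (Y z).card = spn F tl H P B) {z : ι} (hz : z ∈ B) :
    (Y z).card ≤ (WN F tl H P X z).card := by
  obtain ⟨f, hf, hi⟩ := sp_hall hc hmin hz
  rw [← card_image_of_injOn hi]
  exact card_le_card fun w hw => by
    obtain ⟨a, ha, rfl⟩ := mem_image.1 hw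
    exact (hf a ha).1

/-- a member outside `X` misses only points of `Y (tl w)` -/
lemma WN_dg (hc : SpCov F tl H P X Y) {z : ι} {w : V} (hw : w ∈ WN F tl H P X z) :
    dg F P w ≤ (Y z).card := by
  obtain ⟨w1, w2, w3, -⟩ := mem_WN.1 hw
  unfold dg
  refine card_le_card fun a ha => ?_
  obtain ⟨a1, a2⟩ := mem_filter.1 ha
  rw [← w3]
  exact (hc.2 w w1 a a1 a2).resolve_left w2

/-- the sets `WN z` are disjoint parts of `H` outside `X` -/
lemma WN_sum (hXH : X ⊆ H) : X.card + ∑ z ∈ B, (WN F tl H P X z).card ≤ H.card := by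
  rw [← card_biUnion (fun y _ z _ hyz => by
    rw [Function.onFun, disjoint_left]
    intro w hw hw'
    exact hyz ((mem_WN.1 hw).2.2.1.symm.trans (mem_WN.1 hw').2.2.1)),
    ← card_union_of_disjoint (by
      rw [disjoint_left]
      intro w hw hw'
      obtain ⟨z, -, hz⟩ := mem_biUnion.1 hw'
      exact (mem_WN.1 hz).2.1 hw)]
  refine card_le_card (union_subset hXH ?_)
  rw [biUnion_subset]
  exact fun z _ => filter_subset _ _

/-- the pairs inside `H` -/
lemma cov_E_le (hXH : X ⊆ H) (hc : ∀ p ∈ H, ∀ q ∈ H, F.Adj p q → p ∈ X ∨ q ∈ X) :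
    E F H + X.card * (X.card + 1) ≤ 2 * (X.card * H.card) := by
  have h1 := E_sdiff F hXH
  have h2 : E F (H \ X) = 0 := by
    unfold E
    refine sum_eq_zero fun v hv => ?_
    obtain ⟨v1, v2⟩ := mem_sdiff.1 hv
    unfold dg
    rw [card_eq_zero, filter_eq_empty_iff]
    intro u hu huv
    obtain ⟨u1, u2⟩ := mem_sdiff.1 hu
    rcases hc v v1 u u1 huv with h | h
    · exact v2 h
    · exact u2 h
  have h3 : ∀ v ∈ X, dg F H v = dg F (H \ X) v + dg F X v := fun v _ => dg_sdiff F hXH v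
  have h4 : ∑ v ∈ X, dg F H v = ∑ v ∈ X, dg F (H \ X) v + E F X := by
    unfold E
    rw [← sum_add_distrib]
    exact sum_congr rfl h3
  have h5 : ∑ v ∈ X, dg F (H \ X) v ≤ X.card * (H \ X).card := by
    rw [← smul_eq_mul, ← sum_const]
    exact sum_le_sum fun v _ => card_filter_le _ _
  have h6 : E F X + X.card ≤ X.card * X.card := by
    have h7 : ∀ v ∈ X, dg F X v + 1 ≤ X.card := by
      intro v hv
      have h8 : insert v (X.filter (fun w => F.Adj v w)) ⊆ X :=
        insert_subset hv (filter_subset _ _)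
      have h9 := card_le_card h8
      rw [card_insert_of_notMem (by simp)] at h9
      exact h9
    have h8 := sum_le_sum h7
    rw [sum_add_distrib, sum_const, sum_const, smul_eq_mul, smul_eq_mul, mul_one] at h8
    exact h8
  have h7 := card_sdiff_add_card_eq_card hXH
  have h8 : X.card * (H \ X).card + X.card * X.card = X.card * H.card := by
    rw [← mul_add, h7]
  have h9 : X.card * (X.card + 1) = X.card * X.card + X.card := by ring
  omega

/-- the pairs between `H` and `P` -/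
lemma cov_dg_le (hc : SpCov F tl H P X Y) (hXH : X ⊆ H)
    (htl : ∀ v ∈ H, ∀ a ∈ P, F.Adj v a → tl v ∈ B) :
    ∑ v ∈ H, dg F P v
      ≤ ∑ v ∈ X, dg F P v + ∑ z ∈ B, (WN F tl H P X z).card * (Y z).card := by
  have h1 : ∑ v ∈ H, dg F P v = ∑ v ∈ H \ X, dg F P v + ∑ v ∈ X, dg F P v := (sum_sdiff hXH).symm
  have h2 : ∑ v ∈ H \ X, dg F P v = ∑ v ∈ B.biUnion (WN F tl H P X), dg F P v := by
    symm
    refine sum_subset ?_ ?_
    · rw [biUnion_subset]
      intro z _ w hw
      obtain ⟨w1, w2, -, -⟩ := mem_WN.1 hw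
      exact mem_sdiff.2 ⟨w1, w2⟩
    · intro v hv hv'
      obtain ⟨v1, v2⟩ := mem_sdiff.1 hv
      by_contra h0
      unfold dg at h0
      obtain ⟨a, ha⟩ := card_pos.1 (Nat.pos_of_ne_zero h0)
      obtain ⟨a1, a2⟩ := mem_filter.1 ha
      exact hv' (mem_biUnion.2 ⟨tl v, htl v v1 a a1 a2, mem_WN.2 ⟨v1, v2, rfl, a, a1, a2⟩⟩)
  have h3 : ∑ v ∈ B.biUnion (WN F tl H P X), dg F P v
      ≤ ∑ z ∈ B, (WN F tl H P X z).card * (Y z).card := by
    rw [sum_biUnion (fun y _ z _ hyz => by
      rw [Function.onFun, disjoint_left]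
      intro w hw hw'
      exact hyz ((mem_WN.1 hw).2.2.1.symm.trans (mem_WN.1 hw').2.2.1))]
    refine sum_le_sum fun z _ => ?_
    rw [← smul_eq_mul, ← sum_const]
    exact sum_le_sum fun w hw => WN_dg hc hw
  omega

/-- **LEMMA F, raw form**: the number of missing pairs of the slot for a split cover -/
theorem lemF_raw (hHP : Disjoint H P) (hP : ∀ a ∈ P, ∀ b ∈ P, ¬ F.Adj a b) (hXH : X ⊆ H)
    (hc : SpCov F tl H P X Y) (htl : ∀ v ∈ H, ∀ a ∈ P, F.Adj v a → tl v ∈ B) :
    E F (H ∪ P) + X.card * (X.card + 1) ≤ 2 * (X.card * H.card)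
      + 2 * ∑ z ∈ B, (WN F tl H P X z).card * (Y z).card + 2 * ∑ v ∈ X, dg F P v := by
  have h1 := E_sdiff F (subset_union_right : P ⊆ H ∪ P)
  have h2 : (H ∪ P) \ P = H := by
    rw [union_sdiff_right]
    exact sdiff_eq_self_of_disjoint hHP
  have h3 : E F P = 0 := by
    unfold E
    refine sum_eq_zero fun v hv => ?_
    unfold dg
    rw [card_eq_zero, filter_eq_empty_iff]
    exact fun u hu huv => hP v hv u hu huv
  have h4 : ∑ v ∈ P, dg F (H ∪ P) v = ∑ v ∈ P, dg F H v := by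
    refine sum_congr rfl fun v hv => ?_
    have h5 : dg F P v = 0 := by
      unfold dg
      rw [card_eq_zero, filter_eq_empty_iff]
      exact fun u hu huv => hP v hv u hu huv
    have h6 : dg F (H ∪ P) v = dg F H v + dg F P v := by
      unfold dg
      rw [filter_union, card_union_of_disjoint (disjoint_filter_filter hHP)]
    omega
  have h5 := dg_comm F P H
  have h6 := cov_E_le hXH hc.1
  have h7 := cov_dg_le hc hXH htl
  rw [h2, h3, h4] at h1
  omega

end Split

section Arith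

variable {ι : Type*}

/-- `a g - a (a + 1) / 2 ≤ g (g - 1) / 2` -/
lemma tri_le (a g : ℤ) : 2 * (a * g) - a * (a + 1) ≤ g * (g - 1) := by
  have h : 0 ≤ (g - a) * (g - a - 1) := by
    rcases le_or_gt (g - a) 0 with h1 | h1
    · nlinarith
    · exact mul_nonneg (by omega) (by omega)
  nlinarith

/-- **the arithmetic of LEMMA F**, rows with `g ≥ 1`: `ex z` is the error in LEMMA C -/
theorem lemF_pos (B : Finset ι) (b w ex : ι → ℕ) {a h t : ℕ} {g : ℤ} (hh : (h : ℤ) = t + g)
    (hw : a + ∑ z ∈ B, w z ≤ h) (hC : ∀ z ∈ B, 2 ≤ b z → w z ≤ t + ex z) :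
    2 * ((a : ℤ) * h) - a * (a + 1) + 2 * ∑ z ∈ B, (w z : ℤ) * b z
      ≤ 2 * (((a : ℤ) + ∑ z ∈ B, (b z : ℤ)) * t) + g * (g - 1) + 2
        + 2 * ∑ z ∈ B, (b z : ℤ) * ex z := by
  -- the rows with `b z = 1`
  set B1 : Finset ι := B.filter (fun z => b z = 1) with hB1
  have h1 : ∀ z ∈ B, (w z : ℤ) * b z ≤ (b z : ℤ) * t + b z * ex z
      + (if b z = 1 then (w z : ℤ) - t else 0) := by
    intro z hz
    by_cases hb1 : b z = 1
    · rw [if_pos hb1, hb1]
      push_cast
      have : (0 : ℤ) ≤ ex z := by positivity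
      linarith
    · rw [if_neg hb1]
      rcases Nat.eq_zero_or_pos (b z) with h0 | h0
      · rw [h0]
        simp
      · have h2 : w z ≤ t + ex z := hC z hz (by omega)
        have h3 : (w z : ℤ) ≤ t + ex z := by exact_mod_cast h2
        have h4 : (0 : ℤ) ≤ b z := by positivity
        nlinarith
  have h2 := sum_le_sum h1
  rw [sum_add_distrib, sum_add_distrib, ← sum_mul, ← sum_filter, ← hB1, sum_sub_distrib,
    sum_const, nsmul_eq_mul] at h2
  have h3 : (a : ℤ) + ∑ z ∈ B1, (w z : ℤ) ≤ h := by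
    have h4 : ∑ z ∈ B1, w z ≤ ∑ z ∈ B, w z := sum_le_sum_of_subset (filter_subset _ _)
    have h5 : a + ∑ z ∈ B1, w z ≤ h := by omega
    exact_mod_cast h5
  have h6 : (0 : ℤ) ≤ t := by positivity
  rcases B1.eq_empty_or_nonempty with h7 | h7
  · rw [h7, sum_empty, card_empty] at h2
    have h8 := tri_le a g
    rw [hh]
    push_cast at h2
    nlinarith
  · have h8 : (1 : ℤ) ≤ B1.card := by exact_mod_cast card_pos.2 h7
    have h9 := tri_le ((a : ℤ) + 1) g
    have h10 : (t : ℤ) ≤ B1.card * t := by nlinarith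
    rw [hh] at h3 ⊢
    nlinarith

/-- rows with `g ≤ 0` (no condition on the arcs) -/
theorem lemF_neg (B : Finset ι) (b w : ι → ℕ) {a h : ℕ} (hw : ∀ z ∈ B, w z ≤ h) :
    2 * (a * h) + 2 * ∑ z ∈ B, w z * b z ≤ 2 * ((a + ∑ z ∈ B, b z) * h) := by
  have h1 : ∑ z ∈ B, w z * b z ≤ (∑ z ∈ B, b z) * h := by
    rw [sum_mul]
    refine sum_le_sum fun z hz => ?_
    rw [mul_comm]
    exact Nat.mul_le_mul_left _ (hw z hz)
  rw [add_mul]
  omega

end Arith

section Final

variable {ι V : Type*} {F : SimpleGraph V} {tl : V → ι} {H P X : Finset V} {Y : ι → Finset V}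
  {B : Finset ι}

/-- **LEMMA F** (15670 (2)), `|H| = t + g`: `X`, `Y` any split cover, LEMMA C as hypothesis `hC` with an
error `ex z` (normally `0`); the members of `X` with missing class points pay their class degree -/
theorem lemF (hHP : Disjoint H P) (hP : ∀ a ∈ P, ∀ b ∈ P, ¬ F.Adj a b) (hXH : X ⊆ H)
    (hc : SpCov F tl H P X Y) (htl : ∀ v ∈ H, ∀ a ∈ P, F.Adj v a → tl v ∈ B) (ex : ι → ℕ)
    {t : ℕ} {g : ℤ} (hh : (H.card : ℤ) = t + g)
    (hC : ∀ z ∈ B, 2 ≤ (Y z).card → (WN F tl H P X z).card ≤ t + ex z) :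
    (E F (H ∪ P) : ℤ) ≤ 2 * (((X.card : ℤ) + ∑ z ∈ B, ((Y z).card : ℤ)) * t) + g * (g - 1) + 2
      + 2 * ∑ z ∈ B, ((Y z).card : ℤ) * ex z + 2 * ∑ v ∈ X, (dg F P v : ℤ) := by
  have h1 := lemF_raw hHP hP hXH hc htl
  have h2 := lemF_pos B (fun z => (Y z).card) (fun z => (WN F tl H P X z).card) ex hh
    (WN_sum hXH) hC
  have h3 : (E F (H ∪ P) : ℤ) + (X.card : ℤ) * (X.card + 1) ≤ 2 * ((X.card : ℤ) * H.card)
      + 2 * ∑ z ∈ B, ((WN F tl H P X z).card : ℤ) * (Y z).card
      + 2 * ∑ v ∈ X, (dg F P v : ℤ) := by exact_mod_cast h1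
  linarith

/-- **LEMMA F for rows with `g ≤ 0`** -/
theorem lemF' (hHP : Disjoint H P) (hP : ∀ a ∈ P, ∀ b ∈ P, ¬ F.Adj a b) (hXH : X ⊆ H)
    (hc : SpCov F tl H P X Y) (htl : ∀ v ∈ H, ∀ a ∈ P, F.Adj v a → tl v ∈ B) :
    E F (H ∪ P) + X.card * (X.card + 1)
      ≤ 2 * ((X.card + ∑ z ∈ B, (Y z).card) * H.card) + 2 * ∑ v ∈ X, dg F P v := by
  have h1 := lemF_raw hHP hP hXH hc htl
  have h2 := lemF_neg B (fun z => (Y z).card) (fun z => (WN F tl H P X z).card) (a := X.card)
    (h := H.card) (fun z _ => card_le_card (filter_subset _ _))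
  omega

end Final

section Frame

variable {V : Type*} {G : SimpleGraph V} {Z T : Finset V} {hm : V → V} {r m t : ℕ}

/-- the other end of a double -/
noncomputable def tlo (G : SimpleGraph V) (T : Finset V) (hm : V → V) (v : V) : V :=
  if h : ((ends G T v).erase (hm v)).Nonempty then h.choose else hm v

lemma tlo_eq {x y v : V} (he : ends G T v = {x, y}) (hv : hm v = x) (hxy : x ≠ y) :
    tlo G T hm v = y := by
  have h1 : (ends G T v).erase (hm v) = {y} := by
    rw [he, hv]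
    ext u
    simp only [mem_erase, mem_insert, mem_singleton]
    constructor
    · rintro ⟨h2, h3 | h3⟩
      · exact absurd h3 h2
      · exact h3
    · rintro rfl
      exact ⟨hxy.symm, Or.inr rfl⟩
  have h2 : ((ends G T v).erase (hm v)).Nonempty := by
    rw [h1]
    exact singleton_nonempty y
  unfold tlo
  rw [dif_pos h2]
  exact mem_singleton.1 (h1.subset h2.choose_spec)

variable {A : Finset V} {S : V → Finset V}

/-- a missing pair of a double and a class point of its home is served at the tail, and the tail is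
a row of the system (the centres are kept) -/
lemma CSys.pc_tail (hF : PFrame G r m t Z T) (hh : Homes G Z T hm) (h : CSys G Z T hm A S)
    (hctr : ∀ y ∈ A, y ∈ S y) {x : V} (hx : x ∈ A) {v a : V} (hv : v ∈ HP G Z T S x)
    (ha : a ∈ CP G Z T S x) (hva : (co G).Adj v a) :
    tlo G T hm v ∈ A.erase x ∧
      ∀ c ∈ CP G Z T S (tlo G T hm v), G.Adj c v ∨ G.Adj c a := by
  have hvP := h.HP_Ph hx hv
  obtain ⟨hvB, y, hy, he⟩ := Ph_tail hh hvP
  have hyx := ne_of_mem_erase hy
  have hyT := mem_of_mem_erase hy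
  have ht : tlo G T hm v = y := tlo_eq he (mem_Ph.1 hvP).2 hyx.symm
  rw [ht]
  have haC := (mem_CP.1 ha).2
  have hyA : y ∈ A := by
    rcases h.closed x hx v (mem_HP.1 hv).1 a (mem_CP.1 ha).1 hva with
      ⟨u, hu, h1⟩ | ⟨u, _, z, hz, _, _, h2⟩
    · have huA := mem_of_mem_erase hu
      have huT := h.sub huA
      have h3 := (h1 u (hctr u huA) (hF.self_mem_Cl huT)).resolve_right
        (hF.Cl_not_adj (h.sub hx) huT (ne_of_mem_erase hu) haC)
      have h4 : u ∈ ends G T v := mem_ends.2 ⟨huT, h3⟩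
      rw [he, mem_insert, mem_singleton] at h4
      rcases h4 with h4 | h4
      · exact absurd h4 (ne_of_mem_erase hu)
      · exact h4 ▸ huA
    · exfalso
      have h3 : z ∈ ends G T a := by
        rw [h2]
        exact mem_insert_of_mem (mem_singleton_self _)
      exact hF.Cl_not_adj (h.sub hx) (h.sub (mem_of_mem_erase hz)) (ne_of_mem_erase hz) haC
        (mem_ends.1 h3).2
  refine ⟨mem_erase.2 ⟨hyx, hyA⟩, fun c hc => ?_⟩
  rcases hF.srv_PC (h.sub hx) hyT hyx.symm hvB he haC hva.2 (mem_CP.1 hc).2 with h1 | h1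
  · exact Or.inl h1.symm
  · exact Or.inr h1.symm

/-- a missing pair of doubles of a slot is seen by every independent partial transversal -/
lemma CSys.pp_seen (hF : PFrame G r m t Z T) (h : CSys G Z T hm A S) {x : V} (hx : x ∈ A)
    {c : V → V} (hc : ∀ z ∈ A.erase x, c z ∈ CP G Z T S z)
    (hi : ∀ y ∈ A.erase x, ∀ z ∈ A.erase x, y ≠ z → ¬ G.Adj (c y) (c z)) {p q : V}
    (hp : p ∈ S x) (hq : q ∈ S x) (hpq : (co G).Adj p q) :
    ∃ z ∈ A.erase x, G.Adj (c z) p ∨ G.Adj (c z) q := by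
  rcases h.closed x hx p hp q hq hpq with ⟨y, hy, h1⟩ | ⟨y, hy, z, hz, hyz, he, he'⟩
  · obtain ⟨h2, h3⟩ := mem_CP.1 (hc y hy)
    rcases h1 _ h2 h3 with h4 | h4
    · exact ⟨y, hy, Or.inl h4.symm⟩
    · exact ⟨y, hy, Or.inr h4.symm⟩
  · by_contra hcon
    push Not at hcon
    have hyT := h.sub (mem_of_mem_erase hy)
    have hzT := h.sub (mem_of_mem_erase hz)
    have hBB : ∀ u w : V, u ∈ S x → w ∈ A.erase x → ends G T u = {x, w} → u ∈ BB G Z T := by
      intro u w hu hw he
      rcases mem_MM.1 (h.slot x hx hu) with h2 | h2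
      · exfalso
        have h3 : w ∈ ends G T u := by
          rw [he]
          exact mem_insert_of_mem (mem_singleton_self _)
        exact hF.Cl_not_adj (h.sub hx) (h.sub (mem_of_mem_erase hw)) (ne_of_mem_erase hw) h2
          (mem_ends.1 h3).2
      · exact (mem_Ph.1 h2).1
    have h5 := hF.half hyT hzT hyz (h.sub hx) (hBB p y hp hy he) he (hBB q z hq hz he') he' hpq.1
      hpq.2 (mem_CP.1 (hc y hy)).2 (mem_CP.1 (hc z hz)).2
      (fun h' => (hcon y hy).1 h'.symm) (fun h' => (hcon y hy).2 h'.symm)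
      (fun h' => (hcon z hz).1 h'.symm) (fun h' => (hcon z hz).2 h'.symm)
    exact hi y hy z hz hyz h5

/-- **the neighbourhoods of an independent partial transversal and the split cover number** -/
theorem CSys.spn_tr (hF : PFrame G r m t Z T) (hh : Homes G Z T hm) (h : CSys G Z T hm A S)
    (hctr : ∀ y ∈ A, y ∈ S y) {x : V} (hx : x ∈ A) {c : V → V}
    (hc : ∀ z ∈ A.erase x, c z ∈ CP G Z T S z)
    (hi : ∀ y ∈ A.erase x, ∀ z ∈ A.erase x, y ≠ z → ¬ G.Adj (c y) (c z)) :
    spn (co G) (tlo G T hm) (HP G Z T S x) (CP G Z T S x) (A.erase x)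
      ≤ ∑ z ∈ A.erase x, dg G (S x) (c z) := by
  have h1 := sp_tr (G := G) (F := co G) (tl := tlo G T hm) (H := HP G Z T S x)
    (P := CP G Z T S x) (B := A.erase x) (c := c) (L := ∅) CP_HP_disjoint.symm
    (fun v hv a ha hva => (h.pc_tail hF hh hctr hx hv ha hva).1)
    (fun z hz v hv a ha hva htl => by
      have h2 := (h.pc_tail hF hh hctr hx hv ha hva).2
      rw [htl] at h2
      exact h2 _ (hc z hz))
    (fun p hp q hq hpq => Or.inl (h.pp_seen hF hx hc hi (HP_sub hp) (HP_sub hq) hpq))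
  have h2 : HP G Z T S x ∪ CP G Z T S x = S x := by
    rw [union_comm]
    exact CP_union_HP
  rw [h2, card_empty, add_zero] at h1
  exact h1

/-- no missing pairs inside the class part -/
lemma CSys.CP_co (hF : PFrame G r m t Z T) (h : CSys G Z T hm A S) {x : V} (hx : x ∈ A) :
    ∀ a ∈ CP G Z T S x, ∀ b ∈ CP G Z T S x, ¬ (co G).Adj a b :=
  fun a ha b hb hab => hab.2 (h.CP_clq hF hx a ha b hb hab.1)

/-- no clique with `r` points: the split cover number is at least `s + 1` -/
theorem CSys.le_spn (hF : S2 G r m t Z T) (hh : Homes G Z T hm) (h : CSys G Z T hm A S)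
    (hctr : ∀ y ∈ A, y ∈ S y) {x : V} (hx : x ∈ A) :
    (S x).card ≤ spn (co G) (tlo G T hm) (HP G Z T S x) (CP G Z T S x) (A.erase x) + (r - 1) := by
  have h1 := hF.csys_cn h hx
  have h2 := cn_le_spn (F := co G) (tl := tlo G T hm) (H := HP G Z T S x) (B := A.erase x)
    (h.CP_co hF.toPFrame hx)
    (fun v hv a ha hva => (h.pc_tail hF.toPFrame hh hctr hx hv ha hva).1)
  have h3 : HP G Z T S x ∪ CP G Z T S x = S x := by
    rw [union_comm]
    exact CP_union_HP
  rw [h3] at h2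
  omega

/-- **LEMMA F in a closed system**: `|HP x| = t' + g` (`t' = r - 1 - |CP x|`), LEMMA C as hypothesis on
the arcs with at least two copies -/
theorem CSys.lemF (hF : PFrame G r m t Z T) (hh : Homes G Z T hm) (h : CSys G Z T hm A S)
    (hctr : ∀ y ∈ A, y ∈ S y) {x : V} (hx : x ∈ A) {X : Finset V} {Y : V → Finset V}
    (hXH : X ⊆ HP G Z T S x)
    (hc : SpCov (co G) (tlo G T hm) (HP G Z T S x) (CP G Z T S x) X Y) (ex : V → ℕ)
    {t' : ℕ} {g : ℤ} (hg : ((HP G Z T S x).card : ℤ) = t' + g)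
    (hC : ∀ z ∈ A.erase x, 2 ≤ (Y z).card →
      (WN (co G) (tlo G T hm) (HP G Z T S x) (CP G Z T S x) X z).card ≤ t' + ex z) :
    (NE G (S x) : ℤ) ≤ 2 * (((X.card : ℤ) + ∑ z ∈ A.erase x, ((Y z).card : ℤ)) * t')
      + g * (g - 1) + 2 + 2 * ∑ z ∈ A.erase x, ((Y z).card : ℤ) * ex z
      + 2 * ∑ v ∈ X, (nd G (CP G Z T S x) v : ℤ) := by
  have h1 := Pool.Agent.Lib.MP_f04ccf_co.lemF (F := co G) (tl := tlo G T hm)
    (B := A.erase x) CP_HP_disjoint.symm (h.CP_co hF hx) hXH hc
    (fun v hv a ha hva => (h.pc_tail hF hh hctr hx hv ha hva).1) ex hg hC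
  have h3 : HP G Z T S x ∪ CP G Z T S x = S x := by
    rw [union_comm]
    exact CP_union_HP
  rw [h3, ← NE_eq_E] at h1
  simpa only [nd_eq_dg] using h1

/-- **LEMMA F in a closed system, rows with `g ≤ 0`** -/
theorem CSys.lemF' (hF : PFrame G r m t Z T) (hh : Homes G Z T hm) (h : CSys G Z T hm A S)
    (hctr : ∀ y ∈ A, y ∈ S y) {x : V} (hx : x ∈ A) {X : Finset V} {Y : V → Finset V}
    (hXH : X ⊆ HP G Z T S x)
    (hc : SpCov (co G) (tlo G T hm) (HP G Z T S x) (CP G Z T S x) X Y) :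
    NE G (S x) + X.card * (X.card + 1)
      ≤ 2 * ((X.card + ∑ z ∈ A.erase x, (Y z).card) * (HP G Z T S x).card)
        + 2 * ∑ v ∈ X, nd G (CP G Z T S x) v := by
  have h1 := Pool.Agent.Lib.MP_f04ccf_co.lemF' (F := co G) (tl := tlo G T hm)
    (B := A.erase x) CP_HP_disjoint.symm (h.CP_co hF hx) hXH hc
    (fun v hv a ha hva => (h.pc_tail hF hh hctr hx hv ha hva).1)
  have h3 : HP G Z T S x ∪ CP G Z T S x = S x := by
    rw [union_comm]
    exact CP_union_HP
  rw [h3, ← NE_eq_E] at h1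
  simpa only [nd_eq_dg] using h1

end Frame

end Pool.Agent.Lib.MP_f04ccf_co
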