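import Pool.Agent.Lib.MP_f04ccf_co.M.Cmb
import Pool.Agent.Lib.MP_f04ccf_co.M.LemF

/-!
MP_f04ccf_co, notes 15856, 15915: the host inequality of COMBO for split covers with arbitrary cost
sets.  `X1` a set of members, `X2 z` a set of class points (copies for the row `z`), `γ`, `δ` their
multipliers, `SpGam` the input on the split covers; the row `z` pays at the column `c` for the
members seen by `c` and for the set `K z c`.
-/

set_option autoImplicit false

namespace Pool.Agent.Lib.MP_f04ccf_co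

open Finset

attribute [local instance] Classical.propDecidable

section CmbH

variable {ι V : Type*}

/-- every split cover has at least `τ` points and what it misses of `X1`, `X2` -/
def SpGam (F : SimpleGraph V) (tl : V → ι) (H P : Finset V) (B : Finset ι) (X1 : Finset V)
    (X2 : ι → Finset V) (γ : V → ℚ) (δ : ι → V → ℚ) (τ : ℚ) : Prop :=
  ∀ (X : Finset V) (Y : ι → Finset V), X ⊆ H → (∀ z, Y z ⊆ P) → SpCov F tl H P X Y →
    τ + ∑ v ∈ X1 \ X, γ v + ∑ z ∈ B, ∑ a ∈ X2 z \ Y z, δ z a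
      ≤ (X.card : ℚ) + ∑ z ∈ B, ((Y z).card : ℚ)

variable {G F : SimpleGraph V} {tl : V → ι} {H P : Finset V} {B : Finset ι}

/-- `SpGam` from the degrees in the split graph -/
theorem spGam_deg {X1 : Finset V} {X2 : ι → Finset V} {γ : V → ℚ} {δ : ι → V → ℚ} {τ : ℚ}
    (hHP : Disjoint H P) (htl : ∀ v ∈ H, ∀ a ∈ P, F.Adj v a → tl v ∈ B) (hX1 : X1 ⊆ H)
    (hX2 : ∀ z ∈ B, X2 z ⊆ P) (hτ : τ ≤ spn F tl H P B)
    (hd : ∀ M ⊆ X1, ∀ N : ι → Finset V, (∀ z ∈ B, N z ⊆ X2 z) →
      (∀ p ∈ M, ∀ q ∈ M, ¬ F.Adj p q) → (∀ v ∈ M, ∀ a ∈ N (tl v), ¬ F.Adj v a) →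
      (M.Nonempty ∨ ∃ z ∈ B, (N z).Nonempty) →
      (∃ v ∈ M, τ + ∑ v ∈ M, γ v + ∑ z ∈ B, ∑ a ∈ N z, δ z a ≤ dg F (H ∪ P) v) ∨
      ∃ z ∈ B, ∃ a ∈ N z, τ + ∑ v ∈ M, γ v + ∑ z ∈ B, ∑ a ∈ N z, δ z a
        ≤ ((H.filter fun w => tl w = z ∧ F.Adj w a).card : ℚ)) :
    SpGam F tl H P B X1 X2 γ δ τ := by
  intro X Y hXH hYP hc
  by_cases hne : (X1 \ X).Nonempty ∨ ∃ z ∈ B, (X2 z \ Y z).Nonempty
  · have hN : ∀ z ∈ B, (if z ∈ B then X2 z \ Y z else ∅) = X2 z \ Y z := fun z hz => if_pos hz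
    have hs : ∑ z ∈ B, ∑ a ∈ (if z ∈ B then X2 z \ Y z else ∅), δ z a
        = ∑ z ∈ B, ∑ a ∈ X2 z \ Y z, δ z a := sum_congr rfl fun z hz => by rw [hN z hz]
    have h1 := hd (X1 \ X) sdiff_subset (fun z => if z ∈ B then X2 z \ Y z else ∅)
      (fun z hz => by rw [hN z hz]; exact sdiff_subset)
      (fun p hp q hq hpq => by
        obtain ⟨p1, p2⟩ := mem_sdiff.1 hp
        obtain ⟨q1, q2⟩ := mem_sdiff.1 hq
        exact (hc.1 p (hX1 p1) q (hX1 q1) hpq).elim p2 q2)
      (fun v hv a ha hva => by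
        obtain ⟨p1, p2⟩ := mem_sdiff.1 hv
        by_cases hz : tl v ∈ B
        · rw [if_pos hz] at ha
          obtain ⟨a1, a2⟩ := mem_sdiff.1 ha
          exact (hc.2 v (hX1 p1) a (hX2 _ hz a1) hva).elim p2 a2
        · rw [if_neg hz] at ha
          exact absurd ha (notMem_empty _))
      (hne.elim Or.inl fun ⟨z, hz, h⟩ => Or.inr ⟨z, hz, by rw [hN z hz]; exact h⟩)
    simp only [hs] at h1
    rcases h1 with ⟨v, hv, h1⟩ | ⟨z, hz, a, ha, h1⟩
    · refine h1.trans ?_
      obtain ⟨v1, v2⟩ := mem_sdiff.1 hv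
      have hvH := hX1 v1
      have e1 : dg F (H ∪ P) v = dg F H v + dg F P v := by
        unfold dg
        rw [filter_union, card_union_of_disjoint (disjoint_filter_filter hHP)]
      have e2 : dg F H v ≤ X.card := by
        unfold dg
        refine card_le_card fun w hw => ?_
        obtain ⟨w1, w2⟩ := mem_filter.1 hw
        exact (hc.1 v hvH w w1 w2).resolve_left v2
      have e3 : dg F P v ≤ ∑ z ∈ B, (Y z).card := by
        by_cases h0 : (P.filter fun a => F.Adj v a).Nonempty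
        · obtain ⟨a, ha⟩ := h0
          obtain ⟨a1, a2⟩ := mem_filter.1 ha
          have htv := htl v hvH a a1 a2
          refine le_trans ?_ (single_le_sum (f := fun z => (Y z).card) (fun _ _ => Nat.zero_le _)
            htv)
          unfold dg
          refine card_le_card fun b hb => ?_
          obtain ⟨b1, b2⟩ := mem_filter.1 hb
          exact (hc.2 v hvH b b1 b2).resolve_left v2
        · unfold dg
          rw [not_nonempty_iff_eq_empty] at h0
          rw [h0, card_empty]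
          exact Nat.zero_le _
      have e4 : dg F (H ∪ P) v ≤ X.card + ∑ z ∈ B, (Y z).card := by omega
      exact_mod_cast e4
    · refine h1.trans ?_
      rw [hN z hz] at ha
      obtain ⟨a1, a2⟩ := mem_sdiff.1 ha
      have e1 : (H.filter fun w => tl w = z ∧ F.Adj w a).card ≤ X.card := by
        refine card_le_card fun w hw => ?_
        obtain ⟨w1, w2, w3⟩ := mem_filter.1 hw
        rcases hc.2 w w1 a (hX2 z hz a1) w3 with h2 | h2
        · exact h2
        · rw [w2] at h2
          exact absurd h2 a2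
      have e2 : (H.filter fun w => tl w = z ∧ F.Adj w a).card
          ≤ X.card + ∑ z ∈ B, (Y z).card := e1.trans (Nat.le_add_right _ _)
      exact_mod_cast e2
  · rw [not_or, not_nonempty_iff_eq_empty] at hne
    obtain ⟨h1, h2⟩ := hne
    have h3 : ∑ z ∈ B, ∑ a ∈ X2 z \ Y z, δ z a = 0 := by
      refine sum_eq_zero fun z hz => ?_
      have h4 : X2 z \ Y z = ∅ := by
        by_contra h5
        exact h2 ⟨z, hz, nonempty_iff_ne_empty.2 h5⟩
      rw [h4, sum_empty]
    rw [h1, sum_empty, h3, add_zero, add_zero]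
    refine hτ.trans ?_
    exact_mod_cast spn_le hc

end CmbH

section Host

attribute [-instance] instDecidableEqSum

variable {ι V : Type*} [Fintype ι] {G F : SimpleGraph V} {tl : V → ι} {H P : Finset V}
  {B : Finset ι}

variable (G) in
/-- the cost set of the row `z` at the column `c` -/
private noncomputable def KS (H P : Finset V) (K : ι → V → Finset V) (z : ι) (c : V) :
    Finset (V ⊕ (Σ _ : ι, V)) :=
  (H.filter fun v => G.Adj c v ∨ v ∈ K z c).disjSum
    (({z} : Finset ι).sigma fun _ => K z c ∩ P)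

/-- **host inequality of COMBO**, arbitrary cost sets -/
theorem cmb_host {C : ι → Finset V} (hC : ∀ y, (C y).Nonempty) (hHP : Disjoint H P)
    (htl : ∀ v ∈ H, ∀ a ∈ P, F.Adj v a → tl v ∈ B) {K : ι → V → Finset V}
    (hK : ∀ z ∈ B, ∀ c ∈ C z, ∀ v ∈ MN G F tl H P z c, ∀ a ∈ P, F.Adj v a → v ∈ K z c ∨ a ∈ K z c)
    {L : (ι → V) → Finset V} (hLH : ∀ c, L c ⊆ H)
    (hL : ∀ c : ι → V, (∀ y, c y ∈ C y) → ∀ p ∈ H, ∀ q ∈ H, F.Adj p q →
      (∃ z ∈ B, (G.Adj (c z) p ∨ p ∈ K z (c z)) ∨ (G.Adj (c z) q ∨ q ∈ K z (c z))) ∨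
        p ∈ L c ∨ q ∈ L c)
    {X1 : Finset V} {X2 : ι → Finset V} {γ : V → ℚ} {δ : ι → V → ℚ} {τ : ℚ} (hX1 : X1 ⊆ H)
    (hX2 : ∀ z ∈ B, X2 z ⊆ P) (hγ : ∀ v, 0 ≤ γ v) (hg : SpGam F tl H P B X1 X2 γ δ τ) :
    τ + ∑ v ∈ X1, gam B (fun z => ((C z).filter fun c => G.Adj c v ∨ v ∈ K z c).card / (C z).card)
        (γ v)
      + ∑ z ∈ B, ∑ a ∈ X2 z, δ z a * (1 - ((C z).filter fun c => a ∈ K z c).card / (C z).card)
      ≤ ∑ z ∈ B, (∑ c ∈ C z, ((dg G H c : ℚ) + (K z c).card)) / (C z).card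
        + (∑ c ∈ Fintype.piFinset C, ∑ v ∈ L c, (1 + γ v)) / ∏ y, ((C y).card : ℚ) := by
  set X : Finset (V ⊕ (Σ _ : ι, V)) := X1.disjSum (B.sigma X2) with hX
  set g : V ⊕ (Σ _ : ι, V) → ℚ := Sum.elim γ (fun p => δ p.1 p.2) with hgd
  -- the union of the cost sets
  have hD : ∀ c : ι → V, B.biUnion (fun z => KS G H P K z (c z))
      = (H.filter fun v => ∃ z ∈ B, G.Adj (c z) v ∨ v ∈ K z (c z)).disjSum
        (B.sigma fun z => K z (c z) ∩ P) := by
    intro c
    ext p
    rcases p with v | ⟨z, a⟩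
    · rw [mem_biUnion, inl_mem_disjSum, mem_filter]
      unfold KS
      constructor
      · rintro ⟨z, hz, h⟩
        rw [inl_mem_disjSum, mem_filter] at h
        exact ⟨h.1, z, hz, h.2⟩
      · rintro ⟨hv, z, hz, h⟩
        exact ⟨z, hz, by rw [inl_mem_disjSum, mem_filter]; exact ⟨hv, h⟩⟩
    · rw [mem_biUnion, inr_mem_disjSum, mem_sigma]
      unfold KS
      constructor
      · rintro ⟨z', hz', h⟩
        rw [inr_mem_disjSum, mem_sigma, mem_singleton] at h
        obtain ⟨h1, h2⟩ := h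
        simp only at h1 h2
        subst h1
        exact ⟨hz', h2⟩
      · rintro ⟨hz, h⟩
        exact ⟨z, hz, by rw [inr_mem_disjSum, mem_sigma, mem_singleton]; exact ⟨rfl, h⟩⟩
  have h1 := cmb_core (B := B) (K := KS G H P K) (X := X) (γ := g) (τ := τ)
    (u := fun c => ∑ v ∈ L c, (1 + γ v)) hC (fun c hc => by
      rw [hD c]
      set X' : Finset V := H.filter fun v => ∃ z ∈ B, G.Adj (c z) v ∨ v ∈ K z (c z) with hX'
      have g1 : SpCov F tl H P (X' ∪ L c) (fun z => if z ∈ B then K z (c z) ∩ P else ∅) := by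
        refine ⟨fun p hp q hq hpq => ?_, fun v hv a ha hva => ?_⟩
        · rcases hL c hc p hp q hq hpq with ⟨z, hz, h2 | h2⟩ | h2 | h2
          · exact Or.inl (mem_union_left _ (mem_filter.2 ⟨hp, z, hz, h2⟩))
          · exact Or.inr (mem_union_left _ (mem_filter.2 ⟨hq, z, hz, h2⟩))
          · exact Or.inl (mem_union_right _ h2)
          · exact Or.inr (mem_union_right _ h2)
        · have hz := htl v hv a ha hva
          beta_reduce
          rw [if_pos hz]
          by_cases h2 : G.Adj (c (tl v)) v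
          · exact Or.inl (mem_union_left _ (mem_filter.2 ⟨hv, _, hz, Or.inl h2⟩))
          · rcases hK _ hz _ (hc _) v (mem_MN.2 ⟨hv, rfl, h2, a, ha, hva⟩) a ha hva with h3 | h3
            · exact Or.inl (mem_union_left _ (mem_filter.2 ⟨hv, _, hz, Or.inr h3⟩))
            · exact Or.inr (mem_inter.2 ⟨h3, ha⟩)
      have g2 := hg (X' ∪ L c) _ (union_subset (filter_subset _ _) (hLH c))
        (fun z => by
          split_ifs
          · exact inter_subset_right
          · exact empty_subset _) g1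
      have g3 : ∑ z ∈ B, ∑ a ∈ X2 z \ (if z ∈ B then K z (c z) ∩ P else ∅), δ z a
          = ∑ z ∈ B, ∑ a ∈ X2 z \ (K z (c z) ∩ P), δ z a :=
        sum_congr rfl fun z hz => by rw [if_pos hz]
      have g4 : ∑ z ∈ B, (((if z ∈ B then K z (c z) ∩ P else ∅) : Finset V).card : ℚ)
          = ∑ z ∈ B, ((K z (c z) ∩ P).card : ℚ) :=
        sum_congr rfl fun z hz => by rw [if_pos hz]
      rw [g3, g4] at g2
      have g5 : ∑ p ∈ X \ X'.disjSum (B.sigma fun z => K z (c z) ∩ P), g p
          = ∑ v ∈ X1 \ X', γ v + ∑ z ∈ B, ∑ a ∈ X2 z \ (K z (c z) ∩ P), δ z a := by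
        have k1 : X \ X'.disjSum (B.sigma fun z => K z (c z) ∩ P)
            = (X1 \ X').disjSum (B.sigma fun z => X2 z \ (K z (c z) ∩ P)) := by
          ext p
          rcases p with v | ⟨z, a⟩
          · rw [mem_sdiff, hX, inl_mem_disjSum, inl_mem_disjSum, inl_mem_disjSum, mem_sdiff]
          · rw [mem_sdiff, hX, inr_mem_disjSum, inr_mem_disjSum, inr_mem_disjSum, mem_sigma,
              mem_sigma, mem_sigma]
            simp only [mem_sdiff]
            tauto
        rw [k1, sum_disjSum, sum_sigma]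
        rfl
      have g6 : ((X'.disjSum (B.sigma fun z => K z (c z) ∩ P)).card : ℚ)
          = X'.card + ∑ z ∈ B, ((K z (c z) ∩ P).card : ℚ) := by
        rw [card_disjSum, card_sigma]
        push_cast
        rfl
      have g7 : ∑ v ∈ X1 \ X', γ v ≤ ∑ v ∈ X1 \ (X' ∪ L c), γ v + ∑ v ∈ L c, γ v := by
        rw [← sum_union_inter]
        have e1 : X1 \ X' ⊆ X1 \ (X' ∪ L c) ∪ L c := by
          intro v hv
          obtain ⟨a, b⟩ := mem_sdiff.1 hv
          by_cases hu : v ∈ L c
          · exact mem_union_right _ hu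
          · exact mem_union_left _ (mem_sdiff.2 ⟨a, fun h => (mem_union.1 h).elim b hu⟩)
        have e2 := sum_le_sum_of_subset_of_nonneg (f := γ) e1 fun v _ _ => hγ v
        have e3 : 0 ≤ ∑ v ∈ X1 \ (X' ∪ L c) ∩ L c, γ v := sum_nonneg fun v _ => hγ v
        linarith
      have g8 : ((X' ∪ L c).card : ℚ) ≤ X'.card + (L c).card := by
        exact_mod_cast card_union_le _ _
      have g9 : ∑ v ∈ L c, (1 + γ v) = (L c).card + ∑ v ∈ L c, γ v := by
        rw [sum_add_distrib, sum_const, nsmul_eq_mul, mul_one]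
      rw [g5, g6, g9]
      linarith)
  refine le_trans (le_of_eq ?_) (h1.trans ?_)
  · rw [add_assoc]
    congr 1
    rw [hX, sum_disjSum, sum_sigma]
    congr 1
    · refine sum_congr rfl fun v hv => ?_
      have k1 : frc C (KS G H P K) (Sum.inl v)
          = fun z => (((C z).filter fun c => G.Adj c v ∨ v ∈ K z c).card : ℚ) / (C z).card := by
        funext z
        unfold frc
        congr 2
        refine congrArg card (filter_congr fun c _ => ?_)
        unfold KS
        rw [inl_mem_disjSum, mem_filter]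
        exact ⟨fun h => h.2, fun h => ⟨hX1 hv, h⟩⟩
      rw [k1]
      rfl
    · refine sum_congr rfl fun z hz => sum_congr rfl fun a ha => ?_
      have k1 : ∀ y, frc C (KS G H P K) (Sum.inr ⟨z, a⟩) y
          = if y = z then (((C z).filter fun c => a ∈ K z c).card : ℚ) / (C z).card else 0 := by
        intro y
        unfold frc
        split_ifs with hyz
        · subst hyz
          congr 2
          refine congrArg card (filter_congr fun c _ => ?_)
          unfold KS
          rw [inr_mem_disjSum, mem_sigma, mem_singleton]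
          exact ⟨fun h => (mem_inter.1 h.2).1, fun h => ⟨rfl, mem_inter.2 ⟨h, hX2 y hz ha⟩⟩⟩
        · have k2 : (C y).filter (fun c => (Sum.inr ⟨z, a⟩ : V ⊕ (Σ _ : ι, V)) ∈ KS G H P K y c)
              = ∅ := by
            refine filter_eq_empty_iff.2 fun c _ h => hyz ?_
            unfold KS at h
            rw [inr_mem_disjSum, mem_sigma, mem_singleton] at h
            exact h.1.symm
          rw [k2, card_empty, Nat.cast_zero, zero_div]
      have k2 : ∑ y ∈ B, frc C (KS G H P K) (Sum.inr ⟨z, a⟩) y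
          = (((C z).filter fun c => a ∈ K z c).card : ℚ) / (C z).card := by
        rw [sum_congr rfl fun y _ => k1 y, sum_ite_eq' B z, if_pos hz]
      have k3 : ∏ y ∈ B, (1 - frc C (KS G H P K) (Sum.inr ⟨z, a⟩) y)
          = 1 - (((C z).filter fun c => a ∈ K z c).card : ℚ) / (C z).card := by
        rw [← mul_prod_erase B _ hz, k1 z, if_pos rfl, prod_eq_one, mul_one]
        intro y hy
        rw [k1 y, if_neg (ne_of_mem_erase hy), sub_zero]
      unfold gam
      rw [k2, k3]
      change _ = _ - 1 + (1 + δ z a) * _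
      ring
  · refine add_le_add ?_ (le_refl _)
    refine sum_le_sum fun z hz => ?_
    refine div_le_div_of_nonneg_right ?_ (by positivity)
    refine sum_le_sum fun c _ => ?_
    unfold KS
    rw [card_disjSum, card_sigma, sum_singleton]
    have k1 : (H.filter fun v => G.Adj c v ∨ v ∈ K z c).card ≤ dg G H c + (K z c ∩ H).card := by
      unfold dg
      refine (card_le_card ?_).trans (card_union_le _ _)
      intro v hv
      obtain ⟨v1, v2⟩ := mem_filter.1 hv
      rcases v2 with v2 | v2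
      · exact mem_union_left _ (mem_filter.2 ⟨v1, v2⟩)
      · exact mem_union_right _ (mem_inter.2 ⟨v2, v1⟩)
    have k2 : (K z c ∩ H).card + (K z c ∩ P).card ≤ (K z c).card := by
      rw [← card_union_of_disjoint (hHP.mono inter_subset_right inter_subset_right)]
      exact card_le_card (union_subset inter_subset_left inter_subset_left)
    have k3 : (H.filter fun v => G.Adj c v ∨ v ∈ K z c).card + (K z c ∩ P).card
        ≤ dg G H c + (K z c).card := by omega
    exact_mod_cast k3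

/-- **host inequality with located points** (15856 (1)): `loc` the located members, `ρ v` the row of
`v` (the last sum: columns of that row which pay for `v` without seeing it), `X2 z` the copies of the row `z`, `spr` the spread members, `W z` the located points of the row
`z`; points of `X1` outside `loc` and `spr` bring nothing -/
theorem cmb_host_loc {C : ι → Finset V} (hC : ∀ y, (C y).Nonempty) (hHP : Disjoint H P)
    (htl : ∀ v ∈ H, ∀ a ∈ P, F.Adj v a → tl v ∈ B) {K : ι → V → Finset V}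
    (hK : ∀ z ∈ B, ∀ c ∈ C z, ∀ v ∈ MN G F tl H P z c, ∀ a ∈ P, F.Adj v a → v ∈ K z c ∨ a ∈ K z c)
    (hKP : ∀ z ∈ B, ∀ c ∈ C z, ∀ a ∈ K z c, a ∈ P → G.Adj c a)
    {L : (ι → V) → Finset V} (hLH : ∀ c, L c ⊆ H)
    (hL : ∀ c : ι → V, (∀ y, c y ∈ C y) → ∀ p ∈ H, ∀ q ∈ H, F.Adj p q →
      (∃ z ∈ B, (G.Adj (c z) p ∨ p ∈ K z (c z)) ∨ (G.Adj (c z) q ∨ q ∈ K z (c z))) ∨
        p ∈ L c ∨ q ∈ L c)
    {X1 loc spr : Finset V} {X2 : ι → Finset V} {ρ : V → ι} {lam : ι → ℚ} {k τ : ℚ}
    (hX1 : X1 ⊆ H) (hX2 : ∀ z ∈ B, X2 z ⊆ P) (hlX : loc ⊆ X1) (hsX : spr ⊆ X1)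
    (hls : Disjoint loc spr) (hρ : ∀ v ∈ loc, ρ v ∈ B) (hlam : ∀ z, 0 ≤ lam z) (hk : 0 ≤ k)
    (hloc : ∀ v ∈ loc, lam (ρ v) * (C (ρ v)).card
      ≤ (1 + lam (ρ v)) * ((C (ρ v)).filter fun c => G.Adj c v).card)
    (hspr : ∀ v ∈ spr, 1 ≤ gam B
      (fun z => ((C z).filter fun c => G.Adj c v ∨ v ∈ K z c).card / (C z).card) k)
    (hg : SpGam F tl H P B X1 X2 (fun v => if v ∈ loc then lam (ρ v) else k)
      (fun z _ => lam z) τ) :
    τ + ∑ z ∈ B, lam z * (((loc.filter fun v => ρ v = z) ∪ X2 z).card : ℚ) + spr.card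
      ≤ ∑ z ∈ B, (∑ c ∈ C z, ((dg G H c : ℚ) + (K z c).card
          + lam z * dg G ((loc.filter fun v => ρ v = z) ∪ X2 z) c)) / (C z).card
        + (∑ c ∈ Fintype.piFinset C, ∑ v ∈ L c, (1 + (if v ∈ loc then lam (ρ v) else k)))
          / ∏ y, ((C y).card : ℚ)
        + ∑ v ∈ loc, lam (ρ v)
          * ((C (ρ v)).filter fun c => ¬ G.Adj c v ∧ v ∈ K (ρ v) c).card / (C (ρ v)).card := by
  have hc0 : ∀ y, (0 : ℚ) < (C y).card := fun y => by exact_mod_cast card_pos.2 (hC y)
  have h1 := cmb_host hC hHP htl hK hLH hL hX1 hX2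
    (γ := fun v => if v ∈ loc then lam (ρ v) else k) (δ := fun z _ => lam z)
    (fun v => by
      split_ifs
      · exact hlam _
      · exact hk) hg
  set a : V → ι → ℚ := fun v z =>
    (((C z).filter fun c => G.Adj c v ∨ v ∈ K z c).card : ℚ) / (C z).card with ha
  have ha0 : ∀ v z, 0 ≤ a v z := fun v z => by
    rw [ha]
    positivity
  have ha1 : ∀ v z, a v z ≤ 1 := fun v z => by
    rw [ha]
    refine div_le_one_of_le₀ ?_ (by positivity)
    exact_mod_cast card_filter_le _ _
  -- the seen fraction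
  set s : V → ι → ℚ := fun v z => (((C z).filter fun c => G.Adj c v).card : ℚ) / (C z).card with hs
  have hW : ∀ z ∈ B, (∑ c ∈ C z, lam z * (dg G ((loc.filter fun v => ρ v = z) ∪ X2 z) c : ℚ))
      / (C z).card = ∑ v ∈ loc.filter (fun v => ρ v = z), lam z * s v z
        + ∑ v ∈ X2 z, lam z * s v z := by
    intro z hz
    have e1 : ∀ U : Finset V, ∑ c ∈ C z, (dg G U c : ℚ)
        = ∑ v ∈ U, (((C z).filter fun c => G.Adj c v).card : ℚ) := by
      intro U
      have e2 := dg_comm G U (C z)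
      have e3 : ∀ v ∈ U, dg G (C z) v = ((C z).filter fun c => G.Adj c v).card := by
        intro v _
        unfold dg
        exact congrArg card (filter_congr fun c _ => ⟨fun h => h.symm, fun h => h.symm⟩)
      rw [sum_congr rfl e3] at e2
      exact_mod_cast e2.symm
    have e4 : Disjoint (loc.filter fun v => ρ v = z) (X2 z) := by
      refine hHP.mono ?_ (hX2 z hz)
      exact (filter_subset _ _).trans (hlX.trans hX1)
    rw [← mul_sum, e1, sum_union e4, mul_add, add_div, mul_sum, mul_sum, sum_div, sum_div]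
    congr 1
    · exact sum_congr rfl fun v _ => by rw [hs]; ring
    · exact sum_congr rfl fun v _ => by rw [hs]; ring
  -- the located members
  have hl : ∑ v ∈ loc, lam (ρ v) ≤ ∑ v ∈ loc, gam B (a v) (lam (ρ v))
      + ∑ v ∈ loc, lam (ρ v) * s v (ρ v) + ∑ v ∈ loc, lam (ρ v)
          * ((C (ρ v)).filter fun c => ¬ G.Adj c v ∧ v ∈ K (ρ v) c).card / (C (ρ v)).card := by
    rw [← sum_add_distrib, ← sum_add_distrib]
    refine sum_le_sum fun v hv => ?_
    have e0 : ((C (ρ v)).filter fun c => G.Adj c v ∨ v ∈ K (ρ v) c).card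
        = ((C (ρ v)).filter fun c => G.Adj c v).card
          + ((C (ρ v)).filter fun c => ¬ G.Adj c v ∧ v ∈ K (ρ v) c).card := by
      rw [← card_union_of_disjoint]
      · refine congrArg card ?_
        ext c
        rw [mem_union, mem_filter, mem_filter, mem_filter]
        tauto
      · rw [disjoint_left]
        intro c hc hc'
        exact (mem_filter.1 hc').2.1 (mem_filter.1 hc).2
    have e1 : a v (ρ v) = s v (ρ v)
        + ((C (ρ v)).filter fun c => ¬ G.Adj c v ∧ v ∈ K (ρ v) c).card / (C (ρ v)).card := by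
      rw [ha, hs]
      dsimp only
      rw [e0]
      push_cast
      rw [add_div]
    have e4 : (0 : ℚ) ≤ (((C (ρ v)).filter fun c => ¬ G.Adj c v ∧ v ∈ K (ρ v) c).card : ℚ)
        / (C (ρ v)).card := by positivity
    have e5 : lam (ρ v) ≤ (1 + lam (ρ v)) * s v (ρ v) := by
      rw [hs]
      dsimp only
      rw [← mul_div_assoc, le_div_iff₀ (hc0 _)]
      exact hloc v hv
    have e2 : lam (ρ v) ≤ (1 + lam (ρ v)) * a v (ρ v) := by
      rw [e1, mul_add]
      have := mul_nonneg (by linarith [hlam (ρ v)] : (0 : ℚ) ≤ 1 + lam (ρ v)) e4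
      linarith
    have e3 := gam_good (fun y _ => ha0 v y) (fun y _ => ha1 v y) (hρ v hv) e2
    rw [e1] at e3
    rw [mul_div_assoc]
    linarith
  have hfib : ∀ f : V → ι → ℚ, ∑ v ∈ loc, f v (ρ v)
      = ∑ z ∈ B, ∑ v ∈ loc.filter (fun v => ρ v = z), f v z := by
    intro f
    rw [← sum_fiberwise_of_maps_to hρ]
    refine sum_congr rfl fun z _ => sum_congr rfl fun v hv => ?_
    rw [(mem_filter.1 hv).2]
  -- the points of `X1`
  have hX : ∑ v ∈ loc, gam B (a v) (lam (ρ v)) + spr.card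
      ≤ ∑ v ∈ X1, gam B (a v) (if v ∈ loc then lam (ρ v) else k) := by
    have e1 : loc ∪ spr ⊆ X1 := union_subset hlX hsX
    refine le_trans ?_ (sum_le_sum_of_subset_of_nonneg e1 fun v _ _ =>
      gam_nonneg (fun y _ => ha0 v y) (fun y _ => ha1 v y) (by split_ifs; exacts [hlam _, hk]))
    rw [sum_union hls]
    refine add_le_add (le_of_eq (sum_congr rfl fun v hv => by rw [if_pos hv])) ?_
    have e2 : (spr.card : ℚ) = ∑ v ∈ spr, 1 := by
      rw [sum_const, nsmul_eq_mul, mul_one]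
    rw [e2]
    refine sum_le_sum fun v hv => ?_
    rw [if_neg (disjoint_right.1 hls hv)]
    exact hspr v hv
  -- the copies
  have hcp : ∑ z ∈ B, lam z * ((X2 z).card : ℚ)
      ≤ ∑ z ∈ B, ∑ b ∈ X2 z, lam z * (1 - ((C z).filter fun c => b ∈ K z c).card / (C z).card)
        + ∑ z ∈ B, ∑ b ∈ X2 z, lam z * s b z := by
    rw [← sum_add_distrib]
    refine sum_le_sum fun z hz => ?_
    rw [← sum_add_distrib, ← nsmul_eq_mul' , ← sum_const]
    refine sum_le_sum fun b hb => ?_
    rw [← mul_add]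
    refine le_mul_of_one_le_right (hlam z) ?_
    have e1 : (((C z).filter fun c => b ∈ K z c).card : ℚ) / (C z).card ≤ s b z := by
      rw [hs]
      refine div_le_div_of_nonneg_right ?_ (hc0 z).le
      have : ((C z).filter fun c => b ∈ K z c).card ≤ ((C z).filter fun c => G.Adj c b).card := by
        refine card_le_card fun c hc => ?_
        obtain ⟨c1, c2⟩ := mem_filter.1 hc
        exact mem_filter.2 ⟨c1, hKP z hz c c1 b c2 (hX2 z hz hb)⟩
      exact_mod_cast this
    linarith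
  have hcard : ∀ z ∈ B, (((loc.filter fun v => ρ v = z) ∪ X2 z).card : ℚ)
      = (loc.filter fun v => ρ v = z).card + (X2 z).card := by
    intro z hz
    rw [card_union_of_disjoint (hHP.mono ((filter_subset _ _).trans (hlX.trans hX1)) (hX2 z hz))]
    push_cast
    rfl
  have hL1 : ∑ z ∈ B, lam z * (((loc.filter fun v => ρ v = z) ∪ X2 z).card : ℚ)
      = ∑ v ∈ loc, lam (ρ v) + ∑ z ∈ B, lam z * ((X2 z).card : ℚ) := by
    rw [hfib (fun _ z => lam z), ← sum_add_distrib]
    refine sum_congr rfl fun z hz => ?_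
    rw [hcard z hz, sum_const, nsmul_eq_mul]
    ring
  have hR1 : ∑ z ∈ B, (∑ c ∈ C z, ((dg G H c : ℚ) + (K z c).card
      + lam z * dg G ((loc.filter fun v => ρ v = z) ∪ X2 z) c)) / (C z).card
      = ∑ z ∈ B, (∑ c ∈ C z, ((dg G H c : ℚ) + (K z c).card)) / (C z).card
        + (∑ v ∈ loc, lam (ρ v) * s v (ρ v) + ∑ z ∈ B, ∑ b ∈ X2 z, lam z * s b z) := by
    rw [hfib (fun v z => lam z * s v z), ← sum_add_distrib, ← sum_add_distrib]
    refine sum_congr rfl fun z hz => ?_
    rw [sum_add_distrib, add_div, hW z hz]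
  rw [hL1, hR1]
  linarith

end Host

end Pool.Agent.Lib.MP_f04ccf_co
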