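import Pool.Agent.Lib.MP_f04ccf_co.M.D3H
import Pool.Agent.Lib.MP_f04ccf_co.M.Cmb

/-!
MP_f04ccf_co, note 15856 (2): the row tests with a set `W` of located kills and a residual front, in
the form in which they are added to the load inequality.  `m = |W| + l`, the residual front has at
most `l + q` points.
-/

set_option autoImplicit false

namespace Pool.Agent.Lib.MP_f04ccf_co

open Finset

attribute [local instance] Classical.propDecidable

section CmbR

variable {V : Type*} {G : SimpleGraph V}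

/-- the trivial bound for the missing pairs of a set -/
lemma NE_le_self (W : Finset V) : (NE G W : ℤ) ≤ (W.card : ℤ) * (W.card - 1) := by
  have h1 : NE G W ≤ W.card * (W.card - 1) := by
    unfold NE
    refine (sum_le_card_nsmul _ _ (W.card - 1) fun v hv => ?_).trans (le_of_eq (by simp))
    unfold nd
    have h2 : W.filter (fun w => w ≠ v ∧ ¬ G.Adj v w) ⊆ W.erase v := by
      intro w hw
      obtain ⟨a, b, -⟩ := mem_filter.1 hw
      exact mem_erase.2 ⟨b, a⟩
    refine (card_le_card ?_).trans (card_erase_of_mem hv).le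
    intro w hw
    obtain ⟨a, b⟩ := mem_filter.1 hw
    refine mem_erase.2 ⟨?_, a⟩
    rintro rfl
    simp at b
  rcases Nat.eq_zero_or_pos W.card with h0 | h0
  · rw [h0] at h1 ⊢
    simp only [zero_mul, Nat.le_zero] at h1
    rw [h1]
    simp
  · have h2 : (NE G W : ℤ) ≤ ((W.card * (W.card - 1) : ℕ) : ℤ) := by exact_mod_cast h1
    refine h2.trans (le_of_eq ?_)
    push_cast [Nat.cast_sub h0]
    ring

/-- the cost of a front with `k` points, `m ≤ k ≤ m + q` -/
lemma front_num {m k q : ℤ} (h1 : m ≤ k) (h2 : k ≤ m + q) :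
    2 * k * (2 - m) + k * (k - 1) ≤ m * (3 - m) + q * (q + 3) := by
  have h3 : 0 ≤ (m + q - k) * (k + q + 3 - m) := mul_nonneg (by linarith) (by linarith)
  nlinarith

variable {Z T : Finset V} {hm : V → V} {r m t : ℕ}

/-- **the row test with located kills `W` and a residual front `W'`**: with `c = |CP y|`,
`m = |W| + l = r + 1 - |S y|`, `t = r - 1 - c` it says `e(CP y, W) ≤ |W| c - V`,
`2 V = 2 R - 2 m t - NE (S y) - m (3 - m) - q (q + 3)` -/
theorem CSys.row_loc (hF : PFrame G r m t Z T) (hP : PG G r) {A : Finset V} {S : V → Finset V}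
    (h : CSys G Z T hm A S) {y : V} (hy : y ∈ A) {W W' : Finset V} (hW : Disjoint (S y) W)
    (hW' : Disjoint (S y) W') (hWW : Disjoint W W') {l q : ℕ}
    (hl : ∀ c ∈ CP G Z T S y, l ≤ dg G W' c) (hl' : l ≤ W'.card) (hq : W'.card ≤ l + q)
    (hm : (S y).card + W.card + l = r + 1) :
    2 * ∑ c ∈ CP G Z T S y, (dg G W c : ℤ) + 2 * ∑ v ∈ W ∪ W', (dg G (HP G Z T S y) v : ℤ)
      + (2 * ((r : ℤ) - 1) - 2 * ((W.card : ℤ) + l) * ((r : ℤ) - 1 - (CP G Z T S y).card)
        - NE G (S y) - ((W.card : ℤ) + l) * (3 - ((W.card : ℤ) + l)) - q * (q + 3))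
      ≤ 2 * (W.card : ℤ) * (CP G Z T S y).card := by
  have h1 := h.d3h hF hP hy hW hW' hWW hl
  have h2 : (NE G (W ∪ W') : ℤ) ≤ ((W.card : ℤ) + W'.card) * (((W.card : ℤ) + W'.card) - 1) := by
    have h3 := NE_le_self (G := G) (W ∪ W')
    rw [card_union_of_disjoint hWW] at h3
    push_cast at h3
    exact h3
  have h3 : ((S y).card : ℤ) = r + 1 - W.card - l := by
    have : (((S y).card + W.card + l : ℕ) : ℤ) = ((r + 1 : ℕ) : ℤ) := by rw [hm]
    push_cast at this
    linarith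
  have h4 : (l : ℤ) ≤ W'.card := by exact_mod_cast hl'
  have h5 : (W'.card : ℤ) ≤ l + q := by exact_mod_cast hq
  have h6 := front_num (m := (W.card : ℤ) + l) (k := (W.card : ℤ) + W'.card) (q := q)
    (by linarith) (by linarith)
  rw [h3] at h1
  generalize (NE G (W ∪ W') : ℤ) = a at *
  generalize (NE G (S y) : ℤ) = b at *
  generalize ∑ c ∈ CP G Z T S y, (dg G W c : ℤ) = d at *
  generalize ∑ v ∈ W ∪ W', (dg G (HP G Z T S y) v : ℤ) = e at *
  generalize ((CP G Z T S y).card : ℤ) = c at *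
  generalize (W'.card : ℤ) = w' at *
  generalize (W.card : ℤ) = w at *
  nlinarith

/-- **the row test with located kills only**, `w = |W|` arbitrary:
`2 V = 2 R (|S y| - r + w) - 2 w (|S y| - c) - NE (S y) - NE W` -/
theorem CSys.row_loc0 (hF : PFrame G r m t Z T) (hP : PG G r) {A : Finset V} {S : V → Finset V}
    (h : CSys G Z T hm A S) {y : V} (hy : y ∈ A) {W : Finset V} (hW : Disjoint (S y) W) :
    2 * ∑ c ∈ CP G Z T S y, (dg G W c : ℤ) + 2 * ∑ v ∈ W, (dg G (HP G Z T S y) v : ℤ)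
      + (2 * ((r : ℤ) - 1) * (((S y).card : ℤ) - r + W.card)
        - 2 * (W.card : ℤ) * (((S y).card : ℤ) - (CP G Z T S y).card)
        - NE G (S y) - NE G W)
      ≤ 2 * (W.card : ℤ) * (CP G Z T S y).card := by
  have h1 := h.row_load hF hP hy hW (k := fun c => (dg G W c : ℤ)) (fun c _ => le_refl _)
  linarith

/-- **located kills and residual front in a minimal closed system**, `l ≤ 2`, `q = 2 l` -/
theorem MSys.row_loc (hF : PFrame G r m t Z T) (hP : PG G r) {A : Finset V} {S : V → Finset V}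
    (h : MSys G Z T hm r A S) {y : V} (hy : y ∈ A) (hC : (CP G Z T S y).Nonempty) {W : Finset V}
    (hW : Disjoint (S y) W) {l : ℕ} (hl : l ≤ 2) (hWl : (S y).card + W.card + l = r + 1) :
    2 * ∑ c ∈ CP G Z T S y, (dg G W c : ℤ) + 2 * ∑ v ∈ W, (dg G (HP G Z T S y) v : ℤ)
      + (2 * ((r : ℤ) - 1) - 2 * ((W.card : ℤ) + l) * ((r : ℤ) - 1 - (CP G Z T S y).card)
        - NE G (S y) - ((W.card : ℤ) + l) * (3 - ((W.card : ℤ) + l)) - 2 * l * (2 * l + 3))
      ≤ 2 * (W.card : ℤ) * (CP G Z T S y).card := by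
  obtain ⟨W', h1, h2, h3, h4, -⟩ := h.d3h hF hP hy hW hl (by omega)
  have h6 : Disjoint (S y) W' := by
    rw [disjoint_left]
    intro v hv hv'
    obtain ⟨x, hx, hvx⟩ := mem_biUnion.1 (h1 hv')
    exact disjoint_left.1 (h.toCSys.disj hy (mem_of_mem_erase hx) (ne_of_mem_erase hx).symm) hv
      hvx
  obtain ⟨c, hc⟩ := hC
  have h7 : l ≤ W'.card := (h4 c hc).trans (card_filter_le _ _)
  have h8 := h.toCSys.row_loc hF hP hy hW h6 h2 h4 h7 (q := 2 * l) (by omega) hWl
  have h9 : ∑ v ∈ W, (dg G (HP G Z T S y) v : ℤ)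
      ≤ ∑ v ∈ W ∪ W', (dg G (HP G Z T S y) v : ℤ) :=
    sum_le_sum_of_subset_of_nonneg subset_union_left fun v _ _ => by positivity
  push_cast at h8
  linarith

/-- the same in a minimal home-free system with any homes -/
theorem MHSys.row_loc (hF : PFrame G r m t Z T) (hP : PG G r) {A S : Finset V}
    (h : MHSys G Z T r A S) (hh : ∀ v ∈ S, hm v ∈ A ∧ hm v ∈ rws G T v) {y : V} (hy : y ∈ A)
    {W : Finset V} (hW : Disjoint (S.filter fun v => hm v = y) W) {l : ℕ} (hl : l ≤ 2)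
    (hWl : (S.filter fun v => hm v = y).card + W.card + l = r + 1) :
    2 * ∑ c ∈ S.filter fun v => v ∈ Cl G Z T y, (dg G W c : ℤ)
      + 2 * ∑ v ∈ W, (dg G (HP G Z T (fun x => S.filter fun v => hm v = x) y) v : ℤ)
      + (2 * ((r : ℤ) - 1) - 2 * ((W.card : ℤ) + l)
          * ((r : ℤ) - 1 - (S.filter fun v => v ∈ Cl G Z T y).card)
        - NE G (S.filter fun v => hm v = y)
        - ((W.card : ℤ) + l) * (3 - ((W.card : ℤ) + l)) - 2 * l * (2 * l + 3))
      ≤ 2 * (W.card : ℤ) * (S.filter fun v => v ∈ Cl G Z T y).card := by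
  obtain ⟨W', h1, h2, h3, h4, -⟩ := h.d3h hF hP hh hy hW hl (by omega)
  have h6 : Disjoint (S.filter fun v => hm v = y) W' := by
    rw [disjoint_left]
    intro v hv hv'
    exact (mem_filter.1 (h1 hv')).2.1 (mem_filter.1 hv).2
  have hcp := h.toHSys.CP_eq hh hy
  have h7 : l ≤ W'.card :=
    (h4 y (h.ctr hy) (hF.self_mem_Cl (h.sub hy))).trans (card_filter_le _ _)
  have h8 := (h.toHSys.csys hF hh).row_loc hF hP hy (W := W) (W' := W') (l := l) (q := 2 * l) hW h6
    h2 (by
      rw [hcp]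
      exact fun c hc => h4 c (mem_filter.1 hc).1 (mem_filter.1 hc).2) h7 (by omega) hWl
  rw [hcp] at h8
  have h9 : ∑ v ∈ W, (dg G (HP G Z T (fun x => S.filter fun v => hm v = x) y) v : ℤ)
      ≤ ∑ v ∈ W ∪ W', (dg G (HP G Z T (fun x => S.filter fun v => hm v = x) y) v : ℤ) :=
    sum_le_sum_of_subset_of_nonneg subset_union_left fun v _ _ => by positivity
  push_cast at h8
  linarith

/-- the cost of a front with `k` points, general `g` -/
lemma front_num' {M k q g : ℤ} (h1 : M ≤ k) (h2 : k ≤ M + q) (h3 : 0 ≤ g + M) :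
    2 * k * g + k * (k - 1) ≤ 2 * (M + q) * g + (M + q) * (M + q - 1) := by
  rcases eq_or_lt_of_le h2 with h4 | h4
  · rw [h4]
  · have h5 : 0 ≤ (M + q - k) * (2 * g + 2 * M + (M + q - k) - 1 + 2 * (k - M)) :=
      mul_nonneg (by linarith) (by linarith)
    nlinarith

/-- **the row test, general form**: `M = |W| + l` loads with `M ≥ m - 2`, the front `W'` has at most
`l + q` points; `2 V = 2 R (s + M) - 2 M t - NE (S y) - 2 (M + q) g - (M + q)(M + q - 1)`,
`s = |S y| - r`, `g = s + 1`, `t = R - |CP y|` -/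
theorem CSys.row_gen {V : Type*} {G : SimpleGraph V} {Z T : Finset V} {hm : V → V} {r m t : ℕ}
    (hF : PFrame G r m t Z T) (hP : PG G r) {A : Finset V} {S : V → Finset V}
    (h : CSys G Z T hm A S) {y : V} (hy : y ∈ A) {W W' : Finset V} (hW : Disjoint (S y) W)
    (hW' : Disjoint (S y) W') (hWW : Disjoint W W') {l q : ℕ}
    (hl : ∀ c ∈ CP G Z T S y, l ≤ dg G W' c) (hl' : l ≤ W'.card) (hq : W'.card ≤ l + q)
    (hM : (r : ℤ) ≤ (S y).card + 1 + W.card + l) :
    2 * ∑ c ∈ CP G Z T S y, (dg G W c : ℤ) + 2 * ∑ v ∈ W ∪ W', (dg G (HP G Z T S y) v : ℤ)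
      + (2 * ((r : ℤ) - 1) * (((S y).card : ℤ) - r + W.card + l)
        - 2 * ((W.card : ℤ) + l) * ((r : ℤ) - 1 - (CP G Z T S y).card) - NE G (S y)
        - 2 * ((W.card : ℤ) + l + q) * (((S y).card : ℤ) - r + 1)
        - ((W.card : ℤ) + l + q) * ((W.card : ℤ) + l + q - 1))
      ≤ 2 * (W.card : ℤ) * (CP G Z T S y).card := by
  have h1 := h.d3h hF hP hy hW hW' hWW hl
  have h2 : (NE G (W ∪ W') : ℤ) ≤ ((W.card : ℤ) + W'.card) * (((W.card : ℤ) + W'.card) - 1) := by
    have h3 := NE_le_self (G := G) (W ∪ W')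
    rw [card_union_of_disjoint hWW] at h3
    push_cast at h3
    exact h3
  have h4 : (l : ℤ) ≤ W'.card := by exact_mod_cast hl'
  have h5 : (W'.card : ℤ) ≤ l + q := by exact_mod_cast hq
  have h6 := front_num' (M := (W.card : ℤ) + l) (k := (W.card : ℤ) + W'.card) (q := q)
    (g := ((S y).card : ℤ) - r + 1) (by linarith) (by linarith) (by linarith)
  generalize (NE G (W ∪ W') : ℤ) = a at *
  generalize (NE G (S y) : ℤ) = b at *
  generalize ∑ c ∈ CP G Z T S y, (dg G W c : ℤ) = d at *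
  generalize ∑ v ∈ W ∪ W', (dg G (HP G Z T S y) v : ℤ) = e at *
  generalize ((CP G Z T S y).card : ℤ) = c at *
  generalize (W'.card : ℤ) = w' at *
  generalize (W.card : ℤ) = w at *
  generalize ((S y).card : ℤ) = s at *
  nlinarith

/-- **adding the row tests** with multipliers `μ y` to a load inequality in which the located kills
have been counted with `c y` per unit of `μ y` -/
theorem combo_sum {ι : Type*} {A : Finset ι} {μ V w e c : ι → ℚ} {T E : ℚ}
    (hμ : ∀ y ∈ A, 0 ≤ μ y) (hrow : ∀ y ∈ A, e y + V y ≤ w y * c y)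
    (hmain : T + ∑ y ∈ A, μ y * (w y * c y) ≤ E + ∑ y ∈ A, μ y * e y) :
    T + ∑ y ∈ A, μ y * V y ≤ E := by
  have h1 : ∑ y ∈ A, (μ y * e y + μ y * V y) ≤ ∑ y ∈ A, μ y * (w y * c y) :=
    sum_le_sum fun y hy => by
      rw [← mul_add]
      exact mul_le_mul_of_nonneg_left (hrow y hy) (hμ y hy)
  rw [sum_add_distrib] at h1
  linarith

end CmbR

end Pool.Agent.Lib.MP_f04ccf_co
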