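import Pool.Agent.Lib.MP_f04ccf_co.M.Low

/-!
MP_f04ccf_co: closed neighbourhoods of independent sets and the codegree law in `MIN-U`.
-/

set_option autoImplicit false

namespace Pool.Agent.Lib.MP_f04ccf_co.Mn

open Finset

attribute [local instance] Classical.propDecidable

variable {V : Type*} {r : ℕ} {c : V → V → Fin r} {hc : ∀ x y, c x y = c y x}
  {U0 U : Finset V} {i : Fin r} {k : ℕ}

/-- closed neighbourhood of a set inside `U` -/
noncomputable def NJ (G : SimpleGraph V) (U J : Finset V) : Finset V :=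
  U.filter (fun v => v ∈ J ∨ ∃ u ∈ J, G.Adj u v)

lemma mem_NJ {G : SimpleGraph V} {U J : Finset V} {v : V} :
    v ∈ NJ G U J ↔ v ∈ U ∧ (v ∈ J ∨ ∃ u ∈ J, G.Adj u v) := mem_filter

/-- `|N[J]| ≥ |J| r + 1` for independent nonempty `J` -/
lemma MinU.NJ_ge (h : MinU hc U0 i k U) {J : Finset V} (hJ : J ⊆ U) (hi : Ind (col c hc i) J)
    (hne : J.Nonempty) : J.card * r + 1 ≤ (NJ (col c hc i) U J).card := by
  set G := col c hc i with hG
  by_contra hlt
  have hJk : J.card ≤ k := h.alpha J hJ hi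
  have hJ1 : 1 ≤ J.card := card_pos.2 hne
  have h1 := card_sdiff_add_card_eq_card (show NJ G U J ⊆ U from filter_subset _ _)
  obtain ⟨l, hl⟩ : ∃ l, k = l + J.card := ⟨k - J.card, by omega⟩
  have h2 : k * r = l * r + J.card * r := by rw [hl]; ring
  have h3 := h.her (U \ NJ G U J) sdiff_subset l (by omega) (by have := h.card; omega)
  unfold AlphaLe at h3
  push Not at h3
  obtain ⟨I, hI, hIi, hIc⟩ := h3
  have hdisj : Disjoint I J := by
    rw [disjoint_left]
    intro x hx hxJ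
    exact (mem_sdiff.1 (hI hx)).2 (mem_NJ.2 ⟨hJ hxJ, Or.inl hxJ⟩)
  have h4 : Ind G (I ∪ J) := by
    intro x hx y hy hxy
    rw [mem_union] at hx hy
    rcases hx with hx | hx <;> rcases hy with hy | hy
    · exact hIi x hx y hy hxy
    · exact (mem_sdiff.1 (hI hx)).2 (mem_NJ.2 ⟨(mem_sdiff.1 (hI hx)).1, Or.inr ⟨y, hy, hxy.symm⟩⟩)
    · exact (mem_sdiff.1 (hI hy)).2 (mem_NJ.2 ⟨(mem_sdiff.1 (hI hy)).1, Or.inr ⟨x, hx, hxy⟩⟩)
    · exact hi x hx y hy hxy
  have h5 := h.alpha (I ∪ J) (union_subset (hI.trans sdiff_subset) hJ) h4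
  rw [card_union_of_disjoint hdisj] at h5
  omega

/-- number of common neighbours in `U` -/
noncomputable def cdg (G : SimpleGraph V) (U : Finset V) (u v : V) : ℕ :=
  (U.filter (fun z => G.Adj u z ∧ G.Adj v z)).card

/-- the codegree law -/
lemma MinU.codeg (h : MinU hc U0 i k U) {u v : V} (hu : u ∈ U) (hv : v ∈ U) (huv : u ≠ v)
    (hadj : ¬ (col c hc i).Adj u v) :
    (cdg (col c hc i) U u v : ℤ) ≤
      1 + ((dg (col c hc i) U u : ℤ) - r) + ((dg (col c hc i) U v : ℤ) - r) := by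
  set G := col c hc i with hG
  have hi : Ind G {u, v} := by
    intro a ha b hb hab
    simp only [mem_insert, mem_singleton] at ha hb
    rcases ha with rfl | rfl <;> rcases hb with rfl | rfl
    · exact hab.ne rfl
    · exact hadj hab
    · exact hadj hab.symm
    · exact hab.ne rfl
  have h1 := h.NJ_ge (J := {u, v}) (by
    intro a ha
    simp only [mem_insert, mem_singleton] at ha
    rcases ha with rfl | rfl
    · exact hu
    · exact hv) hi ⟨u, mem_insert_self _ _⟩
  rw [← hG] at h1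
  have h2 : ({u, v} : Finset V).card = 2 := by
    rw [card_insert_of_notMem (by rwa [mem_singleton]), card_singleton]
  rw [h2] at h1
  have h3 : NJ G U {u, v} = nb G U u ∪ nb G U v := by
    ext z
    simp only [mem_NJ, mem_union, nb, mem_filter, mem_insert, mem_singleton]
    constructor
    · rintro ⟨g1, (g2 | g2) | ⟨w, g2 | g2, hw⟩⟩
      · exact Or.inl ⟨g1, Or.inl g2⟩
      · exact Or.inr ⟨g1, Or.inl g2⟩
      · exact Or.inl ⟨g1, Or.inr (g2 ▸ hw)⟩
      · exact Or.inr ⟨g1, Or.inr (g2 ▸ hw)⟩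
    · rintro (⟨g1, g2 | g2⟩ | ⟨g1, g2 | g2⟩)
      · exact ⟨g1, Or.inl (Or.inl g2)⟩
      · exact ⟨g1, Or.inr ⟨u, Or.inl rfl, g2⟩⟩
      · exact ⟨g1, Or.inl (Or.inr g2)⟩
      · exact ⟨g1, Or.inr ⟨v, Or.inr rfl, g2⟩⟩
  have h4 : U.filter (fun z => G.Adj u z ∧ G.Adj v z) ⊆ nb G U u ∩ nb G U v := by
    intro z hz
    rw [mem_filter] at hz
    rw [mem_inter, nb, nb, mem_filter, mem_filter]
    exact ⟨⟨hz.1, Or.inr hz.2.1⟩, ⟨hz.1, Or.inr hz.2.2⟩⟩
  have h5 := card_le_card h4
  have h6 := card_union_add_card_inter (nb G U u) (nb G U v)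
  rw [nb_card G hu, nb_card G hv, ← h3] at h6
  unfold cdg
  omega

/-- a vertex with `e` neighbours in a clique: every nonneighbour in the clique has large excess -/
lemma MinU.clq_out (h : MinU hc U0 i k U) {K : Finset V} (hK : K ⊆ U) (hq : Clq (col c hc i) K)
    {w a : V} (hw : w ∈ U) (hwK : w ∉ K) (ha : a ∈ K) (hwa : ¬ (col c hc i).Adj w a) :
    (dg (col c hc i) K w : ℤ) ≤
      1 + ((dg (col c hc i) U w : ℤ) - r) + ((dg (col c hc i) U a : ℤ) - r) := by
  set G := col c hc i with hG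
  have hne : w ≠ a := fun h' => hwK (h' ▸ ha)
  refine le_trans ?_ (h.codeg hw (hK ha) hne hwa)
  have : dg G K w ≤ cdg G U w a := by
    refine card_le_card fun z hz => ?_
    rw [mem_filter] at hz ⊢
    refine ⟨hK hz.1, hz.2, hq a ha z hz.1 ?_⟩
    rintro rfl
    exact hwa hz.2
  exact_mod_cast this

end Pool.Agent.Lib.MP_f04ccf_co.Mn
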