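import Pool.Agent.Lib.MP_f04ccf_co.M.RowXP

/-!
MP_f04ccf_co, TEXT D, regime H: **the second order of a column for contents of any value** (cliques, blocks, hosted).

Letters: `M` PC pairs of the cell, `k`, `κ`, `κ₁` the levels, the number, the number of value one of the used plain items
of the host `y`, `E = M + k`, `m` the kept hosted value (with the kept PC pairs `b` of other tails), `G` the dropped
hosted items, `D = d + G`, `q = be y z`, `#` the used items with another end.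

* `csRW_gen`: the remainder in closed form;
* `ColG.base`: `2 E (D - E) + 2 κ₁ (D - 1 - (κ - κ₁)) ≤` the part without hosted items, for `E ≤ D`;
* `csRW_ge`: `csRW ≥ 2 E (D - E) + 2 κ₁ (D - 1 - (κ - κ₁)) + 2 m (D - E - κ) - (m² - m - minP) - csNW + 2 (t - A) b - 2 q #`;
* `LevC.colG`: the load of a column against its test in these letters, any content;
* `LevC.colG0`: nothing hosted kept, block pairs of other tails out; `LevC.colG1`: contents of value one.
-/

set_option autoImplicit false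

namespace Pool.Agent.Lib.MP_f04ccf_co

open Finset

attribute [local instance] Classical.propDecidable

namespace ColG

/-- **the part of a column without hosted items**, `j = k - κ` the items used at level two -/
lemma base {M k κ κ₁ D : ℤ} (hM : 0 ≤ M) (h3 : κ ≤ k)
    (h4 : k - κ ≤ κ - κ₁) (hE : M + k ≤ D) :
    2 * ((M + k) * (D - (M + k))) + 2 * (κ₁ * (D - 1 - (κ - κ₁)))
      ≤ (M + k + κ) * (2 * D - (M + k + κ)) - M ^ 2 + (k - κ) + 2 * (κ₁ * (κ₁ - 1)) := by
  obtain ⟨j, hj⟩ : ∃ j, j = k - κ := ⟨_, rfl⟩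
  obtain ⟨c, hc⟩ : ∃ c, c = κ - κ₁ - j := ⟨_, rfl⟩
  obtain ⟨x, hx⟩ : ∃ x, x = D - (M + k) := ⟨_, rfl⟩
  have ek : k = κ₁ + c + 2 * j := by rw [hc, hj]; linarith
  have eκ : κ = κ₁ + c + j := by rw [hc]; ring
  have eD : D = M + κ₁ + c + 2 * j + x := by rw [hx]; linarith
  have hj0 : 0 ≤ j := by rw [hj]; linarith
  have hc0 : 0 ≤ c := by rw [hc, hj]; linarith
  have hx0 : 0 ≤ x := by rw [hx]; linarith
  rw [eD, ek, eκ]
  nlinarith [mul_nonneg hc0 hM, mul_nonneg hc0 hx0, mul_nonneg hc0 hj0, mul_nonneg hj0 hM,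
    mul_nonneg hj0 hj0, mul_nonneg hj0 hx0]

end ColG

section ColG

variable {ι : Type*} {R : ℤ} {n : ℕ} {t s mu : ℕ → ℤ} {U : Finset ι} {ho : ι → ℕ} {vl : ι → ℤ}
  {kp mn : ℕ → ι → ℤ} {pc ar : ι → ℤ} {be kq NN sg : ℕ → ℕ → ℤ} {nu : ℕ → ι → ℤ} {z y : ℕ}
  {φ : ι → ℕ → ℤ} {g : ℕ → ι → ℕ} {f : ι → ℕ}

/-- **the remainder of a column in closed form, any content** -/
theorem csRW_gen {P : Finset ι} {X Y : Finset ℕ} {V : Finset ι} {d m b M k κ κ₁ W D : ℤ}
    (hQ : ((csQ pc V).card : ℤ) = be y z) (hb : b = csBW n be kq z y X Y)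
    (hm : m = ∑ u ∈ P, vl u + b) (hM : M = be z y + be y z)
    (hk : k = ∑ u ∈ csK pc V, (g z u : ℤ)) (hκ : κ = ((csK pc V).card : ℤ))
    (hκ₁ : κ₁ = (((csK pc V).filter fun u => vl u = 1).card : ℤ)) (hW : W = m + M + k + κ)
    (hD : D = d + (((hsZ U ho pc z).card : ℤ) - (P.card : ℤ))) :
    csRW n t U ho vl kp pc be kq NN sg g z y d P X Y V
      = 2 * ((t y - (t z + 1)) * b) + (W * (2 * D - W) - M ^ 2 + m + (k - κ)
        + 2 * (κ₁ * (κ₁ - 1))) + ∑ e ∈ P.offDiag, min (vl e.1) (vl e.2)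
        - csNW n kp be kq NN sg z y P X Y
        - 2 * (be y z * ((V.filter fun u => othE n kp z u).card : ℤ)) := by
  have h1 : ∑ u ∈ P, vl u = m - b := by rw [hm]; ring
  have h2 : be z y = M - be y z := by rw [hM]; ring
  unfold csRW csEW
  rw [hQ, ← hk, ← hκ, ← hκ₁, ← hb, h1, ← hD, h2, hW]
  ring

/-- **the remainder of a column from below, any content** -/
theorem csRW_ge {P : Finset ι} {X Y : Finset ℕ} {V : Finset ι} {d m b M k κ κ₁ D : ℤ}
    (hQ : ((csQ pc V).card : ℤ) = be y z) (hb : b = csBW n be kq z y X Y)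
    (hm : m = ∑ u ∈ P, vl u + b) (hM : M = be z y + be y z)
    (hk : k = ∑ u ∈ csK pc V, (g z u : ℤ)) (hκ : κ = ((csK pc V).card : ℤ))
    (hκ₁ : κ₁ = (((csK pc V).filter fun u => vl u = 1).card : ℤ))
    (hD : D = d + (((hsZ U ho pc z).card : ℤ) - (P.card : ℤ)))
    (hM0 : 0 ≤ M) (h3 : κ ≤ k) (h4 : k - κ ≤ κ - κ₁) (hE : M + k ≤ D) :
    2 * ((M + k) * (D - (M + k))) + 2 * (κ₁ * (D - 1 - (κ - κ₁)))
        + 2 * (m * (D - (M + k + κ)))
        - (m ^ 2 - m - ∑ e ∈ P.offDiag, min (vl e.1) (vl e.2))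
        - csNW n kp be kq NN sg z y P X Y + 2 * ((t y - (t z + 1)) * b)
        - 2 * (be y z * ((V.filter fun u => othE n kp z u).card : ℤ))
      ≤ csRW n t U ho vl kp pc be kq NN sg g z y d P X Y V := by
  have h5 := ColG.base hM0 h3 h4 hE
  rw [csRW_gen hQ hb hm hM hk hκ hκ₁ rfl hD]
  nlinarith [h5]

/-- the levels of the used plain items: at most two, one for the items of value one -/
lemma LevC.lev_two (C : LevC n U ho vl kp mn pc φ g f)
    (H : PCon R n t s mu U ho vl kp mn pc ar be kq NN sg nu) (hz : z < n) {V : Finset ι}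
    (hV : V ⊆ U.filter fun u => ho u = y ∧ g z u ≠ 0) :
    ((csK pc V).card : ℤ) ≤ ∑ u ∈ csK pc V, (g z u : ℤ) ∧
      ∑ u ∈ csK pc V, (g z u : ℤ) - ((csK pc V).card : ℤ)
        ≤ ((csK pc V).card : ℤ) - (((csK pc V).filter fun u => vl u = 1).card : ℤ) := by
  have h0 : ∀ u ∈ csK pc V, u ∈ U ∧ g z u ≠ 0 := fun u hu => by
    obtain ⟨h1, -⟩ := mem_filter.1 hu
    obtain ⟨h3, h4⟩ := mem_filter.1 (hV h1)
    exact ⟨h3, h4.2⟩
  constructor
  · rw [card_eq_sum_ones]
    push_cast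
    refine sum_le_sum fun u hu => ?_
    have := (h0 u hu).2
    omega
  · rw [card_filter, card_eq_sum_ones]
    push_cast
    rw [← sum_sub_distrib, ← sum_sub_distrib]
    refine sum_le_sum fun u hu => ?_
    obtain ⟨h1, h2⟩ := h0 u hu
    have h3 := C.le u h1 z hz
    have h4 := H.kv u h1 z hz
    have h5 := H.k2 u h1 z hz
    split_ifs with h6
    · rw [h6] at h4
      linarith
    · linarith

/-- **THE LOAD OF A COLUMN AGAINST ITS TEST, ANY CONTENT** -/
theorem LevC.colG (C : LevC n U ho vl kp mn pc φ g f)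
    (H : PConC R n t s mu U ho vl kp mn pc ar be kq NN sg nu) (hz : z < n) (hzR : t z + 1 < R)
    (hy : y ∈ (range n).erase z) {P : ℕ → Finset ι} (hP : P y ⊆ hsZ U ho pc z) {X Y : Finset ℕ}
    (hX : X ⊆ ((range n).erase z).erase y) (hY : Y ⊆ X) {K : Finset ι}
    (hK : K ⊆ U.filter fun u => g z u ≠ 0) {m b M k κ κ₁ D : ℤ}
    (hQ : ((csQ pc (K.filter fun u => ho u = y)).card : ℤ) = be y z)
    (hb : b = csBW n be kq z y X Y) (hm : m = ∑ u ∈ P y, vl u + b) (hM : M = be z y + be y z)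
    (hk : k = ∑ u ∈ csK pc (K.filter fun u => ho u = y), (g z u : ℤ))
    (hκ : κ = ((csK pc (K.filter fun u => ho u = y)).card : ℤ))
    (hκ₁ : κ₁ = (((csK pc (K.filter fun u => ho u = y)).filter fun u => vl u = 1).card : ℤ))
    (hD : D = mu z - s z + (((hsZ U ho pc z).card : ℤ) - ((P y).card : ℤ))) (hE : M + k ≤ D) :
    ((R : ℝ) - ((t z : ℝ) + 1)) * pY R n t U ho vl kp mn pc be g z P K y
        + (((M + k) * (D - (M + k)) + κ₁ * (D - 1 - (κ - κ₁)) + m * (D - (M + k + κ)) : ℤ) : ℝ)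
        - (1 / 2) * ((m ^ 2 - m - ∑ e ∈ (P y).offDiag, min (vl e.1) (vl e.2)
          + csNW n kp be kq NN sg z y (P y) X Y : ℤ) : ℝ)
        + (((t y - (t z + 1)) * b - be y z * (((K.filter fun u => ho u = y).filter
          fun u => othE n kp z u).card : ℤ) : ℤ) : ℝ)
      ≤ (t y : ℝ) * ((mu z : ℝ) - s z) + ((R : ℝ) - t y) := by
  have hyn : y < n := mem_range.1 (mem_of_mem_erase hy)
  have hV : (K.filter fun u => ho u = y) ⊆ U.filter fun u => ho u = y ∧ g z u ≠ 0 := by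
    intro u hu
    obtain ⟨h1, h2⟩ := mem_filter.1 hu
    obtain ⟨h3, h4⟩ := mem_filter.1 (hK h1)
    exact mem_filter.2 ⟨h3, h2, h4⟩
  obtain ⟨h3, h4⟩ := C.lev_two H.toPCon hz hV
  have h1 := C.pY_col H hz hzR hy hP hX hY hK
  have h2 := csRW_ge (t := t) (NN := NN) (sg := sg) (kp := kp) hQ hb hm hM hk hκ hκ₁ hD
    (by rw [hM]; exact add_nonneg (H.be0 z hz y hyn) (H.be0 y hyn z hz))
    (by rw [hk, hκ]; exact h3) (by rw [hk, hκ, hκ₁]; exact h4) hE
  have h2' : ((2 * ((M + k) * (D - (M + k))) + 2 * (κ₁ * (D - 1 - (κ - κ₁)))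
        + 2 * (m * (D - (M + k + κ)))
        - (m ^ 2 - m - ∑ e ∈ (P y).offDiag, min (vl e.1) (vl e.2))
        - csNW n kp be kq NN sg z y (P y) X Y + 2 * ((t y - (t z + 1)) * b)
        - 2 * (be y z * (((K.filter fun u => ho u = y).filter
          fun u => othE n kp z u).card : ℤ)) : ℤ) : ℝ)
      ≤ (csRW n t U ho vl kp pc be kq NN sg g z y (mu z - s z) (P y) X Y
          (K.filter fun u => ho u = y) : ℝ) := by
    exact_mod_cast h2
  push_cast at h2' ⊢
  linarith

/-- **nothing hosted kept, all other PC pairs out**: the price is the dropped block pairs (`csNW`) -/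
theorem LevC.colG0 (C : LevC n U ho vl kp mn pc φ g f)
    (H : PConC R n t s mu U ho vl kp mn pc ar be kq NN sg nu) (hz : z < n) (hzR : t z + 1 < R)
    (hy : y ∈ (range n).erase z) {P : ℕ → Finset ι} (hP : P y = ∅) {K : Finset ι}
    (hK : K ⊆ U.filter fun u => g z u ≠ 0) {M k κ κ₁ D : ℤ}
    (hQ : ((csQ pc (K.filter fun u => ho u = y)).card : ℤ) = be y z)
    (hM : M = be z y + be y z)
    (hk : k = ∑ u ∈ csK pc (K.filter fun u => ho u = y), (g z u : ℤ))
    (hκ : κ = ((csK pc (K.filter fun u => ho u = y)).card : ℤ))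
    (hκ₁ : κ₁ = (((csK pc (K.filter fun u => ho u = y)).filter fun u => vl u = 1).card : ℤ))
    (hD : D = mu z - s z + ((hsZ U ho pc z).card : ℤ)) (hE : M + k ≤ D) :
    ((R : ℝ) - ((t z : ℝ) + 1)) * pY R n t U ho vl kp mn pc be g z P K y
        + (((M + k) * (D - (M + k)) + κ₁ * (D - 1 - (κ - κ₁)) : ℤ) : ℝ)
        - ((∑ l ∈ ((range n).erase z).erase y, (be z l - kq z l) * sg z l : ℤ) : ℝ)
        - ((be y z * (((K.filter fun u => ho u = y).filter fun u => othE n kp z u).card : ℤ) : ℤ) : ℝ)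
      ≤ (t y : ℝ) * ((mu z : ℝ) - s z) + ((R : ℝ) - t y) := by
  have e1 : csBW n be kq z y (((range n).erase z).erase y) (((range n).erase z).erase y) = 0 := by
    unfold csBW
    simp
  have e2 : csNW n kp be kq NN sg z y (P y) (((range n).erase z).erase y)
      (((range n).erase z).erase y)
      = 2 * ∑ l ∈ ((range n).erase z).erase y, (be z l - kq z l) * sg z l := by
    unfold csNW
    rw [hP]
    simp
  have h1 := C.colG H hz hzR hy (P := P) (by rw [hP]; exact empty_subset _) (Subset.refl _)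
    (Subset.refl _) hK (m := 0) (b := 0) hQ e1.symm (by rw [hP]; simp) hM hk hκ hκ₁
    (D := D) (by rw [hP, hD]; simp) hE
  rw [e2, hP] at h1
  simp only [offDiag_empty, sum_empty, zero_mul, mul_zero, add_zero, sub_zero, ne_eq,
    OfNat.ofNat_ne_zero, not_false_eq_true, zero_pow, zero_add, zero_sub] at h1
  push_cast at h1 ⊢
  linarith

/-- **contents of value one, everything hosted kept, Konig pairs of other tails out**: `h` hosted plain units -/
theorem LevC.colG1 (C : LevC n U ho vl kp mn pc φ g f)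
    (H : PConC R n t s mu U ho vl kp mn pc ar be kq NN sg nu) (hz : z < n) (hzR : t z + 1 < R)
    (hy : y ∈ (range n).erase z) {P : ℕ → Finset ι} (hP : P y = hsZ U ho pc z)
    (h1 : ∀ u ∈ hsZ U ho pc z, vl u = 1) {K : Finset ι}
    (hK : K ⊆ U.filter fun u => g z u ≠ 0) {h b M k κ κ₁ D : ℤ}
    (hQ : ((csQ pc (K.filter fun u => ho u = y)).card : ℤ) = be y z)
    (hh : h = ((hsZ U ho pc z).card : ℤ))
    (hb : b = ∑ l ∈ ((range n).erase z).erase y, (be z l - kq z l)) (hM : M = be z y + be y z)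
    (hk : k = ∑ u ∈ csK pc (K.filter fun u => ho u = y), (g z u : ℤ))
    (hκ : κ = ((csK pc (K.filter fun u => ho u = y)).card : ℤ))
    (hκ₁ : κ₁ = (((csK pc (K.filter fun u => ho u = y)).filter fun u => vl u = 1).card : ℤ))
    (hD : D = mu z - s z) (hE : M + k ≤ D) :
    ((R : ℝ) - ((t z : ℝ) + 1)) * pY R n t U ho vl kp mn pc be g z P K y
        + (((M + k) * (D - (M + k)) + κ₁ * (D - 1 - (κ - κ₁))
          + (h + b) * (D - (M + k + κ)) : ℤ) : ℝ)
        - (1 / 2) * ((2 * (h * b) + b * (b - 1)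
          + ∑ l ∈ ((range n).erase z).erase y, (be z l - kq z l) * (be z l - kq z l + 1) : ℤ) : ℝ)
        + (((t y - (t z + 1)) * b - be y z * (((K.filter fun u => ho u = y).filter
          fun u => othE n kp z u).card : ℤ) : ℤ) : ℝ)
      ≤ (t y : ℝ) * ((mu z : ℝ) - s z) + ((R : ℝ) - t y) := by
  have e1 : csBW n be kq z y (((range n).erase z).erase y) ∅ = b := by
    unfold csBW
    rw [hb]
    simp
  have e2 : csNW n kp be kq NN sg z y (P y) (((range n).erase z).erase y) ∅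
      = ∑ l ∈ ((range n).erase z).erase y, (be z l - kq z l) * (be z l - kq z l + 1) := by
    unfold csNW
    simp
  have e3 : ∑ u ∈ P y, vl u = h := by
    rw [hP, hh, card_eq_sum_ones]
    push_cast
    exact sum_congr rfl fun u hu => h1 u hu
  have e4 : ∑ e ∈ (P y).offDiag, min (vl e.1) (vl e.2) = h * (h - 1) := by
    rw [offD_one (fun u hu => h1 u (by rw [← hP]; exact hu)), hP, ← hh]
  have h2 := C.colG H hz hzR hy (P := P) (by rw [hP]) (Subset.refl _)
    (empty_subset _) hK (m := h + b) (b := b) hQ e1.symm (by rw [e3]) hM hk hκ hκ₁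
    (D := D) (by rw [hP, hD]; ring) hE
  rw [e2, e4] at h2
  push_cast at h2 ⊢
  linarith

end ColG

end Pool.Agent.Lib.MP_f04ccf_co
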