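import Pool.Agent.Lib.MP_f04ccf_co.M.RowXP

/-!
MP_f04ccf_co, TEXT D, regime H: **a column of value one in p-form** (18's `F_l`).

Letters: `h` kept plain hosted items, `D = d +` the dropped ones, `b` kept PC pairs of other tails, `M = be z y + be y z`,
`k` used plain items of the host `y`, `o` the ones with another end, `q = be y z`, `X = h + b + M + k`, `p = pY y`,
`β = X - p`.

* `LevC.colP_one`: `c p + p (D - p) + β (D - 2 X) + β² + (h + b) (h + b + M) + k (D - 1) - q o + (t_y - A) b - h b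
  - b (b - 1) / 2 - csNW / 2 ≤ t_y d + R - t_y`;
* `LevC.colP_srv`: no plain hosted item, blocks kept or none: `c p + p (d - p) + k (d - 1 - q) + β (d - 2 X) + β² ≤ ..`;
* `LevC.pY_one`, `LevC.eT_one`: the loads in letters; `LevC.sum_pY`: no plain hosted item: `∑ p_y =` the load of the row
  test without the arcs; `LevC.need_N`: `(R - 2 e) (e - d) ≤ A e + B`.
-/

set_option autoImplicit false

namespace Pool.Agent.Lib.MP_f04ccf_co

open Finset

attribute [local instance] Classical.propDecidable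

section ColP1

variable {ι : Type*} {R : ℤ} {n : ℕ} {t s mu : ℕ → ℤ} {U : Finset ι} {ho : ι → ℕ} {vl : ι → ℤ}
  {kp mn : ℕ → ι → ℤ} {pc ar : ι → ℤ} {be kq NN sg : ℕ → ℕ → ℤ} {nu : ℕ → ι → ℤ} {z y : ℕ}
  {φ : ι → ℕ → ℤ} {g : ℕ → ι → ℕ} {f : ι → ℕ}

/-- **a column of value one in p-form** -/
theorem LevC.colP_one (C : LevC n U ho vl kp mn pc φ g f)
    (H : PConC R n t s mu U ho vl kp mn pc ar be kq NN sg nu) (hz : z < n) (hzR : t z + 1 < R)
    (hy : y ∈ (range n).erase z) {P : ℕ → Finset ι} (hP : P y ⊆ hsZ U ho pc z) {X Y : Finset ℕ}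
    (hX : X ⊆ ((range n).erase z).erase y) (hY : Y ⊆ X) {K : Finset ι}
    (hK : K ⊆ U.filter fun u => g z u ≠ 0) {h b M k o D x p β c d : ℝ}
    (hQ : ((csQ pc (K.filter fun u => ho u = y)).card : ℤ) = be y z)
    (hP1 : ∀ u ∈ P y, vl u = 1)
    (hV : ∀ u ∈ csK pc (K.filter fun u => ho u = y), vl u = 1 ∧ g z u = 1)
    (hh : h = ((P y).card : ℝ)) (hb : b = (csBW n be kq z y X Y : ℝ))
    (hM : M = (be z y : ℝ) + be y z) (hk : k = ((csK pc (K.filter fun u => ho u = y)).card : ℝ))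
    (ho' : o = (((K.filter fun u => ho u = y).filter fun u => othE n kp z u).card : ℝ))
    (hd : d = (mu z : ℝ) - s z) (hD : D = d + (((hsZ U ho pc z).card : ℝ) - ((P y).card : ℝ)))
    (hc : c = (R : ℝ) - ((t z : ℝ) + 1)) (hx : x = h + b + M + k)
    (hp : p = pY R n t U ho vl kp mn pc be g z P K y) (hβ : β = x - p) :
    c * p + p * (D - p) + β * (D - 2 * x) + β ^ 2 + (h + b) * (h + b + M) + k * (D - 1)
        - be y z * o + ((t y : ℝ) - ((t z : ℝ) + 1)) * b - h * b - b * (b - 1) / 2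
        - (csNW n kp be kq NN sg z y (P y) X Y : ℝ) / 2
      ≤ (t y : ℝ) * d + ((R : ℝ) - t y) := by
  have h1 := C.pY_col H hz hzR hy hP hX hY hK
  have h2 := csRW_one (n := n) (t := t) (U := U) (ho := ho) (vl := vl) (kp := kp)
    (pc := pc) (be := be) (kq := kq) (NN := NN) (sg := sg) (z := z) (y := y) (g := g) (P := P y) (X := X) (Y := Y)
    (V := K.filter fun u => ho u = y) (d := mu z - s z) (h := ((P y).card : ℤ))
    (b := csBW n be kq z y X Y) (M := be z y + be y z)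
    (k := ((csK pc (K.filter fun u => ho u = y)).card : ℤ))
    (D := mu z - s z + (((hsZ U ho pc z).card : ℤ) - ((P y).card : ℤ))) hQ hP1 hV rfl rfl rfl rfl rfl
  rw [h2, ← hc, ← hp] at h1
  push_cast at h1
  rw [← hh, ← hb, ← hM, ← hk, ← ho', ← hd] at h1
  rw [← hh] at hD
  rw [← hD] at h1
  have e1 : p * (D - p) + β * (D - 2 * x) + β ^ 2 = x * (D - x) := by
    rw [hβ]
    ring
  have e2 : x * (D - x) + (h + b) * (h + b + M) + k * (D - 1)
      = (h + b + M) * (D - M) + 2 * (k * (D - h - b - M)) - k ^ 2 - k := by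
    rw [hx]
    ring
  have e3 : c * p + p * (D - p) + β * (D - 2 * x) + β ^ 2 + (h + b) * (h + b + M) + k * (D - 1)
        - be y z * o + ((t y : ℝ) - ((t z : ℝ) + 1)) * b - h * b - b * (b - 1) / 2
        - (csNW n kp be kq NN sg z y (P y) X Y : ℝ) / 2
      = c * p + ((h + b + M) * (D - M) + 2 * (k * (D - h - b - M)) - k ^ 2 - k)
        - be y z * o + ((t y : ℝ) - ((t z : ℝ) + 1)) * b - h * b - b * (b - 1) / 2
        - (csNW n kp be kq NN sg z y (P y) X Y : ℝ) / 2 := by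
    rw [← e2, ← e1]
    ring
  rw [e3]
  linarith

/-- the used units of a column of value one -/
lemma LevC.used_one (C : LevC n U ho vl kp mn pc φ g f)
    (H : PCon R n t s mu U ho vl kp mn pc ar be kq NN sg nu) (hz : z < n) {K : Finset ι}
    (hK : K ⊆ U.filter fun u => g z u ≠ 0) {k : ℝ}
    (hQ : ((csQ pc (K.filter fun u => ho u = y)).card : ℤ) = be y z)
    (hV : ∀ u ∈ csK pc (K.filter fun u => ho u = y), vl u = 1 ∧ g z u = 1)
    (hk : k = ((csK pc (K.filter fun u => ho u = y)).card : ℝ)) :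
    ∑ u ∈ K.filter (fun u => ho u = y), (g z u : ℝ) = be y z + k := by
  obtain ⟨-, -, e1, -⟩ := C.csV H hz (V := K.filter fun u => ho u = y) (y := y) (by
    intro u hu
    obtain ⟨h1, h2⟩ := mem_filter.1 hu
    obtain ⟨h3, h4⟩ := mem_filter.1 (hK h1)
    exact mem_filter.2 ⟨h3, h2, h4⟩)
  have e2 : ∑ u ∈ csK pc (K.filter fun u => ho u = y), (g z u : ℤ)
      = ((csK pc (K.filter fun u => ho u = y)).card : ℤ) := by
    rw [card_eq_sum_ones]
    push_cast
    exact sum_congr rfl fun u hu => by rw [(hV u hu).2]; norm_num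
  rw [hQ, e2] at e1
  have e3 : ((∑ u ∈ K.filter (fun u => ho u = y), (g z u : ℤ) : ℤ) : ℝ)
      = ((be y z + ((csK pc (K.filter fun u => ho u = y)).card : ℤ) : ℤ) : ℝ) := by rw [e1]
  push_cast at e3
  rw [e3, hk]

/-- **the load of a column of value one in letters** -/
theorem LevC.pY_one (C : LevC n U ho vl kp mn pc φ g f)
    (H : PCon R n t s mu U ho vl kp mn pc ar be kq NN sg nu) (hz : z < n) {P : ℕ → Finset ι}
    {K : Finset ι} (hK : K ⊆ U.filter fun u => g z u ≠ 0) {M k c : ℝ}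
    (hQ : ((csQ pc (K.filter fun u => ho u = y)).card : ℤ) = be y z)
    (hV : ∀ u ∈ csK pc (K.filter fun u => ho u = y), vl u = 1 ∧ g z u = 1)
    (hM : M = (be z y : ℝ) + be y z) (hk : k = ((csK pc (K.filter fun u => ho u = y)).card : ℝ))
    (hc : c = (R : ℝ) - ((t z : ℝ) + 1)) :
    pY R n t U ho vl kp mn pc be g z P K y
      = M + k + (∑ u ∈ hsZ U ho pc z, (crY R t vl kp mn z y (P y) u : ℝ)) / c
        - (∑ u ∈ K.filter (fun u => ho u = y),
          ((msP kp mn z (g z) u : ℝ) + (rnB n kp be z y u : ℝ))) / c := by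
  unfold pY
  rw [C.used_one H hz hK hQ hV hk, ← hc, hM]
  ring

/-- **a column of value one in p-form, no plain hosted item, the block pairs of other tails kept** -/
theorem LevC.colP_srv (C : LevC n U ho vl kp mn pc φ g f)
    (H : PConC R n t s mu U ho vl kp mn pc ar be kq NN sg nu) (hz : z < n) (hzR : t z + 1 < R)
    (hy : y ∈ (range n).erase z) {P : ℕ → Finset ι} (hs0 : hsZ U ho pc z = ∅) (hP0 : P y = ∅)
    {K : Finset ι} (hK : K ⊆ U.filter fun u => g z u ≠ 0) {b b2 M k o x p β c d : ℝ}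
    (hQ : ((csQ pc (K.filter fun u => ho u = y)).card : ℤ) = be y z)
    (hV : ∀ u ∈ csK pc (K.filter fun u => ho u = y), vl u = 1 ∧ g z u = 1)
    (hb : b = ∑ l ∈ ((range n).erase z).erase y, ((be z l : ℝ) - kq z l))
    (hb2 : b2 = ∑ l ∈ ((range n).erase z).erase y, ((be z l : ℝ) - kq z l) ^ 2)
    (hM : M = (be z y : ℝ) + be y z) (hk : k = ((csK pc (K.filter fun u => ho u = y)).card : ℝ))
    (ho' : o = (((K.filter fun u => ho u = y).filter fun u => othE n kp z u).card : ℝ))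
    (hd : d = (mu z : ℝ) - s z)
    (hc : c = (R : ℝ) - ((t z : ℝ) + 1)) (hx : x = M + k)
    (hp : p = pY R n t U ho vl kp mn pc be g z P K y) (hβ : β = x - p) :
    c * p + p * (d - p) + k * (d - 1) - be y z * o + β * (d - 2 * x) + β ^ 2
        + b * ((t y : ℝ) - ((t z : ℝ) + 1) + d - M - 2 * k) - (b ^ 2 + b2) / 2
      ≤ (t y : ℝ) * d + ((R : ℝ) - t y) := by
  have hcs : csNW n kp be kq NN sg z y (P y) (((range n).erase z).erase y) ∅
      = ∑ l ∈ ((range n).erase z).erase y, (be z l - kq z l) * (be z l - kq z l + 1) := by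
    unfold csNW
    simp
  have hbs : csBW n be kq z y (((range n).erase z).erase y) ∅
      = ∑ l ∈ ((range n).erase z).erase y, (be z l - kq z l) := by
    unfold csBW
    simp
  have h1 := C.colP_one H hz hzR hy (P := P) (by rw [hP0]; exact empty_subset _)
    (X := ((range n).erase z).erase y) (Y := ∅) (Subset.refl _) (empty_subset _) hK
    (h := 0) (b := b) (M := M) (k := k) (o := o) (D := d) (x := x + b) (p := p) (β := β + b) (c := c)
    (d := d) hQ (by rw [hP0]; exact fun u hu => absurd hu (notMem_empty u)) hV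
    (by rw [hP0]; simp) (by rw [hb, hbs]; push_cast; rfl) hM hk ho' hd
    (by rw [hP0, hs0]; simp) hc (by rw [hx]; ring) hp (by rw [hβ]; ring)
  rw [hcs] at h1
  push_cast at h1
  have e1 : ∑ l ∈ ((range n).erase z).erase y,
      ((be z l : ℝ) - kq z l) * ((be z l : ℝ) - kq z l + 1) = b2 + b := by
    rw [hb2, hb, ← sum_add_distrib]
    exact sum_congr rfl fun l _ => by ring
  rw [e1] at h1
  have e2 : p * (d - p) + (β + b) * (d - 2 * (x + b)) + (β + b) ^ 2
      = p * (d - p) + β * (d - 2 * x) + β ^ 2 + b * (d - 2 * x - b) := by ring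
  have e3 : x = M + k := hx
  have e4 : c * p + p * (d - p) + k * (d - 1) - be y z * o + β * (d - 2 * x) + β ^ 2
        + b * ((t y : ℝ) - ((t z : ℝ) + 1) + d - M - 2 * k) - (b ^ 2 + b2) / 2
      = c * p + (p * (d - p) + (β + b) * (d - 2 * (x + b)) + (β + b) ^ 2) + (0 + b) * (0 + b + M)
        + k * (d - 1) - be y z * o + ((t y : ℝ) - ((t z : ℝ) + 1)) * b - 0 * b
        - b * (b - 1) / 2 - (b2 + b) / 2 := by
    rw [e2, e3]
    ring
  rw [e4]
  linarith

/-- **the load of the row test with everything kept** -/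
lemma LevC.eT_one (H : PCon R n t s mu U ho vl kp mn pc ar be kq NN sg nu) (hz : z < n)
    {K : Finset ι} {c : ℝ} (hc : c = (R : ℝ) - ((t z : ℝ) + 1)) :
    eT R n t U ho vl kp mn pc be g z K 1
      = (mu z : ℝ) + ∑ u ∈ K, (g z u : ℝ) - (∑ u ∈ K, (msP kp mn z (g z) u : ℝ)) / c := by
  have e1 := H.mu_plain hz
  have e2 : (mu z : ℝ) = ∑ y ∈ (range n).erase z, (be z y : ℝ)
      + ∑ u ∈ hsZ U ho pc z, (vl u : ℝ) := by
    rw [e1]
    push_cast
    rfl
  unfold eT
  rw [← hc, e2]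
  ring

/-- **tN in letters**: `(R - 2 e) (e - d) ≤ A e + B` -/
theorem LevC.need_N (C : LevC n U ho vl kp mn pc φ g f)
    (H : PCon R n t s mu U ho vl kp mn pc ar be kq NN sg nu) (hz : z < n) (hzR : t z + 1 < R)
    {K : Finset ι} (hK : K ⊆ U.filter fun u => g z u ≠ 0) {e d : ℝ}
    (he : e = (mu z : ℝ) + ∑ u ∈ K, (g z u : ℝ)) (hd : d = (mu z : ℝ) - s z)
    (h2 : 2 * (mu z + ∑ u ∈ K, (g z u : ℤ)) ≤ R) :
    ((R : ℝ) - 2 * e) * (e - d)
      ≤ ((t z : ℝ) + 1) * e + ∑ u ∈ K, (msP kp mn z (g z) u : ℝ) := by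
  have h1 := C.eT_N H hz hzR hK rfl h2
  have hc0 : (0 : ℝ) < (R : ℝ) - ((t z : ℝ) + 1) := by
    have : (t z : ℝ) + 1 < R := by exact_mod_cast hzR
    linarith
  rw [LevC.eT_one H hz rfl] at h1
  push_cast at h1
  rw [← he, ← hd] at h1
  set c : ℝ := (R : ℝ) - ((t z : ℝ) + 1) with hc
  have e1 : c * (e - (∑ u ∈ K, (msP kp mn z (g z) u : ℝ)) / c)
      = c * e - ∑ u ∈ K, (msP kp mn z (g z) u : ℝ) := by
    field_simp
  rw [e1] at h1
  nlinarith [h1]

/-- **the loads of the columns and of the row test**, no plain hosted item -/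
theorem LevC.sum_pY (C : LevC n U ho vl kp mn pc φ g f)
    (H : PCon R n t s mu U ho vl kp mn pc ar be kq NN sg nu)
    {P : ℕ → Finset ι} (hs0 : hsZ U ho pc z = ∅)
    {K : Finset ι} (hK : K ⊆ U.filter fun u => g z u ≠ 0) {c : ℝ}
    (hc : c = (R : ℝ) - ((t z : ℝ) + 1)) :
    ∑ y ∈ (range n).erase z, pY R n t U ho vl kp mn pc be g z P K y
      = eT R n t U ho vl kp mn pc be g z K 1 - (∑ u ∈ K, (rnB n kp be z (ho u) u : ℝ)) / c := by
  have hm : ∀ u ∈ K, ho u ∈ (range n).erase z := fun u hu => by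
    obtain ⟨h1, h2⟩ := mem_filter.1 (hK hu)
    exact mem_erase.2 ⟨fun h => h2 (by rw [← h]; exact C.home u h1), mem_range.2 (H.hlt u h1)⟩
  have e1 := sum_fiberwise_of_maps_to (t := (range n).erase z) (g := fun u => ho u) hm
    (fun u => (g z u : ℝ))
  have e2 := sum_fiberwise_of_maps_to (t := (range n).erase z) (g := fun u => ho u) hm
    (fun u => (msP kp mn z (g z) u : ℝ) + (rnB n kp be z (ho u) u : ℝ))
  have e3 : ∀ y ∈ (range n).erase z, ∑ u ∈ K.filter (fun u => ho u = y),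
      ((msP kp mn z (g z) u : ℝ) + (rnB n kp be z (ho u) u : ℝ))
      = ∑ u ∈ K.filter (fun u => ho u = y),
      ((msP kp mn z (g z) u : ℝ) + (rnB n kp be z y u : ℝ)) := by
    intro y _
    refine sum_congr rfl fun u hu => ?_
    rw [(mem_filter.1 hu).2]
  rw [sum_congr rfl e3] at e2
  unfold pY eT
  rw [hs0, ← hc]
  simp only [sum_empty, zero_sub, zero_add]
  rw [sum_add_distrib, sum_add_distrib, e1, ← sum_div, sum_neg_distrib, e2, sum_add_distrib]
  ring

end ColP1

end Pool.Agent.Lib.MP_f04ccf_co
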