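import Pool.Agent.Lib.MP_f04ccf_co.M.RowEX
import Pool.Agent.Lib.MP_f04ccf_co.M.Conc
import Pool.Agent.Lib.MP_f04ccf_co.M.PConC

/-!
MP_f04ccf_co, TEXT D, note 18279 (helper15): **the row tests with the hosted gain of concentrated packings**.

In a concentrated packing (`PkOpt` with the third function `sqf`) there are `min |P| |Q|` edges between any two
parts (`PkOpt.conc_edges`), so the energy of every sub-slot has the gain `minP`: `min (vl u) (vl u')` for every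
ordered pair of kept plain hosted items.

* `minP` (in PConC), `fllK_le_minP` (at least 35's gain);
* `WItC.enXYA`: the energy of the sub-slot over the row indices with any gain `A` of the kept parts;
* `RowTC`, `RowPC`, `RowEC`: the tests `RowTX`, `RowPX`, `RowEX` with any gain `gn z D`;
* `GainP`: a gain of a world; `WItC.gainC`: `minP` is one when the third function is `sqf`;
* `WItC.rowTC`, `WItC.rowPC`, `WItC.rowEC`: the transports, version [C].
-/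

set_option autoImplicit false

namespace Pool.Agent.Lib.MP_f04ccf_co

open Finset

attribute [local instance] Classical.propDecidable

section Defs

variable {ι : Type*}

/-- 35's gain is not larger -/
lemma fllK_le_minP {n : ℕ} {U : Finset ι} {ho : ι → ℕ} {vl pc : ι → ℤ} {kp : ℕ → ι → ℤ} {z : ℕ}
    {D : Finset ι} (h1 : ∀ u ∈ U, 1 ≤ vl u) (h0 : ∀ u ∈ U, ∃ l < n, kp l u ≠ 0) :
    ∑ l ∈ range n, fllK n U ho kp pc z D l * (fllK n U ho kp pc z D l - 1)
      ≤ minP U ho vl pc z D := by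
  obtain ⟨F, hF⟩ : ∃ F : ℕ → Finset ι, F = fun l => U.filter fun u => ho u = z ∧ u ∉ D ∧ pc u = 0
    ∧ ∀ l' < n, l' ≠ l → kp l' u = 0 := ⟨_, rfl⟩
  have hmF : ∀ l u, u ∈ F l ↔ u ∈ U ∧ ho u = z ∧ u ∉ D ∧ pc u = 0
      ∧ ∀ l' < n, l' ≠ l → kp l' u = 0 := by
    intro l u
    rw [hF]
    exact mem_filter
  have h2 : ∀ l, fllK n U ho kp pc z D l * (fllK n U ho kp pc z D l - 1)
      = ((F l).offDiag.card : ℤ) := by
    intro l
    have h2 : fllK n U ho kp pc z D l = ((F l).card : ℤ) := by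
      unfold fllK
      rw [hF]
    rw [h2, offDiag_card]
    have h3 : (F l).card ≤ (F l).card * (F l).card := by
      rcases Nat.eq_zero_or_pos (F l).card with h5 | h5
      · rw [h5]
      · exact Nat.le_mul_of_pos_left _ h5
    rw [Nat.cast_sub h3]
    push_cast
    ring
  have h3 : ∀ l ∈ range n, ∀ l' ∈ range n, l ≠ l' → Disjoint (F l).offDiag (F l').offDiag := by
    intro l _ l' _ hne
    rw [disjoint_left]
    intro e he he'
    obtain ⟨h4, -, -⟩ := mem_offDiag.1 he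
    obtain ⟨h5, -, -⟩ := mem_offDiag.1 he'
    obtain ⟨h6, -, -, -, h7⟩ := (hmF _ _).1 h4
    obtain ⟨-, -, -, -, h8⟩ := (hmF _ _).1 h5
    obtain ⟨q, hq, hq2⟩ := h0 _ h6
    by_cases h9 : q = l
    · exact hq2 (h8 q hq (by rw [h9]; exact hne))
    · exact hq2 (h7 q hq h9)
  rw [sum_congr rfl fun l _ => h2 l]
  have h4 : ∑ l ∈ range n, ((F l).offDiag.card : ℤ)
      = (((range n).biUnion fun l => (F l).offDiag).card : ℤ) := by
    rw [card_biUnion h3]
    push_cast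
    rfl
  rw [h4, card_eq_sum_ones, Nat.cast_sum]
  unfold minP
  have h5 : (range n).biUnion (fun l => (F l).offDiag) ⊆ (kpPl U ho pc z D).offDiag := by
    refine biUnion_subset.2 fun l _ => offDiag_mono fun u hu => ?_
    obtain ⟨h6, h7, h8, h9, -⟩ := (hmF _ _).1 hu
    exact mem_filter.2 ⟨h6, h7, h8, h9⟩
  have h6 : ∀ e ∈ (kpPl U ho pc z D).offDiag, 1 ≤ min (vl e.1) (vl e.2) := fun e he => by
    obtain ⟨h3, h4, -⟩ := mem_offDiag.1 he
    exact le_min (h1 _ (mem_filter.1 h3).1) (h1 _ (mem_filter.1 h4).1)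
  refine le_trans (sum_le_sum fun e he => ?_) (sum_le_sum_of_subset_of_nonneg h5
    fun e he _ => by
      have := h6 e he
      linarith)
  rw [Nat.cast_one]
  exact h6 e (h5 he)

/-- the excess without a gain -/
noncomputable def NX0 (U : Finset ι) (ho : ι → ℕ) (kp : ℕ → ι → ℤ) (pc : ι → ℤ)
    (be kq NN sg : ℕ → ℕ → ℤ) (z : ℕ) (S X Y : Finset ℕ) (D : Finset ι) : ℤ :=
  ∑ l ∈ X \ Y, (be z l - kq z l) * (be z l - kq z l + 1) + ∑ l ∈ S \ X, NN z l
    + 2 * ∑ l ∈ Y, (be z l - kq z l) * (sg z l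
      + ((U.filter fun u => ho u = z ∧ u ∉ D ∧ pc u = 0 ∧ kp l u ≠ 0).card : ℤ))

/-- **the exact row test with dropped items and the gain `gn`**, any saving -/
def RowTC (gn : ℕ → Finset ι → ℤ) (R : ℤ) (n : ℕ) (t s mu : ℕ → ℤ) (U : Finset ι) (ho : ι → ℕ)
    (vl : ι → ℤ) (kp mn : ℕ → ι → ℤ) (pc : ι → ℤ) (be kq NN sg : ℕ → ℕ → ℤ) : Prop :=
  ∀ z < n, ∀ X ⊆ range n, ∀ Y ⊆ X, ∀ D ⊆ U, (∀ u ∈ D, ho u = z ∧ pc u = 0) →
    ∀ K ⊆ U, (∀ u ∈ K, ho u ≠ z) → ∀ g : ι → ℕ, (∀ u ∈ K, 1 ≤ g u) →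
    (∀ u ∈ K, (g u : ℤ) ≤ kp z u) → ∀ sv : ℤ, SavJ n ho vl kp pc z g ∅ K sv →
    TstP R 0 (t z + 1) (s z) (∑ u ∈ K, (g u : ℤ)) (∑ u ∈ K, ((g u : ℤ) + 1))
      (∑ u ∈ K, msP kp mn z g u)
      (mu z - ∑ l ∈ X, kq z l - ∑ l ∈ Y, (be z l - kq z l) - ∑ u ∈ D, vl u)
      (∑ l ∈ X, kq z l + ∑ l ∈ Y, (be z l - kq z l) + ∑ u ∈ D, (vl u + 1))
      0 sv (NX0 U ho kp pc be kq NN sg z ((range n).erase z) X Y D - gn z D) 0

/-- **the row test with the columns of `j`, dropped items and the gain `gn`**, any saving -/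
def RowPC (gn : ℕ → Finset ι → ℤ) (R : ℤ) (n : ℕ) (t s mu : ℕ → ℤ) (U : Finset ι) (ho : ι → ℕ)
    (vl : ι → ℤ) (kp mn : ℕ → ι → ℤ) (pc ar : ι → ℤ) (be kq NN sg : ℕ → ℕ → ℤ) : Prop :=
  ∀ z < n, ∀ j < n, j ≠ z → ∀ X ⊆ range n, j ∉ X → ∀ Y ⊆ X, ∀ D ⊆ U,
    (∀ u ∈ D, ho u = z ∧ pc u = 0) →
    ∀ K ⊆ U, (∀ u ∈ K, ho u ≠ z) → ∀ g : ι → ℕ, (∀ u ∈ K, 1 ≤ g u) →
    (∀ u ∈ K, (g u : ℤ) ≤ kp z u) → ∀ sv : ℤ,
    SavJ n ho vl kp pc z g {j} (K.filter fun u => ho u = j → pc u = 0) sv →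
    TstP R (R - t j) (t z + 1) (s z) (∑ u ∈ K, (g u : ℤ))
      (∑ u ∈ K, ((g u : ℤ) + 1 - if ho u = j then pc u else 0))
      (∑ u ∈ K, msP kp mn z g u)
      (mu z - ∑ l ∈ X, kq z l - ∑ l ∈ Y, (be z l - kq z l) - ∑ u ∈ D, vl u)
      (∑ l ∈ X, kq z l + ∑ l ∈ Y, (be z l - kq z l) + ∑ u ∈ D, (vl u + 1))
      (∑ u ∈ U.filter (fun u => ho u = z ∧ u ∉ D), (kp j u * (R - t j) - mn j u))
      (sv + 2 * ((∑ u ∈ K, if ho u = j then pc u else 0)
          * ((K.filter fun u => ho u = j ∧ pc u = 0 ∧ ∀ l < n, l ≠ z → kp l u = 0).card : ℤ)))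
      (NX0 U ho kp pc be kq NN sg z (((range n).erase z).erase j) X Y D - gn z D)
      ((be z j + ∑ u ∈ K, if ho u = j then pc u else 0)
          * (be z j + (∑ u ∈ K, if ho u = j then pc u else 0) + 1)
        + 2 * ∑ u ∈ K, if ho u = j then (1 - pc u) * ar u else ((g u : ℤ) + 1) * (R - t j))

/-- **the row test with the columns of `j`, a rectangle, dropped items and the gain `gn`**, any saving -/
def RowEC (gn : ℕ → Finset ι → ℤ) (R : ℤ) (n : ℕ) (t s mu : ℕ → ℤ) (U : Finset ι) (ho : ι → ℕ)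
    (vl : ι → ℤ) (kp mn : ℕ → ι → ℤ) (pc ar : ι → ℤ) (be kq NN sg : ℕ → ℕ → ℤ) : Prop :=
  ∀ z < n, ∀ j < n, j ≠ z → ∀ X ⊆ range n, j ∉ X → ∀ Y ⊆ X, ∀ D ⊆ U,
    (∀ u ∈ D, ho u = z ∧ pc u = 0) →
    ∀ K ⊆ U, (∀ u ∈ K, ho u ≠ z) → ∀ g : ι → ℕ, (∀ u ∈ K, 1 ≤ g u) →
    (∀ u ∈ K, (g u : ℤ) ≤ kp z u) → ∀ EX : ℤ,
    RcP U vl mn be z j (∑ u ∈ K, if ho u = j then pc u else 0) EX → ∀ sv : ℤ,
    SavJ n ho vl kp pc z g {j} (K.filter fun u => ho u = j → pc u = 0) sv →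
    TstP R (R - t j) (t z + 1) (s z) (∑ u ∈ K, (g u : ℤ))
      (∑ u ∈ K, ((g u : ℤ) + 1 - if ho u = j then pc u else 0))
      (∑ u ∈ K, msP kp mn z g u)
      (mu z - ∑ l ∈ X, kq z l - ∑ l ∈ Y, (be z l - kq z l) - ∑ u ∈ D, vl u)
      (∑ l ∈ X, kq z l + ∑ l ∈ Y, (be z l - kq z l) + ∑ u ∈ D, (vl u + 1))
      (∑ u ∈ U.filter (fun u => ho u = z ∧ u ∉ D), (kp j u * (R - t j) - mn j u))
      (sv + 2 * ((∑ u ∈ K, if ho u = j then pc u else 0)
          * ((K.filter fun u => ho u = j ∧ pc u = 0 ∧ ∀ l < n, l ≠ z → kp l u = 0).card : ℤ))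
        + 2 * EX)
      (NX0 U ho kp pc be kq NN sg z ((range n).erase z) X Y D - gn z D)
      (2 * ((∑ u ∈ K, if ho u = j then pc u else 0) * be z j)
        + 2 * ∑ u ∈ K, if ho u = j then ar u else ((g u : ℤ) + 1) * (R - t j))

/-- the algebra of the test with a payment `P` -/
private lemma pFormE {R τ s m h t E2 k w B SA SA' sv N Ar Q b q P EX : ℤ}
    (hT : 2 * R * 1 * (s - q) - 1 * (1 - 1) * R - (τ ^ 2 - τ ^ 2) + 2 * (k * (R - t) - B)
        + 2 * SA' + 2 * P + sv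
      ≤ E2 + 2 * (w + (1 * R - τ)) * (s - q + 1) + w * (w - 1) + 2 * Ar + 2 * (Q * b))
    (hSA : SA ≤ SA') (hP : EX ≤ P)
    (he : E2 + m * (m + 1) ≤ 2 * (m * (h - q)) + N) (hh : h = t + s + 1) :
    TstP R (R - τ) (t + 1) s k w B m q SA (sv + 2 * EX) N (2 * (Q * b) + 2 * Ar) := by
  refine pForm2 (E2 := E2) (h := h) ?_ he hh
  linarith

end Defs

section World

variable {V : Type*} {G : SimpleGraph V} {Z T : Finset V} {hm : V → V} {r m n p : ℕ}
  {φ : Finset (V × V) → Finset (Finset V) → ℕ} {B : V → Finset (V × V)}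
  {Ps : V → Finset (Finset V)} {host : Itm V → V} {ρ : V → ℕ} {σ : ℕ → V}

/-- **the energy of the sub-slot over the row indices**: tails in `X`: the free PC pairs are dropped; tails in `Y`:
all PC pairs; the plain items `D'` are dropped; `L` contains the other tails `/= y` -/
theorem WItC.enXYA (h : WCoreK G Z T r m n p hm) (H : WItC G Z T hm r n φ B Ps host ρ σ)
    {i : ℕ} (hi : i < n) (y : V) {X Y L : Finset ℕ} (hX : X ⊆ range n) (hY : Y ⊆ range n)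
    (hXY : Disjoint X Y) (hLr : L ⊆ range n)
    (hL : ∀ l ∈ (range n).erase i, σ l ≠ y → l ∉ X → l ∉ Y → l ∈ L)
    {D' D : Finset (Itm V)} (hD' : D' ⊆ pkf (B (σ i)) (Ps (σ i))) (hpc : ∀ u ∈ D', ipc u = 0)
    (hD : D = dpcI G (cz G Z T hm (σ i)) (tlo G T hm) (B (σ i)) (X.image σ) (Y.image σ) ∪ D')
    {M q : ℤ}
    (hM : M = ∑ u ∈ pkf (B (σ i)) (Ps (σ i)), (ivl u : ℤ)
      - ∑ l ∈ X, kqw G Z T hm B (σ i) (σ l) - ∑ l ∈ Y, pcn (tlo G T hm) B (σ i) (σ l)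
      - ∑ u ∈ D', (ivl u : ℤ))
    (hq : q = ∑ l ∈ X, kqw G Z T hm B (σ i) (σ l) + ∑ l ∈ Y, pcn (tlo G T hm) B (σ i) (σ l)
      + ∑ u ∈ D', ((ivl u : ℤ) + 1)) {A : ℕ}
    (hA : (kpP (Ps (σ i)) D).card * (kpP (Ps (σ i)) D).card + A
      ≤ E G ((kpP (Ps (σ i)) D).biUnion id) + (kpP (Ps (σ i)) D).card) :
    D ⊆ pkf (B (σ i)) (Ps (σ i)) ∧ ∑ u ∈ D, ((ivl u : ℤ) + 1 - (ipc u : ℤ)) = q ∧
    2 * eI G hm (Z \ D.biUnion imem) (σ i) + M * (M + 1) + A
        + E G ((pcs (tlo G T hm) (kpB (B (σ i)) D) y).image Prod.fst)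
      ≤ 2 * (M * (sI hm r Z (σ i) + tI G Z T hm r Z (σ i) + 1 - q))
        + (∑ l ∈ X, (pcn (tlo G T hm) B (σ i) (σ l) - kqw G Z T hm B (σ i) (σ l))
            * (pcn (tlo G T hm) B (σ i) (σ l) - kqw G Z T hm B (σ i) (σ l) + 1)
          + ∑ l ∈ L, nxw G Z T hm B (σ i) (σ l)
          + 2 * ∑ l ∈ Y, (pcn (tlo G T hm) B (σ i) (σ l) - kqw G Z T hm B (σ i) (σ l))
            * (ssw G T hm Ps (σ i) (σ l)
              + endK (T.biUnion fun x => pkf (B x) (Ps x)) (fun u => ρ (host u))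
                (fun i u => (ikp (tlo G T hm) (σ i) u : ℤ)) (fun u => (ipc u : ℤ)) i D' l))
        + 2 * ∑ e ∈ pcs (tlo G T hm) (kpB (B (σ i)) D) y,
          (nd G (cz G Z T hm (σ i)) e.1 : ℤ) := by
  have hcard := h.toWHom.cardT
  have hmem : ∀ i < n, σ i ∈ T := fun i hi => H.rk.mem i (by rw [hcard]; exact hi)
  have hinj : ∀ a ∈ range n, ∀ b ∈ range n, σ a = σ b → a = b := fun a ha b hb hab =>
    H.rk.sinj (by rw [hcard]; exact mem_range.1 ha) (by rw [hcard]; exact mem_range.1 hb) hab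
  have hpk := H.pk _ (hmem i hi)
  have hsX : ∀ f : V → ℤ, ∑ l ∈ X.image σ, f l = ∑ l ∈ X, f (σ l) := fun f =>
    sum_image fun a ha b hb hab => hinj a (hX ha) b (hX hb) hab
  have hsY : ∀ f : V → ℤ, ∑ l ∈ Y.image σ, f l = ∑ l ∈ Y, f (σ l) := fun f =>
    sum_image fun a ha b hb hab => hinj a (hY ha) b (hY hb) hab
  have hsL : ∀ f : V → ℤ, ∑ l ∈ L.image σ, f l = ∑ l ∈ L, f (σ l) := fun f =>
    sum_image fun a ha b hb hab => hinj a (hLr ha) b (hLr hb) hab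
  have hXY' : Disjoint (X.image σ) (Y.image σ) := by
    rw [disjoint_left]
    intro v hv hv'
    obtain ⟨a, ha, rfl⟩ := mem_image.1 hv
    obtain ⟨b, hb, hab⟩ := mem_image.1 hv'
    exact disjoint_left.1 hXY ha (hinj b (hY hb) a (hX ha) hab ▸ hb)
  have hk := keepXY_dpc (G := G) (C := cz G Z T hm (σ i)) (tl := tlo G T hm) (Q := B (σ i)) hXY'
    hpc
  rw [← hD] at hk
  have hDs : D ⊆ pkf (B (σ i)) (Ps (σ i)) := by
    rw [hD]
    exact union_subset dpc_sub hD'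
  have hdis : Disjoint (dpcI G (cz G Z T hm (σ i)) (tlo G T hm) (B (σ i)) (X.image σ)
      (Y.image σ)) D' := by
    rw [disjoint_left]
    intro u hu hu'
    have h1 := (dpc_ipc hu).1
    have h2 := hpc u hu'
    omega
  obtain ⟨c, hc⟩ : ∃ c : ℤ, c = ((dpcI G (cz G Z T hm (σ i)) (tlo G T hm) (B (σ i)) (X.image σ)
      (Y.image σ)).card : ℤ) := ⟨_, rfl⟩
  have hcs : c = ∑ l ∈ X, kqw G Z T hm B (σ i) (σ l)
      + ∑ l ∈ Y, pcn (tlo G T hm) B (σ i) (σ l) := by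
    rw [hc, sum_dpc hXY', ← hsX, ← hsY]
    rfl
  have hsD : ∀ f : Itm V → ℤ, (∀ u, ipc u = 1 → ivl u = 1 → f u = 1) →
      ∑ u ∈ D, f u = c + ∑ u ∈ D', f u := by
    intro f hf
    rw [hD, sum_union hdis]
    congr 1
    rw [hc, card_eq_sum_ones, Nat.cast_sum]
    exact sum_congr rfl fun u hu => by
      rw [hf u (dpc_ipc hu).1 (dpc_ipc hu).2]
      rfl
  have h1 := hsD (fun u => (ivl u : ℤ)) fun u _ h2 => by rw [h2]; rfl
  have h2 := hsD (fun u => (ivl u : ℤ) + 1 - (ipc u : ℤ)) fun u h2 h3 => by rw [h2, h3]; rfl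
  have h3 : ∑ u ∈ D', ((ivl u : ℤ) + 1 - (ipc u : ℤ)) = ∑ u ∈ D', ((ivl u : ℤ) + 1) :=
    sum_congr rfl fun u hu => by
      rw [hpc u hu]
      push_cast
      ring
  have h4 : ∑ u ∈ pkf (B (σ i)) (Ps (σ i)) \ D, (ivl u : ℤ) = M := by
    have h5 := sum_sdiff hDs (f := fun u => (ivl u : ℤ))
    beta_reduce at h1 h5
    rw [h1] at h5
    linarith
  have h5 : ∑ u ∈ D, ((ivl u : ℤ) + 1 - (ipc u : ℤ)) = q := by
    rw [hq, h2, h3, hcs]
  refine ⟨hDs, h5, ?_⟩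
  have h32 := h.toWHom.csys.h32 h.F.toPFrame h.hh h.toWHom.ht (hmem i hi)
  have h6 := PkOpt.energyXY h.toWHom y (hmem i hi) H.pk hk (kpP_sub (Ps := Ps (σ i)) (D := D))
    (empty_subset _ : (∅ : Finset V) ⊆ cz G Z T hm (σ i)) (L := L.image σ) (hA := hA)
    (hL := fun e he hy hx => by
      have h7 := h.toWHom.ht _ (hmem i hi) e.1 (hpk.toPk.bH e (hk.sub he))
      have h8 := mem_of_mem_erase h7
      have h9 := H.rk.left _ h8
      have h10 := H.rk.lt _ h8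
      rw [hcard] at h10
      refine mem_image.2 ⟨ρ (tlo G T hm e.1), hL _ (mem_erase.2 ⟨fun h11 => ?_,
        mem_range.2 h10⟩) (by rw [h9]; exact hy) (fun h11 => hx ?_) (fun h11 => ?_), h9⟩
      · exact ne_of_mem_erase h7 (by rw [← h9, h11])
      · exact mem_image.2 ⟨_, h11, h9⟩
      · exact hk.y e (hk.sub he) (mem_image.2 ⟨_, h11, h9⟩) he)
  rw [keepX_kp hpk.toPk hDs ∅, union_empty, sdiff_empty, pkf_kp, h4, hsX, hsY, hsL] at h6
  have h7 := hpk.toPk.card_kp hDs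
  have h8 : ((keepH (kpB (B (σ i)) D) (kpP (Ps (σ i)) D)).card : ℤ)
      = hI G Z T hm Z (σ i) - ∑ u ∈ D, ((ivl u : ℤ) + 1 - (ipc u : ℤ)) := h7
  have h9 := hI_eq (G := G) (Z := Z) (T := T) (hm := hm) (r := r) Z (σ i)
  have h10 : sI hm r Z (σ i) + tI G Z T hm r Z (σ i) + 1 - q
      = ((keepH (kpB (B (σ i)) D) (kpP (Ps (σ i)) D)).card : ℤ) := by
    rw [h8, h5, h9]
    ring
  rw [h10]
  have h11 : ∀ l, ((pcs (tlo G T hm) (B (σ i)
      \ konQ G (cz G Z T hm (σ i)) (tlo G T hm) (B (σ i))) l).card : ℤ)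
      = pcn (tlo G T hm) B (σ i) l - kqw G Z T hm B (σ i) l := fun l => card_blk _ _
  simp only [h11] at h6
  have h12 : ∑ l ∈ Y, (pcn (tlo G T hm) B (σ i) (σ l) - kqw G Z T hm B (σ i) (σ l))
            * ((tlP (tlo G T hm) (kpP (Ps (σ i)) D) (σ l)).card : ℤ)
      ≤ ∑ l ∈ Y, (pcn (tlo G T hm) B (σ i) (σ l) - kqw G Z T hm B (σ i) (σ l))
            * (ssw G T hm Ps (σ i) (σ l)
              + endK (T.biUnion fun x => pkf (B x) (Ps x)) (fun u => ρ (host u))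
                (fun i u => (ikp (tlo G T hm) (σ i) u : ℤ)) (fun u => (ipc u : ℤ)) i D' l) := by
    refine sum_le_sum fun l _ => mul_le_mul_of_nonneg_left ?_ ?_
    · have h13 := card_tailP (tl := tlo G T hm) (B := B (σ i)) (Ps := Ps (σ i)) (D := D) (σ l)
      have h15 : ((tlP (tlo G T hm) (kpP (Ps (σ i)) D) (σ l)).card : ℤ)
          ≤ (((pkf (B (σ i)) (Ps (σ i)) \ D).filter fun u =>
            ipc u = 0 ∧ ikp (tlo G T hm) (σ l) u ≠ 0).card : ℤ)
            + ssw G T hm Ps (σ i) (σ l) := by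
        unfold ssw
        exact_mod_cast h13
      have h16 : (((pkf (B (σ i)) (Ps (σ i)) \ D).filter fun u =>
            ipc u = 0 ∧ ikp (tlo G T hm) (σ l) u ≠ 0).card : ℤ)
          ≤ endK (T.biUnion fun x => pkf (B x) (Ps x)) (fun u => ρ (host u))
            (fun i u => (ikp (tlo G T hm) (σ i) u : ℤ)) (fun u => (ipc u : ℤ)) i D' l := by
        unfold endK
        refine Nat.cast_le.2 (card_le_card fun u hu => ?_)
        obtain ⟨h15, h16, h17⟩ := mem_filter.1 hu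
        obtain ⟨h18, h19⟩ := mem_sdiff.1 h15
        refine (@mem_filter _ _ (_) _ _).2 ⟨mem_biUnion.2 ⟨_, hmem i hi, h18⟩, ?_,
          fun h20 => h19 ?_, ?_, ?_⟩
        · show ρ (host u) = i
          rw [H.hst _ (hmem i hi) u h18]
          exact H.rk.right i (by rw [hcard]; exact hi)
        · rw [hD]
          exact mem_union_right _ h20
        · show (ipc u : ℤ) = 0
          exact_mod_cast h16
        · show (ikp (tlo G T hm) (σ l) u : ℤ) ≠ 0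
          exact_mod_cast h17
      linarith
    · have h13 := kqw_le (G := G) (Z := Z) (T := T) (hm := hm) (B := B) (σ i) (σ l)
      linarith
  linarith

/-- the dropped PC pairs are no parts -/
lemma kpP_dpc {C : Finset V} {tl : V → V} {Q : Finset (V × V)} {Pt : Finset (Finset V)}
    {X Y : Finset V} {D : Finset (Itm V)} : kpP Pt (dpcI G C tl Q X Y ∪ D) = kpP Pt D := by
  ext P
  rw [mem_kpP, mem_kpP, mem_union]
  have h1 : (Sum.inl P : Itm V) ∉ dpcI G C tl Q X Y := fun h1 => by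
    have h2 := (dpc_ipc h1).1
    simp [ipc] at h2
  tauto

variable (G T hm) in
/-- **a gain**: further edges inside the kept parts -/
def GainP (n : ℕ) (B : V → Finset (V × V)) (Ps : V → Finset (Finset V)) (σ : ℕ → V)
    (gn : ℕ → Finset (Itm V) → ℤ) : Prop :=
  ∀ z < n, ∀ D ⊆ pkf (B (σ z)) (Ps (σ z)), (∀ u ∈ D, ipc u = 0) → ∃ A : ℕ, gn z D ≤ A ∧
    (kpP (Ps (σ z)) D).card * (kpP (Ps (σ z)) D).card + A
      ≤ E G ((kpP (Ps (σ z)) D).biUnion id) + (kpP (Ps (σ z)) D).card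

/-- **the gain of concentrated packings** -/
theorem WItC.gainC (h : WCoreK G Z T r m n p hm) (H : WItC G Z T hm r n sqf B Ps host ρ σ) :
    GainP G n B Ps σ fun z D => minP (T.biUnion fun x => pkf (B x) (Ps x))
      (fun u => ρ (host u)) (fun u => (ivl u : ℤ)) (fun u => (ipc u : ℤ)) z D := by
  intro z hz D _ _
  have hcard := h.toWHom.cardT
  have hmem : ∀ i < n, σ i ∈ T := fun i hi => H.rk.mem i (by rw [hcard]; exact hi)
  have hfil : (T.biUnion fun x => pkf (B x) (Ps x)).filter (fun u => ρ (host u) = z)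
      = pkf (B (σ z)) (Ps (σ z)) := fil_host H.hst H.rk (by rw [hcard]; exact hz)
  refine ⟨conS (kpP (Ps (σ z)) D), ?_, (H.pk _ (hmem z hz)).E_partsC kpP_sub⟩
  have h1 : ∀ u : Itm V, u ∈ kpPl (T.biUnion fun x => pkf (B x) (Ps x)) (fun u => ρ (host u))
      (fun u => (ipc u : ℤ)) z D ↔ ∃ P ∈ kpP (Ps (σ z)) D, 2 ≤ P.card ∧ u = Sum.inl P := by
    intro u
    have h2 : u ∈ kpPl (T.biUnion fun x => pkf (B x) (Ps x)) (fun u => ρ (host u))
        (fun u => (ipc u : ℤ)) z D ↔ u ∈ pkf (B (σ z)) (Ps (σ z)) ∧ u ∉ D ∧ ipc u = 0 := by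
      rw [← hfil]
      unfold kpPl
      simp only [mem_filter]
      constructor
      · rintro ⟨a, b, c, d⟩
        exact ⟨⟨a, b⟩, c, by exact_mod_cast d⟩
      · rintro ⟨⟨a, b⟩, c, d⟩
        exact ⟨a, b, c, by exact_mod_cast d⟩
    rw [h2]
    constructor
    · rintro ⟨h3, h4, h5⟩
      rcases u with P | e
      · obtain ⟨h6, h7⟩ := inl_mem_pkf.1 h3
        exact ⟨P, mem_kpP.2 ⟨h6, h4⟩, h7, rfl⟩
      · simp [ipc] at h5
    · rintro ⟨P, h3, h4, rfl⟩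
      obtain ⟨h5, h6⟩ := mem_kpP.1 h3
      exact ⟨inl_mem_pkf.2 ⟨h5, h4⟩, h6, rfl⟩
  unfold minP conS
  push_cast
  obtain ⟨F, hF⟩ : ∃ F, F = (kpP (Ps (σ z)) D).filter fun P => 2 ≤ P.card := ⟨_, rfl⟩
  have h3 : ∑ e ∈ (kpPl (T.biUnion fun x => pkf (B x) (Ps x)) (fun u => ρ (host u))
      (fun u => (ipc u : ℤ)) z D).offDiag, min (ivl e.1 : ℤ) (ivl e.2 : ℤ)
      = ∑ e ∈ F.offDiag, ((min e.1.card e.2.card - 1 : ℕ) : ℤ) := by
    refine sum_bij' (fun e _ => (e.1.elim id (fun _ => ∅), e.2.elim id fun _ => ∅))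
      (fun e _ => (Sum.inl e.1, Sum.inl e.2)) ?_ ?_ ?_ ?_ ?_
    · intro e he
      obtain ⟨h4, h5, h6⟩ := mem_offDiag.1 he
      obtain ⟨P, hP, hP2, h7⟩ := (h1 _).1 h4
      obtain ⟨Q, hQ, hQ2, h8⟩ := (h1 _).1 h5
      rw [h7, h8] at h6 ⊢
      rw [hF]
      exact mem_offDiag.2 ⟨mem_filter.2 ⟨hP, hP2⟩, mem_filter.2 ⟨hQ, hQ2⟩,
        fun h9 => h6 (congrArg Sum.inl h9)⟩
    · intro e he
      rw [hF] at he
      obtain ⟨h4, h5, h6⟩ := mem_offDiag.1 he
      obtain ⟨a1, a2⟩ := mem_filter.1 h4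
      obtain ⟨b1, b2⟩ := mem_filter.1 h5
      exact mem_offDiag.2 ⟨(h1 _).2 ⟨_, a1, a2, rfl⟩, (h1 _).2 ⟨_, b1, b2, rfl⟩,
        fun h9 => h6 (Sum.inl_injective h9)⟩
    · intro e he
      obtain ⟨h4, h5, h6⟩ := mem_offDiag.1 he
      obtain ⟨P, hP, hP2, h7⟩ := (h1 _).1 h4
      obtain ⟨Q, hQ, hQ2, h8⟩ := (h1 _).1 h5
      refine Prod.ext ?_ ?_
      · rw [h7]
        rfl
      · rw [h8]
        rfl
    · intro e _
      rfl
    · intro e he
      obtain ⟨h4, h5, h6⟩ := mem_offDiag.1 he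
      obtain ⟨P, hP, hP2, h7⟩ := (h1 _).1 h4
      obtain ⟨Q, hQ, hQ2, h8⟩ := (h1 _).1 h5
      rw [h7, h8]
      show min (((P.card - 1 : ℕ) : ℤ)) (((Q.card - 1 : ℕ) : ℤ))
        = ((min P.card Q.card - 1 : ℕ) : ℤ)
      rcases le_total P.card Q.card with h9 | h9
      · rw [min_eq_left h9, min_eq_left (by omega)]
      · rw [min_eq_right h9, min_eq_right (by omega)]
  rw [h3]
  exact sum_le_sum_of_subset_of_nonneg (offDiag_mono (by rw [hF]; exact filter_subset _ _))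
    fun _ _ _ => Int.natCast_nonneg _

/-- the plain dropped items as items of the home -/
private lemma drop_home (h : WCoreK G Z T r m n p hm) (H : WItC G Z T hm r n φ B Ps host ρ σ)
    {z : ℕ} (hz : z < n) {D : Finset (Itm V)}
    (hD : D ⊆ T.biUnion fun x => pkf (B x) (Ps x))
    (hD' : ∀ u ∈ D, ρ (host u) = z ∧ (ipc u : ℤ) = 0) :
    D ⊆ pkf (B (σ z)) (Ps (σ z)) ∧ ∀ u ∈ D, ipc u = 0 := by
  have hcard := h.toWHom.cardT
  have hfil : (T.biUnion fun x => pkf (B x) (Ps x)).filter (fun u => ρ (host u) = z)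
      = pkf (B (σ z)) (Ps (σ z)) := fil_host H.hst H.rk (by rw [hcard]; exact hz)
  refine ⟨fun u hu => ?_, fun u hu => by exact_mod_cast (hD' u hu).2⟩
  rw [← hfil]
  exact mem_filter.2 ⟨hD hu, (hD' u hu).1⟩

/-- **the exact row test with a gain, version [C]** -/
theorem WItC.rowTC (h : WCoreK G Z T r m n p hm) (H : WItC G Z T hm r n φ B Ps host ρ σ)
    {gn : ℕ → Finset (Itm V) → ℤ} (hG : GainP G n B Ps σ gn) :
    RowTC gn ((r : ℤ) - 1) n (fun i => tI G Z T hm r Z (σ i)) (fun i => sI hm r Z (σ i))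
      (fun i => ∑ u ∈ pkf (B (σ i)) (Ps (σ i)), (ivl u : ℤ))
      (T.biUnion fun x => pkf (B x) (Ps x)) (fun u => ρ (host u)) (fun u => (ivl u : ℤ))
      (fun i u => (ikp (tlo G T hm) (σ i) u : ℤ))
      (fun i u => (imn G (cz G Z T hm) (tlo G T hm) (σ i) u : ℤ)) (fun u => (ipc u : ℤ))
      (fun i j => pcn (tlo G T hm) B (σ i) (σ j)) (fun i j => kqw G Z T hm B (σ i) (σ j))
      (fun i j => nxw G Z T hm B (σ i) (σ j)) (fun i j => ssw G T hm Ps (σ i) (σ j)) := by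
  intro z hz X hX Y hY D hD hD' K hK hKh g hg1 hg2 sv hS
  beta_reduce at hD' hKh
  have hcard := h.toWHom.cardT
  have hmem : ∀ i < n, σ i ∈ T := fun i hi => H.rk.mem i (by rw [hcard]; exact hi)
  obtain ⟨hDh, hpc⟩ := drop_home h H hz hD hD'
  obtain ⟨Dd, hDd⟩ : ∃ Dd, Dd = dpcI G (cz G Z T hm (σ z)) (tlo G T hm) (B (σ z))
    ((X \ Y).image σ) (Y.image σ) ∪ D := ⟨_, rfl⟩
  have e0 := sum_sdiff hY (f := fun l => kqw G Z T hm B (σ z) (σ l))
  beta_reduce at e0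
  obtain ⟨A, hA1, hA2⟩ := hG z hz D hDh hpc
  obtain ⟨e1, e2, e3⟩ := WItC.enXYA h H hz (σ z) (X := X \ Y) (Y := Y)
    (L := (range n).erase z \ X) (sdiff_subset.trans hX) (hY.trans hX) sdiff_disjoint
    (sdiff_subset.trans (erase_subset _ _))
    (fun l hl _ h2 h3 => mem_sdiff.2 ⟨hl, fun h4 => h2 (mem_sdiff.2 ⟨h4, h3⟩)⟩) hDh hpc hDd
    (M := ∑ u ∈ pkf (B (σ z)) (Ps (σ z)), (ivl u : ℤ) - ∑ l ∈ X, kqw G Z T hm B (σ z) (σ l)
      - ∑ l ∈ Y, (pcn (tlo G T hm) B (σ z) (σ l) - kqw G Z T hm B (σ z) (σ l))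
      - ∑ u ∈ D, (ivl u : ℤ))
    (q := ∑ l ∈ X, kqw G Z T hm B (σ z) (σ l)
      + ∑ l ∈ Y, (pcn (tlo G T hm) B (σ z) (σ l) - kqw G Z T hm B (σ z) (σ l))
      + ∑ u ∈ D, ((ivl u : ℤ) + 1))
    (by
      rw [sum_sub_distrib]
      linarith)
    (by
      rw [sum_sub_distrib]
      linarith) (A := A) (by
      rw [hDd, kpP_dpc]
      exact hA2)
  have h1 := h.rowtD1 (fun x hx => (H.pk x hx).toPk) (fun x hx => (H.pk x hx).min) H.hst H.rk hz
    e1 (le_refl _)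
  refine h1.tstS e2 ?_ hK hKh hg1 hg2 hS
  have h2 : pcs (tlo G T hm) (kpB (B (σ z)) Dd) (σ z) = ∅ := by
    rw [eq_empty_iff_forall_notMem]
    intro e he
    obtain ⟨h3, h4⟩ := mem_pcs.1 he
    have h5 := h.toWHom.ht _ (hmem z hz) e.1 ((H.pk _ (hmem z hz)).bH e (kpB_sub h3))
    exact (mem_erase.1 h5).1 h4
  have h3 : (0 : ℤ) ≤ (E G ((pcs (tlo G T hm) (kpB (B (σ z)) Dd) (σ z)).image Prod.fst) : ℤ) :=
    Int.natCast_nonneg _
  rw [h2, sum_empty, mul_zero, add_zero] at e3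
  rw [h2] at h3
  unfold NX0
  beta_reduce
  unfold endK at e3
  linarith

/-- **the row test with the columns of `j` and a gain, version [C]** -/
theorem WItC.rowPC (hp : 2 * r ≤ p) (h : WCoreK G Z T r m n p hm)
    (H : WItC G Z T hm r n φ B Ps host ρ σ)
    {gn : ℕ → Finset (Itm V) → ℤ} (hG : GainP G n B Ps σ gn) :
    RowPC gn ((r : ℤ) - 1) n (fun i => tI G Z T hm r Z (σ i)) (fun i => sI hm r Z (σ i))
      (fun i => ∑ u ∈ pkf (B (σ i)) (Ps (σ i)), (ivl u : ℤ))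
      (T.biUnion fun x => pkf (B x) (Ps x)) (fun u => ρ (host u)) (fun u => (ivl u : ℤ))
      (fun i u => (ikp (tlo G T hm) (σ i) u : ℤ))
      (fun i u => (imn G (cz G Z T hm) (tlo G T hm) (σ i) u : ℤ)) (fun u => (ipc u : ℤ))
      (fun u => (iar G (cz G Z T hm (host u)) u : ℤ))
      (fun i j => pcn (tlo G T hm) B (σ i) (σ j)) (fun i j => kqw G Z T hm B (σ i) (σ j))
      (fun i j => nxw G Z T hm B (σ i) (σ j)) (fun i j => ssw G T hm Ps (σ i) (σ j)) := by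
  intro z hz j hj hjz X hX hjX Y hY D hD hD' K hK hKh g hg1 hg2 sv hS
  beta_reduce at hD' hKh
  have hcard := h.toWHom.cardT
  have hmem : ∀ i < n, σ i ∈ T := fun i hi => H.rk.mem i (by rw [hcard]; exact hi)
  have hinj : ∀ a < n, ∀ b < n, σ a = σ b → a = b := fun a ha b hb hab =>
    H.rk.sinj (by rw [hcard]; exact ha) (by rw [hcard]; exact hb) hab
  obtain ⟨hDh, hpc⟩ := drop_home h H hz hD hD'
  obtain ⟨Dd, hDd⟩ : ∃ Dd, Dd = dpcI G (cz G Z T hm (σ z)) (tlo G T hm) (B (σ z))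
    ((X \ Y).image σ) (Y.image σ) ∪ D := ⟨_, rfl⟩
  have e0 := sum_sdiff hY (f := fun l => kqw G Z T hm B (σ z) (σ l))
  beta_reduce at e0
  obtain ⟨A, hA1, hA2⟩ := hG z hz D hDh hpc
  obtain ⟨e1, e2, e3⟩ := WItC.enXYA h H hz (σ j) (X := X \ Y) (Y := Y)
    (L := ((range n).erase z).erase j \ X) (sdiff_subset.trans hX) (hY.trans hX) sdiff_disjoint
    (sdiff_subset.trans ((erase_subset _ _).trans (erase_subset _ _)))
    (fun l hl h1 h2 h3 => mem_sdiff.2 ⟨mem_erase.2 ⟨fun h4 => h1 (by rw [h4]), hl⟩,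
      fun h4 => h2 (mem_sdiff.2 ⟨h4, h3⟩)⟩) hDh hpc hDd
    (M := ∑ u ∈ pkf (B (σ z)) (Ps (σ z)), (ivl u : ℤ) - ∑ l ∈ X, kqw G Z T hm B (σ z) (σ l)
      - ∑ l ∈ Y, (pcn (tlo G T hm) B (σ z) (σ l) - kqw G Z T hm B (σ z) (σ l))
      - ∑ u ∈ D, (ivl u : ℤ))
    (q := ∑ l ∈ X, kqw G Z T hm B (σ z) (σ l)
      + ∑ l ∈ Y, (pcn (tlo G T hm) B (σ z) (σ l) - kqw G Z T hm B (σ z) (σ l))
      + ∑ u ∈ D, ((ivl u : ℤ) + 1))
    (by
      rw [sum_sub_distrib]
      linarith)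
    (by
      rw [sum_sub_distrib]
      linarith) (A := A) (by
      rw [hDd, kpP_dpc]
      exact hA2)
  -- the dropped PC pairs have other tails
  have hkp : ∀ u ∈ dpcI G (cz G Z T hm (σ z)) (tlo G T hm) (B (σ z)) ((X \ Y).image σ)
      (Y.image σ), ikp (tlo G T hm) (σ j) u = 0 := by
    intro u hu
    rcases u with P | e
    · have h1 := (dpc_ipc hu).1
      simp [ipc] at h1
    · have h1 := (inr_mem_dpc.1 hu).2
      have h2 : ∃ l ∈ X, tlo G T hm e.1 = σ l := by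
        rcases h1 with ⟨h1, -⟩ | h1
        · obtain ⟨l, hl, h2⟩ := mem_image.1 h1
          exact ⟨l, (mem_sdiff.1 hl).1, h2.symm⟩
        · obtain ⟨l, hl, h2⟩ := mem_image.1 h1
          exact ⟨l, hY hl, h2.symm⟩
      obtain ⟨l, hl, h2⟩ := h2
      simp only [ikp]
      rw [if_neg]
      intro h3
      exact hjX (hinj l (mem_range.1 (hX hl)) j hj (h2.symm.trans h3) ▸ hl)
  have h1 := h.rowgD1 hp (fun x hx => (H.pk x hx).toPk) (fun x hx => (H.pk x hx).min) H.hst H.rk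
    hz hj (fun h2 => hjz h2.symm) e1
    (En := 2 * eI G hm (Z \ Dd.biUnion imem) (σ z)
      + E G ((pcs (tlo G T hm) (kpB (B (σ z)) Dd) (σ j)).image Prod.fst)
      - 2 * ∑ e ∈ pcs (tlo G T hm) (kpB (B (σ z)) Dd) (σ j), (nd G (cz G Z T hm (σ z)) e.1 : ℤ))
    (by linarith)
  refine h1.tstS e2 ?_ ?_ ?_ hK hKh hg1 hg2 hS
  · unfold NX0
    beta_reduce
    unfold endK at e3
    linarith
  · rw [hDd]
    refine sum_eq_zero fun u hu => ?_
    beta_reduce
    rcases mem_union.1 hu with h2 | h2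
    · rw [hkp u h2]
      simp
    · rw [hpc u h2]
      simp
  · refine sum_hits_le (kp := fun i u => (ikp (tlo G T hm) (σ i) u : ℤ))
      (mn := fun i u => (imn G (cz G Z T hm) (tlo G T hm) (σ i) u : ℤ))
      (ms := fun i u => (ims G (cz G Z T hm) (tlo G T hm) (σ i) u : ℤ))
      (ho := fun u => ρ (host u)) (j := j) (fun u hu => hDd ▸ mem_union_right _ hu)
      (fun u hu hu' => ?_) (fun u => Int.natCast_nonneg _) fun u => ?_
    · rw [hDd] at hu
      rcases mem_union.1 hu with h2 | h2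
      · have h3 := hkp u h2
        show (ikp (tlo G T hm) (σ j) u : ℤ) = 0
        rw [h3]
        rfl
      · exact absurd h2 hu'
    · show (ims G (cz G Z T hm) (tlo G T hm) (σ j) u : ℤ)
          ≤ (imn G (cz G Z T hm) (tlo G T hm) (σ j) u : ℤ)
      exact_mod_cast ims_le_imn (G := G) (C := cz G Z T hm) (tl := tlo G T hm) (z := σ j)
        (u := u)

/-- the misses of an item of value one -/
private lemma imn_le_ims {C : V → Finset V} {tl : V → V} {z : V} {u : Itm V} (h : ivl u = 1) :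
    imn G C tl z u ≤ ims G C tl z u := by
  by_cases hk : ikp tl z u = 0
  · have h1 := imn_load (G := G) (C := C) (tl := tl) (z := z) (u := u)
    rw [hk, zero_mul] at h1
    omega
  · exact (imn_eq h hk).le

/-- **the row test with a rectangle and a gain, version [C]** -/
theorem WItC.rowEC (h : WCoreK G Z T r m n p hm)
    (H : WItC G Z T hm r n φ B Ps host ρ σ)
    {gn : ℕ → Finset (Itm V) → ℤ} (hG : GainP G n B Ps σ gn) :
    RowEC gn ((r : ℤ) - 1) n (fun i => tI G Z T hm r Z (σ i)) (fun i => sI hm r Z (σ i))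
      (fun i => ∑ u ∈ pkf (B (σ i)) (Ps (σ i)), (ivl u : ℤ))
      (T.biUnion fun x => pkf (B x) (Ps x)) (fun u => ρ (host u)) (fun u => (ivl u : ℤ))
      (fun i u => (ikp (tlo G T hm) (σ i) u : ℤ))
      (fun i u => (imn G (cz G Z T hm) (tlo G T hm) (σ i) u : ℤ)) (fun u => (ipc u : ℤ))
      (fun u => (iar G (cz G Z T hm (host u)) u : ℤ))
      (fun i j => pcn (tlo G T hm) B (σ i) (σ j)) (fun i j => kqw G Z T hm B (σ i) (σ j))
      (fun i j => nxw G Z T hm B (σ i) (σ j)) (fun i j => ssw G T hm Ps (σ i) (σ j)) := by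
  intro z hzn j hj hjz X hX hjX Y hY D hD hD' K hK hKh g hg1 hg2 EX hEX sv hS
  beta_reduce at hD' hKh hEX
  have hcard := h.toWHom.cardT
  have hpk : ∀ x ∈ T, Pk G (cz G Z T hm x) (hz G Z T hm x) (tlo G T hm) (B x) (Ps x) :=
    fun x hx => (H.pk x hx).toPk
  have hmem : ∀ i < n, σ i ∈ T := fun i hi => H.rk.mem i (by rw [hcard]; exact hi)
  have hinj : ∀ a < n, ∀ b < n, σ a = σ b → a = b := fun a ha b hb hab =>
    H.rk.sinj (by rw [hcard]; exact ha) (by rw [hcard]; exact hb) hab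
  have hzj : σ z ≠ σ j := fun h1 => hjz (hinj z hzn j hj h1).symm
  have hg2' : ∀ u ∈ K, g u ≤ ikp (tlo G T hm) (σ z) u := fun u hu => by
    have h5 : (g u : ℤ) ≤ (ikp (tlo G T hm) (σ z) u : ℤ) := hg2 u hu
    exact_mod_cast h5
  have hk : ∀ u ∈ K, ikp (tlo G T hm) (σ z) u ≠ 0 := fun u hu h3 => by
    have := hg1 u hu
    have := hg2' u hu
    omega
  have hmK : ∀ u ∈ K, ∃ x ∈ T, u ∈ pkf (B x) (Ps x) ∧ host u = x := by
    intro u hu
    obtain ⟨x, hx, hux⟩ := mem_biUnion.1 (hK hu)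
    exact ⟨x, hx, hux, H.hst x hx u hux⟩
  have hK' : K ⊆ (T.erase (σ z)).biUnion fun x => pkf (B x) (Ps x) := by
    intro u hu
    obtain ⟨x, hx, hux⟩ := mem_biUnion.1 (hK hu)
    refine mem_biUnion.2 ⟨x, mem_erase.2 ⟨fun h1 => hKh u hu ?_, hx⟩, hux⟩
    show ρ (host u) = z
    rw [H.hst x hx u hux, h1]
    exact H.rk.right z (by rw [hcard]; exact hzn)
  have hsty : ∀ u ∈ K, (u ∈ pkf (B (σ j)) (Ps (σ j)) ↔ ρ (host u) = j) := by
    intro u hu
    obtain ⟨x, hx, hux, hxx⟩ := hmK u hu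
    constructor
    · intro h1
      rw [H.hst _ (hmem j hj) u h1]
      exact H.rk.right j (by rw [hcard]; exact hj)
    · intro h1
      rw [hxx] at h1
      have h2 := H.rk.left x hx
      rw [h1] at h2
      exact h2 ▸ hux
  obtain ⟨hDh, hpc⟩ := drop_home h H hzn hD hD'
  obtain ⟨Dd, hDd⟩ : ∃ Dd, Dd = dpcI G (cz G Z T hm (σ z)) (tlo G T hm) (B (σ z))
    ((X \ Y).image σ) (Y.image σ) ∪ D := ⟨_, rfl⟩
  have e0 := sum_sdiff hY (f := fun l => kqw G Z T hm B (σ z) (σ l))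
  beta_reduce at e0
  obtain ⟨A, hA1, hA2⟩ := hG z hzn D hDh hpc
  obtain ⟨e1, e2, e3⟩ := WItC.enXYA h H hzn (σ z) (X := X \ Y) (Y := Y)
    (L := (range n).erase z \ X) (sdiff_subset.trans hX) (hY.trans hX) sdiff_disjoint
    (sdiff_subset.trans (erase_subset _ _))
    (fun l hl _ h2 h3 => mem_sdiff.2 ⟨hl, fun h4 => h2 (mem_sdiff.2 ⟨h4, h3⟩)⟩) hDh hpc hDd
    (M := ∑ u ∈ pkf (B (σ z)) (Ps (σ z)), (ivl u : ℤ) - ∑ l ∈ X, kqw G Z T hm B (σ z) (σ l)
      - ∑ l ∈ Y, (pcn (tlo G T hm) B (σ z) (σ l) - kqw G Z T hm B (σ z) (σ l))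
      - ∑ u ∈ D, (ivl u : ℤ))
    (q := ∑ l ∈ X, kqw G Z T hm B (σ z) (σ l)
      + ∑ l ∈ Y, (pcn (tlo G T hm) B (σ z) (σ l) - kqw G Z T hm B (σ z) (σ l))
      + ∑ u ∈ D, ((ivl u : ℤ) + 1))
    (by
      rw [sum_sub_distrib]
      linarith)
    (by
      rw [sum_sub_distrib]
      linarith) (A := A) (by
      rw [hDd, kpP_dpc]
      exact hA2)
  -- the dropped items have no end at `j`, or are plain
  have hkp : ∀ u ∈ dpcI G (cz G Z T hm (σ z)) (tlo G T hm) (B (σ z)) ((X \ Y).image σ)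
      (Y.image σ), ikp (tlo G T hm) (σ j) u = 0 := by
    intro u hu
    rcases u with P | e
    · have h1 := (dpc_ipc hu).1
      simp [ipc] at h1
    · have h1 := (inr_mem_dpc.1 hu).2
      have h2 : ∃ l ∈ X, tlo G T hm e.1 = σ l := by
        rcases h1 with ⟨h1, -⟩ | h1
        · obtain ⟨l, hl, h2⟩ := mem_image.1 h1
          exact ⟨l, (mem_sdiff.1 hl).1, h2.symm⟩
        · obtain ⟨l, hl, h2⟩ := mem_image.1 h1
          exact ⟨l, hY hl, h2.symm⟩
      obtain ⟨l, hl, h2⟩ := h2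
      simp only [ikp]
      rw [if_neg]
      intro h3
      exact hjX (hinj l (mem_range.1 (hX hl)) j hj (h2.symm.trans h3) ▸ hl)
  have hDj : ∑ u ∈ Dd, (ipc u : ℤ) * (ikp (tlo G T hm) (σ j) u : ℤ) = 0 := by
    rw [hDd]
    refine sum_eq_zero fun u hu => ?_
    rcases mem_union.1 hu with h2 | h2
    · rw [hkp u h2]
      simp
    · rw [hpc u h2]
      simp
  -- the payment
  have hpay : ∃ P : ℤ, EX ≤ P ∧ PayS G Z T hm B Ps (kpB (B (σ z)) Dd) (kpP (Ps (σ z)) Dd) ∅ K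
      (xlv G (cz G Z T hm) (tlo G T hm) (σ z) g) (σ z) (σ j) P := by
    rcases hEX with h1 | ⟨w, hw, h1, h2⟩
    · exact ⟨0, h1, payS_zero⟩
    · have h1' : ivl w = 1 := by
        have h3 : (ivl w : ℤ) = 1 := h1
        exact_mod_cast h3
      obtain ⟨x', hx', hwx⟩ := mem_biUnion.1 hw
      refine ⟨_, ?_, h.toWHom.payS_item hpk (hmem z hzn) (hmem j hj) hzj hK' hk
        (fun Q => xlv_sub) hx' hwx⟩
      refine h2.trans (mul_le_mul (max_le_max le_rfl ?_) (max_le_max le_rfl ?_)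
        (le_max_left _ _) (le_max_left _ _))
      · have h3 := card_pcs_kp (tl := tlo G T hm) (y := σ j) e1
        have h4 : ((pcs (tlo G T hm) (B (σ z)) (σ j)).card : ℤ)
          = pcn (tlo G T hm) B (σ z) (σ j) := rfl
        have h5 := imn_le_ims (G := G) (C := cz G Z T hm) (tl := tlo G T hm) (z := σ z)
          (u := w) h1'
        have h6 : (imn G (cz G Z T hm) (tlo G T hm) (σ z) w : ℤ)
          ≤ (ims G (cz G Z T hm) (tlo G T hm) (σ z) w : ℤ) := by exact_mod_cast h5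
        rw [hDj] at h3
        rw [card_empty, h3, h4]
        push_cast
        linarith
      · have h5 := imn_le_ims (G := G) (C := cz G Z T hm) (tl := tlo G T hm) (z := σ j)
          (u := w) h1'
        have h6 : (imn G (cz G Z T hm) (tlo G T hm) (σ j) w : ℤ)
          ≤ (ims G (cz G Z T hm) (tlo G T hm) (σ j) w : ℤ) := by exact_mod_cast h5
        have h7 : ∑ u ∈ K, (if u ∈ pkf (B (σ j)) (Ps (σ j)) then (ipc u : ℤ) else 0)
            = ∑ u ∈ K, (if ρ (host u) = j then (ipc u : ℤ) else 0) := by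
          refine sum_congr rfl fun u hu => ?_
          by_cases h8 : ρ (host u) = j
          · rw [if_pos h8, if_pos ((hsty u hu).2 h8)]
          · rw [if_neg h8, if_neg fun h9 => h8 ((hsty u hu).1 h9)]
        rw [h7]
        linarith
  obtain ⟨P, hEP, hP⟩ := hpay
  have hE := h.toWHom.rowM_keep hpk (({j} : Finset ℕ).image σ).card (hmem z hzn)
    (kpB_sub (B := B (σ z)) (D := Dd)) (kpP_sub (Ps := Ps (σ z)) (D := Dd)) (empty_subset _)
    (fun e _ => notMem_empty _) (notMem_empty _) (J := ({j} : Finset ℕ).image σ)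
    (by
      rw [image_singleton, singleton_subset_iff]
      exact hmem j hj)
    (by
      rw [image_singleton, mem_singleton]
      exact hzj) hK' hk (X := xlv G (cz G Z T hm) (tlo G T hm) (σ z) g) (fun Q => xlv_sub)
    (P := fun _ => P)
    (by
      intro l hl
      rw [image_singleton, mem_singleton] at hl
      rw [hl]
      exact hP)
  have hsv := h.savGL hpk (fun x hx => (H.pk x hx).min) H.hst H.rk hzn hj hK hKh hg1 hg2' hS
  have hE0 : (0 : ℤ) ≤ (E G ((upc (tlo G T hm) (σ z) (pkf (B (σ j)) (Ps (σ j))) K).image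
    Prod.fst) : ℤ) := Int.natCast_nonneg _
  obtain ⟨sv', hsv'⟩ : ∃ sv' : ℤ, sv'
      = sv + 2 * ((∑ u ∈ K, if ρ (host u) = j then (ipc u : ℤ) else 0)
        * ((K.filter fun u => ρ (host u) = j ∧ (ipc u : ℤ) = 0
          ∧ ∀ l < n, l ≠ z → (ikp (tlo G T hm) (σ l) u : ℤ) = 0).card : ℤ)) := ⟨_, rfl⟩
  have h1 := h.toWHom.rowLD hpk H.hst H.rk hzn (J := {j})
    (fun l hl => by
      rw [mem_singleton.1 hl]
      exact hj) (fun hl => hjz (mem_singleton.1 hl).symm) e1 hK hKh hg1 hg2'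
    (EX := 2 * ∑ l ∈ ({j} : Finset ℕ).image σ, P) hE (sv := sv')
    (by
      rw [image_singleton, singleton_biUnion, hsv']
      have h2 : CP G Z T (fun x => Z.filter fun v => hm v = x) (σ j) = cz G Z T hm (σ j) := rfl
      rw [h2]
      linarith)
  simp only [sum_singleton, card_singleton, mem_singleton, Nat.cast_one, image_singleton] at h1
  rw [e2] at h1
  simp only [ilm_cast] at h1
  have e4 : ∀ u ∈ K, (if ρ (host u) = j then
          (iar G (cz G Z T hm (host u)) u : ℤ)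
            - ((g u : ℤ) + 1 - ipc u) * (tI G Z T hm r Z (σ j) - tI G Z T hm r Z (host u))
          else ((g u : ℤ) + 1) * ((r : ℤ) - 1 - tI G Z T hm r Z (σ j)))
      = if ρ (host u) = j then (iar G (cz G Z T hm (host u)) u : ℤ)
          else ((g u : ℤ) + 1) * ((r : ℤ) - 1 - tI G Z T hm r Z (σ j)) := by
    intro u hu
    by_cases h2 : ρ (host u) = j
    · have h3 : host u = σ j := by
        obtain ⟨x, hx, -, hxx⟩ := hmK u hu
        rw [hxx] at h2 ⊢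
        rw [← h2]
        exact (H.rk.left x hx).symm
      rw [if_pos h2, if_pos h2, h3, sub_self, mul_zero, sub_zero]
    · rw [if_neg h2, if_neg h2]
  rw [sum_congr rfl e4, hDj, sub_zero] at h1
  have hfil : (T.biUnion fun x => pkf (B x) (Ps x)).filter (fun u => ρ (host u) = z)
      = pkf (B (σ z)) (Ps (σ z)) := fil_host H.hst H.rk (by rw [hcard]; exact hzn)
  have h8 : ∀ inst : DecidablePred fun u : Itm V => ρ (host u) = z ∧ u ∉ Dd,
      @filter (Itm V) (fun u => ρ (host u) = z ∧ u ∉ Dd) inst (T.biUnion fun x => pkf (B x) (Ps x))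
      = pkf (B (σ z)) (Ps (σ z)) \ Dd := by
    intro inst
    ext u
    rw [mem_sdiff, ← hfil]
    simp only [mem_filter]
    tauto
  have hSA := sum_hits_le (U := T.biUnion fun x => pkf (B x) (Ps x))
    (kp := fun i u => (ikp (tlo G T hm) (σ i) u : ℤ))
    (mn := fun i u => (imn G (cz G Z T hm) (tlo G T hm) (σ i) u : ℤ))
    (ms := fun i u => (ims G (cz G Z T hm) (tlo G T hm) (σ i) u : ℤ))
    (ho := fun u => ρ (host u)) (z := z) (j := j) (c := (r : ℤ) - 1 - tI G Z T hm r Z (σ j))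
    (D := Dd) (D' := D) (fun u hu => hDd ▸ mem_union_right _ hu)
    (fun u hu hu' => by
      rw [hDd] at hu
      rcases mem_union.1 hu with h2 | h2
      · have h3 := hkp u h2
        show (ikp (tlo G T hm) (σ j) u : ℤ) = 0
        rw [h3]
        rfl
      · exact absurd h2 hu')
    (fun u => Int.natCast_nonneg _)
    (fun u => by
      show (ims G (cz G Z T hm) (tlo G T hm) (σ j) u : ℤ)
          ≤ (imn G (cz G Z T hm) (tlo G T hm) (σ j) u : ℤ)
      exact_mod_cast ims_le_imn (G := G) (C := cz G Z T hm) (tl := tlo G T hm) (z := σ j)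
        (u := u))
  rw [h8] at hSA
  have hms : ∑ u ∈ K, ((g u : ℤ) * ((r : ℤ) - 1 - tI G Z T hm r Z (σ z))
        - if (ikp (tlo G T hm) (σ z) u : ℤ) ≤ (g u : ℤ)
          then (imn G (cz G Z T hm) (tlo G T hm) (σ z) u : ℤ) else 0)
      = (∑ u ∈ K, (g u : ℤ)) * ((r : ℤ) - 1 - tI G Z T hm r Z (σ z))
        - ∑ u ∈ K, msP (fun i u => (ikp (tlo G T hm) (σ i) u : ℤ))
          (fun i u => (imn G (cz G Z T hm) (tlo G T hm) (σ i) u : ℤ)) z g u := by
    rw [sum_sub_distrib, sum_mul]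
    rfl
  rw [hms] at h1
  have h2 : pcs (tlo G T hm) (kpB (B (σ z)) Dd) (σ z) = ∅ := by
    rw [eq_empty_iff_forall_notMem]
    intro e he
    obtain ⟨h3, h4⟩ := mem_pcs.1 he
    have h5 := h.toWHom.ht _ (hmem z hzn) e.1 ((H.pk _ (hmem z hzn)).bH e (kpB_sub h3))
    exact (mem_erase.1 h5).1 h4
  have h3 : (0 : ℤ) ≤ (E G ((pcs (tlo G T hm) (kpB (B (σ z)) Dd) (σ z)).image Prod.fst) : ℤ) :=
    Int.natCast_nonneg _
  rw [h2, sum_empty, mul_zero, add_zero] at e3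
  rw [h2] at h3
  rw [hsv'] at h1
  clear hsv hE hP hsv' hE0 hS e0
  refine pFormE (h := sI hm r Z (σ z) + tI G Z T hm r Z (σ z) + 1) h1 hSA hEP ?_ (by ring)
  unfold NX0
  beta_reduce
  unfold endK at e3
  linarith

end World

end Pool.Agent.Lib.MP_f04ccf_co
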