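import Pool.Agent.Lib.MP_f04ccf_co.M.LemA

/-!
MP_f04ccf_co: corollaries (A1), (A2), (Aj) of Lemma A (note 14781).
-/

set_option autoImplicit false

namespace Pool.Agent.Lib.MP_f04ccf_co.Mn

open Finset

attribute [local instance] Classical.propDecidable

variable {V : Type*} {r : ℕ} {c : V → V → Fin r} {hc : ∀ x y, c x y = c y x}
  {U0 U : Finset V} {i : Fin r} {k : ℕ}

/-- (A) with all terms: `T` is the maximum independent set of Lemma A -/
theorem MinU.A_full (h : MinU hc U0 i k U) {J : Finset V} (hJ : J ⊆ U)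
    (hi : Ind (col c hc i) J) (hJk : J.card < k)
    (hN : (NJ (col c hc i) U J).card + (r - k) ≤ (J.card + 1) * r)
    (w : V → ℕ) (hw : ∀ z ∈ J, ∀ K ⊆ U, z ∈ K → Clq (col c hc i) K → K.card ≤ w z) :
    ∃ T ⊆ U, J ⊆ T ∧ Ind (col c hc i) T ∧ T.card = k ∧
      (∀ y ∈ T, y ∉ J → ∀ z ∈ pn (col c hc i) U T y, dg (col c hc i) U y ≤ dg (col c hc i) U z) ∧
      ((r : ℤ) - 1) * (2 + ∑ v ∈ DD (col c hc i) U T, ((dg (col c hc i) T v : ℤ) - 2)
        + ∑ z ∈ J, ((r : ℤ) - 1 - w z - ((dg (col c hc i) U z : ℤ) - r)))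
      + (∑ z ∈ J, ∑ v ∈ pn (col c hc i) U T z, ((dg (col c hc i) U v : ℤ) - r)
      + ∑ v ∈ DD (col c hc i) U T, ((dg (col c hc i) U v : ℤ) - r)) ≤ XX hc i U := by
  obtain ⟨m, hm⟩ : ∃ m, (NJ (col c hc i) U J).card + m = (J.card + 1) * r :=
    ⟨(J.card + 1) * r - (NJ (col c hc i) U J).card, by omega⟩
  have hmk : r - k ≤ m := by omega
  obtain ⟨T, hT, hJT, hTi, hTc, h1, h2⟩ := h.lemA hJ hi hJk hm
  refine ⟨T, hT, hJT, hTi, hTc, h1, h.ineqA hT hJT hTi hTc h1 ?_ w hw⟩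
  intro y hy hyJ
  have h3 := h2 y hy hyJ
  have h4 := h.X_le
  by_contra hlt
  push Not at hlt
  have h5 : (r : ℤ) ≤ (dg (col c hc i) U y : ℤ) - r := by linarith
  have h6 : (r : ℤ) - k ≤ m := by
    have := h.kr
    omega
  have h7 : (0 : ℤ) < r := by have := h.kr; omega
  nlinarith [mul_le_mul_of_nonneg_left h5 (show (0 : ℤ) ≤ (m : ℤ) + 1 by positivity)]

/-- (Aj) -/
theorem MinU.Aj (h : MinU hc U0 i k U) {J : Finset V} (hJ : J ⊆ U)
    (hi : Ind (col c hc i) J) (hJk : J.card < k)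
    (hN : (NJ (col c hc i) U J).card + (r - k) ≤ (J.card + 1) * r)
    (w : V → ℕ) (hw : ∀ z ∈ J, ∀ K ⊆ U, z ∈ K → Clq (col c hc i) K → K.card ≤ w z) :
    ∑ z ∈ J, ((r : ℤ) - 1 - w z - ((dg (col c hc i) U z : ℤ) - r)) ≤ r - k - 2 := by
  obtain ⟨T, hT, hJT, hTi, hTc, -, h1⟩ := h.A_full hJ hi hJk hN w hw
  have h2 := h.X_le
  have h3 : (0 : ℤ) ≤ ∑ v ∈ DD (col c hc i) U T, ((dg (col c hc i) T v : ℤ) - 2) :=
    sum_nonneg fun v hv => by
      have := h.two_le_f hT hTi hTc hv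
      omega
  have h4 : (0 : ℤ) ≤ ∑ z ∈ J, ∑ v ∈ pn (col c hc i) U T z, ((dg (col c hc i) U v : ℤ) - r) :=
    sum_nonneg fun z _ => sum_nonneg fun v hv => h.eps_nonneg (pn_sub _ _ _ hv)
  have h5 : (0 : ℤ) ≤ ∑ v ∈ DD (col c hc i) U T, ((dg (col c hc i) U v : ℤ) - r) :=
    sum_nonneg fun v hv => h.eps_nonneg (mem_sdiff.1 hv).1
  have hk := h.k2
  have hr := h.kr
  have hk' : (2 : ℤ) ≤ k := by exact_mod_cast hk
  have hr' : (k : ℤ) + 1 ≤ r := by exact_mod_cast hr
  by_contra hlt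
  push Not at hlt
  have h6 : (r : ℤ) - k + 1 ≤ 2 + ∑ v ∈ DD (col c hc i) U T, ((dg (col c hc i) T v : ℤ) - 2)
        + ∑ z ∈ J, ((r : ℤ) - 1 - w z - ((dg (col c hc i) U z : ℤ) - r)) := by omega
  have h7 := mul_le_mul_of_nonneg_left h6 (show (0 : ℤ) ≤ (r : ℤ) - 1 by linarith)
  nlinarith

/-- (A1) a clique number plus excess is at least `k + 1` -/
theorem MinU.A1 (h : MinU hc U0 i k U) {z : V} (hz : z ∈ U) (w : ℕ)
    (hw : ∀ K ⊆ U, z ∈ K → Clq (col c hc i) K → K.card ≤ w) :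
    (k : ℤ) + 1 ≤ w + ((dg (col c hc i) U z : ℤ) - r) := by
  by_cases hx : dg (col c hc i) U z + 1 ≤ r + k
  · have hr := h.kr
    have hN : (NJ (col c hc i) U {z}).card = dg (col c hc i) U z + 1 := by
      rw [← nb_card _ hz]
      congr 1
      ext v
      rw [mem_NJ, nb, mem_filter]
      simp [eq_comm]
    have h1 := h.Aj (J := {z}) (singleton_subset_iff.2 hz)
      (by intro x hx y hy; simp at hx hy; subst hx; subst hy; simp)
      (by rw [card_singleton]; have := h.k2; omega)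
      (by rw [hN, card_singleton]; omega) (fun _ => w)
      (fun y hy K hK hyK hq => hw K hK (by rw [mem_singleton] at hy; rwa [← hy]) hq)
    rw [sum_singleton] at h1
    linarith
  · have h1 := hw {z} (singleton_subset_iff.2 hz) (mem_singleton_self z)
      (by intro x hx y hy hxy; simp at hx hy; exact absurd (hx.trans hy.symm) hxy)
    rw [card_singleton] at h1
    omega

/-- (A2) two nonadjacent vertices -/
theorem MinU.A2 (h : MinU hc U0 i k U) (hk : 3 ≤ k) {z z' : V} (hz : z ∈ U) (hz' : z' ∈ U)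
    (hne : z ≠ z') (hadj : ¬ (col c hc i).Adj z z')
    (hx : dg (col c hc i) U z + dg (col c hc i) U z' + 2 ≤
      2 * r + k + cdg (col c hc i) U z z') (w w' : ℕ)
    (hw : ∀ K ⊆ U, z ∈ K → Clq (col c hc i) K → K.card ≤ w)
    (hw' : ∀ K ⊆ U, z' ∈ K → Clq (col c hc i) K → K.card ≤ w') :
    (r : ℤ) + k ≤ (w + ((dg (col c hc i) U z : ℤ) - r)) + (w' + ((dg (col c hc i) U z' : ℤ) - r)) := by
  set G := col c hc i with hG
  have hr := h.kr
  have hi : Ind G {z, z'} := by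
    intro a ha b hb hab
    simp only [mem_insert, mem_singleton] at ha hb
    rcases ha with rfl | rfl <;> rcases hb with rfl | rfl
    · exact hab.ne rfl
    · exact hadj hab
    · exact hadj hab.symm
    · exact hab.ne rfl
  have hcard : ({z, z'} : Finset V).card = 2 := by
    rw [card_insert_of_notMem (by rwa [mem_singleton]), card_singleton]
  have hN : (NJ G U {z, z'}).card + cdg G U z z' = (dg G U z + 1) + (dg G U z' + 1) := by
    have h3 : NJ G U {z, z'} = nb G U z ∪ nb G U z' := by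
      ext v
      simp only [mem_NJ, mem_union, nb, mem_filter, mem_insert, mem_singleton]
      constructor
      · rintro ⟨g1, (g2 | g2) | ⟨w, g2 | g2, hw⟩⟩
        · exact Or.inl ⟨g1, Or.inl g2⟩
        · exact Or.inr ⟨g1, Or.inl g2⟩
        · exact Or.inl ⟨g1, Or.inr (g2 ▸ hw)⟩
        · exact Or.inr ⟨g1, Or.inr (g2 ▸ hw)⟩
      · rintro (⟨g1, g2 | g2⟩ | ⟨g1, g2 | g2⟩)
        · exact ⟨g1, Or.inl (Or.inl g2)⟩
        · exact ⟨g1, Or.inr ⟨z, Or.inl rfl, g2⟩⟩
        · exact ⟨g1, Or.inl (Or.inr g2)⟩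
        · exact ⟨g1, Or.inr ⟨z', Or.inr rfl, g2⟩⟩
    have h4 : nb G U z ∩ nb G U z' = U.filter (fun v => G.Adj z v ∧ G.Adj z' v) := by
      ext v
      rw [mem_inter, nb, nb, mem_filter, mem_filter, mem_filter]
      constructor
      · rintro ⟨⟨g1, g2⟩, -, g3⟩
        refine ⟨g1, ?_⟩
        rcases g2 with g2 | g2 <;> rcases g3 with g3 | g3
        · exact absurd (g2.symm.trans g3) hne
        · rw [g2] at g3; exact absurd g3.symm hadj
        · rw [g3] at g2; exact absurd g2 hadj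
        · exact ⟨g2, g3⟩
      · rintro ⟨g1, g2, g3⟩
        exact ⟨⟨g1, Or.inr g2⟩, g1, Or.inr g3⟩
    have h6 := card_union_add_card_inter (nb G U z) (nb G U z')
    rw [nb_card G hz, nb_card G hz', ← h3, h4] at h6
    exact h6
  have h1 := h.Aj (J := {z, z'}) (by
      intro a ha
      simp only [mem_insert, mem_singleton] at ha
      rcases ha with rfl | rfl
      · exact hz
      · exact hz') hi (by rw [hcard]; omega) (by rw [hcard]; change (NJ G U {z, z'}).card + _ ≤ _; omega)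
    (fun v => if v = z then w else w') (by
      intro y hy K hK hyK hq
      simp only [mem_insert, mem_singleton] at hy
      rcases hy with rfl | rfl
      · simp only [if_true]; exact hw K hK hyK hq
      · rw [if_neg (Ne.symm hne)]; exact hw' K hK hyK hq)
  rw [sum_pair hne] at h1
  simp only [if_true, if_neg (Ne.symm hne)] at h1
  change _ ≤ ((w : ℤ) + ((dg G U z : ℤ) - r)) + (w' + ((dg G U z' : ℤ) - r))
  change (r : ℤ) - 1 - w - ((dg G U z : ℤ) - r) + ((r : ℤ) - 1 - w' - ((dg G U z' : ℤ) - r)) ≤ _ at h1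
  linarith

end Pool.Agent.Lib.MP_f04ccf_co.Mn
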