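import Pool.Agent.Lib.MP_f04ccf_co.M.RulM

/-!
MP_f04ccf_co, TEXT D, regime L: **TABLE M2** (74's 18280): every unit `v` has a host `x = ho v.1` and one counted
end, the main end `m = v.2.1`; the main end pays `A_x / (A_x + A_m)`, the host `A_m / (A_x + A_m)`.

* `LevC.close_M`: the closing for one counted end and any share `T v` of the main end;
* `LevC.close_M2`: table M2 with `δ z = A z / (R + 1)`;
* `LevC.few`, `LevC.unb_sq`: for `φ u i = mn i u` the main end has the fewest misses and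
  `(unb v)² ≤ R + t m * t f`.
-/

set_option autoImplicit false

namespace Pool.Agent.Lib.MP_f04ccf_co

open Finset

attribute [local instance] Classical.propDecidable

section TabM

variable {ι : Type*} {R : ℤ} {n : ℕ} {t s mu : ℕ → ℤ} {U : Finset ι} {ho : ι → ℕ} {vl : ι → ℤ}
  {kp mn : ℕ → ι → ℤ} {pc ar : ι → ℤ} {be kq NN sg : ℕ → ℕ → ℤ} {nu : ℕ → ι → ℤ}
  {φ : ι → ℕ → ℤ} {g : ℕ → ι → ℕ} {f : ι → ℕ}

/-- the counted rows when only the main end counts -/
lemma unC_main {P : ι → Prop} (hP : ∀ u, ¬ P u) (f : ι → ℕ) :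
    unC P f = fun v : ι × ℕ × ℕ => {v.2.1} := by
  funext v
  unfold unC
  exact if_neg (hP v.1)

/-- **the closing when only the main end counts**: share `T v` of the main end, `1 - T v` of the host -/
theorem LevC.close_M (Lv : LevC n U ho vl kp mn pc φ g f)
    (H : PCon R n t s mu U ho vl kp mn pc ar be kq NN sg nu) {T : ι × ℕ × ℕ → ℝ} {δ : ℕ → ℝ}
    {L : Finset ℕ} (hL : L = lightU n s (unV n U g) fun v => {v.2.1}) {F : Finset (ι × ℕ × ℕ)}
    (hF : F = freeU (unV n U g) (fun v => ho v.1) (fun v => {v.2.1}) L)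
    (h2 : ∀ z < n, z ∉ L → 1 ≤ s z + (((unV n U g).filter fun v => v.2.1 = z).card : ℤ) →
      ∑ v ∈ F.filter (fun v => ho v.1 = z), (1 - T v) + ∑ v ∈ F.filter (fun v => v.2.1 = z), T v
        ≤ (mu z : ℝ) - s z + δ z)
    (h3 : ∑ i ∈ (range n).filter (fun i => i ∉ L), δ i < 1) : False := by
  obtain ⟨P, hP⟩ : ∃ P : ι → Prop, ∀ u, ¬ P u := ⟨fun _ => False, fun _ h => h⟩
  refine Lv.close_TW0 H (P := P) (T := T) (w := fun _ => 0) (fun u _ h => (hP u h).elim)
    (fun _ _ _ => rfl) (δ := δ) (L := L) (by rw [hL, unC_main hP f]) (F := F)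
    (by rw [hF, unC_main hP f]) ?_ h3
  intro z hz hzL hz1
  have e1 : (unV n U g).filter (fun v => z ∈ unC P f v)
      = (unV n U g).filter fun v => v.2.1 = z := by
    rw [unC_main hP f]
    refine filter_congr fun v _ => ?_
    rw [mem_singleton]
    exact eq_comm
  rw [e1] at hz1
  have h4 := h2 z hz hzL hz1
  have e2 : F.filter (fun v => P v.1 ∧ f v.1 = z) = ∅ :=
    filter_false_of_mem fun v _ h => hP v.1 h.1
  have e3 : ∑ v ∈ F.filter (fun v => P v.1 ∧ f v.1 = z), (0 : ℝ) * T v = 0 := by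
    rw [e2, sum_empty]
  have e4 : ∑ v ∈ F.filter (fun v => v.2.1 = z), (1 - (0 : ℝ)) * T v
      = ∑ v ∈ F.filter (fun v => v.2.1 = z), T v :=
    sum_congr rfl fun v _ => by ring
  beta_reduce at e3 ⊢
  rw [e3, e4, add_zero]
  exact h4

/-- **REGIME L, TABLE M2, the closing** -/
theorem LevC.close_M2 (Lv : LevC n U ho vl kp mn pc φ g f)
    (H : PCon R n t s mu U ho vl kp mn pc ar be kq NN sg nu)
    {L : Finset ℕ} (hL : L = lightU n s (unV n U g) fun v => {v.2.1}) {F : Finset (ι × ℕ × ℕ)}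
    (hF : F = freeU (unV n U g) (fun v => ho v.1) (fun v => {v.2.1}) L)
    (h2 : ∀ z < n, z ∉ L → 1 ≤ s z + (((unV n U g).filter fun v => v.2.1 = z).card : ℤ) →
      ∑ v ∈ F.filter (fun v => ho v.1 = z),
          ((t v.2.1 : ℝ) + 1) / ((t z : ℝ) + 1 + ((t v.2.1 : ℝ) + 1))
        + ∑ v ∈ F.filter (fun v => v.2.1 = z),
          ((t (ho v.1) : ℝ) + 1) / ((t z : ℝ) + 1 + ((t (ho v.1) : ℝ) + 1))
        ≤ (mu z : ℝ) - s z + ((t z : ℝ) + 1) / ((R : ℝ) + 1)) : False := by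
  refine Lv.close_M H (T := fun v => ((t (ho v.1) : ℝ) + 1)
    / ((t v.2.1 : ℝ) + 1 + ((t (ho v.1) : ℝ) + 1))) hL hF ?_ (H.sum_A_lt L)
  intro z hz hzL hz1
  have h4 := h2 z hz hzL hz1
  have hFV : F ⊆ unV n U g := by
    rw [hF]
    exact filter_subset _ _
  refine le_trans (le_of_eq ?_) h4
  congr 1
  · refine sum_congr rfl fun v hv => ?_
    obtain ⟨h5, h6⟩ := mem_filter.1 hv
    obtain ⟨h7, h8, -⟩ := LevC.mem_unV (hFV h5)
    have h9 : (0 : ℝ) ≤ t z := by exact_mod_cast H.t0 z hz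
    have h10 : (0 : ℝ) ≤ t v.2.1 := by exact_mod_cast H.t0 _ h8
    beta_reduce
    rw [h6]
    have h11 : (t z : ℝ) + 1 + ((t v.2.1 : ℝ) + 1) ≠ 0 := by positivity
    have h12 : (t v.2.1 : ℝ) + 1 + ((t z : ℝ) + 1) ≠ 0 := by positivity
    field_simp
    ring
  · refine sum_congr rfl fun v hv => ?_
    rw [(mem_filter.1 hv).2]

/-- for `φ u i = mn i u` the main end of an item of value one with two ends has the fewer misses -/
lemma LevC.few (Lv : LevC n U ho vl kp mn pc (fun u i => mn i u) g f)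
    (H : PCon R n t s mu U ho vl kp mn pc ar be kq NN sg nu) {v : ι × ℕ × ℕ} (hv : v ∈ unV n U g)
    (hp : twoE vl kp g f v.1) :
    unb kp mn g v = mn v.2.1 v.1 ∧ mn v.2.1 v.1 ≤ mn (f v.1) v.1 := by
  obtain ⟨h1, h2, h3, h4, h5, h6, h7, h8, h9, h10, h11⟩ := Lv.two_facts H hv hp
  refine ⟨?_, h11⟩
  rw [← h7]
  unfold unt
  rw [if_pos rfl]

/-- **the misses of a main end** for `φ u i = mn i u` -/
theorem LevC.unb_sq (Lv : LevC n U ho vl kp mn pc (fun u i => mn i u) g f)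
    (H : PCon R n t s mu U ho vl kp mn pc ar be kq NN sg nu) {v : ι × ℕ × ℕ}
    (hv : v ∈ unV n U g) : unb kp mn g v ^ 2 ≤ R + t v.2.1 * t (f v.1) := by
  obtain ⟨h1, h2, -⟩ := LevC.mem_unV hv
  have h3 := H.t0 _ h2
  have h4 := H.t0 _ (Lv.fn v.1 h1)
  have h5 := R_pos H
  rcases Lv.utyp H hv with h6 | ⟨-, -, h6, h7, h8⟩
  · rw [h6]
    have := mul_nonneg h3 h4
    nlinarith
  · beta_reduce at h8
    have h9 := H.m0 v.1 h1 v.2.1 h2
    rw [h6]
    nlinarith [mul_le_mul_of_nonneg_left h8 h9]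

end TabM

end Pool.Agent.Lib.MP_f04ccf_co
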