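import Pool.Agent.Lib.MP_f04ccf_co.M.RowNum
import Pool.Agent.Lib.MP_f04ccf_co.M.TabM

/-!
MP_f04ccf_co, TEXT D, regime L: **the closing of table M2 over the numbers of 3's `RowZ`** (assembly, part 1).

* `LevC.card_host`, `LevC.card_serv`: the units of a cell `{z, y}` in the letters of `LevC.rowZ`;
* `LevC.row_le`: the shares of a row are at most `∑ w y e y`, `e y` all units of the cell;
* `LevC.unb_host`, `unb_serv`, `row_rho`: the same with the factor `1 - ρ b` of the main end (RULE 98: `ρ = 1/R`);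
* `RowMz`, `RowMr`: the row claims in numbers; `LevC.close_M2N`, `LevC.close_MrN`, `close_MrN'`: a row claim for
  every row with `d + 1 ≤ e` is enough; `LevC.rho32`: the factor `1 - (3/2) b / R` for light main ends is allowed;
* `rnHl`, `rnSl`, `LevC.row_theta`, `LevC.close_theta`: the same for any factor `θ v` per unit.
-/

set_option autoImplicit false

namespace Pool.Agent.Lib.MP_f04ccf_co

open Finset

attribute [local instance] Classical.propDecidable

section RowLA

variable {ι : Type*} {R : ℤ} {n : ℕ} {t s mu : ℕ → ℤ} {U : Finset ι} {ho : ι → ℕ} {vl : ι → ℤ}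
  {kp mn : ℕ → ι → ℤ} {pc ar : ι → ℤ} {be kq NN sg : ℕ → ℕ → ℤ} {nu : ℕ → ι → ℤ} {z y : ℕ}
  {φ : ι → ℕ → ℤ} {g : ℕ → ι → ℕ} {f : ι → ℕ}

/-- the levels of the hosted items at `y`, by types -/
lemma LevC.lev_host (C : LevC n U ho vl kp mn pc φ g f)
    (H : PCon R n t s mu U ho vl kp mn pc ar be kq NN sg nu) (hz : z < n) (hy : y < n) :
    ∑ u ∈ U.filter (fun u => ho u = z), (g y u : ℤ)
      = be z y + ((rnM U ho vl pc g z y).card : ℤ) + ∑ u ∈ rnC U ho vl pc z, (g y u : ℤ) := by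
  have h1 := sum_filter_add_sum_filter_not (U.filter fun u => ho u = z) (fun u => pc u = 0)
    (fun u => (g y u : ℤ))
  have h2 := sum_filter_add_sum_filter_not ((U.filter fun u => ho u = z).filter fun u => pc u = 0)
    (fun u => vl u = 1) (fun u => (g y u : ℤ))
  have e1 : ∑ u ∈ (U.filter fun u => ho u = z).filter (fun u => ¬ pc u = 0), (g y u : ℤ)
      = be z y := by
    rw [← H.pcb z hz y hy, ← sum_filter_add_sum_filter_not (U.filter fun u => ho u = z)
      (fun u => pc u = 0) (fun u => pc u * kp y u)]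
    have e2 : ∑ u ∈ (U.filter fun u => ho u = z).filter (fun u => pc u = 0), pc u * kp y u = 0 :=
      sum_eq_zero fun u hu => by rw [(mem_filter.1 hu).2, zero_mul]
    rw [e2, zero_add]
    refine sum_congr rfl fun u hu => ?_
    obtain ⟨h3, h4⟩ := mem_filter.1 hu
    have h5 := (mem_filter.1 h3).1
    rw [C.lev_pc H h5 h4 hy]
    rcases H.pc01 u h5 with h6 | h6
    · exact absurd h6 h4
    · rw [h6, one_mul]
  have e2 : ∑ u ∈ ((U.filter fun u => ho u = z).filter fun u => pc u = 0).filter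
      (fun u => vl u = 1), (g y u : ℤ) = ((rnM U ho vl pc g z y).card : ℤ) := by
    have h3 : rnM U ho vl pc g z y
        = (((U.filter fun u => ho u = z).filter fun u => pc u = 0).filter
          (fun u => vl u = 1)).filter fun u => g y u = 1 := by
      unfold rnM
      ext u
      simp only [mem_filter]
      tauto
    rw [h3, card_filter]
    push_cast
    refine sum_congr rfl fun u hu => ?_
    obtain ⟨h4, h5⟩ := mem_filter.1 hu
    have h6 := (mem_filter.1 (mem_filter.1 h4).1).1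
    rcases C.lev01 H h6 h5 hy with h7 | h7
    · rw [h7, if_neg (by norm_num)]
      rfl
    · rw [h7, if_pos rfl]
      rfl
  have e3 : ∑ u ∈ ((U.filter fun u => ho u = z).filter fun u => pc u = 0).filter
      (fun u => ¬ vl u = 1), (g y u : ℤ) = ∑ u ∈ rnC U ho vl pc z, (g y u : ℤ) := by
    refine sum_congr ?_ fun _ _ => rfl
    unfold rnC
    ext u
    simp only [mem_filter]
    tauto
  rw [← h1, ← h2, e1, e2, e3]
  ring

/-- the levels of the items of the host `y` at `z`, by types -/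
lemma LevC.lev_serv (C : LevC n U ho vl kp mn pc φ g f)
    (H : PCon R n t s mu U ho vl kp mn pc ar be kq NN sg nu) (hz : z < n) (hy : y < n) :
    ∑ u ∈ U.filter (fun u => ho u = y), (g z u : ℤ)
      = be y z + ∑ u ∈ rnK U ho pc g z y, (g z u : ℤ) := by
  have h1 := sum_filter_add_sum_filter_not (U.filter fun u => ho u = y) (fun u => pc u = 0)
    (fun u => (g z u : ℤ))
  have e1 : ∑ u ∈ (U.filter fun u => ho u = y).filter (fun u => ¬ pc u = 0), (g z u : ℤ)
      = be y z := by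
    rw [← H.pcb y hy z hz, ← sum_filter_add_sum_filter_not (U.filter fun u => ho u = y)
      (fun u => pc u = 0) (fun u => pc u * kp z u)]
    have e2 : ∑ u ∈ (U.filter fun u => ho u = y).filter (fun u => pc u = 0), pc u * kp z u = 0 :=
      sum_eq_zero fun u hu => by rw [(mem_filter.1 hu).2, zero_mul]
    rw [e2, zero_add]
    refine sum_congr rfl fun u hu => ?_
    obtain ⟨h3, h4⟩ := mem_filter.1 hu
    have h5 := (mem_filter.1 h3).1
    rw [C.lev_pc H h5 h4 hz]
    rcases H.pc01 u h5 with h6 | h6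
    · exact absurd h6 h4
    · rw [h6, one_mul]
  have e2 : ∑ u ∈ (U.filter fun u => ho u = y).filter (fun u => pc u = 0), (g z u : ℤ)
      = ∑ u ∈ rnK U ho pc g z y, (g z u : ℤ) := by
    have h3 : rnK U ho pc g z y
        = ((U.filter fun u => ho u = y).filter fun u => pc u = 0).filter fun u => g z u ≠ 0 := by
      unfold rnK
      ext u
      simp only [mem_filter]
      tauto
    rw [h3]
    refine (sum_subset (filter_subset _ _) fun u hu hu' => ?_).symm
    by_contra h4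
    exact hu' (mem_filter.2 ⟨hu, fun h5 => h4 (by rw [h5]; rfl)⟩)
  rw [← h1, e1, e2]
  ring

/-- **the hosted units of a cell** -/
theorem LevC.card_host (C : LevC n U ho vl kp mn pc φ g f)
    (H : PCon R n t s mu U ho vl kp mn pc ar be kq NN sg nu) (hz : z < n) (hy : y < n) :
    (((unV n U g).filter fun v => ho v.1 = z ∧ v.2.1 = y).card : ℤ)
      = be z y + ((rnM U ho vl pc g z y).card : ℤ) + ∑ u ∈ rnC U ho vl pc z, (g y u : ℤ) := by
  rw [← C.lev_host H hz hy]
  have h1 := unit_fib (M := ℤ) (C.two H) (filter_subset (fun u => ho u = z) U) hy fun _ => 1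
  have h2 : (unV n U g).filter (fun v => v.1 ∈ U.filter (fun u => ho u = z) ∧ v.2.1 = y)
      = (unV n U g).filter fun v => ho v.1 = z ∧ v.2.1 = y := by
    refine filter_congr fun v hv => ?_
    rw [mem_filter]
    exact ⟨fun h => ⟨h.1.2, h.2⟩, fun h => ⟨⟨(LevC.mem_unV hv).1, h.1⟩, h.2⟩⟩
  rw [h2] at h1
  simp only [sum_const, nsmul_eq_mul, mul_one, card_range] at h1
  exact h1

/-- **the served units of a cell** -/
theorem LevC.card_serv (C : LevC n U ho vl kp mn pc φ g f)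
    (H : PCon R n t s mu U ho vl kp mn pc ar be kq NN sg nu) (hz : z < n) (hy : y < n) :
    (((unV n U g).filter fun v => ho v.1 = y ∧ v.2.1 = z).card : ℤ)
      = be y z + ∑ u ∈ rnK U ho pc g z y, (g z u : ℤ) := by
  rw [← C.lev_serv H hz hy]
  have h1 := unit_fib (M := ℤ) (C.two H) (filter_subset (fun u => ho u = y) U) hz fun _ => 1
  have h2 : (unV n U g).filter (fun v => v.1 ∈ U.filter (fun u => ho u = y) ∧ v.2.1 = z)
      = (unV n U g).filter fun v => ho v.1 = y ∧ v.2.1 = z := by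
    refine filter_congr fun v hv => ?_
    rw [mem_filter]
    exact ⟨fun h => ⟨h.1.2, h.2⟩, fun h => ⟨⟨(LevC.mem_unV hv).1, h.1⟩, h.2⟩⟩
  rw [h2] at h1
  simp only [sum_const, nsmul_eq_mul, mul_one, card_range] at h1
  exact h1

/-- **all units of the cell `{z, y}`** -/
noncomputable def rnE (U : Finset ι) (ho : ι → ℕ) (vl pc : ι → ℤ) (be : ℕ → ℕ → ℤ)
    (g : ℕ → ι → ℕ) (z y : ℕ) : ℤ :=
  be z y + ((rnM U ho vl pc g z y).card : ℤ) + ∑ u ∈ rnC U ho vl pc z, (g y u : ℤ)
    + (be y z + ∑ u ∈ rnK U ho pc g z y, (g z u : ℤ))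

/-- **the shares of a row by cells** (any weights) -/
theorem LevC.row_le (C : LevC n U ho vl kp mn pc φ g f)
    (H : PCon R n t s mu U ho vl kp mn pc ar be kq NN sg nu) (hz : z < n)
    {F : Finset (ι × ℕ × ℕ)} (hF : F ⊆ unV n U g) {w : ℕ → ℝ} (hw : ∀ y < n, 0 ≤ w y) :
    ∑ v ∈ F.filter (fun v => ho v.1 = z), w v.2.1 + ∑ v ∈ F.filter (fun v => v.2.1 = z), w (ho v.1)
      ≤ ∑ y ∈ (range n).erase z, w y * (rnE U ho vl pc be g z y : ℝ) := by
  have h0 : ∀ v ∈ unV n U g, v.2.1 < n ∧ ho v.1 < n ∧ v.2.1 ≠ ho v.1 := by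
    intro v hv
    obtain ⟨h1, h2, h3⟩ := LevC.mem_unV hv
    refine ⟨h2, H.hlt _ h1, fun h4 => ?_⟩
    have h5 := C.home v.1 h1
    rw [← h4] at h5
    omega
  have e1 : ∑ v ∈ F.filter (fun v => ho v.1 = z), w v.2.1
      ≤ ∑ y ∈ (range n).erase z,
        w y * (((unV n U g).filter fun v => ho v.1 = z ∧ v.2.1 = y).card : ℝ) := by
    have h1 : ∑ v ∈ F.filter (fun v => ho v.1 = z), w v.2.1
        ≤ ∑ v ∈ (unV n U g).filter (fun v => ho v.1 = z), w v.2.1 :=
      sum_le_sum_of_subset_of_nonneg (filter_subset_filter _ hF)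
        fun v hv _ => hw _ (h0 v (mem_filter.1 hv).1).1
    refine h1.trans (le_of_eq ?_)
    rw [← sum_fiberwise_of_maps_to (t := (range n).erase z) (g := fun v : ι × ℕ × ℕ => v.2.1)
      fun v hv => ?_]
    · refine sum_congr rfl fun y _ => ?_
      rw [filter_filter, sum_congr (s₁ := (unV n U g).filter fun v => ho v.1 = z ∧ v.2.1 = y) rfl
        fun v hv => by rw [(mem_filter.1 hv).2.2], sum_const, nsmul_eq_mul, mul_comm]
    · obtain ⟨h2, h3⟩ := mem_filter.1 hv
      obtain ⟨h4, -, h5⟩ := h0 v h2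
      exact mem_erase.2 ⟨fun h6 => h5 (by rw [h6, h3]), mem_range.2 h4⟩
  have e2 : ∑ v ∈ F.filter (fun v => v.2.1 = z), w (ho v.1)
      ≤ ∑ y ∈ (range n).erase z,
        w y * (((unV n U g).filter fun v => ho v.1 = y ∧ v.2.1 = z).card : ℝ) := by
    have h1 : ∑ v ∈ F.filter (fun v => v.2.1 = z), w (ho v.1)
        ≤ ∑ v ∈ (unV n U g).filter (fun v => v.2.1 = z), w (ho v.1) :=
      sum_le_sum_of_subset_of_nonneg (filter_subset_filter _ hF)
        fun v hv _ => hw _ (h0 v (mem_filter.1 hv).1).2.1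
    refine h1.trans (le_of_eq ?_)
    rw [← sum_fiberwise_of_maps_to (t := (range n).erase z) (g := fun v : ι × ℕ × ℕ => ho v.1)
      fun v hv => ?_]
    · refine sum_congr rfl fun y _ => ?_
      have h2 : ((unV n U g).filter fun v => v.2.1 = z).filter (fun v => ho v.1 = y)
          = (unV n U g).filter fun v => ho v.1 = y ∧ v.2.1 = z := by
        rw [filter_filter]
        exact filter_congr fun v _ => and_comm
      rw [h2, sum_congr (s₁ := (unV n U g).filter fun v => ho v.1 = y ∧ v.2.1 = z) rfl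
        fun v hv => by rw [(mem_filter.1 hv).2.1], sum_const, nsmul_eq_mul, mul_comm]
    · obtain ⟨h2, h3⟩ := mem_filter.1 hv
      obtain ⟨-, h4, h5⟩ := h0 v h2
      exact mem_erase.2 ⟨fun h6 => h5 (by rw [h6, h3]), mem_range.2 h4⟩
  refine (add_le_add e1 e2).trans (le_of_eq ?_)
  rw [← sum_add_distrib]
  refine sum_congr rfl fun y hy => ?_
  have hyn := mem_range.1 (mem_of_mem_erase hy)
  have h1 := C.card_host H hz hyn
  have h2 := C.card_serv H hz hyn
  have h3 : (((unV n U g).filter fun v => ho v.1 = z ∧ v.2.1 = y).card : ℝ)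
      + (((unV n U g).filter fun v => ho v.1 = y ∧ v.2.1 = z).card : ℝ)
      = (rnE U ho vl pc be g z y : ℝ) := by
    have h4 : (((unV n U g).filter fun v => ho v.1 = z ∧ v.2.1 = y).card : ℤ)
        + (((unV n U g).filter fun v => ho v.1 = y ∧ v.2.1 = z).card : ℤ)
        = rnE U ho vl pc be g z y := by
      rw [h1, h2]
      rfl
    rw [← h4]
    push_cast
    rfl
  rw [← mul_add, h3]

/-- the misses of the units of an item at a main end -/
lemma unb_sum (g : ℕ → ι → ℕ) (u : ι) (i : ℕ) :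
    ∑ j ∈ range (g i u), (unb kp mn g (u, i, j) : ℤ) = if g i u = 0 then 0 else msP kp mn i (g i) u := by
  rcases Nat.eq_zero_or_pos (g i u) with h1 | h1
  · rw [h1, if_pos rfl]
    rfl
  · rw [if_neg (by omega)]
    unfold unb msP
    by_cases h2 : kp i u ≤ (g i u : ℤ)
    · rw [if_pos h2, sum_eq_single_of_mem (g i u - 1) (mem_range.2 (by omega))]
      · rw [if_pos ⟨h2, by simp only; omega⟩]
      · intro j _ hj
        rw [if_neg]
        rintro ⟨-, h3⟩
        simp only at h3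
        omega
    · rw [if_neg h2]
      refine sum_eq_zero fun j _ => ?_
      rw [if_neg]
      rintro ⟨h3, -⟩
      exact h2 h3

/-- **the misses of the hosted units of a cell** -/
theorem LevC.unb_host (C : LevC n U ho vl kp mn pc φ g f)
    (H : PCon R n t s mu U ho vl kp mn pc ar be kq NN sg nu) (hy : y < n) :
    ∑ v ∈ (unV n U g).filter (fun v => ho v.1 = z ∧ v.2.1 = y), unb kp mn g v
      = ∑ u ∈ rnM U ho vl pc g z y, mn y u
        + ∑ u ∈ (rnC U ho vl pc z).filter (fun u => g y u ≠ 0), msP kp mn y (g y) u := by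
  have h1 := unit_fib (C.two H) (filter_subset (fun u => ho u = z) U) hy
    fun v => unb kp mn g v
  have h2 : (unV n U g).filter (fun v => v.1 ∈ U.filter (fun u => ho u = z) ∧ v.2.1 = y)
      = (unV n U g).filter fun v => ho v.1 = z ∧ v.2.1 = y := by
    refine filter_congr fun v hv => ?_
    rw [mem_filter]
    exact ⟨fun h => ⟨h.1.2, h.2⟩, fun h => ⟨⟨(LevC.mem_unV hv).1, h.1⟩, h.2⟩⟩
  rw [h2] at h1
  rw [h1, sum_congr rfl fun u _ => unb_sum (kp := kp) (mn := mn) g u y]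
  have e1 : rnM U ho vl pc g z y ⊆ U.filter fun u => ho u = z := fun u hu => by
    obtain ⟨h3, h4, -⟩ := mem_filter.1 hu
    exact mem_filter.2 ⟨h3, h4⟩
  have e2 : (rnC U ho vl pc z).filter (fun u => g y u ≠ 0)
      ⊆ (U.filter fun u => ho u = z) \ rnM U ho vl pc g z y := fun u hu => by
    obtain ⟨h3, h4, h5, h6⟩ := mem_filter.1 (mem_filter.1 hu).1
    exact mem_sdiff.2 ⟨mem_filter.2 ⟨h3, h4⟩, fun h7 => h6 (mem_filter.1 h7).2.2.2.1⟩
  rw [← sum_sdiff e1, add_comm]
  congr 1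
  · refine sum_congr rfl fun u hu => ?_
    obtain ⟨h3, h4, h5, h6, h7⟩ := mem_filter.1 hu
    rw [h7, if_neg one_ne_zero]
    unfold msP
    have h8 := C.le u h3 y hy
    have h9 := H.kv u h3 y hy
    rw [if_pos]
    rw [h7, Nat.cast_one]
    rw [h6] at h9
    exact h9
  · refine (sum_subset e2 fun u hu hu' => ?_).symm.trans ?_
    · obtain ⟨h3, h4⟩ := mem_sdiff.1 hu
      obtain ⟨h5, h6⟩ := mem_filter.1 h3
      by_cases h7 : g y u = 0
      · rw [if_pos h7]
      · rw [if_neg h7]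
        rcases C.typ u h5 with ⟨h8, h9, h10, h11, h12⟩ | ⟨h8, -⟩
        · have h13 : y = f u := by
            by_contra h14
            have h15 := C.le u h5 y hy
            rw [h12 y hy h14] at h15
            omega
          unfold msP
          rw [h13, h11]
          simp
        · exfalso
          by_cases h9 : vl u = 1
          · rcases C.lev01 H h5 h9 hy with h10 | h10
            · exact h7 h10
            · exact h4 (mem_filter.2 ⟨h5, h6, h8, h9, h10⟩)
          · exact hu' (mem_filter.2 ⟨mem_filter.2 ⟨h5, h6, h8, h9⟩, h7⟩)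
    · exact sum_congr rfl fun u hu => by rw [if_neg (mem_filter.1 hu).2]

/-- **the misses of the served units of a cell** -/
theorem LevC.unb_serv (C : LevC n U ho vl kp mn pc φ g f)
    (H : PCon R n t s mu U ho vl kp mn pc ar be kq NN sg nu) (hz : z < n) :
    ∑ v ∈ (unV n U g).filter (fun v => ho v.1 = y ∧ v.2.1 = z), unb kp mn g v
      = ∑ u ∈ rnK U ho pc g z y, msP kp mn z (g z) u := by
  have h1 := unit_fib (C.two H) (filter_subset (fun u => ho u = y) U) hz
    fun v => unb kp mn g v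
  have h2 : (unV n U g).filter (fun v => v.1 ∈ U.filter (fun u => ho u = y) ∧ v.2.1 = z)
      = (unV n U g).filter fun v => ho v.1 = y ∧ v.2.1 = z := by
    refine filter_congr fun v hv => ?_
    rw [mem_filter]
    exact ⟨fun h => ⟨h.1.2, h.2⟩, fun h => ⟨⟨(LevC.mem_unV hv).1, h.1⟩, h.2⟩⟩
  rw [h2] at h1
  rw [h1, sum_congr rfl fun u _ => unb_sum (kp := kp) (mn := mn) g u z]
  have e1 : rnK U ho pc g z y ⊆ U.filter fun u => ho u = y := fun u hu => by
    obtain ⟨h3, h4, -⟩ := mem_filter.1 hu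
    exact mem_filter.2 ⟨h3, h4⟩
  refine (sum_subset e1 fun u hu hu' => ?_).symm.trans ?_
  · obtain ⟨h5, h6⟩ := mem_filter.1 hu
    by_cases h7 : g z u = 0
    · rw [if_pos h7]
    · rw [if_neg h7]
      rcases C.typ u h5 with ⟨h8, h9, h10, h11, h12⟩ | ⟨h8, -⟩
      · have h13 : z = f u := by
          by_contra h14
          have h15 := C.le u h5 z hz
          rw [h12 z hz h14] at h15
          omega
        unfold msP
        rw [h13, h11]
        simp
      · exact absurd (mem_filter.2 ⟨h5, h6, h8, h7⟩) hu'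
  · exact sum_congr rfl fun u hu => by rw [if_neg (mem_filter.1 hu).2.2.2]

/-- the misses of the hosted units of the cell `{z, y}` at their main end `y` -/
noncomputable def rnHb (U : Finset ι) (ho : ι → ℕ) (vl : ι → ℤ) (kp mn : ℕ → ι → ℤ) (pc : ι → ℤ)
    (g : ℕ → ι → ℕ) (z y : ℕ) : ℤ :=
  ∑ u ∈ rnM U ho vl pc g z y, mn y u
    + ∑ u ∈ (rnC U ho vl pc z).filter (fun u => g y u ≠ 0), msP kp mn y (g y) u

/-- the misses of the served units of the cell `{z, y}` at their main end `z` -/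
noncomputable def rnSb (U : Finset ι) (ho : ι → ℕ) (kp mn : ℕ → ι → ℤ) (pc : ι → ℤ)
    (g : ℕ → ι → ℕ) (z y : ℕ) : ℤ :=
  ∑ u ∈ rnK U ho pc g z y, msP kp mn z (g z) u

/-- **the shares of a row by cells, factor `1 - ρ m b` of the main end `m`** (`ρ = 0`: table M2, `ρ = 1/R`: RULE 98):
`w y = A_y / (A_z + A_y)`; the host pays `1 - (1 - w m) (1 - ρ m b)`, the main end `w x (1 - ρ z b)` -/
theorem LevC.row_rho (C : LevC n U ho vl kp mn pc φ g f)
    (H : PCon R n t s mu U ho vl kp mn pc ar be kq NN sg nu) (hz : z < n)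
    {F : Finset (ι × ℕ × ℕ)} (hF : F ⊆ unV n U g) {ρ : ℕ → ℝ} (hρ : ∀ y < n, 0 ≤ ρ y)
    (hρ1 : ∀ v ∈ unV n U g, ρ v.2.1 * (unb kp mn g v : ℝ) ≤ 1) {w : ℕ → ℝ}
    (hw : ∀ y < n, 0 ≤ w y ∧ w y ≤ 1) :
    ∑ v ∈ F.filter (fun v => ho v.1 = z),
        (1 - (1 - w v.2.1) * (1 - ρ v.2.1 * (unb kp mn g v : ℝ)))
      + ∑ v ∈ F.filter (fun v => v.2.1 = z), w (ho v.1) * (1 - ρ v.2.1 * (unb kp mn g v : ℝ))
      ≤ ∑ y ∈ (range n).erase z, (w y * (rnE U ho vl pc be g z y : ℝ)
        + (ρ y * (1 - w y) * (rnHb U ho vl kp mn pc g z y : ℝ)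
          - ρ z * w y * (rnSb U ho kp mn pc g z y : ℝ))) := by
  have h0 : ∀ v ∈ unV n U g, v.2.1 < n ∧ ho v.1 < n ∧ v.2.1 ≠ ho v.1 := by
    intro v hv
    obtain ⟨h1, h2, h3⟩ := LevC.mem_unV hv
    refine ⟨h2, H.hlt _ h1, fun h4 => ?_⟩
    have h5 := C.home v.1 h1
    rw [← h4] at h5
    omega
  have hb0 : ∀ v ∈ unV n U g, (0 : ℝ) ≤ (unb kp mn g v : ℝ) := by
    intro v hv
    obtain ⟨h1, h2, h3⟩ := LevC.mem_unV hv
    have h4 : 0 ≤ unb kp mn g v := by
      unfold unb
      split_ifs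
      · exact H.m0 _ h1 _ h2
      · exact le_rfl
    exact_mod_cast h4
  have e1 : ∑ v ∈ F.filter (fun v => ho v.1 = z),
        (1 - (1 - w v.2.1) * (1 - ρ v.2.1 * (unb kp mn g v : ℝ)))
      ≤ ∑ y ∈ (range n).erase z,
        (w y * (((unV n U g).filter fun v => ho v.1 = z ∧ v.2.1 = y).card : ℝ)
          + ρ y * (1 - w y) * (rnHb U ho vl kp mn pc g z y : ℝ)) := by
    have h1 : ∑ v ∈ F.filter (fun v => ho v.1 = z),
          (1 - (1 - w v.2.1) * (1 - ρ v.2.1 * (unb kp mn g v : ℝ)))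
        ≤ ∑ v ∈ (unV n U g).filter (fun v => ho v.1 = z),
          (1 - (1 - w v.2.1) * (1 - ρ v.2.1 * (unb kp mn g v : ℝ))) := by
      refine sum_le_sum_of_subset_of_nonneg (filter_subset_filter _ hF) fun v hv _ => ?_
      have h2 := (mem_filter.1 hv).1
      obtain ⟨h3, h4⟩ := hw _ (h0 v h2).1
      have h5 := hρ1 v h2
      have h6 := mul_nonneg (hρ _ (h0 v h2).1) (hb0 v h2)
      nlinarith [mul_nonneg (by linarith : (0 : ℝ) ≤ 1 - w v.2.1) h6]
    refine h1.trans (le_of_eq ?_)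
    rw [← sum_fiberwise_of_maps_to (t := (range n).erase z) (g := fun v : ι × ℕ × ℕ => v.2.1)
      fun v hv => ?_]
    · refine sum_congr rfl fun y hy => ?_
      have h2 : (rnHb U ho vl kp mn pc g z y : ℝ)
          = ∑ v ∈ (unV n U g).filter (fun v => ho v.1 = z ∧ v.2.1 = y),
            (unb kp mn g v : ℝ) := by
        have h3 := C.unb_host H (z := z) (mem_range.1 (mem_of_mem_erase hy))
        unfold rnHb
        rw [← h3]
        push_cast
        rfl
      rw [filter_filter, sum_congr (s₁ := (unV n U g).filter fun v => ho v.1 = z ∧ v.2.1 = y)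
        (g := fun v => w y + ρ y * (1 - w y) * (unb kp mn g v : ℝ)) rfl
        fun v hv => by rw [(mem_filter.1 hv).2.2]; ring, sum_add_distrib, sum_const, nsmul_eq_mul,
        ← mul_sum, h2]
      ring
    · obtain ⟨h2, h3⟩ := mem_filter.1 hv
      obtain ⟨h4, -, h5⟩ := h0 v h2
      exact mem_erase.2 ⟨fun h6 => h5 (by rw [h6, h3]), mem_range.2 h4⟩
  have e2 : ∑ v ∈ F.filter (fun v => v.2.1 = z),
        w (ho v.1) * (1 - ρ v.2.1 * (unb kp mn g v : ℝ))
      ≤ ∑ y ∈ (range n).erase z,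
        (w y * (((unV n U g).filter fun v => ho v.1 = y ∧ v.2.1 = z).card : ℝ)
          - ρ z * w y * (rnSb U ho kp mn pc g z y : ℝ)) := by
    have h1 : ∑ v ∈ F.filter (fun v => v.2.1 = z),
          w (ho v.1) * (1 - ρ v.2.1 * (unb kp mn g v : ℝ))
        ≤ ∑ v ∈ (unV n U g).filter (fun v => v.2.1 = z),
          w (ho v.1) * (1 - ρ v.2.1 * (unb kp mn g v : ℝ)) := by
      refine sum_le_sum_of_subset_of_nonneg (filter_subset_filter _ hF) fun v hv _ => ?_
      have h2 := (mem_filter.1 hv).1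
      have h3 := (hw _ (h0 v h2).2.1).1
      have h5 := hρ1 v h2
      exact mul_nonneg h3 (by linarith)
    refine h1.trans (le_of_eq ?_)
    rw [← sum_fiberwise_of_maps_to (t := (range n).erase z) (g := fun v : ι × ℕ × ℕ => ho v.1)
      fun v hv => ?_]
    · refine sum_congr rfl fun y _ => ?_
      have h2 : ((unV n U g).filter fun v => v.2.1 = z).filter (fun v => ho v.1 = y)
          = (unV n U g).filter fun v => ho v.1 = y ∧ v.2.1 = z := by
        rw [filter_filter]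
        exact filter_congr fun v _ => and_comm
      have h4 : (rnSb U ho kp mn pc g z y : ℝ)
          = ∑ v ∈ (unV n U g).filter (fun v => ho v.1 = y ∧ v.2.1 = z),
            (unb kp mn g v : ℝ) := by
        have h3 := C.unb_serv H (y := y) hz
        unfold rnSb
        rw [← h3]
        push_cast
        rfl
      rw [h2, sum_congr (s₁ := (unV n U g).filter fun v => ho v.1 = y ∧ v.2.1 = z)
        (g := fun v => w y + (-(ρ z * w y)) * (unb kp mn g v : ℝ)) rfl
        fun v hv => by rw [(mem_filter.1 hv).2.1, (mem_filter.1 hv).2.2]; ring, sum_add_distrib, sum_const, nsmul_eq_mul,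
        ← mul_sum, h4]
      ring
    · obtain ⟨h2, h3⟩ := mem_filter.1 hv
      obtain ⟨-, h4, h5⟩ := h0 v h2
      exact mem_erase.2 ⟨fun h6 => h5 (by rw [h6, h3]), mem_range.2 h4⟩
  refine (add_le_add e1 e2).trans (le_of_eq ?_)
  rw [← sum_add_distrib]
  refine sum_congr rfl fun y hy => ?_
  have hyn := mem_range.1 (mem_of_mem_erase hy)
  have h3 : (rnE U ho vl pc be g z y : ℝ)
      = (((unV n U g).filter fun v => ho v.1 = z ∧ v.2.1 = y).card : ℝ)
      + (((unV n U g).filter fun v => ho v.1 = y ∧ v.2.1 = z).card : ℝ) := by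
    have h4 : (((unV n U g).filter fun v => ho v.1 = z ∧ v.2.1 = y).card : ℤ)
        + (((unV n U g).filter fun v => ho v.1 = y ∧ v.2.1 = z).card : ℤ)
        = rnE U ho vl pc be g z y := by
      rw [C.card_host H hz hyn, C.card_serv H hz hyn]
      rfl
    rw [← h4]
    push_cast
    rfl
  rw [h3]
  ring

/-- all units of a row -/
theorem LevC.rnE_sum (C : LevC n U ho vl kp mn pc φ g f)
    (H : PCon R n t s mu U ho vl kp mn pc ar be kq NN sg nu) (hz : z < n) :
    ∑ y ∈ (range n).erase z, rnE U ho vl pc be g z y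
      = mu z + (((unV n U g).filter fun v => v.2.1 = z).card : ℤ) := by
  have h1 := C.rn_mu H hz
  have h2 : (((unV n U g).filter fun v => v.2.1 = z).card : ℤ)
      = ∑ y ∈ (range n).erase z, (be y z + ∑ u ∈ rnK U ho pc g z y, (g z u : ℤ)) := by
    have h3 : ((unV n U g).filter fun v => v.2.1 = z).card
        = ∑ y ∈ (range n).erase z,
          (((unV n U g).filter fun v => v.2.1 = z).filter fun v => ho v.1 = y).card := by
      refine card_eq_sum_card_fiberwise fun v hv => ?_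
      obtain ⟨h4, h5⟩ := mem_filter.1 (mem_coe.1 hv)
      obtain ⟨h6, h7, h8⟩ := LevC.mem_unV h4
      refine mem_coe.2 (mem_erase.2 ⟨fun h9 => ?_, mem_range.2 (H.hlt _ h6)⟩)
      have h10 := C.home v.1 h6
      rw [h9, ← h5] at h10
      omega
    rw [h3]
    push_cast
    refine sum_congr rfl fun y hy => ?_
    rw [← C.card_serv H hz (mem_range.1 (mem_of_mem_erase hy)), filter_filter]
    congr 2
    exact filter_congr fun v _ => and_comm
  rw [h2]
  conv_rhs => rw [h1]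
  rw [← sum_add_distrib]
  rfl

/-- **the row claim of table M2 in numbers** (`e y` all units of the cell) -/
def RowMz (R : ℤ) (P : Finset ℕ) (A d : ℤ) (B e : ℕ → ℤ) : Prop :=
  ∑ y ∈ P, (B y : ℝ) / ((A : ℝ) + B y) * (e y : ℝ) ≤ (d : ℝ) + (A : ℝ) / ((R : ℝ) + 1)

/-- **the row claim with the factors `1 - ρ m b`** (RULE 98 for `ρ = 1 / R`): `e y` all units of the cell, `hb y` the
misses of the hosted ones at their main ends `y`, `sb y` of the served ones at `z` -/
def RowMr (ρ : ℕ → ℝ) (ρz : ℝ) (R : ℤ) (P : Finset ℕ) (A d : ℤ) (B e hb sb : ℕ → ℤ) : Prop :=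
  ∑ y ∈ P, ((B y : ℝ) / ((A : ℝ) + B y) * (e y : ℝ)
      + (ρ y * (1 - (B y : ℝ) / ((A : ℝ) + B y)) * (hb y : ℝ)
        - ρz * ((B y : ℝ) / ((A : ℝ) + B y)) * (sb y : ℝ)))
    ≤ (d : ℝ) + (A : ℝ) / ((R : ℝ) + 1)

/-- **REGIME L, factor `1 - ρ m b` of the main end `m`** (any `ρ ≥ 0` with factors `≥ 0`): the row claims in numbers
are enough (any order `φ` of the ends) -/
theorem LevC.close_MrN' (Lv : LevC n U ho vl kp mn pc φ g f)
    (H : PCon R n t s mu U ho vl kp mn pc ar be kq NN sg nu) {ρ : ℕ → ℝ}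
    (hρ : ∀ y < n, 0 ≤ ρ y) (hρ1 : ∀ v ∈ unV n U g, ρ v.2.1 * (unb kp mn g v : ℝ) ≤ 1)
    (h2 : ∀ z < n, mu z - s z + 1 ≤ ∑ y ∈ (range n).erase z, rnE U ho vl pc be g z y →
      RowMr ρ (ρ z) R ((range n).erase z) (t z + 1) (mu z - s z) (fun y => t y + 1)
        (rnE U ho vl pc be g z) (rnHb U ho vl kp mn pc g z) (rnSb U ho kp mn pc g z)) :
    False := by
  refine Lv.close_M H (T := fun v => ((t (ho v.1) : ℝ) + 1)
    / ((t v.2.1 : ℝ) + 1 + ((t (ho v.1) : ℝ) + 1)) * (1 - ρ v.2.1 * (unb kp mn g v : ℝ))) rfl rfl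
    ?_ (H.sum_A_lt _)
  intro z hz _ hz1
  have h3 : mu z - s z + 1 ≤ ∑ y ∈ (range n).erase z, rnE U ho vl pc be g z y := by
    rw [Lv.rnE_sum H hz]
    linarith
  have h4 := h2 z hz h3
  have hw : ∀ y < n, (0 : ℝ) ≤ ((t y : ℝ) + 1) / ((t z : ℝ) + 1 + ((t y : ℝ) + 1))
      ∧ ((t y : ℝ) + 1) / ((t z : ℝ) + 1 + ((t y : ℝ) + 1)) ≤ 1 := fun y hy => by
    have h6 : (0 : ℝ) ≤ t z := by exact_mod_cast H.t0 z hz
    have h7 : (0 : ℝ) ≤ t y := by exact_mod_cast H.t0 y hy
    refine ⟨by positivity, ?_⟩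
    rw [div_le_one (by positivity)]
    linarith
  have h5 := Lv.row_rho H hz (F := freeU (unV n U g) (fun v => ho v.1) (fun v => {v.2.1})
      (lightU n s (unV n U g) fun v => {v.2.1})) (filter_subset _ _) (ρ := ρ) hρ hρ1
    (w := fun y => ((t y : ℝ) + 1) / ((t z : ℝ) + 1 + ((t y : ℝ) + 1))) hw
  unfold RowMr at h4
  push_cast at h4
  refine le_trans (le_of_eq ?_) (h5.trans h4)
  congr 1
  · refine sum_congr rfl fun v hv => ?_
    obtain ⟨h6, h7⟩ := mem_filter.1 hv
    obtain ⟨h8, h9, -⟩ := LevC.mem_unV (filter_subset _ _ h6)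
    have h10 : (0 : ℝ) ≤ t z := by exact_mod_cast H.t0 z hz
    have h11 : (0 : ℝ) ≤ t v.2.1 := by exact_mod_cast H.t0 _ h9
    rw [h7]
    have h12 : (t v.2.1 : ℝ) + 1 + ((t z : ℝ) + 1) ≠ 0 := by positivity
    have h13 : (t z : ℝ) + 1 + ((t v.2.1 : ℝ) + 1) ≠ 0 := by positivity
    have h14 : 1 - ((t v.2.1 : ℝ) + 1) / ((t z : ℝ) + 1 + ((t v.2.1 : ℝ) + 1))
        = ((t z : ℝ) + 1) / ((t v.2.1 : ℝ) + 1 + ((t z : ℝ) + 1)) := by
      field_simp
      ring
    rw [h14]
  · refine sum_congr rfl fun v hv => ?_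
    rw [(mem_filter.1 hv).2]

/-- the same with `0 ≤ ρ m ≤ 1 / R` (M2: `ρ = 0`; RULE 98: `ρ = 1 / R`) -/
theorem LevC.close_MrN (Lv : LevC n U ho vl kp mn pc φ g f)
    (H : PCon R n t s mu U ho vl kp mn pc ar be kq NN sg nu) {ρ : ℕ → ℝ}
    (hρ : ∀ y < n, 0 ≤ ρ y ∧ ρ y * (R : ℝ) ≤ 1)
    (h2 : ∀ z < n, mu z - s z + 1 ≤ ∑ y ∈ (range n).erase z, rnE U ho vl pc be g z y →
      RowMr ρ (ρ z) R ((range n).erase z) (t z + 1) (mu z - s z) (fun y => t y + 1)
        (rnE U ho vl pc be g z) (rnHb U ho vl kp mn pc g z) (rnSb U ho kp mn pc g z)) :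
    False := by
  refine Lv.close_MrN' H (fun y hy => (hρ y hy).1) (fun v hv => ?_) h2
  have h7 := LevC.unb_le H hv
  have h10 := (LevC.mem_unV hv).2.1
  have h8 := H.t0 _ h10
  have h9 : unb kp mn g v ≤ R := by linarith
  have h6 : (unb kp mn g v : ℝ) ≤ R := by exact_mod_cast h9
  exact (mul_le_mul_of_nonneg_left h6 (hρ _ h10).1).trans (hρ _ h10).2

/-- **the factor `1 - (3/2) b / R` for light main ends** (`8 A_m ≤ R`), fewer misses, rows `≤ R / 2` -/
lemma LevC.rho32 (Lv : LevC n U ho vl kp mn pc (fun u i => mn i u) g f)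
    (H : PCon R n t s mu U ho vl kp mn pc ar be kq NN sg nu)
    (h2 : ∀ i < n, 2 * t i ≤ R) {v : ι × ℕ × ℕ} (hv : v ∈ unV n U g) :
    (if 8 * (t v.2.1 + 1) ≤ R then 3 / (2 * (R : ℝ)) else 0) * (unb kp mn g v : ℝ) ≤ 1 := by
  have hR := R_pos H
  have hR' : (0 : ℝ) < R := by exact_mod_cast hR
  split_ifs with h3
  · obtain ⟨h1, h4, -⟩ := LevC.mem_unV hv
    have h5 := Lv.unb_sq H hv
    have h6 := h2 _ (Lv.fn v.1 h1)
    have h7 := H.t0 _ h4
    have h8 := H.t0 _ (Lv.fn v.1 h1)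
    have h9 : 16 * (unb kp mn g v ^ 2) ≤ 16 * R + R * R := by
      nlinarith [mul_nonneg (by linarith : (0 : ℤ) ≤ R - 8 * t v.2.1)
        (by linarith : (0 : ℤ) ≤ R - 2 * t (f v.1)), mul_nonneg h7 h8]
    have h10 : 3 * unb kp mn g v ≤ 2 * R := by
      by_contra hcon
      push Not at hcon
      have h11 := H.n5
      have h12 : 5 ≤ R := by
        have h13 := H.tsum
        have h14 : ∑ i ∈ range n, (1 : ℤ) ≤ ∑ i ∈ range n, (t i + 1) :=
          sum_le_sum fun i hi => by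
            have := H.t0 i (mem_range.1 hi)
            linarith
        rw [sum_const, card_range, nsmul_eq_mul, mul_one] at h14
        have h15 : (5 : ℤ) ≤ n := by exact_mod_cast h11
        linarith
      nlinarith
    have h11 : (3 : ℝ) * (unb kp mn g v : ℝ) ≤ 2 * R := by exact_mod_cast h10
    rw [div_mul_eq_mul_div, div_le_one (by positivity)]
    exact h11
  · rw [zero_mul]
    exact zero_le_one

/-- **REGIME L, TABLE M2: the row claims in numbers are enough** -/
theorem LevC.close_M2N (Lv : LevC n U ho vl kp mn pc φ g f)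
    (H : PCon R n t s mu U ho vl kp mn pc ar be kq NN sg nu)
    (h2 : ∀ z < n, mu z - s z + 1 ≤ ∑ y ∈ (range n).erase z, rnE U ho vl pc be g z y →
      RowMz R ((range n).erase z) (t z + 1) (mu z - s z) (fun y => t y + 1)
        (rnE U ho vl pc be g z)) : False := by
  refine Lv.close_M2 H rfl rfl ?_
  intro z hz _ hz1
  have h3 : mu z - s z + 1 ≤ ∑ y ∈ (range n).erase z, rnE U ho vl pc be g z y := by
    rw [Lv.rnE_sum H hz]
    linarith
  have h4 := h2 z hz h3
  have h5 := Lv.row_le H hz (F := freeU (unV n U g) (fun v => ho v.1) (fun v => {v.2.1})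
      (lightU n s (unV n U g) fun v => {v.2.1})) (filter_subset _ _)
    (w := fun y => ((t y : ℝ) + 1) / ((t z : ℝ) + 1 + ((t y : ℝ) + 1))) fun y hy => by
      have h6 : (0 : ℝ) ≤ t z := by exact_mod_cast H.t0 z hz
      have h7 : (0 : ℝ) ≤ t y := by exact_mod_cast H.t0 y hy
      positivity
  refine h5.trans ?_
  unfold RowMz at h4
  push_cast at h4
  exact h4

/-! ### any factor per unit -/

/-- the lost factors of the hosted units of the cell `{z, y}` -/
noncomputable def rnHl (n : ℕ) (U : Finset ι) (ho : ι → ℕ) (g : ℕ → ι → ℕ)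
    (θ : ι × ℕ × ℕ → ℝ) (z y : ℕ) : ℝ :=
  ∑ v ∈ (unV n U g).filter (fun v => ho v.1 = z ∧ v.2.1 = y), (1 - θ v)

/-- the lost factors of the served units of the cell `{z, y}` -/
noncomputable def rnSl (n : ℕ) (U : Finset ι) (ho : ι → ℕ) (g : ℕ → ι → ℕ)
    (θ : ι × ℕ × ℕ → ℝ) (z y : ℕ) : ℝ :=
  ∑ v ∈ (unV n U g).filter (fun v => ho v.1 = y ∧ v.2.1 = z), (1 - θ v)

/-- **the shares of a row by cells, any factor `θ v` of the main end** -/
theorem LevC.row_theta (C : LevC n U ho vl kp mn pc φ g f)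
    (H : PCon R n t s mu U ho vl kp mn pc ar be kq NN sg nu) (hz : z < n)
    {F : Finset (ι × ℕ × ℕ)} (hF : F ⊆ unV n U g) {θ : ι × ℕ × ℕ → ℝ}
    (hθ : ∀ v ∈ unV n U g, 0 ≤ θ v ∧ θ v ≤ 1) {w : ℕ → ℝ} (hw : ∀ y < n, 0 ≤ w y ∧ w y ≤ 1) :
    ∑ v ∈ F.filter (fun v => ho v.1 = z), (1 - (1 - w v.2.1) * θ v)
      + ∑ v ∈ F.filter (fun v => v.2.1 = z), w (ho v.1) * θ v
      ≤ ∑ y ∈ (range n).erase z, (w y * (rnE U ho vl pc be g z y : ℝ)
        + ((1 - w y) * rnHl n U ho g θ z y - w y * rnSl n U ho g θ z y)) := by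
  have h0 : ∀ v ∈ unV n U g, v.2.1 < n ∧ ho v.1 < n ∧ v.2.1 ≠ ho v.1 := by
    intro v hv
    obtain ⟨h1, h2, h3⟩ := LevC.mem_unV hv
    refine ⟨h2, H.hlt _ h1, fun h4 => ?_⟩
    have h5 := C.home v.1 h1
    rw [← h4] at h5
    omega
  have e1 : ∑ v ∈ F.filter (fun v => ho v.1 = z), (1 - (1 - w v.2.1) * θ v)
      ≤ ∑ y ∈ (range n).erase z,
        (w y * (((unV n U g).filter fun v => ho v.1 = z ∧ v.2.1 = y).card : ℝ)
          + (1 - w y) * rnHl n U ho g θ z y) := by
    have h1 : ∑ v ∈ F.filter (fun v => ho v.1 = z), (1 - (1 - w v.2.1) * θ v)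
        ≤ ∑ v ∈ (unV n U g).filter (fun v => ho v.1 = z), (1 - (1 - w v.2.1) * θ v) := by
      refine sum_le_sum_of_subset_of_nonneg (filter_subset_filter _ hF) fun v hv _ => ?_
      have h2 := (mem_filter.1 hv).1
      obtain ⟨h3, h4⟩ := hw _ (h0 v h2).1
      obtain ⟨h5, h6⟩ := hθ v h2
      nlinarith [mul_nonneg (by linarith : (0 : ℝ) ≤ 1 - w v.2.1) (by linarith : (0 : ℝ) ≤ 1 - θ v)]
    refine h1.trans (le_of_eq ?_)
    rw [← sum_fiberwise_of_maps_to (t := (range n).erase z) (g := fun v : ι × ℕ × ℕ => v.2.1)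
      fun v hv => ?_]
    · refine sum_congr rfl fun y _ => ?_
      unfold rnHl
      rw [filter_filter, sum_congr (s₁ := (unV n U g).filter fun v => ho v.1 = z ∧ v.2.1 = y)
        (g := fun v => w y + (1 - w y) * (1 - θ v)) rfl
        fun v hv => by rw [(mem_filter.1 hv).2.2]; ring, sum_add_distrib, sum_const, nsmul_eq_mul,
        ← mul_sum]
      ring
    · obtain ⟨h2, h3⟩ := mem_filter.1 hv
      obtain ⟨h4, -, h5⟩ := h0 v h2
      exact mem_erase.2 ⟨fun h6 => h5 (by rw [h6, h3]), mem_range.2 h4⟩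
  have e2 : ∑ v ∈ F.filter (fun v => v.2.1 = z), w (ho v.1) * θ v
      ≤ ∑ y ∈ (range n).erase z,
        (w y * (((unV n U g).filter fun v => ho v.1 = y ∧ v.2.1 = z).card : ℝ)
          - w y * rnSl n U ho g θ z y) := by
    have h1 : ∑ v ∈ F.filter (fun v => v.2.1 = z), w (ho v.1) * θ v
        ≤ ∑ v ∈ (unV n U g).filter (fun v => v.2.1 = z), w (ho v.1) * θ v := by
      refine sum_le_sum_of_subset_of_nonneg (filter_subset_filter _ hF) fun v hv _ => ?_
      have h2 := (mem_filter.1 hv).1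
      exact mul_nonneg (hw _ (h0 v h2).2.1).1 (hθ v h2).1
    refine h1.trans (le_of_eq ?_)
    rw [← sum_fiberwise_of_maps_to (t := (range n).erase z) (g := fun v : ι × ℕ × ℕ => ho v.1)
      fun v hv => ?_]
    · refine sum_congr rfl fun y _ => ?_
      have h2 : ((unV n U g).filter fun v => v.2.1 = z).filter (fun v => ho v.1 = y)
          = (unV n U g).filter fun v => ho v.1 = y ∧ v.2.1 = z := by
        rw [filter_filter]
        exact filter_congr fun v _ => and_comm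
      unfold rnSl
      rw [h2, sum_congr (s₁ := (unV n U g).filter fun v => ho v.1 = y ∧ v.2.1 = z)
        (g := fun v => w y + (-(w y)) * (1 - θ v)) rfl
        fun v hv => by rw [(mem_filter.1 hv).2.1]; ring, sum_add_distrib, sum_const, nsmul_eq_mul,
        ← mul_sum]
      ring
    · obtain ⟨h2, h3⟩ := mem_filter.1 hv
      obtain ⟨-, h4, h5⟩ := h0 v h2
      exact mem_erase.2 ⟨fun h6 => h5 (by rw [h6, h3]), mem_range.2 h4⟩
  refine (add_le_add e1 e2).trans (le_of_eq ?_)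
  rw [← sum_add_distrib]
  refine sum_congr rfl fun y hy => ?_
  have hyn := mem_range.1 (mem_of_mem_erase hy)
  have h3 : (rnE U ho vl pc be g z y : ℝ)
      = (((unV n U g).filter fun v => ho v.1 = z ∧ v.2.1 = y).card : ℝ)
      + (((unV n U g).filter fun v => ho v.1 = y ∧ v.2.1 = z).card : ℝ) := by
    have h4 : (((unV n U g).filter fun v => ho v.1 = z ∧ v.2.1 = y).card : ℤ)
        + (((unV n U g).filter fun v => ho v.1 = y ∧ v.2.1 = z).card : ℤ)
        = rnE U ho vl pc be g z y := by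
      rw [C.card_host H hz hyn, C.card_serv H hz hyn]
      rfl
    rw [← h4]
    push_cast
    rfl
  rw [h3]
  ring

/-- **REGIME L, `T v = A_x / (A_x + A_m) * θ v`, any factors `θ v` in `[0, 1]`, any budgets `δ`**: the row claims in
numbers are enough -/
theorem LevC.close_theta (Lv : LevC n U ho vl kp mn pc φ g f)
    (H : PCon R n t s mu U ho vl kp mn pc ar be kq NN sg nu) {θ : ι × ℕ × ℕ → ℝ}
    (hθ : ∀ v ∈ unV n U g, 0 ≤ θ v ∧ θ v ≤ 1)
    (h2 : ∀ z < n, mu z - s z + 1 ≤ ∑ y ∈ (range n).erase z, rnE U ho vl pc be g z y →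
      ∑ y ∈ (range n).erase z,
        (((t y : ℝ) + 1) / ((t z : ℝ) + 1 + ((t y : ℝ) + 1)) * (rnE U ho vl pc be g z y : ℝ)
        + ((1 - ((t y : ℝ) + 1) / ((t z : ℝ) + 1 + ((t y : ℝ) + 1))) * rnHl n U ho g θ z y
          - ((t y : ℝ) + 1) / ((t z : ℝ) + 1 + ((t y : ℝ) + 1)) * rnSl n U ho g θ z y))
      ≤ (mu z : ℝ) - s z + ((t z : ℝ) + 1) / ((R : ℝ) + 1)) : False := by
  refine Lv.close_M H (T := fun v => ((t (ho v.1) : ℝ) + 1)
    / ((t v.2.1 : ℝ) + 1 + ((t (ho v.1) : ℝ) + 1)) * θ v) rfl rfl ?_ (H.sum_A_lt _)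
  intro z hz _ hz1
  have h3 : mu z - s z + 1 ≤ ∑ y ∈ (range n).erase z, rnE U ho vl pc be g z y := by
    rw [Lv.rnE_sum H hz]
    linarith
  have h4 := h2 z hz h3
  have hw : ∀ y < n, (0 : ℝ) ≤ ((t y : ℝ) + 1) / ((t z : ℝ) + 1 + ((t y : ℝ) + 1))
      ∧ ((t y : ℝ) + 1) / ((t z : ℝ) + 1 + ((t y : ℝ) + 1)) ≤ 1 := fun y hy => by
    have h6 : (0 : ℝ) ≤ t z := by exact_mod_cast H.t0 z hz
    have h7 : (0 : ℝ) ≤ t y := by exact_mod_cast H.t0 y hy
    refine ⟨by positivity, ?_⟩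
    rw [div_le_one (by positivity)]
    linarith
  have h5 := Lv.row_theta H hz (F := freeU (unV n U g) (fun v => ho v.1) (fun v => {v.2.1})
      (lightU n s (unV n U g) fun v => {v.2.1})) (filter_subset _ _) hθ
    (w := fun y => ((t y : ℝ) + 1) / ((t z : ℝ) + 1 + ((t y : ℝ) + 1))) hw
  refine le_trans (le_of_eq ?_) (h5.trans h4)
  congr 1
  · refine sum_congr rfl fun v hv => ?_
    obtain ⟨h6, h7⟩ := mem_filter.1 hv
    obtain ⟨h8, h9, -⟩ := LevC.mem_unV (filter_subset _ _ h6)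
    have h10 : (0 : ℝ) ≤ t z := by exact_mod_cast H.t0 z hz
    have h11 : (0 : ℝ) ≤ t v.2.1 := by exact_mod_cast H.t0 _ h9
    rw [h7]
    have h12 : (t v.2.1 : ℝ) + 1 + ((t z : ℝ) + 1) ≠ 0 := by positivity
    have h13 : (t z : ℝ) + 1 + ((t v.2.1 : ℝ) + 1) ≠ 0 := by positivity
    have h14 : 1 - ((t v.2.1 : ℝ) + 1) / ((t z : ℝ) + 1 + ((t v.2.1 : ℝ) + 1))
        = ((t z : ℝ) + 1) / ((t v.2.1 : ℝ) + 1 + ((t z : ℝ) + 1)) := by
      field_simp
      ring
    rw [h14]
  · refine sum_congr rfl fun v hv => ?_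
    rw [(mem_filter.1 hv).2]

end RowLA

end Pool.Agent.Lib.MP_f04ccf_co
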