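import Pool.Agent.Lib.MP_f04ccf_co.M.ColC
import Pool.Agent.Lib.MP_f04ccf_co.M.RowLA

/-!
MP_f04ccf_co, TEXT D: **the column sum certificate (80's CS), part (A)**: the column tests of all other rows and the
exact row test, linear part and second order part written out, summed with any weights and regrouped by hosted items.

* `crY`: the credit of a plain hosted item in the column `y` (kept or dropped);
* `PConC.colLin`: one column, linear form with its second order remainder; `PConC.rowLin`: the exact row test;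
* `csR`, `PConC.csR_nonneg`: the remainder of a column (all units of the cell used); not negative for `E ≤ d + g`;
* `LevC.csCol`: one column with all units of the cell used; `LevC.csSum`: the weighted sum, per hosted item;
* `PConC.csT`: the exact row test, everything hosted kept but the Konig pairs, any used items.
-/

set_option autoImplicit false

namespace Pool.Agent.Lib.MP_f04ccf_co

open Finset

attribute [local instance] Classical.propDecidable

section CsA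

variable {ι : Type*} {R : ℤ} {n : ℕ} {t s mu : ℕ → ℤ} {U : Finset ι} {ho : ι → ℕ} {vl : ι → ℤ}
  {kp mn : ℕ → ι → ℤ} {pc ar : ι → ℤ} {be kq NN sg : ℕ → ℕ → ℤ} {nu : ℕ → ι → ℤ} {z y : ℕ}
  {φ : ι → ℕ → ℤ} {g : ℕ → ι → ℕ} {f : ι → ℕ}

/-- **the credit of a plain hosted item in the column `y`**, kept (`u ∈ P`) or dropped -/
noncomputable def crY (R : ℤ) (t : ℕ → ℤ) (vl : ι → ℤ) (kp mn : ℕ → ι → ℤ) (z y : ℕ)
    (P : Finset ι) (u : ι) : ℤ :=
  if u ∈ P then kp y u * (R - t y) - mn y u + (t y - (t z + 1)) * vl u else - t y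

/-- the credits of a column -/
lemma crY_sum {S P : Finset ι} (hP : P ⊆ S) :
    ∑ u ∈ S, crY R t vl kp mn z y P u
      = ∑ u ∈ P, (kp y u * (R - t y) - mn y u) + (t y - (t z + 1)) * ∑ u ∈ P, vl u
        - t y * ((S.card : ℤ) - (P.card : ℤ)) := by
  unfold crY
  rw [← sum_sdiff hP, add_comm]
  have e1 : ∑ u ∈ P, (if u ∈ P then kp y u * (R - t y) - mn y u + (t y - (t z + 1)) * vl u
      else - t y) = ∑ u ∈ P, (kp y u * (R - t y) - mn y u) + (t y - (t z + 1)) * ∑ u ∈ P, vl u := by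
    rw [mul_sum, ← sum_add_distrib]
    exact sum_congr rfl fun u hu => if_pos hu
  have e2 : ∑ u ∈ S \ P, (if u ∈ P then kp y u * (R - t y) - mn y u + (t y - (t z + 1)) * vl u
      else - t y) = - (t y * ((S.card : ℤ) - (P.card : ℤ))) := by
    rw [sum_congr rfl fun u hu => if_neg (mem_sdiff.1 hu).2, sum_const, nsmul_eq_mul,
      card_sdiff_of_subset hP, Nat.cast_sub (card_le_card hP)]
    ring
  rw [e1, e2]
  ring

/-- **one column in linear form**: `REM` is the second order part -/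
theorem PConC.colLin (H : PConC R n t s mu U ho vl kp mn pc ar be kq NN sg nu) (hz : z < n)
    (hy : y < n) (hyz : y ≠ z) {P : Finset ι} (hP : P ⊆ U)
    (hPz : ∀ u ∈ P, ho u = z ∧ pc u = 0) {K : Finset ι} (hK : K ⊆ U)
    (hKy : ∀ u ∈ K, ho u = y ∧ pc u = 0) {lv : ι → ℕ} (hlv : ∀ u ∈ K, 1 ≤ lv u)
    (hlv' : ∀ u ∈ K, (lv u : ℤ) ≤ kp z u) {Q : Finset ι} (hQU : Q ⊆ U)
    (hQy : ∀ u ∈ Q, ho u = y ∧ pc u = 1 ∧ kp z u ≠ 0) {Y : Finset ℕ}
    (hY : Y ⊆ ((range n).erase z).erase y) {m k κ' n1 q f b M E W g : ℤ}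
    (hm : m = ∑ u ∈ P, vl u) (hk : k = ∑ u ∈ K, (lv u : ℤ)) (hκ : κ' = (K.card : ℤ))
    (hn : n1 = ((K.filter fun u => vl u = 1).card : ℤ)) (hq : q = (Q.card : ℤ))
    (hf : f = ((K.filter fun u => ¬ ∃ l < n, l ≠ z ∧ kp l u ≠ 0).card : ℤ))
    (hb : b = ∑ l ∈ ((range n).erase z).erase y \ Y, (be z l - kq z l))
    (hM : M = be z y + q) (hE : E = m + b + M + k) (hW : W = m + b + M + k + κ')
    (hg : g = ((U.filter fun u => ho u = z ∧ pc u = 0).card : ℤ) - (P.card : ℤ)) :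
    2 * ((R - (t z + 1)) * (M + k))
        + 2 * ∑ u ∈ U.filter (fun u => ho u = z ∧ pc u = 0), crY R t vl kp mn z y P u
        + 2 * ((t y - (t z + 1)) * b)
        + (2 * (W * (mu z - s z + g - E)) + (m + b) * (W + 1) + M * (m + b + k + κ')
          + (k - κ') * (W + 1) + 2 * (n1 * (n1 - 1)) + ∑ e ∈ P.offDiag, min (vl e.1) (vl e.2))
      ≤ 2 * (t y * (mu z - s z)) + 2 * (R - t y) + 2 * ∑ u ∈ K, msP kp mn z lv u
        + (∑ l ∈ ((range n).erase z).erase y \ Y, (be z l - kq z l) * (be z l - kq z l + 1)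
          + 2 * ∑ l ∈ Y, (be z l - kq z l) * (sg z l
            + ((P.filter fun u => kp l u ≠ 0).card : ℤ)))
        + 2 * ((be y z - q) * f)
        + 2 * ∑ u ∈ K.filter (fun u => ∃ l < n, l ≠ z ∧ kp l u ≠ 0),
          ∑ l ∈ ((range n).erase y).filter (fun l => kp l u ≠ 0), be y l := by
  have h0 := H.colC hz hy hyz hP hPz hK hKy hlv hlv' hQU hQy hY hm hk hκ hn hq hf hb hM hE hW hg
  have h1 := crY_sum (R := R) (t := t) (vl := vl) (kp := kp) (mn := mn) (z := z) (y := y)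
    (S := U.filter fun u => ho u = z ∧ pc u = 0) (P := P)
    (fun u hu => mem_filter.2 ⟨hP hu, hPz u hu⟩)
  rw [← hg, ← hm] at h1
  rw [h1]
  subst hE
  linarith

/-- **the exact row test in linear form** -/
theorem PConC.rowLin (H : PConC R n t s mu U ho vl kp mn pc ar be kq NN sg nu) (hz : z < n)
    {P : Finset ι} (hP : P ⊆ U) (hPz : ∀ u ∈ P, ho u = z ∧ pc u = 0) {X Y : Finset ℕ}
    (hX : X ⊆ (range n).erase z) (hY : Y ⊆ X) {K : Finset ι} (hK : K ⊆ U)
    (hKz : ∀ u ∈ K, ho u ≠ z) {lv : ι → ℕ} (hlv : ∀ u ∈ K, 1 ≤ lv u)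
    (hlv' : ∀ u ∈ K, (lv u : ℤ) ≤ kp z u) {sv : ℤ}
    (hs : sv ≤ svP n ho vl K lv + svP n ho vl (K.filter fun u => pc u = 0) lv)
    {m k κ' E W g : ℤ}
    (hm : m = mu z - ∑ l ∈ X, kq z l - ∑ l ∈ Y, (be z l - kq z l)
      - (∑ u ∈ U.filter (fun u => ho u = z ∧ pc u = 0), vl u - ∑ u ∈ P, vl u))
    (hk : k = ∑ u ∈ K, (lv u : ℤ)) (hκ : κ' = (K.card : ℤ))
    (hE : E = m + k) (hW : W = m + k + κ')
    (hg : g = ((U.filter fun u => ho u = z ∧ pc u = 0).card : ℤ) - (P.card : ℤ)) :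
    2 * ((R - (t z + 1)) * E) + (2 * (W * (mu z - s z + g - E)) + (E - κ') * (W + 1) + sv
        + ∑ e ∈ P.offDiag, min (vl e.1) (vl e.2))
      ≤ 2 * (R * (mu z - s z + g)) + 2 * ∑ u ∈ K, msP kp mn z lv u
        + (∑ l ∈ X \ Y, (be z l - kq z l) * (be z l - kq z l + 1)
          + ∑ l ∈ (range n).erase z \ X, NN z l
          + 2 * ∑ l ∈ Y, (be z l - kq z l) * (sg z l
            + ((P.filter fun u => kp l u ≠ 0).card : ℤ))) := by
  have h0 := H.rowC hz hP hPz hX hY hK hKz hlv hlv' hs hm hk hκ hE hW hg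
  linarith

/-! ### the numbers of a column, all units of the cell used -/

/-- the plain hosted items of `z` -/
noncomputable def hsZ (U : Finset ι) (ho : ι → ℕ) (pc : ι → ℤ) (z : ℕ) : Finset ι :=
  U.filter fun u => ho u = z ∧ pc u = 0

/-- the third block pairs kept in the column `y` -/
def csB (n : ℕ) (be kq : ℕ → ℕ → ℤ) (z y : ℕ) (Y : Finset ℕ) : ℤ :=
  ∑ l ∈ ((range n).erase z).erase y \ Y, (be z l - kq z l)

/-- all kept and used units in the column `y` -/
noncomputable def csE (n : ℕ) (U : Finset ι) (ho : ι → ℕ) (vl pc : ι → ℤ) (be kq : ℕ → ℕ → ℤ)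
    (g : ℕ → ι → ℕ) (z y : ℕ) (P : Finset ι) (Y : Finset ℕ) : ℤ :=
  ∑ u ∈ P, vl u + csB n be kq z y Y + (be z y + be y z) + ∑ u ∈ rnK U ho pc g z y, (g z u : ℤ)

/-- **the second order part of a column**, all units of the cell used -/
noncomputable def csR (n : ℕ) (U : Finset ι) (ho : ι → ℕ) (vl : ι → ℤ) (kp : ℕ → ι → ℤ)
    (pc : ι → ℤ) (be kq sg : ℕ → ℕ → ℤ) (g : ℕ → ι → ℕ) (z y : ℕ) (d : ℤ) (P : Finset ι)
    (Y : Finset ℕ) : ℤ :=
  2 * ((csE n U ho vl pc be kq g z y P Y + ((rnK U ho pc g z y).card : ℤ))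
      * (d + (((hsZ U ho pc z).card : ℤ) - (P.card : ℤ)) - csE n U ho vl pc be kq g z y P Y))
    + (∑ u ∈ P, vl u + csB n be kq z y Y)
      * (csE n U ho vl pc be kq g z y P Y + ((rnK U ho pc g z y).card : ℤ) + 1)
    + (be z y + be y z) * (∑ u ∈ P, vl u + csB n be kq z y Y
      + ∑ u ∈ rnK U ho pc g z y, (g z u : ℤ) + ((rnK U ho pc g z y).card : ℤ))
    + (∑ u ∈ rnK U ho pc g z y, (g z u : ℤ) - ((rnK U ho pc g z y).card : ℤ))
      * (csE n U ho vl pc be kq g z y P Y + ((rnK U ho pc g z y).card : ℤ) + 1)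
    + 2 * (((rnK1 U ho vl pc g z y).card : ℤ) * (((rnK1 U ho vl pc g z y).card : ℤ) - 1))
    + ∑ e ∈ P.offDiag, min (vl e.1) (vl e.2)
    - (∑ l ∈ ((range n).erase z).erase y \ Y, (be z l - kq z l) * (be z l - kq z l + 1)
      + 2 * ∑ l ∈ Y, (be z l - kq z l) * (sg z l + ((P.filter fun u => kp l u ≠ 0).card : ℤ)))

/-- **one column, all units of the cell used** -/
theorem LevC.csCol (C : LevC n U ho vl kp mn pc φ g f)
    (H : PConC R n t s mu U ho vl kp mn pc ar be kq NN sg nu) (hz : z < n)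
    (hy : y ∈ (range n).erase z) {P : Finset ι} (hP : P ⊆ hsZ U ho pc z) {Y : Finset ℕ}
    (hY : Y ⊆ ((range n).erase z).erase y) :
    2 * ((R - (t z + 1)) * (be z y + be y z + ∑ u ∈ rnK U ho pc g z y, (g z u : ℤ)))
        + 2 * ∑ u ∈ hsZ U ho pc z, crY R t vl kp mn z y P u
        + 2 * ((t y - (t z + 1)) * csB n be kq z y Y)
        + csR n U ho vl kp pc be kq sg g z y (mu z - s z) P Y
      ≤ 2 * (t y * (mu z - s z)) + 2 * (R - t y)
        + 2 * ∑ u ∈ rnK U ho pc g z y, (msP kp mn z (g z) u + rnA n kp be z y u) := by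
  have hyn : y < n := mem_range.1 (mem_of_mem_erase hy)
  have hyz : y ≠ z := ne_of_mem_erase hy
  have hQc : ((rnQ U ho kp pc z y).card : ℤ) = be y z := by
    rw [← H.pcb y hyn z hz, card_eq_sum_ones]
    push_cast
    unfold rnQ
    have e1 : ∑ u ∈ U.filter (fun u => ho u = y), pc u * kp z u
        = ∑ u ∈ (U.filter (fun u => ho u = y)).filter (fun u => pc u = 1 ∧ kp z u ≠ 0),
          pc u * kp z u := by
      refine (sum_subset (filter_subset _ _) fun u hu hu' => ?_).symm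
      rcases H.pc01 u (mem_filter.1 hu).1 with h1 | h1
      · rw [h1, zero_mul]
      · by_cases h2 : kp z u = 0
        · rw [h2, mul_zero]
        · exact absurd (mem_filter.2 ⟨hu, h1, h2⟩) hu'
    rw [e1, filter_filter]
    refine sum_congr rfl fun u hu => ?_
    obtain ⟨h1, h2, h3, h4⟩ := mem_filter.1 hu
    have h5 := H.pcv u h1 (by rw [h3]; norm_num)
    rw [h3, H.kp_one h1 h5 hz h4]
    norm_num
  have h1 := H.colLin hz hyn hyz (P := P) (hP.trans (filter_subset _ _))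
    (fun u hu => (mem_filter.1 (hP hu)).2) (K := rnK U ho pc g z y) (filter_subset _ _)
    (fun u hu => ⟨(mem_filter.1 hu).2.1, (mem_filter.1 hu).2.2.1⟩) (lv := g z)
    (fun u hu => Nat.one_le_iff_ne_zero.2 (mem_filter.1 hu).2.2.2)
    (fun u hu => C.le u (mem_filter.1 hu).1 z hz) (Q := rnQ U ho kp pc z y) (filter_subset _ _)
    (fun u hu => (mem_filter.1 hu).2) hY rfl rfl rfl rfl rfl rfl rfl rfl rfl rfl rfl
  have h3 : ∑ u ∈ (rnK U ho pc g z y).filter (fun u => ∃ l < n, l ≠ z ∧ kp l u ≠ 0),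
        ∑ l ∈ ((range n).erase y).filter (fun l => kp l u ≠ 0), be y l
      = ∑ u ∈ rnK U ho pc g z y, rnA n kp be z y u := by
    rw [sum_filter]
    refine sum_congr rfl fun u _ => ?_
    unfold rnA
    rfl
  rw [h3, hQc] at h1
  unfold csR csE csB hsZ rnK1
  rw [sum_add_distrib]
  linarith

/-- **the columns of a row with weights**, regrouped by hosted items -/
theorem LevC.csSum (C : LevC n U ho vl kp mn pc φ g f)
    (H : PConC R n t s mu U ho vl kp mn pc ar be kq NN sg nu) (hz : z < n) {P : ℕ → Finset ι}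
    {Y : ℕ → Finset ℕ} {ν : ℕ → ℝ} {J : Finset ℕ} (hJ : J ⊆ (range n).erase z)
    (hP : ∀ y ∈ J, P y ⊆ hsZ U ho pc z) (hY : ∀ y ∈ J, Y y ⊆ ((range n).erase z).erase y)
    (hν : ∀ y ∈ J, 0 ≤ ν y) :
    ∑ y ∈ J, ν y * (((R : ℝ) - ((t z : ℝ) + 1)) * ((be z y : ℝ) + (be y z : ℝ)
          + ∑ u ∈ rnK U ho pc g z y, (g z u : ℝ)))
        + ∑ u ∈ hsZ U ho pc z, ∑ y ∈ J, ν y * (crY R t vl kp mn z y (P y) u : ℝ)
        + ∑ y ∈ J, ν y * (((t y : ℝ) - ((t z : ℝ) + 1)) * (csB n be kq z y (Y y) : ℝ))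
        + (1 / 2) * ∑ y ∈ J, ν y
          * (csR n U ho vl kp pc be kq sg g z y (mu z - s z) (P y) (Y y) : ℝ)
      ≤ (∑ y ∈ J, ν y * (t y : ℝ)) * ((mu z : ℝ) - s z) + ∑ y ∈ J, ν y * ((R : ℝ) - t y)
        + ∑ y ∈ J, ν y * ∑ u ∈ rnK U ho pc g z y,
          ((msP kp mn z (g z) u : ℝ) + (rnA n kp be z y u : ℝ)) := by
  have h1 : ∀ y ∈ J, ν y * (((R : ℝ) - ((t z : ℝ) + 1)) * ((be z y : ℝ) + (be y z : ℝ)
          + ∑ u ∈ rnK U ho pc g z y, (g z u : ℝ)))
        + ∑ u ∈ hsZ U ho pc z, ν y * (crY R t vl kp mn z y (P y) u : ℝ)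
        + ν y * (((t y : ℝ) - ((t z : ℝ) + 1)) * (csB n be kq z y (Y y) : ℝ))
        + (1 / 2) * (ν y
          * (csR n U ho vl kp pc be kq sg g z y (mu z - s z) (P y) (Y y) : ℝ))
      ≤ ν y * (t y : ℝ) * ((mu z : ℝ) - s z) + ν y * ((R : ℝ) - t y)
        + ν y * ∑ u ∈ rnK U ho pc g z y,
          ((msP kp mn z (g z) u : ℝ) + (rnA n kp be z y u : ℝ)) := by
    intro y hy
    have h2 := C.csCol H hz (hJ hy) (hP y hy) (hY y hy)
    have h3 : (2 * (((R : ℝ) - ((t z : ℝ) + 1)) * ((be z y : ℝ) + (be y z : ℝ)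
          + ∑ u ∈ rnK U ho pc g z y, (g z u : ℝ)))
        + 2 * ∑ u ∈ hsZ U ho pc z, (crY R t vl kp mn z y (P y) u : ℝ)
        + 2 * (((t y : ℝ) - ((t z : ℝ) + 1)) * (csB n be kq z y (Y y) : ℝ))
        + (csR n U ho vl kp pc be kq sg g z y (mu z - s z) (P y) (Y y) : ℝ))
      ≤ 2 * ((t y : ℝ) * ((mu z : ℝ) - s z)) + 2 * ((R : ℝ) - t y)
        + 2 * ∑ u ∈ rnK U ho pc g z y,
          ((msP kp mn z (g z) u : ℝ) + (rnA n kp be z y u : ℝ)) := by
      exact_mod_cast h2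
    have h4 := mul_le_mul_of_nonneg_left h3 (hν y hy)
    rw [← mul_sum]
    nlinarith [h4]
  have h5 := sum_le_sum h1
  simp only [sum_add_distrib] at h5
  rw [sum_comm (s := J) (t := hsZ U ho pc z)] at h5
  have e1 : ∑ y ∈ J, (1 / 2 : ℝ) * (ν y
      * (csR n U ho vl kp pc be kq sg g z y (mu z - s z) (P y) (Y y) : ℝ))
      = (1 / 2) * ∑ y ∈ J, ν y
        * (csR n U ho vl kp pc be kq sg g z y (mu z - s z) (P y) (Y y) : ℝ) := by
    rw [mul_sum]
  have e2 : ∑ y ∈ J, ν y * (t y : ℝ) * ((mu z : ℝ) - s z)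
      = (∑ y ∈ J, ν y * (t y : ℝ)) * ((mu z : ℝ) - s z) := by
    rw [sum_mul]
  rw [e1, e2] at h5
  simp only [sum_add_distrib]
  exact h5

/-- **the exact row test with all plain items and the block pairs kept** (Konig pairs out), any used items -/
theorem PConC.csT (H : PConC R n t s mu U ho vl kp mn pc ar be kq NN sg nu) (hz : z < n)
    {K : Finset ι} (hK : K ⊆ U) (hKz : ∀ u ∈ K, ho u ≠ z) {lv : ι → ℕ}
    (hlv : ∀ u ∈ K, 1 ≤ lv u) (hlv' : ∀ u ∈ K, (lv u : ℤ) ≤ kp z u) {sv : ℤ}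
    (hs : sv ≤ svP n ho vl K lv + svP n ho vl (K.filter fun u => pc u = 0) lv)
    {m b k κ' : ℤ} (hm : m = ∑ u ∈ hsZ U ho pc z, vl u)
    (hb : b = ∑ l ∈ (range n).erase z, (be z l - kq z l))
    (hk : k = ∑ u ∈ K, (lv u : ℤ)) (hκ : κ' = (K.card : ℤ)) :
    2 * ((R - (t z + 1)) * (m + b + k)) + (2 * ((m + b + k + κ') * (mu z - s z - (m + b + k)))
        + (m + b + k - κ') * (m + b + k + κ' + 1) + sv
        + ∑ e ∈ (hsZ U ho pc z).offDiag, min (vl e.1) (vl e.2))
      ≤ 2 * (R * (mu z - s z)) + 2 * ∑ u ∈ K, msP kp mn z lv u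
        + ∑ l ∈ (range n).erase z, (be z l - kq z l) * (be z l - kq z l + 1) := by
  have h1 := H.mu_plain hz
  have h0 := H.rowLin hz (P := hsZ U ho pc z) (filter_subset _ _)
    (fun u hu => (mem_filter.1 hu).2) (X := (range n).erase z) (Y := ∅) (Subset.refl _)
    (empty_subset _) hK hKz hlv hlv' hs (m := m + b) (k := k) (κ' := κ') (E := m + b + k)
    (W := m + b + k + κ') (g := 0) (by
      rw [hm, hb, h1, sum_sub_distrib, sum_empty]
      unfold hsZ
      ring) hk hκ rfl rfl (by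
      unfold hsZ
      ring)
  rw [Finset.sdiff_self, sum_empty, sum_empty, sdiff_empty] at h0
  linarith

/-- **the remainder of a column is not negative** if all block pairs are kept and `E ≤ d + g` -/
theorem PConC.csR_nonneg
    (H : PConC R n t s mu U ho vl kp mn pc ar be kq NN sg nu) (hz : z < n)
    (hy : y ∈ (range n).erase z) {P : Finset ι} (hP : P ⊆ hsZ U ho pc z) {d : ℤ}
    (hE : csE n U ho vl pc be kq g z y P ∅ ≤ d + (((hsZ U ho pc z).card : ℤ) - (P.card : ℤ))) :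
    0 ≤ csR n U ho vl kp pc be kq sg g z y d P ∅ := by
  have hyn : y < n := mem_range.1 (mem_of_mem_erase hy)
  unfold csR
  have h1 : (0 : ℤ) ≤ ((rnK U ho pc g z y).card : ℤ) := Nat.cast_nonneg _
  have h2 : ((rnK U ho pc g z y).card : ℤ) ≤ ∑ u ∈ rnK U ho pc g z y, (g z u : ℤ) := by
    rw [card_eq_sum_ones]
    push_cast
    refine sum_le_sum fun u hu => ?_
    have := Nat.one_le_iff_ne_zero.2 (mem_filter.1 hu).2.2.2
    exact_mod_cast this
  have h3 : (0 : ℤ) ≤ ∑ u ∈ P, vl u := sum_nonneg fun u hu => by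
    have := H.v1 u (mem_filter.1 (hP hu)).1
    linarith
  have hB : ∀ l ∈ (range n).erase z, 0 ≤ be z l - kq z l := fun l hl => by
    have := H.kqb z hz l (mem_range.1 (mem_of_mem_erase hl))
    linarith
  have h4 : 0 ≤ csB n be kq z y ∅ := by
    unfold csB
    exact sum_nonneg fun l hl => hB l (mem_of_mem_erase (mem_sdiff.1 hl).1)
  have h5 : 0 ≤ be z y := H.be0 z hz y hyn
  have h6 : 0 ≤ be y z := H.be0 y hyn z hz
  have h7 := tri_nonneg' (rnK1 U ho vl pc g z y).card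
  have h8 : 0 ≤ ∑ e ∈ P.offDiag, min (vl e.1) (vl e.2) := sum_nonneg fun e he => by
    obtain ⟨h9, h10, -⟩ := mem_offDiag.1 he
    have h11 := H.v1 _ (mem_filter.1 (hP h9)).1
    have h12 := H.v1 _ (mem_filter.1 (hP h10)).1
    exact le_min (by linarith) (by linarith)
  have h9 : ∑ l ∈ ((range n).erase z).erase y \ ∅, (be z l - kq z l) * (be z l - kq z l + 1)
      ≤ csB n be kq z y ∅ * (csB n be kq z y ∅ + 1) := by
    unfold csB
    rw [sum_mul]
    refine sum_le_sum fun l hl => ?_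
    have h10 := hB l (mem_of_mem_erase (mem_sdiff.1 hl).1)
    have h11 : be z l - kq z l
        ≤ ∑ l ∈ ((range n).erase z).erase y \ ∅, (be z l - kq z l) :=
      single_le_sum (f := fun l => be z l - kq z l)
        (fun l hl => hB l (mem_of_mem_erase (mem_sdiff.1 hl).1)) hl
    nlinarith
  have h10 : csE n U ho vl pc be kq g z y P ∅ = ∑ u ∈ P, vl u + csB n be kq z y ∅
      + (be z y + be y z) + ∑ u ∈ rnK U ho pc g z y, (g z u : ℤ) := rfl
  generalize csE n U ho vl pc be kq g z y P ∅ = E at *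
  generalize csB n be kq z y ∅ = b at *
  generalize (∑ u ∈ rnK U ho pc g z y, (g z u : ℤ)) = k at *
  generalize ((rnK U ho pc g z y).card : ℤ) = κ at *
  generalize (∑ u ∈ P, vl u) = m at *
  generalize ((hsZ U ho pc z).card : ℤ) - (P.card : ℤ) = g' at *
  generalize (∑ e ∈ P.offDiag, min (vl e.1) (vl e.2)) = S at *
  generalize (∑ l ∈ ((range n).erase z).erase y \ ∅, (be z l - kq z l) * (be z l - kq z l + 1))
    = N at *
  rw [sum_empty, mul_zero, add_zero]
  have hE0 : 0 ≤ E := by linarith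
  have a1 : 0 ≤ (E + κ) * (d + g' - E) := mul_nonneg (by linarith) (by linarith)
  have a2 : b * (b + 1) ≤ (m + b) * (E + κ + 1) := by nlinarith
  have a3 : 0 ≤ (be z y + be y z) * (m + b + k + κ) := mul_nonneg (by linarith) (by linarith)
  have a4 : 0 ≤ (k - κ) * (E + κ + 1) := mul_nonneg (by linarith) (by linarith)
  linarith

end CsA

end Pool.Agent.Lib.MP_f04ccf_co
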