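import Pool.Agent.Lib.MP_f04ccf_co.M.CsTyp

/-!
MP_f04ccf_co, TEXT D: **the remainders of the column sum in closed form, and the mean of two modes**.

Letters of a mode: `P` the kept plain hosted items, `G` the number of the dropped ones, `b` the third block pairs kept,
`m = ∑ u ∈ P, vl u + b`, `M` the PC pairs of the cell used (all), `k`, `κ` the levels and the number of the used plain
items of the host `y`, `W = m + M + k + κ`.

* `csRJ_eq`: `csRJ = 2 (t - A) b + W (2 (d + G) - W) - M² + m + (k - κ) + 2 κ₁ (κ₁ - 1) + minP - N`;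
* `csRT_eq`: the same for the row test;
* `LevC.csInAV`: the mean of two kept sets (and two sets of block pairs) as an input of `csShare`;
* `LevC.csQ_all`: with `V` all items of the host `y`, all PC pairs are used;
* `crAV`: the credit of the mean; `crAV_own`, `crAV_third`.
-/

set_option autoImplicit false

namespace Pool.Agent.Lib.MP_f04ccf_co

open Finset

attribute [local instance] Classical.propDecidable

section CsAV

variable {ι : Type*} {R : ℤ} {n : ℕ} {t s mu : ℕ → ℤ} {U : Finset ι} {ho : ι → ℕ} {vl : ι → ℤ}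
  {kp mn : ℕ → ι → ℤ} {pc ar : ι → ℤ} {be kq NN sg : ℕ → ℕ → ℤ} {nu : ℕ → ι → ℤ} {z y : ℕ}
  {φ : ι → ℕ → ℤ} {g : ℕ → ι → ℕ} {f : ι → ℕ}

/-- **the remainder of a joint column in closed form** (all PC pairs of the host `y` used) -/
theorem csRJ_eq {P : Finset ι} {Y : Finset ℕ} {V : Finset ι} {d m M k κ W : ℤ}
    (hQ : ((csQ pc V).card : ℤ) = be y z)
    (hm : m = ∑ u ∈ P, vl u + csB n be kq z y Y) (hM : M = be z y + be y z)
    (hk : k = ∑ u ∈ csK pc V, (g z u : ℤ)) (hκ : κ = ((csK pc V).card : ℤ))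
    (hW : W = m + M + k + κ) :
    csRJ n t U ho vl kp pc be kq sg g z y d P Y V
      = 2 * ((t y - (t z + 1)) * csB n be kq z y Y)
        + W * (2 * (d + (((hsZ U ho pc z).card : ℤ) - (P.card : ℤ))) - W) - M ^ 2 + m + (k - κ)
        + 2 * ((((csK pc V).filter fun u => vl u = 1).card : ℤ)
          * ((((csK pc V).filter fun u => vl u = 1).card : ℤ) - 1))
        + ∑ e ∈ P.offDiag, min (vl e.1) (vl e.2) - csNb n kp be kq sg z y P Y := by
  unfold csRJ csEV
  rw [hQ, sub_self, zero_mul, mul_zero, sub_zero, ← hk, ← hκ]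
  have h1 : ∑ u ∈ P, vl u = m - csB n be kq z y Y := by rw [hm]; ring
  rw [h1]
  have h2 : be z y + be y z = M := hM.symm
  have h3 : m - csB n be kq z y Y + csB n be kq z y Y + (be z y + be y z) + k = m + M + k := by
    rw [h2]
    ring
  rw [h3, h2, hW]
  ring

/-- **the remainder of the row test in closed form** (Konig pairs out) -/
theorem csRT_eq {K : Finset ι} {lv : ι → ℕ} {sv d m b k κ W : ℤ}
    (hb : b = ∑ l ∈ (range n).erase z, (be z l - kq z l))
    (hm : m = ∑ u ∈ hsZ U ho pc z, vl u + b)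
    (hk : k = ∑ u ∈ K, (lv u : ℤ)) (hκ : κ = (K.card : ℤ)) (hW : W = m + k + κ) :
    csRT R n t U ho vl pc be kq z d K lv sv
      = 2 * ((R - (t z + 1)) * b) + W * (2 * d - W) + m + (k - κ) + sv
        + ∑ e ∈ (hsZ U ho pc z).offDiag, min (vl e.1) (vl e.2)
        - ∑ l ∈ (range n).erase z, (be z l - kq z l) * (be z l - kq z l + 1) := by
  unfold csRT
  rw [← hk, ← hκ, ← hb]
  have h1 : ∑ u ∈ hsZ U ho pc z, vl u = m - b := by rw [hm]; ring
  rw [h1, hW]
  ring

/-- all items of the host `y`: the PC pairs used are all of them -/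
lemma LevC.csQ_all (C : LevC n U ho vl kp mn pc φ g f)
    (H : PCon R n t s mu U ho vl kp mn pc ar be kq NN sg nu) (hz : z < n) (hy : y < n) :
    ((csQ pc (U.filter fun u => ho u = y ∧ g z u ≠ 0)).card : ℤ) = be y z := by
  rw [← H.pcb y hy z hz, ← sum_filter_add_sum_filter_not (U.filter fun u => ho u = y)
    (fun u => pc u = 0) (fun u => pc u * kp z u)]
  have e2 : ∑ u ∈ (U.filter fun u => ho u = y).filter (fun u => pc u = 0), pc u * kp z u = 0 :=
    sum_eq_zero fun u hu => by rw [(mem_filter.1 hu).2, zero_mul]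
  rw [e2, zero_add]
  have e3 : csQ pc (U.filter fun u => ho u = y ∧ g z u ≠ 0)
      = ((U.filter fun u => ho u = y).filter fun u => ¬ pc u = 0).filter fun u => g z u ≠ 0 := by
    unfold csQ
    ext u
    simp only [mem_filter]
    tauto
  rw [e3, card_filter]
  push_cast
  refine sum_congr rfl fun u hu => ?_
  obtain ⟨h3, h4⟩ := mem_filter.1 hu
  have h5 := (mem_filter.1 h3).1
  have h6 := C.lev_pc H h5 h4 hz
  have h7 := H.kv u h5 z hz
  have h8 := H.pcv u h5 h4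
  have h9 : pc u = 1 := (H.pc01 u h5).resolve_left h4
  rw [h8] at h7
  by_cases h10 : g z u = 0
  · rw [if_neg (fun h => h h10), ← h6, h10]
    norm_num
  · rw [if_pos h10, h9, one_mul, ← h6]
    have h11 : (g z u : ℤ) ≤ 1 := by rw [h6]; exact h7
    have h12 : g z u = 1 := by omega
    rw [h12]
    rfl

/-- the credit of the mean of two modes -/
noncomputable def crAV (R : ℤ) (t : ℕ → ℤ) (vl : ι → ℤ) (kp mn : ℕ → ι → ℤ) (z : ℕ)
    (P₁ P₂ : ℕ → Finset ι) (y : ℕ) (u : ι) : ℝ :=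
  ((crY R t vl kp mn z y (P₁ y) u : ℝ) + (crY R t vl kp mn z y (P₂ y) u : ℝ)) / 2

/-- **the mean of two modes as an input of `csShare`** -/
theorem LevC.csInAV (C : LevC n U ho vl kp mn pc φ g f)
    (H : PConC R n t s mu U ho vl kp mn pc ar be kq NN sg nu) (hz : z < n)
    (hy : y ∈ (range n).erase z) {P₁ P₂ : ℕ → Finset ι} (hP₁ : P₁ y ⊆ hsZ U ho pc z)
    (hP₂ : P₂ y ⊆ hsZ U ho pc z) {Y₁ Y₂ : Finset ℕ}
    (hY₁ : Y₁ ⊆ ((range n).erase z).erase y) (hY₂ : Y₂ ⊆ ((range n).erase z).erase y)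
    {V : Finset ι} (hV : V ⊆ U.filter fun u => ho u = y ∧ g z u ≠ 0) :
    2 * (((R : ℝ) - ((t z : ℝ) + 1)) * ((be z y : ℝ) + ∑ u ∈ V, (g z u : ℝ)))
        + 2 * ∑ u ∈ hsZ U ho pc z, crAV R t vl kp mn z P₁ P₂ y u
        + ((csRJ n t U ho vl kp pc be kq sg g z y (mu z - s z) (P₁ y) Y₁ V : ℝ)
          + (csRJ n t U ho vl kp pc be kq sg g z y (mu z - s z) (P₂ y) Y₂ V : ℝ)) / 2
      ≤ 2 * ((t y : ℝ) * ((mu z : ℝ) - s z)) + 2 * ((R : ℝ) - t y)
        + 2 * ∑ u ∈ V, ((msP kp mn z (g z) u : ℝ) + (rnA n kp be z y u : ℝ)) := by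
  have h1 := C.csInJ H hz hy hP₁ hY₁ hV
  have h2 := C.csInJ H hz hy hP₂ hY₂ hV
  have h3 : ∑ u ∈ hsZ U ho pc z, crAV R t vl kp mn z P₁ P₂ y u
      = (∑ u ∈ hsZ U ho pc z, (crY R t vl kp mn z y (P₁ y) u : ℝ)
        + ∑ u ∈ hsZ U ho pc z, (crY R t vl kp mn z y (P₂ y) u : ℝ)) / 2 := by
    rw [← sum_add_distrib, sum_div]
    rfl
  rw [h3]
  linarith

/-- an item kept in both modes -/
lemma crAV_own {P₁ P₂ : ℕ → Finset ι} {u : ι} (h1 : u ∈ P₁ y) (h2 : u ∈ P₂ y) :
    crAV R t vl kp mn z P₁ P₂ y u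
      = (kp y u : ℝ) * ((R : ℝ) - t y) - mn y u + ((t y : ℝ) - ((t z : ℝ) + 1)) * (vl u : ℝ) := by
  unfold crAV crY
  rw [if_pos h1, if_pos h2]
  push_cast
  ring

/-- an item without an end in `y` kept in the first mode only -/
lemma crAV_third {P₁ P₂ : ℕ → Finset ι} {u : ι} (h1 : u ∈ P₁ y) (h2 : u ∉ P₂ y)
    (h3 : kp y u = 0) (h4 : mn y u = 0) :
    crAV R t vl kp mn z P₁ P₂ y u
      = (((t y : ℝ) - ((t z : ℝ) + 1)) * (vl u : ℝ) - t y) / 2 := by
  unfold crAV crY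
  rw [if_pos h1, if_neg h2, h3, h4]
  push_cast
  ring

/-- an item dropped in both modes -/
lemma crAV_drop {P₁ P₂ : ℕ → Finset ι} {u : ι} (h1 : u ∉ P₁ y) (h2 : u ∉ P₂ y) :
    crAV R t vl kp mn z P₁ P₂ y u = - t y := by
  unfold crAV crY
  rw [if_neg h1, if_neg h2]
  push_cast
  ring

end CsAV

end Pool.Agent.Lib.MP_f04ccf_co
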