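import Mathlib

/-!
MP_f04ccf_co, TEXT D: **the types of the column sum certificate (80, 18410)**, pure reals, any finite family of cells.

`CsC R A F t`: row `A`, `c = R - A`, cells `l ∈ F` with `t l`, mass `t l + 1`.
Weights: `csL l = s l / c` on the column `l` (`s l = (t l + 1)/(A + t l + 1)`), `csT` on the row test.
`cr l` = the credit of one hosted unit in the column `l` (better of kept and dropped).

* `CsC.dust`: a unit with no credit: share 0, slack `(2c - R)/(3R)`;
* `CsC.full`: a full unit of the cell `j`: share `s j`;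
* `CsC.red1`, `CsC.red2`: the reduction to one or two cells.
-/

set_option autoImplicit false

namespace Pool.Agent.Lib.MP_f04ccf_co

open Finset

section CsB

/-- a cell: `s (c t + R min (t, A - t)) ≤ (R + c) x / 3` -/
lemma cs_phi {R A t x : ℝ} (hA : 0 < A) (hR : 2 * A ≤ R) (ht : 0 ≤ t) (hx : t ≤ x) :
    x / (A + x) * ((R - A) * t + R * min t (A - t)) ≤ (2 * R - A) / 3 * x := by
  have h1 : 0 < A + x := by linarith
  have h2 : x / (A + x) * ((R - A) * t + R * min t (A - t))
      = x * ((R - A) * t + R * min t (A - t)) / (A + x) := by ring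
  rw [h2, div_le_iff₀ h1]
  have hx0 : 0 ≤ x := ht.trans hx
  rcases le_total (2 * t) A with h3 | h3
  · have h4 : (R - A) * t + R * min t (A - t) ≤ (2 * R - A) * t := by
      have h5 : min t (A - t) ≤ t := min_le_left _ _
      have h6 : R * min t (A - t) ≤ R * t := mul_le_mul_of_nonneg_left h5 (by linarith)
      linarith
    have h7 : (2 * R - A) * t ≤ (2 * R - A) / 3 * (A + x) := by
      have h8 : 0 ≤ (2 * R - A) / 3 := by linarith
      have h9 := mul_le_mul_of_nonneg_left (show 3 * t ≤ A + x by linarith) h8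
      linarith
    have h8 := mul_le_mul_of_nonneg_left (h4.trans h7) hx0
    linarith
  · have h4 : (R - A) * t + R * min t (A - t) ≤ A * (R - t) := by
      have h5 : min t (A - t) ≤ A - t := min_le_right _ _
      have h6 : R * min t (A - t) ≤ R * (A - t) := mul_le_mul_of_nonneg_left h5 (by linarith)
      linarith
    have h7 : A * (R - t) ≤ (2 * R - A) / 3 * (A + x) := by
      have h8 : 0 ≤ 2 * R - A := by linarith
      have h9 := mul_le_mul_of_nonneg_left hx h8
      have h10 := mul_nonneg (show 0 ≤ R + A by linarith) (sub_nonneg.2 h3)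
      linarith
    have h8 := mul_le_mul_of_nonneg_left (h4.trans h7) hx0
    linarith

/-- the cells of a row -/
structure CsC (R A : ℝ) (F : Finset ℕ) (t : ℕ → ℝ) : Prop where
  hA : 1 ≤ A
  hR : 2 * A ≤ R
  t0 : ∀ l ∈ F, 0 ≤ t l
  t2 : ∀ l ∈ F, 2 * (t l + 1) ≤ R
  sum : A + ∑ l ∈ F, (t l + 1) ≤ R

/-- the share of a unit of the cell with mass `x` -/
noncomputable def csS (A x : ℝ) : ℝ := x / (A + x)

/-- the weight of a column -/
noncomputable def csL (R A t : ℝ) : ℝ := csS A (t + 1) / (R - A)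

/-- the weight of the row test -/
noncomputable def csT (R A : ℝ) (F : Finset ℕ) (t : ℕ → ℝ) : ℝ :=
  (1 - ∑ l ∈ F, csL R A (t l) * t l) / R

variable {R A : ℝ} {F : Finset ℕ} {t cr : ℕ → ℝ}

lemma CsC.c_pos (H : CsC R A F t) : 0 < R - A := by
  have h1 := H.hA
  have h2 := H.hR
  linarith

lemma csS_nonneg {A x : ℝ} (hA : 0 ≤ A) (hx : 0 ≤ x) : 0 ≤ csS A x := by
  unfold csS
  positivity

lemma csS_le_one {A x : ℝ} (hA : 0 ≤ A) (hx : 0 < x) : csS A x ≤ 1 := by
  unfold csS
  rw [div_le_one (by linarith)]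
  linarith

lemma CsC.lam_nonneg (H : CsC R A F t) {l : ℕ} (hl : l ∈ F) : 0 ≤ csL R A (t l) := by
  unfold csL
  have h1 := H.t0 l hl
  have h2 := H.hA
  exact div_nonneg (csS_nonneg (by linarith) (by linarith)) H.c_pos.le

/-- the sum of the costs of the cells of `G` -/
lemma CsC.phi_sum (H : CsC R A F t) {G : Finset ℕ} (hG : G ⊆ F) :
    ∑ l ∈ G, csS A (t l + 1) * ((R - A) * t l + R * min (t l) (A - t l))
      ≤ (2 * R - A) / 3 * ∑ l ∈ G, (t l + 1) := by
  rw [mul_sum]
  refine sum_le_sum fun l hl => ?_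
  have h1 := H.t0 l (hG hl)
  exact cs_phi (by linarith [H.hA]) H.hR h1 (by linarith)

/-- **the reduction**: outside of the cells `E` the unit pays `(R + c)/3` times the mass -/
lemma CsC.red (H : CsC R A F t) {E : Finset ℕ} (hE : E ⊆ F)
    (h1 : ∀ l ∈ F \ E, - t l ≤ cr l) (h2 : ∀ l ∈ F \ E, t l - A ≤ cr l) :
    (R - A) ^ 2 - (2 * R - A) / 3 * (R - A - ∑ l ∈ E, (t l + 1))
      - (R - A) * ∑ l ∈ E, csS A (t l + 1) * t l + R * ∑ l ∈ E, csS A (t l + 1) * cr l
      ≤ (R - A) * R * (∑ l ∈ F, csL R A (t l) * cr l + csT R A F t * (R - A)) := by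
  have hc := H.c_pos
  have hR0 : 0 < R := by linarith [H.hA, H.hR]
  have e1 : (R - A) * R * (∑ l ∈ F, csL R A (t l) * cr l + csT R A F t * (R - A))
      = (R - A) ^ 2 - (R - A) * ∑ l ∈ F, csS A (t l + 1) * t l
        + R * ∑ l ∈ F, csS A (t l + 1) * cr l := by
    have h3 : ∀ f : ℕ → ℝ, (R - A) * ∑ l ∈ F, csL R A (t l) * f l
        = ∑ l ∈ F, csS A (t l + 1) * f l := by
      intro f
      rw [mul_sum]
      refine sum_congr rfl fun l _ => ?_
      unfold csL
      field_simp
    unfold csT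
    have h4 := h3 cr
    have h5 := h3 t
    rw [← h4, ← h5]
    field_simp
    ring
  rw [e1]
  have h3 := H.phi_sum (G := F \ E) sdiff_subset
  have h4 : ∑ l ∈ F \ E, csS A (t l + 1) * (- (min (t l) (A - t l)))
      ≤ ∑ l ∈ F \ E, csS A (t l + 1) * cr l := by
    refine sum_le_sum fun l hl => ?_
    have h6 := H.t0 l (sdiff_subset hl)
    refine mul_le_mul_of_nonneg_left ?_ (csS_nonneg (by linarith [H.hA]) (by linarith))
    have h7 := h1 l hl
    have h8 := h2 l hl
    rcases le_total (t l) (A - t l) with h9 | h9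
    · rw [min_eq_left h9]
      exact h7
    · rw [min_eq_right h9]
      linarith
  have h5 : ∑ l ∈ F \ E, csS A (t l + 1) * ((R - A) * t l + R * min (t l) (A - t l))
      = (R - A) * ∑ l ∈ F \ E, csS A (t l + 1) * t l
        - R * ∑ l ∈ F \ E, csS A (t l + 1) * (- (min (t l) (A - t l))) := by
    rw [mul_sum, mul_sum, ← sum_sub_distrib]
    refine sum_congr rfl fun l _ => ?_
    ring
  have h6 := sum_sdiff (f := fun l => csS A (t l + 1) * t l) hE
  have h7 := sum_sdiff (f := fun l => csS A (t l + 1) * cr l) hE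
  have h8 := sum_sdiff (f := fun l => t l + 1) hE
  beta_reduce at h6 h7 h8
  rw [h5] at h3
  rw [← h6, ← h7]
  have h9 := mul_le_mul_of_nonneg_left h4 hR0.le
  have h10 : (2 * R - A) / 3 * ∑ l ∈ F \ E, (t l + 1)
      ≤ (2 * R - A) / 3 * (R - A - ∑ l ∈ E, (t l + 1)) := by
    refine mul_le_mul_of_nonneg_left ?_ (by linarith [H.hA, H.hR])
    have h11 := H.sum
    linarith
  linarith

/-- **dust, third units**: no share -/
theorem CsC.dust (H : CsC R A F t) (h1 : ∀ l ∈ F, - t l ≤ cr l)
    (h2 : ∀ l ∈ F, t l - A ≤ cr l) :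
    (2 * (R - A) - R) / (3 * R) ≤ ∑ l ∈ F, csL R A (t l) * cr l + csT R A F t * (R - A) := by
  have h3 := H.red (E := ∅) (empty_subset _) (cr := cr) (fun l hl => h1 l (sdiff_subset hl))
    (fun l hl => h2 l (sdiff_subset hl))
  simp only [sum_empty, mul_zero, add_zero, sub_zero] at h3
  have hc := H.c_pos
  have hR0 : 0 < R := by linarith [H.hA, H.hR]
  rw [div_le_iff₀ (by linarith)]
  have h4 : (R - A) * ((2 * (R - A) - R) / 3)
      ≤ (R - A) * (R * (∑ l ∈ F, csL R A (t l) * cr l + csT R A F t * (R - A))) := by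
    refine le_trans (le_of_eq ?_) (le_trans h3 (le_of_eq ?_))
    · ring
    · ring
  have h5 := le_of_mul_le_mul_left h4 hc
  linarith

/-- the mass of one cell -/
lemma CsC.one (H : CsC R A F t) {j : ℕ} (hj : j ∈ F) : t j + 1 ≤ R - A := by
  have h1 : t j + 1 ≤ ∑ l ∈ F, (t l + 1) :=
    single_le_sum (f := fun l => t l + 1) (fun l hl => by linarith [H.t0 l hl]) hj
  linarith [H.sum]

/-- the mass of two cells -/
lemma CsC.two (H : CsC R A F t) {j w : ℕ} (hj : j ∈ F) (hw : w ∈ F) (hjw : j ≠ w) :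
    (t j + 1) + (t w + 1) ≤ R - A := by
  have h1 : ∑ l ∈ ({j, w} : Finset ℕ), (t l + 1) ≤ ∑ l ∈ F, (t l + 1) := by
    refine sum_le_sum_of_subset_of_nonneg ?_ fun l hl _ => by linarith [H.t0 l hl]
    intro l hl
    rcases mem_insert.1 hl with h2 | h2
    · rw [h2]
      exact hj
    · rw [mem_singleton.1 h2]
      exact hw
  rw [sum_pair hjw] at h1
  linarith [H.sum]

/-- the reduction at one cell -/
theorem CsC.red1 (H : CsC R A F t) {j : ℕ} (hj : j ∈ F)
    (h1 : ∀ l ∈ F, l ≠ j → - t l ≤ cr l) (h2 : ∀ l ∈ F, l ≠ j → t l - A ≤ cr l) :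
    (R - A) ^ 2 - (2 * R - A) / 3 * (R - A - (t j + 1))
      - (R - A) * (csS A (t j + 1) * t j) + R * (csS A (t j + 1) * cr j)
      ≤ (R - A) * R * (∑ l ∈ F, csL R A (t l) * cr l + csT R A F t * (R - A)) := by
  have h3 := H.red (E := {j}) (singleton_subset_iff.2 hj) (cr := cr)
    (fun l hl => h1 l (mem_sdiff.1 hl).1 fun h => (mem_sdiff.1 hl).2 (mem_singleton.2 h))
    (fun l hl => h2 l (mem_sdiff.1 hl).1 fun h => (mem_sdiff.1 hl).2 (mem_singleton.2 h))
  simpa only [sum_singleton] using h3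

/-- the reduction at two cells -/
theorem CsC.red2 (H : CsC R A F t) {j w : ℕ} (hj : j ∈ F) (hw : w ∈ F) (hjw : j ≠ w)
    (h1 : ∀ l ∈ F, l ≠ j → l ≠ w → - t l ≤ cr l)
    (h2 : ∀ l ∈ F, l ≠ j → l ≠ w → t l - A ≤ cr l) :
    (R - A) ^ 2 - (2 * R - A) / 3 * (R - A - ((t j + 1) + (t w + 1)))
      - (R - A) * (csS A (t j + 1) * t j + csS A (t w + 1) * t w)
      + R * (csS A (t j + 1) * cr j + csS A (t w + 1) * cr w)
      ≤ (R - A) * R * (∑ l ∈ F, csL R A (t l) * cr l + csT R A F t * (R - A)) := by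
  have hE : ({j, w} : Finset ℕ) ⊆ F := by
    intro l hl
    rcases mem_insert.1 hl with h2 | h2
    · rw [h2]
      exact hj
    · rw [mem_singleton.1 h2]
      exact hw
  have hn : ∀ l ∈ F \ ({j, w} : Finset ℕ), l ∈ F ∧ l ≠ j ∧ l ≠ w := by
    intro l hl
    obtain ⟨h3, h4⟩ := mem_sdiff.1 hl
    refine ⟨h3, fun h => h4 ?_, fun h => h4 ?_⟩
    · rw [h]
      exact mem_insert_self _ _
    · rw [h]
      exact mem_insert_of_mem (mem_singleton_self _)
  have h3 := H.red (E := {j, w}) hE (cr := cr)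
    (fun l hl => h1 l (hn l hl).1 (hn l hl).2.1 (hn l hl).2.2)
    (fun l hl => h2 l (hn l hl).1 (hn l hl).2.1 (hn l hl).2.2)
  simpa only [sum_pair hjw] using h3

/-- the product of `csS` -/
lemma csS_mul {A x : ℝ} (h : A + x ≠ 0) : csS A x * (A + x) = x := by
  unfold csS
  exact div_mul_cancel₀ _ h

/-- **full hosted units**: slack `(2c - R)/(6R)` in every row, `(2c - R)/(3R)` for
`(2c - R) (t j + 1) ≤ (R + c) A` -/
theorem CsC.full (H : CsC R A F t) {j : ℕ} (hj : j ∈ F)
    (h1 : ∀ l ∈ F, l ≠ j → - t l ≤ cr l) (h2 : ∀ l ∈ F, l ≠ j → t l - A ≤ cr l)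
    (h3 : R - A ≤ cr j) {ρ : ℝ}
    (hρ : ρ ≤ (2 * (R - A) - R) / (6 * R) ∨ (ρ ≤ (2 * (R - A) - R) / (3 * R)
      ∧ (2 * (R - A) - R) * (t j + 1) ≤ (R + (R - A)) * A)) :
    csS A (t j + 1) + ρ ≤ ∑ l ∈ F, csL R A (t l) * cr l + csT R A F t * (R - A) := by
  have h0 := H.red1 hj h1 h2
  have hc := H.c_pos
  have hA := H.hA
  have hR0 : 0 < R := by linarith [H.hR]
  have ht := H.t0 j hj
  have ht2 := H.t2 j hj
  set x : ℝ := t j + 1 with hx
  have hx0 : 0 < x := by linarith
  have hAx : 0 < A + x := by linarith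
  set s : ℝ := csS A x with hs
  have hs0 : 0 ≤ s := csS_nonneg (by linarith) hx0.le
  have hsx : s * (A + x) = x := csS_mul hAx.ne'
  have h4 : s * (R - A) ≤ s * cr j := mul_le_mul_of_nonneg_left h3 hs0
  have h5 : s * t j ≤ s * x := mul_le_mul_of_nonneg_left (by linarith) hs0
  -- the polynomial inequality
  have key : (R - A) * R * ρ ≤ (R - A) ^ 2 - (2 * R - A) / 3 * (R - A - x) - (R - A) * (s * x) := by
    have h6 : (R - A) * R * ρ * (A + x) ≤ ((R - A) ^ 2 - (2 * R - A) / 3 * (R - A - x)) * (A + x)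
        - (R - A) * (x * x) := by
      rcases hρ with hρ | ⟨hρ, h7⟩
      · have h8 : (R - A) * R * ρ ≤ (R - A) * (2 * (R - A) - R) / 6 := by
          have h9 : R * ρ ≤ (2 * (R - A) - R) / 6 := by
            rw [le_div_iff₀ (by linarith)] at hρ
            linarith
          have h10 := mul_le_mul_of_nonneg_left h9 hc.le
          linarith
        have h9 := mul_le_mul_of_nonneg_right h8 hAx.le
        refine h9.trans ?_
        have e1 : R * (6 * (((R - A) ^ 2 - (2 * R - A) / 3 * (R - A - x)) * (A + x)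
            - (R - A) * (x * x) - (R - A) * (2 * (R - A) - R) / 6 * (A + x)))
            = (R - 2 * x) * ((R - A) * (R - 2 * A) * A)
              + 2 * x * (A * (3 / 2 * R ^ 2 - (R - A) * R + 2 * (R - A) ^ 2))
              + (R - 2 * A) * x * (R - 2 * x) * R := by
          ring
        have h10 : 0 ≤ (R - 2 * x) * ((R - A) * (R - 2 * A) * A) :=
          mul_nonneg (by linarith) (mul_nonneg (mul_nonneg hc.le (by linarith [H.hR])) (by linarith))
        have h11 : 0 ≤ 2 * x * (A * (3 / 2 * R ^ 2 - (R - A) * R + 2 * (R - A) ^ 2)) := by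
          refine mul_nonneg (by linarith) (mul_nonneg (by linarith) ?_)
          have h12 : 3 / 2 * R ^ 2 - (R - A) * R + 2 * (R - A) ^ 2
              = R ^ 2 / 2 + R * A + 2 * (R - A) ^ 2 := by ring
          rw [h12]
          have h13 : 0 ≤ R * A := mul_nonneg hR0.le (by linarith)
          have h14 := sq_nonneg R
          have h15 := sq_nonneg (R - A)
          linarith
        have h12 : 0 ≤ (R - 2 * A) * x * (R - 2 * x) * R :=
          mul_nonneg (mul_nonneg (mul_nonneg (by linarith [H.hR]) hx0.le) (by linarith)) hR0.le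
        have h13 : 0 ≤ R * (6 * (((R - A) ^ 2 - (2 * R - A) / 3 * (R - A - x)) * (A + x)
            - (R - A) * (x * x) - (R - A) * (2 * (R - A) - R) / 6 * (A + x))) := by
          rw [e1]
          linarith
        have h14 := nonneg_of_mul_nonneg_right h13 hR0
        linarith
      · have h8 : (R - A) * R * ρ ≤ (R - A) * (2 * (R - A) - R) / 3 := by
          have h9 : R * ρ ≤ (2 * (R - A) - R) / 3 := by
            rw [le_div_iff₀ (by linarith)] at hρ
            linarith
          have h10 := mul_le_mul_of_nonneg_left h9 hc.le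
          linarith
        have h9 := mul_le_mul_of_nonneg_right h8 hAx.le
        refine h9.trans ?_
        have h10 : 0 ≤ x * ((R + (R - A)) * A - (2 * (R - A) - R) * x) :=
          mul_nonneg hx0.le (by linarith)
        linarith
    have h7 : (R - A) * (x * x) = (R - A) * (s * x) * (A + x) := by
      calc (R - A) * (x * x) = (R - A) * x * (s * (A + x)) := by rw [hsx]; ring
        _ = (R - A) * (s * x) * (A + x) := by ring
    rw [h7] at h6
    have h8 : (R - A) * R * ρ * (A + x)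
        ≤ ((R - A) ^ 2 - (2 * R - A) / 3 * (R - A - x) - (R - A) * (s * x)) * (A + x) := by
      refine h6.trans (le_of_eq ?_)
      ring
    exact le_of_mul_le_mul_right h8 hAx
  have h6 : (R - A) * R * (s + ρ)
      ≤ (R - A) * R * (∑ l ∈ F, csL R A (t l) * cr l + csT R A F t * (R - A)) := by
    refine le_trans ?_ h0
    have h7 := mul_le_mul_of_nonneg_left h4 hR0.le
    have h8 := mul_le_mul_of_nonneg_left h5 hc.le
    have e1 : (R - A) * R * (s + ρ) = R * (s * (R - A)) + (R - A) * R * ρ := by ring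
    linarith
  exact le_of_mul_le_mul_left h6 (mul_pos hc hR0)

end CsB

end Pool.Agent.Lib.MP_f04ccf_co
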