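import Pool.Agent.Lib.MP_f04ccf_co.M.BernL

/-!
MP_f04ccf_co, TEXT D: kernel boxes of the hosted half units of the column sum certificate (M/CsB.lean).
-/

set_option autoImplicit false
set_option maxRecDepth 100000
set_option linter.unusedSimpArgs false

namespace Pool.Agent.Lib.MP_f04ccf_co.CsBxA1
open BernK BernK.Ex BernL BernL.Tr

def c : Ex := (sub (con 1) (var 0))
def x : Ex := (add (var 1) (var 5))
def w : Ex := (add (var 2) (var 5))
def p : Ex := (add (var 0) x)
def q : Ex := (add (var 0) w)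
def pq : Ex := (mul p q)
def base : Ex := (sub (mul (mul (mul (con 6) c) c) pq) (mul (mul (mul (con 2) (add (con 1) c)) (sub (sub c x) w)) pq))
def los : Ex := (add (mul (mul (con 6) c) (add (mul (mul x (var 1)) q) (mul (mul w (var 2)) p))) (mul (mul (mul (con 6) x) (var 3)) q))
def rho : Ex := (add (mul (mul (con 42) (con 1)) pq) (mul (mul (mul (con 0) c) (sub (mul (con 2) c) (con 1))) pq))
def gA : Ex := (sub (add (mul (con 100) (add los (mul (mul (mul (con 6) w) (var 4)) p))) rho) (mul (con 100) (add base (mul (mul (mul (con 6) w) c) p))))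
def gB : Ex := (sub (add (mul (con 100) (add los (mul (mul (mul (con 6) w) (var 2)) p))) rho) (mul (con 100) base))
def g1 : Ex := (sub (add (mul (var 1) (var 2)) (var 5)) (mul (var 3) (var 4)))
def g2 : Ex := (sub (var 4) (var 3))
def g3 : Ex := (sub (sub (con 1) (var 2)) (var 4))
def g4 : Ex := (sub (sub (con 1) (var 3)) (var 4))
def g5 : Ex := (sub (sub c x) w)
def mo : Ex := (mul (mul (mul (mul (mul (mul (mul (mul (mul (mul (mul (mul (var 0) (var 0)) (var 0)) (var 0)) (var 1)) (var 1)) (var 2)) (var 2)) (var 3)) (var 4)) (var 5)) (var 5)) (var 5))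

def tr : BernL.Tr := (split 3 (split 4 (split 1 (split 3 (split 1 (neg 0) (lin [1, 0, 8, 2])) (lin [1, 0, 128, 32])) (split 3 (split 3 (lin [1, 0, 16, 2]) (lin [3, 0, 512, 64])) (split 2 (lin [1, 0, 128, 32]) (split 2 (lin [1, 0, 128, 9]) (split 1 (neg 0) (split 2 (lin [1, 0, 256, 7]) (split 1 (lin [1, 0, 256]) (lin [1, 0, 256, 0, 0, 0, 176])))))))) (split 2 (split 1 (split 1 (lin [1, 1, 64]) (lin [1, 0, 64])) (split 2 (split 0 (lin [15, 0, 1024, 0, 44]) (lin [3, 0, 256, 0, 13])) (split 4 (lin [1, 0, 128]) (lin [71, 0, 8192, 0, 3319])))) (split 1 (lin [41, 0, 4096, 0, 808]) (split 1 (lin [7, 0, 1024, 0, 439]) (split 2 (split 3 (lin [15, 0, 2048, 0, 1263]) (lin [1, 0, 256, 0, 65, 0, 4])) (split 3 (lin [1, 0, 0, 0, 128]) (split 0 (split 3 (split 5 (lin [45, 0, 8192, 0, 4715]) (lin [11, 0, 2048, 0, 1172])) (split 2 (lin [7, 0, 2048, 0, 306, 0, 402]) (split 5 (split 0 (split 5 (split 4 (split 4 (split 1 (lin [1, 0, 256, 0, 77]) (split 4 (lin [59, 0,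 16384, 0, 1521, 0, 9490]) (lin [1, 0, 256, 0, 194]))) (neg 4)) (neg 2)) (split 4 (lin [55, 0, 16384, 0, 2549, 0, 8315]) (neg 2))) (lin [3, 0, 1024, 0, 128, 0, 450])) (lin [27, 0, 8192, 0, 1409, 0, 4119])))) (split 5 (split 4 (lin [1, 0, 256, 0, 64, 0, 108]) (neg 4)) (lin [29, 0, 8192, 0, 2555, 0, 2654]))))))))) (lin [0, 0, 4, 2, 0, 0, 1]))

def bx : List (ℕ × ℕ × ℕ) := [(5, 12, 100), (0, 1, 2), (0, 1, 2), (0, 1, 1), (0, 1, 1), (0, 1, 60)]

def gs : List (Ex × ℕ) := [(gA, 229646596505600000), ((add gB (mul (con 0) mo)), 161436676505600000), ((add g1 (mul (con 0) mo)), 345600000000000), ((add g2 (mul (con 0) mo)), 345600000000000), ((add g3 (mul (con 0) mo)), 518400000000000), ((add g4 (mul (con 0) mo)), 691200000000000), ((add g5 (mul (con 0) mo)), 398592000000000)]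

theorem run_ok : BernL.run 113 6 bx gs tr = true := by
  decide +kernel



/-- the box of a hosted half unit -/
theorem box {a t u b v e r : ℝ} (ha : 5 ≤ 100 * a) (ha' : 100 * a ≤ 12) (ht : 0 ≤ t) (ht' : 2 * t ≤ 1)
    (hu : 0 ≤ u) (hu' : 2 * u ≤ 1) (hb : 0 ≤ b) (hb' : b ≤ 1) (hv : 0 ≤ v) (hv' : v ≤ 1) (he : 0 ≤ e)
    (he' : 60 * e ≤ 1) (h1 : b * v ≤ t * u + e) (h2 : b ≤ v) (h3 : u + v ≤ 1) (h4 : b + v ≤ 1)
    (h5 : (t + e) + (u + e) ≤ 1 - a) (r1 : 1 - a - v ≤ r) (r2 : -u ≤ r) :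
    6 * (7 / 100 + 0 / 1 * ((1 - a) * (2 * (1 - a) - 1) / 3)) * ((a + (t + e)) * (a + (u + e)))
      < 6 * (1 - a) ^ 2 * ((a + (t + e)) * (a + (u + e)))
        - 2 * (2 - a) * (1 - a - (t + e) - (u + e)) * ((a + (t + e)) * (a + (u + e)))
        - (6 * (1 - a) * ((t + e) * t * (a + (u + e)) + (u + e) * u * (a + (t + e))) + 6 * (t + e) * b * (a + (u + e)))
        + 6 * (u + e) * r * (a + (t + e)) := by
  by_contra hcon
  push Not at hcon
  have ha0 : 0 ≤ a := by linarith
  have hw : 0 ≤ (u + e) * (a + (t + e)) := mul_nonneg (by linarith) (by linarith)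
  have k1 := mul_le_mul_of_nonneg_left r1 hw
  have k2 := mul_le_mul_of_nonneg_left r2 hw
  refine BernL.no_point run_ok (fun k => ([a, t, u, b, v, e] : List ℝ).getD k 0) ?_ ?_
  · intro k hk
    simp only [bx]
    interval_cases k <;> norm_num <;> constructor <;> linarith
  · intro g hg
    simp only [gs, List.mem_cons, List.not_mem_nil, or_false] at hg
    rcases hg with rfl | rfl | rfl | rfl | rfl | rfl | rfl
    · simp only [gA, rho, base, los, pq, p, q, c, x, w, Ex.ev, List.getD_cons_zero, List.getD_cons_succ, Nat.cast_ofNat, Nat.cast_one,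
        Nat.cast_zero]
      linarith
    · simp only [gB, mo, rho, base, los, pq, p, q, c, x, w, Ex.ev, List.getD_cons_zero, List.getD_cons_succ, Nat.cast_ofNat, Nat.cast_one,
        Nat.cast_zero]
      linarith
    · simp only [g1, mo, rho, base, los, pq, p, q, c, x, w, Ex.ev, List.getD_cons_zero, List.getD_cons_succ, Nat.cast_ofNat, Nat.cast_one,
        Nat.cast_zero]
      linarith
    · simp only [g2, mo, rho, base, los, pq, p, q, c, x, w, Ex.ev, List.getD_cons_zero, List.getD_cons_succ, Nat.cast_ofNat, Nat.cast_one,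
        Nat.cast_zero]
      linarith
    · simp only [g3, mo, rho, base, los, pq, p, q, c, x, w, Ex.ev, List.getD_cons_zero, List.getD_cons_succ, Nat.cast_ofNat, Nat.cast_one,
        Nat.cast_zero]
      linarith
    · simp only [g4, mo, rho, base, los, pq, p, q, c, x, w, Ex.ev, List.getD_cons_zero, List.getD_cons_succ, Nat.cast_ofNat, Nat.cast_one,
        Nat.cast_zero]
      linarith
    · simp only [g5, mo, rho, base, los, pq, p, q, c, x, w, Ex.ev, List.getD_cons_zero, List.getD_cons_succ, Nat.cast_ofNat, Nat.cast_one,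
        Nat.cast_zero]
      linarith

end Pool.Agent.Lib.MP_f04ccf_co.CsBxA1

namespace Pool.Agent.Lib.MP_f04ccf_co.CsBxA2
open BernK BernK.Ex BernL BernL.Tr

def c : Ex := (sub (con 1) (var 0))
def x : Ex := (add (var 1) (var 5))
def w : Ex := (add (var 2) (var 5))
def p : Ex := (add (var 0) x)
def q : Ex := (add (var 0) w)
def pq : Ex := (mul p q)
def base : Ex := (sub (mul (mul (mul (con 6) c) c) pq) (mul (mul (mul (con 2) (add (con 1) c)) (sub (sub c x) w)) pq))
def los : Ex := (add (mul (mul (con 6) c) (add (mul (mul x (var 1)) q) (mul (mul w (var 2)) p))) (mul (mul (mul (con 6) x) (var 3)) q))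
def rho : Ex := (add (mul (mul (con 6) (con 1)) pq) (mul (mul (mul (con 0) c) (sub (mul (con 2) c) (con 1))) pq))
def gA : Ex := (sub (add (mul (con 10) (add los (mul (mul (mul (con 6) w) (var 4)) p))) rho) (mul (con 10) (add base (mul (mul (mul (con 6) w) c) p))))
def gB : Ex := (sub (add (mul (con 10) (add los (mul (mul (mul (con 6) w) (var 2)) p))) rho) (mul (con 10) base))
def g1 : Ex := (sub (add (mul (var 1) (var 2)) (var 5)) (mul (var 3) (var 4)))
def g2 : Ex := (sub (var 4) (var 3))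
def g3 : Ex := (sub (sub (con 1) (var 2)) (var 4))
def g4 : Ex := (sub (sub (con 1) (var 3)) (var 4))
def g5 : Ex := (sub (sub c x) w)
def mo : Ex := (mul (mul (mul (mul (mul (mul (mul (mul (mul (mul (mul (mul (var 0) (var 0)) (var 0)) (var 0)) (var 1)) (var 1)) (var 2)) (var 2)) (var 3)) (var 4)) (var 5)) (var 5)) (var 5))

def tr : BernL.Tr := (split 3 (split 4 (split 1 (split 3 (split 3 (neg 0) (lin [1, 0, 32, 4])) (lin [1, 0, 16, 4])) (split 3 (split 4 (split 3 (split 0 (lin [1, 0, 8, 1]) (lin [1, 0, 16, 2])) (lin [25, 0, 1024, 128])) (lin [3, 0, 64])) (split 2 (lin [5, 0, 128, 34]) (split 2 (lin [1, 0, 32, 3, 0, 0, 7]) (lin [7, 0, 128, 0, 0, 0, 83]))))) (split 2 (split 1 (split 2 (lin [5, 11, 128, 0, 1]) (split 0 (lin [1, 0, 8, 0, 1]) (lin [15, 0, 128, 0, 31]))) (split 4 (split 0 (lin [7, 0, 128]) (lin [49, 0, 1024])) (split 2 (split 0 (split 2 (lin [1, 0, 8]) (lin [11, 0, 128, 0, 35])) (split 3 (lin [32, 11, 512, 0, 83]) (neg 2))) (split 0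 (split 2 (split 5 (lin [75, 0, 1024, 0, 411]) (split 0 (lin [5, 0, 64, 0, 28]) (lin [35, 0, 512, 0, 220]))) (split 5 (lin [63, 0, 1024, 0, 505]) (split 0 (lin [1, 0, 16, 0, 9]) (lin [15, 0, 256, 0, 131])))) (split 3 (split 2 (split 3 (lin [9, 0, 128, 0, 60]) (lin [2, 0, 32, 0, 13])) (split 3 (lin [15, 0, 0, 0, 128]) (lin [13, 0, 256, 0, 119]))) (neg 2)))))) (split 1 (split 0 (lin [11, 0, 128, 0, 43]) (lin [10, 0, 128, 0, 55])) (split 4 (split 3 (split 0 (split 2 (lin [23, 0, 256, 0, 170, 0, 15]) (lin [1, 0, 0, 0, 8])) (split 1 (lin [1, 0, 8, 0, 4]) (split 0 (split 2 (lin [2, 0, 32, 0, 13, 0, 8]) (lin [1, 0, 0, 0, 16])) (split 2 (lin [29, 0, 512, 0, 197, 0, 135]) (lin [1, 0, 0, 0, 16, 0, 1]))))) (split 2 (split 0 (split 5 (split 0 (lin [33, 0, 1024, 0, 218, 0, 77]) (lin [5, 0, 128, 0, 25, 0, 31])) (split 0 (lin [155, 0, 4096, 0, 883, 0, 758]) (lin [5, 0, 128, 0, 27, 0, 30]))) (lin [9, 0, 256, 0, 47, 0, 66])) (split 1 (lin [1, 0, 32, 0, 16]) (split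 1 (lin [1, 0, 32, 0, 8, 0, 8]) (lin [9, 0, 256, 0, 56, 0, 117]))))) (split 0 (lin [25, 0, 484, 0, 512]) (lin [3, 0, 63, 0, 64])))))) (lin [0, 0, 4, 2, 0, 0, 1]))

def bx : List (ℕ × ℕ × ℕ) := [(12, 25, 100), (0, 1, 2), (0, 1, 2), (0, 1, 1), (0, 1, 1), (0, 1, 60)]

def gs : List (Ex × ℕ) := [(gA, 34660448000000000), ((add gB (mul (con 0) mo)), 26446688000000000), ((add g1 (mul (con 0) mo)), 345600000000000), ((add g2 (mul (con 0) mo)), 345600000000000), ((add g3 (mul (con 0) mo)), 518400000000000), ((add g4 (mul (con 0) mo)), 691200000000000), ((add g5 (mul (con 0) mo)), 443520000000000)]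

theorem run_ok : BernL.run 99 6 bx gs tr = true := by
  decide +kernel



/-- the box of a hosted half unit -/
theorem box {a t u b v e r : ℝ} (ha : 12 ≤ 100 * a) (ha' : 100 * a ≤ 25) (ht : 0 ≤ t) (ht' : 2 * t ≤ 1)
    (hu : 0 ≤ u) (hu' : 2 * u ≤ 1) (hb : 0 ≤ b) (hb' : b ≤ 1) (hv : 0 ≤ v) (hv' : v ≤ 1) (he : 0 ≤ e)
    (he' : 60 * e ≤ 1) (h1 : b * v ≤ t * u + e) (h2 : b ≤ v) (h3 : u + v ≤ 1) (h4 : b + v ≤ 1)
    (h5 : (t + e) + (u + e) ≤ 1 - a) (r1 : 1 - a - v ≤ r) (r2 : -u ≤ r) :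
    6 * (1 / 10 + 0 / 1 * ((1 - a) * (2 * (1 - a) - 1) / 3)) * ((a + (t + e)) * (a + (u + e)))
      < 6 * (1 - a) ^ 2 * ((a + (t + e)) * (a + (u + e)))
        - 2 * (2 - a) * (1 - a - (t + e) - (u + e)) * ((a + (t + e)) * (a + (u + e)))
        - (6 * (1 - a) * ((t + e) * t * (a + (u + e)) + (u + e) * u * (a + (t + e))) + 6 * (t + e) * b * (a + (u + e)))
        + 6 * (u + e) * r * (a + (t + e)) := by
  by_contra hcon
  push Not at hcon
  have ha0 : 0 ≤ a := by linarith
  have hw : 0 ≤ (u + e) * (a + (t + e)) := mul_nonneg (by linarith) (by linarith)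
  have k1 := mul_le_mul_of_nonneg_left r1 hw
  have k2 := mul_le_mul_of_nonneg_left r2 hw
  refine BernL.no_point run_ok (fun k => ([a, t, u, b, v, e] : List ℝ).getD k 0) ?_ ?_
  · intro k hk
    simp only [bx]
    interval_cases k <;> norm_num <;> constructor <;> linarith
  · intro g hg
    simp only [gs, List.mem_cons, List.not_mem_nil, or_false] at hg
    rcases hg with rfl | rfl | rfl | rfl | rfl | rfl | rfl
    · simp only [gA, rho, base, los, pq, p, q, c, x, w, Ex.ev, List.getD_cons_zero, List.getD_cons_succ, Nat.cast_ofNat, Nat.cast_one,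
        Nat.cast_zero]
      linarith
    · simp only [gB, mo, rho, base, los, pq, p, q, c, x, w, Ex.ev, List.getD_cons_zero, List.getD_cons_succ, Nat.cast_ofNat, Nat.cast_one,
        Nat.cast_zero]
      linarith
    · simp only [g1, mo, rho, base, los, pq, p, q, c, x, w, Ex.ev, List.getD_cons_zero, List.getD_cons_succ, Nat.cast_ofNat, Nat.cast_one,
        Nat.cast_zero]
      linarith
    · simp only [g2, mo, rho, base, los, pq, p, q, c, x, w, Ex.ev, List.getD_cons_zero, List.getD_cons_succ, Nat.cast_ofNat, Nat.cast_one,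
        Nat.cast_zero]
      linarith
    · simp only [g3, mo, rho, base, los, pq, p, q, c, x, w, Ex.ev, List.getD_cons_zero, List.getD_cons_succ, Nat.cast_ofNat, Nat.cast_one,
        Nat.cast_zero]
      linarith
    · simp only [g4, mo, rho, base, los, pq, p, q, c, x, w, Ex.ev, List.getD_cons_zero, List.getD_cons_succ, Nat.cast_ofNat, Nat.cast_one,
        Nat.cast_zero]
      linarith
    · simp only [g5, mo, rho, base, los, pq, p, q, c, x, w, Ex.ev, List.getD_cons_zero, List.getD_cons_succ, Nat.cast_ofNat, Nat.cast_one,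
        Nat.cast_zero]
      linarith

end Pool.Agent.Lib.MP_f04ccf_co.CsBxA2

namespace Pool.Agent.Lib.MP_f04ccf_co.CsBxA3
open BernK BernK.Ex BernL BernL.Tr

def c : Ex := (sub (con 1) (var 0))
def x : Ex := (add (var 1) (var 5))
def w : Ex := (add (var 2) (var 5))
def p : Ex := (add (var 0) x)
def q : Ex := (add (var 0) w)
def pq : Ex := (mul p q)
def base : Ex := (sub (mul (mul (mul (con 6) c) c) pq) (mul (mul (mul (con 2) (add (con 1) c)) (sub (sub c x) w)) pq))
def los : Ex := (add (mul (mul (con 6) c) (add (mul (mul x (var 1)) q) (mul (mul w (var 2)) p))) (mul (mul (mul (con 6) x) (var 3)) q))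
def rho : Ex := (add (mul (mul (con 54) (con 1)) pq) (mul (mul (mul (con 0) c) (sub (mul (con 2) c) (con 1))) pq))
def gA : Ex := (sub (add (mul (con 100) (add los (mul (mul (mul (con 6) w) (var 4)) p))) rho) (mul (con 100) (add base (mul (mul (mul (con 6) w) c) p))))
def gB : Ex := (sub (add (mul (con 100) (add los (mul (mul (mul (con 6) w) (var 2)) p))) rho) (mul (con 100) base))
def g1 : Ex := (sub (add (mul (var 1) (var 2)) (var 5)) (mul (var 3) (var 4)))
def g2 : Ex := (sub (var 4) (var 3))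
def g3 : Ex := (sub (sub (con 1) (var 2)) (var 4))
def g4 : Ex := (sub (sub (con 1) (var 3)) (var 4))
def g5 : Ex := (sub (sub c x) w)
def mo : Ex := (mul (mul (mul (mul (mul (mul (mul (mul (mul (mul (mul (mul (var 0) (var 0)) (var 0)) (var 0)) (var 1)) (var 1)) (var 2)) (var 2)) (var 3)) (var 4)) (var 5)) (var 5)) (var 5))

def tr : BernL.Tr := (split 3 (split 4 (split 3 (split 3 (split 1 (neg 0) (lin [4, 1, 512, 64])) (split 4 (lin [1, 0, 512, 64]) (lin [1, 0, 256]))) (split 2 (split 2 (lin [1, 0, 512, 78]) (lin [1, 0, 256, 50, 0, 0, 32])) (lin [3, 0, 1024, 147, 0, 0, 248]))) (split 2 (split 1 (split 2 (split 1 (lin [0, 1, 64]) (lin [5, 2, 512])) (split 0 (lin [47, 0, 4096, 0, 1045]) (split 4 (lin [1, 0, 128]) (split 4 (split 1 (lin [73, 21, 4096, 0, 1653]) (lin [1, 0, 128])) (lin [0, 5, 512, 0, 294]))))) (split 4 (lin [569, 0, 131072, 0, 0, 0, 5704]) (split 2 (lin [0, 3, 512]) (split 1 (lin [7, 0, 1024, 0, 464]) (split 3 (split 0 (split 2 (lin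 [49, 0, 8192, 0, 3679]) (lin [11, 0, 2048, 0, 1061, 0, 124])) (split 1 (lin [13, 0, 2048, 0, 1022]) (split 2 (split 3 (lin [11, 2, 2048, 0, 840]) (lin [1, 0, 256, 0, 70])) (split 3 (lin [11, 0, 0, 0, 1024]) (lin [5, 0, 1024, 0, 444, 0, 192]))))) (neg 2)))))) (split 1 (split 5 (lin [523, 0, 65536, 0, 32259]) (lin [63, 0, 8192, 0, 3997])) (split 2 (split 4 (split 3 (lin [23, 0, 4096, 0, 1729, 0, 891]) (lin [1, 0, 512, 0, 0, 0, 138])) (lin [9, 0, 2048, 0, 1686, 0, 205])) (lin [11, 0, 2048, 0, 1154, 0, 1681]))))) (lin [0, 0, 4, 2, 0, 0, 1]))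

def bx : List (ℕ × ℕ × ℕ) := [(25, 30, 100), (0, 1, 2), (0, 1, 2), (0, 1, 1), (0, 1, 1), (0, 1, 60)]

def gs : List (Ex × ℕ) := [(gA, 401248064000000000), ((add gB (mul (con 0) mo)), 313753664000000000), ((add g1 (mul (con 0) mo)), 345600000000000), ((add g2 (mul (con 0) mo)), 345600000000000), ((add g3 (mul (con 0) mo)), 518400000000000), ((add g4 (mul (con 0) mo)), 691200000000000), ((add g5 (mul (con 0) mo)), 460800000000000)]

theorem run_ok : BernL.run 99 6 bx gs tr = true := by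
  decide +kernel



/-- the box of a hosted half unit -/
theorem box {a t u b v e r : ℝ} (ha : 25 ≤ 100 * a) (ha' : 100 * a ≤ 30) (ht : 0 ≤ t) (ht' : 2 * t ≤ 1)
    (hu : 0 ≤ u) (hu' : 2 * u ≤ 1) (hb : 0 ≤ b) (hb' : b ≤ 1) (hv : 0 ≤ v) (hv' : v ≤ 1) (he : 0 ≤ e)
    (he' : 60 * e ≤ 1) (h1 : b * v ≤ t * u + e) (h2 : b ≤ v) (h3 : u + v ≤ 1) (h4 : b + v ≤ 1)
    (h5 : (t + e) + (u + e) ≤ 1 - a) (r1 : 1 - a - v ≤ r) (r2 : -u ≤ r) :
    6 * (9 / 100 + 0 / 1 * ((1 - a) * (2 * (1 - a) - 1) / 3)) * ((a + (t + e)) * (a + (u + e)))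
      < 6 * (1 - a) ^ 2 * ((a + (t + e)) * (a + (u + e)))
        - 2 * (2 - a) * (1 - a - (t + e) - (u + e)) * ((a + (t + e)) * (a + (u + e)))
        - (6 * (1 - a) * ((t + e) * t * (a + (u + e)) + (u + e) * u * (a + (t + e))) + 6 * (t + e) * b * (a + (u + e)))
        + 6 * (u + e) * r * (a + (t + e)) := by
  by_contra hcon
  push Not at hcon
  have ha0 : 0 ≤ a := by linarith
  have hw : 0 ≤ (u + e) * (a + (t + e)) := mul_nonneg (by linarith) (by linarith)
  have k1 := mul_le_mul_of_nonneg_left r1 hw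
  have k2 := mul_le_mul_of_nonneg_left r2 hw
  refine BernL.no_point run_ok (fun k => ([a, t, u, b, v, e] : List ℝ).getD k 0) ?_ ?_
  · intro k hk
    simp only [bx]
    interval_cases k <;> norm_num <;> constructor <;> linarith
  · intro g hg
    simp only [gs, List.mem_cons, List.not_mem_nil, or_false] at hg
    rcases hg with rfl | rfl | rfl | rfl | rfl | rfl | rfl
    · simp only [gA, rho, base, los, pq, p, q, c, x, w, Ex.ev, List.getD_cons_zero, List.getD_cons_succ, Nat.cast_ofNat, Nat.cast_one,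
        Nat.cast_zero]
      linarith
    · simp only [gB, mo, rho, base, los, pq, p, q, c, x, w, Ex.ev, List.getD_cons_zero, List.getD_cons_succ, Nat.cast_ofNat, Nat.cast_one,
        Nat.cast_zero]
      linarith
    · simp only [g1, mo, rho, base, los, pq, p, q, c, x, w, Ex.ev, List.getD_cons_zero, List.getD_cons_succ, Nat.cast_ofNat, Nat.cast_one,
        Nat.cast_zero]
      linarith
    · simp only [g2, mo, rho, base, los, pq, p, q, c, x, w, Ex.ev, List.getD_cons_zero, List.getD_cons_succ, Nat.cast_ofNat, Nat.cast_one,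
        Nat.cast_zero]
      linarith
    · simp only [g3, mo, rho, base, los, pq, p, q, c, x, w, Ex.ev, List.getD_cons_zero, List.getD_cons_succ, Nat.cast_ofNat, Nat.cast_one,
        Nat.cast_zero]
      linarith
    · simp only [g4, mo, rho, base, los, pq, p, q, c, x, w, Ex.ev, List.getD_cons_zero, List.getD_cons_succ, Nat.cast_ofNat, Nat.cast_one,
        Nat.cast_zero]
      linarith
    · simp only [g5, mo, rho, base, los, pq, p, q, c, x, w, Ex.ev, List.getD_cons_zero, List.getD_cons_succ, Nat.cast_ofNat, Nat.cast_one,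
        Nat.cast_zero]
      linarith

end Pool.Agent.Lib.MP_f04ccf_co.CsBxA3

namespace Pool.Agent.Lib.MP_f04ccf_co.CsBxA4
open BernK BernK.Ex BernL BernL.Tr

def c : Ex := (sub (con 1) (var 0))
def x : Ex := (add (var 1) (var 5))
def w : Ex := (add (var 2) (var 5))
def p : Ex := (add (var 0) x)
def q : Ex := (add (var 0) w)
def pq : Ex := (mul p q)
def base : Ex := (sub (mul (mul (mul (con 6) c) c) pq) (mul (mul (mul (con 2) (add (con 1) c)) (sub (sub c x) w)) pq))
def los : Ex := (add (mul (mul (con 6) c) (add (mul (mul x (var 1)) q) (mul (mul w (var 2)) p))) (mul (mul (mul (con 6) x) (var 3)) q))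
def rho : Ex := (add (mul (mul (con 0) (con 1)) pq) (mul (mul (mul (con 38) c) (sub (mul (con 2) c) (con 1))) pq))
def gA : Ex := (sub (add (mul (con 20) (add los (mul (mul (mul (con 6) w) (var 4)) p))) rho) (mul (con 20) (add base (mul (mul (mul (con 6) w) c) p))))
def gB : Ex := (sub (add (mul (con 20) (add los (mul (mul (mul (con 6) w) (var 2)) p))) rho) (mul (con 20) base))
def g1 : Ex := (sub (add (mul (var 1) (var 2)) (var 5)) (mul (var 3) (var 4)))
def g2 : Ex := (sub (var 4) (var 3))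
def g3 : Ex := (sub (sub (con 1) (var 2)) (var 4))
def g4 : Ex := (sub (sub (con 1) (var 3)) (var 4))
def g5 : Ex := (sub (sub c x) w)
def mo : Ex := (mul (mul (mul (mul (mul (mul (mul (mul (mul (mul (mul (mul (var 0) (var 0)) (var 0)) (var 0)) (var 1)) (var 1)) (var 2)) (var 2)) (var 3)) (var 4)) (var 5)) (var 5)) (var 5))

def tr : BernL.Tr := (split 3 (split 2 (split 4 (split 3 (split 3 (split 1 (neg 0) (lin [13, 13, 512, 64])) (split 4 (lin [5, 0, 512, 64]) (lin [1, 0, 64]))) (split 2 (lin [1, 0, 128, 20]) (lin [3, 0, 128, 27, 0, 0, 21]))) (split 2 (split 1 (split 1 (lin [1, 3, 32]) (lin [1, 1, 32])) (split 3 (lin [1, 1, 64]) (neg 2))) (split 4 (split 1 (lin [3, 0, 64]) (lin [11, 0, 512, 0, 0, 0, 36])) (split 1 (split 0 (split 2 (split 1 (split 4 (lin [7, 9, 128, 0, 44]) (lin [0, 1, 8, 0, 7])) (lin [0, 3, 64, 0, 6])) (split 4 (lin [9, 4, 256, 0, 85]) (neg 4))) (split 2 (lin [0, 3, 64]) (split 1 (split 5 (split 0 (split 2 (lin [55, 69, 1024,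 0, 622]) (lin [15, 14, 256, 0, 201])) (split 2 (lin [0, 3, 32]) (split 0 (lin [55, 61, 1024, 0, 770]) (lin [27, 31, 512, 0, 401])))) (lin [11, 15, 256, 0, 158])) (lin [0, 1, 32, 0, 4])))) (split 0 (split 1 (lin [2, 0, 64, 0, 27]) (split 3 (split 0 (split 2 (split 3 (lin [7, 1, 256, 0, 105]) (lin [3, 0, 128, 0, 44])) (split 3 (lin [7, 0, 0, 0, 128]) (lin [3, 0, 128, 0, 56, 0, 24]))) (lin [55, 0, 2048, 0, 978])) (neg 2))) (lin [9, 10, 1024, 0, 238, 0, 17])))))) (split 4 (split 1 (lin [1, 0, 32]) (lin [3, 0, 128, 0, 0, 0, 51])) (split 1 (split 4 (lin [3, 0, 64, 0, 37]) (lin [1, 0, 29, 0, 32])) (split 0 (split 3 (split 4 (lin [15, 0, 512, 0, 229, 0, 123]) (lin [23, 0, 1024, 0, 747, 0, 81])) (lin [1, 0, 256, 0, 0, 0, 85])) (split 1 (lin [3, 0, 128, 0, 56, 0, 22]) (neg 6)))))) (lin [0, 0, 4, 2, 0, 0, 1]))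

def bx : List (ℕ × ℕ × ℕ) := [(30, 49, 100), (0, 1, 2), (0, 1, 2), (0, 1, 1), (0, 1, 1), (0, 1, 60)]

def gs : List (Ex × ℕ) := [(gA, 173194865029120000), ((add gB (mul (con 0) mo)), 151624817029120000), ((add g1 (mul (con 0) mo)), 345600000000000), ((add g2 (mul (con 0) mo)), 345600000000000), ((add g3 (mul (con 0) mo)), 518400000000000), ((add g4 (mul (con 0) mo)), 691200000000000), ((add g5 (mul (con 0) mo)), 526464000000000)]

theorem run_ok : BernL.run 110 6 bx gs tr = true := by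
  decide +kernel



/-- the box of a hosted half unit -/
theorem box {a t u b v e r : ℝ} (ha : 30 ≤ 100 * a) (ha' : 100 * a ≤ 49) (ht : 0 ≤ t) (ht' : 2 * t ≤ 1)
    (hu : 0 ≤ u) (hu' : 2 * u ≤ 1) (hb : 0 ≤ b) (hb' : b ≤ 1) (hv : 0 ≤ v) (hv' : v ≤ 1) (he : 0 ≤ e)
    (he' : 60 * e ≤ 1) (h1 : b * v ≤ t * u + e) (h2 : b ≤ v) (h3 : u + v ≤ 1) (h4 : b + v ≤ 1)
    (h5 : (t + e) + (u + e) ≤ 1 - a) (r1 : 1 - a - v ≤ r) (r2 : -u ≤ r) :
    6 * (0 / 1 + 19 / 20 * ((1 - a) * (2 * (1 - a) - 1) / 3)) * ((a + (t + e)) * (a + (u + e)))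
      < 6 * (1 - a) ^ 2 * ((a + (t + e)) * (a + (u + e)))
        - 2 * (2 - a) * (1 - a - (t + e) - (u + e)) * ((a + (t + e)) * (a + (u + e)))
        - (6 * (1 - a) * ((t + e) * t * (a + (u + e)) + (u + e) * u * (a + (t + e))) + 6 * (t + e) * b * (a + (u + e)))
        + 6 * (u + e) * r * (a + (t + e)) := by
  by_contra hcon
  push Not at hcon
  have ha0 : 0 ≤ a := by linarith
  have hw : 0 ≤ (u + e) * (a + (t + e)) := mul_nonneg (by linarith) (by linarith)
  have k1 := mul_le_mul_of_nonneg_left r1 hw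
  have k2 := mul_le_mul_of_nonneg_left r2 hw
  refine BernL.no_point run_ok (fun k => ([a, t, u, b, v, e] : List ℝ).getD k 0) ?_ ?_
  · intro k hk
    simp only [bx]
    interval_cases k <;> norm_num <;> constructor <;> linarith
  · intro g hg
    simp only [gs, List.mem_cons, List.not_mem_nil, or_false] at hg
    rcases hg with rfl | rfl | rfl | rfl | rfl | rfl | rfl
    · simp only [gA, rho, base, los, pq, p, q, c, x, w, Ex.ev, List.getD_cons_zero, List.getD_cons_succ, Nat.cast_ofNat, Nat.cast_one,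
        Nat.cast_zero]
      linarith
    · simp only [gB, mo, rho, base, los, pq, p, q, c, x, w, Ex.ev, List.getD_cons_zero, List.getD_cons_succ, Nat.cast_ofNat, Nat.cast_one,
        Nat.cast_zero]
      linarith
    · simp only [g1, mo, rho, base, los, pq, p, q, c, x, w, Ex.ev, List.getD_cons_zero, List.getD_cons_succ, Nat.cast_ofNat, Nat.cast_one,
        Nat.cast_zero]
      linarith
    · simp only [g2, mo, rho, base, los, pq, p, q, c, x, w, Ex.ev, List.getD_cons_zero, List.getD_cons_succ, Nat.cast_ofNat, Nat.cast_one,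
        Nat.cast_zero]
      linarith
    · simp only [g3, mo, rho, base, los, pq, p, q, c, x, w, Ex.ev, List.getD_cons_zero, List.getD_cons_succ, Nat.cast_ofNat, Nat.cast_one,
        Nat.cast_zero]
      linarith
    · simp only [g4, mo, rho, base, los, pq, p, q, c, x, w, Ex.ev, List.getD_cons_zero, List.getD_cons_succ, Nat.cast_ofNat, Nat.cast_one,
        Nat.cast_zero]
      linarith
    · simp only [g5, mo, rho, base, los, pq, p, q, c, x, w, Ex.ev, List.getD_cons_zero, List.getD_cons_succ, Nat.cast_ofNat, Nat.cast_one,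
        Nat.cast_zero]
      linarith

end Pool.Agent.Lib.MP_f04ccf_co.CsBxA4

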