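import Pool.Agent.Lib.MP_f04ccf_co.M.BernL

/-!
MP_f04ccf_co, TEXT D: kernel boxes of the two end columns of a hosted half unit (M/CsExt.lean), factors 0, ramp, 3/2.
-/

set_option autoImplicit false
set_option maxRecDepth 100000
set_option linter.unusedSimpArgs false

namespace Pool.Agent.Lib.MP_f04ccf_co.CsBxE0
open BernK BernK.Ex BernL BernL.Tr

def c : Ex := (sub (con 1) (var 0))
def x : Ex := (add (var 1) (var 5))
def w : Ex := (add (var 2) (var 5))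
def p : Ex := (add (var 0) x)
def q : Ex := (add (var 0) w)
def psx : Ex := (add (mul (mul (mul (con 2000) x) q) (var 0)) (mul (mul (mul (con 2000) w) p) (var 0)))
def ngx : Ex := (mul (mul (mul (con 4000) x) q) (var 3))
def gA : Ex := (sub (add (add ngx (mul (mul (mul (con 4000) w) p) (var 4))) (mul (mul (con 2) p) q)) (add psx (mul (mul (mul (con 4000) w) p) c)))
def gB : Ex := (sub (add ngx (mul (mul (con 2) p) q)) (mul (mul (mul (con 2000) x) q) (var 0)))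
def g1 : Ex := (sub (add (mul (var 1) (var 2)) (var 5)) (mul (var 3) (var 4)))
def g2 : Ex := (sub (var 4) (var 3))
def g3 : Ex := (sub (sub (con 1) (var 2)) (var 4))
def g4 : Ex := (sub (sub (con 1) (var 3)) (var 4))
def g5 : Ex := (sub (sub c x) w)
def g6 : Ex := (sub (mul (mul (mul (con 2) x) x) x) (mul (var 5) (var 5)))
def g7 : Ex := (sub (mul (mul (mul (con 2) w) w) w) (mul (var 5) (var 5)))
def k8 : Ex := (sub (var 1) (mul (con 3) (var 5)))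
def k9 : Ex := (sub (var 2) (mul (con 3) (var 5)))
def g8 : Ex := (sub (mul (con 4) x) (con 1))
def mo : Ex := (mul (mul (mul (mul (mul (mul (mul (mul (mul (mul (mul (mul (var 0) (var 0)) (var 1)) (var 1)) (var 1)) (var 2)) (var 2)) (var 2)) (var 3)) (var 4)) (var 5)) (var 5)) (var 5))

def tr : BernL.Tr := (split 3 (split 4 (split 3 (split 4 (split 0 (split 3 (split 5 (split 4 (split 0 (split 5 (split 3 (split 1 (split 4 (split 1 (lin [1, 2, 2048, 128, 0, 0, 0, 0, 0, 0, 377, 9]) (lin [1, 2, 2048, 128, 0, 0, 0, 0, 0, 0, 331])) (lin [1, 0, 2048, 0, 0, 0, 0, 0, 0, 0, 310, 7])) (split 4 (split 1 (lin [3, 6, 8192, 512, 0, 0, 0, 0, 0, 0, 1173]) (lin [1, 1, 2048, 128, 0, 0, 0, 0, 0, 0, 255])) (lin [1, 0, 2048, 0, 0, 0, 0, 0, 0, 0, 313]))) (lin [9, 0, 32768, 2048])) (lin [3, 0, 1622, 176, 0, 0, 0, 0, 0, 0, 2048])) (split 1 (lin [5, 3, 8192, 585, 0,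 0, 0, 0, 0, 0, 3714, 6]) (lin [1, 1, 2048, 256]))) (lin [33, 2, 65536, 0, 0, 0, 0, 0, 0, 0, 13123, 96])) (lin [1, 0, 0, 0, 0, 0, 0, 0, 0, 0, 512])) (lin [3, 0, 8192, 1024, 0, 0, 0, 0, 0, 0, 0, 2])) (split 1 (split 1 (lin [1, 2, 2048, 477, 0, 0, 0, 0, 0, 0, 458, 129]) (lin [4, 7, 8192, 1905, 0, 0, 0, 0, 0, 0, 1104])) (split 1 (lin [7, 11, 16384, 3795, 0, 0, 0, 0, 0, 0, 1681]) (lin [13, 16, 32768, 7554, 0, 0, 0, 0, 0, 0, 2390])))) (split 0 (lin [7, 0, 8192, 0, 0, 0, 0, 0, 0, 0, 1533, 19]) (lin [1, 0, 2048]))) (split 2 (split 0 (lin [5, 0, 8192, 2204]) (lin [7, 0, 16384, 4087, 0, 0, 1301])) (lin [1, 0, 1024, 81, 0, 0, 240]))) (split 2 (split 3 (split 4 (split 1 (lin [3, 0, 2048, 0, 0, 0, 0, 0, 0, 0, 399, 9]) (split 0 (split 0 (lin [13, 0, 8192]) (lin [1, 0, 1024])) (lin [1, 0, 1024, 0, 0, 0, 25]))) (split 0 (split 1 (split 2 (split 0 (split 4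 (lin [19, 0, 8192, 0, 0, 0, 0, 0, 0, 0, 861, 88]) (split 5 (split 2 (split 3 (split 1 (lin [1, 5, 1024]) (lin [2, 15, 4096, 0, 177])) (neg 2)) (split 1 (lin [13, 0, 4096, 0, 1268, 0, 0, 0, 0, 0, 0, 87]) (split 0 (split 2 (lin [27, 0, 8192, 0, 2992]) (lin [3, 0, 1024, 0, 461])) (lin [3, 2, 2048, 0, 458])))) (split 0 (split 2 (split 1 (split 3 (split 2 (lin [4, 9, 2048, 0, 0, 0, 0, 0, 0, 0, 660, 120]) (lin [61, 122, 32768, 0, 3177, 0, 0, 0, 0, 0, 0, 343])) (neg 2)) (split 4 (lin [29, 0, 8192, 0, 0, 0, 0, 0, 0, 0, 67]) (split 3 (split 5 (lin [5, 31, 8192, 0, 520]) (split 1 (split 0 (lin [122, 191, 65536, 0, 13552, 0, 0, 0, 0, 0, 13467]) (lin [0, 1, 256])) (split 3 (lin [148, 153, 65536, 0, 15978, 0, 0, 0, 0, 0, 13807]) (neg 2)))) (neg 2)))) (split 1 (split 2 (lin [33, 0, 8192, 0, 3664, 0, 0, 0, 0, 0, 0, 284]) (lin [7, 0, 2048, 0, 1004, 0, 0, 0,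 0, 0, 0, 46])) (split 2 (split 1 (split 3 (lin [15, 0, 4096, 0, 1707]) (neg 2)) (split 3 (split 0 (lin [29, 0, 8192, 0, 3595]) (lin [2, 1, 1024, 0, 282])) (neg 2))) (lin [11, 0, 4096, 0, 1904])))) (split 1 (lin [0, 3, 1024, 0, 0, 0, 0, 0, 0, 0, 0, 2]) (split 1 (lin [1, 9, 4096, 0, 234]) (lin [91, 490, 262144, 0, 22843])))))) (lin [1, 6, 4096, 0, 125, 0, 0, 0, 0, 0, 0, 60])) (split 4 (split 0 (split 1 (lin [1, 0, 512]) (lin [1, 0, 512, 0, 205])) (lin [3, 0, 2048, 0, 732, 0, 0, 0, 0, 0, 0, 38])) (lin [1, 0, 512, 0, 496]))) (split 2 (split 0 (split 4 (split 3 (lin [63, 0, 32768, 0, 0, 0, 0, 0, 0, 0, 1597]) (neg 2)) (split 5 (split 2 (split 0 (split 1 (split 3 (split 2 (lin [0, 1, 256]) (lin [15, 16, 8192, 0, 1248])) (neg 2)) (split 3 (split 4 (lin [3, 0, 1024]) (split 3 (split 1 (lin [3, 5, 2048, 0, 329]) (lin [25, 30, 16384, 0, 3132])) (neg 2)))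 (neg 2))) (lin [0, 1, 512])) (split 0 (split 1 (split 2 (split 3 (split 1 (lin [13, 0, 4096, 0, 1685]) (lin [3, 0, 1024, 0, 429])) (neg 2)) (lin [19, 0, 8192, 0, 3855])) (split 4 (split 3 (split 3 (lin [1, 0, 256, 0, 123]) (lin [1, 0, 512, 0, 196])) (neg 2)) (split 5 (lin [7, 0, 2716, 0, 4096]) (split 3 (lin [3, 0, 1024, 0, 887]) (neg 2))))) (split 1 (lin [29, 4, 16384, 0, 5415]) (split 3 (lin [19, 12, 16384, 0, 4376]) (neg 2))))) (split 2 (split 0 (split 1 (split 5 (split 4 (split 1 (lin [13, 0, 4096]) (lin [3, 0, 1024])) (split 3 (split 1 (lin [13, 51, 16384, 0, 1703]) (split 3 (lin [88, 167, 65536, 0, 9182]) (neg 2))) (neg 2))) (split 2 (neg 10) (split 3 (split 4 (lin [27, 0, 8192]) (split 3 (split 1 (lin [67, 16, 16384, 0, 8915, 0, 0, 0, 0, 0, 2429]) (split 2 (lin [13, 5, 4096, 0, 1351, 0, 0, 0, 0, 0, 1251]) (lin [1, 0, 256, 0, 137])))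 (neg 2))) (neg 2)))) (split 5 (split 3 (split 4 (lin [47, 0, 16384]) (split 0 (split 2 (lin [0, 1, 256, 0, 17]) (split 3 (split 1 (lin [7, 2, 2048, 0, 997]) (split 2 (lin [3, 1, 1024, 0, 332]) (lin [7, 0, 2048, 0, 1066]))) (neg 2))) (lin [0, 11, 4096]))) (neg 2)) (split 2 (neg 10) (split 3 (split 3 (split 4 (lin [7, 0, 2048]) (split 1 (split 2 (lin [25, 6, 8192, 0, 2930, 0, 0, 0, 0, 0, 2564]) (lin [15, 0, 4096, 0, 2245])) (split 2 (split 5 (split 1 (lin [45, 17, 16384, 0, 5094]) (lin [40, 19, 16384, 0, 4642])) (split 3 (neg 1) (lin [7, 0, 2048, 0, 932, 0, 0, 0, 0, 0, 420]))) (split 5 (lin [7, 0, 2048, 0, 1094]) (split 1 (lin [57, 0, 16384, 0, 8833]) (split 2 (lin [55, 0, 16384, 0, 8058]) (lin [13, 0, 4096, 0, 2116]))))))) (neg 2)) (neg 2))))) (lin [0, 131, 65536])) (split 1 (split 0 (split 2 (split 5 (split 0 (split 1 (lin [13, 0, 4096, 0,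 1718]) (split 3 (split 1 (lin [13, 0, 4096, 0, 1817]) (lin [49, 0, 16384, 0, 7308])) (neg 2))) (lin [83, 0, 32768, 0, 12542])) (split 4 (split 3 (split 3 (lin [1, 0, 256, 0, 102]) (lin [1, 0, 512, 0, 123])) (neg 2)) (split 3 (lin [53, 0, 16384, 0, 11645]) (neg 2)))) (split 3 (lin [11, 0, 4096, 0, 2679]) (neg 2))) (split 3 (lin [119, 52, 65536, 0, 29685]) (neg 2))) (split 3 (split 3 (split 4 (lin [25, 0, 8192, 0, 3939]) (lin [25, 0, 8192, 0, 6116])) (split 2 (lin [11, 0, 8192, 0, 2388]) (lin [59, 0, 32768, 0, 15878]))) (neg 2)))))) (split 3 (lin [1, 2, 2048, 0, 180]) (neg 2))) (split 3 (split 4 (split 0 (lin [1, 0, 512, 0, 222]) (lin [1, 0, 512, 0, 238])) (split 5 (lin [7, 0, 4096, 0, 3161]) (split 0 (lin [15, 0, 8192, 0, 6657]) (lin [3, 0, 2048, 0, 1449])))) (split 2 (lin [3, 0, 4096, 0, 1085]) (lin [7, 0, 8192, 0, 3633]))))) (split 1 (lin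 [1, 4, 4096, 0, 328]) (split 2 (lin [0, 1, 1024, 0, 91]) (lin [83, 28, 131072, 0, 42035]))))) (lin [1, 0, 4096])) (split 4 (split 3 (split 0 (lin [9, 0, 8192, 0, 2878]) (lin [1, 0, 1024, 0, 348])) (split 2 (lin [59, 0, 131072, 0, 21778, 0, 5125]) (lin [17, 0, 32768, 0, 7985, 0, 6996]))) (split 5 (split 0 (split 1 (lin [1, 0, 1024, 0, 853, 0, 0, 0, 0, 0, 0, 12]) (split 0 (lin [15, 0, 16384, 0, 13472]) (lin [3, 0, 4096, 0, 3023]))) (lin [5, 0, 8192, 0, 6785])) (split 0 (split 1 (lin [1, 0, 1024, 0, 843, 0, 0, 0, 0, 0, 0, 12]) (split 0 (lin [29, 0, 32768, 0, 28037]) (lin [3, 0, 4096, 0, 3204]))) (lin [19, 0, 32768, 0, 26006])))))) (lin [0, 0, 4, 2, 0, 0, 1]))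

def bx : List (ℕ × ℕ × ℕ) := [(3, 20, 40), (3, 8, 16), (0, 1, 2), (0, 1, 1), (0, 1, 1), (0, 1, 65)]

def gs : List (Ex × ℕ) := [((add gA (mul (con 0) mo)), 45208829952000000), ((add gB (mul (con 0) mo)), 22634104356864000), ((add g1 (mul (con 0) mo)), 14398259200000), ((add g2 (mul (con 0) mo)), 14398259200000), ((add g3 (mul (con 0) mo)), 21597388800000), ((add g4 (mul (con 0) mo)), 28796518400000), ((add g5 (mul (con 0) mo)), 22040412160000), ((add g6 (mul (con 0) mo)), 3938752921600), ((add g7 (mul (con 0) mo)), 3938752921600), ((add k8 (mul (con 0) mo)), 7199129600000), ((add k9 (mul (con 0) mo)), 7199129600000), ((add g8 (mul (con 0) mo)), 15284305920000)]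

theorem run_ok : BernL.run 130 6 bx gs tr = true := by
  decide +kernel



/-- the box of the two end columns of a hosted half unit -/
theorem box {a t u b v e r : ℝ} (ha : 3 ≤ 40 * a) (ha' : 40 * a ≤ 20) (ht : 3 ≤ 16 * t) (ht' : 16 * t ≤ 8)
    (hu : 0 ≤ u) (hu' : 2 * u ≤ 1) (hb : 0 ≤ b) (hb' : b ≤ 1) (hv : 0 ≤ v) (hv' : v ≤ 1) (he : 0 ≤ e)
    (he' : 65 * e ≤ 1) (h1 : b * v ≤ t * u + e) (h2 : b ≤ v) (h3 : u + v ≤ 1) (h4 : b + v ≤ 1)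
    (h5 : (t + e) + (u + e) ≤ 1 - a) (h6 : e * e ≤ 2 * (t + e) * (t + e) * (t + e))
    (h7 : e * e ≤ 2 * (u + e) * (u + e) * (u + e)) (h8 : 3 * e ≤ t) (h9 : 3 * e ≤ u) (hx : 1 ≤ 4 * (t + e))
    (r1 : 1 - a - v ≤ r) (r2 : -(a / 2) ≤ r) :
    2 * ((a + (t + e)) * (a + (u + e)))
      < 2000 * (t + e) * (a - 2 * b) * (a + (u + e)) + 2000 * (u + e) * (a + 2 * r) * (a + (t + e)) := by
  by_contra hcon
  push Not at hcon
  have ha0 : 0 ≤ a := by linarith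
  have t0 : 0 ≤ t := by linarith
  have hw : 0 ≤ (u + e) * (a + (t + e)) := mul_nonneg (by linarith) (by linarith)
  have k1 := mul_le_mul_of_nonneg_left r1 hw
  have k2 := mul_le_mul_of_nonneg_left r2 hw
  refine BernL.no_point run_ok (fun k => ([a, t, u, b, v, e] : List ℝ).getD k 0) ?_ ?_
  · intro k hk
    simp only [bx]
    interval_cases k <;> norm_num <;> constructor <;> linarith
  · intro g hg
    simp only [gs, List.mem_cons, List.not_mem_nil, or_false] at hg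
    rcases hg with rfl | rfl | rfl | rfl | rfl | rfl | rfl | rfl | rfl | rfl | rfl | rfl
    · simp only [gA, psx, ngx, q, p, c, x, w, Ex.ev, List.getD_cons_zero, List.getD_cons_succ, Nat.cast_ofNat, Nat.cast_one,
        Nat.cast_zero]
      linarith
    · simp only [gB, psx, ngx, q, p, c, x, w, Ex.ev, List.getD_cons_zero, List.getD_cons_succ, Nat.cast_ofNat, Nat.cast_one,
        Nat.cast_zero, mo]
      linarith
    · simp only [g1, psx, ngx, q, p, c, x, w, Ex.ev, List.getD_cons_zero, List.getD_cons_succ, Nat.cast_ofNat, Nat.cast_one,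
        Nat.cast_zero, mo]
      linarith
    · simp only [g2, psx, ngx, q, p, c, x, w, Ex.ev, List.getD_cons_zero, List.getD_cons_succ, Nat.cast_ofNat, Nat.cast_one,
        Nat.cast_zero, mo]
      linarith
    · simp only [g3, psx, ngx, q, p, c, x, w, Ex.ev, List.getD_cons_zero, List.getD_cons_succ, Nat.cast_ofNat, Nat.cast_one,
        Nat.cast_zero, mo]
      linarith
    · simp only [g4, psx, ngx, q, p, c, x, w, Ex.ev, List.getD_cons_zero, List.getD_cons_succ, Nat.cast_ofNat, Nat.cast_one,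
        Nat.cast_zero, mo]
      linarith
    · simp only [g5, psx, ngx, q, p, c, x, w, Ex.ev, List.getD_cons_zero, List.getD_cons_succ, Nat.cast_ofNat, Nat.cast_one,
        Nat.cast_zero, mo]
      linarith
    · simp only [g6, psx, ngx, q, p, c, x, w, Ex.ev, List.getD_cons_zero, List.getD_cons_succ, Nat.cast_ofNat, Nat.cast_one,
        Nat.cast_zero, mo]
      linarith
    · simp only [g7, psx, ngx, q, p, c, x, w, Ex.ev, List.getD_cons_zero, List.getD_cons_succ, Nat.cast_ofNat, Nat.cast_one,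
        Nat.cast_zero, mo]
      linarith
    · simp only [k8, psx, ngx, q, p, c, x, w, Ex.ev, List.getD_cons_zero, List.getD_cons_succ, Nat.cast_ofNat, Nat.cast_one,
        Nat.cast_zero, mo]
      linarith
    · simp only [k9, psx, ngx, q, p, c, x, w, Ex.ev, List.getD_cons_zero, List.getD_cons_succ, Nat.cast_ofNat, Nat.cast_one,
        Nat.cast_zero, mo]
      linarith
    · simp only [g8, psx, ngx, q, p, c, x, w, Ex.ev, List.getD_cons_zero, List.getD_cons_succ, Nat.cast_ofNat, Nat.cast_one,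
        Nat.cast_zero, mo]
      linarith

end Pool.Agent.Lib.MP_f04ccf_co.CsBxE0

namespace Pool.Agent.Lib.MP_f04ccf_co.CsBxER
open BernK BernK.Ex BernL BernL.Tr

def c : Ex := (sub (con 1) (var 0))
def x : Ex := (add (var 1) (var 5))
def w : Ex := (add (var 2) (var 5))
def p : Ex := (add (var 0) x)
def q : Ex := (add (var 0) w)
def fb : Ex := (mul (mul (mul (mul (mul (con 1600) c) (var 0)) (sub (con 1) (mul (con 4) x))) (var 3)) q)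
def psx : Ex := (add (mul (mul (mul (con 400) x) q) (var 0)) (mul (mul (mul (con 400) w) p) (var 0)))
def ngx : Ex := (add (mul (mul (mul (con 800) x) q) (var 3)) fb)
def gA : Ex := (sub (add (add ngx (mul (mul (mul (con 800) w) p) (var 4))) (mul (mul (con 2) p) q)) (add psx (mul (mul (mul (con 800) w) p) c)))
def gB : Ex := (sub (add ngx (mul (mul (con 2) p) q)) (mul (mul (mul (con 400) x) q) (var 0)))
def g1 : Ex := (sub (add (mul (var 1) (var 2)) (var 5)) (mul (var 3) (var 4)))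
def g2 : Ex := (sub (var 4) (var 3))
def g3 : Ex := (sub (sub (con 1) (var 2)) (var 4))
def g4 : Ex := (sub (sub (con 1) (var 3)) (var 4))
def g5 : Ex := (sub (sub c x) w)
def g6 : Ex := (sub (mul (mul (mul (con 2) x) x) x) (mul (var 5) (var 5)))
def g7 : Ex := (sub (mul (mul (mul (con 2) w) w) w) (mul (var 5) (var 5)))
def k8 : Ex := (sub (var 1) (mul (con 3) (var 5)))
def k9 : Ex := (sub (var 2) (mul (con 3) (var 5)))
def g8 : Ex := (sub (con 1) (mul (con 4) x))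
def g9 : Ex := (sub (mul (con 8) x) (con 1))
def mo : Ex := (mul (mul (mul (mul (mul (mul (mul (mul (mul (mul (mul (mul (mul (var 0) (var 0)) (var 0)) (var 1)) (var 1)) (var 1)) (var 2)) (var 2)) (var 2)) (var 3)) (var 4)) (var 5)) (var 5)) (var 5))

def tr : BernL.Tr := (split 4 (split 3 (split 3 (split 1 (split 1 (neg 12) (split 4 (split 0 (split 3 (split 5 (split 4 (split 0 (split 3 (split 5 (split 5 (split 3 (split 4 (split 0 (lin [21, 46, 8192, 256, 0, 0, 0, 0, 0, 0, 1752, 0, 12]) (lin [1, 0, 256, 8, 0, 0, 0, 0, 0, 0, 57, 0, 1])) (lin [1, 1, 256, 0, 0, 0, 0, 0, 0, 0, 50])) (split 0 (lin [5, 0, 2048, 67, 0, 0, 0, 0, 0, 0, 344, 0, 3]) (lin [33, 0, 16384, 610, 0, 0, 0, 0, 0, 0, 3139, 0, 30]))) (lin [5, 0, 369, 21, 0, 0, 0, 0, 0, 0, 512, 0, 6])) (lin [3, 0, 512, 0, 0, 0, 0, 0, 0, 0, 273])) (lin [21, 0, 8192, 637, 0, 0, 0, 0, 0, 0, 1560, 0,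 22])) (split 3 (split 4 (lin [2, 1, 1024, 64, 0, 0, 0, 0, 0, 0, 216, 0, 5]) (lin [1, 0, 512, 0, 0, 0, 0, 0, 0, 0, 100, 0, 2])) (lin [15, 0, 8192, 737, 0, 0, 0, 0, 0, 0, 1686, 0, 37]))) (split 0 (lin [1, 0, 256, 0, 0, 0, 0, 0, 0, 0, 55]) (lin [17, 0, 8192, 0, 0, 0, 0, 0, 0, 0, 1657, 0, 36]))) (split 0 (lin [3, 0, 191, 19, 0, 0, 0, 0, 0, 0, 256, 0, 7]) (lin [1, 0, 124, 13, 0, 0, 0, 0, 0, 0, 128, 0, 7]))) (split 0 (lin [3, 0, 1024, 117, 0, 0, 0, 0, 0, 0, 161, 0, 7]) (lin [7, 0, 4096, 476, 0, 0, 0, 0, 0, 0, 552, 0, 49]))) (split 3 (split 5 (split 4 (split 3 (lin [3, 2, 2048, 128, 0, 0, 0, 0, 0, 0, 391, 0, 25]) (lin [189, 0, 131072, 13132, 0, 0, 0, 0, 0, 0, 27253, 0, 1116])) (lin [3, 0, 2048, 0, 0, 0, 0, 0, 0, 0, 335, 0, 16])) (split 0 (lin [81, 0, 16384, 1794, 0, 0, 0, 0, 0, 0, 12652, 0, 874]) (lin [1, 0, 256, 29, 0, 0, 0, 0, 0, 0, 154, 0, 12])))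 (split 0 (lin [77, 0, 65536, 8190, 0, 0, 0, 0, 0, 0, 6622]) (lin [17, 0, 16384, 2111, 0, 0, 0, 0, 0, 0, 1665])))) (split 0 (split 0 (lin [11, 3, 2048, 0, 0, 0, 0, 0, 0, 0, 394, 0, 4]) (lin [1, 0, 256, 0, 0, 0, 0, 0, 0, 0, 56, 0, 4])) (lin [9, 0, 4096, 0, 0, 0, 0, 0, 0, 0, 617, 0, 74])))) (split 4 (split 3 (split 5 (split 0 (split 3 (split 0 (split 5 (split 4 (split 3 (lin [5, 21, 2048, 64, 0, 0, 0, 0, 0, 0, 420]) (lin [5, 0, 2048, 64, 0, 0, 0, 0, 0, 0, 425])) (lin [1, 1, 256, 0, 0, 0, 0, 0, 0, 0, 48])) (lin [1, 0, 38, 0, 0, 0, 0, 0, 0, 0, 64])) (split 4 (lin [1, 2, 512, 32, 0, 0, 0, 0, 0, 0, 98]) (lin [2, 5, 2048]))) (split 0 (lin [5, 0, 2048, 125, 0, 0, 0, 0, 0, 0, 285]) (lin [1, 0, 512, 32, 0, 0, 0, 0, 0, 0, 73]))) (split 4 (lin [3, 4, 2048, 256, 0, 0, 0, 0, 0, 0, 320]) (lin [1, 1, 1024]))) (lin [73, 0, 8192, 790, 0, 0, 0, 0, 0, 0, 7867]))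 (lin [55, 0, 32768, 4284, 0, 0, 0, 0, 0, 0, 1671])) (split 0 (lin [65, 13, 16384, 0, 0, 0, 0, 0, 0, 0, 3315]) (lin [9, 13, 8192])))) (split 0 (lin [1, 0, 512, 115]) (lin [5, 0, 4096, 954]))) (lin [0, 0, 2, 1])) (split 2 (split 1 (split 1 (neg 12) (split 0 (split 4 (split 0 (split 3 (lin [69, 0, 8192, 0, 0, 0, 0, 0, 0, 0, 1548, 0, 45]) (neg 2)) (split 3 (lin [5, 0, 1024, 0, 0, 0, 0, 0, 0, 0, 129, 0, 9]) (neg 2))) (split 5 (split 2 (split 0 (split 4 (split 3 (split 3 (lin [111, 0, 8192, 0, 0, 0, 0, 0, 0, 0, 945, 0, 40]) (neg 2)) (neg 2)) (split 0 (split 2 (split 5 (lin [3, 46, 2048, 0, 33, 0, 0, 0, 0, 0, 0, 0, 7]) (split 0 (split 4 (lin [7, 0, 256, 0, 0, 0, 0, 0, 0, 0, 24, 0, 2]) (lin [31, 968, 32768, 0, 339, 0, 0, 0, 0, 0, 0, 0, 243])) (lin [0, 95, 4096, 0, 0, 0, 0, 0, 0, 0, 0, 0, 13]))) (split 3 (split 0 (lin [47, 0, 2048, 0, 499]) (lin [39,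 0, 2048, 0, 504])) (neg 2))) (split 0 (lin [0, 61, 4096]) (lin [0, 3, 256])))) (split 0 (lin [9, 128, 16384, 0, 314, 0, 0, 0, 0, 0, 0, 0, 114]) (lin [0, 3, 512]))) (split 0 (split 3 (split 3 (split 0 (lin [3, 0, 256, 0, 61]) (lin [5, 0, 512, 0, 140])) (neg 2)) (neg 2)) (split 4 (split 3 (lin [389, 0, 65536, 0, 2188, 0, 0, 0, 0, 0, 0, 0, 230]) (neg 2)) (lin [7, 0, 954, 0, 2048])))) (split 2 (split 0 (split 4 (split 0 (lin [263, 0, 16384, 0, 0, 0, 0, 0, 0, 0, 2794, 0, 119]) (lin [23, 0, 2048, 0, 0, 0, 0, 0, 0, 0, 203, 0, 23])) (split 3 (split 0 (split 2 (split 5 (split 0 (split 4 (lin [15, 0, 512, 0, 0, 0, 0, 0, 0, 0, 33]) (split 0 (split 1 (split 5 (lin [0, 143, 4096, 0, 0, 0, 0, 0, 0, 0, 7, 0, 42]) (split 2 (lin [0, 5, 128, 0, 0, 0, 0, 0, 0, 0, 8, 0, 1]) (split 2 (split 3 (lin [0, 79, 2048, 0, 0, 0, 0, 0, 0, 0, 0, 0, 25]) (neg 2)) (lin [71,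 0, 2048, 0, 677, 0, 0, 0, 0, 0, 0, 0, 18])))) (split 3 (split 3 (lin [0, 9, 256]) (neg 2)) (neg 2))) (lin [1, 121, 4096, 0, 0, 0, 0, 0, 0, 0, 8, 0, 16]))) (lin [0, 377, 16384, 0, 0, 0, 0, 0, 0, 0, 0, 0, 192])) (split 2 (neg 10) (split 3 (split 0 (split 4 (lin [61, 0, 2048, 0, 0, 0, 0, 0, 0, 0, 278]) (split 4 (split 1 (split 3 (split 0 (split 2 (split 3 (split 5 (lin [6, 5, 256, 0, 43, 0, 0, 0, 0, 0, 45, 0, 1]) (lin [127, 44, 4096, 0, 1090, 0, 0, 0, 0, 0, 1465, 0, 16])) (neg 2)) (split 1 (lin [153, 0, 4096, 0, 1522]) (lin [19, 0, 512, 0, 233]))) (split 2 (lin [15, 20, 1024, 0, 159, 0, 0, 0, 0, 0, 234, 0, 3]) (lin [67, 0, 2048, 0, 711]))) (neg 2)) (split 0 (split 2 (lin [75, 0, 2048, 0, 573, 0, 0, 0, 0, 0, 524]) (lin [69, 0, 2048, 0, 771])) (split 3 (lin [0, 63, 2048, 0, 0, 0, 0, 0, 0, 0, 29]) (neg 2)))) (lin [0, 0, 0, 0, 1, 0, 0, 0, 0, 0, 1])))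 (split 4 (lin [25, 0, 1024, 0, 0, 0, 0, 0, 0, 0, 108, 0, 10]) (split 0 (lin [0, 223, 8192, 0, 0, 0, 0, 0, 0, 0, 135]) (lin [0, 3, 128, 0, 0, 0, 0, 0, 0, 0, 2, 0, 1])))) (neg 2)))) (split 5 (split 0 (split 2 (lin [103, 0, 4096, 0, 1242]) (lin [1, 0, 64, 0, 20])) (split 3 (lin [161, 0, 8192, 0, 2127, 0, 0, 0, 0, 0, 0, 0, 12]) (neg 2))) (split 2 (split 3 (split 0 (split 1 (lin [223, 0, 8192, 0, 2794]) (lin [27, 0, 1024, 0, 389])) (split 3 (split 1 (split 5 (lin [3, 0, 128, 0, 41]) (lin [47, 0, 2048, 0, 673])) (lin [11, 0, 512, 0, 171])) (neg 2))) (neg 2)) (lin [9, 0, 512, 0, 166])))) (split 5 (split 0 (split 2 (lin [0, 19, 1024, 0, 0, 0, 0, 0, 0, 0, 0, 0, 8]) (split 3 (lin [33, 1, 2048, 0, 487]) (neg 2))) (lin [0, 13, 1024, 0, 0, 0, 0, 0, 0, 0, 0, 0, 4])) (split 2 (split 0 (lin [0, 19, 1024, 0, 0, 0, 0, 0, 0, 0, 0, 0, 8]) (lin [0, 1, 64, 0, 0,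 0, 0, 0, 0, 0, 0, 0, 1])) (split 3 (split 0 (split 2 (split 3 (lin [59, 19, 4096, 0, 934, 0, 0, 0, 0, 0, 0, 0, 40]) (neg 2)) (lin [1, 0, 64, 0, 22])) (split 3 (lin [61, 59, 8192, 0, 1072, 0, 0, 0, 0, 0, 0, 0, 70]) (neg 2))) (neg 2))))) (neg 2))) (split 0 (split 4 (lin [9, 0, 1024, 0, 0, 0, 0, 0, 0, 0, 15, 0, 13]) (split 0 (lin [0, 11, 1024]) (lin [0, 39, 4096, 0, 0, 0, 0, 0, 0, 0, 0, 0, 13]))) (split 4 (lin [7, 0, 1024]) (lin [0, 1, 128])))) (split 0 (split 0 (split 3 (lin [13, 0, 1024, 0, 300]) (neg 2)) (split 3 (lin [39, 0, 4096, 0, 1173]) (neg 2))) (split 4 (split 2 (split 0 (lin [62, 0, 8192, 0, 0, 0, 0, 0, 0, 0, 0, 0, 87]) (split 3 (lin [27, 0, 4096, 0, 90, 0, 0, 0, 0, 0, 0, 0, 44]) (neg 2))) (lin [5, 0, 1024, 0, 219])) (lin [15, 0, 1946, 0, 4096])))))) (split 4 (split 3 (lin [49, 0, 16384, 0, 0, 0, 0, 0, 0, 0, 593, 0, 10]) (neg 2)) (split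 0 (split 5 (split 0 (split 3 (lin [29, 266, 65536, 0, 2429, 0, 0, 0, 0, 0, 0, 0, 118]) (neg 2)) (lin [0, 1, 256, 0, 13])) (split 2 (split 3 (lin [0, 83, 16384, 0, 0, 0, 0, 0, 0, 0, 0, 0, 249]) (neg 2)) (split 2 (split 0 (split 0 (lin [47, 655, 131072, 0, 3171, 0, 0, 0, 0, 0, 0, 0, 1898]) (lin [0, 5, 1024, 0, 0, 0, 0, 0, 0, 0, 0, 0, 8])) (lin [0, 71, 16384, 0, 394, 0, 0, 0, 0, 0, 0, 0, 2])) (split 3 (lin [69, 0, 16384, 0, 5672, 0, 0, 0, 0, 0, 0, 0, 12]) (neg 2))))) (split 3 (lin [1, 13, 4096, 0, 156, 0, 0, 0, 0, 0, 0, 0, 44]) (neg 2)))))) (split 0 (split 4 (split 0 (split 3 (lin [1, 0, 128, 0, 0, 0, 0, 0, 0, 0, 23]) (neg 2)) (lin [19, 0, 4096, 0, 0, 0, 0, 0, 0, 0, 465])) (split 2 (split 0 (split 4 (split 3 (lin [55, 0, 4096, 0, 0, 0, 0, 0, 0, 0, 575]) (neg 2)) (split 5 (split 0 (split 2 (split 0 (split 3 (lin [42, 827, 32768, 0, 561]) (neg 2))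 (lin [0, 23, 1024, 0, 39])) (split 3 (split 1 (lin [79, 0, 4096, 0, 1084]) (lin [39, 0, 2048, 0, 672])) (neg 2))) (lin [2, 25, 2048, 0, 73])) (split 0 (split 2 (split 3 (split 4 (lin [6307, 0, 262144, 0, 0, 0, 0, 0, 0, 0, 19517]) (split 0 (split 1 (split 5 (split 3 (split 3 (lin [1, 65, 2048]) (neg 2)) (neg 2)) (split 3 (split 3 (split 3 (lin [5, 13, 512, 0, 80, 0, 0, 0, 0, 0, 109]) (neg 2)) (neg 2)) (neg 2))) (split 5 (lin [1, 13, 512, 0, 16]) (split 3 (split 3 (lin [19, 43, 2048, 0, 353, 0, 0, 0, 0, 0, 424]) (neg 2)) (neg 2)))) (lin [0, 3, 128, 0, 8, 0, 0, 0, 0, 0, 7]))) (neg 2)) (split 3 (split 1 (split 0 (split 2 (lin [3, 0, 128, 0, 47]) (lin [5, 0, 256, 0, 112])) (split 3 (lin [39, 0, 2048, 0, 670]) (neg 2))) (split 2 (split 3 (lin [11, 0, 512, 0, 208]) (neg 2)) (lin [1, 0, 64, 0, 30]))) (neg 2))) (split 1 (split 0 (split 2 (lin [0, 1,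 64]) (lin [11906, 3933, 1048576, 0, 222373])) (lin [0, 13, 1024])) (lin [1, 13, 1024, 0, 42]))))) (split 4 (lin [1, 0, 128]) (split 3 (lin [32, 271, 32768, 0, 1256]) (neg 2)))) (split 0 (split 3 (split 1 (split 3 (lin [359, 0, 32768, 0, 10598]) (neg 2)) (lin [23, 0, 2048, 0, 812])) (neg 2)) (split 3 (split 3 (lin [30, 1, 4096, 0, 1302]) (neg 2)) (neg 2))))) (split 4 (lin [3, 0, 1024]) (split 0 (split 3 (lin [64, 559, 131072, 0, 6246]) (neg 2)) (lin [0, 15, 4096]))))) (split 4 (split 0 (split 3 (split 0 (lin [5, 0, 1024]) (lin [7, 0, 2048, 0, 219])) (neg 2)) (split 3 (split 1 (split 1 (neg 12) (split 5 (lin [5, 0, 2048, 0, 249]) (lin [43, 0, 16384, 0, 2361]))) (lin [3, 0, 1024, 0, 167])) (neg 2))) (split 0 (lin [15, 0, 3096, 0, 4096]) (lin [23, 0, 8021, 0, 8192])))))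

def bx : List (ℕ × ℕ × ℕ) := [(3, 20, 40), (1, 4, 16), (0, 1, 2), (0, 1, 1), (0, 1, 1), (0, 1, 65)]

def gs : List (Ex × ℕ) := [((add gA (mul (con 0) mo)), 988763389952000000), ((add gB (mul (con 0) mo)), 761577603072000000), ((add g1 (mul (con 0) mo)), 575930368000000), ((add g2 (mul (con 0) mo)), 575930368000000), ((add g3 (mul (con 0) mo)), 863895552000000), ((add g4 (mul (con 0) mo)), 1151860736000000), ((add g5 (mul (con 0) mo)), 737633894400000), ((add g6 (mul (con 0) mo)), 21392850944000), ((add g7 (mul (con 0) mo)), 157550116864000), ((add k8 (mul (con 0) mo)), 143982592000000), ((add k9 (mul (con 0) mo)), 287965184000000), ((add g8 (mul (con 0) mo)), 611372236800000), ((add g9 (mul (con 0) mo)), 646814105600000)]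

theorem run_ok : BernL.run 141 6 bx gs tr = true := by
  decide +kernel



/-- the box of the two end columns of a hosted half unit -/
theorem box {a t u b v e r : ℝ} (ha : 3 ≤ 40 * a) (ha' : 40 * a ≤ 20) (ht : 1 ≤ 16 * t) (ht' : 16 * t ≤ 4)
    (hu : 0 ≤ u) (hu' : 2 * u ≤ 1) (hb : 0 ≤ b) (hb' : b ≤ 1) (hv : 0 ≤ v) (hv' : v ≤ 1) (he : 0 ≤ e)
    (he' : 65 * e ≤ 1) (h1 : b * v ≤ t * u + e) (h2 : b ≤ v) (h3 : u + v ≤ 1) (h4 : b + v ≤ 1)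
    (h5 : (t + e) + (u + e) ≤ 1 - a) (h6 : e * e ≤ 2 * (t + e) * (t + e) * (t + e))
    (h7 : e * e ≤ 2 * (u + e) * (u + e) * (u + e)) (h8 : 3 * e ≤ t) (h9 : 3 * e ≤ u) (hx : 4 * (t + e) ≤ 1) (hx' : 1 ≤ 8 * (t + e))
    (r1 : 1 - a - v ≤ r) (r2 : -(a / 2) ≤ r) :
    2 * ((a + (t + e)) * (a + (u + e)))
      < 400 * (t + e) * (a - 2 * b) * (a + (u + e)) + 400 * (u + e) * (a + 2 * r) * (a + (t + e)) - 1600 * (1 - a) * a * (1 - 4 * (t + e)) * b * (a + (u + e)) := by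
  by_contra hcon
  push Not at hcon
  have ha0 : 0 ≤ a := by linarith
  have t0 : 0 ≤ t := by linarith
  have hw : 0 ≤ (u + e) * (a + (t + e)) := mul_nonneg (by linarith) (by linarith)
  have k1 := mul_le_mul_of_nonneg_left r1 hw
  have k2 := mul_le_mul_of_nonneg_left r2 hw
  refine BernL.no_point run_ok (fun k => ([a, t, u, b, v, e] : List ℝ).getD k 0) ?_ ?_
  · intro k hk
    simp only [bx]
    interval_cases k <;> norm_num <;> constructor <;> linarith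
  · intro g hg
    simp only [gs, List.mem_cons, List.not_mem_nil, or_false] at hg
    rcases hg with rfl | rfl | rfl | rfl | rfl | rfl | rfl | rfl | rfl | rfl | rfl | rfl | rfl
    · simp only [gA, fb, psx, ngx, q, p, c, x, w, Ex.ev, List.getD_cons_zero, List.getD_cons_succ, Nat.cast_ofNat, Nat.cast_one,
        Nat.cast_zero]
      linarith
    · simp only [gB, fb, psx, ngx, q, p, c, x, w, Ex.ev, List.getD_cons_zero, List.getD_cons_succ, Nat.cast_ofNat, Nat.cast_one,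
        Nat.cast_zero, mo]
      linarith
    · simp only [g1, fb, psx, ngx, q, p, c, x, w, Ex.ev, List.getD_cons_zero, List.getD_cons_succ, Nat.cast_ofNat, Nat.cast_one,
        Nat.cast_zero, mo]
      linarith
    · simp only [g2, fb, psx, ngx, q, p, c, x, w, Ex.ev, List.getD_cons_zero, List.getD_cons_succ, Nat.cast_ofNat, Nat.cast_one,
        Nat.cast_zero, mo]
      linarith
    · simp only [g3, fb, psx, ngx, q, p, c, x, w, Ex.ev, List.getD_cons_zero, List.getD_cons_succ, Nat.cast_ofNat, Nat.cast_one,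
        Nat.cast_zero, mo]
      linarith
    · simp only [g4, fb, psx, ngx, q, p, c, x, w, Ex.ev, List.getD_cons_zero, List.getD_cons_succ, Nat.cast_ofNat, Nat.cast_one,
        Nat.cast_zero, mo]
      linarith
    · simp only [g5, fb, psx, ngx, q, p, c, x, w, Ex.ev, List.getD_cons_zero, List.getD_cons_succ, Nat.cast_ofNat, Nat.cast_one,
        Nat.cast_zero, mo]
      linarith
    · simp only [g6, fb, psx, ngx, q, p, c, x, w, Ex.ev, List.getD_cons_zero, List.getD_cons_succ, Nat.cast_ofNat, Nat.cast_one,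
        Nat.cast_zero, mo]
      linarith
    · simp only [g7, fb, psx, ngx, q, p, c, x, w, Ex.ev, List.getD_cons_zero, List.getD_cons_succ, Nat.cast_ofNat, Nat.cast_one,
        Nat.cast_zero, mo]
      linarith
    · simp only [k8, fb, psx, ngx, q, p, c, x, w, Ex.ev, List.getD_cons_zero, List.getD_cons_succ, Nat.cast_ofNat, Nat.cast_one,
        Nat.cast_zero, mo]
      linarith
    · simp only [k9, fb, psx, ngx, q, p, c, x, w, Ex.ev, List.getD_cons_zero, List.getD_cons_succ, Nat.cast_ofNat, Nat.cast_one,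
        Nat.cast_zero, mo]
      linarith
    · simp only [g8, fb, psx, ngx, q, p, c, x, w, Ex.ev, List.getD_cons_zero, List.getD_cons_succ, Nat.cast_ofNat, Nat.cast_one,
        Nat.cast_zero, mo]
      linarith
    · simp only [g9, fb, psx, ngx, q, p, c, x, w, Ex.ev, List.getD_cons_zero, List.getD_cons_succ, Nat.cast_ofNat, Nat.cast_one,
        Nat.cast_zero, mo]
      linarith

end Pool.Agent.Lib.MP_f04ccf_co.CsBxER

namespace Pool.Agent.Lib.MP_f04ccf_co.CsBxE3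
open BernK BernK.Ex BernL BernL.Tr

def c : Ex := (sub (con 1) (var 0))
def x : Ex := (add (var 1) (var 5))
def w : Ex := (add (var 2) (var 5))
def p : Ex := (add (var 0) x)
def q : Ex := (add (var 0) w)
def fb : Ex := (mul (mul (mul (mul (con 150) c) (var 0)) (var 3)) q)
def psx : Ex := (add (mul (mul (mul (con 50) x) q) (var 0)) (mul (mul (mul (con 50) w) p) (var 0)))
def ngx : Ex := (add (mul (mul (mul (con 100) x) q) (var 3)) fb)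
def gA : Ex := (sub (add ngx (mul (mul (mul (con 100) w) p) (var 4))) (add (add psx (mul (mul (mul (con 100) w) p) c)) (mul (mul (con 2) p) q)))
def gB : Ex := (sub ngx (add (mul (mul (mul (con 50) x) q) (var 0)) (mul (mul (con 2) p) q)))
def g1 : Ex := (sub (add (mul (var 1) (var 2)) (var 5)) (mul (var 3) (var 4)))
def g2 : Ex := (sub (var 4) (var 3))
def g3 : Ex := (sub (sub (con 1) (var 2)) (var 4))
def g4 : Ex := (sub (sub (con 1) (var 3)) (var 4))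
def g5 : Ex := (sub (sub c x) w)
def g6 : Ex := (sub (mul (mul (mul (con 2) x) x) x) (mul (var 5) (var 5)))
def g7 : Ex := (sub (mul (mul (mul (con 2) w) w) w) (mul (var 5) (var 5)))
def k8 : Ex := (sub (var 1) (mul (con 3) (var 5)))
def k9 : Ex := (sub (var 2) (mul (con 3) (var 5)))
def g8 : Ex := (sub (con 1) (mul (con 8) x))
def mo : Ex := (mul (mul (mul (mul (mul (mul (mul (mul (mul (mul (mul (mul (mul (var 0) (var 0)) (var 0)) (var 1)) (var 1)) (var 1)) (var 2)) (var 2)) (var 2)) (var 3)) (var 4)) (var 5)) (var 5)) (var 5))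

def tr : BernL.Tr := (split 2 (split 1 (split 5 (split 0 (split 3 (split 4 (split 3 (split 4 (split 3 (split 0 (split 4 (split 5 (split 3 (split 4 (split 0 (split 5 (split 1 (split 2 (split 3 (split 4 (split 1 (split 5 (split 3 (lin [2, 2, 64, 1, 0, 0, 0, 0, 0, 1, 14]) (split 0 (lin [9, 0, 256, 7, 0, 0, 0, 0, 0, 3, 61]) (lin [417, 0, 16384, 466, 0, 0, 0, 0, 0, 234, 3843]))) (lin [106, 0, 2048, 63, 0, 0, 0, 0, 0, 81, 743])) (split 0 (lin [4, 3, 128, 4, 0, 0, 0, 0, 0, 0, 30]) (lin [1, 0, 32, 1, 0, 0, 0, 0, 0, 0, 7]))) (split 2 (lin [58, 0, 2048, 0, 0, 0, 0, 0, 0, 39, 409]) (neg 0))) (split 0 (lin [277, 0, 8192, 300, 0, 0, 0, 0, 0, 25, 1842]) (split 4 (lin [25, 0, 1024, 47, 0, 0, 0, 0, 0, 17, 225]) (lin [7, 0, 256, 7, 0, 0, 0, 0, 0, 2, 60])))) (neg 0)) (split 3 (split 0 (lin [1, 2, 32, 1, 0, 0, 0, 0, 0, 0, 7]) (lin [1, 1, 32, 1, 0, 0, 0, 0, 0,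 0, 7])) (lin [2, 0, 64, 3, 0, 0, 0, 0, 0, 0, 15]))) (split 0 (lin [7, 0, 64, 4, 0, 0, 0, 0, 0, 2, 43]) (lin [33, 0, 512, 31, 0, 0, 0, 0, 0, 15, 283]))) (split 1 (split 2 (split 5 (split 3 (split 1 (split 4 (split 0 (split 3 (lin [3, 0, 128, 2, 0, 0, 0, 0, 0, 3, 29]) (split 2 (lin [165, 0, 8192, 248, 0, 0, 0, 0, 0, 144, 1902]) (neg 0))) (split 3 (neg 0) (split 0 (lin [17, 0, 1024, 30, 0, 0, 0, 0, 0, 21, 229]) (lin [31, 0, 1994, 61, 0, 0, 0, 32768, 0, 28, 447])))) (split 0 (lin [5, 0, 256, 0, 0, 0, 0, 0, 0, 4, 57]) (lin [66, 0, 4096, 0, 0, 0, 0, 0, 0, 95, 892]))) (split 4 (lin [10, 1, 512, 16, 0, 0, 0, 0, 0, 0, 121]) (lin [3, 0, 128, 0, 0, 0, 0, 0, 0, 0, 31]))) (split 4 (split 1 (split 2 (split 0 (lin [39, 0, 2048, 97, 0, 0, 0, 0, 0, 44, 448]) (lin [234, 0, 14728, 736, 0, 0, 0, 131072, 0, 273, 3209])) (neg 0)) (lin [11, 0, 512, 34, 0, 0, 0, 0,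 0, 0, 130])) (split 0 (lin [83, 0, 4096, 128, 0, 0, 0, 0, 0, 50, 910]) (split 1 (split 1 (lin [8, 0, 579, 16, 0, 0, 0, 65536, 0, 0, 105]) (split 2 (split 2 (lin [9, 0, 553, 19, 0, 0, 0, 8192, 0, 0, 122]) (neg 0)) (neg 0))) (lin [33, 0, 2048, 71, 0, 0, 0, 0, 0, 0, 443]))))) (split 0 (split 0 (lin [13, 0, 256, 16, 0, 0, 0, 0, 0, 7, 137]) (lin [173, 0, 4096, 251, 0, 0, 0, 0, 0, 123, 2024])) (split 1 (split 1 (neg 7) (split 0 (lin [11, 0, 307, 19, 0, 0, 0, 8192, 0, 0, 143]) (split 2 (split 2 (lin [9, 0, 290, 18, 0, 0, 0, 8192, 0, 0, 130]) (neg 0)) (neg 0)))) (lin [65, 0, 2048, 126, 0, 0, 0, 0, 0, 0, 892])))) (neg 0)) (split 3 (lin [5, 4, 256, 8, 0, 0, 0, 0, 0, 0, 58]) (lin [5, 0, 256, 13, 0, 0, 0, 0, 0, 0, 60])))) (split 0 (lin [19, 0, 512, 0, 0, 0, 0, 0, 0, 5, 121]) (lin [5, 0, 256, 0, 0, 0, 0, 0, 0, 5, 52]))) (split 0 (lin [11, 0, 512, 31, 0,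 0, 0, 0, 0, 6, 68]) (lin [25, 0, 2048, 126, 0, 0, 0, 0, 0, 23, 255]))) (split 0 (split 3 (lin [11, 0, 0, 0, 0, 0, 0, 0, 0, 0, 64]) (lin [69, 0, 2048, 139, 0, 0, 0, 0, 0, 0, 434])) (split 3 (lin [14, 0, 256, 15, 0, 0, 0, 0, 0, 17, 142]) (split 4 (lin [3, 0, 0, 20, 0, 0, 0, 0, 0, 2, 32]) (lin [23, 0, 1024, 57, 0, 0, 0, 0, 0, 22, 230]))))) (split 0 (lin [11, 3, 256, 0, 0, 0, 0, 0, 0, 0, 61]) (lin [1, 0, 32, 0, 0, 0, 0, 0, 0, 0, 8]))) (split 4 (split 2 (split 5 (split 3 (split 1 (split 4 (split 0 (split 5 (split 3 (split 1 (split 4 (split 0 (split 0 (split 0 (lin [117, 6, 8143, 254, 0, 0, 0, 65536, 0, 159, 1818]) (lin [67, 0, 4797, 146, 0, 0, 0, 65536, 0, 72, 1081])) (split 1 (split 2 (lin [1157, 0, 88527, 2776, 0, 0, 0, 524288, 0, 2222, 19344]) (neg 0)) (lin [1, 0, 64, 2, 0, 0, 0, 0, 0, 0, 15]))) (split 1 (split 5 (split 0 (split 2 (lin [249,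 0, 21360, 664, 0, 0, 0, 2097152, 0, 239, 4418]) (neg 0)) (split 1 (lin [199, 0, 18563, 596, 0, 0, 0, 1048576, 0, 459, 3706]) (lin [25, 0, 2307, 76, 0, 0, 0, 262144, 0, 0, 462]))) (lin [141, 0, 12479, 387, 0, 0, 0, 2097152, 0, 0, 2503])) (lin [7, 0, 512, 16, 0, 0, 0, 0, 0, 0, 120]))) (split 0 (split 0 (lin [116, 0, 8192, 0, 0, 0, 0, 0, 0, 207, 1810]) (split 1 (lin [49, 0, 4399, 0, 0, 0, 0, 524288, 0, 0, 811]) (lin [5, 0, 352, 0, 0, 0, 0, 8192, 0, 0, 80]))) (split 1 (split 5 (lin [141, 0, 14614, 0, 0, 0, 0, 2097152, 0, 0, 2488]) (lin [141, 0, 12840, 0, 0, 0, 0, 2097152, 0, 0, 2503])) (lin [1, 0, 75, 0, 0, 0, 0, 2048, 0, 0, 17])))) (lin [493, 167, 32768, 1024, 0, 0, 0, 0, 0, 0, 7624])) (split 1 (split 4 (split 2 (split 0 (split 1 (split 2 (split 5 (lin [45, 0, 3838, 179, 0, 0, 0, 524288, 0, 0, 718]) (lin [61, 0, 3647, 227, 0, 0, 0, 1048576, 0,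 0, 980])) (neg 0)) (lin [1, 0, 64, 4, 0, 0, 0, 1024, 0, 0, 16])) (split 1 (split 2 (split 5 (lin [141, 0, 14682, 688, 0, 0, 0, 2097152, 0, 0, 2510]) (lin [141, 0, 10958, 630, 0, 0, 0, 2097152, 0, 0, 2539])) (neg 0)) (lin [41, 0, 3006, 186, 0, 0, 0, 65536, 0, 0, 722]))) (neg 0)) (split 1 (split 0 (split 5 (lin [45, 0, 6822, 106, 0, 0, 0, 524288, 0, 0, 686]) (lin [9819, 0, 845432, 26147, 0, 0, 0, 134217728, 0, 0, 149426])) (split 5 (split 2 (lin [141, 0, 18703, 391, 0, 0, 0, 2097152, 0, 0, 2464]) (neg 0)) (split 0 (lin [35, 0, 3414, 105, 0, 0, 0, 524288, 0, 0, 597]) (split 5 (lin [4507, 0, 475090, 14706, 0, 0, 0, 67108864, 0, 0, 80866]) (neg 7))))) (split 0 (split 0 (split 2 (lin [1935, 0, 141317, 4613, 0, 0, 0, 2097152, 0, 0, 29773]) (neg 0)) (split 5 (lin [5, 0, 512, 13, 0, 0, 0, 0, 0, 0, 81]) (split 3 (split 2 (split 0 (lin [21, 0, 1515, 51,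 0, 0, 0, 32768, 0, 0, 337]) (lin [85, 0, 6257, 215, 0, 0, 0, 131072, 0, 0, 1420])) (neg 0)) (lin [1, 0, 512, 24])))) (split 5 (lin [9, 0, 1024, 27, 0, 0, 0, 0, 0, 0, 153]) (split 4 (split 2 (split 3 (split 0 (split 2 (split 1 (lin [6561, 0, 524777, 19410, 0, 0, 0, 16777216, 0, 0, 115598]) (lin [7, 0, 512, 21, 0, 0, 0, 0, 0, 0, 123])) (neg 0)) (split 1 (split 4 (lin [5789, 0, 489513, 20147, 0, 0, 0, 16777216, 0, 0, 106895]) (split 2 (lin [195, 0, 16480, 594, 0, 0, 0, 524288, 0, 0, 3606]) (neg 0))) (lin [7, 0, 512, 23, 0, 0, 0, 0, 0, 0, 126]))) (lin [1, 0, 512, 24])) (neg 0)) (lin [5, 0, 686, 0, 0, 0, 0, 8192, 0, 0, 79])))))) (split 5 (lin [19, 0, 4096, 128, 0, 0, 0, 0, 0, 0, 218]) (split 4 (lin [1, 0, 0, 7, 0, 0, 0, 0, 0, 0, 16]) (split 0 (lin [28, 0, 2048, 77, 0, 0, 0, 0, 0, 0, 431]) (split 0 (lin [177, 0, 16384, 539, 0, 0, 0, 0, 0, 0, 3027])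 (split 3 (lin [7, 0, 512, 20, 0, 0, 0, 0, 0, 0, 120]) (lin [1, 0, 512, 24])))))))) (split 3 (lin [1, 0, 0, 0, 0, 0, 0, 0, 0, 0, 8]) (split 1 (split 1 (neg 7) (split 0 (split 3 (lin [85, 0, 4199, 193, 0, 0, 0, 131072, 0, 0, 1300]) (split 2 (split 2 (lin [85, 0, 6176, 323, 0, 0, 0, 131072, 0, 0, 1330]) (neg 0)) (neg 0))) (split 5 (split 2 (split 4 (lin [9, 0, 0, 76, 0, 0, 0, 16384, 0, 0, 172]) (split 4 (split 0 (lin [45, 0, 2465, 152, 0, 0, 0, 65536, 0, 0, 775]) (split 2 (split 1 (lin [41, 0, 2505, 155, 0, 0, 0, 131072, 0, 0, 758]) (lin [17, 0, 1024, 63, 0, 0, 0, 0, 0, 0, 310])) (neg 0))) (split 0 (lin [49, 0, 3959, 115, 0, 0, 0, 65536, 0, 0, 834]) (lin [171, 0, 14173, 456, 0, 0, 0, 262144, 0, 0, 3079])))) (neg 0)) (lin [339, 0, 18213, 1114, 0, 0, 0, 524288, 0, 0, 5779])))) (split 0 (lin [733, 0, 32768, 2016, 0, 0, 0, 0, 0, 0, 11349]) (split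 0 (lin [1321, 0, 65536, 4035, 0, 0, 0, 0, 0, 0, 22640]) (split 3 (lin [107, 0, 0, 0, 0, 0, 0, 0, 0, 0, 2048]) (lin [115, 0, 8192, 457, 0, 0, 0, 0, 0, 0, 2056]))))))) (split 5 (split 3 (split 1 (split 1 (split 4 (split 0 (split 5 (split 0 (split 1 (lin [161, 1, 16990, 528, 0, 0, 0, 4194304, 0, 0, 3158]) (lin [6, 0, 599, 19, 0, 0, 0, 65536, 0, 0, 112])) (lin [51, 0, 5814, 181, 0, 0, 0, 1048576, 0, 0, 1043])) (split 0 (lin [1, 0, 92, 3, 0, 0, 0, 16384, 0, 0, 19]) (lin [57, 0, 5267, 163, 0, 0, 0, 1048576, 0, 0, 1169]))) (split 5 (split 0 (lin [23, 0, 2856, 89, 0, 0, 0, 524288, 0, 0, 491]) (lin [45, 0, 5930, 186, 0, 0, 0, 1048576, 0, 0, 993])) (lin [743, 0, 66955, 2072, 0, 0, 0, 16777216, 0, 0, 16079]))) (split 5 (split 0 (split 0 (lin [63, 0, 6751, 0, 0, 0, 0, 1048576, 0, 0, 1231]) (lin [57, 0, 6880, 0, 0, 0, 0, 1048576, 0, 0, 1156])) (split 0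 (lin [13, 0, 1653, 0, 0, 0, 0, 262144, 0, 0, 273]) (lin [93, 0, 12739, 0, 0, 0, 0, 2097152, 0, 0, 2060]))) (split 0 (split 0 (lin [1, 0, 96, 0, 0, 0, 0, 16384, 0, 0, 19]) (lin [57, 0, 5844, 0, 0, 0, 0, 1048576, 0, 0, 1165])) (split 2 (lin [93, 0, 7851, 0, 0, 0, 0, 2097152, 0, 0, 2016]) (neg 0))))) (split 4 (lin [23, 0, 2082, 65, 0, 0, 0, 65536, 0, 0, 450]) (lin [23, 0, 2079, 0, 0, 0, 0, 65536, 0, 0, 449]))) (lin [1, 0, 64, 2, 0, 0, 0, 0, 0, 0, 15])) (split 1 (split 4 (split 2 (split 0 (split 1 (split 2 (split 5 (split 0 (lin [63, 0, 6769, 330, 0, 0, 0, 1048576, 0, 0, 1237]) (lin [57, 0, 6891, 328, 0, 0, 0, 1048576, 0, 0, 1160])) (split 0 (lin [35, 0, 3588, 183, 0, 0, 0, 524288, 0, 0, 692]) (lin [63, 0, 6655, 351, 0, 0, 0, 1048576, 0, 0, 1298]))) (neg 0)) (lin [7, 0, 587, 39, 0, 0, 0, 16384, 0, 0, 137])) (split 1 (split 2 (split 5 (split 0 (lin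 [51, 0, 6620, 319, 0, 0, 0, 1048576, 0, 0, 1093]) (lin [93, 0, 12748, 621, 0, 0, 0, 2097152, 0, 0, 2063])) (lin [743, 0, 54506, 5067, 0, 0, 0, 16777216, 0, 0, 16233])) (neg 0)) (lin [3, 0, 280, 21, 0, 0, 0, 8192, 0, 0, 64]))) (neg 0)) (split 1 (split 5 (split 0 (split 0 (lin [2, 0, 411, 7, 0, 0, 0, 32768, 0, 0, 37]) (lin [57, 0, 12664, 213, 0, 0, 0, 1048576, 0, 0, 1111])) (split 0 (lin [409, 0, 97653, 1663, 0, 0, 0, 8388608, 0, 0, 8373]) (lin [93, 0, 23559, 405, 0, 0, 0, 2097152, 0, 0, 1976]))) (split 0 (split 5 (split 0 (split 0 (lin [279, 0, 30706, 952, 0, 0, 0, 4194304, 0, 0, 5237]) (split 2 (split 2 (lin [3863, 0, 446003, 13810, 0, 0, 0, 67108864, 0, 0, 74489]) (neg 0)) (neg 0))) (split 1 (neg 7) (split 2 (split 0 (split 0 (lin [117, 0, 13802, 427, 0, 0, 0, 2097152, 0, 0, 2301]) (split 2 (lin [3582, 0, 431938, 13377, 0, 0, 0, 67108864,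 0, 0, 71316]) (neg 0))) (split 4 (split 3 (lin [208, 0, 26151, 810, 0, 0, 0, 4194304, 0, 0, 4264]) (lin [0, 0, 16, 1])) (lin [1, 0, 2026, 0, 0, 0, 0, 1048576]))) (neg 0)))) (neg 7)) (split 5 (split 1 (neg 7) (split 2 (split 0 (split 4 (split 2 (split 1 (neg 7) (split 3 (split 0 (split 5 (lin [963, 0, 125966, 3904, 0, 0, 0, 8388608, 0, 0, 20160]) (split 2 (lin [1509, 0, 197417, 6119, 0, 0, 0, 33554432, 0, 0, 31636]) (neg 0))) (split 0 (lin [1497, 0, 199917, 6194, 0, 0, 0, 33554432, 0, 0, 31963]) (split 5 (lin [229, 0, 31170, 966, 0, 0, 0, 2097152, 0, 0, 4940]) (lin [1301, 0, 177897, 5487, 0, 0, 0, 33554432, 0, 0, 28043])))) (lin [0, 0, 16, 1]))) (neg 0)) (lin [1, 0, 2025, 0, 0, 0, 0, 1048576])) (split 4 (split 2 (split 1 (neg 7) (split 3 (split 0 (split 5 (split 0 (lin [112, 0, 15505, 481, 0, 0, 0, 1048576, 0, 0, 2433]) (lin [873, 0, 123400,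 3826, 0, 0, 0, 8388608, 0, 0, 19180])) (split 0 (lin [2781, 0, 385778, 11960, 0, 0, 0, 67108864, 0, 0, 60540]) (split 4 (lin [2689, 0, 380136, 11786, 0, 0, 0, 67108864, 0, 0, 59207]) (lin [13, 0, 3622, 0, 0, 0, 0, 524288, 0, 0, 265])))) (split 4 (split 3 (split 2 (lin [1261, 0, 152742, 5734, 0, 0, 0, 16777216, 0, 0, 28477]) (neg 0)) (lin [0, 0, 16, 1, 0, 0, 0, 8192])) (lin [3, 0, 769, 0, 0, 0, 0, 262144, 0, 0, 63]))) (lin [0, 0, 16, 1]))) (neg 0)) (lin [1, 0, 2026, 0, 0, 0, 0, 1048576]))) (neg 0))) (neg 7)))) (split 5 (lin [185, 0, 32768, 658, 0, 0, 0, 0, 0, 0, 3383]) (split 0 (split 4 (split 2 (split 3 (split 1 (split 0 (split 2 (split 4 (split 0 (lin [49, 0, 4310, 178, 0, 0, 0, 131072, 0, 0, 950]) (lin [643, 0, 58450, 2463, 0, 0, 0, 2097152, 0, 0, 12785])) (split 0 (lin [11, 0, 984, 35, 0, 0, 0, 32768, 0, 0, 212]) (split 2 (split 1 (lin [457,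 0, 44348, 1507, 0, 0, 0, 2097152, 0, 0, 9078]) (lin [3, 0, 256, 10, 0, 0, 0, 0, 0, 0, 60])) (neg 0)))) (neg 0)) (split 2 (split 2 (split 2 (lin [1, 0, 112, 5, 0, 0, 0, 0, 131072]) (lin [1, 0, 43, 3, 0, 0, 0, 4096])) (neg 0)) (neg 0))) (split 0 (lin [205, 0, 16384, 744, 0, 0, 0, 0, 0, 0, 3935]) (lin [385, 0, 32768, 1520, 0, 0, 0, 0, 0, 0, 7729]))) (lin [1, 0, 1024, 48])) (neg 0)) (lin [61, 0, 10204, 0, 0, 0, 0, 131072, 0, 0, 1075])) (split 2 (split 4 (split 3 (split 2 (split 1 (split 0 (split 2 (split 2 (lin [1, 0, 116, 5, 0, 0, 0, 0, 131072]) (lin [1, 0, 42, 3, 0, 0, 0, 4096])) (neg 0)) (split 2 (split 2 (lin [1, 0, 120, 6, 0, 0, 0, 0, 131072]) (lin [1, 0, 42, 3, 0, 0, 0, 4096])) (neg 0))) (split 0 (split 2 (lin [719, 0, 65536, 3032, 0, 0, 0, 0, 0, 0, 15367]) (neg 0)) (split 2 (split 2 (lin [1, 0, 121, 6, 0, 0, 0, 0, 131072]) (neg 0)) (neg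 0)))) (neg 0)) (lin [1, 0, 1024, 48])) (split 2 (lin [195, 0, 38127, 0, 0, 0, 0, 524288, 0, 0, 3851]) (neg 0))) (neg 0)))))) (split 5 (lin [7, 0, 2048, 64, 0, 0, 0, 0, 0, 0, 89]) (split 3 (split 0 (split 4 (lin [1, 0, 0, 8, 0, 0, 0, 0, 0, 0, 16]) (split 2 (lin [3163, 0, 262144, 10979, 0, 0, 0, 0, 0, 0, 60512]) (neg 0))) (split 1 (split 4 (lin [3, 0, 0, 26, 0, 0, 0, 0, 0, 0, 64]) (split 0 (lin [93, 0, 8192, 348, 0, 0, 0, 0, 0, 0, 1904]) (lin [357, 0, 32768, 1425, 0, 0, 0, 0, 0, 0, 7600]))) (lin [49, 0, 4096, 185, 0, 0, 0, 0, 0, 0, 1000]))) (lin [7, 0, 4096, 192]))))) (split 3 (lin [1, 0, 0, 0, 0, 0, 0, 0, 0, 0, 16]) (split 1 (split 1 (neg 7) (split 2 (split 4 (lin [1, 0, 0, 8, 0, 0, 0, 2048, 0, 0, 18]) (split 0 (split 5 (split 4 (split 5 (split 3 (split 0 (split 1 (split 2 (lin [21, 0, 1628, 75, 0, 0, 0, 65536, 0, 0, 409]) (neg 0)) (lin [13,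 0, 1024, 47, 0, 0, 0, 0, 0, 0, 247])) (split 1 (split 0 (split 2 (lin [159, 0, 12859, 595, 0, 0, 0, 524288, 0, 0, 3204]) (neg 0)) (split 1 (neg 7) (split 2 (split 2 (lin [351, 0, 29812, 1379, 0, 0, 0, 1048576, 0, 0, 7289]) (neg 0)) (neg 0)))) (lin [24, 0, 2048, 94, 0, 0, 0, 0, 0, 0, 483]))) (split 2 (split 0 (lin [4, 0, 362, 18, 0, 0, 0, 8192, 0, 0, 77]) (split 1 (split 2 (lin [19, 0, 1854, 90, 0, 0, 0, 65536, 11843, 0, 381]) (neg 0)) (lin [3, 0, 256, 14, 0, 0, 0, 0, 0, 0, 61]))) (neg 0))) (lin [1, 0, 0, 8, 0, 0, 0, 2048, 0, 0, 20])) (split 0 (split 1 (split 2 (lin [51, 0, 5041, 138, 0, 0, 0, 262144, 0, 0, 976]) (neg 0)) (split 2 (split 2 (lin [23, 0, 2263, 60, 0, 0, 0, 23854, 262144, 0, 251]) (neg 0)) (neg 0))) (split 2 (split 2 (split 2 (neg 8) (lin [1, 0, 95, 0, 0, 0, 0, 2633, 16384])) (neg 0)) (neg 0)))) (split 0 (lin [151, 0, 8851, 542,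 0, 0, 0, 262144, 0, 0, 2835]) (split 2 (split 1 (neg 7) (lin [85, 0, 5449, 334, 0, 0, 0, 131072, 0, 0, 1695])) (neg 0)))) (split 5 (split 2 (split 4 (split 5 (split 3 (split 0 (split 1 (split 1 (neg 7) (split 2 (split 2 (neg 8) (neg 0)) (neg 0))) (split 2 (lin [361, 0, 32768, 1516, 0, 0, 0, 0, 0, 0, 7739]) (neg 0))) (split 1 (split 1 (neg 7) (split 2 (split 2 (neg 8) (neg 0)) (neg 0))) (split 2 (split 2 (neg 8) (neg 0)) (neg 0)))) (split 0 (split 1 (split 2 (split 0 (lin [295, 0, 29691, 1450, 0, 0, 0, 1048576, 0, 0, 6208]) (split 1 (neg 7) (split 2 (neg 8) (lin [1, 0, 105, 5, 0, 0, 0, 16235, 16384])))) (neg 0)) (split 2 (lin [725, 0, 65536, 3621, 0, 0, 0, 0, 0, 0, 15555]) (neg 0))) (split 1 (split 2 (split 0 (split 1 (neg 7) (split 2 (neg 8) (lin [1, 0, 107, 5, 0, 0, 0, 16298, 16384]))) (split 1 (neg 7) (split 2 (neg 8) (lin [1, 0, 108, 5,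 0, 0, 0, 16363, 16384])))) (neg 0)) (split 2 (split 0 (split 1 (split 2 (neg 8) (lin [1, 0, 89, 4, 0, 0, 0, 0, 16384])) (lin [11, 0, 1024, 57, 0, 0, 0, 0, 0, 0, 240])) (split 1 (split 2 (neg 8) (lin [1, 0, 90, 4, 0, 0, 0, 0, 16384])) (lin [43, 0, 4096, 230, 0, 0, 0, 0, 0, 0, 961]))) (neg 0))))) (lin [13, 0, 0, 118, 0, 0, 0, 32768, 0, 0, 283])) (split 2 (split 2 (neg 8) (lin [1, 0, 88, 4, 0, 0, 0, 2137, 16384])) (neg 0))) (neg 0)) (split 1 (neg 7) (split 2 (split 2 (lin [5, 0, 359, 22, 0, 0, 0, 5698, 131072]) (neg 0)) (neg 0)))))) (neg 0))) (split 0 (split 1 (split 5 (split 2 (split 3 (lin [14, 0, 1024, 47, 0, 0, 0, 0, 0, 0, 269]) (split 0 (lin [51, 0, 4096, 227, 0, 0, 0, 0, 0, 0, 964]) (split 4 (neg 3) (lin [49, 0, 4096, 215, 0, 0, 0, 0, 0, 0, 963])))) (neg 0)) (split 2 (lin [127, 0, 8192, 502, 0, 0, 0, 0, 0, 0, 2445]) (neg 0))) (lin [1, 0,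 64, 4, 0, 0, 0, 0, 0, 0, 19])) (split 1 (split 2 (split 4 (lin [3, 0, 0, 26, 0, 0, 0, 0, 0, 0, 64]) (split 3 (split 2 (lin [99, 0, 8192, 378, 0, 0, 0, 0, 0, 0, 2076]) (neg 0)) (split 0 (split 4 (lin [193, 0, 16384, 970, 0, 0, 0, 0, 0, 0, 4036]) (lin [47, 0, 4096, 204, 0, 0, 0, 0, 0, 0, 960])) (split 4 (lin [3, 0, 256, 19, 0, 0, 0, 0, 0, 0, 63]) (split 2 (split 2 (lin [43, 0, 4170, 200, 0, 0, 0, 0, 131072, 0, 831]) (neg 0)) (neg 0)))))) (neg 0)) (split 2 (lin [219, 0, 16384, 1011, 0, 0, 0, 0, 0, 0, 4549]) (neg 0)))))))) (split 0 (split 1 (lin [49, 0, 4217, 0, 0, 0, 0, 131072, 0, 0, 730]) (lin [7, 0, 512, 0, 0, 0, 0, 0, 0, 0, 106])) (split 0 (split 1 (lin [17, 0, 1874, 0, 0, 0, 0, 65536, 0, 0, 301]) (lin [13, 0, 1024, 0, 0, 0, 0, 0, 0, 0, 239])) (split 1 (split 2 (lin [277, 0, 30780, 0, 0, 0, 0, 1048576, 0, 0, 5621]) (neg 0)) (split 2 (lin [45,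 0, 4096, 0, 0, 0, 0, 0, 0, 0, 925]) (neg 0)))))) (split 4 (split 3 (lin [1, 0, 64, 2, 0, 0, 0, 0, 0, 0, 15]) (split 0 (lin [244, 0, 16384, 899, 0, 0, 0, 0, 0, 0, 3859]) (lin [201, 0, 16384, 955, 0, 0, 0, 0, 0, 0, 3813]))) (split 0 (lin [1, 0, 64, 0, 0, 0, 0, 0, 0, 0, 15]) (lin [5, 0, 512, 0, 0, 0, 0, 0, 0, 0, 87])))) (split 1 (split 0 (split 4 (split 1 (lin [59, 0, 4888, 352, 0, 0, 0, 131072, 0, 0, 896]) (lin [14, 0, 1024, 79, 0, 0, 0, 0, 0, 0, 212])) (split 1 (lin [9, 0, 755, 19, 0, 0, 0, 16384, 0, 0, 137]) (lin [13, 0, 1024, 31, 0, 0, 0, 0, 0, 0, 194]))) (split 5 (lin [1, 0, 256, 16]) (split 4 (split 1 (split 2 (split 0 (lin [125, 0, 11481, 849, 0, 0, 0, 262144, 0, 0, 2364]) (lin [1161, 0, 128015, 9458, 0, 0, 0, 4194304, 0, 0, 23585])) (neg 0)) (split 2 (split 0 (lin [6, 0, 512, 41, 0, 0, 0, 0, 0, 0, 115]) (lin [45, 0, 4096, 339, 0, 0, 0,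 0, 0, 0, 924])) (neg 0))) (split 1 (split 0 (lin [7, 0, 743, 24, 0, 0, 0, 32768, 0, 0, 124]) (split 2 (lin [1161, 0, 128015, 4052, 0, 0, 0, 4194304, 0, 0, 23585]) (neg 0))) (split 0 (lin [9, 0, 1024, 33, 0, 0, 0, 0, 0, 0, 159]) (split 2 (lin [21, 0, 2048, 89, 0, 0, 0, 0, 0, 0, 429]) (neg 0))))))) (split 0 (lin [35, 0, 4096, 252, 0, 0, 0, 0, 0, 0, 421]) (split 4 (lin [25, 0, 2048, 187, 0, 0, 0, 0, 0, 0, 469]) (lin [11, 0, 1024, 43, 0, 0, 0, 0, 0, 0, 191]))))) (split 3 (split 1 (split 1 (neg 7) (split 0 (lin [67, 0, 104, 0, 0, 0, 0, 0, 0, 0, 1024]) (split 0 (lin [7, 0, 12, 0, 0, 0, 0, 0, 0, 0, 128]) (split 4 (lin [3, 0, 0, 0, 0, 0, 0, 0, 0, 0, 64]) (lin [71, 0, 4096, 0, 0, 0, 0, 0, 0, 0, 1479]))))) (lin [61, 0, 120, 0, 0, 0, 0, 0, 0, 0, 1024])) (split 4 (split 1 (split 0 (split 1 (neg 7) (lin [1, 0, 0, 8, 0, 0, 0, 0, 0, 0, 16])) (split 1 (neg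 7) (split 2 (split 5 (split 0 (lin [13, 0, 0, 115, 0, 0, 0, 0, 0, 0, 256]) (lin [3, 0, 0, 31, 0, 0, 0, 0, 0, 0, 64])) (lin [3, 0, 0, 30, 0, 0, 0, 1024, 0, 0, 60])) (neg 0)))) (lin [7, 0, 0, 85, 0, 0, 0, 0, 0, 0, 128])) (split 0 (split 2 (lin [7, 0, 512, 23, 0, 0, 0, 0, 0, 13, 112]) (neg 0)) (split 1 (split 1 (neg 7) (split 0 (lin [37, 0, 2953, 133, 0, 0, 0, 8192, 0, 0, 659]) (split 2 (split 2 (lin [2, 0, 173, 9, 0, 0, 0, 512, 0, 0, 41]) (lin [1, 0, 32, 4, 0, 0, 0, 512])) (neg 0)))) (lin [49, 0, 4096, 244, 0, 0, 0, 0, 0, 0, 852])))))) (neg 0)) (lin [33, 0, 2048, 0, 0, 0, 0, 0, 0, 42, 412]))) (lin [1, 0, 128, 16])) (split 0 (lin [14, 0, 256, 0, 0, 0, 0, 0, 0, 8, 51]) (lin [26, 1, 1024, 0, 0, 0, 0, 0, 0, 54, 200]))) (lin [0, 0, 4, 1])) (split 4 (split 0 (split 0 (lin [47, 0, 512, 0, 0, 0, 0, 0, 0, 28, 84]) (lin [29, 0, 512, 0, 0, 0, 0, 0, 0, 37,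 79])) (split 1 (lin [293, 0, 8192, 0, 0, 0, 0, 0, 0, 1181, 945]) (lin [17, 0, 512, 0, 0, 0, 0, 0, 0, 0, 57]))) (split 0 (split 2 (split 0 (split 4 (lin [147, 0, 1024, 0, 0, 0, 0, 0, 0, 80, 131]) (split 2 (split 0 (lin [0, 32, 128, 0, 0, 0, 0, 0, 0, 15, 6]) (lin [0, 3, 16, 0, 0, 0, 0, 0, 0, 3, 1])) (split 1 (lin [11, 0, 64, 0, 9, 0, 0, 0, 0, 13]) (lin [79, 0, 512, 0, 63])))) (split 4 (lin [47, 0, 512, 0, 0, 0, 0, 0, 0, 59, 53]) (split 1 (lin [0, 223, 2048, 0, 0, 0, 0, 0, 0, 255, 68]) (lin [0, 25, 256])))) (split 1 (lin [5, 0, 64, 0, 8, 0, 0, 0, 0, 11]) (lin [9, 0, 128, 0, 16]))) (split 2 (split 1 (split 3 (split 0 (lin [0, 9, 128, 0, 0, 0, 0, 0, 0, 28]) (lin [0, 7, 128, 0, 0, 0, 0, 0, 0, 34])) (neg 2)) (split 3 (lin [0, 27, 512]) (neg 2))) (split 1 (lin [6, 5, 256, 0, 18, 0, 0, 0, 0, 19]) (lin [375, 279, 16384, 0, 1128])))))) (lin [0, 0, 2,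 1])) (split 3 (split 4 (split 4 (split 3 (split 3 (split 4 (split 2 (split 0 (split 5 (split 3 (split 1 (split 4 (split 0 (split 1 (split 3 (split 5 (split 1 (split 5 (split 4 (split 0 (lin [75, 0, 10838, 340, 0, 0, 0, 2097152, 0, 0, 1719]) (lin [2, 0, 327, 10, 0, 0, 0, 65536, 0, 0, 49])) (lin [561, 0, 88928, 0, 0, 0, 0, 16777216, 0, 0, 12860])) (split 0 (split 2 (lin [1249, 0, 100882, 3115, 0, 0, 0, 33554432, 0, 0, 28268]) (neg 0)) (lin [35, 0, 3036, 94, 0, 0, 0, 1048576, 0, 0, 837]))) (lin [21, 0, 2048, 64, 0, 0, 0, 0, 0, 0, 470])) (lin [1, 0, 0, 0, 0, 0, 0, 0, 0, 0, 16])) (split 4 (split 2 (split 5 (split 0 (split 1 (split 2 (split 5 (lin [39, 0, 5873, 295, 0, 0, 0, 1048576, 0, 0, 899]) (lin [19, 0, 1302, 159, 0, 0, 0, 524288, 0, 0, 450])) (neg 0)) (lin [5, 0, 514, 42, 0, 0, 0, 16384, 0, 0, 117])) (split 1 (split 2 (split 5 (lin [35, 0,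 5182, 284, 0, 0, 0, 1048576, 0, 0, 861]) (lin [39, 0, 3712, 339, 0, 0, 0, 1048576, 0, 0, 977])) (neg 0)) (lin [17, 0, 1859, 159, 0, 0, 0, 65536, 0, 0, 418]))) (lin [3, 0, 0, 34, 0, 0, 0, 0, 0, 10, 64])) (neg 0)) (split 2 (split 1 (split 5 (split 5 (lin [565, 0, 122871, 2777, 0, 0, 0, 16777216, 0, 0, 12710]) (split 0 (split 5 (split 1 (neg 7) (split 4 (split 0 (split 2 (split 1 (neg 7) (split 3 (split 0 (split 4 (split 5 (split 2 (lin [795, 0, 120857, 3748, 0, 0, 0, 8388608, 0, 0, 18123]) (neg 0)) (split 2 (split 2 (lin [1, 0, 147, 4, 0, 0, 0, 9426, 131072]) (lin [1, 0, 124, 4, 0, 0, 0, 8192])) (neg 0))) (lin [3, 0, 765, 0, 0, 0, 0, 262144, 0, 0, 62])) (split 5 (split 0 (lin [3109, 0, 480899, 14914, 0, 0, 0, 33554432, 0, 0, 71401]) (lin [95, 0, 14949, 464, 0, 0, 0, 1048576, 0, 0, 2200])) (split 4 (split 2 (split 2 (lin [1, 0, 150, 4, 0, 0, 0,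 9578, 131072]) (lin [1, 0, 123, 4, 0, 0, 0, 8192])) (neg 0)) (lin [3, 0, 889, 0, 0, 0, 0, 131072, 0, 0, 62])))) (lin [0, 0, 16, 1]))) (neg 0)) (split 2 (split 1 (neg 7) (split 3 (split 0 (split 5 (split 0 (lin [1489, 0, 238298, 7391, 0, 0, 0, 16777216, 0, 0, 34780]) (lin [183, 0, 29751, 923, 0, 0, 0, 2097152, 0, 0, 4307])) (split 0 (split 4 (lin [4211, 0, 674041, 20905, 0, 0, 0, 134217728, 0, 0, 98625]) (lin [3, 0, 885, 0, 0, 0, 0, 131072, 0, 0, 61])) (split 4 (lin [16, 0, 2602, 81, 0, 0, 0, 524288, 0, 0, 378]) (lin [3, 0, 883, 0, 0, 0, 0, 131072, 0, 0, 60])))) (split 5 (split 0 (lin [45, 0, 7433, 231, 0, 0, 0, 524288, 0, 0, 1068]) (lin [177, 0, 29708, 922, 0, 0, 0, 2097152, 0, 0, 4234])) (split 0 (lin [993, 0, 164179, 5093, 0, 0, 0, 33554432, 0, 0, 23581]) (lin [967, 0, 162392, 5038, 0, 0, 0, 33554432, 0, 0, 23143])))) (lin [0, 0, 16, 1])))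 (neg 0))) (lin [1, 0, 1878, 0, 0, 0, 0, 16384]))) (neg 7)) (split 5 (split 1 (neg 7) (split 0 (split 4 (split 2 (split 1 (neg 7) (split 3 (split 0 (split 5 (lin [87, 0, 15037, 467, 0, 0, 0, 1048576, 0, 0, 2095]) (split 0 (lin [499, 0, 85125, 2641, 0, 0, 0, 16777216, 0, 0, 12038]) (lin [243, 0, 42131, 1307, 0, 0, 0, 8388608, 0, 0, 5913]))) (split 5 (lin [167, 0, 29766, 924, 0, 0, 0, 2097152, 0, 0, 4089]) (lin [115, 0, 20507, 636, 0, 0, 0, 4194304, 0, 0, 2817]))) (lin [0, 0, 16, 1]))) (neg 0)) (lin [1, 0, 1685, 0, 0, 0, 0, 16384])) (split 4 (split 2 (split 5 (lin [503, 0, 94936, 2946, 0, 0, 0, 8388608, 0, 0, 12485]) (split 0 (lin [409, 0, 75227, 2334, 0, 0, 0, 16777216, 0, 0, 10078]) (lin [437, 0, 82794, 2569, 0, 0, 0, 16777216, 0, 0, 10939]))) (neg 0)) (lin [1, 0, 1601, 0, 0, 0, 0, 16384])))) (neg 7)))) (neg 7)) (split 5 (split 5 (lin [19, 0,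 4096, 92, 0, 0, 0, 0, 0, 0, 413]) (split 3 (split 0 (split 4 (split 2 (split 1 (split 0 (split 2 (split 2 (lin [1, 0, 124, 6, 0, 0, 0, 0, 131072]) (lin [1, 0, 41, 3, 0, 0, 0, 4096])) (neg 0)) (split 2 (split 2 (lin [1, 0, 127, 6, 0, 0, 0, 0, 131072]) (lin [1, 0, 78, 4, 0, 0, 0, 3168, 16384])) (neg 0))) (split 0 (split 5 (split 0 (lin [35, 0, 4096, 166, 0, 0, 0, 0, 0, 0, 794]) (lin [135, 0, 16384, 664, 0, 0, 0, 0, 0, 0, 3123])) (split 1 (split 2 (split 2 (neg 8) (neg 0)) (neg 0)) (lin [10, 0, 1024, 49, 0, 0, 0, 0, 0, 0, 227]))) (split 5 (split 0 (lin [131, 0, 16384, 664, 0, 0, 0, 0, 0, 0, 3075]) (lin [4, 0, 512, 21, 0, 0, 0, 0, 0, 0, 95])) (split 1 (split 2 (split 2 (neg 8) (neg 0)) (neg 0)) (lin [583, 0, 65536, 3035, 0, 0, 0, 0, 0, 0, 13638]))))) (neg 0)) (split 0 (lin [39, 0, 8084, 0, 0, 0, 0, 131072, 0, 0, 806]) (lin [141, 0, 31407, 0, 0,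 0, 0, 524288, 0, 0, 3033]))) (split 4 (split 1 (split 2 (split 0 (split 2 (split 2 (lin [1, 0, 131, 6, 0, 0, 0, 0, 131072]) (lin [1, 0, 80, 4, 0, 0, 0, 3417, 16384])) (neg 0)) (split 2 (split 2 (lin [1, 0, 134, 6, 0, 0, 0, 0, 131072]) (lin [1, 0, 81, 4, 0, 0, 0, 3644, 16384])) (neg 0))) (neg 0)) (split 5 (split 0 (split 0 (lin [421, 0, 65536, 2274, 0, 0, 0, 0, 0, 0, 10108]) (lin [205, 0, 32768, 1140, 0, 0, 0, 0, 0, 0, 4996])) (lin [1617, 0, 262144, 9442, 0, 0, 0, 0, 0, 0, 40108])) (split 0 (split 2 (split 1 (split 2 (split 2 (neg 8) (neg 0)) (neg 0)) (lin [2199, 0, 262144, 12143, 0, 0, 0, 0, 0, 0, 53069])) (neg 0)) (split 1 (split 2 (split 2 (split 2 (neg 8) (neg 0)) (neg 0)) (neg 0)) (lin [8327, 0, 1048576, 48582, 0, 0, 0, 0, 0, 0, 206160]))))) (split 0 (lin [517, 0, 122033, 0, 0, 0, 0, 2097152, 0, 0, 11439]) (lin [119, 0, 29637, 0, 0, 0,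 0, 524288, 0, 0, 2702])))) (lin [1, 0, 1024, 48]))) (split 0 (split 5 (split 2 (split 4 (split 5 (split 3 (split 1 (split 1 (neg 7) (split 0 (split 2 (split 2 (neg 8) (neg 0)) (neg 0)) (split 2 (split 2 (neg 8) (neg 0)) (neg 0)))) (split 0 (split 2 (split 2 (neg 8) (neg 0)) (neg 0)) (split 2 (split 2 (neg 8) (neg 0)) (neg 0)))) (split 0 (split 1 (split 2 (split 0 (split 1 (neg 7) (split 2 (neg 8) (lin [1, 0, 110, 5, 0, 0, 0, 15804, 16384]))) (split 1 (neg 7) (split 2 (neg 8) (lin [1, 0, 111, 5, 0, 0, 0, 15869, 16384])))) (neg 0)) (split 2 (split 0 (split 1 (split 2 (neg 8) (lin [1, 0, 92, 4, 0, 0, 0, 0, 16384])) (lin [21, 0, 2048, 116, 0, 0, 0, 0, 0, 0, 480])) (split 1 (split 2 (neg 8) (lin [1, 0, 94, 4, 0, 0, 0, 0, 16384])) (lin [41, 0, 4096, 236, 0, 0, 0, 0, 0, 0, 959]))) (neg 0))) (split 1 (split 2 (split 0 (split 1 (neg 7) (split 2 (neg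 8) (lin [1, 0, 113, 5, 0, 0, 0, 15935, 16384]))) (split 1 (neg 7) (split 2 (neg 8) (lin [1, 0, 114, 5, 0, 0, 0, 16003, 16384])))) (neg 0)) (split 2 (split 0 (split 1 (split 2 (neg 8) (lin [1, 0, 95, 4, 0, 0, 0, 0, 16384])) (lin [81, 0, 8192, 484, 0, 0, 0, 0, 0, 0, 1915])) (split 1 (split 2 (neg 8) (lin [1, 0, 96, 4, 0, 0, 0, 0, 16384])) (lin [10, 0, 1024, 62, 0, 0, 0, 0, 0, 0, 239]))) (neg 0))))) (lin [21, 0, 0, 220, 0, 0, 0, 65536, 0, 0, 503])) (split 2 (split 2 (neg 8) (lin [1, 0, 92, 5, 0, 0, 0, 2611, 16384])) (neg 0))) (neg 0)) (split 1 (neg 7) (split 2 (split 2 (lin [9, 0, 764, 47, 0, 0, 0, 15270, 262144]) (neg 0)) (neg 0)))) (split 5 (split 2 (split 2 (split 2 (neg 8) (lin [13, 0, 1604, 69, 0, 0, 0, 0, 262144])) (neg 0)) (neg 0)) (split 1 (neg 7) (split 2 (split 2 (lin [17, 0, 1567, 101, 0, 0, 0, 51291, 524288]) (neg 0)) (neg 0)))))))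 (neg 0)))) (split 3 (lin [1, 0, 64, 2, 0, 0, 0, 0, 0, 0, 15]) (split 2 (split 1 (split 4 (lin [21, 0, 2048, 153, 0, 0, 0, 0, 0, 0, 482]) (split 0 (split 5 (split 3 (split 0 (lin [343, 0, 32768, 1455, 0, 0, 0, 0, 0, 0, 7596]) (lin [331, 0, 32768, 1485, 0, 0, 0, 0, 0, 0, 7575])) (lin [1, 0, 1024, 48])) (split 3 (split 0 (lin [181, 0, 16384, 757, 0, 0, 0, 0, 0, 0, 4018]) (lin [21, 0, 2048, 95, 0, 0, 0, 0, 0, 0, 483])) (split 1 (split 4 (lin [167, 0, 16384, 1137, 0, 0, 0, 0, 0, 0, 3785]) (split 0 (split 2 (split 2 (lin [47, 0, 5345, 222, 0, 0, 0, 0, 524288, 0, 664]) (neg 0)) (neg 0)) (split 2 (split 2 (lin [35, 0, 4253, 179, 0, 0, 0, 0, 524288, 0, 419]) (neg 0)) (neg 0)))) (split 0 (lin [89, 0, 8192, 471, 0, 0, 0, 0, 0, 0, 1963]) (lin [167, 0, 16384, 939, 0, 0, 0, 0, 0, 0, 3795]))))) (split 5 (split 3 (split 0 (lin [10, 0, 1024, 47, 0, 0, 0, 0,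 0, 0, 236]) (lin [155, 0, 16384, 770, 0, 0, 0, 0, 0, 0, 3766])) (lin [1, 0, 1024, 48])) (split 3 (split 0 (lin [161, 0, 16384, 757, 0, 0, 0, 0, 0, 0, 3807]) (lin [77, 0, 8192, 379, 0, 0, 0, 0, 0, 0, 1879])) (split 1 (split 2 (split 2 (split 2 (neg 8) (lin [1, 0, 85, 4, 0, 0, 0, 0, 16384])) (neg 0)) (neg 0)) (split 0 (split 2 (lin [10, 0, 1024, 60, 0, 0, 0, 0, 0, 0, 237]) (neg 0)) (split 2 (lin [155, 0, 16384, 969, 0, 0, 0, 0, 0, 0, 3789]) (neg 0)))))))) (split 0 (split 4 (lin [3, 0, 256, 18, 0, 0, 0, 0, 0, 0, 59]) (split 5 (lin [159, 0, 16384, 834, 0, 0, 0, 0, 0, 0, 3550]) (lin [171, 0, 16384, 898, 0, 0, 0, 0, 0, 0, 3812]))) (split 0 (lin [161, 0, 16384, 952, 0, 0, 0, 0, 0, 0, 3786]) (lin [39, 0, 4096, 240, 0, 0, 0, 0, 0, 0, 942])))) (neg 0)))) (split 1 (split 3 (split 5 (split 0 (split 1 (split 4 (lin [563, 0, 96125, 2991, 0, 0, 0, 16777216,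 0, 0, 14841]) (lin [563, 0, 96125, 0, 0, 0, 0, 16777216, 0, 0, 14841])) (lin [1, 0, 102, 3, 0, 0, 0, 4096, 0, 0, 23])) (split 1 (lin [24, 0, 3257, 101, 0, 0, 0, 32768, 0, 149, 638]) (lin [1, 0, 94, 3, 0, 0, 0, 4096, 0, 0, 21]))) (lin [1, 0, 0, 0, 0, 0, 0, 0, 0, 0, 16])) (split 2 (split 4 (split 5 (split 0 (split 1 (lin [563, 0, 96125, 5138, 0, 0, 0, 16777216, 0, 0, 14841]) (lin [2, 0, 212, 19, 0, 0, 0, 8192, 0, 0, 47])) (lin [15, 0, 2048, 169, 0, 0, 0, 0, 0, 96, 413])) (lin [5, 0, 0, 65, 0, 0, 0, 0, 0, 27, 128])) (split 1 (split 5 (split 5 (lin [1, 0, 257, 6, 0, 0, 0, 32768, 0, 0, 25]) (split 0 (split 5 (split 0 (split 0 (lin [2981, 0, 580466, 18006, 0, 0, 0, 134217728, 0, 0, 74730]) (lin [43, 0, 8742, 266, 0, 0, 0, 2097152, 0, 0, 1090])) (lin [79, 0, 16836, 513, 0, 0, 0, 4194304, 0, 0, 2027])) (neg 7)) (lin [6973, 0, 1585298, 49204, 0, 0,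 0, 536870912, 0, 0, 183883]))) (neg 7)) (split 5 (split 5 (lin [1, 0, 256, 6, 0, 0, 0, 0, 0, 0, 25]) (split 3 (split 0 (split 4 (split 1 (split 2 (split 0 (split 2 (split 2 (lin [1, 0, 137, 6, 0, 0, 0, 0, 131072]) (lin [1, 0, 82, 4, 0, 0, 0, 3764, 16384])) (neg 0)) (split 2 (split 2 (lin [1, 0, 140, 6, 0, 0, 0, 0, 131072]) (lin [1, 0, 83, 4, 0, 0, 0, 3915, 16384])) (neg 0))) (neg 0)) (split 5 (lin [391, 0, 65536, 2462, 0, 0, 0, 0, 0, 0, 9991]) (split 0 (split 1 (split 2 (split 2 (split 2 (neg 8) (neg 0)) (neg 0)) (neg 0)) (lin [31, 0, 4096, 190, 0, 0, 0, 0, 0, 0, 787])) (split 1 (split 2 (split 5 (split 2 (lin [1887, 0, 262144, 12167, 0, 0, 0, 0, 0, 0, 49947]) (neg 0)) (split 2 (split 2 (neg 8) (neg 0)) (neg 0))) (neg 0)) (lin [8, 0, 1024, 51, 0, 0, 0, 0, 0, 0, 209]))))) (split 0 (lin [55, 0, 14395, 0, 0, 0, 0, 262144, 0, 0, 1279]) (lin [51,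 0, 13982, 0, 0, 0, 0, 262144, 0, 0, 1213]))) (split 4 (split 1 (split 2 (split 0 (split 5 (split 3 (lin [1, 0, 154, 6, 0, 0, 0, 8192, 0, 0, 27]) (lin [1, 0, 2048, 80])) (split 2 (split 2 (neg 8) (lin [1, 0, 94, 5, 0, 0, 0, 4771, 16384])) (neg 0))) (split 5 (split 3 (lin [17, 0, 2622, 105, 0, 0, 0, 131072, 0, 0, 469]) (lin [1, 0, 2048, 80])) (split 2 (split 2 (neg 8) (lin [1, 0, 95, 5, 0, 0, 0, 4819, 16384])) (neg 0)))) (neg 0)) (split 0 (split 5 (lin [11, 0, 2048, 71, 0, 0, 0, 0, 0, 0, 284]) (split 2 (split 5 (lin [113, 0, 16384, 761, 0, 0, 0, 0, 0, 0, 3043]) (split 1 (split 0 (split 2 (split 2 (neg 8) (neg 0)) (neg 0)) (split 2 (split 2 (neg 8) (neg 0)) (neg 0))) (lin [15, 0, 2048, 100, 0, 0, 0, 0, 0, 0, 399]))) (neg 0))) (split 0 (lin [3465, 0, 524288, 24309, 0, 0, 0, 0, 0, 0, 95755]) (lin [53, 0, 8192, 380, 0, 0, 0, 0, 0, 0, 1482])))) (lin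 [177, 0, 51924, 0, 0, 0, 0, 1048576, 0, 0, 4318]))) (lin [1, 0, 1024, 48]))) (split 0 (split 2 (split 5 (split 2 (split 2 (neg 8) (lin [3, 0, 367, 19, 0, 0, 0, 12073, 65536])) (lin [1, 0, 88, 6, 0, 0, 0, 4096])) (split 2 (lin [129, 0, 13372, 819, 0, 0, 0, 543596, 4194304]) (neg 0))) (neg 0)) (split 2 (split 5 (split 2 (split 2 (neg 8) (lin [3, 0, 374, 19, 0, 0, 0, 19502, 65536])) (lin [1, 0, 91, 6, 0, 0, 0, 4096])) (split 2 (lin [31, 0, 3530, 217, 0, 0, 0, 147700, 1048576]) (neg 0))) (neg 0)))))) (neg 0))) (split 3 (lin [1, 0, 64, 2, 0, 0, 0, 0, 0, 0, 15]) (split 1 (split 2 (split 4 (lin [9, 0, 1024, 104, 0, 0, 0, 0, 0, 0, 240]) (split 0 (split 5 (split 3 (lin [9, 0, 1024, 47, 0, 0, 0, 0, 0, 0, 223]) (lin [1, 0, 1024, 48])) (split 2 (split 3 (lin [37, 0, 4096, 189, 0, 0, 0, 0, 0, 0, 940]) (split 2 (split 2 (neg 8) (lin [3, 0, 360, 16, 0, 0,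 0, 0, 65536])) (neg 0))) (neg 0))) (split 5 (split 3 (lin [9, 0, 1024, 50, 0, 0, 0, 0, 0, 0, 232]) (lin [1, 0, 1024, 48])) (split 1 (split 2 (split 4 (lin [35, 0, 4096, 301, 0, 0, 0, 0, 0, 0, 946]) (split 2 (split 2 (neg 8) (lin [1, 0, 118, 7, 0, 0, 0, 0, 16384])) (neg 0))) (neg 0)) (split 0 (split 2 (lin [569, 0, 65536, 3955, 0, 0, 0, 0, 0, 0, 15020]) (neg 0)) (lin [139, 0, 16384, 1013, 0, 0, 0, 0, 0, 0, 3727])))))) (neg 0)) (split 0 (lin [153, 0, 16384, 1008, 0, 0, 0, 0, 0, 0, 3747]) (lin [9, 0, 1024, 63, 0, 0, 0, 0, 0, 0, 233])))))) (split 5 (split 0 (lin [25, 0, 4096, 0, 0, 0, 0, 0, 0, 112, 483]) (lin [5, 0, 1024, 0, 0, 0, 0, 0, 0, 31, 107])) (split 0 (split 1 (split 1 (neg 7) (split 0 (split 0 (split 2 (lin [217, 0, 23488, 0, 0, 0, 0, 524288, 0, 0, 4720]) (neg 0)) (split 2 (split 2 (split 2 (lin [3, 0, 460, 0, 0, 0, 0, 0, 65536, 0, 17])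 (lin [1, 0, 64])) (neg 0)) (neg 0))) (split 5 (lin [5, 0, 823, 0, 0, 0, 0, 16384, 0, 0, 103]) (split 2 (split 2 (split 2 (lin [5, 0, 848, 0, 0, 0, 0, 2316, 131072]) (lin [1, 0, 63, 0, 0, 0, 0, 16384])) (neg 0)) (neg 0))))) (split 0 (split 0 (lin [10, 0, 1024, 0, 0, 0, 0, 0, 0, 0, 217]) (split 2 (split 2 (split 2 (lin [5, 0, 736, 0, 0, 0, 0, 0, 131072]) (neg 0)) (neg 0)) (neg 0))) (split 5 (lin [3, 0, 512, 0, 0, 0, 0, 0, 0, 0, 61]) (split 1 (split 2 (split 2 (split 2 (lin [5, 0, 849, 0, 0, 0, 0, 0, 131072]) (neg 0)) (neg 0)) (neg 0)) (lin [81, 0, 8192, 0, 0, 0, 0, 0, 0, 0, 1877]))))) (split 1 (split 1 (neg 7) (split 5 (lin [7, 0, 1385, 0, 0, 0, 0, 32768, 0, 0, 157]) (split 2 (split 2 (split 2 (lin [1, 0, 197, 0, 0, 0, 0, 3306, 32768]) (lin [1, 0, 65, 0, 0, 0, 0, 4096])) (neg 0)) (neg 0)))) (split 5 (lin [5, 0, 1024, 0, 0, 0, 0, 0, 0, 0, 111])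 (split 1 (split 2 (split 2 (split 2 (lin [9, 0, 1745, 0, 0, 0, 0, 0, 262144]) (neg 0)) (neg 0)) (neg 0)) (lin [37, 0, 4096, 0, 0, 0, 0, 0, 0, 0, 915]))))))) (split 4 (split 0 (split 0 (split 0 (lin [176, 29, 16384, 1024, 0, 0, 0, 0, 0, 0, 3756]) (lin [3, 0, 256, 16, 0, 0, 0, 0, 0, 0, 59])) (lin [81, 8, 8192, 512, 0, 0, 0, 0, 0, 0, 1852])) (lin [5, 0, 512, 32, 0, 0, 0, 0, 0, 0, 113])) (lin [5, 0, 512, 0, 0, 0, 0, 0, 0, 0, 107]))) (split 1 (split 5 (lin [1, 0, 512, 32]) (split 2 (split 1 (split 2 (split 2 (lin [7, 0, 1762, 105, 0, 0, 0, 32309, 262144]) (lin [1, 0, 346, 21, 0, 0, 0, 65536])) (lin [1, 0, 112, 7, 0, 0, 0, 8192])) (split 4 (split 0 (split 0 (split 1 (split 2 (split 5 (lin [0, 0, 8, 1]) (split 0 (lin [85, 0, 8192, 687, 0, 0, 0, 0, 0, 0, 1899]) (split 1 (split 2 (lin [1, 0, 204, 14, 0, 0, 0, 0, 32768]) (lin [1, 0, 256, 15])) (lin [73,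 0, 8192, 649, 0, 0, 0, 0, 0, 0, 1691])))) (lin [1, 0, 128, 7])) (lin [38, 0, 4096, 338, 0, 0, 0, 0, 0, 0, 841])) (split 1 (split 2 (split 5 (lin [0, 0, 8, 1]) (split 0 (split 1 (split 2 (lin [1, 0, 205, 15, 0, 0, 0, 0, 32768]) (lin [1, 0, 256, 15])) (lin [71, 0, 8192, 666, 0, 0, 0, 0, 0, 0, 1680])) (split 1 (split 2 (lin [1, 0, 206, 15, 0, 0, 0, 0, 32768]) (lin [1, 0, 256, 15])) (lin [77, 0, 8192, 730, 0, 0, 0, 0, 0, 0, 1880])))) (lin [1, 0, 128, 7])) (lin [39, 0, 4096, 369, 0, 0, 0, 0, 0, 0, 912]))) (split 0 (split 1 (split 2 (split 5 (lin [0, 0, 8, 1]) (split 0 (split 1 (split 2 (lin [1, 0, 208, 15, 0, 0, 0, 0, 32768]) (lin [1, 0, 256, 15])) (lin [75, 0, 8192, 742, 0, 0, 0, 0, 0, 0, 1875])) (split 1 (split 2 (lin [1, 0, 209, 15, 0, 0, 0, 0, 32768]) (lin [1, 0, 256, 15])) (lin [73, 0, 8192, 753, 0, 0, 0, 0, 0, 0, 1871])))) (lin [1, 0, 64,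 8])) (lin [37, 0, 4096, 381, 0, 0, 0, 0, 0, 0, 910])) (split 1 (split 2 (split 5 (lin [0, 0, 8, 1]) (split 0 (split 1 (split 2 (lin [1, 0, 210, 15, 0, 0, 0, 0, 32768]) (lin [1, 0, 256, 15])) (lin [71, 0, 8192, 764, 0, 0, 0, 0, 0, 0, 1866])) (split 1 (split 2 (lin [1, 0, 211, 15, 0, 0, 0, 0, 32768]) (lin [1, 0, 256, 15])) (lin [69, 0, 8192, 774, 0, 0, 0, 0, 0, 0, 1862])))) (lin [1, 0, 64, 8])) (lin [35, 0, 4096, 391, 0, 0, 0, 0, 0, 0, 906])))) (split 0 (split 2 (split 2 (lin [1, 0, 172, 4, 0, 0, 0, 0, 32768]) (lin [1, 0, 256])) (lin [1, 0, 64, 8])) (split 2 (split 2 (lin [1, 0, 178, 5, 0, 0, 0, 0, 32768]) (lin [1, 0, 256, 9])) (lin [1, 0, 64, 8]))))) (neg 0))) (split 4 (lin [79, 0, 8192, 865, 0, 0, 0, 0, 0, 0, 1714]) (split 0 (lin [35, 0, 4096, 192, 0, 0, 0, 0, 0, 0, 694]) (lin [29, 0, 4096, 199, 0, 0, 0, 0, 0, 0, 626]))))) (split 1 (split 1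 (neg 7) (split 3 (split 5 (split 0 (split 5 (split 1 (split 4 (split 0 (split 2 (lin [173, 0, 0, 0, 0, 0, 0, 0, 0, 0, 4096]) (neg 0)) (split 0 (lin [101, 0, 0, 0, 0, 0, 0, 131072, 0, 0, 2513]) (split 2 (split 2 (lin [79, 0, 0, 0, 0, 0, 0, 0, 0, 0, 2048]) (neg 0)) (neg 0)))) (split 0 (split 2 (split 2 (lin [43, 0, 738, 0, 0, 0, 0, 0, 0, 0, 1024]) (neg 0)) (neg 0)) (split 2 (split 2 (split 0 (lin [41, 0, 766, 0, 0, 0, 0, 0, 0, 0, 1024]) (lin [11819, 0, 230179, 0, 0, 0, 0, 16777216, 0, 0, 304719])) (neg 0)) (neg 0)))) (split 2 (split 0 (lin [3, 0, 6, 0, 0, 0, 0, 0, 0, 0, 64]) (lin [11, 0, 24, 0, 0, 0, 0, 0, 0, 0, 256])) (neg 0))) (lin [17, 0, 47, 0, 0, 0, 0, 16384, 0, 0, 368])) (split 5 (split 1 (split 4 (split 0 (split 2 (split 2 (split 2 (neg 8) (neg 0)) (neg 0)) (neg 0)) (split 2 (split 2 (split 2 (neg 8) (neg 0)) (neg 0)) (neg 0))) (split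 2 (split 0 (split 2 (split 2 (neg 8) (neg 0)) (neg 0)) (split 2 (split 2 (neg 8) (neg 0)) (neg 0))) (neg 0))) (split 2 (lin [81, 0, 210, 0, 0, 0, 0, 0, 0, 0, 2048]) (neg 0))) (lin [13, 0, 40, 0, 0, 0, 0, 16384, 0, 0, 308]))) (lin [3, 0, 0, 0, 0, 0, 0, 0, 0, 0, 64])) (split 4 (split 0 (split 2 (split 5 (split 0 (lin [173, 0, 0, 2052, 0, 0, 0, 0, 0, 0, 4096]) (split 1 (split 2 (split 5 (split 0 (lin [5, 0, 0, 66, 0, 0, 0, 0, 0, 0, 128]) (lin [23, 0, 0, 305, 0, 0, 0, 32768, 0, 0, 602])) (lin [2, 0, 0, 23, 0, 0, 0, 396, 2048, 0, 42])) (lin [1, 0, 0, 8])) (lin [5, 0, 0, 68, 0, 0, 0, 0, 0, 0, 128]))) (lin [5, 0, 0, 74, 0, 0, 0, 0, 0, 0, 128])) (neg 0)) (split 2 (split 5 (split 0 (split 1 (split 2 (split 5 (split 0 (split 1 (split 2 (neg 8) (lin [1, 0, 0, 16])) (lin [5, 0, 0, 66, 0, 0, 0, 0, 0, 0, 128])) (split 1 (split 2 (neg 8) (lin [1, 0, 0, 16]))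 (lin [9, 0, 0, 135, 0, 0, 0, 0, 0, 0, 256]))) (lin [3, 0, 0, 47, 0, 0, 0, 1171, 4096, 0, 82])) (lin [1, 0, 0, 8])) (lin [5, 0, 0, 71, 0, 0, 0, 0, 0, 0, 128])) (split 1 (split 2 (split 5 (split 0 (split 1 (split 2 (neg 8) (lin [1, 0, 0, 16])) (lin [9, 0, 0, 138, 0, 0, 0, 0, 0, 0, 256])) (split 1 (split 2 (neg 8) (lin [1, 0, 0, 16])) (lin [9, 0, 0, 141, 0, 0, 0, 0, 0, 0, 256]))) (lin [3, 0, 0, 48, 0, 0, 0, 1558, 4096, 0, 81])) (lin [1, 0, 0, 8])) (lin [9, 0, 0, 147, 0, 0, 0, 0, 0, 0, 256]))) (lin [17, 0, 0, 316, 0, 0, 0, 0, 0, 0, 512])) (neg 0))) (split 0 (split 2 (split 2 (split 0 (split 2 (neg 8) (split 1 (lin [323, 0, 30811, 1776, 0, 0, 0, 262144, 0, 0, 6531]) (lin [23, 0, 2048, 127, 0, 0, 0, 0, 0, 0, 465]))) (split 3 (split 1 (split 2 (neg 8) (split 5 (lin [1, 0, 111, 6, 0, 0, 0, 906, 4096]) (split 4 (lin [5, 0, 351, 29, 0, 0, 0, 4132, 16384,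 0, 22]) (lin [1, 0, 69, 0, 0, 0, 0, 1031, 4096])))) (split 5 (lin [589, 0, 65536, 3376, 0, 0, 0, 0, 0, 0, 13888]) (split 0 (lin [5, 0, 512, 27, 0, 0, 0, 0, 0, 0, 115]) (lin [161, 0, 16384, 914, 0, 0, 0, 0, 0, 0, 3840])))) (lin [0, 0, 32, 3]))) (lin [1, 0, 64, 7, 0, 0, 0, 0, 0, 5])) (neg 0)) (split 4 (split 2 (split 2 (split 2 (neg 8) (split 3 (split 1 (split 0 (lin [61, 0, 4948, 410, 0, 0, 0, 73150, 262144, 0, 19]) (split 5 (lin [215, 0, 19163, 1573, 0, 0, 0, 300018, 1048576]) (split 5 (split 1 (neg 7) (split 0 (lin [29, 0, 2440, 204, 0, 0, 0, 35345, 131072]) (lin [58, 0, 5181, 433, 0, 0, 0, 72291, 262144, 0, 33]))) (lin [13, 0, 1124, 93, 0, 0, 0, 16384, 0, 0, 331])))) (lin [51, 0, 4374, 365, 0, 0, 0, 0, 131072, 0, 489])) (lin [0, 0, 8, 1]))) (lin [1, 0, 64, 11])) (neg 0)) (lin [97, 0, 16384, 0, 0, 0, 0, 0, 0, 616, 2015])))))) (split 3 (lin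 [3, 0, 7, 0, 0, 0, 0, 0, 0, 0, 64]) (split 4 (lin [21, 0, 0, 341, 0, 0, 0, 0, 0, 0, 512]) (split 0 (split 0 (lin [45, 0, 4096, 253, 0, 0, 0, 0, 0, 0, 894]) (split 3 (lin [347, 0, 32768, 2129, 0, 0, 0, 0, 0, 0, 7378]) (lin [5, 0, 512, 47, 0, 0, 0, 0, 0, 0, 103]))) (split 4 (split 0 (lin [317, 0, 32768, 2351, 0, 0, 0, 0, 0, 0, 7348]) (split 2 (lin [75, 0, 8192, 613, 0, 0, 0, 0, 0, 0, 1856]) (neg 0))) (lin [19, 0, 2048, 110, 0, 0, 0, 0, 0, 0, 430]))))))) (split 5 (split 3 (split 1 (split 4 (split 1 (split 3 (lin [29, 0, 4096, 128, 0, 0, 0, 0, 0, 213, 805]) (split 0 (split 2 (split 4 (lin [7, 0, 1024, 83, 0, 0, 0, 0, 0, 53, 202]) (split 1 (split 5 (split 5 (lin [49, 0, 13702, 348, 0, 0, 0, 2097152, 0, 0, 1405]) (lin [4, 0, 1111, 32, 0, 0, 0, 262144, 0, 0, 111])) (neg 7)) (split 5 (split 5 (lin [1, 0, 256, 7, 0, 0, 0, 0, 0, 0, 26]) (split 3 (split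 4 (split 1 (split 0 (split 0 (split 5 (split 1 (lin [1443, 0, 294855, 10564, 0, 0, 0, 16777216, 0, 0, 41134]) (lin [5, 0, 1024, 36, 0, 0, 0, 0, 0, 0, 139])) (split 2 (split 1 (split 0 (split 2 (split 2 (neg 8) (lin [1, 0, 128, 5])) (neg 0)) (split 5 (lin [717, 0, 115065, 5343, 0, 0, 0, 8388608, 0, 0, 20620]) (lin [79, 0, 12691, 589, 0, 0, 0, 1048576, 0, 0, 2273]))) (split 5 (split 3 (lin [7, 0, 256, 0, 0, 0, 0, 0, 0, 0, 206]) (lin [377, 0, 65536, 2868, 0, 0, 0, 0, 0, 0, 10751])) (split 2 (split 2 (neg 8) (neg 0)) (neg 0)))) (neg 0))) (split 1 (lin [79, 0, 12980, 607, 0, 0, 0, 1048576, 0, 0, 2299]) (split 1 (lin [991, 0, 162541, 7538, 0, 0, 0, 8388608, 0, 0, 28774]) (lin [25, 0, 4096, 190, 0, 0, 0, 0, 0, 0, 724])))) (lin [99, 0, 16581, 790, 0, 0, 0, 1048576, 0, 0, 2927])) (lin [13, 0, 2048, 95, 0, 0, 0, 0, 0, 0, 365])) (lin [81, 0, 25551, 0,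 0, 0, 0, 524288, 0, 0, 2063])) (lin [1, 0, 1024, 48]))) (split 2 (split 0 (split 5 (split 2 (split 2 (neg 8) (lin [3, 0, 402, 22, 0, 0, 0, 15319, 65536])) (lin [1, 0, 99, 6, 0, 0, 0, 8192])) (split 2 (lin [59, 0, 7467, 446, 0, 0, 0, 316095, 2097152]) (neg 0))) (split 5 (split 3 (split 1 (split 4 (lin [113, 0, 17753, 823, 0, 0, 0, 1048576, 0, 0, 3367]) (lin [113, 0, 17753, 0, 0, 0, 0, 1048576, 0, 0, 3367])) (lin [2, 0, 256, 12, 0, 0, 0, 0, 0, 0, 59])) (split 2 (split 2 (neg 8) (lin [5, 0, 815, 36, 0, 0, 0, 31334, 131072])) (lin [1, 0, 164, 7, 0, 0, 0, 4096]))) (split 2 (lin [7, 0, 981, 57, 0, 0, 0, 42333, 262144]) (neg 0)))) (neg 0))))) (neg 0)) (split 2 (split 4 (lin [29, 0, 5020, 419, 0, 0, 0, 262144, 0, 0, 927]) (split 1 (split 5 (lin [1, 0, 262, 9, 0, 0, 0, 65536, 0, 0, 30]) (neg 7)) (split 5 (split 3 (lin [67, 0, 10503, 486, 0, 0, 0, 524288,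 0, 0, 2027]) (lin [1, 0, 1096, 51, 0, 0, 0, 4096])) (split 0 (split 2 (split 4 (split 1 (lin [45, 0, 7369, 435, 0, 0, 0, 524288, 0, 0, 1376]) (lin [15, 0, 2048, 167, 0, 0, 0, 0, 0, 0, 469])) (split 1 (split 5 (split 2 (lin [57, 0, 12778, 393, 0, 0, 0, 666028, 2097152, 0, 157]) (lin [1, 0, 128])) (neg 7)) (split 2 (split 5 (split 5 (lin [105, 0, 24888, 695, 0, 0, 0, 0, 4194304]) (lin [13, 0, 2460, 98, 0, 0, 0, 47605, 524288])) (lin [7, 0, 1040, 56, 0, 0, 0, 41944, 262144])) (neg 0)))) (neg 0)) (split 1 (split 3 (lin [3, 0, 471, 22, 0, 0, 0, 32768, 0, 0, 85]) (lin [29, 0, 6791, 315, 0, 0, 0, 1048576, 0, 0, 879])) (split 5 (lin [3022, 0, 449972, 27715, 0, 0, 0, 8388608, 0, 0, 94583]) (lin [23, 0, 3418, 210, 0, 0, 0, 131072, 0, 0, 713]))))))) (neg 0)))) (split 0 (split 1 (split 0 (split 2 (split 4 (lin [1, 0, 128, 11, 0, 0, 0, 0, 0, 0, 30]) (split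 1 (split 2 (split 2 (split 5 (split 2 (lin [4, 0, 1152, 13, 0, 0, 0, 0, 524288]) (lin [5, 0, 516, 39, 0, 0, 0, 0, 131072])) (split 2 (neg 8) (lin [1, 0, 99, 5, 0, 0, 0, 0, 16384]))) (lin [1, 0, 64, 7])) (neg 0)) (lin [135, 0, 16384, 1016, 0, 0, 0, 0, 0, 0, 3683]))) (neg 0)) (split 5 (split 0 (split 2 (split 3 (neg 0) (split 4 (lin [1, 0, 128, 10, 0, 0, 0, 0, 0, 0, 29]) (lin [785, 0, 131072, 6378, 0, 0, 0, 0, 0, 0, 22981]))) (neg 0)) (lin [121, 0, 16384, 1013, 0, 0, 0, 0, 0, 0, 3535])) (split 2 (split 4 (lin [1, 0, 0, 16, 0, 0, 0, 0, 0, 0, 32]) (split 1 (split 2 (split 2 (split 2 (neg 8) (lin [1, 0, 99, 5, 0, 0, 0, 0, 16384])) (neg 0)) (neg 0)) (lin [1, 0, 128, 8, 0, 0, 0, 0, 0, 0, 28]))) (neg 0)))) (lin [17, 0, 2048, 128, 0, 0, 0, 0, 0, 0, 460])) (lin [926, 0, 131072, 8026, 0, 0, 0, 0, 0, 0, 27793]))) (split 1 (split 0 (split 5 (lin [17, 0,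 4096, 0, 0, 0, 0, 0, 0, 203, 423]) (split 1 (neg 7) (split 5 (lin [21, 0, 4965, 0, 0, 0, 0, 131072, 0, 0, 523]) (split 2 (split 1 (neg 7) (split 2 (split 2 (lin [1, 0, 230, 0, 0, 0, 0, 183, 32768]) (neg 0)) (neg 0))) (neg 0))))) (split 1 (lin [2, 13, 4211, 0, 0, 0, 0, 1048576]) (split 5 (lin [1, 0, 271, 0, 0, 0, 0, 16384, 0, 0, 27]) (split 5 (lin [5, 0, 1270, 0, 0, 0, 0, 32768, 0, 0, 127]) (split 0 (split 1 (neg 7) (split 2 (split 5 (lin [13, 0, 3510, 0, 0, 0, 0, 65536, 0, 0, 363]) (split 0 (split 4 (split 2 (split 2 (lin [1, 0, 288, 0, 0, 0, 0, 1859, 32768]) (neg 0)) (neg 0)) (lin [1, 0, 128, 0, 0, 0, 0, 0, 0, 0, 27])) (lin [27, 0, 4275, 0, 0, 0, 0, 131072, 0, 0, 821]))) (neg 0))) (lin [41, 0, 7091, 0, 0, 0, 0, 262144, 0, 0, 1256])))))) (split 0 (split 5 (lin [6, 11, 4096]) (split 5 (lin [17, 0, 4096, 0, 0, 0, 0, 0, 0, 0, 407]) (split 1 (split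 2 (split 2 (split 2 (lin [1, 0, 234, 0, 0, 0, 0, 0, 32768]) (neg 0)) (neg 0)) (neg 0)) (lin [17, 0, 2048, 0, 0, 0, 0, 0, 0, 0, 460])))) (lin [926, 0, 131072, 0, 0, 0, 0, 0, 0, 0, 27793])))) (split 4 (lin [17, 0, 2048, 128, 0, 0, 0, 0, 0, 0, 457]) (lin [9, 0, 1024, 0, 0, 0, 0, 0, 0, 0, 236]))) (split 1 (split 5 (lin [1, 0, 512, 32]) (split 1 (split 2 (split 2 (split 2 (lin [15, 0, 4722, 283, 0, 0, 0, 158017, 524288]) (lin [1, 0, 381, 23, 0, 0, 0, 65536])) (lin [1, 0, 210, 14, 0, 0, 0, 16384])) (lin [1, 0, 0, 0, 0, 0, 0, 0, 0, 8])) (split 4 (split 0 (split 2 (split 0 (split 1 (split 2 (split 5 (lin [0, 0, 8, 1]) (split 0 (split 1 (split 2 (lin [1, 0, 213, 16, 0, 0, 0, 0, 32768]) (lin [1, 0, 512, 31])) (lin [67, 0, 8192, 784, 0, 0, 0, 0, 0, 0, 1857])) (split 1 (split 2 (lin [1, 0, 214, 16, 0, 0, 0, 0, 32768]) (lin [1, 0, 512, 31])) (lin [33, 0,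 4096, 396, 0, 0, 0, 0, 0, 0, 926])))) (lin [1, 0, 64, 8])) (lin [15, 0, 2048, 186, 0, 0, 0, 0, 0, 0, 407])) (split 1 (split 2 (split 5 (lin [0, 0, 8, 1]) (split 0 (split 1 (split 2 (lin [1, 0, 215, 16, 0, 0, 0, 0, 32768]) (lin [1, 0, 512, 31])) (lin [1, 0, 128, 13, 0, 0, 0, 0, 0, 0, 29])) (split 1 (split 2 (lin [1, 0, 217, 16, 0, 0, 0, 0, 32768]) (lin [1, 0, 512, 31])) (lin [1, 0, 128, 13, 0, 0, 0, 0, 0, 0, 30])))) (lin [1, 0, 64, 8])) (lin [65, 0, 8192, 829, 0, 0, 0, 0, 0, 0, 1893]))) (neg 0)) (lin [463, 0, 65536, 6534, 0, 0, 0, 0, 0, 0, 13897])) (split 2 (split 0 (split 1 (split 5 (lin [1, 0, 512]) (split 2 (split 2 (lin [1, 0, 481, 0, 0, 0, 0, 0, 32768]) (lin [1, 0, 512])) (lin [1, 0, 64, 8]))) (lin [49, 0, 8192, 367, 0, 0, 0, 0, 0, 0, 1287])) (split 2 (split 2 (lin [3, 0, 778, 20, 0, 0, 0, 0, 131072]) (lin [1, 0, 256, 8])) (lin [1, 0, 64,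 8]))) (neg 0))))) (split 4 (lin [9, 0, 1024, 118, 0, 0, 0, 0, 0, 0, 234]) (lin [45, 0, 8192, 365, 0, 0, 0, 0, 0, 0, 1011])))) (split 1 (split 1 (neg 7) (split 3 (split 5 (split 0 (split 4 (split 0 (split 5 (split 1 (split 2 (split 0 (split 2 (split 2 (neg 8) (neg 0)) (neg 0)) (split 2 (split 2 (neg 8) (neg 0)) (neg 0))) (neg 0)) (lin [17, 0, 0, 0, 0, 0, 0, 0, 0, 0, 512])) (lin [3, 0, 0, 0, 0, 0, 0, 4096, 0, 0, 84])) (lin [79, 0, 0, 0, 0, 0, 0, 131072, 0, 0, 2432])) (split 2 (split 5 (split 0 (split 1 (split 2 (split 2 (neg 8) (neg 0)) (neg 0)) (lin [5, 0, 122, 0, 0, 0, 0, 0, 0, 0, 128])) (split 2 (split 0 (lin [635, 0, 15674, 0, 0, 0, 0, 1048576, 0, 0, 19409]) (lin [33, 0, 835, 0, 0, 0, 0, 0, 0, 0, 1024])) (neg 0))) (lin [1, 0, 28, 0, 0, 0, 0, 1024, 0, 0, 27])) (neg 0))) (split 4 (lin [1, 0, 0, 0, 0, 0, 0, 0, 0, 0, 32]) (lin [43, 0, 4096, 0,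 0, 0, 0, 0, 0, 0, 1309]))) (lin [5, 0, 124, 0, 0, 0, 0, 0, 0, 0, 128])) (split 4 (split 0 (split 2 (split 5 (split 0 (split 1 (split 2 (split 5 (split 0 (split 1 (split 2 (neg 8) (lin [1, 0, 0, 16])) (lin [9, 0, 0, 143, 0, 0, 0, 0, 0, 0, 256])) (split 1 (split 2 (neg 8) (lin [1, 0, 0, 16])) (lin [1, 0, 0, 20, 0, 0, 0, 0, 0, 0, 32]))) (lin [3, 0, 0, 49, 0, 0, 0, 0, 8192, 0, 62])) (lin [1, 0, 0, 16])) (lin [17, 0, 0, 302, 0, 0, 0, 0, 0, 0, 512])) (lin [133, 0, 0, 2489, 0, 0, 0, 0, 0, 0, 4096])) (lin [1, 0, 0, 21, 0, 0, 0, 0, 0, 0, 32])) (neg 0)) (lin [1, 0, 0, 22, 0, 0, 0, 0, 0, 0, 32])) (split 0 (split 4 (split 2 (split 2 (split 2 (neg 8) (split 3 (split 1 (split 5 (split 0 (split 0 (lin [205, 0, 19431, 1568, 0, 0, 0, 298543, 1048576]) (lin [200, 0, 19788, 1591, 0, 0, 0, 312038, 1048576])) (split 0 (lin [49, 0, 5052, 403, 0, 0, 0, 81451, 262144])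 (lin [3, 0, 322, 26, 0, 0, 0, 5734, 16384]))) (split 2 (lin [17, 0, 1674, 131, 0, 0, 0, 20794, 131072]) (lin [1, 0, 90, 9, 0, 0, 0, 2048]))) (lin [379, 0, 36545, 3053, 0, 0, 0, 0, 1048576, 0, 4200])) (lin [0, 0, 8, 1]))) (lin [1, 0, 64, 11])) (neg 0)) (lin [679, 0, 131072, 0, 0, 0, 0, 0, 0, 4760, 15220])) (split 4 (split 2 (split 3 (split 1 (split 0 (split 5 (split 2 (split 2 (neg 8) (lin [3, 0, 336, 26, 0, 0, 0, 6317, 16384])) (neg 0)) (split 5 (split 4 (split 2 (lin [59, 0, 2335, 938, 0, 0, 0, 131072, 0, 0, 1834]) (neg 0)) (split 2 (split 1 (neg 7) (lin [13, 0, 1790, 102, 0, 0, 0, 16384, 0, 0, 372])) (neg 0))) (split 2 (lin [33, 0, 3640, 302, 0, 0, 0, 65536, 0, 0, 965]) (neg 0)))) (split 5 (split 4 (split 1 (split 2 (lin [337, 0, 52271, 3272, 0, 0, 0, 1048576, 0, 0, 10169]) (neg 0)) (lin [59, 0, 8192, 583, 0, 0, 0, 0, 0, 0, 1788])) (lin [109,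 0, 15956, 876, 0, 0, 0, 262144, 0, 0, 3169])) (split 3 (lin [7, 0, 780, 59, 0, 0, 0, 16384, 0, 0, 207]) (lin [131, 0, 19782, 1467, 0, 0, 0, 262144, 0, 0, 3788])))) (split 0 (split 5 (split 2 (lin [125, 0, 16384, 1100, 0, 0, 0, 0, 0, 0, 3680]) (neg 0)) (lin [135, 0, 16384, 1248, 0, 0, 0, 0, 0, 0, 3887])) (lin [31, 0, 4096, 298, 0, 0, 0, 0, 0, 0, 917]))) (lin [1, 0, 1024, 96, 0, 0, 0, 0, 0, 9])) (neg 0)) (lin [39, 0, 8192, 0, 0, 0, 0, 0, 0, 338, 924])))))) (split 3 (lin [5, 0, 13, 0, 0, 0, 0, 0, 0, 0, 128]) (split 4 (lin [17, 0, 0, 341, 0, 0, 0, 0, 0, 0, 512]) (split 0 (split 4 (split 0 (split 2 (lin [73, 0, 8192, 651, 0, 0, 0, 0, 0, 0, 1886]) (neg 0)) (lin [139, 0, 16384, 1334, 0, 0, 0, 0, 0, 0, 3678])) (lin [35, 0, 4096, 245, 0, 0, 0, 0, 0, 0, 857])) (split 3 (lin [133, 0, 16384, 1147, 0, 0, 0, 0, 0, 0, 3567]) (lin [1, 0, 128, 12, 0, 0, 0,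 0, 0, 0, 25])))))))) (neg 0)) (split 0 (lin [5, 0, 512, 0, 0, 0, 0, 0, 0, 27, 84]) (lin [2, 0, 256, 0, 0, 0, 0, 0, 0, 17, 36]))) (lin [1, 0, 256, 32])) (lin [0, 0, 4, 1])) (split 0 (lin [407, 0, 32768, 0, 0, 0, 0, 0, 0, 2081, 3845]) (lin [5, 0, 512, 0, 0, 0, 0, 0, 0, 55, 50]))) (split 4 (split 0 (lin [3, 0, 128, 0, 0, 0, 0, 0, 0, 17, 8]) (lin [5, 0, 256])) (split 0 (split 1 (lin [0, 15, 512, 0, 0, 0, 0, 0, 0, 143]) (lin [0, 7, 256])) (lin [0, 3, 128])))) (lin [0, 0, 2, 1]))) (split 1 (split 5 (split 1 (neg 7) (split 0 (split 3 (split 2 (split 3 (split 4 (split 3 (split 4 (split 0 (split 0 (lin [5, 0, 26, 2, 0, 0, 0, 0, 0, 0, 32]) (split 4 (lin [1, 0, 16, 2, 0, 0, 0, 0, 0, 0, 10]) (lin [7, 0, 128, 0, 0, 0, 0, 0, 0, 13, 73]))) (split 4 (split 0 (lin [5, 0, 128, 15, 0, 0, 0, 0, 0, 5, 73]) (split 2 (split 3 (lin [1, 0, 0, 0, 0, 0, 0, 0, 0, 4, 16])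 (split 0 (lin [7, 0, 256, 30, 0, 0, 0, 0, 0, 28, 124]) (lin [23, 0, 1024, 118, 0, 0, 0, 0, 0, 102, 451]))) (neg 0))) (lin [1, 0, 64, 0, 0, 0, 0, 0, 0, 1, 13]))) (split 0 (lin [1, 0, 16, 0, 0, 0, 0, 0, 0, 1, 5]) (lin [1, 0, 32, 0, 0, 0, 0, 0, 0, 3, 8]))) (lin [0, 0, 8, 1])) (split 4 (split 0 (lin [7, 0, 64, 0, 0, 0, 0, 0, 0, 6, 15]) (lin [7, 0, 128, 0, 0, 0, 0, 0, 0, 17, 23])) (split 0 (split 0 (split 2 (split 0 (split 3 (lin [4, 7, 32, 0, 0, 0, 0, 0, 0, 6]) (neg 2)) (lin [0, 11, 64, 0, 0, 0, 0, 0, 0, 11, 4])) (lin [47, 0, 256, 0, 37, 0, 0, 0, 0, 77])) (split 2 (lin [0, 239, 2048, 0, 0, 0, 0, 0, 0, 333, 94]) (lin [29, 0, 256, 0, 34, 0, 0, 0, 0, 78]))) (split 0 (lin [0, 17, 256, 0, 0, 0, 0, 0, 0, 48, 5]) (lin [0, 3, 64, 0, 0, 0, 0, 0, 0, 11, 1]))))) (lin [0, 0, 4, 1])) (split 3 (split 4 (lin [1, 0, 16, 0, 0, 0, 0, 0, 0, 7]) (split 0 (lin [70,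 17, 1024, 0, 104, 0, 0, 0, 0, 355]) (split 4 (lin [1, 0, 32, 0, 0, 0, 0, 0, 0, 7]) (lin [15, 9, 512, 0, 47, 0, 0, 0, 0, 77])))) (lin [0, 0, 4, 1]))) (lin [0, 0, 2, 1, 0, 0, 0, 0, 0, 32])) (split 3 (split 4 (split 4 (split 3 (split 3 (split 4 (split 0 (split 2 (split 3 (lin [1, 0, 0, 0, 0, 0, 0, 0, 0, 1, 16]) (split 0 (split 5 (split 3 (split 2 (lin [37, 0, 2048, 181, 0, 0, 0, 0, 0, 148, 807]) (neg 0)) (split 2 (lin [20, 0, 2048, 201, 0, 0, 0, 0, 0, 81, 406]) (neg 0))) (lin [37, 0, 2048, 242, 0, 0, 0, 0, 0, 168, 765])) (split 5 (split 4 (lin [1, 0, 0, 16, 0, 0, 0, 2048, 0, 0, 25]) (split 4 (split 2 (split 0 (lin [31, 0, 2048, 246, 0, 0, 0, 0, 0, 135, 742]) (lin [221, 0, 16384, 1974, 0, 0, 0, 0, 0, 1425, 5540])) (neg 0)) (split 2 (lin [9, 0, 1024, 44, 0, 0, 0, 0, 0, 38, 214]) (neg 0)))) (split 2 (lin [1, 0, 64, 8, 0, 0, 0, 0, 0, 7, 24]) (neg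 0))))) (neg 0)) (split 2 (split 3 (lin [1, 0, 0, 0, 0, 0, 0, 0, 0, 0, 16]) (split 5 (split 4 (lin [1, 0, 0, 18, 0, 0, 0, 2048, 0, 0, 26]) (split 0 (split 4 (split 2 (split 3 (lin [343, 0, 32768, 2948, 0, 0, 0, 0, 0, 2512, 9059]) (lin [15, 0, 2048, 187, 0, 0, 0, 0, 0, 111, 382])) (neg 0)) (split 2 (lin [125, 0, 16384, 722, 0, 0, 0, 0, 0, 842, 3173]) (neg 0))) (split 3 (split 4 (lin [5, 0, 512, 46, 0, 0, 0, 0, 0, 44, 139]) (lin [53, 0, 8192, 0, 0, 0, 0, 0, 0, 471, 1396])) (lin [461, 0, 65536, 5959, 0, 0, 0, 0, 0, 4105, 11653])))) (split 0 (split 2 (split 0 (lin [29, 0, 2048, 243, 0, 0, 0, 0, 0, 201, 727]) (lin [217, 0, 16384, 1946, 0, 0, 0, 0, 0, 1704, 5630])) (neg 0)) (split 2 (split 0 (lin [51, 0, 4096, 487, 0, 0, 0, 0, 0, 455, 1369]) (lin [3, 0, 256, 30, 0, 0, 0, 0, 0, 30, 84])) (neg 0))))) (neg 0))) (split 0 (lin [5, 0, 512, 0, 0, 0, 0, 0,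 0, 28, 84]) (lin [1, 0, 128, 0, 0, 0, 0, 0, 0, 9, 19]))) (lin [1, 0, 512, 64])) (lin [0, 0, 2, 1, 0, 0, 0, 0, 0, 8])) (split 0 (lin [27, 0, 2048, 0, 0, 0, 0, 0, 0, 145, 280]) (lin [11, 0, 1024, 0, 0, 0, 0, 0, 0, 101, 127]))) (split 4 (split 0 (lin [3, 0, 128, 0, 0, 0, 0, 0, 0, 16, 10]) (lin [1, 0, 64, 0, 0, 0, 0, 0, 0, 12, 2])) (split 0 (lin [0, 15, 512, 0, 0, 0, 0, 0, 0, 73]) (lin [0, 3, 128, 0, 0, 0, 0, 0, 0, 27, 2])))) (lin [0, 0, 2, 1, 0, 0, 0, 0, 0, 32])))) (neg 9)) (split 0 (split 3 (split 3 (split 4 (split 4 (split 3 (split 0 (split 4 (split 2 (lin [278, 0, 4096, 465, 0, 0, 0, 0, 0, 0, 2629]) (neg 0)) (lin [5, 0, 128, 0, 0, 0, 0, 0, 0, 0, 34])) (split 4 (split 0 (lin [41, 0, 1024, 128, 0, 0, 0, 0, 0, 0, 599]) (split 0 (lin [15, 0, 512, 61, 0, 0, 0, 0, 0, 0, 259]) (lin [13, 0, 512, 61, 0, 0, 0, 0, 0, 0, 239]))) (lin [1, 0, 64, 0, 0, 0,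 0, 0, 0, 0, 13]))) (split 0 (lin [5, 0, 256, 30, 0, 0, 0, 0, 0, 11, 32]) (split 2 (lin [11, 0, 1024, 122, 0, 0, 0, 0, 0, 0, 132]) (lin [1, 0, 32, 2])))) (split 0 (lin [7, 0, 128, 0, 0, 0, 0, 0, 0, 0, 35]) (lin [7, 0, 256, 0, 0, 0, 0, 0, 0, 0, 57]))) (split 4 (split 0 (split 2 (lin [3, 0, 32, 0, 0, 0, 0, 0, 0, 0, 7]) (lin [1, 0, 16])) (lin [5, 0, 128, 0, 0, 0, 0, 0, 0, 12, 17])) (split 0 (split 2 (split 0 (split 4 (lin [37, 0, 256, 0, 0, 0, 0, 0, 0, 19, 43]) (split 2 (split 0 (split 4 (lin [2, 0, 8, 0, 0, 0, 0, 0, 0, 0, 1]) (split 1 (lin [0, 35, 128, 0, 0, 0, 0, 0, 0, 19, 9]) (lin [87, 176, 1024, 0, 93, 0, 0, 0, 0, 0, 209]))) (lin [0, 23, 128, 0, 0, 0, 0, 0, 0, 22, 7])) (split 0 (lin [103, 0, 512, 0, 105, 0, 0, 0, 0, 28]) (lin [10, 0, 64, 0, 13, 0, 0, 0, 0, 10])))) (split 4 (lin [3, 0, 32, 0, 0, 0, 0, 0, 0, 0, 4]) (split 2 (lin [0, 123, 1024,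 0, 0, 0, 0, 0, 0, 149, 48]) (split 0 (lin [8, 0, 64, 0, 11, 0, 0, 0, 0, 6]) (lin [0, 6, 64, 0, 1, 0, 0, 0, 0, 9]))))) (split 0 (lin [3, 0, 32, 0, 5]) (lin [19, 0, 256, 0, 46]))) (split 2 (split 0 (split 4 (lin [9, 0, 128, 0, 0, 0, 0, 0, 0, 0, 8]) (lin [0, 9, 128, 0, 0, 0, 0, 0, 0, 20, 3])) (lin [0, 3, 64, 0, 0, 0, 0, 0, 0, 10, 1])) (split 0 (lin [13, 2, 256, 0, 42]) (lin [6, 0, 128, 0, 27, 0, 0, 0, 0, 19])))))) (lin [0, 0, 4, 1])) (lin [0, 0, 2, 1])) (split 3 (split 4 (split 4 (split 3 (split 3 (split 4 (split 0 (split 5 (split 2 (split 0 (split 3 (lin [1, 0, 0, 0, 0, 0, 0, 0, 0, 0, 16]) (split 2 (split 0 (lin [19, 0, 1024, 113, 0, 0, 0, 0, 0, 0, 410]) (split 2 (lin [9, 0, 512, 59, 0, 0, 0, 0, 0, 0, 204]) (lin [1, 0, 32, 4]))) (neg 0))) (split 3 (lin [1, 0, 0, 0, 0, 0, 0, 0, 0, 0, 16]) (split 5 (split 1 (split 3 (lin [7, 0, 512, 46, 0, 0, 0,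 0, 0, 0, 160]) (split 0 (lin [85, 0, 8192, 839, 0, 0, 0, 0, 0, 0, 1862]) (lin [1283, 0, 131072, 13578, 0, 0, 0, 0, 0, 0, 29635]))) (lin [249, 0, 16384, 1962, 0, 0, 0, 0, 0, 0, 5684])) (lin [501, 0, 32768, 3887, 0, 0, 0, 0, 0, 0, 11490])))) (neg 0)) (split 2 (lin [37, 0, 2048, 236, 0, 0, 0, 0, 0, 168, 821]) (neg 0))) (split 5 (split 2 (split 3 (lin [1, 0, 0, 0, 0, 0, 0, 0, 0, 0, 16]) (split 1 (split 3 (lin [385, 0, 32768, 2923, 0, 0, 0, 0, 0, 0, 9680]) (split 0 (split 4 (neg 3) (lin [297, 0, 32768, 3130, 0, 0, 0, 0, 0, 0, 7195])) (lin [279, 0, 32768, 3523, 0, 0, 0, 0, 0, 0, 7274]))) (split 0 (lin [55, 0, 4096, 491, 0, 0, 0, 0, 0, 0, 1346]) (lin [25, 0, 2048, 245, 0, 0, 0, 0, 0, 0, 651])))) (neg 0)) (split 2 (lin [7, 0, 512, 60, 0, 0, 0, 0, 0, 35, 178]) (neg 0)))) (split 0 (lin [21, 0, 2048, 0, 0, 0, 0, 0, 0, 0, 391]) (lin [1, 0, 128, 0, 0, 0,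 0, 0, 0, 0, 22]))) (split 4 (split 0 (lin [21, 0, 2048, 304, 0, 0, 0, 0, 0, 88, 380]) (lin [33, 0, 4096, 619, 0, 0, 0, 0, 0, 244, 694])) (split 0 (lin [33, 0, 4096, 192, 0, 0, 0, 0, 0, 159, 560]) (split 2 (lin [1, 0, 128, 9, 0, 0, 0, 0, 0, 7, 22]) (lin [1, 0, 64]))))) (lin [0, 0, 4, 1])) (split 3 (lin [29, 0, 2048, 0, 0, 0, 0, 0, 0, 52, 314]) (neg 2))) (split 4 (split 0 (split 2 (lin [53, 0, 2048, 0, 0, 0, 0, 0, 0, 0, 157]) (lin [3, 0, 128])) (lin [19, 0, 1024, 0, 0, 0, 0, 0, 0, 195, 27])) (split 0 (split 0 (split 2 (lin [0, 5, 128, 0, 0, 0, 0, 0, 0, 0, 3]) (split 2 (lin [0, 17, 512, 0, 0, 0, 0, 0, 0, 58]) (lin [1, 0, 32, 0, 8]))) (lin [0, 27, 1024, 0, 0, 0, 0, 0, 0, 176])) (lin [0, 23, 1024])))) (lin [0, 0, 2, 1]))))) (split 5 (split 3 (split 3 (split 4 (split 4 (split 3 (split 0 (split 4 (split 0 (split 3 (split 5 (split 4 (split 3 (lin [1,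 2, 32, 1, 0, 0, 0, 0, 0, 0, 7]) (lin [49, 0, 2048, 111, 0, 0, 0, 0, 0, 0, 472])) (lin [25, 0, 1024, 0, 0, 0, 0, 0, 0, 0, 235])) (lin [1, 0, 0, 0, 0, 0, 0, 0, 0, 0, 8])) (split 5 (lin [49, 0, 4096, 254, 0, 0, 0, 0, 0, 0, 304]) (split 2 (lin [44, 0, 2048, 161, 0, 0, 0, 0, 0, 0, 388]) (neg 0)))) (split 3 (split 4 (split 0 (lin [57, 31, 4096, 256, 0, 0, 0, 0, 0, 0, 863]) (lin [1, 0, 64, 4, 0, 0, 0, 0, 0, 0, 14])) (lin [1, 0, 64, 0, 0, 0, 0, 0, 0, 0, 15])) (split 0 (lin [61, 0, 4096, 329, 0, 0, 0, 0, 0, 0, 875]) (split 4 (lin [1, 0, 64, 8, 0, 0, 0, 0, 0, 0, 15]) (lin [25, 0, 2048, 136, 0, 0, 0, 0, 0, 0, 414]))))) (split 0 (lin [1, 0, 32, 0, 0, 0, 0, 0, 0, 0, 7]) (lin [9, 0, 512, 0, 0, 0, 0, 0, 0, 0, 115]))) (split 4 (split 3 (split 0 (lin [6, 3, 512, 32, 0, 0, 0, 0, 0, 0, 109]) (lin [1, 0, 64, 4, 0, 0, 0, 0, 0, 0, 14])) (split 0 (split 1 (split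 4 (lin [3, 0, 256, 40, 0, 0, 0, 0, 0, 0, 58]) (split 0 (lin [3, 0, 256, 20, 0, 0, 0, 0, 0, 0, 55]) (lin [21, 0, 2048, 168, 0, 0, 0, 0, 0, 0, 433]))) (lin [47, 0, 4096, 421, 0, 0, 0, 0, 0, 0, 879])) (split 4 (lin [1, 0, 64, 15, 0, 0, 0, 0, 0, 0, 14]) (lin [153, 0, 16384, 1423, 0, 0, 0, 0, 0, 0, 3334])))) (lin [5, 0, 512, 0, 0, 0, 0, 0, 0, 0, 80]))) (split 0 (lin [1, 0, 128, 16]) (lin [5, 0, 1024, 122]))) (split 0 (split 0 (lin [3, 0, 64, 0, 0, 0, 0, 0, 0, 0, 14]) (lin [13, 0, 512, 0, 0, 0, 0, 0, 0, 0, 112])) (lin [7, 0, 512, 0, 0, 0, 0, 0, 0, 0, 72]))) (split 0 (split 4 (split 0 (lin [2, 0, 32, 0, 0, 0, 0, 0, 0, 0, 5]) (lin [5, 0, 128])) (split 2 (split 0 (split 0 (split 2 (split 1 (lin [333, 390, 4096, 0, 37]) (lin [0, 9, 64])) (lin [1, 0, 8, 0, 1])) (lin [0, 9, 128])) (lin [0, 3, 64])) (split 0 (lin [33, 0, 512, 0, 74]) (lin [18, 3, 512, 0,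 68])))) (split 4 (lin [2, 1, 128]) (split 0 (lin [1, 26, 1024, 0, 15]) (lin [0, 3, 128]))))) (lin [0, 0, 4, 1])) (lin [0, 0, 2, 1])) (split 3 (split 3 (split 4 (split 4 (split 0 (split 3 (split 0 (split 2 (split 0 (lin [1, 0, 6, 1, 0, 0, 0, 0, 0, 0, 8]) (lin [5, 0, 64, 7, 0, 0, 0, 0, 0, 0, 61])) (neg 0)) (split 4 (split 2 (lin [59, 0, 2048, 240, 0, 0, 0, 0, 0, 0, 1057]) (neg 0)) (lin [1, 0, 64, 0, 0, 0, 0, 0, 0, 0, 13]))) (split 0 (lin [1, 0, 64, 7, 0, 0, 0, 0, 0, 0, 7]) (split 4 (lin [1, 0, 64, 10, 0, 0, 0, 0, 0, 0, 13]) (lin [1, 0, 64, 4, 0, 0, 0, 0, 0, 0, 13])))) (split 3 (split 4 (split 0 (split 0 (lin [5, 0, 256, 30, 0, 0, 0, 0, 0, 0, 103]) (lin [33, 0, 2048, 244, 0, 0, 0, 0, 0, 0, 739])) (lin [7, 0, 512, 61, 0, 0, 0, 0, 0, 0, 168])) (lin [45, 0, 4096, 0, 0, 0, 0, 0, 0, 0, 832])) (split 4 (lin [45, 0, 4096, 746, 0, 0, 0, 0, 0, 0, 832])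 (split 2 (lin [35, 0, 4096, 303, 0, 0, 0, 0, 0, 0, 617]) (lin [1, 0, 64]))))) (split 0 (split 0 (lin [3, 0, 64, 0, 0, 0, 0, 0, 0, 0, 18]) (lin [3, 0, 128, 0, 0, 0, 0, 0, 0, 0, 27])) (lin [7, 0, 512, 0, 0, 0, 0, 0, 0, 0, 74]))) (split 0 (split 4 (split 0 (split 2 (lin [11, 0, 128, 0, 0, 0, 0, 0, 0, 0, 30]) (lin [1, 0, 16])) (lin [17, 0, 512, 0, 0, 0, 0, 0, 0, 0, 59])) (split 2 (split 0 (split 0 (split 4 (lin [122, 0, 1024, 0, 0, 0, 0, 0, 0, 0, 145]) (split 2 (split 0 (split 1 (split 1 (lin [0, 115, 512, 0, 0, 0, 0, 0, 0, 0, 37]) (lin [0, 13, 64, 0, 0, 0, 0, 0, 0, 0, 4])) (lin [0, 3, 16, 0, 0, 0, 0, 0, 0, 0, 1])) (lin [0, 77, 512, 0, 0, 0, 0, 0, 0, 0, 26])) (split 1 (split 0 (lin [23, 0, 128, 0, 30]) (lin [17, 0, 128, 0, 22])) (split 1 (split 3 (lin [9, 0, 64, 0, 13]) (neg 2)) (lin [268, 0, 2048, 0, 417, 0, 0, 0, 0, 0, 0, 120]))))) (split 4 (lin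 [5, 0, 64, 0, 0, 0, 0, 0, 0, 0, 6]) (split 2 (split 1 (lin [0, 7, 64, 0, 0, 0, 0, 0, 0, 0, 3]) (lin [0, 3, 32])) (split 1 (split 3 (lin [13, 14, 256, 0, 21]) (neg 2)) (split 1 (lin [23, 0, 256, 0, 43]) (lin [23, 0, 256, 0, 46, 0, 0, 0, 0, 0, 0, 18])))))) (split 0 (split 3 (lin [5, 29, 512, 0, 2]) (neg 2)) (lin [0, 11, 256]))) (split 0 (split 0 (lin [11, 0, 128, 0, 27]) (lin [1, 0, 16, 0, 3])) (split 0 (lin [22, 3, 512, 0, 80]) (lin [306, 25, 8192, 0, 1423]))))) (split 4 (lin [171, 0, 8192, 0, 0, 0, 0, 0, 0, 0, 463]) (split 3 (split 2 (lin [0, 1, 32]) (lin [2, 6, 256, 0, 11])) (neg 2))))) (lin [0, 0, 4, 1])) (lin [0, 0, 2, 1])))) (split 3 (split 4 (split 3 (lin [1, 0, 32]) (lin [1, 0, 128, 22, 0, 0, 0, 0, 0, 0, 0, 4])) (split 0 (split 0 (split 1 (lin [3, 0, 64, 0, 9]) (lin [19, 0, 512, 0, 91])) (split 3 (lin [57, 0, 2048, 0, 443, 0, 0, 0, 0,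 157]) (neg 2))) (split 4 (split 3 (lin [9, 0, 512, 0, 83]) (neg 2)) (lin [5, 0, 256, 0, 139])))) (lin [0, 0, 2, 1])))

def bx : List (ℕ × ℕ × ℕ) := [(3, 20, 40), (0, 1, 8), (0, 1, 2), (0, 1, 1), (0, 1, 1), (0, 1, 65)]

def gs : List (Ex × ℕ) := [((add gA (mul (con 0) mo)), 6061418987520000), ((add gB (mul (con 0) mo)), 3417230868480000), ((add g1 (mul (con 0) mo)), 71991296000000), ((add g2 (mul (con 0) mo)), 71991296000000), ((add g3 (mul (con 0) mo)), 107986944000000), ((add g4 (mul (con 0) mo)), 143982592000000), ((add g5 (mul (con 0) mo)), 83205324800000), ((add g6 (mul (con 0) mo)), 381314048000), ((add g7 (mul (con 0) mo)), 19693764608000), ((add k8 (mul (con 0) mo)), 8998912000000), ((add k9 (mul (con 0) mo)), 35995648000000), ((add g8 (mul (con 0) mo)), 80851763200000)]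

theorem run_ok : BernL.run 165 6 bx gs tr = true := by
  decide +kernel



/-- the box of the two end columns of a hosted half unit -/
theorem box {a t u b v e r : ℝ} (ha : 3 ≤ 40 * a) (ha' : 40 * a ≤ 20) (ht : 0 ≤ 8 * t) (ht' : 8 * t ≤ 1)
    (hu : 0 ≤ u) (hu' : 2 * u ≤ 1) (hb : 0 ≤ b) (hb' : b ≤ 1) (hv : 0 ≤ v) (hv' : v ≤ 1) (he : 0 ≤ e)
    (he' : 65 * e ≤ 1) (h1 : b * v ≤ t * u + e) (h2 : b ≤ v) (h3 : u + v ≤ 1) (h4 : b + v ≤ 1)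
    (h5 : (t + e) + (u + e) ≤ 1 - a) (h6 : e * e ≤ 2 * (t + e) * (t + e) * (t + e))
    (h7 : e * e ≤ 2 * (u + e) * (u + e) * (u + e)) (h8 : 3 * e ≤ t) (h9 : 3 * e ≤ u) (hx : 8 * (t + e) ≤ 1)
    (r1 : 1 - a - v ≤ r) (r2 : -(a / 2) ≤ r) :
    -(2 * ((a + (t + e)) * (a + (u + e))))
      < 50 * (t + e) * (a - 2 * b) * (a + (u + e)) + 50 * (u + e) * (a + 2 * r) * (a + (t + e)) - 150 * (1 - a) * a * b * (a + (u + e)) := by
  by_contra hcon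
  push Not at hcon
  have ha0 : 0 ≤ a := by linarith
  have t0 : 0 ≤ t := by linarith
  have hw : 0 ≤ (u + e) * (a + (t + e)) := mul_nonneg (by linarith) (by linarith)
  have k1 := mul_le_mul_of_nonneg_left r1 hw
  have k2 := mul_le_mul_of_nonneg_left r2 hw
  refine BernL.no_point run_ok (fun k => ([a, t, u, b, v, e] : List ℝ).getD k 0) ?_ ?_
  · intro k hk
    simp only [bx]
    interval_cases k <;> norm_num <;> constructor <;> linarith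
  · intro g hg
    simp only [gs, List.mem_cons, List.not_mem_nil, or_false] at hg
    rcases hg with rfl | rfl | rfl | rfl | rfl | rfl | rfl | rfl | rfl | rfl | rfl | rfl
    · simp only [gA, fb, psx, ngx, q, p, c, x, w, Ex.ev, List.getD_cons_zero, List.getD_cons_succ, Nat.cast_ofNat, Nat.cast_one,
        Nat.cast_zero]
      linarith
    · simp only [gB, fb, psx, ngx, q, p, c, x, w, Ex.ev, List.getD_cons_zero, List.getD_cons_succ, Nat.cast_ofNat, Nat.cast_one,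
        Nat.cast_zero, mo]
      linarith
    · simp only [g1, fb, psx, ngx, q, p, c, x, w, Ex.ev, List.getD_cons_zero, List.getD_cons_succ, Nat.cast_ofNat, Nat.cast_one,
        Nat.cast_zero, mo]
      linarith
    · simp only [g2, fb, psx, ngx, q, p, c, x, w, Ex.ev, List.getD_cons_zero, List.getD_cons_succ, Nat.cast_ofNat, Nat.cast_one,
        Nat.cast_zero, mo]
      linarith
    · simp only [g3, fb, psx, ngx, q, p, c, x, w, Ex.ev, List.getD_cons_zero, List.getD_cons_succ, Nat.cast_ofNat, Nat.cast_one,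
        Nat.cast_zero, mo]
      linarith
    · simp only [g4, fb, psx, ngx, q, p, c, x, w, Ex.ev, List.getD_cons_zero, List.getD_cons_succ, Nat.cast_ofNat, Nat.cast_one,
        Nat.cast_zero, mo]
      linarith
    · simp only [g5, fb, psx, ngx, q, p, c, x, w, Ex.ev, List.getD_cons_zero, List.getD_cons_succ, Nat.cast_ofNat, Nat.cast_one,
        Nat.cast_zero, mo]
      linarith
    · simp only [g6, fb, psx, ngx, q, p, c, x, w, Ex.ev, List.getD_cons_zero, List.getD_cons_succ, Nat.cast_ofNat, Nat.cast_one,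
        Nat.cast_zero, mo]
      linarith
    · simp only [g7, fb, psx, ngx, q, p, c, x, w, Ex.ev, List.getD_cons_zero, List.getD_cons_succ, Nat.cast_ofNat, Nat.cast_one,
        Nat.cast_zero, mo]
      linarith
    · simp only [k8, fb, psx, ngx, q, p, c, x, w, Ex.ev, List.getD_cons_zero, List.getD_cons_succ, Nat.cast_ofNat, Nat.cast_one,
        Nat.cast_zero, mo]
      linarith
    · simp only [k9, fb, psx, ngx, q, p, c, x, w, Ex.ev, List.getD_cons_zero, List.getD_cons_succ, Nat.cast_ofNat, Nat.cast_one,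
        Nat.cast_zero, mo]
      linarith
    · simp only [g8, fb, psx, ngx, q, p, c, x, w, Ex.ev, List.getD_cons_zero, List.getD_cons_succ, Nat.cast_ofNat, Nat.cast_one,
        Nat.cast_zero, mo]
      linarith

end Pool.Agent.Lib.MP_f04ccf_co.CsBxE3

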