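import Pool.Agent.Lib.MP_f04ccf_co.M.BernL

/-!
MP_f04ccf_co, TEXT D: kernel box of the two end columns of a hosted half unit, factor (9/5) (1 - 2 A/R) (M/CsExt8.lean).
-/

set_option autoImplicit false
set_option maxRecDepth 100000
set_option linter.unusedSimpArgs false
set_option linter.unusedVariables false

namespace Pool.Agent.Lib.MP_f04ccf_co.CsBxE8
open BernK BernK.Ex BernL BernL.Tr

def c : Ex := (sub (con 1) (var 0))
def x : Ex := (add (var 1) (var 5))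
def w : Ex := (add (var 2) (var 5))
def p : Ex := (add (var 0) x)
def q : Ex := (add (var 0) w)
def fb : Ex := (mul (mul (mul (mul (mul (con 3600) c) (var 0)) (sub (con 1) (mul (con 2) x))) (var 3)) q)
def psx : Ex := (add (mul (mul (mul (con 1000) x) q) (var 0)) (mul (mul (mul (con 1000) w) p) (var 0)))
def ngx : Ex := (add (mul (mul (mul (con 2000) x) q) (var 3)) fb)
def gA : Ex := (sub (add (add ngx (mul (mul (mul (con 2000) w) p) (var 4))) (mul (mul (con 2) p) q)) (add psx (mul (mul (mul (con 2000) w) p) c)))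
def gB : Ex := (sub (add ngx (mul (mul (con 2) p) q)) (mul (mul (mul (con 1000) x) q) (var 0)))
def g1 : Ex := (sub (add (mul (var 1) (var 2)) (var 5)) (mul (var 3) (var 4)))
def g2 : Ex := (sub (var 4) (var 3))
def g3 : Ex := (sub (sub (con 1) (var 2)) (var 4))
def g4 : Ex := (sub (sub (con 1) (var 3)) (var 4))
def g5 : Ex := (sub (sub c x) w)
def g6 : Ex := (sub (mul (mul (mul (con 2) x) x) x) (mul (var 5) (var 5)))
def g7 : Ex := (sub (mul (mul (mul (con 2) w) w) w) (mul (var 5) (var 5)))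
def k8 : Ex := (sub (var 1) (mul (con 3) (var 5)))
def k9 : Ex := (sub (var 2) (mul (con 3) (var 5)))
def g8 : Ex := (sub (mul (con 8) x) (con 1))
def mo : Ex := (mul (mul (mul (mul (mul (mul (mul (mul (mul (mul (mul (mul (mul (var 0) (var 0)) (var 0)) (var 1)) (var 1)) (var 1)) (var 2)) (var 2)) (var 2)) (var 3)) (var 4)) (var 5)) (var 5)) (var 5))

def tr : BernL.Tr := (split 3 (split 4 (split 0 (split 3 (split 4 (split 3 (split 0 (split 5 (split 4 (split 2 (split 5 (split 3 (split 1 (split 1 (split 1 (neg 11) (split 4 (split 3 (split 0 (split 4 (lin [9, 0, 8192, 148, 0, 0, 0, 0, 0, 0, 2046]) (lin [1, 0, 1024, 0, 0, 0, 0, 0, 0, 0, 220])) (lin [1, 1, 1024, 42, 0, 0, 0, 0, 0, 0, 259])) (split 0 (lin [33, 0, 32768, 1418, 0, 0, 0, 0, 0, 0, 7142, 8]) (lin [7, 0, 8192, 397, 0, 0, 0, 0, 0, 0, 1783, 9]))) (lin [1, 0, 1024, 0, 0, 0, 0, 0, 0, 0, 196, 1])))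 (split 3 (split 4 (lin [1, 2, 1024, 32, 0, 0, 0, 0, 0, 0, 209]) (lin [1, 1, 1024, 0, 0, 0, 0, 0, 0, 0, 204])) (lin [1, 0, 1024, 38, 0, 0, 0, 0, 0, 0, 210]))) (split 4 (split 1 (split 3 (lin [1, 1, 1024, 32, 0, 0, 0, 0, 0, 0, 182]) (lin [1, 0, 1024, 32, 0, 0, 0, 0, 0, 0, 180])) (lin [1, 1, 1024, 64, 0, 0, 0, 0, 0, 0, 124])) (lin [1, 0, 1024, 0, 0, 0, 0, 0, 0, 0, 173]))) (split 0 (lin [6, 0, 8192, 504, 0, 0, 0, 0, 0, 0, 735, 5]) (split 1 (lin [10, 0, 16384, 1035, 0, 0, 0, 0, 0, 0, 1951, 23]) (lin [1, 0, 2048, 128])))) (split 1 (split 0 (split 3 (lin [5, 0, 0, 0, 0, 0, 0, 0, 0, 0, 1024]) (lin [5, 0, 4096, 271, 0, 0, 0, 0, 0, 0, 856, 3])) (split 3 (lin [1, 0, 26, 0, 0, 0, 0, 0, 0, 0, 256, 2]) (split 1 (split 2 (lin [121, 0, 131072, 10341, 0, 0, 0, 0, 0, 0, 28771, 408]) (neg 0)) (lin [1, 0, 512, 61, 0, 0, 0, 0, 0, 0, 354])))) (lin [9, 0, 3067, 351, 0, 0,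 0, 0, 0, 0, 4096]))) (neg 0)) (lin [23, 0, 16384, 0, 0, 0, 0, 0, 0, 0, 3430, 18])) (split 4 (split 2 (split 1 (lin [49, 0, 16384, 1859, 0, 0, 0, 0, 0, 0, 10376, 146]) (lin [1, 0, 0, 0, 0, 0, 0, 0, 0, 0, 512])) (neg 0)) (lin [3, 0, 2048, 0, 0, 0, 0, 0, 0, 0, 460, 6]))) (split 4 (split 5 (split 1 (split 2 (split 3 (split 1 (split 5 (split 1 (neg 11) (split 4 (split 0 (split 0 (lin [45, 21, 65536, 4096, 0, 0, 0, 0, 0, 0, 13713, 251]) (lin [10, 3, 16384, 967, 0, 0, 0, 0, 0, 0, 3286, 72])) (lin [5, 1, 8192, 512, 0, 0, 0, 0, 0, 0, 1694, 38])) (lin [5, 0, 8192, 0, 0, 0, 0, 0, 0, 0, 1250, 25]))) (lin [3, 0, 119, 0, 0, 0, 0, 0, 0, 0, 1024, 21])) (lin [3, 3, 4096, 256, 0, 0, 0, 0, 0, 0, 804])) (split 1 (split 1 (neg 11) (split 4 (lin [3, 0, 4096, 547, 0, 0, 0, 0, 0, 0, 927, 14]) (split 0 (lin [3, 0, 4096, 266, 0, 0, 0, 0, 0, 0, 871, 7]) (lin [5, 0, 8192, 569,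 0, 0, 0, 0, 0, 0, 1539, 33])))) (lin [23, 0, 32768, 2986, 0, 0, 0, 0, 0, 0, 6587]))) (neg 0)) (split 3 (neg 0) (lin [5, 0, 8192, 614, 0, 0, 0, 0, 0, 0, 1159]))) (split 0 (lin [105, 0, 65536, 7702, 0, 0, 0, 0, 0, 0, 31590, 457]) (split 1 (split 2 (lin [155, 0, 131072, 15531, 0, 0, 0, 0, 0, 0, 55521, 1356]) (neg 0)) (lin [1, 0, 0, 0, 0, 0, 0, 0, 0, 0, 512])))) (split 2 (split 1 (lin [3, 0, 4096, 0, 0, 0, 0, 0, 0, 0, 792, 18]) (lin [1, 0, 1024, 0, 0, 0, 0, 0, 0, 0, 173])) (neg 0)))) (split 0 (lin [14, 0, 16384, 1938, 0, 0, 0, 0, 0, 0, 1626, 25]) (split 1 (split 5 (lin [65, 0, 131072, 16028, 0, 0, 0, 0, 0, 0, 0, 570]) (split 4 (lin [13, 0, 16384, 3233, 0, 0, 0, 0, 0, 0, 3472, 109]) (split 2 (lin [53, 0, 65536, 4354, 0, 0, 0, 0, 0, 0, 14090, 396]) (neg 0)))) (lin [19, 0, 32768, 4096])))) (split 0 (lin [137, 0, 65536, 0, 0, 0, 0, 0, 0, 0, 14003, 31]) (split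 1 (lin [5, 0, 4096, 0, 0, 0, 0, 0, 0, 0, 620, 28]) (lin [1, 0, 1024])))) (split 2 (split 1 (lin [1, 0, 2048, 317]) (lin [19, 0, 16384, 4155])) (split 1 (lin [1, 0, 1024, 193]) (lin [11, 0, 8192, 842, 0, 0, 1477])))) (split 4 (split 3 (split 2 (split 1 (split 3 (split 5 (split 4 (split 0 (split 1 (split 1 (neg 11) (split 3 (lin [5, 2, 8192, 512, 0, 0, 0, 0, 0, 0, 1760, 63]) (split 4 (lin [9, 0, 16384, 2930, 0, 0, 0, 0, 0, 0, 3609, 96]) (split 0 (split 2 (lin [73, 0, 131072, 10212, 0, 0, 0, 0, 0, 0, 27011, 572]) (neg 0)) (split 2 (lin [33, 0, 65536, 5433, 0, 0, 0, 0, 0, 0, 13361, 309]) (neg 0)))))) (split 3 (lin [1, 0, 1024, 64, 0, 0, 0, 0, 0, 0, 196]) (lin [577, 0, 1048576, 92574, 0, 0, 0, 0, 0, 0, 204499]))) (split 1 (split 1 (neg 11) (split 3 (lin [1, 0, 1024, 64, 0, 0, 0, 0, 0, 0, 226, 11]) (split 4 (lin [1, 0, 2048, 481, 0, 0, 0, 0, 0, 0, 451, 19])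 (split 2 (lin [15, 0, 32768, 2795, 0, 0, 0, 0, 0, 0, 6371, 138]) (neg 0))))) (lin [5, 0, 8192, 791, 0, 0, 0, 0, 0, 0, 2239]))) (split 0 (split 1 (lin [1, 0, 2048, 0, 0, 0, 0, 0, 0, 0, 256, 19]) (lin [1, 0, 2048])) (split 1 (lin [3, 0, 8192, 0, 0, 0, 0, 0, 0, 0, 781, 69]) (lin [1, 0, 2048])))) (split 1 (split 4 (split 0 (split 0 (split 2 (lin [63, 0, 65536, 7795, 0, 0, 0, 0, 0, 0, 26440, 880]) (neg 0)) (split 2 (lin [13, 0, 16384, 1955, 0, 0, 0, 0, 0, 0, 5943, 249]) (neg 0))) (split 0 (lin [11, 0, 16384, 1961, 0, 0, 0, 0, 0, 0, 5141, 260]) (lin [5, 0, 8192, 982, 0, 0, 0, 0, 0, 0, 2292, 134]))) (split 0 (lin [83, 0, 131072, 0, 0, 0, 0, 0, 0, 0, 28231, 1556]) (split 2 (lin [69, 0, 131072, 0, 0, 0, 0, 0, 0, 0, 28051, 1855]) (neg 0)))) (lin [3, 0, 2048, 230, 0, 0, 0, 0, 0, 0, 1112]))) (split 4 (split 5 (split 0 (lin [91, 0, 262144, 31965, 0, 0, 0, 0, 0,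 0, 0, 1367]) (lin [5, 0, 16384, 2163, 0, 0, 0, 0, 0, 0, 0, 115])) (split 0 (split 1 (lin [5, 0, 8192, 1402, 0, 0, 0, 0, 0, 0, 1789, 95]) (lin [1, 0, 2048, 321, 0, 0, 0, 0, 0, 0, 284])) (split 1 (lin [69, 0, 131072, 24494, 0, 0, 0, 0, 0, 0, 28051, 1855]) (lin [1, 0, 2048, 327, 0, 0, 0, 0, 0, 0, 339])))) (split 1 (split 5 (lin [9, 0, 32768, 54, 0, 0, 0, 0, 0, 0, 0, 254]) (split 0 (split 2 (split 1 (lin [1, 0, 2048, 142, 0, 0, 0, 0, 0, 0, 326, 20]) (lin [1, 0, 2048, 147, 0, 0, 0, 0, 0, 0, 342])) (lin [3, 0, 4096, 0, 0, 0, 0, 0, 0, 0, 0, 31])) (split 2 (split 1 (lin [25, 0, 65536, 4499, 0, 0, 0, 0, 0, 0, 8833, 769]) (lin [3, 0, 8192, 536, 0, 0, 0, 0, 0, 0, 1055])) (lin [1, 0, 1024, 241, 0, 0, 0, 0, 0, 0, 0, 9])))) (lin [9, 0, 16384, 1895, 0, 0, 0, 0, 0, 0, 2008])))) (split 3 (lin [3, 3, 4096, 467, 0, 0, 0, 0, 0, 0, 460]) (lin [11, 0, 16384, 2464, 0, 0,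 0, 0, 0, 0, 2707]))) (lin [1, 0, 1024])) (lin [1, 0, 2048, 485])) (split 1 (split 5 (split 0 (lin [3, 0, 4096, 0, 0, 0, 0, 0, 0, 0, 33, 22]) (lin [9, 0, 16384, 0, 0, 0, 0, 0, 0, 0, 0, 43])) (split 3 (split 0 (lin [407, 0, 524288, 0, 0, 0, 0, 0, 0, 0, 41299, 4957]) (lin [77, 0, 131072, 0, 0, 0, 0, 0, 0, 0, 4037, 1636])) (lin [1, 0, 2048]))) (split 2 (lin [5, 0, 8192]) (lin [3, 0, 4096, 48, 0, 0, 367]))))) (split 2 (split 1 (split 0 (split 4 (split 0 (split 2 (split 3 (lin [17, 0, 4096, 0, 0, 0, 0, 0, 0, 0, 868, 14]) (neg 2)) (lin [5, 0, 2048])) (split 2 (lin [959, 0, 524288, 0, 0, 0, 0, 0, 0, 0, 59487, 4084]) (lin [13, 0, 8192, 0, 0, 0, 0, 0, 0, 0, 0, 41]))) (split 2 (split 0 (split 5 (split 4 (split 0 (split 1 (lin [183, 0, 32768, 0, 0, 0, 0, 0, 0, 0, 3518, 169]) (lin [19, 0, 4096, 0, 0, 0, 0, 0, 0, 0, 406])) (lin [7, 0, 2048, 0, 0, 0, 0, 0, 0, 0, 62,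 12])) (split 1 (split 1 (neg 11) (split 0 (split 2 (split 5 (split 0 (lin [0, 19, 2048]) (lin [0, 15, 2048])) (split 0 (split 4 (lin [19, 0, 2048, 0, 0, 0, 0, 0, 0, 0, 91, 17]) (split 0 (split 3 (split 3 (lin [0, 3, 256]) (neg 2)) (neg 2)) (lin [0, 79, 8192, 0, 0, 0, 0, 0, 0, 0, 0, 72]))) (lin [0, 15, 2048]))) (split 5 (split 3 (split 0 (lin [1, 0, 128, 0, 29]) (lin [3, 0, 512, 0, 100])) (neg 2)) (split 2 (split 0 (lin [66, 0, 8192, 0, 1999]) (lin [215, 0, 32768, 0, 7031])) (lin [3, 0, 512, 0, 136])))) (split 5 (split 3 (lin [18, 125, 32768, 0, 1148, 0, 0, 0, 0, 0, 0, 31]) (neg 2)) (split 0 (split 2 (lin [0, 3, 512, 0, 0, 0, 0, 0, 0, 0, 0, 2]) (split 3 (split 3 (lin [11, 12, 4096, 0, 466]) (neg 2)) (neg 2))) (lin [3, 30, 8192, 0, 245]))))) (split 0 (split 2 (split 5 (split 0 (split 3 (lin [1, 7, 1024, 0, 32]) (neg 2)) (lin [0, 6, 1024, 0, 39])) (split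 0 (split 4 (lin [1, 0, 128, 0, 0, 0, 0, 0, 0, 0, 1]) (split 1 (split 1 (split 3 (lin [4, 35, 4096, 0, 147]) (neg 2)) (lin [21, 122, 16384, 0, 829])) (split 3 (split 3 (lin [3, 15, 2048, 0, 108]) (neg 2)) (neg 2)))) (lin [0, 25, 4096]))) (split 4 (split 5 (split 3 (split 1 (lin [23, 0, 4096, 0, 525]) (lin [11, 0, 2048, 0, 448])) (neg 2)) (split 2 (split 0 (split 3 (lin [7, 0, 1024, 0, 184]) (neg 2)) (lin [11, 0, 2048, 0, 365])) (lin [79, 0, 16384, 0, 4293]))) (split 3 (lin [21, 0, 3124, 0, 4096]) (neg 2)))) (split 5 (split 3 (lin [22, 107, 32768, 0, 1979]) (neg 2)) (split 0 (split 1 (split 3 (split 2 (lin [0, 3, 512]) (lin [5, 0, 1024, 0, 253])) (neg 2)) (split 3 (lin [49, 224, 65536, 0, 4703]) (neg 2))) (lin [5, 24, 8192, 0, 477])))))) (split 4 (split 0 (split 1 (split 2 (lin [27, 0, 4096, 0, 0, 0, 0, 0, 0, 0, 876, 49]) (lin [89, 0, 16384, 0, 0, 0,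 0, 0, 0, 0, 0, 148])) (split 2 (lin [3, 0, 512, 0, 0, 0, 0, 0, 0, 0, 59]) (split 3 (lin [5, 0, 1024]) (neg 2)))) (split 1 (split 2 (lin [37, 0, 8192, 0, 0, 0, 0, 0, 0, 0, 1146, 93]) (split 3 (lin [67, 0, 16384, 0, 0, 0, 0, 0, 0, 0, 0, 171]) (neg 2))) (lin [57, 0, 16384, 0, 0, 0, 0, 0, 0, 0, 714]))) (split 1 (split 5 (split 0 (split 2 (split 3 (split 0 (split 4 (split 1 (lin [11, 0, 1024, 0, 0, 0, 0, 0, 0, 0, 77, 17]) (split 3 (lin [21, 0, 2048, 0, 0, 0, 0, 0, 0, 0, 169]) (neg 2))) (split 1 (split 0 (split 5 (split 3 (lin [0, 53, 4096, 0, 0, 0, 0, 0, 0, 0, 4, 41]) (neg 2)) (split 2 (lin [0, 1, 64, 0, 0, 0, 0, 0, 0, 0, 18, 1]) (split 2 (split 3 (split 3 (lin [0, 15, 1024, 0, 0, 0, 0, 0, 0, 0, 0, 12]) (neg 2)) (neg 2)) (lin [52, 0, 4096, 0, 1150, 0, 0, 0, 0, 0, 0, 45])))) (lin [0, 89, 8192, 0, 0, 0, 0, 0, 0, 0, 13, 96])) (split 5 (split 0 (split 1 (split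 3 (split 3 (lin [0, 13, 1024]) (neg 2)) (neg 2)) (split 3 (lin [3, 90, 8192, 0, 109]) (neg 2))) (lin [0, 161, 16384])) (split 2 (split 3 (split 1 (lin [0, 111, 8192, 0, 0, 0, 0, 0, 0, 0, 2076]) (lin [0, 3, 256, 0, 0, 0, 0, 0, 0, 0, 64])) (neg 2)) (split 3 (split 3 (split 3 (lin [3, 12, 1024, 0, 61]) (neg 2)) (neg 2)) (neg 2)))))) (split 4 (lin [503, 0, 65536, 0, 0, 0, 0, 0, 0, 0, 1583, 697]) (split 1 (lin [54, 2213, 262144, 0, 1833, 0, 0, 0, 0, 0, 0, 3193]) (split 3 (lin [0, 35, 4096]) (neg 2))))) (neg 2)) (split 4 (split 2 (split 0 (split 1 (lin [37, 0, 4096, 0, 0, 0, 0, 0, 0, 0, 0, 36]) (split 3 (split 3 (lin [19, 0, 2048, 0, 577]) (neg 2)) (neg 2))) (split 3 (split 1 (lin [61, 0, 8192, 0, 1274, 0, 0, 0, 0, 0, 0, 84]) (split 3 (lin [61, 0, 8192, 0, 2096]) (neg 2))) (neg 2))) (split 3 (split 1 (lin [55, 0, 8192, 0, 2380, 0, 0, 0, 0, 0, 0, 76]) (lin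 [25, 0, 4096, 0, 1215])) (neg 2))) (split 3 (split 5 (split 1 (lin [15, 0, 1705, 0, 2048, 0, 0, 0, 0, 0, 0, 14]) (split 3 (lin [35, 0, 4096, 0, 2539]) (neg 2))) (split 3 (split 1 (lin [295, 0, 32768, 0, 19872, 0, 0, 0, 0, 0, 0, 282]) (split 0 (lin [5, 0, 512, 0, 337]) (lin [1, 0, 128, 0, 80]))) (neg 2))) (neg 2)))) (split 2 (split 0 (split 3 (lin [0, 49, 8192, 0, 0, 0, 0, 0, 0, 0, 0, 93]) (neg 2)) (lin [0, 5, 1024, 0, 0, 0, 0, 0, 0, 0, 0, 12])) (split 4 (split 3 (split 2 (split 0 (split 1 (lin [199, 0, 32768, 0, 3714, 0, 0, 0, 0, 0, 0, 374]) (split 3 (lin [25, 0, 4096, 0, 752]) (neg 2))) (lin [61, 533, 131072, 0, 2071, 0, 0, 0, 0, 0, 0, 1390])) (split 1 (lin [9, 0, 2048, 0, 505, 0, 0, 0, 0, 0, 0, 25]) (lin [9, 0, 2048, 0, 485]))) (neg 2)) (split 3 (split 1 (lin [0, 49, 8192, 0, 7861, 0, 0, 0, 0, 0, 0, 92]) (split 3 (lin [0, 3, 512, 0, 249]) (neg 2)))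 (neg 2))))) (split 0 (split 2 (split 2 (neg 10) (split 3 (split 1 (split 1 (neg 11) (split 0 (split 4 (split 0 (lin [3, 0, 256, 0, 0, 0, 0, 0, 0, 0, 38, 3]) (lin [85, 0, 8192, 0, 0, 0, 0, 0, 0, 0, 1041, 110])) (split 4 (split 1 (neg 11) (split 5 (split 0 (split 2 (split 3 (split 0 (split 3 (split 3 (lin [2, 7, 512, 0, 38]) (neg 2)) (neg 2)) (lin [0, 111, 8192, 0, 0, 0, 0, 0, 0, 0, 172, 108])) (neg 2)) (split 3 (split 3 (lin [29, 0, 2048, 0, 747, 0, 0, 0, 0, 0, 0, 12]) (neg 2)) (neg 2))) (split 2 (split 3 (lin [0, 49, 4096, 0, 0, 0, 0, 0, 0, 0, 63, 55]) (neg 2)) (split 3 (split 3 (lin [25, 0, 2048, 0, 699, 0, 0, 0, 0, 0, 0, 11]) (neg 2)) (neg 2)))) (split 3 (split 0 (split 2 (split 3 (split 3 (lin [569, 471, 65536, 0, 13178, 0, 0, 0, 0, 0, 20575, 479]) (neg 2)) (neg 2)) (split 3 (split 3 (lin [1, 0, 64, 0, 22]) (neg 2)) (neg 2))) (split 2 (split 0 (split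 3 (split 3 (lin [0, 7, 512, 0, 0, 0, 0, 0, 0, 0, 40, 6]) (neg 2)) (neg 2)) (lin [0, 47, 4096, 0, 0, 0, 0, 0, 0, 0, 94, 62])) (split 3 (split 3 (lin [5, 2, 512, 0, 135, 0, 0, 0, 0, 0, 0, 8]) (neg 2)) (neg 2)))) (neg 2)))) (lin [0, 0, 0, 0, 4, 0, 0, 0, 0, 0, 3]))) (split 4 (split 0 (lin [75, 0, 8192, 0, 0, 0, 0, 0, 0, 0, 434, 117]) (lin [67, 0, 8192, 0, 0, 0, 0, 0, 0, 0, 198, 125])) (split 0 (split 5 (split 3 (lin [0, 39, 4096, 0, 0, 0, 0, 0, 0, 0, 24, 56]) (neg 2)) (split 0 (split 5 (lin [0, 2583, 262144, 0, 0, 0, 0, 0, 0, 0, 2607, 3710]) (split 3 (split 3 (split 2 (lin [0, 23, 2048, 0, 0, 0, 0, 0, 0, 0, 223, 21]) (lin [981, 422, 131072, 0, 28599, 0, 0, 0, 0, 0, 0, 2272])) (neg 2)) (neg 2))) (split 3 (lin [0, 19, 2048, 0, 0, 0, 0, 0, 0, 0, 24, 31]) (neg 2)))) (split 3 (lin [0, 69, 8192, 0, 3, 0, 0, 0, 0, 0, 66, 125]) (neg 2)))))) (split 0 (split 4 (split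 0 (split 3 (lin [45, 0, 4096, 0, 0, 0, 0, 0, 0, 0, 415]) (neg 2)) (split 3 (lin [5, 0, 512, 0, 0, 0, 0, 0, 0, 0, 37]) (neg 2))) (split 4 (split 5 (split 3 (split 3 (split 3 (lin [3, 6, 512, 0, 70]) (neg 2)) (neg 2)) (neg 2)) (split 3 (split 1 (split 0 (split 2 (split 3 (split 3 (lin [1, 1, 128, 0, 19, 0, 0, 0, 0, 0, 24]) (neg 2)) (neg 2)) (split 3 (split 3 (lin [1, 0, 64, 0, 24]) (neg 2)) (neg 2))) (split 3 (split 3 (lin [5, 10, 1024, 0, 134]) (neg 2)) (neg 2))) (split 0 (split 2 (split 3 (split 5 (lin [125, 90, 16384, 0, 3200, 0, 0, 0, 0, 0, 4086]) (lin [13, 0, 1024, 0, 377, 0, 0, 0, 0, 0, 533])) (neg 2)) (split 3 (lin [13, 0, 1024, 0, 437]) (neg 2))) (split 3 (split 2 (lin [0, 3, 256]) (lin [23, 0, 2048, 0, 794])) (neg 2)))) (neg 2))) (lin [0, 0, 0, 0, 1, 0, 0, 0, 0, 0, 1]))) (split 4 (split 0 (split 3 (lin [9, 0, 1024, 0, 0, 0, 0, 0, 0, 0, 45]) (neg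 2)) (lin [991, 0, 131072, 0, 0, 0, 0, 0, 0, 0, 1731])) (split 3 (split 3 (split 0 (lin [0, 163, 16384]) (lin [0, 9, 1024])) (neg 2)) (neg 2))))) (neg 2))) (split 4 (split 3 (split 2 (split 0 (split 1 (split 3 (split 3 (lin [3, 0, 256, 0, 85, 0, 0, 0, 0, 0, 0, 5]) (neg 2)) (neg 2)) (split 3 (split 3 (lin [3, 0, 256, 0, 85]) (neg 2)) (neg 2))) (split 1 (split 3 (split 3 (lin [9, 0, 1024, 0, 301, 0, 0, 0, 0, 0, 0, 21]) (neg 2)) (neg 2)) (split 3 (split 3 (lin [9, 0, 1024, 0, 301]) (neg 2)) (neg 2)))) (split 1 (lin [53, 0, 8192, 0, 2415, 0, 0, 0, 0, 0, 0, 121]) (split 3 (lin [27, 0, 4096, 0, 1345]) (neg 2)))) (neg 2)) (split 3 (split 1 (split 3 (split 5 (split 0 (lin [11, 0, 1024, 0, 608, 0, 0, 0, 0, 0, 0, 9]) (lin [35, 0, 4096, 0, 2388, 0, 0, 0, 0, 0, 0, 39])) (split 1 (neg 11) (split 0 (lin [11, 0, 1024, 0, 606, 0, 0, 0, 0, 0, 0, 13]) (split 2 (split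 3 (lin [9, 0, 1024, 0, 398, 0, 0, 0, 0, 0, 0, 14]) (neg 2)) (neg 4))))) (neg 2)) (split 3 (split 5 (split 0 (lin [5, 0, 512, 0, 336]) (lin [1, 0, 128, 0, 80])) (split 0 (split 1 (lin [21, 0, 2048, 0, 1273]) (lin [5, 0, 512, 0, 329])) (split 1 (lin [135, 0, 16384, 0, 9818]) (lin [1, 0, 128, 0, 78])))) (neg 2))) (neg 2)))) (split 2 (split 0 (split 1 (split 0 (split 3 (split 3 (lin [0, 29, 4096, 0, 6, 0, 0, 0, 0, 0, 14, 64]) (neg 2)) (neg 2)) (lin [0, 25, 4096, 0, 8, 0, 0, 0, 0, 0, 5, 67])) (split 3 (split 3 (split 3 (lin [1, 7, 1024]) (neg 2)) (neg 2)) (neg 2))) (split 1 (lin [0, 85, 16384, 0, 46, 0, 0, 0, 0, 0, 0, 264]) (lin [0, 1295, 262144]))) (split 4 (split 3 (split 2 (split 0 (split 1 (split 1 (neg 11) (split 3 (split 3 (split 0 (lin [15, 0, 2048, 0, 549, 0, 0, 0, 0, 0, 0, 33]) (lin [13, 14, 4096, 0, 546, 0, 0, 0, 0, 0, 0, 68])) (neg 2)) (neg 2)))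 (split 3 (split 3 (lin [41, 16, 8192, 0, 1661]) (neg 2)) (neg 2))) (split 1 (split 0 (split 3 (lin [77, 102, 32768, 0, 924, 0, 0, 0, 0, 0, 0, 517]) (neg 2)) (lin [0, 19, 4096, 0, 22, 0, 0, 0, 0, 0, 0, 65])) (split 3 (split 3 (lin [5, 6, 2048, 0, 229]) (neg 2)) (neg 2)))) (split 1 (split 3 (split 0 (lin [3, 0, 512, 0, 166, 0, 0, 0, 0, 0, 0, 7]) (lin [5, 0, 1024, 0, 307, 0, 0, 0, 0, 0, 0, 13])) (neg 2)) (split 3 (split 0 (lin [43, 0, 8192, 0, 1913]) (lin [37, 0, 8192, 0, 1908])) (neg 2)))) (neg 2)) (split 3 (split 3 (split 5 (split 1 (split 0 (lin [0, 7, 1024, 0, 535, 0, 0, 0, 0, 0, 0, 12]) (lin [0, 3, 512, 0, 240, 0, 0, 0, 0, 0, 0, 8])) (lin [0, 13, 2048, 0, 1006])) (split 1 (split 0 (lin [0, 29, 4096, 0, 2120, 0, 0, 0, 0, 0, 0, 62]) (lin [0, 3, 512, 0, 238, 0, 0, 0, 0, 0, 0, 8])) (split 0 (lin [0, 7, 1024, 0, 600]) (lin [0, 3, 512, 0, 236])))) (neg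 2)) (neg 2)))))) (split 0 (split 2 (split 5 (split 3 (split 0 (split 4 (split 1 (lin [35, 0, 4096, 0, 0, 0, 0, 0, 0, 0, 60]) (lin [1, 0, 128])) (split 1 (split 2 (lin [0, 11, 1024, 0, 0, 0, 0, 0, 0, 0, 262]) (split 0 (split 2 (split 3 (lin [9, 173, 16384, 0, 281]) (neg 2)) (lin [5, 0, 512, 0, 148])) (lin [24, 257, 32768, 0, 983]))) (split 3 (split 3 (split 1 (lin [1, 9, 1024, 0, 42]) (lin [1, 4, 512, 0, 38])) (neg 2)) (neg 2)))) (split 3 (lin [9, 105, 16384, 0, 377]) (neg 2))) (neg 2)) (split 2 (neg 10) (split 3 (split 3 (split 3 (split 3 (split 4 (neg 0) (lin [31, 88, 8192, 0, 1372])) (split 4 (lin [1, 0, 128]) (lin [3, 0, 512, 0, 134]))) (neg 2)) (neg 2)) (neg 2)))) (split 4 (split 5 (split 3 (split 2 (split 0 (split 3 (split 1 (lin [17, 0, 2048, 0, 697]) (lin [31, 0, 4096, 0, 1505])) (neg 2)) (split 1 (lin [25, 0, 4096, 0, 808]) (lin [23, 0, 4096,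 0, 908]))) (lin [667, 0, 131072, 0, 36299])) (neg 2)) (split 3 (split 2 (split 3 (split 3 (lin [19, 0, 2048, 0, 819]) (neg 2)) (neg 2)) (split 3 (lin [181, 0, 32768, 0, 10375]) (neg 2))) (neg 2))) (split 3 (split 5 (split 1 (split 3 (lin [1, 0, 128, 0, 84]) (neg 2)) (split 3 (lin [15, 0, 2048, 0, 1443]) (neg 2))) (split 3 (split 5 (split 1 (split 0 (lin [9, 0, 1024, 0, 710]) (lin [15, 0, 2048, 0, 1327])) (lin [119, 0, 16384, 0, 11761])) (split 1 (split 0 (lin [9, 0, 1024, 0, 708]) (lin [7, 0, 1024, 0, 658])) (split 0 (lin [1, 0, 128, 0, 93]) (lin [7, 0, 1024, 0, 690])))) (neg 2))) (neg 2)))) (split 5 (split 2 (split 3 (lin [0, 5, 1024]) (neg 2)) (split 4 (split 3 (split 3 (split 2 (lin [41, 0, 8192, 0, 1611]) (lin [71, 0, 16384, 0, 3557])) (neg 2)) (neg 2)) (lin [0, 5, 1029, 0, 2048]))) (split 2 (split 0 (split 1 (split 3 (lin [0, 183, 32768]) (neg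 2)) (lin [0, 5, 1024])) (lin [0, 9, 2048])) (split 3 (split 3 (split 3 (lin [9, 19, 4096, 0, 776]) (neg 2)) (neg 2)) (neg 2)))))))) (split 5 (split 4 (lin [157, 0, 65536, 0, 0, 0, 0, 0, 0, 0, 0, 297]) (split 0 (split 1 (lin [3, 49, 16384, 0, 325, 0, 0, 0, 0, 0, 0, 116]) (lin [3, 9, 4096, 0, 233])) (lin [0, 5, 2048, 0, 0, 0, 0, 0, 0, 0, 0, 25]))) (split 4 (split 3 (split 1 (split 0 (split 1 (lin [13, 0, 4096, 0, 0, 0, 0, 0, 0, 0, 115, 60]) (lin [13, 0, 4096])) (lin [83, 0, 32768, 0, 0, 0, 0, 0, 0, 0, 0, 415])) (lin [43, 0, 16384])) (neg 2)) (split 0 (split 1 (split 5 (split 0 (split 1 (lin [0, 121, 32768, 0, 0, 0, 0, 0, 0, 0, 0, 351]) (lin [11, 104, 32768, 0, 972])) (lin [0, 25, 8192, 0, 0, 0, 0, 0, 0, 0, 0, 104])) (split 2 (split 3 (lin [0, 16, 4096, 0, 0, 0, 0, 0, 0, 0, 0, 61]) (neg 2)) (split 0 (split 1 (split 2 (split 3 (lin [0, 133, 32768, 0, 146,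 0, 0, 0, 0, 0, 0, 522]) (neg 2)) (split 3 (split 3 (lin [33, 0, 8192, 0, 2227, 0, 0, 0, 0, 0, 0, 150]) (neg 2)) (neg 2))) (split 2 (split 3 (lin [1, 15, 4096, 0, 76]) (neg 2)) (split 3 (split 3 (lin [1, 0, 256, 0, 73]) (neg 2)) (neg 2)))) (split 1 (split 3 (split 3 (lin [2, 25, 8192, 0, 195, 0, 0, 0, 0, 0, 0, 138]) (neg 2)) (neg 2)) (split 3 (lin [1, 12, 4096, 0, 111]) (neg 2)))))) (split 3 (split 3 (lin [1, 6, 2048, 0, 92]) (neg 2)) (neg 2))) (split 1 (split 0 (lin [2, 43, 16384, 0, 221, 0, 0, 0, 0, 0, 0, 235]) (lin [0, 5, 2048, 0, 0, 0, 0, 0, 0, 0, 0, 29])) (lin [0, 5, 2048])))))) (split 4 (split 0 (split 5 (split 0 (split 3 (lin [113, 0, 32768, 0, 4371, 0, 0, 0, 0, 0, 0, 32]) (neg 2)) (split 3 (split 1 (lin [3, 0, 1024]) (lin [49, 0, 16384, 0, 4353])) (neg 2))) (split 2 (split 0 (split 1 (lin [9, 0, 2048, 0, 135, 0, 0, 0, 0, 0, 0, 14]) (split 3 (lin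 [35, 0, 8192, 0, 2632]) (neg 2))) (split 1 (split 3 (lin [29, 0, 8192, 0, 1693, 0, 0, 0, 0, 0, 0, 59]) (neg 2)) (split 3 (lin [27, 0, 8192, 0, 2385]) (neg 2)))) (split 3 (split 1 (lin [13, 0, 4096, 0, 1417, 0, 0, 0, 0, 0, 0, 61]) (lin [3, 0, 1024, 0, 360])) (neg 2)))) (split 5 (split 2 (split 3 (split 1 (lin [19, 0, 8192, 0, 1039, 0, 0, 0, 0, 0, 0, 28]) (lin [9, 0, 4096, 0, 737])) (neg 2)) (lin [29, 0, 16384, 0, 4109])) (split 2 (split 3 (split 3 (split 0 (lin [201, 0, 65536, 0, 14626, 0, 0, 0, 0, 0, 0, 404]) (split 1 (split 3 (lin [9, 2, 4096, 0, 678, 0, 0, 0, 0, 0, 0, 59]) (lin [3, 0, 2048])) (lin [5, 0, 2048, 0, 379]))) (neg 2)) (neg 2)) (split 3 (lin [1, 0, 512, 0, 128]) (neg 2))))) (split 5 (split 0 (lin [5, 0, 1407, 0, 2048]) (lin [1, 0, 414, 0, 512, 0, 0, 0, 0, 0, 0, 1])) (split 3 (split 0 (split 1 (split 5 (lin [1, 0, 256, 0, 174, 0, 0, 0, 0,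 0, 0, 1]) (split 0 (lin [11, 0, 2048, 0, 1398, 0, 0, 0, 0, 0, 0, 19]) (lin [1, 0, 256, 0, 166, 0, 0, 0, 0, 0, 0, 2]))) (split 5 (lin [1, 0, 256, 0, 186]) (split 0 (lin [19, 0, 4096, 0, 3220]) (lin [15, 0, 4096, 0, 2850])))) (split 5 (lin [43, 0, 16384, 0, 11562, 0, 0, 0, 0, 0, 0, 101]) (split 1 (split 0 (lin [51, 0, 16384, 0, 10227, 0, 0, 0, 0, 0, 0, 120]) (lin [83, 0, 32768, 0, 20068, 0, 0, 0, 0, 0, 0, 415])) (lin [43, 0, 16384, 0, 11033])))) (neg 2)))))) (split 4 (split 0 (split 2 (lin [41, 0, 32768, 0, 0, 0, 0, 0, 0, 0, 2030, 268]) (lin [295, 0, 262144, 0, 0, 0, 0, 0, 0, 0, 0, 634])) (split 3 (lin [35, 0, 32768, 0, 0, 0, 0, 0, 0, 0, 0, 353]) (neg 2))) (split 0 (split 2 (split 5 (lin [0, 27, 16384, 0, 0, 0, 0, 0, 0, 0, 0, 153]) (split 0 (split 3 (split 3 (lin [0, 1, 512, 0, 0, 0, 0, 0, 0, 0, 0, 7]) (neg 2)) (neg 2)) (lin [0, 103, 65536, 0, 0, 0, 0,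 0, 0, 0, 0, 1183]))) (split 4 (split 5 (split 2 (split 0 (split 1 (lin [146, 75, 131072, 0, 13874, 0, 0, 0, 0, 0, 0, 1178]) (lin [7, 0, 4096, 0, 814])) (lin [0, 47, 32768, 0, 537, 0, 0, 0, 0, 0, 0, 212])) (lin [23015, 0, 16777216, 0, 3962088, 0, 0, 0, 0, 0, 0, 35637])) (split 1 (split 2 (split 0 (split 3 (split 3 (split 3 (lin [13, 22, 16384, 0, 1117, 0, 0, 0, 0, 0, 0, 268]) (lin [1, 0, 2048])) (neg 2)) (neg 2)) (split 4 (lin [3, 0, 2048, 0, 0, 0, 0, 0, 0, 0, 0, 24]) (split 3 (lin [1, 12, 8192, 0, 167, 0, 0, 0, 0, 0, 0, 108]) (neg 2)))) (split 3 (split 0 (lin [27, 0, 16384, 0, 4095, 0, 0, 0, 0, 0, 0, 147]) (split 1 (lin [93, 0, 65536, 0, 18052, 0, 0, 0, 0, 0, 0, 990]) (lin [23, 0, 16384, 0, 4513]))) (neg 2))) (split 3 (split 3 (lin [93, 132, 131072, 0, 12363]) (neg 2)) (neg 2)))) (split 5 (lin [0, 31, 16384, 0, 13958, 0, 0, 0, 0, 0, 0, 155]) (split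 1 (split 3 (lin [0, 1, 512, 0, 224, 0, 0, 0, 0, 0, 0, 7]) (neg 2)) (lin [0, 31, 16384, 0, 14758]))))) (split 5 (split 0 (lin [5, 72, 65536, 0, 1792, 0, 0, 0, 0, 0, 0, 421]) (lin [0, 9, 8192, 0, 0, 0, 0, 0, 0, 0, 0, 20])) (split 2 (lin [0, 43, 32768, 0, 0, 0, 0, 0, 0, 0, 0, 684]) (split 0 (split 1 (split 2 (lin [0, 21, 16384, 0, 0, 0, 0, 0, 0, 0, 0, 230]) (split 2 (split 5 (lin [1, 19, 16384, 0, 384, 0, 0, 0, 0, 0, 0, 172]) (split 0 (split 1 (split 3 (lin [11, 73, 65536, 0, 2741, 0, 0, 0, 0, 0, 0, 960]) (neg 2)) (lin [11, 72, 65536, 0, 2780])) (lin [0, 157, 131072, 0, 1702, 0, 0, 0, 0, 0, 0, 1607]))) (lin [615, 0, 524288, 0, 177426, 0, 0, 0, 0, 0, 0, 7115]))) (lin [4, 15, 16384, 0, 1193])) (split 3 (lin [1, 17, 16384, 0, 389, 0, 0, 0, 0, 0, 0, 202]) (neg 2)))))))) (split 3 (split 4 (split 0 (split 0 (lin [29, 0, 8192]) (lin [1, 0, 512])) (lin [5, 0,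 4096, 0, 0, 0, 69])) (split 0 (split 2 (split 0 (split 4 (split 3 (lin [269, 0, 65536, 0, 0, 0, 0, 0, 0, 0, 4839]) (neg 2)) (split 5 (split 2 (split 0 (split 3 (split 1 (split 3 (lin [15, 54, 8192, 0, 482]) (neg 2)) (split 4 (lin [3, 0, 512]) (split 5 (lin [4, 9, 2048, 0, 297]) (split 1 (split 3 (lin [6, 9, 2048, 0, 304]) (neg 2)) (split 3 (split 1 (lin [3, 4, 1024, 0, 185]) (lin [13, 15, 4096, 0, 817])) (neg 2)))))) (neg 2)) (lin [0, 1, 256])) (split 1 (split 0 (split 2 (split 0 (split 1 (lin [13, 0, 2048, 0, 706]) (split 3 (lin [25, 0, 4096, 0, 1567]) (neg 2))) (lin [83, 0, 16384, 0, 5245])) (split 1 (lin [5, 0, 1024, 0, 420]) (lin [37, 0, 8192, 0, 3398]))) (split 3 (lin [5, 4, 2048, 0, 435]) (neg 2))) (split 0 (split 4 (split 3 (split 3 (lin [1, 0, 128, 0, 51]) (lin [1, 0, 256, 0, 98])) (neg 2)) (split 5 (lin [7, 0, 1356, 0, 2048]) (split 1 (lin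 [63, 0, 11367, 0, 16384]) (split 3 (lin [3, 0, 512, 0, 444]) (neg 2))))) (split 3 (lin [197, 85, 65536, 0, 25035]) (neg 2))))) (split 2 (split 0 (split 1 (split 5 (split 3 (split 4 (lin [27, 0, 4096]) (split 3 (split 1 (split 1 (lin [5, 14, 2048, 0, 182]) (lin [11, 25, 4096, 0, 426])) (split 2 (lin [0, 1, 128]) (split 1 (lin [43, 27, 8192, 0, 2022]) (lin [15, 5, 2048, 0, 922])))) (neg 2))) (neg 2)) (split 2 (neg 10) (split 3 (split 0 (split 4 (split 1 (lin [15, 0, 2048]) (lin [27, 0, 4096])) (split 3 (split 3 (lin [1, 2, 128, 0, 52, 0, 0, 0, 0, 0, 33]) (lin [26, 3, 4096, 0, 1852, 0, 0, 0, 0, 0, 1057])) (neg 2))) (split 1 (lin [253, 182, 65536, 0, 10691]) (lin [13, 12, 4096, 0, 647]))) (neg 2)))) (split 5 (split 3 (split 4 (split 1 (lin [25, 0, 4096]) (lin [47, 0, 8192])) (split 0 (split 2 (lin [0, 1, 128, 0, 8]) (split 3 (split 2 (lin [55, 68, 16384,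 0, 2759]) (lin [15, 0, 2048, 0, 1165])) (neg 2))) (lin [3, 20, 4096]))) (neg 2)) (split 2 (neg 10) (split 3 (split 3 (split 4 (lin [7, 0, 1024]) (split 3 (neg 1) (split 2 (lin [7, 0, 1024, 0, 471, 0, 0, 0, 0, 0, 238]) (split 5 (lin [7, 0, 1024, 0, 532]) (split 1 (lin [7, 0, 1024, 0, 509]) (split 2 (lin [109, 0, 16384, 0, 8074]) (lin [13, 0, 2048, 0, 1064]))))))) (neg 2)) (neg 2))))) (split 1 (lin [0, 9, 2048]) (lin [0, 1, 256]))) (split 1 (split 0 (split 4 (split 5 (split 3 (split 3 (lin [1, 0, 128, 0, 51]) (lin [1, 0, 256, 0, 71])) (neg 2)) (split 3 (split 3 (lin [1, 0, 128, 0, 51]) (lin [1, 0, 256, 0, 71])) (neg 2))) (split 5 (split 1 (split 3 (lin [7, 0, 1024, 0, 765]) (neg 2)) (split 3 (lin [13, 0, 2048, 0, 1613]) (neg 2))) (split 1 (split 3 (split 5 (lin [55, 0, 8192, 0, 6170]) (split 0 (lin [59, 0, 8192, 0, 6233]) (lin [3, 0, 512, 0, 362]))) (neg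 2)) (split 3 (split 5 (lin [13, 0, 2048, 0, 1640]) (split 0 (lin [27, 0, 4096, 0, 3250]) (lin [3, 0, 512, 0, 380]))) (neg 2))))) (split 3 (split 2 (lin [3, 2, 1024, 0, 241]) (lin [9, 0, 2048, 0, 1189])) (neg 2))) (split 3 (split 3 (split 4 (lin [7, 0, 1024, 0, 492]) (lin [13, 0, 2048, 0, 1539])) (split 2 (lin [11, 0, 4096, 0, 1191]) (lin [15, 0, 4096, 0, 1991]))) (neg 2)))))) (split 3 (lin [4, 9, 4096, 0, 312]) (neg 2))) (split 3 (split 4 (split 0 (lin [5, 0, 1024, 0, 511]) (lin [3, 0, 1024, 0, 373])) (lin [31, 0, 8192, 0, 6982])) (split 2 (lin [3, 0, 2048, 0, 541]) (lin [7, 0, 4096, 0, 1874])))) (split 3 (lin [9, 14, 8192, 0, 1795]) (lin [7, 4, 8192, 0, 2006])))) (lin [1, 0, 2048]))) (split 4 (split 0 (split 3 (split 1 (split 0 (lin [1, 0, 512, 0, 76]) (lin [3, 0, 2048, 0, 384])) (lin [1, 0, 512, 0, 165])) (split 2 (lin [9, 0, 8192, 0, 1673, 0, 194])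 (split 1 (lin [1, 0, 1024, 0, 243]) (lin [9, 0, 8192, 0, 2131, 0, 1309])))) (split 3 (split 1 (split 3 (split 0 (lin [5, 0, 4096, 0, 533]) (lin [9, 0, 8192, 0, 1628, 0, 0, 0, 0, 0, 0, 78])) (lin [3, 0, 4096, 0, 530, 0, 200])) (lin [5, 0, 4096, 0, 1187, 0, 208])) (split 1 (lin [1, 0, 2048, 0, 0, 0, 232]) (lin [7, 0, 8192, 0, 0, 0, 2485])))) (split 0 (split 5 (split 1 (lin [7, 0, 4096, 0, 2884]) (split 0 (lin [15, 0, 8192, 0, 6760]) (lin [3, 0, 2048, 0, 1519]))) (split 1 (split 0 (lin [1, 0, 512, 0, 344, 0, 0, 0, 0, 0, 0, 3]) (lin [3, 0, 2048, 0, 1367])) (split 0 (lin [15, 0, 8192, 0, 6949]) (lin [3, 0, 2048, 0, 1521])))) (split 5 (lin [143, 0, 131072, 0, 82907]) (split 1 (split 0 (lin [5, 0, 4096, 0, 2625, 0, 0, 0, 0, 0, 0, 1]) (lin [17, 0, 16384, 0, 9705, 0, 0, 0, 0, 0, 0, 54])) (lin [37, 0, 32768, 0, 21749, 0, 831]))))))) (lin [0, 0, 4, 2, 0, 0, 1]))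

def bx : List (ℕ × ℕ × ℕ) := [(3, 20, 40), (1, 8, 16), (0, 1, 2), (0, 1, 1), (0, 1, 1), (0, 1, 65)]

def gs : List (Ex × ℕ) := [((add gA (mul (con 0) mo)), 2515500269568000000), ((add gB (mul (con 0) mo)), 1762019770368000000), ((add g1 (mul (con 0) mo)), 575930368000000), ((add g2 (mul (con 0) mo)), 575930368000000), ((add g3 (mul (con 0) mo)), 863895552000000), ((add g4 (mul (con 0) mo)), 1151860736000000), ((add g5 (mul (con 0) mo)), 881616486400000), ((add g6 (mul (con 0) mo)), 157550116864000), ((add g7 (mul (con 0) mo)), 157550116864000), ((add k8 (mul (con 0) mo)), 287965184000000), ((add k9 (mul (con 0) mo)), 287965184000000), ((add g8 (mul (con 0) mo)), 1798674841600000)]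

theorem run_ok : BernL.run 153 6 bx gs tr = true := by
  decide +kernel



/-- the box of the two end columns of a hosted half unit -/
theorem box {a t u b v e r : ℝ} (ha : 3 ≤ 40 * a) (ha' : 40 * a ≤ 20) (ht : 1 ≤ 16 * t) (ht' : 16 * t ≤ 8)
    (hu : 0 ≤ u) (hu' : 2 * u ≤ 1) (hb : 0 ≤ b) (hb' : b ≤ 1) (hv : 0 ≤ v) (hv' : v ≤ 1) (he : 0 ≤ e)
    (he' : 65 * e ≤ 1) (h1 : b * v ≤ t * u + e) (h2 : b ≤ v) (h3 : u + v ≤ 1) (h4 : b + v ≤ 1)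
    (h5 : (t + e) + (u + e) ≤ 1 - a) (h6 : e * e ≤ 2 * (t + e) * (t + e) * (t + e))
    (h7 : e * e ≤ 2 * (u + e) * (u + e) * (u + e)) (h8 : 3 * e ≤ t) (h9 : 3 * e ≤ u) (hx : 1 ≤ 8 * (t + e))
    (r1 : 1 - a - v ≤ r) (r2 : -(a / 2) ≤ r) :
    2 * ((a + (t + e)) * (a + (u + e)))
      < 1000 * (t + e) * (a - 2 * b) * (a + (u + e)) + 1000 * (u + e) * (a + 2 * r) * (a + (t + e)) - 3600 * (1 - a) * a * (1 - 2 * (t + e)) * b * (a + (u + e)) := by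
  by_contra hcon
  push Not at hcon
  have ha0 : 0 ≤ a := by linarith
  have t0 : 0 ≤ t := by linarith
  have hw : 0 ≤ (u + e) * (a + (t + e)) := mul_nonneg (by linarith) (by linarith)
  have k1 := mul_le_mul_of_nonneg_left r1 hw
  have k2 := mul_le_mul_of_nonneg_left r2 hw
  refine BernL.no_point run_ok (fun k => ([a, t, u, b, v, e] : List ℝ).getD k 0) ?_ ?_
  · intro k hk
    simp only [bx]
    interval_cases k <;> norm_num <;> constructor <;> linarith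
  · intro g hg
    simp only [gs, List.mem_cons, List.not_mem_nil, or_false] at hg
    rcases hg with rfl | rfl | rfl | rfl | rfl | rfl | rfl | rfl | rfl | rfl | rfl | rfl
    · simp only [gA, fb, psx, ngx, q, p, c, x, w, Ex.ev, List.getD_cons_zero, List.getD_cons_succ, Nat.cast_ofNat, Nat.cast_one,
        Nat.cast_zero]
      linarith
    · simp only [gB, fb, psx, ngx, q, p, c, x, w, Ex.ev, List.getD_cons_zero, List.getD_cons_succ, Nat.cast_ofNat, Nat.cast_one,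
        Nat.cast_zero, mo]
      linarith
    · simp only [g1, fb, psx, ngx, q, p, c, x, w, Ex.ev, List.getD_cons_zero, List.getD_cons_succ, Nat.cast_ofNat, Nat.cast_one,
        Nat.cast_zero, mo]
      linarith
    · simp only [g2, fb, psx, ngx, q, p, c, x, w, Ex.ev, List.getD_cons_zero, List.getD_cons_succ, Nat.cast_ofNat, Nat.cast_one,
        Nat.cast_zero, mo]
      linarith
    · simp only [g3, fb, psx, ngx, q, p, c, x, w, Ex.ev, List.getD_cons_zero, List.getD_cons_succ, Nat.cast_ofNat, Nat.cast_one,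
        Nat.cast_zero, mo]
      linarith
    · simp only [g4, fb, psx, ngx, q, p, c, x, w, Ex.ev, List.getD_cons_zero, List.getD_cons_succ, Nat.cast_ofNat, Nat.cast_one,
        Nat.cast_zero, mo]
      linarith
    · simp only [g5, fb, psx, ngx, q, p, c, x, w, Ex.ev, List.getD_cons_zero, List.getD_cons_succ, Nat.cast_ofNat, Nat.cast_one,
        Nat.cast_zero, mo]
      linarith
    · simp only [g6, fb, psx, ngx, q, p, c, x, w, Ex.ev, List.getD_cons_zero, List.getD_cons_succ, Nat.cast_ofNat, Nat.cast_one,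
        Nat.cast_zero, mo]
      linarith
    · simp only [g7, fb, psx, ngx, q, p, c, x, w, Ex.ev, List.getD_cons_zero, List.getD_cons_succ, Nat.cast_ofNat, Nat.cast_one,
        Nat.cast_zero, mo]
      linarith
    · simp only [k8, fb, psx, ngx, q, p, c, x, w, Ex.ev, List.getD_cons_zero, List.getD_cons_succ, Nat.cast_ofNat, Nat.cast_one,
        Nat.cast_zero, mo]
      linarith
    · simp only [k9, fb, psx, ngx, q, p, c, x, w, Ex.ev, List.getD_cons_zero, List.getD_cons_succ, Nat.cast_ofNat, Nat.cast_one,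
        Nat.cast_zero, mo]
      linarith
    · simp only [g8, fb, psx, ngx, q, p, c, x, w, Ex.ev, List.getD_cons_zero, List.getD_cons_succ, Nat.cast_ofNat, Nat.cast_one,
        Nat.cast_zero, mo]
      linarith

end Pool.Agent.Lib.MP_f04ccf_co.CsBxE8

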