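import Pool.Agent.Lib.MP_f04ccf_co.M.CsB
import Pool.Agent.Lib.MP_f04ccf_co.M.CsBxE

/-!
MP_f04ccf_co, TEXT D: **the hosted units of the column sum certificate, column by column, any modes** (96, 18934).

* `CsC.credE_eq`: what a hosted unit gives, as a sum over the columns (identity in the credits `cr`);
* `csEx`: what the two end columns of a half unit give beyond a third unit of credit `-A/2`, the share paid;
* `cs_cap`, `cs_ext`: `csEx ≥ 0` for the factors `0` and the ramp, `csEx ≥ -R²/50` for the factor `3/2`, both ends in `J`;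
* `csEx_light`: main end outside of `J`: not negative;
* `cs_pay`: a hosted half unit is paid by the capacities `s (c - b + A/2)⁺ / c` of its two cells;
* `CsC.halfE`, `CsC.halfL`, `CsC.fullE`: the hosted units with the rest of the columns at any credits `th`.
-/

set_option autoImplicit false

namespace Pool.Agent.Lib.MP_f04ccf_co

open Finset

section CsExt

variable {R A : ℝ} {F : Finset ℕ} {t cr th : ℕ → ℝ}

/-- **the credit of a hosted unit column by column** -/
theorem CsC.credE_eq (H : CsC R A F t) (cr : ℕ → ℝ) :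
    (R - A) * R * (∑ l ∈ F, csL R A (t l) * cr l + csT R A F t * (R - A))
      = (R - A) * (R - A - ∑ l ∈ F, (t l + 1))
        + ∑ l ∈ F, csS A (t l + 1) * (R * cr l + (R - A) * (A + 1)) := by
  have hc := H.c_pos
  have hR0 : 0 < R := by linarith [H.hA, H.hR]
  have h3 : ∀ f : ℕ → ℝ, (R - A) * ∑ l ∈ F, csL R A (t l) * f l
      = ∑ l ∈ F, csS A (t l + 1) * f l := by
    intro f
    rw [mul_sum]
    refine sum_congr rfl fun l _ => ?_
    unfold csL
    field_simp
  have e1 : (R - A) * R * (∑ l ∈ F, csL R A (t l) * cr l + csT R A F t * (R - A))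
      = (R - A) ^ 2 - (R - A) * ∑ l ∈ F, csS A (t l + 1) * t l
        + R * ∑ l ∈ F, csS A (t l + 1) * cr l := by
    unfold csT
    have h4 := h3 cr
    have h5 := h3 t
    rw [← h4, ← h5]
    field_simp
    ring
  have e2 : ∑ l ∈ F, csS A (t l + 1) * t l
      = ∑ l ∈ F, (t l + 1) - (A + 1) * ∑ l ∈ F, csS A (t l + 1) := by
    rw [mul_sum, ← sum_sub_distrib]
    refine sum_congr rfl fun l hl => ?_
    have h6 : csS A (t l + 1) * (A + (t l + 1)) = t l + 1 :=
      csS_mul (by linarith [H.hA, H.t0 l hl])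
    linarith
  have e3 : ∑ l ∈ F, csS A (t l + 1) * (R * cr l + (R - A) * (A + 1))
      = R * ∑ l ∈ F, csS A (t l + 1) * cr l + (R - A) * (A + 1) * ∑ l ∈ F, csS A (t l + 1) := by
    rw [mul_sum, mul_sum, ← sum_add_distrib]
    exact sum_congr rfl fun l _ => by ring
  rw [e1, e2, e3]
  ring

/-- what the end columns of a half unit give beyond a third unit of credit `-A/2`, the share paid: main end `t`
with `b` misses, factor `f`, cut end `u` with credit `r` -/
noncomputable def csEx (R A f t b u r : ℝ) : ℝ :=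
  R * (csS A (u + 1) * (r + A / 2)) + R * (csS A (t + 1) * (A / 2 - b))
    - (R - A) * (f * (1 - csS A (t + 1)) * b)

/-- the same without the cut end -/
noncomputable def csDx (R A f t b : ℝ) : ℝ :=
  R * (csS A (t + 1) * (A / 2 - b)) - (R - A) * (f * (1 - csS A (t + 1)) * b)

/-- from the scaled polynomial inequality -/
lemma csEx_ge {R a t u b r e f k L : ℝ} (hR : 0 < R) (he : e * R = 1) (hL : 0 < L)
    (hp : 0 < a + (t + e)) (hq : 0 < a + (u + e))
    (h : k * (2 * ((a + (t + e)) * (a + (u + e))))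
      ≤ L * (t + e) * (a - 2 * b) * (a + (u + e)) + L * (u + e) * (a + 2 * r) * (a + (t + e))
        - 2 * L * f * (1 - a) * a * b * (a + (u + e))) :
    k * R ^ 2 / L ≤ csEx R (a * R) f (t * R) (b * R) (u * R) (r * R) := by
  have hs : ∀ x : ℝ, csS (a * R) (x * R + 1) = csS a (x + e) := by
    intro x
    unfold csS
    have h1 : x * R + 1 = (x + e) * R := by rw [add_mul, he]
    rw [h1, ← add_mul, mul_div_mul_right _ _ hR.ne']
  unfold csEx
  rw [hs t, hs u]
  set sx : ℝ := csS a (t + e) with hsx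
  set sy : ℝ := csS a (u + e) with hsy
  have ex : sx * (a + (t + e)) = t + e := csS_mul hp.ne'
  have ey : sy * (a + (u + e)) = u + e := csS_mul hq.ne'
  have e1 : (1 - sx) * (a + (t + e)) = a := by
    have : (1 - sx) * (a + (t + e)) = (a + (t + e)) - sx * (a + (t + e)) := by ring
    rw [this, ex]
    ring
  have hpq : 0 < 2 * ((a + (t + e)) * (a + (u + e))) := by positivity
  have key : k ≤ L * (sy * (r + a / 2) + sx * (a / 2 - b) - (1 - a) * (f * (1 - sx) * b)) := by
    refine le_of_mul_le_mul_right ?_ hpq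
    have e2 : L * (sy * (r + a / 2) + sx * (a / 2 - b) - (1 - a) * (f * (1 - sx) * b))
          * (2 * ((a + (t + e)) * (a + (u + e))))
        = L * (sx * (a + (t + e))) * (a - 2 * b) * (a + (u + e))
          + L * (sy * (a + (u + e))) * (a + 2 * r) * (a + (t + e))
          - 2 * L * f * (1 - a) * ((1 - sx) * (a + (t + e))) * b * (a + (u + e)) := by
      ring
    rw [e2, ex, ey, e1]
    exact h
  rw [div_le_iff₀ hL]
  have h1 := mul_le_mul_of_nonneg_right key (show 0 ≤ R ^ 2 by positivity)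
  refine h1.trans (le_of_eq ?_)
  ring

/-- **the two end columns of a half unit**, both ends in `J`; for example `r = max (R - A - v) (-(A / 2))`: the half
is paid by the capacities `s (c - b + A/2)`, `s (c - v + A/2)⁺` of its two cells -/
theorem cs_cap {R A t u b v r : ℝ} (hR : 65 ≤ R) (hA : 3 * R ≤ 40 * A) (hA2 : 2 * A ≤ R)
    (ht : 3 ≤ t) (ht2 : 2 * (t + 1) ≤ R) (hu : 3 ≤ u) (hu2 : 2 * (u + 1) ≤ R)
    (ht3 : R ≤ 2 * (t + 1) ^ 3) (hu3 : R ≤ 2 * (u + 1) ^ 3) (hb : 0 ≤ b) (hbv : b ≤ v)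
    (hp : b * v ≤ R + t * u) (hv : u + v ≤ R) (hbs : b + v ≤ R)
    (hm : (t + 1) + (u + 1) ≤ R - A) (r1 : R - A - v ≤ r) (r2 : -(A / 2) ≤ r) :
    (R ≤ 4 * (t + 1) → 0 ≤ csEx R A 0 t b u r) ∧
    (4 * (t + 1) ≤ R → R ≤ 8 * (t + 1) →
      R ^ 2 / 400 ≤ csEx R A (2 * (1 - 4 * (t + 1) / R)) t b u r) ∧
    (8 * (t + 1) ≤ R → -(R ^ 2 / 50) ≤ csEx R A (3 / 2) t b u r) := by
  have hR0 : 0 < R := by linarith
  obtain ⟨e, he⟩ : ∃ e, e * R = 1 := ⟨1 / R, by field_simp⟩
  obtain ⟨a, rfl⟩ : ∃ a, A = a * R := ⟨A / R, by field_simp⟩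
  obtain ⟨t, rfl⟩ : ∃ x, t = x * R := ⟨t / R, by field_simp⟩
  obtain ⟨u, rfl⟩ : ∃ x, u = x * R := ⟨u / R, by field_simp⟩
  obtain ⟨b, rfl⟩ : ∃ x, b = x * R := ⟨b / R, by field_simp⟩
  obtain ⟨v, rfl⟩ : ∃ x, v = x * R := ⟨v / R, by field_simp⟩
  obtain ⟨r, rfl⟩ : ∃ x, r = x * R := ⟨r / R, by field_simp⟩
  have dv : ∀ {x y : ℝ}, x * R ≤ y * R → x ≤ y := fun h => le_of_mul_le_mul_right h hR0
  have hex : t * R + 1 = (t + e) * R := by rw [add_mul, he]
  have heu : u * R + 1 = (u + e) * R := by rw [add_mul, he]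
  have a0 : 3 ≤ 40 * a := dv (by linarith)
  have a1 : 40 * a ≤ 20 := dv (by linarith)
  have e0 : 0 < e := by
    by_contra h
    have h1 := mul_le_mul_of_nonneg_right (not_lt.1 h) hR0.le
    linarith
  have t0 : 3 * e ≤ t := dv (by linarith)
  have u0 : 3 * e ≤ u := dv (by linarith)
  have b0 : 0 ≤ b := dv (by linarith)
  have c2 : 2 * u ≤ 1 := dv (by linarith)
  have c1 : 2 * t ≤ 1 := dv (by linarith)
  have c3 : b + v ≤ 1 := dv (by linarith)
  have c4 : u + v ≤ 1 := dv (by linarith)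
  have c5 : b ≤ v := dv hbv
  have v0 : 0 ≤ v := b0.trans c5
  have c6 : 65 * e ≤ 1 := dv (by linarith)
  have c7 : b * v ≤ t * u + e := by
    have h1 : (b * v) * (R * R) ≤ (t * u + e) * (R * R) := by
      have h2 : (t * u + e) * (R * R) = t * R * (u * R) + (e * R) * R := by ring
      rw [h2, he]
      linarith
    exact le_of_mul_le_mul_right h1 (mul_pos hR0 hR0)
  have c8 : (t + e) + (u + e) ≤ 1 - a := by
    rw [hex, heu] at hm
    exact dv (by linarith)
  have c9 : 1 - a - v ≤ r := dv (by linarith)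
  have c10 : -(a / 2) ≤ r := dv (by linarith)
  have hcub : ∀ x : ℝ, R ≤ 2 * (x * R + 1) ^ 3 → e * e ≤ 2 * (x + e) * (x + e) * (x + e) := by
    intro x hx
    have h1 : x * R + 1 = (x + e) * R := by rw [add_mul, he]
    rw [h1] at hx
    have h2 : (e * e) * R ^ 3 ≤ (2 * (x + e) * (x + e) * (x + e)) * R ^ 3 := by
      have h3 : (e * e) * R ^ 3 = (e * R) * (e * R) * R := by ring
      rw [h3, he]
      linarith
    exact le_of_mul_le_mul_right h2 (pow_pos hR0 3)
  have c11 := hcub t ht3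
  have c12 := hcub u hu3
  have hp0 : 0 < a + (t + e) := by linarith
  have hq0 : 0 < a + (u + e) := by linarith
  refine ⟨fun h1 => ?_, fun h1 h2 => ?_, fun h1 => ?_⟩
  · rw [hex] at h1
    have h3 : 1 ≤ 4 * (t + e) := dv (by linarith)
    have hb1 := CsBxE0.box (a := a) (t := t) (u := u) (b := b) (v := v) (e := e) (r := r)
      a0 a1 (by linarith) (by linarith) (by linarith) c2 b0 (by linarith) v0 (by linarith) e0.le c6
      c7 c5 c4 c3 c8 c11 c12 t0 u0 h3 c9 c10
    have h4 := csEx_ge (R := R) (a := a) (t := t) (u := u) (b := b) (r := r) (e := e) (f := 0)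
      (k := 1) (L := 2000) hR0 he (by norm_num) hp0 hq0 (by linarith)
    refine le_trans ?_ h4
    positivity
  · rw [hex] at h1 h2
    have h3 : 4 * (t + e) ≤ 1 := dv (by linarith)
    have h4 : 1 ≤ 8 * (t + e) := dv (by linarith)
    have hb1 := CsBxER.box (a := a) (t := t) (u := u) (b := b) (v := v) (e := e) (r := r)
      a0 a1 (by linarith) (by linarith) (by linarith) c2 b0 (by linarith) v0 (by linarith) e0.le c6
      c7 c5 c4 c3 c8 c11 c12 t0 u0 h3 h4 c9 c10
    have h5 : 4 * (t * R + 1) / R = 4 * (t + e) := by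
      rw [hex]
      field_simp
    have h6 := csEx_ge (R := R) (a := a) (t := t) (u := u) (b := b) (r := r) (e := e)
      (f := 2 * (1 - 4 * (t + e))) (k := 1) (L := 400) hR0 he (by norm_num) hp0 hq0 (by linarith)
    rw [h5]
    refine le_trans (le_of_eq ?_) h6
    ring
  · rw [hex] at h1
    have h3 : 8 * (t + e) ≤ 1 := dv (by linarith)
    have hb1 := CsBxE3.box (a := a) (t := t) (u := u) (b := b) (v := v) (e := e) (r := r)
      a0 a1 (by linarith) (by linarith) (by linarith) c2 b0 (by linarith) v0 (by linarith) e0.le c6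
      c7 c5 c4 c3 c8 c11 c12 t0 u0 h3 c9 c10
    have h4 := csEx_ge (R := R) (a := a) (t := t) (u := u) (b := b) (r := r) (e := e) (f := 3 / 2)
      (k := -1) (L := 50) hR0 he (by norm_num) hp0 hq0 (by linarith)
    refine le_trans (le_of_eq ?_) h4
    ring

/-- **the two end columns of a half unit**, both ends in `J`, the cut end kept or dropped -/
theorem cs_ext {R A t u b v r : ℝ} (hR : 65 ≤ R) (hA : 3 * R ≤ 40 * A) (hA2 : 2 * A ≤ R)
    (ht : 3 ≤ t) (ht2 : 2 * (t + 1) ≤ R) (hu : 3 ≤ u) (hu2 : 2 * (u + 1) ≤ R)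
    (ht3 : R ≤ 2 * (t + 1) ^ 3) (hu3 : R ≤ 2 * (u + 1) ^ 3) (hb : 0 ≤ b) (hbv : b ≤ v)
    (hp : b * v ≤ R + t * u) (hv : u + v ≤ R) (hbs : b + v ≤ R)
    (hm : (t + 1) + (u + 1) ≤ R - A) (r1 : R - A - v ≤ r) (r2 : -u ≤ r) :
    (R ≤ 4 * (t + 1) → 0 ≤ csEx R A 0 t b u r) ∧
    (4 * (t + 1) ≤ R → R ≤ 8 * (t + 1) →
      R ^ 2 / 400 ≤ csEx R A (2 * (1 - 4 * (t + 1) / R)) t b u r) ∧
    (8 * (t + 1) ≤ R → -(R ^ 2 / 50) ≤ csEx R A (3 / 2) t b u r) := by
  refine cs_cap hR hA hA2 ht ht2 hu hu2 ht3 hu3 hb hbv hp hv hbs hm r1 ?_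
  rcases le_total v (R - A / 2) with h | h <;> linarith

/-- `csEx` as a payment of the two cells: main end `s (c - b + A/2) / c`, cut end `s (r + A/2) / c` -/
lemma csEx_pay {R A f t b u r δ : ℝ} (hR : 0 < R) (hc : 0 < R - A)
    (h : -δ ≤ csEx R A f t b u r) :
    csS A (t + 1) + f * (1 - csS A (t + 1)) * b / R
      ≤ csS A (t + 1) * (R - A - b + A / 2) / (R - A) + csS A (u + 1) * (r + A / 2) / (R - A)
        + δ / (R * (R - A)) := by
  have hRc : 0 < R * (R - A) := mul_pos hR hc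
  refine le_of_mul_le_mul_right ?_ hRc
  have e1 : (csS A (t + 1) + f * (1 - csS A (t + 1)) * b / R) * (R * (R - A))
      = R * (R - A) * csS A (t + 1) + (R - A) * (f * (1 - csS A (t + 1)) * b) := by
    field_simp
  have e2 : (csS A (t + 1) * (R - A - b + A / 2) / (R - A)
        + csS A (u + 1) * (r + A / 2) / (R - A) + δ / (R * (R - A))) * (R * (R - A))
      = R * (csS A (t + 1) * (R - A - b + A / 2)) + R * (csS A (u + 1) * (r + A / 2)) + δ := by
    field_simp
  rw [e1, e2]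
  unfold csEx at h
  linarith

/-- **a hosted half unit is paid by the capacities of its two cells** (both ends in `J`) -/
theorem cs_pay {R A t u b v : ℝ} (hR : 65 ≤ R) (hA : 3 * R ≤ 40 * A) (hA2 : 2 * A ≤ R)
    (ht : 3 ≤ t) (ht2 : 2 * (t + 1) ≤ R) (hu : 3 ≤ u) (hu2 : 2 * (u + 1) ≤ R)
    (ht3 : R ≤ 2 * (t + 1) ^ 3) (hu3 : R ≤ 2 * (u + 1) ^ 3) (hb : 0 ≤ b) (hbv : b ≤ v)
    (hp : b * v ≤ R + t * u) (hv : u + v ≤ R) (hbs : b + v ≤ R)
    (hm : (t + 1) + (u + 1) ≤ R - A) :
    (R ≤ 4 * (t + 1) → csS A (t + 1)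
      ≤ csS A (t + 1) * (R - A - b + A / 2) / (R - A)
        + csS A (u + 1) * max 0 (R - A - v + A / 2) / (R - A)) ∧
    (4 * (t + 1) ≤ R → R ≤ 8 * (t + 1) →
      csS A (t + 1) + 2 * (1 - 4 * (t + 1) / R) * (1 - csS A (t + 1)) * b / R
        ≤ csS A (t + 1) * (R - A - b + A / 2) / (R - A)
          + csS A (u + 1) * max 0 (R - A - v + A / 2) / (R - A)) ∧
    (8 * (t + 1) ≤ R → csS A (t + 1) + 3 / 2 * (1 - csS A (t + 1)) * b / R
        ≤ csS A (t + 1) * (R - A - b + A / 2) / (R - A)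
          + csS A (u + 1) * max 0 (R - A - v + A / 2) / (R - A) + R / (50 * (R - A))) := by
  have hR0 : 0 < R := by linarith
  have hc : 0 < R - A := by linarith
  have hr : max 0 (R - A - v + A / 2) = max (R - A - v) (-(A / 2)) + A / 2 := by
    rcases le_total (R - A - v) (-(A / 2)) with h | h
    · rw [max_eq_right h, max_eq_left (by linarith)]
      ring
    · rw [max_eq_left h, max_eq_right (by linarith)]
  obtain ⟨h1, h2, h3⟩ := cs_cap hR hA hA2 ht ht2 hu hu2 ht3 hu3 hb hbv hp hv hbs hm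
    (le_max_left (R - A - v) (-(A / 2))) (le_max_right (R - A - v) (-(A / 2)))
  rw [hr]
  refine ⟨fun h4 => ?_, fun h4 h5 => ?_, fun h4 => ?_⟩
  · have h6 := csEx_pay (δ := 0) hR0 hc (by linarith [h1 h4])
    rw [zero_mul, zero_mul, zero_div, add_zero, zero_div, add_zero] at h6
    exact h6
  · have h6 := csEx_pay (δ := 0) hR0 hc (by
      have h7 := h2 h4 h5
      have h8 : 0 ≤ R ^ 2 / 400 := by positivity
      linarith)
    rw [zero_div, add_zero] at h6
    exact h6
  · have h6 := csEx_pay (δ := R ^ 2 / 50) hR0 hc (h3 h4)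
    have h7 : R ^ 2 / 50 / (R * (R - A)) = R / (50 * (R - A)) := by
      field_simp
    rw [h7] at h6
    exact h6

/-- the cut end alone (main end outside of `J`) -/
lemma csEx_light {R A u v r : ℝ} (_hA : 0 ≤ A) (hv : u + v ≤ R) (r1 : R - A - v ≤ r)
    (r2 : -u ≤ r) : 0 ≤ r + A / 2 := by
  rcases le_total v (R - A / 2) with h | h <;> linarith

/-- the hosted units, column by column: only the columns of `E` are looked at -/
theorem CsC.credE_ge (H : CsC R A F t) {E : Finset ℕ} (hE : E ⊆ F)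
    (h : ∀ l ∈ F \ E, th l ≤ cr l) :
    (R - A) * (R - A - ∑ l ∈ F, (t l + 1))
        + ∑ l ∈ F, csS A (t l + 1) * (R * th l + (R - A) * (A + 1))
        + ∑ l ∈ E, csS A (t l + 1) * (R * (cr l - th l))
      ≤ (R - A) * R * (∑ l ∈ F, csL R A (t l) * cr l + csT R A F t * (R - A)) := by
  rw [H.credE_eq cr]
  have hR0 : 0 ≤ R := by linarith [H.hA, H.hR]
  have h1 : ∑ l ∈ F, csS A (t l + 1) * (R * cr l + (R - A) * (A + 1))
      = ∑ l ∈ F, csS A (t l + 1) * (R * th l + (R - A) * (A + 1))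
        + ∑ l ∈ F, csS A (t l + 1) * (R * (cr l - th l)) := by
    rw [← sum_add_distrib]
    exact sum_congr rfl fun l _ => by ring
  have h2 := sum_sdiff (f := fun l => csS A (t l + 1) * (R * (cr l - th l))) hE
  have h3 : 0 ≤ ∑ l ∈ F \ E, csS A (t l + 1) * (R * (cr l - th l)) := by
    refine sum_nonneg fun l hl => ?_
    have h4 := H.t0 l (sdiff_subset hl)
    exact mul_nonneg (csS_nonneg (by linarith [H.hA]) (by linarith))
      (mul_nonneg hR0 (by linarith [h l hl]))
  beta_reduce at h2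
  rw [h1, ← h2]
  linarith

/-- **a hosted half unit**, main end `j`, cut end `w`, both in the family; the other columns at any credits `th` -/
theorem CsC.halfE (H : CsC R A F t) {j w : ℕ} (hj : j ∈ F) (hw : w ∈ F) (hjw : j ≠ w)
    (h : ∀ l ∈ F, l ≠ j → l ≠ w → th l ≤ cr l) (hthj : th j = -(A / 2)) (hthw : th w = -(A / 2))
    {b r f : ℝ} (hcj : R - A - b ≤ cr j) (hr : r ≤ cr w) :
    (R - A) * R * (csS A (t j + 1) + f * (1 - csS A (t j + 1)) * b / R)
        + ((R - A) * (R - A - ∑ l ∈ F, (t l + 1))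
          + ∑ l ∈ F, csS A (t l + 1) * (R * th l + (R - A) * (A + 1)))
        + csEx R A f (t j) b (t w) r
      ≤ (R - A) * R * (∑ l ∈ F, csL R A (t l) * cr l + csT R A F t * (R - A)) := by
  have hE : ({j, w} : Finset ℕ) ⊆ F := by
    intro l hl
    rcases mem_insert.1 hl with h2 | h2
    · rw [h2]
      exact hj
    · rw [mem_singleton.1 h2]
      exact hw
  have h3 := H.credE_ge hE (cr := cr) (th := th) fun l hl => by
    obtain ⟨h4, h5⟩ := mem_sdiff.1 hl
    refine h l h4 (fun h6 => h5 ?_) (fun h6 => h5 ?_)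
    · rw [h6]
      exact mem_insert_self _ _
    · rw [h6]
      exact mem_insert_of_mem (mem_singleton_self _)
  refine le_trans ?_ h3
  rw [sum_pair hjw, hthj, hthw]
  have hR0 : 0 < R := by linarith [H.hA, H.hR]
  have hA := H.hA
  have sj : 0 ≤ csS A (t j + 1) := csS_nonneg (by linarith) (by linarith [H.t0 j hj])
  have sw : 0 ≤ csS A (t w + 1) := csS_nonneg (by linarith) (by linarith [H.t0 w hw])
  have h4 := mul_le_mul_of_nonneg_left hcj (mul_nonneg hR0.le sj)
  have h5 := mul_le_mul_of_nonneg_left hr (mul_nonneg hR0.le sw)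
  have h6 : (R - A) * R * (csS A (t j + 1) + f * (1 - csS A (t j + 1)) * b / R)
      = (R - A) * R * csS A (t j + 1) + (R - A) * (f * (1 - csS A (t j + 1)) * b) := by
    field_simp
  rw [h6]
  unfold csEx
  linarith

/-- **a hosted half unit with its cut end outside of the family** -/
theorem CsC.halfL (H : CsC R A F t) {j : ℕ} (hj : j ∈ F)
    (h : ∀ l ∈ F, l ≠ j → th l ≤ cr l) (hthj : th j = -(A / 2))
    {b f : ℝ} (hcj : R - A - b ≤ cr j) :
    (R - A) * R * (csS A (t j + 1) + f * (1 - csS A (t j + 1)) * b / R)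
        + ((R - A) * (R - A - ∑ l ∈ F, (t l + 1))
          + ∑ l ∈ F, csS A (t l + 1) * (R * th l + (R - A) * (A + 1)))
        + csDx R A f (t j) b
      ≤ (R - A) * R * (∑ l ∈ F, csL R A (t l) * cr l + csT R A F t * (R - A)) := by
  have h3 := H.credE_ge (singleton_subset_iff.2 hj) (cr := cr) (th := th) fun l hl => by
    obtain ⟨h4, h5⟩ := mem_sdiff.1 hl
    exact h l h4 fun h6 => h5 (mem_singleton.2 h6)
  refine le_trans ?_ h3
  rw [sum_singleton, hthj]
  have hR0 : 0 < R := by linarith [H.hA, H.hR]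
  have hA := H.hA
  have sj : 0 ≤ csS A (t j + 1) := csS_nonneg (by linarith) (by linarith [H.t0 j hj])
  have h4 := mul_le_mul_of_nonneg_left hcj (mul_nonneg hR0.le sj)
  have h6 : (R - A) * R * (csS A (t j + 1) + f * (1 - csS A (t j + 1)) * b / R)
      = (R - A) * R * csS A (t j + 1) + (R - A) * (f * (1 - csS A (t j + 1)) * b) := by
    field_simp
  rw [h6]
  unfold csDx
  linarith

/-- **a full hosted unit** -/
theorem CsC.fullE (H : CsC R A F t) {j : ℕ} (hj : j ∈ F)
    (h : ∀ l ∈ F, l ≠ j → th l ≤ cr l) (hcj : R - A ≤ cr j) :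
    (R - A) * R * csS A (t j + 1)
        + ((R - A) * (R - A - ∑ l ∈ F, (t l + 1))
          + ∑ l ∈ F, csS A (t l + 1) * (R * th l + (R - A) * (A + 1)))
        - R * (csS A (t j + 1) * th j)
      ≤ (R - A) * R * (∑ l ∈ F, csL R A (t l) * cr l + csT R A F t * (R - A)) := by
  have h3 := H.credE_ge (singleton_subset_iff.2 hj) (cr := cr) (th := th) fun l hl => by
    obtain ⟨h4, h5⟩ := mem_sdiff.1 hl
    exact h l h4 fun h6 => h5 (mem_singleton.2 h6)
  refine le_trans ?_ h3
  rw [sum_singleton]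
  have hR0 : 0 < R := by linarith [H.hA, H.hR]
  have hA := H.hA
  have sj : 0 ≤ csS A (t j + 1) := csS_nonneg (by linarith) (by linarith [H.t0 j hj])
  have h4 := mul_le_mul_of_nonneg_left hcj (mul_nonneg hR0.le sj)
  linarith

/-- **a third unit** -/
theorem CsC.thirdE (H : CsC R A F t) (h : ∀ l ∈ F, th l ≤ cr l) :
    (R - A) * (R - A - ∑ l ∈ F, (t l + 1))
        + ∑ l ∈ F, csS A (t l + 1) * (R * th l + (R - A) * (A + 1))
      ≤ (R - A) * R * (∑ l ∈ F, csL R A (t l) * cr l + csT R A F t * (R - A)) := by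
  have h3 := H.credE_ge (empty_subset _) (cr := cr) (th := th)
    fun l hl => h l (sdiff_subset hl)
  rw [sum_empty, add_zero] at h3
  exact h3

end CsExt

end Pool.Agent.Lib.MP_f04ccf_co
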