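import Pool.Agent.Lib.MP_f04ccf_co.M.CsExt
import Pool.Agent.Lib.MP_f04ccf_co.M.CsBxE8

/-!
MP_f04ccf_co, TEXT D: **the two end columns of a hosted half unit, factor `(9/5) (1 - 2 A/R)`** (19's table L8, 19134).

* `cs_cap8`: `csEx ≥ R²/1000`, main end with `8 (t + 1) ≥ R`, both ends in `J`;
* `cs_pay8`: the half unit is paid by the capacities of its two cells;
* `csEx_mono`, `cs_capF`, `cs_payF`: the same for ANY factor `f ≤ 3/2` (main end `≤ R/8`), `f ≤ (9/5) (1 - 2 A/R)` (else).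
-/

set_option autoImplicit false

namespace Pool.Agent.Lib.MP_f04ccf_co

open Finset

section CsExt8

/-- **the two end columns of a half unit**, both ends in `J`, factor `(9/5) (1 - 2 (t + 1)/R)` -/
theorem cs_cap8 {R A t u b v r : ℝ} (hR : 65 ≤ R) (hA : 3 * R ≤ 40 * A) (hA2 : 2 * A ≤ R)
    (ht2 : 2 * (t + 1) ≤ R) (hu : 3 ≤ u) (hu2 : 2 * (u + 1) ≤ R)
    (hu3 : R ≤ 2 * (u + 1) ^ 3) (hb : 0 ≤ b) (hbv : b ≤ v)
    (hp : b * v ≤ R + t * u) (hv : u + v ≤ R) (hbs : b + v ≤ R)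
    (hm : (t + 1) + (u + 1) ≤ R - A) (r1 : R - A - v ≤ r) (r2 : -(A / 2) ≤ r)
    (ht8 : R ≤ 8 * (t + 1)) :
    R ^ 2 / 1000 ≤ csEx R A (9 / 5 * (1 - 2 * (t + 1) / R)) t b u r := by
  have hR0 : 0 < R := by linarith
  have ht : 3 ≤ t := by linarith
  have ht3 : R ≤ 2 * (t + 1) ^ 3 := by
    have h1 : 1 ≤ (t + 1) ^ 2 := one_le_pow₀ (by linarith)
    have h2 : 65 / 8 * (t + 1) ≤ (t + 1) ^ 3 := by
      have h3 : (65 / 8) * (t + 1) ≤ (t + 1) * (t + 1) :=
        mul_le_mul_of_nonneg_right (by linarith) (by linarith)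
      have h4 : (t + 1) * (t + 1) * 1 ≤ (t + 1) * (t + 1) * (t + 1) :=
        mul_le_mul_of_nonneg_left (by linarith) (mul_nonneg (by linarith) (by linarith))
      have h5 : (t + 1) ^ 3 = (t + 1) * (t + 1) * (t + 1) := by ring
      linarith
    linarith
  obtain ⟨e, he⟩ : ∃ e, e * R = 1 := ⟨1 / R, by field_simp⟩
  obtain ⟨a, rfl⟩ : ∃ a, A = a * R := ⟨A / R, by field_simp⟩
  obtain ⟨t, rfl⟩ : ∃ x, t = x * R := ⟨t / R, by field_simp⟩
  obtain ⟨u, rfl⟩ : ∃ x, u = x * R := ⟨u / R, by field_simp⟩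
  obtain ⟨b, rfl⟩ : ∃ x, b = x * R := ⟨b / R, by field_simp⟩
  obtain ⟨v, rfl⟩ : ∃ x, v = x * R := ⟨v / R, by field_simp⟩
  obtain ⟨r, rfl⟩ : ∃ x, r = x * R := ⟨r / R, by field_simp⟩
  have dv : ∀ {x y : ℝ}, x * R ≤ y * R → x ≤ y := fun h => le_of_mul_le_mul_right h hR0
  have hex : t * R + 1 = (t + e) * R := by rw [add_mul, he]
  have heu : u * R + 1 = (u + e) * R := by rw [add_mul, he]
  have a0 : 3 ≤ 40 * a := dv (by linarith)
  have a1 : 40 * a ≤ 20 := dv (by linarith)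
  have e0 : 0 < e := by
    by_contra h
    have h1 := mul_le_mul_of_nonneg_right (not_lt.1 h) hR0.le
    linarith
  have t0 : 3 * e ≤ t := dv (by linarith)
  have u0 : 3 * e ≤ u := dv (by linarith)
  have b0 : 0 ≤ b := dv (by linarith)
  have c2 : 2 * u ≤ 1 := dv (by linarith)
  have c1 : 2 * t ≤ 1 := dv (by linarith)
  have c3 : b + v ≤ 1 := dv (by linarith)
  have c4 : u + v ≤ 1 := dv (by linarith)
  have c5 : b ≤ v := dv hbv
  have v0 : 0 ≤ v := b0.trans c5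
  have c6 : 65 * e ≤ 1 := dv (by linarith)
  have c7 : b * v ≤ t * u + e := by
    have h1 : (b * v) * (R * R) ≤ (t * u + e) * (R * R) := by
      have h2 : (t * u + e) * (R * R) = t * R * (u * R) + (e * R) * R := by ring
      rw [h2, he]
      linarith
    exact le_of_mul_le_mul_right h1 (mul_pos hR0 hR0)
  have c8 : (t + e) + (u + e) ≤ 1 - a := by
    rw [hex, heu] at hm
    exact dv (by linarith)
  have c9 : 1 - a - v ≤ r := dv (by linarith)
  have c10 : -(a / 2) ≤ r := dv (by linarith)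
  have hcub : ∀ x : ℝ, R ≤ 2 * (x * R + 1) ^ 3 → e * e ≤ 2 * (x + e) * (x + e) * (x + e) := by
    intro x hx
    have h1 : x * R + 1 = (x + e) * R := by rw [add_mul, he]
    rw [h1] at hx
    have h2 : (e * e) * R ^ 3 ≤ (2 * (x + e) * (x + e) * (x + e)) * R ^ 3 := by
      have h3 : (e * e) * R ^ 3 = (e * R) * (e * R) * R := by ring
      rw [h3, he]
      linarith
    exact le_of_mul_le_mul_right h2 (pow_pos hR0 3)
  have c11 := hcub t ht3
  have c12 := hcub u hu3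
  have hp0 : 0 < a + (t + e) := by linarith
  have hq0 : 0 < a + (u + e) := by linarith
  rw [hex] at ht8
  have h4 : 1 ≤ 8 * (t + e) := dv (by linarith)
  have hb1 := CsBxE8.box (a := a) (t := t) (u := u) (b := b) (v := v) (e := e) (r := r)
    a0 a1 (by linarith) (by linarith) (by linarith) c2 b0 (by linarith) v0 (by linarith) e0.le c6
    c7 c5 c4 c3 c8 c11 c12 t0 u0 h4 c9 c10
  have h5 : 2 * (t * R + 1) / R = 2 * (t + e) := by
    rw [hex]
    field_simp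
  have h6 := csEx_ge (R := R) (a := a) (t := t) (u := u) (b := b) (r := r) (e := e)
    (f := 9 / 5 * (1 - 2 * (t + e))) (k := 1) (L := 1000) hR0 he (by norm_num) hp0 hq0
    (by linarith)
  rw [h5]
  refine le_trans (le_of_eq ?_) h6
  ring

/-- **a hosted half unit is paid by the capacities of its two cells** (both ends in `J`), factor
`(9/5) (1 - 2 (t + 1)/R)` -/
theorem cs_pay8 {R A t u b v : ℝ} (hR : 65 ≤ R) (hA : 3 * R ≤ 40 * A) (hA2 : 2 * A ≤ R)
    (ht2 : 2 * (t + 1) ≤ R) (hu : 3 ≤ u) (hu2 : 2 * (u + 1) ≤ R)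
    (hu3 : R ≤ 2 * (u + 1) ^ 3) (hb : 0 ≤ b) (hbv : b ≤ v)
    (hp : b * v ≤ R + t * u) (hv : u + v ≤ R) (hbs : b + v ≤ R)
    (hm : (t + 1) + (u + 1) ≤ R - A) (ht8 : R ≤ 8 * (t + 1)) :
    csS A (t + 1) + 9 / 5 * (1 - 2 * (t + 1) / R) * (1 - csS A (t + 1)) * b / R
      ≤ csS A (t + 1) * (R - A - b + A / 2) / (R - A)
        + csS A (u + 1) * max 0 (R - A - v + A / 2) / (R - A) := by
  have hR0 : 0 < R := by linarith
  have hc : 0 < R - A := by linarith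
  have hr : max 0 (R - A - v + A / 2) = max (R - A - v) (-(A / 2)) + A / 2 := by
    rcases le_total (R - A - v) (-(A / 2)) with h | h
    · rw [max_eq_right h, max_eq_left (by linarith)]
      ring
    · rw [max_eq_left h, max_eq_right (by linarith)]
  have h1 := cs_cap8 hR hA hA2 ht2 hu hu2 hu3 hb hbv hp hv hbs hm
    (le_max_left (R - A - v) (-(A / 2))) (le_max_right (R - A - v) (-(A / 2))) ht8
  rw [hr]
  have h6 := csEx_pay (δ := 0) hR0 hc (by
    have h8 : 0 ≤ R ^ 2 / 1000 := by positivity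
    linarith)
  rw [zero_div, add_zero] at h6
  exact h6

/-- `csEx` decreases in the factor -/
lemma csEx_mono {R A f f' t b u r : ℝ} (hA : 0 ≤ A) (hc : 0 ≤ R - A) (ht : 0 ≤ t) (hb : 0 ≤ b)
    (hf : f ≤ f') : csEx R A f' t b u r ≤ csEx R A f t b u r := by
  unfold csEx
  have h1 : csS A (t + 1) ≤ 1 := csS_le_one hA (by linarith)
  have h2 : f * (1 - csS A (t + 1)) * b ≤ f' * (1 - csS A (t + 1)) * b :=
    mul_le_mul_of_nonneg_right (mul_le_mul_of_nonneg_right hf (by linarith)) hb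
  have h3 := mul_le_mul_of_nonneg_left h2 hc
  linarith

/-- `csDx` decreases in the factor -/
lemma csDx_mono {R A f f' t b : ℝ} (hA : 0 ≤ A) (hc : 0 ≤ R - A) (ht : 0 ≤ t) (hb : 0 ≤ b)
    (hf : f ≤ f') : csDx R A f' t b ≤ csDx R A f t b := by
  unfold csDx
  have h1 : csS A (t + 1) ≤ 1 := csS_le_one hA (by linarith)
  have h2 : f * (1 - csS A (t + 1)) * b ≤ f' * (1 - csS A (t + 1)) * b :=
    mul_le_mul_of_nonneg_right (mul_le_mul_of_nonneg_right hf (by linarith)) hb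
  have h3 := mul_le_mul_of_nonneg_left h2 hc
  linarith

/-- **the two end columns of a half unit, ANY factor** `f ≤ 3/2` (main end `8 (t + 1) ≤ R`), `f ≤ (9/5) (1 - 2 (t + 1)/R)`
(else) -/
theorem cs_capF {R A t u b v r f : ℝ} (hR : 65 ≤ R) (hA : 3 * R ≤ 40 * A) (hA2 : 2 * A ≤ R)
    (ht : 3 ≤ t) (ht2 : 2 * (t + 1) ≤ R) (hu : 3 ≤ u) (hu2 : 2 * (u + 1) ≤ R)
    (ht3 : R ≤ 2 * (t + 1) ^ 3) (hu3 : R ≤ 2 * (u + 1) ^ 3) (hb : 0 ≤ b) (hbv : b ≤ v)
    (hp : b * v ≤ R + t * u) (hv : u + v ≤ R) (hbs : b + v ≤ R)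
    (hm : (t + 1) + (u + 1) ≤ R - A) (r1 : R - A - v ≤ r) (r2 : -(A / 2) ≤ r) :
    (8 * (t + 1) ≤ R → f ≤ 3 / 2 → -(R ^ 2 / 50) ≤ csEx R A f t b u r) ∧
    (R ≤ 8 * (t + 1) → f ≤ 9 / 5 * (1 - 2 * (t + 1) / R) →
      R ^ 2 / 1000 ≤ csEx R A f t b u r) := by
  have hA0 : 0 ≤ A := by linarith
  have hc : 0 ≤ R - A := by linarith
  refine ⟨fun h1 hf => ?_, fun h1 hf => ?_⟩
  · exact ((cs_cap hR hA hA2 ht ht2 hu hu2 ht3 hu3 hb hbv hp hv hbs hm r1 r2).2.2 h1).trans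
      (csEx_mono hA0 hc (by linarith) hb hf)
  · exact (cs_cap8 hR hA hA2 ht2 hu hu2 hu3 hb hbv hp hv hbs hm r1 r2 h1).trans
      (csEx_mono hA0 hc (by linarith) hb hf)

/-- **a hosted half unit is paid by the capacities of its two cells, ANY factor**; `δ = 0` for a main end
`8 (t + 1) ≥ R`, `δ = R / (50 (R - A))` else -/
theorem cs_payF {R A t u b v f : ℝ} (hR : 65 ≤ R) (hA : 3 * R ≤ 40 * A) (hA2 : 2 * A ≤ R)
    (ht : 3 ≤ t) (ht2 : 2 * (t + 1) ≤ R) (hu : 3 ≤ u) (hu2 : 2 * (u + 1) ≤ R)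
    (ht3 : R ≤ 2 * (t + 1) ^ 3) (hu3 : R ≤ 2 * (u + 1) ^ 3) (hb : 0 ≤ b) (hbv : b ≤ v)
    (hp : b * v ≤ R + t * u) (hv : u + v ≤ R) (hbs : b + v ≤ R)
    (hm : (t + 1) + (u + 1) ≤ R - A) :
    (8 * (t + 1) ≤ R → f ≤ 3 / 2 →
      csS A (t + 1) + f * (1 - csS A (t + 1)) * b / R
        ≤ csS A (t + 1) * (R - A - b + A / 2) / (R - A)
          + csS A (u + 1) * max 0 (R - A - v + A / 2) / (R - A) + R / (50 * (R - A))) ∧
    (R ≤ 8 * (t + 1) → f ≤ 9 / 5 * (1 - 2 * (t + 1) / R) →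
      csS A (t + 1) + f * (1 - csS A (t + 1)) * b / R
        ≤ csS A (t + 1) * (R - A - b + A / 2) / (R - A)
          + csS A (u + 1) * max 0 (R - A - v + A / 2) / (R - A)) := by
  have hR0 : 0 < R := by linarith
  have hc : 0 < R - A := by linarith
  have hr : max 0 (R - A - v + A / 2) = max (R - A - v) (-(A / 2)) + A / 2 := by
    rcases le_total (R - A - v) (-(A / 2)) with h | h
    · rw [max_eq_right h, max_eq_left (by linarith)]
      ring
    · rw [max_eq_left h, max_eq_right (by linarith)]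
  obtain ⟨h1, h2⟩ := cs_capF (f := f) hR hA hA2 ht ht2 hu hu2 ht3 hu3 hb hbv hp hv hbs hm
    (le_max_left (R - A - v) (-(A / 2))) (le_max_right (R - A - v) (-(A / 2)))
  rw [hr]
  refine ⟨fun h4 hf => ?_, fun h4 hf => ?_⟩
  · have h6 := csEx_pay (δ := R ^ 2 / 50) hR0 hc (h1 h4 hf)
    have h7 : R ^ 2 / 50 / (R * (R - A)) = R / (50 * (R - A)) := by
      field_simp
    rw [h7] at h6
    exact h6
  · have h6 := csEx_pay (δ := 0) hR0 hc (by
      have h7 := h2 h4 hf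
      have h8 : 0 ≤ R ^ 2 / 1000 := by positivity
      linarith)
    rw [zero_div, add_zero] at h6
    exact h6

end CsExt8

end Pool.Agent.Lib.MP_f04ccf_co
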