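import Pool.Agent.Lib.MP_f04ccf_co.M.CsIn

/-!
MP_f04ccf_co, TEXT D: **the row claim of any table from the column sum**, general form of `LevC.csShare`: any function `α`
for the arcs (what a column charges for an item besides its misses), and the PC pairs hosted by `z` kept `κ` times in
the row test (`κ = 0`: they leave, `κ = 1`: tN or the exact row test with everything kept).

* `LevC.csShareA`.
-/

set_option autoImplicit false

namespace Pool.Agent.Lib.MP_f04ccf_co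

open Finset

attribute [local instance] Classical.propDecidable

section CsGen

variable {ι : Type*} {R : ℤ} {n : ℕ} {t s mu : ℕ → ℤ} {U : Finset ι} {ho : ι → ℕ} {vl : ι → ℤ}
  {kp mn : ℕ → ι → ℤ} {pc ar : ι → ℤ} {be kq NN sg : ℕ → ℕ → ℤ} {nu : ℕ → ι → ℤ} {z y : ℕ}
  {φ : ι → ℕ → ℤ} {g : ℕ → ι → ℕ} {f : ι → ℕ}

/-- **the row of any table from the column sum**, with any arcs `α`, the PC hosted pairs `κ` times in the row test -/
theorem LevC.csShareA (C : LevC n U ho vl kp mn pc φ g f)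
    (H : PCon R n t s mu U ho vl kp mn pc ar be kq NN sg nu) (hz : z < n) {J : Finset ℕ}
    (hJ : J ⊆ (range n).erase z) {P : ℕ → Finset ι}
    {w : ℕ → ℝ} (hw : ∀ y ∈ J, 0 ≤ w y)
    (hJ0 : ∀ y ∈ (range n).erase z, y ∉ J → be z y = 0)
    {c : ℝ} (hc0 : 0 < c) {τ : ℝ} (hτ : 0 ≤ τ) {κ : ℝ} {α : ℕ → ι → ℝ}
    -- the columns
    {V : ℕ → Finset ι} (hV : ∀ y ∈ J, V y ⊆ U.filter fun u => ho u = y ∧ g z u ≠ 0) {r : ℕ → ℝ}
    (hcol : ∀ y ∈ J, 2 * (c * ((be z y : ℝ) + ∑ u ∈ V y, (g z u : ℝ)))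
        + 2 * ∑ u ∈ hsZ U ho pc z, (crY R t vl kp mn z y (P y) u : ℝ) + r y
      ≤ 2 * ((t y : ℝ) * ((mu z : ℝ) - s z)) + 2 * ((R : ℝ) - t y)
        + 2 * ∑ u ∈ V y, ((msP kp mn z (g z) u : ℝ) + α y u))
    -- the row test
    {KT : Finset ι} (hKT : KT ⊆ U.filter fun u => g z u ≠ 0) {lv : ι → ℕ} {rT : ℝ}
    (hT : 2 * (c * (∑ u ∈ hsZ U ho pc z, (vl u : ℝ) + κ * ∑ y ∈ J, (be z y : ℝ)
        + ∑ u ∈ KT, (lv u : ℝ))) + rT
      ≤ 2 * ((R : ℝ) * ((mu z : ℝ) - s z)) + 2 * ∑ u ∈ KT, (msP kp mn z lv u : ℝ))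
    -- the shares
    {X Y : ι × ℕ × ℕ → ℝ} (hX : ∀ v ∈ unV n U g, 0 ≤ X v) (hY : ∀ v ∈ unV n U g, 0 ≤ Y v)
    {F : Finset (ι × ℕ × ℕ)} (hF : F ⊆ unV n U g)
    (hpc : ∀ v ∈ unV n U g, ho v.1 = z → pc v.1 ≠ 0 → X v ≤ w v.2.1 + κ * (τ * c))
    (hB : ∀ u ∈ hsZ U ho pc z, xIt n g X u
      ≤ ∑ y ∈ J, w y / c * (crY R t vl kp mn z y (P y) u : ℝ) + τ * (c * (vl u : ℝ)))
    (hS : ∀ u ∈ U, g z u ≠ 0 → yIt g Y z u
      ≤ (if ho u ∈ J ∧ u ∈ V (ho u) then w (ho u) * (g z u : ℝ)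
          - w (ho u) / c * ((msP kp mn z (g z) u : ℝ) + α (ho u) u) else 0)
        + τ * (if u ∈ KT then c * (lv u : ℝ) - (msP kp mn z lv u : ℝ) else 0)) :
    ∑ v ∈ F.filter (fun v => ho v.1 = z), X v + ∑ v ∈ F.filter (fun v => v.2.1 = z), Y v
        + (1 / 2) * (∑ y ∈ J, w y / c * r y + τ * rT)
      ≤ (∑ y ∈ J, w y / c * (t y : ℝ) + τ * R) * ((mu z : ℝ) - s z)
        + ∑ y ∈ J, w y / c * ((R : ℝ) - t y) := by
  have hL := C.csLoad H hz hX hY hF
  -- the hosted items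
  have h1 : ∑ u ∈ U.filter (fun u => ho u = z), xIt n g X u
      ≤ ∑ u ∈ hsZ U ho pc z, xIt n g X u + ∑ y ∈ J, (w y + κ * (τ * c)) * (be z y : ℝ) := by
    rw [← sum_filter_add_sum_filter_not (U.filter fun u => ho u = z) (fun u => pc u = 0),
      filter_filter]
    refine add_le_add (le_of_eq rfl) ?_
    have h2 : ∀ u ∈ (U.filter fun u => ho u = z).filter (fun u => ¬ pc u = 0),
        xIt n g X u ≤ ∑ i ∈ range n, (w i + κ * (τ * c)) * (g i u : ℝ) := by
      intro u hu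
      obtain ⟨h3, h4⟩ := mem_filter.1 hu
      obtain ⟨h5, h6⟩ := mem_filter.1 h3
      unfold xIt
      refine sum_le_sum fun i hi => ?_
      have h7 : ∀ j ∈ range (g i u), X (u, i, j) ≤ w i + κ * (τ * c) := by
        intro j hj
        refine hpc (u, i, j) ?_ h6 h4
        have h8 := C.two H u h5 i (mem_range.1 hi)
        have h9 := mem_range.1 hj
        simp only [unV, mem_filter, mem_product, mem_range]
        exact ⟨⟨h5, mem_range.1 hi, by omega⟩, h9⟩
      refine (sum_le_sum h7).trans (le_of_eq ?_)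
      rw [sum_const, card_range, nsmul_eq_mul]
      ring
    refine (sum_le_sum h2).trans (le_of_eq ?_)
    rw [sum_comm]
    have h3 : ∀ i ∈ range n, ∑ u ∈ (U.filter fun u => ho u = z).filter (fun u => ¬ pc u = 0),
        (w i + κ * (τ * c)) * (g i u : ℝ) = (w i + κ * (τ * c)) * (be z i : ℝ) := by
      intro i hi
      rw [← mul_sum]
      congr 1
      have h4 : ∑ u ∈ (U.filter fun u => ho u = z).filter (fun u => ¬ pc u = 0), (g i u : ℤ)
          = be z i := by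
        rw [← H.pcb z hz i (mem_range.1 hi),
          ← sum_filter_add_sum_filter_not (U.filter fun u => ho u = z)
          (fun u => pc u = 0) (fun u => pc u * kp i u)]
        have e2 : ∑ u ∈ (U.filter fun u => ho u = z).filter (fun u => pc u = 0), pc u * kp i u = 0 :=
          sum_eq_zero fun u hu => by rw [(mem_filter.1 hu).2, zero_mul]
        rw [e2, zero_add]
        refine sum_congr rfl fun u hu => ?_
        obtain ⟨h5, h6⟩ := mem_filter.1 hu
        have h7 := (mem_filter.1 h5).1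
        rw [C.lev_pc H h7 h6 (mem_range.1 hi)]
        rcases H.pc01 u h7 with h8 | h8
        · exact absurd h8 h6
        · rw [h8, one_mul]
      rw [← h4]
      push_cast
      rfl
    rw [sum_congr rfl h3]
    refine (sum_subset (hJ.trans (erase_subset _ _)) fun i hi hi' => ?_).symm
    by_cases h4 : i = z
    · rw [h4]
      have h5 : be z z = 0 := by
        rw [← H.pcb z hz z hz]
        refine sum_eq_zero fun u hu => ?_
        obtain ⟨h6, h7⟩ := mem_filter.1 hu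
        have h8 := H.kh u h6
        rw [h7] at h8
        rw [h8, mul_zero]
      rw [h5]
      norm_num
    · rw [hJ0 i (mem_erase.2 ⟨h4, hi⟩) hi']
      norm_num
  -- the served items
  have h2 : ∑ u ∈ U.filter (fun u => g z u ≠ 0), yIt g Y z u
      ≤ ∑ y ∈ J, ∑ u ∈ V y, (w y * (g z u : ℝ)
          - w y / c * ((msP kp mn z (g z) u : ℝ) + α y u))
        + τ * ∑ u ∈ KT, (c * (lv u : ℝ) - (msP kp mn z lv u : ℝ)) := by
    refine (sum_le_sum fun u hu => hS u (mem_filter.1 hu).1 (mem_filter.1 hu).2).trans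
      (le_of_eq ?_)
    rw [sum_add_distrib, ← mul_sum, ← sum_filter, ← sum_filter]
    have e2 : (U.filter fun u => g z u ≠ 0).filter (fun u => u ∈ KT) = KT := by
      ext u
      simp only [mem_filter]
      exact ⟨fun h => h.2, fun h => ⟨mem_filter.1 (hKT h), h⟩⟩
    rw [e2]
    congr 1
    rw [← sum_fiberwise_of_maps_to (t := J) (g := fun u => ho u)
      fun u hu => (mem_filter.1 hu).2.1]
    refine sum_congr rfl fun y hy => ?_
    have e3 : ((U.filter fun u => g z u ≠ 0).filter fun u => ho u ∈ J ∧ u ∈ V (ho u)).filter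
        (fun u => ho u = y) = V y := by
      ext u
      simp only [mem_filter]
      constructor
      · rintro ⟨⟨-, -, h3⟩, h4⟩
        rw [h4] at h3
        exact h3
      · intro h3
        obtain ⟨h4, h5, h6⟩ := mem_filter.1 (hV y hy h3)
        refine ⟨⟨⟨h4, h6⟩, ?_, ?_⟩, h5⟩
        · rw [h5]
          exact hy
        · rw [h5]
          exact h3
    rw [e3]
    refine sum_congr rfl fun u hu => ?_
    rw [(mem_filter.1 (hV y hy hu)).2.1]
  -- the hosted plain items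
  have h3 := sum_le_sum hB
  rw [sum_add_distrib, sum_comm (s := hsZ U ho pc z) (t := J), ← mul_sum, ← mul_sum] at h3
  -- the columns
  have h4 : ∀ y ∈ J, w y * ((be z y : ℝ) + ∑ u ∈ V y, (g z u : ℝ))
        + ∑ u ∈ hsZ U ho pc z, w y / c * (crY R t vl kp mn z y (P y) u : ℝ)
        + (1 / 2) * (w y / c * r y)
      ≤ w y / c * (t y : ℝ) * ((mu z : ℝ) - s z) + w y / c * ((R : ℝ) - t y)
        + w y / c * ∑ u ∈ V y, ((msP kp mn z (g z) u : ℝ) + α y u) := by
    intro y hy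
    have h5 := mul_le_mul_of_nonneg_left (hcol y hy) (div_nonneg (hw y hy) hc0.le)
    have h6 : w y / c * (2 * (c * ((be z y : ℝ) + ∑ u ∈ V y, (g z u : ℝ))))
        = 2 * (w y * ((be z y : ℝ) + ∑ u ∈ V y, (g z u : ℝ))) := by
      field_simp
    rw [← mul_sum]
    nlinarith [h5, h6]
  have h5 := sum_le_sum h4
  rw [sum_add_distrib, sum_add_distrib, sum_add_distrib, sum_add_distrib, ← sum_mul,
    ← mul_sum] at h5
  have h6 := mul_le_mul_of_nonneg_left hT hτ
  have h7 : ∑ y ∈ J, ∑ u ∈ V y, (w y * (g z u : ℝ)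
          - w y / c * ((msP kp mn z (g z) u : ℝ) + α y u))
      = ∑ y ∈ J, w y * ∑ u ∈ V y, (g z u : ℝ)
        - ∑ y ∈ J, w y / c * ∑ u ∈ V y,
          ((msP kp mn z (g z) u : ℝ) + α y u) := by
    rw [← sum_sub_distrib]
    refine sum_congr rfl fun y _ => ?_
    rw [sum_sub_distrib, ← mul_sum, ← mul_sum]
  have h8 : ∑ y ∈ J, w y * ((be z y : ℝ) + ∑ u ∈ V y, (g z u : ℝ))
      = ∑ y ∈ J, w y * (be z y : ℝ) + ∑ y ∈ J, w y * ∑ u ∈ V y, (g z u : ℝ) := by
    rw [← sum_add_distrib]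
    exact sum_congr rfl fun y _ => by ring
  have h9 : ∑ u ∈ KT, (c * (lv u : ℝ) - (msP kp mn z lv u : ℝ))
      = c * ∑ u ∈ KT, (lv u : ℝ) - ∑ u ∈ KT, (msP kp mn z lv u : ℝ) := by
    rw [sum_sub_distrib, ← mul_sum]
  have h10 : ∑ y ∈ J, (w y + κ * (τ * c)) * (be z y : ℝ)
      = ∑ y ∈ J, w y * (be z y : ℝ) + κ * (τ * c) * ∑ y ∈ J, (be z y : ℝ) := by
    rw [mul_sum, ← sum_add_distrib]
    exact sum_congr rfl fun y _ => by ring
  rw [h7, h9] at h2
  rw [h8] at h5
  rw [h10] at h1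
  nlinarith [hL, h1, h2, h3, h5, h6]

end CsGen

end Pool.Agent.Lib.MP_f04ccf_co
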