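import Pool.Agent.Lib.MP_f04ccf_co.M.CsB
import Pool.Agent.Lib.MP_f04ccf_co.M.CsBxA

/-!
MP_f04ccf_co, TEXT D: **the hosted half units of the column sum certificate** (80, 18410), pure reals.

* `CsC.half_of_core`: the half unit from the polynomial inequality in its two cells, any factor `f`:
  share `s j + f (1 - s j) b / R`;
* `CsC.halfM2`: factor 0, main end with fewer misses, rows `R/20 ≤ A ≤ 49 R/100`, `R ≥ 60`.
-/

set_option autoImplicit false

namespace Pool.Agent.Lib.MP_f04ccf_co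

open Finset

section CsH2

variable {R A : ℝ} {F : Finset ℕ} {t cr : ℕ → ℝ}

/-- **a half unit from its two cells** -/
theorem CsC.half_of_core (H : CsC R A F t) {j w : ℕ} (hj : j ∈ F) (hw : w ∈ F) (hjw : j ≠ w)
    (h1 : ∀ l ∈ F, l ≠ j → l ≠ w → - t l ≤ cr l)
    (h2 : ∀ l ∈ F, l ≠ j → l ≠ w → t l - A ≤ cr l) {b r f ρ : ℝ}
    (hcj : R - A - b ≤ cr j) (hr : r ≤ cr w)
    (core : 6 * ((R - A) * R * ρ) * ((A + (t j + 1)) * (A + (t w + 1)))
        + 6 * f * (R - A) * A * b * (A + (t w + 1))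
      ≤ 6 * (R - A) ^ 2 * ((A + (t j + 1)) * (A + (t w + 1)))
        - 2 * (2 * R - A) * (R - A - (t j + 1) - (t w + 1))
          * ((A + (t j + 1)) * (A + (t w + 1)))
        - 6 * (R - A) * ((t j + 1) * t j * (A + (t w + 1)) + (t w + 1) * t w * (A + (t j + 1)))
        - 6 * R * (t j + 1) * b * (A + (t w + 1)) + 6 * R * (t w + 1) * r * (A + (t j + 1))) :
    csS A (t j + 1) + f * (1 - csS A (t j + 1)) * b / R + ρ
      ≤ ∑ l ∈ F, csL R A (t l) * cr l + csT R A F t * (R - A) := by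
  have h0 := H.red2 hj hw hjw h1 h2
  have hc := H.c_pos
  have hA := H.hA
  have hR0 : 0 < R := by linarith [H.hR]
  have htj := H.t0 j hj
  have htw := H.t0 w hw
  set x : ℝ := t j + 1 with hx
  set y : ℝ := t w + 1 with hy
  have hx0 : 0 < x := by linarith
  have hy0 : 0 < y := by linarith
  have hp : 0 < A + x := by linarith
  have hq : 0 < A + y := by linarith
  set sx : ℝ := csS A x with hsx
  set sy : ℝ := csS A y with hsy
  have ex : sx * (A + x) = x := csS_mul hp.ne'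
  have ey : sy * (A + y) = y := csS_mul hq.ne'
  have hsx0 : 0 ≤ sx := csS_nonneg (by linarith) hx0.le
  have hsy0 : 0 ≤ sy := csS_nonneg (by linarith) hy0.le
  have hpq : 0 < (A + x) * (A + y) := mul_pos hp hq
  have e1 : (1 - sx) * (A + x) = A := by
    have : (1 - sx) * (A + x) = (A + x) - sx * (A + x) := by ring
    rw [this, ex]
    ring
  -- the inequality divided by `6 p q`
  have key : (R - A) * R * ρ + f * (R - A) * (1 - sx) * b
      ≤ (R - A) ^ 2 - (2 * R - A) / 3 * (R - A - (x + y)) - (R - A) * (sx * t j + sy * t w)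
        - R * sx * b + R * sy * r := by
    refine le_of_mul_le_mul_right ?_ (show (0 : ℝ) < 6 * ((A + x) * (A + y)) by linarith)
    have e2 : ((R - A) * R * ρ + f * (R - A) * (1 - sx) * b) * (6 * ((A + x) * (A + y)))
        = 6 * ((R - A) * R * ρ) * ((A + x) * (A + y))
          + 6 * f * (R - A) * ((1 - sx) * (A + x)) * b * (A + y) := by ring
    have e3 : ((R - A) ^ 2 - (2 * R - A) / 3 * (R - A - (x + y))
        - (R - A) * (sx * t j + sy * t w) - R * sx * b + R * sy * r)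
          * (6 * ((A + x) * (A + y)))
        = 6 * (R - A) ^ 2 * ((A + x) * (A + y))
          - 2 * (2 * R - A) * (R - A - x - y) * ((A + x) * (A + y))
          - 6 * (R - A) * ((sx * (A + x)) * t j * (A + y) + (sy * (A + y)) * t w * (A + x))
          - 6 * R * (sx * (A + x)) * b * (A + y) + 6 * R * (sy * (A + y)) * r * (A + x) := by
      ring
    rw [e2, e3, e1, ex, ey]
    exact core
  have h3 : R * (sx * (R - A - b)) ≤ R * (sx * cr j) :=
    mul_le_mul_of_nonneg_left (mul_le_mul_of_nonneg_left hcj hsx0) hR0.le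
  have h4 : R * (sy * r) ≤ R * (sy * cr w) :=
    mul_le_mul_of_nonneg_left (mul_le_mul_of_nonneg_left hr hsy0) hR0.le
  have h6 : (R - A) * R * (sx + f * (1 - sx) * b / R + ρ)
      ≤ (R - A) * R * (∑ l ∈ F, csL R A (t l) * cr l + csT R A F t * (R - A)) := by
    refine le_trans ?_ h0
    have e4 : (R - A) * R * (sx + f * (1 - sx) * b / R + ρ)
        = R * (sx * (R - A)) + (f * (R - A) * (1 - sx) * b) + (R - A) * R * ρ := by
      field_simp
    rw [e4]
    linarith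
  exact le_of_mul_le_mul_left h6 (mul_pos hc hR0)

/-- the polynomial inequality of the two cells, factor 0 -/
lemma cs_coreM2 {R A t u b v r ρ : ℝ} (hR : 60 ≤ R) (ht : 0 ≤ t) (ht2 : 2 * (t + 1) ≤ R)
    (hu : 0 ≤ u) (hu2 : 2 * (u + 1) ≤ R) (hb : 0 ≤ b) (hbv : b ≤ v) (hp : b * v ≤ R + t * u)
    (hv : u + v ≤ R) (hbs : b + v ≤ R) (hm : (t + 1) + (u + 1) ≤ R - A)
    (r1 : R - A - v ≤ r) (r2 : -u ≤ r)
    (hρ : (5 * R ≤ 100 * A ∧ 100 * A ≤ 12 * R ∧ (R - A) * ρ ≤ 7 / 100 * R)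
      ∨ (12 * R ≤ 100 * A ∧ 100 * A ≤ 25 * R ∧ (R - A) * ρ ≤ 1 / 10 * R)
      ∨ (25 * R ≤ 100 * A ∧ 100 * A ≤ 30 * R ∧ (R - A) * ρ ≤ 9 / 100 * R)
      ∨ (30 * R ≤ 100 * A ∧ 100 * A ≤ 49 * R ∧ ρ ≤ 19 / 20 * ((2 * (R - A) - R) / (3 * R)))) :
    6 * ((R - A) * R * ρ) * ((A + (t + 1)) * (A + (u + 1)))
      ≤ 6 * (R - A) ^ 2 * ((A + (t + 1)) * (A + (u + 1)))
        - 2 * (2 * R - A) * (R - A - (t + 1) - (u + 1)) * ((A + (t + 1)) * (A + (u + 1)))
        - 6 * (R - A) * ((t + 1) * t * (A + (u + 1)) + (u + 1) * u * (A + (t + 1)))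
        - 6 * R * (t + 1) * b * (A + (u + 1)) + 6 * R * (u + 1) * r * (A + (t + 1)) := by
  have hR0 : 0 < R := by linarith
  have hA0 : 0 < A := by
    rcases hρ with h | h | h | h <;> linarith [h.1]
  have hA2 : 2 * A ≤ R := by
    rcases hρ with h | h | h | h <;> linarith [h.2.1]
  obtain ⟨e, he⟩ : ∃ e, e * R = 1 := ⟨1 / R, by field_simp⟩
  obtain ⟨a, rfl⟩ : ∃ a, A = a * R := ⟨A / R, by field_simp⟩
  obtain ⟨t, rfl⟩ : ∃ x, t = x * R := ⟨t / R, by field_simp⟩
  obtain ⟨u, rfl⟩ : ∃ x, u = x * R := ⟨u / R, by field_simp⟩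
  obtain ⟨b, rfl⟩ : ∃ x, b = x * R := ⟨b / R, by field_simp⟩
  obtain ⟨v, rfl⟩ : ∃ x, v = x * R := ⟨v / R, by field_simp⟩
  obtain ⟨r, rfl⟩ : ∃ x, r = x * R := ⟨r / R, by field_simp⟩
  have dv : ∀ {x y : ℝ}, x * R ≤ y * R → x ≤ y := fun h => le_of_mul_le_mul_right h hR0
  have hex : t * R + 1 = (t + e) * R := by rw [add_mul, he]
  have heu : u * R + 1 = (u + e) * R := by rw [add_mul, he]
  have a0 : 0 < a := (mul_pos_iff_of_pos_right hR0).1 hA0
  have t0 : 0 ≤ t := dv (by linarith)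
  have u0 : 0 ≤ u := dv (by linarith)
  have b0 : 0 ≤ b := dv (by linarith)
  have e0 : 0 ≤ e := dv (by linarith)
  have c1 : 2 * t ≤ 1 := dv (by linarith)
  have c2 : 2 * u ≤ 1 := dv (by linarith)
  have c3 : b + v ≤ 1 := dv (by linarith)
  have c4 : u + v ≤ 1 := dv (by linarith)
  have c5 : b ≤ v := dv hbv
  have c6 : 60 * e ≤ 1 := dv (by linarith)
  have c7 : b * v ≤ t * u + e := by
    have h1 : (b * v) * (R * R) ≤ (t * u + e) * (R * R) := by
      have h2 : (t * u + e) * (R * R) = t * R * (u * R) + (e * R) * R := by ring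
      rw [h2, he]
      linarith
    exact le_of_mul_le_mul_right h1 (mul_pos hR0 hR0)
  have c8 : (t + e) + (u + e) ≤ 1 - a := by
    rw [hex, heu] at hm
    exact dv (by linarith)
  have c9 : 1 - a - v ≤ r := dv (by linarith)
  have c10 : -u ≤ r := dv (by linarith)
  have R4 : 0 < R ^ 4 := pow_pos hR0 4
  -- the claim from the box
  have fin : ∀ {k : ℝ}, (R - a * R) * ρ ≤ k * R →
      6 * k * ((a + (t + e)) * (a + (u + e)))
      < 6 * (1 - a) ^ 2 * ((a + (t + e)) * (a + (u + e)))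
        - 2 * (2 - a) * (1 - a - (t + e) - (u + e)) * ((a + (t + e)) * (a + (u + e)))
        - (6 * (1 - a) * ((t + e) * t * (a + (u + e)) + (u + e) * u * (a + (t + e)))
          + 6 * (t + e) * b * (a + (u + e)))
        + 6 * (u + e) * r * (a + (t + e)) →
      6 * ((R - a * R) * R * ρ) * ((a * R + (t * R + 1)) * (a * R + (u * R + 1)))
      ≤ 6 * (R - a * R) ^ 2 * ((a * R + (t * R + 1)) * (a * R + (u * R + 1)))
        - 2 * (2 * R - a * R) * (R - a * R - (t * R + 1) - (u * R + 1))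
          * ((a * R + (t * R + 1)) * (a * R + (u * R + 1)))
        - 6 * (R - a * R) * ((t * R + 1) * (t * R) * (a * R + (u * R + 1))
          + (u * R + 1) * (u * R) * (a * R + (t * R + 1)))
        - 6 * R * (t * R + 1) * (b * R) * (a * R + (u * R + 1))
        + 6 * R * (u * R + 1) * (r * R) * (a * R + (t * R + 1)) := by
    intro k hk hbox
    have h1 := mul_le_mul_of_nonneg_left hbox.le R4.le
    have hpq : 0 ≤ (a * R + (t * R + 1)) * (a * R + (u * R + 1)) := by positivity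
    have h2 : 6 * ((R - a * R) * R * ρ) * ((a * R + (t * R + 1)) * (a * R + (u * R + 1)))
        ≤ 6 * (k * R * R) * ((a * R + (t * R + 1)) * (a * R + (u * R + 1))) := by
      refine mul_le_mul_of_nonneg_right ?_ hpq
      have h3 := mul_le_mul_of_nonneg_right hk hR0.le
      linarith
    refine h2.trans ?_
    rw [hex, heu]
    linarith
  have v0 : 0 ≤ v := b0.trans c5
  rcases hρ with ⟨h1, h2, h3⟩ | ⟨h1, h2, h3⟩ | ⟨h1, h2, h3⟩ | ⟨h1, h2, h3⟩
  · have hb1 := CsBxA1.box (a := a) (t := t) (u := u) (b := b) (v := v) (e := e) (r := r)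
      (dv (by linarith)) (dv (by linarith)) t0 c1 u0 c2 b0 (by linarith) v0 (by linarith) e0 c6 c7 c5
      c4 c3 c8 c9 c10
    exact fin (k := 7 / 100) h3 (by linarith)
  · have hb1 := CsBxA2.box (a := a) (t := t) (u := u) (b := b) (v := v) (e := e) (r := r)
      (dv (by linarith)) (dv (by linarith)) t0 c1 u0 c2 b0 (by linarith) v0 (by linarith) e0 c6 c7 c5
      c4 c3 c8 c9 c10
    exact fin (k := 1 / 10) h3 (by linarith)
  · have hb1 := CsBxA3.box (a := a) (t := t) (u := u) (b := b) (v := v) (e := e) (r := r)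
      (dv (by linarith)) (dv (by linarith)) t0 c1 u0 c2 b0 (by linarith) v0 (by linarith) e0 c6 c7 c5
      c4 c3 c8 c9 c10
    exact fin (k := 9 / 100) h3 (by linarith)
  · have hb1 := CsBxA4.box (a := a) (t := t) (u := u) (b := b) (v := v) (e := e) (r := r)
      (dv (by linarith)) (dv (by linarith)) t0 c1 u0 c2 b0 (by linarith) v0 (by linarith) e0 c6 c7 c5
      c4 c3 c8 c9 c10
    refine fin (k := 19 / 20 * ((1 - a) * (2 * (1 - a) - 1) / 3)) ?_ (by linarith)
    have h4 := mul_le_mul_of_nonneg_left h3 (show 0 ≤ R - a * R by linarith)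
    refine h4.trans (le_of_eq ?_)
    field_simp

/-- **hosted half units, factor 0**: main cell `j` with `b` misses, other cell `w` with `v` misses -/
theorem CsC.halfM2 (H : CsC R A F t) (hR : 60 ≤ R) {j w : ℕ} (hj : j ∈ F) (hw : w ∈ F)
    (hjw : j ≠ w) (h1 : ∀ l ∈ F, l ≠ j → l ≠ w → - t l ≤ cr l)
    (h2 : ∀ l ∈ F, l ≠ j → l ≠ w → t l - A ≤ cr l) {b v ρ : ℝ} (hb : 0 ≤ b) (hbv : b ≤ v)
    (hp : b * v ≤ R + t j * t w) (hv : t w + v ≤ R) (hbs : b + v ≤ R)
    (hcj : R - A - b ≤ cr j) (hcw : R - A - v ≤ cr w) (hcw' : - t w ≤ cr w)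
    (hρ : (5 * R ≤ 100 * A ∧ 100 * A ≤ 12 * R ∧ (R - A) * ρ ≤ 7 / 100 * R)
      ∨ (12 * R ≤ 100 * A ∧ 100 * A ≤ 25 * R ∧ (R - A) * ρ ≤ 1 / 10 * R)
      ∨ (25 * R ≤ 100 * A ∧ 100 * A ≤ 30 * R ∧ (R - A) * ρ ≤ 9 / 100 * R)
      ∨ (30 * R ≤ 100 * A ∧ 100 * A ≤ 49 * R ∧ ρ ≤ 19 / 20 * ((2 * (R - A) - R) / (3 * R)))) :
    csS A (t j + 1) + ρ ≤ ∑ l ∈ F, csL R A (t l) * cr l + csT R A F t * (R - A) := by
  have h3 := H.half_of_core hj hw hjw h1 h2 (f := 0) (r := cr w) (ρ := ρ) hcj le_rfl (by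
    have h4 := cs_coreM2 (r := cr w) hR (H.t0 j hj) (H.t2 j hj) (H.t0 w hw) (H.t2 w hw) hb hbv hp
      hv hbs (H.two hj hw hjw) hcw hcw' hρ
    linarith)
  simpa using h3

end CsH2

end Pool.Agent.Lib.MP_f04ccf_co
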