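import Pool.Agent.Lib.MP_f04ccf_co.M.NumX
import Pool.Agent.Lib.MP_f04ccf_co.M.CellDC

/-!
MP_f04ccf_co, TEXT D: **one cell in numbers, concentrated packings, any used PC pairs; the rectangle of any item**
(M/NumX over `PConC`).

The letters of M/NumX. More on the left side: `n1 (n1 - 1)` a second time and `∑ e ∈ P.offDiag, min (vl e.1) (vl e.2)`
(at least `p (p - 1)`, `offDiag_min_ge`).

* `PConC.numKQ2`: the columns of `y`, the PC pairs of the cell joint, any used PC pairs `Q` of the host `y` (`q` of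
  them) and plain items `K` at levels;
* `PConC.numXQ2`, `PConC.numX02`: with a rectangle `RcW` (any item, any value), the PC pairs not joint;
* `PConC.rect2`, `PConC.rectK2`: the bound of a product of misses of any item (plain hosted items out, kept).
-/

set_option autoImplicit false

namespace Pool.Agent.Lib.MP_f04ccf_co

open Finset

attribute [local instance] Classical.propDecidable

section NumXC

variable {ι : Type*} {R : ℤ} {n : ℕ} {t s mu : ℕ → ℤ} {U : Finset ι} {ho : ι → ℕ} {vl : ι → ℤ}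
  {kp mn : ℕ → ι → ℤ} {pc ar : ι → ℤ} {be kq NN sg : ℕ → ℕ → ℤ} {nu : ℕ → ι → ℤ} {z y : ℕ}

/-- **the filters of one cell in numbers**, any plain used items of the host `y` at levels, any used PC pairs of the
host `y` (the PC pairs of the cell joint) -/
theorem PConC.numKQ2 (H : PConC R n t s mu U ho vl kp mn pc ar be kq NN sg nu) (hz : z < n)
    (hy : y < n) (hyz : y ≠ z) {P : Finset ι} (hP : P ⊆ U)
    (hPz : ∀ u ∈ P, ho u = z ∧ pc u = 0) {K : Finset ι} (hK : K ⊆ U)
    (hKy : ∀ u ∈ K, ho u = y ∧ pc u = 0) {lv : ι → ℕ} (hlv : ∀ u ∈ K, 1 ≤ lv u)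
    (hlv' : ∀ u ∈ K, (lv u : ℤ) ≤ kp z u) {Q : Finset ι} (hQU : Q ⊆ U)
    (hQy : ∀ u ∈ Q, ho u = y ∧ pc u = 1 ∧ kp z u ≠ 0) {Y : Finset ℕ}
    (hY : Y ⊆ ((range n).erase z).erase y) {m k κ' n1 q f M b E W g : ℤ}
    (hm : m = ∑ u ∈ P, vl u) (hk : k = ∑ u ∈ K, (lv u : ℤ)) (hκ : κ' = (K.card : ℤ))
    (hn : n1 = ((K.filter fun u => vl u = 1).card : ℤ)) (hq : q = (Q.card : ℤ))
    (hf : f = ((K.filter fun u => ¬ ∃ l < n, l ≠ z ∧ kp l u ≠ 0).card : ℤ))
    (hb : b = ∑ l ∈ ((range n).erase z).erase y \ Y, (be z l - kq z l))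
    (hM : M = be z y + q) (hE : E = m + b + M + k) (hW : W = m + b + M + k + κ')
    (hg : g = ((U.filter fun u => ho u = z ∧ pc u = 0).card : ℤ) - (P.card : ℤ)) :
    2 * ((R - t y) * (M + k - 1) + ∑ u ∈ P, (kp y u * (R - t y) - mn y u))
      + (m + b) * (W + 1) + M * (m + b + k + κ') + (k - κ') * (W + 1) + 2 * (n1 * (n1 - 1))
      + ∑ e ∈ P.offDiag, min (vl e.1) (vl e.2)
      - 2 * ∑ u ∈ K.filter (fun u => ∃ l < n, l ≠ z ∧ kp l u ≠ 0),
        ∑ l ∈ ((range n).erase y).filter (fun l => kp l u ≠ 0), be y l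
      ≤ 2 * ((t z + 1) * E + ∑ u ∈ K, msP kp mn z lv u)
        + 2 * ((t y - W) * (mu z - s z + g - E)) + 2 * ((be y z - q) * f)
        + (∑ l ∈ ((range n).erase z).erase y \ Y, (be z l - kq z l) * (be z l - kq z l + 1)
          + 2 * ∑ l ∈ Y, (be z l - kq z l) * (sg z l
            + ((P.filter fun u => kp l u ≠ 0).card : ℤ))) := by
  set D : Finset ι := U.filter fun u => ho u = z ∧ pc u = 0 ∧ u ∉ P with hD
  set X : Finset ℕ := ((range n).erase z).erase y with hXd
  have hDz : ∀ u ∈ D, ho u = z ∧ pc u = 0 := fun u hu => by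
    obtain ⟨-, h1, h2, -⟩ := mem_filter.1 hu
    exact ⟨h1, h2⟩
  obtain ⟨eP, eD⟩ := plain_split hP hPz
  rw [← hD] at eP eD
  set w : ι → ℕ := fun u => if pc u = 1 then 1 else lv u with hw
  have hwK : ∀ u ∈ K, w u = lv u := fun u hu => by
    rw [hw]
    simp only
    rw [if_neg]
    rw [(hKy u hu).2]
    norm_num
  have hwQ : ∀ u ∈ Q, w u = 1 := fun u hu => by
    rw [hw]
    simp only
    rw [if_pos (hQy u hu).2.1]
  have hQK : Disjoint Q K := by
    rw [disjoint_left]
    intro u h1 h2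
    have h3 := (hQy u h1).2.1
    rw [(hKy u h2).2] at h3
    exact absurd h3 (by norm_num)
  have hQ1 : ∀ u ∈ Q, u ∈ U ∧ ho u = y ∧ pc u = 1 ∧ vl u = 1 ∧ kp z u = 1 := by
    intro u hu
    obtain ⟨h3, h4, h5⟩ := hQy u hu
    have h6 := H.pcv u (hQU hu) (by rw [h4]; norm_num)
    exact ⟨hQU hu, h3, h4, h6, H.kp_one (hQU hu) h6 hz h5⟩
  have hoy : ∀ u ∈ Q ∪ K, ho u = y := fun u hu => by
    rcases mem_union.1 hu with h1 | h1
    · exact (hQ1 u h1).2.1
    · exact (hKy u h1).1
  have hKU : Q ∪ K ⊆ U := union_subset hQU hK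
  have hX : X ⊆ range n := (erase_subset _ _).trans (erase_subset _ _)
  -- the numbers
  have e1 : ∑ u ∈ Q ∪ K, pc u = q := by
    rw [sum_union hQK, sum_congr rfl fun u hu => (hQ1 u hu).2.2.1,
      sum_congr (s₁ := K) rfl fun u hu => (hKy u hu).2, sum_const, sum_const_zero, nsmul_eq_mul,
      mul_one, add_zero, hq]
  have e1' : ∑ u ∈ Q ∪ K, (if ho u = y then pc u else 0) = q := by
    rw [← e1]
    exact sum_congr rfl fun u hu => if_pos (hoy u hu)
  have h0 := H.tPc z hz y hy hyz X hX (notMem_erase _ _) Y hY D (filter_subset _ _) hDz (Q ∪ K)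
    hKU (fun u hu => by rw [hoy u hu]; exact hyz) w
    (fun u hu => by
      rcases mem_union.1 hu with h1 | h1
      · rw [hwQ u h1]
      · rw [hwK u h1]
        exact hlv u h1)
    (fun u hu => by
      rcases mem_union.1 hu with h1 | h1
      · rw [hwQ u h1, (hQ1 u h1).2.2.2.2]
        norm_num
      · rw [hwK u h1]
        exact hlv' u h1) _ (Or.inl le_rfl)
  unfold NP2 at h0
  have e2 : ((Q ∪ K).card : ℤ) = q + κ' := by
    rw [card_union_of_disjoint hQK, hκ, hq]
    push_cast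
    rfl
  have e3 : ∑ u ∈ Q ∪ K, msP kp mn z w u = ∑ u ∈ K, msP kp mn z lv u := by
    rw [sum_union hQK]
    have h1 : ∑ u ∈ Q, msP kp mn z w u = 0 := sum_eq_zero fun u hu => by
      obtain ⟨h2, h3, h4, h5, -⟩ := hQ1 u hu
      unfold msP
      rw [(H.pc_fact h2 (by rw [h4]; norm_num)).2.2.1 z hz, ite_self]
    have h2 : ∑ u ∈ K, msP kp mn z w u = ∑ u ∈ K, msP kp mn z lv u := by
      refine sum_congr rfl fun u hu => ?_
      unfold msP
      rw [hwK u hu]
    rw [h1, h2, zero_add]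
  have e4 : ∑ u ∈ Q ∪ K, (w u : ℤ) = q + k := by
    rw [sum_union hQK, sum_congr rfl fun u hu => by rw [hwQ u hu],
      sum_congr (s₁ := K) rfl fun u hu => by rw [hwK u hu], ← hk, hq]
    simp
  have e5 : ∑ u ∈ Q ∪ K, ((w u : ℤ) + 1 - if ho u = y then pc u else 0)
      = q + (k + κ') := by
    rw [sum_sub_distrib, e1', sum_add_distrib, e4, sum_const, nsmul_eq_mul, mul_one, e2]
    ring
  -- the kept value
  have e6 : mu z - ∑ l ∈ X, kq z l - ∑ l ∈ Y, (be z l - kq z l) - ∑ u ∈ D, vl u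
      = be z y + b + m := by
    have h1 : ∑ u ∈ D, vl u + ∑ u ∈ P, vl u
        = ∑ u ∈ U.filter (fun u => ho u = z ∧ pc u = 0), vl u := by
      rw [← sum_filter_add_sum_filter_not (U.filter fun u => ho u = z ∧ pc u = 0)
        (fun u => u ∉ P), filter_filter, filter_filter]
      congr 1
      · refine sum_congr ?_ fun _ _ => rfl
        rw [hD]
        refine filter_congr fun u _ => ?_
        tauto
      · refine sum_congr ?_ fun _ _ => rfl
        ext u
        simp only [mem_filter, not_not]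
        exact ⟨fun h => ⟨hP h, hPz u h, h⟩, fun h => h.2.2⟩
    have h2 := H.mu_plain hz
    have h5 := add_sum_erase ((range n).erase z) (fun l => be z l)
      (mem_erase.2 ⟨hyz, mem_range.2 hy⟩)
    beta_reduce at h5
    have h6 : ∑ l ∈ X, (be z l - kq z l) = b + ∑ l ∈ Y, (be z l - kq z l) := by
      rw [hb, sum_sdiff hY]
    rw [sum_sub_distrib] at h6
    linarith
  have e7 : ∑ l ∈ X, kq z l + ∑ l ∈ Y, (be z l - kq z l) + ∑ u ∈ D, (vl u + 1)
      = mu z - (be z y + b + m) + g := by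
    rw [sum_add_distrib (s := D), sum_const, nsmul_eq_mul, mul_one, eD, ← hg]
    linarith
  -- the hits
  have e8 : ∑ u ∈ U.filter (fun u => ho u = z ∧ u ∉ D), (kp y u * (R - t y) - mn y u)
      = be z y * (R - t y) + ∑ u ∈ P, (kp y u * (R - t y) - mn y u) := by
    rw [H.split_pc hDz, eP, ← H.pcb z hz y hy, sum_mul]
    congr 1
    refine sum_congr rfl fun u hu => ?_
    by_cases h4 : pc u = 0
    · rw [h4]
      ring
    · rw [(H.pc_fact (mem_filter.1 hu).1 h4).2.2.1 y hy]
      ring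
  -- the saving
  have e9 : ((Q ∪ K).filter fun u => ho u = y → pc u = 0) = K := by
    ext u
    simp only [mem_filter, mem_union]
    constructor
    · rintro ⟨h1 | h1, h2⟩
      · obtain ⟨-, h3, h4, -⟩ := hQ1 u h1
        rw [h2 h3] at h4
        exact absurd h4 (by norm_num)
      · exact h1
    · intro h1
      exact ⟨Or.inr h1, fun _ => (hKy u h1).2⟩
  have e10 : n1 * (n1 - 1) ≤ svP n ho vl K w := by
    have h1 : n1 * (n1 - 1) ≤ ((K.filter fun u => ho u = y ∧ ((w u : ℕ) : ℤ) = vl u).card : ℤ)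
        * (((K.filter fun u => ho u = y ∧ ((w u : ℕ) : ℤ) = vl u).card : ℤ) - 1) := by
      rw [hn]
      refine tri_mono (card_le_card fun u hu => ?_)
      obtain ⟨h2, h3⟩ := mem_filter.1 hu
      refine mem_filter.2 ⟨h2, (hKy u h2).1, ?_⟩
      have h4 := hlv u h2
      have h5 := hlv' u h2
      have h6 := H.kv u (hK h2) z hz
      rw [hwK u h2]
      rw [h3] at h6 ⊢
      have h7 : (1 : ℤ) ≤ (lv u : ℤ) := by exact_mod_cast h4
      linarith
    unfold svP
    refine h1.trans (single_le_sum (f := fun x => ((K.filter fun u => ho u = x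
      ∧ ((w u : ℕ) : ℤ) = vl u).card : ℤ)
      * (((K.filter fun u => ho u = x ∧ ((w u : ℕ) : ℤ) = vl u).card : ℤ) - 1))
      (fun x _ => tri_nonneg' _) (mem_range.2 hy))
  have e11 : (((Q ∪ K).filter fun u => ho u = y ∧ pc u = 0 ∧ ∀ l < n, l ≠ z → kp l u = 0).card : ℤ)
      = f := by
    rw [hf]
    congr 2
    ext u
    simp only [mem_filter, mem_union, not_exists, not_and, not_not]
    constructor
    · rintro ⟨h1 | h1, -, h2, h3⟩
      · have h4 := (hQ1 u h1).2.2.1
        rw [h2] at h4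
        exact absurd h4 (by norm_num)
      · exact ⟨h1, fun l hl hlz => h3 l hl hlz⟩
    · rintro ⟨h1, h2⟩
      exact ⟨Or.inr h1, (hKy u h1).1, (hKy u h1).2, fun l hl hlz => h2 l hl hlz⟩
  have e9' : K.filter (fun u => pc u = 0) = K := filter_true_of_mem fun u hu => (hKy u hu).2
  have e17 : minP U ho vl pc z D = ∑ e ∈ P.offDiag, min (vl e.1) (vl e.2) := by
    unfold minP kpPl
    rw [eP]
  -- the excess
  have e12 : ((range n).erase z).erase y \ X = ∅ := by
    rw [hXd, Finset.sdiff_self]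
  have e13 : ∀ l, (U.filter fun u => ho u = z ∧ u ∉ D ∧ pc u = 0 ∧ kp l u ≠ 0)
      = P.filter fun u => kp l u ≠ 0 := by
    intro l
    rw [← eP, filter_filter]
    refine filter_congr fun u _ => ?_
    tauto
  -- the arcs
  have e14 : ∑ u ∈ Q ∪ K, (if ho u = y then (1 - pc u) * ar u
      else ((w u : ℤ) + 1) * (R - t y)) = ∑ u ∈ K, ar u := by
    rw [sum_union hQK]
    have h1 : ∑ u ∈ Q, (if ho u = y then (1 - pc u) * ar u
        else ((w u : ℤ) + 1) * (R - t y)) = 0 :=
      sum_eq_zero fun u hu => by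
        obtain ⟨-, h2, h3, -⟩ := hQ1 u hu
        rw [if_pos h2, h3]
        ring
    have h2 : ∑ u ∈ K, (if ho u = y then (1 - pc u) * ar u
        else ((w u : ℤ) + 1) * (R - t y)) = ∑ u ∈ K, ar u :=
      sum_congr rfl fun u hu => by
        rw [if_pos (hKy u hu).1, (hKy u hu).2]
        ring
    rw [h1, h2, zero_add]
  have e15 : ∑ u ∈ K, ar u ≤ be y z * f
      + ∑ u ∈ K.filter (fun u => ∃ l < n, l ≠ z ∧ kp l u ≠ 0),
        ∑ l ∈ ((range n).erase y).filter (fun l => kp l u ≠ 0), be y l := by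
    rw [← sum_filter_add_sum_filter_not K (fun u => ∃ l < n, l ≠ z ∧ kp l u ≠ 0), add_comm]
    refine add_le_add ?_ (sum_le_sum fun u hu => ?_)
    · rw [hf, mul_comm, ← nsmul_eq_mul, ← sum_const]
      refine sum_le_sum fun u hu => ?_
      obtain ⟨h1, h2⟩ := mem_filter.1 hu
      have h3 := H.ar_in (hK h1) (hKy u h1).2 (L := {z}) (by
        intro l hl
        rw [mem_singleton.1 hl]
        exact mem_range.2 hz) (fun l hl h4 => by
          by_contra h5
          exact h2 ⟨l, hl, fun h6 => h5 (mem_singleton.2 h6), h4⟩)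
      rw [sum_singleton, (hKy u h1).1] at h3
      exact h3
    · have h1 := (mem_filter.1 hu).1
      have h3 := H.ar_le (hK h1) (hKy u h1).2
      rw [(hKy u h1).1] at h3
      exact h3
  have e16 : ∑ l ∈ Y, (be z l - kq z l) * (sg z l
        + ((U.filter fun u => ho u = z ∧ u ∉ D ∧ pc u = 0 ∧ kp l u ≠ 0).card : ℤ))
      = ∑ l ∈ Y, (be z l - kq z l) * (sg z l + ((P.filter fun u => kp l u ≠ 0).card : ℤ)) :=
    sum_congr rfl fun l _ => by rw [e13 l]
  rw [e3, e4, e5, e6, e7, e8, e9, e9', e1', e11, e12, e14, e16, e17, sum_empty, add_zero] at h0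
  unfold TstP at h0
  rw [hE, hW]
  subst hM
  linarith [h0, e10, e15]

/-- **THE RECTANGLE TEST OF ONE CELL IN NUMBERS**, any plain used items of the host `y` at levels, any used PC pairs
of the host `y` -/
theorem PConC.numXQ2 (H : PConC R n t s mu U ho vl kp mn pc ar be kq NN sg nu) (hz : z < n)
    (hy : y < n) (hyz : y ≠ z) {P : Finset ι} (hP : P ⊆ U)
    (hPz : ∀ u ∈ P, ho u = z ∧ pc u = 0) {K : Finset ι} (hK : K ⊆ U)
    (hKy : ∀ u ∈ K, ho u = y ∧ pc u = 0) {lv : ι → ℕ} (hlv : ∀ u ∈ K, 1 ≤ lv u)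
    (hlv' : ∀ u ∈ K, (lv u : ℤ) ≤ kp z u) {Q : Finset ι} (hQU : Q ⊆ U)
    (hQy : ∀ u ∈ Q, ho u = y ∧ pc u = 1 ∧ kp z u ≠ 0) {Y : Finset ℕ}
    (hY : Y ⊆ ((range n).erase z).erase y) {m k κ' n1 q f b E W g EX : ℤ}
    (hm : m = ∑ u ∈ P, vl u) (hk : k = ∑ u ∈ K, (lv u : ℤ)) (hκ : κ' = (K.card : ℤ))
    (hn : n1 = ((K.filter fun u => vl u = 1).card : ℤ)) (hq : q = (Q.card : ℤ))
    (hf : f = ((K.filter fun u => ¬ ∃ l < n, l ≠ z ∧ kp l u ≠ 0).card : ℤ))
    (hb : b = ∑ l ∈ ((range n).erase z).erase y \ Y, (be z l - kq z l))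
    (hE : E = m + b + (be z y + q) + k) (hW : W = m + b + (be z y + q) + k + κ')
    (hg : g = ((U.filter fun u => ho u = z ∧ pc u = 0).card : ℤ) - (P.card : ℤ))
    (hRc : RcW U mn z y (be z y) q EX) :
    2 * ((R - t y) * (be z y + q + k - 1) + ∑ u ∈ P, (kp y u * (R - t y) - mn y u))
      + (m + b + (be z y + q) + (k - κ')) * (W + 1) + 2 * (n1 * (n1 - 1))
      + ∑ e ∈ P.offDiag, min (vl e.1) (vl e.2) + 2 * EX
      ≤ 2 * ((t z + 1) * E + ∑ u ∈ K, msP kp mn z lv u)
        + 2 * ((t y - W) * (mu z - s z + g - E)) + NN z y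
        + (∑ l ∈ ((range n).erase z).erase y \ Y, (be z l - kq z l) * (be z l - kq z l + 1)
          + 2 * ∑ l ∈ Y, (be z l - kq z l) * (sg z l
            + ((P.filter fun u => kp l u ≠ 0).card : ℤ)))
        + 2 * (q * be z y) + 2 * ∑ u ∈ Q, ar u + 2 * ((be y z - q) * f)
        + 2 * ∑ u ∈ K.filter (fun u => ∃ l < n, l ≠ z ∧ kp l u ≠ 0),
          ∑ l ∈ ((range n).erase y).filter (fun l => kp l u ≠ 0), be y l := by
  set D : Finset ι := U.filter fun u => ho u = z ∧ pc u = 0 ∧ u ∉ P with hD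
  set X : Finset ℕ := ((range n).erase z).erase y with hXd
  have hDz : ∀ u ∈ D, ho u = z ∧ pc u = 0 := fun u hu => by
    obtain ⟨-, h1, h2, -⟩ := mem_filter.1 hu
    exact ⟨h1, h2⟩
  obtain ⟨eP, eD⟩ := plain_split hP hPz
  rw [← hD] at eP eD
  set w : ι → ℕ := fun u => if pc u = 1 then 1 else lv u with hw
  have hwK : ∀ u ∈ K, w u = lv u := fun u hu => by
    rw [hw]
    simp only
    rw [if_neg]
    rw [(hKy u hu).2]
    norm_num
  have hwQ : ∀ u ∈ Q, w u = 1 := fun u hu => by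
    rw [hw]
    simp only
    rw [if_pos (hQy u hu).2.1]
  have hQK : Disjoint Q K := by
    rw [disjoint_left]
    intro u h1 h2
    have h3 := (hQy u h1).2.1
    rw [(hKy u h2).2] at h3
    exact absurd h3 (by norm_num)
  have hQ1 : ∀ u ∈ Q, u ∈ U ∧ ho u = y ∧ pc u = 1 ∧ vl u = 1 ∧ kp z u = 1 := by
    intro u hu
    obtain ⟨h3, h4, h5⟩ := hQy u hu
    have h6 := H.pcv u (hQU hu) (by rw [h4]; norm_num)
    exact ⟨hQU hu, h3, h4, h6, H.kp_one (hQU hu) h6 hz h5⟩
  have hoy : ∀ u ∈ Q ∪ K, ho u = y := fun u hu => by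
    rcases mem_union.1 hu with h1 | h1
    · exact (hQ1 u h1).2.1
    · exact (hKy u h1).1
  have hKU : Q ∪ K ⊆ U := union_subset hQU hK
  have hX : X ⊆ range n := (erase_subset _ _).trans (erase_subset _ _)
  -- the numbers
  have e1 : ∑ u ∈ Q ∪ K, pc u = q := by
    rw [sum_union hQK, sum_congr rfl fun u hu => (hQ1 u hu).2.2.1,
      sum_congr (s₁ := K) rfl fun u hu => (hKy u hu).2, sum_const, sum_const_zero, nsmul_eq_mul,
      mul_one, add_zero, hq]
  have e1' : ∑ u ∈ Q ∪ K, (if ho u = y then pc u else 0) = q := by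
    rw [← e1]
    exact sum_congr rfl fun u hu => if_pos (hoy u hu)
  have h0 := H.tXc z hz y hy hyz X hX (notMem_erase _ _) Y hY D (filter_subset _ _) hDz (Q ∪ K)
    hKU (fun u hu => by rw [hoy u hu]; exact hyz) w
    (fun u hu => by
      rcases mem_union.1 hu with h1 | h1
      · rw [hwQ u h1]
      · rw [hwK u h1]
        exact hlv u h1)
    (fun u hu => by
      rcases mem_union.1 hu with h1 | h1
      · rw [hwQ u h1, (hQ1 u h1).2.2.2.2]
        norm_num
      · rw [hwK u h1]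
        exact hlv' u h1) EX (by rw [e1']; exact hRc) _ (Or.inl le_rfl)
  unfold NP2 at h0
  have e2 : ((Q ∪ K).card : ℤ) = q + κ' := by
    rw [card_union_of_disjoint hQK, hκ, hq]
    push_cast
    rfl
  have e3 : ∑ u ∈ Q ∪ K, msP kp mn z w u = ∑ u ∈ K, msP kp mn z lv u := by
    rw [sum_union hQK]
    have h1 : ∑ u ∈ Q, msP kp mn z w u = 0 := sum_eq_zero fun u hu => by
      obtain ⟨h2, h3, h4, h5, -⟩ := hQ1 u hu
      unfold msP
      rw [(H.pc_fact h2 (by rw [h4]; norm_num)).2.2.1 z hz, ite_self]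
    have h2 : ∑ u ∈ K, msP kp mn z w u = ∑ u ∈ K, msP kp mn z lv u := by
      refine sum_congr rfl fun u hu => ?_
      unfold msP
      rw [hwK u hu]
    rw [h1, h2, zero_add]
  have e4 : ∑ u ∈ Q ∪ K, (w u : ℤ) = q + k := by
    rw [sum_union hQK, sum_congr rfl fun u hu => by rw [hwQ u hu],
      sum_congr (s₁ := K) rfl fun u hu => by rw [hwK u hu], ← hk, hq]
    simp
  have e5 : ∑ u ∈ Q ∪ K, ((w u : ℤ) + 1 - if ho u = y then pc u else 0)
      = q + (k + κ') := by
    rw [sum_sub_distrib, e1', sum_add_distrib, e4, sum_const, nsmul_eq_mul, mul_one, e2]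
    ring
  -- the kept value
  have e6 : mu z - ∑ l ∈ X, kq z l - ∑ l ∈ Y, (be z l - kq z l) - ∑ u ∈ D, vl u
      = be z y + b + m := by
    have h1 : ∑ u ∈ D, vl u + ∑ u ∈ P, vl u
        = ∑ u ∈ U.filter (fun u => ho u = z ∧ pc u = 0), vl u := by
      rw [← sum_filter_add_sum_filter_not (U.filter fun u => ho u = z ∧ pc u = 0)
        (fun u => u ∉ P), filter_filter, filter_filter]
      congr 1
      · refine sum_congr ?_ fun _ _ => rfl
        rw [hD]
        refine filter_congr fun u _ => ?_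
        tauto
      · refine sum_congr ?_ fun _ _ => rfl
        ext u
        simp only [mem_filter, not_not]
        exact ⟨fun h => ⟨hP h, hPz u h, h⟩, fun h => h.2.2⟩
    have h2 := H.mu_plain hz
    have h5 := add_sum_erase ((range n).erase z) (fun l => be z l)
      (mem_erase.2 ⟨hyz, mem_range.2 hy⟩)
    beta_reduce at h5
    have h6 : ∑ l ∈ X, (be z l - kq z l) = b + ∑ l ∈ Y, (be z l - kq z l) := by
      rw [hb, sum_sdiff hY]
    rw [sum_sub_distrib] at h6
    linarith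
  have e7 : ∑ l ∈ X, kq z l + ∑ l ∈ Y, (be z l - kq z l) + ∑ u ∈ D, (vl u + 1)
      = mu z - (be z y + b + m) + g := by
    rw [sum_add_distrib (s := D), sum_const, nsmul_eq_mul, mul_one, eD, ← hg]
    linarith
  -- the hits
  have e8 : ∑ u ∈ U.filter (fun u => ho u = z ∧ u ∉ D), (kp y u * (R - t y) - mn y u)
      = be z y * (R - t y) + ∑ u ∈ P, (kp y u * (R - t y) - mn y u) := by
    rw [H.split_pc hDz, eP, ← H.pcb z hz y hy, sum_mul]
    congr 1
    refine sum_congr rfl fun u hu => ?_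
    by_cases h4 : pc u = 0
    · rw [h4]
      ring
    · rw [(H.pc_fact (mem_filter.1 hu).1 h4).2.2.1 y hy]
      ring
  -- the saving
  have e9 : ((Q ∪ K).filter fun u => ho u = y → pc u = 0) = K := by
    ext u
    simp only [mem_filter, mem_union]
    constructor
    · rintro ⟨h1 | h1, h2⟩
      · obtain ⟨-, h3, h4, -⟩ := hQ1 u h1
        rw [h2 h3] at h4
        exact absurd h4 (by norm_num)
      · exact h1
    · intro h1
      exact ⟨Or.inr h1, fun _ => (hKy u h1).2⟩
  have e10 : n1 * (n1 - 1) ≤ svP n ho vl K w := by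
    have h1 : n1 * (n1 - 1) ≤ ((K.filter fun u => ho u = y ∧ ((w u : ℕ) : ℤ) = vl u).card : ℤ)
        * (((K.filter fun u => ho u = y ∧ ((w u : ℕ) : ℤ) = vl u).card : ℤ) - 1) := by
      rw [hn]
      refine tri_mono (card_le_card fun u hu => ?_)
      obtain ⟨h2, h3⟩ := mem_filter.1 hu
      refine mem_filter.2 ⟨h2, (hKy u h2).1, ?_⟩
      have h4 := hlv u h2
      have h5 := hlv' u h2
      have h6 := H.kv u (hK h2) z hz
      rw [hwK u h2]
      rw [h3] at h6 ⊢
      have h7 : (1 : ℤ) ≤ (lv u : ℤ) := by exact_mod_cast h4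
      linarith
    unfold svP
    refine h1.trans (single_le_sum (f := fun x => ((K.filter fun u => ho u = x
      ∧ ((w u : ℕ) : ℤ) = vl u).card : ℤ)
      * (((K.filter fun u => ho u = x ∧ ((w u : ℕ) : ℤ) = vl u).card : ℤ) - 1))
      (fun x _ => tri_nonneg' _) (mem_range.2 hy))
  have e11 : (((Q ∪ K).filter fun u => ho u = y ∧ pc u = 0 ∧ ∀ l < n, l ≠ z → kp l u = 0).card : ℤ)
      = f := by
    rw [hf]
    congr 2
    ext u
    simp only [mem_filter, mem_union, not_exists, not_and, not_not]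
    constructor
    · rintro ⟨h1 | h1, -, h2, h3⟩
      · have h4 := (hQ1 u h1).2.2.1
        rw [h2] at h4
        exact absurd h4 (by norm_num)
      · exact ⟨h1, fun l hl hlz => h3 l hl hlz⟩
    · rintro ⟨h1, h2⟩
      exact ⟨Or.inr h1, (hKy u h1).1, (hKy u h1).2, fun l hl hlz => h2 l hl hlz⟩
  have e9' : K.filter (fun u => pc u = 0) = K := filter_true_of_mem fun u hu => (hKy u hu).2
  have e17 : minP U ho vl pc z D = ∑ e ∈ P.offDiag, min (vl e.1) (vl e.2) := by
    unfold minP kpPl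
    rw [eP]
  -- the excess
  have e12 : (range n).erase z \ X = {y} := by
    ext l
    simp only [hXd, mem_sdiff, mem_erase, mem_singleton, mem_range]
    constructor
    · rintro ⟨⟨h1, h2⟩, h3⟩
      by_contra h4
      exact h3 ⟨h4, h1, h2⟩
    · intro h1
      rw [h1]
      exact ⟨⟨hyz, hy⟩, fun h => h.1 rfl⟩
  have e13 : ∀ l, (U.filter fun u => ho u = z ∧ u ∉ D ∧ pc u = 0 ∧ kp l u ≠ 0)
      = P.filter fun u => kp l u ≠ 0 := by
    intro l
    rw [← eP, filter_filter]
    refine filter_congr fun u _ => ?_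
    tauto
  -- the arcs
  have e14 : ∑ u ∈ Q ∪ K, (if ho u = y then ar u
      else ((w u : ℤ) + 1) * (R - t y)) = ∑ u ∈ Q, ar u + ∑ u ∈ K, ar u := by
    rw [sum_union hQK]
    congr 1
    · exact sum_congr rfl fun u hu => if_pos (hQ1 u hu).2.1
    · exact sum_congr rfl fun u hu => if_pos (hKy u hu).1
  have e15 : ∑ u ∈ K, ar u ≤ be y z * f
      + ∑ u ∈ K.filter (fun u => ∃ l < n, l ≠ z ∧ kp l u ≠ 0),
        ∑ l ∈ ((range n).erase y).filter (fun l => kp l u ≠ 0), be y l := by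
    rw [← sum_filter_add_sum_filter_not K (fun u => ∃ l < n, l ≠ z ∧ kp l u ≠ 0), add_comm]
    refine add_le_add ?_ (sum_le_sum fun u hu => ?_)
    · rw [hf, mul_comm, ← nsmul_eq_mul, ← sum_const]
      refine sum_le_sum fun u hu => ?_
      obtain ⟨h1, h2⟩ := mem_filter.1 hu
      have h3 := H.ar_in (hK h1) (hKy u h1).2 (L := {z}) (by
        intro l hl
        rw [mem_singleton.1 hl]
        exact mem_range.2 hz) (fun l hl h4 => by
          by_contra h5
          exact h2 ⟨l, hl, fun h6 => h5 (mem_singleton.2 h6), h4⟩)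
      rw [sum_singleton, (hKy u h1).1] at h3
      exact h3
    · have h1 := (mem_filter.1 hu).1
      have h3 := H.ar_le (hK h1) (hKy u h1).2
      rw [(hKy u h1).1] at h3
      exact h3
  have e16 : ∑ l ∈ Y, (be z l - kq z l) * (sg z l
        + ((U.filter fun u => ho u = z ∧ u ∉ D ∧ pc u = 0 ∧ kp l u ≠ 0).card : ℤ))
      = ∑ l ∈ Y, (be z l - kq z l) * (sg z l + ((P.filter fun u => kp l u ≠ 0).card : ℤ)) :=
    sum_congr rfl fun l _ => by rw [e13 l]
  rw [e3, e4, e5, e6, e7, e8, e9, e9', e1', e11, e12, e14, e16, e17, sum_singleton] at h0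
  unfold TstP at h0
  rw [hE, hW]
  linarith [h0, e10, e15]

/-- **nothing used**: the bound of a rectangle in a cell -/
theorem PConC.numX02 (H : PConC R n t s mu U ho vl kp mn pc ar be kq NN sg nu) (hz : z < n)
    (hy : y < n) (hyz : y ≠ z) {P : Finset ι} (hP : P ⊆ U)
    (hPz : ∀ u ∈ P, ho u = z ∧ pc u = 0) {Y : Finset ℕ}
    (hY : Y ⊆ ((range n).erase z).erase y) {m b W g EX : ℤ}
    (hm : m = ∑ u ∈ P, vl u)
    (hb : b = ∑ l ∈ ((range n).erase z).erase y \ Y, (be z l - kq z l))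
    (hW : W = m + b + be z y)
    (hg : g = ((U.filter fun u => ho u = z ∧ pc u = 0).card : ℤ) - (P.card : ℤ))
    (hRc : RcW U mn z y (be z y) 0 EX) :
    2 * ((R - t y) * (be z y - 1) + ∑ u ∈ P, (kp y u * (R - t y) - mn y u))
      + W * (W + 1) + ∑ e ∈ P.offDiag, min (vl e.1) (vl e.2) + 2 * EX
      ≤ 2 * ((t z + 1) * W) + 2 * ((t y - W) * (mu z - s z + g - W)) + NN z y
        + (∑ l ∈ ((range n).erase z).erase y \ Y, (be z l - kq z l) * (be z l - kq z l + 1)
          + 2 * ∑ l ∈ Y, (be z l - kq z l) * (sg z l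
            + ((P.filter fun u => kp l u ≠ 0).card : ℤ))) := by
  have h0 := H.numXQ2 hz hy hyz hP hPz (K := ∅) (empty_subset _)
    (fun u hu => absurd hu (notMem_empty u)) (lv := fun _ => 1)
    (fun u hu => absurd hu (notMem_empty u)) (fun u hu => absurd hu (notMem_empty u)) (Q := ∅)
    (empty_subset _) (fun u hu => absurd hu (notMem_empty u)) hY (k := 0) (κ' := 0) (n1 := 0)
    (q := 0) (f := 0) (E := W) (W := W) hm (by simp) (by simp) (by simp) (by simp) (by simp) hb
    (by rw [hW]; ring) (by rw [hW]; ring) hg hRc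
  simp only [sum_empty, filter_empty] at h0
  rw [hW] at h0 ⊢
  linarith

/-- **a product of misses, the plain hosted items out**, no own PC pair in the cell -/
theorem PConC.rect2 (H : PConC R n t s mu U ho vl kp mn pc ar be kq NN sg nu) (hz : z < n)
    (hy : y < n) (hyz : y ≠ z) (hbe : be z y = 0) {w : ι} (hw : w ∈ U) {h : ℤ}
    (hh : h = ((U.filter fun u => ho u = z ∧ pc u = 0).card : ℤ)) :
    mn z w * mn y w ≤ R - t y + t y * (mu z - s z + h)
      + ∑ l ∈ ((range n).erase z).erase y, (be z l - kq z l) * sg z l := by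
  have h0 := H.numX02 hz hy hyz (P := ∅) (empty_subset _)
    (fun u hu => absurd hu (notMem_empty u)) (Y := ((range n).erase z).erase y)
    (Subset.refl _) (m := 0) (b := 0) (W := 0) (g := h)
    (EX := max 0 (mn z w - be z y) * max 0 (mn y w - 0)) (by simp) (by simp)
    (by rw [hbe]; ring) (by rw [hh]; simp) (Or.inr ⟨w, hw, le_rfl⟩)
  have h1 := H.nnz z hz y hy hbe
  rw [hbe, h1, sub_zero, sub_zero, max_eq_right (H.m0 w hw z hz), max_eq_right (H.m0 w hw y hy)]
    at h0
  simp only [sum_empty, filter_empty, card_empty, Finset.sdiff_self, offDiag_empty] at h0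
  have h2 : ∑ l ∈ ((range n).erase z).erase y, (be z l - kq z l) * (sg z l + ((0 : ℕ) : ℤ))
      = ∑ l ∈ ((range n).erase z).erase y, (be z l - kq z l) * sg z l :=
    sum_congr rfl fun l _ => by push_cast; ring
  rw [h2] at h0
  linarith

/-- **a product of misses, the plain hosted items and the block pairs kept** (value `m + b`), no own PC pair in the
cell -/
theorem PConC.rectK2 (H : PConC R n t s mu U ho vl kp mn pc ar be kq NN sg nu) (hz : z < n)
    (hy : y < n) (hyz : y ≠ z) (hbe : be z y = 0) {w : ι} (hw : w ∈ U)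
    {m b : ℤ} (hm : m = ∑ u ∈ U.filter (fun u => ho u = z ∧ pc u = 0), vl u)
    (hb : b = ∑ l ∈ ((range n).erase z).erase y, (be z l - kq z l)) :
    2 * (mn z w * mn y w) + (m + b) * (m + b + 1)
      + ∑ e ∈ (U.filter fun u => ho u = z ∧ pc u = 0).offDiag, min (vl e.1) (vl e.2)
      + 2 * ∑ u ∈ U.filter (fun u => ho u = z ∧ pc u = 0), (kp y u * (R - t y) - mn y u)
      ≤ 2 * (R - t y) + 2 * ((t z + 1) * (m + b))
        + 2 * ((t y - (m + b)) * (mu z - s z - (m + b)))
        + ∑ l ∈ ((range n).erase z).erase y, (be z l - kq z l) * (be z l - kq z l + 1) := by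
  have h0 := H.numX02 hz hy hyz (P := U.filter fun u => ho u = z ∧ pc u = 0) (filter_subset _ _)
    (fun u hu => (mem_filter.1 hu).2) (Y := ∅) (empty_subset _) (m := m) (b := b)
    (W := m + b) (g := 0) (EX := max 0 (mn z w - be z y) * max 0 (mn y w - 0)) hm
    (by rw [sdiff_empty]; exact hb) (by rw [hbe]; ring) (by ring)
    (Or.inr ⟨w, hw, le_rfl⟩)
  have h1 := H.nnz z hz y hy hbe
  rw [hbe, h1, sub_zero, sub_zero, max_eq_right (H.m0 w hw z hz), max_eq_right (H.m0 w hw y hy)]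
    at h0
  simp only [sum_empty, sdiff_empty] at h0
  linarith

end NumXC

end Pool.Agent.Lib.MP_f04ccf_co
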