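import Pool.Agent.Lib.MP_f04ccf_co.M.CsShare
import Pool.Agent.Lib.MP_f04ccf_co.M.NumXC

/-!
MP_f04ccf_co, TEXT D: **the inputs of `LevC.csShare`** (column sum certificate).

A column `y` uses the items `V` of the host `y` (PC pairs and plain items at their levels), keeps the plain hosted items
`P` and the third block pairs outside of `Y`.

* `csRJ`, `LevC.csInJ`: the PC pairs of the cell joint;
* `csRX`, `LevC.csInX`: with the rectangle of any item, the PC pairs not joint;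
* `csRT`, `LevC.csInT`: the exact row test, everything hosted kept but the Konig pairs;
* `PConC.csRJ_nonneg`: the joint remainder is not negative if `E ≤ d + g`, the block pairs kept, all PC pairs used
  (the third block pairs count `t y - A` each).
-/

set_option autoImplicit false

namespace Pool.Agent.Lib.MP_f04ccf_co

open Finset

attribute [local instance] Classical.propDecidable

section CsIn

variable {ι : Type*} {R : ℤ} {n : ℕ} {t s mu : ℕ → ℤ} {U : Finset ι} {ho : ι → ℕ} {vl : ι → ℤ}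
  {kp mn : ℕ → ι → ℤ} {pc ar : ι → ℤ} {be kq NN sg : ℕ → ℕ → ℤ} {nu : ℕ → ι → ℤ} {z y : ℕ}
  {φ : ι → ℕ → ℤ} {g : ℕ → ι → ℕ} {f : ι → ℕ}

/-- the plain used items -/
noncomputable def csK (pc : ι → ℤ) (V : Finset ι) : Finset ι := V.filter fun u => pc u = 0

/-- the used PC pairs -/
noncomputable def csQ (pc : ι → ℤ) (V : Finset ι) : Finset ι := V.filter fun u => pc u ≠ 0

/-- the kept and used units of a column -/
noncomputable def csEV (n : ℕ) (vl pc : ι → ℤ) (be kq : ℕ → ℕ → ℤ)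
    (g : ℕ → ι → ℕ) (z y : ℕ) (P : Finset ι) (Y : Finset ℕ) (V : Finset ι) : ℤ :=
  ∑ u ∈ P, vl u + csB n be kq z y Y + (be z y + ((csQ pc V).card : ℤ))
    + ∑ u ∈ csK pc V, (g z u : ℤ)

/-- the excess of the third block pairs in a column -/
noncomputable def csNb (n : ℕ) (kp : ℕ → ι → ℤ) (be kq sg : ℕ → ℕ → ℤ) (z y : ℕ) (P : Finset ι)
    (Y : Finset ℕ) : ℤ :=
  ∑ l ∈ ((range n).erase z).erase y \ Y, (be z l - kq z l) * (be z l - kq z l + 1)
    + 2 * ∑ l ∈ Y, (be z l - kq z l) * (sg z l + ((P.filter fun u => kp l u ≠ 0).card : ℤ))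

/-- **the remainder of a joint column**: the third block pairs kept, the second order part, the savings -/
noncomputable def csRJ (n : ℕ) (t : ℕ → ℤ) (U : Finset ι) (ho : ι → ℕ) (vl : ι → ℤ)
    (kp : ℕ → ι → ℤ) (pc : ι → ℤ) (be kq sg : ℕ → ℕ → ℤ) (g : ℕ → ι → ℕ) (z y : ℕ) (d : ℤ)
    (P : Finset ι) (Y : Finset ℕ) (V : Finset ι) : ℤ :=
  2 * ((t y - (t z + 1)) * csB n be kq z y Y)
    + 2 * ((csEV n vl pc be kq g z y P Y V + ((csK pc V).card : ℤ))
      * (d + (((hsZ U ho pc z).card : ℤ) - (P.card : ℤ)) - csEV n vl pc be kq g z y P Y V))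
    + (∑ u ∈ P, vl u + csB n be kq z y Y)
      * (csEV n vl pc be kq g z y P Y V + ((csK pc V).card : ℤ) + 1)
    + (be z y + ((csQ pc V).card : ℤ)) * (∑ u ∈ P, vl u + csB n be kq z y Y
      + ∑ u ∈ csK pc V, (g z u : ℤ) + ((csK pc V).card : ℤ))
    + (∑ u ∈ csK pc V, (g z u : ℤ) - ((csK pc V).card : ℤ))
      * (csEV n vl pc be kq g z y P Y V + ((csK pc V).card : ℤ) + 1)
    + 2 * ((((csK pc V).filter fun u => vl u = 1).card : ℤ)
      * ((((csK pc V).filter fun u => vl u = 1).card : ℤ) - 1))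
    + ∑ e ∈ P.offDiag, min (vl e.1) (vl e.2) - csNb n kp be kq sg z y P Y
    - 2 * ((be y z - ((csQ pc V).card : ℤ))
      * (((csK pc V).filter fun u => ¬ ∃ l < n, l ≠ z ∧ kp l u ≠ 0).card : ℤ))

/-- **the remainder of a column with a rectangle `EX`** -/
noncomputable def csRX (n : ℕ) (t : ℕ → ℤ) (U : Finset ι) (ho : ι → ℕ) (vl : ι → ℤ)
    (kp : ℕ → ι → ℤ) (pc ar : ι → ℤ) (be kq NN sg : ℕ → ℕ → ℤ) (g : ℕ → ι → ℕ) (z y : ℕ) (d : ℤ)
    (P : Finset ι) (Y : Finset ℕ) (V : Finset ι) (EX : ℤ) : ℤ :=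
  2 * ((t y - (t z + 1)) * csB n be kq z y Y)
    + 2 * ((csEV n vl pc be kq g z y P Y V + ((csK pc V).card : ℤ))
      * (d + (((hsZ U ho pc z).card : ℤ) - (P.card : ℤ)) - csEV n vl pc be kq g z y P Y V))
    + (csEV n vl pc be kq g z y P Y V - ((csK pc V).card : ℤ))
      * (csEV n vl pc be kq g z y P Y V + ((csK pc V).card : ℤ) + 1)
    + 2 * ((((csK pc V).filter fun u => vl u = 1).card : ℤ)
      * ((((csK pc V).filter fun u => vl u = 1).card : ℤ) - 1))
    + ∑ e ∈ P.offDiag, min (vl e.1) (vl e.2) + 2 * EX - NN z y - csNb n kp be kq sg z y P Y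
    - 2 * (((csQ pc V).card : ℤ) * be z y) - 2 * ∑ u ∈ csQ pc V, ar u
    - 2 * ((be y z - ((csQ pc V).card : ℤ))
      * (((csK pc V).filter fun u => ¬ ∃ l < n, l ≠ z ∧ kp l u ≠ 0).card : ℤ))

/-- **the remainder of the row test** with the used items `K` at the levels `lv` -/
noncomputable def csRT (R : ℤ) (n : ℕ) (t : ℕ → ℤ) (U : Finset ι) (ho : ι → ℕ) (vl : ι → ℤ)
    (pc : ι → ℤ) (be kq : ℕ → ℕ → ℤ) (z : ℕ) (d : ℤ) (K : Finset ι) (lv : ι → ℕ) (sv : ℤ) : ℤ :=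
  2 * ((R - (t z + 1)) * ∑ l ∈ (range n).erase z, (be z l - kq z l))
    + 2 * ((∑ u ∈ hsZ U ho pc z, vl u + ∑ l ∈ (range n).erase z, (be z l - kq z l)
        + ∑ u ∈ K, (lv u : ℤ) + (K.card : ℤ))
      * (d - (∑ u ∈ hsZ U ho pc z, vl u + ∑ l ∈ (range n).erase z, (be z l - kq z l)
        + ∑ u ∈ K, (lv u : ℤ))))
    + (∑ u ∈ hsZ U ho pc z, vl u + ∑ l ∈ (range n).erase z, (be z l - kq z l)
        + ∑ u ∈ K, (lv u : ℤ) - (K.card : ℤ))
      * (∑ u ∈ hsZ U ho pc z, vl u + ∑ l ∈ (range n).erase z, (be z l - kq z l)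
        + ∑ u ∈ K, (lv u : ℤ) + (K.card : ℤ) + 1) + sv
    + ∑ e ∈ (hsZ U ho pc z).offDiag, min (vl e.1) (vl e.2)
    - ∑ l ∈ (range n).erase z, (be z l - kq z l) * (be z l - kq z l + 1)

/-- the used items of a column by types -/
lemma LevC.csV (C : LevC n U ho vl kp mn pc φ g f)
    (H : PCon R n t s mu U ho vl kp mn pc ar be kq NN sg nu) (hz : z < n) {V : Finset ι}
    (hV : V ⊆ U.filter fun u => ho u = y ∧ g z u ≠ 0) :
    (csK pc V ⊆ rnK U ho pc g z y) ∧ (csQ pc V ⊆ rnQ U ho kp pc z y) ∧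
      ∑ u ∈ V, (g z u : ℤ) = ((csQ pc V).card : ℤ) + ∑ u ∈ csK pc V, (g z u : ℤ) ∧
      ∑ u ∈ V, (msP kp mn z (g z) u + rnA n kp be z y u)
        = ∑ u ∈ csK pc V, (msP kp mn z (g z) u + rnA n kp be z y u) := by
  have hQ : csQ pc V ⊆ rnQ U ho kp pc z y := by
    intro u hu
    obtain ⟨h1, h2⟩ := mem_filter.1 hu
    obtain ⟨h3, h4, h5⟩ := mem_filter.1 (hV h1)
    refine mem_filter.2 ⟨h3, h4, (H.pc01 u h3).resolve_left h2, fun h6 => h5 ?_⟩
    have h7 := C.le u h3 z hz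
    omega
  have hK : csK pc V ⊆ rnK U ho pc g z y := by
    intro u hu
    obtain ⟨h1, h2⟩ := mem_filter.1 hu
    obtain ⟨h3, h4, h5⟩ := mem_filter.1 (hV h1)
    exact mem_filter.2 ⟨h3, h4, h2, h5⟩
  refine ⟨hK, hQ, ?_, ?_⟩
  · rw [← sum_filter_add_sum_filter_not V (fun u => pc u = 0), add_comm]
    congr 1
    have h1 : (((csQ pc V).card : ℕ) : ℤ) = ∑ u ∈ csQ pc V, (1 : ℤ) := by
      rw [sum_const, nsmul_eq_mul, mul_one]
    rw [h1]
    refine sum_congr rfl fun u hu => ?_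
    rw [(C.rnQ_fact H hz (hQ hu)).2.2.2.2.1]
    norm_num
  · rw [← sum_filter_add_sum_filter_not V (fun u => pc u = 0)]
    have h1 : ∑ u ∈ V.filter (fun u => ¬ pc u = 0),
        (msP kp mn z (g z) u + rnA n kp be z y u) = 0 := by
      refine sum_eq_zero fun u hu => ?_
      have h2 : u ∈ rnQ U ho kp pc z y := hQ hu
      obtain ⟨h3, h4, h5, h6, h7, h8⟩ := C.rnQ_fact H hz h2
      rw [h8, zero_add]
      unfold rnA
      rw [if_neg]
      rintro ⟨l, hl, hlz, hl0⟩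
      have h9 := (mem_filter.1 h2).2.2.2
      have h10 := (H.pc_fact h3 (by rw [h5]; norm_num)).2.2
      rcases H.one u h3 with ⟨i, hi, -, -, -, h11⟩ | ⟨h11, -⟩
      · have h12 : z = i := by
          by_contra h13
          exact h9 (h11 z hz h13)
        exact hl0 (h11 l hl fun h13 => hlz (h13.trans h12.symm))
      · rw [h5] at h11
        exact absurd h11 (by norm_num)
    rw [h1, add_zero]
    rfl

/-- **a joint column as an input of `csShare`** -/
theorem LevC.csInJ (C : LevC n U ho vl kp mn pc φ g f)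
    (H : PConC R n t s mu U ho vl kp mn pc ar be kq NN sg nu) (hz : z < n)
    (hy : y ∈ (range n).erase z) {P : Finset ι} (hP : P ⊆ hsZ U ho pc z) {Y : Finset ℕ}
    (hY : Y ⊆ ((range n).erase z).erase y) {V : Finset ι}
    (hV : V ⊆ U.filter fun u => ho u = y ∧ g z u ≠ 0) :
    2 * (((R : ℝ) - ((t z : ℝ) + 1)) * ((be z y : ℝ) + ∑ u ∈ V, (g z u : ℝ)))
        + 2 * ∑ u ∈ hsZ U ho pc z, (crY R t vl kp mn z y P u : ℝ)
        + (csRJ n t U ho vl kp pc be kq sg g z y (mu z - s z) P Y V : ℝ)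
      ≤ 2 * ((t y : ℝ) * ((mu z : ℝ) - s z)) + 2 * ((R : ℝ) - t y)
        + 2 * ∑ u ∈ V, ((msP kp mn z (g z) u : ℝ) + (rnA n kp be z y u : ℝ)) := by
  have hyn : y < n := mem_range.1 (mem_of_mem_erase hy)
  have hyz : y ≠ z := ne_of_mem_erase hy
  obtain ⟨hK, hQ, e1, e2⟩ := C.csV H.toPCon hz hV
  have h1 := H.colLin hz hyn hyz (P := P) (hP.trans (filter_subset _ _))
    (fun u hu => (mem_filter.1 (hP hu)).2) (K := csK pc V) (hK.trans (filter_subset _ _))
    (fun u hu => ⟨(mem_filter.1 (hK hu)).2.1, (mem_filter.1 (hK hu)).2.2.1⟩) (lv := g z)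
    (fun u hu => Nat.one_le_iff_ne_zero.2 (mem_filter.1 (hK hu)).2.2.2)
    (fun u hu => C.le u (mem_filter.1 (hK hu)).1 z hz) (Q := csQ pc V)
    (hQ.trans (filter_subset _ _))
    (fun u hu => (mem_filter.1 (hQ hu)).2) hY rfl rfl rfl rfl rfl rfl rfl rfl rfl rfl rfl
  have h3 : ∑ u ∈ (csK pc V).filter (fun u => ∃ l < n, l ≠ z ∧ kp l u ≠ 0),
        ∑ l ∈ ((range n).erase y).filter (fun l => kp l u ≠ 0), be y l
      = ∑ u ∈ csK pc V, rnA n kp be z y u := by
    rw [sum_filter]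
    refine sum_congr rfl fun u _ => ?_
    unfold rnA
    rfl
  rw [h3] at h1
  have h4 : 2 * ((R - (t z + 1)) * (be z y + ∑ u ∈ V, (g z u : ℤ)))
        + 2 * ∑ u ∈ hsZ U ho pc z, crY R t vl kp mn z y P u
        + csRJ n t U ho vl kp pc be kq sg g z y (mu z - s z) P Y V
      ≤ 2 * (t y * (mu z - s z)) + 2 * (R - t y)
        + 2 * ∑ u ∈ V, (msP kp mn z (g z) u + rnA n kp be z y u) := by
    rw [e1, e2, sum_add_distrib]
    unfold csRJ csEV csB csNb
    unfold hsZ at *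
    linarith
  exact_mod_cast h4

/-- **a column with a rectangle as an input of `csShare`** -/
theorem LevC.csInX (C : LevC n U ho vl kp mn pc φ g f)
    (H : PConC R n t s mu U ho vl kp mn pc ar be kq NN sg nu) (hz : z < n)
    (hy : y ∈ (range n).erase z) {P : Finset ι} (hP : P ⊆ hsZ U ho pc z) {Y : Finset ℕ}
    (hY : Y ⊆ ((range n).erase z).erase y) {V : Finset ι}
    (hV : V ⊆ U.filter fun u => ho u = y ∧ g z u ≠ 0) {EX : ℤ}
    (hRc : RcW U mn z y (be z y) ((csQ pc V).card : ℤ) EX) :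
    2 * (((R : ℝ) - ((t z : ℝ) + 1)) * ((be z y : ℝ) + ∑ u ∈ V, (g z u : ℝ)))
        + 2 * ∑ u ∈ hsZ U ho pc z, (crY R t vl kp mn z y P u : ℝ)
        + (csRX n t U ho vl kp pc ar be kq NN sg g z y (mu z - s z) P Y V EX : ℝ)
      ≤ 2 * ((t y : ℝ) * ((mu z : ℝ) - s z)) + 2 * ((R : ℝ) - t y)
        + 2 * ∑ u ∈ V, ((msP kp mn z (g z) u : ℝ) + (rnA n kp be z y u : ℝ)) := by
  have hyn : y < n := mem_range.1 (mem_of_mem_erase hy)
  have hyz : y ≠ z := ne_of_mem_erase hy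
  obtain ⟨hK, hQ, e1, e2⟩ := C.csV H.toPCon hz hV
  have h1 := H.numXQ2 hz hyn hyz (P := P) (hP.trans (filter_subset _ _))
    (fun u hu => (mem_filter.1 (hP hu)).2) (K := csK pc V) (hK.trans (filter_subset _ _))
    (fun u hu => ⟨(mem_filter.1 (hK hu)).2.1, (mem_filter.1 (hK hu)).2.2.1⟩) (lv := g z)
    (fun u hu => Nat.one_le_iff_ne_zero.2 (mem_filter.1 (hK hu)).2.2.2)
    (fun u hu => C.le u (mem_filter.1 (hK hu)).1 z hz) (Q := csQ pc V)
    (hQ.trans (filter_subset _ _))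
    (fun u hu => (mem_filter.1 (hQ hu)).2) hY rfl rfl rfl rfl rfl rfl rfl rfl rfl rfl hRc
  have h3 : ∑ u ∈ (csK pc V).filter (fun u => ∃ l < n, l ≠ z ∧ kp l u ≠ 0),
        ∑ l ∈ ((range n).erase y).filter (fun l => kp l u ≠ 0), be y l
      = ∑ u ∈ csK pc V, rnA n kp be z y u := by
    rw [sum_filter]
    refine sum_congr rfl fun u _ => ?_
    unfold rnA
    rfl
  rw [h3] at h1
  have h5 := crY_sum (R := R) (t := t) (vl := vl) (kp := kp) (mn := mn) (z := z) (y := y) hP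
  have h4 : 2 * ((R - (t z + 1)) * (be z y + ∑ u ∈ V, (g z u : ℤ)))
        + 2 * ∑ u ∈ hsZ U ho pc z, crY R t vl kp mn z y P u
        + csRX n t U ho vl kp pc ar be kq NN sg g z y (mu z - s z) P Y V EX
      ≤ 2 * (t y * (mu z - s z)) + 2 * (R - t y)
        + 2 * ∑ u ∈ V, (msP kp mn z (g z) u + rnA n kp be z y u) := by
    rw [e1, e2, sum_add_distrib, h5]
    unfold csRX csEV csB csNb
    unfold hsZ at *
    linarith
  exact_mod_cast h4

/-- **the row test as an input of `csShare`** -/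
theorem LevC.csInT (C : LevC n U ho vl kp mn pc φ g f)
    (H : PConC R n t s mu U ho vl kp mn pc ar be kq NN sg nu) (hz : z < n)
    {K : Finset ι} (hK : K ⊆ U.filter fun u => g z u ≠ 0) {lv : ι → ℕ}
    (hlv : ∀ u ∈ K, 1 ≤ lv u) (hlv' : ∀ u ∈ K, (lv u : ℤ) ≤ kp z u) {sv : ℤ}
    (hs : sv ≤ svP n ho vl K lv + svP n ho vl (K.filter fun u => pc u = 0) lv) :
    2 * (((R : ℝ) - ((t z : ℝ) + 1)) * (∑ u ∈ hsZ U ho pc z, (vl u : ℝ)
        + ∑ u ∈ K, (lv u : ℝ))) + (csRT R n t U ho vl pc be kq z (mu z - s z) K lv sv : ℝ)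
      ≤ 2 * ((R : ℝ) * ((mu z : ℝ) - s z)) + 2 * ∑ u ∈ K, (msP kp mn z lv u : ℝ) := by
  have h1 := H.csT hz (K := K) (hK.trans (filter_subset _ _))
    (fun u hu h2 => (mem_filter.1 (hK hu)).2 (by rw [← h2]; exact C.home u (mem_filter.1 (hK hu)).1))
    hlv hlv' hs rfl rfl rfl rfl
  have h4 : 2 * ((R - (t z + 1)) * (∑ u ∈ hsZ U ho pc z, vl u
        + ∑ u ∈ K, (lv u : ℤ))) + csRT R n t U ho vl pc be kq z (mu z - s z) K lv sv
      ≤ 2 * (R * (mu z - s z)) + 2 * ∑ u ∈ K, msP kp mn z lv u := by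
    unfold csRT
    linarith
  exact_mod_cast h4

/-- **the joint remainder** if the block pairs are kept and all PC pairs are used, up to the third block pairs -/
theorem PConC.csRJ_nonneg
    (H : PConC R n t s mu U ho vl kp mn pc ar be kq NN sg nu) (hz : z < n)
    (hy : y ∈ (range n).erase z) {P : Finset ι} (hP : P ⊆ hsZ U ho pc z) {V : Finset ι}
    (hV : V ⊆ U.filter fun u => ho u = y ∧ g z u ≠ 0) (hQ : ((csQ pc V).card : ℤ) = be y z)
    {d : ℤ}
    (hE : csEV n vl pc be kq g z y P ∅ V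
      ≤ d + (((hsZ U ho pc z).card : ℤ) - (P.card : ℤ))) :
    2 * ((t y - (t z + 1)) * csB n be kq z y ∅)
      ≤ csRJ n t U ho vl kp pc be kq sg g z y d P ∅ V := by
  have hyn : y < n := mem_range.1 (mem_of_mem_erase hy)
  unfold csRJ csNb
  have h1 : (0 : ℤ) ≤ ((csK pc V).card : ℤ) := Nat.cast_nonneg _
  have h2 : ((csK pc V).card : ℤ) ≤ ∑ u ∈ csK pc V, (g z u : ℤ) := by
    rw [card_eq_sum_ones]
    push_cast
    refine sum_le_sum fun u hu => ?_
    have := Nat.one_le_iff_ne_zero.2 (mem_filter.1 (hV (mem_filter.1 hu).1)).2.2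
    exact_mod_cast this
  have h3 : (0 : ℤ) ≤ ∑ u ∈ P, vl u := sum_nonneg fun u hu => by
    have := H.v1 u (mem_filter.1 (hP hu)).1
    linarith
  have hB : ∀ l ∈ (range n).erase z, 0 ≤ be z l - kq z l := fun l hl => by
    have := H.kqb z hz l (mem_range.1 (mem_of_mem_erase hl))
    linarith
  have h4 : 0 ≤ csB n be kq z y ∅ := by
    unfold csB
    exact sum_nonneg fun l hl => hB l (mem_of_mem_erase (mem_sdiff.1 hl).1)
  have h5 : 0 ≤ be z y := H.be0 z hz y hyn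
  have h6 : (0 : ℤ) ≤ ((csQ pc V).card : ℤ) := Nat.cast_nonneg _
  have h7 := tri_nonneg' ((csK pc V).filter fun u => vl u = 1).card
  have h8 : 0 ≤ ∑ e ∈ P.offDiag, min (vl e.1) (vl e.2) := sum_nonneg fun e he => by
    obtain ⟨h9, h10, -⟩ := mem_offDiag.1 he
    have h11 := H.v1 _ (mem_filter.1 (hP h9)).1
    have h12 := H.v1 _ (mem_filter.1 (hP h10)).1
    exact le_min (by linarith) (by linarith)
  have h9 : ∑ l ∈ ((range n).erase z).erase y \ ∅, (be z l - kq z l) * (be z l - kq z l + 1)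
      ≤ csB n be kq z y ∅ * (csB n be kq z y ∅ + 1) := by
    unfold csB
    rw [sum_mul]
    refine sum_le_sum fun l hl => ?_
    have h10 := hB l (mem_of_mem_erase (mem_sdiff.1 hl).1)
    have h11 : be z l - kq z l
        ≤ ∑ l ∈ ((range n).erase z).erase y \ ∅, (be z l - kq z l) :=
      single_le_sum (f := fun l => be z l - kq z l)
        (fun l hl => hB l (mem_of_mem_erase (mem_sdiff.1 hl).1)) hl
    nlinarith
  have h10 : csEV n vl pc be kq g z y P ∅ V = ∑ u ∈ P, vl u + csB n be kq z y ∅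
      + (be z y + ((csQ pc V).card : ℤ)) + ∑ u ∈ csK pc V, (g z u : ℤ) := rfl
  rw [hQ, sub_self, zero_mul, mul_zero, sum_empty, mul_zero, add_zero, sub_zero]
  rw [hQ] at h6 h10
  generalize csEV n vl pc be kq g z y P ∅ V = E at *
  generalize csB n be kq z y ∅ = b at *
  generalize (∑ u ∈ csK pc V, (g z u : ℤ)) = k at *
  generalize ((csK pc V).card : ℤ) = κ at *
  generalize (∑ u ∈ P, vl u) = m at *
  generalize ((hsZ U ho pc z).card : ℤ) - (P.card : ℤ) = g' at *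
  generalize (∑ e ∈ P.offDiag, min (vl e.1) (vl e.2)) = S at *
  generalize (∑ l ∈ ((range n).erase z).erase y \ ∅, (be z l - kq z l) * (be z l - kq z l + 1))
    = N at *
  have hE0 : 0 ≤ E := by linarith
  have a1 : 0 ≤ (E + κ) * (d + g' - E) := mul_nonneg (by linarith) (by linarith)
  have a2 : b * (b + 1) ≤ (m + b) * (E + κ + 1) := by nlinarith
  have a3 : 0 ≤ (be z y + be y z) * (m + b + k + κ) := mul_nonneg (by linarith) (by linarith)
  have a4 : 0 ≤ (k - κ) * (E + κ + 1) := mul_nonneg (by linarith) (by linarith)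
  linarith

end CsIn

end Pool.Agent.Lib.MP_f04ccf_co
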