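import Pool.Agent.Lib.MP_f04ccf_co.M.RowXW
import Pool.Agent.Lib.MP_f04ccf_co.M.CsIn

/-!
MP_f04ccf_co, TEXT D: **the column test of one cell with the Konig pairs of other tails KEPT** (22's (F4)): `X` the tails
whose Konig pairs are out, `Y ⊆ X` the tails whose block pairs are out too; the pairs of all other tails count
`t y - A` each against `NN z l`.

* `PConC.colCX`: `PConC.colC` with any `X`; `csRW`: the remainder; `LevC.csInW`: the input of `csShare`, `csShareL`,
  `rowX_loss` (arcs without the own cell);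
* `csRW_one`: the remainder for contents of value one.
-/

set_option autoImplicit false

namespace Pool.Agent.Lib.MP_f04ccf_co

open Finset

attribute [local instance] Classical.propDecidable

section CsJX

variable {ι : Type*} {R : ℤ} {n : ℕ} {t s mu : ℕ → ℤ} {U : Finset ι} {ho : ι → ℕ} {vl : ι → ℤ}
  {kp mn : ℕ → ι → ℤ} {pc ar : ι → ℤ} {be kq NN sg : ℕ → ℕ → ℤ} {nu : ℕ → ι → ℤ} {z y : ℕ}
  {φ : ι → ℕ → ℤ} {g : ℕ → ι → ℕ} {f : ι → ℕ}

/-- **THE COLUMN TEST OF ONE CELL IN NUMBERS, the Konig pairs of the tails outside `X` kept**: any kept plain hosted items `P`, any plain used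
items `K` of the host `y` at levels, any used PC pairs `Q` of the host `y` -/
theorem PConC.colCX (H : PConC R n t s mu U ho vl kp mn pc ar be kq NN sg nu) (hz : z < n)
    (hy : y < n) (hyz : y ≠ z) {P : Finset ι} (hP : P ⊆ U)
    (hPz : ∀ u ∈ P, ho u = z ∧ pc u = 0) {K : Finset ι} (hK : K ⊆ U)
    (hKy : ∀ u ∈ K, ho u = y ∧ pc u = 0) {lv : ι → ℕ} (hlv : ∀ u ∈ K, 1 ≤ lv u)
    (hlv' : ∀ u ∈ K, (lv u : ℤ) ≤ kp z u) {Q : Finset ι} (hQU : Q ⊆ U)
    (hQy : ∀ u ∈ Q, ho u = y ∧ pc u = 1 ∧ kp z u ≠ 0) {X Y : Finset ℕ}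
    (hX' : X ⊆ ((range n).erase z).erase y) (hY : Y ⊆ X) {m k κ' n1 q f b M E W g : ℤ}
    (hm : m = ∑ u ∈ P, vl u) (hk : k = ∑ u ∈ K, (lv u : ℤ)) (hκ : κ' = (K.card : ℤ))
    (hn : n1 = ((K.filter fun u => vl u = 1).card : ℤ)) (hq : q = (Q.card : ℤ))
    (hf : f = ((K.filter fun u => ¬ ∃ l < n, l ≠ z ∧ kp l u ≠ 0).card : ℤ))
    (hb : b = ∑ l ∈ X \ Y, (be z l - kq z l) + ∑ l ∈ ((range n).erase z).erase y \ X, be z l)
    (hM : M = be z y + q) (hE : E = m + b + M + k) (hW : W = m + b + M + k + κ')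
    (hg : g = ((U.filter fun u => ho u = z ∧ pc u = 0).card : ℤ) - (P.card : ℤ)) :
    2 * ((R - t y) * (M + k - 1) + ∑ u ∈ P, (kp y u * (R - t y) - mn y u))
      + (m + b) * (W + 1) + M * (m + b + k + κ') + (k - κ') * (W + 1) + 2 * (n1 * (n1 - 1))
      + ∑ e ∈ P.offDiag, min (vl e.1) (vl e.2)
      ≤ 2 * ((t z + 1) * E + ∑ u ∈ K, msP kp mn z lv u)
        + 2 * ((t y - W) * (mu z - s z + g - E))
        + (∑ l ∈ X \ Y, (be z l - kq z l) * (be z l - kq z l + 1)
          + ∑ l ∈ ((range n).erase z).erase y \ X, NN z l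
          + 2 * ∑ l ∈ Y, (be z l - kq z l) * (sg z l
            + ((P.filter fun u => kp l u ≠ 0).card : ℤ)))
        + 2 * ((be y z - q) * f)
        + 2 * ∑ u ∈ K.filter (fun u => ∃ l < n, l ≠ z ∧ kp l u ≠ 0),
          ∑ l ∈ ((range n).erase y).filter (fun l => kp l u ≠ 0), be y l := by
  set D : Finset ι := U.filter fun u => ho u = z ∧ pc u = 0 ∧ u ∉ P with hD
  have hDz : ∀ u ∈ D, ho u = z ∧ pc u = 0 := fun u hu => by
    obtain ⟨-, h1, h2, -⟩ := mem_filter.1 hu
    exact ⟨h1, h2⟩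
  obtain ⟨eP, eD⟩ := plain_split hP hPz
  rw [← hD] at eP eD
  set w : ι → ℕ := fun u => if pc u = 1 then 1 else lv u with hw
  have hwK : ∀ u ∈ K, w u = lv u := fun u hu => by
    rw [hw]
    simp only
    rw [if_neg]
    rw [(hKy u hu).2]
    norm_num
  have hwQ : ∀ u ∈ Q, w u = 1 := fun u hu => by
    rw [hw]
    simp only
    rw [if_pos (hQy u hu).2.1]
  have hQK : Disjoint Q K := by
    rw [disjoint_left]
    intro u h1 h2
    have h3 := (hQy u h1).2.1
    rw [(hKy u h2).2] at h3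
    exact absurd h3 (by norm_num)
  have hQ1 : ∀ u ∈ Q, u ∈ U ∧ ho u = y ∧ pc u = 1 ∧ vl u = 1 ∧ kp z u = 1 := by
    intro u hu
    obtain ⟨h3, h4, h5⟩ := hQy u hu
    have h6 := H.pcv u (hQU hu) (by rw [h4]; norm_num)
    exact ⟨hQU hu, h3, h4, h6, H.kp_one (hQU hu) h6 hz h5⟩
  have hoy : ∀ u ∈ Q ∪ K, ho u = y := fun u hu => by
    rcases mem_union.1 hu with h1 | h1
    · exact (hQ1 u h1).2.1
    · exact (hKy u h1).1
  have hKU : Q ∪ K ⊆ U := union_subset hQU hK
  have hX : X ⊆ range n := hX'.trans ((erase_subset _ _).trans (erase_subset _ _))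
  have hyX : y ∉ X := fun h => notMem_erase _ _ (hX' h)
  -- the numbers
  have e1 : ∑ u ∈ Q ∪ K, pc u = q := by
    rw [sum_union hQK, sum_congr rfl fun u hu => (hQ1 u hu).2.2.1,
      sum_congr (s₁ := K) rfl fun u hu => (hKy u hu).2, sum_const, sum_const_zero, nsmul_eq_mul,
      mul_one, add_zero, hq]
  have e1' : ∑ u ∈ Q ∪ K, (if ho u = y then pc u else 0) = q := by
    rw [← e1]
    exact sum_congr rfl fun u hu => if_pos (hoy u hu)
  have e9 : ((Q ∪ K).filter fun u => ho u = y → pc u = 0) = K := by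
    ext u
    simp only [mem_filter, mem_union]
    constructor
    · rintro ⟨h1 | h1, h2⟩
      · obtain ⟨-, h3, h4, -⟩ := hQ1 u h1
        rw [h2 h3] at h4
        exact absurd h4 (by norm_num)
      · exact h1
    · intro h1
      exact ⟨Or.inr h1, fun _ => (hKy u h1).2⟩
  have h0 := H.tPc z hz y hy hyz X hX hyX Y hY D (filter_subset _ _) hDz (Q ∪ K)
    hKU (fun u hu => by rw [hoy u hu]; exact hyz) w
    (fun u hu => by
      rcases mem_union.1 hu with h1 | h1
      · rw [hwQ u h1]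
      · rw [hwK u h1]
        exact hlv u h1)
    (fun u hu => by
      rcases mem_union.1 hu with h1 | h1
      · rw [hwQ u h1, (hQ1 u h1).2.2.2.2]
        norm_num
      · rw [hwK u h1]
        exact hlv' u h1) (svP n ho vl K w + svP n ho vl (K.filter fun u => pc u = 0) w)
    (by rw [e9]; exact Or.inl le_rfl)
  have e2 : ((Q ∪ K).card : ℤ) = q + κ' := by
    rw [card_union_of_disjoint hQK, hκ, hq]
    push_cast
    rfl
  have e3 : ∑ u ∈ Q ∪ K, msP kp mn z w u = ∑ u ∈ K, msP kp mn z lv u := by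
    rw [sum_union hQK]
    have h1 : ∑ u ∈ Q, msP kp mn z w u = 0 := sum_eq_zero fun u hu => by
      obtain ⟨h2, h3, h4, h5, -⟩ := hQ1 u hu
      unfold msP
      rw [(H.pc_fact h2 (by rw [h4]; norm_num)).2.2.1 z hz, ite_self]
    have h2 : ∑ u ∈ K, msP kp mn z w u = ∑ u ∈ K, msP kp mn z lv u := by
      refine sum_congr rfl fun u hu => ?_
      unfold msP
      rw [hwK u hu]
    rw [h1, h2, zero_add]
  have e4 : ∑ u ∈ Q ∪ K, (w u : ℤ) = q + k := by
    rw [sum_union hQK, sum_congr rfl fun u hu => by rw [hwQ u hu],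
      sum_congr (s₁ := K) rfl fun u hu => by rw [hwK u hu], ← hk, hq]
    simp
  have e5 : ∑ u ∈ Q ∪ K, ((w u : ℤ) + 1 - if ho u = y then pc u else 0)
      = q + (k + κ') := by
    rw [sum_sub_distrib, e1', sum_add_distrib, e4, sum_const, nsmul_eq_mul, mul_one, e2]
    ring
  -- the kept value
  have e6 : mu z - ∑ l ∈ X, kq z l - ∑ l ∈ Y, (be z l - kq z l) - ∑ u ∈ D, vl u
      = be z y + b + m := by
    have h1 : ∑ u ∈ D, vl u + ∑ u ∈ P, vl u
        = ∑ u ∈ U.filter (fun u => ho u = z ∧ pc u = 0), vl u := by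
      rw [← sum_filter_add_sum_filter_not (U.filter fun u => ho u = z ∧ pc u = 0)
        (fun u => u ∉ P), filter_filter, filter_filter]
      congr 1
      · refine sum_congr ?_ fun _ _ => rfl
        rw [hD]
        refine filter_congr fun u _ => ?_
        tauto
      · refine sum_congr ?_ fun _ _ => rfl
        ext u
        simp only [mem_filter, not_not]
        exact ⟨fun h => ⟨hP h, hPz u h, h⟩, fun h => h.2.2⟩
    have h2 := H.mu_plain hz
    have h5 := add_sum_erase ((range n).erase z) (fun l => be z l)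
      (mem_erase.2 ⟨hyz, mem_range.2 hy⟩)
    beta_reduce at h5
    have h6 : ∑ l ∈ X, (be z l - kq z l) = ∑ l ∈ X \ Y, (be z l - kq z l)
        + ∑ l ∈ Y, (be z l - kq z l) := by
      rw [sum_sdiff hY]
    have h7 := sum_sdiff (f := fun l => be z l) hX'
    rw [sum_sub_distrib (s := X)] at h6
    linarith
  have e7 : ∑ l ∈ X, kq z l + ∑ l ∈ Y, (be z l - kq z l) + ∑ u ∈ D, (vl u + 1)
      = mu z - (be z y + b + m) + g := by
    rw [sum_add_distrib (s := D), sum_const, nsmul_eq_mul, mul_one, eD, ← hg]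
    linarith
  -- the hits
  have e8 : ∑ u ∈ U.filter (fun u => ho u = z ∧ u ∉ D), (kp y u * (R - t y) - mn y u)
      = be z y * (R - t y) + ∑ u ∈ P, (kp y u * (R - t y) - mn y u) := by
    rw [H.split_pc hDz, eP, ← H.pcb z hz y hy, sum_mul]
    congr 1
    refine sum_congr rfl fun u hu => ?_
    by_cases h4 : pc u = 0
    · rw [h4]
      ring
    · rw [(H.pc_fact (mem_filter.1 hu).1 h4).2.2.1 y hy]
      ring
  -- the saving
  have e10 : n1 * (n1 - 1) ≤ svP n ho vl K w := by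
    have h1 : n1 * (n1 - 1) ≤ ((K.filter fun u => ho u = y ∧ ((w u : ℕ) : ℤ) = vl u).card : ℤ)
        * (((K.filter fun u => ho u = y ∧ ((w u : ℕ) : ℤ) = vl u).card : ℤ) - 1) := by
      rw [hn]
      refine tri_mono (card_le_card fun u hu => ?_)
      obtain ⟨h2, h3⟩ := mem_filter.1 hu
      refine mem_filter.2 ⟨h2, (hKy u h2).1, ?_⟩
      have h4 := hlv u h2
      have h5 := hlv' u h2
      have h6 := H.kv u (hK h2) z hz
      rw [hwK u h2]
      rw [h3] at h6 ⊢
      have h7 : (1 : ℤ) ≤ (lv u : ℤ) := by exact_mod_cast h4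
      linarith
    unfold svP
    refine h1.trans (single_le_sum (f := fun x => ((K.filter fun u => ho u = x
      ∧ ((w u : ℕ) : ℤ) = vl u).card : ℤ)
      * (((K.filter fun u => ho u = x ∧ ((w u : ℕ) : ℤ) = vl u).card : ℤ) - 1))
      (fun x _ => tri_nonneg' _) (mem_range.2 hy))
  have e10' : (K.filter fun u => pc u = 0) = K :=
    filter_true_of_mem fun u hu => (hKy u hu).2
  have e11 : (((Q ∪ K).filter fun u => ho u = y ∧ pc u = 0 ∧ ∀ l < n, l ≠ z → kp l u = 0).card : ℤ)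
      = f := by
    rw [hf]
    congr 2
    ext u
    simp only [mem_filter, mem_union, not_exists, not_and, not_not]
    constructor
    · rintro ⟨h1 | h1, -, h2, h3⟩
      · have h4 := (hQ1 u h1).2.2.1
        rw [h2] at h4
        exact absurd h4 (by norm_num)
      · exact ⟨h1, fun l hl hlz => h3 l hl hlz⟩
    · rintro ⟨h1, h2⟩
      exact ⟨Or.inr h1, (hKy u h1).1, (hKy u h1).2, fun l hl hlz => h2 l hl hlz⟩
  -- the excess
  have e13 : ∀ l, (U.filter fun u => ho u = z ∧ u ∉ D ∧ pc u = 0 ∧ kp l u ≠ 0)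
      = P.filter fun u => kp l u ≠ 0 := by
    intro l
    rw [← eP, filter_filter]
    refine filter_congr fun u _ => ?_
    tauto
  -- the arcs
  have e14 : ∑ u ∈ Q ∪ K, (if ho u = y then (1 - pc u) * ar u
      else ((w u : ℤ) + 1) * (R - t y)) = ∑ u ∈ K, ar u := by
    rw [sum_union hQK]
    have h1 : ∑ u ∈ Q, (if ho u = y then (1 - pc u) * ar u
        else ((w u : ℤ) + 1) * (R - t y)) = 0 :=
      sum_eq_zero fun u hu => by
        obtain ⟨-, h2, h3, -⟩ := hQ1 u hu
        rw [if_pos h2, h3]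
        ring
    have h2 : ∑ u ∈ K, (if ho u = y then (1 - pc u) * ar u
        else ((w u : ℤ) + 1) * (R - t y)) = ∑ u ∈ K, ar u :=
      sum_congr rfl fun u hu => by
        rw [if_pos (hKy u hu).1, (hKy u hu).2]
        ring
    rw [h1, h2, zero_add]
  have e15 : ∑ u ∈ K, ar u ≤ be y z * f
      + ∑ u ∈ K.filter (fun u => ∃ l < n, l ≠ z ∧ kp l u ≠ 0),
        ∑ l ∈ ((range n).erase y).filter (fun l => kp l u ≠ 0), be y l := by
    rw [← sum_filter_add_sum_filter_not K (fun u => ∃ l < n, l ≠ z ∧ kp l u ≠ 0), add_comm]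
    refine add_le_add ?_ (sum_le_sum fun u hu => ?_)
    · rw [hf, mul_comm, ← nsmul_eq_mul, ← sum_const]
      refine sum_le_sum fun u hu => ?_
      obtain ⟨h1, h2⟩ := mem_filter.1 hu
      have h3 := H.ar_in (hK h1) (hKy u h1).2 (L := {z}) (by
        intro l hl
        rw [mem_singleton.1 hl]
        exact mem_range.2 hz) (fun l hl h4 => by
          by_contra h5
          exact h2 ⟨l, hl, fun h6 => h5 (mem_singleton.2 h6), h4⟩)
      rw [sum_singleton, (hKy u h1).1] at h3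
      exact h3
    · have h1 := (mem_filter.1 hu).1
      have h3 := H.ar_le (hK h1) (hKy u h1).2
      rw [(hKy u h1).1] at h3
      exact h3
  have e16 : ∑ l ∈ Y, (be z l - kq z l) * (sg z l
        + ((U.filter fun u => ho u = z ∧ u ∉ D ∧ pc u = 0 ∧ kp l u ≠ 0).card : ℤ))
      = ∑ l ∈ Y, (be z l - kq z l) * (sg z l + ((P.filter fun u => kp l u ≠ 0).card : ℤ)) :=
    sum_congr rfl fun l _ => by rw [e13 l]
  have e17 : kpPl U ho pc z D = P := eP
  unfold NP2 minP at h0
  rw [e3, e4, e5, e6, e7, e8, e1', e10', e11, e14, e16, e17] at h0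
  unfold TstP at h0
  rw [hE, hW]
  subst hM
  linarith [h0, e10, e15]

/-- the PC pairs of other tails kept in the column `y` -/
def csBW (n : ℕ) (be kq : ℕ → ℕ → ℤ) (z y : ℕ) (X Y : Finset ℕ) : ℤ :=
  ∑ l ∈ X \ Y, (be z l - kq z l) + ∑ l ∈ ((range n).erase z).erase y \ X, be z l

/-- the excess of the PC pairs of other tails in the column `y` -/
noncomputable def csNW (n : ℕ) (kp : ℕ → ι → ℤ) (be kq NN sg : ℕ → ℕ → ℤ) (z y : ℕ) (P : Finset ι)
    (X Y : Finset ℕ) : ℤ :=
  ∑ l ∈ X \ Y, (be z l - kq z l) * (be z l - kq z l + 1)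
    + ∑ l ∈ ((range n).erase z).erase y \ X, NN z l
    + 2 * ∑ l ∈ Y, (be z l - kq z l) * (sg z l + ((P.filter fun u => kp l u ≠ 0).card : ℤ))

/-- the kept and used units of a column -/
noncomputable def csEW (n : ℕ) (vl pc : ι → ℤ) (be kq : ℕ → ℕ → ℤ)
    (g : ℕ → ι → ℕ) (z y : ℕ) (P : Finset ι) (X Y : Finset ℕ) (V : Finset ι) : ℤ :=
  ∑ u ∈ P, vl u + csBW n be kq z y X Y + (be z y + ((csQ pc V).card : ℤ))
    + ∑ u ∈ csK pc V, (g z u : ℤ)

/-- **the remainder of a column, the Konig pairs of the tails outside `X` kept** -/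
noncomputable def csRW (n : ℕ) (t : ℕ → ℤ) (U : Finset ι) (ho : ι → ℕ) (vl : ι → ℤ)
    (kp : ℕ → ι → ℤ) (pc : ι → ℤ) (be kq NN sg : ℕ → ℕ → ℤ) (g : ℕ → ι → ℕ) (z y : ℕ) (d : ℤ)
    (P : Finset ι) (X Y : Finset ℕ) (V : Finset ι) : ℤ :=
  2 * ((t y - (t z + 1)) * csBW n be kq z y X Y)
    + 2 * ((csEW n vl pc be kq g z y P X Y V + ((csK pc V).card : ℤ))
      * (d + (((hsZ U ho pc z).card : ℤ) - (P.card : ℤ)) - csEW n vl pc be kq g z y P X Y V))
    + (∑ u ∈ P, vl u + csBW n be kq z y X Y)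
      * (csEW n vl pc be kq g z y P X Y V + ((csK pc V).card : ℤ) + 1)
    + (be z y + ((csQ pc V).card : ℤ)) * (∑ u ∈ P, vl u + csBW n be kq z y X Y
      + ∑ u ∈ csK pc V, (g z u : ℤ) + ((csK pc V).card : ℤ))
    + (∑ u ∈ csK pc V, (g z u : ℤ) - ((csK pc V).card : ℤ))
      * (csEW n vl pc be kq g z y P X Y V + ((csK pc V).card : ℤ) + 1)
    + 2 * ((((csK pc V).filter fun u => vl u = 1).card : ℤ)
      * ((((csK pc V).filter fun u => vl u = 1).card : ℤ) - 1))
    + ∑ e ∈ P.offDiag, min (vl e.1) (vl e.2) - csNW n kp be kq NN sg z y P X Y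
    - 2 * ((be y z - ((csQ pc V).card : ℤ))
      * (((csK pc V).filter fun u => ¬ ∃ l < n, l ≠ z ∧ kp l u ≠ 0).card : ℤ))
    - 2 * (be y z * ((V.filter fun u => othE n kp z u).card : ℤ))

/-- **a column with the Konig pairs of the tails outside `X` kept, as an input of the row theorems** -/
theorem LevC.csInW (C : LevC n U ho vl kp mn pc φ g f)
    (H : PConC R n t s mu U ho vl kp mn pc ar be kq NN sg nu) (hz : z < n)
    (hy : y ∈ (range n).erase z) {P : Finset ι} (hP : P ⊆ hsZ U ho pc z) {X Y : Finset ℕ}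
    (hX : X ⊆ ((range n).erase z).erase y) (hY : Y ⊆ X) {V : Finset ι}
    (hV : V ⊆ U.filter fun u => ho u = y ∧ g z u ≠ 0) :
    2 * (((R : ℝ) - ((t z : ℝ) + 1)) * ((be z y : ℝ) + ∑ u ∈ V, (g z u : ℝ)))
        + 2 * ∑ u ∈ hsZ U ho pc z, (crY R t vl kp mn z y P u : ℝ)
        + (csRW n t U ho vl kp pc be kq NN sg g z y (mu z - s z) P X Y V : ℝ)
      ≤ 2 * ((t y : ℝ) * ((mu z : ℝ) - s z)) + 2 * ((R : ℝ) - t y)
        + 2 * ∑ u ∈ V, ((msP kp mn z (g z) u : ℝ) + (rnB n kp be z y u : ℝ)) := by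
  have hyn : y < n := mem_range.1 (mem_of_mem_erase hy)
  have hyz : y ≠ z := ne_of_mem_erase hy
  obtain ⟨hK, hQ, e1, e2⟩ := C.csV H.toPCon hz hV
  have h1 := H.colCX hz hyn hyz (P := P) (hP.trans (filter_subset _ _))
    (fun u hu => (mem_filter.1 (hP hu)).2) (K := csK pc V) (hK.trans (filter_subset _ _))
    (fun u hu => ⟨(mem_filter.1 (hK hu)).2.1, (mem_filter.1 (hK hu)).2.2.1⟩) (lv := g z)
    (fun u hu => Nat.one_le_iff_ne_zero.2 (mem_filter.1 (hK hu)).2.2.2)
    (fun u hu => C.le u (mem_filter.1 (hK hu)).1 z hz) (Q := csQ pc V)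
    (hQ.trans (filter_subset _ _))
    (fun u hu => (mem_filter.1 (hQ hu)).2) hX hY rfl rfl rfl rfl rfl rfl rfl rfl rfl rfl rfl
  have h3 : ∑ u ∈ (csK pc V).filter (fun u => ∃ l < n, l ≠ z ∧ kp l u ≠ 0),
        ∑ l ∈ ((range n).erase y).filter (fun l => kp l u ≠ 0), be y l
      = ∑ u ∈ csK pc V, rnA n kp be z y u := by
    rw [sum_filter]
    refine sum_congr rfl fun u _ => ?_
    unfold rnA
    rfl
  rw [h3] at h1
  have h5 := crY_sum (R := R) (t := t) (vl := vl) (kp := kp) (mn := mn) (z := z) (y := y) hP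
  have h6 : ∑ u ∈ V, rnA n kp be z y u = ∑ u ∈ V, rnB n kp be z y u
      + be y z * ((V.filter fun u => othE n kp z u).card : ℤ) := by
    have h7 : ∀ u ∈ V, rnA n kp be z y u = rnB n kp be z y u
        + (if othE n kp z u then be y z else 0) := by
      intro u hu
      obtain ⟨h8, -, h9⟩ := mem_filter.1 (hV hu)
      have h10 := C.le u h8 z hz
      exact rnA_eq_rnB hz hyz (by omega)
    rw [sum_congr rfl h7, sum_add_distrib, ← sum_filter, sum_const, nsmul_eq_mul]
    ring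
  have h4 : 2 * ((R - (t z + 1)) * (be z y + ∑ u ∈ V, (g z u : ℤ)))
        + 2 * ∑ u ∈ hsZ U ho pc z, crY R t vl kp mn z y P u
        + csRW n t U ho vl kp pc be kq NN sg g z y (mu z - s z) P X Y V
      ≤ 2 * (t y * (mu z - s z)) + 2 * (R - t y)
        + 2 * ∑ u ∈ V, (msP kp mn z (g z) u + rnB n kp be z y u) := by
    have h8 : ∑ u ∈ V, (msP kp mn z (g z) u + rnB n kp be z y u)
        = ∑ u ∈ V, (msP kp mn z (g z) u + rnA n kp be z y u)
          - be y z * ((V.filter fun u => othE n kp z u).card : ℤ) := by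
      rw [sum_add_distrib, sum_add_distrib, h6]
      ring
    rw [h8, e1, e2, sum_add_distrib, h5]
    unfold csRW csEW csNW csBW
    unfold hsZ at *
    linarith
  exact_mod_cast h4

/-- the sum of the smaller values over the ordered pairs of a set of items of value one -/
lemma offD_one {P : Finset ι} (hP : ∀ u ∈ P, vl u = 1) :
    ∑ e ∈ P.offDiag, min (vl e.1) (vl e.2) = (P.card : ℤ) * ((P.card : ℤ) - 1) := by
  have h1 : ∀ e ∈ P.offDiag, min (vl e.1) (vl e.2) = 1 := by
    intro e he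
    obtain ⟨h2, h3, -⟩ := mem_offDiag.1 he
    rw [hP _ h2, hP _ h3, min_self]
  rw [sum_congr rfl h1, sum_const, nsmul_eq_mul, mul_one, offDiag_card]
  have h2 : P.card ≤ P.card * P.card := Nat.le_mul_self _
  push_cast [Nat.cast_sub h2]
  ring

/-- **the remainder of a column, contents of value one**: `h` kept plain hosted items, `D = d +` the dropped ones, `b`
kept PC pairs of other tails, `M` PC pairs of the cell, `k` used plain items -/
theorem csRW_one {P : Finset ι} {X Y : Finset ℕ} {V : Finset ι} {d h b M k D : ℤ}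
    (hQ : ((csQ pc V).card : ℤ) = be y z) (hP : ∀ u ∈ P, vl u = 1)
    (hV : ∀ u ∈ csK pc V, vl u = 1 ∧ g z u = 1)
    (hh : h = (P.card : ℤ)) (hb : b = csBW n be kq z y X Y) (hM : M = be z y + be y z)
    (hk : k = ((csK pc V).card : ℤ)) (hD : D = d + (((hsZ U ho pc z).card : ℤ) - (P.card : ℤ))) :
    csRW n t U ho vl kp pc be kq NN sg g z y d P X Y V
      = 2 * ((t y - (t z + 1)) * b) + 2 * ((h + b + M) * (D - M)) + 4 * (k * (D - h - b - M))
        - 2 * k ^ 2 - 2 * k - 2 * (h * b) - b * (b - 1) - csNW n kp be kq NN sg z y P X Y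
        - 2 * (be y z * ((V.filter fun u => othE n kp z u).card : ℤ)) := by
  have e1 : ∑ u ∈ csK pc V, (g z u : ℤ) = k := by
    rw [hk, card_eq_sum_ones]
    push_cast
    exact sum_congr rfl fun u hu => by rw [(hV u hu).2]; norm_num
  have e2 : ∑ u ∈ P, vl u = h := by
    rw [hh, card_eq_sum_ones]
    push_cast
    exact sum_congr rfl fun u hu => hP u hu
  have e3 : (csK pc V).filter (fun u => vl u = 1) = csK pc V :=
    filter_true_of_mem fun u hu => (hV u hu).1
  have e4 : ((hsZ U ho pc z).card : ℤ) = D - d + h := by rw [hD, hh]; ring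
  unfold csRW csEW
  rw [hQ, e1, e2, e3, ← hb, ← hk, ← hh, ← hM, offD_one hP, ← hh, e4]
  ring

/-- the block pairs never exceed the PC pairs: with everything kept (`X = ∅`) no block term is left -/
lemma csBW_empty : csBW n be kq z y ∅ ∅ = ∑ l ∈ ((range n).erase z).erase y, be z l := by
  unfold csBW
  simp

/-- the excess with everything kept -/
lemma csNW_empty {P : Finset ι} : csNW n kp be kq NN sg z y P ∅ ∅
    = ∑ l ∈ ((range n).erase z).erase y, NN z l := by
  unfold csNW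
  simp

end CsJX

end Pool.Agent.Lib.MP_f04ccf_co
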