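import Pool.Agent.Lib.MP_f04ccf_co.M.RowLA
import Pool.Agent.Lib.MP_f04ccf_co.M.BudK
import Pool.Agent.Lib.MP_f04ccf_co.M.PConC

/-!
MP_f04ccf_co, TEXT D, middle range: **TABLE F** (92's 18673): fewest misses, one end, one linear factor for all units.

Every unit `v` (host `x = ho v.1`, main end `m = v.2.1`, misses `b = unb`) is paid by the main end with
`TFs v = W x / (W x + W m) * (1 - (p / q) b / R)` and by its host with `1 - TFs v`; the cut end pays nothing.

* `payF`: what the row `z` pays in the cell of `y`, in the numbers `rnE` (units of the cell), `rnHb` (misses of the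
  hosted ones at `y`), `rnSb` (misses of the served ones at `z`);
* `NLz`: the row is not light; `LevC.rowF_sum`: the payments of a row are exactly the sum of `payF` over the other
  rows which are not light (any `p`, `q`, no sign condition);
* `LevC.close_F`: **the closing**, budgets `δ`; `LevC.close_FB`: over `PConC` with 99's budget table `dl[t z] / N`;
  `LevC.close_FB'`: the same with the sum over all other rows (`p ≤ 2 q`, `φ = mn`);
* `LevC.two_unb`: `2 b ≤ R` for `φ = mn`; `LevC.unb_cell`: `b ^ 2 ≤ R + t m (R - 5 - t x - t m)`;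
  `LevC.rnHb_le`, `LevC.rnSb_le`: the sums of the misses of a cell by a bound per unit;
* `payF_mul`: the numbers without denominators.
-/

set_option autoImplicit false

namespace Pool.Agent.Lib.MP_f04ccf_co

open Finset

attribute [local instance] Classical.propDecidable

section TabF

variable {ι : Type*} {R : ℤ} {n : ℕ} {t s mu : ℕ → ℤ} {U : Finset ι} {ho : ι → ℕ} {vl : ι → ℤ}
  {kp mn : ℕ → ι → ℤ} {pc ar : ι → ℤ} {be kq NN sg : ℕ → ℕ → ℤ} {nu : ℕ → ι → ℤ} {z y : ℕ}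
  {φ : ι → ℕ → ℤ} {g : ℕ → ι → ℕ} {f : ι → ℕ} {W : ℕ → ℝ}

/-- **TABLE F, the part of the main end** -/
noncomputable def TFs (p q : ℕ) (W : ℕ → ℝ) (R : ℤ) (ho : ι → ℕ) (kp mn : ℕ → ι → ℤ) (g : ℕ → ι → ℕ)
    (v : ι × ℕ × ℕ) : ℝ :=
  W (ho v.1) / (W (ho v.1) + W v.2.1)
    * (1 - (p : ℝ) * (unb kp mn g v : ℝ) / ((q : ℝ) * (R : ℝ)))

/-- **the row is not light** -/
def NLz (n : ℕ) (s mu : ℕ → ℤ) (U : Finset ι) (ho : ι → ℕ) (vl pc : ι → ℤ) (be : ℕ → ℕ → ℤ)
    (g : ℕ → ι → ℕ) (y : ℕ) : Prop :=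
  mu y - s y + 1 ≤ ∑ x ∈ (range n).erase y, rnE U ho vl pc be g y x

/-- **what the row `z` pays in the cell of `y`** -/
noncomputable def payF (p q : ℕ) (W : ℕ → ℝ) (R : ℤ) (U : Finset ι) (ho : ι → ℕ) (vl : ι → ℤ)
    (kp mn : ℕ → ι → ℤ) (pc : ι → ℤ) (be : ℕ → ℕ → ℤ) (g : ℕ → ι → ℕ) (z y : ℕ) : ℝ :=
  (W y * ((q : ℝ) * (R : ℝ)) * (rnE U ho vl pc be g z y : ℝ)
    + (p : ℝ) * (W z * (rnHb U ho vl kp mn pc g z y : ℝ) - W y * (rnSb U ho kp mn pc g z y : ℝ)))
  / ((W z + W y) * ((q : ℝ) * (R : ℝ)))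

/-- the rows which are not light -/
lemma LevC.nl_iff (Lv : LevC n U ho vl kp mn pc φ g f)
    (H : PCon R n t s mu U ho vl kp mn pc ar be kq NN sg nu) (hz : z < n) :
    z ∉ lightU n s (unV n U g) (fun v => {v.2.1}) ↔ NLz n s mu U ho vl pc be g z := by
  rw [not_lightU hz]
  unfold NLz
  rw [Lv.rnE_sum H hz]
  have e1 : (unV n U g).filter (fun v => z ∈ ({v.2.1} : Finset ℕ))
      = (unV n U g).filter fun v => v.2.1 = z := by
    refine filter_congr fun v _ => ?_
    rw [mem_singleton]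
    exact eq_comm
  rw [e1]
  constructor <;> intro h <;> linarith

/-- the hosted units of a cell pay together -/
lemma LevC.cell_host (Lv : LevC n U ho vl kp mn pc φ g f)
    (H : PCon R n t s mu U ho vl kp mn pc ar be kq NN sg nu) (hW : ∀ i < n, 0 < W i) (hz : z < n)
    (hy : y < n) {p q : ℕ} (hq : 0 < q) :
    ∑ v ∈ (unV n U g).filter (fun v => ho v.1 = z ∧ v.2.1 = y), (1 - TFs p q W R ho kp mn g v)
      = (W y * ((q : ℝ) * (R : ℝ)) * (((unV n U g).filter fun v => ho v.1 = z ∧ v.2.1 = y).card : ℝ)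
        + (p : ℝ) * (W z * (rnHb U ho vl kp mn pc g z y : ℝ))) / ((W z + W y) * ((q : ℝ) * (R : ℝ))) := by
  have h1 : (0 : ℝ) < (q : ℝ) * (R : ℝ) := by
    have h2 : (0 : ℝ) < R := by exact_mod_cast R_pos H
    have h3 : (0 : ℝ) < q := by exact_mod_cast hq
    positivity
  have h2 : 0 < W z + W y := add_pos (hW z hz) (hW y hy)
  have h3 : (rnHb U ho vl kp mn pc g z y : ℝ)
      = ∑ v ∈ (unV n U g).filter (fun v => ho v.1 = z ∧ v.2.1 = y), (unb kp mn g v : ℝ) := by
    have h4 := Lv.unb_host H (z := z) hy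
    unfold rnHb
    rw [← h4]
    push_cast
    rfl
  have e1 : ∀ v ∈ (unV n U g).filter (fun v => ho v.1 = z ∧ v.2.1 = y), 1 - TFs p q W R ho kp mn g v
      = W y * ((q : ℝ) * (R : ℝ)) / ((W z + W y) * ((q : ℝ) * (R : ℝ)))
        + (p : ℝ) * W z / ((W z + W y) * ((q : ℝ) * (R : ℝ))) * (unb kp mn g v : ℝ) := by
    intro v hv
    obtain ⟨-, h4, h5⟩ := mem_filter.1 hv
    unfold TFs
    rw [h4, h5]
    have h6 := h1.ne'
    have h7 := h2.ne'
    obtain ⟨D, hD⟩ : ∃ D : ℝ, D = (q : ℝ) * (R : ℝ) := ⟨_, rfl⟩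
    rw [← hD] at h6 ⊢
    field_simp
    ring
  rw [sum_congr rfl e1, sum_add_distrib, ← mul_sum, ← h3, sum_const, nsmul_eq_mul]
  ring

/-- the served units of a cell pay together -/
lemma LevC.cell_serv (Lv : LevC n U ho vl kp mn pc φ g f)
    (H : PCon R n t s mu U ho vl kp mn pc ar be kq NN sg nu) (hW : ∀ i < n, 0 < W i) (hz : z < n)
    (hy : y < n) {p q : ℕ} (hq : 0 < q) :
    ∑ v ∈ (unV n U g).filter (fun v => ho v.1 = y ∧ v.2.1 = z), TFs p q W R ho kp mn g v
      = (W y * ((q : ℝ) * (R : ℝ)) * (((unV n U g).filter fun v => ho v.1 = y ∧ v.2.1 = z).card : ℝ)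
        - (p : ℝ) * (W y * (rnSb U ho kp mn pc g z y : ℝ))) / ((W z + W y) * ((q : ℝ) * (R : ℝ))) := by
  have h1 : (0 : ℝ) < (q : ℝ) * (R : ℝ) := by
    have h2 : (0 : ℝ) < R := by exact_mod_cast R_pos H
    have h3 : (0 : ℝ) < q := by exact_mod_cast hq
    positivity
  have h2 : 0 < W z + W y := add_pos (hW z hz) (hW y hy)
  have h3 : (rnSb U ho kp mn pc g z y : ℝ)
      = ∑ v ∈ (unV n U g).filter (fun v => ho v.1 = y ∧ v.2.1 = z), (unb kp mn g v : ℝ) := by
    have h4 := Lv.unb_serv H (y := y) hz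
    unfold rnSb
    rw [← h4]
    push_cast
    rfl
  have e1 : ∀ v ∈ (unV n U g).filter (fun v => ho v.1 = y ∧ v.2.1 = z), TFs p q W R ho kp mn g v
      = W y * ((q : ℝ) * (R : ℝ)) / ((W z + W y) * ((q : ℝ) * (R : ℝ)))
        + (-((p : ℝ) * W y / ((W z + W y) * ((q : ℝ) * (R : ℝ))))) * (unb kp mn g v : ℝ) := by
    intro v hv
    obtain ⟨-, h4, h5⟩ := mem_filter.1 hv
    unfold TFs
    rw [h4, h5]
    have h6 := h1.ne'
    have h7 := h2.ne'
    have h8 : W y + W z ≠ 0 := by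
      rw [add_comm]
      exact h7
    obtain ⟨D, hD⟩ : ∃ D : ℝ, D = (q : ℝ) * (R : ℝ) := ⟨_, rfl⟩
    rw [← hD] at h6 ⊢
    field_simp
    ring
  rw [sum_congr rfl e1, sum_add_distrib, ← mul_sum, ← h3, sum_const, nsmul_eq_mul]
  ring

/-- **the payments of a row by cells, exactly** -/
theorem LevC.rowF_sum (Lv : LevC n U ho vl kp mn pc φ g f)
    (H : PCon R n t s mu U ho vl kp mn pc ar be kq NN sg nu) (hW : ∀ i < n, 0 < W i) (hz : z < n)
    (hzL : NLz n s mu U ho vl pc be g z) {p q : ℕ} (hq : 0 < q) {F : Finset (ι × ℕ × ℕ)}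
    (hF : F = freeU (unV n U g) (fun v => ho v.1) (fun v => {v.2.1})
      (lightU n s (unV n U g) fun v => {v.2.1})) :
    ∑ v ∈ F.filter (fun v => ho v.1 = z), (1 - TFs p q W R ho kp mn g v)
        + ∑ v ∈ F.filter (fun v => v.2.1 = z), TFs p q W R ho kp mn g v
      = ∑ y ∈ ((range n).erase z).filter (fun y => NLz n s mu U ho vl pc be g y),
        payF p q W R U ho vl kp mn pc be g z y := by
  have h0 : ∀ v ∈ unV n U g, v.2.1 < n ∧ ho v.1 < n ∧ v.2.1 ≠ ho v.1 := by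
    intro v hv
    obtain ⟨h1, h2, h3⟩ := LevC.mem_unV hv
    refine ⟨h2, H.hlt _ h1, fun h4 => ?_⟩
    have h5 := Lv.home v.1 h1
    rw [← h4] at h5
    omega
  have hmF : ∀ v, v ∈ F ↔ v ∈ unV n U g ∧ NLz n s mu U ho vl pc be g (ho v.1)
      ∧ NLz n s mu U ho vl pc be g v.2.1 := by
    intro v
    rw [hF]
    unfold freeU
    rw [mem_filter]
    constructor
    · rintro ⟨h1, h2, h3⟩
      obtain ⟨h4, h5, h6⟩ := h0 v h1
      exact ⟨h1, (Lv.nl_iff H h5).1 h2, (Lv.nl_iff H h4).1 (disjoint_singleton_left.1 h3)⟩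
    · rintro ⟨h1, h2, h3⟩
      obtain ⟨h4, h5, h6⟩ := h0 v h1
      exact ⟨h1, (Lv.nl_iff H h5).2 h2, disjoint_singleton_left.2 ((Lv.nl_iff H h4).2 h3)⟩
  have e1 : ∑ v ∈ F.filter (fun v => ho v.1 = z), (1 - TFs p q W R ho kp mn g v)
      = ∑ y ∈ ((range n).erase z).filter (fun y => NLz n s mu U ho vl pc be g y),
        ∑ v ∈ (unV n U g).filter (fun v => ho v.1 = z ∧ v.2.1 = y), (1 - TFs p q W R ho kp mn g v) := by
    rw [← sum_fiberwise_of_maps_to (s := F.filter (fun v => ho v.1 = z))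
      (t := ((range n).erase z).filter (fun y => NLz n s mu U ho vl pc be g y))
      (g := fun v : ι × ℕ × ℕ => v.2.1) fun v hv => ?_]
    · refine sum_congr rfl fun y hy => ?_
      refine sum_congr ?_ fun _ _ => rfl
      have hyL := (mem_filter.1 hy).2
      ext v
      rw [mem_filter, mem_filter, mem_filter, hmF v]
      constructor
      · rintro ⟨⟨⟨h1, -, -⟩, h2⟩, h3⟩
        exact ⟨h1, h2, h3⟩
      · rintro ⟨h1, h2, h3⟩
        refine ⟨⟨⟨h1, ?_, ?_⟩, h2⟩, h3⟩
        · rw [h2]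
          exact hzL
        · rw [h3]
          exact hyL
    · obtain ⟨h1, h2⟩ := mem_filter.1 hv
      obtain ⟨h3, -, h4⟩ := (hmF v).1 h1
      obtain ⟨h5, -, h6⟩ := h0 v h3
      exact mem_filter.2 ⟨mem_erase.2 ⟨fun h7 => h6 (by rw [h7, h2]), mem_range.2 h5⟩, h4⟩
  have e2 : ∑ v ∈ F.filter (fun v => v.2.1 = z), TFs p q W R ho kp mn g v
      = ∑ y ∈ ((range n).erase z).filter (fun y => NLz n s mu U ho vl pc be g y),
        ∑ v ∈ (unV n U g).filter (fun v => ho v.1 = y ∧ v.2.1 = z), TFs p q W R ho kp mn g v := by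
    rw [← sum_fiberwise_of_maps_to (s := F.filter (fun v => v.2.1 = z))
      (t := ((range n).erase z).filter (fun y => NLz n s mu U ho vl pc be g y))
      (g := fun v : ι × ℕ × ℕ => ho v.1) fun v hv => ?_]
    · refine sum_congr rfl fun y hy => ?_
      refine sum_congr ?_ fun _ _ => rfl
      have hyL := (mem_filter.1 hy).2
      ext v
      rw [mem_filter, mem_filter, mem_filter, hmF v]
      constructor
      · rintro ⟨⟨⟨h1, -, -⟩, h2⟩, h3⟩
        exact ⟨h1, h3, h2⟩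
      · rintro ⟨h1, h2, h3⟩
        refine ⟨⟨⟨h1, ?_, ?_⟩, h3⟩, h2⟩
        · rw [h2]
          exact hyL
        · rw [h3]
          exact hzL
    · obtain ⟨h1, h2⟩ := mem_filter.1 hv
      obtain ⟨h3, h4, -⟩ := (hmF v).1 h1
      obtain ⟨-, h5, h6⟩ := h0 v h3
      exact mem_filter.2 ⟨mem_erase.2 ⟨fun h7 => h6 (by rw [h7, h2]), mem_range.2 h5⟩, h4⟩
  rw [e1, e2, ← sum_add_distrib]
  refine sum_congr rfl fun y hy => ?_
  have hyn := mem_range.1 (mem_of_mem_erase (mem_filter.1 hy).1)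
  rw [Lv.cell_host H hW hz hyn hq, Lv.cell_serv H hW hz hyn hq, ← add_div]
  unfold payF
  congr 1
  have h3 : (rnE U ho vl pc be g z y : ℝ)
      = (((unV n U g).filter fun v => ho v.1 = z ∧ v.2.1 = y).card : ℝ)
      + (((unV n U g).filter fun v => ho v.1 = y ∧ v.2.1 = z).card : ℝ) := by
    have h4 : (((unV n U g).filter fun v => ho v.1 = z ∧ v.2.1 = y).card : ℤ)
        + (((unV n U g).filter fun v => ho v.1 = y ∧ v.2.1 = z).card : ℤ)
        = rnE U ho vl pc be g z y := by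
      rw [Lv.card_host H hz hyn, Lv.card_serv H hz hyn]
      rfl
    rw [← h4]
    push_cast
    rfl
  rw [h3]
  ring

/-- **TABLE F, the closing**: only the rows which are not light have a claim, and only the cells of rows which are not
light count -/
theorem LevC.close_F (Lv : LevC n U ho vl kp mn pc φ g f)
    (H : PCon R n t s mu U ho vl kp mn pc ar be kq NN sg nu) (hW : ∀ i < n, 0 < W i)
    (p : ℕ) {q : ℕ} (hq : 0 < q) {δ : ℕ → ℝ}
    (h2 : ∀ z < n, NLz n s mu U ho vl pc be g z →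
      ∑ y ∈ ((range n).erase z).filter (fun y => NLz n s mu U ho vl pc be g y),
        payF p q W R U ho vl kp mn pc be g z y ≤ (mu z : ℝ) - s z + δ z)
    (h3 : ∑ i ∈ (range n).filter (fun i => i ∉ lightU n s (unV n U g) fun v => {v.2.1}), δ i < 1) :
    False := by
  refine Lv.close_M H (T := TFs p q W R ho kp mn g) (δ := δ) rfl rfl ?_ h3
  intro z hz hzL _
  have h4 := (Lv.nl_iff H hz).1 hzL
  rw [Lv.rowF_sum H hW hz h4 hq rfl]
  exact h2 z hz h4

/-- **TABLE F over `PConC` with a budget table** (99's `bud_lt`) -/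
theorem LevC.close_FB (Lv : LevC n U ho vl kp mn pc φ g f)
    (H : PConC R n t s mu U ho vl kp mn pc ar be kq NN sg nu) {Q N : ℕ}
    (hR : R = Q) {dl : List ℕ} (hl : Q ≤ dl.length) (hk : Nat.blt (Kern.bud dl Q 5) N = true)
    (hW : ∀ i < n, 0 < W i) (p : ℕ) {q : ℕ} (hq : 0 < q)
    (h2 : ∀ z < n, NLz n s mu U ho vl pc be g z →
      ∑ y ∈ ((range n).erase z).filter (fun y => NLz n s mu U ho vl pc be g y),
        payF p q W R U ho vl kp mn pc be g z y
          ≤ (mu z : ℝ) - s z + ((dl.getD (t z).toNat 0 : ℕ) : ℝ) / N) : False :=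
  Lv.close_F H.toPCon hW p hq h2 (H.toPCon.bud_lt hR hl hk (filter_subset _ _))

/-! ### bounds of the misses -/

/-- three different rows and at least two others -/
lemma PCon.three_t (H : PCon R n t s mu U ho vl kp mn pc ar be kq NN sg nu) {i j k : ℕ} (hi : i < n)
    (hj : j < n) (hk : k < n) (hij : i ≠ j) (hik : i ≠ k) (hjk : j ≠ k) : t i + t j + t k + 5 ≤ R := by
  have h1 := H.tsum
  have h2 : ({i, j, k} : Finset ℕ) ⊆ range n := by
    intro x hx
    rcases mem_insert.1 hx with h3 | h3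
    · rw [h3]
      exact mem_range.2 hi
    · rcases mem_insert.1 h3 with h4 | h4
      · rw [h4]
        exact mem_range.2 hj
      · rw [mem_singleton.1 h4]
        exact mem_range.2 hk
  have h3 : ∑ l ∈ ({i, j, k} : Finset ℕ), (t l + 1) = (t i + 1) + ((t j + 1) + (t k + 1)) := by
    rw [sum_insert, sum_pair hjk]
    intro h4
    rcases mem_insert.1 h4 with h5 | h5
    · exact hij h5
    · exact hik (mem_singleton.1 h5)
  have h4 : ({i, j, k} : Finset ℕ).card = 3 := by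
    rw [card_insert_of_notMem, card_pair hjk]
    intro h4
    rcases mem_insert.1 h4 with h5 | h5
    · exact hij h5
    · exact hik (mem_singleton.1 h5)
  have h5 : ((range n \ {i, j, k}).card : ℤ) ≤ ∑ l ∈ range n \ {i, j, k}, (t l + 1) := by
    have h6 : (range n \ {i, j, k}).card • (1 : ℤ) ≤ ∑ l ∈ range n \ {i, j, k}, (t l + 1) := by
      refine card_nsmul_le_sum _ _ _ fun l hl => ?_
      have h7 := H.t0 l (mem_range.1 (mem_sdiff.1 hl).1)
      linarith
    rw [nsmul_eq_mul, mul_one] at h6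
    exact h6
  have h6 : (range n \ {i, j, k}).card = n - 3 := by
    rw [card_sdiff_of_subset h2, card_range, h4]
  have h7 := H.n5
  have h8 := sum_sdiff h2 (f := fun l => t l + 1)
  rw [h6] at h5
  have h9 : (2 : ℤ) ≤ ((n - 3 : ℕ) : ℤ) := by
    have : 2 ≤ n - 3 := by omega
    exact_mod_cast this
  linarith

/-- **the misses of a main end**, `φ = mn`: host `x`, main end `m` -/
theorem LevC.unb_cell (Lv : LevC n U ho vl kp mn pc (fun u i => mn i u) g f)
    (H : PCon R n t s mu U ho vl kp mn pc ar be kq NN sg nu) {v : ι × ℕ × ℕ}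
    (hv : v ∈ unV n U g) :
    unb kp mn g v = 0 ∨
      unb kp mn g v ^ 2 ≤ R + t v.2.1 * (R - 5 - t (ho v.1) - t v.2.1) := by
  obtain ⟨h1, h2, -⟩ := LevC.mem_unV hv
  rcases Lv.utyp H hv with h3 | ⟨-, h3, -, -, -⟩
  · exact Or.inl h3
  · right
    have h4 := Lv.unb_sq H hv
    have h5 := H.three_t (H.hlt _ h1) h2 (Lv.fn _ h1) (Lv.main_ne hv).symm (Lv.fh _ h1).symm h3
    have h6 := H.t0 _ h2
    have h7 : t v.2.1 * t (f v.1) ≤ t v.2.1 * (R - 5 - t (ho v.1) - t v.2.1) :=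
      mul_le_mul_of_nonneg_left (by linarith) h6
    linarith

lemma PCon.five_le (H : PCon R n t s mu U ho vl kp mn pc ar be kq NN sg nu) : 5 ≤ R := by
  have h1 := H.tsum
  have h3 : (range n).card • (1 : ℤ) ≤ ∑ i ∈ range n, (t i + 1) := by
    refine card_nsmul_le_sum _ _ _ fun l hl => ?_
    have h5 := H.t0 l (mem_range.1 hl)
    linarith
  rw [card_range, nsmul_eq_mul, mul_one] at h3
  have h4 : (5 : ℤ) ≤ n := by exact_mod_cast H.n5
  linarith

/-- **twice the misses of a main end are at most `R`**, `φ = mn` -/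
theorem LevC.two_unb (Lv : LevC n U ho vl kp mn pc (fun u i => mn i u) g f)
    (H : PCon R n t s mu U ho vl kp mn pc ar be kq NN sg nu) {v : ι × ℕ × ℕ}
    (hv : v ∈ unV n U g) : 2 * unb kp mn g v ≤ R := by
  obtain ⟨h1, h2, -⟩ := LevC.mem_unV hv
  rcases Lv.unb_cell H hv with h3 | h3
  · rw [h3]
    have := R_pos H
    linarith
  · have h4 := H.t0 _ h2
    have h5 := H.t0 _ (H.hlt _ h1)
    by_contra hcon
    push Not at hcon
    have h6 : R + 1 ≤ 2 * unb kp mn g v := hcon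
    have h7 : (R + 1) ^ 2 ≤ (2 * unb kp mn g v) ^ 2 := by
      have := R_pos H
      nlinarith
    have h8 := H.five_le
    nlinarith [sq_nonneg (R - 5 - 2 * t v.2.1), mul_nonneg h4 h5]

/-- a bound of the misses of a cell: host `x`, main end `m` -/
theorem LevC.unb_le_of (Lv : LevC n U ho vl kp mn pc (fun u i => mn i u) g f)
    (H : PCon R n t s mu U ho vl kp mn pc ar be kq NN sg nu) {v : ι × ℕ × ℕ}
    (hv : v ∈ unV n U g) {β : ℤ} (h0 : 0 ≤ β)
    (hβ : R + t v.2.1 * (R - 5 - t (ho v.1) - t v.2.1) < (β + 1) ^ 2) : unb kp mn g v ≤ β := by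
  rcases Lv.unb_cell H hv with h3 | h3
  · rw [h3]
    exact h0
  · by_contra hcon
    push Not at hcon
    have h4 : β + 1 ≤ unb kp mn g v := hcon
    nlinarith

/-- the misses charged at a level are those of a unit -/
lemma msP_unb {g : ℕ → ι → ℕ} {i : ℕ} {u : ι} (h : g i u ≠ 0) :
    msP kp mn i (g i) u = unb kp mn g (u, i, g i u - 1) := by
  unfold msP unb
  by_cases h1 : kp i u ≤ (g i u : ℤ)
  · rw [if_pos h1, if_pos ⟨h1, by show g i u - 1 + 1 = g i u; omega⟩]
  · rw [if_neg h1, if_neg fun h2 => h1 h2.1]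

lemma LevC.mem_unV' (Lv : LevC n U ho vl kp mn pc φ g f)
    (H : PCon R n t s mu U ho vl kp mn pc ar be kq NN sg nu) {i : ℕ} {u : ι} (hu : u ∈ U)
    (hi : i < n) (h : g i u ≠ 0) : (u, i, g i u - 1) ∈ unV n U g := by
  have h1 := Lv.two H u hu i hi
  unfold unV
  rw [mem_filter, mem_product, mem_product]
  refine ⟨⟨hu, mem_range.2 hi, mem_range.2 ?_⟩, ?_⟩
  · show g i u - 1 < 3
    omega
  · show g i u - 1 < g i u
    omega

/-- **the misses of the hosted units of a cell by a bound per unit** -/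
theorem LevC.rnHb_le (Lv : LevC n U ho vl kp mn pc φ g f)
    (H : PCon R n t s mu U ho vl kp mn pc ar be kq NN sg nu) (hy : y < n) {β : ℤ} (h0 : 0 ≤ β)
    (hβ : ∀ v ∈ unV n U g, ho v.1 = z → v.2.1 = y → unb kp mn g v ≤ β) :
    0 ≤ rnHb U ho vl kp mn pc g z y ∧ rnHb U ho vl kp mn pc g z y
      ≤ β * (((rnM U ho vl pc g z y).card : ℤ) + ∑ u ∈ rnC U ho vl pc z, (g y u : ℤ)) := by
  have h1 : ∀ u ∈ U, ho u = z → g y u ≠ 0 → msP kp mn y (g y) u ≤ β := fun u hu h2 h3 => by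
    rw [msP_unb h3]
    exact hβ _ (Lv.mem_unV' H hu hy h3) h2 rfl
  have h2 : ∀ u ∈ rnM U ho vl pc g z y, mn y u = msP kp mn y (g y) u := fun u hu => by
    obtain ⟨h3, h4, h5, h6, h7⟩ := mem_filter.1 hu
    unfold msP
    have h9 := H.kv u h3 y hy
    rw [if_pos]
    rw [h7, Nat.cast_one]
    rw [h6] at h9
    exact h9
  unfold rnHb
  rw [sum_congr rfl h2]
  constructor
  · refine add_nonneg (sum_nonneg fun u hu => ?_) (sum_nonneg fun u hu => ?_)
    · rw [← h2 u hu]
      exact H.m0 u (mem_filter.1 hu).1 y hy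
    · unfold msP
      split_ifs
      · exact H.m0 u (mem_filter.1 (mem_filter.1 hu).1).1 y hy
      · exact le_rfl
  · rw [mul_add]
    refine add_le_add ?_ ?_
    · refine (sum_le_card_nsmul _ _ β fun u hu => ?_).trans (le_of_eq ?_)
      · obtain ⟨h3, h4, h5, h6, h7⟩ := mem_filter.1 hu
        exact h1 u h3 h4 (by omega)
      · rw [nsmul_eq_mul, mul_comm]
    · rw [mul_sum]
      refine le_trans (sum_le_sum (g := fun u => β * (g y u : ℤ)) fun u hu => ?_)
        (sum_le_sum_of_subset_of_nonneg (filter_subset _ _) fun u _ _ =>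
          mul_nonneg h0 (Nat.cast_nonneg _))
      obtain ⟨h3, h4⟩ := mem_filter.1 hu
      obtain ⟨h5, h6, -⟩ := mem_filter.1 h3
      have h7 : (1 : ℤ) ≤ (g y u : ℤ) := by
        have : 1 ≤ g y u := by omega
        exact_mod_cast this
      have h8 := h1 u h5 h6 h4
      nlinarith

/-- **the misses of the served units of a cell by a bound per unit** -/
theorem LevC.rnSb_le (Lv : LevC n U ho vl kp mn pc φ g f)
    (H : PCon R n t s mu U ho vl kp mn pc ar be kq NN sg nu) (hz : z < n) {β : ℤ}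
    (hβ : ∀ v ∈ unV n U g, ho v.1 = y → v.2.1 = z → unb kp mn g v ≤ β) :
    0 ≤ rnSb U ho kp mn pc g z y ∧
      rnSb U ho kp mn pc g z y ≤ β * ((rnK U ho pc g z y).card : ℤ) := by
  unfold rnSb
  constructor
  · refine sum_nonneg fun u hu => ?_
    unfold msP
    split_ifs
    · exact H.m0 u (mem_filter.1 hu).1 z hz
    · exact le_rfl
  · refine (sum_le_card_nsmul _ _ β fun u hu => ?_).trans (le_of_eq ?_)
    · obtain ⟨h3, h4, h5, h6⟩ := mem_filter.1 hu
      rw [msP_unb h6]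
      exact hβ _ (Lv.mem_unV' H h3 hz h6) h4 rfl
    · rw [nsmul_eq_mul, mul_comm]

/-- the payments of a cell are not negative as long as the factors are not -/
lemma LevC.payF_nonneg (Lv : LevC n U ho vl kp mn pc φ g f)
    (H : PCon R n t s mu U ho vl kp mn pc ar be kq NN sg nu) (hW : ∀ i < n, 0 < W i) (hz : z < n)
    (hy : y < n) {p q : ℕ} (hq : 0 < q)
    (hρ : ∀ v ∈ unV n U g, (p : ℤ) * unb kp mn g v ≤ (q : ℤ) * R) :
    0 ≤ payF p q W R U ho vl kp mn pc be g z y := by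
  have hD : (0 : ℝ) < (q : ℝ) * (R : ℝ) := by
    have h2 : (0 : ℝ) < R := by exact_mod_cast R_pos H
    have h3 : (0 : ℝ) < q := by exact_mod_cast hq
    positivity
  have hz0 := hW z hz
  have hy0 := hW y hy
  have h1 := Lv.unb_serv H (y := y) hz
  have h2 := Lv.unb_host H (z := z) hy
  have h3 : (p : ℤ) * rnSb U ho kp mn pc g z y
      ≤ (q : ℤ) * R * (((unV n U g).filter fun v => ho v.1 = y ∧ v.2.1 = z).card : ℤ) := by
    unfold rnSb
    rw [← h1, mul_sum]
    refine (sum_le_card_nsmul _ _ _ fun v hv => hρ v (mem_filter.1 hv).1).trans (le_of_eq ?_)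
    rw [nsmul_eq_mul, mul_comm]
  have h4 : (((unV n U g).filter fun v => ho v.1 = y ∧ v.2.1 = z).card : ℤ)
      ≤ rnE U ho vl pc be g z y := by
    have h5 := Lv.card_host H hz hy
    have h6 := Lv.card_serv H hz hy
    have h7 : rnE U ho vl pc be g z y
        = (((unV n U g).filter fun v => ho v.1 = z ∧ v.2.1 = y).card : ℤ)
          + (((unV n U g).filter fun v => ho v.1 = y ∧ v.2.1 = z).card : ℤ) := by
      rw [h5, h6]
      rfl
    rw [h7]
    have : (0 : ℤ) ≤ (((unV n U g).filter fun v => ho v.1 = z ∧ v.2.1 = y).card : ℤ) :=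
      Nat.cast_nonneg _
    linarith
  have h5 : 0 ≤ rnHb U ho vl kp mn pc g z y := by
    unfold rnHb
    rw [← h2]
    exact sum_nonneg fun v hv => LevC.unb_nonneg H (mem_filter.1 hv).1
  have h6 : (p : ℝ) * (rnSb U ho kp mn pc g z y : ℝ)
      ≤ (q : ℝ) * (R : ℝ) * (rnE U ho vl pc be g z y : ℝ) := by
    have h7 : (0 : ℤ) ≤ (q : ℤ) * R := mul_nonneg (Nat.cast_nonneg _) (R_pos H).le
    have h8 := h3.trans (mul_le_mul_of_nonneg_left h4 h7)
    exact_mod_cast h8
  have h7 : (0 : ℝ) ≤ (rnHb U ho vl kp mn pc g z y : ℝ) := by exact_mod_cast h5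
  unfold payF
  refine div_nonneg ?_ (mul_pos (add_pos hz0 hy0) hD).le
  have h8 : (0 : ℝ) ≤ p := Nat.cast_nonneg _
  have h9 := mul_nonneg h8 (mul_nonneg hz0.le h7)
  have h10 := mul_le_mul_of_nonneg_left h6 hy0.le
  nlinarith

/-- **TABLE F over `PConC`, budget table, the sum over all other rows** (`φ = mn`, factor at most `2`) -/
theorem LevC.close_FB' (Lv : LevC n U ho vl kp mn pc (fun u i => mn i u) g f)
    (H : PConC R n t s mu U ho vl kp mn pc ar be kq NN sg nu) {Q N : ℕ}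
    (hR : R = Q) {dl : List ℕ} (hl : Q ≤ dl.length) (hk : Nat.blt (Kern.bud dl Q 5) N = true)
    (hW : ∀ i < n, 0 < W i) {p q : ℕ} (hq : 0 < q) (hpq : p ≤ 2 * q)
    (h2 : ∀ z < n, mu z - s z + 1 ≤ ∑ y ∈ (range n).erase z, rnE U ho vl pc be g z y →
      ∑ y ∈ (range n).erase z, payF p q W R U ho vl kp mn pc be g z y
          ≤ (mu z : ℝ) - s z + ((dl.getD (t z).toNat 0 : ℕ) : ℝ) / N) : False := by
  refine Lv.close_FB H hR hl hk hW p hq fun z hz hzL => ?_
  refine le_trans (sum_le_sum_of_subset_of_nonneg (filter_subset _ _) fun y hy _ => ?_)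
    (h2 z hz hzL)
  refine Lv.payF_nonneg H.toPCon hW hz (mem_range.1 (mem_of_mem_erase hy)) hq fun v hv => ?_
  have h3 := Lv.two_unb H.toPCon hv
  have h4 := LevC.unb_nonneg H.toPCon hv
  have h5 : (p : ℤ) ≤ 2 * q := by exact_mod_cast hpq
  have h6 : (0 : ℤ) ≤ q := Nat.cast_nonneg _
  nlinarith

/-- **the payment of a cell without denominators** -/
theorem payF_mul {p q wz wy : ℕ} (hwz : W z = wz) (hwy : W y = wy) (hz0 : 0 < wz)
    (hq : 0 < q) (hR : 0 < R) :
    payF p q W R U ho vl kp mn pc be g z y * ((((wz : ℤ) + wy) * (q * R) : ℤ) : ℝ)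
      = (((wy : ℤ) * (q * R) * rnE U ho vl pc be g z y
        + p * (wz * rnHb U ho vl kp mn pc g z y - wy * rnSb U ho kp mn pc g z y) : ℤ) : ℝ) := by
  have h1 : (0 : ℝ) < wz := by exact_mod_cast hz0
  have h2 : (0 : ℝ) ≤ wy := Nat.cast_nonneg _
  have h3 : (0 : ℝ) < q := by exact_mod_cast hq
  have h4 : (0 : ℝ) < R := by exact_mod_cast hR
  have h5 : ((wz : ℝ) + wy) * ((q : ℝ) * (R : ℝ)) ≠ 0 := by positivity
  unfold payF
  rw [hwz, hwy]
  push_cast
  rw [div_mul_cancel₀ _ h5]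

end TabF

end Pool.Agent.Lib.MP_f04ccf_co
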