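import Pool.Agent.Lib.MP_f04ccf_co.M.CsIn
import Pool.Agent.Lib.MP_f04ccf_co.M.CsB
import Pool.Agent.Lib.MP_f04ccf_co.M.ClosM5
import Pool.Agent.Lib.MP_f04ccf_co.M.TabF

/-!
MP_f04ccf_co, TEXT D, regime L: **the row of a table with factors from the column sum** (`csShare` in the letters of
`close_theta5` and of `CsB`).

* `LevC.csShareJ`: `csShare` with the columns of any set `J`; what lies outside of `J` is not charged;
* `thL`, `facL`: the factor `1 - fac b / R` of a unit, `fac = fr m` for value one, `fc m` for cliques;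
* `msL`: the misses of an item at a main end; `LevC.xItL`, `LevC.yItL`: the share of an item;
* `LevC.csRowTh`: the row claim in the letters of `LevC.close_theta5`, any weights `w` in `[0, 1]`;
* `PCon.csC`: the cells of a row as in `CsB`; `LevC.csRowL`: the weights `csL`, `csT` of `CsB`
  (`w y = A y / (A z + A y)`);
* `LevC.close_L6`: the closing of regime L with the factors `fr`, `fc` (at most 2) over the rows not in `L`.
-/

set_option autoImplicit false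

namespace Pool.Agent.Lib.MP_f04ccf_co

open Finset

attribute [local instance] Classical.propDecidable

section CsL

variable {ι : Type*} {R : ℤ} {n : ℕ} {t s mu : ℕ → ℤ} {U : Finset ι} {ho : ι → ℕ} {vl : ι → ℤ}
  {kp mn : ℕ → ι → ℤ} {pc ar : ι → ℤ} {be kq NN sg : ℕ → ℕ → ℤ} {nu : ℕ → ι → ℤ} {z y : ℕ}
  {φ : ι → ℕ → ℤ} {g : ℕ → ι → ℕ} {f : ι → ℕ}

/-- **`csShare` with the columns of any set `J`** -/
theorem LevC.csShareJ (C : LevC n U ho vl kp mn pc φ g f)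
    (H : PCon R n t s mu U ho vl kp mn pc ar be kq NN sg nu) (hz : z < n) {J : Finset ℕ}
    (hJ : J ⊆ (range n).erase z) {cr : ℕ → ι → ℝ}
    {w : ℕ → ℝ} (hw : ∀ y ∈ J, 0 ≤ w y)
    {c : ℝ} (hc0 : 0 < c) {τ : ℝ} (hτ : 0 ≤ τ)
    {V : ℕ → Finset ι} (hV : ∀ y ∈ J, V y ⊆ U.filter fun u => ho u = y ∧ g z u ≠ 0) {r : ℕ → ℝ}
    (hcol : ∀ y ∈ J, 2 * (c * ((be z y : ℝ) + ∑ u ∈ V y, (g z u : ℝ)))
        + 2 * ∑ u ∈ hsZ U ho pc z, cr y u + r y
      ≤ 2 * ((t y : ℝ) * ((mu z : ℝ) - s z)) + 2 * ((R : ℝ) - t y)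
        + 2 * ∑ u ∈ V y, ((msP kp mn z (g z) u : ℝ) + (rnA n kp be z y u : ℝ)))
    {KT : Finset ι} (hKT : KT ⊆ U.filter fun u => g z u ≠ 0) {lv : ι → ℕ} {rT : ℝ}
    (hT : 2 * (c * (∑ u ∈ hsZ U ho pc z, (vl u : ℝ) + ∑ u ∈ KT, (lv u : ℝ))) + rT
      ≤ 2 * ((R : ℝ) * ((mu z : ℝ) - s z)) + 2 * ∑ u ∈ KT, (msP kp mn z lv u : ℝ))
    {X Y : ι × ℕ × ℕ → ℝ} (hX : ∀ v ∈ unV n U g, 0 ≤ X v) (hY : ∀ v ∈ unV n U g, 0 ≤ Y v)
    {F : Finset (ι × ℕ × ℕ)} (hF : F ⊆ unV n U g)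
    (hpc : ∀ v ∈ unV n U g, ho v.1 = z → pc v.1 ≠ 0 → v.2.1 ∈ J → X v ≤ w v.2.1)
    (hpc0 : ∀ v ∈ unV n U g, ho v.1 = z → pc v.1 ≠ 0 → v.2.1 ∉ J → X v ≤ 0)
    (hB : ∀ u ∈ hsZ U ho pc z, xIt n g X u
      ≤ ∑ y ∈ J, w y / c * cr y u + τ * (c * (vl u : ℝ)))
    (hS : ∀ u ∈ U, g z u ≠ 0 → yIt g Y z u
      ≤ (if ho u ∈ J ∧ u ∈ V (ho u) then w (ho u) * (g z u : ℝ)
          - w (ho u) / c * ((msP kp mn z (g z) u : ℝ) + (rnA n kp be z (ho u) u : ℝ)) else 0)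
        + τ * (if u ∈ KT then c * (lv u : ℝ) - (msP kp mn z lv u : ℝ) else 0)) :
    ∑ v ∈ F.filter (fun v => ho v.1 = z), X v + ∑ v ∈ F.filter (fun v => v.2.1 = z), Y v
        + (1 / 2) * (∑ y ∈ J, w y / c * r y + τ * rT)
      ≤ (∑ y ∈ J, w y / c * (t y : ℝ) + τ * R) * ((mu z : ℝ) - s z)
        + ∑ y ∈ J, w y / c * ((R : ℝ) - t y) := by
  obtain ⟨w', hw'⟩ : ∃ w' : ℕ → ℝ, w' = fun y => if y ∈ J then w y else 0 := ⟨_, rfl⟩
  obtain ⟨V', hV'⟩ : ∃ V' : ℕ → Finset ι, V' = fun y => if y ∈ J then V y else ∅ := ⟨_, rfl⟩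
  have hwJ : ∀ y ∈ J, w' y = w y := fun y hy => by rw [hw']; exact if_pos hy
  have hw0 : ∀ y, y ∉ J → w' y = 0 := fun y hy => by rw [hw']; exact if_neg hy
  have hVJ : ∀ y ∈ J, V' y = V y := fun y hy => by rw [hV']; exact if_pos hy
  have hV0 : ∀ y, y ∉ J → V' y = ∅ := fun y hy => by rw [hV']; exact if_neg hy
  have hsum : ∀ q : ℕ → ℝ, ∑ y ∈ (range n).erase z, w' y / c * q y = ∑ y ∈ J, w y / c * q y := by
    intro q
    refine (sum_subset hJ fun y hy hy' => ?_).symm.trans (sum_congr rfl fun y hy => ?_)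
    · rw [hw0 y hy', zero_div, zero_mul]
    · rw [hwJ y hy]
  have h1 := C.csShare H hz (J := (range n).erase z) (Subset.refl _) (cr := cr) (w := w')
    (fun y _ => by
      by_cases h2 : y ∈ J
      · rw [hwJ y h2]
        exact hw y h2
      · rw [hw0 y h2])
    (fun y hy hy' => absurd hy hy') hc0 hτ (V := V')
    (fun y _ => by
      by_cases h2 : y ∈ J
      · rw [hVJ y h2]
        exact hV y h2
      · rw [hV0 y h2]
        exact empty_subset _)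
    (r := fun y => if y ∈ J then r y else
      2 * ((t y : ℝ) * ((mu z : ℝ) - s z)) + 2 * ((R : ℝ) - t y)
        + 2 * ∑ u ∈ V' y, ((msP kp mn z (g z) u : ℝ) + (rnA n kp be z y u : ℝ))
        - (2 * (c * ((be z y : ℝ) + ∑ u ∈ V' y, (g z u : ℝ)))
        + 2 * ∑ u ∈ hsZ U ho pc z, cr y u))
    (fun y _ => by
      beta_reduce
      by_cases h2 : y ∈ J
      · rw [if_pos h2, hVJ y h2]
        exact hcol y h2
      · rw [if_neg h2]
        linarith)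
    hKT hT hX hY hF
    (fun v hv h2 h3 => by
      by_cases h4 : v.2.1 ∈ J
      · rw [hwJ _ h4]
        exact hpc v hv h2 h3 h4
      · rw [hw0 _ h4]
        exact hpc0 v hv h2 h3 h4)
    (fun u hu => by
      rw [hsum]
      exact hB u hu)
    (fun u hu h2 => by
      refine (hS u hu h2).trans (le_of_eq ?_)
      congr 1
      have h3 : ho u ∈ (range n).erase z := by
        refine mem_erase.2 ⟨fun h3 => h2 ?_, mem_range.2 (H.hlt u hu)⟩
        rw [← h3]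
        exact C.home u hu
      by_cases h4 : ho u ∈ J
      · rw [hwJ _ h4, hVJ _ h4]
        by_cases h5 : u ∈ V (ho u)
        · rw [if_pos ⟨h4, h5⟩, if_pos ⟨h3, h5⟩]
        · rw [if_neg fun h => h5 h.2, if_neg fun h => h5 h.2]
      · rw [if_neg fun h => h4 h.1, if_neg]
        rintro ⟨-, h5⟩
        rw [hV0 _ h4] at h5
        exact notMem_empty _ h5)
  rw [hsum, hsum, hsum] at h1
  have h2 : ∑ y ∈ J, w y / c * (if y ∈ J then r y else
      2 * ((t y : ℝ) * ((mu z : ℝ) - s z)) + 2 * ((R : ℝ) - t y)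
        + 2 * ∑ u ∈ V' y, ((msP kp mn z (g z) u : ℝ) + (rnA n kp be z y u : ℝ))
        - (2 * (c * ((be z y : ℝ) + ∑ u ∈ V' y, (g z u : ℝ)))
        + 2 * ∑ u ∈ hsZ U ho pc z, cr y u))
      = ∑ y ∈ J, w y / c * r y := sum_congr rfl fun y hy => by rw [if_pos hy]
  rw [h2] at h1
  exact h1

/-! ### shares with a factor -/

/-- the factor number of an item at the main end `i` -/
noncomputable def facL (vl : ι → ℤ) (fr fc : ℕ → ℝ) (u : ι) (i : ℕ) : ℝ :=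
  if vl u = 1 then fr i else fc i

/-- **the factor of a unit**: `1 - fr m * b / R` for value one, `1 - fc m * b / R` for cliques -/
noncomputable def thL (R : ℤ) (vl : ι → ℤ) (kp mn : ℕ → ι → ℤ) (g : ℕ → ι → ℕ) (fr fc : ℕ → ℝ)
    (v : ι × ℕ × ℕ) : ℝ :=
  1 - facL vl fr fc v.1 v.2.1 * (unb kp mn g v : ℝ) / R

/-- the misses of an item at its main end `i` -/
noncomputable def msL (kp mn : ℕ → ι → ℤ) (g : ℕ → ι → ℕ) (u : ι) (i : ℕ) : ℤ :=
  if g i u = 0 then 0 else msP kp mn i (g i) u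

lemma msL_sum (g : ℕ → ι → ℕ) (u : ι) (i : ℕ) :
    ∑ j ∈ range (g i u), (unb kp mn g (u, i, j) : ℝ) = (msL kp mn g u i : ℝ) := by
  have h1 := unb_sum (kp := kp) (mn := mn) g u i
  unfold msL
  rw [← h1]
  push_cast
  rfl

/-- **what the host pays for an item** -/
lemma xItL {J : Finset ℕ} (hJ : J ⊆ range n) (w fr fc : ℕ → ℝ) (u : ι) :
    xIt n g (fun v => if v.2.1 ∈ J then 1 - (1 - w v.2.1) * thL R vl kp mn g fr fc v else 0) u
      = ∑ i ∈ J, ((g i u : ℝ) * w i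
        + (1 - w i) * facL vl fr fc u i * (msL kp mn g u i : ℝ) / R) := by
  unfold xIt
  refine (sum_subset hJ fun i hi hi' => ?_).symm.trans (sum_congr rfl fun i hi => ?_)
  · exact sum_eq_zero fun j _ => if_neg hi'
  · rw [← msL_sum (kp := kp) (mn := mn) g u i]
    have h1 : ∀ j ∈ range (g i u),
        (if ((u, i, j) : ι × ℕ × ℕ).2.1 ∈ J then
          1 - (1 - w ((u, i, j) : ι × ℕ × ℕ).2.1) * thL R vl kp mn g fr fc (u, i, j) else 0)
        = w i + (1 - w i) * facL vl fr fc u i / R * (unb kp mn g (u, i, j) : ℝ) := by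
      intro j _
      rw [if_pos hi]
      unfold thL
      ring
    rw [sum_congr rfl h1, sum_add_distrib, sum_const, card_range, nsmul_eq_mul, ← mul_sum]
    ring

/-- **what the main end `z` pays for an item** -/
lemma yItL (J : Finset ℕ) (w fr fc : ℕ → ℝ) (u : ι) :
    yIt g (fun v => if ho v.1 ∈ J then w (ho v.1) * thL R vl kp mn g fr fc v else 0) z u
      = if ho u ∈ J then w (ho u) * ((g z u : ℝ) - facL vl fr fc u z * (msL kp mn g u z : ℝ) / R)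
        else 0 := by
  unfold yIt
  by_cases h1 : ho u ∈ J
  · rw [if_pos h1, ← msL_sum (kp := kp) (mn := mn) g u z]
    have h2 : ∀ j ∈ range (g z u),
        (if ho ((u, z, j) : ι × ℕ × ℕ).1 ∈ J then
          w (ho ((u, z, j) : ι × ℕ × ℕ).1) * thL R vl kp mn g fr fc (u, z, j) else 0)
        = w (ho u) + (- (w (ho u) * facL vl fr fc u z / R)) * (unb kp mn g (u, z, j) : ℝ) := by
      intro j _
      rw [if_pos h1]
      unfold thL
      ring
    rw [sum_congr rfl h2, sum_add_distrib, sum_const, card_range, nsmul_eq_mul, ← mul_sum]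
    ring
  · rw [if_neg h1]
    exact sum_eq_zero fun j _ => if_neg h1

/-- **THE ROW IN THE LETTERS OF `close_theta5`**, any weights `w` in `[0, 1]`, any `c`, `τ` -/
theorem LevC.csRowTh (C : LevC n U ho vl kp mn pc φ g f)
    (H : PCon R n t s mu U ho vl kp mn pc ar be kq NN sg nu) (hz : z < n) {L : Finset ℕ}
    (hzL : z ∉ L) {J : Finset ℕ} (hJ : J ⊆ (range n).erase z)
    (hLJ : ∀ y ∈ (range n).erase z, y ∉ L → y ∈ J)
    {fr fc : ℕ → ℝ} (hf : ∀ v ∈ unV n U g, 0 ≤ facL vl fr fc v.1 v.2.1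
      ∧ facL vl fr fc v.1 v.2.1 * (unb kp mn g v : ℝ) ≤ R)
    {w : ℕ → ℝ} (hw : ∀ y < n, 0 ≤ w y ∧ w y ≤ 1) {cr : ℕ → ι → ℝ}
    {c : ℝ} (hc0 : 0 < c) {τ : ℝ} (hτ : 0 ≤ τ)
    {V : ℕ → Finset ι} (hV : ∀ y ∈ J, V y ⊆ U.filter fun u => ho u = y ∧ g z u ≠ 0) {r : ℕ → ℝ}
    (hcol : ∀ y ∈ J, 2 * (c * ((be z y : ℝ) + ∑ u ∈ V y, (g z u : ℝ)))
        + 2 * ∑ u ∈ hsZ U ho pc z, cr y u + r y
      ≤ 2 * ((t y : ℝ) * ((mu z : ℝ) - s z)) + 2 * ((R : ℝ) - t y)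
        + 2 * ∑ u ∈ V y, ((msP kp mn z (g z) u : ℝ) + (rnA n kp be z y u : ℝ)))
    {KT : Finset ι} (hKT : KT ⊆ U.filter fun u => g z u ≠ 0) {lv : ι → ℕ} {rT : ℝ}
    (hT : 2 * (c * (∑ u ∈ hsZ U ho pc z, (vl u : ℝ) + ∑ u ∈ KT, (lv u : ℝ))) + rT
      ≤ 2 * ((R : ℝ) * ((mu z : ℝ) - s z)) + 2 * ∑ u ∈ KT, (msP kp mn z lv u : ℝ))
    (hB : ∀ u ∈ hsZ U ho pc z, ∑ i ∈ J, ((g i u : ℝ) * w i
        + (1 - w i) * facL vl fr fc u i * (msL kp mn g u i : ℝ) / R)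
      ≤ ∑ y ∈ J, w y / c * cr y u + τ * (c * (vl u : ℝ)))
    (hS : ∀ u ∈ U, g z u ≠ 0 →
      (if ho u ∈ J then w (ho u) * ((g z u : ℝ) - facL vl fr fc u z * (msL kp mn g u z : ℝ) / R)
        else 0)
      ≤ (if ho u ∈ J ∧ u ∈ V (ho u) then w (ho u) * (g z u : ℝ)
          - w (ho u) / c * ((msP kp mn z (g z) u : ℝ) + (rnA n kp be z (ho u) u : ℝ)) else 0)
        + τ * (if u ∈ KT then c * (lv u : ℝ) - (msP kp mn z lv u : ℝ) else 0)) :
    ∑ y ∈ ((range n).erase z).filter (fun y => y ∉ L),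
        (w y * (rnE U ho vl pc be g z y : ℝ)
        + ((1 - w y) * rnHl n U ho g (thL R vl kp mn g fr fc) z y
          - w y * rnSl n U ho g (thL R vl kp mn g fr fc) z y))
        + (1 / 2) * (∑ y ∈ J, w y / c * r y + τ * rT)
      ≤ (∑ y ∈ J, w y / c * (t y : ℝ) + τ * R) * ((mu z : ℝ) - s z)
        + ∑ y ∈ J, w y / c * ((R : ℝ) - t y) := by
  have hR0 : (0 : ℝ) < R := by exact_mod_cast R_pos H
  have hJn : J ⊆ range n := hJ.trans (erase_subset _ _)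
  have hth : ∀ v ∈ unV n U g, 0 ≤ thL R vl kp mn g fr fc v ∧ thL R vl kp mn g fr fc v ≤ 1 := by
    intro v hv
    obtain ⟨h1, h2⟩ := hf v hv
    have h3 : (0 : ℝ) ≤ unb kp mn g v := by exact_mod_cast LevC.unb_nonneg H hv
    unfold thL
    constructor
    · rw [sub_nonneg, div_le_one hR0]
      exact h2
    · have := div_nonneg (mul_nonneg h1 h3) hR0.le
      linarith
  have h5 := C.row_theta5 H hz hzL (F := freeU (unV n U g) (fun v => ho v.1) (fun v => {v.2.1}) L)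
    rfl (thL R vl kp mn g fr fc) w
  have hFm : ∀ v, v ∈ freeU (unV n U g) (fun v => ho v.1) (fun v => {v.2.1}) L
      ↔ v ∈ unV n U g ∧ ho v.1 ∉ L ∧ v.2.1 ∉ L := by
    intro v
    unfold freeU
    rw [mem_filter, disjoint_singleton_left]
  have h6 := C.csShareJ H hz hJ (cr := cr) (fun y hy => (hw y (mem_range.1 (hJn hy))).1) hc0 hτ hV hcol
    hKT hT (X := fun v => if v.2.1 ∈ J then 1 - (1 - w v.2.1) * thL R vl kp mn g fr fc v else 0)
    (Y := fun v => if ho v.1 ∈ J then w (ho v.1) * thL R vl kp mn g fr fc v else 0)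
    (fun v hv => by
      beta_reduce
      by_cases h7 : v.2.1 ∈ J
      · rw [if_pos h7]
        obtain ⟨h8, h9⟩ := hw _ (LevC.mem_unV hv).2.1
        obtain ⟨h10, h11⟩ := hth v hv
        nlinarith
      · rw [if_neg h7])
    (fun v hv => by
      beta_reduce
      by_cases h7 : ho v.1 ∈ J
      · rw [if_pos h7]
        exact mul_nonneg (hw _ (mem_range.1 (hJn h7))).1 (hth v hv).1
      · rw [if_neg h7])
    (F := freeU (unV n U g) (fun v => ho v.1) (fun v => {v.2.1}) L)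
    (fun v hv => ((hFm v).1 hv).1)
    (fun v hv h7 h8 h9 => by
      beta_reduce
      rw [if_pos h9]
      have h10 : unb kp mn g v = 0 := by
        obtain ⟨h11, h12, h13⟩ := LevC.mem_unV hv
        rcases C.typ v.1 h11 with ⟨h14, h15, h16, h17, h18⟩ | ⟨h14, -⟩
        · have h19 : v.2.1 = f v.1 := by
            by_contra h20
            have h21 := C.le v.1 h11 _ h12
            rw [h18 _ h12 h20] at h21
            omega
          unfold unb
          rw [h19, h17]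
          simp
        · exact absurd h14 h8
      unfold thL
      rw [h10]
      simp)
    (fun v _ _ _ h9 => by
      beta_reduce
      rw [if_neg h9])
    (fun u hu => by
      rw [xItL hJn]
      exact hB u hu)
    (fun u hu h7 => by
      rw [yItL]
      exact hS u hu h7)
  rw [← h5]
  refine le_trans (le_of_eq ?_) h6
  congr 1
  congr 1
  · refine sum_congr rfl fun v hv => ?_
    obtain ⟨h7, h8⟩ := mem_filter.1 hv
    obtain ⟨h9, h10, h11⟩ := (hFm v).1 h7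
    rw [if_pos]
    refine hLJ _ (mem_erase.2 ⟨?_, mem_range.2 (LevC.mem_unV h9).2.1⟩) h11
    rw [← h8]
    exact C.main_ne h9
  · refine sum_congr rfl fun v hv => ?_
    obtain ⟨h7, h8⟩ := mem_filter.1 hv
    obtain ⟨h9, h10, h11⟩ := (hFm v).1 h7
    rw [if_pos]
    refine hLJ _ (mem_erase.2 ⟨?_, mem_range.2 (H.hlt _ (LevC.mem_unV h9).1)⟩) h10
    rw [← h8]
    exact fun h => C.main_ne h9 h.symm

/-! ### the weights of `CsB` -/

/-- the cells of a row as in `CsB` -/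
lemma PCon.csC (H : PCon R n t s mu U ho vl kp mn pc ar be kq NN sg nu) (hz : z < n)
    (hA : ∀ i < n, 2 * (t i + 1) ≤ R) {J : Finset ℕ} (hJ : J ⊆ (range n).erase z) :
    CsC (R : ℝ) ((t z : ℝ) + 1) J (fun i => (t i : ℝ)) where
  hA := by
    have h1 : (0 : ℝ) ≤ t z := by exact_mod_cast H.t0 z hz
    linarith
  hR := by
    have h1 : (2 : ℝ) * ((t z : ℝ) + 1) ≤ R := by exact_mod_cast hA z hz
    exact h1
  t0 := fun l hl => by
    have h1 : (0 : ℝ) ≤ t l := by exact_mod_cast H.t0 l (mem_range.1 (mem_of_mem_erase (hJ hl)))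
    exact h1
  t2 := fun l hl => by
    have h1 : (2 : ℝ) * ((t l : ℝ) + 1) ≤ R := by
      exact_mod_cast hA l (mem_range.1 (mem_of_mem_erase (hJ hl)))
    exact h1
  sum := by
    have h1 : t z + 1 + ∑ l ∈ J, (t l + 1) ≤ R := by
      have h2 := H.tsum
      rw [← add_sum_erase (range n) _ (mem_range.2 hz)] at h2
      have h3 : ∑ l ∈ J, (t l + 1) ≤ ∑ l ∈ (range n).erase z, (t l + 1) :=
        sum_le_sum_of_subset_of_nonneg hJ fun l hl _ => by
          have := H.t0 l (mem_range.1 (mem_of_mem_erase hl))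
          linarith
      linarith
    exact_mod_cast h1

lemma CsC.csL_t_le {R A : ℝ} {F : Finset ℕ} {t : ℕ → ℝ} (H : CsC R A F t) :
    ∑ l ∈ F, csL R A (t l) * t l ≤ 1 := by
  have hc := H.c_pos
  have h1 : ∑ l ∈ F, csL R A (t l) * t l ≤ ∑ l ∈ F, (t l + 1) / (R - A) := by
    refine sum_le_sum fun l hl => ?_
    have h2 := H.t0 l hl
    have h3 := csS_le_one (A := A) (x := t l + 1) (by linarith [H.hA]) (by linarith)
    unfold csL
    rw [div_mul_eq_mul_div]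
    refine div_le_div_of_nonneg_right ?_ hc.le
    nlinarith
  refine h1.trans ?_
  rw [← sum_div, div_le_one hc]
  linarith [H.sum]

lemma CsC.csT_nonneg {R A : ℝ} {F : Finset ℕ} {t : ℕ → ℝ} (H : CsC R A F t) :
    0 ≤ csT R A F t := by
  have h1 := H.csL_t_le
  unfold csT
  exact div_nonneg (by linarith) (by linarith [H.hA, H.hR])

lemma CsC.csT_one {R A : ℝ} {F : Finset ℕ} {t : ℕ → ℝ} (H : CsC R A F t) :
    ∑ l ∈ F, csL R A (t l) * t l + csT R A F t * R = 1 := by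
  have h1 : R ≠ 0 := by linarith [H.hA, H.hR]
  unfold csT
  rw [div_mul_cancel₀ _ h1]
  ring

/-- **THE ROW CLAIM OF REGIME L FROM THE COLUMN SUM**: `w y = A y / (A z + A y)`, weights `csL`, `csT`; what is left is
one inequality per item and the remainders -/
theorem LevC.csRowL (C : LevC n U ho vl kp mn pc φ g f)
    (H : PCon R n t s mu U ho vl kp mn pc ar be kq NN sg nu) (hz : z < n)
    (hA : ∀ i < n, 2 * (t i + 1) ≤ R) {L : Finset ℕ}
    (hzL : z ∉ L) {J : Finset ℕ} (hJ : J ⊆ (range n).erase z)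
    (hLJ : ∀ y ∈ (range n).erase z, y ∉ L → y ∈ J)
    {fr fc : ℕ → ℝ} (hf : ∀ v ∈ unV n U g, 0 ≤ facL vl fr fc v.1 v.2.1
      ∧ facL vl fr fc v.1 v.2.1 * (unb kp mn g v : ℝ) ≤ R) {cr : ℕ → ι → ℝ}
    {V : ℕ → Finset ι} (hV : ∀ y ∈ J, V y ⊆ U.filter fun u => ho u = y ∧ g z u ≠ 0) {r : ℕ → ℝ}
    (hcol : ∀ y ∈ J, 2 * (((R : ℝ) - ((t z : ℝ) + 1)) * ((be z y : ℝ) + ∑ u ∈ V y, (g z u : ℝ)))
        + 2 * ∑ u ∈ hsZ U ho pc z, cr y u + r y
      ≤ 2 * ((t y : ℝ) * ((mu z : ℝ) - s z)) + 2 * ((R : ℝ) - t y)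
        + 2 * ∑ u ∈ V y, ((msP kp mn z (g z) u : ℝ) + (rnA n kp be z y u : ℝ)))
    {KT : Finset ι} (hKT : KT ⊆ U.filter fun u => g z u ≠ 0) {lv : ι → ℕ} {rT : ℝ}
    (hT : 2 * (((R : ℝ) - ((t z : ℝ) + 1)) * (∑ u ∈ hsZ U ho pc z, (vl u : ℝ)
        + ∑ u ∈ KT, (lv u : ℝ))) + rT
      ≤ 2 * ((R : ℝ) * ((mu z : ℝ) - s z)) + 2 * ∑ u ∈ KT, (msP kp mn z lv u : ℝ))
    (hB : ∀ u ∈ hsZ U ho pc z, ∑ i ∈ J, ((g i u : ℝ) * csS ((t z : ℝ) + 1) ((t i : ℝ) + 1)
        + (1 - csS ((t z : ℝ) + 1) ((t i : ℝ) + 1)) * facL vl fr fc u i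
          * (msL kp mn g u i : ℝ) / R)
      ≤ ∑ y ∈ J, csL R ((t z : ℝ) + 1) (t y) * cr y u
        + csT R ((t z : ℝ) + 1) J (fun i => (t i : ℝ)) * (((R : ℝ) - ((t z : ℝ) + 1)) * (vl u : ℝ)))
    (hS : ∀ u ∈ U, g z u ≠ 0 →
      (if ho u ∈ J then csS ((t z : ℝ) + 1) ((t (ho u) : ℝ) + 1)
          * ((g z u : ℝ) - facL vl fr fc u z * (msL kp mn g u z : ℝ) / R) else 0)
      ≤ (if ho u ∈ J ∧ u ∈ V (ho u) then csS ((t z : ℝ) + 1) ((t (ho u) : ℝ) + 1) * (g z u : ℝ)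
          - csL R ((t z : ℝ) + 1) (t (ho u))
            * ((msP kp mn z (g z) u : ℝ) + (rnA n kp be z (ho u) u : ℝ)) else 0)
        + csT R ((t z : ℝ) + 1) J (fun i => (t i : ℝ))
          * (if u ∈ KT then ((R : ℝ) - ((t z : ℝ) + 1)) * (lv u : ℝ) - (msP kp mn z lv u : ℝ)
            else 0)) :
    ∑ y ∈ ((range n).erase z).filter (fun y => y ∉ L),
        (((t y : ℝ) + 1) / ((t z : ℝ) + 1 + ((t y : ℝ) + 1)) * (rnE U ho vl pc be g z y : ℝ)
        + ((1 - ((t y : ℝ) + 1) / ((t z : ℝ) + 1 + ((t y : ℝ) + 1)))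
            * rnHl n U ho g (thL R vl kp mn g fr fc) z y
          - ((t y : ℝ) + 1) / ((t z : ℝ) + 1 + ((t y : ℝ) + 1))
            * rnSl n U ho g (thL R vl kp mn g fr fc) z y))
        + (1 / 2) * (∑ y ∈ J, csL R ((t z : ℝ) + 1) (t y) * r y
          + csT R ((t z : ℝ) + 1) J (fun i => (t i : ℝ)) * rT)
      ≤ (mu z : ℝ) - s z + ∑ y ∈ J, csL R ((t z : ℝ) + 1) (t y) * ((R : ℝ) - t y) := by
  have hC := H.csC hz hA hJ
  have hc := hC.c_pos
  have hw : ∀ y < n, 0 ≤ csS ((t z : ℝ) + 1) ((t y : ℝ) + 1)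
      ∧ csS ((t z : ℝ) + 1) ((t y : ℝ) + 1) ≤ 1 := fun y hy => by
    have h6 : (0 : ℝ) ≤ t z := by exact_mod_cast H.t0 z hz
    have h7 : (0 : ℝ) ≤ t y := by exact_mod_cast H.t0 y hy
    exact ⟨csS_nonneg (by linarith) (by linarith), csS_le_one (by linarith) (by linarith)⟩
  have h1 := C.csRowTh H hz hzL hJ hLJ hf (w := fun y => csS ((t z : ℝ) + 1) ((t y : ℝ) + 1)) hw
    (cr := cr) (c := (R : ℝ) - ((t z : ℝ) + 1)) hc
    (τ := csT R ((t z : ℝ) + 1) J (fun i => (t i : ℝ))) hC.csT_nonneg hV hcol hKT hT hB hS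
  have h2 := hC.csT_one
  beta_reduce at h1 h2
  unfold csL at h2 ⊢
  rw [h2, one_mul] at h1
  unfold csS at h1 ⊢
  exact h1

/-- the factors `0 ≤ fr, fc ≤ 2` are allowed for the fewest misses -/
lemma LevC.facL_ok (Lv : LevC n U ho vl kp mn pc (fun u i => mn i u) g f)
    (H : PCon R n t s mu U ho vl kp mn pc ar be kq NN sg nu) {fr fc : ℕ → ℝ}
    (hr : ∀ i < n, 0 ≤ fr i ∧ fr i ≤ 2) (hc : ∀ i < n, 0 ≤ fc i ∧ fc i ≤ 2) :
    ∀ v ∈ unV n U g, 0 ≤ facL vl fr fc v.1 v.2.1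
      ∧ facL vl fr fc v.1 v.2.1 * (unb kp mn g v : ℝ) ≤ R := by
  intro v hv
  have h1 := (LevC.mem_unV hv).2.1
  have h2 : (0 : ℝ) ≤ unb kp mn g v := by exact_mod_cast LevC.unb_nonneg H hv
  have h3 : (2 : ℝ) * unb kp mn g v ≤ R := by exact_mod_cast Lv.two_unb H hv
  have h4 : 0 ≤ facL vl fr fc v.1 v.2.1 ∧ facL vl fr fc v.1 v.2.1 ≤ 2 := by
    unfold facL
    split_ifs
    · exact hr _ h1
    · exact hc _ h1
  exact ⟨h4.1, (mul_le_mul_of_nonneg_right h4.2 h2).trans h3⟩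

/-- **REGIME L, THE CLOSING, factors `fr` (value one) and `fc` (cliques)**: only the rows `z` not in `L` have a claim
(`R ≤ 2 A³`), its sum runs over the cells `y` not in `L` (`R ≤ 2 B³`) -/
theorem LevC.close_L6 (Lv : LevC n U ho vl kp mn pc (fun u i => mn i u) g f)
    (H : PCon R n t s mu U ho vl kp mn pc ar be kq NN sg nu) (hR : 65 ≤ R)
    (hA : ∀ i < n, 2 * (t i + 1) ≤ R) (fr fc : ℕ → ℝ)
    {L : Finset ℕ} (hL : L = lightU n s (unV n U g) fun v => {v.2.1})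
    (h2 : ∀ z < n, z ∉ L → R ≤ 2 * (t z + 1) ^ 3 → (∀ y < n, y ∉ L → R ≤ 2 * (t y + 1) ^ 3) →
      mu z - s z + 1 ≤ ∑ y ∈ (range n).erase z, rnE U ho vl pc be g z y →
      ∑ y ∈ ((range n).erase z).filter (fun y => y ∉ L),
        (((t y : ℝ) + 1) / ((t z : ℝ) + 1 + ((t y : ℝ) + 1)) * (rnE U ho vl pc be g z y : ℝ)
        + ((1 - ((t y : ℝ) + 1) / ((t z : ℝ) + 1 + ((t y : ℝ) + 1)))
            * rnHl n U ho g (thL R vl kp mn g fr fc) z y
          - ((t y : ℝ) + 1) / ((t z : ℝ) + 1 + ((t y : ℝ) + 1))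
            * rnSl n U ho g (thL R vl kp mn g fr fc) z y))
      ≤ (mu z : ℝ) - s z + ((t z : ℝ) + 1) / ((R : ℝ) + 1)) : False := by
  have h3 : ∀ y < n, y ∉ L → R ≤ 2 * (t y + 1) ^ 3 := by
    intro y hy hyL
    by_contra hcon
    push Not at hcon
    rw [hL] at hyL
    exact hyL (Lv.light5 H hR hA hy hcon)
  refine Lv.close_theta5 H (thL R vl kp mn g fr fc) (L := L) hL ?_ (H.sum_A_lt _)
  intro z hz hzL hz1
  exact h2 z hz hzL (h3 z hz hzL) h3 hz1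

end CsL

end Pool.Agent.Lib.MP_f04ccf_co
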