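import Pool.Agent.Lib.MP_f04ccf_co.M.CsL

/-!
MP_f04ccf_co, TEXT D, regime L: **the row from the column sum with the slacks of the items** (`csShare`, `csShareJ`,
`csRowTh`, `csRowL` with a slack `ρ u` of every hosted plain item and `σ u` of every served item, any sign).
-/

set_option autoImplicit false

namespace Pool.Agent.Lib.MP_f04ccf_co

open Finset

attribute [local instance] Classical.propDecidable

section CsLR

variable {ι : Type*} {R : ℤ} {n : ℕ} {t s mu : ℕ → ℤ} {U : Finset ι} {ho : ι → ℕ} {vl : ι → ℤ}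
  {kp mn : ℕ → ι → ℤ} {pc ar : ι → ℤ} {be kq NN sg : ℕ → ℕ → ℤ} {nu : ℕ → ι → ℤ} {z y : ℕ}
  {φ : ι → ℕ → ℤ} {g : ℕ → ι → ℕ} {f : ι → ℕ}

/-- `csShare` with slacks -/
theorem LevC.csShareR (C : LevC n U ho vl kp mn pc φ g f)
    (H : PCon R n t s mu U ho vl kp mn pc ar be kq NN sg nu) (hz : z < n) {J : Finset ℕ}
    (hJ : J ⊆ (range n).erase z) {cr : ℕ → ι → ℝ}
    {w : ℕ → ℝ} (hw : ∀ y ∈ J, 0 ≤ w y)
    (hJ0 : ∀ y ∈ (range n).erase z, y ∉ J → be z y = 0)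
    {c : ℝ} (hc0 : 0 < c) {τ : ℝ} (hτ : 0 ≤ τ)
    -- the columns
    {V : ℕ → Finset ι} (hV : ∀ y ∈ J, V y ⊆ U.filter fun u => ho u = y ∧ g z u ≠ 0) {r : ℕ → ℝ}
    (hcol : ∀ y ∈ J, 2 * (c * ((be z y : ℝ) + ∑ u ∈ V y, (g z u : ℝ)))
        + 2 * ∑ u ∈ hsZ U ho pc z, cr y u + r y
      ≤ 2 * ((t y : ℝ) * ((mu z : ℝ) - s z)) + 2 * ((R : ℝ) - t y)
        + 2 * ∑ u ∈ V y, ((msP kp mn z (g z) u : ℝ) + (rnA n kp be z y u : ℝ)))
    -- the row test
    {KT : Finset ι} (hKT : KT ⊆ U.filter fun u => g z u ≠ 0) {lv : ι → ℕ} {rT : ℝ}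
    (hT : 2 * (c * (∑ u ∈ hsZ U ho pc z, (vl u : ℝ) + ∑ u ∈ KT, (lv u : ℝ))) + rT
      ≤ 2 * ((R : ℝ) * ((mu z : ℝ) - s z)) + 2 * ∑ u ∈ KT, (msP kp mn z lv u : ℝ))
    -- the shares
    {X Y : ι × ℕ × ℕ → ℝ} (hX : ∀ v ∈ unV n U g, 0 ≤ X v) (hY : ∀ v ∈ unV n U g, 0 ≤ Y v)
    {F : Finset (ι × ℕ × ℕ)} (hF : F ⊆ unV n U g)
    (hpc : ∀ v ∈ unV n U g, ho v.1 = z → pc v.1 ≠ 0 → X v ≤ w v.2.1)
    {ρ σ : ι → ℝ}
    (hB : ∀ u ∈ hsZ U ho pc z, xIt n g X u + ρ u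
      ≤ ∑ y ∈ J, w y / c * cr y u + τ * (c * (vl u : ℝ)))
    (hS : ∀ u ∈ U, g z u ≠ 0 → yIt g Y z u + σ u
      ≤ (if ho u ∈ J ∧ u ∈ V (ho u) then w (ho u) * (g z u : ℝ)
          - w (ho u) / c * ((msP kp mn z (g z) u : ℝ) + (rnA n kp be z (ho u) u : ℝ)) else 0)
        + τ * (if u ∈ KT then c * (lv u : ℝ) - (msP kp mn z lv u : ℝ) else 0)) :
    ∑ v ∈ F.filter (fun v => ho v.1 = z), X v + ∑ v ∈ F.filter (fun v => v.2.1 = z), Y v
        + (∑ u ∈ hsZ U ho pc z, ρ u + ∑ u ∈ U.filter (fun u => g z u ≠ 0), σ u)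
        + (1 / 2) * (∑ y ∈ J, w y / c * r y + τ * rT)
      ≤ (∑ y ∈ J, w y / c * (t y : ℝ) + τ * R) * ((mu z : ℝ) - s z)
        + ∑ y ∈ J, w y / c * ((R : ℝ) - t y) := by
  have hL := C.csLoad H hz hX hY hF
  -- the hosted items
  have h1 : ∑ u ∈ U.filter (fun u => ho u = z), xIt n g X u
      ≤ ∑ u ∈ hsZ U ho pc z, xIt n g X u + ∑ y ∈ J, w y * (be z y : ℝ) := by
    rw [← sum_filter_add_sum_filter_not (U.filter fun u => ho u = z) (fun u => pc u = 0),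
      filter_filter]
    refine add_le_add (le_of_eq rfl) ?_
    have h2 : ∀ u ∈ (U.filter fun u => ho u = z).filter (fun u => ¬ pc u = 0),
        xIt n g X u ≤ ∑ i ∈ range n, w i * (g i u : ℝ) := by
      intro u hu
      obtain ⟨h3, h4⟩ := mem_filter.1 hu
      obtain ⟨h5, h6⟩ := mem_filter.1 h3
      unfold xIt
      refine sum_le_sum fun i hi => ?_
      have h7 : ∀ j ∈ range (g i u), X (u, i, j) ≤ w i := by
        intro j hj
        refine hpc (u, i, j) ?_ h6 h4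
        have h8 := C.two H u h5 i (mem_range.1 hi)
        have h9 := mem_range.1 hj
        simp only [unV, mem_filter, mem_product, mem_range]
        exact ⟨⟨h5, mem_range.1 hi, by omega⟩, h9⟩
      refine (sum_le_sum h7).trans (le_of_eq ?_)
      rw [sum_const, card_range, nsmul_eq_mul]
      ring
    refine (sum_le_sum h2).trans (le_of_eq ?_)
    rw [sum_comm]
    have h3 : ∀ i ∈ range n, ∑ u ∈ (U.filter fun u => ho u = z).filter (fun u => ¬ pc u = 0),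
        w i * (g i u : ℝ) = w i * (be z i : ℝ) := by
      intro i hi
      rw [← mul_sum]
      congr 1
      have h4 : ∑ u ∈ (U.filter fun u => ho u = z).filter (fun u => ¬ pc u = 0), (g i u : ℤ)
          = be z i := by
        rw [← H.pcb z hz i (mem_range.1 hi),
          ← sum_filter_add_sum_filter_not (U.filter fun u => ho u = z)
          (fun u => pc u = 0) (fun u => pc u * kp i u)]
        have e2 : ∑ u ∈ (U.filter fun u => ho u = z).filter (fun u => pc u = 0), pc u * kp i u = 0 :=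
          sum_eq_zero fun u hu => by rw [(mem_filter.1 hu).2, zero_mul]
        rw [e2, zero_add]
        refine sum_congr rfl fun u hu => ?_
        obtain ⟨h5, h6⟩ := mem_filter.1 hu
        have h7 := (mem_filter.1 h5).1
        rw [C.lev_pc H h7 h6 (mem_range.1 hi)]
        rcases H.pc01 u h7 with h8 | h8
        · exact absurd h8 h6
        · rw [h8, one_mul]
      rw [← h4]
      push_cast
      rfl
    rw [sum_congr rfl h3]
    refine (sum_subset (hJ.trans (erase_subset _ _)) fun i hi hi' => ?_).symm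
    by_cases h4 : i = z
    · rw [h4]
      have h5 : be z z = 0 := by
        rw [← H.pcb z hz z hz]
        refine sum_eq_zero fun u hu => ?_
        obtain ⟨h6, h7⟩ := mem_filter.1 hu
        have h8 := H.kh u h6
        rw [h7] at h8
        rw [h8, mul_zero]
      rw [h5]
      norm_num
    · rw [hJ0 i (mem_erase.2 ⟨h4, hi⟩) hi']
      norm_num
  -- the served items
  have h2 : ∑ u ∈ U.filter (fun u => g z u ≠ 0), yIt g Y z u
        + ∑ u ∈ U.filter (fun u => g z u ≠ 0), σ u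
      ≤ ∑ y ∈ J, ∑ u ∈ V y, (w y * (g z u : ℝ)
          - w y / c * ((msP kp mn z (g z) u : ℝ) + (rnA n kp be z y u : ℝ)))
        + τ * ∑ u ∈ KT, (c * (lv u : ℝ) - (msP kp mn z lv u : ℝ)) := by
    rw [← sum_add_distrib]
    refine (sum_le_sum fun u hu => hS u (mem_filter.1 hu).1 (mem_filter.1 hu).2).trans
      (le_of_eq ?_)
    rw [sum_add_distrib, ← mul_sum, ← sum_filter, ← sum_filter]
    have e2 : (U.filter fun u => g z u ≠ 0).filter (fun u => u ∈ KT) = KT := by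
      ext u
      simp only [mem_filter]
      exact ⟨fun h => h.2, fun h => ⟨mem_filter.1 (hKT h), h⟩⟩
    rw [e2]
    congr 1
    rw [← sum_fiberwise_of_maps_to (t := J) (g := fun u => ho u)
      fun u hu => (mem_filter.1 hu).2.1]
    refine sum_congr rfl fun y hy => ?_
    have e3 : ((U.filter fun u => g z u ≠ 0).filter fun u => ho u ∈ J ∧ u ∈ V (ho u)).filter
        (fun u => ho u = y) = V y := by
      ext u
      simp only [mem_filter]
      constructor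
      · rintro ⟨⟨-, -, h3⟩, h4⟩
        rw [h4] at h3
        exact h3
      · intro h3
        obtain ⟨h4, h5, h6⟩ := mem_filter.1 (hV y hy h3)
        refine ⟨⟨⟨h4, h6⟩, ?_, ?_⟩, h5⟩
        · rw [h5]
          exact hy
        · rw [h5]
          exact h3
    rw [e3]
    refine sum_congr rfl fun u hu => ?_
    rw [(mem_filter.1 (hV y hy hu)).2.1]
  -- the hosted plain items
  have h3 := sum_le_sum hB
  rw [sum_add_distrib, sum_add_distrib, sum_comm (s := hsZ U ho pc z) (t := J), ← mul_sum,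
    ← mul_sum] at h3
  -- the columns
  have h4 : ∀ y ∈ J, w y * ((be z y : ℝ) + ∑ u ∈ V y, (g z u : ℝ))
        + ∑ u ∈ hsZ U ho pc z, w y / c * cr y u
        + (1 / 2) * (w y / c * r y)
      ≤ w y / c * (t y : ℝ) * ((mu z : ℝ) - s z) + w y / c * ((R : ℝ) - t y)
        + w y / c * ∑ u ∈ V y, ((msP kp mn z (g z) u : ℝ) + (rnA n kp be z y u : ℝ)) := by
    intro y hy
    have h5 := mul_le_mul_of_nonneg_left (hcol y hy) (div_nonneg (hw y hy) hc0.le)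
    have h6 : w y / c * (2 * (c * ((be z y : ℝ) + ∑ u ∈ V y, (g z u : ℝ))))
        = 2 * (w y * ((be z y : ℝ) + ∑ u ∈ V y, (g z u : ℝ))) := by
      field_simp
    rw [← mul_sum]
    nlinarith [h5, h6]
  have h5 := sum_le_sum h4
  rw [sum_add_distrib, sum_add_distrib, sum_add_distrib, sum_add_distrib, ← sum_mul,
    ← mul_sum] at h5
  have h6 := mul_le_mul_of_nonneg_left hT hτ
  have h7 : ∑ y ∈ J, ∑ u ∈ V y, (w y * (g z u : ℝ)
          - w y / c * ((msP kp mn z (g z) u : ℝ) + (rnA n kp be z y u : ℝ)))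
      = ∑ y ∈ J, w y * ∑ u ∈ V y, (g z u : ℝ)
        - ∑ y ∈ J, w y / c * ∑ u ∈ V y,
          ((msP kp mn z (g z) u : ℝ) + (rnA n kp be z y u : ℝ)) := by
    rw [← sum_sub_distrib]
    refine sum_congr rfl fun y _ => ?_
    rw [sum_sub_distrib, ← mul_sum, ← mul_sum]
  have h8 : ∑ y ∈ J, w y * ((be z y : ℝ) + ∑ u ∈ V y, (g z u : ℝ))
      = ∑ y ∈ J, w y * (be z y : ℝ) + ∑ y ∈ J, w y * ∑ u ∈ V y, (g z u : ℝ) := by
    rw [← sum_add_distrib]
    exact sum_congr rfl fun y _ => by ring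
  have h9 : ∑ u ∈ KT, (c * (lv u : ℝ) - (msP kp mn z lv u : ℝ))
      = c * ∑ u ∈ KT, (lv u : ℝ) - ∑ u ∈ KT, (msP kp mn z lv u : ℝ) := by
    rw [sum_sub_distrib, ← mul_sum]
  rw [h7, h9] at h2
  rw [h8] at h5
  nlinarith [hL, h1, h2, h3, h5, h6]

/-- `csShareJ` with slacks -/
theorem LevC.csShareJR (C : LevC n U ho vl kp mn pc φ g f)
    (H : PCon R n t s mu U ho vl kp mn pc ar be kq NN sg nu) (hz : z < n) {J : Finset ℕ}
    (hJ : J ⊆ (range n).erase z) {cr : ℕ → ι → ℝ}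
    {w : ℕ → ℝ} (hw : ∀ y ∈ J, 0 ≤ w y)
    {c : ℝ} (hc0 : 0 < c) {τ : ℝ} (hτ : 0 ≤ τ)
    {V : ℕ → Finset ι} (hV : ∀ y ∈ J, V y ⊆ U.filter fun u => ho u = y ∧ g z u ≠ 0) {r : ℕ → ℝ}
    (hcol : ∀ y ∈ J, 2 * (c * ((be z y : ℝ) + ∑ u ∈ V y, (g z u : ℝ)))
        + 2 * ∑ u ∈ hsZ U ho pc z, cr y u + r y
      ≤ 2 * ((t y : ℝ) * ((mu z : ℝ) - s z)) + 2 * ((R : ℝ) - t y)
        + 2 * ∑ u ∈ V y, ((msP kp mn z (g z) u : ℝ) + (rnA n kp be z y u : ℝ)))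
    {KT : Finset ι} (hKT : KT ⊆ U.filter fun u => g z u ≠ 0) {lv : ι → ℕ} {rT : ℝ}
    (hT : 2 * (c * (∑ u ∈ hsZ U ho pc z, (vl u : ℝ) + ∑ u ∈ KT, (lv u : ℝ))) + rT
      ≤ 2 * ((R : ℝ) * ((mu z : ℝ) - s z)) + 2 * ∑ u ∈ KT, (msP kp mn z lv u : ℝ))
    {X Y : ι × ℕ × ℕ → ℝ} (hX : ∀ v ∈ unV n U g, 0 ≤ X v) (hY : ∀ v ∈ unV n U g, 0 ≤ Y v)
    {F : Finset (ι × ℕ × ℕ)} (hF : F ⊆ unV n U g)
    (hpc : ∀ v ∈ unV n U g, ho v.1 = z → pc v.1 ≠ 0 → v.2.1 ∈ J → X v ≤ w v.2.1)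
    (hpc0 : ∀ v ∈ unV n U g, ho v.1 = z → pc v.1 ≠ 0 → v.2.1 ∉ J → X v ≤ 0)
    {ρ σ : ι → ℝ}
    (hB : ∀ u ∈ hsZ U ho pc z, xIt n g X u + ρ u
      ≤ ∑ y ∈ J, w y / c * cr y u + τ * (c * (vl u : ℝ)))
    (hS : ∀ u ∈ U, g z u ≠ 0 → yIt g Y z u + σ u
      ≤ (if ho u ∈ J ∧ u ∈ V (ho u) then w (ho u) * (g z u : ℝ)
          - w (ho u) / c * ((msP kp mn z (g z) u : ℝ) + (rnA n kp be z (ho u) u : ℝ)) else 0)
        + τ * (if u ∈ KT then c * (lv u : ℝ) - (msP kp mn z lv u : ℝ) else 0)) :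
    ∑ v ∈ F.filter (fun v => ho v.1 = z), X v + ∑ v ∈ F.filter (fun v => v.2.1 = z), Y v
        + (∑ u ∈ hsZ U ho pc z, ρ u + ∑ u ∈ U.filter (fun u => g z u ≠ 0), σ u)
        + (1 / 2) * (∑ y ∈ J, w y / c * r y + τ * rT)
      ≤ (∑ y ∈ J, w y / c * (t y : ℝ) + τ * R) * ((mu z : ℝ) - s z)
        + ∑ y ∈ J, w y / c * ((R : ℝ) - t y) := by
  obtain ⟨w', hw'⟩ : ∃ w' : ℕ → ℝ, w' = fun y => if y ∈ J then w y else 0 := ⟨_, rfl⟩
  obtain ⟨V', hV'⟩ : ∃ V' : ℕ → Finset ι, V' = fun y => if y ∈ J then V y else ∅ := ⟨_, rfl⟩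
  have hwJ : ∀ y ∈ J, w' y = w y := fun y hy => by rw [hw']; exact if_pos hy
  have hw0 : ∀ y, y ∉ J → w' y = 0 := fun y hy => by rw [hw']; exact if_neg hy
  have hVJ : ∀ y ∈ J, V' y = V y := fun y hy => by rw [hV']; exact if_pos hy
  have hV0 : ∀ y, y ∉ J → V' y = ∅ := fun y hy => by rw [hV']; exact if_neg hy
  have hsum : ∀ q : ℕ → ℝ, ∑ y ∈ (range n).erase z, w' y / c * q y = ∑ y ∈ J, w y / c * q y := by
    intro q
    refine (sum_subset hJ fun y hy hy' => ?_).symm.trans (sum_congr rfl fun y hy => ?_)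
    · rw [hw0 y hy', zero_div, zero_mul]
    · rw [hwJ y hy]
  have h1 := C.csShareR H hz (J := (range n).erase z) (Subset.refl _) (cr := cr) (w := w')
    (fun y _ => by
      by_cases h2 : y ∈ J
      · rw [hwJ y h2]
        exact hw y h2
      · rw [hw0 y h2])
    (fun y hy hy' => absurd hy hy') hc0 hτ (V := V')
    (fun y _ => by
      by_cases h2 : y ∈ J
      · rw [hVJ y h2]
        exact hV y h2
      · rw [hV0 y h2]
        exact empty_subset _)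
    (r := fun y => if y ∈ J then r y else
      2 * ((t y : ℝ) * ((mu z : ℝ) - s z)) + 2 * ((R : ℝ) - t y)
        + 2 * ∑ u ∈ V' y, ((msP kp mn z (g z) u : ℝ) + (rnA n kp be z y u : ℝ))
        - (2 * (c * ((be z y : ℝ) + ∑ u ∈ V' y, (g z u : ℝ)))
        + 2 * ∑ u ∈ hsZ U ho pc z, cr y u))
    (fun y _ => by
      beta_reduce
      by_cases h2 : y ∈ J
      · rw [if_pos h2, hVJ y h2]
        exact hcol y h2
      · rw [if_neg h2]
        linarith)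
    hKT hT hX hY hF
    (fun v hv h2 h3 => by
      by_cases h4 : v.2.1 ∈ J
      · rw [hwJ _ h4]
        exact hpc v hv h2 h3 h4
      · rw [hw0 _ h4]
        exact hpc0 v hv h2 h3 h4)
    (fun u hu => by
      rw [hsum]
      exact hB u hu)
    (fun u hu h2 => by
      refine (hS u hu h2).trans (le_of_eq ?_)
      congr 1
      have h3 : ho u ∈ (range n).erase z := by
        refine mem_erase.2 ⟨fun h3 => h2 ?_, mem_range.2 (H.hlt u hu)⟩
        rw [← h3]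
        exact C.home u hu
      by_cases h4 : ho u ∈ J
      · rw [hwJ _ h4, hVJ _ h4]
        by_cases h5 : u ∈ V (ho u)
        · rw [if_pos ⟨h4, h5⟩, if_pos ⟨h3, h5⟩]
        · rw [if_neg fun h => h5 h.2, if_neg fun h => h5 h.2]
      · rw [if_neg fun h => h4 h.1, if_neg]
        rintro ⟨-, h5⟩
        rw [hV0 _ h4] at h5
        exact notMem_empty _ h5)
  rw [hsum, hsum, hsum] at h1
  have h2 : ∑ y ∈ J, w y / c * (if y ∈ J then r y else
      2 * ((t y : ℝ) * ((mu z : ℝ) - s z)) + 2 * ((R : ℝ) - t y)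
        + 2 * ∑ u ∈ V' y, ((msP kp mn z (g z) u : ℝ) + (rnA n kp be z y u : ℝ))
        - (2 * (c * ((be z y : ℝ) + ∑ u ∈ V' y, (g z u : ℝ)))
        + 2 * ∑ u ∈ hsZ U ho pc z, cr y u))
      = ∑ y ∈ J, w y / c * r y := sum_congr rfl fun y hy => by rw [if_pos hy]
  rw [h2] at h1
  exact h1

/-- **the row with slacks in the letters of `close_theta5`**, any weights `w` in `[0, 1]`, any `c`, `τ` -/
theorem LevC.csRowThR (C : LevC n U ho vl kp mn pc φ g f)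
    (H : PCon R n t s mu U ho vl kp mn pc ar be kq NN sg nu) (hz : z < n) {L : Finset ℕ}
    (hzL : z ∉ L) {J : Finset ℕ} (hJ : J ⊆ (range n).erase z)
    (hLJ : ∀ y ∈ (range n).erase z, y ∉ L → y ∈ J)
    {fr fc : ℕ → ℝ} (hf : ∀ v ∈ unV n U g, 0 ≤ facL vl fr fc v.1 v.2.1
      ∧ facL vl fr fc v.1 v.2.1 * (unb kp mn g v : ℝ) ≤ R)
    {w : ℕ → ℝ} (hw : ∀ y < n, 0 ≤ w y ∧ w y ≤ 1) {cr : ℕ → ι → ℝ}
    {c : ℝ} (hc0 : 0 < c) {τ : ℝ} (hτ : 0 ≤ τ)
    {V : ℕ → Finset ι} (hV : ∀ y ∈ J, V y ⊆ U.filter fun u => ho u = y ∧ g z u ≠ 0) {r : ℕ → ℝ}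
    (hcol : ∀ y ∈ J, 2 * (c * ((be z y : ℝ) + ∑ u ∈ V y, (g z u : ℝ)))
        + 2 * ∑ u ∈ hsZ U ho pc z, cr y u + r y
      ≤ 2 * ((t y : ℝ) * ((mu z : ℝ) - s z)) + 2 * ((R : ℝ) - t y)
        + 2 * ∑ u ∈ V y, ((msP kp mn z (g z) u : ℝ) + (rnA n kp be z y u : ℝ)))
    {KT : Finset ι} (hKT : KT ⊆ U.filter fun u => g z u ≠ 0) {lv : ι → ℕ} {rT : ℝ}
    (hT : 2 * (c * (∑ u ∈ hsZ U ho pc z, (vl u : ℝ) + ∑ u ∈ KT, (lv u : ℝ))) + rT
      ≤ 2 * ((R : ℝ) * ((mu z : ℝ) - s z)) + 2 * ∑ u ∈ KT, (msP kp mn z lv u : ℝ))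
    {ρ σ : ι → ℝ}
    (hB : ∀ u ∈ hsZ U ho pc z, ∑ i ∈ J, ((g i u : ℝ) * w i
        + (1 - w i) * facL vl fr fc u i * (msL kp mn g u i : ℝ) / R) + ρ u
      ≤ ∑ y ∈ J, w y / c * cr y u + τ * (c * (vl u : ℝ)))
    (hS : ∀ u ∈ U, g z u ≠ 0 →
      (if ho u ∈ J then w (ho u) * ((g z u : ℝ) - facL vl fr fc u z * (msL kp mn g u z : ℝ) / R)
        else 0) + σ u
      ≤ (if ho u ∈ J ∧ u ∈ V (ho u) then w (ho u) * (g z u : ℝ)
          - w (ho u) / c * ((msP kp mn z (g z) u : ℝ) + (rnA n kp be z (ho u) u : ℝ)) else 0)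
        + τ * (if u ∈ KT then c * (lv u : ℝ) - (msP kp mn z lv u : ℝ) else 0)) :
    ∑ y ∈ ((range n).erase z).filter (fun y => y ∉ L),
        (w y * (rnE U ho vl pc be g z y : ℝ)
        + ((1 - w y) * rnHl n U ho g (thL R vl kp mn g fr fc) z y
          - w y * rnSl n U ho g (thL R vl kp mn g fr fc) z y))
        + (∑ u ∈ hsZ U ho pc z, ρ u + ∑ u ∈ U.filter (fun u => g z u ≠ 0), σ u)
        + (1 / 2) * (∑ y ∈ J, w y / c * r y + τ * rT)
      ≤ (∑ y ∈ J, w y / c * (t y : ℝ) + τ * R) * ((mu z : ℝ) - s z)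
        + ∑ y ∈ J, w y / c * ((R : ℝ) - t y) := by
  have hR0 : (0 : ℝ) < R := by exact_mod_cast R_pos H
  have hJn : J ⊆ range n := hJ.trans (erase_subset _ _)
  have hth : ∀ v ∈ unV n U g, 0 ≤ thL R vl kp mn g fr fc v ∧ thL R vl kp mn g fr fc v ≤ 1 := by
    intro v hv
    obtain ⟨h1, h2⟩ := hf v hv
    have h3 : (0 : ℝ) ≤ unb kp mn g v := by exact_mod_cast LevC.unb_nonneg H hv
    unfold thL
    constructor
    · rw [sub_nonneg, div_le_one hR0]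
      exact h2
    · have := div_nonneg (mul_nonneg h1 h3) hR0.le
      linarith
  have h5 := C.row_theta5 H hz hzL (F := freeU (unV n U g) (fun v => ho v.1) (fun v => {v.2.1}) L)
    rfl (thL R vl kp mn g fr fc) w
  have hFm : ∀ v, v ∈ freeU (unV n U g) (fun v => ho v.1) (fun v => {v.2.1}) L
      ↔ v ∈ unV n U g ∧ ho v.1 ∉ L ∧ v.2.1 ∉ L := by
    intro v
    unfold freeU
    rw [mem_filter, disjoint_singleton_left]
  have h6 := C.csShareJR H hz hJ (cr := cr) (fun y hy => (hw y (mem_range.1 (hJn hy))).1) hc0 hτ hV hcol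
    hKT hT (X := fun v => if v.2.1 ∈ J then 1 - (1 - w v.2.1) * thL R vl kp mn g fr fc v else 0)
    (Y := fun v => if ho v.1 ∈ J then w (ho v.1) * thL R vl kp mn g fr fc v else 0)
    (fun v hv => by
      beta_reduce
      by_cases h7 : v.2.1 ∈ J
      · rw [if_pos h7]
        obtain ⟨h8, h9⟩ := hw _ (LevC.mem_unV hv).2.1
        obtain ⟨h10, h11⟩ := hth v hv
        nlinarith
      · rw [if_neg h7])
    (fun v hv => by
      beta_reduce
      by_cases h7 : ho v.1 ∈ J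
      · rw [if_pos h7]
        exact mul_nonneg (hw _ (mem_range.1 (hJn h7))).1 (hth v hv).1
      · rw [if_neg h7])
    (F := freeU (unV n U g) (fun v => ho v.1) (fun v => {v.2.1}) L)
    (fun v hv => ((hFm v).1 hv).1)
    (fun v hv h7 h8 h9 => by
      beta_reduce
      rw [if_pos h9]
      have h10 : unb kp mn g v = 0 := by
        obtain ⟨h11, h12, h13⟩ := LevC.mem_unV hv
        rcases C.typ v.1 h11 with ⟨h14, h15, h16, h17, h18⟩ | ⟨h14, -⟩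
        · have h19 : v.2.1 = f v.1 := by
            by_contra h20
            have h21 := C.le v.1 h11 _ h12
            rw [h18 _ h12 h20] at h21
            omega
          unfold unb
          rw [h19, h17]
          simp
        · exact absurd h14 h8
      unfold thL
      rw [h10]
      simp)
    (fun v _ _ _ h9 => by
      beta_reduce
      rw [if_neg h9])
    (fun u hu => by
      rw [xItL hJn]
      exact hB u hu)
    (fun u hu h7 => by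
      rw [yItL]
      exact hS u hu h7)
  rw [← h5]
  refine le_trans (le_of_eq ?_) h6
  congr 1
  congr 1
  congr 1
  · refine sum_congr rfl fun v hv => ?_
    obtain ⟨h7, h8⟩ := mem_filter.1 hv
    obtain ⟨h9, h10, h11⟩ := (hFm v).1 h7
    rw [if_pos]
    refine hLJ _ (mem_erase.2 ⟨?_, mem_range.2 (LevC.mem_unV h9).2.1⟩) h11
    rw [← h8]
    exact C.main_ne h9
  · refine sum_congr rfl fun v hv => ?_
    obtain ⟨h7, h8⟩ := mem_filter.1 hv
    obtain ⟨h9, h10, h11⟩ := (hFm v).1 h7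
    rw [if_pos]
    refine hLJ _ (mem_erase.2 ⟨?_, mem_range.2 (H.hlt _ (LevC.mem_unV h9).1)⟩) h10
    rw [← h8]
    exact fun h => C.main_ne h9 h.symm

/-- **THE ROW CLAIM OF REGIME L FROM THE COLUMN SUM, WITH SLACKS**: `w y = A y / (A z + A y)`, weights `csL`,
`csT`; what is left is one (in)equality per item and the remainders -/
theorem LevC.csRowLR (C : LevC n U ho vl kp mn pc φ g f)
    (H : PCon R n t s mu U ho vl kp mn pc ar be kq NN sg nu) (hz : z < n)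
    (hA : ∀ i < n, 2 * (t i + 1) ≤ R) {L : Finset ℕ}
    (hzL : z ∉ L) {J : Finset ℕ} (hJ : J ⊆ (range n).erase z)
    (hLJ : ∀ y ∈ (range n).erase z, y ∉ L → y ∈ J)
    {fr fc : ℕ → ℝ} (hf : ∀ v ∈ unV n U g, 0 ≤ facL vl fr fc v.1 v.2.1
      ∧ facL vl fr fc v.1 v.2.1 * (unb kp mn g v : ℝ) ≤ R) {cr : ℕ → ι → ℝ}
    {V : ℕ → Finset ι} (hV : ∀ y ∈ J, V y ⊆ U.filter fun u => ho u = y ∧ g z u ≠ 0) {r : ℕ → ℝ}
    (hcol : ∀ y ∈ J, 2 * (((R : ℝ) - ((t z : ℝ) + 1)) * ((be z y : ℝ) + ∑ u ∈ V y, (g z u : ℝ)))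
        + 2 * ∑ u ∈ hsZ U ho pc z, cr y u + r y
      ≤ 2 * ((t y : ℝ) * ((mu z : ℝ) - s z)) + 2 * ((R : ℝ) - t y)
        + 2 * ∑ u ∈ V y, ((msP kp mn z (g z) u : ℝ) + (rnA n kp be z y u : ℝ)))
    {KT : Finset ι} (hKT : KT ⊆ U.filter fun u => g z u ≠ 0) {lv : ι → ℕ} {rT : ℝ}
    (hT : 2 * (((R : ℝ) - ((t z : ℝ) + 1)) * (∑ u ∈ hsZ U ho pc z, (vl u : ℝ)
        + ∑ u ∈ KT, (lv u : ℝ))) + rT
      ≤ 2 * ((R : ℝ) * ((mu z : ℝ) - s z)) + 2 * ∑ u ∈ KT, (msP kp mn z lv u : ℝ))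
    {ρ σ : ι → ℝ}
    (hB : ∀ u ∈ hsZ U ho pc z, ∑ i ∈ J, ((g i u : ℝ) * csS ((t z : ℝ) + 1) ((t i : ℝ) + 1)
        + (1 - csS ((t z : ℝ) + 1) ((t i : ℝ) + 1)) * facL vl fr fc u i
          * (msL kp mn g u i : ℝ) / R) + ρ u
      ≤ ∑ y ∈ J, csL R ((t z : ℝ) + 1) (t y) * cr y u
        + csT R ((t z : ℝ) + 1) J (fun i => (t i : ℝ)) * (((R : ℝ) - ((t z : ℝ) + 1)) * (vl u : ℝ)))
    (hS : ∀ u ∈ U, g z u ≠ 0 →
      (if ho u ∈ J then csS ((t z : ℝ) + 1) ((t (ho u) : ℝ) + 1)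
          * ((g z u : ℝ) - facL vl fr fc u z * (msL kp mn g u z : ℝ) / R) else 0) + σ u
      ≤ (if ho u ∈ J ∧ u ∈ V (ho u) then csS ((t z : ℝ) + 1) ((t (ho u) : ℝ) + 1) * (g z u : ℝ)
          - csL R ((t z : ℝ) + 1) (t (ho u))
            * ((msP kp mn z (g z) u : ℝ) + (rnA n kp be z (ho u) u : ℝ)) else 0)
        + csT R ((t z : ℝ) + 1) J (fun i => (t i : ℝ))
          * (if u ∈ KT then ((R : ℝ) - ((t z : ℝ) + 1)) * (lv u : ℝ) - (msP kp mn z lv u : ℝ)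
            else 0)) :
    ∑ y ∈ ((range n).erase z).filter (fun y => y ∉ L),
        (((t y : ℝ) + 1) / ((t z : ℝ) + 1 + ((t y : ℝ) + 1)) * (rnE U ho vl pc be g z y : ℝ)
        + ((1 - ((t y : ℝ) + 1) / ((t z : ℝ) + 1 + ((t y : ℝ) + 1)))
            * rnHl n U ho g (thL R vl kp mn g fr fc) z y
          - ((t y : ℝ) + 1) / ((t z : ℝ) + 1 + ((t y : ℝ) + 1))
            * rnSl n U ho g (thL R vl kp mn g fr fc) z y))
        + (∑ u ∈ hsZ U ho pc z, ρ u + ∑ u ∈ U.filter (fun u => g z u ≠ 0), σ u)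
        + (1 / 2) * (∑ y ∈ J, csL R ((t z : ℝ) + 1) (t y) * r y
          + csT R ((t z : ℝ) + 1) J (fun i => (t i : ℝ)) * rT)
      ≤ (mu z : ℝ) - s z + ∑ y ∈ J, csL R ((t z : ℝ) + 1) (t y) * ((R : ℝ) - t y) := by
  have hC := H.csC hz hA hJ
  have hc := hC.c_pos
  have hw : ∀ y < n, 0 ≤ csS ((t z : ℝ) + 1) ((t y : ℝ) + 1)
      ∧ csS ((t z : ℝ) + 1) ((t y : ℝ) + 1) ≤ 1 := fun y hy => by
    have h6 : (0 : ℝ) ≤ t z := by exact_mod_cast H.t0 z hz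
    have h7 : (0 : ℝ) ≤ t y := by exact_mod_cast H.t0 y hy
    exact ⟨csS_nonneg (by linarith) (by linarith), csS_le_one (by linarith) (by linarith)⟩
  have h1 := C.csRowThR H hz hzL hJ hLJ hf (w := fun y => csS ((t z : ℝ) + 1) ((t y : ℝ) + 1)) hw
    (cr := cr) (c := (R : ℝ) - ((t z : ℝ) + 1)) hc
    (τ := csT R ((t z : ℝ) + 1) J (fun i => (t i : ℝ))) hC.csT_nonneg hV hcol hKT hT hB hS
  have h2 := hC.csT_one
  beta_reduce at h1 h2
  unfold csL at h2 ⊢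
  rw [h2, one_mul] at h1
  unfold csS at h1 ⊢
  exact h1

end CsLR

end Pool.Agent.Lib.MP_f04ccf_co
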