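import Pool.Agent.Lib.MP_f04ccf_co.M.CsA

/-!
MP_f04ccf_co, TEXT D: **the row claim from the column sum** (part (A) of 80's certificate, assembly).

* `LevC.hs_lev`: the levels of the plain hosted items at `y` are the hosted units of the cell;
* `LevC.csRow`: shares `w y` per unit of the cell `y`, weights `w y / c` on the columns, `τ` on the exact row test: the
  own units are paid exactly, every hosted item by its own inequality (46's types);
* `PConC.csT0`: the exact row test with nothing used.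
-/

set_option autoImplicit false

namespace Pool.Agent.Lib.MP_f04ccf_co

open Finset

attribute [local instance] Classical.propDecidable

section CsRow

variable {ι : Type*} {R : ℤ} {n : ℕ} {t s mu : ℕ → ℤ} {U : Finset ι} {ho : ι → ℕ} {vl : ι → ℤ}
  {kp mn : ℕ → ι → ℤ} {pc ar : ι → ℤ} {be kq NN sg : ℕ → ℕ → ℤ} {nu : ℕ → ι → ℤ} {z y : ℕ}
  {φ : ι → ℕ → ℤ} {g : ℕ → ι → ℕ} {f : ι → ℕ}

/-- the levels of the plain hosted items at `y` -/
lemma LevC.hs_lev (C : LevC n U ho vl kp mn pc φ g f)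
    (H : PCon R n t s mu U ho vl kp mn pc ar be kq NN sg nu) (hz : z < n) (hy : y < n) :
    ∑ u ∈ hsZ U ho pc z, (g y u : ℤ)
      = ((rnM U ho vl pc g z y).card : ℤ) + ∑ u ∈ rnC U ho vl pc z, (g y u : ℤ) := by
  have h1 := C.lev_host H hz hy
  have h2 := sum_filter_add_sum_filter_not (U.filter fun u => ho u = z) (fun u => pc u = 0)
    (fun u => (g y u : ℤ))
  have e1 : ∑ u ∈ (U.filter fun u => ho u = z).filter (fun u => ¬ pc u = 0), (g y u : ℤ)
      = be z y := by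
    rw [← H.pcb z hz y hy, ← sum_filter_add_sum_filter_not (U.filter fun u => ho u = z)
      (fun u => pc u = 0) (fun u => pc u * kp y u)]
    have e2 : ∑ u ∈ (U.filter fun u => ho u = z).filter (fun u => pc u = 0), pc u * kp y u = 0 :=
      sum_eq_zero fun u hu => by rw [(mem_filter.1 hu).2, zero_mul]
    rw [e2, zero_add]
    refine sum_congr rfl fun u hu => ?_
    obtain ⟨h3, h4⟩ := mem_filter.1 hu
    have h5 := (mem_filter.1 h3).1
    rw [C.lev_pc H h5 h4 hy]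
    rcases H.pc01 u h5 with h6 | h6
    · exact absurd h6 h4
    · rw [h6, one_mul]
  rw [filter_filter, e1] at h2
  unfold hsZ
  linarith

/-- the units of a cell: PC pairs, served pieces, levels of the plain hosted items -/
lemma LevC.rnE_eq (C : LevC n U ho vl kp mn pc φ g f)
    (H : PCon R n t s mu U ho vl kp mn pc ar be kq NN sg nu) (hz : z < n) (hy : y < n) :
    rnE U ho vl pc be g z y = be z y + be y z + ∑ u ∈ rnK U ho pc g z y, (g z u : ℤ)
      + ∑ u ∈ hsZ U ho pc z, (g y u : ℤ) := by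
  rw [C.hs_lev H hz hy]
  unfold rnE
  ring

/-- **THE ROW FROM THE COLUMN SUM**: shares `w y`, weights `w y / c` on the columns in `J`, `τ` on the exact row test
with the used items `K`; `ℓ u` the further loss of a hosted item -/
theorem LevC.csRow (C : LevC n U ho vl kp mn pc φ g f)
    (H : PConC R n t s mu U ho vl kp mn pc ar be kq NN sg nu) (hz : z < n) {J : Finset ℕ}
    (hJ : J ⊆ (range n).erase z) {P : ℕ → Finset ι} {Y : ℕ → Finset ℕ}
    (hP : ∀ y ∈ J, P y ⊆ hsZ U ho pc z) (hY : ∀ y ∈ J, Y y ⊆ ((range n).erase z).erase y)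
    {w : ℕ → ℝ} (hw : ∀ y ∈ J, 0 ≤ w y)
    (hJ0 : ∀ y ∈ (range n).erase z, y ∉ J → rnE U ho vl pc be g z y = 0)
    {c : ℝ} (hc : c = (R : ℝ) - ((t z : ℝ) + 1)) (hc0 : 0 < c) {τ : ℝ} (hτ : 0 ≤ τ)
    {K : Finset ι} (hK : K ⊆ U) (hKz : ∀ u ∈ K, ho u ≠ z) {lv : ι → ℕ}
    (hlv : ∀ u ∈ K, 1 ≤ lv u) (hlv' : ∀ u ∈ K, (lv u : ℤ) ≤ kp z u) {sv : ℤ}
    (hs : sv ≤ svP n ho vl K lv + svP n ho vl (K.filter fun u => pc u = 0) lv)
    {m b k κ' E W ms N : ℤ} (hm : m = ∑ u ∈ hsZ U ho pc z, vl u)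
    (hb : b = ∑ l ∈ (range n).erase z, (be z l - kq z l))
    (hk : k = ∑ u ∈ K, (lv u : ℤ)) (hκ : κ' = (K.card : ℤ)) (hE : E = m + b + k)
    (hW : W = m + b + k + κ') (hms : ms = ∑ u ∈ K, msP kp mn z lv u)
    (hN : N = ∑ l ∈ (range n).erase z, (be z l - kq z l) * (be z l - kq z l + 1))
    {ℓ : ι → ℝ}
    (hB : ∀ u ∈ hsZ U ho pc z, ∑ y ∈ J, w y * (g y u : ℝ) + ℓ u
      ≤ ∑ y ∈ J, w y / c * (crY R t vl kp mn z y (P y) u : ℝ) + τ * (c * (vl u : ℝ))) :
    ∑ y ∈ (range n).erase z, w y * (rnE U ho vl pc be g z y : ℝ) + ∑ u ∈ hsZ U ho pc z, ℓ u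
        + (∑ y ∈ J, w y / c * (((t y : ℝ) - ((t z : ℝ) + 1)) * (csB n be kq z y (Y y) : ℝ))
          + τ * (c * ((b : ℝ) + k) - ms))
        + (1 / 2) * (∑ y ∈ J, w y / c
            * (csR n U ho vl kp pc be kq sg g z y (mu z - s z) (P y) (Y y) : ℝ)
          + τ * ((2 * (W * (mu z - s z - E)) + (E - κ') * (W + 1) + sv
            + ∑ e ∈ (hsZ U ho pc z).offDiag, min (vl e.1) (vl e.2) - N : ℤ) : ℝ))
      ≤ (∑ y ∈ J, w y / c * (t y : ℝ) + τ * R) * ((mu z : ℝ) - s z)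
        + ∑ y ∈ J, w y / c * ((R : ℝ) - t y)
        + ∑ y ∈ J, w y / c * ∑ u ∈ rnK U ho pc g z y,
          ((msP kp mn z (g z) u : ℝ) + (rnA n kp be z y u : ℝ)) := by
  have h1 := C.csSum H hz (ν := fun y => w y / c) hJ hP hY
    (fun y hy => div_nonneg (hw y hy) hc0.le)
  have h2 := H.csT hz hK hKz hlv hlv' hs hm hb hk hκ
  rw [← hW, ← hE, ← hms, ← hN] at h2
  have h3 : 2 * (c * ((m : ℝ) + b + k)) + ((2 * (W * (mu z - s z - E)) + (E - κ') * (W + 1) + sv
            + ∑ e ∈ (hsZ U ho pc z).offDiag, min (vl e.1) (vl e.2) - N : ℤ) : ℝ)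
      ≤ 2 * ((R : ℝ) * ((mu z : ℝ) - s z)) + 2 * (ms : ℝ) := by
    rw [hc]
    have h4 : 2 * ((R - (t z + 1)) * (m + b + k)) + (2 * (W * (mu z - s z - E))
        + (E - κ') * (W + 1) + sv + ∑ e ∈ (hsZ U ho pc z).offDiag, min (vl e.1) (vl e.2) - N)
        ≤ 2 * (R * (mu z - s z)) + 2 * ms := by
      rw [← hE]
      linarith
    exact_mod_cast h4
  have h4 := mul_le_mul_of_nonneg_left h3 hτ
  have h5 := sum_le_sum hB
  rw [sum_add_distrib, sum_add_distrib, ← mul_sum, ← mul_sum] at h5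
  have h6 : ∑ u ∈ hsZ U ho pc z, (vl u : ℝ) = (m : ℝ) := by
    rw [hm]
    push_cast
    rfl
  rw [h6, sum_comm (s := hsZ U ho pc z) (t := J)] at h5
  have e1 : ∑ y ∈ (range n).erase z, w y * (rnE U ho vl pc be g z y : ℝ)
      = ∑ y ∈ J, w y * ((be z y : ℝ) + (be y z : ℝ) + ∑ u ∈ rnK U ho pc g z y, (g z u : ℝ))
        + ∑ y ∈ J, ∑ u ∈ hsZ U ho pc z, w y * (g y u : ℝ) := by
    rw [← sum_add_distrib]
    refine (sum_subset hJ fun y hy hy' => ?_).symm.trans ?_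
    · rw [hJ0 y hy hy']
      norm_num
    · refine sum_congr rfl fun y hy => ?_
      rw [C.rnE_eq H.toPCon hz (mem_range.1 (mem_of_mem_erase (hJ hy))), ← mul_sum]
      push_cast
      ring
  have e2 : ∑ y ∈ J, w y / c * (((R : ℝ) - ((t z : ℝ) + 1)) * ((be z y : ℝ) + (be y z : ℝ)
          + ∑ u ∈ rnK U ho pc g z y, (g z u : ℝ)))
      = ∑ y ∈ J, w y * ((be z y : ℝ) + (be y z : ℝ) + ∑ u ∈ rnK U ho pc g z y, (g z u : ℝ)) := by
    refine sum_congr rfl fun y _ => ?_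
    rw [← hc]
    field_simp
  rw [e2] at h1
  rw [e1]
  nlinarith [h1, h4, h5]

end CsRow

end Pool.Agent.Lib.MP_f04ccf_co
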