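import Pool.Agent.Lib.MP_f04ccf_co.M.CsB

/-!
MP_f04ccf_co, TEXT D: **the slack of a unit in the column sum certificate as an exact formula**, pure reals
(helper74's 18875 (3); letters of `CsB`: `c = R - A`, cells `l ∈ F`, masses `x l = t l + 1`, `s l = csS A (x l)`).

* `CsC.csT_mul`: `csT c = ((c - ∑ x) + (A + 1) ∑ s)/R`;
* `CsC.credit_eq`: the credit of a hosted unit `= (c - ∑ x)/R + ∑ s l ((A + 1)/R + cr l / c)`, exactly;
* `CsC.dustM`, `CsC.fullM`, `CsC.halfM`: third units, full units, two ends, for ANY lower bound `m l ≤ cr l` of the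
  credit of the other columns (`m l = - A/2`: mean of kept and dropped; `m l = max (t l - A) (- t l)`: one mode each);
* `CsC.servM`: a served unit with `b` misses and `e` arcs; `CsC.servT`: its row test part.
-/

set_option autoImplicit false

namespace Pool.Agent.Lib.MP_f04ccf_co

open Finset

section CsSl

variable {R A : ℝ} {F : Finset ℕ} {t cr : ℕ → ℝ}

/-- the weight of the row test in closed form -/
theorem CsC.csT_mul (H : CsC R A F t) :
    csT R A F t * (R - A)
      = ((R - A - ∑ l ∈ F, (t l + 1)) + (A + 1) * ∑ l ∈ F, csS A (t l + 1)) / R := by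
  have hc := H.c_pos
  have hR0 : 0 < R := by linarith [H.hA, H.hR]
  have h1 : (R - A) * ∑ l ∈ F, csL R A (t l) * t l = ∑ l ∈ F, csS A (t l + 1) * t l := by
    rw [mul_sum]
    refine sum_congr rfl fun l _ => ?_
    unfold csL
    field_simp
  have h2 : ∑ l ∈ F, csS A (t l + 1) * t l
      = ∑ l ∈ F, (t l + 1) - (A + 1) * ∑ l ∈ F, csS A (t l + 1) := by
    rw [mul_sum, ← sum_sub_distrib]
    refine sum_congr rfl fun l hl => ?_
    have h3 : A + (t l + 1) ≠ 0 := by
      have := H.t0 l hl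
      have := H.hA
      positivity
    have h4 := csS_mul (A := A) (x := t l + 1) h3
    linear_combination h4
  rw [h2] at h1
  unfold csT
  rw [div_mul_eq_mul_div]
  congr 1
  linear_combination -h1

/-- **the credit of a hosted unit, exactly** -/
theorem CsC.credit_eq (H : CsC R A F t) :
    ∑ l ∈ F, csL R A (t l) * cr l + csT R A F t * (R - A)
      = (R - A - ∑ l ∈ F, (t l + 1)) / R
        + ∑ l ∈ F, csS A (t l + 1) * ((A + 1) / R + cr l / (R - A)) := by
  rw [H.csT_mul]
  have h1 : ∑ l ∈ F, csS A (t l + 1) * ((A + 1) / R + cr l / (R - A))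
      = (A + 1) / R * ∑ l ∈ F, csS A (t l + 1) + ∑ l ∈ F, csL R A (t l) * cr l := by
    rw [mul_sum, ← sum_add_distrib]
    refine sum_congr rfl fun l _ => ?_
    unfold csL
    ring
  rw [h1]
  ring

/-- the mean of kept and dropped: `A/R ≥ A/(2c)` in the rows up to `R/2` -/
lemma CsC.mean_coef (H : CsC R A F t) :
    1 / R ≤ (A + 1) / R + - (A / 2) / (R - A) := by
  have hc := H.c_pos
  have hA := H.hA
  have hR0 : 0 < R := by linarith [H.hR]
  have h1 : A / 2 / (R - A) ≤ A / R := by
    rw [div_le_div_iff₀ hc hR0]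
    have h2 := mul_nonneg (show 0 ≤ A by linarith) (show 0 ≤ R - 2 * A by linarith [H.hR])
    linarith
  have h3 : (A + 1) / R = A / R + 1 / R := by ring
  have h4 : - (A / 2) / (R - A) = - (A / 2 / (R - A)) := by ring
  rw [h3, h4]
  linarith

/-- one mode: the better of kept and dropped -/
lemma CsC.mode_coef (H : CsC R A F t) {l : ℕ} :
    1 / R ≤ (A + 1) / R + max (t l - A) (- t l) / (R - A) := by
  have hc := H.c_pos
  have h1 := H.mean_coef
  have h2 : - (A / 2) ≤ max (t l - A) (- t l) := by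
    rcases le_total (t l - A) (- t l) with h | h
    · rw [max_eq_right h]
      linarith
    · rw [max_eq_left h]
      linarith
  have h3 : - (A / 2) / (R - A) ≤ max (t l - A) (- t l) / (R - A) :=
    div_le_div_of_nonneg_right h2 hc.le
  linarith

/-- **the reduction**: outside of the cells `E` any lower bound `m` of the credit -/
theorem CsC.redM (H : CsC R A F t) {E : Finset ℕ} (hE : E ⊆ F) {m : ℕ → ℝ}
    (h1 : ∀ l ∈ F \ E, m l ≤ cr l) :
    (R - A - ∑ l ∈ F, (t l + 1)) / R
        + ∑ l ∈ F, csS A (t l + 1) * ((A + 1) / R + m l / (R - A))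
        + ∑ l ∈ E, csS A (t l + 1) * ((cr l - m l) / (R - A))
      ≤ ∑ l ∈ F, csL R A (t l) * cr l + csT R A F t * (R - A) := by
  have hc := H.c_pos
  rw [H.credit_eq]
  have h6 := sum_sdiff (f := fun l => csS A (t l + 1) * ((A + 1) / R + cr l / (R - A))) hE
  have h7 := sum_sdiff (f := fun l => csS A (t l + 1) * ((A + 1) / R + m l / (R - A))) hE
  beta_reduce at h6 h7
  rw [← h6, ← h7]
  have h2 : ∑ l ∈ F \ E, csS A (t l + 1) * ((A + 1) / R + m l / (R - A))
      ≤ ∑ l ∈ F \ E, csS A (t l + 1) * ((A + 1) / R + cr l / (R - A)) := by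
    refine sum_le_sum fun l hl => ?_
    have h3 := H.t0 l (sdiff_subset hl)
    refine mul_le_mul_of_nonneg_left ?_ (csS_nonneg (by linarith [H.hA]) (by linarith))
    have h4 : m l / (R - A) ≤ cr l / (R - A) := div_le_div_of_nonneg_right (h1 l hl) hc.le
    linarith
  have h3 : ∑ l ∈ E, csS A (t l + 1) * ((A + 1) / R + m l / (R - A))
        + ∑ l ∈ E, csS A (t l + 1) * ((cr l - m l) / (R - A))
      = ∑ l ∈ E, csS A (t l + 1) * ((A + 1) / R + cr l / (R - A)) := by
    rw [← sum_add_distrib]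
    refine sum_congr rfl fun l _ => ?_
    ring
  linarith

/-- **third and dust units**: share 0, slack `(c - ∑ x)/R + ∑ s ((A + 1)/R + m/c)` -/
theorem CsC.dustM (H : CsC R A F t) {m : ℕ → ℝ} (h1 : ∀ l ∈ F, m l ≤ cr l) :
    (R - A - ∑ l ∈ F, (t l + 1)) / R
        + ∑ l ∈ F, csS A (t l + 1) * ((A + 1) / R + m l / (R - A))
      ≤ ∑ l ∈ F, csL R A (t l) * cr l + csT R A F t * (R - A) := by
  have h2 := H.redM (E := ∅) (empty_subset _) (cr := cr) (m := m) fun l hl => h1 l (sdiff_subset hl)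
  rw [sum_empty, add_zero] at h2
  exact h2

/-- **full hosted units of the cell `j`**: share `s j`, slack
`(c - ∑ x)/R + ∑ s ((A + 1)/R + m/c) - s j m j/c` -/
theorem CsC.fullM (H : CsC R A F t) {j : ℕ} (hj : j ∈ F) {m : ℕ → ℝ}
    (h1 : ∀ l ∈ F, l ≠ j → m l ≤ cr l) (h2 : R - A ≤ cr j) :
    csS A (t j + 1) + ((R - A - ∑ l ∈ F, (t l + 1)) / R
        + ∑ l ∈ F, csS A (t l + 1) * ((A + 1) / R + m l / (R - A))
        - csS A (t j + 1) * (m j / (R - A)))
      ≤ ∑ l ∈ F, csL R A (t l) * cr l + csT R A F t * (R - A) := by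
  have hc := H.c_pos
  have h3 := H.redM (E := {j}) (singleton_subset_iff.2 hj) (cr := cr) (m := m) fun l hl =>
    h1 l (mem_sdiff.1 hl).1 fun h => (mem_sdiff.1 hl).2 (mem_singleton.2 h)
  rw [sum_singleton] at h3
  have hs : 0 ≤ csS A (t j + 1) := csS_nonneg (by linarith [H.hA]) (by linarith [H.t0 j hj])
  have h4 : csS A (t j + 1) * 1 ≤ csS A (t j + 1) * (cr j / (R - A)) :=
    mul_le_mul_of_nonneg_left ((one_le_div hc).2 h2) hs
  have e1 : csS A (t j + 1) * ((cr j - m j) / (R - A))
      = csS A (t j + 1) * (cr j / (R - A)) - csS A (t j + 1) * (m j / (R - A)) := by ring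
  rw [e1] at h3
  linarith

/-- **a unit with two ends `j`, `w`**, credits at least `p` and `q` there -/
theorem CsC.halfM (H : CsC R A F t) {j w : ℕ} (hj : j ∈ F) (hw : w ∈ F) (hjw : j ≠ w) {m : ℕ → ℝ}
    (h1 : ∀ l ∈ F, l ≠ j → l ≠ w → m l ≤ cr l) {p q : ℝ} (hp : p ≤ cr j) (hq : q ≤ cr w) :
    (R - A - ∑ l ∈ F, (t l + 1)) / R
        + ∑ l ∈ F, csS A (t l + 1) * ((A + 1) / R + m l / (R - A))
        + csS A (t j + 1) * ((p - m j) / (R - A)) + csS A (t w + 1) * ((q - m w) / (R - A))
      ≤ ∑ l ∈ F, csL R A (t l) * cr l + csT R A F t * (R - A) := by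
  have hc := H.c_pos
  have hE : ({j, w} : Finset ℕ) ⊆ F := by
    intro l hl
    rcases mem_insert.1 hl with h2 | h2
    · rw [h2]
      exact hj
    · rw [mem_singleton.1 h2]
      exact hw
  have h3 := H.redM (E := {j, w}) hE (cr := cr) (m := m) fun l hl => by
    obtain ⟨h3, h4⟩ := mem_sdiff.1 hl
    refine h1 l h3 (fun h => h4 ?_) (fun h => h4 ?_)
    · rw [h]
      exact mem_insert_self _ _
    · rw [h]
      exact mem_insert_of_mem (mem_singleton_self _)
  rw [sum_pair hjw] at h3
  have hs : 0 ≤ csS A (t j + 1) := csS_nonneg (by linarith [H.hA]) (by linarith [H.t0 j hj])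
  have hs' : 0 ≤ csS A (t w + 1) := csS_nonneg (by linarith [H.hA]) (by linarith [H.t0 w hw])
  have h4 : csS A (t j + 1) * ((p - m j) / (R - A)) ≤ csS A (t j + 1) * ((cr j - m j) / (R - A)) :=
    mul_le_mul_of_nonneg_left (div_le_div_of_nonneg_right (by linarith) hc.le) hs
  have h6 : csS A (t w + 1) * ((q - m w) / (R - A)) ≤ csS A (t w + 1) * ((cr w - m w) / (R - A)) :=
    mul_le_mul_of_nonneg_left (div_le_div_of_nonneg_right (by linarith) hc.le) hs'
  linarith

/-- **a served unit**: `b` misses, `e` arcs, factor `f`: the slack is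
`csT (c - b) - (s/c) (b (1 - f c/R) + e)`, exactly -/
theorem CsC.servM (H : CsC R A F t) {x b e f : ℝ} :
    csS A x * (1 - f * b / R)
        + (csT R A F t * (R - A - b)
          - csS A x / (R - A) * (b * (1 - f * (R - A) / R) + e))
      = csS A x * 1 - csS A x / (R - A) * (b + e) + csT R A F t * ((R - A) * 1 - b) := by
  have hc := H.c_pos
  have hR0 : 0 < R := by linarith [H.hA, H.hR]
  field_simp
  ring

/-- the row test part of a served unit -/
theorem CsC.servT (H : CsC R A F t) {b : ℝ} :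
    csT R A F t * (R - A - b)
      = (1 - b / (R - A))
        * (((R - A - ∑ l ∈ F, (t l + 1)) + (A + 1) * ∑ l ∈ F, csS A (t l + 1)) / R) := by
  have hc := H.c_pos
  rw [← H.csT_mul]
  field_simp

end CsSl

end Pool.Agent.Lib.MP_f04ccf_co
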