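import Pool.Agent.Lib.MP_f04ccf_co.M.CsL

/-!
MP_f04ccf_co, TEXT D: **the types of a plain hosted item of value one in the letters of `CsB`**.

* `csP`, `crY_csP`: keep an item in the column `y` iff this is the better choice;
* `LevC.csTyp1`: the share is `0`, or the item is full with its end `j` in `J`, or it has a main end `j` in `J` with
  misses `b` and a cut end `k` with misses `v`, `b ≤ v`, `b v ≤ R + t j t k`.
-/

set_option autoImplicit false

namespace Pool.Agent.Lib.MP_f04ccf_co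

open Finset

attribute [local instance] Classical.propDecidable

section CsTyp

variable {ι : Type*} {R : ℤ} {n : ℕ} {t s mu : ℕ → ℤ} {U : Finset ι} {ho : ι → ℕ} {vl : ι → ℤ}
  {kp mn : ℕ → ι → ℤ} {pc ar : ι → ℤ} {be kq NN sg : ℕ → ℕ → ℤ} {nu : ℕ → ι → ℤ} {z y : ℕ}
  {g : ℕ → ι → ℕ} {f : ι → ℕ}

/-- the items which are better kept than dropped in the column `y` -/
noncomputable def csP (R : ℤ) (t : ℕ → ℤ) (vl : ι → ℤ) (kp mn : ℕ → ι → ℤ) (S : Finset ι) (z y : ℕ) :
    Finset ι :=
  S.filter fun u => - t y ≤ kp y u * (R - t y) - mn y u + (t y - (t z + 1)) * vl u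

lemma csP_sub {S : Finset ι} : csP R t vl kp mn S z y ⊆ S := filter_subset _ _

/-- the credit is the better of the two -/
lemma crY_csP {S : Finset ι} {u : ι} (hu : u ∈ S) :
    - t y ≤ crY R t vl kp mn z y (csP R t vl kp mn S z y) u ∧
      kp y u * (R - t y) - mn y u + (t y - (t z + 1)) * vl u
        ≤ crY R t vl kp mn z y (csP R t vl kp mn S z y) u := by
  unfold crY
  by_cases h1 : u ∈ csP R t vl kp mn S z y
  · rw [if_pos h1]
    exact ⟨(mem_filter.1 h1).2, le_rfl⟩
  · rw [if_neg h1]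
    refine ⟨le_rfl, ?_⟩
    by_contra h2
    exact h1 (mem_filter.2 ⟨hu, (not_le.1 h2).le⟩)

/-- **the types of a plain hosted item of value one** -/
theorem LevC.csTyp1 (C : LevC n U ho vl kp mn pc (fun u i => mn i u) g f)
    (H : PCon R n t s mu U ho vl kp mn pc ar be kq NN sg nu) {J : Finset ℕ}
    (hJ : J ⊆ (range n).erase z) {u : ι} (hu : u ∈ hsZ U ho pc z) (hv : vl u = 1)
    (w fr fc cr : ℕ → ℝ)
    (hcr : ∀ l ∈ J, - (t l : ℝ) ≤ cr l ∧ (kp l u : ℝ) * ((R : ℝ) - t l) - (mn l u : ℝ)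
      + ((t l : ℝ) - ((t z : ℝ) + 1)) * (vl u : ℝ) ≤ cr l) :
    (∀ l ∈ J, kp l u = 0 → (t l : ℝ) - ((t z : ℝ) + 1) ≤ cr l) ∧
    (∀ l ∈ J, (t l : ℝ) - ((t z : ℝ) + 1) ≤ cr l) ∧
    (∑ i ∈ J, ((g i u : ℝ) * w i + (1 - w i) * facL vl fr fc u i * (msL kp mn g u i : ℝ) / R) = 0 ∨
    (∃ j ∈ J, ∑ i ∈ J, ((g i u : ℝ) * w i
        + (1 - w i) * facL vl fr fc u i * (msL kp mn g u i : ℝ) / R) = w j
      ∧ (R : ℝ) - ((t z : ℝ) + 1) ≤ cr j) ∨
    (∃ j ∈ J, ∃ k < n, k ≠ j ∧ k ≠ z ∧ ∃ b v : ℝ, 0 ≤ b ∧ b ≤ v ∧ b * v ≤ R + (t j : ℝ) * t k ∧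
      (t k : ℝ) + v ≤ R ∧ b + v ≤ R ∧
      ∑ i ∈ J, ((g i u : ℝ) * w i + (1 - w i) * facL vl fr fc u i * (msL kp mn g u i : ℝ) / R)
        = w j + (1 - w j) * fr j * b / R ∧
      (R : ℝ) - ((t z : ℝ) + 1) - b ≤ cr j ∧ (k ∈ J → (R : ℝ) - ((t z : ℝ) + 1) - v ≤ cr k))) := by
  obtain ⟨huU, huh, hup⟩ := mem_filter.1 hu
  have hJn : ∀ i ∈ J, i < n := fun i hi => mem_range.1 (mem_of_mem_erase (hJ hi))
  have hz1 : ∀ l ∈ J, kp l u = 0 → (t l : ℝ) - ((t z : ℝ) + 1) ≤ cr l := by
    intro l hl h1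
    have h2 := (hcr l hl).2
    have h3 := H.mnz u huU l (hJn l hl) h1
    rw [h1, h3, hv] at h2
    norm_num at h2
    linarith
  have hz2 : ∀ l ∈ J, kp l u = 1 → (R : ℝ) - ((t z : ℝ) + 1) - (mn l u : ℝ) ≤ cr l := by
    intro l hl h1
    have h2 := (hcr l hl).2
    rw [h1, hv] at h2
    norm_num at h2
    linarith
  have hz3 : ∀ l ∈ J, (t l : ℝ) - ((t z : ℝ) + 1) ≤ cr l := by
    intro l hl
    have h1 := H.kv u huU l (hJn l hl)
    have h2 := H.k0 u huU l (hJn l hl)
    rw [hv] at h1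
    have h3 : kp l u = 0 ∨ kp l u = 1 := by omega
    rcases h3 with h3 | h3
    · exact hz1 l hl h3
    · have h4 := hz2 l hl h3
      have h5 := H.mnc u huU l (hJn l hl)
      have h6 : (mn l u : ℝ) ≤ (R : ℝ) - t l := by exact_mod_cast h5
      linarith
  refine ⟨hz1, hz3, ?_⟩
  -- one unit, at the end `j`
  have hone : ∀ j < n, g j u = 1 → kp j u = 1 → (∀ i < n, i ≠ j → g i u = 0) →
      ∑ i ∈ J, ((g i u : ℝ) * w i + (1 - w i) * facL vl fr fc u i * (msL kp mn g u i : ℝ) / R)
        = if j ∈ J then w j + (1 - w j) * fr j * (mn j u : ℝ) / R else 0 := by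
    intro j hj h1 h2 h3
    have h4 : ∀ i ∈ J, i ≠ j →
        ((g i u : ℝ) * w i + (1 - w i) * facL vl fr fc u i * (msL kp mn g u i : ℝ) / R) = 0 := by
      intro i hi hij
      have h5 := h3 i (hJn i hi) hij
      unfold msL
      rw [if_pos h5, h5]
      norm_num
    by_cases h5 : j ∈ J
    · rw [if_pos h5, sum_eq_single_of_mem j h5 fun i hi hij => h4 i hi hij]
      have h7 : msL kp mn g u j = mn j u := by
        unfold msL msP
        rw [h1, if_neg one_ne_zero]
        refine if_pos ?_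
        rw [h2]
        norm_num
      have h8 : facL vl fr fc u j = fr j := if_pos hv
      rw [h7, h8, h1]
      norm_num
    · rw [if_neg h5]
      exact sum_eq_zero fun i hi => h4 i hi fun h => h5 (h ▸ hi)
  rcases C.typ u huU with ⟨h1, h2, h3, h4, h5⟩ | ⟨h1, h2, h3, h4⟩
  · -- full
    have h6 := hone (f u) (C.fn u huU) h2 h3 fun i hi hij => by
      have h7 := C.le u huU i hi
      rw [h5 i hi hij] at h7
      omega
    by_cases h7 : f u ∈ J
    · right
      left
      refine ⟨f u, h7, ?_, ?_⟩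
      · rw [h6, if_pos h7, h4]
        norm_num
      · have h8 := hz2 _ h7 h3
        rw [h4] at h8
        norm_num at h8
        linarith
    · left
      rw [h6, if_neg h7]
  · -- a main end and a cut end
    have h5 := H.kv u huU (f u) (C.fn u huU)
    rw [hv] at h5
    have hf0 : g (f u) u = 0 := by
      have : (0 : ℤ) ≤ (g (f u) u : ℤ) := Nat.cast_nonneg _
      omega
    have hf1 : kp (f u) u = 1 := by
      rw [← h2, hf0]
      norm_num
    have hs := C.sum u huU
    rw [hv] at hs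
    obtain ⟨j, hj, hj0⟩ : ∃ j ∈ range n, g j u ≠ 0 := by
      by_contra hcon
      push Not at hcon
      have h6 : ∑ i ∈ range n, (g i u : ℤ) = 0 := sum_eq_zero fun i hi => by
        rw [hcon i hi]
        rfl
      linarith
    have hjn := mem_range.1 hj
    have hjf : j ≠ f u := fun h => hj0 (by rw [h]; exact hf0)
    have hkj := h3 j hjn hjf
    have hkj1 := H.kv u huU j hjn
    rw [hv] at hkj1
    have hg1 : g j u = 1 := by
      have : (g j u : ℤ) ≤ 1 := by rw [hkj]; exact hkj1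
      omega
    have hk1 : kp j u = 1 := by
      rw [← hkj, hg1]
      rfl
    have hrest : ∀ i < n, i ≠ j → g i u = 0 := by
      intro i hi hij
      by_contra h6
      have h7 : ∑ l ∈ ({i, j} : Finset ℕ), (g l u : ℤ) ≤ ∑ l ∈ range n, (g l u : ℤ) := by
        refine sum_le_sum_of_subset_of_nonneg ?_ fun l _ _ => Nat.cast_nonneg _
        intro l hl
        rcases mem_insert.1 hl with h8 | h8
        · rw [h8]
          exact mem_range.2 hi
        · rw [mem_singleton.1 h8]
          exact hj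
      rw [sum_pair hij, hs, hg1] at h7
      have h8 : (1 : ℤ) ≤ (g i u : ℤ) := by
        have := Nat.one_le_iff_ne_zero.2 h6
        exact_mod_cast this
      push_cast at h7
      linarith
    have h6 := hone j hjn hg1 hk1 hrest
    by_cases h7 : j ∈ J
    · right
      right
      have hfn := C.fn u huU
      refine ⟨j, h7, f u, hfn, hjf.symm, ?_, (mn j u : ℝ), (mn (f u) u : ℝ), ?_, ?_, ?_, ?_, ?_, ?_,
        ?_, ?_⟩
      · rw [← huh]
        exact C.fh u huU
      · exact_mod_cast H.m0 u huU j hjn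
      · have h8 := h4 j hjn (by rw [hk1]; norm_num)
        beta_reduce at h8
        exact_mod_cast h8
      · have h8 := H.mpr u huU j hjn (f u) hfn hjf
        exact_mod_cast h8
      · have h8 := H.mnc u huU (f u) hfn
        have h9 : (mn (f u) u : ℝ) ≤ (R : ℝ) - t (f u) := by exact_mod_cast h8
        linarith
      · have h8 := H.m1 u huU hv
        have h9 : ∑ l ∈ ({j, f u} : Finset ℕ), mn l u ≤ ∑ l ∈ range n, mn l u := by
          refine sum_le_sum_of_subset_of_nonneg ?_ fun l hl _ => H.m0 u huU l (mem_range.1 hl)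
          intro l hl
          rcases mem_insert.1 hl with h10 | h10
          · rw [h10]
            exact hj
          · rw [mem_singleton.1 h10]
            exact mem_range.2 hfn
        rw [sum_pair hjf] at h9
        have h10 : mn j u + mn (f u) u ≤ R := h9.trans h8
        exact_mod_cast h10
      · rw [h6, if_pos h7]
      · exact hz2 j h7 hk1
      · intro h8
        exact hz2 _ h8 hf1
    · left
      rw [h6, if_neg h7]

end CsTyp

end Pool.Agent.Lib.MP_f04ccf_co
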