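import Pool.Agent.Lib.MP_f04ccf_co.M.CmbR

/-!
MP_f04ccf_co, note 16074: the loads on prescribed sets `Q z` of points outside the slot `z` (located
kills and the residual front of the row `z`) may be added over the rows; a class - class edge is
counted twice only if each of its ends is a prescribed point of the row of the other.
-/

set_option autoImplicit false

namespace Pool.Agent.Lib.MP_f04ccf_co

open Finset

attribute [local instance] Classical.propDecidable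

section DblC

variable {ι V : Type*} {G : SimpleGraph V}

/-- symmetrisation over ordered pairs of different rows -/
lemma sum_pair_comm {A : Finset ι} (f : ι → ι → ℤ) :
    ∑ x ∈ A, ∑ z ∈ A.erase x, f x z = ∑ x ∈ A, ∑ z ∈ A.erase x, f z x := by
  have h1 : ∀ g : ι → ι → ℤ, ∑ x ∈ A, ∑ z ∈ A.erase x, g x z
      = ∑ x ∈ A, ∑ z ∈ A, if z = x then 0 else g x z := by
    intro g
    refine sum_congr rfl fun x _ => ?_
    rw [← filter_ne' A x, sum_filter]
    refine sum_congr rfl fun z _ => ?_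
    by_cases h : z = x
    · simp [h]
    · simp [h]
  rw [h1, h1, sum_comm]
  refine sum_congr rfl fun x _ => sum_congr rfl fun z _ => ?_
  by_cases h : z = x
  · simp [h]
  · rw [if_neg h, if_neg (fun h' => h h'.symm)]

/-- one pair of rows -/
lemma dbl_pair (C C' D D' : Finset V) (hD : D ⊆ C') (hD' : D' ⊆ C) :
    ∑ c ∈ C, (dg G D c : ℤ) + ∑ d ∈ C', (dg G D' d : ℤ)
      ≤ ∑ c ∈ C, (dg G C' c : ℤ) + (D.card : ℤ) * D'.card := by
  have h1 : ∑ d ∈ C', (dg G D' d : ℤ) = ∑ c ∈ D', (dg G C' c : ℤ) := by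
    have := dg_comm G C' D'
    exact_mod_cast this
  have h2 : ∑ c ∈ C, (dg G D c : ℤ)
      = ∑ c ∈ C \ D', (dg G D c : ℤ) + ∑ c ∈ D', (dg G D c : ℤ) :=
    (sum_sdiff hD').symm
  have h3 : ∑ c ∈ C, (dg G C' c : ℤ)
      = ∑ c ∈ C \ D', (dg G C' c : ℤ) + ∑ c ∈ D', (dg G C' c : ℤ) :=
    (sum_sdiff hD').symm
  have h4 : ∑ c ∈ C \ D', (dg G D c : ℤ) ≤ ∑ c ∈ C \ D', (dg G C' c : ℤ) := by
    refine sum_le_sum fun c _ => ?_
    have : dg G D c ≤ dg G C' c := by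
      unfold dg
      exact card_le_card (filter_subset_filter _ hD)
    exact_mod_cast this
  have h5 : ∑ c ∈ D', (dg G D c : ℤ) ≤ (D.card : ℤ) * D'.card := by
    have h6 : ∀ c ∈ D', (dg G D c : ℤ) ≤ D.card := by
      intro c _
      have : dg G D c ≤ D.card := card_filter_le _ _
      exact_mod_cast this
    refine (sum_le_sum h6).trans (le_of_eq ?_)
    rw [sum_const, nsmul_eq_mul, mul_comm]
  rw [h1, h2, h3]
  linarith

/-- **the loads on prescribed points**: in the form of the load terms of `CSys.star` -/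
theorem dbl_count {A : Finset ι} {C H Q : ι → Finset V}
    (hQ : ∀ z ∈ A, Q z ⊆ (A.erase z).biUnion fun x => H x ∪ C x) :
    2 * ∑ z ∈ A, ∑ c ∈ C z, (dg G (Q z) c : ℤ)
      ≤ 2 * ∑ x ∈ A, ∑ z ∈ A.erase x, ∑ c ∈ C z, (dg G (H x) c : ℤ)
        + ∑ x ∈ A, ∑ z ∈ A.erase x, ∑ c ∈ C z, (dg G (C x) c : ℤ)
        + ∑ x ∈ A, ∑ z ∈ A.erase x, (((Q z) ∩ C x).card : ℤ) * ((Q x) ∩ C z).card := by
  have h1 : ∀ z ∈ A, ∑ c ∈ C z, (dg G (Q z) c : ℤ)
      ≤ ∑ x ∈ A.erase z, ∑ c ∈ C z, (dg G (H x) c : ℤ)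
        + ∑ x ∈ A.erase z, ∑ c ∈ C z, (dg G ((Q z) ∩ C x) c : ℤ) := by
    intro z hz
    rw [sum_comm, sum_comm (s := A.erase z) (f := fun x c => (dg G ((Q z) ∩ C x) c : ℤ)),
      ← sum_add_distrib]
    refine sum_le_sum fun c _ => ?_
    rw [← sum_add_distrib]
    have h2 : dg G (Q z) c ≤ ∑ x ∈ A.erase z, (dg G (H x) c + dg G ((Q z) ∩ C x) c) := by
      unfold dg
      have h3 : (Q z).filter (fun w => G.Adj c w) ⊆ (A.erase z).biUnion fun x =>
          ((H x).filter fun w => G.Adj c w) ∪ (((Q z) ∩ C x).filter fun w => G.Adj c w) := by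
        intro w hw
        obtain ⟨w1, w2⟩ := mem_filter.1 hw
        obtain ⟨x, hx, hwx⟩ := mem_biUnion.1 (hQ z hz w1)
        refine mem_biUnion.2 ⟨x, hx, ?_⟩
        rcases mem_union.1 hwx with h | h
        · exact mem_union_left _ (mem_filter.2 ⟨h, w2⟩)
        · exact mem_union_right _ (mem_filter.2 ⟨mem_inter.2 ⟨w1, h⟩, w2⟩)
      refine (card_le_card h3).trans (card_biUnion_le.trans (sum_le_sum fun x _ => ?_))
      exact card_union_le _ _
    exact_mod_cast h2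
  have h2 := sum_le_sum h1
  rw [sum_add_distrib] at h2
  have h3 : ∑ z ∈ A, ∑ x ∈ A.erase z, ∑ c ∈ C z, (dg G (H x) c : ℤ)
      = ∑ x ∈ A, ∑ z ∈ A.erase x, ∑ c ∈ C z, (dg G (H x) c : ℤ) :=
    sum_pair_comm fun z x => ∑ c ∈ C z, (dg G (H x) c : ℤ)
  have h4 : ∑ z ∈ A, ∑ x ∈ A.erase z, ∑ c ∈ C z, (dg G ((Q z) ∩ C x) c : ℤ)
      = ∑ x ∈ A, ∑ z ∈ A.erase x, ∑ c ∈ C z, (dg G ((Q z) ∩ C x) c : ℤ) :=
    sum_pair_comm fun z x => ∑ c ∈ C z, (dg G ((Q z) ∩ C x) c : ℤ)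
  have h5 : ∑ z ∈ A, ∑ x ∈ A.erase z, ∑ c ∈ C z, (dg G ((Q z) ∩ C x) c : ℤ)
      + ∑ x ∈ A, ∑ z ∈ A.erase x, ∑ c ∈ C z, (dg G ((Q z) ∩ C x) c : ℤ)
      ≤ ∑ x ∈ A, ∑ z ∈ A.erase x, ∑ c ∈ C z, (dg G (C x) c : ℤ)
        + ∑ x ∈ A, ∑ z ∈ A.erase x, (((Q z) ∩ C x).card : ℤ) * ((Q x) ∩ C z).card := by
    rw [← sum_add_distrib, ← sum_add_distrib]
    refine sum_le_sum fun x _ => ?_
    rw [← sum_add_distrib, ← sum_add_distrib]
    refine sum_le_sum fun z _ => ?_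
    have h6 := dbl_pair (G := G) (C z) (C x) ((Q z) ∩ C x) ((Q x) ∩ C z) inter_subset_right
      inter_subset_right
    linarith
  rw [h3] at h2
  linarith

end DblC

section Star

variable {V : Type*} {G : SimpleGraph V} {Z T : Finset V} {hm : V → V} {r m t : ℕ}

/-- **the star with prescribed loads**: `Q z` any points of the other slots, `k z` loads which every
column of the row `z` gives to them -/
theorem CSys.star_load (hF : PFrame G r m t Z T) (hP : PG G r) {A : Finset V}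
    {S : V → Finset V} (h : CSys G Z T hm A S) {Q : V → Finset V}
    (hQ : ∀ z ∈ A, Q z ⊆ (A.erase z).biUnion S) :
    2 * ((r : ℤ) - 1) * ∑ x ∈ A, (((S x).card : ℤ) - r)
      + 2 * ∑ z ∈ A, ∑ c ∈ CP G Z T S z, (dg G (Q z) c : ℤ)
      + ∑ x ∈ A, ∑ y ∈ A.erase x, ∑ v ∈ HP G Z T S y, (dg G (HP G Z T S x) v : ℤ)
      ≤ ∑ x ∈ A, ∑ y ∈ A.erase x, (((r : ℤ) - 1) + (((S x).card : ℤ) - r + 1)
            * (((S y).card : ℤ) - r + 1))
        + ∑ x ∈ A, (NE G (S x) : ℤ)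
        + ∑ x ∈ A, ∑ z ∈ A.erase x, (((Q z) ∩ CP G Z T S x).card : ℤ)
            * ((Q x) ∩ CP G Z T S z).card := by
  have h1 := h.star hF hP
  have h2 := dbl_count (G := G) (A := A) (C := CP G Z T S) (H := HP G Z T S) (Q := Q) (by
    intro z hz v hv
    obtain ⟨x, hx, hvx⟩ := mem_biUnion.1 (hQ z hz hv)
    refine mem_biUnion.2 ⟨x, hx, ?_⟩
    rw [union_comm, CP_union_HP]
    exact hvx)
  linarith

end Star

end Pool.Agent.Lib.MP_f04ccf_co
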