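import Pool.Agent.Lib.MP_f04ccf_co.M.Row02

/-!
MP_f04ccf_co: the degree bound of the rows with `|S z| = r - 1` (`m z = 2`) in minimal `j`-closed systems,
any homes: no point outside the slot has more than `(r - 1 - |C z|) + e z + (j + 1)(j + 2) / 2`
neighbours in the class part.
`M2.dg_le`: the bound.  `M2.sum_le`: two points outside the slot together.
`M2.no_full`: if the class part is large no pair is fully served.
`M2.le_card`: what the front of one point says without a point removed.
-/

set_option autoImplicit false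

namespace Pool.Agent.Lib.MP_f04ccf_co

open Finset

attribute [local instance] Classical.propDecidable

section DeadRow

variable {V : Type*} {G : SimpleGraph V} {Z T : Finset V} {hm : V → V} {r m t j : ℕ}
  {A S : Finset V}

/-- **the degree bound at a row with `r - 1` slot points**: a point `v` outside the slot has at most
`(r - 1 - |C z|) + e z + (j + 1)(j + 2) / 2` neighbours in the class part -/
theorem M2.dg_le (hF : PFrame G r m t Z T) (hP : PG G r) (hj : 2 ≤ j)
    (h : MQSys r (JSys G Z T j) A S) (hh : ∀ v ∈ S, hm v ∈ A ∧ hm v ∈ rws G T v) {z : V}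
    (hz : z ∈ A) (hp : (S.filter fun v => hm v = z).card + 1 = r) {v : V}
    (hv : v ∉ S.filter fun v => hm v = z) :
    2 * dg G (S.filter fun v => v ∈ Cl G Z T z) v
        + 2 * (S.filter fun v => v ∈ Cl G Z T z).card
      ≤ 2 * (r - 1) + NE G (S.filter fun v => hm v = z) + (j + 1) * (j + 2) := by
  obtain ⟨W', h1, h2, h3, -, h5⟩ := h.d3h hF hP hj hh hz (W := {v}) (l := 1)
    (disjoint_singleton_right.2 hv) (by omega) (by rw [card_singleton]; omega)
  rw [szn_one] at h3
  have h6 : ∑ c ∈ S.filter fun v => v ∈ Cl G Z T z, dg G {v} c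
      = dg G (S.filter fun v => v ∈ Cl G Z T z) v := by
    have := dg_comm (G := G) (S.filter fun v => v ∈ Cl G Z T z) {v}
    rw [sum_singleton] at this
    exact this
  have h7 := NE_le (G := G) ({v} ∪ W')
  have h8 : ({v} ∪ W').card ≤ j + 2 := by
    have := card_union_le {v} W'
    rw [card_singleton] at this
    omega
  have h9 : ({v} ∪ W').card * (({v} ∪ W').card - 1) ≤ (j + 2) * (j + 1) :=
    Nat.mul_le_mul h8 (by omega)
  have h10 : (NE G ({v} ∪ W') : ℤ) ≤ (j + 2) * (j + 1) := by exact_mod_cast h7.trans h9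
  have h11 : ∑ c ∈ S.filter fun v => v ∈ Cl G Z T z, (dg G {v} c : ℤ)
      = dg G (S.filter fun v => v ∈ Cl G Z T z) v := by exact_mod_cast h6
  rw [h11, card_singleton] at h5
  have h12 : 0 ≤ ∑ v ∈ {v} ∪ W',
      (dg G (HP G Z T (fun x => S.filter fun v => hm v = x) z) v : ℤ) :=
    sum_nonneg fun _ _ => Int.natCast_nonneg _
  have h13 : ((S.filter fun v => hm v = z).card : ℤ) = r - 1 := by
    have : ((S.filter fun v => hm v = z).card : ℤ) + 1 = r := by exact_mod_cast hp
    omega
  rw [h13] at h5
  zify [show 1 ≤ r by omega]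
  push_cast at h5 ⊢
  nlinarith

/-- two points outside the slot together: one front for both -/
theorem M2.two_le (hF : PFrame G r m t Z T) (hP : PG G r) (hj : 2 ≤ j)
    (h : MQSys r (JSys G Z T j) A S) (hh : ∀ v ∈ S, hm v ∈ A ∧ hm v ∈ rws G T v) {z : V}
    (hz : z ∈ A) (hp : (S.filter fun v => hm v = z).card + 1 = r) {a b : V}
    (ha : a ∉ S.filter fun v => hm v = z) (hb : b ∉ S.filter fun v => hm v = z) :
    dg G (S.filter fun v => v ∈ Cl G Z T z) a + dg G (S.filter fun v => v ∈ Cl G Z T z) b
        + 2 * (S.filter fun v => v ∈ Cl G Z T z).card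
      ≤ 2 * (r - 1) + NE G (S.filter fun v => hm v = z) + (j + 1) * (j + 2) := by
  have h1 := M2.dg_le hF hP hj h hh hz hp ha
  have h2 := M2.dg_le hF hP hj h hh hz hp hb
  omega

/-- **no pair is fully served at a row with a large class part** -/
theorem M2.no_full (hF : PFrame G r m t Z T) (hP : PG G r) (hj : 2 ≤ j)
    (h : MQSys r (JSys G Z T j) A S) (hh : ∀ v ∈ S, hm v ∈ A ∧ hm v ∈ rws G T v) {z : V}
    (hz : z ∈ A) (hp : (S.filter fun v => hm v = z).card + 1 = r) {a b : V}
    (ha : a ∉ S.filter fun v => hm v = z) (hb : b ∉ S.filter fun v => hm v = z)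
    (hc : 2 * (r - 1) + NE G (S.filter fun v => hm v = z) + (j + 1) * (j + 2)
      < 3 * (S.filter fun v => v ∈ Cl G Z T z).card) :
    ¬ Full2 G (S.filter fun v => v ∈ Cl G Z T z) a b := by
  intro hf
  have h1 := M2.two_le hF hP hj h hh hz hp ha hb
  have h3 := card_le_rest2 (G := G) (S.filter fun v => v ∈ Cl G Z T z) a b
  have h4 : rest2 G (S.filter fun v => v ∈ Cl G Z T z) a b = ∅ := by
    rw [rest2, filter_eq_empty_iff]
    intro c hc h5
    rcases hf c hc with h6 | h6
    · exact h5.1 h6
    · exact h5.2 h6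
  rw [h4, card_empty] at h3
  omega

/-- the same in the basic integers `t = r - 1 - |C z|`, `2 e = NE`: at least
`|C z| - 2 (t + e + (j + 1)(j + 2) / 2)` columns see neither of two points -/
theorem M2.rest2_le (hF : PFrame G r m t Z T) (hP : PG G r) (hj : 2 ≤ j)
    (h : MQSys r (JSys G Z T j) A S) (hh : ∀ v ∈ S, hm v ∈ A ∧ hm v ∈ rws G T v) {z : V}
    (hz : z ∈ A) (hp : (S.filter fun v => hm v = z).card + 1 = r) {a b : V}
    (ha : a ∉ S.filter fun v => hm v = z) (hb : b ∉ S.filter fun v => hm v = z) :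
    3 * (S.filter fun v => v ∈ Cl G Z T z).card
      ≤ 2 * (r - 1) + NE G (S.filter fun v => hm v = z) + (j + 1) * (j + 2)
        + (rest2 G (S.filter fun v => v ∈ Cl G Z T z) a b).card := by
  have h1 := M2.two_le hF hP hj h hh hz hp ha hb
  have h3 := card_le_rest2 (G := G) (S.filter fun v => v ∈ Cl G Z T z) a b
  omega

end DeadRow

end Pool.Agent.Lib.MP_f04ccf_co
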