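import Pool.Agent.Lib.MP_f04ccf_co.S2Exp

/-!
MP_f04ccf_co: expansion of an independent set `J` with new centres (helper62, note 15102 (1), (3)),
and the degrees of the vertices of `B` in the critical frame `S2C`.
-/

set_option autoImplicit false

namespace Pool.Agent.Lib.MP_f04ccf_co

open Finset

attribute [local instance] Classical.propDecidable

namespace S2C

variable {V : Type*} {G : SimpleGraph V} {r m t : ℕ} {Z T : Finset V}

/-- no part of `Z` with arbitrary new centres `T'` is a frame of a lower level -/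
lemma low_frame (h : S2C G r m t Z T) (hP : PG G r) {Z' T' : Finset V}
    (hTZ : T' ⊆ Z') (hi : Ind G T') (hlt : T'.card < t)
    (hc : T'.card * r + 1 ≤ Z'.card) (hk2 : ∀ z ∈ Z', z ∉ T' → dg G T' z ≤ 2)
    (hb : (BB G Z' T').card ≤ m) : ¬ AlphaLe G Z' T'.card := by
  intro ha
  have hle : T'.card ≤ T'.card * r + 1 := by
    have h1 := h.lt
    have := Nat.le_mul_of_pos_right T'.card (show 0 < r by omega)
    omega
  obtain ⟨Z'', hZ1, hZ2, hZc⟩ := exists_subsuperset_card_eq hTZ hle hc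
  refine h.low G T'.card Z'' T' hP hlt ⟨hZ1, hi, rfl, ha.mono G hZ2, hZc, ?_, ?_⟩
  · intro z hz
    obtain ⟨h1, h2⟩ := mem_sdiff.1 hz
    exact hk2 z (hZ2 h1) h2
  · refine (card_le_card ?_).trans hb
    intro z hz
    obtain ⟨⟨h1, h2⟩, h3⟩ := mem_BB.1 hz
    exact mem_BB.2 ⟨⟨hZ2 h1, h2⟩, h3⟩

/-- EXP with new centres: `J` independent, `T'` independent outside `N[J]`, `|T'| + |J| = t`, every
vertex of `Z - N[J] - T'` has at most two neighbours in `T'` and at most `m` of them have two; then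
`|N[J]| ≥ |J| r + 1` -/
theorem exp_gen (h : S2C G r m t Z T) (hP : PG G r) {J T' : Finset V} (hJZ : J ⊆ Z) (hJ : Ind G J)
    (hne : J.Nonempty) (hT : T' ⊆ Z \ nbS G Z J) (hi : Ind G T') (hc : T'.card + J.card = t)
    (hk2 : ∀ z ∈ Z \ nbS G Z J, z ∉ T' → dg G T' z ≤ 2)
    (hb : (BB G (Z \ nbS G Z J) T').card ≤ m) : J.card * r + 1 ≤ (nbS G Z J).card := by
  by_contra hcon
  have hpos : 0 < J.card := card_pos.2 hne
  have hcZ : (Z \ nbS G Z J).card = t * r + 1 - (nbS G Z J).card := by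
    rw [card_sdiff_of_subset (nbS_sub _ _), h.cardZ]
  have hmul : t * r = T'.card * r + J.card * r := by rw [← hc, Nat.add_mul]
  refine h.low_frame hP hT hi (by omega) (by rw [hcZ]; omega) hk2 hb ?_
  intro I hI hi'
  have h1 := h.alpha (J ∪ I) (union_subset hJZ (hI.trans sdiff_subset)) (hJ.union_nbS hi' hI)
  rw [card_union_of_disjoint (disjoint_of_sdiff_nbS hI)] at h1
  omega

/-- **the degrees of the vertices of `B`** (helper62, 15102 (1)) -/
theorem deg_B_ge (h : S2C G r m t Z T) (hP : PG G r) {w v : V} (hw : w ∈ BB G Z T) (hvZ : v ∈ Z)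
    (hvT : v ∉ T) (hve : ends G T v ⊆ ends G T w) (hwv : ¬ G.Adj w v) (hne : v ≠ w)
    (hD1 : ∀ z ∈ BB G Z T, ¬ G.Adj w z → dg G (T \ ends G T w) z = 2 → ¬ G.Adj v z)
    (hcr : ((BB G Z T).filter (fun z => ¬ G.Adj w z ∧ dg G (T \ ends G T w) z = 2)).card
        + ((Z \ T).filter (fun z => ¬ G.Adj w z ∧ G.Adj v z ∧ dg G (T \ ends G T w) z = 1)).card
      ≤ m) : r ≤ dg G Z w := by
  obtain ⟨⟨hwZ, hwT⟩, hw2⟩ := mem_BB.1 hw
  have hN : nbS G Z {w} = nb G Z w := by
    ext z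
    rw [mem_nbS, dg_ne_zero, nb, mem_filter]
    simp only [mem_singleton, exists_eq_left]
    rw [G.adj_comm]
  have hmem : ∀ z, z ∈ nbS G Z {w} ↔ z ∈ Z ∧ (z = w ∨ G.Adj w z) := by
    intro z
    rw [mem_nbS, dg_ne_zero]
    simp only [mem_singleton, exists_eq_left]
    rw [G.adj_comm]
  set T' : Finset V := insert v (T \ ends G T w) with hT'
  have hvT0 : v ∉ T \ ends G T w := fun h' => hvT (mem_sdiff.1 h').1
  have hcT0 : (T \ ends G T w).card = t - 2 := by
    have h1 : (ends G T w).card = 2 := hw2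
    have h2 : ends G T w ⊆ T := filter_subset _ _
    rw [card_sdiff_of_subset h2, h.cardT, h1]
  have ht2 : 2 ≤ t := by
    have h1 : (ends G T w).card = 2 := hw2
    have h2 := card_le_card (show ends G T w ⊆ T from filter_subset _ _)
    rw [h1, h.cardT] at h2
    exact h2
  have hcT : T'.card + ({w} : Finset V).card = t := by
    rw [hT', card_insert_of_notMem hvT0, hcT0, card_singleton]
    omega
  have hdg : ∀ z, dg G T' z = dg G (T \ ends G T w) z + (if G.Adj z v then 1 else 0) := by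
    intro z
    unfold dg
    rw [hT', filter_insert]
    by_cases hz : G.Adj z v
    · rw [if_pos hz, if_pos hz, card_insert_of_notMem]
      exact fun h' => hvT0 (mem_filter.1 h').1
    · rw [if_neg hz, if_neg hz]
      rfl
  -- a point of `Z - N[w] - T'` is not in `T`
  have hzT : ∀ z ∈ Z \ nbS G Z {w}, z ∉ T' → z ∉ T := by
    intro z hz hzT' hzT
    obtain ⟨h1, h2⟩ := mem_sdiff.1 hz
    apply hzT'
    rw [hT', mem_insert]
    right
    refine mem_sdiff.2 ⟨hzT, fun h3 => h2 ?_⟩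
    exact (hmem z).2 ⟨h1, Or.inr (mem_ends.1 h3).2⟩
  have hle : ∀ z, dg G (T \ ends G T w) z ≤ dg G T z := fun z => dg_mono G sdiff_subset z
  have hBB : ∀ z ∈ Z \ nbS G Z {w}, z ∉ T' → dg G (T \ ends G T w) z = 2 →
      z ∈ BB G Z T ∧ ¬ G.Adj w z ∧ ¬ G.Adj v z := by
    intro z hz hzT' h2
    have hzT0 := hzT z hz hzT'
    obtain ⟨h1, h3⟩ := mem_sdiff.1 hz
    have h4 := h.k2 z (mem_sdiff.2 ⟨h1, hzT0⟩)
    have h5 := hle z
    have h6 : z ∈ BB G Z T := mem_BB.2 ⟨⟨h1, hzT0⟩, by omega⟩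
    have h7 : ¬ G.Adj w z := fun h' => h3 ((hmem z).2 ⟨h1, Or.inr h'⟩)
    exact ⟨h6, h7, hD1 z h6 h7 h2⟩
  have hk2 : ∀ z ∈ Z \ nbS G Z {w}, z ∉ T' → dg G T' z ≤ 2 := by
    intro z hz hzT'
    rw [hdg]
    have hzT0 := hzT z hz hzT'
    obtain ⟨h1, h3⟩ := mem_sdiff.1 hz
    have h4 := h.k2 z (mem_sdiff.2 ⟨h1, hzT0⟩)
    have h5 := hle z
    by_cases h2 : dg G (T \ ends G T w) z = 2
    · have h6 := (hBB z hz hzT' h2).2.2
      rw [if_neg (fun h' => h6 h'.symm)]
      omega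
    · split_ifs <;> omega
  have h1 := h.exp_gen hP (J := {w}) (T' := T') (singleton_subset_iff.2 hwZ) (by
    intro a ha b hb hab
    rw [mem_singleton] at ha hb
    subst ha; subst hb
    exact G.loopless.irrefl _ hab) ⟨w, mem_singleton_self w⟩ ?_ ?_ hcT hk2 ?_
  · rw [card_singleton, one_mul, hN, nb_card G hwZ] at h1
    omega
  · intro z hz
    rw [hT', mem_insert] at hz
    rcases hz with rfl | hz
    · refine mem_sdiff.2 ⟨hvZ, fun h' => ?_⟩
      rcases ((hmem z).1 h').2 with h'' | h''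
      · exact hne h''
      · exact hwv h''
    · obtain ⟨h2, h3⟩ := mem_sdiff.1 hz
      refine mem_sdiff.2 ⟨h.sub h2, fun h' => ?_⟩
      rcases ((hmem z).1 h').2 with h'' | h''
      · subst h''
        exact hwT h2
      · exact h3 (mem_ends.2 ⟨h2, h''⟩)
  · rw [hT']
    refine Ind.insert_of _ (h.ind.mono sdiff_subset) ?_
    intro z hz hvz
    obtain ⟨h2, h3⟩ := mem_sdiff.1 hz
    exact h3 (hve (mem_ends.2 ⟨h2, hvz⟩))
  · refine (card_le_card ?_).trans ((card_union_le _ _).trans hcr)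
    intro z hz
    obtain ⟨⟨h2, h3⟩, h4⟩ := mem_BB.1 hz
    rw [hdg] at h4
    have hzT0 := hzT z h2 h3
    obtain ⟨h5, h6⟩ := mem_sdiff.1 h2
    have h7 : ¬ G.Adj w z := fun h' => h6 ((hmem z).2 ⟨h5, Or.inr h'⟩)
    rw [mem_union]
    by_cases h8 : G.Adj z v
    · rw [if_pos h8] at h4
      right
      exact mem_filter.2 ⟨mem_sdiff.2 ⟨h5, hzT0⟩, h7, h8.symm, by omega⟩
    · rw [if_neg h8] at h4
      left
      exact mem_filter.2 ⟨(hBB z h2 h3 (by omega)).1, h7, by omega⟩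

end S2C

end Pool.Agent.Lib.MP_f04ccf_co
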