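import Mathlib

/-!
MP_f04ccf_co, PLAN W, track 2: the checker (notes 17200, 17221).  `Dfs.dfs add test goal fuel L x`: all
multisets of members of the list `L` of feature vectors are added to `x` one after another as long as
`test` holds; at the end `goal` must hold.  `Dfs.dfs_sound`: if the feature vectors of the items of a
finite set are in `L` and every set of items passes `test` then all items together satisfy `goal`.
`Dfs.two_sound`: two phases (hosted units, then ends).  `Dfs.allU`: loops over a range of numbers.
Everything is written with recursors (speed under `decide +kernel`).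
-/

set_option autoImplicit false

namespace Pool.Agent.Lib.MP_f04ccf_co

namespace Dfs

open Finset

section Gen

variable {τ : Type*}

/-- **the search** over the multisets of members of `L` which pass `test` -/
noncomputable def dfs (add : τ → τ → τ) (test goal : τ → Bool) (fuel : ℕ) : List τ → τ → Bool :=
  Nat.rec (motive := fun _ => List τ → τ → Bool) (fun _ _ => false)
    (fun _ ih L x => List.rec (motive := fun _ => Bool) (goal x)
      (fun p L' _ => Bool.rec (motive := fun _ => Bool) false
        (Bool.rec (motive := fun _ => Bool) true (ih (p :: L') (add x p)) (test (add x p)))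
        (ih L' x)) L) fuel

variable {add : τ → τ → τ} {test goal : τ → Bool}

lemma dfs_zero (L : List τ) (x : τ) : dfs add test goal 0 L x = false := rfl

lemma dfs_nil (f : ℕ) (x : τ) : dfs add test goal (f + 1) [] x = goal x := rfl

lemma dfs_cons {f : ℕ} {p : τ} {L : List τ} {x : τ}
    (h : dfs add test goal (f + 1) (p :: L) x = true) :
    dfs add test goal f L x = true ∧
      (test (add x p) = true → dfs add test goal f (p :: L) (add x p) = true) := by
  have h0 : dfs add test goal (f + 1) (p :: L) x
      = Bool.rec (motive := fun _ => Bool) false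
        (Bool.rec (motive := fun _ => Bool) true (dfs add test goal f (p :: L) (add x p))
          (test (add x p))) (dfs add test goal f L x) := rfl
  rw [h0] at h
  rcases h1 : dfs add test goal f L x with _ | _
  · rw [h1] at h
    exact absurd h (by simp)
  · rw [h1] at h
    refine ⟨rfl, fun h2 => ?_⟩
    rw [h2] at h
    exact h

/-- **soundness** -/
theorem dfs_sound [AddCommMonoid τ] (ha : ∀ x y, add x y = x + y) {ι : Type*} (c : ι → τ) :
    ∀ (f : ℕ) (L : List τ) (x : τ) (U : Finset ι), dfs add test goal f L x = true →
      (∀ u ∈ U, c u ∈ L) → (∀ K, K ⊆ U → K.Nonempty → test (x + ∑ u ∈ K, c u) = true) →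
      goal (x + ∑ u ∈ U, c u) = true := by
  classical
  intro f
  induction f with
  | zero =>
    intro L x U h
    rw [dfs_zero] at h
    exact absurd h (by simp)
  | succ f ih =>
    intro L x U h hc hT
    rcases L with _ | ⟨p, L⟩
    · have hU : U = ∅ := by
        by_contra h1
        obtain ⟨u, hu⟩ := nonempty_iff_ne_empty.2 h1
        exact absurd (hc u hu) (by simp)
      rw [dfs_nil] at h
      rw [hU, sum_empty, add_zero]
      exact h
    · obtain ⟨h1, h2⟩ := dfs_cons h
      by_cases hu : ∃ u ∈ U, c u = p
      · obtain ⟨u, huU, hup⟩ := hu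
        have h3 : test (x + p) = true := by
          have := hT {u} (singleton_subset_iff.2 huU) (singleton_nonempty u)
          rwa [sum_singleton, hup] at this
        rw [ha] at h2
        have h4 := ih (p :: L) (x + p) (U.erase u) (h2 h3)
          (fun v hv => hc v (mem_of_mem_erase hv)) fun K hK hK0 => by
            have hK1 : u ∉ K := fun h5 => absurd (hK h5) (notMem_erase u U)
            have h5 := hT (insert u K) (insert_subset huU (hK.trans (erase_subset u U)))
              (insert_nonempty u K)
            rwa [sum_insert hK1, hup, ← add_assoc] at h5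
        rw [add_assoc, ← hup, add_sum_erase U c huU] at h4
        exact h4
      · refine ih L x U h1 (fun u huU => ?_) hT
        rcases List.mem_cons.1 (hc u huU) with h3 | h3
        · exact absurd ⟨u, huU, h3⟩ hu
        · exact h3

/-- soundness from zero -/
theorem dfs_sound0 [AddCommMonoid τ] (ha : ∀ x y, add x y = x + y) {ι : Type*} {c : ι → τ}
    {f : ℕ} {L : List τ} {U : Finset ι} (h : dfs add test goal f L 0 = true)
    (hc : ∀ u ∈ U, c u ∈ L) (hT : ∀ K, K ⊆ U → K.Nonempty → test (∑ u ∈ K, c u) = true) :
    goal (∑ u ∈ U, c u) = true := by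
  have := dfs_sound ha c f L 0 U h hc fun K hK hK0 => by
    rw [zero_add]
    exact hT K hK hK0
  rwa [zero_add] at this

/-- **two phases**: the items of `W` (tested by `test`), then those of `U` (tested by `test2` together
with all of `W`) -/
theorem two_sound [AddCommMonoid τ] (ha : ∀ x y, add x y = x + y) {ι κ : Type*} {d : κ → τ}
    {c : ι → τ} {test2 goal2 : τ → Bool} {f f2 : ℕ} {M L : List τ} {x : τ} {W : Finset κ}
    {U : Finset ι} (h : dfs add test (fun y => dfs add test2 goal2 f2 L y) f M x = true)
    (hd : ∀ w ∈ W, d w ∈ M) (hT : ∀ K, K ⊆ W → K.Nonempty → test (x + ∑ w ∈ K, d w) = true)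
    (hc : ∀ u ∈ U, c u ∈ L)
    (hT2 : ∀ K, K ⊆ U → K.Nonempty → test2 (x + ∑ w ∈ W, d w + ∑ u ∈ K, c u) = true) :
    goal2 (x + ∑ w ∈ W, d w + ∑ u ∈ U, c u) = true :=
  dfs_sound ha c f2 L _ U (dfs_sound ha d f M x W h hd hT) hc hT2

end Gen

section Loop

/-- `P a, P (a + 1), …, P (a + n - 1)` -/
noncomputable def allU (P : ℕ → Bool) (n : ℕ) : ℕ → Bool :=
  Nat.rec (motive := fun _ => ℕ → Bool) (fun _ => true)
    (fun _ ih a => Bool.rec (motive := fun _ => Bool) false (ih (Nat.succ a)) (P a)) n

theorem allU_spec {P : ℕ → Bool} : ∀ {n a : ℕ}, allU P n a = true → ∀ b, a ≤ b → b < a + n →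
    P b = true := by
  intro n
  induction n with
  | zero =>
    intro a _ b h1 h2
    omega
  | succ n ih =>
    intro a h b h1 h2
    have h0 : allU P (n + 1) a
        = Bool.rec (motive := fun _ => Bool) false (allU P n (Nat.succ a)) (P a) := rfl
    rw [h0] at h
    rcases h3 : P a with _ | _
    · rw [h3] at h
      exact absurd h (by simp)
    · rw [h3] at h
      rcases Nat.eq_or_lt_of_le h1 with rfl | h4
      · exact h3
      · exact ih h b h4 (by omega)

end Loop

end Dfs

end Pool.Agent.Lib.MP_f04ccf_co
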