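import Pool.Agent.Lib.MP_f04ccf_co.M.MatS

/-!
MP_f04ccf_co: the energy of a host with clique units (notes 16457 (B), 16515 (4), 16518 (2)).  `Pin`:
some members `w ∈ P` are pinned, each with a missed class point `φ w` (PC units, different copies), the
other members are labelled, points with the same label form a clique of the missing graph.  The value
of the family is `|H|` minus the number of labels.  `PinMx`: least number of labels, then the largest
number of pinned members.  `PinMx.used`: an unpinned member misses only used copies.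
`PinMx.energy`: `2 e ≤ 2 k h - k (k + 1) + 2 Σ_(P) κ`, `k` the value; `PinMx.energy'`: the sharp form.
-/

set_option autoImplicit false

namespace Pool.Agent.Lib.MP_f04ccf_co

open Finset

attribute [local instance] Classical.propDecidable

section Pin

variable {ι V : Type*} (F : SimpleGraph V) (C H : Finset V) (tl : V → ι)

/-- pinned members `P` with class points `φ`, the other members are labelled by `lb` -/
structure Pin (P : Finset V) (φ lb : V → V) : Prop where
  sub : P ⊆ H
  mem : ∀ w ∈ P, φ w ∈ C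
  adj : ∀ w ∈ P, F.Adj w (φ w)
  inj : ∀ w ∈ P, ∀ w' ∈ P, φ w = φ w' → tl w = tl w' → w = w'
  lab : ∀ u ∈ H \ P, ∀ v ∈ H \ P, u ≠ v → lb u = lb v → F.Adj u v

/-- the labels -/
noncomputable def lbs (H P : Finset V) (lb : V → V) : Finset V := (H \ P).image lb

/-- least number of labels, then the largest number of pinned members -/
structure PinMx (P : Finset V) (φ lb : V → V) : Prop extends Pin F C H tl P φ lb where
  mx : ∀ (P' : Finset V) (φ' lb' : V → V), Pin F C H tl P' φ' lb' →
    (lbs H P lb).card < (lbs H P' lb').card ∨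
      ((lbs H P lb).card = (lbs H P' lb').card ∧ P'.card ≤ P.card)

variable {F C H tl}

theorem exists_pinMx (F : SimpleGraph V) (C H : Finset V) (tl : V → ι) :
    ∃ P φ lb, PinMx F C H tl P φ lb := by
  let N : Finset V → (V → V) → ℕ := fun P lb => (lbs H P lb).card * (H.card + 1) + (H.card - P.card)
  have h0 : ∃ n, ∃ P φ lb, Pin F C H tl P φ lb ∧ N P lb = n :=
    ⟨_, ∅, id, id, ⟨empty_subset _, by simp, by simp, by simp, fun u _ v _ hne h => absurd h hne⟩,
      rfl⟩
  obtain ⟨P, φ, lb, hP, hN⟩ := Nat.find_spec h0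
  refine ⟨P, φ, lb, hP, fun P' φ' lb' hP' => ?_⟩
  have h1 : N P lb ≤ N P' lb' := by
    rw [hN]
    exact Nat.find_min' h0 ⟨P', φ', lb', hP', rfl⟩
  have h2 : (lbs H P lb).card * (H.card + 1) + (H.card - P.card)
      ≤ (lbs H P' lb').card * (H.card + 1) + (H.card - P'.card) := h1
  have h3 := card_le_card hP.sub
  have h4 := card_le_card hP'.sub
  rcases lt_trichotomy (lbs H P lb).card (lbs H P' lb').card with h5 | h5 | h5
  · exact Or.inl h5
  · refine Or.inr ⟨h5, ?_⟩
    rw [h5] at h2
    omega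
  · exfalso
    have h6 : ((lbs H P' lb').card + 1) * (H.card + 1) ≤ (lbs H P lb).card * (H.card + 1) :=
      Nat.mul_le_mul_right _ h5
    have h7 : ((lbs H P' lb').card + 1) * (H.card + 1)
        = (lbs H P' lb').card * (H.card + 1) + (H.card + 1) := by ring
    omega

variable {P : Finset V} {φ lb : V → V}

/-- two labels have a pair of points which is not a missing pair (otherwise merge them) -/
lemma PinMx.merge (h : PinMx F C H tl P φ lb) {p q : V} (hp : p ∈ lbs H P lb)
    (hq : q ∈ lbs H P lb) (hpq : p ≠ q) :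
    ∃ u ∈ H \ P, ∃ v ∈ H \ P, lb u = p ∧ lb v = q ∧ ¬ F.Adj u v := by
  by_contra hcon
  push Not at hcon
  let lb' : V → V := fun u => if lb u = q then p else lb u
  have h1 : Pin F C H tl P φ lb' := by
    refine ⟨h.sub, h.mem, h.adj, h.inj, fun u hu v hv huv he => ?_⟩
    by_cases hu1 : lb u = q
    · by_cases hv1 : lb v = q
      · exact h.lab u hu v hv huv (hu1.trans hv1.symm)
      · have h2 : lb v = p := by
          simp only [lb', if_pos hu1, if_neg hv1] at he
          exact he.symm
        exact (hcon v hv u hu h2 hu1).symm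
    · by_cases hv1 : lb v = q
      · have h2 : lb u = p := by
          simp only [lb', if_neg hu1, if_pos hv1] at he
          exact he
        exact hcon u hu v hv h2 hv1
      · simp only [lb', if_neg hu1, if_neg hv1] at he
        exact h.lab u hu v hv huv he
  have h2 : lbs H P lb' ⊆ (lbs H P lb).erase q := by
    intro w hw
    obtain ⟨u, hu, rfl⟩ := mem_image.1 hw
    by_cases hu1 : lb u = q
    · simp only [lb', if_pos hu1]
      exact mem_erase.2 ⟨hpq, hp⟩
    · simp only [lb', if_neg hu1]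
      exact mem_erase.2 ⟨hu1, mem_image_of_mem _ hu⟩
  have h3 := card_le_card h2
  have h4 := card_erase_add_one hq
  rcases h.mx P φ lb' h1 with h5 | ⟨h5, -⟩ <;> omega

/-- **an unpinned member misses only used copies** -/
lemma PinMx.used (h : PinMx F C H tl P φ lb) {v a : V} (hv : v ∈ H \ P) (ha : a ∈ C)
    (hva : F.Adj v a) : ∃ w ∈ P, φ w = a ∧ tl w = tl v := by
  by_contra hcon
  push Not at hcon
  obtain ⟨hvH, hvP⟩ := mem_sdiff.1 hv
  have hsub : H \ insert v P ⊆ H \ P := sdiff_subset_sdiff (Subset.refl _) (subset_insert _ _)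
  have h1 : Pin F C H tl (insert v P) (Function.update φ v a) lb := by
    refine ⟨insert_subset hvH h.sub, fun w hw => ?_, fun w hw => ?_, fun w hw w' hw' he ht => ?_,
      fun u hu u' hu' => h.lab u (hsub hu) u' (hsub hu')⟩
    · by_cases h2 : w = v
      · rw [h2, Function.update_self]
        exact ha
      · rw [Function.update_of_ne h2]
        exact h.mem w ((mem_insert.1 hw).resolve_left h2)
    · by_cases h2 : w = v
      · rw [h2, Function.update_self]
        exact hva
      · rw [Function.update_of_ne h2]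
        exact h.adj w ((mem_insert.1 hw).resolve_left h2)
    · by_cases h2 : w = v
      · by_cases h3 : w' = v
        · rw [h2, h3]
        · exfalso
          rw [h2, Function.update_self, Function.update_of_ne h3] at he
          rw [h2] at ht
          exact hcon w' ((mem_insert.1 hw').resolve_left h3) he.symm ht.symm
      · by_cases h3 : w' = v
        · exfalso
          rw [h3, Function.update_self, Function.update_of_ne h2] at he
          rw [h3] at ht
          exact hcon w ((mem_insert.1 hw).resolve_left h2) he ht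
        · rw [Function.update_of_ne h2, Function.update_of_ne h3] at he
          exact h.inj w ((mem_insert.1 hw).resolve_left h2) w' ((mem_insert.1 hw').resolve_left h3)
            he ht
  have h2 : lbs H (insert v P) lb ⊆ lbs H P lb := image_subset_image hsub
  have h3 := card_le_card h2
  have h4 := card_insert_of_notMem hvP
  rcases h.mx _ _ _ h1 with h5 | ⟨-, h5⟩ <;> omega

/-- pairs inside the labelled part -/
lemma PinMx.inner (h : PinMx F C H tl P φ lb) :
    E F (H \ P) + (lbs H P lb).card * (lbs H P lb).card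
      ≤ (H \ P).card * (H \ P).card - (H \ P).card + (lbs H P lb).card := by
  set U := H \ P with hU
  set L := lbs H P lb with hL
  set N := (U ×ˢ U).filter (fun p => p.1 ≠ p.2 ∧ ¬ F.Adj p.1 p.2) with hN
  set M := (U ×ˢ U).filter (fun p => F.Adj p.1 p.2) with hM
  have h1 : L.offDiag ⊆ N.image (fun p => (lb p.1, lb p.2)) := by
    intro p hp
    obtain ⟨h2, h3, h4⟩ := mem_offDiag.1 hp
    obtain ⟨u, hu, v, hv, e1, e2, h5⟩ := h.merge h2 h3 h4
    refine mem_image.2 ⟨(u, v), mem_filter.2 ⟨mem_product.2 ⟨hu, hv⟩, ?_, h5⟩, ?_⟩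
    · intro h6
      apply h4
      rw [← e1, ← e2]
      exact congrArg lb h6
    · exact Prod.ext e1 e2
  have h2 : L.card * L.card - L.card ≤ N.card := by
    rw [← offDiag_card]
    exact (card_le_card h1).trans card_image_le
  have h3 : Disjoint M N := by
    rw [disjoint_left]
    intro p hp hp'
    exact (mem_filter.1 hp').2.2 (mem_filter.1 hp).2
  have h4 : M ∪ N ⊆ U.offDiag := by
    intro p hp
    rcases mem_union.1 hp with hp | hp
    · obtain ⟨h5, h6⟩ := mem_filter.1 hp
      obtain ⟨h7, h8⟩ := mem_product.1 h5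
      exact mem_offDiag.2 ⟨h7, h8, h6.ne⟩
    · obtain ⟨h5, h6, -⟩ := mem_filter.1 hp
      obtain ⟨h7, h8⟩ := mem_product.1 h5
      exact mem_offDiag.2 ⟨h7, h8, h6⟩
  have h5 := card_le_card h4
  rw [card_union_of_disjoint h3, offDiag_card] at h5
  have h6 : M.card = E F U := by
    rw [hM, card_filter, sum_product]
    unfold E dg
    refine sum_congr rfl fun x _ => ?_
    rw [card_filter]
  have h7 : L.card ≤ L.card * L.card := Nat.le_mul_self _
  have h8 : U.card ≤ U.card * U.card := Nat.le_mul_self _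
  rw [← h6]
  omega

/-- the arcs of an unpinned member -/
lemma PinMx.arc_le (h : PinMx F C H tl P φ lb)
    (h32 : ∀ w ∈ H, ∀ w' ∈ H, ∀ a ∈ C, tl w = tl w' → F.Adj w a → F.Adj w' a → ¬ F.Adj w w')
    {v : V} (hv : v ∈ H \ P) : dg F C v + dg F P v ≤ P.card := by
  have hvH := (mem_sdiff.1 hv).1
  set X := P.filter (fun w => F.Adj v (φ w) ∧ tl w = tl v) with hX
  have h1 : (C.filter fun a => F.Adj v a) ⊆ X.image φ := by
    intro a ha
    obtain ⟨h2, h3⟩ := mem_filter.1 ha
    obtain ⟨w, hw, e1, e2⟩ := h.used hv h2 h3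
    exact mem_image.2 ⟨w, mem_filter.2 ⟨hw, by rw [e1]; exact h3, e2⟩, e1⟩
  have h2 : dg F C v ≤ X.card := (card_le_card h1).trans card_image_le
  have h3 : Disjoint X (P.filter fun w => F.Adj v w) := by
    rw [disjoint_left]
    intro w hw hw'
    obtain ⟨h4, h5, h6⟩ := mem_filter.1 hw
    exact h32 v hvH w (h.sub h4) (φ w) (h.mem w h4) h6.symm h5 (h.adj w h4) (mem_filter.1 hw').2
  have h4 : X ∪ (P.filter fun w => F.Adj v w) ⊆ P := union_subset (filter_subset _ _)
    (filter_subset _ _)
  have h5 := card_le_card h4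
  rw [card_union_of_disjoint h3] at h5
  unfold dg at h2 ⊢
  omega

lemma E_split_pc (F : SimpleGraph V) {A B : Finset V} (hd : Disjoint A B)
    (hB : ∀ a ∈ B, ∀ b ∈ B, ¬ F.Adj a b) :
    E F (A ∪ B) = E F A + 2 * ∑ v ∈ A, dg F B v := by
  have h1 : ∀ v, dg F (A ∪ B) v = dg F A v + dg F B v := by
    intro v
    unfold dg
    rw [filter_union, card_union_of_disjoint (disjoint_filter_filter hd)]
  have h2 : ∑ v ∈ B, dg F B v = 0 := by
    refine sum_eq_zero fun v hv => ?_
    unfold dg
    rw [card_eq_zero, filter_eq_empty_iff]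
    exact fun w hw => hB v hv w hw
  have h3 : ∑ v ∈ B, dg F A v = ∑ v ∈ A, dg F B v := dg_comm F B A
  unfold E
  rw [sum_union hd]
  simp only [h1]
  rw [sum_add_distrib, sum_add_distrib, h2, h3]
  ring

lemma E_split (F : SimpleGraph V) {A B : Finset V} (hd : Disjoint A B) :
    E F (A ∪ B) = E F A + E F B + 2 * ∑ v ∈ A, dg F B v := by
  have h1 : ∀ v, dg F (A ∪ B) v = dg F A v + dg F B v := by
    intro v
    unfold dg
    rw [filter_union, card_union_of_disjoint (disjoint_filter_filter hd)]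
  have h3 : ∑ v ∈ B, dg F A v = ∑ v ∈ A, dg F B v := dg_comm F B A
  unfold E
  rw [sum_union hd]
  simp only [h1]
  rw [sum_add_distrib, sum_add_distrib, h3]
  ring

/-- **the energy, general form**: `X` is any bound for the pairs and arcs at the pinned members -/
theorem PinMx.energy_gen (h : PinMx F C H tl P φ lb) (hd : Disjoint H C)
    (hC : ∀ a ∈ C, ∀ b ∈ C, ¬ F.Adj a b)
    (h32 : ∀ w ∈ H, ∀ w' ∈ H, ∀ a ∈ C, tl w = tl w' → F.Adj w a → F.Adj w' a → ¬ F.Adj w w')
    {X : ℕ} (hX : E F P + 2 * ∑ w ∈ P, dg F C w ≤ P.card * P.card - P.card + X) :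
    (E F (H ∪ C) : ℤ) + (lbs H P lb).card * ((lbs H P lb).card - 1)
      ≤ (H.card : ℤ) * (H.card - 1) + X := by
  have e1 := E_split_pc F hd hC
  have hdP : Disjoint (H \ P) P := sdiff_disjoint
  have e2 := E_split F hdP
  rw [sdiff_union_of_subset h.sub] at e2
  have e3 : ∑ v ∈ H, dg F C v = ∑ v ∈ H \ P, dg F C v + ∑ v ∈ P, dg F C v :=
    (sum_sdiff h.sub).symm
  have h1 := h.inner
  have h2 : ∑ v ∈ H \ P, dg F C v + ∑ v ∈ H \ P, dg F P v ≤ (H \ P).card * P.card := by
    rw [← sum_add_distrib]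
    have := sum_le_card_nsmul (H \ P) (fun v => dg F C v + dg F P v) P.card
      (fun v hv => h.arc_le h32 hv)
    rwa [smul_eq_mul] at this
  have h3 := card_sdiff_add_card_eq_card h.sub
  have h5 : (H \ P).card ≤ (H \ P).card * (H \ P).card := Nat.le_mul_self _
  have h6 : P.card ≤ P.card * P.card := Nat.le_mul_self _
  rw [e1, e2, e3]
  zify [h5, h6] at h1 h2 h3 hX ⊢
  have h7 : (H.card : ℤ) = (H \ P).card + P.card := by linarith
  rw [h7]
  nlinarith

/-- the pairs and arcs at the pinned members, crude form -/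
lemma Pin.pinned (F : SimpleGraph V) (C P : Finset V) :
    E F P + 2 * ∑ w ∈ P, dg F C w ≤ P.card * P.card - P.card + 2 * ∑ w ∈ P, dg F C w := by
  have h1 : E F P ≤ P.card * P.card - P.card := by
    have h2 := E_le F P
    have h3 : P.card ≤ P.card * P.card := Nat.le_mul_self _
    zify [h3]
    linarith
  omega

/-- **the energy of a host with clique units** -/
theorem PinMx.energy (h : PinMx F C H tl P φ lb) (hd : Disjoint H C)
    (hC : ∀ a ∈ C, ∀ b ∈ C, ¬ F.Adj a b)
    (h32 : ∀ w ∈ H, ∀ w' ∈ H, ∀ a ∈ C, tl w = tl w' → F.Adj w a → F.Adj w' a → ¬ F.Adj w w') :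
    (E F (H ∪ C) : ℤ) + (lbs H P lb).card * ((lbs H P lb).card - 1)
      ≤ (H.card : ℤ) * (H.card - 1) + 2 * ∑ w ∈ P, (dg F C w : ℤ) := by
  have h1 := h.energy_gen hd hC h32 (Pin.pinned F C P)
  push_cast at h1
  exact h1

/-- missed class points of a pinned member whose copy is not used -/
noncomputable def fre (F : SimpleGraph V) (C P : Finset V) (φ : V → V) (tl : V → ι) (w : V) :
    Finset V :=
  C.filter fun a => F.Adj w a ∧ ∀ w' ∈ P, tl w' = tl w → φ w' ≠ a

/-- ordered pairs of pinned members with both arcs -/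
noncomputable def dbl (F : SimpleGraph V) (P : Finset V) (φ : V → V) (tl : V → ι) :
    Finset (V × V) :=
  (P ×ˢ P).filter fun p => p.1 ≠ p.2 ∧ tl p.1 = tl p.2 ∧ F.Adj p.1 (φ p.2) ∧ F.Adj p.2 (φ p.1)

/-- the pairs and arcs at the pinned members, sharp form -/
lemma Pin.pinned' (h : Pin F C H tl P φ lb)
    (h32 : ∀ w ∈ H, ∀ w' ∈ H, ∀ a ∈ C, tl w = tl w' → F.Adj w a → F.Adj w' a → ¬ F.Adj w w') :
    E F P + 2 * ∑ w ∈ P, dg F C w ≤ P.card * P.card - P.card
      + (2 * P.card + 2 * ∑ w ∈ P, (fre F C P φ tl w).card + (dbl F P φ tl).card) := by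
  -- used arcs of `w`
  set us : V → Finset V := fun w =>
    P.filter fun w' => w' ≠ w ∧ tl w' = tl w ∧ F.Adj w (φ w') with hus
  have h1 : ∀ w ∈ P, dg F C w ≤ 1 + (fre F C P φ tl w).card + (us w).card := by
    intro w hw
    have h2 : (C.filter fun a => F.Adj w a) ⊆ {φ w} ∪ (fre F C P φ tl w ∪ (us w).image φ) := by
      intro a ha
      obtain ⟨h3, h4⟩ := mem_filter.1 ha
      by_cases h5 : ∀ w' ∈ P, tl w' = tl w → φ w' ≠ a
      · exact mem_union_right _ (mem_union_left _ (mem_filter.2 ⟨h3, h4, h5⟩))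
      · push Not at h5
        obtain ⟨w', hw', h6, h7⟩ := h5
        by_cases h8 : w' = w
        · rw [h8] at h7
          exact mem_union_left _ (mem_singleton.2 h7.symm)
        · refine mem_union_right _ (mem_union_right _ (mem_image.2 ⟨w', mem_filter.2
            ⟨hw', h8, h6, ?_⟩, h7⟩))
          rw [h7]
          exact h4
    have h3 := card_le_card h2
    have h4 := card_union_le {φ w} (fre F C P φ tl w ∪ (us w).image φ)
    have h5 := card_union_le (fre F C P φ tl w) ((us w).image φ)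
    have h6 : ((us w).image φ).card ≤ (us w).card := card_image_le
    have h7 : ({φ w} : Finset V).card = 1 := card_singleton _
    unfold dg
    omega
  have h2 : ∑ w ∈ P, dg F C w ≤ P.card + ∑ w ∈ P, (fre F C P φ tl w).card
      + ∑ w ∈ P, (us w).card := by
    have h3 := sum_le_sum h1
    rw [sum_add_distrib, sum_add_distrib, sum_const, smul_eq_mul, mul_one] at h3
    exact h3
  -- ordered pairs
  have h3 : E F P + 2 * ∑ w ∈ P, (us w).card ≤ P.card * P.card - P.card + (dbl F P φ tl).card := by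
    have a1 : E F P = ∑ p ∈ P ×ˢ P, (if F.Adj p.1 p.2 then 1 else 0) := by
      rw [sum_product]
      unfold E dg
      exact sum_congr rfl fun x _ => by rw [card_filter]
    have a2 : ∑ w ∈ P, (us w).card = ∑ p ∈ P ×ˢ P,
        (if p.2 ≠ p.1 ∧ tl p.2 = tl p.1 ∧ F.Adj p.1 (φ p.2) then 1 else 0) := by
      rw [sum_product]
      exact sum_congr rfl fun x _ => by rw [hus, card_filter]
    have a3 : ∑ w ∈ P, (us w).card = ∑ p ∈ P ×ˢ P,
        (if p.1 ≠ p.2 ∧ tl p.1 = tl p.2 ∧ F.Adj p.2 (φ p.1) then 1 else 0) := by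
      rw [sum_product_right]
      exact sum_congr rfl fun x _ => by rw [hus, card_filter]
    have a4 : (dbl F P φ tl).card = ∑ p ∈ P ×ˢ P,
        (if p.1 ≠ p.2 ∧ tl p.1 = tl p.2 ∧ F.Adj p.1 (φ p.2) ∧ F.Adj p.2 (φ p.1) then 1 else 0) := by
      unfold dbl
      rw [card_filter]
    have a5 : P.card * P.card - P.card = ∑ p ∈ P ×ˢ P, (if p.1 ≠ p.2 then 1 else 0) := by
      rw [← offDiag_card, ← card_filter]
      congr 1
      ext p
      rw [mem_offDiag, mem_filter, mem_product, and_assoc]
    have a6 : E F P + 2 * ∑ w ∈ P, (us w).card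
        = E F P + ∑ w ∈ P, (us w).card + ∑ w ∈ P, (us w).card := by ring
    rw [a6, a5, a4]
    nth_rewrite 1 [a2]
    rw [a3, a1, ← sum_add_distrib, ← sum_add_distrib, ← sum_add_distrib]
    refine sum_le_sum fun p hp => ?_
    obtain ⟨hp1, hp2⟩ := mem_product.1 hp
    by_cases b1 : p.1 = p.2
    · have b2 : ¬ F.Adj p.1 p.2 := by
        rw [b1]
        exact F.loopless.irrefl _
      simp [b1]
    · have b1' : p.2 ≠ p.1 := fun e => b1 e.symm
      by_cases b2 : F.Adj p.1 p.2
      · have b3 : ¬ (tl p.2 = tl p.1 ∧ F.Adj p.1 (φ p.2)) := by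
          rintro ⟨c1, c2⟩
          exact h32 p.1 (h.sub hp1) p.2 (h.sub hp2) (φ p.2) (h.mem _ hp2) c1.symm c2
            (h.adj _ hp2) b2
        have b4 : ¬ (tl p.1 = tl p.2 ∧ F.Adj p.2 (φ p.1)) := by
          rintro ⟨c1, c2⟩
          exact h32 p.1 (h.sub hp1) p.2 (h.sub hp2) (φ p.1) (h.mem _ hp1) c1 (h.adj _ hp1)
            c2 b2
        have b5 : ¬ (p.2 ≠ p.1 ∧ tl p.2 = tl p.1 ∧ F.Adj p.1 (φ p.2)) := fun c => b3 c.2
        have b6 : ¬ (p.1 ≠ p.2 ∧ tl p.1 = tl p.2 ∧ F.Adj p.2 (φ p.1)) := fun c => b4 c.2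
        rw [if_pos b2, if_neg b5, if_neg b6, if_pos b1]
        omega
      · rw [if_neg b2, if_pos b1]
        by_cases b3 : tl p.1 = tl p.2 ∧ F.Adj p.1 (φ p.2)
        · by_cases b4 : F.Adj p.2 (φ p.1)
          · rw [if_pos ⟨b1', b3.1.symm, b3.2⟩, if_pos ⟨b1, b3.1, b4⟩,
              if_pos ⟨b1, b3.1, b3.2, b4⟩]
          · rw [if_neg (fun c : p.1 ≠ p.2 ∧ tl p.1 = tl p.2 ∧ F.Adj p.2 (φ p.1) => b4 c.2.2)]
            split_ifs <;> omega
        · rw [if_neg (fun c : p.2 ≠ p.1 ∧ tl p.2 = tl p.1 ∧ F.Adj p.1 (φ p.2) =>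
            b3 ⟨c.2.1.symm, c.2.2⟩)]
          split_ifs <;> omega
  omega

/-- **the energy of a host with clique units, sharp form** -/
theorem PinMx.energy' (h : PinMx F C H tl P φ lb) (hd : Disjoint H C)
    (hC : ∀ a ∈ C, ∀ b ∈ C, ¬ F.Adj a b)
    (h32 : ∀ w ∈ H, ∀ w' ∈ H, ∀ a ∈ C, tl w = tl w' → F.Adj w a → F.Adj w' a → ¬ F.Adj w w') :
    (E F (H ∪ C) : ℤ) + (lbs H P lb).card * ((lbs H P lb).card - 1)
      ≤ (H.card : ℤ) * (H.card - 1) + 2 * P.card
        + 2 * ∑ w ∈ P, ((fre F C P φ tl w).card : ℤ) + (dbl F P φ tl).card := by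
  have h1 := h.energy_gen hd hC h32 (Pin.pinned' h.toPin h32)
  push_cast at h1
  linarith

end Pin

end Pool.Agent.Lib.MP_f04ccf_co
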