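import Pool.Agent.Lib.MP_f04ccf_co.M.EnGC

/-!
MP_f04ccf_co, STATE 10 (L1), note 17633: the energy of a part of a home (whole items and class points dropped).

`B1 ⊆ B`, `P1 ⊆ Ps` are the kept PC pairs and the kept parts of a packing with the least number of parts, `C1 ⊆ C`
are the kept class points (any subset).
* `Pk.keep`: the kept part is a packing; `Pk.keepC`, `Pk.keep_min`, `PkOpt.keep`: with the class points of the
  dropped PC pairs removed it is again a packing with the least number of parts (and optimal).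
* `Pk.E_partsD`: the edges inside the kept parts.
* `losD`: the arcs of kept members to kept class points of dropped PC pairs of the same tail (unpaid arcs).
* `Pk.energy_drop`: the energy of the kept part, the PC pairs of one tail `y` kept exactly.
-/

set_option autoImplicit false

namespace Pool.Agent.Lib.MP_f04ccf_co

open Finset

attribute [local instance] Classical.propDecidable

section EnD

variable {ι V : Type*} {G : SimpleGraph V} {C H : Finset V} {tl : V → ι}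
  {B B1 : Finset (V × V)} {Ps P1 : Finset (Finset V)}

/-- **a part of a packing is a packing of its members** -/
lemma Pk.keep (h : Pk G C H tl B Ps) (hB : B1 ⊆ B) (hP : P1 ⊆ Ps) :
    Pk G C (B1.image Prod.fst ∪ P1.biUnion id) tl B1 P1 where
  bH := fun e he => mem_union_left _ (mem_image_of_mem _ he)
  bC := fun e he => h.bC e (hB he)
  bN := fun e he => h.bN e (hB he)
  b1 := fun e he f hf => h.b1 e (hB he) f (hB hf)
  b2 := fun e he f hf => h.b2 e (hB he) f (hB hf)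
  ne := fun P hP' => h.ne P (hP hP')
  sub := fun P hP' _ hv => mem_union_right _ (mem_biUnion.2 ⟨P, hP', hv⟩)
  ind := fun P hP' => h.ind P (hP hP')
  dis := fun P hP' Q hQ => h.dis P (hP hP') Q (hP hQ)
  dw := fun e he P hP' => h.dw e (hB he) P (hP hP')
  cov := fun v hv => by
    rcases mem_union.1 hv with h1 | h1
    · obtain ⟨e, he, rfl⟩ := mem_image.1 h1
      exact Or.inl ⟨e, he, rfl⟩
    · obtain ⟨P, hP', hv'⟩ := mem_biUnion.1 h1
      exact Or.inr ⟨P, hP', hv'⟩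

lemma Pk.keep_sub (h : Pk G C H tl B Ps) (hB : B1 ⊆ B) (hP : P1 ⊆ Ps) :
    B1.image Prod.fst ∪ P1.biUnion id ⊆ H := by
  intro v hv
  rcases mem_union.1 hv with h1 | h1
  · obtain ⟨e, he, rfl⟩ := mem_image.1 h1
    exact h.bH e (hB he)
  · obtain ⟨P, hP', hv'⟩ := mem_biUnion.1 h1
    exact h.sub P (hP hP') hv'

/-- the same with fewer class points -/
lemma Pk.keepC (h : Pk G C H tl B Ps) (hB : B1 ⊆ B) (hP : P1 ⊆ Ps) {C1 : Finset V}
    (hC1 : ∀ e ∈ B1, e.2 ∈ C1) :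
    Pk G C1 (B1.image Prod.fst ∪ P1.biUnion id) tl B1 P1 where
  bH := (h.keep hB hP).bH
  bC := hC1
  bN := (h.keep hB hP).bN
  b1 := (h.keep hB hP).b1
  b2 := (h.keep hB hP).b2
  ne := (h.keep hB hP).ne
  sub := (h.keep hB hP).sub
  ind := (h.keep hB hP).ind
  dis := (h.keep hB hP).dis
  dw := (h.keep hB hP).dw
  cov := (h.keep hB hP).cov

/-- a packing of the kept members together with the dropped items is a packing of the home, if no class point of
a dropped PC pair is used -/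
lemma Pk.glue (h : Pk G C H tl B Ps) (hB : B1 ⊆ B) (hP : P1 ⊆ Ps) {C1 : Finset V} (hC1 : C1 ⊆ C)
    (hC2 : ∀ e ∈ B \ B1, e.2 ∉ C1) {B' : Finset (V × V)} {Ps' : Finset (Finset V)}
    (h' : Pk G C1 (B1.image Prod.fst ∪ P1.biUnion id) tl B' Ps') :
    Pk G C H tl (B' ∪ (B \ B1)) (Ps' ∪ (Ps \ P1)) := by
  have hs := h.keep_sub hB hP
  have hdB : ∀ e ∈ B \ B1, e.1 ∉ B1.image Prod.fst ∪ P1.biUnion id := by
    intro e he h1
    obtain ⟨h2, h3⟩ := mem_sdiff.1 he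
    rcases mem_union.1 h1 with h4 | h4
    · obtain ⟨f, hf, hfe⟩ := mem_image.1 h4
      exact h3 (h.b1 f (hB hf) e h2 hfe ▸ hf)
    · obtain ⟨P, hP', hv⟩ := mem_biUnion.1 h4
      exact h.dw e h2 P (hP hP') hv
  have hdP : ∀ Q ∈ Ps \ P1, ∀ v ∈ Q, v ∉ B1.image Prod.fst ∪ P1.biUnion id := by
    intro Q hQ v hv h1
    obtain ⟨h2, h3⟩ := mem_sdiff.1 hQ
    rcases mem_union.1 h1 with h4 | h4
    · obtain ⟨f, hf, hfe⟩ := mem_image.1 h4
      exact h.dw f (hB hf) Q h2 (hfe ▸ hv)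
    · obtain ⟨P, hP', hv'⟩ := mem_biUnion.1 h4
      exact h3 (h.part_eq (hP hP') h2 hv' hv ▸ hP')
  refine ⟨?_, ?_, ?_, ?_, ?_, ?_, ?_, ?_, ?_, ?_, ?_⟩
  · intro e he
    rcases mem_union.1 he with h1 | h1
    · exact hs (h'.bH e h1)
    · exact h.bH e (mem_sdiff.1 h1).1
  · intro e he
    rcases mem_union.1 he with h1 | h1
    · exact hC1 (h'.bC e h1)
    · exact h.bC e (mem_sdiff.1 h1).1
  · intro e he
    rcases mem_union.1 he with h1 | h1
    · exact h'.bN e h1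
    · exact h.bN e (mem_sdiff.1 h1).1
  · intro e he f hf hef
    rcases mem_union.1 he with h1 | h1 <;> rcases mem_union.1 hf with h2 | h2
    · exact h'.b1 e h1 f h2 hef
    · exact absurd (hef ▸ h'.bH e h1) (hdB f h2)
    · exact absurd (hef ▸ h'.bH f h2) (hdB e h1)
    · exact h.b1 e (mem_sdiff.1 h1).1 f (mem_sdiff.1 h2).1 hef
  · intro e he f hf hef htl
    rcases mem_union.1 he with h1 | h1 <;> rcases mem_union.1 hf with h2 | h2
    · exact h'.b2 e h1 f h2 hef htl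
    · exact absurd (hef ▸ h'.bC e h1) (hC2 f h2)
    · exact absurd (hef ▸ h'.bC f h2) (hC2 e h1)
    · exact h.b2 e (mem_sdiff.1 h1).1 f (mem_sdiff.1 h2).1 hef htl
  · intro P hP'
    rcases mem_union.1 hP' with h1 | h1
    · exact h'.ne P h1
    · exact h.ne P (mem_sdiff.1 h1).1
  · intro P hP'
    rcases mem_union.1 hP' with h1 | h1
    · exact (h'.sub P h1).trans hs
    · exact h.sub P (mem_sdiff.1 h1).1
  · intro P hP'
    rcases mem_union.1 hP' with h1 | h1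
    · exact h'.ind P h1
    · exact h.ind P (mem_sdiff.1 h1).1
  · intro P hP' Q hQ hPQ
    rcases mem_union.1 hP' with h1 | h1 <;> rcases mem_union.1 hQ with h2 | h2
    · exact h'.dis P h1 Q h2 hPQ
    · rw [disjoint_left]
      exact fun v hv hv' => hdP Q h2 v hv' (h'.sub P h1 hv)
    · rw [disjoint_left]
      exact fun v hv hv' => hdP P h1 v hv (h'.sub Q h2 hv')
    · exact h.dis P (mem_sdiff.1 h1).1 Q (mem_sdiff.1 h2).1 hPQ
  · intro e he P hP'
    rcases mem_union.1 he with h1 | h1 <;> rcases mem_union.1 hP' with h2 | h2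
    · exact h'.dw e h1 P h2
    · exact fun hv => hdP P h2 e.1 hv (h'.bH e h1)
    · exact fun hv => hdB e h1 (h'.sub P h2 hv)
    · exact h.dw e (mem_sdiff.1 h1).1 P (mem_sdiff.1 h2).1
  · intro v hv
    rcases h.cov v hv with ⟨e, he, hev⟩ | ⟨P, hP', hvP⟩
    · by_cases h1 : e ∈ B1
      · rcases h'.cov v (mem_union_left _ (hev ▸ mem_image_of_mem _ h1)) with
          ⟨f, hf, hfv⟩ | ⟨Q, hQ, hvQ⟩
        · exact Or.inl ⟨f, mem_union_left _ hf, hfv⟩
        · exact Or.inr ⟨Q, mem_union_left _ hQ, hvQ⟩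
      · exact Or.inl ⟨e, mem_union_right _ (mem_sdiff.2 ⟨he, h1⟩), hev⟩
    · by_cases h1 : P ∈ P1
      · rcases h'.cov v (mem_union_right _ (mem_biUnion.2 ⟨P, h1, hvP⟩)) with
          ⟨f, hf, hfv⟩ | ⟨Q, hQ, hvQ⟩
        · exact Or.inl ⟨f, mem_union_left _ hf, hfv⟩
        · exact Or.inr ⟨Q, mem_union_left _ hQ, hvQ⟩
      · exact Or.inr ⟨P, mem_union_right _ (mem_sdiff.2 ⟨hP', h1⟩), hvP⟩

/-- **the kept parts are a least number of parts** -/
theorem Pk.keep_min (h : Pk G C H tl B Ps)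
    (hmin : ∀ B' Ps', Pk G C H tl B' Ps' → Ps.card ≤ Ps'.card) (hB : B1 ⊆ B) (hP : P1 ⊆ Ps)
    {C1 : Finset V} (hC1 : C1 ⊆ C) (hC2 : ∀ e ∈ B \ B1, e.2 ∉ C1) :
    ∀ B' Ps', Pk G C1 (B1.image Prod.fst ∪ P1.biUnion id) tl B' Ps' → P1.card ≤ Ps'.card := by
  intro B' Ps' h'
  have h1 := hmin _ _ (h.glue hB hP hC1 hC2 h')
  have h2 := card_union_le Ps' (Ps \ P1)
  have h3 := card_sdiff_add_card_eq_card hP
  omega

private lemma E_filter' (X : Finset V) :
    E G X = ((X ×ˢ X).filter fun e => G.Adj e.1 e.2).card := by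
  unfold E
  rw [card_filter, sum_product]
  refine sum_congr rfl fun x _ => ?_
  unfold dg
  rw [card_filter]

/-- **the edges inside the kept parts** -/
theorem Pk.E_partsD (h : Pk G C H tl B Ps)
    (hmin : ∀ B' Ps', Pk G C H tl B' Ps' → Ps.card ≤ Ps'.card)
    (h32 : ∀ v ∈ H, ∀ w ∈ H, ∀ a ∈ C, v ≠ w → tl v = tl w →
      ¬ G.Adj v a → ¬ G.Adj w a → G.Adj v w) (hP : P1 ⊆ Ps) :
    P1.card * P1.card + E G ((P1.biUnion id).filter fun v => (frC G C tl B v).Nonempty)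
      ≤ E G (P1.biUnion id) + P1.card := by
  set U : Finset V := P1.biUnion id with hU
  set N : Finset V := (P1.biUnion id).filter fun v => (frC G C tl B v).Nonempty with hN
  have hNU : N ⊆ U := fun v hv => (mem_filter.1 hv).1
  have hp : ∀ v : V, ∃ P : Finset V, ∀ Q ∈ Ps, v ∈ Q → P = Q := by
    intro v
    by_cases h1 : ∃ Q ∈ Ps, v ∈ Q
    · obtain ⟨Q, hQ, hv⟩ := h1
      exact ⟨Q, fun R hR hvR => h.part_eq hQ hR hv hvR⟩
    · exact ⟨∅, fun Q hQ hv => absurd ⟨Q, hQ, hv⟩ h1⟩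
  choose p hp using hp
  set F : Finset (V × V) := (U ×ˢ U).filter fun e => G.Adj e.1 e.2 with hF
  set F1 : Finset (V × V) := (N ×ˢ N).filter fun e => G.Adj e.1 e.2 with hF1
  have hF1F : F1 ⊆ F := filter_subset_filter _ (product_subset_product hNU hNU)
  have h1 : P1.offDiag ⊆ (F \ F1).image fun e => (p e.1, p e.2) := by
    intro PQ hPQ
    obtain ⟨P, Q⟩ := PQ
    obtain ⟨hP', hQ, hne⟩ := mem_offDiag.1 hPQ
    obtain ⟨x, hx, y, hy, hxy, hxN⟩ := h.edgeN hmin h32 (hP hP') (hP hQ) hne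
    refine mem_image.2 ⟨(x, y), mem_sdiff.2 ⟨mem_filter.2 ⟨mem_product.2 ⟨?_, ?_⟩, hxy⟩, ?_⟩, ?_⟩
    · exact mem_biUnion.2 ⟨P, hP', hx⟩
    · exact mem_biUnion.2 ⟨Q, hQ, hy⟩
    · intro h2
      exact hxN (mem_filter.1 (mem_product.1 (mem_filter.1 h2).1).1).2
    · rw [Prod.mk.injEq]
      exact ⟨hp x P (hP hP') hx, hp y Q (hP hQ) hy⟩
  have h2 := (card_le_card h1).trans card_image_le
  rw [offDiag_card] at h2
  have h3 := card_sdiff_add_card_eq_card hF1F
  rw [E_filter', E_filter', ← hF, ← hF1]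
  omega

variable (G tl) in
/-- the unpaid arcs: kept members `X`, kept class points `C1` of dropped PC pairs of the same tail -/
noncomputable def losD (C1 : Finset V) (B B1 : Finset (V × V)) (X : Finset V) : ℕ :=
  ∑ e ∈ (B \ B1).filter (fun e => e.2 ∈ C1),
    (X.filter fun v => tl v = tl e.1 ∧ ¬ G.Adj v e.2).card

lemma losD_zero {C1 X : Finset V} (hC2 : ∀ e ∈ B \ B1, e.2 ∉ C1) : losD G tl C1 B B1 X = 0 := by
  unfold losD
  have h1 : (B \ B1).filter (fun e => e.2 ∈ C1) = ∅ := by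
    rw [filter_eq_empty_iff]
    exact fun e he => hC2 e he
  rw [h1, sum_empty]

/-- the unpaid arcs, counted at the members -/
private lemma sum_drC (C1 X : Finset V) :
    ∑ v ∈ X, (C1.filter fun a => ¬ G.Adj v a ∧ ∃ e ∈ B \ B1, e.2 = a ∧ tl e.1 = tl v).card
      ≤ losD G tl C1 B B1 X := by
  have h1 : ∀ v ∈ X,
      (C1.filter fun a => ¬ G.Adj v a ∧ ∃ e ∈ B \ B1, e.2 = a ∧ tl e.1 = tl v).card ≤
      (((B \ B1).filter (fun e => e.2 ∈ C1)).filter fun e => tl v = tl e.1 ∧ ¬ G.Adj v e.2).card := by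
    intro v _
    have h2 : ∀ a ∈ C1.filter (fun a => ¬ G.Adj v a ∧ ∃ e ∈ B \ B1, e.2 = a ∧ tl e.1 = tl v),
        ∃ e ∈ B \ B1, e.2 = a ∧ tl e.1 = tl v := fun a ha => (mem_filter.1 ha).2.2
    choose! f hf1 hf3 hf4 using h2
    refine card_le_card_of_injOn f ?_ ?_
    · intro a ha
      have ha' : a ∈ C1.filter fun a => ¬ G.Adj v a ∧ ∃ e ∈ B \ B1, e.2 = a ∧ tl e.1 = tl v := by
        exact_mod_cast ha
      have h3 : ¬ G.Adj v (f a).2 := by
        rw [hf3 a ha']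
        exact (mem_filter.1 ha').2.1
      have h4 : (f a).2 ∈ C1 := by
        rw [hf3 a ha']
        exact (mem_filter.1 ha').1
      have : f a ∈ ((B \ B1).filter (fun e => e.2 ∈ C1)).filter
          fun e => tl v = tl e.1 ∧ ¬ G.Adj v e.2 :=
        mem_filter.2 ⟨mem_filter.2 ⟨hf1 a ha', h4⟩, (hf4 a ha').symm, h3⟩
      exact_mod_cast this
    · intro a ha b hb hab
      have ha' : a ∈ C1.filter fun a => ¬ G.Adj v a ∧ ∃ e ∈ B \ B1, e.2 = a ∧ tl e.1 = tl v := by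
        exact_mod_cast ha
      have hb' : b ∈ C1.filter fun a => ¬ G.Adj v a ∧ ∃ e ∈ B \ B1, e.2 = a ∧ tl e.1 = tl v := by
        exact_mod_cast hb
      rw [← hf3 a ha', ← hf3 b hb', hab]
  refine (sum_le_sum h1).trans (le_of_eq ?_)
  have h2 := sum_card_bipartiteAbove_eq_sum_card_bipartiteBelow (s := X)
    (t := (B \ B1).filter (fun e => e.2 ∈ C1)) (fun v e => tl v = tl e.1 ∧ ¬ G.Adj v e.2)
  simp only [bipartiteAbove, bipartiteBelow] at h2
  exact h2

/-- the used arcs: to kept PC pairs or to dropped ones -/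
private lemma usC_keep {C1 : Finset V} (hC1 : C1 ⊆ C) (v : V) :
    (usC G C1 tl B v).card ≤ (usC G C tl B1 v).card
      + (C1.filter fun a => ¬ G.Adj v a ∧ ∃ e ∈ B \ B1, e.2 = a ∧ tl e.1 = tl v).card := by
  refine le_trans (card_le_card fun a ha => ?_) (card_union_le _ _)
  obtain ⟨h1, h2, e, he, h3, h4, h5⟩ := mem_usC.1 ha
  by_cases h6 : e ∈ B1
  · exact mem_union_left _ (mem_usC.2 ⟨hC1 h1, h2, e, h6, h3, h4, h5⟩)
  · exact mem_union_right _ (mem_filter.2 ⟨h1, h2, e, mem_sdiff.2 ⟨he, h6⟩, h4, h5⟩)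

/-- the missed points of a member of a PC pair, any class points -/
private lemma nd_W' (h : Pk G C H tl B Ps) (C1 : Finset V) {e : V × V} (he : e ∈ B) :
    nd G C1 e.1 ≤ 1 + (frC G C1 tl B e.1).card + (usC G C1 tl B e.1).card := by
  have h0 : C1.filter (fun a => a ≠ e.1 ∧ ¬ G.Adj e.1 a) ⊆
      {e.2} ∪ (frC G C1 tl B e.1 ∪ usC G C1 tl B e.1) := by
    intro a ha
    obtain ⟨h1, -, h2⟩ := mem_filter.1 ha
    by_cases h3 : ∀ f ∈ B, f.2 = a → tl f.1 ≠ tl e.1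
    · exact mem_union_right _ (mem_union_left _ (mem_frC.2 ⟨h1, h2, h3⟩))
    · push Not at h3
      obtain ⟨f, hf, h4, h5⟩ := h3
      by_cases h6 : f.1 = e.1
      · have h7 := h.b1 f hf e he h6
        rw [← h4, h7]
        exact mem_union_left _ (mem_singleton_self _)
      · exact mem_union_right _ (mem_union_right _ (mem_usC.2 ⟨h1, h2, f, hf, h6, h4, h5⟩))
  have h1 := card_le_card h0
  have h2 := card_union_le {e.2} (frC G C1 tl B e.1 ∪ usC G C1 tl B e.1)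
  have h3 := card_union_le (frC G C1 tl B e.1) (usC G C1 tl B e.1)
  have h4 : ({e.2} : Finset V).card = 1 := card_singleton _
  unfold nd
  omega

/-- **the energy of a part of a home**: kept PC pairs `B1`, kept parts `P1`, kept class points `C1`; the PC pairs
of the tail `y` kept exactly -/
theorem Pk.energy_drop (h : Pk G C H tl B Ps)
    (hmin : ∀ B' Ps', Pk G C H tl B' Ps' → Ps.card ≤ Ps'.card)
    (h32 : ∀ v ∈ H, ∀ w ∈ H, ∀ a ∈ C, v ≠ w → tl v = tl w →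
      ¬ G.Adj v a → ¬ G.Adj w a → G.Adj v w) (hC : Clq G C) (hHC : Disjoint H C)
    (hB : B1 ⊆ B) (hP : P1 ⊆ Ps) {C1 : Finset V} (hC1 : C1 ⊆ C) (y : ι) {D : ℕ}
    (hD : ∑ e ∈ B1, Pk.uin G tl (P1.biUnion id) e + D ≤ ∑ e ∈ B1, dg G (P1.biUnion id) e.1) :
    (NE G ((B1.image Prod.fst ∪ P1.biUnion id) ∪ C1) : ℤ) + P1.card * (P1.card - 1)
        + E G ((P1.biUnion id).filter fun v => (frC G C tl B v).Nonempty) + 2 * D
        + E G ((pcs tl B1 y).image Prod.fst)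
      ≤ ((B1.image Prod.fst ∪ P1.biUnion id).card : ℤ)
          * ((B1.image Prod.fst ∪ P1.biUnion id).card - 1)
        + 2 * ∑ v ∈ P1.biUnion id, ((frC G C1 tl B v).card : ℤ)
        + 2 * ∑ e ∈ B1 \ pcs tl B1 y, (1 + (frC G C1 tl B e.1).card : ℤ)
        + bothB G tl (B1 \ pcs tl B1 y) + 2 * ∑ e ∈ pcs tl B1 y, (nd G C1 e.1 : ℤ)
        + 2 * losD G tl C1 B B1 (P1.biUnion id ∪ (B1 \ pcs tl B1 y).image Prod.fst) := by
  have hk := h.keep hB hP
  have hs := h.keep_sub hB hP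
  have hUe := hk.union_eq
  obtain ⟨H1, hH1⟩ : ∃ X, X = B1.image Prod.fst ∪ P1.biUnion id := ⟨_, rfl⟩
  rw [← hH1] at hk hs hUe ⊢
  obtain ⟨By, hBy⟩ : ∃ By, By = pcs tl B1 y := ⟨_, rfl⟩
  obtain ⟨Bo, hBo⟩ : ∃ Bo, Bo = B1 \ pcs tl B1 y := ⟨_, rfl⟩
  obtain ⟨W, hW⟩ : ∃ W, W = B1.image Prod.fst := ⟨_, rfl⟩
  obtain ⟨Wy, hWy⟩ : ∃ W, W = By.image Prod.fst := ⟨_, rfl⟩
  obtain ⟨Wo, hWo⟩ : ∃ W, W = Bo.image Prod.fst := ⟨_, rfl⟩
  obtain ⟨U, hU⟩ : ∃ U, U = P1.biUnion id := ⟨_, rfl⟩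
  have hBB : B1 = By ∪ Bo := by
    rw [hBy, hBo, union_sdiff_of_subset]
    exact filter_subset _ _
  have hdB : Disjoint By Bo := by
    rw [hBy, hBo]
    exact disjoint_sdiff
  have hWH : W ⊆ H1 := hW ▸ hk.W_sub
  have hUe' : H1 \ W = U := by rw [hW, hU, hUe]
  have hd : Disjoint U W := hUe' ▸ sdiff_disjoint
  have hUW : U ∪ W = H1 := hUe' ▸ sdiff_union_of_subset hWH
  have hWW : W = Wy ∪ Wo := by rw [hW, hBB, image_union, hWy, hWo]
  have hdW : Disjoint Wy Wo := by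
    rw [disjoint_left]
    intro v hv hv'
    rw [hWy] at hv
    rw [hWo] at hv'
    obtain ⟨e, he, h1⟩ := mem_image.1 hv
    obtain ⟨f, hf, h2⟩ := mem_image.1 hv'
    have h3 := hk.b1 e (hBB ▸ mem_union_left _ he) f (hBB ▸ mem_union_right _ hf)
      (h1.trans h2.symm)
    exact disjoint_left.1 hdB he (h3 ▸ hf)
  have hHC1 : Disjoint H1 C1 := (hHC.mono_left hs).mono_right hC1
  have hC1c : Clq G C1 := fun a ha b hb hab => hC a (hC1 ha) b (hC1 hb) hab
  have h1 := NE_union (G := G) hHC1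
  rw [NE_clq hC1c, nd_comm, add_zero] at h1
  have h2 : ∑ v ∈ H1, nd G C1 v = ∑ v ∈ U, nd G C1 v + ∑ v ∈ W, nd G C1 v := by
    rw [← sum_union hd, hUW]
  have himg : ∀ f : V → ℕ, ∑ v ∈ W, f v = ∑ e ∈ B1, f e.1 := by
    intro f
    rw [hW, sum_image fun e he f hf hef =>
      hk.b1 e (by exact_mod_cast he) f (by exact_mod_cast hf) hef]
  have himo : ∀ f : V → ℕ, ∑ v ∈ Wo, f v = ∑ e ∈ Bo, f e.1 := by
    intro f
    rw [hWo, sum_image fun e he f hf hef =>
      hk.b1 e (hBB ▸ mem_union_right _ (by exact_mod_cast he)) f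
        (hBB ▸ mem_union_right _ (by exact_mod_cast hf)) hef]
  have h3 : ∑ v ∈ W, nd G C1 v = ∑ e ∈ By, nd G C1 e.1 + ∑ e ∈ Bo, nd G C1 e.1 := by
    rw [himg, ← sum_union hdB, ← hBB]
  have h4 := E_add_NE (G := G) H1
  have hdgU : ∀ (X Y : Finset V), Disjoint X Y → ∀ v, dg G (X ∪ Y) v = dg G X v + dg G Y v := by
    intro X Y hXY v
    unfold dg
    rw [filter_union, card_union_of_disjoint (disjoint_filter_filter hXY)]
  have h5 : E G U + 2 * ∑ e ∈ B1, dg G U e.1 + E G W = E G H1 := by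
    have h6 : E G H1 = ∑ v ∈ U, dg G (U ∪ W) v + ∑ v ∈ W, dg G (U ∪ W) v := by
      rw [← sum_union hd, hUW]
      rfl
    have h8 : ∑ v ∈ W, dg G U v = ∑ v ∈ U, dg G W v := by
      have h9 := sum_card_bipartiteAbove_eq_sum_card_bipartiteBelow (s := W) (t := U)
        (fun a b => G.Adj a b)
      unfold dg
      simp only [bipartiteAbove, bipartiteBelow] at h9
      rw [h9]
      refine sum_congr rfl fun b _ => ?_
      congr 1
      ext a
      simp [G.adj_comm]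
    rw [h6]
    simp only [hdgU U W hd, sum_add_distrib]
    rw [← h8, himg]
    have h10 : E G U = ∑ v ∈ U, dg G U v := rfl
    have h11 : E G W = ∑ v ∈ W, dg G W v := rfl
    rw [h10, h11]
    ring
  have h5' : E G Wy + E G Wo ≤ E G W := by
    have h6 : E G W = ∑ v ∈ Wy, dg G (Wy ∪ Wo) v + ∑ v ∈ Wo, dg G (Wy ∪ Wo) v := by
      rw [← sum_union hdW, ← hWW]
      rfl
    rw [h6]
    simp only [hdgU Wy Wo hdW, sum_add_distrib]
    have h10 : E G Wy = ∑ v ∈ Wy, dg G Wy v := rfl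
    have h11 : E G Wo = ∑ v ∈ Wo, dg G Wo v := rfl
    rw [h10, h11]
    omega
  have h6 := h.E_partsD hmin h32 hP
  have hUn : ∀ v ∈ U, v ∈ H \ B.image Prod.fst := by
    intro v hv
    rw [hU] at hv
    obtain ⟨P, hP', hvP⟩ := mem_biUnion.1 hv
    refine mem_sdiff.2 ⟨h.sub P (hP hP') hvP, fun h7 => ?_⟩
    obtain ⟨e, he, hev⟩ := mem_image.1 h7
    exact h.dw e he P (hP hP') (hev ▸ hvP)
  have h7 : ∑ v ∈ U, nd G C1 v ≤ ∑ v ∈ U, (frC G C1 tl B v).card
      + (∑ v ∈ U, (usC G C tl B1 v).card + ∑ v ∈ U,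
        (C1.filter fun a => ¬ G.Adj v a ∧ ∃ e ∈ B \ B1, e.2 = a ∧ tl e.1 = tl v).card) := by
    rw [← sum_add_distrib, ← sum_add_distrib]
    refine sum_le_sum fun v hv => ?_
    have h8 := Pk.nd_U (C := C1) (G := G) (tl := tl) (hUn v hv)
    have h9 := usC_keep (G := G) (tl := tl) (B := B) (B1 := B1) hC1 v
    omega
  have hBo1 : ∀ e ∈ Bo, e ∈ B1 ∧ tl e.1 ≠ y := fun e he => mem_sdp.1 (hBo ▸ he)
  have h8 : ∑ e ∈ Bo, nd G C1 e.1 ≤
      ∑ e ∈ Bo, (1 + (frC G C1 tl B e.1).card) + (∑ e ∈ Bo, (usC G C tl B1 e.1).card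
        + ∑ e ∈ Bo, (C1.filter fun a => ¬ G.Adj e.1 a ∧ ∃ f ∈ B \ B1, f.2 = a
          ∧ tl f.1 = tl e.1).card) := by
    rw [← sum_add_distrib, ← sum_add_distrib]
    refine sum_le_sum fun e he => ?_
    have h8 := nd_W' h C1 (hB (hBo1 e he).1)
    have h9 := usC_keep (G := G) (tl := tl) (B := B) (B1 := B1) hC1 e.1
    omega
  have h9 := Pk.sum_usC (G := G) (C := C) (H := H1) (tl := tl) (B := B1)
  rw [← hW, hUe'] at h9
  have h10 : 2 * ∑ e ∈ Bo, (usC G C tl B1 e.1).card ≤ E G Wo + bothB G tl Bo := by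
    have h11 := (hk.sdp y).sum_usC_W fun v hv w hw => h32 v (hs (mem_sdiff.1 hv).1) w
      (hs (mem_sdiff.1 hw).1)
    rw [← hBo, ← hWo] at h11
    have h12 : ∑ e ∈ Bo, (usC G C tl Bo e.1).card = ∑ e ∈ Bo, (usC G C tl B1 e.1).card := by
      refine sum_congr rfl fun e he => ?_
      rw [hBo, usC_sdp (hBo1 e he).2]
    rwa [h12] at h11
  have h13 : ∑ v ∈ U, (C1.filter fun a => ¬ G.Adj v a ∧ ∃ e ∈ B \ B1, e.2 = a
        ∧ tl e.1 = tl v).card
      + ∑ e ∈ Bo, (C1.filter fun a => ¬ G.Adj e.1 a ∧ ∃ f ∈ B \ B1, f.2 = a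
          ∧ tl f.1 = tl e.1).card
      ≤ losD G tl C1 B B1 (U ∪ Wo) := by
    have h14 := sum_drC (G := G) (tl := tl) (B := B) (B1 := B1) C1 (U ∪ Wo)
    have h15 : Disjoint U Wo := hd.mono_right (hWW ▸ subset_union_right)
    rw [sum_union h15, himo] at h14
    exact h14
  rw [← hU] at h6 hD ⊢
  rw [← hBo, ← hBy, ← hWy, ← hWo]
  have e11 : ((∑ v ∈ U, (frC G C1 tl B v).card : ℕ) : ℤ)
      = ∑ v ∈ U, ((frC G C1 tl B v).card : ℤ) := by
    push_cast; rfl
  have e12 : ((∑ e ∈ Bo, (1 + (frC G C1 tl B e.1).card) : ℕ) : ℤ) =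
      ∑ e ∈ Bo, (1 + (frC G C1 tl B e.1).card : ℤ) := by push_cast; rfl
  have e13 : ((∑ e ∈ By, nd G C1 e.1 : ℕ) : ℤ) = ∑ e ∈ By, (nd G C1 e.1 : ℤ) := by
    push_cast; rfl
  rw [← e11, ← e12, ← e13, h1, h2, h3]
  have h16 : (P1.card : ℤ) * (P1.card - 1) = ((P1.card * P1.card : ℕ) : ℤ) - P1.card := by
    push_cast
    ring
  rw [← h4, h16]
  push_cast
  have h6' : ((P1.card * P1.card : ℕ) : ℤ)
      + E G (U.filter fun v => (frC G C tl B v).Nonempty) ≤ E G U + P1.card := by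
    exact_mod_cast h6
  push_cast at h6'
  generalize E G (U.filter fun v => (frC G C tl B v).Nonempty) = eN at h6' ⊢
  zify at h5 h5' h7 h8 h9 h10 hD h13
  linarith

end EnD

end Pool.Agent.Lib.MP_f04ccf_co
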