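import Pool.Agent.Lib.MP_f04ccf_co.M.EnDI

/-!
MP_f04ccf_co, STATE 10 (L1), notes 17700, 17704: the energy of the sub-slot for ANY packings with the least number
of parts (versions [B] and [C]), over the items.

* `Pk.sum_frC_kp`: the free arcs of the kept parts, item by item (single parts have none);
* `losD_le`: if the PC pairs of every tail are all kept or all dropped, the unpaid arcs are at most
  `∑_(dropped tails l) beta_l * #(kept parts with a member of tail l)`; `card_tailP`: these parts are kept items with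
  an end `l` or single parts;
* `WHom.energyDN`: `2 e' + mu' (mu' + 1) + E (W_y) ≤ 2 mu' h' + ∑ beta (beta + 1) + 2 ∑_(kept) nui + 2 ∑_(W_y) nd
  + 2 losD`, sums over the tails `≠ y` of kept PC pairs.
-/

set_option autoImplicit false

namespace Pool.Agent.Lib.MP_f04ccf_co

open Finset

attribute [local instance] Classical.propDecidable

section EnDJ

variable {ι V : Type*} {G : SimpleGraph V} {C H : Finset V} {tl : V → ι}
  {B : Finset (V × V)} {Ps : Finset (Finset V)} {D : Finset (Itm V)}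

/-- fewer class points, fewer free arcs -/
lemma frC_card_mono {C1 : Finset V} (hC1 : C1 ⊆ C) (v : V) :
    (frC G C1 tl B v).card ≤ (frC G C tl B v).card := by
  refine card_le_card fun a ha => ?_
  have h1 := mem_frC.1 ha
  exact mem_frC.2 ⟨hC1 h1.1, h1.2⟩

/-- **the free arcs of the kept parts, item by item** -/
lemma Pk.sum_frC_kp (h : Pk G C H tl B Ps)
    (hmin : ∀ B' Ps', Pk G C H tl B' Ps' → Ps.card ≤ Ps'.card)
    (h32 : ∀ v ∈ H, ∀ w ∈ H, ∀ a ∈ C, v ≠ w → tl v = tl w →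
      ¬ G.Adj v a → ¬ G.Adj w a → G.Adj v w) {Y : Finset ι} (hY : ∀ v ∈ H, tl v ∈ Y)
    {C1 : Finset V} (hC1 : C1 ⊆ C) :
    ∑ v ∈ (kpP Ps D).biUnion id, ((frC G C1 tl B v).card : ℤ)
      ≤ ∑ u ∈ pkf B Ps \ D, (1 - (ipc u : ℤ)) * ∑ y ∈ Y, (nui G C tl B y u : ℤ) := by
  have h1 : ∑ v ∈ (kpP Ps D).biUnion id, ((frC G C1 tl B v).card : ℤ)
      = ∑ P ∈ kpP Ps D, ∑ v ∈ P, ((frC G C1 tl B v).card : ℤ) := by
    rw [sum_biUnion (t := id) fun P hP Q hQ hPQ =>
      h.dis P (kpP_sub (mem_coe.1 hP)) Q (kpP_sub (mem_coe.1 hQ)) hPQ]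
    rfl
  have h2 : ∑ u ∈ pkf B Ps \ D, (1 - (ipc u : ℤ)) * ∑ y ∈ Y, (nui G C tl B y u : ℤ)
      = ∑ P ∈ (kpP Ps D).filter (fun P => 2 ≤ P.card),
        ∑ y ∈ Y, (nui G C tl B y (Sum.inl P : Itm V) : ℤ) := by
    rw [← pkf_kp]
    exact sum_pkf_inl (B := kpB B D) (Ps := kpP Ps D)
      fun u => ∑ y ∈ Y, (nui G C tl B y u : ℤ)
  rw [h1, h2, sum_filter]
  refine sum_le_sum fun P hP => ?_
  have hP' := kpP_sub hP
  split_ifs with h3
  · have h4 : ∑ y ∈ Y, nui G C tl B y (Sum.inl P : Itm V) = ∑ v ∈ P, (frC G C tl B v).card :=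
      sum_nui Y (Sum.inl P) fun v hv => hY v (h.sub P hP' hv)
    have h5 : ∑ v ∈ P, (frC G C1 tl B v).card ≤ ∑ v ∈ P, (frC G C tl B v).card :=
      sum_le_sum fun v _ => frC_card_mono hC1 v
    rw [← h4] at h5
    exact_mod_cast h5
  · refine le_of_eq (sum_eq_zero fun v hv => ?_)
    obtain ⟨w, hw, hw2⟩ := h.home hmin h32 hP'
    have h5 : w = v := by
      by_contra h6
      exact h3 (one_lt_card.2 ⟨w, hw, v, hv, h6⟩)
    rw [h5] at hw2
    have h6 : (frC G C tl B v).card = 0 := by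
      rw [card_eq_zero]
      exact not_nonempty_iff_eq_empty.1 hw2
    have h7 := frC_card_mono (G := G) (tl := tl) (B := B) hC1 v
    have h8 : (frC G C1 tl B v).card = 0 := by omega
    rw [h8]
    rfl

/-- the kept parts with a member of tail `l` -/
noncomputable def tlP (tl : V → ι) (P1 : Finset (Finset V)) (l : ι) : Finset (Finset V) :=
  P1.filter fun P => ∃ v ∈ P, tl v = l

/-- **the unpaid arcs**: `Ld` = the dropped tails (all their PC pairs are dropped, no other PC pair is), `y` = any -/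
lemma Pk.losD_le (h : Pk G C H tl B Ps) (h32 : ∀ v ∈ H, ∀ w ∈ H, ∀ a ∈ C, v ≠ w → tl v = tl w →
      ¬ G.Adj v a → ¬ G.Adj w a → G.Adj v w) {Ld : Finset ι}
    (hLd : ∀ e ∈ B, Sum.inr e ∈ D ↔ tl e.1 ∈ Ld) {C1 : Finset V} (y : ι) :
    losD G tl C1 B (kpB B D) ((kpP Ps D).biUnion id
        ∪ (kpB B D \ pcs tl (kpB B D) y).image Prod.fst)
      ≤ ∑ l ∈ Ld, (pcs tl B l).card * (tlP tl (kpP Ps D) l).card := by
  have hmem : ∀ e ∈ (B \ kpB B D).filter (fun e => e.2 ∈ C1), e ∈ B ∧ tl e.1 ∈ Ld := by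
    intro e he
    obtain ⟨h1, h2⟩ := mem_sdiff.1 (mem_filter.1 he).1
    refine ⟨h1, (hLd e h1).1 ?_⟩
    by_contra h3
    exact h2 (mem_kpB.2 ⟨h1, h3⟩)
  have h1 : ∀ e ∈ (B \ kpB B D).filter (fun e => e.2 ∈ C1),
      (((kpP Ps D).biUnion id ∪ (kpB B D \ pcs tl (kpB B D) y).image Prod.fst).filter
        fun v => tl v = tl e.1 ∧ ¬ G.Adj v e.2).card ≤ (tlP tl (kpP Ps D) (tl e.1)).card := by
    intro e he
    obtain ⟨heB, heL⟩ := hmem e he
    have h2 : ∀ v ∈ ((kpP Ps D).biUnion id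
        ∪ (kpB B D \ pcs tl (kpB B D) y).image Prod.fst).filter
          (fun v => tl v = tl e.1 ∧ ¬ G.Adj v e.2), ∃ P ∈ kpP Ps D, v ∈ P := by
      intro v hv
      obtain ⟨h3, h4, -⟩ := mem_filter.1 hv
      rcases mem_union.1 h3 with h5 | h5
      · obtain ⟨P, hP, hvP⟩ := mem_biUnion.1 h5
        exact ⟨P, hP, hvP⟩
      · obtain ⟨f, hf, rfl⟩ := mem_image.1 h5
        have h6 := mem_kpB.1 (mem_sdp.1 hf).1
        exact absurd ((hLd f h6.1).2 (h4 ▸ heL)) h6.2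
    choose! g hg1 hg2 using h2
    refine card_le_card_of_injOn g ?_ ?_
    · intro v hv
      have hv' := mem_coe.1 hv
      exact mem_coe.2 (mem_filter.2 ⟨hg1 v hv', v, hg2 v hv', (mem_filter.1 hv').2.1⟩)
    · intro v hv w hw hvw
      have hv' := mem_coe.1 hv
      have hw' := mem_coe.1 hw
      by_contra hne
      obtain ⟨-, h3, h4⟩ := mem_filter.1 hv'
      obtain ⟨-, h5, h6⟩ := mem_filter.1 hw'
      have h7 := hg2 v hv'
      have h8 := hg2 w hw'
      rw [← hvw] at h8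
      have h9 := kpP_sub (hg1 v hv')
      exact h.ind _ h9 v h7 w h8 (h32 v (h.sub _ h9 h7) w (h.sub _ h9 h8) e.2 (h.bC e heB) hne
        (h3.trans h5.symm) h4 h6)
  unfold losD
  refine (sum_le_sum h1).trans ?_
  have h2 : ∑ e ∈ (B \ kpB B D).filter (fun e => e.2 ∈ C1), (tlP tl (kpP Ps D) (tl e.1)).card
      = ∑ l ∈ Ld, ∑ e ∈ ((B \ kpB B D).filter (fun e => e.2 ∈ C1)).filter
        (fun e => tl e.1 = l), (tlP tl (kpP Ps D) (tl e.1)).card :=
    (sum_fiberwise_of_maps_to (g := fun e : V × V => tl e.1) (fun e he => (hmem e he).2) _).symm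
  rw [h2]
  refine sum_le_sum fun l _ => ?_
  have h3 : ∑ e ∈ ((B \ kpB B D).filter (fun e => e.2 ∈ C1)).filter (fun e => tl e.1 = l),
      (tlP tl (kpP Ps D) (tl e.1)).card
      = (((B \ kpB B D).filter (fun e => e.2 ∈ C1)).filter (fun e => tl e.1 = l)).card
        * (tlP tl (kpP Ps D) l).card := by
    rw [sum_congr rfl fun e he => by rw [(mem_filter.1 he).2], sum_const, smul_eq_mul]
  rw [h3]
  refine Nat.mul_le_mul_right _ (card_le_card fun e he => ?_)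
  obtain ⟨h4, h5⟩ := mem_filter.1 he
  exact mem_pcs.2 ⟨(mem_sdiff.1 (mem_filter.1 h4).1).1, h5⟩

/-- the kept parts with a member of tail `l`: kept items with an end `l`, or single parts -/
lemma card_tailP (l : ι) :
    (tlP tl (kpP Ps D) l).card ≤ ((pkf B Ps \ D).filter fun u => ipc u = 0 ∧ ikp tl l u ≠ 0).card
      + (Ps.filter fun P => P.card < 2 ∧ ∃ v ∈ P, tl v = l).card := by
  have h1 : tlP tl (kpP Ps D) l ⊆ ((tlP tl (kpP Ps D) l).filter fun P => 2 ≤ P.card)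
      ∪ (Ps.filter fun P => P.card < 2 ∧ ∃ v ∈ P, tl v = l) := by
    intro P hP
    obtain ⟨h2, h3⟩ := mem_filter.1 hP
    by_cases h4 : 2 ≤ P.card
    · exact mem_union_left _ (mem_filter.2 ⟨hP, h4⟩)
    · exact mem_union_right _ (mem_filter.2 ⟨kpP_sub h2, by omega, h3⟩)
  refine (card_le_card h1).trans ((card_union_le _ _).trans (Nat.add_le_add_right ?_ _))
  refine card_le_card_of_injOn (fun P => (Sum.inl P : Itm V)) ?_ fun P _ Q _ hPQ =>
    Sum.inl_injective hPQ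
  intro P hP
  obtain ⟨h2, h3⟩ := mem_filter.1 (mem_coe.1 hP)
  obtain ⟨h4, v, hv, hvl⟩ := mem_filter.1 h2
  obtain ⟨h5, h6⟩ := mem_kpP.1 h4
  refine mem_coe.2 (mem_filter.2 ⟨mem_sdiff.2 ⟨inl_mem_pkf.2 ⟨h5, h3⟩, h6⟩, rfl, ?_⟩)
  have h7 : (tlp tl P l).Nonempty := ⟨v, mem_tlp.2 ⟨hv, hvl⟩⟩
  have h8 := card_pos.2 h7
  simp only [ikp]
  split_ifs <;> omega

/-- the single parts, all tails together -/
lemma sum_single_parts (L : Finset ι) :
    (∑ l ∈ L, (Ps.filter fun P => P.card < 2 ∧ ∃ v ∈ P, tl v = l).card)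
      + (Ps.filter fun P => 2 ≤ P.card).card ≤ Ps.card := by
  have h1 : ∑ l ∈ L, (Ps.filter fun P => P.card < 2 ∧ ∃ v ∈ P, tl v = l).card
      ≤ (Ps.filter fun P => ¬ 2 ≤ P.card).card := by
    rw [← card_biUnion]
    · refine card_le_card fun P hP => ?_
      obtain ⟨l, -, hPl⟩ := mem_biUnion.1 hP
      obtain ⟨h2, h3, -⟩ := mem_filter.1 hPl
      exact mem_filter.2 ⟨h2, by omega⟩
    · intro l _ l' _ hll
      show Disjoint _ _
      rw [disjoint_left]
      intro P hP hP'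
      obtain ⟨h2, h3, v, hv, hvl⟩ := mem_filter.1 hP
      obtain ⟨-, -, w, hw, hwl⟩ := mem_filter.1 hP'
      have h4 : v = w := card_le_one.1 (by omega) v hv w hw
      exact hll (by rw [← hvl, ← hwl, h4])
  have h2 := card_filter_add_card_filter_not (s := Ps) fun P => 2 ≤ P.card
  omega

end EnDJ

section EnDW

variable {V : Type*} {G : SimpleGraph V} {Z T : Finset V} {hm : V → V} {r m n p : ℕ}
  {B : V → Finset (V × V)} {Ps : V → Finset (Finset V)}

/-- **the energy of the sub-slot, any packings with the least number of parts**: the items `D` of the host `x` and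
the class points `Cx` leave; the PC pairs of the tail `y` kept exactly; `L` contains the tails of the other kept PC
pairs -/
theorem WHom.energyDN (h : WHom G Z T r m n hm) {x : V} (y : V) (hx : x ∈ T)
    (hB : Pk G (cz G Z T hm x) (hz G Z T hm x) (tlo G T hm) (B x) (Ps x))
    (hmin : ∀ B' Ps', Pk G (cz G Z T hm x) (hz G Z T hm x) (tlo G T hm) B' Ps' →
      (Ps x).card ≤ Ps'.card)
    {D : Finset (Itm V)} (hD : D ⊆ pkf (B x) (Ps x)) {Cx : Finset V} (hCx : Cx ⊆ cz G Z T hm x)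
    {L : Finset V} (hL : ∀ e ∈ kpB (B x) D, tlo G T hm e.1 ≠ y → tlo G T hm e.1 ∈ L) :
    2 * eI G hm (Z \ (D.biUnion imem ∪ Cx)) x + (∑ u ∈ pkf (B x) (Ps x) \ D, (ivl u : ℤ))
        * (∑ u ∈ pkf (B x) (Ps x) \ D, (ivl u : ℤ) + 1)
        + E G ((pcs (tlo G T hm) (kpB (B x) D) y).image Prod.fst)
      ≤ 2 * ((∑ u ∈ pkf (B x) (Ps x) \ D, (ivl u : ℤ))
          * (hI G Z T hm Z x - ∑ u ∈ D, ((ivl u : ℤ) + 1 - (ipc u : ℤ))))
        + ∑ l ∈ L, pcn (tlo G T hm) B x l * (pcn (tlo G T hm) B x l + 1)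
        + 2 * ∑ u ∈ pkf (B x) (Ps x) \ D, (1 - (ipc u : ℤ))
          * ∑ l ∈ T.erase x, (nui G (cz G Z T hm x) (tlo G T hm) (B x) l u : ℤ)
        + 2 * ∑ l ∈ L, ∑ u ∈ pkf (B x) (Ps x) \ D, (ipc u : ℤ)
          * (nui G (cz G Z T hm x) (tlo G T hm) (B x) l u : ℤ)
        + 2 * ∑ e ∈ pcs (tlo G T hm) (kpB (B x) D) y, (nd G (cz G Z T hm x \ Cx) e.1 : ℤ)
        + 2 * losD G (tlo G T hm) (cz G Z T hm x \ Cx) (B x) (kpB (B x) D)
          ((kpP (Ps x) D).biUnion id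
            ∪ (kpB (B x) D \ pcs (tlo G T hm) (kpB (B x) D) y).image Prod.fst) := by
  have hF := h.F.toPFrame
  have hCH : Disjoint (hz G Z T hm x) (cz G Z T hm x) := (h.csys.dCH hx hx).symm
  have h32 := h.csys.h32 hF h.hh h.ht hx
  have hk := hB.keep (kpB_sub (B := B x) (D := D)) (kpP_sub (Ps := Ps x) (D := D))
  have hks := hB.keep_sub (kpB_sub (B := B x) (D := D)) (kpP_sub (Ps := Ps x) (D := D))
  have hUe := hk.union_eq
  have h1 := hB.energy_drop hmin h32 (h.csys.CP_clq hF hx) hCH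
    (kpB_sub (B := B x) (D := D)) (kpP_sub (Ps := Ps x) (D := D))
    (sdiff_subset : cz G Z T hm x \ Cx ⊆ cz G Z T hm x) y (D := 0) (by
      rw [add_zero]
      refine sum_le_sum fun e he => ?_
      have h2 := hk.uin_le (fun v hv w hw => h32 v (hks hv) w (hks hw)) he
      rwa [hUe] at h2)
  have h2 := hk.sum_ivl
  rw [pkf_kp] at h2
  have h3 : ∑ u ∈ pkf (B x) (Ps x) \ D, (ivl u : ℤ) + ((kpP (Ps x) D).card : ℤ)
      = (((kpB (B x) D).image Prod.fst ∪ (kpP (Ps x) D).biUnion id).card : ℤ) := by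
    exact_mod_cast h2
  have h4 := hB.card_kp hD
  have h5 := two_eI (G := G) (hm := hm) (Z \ (D.biUnion imem ∪ Cx)) x
  have hCH2 : hz G Z T hm x ∪ cz G Z T hm x = Z.filter fun v => hm v = x := by
    rw [union_comm]
    exact CP_union_HP
  have h10 : ((Z \ (D.biUnion imem ∪ Cx)).filter fun v => hm v = x)
      = ((kpB (B x) D).image Prod.fst ∪ (kpP (Ps x) D).biUnion id) ∪ (cz G Z T hm x \ Cx) := by
    rw [← hB.slotD hCH hD hCx, hCH2]
    ext v
    simp only [mem_filter, mem_sdiff]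
    tauto
  have h11 := hB.sum_frC_kp (D := D) hmin h32 (Y := T.erase x) (fun v hv => h.ht x hx v hv)
    (sdiff_subset : cz G Z T hm x \ Cx ⊆ cz G Z T hm x)
  -- the other tails
  have hlt : ∀ e ∈ kpB (B x) D \ pcs (tlo G T hm) (kpB (B x) D) y, tlo G T hm e.1 ∈ L := by
    intro e he
    obtain ⟨h6, h7⟩ := mem_sdp.1 he
    exact hL e h6 h7
  have h6 : 2 * ∑ e ∈ kpB (B x) D \ pcs (tlo G T hm) (kpB (B x) D) y,
        (1 + ((frC G (cz G Z T hm x \ Cx) (tlo G T hm) (B x) e.1).card : ℤ))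
      + bothB G (tlo G T hm) (kpB (B x) D \ pcs (tlo G T hm) (kpB (B x) D) y)
      ≤ ∑ l ∈ L, pcn (tlo G T hm) B x l * (pcn (tlo G T hm) B x l + 1)
        + 2 * ∑ l ∈ L, ∑ u ∈ pkf (B x) (Ps x) \ D, (ipc u : ℤ)
          * (nui G (cz G Z T hm x) (tlo G T hm) (B x) l u : ℤ) := by
    have hsub : ∀ z, pcs (tlo G T hm) (kpB (B x) D \ pcs (tlo G T hm) (kpB (B x) D) y) z
        ⊆ pcs (tlo G T hm) (B x) z := by
      intro z e he
      obtain ⟨h8, h9⟩ := mem_pcs.1 he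
      exact mem_pcs.2 ⟨kpB_sub (mem_sdp.1 h8).1, h9⟩
    have h7 : ∑ e ∈ kpB (B x) D \ pcs (tlo G T hm) (kpB (B x) D) y,
        (1 + ((frC G (cz G Z T hm x \ Cx) (tlo G T hm) (B x) e.1).card : ℤ))
        = ∑ z ∈ L, ∑ e ∈ pcs (tlo G T hm)
            (kpB (B x) D \ pcs (tlo G T hm) (kpB (B x) D) y) z,
          (1 + ((frC G (cz G Z T hm x \ Cx) (tlo G T hm) (B x) e.1).card : ℤ)) :=
      (sum_fiberwise_of_maps_to (g := fun e : V × V => tlo G T hm e.1)
        (fun e he => hlt e he) _).symm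
    have h8 := bothB_split (G := G) hlt
    rw [h7, h8, mul_sum, Nat.cast_sum, ← sum_add_distrib, mul_sum, ← sum_add_distrib]
    refine sum_le_sum fun z hz' => ?_
    obtain ⟨Q, hQ⟩ : ∃ Q, Q = pcs (tlo G T hm)
      (kpB (B x) D \ pcs (tlo G T hm) (kpB (B x) D) y) z := ⟨_, rfl⟩
    have hQ1 : Q ⊆ pcs (tlo G T hm) (B x) z := hQ ▸ hsub z
    have hQ2 : Q ⊆ kpB (B x) D := by
      intro e he
      rw [hQ] at he
      exact (mem_sdp.1 (mem_pcs.1 he).1).1
    rw [← hQ]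
    have h9 := bothB_le (G := G) (tl := tlo G T hm) Q
    have h12 : (Q.card : ℤ) ≤ pcn (tlo G T hm) B x z := by
      have := card_le_card hQ1
      unfold pcn
      exact_mod_cast this
    have h13 : (0 : ℤ) ≤ (Q.card : ℤ) := Int.natCast_nonneg _
    have h14 : ∑ e ∈ Q, ((frC G (cz G Z T hm x \ Cx) (tlo G T hm) (B x) e.1).card : ℤ)
        ≤ ∑ u ∈ pkf (B x) (Ps x) \ D, (ipc u : ℤ)
          * (nui G (cz G Z T hm x) (tlo G T hm) (B x) z u : ℤ) := by
      have h15 := sum_ipc_nui (G := G) (C := cz G Z T hm x) (tl := tlo G T hm)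
        (B := kpB (B x) D) (Ps := kpP (Ps x) D) z
      have h16 : ∑ e ∈ Q, ((frC G (cz G Z T hm x \ Cx) (tlo G T hm) (B x) e.1).card : ℤ)
          ≤ ∑ e ∈ Q, ((frC G (cz G Z T hm x) (tlo G T hm) (B x) e.1).card : ℤ) :=
        sum_le_sum fun e _ => by
          exact_mod_cast frC_card_mono (G := G) (tl := tlo G T hm) (B := B x)
            (sdiff_subset : cz G Z T hm x \ Cx ⊆ cz G Z T hm x) e.1
      refine h16.trans ?_
      have h17 : ∑ e ∈ Q, ((frC G (cz G Z T hm x) (tlo G T hm) (B x) e.1).card : ℤ)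
          = ∑ e ∈ Q, ((ipc (Sum.inr e : Itm V) : ℤ)
            * (nui G (cz G Z T hm x) (tlo G T hm) (B x) z (Sum.inr e) : ℤ)) := by
        refine sum_congr rfl fun e he => ?_
        rw [nui_inr, if_pos (mem_pcs.1 (hQ1 he)).2]
        simp [ipc]
      have h18 : ∑ e ∈ Q, ((ipc (Sum.inr e : Itm V) : ℤ)
            * (nui G (cz G Z T hm x) (tlo G T hm) (B x) z (Sum.inr e) : ℤ))
          = ∑ u ∈ Q.map ⟨fun e => (Sum.inr e : Itm V), Sum.inr_injective⟩, ((ipc u : ℤ)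
            * (nui G (cz G Z T hm x) (tlo G T hm) (B x) z u : ℤ)) := by
        rw [sum_map]
        rfl
      rw [h17, h18]
      refine sum_le_sum_of_subset_of_nonneg (fun u hu => ?_) fun _ _ _ => by positivity
      obtain ⟨e, he, rfl⟩ := mem_map.1 hu
      rw [← pkf_kp]
      exact inr_mem_pkf.2 (hQ2 he)
    have h15 : ∑ e ∈ Q, (1 + ((frC G (cz G Z T hm x \ Cx) (tlo G T hm) (B x) e.1).card : ℤ))
        = Q.card + ∑ e ∈ Q, ((frC G (cz G Z T hm x \ Cx) (tlo G T hm) (B x) e.1).card : ℤ) := by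
      rw [sum_add_distrib, sum_const, nsmul_eq_mul, mul_one]
    rw [h15]
    nlinarith
  rw [h5, h10]
  have h9 : hI G Z T hm Z x = ((hz G Z T hm x).card : ℤ) := rfl
  rw [h9, ← h4]
  obtain ⟨μ, hμ⟩ : ∃ μ : ℤ, μ = ∑ u ∈ pkf (B x) (Ps x) \ D, (ivl u : ℤ) := ⟨_, rfl⟩
  rw [← hμ] at h3 ⊢
  have h14 : ((kpP (Ps x) D).card : ℤ)
      = (((kpB (B x) D).image Prod.fst ∪ (kpP (Ps x) D).biUnion id).card : ℤ) - μ := by linarith
  rw [h14] at h1
  have h15 : (0 : ℤ) ≤ (E G (((kpP (Ps x) D).biUnion id).filter fun v =>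
    (frC G (cz G Z T hm x) (tlo G T hm) (B x) v).Nonempty) : ℤ) := Int.natCast_nonneg _
  generalize (((kpB (B x) D).image Prod.fst ∪ (kpP (Ps x) D).biUnion id).card : ℤ) = nH at *
  push_cast at h1
  nlinarith

end EnDW

end Pool.Agent.Lib.MP_f04ccf_co
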