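import Pool.Agent.Lib.MP_f04ccf_co.M.EnDJ
import Pool.Agent.Lib.MP_f04ccf_co.M.SubDI

/-!
MP_f04ccf_co, STATE 10 (L1), note 17738: the energy of the sub-slot in the letters of M/SubDI (`B1 ⊆ B z`, `P1 ⊆ Ps z`
kept, `XC` dropped class points).

* `slot_keep`: the sub-slot is `keepH B1 P1 ∪ (cz z \ XC)`;
* `PkOpt.energyS`: version [C], with `nxw`;
* `WHom.energyNS`: any packings with the least number of parts, with `nui`;
* `Pk.losD_keep`: the unpaid arcs if every tail is kept or dropped as a whole.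
-/

set_option autoImplicit false

namespace Pool.Agent.Lib.MP_f04ccf_co

open Finset

attribute [local instance] Classical.propDecidable

section EnDKP

variable {ι V : Type*} {G : SimpleGraph V} {C H : Finset V} {tl : V → ι}
  {B B1 : Finset (V × V)} {Ps P1 : Finset (Finset V)}

/-- **the free arcs of the kept parts, item by item** -/
lemma Pk.sum_frC_keep (h : Pk G C H tl B Ps)
    (hmin : ∀ B' Ps', Pk G C H tl B' Ps' → Ps.card ≤ Ps'.card)
    (h32 : ∀ v ∈ H, ∀ w ∈ H, ∀ a ∈ C, v ≠ w → tl v = tl w →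
      ¬ G.Adj v a → ¬ G.Adj w a → G.Adj v w) {Y : Finset ι} (hY : ∀ v ∈ H, tl v ∈ Y)
    (hP1 : P1 ⊆ Ps) {C1 : Finset V} (hC1 : C1 ⊆ C) :
    ∑ v ∈ P1.biUnion id, ((frC G C1 tl B v).card : ℤ)
      ≤ ∑ u ∈ pkf B1 P1, (1 - (ipc u : ℤ)) * ∑ y ∈ Y, (nui G C tl B y u : ℤ) := by
  have h1 : ∑ v ∈ P1.biUnion id, ((frC G C1 tl B v).card : ℤ)
      = ∑ P ∈ P1, ∑ v ∈ P, ((frC G C1 tl B v).card : ℤ) := by
    rw [sum_biUnion (t := id) fun P hP Q hQ hPQ =>
      h.dis P (hP1 (mem_coe.1 hP)) Q (hP1 (mem_coe.1 hQ)) hPQ]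
    rfl
  have h2 : ∑ u ∈ pkf B1 P1, (1 - (ipc u : ℤ)) * ∑ y ∈ Y, (nui G C tl B y u : ℤ)
      = ∑ P ∈ P1.filter (fun P => 2 ≤ P.card),
        ∑ y ∈ Y, (nui G C tl B y (Sum.inl P : Itm V) : ℤ) :=
    sum_pkf_inl (B := B1) (Ps := P1) fun u => ∑ y ∈ Y, (nui G C tl B y u : ℤ)
  rw [h1, h2, sum_filter]
  refine sum_le_sum fun P hP => ?_
  have hP' := hP1 hP
  split_ifs with h3
  · have h4 : ∑ y ∈ Y, nui G C tl B y (Sum.inl P : Itm V) = ∑ v ∈ P, (frC G C tl B v).card :=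
      sum_nui Y (Sum.inl P) fun v hv => hY v (h.sub P hP' hv)
    have h5 : ∑ v ∈ P, (frC G C1 tl B v).card ≤ ∑ v ∈ P, (frC G C tl B v).card :=
      sum_le_sum fun v _ => frC_card_mono hC1 v
    rw [← h4] at h5
    exact_mod_cast h5
  · refine le_of_eq (sum_eq_zero fun v hv => ?_)
    obtain ⟨w, hw, hw2⟩ := h.home hmin h32 hP'
    have h5 : w = v := by
      by_contra h6
      exact h3 (one_lt_card.2 ⟨w, hw, v, hv, h6⟩)
    rw [h5] at hw2
    have h6 : (frC G C tl B v).card = 0 := by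
      rw [card_eq_zero]
      exact not_nonempty_iff_eq_empty.1 hw2
    have h7 := frC_card_mono (G := G) (tl := tl) (B := B) hC1 v
    have h8 : (frC G C1 tl B v).card = 0 := by omega
    rw [h8]
    rfl

/-- **the unpaid arcs** if every tail is kept or dropped as a whole (`Ld` = the dropped tails) -/
lemma Pk.losD_keep (h : Pk G C H tl B Ps) (h32 : ∀ v ∈ H, ∀ w ∈ H, ∀ a ∈ C, v ≠ w → tl v = tl w →
      ¬ G.Adj v a → ¬ G.Adj w a → G.Adj v w) (hB1 : B1 ⊆ B) (hP1 : P1 ⊆ Ps) {Ld : Finset ι}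
    (hLd : ∀ e ∈ B, e ∉ B1 ↔ tl e.1 ∈ Ld) {C1 : Finset V} (y : ι) :
    losD G tl C1 B B1 (P1.biUnion id ∪ (B1 \ pcs tl B1 y).image Prod.fst)
      ≤ ∑ l ∈ Ld, (pcs tl B l).card * (tlP tl P1 l).card := by
  have hmem : ∀ e ∈ (B \ B1).filter (fun e => e.2 ∈ C1), e ∈ B ∧ tl e.1 ∈ Ld := by
    intro e he
    obtain ⟨h1, h2⟩ := mem_sdiff.1 (mem_filter.1 he).1
    exact ⟨h1, (hLd e h1).1 h2⟩
  have h1 : ∀ e ∈ (B \ B1).filter (fun e => e.2 ∈ C1),
      ((P1.biUnion id ∪ (B1 \ pcs tl B1 y).image Prod.fst).filter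
        fun v => tl v = tl e.1 ∧ ¬ G.Adj v e.2).card ≤ (tlP tl P1 (tl e.1)).card := by
    intro e he
    obtain ⟨heB, heL⟩ := hmem e he
    have h2 : ∀ v ∈ (P1.biUnion id ∪ (B1 \ pcs tl B1 y).image Prod.fst).filter
          (fun v => tl v = tl e.1 ∧ ¬ G.Adj v e.2), ∃ P ∈ P1, v ∈ P := by
      intro v hv
      obtain ⟨h3, h4, -⟩ := mem_filter.1 hv
      rcases mem_union.1 h3 with h5 | h5
      · obtain ⟨P, hP, hvP⟩ := mem_biUnion.1 h5
        exact ⟨P, hP, hvP⟩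
      · obtain ⟨f, hf, rfl⟩ := mem_image.1 h5
        have h6 := (mem_sdp.1 hf).1
        exact absurd h6 ((hLd f (hB1 h6)).2 (h4 ▸ heL))
    choose! g hg1 hg2 using h2
    refine card_le_card_of_injOn g ?_ ?_
    · intro v hv
      have hv' := mem_coe.1 hv
      exact mem_coe.2 (mem_filter.2 ⟨hg1 v hv', v, hg2 v hv', (mem_filter.1 hv').2.1⟩)
    · intro v hv w hw hvw
      have hv' := mem_coe.1 hv
      have hw' := mem_coe.1 hw
      by_contra hne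
      obtain ⟨-, h3, h4⟩ := mem_filter.1 hv'
      obtain ⟨-, h5, h6⟩ := mem_filter.1 hw'
      have h7 := hg2 v hv'
      have h8 := hg2 w hw'
      rw [← hvw] at h8
      have h9 := hP1 (hg1 v hv')
      exact h.ind _ h9 v h7 w h8 (h32 v (h.sub _ h9 h7) w (h.sub _ h9 h8) e.2 (h.bC e heB) hne
        (h3.trans h5.symm) h4 h6)
  unfold losD
  refine (sum_le_sum h1).trans ?_
  have h2 : ∑ e ∈ (B \ B1).filter (fun e => e.2 ∈ C1), (tlP tl P1 (tl e.1)).card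
      = ∑ l ∈ Ld, ∑ e ∈ ((B \ B1).filter (fun e => e.2 ∈ C1)).filter
        (fun e => tl e.1 = l), (tlP tl P1 (tl e.1)).card :=
    (sum_fiberwise_of_maps_to (g := fun e : V × V => tl e.1) (fun e he => (hmem e he).2) _).symm
  rw [h2]
  refine sum_le_sum fun l _ => ?_
  have h3 : ∑ e ∈ ((B \ B1).filter (fun e => e.2 ∈ C1)).filter (fun e => tl e.1 = l),
      (tlP tl P1 (tl e.1)).card
      = (((B \ B1).filter (fun e => e.2 ∈ C1)).filter (fun e => tl e.1 = l)).card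
        * (tlP tl P1 l).card := by
    rw [sum_congr rfl fun e he => by rw [(mem_filter.1 he).2], sum_const, smul_eq_mul]
  rw [h3]
  refine Nat.mul_le_mul_right _ (card_le_card fun e he => ?_)
  obtain ⟨h4, h5⟩ := mem_filter.1 he
  exact mem_pcs.2 ⟨(mem_sdiff.1 (mem_filter.1 h4).1).1, h5⟩

end EnDKP

section EnDKW

variable {V : Type*} {G : SimpleGraph V} {Z T : Finset V} {hm : V → V} {r m n p : ℕ}
  {φ : Finset (V × V) → Finset (Finset V) → ℕ}
  {B : V → Finset (V × V)} {Ps : V → Finset (Finset V)}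
  {B1 : Finset (V × V)} {P1 : Finset (Finset V)} {XC : Finset V}

/-- **the sub-slot** -/
lemma slot_keep {z : V} (hXC : XC ⊆ cz G Z T hm z) (hk : keepH B1 P1 ⊆ hz G Z T hm z) :
    ((Z \ keepX G Z T hm z B1 P1 XC).filter fun v => hm v = z)
      = keepH B1 P1 ∪ (cz G Z T hm z \ XC) := by
  have h1 := keep_CP (G := G) (Z := Z) (T := T) (hm := hm) (B1 := B1) (P1 := P1) (XC := XC)
    (z := z)
  have h2 := keep_HP hXC hk
  rw [← h1, ← h2, union_comm]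
  exact (CP_union_HP (G := G) (Z := Z) (T := T)
    (S := fun x => (Z \ keepX G Z T hm z B1 P1 XC).filter fun v => hm v = x) (x := z)).symm

/-- the energy of the sub-slot, raw form -/
private lemma energy_raw (h : WHom G Z T r m n hm) {z : V} (y : V) (hz' : z ∈ T)
    (hB : Pk G (cz G Z T hm z) (hz G Z T hm z) (tlo G T hm) (B z) (Ps z))
    (hmin : ∀ B' Ps', Pk G (cz G Z T hm z) (hz G Z T hm z) (tlo G T hm) B' Ps' →
      (Ps z).card ≤ Ps'.card)
    (hB1 : B1 ⊆ B z) (hP1 : P1 ⊆ Ps z) (hXC : XC ⊆ cz G Z T hm z) :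
    2 * eI G hm (Z \ keepX G Z T hm z B1 P1 XC) z + (∑ u ∈ pkf B1 P1, (ivl u : ℤ))
        * (∑ u ∈ pkf B1 P1, (ivl u : ℤ) + 1)
        + E G ((pcs (tlo G T hm) B1 y).image Prod.fst)
      ≤ 2 * ((∑ u ∈ pkf B1 P1, (ivl u : ℤ)) * ((keepH B1 P1).card : ℤ))
        + 2 * ∑ v ∈ P1.biUnion id, ((frC G (cz G Z T hm z \ XC) (tlo G T hm) (B z) v).card : ℤ)
        + 2 * ∑ e ∈ B1 \ pcs (tlo G T hm) B1 y,
          (1 + (frC G (cz G Z T hm z \ XC) (tlo G T hm) (B z) e.1).card : ℤ)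
        + bothB G (tlo G T hm) (B1 \ pcs (tlo G T hm) B1 y)
        + 2 * ∑ e ∈ pcs (tlo G T hm) B1 y, (nd G (cz G Z T hm z \ XC) e.1 : ℤ)
        + 2 * losD G (tlo G T hm) (cz G Z T hm z \ XC) (B z) B1
          (P1.biUnion id ∪ (B1 \ pcs (tlo G T hm) B1 y).image Prod.fst) := by
  have hF := h.F.toPFrame
  have hCH : Disjoint (hz G Z T hm z) (cz G Z T hm z) := (h.csys.dCH hz' hz').symm
  have h32 := h.csys.h32 hF h.hh h.ht hz'
  have hk := hB.keep hB1 hP1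
  have hks := hB.keep_sub hB1 hP1
  have hUe := hk.union_eq
  have h1 := hB.energy_drop hmin h32 (h.csys.CP_clq hF hz') hCH hB1 hP1
    (sdiff_subset : cz G Z T hm z \ XC ⊆ cz G Z T hm z) y (D := 0) (by
      rw [add_zero]
      refine sum_le_sum fun e he => ?_
      have h2 := hk.uin_le (fun v hv w hw => h32 v (hks hv) w (hks hw)) he
      rwa [hUe] at h2)
  have h2 := hk.sum_ivl
  have h3 : ∑ u ∈ pkf B1 P1, (ivl u : ℤ) + (P1.card : ℤ)
      = ((B1.image Prod.fst ∪ P1.biUnion id).card : ℤ) := by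
    exact_mod_cast h2
  have h5 := two_eI (G := G) (hm := hm) (Z \ keepX G Z T hm z B1 P1 XC) z
  have h10 := slot_keep (B1 := B1) (P1 := P1) hXC hks
  rw [h10] at h5
  unfold keepH at h5
  rw [h5]
  unfold keepH
  obtain ⟨μ, hμ⟩ : ∃ μ : ℤ, μ = ∑ u ∈ pkf B1 P1, (ivl u : ℤ) := ⟨_, rfl⟩
  rw [← hμ] at h3 ⊢
  have h14 : (P1.card : ℤ) = ((B1.image Prod.fst ∪ P1.biUnion id).card : ℤ) - μ := by linarith
  rw [h14] at h1
  have h15 : (0 : ℤ) ≤ (E G ((P1.biUnion id).filter fun v =>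
    (frC G (cz G Z T hm z) (tlo G T hm) (B z) v).Nonempty) : ℤ) := Int.natCast_nonneg _
  generalize ((B1.image Prod.fst ∪ P1.biUnion id).card : ℤ) = nH at *
  push_cast at h1
  nlinarith

/-- **the energy of the sub-slot, version [C]**: the PC pairs of the tail `y` kept exactly; `L` contains the tails
of the other kept PC pairs -/
theorem PkOpt.energyS (h : WHom G Z T r m n hm) {z : V} (y : V) (hz' : z ∈ T)
    (hB : ∀ x ∈ T, PkOpt G (cz G Z T hm x) (hz G Z T hm x) (tlo G T hm) φ (B x) (Ps x))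
    (hB1 : B1 ⊆ B z) (hP1 : P1 ⊆ Ps z) (hXC : XC ⊆ cz G Z T hm z)
    {L : Finset V} (hL : ∀ e ∈ B1, tlo G T hm e.1 ≠ y → tlo G T hm e.1 ∈ L) :
    2 * eI G hm (Z \ keepX G Z T hm z B1 P1 XC) z + (∑ u ∈ pkf B1 P1, (ivl u : ℤ))
        * (∑ u ∈ pkf B1 P1, (ivl u : ℤ) + 1)
        + E G ((pcs (tlo G T hm) B1 y).image Prod.fst)
      ≤ 2 * ((∑ u ∈ pkf B1 P1, (ivl u : ℤ)) * ((keepH B1 P1).card : ℤ))
        + ∑ l ∈ L, nxw G Z T hm B z l
        + 2 * ∑ e ∈ pcs (tlo G T hm) B1 y, (nd G (cz G Z T hm z \ XC) e.1 : ℤ)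
        + 2 * losD G (tlo G T hm) (cz G Z T hm z \ XC) (B z) B1
          (P1.biUnion id ∪ (B1 \ pcs (tlo G T hm) B1 y).image Prod.fst) := by
  have hpk := hB z hz'
  have h1 := energy_raw (B := B) (Ps := Ps) h y hz' hpk.toPk hpk.min hB1 hP1 hXC
  -- no N-ends
  have h0 : Nend G (cz G Z T hm z) (hz G Z T hm z) (tlo G T hm) (B z) = ∅ := hpk.frC_zero
  have h11 : ∑ v ∈ P1.biUnion id,
      ((frC G (cz G Z T hm z \ XC) (tlo G T hm) (B z) v).card : ℤ) = 0 := by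
    refine sum_eq_zero fun v hv => ?_
    obtain ⟨P, hP, hvP⟩ := mem_biUnion.1 hv
    have hP' := hP1 hP
    have h12 : v ∈ hz G Z T hm z \ (B z).image Prod.fst := by
      refine mem_sdiff.2 ⟨hpk.sub P hP' hvP, fun h7 => ?_⟩
      obtain ⟨e, he, hev⟩ := mem_image.1 h7
      exact hpk.dw e he P hP' (hev ▸ hvP)
    have h13 : frC G (cz G Z T hm z \ XC) (tlo G T hm) (B z) v = ∅ := by
      by_contra h14
      obtain ⟨a, ha⟩ := nonempty_iff_ne_empty.2 h14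
      have h15 := mem_frC.1 ha
      have h16 : v ∈ Nend G (cz G Z T hm z) (hz G Z T hm z) (tlo G T hm) (B z) :=
        mem_Nend.2 ⟨h12, a, mem_frC.2 ⟨(mem_sdiff.1 h15.1).1, h15.2⟩⟩
      rw [h0] at h16
      exact notMem_empty v h16
    rw [h13, card_empty]
    rfl
  -- the other tails
  have hlt : ∀ e ∈ B1 \ pcs (tlo G T hm) B1 y, tlo G T hm e.1 ∈ L := by
    intro e he
    obtain ⟨h6, h7⟩ := mem_sdp.1 he
    exact hL e h6 h7
  have h6 : 2 * ∑ e ∈ B1 \ pcs (tlo G T hm) B1 y,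
        (1 + ((frC G (cz G Z T hm z \ XC) (tlo G T hm) (B z) e.1).card : ℤ))
      + bothB G (tlo G T hm) (B1 \ pcs (tlo G T hm) B1 y)
      ≤ ∑ l ∈ L, nxw G Z T hm B z l := by
    have hsub : ∀ x, pcs (tlo G T hm) (B1 \ pcs (tlo G T hm) B1 y) x
        ⊆ pcs (tlo G T hm) (B z) x := by
      intro x e he
      obtain ⟨h8, h9⟩ := mem_pcs.1 he
      exact mem_pcs.2 ⟨hB1 (mem_sdp.1 h8).1, h9⟩
    have h7 : ∑ e ∈ B1 \ pcs (tlo G T hm) B1 y,
        (1 + ((frC G (cz G Z T hm z \ XC) (tlo G T hm) (B z) e.1).card : ℤ))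
        = ∑ x ∈ L, ∑ e ∈ pcs (tlo G T hm) (B1 \ pcs (tlo G T hm) B1 y) x,
          (1 + ((frC G (cz G Z T hm z \ XC) (tlo G T hm) (B z) e.1).card : ℤ)) :=
      (sum_fiberwise_of_maps_to (g := fun e : V × V => tlo G T hm e.1)
        (fun e he => hlt e he) _).symm
    have h8 := bothB_split (G := G) hlt
    rw [h7, h8, mul_sum, Nat.cast_sum, ← sum_add_distrib]
    refine sum_le_sum fun x _ => ?_
    refine le_trans ?_ (h.nbc_le_nxw (fun x hx => (hB x hx).toPk) hz' x)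
    unfold nbc
    have h9 : ∑ e ∈ pcs (tlo G T hm) (B1 \ pcs (tlo G T hm) B1 y) x,
          (1 + ((frC G (cz G Z T hm z \ XC) (tlo G T hm) (B z) e.1).card : ℤ))
        ≤ ∑ e ∈ pcs (tlo G T hm) (B z) x,
          (1 + ((frC G (cz G Z T hm z) (tlo G T hm) (B z) e.1).card : ℤ)) := by
      refine le_trans (sum_le_sum fun e _ => ?_)
        (sum_le_sum_of_subset_of_nonneg (hsub x) fun _ _ _ => by positivity)
      have h11 : ((frC G (cz G Z T hm z \ XC) (tlo G T hm) (B z) e.1).card : ℤ)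
          ≤ ((frC G (cz G Z T hm z) (tlo G T hm) (B z) e.1).card : ℤ) := by
        exact_mod_cast frC_card_mono (G := G) (tl := tlo G T hm) (B := B z)
          (sdiff_subset : cz G Z T hm z \ XC ⊆ cz G Z T hm z) e.1
      linarith
    have h10 : (bothB G (tlo G T hm) (pcs (tlo G T hm)
          (B1 \ pcs (tlo G T hm) B1 y) x) : ℤ)
        ≤ (bothB G (tlo G T hm) (pcs (tlo G T hm) (B z) x) : ℤ) := by
      exact_mod_cast bothB_mono (hsub x)
    linarith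
  rw [h11] at h1
  linarith

/-- **the energy of the sub-slot, any packings with the least number of parts** -/
theorem WHom.energyNS (h : WHom G Z T r m n hm) {z : V} (y : V) (hz' : z ∈ T)
    (hB : Pk G (cz G Z T hm z) (hz G Z T hm z) (tlo G T hm) (B z) (Ps z))
    (hmin : ∀ B' Ps', Pk G (cz G Z T hm z) (hz G Z T hm z) (tlo G T hm) B' Ps' →
      (Ps z).card ≤ Ps'.card)
    (hB1 : B1 ⊆ B z) (hP1 : P1 ⊆ Ps z) (hXC : XC ⊆ cz G Z T hm z)
    {L : Finset V} (hL : ∀ e ∈ B1, tlo G T hm e.1 ≠ y → tlo G T hm e.1 ∈ L) :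
    2 * eI G hm (Z \ keepX G Z T hm z B1 P1 XC) z + (∑ u ∈ pkf B1 P1, (ivl u : ℤ))
        * (∑ u ∈ pkf B1 P1, (ivl u : ℤ) + 1)
        + E G ((pcs (tlo G T hm) B1 y).image Prod.fst)
      ≤ 2 * ((∑ u ∈ pkf B1 P1, (ivl u : ℤ)) * ((keepH B1 P1).card : ℤ))
        + ∑ l ∈ L, ((pcs (tlo G T hm) B1 l).card : ℤ) * ((pcs (tlo G T hm) B1 l).card + 1)
        + 2 * ∑ u ∈ pkf B1 P1, (1 - (ipc u : ℤ))
          * ∑ l ∈ T.erase z, (nui G (cz G Z T hm z) (tlo G T hm) (B z) l u : ℤ)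
        + 2 * ∑ l ∈ L, ∑ u ∈ pkf B1 P1, (ipc u : ℤ)
          * (nui G (cz G Z T hm z) (tlo G T hm) (B z) l u : ℤ)
        + 2 * ∑ e ∈ pcs (tlo G T hm) B1 y, (nd G (cz G Z T hm z \ XC) e.1 : ℤ)
        + 2 * losD G (tlo G T hm) (cz G Z T hm z \ XC) (B z) B1
          (P1.biUnion id ∪ (B1 \ pcs (tlo G T hm) B1 y).image Prod.fst) := by
  have h1 := energy_raw (B := B) (Ps := Ps) h y hz' hB hmin hB1 hP1 hXC
  have h32 := h.csys.h32 h.F.toPFrame h.hh h.ht hz'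
  have h11 := hB.sum_frC_keep (B1 := B1) hmin h32 (Y := T.erase z) (fun v hv => h.ht z hz' v hv)
    hP1 (sdiff_subset : cz G Z T hm z \ XC ⊆ cz G Z T hm z)
  -- the other tails
  have hlt : ∀ e ∈ B1 \ pcs (tlo G T hm) B1 y, tlo G T hm e.1 ∈ L := by
    intro e he
    obtain ⟨h6, h7⟩ := mem_sdp.1 he
    exact hL e h6 h7
  have h6 : 2 * ∑ e ∈ B1 \ pcs (tlo G T hm) B1 y,
        (1 + ((frC G (cz G Z T hm z \ XC) (tlo G T hm) (B z) e.1).card : ℤ))
      + bothB G (tlo G T hm) (B1 \ pcs (tlo G T hm) B1 y)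
      ≤ ∑ l ∈ L, ((pcs (tlo G T hm) B1 l).card : ℤ) * ((pcs (tlo G T hm) B1 l).card + 1)
        + 2 * ∑ l ∈ L, ∑ u ∈ pkf B1 P1, (ipc u : ℤ)
          * (nui G (cz G Z T hm z) (tlo G T hm) (B z) l u : ℤ) := by
    have h7 : ∑ e ∈ B1 \ pcs (tlo G T hm) B1 y,
        (1 + ((frC G (cz G Z T hm z \ XC) (tlo G T hm) (B z) e.1).card : ℤ))
        = ∑ x ∈ L, ∑ e ∈ pcs (tlo G T hm) (B1 \ pcs (tlo G T hm) B1 y) x,
          (1 + ((frC G (cz G Z T hm z \ XC) (tlo G T hm) (B z) e.1).card : ℤ)) :=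
      (sum_fiberwise_of_maps_to (g := fun e : V × V => tlo G T hm e.1)
        (fun e he => hlt e he) _).symm
    have h8 := bothB_split (G := G) hlt
    rw [h7, h8, mul_sum, Nat.cast_sum, ← sum_add_distrib, mul_sum, ← sum_add_distrib]
    refine sum_le_sum fun x _ => ?_
    obtain ⟨Q, hQ⟩ : ∃ Q, Q = pcs (tlo G T hm) (B1 \ pcs (tlo G T hm) B1 y) x := ⟨_, rfl⟩
    have hQ1 : Q ⊆ pcs (tlo G T hm) B1 x := by
      intro e he
      rw [hQ] at he
      obtain ⟨h8, h9⟩ := mem_pcs.1 he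
      exact mem_pcs.2 ⟨(mem_sdp.1 h8).1, h9⟩
    rw [← hQ]
    have h9 := bothB_le (G := G) (tl := tlo G T hm) Q
    have h12 : (Q.card : ℤ) ≤ ((pcs (tlo G T hm) B1 x).card : ℤ) := by
      exact_mod_cast card_le_card hQ1
    have h13 : (0 : ℤ) ≤ (Q.card : ℤ) := Int.natCast_nonneg _
    have h14 : ∑ e ∈ Q, ((frC G (cz G Z T hm z \ XC) (tlo G T hm) (B z) e.1).card : ℤ)
        ≤ ∑ u ∈ pkf B1 P1, (ipc u : ℤ)
          * (nui G (cz G Z T hm z) (tlo G T hm) (B z) x u : ℤ) := by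
      have h16 : ∑ e ∈ Q, ((frC G (cz G Z T hm z \ XC) (tlo G T hm) (B z) e.1).card : ℤ)
          ≤ ∑ e ∈ Q, ((frC G (cz G Z T hm z) (tlo G T hm) (B z) e.1).card : ℤ) :=
        sum_le_sum fun e _ => by
          exact_mod_cast frC_card_mono (G := G) (tl := tlo G T hm) (B := B z)
            (sdiff_subset : cz G Z T hm z \ XC ⊆ cz G Z T hm z) e.1
      refine h16.trans ?_
      have h17 : ∑ e ∈ Q, ((frC G (cz G Z T hm z) (tlo G T hm) (B z) e.1).card : ℤ)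
          = ∑ e ∈ Q, ((ipc (Sum.inr e : Itm V) : ℤ)
            * (nui G (cz G Z T hm z) (tlo G T hm) (B z) x (Sum.inr e) : ℤ)) := by
        refine sum_congr rfl fun e he => ?_
        rw [nui_inr, if_pos (mem_pcs.1 (hQ1 he)).2]
        simp [ipc]
      have h18 : ∑ e ∈ Q, ((ipc (Sum.inr e : Itm V) : ℤ)
            * (nui G (cz G Z T hm z) (tlo G T hm) (B z) x (Sum.inr e) : ℤ))
          = ∑ u ∈ Q.map ⟨fun e => (Sum.inr e : Itm V), Sum.inr_injective⟩, ((ipc u : ℤ)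
            * (nui G (cz G Z T hm z) (tlo G T hm) (B z) x u : ℤ)) := by
        rw [sum_map]
        rfl
      rw [h17, h18]
      refine sum_le_sum_of_subset_of_nonneg (fun u hu => ?_) fun _ _ _ => by positivity
      obtain ⟨e, he, rfl⟩ := mem_map.1 hu
      exact inr_mem_pkf.2 (mem_pcs.1 (hQ1 he)).1
    have h15 : ∑ e ∈ Q, (1 + ((frC G (cz G Z T hm z \ XC) (tlo G T hm) (B z) e.1).card : ℤ))
        = Q.card + ∑ e ∈ Q, ((frC G (cz G Z T hm z \ XC) (tlo G T hm) (B z) e.1).card : ℤ) := by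
      rw [sum_add_distrib, sum_const, nsmul_eq_mul, mul_one]
    rw [h15]
    nlinarith
  linarith

end EnDKW

end Pool.Agent.Lib.MP_f04ccf_co
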