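import Pool.Agent.Lib.MP_f04ccf_co.M.WNumK

/-!
MP_f04ccf_co, notes 17535, 17575: the energy of a home with the PC pairs of one tail `y` kept exactly.

* `nbc`: the (doubled) unpaid excess of the PC pairs with the tail `y`; `nbo`: the rest of `nbk`.
* `Pk.energy_coreG`, `PkPP.energyP_G`: over a packing.
* `PkPP.energyG`: over the basic integers:
  `2 e + mu (mu + 1) + E (W_y) ≤ 2 mu h + nbo y + 2 ∑ nxk + 2 ∑_(W_y) nd`.
* `nbk_eq`: `nbk = nbc y + nbo y`; `nbk_sum`: `nbk` is the sum of the `nbc` over the tails, minus the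
  gain of the parts.
-/

set_option autoImplicit false

namespace Pool.Agent.Lib.MP_f04ccf_co

open Finset

attribute [local instance] Classical.propDecidable

section EnG

variable {ι V : Type*} {G : SimpleGraph V} {C H : Finset V} {tl : V → ι}
  {B : Finset (V × V)} {Ps : Finset (Finset V)}

lemma mem_sdp {y : ι} {e : V × V} : e ∈ B \ pcs tl B y ↔ e ∈ B ∧ tl e.1 ≠ y := by
  rw [mem_sdiff, mem_pcs]
  constructor
  · rintro ⟨h1, h2⟩
    exact ⟨h1, fun h3 => h2 ⟨h1, h3⟩⟩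
  · rintro ⟨h1, h2⟩
    exact ⟨h1, fun h3 => h2 h3.2⟩

lemma frC_sdp {y : ι} {v : V} (hv : tl v ≠ y) :
    frC G C tl (B \ pcs tl B y) v = frC G C tl B v := by
  ext a
  rw [mem_frC, mem_frC]
  constructor
  · rintro ⟨h1, h2, h3⟩
    refine ⟨h1, h2, fun e he hea => ?_⟩
    by_cases h4 : tl e.1 = y
    · rw [h4]
      exact fun h5 => hv h5.symm
    · exact h3 e (mem_sdp.2 ⟨he, h4⟩) hea
  · rintro ⟨h1, h2, h3⟩
    exact ⟨h1, h2, fun e he => h3 e (mem_sdp.1 he).1⟩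

lemma usC_sdp {y : ι} {v : V} (hv : tl v ≠ y) :
    usC G C tl (B \ pcs tl B y) v = usC G C tl B v := by
  ext a
  rw [mem_usC, mem_usC]
  constructor
  · rintro ⟨h1, h2, e, he, h3, h4, h5⟩
    exact ⟨h1, h2, e, (mem_sdp.1 he).1, h3, h4, h5⟩
  · rintro ⟨h1, h2, e, he, h3, h4, h5⟩
    exact ⟨h1, h2, e, mem_sdp.2 ⟨he, fun h6 => hv (h5.symm.trans h6)⟩, h3, h4, h5⟩

/-- both arcs: the PC pairs of one tail and the others -/
lemma bothB_sdp (y : ι) :
    bothB G tl B = bothB G tl (pcs tl B y) + bothB G tl (B \ pcs tl B y) := by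
  unfold bothB
  rw [← card_union_of_disjoint]
  · congr 1
    ext q
    simp only [mem_union, mem_filter, mem_product, mem_pcs, mem_sdp]
    constructor
    · rintro ⟨⟨h1, h2⟩, h3, h4, h5⟩
      by_cases h6 : tl q.1.1 = y
      · exact Or.inl ⟨⟨⟨h1, h6⟩, h2, h4 ▸ h6⟩, h3, h4, h5⟩
      · exact Or.inr ⟨⟨⟨h1, h6⟩, h2, fun h7 => h6 (h4.trans h7)⟩, h3, h4, h5⟩
    · rintro (⟨⟨⟨h1, -⟩, h2, -⟩, h3⟩ | ⟨⟨⟨h1, -⟩, h2, -⟩, h3⟩)
      · exact ⟨⟨h1, h2⟩, h3⟩
      · exact ⟨⟨h1, h2⟩, h3⟩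
  · rw [disjoint_left]
    intro q hq hq'
    have h1 := (mem_pcs.1 (mem_product.1 (mem_filter.1 hq).1).1).2
    exact (mem_sdp.1 (mem_product.1 (mem_filter.1 hq').1).1).2 h1

/-- the packing without the PC pairs of the tail `y` -/
lemma Pk.sdp (h : Pk G C H tl B Ps) (y : ι) :
    Pk G C (H \ (pcs tl B y).image Prod.fst) tl (B \ pcs tl B y) Ps := by
  have hn : ∀ e ∈ B \ pcs tl B y, e.1 ∉ (pcs tl B y).image Prod.fst := by
    intro e he h1
    obtain ⟨f, hf, hfe⟩ := mem_image.1 h1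
    have h2 := h.b1 f (mem_pcs.1 hf).1 e (mem_sdp.1 he).1 hfe
    exact (mem_sdp.1 he).2 (h2 ▸ (mem_pcs.1 hf).2)
  refine ⟨fun e he => mem_sdiff.2 ⟨h.bH e (mem_sdp.1 he).1, hn e he⟩,
    fun e he => h.bC e (mem_sdp.1 he).1, fun e he => h.bN e (mem_sdp.1 he).1,
    fun e he f hf => h.b1 e (mem_sdp.1 he).1 f (mem_sdp.1 hf).1,
    fun e he f hf => h.b2 e (mem_sdp.1 he).1 f (mem_sdp.1 hf).1, h.ne, fun P hP v hv => ?_,
    h.ind, h.dis, fun e he => h.dw e (mem_sdp.1 he).1, fun v hv => ?_⟩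
  · refine mem_sdiff.2 ⟨h.sub P hP hv, fun h1 => ?_⟩
    obtain ⟨f, hf, hfe⟩ := mem_image.1 h1
    exact h.dw f (mem_pcs.1 hf).1 P hP (hfe ▸ hv)
  · obtain ⟨h1, h2⟩ := mem_sdiff.1 hv
    rcases h.cov v h1 with ⟨e, he, hev⟩ | h3
    · refine Or.inl ⟨e, mem_sdiff.2 ⟨he, fun h3 => h2 ?_⟩, hev⟩
      exact hev ▸ mem_image_of_mem _ h3
    · exact Or.inr h3

namespace Pk

/-- **the energy with the members of the PC pairs of the tail `y` kept** -/
theorem energy_coreG (h : Pk G C H tl B Ps)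
    (hmin : ∀ B' Ps', Pk G C H tl B' Ps' → Ps.card ≤ Ps'.card)
    (h32 : ∀ v ∈ H, ∀ w ∈ H, ∀ a ∈ C, v ≠ w → tl v = tl w →
      ¬ G.Adj v a → ¬ G.Adj w a → G.Adj v w) (hC : Clq G C) (hHC : Disjoint H C) (y : ι) {D : ℕ}
    (hD : ∑ e ∈ B, uin G tl (H \ B.image Prod.fst) e + D ≤
      ∑ e ∈ B, dg G (H \ B.image Prod.fst) e.1) :
    (NE G (H ∪ C) : ℤ) + Ps.card * (Ps.card - 1) + E G (Nend G C H tl B) + 2 * D
        + E G ((pcs tl B y).image Prod.fst)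
      ≤ (H.card : ℤ) * (H.card - 1) + 2 * ∑ v ∈ Nend G C H tl B, ((frC G C tl B v).card : ℤ)
        + 2 * ∑ e ∈ B \ pcs tl B y, (1 + (frC G C tl B e.1).card : ℤ)
        + bothB G tl (B \ pcs tl B y) + 2 * ∑ e ∈ pcs tl B y, (nd G C e.1 : ℤ) := by
  obtain ⟨By, hBy⟩ : ∃ By, By = pcs tl B y := ⟨_, rfl⟩
  obtain ⟨Bo, hBo⟩ : ∃ Bo, Bo = B \ pcs tl B y := ⟨_, rfl⟩
  obtain ⟨W, hW⟩ : ∃ W, W = B.image Prod.fst := ⟨_, rfl⟩
  obtain ⟨Wy, hWy⟩ : ∃ W, W = By.image Prod.fst := ⟨_, rfl⟩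
  obtain ⟨Wo, hWo⟩ : ∃ W, W = Bo.image Prod.fst := ⟨_, rfl⟩
  obtain ⟨U, hU⟩ : ∃ U, U = H \ W := ⟨_, rfl⟩
  obtain ⟨N, hN⟩ : ∃ N, N = Nend G C H tl B := ⟨_, rfl⟩
  have hB : B = By ∪ Bo := by
    rw [hBy, hBo, union_sdiff_of_subset]
    exact filter_subset _ _
  have hdB : Disjoint By Bo := by
    rw [hBy, hBo]
    exact disjoint_sdiff
  have hWH : W ⊆ H := hW ▸ h.W_sub
  have hd : Disjoint U W := hU ▸ sdiff_disjoint
  have hUW : U ∪ W = H := hU ▸ sdiff_union_of_subset hWH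
  have hWW : W = Wy ∪ Wo := by rw [hW, hB, image_union, hWy, hWo]
  have hdW : Disjoint Wy Wo := by
    rw [disjoint_left]
    intro v hv hv'
    rw [hWy] at hv
    rw [hWo] at hv'
    obtain ⟨e, he, h1⟩ := mem_image.1 hv
    obtain ⟨f, hf, h2⟩ := mem_image.1 hv'
    have h3 := h.b1 e (hB ▸ mem_union_left _ he) f (hB ▸ mem_union_right _ hf) (h1.trans h2.symm)
    exact disjoint_left.1 hdB he (h3 ▸ hf)
  have h1 := NE_union (G := G) hHC
  rw [NE_clq hC, nd_comm, add_zero] at h1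
  have h2 : ∑ v ∈ H, nd G C v = ∑ v ∈ U, nd G C v + ∑ v ∈ W, nd G C v := by
    rw [← sum_union hd, hUW]
  have himg : ∀ f : V → ℕ, ∑ v ∈ W, f v = ∑ e ∈ B, f e.1 := by
    intro f
    rw [hW, sum_image fun e he f hf hef =>
      h.b1 e (by exact_mod_cast he) f (by exact_mod_cast hf) hef]
  have h3 : ∑ v ∈ W, nd G C v = ∑ e ∈ By, nd G C e.1 + ∑ e ∈ Bo, nd G C e.1 := by
    rw [himg, ← sum_union hdB, ← hB]
  have h4 := E_add_NE (G := G) H
  have hdgU : ∀ (X Y : Finset V), Disjoint X Y → ∀ v, dg G (X ∪ Y) v = dg G X v + dg G Y v := by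
    intro X Y hXY v
    unfold dg
    rw [filter_union, card_union_of_disjoint (disjoint_filter_filter hXY)]
  have h5 : E G U + 2 * ∑ e ∈ B, dg G U e.1 + E G W = E G H := by
    have h6 : E G H = ∑ v ∈ U, dg G (U ∪ W) v + ∑ v ∈ W, dg G (U ∪ W) v := by
      rw [← sum_union hd, hUW]
      rfl
    have h8 : ∑ v ∈ W, dg G U v = ∑ v ∈ U, dg G W v := by
      have h9 := sum_card_bipartiteAbove_eq_sum_card_bipartiteBelow (s := W) (t := U)
        (fun a b => G.Adj a b)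
      unfold dg
      simp only [bipartiteAbove, bipartiteBelow] at h9
      rw [h9]
      refine sum_congr rfl fun b _ => ?_
      congr 1
      ext a
      simp [G.adj_comm]
    rw [h6]
    simp only [hdgU U W hd, sum_add_distrib]
    rw [← h8, himg]
    have h10 : E G U = ∑ v ∈ U, dg G U v := rfl
    have h11 : E G W = ∑ v ∈ W, dg G W v := rfl
    rw [h10, h11]
    ring
  have h5' : E G Wy + E G Wo ≤ E G W := by
    have h6 : E G W = ∑ v ∈ Wy, dg G (Wy ∪ Wo) v + ∑ v ∈ Wo, dg G (Wy ∪ Wo) v := by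
      rw [← sum_union hdW, ← hWW]
      rfl
    rw [h6]
    simp only [hdgU Wy Wo hdW, sum_add_distrib]
    have h10 : E G Wy = ∑ v ∈ Wy, dg G Wy v := rfl
    have h11 : E G Wo = ∑ v ∈ Wo, dg G Wo v := rfl
    rw [h10, h11]
    omega
  have h6 := h.E_partsN hmin h32
  have h7 : ∑ v ∈ U, nd G C v ≤ ∑ v ∈ U, (frC G C tl B v).card + ∑ v ∈ U, (usC G C tl B v).card := by
    rw [← sum_add_distrib]
    refine sum_le_sum fun v hv => nd_U (H := H) ?_
    rw [← hW, ← hU]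
    exact hv
  have hBo1 : ∀ e ∈ Bo, e ∈ B ∧ tl e.1 ≠ y := fun e he => mem_sdp.1 (hBo ▸ he)
  have h8 : ∑ e ∈ Bo, nd G C e.1 ≤
      ∑ e ∈ Bo, (1 + (frC G C tl B e.1).card) + ∑ e ∈ Bo, (usC G C tl B e.1).card := by
    rw [← sum_add_distrib]
    exact sum_le_sum fun e he => h.nd_W (hBo1 e he).1
  have h9 := sum_usC (G := G) (C := C) (H := H) (tl := tl) (B := B)
  have h10 : 2 * ∑ e ∈ Bo, (usC G C tl B e.1).card ≤ E G Wo + bothB G tl Bo := by
    have h11 := (h.sdp y).sum_usC_W fun v hv w hw => h32 v (mem_sdiff.1 hv).1 w (mem_sdiff.1 hw).1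
    rw [← hBo, ← hWo] at h11
    have h12 : ∑ e ∈ Bo, (usC G C tl Bo e.1).card = ∑ e ∈ Bo, (usC G C tl B e.1).card := by
      refine sum_congr rfl fun e he => ?_
      rw [hBo, usC_sdp (hBo1 e he).2]
    rwa [h12] at h11
  rw [← hW, ← hU] at h6 h9 hD
  rw [← hN] at h6
  rw [hU, hW, sum_frC (H := H) (B := B) (G := G) (C := C) (tl := tl), ← hW, ← hU, ← hN] at h7
  rw [← hN, ← hBo, ← hBy, ← hWy]
  have h11 : ((∑ v ∈ N, (frC G C tl B v).card : ℕ) : ℤ) = ∑ v ∈ N, ((frC G C tl B v).card : ℤ) := by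
    push_cast; rfl
  have h12 : ((∑ e ∈ Bo, (1 + (frC G C tl B e.1).card) : ℕ) : ℤ) =
      ∑ e ∈ Bo, (1 + (frC G C tl B e.1).card : ℤ) := by push_cast; rfl
  have h13 : ((∑ e ∈ By, nd G C e.1 : ℕ) : ℤ) = ∑ e ∈ By, (nd G C e.1 : ℤ) := by
    push_cast; rfl
  rw [← h11, ← h12, ← h13, h1, h2, h3]
  have h16 : (Ps.card : ℤ) * (Ps.card - 1) = ((Ps.card * Ps.card : ℕ) : ℤ) - Ps.card := by
    push_cast
    ring
  rw [← h4, h16]
  push_cast
  have h6' : ((Ps.card * Ps.card : ℕ) : ℤ) + E G N ≤ E G U + Ps.card := by exact_mod_cast h6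
  push_cast at h6'
  zify at h5 h5' h7 h8 h9 h10 hD
  linarith

end Pk

/-- the same with the gain of the edges between the PC members and the parts -/
theorem PkPP.energyP_G {φ : Finset (V × V) → Finset (Finset V) → ℕ} (h : PkPP G C H tl φ B Ps)
    (h32 : ∀ v ∈ H, ∀ w ∈ H, ∀ a ∈ C, v ≠ w → tl v = tl w →
      ¬ G.Adj v a → ¬ G.Adj w a → G.Adj v w) (hC : Clq G C) (hHC : Disjoint H C) (y : ι) :
    (NE G (H ∪ C) : ℤ) + Ps.card * (Ps.card - 1) + E G (Nend G C H tl B)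
        + 2 * ∑ e ∈ B, ((Ps.card - Pk.uin G tl (H \ B.image Prod.fst) e : ℕ) : ℤ)
        + E G ((pcs tl B y).image Prod.fst)
      ≤ (H.card : ℤ) * (H.card - 1) + 2 * ∑ v ∈ Nend G C H tl B, ((frC G C tl B v).card : ℤ)
        + 2 * ∑ e ∈ B \ pcs tl B y, (1 + (frC G C tl B e.1).card : ℤ)
        + bothB G tl (B \ pcs tl B y) + 2 * ∑ e ∈ pcs tl B y, (nd G C e.1 : ℤ) := by
  have h1 := h.toPk.energy_coreG h.min h32 hC hHC y
    (D := ∑ e ∈ B, (Ps.card - Pk.uin G tl (H \ B.image Prod.fst) e)) ?_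
  · push_cast at h1 ⊢
    exact h1
  · rw [← sum_add_distrib]
    refine sum_le_sum fun e he => ?_
    have h2 := h.toPk.uin_le h32 he
    have h3 := h.dg_le he
    omega

variable (G) in
/-- the (doubled) unpaid excess of the PC pairs with the tail `y` -/
noncomputable def nbc (C : Finset V) (tl : V → ι) (Q : Finset (V × V)) (y : ι) : ℤ :=
  2 * ∑ e ∈ pcs tl Q y, (1 + ((frC G C tl Q e.1).card : ℤ)) + bothB G tl (pcs tl Q y)

variable (G) in
/-- the (doubled) unpaid excess of the PC pairs with the other tails, minus the gain of the parts -/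
noncomputable def nbo (C H : Finset V) (tl : V → ι) (Q : Finset (V × V))
    (Ps : Finset (Finset V)) (y : ι) : ℤ :=
  2 * ∑ e ∈ Q \ pcs tl Q y, (1 + ((frC G C tl Q e.1).card : ℤ)) + bothB G tl (Q \ pcs tl Q y)
    - 2 * ∑ e ∈ Q, ((Ps.card - Pk.uin G tl (H \ Q.image Prod.fst) e : ℕ) : ℤ)

lemma nbk_eq (C H : Finset V) (tl : V → ι) (Q : Finset (V × V)) (Ps : Finset (Finset V)) (y : ι) :
    nbk G C H tl Q Ps = nbc G C tl Q y + nbo G C H tl Q Ps y := by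
  have h1 : ∑ e ∈ Q, (1 + ((frC G C tl Q e.1).card : ℤ))
      = ∑ e ∈ pcs tl Q y, (1 + ((frC G C tl Q e.1).card : ℤ))
        + ∑ e ∈ Q \ pcs tl Q y, (1 + ((frC G C tl Q e.1).card : ℤ)) := by
    rw [add_comm, sum_sdiff (show pcs tl Q y ⊆ Q from filter_subset _ _)]
  have h2 := bothB_sdp (G := G) (tl := tl) (B := Q) y
  unfold nbk nbc nbo
  rw [h1, h2]
  push_cast
  ring

lemma nbc_nonneg (C : Finset V) (tl : V → ι) (Q : Finset (V × V)) (y : ι) :
    0 ≤ nbc G C tl Q y := by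
  unfold nbc
  have h1 : 0 ≤ ∑ e ∈ pcs tl Q y, (1 + ((frC G C tl Q e.1).card : ℤ)) :=
    sum_nonneg fun e _ => by positivity
  have h2 : (0 : ℤ) ≤ bothB G tl (pcs tl Q y) := Int.natCast_nonneg _
  linarith

/-- the excess of a tail by the free arcs of its PC pairs -/
lemma nbc_le (C : Finset V) (tl : V → ι) (Q : Finset (V × V)) (y : ι) :
    nbc G C tl Q y ≤ ((pcs tl Q y).card : ℤ) * ((pcs tl Q y).card + 1)
      + 2 * ∑ e ∈ pcs tl Q y, ((frC G C tl Q e.1).card : ℤ) := by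
  have h1 := bothB_le (G := G) (tl := tl) (pcs tl Q y)
  have h2 : ∑ e ∈ pcs tl Q y, (1 + ((frC G C tl Q e.1).card : ℤ))
      = (pcs tl Q y).card + ∑ e ∈ pcs tl Q y, ((frC G C tl Q e.1).card : ℤ) := by
    rw [sum_add_distrib, sum_const, nsmul_eq_mul, mul_one]
  unfold nbc
  rw [h2]
  nlinarith

/-- `nbk` over the tails -/
lemma nbk_sum {C H : Finset V} {tl : V → ι} {Q : Finset (V × V)} {Ps : Finset (Finset V)}
    {Y : Finset ι} (hY : ∀ e ∈ Q, tl e.1 ∈ Y) :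
    nbk G C H tl Q Ps = ∑ y ∈ Y, nbc G C tl Q y
      - 2 * ∑ e ∈ Q, ((Ps.card - Pk.uin G tl (H \ Q.image Prod.fst) e : ℕ) : ℤ) := by
  have h1 : ∑ e ∈ Q, (1 + ((frC G C tl Q e.1).card : ℤ))
      = ∑ y ∈ Y, ∑ e ∈ pcs tl Q y, (1 + ((frC G C tl Q e.1).card : ℤ)) :=
    (sum_fiberwise_of_maps_to (g := fun e : V × V => tl e.1) (fun e he => hY e he) _).symm
  have h2 := bothB_split (G := G) hY
  unfold nbk nbc
  rw [h1, h2, sum_add_distrib, ← mul_sum]
  push_cast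
  ring

end EnG

section WG

variable {V : Type*} {G : SimpleGraph V} {Z T : Finset V} {hm : V → V} {r m n t p : ℕ}
  {φ : Finset (V × V) → Finset (Finset V) → ℕ} {A S : Finset V} {Q : Finset (V × V)}
  {Ps : Finset (Finset V)}

/-- **the energy over the basic integers, the PC pairs of the tail `y` kept** -/
theorem PkPP.energyG (hF : PFrame G r m t Z T) (hh : Homes G Z T hm)
    (hC : CSys G Z T hm A fun x => S.filter fun v => hm v = x)
    (ht : ∀ x ∈ A, ∀ v ∈ HP G Z T (fun x => S.filter fun v => hm v = x) x,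
      tlo G T hm v ∈ A.erase x) {x : V} (hx : x ∈ A)
    (h : PkPP G (CP G Z T (fun x => S.filter fun v => hm v = x) x)
      (HP G Z T (fun x => S.filter fun v => hm v = x) x) (tlo G T hm) φ Q Ps) (y : V) :
    2 * eI G hm S x + (∑ u ∈ pkf Q Ps, (ivl u : ℤ)) * (∑ u ∈ pkf Q Ps, (ivl u : ℤ) + 1)
        + E G ((pcs (tlo G T hm) Q y).image Prod.fst)
      ≤ 2 * ((∑ u ∈ pkf Q Ps, (ivl u : ℤ)) * hI G Z T hm S x)
        + nbo G (CP G Z T (fun x => S.filter fun v => hm v = x) x)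
          (HP G Z T (fun x => S.filter fun v => hm v = x) x) (tlo G T hm) Q Ps y
        + 2 * ∑ z ∈ A.erase x, nxk G (CP G Z T (fun x => S.filter fun v => hm v = x) x)
          (HP G Z T (fun x => S.filter fun v => hm v = x) x) (tlo G T hm) Q z
        + 2 * ∑ e ∈ pcs (tlo G T hm) Q y,
          (nd G (CP G Z T (fun x => S.filter fun v => hm v = x) x) e.1 : ℤ) := by
  set C : Finset V := CP G Z T (fun x => S.filter fun v => hm v = x) x with hCd
  set H : Finset V := HP G Z T (fun x => S.filter fun v => hm v = x) x with hHd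
  have hCH : Disjoint H C := (hC.dCH hx hx).symm
  have h1 := h.energyP_G (hC.h32 hF hh ht hx) (hC.CP_clq hF hx) hCH y
  have h2 := h.toPk.sum_ivl
  have h3 : ∑ u ∈ pkf Q Ps, (ivl u : ℤ) + Ps.card = (H.card : ℤ) := by exact_mod_cast h2
  have h5 := two_eI (G := G) (hm := hm) S x
  have hN : ∀ v ∈ Nend G C H (tlo G T hm) Q, tlo G T hm v ∈ A.erase x := fun v hv =>
    ht x hx v (mem_sdiff.1 (mem_Nend.1 hv).1).1
  have h6 : ∑ v ∈ Nend G C H (tlo G T hm) Q, ((frC G C (tlo G T hm) Q v).card : ℤ)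
      = ∑ z ∈ A.erase x, ∑ v ∈ nez G C H (tlo G T hm) Q z,
        ((frC G C (tlo G T hm) Q v).card : ℤ) :=
    (sum_fiberwise_of_maps_to hN fun v => ((frC G C (tlo G T hm) Q v).card : ℤ)).symm
  have h7 : ∑ z ∈ A.erase x, (E G (nez G C H (tlo G T hm) Q z) : ℤ)
      ≤ E G (Nend G C H (tlo G T hm) Q) := by
    exact_mod_cast sum_E_filter (G := G) (Nend G C H (tlo G T hm) Q) (tlo G T hm) (A.erase x) hN
  have h8 : 2 * ∑ z ∈ A.erase x, nxk G C H (tlo G T hm) Q z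
      = 2 * ∑ z ∈ A.erase x, ∑ v ∈ nez G C H (tlo G T hm) Q z,
          ((frC G C (tlo G T hm) Q v).card : ℤ)
        - ∑ z ∈ A.erase x, (E G (nez G C H (tlo G T hm) Q z) : ℤ) := by
    rw [mul_sum, sum_congr rfl fun z _ => two_nxk C H (tlo G T hm) Q z, sum_sub_distrib,
      ← mul_sum]
  have h10 : H ∪ C = S.filter fun v => hm v = x := by
    rw [union_comm]
    exact CP_union_HP
  rw [h10] at h1
  rw [h8, h5]
  have h9 : hI G Z T hm S x = (H.card : ℤ) := rfl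
  rw [h9]
  obtain ⟨μ, hμ⟩ : ∃ μ : ℤ, μ = ∑ u ∈ pkf Q Ps, (ivl u : ℤ) := ⟨_, rfl⟩
  rw [← hμ] at h3 ⊢
  have h4 : (Ps.card : ℤ) = (H.card : ℤ) - μ := by linarith
  unfold nbo
  rw [h4, h6] at h1
  nlinarith

end WG

end Pool.Agent.Lib.MP_f04ccf_co
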