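import Pool.Agent.Lib.MP_f04ccf_co.M.EnG
import Pool.Agent.Lib.MP_f04ccf_co.M.CellC

/-!
MP_f04ccf_co, notes 17535, 17608: the energy of a home with the PC pairs of one tail `y` kept exactly,
version [C] (packings with the most PC pairs): `nxw x z` is the excess of the cell `x z`.

* `nbc_le_nxw`: the excess of a tail is at most `nxw`.
* `PkOpt.energyG`: `2 e + mu (mu + 1) + E (W_y) ≤ 2 mu h + ∑_(z ≠ y) nxw x z + 2 ∑_(W_y) nd`.
-/

set_option autoImplicit false

namespace Pool.Agent.Lib.MP_f04ccf_co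

open Finset

attribute [local instance] Classical.propDecidable

section EnGC

variable {V : Type*} {G : SimpleGraph V} {Z T : Finset V} {hm : V → V} {r m n p : ℕ}
  {φ : Finset (V × V) → Finset (Finset V) → ℕ}
  {B : V → Finset (V × V)} {Ps : V → Finset (Finset V)}

/-- the excess of one tail is at most `nxw` -/
lemma WHom.nbc_le_nxw (h : WHom G Z T r m n hm)
    (hB : ∀ x ∈ T, Pk G (cz G Z T hm x) (hz G Z T hm x) (tlo G T hm) (B x) (Ps x))
    {x : V} (hx : x ∈ T) (z : V) :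
    nbc G (cz G Z T hm x) (tlo G T hm) (B x) z ≤ nxw G Z T hm B x z := by
  have h4 : ∑ e ∈ pcs (tlo G T hm) (B x) z,
        (1 + ((frC G (cz G Z T hm x) (tlo G T hm) (B x) e.1).card : ℤ))
      = ((pcs (tlo G T hm) (B x) z).card : ℤ) + ∑ e ∈ pcs (tlo G T hm) (B x) z,
        ((msd G (cz G Z T hm x \ (pcs (tlo G T hm) (B x) z).image Prod.snd) e.1).card : ℤ) := by
    rw [sum_add_distrib, sum_const, nsmul_eq_mul, mul_one]
    congr 1
    refine sum_congr rfl fun e he => ?_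
    rw [h.frC_msd hB hx he]
  have h5 : bothB G (tlo G T hm) (pcs (tlo G T hm) (B x) z)
      ≤ both2 G (pcs (tlo G T hm) (B x) z) := by
    refine card_le_card fun q hq => ?_
    obtain ⟨h6, h7, -, h8⟩ := mem_filter.1 hq
    exact mem_filter.2 ⟨h6, h7, h8⟩
  have h6 : (bothB G (tlo G T hm) (pcs (tlo G T hm) (B x) z) : ℤ)
      ≤ (both2 G (pcs (tlo G T hm) (B x) z) : ℤ) := by exact_mod_cast h5
  unfold nbc nxw nex
  rw [h4]
  push_cast
  linarith

/-- **the energy of a packing with the most PC pairs, the PC pairs of the tail `y` kept** -/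
theorem PkOpt.energyG (h : WHom G Z T r m n hm) {x y : V} (hx : x ∈ T)
    (hB : ∀ x ∈ T, PkOpt G (cz G Z T hm x) (hz G Z T hm x) (tlo G T hm) φ (B x) (Ps x)) :
    2 * eI G hm Z x + (∑ u ∈ pkf (B x) (Ps x), (ivl u : ℤ))
        * (∑ u ∈ pkf (B x) (Ps x), (ivl u : ℤ) + 1)
        + E G ((pcs (tlo G T hm) (B x) y).image Prod.fst)
      ≤ 2 * ((∑ u ∈ pkf (B x) (Ps x), (ivl u : ℤ)) * hI G Z T hm Z x)
        + ∑ z ∈ (T.erase x).erase y, nxw G Z T hm B x z
        + 2 * ∑ e ∈ pcs (tlo G T hm) (B x) y, (nd G (cz G Z T hm x) e.1 : ℤ) := by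
  set C : Finset V := cz G Z T hm x with hCd
  set H : Finset V := hz G Z T hm x with hHd
  have hF := h.F.toPFrame
  have hpk := hB x hx
  have hCH : Disjoint H C := (h.csys.dCH hx hx).symm
  have h32 := h.csys.h32 hF h.hh h.ht hx
  have h1 := hpk.toPk.energy_coreG hpk.min h32 (h.csys.CP_clq hF hx) hCH y (D := 0)
    (by rw [add_zero]; exact sum_le_sum fun e he => hpk.toPk.uin_le h32 he)
  have h2 := hpk.toPk.sum_ivl
  have h3 : ∑ u ∈ pkf (B x) (Ps x), (ivl u : ℤ) + (Ps x).card = (H.card : ℤ) := by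
    exact_mod_cast h2
  have h5 := two_eI (G := G) (hm := hm) Z x
  have h0 : Nend G C H (tlo G T hm) (B x) = ∅ := hpk.frC_zero
  have h10 : H ∪ C = Z.filter fun v => hm v = x := by
    rw [union_comm]
    exact CP_union_HP
  -- the other tails
  have ht : ∀ e ∈ B x \ pcs (tlo G T hm) (B x) y, tlo G T hm e.1 ∈ (T.erase x).erase y := by
    intro e he
    obtain ⟨h6, h7⟩ := mem_sdp.1 he
    exact mem_erase.2 ⟨h7, h.ht x hx _ (hpk.bH e h6)⟩
  have hpcs : ∀ z ∈ (T.erase x).erase y, pcs (tlo G T hm) (B x \ pcs (tlo G T hm) (B x) y) z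
      = pcs (tlo G T hm) (B x) z := by
    intro z hz'
    ext e
    rw [mem_pcs, mem_pcs, mem_sdp]
    constructor
    · rintro ⟨⟨h6, -⟩, h7⟩
      exact ⟨h6, h7⟩
    · rintro ⟨h6, h7⟩
      exact ⟨⟨h6, fun h8 => (mem_erase.1 hz').1 (h7.symm.trans h8)⟩, h7⟩
  have h6 : 2 * ∑ e ∈ B x \ pcs (tlo G T hm) (B x) y,
        (1 + ((frC G C (tlo G T hm) (B x) e.1).card : ℤ))
      + bothB G (tlo G T hm) (B x \ pcs (tlo G T hm) (B x) y)
      ≤ ∑ z ∈ (T.erase x).erase y, nxw G Z T hm B x z := by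
    have h7 : ∑ e ∈ B x \ pcs (tlo G T hm) (B x) y,
        (1 + ((frC G C (tlo G T hm) (B x) e.1).card : ℤ))
        = ∑ z ∈ (T.erase x).erase y, ∑ e ∈ pcs (tlo G T hm) (B x) z,
          (1 + ((frC G C (tlo G T hm) (B x) e.1).card : ℤ)) := by
      rw [← sum_fiberwise_of_maps_to (g := fun e : V × V => tlo G T hm e.1) (fun e he => ht e he)]
      refine sum_congr rfl fun z hz' => ?_
      rw [← hpcs z hz']
      rfl
    have h8 := bothB_split (G := G) ht
    rw [h7, h8, mul_sum, Nat.cast_sum, ← sum_add_distrib]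
    refine sum_le_sum fun z hz' => ?_
    rw [hpcs z hz']
    exact h.nbc_le_nxw (fun x hx => (hB x hx).toPk) hx z
  rw [h10, h0] at h1
  rw [h5]
  have h9 : hI G Z T hm Z x = (H.card : ℤ) := rfl
  rw [h9]
  obtain ⟨μ, hμ⟩ : ∃ μ : ℤ, μ = ∑ u ∈ pkf (B x) (Ps x), (ivl u : ℤ) := ⟨_, rfl⟩
  rw [← hμ] at h3 ⊢
  have h4 : ((Ps x).card : ℤ) = (H.card : ℤ) - μ := by linarith
  have h11 : E G (∅ : Finset V) = 0 := rfl
  rw [h4, h11, sum_empty] at h1
  push_cast at h1
  nlinarith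

end EnGC

end Pool.Agent.Lib.MP_f04ccf_co
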