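import Pool.Agent.Lib.MP_f04ccf_co.M.Pack
import Pool.Agent.Lib.MP_f04ccf_co.M.CellN

/-!
MP_f04ccf_co, note 16568: the T-form with N-ends, exact, for the clique packings of M/Pack.

For a packing `Pk G C H tl B Ps` let `U` be the members in the parts, `W` the members of the PC
pairs, `frC v` the missed class points of `v` whose copy is free, `usC v` those whose copy is used
by another member.  An N-end is a member `v` of a part with `frC v ≠ ∅`.
Only the least number of parts is used: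

* `Pk.pinS`: a set of members of one part can be pinned to free copies at once.
* `Pk.home`: every part has a member without free copies.
* `Pk.edgeN`: two parts have an edge which does not join two N-ends.
* `Pk.E_partsN`: `p * p + E N ≤ E U + p`.
* `Pk.energyN`: `NE (H ∪ C) + p (p - 1) + E N ≤ h (h - 1) + 2 ∑_U |frC| + 2 ∑_B (1 + |frC|) + both`.
* `PkPP` (least number of PC pairs): every member of a PC pair has a neighbour in every part, and
  `2 ∑_B (p - u)` may be added on the left (`PkPP.energyP`).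
-/

set_option autoImplicit false

namespace Pool.Agent.Lib.MP_f04ccf_co

open Finset

attribute [local instance] Classical.propDecidable

section EnN

variable {ι V : Type*} {G : SimpleGraph V} {C H : Finset V} {tl : V → ι}
  {B : Finset (V × V)} {Ps : Finset (Finset V)}

variable (G C tl B) in
/-- the missed class points of `v` whose copy is free -/
noncomputable def frC (v : V) : Finset V :=
  C.filter fun a => ¬ G.Adj v a ∧ ∀ e ∈ B, e.2 = a → tl e.1 ≠ tl v

variable (G C tl B) in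
/-- the missed class points of `v` whose copy is used by another member -/
noncomputable def usC (v : V) : Finset V :=
  C.filter fun a => ¬ G.Adj v a ∧ ∃ e ∈ B, e.1 ≠ v ∧ e.2 = a ∧ tl e.1 = tl v

variable (G C H tl B) in
/-- the N-ends: the members outside the PC pairs with a free missed point -/
noncomputable def Nend : Finset V :=
  (H \ B.image Prod.fst).filter fun v => (frC G C tl B v).Nonempty

variable (G tl B) in
/-- ordered pairs of PC pairs of one tail with both arcs -/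
noncomputable def bothB : ℕ :=
  ((B ×ˢ B).filter fun q => q.1.1 ≠ q.2.1 ∧ tl q.1.1 = tl q.2.1 ∧ ¬ G.Adj q.1.1 q.2.2 ∧
    ¬ G.Adj q.2.1 q.1.2).card

lemma mem_frC {v a : V} : a ∈ frC G C tl B v ↔
    a ∈ C ∧ ¬ G.Adj v a ∧ ∀ e ∈ B, e.2 = a → tl e.1 ≠ tl v := by
  rw [frC, mem_filter]

lemma mem_usC {v a : V} : a ∈ usC G C tl B v ↔
    a ∈ C ∧ ¬ G.Adj v a ∧ ∃ e ∈ B, e.1 ≠ v ∧ e.2 = a ∧ tl e.1 = tl v := by
  rw [usC, mem_filter]

lemma mem_Nend {v : V} : v ∈ Nend G C H tl B ↔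
    v ∈ H \ B.image Prod.fst ∧ (frC G C tl B v).Nonempty := by
  rw [Nend, mem_filter]

namespace Pk

/-- **pinning a set `S` of members of the part `P` to free copies** -/
theorem pinS (h : Pk G C H tl B Ps) {P S : Finset V} (hP : P ∈ Ps) (hS : S ⊆ P) {a : V → V}
    (ha : ∀ v ∈ S, a v ∈ frC G C tl B v)
    (hi : ∀ v ∈ S, ∀ w ∈ S, v ≠ w → tl v = tl w → a v ≠ a w)
    {Ps' : Finset (Finset V)}
    (h1 : ∀ R ∈ Ps', R.Nonempty) (h2 : ∀ R ∈ Ps', R = P \ S ∨ R ∈ Ps ∧ R ≠ P)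
    (h3 : ∀ R ∈ Ps, R ≠ P → R ∈ Ps') (h4 : (P \ S).Nonempty → P \ S ∈ Ps') :
    Pk G C H tl (B ∪ S.image fun v => (v, a v)) Ps' := by
  have hvB : ∀ e ∈ B, ∀ v ∈ S, e.1 ≠ v := fun e he v hv h5 => h.dw e he P hP (h5 ▸ hS hv)
  have hd : ∀ R ∈ Ps, R ≠ P → Disjoint (P \ S) R := fun R hR hRP =>
    (h.dis P hP R hR hRP.symm).mono_left sdiff_subset
  have hmem : ∀ e, e ∈ B ∪ (S.image fun v => (v, a v)) → e ∈ B ∨ ∃ v ∈ S, e = (v, a v) := by
    intro e he
    rcases mem_union.1 he with he | he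
    · exact Or.inl he
    · obtain ⟨v, hv, rfl⟩ := mem_image.1 he
      exact Or.inr ⟨v, hv, rfl⟩
  refine ⟨?_, ?_, ?_, ?_, ?_, h1, ?_, ?_, ?_, ?_, ?_⟩
  · intro e he
    rcases hmem e he with he | ⟨v, hv, rfl⟩
    · exact h.bH e he
    · exact h.sub P hP (hS hv)
  · intro e he
    rcases hmem e he with he | ⟨v, hv, rfl⟩
    · exact h.bC e he
    · exact (mem_frC.1 (ha v hv)).1
  · intro e he
    rcases hmem e he with he | ⟨v, hv, rfl⟩
    · exact h.bN e he
    · exact (mem_frC.1 (ha v hv)).2.1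
  · intro e he f hf hef
    rcases hmem e he with he | ⟨v, hv, rfl⟩ <;> rcases hmem f hf with hf | ⟨w, hw, rfl⟩
    · exact h.b1 e he f hf hef
    · exact absurd hef (hvB e he w hw)
    · exact absurd hef.symm (hvB f hf v hv)
    · have h5 : v = w := hef
      rw [h5]
  · intro e he f hf hef htl
    rcases hmem e he with he | ⟨v, hv, rfl⟩ <;> rcases hmem f hf with hf | ⟨w, hw, rfl⟩
    · exact h.b2 e he f hf hef htl
    · exact absurd htl ((mem_frC.1 (ha w hw)).2.2 e he hef)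
    · exact absurd htl.symm ((mem_frC.1 (ha v hv)).2.2 f hf hef.symm)
    · by_cases h5 : v = w
      · rw [h5]
      · exact absurd hef (hi v hv w hw h5 htl)
  · intro R hR
    rcases h2 R hR with rfl | ⟨h5, -⟩
    · exact sdiff_subset.trans (h.sub P hP)
    · exact h.sub R h5
  · intro R hR
    rcases h2 R hR with rfl | ⟨h5, -⟩
    · exact fun x hx y hy => h.ind P hP x (mem_sdiff.1 hx).1 y (mem_sdiff.1 hy).1
    · exact h.ind R h5
  · intro R hR T hT hRT
    rcases h2 R hR with rfl | ⟨h5, h6⟩ <;> rcases h2 T hT with rfl | ⟨h7, h8⟩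
    · exact absurd rfl hRT
    · exact hd T h7 h8
    · exact (hd R h5 h6).symm
    · exact h.dis R h5 T h7 hRT
  · intro e he R hR
    rcases hmem e he with he | ⟨v, hv, rfl⟩
    · rcases h2 R hR with rfl | ⟨h5, -⟩
      · exact fun h7 => h.dw e he P hP (mem_sdiff.1 h7).1
      · exact h.dw e he R h5
    · rcases h2 R hR with rfl | ⟨h5, h6⟩
      · exact fun h7 => (mem_sdiff.1 h7).2 hv
      · exact fun h7 => h6 (h.part_eq h5 hP h7 (hS hv))
  · intro u hu
    by_cases huS : u ∈ S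
    · exact Or.inl ⟨(u, a u), mem_union_right _ (mem_image_of_mem _ huS), rfl⟩
    rcases h.cov u hu with ⟨e, he, h5⟩ | ⟨R, hR, huR⟩
    · exact Or.inl ⟨e, mem_union_left _ he, h5⟩
    · refine Or.inr ?_
      by_cases h5 : R = P
      · have h6 : u ∈ P \ S := mem_sdiff.2 ⟨h5 ▸ huR, huS⟩
        exact ⟨P \ S, h4 ⟨u, h6⟩, h6⟩
      · exact ⟨R, h3 R hR h5, huR⟩

/-- N-ends of one part: a free copy for each, different for equal tails -/
lemma choice (h : Pk G C H tl B Ps) (h32 : ∀ v ∈ H, ∀ w ∈ H, ∀ a ∈ C, v ≠ w → tl v = tl w →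
    ¬ G.Adj v a → ¬ G.Adj w a → G.Adj v w) {P : Finset V} (hP : P ∈ Ps) :
    ∃ a : V → V, (∀ v ∈ P.filter (fun v => (frC G C tl B v).Nonempty), a v ∈ frC G C tl B v) ∧
      ∀ v ∈ P.filter (fun v => (frC G C tl B v).Nonempty),
        ∀ w ∈ P.filter (fun v => (frC G C tl B v).Nonempty), v ≠ w → tl v = tl w → a v ≠ a w := by
  have h1 : ∀ v ∈ P.filter (fun v => (frC G C tl B v).Nonempty), ∃ a, a ∈ frC G C tl B v :=
    fun v hv => (mem_filter.1 hv).2
  choose! a ha using h1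
  refine ⟨a, ha, fun v hv w hw hvw htl hn => ?_⟩
  have h2 := mem_frC.1 (ha v hv)
  have h3 := mem_frC.1 (ha w hw)
  have h4 := (mem_filter.1 hv).1
  have h5 := (mem_filter.1 hw).1
  refine h.ind P hP v h4 w h5 (h32 v (h.sub P hP h4) w (h.sub P hP h5) (a v) h2.1 hvw htl h2.2.1 ?_)
  rw [hn]
  exact h3.2.1

/-- **a part is not made of N-ends only** -/
theorem home (h : Pk G C H tl B Ps) (hmin : ∀ B' Ps', Pk G C H tl B' Ps' → Ps.card ≤ Ps'.card)
    (h32 : ∀ v ∈ H, ∀ w ∈ H, ∀ a ∈ C, v ≠ w → tl v = tl w →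
      ¬ G.Adj v a → ¬ G.Adj w a → G.Adj v w) {P : Finset V} (hP : P ∈ Ps) :
    ∃ v ∈ P, ¬ (frC G C tl B v).Nonempty := by
  by_contra hcon
  push Not at hcon
  obtain ⟨a, ha, hi⟩ := h.choice h32 hP
  have h0 : P.filter (fun v => (frC G C tl B v).Nonempty) = P := by
    refine filter_true_of_mem fun v hv => ?_
    exact hcon v hv
  rw [h0] at ha hi
  have h1 : Pk G C H tl (B ∪ P.image fun v => (v, a v)) (Ps.erase P) := by
    refine h.pinS hP Subset.rfl ha hi (fun R hR => h.ne R (mem_of_mem_erase hR))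
      (fun R hR => Or.inr ⟨mem_of_mem_erase hR, ne_of_mem_erase hR⟩)
      (fun R hR hRP => mem_erase.2 ⟨hRP, hR⟩) (fun h2 => ?_)
    rw [sdiff_self] at h2
    exact absurd h2 not_nonempty_empty
  have h2 := hmin _ _ h1
  have h3 := card_erase_add_one hP
  omega

/-- **two parts have an edge which does not join two N-ends** -/
theorem edgeN (h : Pk G C H tl B Ps) (hmin : ∀ B' Ps', Pk G C H tl B' Ps' → Ps.card ≤ Ps'.card)
    (h32 : ∀ v ∈ H, ∀ w ∈ H, ∀ a ∈ C, v ≠ w → tl v = tl w →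
      ¬ G.Adj v a → ¬ G.Adj w a → G.Adj v w) {P Q : Finset V} (hP : P ∈ Ps) (hQ : Q ∈ Ps)
    (hPQ : P ≠ Q) : ∃ x ∈ P, ∃ y ∈ Q, G.Adj x y ∧ ¬ (frC G C tl B x).Nonempty := by
  by_contra hcon
  push Not at hcon
  obtain ⟨a, ha, hi⟩ := h.choice h32 hP
  set S := P.filter (fun v => (frC G C tl B v).Nonempty) with hS
  have hSP : S ⊆ P := filter_subset _ _
  obtain ⟨v, hv, hv'⟩ := h.home hmin h32 hP
  have hne : (P \ S).Nonempty := ⟨v, mem_sdiff.2 ⟨hv, fun h1 => hv' (mem_filter.1 h1).2⟩⟩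
  have h1 : Pk G C H tl (B ∪ S.image fun v => (v, a v)) (insert (P \ S) (Ps.erase P)) := by
    refine h.pinS hP hSP ha hi ?_ ?_ (fun R hR hRP => mem_insert_of_mem (mem_erase.2 ⟨hRP, hR⟩))
      (fun _ => mem_insert_self _ _)
    · intro R hR
      rcases mem_insert.1 hR with rfl | hR
      · exact hne
      · exact h.ne R (mem_of_mem_erase hR)
    · intro R hR
      rcases mem_insert.1 hR with rfl | hR
      · exact Or.inl rfl
      · exact Or.inr ⟨mem_of_mem_erase hR, ne_of_mem_erase hR⟩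
  have hQ1 : Q ∈ insert (P \ S) (Ps.erase P) := mem_insert_of_mem (mem_erase.2 ⟨hPQ.symm, hQ⟩)
  have h2 : ∀ x ∈ P \ S, ∀ y ∈ Q, ¬ G.Adj x y := by
    intro x hx y hy hxy
    obtain ⟨hxP, hxS⟩ := mem_sdiff.1 hx
    have h3 := hcon x hxP y hy hxy
    exact hxS (mem_filter.2 ⟨hxP, h3⟩)
  have hPSQ : P \ S ≠ Q := by
    rintro h3
    have hvQ : v ∈ Q := h3 ▸ mem_sdiff.2 ⟨hv, fun h1 => hv' (mem_filter.1 h1).2⟩
    exact hPQ (h.part_eq hP hQ hv hvQ)
  have h3 := hmin _ _ (h1.merge (mem_insert_self _ _) hQ1 h2)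
  have h4 := card_insert_le ((P \ S) ∪ Q) (((insert (P \ S) (Ps.erase P)).erase (P \ S)).erase Q)
  have h5 : Q ∈ (insert (P \ S) (Ps.erase P)).erase (P \ S) := mem_erase.2 ⟨hPSQ.symm, hQ1⟩
  have h6 := card_erase_add_one h5
  have h7 := card_erase_add_one (mem_insert_self (P \ S) (Ps.erase P))
  have h8 := card_insert_le (P \ S) (Ps.erase P)
  have h9 := card_erase_add_one hP
  omega

private lemma E_filter (X : Finset V) : E G X = ((X ×ˢ X).filter fun e => G.Adj e.1 e.2).card := by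
  unfold E
  rw [card_filter, sum_product]
  refine sum_congr rfl fun x _ => ?_
  unfold dg
  rw [card_filter]

/-- **the edges inside the parts**: one for each ordered pair of parts besides the edges between
N-ends -/
theorem E_partsN (h : Pk G C H tl B Ps)
    (hmin : ∀ B' Ps', Pk G C H tl B' Ps' → Ps.card ≤ Ps'.card)
    (h32 : ∀ v ∈ H, ∀ w ∈ H, ∀ a ∈ C, v ≠ w → tl v = tl w →
      ¬ G.Adj v a → ¬ G.Adj w a → G.Adj v w) :
    Ps.card * Ps.card + E G (Nend G C H tl B) ≤ E G (H \ B.image Prod.fst) + Ps.card := by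
  set U : Finset V := H \ B.image Prod.fst with hU
  set N : Finset V := Nend G C H tl B with hN
  have hNU : N ⊆ U := fun v hv => (mem_Nend.1 hv).1
  have hp : ∀ v : V, ∃ P : Finset V, ∀ Q ∈ Ps, v ∈ Q → P = Q := by
    intro v
    by_cases h1 : ∃ Q ∈ Ps, v ∈ Q
    · obtain ⟨Q, hQ, hv⟩ := h1
      exact ⟨Q, fun R hR hvR => h.part_eq hQ hR hv hvR⟩
    · exact ⟨∅, fun Q hQ hv => absurd ⟨Q, hQ, hv⟩ h1⟩
  choose p hp using hp
  set F : Finset (V × V) := (U ×ˢ U).filter fun e => G.Adj e.1 e.2 with hF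
  set F1 : Finset (V × V) := (N ×ˢ N).filter fun e => G.Adj e.1 e.2 with hF1
  have hF1F : F1 ⊆ F := filter_subset_filter _ (product_subset_product hNU hNU)
  have h1 : Ps.offDiag ⊆ (F \ F1).image fun e => (p e.1, p e.2) := by
    intro PQ hPQ
    obtain ⟨P, Q⟩ := PQ
    obtain ⟨hP, hQ, hne⟩ := mem_offDiag.1 hPQ
    obtain ⟨x, hx, y, hy, hxy, hxN⟩ := h.edgeN hmin h32 hP hQ hne
    refine mem_image.2 ⟨(x, y), mem_sdiff.2 ⟨mem_filter.2 ⟨mem_product.2 ⟨?_, ?_⟩, hxy⟩, ?_⟩, ?_⟩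
    · rw [hU, h.union_eq]
      exact mem_biUnion.2 ⟨P, hP, hx⟩
    · rw [hU, h.union_eq]
      exact mem_biUnion.2 ⟨Q, hQ, hy⟩
    · intro h2
      exact hxN (mem_Nend.1 (mem_product.1 (mem_filter.1 h2).1).1).2
    · rw [Prod.mk.injEq]
      exact ⟨hp x P hP hx, hp y Q hQ hy⟩
  have h2 := (card_le_card h1).trans card_image_le
  rw [offDiag_card] at h2
  have h3 := card_sdiff_add_card_eq_card hF1F
  rw [E_filter, E_filter, ← hF, ← hF1]
  omega

/-- the incoming arcs of a PC pair from the members of `U` -/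
noncomputable def uin (G : SimpleGraph V) (tl : V → ι) (U : Finset V) (e : V × V) : ℕ :=
  (U.filter fun v => tl v = tl e.1 ∧ ¬ G.Adj v e.2).card

/-- the arcs of the members of `U` to used copies, counted at the PC pairs -/
lemma sum_usC :
    ∑ v ∈ H \ B.image Prod.fst, (usC G C tl B v).card ≤
      ∑ e ∈ B, uin G tl (H \ B.image Prod.fst) e := by
  set U : Finset V := H \ B.image Prod.fst with hU
  have h1 : ∀ v ∈ U, (usC G C tl B v).card ≤
      (B.filter fun e => tl v = tl e.1 ∧ ¬ G.Adj v e.2).card := by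
    intro v _
    have h2 : ∀ a ∈ usC G C tl B v, ∃ e ∈ B, e.1 ≠ v ∧ e.2 = a ∧ tl e.1 = tl v :=
      fun a ha => (mem_usC.1 ha).2.2
    choose! f hf1 hf2 hf3 hf4 using h2
    refine card_le_card_of_injOn f ?_ ?_
    · intro a ha
      have ha' : a ∈ usC G C tl B v := by exact_mod_cast ha
      have h3 : ¬ G.Adj v (f a).2 := by
        rw [hf3 a ha']
        exact (mem_usC.1 ha').2.1
      have : f a ∈ B.filter fun e => tl v = tl e.1 ∧ ¬ G.Adj v e.2 :=
        mem_filter.2 ⟨hf1 a ha', (hf4 a ha').symm, h3⟩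
      exact_mod_cast this
    · intro a ha b hb hab
      have ha' : a ∈ usC G C tl B v := by exact_mod_cast ha
      have hb' : b ∈ usC G C tl B v := by exact_mod_cast hb
      rw [← hf3 a ha', ← hf3 b hb', hab]
  refine (sum_le_sum h1).trans (le_of_eq ?_)
  have h2 := sum_card_bipartiteAbove_eq_sum_card_bipartiteBelow (s := U) (t := B)
    (fun v e => tl v = tl e.1 ∧ ¬ G.Adj v e.2)
  simp only [bipartiteAbove, bipartiteBelow] at h2
  exact h2

/-- an incoming arc gives an edge -/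
lemma uin_le (h : Pk G C H tl B Ps) (h32 : ∀ v ∈ H, ∀ w ∈ H, ∀ a ∈ C, v ≠ w → tl v = tl w →
    ¬ G.Adj v a → ¬ G.Adj w a → G.Adj v w) {e : V × V} (he : e ∈ B) :
    uin G tl (H \ B.image Prod.fst) e ≤ dg G (H \ B.image Prod.fst) e.1 := by
  refine card_le_card fun v hv => ?_
  obtain ⟨h1, h2, h3⟩ := mem_filter.1 hv
  obtain ⟨h4, h5⟩ := mem_sdiff.1 h1
  have h6 : v ≠ e.1 := fun h7 => h5 (h7 ▸ mem_image_of_mem _ he)
  exact mem_filter.2 ⟨h1, (h32 v h4 e.1 (h.bH e he) e.2 (h.bC e he) h6 h2 h3 (h.bN e he)).symm⟩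

/-- the arcs between PC pairs -/
lemma sum_usC_W (h : Pk G C H tl B Ps) (h32 : ∀ v ∈ H, ∀ w ∈ H, ∀ a ∈ C, v ≠ w → tl v = tl w →
    ¬ G.Adj v a → ¬ G.Adj w a → G.Adj v w) :
    2 * ∑ e ∈ B, (usC G C tl B e.1).card ≤ E G (B.image Prod.fst) + bothB G tl B := by
  set A1 : Finset ((V × V) × (V × V)) := (B ×ˢ B).filter fun q =>
    q.1.1 ≠ q.2.1 ∧ tl q.1.1 = tl q.2.1 ∧ ¬ G.Adj q.1.1 q.2.2 with hA1
  set A2 : Finset ((V × V) × (V × V)) := (B ×ˢ B).filter fun q =>
    q.1.1 ≠ q.2.1 ∧ tl q.1.1 = tl q.2.1 ∧ ¬ G.Adj q.2.1 q.1.2 with hA2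
  have h1 : ∑ e ∈ B, (usC G C tl B e.1).card ≤ A1.card := by
    have h2 : ∀ e ∈ B, (usC G C tl B e.1).card ≤
        (B.filter fun f => e.1 ≠ f.1 ∧ tl e.1 = tl f.1 ∧ ¬ G.Adj e.1 f.2).card := by
      intro e _
      have h2 : ∀ a ∈ usC G C tl B e.1, ∃ f ∈ B, f.1 ≠ e.1 ∧ f.2 = a ∧ tl f.1 = tl e.1 :=
        fun a ha => (mem_usC.1 ha).2.2
      choose! f hf1 hf2 hf3 hf4 using h2
      refine card_le_card_of_injOn f ?_ ?_
      · intro a ha
        have ha' : a ∈ usC G C tl B e.1 := by exact_mod_cast ha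
        have h3 : ¬ G.Adj e.1 (f a).2 := by
          rw [hf3 a ha']
          exact (mem_usC.1 ha').2.1
        have : f a ∈ B.filter fun f => e.1 ≠ f.1 ∧ tl e.1 = tl f.1 ∧ ¬ G.Adj e.1 f.2 :=
          mem_filter.2 ⟨hf1 a ha', (hf2 a ha').symm, (hf4 a ha').symm, h3⟩
        exact_mod_cast this
      · intro a ha b hb hab
        have ha' : a ∈ usC G C tl B e.1 := by exact_mod_cast ha
        have hb' : b ∈ usC G C tl B e.1 := by exact_mod_cast hb
        rw [← hf3 a ha', ← hf3 b hb', hab]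
    refine (sum_le_sum h2).trans (le_of_eq ?_)
    rw [hA1, card_filter, sum_product]
    refine sum_congr rfl fun e _ => ?_
    rw [card_filter]
  have h2 : A1.card = A2.card := by
    refine card_bij (fun q _ => (q.2, q.1)) ?_ ?_ ?_
    · intro q hq
      obtain ⟨h3, h4, h5, h6⟩ := mem_filter.1 hq
      obtain ⟨h7, h8⟩ := mem_product.1 h3
      exact mem_filter.2 ⟨mem_product.2 ⟨h8, h7⟩, h4.symm, h5.symm, h6⟩
    · intro q _ q' _ hqq
      rw [Prod.mk.injEq] at hqq
      exact Prod.ext hqq.2 hqq.1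
    · intro q hq
      obtain ⟨h3, h4, h5, h6⟩ := mem_filter.1 hq
      obtain ⟨h7, h8⟩ := mem_product.1 h3
      exact ⟨(q.2, q.1), mem_filter.2 ⟨mem_product.2 ⟨h8, h7⟩, h4.symm, h5.symm, h6⟩, rfl⟩
  have h3 : (A1 ∪ A2).card ≤ E G (B.image Prod.fst) := by
    rw [E_filter]
    refine card_le_card_of_injOn (fun q => (q.1.1, q.2.1)) ?_ ?_
    · intro q hq
      have hq' : q ∈ A1 ∪ A2 := by exact_mod_cast hq
      have h4 : q.1 ∈ B ∧ q.2 ∈ B ∧ G.Adj q.1.1 q.2.1 := by
        rcases mem_union.1 hq' with h4 | h4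
        · obtain ⟨h5, h6, h7, h8⟩ := mem_filter.1 h4
          obtain ⟨h9, h10⟩ := mem_product.1 h5
          exact ⟨h9, h10, h32 _ (h.bH _ h9) _ (h.bH _ h10) _ (h.bC _ h10) h6 h7 h8 (h.bN _ h10)⟩
        · obtain ⟨h5, h6, h7, h8⟩ := mem_filter.1 h4
          obtain ⟨h9, h10⟩ := mem_product.1 h5
          exact ⟨h9, h10, (h32 _ (h.bH _ h10) _ (h.bH _ h9) _ (h.bC _ h9) h6.symm h7.symm h8
            (h.bN _ h9)).symm⟩
      have : (q.1.1, q.2.1) ∈ ((B.image Prod.fst) ×ˢ (B.image Prod.fst)).filter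
          fun e => G.Adj e.1 e.2 :=
        mem_filter.2 ⟨mem_product.2 ⟨mem_image.2 ⟨q.1, h4.1, rfl⟩,
          mem_image.2 ⟨q.2, h4.2.1, rfl⟩⟩, h4.2.2⟩
      exact_mod_cast this
    · intro q hq q' hq' hqq
      have hB : ∀ q : (V × V) × (V × V), q ∈ A1 ∪ A2 → q.1 ∈ B ∧ q.2 ∈ B := by
        intro q hq
        rcases mem_union.1 hq with h4 | h4 <;> exact mem_product.1 (mem_filter.1 h4).1
      obtain ⟨h4, h5⟩ := hB q (by exact_mod_cast hq)
      obtain ⟨h6, h7⟩ := hB q' (by exact_mod_cast hq')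
      obtain ⟨h8, h9⟩ := Prod.mk.inj hqq
      exact Prod.ext (h.b1 _ h4 _ h6 h8) (h.b1 _ h5 _ h7 h9)
  have h4 : (A1 ∩ A2).card ≤ bothB G tl B := by
    refine card_le_card fun q hq => ?_
    obtain ⟨h5, h6⟩ := mem_inter.1 hq
    obtain ⟨h7, h8, h9, h10⟩ := mem_filter.1 h5
    obtain ⟨-, -, -, h11⟩ := mem_filter.1 h6
    exact mem_filter.2 ⟨h7, h8, h9, h10, h11⟩
  have h5 := card_union_add_card_inter A1 A2
  omega

/-- the missed points of a member outside the PC pairs -/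
lemma nd_U {v : V} (hv : v ∈ H \ B.image Prod.fst) :
    nd G C v ≤ (frC G C tl B v).card + (usC G C tl B v).card := by
  refine le_trans (card_le_card fun a ha => ?_) (card_union_le _ _)
  obtain ⟨h1, -, h2⟩ := mem_filter.1 ha
  by_cases h3 : ∀ e ∈ B, e.2 = a → tl e.1 ≠ tl v
  · exact mem_union_left _ (mem_frC.2 ⟨h1, h2, h3⟩)
  · push Not at h3
    obtain ⟨e, he, h4, h5⟩ := h3
    refine mem_union_right _ (mem_usC.2 ⟨h1, h2, e, he, fun h6 => ?_, h4, h5⟩)
    exact (mem_sdiff.1 hv).2 (h6 ▸ mem_image_of_mem _ he)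

/-- the missed points of a member of a PC pair -/
lemma nd_W (h : Pk G C H tl B Ps) {e : V × V} (he : e ∈ B) :
    nd G C e.1 ≤ 1 + (frC G C tl B e.1).card + (usC G C tl B e.1).card := by
  have h0 : C.filter (fun a => a ≠ e.1 ∧ ¬ G.Adj e.1 a) ⊆
      {e.2} ∪ (frC G C tl B e.1 ∪ usC G C tl B e.1) := by
    intro a ha
    obtain ⟨h1, -, h2⟩ := mem_filter.1 ha
    by_cases h3 : ∀ f ∈ B, f.2 = a → tl f.1 ≠ tl e.1
    · exact mem_union_right _ (mem_union_left _ (mem_frC.2 ⟨h1, h2, h3⟩))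
    · push Not at h3
      obtain ⟨f, hf, h4, h5⟩ := h3
      by_cases h6 : f.1 = e.1
      · have h7 := h.b1 f hf e he h6
        rw [← h4, h7]
        exact mem_union_left _ (mem_singleton_self _)
      · exact mem_union_right _ (mem_union_right _ (mem_usC.2 ⟨h1, h2, f, hf, h6, h4, h5⟩))
  have h1 := card_le_card h0
  have h2 := card_union_le {e.2} (frC G C tl B e.1 ∪ usC G C tl B e.1)
  have h3 := card_union_le (frC G C tl B e.1) (usC G C tl B e.1)
  have h4 : ({e.2} : Finset V).card = 1 := card_singleton _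
  unfold nd
  omega

/-- the sum over the members outside the PC pairs is the sum over the N-ends -/
lemma sum_frC : ∑ v ∈ H \ B.image Prod.fst, (frC G C tl B v).card =
    ∑ v ∈ Nend G C H tl B, (frC G C tl B v).card := by
  unfold Nend
  rw [sum_filter]
  refine sum_congr rfl fun v _ => ?_
  split_ifs with h1
  · rfl
  · rw [not_nonempty_iff_eq_empty.1 h1, card_empty]

private lemma arithN {nH nh c eN eU eW eH a1 a2 f g s1 s2 u d D b : ℕ}
    (h4 : (eH : ℤ) + nH = nh * (nh - 1)) (h5 : eU + 2 * d + eW = eH) (h6 : c * c + eN ≤ eU + c)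
    (h7 : a1 ≤ f + s1) (h8 : a2 ≤ g + s2) (h9 : s1 ≤ u) (h10 : 2 * s2 ≤ eW + b) (hD : u + D ≤ d) :
    ((nH + 2 * (a1 + a2) : ℕ) : ℤ) + c * (c - 1) + eN + 2 * D ≤
      (nh : ℤ) * (nh - 1) + 2 * (f : ℤ) + 2 * (g : ℤ) + b := by
  have h16 : (c : ℤ) * (c - 1) = ((c * c : ℕ) : ℤ) - c := by push_cast; ring
  rw [← h4, h16]
  push_cast
  have h6' : ((c * c : ℕ) : ℤ) + eN ≤ eU + c := by exact_mod_cast h6
  push_cast at h6'
  zify at h5 h7 h8 h9 h10 hD
  linarith

/-- **the energy with N-ends**, with a gain `D` of the edges between PC members and parts -/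
theorem energy_core (h : Pk G C H tl B Ps)
    (hmin : ∀ B' Ps', Pk G C H tl B' Ps' → Ps.card ≤ Ps'.card)
    (h32 : ∀ v ∈ H, ∀ w ∈ H, ∀ a ∈ C, v ≠ w → tl v = tl w →
      ¬ G.Adj v a → ¬ G.Adj w a → G.Adj v w) (hC : Clq G C) (hHC : Disjoint H C) {D : ℕ}
    (hD : ∑ e ∈ B, uin G tl (H \ B.image Prod.fst) e + D ≤
      ∑ e ∈ B, dg G (H \ B.image Prod.fst) e.1) :
    (NE G (H ∪ C) : ℤ) + Ps.card * (Ps.card - 1) + E G (Nend G C H tl B) + 2 * D
      ≤ (H.card : ℤ) * (H.card - 1) + 2 * ∑ v ∈ Nend G C H tl B, ((frC G C tl B v).card : ℤ)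
        + 2 * ∑ e ∈ B, (1 + (frC G C tl B e.1).card : ℤ) + bothB G tl B := by
  set W : Finset V := B.image Prod.fst with hW
  set U : Finset V := H \ W with hU
  set N : Finset V := Nend G C H tl B with hN
  have hWH : W ⊆ H := h.W_sub
  have hd : Disjoint U W := sdiff_disjoint
  have hUW : U ∪ W = H := sdiff_union_of_subset hWH
  have h1 := NE_union (G := G) hHC
  rw [NE_clq hC, nd_comm, add_zero] at h1
  have h2 : ∑ v ∈ H, nd G C v = ∑ v ∈ U, nd G C v + ∑ v ∈ W, nd G C v := by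
    rw [← sum_union hd, hUW]
  have himg : ∀ f : V → ℕ, ∑ v ∈ W, f v = ∑ e ∈ B, f e.1 := by
    intro f
    rw [hW, sum_image fun e he f hf hef =>
      h.b1 e (by exact_mod_cast he) f (by exact_mod_cast hf) hef]
  have h3 : ∑ v ∈ W, nd G C v = ∑ e ∈ B, nd G C e.1 := himg _
  have h4 := E_add_NE (G := G) H
  have h5 : E G U + 2 * ∑ e ∈ B, dg G U e.1 + E G W = E G H := by
    have h6 : E G H = ∑ v ∈ U, dg G (U ∪ W) v + ∑ v ∈ W, dg G (U ∪ W) v := by
      rw [← sum_union hd, hUW]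
      rfl
    have h7 : ∀ v, dg G (U ∪ W) v = dg G U v + dg G W v := by
      intro v
      unfold dg
      rw [filter_union, card_union_of_disjoint (disjoint_filter_filter hd)]
    have h8 : ∑ v ∈ W, dg G U v = ∑ v ∈ U, dg G W v := by
      have h9 := sum_card_bipartiteAbove_eq_sum_card_bipartiteBelow (s := W) (t := U)
        (fun a b => G.Adj a b)
      unfold dg
      simp only [bipartiteAbove, bipartiteBelow] at h9
      rw [h9]
      refine sum_congr rfl fun b _ => ?_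
      congr 1
      ext a
      simp [G.adj_comm]
    rw [h6]
    simp only [h7, sum_add_distrib]
    rw [← h8, himg]
    have h10 : E G U = ∑ v ∈ U, dg G U v := rfl
    have h11 : E G W = ∑ v ∈ W, dg G W v := rfl
    rw [h10, h11]
    ring
  have h6 := h.E_partsN hmin h32
  have h7 : ∑ v ∈ U, nd G C v ≤ ∑ v ∈ U, (frC G C tl B v).card + ∑ v ∈ U, (usC G C tl B v).card := by
    rw [← sum_add_distrib]
    exact sum_le_sum fun v hv => nd_U hv
  have h8 : ∑ e ∈ B, nd G C e.1 ≤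
      ∑ e ∈ B, (1 + (frC G C tl B e.1).card) + ∑ e ∈ B, (usC G C tl B e.1).card := by
    rw [← sum_add_distrib]
    exact sum_le_sum fun e he => h.nd_W he
  have h9 := sum_usC (G := G) (C := C) (H := H) (tl := tl) (B := B)
  have h10 := h.sum_usC_W h32
  rw [← hW, ← hU] at h6 h9
  rw [← hW] at h10
  rw [← hN] at h6
  rw [sum_frC (H := H) (B := B) (G := G) (C := C) (tl := tl), ← hN] at h7
  have h11 : ((∑ v ∈ N, (frC G C tl B v).card : ℕ) : ℤ) = ∑ v ∈ N, ((frC G C tl B v).card : ℤ) := by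
    push_cast; rfl
  have h12 : ((∑ e ∈ B, (1 + (frC G C tl B e.1).card) : ℕ) : ℤ) =
      ∑ e ∈ B, (1 + (frC G C tl B e.1).card : ℤ) := by push_cast; rfl
  rw [← h11, ← h12, h1, h2, h3]
  exact arithN h4 h5 h6 h7 h8 h9 h10 hD

/-- **the energy with N-ends** (least number of parts) -/
theorem energyN (h : Pk G C H tl B Ps)
    (hmin : ∀ B' Ps', Pk G C H tl B' Ps' → Ps.card ≤ Ps'.card)
    (h32 : ∀ v ∈ H, ∀ w ∈ H, ∀ a ∈ C, v ≠ w → tl v = tl w →
      ¬ G.Adj v a → ¬ G.Adj w a → G.Adj v w) (hC : Clq G C) (hHC : Disjoint H C) :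
    (NE G (H ∪ C) : ℤ) + Ps.card * (Ps.card - 1) + E G (Nend G C H tl B)
      ≤ (H.card : ℤ) * (H.card - 1) + 2 * ∑ v ∈ Nend G C H tl B, ((frC G C tl B v).card : ℤ)
        + 2 * ∑ e ∈ B, (1 + (frC G C tl B e.1).card : ℤ) + bothB G tl B := by
  have h1 := h.energy_core hmin h32 hC hHC (D := 0)
    (by rw [add_zero]; exact sum_le_sum fun e he => h.uin_le h32 he)
  simpa using h1

/-- a member of a PC pair moved to a part -/
theorem move (h : Pk G C H tl B Ps) {e : V × V} (he : e ∈ B) {P : Finset V} (hP : P ∈ Ps)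
    (hn : ∀ v ∈ P, ¬ G.Adj e.1 v) :
    Pk G C H tl (B.erase e) (insert (insert e.1 P) (Ps.erase P)) := by
  have heP : ∀ R ∈ Ps, e.1 ∉ R := fun R hR => h.dw e he R hR
  have hd : ∀ R ∈ Ps.erase P, Disjoint (insert e.1 P) R := by
    intro R hR
    obtain ⟨h1, h2⟩ := mem_erase.1 hR
    rw [disjoint_insert_left]
    exact ⟨heP R h2, h.dis P hP R h2 h1.symm⟩
  refine ⟨fun f hf => h.bH f (mem_of_mem_erase hf), fun f hf => h.bC f (mem_of_mem_erase hf),
    fun f hf => h.bN f (mem_of_mem_erase hf),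
    fun f hf g hg => h.b1 f (mem_of_mem_erase hf) g (mem_of_mem_erase hg),
    fun f hf g hg => h.b2 f (mem_of_mem_erase hf) g (mem_of_mem_erase hg), ?_, ?_, ?_, ?_, ?_, ?_⟩
  · intro R hR
    rcases mem_insert.1 hR with rfl | hR
    · exact insert_nonempty _ _
    · exact h.ne R (mem_of_mem_erase hR)
  · intro R hR
    rcases mem_insert.1 hR with rfl | hR
    · exact insert_subset (h.bH e he) (h.sub P hP)
    · exact h.sub R (mem_of_mem_erase hR)
  · intro R hR
    rcases mem_insert.1 hR with rfl | hR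
    · intro x hx y hy
      rcases mem_insert.1 hx with rfl | hx <;> rcases mem_insert.1 hy with rfl | hy
      · exact G.irrefl
      · exact hn y hy
      · exact fun h' => hn x hx h'.symm
      · exact h.ind P hP x hx y hy
    · exact h.ind R (mem_of_mem_erase hR)
  · intro R hR S hS hRS
    rcases mem_insert.1 hR with rfl | hR <;> rcases mem_insert.1 hS with rfl | hS
    · exact absurd rfl hRS
    · exact hd S hS
    · exact (hd R hR).symm
    · exact h.dis R (mem_of_mem_erase hR) S (mem_of_mem_erase hS) hRS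
  · intro f hf R hR
    obtain ⟨hfe, hfB⟩ := mem_erase.1 hf
    rcases mem_insert.1 hR with rfl | hR
    · intro h1
      rcases mem_insert.1 h1 with h1 | h1
      · exact hfe (h.b1 f hfB e he h1)
      · exact h.dw f hfB P hP h1
    · exact h.dw f hfB R (mem_of_mem_erase hR)
  · intro v hv
    by_cases hve : v = e.1
    · exact Or.inr ⟨_, mem_insert_self _ _, hve ▸ mem_insert_self _ _⟩
    rcases h.cov v hv with ⟨f, hf, h1⟩ | ⟨R, hR, hvR⟩
    · refine Or.inl ⟨f, mem_erase.2 ⟨?_, hf⟩, h1⟩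
      rintro rfl
      exact hve h1.symm
    · refine Or.inr ?_
      by_cases h2 : R = P
      · exact ⟨_, mem_insert_self _ _, mem_insert_of_mem (h2 ▸ hvR)⟩
      · exact ⟨R, mem_insert_of_mem (mem_erase.2 ⟨h2, hR⟩), hvR⟩

end Pk

variable (G C H tl) in
/-- a packing with the least number of parts, then the least number of PC pairs, then largest `φ` -/
structure PkPP (φ : Finset (V × V) → Finset (Finset V) → ℕ) (B : Finset (V × V))
    (Ps : Finset (Finset V)) : Prop extends Pk G C H tl B Ps where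
  min : ∀ B' Ps', Pk G C H tl B' Ps' → Ps.card ≤ Ps'.card
  few : ∀ B' Ps', Pk G C H tl B' Ps' → Ps'.card = Ps.card → B.card ≤ B'.card
  max' : ∀ B' Ps', Pk G C H tl B' Ps' → Ps'.card = Ps.card → B'.card = B.card →
    φ B' Ps' ≤ φ B Ps

/-- such packings exist -/
theorem exists_pkpp (φ : Finset (V × V) → Finset (Finset V) → ℕ) :
    ∃ B Ps, PkPP G C H tl φ B Ps := by
  set K : Finset (Finset (V × V) × Finset (Finset V)) :=
    ((H ×ˢ C).powerset ×ˢ H.powerset.powerset).filter fun q => Pk G C H tl q.1 q.2 with hK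
  have hmem : ∀ B Ps, Pk G C H tl B Ps → (B, Ps) ∈ K := by
    intro B Ps h
    rw [hK, mem_filter, mem_product, mem_powerset, mem_powerset]
    refine ⟨⟨fun e he => mem_product.2 ⟨h.bH e he, h.bC e he⟩, fun P hP => ?_⟩, h⟩
    exact mem_powerset.2 (h.sub P hP)
  have hne : K.Nonempty := ⟨_, hmem _ _ pk_single⟩
  obtain ⟨q0, hq0, hm0⟩ := exists_min_image K (fun q => q.2.card) hne
  obtain ⟨q1, hq1, hm1⟩ := exists_min_image (K.filter fun q => q.2.card = q0.2.card)
    (fun q => q.1.card) ⟨q0, mem_filter.2 ⟨hq0, rfl⟩⟩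
  obtain ⟨h11, h12⟩ := mem_filter.1 hq1
  obtain ⟨q2, hq2, hm2⟩ := exists_max_image
    (K.filter fun q => q.2.card = q0.2.card ∧ q.1.card = q1.1.card)
    (fun q => φ q.1 q.2) ⟨q1, mem_filter.2 ⟨h11, h12, rfl⟩⟩
  obtain ⟨h21, h22, h23⟩ := mem_filter.1 hq2
  refine ⟨q2.1, q2.2, (mem_filter.1 h21).2, fun B' Ps' h => ?_, fun B' Ps' h h' => ?_,
    fun B' Ps' h h' h'' => ?_⟩
  · rw [h22]
    exact hm0 _ (hmem _ _ h)
  · rw [h23]
    exact hm1 (B', Ps') (mem_filter.2 ⟨hmem _ _ h, h'.trans h22⟩)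
  · exact hm2 (B', Ps') (mem_filter.2 ⟨hmem _ _ h, h'.trans h22, h''.trans h23⟩)

namespace PkPP

variable {φ : Finset (V × V) → Finset (Finset V) → ℕ}

/-- **a member of a PC pair has a neighbour in every part** -/
theorem nbr (h : PkPP G C H tl φ B Ps) {e : V × V} (he : e ∈ B) {P : Finset V} (hP : P ∈ Ps) :
    ∃ v ∈ P, G.Adj e.1 v := by
  by_contra hcon
  push Not at hcon
  have h1 := h.toPk.move he hP hcon
  have h2 := h.min _ _ h1
  have h3 := card_insert_le (insert e.1 P) (Ps.erase P)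
  have h4 := card_erase_add_one hP
  have h5 := h.few _ _ h1 (by omega)
  have h6 := card_erase_add_one he
  omega

/-- a member of a PC pair has at least as many neighbours in the parts as there are parts -/
theorem dg_le (h : PkPP G C H tl φ B Ps) {e : V × V} (he : e ∈ B) :
    Ps.card ≤ dg G (H \ B.image Prod.fst) e.1 := by
  have : Nonempty V := ⟨e.1⟩
  have h1 : ∀ P ∈ Ps, ∃ v, v ∈ P ∧ G.Adj e.1 v := fun P hP => by
    obtain ⟨v, hv, h2⟩ := h.nbr he hP
    exact ⟨v, hv, h2⟩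
  choose! f hf1 hf2 using h1
  refine card_le_card_of_injOn f ?_ ?_
  · intro P hP
    have hP' : P ∈ Ps := by exact_mod_cast hP
    have h3 : f P ∈ H \ B.image Prod.fst := by
      rw [h.toPk.union_eq, mem_biUnion]
      exact ⟨P, hP', hf1 P hP'⟩
    have : f P ∈ (H \ B.image Prod.fst).filter fun w => G.Adj e.1 w :=
      mem_filter.2 ⟨h3, hf2 P hP'⟩
    exact_mod_cast this
  · intro P hP Q hQ hPQ
    have hP' : P ∈ Ps := by exact_mod_cast hP
    have hQ' : Q ∈ Ps := by exact_mod_cast hQ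
    exact h.toPk.part_eq hP' hQ' (hf1 P hP') (hPQ ▸ hf1 Q hQ')

/-- **the energy with N-ends for the least number of PC pairs**: a PC pair has an excess only if it
has more free missed points than there are parts -/
theorem energyP (h : PkPP G C H tl φ B Ps)
    (h32 : ∀ v ∈ H, ∀ w ∈ H, ∀ a ∈ C, v ≠ w → tl v = tl w →
      ¬ G.Adj v a → ¬ G.Adj w a → G.Adj v w) (hC : Clq G C) (hHC : Disjoint H C) :
    (NE G (H ∪ C) : ℤ) + Ps.card * (Ps.card - 1) + E G (Nend G C H tl B)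
        + 2 * ∑ e ∈ B, ((Ps.card - Pk.uin G tl (H \ B.image Prod.fst) e : ℕ) : ℤ)
      ≤ (H.card : ℤ) * (H.card - 1) + 2 * ∑ v ∈ Nend G C H tl B, ((frC G C tl B v).card : ℤ)
        + 2 * ∑ e ∈ B, (1 + (frC G C tl B e.1).card : ℤ) + bothB G tl B := by
  have h1 := h.toPk.energy_core h.min h32 hC hHC
    (D := ∑ e ∈ B, (Ps.card - Pk.uin G tl (H \ B.image Prod.fst) e)) ?_
  · push_cast at h1 ⊢
    exact h1
  · rw [← sum_add_distrib]
    refine sum_le_sum fun e he => ?_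
    have h2 := h.toPk.uin_le h32 he
    have h3 := h.dg_le he
    omega

end PkPP

end EnN

section Two

variable {V : Type*} {G : SimpleGraph V}

/-- **the N-ends of one cell, homes on both sides** (15's compensation): `κ` any number of missed
points on both sides.  The left side is twice the excess of the two hosts; the right side is twice the
missed cells (class edges), the adjacent pairs of each host (in `energyN` on the left) and the edges
between the two hosts. -/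
theorem cellN {Cx Cy Ix Iy : Finset V} {κ : V → ℕ} (hd : Disjoint Ix Iy)
    (h32 : ∀ w ∈ Ix ∪ Iy, ∀ w' ∈ Ix ∪ Iy, w ≠ w' → ¬ G.Adj w w' → ∀ a ∈ Cx, G.Adj w a ∨ G.Adj w' a)
    (hr : ∀ w ∈ Ix ∪ Iy, ∀ a ∈ Cx, ∀ c ∈ Cy, ¬ G.Adj w a → ¬ G.Adj w c → G.Adj a c)
    (hx : ∀ w ∈ Ix ∪ Iy, κ w ≤ (msC G Cx w).card) (hy : ∀ w ∈ Ix ∪ Iy, κ w ≤ (msC G Cy w).card) :
    2 * ∑ v ∈ Ix, κ v + 2 * ∑ v ∈ Iy, κ v ≤ 2 * (mcells G (Ix ∪ Iy) Cx Cy).card
      + E G Ix + E G Iy + 2 * ∑ v ∈ Ix, dg G Iy v := by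
  have h1 := comp_graph h32 hr hx hy
  rw [sum_union hd] at h1
  have h2 : E G (Ix ∪ Iy) = E G Ix + E G Iy + 2 * ∑ v ∈ Ix, dg G Iy v := by
    have h7 : ∀ v, dg G (Ix ∪ Iy) v = dg G Ix v + dg G Iy v := by
      intro v
      unfold dg
      rw [filter_union, card_union_of_disjoint (disjoint_filter_filter hd)]
    have h8 : ∑ v ∈ Iy, dg G Ix v = ∑ v ∈ Ix, dg G Iy v := by
      have h9 := sum_card_bipartiteAbove_eq_sum_card_bipartiteBelow (s := Iy) (t := Ix)
        (fun a b => G.Adj a b)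
      unfold dg
      simp only [bipartiteAbove, bipartiteBelow] at h9
      rw [h9]
      refine sum_congr rfl fun b _ => ?_
      congr 1
      ext a
      simp [G.adj_comm]
    unfold E
    rw [sum_union hd]
    simp only [h7, sum_add_distrib]
    rw [h8]
    ring
  rw [h2] at h1
  linarith

end Two

end Pool.Agent.Lib.MP_f04ccf_co
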