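import Pool.Agent.Lib.MP_f04ccf_co.M.EnPs
import Pool.Agent.Lib.MP_f04ccf_co.M.BlkA

/-!
MP_f04ccf_co, PLAN W, finite part: **the enumeration for one pair of largest shares, by the profile of
the shares**.
`EnPr.prof m p S`: the nonincreasing lists of length `m`, entries at most `p`, sum at most `S`;
`EnPr.pk R n sel ts`: all worlds with the shares `ts` (the candidates `(h, mu)` of a row are those which
pass its own row test with these shares; thresholds and pair tests once; leaf `Le.top`), the first row only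
among `sel` of its candidates; `EnPr.blk`, `EnPr.fin`, `EnPr.join`; `NoPr.of_prof`.
-/

set_option autoImplicit false

namespace Pool.Agent.Lib.MP_f04ccf_co

open Finset

attribute [local instance] Classical.propDecidable

namespace EnPr

open Ld (Rw)

/-- all members -/
noncomputable def lall {α : Type} (f : α → Bool) (L : List α) : Bool :=
  List.rec (motive := fun _ => Bool) true
    (fun a _ r => Bool.rec (motive := fun _ => Bool) false r (f a)) L

lemma lall_iff {α : Type} {f : α → Bool} {L : List α} :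
    lall f L = true ↔ ∀ a ∈ L, f a = true := by
  induction L with
  | nil => exact ⟨fun _ a ha => absurd ha (by simp), fun _ => rfl⟩
  | cons b L ih =>
    have h0 : lall f (b :: L) = Bool.rec (motive := fun _ => Bool) false (lall f L) (f b) := rfl
    rw [h0]
    rcases h1 : f b with _ | _
    · constructor
      · intro h
        exact absurd h (by simp)
      · intro h
        have := h b List.mem_cons_self
        rw [h1] at this
        exact absurd this (by simp)
    · constructor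
      · intro h a ha
        rcases List.mem_cons.1 ha with rfl | h2
        · exact h1
        · exact ih.1 h a h2
      · intro h
        exact ih.2 fun a ha => h a (List.mem_cons_of_mem _ ha)

/-- the row test of `(h, mu)`: `a` the sum of the excesses, `b` the largest one, `B` twice the energy -/
noncomputable def ok (R t a b h mu B : ℕ) : Bool :=
  Bool.rec (motive := fun _ => Bool) false
    (Nat.ble (Nat.mul (Nat.mul 2 R) h)
      (Nat.add (Nat.add B (Nat.mul 2 (Ld.mi a (Nat.mul mu b)))) (Nat.mul (Nat.mul 2 R) (Nat.succ t))))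
    (Bool.rec (motive := fun _ => Bool) (Nat.ble h t) true (Nat.ble 1 mu))

/-- the candidates with `h`, `mu < m` -/
noncomputable def cm (R t a b h m : ℕ) :
    List (ℕ × ℕ × ℕ) → (List (ℕ × ℕ × ℕ) → Bool) → Bool :=
  Nat.rec (motive := fun _ => List (ℕ × ℕ × ℕ) → (List (ℕ × ℕ × ℕ) → Bool) → Bool)
    (fun acc k => k acc)
    (fun mu ih acc k =>
      Ld.frc (Nat.sub (Nat.mul 2 (Nat.mul mu h)) (Nat.mul mu (Nat.succ mu))) fun B =>
        Bool.rec (motive := fun _ => Bool) (ih acc k) (ih ((h, mu, B) :: acc) k)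
          (ok R t a b h mu B)) m

/-- twice the energy without excess -/
def eB (h mu : ℕ) : ℕ := 2 * (mu * h) - mu * (mu + 1)

lemma cm_spec (R t a b h : ℕ) : ∀ (m : ℕ) (acc : List (ℕ × ℕ × ℕ)),
    ∃ acc' : List (ℕ × ℕ × ℕ), (∀ k, cm R t a b h m acc k = k acc') ∧ (∀ y ∈ acc, y ∈ acc') ∧
      ∀ mu < m, ok R t a b h mu (eB h mu) = true → (h, mu, eB h mu) ∈ acc' := by
  intro m
  induction m with
  | zero =>
    intro acc
    exact ⟨acc, fun k => rfl, fun y hy => hy, fun mu hmu => absurd hmu (by omega)⟩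
  | succ m ih =>
    intro acc
    have h0 : ∀ k, cm R t a b h (m + 1) acc k
        = Bool.rec (motive := fun _ => Bool) (cm R t a b h m acc k)
          (cm R t a b h m ((h, m, eB h m) :: acc) k) (ok R t a b h m (eB h m)) := by
      intro k
      have h1 : cm R t a b h (m + 1) acc k
        = Ld.frc (Nat.sub (Nat.mul 2 (Nat.mul m h)) (Nat.mul m (Nat.succ m))) fun B =>
          Bool.rec (motive := fun _ => Bool) (cm R t a b h m acc k)
            (cm R t a b h m ((h, m, B) :: acc) k) (ok R t a b h m B) := rfl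
      rw [h1, Ld.frc_eq]
      rfl
    rcases h1 : ok R t a b h m (eB h m) with _ | _
    · obtain ⟨acc', h2, h3, h4⟩ := ih acc
      refine ⟨acc', fun k => ?_, h3, fun mu hmu h5 => ?_⟩
      · rw [h0, h1]
        exact h2 k
      · rcases Nat.lt_succ_iff_lt_or_eq.1 hmu with h6 | h6
        · exact h4 mu h6 h5
        · rw [h6, h1] at h5
          exact absurd h5 (by simp)
    · obtain ⟨acc', h2, h3, h4⟩ := ih ((h, m, eB h m) :: acc)
      refine ⟨acc', fun k => ?_, fun y hy => h3 y (List.mem_cons_of_mem _ hy),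
        fun mu hmu h5 => ?_⟩
      · rw [h0, h1]
        exact h2 k
      · rcases Nat.lt_succ_iff_lt_or_eq.1 hmu with h6 | h6
        · exact h4 mu h6 h5
        · rw [h6]
          exact h3 _ List.mem_cons_self

/-- the candidates with `h < s` -/
noncomputable def ch (R t a b s : ℕ) :
    List (ℕ × ℕ × ℕ) → (List (ℕ × ℕ × ℕ) → Bool) → Bool :=
  Nat.rec (motive := fun _ => List (ℕ × ℕ × ℕ) → (List (ℕ × ℕ × ℕ) → Bool) → Bool)
    (fun acc k => k acc)
    (fun h ih acc k => cm R t a b h (Nat.succ h) acc fun acc' => ih acc' k) s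

lemma ch_spec (R t a b : ℕ) : ∀ (s : ℕ) (acc : List (ℕ × ℕ × ℕ)),
    ∃ acc' : List (ℕ × ℕ × ℕ), (∀ k, ch R t a b s acc k = k acc') ∧ (∀ y ∈ acc, y ∈ acc') ∧
      ∀ h < s, ∀ mu ≤ h, ok R t a b h mu (eB h mu) = true → (h, mu, eB h mu) ∈ acc' := by
  intro s
  induction s with
  | zero =>
    intro acc
    exact ⟨acc, fun k => rfl, fun y hy => hy, fun h hh => absurd hh (by omega)⟩
  | succ s ih =>
    intro acc
    obtain ⟨acc1, h1, h2, h3⟩ := cm_spec R t a b s (s + 1) acc
    obtain ⟨acc2, h4, h5, h6⟩ := ih acc1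
    refine ⟨acc2, fun k => ?_, fun y hy => h5 y (h2 y hy), fun h hh mu hmu h7 => ?_⟩
    · have h0 : ch R t a b (s + 1) acc k
          = cm R t a b s (s + 1) acc fun acc' => ch R t a b s acc' k := rfl
      rw [h0, h1]
      exact h4 k
    · rcases Nat.lt_succ_iff_lt_or_eq.1 hh with h8 | h8
      · exact h6 h h8 mu hmu h7
      · subst h8
        exact h5 _ (h3 mu (by omega) h7)

/-- the largest excess of a PC pair of the host -/
noncomputable def bm (R : ℕ) (L : List Rw) (z : Rw) : ℕ :=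
  Ld.lmax (fun y => Bool.rec (motive := fun _ => ℕ)
    (Bool.rec (motive := fun _ => ℕ) (Ld.nb z y) 0 (Nat.beq (Ld.cG R z y) 0)) 0 (Nat.beq z.i y.i)) L

/-- the rows with the rest of the `h` and the candidates -/
noncomputable def bld (R S : ℕ) (L0 : List Rw) (M : List Rw) :
    (List (Rw × ℕ × List (ℕ × ℕ × ℕ)) → ℕ → Bool) → Bool :=
  List.rec (motive := fun _ => (List (Rw × ℕ × List (ℕ × ℕ × ℕ)) → ℕ → Bool) → Bool)
    (fun cont => cont [] 0)
    (fun z _ ih cont => ih fun Q mx => Ld.frc (Ld.ns (Ld.cG R) L0 z) fun a => Ld.frc (bm R L0 z) fun b =>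
      ch R z.t a b (Nat.succ S) [] fun C => Ld.frc (Nat.add (Ld.lmax (fun x => x.1) C) mx) fun mx' =>
        cont ((z, mx, C) :: Q) mx') M

lemma bld_spec (R S : ℕ) (L0 : List Rw) (r : ℕ → Rw) : ∀ m k : ℕ,
    ∃ (Cf : ℕ → List (ℕ × ℕ × ℕ)) (mxf : ℕ → ℕ),
      (∀ cont, bld R S L0 ((List.range' k m).map r) cont
        = cont ((List.range' k m).map fun j => (r j, mxf (j + 1), Cf j)) (mxf k)) ∧
      ∀ j, k ≤ j → j < k + m →
        (∀ h ≤ S, ∀ mu ≤ h, ok R (r j).t (Ld.ns (Ld.cG R) L0 (r j)) (bm R L0 (r j)) h mu (eB h mu) = true →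
          (h, mu, eB h mu) ∈ Cf j) ∧ ∀ y ∈ Cf j, y.1 + mxf (j + 1) ≤ mxf j := by
  intro m
  induction m with
  | zero =>
    intro k
    exact ⟨fun _ => [], fun _ => 0, fun cont => rfl, fun j h1 h2 => absurd h2 (by omega)⟩
  | succ m ih =>
    intro k
    obtain ⟨Cf, mxf, h1, h2⟩ := ih (k + 1)
    obtain ⟨C, h3, -, h4⟩ := ch_spec R (r k).t (Ld.ns (Ld.cG R) L0 (r k)) (bm R L0 (r k)) (S + 1) []
    have hr : List.range' k (m + 1) = k :: List.range' (k + 1) m := rfl
    refine ⟨fun j => if j = k then C else Cf j,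
      fun j => if j = k then Ld.lmax (fun x => x.1) C + mxf (k + 1) else mxf j, fun cont => ?_,
      fun j h5 h6 => ?_⟩
    · have h0 : bld R S L0 ((List.range' k (m + 1)).map r) cont
          = bld R S L0 ((List.range' (k + 1) m).map r) fun Q mx =>
            Ld.frc (Ld.ns (Ld.cG R) L0 (r k)) fun a => Ld.frc (bm R L0 (r k)) fun b =>
            ch R (r k).t a b (Nat.succ S) [] fun C =>
              Ld.frc (Nat.add (Ld.lmax (fun x => x.1) C) mx) fun mx' =>
              cont ((r k, mx, C) :: Q) mx' := rfl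
      rw [h0, h1, Ld.frc_eq, Ld.frc_eq, h3, Ld.frc_eq, hr, List.map_cons]
      have e2 : (if k + 1 = k then Ld.lmax (fun x => x.1) C + mxf (k + 1) else mxf (k + 1))
          = mxf (k + 1) := if_neg (by omega)
      have e4 : (List.range' (k + 1) m).map (fun j => (r j,
            (if j + 1 = k then Ld.lmax (fun x => x.1) C + mxf (k + 1) else mxf (j + 1)),
            (if j = k then C else Cf j)))
          = (List.range' (k + 1) m).map fun j => (r j, mxf (j + 1), Cf j) := by
        refine List.map_congr_left fun j hj => ?_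
        have := (List.mem_range'_1.1 hj).1
        rw [if_neg (by omega), if_neg (by omega)]
      simp only [e2, e4]
      rfl
    · by_cases h7 : j = k
      · subst h7
        have e2 : ¬ j + 1 = j := by omega
        simp only [if_true, if_neg e2]
        refine ⟨fun h hh mu hmu h8 => h4 h (by omega) mu hmu h8, fun y hy => ?_⟩
        have := Ld.le_lmax (fun x : ℕ × ℕ × ℕ => x.1) hy
        omega
      · have e2 : ¬ j + 1 = k := by omega
        simp only [if_neg h7, if_neg e2]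
        exact h2 j (by omega) (by omega)

/-- the order of two rows -/
noncomputable def lx (pt ph pm t h mu : ℕ) : Bool :=
  Bool.rec (motive := fun _ => Bool) true
    (Bool.rec (motive := fun _ => Bool)
      (Bool.rec (motive := fun _ => Bool) false (Nat.ble mu pm) (Nat.beq h ph)) true
      (Nat.ble (Nat.succ h) ph))
    (Nat.beq t pt)

/-- a row of a world -/
def wr (z : Rw) (x : ℕ × ℕ × ℕ) : Rw := ⟨z.i, z.t, x.1, x.2.1, x.2.2, z.c, z.g, z.q⟩

/-- one candidate of a row -/
noncomputable def st (ih : ℕ → ℕ → ℕ → ℕ → List Rw → Bool) (i t c g q mx S pt ph pm : ℕ)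
    (acc : List Rw) (x : ℕ × ℕ × ℕ) : Bool :=
  Ld.frc x.1 fun h => Ld.frc x.2.1 fun mu => Ld.frc x.2.2 fun B =>
    Bool.rec (motive := fun _ => Bool) true
      (Bool.rec (motive := fun _ => Bool) true
        (Bool.rec (motive := fun _ => Bool) true
          (Ld.frc (Nat.sub S h) fun S' => ih S' t h mu (⟨i, t, h, mu, B, c, g, q⟩ :: acc))
          (lx pt ph pm t h mu))
        (Nat.ble S (Nat.add h mx)))
      (Nat.ble h S)

/-- **the enumeration** -/
noncomputable def en (leaf : List Rw → Bool) (Q : List (Rw × ℕ × List (ℕ × ℕ × ℕ))) :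
    ℕ → ℕ → ℕ → ℕ → List Rw → Bool :=
  List.rec (motive := fun _ => ℕ → ℕ → ℕ → ℕ → List Rw → Bool)
    (fun S _ _ _ acc => Bool.rec (motive := fun _ => Bool) true (leaf acc) (Nat.beq S 0))
    (fun r _ ih S pt ph pm acc => Ld.frc r.1.i fun i => Ld.frc r.1.t fun t => Ld.frc r.1.c fun c =>
      Ld.frc r.1.g fun g => Ld.frc r.1.q fun q => Ld.frc r.2.1 fun mx =>
        lall (st ih i t c g q mx S pt ph pm acc) r.2.2) Q

lemma en_cons (leaf : List Rw → Bool) (r : Rw × ℕ × List (ℕ × ℕ × ℕ))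
    (Q : List (Rw × ℕ × List (ℕ × ℕ × ℕ))) (S pt ph pm : ℕ) (acc : List Rw) :
    en leaf (r :: Q) S pt ph pm acc
      = lall (st (en leaf Q) r.1.i r.1.t r.1.c r.1.g r.1.q r.2.1 S pt ph pm acc) r.2.2 := by
  have h0 : en leaf (r :: Q) S pt ph pm acc = Ld.frc r.1.i fun i => Ld.frc r.1.t fun t =>
    Ld.frc r.1.c fun c => Ld.frc r.1.g fun g => Ld.frc r.1.q fun q => Ld.frc r.2.1 fun mx =>
      lall (st (en leaf Q) i t c g q mx S pt ph pm acc) r.2.2 := rfl
  rw [h0, Ld.frc_eq, Ld.frc_eq, Ld.frc_eq, Ld.frc_eq, Ld.frc_eq, Ld.frc_eq]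

lemma en_spec {leaf : List Rw → Bool} {r : ℕ → Rw} {Cf : ℕ → List (ℕ × ℕ × ℕ)} {mxf : ℕ → ℕ}
    {x pv : ℕ → ℕ × ℕ × ℕ} : ∀ (m k S : ℕ) (acc : List Rw),
    en leaf ((List.range' k m).map fun j => (r j, mxf (j + 1), Cf j)) S (pv k).1 (pv k).2.1
      (pv k).2.2 acc = true →
    (∀ j, k ≤ j → j < k + m → x j ∈ Cf j ∧ (∑ i ∈ Ico (j + 1) (k + m), (x i).1 ≤ mxf (j + 1)) ∧
      lx (pv j).1 (pv j).2.1 (pv j).2.2 (r j).t (x j).1 (x j).2.1 = true ∧
      pv (j + 1) = ((r j).t, (x j).1, (x j).2.1)) →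
    ∑ i ∈ Ico k (k + m), (x i).1 = S →
    leaf (((List.range' k m).map fun j => wr (r j) (x j)).reverse ++ acc) = true := by
  intro m
  induction m with
  | zero =>
    intro k S acc he _ hS
    have hS' : S = 0 := by
      rw [← hS]
      simp
    subst hS'
    exact he
  | succ m ih =>
    intro k S acc he hx hS
    have hr : List.range' k (m + 1) = k :: List.range' (k + 1) m := rfl
    rw [hr, List.map_cons, en_cons] at he
    obtain ⟨c1, c2, c3, c4⟩ := hx k le_rfl (by omega)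
    have h1 := lall_iff.1 he (x k) c1
    unfold st at h1
    rw [Ld.frc_eq, Ld.frc_eq, Ld.frc_eq] at h1
    have h2 : ∑ i ∈ Ico k (k + (m + 1)), (x i).1
        = (x k).1 + ∑ i ∈ Ico (k + 1) (k + (m + 1)), (x i).1 :=
      sum_eq_sum_Ico_succ_bot (by omega) _
    have e1 : Nat.ble (x k).1 S = true := Nat.ble_eq_true_of_le (by omega)
    have e2 : Nat.ble S (Nat.add (x k).1 (mxf (k + 1))) = true :=
      Nat.ble_eq_true_of_le (by
        show S ≤ (x k).1 + mxf (k + 1)
        omega)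
    have h3 : en leaf ((List.range' (k + 1) m).map fun j => (r j, mxf (j + 1), Cf j))
        (S - (x k).1) (r k).t (x k).1 (x k).2.1 (wr (r k) (x k) :: acc) = true := by
      simp only [e1, e2, c3, Ld.frc_eq] at h1
      exact h1
    have h4 := ih (k + 1) (S - (x k).1) (wr (r k) (x k) :: acc) (by
        rw [c4]
        exact h3)
      (fun j h5 h6 => by
        have h7 := hx j (by omega) (by omega)
        have e3 : k + (m + 1) = k + 1 + m := by ring
        rw [e3] at h7
        exact h7)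
      (by
        have e3 : k + (m + 1) = k + 1 + m := by ring
        rw [e3] at h2 hS
        omega)
    rw [hr, List.map_cons, List.reverse_cons, List.append_assoc]
    exact h4

/-- the leaf -/
noncomputable def lf (R n T0 : ℕ) (acc : List Rw) : Bool :=
  Le.top R n acc.reverse acc.reverse fun L' =>
    EnPs.ini R n (EnPs.ps L') (fun TH => EnPs.sr R n L' (EnPs.ps L') 0 TH) T0

/-- the first row only among `sel` of its candidates -/
noncomputable def go (R n T0 : ℕ) (sel : List (ℕ × ℕ × ℕ) → List (ℕ × ℕ × ℕ)) (S : ℕ)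
    (Q : List (Rw × ℕ × List (ℕ × ℕ × ℕ))) : Bool :=
  List.rec (motive := fun _ => Bool) false
    (fun r Q' _ => en (lf R n T0) ((r.1, r.2.1, sel r.2.2) :: Q') S (Nat.succ r.1.t) 0 0 []) Q

/-- **all worlds with the shares `ts`** -/
noncomputable def pk (R n : ℕ) (sel : List (ℕ × ℕ × ℕ) → List (ℕ × ℕ × ℕ)) (ts : List ℕ) : Bool :=
  Ld.frc (Nat.add (Ld.lsum (fun t => t) ts) (Nat.succ n)) fun S =>
    Ld.frc (EnPs.t2K (Nat.mul n n)) fun T0 =>
    Le.raw R (ts.map fun t => (t, 0, 0, ())) 0 fun L0 => Bool.rec (motive := fun _ => Bool)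
      (bld R S L0 L0 fun Q _ => go R n T0 sel S Q) false (Le.okM R L0)

/-- a block: the first row only among `k` candidates after `p` ones -/
noncomputable def blk (R n p k : ℕ) (ts : List ℕ) : Bool := pk R n (fun C => (C.drop p).take k) ts

/-- the last block: the first row only among the candidates after `p` ones -/
noncomputable def fin (R n p : ℕ) (ts : List ℕ) : Bool := pk R n (fun C => C.drop p) ts

/-- the profile as a function -/
lemma pk_eq (R n : ℕ) (t : ℕ → ℕ) (hn : 1 ≤ n) :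
    ∃ (r : ℕ → Rw) (Cf : ℕ → List (ℕ × ℕ × ℕ)) (mxf : ℕ → ℕ),
      (∀ j < n, (r j).i = j ∧ (r j).t = t j ∧ (r j).c = R - t j ∧ (r j).g = R - t j - (r j).q) ∧
      (∀ j < n, (∀ h ≤ ∑ i ∈ range n, t i + (n + 1), ∀ mu ≤ h,
        ok R (r j).t (Ld.ns (Ld.cG R) ((List.range n).map r) (r j)) (bm R ((List.range n).map r) (r j))
          h mu (eB h mu) = true → (h, mu, eB h mu) ∈ Cf j) ∧
        ∀ y ∈ Cf j, y.1 + mxf (j + 1) ≤ mxf j) ∧
      ∀ sel, pk R n sel ((List.range n).map t) = Bool.rec (motive := fun _ => Bool)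
        (lall (st (en (lf R n (EnPs.t2 (n * n))) ((List.range' 1 (n - 1)).map fun j => (r j, mxf (j + 1), Cf j)))
          (r 0).i (r 0).t (r 0).c (r 0).g (r 0).q (mxf 1) (∑ i ∈ range n, t i + (n + 1))
          ((r 0).t + 1) 0 0 []) (sel (Cf 0)))
        false (Le.okM R ((List.range n).map r)) := by
  obtain ⟨r, hr1, hr2⟩ := Le.mkL_spec R (fun j => (t j, 0, 0, ())) n 0
  obtain ⟨Cf, mxf, h1, h2⟩ := bld_spec R (∑ i ∈ range n, t i + (n + 1)) ((List.range' 0 n).map r)
    r n 0
  refine ⟨r, Cf, mxf, fun j hj => ?_, fun j hj => ?_, fun sel => ?_⟩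
  · obtain ⟨h3, h4, h5, h6, h7, h8, h9⟩ := hr2 j (Nat.zero_le _) (by omega)
    exact ⟨h3, h4, h8, h9⟩
  · rw [List.range_eq_range']
    exact h2 j (Nat.zero_le _) (by omega)
  · have e1 : Nat.add (Ld.lsum (fun t => t) ((List.range n).map t)) (Nat.succ n)
        = ∑ i ∈ range n, t i + (n + 1) := by
      show Ld.lsum (fun t => t) ((List.range n).map t) + (n + 1) = _
      rw [Ld.lsum_eq, List.map_id', Kern.sum_map_range]
    have e0 : EnPs.t2K (Nat.mul n n) = EnPs.t2 (n * n) := EnPs.t2K_eq _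
    unfold pk
    rw [Ld.frc_eq, Ld.frc_eq, e0, e1, Le.raw_spec, List.map_map]
    have e2 : ((fun t => (t, 0, 0, ())) ∘ t : ℕ → ℕ × ℕ × ℕ × Unit) = fun j => (t j, 0, 0, ()) := rfl
    rw [e2, List.range_eq_range', hr1, h1]
    congr 1
    obtain ⟨m, rfl⟩ : ∃ m, n = m + 1 := ⟨n - 1, by omega⟩
    have hr : List.range' 0 (m + 1) = 0 :: List.range' 1 m := rfl
    rw [hr, List.map_cons]
    show en (lf R (m + 1) _) ((r 0, mxf (0 + 1), sel (Cf 0)) :: _) _ (Nat.succ (r 0).t) 0 0 [] = _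
    rw [en_cons]
    rfl

lemma bld_ex (R S : ℕ) (L0 : List Rw) : ∀ M : List Rw,
    ∃ (Q : List (Rw × ℕ × List (ℕ × ℕ × ℕ))) (mx : ℕ), ∀ cont, bld R S L0 M cont = cont Q mx := by
  intro M
  induction M with
  | nil => exact ⟨[], 0, fun _ => rfl⟩
  | cons z M ih =>
    obtain ⟨Q, mx, h⟩ := ih
    obtain ⟨C, h3, -, -⟩ := ch_spec R z.t (Ld.ns (Ld.cG R) L0 z) (bm R L0 z) (S + 1) []
    refine ⟨(z, mx, C) :: Q, Ld.lmax (fun x => x.1) C + mx, fun cont => ?_⟩
    have h0 : bld R S L0 (z :: M) cont = bld R S L0 M fun Q mx =>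
      Ld.frc (Ld.ns (Ld.cG R) L0 z) fun a => Ld.frc (bm R L0 z) fun b =>
      ch R z.t a b (Nat.succ S) [] fun C =>
        Ld.frc (Nat.add (Ld.lmax (fun x => x.1) C) mx) fun mx' => cont ((z, mx, C) :: Q) mx' := rfl
    rw [h0, h, Ld.frc_eq, Ld.frc_eq, h3, Ld.frc_eq]
    rfl

lemma pk_ex (R n t : ℕ) (ts : List ℕ) :
    ∃ (C : List (ℕ × ℕ × ℕ)) (F : ℕ × ℕ × ℕ → Bool) (okb : Bool), ∀ sel,
      pk R n sel (t :: ts) = Bool.rec (motive := fun _ => Bool) (lall F (sel C)) false okb := by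
  obtain ⟨z, M, hz⟩ : ∃ z M, Le.mkL R ((t :: ts).map fun t => (t, 0, 0, ())) 0 = z :: M :=
    ⟨_, _, rfl⟩
  obtain ⟨S, hS⟩ : ∃ S, S = Nat.add (Ld.lsum (fun t => t) (t :: ts)) (Nat.succ n) := ⟨_, rfl⟩
  obtain ⟨Q, mx, h⟩ := bld_ex R S (z :: M) M
  obtain ⟨C, h3, -, -⟩ := ch_spec R z.t (Ld.ns (Ld.cG R) (z :: M) z) (bm R (z :: M) z) (S + 1) []
  refine ⟨C, st (en (lf R n (EnPs.t2K (Nat.mul n n))) Q) z.i z.t z.c z.g z.q mx S (Nat.succ z.t) 0 0 [],
    Le.okM R (z :: M), fun sel => ?_⟩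
  unfold pk
  rw [Ld.frc_eq, Ld.frc_eq, ← hS, Le.raw_spec, hz]
  have h0 : bld R S (z :: M) (z :: M) (fun Q _ => go R n (EnPs.t2K (Nat.mul n n)) sel S Q) = bld R S (z :: M) M fun Q mx =>
      Ld.frc (Ld.ns (Ld.cG R) (z :: M) z) fun a => Ld.frc (bm R (z :: M) z) fun b =>
      ch R z.t a b (Nat.succ S) [] fun C =>
        Ld.frc (Nat.add (Ld.lmax (fun x => x.1) C) mx) fun _ =>
          go R n (EnPs.t2K (Nat.mul n n)) sel S ((z, mx, C) :: Q) := rfl
  rw [h0, h, Ld.frc_eq, Ld.frc_eq, h3, Ld.frc_eq]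
  have h4 : go R n (EnPs.t2K (Nat.mul n n)) sel S ((z, mx, C) :: Q)
      = en (lf R n (EnPs.t2K (Nat.mul n n))) ((z, mx, sel C) :: Q) S (Nat.succ z.t) 0 0 [] := rfl
  rw [h4, en_cons]

/-- **two blocks** -/
theorem join {R n p k : ℕ} {ts : List ℕ} (h1 : blk R n p k ts = true)
    (h2 : fin R n (p + k) ts = true) : fin R n p ts = true := by
  rcases ts with _ | ⟨t, ts⟩
  · exfalso
    have h3 : blk R n p k [] = false := by
      unfold blk pk
      rw [Ld.frc_eq, Ld.frc_eq]
      rfl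
    rw [h3] at h1
    exact absurd h1 (by simp)
  obtain ⟨C, F, okb, h⟩ := pk_ex R n t ts
  unfold blk at h1
  unfold fin at h2 ⊢
  rw [h] at h1 h2 ⊢
  rcases okb with _ | _
  · have h1' : lall F ((C.drop p).take k) = true := h1
    have h2' : lall F (C.drop (p + k)) = true := h2
    show lall F (C.drop p) = true
    rw [lall_iff] at h1' h2' ⊢
    intro a ha
    rw [← List.take_append_drop k (C.drop p), List.mem_append] at ha
    rcases ha with ha | ha
    · exact h1' a ha
    · rw [List.drop_drop] at ha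
      exact h2' a ha
  · exact h1

/-- the nonincreasing lists of length `m`, entries at most `p`, sum at most `S` -/
def prof : ℕ → ℕ → ℕ → List (List ℕ)
  | 0, _, _ => [[]]
  | m + 1, p, S => (List.range (min p S + 1)).flatMap fun x => (prof m x (S - x)).map (x :: ·)

lemma mem_prof (f : ℕ → ℕ) : ∀ m k p S : ℕ, (∀ j, k ≤ j → j + 1 < k + m → f (j + 1) ≤ f j) →
    (1 ≤ m → f k ≤ p) → ∑ i ∈ Ico k (k + m), f i ≤ S → (List.range' k m).map f ∈ prof m p S := by
  intro m
  induction m with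
  | zero =>
    intro k p S _ _ _
    exact List.mem_singleton.2 rfl
  | succ m ih =>
    intro k p S h1 h2 h3
    have h4 : ∑ i ∈ Ico k (k + (m + 1)), f i = f k + ∑ i ∈ Ico (k + 1) (k + (m + 1)), f i :=
      sum_eq_sum_Ico_succ_bot (by omega) _
    have h5 := h2 (by omega)
    have e3 : k + (m + 1) = k + 1 + m := by ring
    have hr : List.range' k (m + 1) = k :: List.range' (k + 1) m := rfl
    rw [hr, List.map_cons, prof, List.mem_flatMap]
    refine ⟨f k, List.mem_range.2 (by omega), List.mem_map.2 ⟨_, ih (k + 1) (f k) (S - f k)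
      (fun j h6 h7 => h1 j (by omega) (by omega)) (fun h6 => h1 k le_rfl (by omega)) ?_, rfl⟩⟩
    rw [e3] at h4 h3
    omega

lemma mx_sum {x mxf : ℕ → ℕ} : ∀ m k : ℕ, (∀ j, k ≤ j → j < k + m → x j + mxf (j + 1) ≤ mxf j) →
    ∑ i ∈ Ico k (k + m), x i ≤ mxf k := by
  intro m
  induction m with
  | zero =>
    intro k _
    simp
  | succ m ih =>
    intro k h1
    have h4 : ∑ i ∈ Ico k (k + (m + 1)), x i = x k + ∑ i ∈ Ico (k + 1) (k + (m + 1)), x i :=
      sum_eq_sum_Ico_succ_bot (by omega) _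
    have e3 : k + (m + 1) = k + 1 + m := by ring
    have h5 := ih (k + 1) fun j h6 h7 => h1 j (by omega) (by omega)
    have h6 := h1 k le_rfl (by omega)
    rw [e3] at h4 ⊢
    omega

lemma lmax_map {α β : Type} (f : α → ℕ) (g : β → α) (L : List β) :
    Ld.lmax f (L.map g) = Ld.lmax (fun x => f (g x)) L := by
  induction L with
  | nil => rfl
  | cons a L ih =>
    have h0 : Ld.lmax f ((a :: L).map g) = Ld.mx (f (g a)) (Ld.lmax f (L.map g)) := rfl
    rw [h0, ih]
    rfl

end EnPr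

section World

variable {ι : Type} {R n : ℕ} {t s h e : ℕ → ℤ} {E : ℕ → ℕ → ℤ} {U : Finset ι}
  {ho : ι → ℕ} {vl : ι → ℤ} {kp ms mr mn : ℕ → ι → ℤ} {mu Nb : ℕ → ℤ} {Nx : ℕ → ℕ → ℤ}
  {be : ℕ → ℕ → ℤ} {ls : ℕ → ℤ → ℤ} {pc ar : ι → ℤ} {aT : ℕ → ℤ} {NN FF pw : ℕ → ℕ → ℤ}
  {nu : ℕ → ι → ℤ}

open Ld (Rw)

/-- the loads of a world for given thresholds -/
theorem ItC.ctx2 (H : ItC (R : ℤ) n t s h e E U ho vl kp ms mr mu Nb Nx be ls pc ar aT NN FF pw nu)
    (L : LvI (R : ℤ) n t s h e U ho vl kp ms mr mn mu be pc ar) (hR : 2 ≤ R) (n5 : 5 ≤ n)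
    {r : ℕ → Rw} (ri : ∀ j < n, (r j).i = j) (rt : ∀ j < n, ((r j).t : ℤ) = t j)
    (rh : ∀ j < n, ((r j).h : ℤ) = h j) (rmu : ∀ j < n, ((r j).mu : ℤ) = mu j)
    (rB : ∀ j < n, (r j).B = EnPr.eB (r j).h (r j).mu) (rc : ∀ j < n, (r j).c = R - (r j).t)
    (rg : ∀ j < n, (r j).g = R - (r j).t - (r j).q)
    (hok : ∀ i < n, ∀ j < n, i ≠ j →
      (r i).t * (r j).t + 10 ≤ 2 * R ∧ R + (r i).t * (r j).t + 1 ≤ ((r i).q + 1) * ((r j).q + 1) ∧
      (R ≤ (r i).t * (r j).t + 4 → (r i).t * (r j).t + 5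
        ≤ R + Ld.isq ((r i).t * (r j).t + 1) * (Ld.isq ((r i).t * (r j).t + 1) - 1)))
    {L' : List Rw} (hL : L'.Perm ((List.range n).map r)) :
    ∃ (m : ℕ → ℤ) (P K : ℕ → ℕ → ℕ) (N W : ℕ → ℕ → ℤ), Le.Ctx2 R n t s h e mu m P K N W r L' := by
  set m : ℕ → ℤ := fun j => ((r j).q : ℤ) with hm
  have hm0 : ∀ i < n, 0 ≤ m i := fun i _ => Int.natCast_nonneg _
  have hC := H.ldc2 L (m := m)
    (fun i hi j hj' hij => by
      have h2 := (hok i hi j hj' hij).1
      rw [← rt i hi, ← rt j hj']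
      have h3 : ((r i).t : ℤ) * (r j).t + 10 ≤ 2 * R := by exact_mod_cast h2
      linarith)
    (fun i hi j hj' hij h2 a ha h3 => by
      rw [← rt i hi, ← rt j hj'] at h2 h3 ⊢
      have h4 : R ≤ (r i).t * (r j).t + 4 := by exact_mod_cast h2
      have h5 := (hok i hi j hj' hij).2.2 h4
      obtain ⟨b, rfl⟩ := Int.eq_ofNat_of_zero_le ha
      have h6 : (r i).t * (r j).t + 1 < (b + 1) ^ 2 := by exact_mod_cast h3
      set v := Ld.isq ((r i).t * (r j).t + 1) with hv
      have h7 : v ≤ b := by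
        by_contra h8
        push Not at h8
        have h9 : v ^ 2 ≤ (r i).t * (r j).t + 1 := by
          rw [hv]
          exact Le.isq_le _
        nlinarith
      have h8 : v * (v - 1) ≤ b * (b - 1) := Nat.mul_le_mul h7 (by omega)
      have h9 : (r i).t * (r j).t + 5 ≤ R + b * (b - 1) := by omega
      rcases Nat.eq_zero_or_pos b with h10 | h10
      · rw [h10] at h9 ⊢
        have h11 : (((r i).t * (r j).t + 5 : ℕ) : ℤ) ≤ R := by
          simpa using (Int.ofNat_le.2 h9)
        push_cast at h11 ⊢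
        linarith
      · have h11 : ((b - 1 : ℕ) : ℤ) = b - 1 := by
          rw [Nat.cast_sub h10]
          norm_num
        have h12 : (((r i).t * (r j).t + 5 : ℕ) : ℤ) ≤ ((R + b * (b - 1) : ℕ) : ℤ) := by
          exact_mod_cast h9
        push_cast [h11] at h12
        push_cast
        linarith)
    (fun i hi j hj' hij k _ hk => H.jsub i hi j hj' hij k hk) hm0
    (fun i hi j hj' hij => by
      have h2 := (hok i hi j hj' hij).2.1
      rw [← rt i hi, ← rt j hj', hm]
      have h3 : (R : ℤ) + (r i).t * (r j).t + 1 ≤ ((r i).q + 1) * ((r j).q + 1) := by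
        exact_mod_cast h2
      linarith)
  refine ⟨m, _, _, _, _, ⟨hC, hR, hm0, hL, ri, rt, rh, rmu, ?_, ?_, ?_⟩, H.ldx L n5, n5⟩
  · intro j hj'
    have h5 := H.muh j hj'
    rw [← rh j hj', ← rmu j hj'] at h5 ⊢
    have h6 : (r j).mu ≤ (r j).h := by exact_mod_cast h5
    rw [rB j hj']
    unfold EnPr.eB
    have h7 : (r j).mu * ((r j).mu + 1) ≤ 2 * ((r j).mu * (r j).h) := by
      rcases Nat.eq_zero_or_pos (r j).mu with h8 | h8
      · rw [h8]
        simp
      · nlinarith
    rw [Nat.cast_sub h7]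
    push_cast
    ring
  · intro j hj'
    have h5 := H.tR j hj'
    rw [← rt j hj'] at h5 ⊢
    have h6 : (r j).t ≤ R := by omega
    rw [rc j hj', Nat.cast_sub h6]
  · intro j hj'
    have h5 := H.tR j hj'
    have h6 := rg j hj'
    rw [← rt j hj'] at h5 ⊢
    rw [h6, hm]
    show ((R - (r j).t - (r j).q : ℕ) : ℤ) = max 0 ((R : ℤ) - (r j).t - ((r j).q : ℤ))
    omega

/-- **the world of a profile does not exist** -/
theorem ItC.enPr (H : ItC (R : ℤ) n t s h e E U ho vl kp ms mr mu Nb Nx be ls pc ar aT NN FF pw nu)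
    (L : LvI (R : ℤ) n t s h e U ho vl kp ms mr mn mu be pc ar) (hR : 2 ≤ R) (n5 : 5 ≤ n)
    (lex : ∀ i j, i ≤ j → j < n → t j < t i ∨ t j = t i ∧ (h j < h i ∨ h j = h i ∧ mu j ≤ mu i))
    (hT : EnPr.fin R n 0 ((List.range n).map fun j => (t j).toNat) = true) : False := by
  obtain ⟨T, hTd⟩ : ∃ T : ℕ → ℕ, T = fun j => (t j).toNat := ⟨_, rfl⟩
  obtain ⟨x, hxd⟩ : ∃ x : ℕ → ℕ × ℕ × ℕ, x = fun j =>
    ((h j).toNat, (mu j).toNat, EnPr.eB (h j).toNat (mu j).toNat) := ⟨_, rfl⟩
  have hTt : ∀ j < n, ((T j : ℕ) : ℤ) = t j := fun j hj => by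
    rw [hTd]
    exact Int.toNat_of_nonneg (H.t0 j hj)
  have hxh : ∀ j < n, (((x j).1 : ℕ) : ℤ) = h j := fun j hj => by
    rw [hxd]
    exact Int.toNat_of_nonneg (H.h0 j hj)
  have hxm : ∀ j < n, (((x j).2.1 : ℕ) : ℤ) = mu j := fun j hj => by
    rw [hxd]
    exact Int.toNat_of_nonneg (H.mu0 hj)
  have hxB : ∀ j, (x j).2.2 = EnPr.eB (x j).1 (x j).2.1 := fun j => by rw [hxd]
  rw [← hTd] at hT
  obtain ⟨r, Cf, mxf, hr, hC, hpk⟩ := EnPr.pk_eq R n T (by omega)
  have h1 : EnPr.pk R n (fun C => C.drop 0) ((List.range n).map T) = true := hT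
  rw [hpk] at h1
  rcases hm : Le.okM R ((List.range n).map r) with _ | _
  swap
  · rw [hm] at h1
    exact absurd h1 (by simp)
  rw [hm] at h1
  have hpw := Le.okM_spec hm
  rw [List.pairwise_map] at hpw
  have hok : ∀ i < n, ∀ j < n, i ≠ j →
      (r i).t * (r j).t + 10 ≤ 2 * R ∧ R + (r i).t * (r j).t + 1 ≤ ((r i).q + 1) * ((r j).q + 1) ∧
      (R ≤ (r i).t * (r j).t + 4 → (r i).t * (r j).t + 5
        ≤ R + Ld.isq ((r i).t * (r j).t + 1) * (Ld.isq ((r i).t * (r j).t + 1) - 1)) := by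
    have key : ∀ i < n, ∀ j < n, i < j → Le.okP R (r i) (r j) = false := by
      intro i hi j hj hij
      have h2 := List.pairwise_iff_getElem.1 hpw i j (by simpa using hi) (by simpa using hj) hij
      simpa using h2
    intro i hi j hj hij
    rcases lt_or_gt_of_ne hij with h2 | h2
    · exact Le.okP_spec (key i hi j hj h2)
    · have h3 := Le.okP_spec (key j hj i hi h2)
      rw [Nat.mul_comm (r i).t, Nat.mul_comm ((r i).q + 1)]
      exact h3
  -- the rows of the world
  obtain ⟨r', hr'⟩ : ∃ r' : ℕ → Rw, r' = fun j => EnPr.wr (r j) (x j) := ⟨_, rfl⟩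
  have hctx : ∀ L' : List Rw, L'.Perm ((List.range n).map r') →
      ∃ (m : ℕ → ℤ) (P K : ℕ → ℕ → ℕ) (N W : ℕ → ℕ → ℤ),
        Le.Ctx2 R n t s h e mu m P K N W r' L' := by
    intro L' hL'
    refine H.ctx2 L hR n5 (r := r') (fun j hj => ?_) (fun j hj => ?_) (fun j hj => ?_)
      (fun j hj => ?_) (fun j hj => ?_) (fun j hj => ?_) (fun j hj => ?_)
      (fun i hi j hj hij => ?_) hL'
    · rw [hr']
      exact (hr j hj).1
    · rw [hr']
      show ((r j).t : ℤ) = t j
      rw [(hr j hj).2.1]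
      exact hTt j hj
    · rw [hr']
      exact hxh j hj
    · rw [hr']
      exact hxm j hj
    · rw [hr']
      exact hxB j
    · rw [hr']
      show (r j).c = R - (r j).t
      rw [(hr j hj).2.1]
      exact (hr j hj).2.2.1
    · rw [hr']
      show (r j).g = R - (r j).t - (r j).q
      rw [(hr j hj).2.1]
      exact (hr j hj).2.2.2
    · rw [hr']
      exact hok i hi j hj hij
  -- the sums
  have hsum : ∑ i ∈ range n, (x i).1 = ∑ i ∈ range n, T i + (n + 1) := by
    have e3 : ∑ i ∈ range n, h i = ∑ i ∈ range n, t i + (n + 1) := by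
      rw [sum_congr rfl fun i hi => H.hh i (mem_range.1 hi), sum_add_distrib, sum_add_distrib,
        sum_const, card_range, nsmul_eq_mul, mul_one, H.ss]
      ring
    have e1 : ((∑ i ∈ range n, (x i).1 : ℕ) : ℤ) = ∑ i ∈ range n, h i := by
      push_cast
      exact sum_congr rfl fun i hi => hxh i (mem_range.1 hi)
    have e2 : ((∑ i ∈ range n, T i : ℕ) : ℤ) = ∑ i ∈ range n, t i := by
      push_cast
      exact sum_congr rfl fun i hi => hTt i (mem_range.1 hi)
    have e4 : ((∑ i ∈ range n, (x i).1 : ℕ) : ℤ) = ((∑ i ∈ range n, T i + (n + 1) : ℕ) : ℤ) := by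
      rw [e1, e3, Nat.cast_add, e2]
      push_cast
      ring
    exact_mod_cast e4
  -- the candidates
  have hcand : ∀ j < n, x j ∈ Cf j := by
    intro j hj
    obtain ⟨m, P, K, N, W, C⟩ := hctx _ (List.Perm.refl _)
    have hE := C.toCtx.en_spec (hi := Ld.cG R)
      (fun x hx z hz hxz => Ld.Ctx.cG_spec C.toCtx hx hz hxz) hj
    have h2 := Le.rt_spec (a := 0) (b := 0) C hj hE (by omega) (by omega)
    have h3 : (x j).1 ≤ ∑ i ∈ range n, T i + (n + 1) := by
      rw [← hsum]
      exact single_le_sum (f := fun i => (x i).1) (fun _ _ => Nat.zero_le _) (mem_range.2 hj)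
    have h4 : (x j).2.1 ≤ (x j).1 := by
      have h5 := H.muh j hj
      rw [← hxh j hj, ← hxm j hj] at h5
      exact_mod_cast h5
    have h5 := (hC j hj).1 (x j).1 h3 (x j).2.1 h4
    have h6 : ((x j).1, (x j).2.1, EnPr.eB (x j).1 (x j).2.1) = x j := by
      rw [← hxB j]
    rw [h6] at h5
    refine h5 ?_
    have en1 : Ld.ns (Ld.cG R) ((List.range n).map r') (r' j)
        = Ld.ns (Ld.cG R) ((List.range n).map r) (r j) := by
      unfold Ld.ns
      rw [Ld.lsum_eq, Ld.lsum_eq, List.map_map, List.map_map, hr']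
      rfl
    have en2 : Ld.nm (Ld.cG R) ((List.range n).map r') (r' j)
        = (x j).2.1 * EnPr.bm R ((List.range n).map r) (r j) := by
      unfold Ld.nm EnPr.bm
      rw [EnPr.lmax_map, EnPr.lmax_map, hr']
      rfl
    rw [en1, en2] at h2
    -- the filter
    have ht3 : (r' j).t = (r j).t := by rw [hr']; rfl
    have hh3 : (r' j).h = (x j).1 := by rw [hr']; rfl
    have hB3 : (r' j).B = (x j).2.2 := by rw [hr']; rfl
    have h7 : 2 * R * (x j).1 ≤ (x j).2.2 + 2 * min (Ld.ns (Ld.cG R) ((List.range n).map r) (r j))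
        ((x j).2.1 * EnPr.bm R ((List.range n).map r) (r j)) + 2 * R * ((r j).t + 1) := by
      unfold Le.rt at h2
      rcases h8 : Nat.ble (r' j).t (Nat.add (r' j).h 3) with _ | _
      · have h9 : ¬ (r j).t ≤ (x j).1 + 3 := fun h10 => by
          rw [ht3, hh3, Nat.ble_eq_true_of_le (show (r j).t ≤ Nat.add (x j).1 3 from h10)] at h8
          exact absurd h8 (by simp)
        have h10 : 2 * R * (x j).1 ≤ 2 * R * ((r j).t + 1) := Nat.mul_le_mul_left _ (by omega)
        omega
      · rw [h8] at h2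
        have h9 : Ld.frc (Nat.add 0 0) (fun j' => Nat.ble (Nat.add (Nat.add (Nat.mul 2 (Nat.add
            (Nat.mul R (r' j).h) (Nat.add (Nat.mul 0 (r' j).c) (Nat.mul 0 (r' j).g))))
            (Nat.mul j' (Nat.add (Nat.mul 4 (r' j).t) 2))) (Le.tq n j'))
            (Nat.add (Ld.en (r' j) (Ld.ns (Ld.cG R) ((List.range n).map r) (r j))
              ((x j).2.1 * EnPr.bm R ((List.range n).map r) (r j)))
              (Nat.add (Nat.mul (Nat.mul 4 j') (Nat.add (r' j).h j'))
              (Nat.mul (Nat.mul 2 R) (Nat.succ (r' j).t))))) = true := h2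
        rw [Ld.frc_eq] at h9
        have h10 := Nat.le_of_ble_eq_true h9
        have h11 : Ld.en (r' j) (Ld.ns (Ld.cG R) ((List.range n).map r) (r j))
              ((x j).2.1 * EnPr.bm R ((List.range n).map r) (r j))
            = (x j).2.2 + 2 * min (Ld.ns (Ld.cG R) ((List.range n).map r) (r j))
              ((x j).2.1 * EnPr.bm R ((List.range n).map r) (r j)) := by
          unfold Ld.en
          rw [Ld.mi_eq, hB3]
          rfl
        rw [h11, ht3, hh3] at h10
        have h12 : 2 * (R * (x j).1 + (0 * (r' j).c + 0 * (r' j).g)) + 0 * (4 * (r j).t + 2)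
            + Le.tq n 0 ≤ (x j).2.2 + 2 * min (Ld.ns (Ld.cG R) ((List.range n).map r) (r j))
              ((x j).2.1 * EnPr.bm R ((List.range n).map r) (r j))
              + (4 * 0 * ((x j).1 + 0) + 2 * R * ((r j).t + 1)) := h10
        have h13 : 2 * (R * (x j).1) = 2 * R * (x j).1 := by ring
        omega
    have h14 := H.mup j hj
    have h15 := H.hh j hj
    rw [← hTt j hj, ← hxh j hj] at h15
    rw [← hxm j hj] at h14
    have h16 : (x j).1 ≤ T j ∨ 1 ≤ (x j).2.1 := by
      by_cases h20 : (x j).1 ≤ T j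
      · exact Or.inl h20
      · right
        have h21 : 0 ≤ s j := by
          have : T j + 1 ≤ (x j).1 := by omega
          have h22 : ((T j : ℤ)) + 1 ≤ (x j).1 := by exact_mod_cast this
          linarith
        have h22 := h14 h21
        exact_mod_cast h22
    unfold EnPr.ok
    have e1 : Bool.rec (motive := fun _ => Bool) (Nat.ble (x j).1 (r j).t) true
        (Nat.ble 1 (x j).2.1) = true := by
      rcases h20 : Nat.ble 1 (x j).2.1 with _ | _
      · rw [(hr j hj).2.1]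
        refine Nat.ble_eq_true_of_le (h16.resolve_right fun h21 => ?_)
        rw [Nat.ble_eq_true_of_le h21] at h20
        exact absurd h20 (by simp)
      · rfl
    rw [e1]
    show Nat.ble _ _ = true
    refine Nat.ble_eq_true_of_le ?_
    rw [Ld.mi_eq, ← hxB j]
    exact h7
  -- the enumeration
  obtain ⟨k, rfl⟩ : ∃ k, n = k + 1 := ⟨n - 1, by omega⟩
  obtain ⟨pv, hpv0, hpv⟩ : ∃ pv : ℕ → ℕ × ℕ × ℕ, pv 0 = ((r 0).t + 1, 0, 0) ∧
      ∀ j, pv (j + 1) = ((r j).t, (x j).1, (x j).2.1) :=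
    ⟨fun j => Nat.rec ((r 0).t + 1, 0, 0) (fun i _ => ((r i).t, (x i).1, (x i).2.1)) j, rfl,
      fun j => rfl⟩
  have hen : EnPr.en (EnPr.lf R (k + 1) (EnPs.t2 ((k + 1) * (k + 1)))) ((List.range' 0 (k + 1)).map fun j =>
      (r j, mxf (j + 1), Cf j)) (∑ i ∈ range (k + 1), T i + (k + 1 + 1)) (pv 0).1 (pv 0).2.1
      (pv 0).2.2 [] = true := by
    have hrg : List.range' 0 (k + 1) = 0 :: List.range' 1 k := rfl
    rw [hrg, List.map_cons, EnPr.en_cons, hpv0]
    exact h1
  have hfin := EnPr.en_spec (x := x) (pv := pv) (k + 1) 0 _ [] hen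
    (fun j hj0 hj1 => by
      have hj : j < k + 1 := by omega
      refine ⟨hcand j hj, ?_, ?_, hpv j⟩
      · have h2 := EnPr.mx_sum (x := fun i => (x i).1) (mxf := mxf) (k - j) (j + 1)
          fun i h3 h4 => (hC i (by omega)).2 _ (hcand i (by omega))
        have e1 : 0 + (k + 1) = j + 1 + (k - j) := by omega
        rw [e1]
        exact h2
      · rcases j with _ | j
        · rw [hpv0]
          unfold EnPr.lx
          have e1 : Nat.beq (r 0).t ((r 0).t + 1) = false := by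
            rcases h2 : Nat.beq (r 0).t ((r 0).t + 1) with _ | _
            · rfl
            · have := Nat.eq_of_beq_eq_true h2
              omega
          rw [e1]
        · rw [hpv]
          unfold EnPr.lx
          rcases h2 : Nat.beq (r (j + 1)).t (r j).t with _ | _
          · rfl
          have h3 := Nat.eq_of_beq_eq_true h2
          rw [(hr _ hj).2.1, (hr j (by omega)).2.1] at h3
          have h4 := lex j (j + 1) (by omega) hj
          rw [← hTt j (by omega), ← hTt (j + 1) hj, ← hxh j (by omega), ← hxh (j + 1) hj,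
            ← hxm j (by omega), ← hxm (j + 1) hj, h3] at h4
          have h5 : (x (j + 1)).1 < (x j).1 ∨ (x (j + 1)).1 = (x j).1 ∧
              (x (j + 1)).2.1 ≤ (x j).2.1 := by
            rcases h4 with h4 | ⟨-, h4 | ⟨h4, h5⟩⟩
            · exact absurd h4 (lt_irrefl _)
            · left
              exact_mod_cast h4
            · right
              exact ⟨by exact_mod_cast h4, by exact_mod_cast h5⟩
          show Bool.rec (motive := fun _ => Bool) (Bool.rec (motive := fun _ => Bool) false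
            (Nat.ble (x (j + 1)).2.1 (x j).2.1) (Nat.beq (x (j + 1)).1 (x j).1)) true
            (Nat.ble (Nat.succ (x (j + 1)).1) (x j).1) = true
          rcases h6 : Nat.ble (Nat.succ (x (j + 1)).1) (x j).1 with _ | _
          · rcases h5 with h5 | ⟨h5, h7⟩
            · rw [Nat.ble_eq_true_of_le (show Nat.succ (x (j + 1)).1 ≤ (x j).1 from h5)] at h6
              exact absurd h6 (by simp)
            · have e1 : Nat.beq (x (j + 1)).1 (x j).1 = true := by
                rw [h5]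
                exact Nat.beq_refl _
              rw [e1]
              exact Nat.ble_eq_true_of_le h7
          · rfl)
    (by
      rw [Nat.zero_add, ← range_eq_Ico]
      exact hsum)
  rw [List.append_nil] at hfin
  have hperm : (((List.range' 0 (k + 1)).map fun j => EnPr.wr (r j) (x j)).reverse.reverse).Perm
      ((List.range (k + 1)).map r') := by
    rw [hr', List.range_eq_range', List.reverse_reverse]
  obtain ⟨m, P, K, N, W, C⟩ := hctx _ hperm
  exact EnPs.top_sound C rfl hfin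

end World

/-- **the pair from the profiles** -/
theorem NoPr.of_prof {R K n a b : ℕ} (hR : 2 ≤ R) (n5 : 5 ≤ n)
    (h : ∀ l ∈ EnPr.prof (n - 2) b (K - (n + 1) - a - b), EnPr.fin R n 0 (a :: b :: l) = true) :
    NoPr (R : ℤ) K n a b := by
  intro ι t s h0 e E U ho vl kp ms mr mn mu Nb Nx be ls pc ar aT NN FF pw nu I L hh lex ha hb _
  obtain ⟨m, rfl⟩ : ∃ m, n = m + 2 := ⟨n - 2, by omega⟩
  have ht0 : ∀ j < m + 2, (((t j).toNat : ℕ) : ℤ) = t j := fun j hj =>
    Int.toNat_of_nonneg (I.t0 j hj)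
  have e1 : (List.range (m + 2)).map (fun j => (t j).toNat)
      = a :: b :: (List.range' 2 m).map fun j => (t j).toNat := by
    have e2 : (List.range (m + 2)).map (fun j => (t j).toNat)
        = (t 0).toNat :: (t 1).toNat :: (List.range' 2 m).map fun j => (t j).toNat := by
      rw [List.range_eq_range']
      rfl
    rw [e2, ha, hb, Int.toNat_natCast, Int.toNat_natCast]
  refine I.enPr L hR n5 lex ?_
  rw [e1]
  refine h _ (EnPr.mem_prof (fun j => (t j).toNat) m 2 b _ (fun j h1 h2 => ?_) (fun h1 => ?_) ?_)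
  · have := lex j (j + 1) (by omega) (by omega)
    show (t (j + 1)).toNat ≤ (t j).toNat
    omega
  · have := lex 1 2 (by omega) (by omega)
    show (t 2).toNat ≤ b
    omega
  · have h1 := I.toItN.toBI.sum_t (M := K - (m + 2 + 1)) (K := K) hh (by omega)
    have h2 : ((∑ i ∈ range (m + 2), (t i).toNat : ℕ) : ℤ) = ∑ i ∈ range (m + 2), t i := by
      push_cast
      exact sum_congr rfl fun i hi => ht0 i (mem_range.1 hi)
    rw [← h2] at h1
    have h3 : ∑ i ∈ range (m + 2), (t i).toNat ≤ K - (m + 2 + 1) := by exact_mod_cast h1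
    rw [range_eq_Ico, sum_eq_sum_Ico_succ_bot (by omega), sum_eq_sum_Ico_succ_bot (by omega)] at h3
    have h4 : (t 0).toNat = a := by rw [ha, Int.toNat_natCast]
    have h5 : (t 1).toNat = b := by rw [hb, Int.toNat_natCast]
    have h6 : (t (0 + 1)).toNat = b := h5
    rw [h4, h6] at h3
    have e3 : 2 + m = m + 2 := by omega
    have e4 : Ico (0 + 1 + 1) (m + 2) = Ico 2 (2 + m) := by rw [e3]
    rw [e4] at h3
    show ∑ i ∈ Ico 2 (2 + m), (t i).toNat ≤ K - (m + 2 + 1) - a - b
    omega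

/-- many rows -/
theorem NoPr.big {R K n a b : ℕ} (n2 : 2 ≤ n) (h : K < a + b + n + 1) : NoPr (R : ℤ) K n a b := by
  intro ι t s h0 e E U ho vl kp ms mr mn mu Nb Nx be ls pc ar aT NN FF pw nu I L hh lex ha hb _
  obtain ⟨m, rfl⟩ : ∃ m, n = m + 2 := ⟨n - 2, by omega⟩
  have e3 : ∑ i ∈ range (m + 2), h0 i = ∑ i ∈ range (m + 2), t i + ((m + 2 : ℕ) + 1) := by
    rw [sum_congr rfl fun i hi => I.hh i (mem_range.1 hi), sum_add_distrib, sum_add_distrib,
      sum_const, card_range, nsmul_eq_mul, mul_one, I.ss]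
    ring
  have h1 : ∑ i ∈ range (m + 2), t i = t 0 + (t 1 + ∑ i ∈ Ico 2 (m + 2), t i) := by
    rw [range_eq_Ico, sum_eq_sum_Ico_succ_bot (by omega), sum_eq_sum_Ico_succ_bot (by omega)]
  have h2 : 0 ≤ ∑ i ∈ Ico 2 (m + 2), t i := sum_nonneg fun i hi => I.t0 i (mem_Ico.1 hi).2
  rw [ha, hb] at h1
  have h3 : (K : ℤ) + 1 ≤ (a + b + (m + 2) + 1 : ℕ) := by exact_mod_cast h
  push_cast at e3 h3
  linarith

/-- a smaller bound -/
theorem NoPr.mono {R : ℤ} {K K' n a b : ℕ} (h : NoPr R K n a b) (hK : K' ≤ K) :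
    NoPr R K' n a b := by
  intro ι t s h0 e E U ho vl kp ms mr mn mu Nb Nx be ls pc ar aT NN FF pw nu I L hh lex ha hb hp
  exact h _ _ _ _ _ _ _ _ _ _ _ _ _ _ _ _ _ _ _ _ _ _ _ _ _ I L
    (hh.trans (by exact_mod_cast hK)) lex ha hb hp

end Pool.Agent.Lib.MP_f04ccf_co
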