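import Pool.Agent.Lib.MP_f04ccf_co.M.LeL

/-!
MP_f04ccf_co, PLAN W, finite part: **the search over the cells with the bounds in two numbers**.
`EnPs.dg T k`: the digit (two bits) of `T` at `k`; `EnPs.pt T k v`: the digit at `k` becomes `v`;
`EnPs.sr`: as `Le.srch`, the bounds `lo x z`, `hi x z` are digits of two numbers; `EnPs.top_sound`.
-/

set_option autoImplicit false

namespace Pool.Agent.Lib.MP_f04ccf_co

open Finset

attribute [local instance] Classical.propDecidable

namespace EnPs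

open Ld (Rw)

/-- the digit at `k` -/
noncomputable def dg (T k : ℕ) : ℕ := Nat.land (Nat.shiftRight T k) 3

/-- the digit at `k` becomes `v` -/
noncomputable def pt (T k v : ℕ) : ℕ :=
  Nat.xor T (Nat.shiftLeft (Nat.xor (Nat.land (Nat.shiftRight T k) 3) v) k)

lemma dg_pt {T k v j : ℕ} (hv : v < 4) : dg (pt T (2 * k) v) (2 * j) =
    if j = k then v else dg T (2 * j) := by
  have hd : ∀ i, 2 ≤ i → (((T >>> (2 * k)) &&& 3) ^^^ v).testBit i = false := by
    intro i hi
    rw [Nat.testBit_xor, Nat.testBit_and]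
    have h1 : (3 : ℕ).testBit i = false :=
      Nat.testBit_lt_two_pow (lt_of_lt_of_le (by norm_num : 3 < 2 ^ 2) (Nat.pow_le_pow_right (by norm_num) hi))
    have h2 : v.testBit i = false :=
      Nat.testBit_lt_two_pow (lt_of_lt_of_le (by norm_num; omega : v < 2 ^ 2)
        (Nat.pow_le_pow_right (by norm_num) hi))
    rw [h1, h2]
    simp
  show ((T ^^^ ((((T >>> (2 * k)) &&& 3) ^^^ v) <<< (2 * k))) >>> (2 * j)) &&& 3
    = if j = k then v else (T >>> (2 * j)) &&& 3
  have h3 : ∀ i, (3 : ℕ).testBit i = decide (i < 2) := by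
    intro i
    rcases i with _ | _ | i
    · rfl
    · rfl
    · have h1 : (3 : ℕ).testBit (i + 2) = false :=
        Nat.testBit_lt_two_pow (lt_of_lt_of_le (by norm_num : 3 < 2 ^ 2)
          (Nat.pow_le_pow_right (by norm_num) (by omega)))
      rw [h1]
      simp
  refine Nat.eq_of_testBit_eq fun i => ?_
  rw [Nat.testBit_and, Nat.testBit_shiftRight, Nat.testBit_xor, Nat.testBit_shiftLeft, h3]
  by_cases hi : i < 2
  · by_cases hjk : j = k
    · subst hjk
      rw [if_pos rfl]
      have e1 : 2 * j + i - 2 * j = i := by omega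
      have e2 : decide (2 * j + i ≥ 2 * j) = true := by simp
      rw [e1, e2, Nat.testBit_xor, Nat.testBit_and, h3, Nat.testBit_shiftRight]
      have e3 : decide (i < 2) = true := by simpa using hi
      rw [e3]
      rcases T.testBit (2 * j + i) with _ | _ <;> rcases v.testBit i with _ | _ <;> rfl
    · rw [if_neg hjk, Nat.testBit_and, Nat.testBit_shiftRight, h3]
      rcases lt_or_gt_of_ne hjk with h4 | h4
      · have e2 : decide (2 * j + i ≥ 2 * k) = false := by
          simp only [decide_eq_false_iff_not]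
          omega
        rw [e2]
        simp
      · rw [hd (2 * j + i - 2 * k) (by omega)]
        simp
  · have e3 : decide (i < 2) = false := by simpa using hi
    rw [e3]
    by_cases hjk : j = k
    · rw [if_pos hjk]
      have h2 : v.testBit i = false :=
        Nat.testBit_lt_two_pow (lt_of_lt_of_le (by norm_num; omega : v < 2 ^ 2)
          (Nat.pow_le_pow_right (by norm_num) (by omega)))
      rw [h2]
      simp
    · rw [if_neg hjk, Nat.testBit_and, h3, e3]
      simp

/-- the place of a cell -/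
noncomputable def ix (n : ℕ) (a b : Rw) : ℕ := Nat.mul 2 (Nat.add (Nat.mul n a.i) b.i)

/-- a table as a function -/
noncomputable def tb (n T : ℕ) (a b : Rw) : ℕ := dg T (ix n a b)

/-- one configuration of a cell -/
noncomputable def cf (R : ℕ) (x z : Rw) (k1 k2 hx hz TL TH : ℕ) (ih : ℕ → ℕ → Bool) (p q : ℕ) :
    Bool :=
  Bool.rec (motive := fun _ => Bool) true
    (Bool.rec (motive := fun _ => Bool) true
      (Bool.rec (motive := fun _ => Bool) true
        (Ld.frc (pt (pt TL k1 p) k2 q) fun TL' => Ld.frc (pt (pt TH k1 p) k2 q) fun TH' =>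
          ih TL' TH')
        (Nat.ble (Nat.add p q) (Ld.cG R x z)))
      (Nat.ble q hz))
    (Nat.ble p hx)

/-- the search over the cells -/
noncomputable def sr (R n : ℕ) (L : List Rw) (cs : List (Rw × Rw)) : ℕ → ℕ → Bool :=
  List.rec (motive := fun _ => ℕ → ℕ → Bool)
    (fun TL TH => Le.node R n L (tb n TL) (tb n TH))
    (fun c _ ih TL TH => Ld.frc (ix n c.1 c.2) fun k1 => Ld.frc (ix n c.2 c.1) fun k2 =>
      Ld.frc (dg TH k1) fun hx => Ld.frc (dg TH k2) fun hz =>
      Bool.rec (motive := fun _ => Bool)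
        (Bool.rec (motive := fun _ => Bool)
          (cf R c.1 c.2 k1 k2 hx hz TL TH ih 0 0 && (cf R c.1 c.2 k1 k2 hx hz TL TH ih 1 0 &&
            (cf R c.1 c.2 k1 k2 hx hz TL TH ih 0 1 && (cf R c.1 c.2 k1 k2 hx hz TL TH ih 2 0 &&
            (cf R c.1 c.2 k1 k2 hx hz TL TH ih 1 1 && cf R c.1 c.2 k1 k2 hx hz TL TH ih 0 2)))))
          true (Le.node R n L (tb n TL) (tb n TH)))
        (ih TL TH) (Nat.beq (Nat.add hx hz) 0)) cs

/-- the cells, the rows one after the other -/
noncomputable def ps (L : List Rw) : List (Rw × Rw) := (Ld.prs L.reverse).reverse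

/-- all digits 2 -/
def t2 : ℕ → ℕ
  | 0 => 0
  | N + 1 => 4 * t2 N + 2

/-- the number with all digits 2, for the kernel -/
noncomputable def t2K (N : ℕ) : ℕ :=
  Nat.rec (motive := fun _ => ℕ) 0 (fun _ r => Nat.add (Nat.mul 4 r) 2) N

lemma t2K_eq (N : ℕ) : t2K N = t2 N := by
  induction N with
  | zero => rfl
  | succ N ih =>
    show 4 * t2K N + 2 = _
    rw [ih]
    rfl

lemma dg_t2 : ∀ {N k : ℕ}, k < N → dg (t2 N) (2 * k) = 2 := by
  intro N
  induction N with
  | zero => intro k hk; exact absurd hk (by omega)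
  | succ N ih =>
    intro k hk
    show ((4 * t2 N + 2) >>> (2 * k)) &&& 3 = 2
    rcases k with _ | k
    · show ((4 * t2 N + 2) >>> 0) &&& 3 = 2
      rw [Nat.shiftRight_zero]
      have h1 : (4 * t2 N + 2) &&& 3 = (4 * t2 N + 2) % 2 ^ 2 := Nat.and_two_pow_sub_one_eq_mod _ 2
      rw [h1]
      omega
    · have h1 : (4 * t2 N + 2) >>> (2 * (k + 1)) = t2 N >>> (2 * k) := by
        rw [Nat.shiftRight_eq_div_pow, Nat.shiftRight_eq_div_pow]
        have e1 : 2 ^ (2 * (k + 1)) = 4 * 2 ^ (2 * k) := by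
          rw [Nat.mul_succ, pow_add]
          ring
        rw [e1, ← Nat.div_div_eq_div_mul]
        congr 1
        omega
      rw [h1]
      exact ih (k := k) (by omega)

/-- the first upper bounds -/
noncomputable def ini (R n : ℕ) (cs : List (Rw × Rw)) (k : ℕ → Bool) : ℕ → Bool :=
  List.rec (motive := fun _ => ℕ → Bool) (fun T => k T)
    (fun c _ ih T => Ld.frc (pt (pt T (ix n c.1 c.2) (Ld.mi c.2.q (Ld.cG R c.1 c.2)))
      (ix n c.2 c.1) (Ld.mi c.1.q (Ld.cG R c.2 c.1))) fun T' => ih T') cs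

section Sound

variable {R n : ℕ} {t s h e mu m : ℕ → ℤ} {P K : ℕ → ℕ → ℕ} {N W : ℕ → ℕ → ℤ}
  {r : ℕ → Rw} {L : List Rw} (C : Le.Ctx2 R n t s h e mu m P K N W r L)

include C in
lemma ix_eq {x z : ℕ} (hx : x < n) (hz : z < n) : ix n (r x) (r z) = 2 * (n * x + z) := by
  unfold ix
  rw [C.ri x hx, C.ri z hz]
  rfl

lemma ix_inj {x z a b : ℕ} (hz : z < n) (hb : b < n) :
    n * a + b = n * x + z ↔ a = x ∧ b = z := by
  constructor
  · intro h1
    rcases lt_trichotomy a x with h2 | h2 | h2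
    · have h3 := Nat.mul_le_mul_left n (show a + 1 ≤ x from h2)
      rw [Nat.mul_add, Nat.mul_one] at h3
      omega
    · subst h2
      exact ⟨rfl, by omega⟩
    · have h3 := Nat.mul_le_mul_left n (show x + 1 ≤ a from h2)
      rw [Nat.mul_add, Nat.mul_one] at h3
      omega
  · rintro ⟨rfl, rfl⟩
    rfl

include C in
lemma tb_pt {T : ℕ} {x z a b : ℕ} (hx : x < n) (hz : z < n) (ha : a < n) (hb : b < n) {v : ℕ}
    (hv : v < 4) : tb n (pt T (ix n (r x) (r z)) v) (r a) (r b)
      = if a = x ∧ b = z then v else tb n T (r a) (r b) := by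
  unfold tb
  rw [ix_eq C hx hz, ix_eq C ha hb, dg_pt hv]
  by_cases h1 : a = x ∧ b = z
  · rw [if_pos h1, if_pos ((ix_inj hz hb).2 h1)]
  · rw [if_neg h1, if_neg fun h2 => h1 ((ix_inj hz hb).1 h2)]

include C in
/-- the bounds after one cell -/
lemma iv_pt {TL TH : ℕ} (I : C.toCtx.Iv (tb n TL) (tb n TH)) {x z : ℕ} (hx : x < n) (hz : z < n)
    (hxz : x ≠ z) {p q : ℕ} (hp : P x z = p) (hq : P z x = q) (hp4 : p < 4) (hq4 : q < 4) :
    C.toCtx.Iv (tb n (pt (pt TL (ix n (r x) (r z)) p) (ix n (r z) (r x)) q))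
      (tb n (pt (pt TH (ix n (r x) (r z)) p) (ix n (r z) (r x)) q)) := by
  constructor
  · intro a ha b hb hab
    rw [tb_pt C hz hx ha hb hq4, tb_pt C hx hz ha hb hp4]
    by_cases h1 : a = z ∧ b = x
    · rw [if_pos h1, h1.1, h1.2, hq]
    · rw [if_neg h1]
      by_cases h2 : a = x ∧ b = z
      · rw [if_pos h2, h2.1, h2.2, hp]
      · rw [if_neg h2]
        exact I.lo a ha b hb hab
  · intro a ha b hb hab
    rw [tb_pt C hz hx ha hb hq4, tb_pt C hx hz ha hb hp4]
    by_cases h1 : a = z ∧ b = x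
    · rw [if_pos h1, h1.1, h1.2, hq]
    · rw [if_neg h1]
      by_cases h2 : a = x ∧ b = z
      · rw [if_pos h2, h2.1, h2.2, hp]
      · rw [if_neg h2]
        exact I.hi a ha b hb hab

include C in
lemma cf_spec {TL TH : ℕ} (I : C.toCtx.Iv (tb n TL) (tb n TH)) {x z : ℕ} (hx : x < n) (hz : z < n)
    (hxz : x ≠ z) {ih : ℕ → ℕ → Bool} {p q : ℕ} (hp : P x z = p) (hq : P z x = q)
    (hc : cf R (r x) (r z) (ix n (r x) (r z)) (ix n (r z) (r x)) (dg TH (ix n (r x) (r z)))
      (dg TH (ix n (r z) (r x))) TL TH ih p q = true) :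
    ih (pt (pt TL (ix n (r x) (r z)) p) (ix n (r z) (r x)) q)
      (pt (pt TH (ix n (r x) (r z)) p) (ix n (r z) (r x)) q) = true := by
  have h1 : Nat.ble p (dg TH (ix n (r x) (r z))) = true := by
    refine Nat.ble_eq_true_of_le ?_
    rw [← hp]
    exact I.hi x hx z hz hxz
  have h2 : Nat.ble q (dg TH (ix n (r z) (r x))) = true := by
    refine Nat.ble_eq_true_of_le ?_
    rw [← hq]
    exact I.hi z hz x hx hxz.symm
  have h3 : Nat.ble (Nat.add p q) (Ld.cG R (r x) (r z)) = true := by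
    refine Nat.ble_eq_true_of_le ?_
    have h4 := Ld.Ctx.cfg_spec (ih := fun _ _ => false) (p := p) (q := q) C.toCtx
      (lo := fun _ _ => 0) (hi := fun a b => tb n TH a b) ⟨fun _ _ _ _ _ => Nat.zero_le _, I.hi⟩
      hx hz hxz hp hq
    by_contra h5
    have h6 : Nat.ble (Nat.add p q) (Ld.cG R (r x) (r z)) = false := by
      rcases h7 : Nat.ble (Nat.add p q) (Ld.cG R (r x) (r z)) with _ | _
      · rfl
      · exact absurd (Nat.le_of_ble_eq_true h7) h5
    refine absurd (h4 ?_) (by simp)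
    unfold Ld.cfg
    rw [h6]
    show Bool.rec (motive := fun _ => Bool) true (Bool.rec (motive := fun _ => Bool) true true
      (Nat.ble q (tb n TH (r z) (r x)))) (Nat.ble p (tb n TH (r x) (r z))) = true
    rcases Nat.ble p (tb n TH (r x) (r z)) with _ | _
    · rfl
    · rcases Nat.ble q (tb n TH (r z) (r x)) with _ | _ <;> rfl
  unfold cf at hc
  rw [h1, h2, h3, Ld.frc_eq, Ld.frc_eq] at hc
  exact hc

include C in
/-- **the search is sound** -/
theorem sr_sound : ∀ (cs : List (Rw × Rw)) (TL TH : ℕ), C.toCtx.Iv (tb n TL) (tb n TH) →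
    (∀ c ∈ cs, ∃ x < n, ∃ z < n, x ≠ z ∧ c = (r x, r z)) → sr R n L cs TL TH ≠ true := by
  intro cs
  induction cs with
  | nil =>
    intro TL TH I _ h
    exact Le.node_sound C I h
  | cons c cs ih =>
    intro TL TH I hc h
    obtain ⟨x, hx, z, hz, hxz, rfl⟩ := hc _ List.mem_cons_self
    have hc' := fun c hc1 => hc c (List.mem_cons_of_mem _ hc1)
    have h0 : sr R n L ((r x, r z) :: cs) TL TH = Ld.frc (ix n (r x) (r z)) fun k1 =>
      Ld.frc (ix n (r z) (r x)) fun k2 => Ld.frc (dg TH k1) fun hx => Ld.frc (dg TH k2) fun hz =>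
      Bool.rec (motive := fun _ => Bool)
        (Bool.rec (motive := fun _ => Bool)
          (cf R (r x) (r z) k1 k2 hx hz TL TH (sr R n L cs) 0 0
            && (cf R (r x) (r z) k1 k2 hx hz TL TH (sr R n L cs) 1 0 &&
            (cf R (r x) (r z) k1 k2 hx hz TL TH (sr R n L cs) 0 1
            && (cf R (r x) (r z) k1 k2 hx hz TL TH (sr R n L cs) 2 0 &&
            (cf R (r x) (r z) k1 k2 hx hz TL TH (sr R n L cs) 1 1
            && cf R (r x) (r z) k1 k2 hx hz TL TH (sr R n L cs) 0 2)))))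
          true (Le.node R n L (tb n TL) (tb n TH)))
        (sr R n L cs TL TH) (Nat.beq (Nat.add hx hz) 0) := rfl
    rw [h0, Ld.frc_eq, Ld.frc_eq, Ld.frc_eq, Ld.frc_eq] at h
    rcases h1 : Nat.beq (Nat.add (dg TH (ix n (r x) (r z))) (dg TH (ix n (r z) (r x)))) 0
      with _ | _
    · rw [h1] at h
      rcases h2 : Le.node R n L (tb n TL) (tb n TH) with _ | _
      · rw [h2] at h
        have h3 : (cf R (r x) (r z) (ix n (r x) (r z)) (ix n (r z) (r x))
            (dg TH (ix n (r x) (r z))) (dg TH (ix n (r z) (r x))) TL TH (sr R n L cs) 0 0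
            && (cf R (r x) (r z) (ix n (r x) (r z)) (ix n (r z) (r x))
            (dg TH (ix n (r x) (r z))) (dg TH (ix n (r z) (r x))) TL TH (sr R n L cs) 1 0 &&
            (cf R (r x) (r z) (ix n (r x) (r z)) (ix n (r z) (r x))
            (dg TH (ix n (r x) (r z))) (dg TH (ix n (r z) (r x))) TL TH (sr R n L cs) 0 1
            && (cf R (r x) (r z) (ix n (r x) (r z)) (ix n (r z) (r x))
            (dg TH (ix n (r x) (r z))) (dg TH (ix n (r z) (r x))) TL TH (sr R n L cs) 2 0 &&
            (cf R (r x) (r z) (ix n (r x) (r z)) (ix n (r z) (r x))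
            (dg TH (ix n (r x) (r z))) (dg TH (ix n (r z) (r x))) TL TH (sr R n L cs) 1 1
            && cf R (r x) (r z) (ix n (r x) (r z)) (ix n (r z) (r x))
            (dg TH (ix n (r x) (r z))) (dg TH (ix n (r z) (r x))) TL TH (sr R n L cs) 0 2)))))
              = true := h
        simp only [Bool.and_eq_true] at h3
        obtain ⟨c1, c2, c3, c4, c5, c6⟩ := h3
        have h4 := C.H.pc2 x hx z hz hxz
        have h5 : (P x z = 0 ∧ P z x = 0) ∨ (P x z = 1 ∧ P z x = 0) ∨ (P x z = 0 ∧ P z x = 1) ∨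
          (P x z = 2 ∧ P z x = 0) ∨ (P x z = 1 ∧ P z x = 1) ∨ (P x z = 0 ∧ P z x = 2) := by
          omega
        rcases h5 with ⟨a, b⟩ | ⟨a, b⟩ | ⟨a, b⟩ | ⟨a, b⟩ | ⟨a, b⟩ | ⟨a, b⟩
        · exact ih _ _ (iv_pt C I hx hz hxz a b (by norm_num) (by norm_num)) hc'
            (cf_spec C I hx hz hxz a b c1)
        · exact ih _ _ (iv_pt C I hx hz hxz a b (by norm_num) (by norm_num)) hc'
            (cf_spec C I hx hz hxz a b c2)
        · exact ih _ _ (iv_pt C I hx hz hxz a b (by norm_num) (by norm_num)) hc'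
            (cf_spec C I hx hz hxz a b c3)
        · exact ih _ _ (iv_pt C I hx hz hxz a b (by norm_num) (by norm_num)) hc'
            (cf_spec C I hx hz hxz a b c4)
        · exact ih _ _ (iv_pt C I hx hz hxz a b (by norm_num) (by norm_num)) hc'
            (cf_spec C I hx hz hxz a b c5)
        · exact ih _ _ (iv_pt C I hx hz hxz a b (by norm_num) (by norm_num)) hc'
            (cf_spec C I hx hz hxz a b c6)
      · exact Le.node_sound C I h2
    · rw [h1] at h
      exact ih TL TH I hc' h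

include C in
/-- the first upper bounds are right -/
lemma ini_spec (hq : ∀ x < n, ∀ z < n, x ≠ z → P x z ≤ (r z).q) {k : ℕ → Bool} :
    ∀ (cs : List (Rw × Rw)) (T : ℕ), C.toCtx.Iv (tb n 0) (tb n T) →
    (∀ c ∈ cs, ∃ x < n, ∃ z < n, x ≠ z ∧ c = (r x, r z)) → ini R n cs k T = true →
    ∃ T', C.toCtx.Iv (tb n 0) (tb n T') ∧ k T' = true := by
  intro cs
  induction cs with
  | nil =>
    intro T I _ h
    exact ⟨T, I, h⟩
  | cons c cs ih =>
    intro T I hc h
    obtain ⟨x, hx, z, hz, hxz, rfl⟩ := hc _ List.mem_cons_self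
    have hc' := fun c hc1 => hc c (List.mem_cons_of_mem _ hc1)
    have h0 : ini R n ((r x, r z) :: cs) k T = Ld.frc (pt (pt T (ix n (r x) (r z))
        (Ld.mi (r z).q (Ld.cG R (r x) (r z)))) (ix n (r z) (r x))
        (Ld.mi (r x).q (Ld.cG R (r z) (r x)))) fun T' => ini R n cs k T' := rfl
    rw [h0, Ld.frc_eq] at h
    have hcg : ∀ a b : Rw, Ld.cG R a b < 4 := by
      intro a b
      unfold Ld.cG
      rcases Nat.ble R (Nat.add (Nat.mul a.t b.t) 4) with _ | _
      · show 1 < 4
        norm_num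
      · show 2 < 4
        norm_num
    have hm : ∀ (q : ℕ) (a b : Rw), Ld.mi q (Ld.cG R a b) < 4 := by
      intro q a b
      rw [Ld.mi_eq]
      exact lt_of_le_of_lt (min_le_right _ _) (hcg a b)
    refine ih _ ⟨fun a ha b hb hab => ?_, fun a ha b hb hab => ?_⟩ hc' h
    · exact I.lo a ha b hb hab
    · rw [tb_pt C hz hx ha hb (hm _ _ _), tb_pt C hx hz ha hb (hm _ _ _)]
      by_cases h1 : a = z ∧ b = x
      · rw [if_pos h1, h1.1, h1.2, Ld.mi_eq]
        exact le_min (hq z hz x hx hxz.symm) (Ld.Ctx.cG_spec C.toCtx hz hx hxz.symm)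
      · rw [if_neg h1]
        by_cases h2 : a = x ∧ b = z
        · rw [if_pos h2, h2.1, h2.2, Ld.mi_eq]
          exact le_min (hq x hx z hz hxz) (Ld.Ctx.cG_spec C.toCtx hx hz hxz)
        · rw [if_neg h2]
          exact I.hi a ha b hb hab

include C in
/-- **the test of the rows is sound** -/
theorem top_sound {T0 : ℕ} (hT0 : T0 = t2 (n * n)) :
    Le.top R n L L (fun L' => ini R n (ps L') (fun TH => sr R n L' (ps L') 0 TH) T0)
      ≠ true := by
  intro hh
  rcases Le.top_spec R n L L _ hh with ⟨z, hz, h1⟩ | h1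
  · obtain ⟨j, hj, rfl⟩ := C.toCtx.mem hz
    have hE := C.toCtx.en_spec (hi := Ld.cG R)
      (fun x hx z hz hxz => Ld.Ctx.cG_spec C.toCtx hx hz hxz) hj
    rw [Le.rt_spec C hj hE (Nat.zero_le _) (Nat.zero_le _)] at h1
    exact absurd h1 (by simp)
  · have C1 : Ld.Ctx R n t s h e mu m P K N W (fun j => Le.rq R n L (r j))
        (L.map (Le.rq R n L)) := by
      refine ⟨C.H, C.R2, C.m0, ?_, C.ri, C.rt, C.rh, C.rmu, C.rB, C.rc, C.rg⟩
      have h2 := C.hp.map (Le.rq R n L)
      rwa [List.map_map] at h2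
    have C' : Le.Ctx2 R n t s h e mu m P K N W (fun j => Le.rq R n L (r j))
        (L.map (Le.rq R n L)) := ⟨C1, C.X, C.n5⟩
    have C2 : Ld.Ctx R n t s h e mu m P K N W (fun j => Le.rq R n L (r j))
        (L.map (Le.rq R n L)).reverse :=
      ⟨C1.H, C1.R2, C1.m0, (List.reverse_perm _).trans C1.hp, C1.ri, C1.rt, C1.rh, C1.rmu, C1.rB,
        C1.rc, C1.rg⟩
    have hps : ∀ c ∈ ps (L.map (Le.rq R n L)), ∃ x < n, ∃ z < n, x ≠ z ∧
        c = (Le.rq R n L (r x), Le.rq R n L (r z)) := fun c hc =>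
      Ld.Ctx.prs_spec C2 c (List.mem_reverse.1 hc)
    have hlo : ∀ a b : Rw, tb n 0 a b = 0 := by
      intro a b
      show ((0 : ℕ) >>> (ix n a b)) &&& 3 = 0
      rw [Nat.zero_shiftRight]
      rfl
    obtain ⟨T', I, h2⟩ := ini_spec C' (fun x hx z hz hxz => Le.qv_spec C hx hz hxz)
      (k := fun TH => sr R n (L.map (Le.rq R n L)) (ps (L.map (Le.rq R n L))) 0 TH) _ T0
      ⟨fun a _ b _ _ => by rw [hlo]; exact Nat.zero_le _, fun a ha b hb hab => by
        unfold tb
        rw [ix_eq C' ha hb, hT0, dg_t2 (by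
          have h3 := Nat.mul_le_mul_left n (show a + 1 ≤ n from ha)
          rw [Nat.mul_add, Nat.mul_one] at h3
          omega)]
        have := C.H.pc2 a ha b hb hab
        omega⟩ hps h1
    exact sr_sound C' _ _ _ I hps h2

end Sound

end EnPs

end Pool.Agent.Lib.MP_f04ccf_co
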