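import Pool.Agent.Lib.MP_f04ccf_co.M.EnPx

/-!
MP_f04ccf_co, PLAN W, finite part: **the enumeration with one pair of shares of a large product**.
`ItC.ldc2h`, `ItC.ctx2h`: `ItC.ldc2`, `ItC.ctx2` for worlds with at most two PC pairs in a cell;
`EnPr.okW`: the test of the rows, the first pair may have a large product;
`ItC.enPw`: no world of a profile with at most two PC pairs in the first cell;
`ItC.wdR`: the loads of a world with the numbers of PC pairs; `ItC.be2`: at most two PC pairs in the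
first cell, from the check of a block; `NoNd.of_W`: a box with one state of the first two rows.
-/

set_option autoImplicit false

namespace Pool.Agent.Lib.MP_f04ccf_co

open Finset Mid BlkB

attribute [local instance] Classical.propDecidable

section FromItC

open Lv

variable {ι : Type*} {R : ℤ} {n : ℕ} {t s h e : ℕ → ℤ} {E : ℕ → ℕ → ℤ} {U : Finset ι}
  {ho : ι → ℕ} {vl : ι → ℤ} {kp ms mr mn : ℕ → ι → ℤ} {mu Nb : ℕ → ℤ} {Nx : ℕ → ℕ → ℤ}
  {be : ℕ → ℕ → ℤ} {ls : ℕ → ℤ → ℤ} {pc ar : ι → ℤ} {aT : ℕ → ℤ} {NN FF pw : ℕ → ℕ → ℤ}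
  {nu : ℕ → ι → ℤ}

/-- **the loads of the items of version [C]**, worlds with at most two PC pairs in a cell -/
theorem ItC.ldc2h (H : ItC R n t s h e E U ho vl kp ms mr mu Nb Nx be ls pc ar aT NN FF pw nu)
    (L : LvI R n t s h e U ho vl kp ms mr mn mu be pc ar)
    (h2 : ∀ i < n, ∀ j < n, i ≠ j → be i j + be j i ≤ 2)
    (hq : ∀ i < n, ∀ j < n, i ≠ j → R ≤ t i * t j + 4 → ∀ a : ℤ, 0 ≤ a →
      t i * t j + 1 < (a + 1) ^ 2 → t i * t j + 4 - R < a * (a - 1))
    (hj : ∀ i < n, ∀ j < n, i ≠ j → ∀ k : ℕ, 1 ≤ k → (k : ℤ) ≤ be i j + be j i →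
      ((k : ℤ) - 1) * R ≤ t i * t j + (k : ℤ) ^ 2)
    {m : ℕ → ℤ} (hm0 : ∀ i < n, 0 ≤ m i)
    (hm : ∀ i < n, ∀ j < n, i ≠ j → R + t i * t j < (m i + 1) * (m j + 1)) :
    LdC R n t s h e mu m (fun x z => (ldP U ho kp pc x z).card)
      (fun x z => (ldK U ho kp mn pc m x z).card) NN FF := by
  have hP : ∀ x < n, ∀ z < n, x ≠ z → ((ldP U ho kp pc x z).card : ℤ) = be x z :=
    fun x hx z hz hxz => H.card_ldP L hx hz hxz
  have hmu0 : ∀ i < n, 0 ≤ mu i := fun i hi => H.mu0 hi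
  refine ⟨H.t0, H.tR, H.h0, H.hh, hmu0, H.muh, ?_, ?_, ?_, ?_, ?_, ?_, ?_, ?_, ?_⟩
  · intro i hi
    have h3 := H.en i hi
    rw [H.nbC i hi, sum_eq_zero (s := (range n).erase i) (f := fun j => Nx i j) fun j hj' =>
      H.nxC i hi j (mem_range.1 (mem_of_mem_erase hj'))] at h3
    linarith
  · intro i hi
    refine le_trans (le_of_eq ?_) (H.bem i hi)
    exact sum_congr rfl fun j hj' => hP i hi j (mem_range.1 (mem_of_mem_erase hj'))
      (ne_of_mem_erase hj').symm
  · intro x hx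
    rw [H.hmu x hx]
    have h3 : ∀ u ∈ U.filter (fun u => ho u = x), vl u
        ≤ ∑ i ∈ range n, (kp i u - if m i < mn i u then 1 else 0) := fun u hu =>
      L.pot1 H.m0 H.mrk hm0 (mem_filter.1 hu).1 fun i hi j hj' hij _ _ => hm i hi j hj' hij
    refine (sum_le_sum h3).trans ?_
    rw [sum_comm, ← add_sum_erase _ _ (mem_range.2 hx)]
    have h4 : ∑ u ∈ U.filter (fun u => ho u = x), (kp x u - if m x < mn x u then 1 else 0) ≤ 0 := by
      refine sum_nonpos fun u hu => ?_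
      obtain ⟨hU, hux⟩ := mem_filter.1 hu
      have h5 := H.kh u hU
      rw [hux] at h5
      rw [h5]
      split_ifs <;> norm_num
    have h5 : ∑ i ∈ (range n).erase x, ∑ u ∈ U.filter (fun u => ho u = x),
        (kp i u - if m i < mn i u then 1 else 0)
        ≤ ∑ j ∈ (range n).erase x, (((ldP U ho kp pc x j).card : ℤ)
          + (ldK U ho kp mn pc m x j).card) := by
      refine sum_le_sum fun i hi => ?_
      have hin := mem_range.1 (mem_of_mem_erase hi)
      exact H.sup_item L hin (hm0 i hin) (ne_of_mem_erase hi).symm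
    linarith
  · intro z hz a b ha hb h0
    obtain ⟨K1, hK1, c1⟩ := exists_subset_card_eq (s := ldPZ U ho kp pc z) (n := a)
      (by rw [H.card_ldPZ z]; exact ha)
    obtain ⟨K2, hK2, c2⟩ := exists_subset_card_eq (s := ldKZ U ho kp mn pc m z) (n := b)
      (by rw [H.card_ldKZ m z]; exact hb)
    have hd : Disjoint K1 K2 := by
      rw [disjoint_left]
      intro p hp hp'
      have h3 := (mem_filter.1 (hK1 hp)).2
      have h4 := (mem_filter.1 (hK2 hp')).2.1
      rw [h3] at h4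
      norm_num at h4
    have hcard : ((K1 ∪ K2).card : ℤ) = (a : ℤ) + b := by
      rw [card_union_of_disjoint hd, c1, c2]
      push_cast
      rfl
    have h3 := L.tE4 H.m0 hz (K := K1 ∪ K2) (union_subset (hK1.trans (filter_subset _ _))
      (hK2.trans (filter_subset _ _))) (by rw [hcard]; exact h0)
    rw [sum_union hd, hcard] at h3
    have h4 : (a : ℤ) * (R - t z) ≤ ∑ x ∈ K1, (R - t z - bm kp mn z x) := by
      rw [← c1, ← nsmul_eq_mul]
      refine card_nsmul_le_sum _ _ _ fun p hp => ?_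
      obtain ⟨h4, h5⟩ := mem_filter.1 (hK1 hp)
      rw [L.bm_pc hz h4 h5]
      linarith
    have h5 : (b : ℤ) * max 0 (R - t z - m z) ≤ ∑ x ∈ K2, (R - t z - bm kp mn z x) := by
      rw [← c2, ← nsmul_eq_mul]
      refine card_nsmul_le_sum _ _ _ fun p hp => ?_
      have h4 := (mem_filter.1 (hK2 hp)).2.2
      refine max_le ?_ (by linarith)
      have hU := (mem_ens.1 (mem_filter.1 (hK2 hp)).1).1
      have h5 := L.mnc p.1 hU z hz
      have h6 := H.tR z hz
      unfold bm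
      split_ifs
      · linarith
      · linarith
    linarith
  · intro x hx z hz hxz
    have h3 := H.low x hx z hz hxz
    have h4 := H.pairF x hx z hz hxz
    have h5 := H.hits_ld L (m := m) hz hxz
    have h6 := H.hits_ld L (m := m) hx hxz.symm
    have h7 := le_max_left (0 : ℤ) ((R - t x) * (∑ u ∈ U.filter (fun u => ho u = z), kp x u - 1 - s z)
        - ls x (∑ u ∈ U.filter (fun u => ho u = z), kp x u - 1 - s z)
        - ∑ u ∈ U.filter (fun u => ho u = z), ms x u)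
    have h8 := le_max_left (0 : ℤ) ((R - t z) * (∑ u ∈ U.filter (fun u => ho u = x), kp z u - 1 - s x)
        - ls z (∑ u ∈ U.filter (fun u => ho u = x), kp z u - 1 - s x)
        - ∑ u ∈ U.filter (fun u => ho u = x), ms z u)
    linarith
  · intro x hx z hz hxz
    have h3 := h2 x hx z hz hxz
    rw [← hP x hx z hz hxz, ← hP z hz x hx hxz.symm] at h3
    exact_mod_cast h3
  · intro x hx z hz hxz h3
    have h4 : be x z + be z x = 2 := by
      rw [← hP x hx z hz hxz, ← hP z hz x hx hxz.symm]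
      exact_mod_cast h3
    have h5 := hj x hx z hz hxz 2 (by norm_num) (by rw [h4]; norm_num)
    push_cast at h5
    linarith
  · intro x hx z hz hxz a ha h3
    have h4 := (H.cellV2 hx hz hxz (hq x hx z hz hxz) (h2 x hx z hz hxz)).1 a ha h3
    rw [← hP x hx z hz hxz] at h4
    exact h4
  · intro x hx z hz hxz
    have h4 := (H.cellV2 hx hz hxz (hq x hx z hz hxz) (h2 x hx z hz hxz)).2
    rw [← hP x hx z hz hxz, ← hP z hz x hx hxz.symm] at h4
    by_cases h5 : (ldP U ho kp pc x z).card + (ldP U ho kp pc z x).card = 2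
    · rw [if_pos h5]
      rw [if_pos (by exact_mod_cast h5)] at h4
      exact h4
    · rw [if_neg h5]
      rw [if_neg (by exact_mod_cast h5)] at h4
      exact h4

end FromItC

section World

variable {ι : Type} {R n : ℕ} {t s h e : ℕ → ℤ} {E : ℕ → ℕ → ℤ} {U : Finset ι}
  {ho : ι → ℕ} {vl : ι → ℤ} {kp ms mr mn : ℕ → ι → ℤ} {mu Nb : ℕ → ℤ} {Nx : ℕ → ℕ → ℤ}
  {be : ℕ → ℕ → ℤ} {ls : ℕ → ℤ → ℤ} {pc ar : ι → ℤ} {aT : ℕ → ℤ} {NN FF pw : ℕ → ℕ → ℤ}
  {nu : ℕ → ι → ℤ}

open Ld (Rw)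

/-- the loads of a world for given thresholds, at most two PC pairs in a cell -/
theorem ItC.ctx2h (H : ItC (R : ℤ) n t s h e E U ho vl kp ms mr mu Nb Nx be ls pc ar aT NN FF pw nu)
    (L : LvI (R : ℤ) n t s h e U ho vl kp ms mr mn mu be pc ar) (hR : 2 ≤ R) (n5 : 5 ≤ n)
    {r : ℕ → Rw} (ri : ∀ j < n, (r j).i = j) (rt : ∀ j < n, ((r j).t : ℤ) = t j)
    (rh : ∀ j < n, ((r j).h : ℤ) = h j) (rmu : ∀ j < n, ((r j).mu : ℤ) = mu j)
    (rB : ∀ j < n, (r j).B = EnPr.eB (r j).h (r j).mu) (rc : ∀ j < n, (r j).c = R - (r j).t)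
    (rg : ∀ j < n, (r j).g = R - (r j).t - (r j).q)
    (h2 : ∀ i < n, ∀ j < n, i ≠ j → be i j + be j i ≤ 2)
    (hok : ∀ i < n, ∀ j < n, i ≠ j →
      R + (r i).t * (r j).t + 1 ≤ ((r i).q + 1) * ((r j).q + 1) ∧
      (R ≤ (r i).t * (r j).t + 4 → (r i).t * (r j).t + 5
        ≤ R + Ld.isq ((r i).t * (r j).t + 1) * (Ld.isq ((r i).t * (r j).t + 1) - 1)))
    {L' : List Rw} (hL : L'.Perm ((List.range n).map r)) :
    ∃ (m : ℕ → ℤ) (P K : ℕ → ℕ → ℕ) (N W : ℕ → ℕ → ℤ), Le.Ctx2 R n t s h e mu m P K N W r L' := by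
  set m : ℕ → ℤ := fun j => ((r j).q : ℤ) with hm
  have hm0 : ∀ i < n, 0 ≤ m i := fun i _ => Int.natCast_nonneg _
  have hC := H.ldc2h L (m := m) h2
    (fun i hi j hj' hij h2 a ha h3 => by
      rw [← rt i hi, ← rt j hj'] at h2 h3 ⊢
      have h4 : R ≤ (r i).t * (r j).t + 4 := by exact_mod_cast h2
      have h5 := (hok i hi j hj' hij).2 h4
      obtain ⟨b, rfl⟩ := Int.eq_ofNat_of_zero_le ha
      have h6 : (r i).t * (r j).t + 1 < (b + 1) ^ 2 := by exact_mod_cast h3
      set v := Ld.isq ((r i).t * (r j).t + 1) with hv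
      have h7 : v ≤ b := by
        by_contra h8
        push Not at h8
        have h9 : v ^ 2 ≤ (r i).t * (r j).t + 1 := by
          rw [hv]
          exact Le.isq_le _
        nlinarith
      have h8 : v * (v - 1) ≤ b * (b - 1) := Nat.mul_le_mul h7 (by omega)
      have h9 : (r i).t * (r j).t + 5 ≤ R + b * (b - 1) := by omega
      rcases Nat.eq_zero_or_pos b with h10 | h10
      · rw [h10] at h9 ⊢
        have h11 : (((r i).t * (r j).t + 5 : ℕ) : ℤ) ≤ R := by
          simpa using (Int.ofNat_le.2 h9)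
        push_cast at h11 ⊢
        linarith
      · have h11 : ((b - 1 : ℕ) : ℤ) = b - 1 := by
          rw [Nat.cast_sub h10]
          norm_num
        have h12 : (((r i).t * (r j).t + 5 : ℕ) : ℤ) ≤ ((R + b * (b - 1) : ℕ) : ℤ) := by
          exact_mod_cast h9
        push_cast [h11] at h12
        push_cast
        linarith)
    (fun i hi j hj' hij k _ hk => H.jsub i hi j hj' hij k hk) hm0
    (fun i hi j hj' hij => by
      have h2 := (hok i hi j hj' hij).1
      rw [← rt i hi, ← rt j hj', hm]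
      have h3 : (R : ℤ) + (r i).t * (r j).t + 1 ≤ ((r i).q + 1) * ((r j).q + 1) := by
        exact_mod_cast h2
      linarith)
  refine ⟨m, _, _, _, _, ⟨hC, hR, hm0, hL, ri, rt, rh, rmu, ?_, ?_, ?_⟩, H.ldx L n5, n5⟩
  · intro j hj'
    have h5 := H.muh j hj'
    rw [← rh j hj', ← rmu j hj'] at h5 ⊢
    have h6 : (r j).mu ≤ (r j).h := by exact_mod_cast h5
    rw [rB j hj']
    unfold EnPr.eB
    have h7 : (r j).mu * ((r j).mu + 1) ≤ 2 * ((r j).mu * (r j).h) := by
      rcases Nat.eq_zero_or_pos (r j).mu with h8 | h8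
      · rw [h8]
        simp
      · nlinarith
    rw [Nat.cast_sub h7]
    push_cast
    ring
  · intro j hj'
    have h5 := H.tR j hj'
    rw [← rt j hj'] at h5 ⊢
    have h6 : (r j).t ≤ R := by omega
    rw [rc j hj', Nat.cast_sub h6]
  · intro j hj'
    have h5 := H.tR j hj'
    have h6 := rg j hj'
    rw [← rt j hj'] at h5 ⊢
    rw [h6, hm]
    show ((R - (r j).t - (r j).q : ℕ) : ℤ) = max 0 ((R : ℤ) - (r j).t - ((r j).q : ℤ))
    omega

end World

namespace EnPr

open Ld (Rw)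

/-- one pair of rows without the test of the product, `true` if it is not fine -/
noncomputable def okQ (R : ℕ) (x z : Rw) : Bool :=
  Ld.frc (Nat.mul x.t z.t) fun τ =>
    Bool.rec (motive := fun _ => Bool) true
      (Bool.rec (motive := fun _ => Bool) false
        (Ld.frc (Ld.isq (Nat.succ τ)) fun a => Bool.rec (motive := fun _ => Bool) true false
          (Nat.ble (Nat.add τ 5) (Nat.add R (Nat.mul a (Nat.pred a)))))
        (Nat.ble R (Nat.add τ 4)))
      (Nat.ble (Nat.succ (Nat.add R τ)) (Nat.mul (Nat.succ x.q) (Nat.succ z.q)))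

lemma okQ_spec {R : ℕ} {x z : Rw} (h : okQ R x z = false) :
    R + x.t * z.t + 1 ≤ (x.q + 1) * (z.q + 1) ∧
      (R ≤ x.t * z.t + 4 →
        x.t * z.t + 5 ≤ R + Ld.isq (x.t * z.t + 1) * (Ld.isq (x.t * z.t + 1) - 1)) := by
  unfold okQ at h
  rw [Ld.frc_eq] at h
  rcases h2 : Nat.ble (Nat.succ (Nat.add R (Nat.mul x.t z.t))) (Nat.mul (Nat.succ x.q)
    (Nat.succ z.q)) with _ | _
  · rw [h2] at h
    exact absurd h (by simp)
  rw [h2] at h
  refine ⟨Nat.le_of_ble_eq_true h2, fun h3 => ?_⟩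
  have h4 : Nat.ble R (Nat.add (Nat.mul x.t z.t) 4) = true := Nat.ble_eq_true_of_le h3
  rw [h4] at h
  rw [Ld.frc_eq] at h
  rcases h5 : Nat.ble (Nat.add (Nat.mul x.t z.t) 5) (Nat.add R (Nat.mul
    (Ld.isq (Nat.succ (Nat.mul x.t z.t))) (Nat.pred (Ld.isq (Nat.succ (Nat.mul x.t z.t)))))) with _ | _
  · rw [h5] at h
    exact absurd h (by simp)
  · exact Nat.le_of_ble_eq_true h5

/-- some pair of rows is not fine; the product of the shares of the first two rows may be large -/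
noncomputable def okW (R : ℕ) (L : List Rw) : Bool :=
  List.rec (motive := fun _ => Bool) true (fun x L' _ => List.rec (motive := fun _ => Bool) true
    (fun y M _ => orb (okQ R x y) (orb (Le.okM R (x :: M)) (Le.okM R (y :: M)))) L') L

lemma okW_spec {R n : ℕ} (n2 : 2 ≤ n) {r : ℕ → Rw} (h : okW R ((List.range n).map r) = false) :
    (∀ i < n, ∀ j < n, i ≠ j →
      R + (r i).t * (r j).t + 1 ≤ ((r i).q + 1) * ((r j).q + 1) ∧
      (R ≤ (r i).t * (r j).t + 4 → (r i).t * (r j).t + 5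
        ≤ R + Ld.isq ((r i).t * (r j).t + 1) * (Ld.isq ((r i).t * (r j).t + 1) - 1))) ∧
    ∀ i < n, ∀ j < n, i ≠ j → 1 < i + j → (r i).t * (r j).t + 10 ≤ 2 * R := by
  obtain ⟨m, rfl⟩ : ∃ m, n = m + 2 := ⟨n - 2, by omega⟩
  have e0 : (List.range (m + 2)).map r = r 0 :: r 1 :: (List.range' 2 m).map r := by
    rw [List.range_eq_range']
    rfl
  rw [e0] at h
  have h0 : orb (okQ R (r 0) (r 1)) (orb (Le.okM R (r 0 :: (List.range' 2 m).map r))
    (Le.okM R (r 1 :: (List.range' 2 m).map r))) = false := h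
  have h1 : okQ R (r 0) (r 1) = false := by
    rcases h2 : okQ R (r 0) (r 1) with _ | _
    · rfl
    · rw [h2] at h0
      exact absurd h0 (by simp [orb])
  rw [h1] at h0
  have h0' : orb (Le.okM R (r 0 :: (List.range' 2 m).map r))
    (Le.okM R (r 1 :: (List.range' 2 m).map r)) = false := h0
  have h2 : Le.okM R (r 0 :: (List.range' 2 m).map r) = false := by
    rcases h3 : Le.okM R (r 0 :: (List.range' 2 m).map r) with _ | _
    · rfl
    · rw [h3] at h0'
      exact absurd h0' (by simp [orb])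
  rw [h2] at h0'
  have h3 : Le.okM R (r 1 :: (List.range' 2 m).map r) = false := h0'
  have p0 := List.pairwise_cons.1 (Le.okM_spec h2)
  have p1 := List.pairwise_cons.1 (Le.okM_spec h3)
  have pr := p0.2
  rw [List.pairwise_map, List.pairwise_iff_getElem] at pr
  have hq := okQ_spec h1
  have key : ∀ i < m + 2, ∀ j < m + 2, i < j → 1 < i + j → Le.okP R (r i) (r j) = false := by
    intro i hi j hj hij h5
    have hj2 : 2 ≤ j := by omega
    have hm : r j ∈ (List.range' 2 m).map r :=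
      List.mem_map.2 ⟨j, List.mem_range'_1.2 ⟨hj2, by omega⟩, rfl⟩
    rcases Nat.lt_or_ge i 1 with h6 | h6
    · have h7 : i = 0 := by omega
      subst h7
      exact p0.1 _ hm
    rcases Nat.lt_or_ge i 2 with h7 | h7
    · have h8 : i = 1 := by omega
      subst h8
      exact p1.1 _ hm
    have h8 := pr (i - 2) (j - 2) (by simp; omega) (by simp; omega) (by omega)
    have e1 : 2 + (i - 2) = i := by omega
    have e2 : 2 + (j - 2) = j := by omega
    simpa [List.getElem_range', e1, e2] using h8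
  have all : ∀ i < m + 2, ∀ j < m + 2, i < j →
      (R + (r i).t * (r j).t + 1 ≤ ((r i).q + 1) * ((r j).q + 1) ∧
      (R ≤ (r i).t * (r j).t + 4 → (r i).t * (r j).t + 5
        ≤ R + Ld.isq ((r i).t * (r j).t + 1) * (Ld.isq ((r i).t * (r j).t + 1) - 1))) ∧
      (1 < i + j → (r i).t * (r j).t + 10 ≤ 2 * R) := by
    intro i hi j hj hij
    by_cases h5 : 1 < i + j
    · have h6 := Le.okP_spec (key i hi j hj hij h5)
      exact ⟨h6.2, fun _ => h6.1⟩
    · have h6 : i = 0 := by omega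
      have h7 : j = 1 := by omega
      subst h6 h7
      exact ⟨hq, fun h8 => absurd h8 h5⟩
  refine ⟨fun i hi j hj hij => ?_, fun i hi j hj hij h5 => ?_⟩
  · rcases lt_or_gt_of_ne hij with h6 | h6
    · exact (all i hi j hj h6).1
    · have h7 := (all j hj i hi h6).1
      rw [Nat.mul_comm (r i).t, Nat.mul_comm ((r i).q + 1)]
      exact h7
  · rcases lt_or_gt_of_ne hij with h6 | h6
    · exact (all i hi j hj h6).2 h5
    · have h7 := (all j hj i hi h6).2 (by omega)
      rw [Nat.mul_comm (r i).t]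
      exact h7

/-- **all worlds with the shares `ts`**, the candidates of every row selected -/
noncomputable def pkw (R n : ℕ) (f : ℕ → List (ℕ × ℕ × ℕ) → List (ℕ × ℕ × ℕ)) (ts : List ℕ) :
    Bool :=
  Ld.frc (Nat.add (Ld.lsum (fun t => t) ts) (Nat.succ n)) fun S =>
    Ld.frc (EnPs.t2K (Nat.mul n n)) fun T0 =>
    Le.raw R (ts.map fun t => (t, 0, 0, ())) 0 fun L0 => Bool.rec (motive := fun _ => Bool)
      (bld R S L0 L0 fun Q _ => gof R n T0 f S Q) false (okW R L0)

lemma pkw_eq (R n : ℕ) (t : ℕ → ℕ) (hn : 1 ≤ n) :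
    ∃ (r : ℕ → Rw) (Cf : ℕ → List (ℕ × ℕ × ℕ)) (mxf : ℕ → ℕ),
      (∀ j < n, (r j).i = j ∧ (r j).t = t j ∧ (r j).c = R - t j ∧ (r j).g = R - t j - (r j).q) ∧
      (∀ j < n, (∀ h ≤ ∑ i ∈ range n, t i + (n + 1), ∀ mu ≤ h,
        ok R (r j).t (Ld.ns (Ld.cG R) ((List.range n).map r) (r j))
          (bm R ((List.range n).map r) (r j)) h mu (eB h mu) = true → (h, mu, eB h mu) ∈ Cf j) ∧
        ∀ y ∈ Cf j, y.1 + mxf (j + 1) ≤ mxf j) ∧
      ∀ f, pkw R n f ((List.range n).map t) = Bool.rec (motive := fun _ => Bool)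
        (en (lf R n (EnPs.t2 (n * n))) ((List.range' 0 n).map fun j =>
          (r j, mxf (j + 1), f (r j).i (Cf j))) (∑ i ∈ range n, t i + (n + 1))
          ((r 0).t + 1) 0 0 [])
        false (okW R ((List.range n).map r)) := by
  obtain ⟨r, hr1, hr2⟩ := Le.mkL_spec R (fun j => (t j, 0, 0, ())) n 0
  obtain ⟨Cf, mxf, h1, h2⟩ := bld_spec R (∑ i ∈ range n, t i + (n + 1)) ((List.range' 0 n).map r)
    r n 0
  refine ⟨r, Cf, mxf, fun j hj => ?_, fun j hj => ?_, fun f => ?_⟩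
  · obtain ⟨h3, h4, h5, h6, h7, h8, h9⟩ := hr2 j (Nat.zero_le _) (by omega)
    exact ⟨h3, h4, h8, h9⟩
  · rw [List.range_eq_range']
    exact h2 j (Nat.zero_le _) (by omega)
  · have e1 : Nat.add (Ld.lsum (fun t => t) ((List.range n).map t)) (Nat.succ n)
        = ∑ i ∈ range n, t i + (n + 1) := by
      show Ld.lsum (fun t => t) ((List.range n).map t) + (n + 1) = _
      rw [Ld.lsum_eq, List.map_id', Kern.sum_map_range]
    have e0 : EnPs.t2K (Nat.mul n n) = EnPs.t2 (n * n) := EnPs.t2K_eq _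
    unfold pkw
    rw [Ld.frc_eq, Ld.frc_eq, e0, e1, Le.raw_spec, List.map_map]
    have e2 : ((fun t => (t, 0, 0, ())) ∘ t : ℕ → ℕ × ℕ × ℕ × Unit) = fun j => (t j, 0, 0, ()) := rfl
    rw [e2, List.range_eq_range', hr1, h1]
    congr 1
    obtain ⟨m, rfl⟩ : ∃ m, n = m + 1 := ⟨n - 1, by omega⟩
    have hr : List.range' 0 (m + 1) = 0 :: List.range' 1 m := rfl
    rw [hr, List.map_cons, List.map_cons]
    show en (lf R (m + 1) _) (((r 0, mxf (0 + 1), Cf 0) :: _).map _) _ (Nat.succ (r 0).t) 0 0 [] = _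
    rw [List.map_cons, List.map_map]
    rfl

/-- **all worlds with the shares `ts` and the first two rows `e`**, at most two PC pairs in the first
cell -/
noncomputable def onw (R n : ℕ) (e : ℕ × ℕ × ℕ × ℕ) (ts : List ℕ) : Bool := pkw R n (fe e) ts

end EnPr

section World

variable {ι : Type} {R n : ℕ} {t s h e : ℕ → ℤ} {E : ℕ → ℕ → ℤ} {U : Finset ι}
  {ho : ι → ℕ} {vl : ι → ℤ} {kp ms mr mn : ℕ → ι → ℤ} {mu Nb : ℕ → ℤ} {Nx : ℕ → ℕ → ℤ}
  {be : ℕ → ℕ → ℤ} {ls : ℕ → ℤ → ℤ} {pc ar : ι → ℤ} {aT : ℕ → ℤ} {NN FF pw : ℕ → ℕ → ℤ}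
  {nu : ℕ → ι → ℤ}

open Ld (Rw)

/-- **the world of a profile does not exist**, at most two PC pairs in the first cell -/
theorem ItC.enPw (H : ItC (R : ℤ) n t s h e E U ho vl kp ms mr mu Nb Nx be ls pc ar aT NN FF pw nu)
    (L : LvI (R : ℤ) n t s h e U ho vl kp ms mr mn mu be pc ar) (hR : 2 ≤ R) (n5 : 5 ≤ n)
    (lex : ∀ i j, i ≤ j → j < n → t j < t i ∨ t j = t i ∧ (h j < h i ∨ h j = h i ∧ mu j ≤ mu i))
    {f : ℕ → List (ℕ × ℕ × ℕ) → List (ℕ × ℕ × ℕ)}
    (hf : ∀ j < n, ∀ C : List (ℕ × ℕ × ℕ),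
      ((h j).toNat, (mu j).toNat, EnPr.eB (h j).toNat (mu j).toNat) ∈ C →
      ((h j).toNat, (mu j).toNat, EnPr.eB (h j).toNat (mu j).toNat) ∈ f j C)
    (hb : be 0 1 + be 1 0 ≤ 2) (hT : EnPr.pkw R n f ((List.range n).map fun j => (t j).toNat) = true) : False := by
  obtain ⟨T, hTd⟩ : ∃ T : ℕ → ℕ, T = fun j => (t j).toNat := ⟨_, rfl⟩
  obtain ⟨x, hxd⟩ : ∃ x : ℕ → ℕ × ℕ × ℕ, x = fun j =>
    ((h j).toNat, (mu j).toNat, EnPr.eB (h j).toNat (mu j).toNat) := ⟨_, rfl⟩
  have hTt : ∀ j < n, ((T j : ℕ) : ℤ) = t j := fun j hj => by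
    rw [hTd]
    exact Int.toNat_of_nonneg (H.t0 j hj)
  have hxh : ∀ j < n, (((x j).1 : ℕ) : ℤ) = h j := fun j hj => by
    rw [hxd]
    exact Int.toNat_of_nonneg (H.h0 j hj)
  have hxm : ∀ j < n, (((x j).2.1 : ℕ) : ℤ) = mu j := fun j hj => by
    rw [hxd]
    exact Int.toNat_of_nonneg (H.mu0 hj)
  have hxB : ∀ j, (x j).2.2 = EnPr.eB (x j).1 (x j).2.1 := fun j => by rw [hxd]
  rw [← hTd] at hT
  obtain ⟨r, Cf, mxf, hr, hC, hpk⟩ := EnPr.pkw_eq R n T (by omega)
  have h1 : EnPr.pkw R n f ((List.range n).map T) = true := hT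
  rw [hpk] at h1
  rcases hm : EnPr.okW R ((List.range n).map r) with _ | _
  swap
  · rw [hm] at h1
    exact absurd h1 (by simp)
  rw [hm] at h1
  obtain ⟨hok, hokt⟩ := EnPr.okW_spec (by omega) hm
  have h2all : ∀ i < n, ∀ j < n, i ≠ j → be i j + be j i ≤ 2 := by
    intro i hi j hj hij
    by_cases h5 : 1 < i + j
    · by_contra h3
      push Not at h3
      have h4 := H.jsub i hi j hj hij 3 (by push_cast; linarith)
      have h6 := hokt i hi j hj hij h5
      rw [(hr i hi).2.1, (hr j hj).2.1] at h6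
      have h7 : ((T i : ℕ) : ℤ) * (T j : ℕ) + 10 ≤ 2 * R := by exact_mod_cast h6
      rw [hTt i hi, hTt j hj] at h7
      push_cast at h4
      linarith
    · rcases Nat.lt_or_ge i j with h6 | h6
      · have h7 : i = 0 := by omega
        have h8 : j = 1 := by omega
        subst h7 h8
        exact hb
      · have h7 : j = 0 := by omega
        have h8 : i = 1 := by omega
        subst h7 h8
        linarith
  -- the rows of the world
  obtain ⟨r', hr'⟩ : ∃ r' : ℕ → Rw, r' = fun j => EnPr.wr (r j) (x j) := ⟨_, rfl⟩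
  have hctx : ∀ L' : List Rw, L'.Perm ((List.range n).map r') →
      ∃ (m : ℕ → ℤ) (P K : ℕ → ℕ → ℕ) (N W : ℕ → ℕ → ℤ),
        Le.Ctx2 R n t s h e mu m P K N W r' L' := by
    intro L' hL'
    refine H.ctx2h L hR n5 (r := r') (fun j hj => ?_) (fun j hj => ?_) (fun j hj => ?_)
      (fun j hj => ?_) (fun j hj => ?_) (fun j hj => ?_) (fun j hj => ?_)
      h2all (fun i hi j hj hij => ?_) hL'
    · rw [hr']
      exact (hr j hj).1
    · rw [hr']
      show ((r j).t : ℤ) = t j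
      rw [(hr j hj).2.1]
      exact hTt j hj
    · rw [hr']
      exact hxh j hj
    · rw [hr']
      exact hxm j hj
    · rw [hr']
      exact hxB j
    · rw [hr']
      show (r j).c = R - (r j).t
      rw [(hr j hj).2.1]
      exact (hr j hj).2.2.1
    · rw [hr']
      show (r j).g = R - (r j).t - (r j).q
      rw [(hr j hj).2.1]
      exact (hr j hj).2.2.2
    · rw [hr']
      exact hok i hi j hj hij
  -- the sums
  have hsum : ∑ i ∈ range n, (x i).1 = ∑ i ∈ range n, T i + (n + 1) := by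
    have e3 : ∑ i ∈ range n, h i = ∑ i ∈ range n, t i + (n + 1) := by
      rw [sum_congr rfl fun i hi => H.hh i (mem_range.1 hi), sum_add_distrib, sum_add_distrib,
        sum_const, card_range, nsmul_eq_mul, mul_one, H.ss]
      ring
    have e1 : ((∑ i ∈ range n, (x i).1 : ℕ) : ℤ) = ∑ i ∈ range n, h i := by
      push_cast
      exact sum_congr rfl fun i hi => hxh i (mem_range.1 hi)
    have e2 : ((∑ i ∈ range n, T i : ℕ) : ℤ) = ∑ i ∈ range n, t i := by
      push_cast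
      exact sum_congr rfl fun i hi => hTt i (mem_range.1 hi)
    have e4 : ((∑ i ∈ range n, (x i).1 : ℕ) : ℤ) = ((∑ i ∈ range n, T i + (n + 1) : ℕ) : ℤ) := by
      rw [e1, e3, Nat.cast_add, e2]
      push_cast
      ring
    exact_mod_cast e4
  -- the candidates
  have hcand : ∀ j < n, x j ∈ Cf j := by
    intro j hj
    obtain ⟨m, P, K, N, W, C⟩ := hctx _ (List.Perm.refl _)
    have hE := C.toCtx.en_spec (hi := Ld.cG R)
      (fun x hx z hz hxz => Ld.Ctx.cG_spec C.toCtx hx hz hxz) hj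
    have h2 := Le.rt_spec (a := 0) (b := 0) C hj hE (by omega) (by omega)
    have h3 : (x j).1 ≤ ∑ i ∈ range n, T i + (n + 1) := by
      rw [← hsum]
      exact single_le_sum (f := fun i => (x i).1) (fun _ _ => Nat.zero_le _) (mem_range.2 hj)
    have h4 : (x j).2.1 ≤ (x j).1 := by
      have h5 := H.muh j hj
      rw [← hxh j hj, ← hxm j hj] at h5
      exact_mod_cast h5
    have h5 := (hC j hj).1 (x j).1 h3 (x j).2.1 h4
    have h6 : ((x j).1, (x j).2.1, EnPr.eB (x j).1 (x j).2.1) = x j := by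
      rw [← hxB j]
    rw [h6] at h5
    refine h5 ?_
    have en1 : Ld.ns (Ld.cG R) ((List.range n).map r') (r' j)
        = Ld.ns (Ld.cG R) ((List.range n).map r) (r j) := by
      unfold Ld.ns
      rw [Ld.lsum_eq, Ld.lsum_eq, List.map_map, List.map_map, hr']
      rfl
    have en2 : Ld.nm (Ld.cG R) ((List.range n).map r') (r' j)
        = (x j).2.1 * EnPr.bm R ((List.range n).map r) (r j) := by
      unfold Ld.nm EnPr.bm
      rw [EnPr.lmax_map, EnPr.lmax_map, hr']
      rfl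
    rw [en1, en2] at h2
    -- the filter
    have ht3 : (r' j).t = (r j).t := by rw [hr']; rfl
    have hh3 : (r' j).h = (x j).1 := by rw [hr']; rfl
    have hB3 : (r' j).B = (x j).2.2 := by rw [hr']; rfl
    have h7 : 2 * R * (x j).1 ≤ (x j).2.2 + 2 * min (Ld.ns (Ld.cG R) ((List.range n).map r) (r j))
        ((x j).2.1 * EnPr.bm R ((List.range n).map r) (r j)) + 2 * R * ((r j).t + 1) := by
      unfold Le.rt at h2
      rcases h8 : Nat.ble (r' j).t (Nat.add (r' j).h 3) with _ | _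
      · have h9 : ¬ (r j).t ≤ (x j).1 + 3 := fun h10 => by
          rw [ht3, hh3, Nat.ble_eq_true_of_le (show (r j).t ≤ Nat.add (x j).1 3 from h10)] at h8
          exact absurd h8 (by simp)
        have h10 : 2 * R * (x j).1 ≤ 2 * R * ((r j).t + 1) := Nat.mul_le_mul_left _ (by omega)
        omega
      · rw [h8] at h2
        have h9 : Ld.frc (Nat.add 0 0) (fun j' => Nat.ble (Nat.add (Nat.add (Nat.mul 2 (Nat.add
            (Nat.mul R (r' j).h) (Nat.add (Nat.mul 0 (r' j).c) (Nat.mul 0 (r' j).g))))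
            (Nat.mul j' (Nat.add (Nat.mul 4 (r' j).t) 2))) (Le.tq n j'))
            (Nat.add (Ld.en (r' j) (Ld.ns (Ld.cG R) ((List.range n).map r) (r j))
              ((x j).2.1 * EnPr.bm R ((List.range n).map r) (r j)))
              (Nat.add (Nat.mul (Nat.mul 4 j') (Nat.add (r' j).h j'))
              (Nat.mul (Nat.mul 2 R) (Nat.succ (r' j).t))))) = true := h2
        rw [Ld.frc_eq] at h9
        have h10 := Nat.le_of_ble_eq_true h9
        have h11 : Ld.en (r' j) (Ld.ns (Ld.cG R) ((List.range n).map r) (r j))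
              ((x j).2.1 * EnPr.bm R ((List.range n).map r) (r j))
            = (x j).2.2 + 2 * min (Ld.ns (Ld.cG R) ((List.range n).map r) (r j))
              ((x j).2.1 * EnPr.bm R ((List.range n).map r) (r j)) := by
          unfold Ld.en
          rw [Ld.mi_eq, hB3]
          rfl
        rw [h11, ht3, hh3] at h10
        have h12 : 2 * (R * (x j).1 + (0 * (r' j).c + 0 * (r' j).g)) + 0 * (4 * (r j).t + 2)
            + Le.tq n 0 ≤ (x j).2.2 + 2 * min (Ld.ns (Ld.cG R) ((List.range n).map r) (r j))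
              ((x j).2.1 * EnPr.bm R ((List.range n).map r) (r j))
              + (4 * 0 * ((x j).1 + 0) + 2 * R * ((r j).t + 1)) := h10
        have h13 : 2 * (R * (x j).1) = 2 * R * (x j).1 := by ring
        omega
    have h14 := H.mup j hj
    have h15 := H.hh j hj
    rw [← hTt j hj, ← hxh j hj] at h15
    rw [← hxm j hj] at h14
    have h16 : (x j).1 ≤ T j ∨ 1 ≤ (x j).2.1 := by
      by_cases h20 : (x j).1 ≤ T j
      · exact Or.inl h20
      · right
        have h21 : 0 ≤ s j := by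
          have : T j + 1 ≤ (x j).1 := by omega
          have h22 : ((T j : ℤ)) + 1 ≤ (x j).1 := by exact_mod_cast this
          linarith
        have h22 := h14 h21
        exact_mod_cast h22
    unfold EnPr.ok
    have e1 : Bool.rec (motive := fun _ => Bool) (Nat.ble (x j).1 (r j).t) true
        (Nat.ble 1 (x j).2.1) = true := by
      rcases h20 : Nat.ble 1 (x j).2.1 with _ | _
      · rw [(hr j hj).2.1]
        refine Nat.ble_eq_true_of_le (h16.resolve_right fun h21 => ?_)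
        rw [Nat.ble_eq_true_of_le h21] at h20
        exact absurd h20 (by simp)
      · rfl
    rw [e1]
    show Nat.ble _ _ = true
    refine Nat.ble_eq_true_of_le ?_
    rw [Ld.mi_eq, ← hxB j]
    exact h7
  -- the enumeration
  obtain ⟨k, rfl⟩ : ∃ k, n = k + 1 := ⟨n - 1, by omega⟩
  obtain ⟨pv, hpv0, hpv⟩ : ∃ pv : ℕ → ℕ × ℕ × ℕ, pv 0 = ((r 0).t + 1, 0, 0) ∧
      ∀ j, pv (j + 1) = ((r j).t, (x j).1, (x j).2.1) :=
    ⟨fun j => Nat.rec ((r 0).t + 1, 0, 0) (fun i _ => ((r i).t, (x i).1, (x i).2.1)) j, rfl,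
      fun j => rfl⟩
  have hen : EnPr.en (EnPr.lf R (k + 1) (EnPs.t2 ((k + 1) * (k + 1)))) ((List.range' 0 (k + 1)).map fun j =>
      (r j, mxf (j + 1), f (r j).i (Cf j))) (∑ i ∈ range (k + 1), T i + (k + 1 + 1)) (pv 0).1
      (pv 0).2.1 (pv 0).2.2 [] = true := by
    rw [hpv0]
    exact h1
  have hcand' : ∀ j < k + 1, x j ∈ f (r j).i (Cf j) := by
    intro j hj
    have h2 := hf j hj (Cf j)
    rw [(hr j hj).1]
    have h3 := hcand j hj
    rw [hxd] at h3 ⊢
    exact h2 h3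
  have hfin := EnPr.en_spec (x := x) (pv := pv) (Cf := fun j => f (r j).i (Cf j)) (k + 1) 0 _ [] hen
    (fun j hj0 hj1 => by
      have hj : j < k + 1 := by omega
      refine ⟨hcand' j hj, ?_, ?_, hpv j⟩
      · have h2 := EnPr.mx_sum (x := fun i => (x i).1) (mxf := mxf) (k - j) (j + 1)
          fun i h3 h4 => (hC i (by omega)).2 _ (hcand i (by omega))
        have e1 : 0 + (k + 1) = j + 1 + (k - j) := by omega
        rw [e1]
        exact h2
      · rcases j with _ | j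
        · rw [hpv0]
          unfold EnPr.lx
          have e1 : Nat.beq (r 0).t ((r 0).t + 1) = false := by
            rcases h2 : Nat.beq (r 0).t ((r 0).t + 1) with _ | _
            · rfl
            · have := Nat.eq_of_beq_eq_true h2
              omega
          rw [e1]
        · rw [hpv]
          unfold EnPr.lx
          rcases h2 : Nat.beq (r (j + 1)).t (r j).t with _ | _
          · rfl
          have h3 := Nat.eq_of_beq_eq_true h2
          rw [(hr _ hj).2.1, (hr j (by omega)).2.1] at h3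
          have h4 := lex j (j + 1) (by omega) hj
          rw [← hTt j (by omega), ← hTt (j + 1) hj, ← hxh j (by omega), ← hxh (j + 1) hj,
            ← hxm j (by omega), ← hxm (j + 1) hj, h3] at h4
          have h5 : (x (j + 1)).1 < (x j).1 ∨ (x (j + 1)).1 = (x j).1 ∧
              (x (j + 1)).2.1 ≤ (x j).2.1 := by
            rcases h4 with h4 | ⟨-, h4 | ⟨h4, h5⟩⟩
            · exact absurd h4 (lt_irrefl _)
            · left
              exact_mod_cast h4
            · right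
              exact ⟨by exact_mod_cast h4, by exact_mod_cast h5⟩
          show Bool.rec (motive := fun _ => Bool) (Bool.rec (motive := fun _ => Bool) false
            (Nat.ble (x (j + 1)).2.1 (x j).2.1) (Nat.beq (x (j + 1)).1 (x j).1)) true
            (Nat.ble (Nat.succ (x (j + 1)).1) (x j).1) = true
          rcases h6 : Nat.ble (Nat.succ (x (j + 1)).1) (x j).1 with _ | _
          · rcases h5 with h5 | ⟨h5, h7⟩
            · rw [Nat.ble_eq_true_of_le (show Nat.succ (x (j + 1)).1 ≤ (x j).1 from h5)] at h6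
              exact absurd h6 (by simp)
            · have e1 : Nat.beq (x (j + 1)).1 (x j).1 = true := by
                rw [h5]
                exact Nat.beq_refl _
              rw [e1]
              exact Nat.ble_eq_true_of_le h7
          · rfl)
    (by
      rw [Nat.zero_add, ← range_eq_Ico]
      exact hsum)
  rw [List.append_nil] at hfin
  have hperm : (((List.range' 0 (k + 1)).map fun j => EnPr.wr (r j) (x j)).reverse.reverse).Perm
      ((List.range (k + 1)).map r') := by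
    rw [hr', List.range_eq_range', List.reverse_reverse]
  obtain ⟨m, P, K, N, W, C⟩ := hctx _ hperm
  exact EnPs.top_sound C rfl hfin

end World

/-! ### the first cell -/

section Wd

variable {R n : ℕ} {t s h e : ℕ → ℤ} {ι : Type} {E : ℕ → ℕ → ℤ} {U : Finset ι}
  {ho : ι → ℕ} {vl : ι → ℤ} {kp ms mr mn : ℕ → ι → ℤ} {mu Nb : ℕ → ℤ} {Nx : ℕ → ℕ → ℤ}
  {be : ℕ → ℕ → ℤ} {ls : ℕ → ℤ → ℤ} {pc ar : ι → ℤ} {aT : ℕ → ℤ} {NN FF pw : ℕ → ℕ → ℤ}
  {nu : ℕ → ι → ℤ}

/-- **the loads of a world with the numbers of PC pairs** -/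
theorem ItC.wdR {H q a b : ℕ} {p : ℕ → ℕ → ℕ → ℕ → ℕ → ℕ → Bool} (q1 : 1 ≤ q) (q2 : q + 2 ≤ n)
    (I : ItC (R : ℤ) n t s h e E U ho vl kp ms mr mu Nb Nx be ls pc ar aT NN FF pw nu)
    (L : LvI (R : ℤ) n t s h e U ho vl kp ms mr mn mu be pc ar)
    (hh : ∑ i ∈ range n, h i ≤ H)
    (lex : ∀ i j, i ≤ j → j < n → t j < t i ∨ t j = t i ∧ (h j < h i ∨ h j = h i ∧ mu j ≤ mu i))
    (ha : t 0 = a) (hb : t 1 = b) (hp : p (h 0).toNat (mu 0).toNat (h 1).toNat (mu 1).toNat
      (∑ j ∈ (range n).erase 0, be 0 j).toNat (∑ j ∈ (range n).erase 1, be 1 j).toNat = true) :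
    ∃ (P A D : ℕ → ℕ → ℕ) (N W : ℕ → ℕ → ℤ), Bk.Wd R n (fun i => (t i).toNat)
      (fun i => (h i).toNat) (fun i => (mu i).toNat) (fun _ _ => R) s e P A D N W ∧
      BkW H n q a b p (fun i => (t i).toNat) (fun i => (h i).toNat) (fun i => (mu i).toNat) P ∧
      ∀ x < n, ∀ j < n, (P x j : ℤ) = be x j := by
  have hbe : ∀ x < n, (∑ j ∈ (range n).erase x, be x j).toNat
      = ∑ j ∈ (range n).erase x, (lgP U ho kp pc x j).card := by
    intro x hx
    have h1 : ∑ j ∈ (range n).erase x, be x j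
        = ((∑ j ∈ (range n).erase x, (lgP U ho kp pc x j).card : ℕ) : ℤ) := by
      push_cast
      exact sum_congr rfl fun j hj => (I.card_lgP hx (mem_range.1 (mem_of_mem_erase hj))).symm
    rw [h1, Int.toNat_natCast]
  rw [hbe 0 (by omega), hbe 1 (by omega)] at hp
  have F := BkW.of (P := fun x j => (lgP U ho kp pc x j).card) q2 I.t0 (fun i hi => I.mu0 hi) I.muh
    I.hh I.ss hh lex ha hb hp
  have G := I.ldg L (m := fun _ _ => ((R : ℕ) : ℤ)) (fun x _ i _ => Int.natCast_nonneg _) ?_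
  · refine ⟨fun x z => (lgP U ho kp pc x z).card,
      fun x z => (lgA U ho kp mn pc (fun _ _ => ((R : ℕ) : ℤ)) x z).card,
      fun x z => (lgD U ho kp mn pc (fun _ _ => ((R : ℕ) : ℤ)) x z).card, NN, FF, ⟨?_, by omega⟩, F,
      fun x hx j hj => I.card_lgP hx hj⟩
    exact G.congr (fun i hi => (Int.toNat_of_nonneg (I.t0 i hi)).symm)
      (fun i hi => (Int.toNat_of_nonneg (I.h0 i hi)).symm)
      (fun i hi => (Int.toNat_of_nonneg (I.mu0 hi)).symm) fun _ _ _ _ => rfl
  · intro x hx i hi j hj hix hjx hij h1 h2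
    have h3 := I.t0 i hi
    linarith

/-- **at most two PC pairs in the first cell**, from the check of a block -/
theorem ItC.be2 {d : BlkD.Pd} {lo hi : ℕ → ℕ} (F : BlkD.PairF d) (q1 : 1 ≤ d.q)
    (q2 : d.q + 2 ≤ n) (eR : d.R = R)
    (I : ItC (R : ℤ) n t s h e E U ho vl kp ms mr mu Nb Nx be ls pc ar aT NN FF pw nu)
    (L : LvI (R : ℤ) n t s h e U ho vl kp ms mr mn mu be pc ar)
    (hh : ∑ i ∈ range n, h i ≤ d.H)
    (lex : ∀ i j, i ≤ j → j < n → t j < t i ∨ t j = t i ∧ (h j < h i ∨ h j = h i ∧ mu j ≤ mu i))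
    (ha : t 0 = d.a) (hb : t 1 = d.b)
    (hp : BlkD.inB lo hi (h 0).toNat (mu 0).toNat (h 1).toNat (mu 1).toNat
      (∑ j ∈ (range n).erase 0, be 0 j).toNat (∑ j ∈ (range n).erase 1, be 1 j).toNat = true)
    {bt : ℕ} (hbt : bt + (hi 4 + hi 5) = lo 0 + lo 1 + (lo 2 + lo 3) + 2) (h4 : lo 4 = hi 4)
    (h5 : lo 5 = hi 5)
    (ok : BlkM.blkOkM d.R d.H d.a d.b d.B d.R d.R d.G d.nt0 d.nt1 1 bt 0 0 1 1 0 0
      (lo 0) (hi 0 + 1 - lo 0) (lo 1) (hi 1 + 1 - lo 1) (lo 2) (hi 2 + 1 - lo 2) (lo 3)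
      (hi 3 + 1 - lo 3) (lo 4) (hi 4) (lo 5) (hi 5) = true) :
    be 0 1 + be 1 0 ≤ 2 := by
  subst eR
  obtain ⟨P, A, D, N, W, C, G, hP⟩ := I.wdR q1 q2 L hh lex ha hb hp
  have hn := C.n3
  have hp' := G.pp
  rw [BlkD.inB_iff] at hp'
  have hB := F.hB
  have htm := BlkD.tm_le F G
  have hcap := G.cap
  have h01 := G.h01
  have hBs : ∑ z ∈ Ico 2 n, ((t z).toNat + 1) ≤ d.B := by omega
  have M0 := sumN0 (show 2 ≤ n by omega) fun j => P 0 j
  have M1 := sumN1 (show 2 ≤ n by omega) fun j => P 1 j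
  have k4 := BlkM.blockM C (Hh := d.H) (tm := d.tm) (m01 := d.R) (m10 := d.R) G.ta G.tb rfl rfl
    (by omega) htm hBs F.g0
    F.g1 F.n0 F.n1 F.l0 F.l1 F.G5 (ka := lo 0) (nk := hi 0 + 1 - lo 0) (ua := lo 1)
    (nu := hi 1 + 1 - lo 1) (ka1 := lo 2) (nk1 := hi 2 + 1 - lo 2) (ua1 := lo 3)
    (nu1 := hi 3 + 1 - lo 3) (Ma := lo 4) (Mb := hi 4) (Ma1 := lo 5) (Mb1 := hi 5)
    (by omega) (by omega) (by omega) (by omega) (by omega) (by omega)
    (by omega) (by omega) (by omega) (by omega) (by omega) (by omega) ok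
  rw [← hP 0 (by omega) 1 (by omega), ← hP 1 (by omega) 0 (by omega)]
  have k5 : P 0 1 + P 1 0 ≤ 2 := by omega
  exact_mod_cast k5

end Wd

/-- **a box with one state of the first two rows** -/
theorem NoNd.of_W {d : BlkD.Pd} {R K n a b : ℕ} {lo hi : ℕ → ℕ} (hd : BlkD.pairOk d = true)
    (q1 : 1 ≤ d.q) (q2 : d.q + 2 ≤ n) (eR : d.R = R) (eH : d.H = K) (ea : d.a = a) (eb : d.b = b)
    (hR : 2 ≤ R) (n5 : 5 ≤ n) {bt x y z w : ℕ}
    (hx : lo 0 + lo 1 = x ∧ lo 1 = y ∧ lo 2 + lo 3 = z ∧ lo 3 = w)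
    (hlh : lo 0 = hi 0 ∧ lo 1 = hi 1 ∧ lo 2 = hi 2 ∧ lo 3 = hi 3 ∧ lo 4 = hi 4 ∧ lo 5 = hi 5)
    (hbt : bt + (hi 4 + hi 5) = lo 0 + lo 1 + (lo 2 + lo 3) + 2)
    (ok : BlkM.blkOkM d.R d.H d.a d.b d.B d.R d.R d.G d.nt0 d.nt1 1 bt 0 0 1 1 0 0
      (lo 0) (hi 0 + 1 - lo 0) (lo 1) (hi 1 + 1 - lo 1) (lo 2) (hi 2 + 1 - lo 2) (lo 3)
      (hi 3 + 1 - lo 3) (lo 4) (hi 4) (lo 5) (hi 5) = true)
    (h : EnPr.lall (fun l => EnPr.onw R n (x, y, z, w) (a :: b :: l))
      (EnPr.prof (n - 2) b (K - (n + 1) - a - b)) = true) :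
    NoNd (R : ℤ) K n a b (BlkD.inB lo hi) := by
  subst eR eH ea eb
  obtain ⟨rfl, rfl, rfl, rfl⟩ := hx
  obtain ⟨g0, g1, g2, g3, g4, g5⟩ := hlh
  intro ι t s h0 e E' U ho vl kp ms mr mn mu Nb Nx be ls pc ar aT NN FF pw nu I L hh lex ha hb hp
  have hbe := I.be2 (BlkD.pairOk_sound hd) q1 q2 rfl L hh lex ha hb hp hbt g4 g5 ok
  obtain ⟨m, rfl⟩ : ∃ m, n = m + 2 := ⟨n - 2, by omega⟩
  have ht0 : ∀ j < m + 2, (((t j).toNat : ℕ) : ℤ) = t j := fun j hj =>
    Int.toNat_of_nonneg (I.t0 j hj)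
  have hp' := hp
  rw [BlkD.inB_iff] at hp'
  have v0 := I.muh 0 (by omega)
  have v1 := I.muh 1 (by omega)
  have u0 := I.mu0 (i := 0) (by omega)
  have u1 := I.mu0 (i := 1) (by omega)
  have x1 : (h0 0).toNat = lo 0 + lo 1 := by omega
  have x2 : (mu 0).toNat = lo 1 := by omega
  have x3 : (h0 1).toNat = lo 2 + lo 3 := by omega
  have x4 : (mu 1).toNat = lo 3 := by omega
  have hl := h
  rw [EnPr.lall_iff] at hl
  have e1 : (List.range (m + 2)).map (fun j => (t j).toNat)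
      = d.a :: d.b :: (List.range' 2 m).map fun j => (t j).toNat := by
    have e2 : (List.range (m + 2)).map (fun j => (t j).toNat)
        = (t 0).toNat :: (t 1).toNat :: (List.range' 2 m).map fun j => (t j).toNat := by
      rw [List.range_eq_range']
      rfl
    rw [e2, ha, hb, Int.toNat_natCast, Int.toNat_natCast]
  have h2 := hl ((List.range' 2 m).map fun j => (t j).toNat)
    (EnPr.mem_prof (fun j => (t j).toNat) m 2 d.b _ (fun j h1 h2 => ?_) (fun h1 => ?_) ?_)
  · rw [← e1] at h2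
    refine I.enPw L hR n5 lex (f := EnPr.fe (lo 0 + lo 1, lo 1, lo 2 + lo 3, lo 3))
      (fun j hj C hC => ?_) hbe h2
    rcases j with _ | _ | j
    · rw [x1, x2]
      exact List.mem_singleton.2 rfl
    · rw [x3, x4]
      exact List.mem_singleton.2 rfl
    · exact hC
  · have := lex j (j + 1) (by omega) (by omega)
    show (t (j + 1)).toNat ≤ (t j).toNat
    omega
  · have := lex 1 2 (by omega) (by omega)
    show (t 2).toNat ≤ d.b
    omega
  · have h1 := I.toItN.toBI.sum_t (M := d.H - (m + 2 + 1)) (K := d.H) hh (by omega)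
    have h2 : ((∑ i ∈ range (m + 2), (t i).toNat : ℕ) : ℤ) = ∑ i ∈ range (m + 2), t i := by
      push_cast
      exact sum_congr rfl fun i hi => ht0 i (mem_range.1 hi)
    rw [← h2] at h1
    have h3 : ∑ i ∈ range (m + 2), (t i).toNat ≤ d.H - (m + 2 + 1) := by exact_mod_cast h1
    rw [range_eq_Ico, sum_eq_sum_Ico_succ_bot (by omega), sum_eq_sum_Ico_succ_bot (by omega)] at h3
    have h4 : (t 0).toNat = d.a := by rw [ha, Int.toNat_natCast]
    have h5 : (t 1).toNat = d.b := by rw [hb, Int.toNat_natCast]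
    have h6 : (t (0 + 1)).toNat = d.b := h5
    rw [h4, h6] at h3
    have e3 : 2 + m = m + 2 := by omega
    have e4 : Ico (0 + 1 + 1) (m + 2) = Ico 2 (2 + m) := by rw [e3]
    rw [e4] at h3
    show ∑ i ∈ Ico 2 (2 + m), (t i).toNat ≤ d.H - (m + 2 + 1) - d.a - d.b
    omega

end Pool.Agent.Lib.MP_f04ccf_co
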