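import Pool.Agent.Lib.MP_f04ccf_co.M.EnPr
import Pool.Agent.Lib.MP_f04ccf_co.M.BlkT

/-!
MP_f04ccf_co, PLAN W, block certificate: **a tree with exceptions; the exceptions by the enumeration**.
`BlkD.treeX d ex tr lo hi`: as `BlkD.treeOk`, a leaf `.E 9` = every state `(h 0, mu 0, h 1, mu 1)` of the
box is in `ex`; `EnPr.one R n e ts`: all worlds with the shares `ts` and the first two rows `e`;
`BlkD.exF a b E`: the list `E` and the states in the wrong order; `BlkD.pair_soundX`.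
-/

set_option autoImplicit false

namespace Pool.Agent.Lib.MP_f04ccf_co

open Finset Mid BlkB

attribute [local instance] Classical.propDecidable

namespace BlkD

/-- all states of the box are in `ex` -/
noncomputable def exOk (ex : ℕ → ℕ → ℕ → ℕ → Bool) (lo hi : ℕ → ℕ) : Bool :=
  frN (lo 0) fun ka => frN (Nat.sub (Nat.succ (hi 0)) ka) fun nk =>
  frN (lo 1) fun ua => frN (Nat.sub (Nat.succ (hi 1)) ua) fun nu =>
  frN (lo 2) fun ka1 => frN (Nat.sub (Nat.succ (hi 2)) ka1) fun nk1 =>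
  frN (lo 3) fun ua1 => frN (Nat.sub (Nat.succ (hi 3)) ua1) fun nu1 =>
  allN (fun i => frN (Nat.add ka i) fun k => allN (fun j => frN (Nat.add ua j) fun mu =>
    frN (Nat.add mu k) fun h => allN (fun i1 => frN (Nat.add ka1 i1) fun k1 =>
      allN (fun j1 => frN (Nat.add ua1 j1) fun mu1 => frN (Nat.add mu1 k1) fun h1 =>
        ex h mu h1 mu1) nu1) nk1) nu) nk

lemma exOk_sound {ex : ℕ → ℕ → ℕ → ℕ → Bool} {lo hi : ℕ → ℕ} (ok : exOk ex lo hi = true)
    {x y z w u v : ℕ} (h : inB lo hi x y z w u v = true) : ex x y z w = true := by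
  rw [inB_iff] at h
  have x1 : Nat.sub (Nat.succ (hi 0)) (lo 0) = hi 0 + 1 - lo 0 := rfl
  have x2 : Nat.sub (Nat.succ (hi 1)) (lo 1) = hi 1 + 1 - lo 1 := rfl
  have x3 : Nat.sub (Nat.succ (hi 2)) (lo 2) = hi 2 + 1 - lo 2 := rfl
  have x4 : Nat.sub (Nat.succ (hi 3)) (lo 3) = hi 3 + 1 - lo 3 := rfl
  unfold exOk at ok
  simp only [frN_eq, x1, x2, x3, x4] at ok
  have h1 := allN_sound ok (x - y - lo 0) (by omega)
  have h2 := allN_sound h1 (y - lo 1) (by omega)
  have h3 := allN_sound h2 (z - w - lo 2) (by omega)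
  have h4 := allN_sound h3 (w - lo 3) (by omega)
  have e1 : Nat.add (lo 0) (x - y - lo 0) = x - y := by
    show lo 0 + (x - y - lo 0) = x - y
    omega
  have e2 : Nat.add (lo 1) (y - lo 1) = y := by
    show lo 1 + (y - lo 1) = y
    omega
  have e3 : Nat.add y (x - y) = x := by
    show y + (x - y) = x
    omega
  have e4 : Nat.add (lo 2) (z - w - lo 2) = z - w := by
    show lo 2 + (z - w - lo 2) = z - w
    omega
  have e5 : Nat.add (lo 3) (w - lo 3) = w := by
    show lo 3 + (w - lo 3) = w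
    omega
  have e6 : Nat.add w (z - w) = z := by
    show w + (z - w) = z
    omega
  simp only [e1, e2, e3, e4, e5, e6] at h4
  exact h4

/-- **the check of a tree with exceptions** -/
noncomputable def treeX (d : Pd) (ex : ℕ → ℕ → ℕ → ℕ → Bool) (tr : Tr) :
    (ℕ → ℕ) → (ℕ → ℕ) → Bool :=
  Tr.rec (motive := fun _ => (ℕ → ℕ) → (ℕ → ℕ) → Bool)
    (fun c lo hi => Bool.rec (motive := fun _ => Bool) (emOk d lo hi c) (exOk ex lo hi)
      (Nat.beq c 9))
    (fun m01 m10 th S0 S1 den al ga be L0 L1 V0 V1 W0 W1 VC lo hi =>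
      leafOk d lo hi m01 m10 th S0 S1 den al ga be L0 L1 V0 V1 W0 W1 VC)
    (fun c v _ _ ihl ihr lo hi => anb (ihl lo (upd hi c v)) (ihr (upd lo c (Nat.succ v)) hi)) tr

/-- **a tree with exceptions** -/
theorem tree_soundX {d : Pd} {n : ℕ} {ex : ℕ → ℕ → ℕ → ℕ → Bool} (F : PairF d) (q1 : 1 ≤ d.q)
    (q2 : d.q + 2 ≤ n) : ∀ (tr : Tr) (lo hi : ℕ → ℕ), treeX d ex tr lo hi = true →
    NoNd (d.R : ℤ) d.H n d.a d.b (fun x y z w u v => inB lo hi x y z w u v && !(ex x y z w)) := by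
  intro tr
  have key : ∀ (lo hi : ℕ → ℕ), NoNd (d.R : ℤ) d.H n d.a d.b (inB lo hi) →
      NoNd (d.R : ℤ) d.H n d.a d.b
        (fun x y z w u v => inB lo hi x y z w u v && !(ex x y z w)) := fun lo hi h =>
    NoNd.mono h fun x y z w u v h1 => by
      rw [Bool.and_eq_true] at h1
      exact h1.1
  induction tr with
  | E c =>
    intro lo hi ok
    have h0 : Bool.rec (motive := fun _ => Bool) (emOk d lo hi c) (exOk ex lo hi)
      (Nat.beq c 9) = true := ok
    rcases h1 : Nat.beq c 9 with _ | _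
    · rw [h1] at h0
      exact key lo hi (em_sound F q1 q2 (c := c) h0)
    · rw [h1] at h0
      intro ι t s h0' e E U ho vl kp ms mr mn mu Nb Nx be ls pc ar aT NN FF pw nu I L hh lex ha hb hp
      rw [Bool.and_eq_true] at hp
      rw [exOk_sound h0 hp.1] at hp
      exact absurd hp.2 (by simp)
  | L m01 m10 th S0 S1 den al ga be L0 L1 V0 V1 W0 W1 VC =>
    intro lo hi ok
    exact key lo hi (leaf_sound F q1 q2 (m01 := m01) (m10 := m10) (th := th) (S0 := S0) (S1 := S1)
      (den := den) (al := al) (ga := ga) (be := be) (L0 := L0) (L1 := L1) (V0 := V0) (V1 := V1)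
      (W0 := W0) (W1 := W1) (VC := VC) ok)
  | S c v l r ihl ihr =>
    intro lo hi ok
    have h1 : anb (treeX d ex l lo (upd hi c v)) (treeX d ex r (upd lo c (Nat.succ v)) hi)
      = true := ok
    obtain ⟨h2, h3⟩ := anb_true h1
    refine NoNd.or (ihl _ _ h2) (ihr _ _ h3) fun x y z w u v' h4 => ?_
    rw [Bool.and_eq_true] at h4
    rcases inB_sp c v h4.1 with h5 | h5
    · left
      rw [h5, h4.2]
      rfl
    · right
      rw [h5, h4.2]
      rfl

/-- **a pair from a tree with exceptions** -/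
theorem pair_soundX {d : Pd} {n : ℕ} {ex : ℕ → ℕ → ℕ → ℕ → Bool} {R H a b : ℕ}
    (hp : pairOk d = true) (q2 : d.q + 2 ≤ n) (q1 : 1 ≤ d.q)
    {tr : Tr} (ok : treeX d ex tr (fun _ => 0) (fun _ => d.H) = true)
    (hx : NoNd (R : ℤ) H n a b fun x y z w _ _ => ex x y z w)
    (e1 : d.R = R) (e2 : d.H = H) (e4 : d.a = a) (e5 : d.b = b) :
    NoPr (R : ℤ) H n a b := by
  subst e1 e2 e4 e5
  refine of_root q1 q2 (NoNd.or (tree_soundX (pairOk_sound hp) q1 q2 tr _ _ ok) hx
    fun x y z w u v h => ?_)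
  rcases h1 : ex x y z w with _ | _
  · left
    rw [h]
    rfl
  · exact Or.inr rfl

/-- **no items in a box outside of `ex`** -/
def NdX (d : Pd) (ex : ℕ → ℕ → ℕ → ℕ → Bool) (n : ℕ) (lo hi : ℕ → ℕ) : Prop :=
  NoNd (d.R : ℤ) d.H n d.a d.b (fun x y z w u v => inB lo hi x y z w u v && !(ex x y z w))

/-- a subtree -/
theorem NdX.tree {d : Pd} {n : ℕ} {ex : ℕ → ℕ → ℕ → ℕ → Bool} {lo hi : ℕ → ℕ} {tr : Tr}
    (ok : treeX d ex tr lo hi = true) (hp : pairOk d = true) (q1 : 1 ≤ d.q) (q2 : d.q + 2 ≤ n) :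
    NdX d ex n lo hi := tree_soundX (pairOk_sound hp) q1 q2 tr _ _ ok

/-- a cut of a box -/
theorem NdX.sp {d : Pd} {n : ℕ} {ex : ℕ → ℕ → ℕ → ℕ → Bool} {lo hi : ℕ → ℕ} (c k : ℕ)
    (h1 : NdX d ex n lo (upd hi c k)) (h2 : NdX d ex n (upd lo c (k + 1)) hi) :
    NdX d ex n lo hi := by
  refine NoNd.or h1 h2 fun x y z w u v' h4 => ?_
  rw [Bool.and_eq_true] at h4
  rcases inB_sp c k h4.1 with h5 | h5
  · left
    rw [h5, h4.2]
    rfl
  · right
    rw [h5, h4.2]
    rfl

/-- **a pair from a root box with exceptions** -/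
theorem NdX.pr {d : Pd} {n : ℕ} {ex : ℕ → ℕ → ℕ → ℕ → Bool} {R H a b : ℕ}
    (h : NdX d ex n (fun _ => 0) (fun _ => d.H)) (q2 : d.q + 2 ≤ n) (q1 : 1 ≤ d.q)
    (hx : NoNd (R : ℤ) H n a b fun x y z w _ _ => ex x y z w)
    (e1 : d.R = R) (e2 : d.H = H) (e4 : d.a = a) (e5 : d.b = b) :
    NoPr (R : ℤ) H n a b := by
  subst e1 e2 e4 e5
  refine of_root q1 q2 (NoNd.or h hx fun x y z w u v h => ?_)
  rcases h1 : ex x y z w with _ | _
  · left
    rw [h]
    rfl
  · exact Or.inr rfl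

/-- the member of a list -/
noncomputable def mem4 (E : List (ℕ × ℕ × ℕ × ℕ)) (x y z w : ℕ) : Bool :=
  List.rec (motive := fun _ => Bool) false
    (fun e _ r => Bool.rec (motive := fun _ => Bool) r true (anb (Nat.beq e.1 x)
      (anb (Nat.beq e.2.1 y) (anb (Nat.beq e.2.2.1 z) (Nat.beq e.2.2.2 w))))) E

lemma mem4_sound {E : List (ℕ × ℕ × ℕ × ℕ)} {x y z w : ℕ} (h : mem4 E x y z w = true) :
    (x, y, z, w) ∈ E := by
  induction E with
  | nil => exact absurd h (by simp [mem4])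
  | cons e E ih =>
    have h0 : Bool.rec (motive := fun _ => Bool) (mem4 E x y z w) true (anb (Nat.beq e.1 x)
      (anb (Nat.beq e.2.1 y) (anb (Nat.beq e.2.2.1 z) (Nat.beq e.2.2.2 w)))) = true := h
    rcases h1 : anb (Nat.beq e.1 x) (anb (Nat.beq e.2.1 y) (anb (Nat.beq e.2.2.1 z)
      (Nat.beq e.2.2.2 w))) with _ | _
    · rw [h1] at h0
      exact List.mem_cons_of_mem _ (ih h0)
    · obtain ⟨h2, h3⟩ := anb_true h1
      obtain ⟨h4, h5⟩ := anb_true h3
      obtain ⟨h6, h7⟩ := anb_true h5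
      rw [← Nat.eq_of_beq_eq_true h2, ← Nat.eq_of_beq_eq_true h4, ← Nat.eq_of_beq_eq_true h6,
        ← Nat.eq_of_beq_eq_true h7]
      exact List.mem_cons_self

/-- the list `E` and, if `a = b`, the states in the wrong order -/
noncomputable def exF (a b : ℕ) (E : List (ℕ × ℕ × ℕ × ℕ)) (x y z w : ℕ) : Bool :=
  orb (anb (Nat.beq a b) (orb (Nat.ble (Nat.succ x) z) (anb (Nat.beq x z) (Nat.ble (Nat.succ y) w))))
    (mem4 E x y z w)

end BlkD

namespace EnPr

open Ld (Rw)

/-- the enumeration, the candidates of every row selected -/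
noncomputable def gof (R n T0 : ℕ) (f : ℕ → List (ℕ × ℕ × ℕ) → List (ℕ × ℕ × ℕ)) (S : ℕ)
    (Q : List (Rw × ℕ × List (ℕ × ℕ × ℕ))) : Bool :=
  List.rec (motive := fun _ => Bool) false
    (fun r Q' _ => en (lf R n T0) ((r :: Q').map fun r => (r.1, r.2.1, f r.1.i r.2.2)) S
      (Nat.succ r.1.t) 0 0 []) Q

/-- **all worlds with the shares `ts`**, the candidates of every row selected -/
noncomputable def pkf (R n : ℕ) (f : ℕ → List (ℕ × ℕ × ℕ) → List (ℕ × ℕ × ℕ)) (ts : List ℕ) :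
    Bool :=
  Ld.frc (Nat.add (Ld.lsum (fun t => t) ts) (Nat.succ n)) fun S =>
    Ld.frc (EnPs.t2K (Nat.mul n n)) fun T0 =>
    Le.raw R (ts.map fun t => (t, 0, 0, ())) 0 fun L0 => Bool.rec (motive := fun _ => Bool)
      (bld R S L0 L0 fun Q _ => gof R n T0 f S Q) false (Le.okM R L0)

lemma pkf_eq (R n : ℕ) (t : ℕ → ℕ) (hn : 1 ≤ n) :
    ∃ (r : ℕ → Rw) (Cf : ℕ → List (ℕ × ℕ × ℕ)) (mxf : ℕ → ℕ),
      (∀ j < n, (r j).i = j ∧ (r j).t = t j ∧ (r j).c = R - t j ∧ (r j).g = R - t j - (r j).q) ∧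
      (∀ j < n, (∀ h ≤ ∑ i ∈ range n, t i + (n + 1), ∀ mu ≤ h,
        ok R (r j).t (Ld.ns (Ld.cG R) ((List.range n).map r) (r j))
          (bm R ((List.range n).map r) (r j)) h mu (eB h mu) = true → (h, mu, eB h mu) ∈ Cf j) ∧
        ∀ y ∈ Cf j, y.1 + mxf (j + 1) ≤ mxf j) ∧
      ∀ f, pkf R n f ((List.range n).map t) = Bool.rec (motive := fun _ => Bool)
        (en (lf R n (EnPs.t2 (n * n))) ((List.range' 0 n).map fun j =>
          (r j, mxf (j + 1), f (r j).i (Cf j))) (∑ i ∈ range n, t i + (n + 1))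
          ((r 0).t + 1) 0 0 [])
        false (Le.okM R ((List.range n).map r)) := by
  obtain ⟨r, hr1, hr2⟩ := Le.mkL_spec R (fun j => (t j, 0, 0, ())) n 0
  obtain ⟨Cf, mxf, h1, h2⟩ := bld_spec R (∑ i ∈ range n, t i + (n + 1)) ((List.range' 0 n).map r)
    r n 0
  refine ⟨r, Cf, mxf, fun j hj => ?_, fun j hj => ?_, fun f => ?_⟩
  · obtain ⟨h3, h4, h5, h6, h7, h8, h9⟩ := hr2 j (Nat.zero_le _) (by omega)
    exact ⟨h3, h4, h8, h9⟩
  · rw [List.range_eq_range']
    exact h2 j (Nat.zero_le _) (by omega)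
  · have e1 : Nat.add (Ld.lsum (fun t => t) ((List.range n).map t)) (Nat.succ n)
        = ∑ i ∈ range n, t i + (n + 1) := by
      show Ld.lsum (fun t => t) ((List.range n).map t) + (n + 1) = _
      rw [Ld.lsum_eq, List.map_id', Kern.sum_map_range]
    have e0 : EnPs.t2K (Nat.mul n n) = EnPs.t2 (n * n) := EnPs.t2K_eq _
    unfold pkf
    rw [Ld.frc_eq, Ld.frc_eq, e0, e1, Le.raw_spec, List.map_map]
    have e2 : ((fun t => (t, 0, 0, ())) ∘ t : ℕ → ℕ × ℕ × ℕ × Unit) = fun j => (t j, 0, 0, ()) := rfl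
    rw [e2, List.range_eq_range', hr1, h1]
    congr 1
    obtain ⟨m, rfl⟩ : ∃ m, n = m + 1 := ⟨n - 1, by omega⟩
    have hr : List.range' 0 (m + 1) = 0 :: List.range' 1 m := rfl
    rw [hr, List.map_cons, List.map_cons]
    show en (lf R (m + 1) _) (((r 0, mxf (0 + 1), Cf 0) :: _).map _) _ (Nat.succ (r 0).t) 0 0 [] = _
    rw [List.map_cons, List.map_map]
    rfl

/-- the first two rows are `e` -/
noncomputable def fe (e : ℕ × ℕ × ℕ × ℕ) (j : ℕ) (C : List (ℕ × ℕ × ℕ)) : List (ℕ × ℕ × ℕ) :=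
  Nat.rec (motive := fun _ => List (ℕ × ℕ × ℕ)) [(e.1, e.2.1, eB e.1 e.2.1)]
    (fun j' _ => Nat.rec (motive := fun _ => List (ℕ × ℕ × ℕ))
      [(e.2.2.1, e.2.2.2, eB e.2.2.1 e.2.2.2)] (fun _ _ => C) j') j

/-- **all worlds with the shares `ts` and the first two rows `e`** -/
noncomputable def one (R n : ℕ) (e : ℕ × ℕ × ℕ × ℕ) (ts : List ℕ) : Bool := pkf R n (fe e) ts

end EnPr

section World

variable {ι : Type} {R n : ℕ} {t s h e : ℕ → ℤ} {E : ℕ → ℕ → ℤ} {U : Finset ι}
  {ho : ι → ℕ} {vl : ι → ℤ} {kp ms mr mn : ℕ → ι → ℤ} {mu Nb : ℕ → ℤ} {Nx : ℕ → ℕ → ℤ}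
  {be : ℕ → ℕ → ℤ} {ls : ℕ → ℤ → ℤ} {pc ar : ι → ℤ} {aT : ℕ → ℤ} {NN FF pw : ℕ → ℕ → ℤ}
  {nu : ℕ → ι → ℤ}

open Ld (Rw)

/-- **the world of a profile does not exist**, the candidates of every row selected -/
theorem ItC.enPrf (H : ItC (R : ℤ) n t s h e E U ho vl kp ms mr mu Nb Nx be ls pc ar aT NN FF pw nu)
    (L : LvI (R : ℤ) n t s h e U ho vl kp ms mr mn mu be pc ar) (hR : 2 ≤ R) (n5 : 5 ≤ n)
    (lex : ∀ i j, i ≤ j → j < n → t j < t i ∨ t j = t i ∧ (h j < h i ∨ h j = h i ∧ mu j ≤ mu i))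
    {f : ℕ → List (ℕ × ℕ × ℕ) → List (ℕ × ℕ × ℕ)}
    (hf : ∀ j < n, ∀ C : List (ℕ × ℕ × ℕ),
      ((h j).toNat, (mu j).toNat, EnPr.eB (h j).toNat (mu j).toNat) ∈ C →
      ((h j).toNat, (mu j).toNat, EnPr.eB (h j).toNat (mu j).toNat) ∈ f j C)
    (hT : EnPr.pkf R n f ((List.range n).map fun j => (t j).toNat) = true) : False := by
  obtain ⟨T, hTd⟩ : ∃ T : ℕ → ℕ, T = fun j => (t j).toNat := ⟨_, rfl⟩
  obtain ⟨x, hxd⟩ : ∃ x : ℕ → ℕ × ℕ × ℕ, x = fun j =>
    ((h j).toNat, (mu j).toNat, EnPr.eB (h j).toNat (mu j).toNat) := ⟨_, rfl⟩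
  have hTt : ∀ j < n, ((T j : ℕ) : ℤ) = t j := fun j hj => by
    rw [hTd]
    exact Int.toNat_of_nonneg (H.t0 j hj)
  have hxh : ∀ j < n, (((x j).1 : ℕ) : ℤ) = h j := fun j hj => by
    rw [hxd]
    exact Int.toNat_of_nonneg (H.h0 j hj)
  have hxm : ∀ j < n, (((x j).2.1 : ℕ) : ℤ) = mu j := fun j hj => by
    rw [hxd]
    exact Int.toNat_of_nonneg (H.mu0 hj)
  have hxB : ∀ j, (x j).2.2 = EnPr.eB (x j).1 (x j).2.1 := fun j => by rw [hxd]
  rw [← hTd] at hT
  obtain ⟨r, Cf, mxf, hr, hC, hpk⟩ := EnPr.pkf_eq R n T (by omega)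
  have h1 : EnPr.pkf R n f ((List.range n).map T) = true := hT
  rw [hpk] at h1
  rcases hm : Le.okM R ((List.range n).map r) with _ | _
  swap
  · rw [hm] at h1
    exact absurd h1 (by simp)
  rw [hm] at h1
  have hpw := Le.okM_spec hm
  rw [List.pairwise_map] at hpw
  have hok : ∀ i < n, ∀ j < n, i ≠ j →
      (r i).t * (r j).t + 10 ≤ 2 * R ∧ R + (r i).t * (r j).t + 1 ≤ ((r i).q + 1) * ((r j).q + 1) ∧
      (R ≤ (r i).t * (r j).t + 4 → (r i).t * (r j).t + 5
        ≤ R + Ld.isq ((r i).t * (r j).t + 1) * (Ld.isq ((r i).t * (r j).t + 1) - 1)) := by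
    have key : ∀ i < n, ∀ j < n, i < j → Le.okP R (r i) (r j) = false := by
      intro i hi j hj hij
      have h2 := List.pairwise_iff_getElem.1 hpw i j (by simpa using hi) (by simpa using hj) hij
      simpa using h2
    intro i hi j hj hij
    rcases lt_or_gt_of_ne hij with h2 | h2
    · exact Le.okP_spec (key i hi j hj h2)
    · have h3 := Le.okP_spec (key j hj i hi h2)
      rw [Nat.mul_comm (r i).t, Nat.mul_comm ((r i).q + 1)]
      exact h3
  -- the rows of the world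
  obtain ⟨r', hr'⟩ : ∃ r' : ℕ → Rw, r' = fun j => EnPr.wr (r j) (x j) := ⟨_, rfl⟩
  have hctx : ∀ L' : List Rw, L'.Perm ((List.range n).map r') →
      ∃ (m : ℕ → ℤ) (P K : ℕ → ℕ → ℕ) (N W : ℕ → ℕ → ℤ),
        Le.Ctx2 R n t s h e mu m P K N W r' L' := by
    intro L' hL'
    refine H.ctx2 L hR n5 (r := r') (fun j hj => ?_) (fun j hj => ?_) (fun j hj => ?_)
      (fun j hj => ?_) (fun j hj => ?_) (fun j hj => ?_) (fun j hj => ?_)
      (fun i hi j hj hij => ?_) hL'
    · rw [hr']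
      exact (hr j hj).1
    · rw [hr']
      show ((r j).t : ℤ) = t j
      rw [(hr j hj).2.1]
      exact hTt j hj
    · rw [hr']
      exact hxh j hj
    · rw [hr']
      exact hxm j hj
    · rw [hr']
      exact hxB j
    · rw [hr']
      show (r j).c = R - (r j).t
      rw [(hr j hj).2.1]
      exact (hr j hj).2.2.1
    · rw [hr']
      show (r j).g = R - (r j).t - (r j).q
      rw [(hr j hj).2.1]
      exact (hr j hj).2.2.2
    · rw [hr']
      exact hok i hi j hj hij
  -- the sums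
  have hsum : ∑ i ∈ range n, (x i).1 = ∑ i ∈ range n, T i + (n + 1) := by
    have e3 : ∑ i ∈ range n, h i = ∑ i ∈ range n, t i + (n + 1) := by
      rw [sum_congr rfl fun i hi => H.hh i (mem_range.1 hi), sum_add_distrib, sum_add_distrib,
        sum_const, card_range, nsmul_eq_mul, mul_one, H.ss]
      ring
    have e1 : ((∑ i ∈ range n, (x i).1 : ℕ) : ℤ) = ∑ i ∈ range n, h i := by
      push_cast
      exact sum_congr rfl fun i hi => hxh i (mem_range.1 hi)
    have e2 : ((∑ i ∈ range n, T i : ℕ) : ℤ) = ∑ i ∈ range n, t i := by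
      push_cast
      exact sum_congr rfl fun i hi => hTt i (mem_range.1 hi)
    have e4 : ((∑ i ∈ range n, (x i).1 : ℕ) : ℤ) = ((∑ i ∈ range n, T i + (n + 1) : ℕ) : ℤ) := by
      rw [e1, e3, Nat.cast_add, e2]
      push_cast
      ring
    exact_mod_cast e4
  -- the candidates
  have hcand : ∀ j < n, x j ∈ Cf j := by
    intro j hj
    obtain ⟨m, P, K, N, W, C⟩ := hctx _ (List.Perm.refl _)
    have hE := C.toCtx.en_spec (hi := Ld.cG R)
      (fun x hx z hz hxz => Ld.Ctx.cG_spec C.toCtx hx hz hxz) hj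
    have h2 := Le.rt_spec (a := 0) (b := 0) C hj hE (by omega) (by omega)
    have h3 : (x j).1 ≤ ∑ i ∈ range n, T i + (n + 1) := by
      rw [← hsum]
      exact single_le_sum (f := fun i => (x i).1) (fun _ _ => Nat.zero_le _) (mem_range.2 hj)
    have h4 : (x j).2.1 ≤ (x j).1 := by
      have h5 := H.muh j hj
      rw [← hxh j hj, ← hxm j hj] at h5
      exact_mod_cast h5
    have h5 := (hC j hj).1 (x j).1 h3 (x j).2.1 h4
    have h6 : ((x j).1, (x j).2.1, EnPr.eB (x j).1 (x j).2.1) = x j := by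
      rw [← hxB j]
    rw [h6] at h5
    refine h5 ?_
    have en1 : Ld.ns (Ld.cG R) ((List.range n).map r') (r' j)
        = Ld.ns (Ld.cG R) ((List.range n).map r) (r j) := by
      unfold Ld.ns
      rw [Ld.lsum_eq, Ld.lsum_eq, List.map_map, List.map_map, hr']
      rfl
    have en2 : Ld.nm (Ld.cG R) ((List.range n).map r') (r' j)
        = (x j).2.1 * EnPr.bm R ((List.range n).map r) (r j) := by
      unfold Ld.nm EnPr.bm
      rw [EnPr.lmax_map, EnPr.lmax_map, hr']
      rfl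
    rw [en1, en2] at h2
    -- the filter
    have ht3 : (r' j).t = (r j).t := by rw [hr']; rfl
    have hh3 : (r' j).h = (x j).1 := by rw [hr']; rfl
    have hB3 : (r' j).B = (x j).2.2 := by rw [hr']; rfl
    have h7 : 2 * R * (x j).1 ≤ (x j).2.2 + 2 * min (Ld.ns (Ld.cG R) ((List.range n).map r) (r j))
        ((x j).2.1 * EnPr.bm R ((List.range n).map r) (r j)) + 2 * R * ((r j).t + 1) := by
      unfold Le.rt at h2
      rcases h8 : Nat.ble (r' j).t (Nat.add (r' j).h 3) with _ | _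
      · have h9 : ¬ (r j).t ≤ (x j).1 + 3 := fun h10 => by
          rw [ht3, hh3, Nat.ble_eq_true_of_le (show (r j).t ≤ Nat.add (x j).1 3 from h10)] at h8
          exact absurd h8 (by simp)
        have h10 : 2 * R * (x j).1 ≤ 2 * R * ((r j).t + 1) := Nat.mul_le_mul_left _ (by omega)
        omega
      · rw [h8] at h2
        have h9 : Ld.frc (Nat.add 0 0) (fun j' => Nat.ble (Nat.add (Nat.add (Nat.mul 2 (Nat.add
            (Nat.mul R (r' j).h) (Nat.add (Nat.mul 0 (r' j).c) (Nat.mul 0 (r' j).g))))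
            (Nat.mul j' (Nat.add (Nat.mul 4 (r' j).t) 2))) (Le.tq n j'))
            (Nat.add (Ld.en (r' j) (Ld.ns (Ld.cG R) ((List.range n).map r) (r j))
              ((x j).2.1 * EnPr.bm R ((List.range n).map r) (r j)))
              (Nat.add (Nat.mul (Nat.mul 4 j') (Nat.add (r' j).h j'))
              (Nat.mul (Nat.mul 2 R) (Nat.succ (r' j).t))))) = true := h2
        rw [Ld.frc_eq] at h9
        have h10 := Nat.le_of_ble_eq_true h9
        have h11 : Ld.en (r' j) (Ld.ns (Ld.cG R) ((List.range n).map r) (r j))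
              ((x j).2.1 * EnPr.bm R ((List.range n).map r) (r j))
            = (x j).2.2 + 2 * min (Ld.ns (Ld.cG R) ((List.range n).map r) (r j))
              ((x j).2.1 * EnPr.bm R ((List.range n).map r) (r j)) := by
          unfold Ld.en
          rw [Ld.mi_eq, hB3]
          rfl
        rw [h11, ht3, hh3] at h10
        have h12 : 2 * (R * (x j).1 + (0 * (r' j).c + 0 * (r' j).g)) + 0 * (4 * (r j).t + 2)
            + Le.tq n 0 ≤ (x j).2.2 + 2 * min (Ld.ns (Ld.cG R) ((List.range n).map r) (r j))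
              ((x j).2.1 * EnPr.bm R ((List.range n).map r) (r j))
              + (4 * 0 * ((x j).1 + 0) + 2 * R * ((r j).t + 1)) := h10
        have h13 : 2 * (R * (x j).1) = 2 * R * (x j).1 := by ring
        omega
    have h14 := H.mup j hj
    have h15 := H.hh j hj
    rw [← hTt j hj, ← hxh j hj] at h15
    rw [← hxm j hj] at h14
    have h16 : (x j).1 ≤ T j ∨ 1 ≤ (x j).2.1 := by
      by_cases h20 : (x j).1 ≤ T j
      · exact Or.inl h20
      · right
        have h21 : 0 ≤ s j := by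
          have : T j + 1 ≤ (x j).1 := by omega
          have h22 : ((T j : ℤ)) + 1 ≤ (x j).1 := by exact_mod_cast this
          linarith
        have h22 := h14 h21
        exact_mod_cast h22
    unfold EnPr.ok
    have e1 : Bool.rec (motive := fun _ => Bool) (Nat.ble (x j).1 (r j).t) true
        (Nat.ble 1 (x j).2.1) = true := by
      rcases h20 : Nat.ble 1 (x j).2.1 with _ | _
      · rw [(hr j hj).2.1]
        refine Nat.ble_eq_true_of_le (h16.resolve_right fun h21 => ?_)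
        rw [Nat.ble_eq_true_of_le h21] at h20
        exact absurd h20 (by simp)
      · rfl
    rw [e1]
    show Nat.ble _ _ = true
    refine Nat.ble_eq_true_of_le ?_
    rw [Ld.mi_eq, ← hxB j]
    exact h7
  -- the enumeration
  obtain ⟨k, rfl⟩ : ∃ k, n = k + 1 := ⟨n - 1, by omega⟩
  obtain ⟨pv, hpv0, hpv⟩ : ∃ pv : ℕ → ℕ × ℕ × ℕ, pv 0 = ((r 0).t + 1, 0, 0) ∧
      ∀ j, pv (j + 1) = ((r j).t, (x j).1, (x j).2.1) :=
    ⟨fun j => Nat.rec ((r 0).t + 1, 0, 0) (fun i _ => ((r i).t, (x i).1, (x i).2.1)) j, rfl,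
      fun j => rfl⟩
  have hen : EnPr.en (EnPr.lf R (k + 1) (EnPs.t2 ((k + 1) * (k + 1)))) ((List.range' 0 (k + 1)).map fun j =>
      (r j, mxf (j + 1), f (r j).i (Cf j))) (∑ i ∈ range (k + 1), T i + (k + 1 + 1)) (pv 0).1
      (pv 0).2.1 (pv 0).2.2 [] = true := by
    rw [hpv0]
    exact h1
  have hcand' : ∀ j < k + 1, x j ∈ f (r j).i (Cf j) := by
    intro j hj
    have h2 := hf j hj (Cf j)
    rw [(hr j hj).1]
    have h3 := hcand j hj
    rw [hxd] at h3 ⊢
    exact h2 h3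
  have hfin := EnPr.en_spec (x := x) (pv := pv) (Cf := fun j => f (r j).i (Cf j)) (k + 1) 0 _ [] hen
    (fun j hj0 hj1 => by
      have hj : j < k + 1 := by omega
      refine ⟨hcand' j hj, ?_, ?_, hpv j⟩
      · have h2 := EnPr.mx_sum (x := fun i => (x i).1) (mxf := mxf) (k - j) (j + 1)
          fun i h3 h4 => (hC i (by omega)).2 _ (hcand i (by omega))
        have e1 : 0 + (k + 1) = j + 1 + (k - j) := by omega
        rw [e1]
        exact h2
      · rcases j with _ | j
        · rw [hpv0]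
          unfold EnPr.lx
          have e1 : Nat.beq (r 0).t ((r 0).t + 1) = false := by
            rcases h2 : Nat.beq (r 0).t ((r 0).t + 1) with _ | _
            · rfl
            · have := Nat.eq_of_beq_eq_true h2
              omega
          rw [e1]
        · rw [hpv]
          unfold EnPr.lx
          rcases h2 : Nat.beq (r (j + 1)).t (r j).t with _ | _
          · rfl
          have h3 := Nat.eq_of_beq_eq_true h2
          rw [(hr _ hj).2.1, (hr j (by omega)).2.1] at h3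
          have h4 := lex j (j + 1) (by omega) hj
          rw [← hTt j (by omega), ← hTt (j + 1) hj, ← hxh j (by omega), ← hxh (j + 1) hj,
            ← hxm j (by omega), ← hxm (j + 1) hj, h3] at h4
          have h5 : (x (j + 1)).1 < (x j).1 ∨ (x (j + 1)).1 = (x j).1 ∧
              (x (j + 1)).2.1 ≤ (x j).2.1 := by
            rcases h4 with h4 | ⟨-, h4 | ⟨h4, h5⟩⟩
            · exact absurd h4 (lt_irrefl _)
            · left
              exact_mod_cast h4
            · right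
              exact ⟨by exact_mod_cast h4, by exact_mod_cast h5⟩
          show Bool.rec (motive := fun _ => Bool) (Bool.rec (motive := fun _ => Bool) false
            (Nat.ble (x (j + 1)).2.1 (x j).2.1) (Nat.beq (x (j + 1)).1 (x j).1)) true
            (Nat.ble (Nat.succ (x (j + 1)).1) (x j).1) = true
          rcases h6 : Nat.ble (Nat.succ (x (j + 1)).1) (x j).1 with _ | _
          · rcases h5 with h5 | ⟨h5, h7⟩
            · rw [Nat.ble_eq_true_of_le (show Nat.succ (x (j + 1)).1 ≤ (x j).1 from h5)] at h6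
              exact absurd h6 (by simp)
            · have e1 : Nat.beq (x (j + 1)).1 (x j).1 = true := by
                rw [h5]
                exact Nat.beq_refl _
              rw [e1]
              exact Nat.ble_eq_true_of_le h7
          · rfl)
    (by
      rw [Nat.zero_add, ← range_eq_Ico]
      exact hsum)
  rw [List.append_nil] at hfin
  have hperm : (((List.range' 0 (k + 1)).map fun j => EnPr.wr (r j) (x j)).reverse.reverse).Perm
      ((List.range (k + 1)).map r') := by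
    rw [hr', List.range_eq_range', List.reverse_reverse]
  obtain ⟨m, P, K, N, W, C⟩ := hctx _ hperm
  exact EnPs.top_sound C rfl hfin

end World

/-- **the exceptions from the enumeration** -/
theorem NoNd.of_E {R K n a b : ℕ} (hR : 2 ≤ R) (n5 : 5 ≤ n) {E : List (ℕ × ℕ × ℕ × ℕ)}
    (h : ∀ e ∈ E, EnPr.lall (fun l => EnPr.one R n e (a :: b :: l))
      (EnPr.prof (n - 2) b (K - (n + 1) - a - b)) = true) :
    NoNd (R : ℤ) K n a b fun x y z w _ _ => BlkD.exF a b E x y z w := by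
  intro ι t s h0 e E' U ho vl kp ms mr mn mu Nb Nx be ls pc ar aT NN FF pw nu I L hh lex ha hb hp
  obtain ⟨m, rfl⟩ : ∃ m, n = m + 2 := ⟨n - 2, by omega⟩
  have ht0 : ∀ j < m + 2, (((t j).toNat : ℕ) : ℤ) = t j := fun j hj =>
    Int.toNat_of_nonneg (I.t0 j hj)
  have hp' : BlkD.exF a b E (h0 0).toNat (mu 0).toNat (h0 1).toNat (mu 1).toNat = true := hp
  rcases orb_true hp' with h1 | h1
  · obtain ⟨h2, h3⟩ := anb_true h1
    have h4 : a = b := Nat.eq_of_beq_eq_true h2
    have h5 := lex 0 1 (by norm_num) (by omega)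
    have h6 := I.h0 0 (by omega)
    have h7 := I.h0 1 (by omega)
    have h8 := I.mu0 (i := 0) (by omega)
    have h9 := I.mu0 (i := 1) (by omega)
    rcases orb_true h3 with h10 | h10
    · have h11 : (h0 0).toNat + 1 ≤ (h0 1).toNat := Nat.le_of_ble_eq_true h10
      omega
    · obtain ⟨h11, h12⟩ := anb_true h10
      have h13 : (h0 0).toNat = (h0 1).toNat := Nat.eq_of_beq_eq_true h11
      have h14 : (mu 0).toNat + 1 ≤ (mu 1).toNat := Nat.le_of_ble_eq_true h12
      omega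
  have hE := BlkD.mem4_sound h1
  have hl := h _ hE
  rw [EnPr.lall_iff] at hl
  have e1 : (List.range (m + 2)).map (fun j => (t j).toNat)
      = a :: b :: (List.range' 2 m).map fun j => (t j).toNat := by
    have e2 : (List.range (m + 2)).map (fun j => (t j).toNat)
        = (t 0).toNat :: (t 1).toNat :: (List.range' 2 m).map fun j => (t j).toNat := by
      rw [List.range_eq_range']
      rfl
    rw [e2, ha, hb, Int.toNat_natCast, Int.toNat_natCast]
  have h2 := hl ((List.range' 2 m).map fun j => (t j).toNat)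
    (EnPr.mem_prof (fun j => (t j).toNat) m 2 b _ (fun j h1 h2 => ?_) (fun h1 => ?_) ?_)
  · rw [← e1] at h2
    refine I.enPrf L hR n5 lex (f := EnPr.fe ((h0 0).toNat, (mu 0).toNat, (h0 1).toNat,
      (mu 1).toNat)) (fun j hj C hC => ?_) h2
    rcases j with _ | _ | j
    · exact List.mem_singleton.2 rfl
    · exact List.mem_singleton.2 rfl
    · exact hC
  · have := lex j (j + 1) (by omega) (by omega)
    show (t (j + 1)).toNat ≤ (t j).toNat
    omega
  · have := lex 1 2 (by omega) (by omega)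
    show (t 2).toNat ≤ b
    omega
  · have h1 := I.toItN.toBI.sum_t (M := K - (m + 2 + 1)) (K := K) hh (by omega)
    have h2 : ((∑ i ∈ range (m + 2), (t i).toNat : ℕ) : ℤ) = ∑ i ∈ range (m + 2), t i := by
      push_cast
      exact sum_congr rfl fun i hi => ht0 i (mem_range.1 hi)
    rw [← h2] at h1
    have h3 : ∑ i ∈ range (m + 2), (t i).toNat ≤ K - (m + 2 + 1) := by exact_mod_cast h1
    rw [range_eq_Ico, sum_eq_sum_Ico_succ_bot (by omega), sum_eq_sum_Ico_succ_bot (by omega)] at h3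
    have h4 : (t 0).toNat = a := by rw [ha, Int.toNat_natCast]
    have h5 : (t 1).toNat = b := by rw [hb, Int.toNat_natCast]
    have h6 : (t (0 + 1)).toNat = b := h5
    rw [h4, h6] at h3
    have e3 : 2 + m = m + 2 := by omega
    have e4 : Ico (0 + 1 + 1) (m + 2) = Ico 2 (2 + m) := by rw [e3]
    rw [e4] at h3
    show ∑ i ∈ Ico 2 (2 + m), (t i).toNat ≤ K - (m + 2 + 1) - a - b
    omega

end Pool.Agent.Lib.MP_f04ccf_co
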