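import Pool.Agent.Lib.MP_f04ccf_co.M.EnGC

/-!
MP_f04ccf_co, notes 17394, 17746: the energy of a home with the independence number.  A graph on `N`
vertices with chromatic number `p` and independence number at most `k + 1` has at least
`p (p - 1) / 2 + turC (N - p) k` edges, `turC m k = ∑_(i < m) i / k` (`E_tur`).  So
`PkOpt.energyTur`: `2 e + mu (mu + 1) + 2 turC (mu - g) (n - 1) ≤ 2 mu h + ∑ nxw`, `g` the number of PC
pairs of the home, `n` the number of rows.  `turC_q`: `2 q m ≤ 2 turC m k + k q (q + 1)`.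
-/

set_option autoImplicit false

namespace Pool.Agent.Lib.MP_f04ccf_co

open Finset

attribute [local instance] Classical.propDecidable

section TurC

/-- the least number of edges of a graph on `m` vertices with independence number at most `k` -/
def turC (m k : ℕ) : ℕ := ∑ i ∈ range m, i / k

lemma turC_succ (m k : ℕ) : turC (m + 1) k = turC m k + m / k := sum_range_succ _ _

lemma turC_zero (k : ℕ) : turC 0 k = 0 := by simp [turC]

/-- the linear form -/
lemma turC_q {k : ℕ} (hk : 1 ≤ k) : ∀ q m : ℕ, 2 * q * m ≤ 2 * turC m k + k * q * (q + 1) := by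
  intro q
  induction q with
  | zero => intro m; simp
  | succ q ih =>
    have h0 : ∀ m, m ≤ k * (q + 1) →
        2 * (q + 1) * m ≤ 2 * turC m k + k * (q + 1) * (q + 1 + 1) := by
      intro m hm
      have h1 := ih m
      nlinarith
    intro m
    rcases Nat.le_total m (k * (q + 1)) with h1 | h1
    · exact h0 m h1
    · induction m, h1 using Nat.le_induction with
      | base => exact h0 _ le_rfl
      | succ m hm ihm =>
        have h2 : q + 1 ≤ m / k := by
          rw [Nat.le_div_iff_mul_le hk]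
          nlinarith
        rw [turC_succ]
        nlinarith

end TurC

section Col

variable {V : Type*} (G : SimpleGraph V)

/-- `U` has a proper colouring with `p` colours -/
def Col (U : Finset V) (p : ℕ) : Prop :=
  ∃ f : V → ℕ, (∀ v ∈ U, f v < p) ∧ ∀ v ∈ U, ∀ w ∈ U, G.Adj v w → f v ≠ f w

variable {G}

lemma Col.mono {U U' : Finset V} {p p' : ℕ} (h : Col G U p) (hU : U' ⊆ U) (hp : p ≤ p') :
    Col G U' p' := by
  obtain ⟨f, h1, h2⟩ := h
  exact ⟨f, fun v hv => (h1 v (hU hv)).trans_le hp, fun v hv w hw => h2 v (hU hv) w (hU hw)⟩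

lemma Col.card_le {U : Finset V} {p a : ℕ} (h : Col G U p) (ha : AlphaLe G U a) :
    U.card ≤ p * a := by
  obtain ⟨f, h1, h2⟩ := h
  have h3 : U.card = ∑ c ∈ range p, (U.filter fun v => f v = c).card :=
    card_eq_sum_card_fiberwise fun v hv => by
      have := h1 v (by exact_mod_cast hv)
      simpa using this
  rw [h3]
  have h4 : ∑ c ∈ range p, (U.filter fun v => f v = c).card ≤ ∑ _c ∈ range p, a := by
    refine sum_le_sum fun c _ => ha _ (filter_subset _ _) ?_
    intro x hx y hy hxy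
    obtain ⟨hx1, hx2⟩ := mem_filter.1 hx
    obtain ⟨hy1, hy2⟩ := mem_filter.1 hy
    exact h2 x hx1 y hy1 hxy (hx2.trans hy2.symm)
  rwa [sum_const, card_range, smul_eq_mul] at h4

/-- one more colour for one more vertex -/
lemma Col.insert {U : Finset V} {v : V} {p : ℕ} (h : Col G (U.erase v) p) : Col G U (p + 1) := by
  obtain ⟨f, h1, h2⟩ := h
  refine ⟨fun w => if w = v then p else f w, fun w hw => ?_, fun w hw u hu hwu => ?_⟩
  · by_cases hwv : w = v
    · simp [hwv]
    · have := h1 w (mem_erase.2 ⟨hwv, hw⟩)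
      simp only [hwv, if_false]
      omega
  · by_cases hwv : w = v
    · have huv : u ≠ v := fun h => G.ne_of_adj hwu (hwv.trans h.symm)
      have := h1 u (mem_erase.2 ⟨huv, hu⟩)
      simp only [hwv, huv, if_true, if_false]
      omega
    · by_cases huv : u = v
      · have := h1 w (mem_erase.2 ⟨hwv, hw⟩)
        simp only [hwv, huv, if_true, if_false]
        omega
      · simp only [hwv, huv, if_false]
        exact h2 w (mem_erase.2 ⟨hwv, hw⟩) u (mem_erase.2 ⟨huv, hu⟩) hwu

/-- a vertex with few neighbours gets an old colour -/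
lemma Col.free {U : Finset V} {v : V} {p : ℕ} (h : Col G (U.erase v) p) (hd : dg G U v < p) :
    Col G U p := by
  obtain ⟨f, h1, h2⟩ := h
  obtain ⟨c, hc, hcf⟩ : ∃ c ∈ range p, c ∉ (U.filter fun w => G.Adj v w).image f := by
    by_contra hcon
    push Not at hcon
    have h3 := card_le_card (show range p ⊆ (U.filter fun w => G.Adj v w).image f from
      fun c hc => hcon c hc)
    rw [card_range] at h3
    have h4 : ((U.filter fun w => G.Adj v w).image f).card ≤ dg G U v := card_image_le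
    omega
  have hcp := mem_range.1 hc
  refine ⟨fun w => if w = v then c else f w, fun w hw => ?_, fun w hw u hu hwu => ?_⟩
  · by_cases hwv : w = v
    · simpa [hwv] using hcp
    · simpa [hwv] using h1 w (mem_erase.2 ⟨hwv, hw⟩)
  · by_cases hwv : w = v
    · have huv : u ≠ v := fun h => G.ne_of_adj hwu (hwv.trans h.symm)
      simp only [hwv, huv, if_true, if_false]
      intro he
      exact hcf (mem_image.2 ⟨u, mem_filter.2 ⟨hu, hwv ▸ hwu⟩, he.symm⟩)
    · by_cases huv : u = v
      · simp only [hwv, huv, if_true, if_false]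
        intro he
        exact hcf (mem_image.2 ⟨w, mem_filter.2 ⟨hw, huv ▸ hwu.symm⟩, he⟩)
      · simp only [hwv, huv, if_false]
        exact h2 w (mem_erase.2 ⟨hwv, hw⟩) u (mem_erase.2 ⟨huv, hu⟩) hwu

/-- **edges from the chromatic number and the independence number** -/
theorem E_tur {k : ℕ} (hk : 1 ≤ k) : ∀ (N : ℕ) (U : Finset V) (p : ℕ), U.card = N →
    AlphaLe G U (k + 1) → Col G U p → (∀ p' < p, ¬ Col G U p') →
    p * p + 2 * turC (U.card - p) k ≤ E G U + p := by
  intro N
  induction N with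
  | zero =>
    intro U p hU _ _ hmin
    obtain rfl : U = ∅ := card_eq_zero.1 hU
    have hp : p = 0 := by
      by_contra hp
      exact hmin 0 (by omega) ⟨fun _ => 0, by simp, by simp⟩
    subst hp
    simp [turC_zero]
  | succ N ih =>
    intro U p hU ha hc hmin
    have hne : U.Nonempty := card_pos.1 (by omega)
    obtain ⟨v, hv, hmax⟩ := exists_max_image U (fun v => dg G U v) hne
    have hp : 1 ≤ p := by
      obtain ⟨f, h1, -⟩ := hc
      have := h1 v hv
      omega
    have hE := E_erase G hv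
    have hcU : (U.erase v).card = N := by
      rw [card_erase_of_mem hv]
      omega
    by_cases hB : Col G (U.erase v) (p - 1)
    · have h1 := ih (U.erase v) (p - 1) hcU (ha.mono G (erase_subset _ _)) hB (by
        intro p' hp' hc'
        exact hmin (p' + 1) (by omega) hc'.insert)
      have h2 : p - 1 ≤ dg G U v := by
        by_contra hlt
        exact hmin (p - 1) (by omega) (hB.free (by omega))
      have h3 : (U.erase v).card - (p - 1) = U.card - p := by omega
      rw [h3] at h1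
      obtain ⟨q, rfl⟩ : ∃ q, p = q + 1 := ⟨p - 1, by omega⟩
      simp only [Nat.add_sub_cancel] at h1 h2
      nlinarith
    · have h1 := ih (U.erase v) p hcU (ha.mono G (erase_subset _ _))
        (hc.mono (erase_subset _ _) le_rfl) (by
          intro p' hp' hc'
          exact hB (hc'.mono (Subset.refl _) (by omega)))
      rcases Nat.lt_or_ge p U.card with hlt | hge
      · obtain ⟨m, hm⟩ : ∃ m, U.card = p + m + 1 := ⟨U.card - p - 1, by omega⟩
        have h2 : (U.erase v).card - p = m := by omega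
        have h3 : U.card - p = m + 1 := by omega
        rw [h2] at h1
        rw [h3, turC_succ]
        have h4 : m / k ≤ dg G U v := by
          by_contra hcon
          have h5 : (dg G U v + 1) * k ≤ m := by
            rw [← Nat.le_div_iff_mul_le hk]
            omega
          have h6 := E_lower_q G ((dg G U v : ℤ) + 1) (k + 1) U ha
          have h7 : E G U ≤ dg G U v * U.card := by
            have := sum_le_card_nsmul U (fun z => dg G U z) (dg G U v) (fun z hz => hmax z hz)
            rw [smul_eq_mul, mul_comm] at this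
            exact this
          have h8 : (E G U : ℤ) ≤ dg G U v * U.card := by exact_mod_cast h7
          have h9 : (U.card : ℤ) ≤ (k + 1) * (dg G U v + 1) := by
            push_cast at h6
            have h10 : (0 : ℤ) < (dg G U v : ℤ) + 2 := by positivity
            have h11 : ((dg G U v : ℤ) + 2) * U.card ≤
                ((dg G U v : ℤ) + 2) * ((k + 1) * (dg G U v + 1)) := by nlinarith
            exact le_of_mul_le_mul_left h11 h10
          have h10 := hc.card_le ha
          have h11 : U.card ≤ (k + 1) * (dg G U v + 1) := by exact_mod_cast h9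
          have h12 : p ≤ dg G U v := by nlinarith
          have h13 : p * k ≤ dg G U v * k := Nat.mul_le_mul_right k h12
          nlinarith
        omega
      · have h2 : U.card - p = 0 := by omega
        have h3 : (U.erase v).card - p = 0 := by omega
        rw [h3, turC_zero] at h1
        rw [h2, turC_zero]
        omega

end Col

section PkT

variable {V ι : Type*} {G : SimpleGraph V} {C H : Finset V} {tl : V → ι} {B : Finset (V × V)}
  {Ps : Finset (Finset V)}

/-- the parts colour the members outside the PC pairs -/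
lemma Pk.col (h : Pk G C H tl B Ps) : Col G (H \ B.image Prod.fst) Ps.card := by
  rw [h.union_eq]
  have hp : ∀ v : V, ∃ P : Finset V, ∀ Q ∈ Ps, v ∈ Q → P = Q := by
    intro v
    by_cases h1 : ∃ Q ∈ Ps, v ∈ Q
    · obtain ⟨Q, hQ, hv⟩ := h1
      exact ⟨Q, fun R hR hvR => h.part_eq hQ hR hv hvR⟩
    · exact ⟨∅, fun Q hQ hv => absurd ⟨Q, hQ, hv⟩ h1⟩
  choose p hp using hp
  refine ⟨fun v => if hv : p v ∈ Ps then (Ps.equivFin ⟨p v, hv⟩ : ℕ) else 0, fun v hv => ?_,
    fun v hv w hw hvw => ?_⟩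
  · obtain ⟨P, hP, hvP⟩ := mem_biUnion.1 hv
    have h1 : p v = P := hp v P hP hvP
    have h2 : p v ∈ Ps := h1 ▸ hP
    simp only [h2, dif_pos]
    exact (Ps.equivFin ⟨p v, h2⟩).2
  · obtain ⟨P, hP, hvP⟩ := mem_biUnion.1 hv
    obtain ⟨Q, hQ, hwQ⟩ := mem_biUnion.1 hw
    have h1 : p v = P := hp v P hP hvP
    have h2 : p w = Q := hp w Q hQ hwQ
    have h3 : p v ∈ Ps := h1 ▸ hP
    have h4 : p w ∈ Ps := h2 ▸ hQ
    simp only [h3, h4, dif_pos]
    intro he
    have h5 := Ps.equivFin.injective (Fin.ext he)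
    have h6 : p v = p w := congrArg Subtype.val h5
    have h7 : P = Q := h1.symm.trans (h6.trans h2)
    exact h.ind P hP v hvP w (h7 ▸ hwQ) hvw

/-- a colouring gives a packing -/
lemma Pk.of_col (h : Pk G C H tl B Ps) {q : ℕ} (hc : Col G (H \ B.image Prod.fst) q) :
    ∃ Ps', Pk G C H tl B Ps' ∧ Ps'.card ≤ q := by
  obtain ⟨f, h1, h2⟩ := hc
  set U : Finset V := H \ B.image Prod.fst with hU
  set Q : Finset (Finset V) := ((range q).image fun c => U.filter fun v => f v = c).filter
    fun P => P.Nonempty with hQ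
  have hmem : ∀ P ∈ Q, P.Nonempty ∧ ∃ c < q, P = U.filter fun v => f v = c := by
    intro P hP
    obtain ⟨h3, h4⟩ := mem_filter.1 hP
    obtain ⟨c, hc, rfl⟩ := mem_image.1 h3
    exact ⟨h4, c, mem_range.1 hc, rfl⟩
  refine ⟨Q, { h with ne := ?_, sub := ?_, ind := ?_, dis := ?_, dw := ?_, cov := ?_ },
    (card_filter_le _ _).trans (card_image_le.trans (card_range q).le)⟩
  · exact fun P hP => (hmem P hP).1
  · intro P hP
    obtain ⟨-, c, -, rfl⟩ := hmem P hP
    exact (filter_subset _ _).trans sdiff_subset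
  · intro P hP x hx y hy hxy
    obtain ⟨-, c, -, rfl⟩ := hmem P hP
    obtain ⟨hx1, hx2⟩ := mem_filter.1 hx
    obtain ⟨hy1, hy2⟩ := mem_filter.1 hy
    exact h2 x hx1 y hy1 hxy (hx2.trans hy2.symm)
  · intro P hP R hR hne
    obtain ⟨-, c, -, rfl⟩ := hmem P hP
    obtain ⟨-, d, -, rfl⟩ := hmem R hR
    rw [disjoint_left]
    intro x hx hx'
    obtain ⟨-, hx2⟩ := mem_filter.1 hx
    obtain ⟨-, hx4⟩ := mem_filter.1 hx'
    exact hne (by rw [← hx2, ← hx4])
  · intro e he P hP hev
    obtain ⟨-, c, -, rfl⟩ := hmem P hP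
    obtain ⟨hx1, -⟩ := mem_filter.1 hev
    exact (mem_sdiff.1 hx1).2 (mem_image_of_mem _ he)
  · intro v hv
    by_cases hvB : v ∈ B.image Prod.fst
    · left
      obtain ⟨e, he, hev⟩ := mem_image.1 hvB
      exact ⟨e, he, hev⟩
    · right
      have hvU : v ∈ U := mem_sdiff.2 ⟨hv, hvB⟩
      refine ⟨U.filter fun w => f w = f v, mem_filter.2 ⟨mem_image.2 ⟨f v, mem_range.2 (h1 v hvU),
        rfl⟩, ⟨v, mem_filter.2 ⟨hvU, rfl⟩⟩⟩, mem_filter.2 ⟨hvU, rfl⟩⟩

/-- **the edges outside the PC pairs** -/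
theorem Pk.E_partsT (h : Pk G C H tl B Ps)
    (hmin : ∀ B' Ps', Pk G C H tl B' Ps' → Ps.card ≤ Ps'.card) {k : ℕ} (hk : 1 ≤ k)
    (ha : AlphaLe G H (k + 1)) :
    Ps.card * Ps.card + 2 * turC ((H \ B.image Prod.fst).card - Ps.card) k
      ≤ E G (H \ B.image Prod.fst) + Ps.card := by
  refine E_tur hk _ _ _ rfl (ha.mono G sdiff_subset) h.col fun q hq hc => ?_
  obtain ⟨Ps', h1, h2⟩ := h.of_col hc
  have := hmin B Ps' h1
  omega

private lemma arithX {nH nh c X eU eW eH a1 a2 f g s1 s2 u d b : ℕ}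
    (h4 : (eH : ℤ) + nH = nh * (nh - 1)) (h5 : eU + 2 * d + eW = eH) (h6 : c * c + X ≤ eU + c)
    (h7 : a1 ≤ f + s1) (h8 : a2 ≤ g + s2) (h9 : s1 ≤ u) (h10 : 2 * s2 ≤ eW + b) (hD : u ≤ d) :
    ((nH + 2 * (a1 + a2) : ℕ) : ℤ) + c * (c - 1) + X ≤
      (nh : ℤ) * (nh - 1) + 2 * (f : ℤ) + 2 * (g : ℤ) + b := by
  have h16 : (c : ℤ) * (c - 1) = ((c * c : ℕ) : ℤ) - c := by push_cast; ring
  rw [← h4, h16]
  push_cast
  have h6' : ((c * c : ℕ) : ℤ) + X ≤ eU + c := by exact_mod_cast h6
  push_cast at h6'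
  zify at h5 h7 h8 h9 h10 hD
  linarith

/-- **the energy with any bound of the edges outside the PC pairs** -/
theorem Pk.energy_coreX (h : Pk G C H tl B Ps)
    (h32 : ∀ v ∈ H, ∀ w ∈ H, ∀ a ∈ C, v ≠ w → tl v = tl w →
      ¬ G.Adj v a → ¬ G.Adj w a → G.Adj v w) (hC : Clq G C) (hHC : Disjoint H C) {X : ℕ}
    (hX : Ps.card * Ps.card + X ≤ E G (H \ B.image Prod.fst) + Ps.card) :
    (NE G (H ∪ C) : ℤ) + Ps.card * (Ps.card - 1) + X
      ≤ (H.card : ℤ) * (H.card - 1) + 2 * ∑ v ∈ Nend G C H tl B, ((frC G C tl B v).card : ℤ)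
        + 2 * ∑ e ∈ B, (1 + (frC G C tl B e.1).card : ℤ) + bothB G tl B := by
  set W : Finset V := B.image Prod.fst with hW
  set U : Finset V := H \ W with hU
  set N : Finset V := Nend G C H tl B with hN
  have hWH : W ⊆ H := h.W_sub
  have hd : Disjoint U W := sdiff_disjoint
  have hUW : U ∪ W = H := sdiff_union_of_subset hWH
  have h1 := NE_union (G := G) hHC
  rw [NE_clq hC, nd_comm, add_zero] at h1
  have h2 : ∑ v ∈ H, nd G C v = ∑ v ∈ U, nd G C v + ∑ v ∈ W, nd G C v := by
    rw [← sum_union hd, hUW]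
  have himg : ∀ f : V → ℕ, ∑ v ∈ W, f v = ∑ e ∈ B, f e.1 := by
    intro f
    rw [hW, sum_image fun e he f hf hef =>
      h.b1 e (by exact_mod_cast he) f (by exact_mod_cast hf) hef]
  have h3 : ∑ v ∈ W, nd G C v = ∑ e ∈ B, nd G C e.1 := himg _
  have h4 := E_add_NE (G := G) H
  have h5 : E G U + 2 * ∑ e ∈ B, dg G U e.1 + E G W = E G H := by
    have h6 : E G H = ∑ v ∈ U, dg G (U ∪ W) v + ∑ v ∈ W, dg G (U ∪ W) v := by
      rw [← sum_union hd, hUW]
      rfl
    have h7 : ∀ v, dg G (U ∪ W) v = dg G U v + dg G W v := by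
      intro v
      unfold dg
      rw [filter_union, card_union_of_disjoint (disjoint_filter_filter hd)]
    have h8 : ∑ v ∈ W, dg G U v = ∑ v ∈ U, dg G W v := by
      have h9 := sum_card_bipartiteAbove_eq_sum_card_bipartiteBelow (s := W) (t := U)
        (fun a b => G.Adj a b)
      unfold dg
      simp only [bipartiteAbove, bipartiteBelow] at h9
      rw [h9]
      refine sum_congr rfl fun b _ => ?_
      congr 1
      ext a
      simp [G.adj_comm]
    rw [h6]
    simp only [h7, sum_add_distrib]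
    rw [← h8, himg]
    have h10 : E G U = ∑ v ∈ U, dg G U v := rfl
    have h11 : E G W = ∑ v ∈ W, dg G W v := rfl
    rw [h10, h11]
    ring
  have h7 : ∑ v ∈ U, nd G C v ≤ ∑ v ∈ U, (frC G C tl B v).card + ∑ v ∈ U, (usC G C tl B v).card := by
    rw [← sum_add_distrib]
    exact sum_le_sum fun v hv => nd_U hv
  have h8 : ∑ e ∈ B, nd G C e.1 ≤
      ∑ e ∈ B, (1 + (frC G C tl B e.1).card) + ∑ e ∈ B, (usC G C tl B e.1).card := by
    rw [← sum_add_distrib]
    exact sum_le_sum fun e he => h.nd_W he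
  have h9 := sum_usC (G := G) (C := C) (H := H) (tl := tl) (B := B)
  have h10 := h.sum_usC_W h32
  have hD : ∑ e ∈ B, uin G tl U e ≤ ∑ e ∈ B, dg G U e.1 :=
    sum_le_sum fun e he => h.uin_le h32 he
  rw [← hW, ← hU] at h9
  rw [← hW] at h10
  rw [sum_frC (H := H) (B := B) (G := G) (C := C) (tl := tl), ← hN] at h7
  have h11 : ((∑ v ∈ N, (frC G C tl B v).card : ℕ) : ℤ) = ∑ v ∈ N, ((frC G C tl B v).card : ℤ) := by
    push_cast; rfl
  have h12 : ((∑ e ∈ B, (1 + (frC G C tl B e.1).card) : ℕ) : ℤ) =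
      ∑ e ∈ B, (1 + (frC G C tl B e.1).card : ℤ) := by push_cast; rfl
  rw [← h11, ← h12, h1, h2, h3]
  exact arithX h4 h5 hX h7 h8 h9 h10 hD

end PkT

section EnT

variable {V : Type*} {G : SimpleGraph V} {Z T : Finset V} {hm : V → V} {r m n p : ℕ}
  {φ : Finset (V × V) → Finset (Finset V) → ℕ}
  {B : V → Finset (V × V)} {Ps : V → Finset (Finset V)}

/-- **the independence number of the members of a home is at most the number of rows** -/
lemma WHom.alpha_hz (h : WHom G Z T r m n hm) {x : V} (hx : x ∈ T) :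
    AlphaLe G (hz G Z T hm x) n := by
  intro J hJ hJi
  have hF := h.F.toPFrame
  -- the tails
  set Y : Finset V := insert x (J.image fun v => tlo G T hm v) with hY
  have hYT : Y ⊆ T := by
    intro y hy
    rcases mem_insert.1 hy with rfl | hy
    · exact hx
    · obtain ⟨v, hv, rfl⟩ := mem_image.1 hy
      exact mem_of_mem_erase (h.ht x hx v (hJ hv))
  have hends : ∀ v ∈ J, v ∈ Z ∧ v ∉ T ∧ ends G T v ⊆ Y := by
    intro v hv
    obtain ⟨h1, h2⟩ := h.csys.ends_of_tlo h.hh hx (hJ hv) rfl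
    have h3 : v ∈ Z := (mem_filter.1 (mem_HP.1 (hJ hv)).1).1
    refine ⟨h3, fun h4 => ?_, ?_⟩
    · have h5 : (ends G T v).card = 2 := by rw [h2, card_pair h1]
      rw [card_ends] at h5
      have h6 : dg G T v = 0 := by
        unfold dg
        rw [card_eq_zero, filter_eq_empty_iff]
        exact fun y hy hvy => hF.ind v h4 y hy hvy
      omega
    · rw [h2]
      intro y hy
      rcases mem_insert.1 hy with rfl | hy
      · exact mem_insert_self _ _
      · rw [mem_singleton.1 hy]
        exact mem_insert_of_mem (mem_image_of_mem _ hv)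
  have hd : Disjoint J (T \ Y) := by
    rw [disjoint_left]
    exact fun v hv hv' => (hends v hv).2.1 (mem_sdiff.1 hv').1
  have hI : Ind G (J ∪ (T \ Y)) := by
    intro v hv w hw hvw
    rcases mem_union.1 hv with hv | hv <;> rcases mem_union.1 hw with hw | hw
    · exact hJi v hv w hw hvw
    · obtain ⟨h1, h2⟩ := mem_sdiff.1 hw
      exact h2 ((hends v hv).2.2 (mem_ends.2 ⟨h1, hvw⟩))
    · obtain ⟨h1, h2⟩ := mem_sdiff.1 hv
      exact h2 ((hends w hw).2.2 (mem_ends.2 ⟨h1, hvw.symm⟩))
    · exact hF.ind v (mem_sdiff.1 hv).1 w (mem_sdiff.1 hw).1 hvw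
  have h1 := hF.alpha _ (union_subset (fun v hv => (hends v hv).1)
    (sdiff_subset.trans hF.sub)) hI
  rw [card_union_of_disjoint hd, card_sdiff_of_subset hYT, hF.cardT] at h1
  have h2 := card_le_card hYT
  rw [hF.cardT] at h2
  omega

/-- **the energy with the independence number** (version [C]) -/
theorem PkOpt.energyTur (h : WHom G Z T r m n hm) {x : V} (hx : x ∈ T)
    (hB : ∀ x ∈ T, PkOpt G (cz G Z T hm x) (hz G Z T hm x) (tlo G T hm) φ (B x) (Ps x)) :
    2 * eI G hm Z x + (∑ u ∈ pkf (B x) (Ps x), (ivl u : ℤ))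
        * (∑ u ∈ pkf (B x) (Ps x), (ivl u : ℤ) + 1)
        + 2 * (turC ((hz G Z T hm x).card - (B x).card - (Ps x).card) (n - 1) : ℕ)
      ≤ 2 * ((∑ u ∈ pkf (B x) (Ps x), (ivl u : ℤ)) * hI G Z T hm Z x)
        + ∑ z ∈ T.erase x, nxw G Z T hm B x z := by
  set C : Finset V := cz G Z T hm x with hCd
  set H : Finset V := hz G Z T hm x with hHd
  have hF := h.F.toPFrame
  have hpk := hB x hx
  have hCH : Disjoint H C := (h.csys.dCH hx hx).symm
  have h32 := h.csys.h32 hF h.hh h.ht hx
  have h5n := h.five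
  have hα : AlphaLe G H (n - 1 + 1) := by
    have : n - 1 + 1 = n := by omega
    rw [this]
    exact h.alpha_hz hx
  have hpt := hpk.toPk.E_partsT hpk.min (k := n - 1) (by omega) hα
  have h1 := hpk.toPk.energy_coreX h32 (h.csys.CP_clq hF hx) hCH hpt
  have h2 := hpk.toPk.sum_ivl
  have h3 : ∑ u ∈ pkf (B x) (Ps x), (ivl u : ℤ) + (Ps x).card = (H.card : ℤ) := by
    exact_mod_cast h2
  have h5 := two_eI (G := G) (hm := hm) Z x
  have h0 : Nend G C H (tlo G T hm) (B x) = ∅ := hpk.frC_zero
  have h10 : H ∪ C = Z.filter fun v => hm v = x := by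
    rw [union_comm]
    exact CP_union_HP
  have hcW : (H \ (B x).image Prod.fst).card = H.card - (B x).card := by
    rw [card_sdiff_of_subset hpk.toPk.W_sub, hpk.toPk.card_W]
  rw [hcW] at h1
  -- the tails
  have ht : ∀ e ∈ B x, tlo G T hm e.1 ∈ T.erase x := fun e he => h.ht x hx _ (hpk.bH e he)
  have h6 : 2 * ∑ e ∈ B x, (1 + ((frC G C (tlo G T hm) (B x) e.1).card : ℤ))
      + bothB G (tlo G T hm) (B x) ≤ ∑ z ∈ T.erase x, nxw G Z T hm B x z := by
    have h7 : ∑ e ∈ B x, (1 + ((frC G C (tlo G T hm) (B x) e.1).card : ℤ))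
        = ∑ z ∈ T.erase x, ∑ e ∈ pcs (tlo G T hm) (B x) z,
          (1 + ((frC G C (tlo G T hm) (B x) e.1).card : ℤ)) := by
      rw [← sum_fiberwise_of_maps_to (g := fun e : V × V => tlo G T hm e.1) (fun e he => ht e he)]
      rfl
    have h8 := bothB_split (G := G) ht
    rw [h7, h8, mul_sum, Nat.cast_sum, ← sum_add_distrib]
    exact sum_le_sum fun z hz' => h.nbc_le_nxw (fun x hx => (hB x hx).toPk) hx z
  rw [h10, h0] at h1
  rw [h5]
  have h9 : hI G Z T hm Z x = (H.card : ℤ) := rfl
  rw [h9, ← h3]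
  rw [← h3] at h1
  set μ : ℤ := ∑ u ∈ pkf (B x) (Ps x), (ivl u : ℤ) with hμ
  simp only [sum_empty, mul_zero, add_zero] at h1
  push_cast at h1
  nlinarith

end EnT

end Pool.Agent.Lib.MP_f04ccf_co
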