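import Pool.Agent.Lib.MP_f04ccf_co.M.EnXY
import Pool.Agent.Lib.MP_f04ccf_co.M.EnKon

/-!
MP_f04ccf_co, TEXT D: **the energy of the sub-slot with three kinds of tails over the row indices** (version [C]).

* `dpcI`: the dropped PC pairs as items (free ones of the tails `X`, all of the tails `Y`); `card_dpc`;
* `kqw`, `ssw`: the number of free PC pairs, of single parts, of a tail; `WItC.ssw_sum`;
* `WItC.enXY`: the energy, in the form of the hypothesis `EN` of `WCoreK.rowgD1`, `WCoreK.rowtD1`.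
-/

set_option autoImplicit false

namespace Pool.Agent.Lib.MP_f04ccf_co

open Finset

attribute [local instance] Classical.propDecidable

section Defs

variable {ι : Type*}

/-- the number of the kept items of the host `i` which are not PC pairs and have an end `l` -/
noncomputable def endK (U : Finset ι) (ho : ι → ℕ) (kp : ℕ → ι → ℤ) (pc : ι → ℤ) (i : ℕ)
    (D : Finset ι) (l : ℕ) : ℤ :=
  ((U.filter fun u => ho u = i ∧ u ∉ D ∧ pc u = 0 ∧ kp l u ≠ 0).card : ℤ)

end Defs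

section Dpc

variable {V : Type*} {G : SimpleGraph V} {C H : Finset V} {tl : V → V}
  {Q : Finset (V × V)} {Pt : Finset (Finset V)} {X Y : Finset V}

/-- the dropped PC pairs, as items: the free ones of the tails `X`, all of the tails `Y` -/
noncomputable def dpcI (G : SimpleGraph V) (C : Finset V) (tl : V → V) (Q : Finset (V × V))
    (X Y : Finset V) : Finset (Itm V) :=
  (((konQ G C tl Q).filter fun e => tl e.1 ∈ X) ∪ Q.filter fun e => tl e.1 ∈ Y).map
    ⟨fun e => (Sum.inr e : Itm V), Sum.inr_injective⟩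

lemma inr_mem_dpc {e : V × V} : (Sum.inr e : Itm V) ∈ dpcI G C tl Q X Y
    ↔ e ∈ Q ∧ ((tl e.1 ∈ X ∧ e ∈ konQ G C tl Q) ∨ tl e.1 ∈ Y) := by
  unfold dpcI
  rw [mem_map]
  constructor
  · rintro ⟨f, hf, h1⟩
    have h2 : f = e := Sum.inr_injective h1
    subst h2
    rcases mem_union.1 hf with h3 | h3
    · obtain ⟨h4, h5⟩ := mem_filter.1 h3
      exact ⟨konQ_sub h4, Or.inl ⟨h5, h4⟩⟩
    · obtain ⟨h4, h5⟩ := mem_filter.1 h3
      exact ⟨h4, Or.inr h5⟩
  · rintro ⟨h1, ⟨h2, h3⟩ | h2⟩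
    · exact ⟨e, mem_union_left _ (mem_filter.2 ⟨h3, h2⟩), rfl⟩
    · exact ⟨e, mem_union_right _ (mem_filter.2 ⟨h1, h2⟩), rfl⟩

lemma dpc_ipc {u : Itm V} (hu : u ∈ dpcI G C tl Q X Y) : ipc u = 1 ∧ ivl u = 1 := by
  obtain ⟨e, -, rfl⟩ := mem_map.1 hu
  exact ⟨rfl, rfl⟩

lemma dpc_sub : dpcI G C tl Q X Y ⊆ pkf Q Pt := by
  intro u hu
  obtain ⟨e, -, rfl⟩ := mem_map.1 hu
  exact inr_mem_pkf.2 (inr_mem_dpc.1 hu).1

/-- **the kept PC pairs** -/
lemma keepXY_dpc (hXY : Disjoint X Y) {D : Finset (Itm V)} (hD : ∀ u ∈ D, ipc u = 0) :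
    KeepXY G C tl Q (kpB Q (dpcI G C tl Q X Y ∪ D)) X Y := by
  have h0 : ∀ e, (Sum.inr e : Itm V) ∉ D := fun e he => by
    have h1 := hD _ he
    simp [ipc] at h1
  have h1 : ∀ e, e ∈ kpB Q (dpcI G C tl Q X Y ∪ D)
      ↔ e ∈ Q ∧ ¬ ((tl e.1 ∈ X ∧ e ∈ konQ G C tl Q) ∨ tl e.1 ∈ Y) := by
    intro e
    rw [mem_kpB, mem_union, inr_mem_dpc]
    have h2 := h0 e
    tauto
  refine ⟨kpB_sub, fun e he hX => ?_, fun e he hY h2 => ?_, fun e he hX hY => ?_⟩
  · rw [h1]
    have h2 : tl e.1 ∉ Y := fun h3 => disjoint_left.1 hXY hX h3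
    tauto
  · exact ((h1 e).1 h2).2 (Or.inr hY)
  · rw [h1]
    exact ⟨he, fun h2 => h2.elim (fun h3 => hX h3.1) hY⟩

private lemma card_fil_tl {F : Finset (V × V)} {L : Finset V} :
    (F.filter fun e => tl e.1 ∈ L).card = ∑ l ∈ L, (pcs tl F l).card := by
  have h1 : ∀ e ∈ F.filter (fun e => tl e.1 ∈ L), tl e.1 ∈ L := fun e he => (mem_filter.1 he).2
  rw [card_eq_sum_card_fiberwise h1]
  refine sum_congr rfl fun l hl => ?_
  congr 1
  ext e
  rw [mem_filter, mem_filter, mem_pcs]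
  constructor
  · rintro ⟨⟨a, -⟩, b⟩
    exact ⟨a, b⟩
  · rintro ⟨a, b⟩
    exact ⟨⟨a, b.symm ▸ hl⟩, b⟩

/-- the number of the dropped PC pairs -/
lemma sum_dpc (hXY : Disjoint X Y) :
    ((dpcI G C tl Q X Y).card : ℤ)
      = ∑ l ∈ X, ((pcs tl (konQ G C tl Q) l).card : ℤ) + ∑ l ∈ Y, ((pcs tl Q l).card : ℤ) := by
  unfold dpcI
  rw [card_map, card_union_of_disjoint]
  · have h1 : ((konQ G C tl Q).filter fun e => tl e.1 ∈ X).card
        = ∑ l ∈ X, (pcs tl (konQ G C tl Q) l).card := card_fil_tl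
    have h2 : (Q.filter fun e => tl e.1 ∈ Y).card = ∑ l ∈ Y, (pcs tl Q l).card := card_fil_tl
    rw [h1, h2]
    push_cast
    rfl
  · rw [disjoint_left]
    intro e he he'
    exact disjoint_left.1 hXY (mem_filter.1 he).2 (mem_filter.1 he').2

end Dpc

section Index

variable {V : Type*} {G : SimpleGraph V} {Z T : Finset V} {hm : V → V} {r m n p : ℕ}
  {φ : Finset (V × V) → Finset (Finset V) → ℕ} {B : V → Finset (V × V)}
  {Ps : V → Finset (Finset V)} {host : Itm V → V} {ρ : V → ℕ} {σ : ℕ → V}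

variable (G Z T hm) in
/-- the number of free (Konig) PC pairs of `x` with tail `l` -/
noncomputable def kqw (B : V → Finset (V × V)) (x l : V) : ℤ :=
  ((pcs (tlo G T hm) (konQ G (cz G Z T hm x) (tlo G T hm) (B x)) l).card : ℤ)

variable (G T hm) in
/-- the number of single parts of `x` with tail `l` -/
noncomputable def ssw (Ps : V → Finset (Finset V)) (x l : V) : ℤ :=
  (((Ps x).filter fun P => P.card < 2 ∧ ∃ v ∈ P, tlo G T hm v = l).card : ℤ)

lemma kqw_nonneg (x l : V) : 0 ≤ kqw G Z T hm B x l := Int.natCast_nonneg _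

lemma ssw_nonneg (x l : V) : 0 ≤ ssw G T hm Ps x l := Int.natCast_nonneg _

lemma kqw_le (x l : V) : kqw G Z T hm B x l ≤ pcn (tlo G T hm) B x l := by
  unfold kqw pcn
  have h1 : pcs (tlo G T hm) (konQ G (cz G Z T hm x) (tlo G T hm) (B x)) l
      ⊆ pcs (tlo G T hm) (B x) l := fun e he =>
    mem_pcs.2 ⟨konQ_sub (mem_pcs.1 he).1, (mem_pcs.1 he).2⟩
  exact_mod_cast card_le_card h1

/-- the pairs which are not free -/
lemma card_blk (x l : V) :
    ((pcs (tlo G T hm) (B x \ konQ G (cz G Z T hm x) (tlo G T hm) (B x)) l).card : ℤ)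
      = pcn (tlo G T hm) B x l - kqw G Z T hm B x l := by
  unfold kqw pcn
  have h1 : pcs (tlo G T hm) (B x \ konQ G (cz G Z T hm x) (tlo G T hm) (B x)) l
      = pcs (tlo G T hm) (B x) l
        \ pcs (tlo G T hm) (konQ G (cz G Z T hm x) (tlo G T hm) (B x)) l := by
    ext e
    rw [mem_sdiff, mem_pcs, mem_pcs, mem_pcs, mem_sdiff]
    tauto
  have h2 : pcs (tlo G T hm) (konQ G (cz G Z T hm x) (tlo G T hm) (B x)) l
      ⊆ pcs (tlo G T hm) (B x) l := fun e he =>
    mem_pcs.2 ⟨konQ_sub (mem_pcs.1 he).1, (mem_pcs.1 he).2⟩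
  have h3 := card_sdiff_add_card_eq_card h2
  rw [h1]
  push_cast [← h3]
  ring

/-- **the number of single parts**: with the plain items at most the number of parts -/
lemma WItC.ssw_sum (h : WCoreK G Z T r m n p hm) (H : WItC G Z T hm r n φ B Ps host ρ σ)
    {i : ℕ} (hi : i < n) :
    ∑ l ∈ range n, ssw G T hm Ps (σ i) (σ l)
      + (((T.biUnion fun x => pkf (B x) (Ps x)).filter fun u =>
        ρ (host u) = i ∧ (ipc u : ℤ) = 0).card : ℤ)
      ≤ tI G Z T hm r Z (σ i) + 1 - (∑ u ∈ pkf (B (σ i)) (Ps (σ i)), (ivl u : ℤ)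
        - sI hm r Z (σ i)) := by
  have hcard := h.toWHom.cardT
  have hmem : ∀ i < n, σ i ∈ T := fun i hi => H.rk.mem i (by rw [hcard]; exact hi)
  have hpk := H.pk _ (hmem i hi)
  have h1 := sum_single_parts (tl := tlo G T hm) (Ps := Ps (σ i)) ((range n).image σ)
  rw [sum_image fun a ha b hb hab => H.rk.sinj (by rw [hcard]; exact mem_range.1 ha)
    (by rw [hcard]; exact mem_range.1 hb) hab] at h1
  have h2 : ((T.biUnion fun x => pkf (B x) (Ps x)).filter fun u =>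
        ρ (host u) = i ∧ (ipc u : ℤ) = 0).card ≤ ((Ps (σ i)).filter fun P => 2 ≤ P.card).card := by
    have hfil : (T.biUnion fun x => pkf (B x) (Ps x)).filter (fun u => ρ (host u) = i)
      = pkf (B (σ i)) (Ps (σ i)) := fil_host H.hst H.rk (by rw [hcard]; exact hi)
    have h3 : (T.biUnion fun x => pkf (B x) (Ps x)).filter (fun u =>
        ρ (host u) = i ∧ (ipc u : ℤ) = 0)
        = (pkf (B (σ i)) (Ps (σ i))).filter fun u => (ipc u : ℤ) = 0 := by
      rw [← hfil, filter_filter]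
    rw [h3]
    refine card_le_card_of_injOn (fun u => u.elim id fun _ => ∅) ?_ ?_
    · intro u hu
      obtain ⟨h4, h5⟩ := mem_filter.1 (mem_coe.1 hu)
      rcases u with P | e
      · obtain ⟨h6, h7⟩ := inl_mem_pkf.1 h4
        exact mem_coe.2 (mem_filter.2 ⟨h6, h7⟩)
      · simp [ipc] at h5
    · intro u hu v hv huv
      obtain ⟨h4, h5⟩ := mem_filter.1 (mem_coe.1 hu)
      obtain ⟨h6, h7⟩ := mem_filter.1 (mem_coe.1 hv)
      rcases u with P | e
      · rcases v with P' | e'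
        · have h8 : P = P' := huv
          rw [h8]
        · simp [ipc] at h7
      · simp [ipc] at h5
  have h3 := hpk.toPk.sum_ivl
  have h4 := hI_eq (G := G) (Z := Z) (T := T) (hm := hm) (r := r) Z (σ i)
  have h5 := hpk.toPk.union_eq
  have h6 : ∑ u ∈ pkf (B (σ i)) (Ps (σ i)), (ivl u : ℤ) + ((Ps (σ i)).card : ℤ)
      = ((hz G Z T hm (σ i)).card : ℤ) := by exact_mod_cast h3
  have h7 : hI G Z T hm Z (σ i) = ((hz G Z T hm (σ i)).card : ℤ) := rfl
  have h8 : ∑ l ∈ range n, ssw G T hm Ps (σ i) (σ l)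
      = ((∑ l ∈ range n, ((Ps (σ i)).filter fun P => P.card < 2
        ∧ ∃ v ∈ P, tlo G T hm v = σ l).card : ℕ) : ℤ) := by
    push_cast
    rfl
  rw [h8]
  have h9 : ((∑ l ∈ range n, ((Ps (σ i)).filter fun P => P.card < 2
        ∧ ∃ v ∈ P, tlo G T hm v = σ l).card : ℕ) : ℤ)
      + (((Ps (σ i)).filter fun P => 2 ≤ P.card).card : ℤ) ≤ ((Ps (σ i)).card : ℤ) := by
    exact_mod_cast h1
  have h10 : (((T.biUnion fun x => pkf (B x) (Ps x)).filter fun u =>
        ρ (host u) = i ∧ (ipc u : ℤ) = 0).card : ℤ)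
      ≤ (((Ps (σ i)).filter fun P => 2 ≤ P.card).card : ℤ) := by exact_mod_cast h2
  linarith

/-- **the energy of the sub-slot over the row indices**: tails in `X`: the free PC pairs are dropped; tails in `Y`:
all PC pairs; the plain items `D'` are dropped; `L` contains the other tails `/= y` -/
theorem WItC.enXY (h : WCoreK G Z T r m n p hm) (H : WItC G Z T hm r n φ B Ps host ρ σ)
    {i : ℕ} (hi : i < n) (y : V) {X Y L : Finset ℕ} (hX : X ⊆ range n) (hY : Y ⊆ range n)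
    (hXY : Disjoint X Y) (hLr : L ⊆ range n)
    (hL : ∀ l ∈ (range n).erase i, σ l ≠ y → l ∉ X → l ∉ Y → l ∈ L)
    {D' D : Finset (Itm V)} (hD' : D' ⊆ pkf (B (σ i)) (Ps (σ i))) (hpc : ∀ u ∈ D', ipc u = 0)
    (hD : D = dpcI G (cz G Z T hm (σ i)) (tlo G T hm) (B (σ i)) (X.image σ) (Y.image σ) ∪ D')
    {M q : ℤ}
    (hM : M = ∑ u ∈ pkf (B (σ i)) (Ps (σ i)), (ivl u : ℤ)
      - ∑ l ∈ X, kqw G Z T hm B (σ i) (σ l) - ∑ l ∈ Y, pcn (tlo G T hm) B (σ i) (σ l)
      - ∑ u ∈ D', (ivl u : ℤ))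
    (hq : q = ∑ l ∈ X, kqw G Z T hm B (σ i) (σ l) + ∑ l ∈ Y, pcn (tlo G T hm) B (σ i) (σ l)
      + ∑ u ∈ D', ((ivl u : ℤ) + 1)) :
    D ⊆ pkf (B (σ i)) (Ps (σ i)) ∧ ∑ u ∈ D, ((ivl u : ℤ) + 1 - (ipc u : ℤ)) = q ∧
    2 * eI G hm (Z \ D.biUnion imem) (σ i) + M * (M + 1)
        + ∑ l ∈ range n, fllK n (T.biUnion fun x => pkf (B x) (Ps x)) (fun u => ρ (host u))
          (fun i u => (ikp (tlo G T hm) (σ i) u : ℤ)) (fun u => (ipc u : ℤ)) i D' l
          * (fllK n (T.biUnion fun x => pkf (B x) (Ps x)) (fun u => ρ (host u))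
            (fun i u => (ikp (tlo G T hm) (σ i) u : ℤ)) (fun u => (ipc u : ℤ)) i D' l - 1)
        + E G ((pcs (tlo G T hm) (kpB (B (σ i)) D) y).image Prod.fst)
      ≤ 2 * (M * (sI hm r Z (σ i) + tI G Z T hm r Z (σ i) + 1 - q))
        + (∑ l ∈ X, (pcn (tlo G T hm) B (σ i) (σ l) - kqw G Z T hm B (σ i) (σ l))
            * (pcn (tlo G T hm) B (σ i) (σ l) - kqw G Z T hm B (σ i) (σ l) + 1)
          + ∑ l ∈ L, nxw G Z T hm B (σ i) (σ l)
          + 2 * ∑ l ∈ Y, (pcn (tlo G T hm) B (σ i) (σ l) - kqw G Z T hm B (σ i) (σ l))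
            * (ssw G T hm Ps (σ i) (σ l)
              + endK (T.biUnion fun x => pkf (B x) (Ps x)) (fun u => ρ (host u))
                (fun i u => (ikp (tlo G T hm) (σ i) u : ℤ)) (fun u => (ipc u : ℤ)) i D' l))
        + 2 * ∑ e ∈ pcs (tlo G T hm) (kpB (B (σ i)) D) y,
          (nd G (cz G Z T hm (σ i)) e.1 : ℤ) := by
  have hcard := h.toWHom.cardT
  have hmem : ∀ i < n, σ i ∈ T := fun i hi => H.rk.mem i (by rw [hcard]; exact hi)
  have hinj : ∀ a ∈ range n, ∀ b ∈ range n, σ a = σ b → a = b := fun a ha b hb hab =>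
    H.rk.sinj (by rw [hcard]; exact mem_range.1 ha) (by rw [hcard]; exact mem_range.1 hb) hab
  have hpk := H.pk _ (hmem i hi)
  have hsX : ∀ f : V → ℤ, ∑ l ∈ X.image σ, f l = ∑ l ∈ X, f (σ l) := fun f =>
    sum_image fun a ha b hb hab => hinj a (hX ha) b (hX hb) hab
  have hsY : ∀ f : V → ℤ, ∑ l ∈ Y.image σ, f l = ∑ l ∈ Y, f (σ l) := fun f =>
    sum_image fun a ha b hb hab => hinj a (hY ha) b (hY hb) hab
  have hsL : ∀ f : V → ℤ, ∑ l ∈ L.image σ, f l = ∑ l ∈ L, f (σ l) := fun f =>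
    sum_image fun a ha b hb hab => hinj a (hLr ha) b (hLr hb) hab
  have hXY' : Disjoint (X.image σ) (Y.image σ) := by
    rw [disjoint_left]
    intro v hv hv'
    obtain ⟨a, ha, rfl⟩ := mem_image.1 hv
    obtain ⟨b, hb, hab⟩ := mem_image.1 hv'
    exact disjoint_left.1 hXY ha (hinj b (hY hb) a (hX ha) hab ▸ hb)
  have hk := keepXY_dpc (G := G) (C := cz G Z T hm (σ i)) (tl := tlo G T hm) (Q := B (σ i)) hXY'
    hpc
  rw [← hD] at hk
  have hDs : D ⊆ pkf (B (σ i)) (Ps (σ i)) := by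
    rw [hD]
    exact union_subset dpc_sub hD'
  have hdis : Disjoint (dpcI G (cz G Z T hm (σ i)) (tlo G T hm) (B (σ i)) (X.image σ)
      (Y.image σ)) D' := by
    rw [disjoint_left]
    intro u hu hu'
    have h1 := (dpc_ipc hu).1
    have h2 := hpc u hu'
    omega
  obtain ⟨c, hc⟩ : ∃ c : ℤ, c = ((dpcI G (cz G Z T hm (σ i)) (tlo G T hm) (B (σ i)) (X.image σ)
      (Y.image σ)).card : ℤ) := ⟨_, rfl⟩
  have hcs : c = ∑ l ∈ X, kqw G Z T hm B (σ i) (σ l)
      + ∑ l ∈ Y, pcn (tlo G T hm) B (σ i) (σ l) := by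
    rw [hc, sum_dpc hXY', ← hsX, ← hsY]
    rfl
  have hsD : ∀ f : Itm V → ℤ, (∀ u, ipc u = 1 → ivl u = 1 → f u = 1) →
      ∑ u ∈ D, f u = c + ∑ u ∈ D', f u := by
    intro f hf
    rw [hD, sum_union hdis]
    congr 1
    rw [hc, card_eq_sum_ones, Nat.cast_sum]
    exact sum_congr rfl fun u hu => by
      rw [hf u (dpc_ipc hu).1 (dpc_ipc hu).2]
      rfl
  have h1 := hsD (fun u => (ivl u : ℤ)) fun u _ h2 => by rw [h2]; rfl
  have h2 := hsD (fun u => (ivl u : ℤ) + 1 - (ipc u : ℤ)) fun u h2 h3 => by rw [h2, h3]; rfl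
  have h3 : ∑ u ∈ D', ((ivl u : ℤ) + 1 - (ipc u : ℤ)) = ∑ u ∈ D', ((ivl u : ℤ) + 1) :=
    sum_congr rfl fun u hu => by
      rw [hpc u hu]
      push_cast
      ring
  have h4 : ∑ u ∈ pkf (B (σ i)) (Ps (σ i)) \ D, (ivl u : ℤ) = M := by
    have h5 := sum_sdiff hDs (f := fun u => (ivl u : ℤ))
    beta_reduce at h1 h5
    rw [h1] at h5
    linarith
  have h5 : ∑ u ∈ D, ((ivl u : ℤ) + 1 - (ipc u : ℤ)) = q := by
    rw [hq, h2, h3, hcs]
  refine ⟨hDs, h5, ?_⟩
  have h32 := h.toWHom.csys.h32 h.F.toPFrame h.hh h.toWHom.ht (hmem i hi)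
  have hMn := hpk.toPk.E_partsM hpk.min h32 (h.toWHom.h33 (hmem i hi))
    (kpP_sub (Ps := Ps (σ i)) (D := D)) ((range n).image σ)
  have h6 := PkOpt.energyXY h.toWHom y (hmem i hi) H.pk hk (kpP_sub (Ps := Ps (σ i)) (D := D))
    (empty_subset _ : (∅ : Finset V) ⊆ cz G Z T hm (σ i)) (L := L.image σ) (hA := hMn)
    (hL := fun e he hy hx => by
      have h7 := h.toWHom.ht _ (hmem i hi) e.1 (hpk.toPk.bH e (hk.sub he))
      have h8 := mem_of_mem_erase h7
      have h9 := H.rk.left _ h8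
      have h10 := H.rk.lt _ h8
      rw [hcard] at h10
      refine mem_image.2 ⟨ρ (tlo G T hm e.1), hL _ (mem_erase.2 ⟨fun h11 => ?_,
        mem_range.2 h10⟩) (by rw [h9]; exact hy) (fun h11 => hx ?_) (fun h11 => ?_), h9⟩
      · exact ne_of_mem_erase h7 (by rw [← h9, h11])
      · exact mem_image.2 ⟨_, h11, h9⟩
      · exact hk.y e (hk.sub he) (mem_image.2 ⟨_, h11, h9⟩) he)
  rw [keepX_kp hpk.toPk hDs ∅, union_empty, sdiff_empty, pkf_kp, h4, hsX, hsY, hsL] at h6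
  have h7 := hpk.toPk.card_kp hDs
  have h8 : ((keepH (kpB (B (σ i)) D) (kpP (Ps (σ i)) D)).card : ℤ)
      = hI G Z T hm Z (σ i) - ∑ u ∈ D, ((ivl u : ℤ) + 1 - (ipc u : ℤ)) := h7
  have h9 := hI_eq (G := G) (Z := Z) (T := T) (hm := hm) (r := r) Z (σ i)
  have h10 : sI hm r Z (σ i) + tI G Z T hm r Z (σ i) + 1 - q
      = ((keepH (kpB (B (σ i)) D) (kpP (Ps (σ i)) D)).card : ℤ) := by
    rw [h8, h5, h9]
    ring
  rw [h10]
  have h11 : ∀ l, ((pcs (tlo G T hm) (B (σ i)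
      \ konQ G (cz G Z T hm (σ i)) (tlo G T hm) (B (σ i))) l).card : ℤ)
      = pcn (tlo G T hm) B (σ i) l - kqw G Z T hm B (σ i) l := fun l => card_blk _ _
  simp only [h11] at h6
  have h12 : ∑ l ∈ Y, (pcn (tlo G T hm) B (σ i) (σ l) - kqw G Z T hm B (σ i) (σ l))
            * ((tlP (tlo G T hm) (kpP (Ps (σ i)) D) (σ l)).card : ℤ)
      ≤ ∑ l ∈ Y, (pcn (tlo G T hm) B (σ i) (σ l) - kqw G Z T hm B (σ i) (σ l))
            * (ssw G T hm Ps (σ i) (σ l)
              + endK (T.biUnion fun x => pkf (B x) (Ps x)) (fun u => ρ (host u))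
                (fun i u => (ikp (tlo G T hm) (σ i) u : ℤ)) (fun u => (ipc u : ℤ)) i D' l) := by
    refine sum_le_sum fun l _ => mul_le_mul_of_nonneg_left ?_ ?_
    · have h13 := card_tailP (tl := tlo G T hm) (B := B (σ i)) (Ps := Ps (σ i)) (D := D) (σ l)
      have h15 : ((tlP (tlo G T hm) (kpP (Ps (σ i)) D) (σ l)).card : ℤ)
          ≤ (((pkf (B (σ i)) (Ps (σ i)) \ D).filter fun u =>
            ipc u = 0 ∧ ikp (tlo G T hm) (σ l) u ≠ 0).card : ℤ)
            + ssw G T hm Ps (σ i) (σ l) := by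
        unfold ssw
        exact_mod_cast h13
      have h16 : (((pkf (B (σ i)) (Ps (σ i)) \ D).filter fun u =>
            ipc u = 0 ∧ ikp (tlo G T hm) (σ l) u ≠ 0).card : ℤ)
          ≤ endK (T.biUnion fun x => pkf (B x) (Ps x)) (fun u => ρ (host u))
            (fun i u => (ikp (tlo G T hm) (σ i) u : ℤ)) (fun u => (ipc u : ℤ)) i D' l := by
        unfold endK
        refine Nat.cast_le.2 (card_le_card fun u hu => ?_)
        obtain ⟨h15, h16, h17⟩ := mem_filter.1 hu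
        obtain ⟨h18, h19⟩ := mem_sdiff.1 h15
        refine (@mem_filter _ _ (_) _ _).2 ⟨mem_biUnion.2 ⟨_, hmem i hi, h18⟩, ?_,
          fun h20 => h19 ?_, ?_, ?_⟩
        · show ρ (host u) = i
          rw [H.hst _ (hmem i hi) u h18]
          exact H.rk.right i (by rw [hcard]; exact hi)
        · rw [hD]
          exact mem_union_right _ h20
        · show (ipc u : ℤ) = 0
          exact_mod_cast h16
        · show (ikp (tlo G T hm) (σ l) u : ℤ) ≠ 0
          exact_mod_cast h17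
      linarith
    · have h13 := kqw_le (G := G) (Z := Z) (T := T) (hm := hm) (B := B) (σ i) (σ l)
      linarith
  -- the full items
  have hfil : (T.biUnion fun x => pkf (B x) (Ps x)).filter (fun u => ρ (host u) = i)
      = pkf (B (σ i)) (Ps (σ i)) := fil_host H.hst H.rk (by rw [hcard]; exact hi)
  have e2 : ∑ l ∈ range n, fllK n (T.biUnion fun x => pkf (B x) (Ps x)) (fun u => ρ (host u))
        (fun i u => (ikp (tlo G T hm) (σ i) u : ℤ)) (fun u => (ipc u : ℤ)) i D' l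
        * (fllK n (T.biUnion fun x => pkf (B x) (Ps x)) (fun u => ρ (host u))
          (fun i u => (ikp (tlo G T hm) (σ i) u : ℤ)) (fun u => (ipc u : ℤ)) i D' l - 1)
      ≤ ((∑ y ∈ (range n).image σ, (fullT (tlo G T hm) (kpP (Ps (σ i)) D) y).card
        * ((fullT (tlo G T hm) (kpP (Ps (σ i)) D) y).card - 1) : ℕ) : ℤ) := by
    rw [sum_image fun a ha b hb h2 => hinj a ha b hb h2]
    push_cast
    refine sum_le_sum fun l hl => ?_
    have hln : l < n := mem_range.1 hl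
    obtain ⟨k, hk'⟩ : ∃ k : ℕ, fllK n (T.biUnion fun x => pkf (B x) (Ps x)) (fun u => ρ (host u))
        (fun i u => (ikp (tlo G T hm) (σ i) u : ℤ)) (fun u => (ipc u : ℤ)) i D' l = k := ⟨_, rfl⟩
    have h3 : (k : ℤ) ≤ (fullT (tlo G T hm) (kpP (Ps (σ i)) D) (σ l)).card := by
      rw [← hk']
      unfold fllK
      rw [← card_image_of_injective (fullT (tlo G T hm) (kpP (Ps (σ i)) D) (σ l))
        (Sum.inl_injective (β := V × V))]
      refine Nat.cast_le.2 (card_le_card fun u hu => ?_)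
      obtain ⟨h3, h4, h5, h6, h7⟩ := (@mem_filter _ _ (_) _ _).1 hu
      beta_reduce at h4 h6 h7
      have h8 : u ∈ pkf (B (σ i)) (Ps (σ i)) := by
        rw [← hfil]
        exact mem_filter.2 ⟨h3, h4⟩
      rcases u with P | e
      · obtain ⟨h9, h10⟩ := inl_mem_pkf.1 h8
        refine mem_image_of_mem _ (mem_fullT.2 ⟨mem_kpP.2 ⟨h9, fun h5' => ?_⟩, h10,
          fun v hv => ?_⟩)
        · rw [hD] at h5'
          rcases mem_union.1 h5' with h11 | h11
          · have h12 := (dpc_ipc h11).1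
            simp [ipc] at h12
          · exact h5 h11
        · have h11 := h.toWHom.ht _ (hmem i hi) v (hpk.toPk.sub P h9 hv)
          have h12 := mem_of_mem_erase h11
          have h13 := H.rk.left _ h12
          have h14 := H.rk.lt _ h12
          rw [hcard] at h14
          by_contra h15
          have h16 : ρ (tlo G T hm v) ≠ l := fun h17 => h15 (by rw [← h17, h13])
          have h17 := h7 _ h14 h16
          rw [h13] at h17
          exact ikp_of_tail h10 hv rfl (by exact_mod_cast h17)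
      · simp [ipc] at h6
    rw [hk']
    rcases Nat.eq_zero_or_pos k with h4 | h4
    · rw [h4]
      simp only [Nat.cast_zero, zero_mul]
      positivity
    · have h3' : k ≤ (fullT (tlo G T hm) (kpP (Ps (σ i)) D) (σ l)).card := by exact_mod_cast h3
      have h5 : 1 ≤ (fullT (tlo G T hm) (kpP (Ps (σ i)) D) (σ l)).card := by omega
      rw [Nat.cast_sub h5, Nat.cast_one]
      have h6 : (1 : ℤ) ≤ k := by exact_mod_cast h4
      nlinarith
  linarith

end Index

end Pool.Agent.Lib.MP_f04ccf_co
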