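import Pool.Agent.Lib.MP_f04ccf_co.M.Pack

/-!
MP_f04ccf_co, TEXT D (note 17758): the PC pairs with free arcs can be dropped for nothing.

`PkOpt.kon`: for an optimal packing `(B, Ps)` of `(H, C)` and any set `X` of tails there is `Q ⊆ B`, all
tails in `X`, such that `(B \ Q, Ps)` is an optimal packing of `H` without the members of `Q` (least
number of parts, most PC pairs), and every member `w` left with a tail in `X` misses only class points of
pairs of `B \ Q` with the tail of `w`.  So the slot without the members of `Q` has the same number of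
parts, the same class, and no free arcs in the tails of `X`.

`frk`: the copies which can be freed by switching pairs (`k` steps), `Pk.swap`: one switch; `konQ`: the free PC
pairs (a set which does not depend on `X`), `PkOpt.konX`: the explicit form.
-/

set_option autoImplicit false

namespace Pool.Agent.Lib.MP_f04ccf_co

open Finset

attribute [local instance] Classical.propDecidable

section Kon

variable {ι V : Type*} {G : SimpleGraph V} {C H : Finset V} {tl : V → ι}
  {B : Finset (V × V)} {Ps : Finset (Finset V)} {φ : Finset (V × V) → Finset (Finset V) → ℕ}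

/-- **one switch**: the pair `e` gets the class point `c`, whose copy is not used -/
theorem Pk.swap (h : Pk G C H tl B Ps) {e : V × V} (he : e ∈ B) {c : V} (hc : c ∈ C)
    (hn : ¬ G.Adj e.1 c) (hf : ∀ f ∈ B, f.2 = c → tl f.1 ≠ tl e.1) :
    Pk G C H tl (insert (e.1, c) (B.erase e)) Ps where
  bH := fun f hf' => by
    rcases mem_insert.1 hf' with rfl | h1
    · exact h.bH e he
    · exact h.bH f (mem_of_mem_erase h1)
  bC := fun f hf' => by
    rcases mem_insert.1 hf' with rfl | h1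
    · exact hc
    · exact h.bC f (mem_of_mem_erase h1)
  bN := fun f hf' => by
    rcases mem_insert.1 hf' with rfl | h1
    · exact hn
    · exact h.bN f (mem_of_mem_erase h1)
  b1 := fun f hf' g hg hfg => by
    rcases mem_insert.1 hf' with rfl | h1 <;> rcases mem_insert.1 hg with rfl | h2
    · rfl
    · exact absurd (h.b1 g (mem_of_mem_erase h2) e he hfg.symm) (mem_erase.1 h2).1
    · exact absurd (h.b1 f (mem_of_mem_erase h1) e he hfg) (mem_erase.1 h1).1
    · exact h.b1 f (mem_of_mem_erase h1) g (mem_of_mem_erase h2) hfg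
  b2 := fun f hf' g hg hfg htl => by
    rcases mem_insert.1 hf' with rfl | h1 <;> rcases mem_insert.1 hg with rfl | h2
    · rfl
    · exact absurd htl.symm (hf g (mem_of_mem_erase h2) hfg.symm)
    · exact absurd htl (hf f (mem_of_mem_erase h1) hfg)
    · exact h.b2 f (mem_of_mem_erase h1) g (mem_of_mem_erase h2) hfg htl
  ne := h.ne
  sub := h.sub
  ind := h.ind
  dis := h.dis
  dw := fun f hf' P hP => by
    rcases mem_insert.1 hf' with rfl | h1
    · exact h.dw e he P hP
    · exact h.dw f (mem_of_mem_erase h1) P hP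
  cov := fun v hv => by
    rcases h.cov v hv with ⟨f, hf', h1⟩ | h1
    · by_cases h2 : f = e
      · exact Or.inl ⟨(e.1, c), mem_insert_self _ _, by rw [← h1, h2]⟩
      · exact Or.inl ⟨f, mem_insert_of_mem (mem_erase.2 ⟨h2, hf'⟩), h1⟩
    · exact Or.inr h1

lemma Pk.card_swap (h : Pk G C H tl B Ps) {e : V × V} (he : e ∈ B) {c : V}
    (hf : ∀ f ∈ B, f.2 = c → tl f.1 ≠ tl e.1) :
    (insert (e.1, c) (B.erase e)).card = B.card := by
  have h1 : (e.1, c) ∉ B.erase e := by
    intro h2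
    exact hf _ (mem_of_mem_erase h2) rfl rfl
  rw [card_insert_of_notMem h1, card_erase_add_one he]

variable (G C tl B) in
/-- the copies with tails in `X` which are free after at most `k` switches -/
def frk (X : ι → Prop) : ℕ → ι → V → Prop
  | 0 => fun x b => X x ∧ ∀ e ∈ B, e.2 = b → tl e.1 ≠ x
  | k + 1 => fun x b => frk X k x b
      ∨ ∃ e ∈ B, tl e.1 = x ∧ e.2 = b ∧ ∃ c ∈ C, frk X k x c ∧ ¬ G.Adj e.1 c

lemma frk_tail {X : ι → Prop} : ∀ {k : ℕ} {x : ι} {b : V}, frk G C tl B X k x b → X x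
  | 0, _, _, h => h.1
  | k + 1, x, b, h => by
    rcases h with h | ⟨e, he, h1, h2, c, hc, h3, h4⟩
    · exact frk_tail h
    · exact frk_tail h3

/-- **freeing a copy**: the same members, the same parts -/
theorem Pk.free (h : Pk G C H tl B Ps) {X : ι → Prop} : ∀ (k : ℕ) {x : ι} {b : V},
    frk G C tl B X k x b → ∃ B' : Finset (V × V), Pk G C H tl B' Ps ∧ B'.card = B.card ∧
      (∀ e ∈ B', e.2 = b → tl e.1 ≠ x) ∧
      ∀ e ∈ B, ¬ frk G C tl B X k (tl e.1) e.2 → e ∈ B' := by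
  intro k
  induction k with
  | zero =>
    intro x b hb
    exact ⟨B, h, rfl, hb.2, fun e he _ => he⟩
  | succ k ih =>
    intro x b hb
    by_cases hk : frk G C tl B X k x b
    · obtain ⟨B', h1, h2, h3, h4⟩ := ih hk
      exact ⟨B', h1, h2, h3, fun e he hn => h4 e he fun h5 => hn (Or.inl h5)⟩
    · rcases hb with hb | ⟨e, he, htl, he2, c, hc, hcf, hn⟩
      · exact absurd hb hk
      obtain ⟨B', h1, h2, h3, h4⟩ := ih hcf
      have heB : e ∈ B' := h4 e he (by rw [htl, he2]; exact hk)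
      have hfree : ∀ f ∈ B', f.2 = c → tl f.1 ≠ tl e.1 := by rw [htl]; exact h3
      have hcb : c ≠ b := fun h5 => hk (h5 ▸ hcf)
      refine ⟨insert (e.1, c) (B'.erase e), h1.swap heB hc hn hfree,
        (h1.card_swap heB hfree).trans h2, ?_, ?_⟩
      · intro f hf hfb hft
        rcases mem_insert.1 hf with rfl | hf
        · exact hcb hfb
        · obtain ⟨h5, h6⟩ := mem_erase.1 hf
          exact h5 (h1.b2 f h6 e heB (hfb.trans he2.symm) (hft.trans htl.symm))
      · intro f hf hnf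
        refine mem_insert_of_mem (mem_erase.2 ⟨?_, h4 f hf fun h5 => hnf (Or.inl h5)⟩)
        rintro rfl
        exact hnf (Or.inr ⟨f, hf, rfl, rfl, c, hc, htl ▸ hcf, hn⟩)

/-- a packing without some of its PC pairs -/
theorem Pk.sdiff (h : Pk G C H tl B Ps) {Q : Finset (V × V)} (hQ : Q ⊆ B) :
    Pk G C (H \ Q.image Prod.fst) tl (B \ Q) Ps where
  bH := fun e he => by
    obtain ⟨h1, h2⟩ := mem_sdiff.1 he
    refine mem_sdiff.2 ⟨h.bH e h1, fun h3 => ?_⟩
    obtain ⟨f, hf, h4⟩ := mem_image.1 h3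
    exact h2 (h.b1 f (hQ hf) e h1 h4 ▸ hf)
  bC := fun e he => h.bC e (mem_sdiff.1 he).1
  bN := fun e he => h.bN e (mem_sdiff.1 he).1
  b1 := fun e he f hf => h.b1 e (mem_sdiff.1 he).1 f (mem_sdiff.1 hf).1
  b2 := fun e he f hf => h.b2 e (mem_sdiff.1 he).1 f (mem_sdiff.1 hf).1
  ne := h.ne
  sub := fun P hP v hv => by
    refine mem_sdiff.2 ⟨h.sub P hP hv, fun h3 => ?_⟩
    obtain ⟨f, hf, h4⟩ := mem_image.1 h3
    exact h.dw f (hQ hf) P hP (h4 ▸ hv)
  ind := h.ind
  dis := h.dis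
  dw := fun e he => h.dw e (mem_sdiff.1 he).1
  cov := fun v hv => by
    obtain ⟨h1, h2⟩ := mem_sdiff.1 hv
    rcases h.cov v h1 with ⟨e, he, h3⟩ | h3
    · refine Or.inl ⟨e, mem_sdiff.2 ⟨he, fun h4 => h2 ?_⟩, h3⟩
      exact mem_image.2 ⟨e, h4, h3⟩
    · exact Or.inr h3

lemma frk_iff {X : ι → Prop} : ∀ {k : ℕ} {x : ι} {b : V},
    frk G C tl B X k x b ↔ X x ∧ frk G C tl B (fun _ => True) k x b
  | 0, x, b => by simp only [frk, true_and]
  | k + 1, x, b => by
    simp only [frk]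
    constructor
    · rintro (h | ⟨e, he, h1, h2, c, hc, h3, h4⟩)
      · exact ⟨(frk_iff.1 h).1, Or.inl (frk_iff.1 h).2⟩
      · exact ⟨(frk_iff.1 h3).1, Or.inr ⟨e, he, h1, h2, c, hc, (frk_iff.1 h3).2, h4⟩⟩
    · rintro ⟨hX, h | ⟨e, he, h1, h2, c, hc, h3, h4⟩⟩
      · exact Or.inl (frk_iff.2 ⟨hX, h⟩)
      · exact Or.inr ⟨e, he, h1, h2, c, hc, frk_iff.2 ⟨hX, h3⟩, h4⟩

variable (G C tl B) in
/-- **the free PC pairs**: those whose copy of the class point can be freed (the pair itself is switched away) -/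
noncomputable def konQ : Finset (V × V) :=
  B.filter fun e => ∃ k, frk G C tl B (fun _ => True) k (tl e.1) e.2

lemma konQ_sub : konQ G C tl B ⊆ B := filter_subset _ _

/-- **the free PC pairs can be dropped**: those with tails in any set `X` -/
theorem PkOpt.konX (h : PkOpt G C H tl φ B Ps) (X : ι → Prop) {Q : Finset (V × V)}
    (hQ' : Q = (konQ G C tl B).filter fun e => X (tl e.1)) :
    PkOpt G C (H \ Q.image Prod.fst) tl (fun _ _ => 0) (B \ Q) Ps ∧
    ∀ w ∈ H \ Q.image Prod.fst, X (tl w) → ∀ a ∈ C, ¬ G.Adj w a →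
      ∃ e ∈ B \ Q, e.2 = a ∧ tl e.1 = tl w := by
  have hQ : Q = B.filter fun e => ∃ k, frk G C tl B X k (tl e.1) e.2 := by
    rw [hQ', konQ]
    ext e
    simp only [mem_filter, frk_iff (X := X)]
    constructor
    · rintro ⟨⟨h1, k, h2⟩, h3⟩
      exact ⟨h1, k, h3, h2⟩
    · rintro ⟨h1, k, h3, h2⟩
      exact ⟨⟨h1, k, h2⟩, h3⟩
  clear hQ'
  have hQB : Q ⊆ B := hQ ▸ filter_subset _ _
  have hmem : ∀ e ∈ B, ∀ k, frk G C tl B X k (tl e.1) e.2 → e ∈ Q := fun e he k hk =>
    hQ ▸ mem_filter.2 ⟨he, k, hk⟩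
  have hb : ∀ w ∈ H \ Q.image Prod.fst, X (tl w) → ∀ a ∈ C, ¬ G.Adj w a →
      ∃ e ∈ B \ Q, e.2 = a ∧ tl e.1 = tl w := by
    intro w hw hX a ha hn
    obtain ⟨hwH, hwQ⟩ := mem_sdiff.1 hw
    have h1 : ∀ k, ¬ frk G C tl B X k (tl w) a := by
      intro k hk
      rcases h.cov w hwH with ⟨e, he, hew⟩ | ⟨P, hP, hwP⟩
      · refine hwQ (mem_image.2 ⟨e, hmem e he (k + 1) ?_, hew⟩)
        exact Or.inr ⟨e, he, rfl, rfl, a, ha, hew ▸ hk, hew ▸ hn⟩
      · obtain ⟨B', g1, g2, g3, -⟩ := h.toPk.free k hk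
        have g4 : PkOpt G C H tl (fun _ _ => 0) B' Ps :=
          ⟨g1, h.min, fun B'' Ps'' h5 h6 => g2 ▸ h.max B'' Ps'' h5 h6, fun _ _ _ _ _ => le_refl _⟩
        obtain ⟨e, he, h5, h6⟩ := g4.used hP hwP ha hn
        exact g3 e he h5 h6
    have h2 := h1 0
    simp only [frk, not_and, not_forall] at h2
    obtain ⟨e, he, h3, h4⟩ := h2 hX
    have h4' : tl e.1 = tl w := not_not.1 h4
    refine ⟨e, mem_sdiff.2 ⟨he, fun h5 => ?_⟩, h3, h4'⟩
    rw [hQ] at h5
    obtain ⟨-, k, hk⟩ := mem_filter.1 h5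
    rw [h3, h4'] at hk
    exact h1 k hk
  refine ⟨?_, hb⟩
  have hadd : ∀ B' Ps', Pk G C (H \ Q.image Prod.fst) tl B' Ps' → Disjoint B' Q ∧
      Pk G C H tl (B' ∪ Q) Ps' := by
    intro B' Ps' h'
    have hdis : ∀ e ∈ B', ∀ f ∈ Q, e.1 ≠ f.1 := fun e he f hf h1 =>
      (mem_sdiff.1 (h'.bH e he)).2 (mem_image.2 ⟨f, hf, h1.symm⟩)
    have hcp : ∀ e ∈ B', ∀ f ∈ Q, e.2 = f.2 → tl e.1 ≠ tl f.1 := by
      intro e he f hf h1 h2
      rw [hQ] at hf
      obtain ⟨hfB, k, hk⟩ := mem_filter.1 hf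
      rw [← hQ] at hf
      obtain ⟨g, hg, h3, h4⟩ := hb e.1 (h'.bH e he) (h2 ▸ frk_tail hk) e.2 (h'.bC e he) (h'.bN e he)
      obtain ⟨h5, h6⟩ := mem_sdiff.1 hg
      exact h6 (h.b2 g h5 f hfB (h3.trans h1) (h4.trans h2) ▸ hf)
    refine ⟨disjoint_left.2 fun e he he' => hdis e he e he' rfl, ?_, ?_, ?_, ?_, ?_, h'.ne, ?_,
      h'.ind, h'.dis, ?_, ?_⟩
    · intro e he
      rcases mem_union.1 he with he | he
      · exact (mem_sdiff.1 (h'.bH e he)).1
      · exact h.bH e (hQB he)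
    · intro e he
      rcases mem_union.1 he with he | he
      · exact h'.bC e he
      · exact h.bC e (hQB he)
    · intro e he
      rcases mem_union.1 he with he | he
      · exact h'.bN e he
      · exact h.bN e (hQB he)
    · intro e he f hf hef
      rcases mem_union.1 he with he | he <;> rcases mem_union.1 hf with hf | hf
      · exact h'.b1 e he f hf hef
      · exact absurd hef (hdis e he f hf)
      · exact absurd hef.symm (hdis f hf e he)
      · exact h.b1 e (hQB he) f (hQB hf) hef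
    · intro e he f hf hef htl
      rcases mem_union.1 he with he | he <;> rcases mem_union.1 hf with hf | hf
      · exact h'.b2 e he f hf hef htl
      · exact absurd htl (hcp e he f hf hef)
      · exact absurd htl.symm (hcp f hf e he hef.symm)
      · exact h.b2 e (hQB he) f (hQB hf) hef htl
    · exact fun P hP => (h'.sub P hP).trans sdiff_subset
    · intro e he P hP
      rcases mem_union.1 he with he | he
      · exact h'.dw e he P hP
      · exact fun h1 => (mem_sdiff.1 (h'.sub P hP h1)).2 (mem_image.2 ⟨e, he, rfl⟩)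
    · intro v hv
      by_cases h1 : v ∈ Q.image Prod.fst
      · obtain ⟨e, he, h2⟩ := mem_image.1 h1
        exact Or.inl ⟨e, mem_union_right _ he, h2⟩
      · rcases h'.cov v (mem_sdiff.2 ⟨hv, h1⟩) with ⟨e, he, h2⟩ | h2
        · exact Or.inl ⟨e, mem_union_left _ he, h2⟩
        · exact Or.inr h2
  refine ⟨h.toPk.sdiff hQB, fun B' Ps' h' => h.min _ _ (hadd B' Ps' h').2, fun B' Ps' h' hc => ?_,
    fun _ _ _ _ _ => le_refl _⟩
  obtain ⟨h1, h2⟩ := hadd B' Ps' h'
  have h3 := h.max _ _ h2 hc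
  rw [card_union_of_disjoint h1] at h3
  have h4 := card_sdiff_add_card_eq_card hQB
  omega

/-- **the PC pairs with free arcs can be dropped** -/
theorem PkOpt.kon (h : PkOpt G C H tl φ B Ps) (X : ι → Prop) : ∃ Q ⊆ B,
    (∀ e ∈ Q, X (tl e.1)) ∧
    PkOpt G C (H \ Q.image Prod.fst) tl (fun _ _ => 0) (B \ Q) Ps ∧
    ∀ w ∈ H \ Q.image Prod.fst, X (tl w) → ∀ a ∈ C, ¬ G.Adj w a →
      ∃ e ∈ B \ Q, e.2 = a ∧ tl e.1 = tl w :=
  ⟨(konQ G C tl B).filter fun e => X (tl e.1), (filter_subset _ _).trans konQ_sub,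
    fun _ he => (mem_filter.1 he).2, h.konX X rfl⟩

end Kon

end Pool.Agent.Lib.MP_f04ccf_co
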