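import Pool.Agent.Lib.MP_f04ccf_co.M.EnDK
import Pool.Agent.Lib.MP_f04ccf_co.M.Kon
import Pool.Agent.Lib.MP_f04ccf_co.M.EnM

/-!
MP_f04ccf_co, TEXT D: **the energy of the sub-slot with three kinds of tails** (version [C]).

* `WHom.energyRaw`: the energy of the sub-slot, raw form (any packing, any saving `A` among the kept parts);
* `PkOpt.losD_xy`: the unpaid arcs, only the pairs which are not free and whose tail is dropped as a whole;
* `PkOpt.energyXY`: tails in `X`: the free (Konig) pairs are dropped; tails in `Y`: all pairs are dropped, the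
  other tails are kept; the PC pairs of the tail `y` exactly; any saving `A` among the kept parts (35's
  `Pk.E_partsM`).
-/

set_option autoImplicit false

namespace Pool.Agent.Lib.MP_f04ccf_co

open Finset

attribute [local instance] Classical.propDecidable

section Home

variable {ι V : Type*} {G : SimpleGraph V} {C H : Finset V} {tl : V → ι}
  {B B1 : Finset (V × V)} {Ps P1 : Finset (Finset V)} {φ : Finset (V × V) → Finset (Finset V) → ℕ}

/-- **the kept PC pairs**: not the free ones of the tails `X`, none of the tails `Y`, all the others -/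
structure KeepXY (G : SimpleGraph V) (C : Finset V) (tl : V → ι) (B B1 : Finset (V × V))
    (X Y : Finset ι) : Prop where
  sub : B1 ⊆ B
  x : ∀ e ∈ B, tl e.1 ∈ X → (e ∈ B1 ↔ e ∉ konQ G C tl B)
  y : ∀ e ∈ B, tl e.1 ∈ Y → e ∉ B1
  o : ∀ e ∈ B, tl e.1 ∉ X → tl e.1 ∉ Y → e ∈ B1

/-- a kept member of a tail of `X` or `Y` misses only class points of pairs which are not free -/
lemma PkOpt.keep_miss (h : PkOpt G C H tl φ B Ps) {X Y : Finset ι}
    (hk : KeepXY G C tl B B1 X Y) (hP1 : P1 ⊆ Ps) {w : V}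
    (hw : w ∈ P1.biUnion id ∪ B1.image Prod.fst) (hwt : tl w ∈ X ∨ tl w ∈ Y) {a : V} (ha : a ∈ C)
    (hn : ¬ G.Adj w a) : ∃ e ∈ B, e ∉ konQ G C tl B ∧ e.2 = a ∧ tl e.1 = tl w := by
  obtain ⟨Q, hQd⟩ : ∃ Q, Q = (konQ G C tl B).filter fun e => tl e.1 ∈ X ∨ tl e.1 ∈ Y := ⟨_, rfl⟩
  have h1 := h.konX (fun l => l ∈ X ∨ l ∈ Y) (Q := Q) (by
    rw [hQd]
    ext e
    simp only [mem_filter])
  have hwH : w ∈ H \ Q.image Prod.fst := by
    rcases mem_union.1 hw with h2 | h2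
    · obtain ⟨P, hP, hwP⟩ := mem_biUnion.1 h2
      refine mem_sdiff.2 ⟨h.sub P (hP1 hP) hwP, fun h3 => ?_⟩
      obtain ⟨e, he, hew⟩ := mem_image.1 h3
      rw [hQd] at he
      exact h.dw e (konQ_sub (mem_filter.1 he).1) P (hP1 hP) (hew ▸ hwP)
    · obtain ⟨f, hf, hfw⟩ := mem_image.1 h2
      have hfB := hk.sub hf
      refine mem_sdiff.2 ⟨hfw ▸ h.bH f hfB, fun h3 => ?_⟩
      obtain ⟨e, he, hew⟩ := mem_image.1 h3
      rw [hQd] at he
      obtain ⟨he1, he2⟩ := mem_filter.1 he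
      have h4 : e = f := h.b1 e (konQ_sub he1) f hfB (hew.trans hfw.symm)
      subst h4
      rcases he2 with h5 | h5
      · exact (hk.x e hfB h5).1 hf he1
      · exact hk.y e hfB h5 hf
  obtain ⟨e, he, h2, h3⟩ := h1.2 w hwH hwt a ha hn
  obtain ⟨he1, he2⟩ := mem_sdiff.1 he
  refine ⟨e, he1, fun h4 => he2 ?_, h2, h3⟩
  rw [hQd]
  exact mem_filter.2 ⟨h4, by rw [h3]; exact hwt⟩

/-- **the unpaid arcs**: only the pairs of the tails `Y` which are not free, at most one for every kept part with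
a member of the tail -/
lemma PkOpt.losD_xy (h : PkOpt G C H tl φ B Ps)
    (h32 : ∀ v ∈ H, ∀ w ∈ H, ∀ a ∈ C, v ≠ w → tl v = tl w →
      ¬ G.Adj v a → ¬ G.Adj w a → G.Adj v w) {X Y : Finset ι}
    (hk : KeepXY G C tl B B1 X Y) (hP1 : P1 ⊆ Ps) {C1 : Finset V} (hC1 : C1 ⊆ C) (y : ι) :
    losD G tl C1 B B1 (P1.biUnion id ∪ (B1 \ pcs tl B1 y).image Prod.fst)
      ≤ ∑ l ∈ Y, (pcs tl (B \ konQ G C tl B) l).card * (tlP tl P1 l).card := by
  -- the members which miss the class point of a dropped pair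
  have hW : ∀ v ∈ P1.biUnion id ∪ (B1 \ pcs tl B1 y).image Prod.fst,
      v ∈ P1.biUnion id ∪ B1.image Prod.fst := by
    intro v hv
    rcases mem_union.1 hv with h1 | h1
    · exact mem_union_left _ h1
    · exact mem_union_right _ (image_subset_image sdiff_subset h1)
  have hdr : ∀ e ∈ B \ B1, tl e.1 ∈ X ∨ tl e.1 ∈ Y := by
    intro e he
    obtain ⟨h1, h2⟩ := mem_sdiff.1 he
    by_contra h3
    rw [not_or] at h3
    exact h2 (hk.o e h1 h3.1 h3.2)
  have hmiss : ∀ e ∈ (B \ B1).filter (fun e => e.2 ∈ C1),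
      ∀ v ∈ (P1.biUnion id ∪ (B1 \ pcs tl B1 y).image Prod.fst).filter
        (fun v => tl v = tl e.1 ∧ ¬ G.Adj v e.2), e ∉ konQ G C tl B ∧ tl e.1 ∈ Y
          ∧ v ∈ P1.biUnion id := by
    intro e he v hv
    obtain ⟨he1, he2⟩ := mem_filter.1 he
    obtain ⟨h3, h4, h5⟩ := mem_filter.1 hv
    have h6 := hdr e he1
    obtain ⟨f, hf, h7, h8, h9⟩ := h.keep_miss hk hP1 (hW v h3) (by rw [h4]; exact h6)
      (hC1 he2) h5
    have h10 : f = e := h.b2 f hf e (mem_sdiff.1 he1).1 h8 (h9.trans h4)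
    subst h10
    have h11 : tl f.1 ∈ Y := by
      rcases h6 with h6 | h6
      · exact absurd ((hk.x f hf h6).2 h7) (mem_sdiff.1 he1).2
      · exact h6
    refine ⟨h7, h11, ?_⟩
    rcases mem_union.1 h3 with h12 | h12
    · exact h12
    · obtain ⟨g, hg, rfl⟩ := mem_image.1 h12
      have h13 := (mem_sdiff.1 hg).1
      exact absurd h13 (hk.y g (hk.sub h13) (h4 ▸ h11))
  have h1 : ∀ e ∈ (B \ B1).filter (fun e => e.2 ∈ C1),
      ((P1.biUnion id ∪ (B1 \ pcs tl B1 y).image Prod.fst).filter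
        fun v => tl v = tl e.1 ∧ ¬ G.Adj v e.2).card
      ≤ if e ∉ konQ G C tl B ∧ tl e.1 ∈ Y then (tlP tl P1 (tl e.1)).card else 0 := by
    intro e he
    split_ifs with h0
    · have h2 : ∀ v ∈ (P1.biUnion id ∪ (B1 \ pcs tl B1 y).image Prod.fst).filter
            (fun v => tl v = tl e.1 ∧ ¬ G.Adj v e.2), ∃ P ∈ P1, v ∈ P := by
        intro v hv
        obtain ⟨P, hP, hvP⟩ := mem_biUnion.1 (hmiss e he v hv).2.2
        exact ⟨P, hP, hvP⟩
      choose! g hg1 hg2 using h2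
      refine card_le_card_of_injOn g ?_ ?_
      · intro v hv
        have hv' := mem_coe.1 hv
        exact mem_coe.2 (mem_filter.2 ⟨hg1 v hv', v, hg2 v hv', (mem_filter.1 hv').2.1⟩)
      · intro v hv w hw hvw
        have hv' := mem_coe.1 hv
        have hw' := mem_coe.1 hw
        by_contra hne
        obtain ⟨-, h3, h4⟩ := mem_filter.1 hv'
        obtain ⟨-, h5, h6⟩ := mem_filter.1 hw'
        have h7 := hg2 v hv'
        have h8 := hg2 w hw'
        rw [← hvw] at h8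
        have h9 := hP1 (hg1 v hv')
        have h10 := (mem_sdiff.1 (mem_filter.1 he).1).1
        exact h.ind _ h9 v h7 w h8 (h32 v (h.sub _ h9 h7) w (h.sub _ h9 h8) e.2 (h.bC e h10) hne
          (h3.trans h5.symm) h4 h6)
    · rw [Nat.le_zero, card_eq_zero, eq_empty_iff_forall_notMem]
      intro v hv
      have h2 := hmiss e he v hv
      exact h0 ⟨h2.1, h2.2.1⟩
  unfold losD
  refine (sum_le_sum h1).trans ?_
  rw [← sum_filter]
  obtain ⟨F, hF⟩ : ∃ F, F = ((B \ B1).filter (fun e => e.2 ∈ C1)).filter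
    (fun e => e ∉ konQ G C tl B ∧ tl e.1 ∈ Y) := ⟨_, rfl⟩
  rw [← hF]
  have hFY : ∀ e ∈ F, tl e.1 ∈ Y := fun e he => by
    rw [hF] at he
    exact (mem_filter.1 he).2.2
  have h2 : ∑ e ∈ F, (tlP tl P1 (tl e.1)).card
      = ∑ l ∈ Y, ∑ e ∈ F.filter (fun e => tl e.1 = l), (tlP tl P1 (tl e.1)).card :=
    (sum_fiberwise_of_maps_to (g := fun e : V × V => tl e.1) hFY _).symm
  rw [h2]
  refine sum_le_sum fun l _ => ?_
  have h3 : ∑ e ∈ F.filter (fun e => tl e.1 = l), (tlP tl P1 (tl e.1)).card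
      = (F.filter (fun e => tl e.1 = l)).card * (tlP tl P1 l).card := by
    rw [sum_congr rfl fun e he => by rw [(mem_filter.1 he).2], sum_const, smul_eq_mul]
  rw [h3]
  refine Nat.mul_le_mul_right _ (card_le_card fun e he => ?_)
  obtain ⟨h4, h5⟩ := mem_filter.1 he
  rw [hF] at h4
  obtain ⟨h6, h7, -⟩ := mem_filter.1 h4
  exact mem_pcs.2 ⟨mem_sdiff.2 ⟨(mem_sdiff.1 (mem_filter.1 h6).1).1, h7⟩, h5⟩

/-- the kept pairs of a tail in `X` have no free arcs -/
lemma PkOpt.frC_xy (h : PkOpt G C H tl φ B Ps) {X Y : Finset ι}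
    (hk : KeepXY G C tl B B1 X Y) {C1 : Finset V} (hC1 : C1 ⊆ C) {e : V × V} (he : e ∈ B1)
    (hX : tl e.1 ∈ X) : frC G C1 tl B e.1 = ∅ := by
  by_contra h1
  obtain ⟨a, ha⟩ := nonempty_iff_ne_empty.2 h1
  obtain ⟨h2, h3, h4⟩ := mem_frC.1 ha
  obtain ⟨f, hf, -, h5, h6⟩ := h.keep_miss (P1 := ∅) hk (empty_subset _)
    (mem_union_right _ (mem_image_of_mem _ he)) (Or.inl hX) (hC1 h2) h3
  exact h4 f hf h5 h6

/-- the number of the kept pairs of a tail in `X` -/
lemma pcs_keep_x {X Y : Finset ι} (hk : KeepXY G C tl B B1 X Y) {l : ι} (hl : l ∈ X) :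
    pcs tl B1 l = pcs tl (B \ konQ G C tl B) l := by
  ext e
  rw [mem_pcs, mem_pcs, mem_sdiff]
  constructor
  · rintro ⟨h1, h2⟩
    exact ⟨⟨hk.sub h1, (hk.x e (hk.sub h1) (h2 ▸ hl)).1 h1⟩, h2⟩
  · rintro ⟨⟨h1, h3⟩, h2⟩
    exact ⟨(hk.x e h1 (h2 ▸ hl)).2 h3, h2⟩

end Home

section World

variable {V : Type*} {G : SimpleGraph V} {Z T : Finset V} {hm : V → V} {r m n p : ℕ}
  {φ : Finset (V × V) → Finset (Finset V) → ℕ}
  {B : V → Finset (V × V)} {Ps : V → Finset (Finset V)}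
  {B1 : Finset (V × V)} {P1 : Finset (Finset V)} {XC : Finset V}

/-- **the energy of the sub-slot, raw form**, any packing, any saving `A` among the kept parts -/
theorem WHom.energyRaw (h : WHom G Z T r m n hm) {z : V} (y : V) (hz' : z ∈ T)
    (hB : Pk G (cz G Z T hm z) (hz G Z T hm z) (tlo G T hm) (B z) (Ps z))
    (hB1 : B1 ⊆ B z) (hP1 : P1 ⊆ Ps z) (hXC : XC ⊆ cz G Z T hm z) {A : ℕ}
    (hA : P1.card * P1.card + A ≤ E G (P1.biUnion id) + P1.card) :
    2 * eI G hm (Z \ keepX G Z T hm z B1 P1 XC) z + (∑ u ∈ pkf B1 P1, (ivl u : ℤ))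
        * (∑ u ∈ pkf B1 P1, (ivl u : ℤ) + 1) + A
        + E G ((pcs (tlo G T hm) B1 y).image Prod.fst)
      ≤ 2 * ((∑ u ∈ pkf B1 P1, (ivl u : ℤ)) * ((keepH B1 P1).card : ℤ))
        + 2 * ∑ v ∈ P1.biUnion id, ((frC G (cz G Z T hm z \ XC) (tlo G T hm) (B z) v).card : ℤ)
        + 2 * ∑ e ∈ B1 \ pcs (tlo G T hm) B1 y,
          (1 + (frC G (cz G Z T hm z \ XC) (tlo G T hm) (B z) e.1).card : ℤ)
        + bothB G (tlo G T hm) (B1 \ pcs (tlo G T hm) B1 y)
        + 2 * ∑ e ∈ pcs (tlo G T hm) B1 y, (nd G (cz G Z T hm z \ XC) e.1 : ℤ)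
        + 2 * losD G (tlo G T hm) (cz G Z T hm z \ XC) (B z) B1
          (P1.biUnion id ∪ (B1 \ pcs (tlo G T hm) B1 y).image Prod.fst) := by
  have hF := h.F.toPFrame
  have hCH : Disjoint (hz G Z T hm z) (cz G Z T hm z) := (h.csys.dCH hz' hz').symm
  have h32 := h.csys.h32 hF h.hh h.ht hz'
  have hk := hB.keep hB1 hP1
  have hks := hB.keep_sub hB1 hP1
  have hUe := hk.union_eq
  have h1 := hB.energy_dropX h32 (h.csys.CP_clq hF hz') hCH hB1 hP1
    (sdiff_subset : cz G Z T hm z \ XC ⊆ cz G Z T hm z) y (D := 0) (X := A) (hX := hA)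
    (hD := by
      rw [add_zero]
      refine sum_le_sum fun e he => ?_
      have h2 := hk.uin_le (fun v hv w hw => h32 v (hks hv) w (hks hw)) he
      rwa [hUe] at h2)
  have h2 := hk.sum_ivl
  have h3 : ∑ u ∈ pkf B1 P1, (ivl u : ℤ) + (P1.card : ℤ)
      = ((B1.image Prod.fst ∪ P1.biUnion id).card : ℤ) := by
    exact_mod_cast h2
  have h5 := two_eI (G := G) (hm := hm) (Z \ keepX G Z T hm z B1 P1 XC) z
  have h10 := slot_keep (B1 := B1) (P1 := P1) hXC hks
  rw [h10] at h5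
  unfold keepH at h5
  rw [h5]
  unfold keepH
  obtain ⟨μ, hμ⟩ : ∃ μ : ℤ, μ = ∑ u ∈ pkf B1 P1, (ivl u : ℤ) := ⟨_, rfl⟩
  rw [← hμ] at h3 ⊢
  have h14 : (P1.card : ℤ) = ((B1.image Prod.fst ∪ P1.biUnion id).card : ℤ) - μ := by linarith
  rw [h14] at h1
  generalize ((B1.image Prod.fst ∪ P1.biUnion id).card : ℤ) = nH at *
  push_cast at h1
  nlinarith

/-- **the energy of the sub-slot with three kinds of tails**: in `X` the free (Konig) pairs are dropped, in `Y` all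
pairs, `L` contains the tails of the other kept pairs; the PC pairs of the tail `y` exactly -/
theorem PkOpt.energyXY (h : WHom G Z T r m n hm) {z : V} (y : V) (hz' : z ∈ T)
    (hB : ∀ x ∈ T, PkOpt G (cz G Z T hm x) (hz G Z T hm x) (tlo G T hm) φ (B x) (Ps x))
    {X Y L : Finset V} (hk : KeepXY G (cz G Z T hm z) (tlo G T hm) (B z) B1 X Y)
    (hP1 : P1 ⊆ Ps z) (hXC : XC ⊆ cz G Z T hm z)
    (hL : ∀ e ∈ B1, tlo G T hm e.1 ≠ y → tlo G T hm e.1 ∉ X → tlo G T hm e.1 ∈ L) {A : ℕ}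
    (hA : P1.card * P1.card + A ≤ E G (P1.biUnion id) + P1.card) :
    2 * eI G hm (Z \ keepX G Z T hm z B1 P1 XC) z + (∑ u ∈ pkf B1 P1, (ivl u : ℤ))
        * (∑ u ∈ pkf B1 P1, (ivl u : ℤ) + 1) + A
        + E G ((pcs (tlo G T hm) B1 y).image Prod.fst)
      ≤ 2 * ((∑ u ∈ pkf B1 P1, (ivl u : ℤ)) * ((keepH B1 P1).card : ℤ))
        + (∑ l ∈ X, ((pcs (tlo G T hm) (B z
              \ konQ G (cz G Z T hm z) (tlo G T hm) (B z)) l).card : ℤ)
            * ((pcs (tlo G T hm) (B z \ konQ G (cz G Z T hm z) (tlo G T hm) (B z)) l).card + 1)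
          + ∑ l ∈ L, nxw G Z T hm B z l)
        + 2 * ∑ e ∈ pcs (tlo G T hm) B1 y, (nd G (cz G Z T hm z \ XC) e.1 : ℤ)
        + 2 * ∑ l ∈ Y, ((pcs (tlo G T hm) (B z
              \ konQ G (cz G Z T hm z) (tlo G T hm) (B z)) l).card : ℤ)
            * (tlP (tlo G T hm) P1 l).card := by
  have hpk := hB z hz'
  have h32 := h.csys.h32 h.F.toPFrame h.hh h.ht hz'
  have h1 := h.energyRaw (B := B) (Ps := Ps) y hz' hpk.toPk hk.sub hP1 hXC hA
  have h2 : (losD G (tlo G T hm) (cz G Z T hm z \ XC) (B z) B1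
          (P1.biUnion id ∪ (B1 \ pcs (tlo G T hm) B1 y).image Prod.fst) : ℤ)
      ≤ ∑ l ∈ Y, ((pcs (tlo G T hm) (B z
          \ konQ G (cz G Z T hm z) (tlo G T hm) (B z)) l).card : ℤ)
            * (tlP (tlo G T hm) P1 l).card := by
    exact_mod_cast hpk.losD_xy h32 hk hP1 (sdiff_subset : cz G Z T hm z \ XC ⊆ cz G Z T hm z) y
  -- no N-ends
  have h0 : Nend G (cz G Z T hm z) (hz G Z T hm z) (tlo G T hm) (B z) = ∅ := hpk.frC_zero
  have h11 : ∑ v ∈ P1.biUnion id,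
      ((frC G (cz G Z T hm z \ XC) (tlo G T hm) (B z) v).card : ℤ) = 0 := by
    refine sum_eq_zero fun v hv => ?_
    obtain ⟨P, hP, hvP⟩ := mem_biUnion.1 hv
    have hP' := hP1 hP
    have h12 : v ∈ hz G Z T hm z \ (B z).image Prod.fst := by
      refine mem_sdiff.2 ⟨hpk.sub P hP' hvP, fun h7 => ?_⟩
      obtain ⟨e, he, hev⟩ := mem_image.1 h7
      exact hpk.dw e he P hP' (hev ▸ hvP)
    have h13 : frC G (cz G Z T hm z \ XC) (tlo G T hm) (B z) v = ∅ := by
      by_contra h14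
      obtain ⟨a, ha⟩ := nonempty_iff_ne_empty.2 h14
      have h15 := mem_frC.1 ha
      have h16 : v ∈ Nend G (cz G Z T hm z) (hz G Z T hm z) (tlo G T hm) (B z) :=
        mem_Nend.2 ⟨h12, a, mem_frC.2 ⟨(mem_sdiff.1 h15.1).1, h15.2⟩⟩
      rw [h0] at h16
      exact notMem_empty v h16
    rw [h13, card_empty]
    rfl
  -- the other tails
  obtain ⟨Q, hQ⟩ : ∃ Q, Q = B1 \ pcs (tlo G T hm) B1 y := ⟨_, rfl⟩
  have hQ1 : ∀ e ∈ Q, e ∈ B1 ∧ tlo G T hm e.1 ≠ y := by
    intro e he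
    rw [hQ] at he
    exact mem_sdp.1 he
  have hlt : ∀ e ∈ Q, tlo G T hm e.1 ∈ (L \ X) ∪ X := by
    intro e he
    obtain ⟨h6, h7⟩ := hQ1 e he
    by_cases h8 : tlo G T hm e.1 ∈ X
    · exact mem_union_right _ h8
    · exact mem_union_left _ (mem_sdiff.2 ⟨hL e h6 h7 h8, h8⟩)
  have hpcQ : ∀ l, pcs (tlo G T hm) Q l ⊆ pcs (tlo G T hm) (B z) l := by
    intro l e he
    obtain ⟨h8, h9⟩ := mem_pcs.1 he
    exact mem_pcs.2 ⟨hk.sub (hQ1 e h8).1, h9⟩
  have h6 : 2 * ∑ e ∈ Q, (1 + ((frC G (cz G Z T hm z \ XC) (tlo G T hm) (B z) e.1).card : ℤ))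
      + bothB G (tlo G T hm) Q
      ≤ ∑ l ∈ X, ((pcs (tlo G T hm) (B z
              \ konQ G (cz G Z T hm z) (tlo G T hm) (B z)) l).card : ℤ)
            * ((pcs (tlo G T hm) (B z \ konQ G (cz G Z T hm z) (tlo G T hm) (B z)) l).card + 1)
        + ∑ l ∈ L, nxw G Z T hm B z l := by
    have h7 : ∑ e ∈ Q, (1 + ((frC G (cz G Z T hm z \ XC) (tlo G T hm) (B z) e.1).card : ℤ))
        = ∑ l ∈ (L \ X) ∪ X, ∑ e ∈ pcs (tlo G T hm) Q l,
          (1 + ((frC G (cz G Z T hm z \ XC) (tlo G T hm) (B z) e.1).card : ℤ)) :=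
      (sum_fiberwise_of_maps_to (g := fun e : V × V => tlo G T hm e.1) (fun e he => hlt e he)
        _).symm
    have h8 := bothB_split (G := G) hlt
    rw [h7, h8, mul_sum, Nat.cast_sum, ← sum_add_distrib, sum_union sdiff_disjoint]
    have h9 : ∑ l ∈ L \ X, (2 * ∑ e ∈ pcs (tlo G T hm) Q l,
          (1 + ((frC G (cz G Z T hm z \ XC) (tlo G T hm) (B z) e.1).card : ℤ))
          + (bothB G (tlo G T hm) (pcs (tlo G T hm) Q l) : ℤ))
        ≤ ∑ l ∈ L, nxw G Z T hm B z l := by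
      refine le_trans (sum_le_sum fun l _ => ?_)
        (sum_le_sum_of_subset_of_nonneg sdiff_subset fun l _ _ => nxw_nonneg B z l)
      refine le_trans ?_ (h.nbc_le_nxw (fun x hx => (hB x hx).toPk) hz' l)
      unfold nbc
      have h9 : ∑ e ∈ pcs (tlo G T hm) Q l,
            (1 + ((frC G (cz G Z T hm z \ XC) (tlo G T hm) (B z) e.1).card : ℤ))
          ≤ ∑ e ∈ pcs (tlo G T hm) (B z) l,
            (1 + ((frC G (cz G Z T hm z) (tlo G T hm) (B z) e.1).card : ℤ)) := by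
        refine le_trans (sum_le_sum fun e _ => ?_)
          (sum_le_sum_of_subset_of_nonneg (hpcQ l) fun _ _ _ => by positivity)
        have h11 : ((frC G (cz G Z T hm z \ XC) (tlo G T hm) (B z) e.1).card : ℤ)
            ≤ ((frC G (cz G Z T hm z) (tlo G T hm) (B z) e.1).card : ℤ) := by
          exact_mod_cast frC_card_mono (G := G) (tl := tlo G T hm) (B := B z)
            (sdiff_subset : cz G Z T hm z \ XC ⊆ cz G Z T hm z) e.1
        linarith
      have h10 : (bothB G (tlo G T hm) (pcs (tlo G T hm) Q l) : ℤ)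
          ≤ (bothB G (tlo G T hm) (pcs (tlo G T hm) (B z) l) : ℤ) := by
        exact_mod_cast bothB_mono (hpcQ l)
      linarith
    have h10 : ∑ l ∈ X, (2 * ∑ e ∈ pcs (tlo G T hm) Q l,
          (1 + ((frC G (cz G Z T hm z \ XC) (tlo G T hm) (B z) e.1).card : ℤ))
          + (bothB G (tlo G T hm) (pcs (tlo G T hm) Q l) : ℤ))
        ≤ ∑ l ∈ X, ((pcs (tlo G T hm) (B z
              \ konQ G (cz G Z T hm z) (tlo G T hm) (B z)) l).card : ℤ)
            * ((pcs (tlo G T hm) (B z \ konQ G (cz G Z T hm z) (tlo G T hm) (B z)) l).card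
              + 1) := by
      refine sum_le_sum fun l hl => ?_
      have h12 : ∑ e ∈ pcs (tlo G T hm) Q l,
          (1 + ((frC G (cz G Z T hm z \ XC) (tlo G T hm) (B z) e.1).card : ℤ))
          = ((pcs (tlo G T hm) Q l).card : ℤ) := by
        rw [sum_congr rfl fun e he => ?_, card_eq_sum_ones, Nat.cast_sum]
        obtain ⟨h13, h14⟩ := mem_pcs.1 he
        rw [hpk.frC_xy hk (sdiff_subset : cz G Z T hm z \ XC ⊆ cz G Z T hm z) (hQ1 e h13).1
          (h14.symm ▸ hl), card_empty]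
        rfl
      have h13 := bothB_le (G := G) (tl := tlo G T hm) (pcs (tlo G T hm) Q l)
      have h14 : (pcs (tlo G T hm) Q l).card
          ≤ (pcs (tlo G T hm) (B z \ konQ G (cz G Z T hm z) (tlo G T hm) (B z)) l).card := by
        rw [← pcs_keep_x hk hl]
        refine card_le_card fun e he => ?_
        obtain ⟨h15, h16⟩ := mem_pcs.1 he
        exact mem_pcs.2 ⟨(hQ1 e h15).1, h16⟩
      have h15 : ((pcs (tlo G T hm) Q l).card : ℤ)
          ≤ (pcs (tlo G T hm) (B z \ konQ G (cz G Z T hm z) (tlo G T hm) (B z)) l).card := by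
        exact_mod_cast h14
      have h16 : (0 : ℤ) ≤ ((pcs (tlo G T hm) Q l).card : ℤ) := Int.natCast_nonneg _
      rw [h12]
      nlinarith
    linarith
  rw [← hQ] at h1 h2
  rw [h11] at h1
  linarith

end World

end Pool.Agent.Lib.MP_f04ccf_co
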