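import Pool.Agent.Lib.MP_f04ccf_co.M.EnuL

/-!
MP_f04ccf_co, TEXT D, middle range: **the list of contents of a row in the kernel** (note 19265): codes

`B + 2^6 p + 2^11 x + 2^16 q + 2^21 m + 2^31 k0 + 2^36 k2 + 2^51 nb`

(value one: `mc = c = ca = 0`; the clique letters are added by `EnuC`).  For one size `B` with the constants `wH`
(misses and arcs of a hosted half), `Wm` (misses and arcs of a served half), `a1` (arcs of a served half) the loops
run over `bt = p + x`, `q`, `m`, `k0`, `k2`; the tests are jsub, the two caps of the family of the letters so far and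
the host count, with the constants of the outer letters computed once.

* `Em.nbF`: the bound of the excess; `Em.tJ`, `Em.tK`: the tests; `Em.outC`, `Em.cellP`: the list | the program of one
  `B`; `Em.outA`, `Em.rowP`: all `B`; **`Em.mem_outA`**: completeness.
-/

set_option autoImplicit false

namespace Pool.Agent.Lib.MP_f04ccf_co

namespace Em

open En

variable {β : Type}

/-! ### the bound of the excess -/

/-- `v` is good: no excess `nu > v` -/
def nuT (R tt bt v : ℕ) : Bool :=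
  bif Nat.ble (Nat.add tt 2) (Nat.mul (Nat.succ v) (Nat.succ v)) then true
  else Nat.ble (Nat.succ (Nat.add (Nat.add tt (Nat.mul bt bt)) R))
    (Nat.add (Nat.mul bt R) (Nat.mul (Nat.sub (Nat.add v 2) bt) (Nat.sub (Nat.add v 2) bt)))

/-- the smallest good `v` below `v + n` -/
def nuF (R tt bt : ℕ) : ℕ → ℕ → ℕ
  | 0, v => v
  | n + 1, v => bif nuT R tt bt v then v else nuF R tt bt n (v + 1)

/-- the bound of the excess of `bt` pairs -/
def nbF (R A B bt : ℕ) : ℕ :=
  bt * (bt + 1) + 2 * (bt * nuF R ((A - 1) * (B - 1)) bt R 0)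

lemma nuT_true {R tt bt v : ℕ} (h : nuT R tt bt v = true) :
    1 + tt < (v + 1) ^ 2 ∨
      (tt : ℤ) + (bt : ℤ) ^ 2 < ((bt : ℤ) - 1) * R + (max 0 ((v : ℤ) + 2 - bt)) ^ 2 := by
  unfold nuT at h
  rcases h1 : Nat.ble (Nat.add tt 2) (Nat.mul (Nat.succ v) (Nat.succ v)) with _ | _
  · right
    rw [h1] at h
    have h2 : Nat.ble (Nat.succ (Nat.add (Nat.add tt (Nat.mul bt bt)) R))
      (Nat.add (Nat.mul bt R) (Nat.mul (Nat.sub (Nat.add v 2) bt) (Nat.sub (Nat.add v 2) bt)))
        = true := h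
    have h3 := Nat.le_of_ble_eq_true h2
    have h4 : tt + bt * bt + R + 1 ≤ bt * R + (v + 2 - bt) * (v + 2 - bt) := h3
    have h5 : (((v + 2 - bt : ℕ) : ℤ)) = max 0 ((v : ℤ) + 2 - bt) := by omega
    have h6 : ((tt + bt * bt + R + 1 : ℕ) : ℤ) ≤ ((bt * R + (v + 2 - bt) * (v + 2 - bt) : ℕ) : ℤ) := by
      exact_mod_cast h4
    rw [Nat.cast_add (bt * R), Nat.cast_mul (v + 2 - bt), h5] at h6
    push_cast at h6
    nlinarith
  · left
    have h3 := Nat.le_of_ble_eq_true h1
    have h4 : tt + 2 ≤ (v + 1) * (v + 1) := h3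
    nlinarith

/-- beyond every bound -/
lemma nuF_spec {R tt bt : ℕ} : ∀ (n v : ℕ), tt + 2 ≤ (v + n + 1) * (v + n + 1) →
    nuT R tt bt (nuF R tt bt n v) = true := by
  intro n
  induction n with
  | zero =>
    intro v h
    show nuT R tt bt v = true
    unfold nuT
    have h1 : Nat.ble (Nat.add tt 2) (Nat.mul (Nat.succ v) (Nat.succ v)) = true :=
      Nat.ble_eq_true_of_le h
    rw [h1]
    rfl
  | succ n ih =>
    intro v h
    show nuT R tt bt (bif nuT R tt bt v then v else nuF R tt bt n (v + 1)) = true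
    rcases h1 : nuT R tt bt v with _ | _
    · show nuT R tt bt (nuF R tt bt n (v + 1)) = true
      refine ih (v + 1) ?_
      have e1 : v + 1 + n = v + (n + 1) := by ring
      rw [e1]
      exact h
    · exact h1

/-- **the bound of the excess holds** -/
theorem nbF_spec {R A B bt nn : ℕ} (hA : A + B + 3 ≤ R) (h0 : bt = 0 → nn = 0)
    (hb : ∀ v : ℕ, (1 + (A - 1) * (B - 1) < (v + 1) ^ 2 ∨
      ((A : ℤ) - 1) * ((B : ℤ) - 1) + (bt : ℤ) ^ 2
        < ((bt : ℤ) - 1) * R + (max 0 ((v : ℤ) + 2 - bt)) ^ 2) →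
      nn ≤ bt * (bt + 1) + 2 * (bt * v)) (hA1 : 1 ≤ A) (hB1 : 1 ≤ B) : nn ≤ nbF R A B bt := by
  rcases Nat.eq_zero_or_pos bt with h | h
  · rw [h0 h]
    exact Nat.zero_le _
  · have e1 : (((A - 1) * (B - 1) : ℕ) : ℤ) = ((A : ℤ) - 1) * ((B : ℤ) - 1) := by
      rw [Nat.cast_mul, Nat.cast_sub hA1, Nat.cast_sub hB1]
      rfl
    have h1 : nuT R ((A - 1) * (B - 1)) bt (nuF R ((A - 1) * (B - 1)) bt R 0) = true := by
      refine nuF_spec R 0 ?_
      have h2 : (A - 1) * (B - 1) ≤ R * R := Nat.mul_le_mul (by omega) (by omega)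
      nlinarith
    have h2 := nuT_true h1
    rw [e1] at h2
    exact hb _ h2

/-! ### the tests -/

/-- jsub: `M R ≤ r0 + M ^ 2`, `M ≤ A, B` -/
def tJ (R A B r0 M : ℕ) : Bool :=
  bif Nat.ble M A then bif Nat.ble M B then Nat.ble (Nat.mul M R) (Nat.add r0 (Nat.mul M M))
    else false else false

/-- a hosted family of `a` units: `a c1 ≤ s + a (a + c)` for both caps -/
def tM (c1 rm r0 cm co a : ℕ) : Bool :=
  bif Nat.ble (Nat.mul a c1) (Nat.add rm (Nat.mul a (Nat.add a cm))) then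
    Nat.ble (Nat.mul a c1) (Nat.add r0 (Nat.mul a (Nat.add a co))) else false

/-- `k = f + e` served units: both caps and the host count -/
noncomputable def tK (R cM sM cO sO cH sH Wm a1 f e : ℕ) : Bool :=
  Mid.frN (Nat.add f e) fun k => Mid.frN (Nat.mul e Wm) fun w =>
    bif Nat.ble (Nat.mul k (Nat.sub cM k)) (Nat.add sM w) then
      bif Nat.ble (Nat.mul k (Nat.sub cO k)) (Nat.add sO w) then
        bif Nat.ble (Nat.mul k (Nat.sub cH k)) (Nat.add sH (Nat.mul e a1)) then true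
        else Nat.ble (Nat.succ R) (Nat.mul 2 k)
      else false else false

/-! ### the programs -/

/-- `c + x` for the `x` of a list -/
noncomputable def addL (c : ℕ) (pl : List ℕ) : List ℕ → (List ℕ → β) → β :=
  List.rec (motive := fun _ => List ℕ → (List ℕ → β) → β) (fun acc k => k acc)
    (fun x _ ih acc k => Mid.frN (Nat.add c x) fun y => ih (y :: acc) k) pl

/-- the list of `addL` -/
def outP (c : ℕ) (pl : List ℕ) : List ℕ := (pl.map fun x => c + x).reverse

lemma addL_eq (c : ℕ) : ∀ (pl acc : List ℕ) (k : List ℕ → β),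
    addL c pl acc k = k (outP c pl ++ acc) := by
  intro pl
  induction pl with
  | nil => intro acc k; rfl
  | cons x pl ih =>
    intro acc k
    have e1 : addL c (x :: pl) acc k
        = Mid.frN (Nat.add c x) fun y => addL c pl (y :: acc) k := rfl
    rw [e1, Mid.frN_eq, ih]
    unfold outP
    rw [List.map_cons, List.reverse_cons, List.append_assoc]
    rfl

lemma mem_outP {c x : ℕ} {pl : List ℕ} (h : x ∈ pl) : c + x ∈ outP c pl := by
  unfold outP
  rw [List.mem_reverse]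
  exact List.mem_map.2 ⟨x, h, rfl⟩

/-- halves -/
noncomputable def eP (R N cM sM cO sO cH sH Wm a1 f : ℕ) (pl : List ℕ) (c : ℕ)
    (acc : List ℕ) (k : List ℕ → β) : β :=
  loop N (fun e => tK R cM sM cO sO cH sH Wm a1 f e)
    (fun e acc k => Mid.frN (Nat.add c (Nat.mul e 68719476736)) fun c' => addL c' pl acc k) 0 acc k

/-- halves, the list -/
noncomputable def eO (R N cM sM cO sO cH sH Wm a1 f : ℕ) (pl : List ℕ) (c : ℕ) : List ℕ :=
  outL N (fun e => tK R cM sM cO sO cH sH Wm a1 f e)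
    (fun e => outP (c + e * 68719476736) pl) 0

lemma eP_eq {R N cM sM cO sO cH sH Wm a1 f : ℕ} {pl : List ℕ} (c : ℕ) (acc : List ℕ)
    (k : List ℕ → β) : eP R N cM sM cO sO cH sH Wm a1 f pl c acc k
      = k (eO R N cM sM cO sO cH sH Wm a1 f pl c ++ acc) := by
  unfold eP eO
  refine loop_eq (fun e acc k => ?_) N 0 acc k
  rw [Mid.frN_eq, addL_eq]
  rfl

/-- full served units -/
noncomputable def fP (R N cM sM cO sO cH sH Wm a1 : ℕ) (pl : List ℕ) (c : ℕ)
    (acc : List ℕ) (k : List ℕ → β) : β :=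
  loop N (fun f => tK R cM sM cO sO cH sH Wm a1 f 0)
    (fun f acc k => Mid.frN (Nat.add c (Nat.mul f 2147483648)) fun c' =>
      eP R N cM sM cO sO cH sH Wm a1 f pl c' acc k) 0 acc k

/-- full served units, the list -/
noncomputable def fO (R N cM sM cO sO cH sH Wm a1 : ℕ) (pl : List ℕ) (c : ℕ) : List ℕ :=
  outL N (fun f => tK R cM sM cO sO cH sH Wm a1 f 0)
    (fun f => eO R N cM sM cO sO cH sH Wm a1 f pl (c + f * 2147483648)) 0

lemma fP_eq {R N cM sM cO sO cH sH Wm a1 : ℕ} {pl : List ℕ} (c : ℕ) (acc : List ℕ)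
    (k : List ℕ → β) : fP R N cM sM cO sO cH sH Wm a1 pl c acc k
      = k (fO R N cM sM cO sO cH sH Wm a1 pl c ++ acc) := by
  unfold fP fO
  refine loop_eq (fun f acc k => ?_) N 0 acc k
  rw [Mid.frN_eq, eP_eq]
  rfl

/-- hosted units of value one: `c2 = R + A - 1`, `M2 = 2 M` -/
noncomputable def mP (R N c1 c2 rm r0 cm co M2 q cH sH Wm a1 : ℕ) (pl : List ℕ) (c : ℕ)
    (acc : List ℕ) (k : List ℕ → β) : β :=
  loop N (fun a => tM c1 rm r0 cm co a)
    (fun a acc k =>
      Mid.frN (Nat.sub c2 (Nat.add (Nat.mul 4 a) M2)) fun cM =>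
      Mid.frN (Nat.sub (Nat.add rm (Nat.mul a (Nat.add a cm))) (Nat.mul a c1)) fun sM =>
      Mid.frN (Nat.sub c2 (Nat.add (Nat.mul 4 a) q)) fun cO =>
      Mid.frN (Nat.sub (Nat.add r0 (Nat.mul a (Nat.add a co))) (Nat.mul a c1)) fun sO =>
      Mid.frN (Nat.add c (Nat.mul a 2097152)) fun c' =>
        fP R N cM sM cO sO cH sH Wm a1 pl c' acc k) 0 acc k

/-- hosted units of value one, the list -/
noncomputable def mO (R N c1 c2 rm r0 cm co M2 q cH sH Wm a1 : ℕ) (pl : List ℕ) (c : ℕ) :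
    List ℕ :=
  outL N (fun a => tM c1 rm r0 cm co a)
    (fun a => fO R N (c2 - (4 * a + M2)) (rm + a * (a + cm) - a * c1) (c2 - (4 * a + q))
      (r0 + a * (a + co) - a * c1) cH sH Wm a1 pl (c + a * 2097152)) 0

lemma mP_eq {R N c1 c2 rm r0 cm co M2 q cH sH Wm a1 : ℕ} {pl : List ℕ} (c : ℕ) (acc : List ℕ)
    (k : List ℕ → β) : mP R N c1 c2 rm r0 cm co M2 q cH sH Wm a1 pl c acc k
      = k (mO R N c1 c2 rm r0 cm co M2 q cH sH Wm a1 pl c ++ acc) := by
  unfold mP mO
  refine loop_eq (fun a acc k => ?_) N 0 acc k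
  rw [Mid.frN_eq, Mid.frN_eq, Mid.frN_eq, Mid.frN_eq, Mid.frN_eq, fP_eq]
  rfl

/-- served PC pairs -/
noncomputable def qP (R N A B c1 c2 r0 wH Wm a1 bt : ℕ) (pl : List ℕ) (c : ℕ)
    (acc : List ℕ) (k : List ℕ → β) : β :=
  loop N (fun q => Mid.frN (Nat.add bt q) fun M => tJ R A B r0 M)
    (fun q acc k => Mid.frN (Nat.add bt q) fun M =>
      Mid.frN (Nat.sub (Nat.add r0 (Nat.mul M M)) (Nat.mul M R)) fun rm =>
      Mid.frN (Nat.add wH (Nat.mul 2 M)) fun cm =>
      Mid.frN (Nat.add wH bt) fun co =>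
      Mid.frN (Nat.mul 2 M) fun M2 =>
      Mid.frN (Nat.sub (Nat.mul 2 R) q) fun cH =>
      Mid.frN (Nat.mul R B) fun sH =>
      Mid.frN (Nat.add c (Nat.mul q 65536)) fun c' =>
        mP R N c1 c2 rm r0 cm co M2 q cH sH Wm a1 pl c' acc k) 0 acc k

/-- served PC pairs, the list -/
noncomputable def qO (R N A B c1 c2 r0 wH Wm a1 bt : ℕ) (pl : List ℕ) (c : ℕ) : List ℕ :=
  outL N (fun q => tJ R A B r0 (bt + q))
    (fun q => mO R N c1 c2 (r0 + (bt + q) * (bt + q) - (bt + q) * R) r0 (wH + 2 * (bt + q))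
      (wH + bt) (2 * (bt + q)) q (2 * R - q) (R * B) Wm a1 pl (c + q * 65536)) 0

lemma qP_eq {R N A B c1 c2 r0 wH Wm a1 bt : ℕ} {pl : List ℕ} (c : ℕ) (acc : List ℕ)
    (k : List ℕ → β) : qP R N A B c1 c2 r0 wH Wm a1 bt pl c acc k
      = k (qO R N A B c1 c2 r0 wH Wm a1 bt pl c ++ acc) := by
  unfold qP qO
  have e1 : (fun q => Mid.frN (Nat.add bt q) fun M => tJ R A B r0 M)
      = fun q => tJ R A B r0 (bt + q) := by
    funext q
    rw [Mid.frN_eq]
    rfl
  rw [e1]
  refine loop_eq (fun q acc k => ?_) N 0 acc k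
  rw [Mid.frN_eq, Mid.frN_eq, Mid.frN_eq, Mid.frN_eq, Mid.frN_eq, Mid.frN_eq, Mid.frN_eq,
    Mid.frN_eq, mP_eq]
  rfl

/-- the smallest good `v` -/
noncomputable def nuP (R tt bt : ℕ) (n : ℕ) : ℕ → (ℕ → β) → β :=
  Nat.rec (motive := fun _ => ℕ → (ℕ → β) → β) (fun v k => k v)
    (fun _ ih v k => Bool.rec (motive := fun _ => β) (Mid.frN (Nat.succ v) fun v' => ih v' k)
      (k v) (nuT R tt bt v)) n

lemma nuP_eq {R tt bt : ℕ} : ∀ (n v : ℕ) (k : ℕ → β),
    nuP R tt bt n v k = k (nuF R tt bt n v) := by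
  intro n
  induction n with
  | zero => intro v k; rfl
  | succ n ih =>
    intro v k
    have e1 : nuP R tt bt (n + 1) v k = Bool.rec (motive := fun _ => β)
      (Mid.frN (Nat.succ v) fun v' => nuP R tt bt n v' k) (k v) (nuT R tt bt v) := rfl
    have e2 : nuF R tt bt (n + 1) v = bif nuT R tt bt v then v else nuF R tt bt n (v + 1) := rfl
    rw [e1, e2, Mid.frN_eq, ih]
    cases nuT R tt bt v <;> rfl

/-- the codes of `p`, `x = bt - p`, `nb` -/
noncomputable def plP (N bt nb : ℕ) (k : List ℕ → β) : β :=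
  loop N (fun p => Nat.ble p bt)
    (fun p acc k => Mid.frN (Nat.add (Nat.add (Nat.mul p 64) (Nat.mul (Nat.sub bt p) 2048))
      (Nat.mul nb 2251799813685248)) fun y => k (y :: acc)) 0 [] k

/-- the codes of `p`, `x = bt - p`, `nb`, the list -/
noncomputable def plO (N bt nb : ℕ) : List ℕ :=
  outL N (fun p => Nat.ble p bt)
    (fun p => [p * 64 + (bt - p) * 2048 + nb * 2251799813685248]) 0

lemma plP_eq {N bt nb : ℕ} (k : List ℕ → β) : plP N bt nb k = k (plO N bt nb) := by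
  unfold plP plO
  rw [loop_eq (outb := fun p => [p * 64 + (bt - p) * 2048 + nb * 2251799813685248])
    (fun p acc k => by rw [Mid.frN_eq]; rfl), List.append_nil]

/-- hosted PC pairs -/
noncomputable def bP (R N A B c1 c2 r0 tt wH Wm a1 : ℕ) (acc : List ℕ) (k : List ℕ → β) : β :=
  loop N (fun bt => tJ R A B r0 bt)
    (fun bt acc k => nuP R tt bt R 0 fun v =>
      Mid.frN (Nat.add (Nat.mul bt (Nat.succ bt)) (Nat.mul 2 (Nat.mul bt v))) fun nb =>
        plP N bt nb fun pl => qP R N A B c1 c2 r0 wH Wm a1 bt pl B acc k) 0 acc k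

/-- hosted PC pairs, the list -/
noncomputable def bO (R N A B c1 c2 r0 tt wH Wm a1 : ℕ) : List ℕ :=
  outL N (fun bt => tJ R A B r0 bt)
    (fun bt => qO R N A B c1 c2 r0 wH Wm a1 bt
      (plO N bt (bt * (bt + 1) + 2 * (bt * nuF R tt bt R 0))) B) 0

lemma bP_eq {R N A B c1 c2 r0 tt wH Wm a1 : ℕ} (acc : List ℕ) (k : List ℕ → β) :
    bP R N A B c1 c2 r0 tt wH Wm a1 acc k = k (bO R N A B c1 c2 r0 tt wH Wm a1 ++ acc) := by
  unfold bP bO
  refine loop_eq (fun bt acc k => ?_) N 0 acc k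
  rw [nuP_eq, Mid.frN_eq, plP_eq, qP_eq]
  rfl

/-- one size `B`, constants `wH`, `Wm`, `a1` -/
noncomputable def cellP (R N A B wH Wm a1 : ℕ) (acc : List ℕ) (k : List ℕ → β) : β :=
  Mid.frN (Nat.mul (Nat.sub A 1) (Nat.sub B 1)) fun tt =>
  Mid.frN (Nat.add R tt) fun r0 =>
  Mid.frN (Nat.sub (Nat.add R B) 1) fun c1 =>
  Mid.frN (Nat.sub (Nat.add R A) 1) fun c2 => bP R N A B c1 c2 r0 tt wH Wm a1 acc k

/-- one size, the list -/
noncomputable def cellO (R N A B wH Wm a1 : ℕ) : List ℕ :=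
  bO R N A B (R + B - 1) (R + A - 1) (R + (A - 1) * (B - 1)) ((A - 1) * (B - 1)) wH Wm a1

lemma cellP_eq {R N A B wH Wm a1 : ℕ} (acc : List ℕ) (k : List ℕ → β) :
    cellP R N A B wH Wm a1 acc k = k (cellO R N A B wH Wm a1 ++ acc) := by
  unfold cellP cellO
  rw [Mid.frN_eq, Mid.frN_eq, Mid.frN_eq, Mid.frN_eq, bP_eq]
  rfl

/-- the constants of a size -/
structure Ent where
  (wH Wm a1 : ℕ)

/-- all sizes `B, B + 1, ..` -/
noncomputable def rowP (R N A : ℕ) (tab : List Ent) : ℕ → List ℕ → (List ℕ → β) → β :=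
  List.rec (motive := fun _ => ℕ → List ℕ → (List ℕ → β) → β) (fun _ acc k => k acc)
    (fun t _ ih B acc k => cellP R N A B t.wH t.Wm t.a1 acc fun acc' =>
      Mid.frN (Nat.succ B) fun B' => ih B' acc' k) tab

/-- all sizes, the list -/
noncomputable def rowO (R N A : ℕ) : List Ent → ℕ → List ℕ
  | [], _ => []
  | t :: tab, B => rowO R N A tab (B + 1) ++ cellO R N A B t.wH t.Wm t.a1

theorem rowP_eq {R N A : ℕ} : ∀ (tab : List Ent) (B : ℕ) (acc : List ℕ) (k : List ℕ → β),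
    rowP R N A tab B acc k = k (rowO R N A tab B ++ acc) := by
  intro tab
  induction tab with
  | nil => intro B acc k; rfl
  | cons t tab ih =>
    intro B acc k
    have e1 : rowP R N A (t :: tab) B acc k = cellP R N A B t.wH t.Wm t.a1 acc fun acc' =>
      Mid.frN (Nat.succ B) fun B' => rowP R N A tab B' acc' k := rfl
    rw [e1, cellP_eq, Mid.frN_eq, ih]
    show k (rowO R N A tab (B + 1) ++ (cellO R N A B t.wH t.Wm t.a1 ++ acc)) = _
    rw [← List.append_assoc]
    rfl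

/-! ### completeness -/

/-- all families of a content are allowed (`M` PC pairs, `bt` hosted, `q` served) -/
structure CtOk (R A B wH Wm a1 bt q m f e : ℕ) : Prop where
  js : ∀ M : ℕ, M ≤ bt + q → M ≤ A ∧ M ≤ B ∧ M * R ≤ R + (A - 1) * (B - 1) + M * M
  cap : ∀ a k1 k2 : ℕ, a ≤ m → k1 ≤ f → k2 ≤ e →
    (bt + q) * R + a * (R + B - 1) + (k1 + k2) * (R + A - 1) + a * a + (k1 + k2) * (k1 + k2)
      ≤ R + (A - 1) * (B - 1) + (bt + q) * (bt + q) + 2 * (bt + q) * (a + (k1 + k2))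
        + 2 * ((a + (k1 + k2)) * (a + (k1 + k2))) + a * wH + k2 * Wm ∧
    a * (R + B - 1) + (k1 + k2) * (R + A - 1) + a * a + (k1 + k2) * (k1 + k2)
      ≤ R + (A - 1) * (B - 1) + a * bt + (k1 + k2) * q
        + 2 * ((a + (k1 + k2)) * (a + (k1 + k2))) + a * wH + k2 * Wm
  host : ∀ k1 k2 : ℕ, k1 ≤ f → k2 ≤ e → 2 * (k1 + k2) ≤ R →
    2 * ((k1 + k2) * R) ≤ R * B + (k1 + k2) * (k1 + k2) + (k1 + k2) * q + k2 * a1

lemma tJ_true {R A B r0 M : ℕ} (h1 : M ≤ A) (h2 : M ≤ B) (h3 : M * R ≤ r0 + M * M) :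
    tJ R A B r0 M = true := by
  unfold tJ
  rw [Nat.ble_eq_true_of_le h1, Nat.ble_eq_true_of_le h2]
  exact Nat.ble_eq_true_of_le h3

lemma tM_true {c1 rm r0 cm co a : ℕ} (h1 : a * c1 ≤ rm + a * (a + cm))
    (h2 : a * c1 ≤ r0 + a * (a + co)) : tM c1 rm r0 cm co a = true := by
  unfold tM
  have h3 : Nat.ble (Nat.mul a c1) (Nat.add rm (Nat.mul a (Nat.add a cm))) = true :=
    Nat.ble_eq_true_of_le h1
  rw [h3]
  exact Nat.ble_eq_true_of_le h2

lemma tK_true {R cM sM cO sO cH sH Wm a1 f e : ℕ}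
    (h1 : (f + e) * (cM - (f + e)) ≤ sM + e * Wm) (h2 : (f + e) * (cO - (f + e)) ≤ sO + e * Wm)
    (h3 : 2 * (f + e) ≤ R → (f + e) * (cH - (f + e)) ≤ sH + e * a1) :
    tK R cM sM cO sO cH sH Wm a1 f e = true := by
  unfold tK
  rw [Mid.frN_eq, Mid.frN_eq]
  have h4 : Nat.ble (Nat.mul (Nat.add f e) (Nat.sub cM (Nat.add f e))) (Nat.add sM (Nat.mul e Wm))
      = true := Nat.ble_eq_true_of_le h1
  have h5 : Nat.ble (Nat.mul (Nat.add f e) (Nat.sub cO (Nat.add f e))) (Nat.add sO (Nat.mul e Wm))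
      = true := Nat.ble_eq_true_of_le h2
  rw [h4, h5]
  rcases Nat.lt_or_ge R (2 * (f + e)) with h6 | h6
  · have h7 : Nat.ble (Nat.succ R) (Nat.mul 2 (Nat.add f e)) = true := Nat.ble_eq_true_of_le h6
    rw [h7]
    rcases Nat.ble (Nat.mul (Nat.add f e) (Nat.sub cH (Nat.add f e)))
      (Nat.add sH (Nat.mul e a1)) with _ | _ <;> rfl
  · have h7 : Nat.ble (Nat.mul (Nat.add f e) (Nat.sub cH (Nat.add f e)))
        (Nat.add sH (Nat.mul e a1)) = true := Nat.ble_eq_true_of_le (h3 h6)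
    rw [h7]
    rfl

/-- `k (c - k) ≤ s` from the inequality with everything on its side -/
lemma sub_le {k c s x : ℕ} (h : k * x ≤ s + k * (c + k)) : k * (x - c - k) ≤ s := by
  rcases Nat.lt_or_ge x (c + k) with h1 | h1
  · have : x - c - k = 0 := by omega
    rw [this, Nat.mul_zero]
    exact Nat.zero_le _
  · have h2 : x - c - k = x - (c + k) := by omega
    rw [h2, Nat.mul_sub]
    omega

/-- the code of a content of value one -/
def code (B p x q m f e nb : ℕ) : ℕ :=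
  B + 64 * p + 2048 * x + 65536 * q + 2097152 * m + 2147483648 * f + 68719476736 * e
    + 2251799813685248 * nb

/-- **completeness for one size** -/
theorem mem_cellO {R N A B wH Wm a1 p x q m f e : ℕ} (h : CtOk R A B wH Wm a1 (p + x) q m f e)
    (hN : B < N) (hm : m < N) (hf : f < N) (he : e < N) :
    code B p x q m f e (nbF R A B (p + x)) ∈ cellO R N A B wH Wm a1 := by
  obtain ⟨bt, hbt⟩ : ∃ bt, bt = p + x := ⟨_, rfl⟩
  rw [← hbt] at h ⊢
  have hj := (h.js (bt + q) le_rfl).2.1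
  unfold cellO bO
  refine mem_outL (Nat.zero_le bt) (by omega) (fun l _ hl => ?_) ?_
  · obtain ⟨a2, a3, a4⟩ := h.js l (by omega)
    exact tJ_true a2 a3 a4
  unfold qO
  refine mem_outL (Nat.zero_le q) (by omega) (fun l _ hl => ?_) ?_
  · obtain ⟨a2, a3, a4⟩ := h.js (bt + l) (by omega)
    exact tJ_true a2 a3 a4
  have hrm := (h.js (bt + q) le_rfl).2.2
  unfold mO
  refine mem_outL (Nat.zero_le m) (by omega) (fun a _ ha => ?_) ?_
  · obtain ⟨a2, a3⟩ := h.cap a 0 0 ha (Nat.zero_le _) (Nat.zero_le _)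
    simp only [Nat.add_zero, Nat.zero_mul] at a2 a3
    refine tM_true ?_ ?_
    · have e1 : a * (a + (wH + 2 * (bt + q))) = a * a + a * wH + 2 * (bt + q) * a := by ring
      rw [e1]
      omega
    · have e1 : a * (a + (wH + bt)) = a * a + a * wH + a * bt := by ring
      rw [e1]
      omega
  -- the slacks
  obtain ⟨s1, s2⟩ := h.cap m 0 0 le_rfl (Nat.zero_le _) (Nat.zero_le _)
  simp only [Nat.add_zero, Nat.zero_mul] at s1 s2
  have key : ∀ k1 k2 : ℕ, k1 ≤ f → k2 ≤ e → tK R (R + A - 1 - (4 * m + 2 * (bt + q)))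
      (R + (A - 1) * (B - 1) + (bt + q) * (bt + q) - (bt + q) * R
        + m * (m + (wH + 2 * (bt + q))) - m * (R + B - 1))
      (R + A - 1 - (4 * m + q))
      (R + (A - 1) * (B - 1) + m * (m + (wH + bt)) - m * (R + B - 1)) (2 * R - q) (R * B) Wm a1
      k1 k2 = true := by
    intro k1 k2 hk1 hk2
    obtain ⟨a2, a3⟩ := h.cap m k1 k2 le_rfl hk1 hk2
    obtain ⟨k, hk⟩ : ∃ k, k = k1 + k2 := ⟨_, rfl⟩
    have a4 := h.host k1 k2 hk1 hk2
    rw [← hk] at a2 a3 a4
    have e1 : m * (m + (wH + 2 * (bt + q))) = m * m + m * wH + 2 * (bt + q) * m := by ring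
    have e2 : m * (m + (wH + bt)) = m * m + m * wH + m * bt := by ring
    have e3 : 2 * ((m + k) * (m + k)) = 2 * (m * m) + 4 * (m * k) + 2 * (k * k) := by ring
    have e4 : 2 * (bt + q) * (m + k) = 2 * (bt + q) * m + 2 * (bt + q) * k := by ring
    refine tK_true ?_ ?_ fun h5 => ?_
    · rw [← hk]
      have e5 : R + A - 1 - (4 * m + 2 * (bt + q)) - k
          = (R + A - 1) - (4 * m + 2 * (bt + q)) - k := rfl
      rw [e5]
      refine sub_le ?_
      have e6 : k * (4 * m + 2 * (bt + q) + k)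
          = 4 * (m * k) + 2 * (bt + q) * k + k * k := by ring
      rw [e6, e1]
      rw [e3, e4] at a2
      omega
    · rw [← hk]
      refine sub_le ?_
      have e6 : k * (4 * m + q + k) = 4 * (m * k) + k * q + k * k := by ring
      rw [e6, e2]
      rw [e3] at a3
      omega
    · rw [← hk] at h5 ⊢
      have a5 := a4 h5
      refine sub_le ?_
      have e6 : k * (q + k) = k * q + k * k := by ring
      have e7 : k * (2 * R) = 2 * (k * R) := by ring
      rw [e6, e7]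
      omega
  unfold fO
  refine mem_outL (Nat.zero_le f) (by omega) (fun l _ hl => key l 0 hl (Nat.zero_le _)) ?_
  unfold eO
  refine mem_outL (Nat.zero_le e) (by omega) (fun l _ hl => key f l le_rfl hl) ?_
  have e1 : code B p x q m f e (nbF R A B bt)
      = (B + q * 65536 + m * 2097152 + f * 2147483648 + e * 68719476736)
        + (p * 64 + (bt - p) * 2048
          + (bt * (bt + 1) + 2 * (bt * nuF R ((A - 1) * (B - 1)) bt R 0)) * 2251799813685248) := by
    unfold code nbF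
    have : bt - p = x := by omega
    rw [this]
    ring
  rw [e1]
  refine mem_outP ?_
  unfold plO
  refine mem_outL (Nat.zero_le p) (by omega) (fun l _ hl => ?_) (List.mem_singleton.2 rfl)
  exact Nat.ble_eq_true_of_le (by omega)

/-- **completeness** -/
theorem mem_rowO {R N A : ℕ} {c : ℕ} : ∀ (tab : List Ent) (B0 i : ℕ) (t : Ent),
    tab[i]? = some t → c ∈ cellO R N A (B0 + i) t.wH t.Wm t.a1 → c ∈ rowO R N A tab B0 := by
  intro tab
  induction tab with
  | nil => intro B0 i t h; simp at h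
  | cons s tab ih =>
    intro B0 i t h hc
    show c ∈ rowO R N A tab (B0 + 1) ++ cellO R N A B0 s.wH s.Wm s.a1
    rw [List.mem_append]
    cases i with
    | zero =>
      rw [List.getElem?_cons_zero] at h
      obtain rfl := Option.some.inj h
      exact Or.inr hc
    | succ i =>
      rw [List.getElem?_cons_succ] at h
      refine Or.inl (ih (B0 + 1) i t h ?_)
      have e1 : B0 + 1 + i = B0 + (i + 1) := by ring
      rw [e1]
      exact hc

end Em

end Pool.Agent.Lib.MP_f04ccf_co
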