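import Pool.Agent.Lib.MP_f04ccf_co.M.SimV

/-!
MP_f04ccf_co, **an enumerator in the kernel** (nested loops which stop at the first failure), in continuation
style: the list handed to the continuation is a literal.

* `En.loop N tst body i acc k`: for `j = i, i+1, ..` while `tst j` (at most `N` times) `body j`;
* `En.enu act N ts pre acc k`: nested loops, one per entry of `ts` (the test of level `t` sees the new letter and
  the list of the earlier ones, last first), `act pre` at the bottom;
* `En.outE`: the list; `enu_eq`; **`mem_outE`: completeness**.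
-/

set_option autoImplicit false

namespace Pool.Agent.Lib.MP_f04ccf_co

namespace En

variable {α β : Type}

/-- a loop -/
noncomputable def loop (N : ℕ) (tst : ℕ → Bool) (body : ℕ → List α → (List α → β) → β) :
    ℕ → List α → (List α → β) → β :=
  Nat.rec (motive := fun _ => ℕ → List α → (List α → β) → β) (fun _ acc k => k acc)
    (fun _ ih i acc k => Bool.rec (motive := fun _ => β) (k acc)
      (Mid.frN (Nat.succ i) fun j => body i acc fun acc' => ih j acc' k) (tst i)) N

/-- the list of a loop -/
def outL (N : ℕ) (tst : ℕ → Bool) (outb : ℕ → List α) : ℕ → List α :=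
  Nat.rec (motive := fun _ => ℕ → List α) (fun _ => [])
    (fun _ ih i => bif tst i then ih (i + 1) ++ outb i else []) N

lemma outL_succ (N : ℕ) (tst : ℕ → Bool) (outb : ℕ → List α) (i : ℕ) :
    outL (N + 1) tst outb i = bif tst i then outL N tst outb (i + 1) ++ outb i else [] := rfl

lemma loop_eq {tst : ℕ → Bool} {body : ℕ → List α → (List α → β) → β} {outb : ℕ → List α}
    (hb : ∀ j acc k, body j acc k = k (outb j ++ acc)) : ∀ (N i : ℕ) (acc : List α)
    (k : List α → β), loop N tst body i acc k = k (outL N tst outb i ++ acc) := by
  intro N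
  induction N with
  | zero => intro i acc k; rfl
  | succ N ih =>
    intro i acc k
    have e1 : loop (N + 1) tst body i acc k = Bool.rec (motive := fun _ => β) (k acc)
      (Mid.frN (Nat.succ i) fun j => body i acc fun acc' => loop N tst body j acc' k) (tst i) := rfl
    rw [e1, outL_succ, Mid.frN_eq, hb, ih]
    cases tst i with
    | false => rfl
    | true =>
      show k (outL N tst outb (i + 1) ++ (outb i ++ acc)) = k ((outL N tst outb (i + 1) ++ outb i) ++ acc)
      rw [List.append_assoc]

lemma mem_outL {tst : ℕ → Bool} {outb : ℕ → List α} {x : α} : ∀ {N i j : ℕ}, i ≤ j → j < i + N →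
    (∀ l, i ≤ l → l ≤ j → tst l = true) → x ∈ outb j → x ∈ outL N tst outb i := by
  intro N
  induction N with
  | zero => intro i j h1 h2; omega
  | succ N ih =>
    intro i j h1 h2 h3 h4
    rw [outL_succ, h3 i le_rfl h1]
    show x ∈ outL N tst outb (i + 1) ++ outb i
    rw [List.mem_append]
    rcases Nat.eq_or_lt_of_le h1 with h5 | h5
    · exact Or.inr (h5 ▸ h4)
    · exact Or.inl (ih h5 (by omega) (fun l hl hl' => h3 l (by omega) hl') h4)

/-- nested loops -/
noncomputable def enu (act : List ℕ → List α → (List α → β) → β) (N : ℕ)
    (ts : List (ℕ → List ℕ → Bool)) : List ℕ → List α → (List α → β) → β :=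
  List.rec (motive := fun _ => List ℕ → List α → (List α → β) → β) act
    (fun t _ ih pre acc k => loop N (fun i => t i pre) (fun i acc' k' => ih (i :: pre) acc' k') 0
      acc k) ts

/-- the list of the nested loops -/
def outE (out : List ℕ → List α) (N : ℕ) (ts : List (ℕ → List ℕ → Bool)) : List ℕ → List α :=
  List.rec (motive := fun _ => List ℕ → List α) out
    (fun t _ ih pre => outL N (fun i => t i pre) (fun i => ih (i :: pre)) 0) ts

lemma enu_eq {act : List ℕ → List α → (List α → β) → β} {out : List ℕ → List α}
    (ha : ∀ pre acc k, act pre acc k = k (out pre ++ acc)) (N : ℕ) :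
    ∀ (ts : List (ℕ → List ℕ → Bool)) (pre : List ℕ) (acc : List α) (k : List α → β),
      enu act N ts pre acc k = k (outE out N ts pre ++ acc) := by
  intro ts
  induction ts with
  | nil => exact ha
  | cons t ts ih =>
    intro pre acc k
    exact loop_eq (outb := fun i => outE out N ts (i :: pre)) (fun j acc k => ih (j :: pre) acc k) N 0
      acc k

/-- the letters `l` (first letter first) pass all tests of their prefixes, also for smaller letters -/
def Pass (N : ℕ) : List (ℕ → List ℕ → Bool) → List ℕ → List ℕ → Prop
  | [], _, l => l = []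
  | _ :: _, _, [] => False
  | t :: ts, pre, a :: l => a < N ∧ (∀ i ≤ a, t i pre = true) ∧ Pass N ts (a :: pre) l

/-- **completeness** -/
theorem mem_outE {out : List ℕ → List α} {N : ℕ} {x : α} : ∀ {ts : List (ℕ → List ℕ → Bool)}
    {pre l : List ℕ}, Pass N ts pre l → x ∈ out (l.reverse ++ pre) → x ∈ outE out N ts pre := by
  intro ts
  induction ts with
  | nil =>
    intro pre l h hx
    have h1 : l = [] := h
    subst h1
    exact hx
  | cons t ts ih =>
    intro pre l h hx
    cases l with
    | nil => exact absurd h id
    | cons a l =>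
      obtain ⟨h1, h2, h3⟩ := h
      have e1 : outE out N (t :: ts) pre
          = outL N (fun i => t i pre) (fun i => outE out N ts (i :: pre)) 0 := rfl
      rw [e1]
      refine mem_outL (Nat.zero_le a) (by omega) (fun i _ hi => h2 i hi) (ih h3 ?_)
      rw [List.reverse_cons, List.append_assoc] at hx
      exact hx

/-! ### blocks: an outer enumeration of inner ones -/

/-- one element at the bottom, made from the letters (`mk` in continuation style) -/
noncomputable def one (mk : List ℕ → (α → β) → β) (pre : List ℕ) (acc : List α)
    (k : List α → β) : β := mk pre fun c => k (c :: acc)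

lemma one_eq {mk : List ℕ → (α → β) → β} {m : List ℕ → α} (h : ∀ pre k, mk pre k = k (m pre))
    (pre : List ℕ) (acc : List α) (k : List α → β) :
    one mk pre acc k = k ([m pre] ++ acc) := by
  unfold one
  rw [h]
  rfl

/-- the block of `pre` -/
noncomputable def blkE (mk : List ℕ → (α → β) → β) (N : ℕ) (ts : List (ℕ → List ℕ → Bool))
    (pre : List ℕ) (acc : List (List α)) (k : List (List α) → β) : β :=
  enu (one mk) N ts pre [] fun b => k (b :: acc)

/-- **all blocks**: outer letters by the tests `tu`, inner letters by the tests `ti` -/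
noncomputable def enuB (mk : List ℕ → (α → β) → β) (N : ℕ) (tu ti : List (ℕ → List ℕ → Bool))
    (k : List (List α) → β) : β := enu (blkE mk N ti) N tu [] [] k

/-- the blocks -/
def outB (m : List ℕ → α) (N : ℕ) (tu ti : List (ℕ → List ℕ → Bool)) : List (List α) :=
  outE (fun pre => [outE (fun p => [m p]) N ti pre]) N tu []

lemma enuB_eq {mk : List ℕ → (α → β) → β} {m : List ℕ → α} (h : ∀ pre k, mk pre k = k (m pre))
    (N : ℕ) (tu ti : List (ℕ → List ℕ → Bool)) (k : List (List α) → β) :
    enuB mk N tu ti k = k (outB m N tu ti) := by
  have h1 : ∀ (pre : List ℕ) (acc : List (List α)) (k : List (List α) → β),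
      blkE mk N ti pre acc k = k ([outE (fun p => [m p]) N ti pre] ++ acc) := by
    intro pre acc k
    unfold blkE
    rw [enu_eq (out := fun p => [m p]) (one_eq h), List.append_nil]
    rfl
  unfold enuB
  rw [enu_eq (out := fun pre => [outE (fun p => [m p]) N ti pre]) h1, List.append_nil]
  rfl

/-- **completeness of the blocks**: letters `lo` (outer) and `li` (inner) -/
theorem mem_outB {m : List ℕ → α} {N : ℕ} {tu ti : List (ℕ → List ℕ → Bool)} {lo li : List ℕ}
    (ho : Pass N tu [] lo) (hi : Pass N ti lo.reverse li) :
    m (li.reverse ++ lo.reverse) ∈ (outB m N tu ti).flatten := by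
  rw [List.mem_flatten]
  refine ⟨outE (fun p => [m p]) N ti lo.reverse, ?_, ?_⟩
  · refine mem_outE (l := lo) ho ?_
    rw [List.append_nil]
    exact List.mem_singleton.2 rfl
  · exact mem_outE hi (List.mem_singleton.2 rfl)

end En

end Pool.Agent.Lib.MP_f04ccf_co
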