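import Pool.Agent.Lib.MP_f04ccf_co.M.RowM

/-!
MP_f04ccf_co, TEXT D, middle range: **all facts of one cell for the check of a leaf** (note 19145, 19149).

* `Cnt`: a content in naturals (`md` = hosted clique items with two units in the cell, `mc` units, `mc - md` items);
  `BoxM`: a box of states (`y0 y1` = interval of `h - hn`); `TbM`: the tables by the size of the cell (misses `bH`,
  misses and arcs `wH` of a hosted half; misses `bS`, arcs `a1`, misses and arcs `Wm` of a served half; misses `bC`, arcs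
  `aC` of a hosted clique item, misses `bK` and arcs at other rows `aK` of a served clique item); `TbM.Ok`: valid;
* **`CelF`**: everything the check may assume of a cell of the row; **`RowV.celF`**;
* the hosted units of value one may be split freely (`m1 ≤ mf`, `m1 + m2 = mf + mh`).
-/

set_option autoImplicit false

namespace Pool.Agent.Lib.MP_f04ccf_co

open Finset

attribute [local instance] Classical.propDecidable

/-- the content of a cell -/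
structure Cnt where
  (B p x q m1 m2 mc md k0 k2 c ca : ℕ)

/-- the same in integers -/
def Cnt.toN (c : Cnt) : CelN :=
  ⟨c.B, c.p, c.x, c.q, c.m1, c.m2, c.mc, c.k0, c.k2, c.c, c.ca⟩

/-- a box of states: deficiency `d`, hosted plain items `n`, their value `h`, block pairs `P`, Konig pairs `X`, served
PC pairs `K`, full served units `F`, served halves `S`, served clique units `C` and items `Ca`, largest block `p1`,
`y` = `h - n` -/
structure BoxM where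
  (d0 d1 n0 n1 h0 h1 y0 y1 P0 P1 X0 X1 K0 K1 F0 F1 S0 S1 C0 C1 Ca0 Ca1 p1 : ℕ)

/-- the tables by the size of the cell -/
structure TbM where
  (bH wH bS a1 Wm bC aC bK aK : ℕ → ℕ)

/-- the tables are valid for a cell -/
structure TbM.Ok (tb : TbM) (B mh mhb mha mcn mcb mcr kh khb kha kca kcb kcw : ℕ) : Prop where
  bH : mhb ≤ mh * tb.bH B
  wH : mhb + mha ≤ mh * tb.wH B
  bS : khb ≤ kh * tb.bS B
  a1 : kha ≤ kh * tb.a1 B
  Wm : khb + kha ≤ kh * tb.Wm B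
  bC : mcb ≤ mcn * tb.bC B
  aC : mcr ≤ mcn * tb.aC B
  bK : kcb ≤ kca * tb.bK B
  aK : kcw ≤ kca * tb.aK B

/-- the saving of the units of value one in a cap -/
def svV (a k : ℤ) : ℤ := 2 * (a * (a - 1)) + 2 * (k * (k - 1))

/-- the column filters with the letters of a content (cliques used iff `v = 1`) -/
def ColC (R A : ℕ) (β : BoxM) (c : Cnt) (u v : ℕ) (mb mb1 w : ℤ) : Prop :=
  ColBox R A ⟨c.B, c.p, c.x, c.q, c.m1, c.m2, c.mc, c.k0, c.k2, v * c.c, v * c.ca⟩ u mb mb1 w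
    (β.n0 * ((β.n0 : ℤ) - 1)) β.p1 β.d0 β.d1 β.h0 β.h1 β.P0 β.P1 ((β.d0 : ℤ) + β.n0)
    (min ((β.d1 : ℤ) + β.n1) A)

/-- **all facts of one cell**: content `c`; served halves: misses `kb`, misses and arcs `w`; hosted halves: misses `hb`,
misses and arcs `hw`; hosted cliques: misses `hc`, misses and arcs `hcw`; served cliques: misses `cb`, misses and all arcs
`wc`, misses and arcs at other rows `cbw`; `nn` the excess -/
structure CelF (R A : ℕ) (β : BoxM) (tb : TbM) (c : Cnt)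
    (kb w hb hw hc hcw cb wc cbw nn : ℕ) : Prop where
  size : A + c.B + 3 ≤ R
  B1 : 1 ≤ c.B
  pxq : c.p + c.x + c.q ≤ c.B ∧ c.p + c.x + c.q ≤ A
  js : ∀ m : ℕ, m ≤ c.p + c.x + c.q →
    ((m : ℤ) - 1) * R ≤ ((A : ℤ) - 1) * ((c.B : ℤ) - 1) + (m : ℤ) ^ 2
  pP : c.p ≤ β.p1 ∧ c.p ≤ β.P1 ∧ c.x ≤ β.X1 ∧ c.q ≤ β.K1
  kk : c.k0 ≤ β.F1 ∧ c.k2 ≤ β.S1 ∧ c.c ≤ β.C1 ∧ c.ca ≤ β.Ca1
  mm : c.m1 + c.m2 ≤ β.n1 ∧ c.m1 + c.m2 + c.mc ≤ β.h1
  mmc : 2 * c.md ≤ c.mc ∧ c.m1 + c.m2 + (c.mc - c.md) ≤ β.n1 ∧ c.m1 + c.m2 + c.md ≤ β.n1 ∧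
    c.mc - c.md ≤ β.y1
  cca : c.ca ≤ c.c ∧ c.c ≤ 2 * c.ca
  kbS : kb ≤ c.k2 * tb.bS c.B
  wa : w ≤ kb + c.k2 * tb.a1 c.B
  ww : w ≤ c.k2 * tb.Wm c.B
  kbw : kb ≤ w
  hbH : hb ≤ c.m2 * tb.bH c.B
  hwH : hw ≤ c.m2 * tb.wH c.B
  hcC : hc ≤ (c.mc - c.md) * tb.bC c.B
  hcwC : hcw ≤ hc + (c.mc - c.md) * tb.aC c.B
  cbK : cb ≤ c.ca * tb.bK c.B
  cbwK : cbw ≤ cb + c.ca * tb.aK c.B
  wcK : wc ≤ cb + c.ca * c.q + c.ca * tb.aK c.B
  nnz : c.p + c.x = 0 → nn = 0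
  nnb : ∀ v : ℕ, (1 + (A - 1) * (c.B - 1) < (v + 1) ^ 2 ∨
      ((A : ℤ) - 1) * ((c.B : ℤ) - 1) + ((c.p : ℤ) + c.x) ^ 2
        < ((c.p : ℤ) + c.x - 1) * R + (max 0 ((v : ℤ) + 2 - (c.p + c.x))) ^ 2) →
    nn ≤ (c.p + c.x) * (c.p + c.x + 1) + 2 * ((c.p + c.x) * v)
  capM : CapVM R A c.B ((c.p : ℤ) + c.x + c.q) ((c.m1 : ℤ) + c.m2) ((c.k0 : ℤ) + c.k2) hw w
    (svV ((c.m1 : ℤ) + c.m2) ((c.k0 : ℤ) + c.k2))
  capO : CapVO R A c.B ((c.p : ℤ) + c.x) c.q ((c.m1 : ℤ) + c.m2) ((c.k0 : ℤ) + c.k2) hw w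
    (svV ((c.m1 : ℤ) + c.m2) ((c.k0 : ℤ) + c.k2))
  capMc : CpM R A c.B ((c.p : ℤ) + c.x + c.q) ((c.m1 : ℤ) + c.m2 + (c.mc - c.md : ℕ))
    ((c.m1 : ℤ) + c.m2 + c.mc) ((c.k0 : ℤ) + c.k2 + c.ca) ((c.k0 : ℤ) + c.k2 + c.c)
    ((hw : ℤ) + hcw) ((w : ℤ) + cbw) (svV ((c.m1 : ℤ) + c.m2) ((c.k0 : ℤ) + c.k2))
  capOc : CpO R A c.B ((c.p : ℤ) + c.x) c.q ((c.m1 : ℤ) + c.m2 + (c.mc - c.md : ℕ))
    ((c.m1 : ℤ) + c.m2 + c.mc) ((c.k0 : ℤ) + c.k2 + c.ca) ((c.k0 : ℤ) + c.k2 + c.c)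
    ((hw : ℤ) + hcw) ((w : ℤ) + cbw) (svV ((c.m1 : ℤ) + c.m2) ((c.k0 : ℤ) + c.k2))
  col : ∀ u : ℕ, u ≤ 1 → ColC R A β c u 1 ((hb : ℤ) + hc) hb ((w : ℤ) + c.k2 * c.q + wc)
  col0 : ColC R A β c 1 0 ((hb : ℤ) + hc) hb ((w : ℤ) + c.k2 * c.q)

section MidX

variable {R : ℕ} {P : Finset ℕ} {A d hn h : ℕ}
  {B p x q mf mh mhb mha mc mcb mcn mcv kf kh khb kha kc kca kcb kcr sg en nn : ℕ → ℕ}

/-- the filters do not see how the hosted units of value one are split -/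
lemma ColBox.split {R A : ℤ} {c : CelN} {m1 m2 u mb mb1 w gn p1 d0 d1 H0 H1 P0 P1 D0 D1 : ℤ}
    (h : ColBox R A c u mb mb1 w gn p1 d0 d1 H0 H1 P0 P1 D0 D1) (hp : 0 ≤ p1)
    (h1 : m1 ≤ c.m1) (h2 : m1 + m2 = c.m1 + c.m2) :
    ColBox R A ⟨c.B, c.p, c.x, c.q, m1, m2, c.mc, c.k0, c.k2, c.c, c.ca⟩ u mb mb1 w gn p1 d0 d1 H0
      H1 P0 P1 D0 D1 := by
  obtain ⟨a1, ⟨d, H, e1, e2, a2⟩, ⟨D, P, e3, e4, a3⟩, ⟨D', e5, a4⟩⟩ := h
  have hm : m2 = c.m1 + c.m2 - m1 := by linarith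
  subst hm
  have k1 : m1 + (c.m1 + c.m2 - m1) = c.m1 + c.m2 := by ring
  have k2 : 0 ≤ p1 * (c.m1 - m1) := mul_nonneg hp (by linarith)
  refine ⟨?_, ⟨d, H, e1, e2, ?_⟩, ⟨D, P, e3, e4, ?_⟩, ⟨D', e5, ?_⟩⟩
  · dsimp only
    rw [k1]
    exact a1
  · dsimp only
    rw [k1]
    refine a2.trans ?_
    unfold colAO colR
    linarith
  · dsimp only
    unfold colOK at a3 ⊢
    rw [k1]
    exact a3
  · dsimp only
    refine a4.trans ?_
    unfold colOO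
    rw [k1]
    unfold colR
    linarith

/-- more misses, weaker caps -/
lemma CapVM.mono {R A B M a k b w b1 w1 sv : ℤ} (h : CapVM R A B M a k b w sv) (h1 : b ≤ b1)
    (h2 : w ≤ w1) : CapVM R A B M a k b1 w1 sv := by
  unfold CapVM at h ⊢
  linarith

lemma CapVO.mono {R A B p q a k b w b1 w1 sv : ℤ} (h : CapVO R A B p q a k b w sv) (h1 : b ≤ b1)
    (h2 : w ≤ w1) : CapVO R A B p q a k b1 w1 sv := by
  unfold CapVO at h ⊢
  linarith

/-- the state lies in the box -/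
structure BoxM.In (β : BoxM) (Q : Finset ℕ) (d hn h : ℕ) (p x q kf kh kc kca : ℕ → ℕ) : Prop where
  d : β.d0 ≤ d ∧ d ≤ β.d1
  n : β.n0 ≤ hn ∧ hn ≤ β.n1
  y : β.y0 + hn ≤ h ∧ h ≤ β.y1 + hn
  h : β.h0 ≤ h ∧ h ≤ β.h1
  P : β.P0 ≤ ∑ y ∈ Q, p y ∧ ∑ y ∈ Q, p y ≤ β.P1
  X : β.X0 ≤ ∑ y ∈ Q, x y ∧ ∑ y ∈ Q, x y ≤ β.X1
  K : β.K0 ≤ ∑ y ∈ Q, q y ∧ ∑ y ∈ Q, q y ≤ β.K1
  F : β.F0 ≤ ∑ y ∈ Q, kf y ∧ ∑ y ∈ Q, kf y ≤ β.F1
  S : β.S0 ≤ ∑ y ∈ Q, kh y ∧ ∑ y ∈ Q, kh y ≤ β.S1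
  C : β.C0 ≤ ∑ y ∈ Q, kc y ∧ ∑ y ∈ Q, kc y ≤ β.C1
  Ca : β.Ca0 ≤ ∑ y ∈ Q, kca y ∧ ∑ y ∈ Q, kca y ≤ β.Ca1
  pm : ∀ y ∈ Q, p y ≤ β.p1

/-- the filters with plain units used (`u`) and cliques used (`v`), general form -/
theorem RowV.colBoxC (V : RowV R P A d hn h B p x q mf mh mhb mha mc mcb mcn mcv kf kh khb kha kc
    kca kcb kcr sg en nn) {y : ℕ} (hy : y ∈ P) {β : BoxM}
    (hβ : β.In P d hn h p x q kf kh kc kca) {u v : ℕ} (hu : u ≤ 1) (hv : v ≤ u) {m1 m2 md : ℕ}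
    (hm1 : m1 ≤ mf y) (hm2 : m1 + m2 = mf y + mh y) {w : ℤ}
    (hw : (khb y : ℤ) + kha y + kh y * q y + v * ((kcb y : ℤ) + kcr y) ≤ w) :
    ColC R A β ⟨B y, p y, x y, q y, m1, m2, mc y, md, kf y, kh y, kc y, kca y⟩ u v
      ((mhb y : ℤ) + mcb y) (mhb y) w := by
  have e1 : (m1 : ℤ) + m2 = (mf y : ℤ) + mh y := by exact_mod_cast hm2
  have hgn : (β.n0 : ℤ) * ((β.n0 : ℤ) - 1) ≤ (hn : ℤ) * (hn - 1) := by
    have h1 : (β.n0 : ℤ) ≤ hn := by exact_mod_cast hβ.n.1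
    rcases Nat.eq_zero_or_pos β.n0 with h2 | h2
    · rw [h2]
      have h3 : (0 : ℤ) ≤ (hn : ℤ) * (hn - 1) := by
        rcases Nat.eq_zero_or_pos hn with h4 | h4
        · rw [h4]; norm_num
        · have : (1 : ℤ) ≤ hn := by exact_mod_cast h4
          exact mul_nonneg (by linarith) (by linarith)
      simpa using h3
    · have h3 : (1 : ℤ) ≤ β.n0 := by exact_mod_cast h2
      nlinarith
  have hsg : (d : ℤ) + hn ≤ A := by
    have h2 : ((∑ y ∈ P, sg y + hn + d : ℕ) : ℤ) ≤ A := by exact_mod_cast V.sgs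
    push_cast at h2
    have h3 : (0 : ℤ) ≤ ∑ l ∈ P, (sg l : ℤ) := sum_nonneg fun _ _ => Nat.cast_nonneg _
    linarith
  have hv1 : v ≤ 1 := hv.trans hu
  have hd0 : (β.d0 : ℤ) ≤ d := by exact_mod_cast hβ.d.1
  have hd1 : (d : ℤ) ≤ β.d1 := by exact_mod_cast hβ.d.2
  have hH0 : (β.h0 : ℤ) ≤ h := by exact_mod_cast hβ.h.1
  have hH1 : (h : ℤ) ≤ β.h1 := by exact_mod_cast hβ.h.2
  have hP0 : (β.P0 : ℤ) ≤ ∑ l ∈ P, (p l : ℤ) := by exact_mod_cast hβ.P.1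
  have hP1 : ∑ l ∈ P, (p l : ℤ) ≤ β.P1 := by exact_mod_cast hβ.P.2
  have hD0 : (β.d0 : ℤ) + β.n0 ≤ (d : ℤ) + hn := by
    have h2 : (β.n0 : ℤ) ≤ hn := by exact_mod_cast hβ.n.1
    linarith
  have hD1 : (d : ℤ) + hn ≤ min ((β.d1 : ℤ) + β.n1) A := le_min (by
    have h2 : (hn : ℤ) ≤ β.n1 := by exact_mod_cast hβ.n.2
    linarith) hsg
  rcases Nat.le_one_iff_eq_zero_or_eq_one.1 hv1 with hv0 | hv0
  · -- no cliques used: from the general column tests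
    subst hv0
    obtain ⟨b1, b2⟩ := blk_kept (p := p) hy hβ.pm (fun l => (en l : ℤ)) (fun l => (sg l : ℤ))
    obtain ⟨o1, o2⟩ := V.blk_out hy hβ.pm
    have hp1 : (0 : ℤ) ≤ β.p1 := Nat.cast_nonneg _
    have hpm' : ∀ l ∈ P, l ≠ y → p l ≤ β.p1 := fun l hl _ => hβ.pm l hl
    have hq : u * q y ≤ q y := by nlinarith
    have hf : u * kf y ≤ kf y := by nlinarith
    have hh : u * kh y ≤ kh y := by nlinarith
    obtain ⟨w1, w2, w3, w4, w5⟩ := V.colK y hy (u * q y) (u * kf y) (u * kh y) 0 hq hf hh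
      (by norm_num)
    obtain ⟨bb, v1, c1, c2, c3, v2, v3, v4, v5⟩ := V.colD y hy β.p1 hpm' (mf y) (mh y) le_rfl
      le_rfl (u * q y) (u * kf y) (u * kh y) 0 hq hf hh (by norm_num)
    have hX : ((q y : ℤ) - (u * q y : ℕ)) * (u * kf y : ℕ) = 0 := by
      rcases Nat.le_one_iff_eq_zero_or_eq_one.1 hu with h1 | h1
      · rw [h1]; simp
      · rw [h1]; simp
    have hwle : ∀ w' : ℤ, w' ≤ (khb y : ℤ) + kha y → (kh y : ℤ) * w'
        ≤ (u * kh y : ℕ) * ((khb y : ℤ) + kha y) → w' + (u * kh y : ℕ) * q y ≤ u * w := by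
      intro w' h1 h2
      rcases Nat.le_one_iff_eq_zero_or_eq_one.1 hu with h3 | h3
      · rw [h3] at h2 ⊢
        simp only [zero_mul, Nat.cast_zero, add_zero] at h2 ⊢
        by_cases h4 : kh y = 0
        · obtain ⟨h5, h6⟩ := V.kh0 hy h4
          rw [h5, h6] at h1
          simpa using h1
        · have h5 : (0 : ℤ) < kh y := by
            have : 0 < kh y := Nat.pos_of_ne_zero h4
            exact_mod_cast this
          by_contra h6
          push Not at h6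
          have := mul_pos h5 h6
          linarith
      · rw [h3] at h2 ⊢
        push_cast at hw ⊢
        linarith
    have a1 := hwle w1 w3 w4
    have a2 := hwle v1 v3 v4
    have f1 := colN_iff.1 (w5 ∅ (empty_subset _))
    have f2 := colN_iff.1 (w5 (P.erase y) (Subset.refl _))
    have f3 := colN_iff.1 (v5 ∅ (empty_subset _))
    have f4 := colN_iff.1 (v5 (P.erase y) (Subset.refl _))
    obtain ⟨b3, b4⟩ := blk_kept (p := p) hy hβ.pm (fun _ => 0) (fun l => (sg l : ℤ))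
    rw [b1, hX] at f1
    rw [Finset.sdiff_self, sum_empty, hX] at f2
    unfold blkE at b4
    rw [sdiff_empty] at b4
    rw [b1, hX] at f3
    rw [sdiff_empty, if_pos rfl] at f3
    simp only [sum_empty, mul_zero, add_zero] at f3 b4
    rw [hX] at f4
    rw [Finset.sdiff_self] at f4
    simp only [sum_empty, zero_add] at f4
    have h9 : (if P.erase y = ∅ then (0 : ℤ) else (mh y : ℤ) * (β.p1 : ℕ)) ≤ (mh y : ℤ) * β.p1 := by
      split_ifs
      · positivity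
      · exact le_rfl
    have eM : (p y : ℤ) + x y + (u * q y : ℕ) = (p y : ℤ) + x y + u * q y := by push_cast; ring
    have ek : ((u * kf y : ℕ) : ℤ) + (u * kh y : ℕ) + 0 * (kc y : ℤ)
        = u * ((kf y : ℤ) + kh y + 0) := by push_cast; ring
    have eka : ((u * kf y : ℕ) : ℤ) + (u * kh y : ℕ) + 0 * (kca y : ℤ)
        = u * ((kf y : ℤ) + kh y + 0) := by push_cast; ring
    have ek1 : ((u * kf y : ℕ) : ℤ) + (u * kh y : ℕ) = u * ((kf y : ℤ) + kh y) := by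
      push_cast; ring
    rw [Nat.cast_zero] at f1 f2 f3 f4
    rw [eM, ek, eka, ek1] at f1 f2 f3 f4
    unfold ColC ColBox
    dsimp only
    simp only [Nat.cast_zero, zero_mul]
    refine ⟨?_, ?_, ?_, ?_⟩
    · have k1 : 0 ≤ colAK R A (B y) (p y) ((p y : ℤ) + x y + u * q y) ((m1 : ℤ) + m2 + mc y)
          ((mhb y : ℤ) + mcb y) (u * ((kf y : ℤ) + kh y + 0)) (u * ((kf y : ℤ) + kh y + 0))
          (u * ((kf y : ℤ) + kh y)) (u * w) (β.n0 * ((β.n0 : ℤ) - 1)) β.p1 d h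
          (∑ l ∈ P, (p l : ℤ)) := by
        rw [e1]
        unfold colAK
        unfold colR at f1 ⊢
        linarith
      obtain ⟨g1, -, -⟩ := colAK_cvx R A (B y) (p y) ((p y : ℤ) + x y + u * q y)
        ((m1 : ℤ) + m2 + mc y) ((mhb y : ℤ) + mcb y) (u * ((kf y : ℤ) + kh y + 0))
        (u * ((kf y : ℤ) + kh y + 0)) (u * ((kf y : ℤ) + kh y)) (u * w)
        (β.n0 * ((β.n0 : ℤ) - 1)) β.p1 d h (∑ l ∈ P, (p l : ℤ))
      obtain ⟨d', q1, q2⟩ := g1.pick hd0 hd1 k1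
      obtain ⟨-, g2, -⟩ := colAK_cvx R A (B y) (p y) ((p y : ℤ) + x y + u * q y)
        ((m1 : ℤ) + m2 + mc y) ((mhb y : ℤ) + mcb y) (u * ((kf y : ℤ) + kh y + 0))
        (u * ((kf y : ℤ) + kh y + 0)) (u * ((kf y : ℤ) + kh y)) (u * w)
        (β.n0 * ((β.n0 : ℤ) - 1)) β.p1 d' h (∑ l ∈ P, (p l : ℤ))
      obtain ⟨H', q3, q4⟩ := g2.pick hH0 hH1 q2
      obtain ⟨-, -, g3⟩ := colAK_cvx R A (B y) (p y) ((p y : ℤ) + x y + u * q y)
        ((m1 : ℤ) + m2 + mc y) ((mhb y : ℤ) + mcb y) (u * ((kf y : ℤ) + kh y + 0))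
        (u * ((kf y : ℤ) + kh y + 0)) (u * ((kf y : ℤ) + kh y)) (u * w)
        (β.n0 * ((β.n0 : ℤ) - 1)) β.p1 d' H' (∑ l ∈ P, (p l : ℤ))
      obtain ⟨P', q5, q6⟩ := g3.pick hP0 hP1 q4
      exact ⟨d', H', P', q1, q3, q5, q6⟩
    · have k1 : 0 ≤ colAO R A (B y) ((p y : ℤ) + x y + u * q y) ((m1 : ℤ) + m2 + mc y) m1 m2
          ((mhb y : ℤ) + mcb y) (u * ((kf y : ℤ) + kh y + 0)) (u * ((kf y : ℤ) + kh y + 0))
          (u * ((kf y : ℤ) + kh y)) (u * w) (β.n0 * ((β.n0 : ℤ) - 1)) β.p1 d h := by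
        have k2 : 0 ≤ (β.p1 : ℤ) * (mf y - m1) := mul_nonneg hp1 (by
          have : (m1 : ℤ) ≤ mf y := by exact_mod_cast hm1
          linarith)
        have e2 : (m2 : ℤ) = mf y + mh y - m1 := by linarith
        unfold colAO
        rw [e1, e2]
        unfold colR at f2 ⊢
        linarith
      obtain ⟨g1, -⟩ := colAO_cvx R A (B y) ((p y : ℤ) + x y + u * q y)
        ((m1 : ℤ) + m2 + mc y) m1 m2 ((mhb y : ℤ) + mcb y) (u * ((kf y : ℤ) + kh y + 0))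
        (u * ((kf y : ℤ) + kh y + 0)) (u * ((kf y : ℤ) + kh y)) (u * w)
        (β.n0 * ((β.n0 : ℤ) - 1)) β.p1 d h
      obtain ⟨d', q1, q2⟩ := g1.pick hd0 hd1 k1
      obtain ⟨-, g2⟩ := colAO_cvx R A (B y) ((p y : ℤ) + x y + u * q y)
        ((m1 : ℤ) + m2 + mc y) m1 m2 ((mhb y : ℤ) + mcb y) (u * ((kf y : ℤ) + kh y + 0))
        (u * ((kf y : ℤ) + kh y + 0)) (u * ((kf y : ℤ) + kh y)) (u * w)
        (β.n0 * ((β.n0 : ℤ) - 1)) β.p1 d' h
      obtain ⟨H', q3, q4⟩ := g2.pick hH0 hH1 q2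
      exact ⟨d', H', q1, q3, q4⟩
    · have k1 : 0 ≤ colOK R A (B y) (p y) ((p y : ℤ) + x y + u * q y) m1 m2 (mhb y)
          (u * ((kf y : ℤ) + kh y + 0)) (u * ((kf y : ℤ) + kh y + 0))
          (u * ((kf y : ℤ) + kh y)) (u * w) β.p1 ((d : ℤ) + hn) (∑ l ∈ P, (p l : ℤ)) := by
        unfold colOK
        rw [e1]
        unfold colR at f3 ⊢
        linarith
      obtain ⟨g1, -⟩ := colOK_cvx R A (B y) (p y) ((p y : ℤ) + x y + u * q y) m1 m2 (mhb y)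
        (u * ((kf y : ℤ) + kh y + 0)) (u * ((kf y : ℤ) + kh y + 0)) (u * ((kf y : ℤ) + kh y))
        (u * w) β.p1 ((d : ℤ) + hn) (∑ l ∈ P, (p l : ℤ))
      obtain ⟨D', q1, q2⟩ := g1.pick hD0 hD1 k1
      obtain ⟨-, g2⟩ := colOK_cvx R A (B y) (p y) ((p y : ℤ) + x y + u * q y) m1 m2 (mhb y)
        (u * ((kf y : ℤ) + kh y + 0)) (u * ((kf y : ℤ) + kh y + 0)) (u * ((kf y : ℤ) + kh y))
        (u * w) β.p1 D' (∑ l ∈ P, (p l : ℤ))
      obtain ⟨P', q3, q4⟩ := g2.pick hP0 hP1 q2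
      exact ⟨D', P', q1, q3, q4⟩
    · have k1 : 0 ≤ colOO R A (B y) ((p y : ℤ) + x y + u * q y) m1 m2 (mhb y)
          (u * ((kf y : ℤ) + kh y + 0)) (u * ((kf y : ℤ) + kh y + 0))
          (u * ((kf y : ℤ) + kh y)) (u * w) β.p1 ((d : ℤ) + hn) := by
        have k2 : 0 ≤ (β.p1 : ℤ) * (mf y - m1) := mul_nonneg hp1 (by
          have : (m1 : ℤ) ≤ mf y := by exact_mod_cast hm1
          linarith)
        have e2 : (m2 : ℤ) = mf y + mh y - m1 := by linarith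
        unfold colOO
        rw [e1, e2]
        unfold colR at f4 ⊢
        linarith
      have g1 := colOO_cvx R A (B y) ((p y : ℤ) + x y + u * q y) m1 m2 (mhb y)
        (u * ((kf y : ℤ) + kh y + 0)) (u * ((kf y : ℤ) + kh y + 0)) (u * ((kf y : ℤ) + kh y))
        (u * w) β.p1 ((d : ℤ) + hn)
      obtain ⟨D', q1, q2⟩ := g1.pick hD0 hD1 k1
      exact ⟨D', q1, q2⟩
  · -- cliques used: `u = 1`
    subst hv0
    obtain rfl : u = 1 := by omega
    have hcb := V.colBox hy (pm := β.p1) hβ.pm le_rfl rfl (mb := (mhb y : ℤ) + mcb y)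
      (mb1 := mhb y) (w := w)
      (gn := β.n0 * ((β.n0 : ℤ) - 1)) (p1 := β.p1) (d0 := β.d0) (d1 := β.d1) (H0 := β.h0)
      (H1 := β.h1) (P0 := β.P0) (P1 := β.P1) (D0 := (β.d0 : ℤ) + β.n0)
      (D1 := min ((β.d1 : ℤ) + β.n1) A) le_rfl le_rfl (by rw [Nat.cast_one, one_mul] at hw; exact hw)
      hgn le_rfl hd0 hd1 hH0 hH1 hP0 hP1 hD0 hD1
    have hsp := hcb.split (m1 := m1) (m2 := m2) (Nat.cast_nonneg _)
      (by dsimp only; exact_mod_cast hm1) e1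
    unfold ColC
    dsimp only
    simp only [Nat.cast_one, one_mul] at hsp ⊢
    exact hsp

/-- **ALL FACTS OF ONE CELL** -/
theorem RowV.celF {mcr kcw bt : ℕ → ℕ} (V : RowV R P A d hn h B p x q mf mh mhb mha mc mcb mcn mcv kf
    kh khb kha kc kca kcb kcr sg en nn)
    (C : RowU R P A B p x q mf mh mhb mha mc mcb mcn mcr kf kh khb kha kc kca kcb kcw bt)
    (M : RowMc P hn h q mf mh mc mcn kca kcr kcw) {y : ℕ} (hy : y ∈ P)
    {β : BoxM} (hβ : β.In P d hn h p x q kf kh kc kca) {tb : TbM}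
    (ht : tb.Ok (B y) (mh y) (mhb y) (mha y) (mcn y) (mcb y) (mcr y) (kh y) (khb y) (kha y)
      (kca y) (kcb y) (kcw y)) {m1 m2 : ℕ} (hm1 : m1 ≤ mf y) (hm2 : m1 + m2 = mf y + mh y) :
    CelF R A β tb ⟨B y, p y, x y, q y, m1, m2, mc y, mc y - mcn y, kf y, kh y, kc y, kca y⟩
      (khb y) (khb y + kha y) (mhb y) (mhb y + mha y) (mcb y) (mcb y + mcr y) (kcb y)
      (kcb y + kcr y) (kcb y + kcw y) (nn y) := by
  have hm : mh y ≤ m2 := by omega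
  have sle : ∀ f : ℕ → ℕ, f y ≤ ∑ l ∈ P, f l := fun f =>
    single_le_sum (f := f) (fun _ _ => Nat.zero_le _) hy
  have hh := V.hS
  have hh1 : mf y + mh y + mc y ≤ h := by
    rw [hh]
    exact sle fun l => mf l + mh l + mc l
  have hh2 : mf y + mh y ≤ hn := (sle fun l => mf l + mh l).trans V.hn1
  have hmcn := (V.mcn1 y hy).1
  have hmc2 := M.mc2 y hy
  have emc : mc y - (mc y - mcn y) = mcn y := by omega
  obtain ⟨b', w', -, c2, -, -, c5, -, c7⟩ :=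
    V.cap y hy (mf y) (mh y) (kf y) (kh y) le_rfl le_rfl le_rfl le_rfl
  have cM := (c7 _ (Or.inl rfl)).1
  have cO := (c7 _ (Or.inl rfl)).2
  obtain ⟨b1, w1, -, d2, -, -, d5, -, d7, d8⟩ :=
    C.capc y hy (mf y) (mh y) (kf y) (kh y) 1 1 le_rfl le_rfl le_rfl le_rfl le_rfl le_rfl
  have e1 : (m1 : ℤ) + m2 = (mf y : ℤ) + mh y := by exact_mod_cast hm2
  have hsz : A + B y + 3 ≤ R := by
    have h1 := V.mass
    have h2 : B y + (P.erase y).card ≤ ∑ l ∈ P, B l := by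
      rw [← add_sum_erase P B hy]
      have : (P.erase y).card ≤ ∑ l ∈ P.erase y, B l := by
        have h3 : (P.erase y).card • 1 ≤ ∑ l ∈ P.erase y, B l :=
          card_nsmul_le_sum _ _ _ fun l hl => V.B1 l (mem_of_mem_erase hl)
        simpa using h3
      omega
    rw [card_erase_of_mem hy] at h2
    have h4 := V.P4
    omega
  constructor
  case size => exact hsz
  case B1 => exact V.B1 y hy
  case pxq => exact ⟨(V.bqB y hy).1, (V.bqB y hy).2⟩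
  case js => exact V.jsub y hy
  case pP => exact ⟨hβ.pm y hy, (sle p).trans hβ.P.2, (sle x).trans hβ.X.2, (sle q).trans hβ.K.2⟩
  case kk => exact ⟨(sle kf).trans hβ.F.2, (sle kh).trans hβ.S.2, (sle kc).trans hβ.C.2,
      (sle kca).trans hβ.Ca.2⟩
  case mm =>
    dsimp only
    have h1 := hβ.n.2
    have h2 := hβ.h.2
    omega
  case mmc =>
    dsimp only
    have h1 := hβ.n.2
    have h2 := hβ.y.2
    have h3 := M.hny y hy
    have h4 := M.mcX y hy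
    have h5 : mf y + mh y + (mc y - mcn y) ≤ hn :=
      (sle fun l => mf l + mh l + (mc l - mcn l)).trans M.hnd
    omega
  case cca => exact V.kca1 y hy
  case kbS => exact ht.bS
  case wa => exact Nat.add_le_add_left ht.a1 _
  case ww => exact ht.Wm
  case kbw => exact Nat.le_add_right _ _
  case hbH => exact ht.bH.trans (Nat.mul_le_mul_right _ hm)
  case hwH => exact ht.wH.trans (Nat.mul_le_mul_right _ hm)
  case hcC =>
    dsimp only
    rw [emc]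
    exact ht.bC
  case hcwC =>
    dsimp only
    rw [emc]
    exact Nat.add_le_add_left ht.aC _
  case cbK => exact ht.bK
  case cbwK => exact Nat.add_le_add_left ht.aK _
  case wcK =>
    dsimp only
    have h1 := M.kcrq y hy
    have h2 := ht.aK
    omega
  case nnz => exact V.nnz y hy
  case nnb => exact V.nnb y hy
  case capM =>
    dsimp only
    rw [e1]
    exact cM.mono (by push_cast; exact c2) (by push_cast; exact c5)
  case capO =>
    dsimp only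
    rw [e1]
    exact cO.mono (by push_cast; exact c2) (by push_cast; exact c5)
  case capMc =>
    dsimp only
    rw [e1, emc]
    unfold CpM at d7 ⊢
    unfold svV
    push_cast at d7 ⊢
    linarith
  case capOc =>
    dsimp only
    rw [e1, emc]
    unfold CpO at d8 ⊢
    unfold svV
    push_cast at d8 ⊢
    linarith
  case col =>
    intro u hu
    rcases Nat.le_one_iff_eq_zero_or_eq_one.1 hu with h0 | h0
    · subst h0
      have h1 := V.colBoxC hy hβ (u := 0) (v := 0) (by norm_num) le_rfl (md := mc y - mcn y) hm1 hm2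
        (w := ((khb y + kha y : ℕ) : ℤ) + (kh y : ℤ) * q y + ((kcb y + kcr y : ℕ) : ℤ)) (by
          push_cast
          have : (0 : ℤ) ≤ (kcb y : ℤ) + kcr y := by positivity
          linarith)
      unfold ColC ColBox at h1 ⊢
      dsimp only at h1 ⊢
      simp only [Nat.cast_zero, zero_mul] at h1 ⊢
      exact h1
    · subst h0
      exact V.colBoxC hy hβ (u := 1) (v := 1) le_rfl le_rfl hm1 hm2 (by
        push_cast
        linarith)
  case col0 =>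
    exact V.colBoxC hy hβ (u := 1) (v := 0) le_rfl (by norm_num) hm1 hm2 (by
      push_cast
      linarith)

end MidX

end Pool.Agent.Lib.MP_f04ccf_co
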