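import Pool.Agent.Lib.MP_f04ccf_co.M.EnuK
import Pool.Agent.Lib.MP_f04ccf_co.M.MidX

/-!
MP_f04ccf_co, TEXT D, middle range: **the content of a true cell is in the list of the kernel** (value one).

* `CapVM.nat`, `CapVO.nat`: the caps in naturals; `RowV.ctOk`: all families of the content of a cell are allowed;
* `RowV.code_mem`: the code is in `Em.rowO`.
-/

set_option autoImplicit false

namespace Pool.Agent.Lib.MP_f04ccf_co

open Finset

attribute [local instance] Classical.propDecidable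

/-- the cap with the PC pairs in naturals -/
lemma CapVM.nat {R A B M a k b w : ℕ} (hA : 1 ≤ A) (hB : 1 ≤ B)
    (h : CapVM R A B M a k b w (2 * ((a : ℤ) * (a - 1)) + 2 * ((k : ℤ) * (k - 1)))) :
    M * R + a * (R + B - 1) + k * (R + A - 1) + a * a + k * k
      ≤ R + (A - 1) * (B - 1) + M * M + 2 * M * (a + k) + 2 * ((a + k) * (a + k)) + b + w := by
  obtain ⟨A, rfl⟩ := Nat.exists_eq_add_of_le hA
  obtain ⟨B, rfl⟩ := Nat.exists_eq_add_of_le hB
  unfold CapVM at h
  have e1 : R + (1 + B) - 1 = R + B := by omega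
  have e2 : R + (1 + A) - 1 = R + A := by omega
  have e3 : 1 + A - 1 = A := by omega
  have e4 : 1 + B - 1 = B := by omega
  rw [e1, e2, e3, e4]
  zify
  push_cast at h
  nlinarith

/-- the cap without the PC pairs in naturals -/
lemma CapVO.nat {R A B p q a k b w : ℕ} (hA : 1 ≤ A) (hB : 1 ≤ B)
    (h : CapVO R A B p q a k b w (2 * ((a : ℤ) * (a - 1)) + 2 * ((k : ℤ) * (k - 1)))) :
    a * (R + B - 1) + k * (R + A - 1) + a * a + k * k
      ≤ R + (A - 1) * (B - 1) + a * p + k * q + 2 * ((a + k) * (a + k)) + b + w := by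
  obtain ⟨A, rfl⟩ := Nat.exists_eq_add_of_le hA
  obtain ⟨B, rfl⟩ := Nat.exists_eq_add_of_le hB
  unfold CapVO at h
  have e1 : R + (1 + B) - 1 = R + B := by omega
  have e2 : R + (1 + A) - 1 = R + A := by omega
  have e3 : 1 + A - 1 = A := by omega
  have e4 : 1 + B - 1 = B := by omega
  rw [e1, e2, e3, e4]
  zify
  push_cast at h
  nlinarith

section EnuR

variable {R : ℕ} {P : Finset ℕ} {A d hn h : ℕ}
  {B p x q mf mh mhb mha mc mcb mcn mcv kf kh khb kha kc kca kcb kcr sg en nn : ℕ → ℕ}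

/-- the average bound -/
lemma avg_le {m t s N : ℕ} {b : ℤ} (h0 : b ≤ s) (h1 : (m : ℤ) * b ≤ t * (s : ℤ))
    (h2 : s ≤ m * N) : b ≤ (t * N : ℕ) := by
  rcases Nat.eq_zero_or_pos m with h | h
  · subst h
    have h3 : s = 0 := by omega
    subst h3
    have : (0 : ℤ) ≤ ((t * N : ℕ) : ℤ) := Nat.cast_nonneg _
    push_cast at h0 this ⊢
    linarith
  · have h3 : (0 : ℤ) < m := by exact_mod_cast h
    have h4 : (s : ℤ) ≤ m * N := by exact_mod_cast h2
    have h5 := mul_le_mul_of_nonneg_left h4 (Nat.cast_nonneg (α := ℤ) t)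
    push_cast
    by_contra h6
    push Not at h6
    have := mul_lt_mul_of_pos_left h6 h3
    nlinarith

/-- **all families of the content of a cell are allowed** -/
theorem RowV.ctOk (V : RowV R P A d hn h B p x q mf mh mhb mha mc mcb mcn mcv kf kh khb kha kc kca
    kcb kcr sg en nn) (W : RowW R P A d hn B p x q mf mh mhb mha kf kh khb kha nn) {y : ℕ}
    (hy : y ∈ P) {wH Wm a1 : ℕ} (h1 : mhb y + mha y ≤ mh y * wH) (h2 : khb y + kha y ≤ kh y * Wm)
    (h3 : kha y ≤ kh y * a1) :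
    Em.CtOk R A (B y) wH Wm a1 (p y + x y) (q y) (mf y + mh y) (kf y) (kh y) := by
  have hA := V.A1
  have hB := V.B1 y hy
  refine ⟨fun M hM => ?_, fun a k1 k2 ha hk1 hk2 => ?_, fun k1 k2 hk1 hk2 hR => ?_⟩
  · obtain ⟨b1, b2⟩ := V.bqB y hy
    refine ⟨hM.trans b2, hM.trans b1, ?_⟩
    have h4 := V.jsub y hy M hM
    obtain ⟨a, ha⟩ := Nat.exists_eq_add_of_le hA
    obtain ⟨b, hb⟩ := Nat.exists_eq_add_of_le hB
    rw [ha, hb] at h4 ⊢
    have e3 : 1 + a - 1 = a := by omega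
    have e4 : 1 + b - 1 = b := by omega
    rw [e3, e4]
    zify
    push_cast at h4
    nlinarith
  · obtain ⟨a2, a1', ea, h6, h7⟩ : ∃ a2 a1' : ℕ, a = a1' + a2 ∧ a2 ≤ mh y ∧ a1' ≤ mf y := by
      rcases Nat.le_total a (mh y) with h4 | h4
      · exact ⟨a, 0, by omega, h4, Nat.zero_le _⟩
      · exact ⟨mh y, a - mh y, by omega, le_rfl, by omega⟩
    obtain ⟨b', w', -, c2, c3, -, c5, c6, c7⟩ := V.cap y hy a1' a2 k1 k2 h7 h6 hk1 hk2
    obtain ⟨d1, d2⟩ := c7 _ (Or.inl rfl)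
    have hb : b' ≤ ((a2 * wH : ℕ) : ℤ) :=
      avg_le (m := mh y) (s := mhb y + mha y) (by push_cast; exact c2) (by push_cast; exact c3) h1
    have hw : w' ≤ ((k2 * Wm : ℕ) : ℤ) :=
      avg_le (m := kh y) (s := khb y + kha y) (by push_cast; exact c5) (by push_cast; exact c6) h2
    have hb2 : b' ≤ ((a * wH : ℕ) : ℤ) := hb.trans (by
      exact_mod_cast Nat.mul_le_mul_right _ (by omega))
    have g1 := d1.mono hb2 hw
    have g2 := d2.mono hb2 hw
    have e1 : ((a1' : ℤ) + a2) = (a : ℕ) := by rw [ea]; push_cast; ring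
    have e2 : ((k1 : ℤ) + k2) = ((k1 + k2 : ℕ) : ℤ) := by push_cast; ring
    have e3 : (p y : ℤ) + x y + q y = ((p y + x y + q y : ℕ) : ℤ) := by push_cast; ring
    have e4 : (p y : ℤ) + x y = ((p y + x y : ℕ) : ℤ) := by push_cast; ring
    rw [e1, e2, e3] at g1
    rw [e1, e2, e4] at g2
    have f1 := g1.nat hA hB
    have f2 := g2.nat hA hB
    exact ⟨by omega, by omega⟩
  · obtain ⟨a', c1, c2, c3, c4⟩ := W.host y hy k1 k2 hk1 hk2 (by omega)
    have ha : a' ≤ ((k2 * a1 : ℕ) : ℤ) := avg_le (m := kh y) (s := kha y) c2 c3 h3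
    obtain ⟨k, hk⟩ : ∃ k, k = k1 + k2 := ⟨_, rfl⟩
    have e2 : ((k1 : ℤ) + k2) = (k : ℤ) := by rw [hk]; push_cast; ring
    rw [e2] at c4
    rw [← hk]
    zify
    push_cast at ha
    nlinarith

/-- **the code of a cell is in the list**: `tab` from the size 1 on -/
theorem RowV.code_mem (V : RowV R P A d hn h B p x q mf mh mhb mha mc mcb mcn mcv kf kh khb kha kc
    kca kcb kcr sg en nn) (W : RowW R P A d hn B p x q mf mh mhb mha kf kh khb kha nn) {y : ℕ}
    (hy : y ∈ P) {N : ℕ} (hN : R < N) (hm : mf y + mh y < N) (hf : kf y < N) (he : kh y < N)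
    {tab : List Em.Ent} {t : Em.Ent} (ht : tab[B y - 1]? = some t)
    (h1 : mhb y + mha y ≤ mh y * t.wH) (h2 : khb y + kha y ≤ kh y * t.Wm)
    (h3 : kha y ≤ kh y * t.a1) :
    Em.code (B y) (p y) (x y) (q y) (mf y + mh y) (kf y) (kh y)
      (Em.nbF R A (B y) (p y + x y)) ∈ Em.rowO R N A tab 1 ∧
    nn y ≤ Em.nbF R A (B y) (p y + x y) := by
  have hA := V.A1
  have hB := V.B1 y hy
  have hsz : A + B y + 3 ≤ R := by
    have h1 := V.mass
    have h2 : B y + (P.erase y).card ≤ ∑ l ∈ P, B l := by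
      rw [← add_sum_erase P B hy]
      have : (P.erase y).card ≤ ∑ l ∈ P.erase y, B l := by
        have h3 : (P.erase y).card • 1 ≤ ∑ l ∈ P.erase y, B l :=
          card_nsmul_le_sum _ _ _ fun l hl => V.B1 l (mem_of_mem_erase hl)
        simpa using h3
      omega
    rw [card_erase_of_mem hy] at h2
    have h4 := V.P4
    omega
  refine ⟨Em.mem_rowO tab 1 (B y - 1) t ht ?_, Em.nbF_spec hsz (V.nnz y hy) (fun v hv => ?_) hA hB⟩
  · have e1 : 1 + (B y - 1) = B y := by omega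
    rw [e1]
    exact Em.mem_cellO (V.ctOk W hy h1 h2 h3) (by omega) hm hf he
  · refine V.nnb y hy v ?_
    rcases hv with h | h
    · exact Or.inl h
    · refine Or.inr ?_
      push_cast at h
      exact h

end EnuR

end Pool.Agent.Lib.MP_f04ccf_co
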