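import Pool.Agent.Lib.MP_f04ccf_co.M.ExcK

/-!
MP_f04ccf_co: the exceptional colourings for `r = 7`: also here there is a frame with
`m + 4 ≤ r + t`.  If some `k_j ≥ 4` this is as for `r ≥ 8` up to one count; otherwise all `k_j = 3`
and equality holds in the count of `ExcK`.
-/

set_option autoImplicit false

namespace Pool.Agent.Lib.MP_f04ccf_co

open Finset

attribute [local instance] Classical.propDecidable

section Exc7

variable {V : Type*}

/-- the degrees of the centres of a frame -/
lemma PFrame.sum_dg_T {G : SimpleGraph V} {r m t : ℕ} {Z T : Finset V}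
    (h : PFrame G r m t Z T) :
    ∑ q ∈ T, dg G Z q + T.card = Z.card + (BB G Z T).card := by
  rw [dg_comm, ← sum_sdiff h.sub]
  have h1 : ∑ z ∈ T, dg G T z = 0 := by
    refine sum_eq_zero fun z hz => ?_
    rw [← card_ends, h.ends_T hz, card_empty]
  have h2 : ∑ z ∈ Z \ T, dg G T z = ∑ z ∈ Z \ T, (1 + if dg G T z = 2 then 1 else 0) := by
    refine sum_congr rfl fun z hz => ?_
    have h3 := h.k1 (mem_sdiff.1 hz).1 (mem_sdiff.1 hz).2
    have h4 := h.k2 z hz
    split_ifs <;> omega
  rw [h1, h2, sum_add_distrib, ← card_eq_sum_ones, ← card_filter]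
  have h5 := card_sdiff_add_card_eq_card h.sub
  change _ + (BB G Z T).card + 0 + _ = _
  omega

/-- equality in Turan's bound: all degrees are at least two -/
lemma min_deg_22 {G : SimpleGraph V} {S : Finset V} (h : AlphaLe G S 7) (hS : S.card = 22)
    (hE : E G S ≤ 48) {u : V} (hu : u ∈ S) : 2 ≤ dg G S u := by
  have h1 := E_lower_q G 3 6 (S \ nb G S u) (h.sdiff_nb G hu)
  have h2 := E_sdiff G (nb_sub G S u)
  have h3 := nb_card G hu
  have h4 := card_sdiff_add_card_eq_card (nb_sub G S u)
  have hun : u ∈ nb G S u := mem_filter.2 ⟨hu, Or.inl rfl⟩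
  have h5 : dg G S u ≤ ∑ z ∈ nb G S u, dg G S z :=
    single_le_sum (f := fun z => dg G S z) (fun _ _ => Nat.zero_le _) hun
  have h6 : E G (nb G S u) ≤ ∑ z ∈ nb G S u, dg G S z :=
    sum_le_sum fun z _ => dg_mono G (nb_sub G S u) z
  push_cast at h1
  omega

variable [Fintype V]

namespace Exc

/-- the edges of colour `j`, with the outside edges of the lines -/
lemma E_univ_le2 {r : ℕ} {c : V → V → Fin r} {hc : ∀ x y, c x y = c y x} (hs : Sees c)
    (hV : Fintype.card V = r ^ 2 + 1) (hr : 3 ≤ r) (he : Exc hc) (j : Fin r) :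
    E (col c hc j) univ ≤ E (col c hc j) (UU hc j) + (LL hc j).card * (r * (r - 1))
      + 2 * ∑ L ∈ LL hc j, (AA hc j L).card := by
  have h1 := E_sdiff (col c hc j) (subset_univ (LP hc j))
  have hpd : ((LL hc j : Set (Finset V))).PairwiseDisjoint id := fun L hL L' hL' hne =>
    he.disjoint_lines hs hV hr (mem_LL.1 hL) (mem_LL.1 hL') hne
  have h2 : ∑ v ∈ LP hc j, dg (col c hc j) univ v
      = ∑ L ∈ LL hc j, ∑ v ∈ L, dg (col c hc j) univ v := sum_biUnion hpd
  have h3 : ∑ L ∈ LL hc j, ∑ v ∈ L, dg (col c hc j) univ v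
      = (LL hc j).card * (r * (r - 1)) + ∑ L ∈ LL hc j, (AA hc j L).card := by
    rw [sum_congr rfl fun L hL => (mem_LL.1 hL).sum_univ hs, sum_add_distrib, sum_const,
      smul_eq_mul]
  have h4 : ∑ L ∈ LL hc j, r * (r - 1) ≤ E (col c hc j) (LP hc j) := by
    have h5 : E (col c hc j) (LP hc j) = ∑ L ∈ LL hc j, ∑ v ∈ L, dg (col c hc j) (LP hc j) v :=
      sum_biUnion hpd
    rw [h5]
    refine sum_le_sum fun L hL => ?_
    rw [← (mem_LL.1 hL).E_eq]
    refine sum_le_sum fun v _ => dg_mono _ ?_ v
    exact fun x hx => mem_biUnion.2 ⟨L, hL, hx⟩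
  rw [sum_const, smul_eq_mul] at h4
  change _ = E (col c hc j) (UU hc j) + _ at h1
  rw [h2, h3] at h1
  omega

variable {c : V → V → Fin 7} {hc : ∀ x y, c x y = c y x}

/-- the edges of colour `m` by the number of rows, `r = 7` -/
lemma E7_le (hs : Sees c) (hV : Fintype.card V = 7 ^ 2 + 1) (he : Exc hc) (m : Fin 7) :
    (E (col c hc m) (UU hc m) : ℤ) ≤ 7 * kj hc m * (7 * kj hc m - 7 * (kj hc m : ℤ) + 1)
      + (7 * kj hc m) * (7 * kj hc m) - 6 * (2 * kj hc m * (7 * kj hc m + 1)
        - 7 * kj hc m * (kj hc m + 1)) := by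
  have h4 := PG_col hc hs m (UU hc m) (kj hc m)
  have h5 := he.UU_card hs hV (by norm_num) m
  rw [h5] at h4
  push_cast at h4
  nlinarith

/-- **`r = 7`** -/
theorem exists_mt_seven (hs : Sees c) (hV : Fintype.card V = 7 ^ 2 + 1) (he : Exc hc) :
    ∃ j m t Z T, m + 4 ≤ 7 + t ∧ S2 (col c hc j) 7 m t Z T := by
  by_contra hno
  have hct := he.count hs hV (by norm_num)
  have hb8 : ∀ (j i : Fin 7) (L : Finset V), Line hc i L → j ≠ i →
      (BB (col c hc j) univ L).card ≤ 8 := by
    intro j i L h hji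
    have h2 := he.sum_excess hs hV h
    have h3 := single_le_sum (f := fun j => (BB (col c hc j) univ L).card - 7)
      (fun _ _ => Nat.zero_le _) (mem_erase.2 ⟨hji, mem_univ j⟩)
    omega
  have hline : ∀ j : Fin 7, ∃ K, Line hc j K := by
    intro j
    obtain ⟨i, hij, -, L, h⟩ := he.exists_line_ne hs hV (by norm_num) j j
    exact exists_line_of_le' hs hV (by norm_num) h (Ne.symm hij) (hb8 j i L h (Ne.symm hij))
  have hklt : ∀ j : Fin 7, kj hc j < 7 := by
    intro j
    obtain ⟨K, hK⟩ := hline j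
    exact kj_lt (by norm_num) hK
  have key0 : ∀ (j : Fin 7) (m : ℕ) (T : Finset V),
      PFrame (col c hc j) 7 m (kj hc j) (UU hc j) T → m + 4 ≤ 7 + kj hc j → False := by
    intro j m T hF hmt
    obtain ⟨m', t', Z', T', h1, h2⟩ := PFrame.to_crit (by norm_num) _ hF (hklt j)
      (fun K hK hKq => clq_lt_of_no_line (by norm_num)
        (fun K' hK' => UU_no_line (by norm_num) hK') hK hKq) hmt
    exact hno ⟨j, m', t', Z', T', h1, h2⟩
  have key : ∀ (j i : Fin 7) (L : Finset V) (m : ℕ), Line hc i L → j ≠ i →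
      (BB (col c hc j) univ L).card ≤ m → m + 4 ≤ 7 + kj hc j → False := by
    intro j i L m h hj hb hmt
    exact key0 j m _ (he.frame_UU hs hV (by norm_num) h hj hb) hmt
  have hkL : ∀ j : Fin 7, kj hc j + (LL hc j).card = 7 := fun j =>
    he.kj_add hs hV (by norm_num) j
  have hsumE : ∑ k : Fin 7, (E (col c hc k) univ : ℤ) = 2450 := by
    rw [sum_E_int hc (univ : Finset V), card_univ, hV]
    norm_num
  by_cases h1 : ∃ j : Fin 7, 4 ≤ kj hc j
  · obtain ⟨j, hj⟩ := h1
    by_cases hex : ∃ i L, Line hc i L ∧ j ≠ i ∧ (BB (col c hc j) univ L).card ≤ 7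
    · obtain ⟨i, L, h, hji, hb⟩ := hex
      exact key j i L 7 h hji hb (by omega)
    push Not at hex
    have hex' : ∀ i L, Line hc i L → j ≠ i → (BB (col c hc j) univ L).card = 8 := by
      intro i L h hji
      have h1 := hex i L h hji
      have h2 := hb8 j i L h hji
      omega
    by_cases h5 : 5 ≤ kj hc j
    · obtain ⟨i, hij, -, L, h⟩ := he.exists_line_ne hs hV (by norm_num) j j
      exact key j i L 8 h (Ne.symm hij) (hex' i L h (Ne.symm hij)).le (by omega)
    have h4 : kj hc j = 4 := by omega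
    by_cases h6 : ∃ j', j' ≠ j ∧ 4 ≤ kj hc j'
    · obtain ⟨j', hj'j, hj'⟩ := h6
      obtain ⟨i, hij, hij', L, h⟩ := he.exists_line_ne hs hV (by norm_num) j j'
      have h7 := hex' i L h (Ne.symm hij)
      have h8 : (BB (col c hc j') univ L).card ≤ 7 := by
        have h9 := he.sum_excess hs hV h
        by_contra hlt
        have h10 : ∑ m ∈ ({j, j'} : Finset (Fin 7)), ((BB (col c hc m) univ L).card - 7)
            ≤ ∑ m ∈ univ.erase i, ((BB (col c hc m) univ L).card - 7) := by
          refine sum_le_sum_of_subset fun m hm => ?_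
          simp only [mem_insert, mem_singleton] at hm
          rcases hm with rfl | rfl
          · exact mem_erase.2 ⟨Ne.symm hij, mem_univ _⟩
          · exact mem_erase.2 ⟨Ne.symm hij', mem_univ _⟩
        rw [sum_pair (Ne.symm hj'j)] at h10
        omega
      exact key j' i L 7 h (Ne.symm hij') h8 (by omega)
    push Not at h6
    -- no outside edges at the lines of the other colours
    have hAA : ∀ m : Fin 7, m ≠ j → ∀ L ∈ LL hc m, (AA hc m L).card = 0 := by
      intro m hm L hL
      have h7 := he.sum_excess hs hV (mem_LL.1 hL)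
      have h8 := hex' m L (mem_LL.1 hL) (Ne.symm hm)
      have h9 := single_le_sum (f := fun j => (BB (col c hc j) univ L).card - 7)
        (fun _ _ => Nat.zero_le _) (mem_erase.2 ⟨Ne.symm hm, mem_univ j⟩)
      simp only [h8] at h9
      omega
    have hm : ∀ m : Fin 7, m ≠ j → (E (col c hc m) univ : ℤ) ≤ 342 := by
      intro m hm
      have e1 := he.E_univ_le2 hs hV (by norm_num) m
      rw [sum_eq_zero (hAA m hm)] at e1
      have e2 := he.E7_le hs hV m
      have e3 := hkL m
      have e4 : kj hc m ≤ 3 := by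
        have := h6 m hm
        omega
      generalize kj hc m = k at e2 e3 e4
      generalize (LL hc m).card = l at e1 e3
      have e5 : k = 0 ∨ k = 1 ∨ k = 2 ∨ k = 3 := by omega
      rcases e5 with rfl | rfl | rfl | rfl <;> norm_num at e2 <;> omega
    have hj' : (E (col c hc j) univ : ℤ) ≤ 392 := by
      have e1 := he.E_univ_le hs hV (by norm_num) j
      have e2 := he.E7_le hs hV j
      have e3 := hkL j
      rw [h4] at e2 e3
      have e4 : (LL hc j).card = 3 := by omega
      rw [e4] at e1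
      norm_num at e2 e1
      omega
    have h7 : ∑ m ∈ univ.erase j, (E (col c hc m) univ : ℤ) ≤ ∑ _m ∈ (univ : Finset (Fin 7)).erase j, 342 :=
      sum_le_sum fun m hmm => hm m (mem_erase.1 hmm).1
    rw [sum_const, card_erase_of_mem (mem_univ j), card_univ, Fintype.card_fin] at h7
    rw [← add_sum_erase univ _ (mem_univ j)] at hsumE
    have h8 := h7.trans (show (7 - 1) • (342 : ℤ) ≤ 2052 by norm_num)
    linarith
  · push Not at h1
    -- all `k_j = 3`
    have hk3 : ∀ j : Fin 7, kj hc j = 3 := by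
      intro j
      by_contra hne
      have h2 : ∑ m ∈ univ.erase j, (kj hc m : ℤ) * (kj hc m - 1)
          ≤ ∑ _m ∈ (univ : Finset (Fin 7)).erase j, 6 := by
        refine sum_le_sum fun m _ => ?_
        have h3 : (kj hc m : ℤ) ≤ 3 := by
          have := h1 m
          omega
        have h4 : (0 : ℤ) ≤ kj hc m := Int.natCast_nonneg _
        nlinarith
      rw [sum_const, card_erase_of_mem (mem_univ j), card_univ, Fintype.card_fin] at h2
      rw [← add_sum_erase univ _ (mem_univ j)] at hct
      have h3 : (kj hc j : ℤ) ≤ 2 := by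
        have := h1 j
        omega
      have h4 : (0 : ℤ) ≤ kj hc j := Int.natCast_nonneg _
      norm_num at h2 hct
      nlinarith
    have hL4 : ∀ j : Fin 7, (LL hc j).card = 4 := by
      intro j
      have := hkL j
      rw [hk3 j] at this
      omega
    have hUc : ∀ j : Fin 7, (UU hc j).card = 22 := by
      intro j
      rw [he.UU_card hs hV (by norm_num) j, hk3 j]
    have hEU : ∀ j : Fin 7, E (col c hc j) (UU hc j) ≤ 174 := by
      intro j
      have e2 := he.E7_le hs hV j
      rw [hk3 j] at e2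
      norm_num at e2
      omega
    have hEle : ∀ j : Fin 7, E (col c hc j) univ ≤ E (col c hc j) (UU hc j) + 168
        + 2 * ∑ L ∈ LL hc j, (AA hc j L).card := by
      intro j
      have e1 := he.E_univ_le2 hs hV (by norm_num) j
      rw [hL4 j] at e1
      norm_num at e1
      exact e1
    have hAAs : ∀ j : Fin 7, ∑ L ∈ LL hc j, (AA hc j L).card ≤ 4 := by
      intro j
      have h2 := sum_le_sum fun L (hL : L ∈ LL hc j) => he.AA_le hs hV (mem_LL.1 hL)
      rw [sum_const, hL4 j] at h2
      simpa using h2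
    have hE350 : ∀ j : Fin 7, E (col c hc j) univ = 350 := by
      have hle : ∀ j : Fin 7, E (col c hc j) univ ≤ 350 := by
        intro j
        have e1 := hEle j
        have e2 := hEU j
        have e3 := hAAs j
        omega
      intro j
      by_contra hne
      have e1 : (E (col c hc j) univ : ℤ) ≤ 349 := by
        have := hle j
        omega
      have h7 : ∑ m ∈ univ.erase j, (E (col c hc m) univ : ℤ)
          ≤ ∑ _m ∈ (univ : Finset (Fin 7)).erase j, 350 :=
        sum_le_sum fun m _ => by exact_mod_cast hle m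
      rw [sum_const, card_erase_of_mem (mem_univ j), card_univ, Fintype.card_fin] at h7
      rw [← add_sum_erase univ _ (mem_univ j)] at hsumE
      have h8 := h7.trans (show (7 - 1) • (350 : ℤ) ≤ 2100 by norm_num)
      linarith
    have hEU' : ∀ j : Fin 7, E (col c hc j) (UU hc j) = 174 := by
      intro j
      have e1 := hEle j
      have e2 := hEU j
      have e3 := hAAs j
      have e4 := hE350 j
      omega
    have hAA1 : ∀ j : Fin 7, ∀ L, Line hc j L → (AA hc j L).card = 1 := by
      intro j L hL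
      have e1 := hEle j
      have e4 := hE350 j
      have e5 := hEU' j
      have e6 : 4 ≤ ∑ L ∈ LL hc j, (AA hc j L).card := by omega
      rw [← add_sum_erase _ _ (mem_LL.2 hL)] at e6
      have h2 := sum_le_sum fun K (hK : K ∈ (LL hc j).erase L) =>
        he.AA_le hs hV (mem_LL.1 (mem_of_mem_erase hK))
      rw [sum_const, card_erase_of_mem (mem_LL.2 hL), hL4 j] at h2
      have h3 := he.AA_le hs hV hL
      norm_num at h2
      omega
    have hb7 : ∀ (j i : Fin 7) (L : Finset V), Line hc i L → j ≠ i →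
        (BB (col c hc j) univ L).card ≤ 7 := by
      intro j i L h hji
      have h2 := he.sum_excess hs hV h
      have h3 := single_le_sum (f := fun j => (BB (col c hc j) univ L).card - 7)
        (fun _ _ => Nat.zero_le _) (mem_erase.2 ⟨hji, mem_univ j⟩)
      have h4 := hAA1 i L h
      omega
    -- the other colours inside `U_m`
    have hE48 : ∀ m n : Fin 7, n ≠ m → E (col c hc n) (UU hc m) ≤ 48 := by
      intro m n hnm
      have e1 := sum_E hc (UU hc m)
      rw [hUc m] at e1
      have e2 : ∀ k : Fin 7, 48 ≤ E (col c hc k) (UU hc m) := by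
        intro k
        have e3 := E_lower_q (col c hc k) 3 7 (UU hc m) (alpha_le hc hs k _)
        rw [hUc m] at e3
        norm_num at e3
        exact_mod_cast e3
      rw [← add_sum_erase univ _ (mem_univ m), hEU' m,
        ← add_sum_erase (univ.erase m) _ (mem_erase.2 ⟨hnm, mem_univ n⟩)] at e1
      have e4 : ∑ _k ∈ ((univ : Finset (Fin 7)).erase m).erase n, 48
          ≤ ∑ k ∈ (univ.erase m).erase n, E (col c hc k) (UU hc m) :=
        sum_le_sum fun k _ => e2 k
      rw [sum_const, card_erase_of_mem (mem_erase.2 ⟨hnm, mem_univ n⟩),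
        card_erase_of_mem (mem_univ m), card_univ, Fintype.card_fin] at e4
      norm_num at e1 e4
      omega
    -- degrees inside `U_m`
    have hd9 : ∀ (m : Fin 7) (u : V), u ∈ UU hc m → dg (col c hc m) (UU hc m) u ≤ 9 := by
      intro m u hu
      have e1 := sum_dg hc (UU hc m) hu
      rw [hUc m, ← add_sum_erase univ _ (mem_univ m)] at e1
      have e2 : ∑ _k ∈ (univ : Finset (Fin 7)).erase m, 2
          ≤ ∑ k ∈ univ.erase m, dg (col c hc k) (UU hc m) u :=
        sum_le_sum fun k hk => min_deg_22 (alpha_le hc hs k _) (hUc m)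
          (hE48 m k (mem_erase.1 hk).1) hu
      rw [sum_const, card_erase_of_mem (mem_univ m), card_univ, Fintype.card_fin] at e2
      norm_num at e1 e2
      omega
    -- the three points of a line in `U_m`
    have h26 : ∀ (m i : Fin 7) (L : Finset V), Line hc i L → m ≠ i →
        26 ≤ ∑ q ∈ L ∩ UU hc m, dg (col c hc m) (UU hc m) q := by
      intro m i L h hmi
      have hF := he.frame_UU hs hV (by norm_num) h hmi le_rfl
      have e1 := hF.sum_dg_T
      rw [hF.cardT, hUc m, hk3 m] at e1
      by_contra hlt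
      have e2 : (BB (col c hc m) (UU hc m) (L ∩ UU hc m)).card ≤ 6 := by omega
      exact key0 m 6 _ { hF with b := e2 } (by rw [hk3 m])
    have h8 : ∀ (m i : Fin 7) (L : Finset V), Line hc i L → m ≠ i → ∀ q ∈ L ∩ UU hc m,
        8 ≤ dg (col c hc m) (UU hc m) q := by
      intro m i L h hmi q hq
      have e1 := h26 m i L h hmi
      rw [← add_sum_erase _ _ hq] at e1
      have e2 : ∑ q ∈ (L ∩ UU hc m).erase q, dg (col c hc m) (UU hc m) q
          ≤ ∑ _q ∈ (L ∩ UU hc m).erase q, 9 :=
        sum_le_sum fun z hz => hd9 m z (mem_inter.1 (mem_of_mem_erase hz)).2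
      rw [sum_const, card_erase_of_mem hq, he.inter_UU hs hV (by norm_num) h hmi, hk3 m] at e2
      norm_num at e2
      omega
    -- an outside edge
    obtain ⟨L0, hL0⟩ := hline 0
    obtain ⟨p, hp⟩ := card_pos.1 (by rw [hAA1 0 L0 hL0]; norm_num : 0 < (AA hc 0 L0).card)
    obtain ⟨hp1, hp2⟩ := mem_filter.1 hp
    have hpL : p ∉ L0 := (mem_sdiff.1 hp1).2
    obtain ⟨v, hv⟩ := card_pos.1 (Nat.pos_of_ne_zero hp2)
    obtain ⟨hv1, hv2⟩ := mem_filter.1 hv
    have hv7 : 7 ≤ dg (col c hc 0) univ v := by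
      have e1 : (L0.erase v) ∪ {p} ⊆ univ.filter (fun w => (col c hc 0).Adj v w) := by
        intro w hw
        rcases mem_union.1 hw with h | h
        · obtain ⟨h3, h4⟩ := mem_erase.1 h
          exact mem_filter.2 ⟨mem_univ w, hL0.1 v hv1 w h4 (Ne.symm h3)⟩
        · rw [mem_singleton.1 h]
          exact mem_filter.2 ⟨mem_univ p, hv2.symm⟩
      have e2 := card_le_card e1
      rw [card_union_of_disjoint (by
        rw [disjoint_singleton_right]
        exact fun h => hpL (mem_of_mem_erase h)), card_erase_of_mem hv1, hL0.2,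
        card_singleton] at e2
      exact e2
    -- `v` is on no line of another colour
    have hnot : ∀ (i : Fin 7) (M : Finset V), Line hc i M → i ≠ 0 → v ∉ M := by
      intro i M hM hi hvM
      have hF := hM.frame hs (Ne.symm hi) hV le_rfl
      have e1 := hF.sum_dg_T
      rw [card_univ, hV, hM.2] at e1
      have e2 := hb7 0 i M hM (Ne.symm hi)
      have e3 := h26 0 i M hM (Ne.symm hi)
      have e4 : ∑ q ∈ M ∩ UU hc 0, dg (col c hc 0) (UU hc 0) q
          ≤ ∑ q ∈ M ∩ UU hc 0, dg (col c hc 0) univ q :=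
        sum_le_sum fun q _ => dg_mono _ (subset_univ _) q
      have hvLP : v ∈ M \ UU hc 0 := by
        refine mem_sdiff.2 ⟨hvM, fun h' => (mem_sdiff.1 h').2 ?_⟩
        exact mem_biUnion.2 ⟨L0, mem_LL.2 hL0, hv1⟩
      have e5 : ∀ q ∈ M \ UU hc 0, 6 ≤ dg (col c hc 0) univ q := by
        intro q hq
        have h3 : q ∈ LP hc 0 := by
          by_contra hn
          exact (mem_sdiff.1 hq).2 (mem_sdiff.2 ⟨mem_univ q, hn⟩)
        obtain ⟨K, hK, hqK⟩ := mem_biUnion.1 h3
        have hK' := mem_LL.1 hK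
        change q ∈ K at hqK
        have h4 : K.erase q ⊆ univ.filter (fun w => (col c hc 0).Adj q w) := by
          intro w hw
          obtain ⟨h5, h6⟩ := mem_erase.1 hw
          exact mem_filter.2 ⟨mem_univ w, hK'.1 q hqK w h6 (Ne.symm h5)⟩
        have h5 := card_le_card h4
        rw [card_erase_of_mem hqK, hK'.2] at h5
        exact h5
      have e6 : (M \ UU hc 0).card = 4 := by
        have h3 := card_sdiff_add_card_inter M (UU hc 0)
        rw [he.inter_UU hs hV (by norm_num) hM (Ne.symm hi), hk3 0, hM.2] at h3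
        omega
      have e7 : ∑ _q ∈ (M \ UU hc 0).erase v, 6
          ≤ ∑ q ∈ (M \ UU hc 0).erase v, dg (col c hc 0) univ q :=
        sum_le_sum fun q hq => e5 q (mem_of_mem_erase hq)
      rw [sum_const, card_erase_of_mem hvLP, e6] at e7
      have e8 : ∑ q ∈ M, dg (col c hc 0) univ q
          = ∑ q ∈ M ∩ UU hc 0, dg (col c hc 0) univ q
            + (dg (col c hc 0) univ v + ∑ q ∈ (M \ UU hc 0).erase v, dg (col c hc 0) univ q) := by
        rw [add_sum_erase _ _ hvLP, add_comm]
        rw [← sum_union (by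
          rw [disjoint_left]
          intro x hx hx'
          exact (mem_sdiff.1 hx).2 (mem_inter.1 hx').2), sdiff_union_inter]
      norm_num at e1 e7
      omega
    -- the degrees at `v`
    have hdeg : ∑ m : Fin 7, dg (col c hc m) univ v = 49 := by
      have e1 := sum_dg hc univ (mem_univ v)
      rw [card_univ, hV] at e1
      exact e1
    rw [← add_sum_erase univ _ (mem_univ (0 : Fin 7))] at hdeg
    have e2 : ∑ _m ∈ (univ : Finset (Fin 7)).erase 0, 8
        ≤ ∑ m ∈ univ.erase 0, dg (col c hc m) univ v := by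
      refine sum_le_sum fun m hm => ?_
      have hm0 := (mem_erase.1 hm).1
      have hvU : v ∈ L0 ∩ UU hc m := by
        refine mem_inter.2 ⟨hv1, mem_sdiff.2 ⟨mem_univ v, fun h' => ?_⟩⟩
        obtain ⟨K, hK, hvK⟩ := mem_biUnion.1 h'
        exact hnot m K (mem_LL.1 hK) hm0 hvK
      exact (h8 m 0 L0 hL0 hm0 v hvU).trans (dg_mono _ (subset_univ _) v)
    rw [sum_const, card_erase_of_mem (mem_univ (0 : Fin 7)), card_univ, Fintype.card_fin] at e2
    norm_num at e2
    omega

/-- frames in the exceptional case, `r ≥ 7` -/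
theorem exists_mt7 {r : ℕ} {c : V → V → Fin r} {hc : ∀ x y, c x y = c y x} (hs : Sees c)
    (hV : Fintype.card V = r ^ 2 + 1) (hr : 7 ≤ r) (he : Exc hc) :
    ∃ j m t Z T, m + 4 ≤ r + t ∧ S2 (col c hc j) r m t Z T := by
  rcases Nat.lt_or_ge r 8 with h | h
  · obtain rfl : r = 7 := by omega
    exact he.exists_mt_seven hs hV
  · exact he.exists_mt hs hV h

end Exc

/-- **every colouring contains a frame with `m + 4 ≤ r + t`, `r ≥ 7`** -/
theorem exists_S2_mt7 {r : ℕ} {c : V → V → Fin r} {hc : ∀ x y, c x y = c y x} (hs : Sees c)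
    (hr : 7 ≤ r) (hV : Fintype.card V = r ^ 2 + 1) :
    ∃ j m t Z T, m + 4 ≤ r + t ∧ S2 (col c hc j) r m t Z T := by
  rcases S2_or_exc (hc := hc) hs (by omega) hV with ⟨j, t, Z, T, h⟩ | he
  · have h1 := h.three_le (by omega) (PG_col hc hs j)
    exact ⟨j, r - 1, t, Z, T, by omega, h⟩
  · exact he.exists_mt7 hs hV hr

end Exc7

/-- final form for `r ≥ 7`: the statement at `r` from the absence of frames with `m + 4 ≤ r + t` -/
theorem good_of_S2_mt7 (r : ℕ) (hr : 7 ≤ r)
    (hS : ∀ (G : SimpleGraph (Fin (r ^ 2 + 1))) (m t : ℕ) (Z T : Finset (Fin (r ^ 2 + 1))),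
      PG G r → AlphaLe G univ r → m + 4 ≤ r + t → ¬ S2 G r m t Z T) :
    Good r (r ^ 2 + 1) := by
  intro c hc
  by_contra hcon
  push Not at hcon
  have hs : Sees c := fun S hS k => by
    obtain ⟨x, hx, y, hy, hxy, hk⟩ := hcon S hS k
    exact ⟨x, hx, y, hy, hxy, hk⟩
  obtain ⟨j, m, t, Z, T, h1, h2⟩ := exists_S2_mt7 (hc := hc) hs hr (by simp)
  exact hS _ m t Z T (PG_col hc hs j) (alpha_le hc hs j univ) h1 h2

end Pool.Agent.Lib.MP_f04ccf_co
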