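import Pool.Agent.Lib.MP_f04ccf_co.S2Api

/-!
MP_f04ccf_co: the exceptional colourings.  `U_j` is the set of the vertices on no line of colour
`j`, `|U_j| = k_j r + 1`; Turan in every colour gives `sum_j k_j (k_j - 1) ≥ r (r - 1)`, so some
colour has at least four rows, and every colouring (`r ≥ 8`) contains an `S2` frame with
`m + 4 ≤ r + t`.
-/

set_option autoImplicit false

namespace Pool.Agent.Lib.MP_f04ccf_co

open Finset

attribute [local instance] Classical.propDecidable

section Crit

variable {V : Type*} {G : SimpleGraph V} {r : ℕ}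

/-- reduction to the critical level, `m + 4 ≤ r + t` is kept -/
theorem PFrame.to_crit (hr : 2 ≤ r) : ∀ (t : ℕ) {m : ℕ} {Z T : Finset V}, PFrame G r m t Z T →
    t < r → (∀ K : Finset V, K ⊆ Z → Clq G K → K.card ≤ r - 1) → m + 4 ≤ r + t →
    ∃ m' t' Z' T', m' + 4 ≤ r + t' ∧ S2 G r m' t' Z' T' := by
  intro t
  induction t using Nat.strong_induction_on with
  | _ t ih =>
    intro m Z T h ht hω hm
    by_cases hall : ∀ I : Finset V, I ⊂ T → (ZI G Z T I).card ≤ I.card * r
    · exact ⟨m, t, Z, T, hm, { h with lt := ht, omega := hω, hall := hall }⟩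
    push Not at hall
    obtain ⟨I, hI, hlt⟩ := hall
    have hIT : I ⊆ T := hI.1
    have hIc : I.card < t := by
      rw [← h.cardT]
      exact card_lt_card hI
    set C : Finset V := I.biUnion (fun v => Cl G Z T v) with hC
    have hCZ : C ⊆ ZI G Z T I := by
      intro z hz
      obtain ⟨v, hv, hzv⟩ := mem_biUnion.1 hz
      exact h.Cl_sub_ZI' (hIT hv) hv hzv
    have hCc : C.card = ∑ v ∈ I, (Cl G Z T v).card :=
      card_biUnion fun v hv w hw hvw => Cl_disjoint (hIT hv) (hIT hw) hvw
    have hle : ∀ v ∈ T, (Cl G Z T v).card ≤ r - 1 :=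
      fun v hv => hω _ (filter_subset _ _) (h.Cl_clq hv)
    have h1 : C.card ≤ I.card * (r - 1) := by
      rw [hCc]
      have := sum_le_sum fun v hv => hle v (hIT hv)
      rwa [sum_const, smul_eq_mul] at this
    have h2 : I.card * (r - 1) ≤ I.card * r + 1 :=
      (Nat.mul_le_mul_left _ (Nat.sub_le r 1)).trans (Nat.le_succ _)
    obtain ⟨Z', hZ1, hZ2, hZc⟩ := exists_subsuperset_card_eq hCZ (h1.trans h2) hlt
    have hIZ : I ⊆ Z' := fun v hv =>
      hZ1 (mem_biUnion.2 ⟨v, hv, h.self_mem_Cl (hIT hv)⟩)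
    have hout : ∀ z ∈ Z' \ I, z ∈ Z ∧ z ∉ T := by
      intro z hz
      obtain ⟨hz1, hz2⟩ := mem_sdiff.1 hz
      obtain ⟨hz3, hz4, -⟩ := mem_ZI.1 (hZ2 hz1)
      exact ⟨hz3, fun h' => hz2 (hz4 h')⟩
    have h3 : PFrame G r (BB G Z' I).card I.card Z' I :=
      { sub := hIZ
        ind := h.ind.mono hIT
        cardT := rfl
        alpha := (h.alpha_ZI hIT).mono G hZ2
        cardZ := hZc
        k2 := fun z hz => (dg_mono G hIT z).trans (h.k2 z (mem_sdiff.2 (hout z hz)))
        b := le_rfl }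
    have h4 : BB G Z' I ⊆ Z' \ C := by
      intro z hz
      obtain ⟨⟨hz1, hz2⟩, hz3⟩ := mem_BB.1 hz
      refine mem_sdiff.2 ⟨hz1, fun hzC => ?_⟩
      obtain ⟨v, hv, hzv⟩ := mem_biUnion.1 hzC
      rcases (mem_Cl.1 hzv).2 with h5 | ⟨-, h5⟩
      · exact hz2 (h5 ▸ hv)
      · have h6 := dg_mono G hIT z
        rw [← card_ends T, h5, card_singleton] at h6
        omega
    have h5 := card_le_card h4
    rw [card_sdiff_of_subset hZ1, hZc] at h5
    have h6 := h.card_split
    rw [h.cardZ] at h6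
    have h7 : ∑ v ∈ T \ I, (Cl G Z T v).card ≤ (t - I.card) * (r - 1) := by
      have := sum_le_sum fun v (hv : v ∈ T \ I) => hle v (mem_sdiff.1 hv).1
      rwa [sum_const, smul_eq_mul, card_sdiff_of_subset hIT, h.cardT] at this
    have h8 : ∑ v ∈ T \ I, (Cl G Z T v).card + ∑ v ∈ I, (Cl G Z T v).card
        = ∑ v ∈ T, (Cl G Z T v).card := sum_sdiff hIT
    have h9 := h.b
    have h10 : (BB G Z' I).card + (t - I.card) ≤ m := by
      obtain ⟨n, rfl⟩ : ∃ n, r = n + 1 := ⟨r - 1, by omega⟩
      obtain ⟨d, rfl⟩ : ∃ d, t = I.card + d := ⟨t - I.card, by omega⟩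
      simp only [Nat.add_sub_cancel, Nat.add_sub_cancel_left] at h7 h1 ⊢
      have e1 : (I.card + d) * (n + 1) = I.card * n + I.card + d * n + d := by ring
      have e2 : I.card * (n + 1) = I.card * n + I.card := by ring
      rw [e1] at h6
      rw [e2] at h5
      omega
    exact ih I.card hIc h3 (by omega) (fun K hK hKq => hω K
      (hK.trans (hZ2.trans (filter_subset _ _))) hKq) (by omega)

end Crit

section Colour

variable {V : Type*} [Fintype V] {r : ℕ} {c : V → V → Fin r} (hc : ∀ x y, c x y = c y x)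

/-- the lines of colour `j` -/
noncomputable def LL (j : Fin r) : Finset (Finset V) := univ.filter (fun L => Line hc j L)

/-- the vertices on the lines of colour `j` -/
noncomputable def LP (j : Fin r) : Finset V := (LL hc j).biUnion id

/-- the vertices on no line of colour `j` -/
noncomputable def UU (j : Fin r) : Finset V := univ \ LP hc j

/-- the number of rows of colour `j` -/
noncomputable def kj (j : Fin r) : ℕ := r - (LL hc j).card

variable {hc} {i j : Fin r} {L : Finset V}

lemma mem_LL : L ∈ LL hc j ↔ Line hc j L := by simp [LL]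

/-- the degrees along a line -/
lemma Line.sum_dg_out (hs : Sees c) (h : Line hc j L) :
    ∑ z ∈ univ \ L, dg (col c hc j) L z = (AA hc j L).card := by
  rw [AA, card_filter]
  refine sum_congr rfl fun z hz => ?_
  have h4 := h.excess hs (mem_sdiff.1 hz).2
  split_ifs <;> omega

omit [Fintype V] in
lemma Line.E_eq (h : Line hc j L) : E (col c hc j) L = r * (r - 1) := by
  rw [E_clq _ h.1, h.2]

/-- the edges leaving the lines -/
lemma Line.sum_univ (hs : Sees c) (h : Line hc j L) :
    ∑ v ∈ L, dg (col c hc j) univ v = r * (r - 1) + (AA hc j L).card := by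
  have h1 : ∀ v ∈ L, dg (col c hc j) univ v
      = dg (col c hc j) L v + dg (col c hc j) (univ \ L) v := by
    intro v _
    rw [dg_sdiff _ (subset_univ L) v, add_comm]
  have h2 := dg_comm (col c hc j) L (univ \ L)
  rw [h.sum_dg_out hs] at h2
  rw [sum_congr rfl h1, sum_add_distrib, h2, ← h.E_eq]
  rfl

namespace Exc

variable (hs : Sees c) (hV : Fintype.card V = r ^ 2 + 1)

include hs hV in
lemma LP_card (hr : 3 ≤ r) (he : Exc hc) (j : Fin r) : (LP hc j).card = (LL hc j).card * r := by
  have h1 : (LP hc j).card = ∑ L ∈ LL hc j, L.card :=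
    card_biUnion fun L hL L' hL' hne => he.disjoint_lines hs hV hr (mem_LL.1 hL) (mem_LL.1 hL') hne
  rw [h1, sum_congr rfl fun L hL => (mem_LL.1 hL).2, sum_const, smul_eq_mul]

include hs hV in
lemma LL_le (hr : 3 ≤ r) (he : Exc hc) (j : Fin r) : (LL hc j).card ≤ r := by
  have h1 := he.LP_card hs hV hr j
  have h2 := card_le_card (subset_univ (LP hc j))
  rw [card_univ, hV, h1] at h2
  by_contra hlt
  have h3 : (r + 1) * r ≤ (LL hc j).card * r := Nat.mul_le_mul_right _ (by omega)
  nlinarith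

include hs hV in
lemma kj_add (hr : 3 ≤ r) (he : Exc hc) (j : Fin r) : kj hc j + (LL hc j).card = r := by
  have := he.LL_le hs hV hr j
  unfold kj
  omega

include hs hV in
lemma UU_card (hr : 3 ≤ r) (he : Exc hc) (j : Fin r) : (UU hc j).card = kj hc j * r + 1 := by
  have h1 := he.LP_card hs hV hr j
  have h2 := card_sdiff_add_card_eq_card (subset_univ (LP hc j))
  rw [card_univ, hV, h1] at h2
  have h3 := he.kj_add hs hV hr j
  have h4 : kj hc j * r + (LL hc j).card * r = r * r := by rw [← add_mul, h3]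
  change (univ \ LP hc j).card = _
  have h5 : r ^ 2 = r * r := sq r
  omega

include hs hV in
/-- the edges of colour `j` -/
lemma E_univ_le (hr : 3 ≤ r) (he : Exc hc) (j : Fin r) :
    E (col c hc j) univ ≤ E (col c hc j) (UU hc j) + (LL hc j).card * (r * (r - 1) + 2) := by
  have h1 := E_sdiff (col c hc j) (subset_univ (LP hc j))
  have hpd : ((LL hc j : Set (Finset V))).PairwiseDisjoint id := fun L hL L' hL' hne =>
    he.disjoint_lines hs hV hr (mem_LL.1 hL) (mem_LL.1 hL') hne
  have h2 : ∑ v ∈ LP hc j, dg (col c hc j) univ v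
      = ∑ L ∈ LL hc j, ∑ v ∈ L, dg (col c hc j) univ v := sum_biUnion hpd
  have h3 : ∑ L ∈ LL hc j, ∑ v ∈ L, dg (col c hc j) univ v
      ≤ ∑ L ∈ LL hc j, (r * (r - 1) + 1) := by
    refine sum_le_sum fun L hL => ?_
    have h4 := (mem_LL.1 hL).sum_univ hs
    have h5 := he.AA_le hs hV (mem_LL.1 hL)
    omega
  have h4 : ∑ L ∈ LL hc j, r * (r - 1) ≤ E (col c hc j) (LP hc j) := by
    have h5 : E (col c hc j) (LP hc j) = ∑ L ∈ LL hc j, ∑ v ∈ L, dg (col c hc j) (LP hc j) v :=
      sum_biUnion hpd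
    rw [h5]
    refine sum_le_sum fun L hL => ?_
    rw [← (mem_LL.1 hL).E_eq]
    refine sum_le_sum fun v _ => dg_mono _ ?_ v
    exact fun x hx => mem_biUnion.2 ⟨L, hL, hx⟩
  rw [sum_const, smul_eq_mul] at h3 h4
  have e1 : (LL hc j).card * (r * (r - 1) + 1) = (LL hc j).card * (r * (r - 1)) + (LL hc j).card := by
    ring
  have e2 : (LL hc j).card * (r * (r - 1) + 2)
      = (LL hc j).card * (r * (r - 1)) + 2 * (LL hc j).card := by
    ring
  change _ = E (col c hc j) (UU hc j) + _ at h1
  rw [h2] at h1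
  omega

include hs hV in
/-- **the count** -/
theorem count (hr : 3 ≤ r) (he : Exc hc) :
    (r : ℤ) * (r - 1) ≤ ∑ j, (kj hc j : ℤ) * (kj hc j - 1) := by
  have h1 := sum_E_int hc (univ : Finset V)
  rw [card_univ, hV] at h1
  have h2 : ∀ j : Fin r, (E (col c hc j) univ : ℤ)
      ≤ r * (r ^ 2 - r + 2) + r * ((kj hc j : ℤ) * (kj hc j - 1)) := by
    intro j
    have h3 := he.E_univ_le hs hV hr j
    have h4 := PG_col hc hs j (UU hc j) (kj hc j)
    have h5 := he.UU_card hs hV hr j
    have h6 := he.kj_add hs hV hr j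
    have h7 : ((LL hc j).card : ℤ) = r - kj hc j := by omega
    have h8 : (E (col c hc j) univ : ℤ) ≤ E (col c hc j) (UU hc j)
        + ((LL hc j).card : ℤ) * (r * (r - 1) + 2) := by
      have h9 : ((E (col c hc j) univ : ℕ) : ℤ)
          ≤ ((E (col c hc j) (UU hc j) + (LL hc j).card * (r * (r - 1) + 2) : ℕ) : ℤ) := by
        exact_mod_cast h3
      push_cast [show 1 ≤ r by omega] at h9
      exact h9
    rw [h5] at h4
    rw [h7] at h8
    push_cast at h4
    nlinarith
  have h3 := sum_le_sum fun j (_ : j ∈ (univ : Finset (Fin r))) => h2 j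
  rw [sum_add_distrib, sum_const, card_univ, Fintype.card_fin, nsmul_eq_mul, h1] at h3
  have h5 : ∑ j, (r : ℤ) * ((kj hc j : ℤ) * (kj hc j - 1))
      = r * ∑ j, (kj hc j : ℤ) * (kj hc j - 1) := (mul_sum _ _ _).symm
  rw [h5] at h3
  push_cast at h3
  have hr0 : (0 : ℤ) < r := by
    have : 0 < r := by omega
    exact_mod_cast this
  have h4 : (r : ℤ) * (r * (r - 1)) ≤ r * ∑ j, (kj hc j : ℤ) * (kj hc j - 1) := by nlinarith
  exact le_of_mul_le_mul_left h4 hr0

include hs hV in
/-- the independence number of the vertices on no line of colour `j` -/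
lemma alpha_UU (hr : 3 ≤ r) (he : Exc hc) (j : Fin r) :
    AlphaLe (col c hc j) (UU hc j) (kj hc j) := by
  have key : ∀ F : Finset (Finset V), F ⊆ LL hc j → F.Nonempty →
      AlphaLe (col c hc j) (univ \ F.biUnion id) (r - F.card) := by
    intro F
    induction F using Finset.induction_on with
    | empty => exact fun _ h => absurd h (by simp)
    | insert L F hL ih =>
      intro hsub _
      have hLj : Line hc j L := mem_LL.1 (hsub (mem_insert_self L F))
      rcases F.eq_empty_or_nonempty with rfl | hF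
      · have h1 := he.drop hs hV (by omega) hLj
        simpa using h1
      · have h1 := ih (fun K hK => hsub (mem_insert_of_mem hK)) hF
        have h2 := card_le_card hsub
        rw [card_insert_of_notMem hL] at h2
        have h3 := he.LL_le hs hV hr j
        have h4 := hF.card_pos
        obtain ⟨t, ht⟩ : ∃ t, r - F.card = t + 1 := ⟨r - F.card - 1, by omega⟩
        rw [ht] at h1
        have hLS : L ⊆ univ \ F.biUnion id := by
          intro x hx
          refine mem_sdiff.2 ⟨mem_univ x, fun hx' => ?_⟩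
          obtain ⟨K, hK, hxK⟩ := mem_biUnion.1 hx'
          have h5 := he.disjoint_lines hs hV hr hLj (mem_LL.1 (hsub (mem_insert_of_mem hK)))
            (fun h' => hL (h' ▸ hK))
          exact disjoint_left.1 h5 hx hxK
        have h6 := (PG_col hc hs j).peel (by omega) hLj.1 hLj.2 hLS (by omega) h1
        have h7 : (univ \ (insert L F).biUnion id : Finset V) = (univ \ F.biUnion id) \ L := by
          ext x
          simp only [mem_sdiff, mem_univ, true_and, biUnion_insert, mem_union, id]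
          tauto
        rw [h7, card_insert_of_notMem hL]
        have h8 : r - (F.card + 1) = t := by omega
        rw [h8]
        exact h6
  rcases (LL hc j).eq_empty_or_nonempty with h0 | h0
  · have h1 : kj hc j = r := by
      unfold kj
      rw [h0]
      simp
    rw [h1]
    exact alpha_le hc hs j _
  · exact key _ (Subset.refl _) h0

omit [Fintype V] in
lemma clq_lt_of_no_line {W : Finset V} (hr : 1 ≤ r)
    (hW : ∀ K : Finset V, K ⊆ W → ¬ Line hc j K) {K : Finset V} (hK : K ⊆ W)
    (hKq : Clq (col c hc j) K) : K.card ≤ r - 1 := by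
  by_contra hlt
  obtain ⟨K', hK', hKc'⟩ := exists_subset_card_eq (show r ≤ K.card by omega)
  exact hW K' (hK'.trans hK) ⟨hKq.mono hK', hKc'⟩

lemma UU_no_line (hr : 1 ≤ r) {K : Finset V} (hK : K ⊆ UU hc j) : ¬ Line hc j K := by
  intro h
  have h1 : 0 < K.card := by rw [h.2]; omega
  obtain ⟨x, hx⟩ := card_pos.1 h1
  exact (mem_sdiff.1 (hK hx)).2 (mem_biUnion.2 ⟨K, mem_LL.2 h, hx⟩)

include hs hV in
lemma inter_UU (hr : 3 ≤ r) (he : Exc hc) (h : Line hc i L) (hj : j ≠ i) :
    (L ∩ UU hc j).card = kj hc j := by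
  have h1 : L ∩ LP hc j = (LL hc j).biUnion (fun K => L ∩ K) := by
    ext x
    simp only [LP, mem_inter, mem_biUnion, id]
    constructor
    · rintro ⟨hx, K, hK, hxK⟩
      exact ⟨K, hK, hx, hxK⟩
    · rintro ⟨K, hK, hx, hxK⟩
      exact ⟨hx, K, hK, hxK⟩
  have h2 : (L ∩ LP hc j).card = (LL hc j).card := by
    rw [h1, card_biUnion]
    · rw [sum_congr rfl fun K hK => he.inter_lines hs hV hr h (mem_LL.1 hK) hj, sum_const,
        smul_eq_mul, mul_one]
    · intro K hK K' hK' hne
      exact (he.disjoint_lines hs hV hr (mem_LL.1 hK) (mem_LL.1 hK') hne).mono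
        inter_subset_right inter_subset_right
  have h3 : L ∩ UU hc j = L \ LP hc j := by
    ext x
    simp [UU]
  have h4 := card_sdiff_add_card_inter L (LP hc j)
  have h5 := he.kj_add hs hV hr j
  rw [h.2] at h4
  rw [h3]
  omega

include hs hV in
/-- the frame of a line in the core of colour `j` -/
theorem frame_UU (hr : 3 ≤ r) (he : Exc hc) (h : Line hc i L) (hj : j ≠ i) {m : ℕ}
    (hm : (BB (col c hc j) univ L).card ≤ m) :
    PFrame (col c hc j) r m (kj hc j) (UU hc j) (L ∩ UU hc j) where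
  sub := inter_subset_right
  ind := (h.ind hj).mono inter_subset_left
  cardT := he.inter_UU hs hV hr h hj
  alpha := he.alpha_UU hs hV hr j
  cardZ := he.UU_card hs hV hr j
  k2 := by
    intro z hz
    obtain ⟨hz1, hz2⟩ := mem_sdiff.1 hz
    have hzL : z ∉ L := fun h' => hz2 (mem_inter.2 ⟨h', hz1⟩)
    exact (dg_mono _ inter_subset_left z).trans (h.le_two hs hj hzL)
  b := by
    refine (card_le_card ?_).trans hm
    intro z hz
    obtain ⟨⟨hz1, hz2⟩, hz3⟩ := mem_BB.1 hz
    have hzL : z ∉ L := fun h' => hz2 (mem_inter.2 ⟨h', hz1⟩)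
    have h1 := dg_mono (col c hc j) (inter_subset_left : L ∩ UU hc j ⊆ L) z
    have h2 := h.le_two hs hj hzL
    exact mem_BB.2 ⟨⟨mem_univ z, hzL⟩, by omega⟩

include hs hV in
/-- a line of colour `j` exists if `b_j(L) ≤ r` for some line of another colour -/
lemma exists_line_of_le (hr : 3 ≤ r) (h : Line hc i L) (hj : j ≠ i)
    (hb : (BB (col c hc j) univ L).card ≤ r) : ∃ K, Line hc j K := by
  obtain ⟨v, hv, hvc⟩ := (h.frame hs hj hV hb).exists_full (by omega) (PG_col hc hs j) le_rfl
  exact ⟨_, (h.frame hs hj hV hb).Cl_clq hv, hvc⟩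

include hs hV in
/-- the same for `b_j(L) = r + 1`, `r ≥ 7` -/
lemma exists_line_of_le' (hr : 7 ≤ r) (h : Line hc i L) (hj : j ≠ i)
    (hb : (BB (col c hc j) univ L).card ≤ r + 1) : ∃ K, Line hc j K := by
  by_contra hcon
  push Not at hcon
  have hP := PG_col hc hs j
  have hF := h.frame hs hj hV hb
  have h1 : ∀ v ∈ L, (Cl (col c hc j) univ L v).card ≤ r - 1 := fun v hv =>
    clq_lt_of_no_line (W := univ) (by omega) (fun K _ => hcon K) (subset_univ _) (hF.Cl_clq hv)
  have h2 := hF.card_split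
  rw [hF.cardZ] at h2
  have h3 : ∀ v ∈ L, (Cl (col c hc j) univ L v).card = r - 1 := by
    intro v hv
    by_contra hne
    have h4 : (Cl (col c hc j) univ L v).card + 1 ≤ r - 1 := by
      have := h1 v hv
      omega
    have h5 : ∑ w ∈ L.erase v, (Cl (col c hc j) univ L w).card ≤ (r - 1) * (r - 1) := by
      have := sum_le_sum fun w (hw : w ∈ L.erase v) => h1 w (mem_of_mem_erase hw)
      rwa [sum_const, smul_eq_mul, card_erase_of_mem hv, h.2] at this
    have h6 := add_sum_erase L (fun w => (Cl (col c hc j) univ L w).card) hv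
    obtain ⟨n, rfl⟩ : ∃ n, r = n + 1 := ⟨r - 1, by omega⟩
    simp only [Nat.add_sub_cancel] at h4 h5 h6
    have e1 : (n + 1) * (n + 1) = n * n + 2 * n + 1 := by ring
    omega
  have h4 : L.card < (BB (col c hc j) univ L).card := by
    rw [sum_congr rfl h3, sum_const, smul_eq_mul, h.2] at h2
    rw [h.2]
    obtain ⟨n, rfl⟩ : ∃ n, r = n + 1 := ⟨r - 1, by omega⟩
    simp only [Nat.add_sub_cancel] at h2
    have e1 : (n + 1) * (n + 1) = (n + 1) * n + (n + 1) := by ring
    omega
  -- every double misses at most two points of one of its classes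
  have h5 : ∀ z ∈ BB (col c hc j) univ L, ∃ u ∈ L,
      nd (col c hc j) (Cl (col c hc j) univ L u) z ≤ 2 := by
    intro z hz
    have h6 : (ends (col c hc j) L z).card = 2 := (mem_BB.1 hz).2
    obtain ⟨u, w, huw, hE⟩ := card_eq_two.1 h6
    have hu : u ∈ L := (mem_ends.1 (by rw [hE]; simp)).1
    have hw : w ∈ L := (mem_ends.1 (by rw [hE]; simp)).1
    have h7 := hF.kappa_mul hP hz hE huw
    rw [h3 u hu, h3 w hw] at h7
    have h8 : (((r - 1 : ℕ)) : ℤ) = r - 1 := by
      rw [Nat.cast_sub (by omega)]; simp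
    rw [h8] at h7
    by_contra hcon'
    push Not at hcon'
    have h9 : (3 : ℤ) ≤ nd (col c hc j) (Cl (col c hc j) univ L u) z := by
      exact_mod_cast hcon' u hu
    have h10 : (3 : ℤ) ≤ nd (col c hc j) (Cl (col c hc j) univ L w) z := by
      exact_mod_cast hcon' w hw
    nlinarith
  choose! f hf1 hf2 using h5
  obtain ⟨z, hz, z', hz', hne, hfz⟩ := exists_ne_map_eq_of_card_lt_of_maps_to h4 hf1
  have h6 := hP.val (C := Cl (col c hc j) univ L (f z)) (Y := {z, z'}) (hF.Cl_clq (hf1 z hz)) (by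
    refine (PFrame.BB_disjoint_Cl (hf1 z hz)).mono_right ?_
    intro x hx
    simp only [mem_insert, mem_singleton] at hx
    rcases hx with rfl | rfl
    · exact hz
    · exact hz')
  have h7 : (nd (col c hc j) (Cl (col c hc j) univ L (f z)) z : ℤ) ≤ 2 := by
    exact_mod_cast hf2 z hz
  have h8 : (nd (col c hc j) (Cl (col c hc j) univ L (f z)) z' : ℤ) ≤ 2 := by
    rw [hfz]
    exact_mod_cast hf2 z' hz'
  have h9 : (NE (col c hc j) {z, z'} : ℤ) ≤ 2 := by
    have h10 : NE (col c hc j) {z, z'} ≤ ∑ _x ∈ ({z, z'} : Finset V), 1 := by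
      refine sum_le_sum fun x hx => ?_
      refine (card_le_card (t := ({z, z'} : Finset V).erase x) ?_).trans ?_
      · intro y hy
        obtain ⟨hy1, hy2, -⟩ := mem_filter.1 hy
        exact mem_erase.2 ⟨hy2, hy1⟩
      · rw [card_erase_of_mem hx, card_pair hne]
    rw [sum_const, card_pair hne] at h10
    exact_mod_cast h10
  rw [sum_pair hne, h3 _ (hf1 z hz)] at h6
  have h10 : (((r - 1 : ℕ)) : ℤ) = r - 1 := by
    rw [Nat.cast_sub (by omega)]; simp
  rw [h10] at h6
  have h11 : (7 : ℤ) ≤ r := by exact_mod_cast hr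
  nlinarith

lemma kj_lt (hr : 1 ≤ r) {K : Finset V} (h : Line hc j K) : kj hc j < r := by
  have : 0 < (LL hc j).card := card_pos.2 ⟨K, mem_LL.2 h⟩
  unfold kj
  omega

include hs hV in
/-- a line of a third colour -/
lemma exists_line_ne (hr : 5 ≤ r) (he : Exc hc) (j j' : Fin r) :
    ∃ i, i ≠ j ∧ i ≠ j' ∧ ∃ L, Line hc i L := by
  by_contra hcon
  push Not at hcon
  obtain ⟨i, L, h⟩ := he.line
  have h1 := he.sum_excess hs hV h
  have h2 : ∑ m ∈ (univ.erase j).erase j', 1
      ≤ ∑ m ∈ univ.erase i, ((BB (col c hc m) univ L).card - r) := by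
    have hsub : (univ.erase j).erase j' ⊆ univ.erase i := by
      intro m hm
      obtain ⟨hm1, hm2⟩ := mem_erase.1 hm
      refine mem_erase.2 ⟨?_, mem_univ m⟩
      rintro rfl
      exact hcon m (mem_erase.1 hm2).1 hm1 L h
    refine (sum_le_sum fun m hm => ?_).trans (sum_le_sum_of_subset hsub)
    obtain ⟨hm1, hm2⟩ := mem_erase.1 hm
    have hmi : m ≠ i := (mem_erase.1 (hsub hm)).1
    by_contra hlt
    obtain ⟨K, hK⟩ := exists_line_of_le hs hV (by omega) h hmi (by omega)
    exact hcon m (mem_erase.1 hm2).1 hm1 K hK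
  rw [← card_eq_sum_ones] at h2
  have h3 : r - 2 ≤ ((univ.erase j).erase j' : Finset (Fin r)).card := by
    have h4 := pred_card_le_card_erase (s := univ.erase j) (a := j')
    rw [card_erase_of_mem (mem_univ j), card_univ, Fintype.card_fin] at h4
    omega
  omega

include hs hV in
/-- **in the exceptional case there is a frame with `m + 4 ≤ r + t`** -/
theorem exists_mt (hr : 8 ≤ r) (he : Exc hc) :
    ∃ j m t Z T, m + 4 ≤ r + t ∧ S2 (col c hc j) r m t Z T := by
  have hct := he.count hs hV (by omega)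
  have hr8 : (8 : ℤ) ≤ r := by exact_mod_cast hr
  have key : ∀ (j i : Fin r) (L : Finset V) (m : ℕ), Line hc i L → j ≠ i →
      (BB (col c hc j) univ L).card ≤ m → m ≤ r + 1 → m + 4 ≤ r + kj hc j →
      ∃ j m t Z T, m + 4 ≤ r + t ∧ S2 (col c hc j) r m t Z T := by
    intro j i L m h hj hb hm hmt
    obtain ⟨K, hK⟩ := exists_line_of_le' hs hV (by omega) h hj (hb.trans hm)
    obtain ⟨m', t', Z', T', h1, h2⟩ := PFrame.to_crit (by omega) _
      (he.frame_UU hs hV (by omega) h hj hb) (kj_lt (by omega) hK)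
      (fun K hK hKq => clq_lt_of_no_line (by omega) (fun K' hK' => UU_no_line (by omega) hK')
        hK hKq) hmt
    exact ⟨j, m', t', Z', T', h1, h2⟩
  have h1 : ∃ j : Fin r, 4 ≤ kj hc j := by
    by_contra hcon
    push Not at hcon
    have h2 : ∑ j, (kj hc j : ℤ) * (kj hc j - 1) ≤ ∑ _j : Fin r, 6 := by
      refine sum_le_sum fun j _ => ?_
      have h3 : (kj hc j : ℤ) ≤ 3 := by
        have := hcon j
        omega
      have h4 : (0 : ℤ) ≤ kj hc j := Int.natCast_nonneg _
      nlinarith
    rw [sum_const, card_univ, Fintype.card_fin, nsmul_eq_mul] at h2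
    nlinarith
  obtain ⟨j, hj⟩ := h1
  by_cases hex : ∃ i L, Line hc i L ∧ j ≠ i ∧ (BB (col c hc j) univ L).card ≤ r
  · obtain ⟨i, L, h, hji, hb⟩ := hex
    exact key j i L r h hji hb (by omega) (by omega)
  push Not at hex
  have hex' : ∀ i L, Line hc i L → j ≠ i → (BB (col c hc j) univ L).card = r + 1 := by
    intro i L h hji
    have h1 := hex i L h hji
    have h2 := he.sum_excess hs hV h
    have h3 := single_le_sum (f := fun j => (BB (col c hc j) univ L).card - r)
      (fun _ _ => Nat.zero_le _) (mem_erase.2 ⟨hji, mem_univ j⟩)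
    omega
  by_cases h5 : 5 ≤ kj hc j
  · obtain ⟨i, hij, -, L, h⟩ := he.exists_line_ne hs hV (by omega) j j
    exact key j i L (r + 1) h (Ne.symm hij) (hex' i L h (Ne.symm hij)).le le_rfl (by omega)
  have h4 : kj hc j = 4 := by omega
  have h6 : ∃ j', j' ≠ j ∧ 4 ≤ kj hc j' := by
    by_contra hcon
    push Not at hcon
    rw [← add_sum_erase univ _ (mem_univ j), h4] at hct
    have h2 : ∑ j ∈ univ.erase j, (kj hc j : ℤ) * (kj hc j - 1)
        ≤ ∑ _j ∈ (univ : Finset (Fin r)).erase j, 6 := by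
      refine sum_le_sum fun j' hj' => ?_
      have h3 : (kj hc j' : ℤ) ≤ 3 := by
        have := hcon j' (mem_erase.1 hj').1
        omega
      have h4 : (0 : ℤ) ≤ kj hc j' := Int.natCast_nonneg _
      nlinarith
    rw [sum_const, card_erase_of_mem (mem_univ j), card_univ, Fintype.card_fin, nsmul_eq_mul,
      Nat.cast_sub (by omega)] at h2
    push_cast at h2 hct
    nlinarith
  obtain ⟨j', hj'j, hj'⟩ := h6
  obtain ⟨i, hij, hij', L, h⟩ := he.exists_line_ne hs hV (by omega) j j'
  have h7 := hex' i L h (Ne.symm hij)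
  have h8 : (BB (col c hc j') univ L).card ≤ r := by
    have h9 := he.sum_excess hs hV h
    by_contra hlt
    have h10 : ∑ m ∈ ({j, j'} : Finset (Fin r)), ((BB (col c hc m) univ L).card - r)
        ≤ ∑ m ∈ univ.erase i, ((BB (col c hc m) univ L).card - r) := by
      refine sum_le_sum_of_subset fun m hm => ?_
      simp only [mem_insert, mem_singleton] at hm
      rcases hm with rfl | rfl
      · exact mem_erase.2 ⟨Ne.symm hij, mem_univ _⟩
      · exact mem_erase.2 ⟨Ne.symm hij', mem_univ _⟩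
    rw [sum_pair (Ne.symm hj'j)] at h10
    omega
  exact key j' i L r h (Ne.symm hij') h8 (by omega) (by omega)

end Exc

/-- **every colouring contains a frame with `m + 4 ≤ r + t`** -/
theorem exists_S2_mt (hs : Sees c) (hr : 8 ≤ r) (hV : Fintype.card V = r ^ 2 + 1) :
    ∃ j m t Z T, m + 4 ≤ r + t ∧ S2 (col c hc j) r m t Z T := by
  rcases S2_or_exc (hc := hc) hs (by omega) hV with ⟨j, t, Z, T, h⟩ | he
  · have h1 := h.three_le (by omega) (PG_col hc hs j)
    exact ⟨j, r - 1, t, Z, T, by omega, h⟩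
  · exact he.exists_mt hs hV hr

/-- final form: the statement at `r` from the absence of frames with `m + 4 ≤ r + t` -/
theorem good_of_S2_mt (r : ℕ) (hr : 8 ≤ r)
    (hS : ∀ (G : SimpleGraph (Fin (r ^ 2 + 1))) (m t : ℕ) (Z T : Finset (Fin (r ^ 2 + 1))),
      PG G r → AlphaLe G univ r → m + 4 ≤ r + t → ¬ S2 G r m t Z T) :
    Good r (r ^ 2 + 1) := by
  intro c hc
  by_contra hcon
  push Not at hcon
  have hs : Sees c := fun S hS k => by
    obtain ⟨x, hx, y, hy, hxy, hk⟩ := hcon S hS k
    exact ⟨x, hx, y, hy, hxy, hk⟩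
  obtain ⟨j, m, t, Z, T, h1, h2⟩ := exists_S2_mt (hc := hc) hs hr (by simp)
  exact hS _ m t Z T (PG_col hc hs j) (alpha_le hc hs j univ) h1 h2

end Colour

end Pool.Agent.Lib.MP_f04ccf_co
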