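import Pool.Agent.Lib.MP_f04ccf_co.M.Exc7

/-!
MP_f04ccf_co: the reduction to frames with `m + 4 ≤ r + t` once more, now with the additional bound
`m ≤ r + 1` (needed for closed systems in which class points are dropped).  The proofs are those of
`ExcK` and `Exc7`.
-/

set_option autoImplicit false

namespace Pool.Agent.Lib.MP_f04ccf_co

open Finset

attribute [local instance] Classical.propDecidable

section CritM

variable {V : Type*} {G : SimpleGraph V} {r : ℕ}

/-- reduction to the critical level, `m + 4 ≤ r + t` is kept and `m` does not grow -/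
theorem PFrame.to_crit_m (hr : 2 ≤ r) : ∀ (t : ℕ) {m : ℕ} {Z T : Finset V}, PFrame G r m t Z T →
    t < r → (∀ K : Finset V, K ⊆ Z → Clq G K → K.card ≤ r - 1) → m + 4 ≤ r + t →
    ∃ m' t' Z' T', m' ≤ m ∧ m' + 4 ≤ r + t' ∧ S2 G r m' t' Z' T' := by
  intro t
  induction t using Nat.strong_induction_on with
  | _ t ih =>
    intro m Z T h ht hω hm
    by_cases hall : ∀ I : Finset V, I ⊂ T → (ZI G Z T I).card ≤ I.card * r
    · exact ⟨m, t, Z, T, le_rfl, hm, { h with lt := ht, omega := hω, hall := hall }⟩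
    push Not at hall
    obtain ⟨I, hI, hlt⟩ := hall
    have hIT : I ⊆ T := hI.1
    have hIc : I.card < t := by
      rw [← h.cardT]
      exact card_lt_card hI
    set C : Finset V := I.biUnion (fun v => Cl G Z T v) with hC
    have hCZ : C ⊆ ZI G Z T I := by
      intro z hz
      obtain ⟨v, hv, hzv⟩ := mem_biUnion.1 hz
      exact h.Cl_sub_ZI' (hIT hv) hv hzv
    have hCc : C.card = ∑ v ∈ I, (Cl G Z T v).card :=
      card_biUnion fun v hv w hw hvw => Cl_disjoint (hIT hv) (hIT hw) hvw
    have hle : ∀ v ∈ T, (Cl G Z T v).card ≤ r - 1 :=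
      fun v hv => hω _ (filter_subset _ _) (h.Cl_clq hv)
    have h1 : C.card ≤ I.card * (r - 1) := by
      rw [hCc]
      have := sum_le_sum fun v hv => hle v (hIT hv)
      rwa [sum_const, smul_eq_mul] at this
    have h2 : I.card * (r - 1) ≤ I.card * r + 1 :=
      (Nat.mul_le_mul_left _ (Nat.sub_le r 1)).trans (Nat.le_succ _)
    obtain ⟨Z', hZ1, hZ2, hZc⟩ := exists_subsuperset_card_eq hCZ (h1.trans h2) hlt
    have hIZ : I ⊆ Z' := fun v hv =>
      hZ1 (mem_biUnion.2 ⟨v, hv, h.self_mem_Cl (hIT hv)⟩)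
    have hout : ∀ z ∈ Z' \ I, z ∈ Z ∧ z ∉ T := by
      intro z hz
      obtain ⟨hz1, hz2⟩ := mem_sdiff.1 hz
      obtain ⟨hz3, hz4, -⟩ := mem_ZI.1 (hZ2 hz1)
      exact ⟨hz3, fun h' => hz2 (hz4 h')⟩
    have h3 : PFrame G r (BB G Z' I).card I.card Z' I :=
      { sub := hIZ
        ind := h.ind.mono hIT
        cardT := rfl
        alpha := (h.alpha_ZI hIT).mono G hZ2
        cardZ := hZc
        k2 := fun z hz => (dg_mono G hIT z).trans (h.k2 z (mem_sdiff.2 (hout z hz)))
        b := le_rfl }
    have h4 : BB G Z' I ⊆ Z' \ C := by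
      intro z hz
      obtain ⟨⟨hz1, hz2⟩, hz3⟩ := mem_BB.1 hz
      refine mem_sdiff.2 ⟨hz1, fun hzC => ?_⟩
      obtain ⟨v, hv, hzv⟩ := mem_biUnion.1 hzC
      rcases (mem_Cl.1 hzv).2 with h5 | ⟨-, h5⟩
      · exact hz2 (h5 ▸ hv)
      · have h6 := dg_mono G hIT z
        rw [← card_ends T, h5, card_singleton] at h6
        omega
    have h5 := card_le_card h4
    rw [card_sdiff_of_subset hZ1, hZc] at h5
    have h6 := h.card_split
    rw [h.cardZ] at h6
    have h7 : ∑ v ∈ T \ I, (Cl G Z T v).card ≤ (t - I.card) * (r - 1) := by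
      have := sum_le_sum fun v (hv : v ∈ T \ I) => hle v (mem_sdiff.1 hv).1
      rwa [sum_const, smul_eq_mul, card_sdiff_of_subset hIT, h.cardT] at this
    have h8 : ∑ v ∈ T \ I, (Cl G Z T v).card + ∑ v ∈ I, (Cl G Z T v).card
        = ∑ v ∈ T, (Cl G Z T v).card := sum_sdiff hIT
    have h9 := h.b
    have h10 : (BB G Z' I).card + (t - I.card) ≤ m := by
      obtain ⟨n, rfl⟩ : ∃ n, r = n + 1 := ⟨r - 1, by omega⟩
      obtain ⟨d, rfl⟩ : ∃ d, t = I.card + d := ⟨t - I.card, by omega⟩
      simp only [Nat.add_sub_cancel, Nat.add_sub_cancel_left] at h7 h1 ⊢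
      have e1 : (I.card + d) * (n + 1) = I.card * n + I.card + d * n + d := by ring
      have e2 : I.card * (n + 1) = I.card * n + I.card := by ring
      rw [e1] at h6
      rw [e2] at h5
      omega
    obtain ⟨m', t', Z'', T'', e1, e2, e3⟩ := ih I.card hIc h3 (by omega) (fun K hK hKq => hω K
      (hK.trans (hZ2.trans (filter_subset _ _))) hKq) (by omega)
    exact ⟨m', t', Z'', T'', by omega, e2, e3⟩

end CritM

section ColourM

variable {V : Type*} [Fintype V] {r : ℕ} {c : V → V → Fin r} {hc : ∀ x y, c x y = c y x}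
  {i j : Fin r} {L : Finset V}

namespace Exc

variable (hs : Sees c) (hV : Fintype.card V = r ^ 2 + 1)

include hs hV in
/-- **in the exceptional case there is a frame with `m + 4 ≤ r + t`** -/
theorem exists_mt_m (hr : 8 ≤ r) (he : Exc hc) :
    ∃ j m t Z T, m ≤ r + 1 ∧ m + 4 ≤ r + t ∧ S2 (col c hc j) r m t Z T := by
  have hct := he.count hs hV (by omega)
  have hr8 : (8 : ℤ) ≤ r := by exact_mod_cast hr
  have key : ∀ (j i : Fin r) (L : Finset V) (m : ℕ), Line hc i L → j ≠ i →
      (BB (col c hc j) univ L).card ≤ m → m ≤ r + 1 → m + 4 ≤ r + kj hc j →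
      ∃ j m t Z T, m ≤ r + 1 ∧ m + 4 ≤ r + t ∧ S2 (col c hc j) r m t Z T := by
    intro j i L m h hj hb hm hmt
    obtain ⟨K, hK⟩ := exists_line_of_le' hs hV (by omega) h hj (hb.trans hm)
    obtain ⟨m', t', Z', T', h0, h1, h2⟩ := PFrame.to_crit_m (by omega) _
      (he.frame_UU hs hV (by omega) h hj hb) (kj_lt (by omega) hK)
      (fun K hK hKq => clq_lt_of_no_line (by omega) (fun K' hK' => UU_no_line (by omega) hK')
        hK hKq) hmt
    exact ⟨j, m', t', Z', T', h0.trans hm, h1, h2⟩
  have h1 : ∃ j : Fin r, 4 ≤ kj hc j := by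
    by_contra hcon
    push Not at hcon
    have h2 : ∑ j, (kj hc j : ℤ) * (kj hc j - 1) ≤ ∑ _j : Fin r, 6 := by
      refine sum_le_sum fun j _ => ?_
      have h3 : (kj hc j : ℤ) ≤ 3 := by
        have := hcon j
        omega
      have h4 : (0 : ℤ) ≤ kj hc j := Int.natCast_nonneg _
      nlinarith
    rw [sum_const, card_univ, Fintype.card_fin, nsmul_eq_mul] at h2
    nlinarith
  obtain ⟨j, hj⟩ := h1
  by_cases hex : ∃ i L, Line hc i L ∧ j ≠ i ∧ (BB (col c hc j) univ L).card ≤ r
  · obtain ⟨i, L, h, hji, hb⟩ := hex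
    exact key j i L r h hji hb (by omega) (by omega)
  push Not at hex
  have hex' : ∀ i L, Line hc i L → j ≠ i → (BB (col c hc j) univ L).card = r + 1 := by
    intro i L h hji
    have h1 := hex i L h hji
    have h2 := he.sum_excess hs hV h
    have h3 := single_le_sum (f := fun j => (BB (col c hc j) univ L).card - r)
      (fun _ _ => Nat.zero_le _) (mem_erase.2 ⟨hji, mem_univ j⟩)
    omega
  by_cases h5 : 5 ≤ kj hc j
  · obtain ⟨i, hij, -, L, h⟩ := he.exists_line_ne hs hV (by omega) j j
    exact key j i L (r + 1) h (Ne.symm hij) (hex' i L h (Ne.symm hij)).le le_rfl (by omega)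
  have h4 : kj hc j = 4 := by omega
  have h6 : ∃ j', j' ≠ j ∧ 4 ≤ kj hc j' := by
    by_contra hcon
    push Not at hcon
    rw [← add_sum_erase univ _ (mem_univ j), h4] at hct
    have h2 : ∑ j ∈ univ.erase j, (kj hc j : ℤ) * (kj hc j - 1)
        ≤ ∑ _j ∈ (univ : Finset (Fin r)).erase j, 6 := by
      refine sum_le_sum fun j' hj' => ?_
      have h3 : (kj hc j' : ℤ) ≤ 3 := by
        have := hcon j' (mem_erase.1 hj').1
        omega
      have h4 : (0 : ℤ) ≤ kj hc j' := Int.natCast_nonneg _
      nlinarith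
    rw [sum_const, card_erase_of_mem (mem_univ j), card_univ, Fintype.card_fin, nsmul_eq_mul,
      Nat.cast_sub (by omega)] at h2
    push_cast at h2 hct
    nlinarith
  obtain ⟨j', hj'j, hj'⟩ := h6
  obtain ⟨i, hij, hij', L, h⟩ := he.exists_line_ne hs hV (by omega) j j'
  have h7 := hex' i L h (Ne.symm hij)
  have h8 : (BB (col c hc j') univ L).card ≤ r := by
    have h9 := he.sum_excess hs hV h
    by_contra hlt
    have h10 : ∑ m ∈ ({j, j'} : Finset (Fin r)), ((BB (col c hc m) univ L).card - r)
        ≤ ∑ m ∈ univ.erase i, ((BB (col c hc m) univ L).card - r) := by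
      refine sum_le_sum_of_subset fun m hm => ?_
      simp only [mem_insert, mem_singleton] at hm
      rcases hm with rfl | rfl
      · exact mem_erase.2 ⟨Ne.symm hij, mem_univ _⟩
      · exact mem_erase.2 ⟨Ne.symm hij', mem_univ _⟩
    rw [sum_pair (Ne.symm hj'j)] at h10
    omega
  exact key j' i L r h (Ne.symm hij') h8 (by omega) (by omega)

end Exc

end ColourM

section Exc7M

variable {V : Type*}

variable [Fintype V] {c : V → V → Fin 7} {hc : ∀ x y, c x y = c y x}
namespace Exc

/-- **`r = 7`** -/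
theorem exists_mt_seven_m (hs : Sees c) (hV : Fintype.card V = 7 ^ 2 + 1) (he : Exc hc) :
    ∃ j m t Z T, m ≤ 8 ∧ m + 4 ≤ 7 + t ∧ S2 (col c hc j) 7 m t Z T := by
  by_contra hno
  have hct := he.count hs hV (by norm_num)
  have hb8 : ∀ (j i : Fin 7) (L : Finset V), Line hc i L → j ≠ i →
      (BB (col c hc j) univ L).card ≤ 8 := by
    intro j i L h hji
    have h2 := he.sum_excess hs hV h
    have h3 := single_le_sum (f := fun j => (BB (col c hc j) univ L).card - 7)
      (fun _ _ => Nat.zero_le _) (mem_erase.2 ⟨hji, mem_univ j⟩)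
    omega
  have hline : ∀ j : Fin 7, ∃ K, Line hc j K := by
    intro j
    obtain ⟨i, hij, -, L, h⟩ := he.exists_line_ne hs hV (by norm_num) j j
    exact exists_line_of_le' hs hV (by norm_num) h (Ne.symm hij) (hb8 j i L h (Ne.symm hij))
  have hklt : ∀ j : Fin 7, kj hc j < 7 := by
    intro j
    obtain ⟨K, hK⟩ := hline j
    exact kj_lt (by norm_num) hK
  have key0 : ∀ (j : Fin 7) (m : ℕ) (T : Finset V),
      PFrame (col c hc j) 7 m (kj hc j) (UU hc j) T → m ≤ 8 → m + 4 ≤ 7 + kj hc j → False := by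
    intro j m T hF hm8 hmt
    obtain ⟨m', t', Z', T', h0, h1, h2⟩ := PFrame.to_crit_m (by norm_num) _ hF (hklt j)
      (fun K hK hKq => clq_lt_of_no_line (by norm_num)
        (fun K' hK' => UU_no_line (by norm_num) hK') hK hKq) hmt
    exact hno ⟨j, m', t', Z', T', h0.trans hm8, h1, h2⟩
  have key : ∀ (j i : Fin 7) (L : Finset V) (m : ℕ), Line hc i L → j ≠ i →
      (BB (col c hc j) univ L).card ≤ m → m ≤ 8 → m + 4 ≤ 7 + kj hc j → False := by
    intro j i L m h hj hb hm8 hmt
    exact key0 j m _ (he.frame_UU hs hV (by norm_num) h hj hb) hm8 hmt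
  have hkL : ∀ j : Fin 7, kj hc j + (LL hc j).card = 7 := fun j =>
    he.kj_add hs hV (by norm_num) j
  have hsumE : ∑ k : Fin 7, (E (col c hc k) univ : ℤ) = 2450 := by
    rw [sum_E_int hc (univ : Finset V), card_univ, hV]
    norm_num
  by_cases h1 : ∃ j : Fin 7, 4 ≤ kj hc j
  · obtain ⟨j, hj⟩ := h1
    by_cases hex : ∃ i L, Line hc i L ∧ j ≠ i ∧ (BB (col c hc j) univ L).card ≤ 7
    · obtain ⟨i, L, h, hji, hb⟩ := hex
      exact key j i L 7 h hji hb (by omega) (by omega)
    push Not at hex
    have hex' : ∀ i L, Line hc i L → j ≠ i → (BB (col c hc j) univ L).card = 8 := by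
      intro i L h hji
      have h1 := hex i L h hji
      have h2 := hb8 j i L h hji
      omega
    by_cases h5 : 5 ≤ kj hc j
    · obtain ⟨i, hij, -, L, h⟩ := he.exists_line_ne hs hV (by norm_num) j j
      exact key j i L 8 h (Ne.symm hij) (hex' i L h (Ne.symm hij)).le le_rfl (by omega)
    have h4 : kj hc j = 4 := by omega
    by_cases h6 : ∃ j', j' ≠ j ∧ 4 ≤ kj hc j'
    · obtain ⟨j', hj'j, hj'⟩ := h6
      obtain ⟨i, hij, hij', L, h⟩ := he.exists_line_ne hs hV (by norm_num) j j'
      have h7 := hex' i L h (Ne.symm hij)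
      have h8 : (BB (col c hc j') univ L).card ≤ 7 := by
        have h9 := he.sum_excess hs hV h
        by_contra hlt
        have h10 : ∑ m ∈ ({j, j'} : Finset (Fin 7)), ((BB (col c hc m) univ L).card - 7)
            ≤ ∑ m ∈ univ.erase i, ((BB (col c hc m) univ L).card - 7) := by
          refine sum_le_sum_of_subset fun m hm => ?_
          simp only [mem_insert, mem_singleton] at hm
          rcases hm with rfl | rfl
          · exact mem_erase.2 ⟨Ne.symm hij, mem_univ _⟩
          · exact mem_erase.2 ⟨Ne.symm hij', mem_univ _⟩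
        rw [sum_pair (Ne.symm hj'j)] at h10
        omega
      exact key j' i L 7 h (Ne.symm hij') h8 (by omega) (by omega)
    push Not at h6
    -- no outside edges at the lines of the other colours
    have hAA : ∀ m : Fin 7, m ≠ j → ∀ L ∈ LL hc m, (AA hc m L).card = 0 := by
      intro m hm L hL
      have h7 := he.sum_excess hs hV (mem_LL.1 hL)
      have h8 := hex' m L (mem_LL.1 hL) (Ne.symm hm)
      have h9 := single_le_sum (f := fun j => (BB (col c hc j) univ L).card - 7)
        (fun _ _ => Nat.zero_le _) (mem_erase.2 ⟨Ne.symm hm, mem_univ j⟩)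
      simp only [h8] at h9
      omega
    have hm : ∀ m : Fin 7, m ≠ j → (E (col c hc m) univ : ℤ) ≤ 342 := by
      intro m hm
      have e1 := he.E_univ_le2 hs hV (by norm_num) m
      rw [sum_eq_zero (hAA m hm)] at e1
      have e2 := he.E7_le hs hV m
      have e3 := hkL m
      have e4 : kj hc m ≤ 3 := by
        have := h6 m hm
        omega
      generalize kj hc m = k at e2 e3 e4
      generalize (LL hc m).card = l at e1 e3
      have e5 : k = 0 ∨ k = 1 ∨ k = 2 ∨ k = 3 := by omega
      rcases e5 with rfl | rfl | rfl | rfl <;> norm_num at e2 <;> omega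
    have hj' : (E (col c hc j) univ : ℤ) ≤ 392 := by
      have e1 := he.E_univ_le hs hV (by norm_num) j
      have e2 := he.E7_le hs hV j
      have e3 := hkL j
      rw [h4] at e2 e3
      have e4 : (LL hc j).card = 3 := by omega
      rw [e4] at e1
      norm_num at e2 e1
      omega
    have h7 : ∑ m ∈ univ.erase j, (E (col c hc m) univ : ℤ) ≤ ∑ _m ∈ (univ : Finset (Fin 7)).erase j, 342 :=
      sum_le_sum fun m hmm => hm m (mem_erase.1 hmm).1
    rw [sum_const, card_erase_of_mem (mem_univ j), card_univ, Fintype.card_fin] at h7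
    rw [← add_sum_erase univ _ (mem_univ j)] at hsumE
    have h8 := h7.trans (show (7 - 1) • (342 : ℤ) ≤ 2052 by norm_num)
    linarith
  · push Not at h1
    -- all `k_j = 3`
    have hk3 : ∀ j : Fin 7, kj hc j = 3 := by
      intro j
      by_contra hne
      have h2 : ∑ m ∈ univ.erase j, (kj hc m : ℤ) * (kj hc m - 1)
          ≤ ∑ _m ∈ (univ : Finset (Fin 7)).erase j, 6 := by
        refine sum_le_sum fun m _ => ?_
        have h3 : (kj hc m : ℤ) ≤ 3 := by
          have := h1 m
          omega
        have h4 : (0 : ℤ) ≤ kj hc m := Int.natCast_nonneg _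
        nlinarith
      rw [sum_const, card_erase_of_mem (mem_univ j), card_univ, Fintype.card_fin] at h2
      rw [← add_sum_erase univ _ (mem_univ j)] at hct
      have h3 : (kj hc j : ℤ) ≤ 2 := by
        have := h1 j
        omega
      have h4 : (0 : ℤ) ≤ kj hc j := Int.natCast_nonneg _
      norm_num at h2 hct
      nlinarith
    have hL4 : ∀ j : Fin 7, (LL hc j).card = 4 := by
      intro j
      have := hkL j
      rw [hk3 j] at this
      omega
    have hUc : ∀ j : Fin 7, (UU hc j).card = 22 := by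
      intro j
      rw [he.UU_card hs hV (by norm_num) j, hk3 j]
    have hEU : ∀ j : Fin 7, E (col c hc j) (UU hc j) ≤ 174 := by
      intro j
      have e2 := he.E7_le hs hV j
      rw [hk3 j] at e2
      norm_num at e2
      omega
    have hEle : ∀ j : Fin 7, E (col c hc j) univ ≤ E (col c hc j) (UU hc j) + 168
        + 2 * ∑ L ∈ LL hc j, (AA hc j L).card := by
      intro j
      have e1 := he.E_univ_le2 hs hV (by norm_num) j
      rw [hL4 j] at e1
      norm_num at e1
      exact e1
    have hAAs : ∀ j : Fin 7, ∑ L ∈ LL hc j, (AA hc j L).card ≤ 4 := by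
      intro j
      have h2 := sum_le_sum fun L (hL : L ∈ LL hc j) => he.AA_le hs hV (mem_LL.1 hL)
      rw [sum_const, hL4 j] at h2
      simpa using h2
    have hE350 : ∀ j : Fin 7, E (col c hc j) univ = 350 := by
      have hle : ∀ j : Fin 7, E (col c hc j) univ ≤ 350 := by
        intro j
        have e1 := hEle j
        have e2 := hEU j
        have e3 := hAAs j
        omega
      intro j
      by_contra hne
      have e1 : (E (col c hc j) univ : ℤ) ≤ 349 := by
        have := hle j
        omega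
      have h7 : ∑ m ∈ univ.erase j, (E (col c hc m) univ : ℤ)
          ≤ ∑ _m ∈ (univ : Finset (Fin 7)).erase j, 350 :=
        sum_le_sum fun m _ => by exact_mod_cast hle m
      rw [sum_const, card_erase_of_mem (mem_univ j), card_univ, Fintype.card_fin] at h7
      rw [← add_sum_erase univ _ (mem_univ j)] at hsumE
      have h8 := h7.trans (show (7 - 1) • (350 : ℤ) ≤ 2100 by norm_num)
      linarith
    have hEU' : ∀ j : Fin 7, E (col c hc j) (UU hc j) = 174 := by
      intro j
      have e1 := hEle j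
      have e2 := hEU j
      have e3 := hAAs j
      have e4 := hE350 j
      omega
    have hAA1 : ∀ j : Fin 7, ∀ L, Line hc j L → (AA hc j L).card = 1 := by
      intro j L hL
      have e1 := hEle j
      have e4 := hE350 j
      have e5 := hEU' j
      have e6 : 4 ≤ ∑ L ∈ LL hc j, (AA hc j L).card := by omega
      rw [← add_sum_erase _ _ (mem_LL.2 hL)] at e6
      have h2 := sum_le_sum fun K (hK : K ∈ (LL hc j).erase L) =>
        he.AA_le hs hV (mem_LL.1 (mem_of_mem_erase hK))
      rw [sum_const, card_erase_of_mem (mem_LL.2 hL), hL4 j] at h2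
      have h3 := he.AA_le hs hV hL
      norm_num at h2
      omega
    have hb7 : ∀ (j i : Fin 7) (L : Finset V), Line hc i L → j ≠ i →
        (BB (col c hc j) univ L).card ≤ 7 := by
      intro j i L h hji
      have h2 := he.sum_excess hs hV h
      have h3 := single_le_sum (f := fun j => (BB (col c hc j) univ L).card - 7)
        (fun _ _ => Nat.zero_le _) (mem_erase.2 ⟨hji, mem_univ j⟩)
      have h4 := hAA1 i L h
      omega
    -- the other colours inside `U_m`
    have hE48 : ∀ m n : Fin 7, n ≠ m → E (col c hc n) (UU hc m) ≤ 48 := by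
      intro m n hnm
      have e1 := sum_E hc (UU hc m)
      rw [hUc m] at e1
      have e2 : ∀ k : Fin 7, 48 ≤ E (col c hc k) (UU hc m) := by
        intro k
        have e3 := E_lower_q (col c hc k) 3 7 (UU hc m) (alpha_le hc hs k _)
        rw [hUc m] at e3
        norm_num at e3
        exact_mod_cast e3
      rw [← add_sum_erase univ _ (mem_univ m), hEU' m,
        ← add_sum_erase (univ.erase m) _ (mem_erase.2 ⟨hnm, mem_univ n⟩)] at e1
      have e4 : ∑ _k ∈ ((univ : Finset (Fin 7)).erase m).erase n, 48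
          ≤ ∑ k ∈ (univ.erase m).erase n, E (col c hc k) (UU hc m) :=
        sum_le_sum fun k _ => e2 k
      rw [sum_const, card_erase_of_mem (mem_erase.2 ⟨hnm, mem_univ n⟩),
        card_erase_of_mem (mem_univ m), card_univ, Fintype.card_fin] at e4
      norm_num at e1 e4
      omega
    -- degrees inside `U_m`
    have hd9 : ∀ (m : Fin 7) (u : V), u ∈ UU hc m → dg (col c hc m) (UU hc m) u ≤ 9 := by
      intro m u hu
      have e1 := sum_dg hc (UU hc m) hu
      rw [hUc m, ← add_sum_erase univ _ (mem_univ m)] at e1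
      have e2 : ∑ _k ∈ (univ : Finset (Fin 7)).erase m, 2
          ≤ ∑ k ∈ univ.erase m, dg (col c hc k) (UU hc m) u :=
        sum_le_sum fun k hk => min_deg_22 (alpha_le hc hs k _) (hUc m)
          (hE48 m k (mem_erase.1 hk).1) hu
      rw [sum_const, card_erase_of_mem (mem_univ m), card_univ, Fintype.card_fin] at e2
      norm_num at e1 e2
      omega
    -- the three points of a line in `U_m`
    have h26 : ∀ (m i : Fin 7) (L : Finset V), Line hc i L → m ≠ i →
        26 ≤ ∑ q ∈ L ∩ UU hc m, dg (col c hc m) (UU hc m) q := by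
      intro m i L h hmi
      have hF := he.frame_UU hs hV (by norm_num) h hmi le_rfl
      have e1 := hF.sum_dg_T
      rw [hF.cardT, hUc m, hk3 m] at e1
      by_contra hlt
      have e2 : (BB (col c hc m) (UU hc m) (L ∩ UU hc m)).card ≤ 6 := by omega
      exact key0 m 6 _ { hF with b := e2 } (by omega) (by rw [hk3 m])
    have h8 : ∀ (m i : Fin 7) (L : Finset V), Line hc i L → m ≠ i → ∀ q ∈ L ∩ UU hc m,
        8 ≤ dg (col c hc m) (UU hc m) q := by
      intro m i L h hmi q hq
      have e1 := h26 m i L h hmi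
      rw [← add_sum_erase _ _ hq] at e1
      have e2 : ∑ q ∈ (L ∩ UU hc m).erase q, dg (col c hc m) (UU hc m) q
          ≤ ∑ _q ∈ (L ∩ UU hc m).erase q, 9 :=
        sum_le_sum fun z hz => hd9 m z (mem_inter.1 (mem_of_mem_erase hz)).2
      rw [sum_const, card_erase_of_mem hq, he.inter_UU hs hV (by norm_num) h hmi, hk3 m] at e2
      norm_num at e2
      omega
    -- an outside edge
    obtain ⟨L0, hL0⟩ := hline 0
    obtain ⟨p, hp⟩ := card_pos.1 (by rw [hAA1 0 L0 hL0]; norm_num : 0 < (AA hc 0 L0).card)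
    obtain ⟨hp1, hp2⟩ := mem_filter.1 hp
    have hpL : p ∉ L0 := (mem_sdiff.1 hp1).2
    obtain ⟨v, hv⟩ := card_pos.1 (Nat.pos_of_ne_zero hp2)
    obtain ⟨hv1, hv2⟩ := mem_filter.1 hv
    have hv7 : 7 ≤ dg (col c hc 0) univ v := by
      have e1 : (L0.erase v) ∪ {p} ⊆ univ.filter (fun w => (col c hc 0).Adj v w) := by
        intro w hw
        rcases mem_union.1 hw with h | h
        · obtain ⟨h3, h4⟩ := mem_erase.1 h
          exact mem_filter.2 ⟨mem_univ w, hL0.1 v hv1 w h4 (Ne.symm h3)⟩
        · rw [mem_singleton.1 h]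
          exact mem_filter.2 ⟨mem_univ p, hv2.symm⟩
      have e2 := card_le_card e1
      rw [card_union_of_disjoint (by
        rw [disjoint_singleton_right]
        exact fun h => hpL (mem_of_mem_erase h)), card_erase_of_mem hv1, hL0.2,
        card_singleton] at e2
      exact e2
    -- `v` is on no line of another colour
    have hnot : ∀ (i : Fin 7) (M : Finset V), Line hc i M → i ≠ 0 → v ∉ M := by
      intro i M hM hi hvM
      have hF := hM.frame hs (Ne.symm hi) hV le_rfl
      have e1 := hF.sum_dg_T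
      rw [card_univ, hV, hM.2] at e1
      have e2 := hb7 0 i M hM (Ne.symm hi)
      have e3 := h26 0 i M hM (Ne.symm hi)
      have e4 : ∑ q ∈ M ∩ UU hc 0, dg (col c hc 0) (UU hc 0) q
          ≤ ∑ q ∈ M ∩ UU hc 0, dg (col c hc 0) univ q :=
        sum_le_sum fun q _ => dg_mono _ (subset_univ _) q
      have hvLP : v ∈ M \ UU hc 0 := by
        refine mem_sdiff.2 ⟨hvM, fun h' => (mem_sdiff.1 h').2 ?_⟩
        exact mem_biUnion.2 ⟨L0, mem_LL.2 hL0, hv1⟩
      have e5 : ∀ q ∈ M \ UU hc 0, 6 ≤ dg (col c hc 0) univ q := by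
        intro q hq
        have h3 : q ∈ LP hc 0 := by
          by_contra hn
          exact (mem_sdiff.1 hq).2 (mem_sdiff.2 ⟨mem_univ q, hn⟩)
        obtain ⟨K, hK, hqK⟩ := mem_biUnion.1 h3
        have hK' := mem_LL.1 hK
        change q ∈ K at hqK
        have h4 : K.erase q ⊆ univ.filter (fun w => (col c hc 0).Adj q w) := by
          intro w hw
          obtain ⟨h5, h6⟩ := mem_erase.1 hw
          exact mem_filter.2 ⟨mem_univ w, hK'.1 q hqK w h6 (Ne.symm h5)⟩
        have h5 := card_le_card h4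
        rw [card_erase_of_mem hqK, hK'.2] at h5
        exact h5
      have e6 : (M \ UU hc 0).card = 4 := by
        have h3 := card_sdiff_add_card_inter M (UU hc 0)
        rw [he.inter_UU hs hV (by norm_num) hM (Ne.symm hi), hk3 0, hM.2] at h3
        omega
      have e7 : ∑ _q ∈ (M \ UU hc 0).erase v, 6
          ≤ ∑ q ∈ (M \ UU hc 0).erase v, dg (col c hc 0) univ q :=
        sum_le_sum fun q hq => e5 q (mem_of_mem_erase hq)
      rw [sum_const, card_erase_of_mem hvLP, e6] at e7
      have e8 : ∑ q ∈ M, dg (col c hc 0) univ q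
          = ∑ q ∈ M ∩ UU hc 0, dg (col c hc 0) univ q
            + (dg (col c hc 0) univ v + ∑ q ∈ (M \ UU hc 0).erase v, dg (col c hc 0) univ q) := by
        rw [add_sum_erase _ _ hvLP, add_comm]
        rw [← sum_union (by
          rw [disjoint_left]
          intro x hx hx'
          exact (mem_sdiff.1 hx).2 (mem_inter.1 hx').2), sdiff_union_inter]
      norm_num at e1 e7
      omega
    -- the degrees at `v`
    have hdeg : ∑ m : Fin 7, dg (col c hc m) univ v = 49 := by
      have e1 := sum_dg hc univ (mem_univ v)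
      rw [card_univ, hV] at e1
      exact e1
    rw [← add_sum_erase univ _ (mem_univ (0 : Fin 7))] at hdeg
    have e2 : ∑ _m ∈ (univ : Finset (Fin 7)).erase 0, 8
        ≤ ∑ m ∈ univ.erase 0, dg (col c hc m) univ v := by
      refine sum_le_sum fun m hm => ?_
      have hm0 := (mem_erase.1 hm).1
      have hvU : v ∈ L0 ∩ UU hc m := by
        refine mem_inter.2 ⟨hv1, mem_sdiff.2 ⟨mem_univ v, fun h' => ?_⟩⟩
        obtain ⟨K, hK, hvK⟩ := mem_biUnion.1 h'
        exact hnot m K (mem_LL.1 hK) hm0 hvK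
      exact (h8 m 0 L0 hL0 hm0 v hvU).trans (dg_mono _ (subset_univ _) v)
    rw [sum_const, card_erase_of_mem (mem_univ (0 : Fin 7)), card_univ, Fintype.card_fin] at e2
    norm_num at e2
    omega

end Exc

end Exc7M

section FinalM

variable {V : Type*} [Fintype V]

/-- **every colouring contains a frame with `m ≤ r + 1` and `m + 4 ≤ r + t`, `r ≥ 7`** -/
theorem exists_S2_mtm {r : ℕ} {c : V → V → Fin r} {hc : ∀ x y, c x y = c y x} (hs : Sees c)
    (hr : 7 ≤ r) (hV : Fintype.card V = r ^ 2 + 1) :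
    ∃ j m t Z T, m ≤ r + 1 ∧ m + 4 ≤ r + t ∧ S2 (col c hc j) r m t Z T := by
  rcases S2_or_exc (hc := hc) hs (by omega) hV with ⟨j, t, Z, T, h⟩ | he
  · have h1 := h.three_le (by omega) (PG_col hc hs j)
    exact ⟨j, r - 1, t, Z, T, by omega, by omega, h⟩
  · rcases Nat.lt_or_ge r 8 with h | h
    · obtain rfl : r = 7 := by omega
      exact he.exists_mt_seven_m hs hV
    · exact he.exists_mt_m hs hV h

end FinalM

/-- final form for `r ≥ 7`: the statement at `r` from the absence of frames with `m ≤ r + 1` and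
`m + 4 ≤ r + t` -/
theorem good_of_S2_mtm (r : ℕ) (hr : 7 ≤ r)
    (hS : ∀ (G : SimpleGraph (Fin (r ^ 2 + 1))) (m t : ℕ) (Z T : Finset (Fin (r ^ 2 + 1))),
      PG G r → AlphaLe G univ r → m ≤ r + 1 → m + 4 ≤ r + t → ¬ S2 G r m t Z T) :
    Good r (r ^ 2 + 1) := by
  intro c hc
  by_contra hcon
  push Not at hcon
  have hs : Sees c := fun S hS k => by
    obtain ⟨x, hx, y, hy, hxy, hk⟩ := hcon S hS k
    exact ⟨x, hx, y, hy, hxy, hk⟩
  obtain ⟨j, m, t, Z, T, h0, h1, h2⟩ := exists_S2_mtm (hc := hc) hs hr (by simp)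
  exact hS _ m t Z T (PG_col hc hs j) (alpha_le hc hs j univ) h0 h1 h2

end Pool.Agent.Lib.MP_f04ccf_co
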