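import Pool.Agent.Lib.MP_f04ccf_co.M.R9d
import Pool.Agent.Lib.MP_f04ccf_co.M.R8

/-!
MP_f04ccf_co: the statement at `r = 9`.
-/

set_option autoImplicit false

namespace Pool.Agent.Lib.MP_f04ccf_co

open Finset

variable {V : Type*} {G : SimpleGraph V} {r m t : ℕ} {Z T : Finset V}

/-- a frame has at least `t + 5` doubles (`9 ≤ r`) -/
theorem S2.five_more (hr : 9 ≤ r) (hP : PG G r) (h : S2 G r m t Z T) (hmr : m ≤ r) :
    t + 5 ≤ (BB G Z T).card := by
  by_contra hcon
  exact h.dead_four hr hP (h.b.trans hmr) (by omega)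

/-- every `9`-colouring of `K_82` has a `10`-set that misses a colour -/
theorem good_nine : Good 9 (9 ^ 2 + 1) := by
  refine good_of_cap 9 (by omega) fun G t Z T hP hC _ h => ?_
  have h1 := h.five_le (by omega) hP hC
  have h2 := h.b
  exact h.dead_four le_rfl hP h2 (by omega)

end Pool.Agent.Lib.MP_f04ccf_co
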