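import Pool.Agent.Lib.MP_f04ccf_co.M.AC
import Pool.Agent.Lib.MP_f04ccf_co.M.AsmW
import Pool.Agent.Lib.MP_f04ccf_co.M.R9

/-!
MP_f04ccf_co: assembly (E7), last step.  `r = 7, 8, 9` are theorems (`good_seven`, `good_eight`, `good_nine`),
so only `r ≥ 10` is left.  `final_of_ten`: for every `r ≥ 10` one of three kinds of data must be
impossible: frames (`FCore`), minimal `j`-closed systems in a frame (`Core`), frames of least level with
homes (`ACore`).  `final_split`: the same with the number of rows of a `2`-closed system split into three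
and at least four.  `final_whole`: the same from the whole frame (`A = T`, `S = Z`, at least five rows).
-/

set_option autoImplicit false

namespace Pool.Agent.Lib.MP_f04ccf_co

open Finset

attribute [local instance] Classical.propDecidable

/-- **the frozen statement from `r ≥ 10`** -/
theorem final_of_ten (J p : ℕ → ℕ) (hJ : ∀ r, 10 ≤ r → 2 ≤ J r)
    (hS : ∀ (r : ℕ), 10 ≤ r →
      (∀ (G : SimpleGraph (Fin (r ^ 2 + 1))) (m t : ℕ) (Z T : Finset (Fin (r ^ 2 + 1))),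
        ¬ FCore G Z T r m t) ∨
      (∀ (G : SimpleGraph (Fin (r ^ 2 + 1))) (m t : ℕ)
        (Z T A S : Finset (Fin (r ^ 2 + 1))) (hm : Fin (r ^ 2 + 1) → Fin (r ^ 2 + 1)),
        ¬ Core G Z T r m t (J r) (p r) A S hm) ∨
      ∀ (G : SimpleGraph (Fin (r ^ 2 + 1))) (m n : ℕ)
        (Z T : Finset (Fin (r ^ 2 + 1))) (hm : Fin (r ^ 2 + 1) → Fin (r ^ 2 + 1)),
        ¬ ACore G Z T r m n (p r) hm) :
    ∀ r : ℕ, 3 ≤ r → ∀ c : Fin (r ^ 2 + 1) → Fin (r ^ 2 + 1) → Fin r,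
      (∀ x y, c x y = c y x) →
      ∃ S : Finset (Fin (r ^ 2 + 1)), S.card = r + 1 ∧
        ∃ k : Fin r, ∀ x ∈ S, ∀ y ∈ S, x ≠ y → c x y ≠ k := by
  refine final_of_frames_col ?_
  intro r hr c hc hs k m t Z T h1 h2 hF
  rcases Nat.lt_or_ge 9 r with h9 | h9
  · have hC : FCore (col c hc k) Z T r m t := ⟨by omega, GP_col hs k, hF, h1, h2⟩
    rcases hS r h9 with hS | hS | hS
    · exact hS _ m t Z T hC
    · obtain ⟨A, S, hA⟩ := hF.exists_mjsys (j := J r) (by omega) (by have := hJ r h9; omega)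
      obtain ⟨hm, hH⟩ := (hA.q.hsys hF.toPFrame (by have := hJ r h9; omega)).exists_whomes (p r) 1
      exact hS _ m t Z T A S hm ⟨hC, hJ r h9, hA,
        hA.three_le2 (by omega) hC.gp.P hF h1 (hJ r h9), hH⟩
    · obtain ⟨n, -, Z', T', hm, hA⟩ := hC.exists_acore (p r)
      exact hS _ m n Z' T' hm hA
  · rcases Nat.lt_or_ge 8 r with h8 | h8
    · obtain rfl : r = 9 := by omega
      obtain ⟨S, hSc, k, hk⟩ := good_nine c hc
      obtain ⟨x, hx, y, hy, hxy, h⟩ := hs S hSc k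
      exact hk x hx y hy hxy h
    · obtain rfl : r = 8 := by omega
      obtain ⟨S, hSc, k, hk⟩ := good_eight c hc
      obtain ⟨x, hx, y, hy, hxy, h⟩ := hs S hSc k
      exact hk x hx y hy hxy h

/-- **the `2`-chain**: weights `r ^ 3`, `1` of the homes; three rows and at least four rows -/
theorem final_split
    (h3 : ∀ (r : ℕ), 10 ≤ r → ∀ (G : SimpleGraph (Fin (r ^ 2 + 1))) (m t : ℕ)
      (Z T A S : Finset (Fin (r ^ 2 + 1))) (hm : Fin (r ^ 2 + 1) → Fin (r ^ 2 + 1)),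
      Core G Z T r m t 2 (r ^ 3) A S hm → A.card ≠ 3)
    (h4 : ∀ (r : ℕ), 10 ≤ r → ∀ (G : SimpleGraph (Fin (r ^ 2 + 1))) (m t : ℕ)
      (Z T A S : Finset (Fin (r ^ 2 + 1))) (hm : Fin (r ^ 2 + 1) → Fin (r ^ 2 + 1)),
      Core G Z T r m t 2 (r ^ 3) A S hm → ¬ 4 ≤ A.card) :
    ∀ r : ℕ, 3 ≤ r → ∀ c : Fin (r ^ 2 + 1) → Fin (r ^ 2 + 1) → Fin r,
      (∀ x y, c x y = c y x) →
      ∃ S : Finset (Fin (r ^ 2 + 1)), S.card = r + 1 ∧
        ∃ k : Fin r, ∀ x ∈ S, ∀ y ∈ S, x ≠ y → c x y ≠ k := by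
  refine final_of_ten (fun _ => 2) (fun r => r ^ 3) (fun _ _ => le_rfl) fun r hr => ?_
  refine Or.inr (Or.inl fun G m t Z T A S hm hC => ?_)
  have h1 := h3 r hr G m t Z T A S hm hC
  have h2 := h4 r hr G m t Z T A S hm hC
  have h5 := hC.three
  omega

/-- **the whole frame**: at least five rows, every closedness, every minimality -/
theorem final_whole
    (h5 : ∀ (r : ℕ), 10 ≤ r → ∀ (G : SimpleGraph (Fin (r ^ 2 + 1))) (m n : ℕ)
      (Z T : Finset (Fin (r ^ 2 + 1))) (hm : Fin (r ^ 2 + 1) → Fin (r ^ 2 + 1)),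
      ¬ ACore G Z T r m n (r ^ 3) hm) :
    ∀ r : ℕ, 3 ≤ r → ∀ c : Fin (r ^ 2 + 1) → Fin (r ^ 2 + 1) → Fin r,
      (∀ x y, c x y = c y x) →
      ∃ S : Finset (Fin (r ^ 2 + 1)), S.card = r + 1 ∧
        ∃ k : Fin r, ∀ x ∈ S, ∀ y ∈ S, x ≠ y → c x y ≠ k :=
  final_of_ten (fun _ => 2) (fun r => r ^ 3) (fun _ _ => le_rfl) fun r hr =>
    Or.inr (Or.inr (h5 r hr))

section CoreR

variable {V : Type*} {G : SimpleGraph V} {Z T : Finset V} {hm : V → V} {r m t j p : ℕ}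
  {A S : Finset V}

/-- there are at least `t + 5` doubles -/
lemma FCore.five_more (h : FCore G Z T r m t) : t + 5 ≤ (BB G Z T).card :=
  S2.five_more h.hr h.gp.P h.F h.hmr

end CoreR

end Pool.Agent.Lib.MP_f04ccf_co
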