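import Pool.Agent.Lib.MP_f04ccf_co.M.FalY
import Pool.Agent.Lib.MP_f04ccf_co.M.ItC
import Pool.Agent.Lib.MP_f04ccf_co.M.LvI

/-!
MP_f04ccf_co, PLAN W, finite part: the last step from the items of version [C] with levels.
`NoItC R H n`: there are no items `ItC` with levels `LvI` over `R` with `n` rows and `∑ h ≤ H`, sorted by
`(t, h, mu)`.  `NoItC.wcoreK`, `NoItC.wbase`: then there is no frame of least level with at most `H`
doubles.  `good_of_noitC`: the statement at `r = R + 1` (`H = R + 1`).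
-/

set_option autoImplicit false

namespace Pool.Agent.Lib.MP_f04ccf_co

open Finset

attribute [local instance] Classical.propDecidable

section FalC

/-- there are no items, version [C], over `R` with `n` rows and `∑ h ≤ H`, sorted by `(t, h, mu)` -/
def NoItC (R H : ℤ) (n : ℕ) : Prop :=
  ∀ (ι : Type) (t s h e : ℕ → ℤ) (E : ℕ → ℕ → ℤ) (U : Finset ι) (ho : ι → ℕ) (vl : ι → ℤ)
    (kp ms mr mn : ℕ → ι → ℤ) (mu Nb : ℕ → ℤ) (Nx : ℕ → ℕ → ℤ) (be : ℕ → ℕ → ℤ) (ls : ℕ → ℤ → ℤ)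
    (pc ar : ι → ℤ) (aT : ℕ → ℤ) (NN FF pw : ℕ → ℕ → ℤ) (nu : ℕ → ι → ℤ),
    ItC R n t s h e E U ho vl kp ms mr mu Nb Nx be ls pc ar aT NN FF pw nu →
    LvI R n t s h e U ho vl kp ms mr mn mu be pc ar →
    ∑ i ∈ range n, h i ≤ H →
    (∀ i j, i ≤ j → j < n → t j < t i ∨ t j = t i ∧ (h j < h i ∨ h j = h i ∧ mu j ≤ mu i)) →
    False

lemma NoItC.mono {R H H' : ℤ} {n : ℕ} (h : NoItC R H' n) (hH : H ≤ H') : NoItC R H n :=
  fun ι t s h' e E U ho vl kp ms mr mn mu Nb Nx be ls pc ar aT NN FF pw nu h1 h2 h3 h4 =>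
    h ι t s h' e E U ho vl kp ms mr mn mu Nb Nx be ls pc ar aT NN FF pw nu h1 h2 (h3.trans hH) h4

variable {V : Type} {G : SimpleGraph V} {Z T : Finset V} {hm : V → V} {r m n p : ℕ} {H : ℤ}

/-- the number of all members -/
lemma WHom.sum_h_bb (h : WHom G Z T r m n hm) {ρ : V → ℕ} {σ : ℕ → V}
    (rk : Rank T (tI G Z T hm r Z) ρ σ) :
    ∑ i ∈ range n, hI G Z T hm Z (σ i) ≤ (BB G Z T).card := by
  have h1 := h.hsys.sum_hI h.F.toPFrame h.ok
  have h2 := rk.sum (hI G Z T hm Z)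
  rw [h.cardT] at h2
  linarith

/-- **no frame of least level with homes of least weight and at most `H` doubles** -/
theorem NoItC.wcoreK (hS : NoItC ((r : ℤ) - 1) H n) (hp : 2 * r ≤ p)
    (hb : ((BB G Z T).card : ℤ) ≤ H) : ¬ WCoreK G Z T r m n p hm := by
  intro h
  obtain ⟨B, Ps, host, ρ, σ, h0, h1⟩ := h.toWHom.exists_witcM fun _ _ => 0
  exact hS _ _ _ _ _ _ _ _ _ _ _ _ _ _ _ _ _ _ _ _ _ _ _ _ _ (h0.itc hp h)
    (h.toWHom.lvi (fun x hx => (h0.pk x hx).toPk) h0.hst h0.rk)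
    ((h.toWHom.sum_h_bb h0.rk).trans hb) h1

/-- **no frame of least level with at most `H` doubles** -/
theorem NoItC.wbase (hS : NoItC ((r : ℤ) - 1) H n) (hb : ((BB G Z T).card : ℤ) ≤ H) :
    ¬ WBase G Z T r m n := by
  intro h
  obtain ⟨hm, hH⟩ := h.hsys.exists_whomes (2 * r) 1
  exact NoItC.wcoreK (hm := hm) hS le_rfl hb ⟨⟨h, hH.hh, hH.ok⟩, hH⟩

/-- no frame of least level with at most `m ≤ H` doubles -/
theorem NoItC.wbase_m (hS : NoItC ((r : ℤ) - 1) H n) (hm : (m : ℤ) ≤ H) :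
    ¬ WBase G Z T r m n := by
  intro h
  refine NoItC.wbase hS ?_ h
  have h1 := h.F.toPFrame.b
  have h2 : ((BB G Z T).card : ℤ) ≤ m := by exact_mod_cast h1
  linarith

/-- **the statement at `r` from the absence of items over `r - 1`** -/
theorem good_of_noitC (r : ℕ) (hr : 9 ≤ r)
    (hS : ∀ n : ℕ, 5 ≤ n → n + 5 ≤ r → NoItC ((r : ℤ) - 1) r n) : Good r (r ^ 2 + 1) := by
  refine good_of_wbase r hr fun G m n Z T h => ?_
  exact NoItC.wbase (hS n h.five h.nr) (by exact_mod_cast h.bb.2) h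

end FalC

end Pool.Agent.Lib.MP_f04ccf_co
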