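import Pool.Agent.Lib.MP_f04ccf_co.M.FalV
import Pool.Agent.Lib.MP_f04ccf_co.M.R9

/-!
MP_f04ccf_co: the last step from single values of `r`.  `final_of_good`: the frozen statement from
`Good r (r ^ 2 + 1)` for all `r ≥ 10` (each `r` may come from any version of the data: `NoItC`, `NoItV`,
tables).  `final_of_parts`: four ranges of `R = r - 1`, the first one as `Good`, the others as `NoItV`.
-/

set_option autoImplicit false

namespace Pool.Agent.Lib.MP_f04ccf_co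

open Finset

/-- **the frozen statement from the single values `r ≥ 10`** -/
theorem final_of_good (hG : ∀ r : ℕ, 10 ≤ r → Good r (r ^ 2 + 1)) :
    ∀ r : ℕ, 3 ≤ r → ∀ c : Fin (r ^ 2 + 1) → Fin (r ^ 2 + 1) → Fin r,
      (∀ x y, c x y = c y x) →
      ∃ S : Finset (Fin (r ^ 2 + 1)), S.card = r + 1 ∧
        ∃ k : Fin r, ∀ x ∈ S, ∀ y ∈ S, x ≠ y → c x y ≠ k := by
  refine final_of_frames_col ?_
  intro r hr c hc hs j m t Z T _ _ _
  have h1 : Good r (r ^ 2 + 1) := by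
    rcases Nat.lt_or_ge 9 r with h9 | h9
    · exact hG r h9
    · rcases Nat.lt_or_ge 8 r with h8 | h8
      · obtain rfl : r = 9 := by omega
        exact good_nine
      · obtain rfl : r = 8 := by omega
        exact good_eight
  obtain ⟨S, hSc, k, hk⟩ := h1 c hc
  obtain ⟨x, hx, y, hy, hxy, h⟩ := hs S hSc k
  exact hk x hx y hy hxy h

/-- **four ranges**: `10 ≤ r ≤ 14` one by one, `14 ≤ R < M` (blocks), `M ≤ R < N` (tables), `N ≤ R`
(closed form) -/
theorem final_of_parts (M N : ℤ)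
    (h1 : ∀ r : ℕ, 10 ≤ r → r ≤ 14 → Good r (r ^ 2 + 1))
    (h2 : ∀ R : ℤ, 14 ≤ R → R < M → NoItV R) (h3 : ∀ R : ℤ, M ≤ R → R < N → NoItV R)
    (h4 : ∀ R : ℤ, N ≤ R → NoItV R) :
    ∀ r : ℕ, 3 ≤ r → ∀ c : Fin (r ^ 2 + 1) → Fin (r ^ 2 + 1) → Fin r,
      (∀ x y, c x y = c y x) →
      ∃ S : Finset (Fin (r ^ 2 + 1)), S.card = r + 1 ∧
        ∃ k : Fin r, ∀ x ∈ S, ∀ y ∈ S, x ≠ y → c x y ≠ k := by
  refine final_of_good fun r hr => ?_
  rcases Nat.lt_or_ge 14 r with h | h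
  · have h5 : (14 : ℤ) ≤ (r : ℤ) - 1 := by
      have : (15 : ℤ) ≤ r := by exact_mod_cast h
      linarith
    refine good_of_noitV r (by omega) ?_
    rcases lt_or_ge ((r : ℤ) - 1) M with h6 | h6
    · exact h2 _ h5 h6
    · rcases lt_or_ge ((r : ℤ) - 1) N with h7 | h7
      · exact h3 _ h6 h7
      · exact h4 _ h7
  · exact h1 r hr h

/-- all `r` above a bound, or in an interval -/
theorem good_of_range (a b : ℤ) (ha : 9 ≤ a) (hS : ∀ R : ℤ, a ≤ R → R < b → NoItV R) (r : ℕ)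
    (h1 : a + 1 ≤ r) (h2 : (r : ℤ) ≤ b) : Good r (r ^ 2 + 1) :=
  good_of_noitV r (by
    have : (9 : ℤ) ≤ r := by linarith
    exact_mod_cast this) (hS _ (by linarith) (by linarith))

end Pool.Agent.Lib.MP_f04ccf_co
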