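import Pool.Agent.Lib.MP_f04ccf_co.M.ItU
import Pool.Agent.Lib.MP_f04ccf_co.M.FalG
import Pool.Agent.Lib.MP_f04ccf_co.M.FalC

/-!
MP_f04ccf_co, PLAN W: the last step from all facts, versions [B] and [C] together.
`NoItU R`: there are no data with `ItU` (version [B]) and `ItCU` (version [C]) over the same rows (the same
`n t s h e E`, the same `mu i`), sorted by `(t, h, mu)`.
`NoItB R`, `NoItCU R`: the same with one version only (they imply `NoItU`).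
`good_of_noitU`, `large_of_noitU`, `final_of_noitU3`, `final_of_partsU`.
-/

set_option autoImplicit false

namespace Pool.Agent.Lib.MP_f04ccf_co

open Finset

attribute [local instance] Classical.propDecidable

section FalU

/-- **there are no data over `R`**, both versions of the items available -/
def NoItU (R : ℤ) : Prop :=
  ∀ (ι : Type) (n : ℕ) (t s h e : ℕ → ℤ) (E : ℕ → ℕ → ℤ) (U : Finset ι) (ho : ι → ℕ) (vl : ι → ℤ)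
    (kp ms mr mn : ℕ → ι → ℤ) (mu Nb : ℕ → ℤ) (Nx be : ℕ → ℕ → ℤ) (ls : ℕ → ℤ → ℤ)
    (pc ar : ι → ℤ) (aT fr : ℕ → ℤ) (gn ka fj pw : ℕ → ℕ → ℤ) (nf nu : ℕ → ι → ℤ) (us : ℕ → ℤ)
    (nq : ℕ → ℕ → ℕ → ℤ) (nc : ℕ → ℕ → ℤ)
    (U' : Finset ι) (ho' : ι → ℕ) (vl' : ι → ℤ) (kp' ms' mr' mn' : ℕ → ι → ℤ) (mu' Nb' : ℕ → ℤ)
    (be' : ℕ → ℕ → ℤ) (ls' : ℕ → ℤ → ℤ) (pc' ar' : ι → ℤ) (aT' : ℕ → ℤ) (NN FF pw' : ℕ → ℕ → ℤ)
    (nu' : ℕ → ι → ℤ),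
    ItU R n t s h e E U ho vl kp ms mr mn mu Nb Nx be ls pc ar aT fr gn ka fj pw nf nu us nq nc →
    ItCU R n t s h e E U' ho' vl' kp' ms' mr' mn' mu' Nb' be' ls' pc' ar' aT' NN FF pw' nu' →
    (∀ i < n, mu' i = mu i) →
    (∀ i j, i ≤ j → j < n → t j < t i ∨ t j = t i ∧ (h j < h i ∨ h j = h i ∧ mu j ≤ mu i)) →
    False

/-- there are no data, version [B] -/
def NoItB (R : ℤ) : Prop :=
  ∀ (ι : Type) (n : ℕ) (t s h e : ℕ → ℤ) (E : ℕ → ℕ → ℤ) (U : Finset ι) (ho : ι → ℕ) (vl : ι → ℤ)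
    (kp ms mr mn : ℕ → ι → ℤ) (mu Nb : ℕ → ℤ) (Nx be : ℕ → ℕ → ℤ) (ls : ℕ → ℤ → ℤ)
    (pc ar : ι → ℤ) (aT fr : ℕ → ℤ) (gn ka fj pw : ℕ → ℕ → ℤ) (nf nu : ℕ → ι → ℤ) (us : ℕ → ℤ)
    (nq : ℕ → ℕ → ℕ → ℤ) (nc : ℕ → ℕ → ℤ),
    ItU R n t s h e E U ho vl kp ms mr mn mu Nb Nx be ls pc ar aT fr gn ka fj pw nf nu us nq nc →
    (∀ i j, i ≤ j → j < n → t j < t i ∨ t j = t i ∧ (h j < h i ∨ h j = h i ∧ mu j ≤ mu i)) →
    False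

/-- there are no data, version [C] -/
def NoItCU (R : ℤ) : Prop :=
  ∀ (ι : Type) (n : ℕ) (t s h e : ℕ → ℤ) (E : ℕ → ℕ → ℤ) (U : Finset ι) (ho : ι → ℕ) (vl : ι → ℤ)
    (kp ms mr mn : ℕ → ι → ℤ) (mu Nb : ℕ → ℤ) (be : ℕ → ℕ → ℤ) (ls : ℕ → ℤ → ℤ)
    (pc ar : ι → ℤ) (aT : ℕ → ℤ) (NN FF pw : ℕ → ℕ → ℤ) (nu : ℕ → ι → ℤ),
    ItCU R n t s h e E U ho vl kp ms mr mn mu Nb be ls pc ar aT NN FF pw nu →
    (∀ i j, i ≤ j → j < n → t j < t i ∨ t j = t i ∧ (h j < h i ∨ h j = h i ∧ mu j ≤ mu i)) →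
    False

lemma NoItB.u {R : ℤ} (H : NoItB R) : NoItU R :=
  fun ι n t s h e E U ho vl kp ms mr mn mu Nb Nx be ls pc ar aT fr gn ka fj pw nf nu us nq nc
    _ _ _ _ _ _ _ _ _ _ _ _ _ _ _ _ _ _ h1 _ _ h2 =>
    H ι n t s h e E U ho vl kp ms mr mn mu Nb Nx be ls pc ar aT fr gn ka fj pw nf nu us nq nc h1 h2

lemma NoItV.u {R : ℤ} (H : NoItV R) : NoItU R :=
  NoItB.u fun ι n t s h e E U ho vl kp ms mr _ mu Nb Nx be ls pc ar aT fr gn ka fj pw _ nu us nq _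
    h1 h2 => H ι n t s h e E U ho vl kp ms mr mu Nb Nx be ls pc ar aT fr gn ka fj pw nu us nq h1.v h2

lemma NoItCU.u {R : ℤ} (H : NoItCU R) : NoItU R :=
  fun ι n t s h e E _ _ _ _ _ _ _ mu _ _ _ _ _ _ _ _ _ _ _ _ _ _ _ _ _
    U ho vl kp ms mr mn mu' Nb be ls pc ar aT NN FF pw nu _ h1 h2 h3 =>
    H ι n t s h e E U ho vl kp ms mr mn mu' Nb be ls pc ar aT NN FF pw nu h1
      (fun i j hij hj => by
        rw [h2 i (lt_of_le_of_lt hij hj), h2 j hj]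
        exact h3 i j hij hj)

/-- no data `WCoreK` from the absence of items -/
lemma NoItU.wcoreK {r m n : ℕ} {G : SimpleGraph (Fin (r ^ 2 + 1))}
    {Z T : Finset (Fin (r ^ 2 + 1))} {hm : Fin (r ^ 2 + 1) → Fin (r ^ 2 + 1)}
    (hS : NoItU ((r : ℤ) - 1)) : ¬ WCoreK G Z T r m n (2 * r) hm := by
  intro h
  obtain ⟨B, Ps, host, ρ, σ, B', Ps', host', H, H', h1, h2⟩ :=
    h.exists_both le_rfl (fun _ _ => 0) fun _ _ => 0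
  exact hS _ _ _ _ _ _ _ _ _ _ _ _ _ _ _ _ _ _ _ _ _ _ _ _ _ _ _ _ _ _ _ _ _ _ _ _ _ _ _ _ _
    _ _ _ _ _ _ _ _ _ (H.itu le_rfl h) (H'.itcu le_rfl h) h1 h2

/-- **the statement at `r` from the absence of items over `r - 1`** -/
theorem good_of_noitU (r : ℕ) (hr : 9 ≤ r) (hS : NoItU ((r : ℤ) - 1)) : Good r (r ^ 2 + 1) :=
  good_of_wcoreK r (2 * r) hr fun _ _ _ _ _ _ => hS.wcoreK

/-- **all `r` above a bound** -/
theorem large_of_noitU (N : ℕ) (hN : 9 ≤ N) (hS : ∀ R : ℤ, (N : ℤ) ≤ R + 1 → NoItU R) (r : ℕ)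
    (hr : N ≤ r) : Good r (r ^ 2 + 1) :=
  good_of_noitU r (hN.trans hr) (hS _ (by
    have : (N : ℤ) ≤ r := by exact_mod_cast hr
    linarith))

/-- **three parts**: `10 ≤ r < M` one by one, `M ≤ R + 1 < N`, `N ≤ R + 1` -/
theorem final_of_partsU (M N : ℕ) (hM : 10 ≤ M)
    (h1 : ∀ r : ℕ, 10 ≤ r → r < M → Good r (r ^ 2 + 1))
    (h2 : ∀ R : ℤ, (M : ℤ) ≤ R + 1 → R + 1 < (N : ℤ) → NoItU R)
    (h3 : ∀ R : ℤ, (N : ℤ) ≤ R + 1 → NoItU R) :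
    ∀ r : ℕ, 3 ≤ r → ∀ c : Fin (r ^ 2 + 1) → Fin (r ^ 2 + 1) → Fin r,
      (∀ x y, c x y = c y x) →
      ∃ S : Finset (Fin (r ^ 2 + 1)), S.card = r + 1 ∧
        ∃ k : Fin r, ∀ x ∈ S, ∀ y ∈ S, x ≠ y → c x y ≠ k := by
  refine final_of_good fun r hr => ?_
  rcases Nat.lt_or_ge r M with h4 | h4
  · exact h1 r hr h4
  · refine good_of_noitU r (by omega) ?_
    have h5 : (M : ℤ) ≤ (r : ℤ) - 1 + 1 := by
      have : (M : ℤ) ≤ r := by exact_mod_cast h4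
      linarith
    rcases lt_or_ge ((r : ℤ) - 1 + 1) (N : ℤ) with h6 | h6
    · exact h2 _ h5 h6
    · exact h3 _ h6

end FalU

end Pool.Agent.Lib.MP_f04ccf_co
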