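import Pool.Agent.Lib.MP_f04ccf_co.M.NuV

/-!
MP_f04ccf_co, PLAN W, version [B]: the items with the free arcs item by item.
`ItV` extends `ItZ`: `nu j u` the free arcs of the members of the item `u` with tail `j`, `fj i j` the free
arcs of the PC pairs of `i` with tail `j`, `pw i j` the part of them above the adjacent pairs (paid in the
cell), `us i` the number of the partners of PC pairs of `i`, `nq i j q` the number of N-types of `i` with
tail `j` and at least `q` missed points at home.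
Fields: bounds of `nu` (`nxu`, `nus`, `nuq`, `nu2`, `nuk`), upper bounds of the arcs (`arU`, `aTb`,
`lsf`, `excf`), numbers of items (`prt`, `sumk`, `msc`), the joint cell tests (`jntp`, `jnt2`, `jntk`), the
cell test with the rectangle of an N-type (`cellf`), T+ with the own cell paid (`rowp`), with the
rectangle of an item (`rowr`) or of an N-type of the other row (`rowf`), all with the same-host saving,
`rows` the row test with the same-host saving, `rectf` the rectangle of an N-type in `E`, `lowD` the test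
with the degree sum with the arcs inside paid.
`WItK.itv`: the transport.
-/

set_option autoImplicit false

namespace Pool.Agent.Lib.MP_f04ccf_co

open Finset

attribute [local instance] Classical.propDecidable

section StrV

variable {ι : Type*}

/-- **the items with the free arcs item by item** -/
structure ItV (R : ℤ) (n : ℕ) (t s h e : ℕ → ℤ) (E : ℕ → ℕ → ℤ) (U : Finset ι)
    (ho : ι → ℕ) (vl : ι → ℤ) (kp ms mr : ℕ → ι → ℤ) (mu Nb : ℕ → ℤ) (Nx : ℕ → ℕ → ℤ)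
    (be : ℕ → ℕ → ℤ) (ls : ℕ → ℤ → ℤ) (pc ar : ι → ℤ) (aT : ℕ → ℤ) (fr : ℕ → ℤ)
    (gn ka : ℕ → ℕ → ℤ) (fj pw : ℕ → ℕ → ℤ) (nu : ℕ → ι → ℤ) (us : ℕ → ℤ)
    (nq : ℕ → ℕ → ℕ → ℤ) : Prop
    extends ItZ R n t s h e E U ho vl kp ms mr mu Nb Nx be ls pc ar aT fr gn ka where
  frs : ∀ i < n, fr i = ∑ j ∈ (range n).erase i, fj i j
  fj0 : ∀ i < n, ∀ j < n, 0 ≤ fj i j
  fjk : ∀ i < n, ∀ j < n, fj i j ≤ be i j * ka i j
  pw0 : ∀ i < n, ∀ j < n, 0 ≤ pw i j
  fpw : ∀ i < n, ∀ j < n, fj i j ≤ pw i j + be i j * (be i j - 1)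
  nu0 : ∀ u ∈ U, ∀ j < n, 0 ≤ nu j u
  nuz : ∀ u ∈ U, ∀ j < n, kp j u = 0 → nu j u = 0
  nuf : ∀ i < n, ∀ j < n, fj i j = ∑ u ∈ U.filter (fun u => ho u = i), pc u * nu j u
  nxu : ∀ i < n, ∀ j < n,
    Nx i j ≤ ∑ u ∈ U.filter (fun u => ho u = i), (1 - pc u) * nu j u
  nuk : ∀ u ∈ U, vl u = 1 → ∀ j < n, nu j u ≤ ka (ho u) j
  nus : ∀ u ∈ U, vl u = 1 → ∀ j < n, kp j u ≠ 0 →
    (nu j u + pc u - 1) * ms j u ≤ t (ho u) * t j + (nu j u + pc u)
  nuq : ∀ u ∈ U, vl u = 1 → ∀ j < n, kp j u ≠ 0 →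
    (nu j u + pc u) * (nu j u + pc u - 2) ≤ t (ho u) * t j
  nu2 : ∀ u ∈ U, vl u = 1 → ∀ j < n, ∀ l < n, j ≠ l → nu j u = 0 ∨ nu l u = 0
  arU : ∀ u ∈ U, ar u ≤ pc u + ∑ j ∈ (range n).erase (ho u), (nu j u
    + if kp j u = 0 then 0 else be (ho u) j - pc u)
  aTb : ∀ i < n, aT i ≤ (∑ j ∈ (range n).erase i, be i j) * (h i - mu i)
    + ∑ j ∈ (range n).erase i, be i j ^ 2
    + ∑ u ∈ U.filter (fun u => ho u = i), ∑ j ∈ (range n).erase i, nu j u
  lsf : ∀ i < n, ∀ q, 0 ≤ q → ls i q ≤ q * (∑ j ∈ (range n).erase i, be i j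
    + ∑ u ∈ U.filter (fun u => ho u = i), ∑ j ∈ (range n).erase i, nu j u)
  excf : ∀ i < n, Nb i + 2 * ∑ j ∈ (range n).erase i, Nx i j
    ≤ ∑ j ∈ (range n).erase i, be i j * (be i j + 1)
      + 2 * ∑ u ∈ U.filter (fun u => ho u = i), ∑ j ∈ (range n).erase i, nu j u
  prt : ∀ i < n, ∑ u ∈ U.filter (fun u => ho u = i), (1 - pc u) ≤ h i - mu i
  sumk : ∀ u ∈ U, ∑ i ∈ range n, kp i u ≤ vl u + 1 - pc u
  msc : ∀ u ∈ U, ∀ i < n, ms i u ≤ R - t i
  nq0 : ∀ i < n, ∀ j < n, ∀ q, 0 ≤ nq i j q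
  nqa : ∀ i < n, ∀ j < n, ∀ q, nq i j (q + 1) ≤ nq i j q
  nq1 : ∀ i < n, ∀ j < n, nq i j 1 = gn i j
  nqf : ∀ i < n, ∀ j < n, ∀ M, nq i j (M + 1) = 0 →
    ∑ u ∈ U.filter (fun u => ho u = i), nu j u + be i j ≤ ∑ q ∈ range M, nq i j (q + 1)
  jntk : ∀ i < n, ∀ j < n, i ≠ j → ∀ q k : ℕ, 1 ≤ q → q ≤ k →
    (q : ℤ) ≤ nq i j k + nq j i k →
    4 * ((q : ℤ) - 1) * R + 4 * (k * ((k : ℤ) - 2 * q)) ≤ 4 * (t i * t j) + (q : ℤ) ^ 2
  jnt2 : ∀ i < n, ∀ j < n, i ≠ j → ∀ K ⊆ U, (∀ u ∈ K, ho u = i ∧ kp j u ≠ 0 ∧ vl u = 1) →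
    ∀ K' ⊆ U, (∀ u ∈ K', ho u = j ∧ kp i u ≠ 0 ∧ vl u = 1) → ∀ q : ℕ,
    (∀ u ∈ K, (q : ℤ) ≤ nu j u + pc u) → (∀ u ∈ K', (q : ℤ) ≤ nu i u + pc u) →
    K.card + K'.card ≤ q → 1 ≤ K.card + K'.card →
    4 * (((K.card : ℤ) + K'.card - 1) * R) + 4 * ((q : ℤ) * (q - 2 * ((K.card : ℤ) + K'.card)))
      ≤ 4 * (t i * t j) + ((K.card : ℤ) + K'.card) ^ 2
  jntp : ∀ u ∈ U, pc u = 1 → ∀ j < n, kp j u ≠ 0 →
    (be (ho u) j - 1) * R + (max 0 (nu j u + 1 - be (ho u) j)) ^ 2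
      ≤ t (ho u) * t j + be (ho u) j ^ 2
  rectf : ∀ i < n, ∀ j < n, i ≠ j → ∀ w ∈ U, ho w = i → vl w = 1 → kp j w ≠ 0 →
    ∑ u ∈ U.filter (fun u => ho u = i), (kp j u * (R - t j) - ms j u)
      + ∑ u ∈ U.filter (fun u => ho u = j), (kp i u * (R - t i) - ms i u)
      + nu j w * max 0 (nu j w + pc w - be j i) ≤ E i j
  cellf : ∀ i < n, ∀ j < n, i ≠ j → ∀ K ⊆ U, (∀ u ∈ K, ho u = i ∧ kp j u ≠ 0) →
    ∀ K' ⊆ U, (∀ u ∈ K', ho u = j ∧ kp i u ≠ 0) →
    ∀ w ∈ U, ho w = i → vl w = 1 → kp j w ≠ 0 → ∀ I ⊆ range n, i ∈ I → j ∈ I →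
    (∀ u ∈ K, ∀ l < n, kp l u ≠ 0 → l ∈ I) → (∀ u ∈ K', ∀ l < n, kp l u ≠ 0 → l ∈ I) → ∀ q : ℤ,
    2 * ∑ u ∈ K, (R * kp j u + (1 - pc u) * t j - mr j u - ar u)
      + 2 * ∑ u ∈ K', (R * kp i u + (1 - pc u) * t i - mr i u - ar u)
      + 2 * (nu j w * max 0 (nu j w + pc w - ∑ u ∈ K', pc u))
      ≤ 2 * (R + t i * t j)
        + (∑ u ∈ K, (kp j u + 1 - pc u) + ∑ u ∈ K', (kp i u + 1 - pc u))
          * (∑ u ∈ K, (kp j u + 1 - pc u) + ∑ u ∈ K', (kp i u + 1 - pc u) - 1)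
        - 2 * q * (∑ u ∈ K, (kp j u + 1 - pc u) + ∑ u ∈ K', (kp i u + 1 - pc u))
        + I.card * (q * (q + 1)) + 2 * (∑ u ∈ K, pc u) * ∑ u ∈ K', pc u
  rows : ∀ i < n, ∀ K ⊆ U, (∀ u ∈ K, ho u ≠ i) → 0 ≤ s i + 1 + ∑ u ∈ K, kp i u →
    2 * (R * s i) + 2 * ∑ u ∈ K, (kp i u * (R - t i) - mr i u)
      + ∑ x ∈ range n, ((K.filter fun u => ho u = x ∧ kp i u = vl u).card : ℤ)
        * (((K.filter fun u => ho u = x ∧ kp i u = vl u).card : ℤ) - 1)
      ≤ 2 * e i + 4 * (∑ u ∈ K, kp i u) * (s i + 1)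
        + 2 * (∑ u ∈ K, kp i u) * (2 * ∑ u ∈ K, kp i u - 1)
  rowp : ∀ i < n, ∀ j < n, i ≠ j → ∀ K ⊆ U, (∀ u ∈ K, ho u ≠ i) →
    0 ≤ s i + ∑ u ∈ K, kp i u →
    2 * R * s i + 2 * ∑ u ∈ K, (kp i u * (R - t i) - mr i u)
      + 2 * ∑ u ∈ U.filter (fun u => ho u = i), (kp j u * (R - t j) - ms j u)
      + 2 * (Nx i j + pw i j)
      + ∑ x ∈ range n,
        ((K.filter fun u => ho u = x ∧ kp i u = vl u ∧ (x = j → pc u = 0)).card : ℤ)
        * (((K.filter fun u => ho u = x ∧ kp i u = vl u ∧ (x = j → pc u = 0)).card : ℤ) - 1)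
      ≤ 2 * e i
        + 2 * (∑ u ∈ K, (2 * kp i u - if ho u = j then pc u * kp i u else 0) + (R - t j))
          * (s i + 1)
        + (∑ u ∈ K, (2 * kp i u - if ho u = j then pc u * kp i u else 0))
          * (∑ u ∈ K, (2 * kp i u - if ho u = j then pc u * kp i u else 0) - 1)
        + 2 * ∑ u ∈ K, (if ho u = j then ar u else 2 * (R - t j) * kp i u)
        + 2 * (∑ u ∈ K, (if ho u = j then pc u * kp i u else 0)) * be i j
  rowr : ∀ i < n, ∀ j < n, i ≠ j → ∀ K ⊆ U, (∀ u ∈ K, ho u ≠ i) →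
    0 ≤ s i + ∑ u ∈ K, kp i u → ∀ w ∈ U,
    2 * R * s i + 2 * ∑ u ∈ K, (kp i u * (R - t i) - mr i u)
      + 2 * ∑ u ∈ U.filter (fun u => ho u = i), (kp j u * (R - t j) - ms j u)
      + 2 * (max 0 (ms i w - be i j)
        * max 0 (ms j w - ∑ u ∈ K, (if ho u = j then pc u * kp i u else 0)))
      + ∑ x ∈ range n,
        ((K.filter fun u => ho u = x ∧ kp i u = vl u ∧ (x = j → pc u = 0)).card : ℤ)
        * (((K.filter fun u => ho u = x ∧ kp i u = vl u ∧ (x = j → pc u = 0)).card : ℤ) - 1)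
      ≤ 2 * e i
        + 2 * (∑ u ∈ K, (2 * kp i u - if ho u = j then pc u * kp i u else 0) + (R - t j))
          * (s i + 1)
        + (∑ u ∈ K, (2 * kp i u - if ho u = j then pc u * kp i u else 0))
          * (∑ u ∈ K, (2 * kp i u - if ho u = j then pc u * kp i u else 0) - 1)
        + 2 * ∑ u ∈ K, (if ho u = j then ar u else 2 * (R - t j) * kp i u)
        + 2 * (∑ u ∈ K, (if ho u = j then pc u * kp i u else 0)) * be i j
  rowf : ∀ i < n, ∀ j < n, i ≠ j → ∀ K ⊆ U, (∀ u ∈ K, ho u ≠ i) →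
    0 ≤ s i + ∑ u ∈ K, kp i u → ∀ w ∈ U, ho w = j → vl w = 1 → kp i w ≠ 0 →
    2 * R * s i + 2 * ∑ u ∈ K, (kp i u * (R - t i) - mr i u)
      + 2 * ∑ u ∈ U.filter (fun u => ho u = i), (kp j u * (R - t j) - ms j u)
      + 2 * (max 0 (nu i w + pc w - be i j) * nu i w)
      + ∑ x ∈ range n,
        ((K.filter fun u => ho u = x ∧ kp i u = vl u ∧ (x = j → pc u = 0)).card : ℤ)
        * (((K.filter fun u => ho u = x ∧ kp i u = vl u ∧ (x = j → pc u = 0)).card : ℤ) - 1)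
      ≤ 2 * e i
        + 2 * (∑ u ∈ K, (2 * kp i u - if ho u = j then pc u * kp i u else 0) + (R - t j))
          * (s i + 1)
        + (∑ u ∈ K, (2 * kp i u - if ho u = j then pc u * kp i u else 0))
          * (∑ u ∈ K, (2 * kp i u - if ho u = j then pc u * kp i u else 0) - 1)
        + 2 * ∑ u ∈ K, (if ho u = j then ar u else 2 * (R - t j) * kp i u)
        + 2 * (∑ u ∈ K, (if ho u = j then pc u * kp i u else 0)) * be i j
  us0 : ∀ i < n, 0 ≤ us i
  usb : ∀ i < n, us i ≤ ∑ j ∈ (range n).erase i, be i j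
  lowD : ∀ B ⊆ range n, 1 ≤ B.card → ∀ D ⊆ B,
    ((B.card : ℤ) - 1) * (2 * (R + 1 - B.card) * ∑ i ∈ B, s i + ∑ i ∈ B, ∑ j ∈ B.erase i, E i j
        + ∑ i ∈ B, s i ^ 2)
      + 2 * ∑ i ∈ D, ((R - t i - us i)
          * (∑ j ∈ B.erase i, ∑ u ∈ U.filter (fun u => ho u = j), kp i u
            - ((B.card : ℤ) - 1 + ∑ j ∈ B.erase i, s j))
        - ∑ j ∈ B.erase i, ∑ u ∈ U.filter (fun u => ho u = j), ms i u
        - ∑ j ∈ range n \ B, ∑ u ∈ U.filter (fun u => ho u = i), nu j u)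
      ≤ ((B.card : ℤ) - 1) * (2 * ∑ i ∈ B, e i + B.card * (B.card - 1) * (R + 1)
        + (∑ i ∈ B, s i) ^ 2)
        + ∑ i ∈ D, ∑ j ∈ B.erase i, (gn i j * (gn i j - 1) + 2 * gn i j * be j i)

end StrV

section TransV

variable {V : Type*} {G : SimpleGraph V} {Z T : Finset V} {hm : V → V} {r m n p : ℕ}
  {φ : Finset (V × V) → Finset (Finset V) → ℕ} {B : V → Finset (V × V)}
  {Ps : V → Finset (Finset V)} {host : Itm V → V} {ρ : V → ℕ} {σ : ℕ → V}

/-- **the transport to `ItV`, version [B]** -/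
theorem WItK.itv (hp : 2 * r ≤ p) (h : WCoreK G Z T r m n p hm)
    (H : WItK G Z T hm r n φ B Ps host ρ σ) :
    ItV ((r : ℤ) - 1) n (fun i => tI G Z T hm r Z (σ i)) (fun i => sI hm r Z (σ i))
      (fun i => hI G Z T hm Z (σ i)) (fun i => eI G hm Z (σ i))
      (fun i j => EI G hm Z (σ i) (σ j)) (T.biUnion fun x => pkf (B x) (Ps x))
      (fun u => ρ (host u)) (fun u => (ivl u : ℤ)) (fun i u => (ikp (tlo G T hm) (σ i) u : ℤ))
      (fun i u => (ims G (cz G Z T hm) (tlo G T hm) (σ i) u : ℤ))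
      (fun i u => (rmr G (cz G Z T hm) (tlo G T hm) (σ i) u : ℤ))
      (fun i => ∑ u ∈ pkf (B (σ i)) (Ps (σ i)), (ivl u : ℤ))
      (fun i => nbk G (cz G Z T hm (σ i)) (hz G Z T hm (σ i)) (tlo G T hm) (B (σ i)) (Ps (σ i)))
      (fun i j => nxk G (cz G Z T hm (σ i)) (hz G Z T hm (σ i)) (tlo G T hm) (B (σ i)) (σ j))
      (fun i j => pcn (tlo G T hm) B (σ i) (σ j))
      (fun i q => lsx G (cz G Z T hm (σ i)) (hz G Z T hm (σ i)) q)
      (fun u => (ipc u : ℤ)) (fun u => (iar G (cz G Z T hm (host u)) u : ℤ))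
      (fun i => ∑ v ∈ hz G Z T hm (σ i), (nd G (cz G Z T hm (σ i)) v : ℤ))
      (fun i => ∑ e ∈ B (σ i), ((frC G (cz G Z T hm (σ i)) (tlo G T hm) (B (σ i)) e.1).card : ℤ))
      (fun i j => ((ntl G (cz G Z T hm (σ i)) (hz G Z T hm (σ i)) (tlo G T hm) (B (σ i))
        (σ j)).card : ℤ))
      (fun i j => (kpl G (cz G Z T hm (σ i)) (hz G Z T hm (σ i)) (tlo G T hm) (B (σ i))
        (σ j) : ℤ))
      (fun i j => fjk G Z T hm B (σ i) (σ j))
      (fun i j => pfw G (cz G Z T hm (σ i)) (tlo G T hm) (B (σ i)) (σ j))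
      (fun j u => (nui G (cz G Z T hm (host u)) (tlo G T hm) (B (host u)) (σ j) u : ℤ))
      (fun i => ((usd B (σ i)).card : ℤ))
      (fun i j q => khI G Z T hm B σ i j q) := by
  have hcard := h.cardT
  have hmem : ∀ i < n, σ i ∈ T := fun i hi => H.rk.mem i (by rw [hcard]; exact hi)
  have hne : ∀ i < n, ∀ j < n, i ≠ j → σ i ≠ σ j := fun i hi j hj hij h1 =>
    hij (H.rk.sinj (by rw [hcard]; exact hi) (by rw [hcard]; exact hj) h1)
  have her : ∀ i < n, ∀ g : V → ℤ, ∑ z ∈ T.erase (σ i), g z = ∑ j ∈ (range n).erase i, g (σ j) := by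
    intro i hi g
    have := H.rk.sum_er (i := i) (by rw [hcard]; exact hi) g
    rw [hcard] at this
    exact this
  have hpk := fun x hx => (H.pk x hx).toPk
  have hmin := fun x hx => (H.pk x hx).min
  have h32 := fun x (hx : x ∈ T) => h.csys.h32 h.F.toPFrame h.hh h.toWHom.ht hx
  have hfam : ∀ x ∈ T, Fam (co G) (cz G Z T hm) (hz G Z T hm) (tlo G T hm) x
      (pkf (B x) (Ps x)) := fun x hx => (hpk x hx).fam (h.csys.dCH hx hx).symm
  have hfil : ∀ i < n, (T.biUnion fun x => pkf (B x) (Ps x)).filter (fun u => ρ (host u) = i)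
      = pkf (B (σ i)) (Ps (σ i)) := fun i hi => fil_host H.hst H.rk (by rw [hcard]; exact hi)
  have hmemU : ∀ u ∈ T.biUnion fun x => pkf (B x) (Ps x), ∀ j < n,
      (ρ (host u) = j ↔ u ∈ pkf (B (σ j)) (Ps (σ j))) := by
    intro u hu j hj
    rw [← hfil j hj, mem_filter]
    exact ⟨fun h1 => ⟨hu, h1⟩, fun h1 => h1.2⟩
  -- the host of an item
  have hho : ∀ u ∈ T.biUnion fun x => pkf (B x) (Ps x), host u ∈ T ∧
      u ∈ pkf (B (host u)) (Ps (host u)) ∧ ρ (host u) < n ∧ σ (ρ (host u)) = host u := by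
    intro u hu
    obtain ⟨x, hx, hux⟩ := mem_biUnion.1 hu
    have h1 := H.hst x hx u hux
    refine ⟨h1 ▸ hx, h1 ▸ hux, ?_, ?_⟩
    · rw [← hcard]
      exact H.rk.lt _ (h1 ▸ hx)
    · exact H.rk.left _ (h1 ▸ hx)
  have htwo : ∀ u ∈ T.biUnion fun x => pkf (B x) (Ps x), ∀ Q, u = Sum.inl Q → 2 ≤ Q.card := by
    intro u hu Q hQ
    exact (inl_mem_pkf.1 (hQ ▸ (hho u hu).2.1)).2
  -- sums over the items of a host
  have hsum : ∀ i < n, ∀ f : Itm V → V → ℤ,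
      ∑ u ∈ (T.biUnion fun x => pkf (B x) (Ps x)).filter (fun u => ρ (host u) = i), f u (host u)
        = ∑ u ∈ pkf (B (σ i)) (Ps (σ i)), f u (σ i) := by
    intro i hi f
    rw [hfil i hi]
    exact sum_congr rfl fun u hu => by rw [H.hst _ (hmem i hi) u hu]
  have hmulS : ∀ i < n, (∑ u ∈ pkf (B (σ i)) (Ps (σ i)), (ivl u : ℤ)) + (Ps (σ i)).card
      = hI G Z T hm Z (σ i) := by
    intro i hi
    have h1 := (hpk _ (hmem i hi)).sum_ivl
    have h2 : (∑ u ∈ pkf (B (σ i)) (Ps (σ i)), (ivl u : ℤ)) + (Ps (σ i)).card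
        = ((hz G Z T hm (σ i)).card : ℤ) := by exact_mod_cast h1
    exact h2
  have hBc : ∀ i < n, ((B (σ i)).card : ℤ) = ∑ j ∈ (range n).erase i, pcn (tlo G T hm) B (σ i) (σ j) := by
    intro i hi
    rw [← her i hi fun z => pcn (tlo G T hm) B (σ i) z, ← h.toWHom.sum_pcn (hmem i hi)
      (hpk _ (hmem i hi))]
  have hYt : ∀ i < n, ∀ v ∈ hz G Z T hm (σ i), tlo G T hm v ∈ T.erase (σ i) := fun i hi v hv =>
    h.toWHom.ht _ (hmem i hi) v hv
  -- all free arcs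
  have hnua : ∀ i < n, ∑ u ∈ (T.biUnion fun x => pkf (B x) (Ps x)).filter
        (fun u => ρ (host u) = i), ∑ j ∈ (range n).erase i,
          (nui G (cz G Z T hm (host u)) (tlo G T hm) (B (host u)) (σ j) u : ℤ)
      = ∑ u ∈ pkf (B (σ i)) (Ps (σ i)), ∑ z ∈ T.erase (σ i),
          (nui G (cz G Z T hm (σ i)) (tlo G T hm) (B (σ i)) z u : ℤ) := by
    intro i hi
    rw [hsum i hi fun u x => ∑ j ∈ (range n).erase i,
      (nui G (cz G Z T hm x) (tlo G T hm) (B x) (σ j) u : ℤ)]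
    exact sum_congr rfl fun u _ => (her i hi fun z =>
      (nui G (cz G Z T hm (σ i)) (tlo G T hm) (B (σ i)) z u : ℤ)).symm
  have hfan : ∀ i < n, ∀ j < n, ∑ u ∈ (T.biUnion fun x => pkf (B x) (Ps x)).filter
        (fun u => ρ (host u) = i), (nui G (cz G Z T hm (host u)) (tlo G T hm) (B (host u)) (σ j) u : ℤ)
      = faI G Z T hm B σ i j := by
    intro i hi j hj
    rw [hsum i hi fun u x => (nui G (cz G Z T hm x) (tlo G T hm) (B x) (σ j) u : ℤ)]
    exact (hpk _ (hmem i hi)).sum_nui_fan (hmin _ (hmem i hi)) (h32 _ (hmem i hi)) (σ j)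
  refine ⟨H.itz hp h, ?_, ?_, ?_, ?_, ?_, ?_, ?_, ?_, ?_, ?_, ?_, ?_, ?_, ?_, ?_, ?_, ?_, ?_, ?_, ?_,
    ?_, ?_, ?_, ?_, ?_, ?_, ?_, ?_, ?_, ?_, ?_, ?_, ?_, ?_, ?_, ?_⟩
  · -- frs
    intro i hi
    show ∑ e ∈ B (σ i), ((frC G (cz G Z T hm (σ i)) (tlo G T hm) (B (σ i)) e.1).card : ℤ)
      = ∑ j ∈ (range n).erase i, fjk G Z T hm B (σ i) (σ j)
    rw [← her i hi fun z => fjk G Z T hm B (σ i) z, sum_B_tail (tl := tlo G T hm) (B := B (σ i))
      (T.erase (σ i)) (fun e he => hYt i hi _ ((hpk _ (hmem i hi)).bH e he))]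
    rfl
  · exact fun i _ j _ => fjk_nonneg B _ _
  · -- fjk
    intro i hi j hj
    show fjk G Z T hm B (σ i) (σ j) ≤ pcn (tlo G T hm) B (σ i) (σ j)
      * (kpl G (cz G Z T hm (σ i)) (hz G Z T hm (σ i)) (tlo G T hm) (B (σ i)) (σ j) : ℤ)
    have h1 : ∀ e ∈ btl (tlo G T hm) (B (σ i)) (σ j),
        ((frC G (cz G Z T hm (σ i)) (tlo G T hm) (B (σ i)) e.1).card : ℤ)
        ≤ (kpl G (cz G Z T hm (σ i)) (hz G Z T hm (σ i)) (tlo G T hm) (B (σ i)) (σ j) : ℤ) := by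
      intro e he
      have : (frC G (cz G Z T hm (σ i)) (tlo G T hm) (B (σ i)) e.1).card
          ≤ kpl G (cz G Z T hm (σ i)) (hz G Z T hm (σ i)) (tlo G T hm) (B (σ i)) (σ j) :=
        le_sup (f := fun v => (frC G (cz G Z T hm (σ i)) (tlo G T hm) (B (σ i)) v).card)
          (mem_union_left _ (mem_image_of_mem _ he))
      exact_mod_cast this
    have h2 := sum_le_sum h1
    rw [sum_const, nsmul_eq_mul] at h2
    exact h2
  · exact fun i _ j _ => pfw_nonneg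
  · exact fun i hi j _ => frt_le (hpk _ (hmem i hi)) (σ j)
  · exact fun u _ j _ => Nat.cast_nonneg _
  · -- nuz
    intro u hu j hj hk
    have hk' : ikp (tlo G T hm) (σ j) u = 0 := by
      have : (ikp (tlo G T hm) (σ j) u : ℤ) = 0 := hk
      exact_mod_cast this
    show (nui G (cz G Z T hm (host u)) (tlo G T hm) (B (host u)) (σ j) u : ℤ) = 0
    rw [nui_zero (htwo u hu) hk']
    rfl
  · -- nuf
    intro i hi j hj
    show fjk G Z T hm B (σ i) (σ j) = ∑ u ∈ (T.biUnion fun x => pkf (B x) (Ps x)).filter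
      (fun u => ρ (host u) = i), (ipc u : ℤ)
        * (nui G (cz G Z T hm (host u)) (tlo G T hm) (B (host u)) (σ j) u : ℤ)
    rw [hsum i hi fun u x => (ipc u : ℤ) * (nui G (cz G Z T hm x) (tlo G T hm) (B x) (σ j) u : ℤ)]
    exact (sum_ipc_nui (σ j)).symm
  · -- nxu
    intro i hi j hj
    show nxk G (cz G Z T hm (σ i)) (hz G Z T hm (σ i)) (tlo G T hm) (B (σ i)) (σ j)
      ≤ ∑ u ∈ (T.biUnion fun x => pkf (B x) (Ps x)).filter (fun u => ρ (host u) = i),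
        (1 - (ipc u : ℤ))
          * (nui G (cz G Z T hm (host u)) (tlo G T hm) (B (host u)) (σ j) u : ℤ)
    rw [hsum i hi fun u x => (1 - (ipc u : ℤ))
      * (nui G (cz G Z T hm x) (tlo G T hm) (B x) (σ j) u : ℤ)]
    exact (hpk _ (hmem i hi)).nxk_le_nui (hmin _ (hmem i hi)) (h32 _ (hmem i hi)) (σ j)
  · -- nuk
    intro u hu hv j hj
    obtain ⟨a1, a2, a3, a4⟩ := hho u hu
    have hv' : ivl u = 1 := by
      have : (ivl u : ℤ) = 1 := hv
      exact_mod_cast this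
    have h1 := (hpk _ a1).nui_le_kpl (hmin _ a1) (h32 _ a1) a2 hv' (σ j)
    show (nui G (cz G Z T hm (host u)) (tlo G T hm) (B (host u)) (σ j) u : ℤ)
      ≤ (kpl G (cz G Z T hm (σ (ρ (host u)))) (hz G Z T hm (σ (ρ (host u)))) (tlo G T hm)
        (B (σ (ρ (host u)))) (σ j) : ℤ)
    rw [a4]
    exact_mod_cast h1
  · -- nus
    intro u hu hv j hj hk
    obtain ⟨a1, a2, a3, a4⟩ := hho u hu
    have hv' : ivl u = 1 := by
      have : (ivl u : ℤ) = 1 := hv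
      exact_mod_cast this
    have hk' : ikp (tlo G T hm) (σ j) u ≠ 0 := fun h1 => hk (by
      show (ikp (tlo G T hm) (σ j) u : ℤ) = 0
      rw [h1]
      rfl)
    have h1 := h.nu_ms hp a1 (hpk _ a1) (hmin _ a1) a2 hv' hk'
    show ((nui G (cz G Z T hm (host u)) (tlo G T hm) (B (host u)) (σ j) u : ℤ) + (ipc u : ℤ) - 1)
        * (ims G (cz G Z T hm) (tlo G T hm) (σ j) u : ℤ)
      ≤ tI G Z T hm r Z (σ (ρ (host u))) * tI G Z T hm r Z (σ j)
        + ((nui G (cz G Z T hm (host u)) (tlo G T hm) (B (host u)) (σ j) u : ℤ) + (ipc u : ℤ))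
    rw [a4]
    exact h1
  · -- nuq
    intro u hu hv j hj hk
    obtain ⟨a1, a2, a3, a4⟩ := hho u hu
    have hv' : ivl u = 1 := by
      have : (ivl u : ℤ) = 1 := hv
      exact_mod_cast this
    have hk' : ikp (tlo G T hm) (σ j) u ≠ 0 := fun h1 => hk (by
      show (ikp (tlo G T hm) (σ j) u : ℤ) = 0
      rw [h1]
      rfl)
    have h1 := h.nu_sq hp a1 (hpk _ a1) (hmin _ a1) a2 hv' hk'
    show ((nui G (cz G Z T hm (host u)) (tlo G T hm) (B (host u)) (σ j) u : ℤ) + (ipc u : ℤ))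
        * ((nui G (cz G Z T hm (host u)) (tlo G T hm) (B (host u)) (σ j) u : ℤ) + (ipc u : ℤ) - 2)
      ≤ tI G Z T hm r Z (σ (ρ (host u))) * tI G Z T hm r Z (σ j)
    rw [a4]
    exact h1
  · -- nu2
    intro u hu hv j hj l hl hjl
    obtain ⟨a1, a2, a3, a4⟩ := hho u hu
    have hv' : ivl u = 1 := by
      have : (ivl u : ℤ) = 1 := hv
      exact_mod_cast this
    rcases (hpk _ a1).nui_two (hmin _ a1) (h32 _ a1) a2 hv' (hne j hj l hl hjl) with h1 | h1
    · left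
      show (nui G (cz G Z T hm (host u)) (tlo G T hm) (B (host u)) (σ j) u : ℤ) = 0
      rw [h1]
      rfl
    · right
      show (nui G (cz G Z T hm (host u)) (tlo G T hm) (B (host u)) (σ l) u : ℤ) = 0
      rw [h1]
      rfl
  · -- arU
    intro u hu
    obtain ⟨a1, a2, a3, a4⟩ := hho u hu
    have h1 := (hpk _ a1).iar_nui (h32 _ a1) (Y := T.erase (host u))
      (fun v hv => h.toWHom.ht _ a1 v hv) a2
    show (iar G (cz G Z T hm (host u)) u : ℤ) ≤ (ipc u : ℤ)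
      + ∑ j ∈ (range n).erase (ρ (host u)),
        ((nui G (cz G Z T hm (host u)) (tlo G T hm) (B (host u)) (σ j) u : ℤ)
        + if (ikp (tlo G T hm) (σ j) u : ℤ) = 0 then 0
          else pcn (tlo G T hm) B (σ (ρ (host u))) (σ j) - (ipc u : ℤ))
    have h2 := her (ρ (host u)) a3 fun z =>
      ((nui G (cz G Z T hm (host u)) (tlo G T hm) (B (host u)) z u : ℤ)
        + if (ikp (tlo G T hm) z u : ℤ) = 0 then 0
          else pcn (tlo G T hm) B (σ (ρ (host u))) z - (ipc u : ℤ))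
    rw [← h2, a4]
    refine h1.trans (le_of_eq ?_)
    congr 1
    refine sum_congr rfl fun z _ => ?_
    congr 1
    by_cases h3 : ikp (tlo G T hm) z u = 0
    · rw [if_pos h3, if_pos (by exact_mod_cast h3)]
    · rw [if_neg h3, if_neg (by exact_mod_cast h3)]
      rfl
  · -- aTb
    intro i hi
    have hx := hmem i hi
    have h1 := (hpk _ hx).ar_le (hmin _ hx) (h32 _ hx) (Y := T.erase (σ i)) (hYt i hi)
    have h2 := hmulS i hi
    show ∑ v ∈ hz G Z T hm (σ i), (nd G (cz G Z T hm (σ i)) v : ℤ)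
      ≤ (∑ j ∈ (range n).erase i, pcn (tlo G T hm) B (σ i) (σ j))
        * (hI G Z T hm Z (σ i) - ∑ u ∈ pkf (B (σ i)) (Ps (σ i)), (ivl u : ℤ))
        + ∑ j ∈ (range n).erase i, pcn (tlo G T hm) B (σ i) (σ j) ^ 2
        + ∑ u ∈ (T.biUnion fun x => pkf (B x) (Ps x)).filter
        (fun u => ρ (host u) = i), ∑ j ∈ (range n).erase i,
          (nui G (cz G Z T hm (host u)) (tlo G T hm) (B (host u)) (σ j) u : ℤ)
    rw [hnua i hi, ← hBc i hi, ← her i hi fun z => pcn (tlo G T hm) B (σ i) z ^ 2]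
    have e1 : hI G Z T hm Z (σ i) - ∑ u ∈ pkf (B (σ i)) (Ps (σ i)), (ivl u : ℤ)
        = ((Ps (σ i)).card : ℤ) := by linarith
    rw [e1]
    exact h1
  · -- lsf
    intro i hi q hq
    have hx := hmem i hi
    show lsx G (cz G Z T hm (σ i)) (hz G Z T hm (σ i)) q
      ≤ q * (∑ j ∈ (range n).erase i, pcn (tlo G T hm) B (σ i) (σ j)
        + ∑ u ∈ (T.biUnion fun x => pkf (B x) (Ps x)).filter
        (fun u => ρ (host u) = i), ∑ j ∈ (range n).erase i,
          (nui G (cz G Z T hm (host u)) (tlo G T hm) (B (host u)) (σ j) u : ℤ))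
    rw [hnua i hi, ← hBc i hi]
    refine (lsx_le_q hq).trans (mul_le_mul_of_nonneg_left ?_ hq)
    have h1 : (bst G (cz G Z T hm (σ i)) (hz G Z T hm (σ i))).card
        ≤ (B (σ i)).card + (∑ e ∈ B (σ i), (frC G (cz G Z T hm (σ i)) (tlo G T hm) (B (σ i)) e.1).card
          + ∑ v ∈ Nend G (cz G Z T hm (σ i)) (hz G Z T hm (σ i)) (tlo G T hm) (B (σ i)),
            (frC G (cz G Z T hm (σ i)) (tlo G T hm) (B (σ i)) v).card) := by
      refine (card_le_card (hpk _ hx).bst_sub).trans ((card_union_le _ _).trans ?_)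
      have h2 := card_union_le ((B (σ i)).image Prod.snd)
        ((B (σ i)).biUnion fun e => frC G (cz G Z T hm (σ i)) (tlo G T hm) (B (σ i)) e.1)
      have h3 : ((B (σ i)).image Prod.snd).card ≤ (B (σ i)).card := card_image_le
      have h4 : ((B (σ i)).biUnion fun e => frC G (cz G Z T hm (σ i)) (tlo G T hm) (B (σ i))
        e.1).card ≤ _ := card_biUnion_le
      have h5 : ((Nend G (cz G Z T hm (σ i)) (hz G Z T hm (σ i)) (tlo G T hm)
        (B (σ i))).biUnion fun v => frC G (cz G Z T hm (σ i)) (tlo G T hm) (B (σ i)) v).card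
        ≤ _ := card_biUnion_le
      omega
    have h2 : ((bst G (cz G Z T hm (σ i)) (hz G Z T hm (σ i))).card : ℤ)
        ≤ (B (σ i)).card
          + (∑ e ∈ B (σ i), ((frC G (cz G Z T hm (σ i)) (tlo G T hm) (B (σ i)) e.1).card : ℤ)
          + ∑ v ∈ Nend G (cz G Z T hm (σ i)) (hz G Z T hm (σ i)) (tlo G T hm) (B (σ i)),
            ((frC G (cz G Z T hm (σ i)) (tlo G T hm) (B (σ i)) v).card : ℤ)) := by
      exact_mod_cast h1
    have h3 := (hpk _ hx).sum_frC_all (hmin _ hx) (h32 _ hx) (Y := T.erase (σ i)) (hYt i hi)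
    linarith
  · -- excf
    intro i hi
    have h1 := H.excf h hi
    have h2 : ∑ j ∈ (range n).erase i, faI G Z T hm B σ i j
        = ∑ u ∈ (T.biUnion fun x => pkf (B x) (Ps x)).filter
        (fun u => ρ (host u) = i), ∑ j ∈ (range n).erase i,
          (nui G (cz G Z T hm (host u)) (tlo G T hm) (B (host u)) (σ j) u : ℤ) := by
      rw [sum_comm]
      refine sum_congr rfl fun j hj => ?_
      exact (hfan i hi j (mem_range.1 (mem_of_mem_erase hj))).symm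
    rw [h2] at h1
    exact h1
  · -- prt
    intro i hi
    have h1 := Pk.card_pp (B (σ i)) (Ps (σ i))
    have h2 := hmulS i hi
    show ∑ u ∈ (T.biUnion fun x => pkf (B x) (Ps x)).filter (fun u => ρ (host u) = i),
      (1 - (ipc u : ℤ)) ≤ hI G Z T hm Z (σ i) - ∑ u ∈ pkf (B (σ i)) (Ps (σ i)), (ivl u : ℤ)
    rw [hfil i hi]
    linarith
  · -- sumk
    intro u hu
    have h1 := sum_ikp_le (tl := tlo G T hm) T (htwo u hu)
    have h2 : ∑ z ∈ T, (ikp (tlo G T hm) z u : ℤ)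
        = ∑ i ∈ range n, (ikp (tlo G T hm) (σ i) u : ℤ) := by
      have h3 := add_sum_erase T (fun z => (ikp (tlo G T hm) z u : ℤ))
        (hmem 0 (by have := h.five; omega))
      have h4 := add_sum_erase (range n) (fun i => (ikp (tlo G T hm) (σ i) u : ℤ))
        (mem_range.2 (by have := h.five; omega : 0 < n))
      have h5 := her 0 (by have := h.five; omega) fun z => (ikp (tlo G T hm) z u : ℤ)
      linarith
    show ∑ i ∈ range n, (ikp (tlo G T hm) (σ i) u : ℤ) ≤ (ivl u : ℤ) + 1 - (ipc u : ℤ)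
    rw [← h2]
    have h3 : (∑ z ∈ T, (ikp (tlo G T hm) z u : ℤ)) + ipc u ≤ ivl u + 1 := by exact_mod_cast h1
    linarith
  · -- msc
    intro u hu i hi
    show (ims G (cz G Z T hm) (tlo G T hm) (σ i) u : ℤ) ≤ (r : ℤ) - 1 - tI G Z T hm r Z (σ i)
    have h1 : ims G (cz G Z T hm) (tlo G T hm) (σ i) u ≤ (cz G Z T hm (σ i)).card :=
      card_le_card rcl_sub
    have h2 := card_CP_eq (G := G) (Z := Z) (T := T) (hm := hm) (r := r) Z (σ i)
    rw [← h2]
    exact_mod_cast h1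
  · exact fun i _ j _ q => khI_nonneg i j q
  · exact fun i _ j _ q => khI_anti i j q
  · exact fun i hi j _ => H.khI_one h hi j
  · -- nqf
    intro i hi j hj M hM
    have h1 := H.faI_le h hi hM
    show ∑ u ∈ (T.biUnion fun x => pkf (B x) (Ps x)).filter
        (fun u => ρ (host u) = i), (nui G (cz G Z T hm (host u)) (tlo G T hm) (B (host u)) (σ j) u : ℤ)
      + pcn (tlo G T hm) B (σ i) (σ j) ≤ _
    rw [hfan i hi j hj]
    exact h1
  · exact fun i hi j hj hij q k hq hqk hk => H.jointI hp h hi hj hij hq hqk hk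
  · -- jnt2
    intro i hi j hj hij K hK hKi K' hK' hKj q hq hq' hle hone
    have hKx : K ⊆ pkf (B (σ i)) (Ps (σ i)) := fun u hu => (hmemU u (hK hu) i hi).1 (hKi u hu).1
    have hKz : K' ⊆ pkf (B (σ j)) (Ps (σ j)) := fun u hu => (hmemU u (hK' hu) j hj).1 (hKj u hu).1
    refine h.joint2 hp hpk hmin (hmem i hi) (hmem j hj) (hne i hi j hj hij) hKx hKz
      (fun u hu => ?_) (fun u hu h1 => (hKi u hu).2.1 ?_) (fun u hu => ?_)
      (fun u hu h1 => (hKj u hu).2.1 ?_) (fun u hu => ?_) (fun u hu => ?_) hle hone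
    · have : (ivl u : ℤ) = 1 := (hKi u hu).2.2
      exact_mod_cast this
    · show (ikp (tlo G T hm) (σ j) u : ℤ) = 0
      rw [h1]
      rfl
    · have : (ivl u : ℤ) = 1 := (hKj u hu).2.2
      exact_mod_cast this
    · show (ikp (tlo G T hm) (σ i) u : ℤ) = 0
      rw [h1]
      rfl
    · have h1 : (q : ℤ) ≤ (nui G (cz G Z T hm (host u)) (tlo G T hm) (B (host u)) (σ j) u : ℤ)
        + (ipc u : ℤ) := hq u hu
      rw [H.hst _ (hmem i hi) u (hKx hu)] at h1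
      exact_mod_cast h1
    · have h1 : (q : ℤ) ≤ (nui G (cz G Z T hm (host u)) (tlo G T hm) (B (host u)) (σ i) u : ℤ)
        + (ipc u : ℤ) := hq' u hu
      rw [H.hst _ (hmem j hj) u (hKz hu)] at h1
      exact_mod_cast h1
  · -- jntp
    intro u hu hpc j hj hk
    obtain ⟨a1, a2, a3, a4⟩ := hho u hu
    rcases u with P | e
    · exact absurd hpc (by simp [ipc])
    · have he := inr_mem_pkf.1 a2
      have hey : tlo G T hm e.1 = σ j := by
        by_contra h1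
        exact hk (by simp [ikp, h1])
      have hjT := hmem j hj
      have hxj : host (Sum.inr e) ≠ σ j := by
        have h1 := h.toWHom.ht _ a1 e.1 ((hpk _ a1).bH e he)
        rw [hey] at h1
        exact (ne_of_mem_erase h1).symm
      have h1 := h.jntP hp a1 hjT hxj (hpk _ a1) he hey
      show (pcn (tlo G T hm) B (σ (ρ (host (Sum.inr e)))) (σ j) - 1) * ((r : ℤ) - 1)
        + (max 0 ((nui G (cz G Z T hm (host (Sum.inr e))) (tlo G T hm) (B (host (Sum.inr e))) (σ j)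
            (Sum.inr e) : ℤ) + 1 - pcn (tlo G T hm) B (σ (ρ (host (Sum.inr e)))) (σ j))) ^ 2
        ≤ tI G Z T hm r Z (σ (ρ (host (Sum.inr e)))) * tI G Z T hm r Z (σ j)
          + pcn (tlo G T hm) B (σ (ρ (host (Sum.inr e)))) (σ j) ^ 2
      rw [a4, nui_inr, if_pos hey]
      have h2 : (max 0 (((frC G (cz G Z T hm (host (Sum.inr e))) (tlo G T hm)
            (B (host (Sum.inr e))) e.1).card : ℤ) + 1
            - pcn (tlo G T hm) B (host (Sum.inr e)) (σ j)))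
          = ((((frC G (cz G Z T hm (host (Sum.inr e))) (tlo G T hm)
            (B (host (Sum.inr e))) e.1).card + 1)
            - (pcs (tlo G T hm) (B (host (Sum.inr e))) (σ j)).card : ℕ) : ℤ) := by
        unfold pcn
        omega
      rw [h2]
      exact h1
  · -- rectf
    intro i hi j hj hij w hw hwi hw1 hwk
    have hwx : w ∈ pkf (B (σ i)) (Ps (σ i)) := (hmemU w hw i hi).1 hwi
    have hw1' : ivl w = 1 := by
      have : (ivl w : ℤ) = 1 := hw1
      exact_mod_cast this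
    have hwk' : ikp (tlo G T hm) (σ j) w ≠ 0 := fun h1 => hwk (by
      show (ikp (tlo G T hm) (σ j) w : ℤ) = 0
      rw [h1]
      rfl)
    have h1 := h.rectF hp hpk hmin (hmem i hi) (hmem j hj) (hne i hi j hj hij) hwx hw1' hwk'
    have e1 : ∀ (k l : ℕ), ∀ u : Itm V, iht G (cz G Z T hm) (tlo G T hm) (σ k) u
        = (ikp (tlo G T hm) (σ k) u : ℤ) * ((r : ℤ) - 1 - tI G Z T hm r Z (σ k))
          - (ims G (cz G Z T hm) (tlo G T hm) (σ k) u : ℤ) := by
      intro k l u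
      have h2 := card_CP_eq (G := G) (Z := Z) (T := T) (hm := hm) (r := r) Z (σ k)
      unfold iht
      rw [h2]
      ring
    show ∑ u ∈ (T.biUnion fun x => pkf (B x) (Ps x)).filter (fun u => ρ (host u) = i),
        ((ikp (tlo G T hm) (σ j) u : ℤ) * ((r : ℤ) - 1 - tI G Z T hm r Z (σ j))
          - (ims G (cz G Z T hm) (tlo G T hm) (σ j) u : ℤ))
      + ∑ u ∈ (T.biUnion fun x => pkf (B x) (Ps x)).filter (fun u => ρ (host u) = j),
        ((ikp (tlo G T hm) (σ i) u : ℤ) * ((r : ℤ) - 1 - tI G Z T hm r Z (σ i))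
          - (ims G (cz G Z T hm) (tlo G T hm) (σ i) u : ℤ))
      + (nui G (cz G Z T hm (host w)) (tlo G T hm) (B (host w)) (σ j) w : ℤ)
        * max 0 ((nui G (cz G Z T hm (host w)) (tlo G T hm) (B (host w)) (σ j) w : ℤ)
          + (ipc w : ℤ) - pcn (tlo G T hm) B (σ j) (σ i)) ≤ EI G hm Z (σ i) (σ j)
    rw [hfil i hi, hfil j hj, H.hst _ (hmem i hi) w hwx]
    rw [sum_congr rfl fun u _ => e1 j j u, sum_congr rfl fun u _ => e1 i i u] at h1
    exact h1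
  · -- cellf
    intro i hi j hj hij K hK hKi K' hK' hKj w hw hwi hw1 hwk I hI hiI hjI hIK hIK' q
    have hKx : K ⊆ pkf (B (σ i)) (Ps (σ i)) := fun u hu => (hmemU u (hK hu) i hi).1 (hKi u hu).1
    have hKz : K' ⊆ pkf (B (σ j)) (Ps (σ j)) := fun u hu => (hmemU u (hK' hu) j hj).1 (hKj u hu).1
    have hk : ∀ u ∈ K, ikp (tlo G T hm) (σ j) u ≠ 0 := fun u hu h2 => (hKi u hu).2 (by
      show (ikp (tlo G T hm) (σ j) u : ℤ) = 0
      rw [h2]
      rfl)
    have hk' : ∀ u ∈ K', ikp (tlo G T hm) (σ i) u ≠ 0 := fun u hu h2 => (hKj u hu).2 (by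
      show (ikp (tlo G T hm) (σ i) u : ℤ) = 0
      rw [h2]
      rfl)
    have hwx : w ∈ pkf (B (σ i)) (Ps (σ i)) := (hmemU w hw i hi).1 hwi
    have hw1' : ivl w = 1 := by
      have : (ivl w : ℤ) = 1 := hw1
      exact_mod_cast this
    have hwk' : ikp (tlo G T hm) (σ j) w ≠ 0 := fun h1 => hwk (by
      show (ikp (tlo G T hm) (σ j) w : ℤ) = 0
      rw [h1]
      rfl)
    have h1 := h.cellF hp hpk hmin (hmem i hi) (hmem j hj) (hne i hi j hj hij) hKx hKz hk hk'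
      hwx hw1' hwk'
    have e1 : ∑ u ∈ K, (((r : ℤ) - 1) * (ikp (tlo G T hm) (σ j) u : ℤ)
          + (1 - (ipc u : ℤ)) * tI G Z T hm r Z (σ j)
          - (rmr G (cz G Z T hm) (tlo G T hm) (σ j) u : ℤ)
          - (iar G (cz G Z T hm (host u)) u : ℤ))
        = ∑ u ∈ K, (((r : ℤ) - 1) * (ikp (tlo G T hm) (σ j) u : ℤ)
          + (1 - (ipc u : ℤ)) * tI G Z T hm r Z (σ j)
          - (rmr G (cz G Z T hm) (tlo G T hm) (σ j) u : ℤ)
          - (iar G (cz G Z T hm (σ i)) u : ℤ)) :=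
      sum_congr rfl fun u hu => by rw [H.hst _ (hmem i hi) u (hKx hu)]
    have e2 : ∑ u ∈ K', (((r : ℤ) - 1) * (ikp (tlo G T hm) (σ i) u : ℤ)
          + (1 - (ipc u : ℤ)) * tI G Z T hm r Z (σ i)
          - (rmr G (cz G Z T hm) (tlo G T hm) (σ i) u : ℤ)
          - (iar G (cz G Z T hm (host u)) u : ℤ))
        = ∑ u ∈ K', (((r : ℤ) - 1) * (ikp (tlo G T hm) (σ i) u : ℤ)
          + (1 - (ipc u : ℤ)) * tI G Z T hm r Z (σ i)
          - (rmr G (cz G Z T hm) (tlo G T hm) (σ i) u : ℤ)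
          - (iar G (cz G Z T hm (σ j)) u : ℤ)) :=
      sum_congr rfl fun u hu => by rw [H.hst _ (hmem j hj) u (hKz hu)]
    have hT : ∀ x ∈ T, ∀ u ∈ pkf (B x) (Ps x), ∀ y, ikp (tlo G T hm) y u ≠ 0 →
        ρ y < n ∧ σ (ρ y) = y := by
      intro x hx u hu y hy
      obtain ⟨v, hv, hvy⟩ := ikp_ne_tail (fun Q hQ => (hfam x hx).two Q (hQ ▸ hu)) hy
      have hvH : v ∈ hz G Z T hm x := by
        rcases u with Q | e
        · exact (hfam x hx).sub Q hu hv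
        · simp only [imem, mem_singleton] at hv
          exact hv ▸ (hfam x hx).pcH e hu
      have h5 := mem_of_mem_erase (h.toWHom.ht x hx v hvH)
      rw [hvy] at h5
      exact ⟨by rw [← hcard]; exact H.rk.lt y h5, H.rk.left y h5⟩
    have h2 := Fam.NE_cptT h.F.toPFrame h.hh h.csys h.wsysT hfam (hmem i hi) (hmem j hj)
      (hne i hi j hj hij) hKx hKz hk hk' (I := I.image σ) (mem_image_of_mem σ hiI)
      (mem_image_of_mem σ hjI) (fun u hu y hy => by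
        obtain ⟨b1, b2⟩ := hT _ (hmem i hi) u (hKx hu) y hy
        refine mem_image.2 ⟨ρ y, hIK u hu (ρ y) b1 ?_, b2⟩
        show (ikp (tlo G T hm) (σ (ρ y)) u : ℤ) ≠ 0
        rw [b2]
        exact_mod_cast hy) (fun u hu y hy => by
        obtain ⟨b1, b2⟩ := hT _ (hmem j hj) u (hKz hu) y hy
        refine mem_image.2 ⟨ρ y, hIK' u hu (ρ y) b1 ?_, b2⟩
        show (ikp (tlo G T hm) (σ (ρ y)) u : ℤ) ≠ 0
        rw [b2]
        exact_mod_cast hy) q
    have h3 : (I.image σ).card = I.card := H.rk.card_image (by rw [hcard]; exact hI)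
    rw [h3] at h2
    show 2 * ∑ u ∈ K, (((r : ℤ) - 1) * (ikp (tlo G T hm) (σ j) u : ℤ)
          + (1 - (ipc u : ℤ)) * tI G Z T hm r Z (σ j)
          - (rmr G (cz G Z T hm) (tlo G T hm) (σ j) u : ℤ)
          - (iar G (cz G Z T hm (host u)) u : ℤ))
      + 2 * ∑ u ∈ K', (((r : ℤ) - 1) * (ikp (tlo G T hm) (σ i) u : ℤ)
          + (1 - (ipc u : ℤ)) * tI G Z T hm r Z (σ i)
          - (rmr G (cz G Z T hm) (tlo G T hm) (σ i) u : ℤ)
          - (iar G (cz G Z T hm (host u)) u : ℤ))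
      + 2 * ((nui G (cz G Z T hm (host w)) (tlo G T hm) (B (host w)) (σ j) w : ℤ)
        * max 0 ((nui G (cz G Z T hm (host w)) (tlo G T hm) (B (host w)) (σ j) w : ℤ)
          + (ipc w : ℤ) - ∑ u ∈ K', (ipc u : ℤ))) ≤ _
    rw [e1, e2, H.hst _ (hmem i hi) w hwx]
    linarith
  · -- rows
    intro i hi K hK hKh h0
    have h1 := h.toWHom.row_sameI hpk hmin H.hst H.rk hi hK hKh h0
    have e1 : ((r : ℤ) - 1) = (r : ℤ) - 1 := rfl
    exact h1
  · -- rowp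
    intro i hi j hj hij K hK hKh h0
    have h1 := h.rowc_samePay hp hpk hmin H.hst H.rk hi hj hij hK hKh h0
    have e1 : ∀ x : ℕ, (K.filter fun u => ρ (host u) = x
        ∧ (ikp (tlo G T hm) (σ i) u : ℤ) = (ivl u : ℤ) ∧ (x = j → (ipc u : ℤ) = 0))
        = K.filter fun u => ρ (host u) = x
        ∧ (ikp (tlo G T hm) (σ i) u : ℤ) = (ivl u : ℤ) ∧ (x = j → ipc u = 0) := by
      intro x
      refine filter_congr fun u _ => ?_
      rw [Int.natCast_eq_zero]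
    simp only [e1]
    exact h1
  · -- rowr
    intro i hi j hj hij K hK hKh h0 w hw
    have hK' : K ⊆ (T.erase (σ i)).biUnion fun x => pkf (B x) (Ps x) := by
      intro u hu
      obtain ⟨x, hx, hux⟩ := mem_biUnion.1 (hK hu)
      refine mem_biUnion.2 ⟨x, mem_erase.2 ⟨fun h1 => hKh u hu ?_, hx⟩, hux⟩
      show ρ (host u) = i
      rw [H.hst x hx u hux, h1]
      exact H.rk.right i (by rw [hcard]; exact hi)
    obtain ⟨x', hx', hwx⟩ := mem_biUnion.1 hw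
    have h1 := h.toWHom.rowc_sameI hpk hmin H.hst H.rk hi hj hij hK hKh h0
      (h.rowN_item hpk (hmem i hi) (hmem j hj) (hne i hi j hj hij) hK' hx' hwx)
    have e1 : ∀ x : ℕ, (K.filter fun u => ρ (host u) = x
        ∧ (ikp (tlo G T hm) (σ i) u : ℤ) = (ivl u : ℤ) ∧ (x = j → (ipc u : ℤ) = 0))
        = K.filter fun u => ρ (host u) = x
        ∧ (ikp (tlo G T hm) (σ i) u : ℤ) = (ivl u : ℤ) ∧ (x = j → ipc u = 0) := by
      intro x
      refine filter_congr fun u _ => ?_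
      rw [Int.natCast_eq_zero]
    have e2 : ∑ u ∈ K, (if ρ (host u) = j then (ipc u : ℤ) * (ikp (tlo G T hm) (σ i) u : ℤ) else 0)
        = ∑ u ∈ K, (if u ∈ pkf (B (σ j)) (Ps (σ j)) then
          (ipc u : ℤ) * (ikp (tlo G T hm) (σ i) u : ℤ) else 0) := by
      refine sum_congr rfl fun u hu => ?_
      by_cases h2 : ρ (host u) = j
      · rw [if_pos h2, if_pos ((hmemU u (hK hu) j hj).1 h2)]
      · rw [if_neg h2, if_neg fun h3 => h2 ((hmemU u (hK hu) j hj).2 h3)]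
    rw [← e2] at h1
    simp only [e1]
    exact h1
  · -- rowf
    intro i hi j hj hij K hK hKh h0 w hw hwj hw1 hwk
    have hK' : K ⊆ (T.erase (σ i)).biUnion fun x => pkf (B x) (Ps x) := by
      intro u hu
      obtain ⟨x, hx, hux⟩ := mem_biUnion.1 (hK hu)
      refine mem_biUnion.2 ⟨x, mem_erase.2 ⟨fun h1 => hKh u hu ?_, hx⟩, hux⟩
      show ρ (host u) = i
      rw [H.hst x hx u hux, h1]
      exact H.rk.right i (by rw [hcard]; exact hi)
    have hwx : w ∈ pkf (B (σ j)) (Ps (σ j)) := (hmemU w hw j hj).1 hwj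
    have hw1' : ivl w = 1 := by
      have : (ivl w : ℤ) = 1 := hw1
      exact_mod_cast this
    have hwk' : ikp (tlo G T hm) (σ i) w ≠ 0 := fun h1 => hwk (by
      show (ikp (tlo G T hm) (σ i) w : ℤ) = 0
      rw [h1]
      rfl)
    have h1 := h.toWHom.rowc_sameI hpk hmin H.hst H.rk hi hj hij hK hKh h0
      (h.rowN_ntype hp hpk hmin (hmem i hi) (hmem j hj) (hne i hi j hj hij) hK' hwx hw1' hwk')
    have e1 : ∀ x : ℕ, (K.filter fun u => ρ (host u) = x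
        ∧ (ikp (tlo G T hm) (σ i) u : ℤ) = (ivl u : ℤ) ∧ (x = j → (ipc u : ℤ) = 0))
        = K.filter fun u => ρ (host u) = x
        ∧ (ikp (tlo G T hm) (σ i) u : ℤ) = (ivl u : ℤ) ∧ (x = j → ipc u = 0) := by
      intro x
      refine filter_congr fun u _ => ?_
      rw [Int.natCast_eq_zero]
    simp only [e1]
    rw [H.hst _ (hmem j hj) w hwx]
    exact h1
  · exact fun i _ => Nat.cast_nonneg _
  · exact (h.itlU hp hpk H.hst H.rk).2.1
  · -- lowD
    intro Bs hBs hB1 D hD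
    obtain ⟨hL, -, hfa, had⟩ := h.itlU hp hpk H.hst H.rk
    have h1 := hL.lowD Bs hBs hB1 D hD
    have hlt : ∀ i ∈ D, i < n := fun i hi => mem_range.1 (hBs (hD hi))
    have h2 : ∀ i ∈ D, ∀ j ∈ range n \ Bs, faN G Z T hm (usd B) (σ i) (σ j)
        ≤ ∑ u ∈ (T.biUnion fun x => pkf (B x) (Ps x)).filter (fun u => ρ (host u) = i),
          (nui G (cz G Z T hm (host u)) (tlo G T hm) (B (host u)) (σ j) u : ℤ) := by
      intro i hi j hj
      have hjn := mem_range.1 (mem_sdiff.1 hj).1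
      rw [hfan i (hlt i hi) j hjn]
      refine (hfa i (hlt i hi) j hjn).trans (le_of_eq ?_)
      exact (hpk _ (hmem i (hlt i hi))).fan_eq (σ j)
    have h3 : ∀ i ∈ D, ∀ j ∈ Bs.erase i, adN G Z T hm B (usd B) (σ i) (σ j)
        ≤ ((ntl G (cz G Z T hm (σ i)) (hz G Z T hm (σ i)) (tlo G T hm) (B (σ i)) (σ j)).card : ℤ)
          * (((ntl G (cz G Z T hm (σ i)) (hz G Z T hm (σ i)) (tlo G T hm) (B (σ i)) (σ j)).card : ℤ)
            - 1)
          + 2 * ((ntl G (cz G Z T hm (σ i)) (hz G Z T hm (σ i)) (tlo G T hm) (B (σ i))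
            (σ j)).card : ℤ) * pcn (tlo G T hm) B (σ j) (σ i) := by
      intro i hi j hj
      have hjn := mem_range.1 (hBs (mem_of_mem_erase hj))
      refine had i (hlt i hi) j hjn _ (le_of_eq ?_)
      have h4 := (hpk _ (hmem i (hlt i hi))).card_ntl (σ j)
      rw [h4]
      unfold pcn
      push_cast
      rfl
    have h4 : ∑ i ∈ D, (((r : ℤ) - 1 - tI G Z T hm r Z (σ i) - ((usd B (σ i)).card : ℤ))
          * (∑ j ∈ Bs.erase i, ∑ u ∈ (T.biUnion fun x => pkf (B x) (Ps x)).filter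
              (fun u => ρ (host u) = j), (ikp (tlo G T hm) (σ i) u : ℤ)
            - ((Bs.card : ℤ) - 1 + ∑ j ∈ Bs.erase i, sI hm r Z (σ j)))
        - ∑ j ∈ Bs.erase i, ∑ u ∈ (T.biUnion fun x => pkf (B x) (Ps x)).filter
              (fun u => ρ (host u) = j), (ims G (cz G Z T hm) (tlo G T hm) (σ i) u : ℤ)
        - ∑ j ∈ range n \ Bs, ∑ u ∈ (T.biUnion fun x => pkf (B x) (Ps x)).filter
            (fun u => ρ (host u) = i),
            (nui G (cz G Z T hm (host u)) (tlo G T hm) (B (host u)) (σ j) u : ℤ))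
        ≤ ∑ i ∈ D, (((r : ℤ) - 1 - tI G Z T hm r Z (σ i) - ((usd B (σ i)).card : ℤ))
          * (∑ j ∈ Bs.erase i, ∑ u ∈ (T.biUnion fun x => pkf (B x) (Ps x)).filter
              (fun u => ρ (host u) = j), (ikp (tlo G T hm) (σ i) u : ℤ)
            - ((Bs.card : ℤ) - 1 + ∑ j ∈ Bs.erase i, sI hm r Z (σ j)))
        - ∑ j ∈ Bs.erase i, ∑ u ∈ (T.biUnion fun x => pkf (B x) (Ps x)).filter
              (fun u => ρ (host u) = j), (ims G (cz G Z T hm) (tlo G T hm) (σ i) u : ℤ)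
        - ∑ j ∈ range n \ Bs, faN G Z T hm (usd B) (σ i) (σ j)) := by
      refine sum_le_sum fun i hi => ?_
      have := sum_le_sum (h2 i hi)
      linarith
    have h5 := sum_le_sum fun i (hi : i ∈ D) => sum_le_sum (h3 i hi)
    have h6 : ((Bs.card : ℤ) - 1) * (2 * (((r : ℤ) - 1) + 1 - Bs.card) * ∑ i ∈ Bs, sI hm r Z (σ i)
        + ∑ i ∈ Bs, ∑ j ∈ Bs.erase i, EI G hm Z (σ i) (σ j) + ∑ i ∈ Bs, sI hm r Z (σ i) ^ 2)
      + 2 * ∑ i ∈ D, (((r : ℤ) - 1 - tI G Z T hm r Z (σ i) - ((usd B (σ i)).card : ℤ))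
          * (∑ j ∈ Bs.erase i, ∑ u ∈ (T.biUnion fun x => pkf (B x) (Ps x)).filter
              (fun u => ρ (host u) = j), (ikp (tlo G T hm) (σ i) u : ℤ)
            - ((Bs.card : ℤ) - 1 + ∑ j ∈ Bs.erase i, sI hm r Z (σ j)))
        - ∑ j ∈ Bs.erase i, ∑ u ∈ (T.biUnion fun x => pkf (B x) (Ps x)).filter
              (fun u => ρ (host u) = j), (ims G (cz G Z T hm) (tlo G T hm) (σ i) u : ℤ)
        - ∑ j ∈ range n \ Bs, faN G Z T hm (usd B) (σ i) (σ j))
      ≤ ((Bs.card : ℤ) - 1) * (2 * ∑ i ∈ Bs, eI G hm Z (σ i)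
          + Bs.card * (Bs.card - 1) * (((r : ℤ) - 1) + 1)
        + (∑ i ∈ Bs, sI hm r Z (σ i)) ^ 2)
        + ∑ i ∈ D, ∑ j ∈ Bs.erase i, adN G Z T hm B (usd B) (σ i) (σ j) := h1
    show ((Bs.card : ℤ) - 1) * (2 * (((r : ℤ) - 1) + 1 - Bs.card) * ∑ i ∈ Bs, sI hm r Z (σ i)
        + ∑ i ∈ Bs, ∑ j ∈ Bs.erase i, EI G hm Z (σ i) (σ j) + ∑ i ∈ Bs, sI hm r Z (σ i) ^ 2)
      + 2 * _ ≤ _ + _
    linarith

end TransV

end Pool.Agent.Lib.MP_f04ccf_co
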