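import Pool.Agent.Lib.MP_f04ccf_co.M.ItY

/-!
MP_f04ccf_co, PLAN W: the last step from the items.  `good_of_wbase`, `good_of_wcore`, `good_of_wcoreK`:
one `r ≥ 9` at a time.  `NoIt R`: there are no items `ItY` over `R`, sorted by `(t, h, mu)`.
`good_of_noit`: this gives the statement at `r = R + 1`; `final_of_noit`: the frozen statement from
`NoIt R` for all `R ≥ 9`; `large_of_noit`: all `r` above a bound.
-/

set_option autoImplicit false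

namespace Pool.Agent.Lib.MP_f04ccf_co

open Finset

attribute [local instance] Classical.propDecidable

section FalY

/-- **one `r`: no frames of least level** -/
theorem good_of_wbase (r : ℕ) (hr : 9 ≤ r)
    (hS : ∀ (G : SimpleGraph (Fin (r ^ 2 + 1))) (m n : ℕ)
      (Z T : Finset (Fin (r ^ 2 + 1))), ¬ WBase G Z T r m n) : Good r (r ^ 2 + 1) := by
  intro c hc
  by_contra hcon
  push Not at hcon
  have hs : Sees c := fun S hS k => by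
    obtain ⟨x, hx, y, hy, hxy, hk⟩ := hcon S hS k
    exact ⟨x, hx, y, hy, hxy, hk⟩
  obtain ⟨j, m, t, Z, T, h1, h2, h3⟩ := exists_S2_mtn (hc := hc) hs (by omega) (by simp)
  have hC : FCore (col c hc j) Z T r m t := ⟨hr, GP_col hs j, h3, h1, h2⟩
  obtain ⟨n, -, Z', T', hW⟩ := exists_wbase (GPW_col (hc := hc) hs j) hC
  exact hS _ m n Z' T' hW

/-- **one `r`: version [A]** -/
theorem good_of_wcore (r : ℕ) (hr : 9 ≤ r)
    (hS : ∀ (G : SimpleGraph (Fin (r ^ 2 + 1))) (m n : ℕ)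
      (Z T : Finset (Fin (r ^ 2 + 1))) (hm : Fin (r ^ 2 + 1) → Fin (r ^ 2 + 1)),
      ¬ WCore G Z T r m n hm) : Good r (r ^ 2 + 1) := by
  refine good_of_wbase r hr fun G m n Z T h => ?_
  obtain ⟨hm, h1, h2, h3⟩ := h.hsys.exists_homes3 h.F.toPFrame
  exact hS G m n Z T hm ⟨⟨h, h1, h2⟩, h3⟩

/-- **one `r`: version [B]**, any weight `p` -/
theorem good_of_wcoreK (r p : ℕ) (hr : 9 ≤ r)
    (hS : ∀ (G : SimpleGraph (Fin (r ^ 2 + 1))) (m n : ℕ)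
      (Z T : Finset (Fin (r ^ 2 + 1))) (hm : Fin (r ^ 2 + 1) → Fin (r ^ 2 + 1)),
      ¬ WCoreK G Z T r m n p hm) : Good r (r ^ 2 + 1) := by
  refine good_of_wbase r hr fun G m n Z T h => ?_
  obtain ⟨hm, hH⟩ := h.hsys.exists_whomes p 1
  exact hS G m n Z T hm ⟨⟨h, hH.hh, hH.ok⟩, hH⟩

/-- there are no items over `R`, sorted by `(t, h, mu)` -/
def NoIt (R : ℤ) : Prop :=
  ∀ (ι : Type) (n : ℕ) (t s h e : ℕ → ℤ) (E : ℕ → ℕ → ℤ) (U : Finset ι) (ho : ι → ℕ) (vl : ι → ℤ)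
    (kp ms mr : ℕ → ι → ℤ) (mu Nb : ℕ → ℤ) (Nx : ℕ → ℕ → ℤ) (be : ℕ → ℕ → ℤ) (ls : ℕ → ℤ → ℤ)
    (pc ar : ι → ℤ) (aT : ℕ → ℤ),
    ItY R n t s h e E U ho vl kp ms mr mu Nb Nx be ls pc ar aT →
    (∀ i j, i ≤ j → j < n → t j < t i ∨ t j = t i ∧ (h j < h i ∨ h j = h i ∧ mu j ≤ mu i)) →
    False

/-- **the statement at `r` from the absence of items over `r - 1`** -/
theorem good_of_noit (r : ℕ) (hr : 9 ≤ r) (hS : NoIt ((r : ℤ) - 1)) : Good r (r ^ 2 + 1) := by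
  refine good_of_wcoreK r (2 * r) hr fun G m n Z T hm h => ?_
  obtain ⟨B, Ps, host, ρ, σ, H, h1⟩ := h.exists_witkM le_rfl fun _ _ => 0
  exact hS _ _ _ _ _ _ _ _ _ _ _ _ _ _ _ _ _ _ _ _ _ (H.ity h.toWHom) h1

/-- **all `r` above a bound** -/
theorem large_of_noit (N : ℕ) (hN : 9 ≤ N) (hS : ∀ R : ℤ, (N : ℤ) ≤ R + 1 → NoIt R) (r : ℕ)
    (hr : N ≤ r) : Good r (r ^ 2 + 1) :=
  good_of_noit r (hN.trans hr) (hS _ (by
    have : (N : ℤ) ≤ r := by exact_mod_cast hr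
    linarith))

/-- **the frozen statement from the absence of items over all `R ≥ 9`** -/
theorem final_of_noit (hS : ∀ R : ℤ, 9 ≤ R → NoIt R) :
    ∀ r : ℕ, 3 ≤ r → ∀ c : Fin (r ^ 2 + 1) → Fin (r ^ 2 + 1) → Fin r,
      (∀ x y, c x y = c y x) →
      ∃ S : Finset (Fin (r ^ 2 + 1)), S.card = r + 1 ∧
        ∃ k : Fin r, ∀ x ∈ S, ∀ y ∈ S, x ≠ y → c x y ≠ k := by
  refine final_of_wcoreK (fun r => 2 * r) fun r hr G m n Z T hm h => ?_
  obtain ⟨B, Ps, host, ρ, σ, H, h1⟩ := h.exists_witkM le_rfl fun _ _ => 0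
  exact hS ((r : ℤ) - 1) (by
    have : (10 : ℤ) ≤ r := by exact_mod_cast hr
    linarith) _ _ _ _ _ _ _ _ _ _ _ _ _ _ _ _ _ _ _ _ _ (H.ity h.toWHom) h1

/-- **the frozen statement from three ranges of `R`** -/
theorem final_of_noit3 (M N : ℤ) (h1 : ∀ R : ℤ, 9 ≤ R → R < M → NoIt R)
    (h2 : ∀ R : ℤ, M ≤ R → R < N → NoIt R) (h3 : ∀ R : ℤ, N ≤ R → NoIt R) :
    ∀ r : ℕ, 3 ≤ r → ∀ c : Fin (r ^ 2 + 1) → Fin (r ^ 2 + 1) → Fin r,
      (∀ x y, c x y = c y x) →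
      ∃ S : Finset (Fin (r ^ 2 + 1)), S.card = r + 1 ∧
        ∃ k : Fin r, ∀ x ∈ S, ∀ y ∈ S, x ≠ y → c x y ≠ k := by
  refine final_of_noit fun R hR => ?_
  rcases lt_or_ge R M with h4 | h4
  · exact h1 R hR h4
  · rcases lt_or_ge R N with h5 | h5
    · exact h2 R h4 h5
    · exact h3 R h5

end FalY

end Pool.Agent.Lib.MP_f04ccf_co
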