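import Pool.Agent.Lib.MP_f04ccf_co.M.FalY
import Pool.Agent.Lib.MP_f04ccf_co.M.ItZ

/-!
MP_f04ccf_co, PLAN W: the last step from the items `ItZ` (version [B]).  `NoItZ R`: there are no items
`ItZ` over `R`, sorted by `(t, h, mu)`.  `good_of_noitZ`: the statement at `r = R + 1`;
`final_of_noitZ`, `final_of_noitZ3`: the frozen statement; `large_of_noitZ`: all `r` above a bound.
-/

set_option autoImplicit false

namespace Pool.Agent.Lib.MP_f04ccf_co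

open Finset

attribute [local instance] Classical.propDecidable

section FalZ

/-- there are no items `ItZ` over `R`, sorted by `(t, h, mu)` -/
def NoItZ (R : ℤ) : Prop :=
  ∀ (ι : Type) (n : ℕ) (t s h e : ℕ → ℤ) (E : ℕ → ℕ → ℤ) (U : Finset ι) (ho : ι → ℕ) (vl : ι → ℤ)
    (kp ms mr : ℕ → ι → ℤ) (mu Nb : ℕ → ℤ) (Nx : ℕ → ℕ → ℤ) (be : ℕ → ℕ → ℤ) (ls : ℕ → ℤ → ℤ)
    (pc ar : ι → ℤ) (aT fr : ℕ → ℤ) (gn ka : ℕ → ℕ → ℤ),
    ItZ R n t s h e E U ho vl kp ms mr mu Nb Nx be ls pc ar aT fr gn ka →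
    (∀ i j, i ≤ j → j < n → t j < t i ∨ t j = t i ∧ (h j < h i ∨ h j = h i ∧ mu j ≤ mu i)) →
    False

lemma NoIt.z {R : ℤ} (h : NoIt R) : NoItZ R :=
  fun ι n t s h' e E U ho vl kp ms mr mu Nb Nx be ls pc ar aT _ _ _ H hs =>
    h ι n t s h' e E U ho vl kp ms mr mu Nb Nx be ls pc ar aT H.toItY hs

/-- no data `WCoreK` from the absence of items -/
lemma NoItZ.wcoreK {r m n : ℕ} {G : SimpleGraph (Fin (r ^ 2 + 1))}
    {Z T : Finset (Fin (r ^ 2 + 1))} {hm : Fin (r ^ 2 + 1) → Fin (r ^ 2 + 1)}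
    (hS : NoItZ ((r : ℤ) - 1)) : ¬ WCoreK G Z T r m n (2 * r) hm := by
  intro h
  obtain ⟨B, Ps, host, ρ, σ, H, h1⟩ := h.exists_witkM le_rfl fun _ _ => 0
  exact hS _ _ _ _ _ _ _ _ _ _ _ _ _ _ _ _ _ _ _ _ _ _ _ _ (H.itz le_rfl h) h1

/-- **the statement at `r` from the absence of items over `r - 1`** -/
theorem good_of_noitZ (r : ℕ) (hr : 9 ≤ r) (hS : NoItZ ((r : ℤ) - 1)) : Good r (r ^ 2 + 1) :=
  good_of_wcoreK r (2 * r) hr fun _ _ _ _ _ _ => hS.wcoreK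

/-- **all `r` above a bound** -/
theorem large_of_noitZ (N : ℕ) (hN : 9 ≤ N) (hS : ∀ R : ℤ, (N : ℤ) ≤ R + 1 → NoItZ R) (r : ℕ)
    (hr : N ≤ r) : Good r (r ^ 2 + 1) :=
  good_of_noitZ r (hN.trans hr) (hS _ (by
    have : (N : ℤ) ≤ r := by exact_mod_cast hr
    linarith))

/-- **the frozen statement from the absence of items over all `R ≥ 9`** -/
theorem final_of_noitZ (hS : ∀ R : ℤ, 9 ≤ R → NoItZ R) :
    ∀ r : ℕ, 3 ≤ r → ∀ c : Fin (r ^ 2 + 1) → Fin (r ^ 2 + 1) → Fin r,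
      (∀ x y, c x y = c y x) →
      ∃ S : Finset (Fin (r ^ 2 + 1)), S.card = r + 1 ∧
        ∃ k : Fin r, ∀ x ∈ S, ∀ y ∈ S, x ≠ y → c x y ≠ k :=
  final_of_wcoreK (fun r => 2 * r) fun r hr _ _ _ _ _ _ => (hS ((r : ℤ) - 1) (by
    have : (10 : ℤ) ≤ r := by exact_mod_cast hr
    linarith)).wcoreK

/-- **the frozen statement from three ranges of `R`** -/
theorem final_of_noitZ3 (M N : ℤ) (h1 : ∀ R : ℤ, 9 ≤ R → R < M → NoItZ R)
    (h2 : ∀ R : ℤ, M ≤ R → R < N → NoItZ R) (h3 : ∀ R : ℤ, N ≤ R → NoItZ R) :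
    ∀ r : ℕ, 3 ≤ r → ∀ c : Fin (r ^ 2 + 1) → Fin (r ^ 2 + 1) → Fin r,
      (∀ x y, c x y = c y x) →
      ∃ S : Finset (Fin (r ^ 2 + 1)), S.card = r + 1 ∧
        ∃ k : Fin r, ∀ x ∈ S, ∀ y ∈ S, x ≠ y → c x y ≠ k := by
  refine final_of_noitZ fun R hR => ?_
  rcases lt_or_ge R M with h4 | h4
  · exact h1 R hR h4
  · rcases lt_or_ge R N with h5 | h5
    · exact h2 R h4 h5
    · exact h3 R h5

end FalZ

end Pool.Agent.Lib.MP_f04ccf_co
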