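import Mathlib

/-!
MP_f04ccf_co, TEXT D, regime H, rows `z ≠ 0`: **closed forms of the two certificates** (helper12, note 19311).

Letters (reals): `R`, `C = R - t₀ - 1`, `A` (the row), `d`, `e`, `p`, `x` = the largest third, `p₀`, `p₁` = the
effective contents of the hub column and of the column of the largest third, `G₀`, `G₁` = gains of the columns,
`T` = upper bound of everything in the smaller thirds, `L` = sum of the losses (any sign).

* `RowFil.I_closes` : `S ≤ s ê + (1 - s) p₀ - L`, `(R - A) ê ≤ R d + 2 e p`;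
* `RowFil.I_closes'`: the same with the letter `ξ = C + 1 - A - x`;
* `RowFil.II_closes`: `S ≤ p₀ + s p₁ + T - L`.
-/

set_option autoImplicit false

namespace Pool.Agent.Lib.MP_f04ccf_co

namespace RowFil

/-- certificate (I), cleared denominators -/
lemma I_num {R C A d e p x p₀ ê G₀ L S δ : ℝ} (hA : 0 < A) (hx : 0 ≤ x) (hK : 0 < R - A)
    (hS : (A + x) * S ≤ x * ê + A * p₀ - (A + x) * L)
    (hê : (R - A) * ê ≤ R * d + 2 * e * p)
    (h0 : (R - A) * p₀ + p₀ * (d - p₀) + G₀ ≤ (R - C - 1) * (d - 1) + R)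
    (H : 2 * x * e * p ≤ A * ((C + 1 - A - x) * d - (C + 1) + p₀ * (d - p₀) + G₀)
      + (A + x) * (R - A) * (L + δ)) :
    S ≤ d + δ := by
  have hAx : 0 < A + x := by linarith
  have h1 : (R - A) * ((A + x) * S) ≤ (R - A) * (x * ê + A * p₀ - (A + x) * L) :=
    mul_le_mul_of_nonneg_left hS hK.le
  have h2 : x * ((R - A) * ê) ≤ x * (R * d + 2 * e * p) := mul_le_mul_of_nonneg_left hê hx
  have h3 : A * ((R - A) * p₀ + p₀ * (d - p₀) + G₀) ≤ A * ((R - C - 1) * (d - 1) + R) :=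
    mul_le_mul_of_nonneg_left h0 hA.le
  have h4 : (A + x) * (R - A) * S ≤ (A + x) * (R - A) * (d + δ) := by nlinarith [h1, h2, h3, H]
  exact le_of_mul_le_mul_left h4 (mul_pos hAx hK)

/-- certificate (I) closes (`s = x / (A + x)`) -/
theorem I_closes {R C A d e p x p₀ ê G₀ L S : ℝ} (hA : 0 < A) (hx : 0 ≤ x) (hK : 0 < R - A)
    (hS : S ≤ x / (A + x) * ê + (1 - x / (A + x)) * p₀ - L)
    (hê : (R - A) * ê ≤ R * d + 2 * e * p)
    (h0 : (R - A) * p₀ + p₀ * (d - p₀) + G₀ ≤ (R - C - 1) * (d - 1) + R)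
    (H : 2 * x * e * p ≤ A * ((C + 1 - A - x) * d - (C + 1) + p₀ * (d - p₀) + G₀
      + (A + x) * (R - A) / (C + 1 / 2)) + (A + x) * (R - A) * L) :
    S ≤ d + A / (C + 1 / 2) := by
  have hAx : 0 < A + x := by linarith
  refine I_num (R := R) (C := C) (e := e) (p := p) (L := L) hA hx hK ?_ hê h0 ?_
  · have h1 : (A + x) * S ≤ (A + x) * (x / (A + x) * ê + (1 - x / (A + x)) * p₀ - L) :=
      mul_le_mul_of_nonneg_left hS hAx.le
    have h2 : (A + x) * (x / (A + x) * ê + (1 - x / (A + x)) * p₀ - L)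
        = x * ê + A * p₀ - (A + x) * L := by field_simp; ring
    linarith
  · have h3 : (A + x) * (R - A) * (L + A / (C + 1 / 2))
        = (A + x) * (R - A) * L + A * ((A + x) * (R - A) / (C + 1 / 2)) := by ring
    rw [h3]; linarith [H]

/-- certificate (I), the letter `ξ = C + 1 - A - x` -/
theorem I_closes' {R C A d e p x ξ p₀ ê G₀ L S : ℝ} (hA : 0 < A) (hx : 0 ≤ x) (hK : 0 < R - A)
    (hC : 0 < C + 1 / 2) (hξ : ξ = C + 1 - A - x)
    (hS : S ≤ x / (A + x) * ê + (1 - x / (A + x)) * p₀ - L)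
    (hê : (R - A) * ê ≤ R * d + 2 * e * p)
    (h0 : (R - A) * p₀ + p₀ * (d - p₀) + G₀ ≤ (R - C - 1) * (d - 1) + R)
    (H : 2 * x * e * p ≤ A * (ξ * d + p₀ * (d - p₀) + G₀ + (R - C - A - 1)
      - (ξ - 1 / 2) * (R - A) / (C + 1 / 2)) + (A + x) * (R - A) * L) :
    S ≤ d + A / (C + 1 / 2) := by
  refine I_closes (C := C) (e := e) (p := p) hA hx hK hS hê h0 ?_
  have h1 : (A + x) * (R - A) / (C + 1 / 2) = (R - A) - (ξ - 1 / 2) * (R - A) / (C + 1 / 2) := by
    rw [hξ, eq_sub_iff_add_eq, ← add_div, div_eq_iff hC.ne']; ring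
  rw [h1]; rw [hξ] at H ⊢; linarith [H]

/-- certificate (II) closes -/
theorem II_closes {R C A d x p₀ p₁ G₀ G₁ T L S : ℝ} (hA : 0 < A) (hx : 0 ≤ x) (hK : 0 < R - A)
    (hS : S ≤ p₀ + x / (A + x) * p₁ + T - L)
    (h0 : (R - A) * p₀ + p₀ * (d - p₀) + G₀ ≤ (R - C - 1) * (d - 1) + R)
    (h1 : (R - A) * p₁ + p₁ * (d - p₁) + G₁ ≤ (x - 1) * (d - 1) + R)
    (H : (A + x) * (A * d - (C + 1) * (d - 1) - p₀ * (d - p₀) - G₀)
      + x * ((x - 1) * (d - 1) + R - p₁ * (d - p₁) - G₁)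
      ≤ (A + x) * (R - A) * (A / (C + 1 / 2) + L - T)) :
    S ≤ d + A / (C + 1 / 2) := by
  have hAx : 0 < A + x := by linarith
  have e1 : (A + x) * S ≤ (A + x) * p₀ + x * p₁ + (A + x) * (T - L) := by
    have h1 : (A + x) * S ≤ (A + x) * (p₀ + x / (A + x) * p₁ + T - L) :=
      mul_le_mul_of_nonneg_left hS hAx.le
    have h2 : (A + x) * (p₀ + x / (A + x) * p₁ + T - L)
        = (A + x) * p₀ + x * p₁ + (A + x) * (T - L) := by field_simp; ring
    linarith
  have e2 : (R - A) * ((A + x) * S) ≤ (R - A) * ((A + x) * p₀ + x * p₁ + (A + x) * (T - L)) :=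
    mul_le_mul_of_nonneg_left e1 hK.le
  have e3 : (A + x) * ((R - A) * p₀ + p₀ * (d - p₀) + G₀) ≤ (A + x) * ((R - C - 1) * (d - 1) + R) :=
    mul_le_mul_of_nonneg_left h0 hAx.le
  have e4 : x * ((R - A) * p₁ + p₁ * (d - p₁) + G₁) ≤ x * ((x - 1) * (d - 1) + R) :=
    mul_le_mul_of_nonneg_left h1 hx
  have h4 : (A + x) * (R - A) * S ≤ (A + x) * (R - A) * (d + A / (C + 1 / 2)) := by
    nlinarith [e2, e3, e4, H]
  exact le_of_mul_le_mul_left h4 (mul_pos hAx hK)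

end RowFil

end Pool.Agent.Lib.MP_f04ccf_co
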