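import Pool.Agent.Lib.MP_f04ccf_co.M.SimL

/-!
MP_f04ccf_co, the middle range: **compaction of a list of lanes by a mask**, in the kernel.

The mask is one packed number `pkL S μ Ls.flatten` (`S = 2^w`), a lane is dead if `Nat.land (μ c) K ≠ 0`
(`K = 2^(w-1)`: the top bit of the lane).

* `filL`, `filB`: the living codes of one block | of all blocks, accumulated in new blocks of length at most
  `cap + 1` (the order of the lanes is not kept), continuation form;
* `fil S K cap Bs m k`: the whole step; **`fil_sound`**: the new list contains every living code of the old one.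
-/

set_option autoImplicit false

namespace Pool.Agent.Lib.MP_f04ccf_co

namespace Sl

section FilM

variable {β : Type}

/-- the living codes of one block -/
noncomputable def filL (S K cap : ℕ) (L : List ℕ) :
    ℕ → List ℕ → ℕ → List (List ℕ) → (List ℕ → ℕ → List (List ℕ) → β) → β :=
  List.rec (motive := fun _ => ℕ → List ℕ → ℕ → List (List ℕ) →
      (List ℕ → ℕ → List (List ℕ) → β) → β)
    (fun _ cur n done k => k cur n done)
    (fun c _ ih m cur n done k =>
      Mid.frN (Nat.div m S) fun m' =>
      Bool.rec (motive := fun _ => β)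
        (ih m' cur n done k)
        (Bool.rec (motive := fun _ => β)
          (Mid.frN (Nat.succ n) fun n' => ih m' (c :: cur) n' done k)
          (ih m' [] 0 ((c :: cur) :: done) k)
          (Nat.beq n cap))
        (Nat.beq (Nat.land (Nat.mod m S) K) 0)) L

/-- the living codes of all blocks -/
noncomputable def filB (S K cap : ℕ) (Bs : List (ℕ × List ℕ)) :
    ℕ → List ℕ → ℕ → List (List ℕ) → (List ℕ → ℕ → List (List ℕ) → β) → β :=
  List.rec (motive := fun _ => ℕ → List ℕ → ℕ → List (List ℕ) →
      (List ℕ → ℕ → List (List ℕ) → β) → β)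
    (fun _ cur n done k => k cur n done)
    (fun B _ ih m cur n done k =>
      Mid.frN (Nat.mod m B.1) fun m1 => Mid.frN (Nat.div m B.1) fun m2 =>
        filL S K cap B.2 m1 cur n done fun cur n done => ih m2 cur n done k) Bs

/-- **the list of the living codes** -/
noncomputable def fil (S K cap : ℕ) (Bs : List (ℕ × List ℕ)) (m : ℕ)
    (k : List (List ℕ) → β) : β :=
  filB S K cap Bs m [] 0 [] fun cur _ done => k (cur :: done)

lemma pkL_lt {S : ℕ} (_hS : 0 < S) {μ : ℕ → ℕ} {L : List ℕ} (h : ∀ c ∈ L, μ c < S) :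
    pkL S μ L < S ^ L.length := by
  induction L with
  | nil => exact Nat.one_pos
  | cons c L ih =>
    have h1 := ih fun c hc => h c (List.mem_cons_of_mem _ hc)
    have h2 := h c List.mem_cons_self
    rw [pkL_cons, List.length_cons, pow_succ]
    have h3 : S * (pkL S μ L + 1) ≤ S * S ^ L.length := Nat.mul_le_mul_left _ h1
    have h4 : S ^ L.length * S = S * S ^ L.length := Nat.mul_comm _ _
    rw [h4]
    nlinarith

lemma filL_sound {S K cap : ℕ} {μ : ℕ → ℕ} : ∀ (L : List ℕ), (∀ c ∈ L, μ c < S) →
    ∀ (cur : List ℕ) (n : ℕ) (done : List (List ℕ)) (k : List ℕ → ℕ → List (List ℕ) → β),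
    ∃ cur' n' done', filL S K cap L (pkL S μ L) cur n done k = k cur' n' done' ∧
      ∀ c, (c ∈ (cur :: done).flatten ∨ (c ∈ L ∧ Nat.land (μ c) K = 0)) →
        c ∈ (cur' :: done').flatten := by
  intro L
  induction L with
  | nil =>
    intro _ cur n done k
    refine ⟨cur, n, done, rfl, fun c hc => ?_⟩
    rcases hc with hc | ⟨hc, -⟩
    · exact hc
    · exact absurd hc List.not_mem_nil
  | cons b L ih =>
    intro h cur n done k
    have hb := h b List.mem_cons_self
    have hL : ∀ c ∈ L, μ c < S := fun c hc => h c (List.mem_cons_of_mem _ hc)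
    have hS : 0 < S := by omega
    have e1 : filL S K cap (b :: L) (pkL S μ (b :: L)) cur n done k
        = Mid.frN (Nat.div (pkL S μ (b :: L)) S) fun m' =>
      Bool.rec (motive := fun _ => β)
        (filL S K cap L m' cur n done k)
        (Bool.rec (motive := fun _ => β)
          (Mid.frN (Nat.succ n) fun n' => filL S K cap L m' (b :: cur) n' done k)
          (filL S K cap L m' [] 0 ((b :: cur) :: done) k)
          (Nat.beq n cap))
        (Nat.beq (Nat.land (Nat.mod (pkL S μ (b :: L)) S) K) 0) := rfl
    have e2 : Nat.div (pkL S μ (b :: L)) S = pkL S μ L := by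
      show (pkL S μ (b :: L)) / S = _
      rw [pkL_cons, Nat.add_mul_div_left _ _ hS, Nat.div_eq_of_lt hb, Nat.zero_add]
    have e3 : Nat.mod (pkL S μ (b :: L)) S = μ b := by
      show (pkL S μ (b :: L)) % S = _
      rw [pkL_cons, Nat.add_mul_mod_self_left, Nat.mod_eq_of_lt hb]
    rw [Mid.frN_eq, e2, e3] at e1
    rcases h1 : Nat.beq (Nat.land (μ b) K) 0 with _ | _
    · rw [h1] at e1
      obtain ⟨cur', n', done', a1, a2⟩ := ih hL cur n done k
      refine ⟨cur', n', done', e1.trans a1, fun c hc => ?_⟩
      rcases hc with hc | ⟨hc, hc'⟩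
      · exact a2 c (Or.inl hc)
      · rcases List.mem_cons.1 hc with rfl | hc
        · rw [hc'] at h1
          exact absurd h1 (by decide)
        · exact a2 c (Or.inr ⟨hc, hc'⟩)
    · rw [h1] at e1
      rcases h2 : Nat.beq n cap with _ | _
      · rw [h2] at e1
        obtain ⟨cur', n', done', a1, a2⟩ := ih hL (b :: cur) (Nat.succ n) done k
        have e4 : filL S K cap (b :: L) (pkL S μ (b :: L)) cur n done k
            = Mid.frN (Nat.succ n) fun n' => filL S K cap L (pkL S μ L) (b :: cur) n' done k := e1
        rw [Mid.frN_eq] at e4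
        refine ⟨cur', n', done', e4.trans a1, fun c hc => ?_⟩
        rcases hc with hc | ⟨hc, hc'⟩
        · refine a2 c (Or.inl ?_)
          rw [List.flatten_cons, List.mem_append] at hc ⊢
          exact hc.imp_left fun h => List.mem_cons_of_mem _ h
        · rcases List.mem_cons.1 hc with rfl | hc
          · refine a2 c (Or.inl ?_)
            rw [List.flatten_cons, List.mem_append]
            exact Or.inl List.mem_cons_self
          · exact a2 c (Or.inr ⟨hc, hc'⟩)
      · rw [h2] at e1
        obtain ⟨cur', n', done', a1, a2⟩ := ih hL [] 0 ((b :: cur) :: done) k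
        have e4 : filL S K cap (b :: L) (pkL S μ (b :: L)) cur n done k
            = filL S K cap L (pkL S μ L) [] 0 ((b :: cur) :: done) k := e1
        refine ⟨cur', n', done', e4.trans a1, fun c hc => ?_⟩
        rcases hc with hc | ⟨hc, hc'⟩
        · refine a2 c (Or.inl ?_)
          rw [List.flatten_cons, List.nil_append, List.flatten_cons, List.mem_append]
          rw [List.flatten_cons, List.mem_append] at hc
          exact hc.imp_left fun h => List.mem_cons_of_mem _ h
        · rcases List.mem_cons.1 hc with rfl | hc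
          · refine a2 c (Or.inl ?_)
            rw [List.flatten_cons, List.nil_append, List.flatten_cons, List.mem_append]
            exact Or.inl List.mem_cons_self
          · exact a2 c (Or.inr ⟨hc, hc'⟩)

lemma filB_sound {S K cap : ℕ} (hS : 0 < S) {μ : ℕ → ℕ} : ∀ (Ls : List (List ℕ)),
    (∀ c ∈ Ls.flatten, μ c < S) →
    ∀ (cur : List ℕ) (n : ℕ) (done : List (List ℕ)) (k : List ℕ → ℕ → List (List ℕ) → β),
    ∃ cur' n' done', filB S K cap (Ls.map fun L => (S ^ L.length, L)) (pkL S μ Ls.flatten)
        cur n done k = k cur' n' done' ∧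
      ∀ c, (c ∈ (cur :: done).flatten ∨ (c ∈ Ls.flatten ∧ Nat.land (μ c) K = 0)) →
        c ∈ (cur' :: done').flatten := by
  intro Ls
  induction Ls with
  | nil =>
    intro _ cur n done k
    refine ⟨cur, n, done, rfl, fun c hc => ?_⟩
    rcases hc with hc | ⟨hc, -⟩
    · exact hc
    · exact absurd hc List.not_mem_nil
  | cons L Ls ih =>
    intro h cur n done k
    have hL : ∀ c ∈ L, μ c < S := fun c hc => h c (by
      rw [List.flatten_cons, List.mem_append]
      exact Or.inl hc)
    have hLs : ∀ c ∈ Ls.flatten, μ c < S := fun c hc => h c (by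
      rw [List.flatten_cons, List.mem_append]
      exact Or.inr hc)
    have h1 := pkL_lt hS hL
    have hp : 0 < S ^ L.length := Nat.pow_pos hS
    have e1 : filB S K cap ((L :: Ls).map fun L => (S ^ L.length, L)) (pkL S μ (L :: Ls).flatten)
        cur n done k
        = Mid.frN (Nat.mod (pkL S μ (L :: Ls).flatten) (S ^ L.length)) fun m1 =>
          Mid.frN (Nat.div (pkL S μ (L :: Ls).flatten) (S ^ L.length)) fun m2 =>
          filL S K cap L m1 cur n done fun cur n done =>
            filB S K cap (Ls.map fun L => (S ^ L.length, L)) m2 cur n done k := rfl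
    have e2 : Nat.mod (pkL S μ (L :: Ls).flatten) (S ^ L.length) = pkL S μ L := by
      show (pkL S μ (L :: Ls).flatten) % (S ^ L.length) = _
      rw [List.flatten_cons, pkL_append, Nat.add_mul_mod_self_left, Nat.mod_eq_of_lt h1]
    have e3 : Nat.div (pkL S μ (L :: Ls).flatten) (S ^ L.length) = pkL S μ Ls.flatten := by
      show (pkL S μ (L :: Ls).flatten) / (S ^ L.length) = _
      rw [List.flatten_cons, pkL_append, Nat.add_mul_div_left _ _ hp, Nat.div_eq_of_lt h1,
        Nat.zero_add]
    rw [Mid.frN_eq, Mid.frN_eq, e2, e3] at e1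
    obtain ⟨cur1, n1, done1, a1, a2⟩ := filL_sound (K := K) (cap := cap) L hL cur n done
      fun cur n done => filB S K cap (Ls.map fun L => (S ^ L.length, L)) (pkL S μ Ls.flatten)
        cur n done k
    obtain ⟨cur2, n2, done2, b1, b2⟩ := ih hLs cur1 n1 done1 k
    refine ⟨cur2, n2, done2, e1.trans (a1.trans b1), fun c hc => ?_⟩
    rcases hc with hc | ⟨hc, hc'⟩
    · exact b2 c (Or.inl (a2 c (Or.inl hc)))
    · rw [List.flatten_cons, List.mem_append] at hc
      rcases hc with hc | hc
      · exact b2 c (Or.inl (a2 c (Or.inr ⟨hc, hc'⟩)))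
      · exact b2 c (Or.inr ⟨hc, hc'⟩)

/-- **soundness of the compaction** -/
theorem fil_sound {S K cap : ℕ} (hS : 0 < S) {μ : ℕ → ℕ} {Ls : List (List ℕ)}
    (h : ∀ c ∈ Ls.flatten, μ c < S) (k : List (List ℕ) → β) :
    ∃ Ls', fil S K cap (Ls.map fun L => (S ^ L.length, L)) (pkL S μ Ls.flatten) k = k Ls' ∧
      ∀ c ∈ Ls.flatten, Nat.land (μ c) K = 0 → c ∈ Ls'.flatten := by
  obtain ⟨cur', n', done', a1, a2⟩ := filB_sound (K := K) (cap := cap) hS Ls h [] 0 []
    fun cur _ done => k (cur :: done)
  exact ⟨cur' :: done', a1, fun c hc hc' => a2 c (Or.inr ⟨hc, hc'⟩)⟩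

end FilM

section test

/-- a small test: lanes of 8 bits, codes 1 .. 6, dead: 2 and 5 -/
example : fil (β := Bool) 256 128 2 [(256 ^ 3, [1, 2, 3]), (256 ^ 3, [4, 5, 6])]
    (Nat.add (Nat.mul 128 256) (Nat.mul 128 (256 ^ 4)))
    (fun Ls => Nat.beq (Ls.flatten.length) 4) = true := by decide +kernel

end test

end Sl

end Pool.Agent.Lib.MP_f04ccf_co
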