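import Pool.Agent.Lib.MP_f04ccf_co.M.UnR

/-!
MP_f04ccf_co, TEXT D: **the row test with the columns of `j` in d-form, units, any choice of the tails `X`, `Y`**
(companion of M/FilT and M/FilU).

`d = mu z - s z`, `A = t z + 1`, `c = R - t j`, used units `S` (`k = #S`, misses `B = ∑ bt`, `q` of them PC pairs of the
host `j`, `f` full ones of the host `j`, `k₃` of other hosts).  The Konig pairs of the tails in `X`, the block pairs
of the tails in `Y ⊆ X` (`j ∉ X`) and the plain hosted items of `D` (`g = #D`) leave; `m` the hosted value which stays,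
`E = m + k`, `W = m + 2 k - q`, `M = be z j + q`, `SA` the hits of the kept hosted units.

* `PCon.dP`: `E < d + g`, or
  `2 c (k - 1) + 2 SA + (m + q) (W + 1) + sv + 2 q f ≤ 2 (A E + B) + 2 (t j - W) (d + g - E) + N + M (M + 1)
    + 2 ∑ ar + 4 k₃ c`;
* `PCon.dP0`: the same when every used item is used once (no alternative).
-/

set_option autoImplicit false

namespace Pool.Agent.Lib.MP_f04ccf_co

open Finset

attribute [local instance] Classical.propDecidable

section FilP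

variable {ι κ : Type*} {R : ℤ} {n : ℕ} {t s mu : ℕ → ℤ} {U : Finset ι} {ho : ι → ℕ} {vl : ι → ℤ}
  {kp mn : ℕ → ι → ℤ} {pc ar : ι → ℤ} {be kq NN sg : ℕ → ℕ → ℤ} {nu : ℕ → ι → ℤ}
  {V : Finset κ} {it : κ → ι} {C : κ → Finset ℕ} {bt ht : κ → ℕ → ℤ} {z : ℕ} {S : Finset κ}

/-- **the row test with the columns of `j` in d-form** -/
theorem PCon.dP (H : PCon R n t s mu U ho vl kp mn pc ar be kq NN sg nu)
    (hV : UnP R n t U ho vl kp mn V it C bt ht) (hz : z < n) {j : ℕ} (hj : j < n) (hjz : j ≠ z)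
    (hS : S ⊆ V.filter fun v => z ∈ C v) {X Y : Finset ℕ} (hX : X ⊆ range n) (hjX : j ∉ X)
    (hY : Y ⊆ X) {D : Finset ι} (hD : D ⊆ U) (hDz : ∀ u ∈ D, ho u = z ∧ pc u = 0)
    {q f d m g : ℤ} (hq : q = ∑ v ∈ S, if ho (it v) = j then pc (it v) else 0)
    (hf : f = ((S.filter fun v => ho (it v) = j ∧ pc (it v) = 0
      ∧ ∀ l < n, l ≠ z → kp l (it v) = 0).card : ℤ))
    (hd : d = mu z - s z)
    (hm : m = mu z - ∑ l ∈ X, kq z l - ∑ l ∈ Y, (be z l - kq z l) - ∑ u ∈ D, vl u)
    (hg : g = (D.card : ℤ)) :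
    m + (S.card : ℤ) < d + g ∨
    2 * ((R - t j) * ((S.card : ℤ) - 1))
      + 2 * ∑ v ∈ V.filter (fun v => ho (it v) = z ∧ it v ∉ D), ht v j
      + (m + q) * (m + 2 * (S.card : ℤ) - q + 1)
      + svU n ho vl it (S.filter fun v => ho (it v) = j → pc (it v) = 0) + 2 * (q * f)
      ≤ 2 * ((t z + 1) * (m + (S.card : ℤ)) + ∑ v ∈ S, bt v z)
        + 2 * ((t j - (m + 2 * (S.card : ℤ) - q)) * (d + g - (m + (S.card : ℤ))))
        + (∑ l ∈ X \ Y, (be z l - kq z l) * (be z l - kq z l + 1)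
          + ∑ l ∈ ((range n).erase z).erase j \ X, NN z l
          + 2 * ∑ l ∈ Y, (be z l - kq z l) * (sg z l
            + ((U.filter fun u => ho u = z ∧ u ∉ D ∧ pc u = 0 ∧ kp l u ≠ 0).card : ℤ)))
        + (be z j + q) * (be z j + q + 1)
        + 2 * ∑ u ∈ (S.image it).filter (fun u => ho u = j), (1 - pc u) * ar u
        + 4 * (((S.filter fun v => ho (it v) ≠ j).card : ℤ) * (R - t j)) := by
  have h1 : ∑ u ∈ D, (vl u + 1) = ∑ u ∈ D, vl u + g := by
    rw [sum_add_distrib, sum_const, nsmul_eq_mul, mul_one, hg]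
  have h2 : s z - (∑ l ∈ X, kq z l + ∑ l ∈ Y, (be z l - kq z l) + ∑ u ∈ D, (vl u + 1))
      + (S.card : ℤ) = m + (S.card : ℤ) - (d + g) := by
    rw [h1, hd, hm]
    ring
  by_cases h3 : m + (S.card : ℤ) < d + g
  · exact Or.inl h3
  · right
    have h4 := H.unP hV hz hj hjz hS hX hjX hY hD hDz hq hf (by rw [h2]; linarith)
    unfold TstP at h4
    rw [h2, ← hm] at h4
    linarith

/-- the same, every used item once -/
theorem PCon.dP0 (H : PCon R n t s mu U ho vl kp mn pc ar be kq NN sg nu)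
    (hV : UnP R n t U ho vl kp mn V it C bt ht) (hz : z < n) {j : ℕ} (hj : j < n) (hjz : j ≠ z)
    (hS : S ⊆ V.filter fun v => z ∈ C v) (h1S : ∀ v ∈ S, ∀ v' ∈ S, it v = it v' → v = v')
    {X Y : Finset ℕ} (hX : X ⊆ range n) (hjX : j ∉ X)
    (hY : Y ⊆ X) {D : Finset ι} (hD : D ⊆ U) (hDz : ∀ u ∈ D, ho u = z ∧ pc u = 0)
    {q f d m g : ℤ} (hq : q = ∑ v ∈ S, if ho (it v) = j then pc (it v) else 0)
    (hf : f = ((S.filter fun v => ho (it v) = j ∧ pc (it v) = 0
      ∧ ∀ l < n, l ≠ z → kp l (it v) = 0).card : ℤ))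
    (hd : d = mu z - s z)
    (hm : m = mu z - ∑ l ∈ X, kq z l - ∑ l ∈ Y, (be z l - kq z l) - ∑ u ∈ D, vl u)
    (hg : g = (D.card : ℤ)) :
    2 * ((R - t j) * ((S.card : ℤ) - 1))
      + 2 * ∑ v ∈ V.filter (fun v => ho (it v) = z ∧ it v ∉ D), ht v j
      + (m + q) * (m + 2 * (S.card : ℤ) - q + 1)
      + svU n ho vl it (S.filter fun v => ho (it v) = j → pc (it v) = 0) + 2 * (q * f)
      ≤ 2 * ((t z + 1) * (m + (S.card : ℤ)) + ∑ v ∈ S, bt v z)
        + 2 * ((t j - (m + 2 * (S.card : ℤ) - q)) * (d + g - (m + (S.card : ℤ))))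
        + (∑ l ∈ X \ Y, (be z l - kq z l) * (be z l - kq z l + 1)
          + ∑ l ∈ ((range n).erase z).erase j \ X, NN z l
          + 2 * ∑ l ∈ Y, (be z l - kq z l) * (sg z l
            + ((U.filter fun u => ho u = z ∧ u ∉ D ∧ pc u = 0 ∧ kp l u ≠ 0).card : ℤ)))
        + (be z j + q) * (be z j + q + 1)
        + 2 * ∑ u ∈ (S.image it).filter (fun u => ho u = j), (1 - pc u) * ar u
        + 4 * (((S.filter fun v => ho (it v) ≠ j).card : ℤ) * (R - t j)) := by
  have h1 : ∑ u ∈ D, (vl u + 1) = ∑ u ∈ D, vl u + g := by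
    rw [sum_add_distrib, sum_const, nsmul_eq_mul, mul_one, hg]
  have h2 : s z - (∑ l ∈ X, kq z l + ∑ l ∈ Y, (be z l - kq z l) + ∑ u ∈ D, (vl u + 1))
      + (S.card : ℤ) = m + (S.card : ℤ) - (d + g) := by
    rw [h1, hd, hm]
    ring
  obtain ⟨h3, h4, h5, h6, h7, -⟩ := hV.use hz hS
  have h0 : S ⊆ V := hS.trans (filter_subset _ _)
  have h9 := H.tP z hz j hj hjz X hX hjX Y hY D hD hDz _ h3 h4 (fun u => lvU it S u) h5 h6
  -- every item is used once
  have hlv : ∀ u ∈ S.image it, lvU it S u = 1 := by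
    intro u hu
    refine le_antisymm (card_le_one.2 fun a ha b hb => ?_) (lvU_pos hu)
    obtain ⟨ha1, ha2⟩ := mem_filter.1 ha
    obtain ⟨hb1, hb2⟩ := mem_filter.1 hb
    exact h1S a ha1 b hb1 (ha2.trans hb2.symm)
  have hinj : Set.InjOn it (S : Set κ) := fun v hv v' hv' h => h1S v (mem_coe.1 hv) v'
    (mem_coe.1 hv') h
  have hc : ((S.image it).card : ℤ) = (S.card : ℤ) := by
    rw [card_image_of_injOn hinj]
  have e1 : ∑ u ∈ S.image it, (if ho u = j then pc u else 0) = q := by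
    rw [hq, sum_image fun v hv v' hv' h => h1S v hv v' hv' h]
  have e2 : (((S.image it).filter fun u => ho u = j ∧ pc u = 0
      ∧ ∀ l < n, l ≠ z → kp l u = 0).card : ℤ) = f := by
    rw [hf, hV.card_one h0 (fun u => ho u = j ∧ pc u = 0 ∧ ∀ l < n, l ≠ z → kp l u = 0)]
    rintro u hu ⟨h10, h11, h12⟩
    rcases H.one u hu with ⟨i, -, -, h13, -⟩ | ⟨-, h13⟩
    · exact h13
    · exfalso
      have h14 : ∑ i ∈ range n, kp i u = kp z u :=
        sum_eq_single_of_mem z (mem_range.2 hz) fun l hl hlz => h12 l (mem_range.1 hl) hlz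
      have h15 := H.kv u hu z hz
      linarith
  have e3 : ∑ u ∈ S.image it, ((lvU it S u : ℤ) + 1 - if ho u = j then pc u else 0)
      = 2 * (S.card : ℤ) - q := by
    rw [sum_sub_distrib, e1, sum_add_distrib, sum_lvU, sum_const, nsmul_eq_mul, mul_one, hc]
    ring
  have e4 : ∑ u ∈ S.image it, (if ho u = j then (1 - pc u) * ar u
      else ((lvU it S u : ℤ) + 1) * (R - t j))
      = ∑ u ∈ (S.image it).filter (fun u => ho u = j), (1 - pc u) * ar u
        + 2 * (((S.filter fun v => ho (it v) ≠ j).card : ℤ) * (R - t j)) := by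
    rw [← sum_filter_add_sum_filter_not (S.image it) (fun u => ho u = j)]
    congr 1
    · exact sum_congr rfl fun u hu => if_pos (mem_filter.1 hu).2
    · have h10 : ∀ u ∈ (S.image it).filter (fun u => ¬ ho u = j), (if ho u = j
          then (1 - pc u) * ar u else ((lvU it S u : ℤ) + 1) * (R - t j)) = 2 * (R - t j) := by
        intro u hu
        obtain ⟨h11, h12⟩ := mem_filter.1 hu
        rw [if_neg h12, hlv u h11]
        norm_num
      have h11 : ((S.image it).filter fun u => ¬ ho u = j).card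
          = (S.filter fun v => ho (it v) ≠ j).card := by
        have h12 : (S.image it).filter (fun u => ¬ ho u = j)
            = (S.filter fun v => ho (it v) ≠ j).image it := by
          ext u
          simp only [mem_filter, mem_image]
          constructor
          · rintro ⟨⟨v, hv, rfl⟩, h12⟩
            exact ⟨v, ⟨hv, h12⟩, rfl⟩
          · rintro ⟨v, ⟨hv, h12⟩, rfl⟩
            exact ⟨⟨v, hv, rfl⟩, h12⟩
        rw [h12, card_image_of_injOn]
        exact hinj.mono fun v hv => mem_coe.2 (mem_filter.1 (mem_coe.1 hv)).1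
      rw [sum_congr rfl h10, sum_const, nsmul_eq_mul, h11]
      ring
  have h10 := hV.sv_le h0 fun u => ho u = j → pc u = 0
  have h11 := hV.hosted hj hjz D
  rw [sum_lvU, e1, e2, e3, e4] at h9
  unfold TstP at h9
  rw [h2, ← hm] at h9
  linarith

end FilP

end Pool.Agent.Lib.MP_f04ccf_co
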