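import Pool.Agent.Lib.MP_f04ccf_co.M.UnR

/-!
MP_f04ccf_co, TEXT D: **tzN and the exact row test in d-form, units** (companion of M/FilU).

`d = mu z - s z`, `A = t z + 1`, used units `S` (`k = #S`, misses `B = ∑ bt`).  The Konig pairs of the tails in `X`,
the block pairs of the tails in `Y ⊆ X` and the plain hosted items of `D` (`g = #D`) leave; `m` the hosted value
which stays, `E = m + k`, `W = m + 2 k`.

* `PCon.dN`: `(R - 2 e) (e - d) ≤ A e + B`, `e = mu z + k`;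
* `PCon.dT`: `E ≤ d + g`, or `m (W + 1) + sv ≤ 2 (A E + B) + 2 (R - W) (d + g - E) + N`;
* `PCon.dT0`: the same when every used item is used once (no alternative);
* `PCon.dTK`: all PC pairs stay (`X = ∅`), `PCon.dTX`: all Konig pairs leave, the block pairs stay.
-/

set_option autoImplicit false

namespace Pool.Agent.Lib.MP_f04ccf_co

open Finset

attribute [local instance] Classical.propDecidable

section FilT

variable {ι κ : Type*} {R : ℤ} {n : ℕ} {t s mu : ℕ → ℤ} {U : Finset ι} {ho : ι → ℕ} {vl : ι → ℤ}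
  {kp mn : ℕ → ι → ℤ} {pc ar : ι → ℤ} {be kq NN sg : ℕ → ℕ → ℤ} {nu : ℕ → ι → ℤ}
  {V : Finset κ} {it : κ → ι} {C : κ → Finset ℕ} {bt ht : κ → ℕ → ℤ} {z : ℕ} {S : Finset κ}

/-- **tzN in d-form** -/
theorem PCon.dN (H : PCon R n t s mu U ho vl kp mn pc ar be kq NN sg nu)
    (hV : UnP R n t U ho vl kp mn V it C bt ht) (hz : z < n)
    (hS : S ⊆ V.filter fun v => z ∈ C v) {d e : ℤ} (hd : d = mu z - s z)
    (he : e = mu z + (S.card : ℤ)) (h2 : 2 * e ≤ R) :
    (R - 2 * e) * (e - d) ≤ (t z + 1) * e + ∑ v ∈ S, bt v z := by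
  have h1 := H.unN hV hz hS (by rw [← he]; exact h2)
  rw [← he] at h1
  have h3 : e - d = s z + (S.card : ℤ) := by rw [hd, he]; ring
  rw [h3]
  exact h1

/-- **the exact row test in d-form** -/
theorem PCon.dT (H : PCon R n t s mu U ho vl kp mn pc ar be kq NN sg nu)
    (hV : UnP R n t U ho vl kp mn V it C bt ht) (hz : z < n)
    (hS : S ⊆ V.filter fun v => z ∈ C v) {X Y : Finset ℕ} (hX : X ⊆ range n) (hY : Y ⊆ X)
    {D : Finset ι} (hD : D ⊆ U) (hDz : ∀ u ∈ D, ho u = z ∧ pc u = 0) {d m g : ℤ}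
    (hd : d = mu z - s z)
    (hm : m = mu z - ∑ l ∈ X, kq z l - ∑ l ∈ Y, (be z l - kq z l) - ∑ u ∈ D, vl u)
    (hg : g = (D.card : ℤ)) :
    m + (S.card : ℤ) < d + g ∨
    m * (m + 2 * (S.card : ℤ) + 1) + svU n ho vl it S
      ≤ 2 * ((t z + 1) * (m + (S.card : ℤ)) + ∑ v ∈ S, bt v z)
        + 2 * ((R - (m + 2 * (S.card : ℤ))) * (d + g - (m + (S.card : ℤ))))
        + (∑ l ∈ X \ Y, (be z l - kq z l) * (be z l - kq z l + 1)
          + ∑ l ∈ (range n).erase z \ X, NN z l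
          + 2 * ∑ l ∈ Y, (be z l - kq z l) * (sg z l
            + ((U.filter fun u => ho u = z ∧ u ∉ D ∧ pc u = 0 ∧ kp l u ≠ 0).card : ℤ))) := by
  have h1 : ∑ u ∈ D, (vl u + 1) = ∑ u ∈ D, vl u + g := by
    rw [sum_add_distrib, sum_const, nsmul_eq_mul, mul_one, hg]
  have h2 : s z - (∑ l ∈ X, kq z l + ∑ l ∈ Y, (be z l - kq z l) + ∑ u ∈ D, (vl u + 1))
      + (S.card : ℤ) = m + (S.card : ℤ) - (d + g) := by
    rw [h1, hd, hm]
    ring
  by_cases h3 : m + (S.card : ℤ) < d + g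
  · exact Or.inl h3
  · right
    have h4 := H.unT hV hz hS hX hY hD hDz (by rw [h2]; linarith)
    unfold TstP at h4
    rw [h2, ← hm] at h4
    linarith

/-- the same, every used item once -/
theorem PCon.dT0 (H : PCon R n t s mu U ho vl kp mn pc ar be kq NN sg nu)
    (hV : UnP R n t U ho vl kp mn V it C bt ht) (hz : z < n)
    (hS : S ⊆ V.filter fun v => z ∈ C v) (h1S : ∀ v ∈ S, ∀ v' ∈ S, it v = it v' → v = v')
    {X Y : Finset ℕ} (hX : X ⊆ range n) (hY : Y ⊆ X)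
    {D : Finset ι} (hD : D ⊆ U) (hDz : ∀ u ∈ D, ho u = z ∧ pc u = 0) {d m g : ℤ}
    (hd : d = mu z - s z)
    (hm : m = mu z - ∑ l ∈ X, kq z l - ∑ l ∈ Y, (be z l - kq z l) - ∑ u ∈ D, vl u)
    (hg : g = (D.card : ℤ)) :
    m * (m + 2 * (S.card : ℤ) + 1) + svU n ho vl it S
      ≤ 2 * ((t z + 1) * (m + (S.card : ℤ)) + ∑ v ∈ S, bt v z)
        + 2 * ((R - (m + 2 * (S.card : ℤ))) * (d + g - (m + (S.card : ℤ))))
        + (∑ l ∈ X \ Y, (be z l - kq z l) * (be z l - kq z l + 1)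
          + ∑ l ∈ (range n).erase z \ X, NN z l
          + 2 * ∑ l ∈ Y, (be z l - kq z l) * (sg z l
            + ((U.filter fun u => ho u = z ∧ u ∉ D ∧ pc u = 0 ∧ kp l u ≠ 0).card : ℤ))) := by
  have h1 : ∑ u ∈ D, (vl u + 1) = ∑ u ∈ D, vl u + g := by
    rw [sum_add_distrib, sum_const, nsmul_eq_mul, mul_one, hg]
  have h2 : s z - (∑ l ∈ X, kq z l + ∑ l ∈ Y, (be z l - kq z l) + ∑ u ∈ D, (vl u + 1))
      + (S.card : ℤ) = m + (S.card : ℤ) - (d + g) := by
    rw [h1, hd, hm]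
    ring
  obtain ⟨h3, h4, h5, h6, h7, -⟩ := hV.use hz hS
  have h9 := H.tT z hz X hX Y hY D hD hDz _ h3 h4 (fun u => lvU it S u) h5 h6
  have hc : ((S.image it).card : ℤ) = (S.card : ℤ) := by
    rw [card_image_of_injOn fun v hv v' hv' h => h1S v (mem_coe.1 hv) v' (mem_coe.1 hv') h]
  rw [sum_add_distrib, sum_lvU, sum_const, nsmul_eq_mul, mul_one, hc] at h9
  have h10 := hV.sv_le (hS.trans (filter_subset _ _)) fun _ => True
  simp only [filter_true] at h10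
  unfold TstP at h9
  have h11 : s z - (∑ l ∈ X, kq z l + ∑ l ∈ Y, (be z l - kq z l) + ∑ u ∈ D, (vl u + 1))
      + (S.card : ℤ) = m + (S.card : ℤ) - (d + g) := h2
  rw [h11, ← hm] at h9
  linarith

/-- all PC pairs stay -/
theorem PCon.dTK (H : PCon R n t s mu U ho vl kp mn pc ar be kq NN sg nu)
    (hV : UnP R n t U ho vl kp mn V it C bt ht) (hz : z < n)
    (hS : S ⊆ V.filter fun v => z ∈ C v)
    {D : Finset ι} (hD : D ⊆ U) (hDz : ∀ u ∈ D, ho u = z ∧ pc u = 0) {d m g : ℤ}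
    (hd : d = mu z - s z) (hm : m = mu z - ∑ u ∈ D, vl u) (hg : g = (D.card : ℤ)) :
    m + (S.card : ℤ) < d + g ∨
    m * (m + 2 * (S.card : ℤ) + 1) + svU n ho vl it S
      ≤ 2 * ((t z + 1) * (m + (S.card : ℤ)) + ∑ v ∈ S, bt v z)
        + 2 * ((R - (m + 2 * (S.card : ℤ))) * (d + g - (m + (S.card : ℤ))))
        + ∑ l ∈ (range n).erase z, NN z l := by
  have h1 := H.dT hV hz hS (X := ∅) (Y := ∅) (empty_subset _) (empty_subset _) hD hDz hd
    (m := m) (by rw [hm]; simp) hg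
  simpa using h1

/-- all Konig pairs leave, the block pairs stay -/
theorem PCon.dTX (H : PCon R n t s mu U ho vl kp mn pc ar be kq NN sg nu)
    (hV : UnP R n t U ho vl kp mn V it C bt ht) (hz : z < n)
    (hS : S ⊆ V.filter fun v => z ∈ C v)
    {D : Finset ι} (hD : D ⊆ U) (hDz : ∀ u ∈ D, ho u = z ∧ pc u = 0) {d m g : ℤ}
    (hd : d = mu z - s z)
    (hm : m = mu z - ∑ l ∈ (range n).erase z, kq z l - ∑ u ∈ D, vl u) (hg : g = (D.card : ℤ)) :
    m + (S.card : ℤ) < d + g ∨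
    m * (m + 2 * (S.card : ℤ) + 1) + svU n ho vl it S
      ≤ 2 * ((t z + 1) * (m + (S.card : ℤ)) + ∑ v ∈ S, bt v z)
        + 2 * ((R - (m + 2 * (S.card : ℤ))) * (d + g - (m + (S.card : ℤ))))
        + ∑ l ∈ (range n).erase z, (be z l - kq z l) * (be z l - kq z l + 1) := by
  have h1 := H.dT hV hz hS (X := (range n).erase z) (Y := ∅) (erase_subset _ _) (empty_subset _)
    hD hDz hd (m := m) (by rw [hm]; simp) hg
  simpa using h1

end FilT

end Pool.Agent.Lib.MP_f04ccf_co
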