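import Pool.Agent.Lib.MP_f04ccf_co.M.UnR

/-!
MP_f04ccf_co, TEXT D: **THE CELL FILTER** (test `T+_z(j)`, all thirds out, PC pairs of the cell joint) over
`PCon`.

Letters: row `z`, `A = t z + 1`, `d = mu z - s z`, cell `j`, `c_j = R - t j`; `D` plain hosted items which leave,
`P` the other plain hosted items (`m` their value), all PC pairs of the tails `l ≠ j` leave, those of tail `j`
are kept; used: items of host `j` (`q` of them PC, `k` pieces of `κ` plain items), `M = be z j + q`,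
`E = m + M + k`, `W = m + M + k + κ`.

* `PCon.filK`: item form, no further condition;
* `PCon.filU`: unit form (`κ = k`), if all used plain items have one used unit or `d + g - E` is small;
* `PCon.ar_le`, `PCon.ar_full`: the arcs of a plain item.
-/

set_option autoImplicit false

namespace Pool.Agent.Lib.MP_f04ccf_co

open Finset

attribute [local instance] Classical.propDecidable

section FilU

variable {ι κ : Type*} {R : ℤ} {n : ℕ} {t s mu : ℕ → ℤ} {U : Finset ι} {ho : ι → ℕ} {vl : ι → ℤ}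
  {kp mn : ℕ → ι → ℤ} {pc ar : ι → ℤ} {be kq NN sg : ℕ → ℕ → ℤ} {nu : ℕ → ι → ℤ}
  {V : Finset κ} {it : κ → ι} {C : κ → Finset ℕ} {bt ht : κ → ℕ → ℤ} {z j : ℕ}

/-- `a (a - 1)` is not negative over the naturals -/
lemma tri_nonneg' (a : ℕ) : 0 ≤ (a : ℤ) * ((a : ℤ) - 1) := by
  rcases Nat.eq_zero_or_pos a with h | h
  · rw [h]
    norm_num
  · have h1 : (1 : ℤ) ≤ a := by exact_mod_cast h
    exact mul_nonneg (by linarith) (by linarith)

/-- a PC item: value one, one end, no misses -/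
lemma PCon.pc_fact (H : PCon R n t s mu U ho vl kp mn pc ar be kq NN sg nu) {u : ι} (hu : u ∈ U)
    (h : pc u ≠ 0) : pc u = 1 ∧ vl u = 1 ∧ (∀ l < n, mn l u = 0) ∧ ∑ l ∈ range n, kp l u = 1 := by
  refine ⟨?_, H.pcv u hu h, ?_⟩
  · rcases H.pc01 u hu with h1 | h1
    · exact absurd h1 h
    · exact h1
  · rcases H.one u hu with ⟨i, hi, h1, -, h2, h3⟩ | ⟨h1, -⟩
    · refine ⟨fun l hl => ?_, ?_⟩
      · by_cases h4 : l = i
        · rw [h4]
          exact h2
        · exact H.mnz u hu l hl (h3 l hl h4)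
      · rw [sum_eq_single_of_mem i (mem_range.2 hi) fun l hl hli => h3 l (mem_range.1 hl) hli]
        exact h1
    · exact absurd h1 h

/-- a sum over the kept hosted items: PC items and plain items -/
lemma PCon.split_pc (H : PCon R n t s mu U ho vl kp mn pc ar be kq NN sg nu) {D : Finset ι}
    (hDz : ∀ u ∈ D, ho u = z ∧ pc u = 0) (F : ι → ℤ) :
    ∑ u ∈ U.filter (fun u => ho u = z ∧ u ∉ D), F u
      = ∑ u ∈ U.filter (fun u => ho u = z), pc u * F u
        + ∑ u ∈ U.filter (fun u => ho u = z ∧ u ∉ D ∧ pc u = 0), F u := by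
  rw [sum_filter, sum_filter, sum_filter, ← sum_add_distrib]
  refine sum_congr rfl fun u hu => ?_
  by_cases h1 : ho u = z
  · rcases H.pc01 u hu with h2 | h2
    · by_cases h3 : u ∈ D
      · rw [if_neg (fun h => h.2 h3), if_pos h1, if_neg (fun h => h.2.1 h3), h2]
        ring
      · rw [if_pos ⟨h1, h3⟩, if_pos h1, if_pos ⟨h1, h3, h2⟩, h2]
        ring
    · have h3 : u ∉ D := fun h => by
        have := (hDz u h).2
        rw [h2] at this
        exact absurd this (by norm_num)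
      rw [if_pos ⟨h1, h3⟩, if_pos h1, if_neg, h2]
      · ring
      · rintro ⟨-, -, h4⟩
        rw [h2] at h4
        exact absurd h4 (by norm_num)
  · rw [if_neg (fun h => h1 h.1), if_neg h1, if_neg (fun h => h1 h.1)]
    ring

/-- the PC items of a host by the tails -/
lemma PCon.pc_tails (H : PCon R n t s mu U ho vl kp mn pc ar be kq NN sg nu) (hz : z < n) :
    ∑ u ∈ U.filter (fun u => ho u = z), pc u = ∑ l ∈ (range n).erase z, be z l := by
  have h1 : be z z = 0 := by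
    rw [← H.pcb z hz z hz]
    refine sum_eq_zero fun u hu => ?_
    obtain ⟨h2, h3⟩ := mem_filter.1 hu
    have h4 := H.kh u h2
    rw [h3] at h4
    rw [h4, mul_zero]
  have h2 : ∑ l ∈ (range n).erase z, be z l = ∑ l ∈ range n, be z l := by
    have := add_sum_erase (range n) (fun l => be z l) (mem_range.2 hz)
    beta_reduce at this
    linarith
  rw [h2, sum_congr rfl fun l hl => (H.pcb z hz l (mem_range.1 hl)).symm, sum_comm]
  refine sum_congr rfl fun u hu => ?_
  rw [← mul_sum]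
  by_cases h3 : pc u = 0
  · rw [h3, zero_mul]
  · rw [(H.pc_fact (mem_filter.1 hu).1 h3).2.2.2, mul_one]

/-- the arcs of a plain item -/
lemma PCon.ar_le (H : PCon R n t s mu U ho vl kp mn pc ar be kq NN sg nu) {u : ι} (hu : u ∈ U)
    (h : pc u = 0) :
    ar u ≤ ∑ l ∈ ((range n).erase (ho u)).filter (fun l => kp l u ≠ 0), be (ho u) l := by
  have h1 := H.arU u hu
  rw [h, zero_add] at h1
  refine h1.trans (le_of_eq ?_)
  rw [sum_filter]
  refine sum_congr rfl fun l hl => ?_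
  rw [H.nup u hu h l (mem_range.1 (mem_of_mem_erase hl)), zero_add, sub_zero]
  by_cases h2 : kp l u = 0
  · rw [if_pos h2, if_neg (fun h3 => h3 h2)]
  · rw [if_neg h2, if_pos h2]

/-- the arcs of a plain item whose ends are in the set `L` -/
lemma PCon.ar_in (H : PCon R n t s mu U ho vl kp mn pc ar be kq NN sg nu) {u : ι} (hu : u ∈ U)
    (h : pc u = 0) {L : Finset ℕ} (hL : L ⊆ range n) (h2 : ∀ l < n, kp l u ≠ 0 → l ∈ L) :
    ar u ≤ ∑ l ∈ L, be (ho u) l := by
  refine (H.ar_le hu h).trans (sum_le_sum_of_subset_of_nonneg ?_ ?_)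
  · intro l hl
    obtain ⟨h3, h4⟩ := mem_filter.1 hl
    exact h2 l (mem_range.1 (mem_of_mem_erase h3)) h4
  · intro l hl _
    exact H.be0 (ho u) (H.hlt u hu) l (mem_range.1 (hL hl))

/-- **THE CELL FILTER, item form** -/
theorem PCon.filK (H : PCon R n t s mu U ho vl kp mn pc ar be kq NN sg nu) (hz : z < n)
    (hj : j < n) (hjz : j ≠ z) {D : Finset ι} (hD : D ⊆ U)
    (hDz : ∀ u ∈ D, ho u = z ∧ pc u = 0) {K : Finset ι} (hK : K ⊆ U)
    (hKj : ∀ u ∈ K, ho u = j) {g : ι → ℕ} (hg : ∀ u ∈ K, 1 ≤ g u)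
    (hg' : ∀ u ∈ K, (g u : ℤ) ≤ kp z u) {q k κ' m M n1 f : ℤ}
    (hq : q = ∑ u ∈ K, pc u) (hk : k = ∑ u ∈ K, (g u : ℤ) - q) (hκ : κ' = (K.card : ℤ) - q)
    (hm : m = ∑ u ∈ U.filter (fun u => ho u = z ∧ u ∉ D ∧ pc u = 0), vl u)
    (hM : M = be z j + q)
    (hn : n1 = ((K.filter fun u => pc u = 0 ∧ (g u : ℤ) = vl u).card : ℤ))
    (hf : f = ((K.filter fun u => pc u = 0 ∧ ∀ l < n, l ≠ z → kp l u = 0).card : ℤ)) :
    2 * ((R - t j - (t z + 1)) * (M + k) - ∑ u ∈ K, msP kp mn z g u)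
      + 2 * (∑ u ∈ U.filter (fun u => ho u = z ∧ u ∉ D ∧ pc u = 0),
          (kp j u * (R - t j) - mn j u) - (t z + 1) * m) - 2 * (R - t j)
      + m * (m + M + k + κ' + 1) + M * (m + k + κ') + (k - κ') * (m + M + k + κ' + 1)
      + n1 * (n1 - 1) + 2 * (q * f)
      - 2 * ∑ l ∈ ((range n).erase z).erase j, (be z l - kq z l) * (sg z l
        + ((U.filter fun u => ho u = z ∧ u ∉ D ∧ pc u = 0 ∧ kp l u ≠ 0).card : ℤ))
      - 2 * ∑ u ∈ K, (1 - pc u) * ar u
      ≤ 2 * ((t j - (m + M + k + κ')) * (mu z - s z + (D.card : ℤ) - (m + M + k))) := by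
  have hX : ((range n).erase z).erase j ⊆ range n :=
    (erase_subset _ _).trans (erase_subset _ _)
  have h0 := H.tP z hz j hj hjz _ hX (notMem_erase _ _) _ (Subset.refl _) D hD hDz K hK
    (fun u hu => by rw [hKj u hu]; exact hjz) g hg hg'
  -- the kept value
  have e1 : mu z - ∑ l ∈ ((range n).erase z).erase j, kq z l
      - ∑ l ∈ ((range n).erase z).erase j, (be z l - kq z l) - ∑ u ∈ D, vl u = be z j + m := by
    have h1 : ∑ u ∈ D, vl u + ∑ u ∈ U.filter (fun u => ho u = z ∧ u ∉ D), vl u = mu z := by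
      rw [H.hmu z hz, ← sum_filter_add_sum_filter_not (U.filter fun u => ho u = z)
        (fun u => u ∈ D), filter_filter, filter_filter]
      congr 1
      refine sum_congr ?_ fun _ _ => rfl
      ext u
      simp only [mem_filter]
      exact ⟨fun h => ⟨hD h, (hDz u h).1, h⟩, fun h => h.2.2⟩
    have h2 := H.split_pc (z := z) hDz vl
    have h3 : ∑ u ∈ U.filter (fun u => ho u = z), pc u * vl u
        = ∑ u ∈ U.filter (fun u => ho u = z), pc u := by
      refine sum_congr rfl fun u hu => ?_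
      by_cases h4 : pc u = 0
      · rw [h4, zero_mul]
      · rw [(H.pc_fact (mem_filter.1 hu).1 h4).2.1, mul_one]
    have h4 := H.pc_tails hz
    have h5 := add_sum_erase ((range n).erase z) (fun l => be z l)
      (mem_erase.2 ⟨hjz, mem_range.2 hj⟩)
    rw [sum_sub_distrib]
    beta_reduce at h5
    linarith
  have e2 : ∑ l ∈ ((range n).erase z).erase j, kq z l
      + ∑ l ∈ ((range n).erase z).erase j, (be z l - kq z l) + ∑ u ∈ D, (vl u + 1)
      = mu z - be z j - m + D.card := by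
    rw [sum_add_distrib (s := D), sum_const, nsmul_eq_mul, mul_one]
    linarith
  -- the hits
  have e3 : ∑ u ∈ U.filter (fun u => ho u = z ∧ u ∉ D), (kp j u * (R - t j) - mn j u)
      = be z j * (R - t j) + ∑ u ∈ U.filter (fun u => ho u = z ∧ u ∉ D ∧ pc u = 0),
        (kp j u * (R - t j) - mn j u) := by
    rw [H.split_pc hDz, ← H.pcb z hz j hj, sum_mul]
    congr 1
    refine sum_congr rfl fun u hu => ?_
    by_cases h4 : pc u = 0
    · rw [h4]
      ring
    · rw [(H.pc_fact (mem_filter.1 hu).1 h4).2.2.1 j hj]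
      ring
  -- the used items
  have e4 : ∑ u ∈ K, (if ho u = j then pc u else 0) = q := by
    rw [hq]
    exact sum_congr rfl fun u hu => if_pos (hKj u hu)
  have e5 : ∑ u ∈ K, ((g u : ℤ) + 1 - if ho u = j then pc u else 0) = k + κ' + q := by
    rw [sum_sub_distrib, e4, sum_add_distrib, sum_const, nsmul_eq_mul, mul_one]
    linarith
  have e6 : ∑ u ∈ K, (if ho u = j then (1 - pc u) * ar u else ((g u : ℤ) + 1) * (R - t j))
      = ∑ u ∈ K, (1 - pc u) * ar u := sum_congr rfl fun u hu => if_pos (hKj u hu)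
  have e7 : ((K.filter fun u => ho u = j ∧ pc u = 0 ∧ ∀ l < n, l ≠ z → kp l u = 0).card : ℤ)
      = f := by
    rw [hf]
    congr 2
    refine filter_congr fun u hu => ?_
    exact ⟨fun h => h.2, fun h => ⟨hKj u hu, h⟩⟩
  have e8 : n1 * (n1 - 1) ≤ svP n ho vl (K.filter fun u => ho u = j → pc u = 0) g := by
    have h1 : (((K.filter fun u => ho u = j → pc u = 0).filter fun u => ho u = j
        ∧ (g u : ℤ) = vl u).card : ℤ) = n1 := by
      rw [hn, filter_filter]
      congr 2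
      refine filter_congr fun u hu => ?_
      have h2 := hKj u hu
      exact ⟨fun h => ⟨h.1 h2, h.2.2⟩, fun h => ⟨fun _ => h.1, h2, h.2⟩⟩
    unfold svP
    rw [← h1]
    refine single_le_sum (f := fun x => (((K.filter fun u => ho u = j → pc u = 0).filter
      fun u => ho u = x ∧ (g u : ℤ) = vl u).card : ℤ)
      * ((((K.filter fun u => ho u = j → pc u = 0).filter
      fun u => ho u = x ∧ (g u : ℤ) = vl u).card : ℤ) - 1)) (fun x _ => tri_nonneg' _) (mem_range.2 hj)
  have e9 : ∑ u ∈ K, (g u : ℤ) = k + q := by linarith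
  rw [e1, e2, e3, e4, e5, e6, e7, e9, Finset.sdiff_self, sum_empty, sum_empty, hM.symm.trans rfl] at h0
  unfold TstP at h0
  subst hM
  linarith [h0, e8]

/-- **THE CELL FILTER, unit form**: `k` plain units of `κ'` items -/
theorem PCon.filV (H : PCon R n t s mu U ho vl kp mn pc ar be kq NN sg nu)
    (hV : UnP R n t U ho vl kp mn V it C bt ht) (hz : z < n)
    (hj : j < n) (hjz : j ≠ z) {D : Finset ι} (hD : D ⊆ U)
    (hDz : ∀ u ∈ D, ho u = z ∧ pc u = 0) {S : Finset κ}
    (hS : S ⊆ V.filter fun v => z ∈ C v) (hSj : ∀ v ∈ S, ho (it v) = j) {q k κ' m M n1 f : ℤ}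
    (hq : q = ∑ v ∈ S, pc (it v)) (hk : k = (S.card : ℤ) - q)
    (hκ : κ' = ((S.image it).card : ℤ) - q)
    (hm : m = ∑ u ∈ U.filter (fun u => ho u = z ∧ u ∉ D ∧ pc u = 0), vl u)
    (hM : M = be z j + q)
    (hn : n1 = ((S.filter fun v => pc (it v) = 0 ∧ vl (it v) = 1).card : ℤ))
    (hf : f = ((S.filter fun v => pc (it v) = 0 ∧ ∀ l < n, l ≠ z → kp l (it v) = 0).card : ℤ)) :
    2 * ((R - t j - (t z + 1)) * (M + k) - ∑ v ∈ S, bt v z)
      + 2 * (∑ u ∈ U.filter (fun u => ho u = z ∧ u ∉ D ∧ pc u = 0),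
          (kp j u * (R - t j) - mn j u) - (t z + 1) * m) - 2 * (R - t j)
      + m * (m + M + k + κ' + 1) + M * (m + k + κ') + (k - κ') * (m + M + k + κ' + 1)
      + n1 * (n1 - 1) + 2 * (q * f)
      - 2 * ∑ l ∈ ((range n).erase z).erase j, (be z l - kq z l) * (sg z l
        + ((U.filter fun u => ho u = z ∧ u ∉ D ∧ pc u = 0 ∧ kp l u ≠ 0).card : ℤ))
      - 2 * ∑ u ∈ S.image it, (1 - pc u) * ar u
      ≤ 2 * ((t j - (m + M + k + κ')) * (mu z - s z + (D.card : ℤ) - (m + M + k))) := by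
  obtain ⟨h3, -, h5, h6, h7, -⟩ := hV.use hz hS
  have hSV : S ⊆ V := hS.trans (filter_subset _ _)
  have e1 : ∑ u ∈ S.image it, pc u = ∑ v ∈ S, pc (it v) :=
    hV.sum_one hSV fun u hu h10 => H.pcv u hu h10
  have e2 : ((S.filter fun v => pc (it v) = 0 ∧ ∀ l < n, l ≠ z → kp l (it v) = 0).card)
      = ((S.image it).filter fun u => pc u = 0 ∧ ∀ l < n, l ≠ z → kp l u = 0).card := by
    refine hV.card_one hSV (fun u => pc u = 0 ∧ ∀ l < n, l ≠ z → kp l u = 0) ?_
    rintro u hu ⟨h10, h11⟩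
    rcases H.one u hu with ⟨i, -, -, h13, -⟩ | ⟨-, h13⟩
    · exact h13
    · exfalso
      have h14 : ∑ i ∈ range n, kp i u = kp z u :=
        sum_eq_single_of_mem z (mem_range.2 hz) fun l hl hlz => h11 l (mem_range.1 hl) hlz
      have h15 := H.kv u hu z hz
      linarith
  have e3 : n1 * (n1 - 1) ≤ (((S.image it).filter fun u => pc u = 0
      ∧ ((lvU it S u : ℕ) : ℤ) = vl u).card : ℤ) * ((((S.image it).filter fun u => pc u = 0
      ∧ ((lvU it S u : ℕ) : ℤ) = vl u).card : ℤ) - 1) := by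
    rw [hn, hV.card_one hSV (fun u => pc u = 0 ∧ vl u = 1) fun u _ h => h.2]
    refine tri_mono (card_le_card fun u hu => ?_)
    obtain ⟨h8, h9, h10⟩ := mem_filter.1 hu
    refine mem_filter.2 ⟨h8, h9, ?_⟩
    rw [hV.lv_one hSV h8 h10, h10]
    norm_num
  have h0 := H.filK hz hj hjz hD hDz h3 (fun u hu => by
      obtain ⟨v, hv, rfl⟩ := mem_image.1 hu
      exact hSj v hv) h5 h6 (q := q) (k := k) (κ' := κ') (m := m) (M := M) (f := f)
      (hq.trans e1.symm) (by rw [sum_lvU]; exact hk) hκ hm hM rfl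
      (by rw [hf, e2])
  linarith

/-- **THE CELL FILTER in unit form with two points per plain unit** -/
theorem PCon.filU (H : PCon R n t s mu U ho vl kp mn pc ar be kq NN sg nu)
    (hV : UnP R n t U ho vl kp mn V it C bt ht) (hz : z < n)
    (hj : j < n) (hjz : j ≠ z) {D : Finset ι} (hD : D ⊆ U)
    (hDz : ∀ u ∈ D, ho u = z ∧ pc u = 0) {S : Finset κ}
    (hS : S ⊆ V.filter fun v => z ∈ C v) (hSj : ∀ v ∈ S, ho (it v) = j) {q k m M n1 f : ℤ}
    (hq : q = ∑ v ∈ S, pc (it v)) (hk : k = (S.card : ℤ) - q)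
    (hm : m = ∑ u ∈ U.filter (fun u => ho u = z ∧ u ∉ D ∧ pc u = 0), vl u)
    (hM : M = be z j + q)
    (hn : n1 = ((S.filter fun v => pc (it v) = 0 ∧ vl (it v) = 1).card : ℤ))
    (hf : f = ((S.filter fun v => pc (it v) = 0 ∧ ∀ l < n, l ≠ z → kp l (it v) = 0).card : ℤ))
    (hc : (S.image it).card = S.card ∨ 2 * (mu z - s z + (D.card : ℤ) - (m + M + k))
      ≤ k + (((S.image it).card : ℤ) - q) + 1) :
    2 * ((R - t j - (t z + 1)) * (M + k) - ∑ v ∈ S, bt v z)
      + 2 * (∑ u ∈ U.filter (fun u => ho u = z ∧ u ∉ D ∧ pc u = 0),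
          (kp j u * (R - t j) - mn j u) - (t z + 1) * m) - 2 * (R - t j)
      + m * (m + M + 2 * k + 1) + M * (m + 2 * k) + n1 * (n1 - 1) + 2 * (q * f)
      - 2 * ∑ l ∈ ((range n).erase z).erase j, (be z l - kq z l) * (sg z l
        + ((U.filter fun u => ho u = z ∧ u ∉ D ∧ pc u = 0 ∧ kp l u ≠ 0).card : ℤ))
      - 2 * ∑ u ∈ S.image it, (1 - pc u) * ar u
      ≤ 2 * ((t j - (m + M + 2 * k)) * (mu z - s z + (D.card : ℤ) - (m + M + k))) := by
  have h0 := H.filV hV hz hj hjz hD hDz hS hSj hq hk rfl hm hM hn hf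
  have h1 : (((S.image it).card : ℕ) : ℤ) ≤ (S.card : ℤ) := by exact_mod_cast card_image_le
  have h2 : (k - (((S.image it).card : ℤ) - q)) * (2 * (mu z - s z + (D.card : ℤ) - (m + M + k))
      - (k + (((S.image it).card : ℤ) - q) + 1)) ≤ 0 := by
    rcases hc with h3 | h3
    · have h4 : (((S.image it).card : ℕ) : ℤ) = (S.card : ℤ) := by exact_mod_cast h3
      rw [h4, hk, sub_self, zero_mul]
    · exact mul_nonpos_of_nonneg_of_nonpos (by linarith) (by linarith)
  linarith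

/-- the hits of the kept items by their units -/
lemma UnP.kept_hits (hV : UnP R n t U ho vl kp mn V it C bt ht) (hj : j < n) (hjz : j ≠ z)
    (D : Finset ι) :
    ∑ v ∈ V.filter (fun v => ho (it v) = z ∧ it v ∉ D ∧ pc (it v) = 0), ht v j
      ≤ ∑ u ∈ U.filter (fun u => ho u = z ∧ u ∉ D ∧ pc u = 0), (kp j u * (R - t j) - mn j u) := by
  have h1 : ∑ v ∈ V.filter (fun v => ho (it v) = z ∧ it v ∉ D ∧ pc (it v) = 0), ht v j
      = ∑ u ∈ U.filter (fun u => ho u = z ∧ u ∉ D ∧ pc u = 0),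
        ∑ v ∈ (V.filter (fun v => ho (it v) = z ∧ it v ∉ D ∧ pc (it v) = 0)).filter
          (fun v => it v = u), ht v j := by
    refine (sum_fiberwise_of_maps_to (fun v hv => ?_) _).symm
    obtain ⟨h2, h3⟩ := mem_filter.1 hv
    exact mem_filter.2 ⟨hV.mem v h2, h3⟩
  rw [h1]
  refine sum_le_sum fun u hu => ?_
  obtain ⟨h2, h3, h4, h5⟩ := mem_filter.1 hu
  refine le_trans (le_of_eq (sum_congr ?_ fun _ _ => rfl)) (hV.hit u h2 j hj (by rw [h3]; exact hjz))
  ext v
  simp only [mem_filter]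
  constructor
  · rintro ⟨⟨h6, -⟩, h7⟩
    exact ⟨h6, h7⟩
  · rintro ⟨h6, h7⟩
    exact ⟨⟨h6, by rw [h7]; exact h3, by rw [h7]; exact h4, by rw [h7]; exact h5⟩, h7⟩

end FilU

end Pool.Agent.Lib.MP_f04ccf_co
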