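import Pool.Agent.Lib.MP_f04ccf_co.M.MinU
import Pool.Agent.Lib.MP_f04ccf_co.Top

/-!
MP_f04ccf_co: first consequences for `MIN-U`: `k = 2`, `k = 3` (`r ≥ 6`) and `k = r - 1` are impossible,
the cases `r = 3, 4`, and the reduction of the conjecture to `r ≥ 7`, `4 ≤ k ≤ r - 2`.
-/

set_option autoImplicit false

namespace Pool.Agent.Lib.MP_f04ccf_co.Mn

open Finset

attribute [local instance] Classical.propDecidable

variable {V : Type*} {r : ℕ} {c : V → V → Fin r} {hc : ∀ x y, c x y = c y x}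
  {U0 U : Finset V} {i : Fin r} {k : ℕ}

/-- the excess `X = 2 e - r n` of the bad set -/
noncomputable def XX (hc : ∀ x y, c x y = c y x) (i : Fin r) (U : Finset V) : ℤ :=
  ∑ v ∈ U, ((dg (col c hc i) U v : ℤ) - r)

lemma XX_eq (U : Finset V) : XX hc i U = (E (col c hc i) U : ℤ) - r * U.card := by
  unfold XX E
  rw [sum_sub_distrib, sum_const, nsmul_eq_mul]
  push_cast
  ring

/-- `X ≤ r (r - k)` -/
lemma MinU.X_le (h : MinU hc U0 i k U) : XX hc i U ≤ r * (r - k) := by
  rw [XX_eq, h.card]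
  have h1 := h.bud
  have h2 : (E (col c hc i) U : ℤ) ≤ k * (r * ((r - 1 : ℕ) : ℤ)) + r * (r + 1) := by exact_mod_cast h1
  have h3 : ((r - 1 : ℕ) : ℤ) = r - 1 := by have := h.kr; omega
  rw [h3] at h2
  push_cast
  nlinarith

/-- the excess of a vertex is nonnegative -/
lemma MinU.eps_nonneg (h : MinU hc U0 i k U) {v : V} (hv : v ∈ U) :
    0 ≤ (dg (col c hc i) U v : ℤ) - r := by
  have := h.deg v hv
  have : (r : ℤ) ≤ dg (col c hc i) U v := by exact_mod_cast this
  linarith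

/-- `U` minus at most `r` vertices still has an independent set of size `k` -/
lemma MinU.exists_avoid (h : MinU hc U0 i k U) {R : Finset V} (hR : R.card ≤ r) :
    ∃ I ⊆ U \ R, Ind (col c hc i) I ∧ I.card = k := by
  have hk := h.k2
  have h1 : (k - 1) * r + 1 ≤ (U \ R).card := by
    have h2 := le_card_sdiff R U
    have h3 : (k - 1) * r + r = k * r := by
      obtain ⟨q, rfl⟩ : ∃ q, k = q + 1 := ⟨k - 1, by omega⟩
      simp only [Nat.add_sub_cancel]
      ring
    have := h.card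
    omega
  have h2 := h.her (U \ R) sdiff_subset (k - 1) (by omega) h1
  unfold AlphaLe at h2
  push Not at h2
  obtain ⟨I, hI, hi, hIc⟩ := h2
  obtain ⟨J, hJ, hJc⟩ := exists_subset_card_eq (show k ≤ I.card by omega)
  exact ⟨J, hJ.trans hI, fun x hx y hy => hi x (hJ hx) y (hJ hy), hJc⟩

/-- `ε(I) ≥ 2 + Σ t` for every maximum independent set `I` -/
lemma MinU.eps_I (h : MinU hc U0 i k U) {I : Finset V} (hI : I ⊆ U) (hi : Ind (col c hc i) I)
    (hIc : I.card = k) :
    2 + ∑ u ∈ I, ((r : ℤ) - 1 - (pn (col c hc i) U I u).card) ≤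
      ∑ u ∈ I, ((dg (col c hc i) U u : ℤ) - r) := by
  have h1 := edges_at h.alpha hI hi hIc
  rw [h.card] at h1
  push_cast at h1
  have e1 : ∑ u ∈ I, ((r : ℤ) - 1 - (pn (col c hc i) U I u).card)
      = k * (r - 1) - ∑ u ∈ I, ((pn (col c hc i) U I u).card : ℤ) := by
    rw [sum_sub_distrib, sum_const, hIc, nsmul_eq_mul]
  have e2 : ∑ u ∈ I, ((dg (col c hc i) U u : ℤ) - r)
      = ∑ u ∈ I, (dg (col c hc i) U u : ℤ) - k * r := by
    rw [sum_sub_distrib, sum_const, hIc, nsmul_eq_mul]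
  rw [e1, e2]
  linarith

/-- private cliques have at most `r - 1` vertices -/
lemma MinU.pn_le (h : MinU hc U0 i k U) {I : Finset V} (hI : I ⊆ U) (hi : Ind (col c hc i) I)
    (hIc : I.card = k) {u : V} (hu : u ∈ I) : (pn (col c hc i) U I u).card ≤ r - 1 :=
  h.free _ (pn_sub _ _ _) (pn_clq h.alpha hI hi hIc hu)

/-- `k = r - 1` is impossible -/
lemma MinU.kr2 (h : MinU hc U0 i k U) : k + 2 ≤ r := by
  by_contra hlt
  have hk : k + 1 = r := by have := h.kr; omega
  have hX := h.X_le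
  have hX' : XX hc i U ≤ r := by
    refine hX.trans (le_of_eq ?_)
    have : (r : ℤ) - k = 1 := by omega
    rw [this, mul_one]
  set R := U.filter (fun v => r < dg (col c hc i) U v) with hR
  have hRc : R.card ≤ r := by
    have h1 : (R.card : ℤ) ≤ XX hc i U := by
      have e1 : (R.card : ℤ) = ∑ v ∈ R, (1 : ℤ) := by simp
      rw [e1]
      refine (sum_le_sum fun v hv => ?_).trans
        (sum_le_sum_of_subset_of_nonneg (filter_subset _ _) fun v hv _ => h.eps_nonneg hv)
      have := (mem_filter.1 hv).2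
      have : (r : ℤ) < dg (col c hc i) U v := by exact_mod_cast this
      linarith
    have : (R.card : ℤ) ≤ r := h1.trans hX'
    exact_mod_cast this
  obtain ⟨I, hI, hi, hIc⟩ := h.exists_avoid hRc
  have h1 := h.eps_I (hI.trans sdiff_subset) hi hIc
  have h2 : ∑ u ∈ I, ((dg (col c hc i) U u : ℤ) - r) ≤ ∑ u ∈ I, 0 := by
    refine sum_le_sum fun u hu => ?_
    have h3 := mem_sdiff.1 (hI hu)
    have h4 : dg (col c hc i) U u ≤ r := by
      by_contra hlt
      exact h3.2 (mem_filter.2 ⟨h3.1, by omega⟩)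
    have : (dg (col c hc i) U u : ℤ) ≤ r := by exact_mod_cast h4
    linarith
  have h3 : (0 : ℤ) ≤ ∑ u ∈ I, ((r : ℤ) - 1 - (pn (col c hc i) U I u).card) := by
    refine sum_nonneg fun u hu => ?_
    have h4 := h.pn_le (hI.trans sdiff_subset) hi hIc hu
    have h5 := h.kr
    omega
  simp only [sum_const_zero] at h2
  linarith

/-- cliques of the other colours in `U` have at most `k` vertices -/
lemma MinU.clq_other (h : MinU hc U0 i k U) {j : Fin r} (hj : j ≠ i) {K : Finset V} (hK : K ⊆ U)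
    (hq : Clq (col c hc j) K) : K.card ≤ k :=
  h.alpha K hK (clq_ind hc hj.symm hq)

/-- M' for the other colours -/
lemma MinU.E_other (hs : Sees c) (h : MinU hc U0 i k U) {j : Fin r} (hj : j ≠ i) :
    (k : ℤ) * ((k - 1) * r + 3) ≤ E (col c hc j) U := by
  have h1 := mprime (col c hc j) k _ U rfl r (alpha_le hc hs j U)
    (fun K hK hq => h.clq_other hj hK hq)
  rw [h.card] at h1
  push_cast at h1
  nlinarith

/-- M' for the colour `i` -/
lemma MinU.E_ge (h : MinU hc U0 i k U) :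
    ((r : ℤ) - 1) * (k * r + k + 3) ≤ E (col c hc i) U := by
  have h1 := mprime (col c hc i) (r - 1) _ U rfl k h.alpha h.free
  rw [h.card] at h1
  have h2 : ((r - 1 : ℕ) : ℤ) = r - 1 := by have := h.kr; omega
  rw [h2] at h1
  push_cast at h1
  nlinarith

/-- upper bound from the other colours -/
lemma MinU.E_le (hs : Sees c) (h : MinU hc U0 i k U) :
    (E (col c hc i) U : ℤ) ≤ (k * r + 1) * (k * r) - (r - 1) * (k * ((k - 1) * r + 3)) := by
  have h1 := E_upper_of hc i U _ (fun j hj => h.E_other hs hj)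
  rw [h.card] at h1
  push_cast at h1
  linarith

lemma MinU.k3 (hs : Sees c) (h : MinU hc U0 i k U) : 3 ≤ k := by
  by_contra hlt
  have hk : k = 2 := by have := h.k2; omega
  subst hk
  have h1 := h.E_ge
  have h2 := h.E_le hs
  have h3 : (3 : ℤ) ≤ r := by have := h.kr; exact_mod_cast this
  push_cast at h1 h2
  nlinarith

lemma MinU.k4 (hs : Sees c) (hr : 6 ≤ r) (h : MinU hc U0 i k U) : 4 ≤ k := by
  by_contra hlt
  have hk : k = 3 := by have := h.k3 hs; omega
  subst hk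
  have h1 := h.E_ge
  have h2 := h.E_le hs
  have h3 : (6 : ℤ) ≤ r := by exact_mod_cast hr
  push_cast at h1 h2
  nlinarith

/-- the reduction: it is enough to exclude `MIN-U` for `r ≥ 7`, `4 ≤ k ≤ r - 2`. -/
theorem reduction
    (H : ∀ (r : ℕ), 7 ≤ r → ∀ (c : Fin (r ^ 2 + 1) → Fin (r ^ 2 + 1) → Fin r)
      (hc : ∀ x y, c x y = c y x), Sees c → ∀ (i : Fin r) (k : ℕ) (U : Finset (Fin (r ^ 2 + 1))),
      4 ≤ k → k + 2 ≤ r → MinU hc univ i k U → False) :
    ∀ r : ℕ, 3 ≤ r → ∀ c : Fin (r ^ 2 + 1) → Fin (r ^ 2 + 1) → Fin r,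
      (∀ x y, c x y = c y x) →
      ∃ S : Finset (Fin (r ^ 2 + 1)), S.card = r + 1 ∧
        ∃ k : Fin r, ∀ x ∈ S, ∀ y ∈ S, x ≠ y → c x y ≠ k := by
  intro r hr c hc
  rcases (show r = 5 ∨ r = 6 ∨ (r ≤ 4 ∨ 7 ≤ r) by omega) with h | h | h
  · exact fiveSix r (Or.inl h) (r ^ 2 + 1) le_rfl c hc
  · exact fiveSix r (Or.inr h) (r ^ 2 + 1) le_rfl c hc
  by_contra hcon
  push Not at hcon
  have hs : Sees c := fun S hS k => by
    obtain ⟨x, hx, y, hy, hxy, hk⟩ := hcon S hS k
    exact ⟨x, hx, y, hy, hxy, hk⟩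
  obtain ⟨i, k, U, hU⟩ := exists_minU (hc := hc) hs hr (U0 := univ) (by simp)
  have h1 := hU.kr2
  have h2 := hU.k3 hs
  rcases h with h | h
  · omega
  · exact H r h c hc hs i k U (hU.k4 hs (by omega)) h1 hU

end Pool.Agent.Lib.MP_f04ccf_co.Mn
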