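import Pool.Agent.Lib.MP_f04ccf_co.M.Exc7
import Pool.Agent.Lib.MP_f04ccf_co.M.Low

/-!
MP_f04ccf_co: the end of the chain (L8).  The statement for all `r ≥ 3` follows from the absence of
frames `S2 G r m t Z T` with `m + 4 ≤ r + t` for `r ≥ 7` (`r = 3, 4`: `MIN-U`, `r = 5, 6`: `fiveSix`).
-/

set_option autoImplicit false

namespace Pool.Agent.Lib.MP_f04ccf_co

open Finset

/-- the frozen statement from the absence of frames -/
theorem final_of_frames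
    (hS : ∀ (r : ℕ), 7 ≤ r → ∀ (G : SimpleGraph (Fin (r ^ 2 + 1))) (m t : ℕ)
      (Z T : Finset (Fin (r ^ 2 + 1))),
      PG G r → AlphaLe G univ r → m + 4 ≤ r + t → ¬ S2 G r m t Z T) :
    ∀ r : ℕ, 3 ≤ r → ∀ c : Fin (r ^ 2 + 1) → Fin (r ^ 2 + 1) → Fin r,
      (∀ x y, c x y = c y x) →
      ∃ S : Finset (Fin (r ^ 2 + 1)), S.card = r + 1 ∧
        ∃ k : Fin r, ∀ x ∈ S, ∀ y ∈ S, x ≠ y → c x y ≠ k := by
  refine Mn.reduction ?_
  intro r hr c hc hs i k U _ _ _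
  obtain ⟨S, hSc, k, hk⟩ := good_of_S2_mt7 r hr (hS r hr) c hc
  obtain ⟨x, hx, y, hy, hxy, h⟩ := hs S hSc k
  exact hk x hx y hy hxy h

end Pool.Agent.Lib.MP_f04ccf_co
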