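import Pool.Agent.Lib.MP_f04ccf_co.M.Fin
import Pool.Agent.Lib.MP_f04ccf_co.M.PW

/-!
MP_f04ccf_co: the end of the chain (L8), forms with the property `PW` (free slopes) of the graph of
one colour.  In every colouring there is a frame with `m = r - 1`, or the colouring is exceptional,
and then there are a frame with `m = r` and a frame with `m + 4 ≤ r + t`.
-/

set_option autoImplicit false

namespace Pool.Agent.Lib.MP_f04ccf_co

open Finset

/-- at one `r`: no frames with `m = r - 1`; no frames with `m = r` or none with `m + 4 ≤ r + t` -/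
theorem good_of_pw (r : ℕ) (hr : 7 ≤ r)
    (h1 : ∀ (G : SimpleGraph (Fin (r ^ 2 + 1))) (t : ℕ) (Z T : Finset (Fin (r ^ 2 + 1))),
      PW G r → AlphaLe G univ r → ¬ S2 G r (r - 1) t Z T)
    (h2 : (∀ (G : SimpleGraph (Fin (r ^ 2 + 1))) (t : ℕ) (Z T : Finset (Fin (r ^ 2 + 1))),
        PW G r → AlphaLe G univ r → ¬ S2 G r r t Z T) ∨
      ∀ (G : SimpleGraph (Fin (r ^ 2 + 1))) (m t : ℕ) (Z T : Finset (Fin (r ^ 2 + 1))),
        PW G r → AlphaLe G univ r → m + 4 ≤ r + t → ¬ S2 G r m t Z T) :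
    Good r (r ^ 2 + 1) := by
  intro c hc
  by_contra hcon
  push Not at hcon
  have hs : Sees c := fun S hS k => by
    obtain ⟨x, hx, y, hy, hxy, hk⟩ := hcon S hS k
    exact ⟨x, hx, y, hy, hxy, hk⟩
  rcases S2_or_exc (hc := hc) hs (by omega) (by simp) with ⟨j, t, Z, T, h⟩ | he
  · exact h1 _ t Z T (PW_col hc hs j) (alpha_le hc hs j univ) h
  · rcases h2 with h2 | h2
    · obtain ⟨j, t, Z, T, h⟩ := exists_S2_r (hc := hc) hs (by omega) (by simp)
      exact h2 _ t Z T (PW_col hc hs j) (alpha_le hc hs j univ) h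
    · obtain ⟨j, m, t, Z, T, h, h'⟩ := he.exists_mt7 hs (by simp) hr
      exact h2 _ m t Z T (PW_col hc hs j) (alpha_le hc hs j univ) h h'

/-- **the frozen statement from the absence of frames, form with `PW`** -/
theorem final_of_frames_pw
    (h1 : ∀ (r : ℕ), 7 ≤ r → ∀ (G : SimpleGraph (Fin (r ^ 2 + 1))) (t : ℕ)
      (Z T : Finset (Fin (r ^ 2 + 1))),
      PW G r → AlphaLe G univ r → ¬ S2 G r (r - 1) t Z T)
    (h2 : ∀ (r : ℕ), 7 ≤ r → (∀ (G : SimpleGraph (Fin (r ^ 2 + 1))) (t : ℕ)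
        (Z T : Finset (Fin (r ^ 2 + 1))),
        PW G r → AlphaLe G univ r → ¬ S2 G r r t Z T) ∨
      ∀ (G : SimpleGraph (Fin (r ^ 2 + 1))) (m t : ℕ) (Z T : Finset (Fin (r ^ 2 + 1))),
        PW G r → AlphaLe G univ r → m + 4 ≤ r + t → ¬ S2 G r m t Z T) :
    ∀ r : ℕ, 3 ≤ r → ∀ c : Fin (r ^ 2 + 1) → Fin (r ^ 2 + 1) → Fin r,
      (∀ x y, c x y = c y x) →
      ∃ S : Finset (Fin (r ^ 2 + 1)), S.card = r + 1 ∧
        ∃ k : Fin r, ∀ x ∈ S, ∀ y ∈ S, x ≠ y → c x y ≠ k := by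
  refine Mn.reduction ?_
  intro r hr c hc hs i k U _ _ _
  obtain ⟨S, hSc, k, hk⟩ := good_of_pw r hr (h1 r hr) (h2 r hr) c hc
  obtain ⟨x, hx, y, hy, hxy, h⟩ := hs S hSc k
  exact hk x hx y hy hxy h

/-- **the frozen statement from the absence of frames with `m = r`, form with `PW`** -/
theorem final_of_frames_r
    (hS : ∀ (r : ℕ), 7 ≤ r → ∀ (G : SimpleGraph (Fin (r ^ 2 + 1))) (t : ℕ)
      (Z T : Finset (Fin (r ^ 2 + 1))),
      PW G r → AlphaLe G univ r → ¬ S2 G r r t Z T) :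
    ∀ r : ℕ, 3 ≤ r → ∀ c : Fin (r ^ 2 + 1) → Fin (r ^ 2 + 1) → Fin r,
      (∀ x y, c x y = c y x) →
      ∃ S : Finset (Fin (r ^ 2 + 1)), S.card = r + 1 ∧
        ∃ k : Fin r, ∀ x ∈ S, ∀ y ∈ S, x ≠ y → c x y ≠ k := by
  refine final_of_frames_pw (fun r hr G t Z T hP ha h => ?_) (fun r hr => Or.inl (hS r hr))
  exact hS r hr G t Z T hP ha { h with b := h.b.trans (by omega) }

end Pool.Agent.Lib.MP_f04ccf_co
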