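import Pool.Agent.Lib.MP_f04ccf_co.M.R7c
import Pool.Agent.Lib.MP_f04ccf_co.M.ExcN

/-!
MP_f04ccf_co: the statement at `r = 7`.
-/

set_option autoImplicit false

namespace Pool.Agent.Lib.MP_f04ccf_co

/-- every `7`-colouring of `K_50` has an `8`-set that misses a colour -/
theorem good_seven : Good 7 (7 ^ 2 + 1) :=
  good_of_S2_mtn 7 le_rfl fun _ _ _ _ _ hP _ hm _ h => h.not_seven hP hm

end Pool.Agent.Lib.MP_f04ccf_co
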