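import Pool.Agent.Lib.MP_f04ccf_co.M.Fin2
import Pool.Agent.Lib.MP_f04ccf_co.M.R7d

/-!
MP_f04ccf_co: the end of the chain (L8), form with the whole colouring.  The frozen statement follows
from the absence of frames `S2 (col c hc j) r m t Z T` with `m ≤ r` and `m + 4 ≤ r + t` in the colourings
with `r ≥ 8` colours in which every set of `r + 1` points sees all colours (`r = 3, 4`: `MIN-U`,
`r = 5, 6`: `fiveSix`, `r = 7`: `good_seven`).
-/

set_option autoImplicit false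

namespace Pool.Agent.Lib.MP_f04ccf_co

open Finset

/-- **the frozen statement from the absence of frames in colourings** -/
theorem final_of_frames_col
    (hS : ∀ (r : ℕ), 8 ≤ r → ∀ (c : Fin (r ^ 2 + 1) → Fin (r ^ 2 + 1) → Fin r)
      (hc : ∀ x y, c x y = c y x), Sees c → ∀ (j : Fin r) (m t : ℕ)
      (Z T : Finset (Fin (r ^ 2 + 1))), m ≤ r → m + 4 ≤ r + t → ¬ S2 (col c hc j) r m t Z T) :
    ∀ r : ℕ, 3 ≤ r → ∀ c : Fin (r ^ 2 + 1) → Fin (r ^ 2 + 1) → Fin r,
      (∀ x y, c x y = c y x) →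
      ∃ S : Finset (Fin (r ^ 2 + 1)), S.card = r + 1 ∧
        ∃ k : Fin r, ∀ x ∈ S, ∀ y ∈ S, x ≠ y → c x y ≠ k := by
  refine Mn.reduction ?_
  intro r hr c hc hs i k U _ _ _
  rcases Nat.lt_or_ge 7 r with h8 | h8
  · obtain ⟨j, m, t, Z, T, h1, h2, h3⟩ := exists_S2_mtn (hc := hc) hs hr (by simp)
    exact hS r h8 c hc hs j m t Z T h1 h2 h3
  · obtain rfl : r = 7 := by omega
    obtain ⟨S, hSc, k, hk⟩ := good_seven c hc
    obtain ⟨x, hx, y, hy, hxy, h⟩ := hs S hSc k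
    exact hk x hx y hy hxy h

end Pool.Agent.Lib.MP_f04ccf_co
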