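import Pool.Agent.Lib.MP_f04ccf_co.M.FinL

/-!
MP_f04ccf_co, PLAN W, finite part: `R = 10`, `n = 5` rows, `∑ h ≤ 10`: there are no items (loads).
Generated (helper11, gen.py, mk2.py): the table of all rows `(t, h, mu, b)` which pass the row filter
`Kern.okE`, `b` a bound for `h - t` on the rest of the table; the enumeration `Kern.enumF` with the
leaf `(Kern.ldL 10)`, checked by the kernel.
-/

set_option autoImplicit false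

namespace Pool.Agent.Lib.MP_f04ccf_co

namespace FinK

/-- the table -/
def gs10_5_10 : List (ℕ × List (ℕ × ℕ × ℕ × ℕ)) :=
  [(4, [(4, 10, 10, 8), (4, 10, 9, 8), (4, 10, 8, 8), (4, 10, 7, 8), (4, 10, 6, 8), (4, 9, 9, 8),
    (4, 9, 8, 8), (4, 9, 7, 8), (4, 9, 6, 8), (4, 9, 5, 8), (4, 8, 8, 8), (4, 8, 7, 8),
    (4, 8, 6, 8), (4, 8, 5, 8), (4, 8, 4, 8), (4, 7, 7, 8), (4, 7, 6, 8), (4, 7, 5, 8),
    (4, 7, 4, 8), (4, 7, 3, 8), (4, 6, 6, 8), (4, 6, 5, 8), (4, 6, 4, 8), (4, 6, 3, 8),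
    (4, 6, 2, 8), (4, 5, 5, 8), (4, 5, 4, 8), (4, 5, 3, 8), (4, 5, 2, 8), (4, 5, 1, 8),
    (4, 4, 4, 8), (4, 4, 3, 8), (4, 4, 2, 8), (4, 4, 1, 8), (4, 4, 0, 8), (4, 3, 3, 8),
    (4, 3, 2, 8), (4, 3, 1, 8), (4, 3, 0, 8), (4, 2, 2, 8), (4, 2, 1, 8), (4, 2, 0, 8),
    (4, 1, 1, 8), (4, 1, 0, 8), (4, 0, 0, 8)]),
  (3, [(3, 10, 10, 8), (3, 10, 9, 8), (3, 10, 8, 8), (3, 10, 7, 8), (3, 9, 9, 8), (3, 9, 8, 8),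
    (3, 9, 7, 8), (3, 9, 6, 8), (3, 8, 8, 8), (3, 8, 7, 8), (3, 8, 6, 8), (3, 8, 5, 8),
    (3, 7, 7, 8), (3, 7, 6, 8), (3, 7, 5, 8), (3, 7, 4, 8), (3, 6, 6, 8), (3, 6, 5, 8),
    (3, 6, 4, 8), (3, 6, 3, 8), (3, 5, 5, 8), (3, 5, 4, 8), (3, 5, 3, 8), (3, 5, 2, 8),
    (3, 4, 4, 8), (3, 4, 3, 8), (3, 4, 2, 8), (3, 4, 1, 8), (3, 3, 3, 8), (3, 3, 2, 8),
    (3, 3, 1, 8), (3, 3, 0, 8), (3, 2, 2, 8), (3, 2, 1, 8), (3, 2, 0, 8), (3, 1, 1, 8),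
    (3, 1, 0, 8), (3, 0, 0, 8)]),
  (2, [(2, 10, 10, 8), (2, 10, 9, 8), (2, 9, 9, 7), (2, 9, 8, 7), (2, 8, 8, 6), (2, 7, 7, 5),
    (2, 6, 6, 4), (2, 6, 5, 4), (2, 5, 5, 3), (2, 5, 4, 3), (2, 4, 4, 2), (2, 4, 3, 2),
    (2, 4, 2, 2), (2, 3, 3, 2), (2, 3, 2, 2), (2, 3, 1, 2), (2, 2, 2, 2), (2, 2, 1, 2),
    (2, 2, 0, 2), (2, 1, 1, 2), (2, 1, 0, 2), (2, 0, 0, 2)]),
  (1, [(1, 3, 3, 2), (1, 2, 2, 1), (1, 2, 1, 1), (1, 1, 1, 1), (1, 1, 0, 1), (1, 0, 0, 1)]),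
  (0, [(0, 1, 1, 1), (0, 0, 0, 0)])]

/-- the squares `kf t ^ 2` are larger than `t (M - t) + 1` -/
def kf10_5_10 (t : ℕ) : ℕ := ([2, 3, 3, 3, 2] : List ℕ).getD t 0

lemma ok10_5_10 : Kern.okF 10 4 = true ∧ Kern.okK 4 kf10_5_10 = true ∧
    Kern.srt (Kern.keyF 11) (Kern.flt gs10_5_10) = true ∧
    Kern.allTab 4 10 10 (Kern.okE 10 4 kf10_5_10)
      (fun a b c => (Kern.lookF (Kern.flt gs10_5_10) a b c).isSome) = true := by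
  decide +kernel

lemma en10_5_10 : Kern.enumF (fun a : ℕ × ℕ × ℕ × ℕ => a.1) (fun a => a.2.1) (fun a => a.2.2.2)
    (fun _ => 0) (fun _ => 0) (fun _ => 0) 4 10 (5 + 1) (fun l => (Kern.ldL 10) (Kern.revT l)) 5
    gs10_5_10 = true := by
  decide +kernel

theorem part10_5_10 : PartC ((10 : ℕ) : ℤ) 10 5 (Kern.ldL 10) := by
  obtain ⟨h1, h2, h3, h4⟩ := ok10_5_10
  exact PartC.enum (N := 11) (by norm_num) (by norm_num) h1 h2 h3 h4 en10_5_10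

end FinK

/-- **`R = 10`, `n = 5`, `∑ h ≤ 10`: no items** -/
theorem noItC10_5_10 : NoItC 10 10 5 :=
  NoItC.of_ld (by norm_num) FinK.part10_5_10

end Pool.Agent.Lib.MP_f04ccf_co
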