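import Pool.Agent.Lib.MP_f04ccf_co.M.FinP

/-!
MP_f04ccf_co, PLAN W, finite part: `R = 11`, `n = 5` rows, `∑ h ≤ 11` (patterns).
Generated (helper11, gen.py, mk4.py): the table of all rows `(t, h, mu, b)` which pass the row filter `Kern.okE`,
`b` a bound for `h - t` on the rest of the table; the enumeration in blocks of first rows with the leaf
`(PatT.patT 11 5 cs5)`, checked by the kernel.
-/

set_option autoImplicit false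

namespace Pool.Agent.Lib.MP_f04ccf_co

namespace FinK

/-- the table -/
def gs11_5_11 : List (ℕ × List (ℕ × ℕ × ℕ × ℕ)) :=
  [(5, [(5, 11, 11, 9), (5, 11, 10, 9), (5, 11, 9, 9), (5, 11, 8, 9), (5, 11, 7, 9),
    (5, 11, 6, 9), (5, 10, 10, 9), (5, 10, 9, 9), (5, 10, 8, 9), (5, 10, 7, 9),
    (5, 10, 6, 9), (5, 10, 5, 9), (5, 9, 9, 9), (5, 9, 8, 9), (5, 9, 7, 9), (5, 9, 6, 9),
    (5, 9, 5, 9), (5, 9, 4, 9), (5, 8, 8, 9), (5, 8, 7, 9), (5, 8, 6, 9), (5, 8, 5, 9),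
    (5, 8, 4, 9), (5, 8, 3, 9), (5, 7, 7, 9), (5, 7, 6, 9), (5, 7, 5, 9), (5, 7, 4, 9),
    (5, 7, 3, 9), (5, 7, 2, 9), (5, 6, 6, 9), (5, 6, 5, 9), (5, 6, 4, 9), (5, 6, 3, 9),
    (5, 6, 2, 9), (5, 6, 1, 9), (5, 5, 5, 9), (5, 5, 4, 9), (5, 5, 3, 9), (5, 5, 2, 9),
    (5, 5, 1, 9), (5, 5, 0, 9), (5, 4, 4, 9), (5, 4, 3, 9), (5, 4, 2, 9), (5, 4, 1, 9),
    (5, 4, 0, 9), (5, 3, 3, 9), (5, 3, 2, 9), (5, 3, 1, 9), (5, 3, 0, 9), (5, 2, 2, 9),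
    (5, 2, 1, 9), (5, 2, 0, 9), (5, 1, 1, 9), (5, 1, 0, 9), (5, 0, 0, 9)]),
  (4, [(4, 11, 11, 9), (4, 11, 10, 9), (4, 11, 9, 9), (4, 11, 8, 9), (4, 11, 7, 9),
    (4, 10, 10, 9), (4, 10, 9, 9), (4, 10, 8, 9), (4, 10, 7, 9), (4, 10, 6, 9), (4, 9, 9, 9),
    (4, 9, 8, 9), (4, 9, 7, 9), (4, 9, 6, 9), (4, 9, 5, 9), (4, 8, 8, 9), (4, 8, 7, 9),
    (4, 8, 6, 9), (4, 8, 5, 9), (4, 8, 4, 9), (4, 7, 7, 9), (4, 7, 6, 9), (4, 7, 5, 9),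
    (4, 7, 4, 9), (4, 7, 3, 9), (4, 6, 6, 9), (4, 6, 5, 9), (4, 6, 4, 9), (4, 6, 3, 9),
    (4, 6, 2, 9), (4, 5, 5, 9), (4, 5, 4, 9), (4, 5, 3, 9), (4, 5, 2, 9), (4, 5, 1, 9),
    (4, 4, 4, 9), (4, 4, 3, 9), (4, 4, 2, 9), (4, 4, 1, 9), (4, 4, 0, 9), (4, 3, 3, 9),
    (4, 3, 2, 9), (4, 3, 1, 9), (4, 3, 0, 9), (4, 2, 2, 9), (4, 2, 1, 9), (4, 2, 0, 9),
    (4, 1, 1, 9), (4, 1, 0, 9), (4, 0, 0, 9)]),
  (3, [(3, 11, 11, 9), (3, 11, 10, 9), (3, 11, 9, 9), (3, 10, 10, 9), (3, 10, 9, 9),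
    (3, 10, 8, 9), (3, 9, 9, 9), (3, 9, 8, 9), (3, 9, 7, 9), (3, 8, 8, 9), (3, 8, 7, 9),
    (3, 8, 6, 9), (3, 7, 7, 9), (3, 7, 6, 9), (3, 7, 5, 9), (3, 6, 6, 9), (3, 6, 5, 9),
    (3, 6, 4, 9), (3, 5, 5, 9), (3, 5, 4, 9), (3, 5, 3, 9), (3, 5, 2, 9), (3, 4, 4, 9),
    (3, 4, 3, 9), (3, 4, 2, 9), (3, 4, 1, 9), (3, 3, 3, 9), (3, 3, 2, 9), (3, 3, 1, 9),
    (3, 3, 0, 9), (3, 2, 2, 9), (3, 2, 1, 9), (3, 2, 0, 9), (3, 1, 1, 9), (3, 1, 0, 9),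
    (3, 0, 0, 9)]),
  (2, [(2, 11, 11, 9), (2, 6, 6, 4), (2, 5, 5, 3), (2, 5, 4, 3), (2, 4, 4, 2), (2, 4, 3, 2),
    (2, 4, 2, 2), (2, 3, 3, 2), (2, 3, 2, 2), (2, 3, 1, 2), (2, 2, 2, 2), (2, 2, 1, 2),
    (2, 2, 0, 2), (2, 1, 1, 2), (2, 1, 0, 2), (2, 0, 0, 2)]),
  (1, [(1, 3, 3, 2), (1, 2, 2, 1), (1, 2, 1, 1), (1, 1, 1, 1), (1, 1, 0, 1), (1, 0, 0, 1)]),
  (0, [(0, 1, 1, 1), (0, 0, 0, 0)])]

/-- the squares `kf t ^ 2` are larger than `t (M - t) + 1` -/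
def kf11_5_11 (t : ℕ) : ℕ := ([2, 3, 3, 3, 3, 2] : List ℕ).getD t 0

lemma ok11_5_11 : Kern.okF 11 5 = true ∧ Kern.okK 5 kf11_5_11 = true ∧
    Kern.srt (Kern.keyF 12) (Kern.flt gs11_5_11) = true ∧
    Kern.allTab 5 11 11 (Kern.okE 11 5 kf11_5_11)
      (fun a b c => (Kern.lookF (Kern.flt gs11_5_11) a b c).isSome) = true := by
  decide +kernel

/-- a block -/
noncomputable def bk11_5_11 (j p k : ℕ) : Bool :=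
  Kern.blk (fun a : ℕ × ℕ × ℕ × ℕ => a.1) (fun a => a.2.1) (fun a => a.2.2.2) (fun _ => 0)
    (fun _ => 0) (fun _ => 0) 5 11 6 (fun l => (PatT.patT 11 5 cs5) (Kern.revT l)) 4 gs11_5_11 j p k

lemma b11_5_11_0_0 : bk11_5_11 0 0 57 = true := by decide +kernel

lemma b11_5_11_1_0 : bk11_5_11 1 0 50 = true := by decide +kernel

lemma b11_5_11_2_0 : bk11_5_11 2 0 36 = true := by decide +kernel

lemma b11_5_11_3_0 : bk11_5_11 3 0 16 = true := by decide +kernel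

lemma b11_5_11_4_0 : bk11_5_11 4 0 6 = true := by decide +kernel

lemma b11_5_11_5_0 : bk11_5_11 5 0 2 = true := by decide +kernel

lemma c11_5_11_0 : bk11_5_11 0 0 57 = true := b11_5_11_0_0

lemma c11_5_11_1 : bk11_5_11 1 0 50 = true := b11_5_11_1_0

lemma c11_5_11_2 : bk11_5_11 2 0 36 = true := b11_5_11_2_0

lemma c11_5_11_3 : bk11_5_11 3 0 16 = true := b11_5_11_3_0

lemma c11_5_11_4 : bk11_5_11 4 0 6 = true := b11_5_11_4_0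

lemma c11_5_11_5 : bk11_5_11 5 0 2 = true := b11_5_11_5_0

lemma e11_5_11 : Kern.EnS (fun a : ℕ × ℕ × ℕ × ℕ => a.1) (fun a => a.2.1) (fun _ => 0) (fun _ => 0)
    5 11 (5 + 1) (fun l => (PatT.patT 11 5 cs5) (Kern.revT l)) (4 + 1) (Kern.flt gs11_5_11) := by
  refine Kern.EnS.of_blk (b := fun a => a.2.2.2) (bg := fun _ => 0) (by decide +kernel) fun j hj => ?_
  have hj' : j < 6 := hj
  interval_cases j
  · exact c11_5_11_0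
  · exact c11_5_11_1
  · exact c11_5_11_2
  · exact c11_5_11_3
  · exact c11_5_11_4
  · exact c11_5_11_5

theorem part11_5_11 : PartC ((11 : ℕ) : ℤ) 11 5 (PatT.patT 11 5 cs5) := by
  obtain ⟨h1, h2, h3, h4⟩ := ok11_5_11
  exact PartC.enumS (N := 12) (by norm_num) (by norm_num) h1 h2 h3 h4 e11_5_11

end FinK

/-- **`R = 11`, `n = 5`, `∑ h ≤ 11`: no items** -/
theorem noItC11_5_11 : NoItC 11 11 5 :=
  NoItC.of_pat FinK.cs5_eq FinK.part11_5_11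

end Pool.Agent.Lib.MP_f04ccf_co
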