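import Pool.Agent.Lib.MP_f04ccf_co.M.FinY

/-!
MP_f04ccf_co, PLAN W, finite part: `R = 12`, `n = 5` rows, `∑ h ≤ 12` (loads, patterns or star).
Generated (helper11, gen.py, mk4.py): the table of all rows `(t, h, mu, b)` which pass the row filter `Kern.okE`,
`b` a bound for `h - t` on the rest of the table; the enumeration in blocks of first rows with the leaf
`(fun l => (Le.ld4 12 5 l || PatX.patX 12 5 cl5 l) || starT 12 l)`, checked by the kernel.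
-/

set_option autoImplicit false

namespace Pool.Agent.Lib.MP_f04ccf_co

namespace FinK

/-- the table -/
def gs12_5_12 : List (ℕ × List (ℕ × ℕ × ℕ × ℕ)) :=
  [(6, [(6, 12, 12, 10), (6, 12, 11, 10), (6, 12, 10, 10), (6, 12, 9, 10), (6, 12, 8, 10),
    (6, 12, 7, 10), (6, 12, 6, 10), (6, 11, 11, 10), (6, 11, 10, 10), (6, 11, 9, 10),
    (6, 11, 8, 10), (6, 11, 7, 10), (6, 11, 6, 10), (6, 11, 5, 10), (6, 10, 10, 10),
    (6, 10, 9, 10), (6, 10, 8, 10), (6, 10, 7, 10), (6, 10, 6, 10), (6, 10, 5, 10),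
    (6, 10, 4, 10), (6, 9, 9, 10), (6, 9, 8, 10), (6, 9, 7, 10), (6, 9, 6, 10),
    (6, 9, 5, 10), (6, 9, 4, 10), (6, 9, 3, 10), (6, 8, 8, 10), (6, 8, 7, 10), (6, 8, 6, 10),
    (6, 8, 5, 10), (6, 8, 4, 10), (6, 8, 3, 10), (6, 8, 2, 10), (6, 7, 7, 10), (6, 7, 6, 10),
    (6, 7, 5, 10), (6, 7, 4, 10), (6, 7, 3, 10), (6, 7, 2, 10), (6, 7, 1, 10), (6, 6, 6, 10),
    (6, 6, 5, 10), (6, 6, 4, 10), (6, 6, 3, 10), (6, 6, 2, 10), (6, 6, 1, 10), (6, 6, 0, 10),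
    (6, 5, 5, 10), (6, 5, 4, 10), (6, 5, 3, 10), (6, 5, 2, 10), (6, 5, 1, 10), (6, 5, 0, 10),
    (6, 4, 4, 10), (6, 4, 3, 10), (6, 4, 2, 10), (6, 4, 1, 10), (6, 4, 0, 10), (6, 3, 3, 10),
    (6, 3, 2, 10), (6, 3, 1, 10), (6, 3, 0, 10), (6, 2, 2, 10), (6, 2, 1, 10), (6, 2, 0, 10),
    (6, 1, 1, 10), (6, 1, 0, 10), (6, 0, 0, 10)]),
  (5, [(5, 12, 12, 10), (5, 12, 11, 10), (5, 12, 10, 10), (5, 12, 9, 10), (5, 12, 8, 10),
    (5, 12, 7, 10), (5, 11, 11, 10), (5, 11, 10, 10), (5, 11, 9, 10), (5, 11, 8, 10),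
    (5, 11, 7, 10), (5, 11, 6, 10), (5, 10, 10, 10), (5, 10, 9, 10), (5, 10, 8, 10),
    (5, 10, 7, 10), (5, 10, 6, 10), (5, 10, 5, 10), (5, 9, 9, 10), (5, 9, 8, 10),
    (5, 9, 7, 10), (5, 9, 6, 10), (5, 9, 5, 10), (5, 9, 4, 10), (5, 8, 8, 10), (5, 8, 7, 10),
    (5, 8, 6, 10), (5, 8, 5, 10), (5, 8, 4, 10), (5, 8, 3, 10), (5, 7, 7, 10), (5, 7, 6, 10),
    (5, 7, 5, 10), (5, 7, 4, 10), (5, 7, 3, 10), (5, 7, 2, 10), (5, 6, 6, 10), (5, 6, 5, 10),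
    (5, 6, 4, 10), (5, 6, 3, 10), (5, 6, 2, 10), (5, 6, 1, 10), (5, 5, 5, 10), (5, 5, 4, 10),
    (5, 5, 3, 10), (5, 5, 2, 10), (5, 5, 1, 10), (5, 5, 0, 10), (5, 4, 4, 10), (5, 4, 3, 10),
    (5, 4, 2, 10), (5, 4, 1, 10), (5, 4, 0, 10), (5, 3, 3, 10), (5, 3, 2, 10), (5, 3, 1, 10),
    (5, 3, 0, 10), (5, 2, 2, 10), (5, 2, 1, 10), (5, 2, 0, 10), (5, 1, 1, 10), (5, 1, 0, 10),
    (5, 0, 0, 10)]),
  (4, [(4, 12, 12, 10), (4, 12, 11, 10), (4, 12, 10, 10), (4, 12, 9, 10), (4, 12, 8, 10),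
    (4, 12, 7, 10), (4, 11, 11, 10), (4, 11, 10, 10), (4, 11, 9, 10), (4, 11, 8, 10),
    (4, 11, 7, 10), (4, 11, 6, 10), (4, 10, 10, 10), (4, 10, 9, 10), (4, 10, 8, 10),
    (4, 10, 7, 10), (4, 10, 6, 10), (4, 9, 9, 10), (4, 9, 8, 10), (4, 9, 7, 10),
    (4, 9, 6, 10), (4, 9, 5, 10), (4, 8, 8, 10), (4, 8, 7, 10), (4, 8, 6, 10), (4, 8, 5, 10),
    (4, 8, 4, 10), (4, 7, 7, 10), (4, 7, 6, 10), (4, 7, 5, 10), (4, 7, 4, 10), (4, 7, 3, 10),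
    (4, 6, 6, 10), (4, 6, 5, 10), (4, 6, 4, 10), (4, 6, 3, 10), (4, 6, 2, 10), (4, 5, 5, 10),
    (4, 5, 4, 10), (4, 5, 3, 10), (4, 5, 2, 10), (4, 5, 1, 10), (4, 4, 4, 10), (4, 4, 3, 10),
    (4, 4, 2, 10), (4, 4, 1, 10), (4, 4, 0, 10), (4, 3, 3, 10), (4, 3, 2, 10), (4, 3, 1, 10),
    (4, 3, 0, 10), (4, 2, 2, 10), (4, 2, 1, 10), (4, 2, 0, 10), (4, 1, 1, 10), (4, 1, 0, 10),
    (4, 0, 0, 10)]),
  (3, [(3, 12, 12, 10), (3, 12, 11, 10), (3, 12, 10, 10), (3, 12, 9, 10), (3, 12, 8, 10),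
    (3, 11, 11, 10), (3, 11, 10, 10), (3, 11, 9, 10), (3, 11, 8, 10), (3, 10, 10, 10),
    (3, 10, 9, 10), (3, 10, 8, 10), (3, 10, 7, 10), (3, 9, 9, 10), (3, 9, 8, 10),
    (3, 9, 7, 10), (3, 9, 6, 10), (3, 8, 8, 10), (3, 8, 7, 10), (3, 8, 6, 10), (3, 7, 7, 10),
    (3, 7, 6, 10), (3, 7, 5, 10), (3, 7, 4, 10), (3, 6, 6, 10), (3, 6, 5, 10), (3, 6, 4, 10),
    (3, 6, 3, 10), (3, 5, 5, 10), (3, 5, 4, 10), (3, 5, 3, 10), (3, 5, 2, 10), (3, 4, 4, 10),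
    (3, 4, 3, 10), (3, 4, 2, 10), (3, 4, 1, 10), (3, 3, 3, 10), (3, 3, 2, 10), (3, 3, 1, 10),
    (3, 3, 0, 10), (3, 2, 2, 10), (3, 2, 1, 10), (3, 2, 0, 10), (3, 1, 1, 10), (3, 1, 0, 10),
    (3, 0, 0, 10)]),
  (2, [(2, 12, 12, 10), (2, 12, 11, 10), (2, 12, 10, 10), (2, 11, 11, 9), (2, 11, 10, 9),
    (2, 10, 10, 8), (2, 10, 9, 8), (2, 9, 9, 7), (2, 9, 8, 7), (2, 8, 8, 6), (2, 7, 7, 5),
    (2, 7, 6, 5), (2, 6, 6, 4), (2, 6, 5, 4), (2, 5, 5, 3), (2, 5, 4, 3), (2, 4, 4, 2),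
    (2, 4, 3, 2), (2, 4, 2, 2), (2, 3, 3, 2), (2, 3, 2, 2), (2, 3, 1, 2), (2, 2, 2, 2),
    (2, 2, 1, 2), (2, 2, 0, 2), (2, 1, 1, 2), (2, 1, 0, 2), (2, 0, 0, 2)]),
  (1, [(1, 3, 3, 2), (1, 2, 2, 1), (1, 2, 1, 1), (1, 1, 1, 1), (1, 1, 0, 1), (1, 0, 0, 1)]),
  (0, [(0, 1, 1, 1), (0, 0, 0, 0)])]

/-- the squares `kf t ^ 2` are larger than `t (M - t) + 1` -/
def kf12_5_12 (t : ℕ) : ℕ := ([2, 3, 4, 4, 4, 3, 2] : List ℕ).getD t 0

lemma ok12_5_12 : Kern.okF 12 6 = true ∧ Kern.okK 6 kf12_5_12 = true ∧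
    Kern.srt (Kern.keyF 13) (Kern.flt gs12_5_12) = true ∧
    Kern.allTab 6 12 12 (Kern.okE 12 6 kf12_5_12)
      (fun a b c => (Kern.lookF (Kern.flt gs12_5_12) a b c).isSome) = true := by
  decide +kernel

/-- a block -/
noncomputable def bk12_5_12 (j p k : ℕ) : Bool :=
  Kern.blk (fun a : ℕ × ℕ × ℕ × ℕ => a.1) (fun a => a.2.1) (fun a => a.2.2.2) (fun _ => 0)
    (fun _ => 0) (fun _ => 0) 6 12 6 (fun l => (fun l => (Le.ld4 12 5 l || PatX.patX 12 5 cl5 l) || starT 12 l) (Kern.revT l)) 4 gs12_5_12 j p k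

lemma b12_5_12_0_0 : bk12_5_12 0 0 70 = true := by decide +kernel

lemma b12_5_12_1_0 : bk12_5_12 1 0 63 = true := by decide +kernel

lemma b12_5_12_2_0 : bk12_5_12 2 0 27 = true := by decide +kernel

lemma b12_5_12_2_27 : bk12_5_12 2 27 28 = true := by decide +kernel

lemma b12_5_12_2_55 : bk12_5_12 2 55 2 = true := by decide +kernel

lemma b12_5_12_3_0 : bk12_5_12 3 0 16 = true := by decide +kernel

lemma b12_5_12_3_16 : bk12_5_12 3 16 4 = true := by decide +kernel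

lemma b12_5_12_3_20 : bk12_5_12 3 20 4 = true := by decide +kernel

lemma b12_5_12_3_24 : bk12_5_12 3 24 4 = true := by decide +kernel

lemma b12_5_12_3_28 : bk12_5_12 3 28 5 = true := by decide +kernel

lemma b12_5_12_3_33 : bk12_5_12 3 33 9 = true := by decide +kernel

lemma b12_5_12_3_42 : bk12_5_12 3 42 4 = true := by decide +kernel

lemma b12_5_12_4_0 : bk12_5_12 4 0 9 = true := by decide +kernel

lemma b12_5_12_4_9 : bk12_5_12 4 9 2 = true := by decide +kernel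

lemma b12_5_12_4_11 : bk12_5_12 4 11 1 = true := by decide +kernel

lemma b12_5_12_4_12 : bk12_5_12 4 12 1 = true := by decide +kernel

lemma b12_5_12_4_13 : bk12_5_12 4 13 1 = true := by decide +kernel

lemma b12_5_12_4_14 : bk12_5_12 4 14 1 = true := by decide +kernel

lemma b12_5_12_4_15 : bk12_5_12 4 15 2 = true := by decide +kernel

lemma b12_5_12_4_17 : bk12_5_12 4 17 11 = true := by decide +kernel

lemma b12_5_12_5_0 : bk12_5_12 5 0 6 = true := by decide +kernel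

lemma b12_5_12_6_0 : bk12_5_12 6 0 2 = true := by decide +kernel

lemma c12_5_12_0 : bk12_5_12 0 0 70 = true := b12_5_12_0_0

lemma c12_5_12_1 : bk12_5_12 1 0 63 = true := b12_5_12_1_0

lemma c12_5_12_2 : bk12_5_12 2 0 57 = true := by
  have h0 := Kern.blk_join b12_5_12_2_0 b12_5_12_2_27
  have h1 := Kern.blk_join h0 b12_5_12_2_55
  exact h1

lemma c12_5_12_3 : bk12_5_12 3 0 46 = true := by
  have h0 := Kern.blk_join b12_5_12_3_0 b12_5_12_3_16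
  have h1 := Kern.blk_join h0 b12_5_12_3_20
  have h2 := Kern.blk_join h1 b12_5_12_3_24
  have h3 := Kern.blk_join h2 b12_5_12_3_28
  have h4 := Kern.blk_join h3 b12_5_12_3_33
  have h5 := Kern.blk_join h4 b12_5_12_3_42
  exact h5

lemma c12_5_12_4 : bk12_5_12 4 0 28 = true := by
  have h0 := Kern.blk_join b12_5_12_4_0 b12_5_12_4_9
  have h1 := Kern.blk_join h0 b12_5_12_4_11
  have h2 := Kern.blk_join h1 b12_5_12_4_12
  have h3 := Kern.blk_join h2 b12_5_12_4_13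
  have h4 := Kern.blk_join h3 b12_5_12_4_14
  have h5 := Kern.blk_join h4 b12_5_12_4_15
  have h6 := Kern.blk_join h5 b12_5_12_4_17
  exact h6

lemma c12_5_12_5 : bk12_5_12 5 0 6 = true := b12_5_12_5_0

lemma c12_5_12_6 : bk12_5_12 6 0 2 = true := b12_5_12_6_0

lemma e12_5_12 : Kern.EnS (fun a : ℕ × ℕ × ℕ × ℕ => a.1) (fun a => a.2.1) (fun _ => 0) (fun _ => 0)
    6 12 (5 + 1) (fun l => (fun l => (Le.ld4 12 5 l || PatX.patX 12 5 cl5 l) || starT 12 l) (Kern.revT l)) (4 + 1) (Kern.flt gs12_5_12) := by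
  refine Kern.EnS.of_blk (b := fun a => a.2.2.2) (bg := fun _ => 0) (by decide +kernel) fun j hj => ?_
  have hj' : j < 7 := hj
  interval_cases j
  · exact c12_5_12_0
  · exact c12_5_12_1
  · exact c12_5_12_2
  · exact c12_5_12_3
  · exact c12_5_12_4
  · exact c12_5_12_5
  · exact c12_5_12_6

theorem part12_5_12 : PartC ((12 : ℕ) : ℤ) 12 5 (fun l => (Le.ld4 12 5 l || PatX.patX 12 5 cl5 l) || starT 12 l) := by
  obtain ⟨h1, h2, h3, h4⟩ := ok12_5_12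
  exact PartC.enumS (N := 13) (by norm_num) (by norm_num) h1 h2 h3 h4 e12_5_12

end FinK

/-- **`R = 12`, `n = 5`, `∑ h ≤ 12`: no items** -/
theorem noItC12_5_12 : NoItC 12 12 5 :=
  NoItC.of_ls (by norm_num) (by norm_num) FinK.part12_5_12

end Pool.Agent.Lib.MP_f04ccf_co
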