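import Pool.Agent.Lib.MP_f04ccf_co.M.LdS

/-!
MP_f04ccf_co, PLAN W, finite part: **the kernel test of the loads is sound**, second part.
`Ld.Ctx.node_sound`, `Ld.Ctx.srch_sound`: a node and the search; `ItC.ldT`: if `ldT R rows = true`
then there are no items of version [C] with levels whose rows `(t, h, mu)` are `rows`.
-/

set_option autoImplicit false

namespace Pool.Agent.Lib.MP_f04ccf_co

open Finset

attribute [local instance] Classical.propDecidable

namespace Ld

namespace Ctx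

variable {R n : ℕ} {t s h e mu m : ℕ → ℤ} {P K : ℕ → ℕ → ℕ} {N W : ℕ → ℕ → ℤ}
  {r : ℕ → Rw} {L : List Rw} (C : Ctx R n t s h e mu m P K N W r L) {lo hi : Rw → Rw → ℕ}

include C in
/-- the cap of a host in a row -/
lemma cap_spec (I : C.Iv lo hi) {x z : ℕ} (hx : x < n) (hz : z < n) (hxz : x ≠ z) :
    min (P x z + K x z - lo (r x) (r z)) (min 16 (r x).mu)
      ≤ cap R lo hi (mkR R lo hi L (r x)) (mkR R lo hi L (r z)) := by
  have h0 : cap R lo hi (mkR R lo hi L (r x)) (mkR R lo hi L (r z)) =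
      Bool.rec (motive := fun _ => ℕ)
        (mi (kc R (r z) (en (r z) (ns hi L (r z)) (nm hi L (r z))) (pin lo L (r z)) 16 0)
          (Nat.div (slk R lo hi (mkR R lo hi L (r x)) (mkR R lo hi L (r z)))
            (Nat.mul 2 (r z).g))) (r x).mu (Nat.beq (r z).g 0) := rfl
  rw [h0]
  rcases h1 : Nat.beq (r z).g 0 with _ | _
  · have hg : (r z).g ≠ 0 := fun h2 => by
      rw [h2] at h1
      exact absurd h1 (by simp)
    show _ ≤ mi _ _
    rw [mi_eq]
    have hxz' : x ∈ (range n).erase z := mem_erase.2 ⟨hxz, mem_range.2 hx⟩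
    have hE := C.en_spec I.hi hz
    have hpin := pin_spec C I hz
    -- the row test
    have h2 : ∀ b, b ≤ P x z + K x z - lo (r x) (r z) →
        Ld.rt R (r z) (en (r z) (ns hi L (r z)) (nm hi L (r z))) (pin lo L (r z)) b = true := by
      intro b hb
      refine C.rt_spec hz hE hpin ?_
      have h3 : pin lo L (r z) = ∑ j ∈ (range n).erase z, lo (r j) (r z) :=
        C.lsum (fun y => lo y (r z)) hz
      rw [h3, ← add_sum_erase _ _ hxz', ← add_sum_erase _ (fun x => P x z + K x z) hxz']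
      have h4 : ∑ j ∈ ((range n).erase z).erase x, lo (r j) (r z)
          ≤ ∑ j ∈ ((range n).erase z).erase x, (P j z + K j z) := by
        refine sum_le_sum fun j hj => ?_
        have hj' := mem_of_mem_erase hj
        have := I.lo j (mem_range.1 (mem_of_mem_erase hj')) z hz (ne_of_mem_erase hj')
        omega
      have h5 := I.lo x hx z hz hxz
      omega
    have h3 := kc_spec h2 16 0
    have h4 := slk_spec C I hx hz hxz
    have h5 : P x z + K x z - lo (r x) (r z)
        ≤ slk R lo hi (mkR R lo hi L (r x)) (mkR R lo hi L (r z)) / (2 * (r z).g) := by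
      rw [Nat.le_div_iff_mul_le (by omega)]
      exact h4
    have h6 : P x z + K x z - lo (r x) (r z)
        ≤ Nat.div (slk R lo hi (mkR R lo hi L (r x)) (mkR R lo hi L (r z)))
          (Nat.mul 2 (r z).g) := h5
    omega
  · show _ ≤ (r x).mu
    omega

include C in
/-- the test of a host is not a contradiction -/
lemma host_spec (I : C.Iv lo hi) {x : ℕ} (hx : x < n) :
    host R lo hi ((L.map (mkR R lo hi L)).reverse ++ []) (mkR R lo hi L (r x)) = false := by
  have h0 : host R lo hi ((L.map (mkR R lo hi L)).reverse ++ []) (mkR R lo hi L (r x))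
      = Bool.rec (motive := fun _ => Bool)
        (Bool.rec (motive := fun _ => Bool) false
          (Nat.ble (Nat.succ (Ld.lsum (fun f => Bool.rec (motive := fun _ => ℕ)
            (Nat.add (cap R lo hi (mkR R lo hi L (r x)) f) (lo (r x) f.1)) 0
              (Nat.beq (r x).i f.1.i)) ((L.map (mkR R lo hi L)).reverse ++ []))) (r x).mu)
          (Nat.ble (r x).mu 16)) false (Nat.beq (r x).mu 0) := rfl
  rw [h0]
  rcases h1 : Nat.beq (r x).mu 0 with _ | _
  swap
  · rfl
  rcases h2 : Nat.ble (r x).mu 16 with _ | _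
  · rfl
  show Nat.ble _ _ = false
  have h3 : (r x).mu ≤ 16 := Nat.le_of_ble_eq_true h2
  have h4 : Ld.lsum (fun f => Bool.rec (motive := fun _ => ℕ)
            (Nat.add (cap R lo hi (mkR R lo hi L (r x)) f) (lo (r x) f.1)) 0
              (Nat.beq (r x).i f.1.i)) ((L.map (mkR R lo hi L)).reverse ++ [])
      = ∑ z ∈ (range n).erase x, (cap R lo hi (mkR R lo hi L (r x)) (mkR R lo hi L (r z))
        + lo (r x) (r z)) := by
    rw [List.append_nil, lsum_eq, List.map_reverse, List.sum_reverse, List.map_map, ← lsum_eq]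
    exact C.lsum (fun y => cap R lo hi (mkR R lo hi L (r x)) (mkR R lo hi L y) + lo (r x) y) hx
  rw [h4]
  rcases h5 : Nat.ble (Nat.succ (∑ z ∈ (range n).erase x, (cap R lo hi (mkR R lo hi L (r x))
    (mkR R lo hi L (r z)) + lo (r x) (r z)))) (r x).mu with _ | _
  · rfl
  exfalso
  have h6 : ∑ z ∈ (range n).erase x, (cap R lo hi (mkR R lo hi L (r x))
    (mkR R lo hi L (r z)) + lo (r x) (r z)) < (r x).mu := Nat.le_of_ble_eq_true h5
  -- the supply
  have h7 := C.H.sup x hx
  rw [← C.rmu x hx] at h7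
  have h8 : (r x).mu ≤ ∑ z ∈ (range n).erase x, (P x z + K x z) := by exact_mod_cast h7
  have hc : ∀ z ∈ (range n).erase x, min (P x z + K x z - lo (r x) (r z)) (r x).mu
      ≤ cap R lo hi (mkR R lo hi L (r x)) (mkR R lo hi L (r z)) := fun z hz => by
    have := cap_spec C I hx (mem_range.1 (mem_of_mem_erase hz)) (ne_of_mem_erase hz).symm
    omega
  by_cases h9 : ∃ z ∈ (range n).erase x, (r x).mu ≤ P x z + K x z - lo (r x) (r z)
  · obtain ⟨z, hz, h10⟩ := h9
    have h11 := hc z hz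
    have h12 : cap R lo hi (mkR R lo hi L (r x)) (mkR R lo hi L (r z)) + lo (r x) (r z)
        ≤ ∑ z ∈ (range n).erase x, (cap R lo hi (mkR R lo hi L (r x))
          (mkR R lo hi L (r z)) + lo (r x) (r z)) :=
      single_le_sum (f := fun z => cap R lo hi (mkR R lo hi L (r x)) (mkR R lo hi L (r z))
        + lo (r x) (r z)) (fun _ _ => Nat.zero_le _) hz
    omega
  · push Not at h9
    have h13 : ∑ z ∈ (range n).erase x, (P x z + K x z)
        ≤ ∑ z ∈ (range n).erase x, (cap R lo hi (mkR R lo hi L (r x))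
          (mkR R lo hi L (r z)) + lo (r x) (r z)) := by
      refine sum_le_sum fun z hz => ?_
      have h10 := hc z hz
      have h11 := h9 z hz
      omega
    omega

include C in
/-- **a node is not a contradiction** -/
lemma node_sound (I : C.Iv lo hi) : node R L lo hi ≠ true := by
  intro h1
  rcases prep_spec lo hi L _ L [] h1 with ⟨z, hz, h2⟩ | h2
  · exact not_bad C I hz h2
  · obtain ⟨d, hd, h3⟩ := lany_eq h2
    rw [List.append_nil, List.mem_reverse, List.mem_map] at hd
    obtain ⟨z, hz, rfl⟩ := hd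
    obtain ⟨x, hx, rfl⟩ := C.mem hz
    rw [host_spec C I hx] at h3
    exact absurd h3 (by simp)

lemma upd_same {f : Rw → Rw → ℕ} {x z : Rw} {v : ℕ} {a b : Rw} (h1 : a.i = x.i)
    (h2 : b.i = z.i) : upd f x z v a b = v := by
  have e1 : Nat.beq a.i x.i = true := by rw [Nat.beq_eq]; exact h1
  have e2 : Nat.beq b.i z.i = true := by rw [Nat.beq_eq]; exact h2
  unfold upd
  rw [e1, e2]

lemma upd_else {f : Rw → Rw → ℕ} {x z : Rw} {v : ℕ} {a b : Rw} (h : a.i ≠ x.i ∨ b.i ≠ z.i) :
    upd f x z v a b = f a b := by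
  unfold upd
  rcases e1 : Nat.beq a.i x.i with _ | _
  · rfl
  · rcases e2 : Nat.beq b.i z.i with _ | _
    · rfl
    · rw [Nat.beq_eq] at e1 e2
      tauto

include C in
/-- the values of one cell are fixed -/
lemma Iv.upd (I : C.Iv lo hi) {x z : ℕ} (hx : x < n) (hz : z < n) (hxz : x ≠ z) :
    C.Iv (Ld.upd (Ld.upd lo (r x) (r z) (P x z)) (r z) (r x) (P z x))
      (Ld.upd (Ld.upd hi (r x) (r z) (P x z)) (r z) (r x) (P z x)) := by
  have key : ∀ f : Rw → Rw → ℕ, ∀ a < n, ∀ b < n,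
      Ld.upd (Ld.upd f (r x) (r z) (P x z)) (r z) (r x) (P z x) (r a) (r b) = P a b ∨
      Ld.upd (Ld.upd f (r x) (r z) (P x z)) (r z) (r x) (P z x) (r a) (r b) = f (r a) (r b) := by
    intro f a ha b hb
    by_cases h1 : a = z ∧ b = x
    · left
      rw [h1.1, h1.2]
      exact upd_same rfl rfl
    · rw [upd_else (f := Ld.upd f (r x) (r z) (P x z)) (by
        rw [C.ri a ha, C.ri b hb, C.ri z hz, C.ri x hx]
        tauto)]
      by_cases h2 : a = x ∧ b = z
      · left
        rw [h2.1, h2.2]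
        exact upd_same rfl rfl
      · right
        exact upd_else (by
          rw [C.ri a ha, C.ri b hb, C.ri z hz, C.ri x hx]
          tauto)
  refine ⟨fun a ha b hb hab => ?_, fun a ha b hb hab => ?_⟩
  · rcases key lo a ha b hb with h1 | h1
    · rw [h1]
    · rw [h1]
      exact I.lo a ha b hb hab
  · rcases key hi a ha b hb with h1 | h1
    · rw [h1]
    · rw [h1]
      exact I.hi a ha b hb hab

include C in
lemma cfg_spec (I : C.Iv lo hi) {x z : ℕ} (hx : x < n) (hz : z < n) (hxz : x ≠ z)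
    {ih : (Rw → Rw → ℕ) → (Rw → Rw → ℕ) → Bool} {p q : ℕ} (hp : P x z = p) (hq : P z x = q)
    (h : cfg R lo hi (r x) (r z) ih p q = true) :
    ih (Ld.upd (Ld.upd lo (r x) (r z) (P x z)) (r z) (r x) (P z x))
      (Ld.upd (Ld.upd hi (r x) (r z) (P x z)) (r z) (r x) (P z x)) = true := by
  have h1 : Nat.ble p (hi (r x) (r z)) = true := by
    rw [← hp]
    exact Nat.ble_eq_true_of_le (I.hi x hx z hz hxz)
  have h2 : Nat.ble q (hi (r z) (r x)) = true := by
    rw [← hq]
    exact Nat.ble_eq_true_of_le (I.hi z hz x hx hxz.symm)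
  have h3 : Nat.ble (Nat.add p q) (cG R (r x) (r z)) = true := by
    refine Nat.ble_eq_true_of_le ?_
    have h4 := C.H.pc2 x hx z hz hxz
    have h5 := C.H.pc1 x hx z hz hxz
    rw [hp, hq] at h4 h5
    show p + q ≤ Bool.rec (motive := fun _ => ℕ) 1 2 (Nat.ble R (Nat.add (Nat.mul (r x).t (r z).t) 4))
    rcases h6 : Nat.ble R (Nat.add (Nat.mul (r x).t (r z).t) 4) with _ | _
    · show p + q ≤ 1
      by_contra h7
      have h8 := h5 (by omega)
      rw [← C.rt x hx, ← C.rt z hz] at h8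
      have h9 : R ≤ (r x).t * (r z).t + 4 := by exact_mod_cast h8
      have h10 : Nat.ble R (Nat.add (Nat.mul (r x).t (r z).t) 4) = true :=
        Nat.ble_eq_true_of_le h9
      rw [h10] at h6
      exact absurd h6 (by simp)
    · show p + q ≤ 2
      omega
  unfold cfg at h
  rw [h1, h2, h3] at h
  rw [hp, hq]
  exact h

include C in
/-- **the search is sound** -/
theorem srch_sound : ∀ (cs : List (Rw × Rw)) (lo hi : Rw → Rw → ℕ), C.Iv lo hi →
    (∀ c ∈ cs, ∃ x < n, ∃ z < n, x ≠ z ∧ c = (r x, r z)) → srch R L cs lo hi ≠ true := by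
  intro cs
  induction cs with
  | nil =>
    intro lo hi I _ h
    exact node_sound C I h
  | cons c cs ih =>
    intro lo hi I hc h
    obtain ⟨x, hx, z, hz, hxz, rfl⟩ := hc _ List.mem_cons_self
    have hc' := fun c hc1 => hc c (List.mem_cons_of_mem _ hc1)
    have h0 : srch R L ((r x, r z) :: cs) lo hi = Bool.rec (motive := fun _ => Bool)
      (Bool.rec (motive := fun _ => Bool)
        (cfg R lo hi (r x) (r z) (srch R L cs) 0 0 && (cfg R lo hi (r x) (r z) (srch R L cs) 1 0 &&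
          (cfg R lo hi (r x) (r z) (srch R L cs) 0 1 && (cfg R lo hi (r x) (r z) (srch R L cs) 2 0 &&
          (cfg R lo hi (r x) (r z) (srch R L cs) 1 1
            && cfg R lo hi (r x) (r z) (srch R L cs) 0 2)))))
        true (node R L lo hi))
      (srch R L cs lo hi) (Nat.beq (Nat.add (hi (r x) (r z)) (hi (r z) (r x))) 0) := rfl
    rw [h0] at h
    rcases h1 : Nat.beq (Nat.add (hi (r x) (r z)) (hi (r z) (r x))) 0 with _ | _
    · rw [h1] at h
      rcases h2 : node R L lo hi with _ | _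
      · rw [h2] at h
        have h3 : (cfg R lo hi (r x) (r z) (srch R L cs) 0 0
          && (cfg R lo hi (r x) (r z) (srch R L cs) 1 0 &&
          (cfg R lo hi (r x) (r z) (srch R L cs) 0 1 && (cfg R lo hi (r x) (r z) (srch R L cs) 2 0 &&
          (cfg R lo hi (r x) (r z) (srch R L cs) 1 1
            && cfg R lo hi (r x) (r z) (srch R L cs) 0 2))))) = true := h
        simp only [Bool.and_eq_true] at h3
        obtain ⟨c1, c2, c3, c4, c5, c6⟩ := h3
        have h4 := C.H.pc2 x hx z hz hxz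
        have h5 : (P x z = 0 ∧ P z x = 0) ∨ (P x z = 1 ∧ P z x = 0) ∨ (P x z = 0 ∧ P z x = 1) ∨
          (P x z = 2 ∧ P z x = 0) ∨ (P x z = 1 ∧ P z x = 1) ∨ (P x z = 0 ∧ P z x = 2) := by
          omega
        have I' := I.upd C hx hz hxz
        rcases h5 with ⟨a, b⟩ | ⟨a, b⟩ | ⟨a, b⟩ | ⟨a, b⟩ | ⟨a, b⟩ | ⟨a, b⟩
        · exact ih _ _ I' hc' (cfg_spec C I hx hz hxz a b c1)
        · exact ih _ _ I' hc' (cfg_spec C I hx hz hxz a b c2)
        · exact ih _ _ I' hc' (cfg_spec C I hx hz hxz a b c3)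
        · exact ih _ _ I' hc' (cfg_spec C I hx hz hxz a b c4)
        · exact ih _ _ I' hc' (cfg_spec C I hx hz hxz a b c5)
        · exact ih _ _ I' hc' (cfg_spec C I hx hz hxz a b c6)
      · exact node_sound C I h2
    · rw [h1] at h
      exact ih lo hi I hc' h

include C in
lemma prs_spec : ∀ c ∈ prs L, ∃ x < n, ∃ z < n, x ≠ z ∧ c = (r x, r z) := by
  have hnd : (L.map Rw.i).Nodup := by
    rw [(C.hp.map _).nodup_iff, List.map_map]
    have h1 : (List.range n).map (Rw.i ∘ r) = (List.range n).map id :=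
      List.map_congr_left fun j hj => C.ri j (List.mem_range.1 hj)
    rw [h1, List.map_id]
    exact List.nodup_range
  have hL : ∀ z ∈ L, ∃ j < n, r j = z := fun z hz => C.mem hz
  clear C
  induction L with
  | nil =>
    intro c hc
    exact absurd hc (by simp [prs])
  | cons a L ih =>
    intro c hc
    have h0 : prs (a :: L) = (L.map fun z => (a, z)) ++ prs L := rfl
    rw [h0] at hc
    rw [List.map_cons, List.nodup_cons] at hnd
    rcases List.mem_append.1 hc with h1 | h1
    · obtain ⟨z, hz, rfl⟩ := List.mem_map.1 h1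
      obtain ⟨x, hx, rfl⟩ := hL a List.mem_cons_self
      obtain ⟨y, hy, rfl⟩ := hL z (List.mem_cons_of_mem _ hz)
      refine ⟨x, hx, y, hy, ?_, rfl⟩
      rintro rfl
      exact hnd.1 (List.mem_map.2 ⟨r x, hz, rfl⟩)
    · exact ih hnd.2 (fun z hz => hL z (List.mem_cons_of_mem _ hz)) c h1

end Ctx

/-- a row with its `q` -/
noncomputable def qv (R : ℕ) (L : List Rw) (z : Rw) : ℕ :=
  Bool.rec (motive := fun _ => ℕ) 0
    (Bool.rec (motive := fun _ => ℕ) 1 2
      (Ld.rt R z (en z (ns (cG R) L z) (nm (cG R) L z)) 2 0))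
    (Ld.rt R z (en z (ns (cG R) L z) (nm (cG R) L z)) 1 0)

/-- a row with its `q` -/
noncomputable def rq (R : ℕ) (L : List Rw) (z : Rw) : Rw :=
  ⟨z.i, z.t, z.h, z.mu, z.B, z.c, z.g, qv R L z⟩

lemma top_spec (R : ℕ) (L : List Rw) (cont : List Rw → Bool) :
    ∀ (M : List Rw) (acc : List Rw), top R L cont M acc = true →
      (∃ z ∈ M, Ld.rt R z (en z (ns (cG R) L z) (nm (cG R) L z)) 0 0 = false) ∨
        cont ((M.map (rq R L)).reverse ++ acc) = true := by
  intro M
  induction M with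
  | nil =>
    intro acc h
    exact Or.inr h
  | cons z M ih =>
    intro acc h
    have h0 : top R L cont (z :: M) acc = frc (en z (ns (cG R) L z) (nm (cG R) L z)) fun E =>
      Bool.rec (motive := fun _ => Bool) true
        (Bool.rec (motive := fun _ => Bool)
          (top R L cont M (⟨z.i, z.t, z.h, z.mu, z.B, z.c, z.g, 0⟩ :: acc))
          (Bool.rec (motive := fun _ => Bool)
            (top R L cont M (⟨z.i, z.t, z.h, z.mu, z.B, z.c, z.g, 1⟩ :: acc))
            (top R L cont M (⟨z.i, z.t, z.h, z.mu, z.B, z.c, z.g, 2⟩ :: acc)) (Ld.rt R z E 2 0))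
          (Ld.rt R z E 1 0)) (Ld.rt R z E 0 0) := rfl
    rw [h0, frc_eq] at h
    rcases h1 : Ld.rt R z (en z (ns (cG R) L z) (nm (cG R) L z)) 0 0 with _ | _
    · exact Or.inl ⟨z, List.mem_cons_self, h1⟩
    · rw [h1] at h
      have h2 : top R L cont M (rq R L z :: acc) = true := by
        unfold rq qv
        rcases h3 : Ld.rt R z (en z (ns (cG R) L z) (nm (cG R) L z)) 1 0 with _ | _
        · rw [h3] at h
          exact h
        · rw [h3] at h
          rcases h4 : Ld.rt R z (en z (ns (cG R) L z) (nm (cG R) L z)) 2 0 with _ | _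
          · rw [h4] at h
            exact h
          · rw [h4] at h
            exact h
      rcases ih _ h2 with ⟨y, hy, h3⟩ | h3
      · exact Or.inl ⟨y, List.mem_cons_of_mem _ hy, h3⟩
      · right
        rw [List.map_cons, List.reverse_cons, List.append_assoc]
        exact h3

namespace Ctx

variable {R n : ℕ} {t s h e mu m : ℕ → ℤ} {P K : ℕ → ℕ → ℕ} {N W : ℕ → ℕ → ℤ}
  {r : ℕ → Rw} {L : List Rw} (C : Ctx R n t s h e mu m P K N W r L)

include C in
lemma cG_spec {x z : ℕ} (hx : x < n) (hz : z < n) (hxz : x ≠ z) :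
    P x z ≤ cG R (r x) (r z) := by
  have h4 := C.H.pc2 x hx z hz hxz
  have h5 := C.H.pc1 x hx z hz hxz
  show P x z ≤ Bool.rec (motive := fun _ => ℕ) 1 2
    (Nat.ble R (Nat.add (Nat.mul (r x).t (r z).t) 4))
  rcases h6 : Nat.ble R (Nat.add (Nat.mul (r x).t (r z).t) 4) with _ | _
  · show P x z ≤ 1
    by_contra h7
    have h8 := h5 (by omega)
    rw [← C.rt x hx, ← C.rt z hz] at h8
    have h9 : R ≤ (r x).t * (r z).t + 4 := by exact_mod_cast h8
    have h10 : Nat.ble R (Nat.add (Nat.mul (r x).t (r z).t) 4) = true :=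
      Nat.ble_eq_true_of_le h9
    rw [h10] at h6
    exact absurd h6 (by simp)
  · show P x z ≤ 2
    omega

include C in
lemma qv_spec {x z : ℕ} (hx : x < n) (hz : z < n) (hxz : x ≠ z) : P x z ≤ qv R L (r z) := by
  have hE := C.en_spec (hi := cG R) (fun x hx z hz hxz => cG_spec C hx hz hxz) hz
  have h1 : ∀ a, a ≤ P x z →
      Ld.rt R (r z) (en (r z) (ns (cG R) L (r z)) (nm (cG R) L (r z))) a 0 = true := by
    intro a ha
    have h2 : P x z ≤ ∑ x ∈ (range n).erase z, P x z :=
      single_le_sum (f := fun x => P x z) (fun _ _ => Nat.zero_le _)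
        (mem_erase.2 ⟨hxz, mem_range.2 hx⟩)
    have h3 : ∑ x ∈ (range n).erase z, P x z ≤ ∑ x ∈ (range n).erase z, (P x z + K x z) :=
      sum_le_sum fun x _ => Nat.le_add_right _ _
    exact C.rt_spec hz hE (by omega) (by omega)
  have h4 := C.H.pc2 x hx z hz hxz
  unfold qv
  rcases h2 : Ld.rt R (r z) (en (r z) (ns (cG R) L (r z)) (nm (cG R) L (r z))) 1 0 with _ | _
  · show P x z ≤ 0
    by_contra h3
    rw [h1 1 (by omega)] at h2
    exact absurd h2 (by simp)
  · rcases h3 : Ld.rt R (r z) (en (r z) (ns (cG R) L (r z)) (nm (cG R) L (r z))) 2 0 with _ | _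
    · show P x z ≤ 1
      by_contra h5
      rw [h1 2 (by omega)] at h3
      exact absurd h3 (by simp)
    · show P x z ≤ 2
      omega

include C in
/-- the test of the rows is sound -/
theorem top_sound : top R L (fun L' => srch R L' (prs L') (fun _ _ => 0)
    (fun x z => mi z.q (cG R x z))) L [] ≠ true := by
  intro hh
  rcases top_spec R L _ L [] hh with ⟨z, hz, h1⟩ | h1
  · obtain ⟨j, hj, rfl⟩ := C.mem hz
    have hE := C.en_spec (hi := cG R) (fun x hx z hz hxz => cG_spec C hx hz hxz) hj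
    rw [C.rt_spec hj hE (Nat.zero_le _) (Nat.zero_le _)] at h1
    exact absurd h1 (by simp)
  · rw [List.append_nil] at h1
    have C' : Ctx R n t s h e mu m P K N W (fun j => rq R L (r j)) (L.map (rq R L)).reverse := by
      refine ⟨C.H, C.R2, C.m0, ?_, C.ri, C.rt, C.rh, C.rmu, C.rB, C.rc, C.rg⟩
      refine (List.reverse_perm _).trans ?_
      have h2 := C.hp.map (rq R L)
      rwa [List.map_map] at h2
    refine srch_sound C' _ _ _ ⟨fun _ _ _ _ _ => Nat.zero_le _, fun x hx z hz hxz => ?_⟩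
      (prs_spec C') h1
    show P x z ≤ mi (qv R L (r z)) (cG R (r x) (r z))
    rw [mi_eq]
    exact le_min (qv_spec C hx hz hxz) (cG_spec C hx hz hxz)

end Ctx

/-- a raw row -/
noncomputable def rr {δ : Type} (R k : ℕ) (a : ℕ × ℕ × ℕ × δ) : Rw :=
  ⟨k, a.1, a.2.1, a.2.2.1,
    Nat.sub (Nat.mul 2 (Nat.mul a.2.2.1 a.2.1)) (Nat.mul a.2.2.1 (Nat.succ a.2.2.1)),
    Nat.sub R a.1, Nat.sub (Nat.sub R a.1) (isq (Nat.add R (Nat.mul a.1 a.1))), 0⟩

lemma raw_spec {δ : Type} (R : ℕ) (cont : List Rw → Bool) (x : ℕ → ℕ × ℕ × ℕ × δ) :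
    ∀ (n k : ℕ) (acc : List Rw), raw R cont ((List.range' k n).map x) k acc
      = cont (((List.range' k n).map fun j => rr R j (x j)).reverse ++ acc) := by
  intro n
  induction n with
  | zero =>
    intro k acc
    rfl
  | succ n ih =>
    intro k acc
    have h0 : List.range' k (n + 1) = k :: List.range' (k + 1) n := rfl
    rw [h0, List.map_cons, List.map_cons, List.reverse_cons, List.append_assoc,
      List.singleton_append, ← ih (k + 1) (rr R k (x k) :: acc)]
    have h1 : raw R cont (x k :: (List.range' (k + 1) n).map x) k acc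
        = frc (Nat.sub (Nat.mul 2 (Nat.mul (x k).2.2.1 (x k).2.1))
      (Nat.mul (x k).2.2.1 (Nat.succ (x k).2.2.1))) fun B =>
      frc (Nat.sub R (x k).1) fun c =>
      frc (Nat.sub c (isq (Nat.add R (Nat.mul (x k).1 (x k).1)))) fun g =>
      raw R cont ((List.range' (k + 1) n).map x) (Nat.succ k)
        (⟨k, (x k).1, (x k).2.1, (x k).2.2.1, B, c, g, 0⟩ :: acc) := rfl
    rw [h1, frc_eq, frc_eq, frc_eq]
    rfl

lemma cs {R a b x y : ℤ} (hR : 0 ≤ R) (ha : 0 ≤ a) (hb : 0 ≤ b) (hx : 0 ≤ x) (hy : 0 ≤ y)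
    (h1 : R + a ^ 2 < (x + 1) ^ 2) (h2 : R + b ^ 2 < (y + 1) ^ 2) :
    R + a * b < (x + 1) * (y + 1) := by
  by_contra h3
  push Not at h3
  have h4 : (R + a ^ 2) * (R + b ^ 2) < ((x + 1) * (y + 1)) ^ 2 := by
    rw [mul_pow]
    exact mul_lt_mul'' h1 h2 (by positivity) (by positivity)
  have h5 : ((x + 1) * (y + 1)) ^ 2 ≤ (R + a * b) ^ 2 := by
    have h6 : 0 ≤ (x + 1) * (y + 1) := by positivity
    nlinarith
  nlinarith [mul_nonneg hR (sq_nonneg (a - b))]

end Ld

section Final

variable {ι δ : Type} {R n : ℕ} {t s h e : ℕ → ℤ} {E : ℕ → ℕ → ℤ} {U : Finset ι}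
  {ho : ι → ℕ} {vl : ι → ℤ} {kp ms mr mn : ℕ → ι → ℤ} {mu Nb : ℕ → ℤ} {Nx : ℕ → ℕ → ℤ}
  {be : ℕ → ℕ → ℤ} {ls : ℕ → ℤ → ℤ} {pc ar : ι → ℤ} {aT : ℕ → ℤ} {NN FF pw : ℕ → ℕ → ℤ}
  {nu : ℕ → ι → ℤ}

/-- **the kernel test of the loads is sound** -/
theorem ItC.ldT (H : ItC (R : ℤ) n t s h e E U ho vl kp ms mr mu Nb Nx be ls pc ar aT NN FF pw nu)
    (L : LvI (R : ℤ) n t s h e U ho vl kp ms mr mn mu be pc ar) (hR : 10 ≤ R)
    (hj : ∀ i < n, ∀ j < n, i ≠ j → ∀ k : ℕ, 1 ≤ k → (k : ℤ) ≤ be i j + be j i →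
      ((k : ℤ) - 1) * R ≤ t i * t j + (k : ℤ) ^ 2)
    {x : ℕ → ℕ × ℕ × ℕ × δ} (hx : ∀ i < n, ((x i).1 : ℤ) = t i ∧ ((x i).2.1 : ℤ) = h i ∧
      ((x i).2.2.1 : ℤ) = mu i) (hT : Ld.ldT R ((List.range n).map x) = true) : False := by
  unfold Ld.ldT at hT
  rw [List.range_eq_range', Ld.raw_spec, List.append_nil] at hT
  set Lr := ((List.range' 0 n).map fun j => Ld.rr R j (x j)).reverse with hLr
  rcases h1 : Ld.okT R Lr with _ | _
  swap
  · rw [h1] at hT
    exact absurd hT (by simp)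
  rw [h1] at hT
  set m : ℕ → ℤ := fun j => (Ld.isq (Nat.add R (Nat.mul (x j).1 (x j).1)) : ℤ) with hm
  have hm0 : ∀ i < n, 0 ≤ m i := fun i _ => Int.natCast_nonneg _
  have hmm : ∀ i < n, (R : ℤ) + t i ^ 2 < (m i + 1) ^ 2 := by
    intro i hi
    have h2 := Ld.isq_spec (Nat.add R (Nat.mul (x i).1 (x i).1))
    have h3 : R + (x i).1 * (x i).1 < (Ld.isq (Nat.add R (Nat.mul (x i).1 (x i).1)) + 1) ^ 2 := h2
    rw [← (hx i hi).1, hm]
    have h4 : (R : ℤ) + (x i).1 * (x i).1
        < ((Ld.isq (Nat.add R (Nat.mul (x i).1 (x i).1)) : ℤ) + 1) ^ 2 := by exact_mod_cast h3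
    nlinarith
  have hperm : Lr.Perm ((List.range n).map fun j => Ld.rr R j (x j)) := by
    rw [hLr, List.range_eq_range']
    exact List.reverse_perm _
  have hmem : ∀ j < n, Ld.rr R j (x j) ∈ Lr := fun j hj' =>
    hperm.mem_iff.2 (List.mem_map.2 ⟨j, List.mem_range.2 hj', rfl⟩)
  have ht : ∀ i < n, ∀ j < n, i ≠ j → t i * t j ≤ R := by
    intro i hi j hj' hij
    by_contra h2
    push Not at h2
    rw [← (hx i hi).1, ← (hx j hj').1] at h2
    have h3 : R < (x i).1 * (x j).1 := by exact_mod_cast h2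
    have key : ∀ {α : Type} (f : α → Bool) (L : List α) (a : α), a ∈ L → f a = true →
        Ld.lany f L = true := by
      intro α f L a ha hfa
      induction L with
      | nil => exact absurd ha (by simp)
      | cons b L ih =>
        have h0 : Ld.lany f (b :: L)
          = Bool.rec (motive := fun _ => Bool) (Ld.lany f L) true (f b) := rfl
        rw [h0]
        rcases h4 : f b with _ | _
        · rcases List.mem_cons.1 ha with rfl | h5
          · rw [hfa] at h4
            exact absurd h4 (by simp)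
          · exact ih h5
        · rfl
    have h4 : Ld.okT R Lr = true := by
      refine key _ _ _ (hmem i hi) (key _ _ _ (hmem j hj') ?_)
      have h5 : Nat.beq (Ld.rr R i (x i)).i (Ld.rr R j (x j)).i = false := by
        rcases h6 : Nat.beq (Ld.rr R i (x i)).i (Ld.rr R j (x j)).i with _ | _
        · rfl
        · rw [Nat.beq_eq] at h6
          exact absurd h6 hij
      have h6 : Nat.ble (Nat.mul (Ld.rr R i (x i)).t (Ld.rr R j (x j)).t) R = false := by
        rcases h7 : Nat.ble (Nat.mul (Ld.rr R i (x i)).t (Ld.rr R j (x j)).t) R with _ | _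
        · rfl
        · have h8 : (x i).1 * (x j).1 ≤ R := Nat.le_of_ble_eq_true h7
          omega
      simp only [h5, h6]
    rw [h1] at h4
    exact absurd h4 (by simp)
  have hC := H.ldc L (by exact_mod_cast hR) ht hj hm0 fun i hi j hj' hij =>
    Ld.cs (by positivity) (H.t0 i hi) (H.t0 j hj') (hm0 i hi) (hm0 j hj') (hmm i hi) (hmm j hj')
  refine Ld.Ctx.top_sound (r := fun j => Ld.rr R j (x j)) (L := Lr) ⟨hC, by omega, hm0, hperm,
    fun j _ => rfl, fun j hj' => (hx j hj').1, fun j hj' => (hx j hj').2.1,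
    fun j hj' => (hx j hj').2.2, ?_, ?_, ?_⟩ hT
  · intro j hj'
    obtain ⟨h2, h3, h4⟩ := hx j hj'
    have h5 := H.muh j hj'
    rw [← h3, ← h4] at h5 ⊢
    have h6 : (x j).2.2.1 ≤ (x j).2.1 := by exact_mod_cast h5
    show ((2 * ((x j).2.2.1 * (x j).2.1) - (x j).2.2.1 * ((x j).2.2.1 + 1) : ℕ) : ℤ) = _
    have h7 : (x j).2.2.1 * ((x j).2.2.1 + 1) ≤ 2 * ((x j).2.2.1 * (x j).2.1) := by
      rcases Nat.eq_zero_or_pos (x j).2.2.1 with h8 | h8
      · rw [h8]
        simp
      · nlinarith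
    rw [Nat.cast_sub h7]
    push_cast
    ring
  · intro j hj'
    obtain ⟨h2, h3, h4⟩ := hx j hj'
    have h5 := H.tR j hj'
    rw [← h2] at h5 ⊢
    have h6 : (x j).1 ≤ R := by omega
    show ((R - (x j).1 : ℕ) : ℤ) = _
    rw [Nat.cast_sub h6]
  · intro j hj'
    obtain ⟨h2, h3, h4⟩ := hx j hj'
    have h5 := H.tR j hj'
    rw [← h2] at h5 ⊢
    show ((R - (x j).1 - Ld.isq (Nat.add R (Nat.mul (x j).1 (x j).1)) : ℕ) : ℤ)
      = max 0 ((R : ℤ) - (x j).1 - (Ld.isq (Nat.add R (Nat.mul (x j).1 (x j).1)) : ℤ))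
    omega

end Final

end Pool.Agent.Lib.MP_f04ccf_co
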