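import Pool.Agent.Lib.MP_f04ccf_co.M.FinE
import Pool.Agent.Lib.MP_f04ccf_co.M.LdT

/-!
MP_f04ccf_co, PLAN W, finite part: the loads checker `Ld.ldT` as a leaf of the enumeration.
-/

set_option autoImplicit false

namespace Pool.Agent.Lib.MP_f04ccf_co

open Finset

attribute [local instance] Classical.propDecidable

/-- the leaf of the loads -/
noncomputable def Kern.ldL (R : ℕ) (l : List (ℕ × ℕ × ℕ)) : Bool :=
  Ld.ldT R (l.map fun a => (a.1, a.2.1, a.2.2, ()))

theorem leafC_ld {R n : ℕ} (hR : 10 ≤ R) : LeafC (R : ℤ) n (Kern.ldL R) := by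
  intro ι t s h0 e E U ho vl kp ms mr mn mu Nb Nx be ls pc ar aT NN FF pw nu H L x hx hl
  refine ItC.ldT H L hR (fun i hi j hj hij k _ hk => H.jsub i hi j hj hij k hk)
    (x := fun i => ((x i).1, (x i).2.1, (x i).2.2, ())) (fun i hi => hx i hi) ?_
  rw [Kern.ldL, List.map_map] at hl
  exact hl

/-- **the loads checker**: all worlds pass -/
theorem NoItC.of_ld {R K n : ℕ} (hR : 10 ≤ R) (h : PartC (R : ℤ) K n (Kern.ldL R)) :
    NoItC (R : ℤ) K n := h.noItC (leafC_ld hR)

end Pool.Agent.Lib.MP_f04ccf_co
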