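import Pool.Agent.Lib.MP_f04ccf_co.M.FinF
import Pool.Agent.Lib.MP_f04ccf_co.M.FinL

/-!
MP_f04ccf_co, PLAN W, finite part: `R = 13`, `n = 5` rows, `∑ h ≤ 13`: there are no items (loads).
Generated (helper11, gen.py, mk3.py): the table of all rows `(t, h, mu, b)` which pass the row filter
`Kern.okE`, `b` a bound for `h - t` on the rest of the table; the enumeration in blocks of first rows
with the leaf `(Kern.ldL 13)`, checked by the kernel.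
-/

set_option autoImplicit false

namespace Pool.Agent.Lib.MP_f04ccf_co

namespace FinK

/-- the table -/
def gs13_5_13 : List (ℕ × List (ℕ × ℕ × ℕ × ℕ)) :=
  [(7, [(7, 13, 13, 11), (7, 13, 12, 11), (7, 13, 11, 11), (7, 13, 10, 11), (7, 13, 9, 11),
    (7, 13, 8, 11), (7, 13, 7, 11), (7, 13, 6, 11), (7, 12, 12, 11), (7, 12, 11, 11),
    (7, 12, 10, 11), (7, 12, 9, 11), (7, 12, 8, 11), (7, 12, 7, 11), (7, 12, 6, 11),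
    (7, 12, 5, 11), (7, 11, 11, 11), (7, 11, 10, 11), (7, 11, 9, 11), (7, 11, 8, 11),
    (7, 11, 7, 11), (7, 11, 6, 11), (7, 11, 5, 11), (7, 11, 4, 11), (7, 10, 10, 11),
    (7, 10, 9, 11), (7, 10, 8, 11), (7, 10, 7, 11), (7, 10, 6, 11), (7, 10, 5, 11),
    (7, 10, 4, 11), (7, 10, 3, 11), (7, 9, 9, 11), (7, 9, 8, 11), (7, 9, 7, 11),
    (7, 9, 6, 11), (7, 9, 5, 11), (7, 9, 4, 11), (7, 9, 3, 11), (7, 9, 2, 11), (7, 8, 8, 11),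
    (7, 8, 7, 11), (7, 8, 6, 11), (7, 8, 5, 11), (7, 8, 4, 11), (7, 8, 3, 11), (7, 8, 2, 11),
    (7, 8, 1, 11), (7, 7, 7, 11), (7, 7, 6, 11), (7, 7, 5, 11), (7, 7, 4, 11), (7, 7, 3, 11),
    (7, 7, 2, 11), (7, 7, 1, 11), (7, 7, 0, 11), (7, 6, 6, 11), (7, 6, 5, 11), (7, 6, 4, 11),
    (7, 6, 3, 11), (7, 6, 2, 11), (7, 6, 1, 11), (7, 6, 0, 11), (7, 5, 5, 11), (7, 5, 4, 11),
    (7, 5, 3, 11), (7, 5, 2, 11), (7, 5, 1, 11), (7, 5, 0, 11), (7, 4, 4, 11), (7, 4, 3, 11),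
    (7, 4, 2, 11), (7, 4, 1, 11), (7, 4, 0, 11), (7, 3, 3, 11), (7, 3, 2, 11), (7, 3, 1, 11),
    (7, 3, 0, 11), (7, 2, 2, 11), (7, 2, 1, 11), (7, 2, 0, 11), (7, 1, 1, 11), (7, 1, 0, 11),
    (7, 0, 0, 11)]),
  (6, [(6, 13, 13, 11), (6, 13, 12, 11), (6, 13, 11, 11), (6, 13, 10, 11), (6, 13, 9, 11),
    (6, 13, 8, 11), (6, 13, 7, 11), (6, 12, 12, 11), (6, 12, 11, 11), (6, 12, 10, 11),
    (6, 12, 9, 11), (6, 12, 8, 11), (6, 12, 7, 11), (6, 12, 6, 11), (6, 11, 11, 11),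
    (6, 11, 10, 11), (6, 11, 9, 11), (6, 11, 8, 11), (6, 11, 7, 11), (6, 11, 6, 11),
    (6, 11, 5, 11), (6, 10, 10, 11), (6, 10, 9, 11), (6, 10, 8, 11), (6, 10, 7, 11),
    (6, 10, 6, 11), (6, 10, 5, 11), (6, 10, 4, 11), (6, 9, 9, 11), (6, 9, 8, 11),
    (6, 9, 7, 11), (6, 9, 6, 11), (6, 9, 5, 11), (6, 9, 4, 11), (6, 9, 3, 11), (6, 8, 8, 11),
    (6, 8, 7, 11), (6, 8, 6, 11), (6, 8, 5, 11), (6, 8, 4, 11), (6, 8, 3, 11), (6, 8, 2, 11),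
    (6, 7, 7, 11), (6, 7, 6, 11), (6, 7, 5, 11), (6, 7, 4, 11), (6, 7, 3, 11), (6, 7, 2, 11),
    (6, 7, 1, 11), (6, 6, 6, 11), (6, 6, 5, 11), (6, 6, 4, 11), (6, 6, 3, 11), (6, 6, 2, 11),
    (6, 6, 1, 11), (6, 6, 0, 11), (6, 5, 5, 11), (6, 5, 4, 11), (6, 5, 3, 11), (6, 5, 2, 11),
    (6, 5, 1, 11), (6, 5, 0, 11), (6, 4, 4, 11), (6, 4, 3, 11), (6, 4, 2, 11), (6, 4, 1, 11),
    (6, 4, 0, 11), (6, 3, 3, 11), (6, 3, 2, 11), (6, 3, 1, 11), (6, 3, 0, 11), (6, 2, 2, 11),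
    (6, 2, 1, 11), (6, 2, 0, 11), (6, 1, 1, 11), (6, 1, 0, 11), (6, 0, 0, 11)]),
  (5, [(5, 13, 13, 11), (5, 13, 12, 11), (5, 13, 11, 11), (5, 13, 10, 11), (5, 13, 9, 11),
    (5, 13, 8, 11), (5, 13, 7, 11), (5, 12, 12, 11), (5, 12, 11, 11), (5, 12, 10, 11),
    (5, 12, 9, 11), (5, 12, 8, 11), (5, 12, 7, 11), (5, 12, 6, 11), (5, 11, 11, 11),
    (5, 11, 10, 11), (5, 11, 9, 11), (5, 11, 8, 11), (5, 11, 7, 11), (5, 11, 6, 11),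
    (5, 10, 10, 11), (5, 10, 9, 11), (5, 10, 8, 11), (5, 10, 7, 11), (5, 10, 6, 11),
    (5, 10, 5, 11), (5, 9, 9, 11), (5, 9, 8, 11), (5, 9, 7, 11), (5, 9, 6, 11),
    (5, 9, 5, 11), (5, 9, 4, 11), (5, 8, 8, 11), (5, 8, 7, 11), (5, 8, 6, 11), (5, 8, 5, 11),
    (5, 8, 4, 11), (5, 8, 3, 11), (5, 7, 7, 11), (5, 7, 6, 11), (5, 7, 5, 11), (5, 7, 4, 11),
    (5, 7, 3, 11), (5, 7, 2, 11), (5, 6, 6, 11), (5, 6, 5, 11), (5, 6, 4, 11), (5, 6, 3, 11),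
    (5, 6, 2, 11), (5, 6, 1, 11), (5, 5, 5, 11), (5, 5, 4, 11), (5, 5, 3, 11), (5, 5, 2, 11),
    (5, 5, 1, 11), (5, 5, 0, 11), (5, 4, 4, 11), (5, 4, 3, 11), (5, 4, 2, 11), (5, 4, 1, 11),
    (5, 4, 0, 11), (5, 3, 3, 11), (5, 3, 2, 11), (5, 3, 1, 11), (5, 3, 0, 11), (5, 2, 2, 11),
    (5, 2, 1, 11), (5, 2, 0, 11), (5, 1, 1, 11), (5, 1, 0, 11), (5, 0, 0, 11)]),
  (4, [(4, 13, 13, 11), (4, 13, 12, 11), (4, 13, 11, 11), (4, 13, 10, 11), (4, 13, 9, 11),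
    (4, 13, 8, 11), (4, 12, 12, 11), (4, 12, 11, 11), (4, 12, 10, 11), (4, 12, 9, 11),
    (4, 12, 8, 11), (4, 11, 11, 11), (4, 11, 10, 11), (4, 11, 9, 11), (4, 11, 8, 11),
    (4, 11, 7, 11), (4, 10, 10, 11), (4, 10, 9, 11), (4, 10, 8, 11), (4, 10, 7, 11),
    (4, 10, 6, 11), (4, 9, 9, 11), (4, 9, 8, 11), (4, 9, 7, 11), (4, 9, 6, 11),
    (4, 9, 5, 11), (4, 8, 8, 11), (4, 8, 7, 11), (4, 8, 6, 11), (4, 8, 5, 11), (4, 8, 4, 11),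
    (4, 7, 7, 11), (4, 7, 6, 11), (4, 7, 5, 11), (4, 7, 4, 11), (4, 7, 3, 11), (4, 6, 6, 11),
    (4, 6, 5, 11), (4, 6, 4, 11), (4, 6, 3, 11), (4, 6, 2, 11), (4, 5, 5, 11), (4, 5, 4, 11),
    (4, 5, 3, 11), (4, 5, 2, 11), (4, 5, 1, 11), (4, 4, 4, 11), (4, 4, 3, 11), (4, 4, 2, 11),
    (4, 4, 1, 11), (4, 4, 0, 11), (4, 3, 3, 11), (4, 3, 2, 11), (4, 3, 1, 11), (4, 3, 0, 11),
    (4, 2, 2, 11), (4, 2, 1, 11), (4, 2, 0, 11), (4, 1, 1, 11), (4, 1, 0, 11), (4, 0, 0, 11)]),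
  (3, [(3, 13, 13, 11), (3, 13, 12, 11), (3, 13, 11, 11), (3, 13, 10, 11), (3, 12, 12, 11),
    (3, 12, 11, 11), (3, 12, 10, 11), (3, 11, 11, 11), (3, 11, 10, 11), (3, 11, 9, 11),
    (3, 10, 10, 11), (3, 10, 9, 11), (3, 10, 8, 11), (3, 9, 9, 11), (3, 9, 8, 11),
    (3, 9, 7, 11), (3, 8, 8, 11), (3, 8, 7, 11), (3, 8, 6, 11), (3, 7, 7, 11), (3, 7, 6, 11),
    (3, 7, 5, 11), (3, 6, 6, 11), (3, 6, 5, 11), (3, 6, 4, 11), (3, 5, 5, 11), (3, 5, 4, 11),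
    (3, 5, 3, 11), (3, 5, 2, 11), (3, 4, 4, 11), (3, 4, 3, 11), (3, 4, 2, 11), (3, 4, 1, 11),
    (3, 3, 3, 11), (3, 3, 2, 11), (3, 3, 1, 11), (3, 3, 0, 11), (3, 2, 2, 11), (3, 2, 1, 11),
    (3, 2, 0, 11), (3, 1, 1, 11), (3, 1, 0, 11), (3, 0, 0, 11)]),
  (2, [(2, 13, 13, 11), (2, 13, 12, 11), (2, 12, 12, 10), (2, 11, 11, 9), (2, 7, 7, 5),
    (2, 6, 6, 4), (2, 5, 5, 3), (2, 5, 4, 3), (2, 4, 4, 2), (2, 4, 3, 2), (2, 4, 2, 2),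
    (2, 3, 3, 1), (2, 3, 2, 1), (2, 3, 1, 1), (2, 2, 2, 1), (2, 2, 1, 1), (2, 2, 0, 1),
    (2, 1, 1, 1), (2, 1, 0, 1), (2, 0, 0, 1)]),
  (1, [(1, 2, 2, 1), (1, 2, 1, 1), (1, 1, 1, 1), (1, 1, 0, 1), (1, 0, 0, 1)]),
  (0, [(0, 1, 1, 1), (0, 0, 0, 0)])]

/-- the squares `kf t ^ 2` are larger than `t (M - t) + 1` -/
def kf13_5_13 (t : ℕ) : ℕ := ([2, 3, 4, 4, 4, 4, 3, 2] : List ℕ).getD t 0

lemma ok13_5_13 : Kern.okF 13 7 = true ∧ Kern.okK 7 kf13_5_13 = true ∧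
    Kern.srt (Kern.keyF 14) (Kern.flt gs13_5_13) = true ∧
    Kern.allTab 7 13 13 (Kern.okE 13 7 kf13_5_13)
      (fun a b c => (Kern.lookF (Kern.flt gs13_5_13) a b c).isSome) = true := by
  decide +kernel

/-- a block -/
noncomputable def bk13_5_13 (j p k : ℕ) : Bool :=
  Kern.blk (fun a : ℕ × ℕ × ℕ × ℕ => a.1) (fun a => a.2.1) (fun a => a.2.2.2) (fun _ => 0)
    (fun _ => 0) (fun _ => 0) 7 13 6 (fun l => (Kern.ldL 13) (Kern.revT l)) 4 gs13_5_13 j p k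

lemma b13_5_13_0_0 : bk13_5_13 0 0 84 = true := by decide +kernel

lemma b13_5_13_1_0 : bk13_5_13 1 0 77 = true := by decide +kernel

lemma b13_5_13_2_0 : bk13_5_13 2 0 71 = true := by decide +kernel

lemma b13_5_13_3_0 : bk13_5_13 3 0 30 = true := by decide +kernel

lemma b13_5_13_3_30 : bk13_5_13 3 30 31 = true := by decide +kernel

lemma b13_5_13_4_0 : bk13_5_13 4 0 17 = true := by decide +kernel

lemma b13_5_13_4_17 : bk13_5_13 4 17 5 = true := by decide +kernel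

lemma b13_5_13_4_22 : bk13_5_13 4 22 6 = true := by decide +kernel

lemma b13_5_13_4_28 : bk13_5_13 4 28 15 = true := by decide +kernel

lemma b13_5_13_5_0 : bk13_5_13 5 0 7 = true := by decide +kernel

lemma b13_5_13_5_7 : bk13_5_13 5 7 13 = true := by decide +kernel

lemma b13_5_13_6_0 : bk13_5_13 6 0 5 = true := by decide +kernel

lemma b13_5_13_7_0 : bk13_5_13 7 0 2 = true := by decide +kernel

lemma c13_5_13_0 : bk13_5_13 0 0 84 = true := b13_5_13_0_0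

lemma c13_5_13_1 : bk13_5_13 1 0 77 = true := b13_5_13_1_0

lemma c13_5_13_2 : bk13_5_13 2 0 71 = true := b13_5_13_2_0

lemma c13_5_13_3 : bk13_5_13 3 0 61 = true :=
  (Kern.blk_join b13_5_13_3_0 b13_5_13_3_30)

lemma c13_5_13_4 : bk13_5_13 4 0 43 = true :=
  (Kern.blk_join (Kern.blk_join (Kern.blk_join b13_5_13_4_0 b13_5_13_4_17) b13_5_13_4_22) b13_5_13_4_28)

lemma c13_5_13_5 : bk13_5_13 5 0 20 = true :=
  (Kern.blk_join b13_5_13_5_0 b13_5_13_5_7)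

lemma c13_5_13_6 : bk13_5_13 6 0 5 = true := b13_5_13_6_0

lemma c13_5_13_7 : bk13_5_13 7 0 2 = true := b13_5_13_7_0

lemma e13_5_13 : Kern.EnS (fun a : ℕ × ℕ × ℕ × ℕ => a.1) (fun a => a.2.1) (fun _ => 0) (fun _ => 0)
    7 13 (5 + 1) (fun l => (Kern.ldL 13) (Kern.revT l)) (4 + 1) (Kern.flt gs13_5_13) := by
  refine Kern.EnS.of_blk (b := fun a => a.2.2.2) (bg := fun _ => 0) (by decide +kernel) fun j hj => ?_
  have hj' : j < 8 := hj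
  interval_cases j
  · exact c13_5_13_0
  · exact c13_5_13_1
  · exact c13_5_13_2
  · exact c13_5_13_3
  · exact c13_5_13_4
  · exact c13_5_13_5
  · exact c13_5_13_6
  · exact c13_5_13_7

theorem part13_5_13 : PartC ((13 : ℕ) : ℤ) 13 5 (Kern.ldL 13) := by
  obtain ⟨h1, h2, h3, h4⟩ := ok13_5_13
  exact PartC.enumS (N := 14) (by norm_num) (by norm_num) h1 h2 h3 h4 e13_5_13

end FinK

/-- **`R = 13`, `n = 5`, `∑ h ≤ 13`: no items** -/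
theorem noItC13_5_13 : NoItC 13 13 5 :=
  NoItC.of_ld (by norm_num) FinK.part13_5_13

end Pool.Agent.Lib.MP_f04ccf_co
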