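import Pool.Agent.Lib.MP_f04ccf_co.M.FinA14t

/-!
MP_f04ccf_co, PLAN W, finite part: `R = 14`, `n = 5` rows, `∑ h ≤ 14` (loads).
Generated (helper11, gen.py, mk4.py): blocks of first rows, part 2 of 2.
-/

set_option autoImplicit false

namespace Pool.Agent.Lib.MP_f04ccf_co

namespace FinK

lemma b14_5_14_5_28 : bk14_5_14 5 28 1 = true := by decide +kernel

lemma b14_5_14_5_29 : bk14_5_14 5 29 1 = true := by decide +kernel

lemma b14_5_14_5_30 : bk14_5_14 5 30 1 = true := by decide +kernel

lemma b14_5_14_5_31 : bk14_5_14 5 31 1 = true := by decide +kernel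

lemma b14_5_14_5_32 : bk14_5_14 5 32 1 = true := by decide +kernel

lemma b14_5_14_5_33 : bk14_5_14 5 33 1 = true := by decide +kernel

lemma b14_5_14_5_34 : bk14_5_14 5 34 1 = true := by decide +kernel

lemma b14_5_14_5_35 : bk14_5_14 5 35 1 = true := by decide +kernel

lemma b14_5_14_5_36 : bk14_5_14 5 36 1 = true := by decide +kernel

lemma b14_5_14_5_37 : bk14_5_14 5 37 1 = true := by decide +kernel

lemma b14_5_14_5_38 : bk14_5_14 5 38 1 = true := by decide +kernel

lemma b14_5_14_5_39 : bk14_5_14 5 39 2 = true := by decide +kernel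

lemma b14_5_14_5_41 : bk14_5_14 5 41 3 = true := by decide +kernel

lemma b14_5_14_5_44 : bk14_5_14 5 44 6 = true := by decide +kernel

lemma b14_5_14_6_0 : bk14_5_14 6 0 1 = true := by decide +kernel

lemma b14_5_14_6_1 : bk14_5_14 6 1 1 = true := by decide +kernel

lemma b14_5_14_6_2 : bk14_5_14 6 2 1 = true := by decide +kernel

lemma b14_5_14_6_3 : bk14_5_14 6 3 1 = true := by decide +kernel

lemma b14_5_14_6_4 : bk14_5_14 6 4 1 = true := by decide +kernel

lemma b14_5_14_6_5 : bk14_5_14 6 5 11 = true := by decide +kernel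

lemma b14_5_14_7_0 : bk14_5_14 7 0 5 = true := by decide +kernel

lemma b14_5_14_8_0 : bk14_5_14 8 0 2 = true := by decide +kernel

end FinK

end Pool.Agent.Lib.MP_f04ccf_co
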