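import Pool.Agent.Lib.MP_f04ccf_co.M.FinA14p1
import Pool.Agent.Lib.MP_f04ccf_co.M.FinA14p2

/-!
MP_f04ccf_co, PLAN W, finite part: `R = 14`, `n = 5` rows, `∑ h ≤ 14` (loads).
Generated (helper11, gen.py, mk4.py): the parts together.
-/

set_option autoImplicit false

namespace Pool.Agent.Lib.MP_f04ccf_co

namespace FinK

lemma c14_5_14_0 : bk14_5_14 0 0 99 = true := b14_5_14_0_0

lemma c14_5_14_1 : bk14_5_14 1 0 92 = true := b14_5_14_1_0

lemma c14_5_14_2 : bk14_5_14 2 0 86 = true := by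
  have h0 := Kern.blk_join b14_5_14_2_0 b14_5_14_2_32
  have h1 := Kern.blk_join h0 b14_5_14_2_58
  exact h1

lemma c14_5_14_3 : bk14_5_14 3 0 78 = true := by
  have h0 := Kern.blk_join b14_5_14_3_0 b14_5_14_3_21
  have h1 := Kern.blk_join h0 b14_5_14_3_27
  have h2 := Kern.blk_join h1 b14_5_14_3_32
  have h3 := Kern.blk_join h2 b14_5_14_3_36
  have h4 := Kern.blk_join h3 b14_5_14_3_40
  have h5 := Kern.blk_join h4 b14_5_14_3_45
  have h6 := Kern.blk_join h5 b14_5_14_3_52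
  have h7 := Kern.blk_join h6 b14_5_14_3_67
  exact h7

lemma c14_5_14_4 : bk14_5_14 4 0 67 = true := by
  have h0 := Kern.blk_join b14_5_14_4_0 b14_5_14_4_15
  have h1 := Kern.blk_join h0 b14_5_14_4_19
  have h2 := Kern.blk_join h1 b14_5_14_4_22
  have h3 := Kern.blk_join h2 b14_5_14_4_24
  have h4 := Kern.blk_join h3 b14_5_14_4_26
  have h5 := Kern.blk_join h4 b14_5_14_4_27
  have h6 := Kern.blk_join h5 b14_5_14_4_28
  have h7 := Kern.blk_join h6 b14_5_14_4_29
  have h8 := Kern.blk_join h7 b14_5_14_4_30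
  have h9 := Kern.blk_join h8 b14_5_14_4_31
  have h10 := Kern.blk_join h9 b14_5_14_4_32
  have h11 := Kern.blk_join h10 b14_5_14_4_33
  have h12 := Kern.blk_join h11 b14_5_14_4_34
  have h13 := Kern.blk_join h12 b14_5_14_4_35
  have h14 := Kern.blk_join h13 b14_5_14_4_36
  have h15 := Kern.blk_join h14 b14_5_14_4_37
  have h16 := Kern.blk_join h15 b14_5_14_4_38
  have h17 := Kern.blk_join h16 b14_5_14_4_39
  have h18 := Kern.blk_join h17 b14_5_14_4_40
  have h19 := Kern.blk_join h18 b14_5_14_4_41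
  have h20 := Kern.blk_join h19 b14_5_14_4_42
  have h21 := Kern.blk_join h20 b14_5_14_4_43
  have h22 := Kern.blk_join h21 b14_5_14_4_44
  have h23 := Kern.blk_join h22 b14_5_14_4_45
  have h24 := Kern.blk_join h23 b14_5_14_4_46
  have h25 := Kern.blk_join h24 b14_5_14_4_48
  have h26 := Kern.blk_join h25 b14_5_14_4_50
  have h27 := Kern.blk_join h26 b14_5_14_4_53
  have h28 := Kern.blk_join h27 b14_5_14_4_56
  have h29 := Kern.blk_join h28 b14_5_14_4_61
  exact h29

lemma c14_5_14_5 : bk14_5_14 5 0 50 = true := by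
  have h0 := Kern.blk_join b14_5_14_5_0 b14_5_14_5_12
  have h1 := Kern.blk_join h0 b14_5_14_5_14
  have h2 := Kern.blk_join h1 b14_5_14_5_16
  have h3 := Kern.blk_join h2 b14_5_14_5_17
  have h4 := Kern.blk_join h3 b14_5_14_5_18
  have h5 := Kern.blk_join h4 b14_5_14_5_19
  have h6 := Kern.blk_join h5 b14_5_14_5_20
  have h7 := Kern.blk_join h6 b14_5_14_5_21
  have h8 := Kern.blk_join h7 b14_5_14_5_22
  have h9 := Kern.blk_join h8 b14_5_14_5_23
  have h10 := Kern.blk_join h9 b14_5_14_5_24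
  have h11 := Kern.blk_join h10 b14_5_14_5_25
  have h12 := Kern.blk_join h11 b14_5_14_5_26
  have h13 := Kern.blk_join h12 b14_5_14_5_27
  have h14 := Kern.blk_join h13 b14_5_14_5_28
  have h15 := Kern.blk_join h14 b14_5_14_5_29
  have h16 := Kern.blk_join h15 b14_5_14_5_30
  have h17 := Kern.blk_join h16 b14_5_14_5_31
  have h18 := Kern.blk_join h17 b14_5_14_5_32
  have h19 := Kern.blk_join h18 b14_5_14_5_33
  have h20 := Kern.blk_join h19 b14_5_14_5_34
  have h21 := Kern.blk_join h20 b14_5_14_5_35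
  have h22 := Kern.blk_join h21 b14_5_14_5_36
  have h23 := Kern.blk_join h22 b14_5_14_5_37
  have h24 := Kern.blk_join h23 b14_5_14_5_38
  have h25 := Kern.blk_join h24 b14_5_14_5_39
  have h26 := Kern.blk_join h25 b14_5_14_5_41
  have h27 := Kern.blk_join h26 b14_5_14_5_44
  exact h27

lemma c14_5_14_6 : bk14_5_14 6 0 16 = true := by
  have h0 := Kern.blk_join b14_5_14_6_0 b14_5_14_6_1
  have h1 := Kern.blk_join h0 b14_5_14_6_2
  have h2 := Kern.blk_join h1 b14_5_14_6_3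
  have h3 := Kern.blk_join h2 b14_5_14_6_4
  have h4 := Kern.blk_join h3 b14_5_14_6_5
  exact h4

lemma c14_5_14_7 : bk14_5_14 7 0 5 = true := b14_5_14_7_0

lemma c14_5_14_8 : bk14_5_14 8 0 2 = true := b14_5_14_8_0

lemma e14_5_14 : Kern.EnS (fun a : ℕ × ℕ × ℕ × ℕ => a.1) (fun a => a.2.1) (fun _ => 0) (fun _ => 0)
    8 14 (5 + 1) (fun l => (Le.ld4 14 5) (Kern.revT l)) (4 + 1) (Kern.flt gs14_5_14) := by
  refine Kern.EnS.of_blk (b := fun a => a.2.2.2) (bg := fun _ => 0) (by decide +kernel) fun j hj => ?_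
  have hj' : j < 9 := hj
  interval_cases j
  · exact c14_5_14_0
  · exact c14_5_14_1
  · exact c14_5_14_2
  · exact c14_5_14_3
  · exact c14_5_14_4
  · exact c14_5_14_5
  · exact c14_5_14_6
  · exact c14_5_14_7
  · exact c14_5_14_8

theorem part14_5_14 : PartC ((14 : ℕ) : ℤ) 14 5 (Le.ld4 14 5) := by
  obtain ⟨h1, h2, h3, h4⟩ := ok14_5_14
  exact PartC.enumS (N := 15) (by norm_num) (by norm_num) h1 h2 h3 h4 e14_5_14

end FinK

/-- **`R = 14`, `n = 5`, `∑ h ≤ 14`: no items** -/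
theorem noItC14_5_14 : NoItC 14 14 5 :=
  NoItC.of_l4 (by norm_num) (by norm_num) FinK.part14_5_14

end Pool.Agent.Lib.MP_f04ccf_co
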