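import Pool.Agent.Lib.MP_f04ccf_co.M.FinA14t

/-!
MP_f04ccf_co, PLAN W, finite part: `R = 14`, `n = 5` rows, `∑ h ≤ 14` (loads).
Generated (helper11, gen.py, mk4.py): blocks of first rows, part 1 of 2.
-/

set_option autoImplicit false

namespace Pool.Agent.Lib.MP_f04ccf_co

namespace FinK

lemma b14_5_14_0_0 : bk14_5_14 0 0 99 = true := by decide +kernel

lemma b14_5_14_1_0 : bk14_5_14 1 0 92 = true := by decide +kernel

lemma b14_5_14_2_0 : bk14_5_14 2 0 32 = true := by decide +kernel

lemma b14_5_14_2_32 : bk14_5_14 2 32 26 = true := by decide +kernel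

lemma b14_5_14_2_58 : bk14_5_14 2 58 28 = true := by decide +kernel

lemma b14_5_14_3_0 : bk14_5_14 3 0 21 = true := by decide +kernel

lemma b14_5_14_3_21 : bk14_5_14 3 21 6 = true := by decide +kernel

lemma b14_5_14_3_27 : bk14_5_14 3 27 5 = true := by decide +kernel

lemma b14_5_14_3_32 : bk14_5_14 3 32 4 = true := by decide +kernel

lemma b14_5_14_3_36 : bk14_5_14 3 36 4 = true := by decide +kernel

lemma b14_5_14_3_40 : bk14_5_14 3 40 5 = true := by decide +kernel

lemma b14_5_14_3_45 : bk14_5_14 3 45 7 = true := by decide +kernel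

lemma b14_5_14_3_52 : bk14_5_14 3 52 15 = true := by decide +kernel

lemma b14_5_14_3_67 : bk14_5_14 3 67 11 = true := by decide +kernel

lemma b14_5_14_4_0 : bk14_5_14 4 0 15 = true := by decide +kernel

lemma b14_5_14_4_15 : bk14_5_14 4 15 4 = true := by decide +kernel

lemma b14_5_14_4_19 : bk14_5_14 4 19 3 = true := by decide +kernel

lemma b14_5_14_4_22 : bk14_5_14 4 22 2 = true := by decide +kernel

lemma b14_5_14_4_24 : bk14_5_14 4 24 2 = true := by decide +kernel

lemma b14_5_14_4_26 : bk14_5_14 4 26 1 = true := by decide +kernel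

lemma b14_5_14_4_27 : bk14_5_14 4 27 1 = true := by decide +kernel

lemma b14_5_14_4_28 : bk14_5_14 4 28 1 = true := by decide +kernel

lemma b14_5_14_4_29 : bk14_5_14 4 29 1 = true := by decide +kernel

lemma b14_5_14_4_30 : bk14_5_14 4 30 1 = true := by decide +kernel

lemma b14_5_14_4_31 : bk14_5_14 4 31 1 = true := by decide +kernel

lemma b14_5_14_4_32 : bk14_5_14 4 32 1 = true := by decide +kernel

lemma b14_5_14_4_33 : bk14_5_14 4 33 1 = true := by decide +kernel

lemma b14_5_14_4_34 : bk14_5_14 4 34 1 = true := by decide +kernel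

lemma b14_5_14_4_35 : bk14_5_14 4 35 1 = true := by decide +kernel

lemma b14_5_14_4_36 : bk14_5_14 4 36 1 = true := by decide +kernel

lemma b14_5_14_4_37 : bk14_5_14 4 37 1 = true := by decide +kernel

lemma b14_5_14_4_38 : bk14_5_14 4 38 1 = true := by decide +kernel

lemma b14_5_14_4_39 : bk14_5_14 4 39 1 = true := by decide +kernel

lemma b14_5_14_4_40 : bk14_5_14 4 40 1 = true := by decide +kernel

lemma b14_5_14_4_41 : bk14_5_14 4 41 1 = true := by decide +kernel

lemma b14_5_14_4_42 : bk14_5_14 4 42 1 = true := by decide +kernel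

lemma b14_5_14_4_43 : bk14_5_14 4 43 1 = true := by decide +kernel

lemma b14_5_14_4_44 : bk14_5_14 4 44 1 = true := by decide +kernel

lemma b14_5_14_4_45 : bk14_5_14 4 45 1 = true := by decide +kernel

lemma b14_5_14_4_46 : bk14_5_14 4 46 2 = true := by decide +kernel

lemma b14_5_14_4_48 : bk14_5_14 4 48 2 = true := by decide +kernel

lemma b14_5_14_4_50 : bk14_5_14 4 50 3 = true := by decide +kernel

lemma b14_5_14_4_53 : bk14_5_14 4 53 3 = true := by decide +kernel

lemma b14_5_14_4_56 : bk14_5_14 4 56 5 = true := by decide +kernel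

lemma b14_5_14_4_61 : bk14_5_14 4 61 6 = true := by decide +kernel

lemma b14_5_14_5_0 : bk14_5_14 5 0 12 = true := by decide +kernel

lemma b14_5_14_5_12 : bk14_5_14 5 12 2 = true := by decide +kernel

lemma b14_5_14_5_14 : bk14_5_14 5 14 2 = true := by decide +kernel

lemma b14_5_14_5_16 : bk14_5_14 5 16 1 = true := by decide +kernel

lemma b14_5_14_5_17 : bk14_5_14 5 17 1 = true := by decide +kernel

lemma b14_5_14_5_18 : bk14_5_14 5 18 1 = true := by decide +kernel

lemma b14_5_14_5_19 : bk14_5_14 5 19 1 = true := by decide +kernel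

lemma b14_5_14_5_20 : bk14_5_14 5 20 1 = true := by decide +kernel

lemma b14_5_14_5_21 : bk14_5_14 5 21 1 = true := by decide +kernel

lemma b14_5_14_5_22 : bk14_5_14 5 22 1 = true := by decide +kernel

lemma b14_5_14_5_23 : bk14_5_14 5 23 1 = true := by decide +kernel

lemma b14_5_14_5_24 : bk14_5_14 5 24 1 = true := by decide +kernel

lemma b14_5_14_5_25 : bk14_5_14 5 25 1 = true := by decide +kernel

lemma b14_5_14_5_26 : bk14_5_14 5 26 1 = true := by decide +kernel

lemma b14_5_14_5_27 : bk14_5_14 5 27 1 = true := by decide +kernel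

end FinK

end Pool.Agent.Lib.MP_f04ccf_co
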