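import Pool.Agent.Lib.MP_f04ccf_co.M.FinA15t

/-!
MP_f04ccf_co, PLAN W, finite part: `R = 15`, `n = 5` rows, `∑ h ≤ 15` (loads, second form).
Generated (gen.py, mk4.py): blocks of first rows, part 2 of 3.
-/

set_option autoImplicit false

namespace Pool.Agent.Lib.MP_f04ccf_co

namespace FinK

lemma b15_5_15_5_34 : bk15_5_15 5 34 2 = true := by decide +kernel

lemma b15_5_15_5_36 : bk15_5_15 5 36 3 = true := by decide +kernel

lemma b15_5_15_5_39 : bk15_5_15 5 39 3 = true := by decide +kernel

lemma b15_5_15_5_42 : bk15_5_15 5 42 3 = true := by decide +kernel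

lemma b15_5_15_5_45 : bk15_5_15 5 45 4 = true := by decide +kernel

lemma b15_5_15_5_49 : bk15_5_15 5 49 5 = true := by decide +kernel

lemma b15_5_15_5_54 : bk15_5_15 5 54 8 = true := by decide +kernel

lemma b15_5_15_5_62 : bk15_5_15 5 62 4 = true := by decide +kernel

lemma b15_5_15_6_0 : bk15_5_15 6 0 15 = true := by decide +kernel

lemma b15_5_15_6_15 : bk15_5_15 6 15 2 = true := by decide +kernel

lemma b15_5_15_6_17 : bk15_5_15 6 17 2 = true := by decide +kernel

lemma b15_5_15_6_19 : bk15_5_15 6 19 1 = true := by decide +kernel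

lemma b15_5_15_6_20 : bk15_5_15 6 20 1 = true := by decide +kernel

lemma b15_5_15_6_21 : bk15_5_15 6 21 1 = true := by decide +kernel

lemma b15_5_15_6_22 : bk15_5_15 6 22 1 = true := by decide +kernel

end FinK

end Pool.Agent.Lib.MP_f04ccf_co
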