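import Pool.Agent.Lib.MP_f04ccf_co.M.FinA15p1
import Pool.Agent.Lib.MP_f04ccf_co.M.FinA15p2
import Pool.Agent.Lib.MP_f04ccf_co.M.FinA15p3

/-!
MP_f04ccf_co, PLAN W, finite part: `R = 15`, `n = 5` rows, `∑ h ≤ 15` (loads, second form).
Generated (gen.py, mk4.py): the parts together.
-/

set_option autoImplicit false

namespace Pool.Agent.Lib.MP_f04ccf_co

namespace FinK

lemma c15_5_15_0 : bk15_5_15 0 0 115 = true := b15_5_15_0_0

lemma c15_5_15_1 : bk15_5_15 1 0 110 = true := b15_5_15_1_0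

lemma c15_5_15_2 : bk15_5_15 2 0 102 = true := b15_5_15_2_0

lemma c15_5_15_3 : bk15_5_15 3 0 94 = true := by
  have h0 := Kern.blk_join b15_5_15_3_0 b15_5_15_3_47
  exact h0

lemma c15_5_15_4 : bk15_5_15 4 0 83 = true := by
  have h0 := Kern.blk_join b15_5_15_4_0 b15_5_15_4_30
  have h1 := Kern.blk_join h0 b15_5_15_4_39
  have h2 := Kern.blk_join h1 b15_5_15_4_46
  have h3 := Kern.blk_join h2 b15_5_15_4_55
  have h4 := Kern.blk_join h3 b15_5_15_4_72
  exact h4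

lemma c15_5_15_5 : bk15_5_15 5 0 66 = true := by
  have h0 := Kern.blk_join b15_5_15_5_0 b15_5_15_5_22
  have h1 := Kern.blk_join h0 b15_5_15_5_26
  have h2 := Kern.blk_join h1 b15_5_15_5_29
  have h3 := Kern.blk_join h2 b15_5_15_5_32
  have h4 := Kern.blk_join h3 b15_5_15_5_34
  have h5 := Kern.blk_join h4 b15_5_15_5_36
  have h6 := Kern.blk_join h5 b15_5_15_5_39
  have h7 := Kern.blk_join h6 b15_5_15_5_42
  have h8 := Kern.blk_join h7 b15_5_15_5_45
  have h9 := Kern.blk_join h8 b15_5_15_5_49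
  have h10 := Kern.blk_join h9 b15_5_15_5_54
  have h11 := Kern.blk_join h10 b15_5_15_5_62
  exact h11

lemma c15_5_15_6 : bk15_5_15 6 0 46 = true := by
  have h0 := Kern.blk_join b15_5_15_6_0 b15_5_15_6_15
  have h1 := Kern.blk_join h0 b15_5_15_6_17
  have h2 := Kern.blk_join h1 b15_5_15_6_19
  have h3 := Kern.blk_join h2 b15_5_15_6_20
  have h4 := Kern.blk_join h3 b15_5_15_6_21
  have h5 := Kern.blk_join h4 b15_5_15_6_22
  have h6 := Kern.blk_join h5 b15_5_15_6_23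
  have h7 := Kern.blk_join h6 b15_5_15_6_24
  have h8 := Kern.blk_join h7 b15_5_15_6_25
  have h9 := Kern.blk_join h8 b15_5_15_6_26
  have h10 := Kern.blk_join h9 b15_5_15_6_27
  have h11 := Kern.blk_join h10 b15_5_15_6_28
  have h12 := Kern.blk_join h11 b15_5_15_6_30
  have h13 := Kern.blk_join h12 b15_5_15_6_33
  have h14 := Kern.blk_join h13 b15_5_15_6_42
  exact h14

lemma c15_5_15_7 : bk15_5_15 7 0 12 = true := b15_5_15_7_0

lemma c15_5_15_8 : bk15_5_15 8 0 6 = true := b15_5_15_8_0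

lemma c15_5_15_9 : bk15_5_15 9 0 2 = true := b15_5_15_9_0

lemma e15_5_15 : Kern.EnS (fun a : ℕ × ℕ × ℕ × ℕ => a.1) (fun a => a.2.1) (fun _ => 0) (fun _ => 0)
    9 15 (5 + 1) (fun l => (Le.ld4 15 5) (Kern.revT l)) (4 + 1) (Kern.flt gs15_5_15) := by
  refine Kern.EnS.of_blk (b := fun a => a.2.2.2) (bg := fun _ => 0) (by decide +kernel) fun j hj => ?_
  have hj' : j < 10 := hj
  interval_cases j
  · exact c15_5_15_0
  · exact c15_5_15_1
  · exact c15_5_15_2
  · exact c15_5_15_3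
  · exact c15_5_15_4
  · exact c15_5_15_5
  · exact c15_5_15_6
  · exact c15_5_15_7
  · exact c15_5_15_8
  · exact c15_5_15_9

theorem part15_5_15 : PartC ((15 : ℕ) : ℤ) 15 5 (Le.ld4 15 5) := by
  obtain ⟨h1, h2, h3, h4⟩ := ok15_5_15
  exact PartC.enumS (N := 16) (by norm_num) (by norm_num) h1 h2 h3 h4 e15_5_15

end FinK

/-- **`R = 15`, `n = 5`, `∑ h ≤ 15`: no items** -/
theorem noItC15_5_15 : NoItC 15 15 5 :=
  NoItC.of_l4 (by norm_num) (by norm_num) FinK.part15_5_15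

end Pool.Agent.Lib.MP_f04ccf_co
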