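import Pool.Agent.Lib.MP_f04ccf_co.M.FinA15t

/-!
MP_f04ccf_co, PLAN W, finite part: `R = 15`, `n = 5` rows, `∑ h ≤ 15` (loads, second form).
Generated (gen.py, mk4.py): blocks of first rows, part 1 of 3.
-/

set_option autoImplicit false

namespace Pool.Agent.Lib.MP_f04ccf_co

namespace FinK

lemma b15_5_15_0_0 : bk15_5_15 0 0 115 = true := by decide +kernel

lemma b15_5_15_1_0 : bk15_5_15 1 0 110 = true := by decide +kernel

lemma b15_5_15_2_0 : bk15_5_15 2 0 102 = true := by decide +kernel

lemma b15_5_15_3_0 : bk15_5_15 3 0 47 = true := by decide +kernel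

lemma b15_5_15_3_47 : bk15_5_15 3 47 47 = true := by decide +kernel

lemma b15_5_15_4_0 : bk15_5_15 4 0 30 = true := by decide +kernel

lemma b15_5_15_4_30 : bk15_5_15 4 30 9 = true := by decide +kernel

lemma b15_5_15_4_39 : bk15_5_15 4 39 7 = true := by decide +kernel

lemma b15_5_15_4_46 : bk15_5_15 4 46 9 = true := by decide +kernel

lemma b15_5_15_4_55 : bk15_5_15 4 55 17 = true := by decide +kernel

lemma b15_5_15_4_72 : bk15_5_15 4 72 11 = true := by decide +kernel

lemma b15_5_15_5_0 : bk15_5_15 5 0 22 = true := by decide +kernel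

lemma b15_5_15_5_22 : bk15_5_15 5 22 4 = true := by decide +kernel

lemma b15_5_15_5_26 : bk15_5_15 5 26 3 = true := by decide +kernel

lemma b15_5_15_5_29 : bk15_5_15 5 29 3 = true := by decide +kernel

lemma b15_5_15_5_32 : bk15_5_15 5 32 2 = true := by decide +kernel

end FinK

end Pool.Agent.Lib.MP_f04ccf_co
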