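import Pool.Agent.Lib.MP_f04ccf_co.M.FinA16t

/-!
MP_f04ccf_co, PLAN W, finite part: `R = 16`, `n = 5` rows, `∑ h ≤ 16` (loads, second form).
Generated (gen.py, mk4.py): blocks of first rows, part 2 of 7.
-/

set_option autoImplicit false

namespace Pool.Agent.Lib.MP_f04ccf_co

namespace FinK

lemma b16_5_16_5_42 : bk16_5_16 5 42 4 = true := by decide +kernel

lemma b16_5_16_5_46 : bk16_5_16 5 46 3 = true := by decide +kernel

lemma b16_5_16_5_49 : bk16_5_16 5 49 3 = true := by decide +kernel

lemma b16_5_16_5_52 : bk16_5_16 5 52 3 = true := by decide +kernel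

lemma b16_5_16_5_55 : bk16_5_16 5 55 3 = true := by decide +kernel

lemma b16_5_16_5_58 : bk16_5_16 5 58 4 = true := by decide +kernel

lemma b16_5_16_5_62 : bk16_5_16 5 62 4 = true := by decide +kernel

lemma b16_5_16_5_66 : bk16_5_16 5 66 5 = true := by decide +kernel

lemma b16_5_16_5_71 : bk16_5_16 5 71 7 = true := by decide +kernel

lemma b16_5_16_5_78 : bk16_5_16 5 78 11 = true := by decide +kernel

lemma b16_5_16_5_89 : bk16_5_16 5 89 3 = true := by decide +kernel

end FinK

end Pool.Agent.Lib.MP_f04ccf_co
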