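import Pool.Agent.Lib.MP_f04ccf_co.M.FinA16t

/-!
MP_f04ccf_co, PLAN W, finite part: `R = 16`, `n = 5` rows, `∑ h ≤ 16` (loads, second form).
Generated (gen.py, mk4.py): blocks of first rows, part 3 of 7.
-/

set_option autoImplicit false

namespace Pool.Agent.Lib.MP_f04ccf_co

namespace FinK

lemma b16_5_16_6_0 : bk16_5_16 6 0 23 = true := by decide +kernel

lemma b16_5_16_6_23 : bk16_5_16 6 23 5 = true := by decide +kernel

lemma b16_5_16_6_28 : bk16_5_16 6 28 3 = true := by decide +kernel

lemma b16_5_16_6_31 : bk16_5_16 6 31 2 = true := by decide +kernel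

lemma b16_5_16_6_33 : bk16_5_16 6 33 2 = true := by decide +kernel

lemma b16_5_16_6_35 : bk16_5_16 6 35 2 = true := by decide +kernel

lemma b16_5_16_6_37 : bk16_5_16 6 37 1 = true := by decide +kernel

lemma b16_5_16_6_38 : bk16_5_16 6 38 1 = true := by decide +kernel

lemma b16_5_16_6_39 : bk16_5_16 6 39 1 = true := by decide +kernel

lemma b16_5_16_6_40 : bk16_5_16 6 40 1 = true := by decide +kernel

lemma b16_5_16_6_41 : bk16_5_16 6 41 1 = true := by decide +kernel

lemma b16_5_16_6_42 : bk16_5_16 6 42 1 = true := by decide +kernel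

end FinK

end Pool.Agent.Lib.MP_f04ccf_co
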