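import Pool.Agent.Lib.MP_f04ccf_co.M.FinA16t

/-!
MP_f04ccf_co, PLAN W, finite part: `R = 16`, `n = 5` rows, `∑ h ≤ 16` (loads, second form).
Generated (gen.py, mk4.py): blocks of first rows, part 5 of 7.
-/

set_option autoImplicit false

namespace Pool.Agent.Lib.MP_f04ccf_co

namespace FinK

lemma b16_5_16_6_57 : bk16_5_16 6 57 2 = true := by decide +kernel

lemma b16_5_16_6_59 : bk16_5_16 6 59 2 = true := by decide +kernel

lemma b16_5_16_6_61 : bk16_5_16 6 61 2 = true := by decide +kernel

lemma b16_5_16_6_63 : bk16_5_16 6 63 3 = true := by decide +kernel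

lemma b16_5_16_6_66 : bk16_5_16 6 66 3 = true := by decide +kernel

lemma b16_5_16_6_69 : bk16_5_16 6 69 4 = true := by decide +kernel

lemma b16_5_16_6_73 : bk16_5_16 6 73 5 = true := by decide +kernel

lemma b16_5_16_7_0 : bk16_5_16 7 0 11 = true := by decide +kernel

lemma b16_5_16_7_11 : bk16_5_16 7 11 1 = true := by decide +kernel

lemma b16_5_16_7_12 : bk16_5_16 7 12 1 = true := by decide +kernel

end FinK

end Pool.Agent.Lib.MP_f04ccf_co
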