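import Pool.Agent.Lib.MP_f04ccf_co.M.FinA16t

/-!
MP_f04ccf_co, PLAN W, finite part: `R = 16`, `n = 5` rows, `∑ h ≤ 16` (loads, second form).
Generated (gen.py, mk4.py): blocks of first rows, part 7 of 7.
-/

set_option autoImplicit false

namespace Pool.Agent.Lib.MP_f04ccf_co

namespace FinK

lemma b16_5_16_7_22 : bk16_5_16 7 22 1 = true := by decide +kernel

lemma b16_5_16_7_23 : bk16_5_16 7 23 1 = true := by decide +kernel

lemma b16_5_16_7_24 : bk16_5_16 7 24 1 = true := by decide +kernel

lemma b16_5_16_7_25 : bk16_5_16 7 25 2 = true := by decide +kernel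

lemma b16_5_16_7_27 : bk16_5_16 7 27 3 = true := by decide +kernel

lemma b16_5_16_7_30 : bk16_5_16 7 30 6 = true := by decide +kernel

lemma b16_5_16_7_36 : bk16_5_16 7 36 3 = true := by decide +kernel

lemma b16_5_16_8_0 : bk16_5_16 8 0 3 = true := by decide +kernel

lemma b16_5_16_8_3 : bk16_5_16 8 3 13 = true := by decide +kernel

lemma b16_5_16_9_0 : bk16_5_16 9 0 5 = true := by decide +kernel

lemma b16_5_16_10_0 : bk16_5_16 10 0 2 = true := by decide +kernel

end FinK

end Pool.Agent.Lib.MP_f04ccf_co
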