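import Pool.Agent.Lib.MP_f04ccf_co.M.FinA16p1
import Pool.Agent.Lib.MP_f04ccf_co.M.FinA16p2
import Pool.Agent.Lib.MP_f04ccf_co.M.FinA16p3
import Pool.Agent.Lib.MP_f04ccf_co.M.FinA16p4
import Pool.Agent.Lib.MP_f04ccf_co.M.FinA16p5
import Pool.Agent.Lib.MP_f04ccf_co.M.FinA16p6
import Pool.Agent.Lib.MP_f04ccf_co.M.FinA16p7

/-!
MP_f04ccf_co, PLAN W, finite part: `R = 16`, `n = 5` rows, `∑ h ≤ 16` (loads, second form).
Generated (gen.py, mk4.py): the parts together.
-/

set_option autoImplicit false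

namespace Pool.Agent.Lib.MP_f04ccf_co

namespace FinK

lemma c16_5_16_0 : bk16_5_16 0 0 132 = true := b16_5_16_0_0

lemma c16_5_16_1 : bk16_5_16 1 0 127 = true := b16_5_16_1_0

lemma c16_5_16_2 : bk16_5_16 2 0 121 = true := b16_5_16_2_0

lemma c16_5_16_3 : bk16_5_16 3 0 111 = true := by
  have h0 := Kern.blk_join b16_5_16_3_0 b16_5_16_3_61
  exact h0

lemma c16_5_16_4 : bk16_5_16 4 0 104 = true := by
  have h0 := Kern.blk_join b16_5_16_4_0 b16_5_16_4_40
  have h1 := Kern.blk_join h0 b16_5_16_4_52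
  have h2 := Kern.blk_join h1 b16_5_16_4_64
  have h3 := Kern.blk_join h2 b16_5_16_4_89
  exact h3

lemma c16_5_16_5 : bk16_5_16 5 0 92 = true := by
  have h0 := Kern.blk_join b16_5_16_5_0 b16_5_16_5_30
  have h1 := Kern.blk_join h0 b16_5_16_5_37
  have h2 := Kern.blk_join h1 b16_5_16_5_42
  have h3 := Kern.blk_join h2 b16_5_16_5_46
  have h4 := Kern.blk_join h3 b16_5_16_5_49
  have h5 := Kern.blk_join h4 b16_5_16_5_52
  have h6 := Kern.blk_join h5 b16_5_16_5_55
  have h7 := Kern.blk_join h6 b16_5_16_5_58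
  have h8 := Kern.blk_join h7 b16_5_16_5_62
  have h9 := Kern.blk_join h8 b16_5_16_5_66
  have h10 := Kern.blk_join h9 b16_5_16_5_71
  have h11 := Kern.blk_join h10 b16_5_16_5_78
  have h12 := Kern.blk_join h11 b16_5_16_5_89
  exact h12

lemma c16_5_16_6 : bk16_5_16 6 0 78 = true := by
  have h0 := Kern.blk_join b16_5_16_6_0 b16_5_16_6_23
  have h1 := Kern.blk_join h0 b16_5_16_6_28
  have h2 := Kern.blk_join h1 b16_5_16_6_31
  have h3 := Kern.blk_join h2 b16_5_16_6_33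
  have h4 := Kern.blk_join h3 b16_5_16_6_35
  have h5 := Kern.blk_join h4 b16_5_16_6_37
  have h6 := Kern.blk_join h5 b16_5_16_6_38
  have h7 := Kern.blk_join h6 b16_5_16_6_39
  have h8 := Kern.blk_join h7 b16_5_16_6_40
  have h9 := Kern.blk_join h8 b16_5_16_6_41
  have h10 := Kern.blk_join h9 b16_5_16_6_42
  have h11 := Kern.blk_join h10 b16_5_16_6_43
  have h12 := Kern.blk_join h11 b16_5_16_6_44
  have h13 := Kern.blk_join h12 b16_5_16_6_45
  have h14 := Kern.blk_join h13 b16_5_16_6_46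
  have h15 := Kern.blk_join h14 b16_5_16_6_47
  have h16 := Kern.blk_join h15 b16_5_16_6_48
  have h17 := Kern.blk_join h16 b16_5_16_6_49
  have h18 := Kern.blk_join h17 b16_5_16_6_50
  have h19 := Kern.blk_join h18 b16_5_16_6_51
  have h20 := Kern.blk_join h19 b16_5_16_6_52
  have h21 := Kern.blk_join h20 b16_5_16_6_53
  have h22 := Kern.blk_join h21 b16_5_16_6_54
  have h23 := Kern.blk_join h22 b16_5_16_6_55
  have h24 := Kern.blk_join h23 b16_5_16_6_56
  have h25 := Kern.blk_join h24 b16_5_16_6_57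
  have h26 := Kern.blk_join h25 b16_5_16_6_59
  have h27 := Kern.blk_join h26 b16_5_16_6_61
  have h28 := Kern.blk_join h27 b16_5_16_6_63
  have h29 := Kern.blk_join h28 b16_5_16_6_66
  have h30 := Kern.blk_join h29 b16_5_16_6_69
  have h31 := Kern.blk_join h30 b16_5_16_6_73
  exact h31

lemma c16_5_16_7 : bk16_5_16 7 0 39 = true := by
  have h0 := Kern.blk_join b16_5_16_7_0 b16_5_16_7_11
  have h1 := Kern.blk_join h0 b16_5_16_7_12
  have h2 := Kern.blk_join h1 b16_5_16_7_13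
  have h3 := Kern.blk_join h2 b16_5_16_7_14
  have h4 := Kern.blk_join h3 b16_5_16_7_15
  have h5 := Kern.blk_join h4 b16_5_16_7_16
  have h6 := Kern.blk_join h5 b16_5_16_7_17
  have h7 := Kern.blk_join h6 b16_5_16_7_18
  have h8 := Kern.blk_join h7 b16_5_16_7_19
  have h9 := Kern.blk_join h8 b16_5_16_7_20
  have h10 := Kern.blk_join h9 b16_5_16_7_21
  have h11 := Kern.blk_join h10 b16_5_16_7_22
  have h12 := Kern.blk_join h11 b16_5_16_7_23
  have h13 := Kern.blk_join h12 b16_5_16_7_24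
  have h14 := Kern.blk_join h13 b16_5_16_7_25
  have h15 := Kern.blk_join h14 b16_5_16_7_27
  have h16 := Kern.blk_join h15 b16_5_16_7_30
  have h17 := Kern.blk_join h16 b16_5_16_7_36
  exact h17

lemma c16_5_16_8 : bk16_5_16 8 0 16 = true := by
  have h0 := Kern.blk_join b16_5_16_8_0 b16_5_16_8_3
  exact h0

lemma c16_5_16_9 : bk16_5_16 9 0 5 = true := b16_5_16_9_0

lemma c16_5_16_10 : bk16_5_16 10 0 2 = true := b16_5_16_10_0

lemma e16_5_16 : Kern.EnS (fun a : ℕ × ℕ × ℕ × ℕ => a.1) (fun a => a.2.1) (fun _ => 0) (fun _ => 0)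
    10 16 (5 + 1) (fun l => (Kern.sel (Kern.sml 16) (Le.ld4 16 5)) (Kern.revT l)) (4 + 1) (Kern.flt gs16_5_16) := by
  refine Kern.EnS.of_blk (b := fun a => a.2.2.2) (bg := fun _ => 0) (by decide +kernel) fun j hj => ?_
  have hj' : j < 11 := hj
  interval_cases j
  · exact c16_5_16_0
  · exact c16_5_16_1
  · exact c16_5_16_2
  · exact c16_5_16_3
  · exact c16_5_16_4
  · exact c16_5_16_5
  · exact c16_5_16_6
  · exact c16_5_16_7
  · exact c16_5_16_8
  · exact c16_5_16_9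
  · exact c16_5_16_10

theorem part16_5_16 : PartC ((16 : ℕ) : ℤ) 16 5 (Kern.sel (Kern.sml 16) (Le.ld4 16 5)) := by
  obtain ⟨h1, h2, h3, h4⟩ := ok16_5_16
  exact PartC.enumG (N := 17) (by norm_num) (by norm_num) h1 h2 h3 h4 e16_5_16

end FinK

/-- **`R = 16`, `n = 5`, `∑ h ≤ 16`: no items for the pairs in `(Kern.sml 16)`** -/
theorem noItCP16_5_16 : NoItCP 16 16 5 (Kern.sml 16) :=
  PartC.sel_ld4 (by norm_num) (by norm_num) FinK.part16_5_16

end Pool.Agent.Lib.MP_f04ccf_co
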