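import Pool.Agent.Lib.MP_f04ccf_co.M.FinA16t

/-!
MP_f04ccf_co, PLAN W, finite part: `R = 16`, `n = 5` rows, `∑ h ≤ 16` (loads, second form).
Generated (gen.py, mk4.py): blocks of first rows, part 1 of 7.
-/

set_option autoImplicit false

namespace Pool.Agent.Lib.MP_f04ccf_co

namespace FinK

lemma b16_5_16_0_0 : bk16_5_16 0 0 132 = true := by decide +kernel

lemma b16_5_16_1_0 : bk16_5_16 1 0 127 = true := by decide +kernel

lemma b16_5_16_2_0 : bk16_5_16 2 0 121 = true := by decide +kernel

lemma b16_5_16_3_0 : bk16_5_16 3 0 61 = true := by decide +kernel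

lemma b16_5_16_3_61 : bk16_5_16 3 61 50 = true := by decide +kernel

lemma b16_5_16_4_0 : bk16_5_16 4 0 40 = true := by decide +kernel

lemma b16_5_16_4_40 : bk16_5_16 4 40 12 = true := by decide +kernel

lemma b16_5_16_4_52 : bk16_5_16 4 52 12 = true := by decide +kernel

lemma b16_5_16_4_64 : bk16_5_16 4 64 25 = true := by decide +kernel

lemma b16_5_16_4_89 : bk16_5_16 4 89 15 = true := by decide +kernel

lemma b16_5_16_5_0 : bk16_5_16 5 0 30 = true := by decide +kernel

lemma b16_5_16_5_30 : bk16_5_16 5 30 7 = true := by decide +kernel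

lemma b16_5_16_5_37 : bk16_5_16 5 37 5 = true := by decide +kernel

end FinK

end Pool.Agent.Lib.MP_f04ccf_co
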