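import Pool.Agent.Lib.MP_f04ccf_co.M.FinF
import Pool.Agent.Lib.MP_f04ccf_co.M.FinL

/-!
MP_f04ccf_co, PLAN W, finite part: `R = 10`, `n = 6` rows, `∑ h ≤ 11`: there are no items (loads).
Generated (helper11, gen.py, mk3.py): the table of all rows `(t, h, mu, b)` which pass the row filter
`Kern.okE`, `b` a bound for `h - t` on the rest of the table; the enumeration in blocks of first rows
with the leaf `(Kern.ldL 10)`, checked by the kernel.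
-/

set_option autoImplicit false

namespace Pool.Agent.Lib.MP_f04ccf_co

namespace FinK

/-- the table -/
def gs10_6_11 : List (ℕ × List (ℕ × ℕ × ℕ × ℕ)) :=
  [(4, [(4, 11, 11, 9), (4, 11, 10, 9), (4, 11, 9, 9), (4, 11, 8, 9), (4, 11, 7, 9),
    (4, 10, 10, 9), (4, 10, 9, 9), (4, 10, 8, 9), (4, 10, 7, 9), (4, 10, 6, 9), (4, 9, 9, 9),
    (4, 9, 8, 9), (4, 9, 7, 9), (4, 9, 6, 9), (4, 9, 5, 9), (4, 8, 8, 9), (4, 8, 7, 9),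
    (4, 8, 6, 9), (4, 8, 5, 9), (4, 8, 4, 9), (4, 7, 7, 9), (4, 7, 6, 9), (4, 7, 5, 9),
    (4, 7, 4, 9), (4, 7, 3, 9), (4, 6, 6, 9), (4, 6, 5, 9), (4, 6, 4, 9), (4, 6, 3, 9),
    (4, 6, 2, 9), (4, 5, 5, 9), (4, 5, 4, 9), (4, 5, 3, 9), (4, 5, 2, 9), (4, 5, 1, 9),
    (4, 4, 4, 9), (4, 4, 3, 9), (4, 4, 2, 9), (4, 4, 1, 9), (4, 4, 0, 9), (4, 3, 3, 9),
    (4, 3, 2, 9), (4, 3, 1, 9), (4, 3, 0, 9), (4, 2, 2, 9), (4, 2, 1, 9), (4, 2, 0, 9),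
    (4, 1, 1, 9), (4, 1, 0, 9), (4, 0, 0, 9)]),
  (3, [(3, 11, 11, 9), (3, 11, 10, 9), (3, 11, 9, 9), (3, 11, 8, 9), (3, 11, 7, 9),
    (3, 10, 10, 9), (3, 10, 9, 9), (3, 10, 8, 9), (3, 10, 7, 9), (3, 9, 9, 9), (3, 9, 8, 9),
    (3, 9, 7, 9), (3, 9, 6, 9), (3, 8, 8, 9), (3, 8, 7, 9), (3, 8, 6, 9), (3, 8, 5, 9),
    (3, 7, 7, 9), (3, 7, 6, 9), (3, 7, 5, 9), (3, 7, 4, 9), (3, 6, 6, 9), (3, 6, 5, 9),
    (3, 6, 4, 9), (3, 6, 3, 9), (3, 5, 5, 9), (3, 5, 4, 9), (3, 5, 3, 9), (3, 5, 2, 9),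
    (3, 4, 4, 9), (3, 4, 3, 9), (3, 4, 2, 9), (3, 4, 1, 9), (3, 3, 3, 9), (3, 3, 2, 9),
    (3, 3, 1, 9), (3, 3, 0, 9), (3, 2, 2, 9), (3, 2, 1, 9), (3, 2, 0, 9), (3, 1, 1, 9),
    (3, 1, 0, 9), (3, 0, 0, 9)]),
  (2, [(2, 11, 11, 9), (2, 11, 10, 9), (2, 11, 9, 9), (2, 10, 10, 8), (2, 10, 9, 8),
    (2, 9, 9, 7), (2, 9, 8, 7), (2, 8, 8, 6), (2, 7, 7, 5), (2, 6, 6, 4), (2, 6, 5, 4),
    (2, 5, 5, 3), (2, 5, 4, 3), (2, 4, 4, 2), (2, 4, 3, 2), (2, 4, 2, 2), (2, 3, 3, 2),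
    (2, 3, 2, 2), (2, 3, 1, 2), (2, 2, 2, 2), (2, 2, 1, 2), (2, 2, 0, 2), (2, 1, 1, 2),
    (2, 1, 0, 2), (2, 0, 0, 2)]),
  (1, [(1, 3, 3, 2), (1, 2, 2, 1), (1, 2, 1, 1), (1, 1, 1, 1), (1, 1, 0, 1), (1, 0, 0, 1)]),
  (0, [(0, 1, 1, 1), (0, 0, 0, 0)])]

/-- the squares `kf t ^ 2` are larger than `t (M - t) + 1` -/
def kf10_6_11 (t : ℕ) : ℕ := ([2, 3, 3, 3, 2] : List ℕ).getD t 0

lemma ok10_6_11 : Kern.okF 10 4 = true ∧ Kern.okK 4 kf10_6_11 = true ∧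
    Kern.srt (Kern.keyF 12) (Kern.flt gs10_6_11) = true ∧
    Kern.allTab 4 11 11 (Kern.okE 10 4 kf10_6_11)
      (fun a b c => (Kern.lookF (Kern.flt gs10_6_11) a b c).isSome) = true := by
  decide +kernel

/-- a block -/
noncomputable def bk10_6_11 (j p k : ℕ) : Bool :=
  Kern.blk (fun a : ℕ × ℕ × ℕ × ℕ => a.1) (fun a => a.2.1) (fun a => a.2.2.2) (fun _ => 0)
    (fun _ => 0) (fun _ => 0) 4 11 7 (fun l => (Kern.ldL 10) (Kern.revT l)) 5 gs10_6_11 j p k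

lemma b10_6_11_0_0 : bk10_6_11 0 0 50 = true := by decide +kernel

lemma b10_6_11_1_0 : bk10_6_11 1 0 43 = true := by decide +kernel

lemma b10_6_11_2_0 : bk10_6_11 2 0 25 = true := by decide +kernel

lemma b10_6_11_3_0 : bk10_6_11 3 0 6 = true := by decide +kernel

lemma b10_6_11_4_0 : bk10_6_11 4 0 2 = true := by decide +kernel

lemma c10_6_11_0 : bk10_6_11 0 0 50 = true := b10_6_11_0_0

lemma c10_6_11_1 : bk10_6_11 1 0 43 = true := b10_6_11_1_0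

lemma c10_6_11_2 : bk10_6_11 2 0 25 = true := b10_6_11_2_0

lemma c10_6_11_3 : bk10_6_11 3 0 6 = true := b10_6_11_3_0

lemma c10_6_11_4 : bk10_6_11 4 0 2 = true := b10_6_11_4_0

lemma e10_6_11 : Kern.EnS (fun a : ℕ × ℕ × ℕ × ℕ => a.1) (fun a => a.2.1) (fun _ => 0) (fun _ => 0)
    4 11 (6 + 1) (fun l => (Kern.ldL 10) (Kern.revT l)) (5 + 1) (Kern.flt gs10_6_11) := by
  refine Kern.EnS.of_blk (b := fun a => a.2.2.2) (bg := fun _ => 0) (by decide +kernel) fun j hj => ?_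
  have hj' : j < 5 := hj
  interval_cases j
  · exact c10_6_11_0
  · exact c10_6_11_1
  · exact c10_6_11_2
  · exact c10_6_11_3
  · exact c10_6_11_4

theorem part10_6_11 : PartC ((10 : ℕ) : ℤ) 11 6 (Kern.ldL 10) := by
  obtain ⟨h1, h2, h3, h4⟩ := ok10_6_11
  exact PartC.enumS (N := 12) (by norm_num) (by norm_num) h1 h2 h3 h4 e10_6_11

end FinK

/-- **`R = 10`, `n = 6`, `∑ h ≤ 11`: no items** -/
theorem noItC10_6_11 : NoItC 10 11 6 :=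
  NoItC.of_ld (by norm_num) FinK.part10_6_11

end Pool.Agent.Lib.MP_f04ccf_co
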