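import Pool.Agent.Lib.MP_f04ccf_co.M.FinF
import Pool.Agent.Lib.MP_f04ccf_co.M.FinL

/-!
MP_f04ccf_co, PLAN W, finite part: `R = 11`, `n = 7` rows, `∑ h ≤ 12`: there are no items (loads).
Generated (helper11, gen.py, mk3.py): the table of all rows `(t, h, mu, b)` which pass the row filter
`Kern.okE`, `b` a bound for `h - t` on the rest of the table; the enumeration in blocks of first rows
with the leaf `(Kern.ldL 11)`, checked by the kernel.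
-/

set_option autoImplicit false

namespace Pool.Agent.Lib.MP_f04ccf_co

namespace FinK

/-- the table -/
def gs11_7_12 : List (ℕ × List (ℕ × ℕ × ℕ × ℕ)) :=
  [(4, [(4, 12, 12, 10), (4, 12, 11, 10), (4, 12, 10, 10), (4, 12, 9, 10), (4, 11, 11, 10),
    (4, 11, 10, 10), (4, 11, 9, 10), (4, 11, 8, 10), (4, 10, 10, 10), (4, 10, 9, 10),
    (4, 10, 8, 10), (4, 10, 7, 10), (4, 9, 9, 10), (4, 9, 8, 10), (4, 9, 7, 10),
    (4, 9, 6, 10), (4, 8, 8, 10), (4, 8, 7, 10), (4, 8, 6, 10), (4, 8, 5, 10), (4, 7, 7, 10),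
    (4, 7, 6, 10), (4, 7, 5, 10), (4, 7, 4, 10), (4, 6, 6, 10), (4, 6, 5, 10), (4, 6, 4, 10),
    (4, 6, 3, 10), (4, 6, 2, 10), (4, 5, 5, 10), (4, 5, 4, 10), (4, 5, 3, 10), (4, 5, 2, 10),
    (4, 5, 1, 10), (4, 4, 4, 10), (4, 4, 3, 10), (4, 4, 2, 10), (4, 4, 1, 10), (4, 4, 0, 10),
    (4, 3, 3, 10), (4, 3, 2, 10), (4, 3, 1, 10), (4, 3, 0, 10), (4, 2, 2, 10), (4, 2, 1, 10),
    (4, 2, 0, 10), (4, 1, 1, 10), (4, 1, 0, 10), (4, 0, 0, 10)]),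
  (3, [(3, 12, 12, 10), (3, 12, 11, 10), (3, 12, 10, 10), (3, 12, 9, 10), (3, 11, 11, 10),
    (3, 11, 10, 10), (3, 11, 9, 10), (3, 10, 10, 10), (3, 10, 9, 10), (3, 10, 8, 10),
    (3, 9, 9, 10), (3, 9, 8, 10), (3, 9, 7, 10), (3, 8, 8, 10), (3, 8, 7, 10), (3, 8, 6, 10),
    (3, 7, 7, 10), (3, 7, 6, 10), (3, 7, 5, 10), (3, 6, 6, 10), (3, 6, 5, 10), (3, 6, 4, 10),
    (3, 5, 5, 10), (3, 5, 4, 10), (3, 5, 3, 10), (3, 5, 2, 10), (3, 4, 4, 10), (3, 4, 3, 10),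
    (3, 4, 2, 10), (3, 4, 1, 10), (3, 3, 3, 10), (3, 3, 2, 10), (3, 3, 1, 10), (3, 3, 0, 10),
    (3, 2, 2, 10), (3, 2, 1, 10), (3, 2, 0, 10), (3, 1, 1, 10), (3, 1, 0, 10), (3, 0, 0, 10)]),
  (2, [(2, 12, 12, 10), (2, 12, 11, 10), (2, 11, 11, 9), (2, 6, 6, 4), (2, 5, 5, 3),
    (2, 5, 4, 3), (2, 4, 4, 2), (2, 4, 3, 2), (2, 4, 2, 2), (2, 3, 3, 2), (2, 3, 2, 2),
    (2, 3, 1, 2), (2, 2, 2, 2), (2, 2, 1, 2), (2, 2, 0, 2), (2, 1, 1, 2), (2, 1, 0, 2),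
    (2, 0, 0, 2)]),
  (1, [(1, 3, 3, 2), (1, 2, 2, 1), (1, 2, 1, 1), (1, 1, 1, 1), (1, 1, 0, 1), (1, 0, 0, 1)]),
  (0, [(0, 1, 1, 1), (0, 0, 0, 0)])]

/-- the squares `kf t ^ 2` are larger than `t (M - t) + 1` -/
def kf11_7_12 (t : ℕ) : ℕ := ([2, 3, 3, 3, 2] : List ℕ).getD t 0

lemma ok11_7_12 : Kern.okF 11 4 = true ∧ Kern.okK 4 kf11_7_12 = true ∧
    Kern.srt (Kern.keyF 13) (Kern.flt gs11_7_12) = true ∧
    Kern.allTab 4 12 12 (Kern.okE 11 4 kf11_7_12)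
      (fun a b c => (Kern.lookF (Kern.flt gs11_7_12) a b c).isSome) = true := by
  decide +kernel

/-- a block -/
noncomputable def bk11_7_12 (j p k : ℕ) : Bool :=
  Kern.blk (fun a : ℕ × ℕ × ℕ × ℕ => a.1) (fun a => a.2.1) (fun a => a.2.2.2) (fun _ => 0)
    (fun _ => 0) (fun _ => 0) 4 12 8 (fun l => (Kern.ldL 11) (Kern.revT l)) 6 gs11_7_12 j p k

lemma b11_7_12_0_0 : bk11_7_12 0 0 49 = true := by decide +kernel

lemma b11_7_12_1_0 : bk11_7_12 1 0 40 = true := by decide +kernel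

lemma b11_7_12_2_0 : bk11_7_12 2 0 18 = true := by decide +kernel

lemma b11_7_12_3_0 : bk11_7_12 3 0 6 = true := by decide +kernel

lemma b11_7_12_4_0 : bk11_7_12 4 0 2 = true := by decide +kernel

lemma c11_7_12_0 : bk11_7_12 0 0 49 = true := b11_7_12_0_0

lemma c11_7_12_1 : bk11_7_12 1 0 40 = true := b11_7_12_1_0

lemma c11_7_12_2 : bk11_7_12 2 0 18 = true := b11_7_12_2_0

lemma c11_7_12_3 : bk11_7_12 3 0 6 = true := b11_7_12_3_0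

lemma c11_7_12_4 : bk11_7_12 4 0 2 = true := b11_7_12_4_0

lemma e11_7_12 : Kern.EnS (fun a : ℕ × ℕ × ℕ × ℕ => a.1) (fun a => a.2.1) (fun _ => 0) (fun _ => 0)
    4 12 (7 + 1) (fun l => (Kern.ldL 11) (Kern.revT l)) (6 + 1) (Kern.flt gs11_7_12) := by
  refine Kern.EnS.of_blk (b := fun a => a.2.2.2) (bg := fun _ => 0) (by decide +kernel) fun j hj => ?_
  have hj' : j < 5 := hj
  interval_cases j
  · exact c11_7_12_0
  · exact c11_7_12_1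
  · exact c11_7_12_2
  · exact c11_7_12_3
  · exact c11_7_12_4

theorem part11_7_12 : PartC ((11 : ℕ) : ℤ) 12 7 (Kern.ldL 11) := by
  obtain ⟨h1, h2, h3, h4⟩ := ok11_7_12
  exact PartC.enumS (N := 13) (by norm_num) (by norm_num) h1 h2 h3 h4 e11_7_12

end FinK

/-- **`R = 11`, `n = 7`, `∑ h ≤ 12`: no items** -/
theorem noItC11_7_12 : NoItC 11 12 7 :=
  NoItC.of_ld (by norm_num) FinK.part11_7_12

end Pool.Agent.Lib.MP_f04ccf_co
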