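import Pool.Agent.Lib.MP_f04ccf_co.M.FinF
import Pool.Agent.Lib.MP_f04ccf_co.M.FinL

/-!
MP_f04ccf_co, PLAN W, finite part: `R = 12`, `n = 8` rows, `∑ h ≤ 13`: there are no items (loads).
Generated (helper11, gen.py, mk3.py): the table of all rows `(t, h, mu, b)` which pass the row filter
`Kern.okE`, `b` a bound for `h - t` on the rest of the table; the enumeration in blocks of first rows
with the leaf `(Kern.ldL 12)`, checked by the kernel.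
-/

set_option autoImplicit false

namespace Pool.Agent.Lib.MP_f04ccf_co

namespace FinK

/-- the table -/
def gs12_8_13 : List (ℕ × List (ℕ × ℕ × ℕ × ℕ)) :=
  [(4, [(4, 13, 13, 10), (4, 13, 12, 10), (4, 13, 11, 10), (4, 12, 12, 10), (4, 12, 11, 10),
    (4, 12, 10, 10), (4, 11, 11, 10), (4, 11, 10, 10), (4, 11, 9, 10), (4, 10, 10, 10),
    (4, 10, 9, 10), (4, 10, 8, 10), (4, 9, 9, 10), (4, 9, 8, 10), (4, 9, 7, 10),
    (4, 8, 8, 10), (4, 8, 7, 10), (4, 8, 6, 10), (4, 7, 7, 10), (4, 7, 6, 10), (4, 7, 5, 10),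
    (4, 7, 4, 10), (4, 6, 6, 10), (4, 6, 5, 10), (4, 6, 4, 10), (4, 6, 3, 10), (4, 6, 2, 10),
    (4, 5, 5, 10), (4, 5, 4, 10), (4, 5, 3, 10), (4, 5, 2, 10), (4, 5, 1, 10), (4, 4, 4, 10),
    (4, 4, 3, 10), (4, 4, 2, 10), (4, 4, 1, 10), (4, 4, 0, 10), (4, 3, 3, 10), (4, 3, 2, 10),
    (4, 3, 1, 10), (4, 3, 0, 10), (4, 2, 2, 10), (4, 2, 1, 10), (4, 2, 0, 10), (4, 1, 1, 10),
    (4, 1, 0, 10), (4, 0, 0, 10)]),
  (3, [(3, 13, 13, 10), (3, 13, 12, 10), (3, 13, 11, 10), (3, 12, 12, 9), (3, 12, 11, 9),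
    (3, 11, 11, 8), (3, 11, 10, 8), (3, 10, 10, 7), (3, 10, 9, 7), (3, 9, 9, 6),
    (3, 9, 8, 6), (3, 8, 8, 5), (3, 8, 7, 5), (3, 7, 7, 4), (3, 7, 6, 4), (3, 6, 6, 3),
    (3, 6, 5, 3), (3, 6, 4, 3), (3, 5, 5, 3), (3, 5, 4, 3), (3, 5, 3, 3), (3, 5, 2, 3),
    (3, 4, 4, 3), (3, 4, 3, 3), (3, 4, 2, 3), (3, 4, 1, 3), (3, 3, 3, 3), (3, 3, 2, 3),
    (3, 3, 1, 3), (3, 3, 0, 3), (3, 2, 2, 3), (3, 2, 1, 3), (3, 2, 0, 3), (3, 1, 1, 3),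
    (3, 1, 0, 3), (3, 0, 0, 3)]),
  (2, [(2, 5, 5, 3), (2, 4, 4, 2), (2, 4, 3, 2), (2, 3, 3, 2), (2, 3, 2, 2), (2, 3, 1, 2),
    (2, 2, 2, 2), (2, 2, 1, 2), (2, 2, 0, 2), (2, 1, 1, 2), (2, 1, 0, 2), (2, 0, 0, 2)]),
  (1, [(1, 3, 3, 2), (1, 2, 2, 1), (1, 2, 1, 1), (1, 1, 1, 1), (1, 1, 0, 1), (1, 0, 0, 1)]),
  (0, [(0, 1, 1, 1), (0, 0, 0, 0)])]

/-- the squares `kf t ^ 2` are larger than `t (M - t) + 1` -/
def kf12_8_13 (t : ℕ) : ℕ := ([2, 3, 3, 3, 2] : List ℕ).getD t 0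

lemma ok12_8_13 : Kern.okF 12 4 = true ∧ Kern.okK 4 kf12_8_13 = true ∧
    Kern.srt (Kern.keyF 14) (Kern.flt gs12_8_13) = true ∧
    Kern.allTab 4 13 13 (Kern.okE 12 4 kf12_8_13)
      (fun a b c => (Kern.lookF (Kern.flt gs12_8_13) a b c).isSome) = true := by
  decide +kernel

/-- a block -/
noncomputable def bk12_8_13 (j p k : ℕ) : Bool :=
  Kern.blk (fun a : ℕ × ℕ × ℕ × ℕ => a.1) (fun a => a.2.1) (fun a => a.2.2.2) (fun _ => 0)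
    (fun _ => 0) (fun _ => 0) 4 13 9 (fun l => (Kern.ldL 12) (Kern.revT l)) 7 gs12_8_13 j p k

lemma b12_8_13_0_0 : bk12_8_13 0 0 47 = true := by decide +kernel

lemma b12_8_13_1_0 : bk12_8_13 1 0 36 = true := by decide +kernel

lemma b12_8_13_2_0 : bk12_8_13 2 0 12 = true := by decide +kernel

lemma b12_8_13_3_0 : bk12_8_13 3 0 6 = true := by decide +kernel

lemma b12_8_13_4_0 : bk12_8_13 4 0 2 = true := by decide +kernel

lemma c12_8_13_0 : bk12_8_13 0 0 47 = true := b12_8_13_0_0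

lemma c12_8_13_1 : bk12_8_13 1 0 36 = true := b12_8_13_1_0

lemma c12_8_13_2 : bk12_8_13 2 0 12 = true := b12_8_13_2_0

lemma c12_8_13_3 : bk12_8_13 3 0 6 = true := b12_8_13_3_0

lemma c12_8_13_4 : bk12_8_13 4 0 2 = true := b12_8_13_4_0

lemma e12_8_13 : Kern.EnS (fun a : ℕ × ℕ × ℕ × ℕ => a.1) (fun a => a.2.1) (fun _ => 0) (fun _ => 0)
    4 13 (8 + 1) (fun l => (Kern.ldL 12) (Kern.revT l)) (7 + 1) (Kern.flt gs12_8_13) := by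
  refine Kern.EnS.of_blk (b := fun a => a.2.2.2) (bg := fun _ => 0) (by decide +kernel) fun j hj => ?_
  have hj' : j < 5 := hj
  interval_cases j
  · exact c12_8_13_0
  · exact c12_8_13_1
  · exact c12_8_13_2
  · exact c12_8_13_3
  · exact c12_8_13_4

theorem part12_8_13 : PartC ((12 : ℕ) : ℤ) 13 8 (Kern.ldL 12) := by
  obtain ⟨h1, h2, h3, h4⟩ := ok12_8_13
  exact PartC.enumS (N := 14) (by norm_num) (by norm_num) h1 h2 h3 h4 e12_8_13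

end FinK

/-- **`R = 12`, `n = 8`, `∑ h ≤ 13`: no items** -/
theorem noItC12_8_13 : NoItC 12 13 8 :=
  NoItC.of_ld (by norm_num) FinK.part12_8_13

end Pool.Agent.Lib.MP_f04ccf_co
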