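import Pool.Agent.Lib.MP_f04ccf_co.M.FinF
import Pool.Agent.Lib.MP_f04ccf_co.M.FinL

/-!
MP_f04ccf_co, PLAN W, finite part: `R = 13`, `n = 7` rows, `∑ h ≤ 14`: there are no items (loads).
Generated (helper11, gen.py, mk3.py): the table of all rows `(t, h, mu, b)` which pass the row filter
`Kern.okE`, `b` a bound for `h - t` on the rest of the table; the enumeration in blocks of first rows
with the leaf `(Kern.ldL 13)`, checked by the kernel.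
-/

set_option autoImplicit false

namespace Pool.Agent.Lib.MP_f04ccf_co

namespace FinK

/-- the table -/
def gs13_7_14 : List (ℕ × List (ℕ × ℕ × ℕ × ℕ)) :=
  [(6, [(6, 14, 14, 12), (6, 14, 13, 12), (6, 14, 12, 12), (6, 14, 11, 12), (6, 14, 10, 12),
    (6, 14, 9, 12), (6, 14, 8, 12), (6, 13, 13, 12), (6, 13, 12, 12), (6, 13, 11, 12),
    (6, 13, 10, 12), (6, 13, 9, 12), (6, 13, 8, 12), (6, 12, 12, 12), (6, 12, 11, 12),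
    (6, 12, 10, 12), (6, 12, 9, 12), (6, 12, 8, 12), (6, 12, 7, 12), (6, 11, 11, 12),
    (6, 11, 10, 12), (6, 11, 9, 12), (6, 11, 8, 12), (6, 11, 7, 12), (6, 11, 6, 12),
    (6, 10, 10, 12), (6, 10, 9, 12), (6, 10, 8, 12), (6, 10, 7, 12), (6, 10, 6, 12),
    (6, 10, 5, 12), (6, 9, 9, 12), (6, 9, 8, 12), (6, 9, 7, 12), (6, 9, 6, 12),
    (6, 9, 5, 12), (6, 9, 4, 12), (6, 9, 3, 12), (6, 8, 8, 12), (6, 8, 7, 12), (6, 8, 6, 12),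
    (6, 8, 5, 12), (6, 8, 4, 12), (6, 8, 3, 12), (6, 8, 2, 12), (6, 7, 7, 12), (6, 7, 6, 12),
    (6, 7, 5, 12), (6, 7, 4, 12), (6, 7, 3, 12), (6, 7, 2, 12), (6, 7, 1, 12), (6, 6, 6, 12),
    (6, 6, 5, 12), (6, 6, 4, 12), (6, 6, 3, 12), (6, 6, 2, 12), (6, 6, 1, 12), (6, 6, 0, 12),
    (6, 5, 5, 12), (6, 5, 4, 12), (6, 5, 3, 12), (6, 5, 2, 12), (6, 5, 1, 12), (6, 5, 0, 12),
    (6, 4, 4, 12), (6, 4, 3, 12), (6, 4, 2, 12), (6, 4, 1, 12), (6, 4, 0, 12), (6, 3, 3, 12),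
    (6, 3, 2, 12), (6, 3, 1, 12), (6, 3, 0, 12), (6, 2, 2, 12), (6, 2, 1, 12), (6, 2, 0, 12),
    (6, 1, 1, 12), (6, 1, 0, 12), (6, 0, 0, 12)]),
  (5, [(5, 14, 14, 12), (5, 14, 13, 12), (5, 14, 12, 12), (5, 14, 11, 12), (5, 14, 10, 12),
    (5, 14, 9, 12), (5, 13, 13, 12), (5, 13, 12, 12), (5, 13, 11, 12), (5, 13, 10, 12),
    (5, 13, 9, 12), (5, 13, 8, 12), (5, 12, 12, 12), (5, 12, 11, 12), (5, 12, 10, 12),
    (5, 12, 9, 12), (5, 12, 8, 12), (5, 11, 11, 12), (5, 11, 10, 12), (5, 11, 9, 12),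
    (5, 11, 8, 12), (5, 11, 7, 12), (5, 10, 10, 12), (5, 10, 9, 12), (5, 10, 8, 12),
    (5, 10, 7, 12), (5, 10, 6, 12), (5, 9, 9, 12), (5, 9, 8, 12), (5, 9, 7, 12),
    (5, 9, 6, 12), (5, 9, 5, 12), (5, 8, 8, 12), (5, 8, 7, 12), (5, 8, 6, 12), (5, 8, 5, 12),
    (5, 8, 4, 12), (5, 8, 3, 12), (5, 7, 7, 12), (5, 7, 6, 12), (5, 7, 5, 12), (5, 7, 4, 12),
    (5, 7, 3, 12), (5, 7, 2, 12), (5, 6, 6, 12), (5, 6, 5, 12), (5, 6, 4, 12), (5, 6, 3, 12),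
    (5, 6, 2, 12), (5, 6, 1, 12), (5, 5, 5, 12), (5, 5, 4, 12), (5, 5, 3, 12), (5, 5, 2, 12),
    (5, 5, 1, 12), (5, 5, 0, 12), (5, 4, 4, 12), (5, 4, 3, 12), (5, 4, 2, 12), (5, 4, 1, 12),
    (5, 4, 0, 12), (5, 3, 3, 12), (5, 3, 2, 12), (5, 3, 1, 12), (5, 3, 0, 12), (5, 2, 2, 12),
    (5, 2, 1, 12), (5, 2, 0, 12), (5, 1, 1, 12), (5, 1, 0, 12), (5, 0, 0, 12)]),
  (4, [(4, 14, 14, 12), (4, 14, 13, 12), (4, 14, 12, 12), (4, 14, 11, 12), (4, 14, 10, 12),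
    (4, 14, 9, 12), (4, 13, 13, 12), (4, 13, 12, 12), (4, 13, 11, 12), (4, 13, 10, 12),
    (4, 13, 9, 12), (4, 12, 12, 12), (4, 12, 11, 12), (4, 12, 10, 12), (4, 12, 9, 12),
    (4, 12, 8, 12), (4, 11, 11, 12), (4, 11, 10, 12), (4, 11, 9, 12), (4, 11, 8, 12),
    (4, 10, 10, 12), (4, 10, 9, 12), (4, 10, 8, 12), (4, 10, 7, 12), (4, 9, 9, 12),
    (4, 9, 8, 12), (4, 9, 7, 12), (4, 9, 6, 12), (4, 8, 8, 12), (4, 8, 7, 12), (4, 8, 6, 12),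
    (4, 8, 5, 12), (4, 7, 7, 12), (4, 7, 6, 12), (4, 7, 5, 12), (4, 7, 4, 12), (4, 7, 3, 12),
    (4, 6, 6, 12), (4, 6, 5, 12), (4, 6, 4, 12), (4, 6, 3, 12), (4, 6, 2, 12), (4, 5, 5, 12),
    (4, 5, 4, 12), (4, 5, 3, 12), (4, 5, 2, 12), (4, 5, 1, 12), (4, 4, 4, 12), (4, 4, 3, 12),
    (4, 4, 2, 12), (4, 4, 1, 12), (4, 4, 0, 12), (4, 3, 3, 12), (4, 3, 2, 12), (4, 3, 1, 12),
    (4, 3, 0, 12), (4, 2, 2, 12), (4, 2, 1, 12), (4, 2, 0, 12), (4, 1, 1, 12), (4, 1, 0, 12),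
    (4, 0, 0, 12)]),
  (3, [(3, 14, 14, 12), (3, 14, 13, 12), (3, 14, 12, 12), (3, 14, 11, 12), (3, 14, 10, 12),
    (3, 13, 13, 12), (3, 13, 12, 12), (3, 13, 11, 12), (3, 13, 10, 12), (3, 12, 12, 12),
    (3, 12, 11, 12), (3, 12, 10, 12), (3, 11, 11, 12), (3, 11, 10, 12), (3, 11, 9, 12),
    (3, 10, 10, 12), (3, 10, 9, 12), (3, 10, 8, 12), (3, 9, 9, 12), (3, 9, 8, 12),
    (3, 9, 7, 12), (3, 8, 8, 12), (3, 8, 7, 12), (3, 8, 6, 12), (3, 7, 7, 12), (3, 7, 6, 12),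
    (3, 7, 5, 12), (3, 6, 6, 12), (3, 6, 5, 12), (3, 6, 4, 12), (3, 5, 5, 12), (3, 5, 4, 12),
    (3, 5, 3, 12), (3, 5, 2, 12), (3, 4, 4, 12), (3, 4, 3, 12), (3, 4, 2, 12), (3, 4, 1, 12),
    (3, 3, 3, 12), (3, 3, 2, 12), (3, 3, 1, 12), (3, 3, 0, 12), (3, 2, 2, 12), (3, 2, 1, 12),
    (3, 2, 0, 12), (3, 1, 1, 12), (3, 1, 0, 12), (3, 0, 0, 12)]),
  (2, [(2, 14, 14, 12), (2, 14, 13, 12), (2, 13, 13, 11), (2, 6, 6, 4), (2, 5, 5, 3),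
    (2, 5, 4, 3), (2, 4, 4, 2), (2, 4, 3, 2), (2, 4, 2, 2), (2, 3, 3, 1), (2, 3, 2, 1),
    (2, 3, 1, 1), (2, 2, 2, 1), (2, 2, 1, 1), (2, 2, 0, 1), (2, 1, 1, 1), (2, 1, 0, 1),
    (2, 0, 0, 1)]),
  (1, [(1, 2, 2, 1), (1, 2, 1, 1), (1, 1, 1, 1), (1, 1, 0, 1), (1, 0, 0, 1)]),
  (0, [(0, 1, 1, 1), (0, 0, 0, 0)])]

/-- the squares `kf t ^ 2` are larger than `t (M - t) + 1` -/
def kf13_7_14 (t : ℕ) : ℕ := ([2, 3, 4, 4, 4, 3, 2] : List ℕ).getD t 0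

lemma ok13_7_14 : Kern.okF 13 6 = true ∧ Kern.okK 6 kf13_7_14 = true ∧
    Kern.srt (Kern.keyF 15) (Kern.flt gs13_7_14) = true ∧
    Kern.allTab 6 14 14 (Kern.okE 13 6 kf13_7_14)
      (fun a b c => (Kern.lookF (Kern.flt gs13_7_14) a b c).isSome) = true := by
  decide +kernel

/-- a block -/
noncomputable def bk13_7_14 (j p k : ℕ) : Bool :=
  Kern.blk (fun a : ℕ × ℕ × ℕ × ℕ => a.1) (fun a => a.2.1) (fun a => a.2.2.2) (fun _ => 0)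
    (fun _ => 0) (fun _ => 0) 6 14 8 (fun l => (Kern.ldL 13) (Kern.revT l)) 6 gs13_7_14 j p k

lemma b13_7_14_0_0 : bk13_7_14 0 0 80 = true := by decide +kernel

lemma b13_7_14_1_0 : bk13_7_14 1 0 71 = true := by decide +kernel

lemma b13_7_14_2_0 : bk13_7_14 2 0 62 = true := by decide +kernel

lemma b13_7_14_3_0 : bk13_7_14 3 0 23 = true := by decide +kernel

lemma b13_7_14_3_23 : bk13_7_14 3 23 25 = true := by decide +kernel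

lemma b13_7_14_4_0 : bk13_7_14 4 0 18 = true := by decide +kernel

lemma b13_7_14_5_0 : bk13_7_14 5 0 5 = true := by decide +kernel

lemma b13_7_14_6_0 : bk13_7_14 6 0 2 = true := by decide +kernel

lemma c13_7_14_0 : bk13_7_14 0 0 80 = true := b13_7_14_0_0

lemma c13_7_14_1 : bk13_7_14 1 0 71 = true := b13_7_14_1_0

lemma c13_7_14_2 : bk13_7_14 2 0 62 = true := b13_7_14_2_0

lemma c13_7_14_3 : bk13_7_14 3 0 48 = true :=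
  (Kern.blk_join b13_7_14_3_0 b13_7_14_3_23)

lemma c13_7_14_4 : bk13_7_14 4 0 18 = true := b13_7_14_4_0

lemma c13_7_14_5 : bk13_7_14 5 0 5 = true := b13_7_14_5_0

lemma c13_7_14_6 : bk13_7_14 6 0 2 = true := b13_7_14_6_0

lemma e13_7_14 : Kern.EnS (fun a : ℕ × ℕ × ℕ × ℕ => a.1) (fun a => a.2.1) (fun _ => 0) (fun _ => 0)
    6 14 (7 + 1) (fun l => (Kern.ldL 13) (Kern.revT l)) (6 + 1) (Kern.flt gs13_7_14) := by
  refine Kern.EnS.of_blk (b := fun a => a.2.2.2) (bg := fun _ => 0) (by decide +kernel) fun j hj => ?_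
  have hj' : j < 7 := hj
  interval_cases j
  · exact c13_7_14_0
  · exact c13_7_14_1
  · exact c13_7_14_2
  · exact c13_7_14_3
  · exact c13_7_14_4
  · exact c13_7_14_5
  · exact c13_7_14_6

theorem part13_7_14 : PartC ((13 : ℕ) : ℤ) 14 7 (Kern.ldL 13) := by
  obtain ⟨h1, h2, h3, h4⟩ := ok13_7_14
  exact PartC.enumS (N := 15) (by norm_num) (by norm_num) h1 h2 h3 h4 e13_7_14

end FinK

/-- **`R = 13`, `n = 7`, `∑ h ≤ 14`: no items** -/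
theorem noItC13_7_14 : NoItC 13 14 7 :=
  NoItC.of_ld (by norm_num) FinK.part13_7_14

end Pool.Agent.Lib.MP_f04ccf_co
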