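import Pool.Agent.Lib.MP_f04ccf_co.M.FinB14_6t

/-!
MP_f04ccf_co, PLAN W, finite part: `R = 14`, `n = 6` rows, `∑ h ≤ 15` (loads).
Generated (helper11, gen.py, mk4.py): blocks of first rows, part 2 of 3.
-/

set_option autoImplicit false

namespace Pool.Agent.Lib.MP_f04ccf_co

namespace FinK

lemma b14_6_15_5_18 : bk14_6_15 5 18 1 = true := by decide +kernel

lemma b14_6_15_5_19 : bk14_6_15 5 19 1 = true := by decide +kernel

lemma b14_6_15_5_20 : bk14_6_15 5 20 1 = true := by decide +kernel

lemma b14_6_15_5_21 : bk14_6_15 5 21 1 = true := by decide +kernel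

lemma b14_6_15_5_22 : bk14_6_15 5 22 1 = true := by decide +kernel

lemma b14_6_15_5_23 : bk14_6_15 5 23 1 = true := by decide +kernel

lemma b14_6_15_5_24 : bk14_6_15 5 24 1 = true := by decide +kernel

lemma b14_6_15_5_25 : bk14_6_15 5 25 1 = true := by decide +kernel

lemma b14_6_15_5_26 : bk14_6_15 5 26 1 = true := by decide +kernel

lemma b14_6_15_5_27 : bk14_6_15 5 27 1 = true := by decide +kernel

lemma b14_6_15_5_28 : bk14_6_15 5 28 1 = true := by decide +kernel

lemma b14_6_15_5_29 : bk14_6_15 5 29 1 = true := by decide +kernel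

lemma b14_6_15_5_30 : bk14_6_15 5 30 1 = true := by decide +kernel

lemma b14_6_15_5_31 : bk14_6_15 5 31 1 = true := by decide +kernel

lemma b14_6_15_5_32 : bk14_6_15 5 32 1 = true := by decide +kernel

lemma b14_6_15_5_33 : bk14_6_15 5 33 1 = true := by decide +kernel

lemma b14_6_15_5_34 : bk14_6_15 5 34 1 = true := by decide +kernel

lemma b14_6_15_5_35 : bk14_6_15 5 35 1 = true := by decide +kernel

lemma b14_6_15_5_36 : bk14_6_15 5 36 1 = true := by decide +kernel

lemma b14_6_15_5_37 : bk14_6_15 5 37 1 = true := by decide +kernel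

lemma b14_6_15_5_38 : bk14_6_15 5 38 1 = true := by decide +kernel

lemma b14_6_15_5_39 : bk14_6_15 5 39 1 = true := by decide +kernel

lemma b14_6_15_5_40 : bk14_6_15 5 40 1 = true := by decide +kernel

lemma b14_6_15_5_41 : bk14_6_15 5 41 1 = true := by decide +kernel

lemma b14_6_15_5_42 : bk14_6_15 5 42 1 = true := by decide +kernel

lemma b14_6_15_5_43 : bk14_6_15 5 43 1 = true := by decide +kernel

lemma b14_6_15_5_44 : bk14_6_15 5 44 1 = true := by decide +kernel

lemma b14_6_15_5_45 : bk14_6_15 5 45 2 = true := by decide +kernel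

lemma b14_6_15_5_47 : bk14_6_15 5 47 3 = true := by decide +kernel

lemma b14_6_15_5_50 : bk14_6_15 5 50 5 = true := by decide +kernel

lemma b14_6_15_6_0 : bk14_6_15 6 0 3 = true := by decide +kernel

end FinK

end Pool.Agent.Lib.MP_f04ccf_co
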