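import Pool.Agent.Lib.MP_f04ccf_co.M.FinB14_6t

/-!
MP_f04ccf_co, PLAN W, finite part: `R = 14`, `n = 6` rows, `∑ h ≤ 15` (loads).
Generated (helper11, gen.py, mk4.py): blocks of first rows, part 3 of 3.
-/

set_option autoImplicit false

namespace Pool.Agent.Lib.MP_f04ccf_co

namespace FinK

lemma b14_6_15_6_3 : bk14_6_15 6 3 1 = true := by decide +kernel

lemma b14_6_15_6_4 : bk14_6_15 6 4 1 = true := by decide +kernel

lemma b14_6_15_6_5 : bk14_6_15 6 5 1 = true := by decide +kernel

lemma b14_6_15_6_6 : bk14_6_15 6 6 1 = true := by decide +kernel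

lemma b14_6_15_6_7 : bk14_6_15 6 7 1 = true := by decide +kernel

lemma b14_6_15_6_8 : bk14_6_15 6 8 10 = true := by decide +kernel

lemma b14_6_15_7_0 : bk14_6_15 7 0 5 = true := by decide +kernel

lemma b14_6_15_8_0 : bk14_6_15 8 0 2 = true := by decide +kernel

end FinK

end Pool.Agent.Lib.MP_f04ccf_co
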