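import Pool.Agent.Lib.MP_f04ccf_co.M.FinB14_6p1
import Pool.Agent.Lib.MP_f04ccf_co.M.FinB14_6p2
import Pool.Agent.Lib.MP_f04ccf_co.M.FinB14_6p3

/-!
MP_f04ccf_co, PLAN W, finite part: `R = 14`, `n = 6` rows, `∑ h ≤ 15` (loads).
Generated (helper11, gen.py, mk4.py): the parts together.
-/

set_option autoImplicit false

namespace Pool.Agent.Lib.MP_f04ccf_co

namespace FinK

lemma c14_6_15_0 : bk14_6_15 0 0 108 = true := b14_6_15_0_0

lemma c14_6_15_1 : bk14_6_15 1 0 101 = true := b14_6_15_1_0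

lemma c14_6_15_2 : bk14_6_15 2 0 94 = true := by
  have h0 := Kern.blk_join b14_6_15_2_0 b14_6_15_2_31
  have h1 := Kern.blk_join h0 b14_6_15_2_45
  exact h1

lemma c14_6_15_3 : bk14_6_15 3 0 86 = true := by
  have h0 := Kern.blk_join b14_6_15_3_0 b14_6_15_3_22
  have h1 := Kern.blk_join h0 b14_6_15_3_28
  have h2 := Kern.blk_join h1 b14_6_15_3_32
  have h3 := Kern.blk_join h2 b14_6_15_3_36
  have h4 := Kern.blk_join h3 b14_6_15_3_39
  have h5 := Kern.blk_join h4 b14_6_15_3_42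
  have h6 := Kern.blk_join h5 b14_6_15_3_45
  have h7 := Kern.blk_join h6 b14_6_15_3_49
  have h8 := Kern.blk_join h7 b14_6_15_3_53
  have h9 := Kern.blk_join h8 b14_6_15_3_59
  have h10 := Kern.blk_join h9 b14_6_15_3_70
  exact h10

lemma c14_6_15_4 : bk14_6_15 4 0 73 = true := by
  have h0 := Kern.blk_join b14_6_15_4_0 b14_6_15_4_14
  have h1 := Kern.blk_join h0 b14_6_15_4_19
  have h2 := Kern.blk_join h1 b14_6_15_4_22
  have h3 := Kern.blk_join h2 b14_6_15_4_24
  have h4 := Kern.blk_join h3 b14_6_15_4_25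
  have h5 := Kern.blk_join h4 b14_6_15_4_26
  have h6 := Kern.blk_join h5 b14_6_15_4_27
  have h7 := Kern.blk_join h6 b14_6_15_4_28
  have h8 := Kern.blk_join h7 b14_6_15_4_29
  have h9 := Kern.blk_join h8 b14_6_15_4_30
  have h10 := Kern.blk_join h9 b14_6_15_4_31
  have h11 := Kern.blk_join h10 b14_6_15_4_32
  have h12 := Kern.blk_join h11 b14_6_15_4_33
  have h13 := Kern.blk_join h12 b14_6_15_4_34
  have h14 := Kern.blk_join h13 b14_6_15_4_35
  have h15 := Kern.blk_join h14 b14_6_15_4_36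
  have h16 := Kern.blk_join h15 b14_6_15_4_37
  have h17 := Kern.blk_join h16 b14_6_15_4_38
  have h18 := Kern.blk_join h17 b14_6_15_4_39
  have h19 := Kern.blk_join h18 b14_6_15_4_40
  have h20 := Kern.blk_join h19 b14_6_15_4_41
  have h21 := Kern.blk_join h20 b14_6_15_4_42
  have h22 := Kern.blk_join h21 b14_6_15_4_43
  have h23 := Kern.blk_join h22 b14_6_15_4_44
  have h24 := Kern.blk_join h23 b14_6_15_4_45
  have h25 := Kern.blk_join h24 b14_6_15_4_46
  have h26 := Kern.blk_join h25 b14_6_15_4_47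
  have h27 := Kern.blk_join h26 b14_6_15_4_48
  have h28 := Kern.blk_join h27 b14_6_15_4_49
  have h29 := Kern.blk_join h28 b14_6_15_4_50
  have h30 := Kern.blk_join h29 b14_6_15_4_51
  have h31 := Kern.blk_join h30 b14_6_15_4_52
  have h32 := Kern.blk_join h31 b14_6_15_4_53
  have h33 := Kern.blk_join h32 b14_6_15_4_55
  have h34 := Kern.blk_join h33 b14_6_15_4_57
  have h35 := Kern.blk_join h34 b14_6_15_4_59
  have h36 := Kern.blk_join h35 b14_6_15_4_62
  have h37 := Kern.blk_join h36 b14_6_15_4_65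
  have h38 := Kern.blk_join h37 b14_6_15_4_69
  exact h38

lemma c14_6_15_5 : bk14_6_15 5 0 55 = true := by
  have h0 := Kern.blk_join b14_6_15_5_0 b14_6_15_5_12
  have h1 := Kern.blk_join h0 b14_6_15_5_15
  have h2 := Kern.blk_join h1 b14_6_15_5_16
  have h3 := Kern.blk_join h2 b14_6_15_5_17
  have h4 := Kern.blk_join h3 b14_6_15_5_18
  have h5 := Kern.blk_join h4 b14_6_15_5_19
  have h6 := Kern.blk_join h5 b14_6_15_5_20
  have h7 := Kern.blk_join h6 b14_6_15_5_21
  have h8 := Kern.blk_join h7 b14_6_15_5_22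
  have h9 := Kern.blk_join h8 b14_6_15_5_23
  have h10 := Kern.blk_join h9 b14_6_15_5_24
  have h11 := Kern.blk_join h10 b14_6_15_5_25
  have h12 := Kern.blk_join h11 b14_6_15_5_26
  have h13 := Kern.blk_join h12 b14_6_15_5_27
  have h14 := Kern.blk_join h13 b14_6_15_5_28
  have h15 := Kern.blk_join h14 b14_6_15_5_29
  have h16 := Kern.blk_join h15 b14_6_15_5_30
  have h17 := Kern.blk_join h16 b14_6_15_5_31
  have h18 := Kern.blk_join h17 b14_6_15_5_32
  have h19 := Kern.blk_join h18 b14_6_15_5_33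
  have h20 := Kern.blk_join h19 b14_6_15_5_34
  have h21 := Kern.blk_join h20 b14_6_15_5_35
  have h22 := Kern.blk_join h21 b14_6_15_5_36
  have h23 := Kern.blk_join h22 b14_6_15_5_37
  have h24 := Kern.blk_join h23 b14_6_15_5_38
  have h25 := Kern.blk_join h24 b14_6_15_5_39
  have h26 := Kern.blk_join h25 b14_6_15_5_40
  have h27 := Kern.blk_join h26 b14_6_15_5_41
  have h28 := Kern.blk_join h27 b14_6_15_5_42
  have h29 := Kern.blk_join h28 b14_6_15_5_43
  have h30 := Kern.blk_join h29 b14_6_15_5_44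
  have h31 := Kern.blk_join h30 b14_6_15_5_45
  have h32 := Kern.blk_join h31 b14_6_15_5_47
  have h33 := Kern.blk_join h32 b14_6_15_5_50
  exact h33

lemma c14_6_15_6 : bk14_6_15 6 0 18 = true := by
  have h0 := Kern.blk_join b14_6_15_6_0 b14_6_15_6_3
  have h1 := Kern.blk_join h0 b14_6_15_6_4
  have h2 := Kern.blk_join h1 b14_6_15_6_5
  have h3 := Kern.blk_join h2 b14_6_15_6_6
  have h4 := Kern.blk_join h3 b14_6_15_6_7
  have h5 := Kern.blk_join h4 b14_6_15_6_8
  exact h5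

lemma c14_6_15_7 : bk14_6_15 7 0 5 = true := b14_6_15_7_0

lemma c14_6_15_8 : bk14_6_15 8 0 2 = true := b14_6_15_8_0

lemma e14_6_15 : Kern.EnS (fun a : ℕ × ℕ × ℕ × ℕ => a.1) (fun a => a.2.1) (fun _ => 0) (fun _ => 0)
    8 15 (6 + 1) (fun l => (Le.ld4 14 6) (Kern.revT l)) (5 + 1) (Kern.flt gs14_6_15) := by
  refine Kern.EnS.of_blk (b := fun a => a.2.2.2) (bg := fun _ => 0) (by decide +kernel) fun j hj => ?_
  have hj' : j < 9 := hj
  interval_cases j
  · exact c14_6_15_0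
  · exact c14_6_15_1
  · exact c14_6_15_2
  · exact c14_6_15_3
  · exact c14_6_15_4
  · exact c14_6_15_5
  · exact c14_6_15_6
  · exact c14_6_15_7
  · exact c14_6_15_8

theorem part14_6_15 : PartC ((14 : ℕ) : ℤ) 15 6 (Le.ld4 14 6) := by
  obtain ⟨h1, h2, h3, h4⟩ := ok14_6_15
  exact PartC.enumS (N := 16) (by norm_num) (by norm_num) h1 h2 h3 h4 e14_6_15

end FinK

/-- **`R = 14`, `n = 6`, `∑ h ≤ 15`: no items** -/
theorem noItC14_6_15 : NoItC 14 15 6 :=
  NoItC.of_l4 (by norm_num) (by norm_num) FinK.part14_6_15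

end Pool.Agent.Lib.MP_f04ccf_co
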