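import Pool.Agent.Lib.MP_f04ccf_co.M.FinF
import Pool.Agent.Lib.MP_f04ccf_co.M.FinL

/-!
MP_f04ccf_co, PLAN W, finite part: `R = 14`, `n = 9` rows, `∑ h ≤ 15`: there are no items (loads).
Generated (helper11, gen.py, mk3.py): the table of all rows `(t, h, mu, b)` which pass the row filter
`Kern.okE`, `b` a bound for `h - t` on the rest of the table; the enumeration in blocks of first rows
with the leaf `(Kern.ldL 14)`, checked by the kernel.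
-/

set_option autoImplicit false

namespace Pool.Agent.Lib.MP_f04ccf_co

namespace FinK

/-- the table -/
def gs14_9_15 : List (ℕ × List (ℕ × ℕ × ℕ × ℕ)) :=
  [(5, [(5, 15, 15, 11), (5, 15, 14, 11), (5, 15, 13, 11), (5, 15, 12, 11), (5, 14, 14, 11),
    (5, 14, 13, 11), (5, 14, 12, 11), (5, 13, 13, 11), (5, 13, 12, 11), (5, 13, 11, 11),
    (5, 12, 12, 11), (5, 12, 11, 11), (5, 12, 10, 11), (5, 11, 11, 11), (5, 11, 10, 11),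
    (5, 11, 9, 11), (5, 10, 10, 11), (5, 10, 9, 11), (5, 10, 8, 11), (5, 10, 7, 11),
    (5, 9, 9, 11), (5, 9, 8, 11), (5, 9, 7, 11), (5, 9, 6, 11), (5, 8, 8, 11), (5, 8, 7, 11),
    (5, 8, 6, 11), (5, 8, 5, 11), (5, 8, 4, 11), (5, 7, 7, 11), (5, 7, 6, 11), (5, 7, 5, 11),
    (5, 7, 4, 11), (5, 7, 3, 11), (5, 7, 2, 11), (5, 6, 6, 11), (5, 6, 5, 11), (5, 6, 4, 11),
    (5, 6, 3, 11), (5, 6, 2, 11), (5, 6, 1, 11), (5, 5, 5, 11), (5, 5, 4, 11), (5, 5, 3, 11),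
    (5, 5, 2, 11), (5, 5, 1, 11), (5, 5, 0, 11), (5, 4, 4, 11), (5, 4, 3, 11), (5, 4, 2, 11),
    (5, 4, 1, 11), (5, 4, 0, 11), (5, 3, 3, 11), (5, 3, 2, 11), (5, 3, 1, 11), (5, 3, 0, 11),
    (5, 2, 2, 11), (5, 2, 1, 11), (5, 2, 0, 11), (5, 1, 1, 11), (5, 1, 0, 11), (5, 0, 0, 11)]),
  (4, [(4, 15, 15, 11), (4, 15, 14, 11), (4, 15, 13, 11), (4, 14, 14, 10), (4, 14, 13, 10),
    (4, 14, 12, 10), (4, 13, 13, 9), (4, 13, 12, 9), (4, 12, 12, 8), (4, 12, 11, 8),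
    (4, 11, 11, 7), (4, 11, 10, 7), (4, 10, 10, 6), (4, 10, 9, 6), (4, 9, 9, 5),
    (4, 9, 8, 5), (4, 9, 7, 5), (4, 8, 8, 4), (4, 8, 7, 4), (4, 8, 6, 4), (4, 7, 7, 4),
    (4, 7, 6, 4), (4, 7, 5, 4), (4, 7, 4, 4), (4, 6, 6, 4), (4, 6, 5, 4), (4, 6, 4, 4),
    (4, 6, 3, 4), (4, 6, 2, 4), (4, 5, 5, 4), (4, 5, 4, 4), (4, 5, 3, 4), (4, 5, 2, 4),
    (4, 5, 1, 4), (4, 4, 4, 4), (4, 4, 3, 4), (4, 4, 2, 4), (4, 4, 1, 4), (4, 4, 0, 4),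
    (4, 3, 3, 4), (4, 3, 2, 4), (4, 3, 1, 4), (4, 3, 0, 4), (4, 2, 2, 4), (4, 2, 1, 4),
    (4, 2, 0, 4), (4, 1, 1, 4), (4, 1, 0, 4), (4, 0, 0, 4)]),
  (3, [(3, 7, 7, 4), (3, 6, 6, 3), (3, 6, 5, 3), (3, 5, 5, 2), (3, 5, 4, 2), (3, 5, 3, 2),
    (3, 4, 4, 2), (3, 4, 3, 2), (3, 4, 2, 2), (3, 4, 1, 2), (3, 3, 3, 2), (3, 3, 2, 2),
    (3, 3, 1, 2), (3, 3, 0, 2), (3, 2, 2, 2), (3, 2, 1, 2), (3, 2, 0, 2), (3, 1, 1, 2),
    (3, 1, 0, 2), (3, 0, 0, 2)]),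
  (2, [(2, 4, 4, 2), (2, 4, 3, 2), (2, 3, 3, 1), (2, 3, 2, 1), (2, 3, 1, 1), (2, 2, 2, 1),
    (2, 2, 1, 1), (2, 2, 0, 1), (2, 1, 1, 1), (2, 1, 0, 1), (2, 0, 0, 1)]),
  (1, [(1, 2, 2, 1), (1, 2, 1, 1), (1, 1, 1, 1), (1, 1, 0, 1), (1, 0, 0, 1)]),
  (0, [(0, 1, 1, 1), (0, 0, 0, 0)])]

/-- the squares `kf t ^ 2` are larger than `t (M - t) + 1` -/
def kf14_9_15 (t : ℕ) : ℕ := ([2, 3, 3, 3, 3, 2] : List ℕ).getD t 0

lemma ok14_9_15 : Kern.okF 14 5 = true ∧ Kern.okK 5 kf14_9_15 = true ∧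
    Kern.srt (Kern.keyF 16) (Kern.flt gs14_9_15) = true ∧
    Kern.allTab 5 15 15 (Kern.okE 14 5 kf14_9_15)
      (fun a b c => (Kern.lookF (Kern.flt gs14_9_15) a b c).isSome) = true := by
  decide +kernel

/-- a block -/
noncomputable def bk14_9_15 (j p k : ℕ) : Bool :=
  Kern.blk (fun a : ℕ × ℕ × ℕ × ℕ => a.1) (fun a => a.2.1) (fun a => a.2.2.2) (fun _ => 0)
    (fun _ => 0) (fun _ => 0) 5 15 10 (fun l => (Kern.ldL 14) (Kern.revT l)) 8 gs14_9_15 j p k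

lemma b14_9_15_0_0 : bk14_9_15 0 0 62 = true := by decide +kernel

lemma b14_9_15_1_0 : bk14_9_15 1 0 49 = true := by decide +kernel

lemma b14_9_15_2_0 : bk14_9_15 2 0 20 = true := by decide +kernel

lemma b14_9_15_3_0 : bk14_9_15 3 0 11 = true := by decide +kernel

lemma b14_9_15_4_0 : bk14_9_15 4 0 5 = true := by decide +kernel

lemma b14_9_15_5_0 : bk14_9_15 5 0 2 = true := by decide +kernel

lemma c14_9_15_0 : bk14_9_15 0 0 62 = true := b14_9_15_0_0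

lemma c14_9_15_1 : bk14_9_15 1 0 49 = true := b14_9_15_1_0

lemma c14_9_15_2 : bk14_9_15 2 0 20 = true := b14_9_15_2_0

lemma c14_9_15_3 : bk14_9_15 3 0 11 = true := b14_9_15_3_0

lemma c14_9_15_4 : bk14_9_15 4 0 5 = true := b14_9_15_4_0

lemma c14_9_15_5 : bk14_9_15 5 0 2 = true := b14_9_15_5_0

lemma e14_9_15 : Kern.EnS (fun a : ℕ × ℕ × ℕ × ℕ => a.1) (fun a => a.2.1) (fun _ => 0) (fun _ => 0)
    5 15 (9 + 1) (fun l => (Kern.ldL 14) (Kern.revT l)) (8 + 1) (Kern.flt gs14_9_15) := by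
  refine Kern.EnS.of_blk (b := fun a => a.2.2.2) (bg := fun _ => 0) (by decide +kernel) fun j hj => ?_
  have hj' : j < 6 := hj
  interval_cases j
  · exact c14_9_15_0
  · exact c14_9_15_1
  · exact c14_9_15_2
  · exact c14_9_15_3
  · exact c14_9_15_4
  · exact c14_9_15_5

theorem part14_9_15 : PartC ((14 : ℕ) : ℤ) 15 9 (Kern.ldL 14) := by
  obtain ⟨h1, h2, h3, h4⟩ := ok14_9_15
  exact PartC.enumS (N := 16) (by norm_num) (by norm_num) h1 h2 h3 h4 e14_9_15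

end FinK

/-- **`R = 14`, `n = 9`, `∑ h ≤ 15`: no items** -/
theorem noItC14_9_15 : NoItC 14 15 9 :=
  NoItC.of_ld (by norm_num) FinK.part14_9_15

end Pool.Agent.Lib.MP_f04ccf_co
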