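import Pool.Agent.Lib.MP_f04ccf_co.M.FinQ

/-!
MP_f04ccf_co, PLAN W, finite part: `R = 15`, `n = 10` rows, `∑ h ≤ 16` (loads, second form).
Generated (gen.py, mk4.py): the table of all rows `(t, h, mu, b)` which pass the row filter `Kern.okE`,
`b` a bound for `h - t` on the rest of the table; the enumeration in blocks of first rows with the leaf
`(Le.ld4 15 10)`, checked by the kernel.
-/

set_option autoImplicit false

namespace Pool.Agent.Lib.MP_f04ccf_co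

namespace FinK

/-- the table -/
def gs15_10_16 : List (ℕ × List (ℕ × ℕ × ℕ × ℕ)) :=
  [(5, [(5, 16, 16, 12), (5, 16, 15, 12), (5, 15, 15, 12), (5, 12, 12, 12), (5, 11, 11, 12),
    (5, 11, 10, 12), (5, 10, 10, 12), (5, 10, 9, 12), (5, 10, 8, 12), (5, 9, 9, 12),
    (5, 9, 8, 12), (5, 9, 7, 12), (5, 9, 6, 12), (5, 8, 8, 12), (5, 8, 7, 12), (5, 8, 6, 12),
    (5, 8, 5, 12), (5, 8, 4, 12), (5, 7, 7, 12), (5, 7, 6, 12), (5, 7, 5, 12), (5, 7, 4, 12),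
    (5, 7, 3, 12), (5, 7, 2, 12), (5, 6, 6, 12), (5, 6, 5, 12), (5, 6, 4, 12), (5, 6, 3, 12),
    (5, 6, 2, 12), (5, 6, 1, 12), (5, 5, 5, 12), (5, 5, 4, 12), (5, 5, 3, 12), (5, 5, 2, 12),
    (5, 5, 1, 12), (5, 5, 0, 12), (5, 4, 4, 12), (5, 4, 3, 12), (5, 4, 2, 12), (5, 4, 1, 12),
    (5, 4, 0, 12), (5, 3, 3, 12), (5, 3, 2, 12), (5, 3, 1, 12), (5, 3, 0, 12), (5, 2, 2, 12),
    (5, 2, 1, 12), (5, 2, 0, 12), (5, 1, 1, 12), (5, 1, 0, 12), (5, 0, 0, 12)]),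
  (4, [(4, 16, 16, 12), (4, 16, 15, 12), (4, 15, 15, 11), (4, 10, 10, 6), (4, 9, 9, 5),
    (4, 9, 8, 5), (4, 8, 8, 4), (4, 8, 7, 4), (4, 8, 6, 4), (4, 7, 7, 3), (4, 7, 6, 3),
    (4, 7, 5, 3), (4, 7, 4, 3), (4, 6, 6, 3), (4, 6, 5, 3), (4, 6, 4, 3), (4, 6, 3, 3),
    (4, 6, 2, 3), (4, 5, 5, 3), (4, 5, 4, 3), (4, 5, 3, 3), (4, 5, 2, 3), (4, 5, 1, 3),
    (4, 4, 4, 3), (4, 4, 3, 3), (4, 4, 2, 3), (4, 4, 1, 3), (4, 4, 0, 3), (4, 3, 3, 3),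
    (4, 3, 2, 3), (4, 3, 1, 3), (4, 3, 0, 3), (4, 2, 2, 3), (4, 2, 1, 3), (4, 2, 0, 3),
    (4, 1, 1, 3), (4, 1, 0, 3), (4, 0, 0, 3)]),
  (3, [(3, 6, 6, 3), (3, 6, 5, 3), (3, 5, 5, 2), (3, 5, 4, 2), (3, 5, 3, 2), (3, 4, 4, 2),
    (3, 4, 3, 2), (3, 4, 2, 2), (3, 4, 1, 2), (3, 3, 3, 2), (3, 3, 2, 2), (3, 3, 1, 2),
    (3, 3, 0, 2), (3, 2, 2, 2), (3, 2, 1, 2), (3, 2, 0, 2), (3, 1, 1, 2), (3, 1, 0, 2),
    (3, 0, 0, 2)]),
  (2, [(2, 4, 4, 2), (2, 4, 3, 2), (2, 3, 3, 1), (2, 3, 2, 1), (2, 3, 1, 1), (2, 2, 2, 1),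
    (2, 2, 1, 1), (2, 2, 0, 1), (2, 1, 1, 1), (2, 1, 0, 1), (2, 0, 0, 1)]),
  (1, [(1, 2, 2, 1), (1, 2, 1, 1), (1, 1, 1, 1), (1, 1, 0, 1), (1, 0, 0, 1)]),
  (0, [(0, 1, 1, 1), (0, 0, 0, 0)])]

/-- the squares `kf t ^ 2` are larger than `t (M - t) + 1` -/
def kf15_10_16 (t : ℕ) : ℕ := ([2, 3, 3, 3, 3, 2] : List ℕ).getD t 0

lemma ok15_10_16 : Kern.okF 15 5 = true ∧ Kern.okK 5 kf15_10_16 = true ∧
    Kern.srt (Kern.keyF 17) (Kern.flt gs15_10_16) = true ∧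
    Kern.allTab 5 16 16 (Kern.okE 15 5 kf15_10_16)
      (fun a b c => (Kern.lookF (Kern.flt gs15_10_16) a b c).isSome) = true := by
  decide +kernel

/-- a block -/
noncomputable def bk15_10_16 (j p k : ℕ) : Bool :=
  Kern.blk (fun a : ℕ × ℕ × ℕ × ℕ => a.1) (fun a => a.2.1) (fun a => a.2.2.2) (fun _ => 0)
    (fun _ => 0) (fun _ => 0) 5 16 11 (fun l => (Le.ld4 15 10) (Kern.revT l)) 9 gs15_10_16 j p k

lemma b15_10_16_0_0 : bk15_10_16 0 0 51 = true := by decide +kernel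

lemma b15_10_16_1_0 : bk15_10_16 1 0 38 = true := by decide +kernel

lemma b15_10_16_2_0 : bk15_10_16 2 0 19 = true := by decide +kernel

lemma b15_10_16_3_0 : bk15_10_16 3 0 11 = true := by decide +kernel

lemma b15_10_16_4_0 : bk15_10_16 4 0 5 = true := by decide +kernel

lemma b15_10_16_5_0 : bk15_10_16 5 0 2 = true := by decide +kernel

lemma c15_10_16_0 : bk15_10_16 0 0 51 = true := b15_10_16_0_0

lemma c15_10_16_1 : bk15_10_16 1 0 38 = true := b15_10_16_1_0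

lemma c15_10_16_2 : bk15_10_16 2 0 19 = true := b15_10_16_2_0

lemma c15_10_16_3 : bk15_10_16 3 0 11 = true := b15_10_16_3_0

lemma c15_10_16_4 : bk15_10_16 4 0 5 = true := b15_10_16_4_0

lemma c15_10_16_5 : bk15_10_16 5 0 2 = true := b15_10_16_5_0

lemma e15_10_16 : Kern.EnS (fun a : ℕ × ℕ × ℕ × ℕ => a.1) (fun a => a.2.1) (fun _ => 0) (fun _ => 0)
    5 16 (10 + 1) (fun l => (Le.ld4 15 10) (Kern.revT l)) (9 + 1) (Kern.flt gs15_10_16) := by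
  refine Kern.EnS.of_blk (b := fun a => a.2.2.2) (bg := fun _ => 0) (by decide +kernel) fun j hj => ?_
  have hj' : j < 6 := hj
  interval_cases j
  · exact c15_10_16_0
  · exact c15_10_16_1
  · exact c15_10_16_2
  · exact c15_10_16_3
  · exact c15_10_16_4
  · exact c15_10_16_5

theorem part15_10_16 : PartC ((15 : ℕ) : ℤ) 16 10 (Le.ld4 15 10) := by
  obtain ⟨h1, h2, h3, h4⟩ := ok15_10_16
  exact PartC.enumS (N := 17) (by norm_num) (by norm_num) h1 h2 h3 h4 e15_10_16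

end FinK

/-- **`R = 15`, `n = 10`, `∑ h ≤ 16`: no items** -/
theorem noItC15_10_16 : NoItC 15 16 10 :=
  NoItC.of_l4 (by norm_num) (by norm_num) FinK.part15_10_16

end Pool.Agent.Lib.MP_f04ccf_co
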