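import Pool.Agent.Lib.MP_f04ccf_co.M.FinB15_6t

/-!
MP_f04ccf_co, PLAN W, finite part: `R = 15`, `n = 6` rows, `∑ h ≤ 16` (loads, second form).
Generated (gen.py, mk4.py): blocks of first rows, part 3 of 7.
-/

set_option autoImplicit false

namespace Pool.Agent.Lib.MP_f04ccf_co

namespace FinK

lemma b15_6_16_5_36 : bk15_6_16 5 36 1 = true := by decide +kernel

lemma b15_6_16_5_37 : bk15_6_16 5 37 1 = true := by decide +kernel

lemma b15_6_16_5_38 : bk15_6_16 5 38 1 = true := by decide +kernel

lemma b15_6_16_5_39 : bk15_6_16 5 39 1 = true := by decide +kernel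

lemma b15_6_16_5_40 : bk15_6_16 5 40 1 = true := by decide +kernel

lemma b15_6_16_5_41 : bk15_6_16 5 41 2 = true := by decide +kernel

lemma b15_6_16_5_43 : bk15_6_16 5 43 2 = true := by decide +kernel

lemma b15_6_16_5_45 : bk15_6_16 5 45 2 = true := by decide +kernel

lemma b15_6_16_5_47 : bk15_6_16 5 47 2 = true := by decide +kernel

lemma b15_6_16_5_49 : bk15_6_16 5 49 2 = true := by decide +kernel

lemma b15_6_16_5_51 : bk15_6_16 5 51 3 = true := by decide +kernel

end FinK

end Pool.Agent.Lib.MP_f04ccf_co
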