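import Pool.Agent.Lib.MP_f04ccf_co.M.FinB15_6t

/-!
MP_f04ccf_co, PLAN W, finite part: `R = 15`, `n = 6` rows, `∑ h ≤ 16` (loads, second form).
Generated (gen.py, mk4.py): blocks of first rows, part 5 of 7.
-/

set_option autoImplicit false

namespace Pool.Agent.Lib.MP_f04ccf_co

namespace FinK

lemma b15_6_16_6_23 : bk15_6_16 6 23 1 = true := by decide +kernel

lemma b15_6_16_6_24 : bk15_6_16 6 24 1 = true := by decide +kernel

lemma b15_6_16_6_25 : bk15_6_16 6 25 1 = true := by decide +kernel

lemma b15_6_16_6_26 : bk15_6_16 6 26 1 = true := by decide +kernel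

lemma b15_6_16_6_27 : bk15_6_16 6 27 1 = true := by decide +kernel

lemma b15_6_16_6_28 : bk15_6_16 6 28 1 = true := by decide +kernel

lemma b15_6_16_6_29 : bk15_6_16 6 29 1 = true := by decide +kernel

end FinK

end Pool.Agent.Lib.MP_f04ccf_co
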