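import Pool.Agent.Lib.MP_f04ccf_co.M.FinB15_6t

/-!
MP_f04ccf_co, PLAN W, finite part: `R = 15`, `n = 6` rows, `∑ h ≤ 16` (loads, second form).
Generated (gen.py, mk4.py): blocks of first rows, part 6 of 7.
-/

set_option autoImplicit false

namespace Pool.Agent.Lib.MP_f04ccf_co

namespace FinK

lemma b15_6_16_6_30 : bk15_6_16 6 30 1 = true := by decide +kernel

lemma b15_6_16_6_31 : bk15_6_16 6 31 1 = true := by decide +kernel

lemma b15_6_16_6_32 : bk15_6_16 6 32 1 = true := by decide +kernel

lemma b15_6_16_6_33 : bk15_6_16 6 33 1 = true := by decide +kernel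

lemma b15_6_16_6_34 : bk15_6_16 6 34 1 = true := by decide +kernel

lemma b15_6_16_6_35 : bk15_6_16 6 35 1 = true := by decide +kernel

lemma b15_6_16_6_36 : bk15_6_16 6 36 2 = true := by decide +kernel

lemma b15_6_16_6_38 : bk15_6_16 6 38 4 = true := by decide +kernel

lemma b15_6_16_6_42 : bk15_6_16 6 42 9 = true := by decide +kernel

lemma b15_6_16_7_0 : bk15_6_16 7 0 1 = true := by decide +kernel

end FinK

end Pool.Agent.Lib.MP_f04ccf_co
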