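import Pool.Agent.Lib.MP_f04ccf_co.M.FinB15_6t

/-!
MP_f04ccf_co, PLAN W, finite part: `R = 15`, `n = 6` rows, `∑ h ≤ 16` (loads, second form).
Generated (gen.py, mk4.py): blocks of first rows, part 7 of 7.
-/

set_option autoImplicit false

namespace Pool.Agent.Lib.MP_f04ccf_co

namespace FinK

lemma b15_6_16_7_1 : bk15_6_16 7 1 7 = true := by decide +kernel

lemma b15_6_16_7_8 : bk15_6_16 7 8 4 = true := by decide +kernel

lemma b15_6_16_8_0 : bk15_6_16 8 0 6 = true := by decide +kernel

lemma b15_6_16_9_0 : bk15_6_16 9 0 2 = true := by decide +kernel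

end FinK

end Pool.Agent.Lib.MP_f04ccf_co
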