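import Pool.Agent.Lib.MP_f04ccf_co.M.FinB15_6p1
import Pool.Agent.Lib.MP_f04ccf_co.M.FinB15_6p2
import Pool.Agent.Lib.MP_f04ccf_co.M.FinB15_6p3
import Pool.Agent.Lib.MP_f04ccf_co.M.FinB15_6p4
import Pool.Agent.Lib.MP_f04ccf_co.M.FinB15_6p5
import Pool.Agent.Lib.MP_f04ccf_co.M.FinB15_6p6
import Pool.Agent.Lib.MP_f04ccf_co.M.FinB15_6p7

/-!
MP_f04ccf_co, PLAN W, finite part: `R = 15`, `n = 6` rows, `∑ h ≤ 16` (loads, second form).
Generated (gen.py, mk4.py): the parts together.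
-/

set_option autoImplicit false

namespace Pool.Agent.Lib.MP_f04ccf_co

namespace FinK

lemma c15_6_16_0 : bk15_6_16 0 0 125 = true := b15_6_16_0_0

lemma c15_6_16_1 : bk15_6_16 1 0 120 = true := b15_6_16_1_0

lemma c15_6_16_2 : bk15_6_16 2 0 111 = true := b15_6_16_2_0

lemma c15_6_16_3 : bk15_6_16 3 0 103 = true := by
  have h0 := Kern.blk_join b15_6_16_3_0 b15_6_16_3_46
  have h1 := Kern.blk_join h0 b15_6_16_3_73
  exact h1

lemma c15_6_16_4 : bk15_6_16 4 0 90 = true := by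
  have h0 := Kern.blk_join b15_6_16_4_0 b15_6_16_4_30
  have h1 := Kern.blk_join h0 b15_6_16_4_38
  have h2 := Kern.blk_join h1 b15_6_16_4_44
  have h3 := Kern.blk_join h2 b15_6_16_4_49
  have h4 := Kern.blk_join h3 b15_6_16_4_55
  have h5 := Kern.blk_join h4 b15_6_16_4_62
  have h6 := Kern.blk_join h5 b15_6_16_4_76
  exact h6

lemma c15_6_16_5 : bk15_6_16 5 0 72 = true := by
  have h0 := Kern.blk_join b15_6_16_5_0 b15_6_16_5_22
  have h1 := Kern.blk_join h0 b15_6_16_5_26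
  have h2 := Kern.blk_join h1 b15_6_16_5_29
  have h3 := Kern.blk_join h2 b15_6_16_5_31
  have h4 := Kern.blk_join h3 b15_6_16_5_33
  have h5 := Kern.blk_join h4 b15_6_16_5_35
  have h6 := Kern.blk_join h5 b15_6_16_5_36
  have h7 := Kern.blk_join h6 b15_6_16_5_37
  have h8 := Kern.blk_join h7 b15_6_16_5_38
  have h9 := Kern.blk_join h8 b15_6_16_5_39
  have h10 := Kern.blk_join h9 b15_6_16_5_40
  have h11 := Kern.blk_join h10 b15_6_16_5_41
  have h12 := Kern.blk_join h11 b15_6_16_5_43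
  have h13 := Kern.blk_join h12 b15_6_16_5_45
  have h14 := Kern.blk_join h13 b15_6_16_5_47
  have h15 := Kern.blk_join h14 b15_6_16_5_49
  have h16 := Kern.blk_join h15 b15_6_16_5_51
  have h17 := Kern.blk_join h16 b15_6_16_5_54
  have h18 := Kern.blk_join h17 b15_6_16_5_58
  have h19 := Kern.blk_join h18 b15_6_16_5_63
  have h20 := Kern.blk_join h19 b15_6_16_5_69
  exact h20

lemma c15_6_16_6 : bk15_6_16 6 0 51 = true := by
  have h0 := Kern.blk_join b15_6_16_6_0 b15_6_16_6_16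
  have h1 := Kern.blk_join h0 b15_6_16_6_18
  have h2 := Kern.blk_join h1 b15_6_16_6_20
  have h3 := Kern.blk_join h2 b15_6_16_6_21
  have h4 := Kern.blk_join h3 b15_6_16_6_22
  have h5 := Kern.blk_join h4 b15_6_16_6_23
  have h6 := Kern.blk_join h5 b15_6_16_6_24
  have h7 := Kern.blk_join h6 b15_6_16_6_25
  have h8 := Kern.blk_join h7 b15_6_16_6_26
  have h9 := Kern.blk_join h8 b15_6_16_6_27
  have h10 := Kern.blk_join h9 b15_6_16_6_28
  have h11 := Kern.blk_join h10 b15_6_16_6_29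
  have h12 := Kern.blk_join h11 b15_6_16_6_30
  have h13 := Kern.blk_join h12 b15_6_16_6_31
  have h14 := Kern.blk_join h13 b15_6_16_6_32
  have h15 := Kern.blk_join h14 b15_6_16_6_33
  have h16 := Kern.blk_join h15 b15_6_16_6_34
  have h17 := Kern.blk_join h16 b15_6_16_6_35
  have h18 := Kern.blk_join h17 b15_6_16_6_36
  have h19 := Kern.blk_join h18 b15_6_16_6_38
  have h20 := Kern.blk_join h19 b15_6_16_6_42
  exact h20

lemma c15_6_16_7 : bk15_6_16 7 0 12 = true := by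
  have h0 := Kern.blk_join b15_6_16_7_0 b15_6_16_7_1
  have h1 := Kern.blk_join h0 b15_6_16_7_8
  exact h1

lemma c15_6_16_8 : bk15_6_16 8 0 6 = true := b15_6_16_8_0

lemma c15_6_16_9 : bk15_6_16 9 0 2 = true := b15_6_16_9_0

lemma e15_6_16 : Kern.EnS (fun a : ℕ × ℕ × ℕ × ℕ => a.1) (fun a => a.2.1) (fun _ => 0) (fun _ => 0)
    9 16 (6 + 1) (fun l => (Le.ld4 15 6) (Kern.revT l)) (5 + 1) (Kern.flt gs15_6_16) := by
  refine Kern.EnS.of_blk (b := fun a => a.2.2.2) (bg := fun _ => 0) (by decide +kernel) fun j hj => ?_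
  have hj' : j < 10 := hj
  interval_cases j
  · exact c15_6_16_0
  · exact c15_6_16_1
  · exact c15_6_16_2
  · exact c15_6_16_3
  · exact c15_6_16_4
  · exact c15_6_16_5
  · exact c15_6_16_6
  · exact c15_6_16_7
  · exact c15_6_16_8
  · exact c15_6_16_9

theorem part15_6_16 : PartC ((15 : ℕ) : ℤ) 16 6 (Le.ld4 15 6) := by
  obtain ⟨h1, h2, h3, h4⟩ := ok15_6_16
  exact PartC.enumS (N := 17) (by norm_num) (by norm_num) h1 h2 h3 h4 e15_6_16

end FinK

/-- **`R = 15`, `n = 6`, `∑ h ≤ 16`: no items** -/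
theorem noItC15_6_16 : NoItC 15 16 6 :=
  NoItC.of_l4 (by norm_num) (by norm_num) FinK.part15_6_16

end Pool.Agent.Lib.MP_f04ccf_co
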