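import Pool.Agent.Lib.MP_f04ccf_co.M.FinB15_7t

/-!
MP_f04ccf_co, PLAN W, finite part: `R = 15`, `n = 7` rows, `∑ h ≤ 16` (loads, second form).
Generated (gen.py, mk4.py): blocks of first rows, part 2 of 3.
-/

set_option autoImplicit false

namespace Pool.Agent.Lib.MP_f04ccf_co

namespace FinK

lemma b15_7_16_4_43 : bk15_7_16 4 43 8 = true := by decide +kernel

lemma b15_7_16_4_51 : bk15_7_16 4 51 20 = true := by decide +kernel

lemma b15_7_16_4_71 : bk15_7_16 4 71 1 = true := by decide +kernel

lemma b15_7_16_5_0 : bk15_7_16 5 0 17 = true := by decide +kernel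

lemma b15_7_16_5_17 : bk15_7_16 5 17 3 = true := by decide +kernel

lemma b15_7_16_5_20 : bk15_7_16 5 20 2 = true := by decide +kernel

lemma b15_7_16_5_22 : bk15_7_16 5 22 1 = true := by decide +kernel

lemma b15_7_16_5_23 : bk15_7_16 5 23 1 = true := by decide +kernel

lemma b15_7_16_5_24 : bk15_7_16 5 24 1 = true := by decide +kernel

lemma b15_7_16_5_25 : bk15_7_16 5 25 1 = true := by decide +kernel

lemma b15_7_16_5_26 : bk15_7_16 5 26 1 = true := by decide +kernel

end FinK

end Pool.Agent.Lib.MP_f04ccf_co
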