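import Pool.Agent.Lib.MP_f04ccf_co.M.FinB15_7t

/-!
MP_f04ccf_co, PLAN W, finite part: `R = 15`, `n = 7` rows, `∑ h ≤ 16` (loads, second form).
Generated (gen.py, mk4.py): blocks of first rows, part 3 of 3.
-/

set_option autoImplicit false

namespace Pool.Agent.Lib.MP_f04ccf_co

namespace FinK

lemma b15_7_16_5_27 : bk15_7_16 5 27 1 = true := by decide +kernel

lemma b15_7_16_5_28 : bk15_7_16 5 28 1 = true := by decide +kernel

lemma b15_7_16_5_29 : bk15_7_16 5 29 2 = true := by decide +kernel

lemma b15_7_16_5_31 : bk15_7_16 5 31 3 = true := by decide +kernel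

lemma b15_7_16_5_34 : bk15_7_16 5 34 17 = true := by decide +kernel

lemma b15_7_16_6_0 : bk15_7_16 6 0 12 = true := by decide +kernel

lemma b15_7_16_7_0 : bk15_7_16 7 0 5 = true := by decide +kernel

lemma b15_7_16_8_0 : bk15_7_16 8 0 2 = true := by decide +kernel

end FinK

end Pool.Agent.Lib.MP_f04ccf_co
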