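import Pool.Agent.Lib.MP_f04ccf_co.M.FinB15_7p1
import Pool.Agent.Lib.MP_f04ccf_co.M.FinB15_7p2
import Pool.Agent.Lib.MP_f04ccf_co.M.FinB15_7p3

/-!
MP_f04ccf_co, PLAN W, finite part: `R = 15`, `n = 7` rows, `∑ h ≤ 16` (loads, second form).
Generated (gen.py, mk4.py): the parts together.
-/

set_option autoImplicit false

namespace Pool.Agent.Lib.MP_f04ccf_co

namespace FinK

lemma c15_7_16_0 : bk15_7_16 0 0 117 = true := b15_7_16_0_0

lemma c15_7_16_1 : bk15_7_16 1 0 108 = true := b15_7_16_1_0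

lemma c15_7_16_2 : bk15_7_16 2 0 100 = true := b15_7_16_2_0

lemma c15_7_16_3 : bk15_7_16 3 0 90 = true := by
  have h0 := Kern.blk_join b15_7_16_3_0 b15_7_16_3_38
  have h1 := Kern.blk_join h0 b15_7_16_3_57
  exact h1

lemma c15_7_16_4 : bk15_7_16 4 0 72 = true := by
  have h0 := Kern.blk_join b15_7_16_4_0 b15_7_16_4_25
  have h1 := Kern.blk_join h0 b15_7_16_4_30
  have h2 := Kern.blk_join h1 b15_7_16_4_34
  have h3 := Kern.blk_join h2 b15_7_16_4_38
  have h4 := Kern.blk_join h3 b15_7_16_4_43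
  have h5 := Kern.blk_join h4 b15_7_16_4_51
  have h6 := Kern.blk_join h5 b15_7_16_4_71
  exact h6

lemma c15_7_16_5 : bk15_7_16 5 0 51 = true := by
  have h0 := Kern.blk_join b15_7_16_5_0 b15_7_16_5_17
  have h1 := Kern.blk_join h0 b15_7_16_5_20
  have h2 := Kern.blk_join h1 b15_7_16_5_22
  have h3 := Kern.blk_join h2 b15_7_16_5_23
  have h4 := Kern.blk_join h3 b15_7_16_5_24
  have h5 := Kern.blk_join h4 b15_7_16_5_25
  have h6 := Kern.blk_join h5 b15_7_16_5_26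
  have h7 := Kern.blk_join h6 b15_7_16_5_27
  have h8 := Kern.blk_join h7 b15_7_16_5_28
  have h9 := Kern.blk_join h8 b15_7_16_5_29
  have h10 := Kern.blk_join h9 b15_7_16_5_31
  have h11 := Kern.blk_join h10 b15_7_16_5_34
  exact h11

lemma c15_7_16_6 : bk15_7_16 6 0 12 = true := b15_7_16_6_0

lemma c15_7_16_7 : bk15_7_16 7 0 5 = true := b15_7_16_7_0

lemma c15_7_16_8 : bk15_7_16 8 0 2 = true := b15_7_16_8_0

lemma e15_7_16 : Kern.EnS (fun a : ℕ × ℕ × ℕ × ℕ => a.1) (fun a => a.2.1) (fun _ => 0) (fun _ => 0)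
    8 16 (7 + 1) (fun l => (Le.ld4 15 7) (Kern.revT l)) (6 + 1) (Kern.flt gs15_7_16) := by
  refine Kern.EnS.of_blk (b := fun a => a.2.2.2) (bg := fun _ => 0) (by decide +kernel) fun j hj => ?_
  have hj' : j < 9 := hj
  interval_cases j
  · exact c15_7_16_0
  · exact c15_7_16_1
  · exact c15_7_16_2
  · exact c15_7_16_3
  · exact c15_7_16_4
  · exact c15_7_16_5
  · exact c15_7_16_6
  · exact c15_7_16_7
  · exact c15_7_16_8

theorem part15_7_16 : PartC ((15 : ℕ) : ℤ) 16 7 (Le.ld4 15 7) := by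
  obtain ⟨h1, h2, h3, h4⟩ := ok15_7_16
  exact PartC.enumS (N := 17) (by norm_num) (by norm_num) h1 h2 h3 h4 e15_7_16

end FinK

/-- **`R = 15`, `n = 7`, `∑ h ≤ 16`: no items** -/
theorem noItC15_7_16 : NoItC 15 16 7 :=
  NoItC.of_l4 (by norm_num) (by norm_num) FinK.part15_7_16

end Pool.Agent.Lib.MP_f04ccf_co
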