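import Pool.Agent.Lib.MP_f04ccf_co.M.FinQ

/-!
MP_f04ccf_co, PLAN W, finite part: `R = 15`, `n = 9` rows, `∑ h ≤ 16` (loads, second form).
Generated (gen.py, mk4.py): the table of all rows `(t, h, mu, b)` which pass the row filter `Kern.okE`,
`b` a bound for `h - t` on the rest of the table; the enumeration in blocks of first rows with the leaf
`(Le.ld4 15 9)`, checked by the kernel.
-/

set_option autoImplicit false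

namespace Pool.Agent.Lib.MP_f04ccf_co

namespace FinK

/-- the table -/
def gs15_9_16 : List (ℕ × List (ℕ × ℕ × ℕ × ℕ)) :=
  [(6, [(6, 16, 16, 13), (6, 16, 15, 13), (6, 16, 14, 13), (6, 16, 13, 13), (6, 16, 12, 13),
    (6, 15, 15, 13), (6, 15, 14, 13), (6, 15, 13, 13), (6, 15, 12, 13), (6, 15, 11, 13),
    (6, 14, 14, 13), (6, 14, 13, 13), (6, 14, 12, 13), (6, 14, 11, 13), (6, 14, 10, 13),
    (6, 13, 13, 13), (6, 13, 12, 13), (6, 13, 11, 13), (6, 13, 10, 13), (6, 13, 9, 13),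
    (6, 12, 12, 13), (6, 12, 11, 13), (6, 12, 10, 13), (6, 12, 9, 13), (6, 12, 8, 13),
    (6, 11, 11, 13), (6, 11, 10, 13), (6, 11, 9, 13), (6, 11, 8, 13), (6, 11, 7, 13),
    (6, 10, 10, 13), (6, 10, 9, 13), (6, 10, 8, 13), (6, 10, 7, 13), (6, 10, 6, 13),
    (6, 10, 5, 13), (6, 9, 9, 13), (6, 9, 8, 13), (6, 9, 7, 13), (6, 9, 6, 13),
    (6, 9, 5, 13), (6, 9, 4, 13), (6, 8, 8, 13), (6, 8, 7, 13), (6, 8, 6, 13), (6, 8, 5, 13),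
    (6, 8, 4, 13), (6, 8, 3, 13), (6, 8, 2, 13), (6, 7, 7, 13), (6, 7, 6, 13), (6, 7, 5, 13),
    (6, 7, 4, 13), (6, 7, 3, 13), (6, 7, 2, 13), (6, 7, 1, 13), (6, 6, 6, 13), (6, 6, 5, 13),
    (6, 6, 4, 13), (6, 6, 3, 13), (6, 6, 2, 13), (6, 6, 1, 13), (6, 6, 0, 13), (6, 5, 5, 13),
    (6, 5, 4, 13), (6, 5, 3, 13), (6, 5, 2, 13), (6, 5, 1, 13), (6, 5, 0, 13), (6, 4, 4, 13),
    (6, 4, 3, 13), (6, 4, 2, 13), (6, 4, 1, 13), (6, 4, 0, 13), (6, 3, 3, 13), (6, 3, 2, 13),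
    (6, 3, 1, 13), (6, 3, 0, 13), (6, 2, 2, 13), (6, 2, 1, 13), (6, 2, 0, 13), (6, 1, 1, 13),
    (6, 1, 0, 13), (6, 0, 0, 13)]),
  (5, [(5, 16, 16, 13), (5, 16, 15, 13), (5, 16, 14, 13), (5, 16, 13, 13), (5, 16, 12, 13),
    (5, 15, 15, 13), (5, 15, 14, 13), (5, 15, 13, 13), (5, 15, 12, 13), (5, 14, 14, 13),
    (5, 14, 13, 13), (5, 14, 12, 13), (5, 14, 11, 13), (5, 13, 13, 13), (5, 13, 12, 13),
    (5, 13, 11, 13), (5, 13, 10, 13), (5, 12, 12, 13), (5, 12, 11, 13), (5, 12, 10, 13),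
    (5, 12, 9, 13), (5, 11, 11, 13), (5, 11, 10, 13), (5, 11, 9, 13), (5, 11, 8, 13),
    (5, 10, 10, 13), (5, 10, 9, 13), (5, 10, 8, 13), (5, 10, 7, 13), (5, 9, 9, 13),
    (5, 9, 8, 13), (5, 9, 7, 13), (5, 9, 6, 13), (5, 9, 5, 13), (5, 8, 8, 13), (5, 8, 7, 13),
    (5, 8, 6, 13), (5, 8, 5, 13), (5, 8, 4, 13), (5, 7, 7, 13), (5, 7, 6, 13), (5, 7, 5, 13),
    (5, 7, 4, 13), (5, 7, 3, 13), (5, 7, 2, 13), (5, 6, 6, 13), (5, 6, 5, 13), (5, 6, 4, 13),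
    (5, 6, 3, 13), (5, 6, 2, 13), (5, 6, 1, 13), (5, 5, 5, 13), (5, 5, 4, 13), (5, 5, 3, 13),
    (5, 5, 2, 13), (5, 5, 1, 13), (5, 5, 0, 13), (5, 4, 4, 13), (5, 4, 3, 13), (5, 4, 2, 13),
    (5, 4, 1, 13), (5, 4, 0, 13), (5, 3, 3, 13), (5, 3, 2, 13), (5, 3, 1, 13), (5, 3, 0, 13),
    (5, 2, 2, 13), (5, 2, 1, 13), (5, 2, 0, 13), (5, 1, 1, 13), (5, 1, 0, 13), (5, 0, 0, 13)]),
  (4, [(4, 16, 16, 13), (4, 16, 15, 13), (4, 16, 14, 13), (4, 16, 13, 13), (4, 15, 15, 13),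
    (4, 15, 14, 13), (4, 15, 13, 13), (4, 15, 12, 13), (4, 14, 14, 13), (4, 14, 13, 13),
    (4, 14, 12, 13), (4, 13, 13, 13), (4, 13, 12, 13), (4, 13, 11, 13), (4, 12, 12, 13),
    (4, 12, 11, 13), (4, 12, 10, 13), (4, 11, 11, 13), (4, 11, 10, 13), (4, 11, 9, 13),
    (4, 10, 10, 13), (4, 10, 9, 13), (4, 10, 8, 13), (4, 9, 9, 13), (4, 9, 8, 13),
    (4, 9, 7, 13), (4, 8, 8, 13), (4, 8, 7, 13), (4, 8, 6, 13), (4, 8, 5, 13), (4, 7, 7, 13),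
    (4, 7, 6, 13), (4, 7, 5, 13), (4, 7, 4, 13), (4, 6, 6, 13), (4, 6, 5, 13), (4, 6, 4, 13),
    (4, 6, 3, 13), (4, 6, 2, 13), (4, 5, 5, 13), (4, 5, 4, 13), (4, 5, 3, 13), (4, 5, 2, 13),
    (4, 5, 1, 13), (4, 4, 4, 13), (4, 4, 3, 13), (4, 4, 2, 13), (4, 4, 1, 13), (4, 4, 0, 13),
    (4, 3, 3, 13), (4, 3, 2, 13), (4, 3, 1, 13), (4, 3, 0, 13), (4, 2, 2, 13), (4, 2, 1, 13),
    (4, 2, 0, 13), (4, 1, 1, 13), (4, 1, 0, 13), (4, 0, 0, 13)]),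
  (3, [(3, 16, 16, 13), (3, 16, 15, 13), (3, 15, 15, 12), (3, 8, 8, 5), (3, 7, 7, 4),
    (3, 7, 6, 4), (3, 6, 6, 3), (3, 6, 5, 3), (3, 6, 4, 3), (3, 5, 5, 3), (3, 5, 4, 3),
    (3, 5, 3, 3), (3, 5, 2, 3), (3, 4, 4, 3), (3, 4, 3, 3), (3, 4, 2, 3), (3, 4, 1, 3),
    (3, 3, 3, 3), (3, 3, 2, 3), (3, 3, 1, 3), (3, 3, 0, 3), (3, 2, 2, 3), (3, 2, 1, 3),
    (3, 2, 0, 3), (3, 1, 1, 3), (3, 1, 0, 3), (3, 0, 0, 3)]),
  (2, [(2, 5, 5, 3), (2, 4, 4, 2), (2, 4, 3, 2), (2, 3, 3, 1), (2, 3, 2, 1), (2, 3, 1, 1),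
    (2, 2, 2, 1), (2, 2, 1, 1), (2, 2, 0, 1), (2, 1, 1, 1), (2, 1, 0, 1), (2, 0, 0, 1)]),
  (1, [(1, 2, 2, 1), (1, 2, 1, 1), (1, 1, 1, 1), (1, 1, 0, 1), (1, 0, 0, 1)]),
  (0, [(0, 1, 1, 1), (0, 0, 0, 0)])]

/-- the squares `kf t ^ 2` are larger than `t (M - t) + 1` -/
def kf15_9_16 (t : ℕ) : ℕ := ([2, 3, 4, 4, 4, 3, 2] : List ℕ).getD t 0

lemma ok15_9_16 : Kern.okF 15 6 = true ∧ Kern.okK 6 kf15_9_16 = true ∧
    Kern.srt (Kern.keyF 17) (Kern.flt gs15_9_16) = true ∧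
    Kern.allTab 6 16 16 (Kern.okE 15 6 kf15_9_16)
      (fun a b c => (Kern.lookF (Kern.flt gs15_9_16) a b c).isSome) = true := by
  decide +kernel

/-- a block -/
noncomputable def bk15_9_16 (j p k : ℕ) : Bool :=
  Kern.blk (fun a : ℕ × ℕ × ℕ × ℕ => a.1) (fun a => a.2.1) (fun a => a.2.2.2) (fun _ => 0)
    (fun _ => 0) (fun _ => 0) 6 16 10 (fun l => (Le.ld4 15 9) (Kern.revT l)) 8 gs15_9_16 j p k

lemma b15_9_16_0_0 : bk15_9_16 0 0 84 = true := by decide +kernel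

lemma b15_9_16_1_0 : bk15_9_16 1 0 72 = true := by decide +kernel

lemma b15_9_16_2_0 : bk15_9_16 2 0 59 = true := by decide +kernel

lemma b15_9_16_3_0 : bk15_9_16 3 0 27 = true := by decide +kernel

lemma b15_9_16_4_0 : bk15_9_16 4 0 12 = true := by decide +kernel

lemma b15_9_16_5_0 : bk15_9_16 5 0 5 = true := by decide +kernel

lemma b15_9_16_6_0 : bk15_9_16 6 0 2 = true := by decide +kernel

lemma c15_9_16_0 : bk15_9_16 0 0 84 = true := b15_9_16_0_0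

lemma c15_9_16_1 : bk15_9_16 1 0 72 = true := b15_9_16_1_0

lemma c15_9_16_2 : bk15_9_16 2 0 59 = true := b15_9_16_2_0

lemma c15_9_16_3 : bk15_9_16 3 0 27 = true := b15_9_16_3_0

lemma c15_9_16_4 : bk15_9_16 4 0 12 = true := b15_9_16_4_0

lemma c15_9_16_5 : bk15_9_16 5 0 5 = true := b15_9_16_5_0

lemma c15_9_16_6 : bk15_9_16 6 0 2 = true := b15_9_16_6_0

lemma e15_9_16 : Kern.EnS (fun a : ℕ × ℕ × ℕ × ℕ => a.1) (fun a => a.2.1) (fun _ => 0) (fun _ => 0)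
    6 16 (9 + 1) (fun l => (Le.ld4 15 9) (Kern.revT l)) (8 + 1) (Kern.flt gs15_9_16) := by
  refine Kern.EnS.of_blk (b := fun a => a.2.2.2) (bg := fun _ => 0) (by decide +kernel) fun j hj => ?_
  have hj' : j < 7 := hj
  interval_cases j
  · exact c15_9_16_0
  · exact c15_9_16_1
  · exact c15_9_16_2
  · exact c15_9_16_3
  · exact c15_9_16_4
  · exact c15_9_16_5
  · exact c15_9_16_6

theorem part15_9_16 : PartC ((15 : ℕ) : ℤ) 16 9 (Le.ld4 15 9) := by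
  obtain ⟨h1, h2, h3, h4⟩ := ok15_9_16
  exact PartC.enumS (N := 17) (by norm_num) (by norm_num) h1 h2 h3 h4 e15_9_16

end FinK

/-- **`R = 15`, `n = 9`, `∑ h ≤ 16`: no items** -/
theorem noItC15_9_16 : NoItC 15 16 9 :=
  NoItC.of_l4 (by norm_num) (by norm_num) FinK.part15_9_16

end Pool.Agent.Lib.MP_f04ccf_co
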