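import Pool.Agent.Lib.MP_f04ccf_co.M.FinY

/-!
MP_f04ccf_co, PLAN W, finite part: `R = 11`, `n = 5` rows, `∑ h ≤ 12` (loads, patterns or star).
Generated (helper11, gen.py, mk4.py): the table of all rows `(t, h, mu, b)` which pass the row filter `Kern.okE`,
`b` a bound for `h - t` on the rest of the table; the enumeration in blocks of first rows with the leaf
`(fun l => (Le.ld4 11 5 l || PatX.patX 11 5 cl5 l) || starT 11 l)`, checked by the kernel.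
-/

set_option autoImplicit false

namespace Pool.Agent.Lib.MP_f04ccf_co

namespace FinK

/-- the table -/
def gs11_5_12 : List (ℕ × List (ℕ × ℕ × ℕ × ℕ)) :=
  [(6, [(6, 12, 12, 10), (6, 12, 11, 10), (6, 12, 10, 10), (6, 12, 9, 10), (6, 12, 8, 10),
    (6, 12, 7, 10), (6, 12, 6, 10), (6, 12, 5, 10), (6, 11, 11, 10), (6, 11, 10, 10),
    (6, 11, 9, 10), (6, 11, 8, 10), (6, 11, 7, 10), (6, 11, 6, 10), (6, 11, 5, 10),
    (6, 10, 10, 10), (6, 10, 9, 10), (6, 10, 8, 10), (6, 10, 7, 10), (6, 10, 6, 10),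
    (6, 10, 5, 10), (6, 10, 4, 10), (6, 9, 9, 10), (6, 9, 8, 10), (6, 9, 7, 10),
    (6, 9, 6, 10), (6, 9, 5, 10), (6, 9, 4, 10), (6, 9, 3, 10), (6, 8, 8, 10), (6, 8, 7, 10),
    (6, 8, 6, 10), (6, 8, 5, 10), (6, 8, 4, 10), (6, 8, 3, 10), (6, 8, 2, 10), (6, 7, 7, 10),
    (6, 7, 6, 10), (6, 7, 5, 10), (6, 7, 4, 10), (6, 7, 3, 10), (6, 7, 2, 10), (6, 7, 1, 10),
    (6, 6, 6, 10), (6, 6, 5, 10), (6, 6, 4, 10), (6, 6, 3, 10), (6, 6, 2, 10), (6, 6, 1, 10),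
    (6, 6, 0, 10), (6, 5, 5, 10), (6, 5, 4, 10), (6, 5, 3, 10), (6, 5, 2, 10), (6, 5, 1, 10),
    (6, 5, 0, 10), (6, 4, 4, 10), (6, 4, 3, 10), (6, 4, 2, 10), (6, 4, 1, 10), (6, 4, 0, 10),
    (6, 3, 3, 10), (6, 3, 2, 10), (6, 3, 1, 10), (6, 3, 0, 10), (6, 2, 2, 10), (6, 2, 1, 10),
    (6, 2, 0, 10), (6, 1, 1, 10), (6, 1, 0, 10), (6, 0, 0, 10)]),
  (5, [(5, 12, 12, 10), (5, 12, 11, 10), (5, 12, 10, 10), (5, 12, 9, 10), (5, 12, 8, 10),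
    (5, 12, 7, 10), (5, 12, 6, 10), (5, 11, 11, 10), (5, 11, 10, 10), (5, 11, 9, 10),
    (5, 11, 8, 10), (5, 11, 7, 10), (5, 11, 6, 10), (5, 11, 5, 10), (5, 10, 10, 10),
    (5, 10, 9, 10), (5, 10, 8, 10), (5, 10, 7, 10), (5, 10, 6, 10), (5, 10, 5, 10),
    (5, 9, 9, 10), (5, 9, 8, 10), (5, 9, 7, 10), (5, 9, 6, 10), (5, 9, 5, 10), (5, 9, 4, 10),
    (5, 8, 8, 10), (5, 8, 7, 10), (5, 8, 6, 10), (5, 8, 5, 10), (5, 8, 4, 10), (5, 8, 3, 10),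
    (5, 7, 7, 10), (5, 7, 6, 10), (5, 7, 5, 10), (5, 7, 4, 10), (5, 7, 3, 10), (5, 7, 2, 10),
    (5, 6, 6, 10), (5, 6, 5, 10), (5, 6, 4, 10), (5, 6, 3, 10), (5, 6, 2, 10), (5, 6, 1, 10),
    (5, 5, 5, 10), (5, 5, 4, 10), (5, 5, 3, 10), (5, 5, 2, 10), (5, 5, 1, 10), (5, 5, 0, 10),
    (5, 4, 4, 10), (5, 4, 3, 10), (5, 4, 2, 10), (5, 4, 1, 10), (5, 4, 0, 10), (5, 3, 3, 10),
    (5, 3, 2, 10), (5, 3, 1, 10), (5, 3, 0, 10), (5, 2, 2, 10), (5, 2, 1, 10), (5, 2, 0, 10),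
    (5, 1, 1, 10), (5, 1, 0, 10), (5, 0, 0, 10)]),
  (4, [(4, 12, 12, 10), (4, 12, 11, 10), (4, 12, 10, 10), (4, 12, 9, 10), (4, 12, 8, 10),
    (4, 12, 7, 10), (4, 12, 6, 10), (4, 11, 11, 10), (4, 11, 10, 10), (4, 11, 9, 10),
    (4, 11, 8, 10), (4, 11, 7, 10), (4, 11, 6, 10), (4, 10, 10, 10), (4, 10, 9, 10),
    (4, 10, 8, 10), (4, 10, 7, 10), (4, 10, 6, 10), (4, 10, 5, 10), (4, 9, 9, 10),
    (4, 9, 8, 10), (4, 9, 7, 10), (4, 9, 6, 10), (4, 9, 5, 10), (4, 9, 4, 10), (4, 8, 8, 10),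
    (4, 8, 7, 10), (4, 8, 6, 10), (4, 8, 5, 10), (4, 8, 4, 10), (4, 7, 7, 10), (4, 7, 6, 10),
    (4, 7, 5, 10), (4, 7, 4, 10), (4, 7, 3, 10), (4, 6, 6, 10), (4, 6, 5, 10), (4, 6, 4, 10),
    (4, 6, 3, 10), (4, 6, 2, 10), (4, 5, 5, 10), (4, 5, 4, 10), (4, 5, 3, 10), (4, 5, 2, 10),
    (4, 5, 1, 10), (4, 4, 4, 10), (4, 4, 3, 10), (4, 4, 2, 10), (4, 4, 1, 10), (4, 4, 0, 10),
    (4, 3, 3, 10), (4, 3, 2, 10), (4, 3, 1, 10), (4, 3, 0, 10), (4, 2, 2, 10), (4, 2, 1, 10),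
    (4, 2, 0, 10), (4, 1, 1, 10), (4, 1, 0, 10), (4, 0, 0, 10)]),
  (3, [(3, 12, 12, 10), (3, 12, 11, 10), (3, 12, 10, 10), (3, 12, 9, 10), (3, 12, 8, 10),
    (3, 11, 11, 10), (3, 11, 10, 10), (3, 11, 9, 10), (3, 11, 8, 10), (3, 11, 7, 10),
    (3, 10, 10, 10), (3, 10, 9, 10), (3, 10, 8, 10), (3, 10, 7, 10), (3, 10, 6, 10),
    (3, 9, 9, 10), (3, 9, 8, 10), (3, 9, 7, 10), (3, 9, 6, 10), (3, 8, 8, 10), (3, 8, 7, 10),
    (3, 8, 6, 10), (3, 8, 5, 10), (3, 7, 7, 10), (3, 7, 6, 10), (3, 7, 5, 10), (3, 7, 4, 10),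
    (3, 6, 6, 10), (3, 6, 5, 10), (3, 6, 4, 10), (3, 6, 3, 10), (3, 5, 5, 10), (3, 5, 4, 10),
    (3, 5, 3, 10), (3, 5, 2, 10), (3, 4, 4, 10), (3, 4, 3, 10), (3, 4, 2, 10), (3, 4, 1, 10),
    (3, 3, 3, 10), (3, 3, 2, 10), (3, 3, 1, 10), (3, 3, 0, 10), (3, 2, 2, 10), (3, 2, 1, 10),
    (3, 2, 0, 10), (3, 1, 1, 10), (3, 1, 0, 10), (3, 0, 0, 10)]),
  (2, [(2, 12, 12, 10), (2, 12, 11, 10), (2, 12, 10, 10), (2, 12, 9, 10), (2, 11, 11, 9),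
    (2, 11, 10, 9), (2, 11, 9, 9), (2, 11, 8, 9), (2, 10, 10, 8), (2, 10, 9, 8),
    (2, 10, 8, 8), (2, 9, 9, 7), (2, 9, 8, 7), (2, 9, 7, 7), (2, 8, 8, 6), (2, 8, 7, 6),
    (2, 7, 7, 5), (2, 7, 6, 5), (2, 6, 6, 4), (2, 6, 5, 4), (2, 5, 5, 3), (2, 5, 4, 3),
    (2, 5, 3, 3), (2, 4, 4, 2), (2, 4, 3, 2), (2, 4, 2, 2), (2, 3, 3, 2), (2, 3, 2, 2),
    (2, 3, 1, 2), (2, 2, 2, 2), (2, 2, 1, 2), (2, 2, 0, 2), (2, 1, 1, 2), (2, 1, 0, 2),
    (2, 0, 0, 2)]),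
  (1, [(1, 3, 3, 2), (1, 2, 2, 1), (1, 2, 1, 1), (1, 1, 1, 1), (1, 1, 0, 1), (1, 0, 0, 1)]),
  (0, [(0, 1, 1, 1), (0, 0, 0, 0)])]

/-- the squares `kf t ^ 2` are larger than `t (M - t) + 1` -/
def kf11_5_12 (t : ℕ) : ℕ := ([2, 3, 4, 4, 4, 3, 2] : List ℕ).getD t 0

lemma ok11_5_12 : Kern.okF 11 6 = true ∧ Kern.okK 6 kf11_5_12 = true ∧
    Kern.srt (Kern.keyF 13) (Kern.flt gs11_5_12) = true ∧
    Kern.allTab 6 12 12 (Kern.okE 11 6 kf11_5_12)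
      (fun a b c => (Kern.lookF (Kern.flt gs11_5_12) a b c).isSome) = true := by
  decide +kernel

/-- a block -/
noncomputable def bk11_5_12 (j p k : ℕ) : Bool :=
  Kern.blk (fun a : ℕ × ℕ × ℕ × ℕ => a.1) (fun a => a.2.1) (fun a => a.2.2.2) (fun _ => 0)
    (fun _ => 0) (fun _ => 0) 6 12 6 (fun l => (fun l => (Le.ld4 11 5 l || PatX.patX 11 5 cl5 l) || starT 11 l) (Kern.revT l)) 4 gs11_5_12 j p k

lemma b11_5_12_0_0 : bk11_5_12 0 0 71 = true := by decide +kernel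

lemma b11_5_12_1_0 : bk11_5_12 1 0 65 = true := by decide +kernel

lemma b11_5_12_2_0 : bk11_5_12 2 0 24 = true := by decide +kernel

lemma b11_5_12_2_24 : bk11_5_12 2 24 10 = true := by decide +kernel

lemma b11_5_12_2_34 : bk11_5_12 2 34 19 = true := by decide +kernel

lemma b11_5_12_2_53 : bk11_5_12 2 53 7 = true := by decide +kernel

lemma b11_5_12_3_0 : bk11_5_12 3 0 15 = true := by decide +kernel

lemma b11_5_12_3_15 : bk11_5_12 3 15 4 = true := by decide +kernel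

lemma b11_5_12_3_19 : bk11_5_12 3 19 3 = true := by decide +kernel

lemma b11_5_12_3_22 : bk11_5_12 3 22 2 = true := by decide +kernel

lemma b11_5_12_3_24 : bk11_5_12 3 24 2 = true := by decide +kernel

lemma b11_5_12_3_26 : bk11_5_12 3 26 2 = true := by decide +kernel

lemma b11_5_12_3_28 : bk11_5_12 3 28 2 = true := by decide +kernel

lemma b11_5_12_3_30 : bk11_5_12 3 30 3 = true := by decide +kernel

lemma b11_5_12_3_33 : bk11_5_12 3 33 3 = true := by decide +kernel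

lemma b11_5_12_3_36 : bk11_5_12 3 36 5 = true := by decide +kernel

lemma b11_5_12_3_41 : bk11_5_12 3 41 5 = true := by decide +kernel

lemma b11_5_12_3_46 : bk11_5_12 3 46 3 = true := by decide +kernel

lemma b11_5_12_4_0 : bk11_5_12 4 0 12 = true := by decide +kernel

lemma b11_5_12_4_12 : bk11_5_12 4 12 2 = true := by decide +kernel

lemma b11_5_12_4_14 : bk11_5_12 4 14 1 = true := by decide +kernel

lemma b11_5_12_4_15 : bk11_5_12 4 15 1 = true := by decide +kernel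

lemma b11_5_12_4_16 : bk11_5_12 4 16 1 = true := by decide +kernel

lemma b11_5_12_4_17 : bk11_5_12 4 17 1 = true := by decide +kernel

lemma b11_5_12_4_18 : bk11_5_12 4 18 1 = true := by decide +kernel

lemma b11_5_12_4_19 : bk11_5_12 4 19 1 = true := by decide +kernel

lemma b11_5_12_4_20 : bk11_5_12 4 20 1 = true := by decide +kernel

lemma b11_5_12_4_21 : bk11_5_12 4 21 1 = true := by decide +kernel

lemma b11_5_12_4_22 : bk11_5_12 4 22 1 = true := by decide +kernel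

lemma b11_5_12_4_23 : bk11_5_12 4 23 2 = true := by decide +kernel

lemma b11_5_12_4_25 : bk11_5_12 4 25 10 = true := by decide +kernel

lemma b11_5_12_5_0 : bk11_5_12 5 0 6 = true := by decide +kernel

lemma b11_5_12_6_0 : bk11_5_12 6 0 2 = true := by decide +kernel

lemma c11_5_12_0 : bk11_5_12 0 0 71 = true := b11_5_12_0_0

lemma c11_5_12_1 : bk11_5_12 1 0 65 = true := b11_5_12_1_0

lemma c11_5_12_2 : bk11_5_12 2 0 60 = true := by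
  have h0 := Kern.blk_join b11_5_12_2_0 b11_5_12_2_24
  have h1 := Kern.blk_join h0 b11_5_12_2_34
  have h2 := Kern.blk_join h1 b11_5_12_2_53
  exact h2

lemma c11_5_12_3 : bk11_5_12 3 0 49 = true := by
  have h0 := Kern.blk_join b11_5_12_3_0 b11_5_12_3_15
  have h1 := Kern.blk_join h0 b11_5_12_3_19
  have h2 := Kern.blk_join h1 b11_5_12_3_22
  have h3 := Kern.blk_join h2 b11_5_12_3_24
  have h4 := Kern.blk_join h3 b11_5_12_3_26
  have h5 := Kern.blk_join h4 b11_5_12_3_28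
  have h6 := Kern.blk_join h5 b11_5_12_3_30
  have h7 := Kern.blk_join h6 b11_5_12_3_33
  have h8 := Kern.blk_join h7 b11_5_12_3_36
  have h9 := Kern.blk_join h8 b11_5_12_3_41
  have h10 := Kern.blk_join h9 b11_5_12_3_46
  exact h10

lemma c11_5_12_4 : bk11_5_12 4 0 35 = true := by
  have h0 := Kern.blk_join b11_5_12_4_0 b11_5_12_4_12
  have h1 := Kern.blk_join h0 b11_5_12_4_14
  have h2 := Kern.blk_join h1 b11_5_12_4_15
  have h3 := Kern.blk_join h2 b11_5_12_4_16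
  have h4 := Kern.blk_join h3 b11_5_12_4_17
  have h5 := Kern.blk_join h4 b11_5_12_4_18
  have h6 := Kern.blk_join h5 b11_5_12_4_19
  have h7 := Kern.blk_join h6 b11_5_12_4_20
  have h8 := Kern.blk_join h7 b11_5_12_4_21
  have h9 := Kern.blk_join h8 b11_5_12_4_22
  have h10 := Kern.blk_join h9 b11_5_12_4_23
  have h11 := Kern.blk_join h10 b11_5_12_4_25
  exact h11

lemma c11_5_12_5 : bk11_5_12 5 0 6 = true := b11_5_12_5_0

lemma c11_5_12_6 : bk11_5_12 6 0 2 = true := b11_5_12_6_0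

lemma e11_5_12 : Kern.EnS (fun a : ℕ × ℕ × ℕ × ℕ => a.1) (fun a => a.2.1) (fun _ => 0) (fun _ => 0)
    6 12 (5 + 1) (fun l => (fun l => (Le.ld4 11 5 l || PatX.patX 11 5 cl5 l) || starT 11 l) (Kern.revT l)) (4 + 1) (Kern.flt gs11_5_12) := by
  refine Kern.EnS.of_blk (b := fun a => a.2.2.2) (bg := fun _ => 0) (by decide +kernel) fun j hj => ?_
  have hj' : j < 7 := hj
  interval_cases j
  · exact c11_5_12_0
  · exact c11_5_12_1
  · exact c11_5_12_2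
  · exact c11_5_12_3
  · exact c11_5_12_4
  · exact c11_5_12_5
  · exact c11_5_12_6

theorem part11_5_12 : PartC ((11 : ℕ) : ℤ) 12 5 (fun l => (Le.ld4 11 5 l || PatX.patX 11 5 cl5 l) || starT 11 l) := by
  obtain ⟨h1, h2, h3, h4⟩ := ok11_5_12
  exact PartC.enumS (N := 13) (by norm_num) (by norm_num) h1 h2 h3 h4 e11_5_12

end FinK

/-- **`R = 11`, `n = 5`, `∑ h ≤ 12`: no items** -/
theorem noItC11_5_12 : NoItC 11 12 5 :=
  NoItC.of_ls (by norm_num) (by norm_num) FinK.part11_5_12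

end Pool.Agent.Lib.MP_f04ccf_co
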