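import Pool.Agent.Lib.MP_f04ccf_co.M.FinY

/-!
MP_f04ccf_co, PLAN W, finite part: `R = 12`, `n = 5` rows, `∑ h ≤ 13` (loads, patterns or star).
Generated (helper11, gen.py, mk4.py): the table of all rows `(t, h, mu, b)` which pass the row filter `Kern.okE`,
`b` a bound for `h - t` on the rest of the table; the enumeration in blocks of first rows with the leaf
`(fun l => (Le.ld4 12 5 l || PatX.patX 12 5 cl5 l) || starT 12 l)`, checked by the kernel.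
-/

set_option autoImplicit false

namespace Pool.Agent.Lib.MP_f04ccf_co

namespace FinK

/-- the table -/
def gs12_5_13 : List (ℕ × List (ℕ × ℕ × ℕ × ℕ)) :=
  [(7, [(7, 13, 13, 11), (7, 13, 12, 11), (7, 13, 11, 11), (7, 13, 10, 11), (7, 13, 9, 11),
    (7, 13, 8, 11), (7, 13, 7, 11), (7, 13, 6, 11), (7, 13, 5, 11), (7, 12, 12, 11),
    (7, 12, 11, 11), (7, 12, 10, 11), (7, 12, 9, 11), (7, 12, 8, 11), (7, 12, 7, 11),
    (7, 12, 6, 11), (7, 12, 5, 11), (7, 11, 11, 11), (7, 11, 10, 11), (7, 11, 9, 11),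
    (7, 11, 8, 11), (7, 11, 7, 11), (7, 11, 6, 11), (7, 11, 5, 11), (7, 11, 4, 11),
    (7, 10, 10, 11), (7, 10, 9, 11), (7, 10, 8, 11), (7, 10, 7, 11), (7, 10, 6, 11),
    (7, 10, 5, 11), (7, 10, 4, 11), (7, 10, 3, 11), (7, 9, 9, 11), (7, 9, 8, 11),
    (7, 9, 7, 11), (7, 9, 6, 11), (7, 9, 5, 11), (7, 9, 4, 11), (7, 9, 3, 11), (7, 9, 2, 11),
    (7, 8, 8, 11), (7, 8, 7, 11), (7, 8, 6, 11), (7, 8, 5, 11), (7, 8, 4, 11), (7, 8, 3, 11),
    (7, 8, 2, 11), (7, 8, 1, 11), (7, 7, 7, 11), (7, 7, 6, 11), (7, 7, 5, 11), (7, 7, 4, 11),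
    (7, 7, 3, 11), (7, 7, 2, 11), (7, 7, 1, 11), (7, 7, 0, 11), (7, 6, 6, 11), (7, 6, 5, 11),
    (7, 6, 4, 11), (7, 6, 3, 11), (7, 6, 2, 11), (7, 6, 1, 11), (7, 6, 0, 11), (7, 5, 5, 11),
    (7, 5, 4, 11), (7, 5, 3, 11), (7, 5, 2, 11), (7, 5, 1, 11), (7, 5, 0, 11), (7, 4, 4, 11),
    (7, 4, 3, 11), (7, 4, 2, 11), (7, 4, 1, 11), (7, 4, 0, 11), (7, 3, 3, 11), (7, 3, 2, 11),
    (7, 3, 1, 11), (7, 3, 0, 11), (7, 2, 2, 11), (7, 2, 1, 11), (7, 2, 0, 11), (7, 1, 1, 11),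
    (7, 1, 0, 11), (7, 0, 0, 11)]),
  (6, [(6, 13, 13, 11), (6, 13, 12, 11), (6, 13, 11, 11), (6, 13, 10, 11), (6, 13, 9, 11),
    (6, 13, 8, 11), (6, 13, 7, 11), (6, 13, 6, 11), (6, 12, 12, 11), (6, 12, 11, 11),
    (6, 12, 10, 11), (6, 12, 9, 11), (6, 12, 8, 11), (6, 12, 7, 11), (6, 12, 6, 11),
    (6, 12, 5, 11), (6, 11, 11, 11), (6, 11, 10, 11), (6, 11, 9, 11), (6, 11, 8, 11),
    (6, 11, 7, 11), (6, 11, 6, 11), (6, 11, 5, 11), (6, 10, 10, 11), (6, 10, 9, 11),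
    (6, 10, 8, 11), (6, 10, 7, 11), (6, 10, 6, 11), (6, 10, 5, 11), (6, 10, 4, 11),
    (6, 9, 9, 11), (6, 9, 8, 11), (6, 9, 7, 11), (6, 9, 6, 11), (6, 9, 5, 11), (6, 9, 4, 11),
    (6, 9, 3, 11), (6, 8, 8, 11), (6, 8, 7, 11), (6, 8, 6, 11), (6, 8, 5, 11), (6, 8, 4, 11),
    (6, 8, 3, 11), (6, 8, 2, 11), (6, 7, 7, 11), (6, 7, 6, 11), (6, 7, 5, 11), (6, 7, 4, 11),
    (6, 7, 3, 11), (6, 7, 2, 11), (6, 7, 1, 11), (6, 6, 6, 11), (6, 6, 5, 11), (6, 6, 4, 11),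
    (6, 6, 3, 11), (6, 6, 2, 11), (6, 6, 1, 11), (6, 6, 0, 11), (6, 5, 5, 11), (6, 5, 4, 11),
    (6, 5, 3, 11), (6, 5, 2, 11), (6, 5, 1, 11), (6, 5, 0, 11), (6, 4, 4, 11), (6, 4, 3, 11),
    (6, 4, 2, 11), (6, 4, 1, 11), (6, 4, 0, 11), (6, 3, 3, 11), (6, 3, 2, 11), (6, 3, 1, 11),
    (6, 3, 0, 11), (6, 2, 2, 11), (6, 2, 1, 11), (6, 2, 0, 11), (6, 1, 1, 11), (6, 1, 0, 11),
    (6, 0, 0, 11)]),
  (5, [(5, 13, 13, 11), (5, 13, 12, 11), (5, 13, 11, 11), (5, 13, 10, 11), (5, 13, 9, 11),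
    (5, 13, 8, 11), (5, 13, 7, 11), (5, 13, 6, 11), (5, 12, 12, 11), (5, 12, 11, 11),
    (5, 12, 10, 11), (5, 12, 9, 11), (5, 12, 8, 11), (5, 12, 7, 11), (5, 12, 6, 11),
    (5, 11, 11, 11), (5, 11, 10, 11), (5, 11, 9, 11), (5, 11, 8, 11), (5, 11, 7, 11),
    (5, 11, 6, 11), (5, 11, 5, 11), (5, 10, 10, 11), (5, 10, 9, 11), (5, 10, 8, 11),
    (5, 10, 7, 11), (5, 10, 6, 11), (5, 10, 5, 11), (5, 10, 4, 11), (5, 9, 9, 11),
    (5, 9, 8, 11), (5, 9, 7, 11), (5, 9, 6, 11), (5, 9, 5, 11), (5, 9, 4, 11), (5, 8, 8, 11),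
    (5, 8, 7, 11), (5, 8, 6, 11), (5, 8, 5, 11), (5, 8, 4, 11), (5, 8, 3, 11), (5, 7, 7, 11),
    (5, 7, 6, 11), (5, 7, 5, 11), (5, 7, 4, 11), (5, 7, 3, 11), (5, 7, 2, 11), (5, 6, 6, 11),
    (5, 6, 5, 11), (5, 6, 4, 11), (5, 6, 3, 11), (5, 6, 2, 11), (5, 6, 1, 11), (5, 5, 5, 11),
    (5, 5, 4, 11), (5, 5, 3, 11), (5, 5, 2, 11), (5, 5, 1, 11), (5, 5, 0, 11), (5, 4, 4, 11),
    (5, 4, 3, 11), (5, 4, 2, 11), (5, 4, 1, 11), (5, 4, 0, 11), (5, 3, 3, 11), (5, 3, 2, 11),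
    (5, 3, 1, 11), (5, 3, 0, 11), (5, 2, 2, 11), (5, 2, 1, 11), (5, 2, 0, 11), (5, 1, 1, 11),
    (5, 1, 0, 11), (5, 0, 0, 11)]),
  (4, [(4, 13, 13, 11), (4, 13, 12, 11), (4, 13, 11, 11), (4, 13, 10, 11), (4, 13, 9, 11),
    (4, 13, 8, 11), (4, 12, 12, 11), (4, 12, 11, 11), (4, 12, 10, 11), (4, 12, 9, 11),
    (4, 12, 8, 11), (4, 12, 7, 11), (4, 11, 11, 11), (4, 11, 10, 11), (4, 11, 9, 11),
    (4, 11, 8, 11), (4, 11, 7, 11), (4, 11, 6, 11), (4, 10, 10, 11), (4, 10, 9, 11),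
    (4, 10, 8, 11), (4, 10, 7, 11), (4, 10, 6, 11), (4, 9, 9, 11), (4, 9, 8, 11),
    (4, 9, 7, 11), (4, 9, 6, 11), (4, 9, 5, 11), (4, 8, 8, 11), (4, 8, 7, 11), (4, 8, 6, 11),
    (4, 8, 5, 11), (4, 8, 4, 11), (4, 7, 7, 11), (4, 7, 6, 11), (4, 7, 5, 11), (4, 7, 4, 11),
    (4, 7, 3, 11), (4, 6, 6, 11), (4, 6, 5, 11), (4, 6, 4, 11), (4, 6, 3, 11), (4, 6, 2, 11),
    (4, 5, 5, 11), (4, 5, 4, 11), (4, 5, 3, 11), (4, 5, 2, 11), (4, 5, 1, 11), (4, 4, 4, 11),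
    (4, 4, 3, 11), (4, 4, 2, 11), (4, 4, 1, 11), (4, 4, 0, 11), (4, 3, 3, 11), (4, 3, 2, 11),
    (4, 3, 1, 11), (4, 3, 0, 11), (4, 2, 2, 11), (4, 2, 1, 11), (4, 2, 0, 11), (4, 1, 1, 11),
    (4, 1, 0, 11), (4, 0, 0, 11)]),
  (3, [(3, 13, 13, 11), (3, 13, 12, 11), (3, 13, 11, 11), (3, 13, 10, 11), (3, 13, 9, 11),
    (3, 12, 12, 11), (3, 12, 11, 11), (3, 12, 10, 11), (3, 12, 9, 11), (3, 12, 8, 11),
    (3, 11, 11, 11), (3, 11, 10, 11), (3, 11, 9, 11), (3, 11, 8, 11), (3, 10, 10, 11),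
    (3, 10, 9, 11), (3, 10, 8, 11), (3, 10, 7, 11), (3, 9, 9, 11), (3, 9, 8, 11),
    (3, 9, 7, 11), (3, 9, 6, 11), (3, 8, 8, 11), (3, 8, 7, 11), (3, 8, 6, 11), (3, 7, 7, 11),
    (3, 7, 6, 11), (3, 7, 5, 11), (3, 7, 4, 11), (3, 6, 6, 11), (3, 6, 5, 11), (3, 6, 4, 11),
    (3, 6, 3, 11), (3, 5, 5, 11), (3, 5, 4, 11), (3, 5, 3, 11), (3, 5, 2, 11), (3, 4, 4, 11),
    (3, 4, 3, 11), (3, 4, 2, 11), (3, 4, 1, 11), (3, 3, 3, 11), (3, 3, 2, 11), (3, 3, 1, 11),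
    (3, 3, 0, 11), (3, 2, 2, 11), (3, 2, 1, 11), (3, 2, 0, 11), (3, 1, 1, 11), (3, 1, 0, 11),
    (3, 0, 0, 11)]),
  (2, [(2, 13, 13, 11), (2, 13, 12, 11), (2, 13, 11, 11), (2, 13, 10, 11), (2, 12, 12, 10),
    (2, 12, 11, 10), (2, 12, 10, 10), (2, 11, 11, 9), (2, 11, 10, 9), (2, 10, 10, 8),
    (2, 10, 9, 8), (2, 9, 9, 7), (2, 9, 8, 7), (2, 8, 8, 6), (2, 7, 7, 5), (2, 7, 6, 5),
    (2, 6, 6, 4), (2, 6, 5, 4), (2, 5, 5, 3), (2, 5, 4, 3), (2, 4, 4, 2), (2, 4, 3, 2),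
    (2, 4, 2, 2), (2, 3, 3, 2), (2, 3, 2, 2), (2, 3, 1, 2), (2, 2, 2, 2), (2, 2, 1, 2),
    (2, 2, 0, 2), (2, 1, 1, 2), (2, 1, 0, 2), (2, 0, 0, 2)]),
  (1, [(1, 3, 3, 2), (1, 2, 2, 1), (1, 2, 1, 1), (1, 1, 1, 1), (1, 1, 0, 1), (1, 0, 0, 1)]),
  (0, [(0, 1, 1, 1), (0, 0, 0, 0)])]

/-- the squares `kf t ^ 2` are larger than `t (M - t) + 1` -/
def kf12_5_13 (t : ℕ) : ℕ := ([2, 3, 4, 4, 4, 4, 3, 2] : List ℕ).getD t 0

lemma ok12_5_13 : Kern.okF 12 7 = true ∧ Kern.okK 7 kf12_5_13 = true ∧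
    Kern.srt (Kern.keyF 14) (Kern.flt gs12_5_13) = true ∧
    Kern.allTab 7 13 13 (Kern.okE 12 7 kf12_5_13)
      (fun a b c => (Kern.lookF (Kern.flt gs12_5_13) a b c).isSome) = true := by
  decide +kernel

/-- a block -/
noncomputable def bk12_5_13 (j p k : ℕ) : Bool :=
  Kern.blk (fun a : ℕ × ℕ × ℕ × ℕ => a.1) (fun a => a.2.1) (fun a => a.2.2.2) (fun _ => 0)
    (fun _ => 0) (fun _ => 0) 7 13 6 (fun l => (fun l => (Le.ld4 12 5 l || PatX.patX 12 5 cl5 l) || starT 12 l) (Kern.revT l)) 4 gs12_5_13 j p k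

lemma b12_5_13_0_0 : bk12_5_13 0 0 85 = true := by decide +kernel

lemma b12_5_13_1_0 : bk12_5_13 1 0 79 = true := by decide +kernel

lemma b12_5_13_2_0 : bk12_5_13 2 0 30 = true := by decide +kernel

lemma b12_5_13_2_30 : bk12_5_13 2 30 16 = true := by decide +kernel

lemma b12_5_13_2_46 : bk12_5_13 2 46 28 = true := by decide +kernel

lemma b12_5_13_3_0 : bk12_5_13 3 0 19 = true := by decide +kernel

lemma b12_5_13_3_19 : bk12_5_13 3 19 5 = true := by decide +kernel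

lemma b12_5_13_3_24 : bk12_5_13 3 24 4 = true := by decide +kernel

lemma b12_5_13_3_28 : bk12_5_13 3 28 4 = true := by decide +kernel

lemma b12_5_13_3_32 : bk12_5_13 3 32 4 = true := by decide +kernel

lemma b12_5_13_3_36 : bk12_5_13 3 36 4 = true := by decide +kernel

lemma b12_5_13_3_40 : bk12_5_13 3 40 5 = true := by decide +kernel

lemma b12_5_13_3_45 : bk12_5_13 3 45 6 = true := by decide +kernel

lemma b12_5_13_3_51 : bk12_5_13 3 51 7 = true := by decide +kernel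

lemma b12_5_13_3_58 : bk12_5_13 3 58 5 = true := by decide +kernel

lemma b12_5_13_4_0 : bk12_5_13 4 0 14 = true := by decide +kernel

lemma b12_5_13_4_14 : bk12_5_13 4 14 3 = true := by decide +kernel

lemma b12_5_13_4_17 : bk12_5_13 4 17 2 = true := by decide +kernel

lemma b12_5_13_4_19 : bk12_5_13 4 19 2 = true := by decide +kernel

lemma b12_5_13_4_21 : bk12_5_13 4 21 1 = true := by decide +kernel

lemma b12_5_13_4_22 : bk12_5_13 4 22 1 = true := by decide +kernel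

lemma b12_5_13_4_23 : bk12_5_13 4 23 1 = true := by decide +kernel

lemma b12_5_13_4_24 : bk12_5_13 4 24 1 = true := by decide +kernel

lemma b12_5_13_4_25 : bk12_5_13 4 25 1 = true := by decide +kernel

lemma b12_5_13_4_26 : bk12_5_13 4 26 1 = true := by decide +kernel

lemma b12_5_13_4_27 : bk12_5_13 4 27 1 = true := by decide +kernel

lemma b12_5_13_4_28 : bk12_5_13 4 28 1 = true := by decide +kernel

lemma b12_5_13_4_29 : bk12_5_13 4 29 1 = true := by decide +kernel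

lemma b12_5_13_4_30 : bk12_5_13 4 30 1 = true := by decide +kernel

lemma b12_5_13_4_31 : bk12_5_13 4 31 1 = true := by decide +kernel

lemma b12_5_13_4_32 : bk12_5_13 4 32 1 = true := by decide +kernel

lemma b12_5_13_4_33 : bk12_5_13 4 33 1 = true := by decide +kernel

lemma b12_5_13_4_34 : bk12_5_13 4 34 1 = true := by decide +kernel

lemma b12_5_13_4_35 : bk12_5_13 4 35 1 = true := by decide +kernel

lemma b12_5_13_4_36 : bk12_5_13 4 36 1 = true := by decide +kernel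

lemma b12_5_13_4_37 : bk12_5_13 4 37 2 = true := by decide +kernel

lemma b12_5_13_4_39 : bk12_5_13 4 39 2 = true := by decide +kernel

lemma b12_5_13_4_41 : bk12_5_13 4 41 2 = true := by decide +kernel

lemma b12_5_13_4_43 : bk12_5_13 4 43 2 = true := by decide +kernel

lemma b12_5_13_4_45 : bk12_5_13 4 45 2 = true := by decide +kernel

lemma b12_5_13_4_47 : bk12_5_13 4 47 2 = true := by decide +kernel

lemma b12_5_13_4_49 : bk12_5_13 4 49 2 = true := by decide +kernel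

lemma b12_5_13_5_0 : bk12_5_13 5 0 11 = true := by decide +kernel

lemma b12_5_13_5_11 : bk12_5_13 5 11 2 = true := by decide +kernel

lemma b12_5_13_5_13 : bk12_5_13 5 13 1 = true := by decide +kernel

lemma b12_5_13_5_14 : bk12_5_13 5 14 1 = true := by decide +kernel

lemma b12_5_13_5_15 : bk12_5_13 5 15 1 = true := by decide +kernel

lemma b12_5_13_5_16 : bk12_5_13 5 16 1 = true := by decide +kernel

lemma b12_5_13_5_17 : bk12_5_13 5 17 1 = true := by decide +kernel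

lemma b12_5_13_5_18 : bk12_5_13 5 18 1 = true := by decide +kernel

lemma b12_5_13_5_19 : bk12_5_13 5 19 1 = true := by decide +kernel

lemma b12_5_13_5_20 : bk12_5_13 5 20 1 = true := by decide +kernel

lemma b12_5_13_5_21 : bk12_5_13 5 21 1 = true := by decide +kernel

lemma b12_5_13_5_22 : bk12_5_13 5 22 10 = true := by decide +kernel

lemma b12_5_13_6_0 : bk12_5_13 6 0 6 = true := by decide +kernel

lemma b12_5_13_7_0 : bk12_5_13 7 0 2 = true := by decide +kernel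

lemma c12_5_13_0 : bk12_5_13 0 0 85 = true := b12_5_13_0_0

lemma c12_5_13_1 : bk12_5_13 1 0 79 = true := b12_5_13_1_0

lemma c12_5_13_2 : bk12_5_13 2 0 74 = true := by
  have h0 := Kern.blk_join b12_5_13_2_0 b12_5_13_2_30
  have h1 := Kern.blk_join h0 b12_5_13_2_46
  exact h1

lemma c12_5_13_3 : bk12_5_13 3 0 63 = true := by
  have h0 := Kern.blk_join b12_5_13_3_0 b12_5_13_3_19
  have h1 := Kern.blk_join h0 b12_5_13_3_24
  have h2 := Kern.blk_join h1 b12_5_13_3_28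
  have h3 := Kern.blk_join h2 b12_5_13_3_32
  have h4 := Kern.blk_join h3 b12_5_13_3_36
  have h5 := Kern.blk_join h4 b12_5_13_3_40
  have h6 := Kern.blk_join h5 b12_5_13_3_45
  have h7 := Kern.blk_join h6 b12_5_13_3_51
  have h8 := Kern.blk_join h7 b12_5_13_3_58
  exact h8

lemma c12_5_13_4 : bk12_5_13 4 0 51 = true := by
  have h0 := Kern.blk_join b12_5_13_4_0 b12_5_13_4_14
  have h1 := Kern.blk_join h0 b12_5_13_4_17
  have h2 := Kern.blk_join h1 b12_5_13_4_19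
  have h3 := Kern.blk_join h2 b12_5_13_4_21
  have h4 := Kern.blk_join h3 b12_5_13_4_22
  have h5 := Kern.blk_join h4 b12_5_13_4_23
  have h6 := Kern.blk_join h5 b12_5_13_4_24
  have h7 := Kern.blk_join h6 b12_5_13_4_25
  have h8 := Kern.blk_join h7 b12_5_13_4_26
  have h9 := Kern.blk_join h8 b12_5_13_4_27
  have h10 := Kern.blk_join h9 b12_5_13_4_28
  have h11 := Kern.blk_join h10 b12_5_13_4_29
  have h12 := Kern.blk_join h11 b12_5_13_4_30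
  have h13 := Kern.blk_join h12 b12_5_13_4_31
  have h14 := Kern.blk_join h13 b12_5_13_4_32
  have h15 := Kern.blk_join h14 b12_5_13_4_33
  have h16 := Kern.blk_join h15 b12_5_13_4_34
  have h17 := Kern.blk_join h16 b12_5_13_4_35
  have h18 := Kern.blk_join h17 b12_5_13_4_36
  have h19 := Kern.blk_join h18 b12_5_13_4_37
  have h20 := Kern.blk_join h19 b12_5_13_4_39
  have h21 := Kern.blk_join h20 b12_5_13_4_41
  have h22 := Kern.blk_join h21 b12_5_13_4_43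
  have h23 := Kern.blk_join h22 b12_5_13_4_45
  have h24 := Kern.blk_join h23 b12_5_13_4_47
  have h25 := Kern.blk_join h24 b12_5_13_4_49
  exact h25

lemma c12_5_13_5 : bk12_5_13 5 0 32 = true := by
  have h0 := Kern.blk_join b12_5_13_5_0 b12_5_13_5_11
  have h1 := Kern.blk_join h0 b12_5_13_5_13
  have h2 := Kern.blk_join h1 b12_5_13_5_14
  have h3 := Kern.blk_join h2 b12_5_13_5_15
  have h4 := Kern.blk_join h3 b12_5_13_5_16
  have h5 := Kern.blk_join h4 b12_5_13_5_17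
  have h6 := Kern.blk_join h5 b12_5_13_5_18
  have h7 := Kern.blk_join h6 b12_5_13_5_19
  have h8 := Kern.blk_join h7 b12_5_13_5_20
  have h9 := Kern.blk_join h8 b12_5_13_5_21
  have h10 := Kern.blk_join h9 b12_5_13_5_22
  exact h10

lemma c12_5_13_6 : bk12_5_13 6 0 6 = true := b12_5_13_6_0

lemma c12_5_13_7 : bk12_5_13 7 0 2 = true := b12_5_13_7_0

lemma e12_5_13 : Kern.EnS (fun a : ℕ × ℕ × ℕ × ℕ => a.1) (fun a => a.2.1) (fun _ => 0) (fun _ => 0)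
    7 13 (5 + 1) (fun l => (fun l => (Le.ld4 12 5 l || PatX.patX 12 5 cl5 l) || starT 12 l) (Kern.revT l)) (4 + 1) (Kern.flt gs12_5_13) := by
  refine Kern.EnS.of_blk (b := fun a => a.2.2.2) (bg := fun _ => 0) (by decide +kernel) fun j hj => ?_
  have hj' : j < 8 := hj
  interval_cases j
  · exact c12_5_13_0
  · exact c12_5_13_1
  · exact c12_5_13_2
  · exact c12_5_13_3
  · exact c12_5_13_4
  · exact c12_5_13_5
  · exact c12_5_13_6
  · exact c12_5_13_7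

theorem part12_5_13 : PartC ((12 : ℕ) : ℤ) 13 5 (fun l => (Le.ld4 12 5 l || PatX.patX 12 5 cl5 l) || starT 12 l) := by
  obtain ⟨h1, h2, h3, h4⟩ := ok12_5_13
  exact PartC.enumS (N := 14) (by norm_num) (by norm_num) h1 h2 h3 h4 e12_5_13

end FinK

/-- **`R = 12`, `n = 5`, `∑ h ≤ 13`: no items** -/
theorem noItC12_5_13 : NoItC 12 13 5 :=
  NoItC.of_ls (by norm_num) (by norm_num) FinK.part12_5_13

end Pool.Agent.Lib.MP_f04ccf_co
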