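import Pool.Agent.Lib.MP_f04ccf_co.M.FalC

/-!
MP_f04ccf_co, PLAN W, finite part, version [C]: **the tie rule**.  A member `v` of the host `x` with
tail `z` which misses as many class points at home as at its tail can move, so by the least weight of
the homes it misses at most as many members of `x` as members of `z`.
`PkOpt.swapC`, `PkOpt.free_own`: the partner of a PC pair with a free arc is missed by no member of the
same tail outside the PC pairs; `PkOpt.energyT`: the energy without the members of some PC pairs.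
`TieP`: the only PC pair of a cell has a free arc and a tie; `WCoreK.energyTie`: the energy of a host
with some ties; `WCoreK.nontie`: the bound of the other PC pairs which are alone in their cell.
`ItT` extends `ItC` with these inequalities, `WItC.itt` the transport, `NoItT` the last step.
-/

set_option autoImplicit false

namespace Pool.Agent.Lib.MP_f04ccf_co

open Finset

attribute [local instance] Classical.propDecidable

section PkT

variable {ι V : Type*} {G : SimpleGraph V} {C H : Finset V} {tl : V → ι}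
  {B : Finset (V × V)} {Ps : Finset (Finset V)} {φ : Finset (V × V) → Finset (Finset V) → ℕ}

/-- another partner for one PC pair -/
lemma Pk.swapC (h : Pk G C H tl B Ps) {e : V × V} (he : e ∈ B) {b : V} (hb : b ∈ C)
    (hn : ¬ G.Adj e.1 b) (hf : ∀ f ∈ B, f.2 = b → tl f.1 ≠ tl e.1) :
    Pk G C H tl (insert (e.1, b) (B.erase e)) Ps := by
  have hm : ∀ f ∈ insert (e.1, b) (B.erase e), f = (e.1, b) ∨ (f ∈ B ∧ f ≠ e) := by
    intro f hf
    rcases mem_insert.1 hf with h1 | h1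
    · exact Or.inl h1
    · exact Or.inr ⟨mem_of_mem_erase h1, ne_of_mem_erase h1⟩
  refine ⟨fun f hf => ?_, fun f hf => ?_, fun f hf => ?_, fun f hf g hg hfg => ?_,
    fun f hf' g hg hfg ht => ?_, h.ne, h.sub, h.ind, h.dis, fun f hf P hP => ?_, fun v hv => ?_⟩
  · rcases hm f hf with rfl | ⟨h1, -⟩
    · exact h.bH e he
    · exact h.bH f h1
  · rcases hm f hf with rfl | ⟨h1, -⟩
    · exact hb
    · exact h.bC f h1
  · rcases hm f hf with rfl | ⟨h1, -⟩
    · exact hn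
    · exact h.bN f h1
  · rcases hm f hf with rfl | ⟨h1, h2⟩ <;> rcases hm g hg with rfl | ⟨h3, h4⟩
    · rfl
    · exact absurd (h.b1 g h3 e he hfg.symm) h4
    · exact absurd (h.b1 f h1 e he hfg) h2
    · exact h.b1 f h1 g h3 hfg
  · rcases hm f hf' with rfl | ⟨h1, h2⟩ <;> rcases hm g hg with rfl | ⟨h3, h4⟩
    · rfl
    · exact absurd ht.symm (hf g h3 hfg.symm)
    · exact absurd ht (hf f h1 hfg)
    · exact h.b2 f h1 g h3 hfg ht
  · rcases hm f hf with rfl | ⟨h1, -⟩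
    · exact h.dw e he P hP
    · exact h.dw f h1 P hP
  · rcases h.cov v hv with ⟨f, hf1, hf2⟩ | h1
    · left
      by_cases h2 : f = e
      · exact ⟨(e.1, b), mem_insert_self _ _, by rw [← hf2, h2]⟩
      · exact ⟨f, mem_insert_of_mem (mem_erase.2 ⟨h2, hf1⟩), hf2⟩
    · exact Or.inr h1

/-- **the partner of a PC pair with a free arc** is missed by no member with the same tail outside the
PC pairs -/
theorem PkOpt.free_own (h : PkOpt G C H tl φ B Ps) {e : V × V} (he : e ∈ B)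
    (hfr : (frC G C tl B e.1).Nonempty) {P : Finset V} (hP : P ∈ Ps) {w : V} (hw : w ∈ P)
    (ht : tl w = tl e.1) : G.Adj w e.2 := by
  by_contra hn
  obtain ⟨b, hb⟩ := hfr
  obtain ⟨hb1, hb2, hb3⟩ := mem_frC.1 hb
  have h1 := h.toPk.swapC he hb1 hb2 hb3
  have hbe : (e.1, b) ∉ B.erase e := fun h2 =>
    hb3 _ (mem_of_mem_erase h2) rfl rfl
  have hc : (insert (e.1, b) (B.erase e)).card = B.card := by
    rw [card_insert_of_notMem hbe]
    exact card_erase_add_one he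
  have h2 : PkOpt G C H tl (fun _ _ => 0) (insert (e.1, b) (B.erase e)) Ps :=
    ⟨h1, h.min, fun B' Ps' h3 h4 => by
      rw [hc]
      exact h.max B' Ps' h3 h4, fun _ _ _ _ _ => le_rfl⟩
  obtain ⟨f, hf1, hf2, hf3⟩ := h2.used hP hw (h.bC e he) hn
  rcases mem_insert.1 hf1 with h3 | h3
  · rw [h3] at hf2
    exact hb3 e he hf2.symm rfl
  · exact ne_of_mem_erase h3 (h.b2 f (mem_of_mem_erase h3) e he hf2 (hf3.trans ht))

/-- **the energy without the members of some PC pairs** whose partners are missed by no other member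
with the same tail -/
theorem PkOpt.energyT (h : PkOpt G C H tl φ B Ps) (h32 : ∀ v ∈ H, ∀ w ∈ H, ∀ a ∈ C, v ≠ w →
    tl v = tl w → ¬ G.Adj v a → ¬ G.Adj w a → G.Adj v w) (hC : Clq G C) (hHC : Disjoint H C)
    {Q : Finset (V × V)} (hQ : Q ⊆ B)
    (hown : ∀ e ∈ Q, ∀ P ∈ Ps, ∀ w ∈ P, tl w = tl e.1 → G.Adj w e.2) :
    (NE G ((H \ Q.image Prod.fst) ∪ C) : ℤ) + Ps.card * (Ps.card - 1)
        + E G ((B \ Q).image Prod.fst)
      ≤ ((H.card : ℤ) - Q.card) * ((H.card : ℤ) - Q.card - 1)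
        + 2 * ∑ e ∈ B \ Q, (nd G C e.1 : ℤ) := by
  obtain ⟨W, hW⟩ : ∃ W, W = (B \ Q).image Prod.fst := ⟨_, rfl⟩
  obtain ⟨U, hU⟩ : ∃ U, U = H \ B.image Prod.fst := ⟨_, rfl⟩
  obtain ⟨H', hH'⟩ : ∃ H', H' = H \ Q.image Prod.fst := ⟨_, rfl⟩
  have hQW : Disjoint (Q.image Prod.fst) W := by
    rw [hW, disjoint_left]
    intro v hv hv'
    obtain ⟨e, he, rfl⟩ := mem_image.1 hv
    obtain ⟨f, hf, hfe⟩ := mem_image.1 hv'
    obtain ⟨hf1, hf2⟩ := mem_sdiff.1 hf
    exact hf2 (h.b1 f hf1 e (hQ he) hfe ▸ he)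
  have hBW : B.image Prod.fst = Q.image Prod.fst ∪ W := by
    rw [hW, ← image_union, union_sdiff_of_subset hQ]
  have hWH : W ⊆ H := by
    refine subset_trans ?_ h.toPk.W_sub
    rw [hBW]
    exact subset_union_right
  have hd : Disjoint U W := by
    rw [hU, hBW]
    exact disjoint_left.2 fun v hv hv' => (mem_sdiff.1 hv).2 (mem_union_right _ hv')
  have hUW : U ∪ W = H' := by
    rw [hU, hH', hBW]
    ext v
    simp only [mem_union, mem_sdiff]
    constructor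
    · rintro (⟨h1, h2⟩ | h1)
      · exact ⟨h1, fun h3 => h2 (Or.inl h3)⟩
      · exact ⟨hWH h1, fun h2 => disjoint_left.1 hQW h2 h1⟩
    · rintro ⟨h1, h2⟩
      by_cases h3 : v ∈ W
      · exact Or.inr h3
      · exact Or.inl ⟨h1, fun h4 => h4.elim h2 h3⟩
  have hHC' : Disjoint H' C := by
    rw [hH']
    exact hHC.mono_left sdiff_subset
  have hcH : (H'.card : ℤ) = (H.card : ℤ) - Q.card := by
    have h1 : (Q.image Prod.fst).card = Q.card := card_image_of_injOn fun e he f hf hef =>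
      h.b1 e (hQ (by exact_mod_cast he)) f (hQ (by exact_mod_cast hf)) hef
    have h2 : Q.image Prod.fst ⊆ H := subset_trans (image_subset_image hQ) h.toPk.W_sub
    rw [hH', card_sdiff_of_subset h2, Nat.cast_sub (card_le_card h2), h1]
  have h1 := NE_union (G := G) hHC'
  rw [NE_clq hC, nd_comm, add_zero] at h1
  have h2 : ∑ v ∈ H', nd G C v = ∑ v ∈ U, nd G C v + ∑ v ∈ W, nd G C v := by
    rw [← sum_union hd, hUW]
  have h3 : ∑ v ∈ W, nd G C v = ∑ e ∈ B \ Q, nd G C e.1 := by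
    rw [hW, sum_image fun e he f hf hef =>
      h.b1 e (mem_sdiff.1 (by exact_mod_cast he : e ∈ B \ Q)).1 f
        (mem_sdiff.1 (by exact_mod_cast hf : f ∈ B \ Q)).1 hef]
  have h4 := E_add_NE (G := G) H'
  have h5 : E G U + 2 * ∑ v ∈ U, dg G W v + E G W ≤ E G H' := by
    have h6 : E G H' = ∑ v ∈ U, dg G (U ∪ W) v + ∑ v ∈ W, dg G (U ∪ W) v := by
      rw [← sum_union hd, hUW]
      rfl
    have h7 : ∀ v, dg G (U ∪ W) v = dg G U v + dg G W v := by
      intro v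
      unfold dg
      rw [filter_union, card_union_of_disjoint (disjoint_filter_filter hd)]
    have h8 : ∑ v ∈ W, dg G U v = ∑ v ∈ U, dg G W v := by
      have h9 := sum_card_bipartiteAbove_eq_sum_card_bipartiteBelow (s := W) (t := U)
        (fun a b => G.Adj a b)
      unfold dg
      simp only [bipartiteAbove, bipartiteBelow] at h9
      rw [h9]
      refine sum_congr rfl fun b _ => ?_
      congr 1
      ext a
      simp [G.adj_comm]
    rw [h6]
    simp only [h7, sum_add_distrib]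
    rw [h8]
    have h10 : E G U = ∑ v ∈ U, dg G U v := rfl
    have h11 : E G W = ∑ v ∈ W, dg G W v := rfl
    rw [h10, h11]
    omega
  have h6 := h.E_parts
  rw [← hU] at h6
  have h7 : ∀ v ∈ U, nd G C v ≤ dg G W v := by
    intro v hv
    have hv' := hv
    rw [hU, h.toPk.union_eq, mem_biUnion] at hv'
    obtain ⟨P, hP, hvP⟩ := hv'
    have hvH : v ∈ H := h.sub P hP hvP
    have g1 : ∀ a ∈ C.filter (fun a => a ≠ v ∧ ¬ G.Adj v a), ∃ e ∈ B \ Q, e.2 = a ∧
        tl e.1 = tl v := by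
      intro a ha
      obtain ⟨g2, -, g3⟩ := mem_filter.1 ha
      obtain ⟨e, he, g4, g5⟩ := h.used hP hvP g2 g3
      refine ⟨e, mem_sdiff.2 ⟨he, fun g6 => g3 ?_⟩, g4, g5⟩
      rw [← g4]
      exact hown e g6 P hP v hvP g5.symm
    choose! f hf1 hf2 hf3 using g1
    unfold nd dg
    refine card_le_card_of_injOn (fun a => (f a).1) ?_ ?_
    · intro a ha
      have ha' : a ∈ C.filter (fun a => a ≠ v ∧ ¬ G.Adj v a) := by exact_mod_cast ha
      obtain ⟨g2, -, g3⟩ := mem_filter.1 ha'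
      have g4 := hf1 a ha'
      have g4' := (mem_sdiff.1 g4).1
      have g5 : (f a).1 ∈ W := by
        rw [hW]
        exact mem_image_of_mem _ g4
      have g6 : v ≠ (f a).1 := fun g7 => h.dw _ g4' P hP (g7 ▸ hvP)
      have g8 : ¬ G.Adj (f a).1 a := by
        have := h.bN _ g4'
        rwa [hf2 a ha'] at this
      have : (f a).1 ∈ W.filter fun w => G.Adj v w :=
        mem_filter.2 ⟨g5, h32 v hvH _ (h.bH _ g4') a g2 g6 (hf3 a ha').symm g3 g8⟩
      exact_mod_cast this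
    · intro a ha b hb hab
      have ha' : a ∈ C.filter (fun a => a ≠ v ∧ ¬ G.Adj v a) := by exact_mod_cast ha
      have hb' : b ∈ C.filter (fun a => a ≠ v ∧ ¬ G.Adj v a) := by exact_mod_cast hb
      rw [← hf2 a ha', ← hf2 b hb', h.b1 _ (mem_sdiff.1 (hf1 a ha')).1 _
        (mem_sdiff.1 (hf1 b hb')).1 hab]
  have h7' : ∑ v ∈ U, nd G C v ≤ ∑ v ∈ U, dg G W v := sum_le_sum h7
  have h8 : ((∑ e ∈ B \ Q, nd G C e.1 : ℕ) : ℤ) = ∑ e ∈ B \ Q, (nd G C e.1 : ℤ) := by
    push_cast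
    rfl
  rw [← h8, ← hW, ← hH', ← hcH]
  have h9 : ((Ps.card : ℤ) * Ps.card) ≤ E G U + Ps.card := by exact_mod_cast h6
  have h10 : ((E G U : ℤ) + 2 * ((∑ v ∈ U, dg G W v : ℕ) : ℤ)) + E G W ≤ E G H' := by
    exact_mod_cast h5
  have h11 : (((∑ v ∈ U, nd G C v : ℕ)) : ℤ) ≤ ((∑ v ∈ U, dg G W v : ℕ) : ℤ) := by
    exact_mod_cast h7'
  have h12 : (NE G (H' ∪ C) : ℤ) = NE G H' + 2 * ((∑ v ∈ U, nd G C v : ℕ) : ℤ)
      + 2 * ((∑ e ∈ B \ Q, nd G C e.1 : ℕ) : ℤ) := by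
    rw [h1, h2, h3]
    push_cast
    ring
  rw [h12]
  linarith

end PkT

section FrameT

variable {V : Type*} {G : SimpleGraph V} {Z T : Finset V} {hm : V → V} {r m n p : ℕ}
  {φ : Finset (V × V) → Finset (Finset V) → ℕ}
  {B : V → Finset (V × V)} {Ps : V → Finset (Finset V)}

variable (G Z T hm) in
/-- the only PC pair of the host `x` with tail `z` has a free arc and a tie -/
def TieP (B : V → Finset (V × V)) (x z : V) : Prop :=
  ∃ e, pcs (tlo G T hm) (B x) z = {e} ∧ 2 ≤ nd G (cz G Z T hm x) e.1 ∧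
    nd G (cz G Z T hm x) e.1 = nd G (cz G Z T hm z) e.1

/-- the excess of the only PC pair of a cell -/
lemma WHom.nxw_one (h : WHom G Z T r m n hm)
    (hB : ∀ x ∈ T, Pk G (cz G Z T hm x) (hz G Z T hm x) (tlo G T hm) (B x) (Ps x))
    {x z : V} (hx : x ∈ T) (hz' : z ∈ T) (hxz : x ≠ z) {e : V × V}
    (he : pcs (tlo G T hm) (B x) z = {e}) :
    nxw G Z T hm B x z = 2 * (nd G (cz G Z T hm x) e.1 : ℤ) := by
  have hD := h.csys.cellD h.F.toPFrame hx hz' hxz
  have hP := h.pcm hB hx hz' hxz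
  have h1 := hP.nex_le hD
  have h2 := hP.arcs_le hD
  unfold nxw
  rw [he, sum_singleton] at h1
  rw [he, sum_singleton, card_singleton] at h2
  rw [he]
  have h3 : ((msd G (cz G Z T hm x) e.1).card : ℤ) = (nd G (cz G Z T hm x) e.1 : ℤ) := by
    rw [msd_card]
  rw [← h3]
  zify at h1
  have h4 : (0 : ℤ) ≤ NE G (({e} : Finset (V × V)).image Prod.fst) := Nat.cast_nonneg _
  push_cast at h2
  linarith

/-- **a tie**: the member misses at most as many members at home as at its tail -/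
lemma WCoreK.tie_le (h : WCoreK G Z T r m n p hm) {x z v : V} (hx : x ∈ T)
    (hv : v ∈ hz G Z T hm x) (ht : tlo G T hm v = z)
    (hk : nd G (cz G Z T hm x) v = nd G (cz G Z T hm z) v) :
    (nd G (hz G Z T hm x) v : ℤ) ≤ hI G Z T hm Z z := by
  obtain ⟨h2, h3⟩ := mem_filter.1 (mem_HP.1 hv).1
  have h0 := h.toWHom.ht x hx v hv
  rw [ht] at h0
  have h4 := h.csys.ends_of_tlo h.hh hx hv ht
  have h5 : z ∈ rws G T v := by
    rw [rws_BB (h.hsys.HP_BB h.F.toPFrame h.ok hv), h4.2]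
    simp
  have h6 := h.H.swap_CP h.hsys h2 h3 (mem_of_mem_erase h0) (ne_of_mem_erase h0) h5
  have h7 : nd G (hz G Z T hm z) v ≤ (hz G Z T hm z).card := nd_le_card _ _
  have h8 : hI G Z T hm Z z = ((hz G Z T hm z).card : ℤ) := rfl
  rw [h8]
  have h9 : p * nd G (cz G Z T hm x) v + 2 * 1 * nd G (hz G Z T hm x) v
      ≤ p * nd G (cz G Z T hm z) v + 2 * 1 * nd G (hz G Z T hm z) v := h6
  rw [hk] at h9
  have h10 : nd G (hz G Z T hm x) v ≤ nd G (hz G Z T hm z) v := by omega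
  exact_mod_cast h10.trans h7

/-- the arcs of the PC pairs of a cell by the excess -/
lemma WHom.arcs_nxw (h : WHom G Z T r m n hm)
    (hB : ∀ x ∈ T, Pk G (cz G Z T hm x) (hz G Z T hm x) (tlo G T hm) (B x) (Ps x))
    {x z : V} (hx : x ∈ T) (hz' : z ∈ T) (hxz : x ≠ z) :
    2 * ∑ e ∈ pcs (tlo G T hm) (B x) z, (nd G (cz G Z T hm x) e.1 : ℤ)
      ≤ nxw G Z T hm B x z + E G ((pcs (tlo G T hm) (B x) z).image Prod.fst) := by
  have hD := h.csys.cellD h.F.toPFrame hx hz' hxz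
  have hP := h.pcm hB hx hz' hxz
  have h1 := hP.arcs_le hD
  have h2 := E_add_NE (G := G) ((pcs (tlo G T hm) (B x) z).image Prod.fst)
  have h3 : ((pcs (tlo G T hm) (B x) z).image Prod.fst).card = (pcs (tlo G T hm) (B x) z).card :=
    card_image_of_injOn fun e he f hf hef =>
      hP.i1 e (by exact_mod_cast he) f (by exact_mod_cast hf) hef
  rw [h3] at h2
  have h4 : ∑ e ∈ pcs (tlo G T hm) (B x) z, ((msd G (cz G Z T hm x) e.1).card : ℤ)
      = ∑ e ∈ pcs (tlo G T hm) (B x) z, (nd G (cz G Z T hm x) e.1 : ℤ) :=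
    sum_congr rfl fun e _ => by rw [msd_card]
  rw [h4] at h1
  unfold nxw
  linarith

/-- **the energy of a host with ties** -/
theorem WCoreK.energyTie (h : WCoreK G Z T r m n p hm)
    (hB : ∀ x ∈ T, PkOpt G (cz G Z T hm x) (hz G Z T hm x) (tlo G T hm) φ (B x) (Ps x))
    {x : V} (hx : x ∈ T) {J : Finset V} (hJ : J ⊆ T.erase x) (hJt : ∀ z ∈ J, TieP G Z T hm B x z) :
    2 * eI G hm Z x + (∑ u ∈ pkf (B x) (Ps x), (ivl u : ℤ) - J.card)
        * (∑ u ∈ pkf (B x) (Ps x), (ivl u : ℤ) - J.card + 1)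
      ≤ 2 * ((∑ u ∈ pkf (B x) (Ps x), (ivl u : ℤ) - J.card) * (hI G Z T hm Z x - J.card))
        + ∑ z ∈ T.erase x, nxw G Z T hm B x z + 2 * ∑ z ∈ J, hI G Z T hm Z z := by
  have hpk := fun x hx => (hB x hx).toPk
  have hBx := hB x hx
  have hCH := h.csys.dCH hx hx
  have h32 := h.csys.h32 h.F.toPFrame h.hh h.toWHom.ht hx
  have hC := h.csys.CP_clq h.F.toPFrame hx
  obtain ⟨C, hCd⟩ : ∃ C, C = cz G Z T hm x := ⟨_, rfl⟩
  obtain ⟨H, hHd⟩ : ∃ H, H = hz G Z T hm x := ⟨_, rfl⟩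
  obtain ⟨Q, hQd⟩ : ∃ Q, Q = (B x).filter fun e => tlo G T hm e.1 ∈ J := ⟨_, rfl⟩
  have hQB : Q ⊆ B x := by
    rw [hQd]
    exact filter_subset _ _
  have hBt : ∀ e ∈ B x, tlo G T hm e.1 ∈ T.erase x := fun e he =>
    h.toWHom.ht x hx e.1 (hBx.bH e he)
  have hpcQ : ∀ z ∈ J, Q.filter (fun e => tlo G T hm e.1 = z) = pcs (tlo G T hm) (B x) z := by
    intro z hz'
    ext e
    rw [mem_filter, hQd, mem_filter, mem_pcs]
    constructor
    · rintro ⟨⟨h1, -⟩, h2⟩
      exact ⟨h1, h2⟩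
    · rintro ⟨h1, h2⟩
      exact ⟨⟨h1, h2 ▸ hz'⟩, h2⟩
  have hpcR : ∀ z ∈ T.erase x, z ∉ J → (B x \ Q).filter (fun e => tlo G T hm e.1 = z)
      = pcs (tlo G T hm) (B x) z := by
    intro z _ hz'
    ext e
    rw [mem_filter, mem_sdiff, hQd, mem_filter, mem_pcs]
    constructor
    · rintro ⟨⟨h1, -⟩, h2⟩
      exact ⟨h1, h2⟩
    · rintro ⟨h1, h2⟩
      exact ⟨⟨h1, fun h3 => hz' (h2 ▸ h3.2)⟩, h2⟩
  have hQc : (Q.card : ℤ) = J.card := by
    have h1 : Q.card = ∑ z ∈ J, (Q.filter fun e => tlo G T hm e.1 = z).card :=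
      card_eq_sum_card_fiberwise fun e he => by
        have he' : e ∈ Q := by exact_mod_cast he
        rw [hQd] at he'
        exact_mod_cast (mem_filter.1 he').2
    rw [h1]
    push_cast
    rw [card_eq_sum_ones, Nat.cast_sum]
    refine sum_congr rfl fun z hz' => ?_
    obtain ⟨e, he, -⟩ := hJt z hz'
    rw [hpcQ z hz', he, card_singleton]
  -- the partners of Q
  have hown : ∀ e ∈ Q, ∀ P ∈ Ps x, ∀ w ∈ P, tlo G T hm w = tlo G T hm e.1 → G.Adj w e.2 := by
    intro e he P hP w hw ht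
    have heB := hQB he
    have heJ : tlo G T hm e.1 ∈ J := by
      rw [hQd] at he
      exact (mem_filter.1 he).2
    refine hBx.free_own heB ?_ hP hw ht
    obtain ⟨f, hf, hf2, -⟩ := hJt _ heJ
    have h1 : e ∈ pcs (tlo G T hm) (B x) (tlo G T hm e.1) := mem_pcs.2 ⟨heB, rfl⟩
    rw [hf, mem_singleton] at h1
    have hzT := mem_of_mem_erase (hJ heJ)
    have hxz := (ne_of_mem_erase (hJ heJ)).symm
    have h2 := h.toWHom.nxw_one hpk hx hzT hxz hf
    have h3 := h.toWHom.nxw_le hpk (tlo G T hm e.1) hx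
    have h4 : pcn (tlo G T hm) B x (tlo G T hm e.1) = 1 := by
      unfold pcn
      rw [hf, card_singleton]
      rfl
    rw [h2, h4, hf, sum_singleton] at h3
    have h5 : (2 : ℤ) ≤ nd G (cz G Z T hm x) f.1 := by exact_mod_cast hf2
    rw [h1]
    refine card_pos.1 ?_
    have h6 : (1 : ℤ) ≤ (frC G (cz G Z T hm x) (tlo G T hm) (B x) f.1).card := by linarith
    exact_mod_cast h6
  have h1 := hBx.energyT h32 hC hCH.symm hQB hown
  -- the arcs of the other PC pairs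
  have h2 : 2 * ∑ e ∈ B x \ Q, (nd G (cz G Z T hm x) e.1 : ℤ)
      ≤ ∑ z ∈ (T.erase x) \ J, nxw G Z T hm B x z + E G ((B x \ Q).image Prod.fst) := by
    have g1 : ∀ e ∈ B x \ Q, tlo G T hm e.1 ∈ (T.erase x) \ J := by
      intro e he
      obtain ⟨g2, g3⟩ := mem_sdiff.1 he
      exact mem_sdiff.2 ⟨hBt e g2, fun g4 => g3 (by
        rw [hQd]
        exact mem_filter.2 ⟨g2, g4⟩)⟩
    have g2 : ∑ e ∈ B x \ Q, (nd G (cz G Z T hm x) e.1 : ℤ)
        = ∑ z ∈ (T.erase x) \ J, ∑ e ∈ pcs (tlo G T hm) (B x) z,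
          (nd G (cz G Z T hm x) e.1 : ℤ) := by
      rw [← sum_fiberwise_of_maps_to (g := fun e : V × V => tlo G T hm e.1) g1]
      refine sum_congr rfl fun z hz' => ?_
      obtain ⟨g3, g4⟩ := mem_sdiff.1 hz'
      rw [hpcR z g3 g4]
    have g3 : ∀ v ∈ (B x \ Q).image Prod.fst, tlo G T hm v ∈ (T.erase x) \ J := by
      intro v hv
      obtain ⟨e, he, rfl⟩ := mem_image.1 hv
      exact g1 e he
    have g4 := sum_E_filter (G := G) ((B x \ Q).image Prod.fst) (tlo G T hm)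
      ((T.erase x) \ J) g3
    have g5 : ∀ z ∈ (T.erase x) \ J, (((B x \ Q).image Prod.fst).filter
        fun v => tlo G T hm v = z) = (pcs (tlo G T hm) (B x) z).image Prod.fst := by
      intro z hz'
      obtain ⟨g6, g7⟩ := mem_sdiff.1 hz'
      rw [← hpcR z g6 g7]
      ext v
      simp only [mem_filter, mem_image]
      constructor
      · rintro ⟨⟨e, he, rfl⟩, h3⟩
        exact ⟨e, ⟨he, h3⟩, rfl⟩
      · rintro ⟨e, ⟨he, h3⟩, rfl⟩
        exact ⟨⟨e, he, rfl⟩, h3⟩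
    have g6 : ∑ z ∈ (T.erase x) \ J, (E G ((pcs (tlo G T hm) (B x) z).image Prod.fst) : ℤ)
        ≤ E G ((B x \ Q).image Prod.fst) := by
      have g7 : ∑ z ∈ (T.erase x) \ J, E G ((pcs (tlo G T hm) (B x) z).image Prod.fst)
          ≤ E G ((B x \ Q).image Prod.fst) := by
        refine le_trans (le_of_eq ?_) g4
        exact sum_congr rfl fun z hz' => by rw [g5 z hz']
      exact_mod_cast g7
    have g7 := sum_le_sum fun z (hz' : z ∈ (T.erase x) \ J) =>
      h.toWHom.arcs_nxw hpk hx (mem_of_mem_erase (mem_sdiff.1 hz').1)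
        (ne_of_mem_erase (mem_sdiff.1 hz').1).symm
    rw [sum_add_distrib, ← mul_sum] at g7
    rw [g2]
    linarith
  -- the members of Q
  have hQf : Q.image Prod.fst ⊆ hz G Z T hm x := by
    intro v hv
    obtain ⟨e, he, rfl⟩ := mem_image.1 hv
    exact hBx.bH e (hQB he)
  have h3 : (NE G (hz G Z T hm x ∪ cz G Z T hm x) : ℤ)
      ≤ NE G ((hz G Z T hm x \ Q.image Prod.fst) ∪ cz G Z T hm x)
        + 2 * ∑ v ∈ Q.image Prod.fst, ((nd G (hz G Z T hm x) v : ℤ)
          + nd G (cz G Z T hm x) v) := by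
    have g1 : hz G Z T hm x ∪ cz G Z T hm x
        = ((hz G Z T hm x \ Q.image Prod.fst) ∪ cz G Z T hm x) ∪ Q.image Prod.fst := by
      ext v
      simp only [mem_union, mem_sdiff]
      constructor
      · rintro (g2 | g2)
        · by_cases g3 : v ∈ Q.image Prod.fst
          · exact Or.inr g3
          · exact Or.inl (Or.inl ⟨g2, g3⟩)
        · exact Or.inl (Or.inr g2)
      · rintro ((⟨g2, -⟩ | g2) | g2)
        · exact Or.inl g2
        · exact Or.inr g2
        · exact Or.inl (hQf g2)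
    have g2 : Disjoint ((hz G Z T hm x \ Q.image Prod.fst) ∪ cz G Z T hm x)
        (Q.image Prod.fst) := by
      rw [disjoint_left]
      intro v hv hv'
      rcases mem_union.1 hv with g3 | g3
      · exact (mem_sdiff.1 g3).2 hv'
      · exact disjoint_left.1 hCH g3 (hQf hv')
    have g3 := NE_union (G := G) g2
    have g4 : Disjoint (hz G Z T hm x \ Q.image Prod.fst) (cz G Z T hm x) :=
      hCH.symm.mono_left sdiff_subset
    have g5 : ∀ v, nd G ((hz G Z T hm x \ Q.image Prod.fst) ∪ cz G Z T hm x) v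
        = nd G (hz G Z T hm x \ Q.image Prod.fst) v + nd G (cz G Z T hm x) v :=
      fun v => nd_union g4 v
    have g6 : ∀ v, nd G (hz G Z T hm x \ Q.image Prod.fst) v + nd G (Q.image Prod.fst) v
        = nd G (hz G Z T hm x) v := by
      intro v
      have g7 := nd_union (G := G) (A := hz G Z T hm x \ Q.image Prod.fst)
        (B := Q.image Prod.fst) sdiff_disjoint v
      rw [sdiff_union_of_subset hQf] at g7
      exact g7.symm
    rw [g1, g3]
    have g7 : NE G (Q.image Prod.fst) = ∑ v ∈ Q.image Prod.fst, nd G (Q.image Prod.fst) v := rfl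
    have g8 : ∑ v ∈ Q.image Prod.fst,
        nd G ((hz G Z T hm x \ Q.image Prod.fst) ∪ cz G Z T hm x) v
        + ∑ v ∈ Q.image Prod.fst, nd G (Q.image Prod.fst) v
        = ∑ v ∈ Q.image Prod.fst, (nd G (hz G Z T hm x) v + nd G (cz G Z T hm x) v) := by
      rw [← sum_add_distrib]
      refine sum_congr rfl fun v _ => ?_
      have g9 := g5 v
      have g10 := g6 v
      omega
    have g9 : (∑ v ∈ Q.image Prod.fst, ((nd G (hz G Z T hm x) v : ℤ)
        + nd G (cz G Z T hm x) v)) = ((∑ v ∈ Q.image Prod.fst,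
          (nd G (hz G Z T hm x) v + nd G (cz G Z T hm x) v) : ℕ) : ℤ) := by
      push_cast
      rfl
    rw [g9, ← g8, ← g7]
    push_cast
    have g10 : (0 : ℤ) ≤ NE G (Q.image Prod.fst) := Nat.cast_nonneg _
    linarith
  have h4 : ∑ v ∈ Q.image Prod.fst, ((nd G (hz G Z T hm x) v : ℤ) + nd G (cz G Z T hm x) v)
      = ∑ z ∈ J, ∑ e ∈ pcs (tlo G T hm) (B x) z,
        ((nd G (hz G Z T hm x) e.1 : ℤ) + nd G (cz G Z T hm x) e.1) := by
    rw [sum_image fun e he f hf hef =>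
      hBx.b1 e (hQB (by exact_mod_cast he)) f (hQB (by exact_mod_cast hf)) hef]
    rw [← sum_fiberwise_of_maps_to (g := fun e : V × V => tlo G T hm e.1) (t := J) (fun e he => by
      rw [hQd] at he
      exact (mem_filter.1 he).2)]
    exact sum_congr rfl fun z hz' => by rw [hpcQ z hz']
  have h5 : ∀ z ∈ J, 2 * ∑ e ∈ pcs (tlo G T hm) (B x) z,
        ((nd G (hz G Z T hm x) e.1 : ℤ) + nd G (cz G Z T hm x) e.1)
      ≤ 2 * hI G Z T hm Z z + nxw G Z T hm B x z := by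
    intro z hz'
    obtain ⟨e, he, -, he3⟩ := hJt z hz'
    have hzT := mem_of_mem_erase (hJ hz')
    have hxz := (ne_of_mem_erase (hJ hz')).symm
    have g1 : e ∈ pcs (tlo G T hm) (B x) z := by
      rw [he]
      exact mem_singleton_self _
    obtain ⟨g2, g3⟩ := mem_pcs.1 g1
    rw [h.toWHom.nxw_one hpk hx hzT hxz he, he, sum_singleton]
    have g4 := h.tie_le hx (hBx.bH e g2) g3 he3
    linarith
  have h6 := sum_le_sum h5
  rw [← mul_sum, sum_add_distrib, ← mul_sum] at h6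
  have h7 : ∑ z ∈ J, nxw G Z T hm B x z + ∑ z ∈ (T.erase x) \ J, nxw G Z T hm B x z
      = ∑ z ∈ T.erase x, nxw G Z T hm B x z := by
    rw [add_comm]
    exact sum_sdiff hJ
  have h8 := two_eI (G := G) (hm := hm) Z x
  have h9 : hz G Z T hm x ∪ cz G Z T hm x = Z.filter fun v => hm v = x := by
    rw [union_comm]
    exact CP_union_HP
  have h10 := hBx.toPk.sum_ivl
  have h11 : ∑ u ∈ pkf (B x) (Ps x), (ivl u : ℤ) + (Ps x).card
      = ((hz G Z T hm x).card : ℤ) := by exact_mod_cast h10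
  have h12 : hI G Z T hm Z x = ((hz G Z T hm x).card : ℤ) := rfl
  rw [h8, ← h9, h12]
  rw [h4] at h3
  rw [hQc] at h1
  obtain ⟨mu, hmu⟩ : ∃ mu : ℤ, mu = ∑ u ∈ pkf (B x) (Ps x), (ivl u : ℤ) := ⟨_, rfl⟩
  rw [← hmu] at h11 ⊢
  obtain ⟨P, hP⟩ : ∃ P : ℤ, P = ((Ps x).card : ℤ) := ⟨_, rfl⟩
  obtain ⟨Hc, hHc⟩ : ∃ Hc : ℤ, Hc = ((hz G Z T hm x).card : ℤ) := ⟨_, rfl⟩
  rw [← hP, ← hHc] at h11
  rw [← hP, ← hHc] at h1
  rw [← hHc]
  have h13 : P = Hc - mu := by linarith
  rw [h13] at h1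
  nlinarith

/-- **the only PC pair of a cell without a tie** -/
theorem WCoreK.nontie (hp : 2 * r ≤ p) (h : WCoreK G Z T r m n p hm)
    (hB : ∀ x ∈ T, Pk G (cz G Z T hm x) (hz G Z T hm x) (tlo G T hm) (B x) (Ps x))
    {x z : V} (hx : x ∈ T) (hz' : z ∈ T) (hxz : x ≠ z)
    (h1 : pcn (tlo G T hm) B x z = 1) (hn : ¬ TieP G Z T hm B x z) :
    nxw G Z T hm B x z * (nxw G Z T hm B x z - 2)
      ≤ 4 * (tI G Z T hm r Z x * tI G Z T hm r Z z + 1) := by
  have h2 : (pcs (tlo G T hm) (B x) z).card = 1 := by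
    have h3 : ((pcs (tlo G T hm) (B x) z).card : ℤ) = 1 := h1
    exact_mod_cast h3
  obtain ⟨e, he⟩ := card_eq_one.1 h2
  have heP : e ∈ pcs (tlo G T hm) (B x) z := by
    rw [he]
    exact mem_singleton_self _
  obtain ⟨heB, hey⟩ := mem_pcs.1 heP
  have hvH := (hB x hx).bH e heB
  have hD := h.csys.cellD h.F.toPFrame hx hz' hxz
  have hvD := h.csys.mem_Dbl_of_tlo h.hh hx hvH hey
  rw [h.toWHom.nxw_one hB hx hz' hxz he]
  have ht : ∀ z ∈ T, 0 ≤ tI G Z T hm r Z z := fun z hz'' => h.hsys.tI_nonneg h.F h.ok hz''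
  have h3 := mul_nonneg (ht x hx) (ht z hz')
  obtain ⟨k, hk⟩ : ∃ k : ℤ, k = (nd G (cz G Z T hm x) e.1 : ℤ) := ⟨_, rfl⟩
  have hk0 : 0 ≤ k := by
    rw [hk]
    exact Nat.cast_nonneg _
  rw [← hk]
  by_cases h4 : 2 ≤ nd G (cz G Z T hm x) e.1
  · have h5 : nd G (cz G Z T hm x) e.1 ≠ nd G (cz G Z T hm z) e.1 := fun h6 =>
      hn ⟨e, he, h4, h6⟩
    have h6 := h.msd_le hp hx hvH hey
    rw [msd_card, msd_card] at h6
    have h7 : nd G (cz G Z T hm x) e.1 + 1 ≤ nd G (cz G Z T hm z) e.1 := by omega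
    have h8 := hD.one h.gp.P (h.csys.CP_clq h.F.toPFrame hx) (h.csys.CP_clq h.F.toPFrame hz')
      (h.wsysT.dCC x hx z hz' hxz) hvD
      ((hD.mem_msd hvD).2 ⟨(hB x hx).bC e heB, (hB x hx).bN e heB⟩)
    rw [msd_card, msd_card, ← hk] at h8
    have h9 : ((r : ℤ) - 1 - (cz G Z T hm x).card) * ((r : ℤ) - 1 - (cz G Z T hm z).card)
        = tI G Z T hm r Z x * tI G Z T hm r Z z := by
      unfold tI
      ring
    rw [h9] at h8
    have h10 : k + 1 ≤ (nd G (cz G Z T hm z) e.1 : ℤ) := by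
      rw [hk]
      exact_mod_cast h7
    have h11 : (2 : ℤ) ≤ k := by
      rw [hk]
      exact_mod_cast h4
    nlinarith
  · have h5 : nd G (cz G Z T hm x) e.1 ≤ 1 := by omega
    have h6 : k ≤ 1 := by
      rw [hk]
      exact_mod_cast h5
    nlinarith

end FrameT

section StrT

variable {ι : Type*}

/-- **the items, version [C], with the tie rule**: `ti i j = 1` when the only PC pair of `i` with tail `j`
is a tie -/
structure ItT (R : ℤ) (n : ℕ) (t s h e : ℕ → ℤ) (E : ℕ → ℕ → ℤ) (U : Finset ι)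
    (ho : ι → ℕ) (vl : ι → ℤ) (kp ms mr : ℕ → ι → ℤ) (mu Nb : ℕ → ℤ) (Nx : ℕ → ℕ → ℤ)
    (be : ℕ → ℕ → ℤ) (ls : ℕ → ℤ → ℤ) (pc ar : ι → ℤ) (aT : ℕ → ℤ)
    (NN FF pw : ℕ → ℕ → ℤ) (nu : ℕ → ι → ℤ) (ti : ℕ → ℕ → ℤ) : Prop
    extends ItC R n t s h e E U ho vl kp ms mr mu Nb Nx be ls pc ar aT NN FF pw nu where
  ti01 : ∀ i < n, ∀ j < n, ti i j = 0 ∨ ti i j = 1
  tib : ∀ i < n, ∀ j < n, ti i j = 1 → be i j = 1
  tin : ∀ i < n, ∀ j < n, i ≠ j → be i j = 1 → ti i j = 0 →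
    NN i j * (NN i j - 2) ≤ 4 * (t i * t j + 1)
  tie : ∀ i < n, ∀ J ⊆ (range n).erase i, (∀ j ∈ J, ti i j = 1) →
    2 * e i + (mu i - J.card) * (mu i - J.card + 1)
      ≤ 2 * ((mu i - J.card) * (h i - J.card)) + ∑ j ∈ (range n).erase i, NN i j
        + 2 * ∑ j ∈ J, h j

end StrT

section TransT

variable {V : Type*} {G : SimpleGraph V} {Z T : Finset V} {hm : V → V} {r m n p : ℕ}
  {φ : Finset (V × V) → Finset (Finset V) → ℕ} {B : V → Finset (V × V)}
  {Ps : V → Finset (Finset V)} {host : Itm V → V} {ρ : V → ℕ} {σ : ℕ → V}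

/-- **the transport to `ItT`** -/
theorem WItC.itt (hp : 2 * r ≤ p) (h : WCoreK G Z T r m n p hm)
    (H : WItC G Z T hm r n φ B Ps host ρ σ) :
    ItT ((r : ℤ) - 1) n (fun i => tI G Z T hm r Z (σ i)) (fun i => sI hm r Z (σ i))
      (fun i => hI G Z T hm Z (σ i)) (fun i => eI G hm Z (σ i))
      (fun i j => EI G hm Z (σ i) (σ j)) (T.biUnion fun x => pkf (B x) (Ps x))
      (fun u => ρ (host u)) (fun u => (ivl u : ℤ)) (fun i u => (ikp (tlo G T hm) (σ i) u : ℤ))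
      (fun i u => (ims G (cz G Z T hm) (tlo G T hm) (σ i) u : ℤ))
      (fun i u => (rmr G (cz G Z T hm) (tlo G T hm) (σ i) u : ℤ))
      (fun i => ∑ u ∈ pkf (B (σ i)) (Ps (σ i)), (ivl u : ℤ))
      (fun i => ∑ z ∈ T.erase (σ i), nxw G Z T hm B (σ i) z) (fun _ _ => 0)
      (fun i j => pcn (tlo G T hm) B (σ i) (σ j))
      (fun i q => lsx G (cz G Z T hm (σ i)) (hz G Z T hm (σ i)) q)
      (fun u => (ipc u : ℤ)) (fun u => (iar G (cz G Z T hm (host u)) u : ℤ))
      (fun i => ∑ v ∈ hz G Z T hm (σ i), (nd G (cz G Z T hm (σ i)) v : ℤ))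
      (fun i j => nxw G Z T hm B (σ i) (σ j)) (fun i j => fcw G Z T hm B (σ i) (σ j))
      (fun i j => pfw G (cz G Z T hm (σ i)) (tlo G T hm) (B (σ i)) (σ j))
      (fun j u => (nui G (cz G Z T hm (host u)) (tlo G T hm) (B (host u)) (σ j) u : ℤ))
      (fun i j => if TieP G Z T hm B (σ i) (σ j) then 1 else 0) := by
  have hcard := h.cardT
  have hmem : ∀ i < n, σ i ∈ T := fun i hi => H.rk.mem i (by rw [hcard]; exact hi)
  have hne : ∀ i < n, ∀ j < n, i ≠ j → σ i ≠ σ j := fun i hi j hj hij h1 =>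
    hij (H.rk.sinj (by rw [hcard]; exact hi) (by rw [hcard]; exact hj) h1)
  refine ⟨H.itc hp h, fun i _ j _ => ?_, fun i _ j _ h1 => ?_, fun i hi j hj hij h1 h2 => ?_,
    fun i hi J hJ hJt => ?_⟩
  · by_cases h1 : TieP G Z T hm B (σ i) (σ j)
    · exact Or.inr (if_pos h1)
    · exact Or.inl (if_neg h1)
  · by_cases h2 : TieP G Z T hm B (σ i) (σ j)
    · obtain ⟨e, he, -⟩ := h2
      show pcn (tlo G T hm) B (σ i) (σ j) = 1
      unfold pcn
      rw [he, card_singleton]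
      rfl
    · exact absurd (h1 : (if TieP G Z T hm B (σ i) (σ j) then (1 : ℤ) else 0) = 1)
        (by rw [if_neg h2]; norm_num)
  · refine h.nontie hp (fun x hx => (H.pk x hx).toPk) (hmem i hi) (hmem j hj)
      (hne i hi j hj hij) h1 fun h3 => ?_
    exact absurd (h2 : (if TieP G Z T hm B (σ i) (σ j) then (1 : ℤ) else 0) = 0)
      (by rw [if_pos h3]; norm_num)
  · have hlt : ∀ j ∈ J, j < n := fun j hj => mem_range.1 (mem_of_mem_erase (hJ hj))
    have hJn : J ⊆ range T.card := fun j hj => by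
      rw [hcard]
      exact mem_range.2 (hlt j hj)
    have h1 := h.energyTie H.pk (hmem i hi) (J := J.image σ) (fun z hz' => by
        obtain ⟨j, hj, rfl⟩ := mem_image.1 hz'
        exact mem_erase.2 ⟨hne j (hlt j hj) i hi (ne_of_mem_erase (hJ hj)), hmem j (hlt j hj)⟩)
      (fun z hz' => by
        obtain ⟨j, hj, rfl⟩ := mem_image.1 hz'
        by_contra h2
        exact absurd (hJt j hj : (if TieP G Z T hm B (σ i) (σ j) then (1 : ℤ) else 0) = 1)
          (by rw [if_neg h2]; norm_num))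
    have h2 := H.rk.sum_er (i := i) (by rw [hcard]; exact hi) fun z => nxw G Z T hm B (σ i) z
    rw [hcard] at h2
    rw [h2, H.rk.card_image hJn, H.rk.sum_im hJn] at h1
    exact h1

end TransT

section FalT

/-- there are no items, version [C] with the tie rule, over `R` with `n` rows and `∑ h ≤ H`, sorted -/
def NoItT (R H : ℤ) (n : ℕ) : Prop :=
  ∀ (ι : Type) (t s h e : ℕ → ℤ) (E : ℕ → ℕ → ℤ) (U : Finset ι) (ho : ι → ℕ) (vl : ι → ℤ)
    (kp ms mr mn : ℕ → ι → ℤ) (mu Nb : ℕ → ℤ) (Nx : ℕ → ℕ → ℤ) (be : ℕ → ℕ → ℤ) (ls : ℕ → ℤ → ℤ)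
    (pc ar : ι → ℤ) (aT : ℕ → ℤ) (NN FF pw : ℕ → ℕ → ℤ) (nu : ℕ → ι → ℤ) (ti : ℕ → ℕ → ℤ),
    ItT R n t s h e E U ho vl kp ms mr mu Nb Nx be ls pc ar aT NN FF pw nu ti →
    LvI R n t s h e U ho vl kp ms mr mn mu be pc ar →
    ∑ i ∈ range n, h i ≤ H →
    (∀ i j, i ≤ j → j < n → t j < t i ∨ t j = t i ∧ (h j < h i ∨ h j = h i ∧ mu j ≤ mu i)) →
    False

lemma NoItC.t {R H : ℤ} {n : ℕ} (h : NoItC R H n) : NoItT R H n :=
  fun ι t s h' e E U ho vl kp ms mr mn mu Nb Nx be ls pc ar aT NN FF pw nu _ h1 h2 h3 h4 =>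
    h ι t s h' e E U ho vl kp ms mr mn mu Nb Nx be ls pc ar aT NN FF pw nu h1.toItC h2 h3 h4

lemma NoItT.mono {R H H' : ℤ} {n : ℕ} (h : NoItT R H' n) (hH : H ≤ H') : NoItT R H n :=
  fun ι t s h' e E U ho vl kp ms mr mn mu Nb Nx be ls pc ar aT NN FF pw nu ti h1 h2 h3 h4 =>
    h ι t s h' e E U ho vl kp ms mr mn mu Nb Nx be ls pc ar aT NN FF pw nu ti h1 h2
      (h3.trans hH) h4

variable {V : Type} {G : SimpleGraph V} {Z T : Finset V} {hm : V → V} {r m n p : ℕ} {H : ℤ}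

/-- **no frame of least level with homes of least weight and at most `H` doubles** -/
theorem NoItT.wcoreK (hS : NoItT ((r : ℤ) - 1) H n) (hp : 2 * r ≤ p)
    (hb : ((BB G Z T).card : ℤ) ≤ H) : ¬ WCoreK G Z T r m n p hm := by
  intro h
  obtain ⟨B, Ps, host, ρ, σ, h0, h1⟩ := h.toWHom.exists_witcM fun _ _ => 0
  exact hS _ _ _ _ _ _ _ _ _ _ _ _ _ _ _ _ _ _ _ _ _ _ _ _ _ _ (h0.itt hp h)
    (h.toWHom.lvi (fun x hx => (h0.pk x hx).toPk) h0.hst h0.rk)
    ((h.toWHom.sum_h_bb h0.rk).trans hb) h1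

/-- **no frame of least level with at most `H` doubles** -/
theorem NoItT.wbase (hS : NoItT ((r : ℤ) - 1) H n) (hb : ((BB G Z T).card : ℤ) ≤ H) :
    ¬ WBase G Z T r m n := by
  intro h
  obtain ⟨hm, hH⟩ := h.hsys.exists_whomes (2 * r) 1
  exact NoItT.wcoreK (hm := hm) hS le_rfl hb ⟨⟨h, hH.hh, hH.ok⟩, hH⟩

/-- no frame of least level with at most `m ≤ H` doubles -/
theorem NoItT.wbase_m (hS : NoItT ((r : ℤ) - 1) H n) (hm : (m : ℤ) ≤ H) :
    ¬ WBase G Z T r m n := by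
  intro h
  refine NoItT.wbase hS ?_ h
  have h1 := h.F.toPFrame.b
  have h2 : ((BB G Z T).card : ℤ) ≤ m := by exact_mod_cast h1
  linarith

/-- **the statement at `r` from the absence of items over `r - 1`** -/
theorem good_of_noitT (r : ℕ) (hr : 9 ≤ r)
    (hS : ∀ n : ℕ, 5 ≤ n → n + 5 ≤ r → NoItT ((r : ℤ) - 1) r n) : Good r (r ^ 2 + 1) := by
  refine good_of_wbase r hr fun G m n Z T h => ?_
  exact NoItT.wbase (hS n h.five h.nr) (by exact_mod_cast h.bb.2) h

end FalT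

end Pool.Agent.Lib.MP_f04ccf_co
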