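import Pool.Agent.Lib.MP_f04ccf_co.M.FinC9
import Pool.Agent.Lib.MP_f04ccf_co.M.FinA10
import Pool.Agent.Lib.MP_f04ccf_co.M.FinC10
import Pool.Agent.Lib.MP_f04ccf_co.M.FinB10_6
import Pool.Agent.Lib.MP_f04ccf_co.M.FinA11
import Pool.Agent.Lib.MP_f04ccf_co.M.FinC11
import Pool.Agent.Lib.MP_f04ccf_co.M.FinB11_6
import Pool.Agent.Lib.MP_f04ccf_co.M.FinB11_7
import Pool.Agent.Lib.MP_f04ccf_co.M.FinA12
import Pool.Agent.Lib.MP_f04ccf_co.M.FinC12
import Pool.Agent.Lib.MP_f04ccf_co.M.FinB12_6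
import Pool.Agent.Lib.MP_f04ccf_co.M.FinB12_7
import Pool.Agent.Lib.MP_f04ccf_co.M.FinB12_8
import Pool.Agent.Lib.MP_f04ccf_co.M.FinA13
import Pool.Agent.Lib.MP_f04ccf_co.M.FinB13_6
import Pool.Agent.Lib.MP_f04ccf_co.M.FinB13_7
import Pool.Agent.Lib.MP_f04ccf_co.M.FinB13_8
import Pool.Agent.Lib.MP_f04ccf_co.M.FinB13_9
import Pool.Agent.Lib.MP_f04ccf_co.M.FinA14
import Pool.Agent.Lib.MP_f04ccf_co.M.FinB14_6
import Pool.Agent.Lib.MP_f04ccf_co.M.FinB14_7
import Pool.Agent.Lib.MP_f04ccf_co.M.FinB14_8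
import Pool.Agent.Lib.MP_f04ccf_co.M.FinB14_9
import Pool.Agent.Lib.MP_f04ccf_co.M.FinB14_10
import Pool.Agent.Lib.MP_f04ccf_co.M.FinA15
import Pool.Agent.Lib.MP_f04ccf_co.M.FinB15_6
import Pool.Agent.Lib.MP_f04ccf_co.M.FinB15_7
import Pool.Agent.Lib.MP_f04ccf_co.M.FinB15_8
import Pool.Agent.Lib.MP_f04ccf_co.M.FinB15_9
import Pool.Agent.Lib.MP_f04ccf_co.M.FinB15_10
import Pool.Agent.Lib.MP_f04ccf_co.M.FinB15_11
import Pool.Agent.Lib.MP_f04ccf_co.M.TieC
import Pool.Agent.Lib.MP_f04ccf_co.M.ExcR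

/-!
MP_f04ccf_co, PLAN W, **the finite part**: `9 ≤ R ≤ 15`.
`finA`: the main case `∑ h ≤ r - 1`; `finB`: the exceptional case `∑ h ≤ r` for the numbers of rows which
satisfy `Exc.QQ`.
-/

set_option autoImplicit false

namespace Pool.Agent.Lib.MP_f04ccf_co

lemma NoItC.toT {R H : ℤ} {n : ℕ} (h : NoItC R H n) {R' H' : ℤ} (hR : R' = R) (hH : H' ≤ H) :
    NoItT R' H' n := by
  subst hR
  exact (h.mono hH).t

/-- **the main case** -/
theorem finA {r : ℕ} (h1 : 10 ≤ r) (h2 : r ≤ 16) {n : ℕ} (h5 : 5 ≤ n) (hn : n + 6 ≤ r) :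
    NoItT ((r : ℤ) - 1) ((r : ℤ) - 1) n := by
  have hr : r = 11 ∨ r = 12 ∨ r = 13 ∨ r = 14 ∨ r = 15 ∨ r = 16 := by omega
  rcases hr with rfl | rfl | rfl | rfl | rfl | rfl
  · have hn' : n = 5 := by omega
    subst hn'
    exact NoItC.toT noItC10_5_10 (by norm_num) (by norm_num)
  · have hn' : n = 5 ∨ n = 6 := by omega
    rcases hn' with rfl | rfl
    · exact NoItC.toT noItC11_5_11 (by norm_num) (by norm_num)
    · exact NoItC.toT noItC11_6_12 (by norm_num) (by norm_num)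
  · have hn' : n = 5 ∨ n = 6 ∨ n = 7 := by omega
    rcases hn' with rfl | rfl | rfl
    · exact NoItC.toT noItC12_5_12 (by norm_num) (by norm_num)
    · exact NoItC.toT noItC12_6_13 (by norm_num) (by norm_num)
    · exact NoItC.toT noItC12_7_13 (by norm_num) (by norm_num)
  · have hn' : n = 5 ∨ n = 6 ∨ n = 7 ∨ n = 8 := by omega
    rcases hn' with rfl | rfl | rfl | rfl
    · exact NoItC.toT noItC13_5_13 (by norm_num) (by norm_num)
    · exact NoItC.toT noItC13_6_14 (by norm_num) (by norm_num)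
    · exact NoItC.toT noItC13_7_14 (by norm_num) (by norm_num)
    · exact NoItC.toT noItC13_8_14 (by norm_num) (by norm_num)
  · have hn' : n = 5 ∨ n = 6 ∨ n = 7 ∨ n = 8 ∨ n = 9 := by omega
    rcases hn' with rfl | rfl | rfl | rfl | rfl
    · exact NoItC.toT noItC14_5_14 (by norm_num) (by norm_num)
    · exact NoItC.toT noItC14_6_15 (by norm_num) (by norm_num)
    · exact NoItC.toT noItC14_7_15 (by norm_num) (by norm_num)
    · exact NoItC.toT noItC14_8_15 (by norm_num) (by norm_num)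
    · exact NoItC.toT noItC14_9_15 (by norm_num) (by norm_num)
  · have hn' : n = 5 ∨ n = 6 ∨ n = 7 ∨ n = 8 ∨ n = 9 ∨ n = 10 := by omega
    rcases hn' with rfl | rfl | rfl | rfl | rfl | rfl
    · exact NoItC.toT noItC15_5_15 (by norm_num) (by norm_num)
    · exact NoItC.toT noItC15_6_16 (by norm_num) (by norm_num)
    · exact NoItC.toT noItC15_7_16 (by norm_num) (by norm_num)
    · exact NoItC.toT noItC15_8_16 (by norm_num) (by norm_num)
    · exact NoItC.toT noItC15_9_16 (by norm_num) (by norm_num)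
    · exact NoItC.toT noItC15_10_16 (by norm_num) (by norm_num)

/-- **the exceptional case** -/
theorem finB {r : ℕ} (h1 : 10 ≤ r) (h2 : r ≤ 16) {n : ℕ} (h5 : 5 ≤ n) (hn : n + 5 ≤ r)
    (hQ : Exc.QQ r n) : NoItT ((r : ℤ) - 1) r n := by
  have hr : r = 10 ∨ r = 11 ∨ r = 12 ∨ r = 13 ∨ r = 14 ∨ r = 15 ∨ r = 16 := by omega
  rcases hr with rfl | rfl | rfl | rfl | rfl | rfl | rfl
  · have hn' : n = 5 := by omega
    subst hn'
    exact NoItC.toT noItC9_5_10 (by norm_num) (by norm_num)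
  · have hn' : n = 5 ∨ n = 6 := by omega
    rcases hn' with rfl | rfl
    · exact NoItC.toT noItC10_5_11 (by norm_num) (by norm_num)
    · exact NoItC.toT noItC10_6_11 (by norm_num) (by norm_num)
  · have hn' : n = 5 ∨ n = 6 ∨ n = 7 := by omega
    rcases hn' with rfl | rfl | rfl
    · exact NoItC.toT noItC11_5_12 (by norm_num) (by norm_num)
    · exact NoItC.toT noItC11_6_12 (by norm_num) (by norm_num)
    · exact NoItC.toT noItC11_7_12 (by norm_num) (by norm_num)
  · have hn' : n = 5 ∨ n = 6 ∨ n = 7 ∨ n = 8 := by omega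
    rcases hn' with rfl | rfl | rfl | rfl
    · exact NoItC.toT noItC12_5_13 (by norm_num) (by norm_num)
    · exact NoItC.toT noItC12_6_13 (by norm_num) (by norm_num)
    · exact NoItC.toT noItC12_7_13 (by norm_num) (by norm_num)
    · exact NoItC.toT noItC12_8_13 (by norm_num) (by norm_num)
  · have hn' : n = 5 ∨ n = 6 ∨ n = 7 ∨ n = 8 ∨ n = 9 := by omega
    rcases hn' with rfl | rfl | rfl | rfl | rfl
    · exact absurd hQ (by norm_num [Exc.QQ])
    · exact NoItC.toT noItC13_6_14 (by norm_num) (by norm_num)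
    · exact NoItC.toT noItC13_7_14 (by norm_num) (by norm_num)
    · exact NoItC.toT noItC13_8_14 (by norm_num) (by norm_num)
    · exact NoItC.toT noItC13_9_14 (by norm_num) (by norm_num)
  · have hn' : n = 5 ∨ n = 6 ∨ n = 7 ∨ n = 8 ∨ n = 9 ∨ n = 10 := by omega
    rcases hn' with rfl | rfl | rfl | rfl | rfl | rfl
    · exact absurd hQ (by norm_num [Exc.QQ])
    · exact NoItC.toT noItC14_6_15 (by norm_num) (by norm_num)
    · exact NoItC.toT noItC14_7_15 (by norm_num) (by norm_num)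
    · exact NoItC.toT noItC14_8_15 (by norm_num) (by norm_num)
    · exact NoItC.toT noItC14_9_15 (by norm_num) (by norm_num)
    · exact NoItC.toT noItC14_10_15 (by norm_num) (by norm_num)
  · have hn' : n = 5 ∨ n = 6 ∨ n = 7 ∨ n = 8 ∨ n = 9 ∨ n = 10 ∨ n = 11 := by omega
    rcases hn' with rfl | rfl | rfl | rfl | rfl | rfl | rfl
    · exact absurd hQ (by norm_num [Exc.QQ])
    · exact NoItC.toT noItC15_6_16 (by norm_num) (by norm_num)
    · exact NoItC.toT noItC15_7_16 (by norm_num) (by norm_num)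
    · exact NoItC.toT noItC15_8_16 (by norm_num) (by norm_num)
    · exact NoItC.toT noItC15_9_16 (by norm_num) (by norm_num)
    · exact NoItC.toT noItC15_10_16 (by norm_num) (by norm_num)
    · exact NoItC.toT noItC15_11_16 (by norm_num) (by norm_num)

end Pool.Agent.Lib.MP_f04ccf_co
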