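import Pool.Agent.Lib.MP_f04ccf_co.M.FinX

/-!
MP_f04ccf_co, PLAN W, finite part: `R = 12`, `n = 6` rows, `∑ h ≤ 13` (loads or patterns).
Generated (helper11, gen.py, mk4.py): the table of all rows `(t, h, mu, b)` which pass the row filter `Kern.okE`,
`b` a bound for `h - t` on the rest of the table; the enumeration in blocks of first rows with the leaf
`(fun l => Le.ld4 12 6 l || PatX.patX 12 6 cl6 l)`, checked by the kernel.
-/

set_option autoImplicit false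

namespace Pool.Agent.Lib.MP_f04ccf_co

namespace FinK

/-- the table -/
def gs12_6_13 : List (ℕ × List (ℕ × ℕ × ℕ × ℕ)) :=
  [(6, [(6, 13, 13, 11), (6, 13, 12, 11), (6, 13, 11, 11), (6, 13, 10, 11), (6, 13, 9, 11),
    (6, 13, 8, 11), (6, 13, 7, 11), (6, 12, 12, 11), (6, 12, 11, 11), (6, 12, 10, 11),
    (6, 12, 9, 11), (6, 12, 8, 11), (6, 12, 7, 11), (6, 12, 6, 11), (6, 11, 11, 11),
    (6, 11, 10, 11), (6, 11, 9, 11), (6, 11, 8, 11), (6, 11, 7, 11), (6, 11, 6, 11),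
    (6, 11, 5, 11), (6, 10, 10, 11), (6, 10, 9, 11), (6, 10, 8, 11), (6, 10, 7, 11),
    (6, 10, 6, 11), (6, 10, 5, 11), (6, 10, 4, 11), (6, 9, 9, 11), (6, 9, 8, 11),
    (6, 9, 7, 11), (6, 9, 6, 11), (6, 9, 5, 11), (6, 9, 4, 11), (6, 9, 3, 11), (6, 8, 8, 11),
    (6, 8, 7, 11), (6, 8, 6, 11), (6, 8, 5, 11), (6, 8, 4, 11), (6, 8, 3, 11), (6, 8, 2, 11),
    (6, 7, 7, 11), (6, 7, 6, 11), (6, 7, 5, 11), (6, 7, 4, 11), (6, 7, 3, 11), (6, 7, 2, 11),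
    (6, 7, 1, 11), (6, 6, 6, 11), (6, 6, 5, 11), (6, 6, 4, 11), (6, 6, 3, 11), (6, 6, 2, 11),
    (6, 6, 1, 11), (6, 6, 0, 11), (6, 5, 5, 11), (6, 5, 4, 11), (6, 5, 3, 11), (6, 5, 2, 11),
    (6, 5, 1, 11), (6, 5, 0, 11), (6, 4, 4, 11), (6, 4, 3, 11), (6, 4, 2, 11), (6, 4, 1, 11),
    (6, 4, 0, 11), (6, 3, 3, 11), (6, 3, 2, 11), (6, 3, 1, 11), (6, 3, 0, 11), (6, 2, 2, 11),
    (6, 2, 1, 11), (6, 2, 0, 11), (6, 1, 1, 11), (6, 1, 0, 11), (6, 0, 0, 11)]),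
  (5, [(5, 13, 13, 11), (5, 13, 12, 11), (5, 13, 11, 11), (5, 13, 10, 11), (5, 13, 9, 11),
    (5, 13, 8, 11), (5, 13, 7, 11), (5, 12, 12, 11), (5, 12, 11, 11), (5, 12, 10, 11),
    (5, 12, 9, 11), (5, 12, 8, 11), (5, 12, 7, 11), (5, 11, 11, 11), (5, 11, 10, 11),
    (5, 11, 9, 11), (5, 11, 8, 11), (5, 11, 7, 11), (5, 11, 6, 11), (5, 10, 10, 11),
    (5, 10, 9, 11), (5, 10, 8, 11), (5, 10, 7, 11), (5, 10, 6, 11), (5, 10, 5, 11),
    (5, 9, 9, 11), (5, 9, 8, 11), (5, 9, 7, 11), (5, 9, 6, 11), (5, 9, 5, 11), (5, 9, 4, 11),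
    (5, 8, 8, 11), (5, 8, 7, 11), (5, 8, 6, 11), (5, 8, 5, 11), (5, 8, 4, 11), (5, 8, 3, 11),
    (5, 7, 7, 11), (5, 7, 6, 11), (5, 7, 5, 11), (5, 7, 4, 11), (5, 7, 3, 11), (5, 7, 2, 11),
    (5, 6, 6, 11), (5, 6, 5, 11), (5, 6, 4, 11), (5, 6, 3, 11), (5, 6, 2, 11), (5, 6, 1, 11),
    (5, 5, 5, 11), (5, 5, 4, 11), (5, 5, 3, 11), (5, 5, 2, 11), (5, 5, 1, 11), (5, 5, 0, 11),
    (5, 4, 4, 11), (5, 4, 3, 11), (5, 4, 2, 11), (5, 4, 1, 11), (5, 4, 0, 11), (5, 3, 3, 11),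
    (5, 3, 2, 11), (5, 3, 1, 11), (5, 3, 0, 11), (5, 2, 2, 11), (5, 2, 1, 11), (5, 2, 0, 11),
    (5, 1, 1, 11), (5, 1, 0, 11), (5, 0, 0, 11)]),
  (4, [(4, 13, 13, 11), (4, 13, 12, 11), (4, 13, 11, 11), (4, 13, 10, 11), (4, 13, 9, 11),
    (4, 13, 8, 11), (4, 12, 12, 11), (4, 12, 11, 11), (4, 12, 10, 11), (4, 12, 9, 11),
    (4, 12, 8, 11), (4, 12, 7, 11), (4, 11, 11, 11), (4, 11, 10, 11), (4, 11, 9, 11),
    (4, 11, 8, 11), (4, 11, 7, 11), (4, 11, 6, 11), (4, 10, 10, 11), (4, 10, 9, 11),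
    (4, 10, 8, 11), (4, 10, 7, 11), (4, 10, 6, 11), (4, 9, 9, 11), (4, 9, 8, 11),
    (4, 9, 7, 11), (4, 9, 6, 11), (4, 9, 5, 11), (4, 8, 8, 11), (4, 8, 7, 11), (4, 8, 6, 11),
    (4, 8, 5, 11), (4, 8, 4, 11), (4, 7, 7, 11), (4, 7, 6, 11), (4, 7, 5, 11), (4, 7, 4, 11),
    (4, 7, 3, 11), (4, 6, 6, 11), (4, 6, 5, 11), (4, 6, 4, 11), (4, 6, 3, 11), (4, 6, 2, 11),
    (4, 5, 5, 11), (4, 5, 4, 11), (4, 5, 3, 11), (4, 5, 2, 11), (4, 5, 1, 11), (4, 4, 4, 11),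
    (4, 4, 3, 11), (4, 4, 2, 11), (4, 4, 1, 11), (4, 4, 0, 11), (4, 3, 3, 11), (4, 3, 2, 11),
    (4, 3, 1, 11), (4, 3, 0, 11), (4, 2, 2, 11), (4, 2, 1, 11), (4, 2, 0, 11), (4, 1, 1, 11),
    (4, 1, 0, 11), (4, 0, 0, 11)]),
  (3, [(3, 13, 13, 11), (3, 13, 12, 11), (3, 13, 11, 11), (3, 13, 10, 11), (3, 13, 9, 11),
    (3, 12, 12, 11), (3, 12, 11, 11), (3, 12, 10, 11), (3, 12, 9, 11), (3, 12, 8, 11),
    (3, 11, 11, 11), (3, 11, 10, 11), (3, 11, 9, 11), (3, 11, 8, 11), (3, 10, 10, 11),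
    (3, 10, 9, 11), (3, 10, 8, 11), (3, 10, 7, 11), (3, 9, 9, 11), (3, 9, 8, 11),
    (3, 9, 7, 11), (3, 9, 6, 11), (3, 8, 8, 11), (3, 8, 7, 11), (3, 8, 6, 11), (3, 7, 7, 11),
    (3, 7, 6, 11), (3, 7, 5, 11), (3, 7, 4, 11), (3, 6, 6, 11), (3, 6, 5, 11), (3, 6, 4, 11),
    (3, 6, 3, 11), (3, 5, 5, 11), (3, 5, 4, 11), (3, 5, 3, 11), (3, 5, 2, 11), (3, 4, 4, 11),
    (3, 4, 3, 11), (3, 4, 2, 11), (3, 4, 1, 11), (3, 3, 3, 11), (3, 3, 2, 11), (3, 3, 1, 11),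
    (3, 3, 0, 11), (3, 2, 2, 11), (3, 2, 1, 11), (3, 2, 0, 11), (3, 1, 1, 11), (3, 1, 0, 11),
    (3, 0, 0, 11)]),
  (2, [(2, 13, 13, 11), (2, 13, 12, 11), (2, 13, 11, 11), (2, 13, 10, 11), (2, 12, 12, 10),
    (2, 12, 11, 10), (2, 12, 10, 10), (2, 11, 11, 9), (2, 11, 10, 9), (2, 10, 10, 8),
    (2, 10, 9, 8), (2, 9, 9, 7), (2, 9, 8, 7), (2, 8, 8, 6), (2, 7, 7, 5), (2, 7, 6, 5),
    (2, 6, 6, 4), (2, 6, 5, 4), (2, 5, 5, 3), (2, 5, 4, 3), (2, 4, 4, 2), (2, 4, 3, 2),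
    (2, 4, 2, 2), (2, 3, 3, 2), (2, 3, 2, 2), (2, 3, 1, 2), (2, 2, 2, 2), (2, 2, 1, 2),
    (2, 2, 0, 2), (2, 1, 1, 2), (2, 1, 0, 2), (2, 0, 0, 2)]),
  (1, [(1, 3, 3, 2), (1, 2, 2, 1), (1, 2, 1, 1), (1, 1, 1, 1), (1, 1, 0, 1), (1, 0, 0, 1)]),
  (0, [(0, 1, 1, 1), (0, 0, 0, 0)])]

/-- the squares `kf t ^ 2` are larger than `t (M - t) + 1` -/
def kf12_6_13 (t : ℕ) : ℕ := ([2, 3, 4, 4, 4, 3, 2] : List ℕ).getD t 0

lemma ok12_6_13 : Kern.okF 12 6 = true ∧ Kern.okK 6 kf12_6_13 = true ∧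
    Kern.srt (Kern.keyF 14) (Kern.flt gs12_6_13) = true ∧
    Kern.allTab 6 13 13 (Kern.okE 12 6 kf12_6_13)
      (fun a b c => (Kern.lookF (Kern.flt gs12_6_13) a b c).isSome) = true := by
  decide +kernel

/-- a block -/
noncomputable def bk12_6_13 (j p k : ℕ) : Bool :=
  Kern.blk (fun a : ℕ × ℕ × ℕ × ℕ => a.1) (fun a => a.2.1) (fun a => a.2.2.2) (fun _ => 0)
    (fun _ => 0) (fun _ => 0) 6 13 7 (fun l => (fun l => Le.ld4 12 6 l || PatX.patX 12 6 cl6 l) (Kern.revT l)) 5 gs12_6_13 j p k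

lemma b12_6_13_0_0 : bk12_6_13 0 0 77 = true := by decide +kernel

lemma b12_6_13_1_0 : bk12_6_13 1 0 70 = true := by decide +kernel

lemma b12_6_13_2_0 : bk12_6_13 2 0 26 = true := by decide +kernel

lemma b12_6_13_2_26 : bk12_6_13 2 26 13 = true := by decide +kernel

lemma b12_6_13_2_39 : bk12_6_13 2 39 24 = true := by decide +kernel

lemma b12_6_13_3_0 : bk12_6_13 3 0 16 = true := by decide +kernel

lemma b12_6_13_3_16 : bk12_6_13 3 16 4 = true := by decide +kernel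

lemma b12_6_13_3_20 : bk12_6_13 3 20 3 = true := by decide +kernel

lemma b12_6_13_3_23 : bk12_6_13 3 23 3 = true := by decide +kernel

lemma b12_6_13_3_26 : bk12_6_13 3 26 3 = true := by decide +kernel

lemma b12_6_13_3_29 : bk12_6_13 3 29 3 = true := by decide +kernel

lemma b12_6_13_3_32 : bk12_6_13 3 32 4 = true := by decide +kernel

lemma b12_6_13_3_36 : bk12_6_13 3 36 5 = true := by decide +kernel

lemma b12_6_13_3_41 : bk12_6_13 3 41 7 = true := by decide +kernel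

lemma b12_6_13_3_48 : bk12_6_13 3 48 3 = true := by decide +kernel

lemma b12_6_13_4_0 : bk12_6_13 4 0 11 = true := by decide +kernel

lemma b12_6_13_4_11 : bk12_6_13 4 11 2 = true := by decide +kernel

lemma b12_6_13_4_13 : bk12_6_13 4 13 1 = true := by decide +kernel

lemma b12_6_13_4_14 : bk12_6_13 4 14 1 = true := by decide +kernel

lemma b12_6_13_4_15 : bk12_6_13 4 15 1 = true := by decide +kernel

lemma b12_6_13_4_16 : bk12_6_13 4 16 1 = true := by decide +kernel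

lemma b12_6_13_4_17 : bk12_6_13 4 17 1 = true := by decide +kernel

lemma b12_6_13_4_18 : bk12_6_13 4 18 1 = true := by decide +kernel

lemma b12_6_13_4_19 : bk12_6_13 4 19 1 = true := by decide +kernel

lemma b12_6_13_4_20 : bk12_6_13 4 20 2 = true := by decide +kernel

lemma b12_6_13_4_22 : bk12_6_13 4 22 10 = true := by decide +kernel

lemma b12_6_13_5_0 : bk12_6_13 5 0 6 = true := by decide +kernel

lemma b12_6_13_6_0 : bk12_6_13 6 0 2 = true := by decide +kernel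

lemma c12_6_13_0 : bk12_6_13 0 0 77 = true := b12_6_13_0_0

lemma c12_6_13_1 : bk12_6_13 1 0 70 = true := b12_6_13_1_0

lemma c12_6_13_2 : bk12_6_13 2 0 63 = true := by
  have h0 := Kern.blk_join b12_6_13_2_0 b12_6_13_2_26
  have h1 := Kern.blk_join h0 b12_6_13_2_39
  exact h1

lemma c12_6_13_3 : bk12_6_13 3 0 51 = true := by
  have h0 := Kern.blk_join b12_6_13_3_0 b12_6_13_3_16
  have h1 := Kern.blk_join h0 b12_6_13_3_20
  have h2 := Kern.blk_join h1 b12_6_13_3_23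
  have h3 := Kern.blk_join h2 b12_6_13_3_26
  have h4 := Kern.blk_join h3 b12_6_13_3_29
  have h5 := Kern.blk_join h4 b12_6_13_3_32
  have h6 := Kern.blk_join h5 b12_6_13_3_36
  have h7 := Kern.blk_join h6 b12_6_13_3_41
  have h8 := Kern.blk_join h7 b12_6_13_3_48
  exact h8

lemma c12_6_13_4 : bk12_6_13 4 0 32 = true := by
  have h0 := Kern.blk_join b12_6_13_4_0 b12_6_13_4_11
  have h1 := Kern.blk_join h0 b12_6_13_4_13
  have h2 := Kern.blk_join h1 b12_6_13_4_14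
  have h3 := Kern.blk_join h2 b12_6_13_4_15
  have h4 := Kern.blk_join h3 b12_6_13_4_16
  have h5 := Kern.blk_join h4 b12_6_13_4_17
  have h6 := Kern.blk_join h5 b12_6_13_4_18
  have h7 := Kern.blk_join h6 b12_6_13_4_19
  have h8 := Kern.blk_join h7 b12_6_13_4_20
  have h9 := Kern.blk_join h8 b12_6_13_4_22
  exact h9

lemma c12_6_13_5 : bk12_6_13 5 0 6 = true := b12_6_13_5_0

lemma c12_6_13_6 : bk12_6_13 6 0 2 = true := b12_6_13_6_0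

lemma e12_6_13 : Kern.EnS (fun a : ℕ × ℕ × ℕ × ℕ => a.1) (fun a => a.2.1) (fun _ => 0) (fun _ => 0)
    6 13 (6 + 1) (fun l => (fun l => Le.ld4 12 6 l || PatX.patX 12 6 cl6 l) (Kern.revT l)) (5 + 1) (Kern.flt gs12_6_13) := by
  refine Kern.EnS.of_blk (b := fun a => a.2.2.2) (bg := fun _ => 0) (by decide +kernel) fun j hj => ?_
  have hj' : j < 7 := hj
  interval_cases j
  · exact c12_6_13_0
  · exact c12_6_13_1
  · exact c12_6_13_2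
  · exact c12_6_13_3
  · exact c12_6_13_4
  · exact c12_6_13_5
  · exact c12_6_13_6

theorem part12_6_13 : PartC ((12 : ℕ) : ℤ) 13 6 (fun l => Le.ld4 12 6 l || PatX.patX 12 6 cl6 l) := by
  obtain ⟨h1, h2, h3, h4⟩ := ok12_6_13
  exact PartC.enumS (N := 14) (by norm_num) (by norm_num) h1 h2 h3 h4 e12_6_13

end FinK

/-- **`R = 12`, `n = 6`, `∑ h ≤ 13`: no items** -/
theorem noItC12_6_13 : NoItC 12 13 6 :=
  NoItC.of_lx (by norm_num) (by norm_num) FinK.cl6_eq FinK.part12_6_13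

end Pool.Agent.Lib.MP_f04ccf_co
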