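import Pool.Agent.Lib.MP_f04ccf_co.M.FinB14_6t

/-!
MP_f04ccf_co, PLAN W, finite part: `R = 14`, `n = 6` rows, `∑ h ≤ 15` (loads).
Generated (helper11, gen.py, mk4.py): blocks of first rows, part 1 of 3.
-/

set_option autoImplicit false

namespace Pool.Agent.Lib.MP_f04ccf_co

namespace FinK

lemma b14_6_15_0_0 : bk14_6_15 0 0 108 = true := by decide +kernel

lemma b14_6_15_1_0 : bk14_6_15 1 0 101 = true := by decide +kernel

lemma b14_6_15_2_0 : bk14_6_15 2 0 31 = true := by decide +kernel

lemma b14_6_15_2_31 : bk14_6_15 2 31 14 = true := by decide +kernel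

lemma b14_6_15_2_45 : bk14_6_15 2 45 49 = true := by decide +kernel

lemma b14_6_15_3_0 : bk14_6_15 3 0 22 = true := by decide +kernel

lemma b14_6_15_3_22 : bk14_6_15 3 22 6 = true := by decide +kernel

lemma b14_6_15_3_28 : bk14_6_15 3 28 4 = true := by decide +kernel

lemma b14_6_15_3_32 : bk14_6_15 3 32 4 = true := by decide +kernel

lemma b14_6_15_3_36 : bk14_6_15 3 36 3 = true := by decide +kernel

lemma b14_6_15_3_39 : bk14_6_15 3 39 3 = true := by decide +kernel

lemma b14_6_15_3_42 : bk14_6_15 3 42 3 = true := by decide +kernel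

lemma b14_6_15_3_45 : bk14_6_15 3 45 4 = true := by decide +kernel

lemma b14_6_15_3_49 : bk14_6_15 3 49 4 = true := by decide +kernel

lemma b14_6_15_3_53 : bk14_6_15 3 53 6 = true := by decide +kernel

lemma b14_6_15_3_59 : bk14_6_15 3 59 11 = true := by decide +kernel

lemma b14_6_15_3_70 : bk14_6_15 3 70 16 = true := by decide +kernel

lemma b14_6_15_4_0 : bk14_6_15 4 0 14 = true := by decide +kernel

lemma b14_6_15_4_14 : bk14_6_15 4 14 5 = true := by decide +kernel

lemma b14_6_15_4_19 : bk14_6_15 4 19 3 = true := by decide +kernel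

lemma b14_6_15_4_22 : bk14_6_15 4 22 2 = true := by decide +kernel

lemma b14_6_15_4_24 : bk14_6_15 4 24 1 = true := by decide +kernel

lemma b14_6_15_4_25 : bk14_6_15 4 25 1 = true := by decide +kernel

lemma b14_6_15_4_26 : bk14_6_15 4 26 1 = true := by decide +kernel

lemma b14_6_15_4_27 : bk14_6_15 4 27 1 = true := by decide +kernel

lemma b14_6_15_4_28 : bk14_6_15 4 28 1 = true := by decide +kernel

lemma b14_6_15_4_29 : bk14_6_15 4 29 1 = true := by decide +kernel

lemma b14_6_15_4_30 : bk14_6_15 4 30 1 = true := by decide +kernel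

lemma b14_6_15_4_31 : bk14_6_15 4 31 1 = true := by decide +kernel

lemma b14_6_15_4_32 : bk14_6_15 4 32 1 = true := by decide +kernel

lemma b14_6_15_4_33 : bk14_6_15 4 33 1 = true := by decide +kernel

lemma b14_6_15_4_34 : bk14_6_15 4 34 1 = true := by decide +kernel

lemma b14_6_15_4_35 : bk14_6_15 4 35 1 = true := by decide +kernel

lemma b14_6_15_4_36 : bk14_6_15 4 36 1 = true := by decide +kernel

lemma b14_6_15_4_37 : bk14_6_15 4 37 1 = true := by decide +kernel

lemma b14_6_15_4_38 : bk14_6_15 4 38 1 = true := by decide +kernel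

lemma b14_6_15_4_39 : bk14_6_15 4 39 1 = true := by decide +kernel

lemma b14_6_15_4_40 : bk14_6_15 4 40 1 = true := by decide +kernel

lemma b14_6_15_4_41 : bk14_6_15 4 41 1 = true := by decide +kernel

lemma b14_6_15_4_42 : bk14_6_15 4 42 1 = true := by decide +kernel

lemma b14_6_15_4_43 : bk14_6_15 4 43 1 = true := by decide +kernel

lemma b14_6_15_4_44 : bk14_6_15 4 44 1 = true := by decide +kernel

lemma b14_6_15_4_45 : bk14_6_15 4 45 1 = true := by decide +kernel

lemma b14_6_15_4_46 : bk14_6_15 4 46 1 = true := by decide +kernel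

lemma b14_6_15_4_47 : bk14_6_15 4 47 1 = true := by decide +kernel

lemma b14_6_15_4_48 : bk14_6_15 4 48 1 = true := by decide +kernel

lemma b14_6_15_4_49 : bk14_6_15 4 49 1 = true := by decide +kernel

lemma b14_6_15_4_50 : bk14_6_15 4 50 1 = true := by decide +kernel

lemma b14_6_15_4_51 : bk14_6_15 4 51 1 = true := by decide +kernel

lemma b14_6_15_4_52 : bk14_6_15 4 52 1 = true := by decide +kernel

lemma b14_6_15_4_53 : bk14_6_15 4 53 2 = true := by decide +kernel

lemma b14_6_15_4_55 : bk14_6_15 4 55 2 = true := by decide +kernel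

lemma b14_6_15_4_57 : bk14_6_15 4 57 2 = true := by decide +kernel

lemma b14_6_15_4_59 : bk14_6_15 4 59 3 = true := by decide +kernel

lemma b14_6_15_4_62 : bk14_6_15 4 62 3 = true := by decide +kernel

lemma b14_6_15_4_65 : bk14_6_15 4 65 4 = true := by decide +kernel

lemma b14_6_15_4_69 : bk14_6_15 4 69 4 = true := by decide +kernel

lemma b14_6_15_5_0 : bk14_6_15 5 0 12 = true := by decide +kernel

lemma b14_6_15_5_12 : bk14_6_15 5 12 3 = true := by decide +kernel

lemma b14_6_15_5_15 : bk14_6_15 5 15 1 = true := by decide +kernel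

lemma b14_6_15_5_16 : bk14_6_15 5 16 1 = true := by decide +kernel

lemma b14_6_15_5_17 : bk14_6_15 5 17 1 = true := by decide +kernel

end FinK

end Pool.Agent.Lib.MP_f04ccf_co
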