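import Pool.Agent.Lib.MP_f04ccf_co.M.FinB15_6t

/-!
MP_f04ccf_co, PLAN W, finite part: `R = 15`, `n = 6` rows, `∑ h ≤ 16` (loads, second form).
Generated (gen.py, mk4.py): blocks of first rows, part 1 of 7.
-/

set_option autoImplicit false

namespace Pool.Agent.Lib.MP_f04ccf_co

namespace FinK

lemma b15_6_16_0_0 : bk15_6_16 0 0 125 = true := by decide +kernel

lemma b15_6_16_1_0 : bk15_6_16 1 0 120 = true := by decide +kernel

lemma b15_6_16_2_0 : bk15_6_16 2 0 111 = true := by decide +kernel

lemma b15_6_16_3_0 : bk15_6_16 3 0 46 = true := by decide +kernel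

lemma b15_6_16_3_46 : bk15_6_16 3 46 27 = true := by decide +kernel

lemma b15_6_16_3_73 : bk15_6_16 3 73 30 = true := by decide +kernel

lemma b15_6_16_4_0 : bk15_6_16 4 0 30 = true := by decide +kernel

lemma b15_6_16_4_30 : bk15_6_16 4 30 8 = true := by decide +kernel

lemma b15_6_16_4_38 : bk15_6_16 4 38 6 = true := by decide +kernel

lemma b15_6_16_4_44 : bk15_6_16 4 44 5 = true := by decide +kernel

lemma b15_6_16_4_49 : bk15_6_16 4 49 6 = true := by decide +kernel

end FinK

end Pool.Agent.Lib.MP_f04ccf_co
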