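import Pool.Agent.Lib.MP_f04ccf_co.M.FinB15_7t

/-!
MP_f04ccf_co, PLAN W, finite part: `R = 15`, `n = 7` rows, `∑ h ≤ 16` (loads, second form).
Generated (gen.py, mk4.py): blocks of first rows, part 1 of 3.
-/

set_option autoImplicit false

namespace Pool.Agent.Lib.MP_f04ccf_co

namespace FinK

lemma b15_7_16_0_0 : bk15_7_16 0 0 117 = true := by decide +kernel

lemma b15_7_16_1_0 : bk15_7_16 1 0 108 = true := by decide +kernel

lemma b15_7_16_2_0 : bk15_7_16 2 0 100 = true := by decide +kernel

lemma b15_7_16_3_0 : bk15_7_16 3 0 38 = true := by decide +kernel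

lemma b15_7_16_3_38 : bk15_7_16 3 38 19 = true := by decide +kernel

lemma b15_7_16_3_57 : bk15_7_16 3 57 33 = true := by decide +kernel

lemma b15_7_16_4_0 : bk15_7_16 4 0 25 = true := by decide +kernel

lemma b15_7_16_4_25 : bk15_7_16 4 25 5 = true := by decide +kernel

lemma b15_7_16_4_30 : bk15_7_16 4 30 4 = true := by decide +kernel

lemma b15_7_16_4_34 : bk15_7_16 4 34 4 = true := by decide +kernel

lemma b15_7_16_4_38 : bk15_7_16 4 38 5 = true := by decide +kernel

end FinK

end Pool.Agent.Lib.MP_f04ccf_co
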