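import Pool.Agent.Lib.MP_f04ccf_co.M.FinB16_6t

/-!
MP_f04ccf_co, PLAN W, finite part: `R = 16`, `n = 6` rows, `∑ h ≤ 17` (loads, second form).
Generated (gen.py, mk4.py): blocks of first rows, part 1 of 15.
-/

set_option autoImplicit false

namespace Pool.Agent.Lib.MP_f04ccf_co

namespace FinK

lemma b16_6_17_0_0 : bk16_6_17 0 0 143 = true := by decide +kernel

lemma b16_6_17_1_0 : bk16_6_17 1 0 138 = true := by decide +kernel

lemma b16_6_17_2_0 : bk16_6_17 2 0 132 = true := by decide +kernel

lemma b16_6_17_3_0 : bk16_6_17 3 0 50 = true := by decide +kernel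

lemma b16_6_17_3_50 : bk16_6_17 3 50 27 = true := by decide +kernel

lemma b16_6_17_3_77 : bk16_6_17 3 77 44 = true := by decide +kernel

lemma b16_6_17_4_0 : bk16_6_17 4 0 37 = true := by decide +kernel

lemma b16_6_17_4_37 : bk16_6_17 4 37 9 = true := by decide +kernel

lemma b16_6_17_4_46 : bk16_6_17 4 46 7 = true := by decide +kernel

lemma b16_6_17_4_53 : bk16_6_17 4 53 6 = true := by decide +kernel

lemma b16_6_17_4_59 : bk16_6_17 4 59 7 = true := by decide +kernel

lemma b16_6_17_4_66 : bk16_6_17 4 66 8 = true := by decide +kernel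

end FinK

end Pool.Agent.Lib.MP_f04ccf_co
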