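import Pool.Agent.Lib.MP_f04ccf_co.M.FinB16_6t

/-!
MP_f04ccf_co, PLAN W, finite part: `R = 16`, `n = 6` rows, `∑ h ≤ 17` (loads, second form).
Generated (gen.py, mk4.py): blocks of first rows, part 10 of 15.
-/

set_option autoImplicit false

namespace Pool.Agent.Lib.MP_f04ccf_co

namespace FinK

lemma b16_6_17_6_72 : bk16_6_17 6 72 1 = true := by decide +kernel

lemma b16_6_17_6_73 : bk16_6_17 6 73 1 = true := by decide +kernel

lemma b16_6_17_6_74 : bk16_6_17 6 74 1 = true := by decide +kernel

lemma b16_6_17_6_75 : bk16_6_17 6 75 2 = true := by decide +kernel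

lemma b16_6_17_6_77 : bk16_6_17 6 77 2 = true := by decide +kernel

lemma b16_6_17_6_79 : bk16_6_17 6 79 2 = true := by decide +kernel

lemma b16_6_17_6_81 : bk16_6_17 6 81 3 = true := by decide +kernel

lemma b16_6_17_6_84 : bk16_6_17 6 84 1 = true := by decide +kernel

lemma b16_6_17_7_0 : bk16_6_17 7 0 12 = true := by decide +kernel

lemma b16_6_17_7_12 : bk16_6_17 7 12 1 = true := by decide +kernel

lemma b16_6_17_7_13 : bk16_6_17 7 13 1 = true := by decide +kernel

lemma b16_6_17_7_14 : bk16_6_17 7 14 1 = true := by decide +kernel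

end FinK

end Pool.Agent.Lib.MP_f04ccf_co
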