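import Pool.Agent.Lib.MP_f04ccf_co.M.FinB16_7t

/-!
MP_f04ccf_co, PLAN W, finite part: `R = 16`, `n = 7` rows, `∑ h ≤ 17` (loads).
Generated (helper11, gen.py, mk4.py): blocks of first rows, part 1 of 5.
-/

set_option autoImplicit false

namespace Pool.Agent.Lib.MP_f04ccf_co

namespace FinK

lemma b16_7_17_0_0 : bk16_7_17 0 0 135 = true := by decide +kernel

lemma b16_7_17_1_0 : bk16_7_17 1 0 128 = true := by decide +kernel

lemma b16_7_17_2_0 : bk16_7_17 2 0 36 = true := by decide +kernel

lemma b16_7_17_2_36 : bk16_7_17 2 36 17 = true := by decide +kernel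

lemma b16_7_17_2_53 : bk16_7_17 2 53 65 = true := by decide +kernel

lemma b16_7_17_3_0 : bk16_7_17 3 0 24 = true := by decide +kernel

lemma b16_7_17_3_24 : bk16_7_17 3 24 7 = true := by decide +kernel

lemma b16_7_17_3_31 : bk16_7_17 3 31 5 = true := by decide +kernel

lemma b16_7_17_3_36 : bk16_7_17 3 36 4 = true := by decide +kernel

lemma b16_7_17_3_40 : bk16_7_17 3 40 4 = true := by decide +kernel

lemma b16_7_17_3_44 : bk16_7_17 3 44 4 = true := by decide +kernel

lemma b16_7_17_3_48 : bk16_7_17 3 48 4 = true := by decide +kernel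

lemma b16_7_17_3_52 : bk16_7_17 3 52 4 = true := by decide +kernel

lemma b16_7_17_3_56 : bk16_7_17 3 56 5 = true := by decide +kernel

lemma b16_7_17_3_61 : bk16_7_17 3 61 6 = true := by decide +kernel

lemma b16_7_17_3_67 : bk16_7_17 3 67 12 = true := by decide +kernel

lemma b16_7_17_3_79 : bk16_7_17 3 79 29 = true := by decide +kernel

lemma b16_7_17_4_0 : bk16_7_17 4 0 17 = true := by decide +kernel

lemma b16_7_17_4_17 : bk16_7_17 4 17 5 = true := by decide +kernel

lemma b16_7_17_4_22 : bk16_7_17 4 22 3 = true := by decide +kernel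

lemma b16_7_17_4_25 : bk16_7_17 4 25 2 = true := by decide +kernel

lemma b16_7_17_4_27 : bk16_7_17 4 27 2 = true := by decide +kernel

lemma b16_7_17_4_29 : bk16_7_17 4 29 2 = true := by decide +kernel

lemma b16_7_17_4_31 : bk16_7_17 4 31 1 = true := by decide +kernel

lemma b16_7_17_4_32 : bk16_7_17 4 32 1 = true := by decide +kernel

lemma b16_7_17_4_33 : bk16_7_17 4 33 1 = true := by decide +kernel

lemma b16_7_17_4_34 : bk16_7_17 4 34 1 = true := by decide +kernel

lemma b16_7_17_4_35 : bk16_7_17 4 35 1 = true := by decide +kernel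

lemma b16_7_17_4_36 : bk16_7_17 4 36 1 = true := by decide +kernel

lemma b16_7_17_4_37 : bk16_7_17 4 37 1 = true := by decide +kernel

lemma b16_7_17_4_38 : bk16_7_17 4 38 1 = true := by decide +kernel

lemma b16_7_17_4_39 : bk16_7_17 4 39 1 = true := by decide +kernel

lemma b16_7_17_4_40 : bk16_7_17 4 40 1 = true := by decide +kernel

lemma b16_7_17_4_41 : bk16_7_17 4 41 1 = true := by decide +kernel

lemma b16_7_17_4_42 : bk16_7_17 4 42 1 = true := by decide +kernel

lemma b16_7_17_4_43 : bk16_7_17 4 43 1 = true := by decide +kernel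

lemma b16_7_17_4_44 : bk16_7_17 4 44 1 = true := by decide +kernel

lemma b16_7_17_4_45 : bk16_7_17 4 45 1 = true := by decide +kernel

lemma b16_7_17_4_46 : bk16_7_17 4 46 1 = true := by decide +kernel

lemma b16_7_17_4_47 : bk16_7_17 4 47 1 = true := by decide +kernel

lemma b16_7_17_4_48 : bk16_7_17 4 48 1 = true := by decide +kernel

lemma b16_7_17_4_49 : bk16_7_17 4 49 1 = true := by decide +kernel

lemma b16_7_17_4_50 : bk16_7_17 4 50 1 = true := by decide +kernel

lemma b16_7_17_4_51 : bk16_7_17 4 51 1 = true := by decide +kernel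

lemma b16_7_17_4_52 : bk16_7_17 4 52 1 = true := by decide +kernel

lemma b16_7_17_4_53 : bk16_7_17 4 53 1 = true := by decide +kernel

lemma b16_7_17_4_54 : bk16_7_17 4 54 1 = true := by decide +kernel

lemma b16_7_17_4_55 : bk16_7_17 4 55 1 = true := by decide +kernel

lemma b16_7_17_4_56 : bk16_7_17 4 56 1 = true := by decide +kernel

lemma b16_7_17_4_57 : bk16_7_17 4 57 1 = true := by decide +kernel

lemma b16_7_17_4_58 : bk16_7_17 4 58 1 = true := by decide +kernel

lemma b16_7_17_4_59 : bk16_7_17 4 59 2 = true := by decide +kernel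

lemma b16_7_17_4_61 : bk16_7_17 4 61 2 = true := by decide +kernel

lemma b16_7_17_4_63 : bk16_7_17 4 63 2 = true := by decide +kernel

lemma b16_7_17_4_65 : bk16_7_17 4 65 3 = true := by decide +kernel

lemma b16_7_17_4_68 : bk16_7_17 4 68 3 = true := by decide +kernel

lemma b16_7_17_4_71 : bk16_7_17 4 71 5 = true := by decide +kernel

lemma b16_7_17_4_76 : bk16_7_17 4 76 6 = true := by decide +kernel

lemma b16_7_17_4_82 : bk16_7_17 4 82 6 = true := by decide +kernel

lemma b16_7_17_4_88 : bk16_7_17 4 88 4 = true := by decide +kernel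

lemma b16_7_17_5_0 : bk16_7_17 5 0 12 = true := by decide +kernel

lemma b16_7_17_5_12 : bk16_7_17 5 12 3 = true := by decide +kernel

lemma b16_7_17_5_15 : bk16_7_17 5 15 1 = true := by decide +kernel

end FinK

end Pool.Agent.Lib.MP_f04ccf_co
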