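import Pool.Agent.Lib.MP_f04ccf_co.M.FinB16_8t

/-!
MP_f04ccf_co, PLAN W, finite part: `R = 16`, `n = 8` rows, `∑ h ≤ 17` (loads).
Generated (helper11, gen.py, mk4.py): blocks of first rows, part 1 of 2.
-/

set_option autoImplicit false

namespace Pool.Agent.Lib.MP_f04ccf_co

namespace FinK

lemma b16_8_17_0_0 : bk16_8_17 0 0 120 = true := by decide +kernel

lemma b16_8_17_1_0 : bk16_8_17 1 0 110 = true := by decide +kernel

lemma b16_8_17_2_0 : bk16_8_17 2 0 33 = true := by decide +kernel

lemma b16_8_17_2_33 : bk16_8_17 2 33 16 = true := by decide +kernel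

lemma b16_8_17_2_49 : bk16_8_17 2 49 54 = true := by decide +kernel

lemma b16_8_17_3_0 : bk16_8_17 3 0 21 = true := by decide +kernel

lemma b16_8_17_3_21 : bk16_8_17 3 21 6 = true := by decide +kernel

lemma b16_8_17_3_27 : bk16_8_17 3 27 5 = true := by decide +kernel

lemma b16_8_17_3_32 : bk16_8_17 3 32 4 = true := by decide +kernel

lemma b16_8_17_3_36 : bk16_8_17 3 36 3 = true := by decide +kernel

lemma b16_8_17_3_39 : bk16_8_17 3 39 3 = true := by decide +kernel

lemma b16_8_17_3_42 : bk16_8_17 3 42 3 = true := by decide +kernel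

lemma b16_8_17_3_45 : bk16_8_17 3 45 4 = true := by decide +kernel

lemma b16_8_17_3_49 : bk16_8_17 3 49 4 = true := by decide +kernel

lemma b16_8_17_3_53 : bk16_8_17 3 53 5 = true := by decide +kernel

lemma b16_8_17_3_58 : bk16_8_17 3 58 9 = true := by decide +kernel

lemma b16_8_17_3_67 : bk16_8_17 3 67 25 = true := by decide +kernel

lemma b16_8_17_4_0 : bk16_8_17 4 0 14 = true := by decide +kernel

lemma b16_8_17_4_14 : bk16_8_17 4 14 3 = true := by decide +kernel

lemma b16_8_17_4_17 : bk16_8_17 4 17 2 = true := by decide +kernel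

lemma b16_8_17_4_19 : bk16_8_17 4 19 1 = true := by decide +kernel

lemma b16_8_17_4_20 : bk16_8_17 4 20 1 = true := by decide +kernel

lemma b16_8_17_4_21 : bk16_8_17 4 21 1 = true := by decide +kernel

lemma b16_8_17_4_22 : bk16_8_17 4 22 1 = true := by decide +kernel

lemma b16_8_17_4_23 : bk16_8_17 4 23 1 = true := by decide +kernel

lemma b16_8_17_4_24 : bk16_8_17 4 24 1 = true := by decide +kernel

lemma b16_8_17_4_25 : bk16_8_17 4 25 1 = true := by decide +kernel

lemma b16_8_17_4_26 : bk16_8_17 4 26 1 = true := by decide +kernel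

lemma b16_8_17_4_27 : bk16_8_17 4 27 1 = true := by decide +kernel

lemma b16_8_17_4_28 : bk16_8_17 4 28 1 = true := by decide +kernel

lemma b16_8_17_4_29 : bk16_8_17 4 29 1 = true := by decide +kernel

lemma b16_8_17_4_30 : bk16_8_17 4 30 1 = true := by decide +kernel

lemma b16_8_17_4_31 : bk16_8_17 4 31 1 = true := by decide +kernel

lemma b16_8_17_4_32 : bk16_8_17 4 32 1 = true := by decide +kernel

lemma b16_8_17_4_33 : bk16_8_17 4 33 1 = true := by decide +kernel

lemma b16_8_17_4_34 : bk16_8_17 4 34 1 = true := by decide +kernel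

lemma b16_8_17_4_35 : bk16_8_17 4 35 1 = true := by decide +kernel

lemma b16_8_17_4_36 : bk16_8_17 4 36 1 = true := by decide +kernel

lemma b16_8_17_4_37 : bk16_8_17 4 37 1 = true := by decide +kernel

lemma b16_8_17_4_38 : bk16_8_17 4 38 1 = true := by decide +kernel

lemma b16_8_17_4_39 : bk16_8_17 4 39 1 = true := by decide +kernel

lemma b16_8_17_4_40 : bk16_8_17 4 40 1 = true := by decide +kernel

lemma b16_8_17_4_41 : bk16_8_17 4 41 1 = true := by decide +kernel

lemma b16_8_17_4_42 : bk16_8_17 4 42 1 = true := by decide +kernel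

lemma b16_8_17_4_43 : bk16_8_17 4 43 1 = true := by decide +kernel

lemma b16_8_17_4_44 : bk16_8_17 4 44 1 = true := by decide +kernel

lemma b16_8_17_4_45 : bk16_8_17 4 45 1 = true := by decide +kernel

lemma b16_8_17_4_46 : bk16_8_17 4 46 1 = true := by decide +kernel

lemma b16_8_17_4_47 : bk16_8_17 4 47 2 = true := by decide +kernel

lemma b16_8_17_4_49 : bk16_8_17 4 49 2 = true := by decide +kernel

lemma b16_8_17_4_51 : bk16_8_17 4 51 3 = true := by decide +kernel

lemma b16_8_17_4_54 : bk16_8_17 4 54 4 = true := by decide +kernel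

lemma b16_8_17_4_58 : bk16_8_17 4 58 6 = true := by decide +kernel

lemma b16_8_17_4_64 : bk16_8_17 4 64 8 = true := by decide +kernel

lemma b16_8_17_5_0 : bk16_8_17 5 0 9 = true := by decide +kernel

lemma b16_8_17_5_9 : bk16_8_17 5 9 2 = true := by decide +kernel

lemma b16_8_17_5_11 : bk16_8_17 5 11 1 = true := by decide +kernel

lemma b16_8_17_5_12 : bk16_8_17 5 12 1 = true := by decide +kernel

lemma b16_8_17_5_13 : bk16_8_17 5 13 1 = true := by decide +kernel

end FinK

end Pool.Agent.Lib.MP_f04ccf_co
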