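import Pool.Agent.Lib.MP_f04ccf_co.M.FinQ

/-!
MP_f04ccf_co, PLAN W, finite part: `R = 16`, `n = 8` rows, `∑ h ≤ 17` (loads).
Generated (helper11, gen.py, mk4.py): the table of all rows `(t, h, mu, b)` which pass the row filter `Kern.okE`,
`b` a bound for `h - t` on the rest of the table; the enumeration in blocks of first rows with the leaf
`(Le.ld4 16 8)`, checked by the kernel.
-/

set_option autoImplicit false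

namespace Pool.Agent.Lib.MP_f04ccf_co

namespace FinK

/-- the table -/
def gs16_8_17 : List (ℕ × List (ℕ × ℕ × ℕ × ℕ)) :=
  [(8, [(8, 17, 17, 14), (8, 17, 16, 14), (8, 17, 15, 14), (8, 17, 14, 14), (8, 17, 13, 14),
    (8, 17, 12, 14), (8, 17, 11, 14), (8, 17, 10, 14), (8, 16, 16, 14), (8, 16, 15, 14),
    (8, 16, 14, 14), (8, 16, 13, 14), (8, 16, 12, 14), (8, 16, 11, 14), (8, 16, 10, 14),
    (8, 16, 9, 14), (8, 15, 15, 14), (8, 15, 14, 14), (8, 15, 13, 14), (8, 15, 12, 14),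
    (8, 15, 11, 14), (8, 15, 10, 14), (8, 15, 9, 14), (8, 15, 8, 14), (8, 14, 14, 14),
    (8, 14, 13, 14), (8, 14, 12, 14), (8, 14, 11, 14), (8, 14, 10, 14), (8, 14, 9, 14),
    (8, 14, 8, 14), (8, 14, 7, 14), (8, 13, 13, 14), (8, 13, 12, 14), (8, 13, 11, 14),
    (8, 13, 10, 14), (8, 13, 9, 14), (8, 13, 8, 14), (8, 13, 7, 14), (8, 13, 6, 14),
    (8, 12, 12, 14), (8, 12, 11, 14), (8, 12, 10, 14), (8, 12, 9, 14), (8, 12, 8, 14),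
    (8, 12, 7, 14), (8, 12, 6, 14), (8, 12, 5, 14), (8, 11, 11, 14), (8, 11, 10, 14),
    (8, 11, 9, 14), (8, 11, 8, 14), (8, 11, 7, 14), (8, 11, 6, 14), (8, 11, 5, 14),
    (8, 11, 4, 14), (8, 11, 3, 14), (8, 10, 10, 14), (8, 10, 9, 14), (8, 10, 8, 14),
    (8, 10, 7, 14), (8, 10, 6, 14), (8, 10, 5, 14), (8, 10, 4, 14), (8, 10, 3, 14),
    (8, 10, 2, 14), (8, 9, 9, 14), (8, 9, 8, 14), (8, 9, 7, 14), (8, 9, 6, 14),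
    (8, 9, 5, 14), (8, 9, 4, 14), (8, 9, 3, 14), (8, 9, 2, 14), (8, 9, 1, 14), (8, 8, 8, 14),
    (8, 8, 7, 14), (8, 8, 6, 14), (8, 8, 5, 14), (8, 8, 4, 14), (8, 8, 3, 14), (8, 8, 2, 14),
    (8, 8, 1, 14), (8, 8, 0, 14), (8, 7, 7, 14), (8, 7, 6, 14), (8, 7, 5, 14), (8, 7, 4, 14),
    (8, 7, 3, 14), (8, 7, 2, 14), (8, 7, 1, 14), (8, 7, 0, 14), (8, 6, 6, 14), (8, 6, 5, 14),
    (8, 6, 4, 14), (8, 6, 3, 14), (8, 6, 2, 14), (8, 6, 1, 14), (8, 6, 0, 14), (8, 5, 5, 14),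
    (8, 5, 4, 14), (8, 5, 3, 14), (8, 5, 2, 14), (8, 5, 1, 14), (8, 5, 0, 14), (8, 4, 4, 14),
    (8, 4, 3, 14), (8, 4, 2, 14), (8, 4, 1, 14), (8, 4, 0, 14), (8, 3, 3, 14), (8, 3, 2, 14),
    (8, 3, 1, 14), (8, 3, 0, 14), (8, 2, 2, 14), (8, 2, 1, 14), (8, 2, 0, 14), (8, 1, 1, 14),
    (8, 1, 0, 14), (8, 0, 0, 14)]),
  (7, [(7, 17, 17, 14), (7, 17, 16, 14), (7, 17, 15, 14), (7, 17, 14, 14), (7, 17, 13, 14),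
    (7, 17, 12, 14), (7, 17, 11, 14), (7, 17, 10, 14), (7, 16, 16, 14), (7, 16, 15, 14),
    (7, 16, 14, 14), (7, 16, 13, 14), (7, 16, 12, 14), (7, 16, 11, 14), (7, 16, 10, 14),
    (7, 15, 15, 14), (7, 15, 14, 14), (7, 15, 13, 14), (7, 15, 12, 14), (7, 15, 11, 14),
    (7, 15, 10, 14), (7, 15, 9, 14), (7, 14, 14, 14), (7, 14, 13, 14), (7, 14, 12, 14),
    (7, 14, 11, 14), (7, 14, 10, 14), (7, 14, 9, 14), (7, 14, 8, 14), (7, 13, 13, 14),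
    (7, 13, 12, 14), (7, 13, 11, 14), (7, 13, 10, 14), (7, 13, 9, 14), (7, 13, 8, 14),
    (7, 13, 7, 14), (7, 12, 12, 14), (7, 12, 11, 14), (7, 12, 10, 14), (7, 12, 9, 14),
    (7, 12, 8, 14), (7, 12, 7, 14), (7, 12, 6, 14), (7, 11, 11, 14), (7, 11, 10, 14),
    (7, 11, 9, 14), (7, 11, 8, 14), (7, 11, 7, 14), (7, 11, 6, 14), (7, 11, 5, 14),
    (7, 10, 10, 14), (7, 10, 9, 14), (7, 10, 8, 14), (7, 10, 7, 14), (7, 10, 6, 14),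
    (7, 10, 5, 14), (7, 10, 4, 14), (7, 10, 3, 14), (7, 9, 9, 14), (7, 9, 8, 14),
    (7, 9, 7, 14), (7, 9, 6, 14), (7, 9, 5, 14), (7, 9, 4, 14), (7, 9, 3, 14), (7, 9, 2, 14),
    (7, 8, 8, 14), (7, 8, 7, 14), (7, 8, 6, 14), (7, 8, 5, 14), (7, 8, 4, 14), (7, 8, 3, 14),
    (7, 8, 2, 14), (7, 8, 1, 14), (7, 7, 7, 14), (7, 7, 6, 14), (7, 7, 5, 14), (7, 7, 4, 14),
    (7, 7, 3, 14), (7, 7, 2, 14), (7, 7, 1, 14), (7, 7, 0, 14), (7, 6, 6, 14), (7, 6, 5, 14),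
    (7, 6, 4, 14), (7, 6, 3, 14), (7, 6, 2, 14), (7, 6, 1, 14), (7, 6, 0, 14), (7, 5, 5, 14),
    (7, 5, 4, 14), (7, 5, 3, 14), (7, 5, 2, 14), (7, 5, 1, 14), (7, 5, 0, 14), (7, 4, 4, 14),
    (7, 4, 3, 14), (7, 4, 2, 14), (7, 4, 1, 14), (7, 4, 0, 14), (7, 3, 3, 14), (7, 3, 2, 14),
    (7, 3, 1, 14), (7, 3, 0, 14), (7, 2, 2, 14), (7, 2, 1, 14), (7, 2, 0, 14), (7, 1, 1, 14),
    (7, 1, 0, 14), (7, 0, 0, 14)]),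
  (6, [(6, 17, 17, 14), (6, 17, 16, 14), (6, 17, 15, 14), (6, 17, 14, 14), (6, 17, 13, 14),
    (6, 17, 12, 14), (6, 17, 11, 14), (6, 17, 10, 14), (6, 16, 16, 14), (6, 16, 15, 14),
    (6, 16, 14, 14), (6, 16, 13, 14), (6, 16, 12, 14), (6, 16, 11, 14), (6, 16, 10, 14),
    (6, 15, 15, 14), (6, 15, 14, 14), (6, 15, 13, 14), (6, 15, 12, 14), (6, 15, 11, 14),
    (6, 15, 10, 14), (6, 15, 9, 14), (6, 14, 14, 14), (6, 14, 13, 14), (6, 14, 12, 14),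
    (6, 14, 11, 14), (6, 14, 10, 14), (6, 14, 9, 14), (6, 14, 8, 14), (6, 13, 13, 14),
    (6, 13, 12, 14), (6, 13, 11, 14), (6, 13, 10, 14), (6, 13, 9, 14), (6, 13, 8, 14),
    (6, 12, 12, 14), (6, 12, 11, 14), (6, 12, 10, 14), (6, 12, 9, 14), (6, 12, 8, 14),
    (6, 12, 7, 14), (6, 11, 11, 14), (6, 11, 10, 14), (6, 11, 9, 14), (6, 11, 8, 14),
    (6, 11, 7, 14), (6, 11, 6, 14), (6, 10, 10, 14), (6, 10, 9, 14), (6, 10, 8, 14),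
    (6, 10, 7, 14), (6, 10, 6, 14), (6, 10, 5, 14), (6, 10, 4, 14), (6, 9, 9, 14),
    (6, 9, 8, 14), (6, 9, 7, 14), (6, 9, 6, 14), (6, 9, 5, 14), (6, 9, 4, 14), (6, 9, 3, 14),
    (6, 8, 8, 14), (6, 8, 7, 14), (6, 8, 6, 14), (6, 8, 5, 14), (6, 8, 4, 14), (6, 8, 3, 14),
    (6, 8, 2, 14), (6, 7, 7, 14), (6, 7, 6, 14), (6, 7, 5, 14), (6, 7, 4, 14), (6, 7, 3, 14),
    (6, 7, 2, 14), (6, 7, 1, 14), (6, 6, 6, 14), (6, 6, 5, 14), (6, 6, 4, 14), (6, 6, 3, 14),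
    (6, 6, 2, 14), (6, 6, 1, 14), (6, 6, 0, 14), (6, 5, 5, 14), (6, 5, 4, 14), (6, 5, 3, 14),
    (6, 5, 2, 14), (6, 5, 1, 14), (6, 5, 0, 14), (6, 4, 4, 14), (6, 4, 3, 14), (6, 4, 2, 14),
    (6, 4, 1, 14), (6, 4, 0, 14), (6, 3, 3, 14), (6, 3, 2, 14), (6, 3, 1, 14), (6, 3, 0, 14),
    (6, 2, 2, 14), (6, 2, 1, 14), (6, 2, 0, 14), (6, 1, 1, 14), (6, 1, 0, 14), (6, 0, 0, 14)]),
  (5, [(5, 17, 17, 14), (5, 17, 16, 14), (5, 17, 15, 14), (5, 17, 14, 14), (5, 17, 13, 14),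
    (5, 17, 12, 14), (5, 17, 11, 14), (5, 16, 16, 14), (5, 16, 15, 14), (5, 16, 14, 14),
    (5, 16, 13, 14), (5, 16, 12, 14), (5, 16, 11, 14), (5, 16, 10, 14), (5, 15, 15, 14),
    (5, 15, 14, 14), (5, 15, 13, 14), (5, 15, 12, 14), (5, 15, 11, 14), (5, 15, 10, 14),
    (5, 14, 14, 14), (5, 14, 13, 14), (5, 14, 12, 14), (5, 14, 11, 14), (5, 14, 10, 14),
    (5, 14, 9, 14), (5, 13, 13, 14), (5, 13, 12, 14), (5, 13, 11, 14), (5, 13, 10, 14),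
    (5, 13, 9, 14), (5, 13, 8, 14), (5, 12, 12, 14), (5, 12, 11, 14), (5, 12, 10, 14),
    (5, 12, 9, 14), (5, 12, 8, 14), (5, 11, 11, 14), (5, 11, 10, 14), (5, 11, 9, 14),
    (5, 11, 8, 14), (5, 11, 7, 14), (5, 10, 10, 14), (5, 10, 9, 14), (5, 10, 8, 14),
    (5, 10, 7, 14), (5, 10, 6, 14), (5, 9, 9, 14), (5, 9, 8, 14), (5, 9, 7, 14),
    (5, 9, 6, 14), (5, 9, 5, 14), (5, 9, 4, 14), (5, 8, 8, 14), (5, 8, 7, 14), (5, 8, 6, 14),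
    (5, 8, 5, 14), (5, 8, 4, 14), (5, 8, 3, 14), (5, 7, 7, 14), (5, 7, 6, 14), (5, 7, 5, 14),
    (5, 7, 4, 14), (5, 7, 3, 14), (5, 7, 2, 14), (5, 6, 6, 14), (5, 6, 5, 14), (5, 6, 4, 14),
    (5, 6, 3, 14), (5, 6, 2, 14), (5, 6, 1, 14), (5, 5, 5, 14), (5, 5, 4, 14), (5, 5, 3, 14),
    (5, 5, 2, 14), (5, 5, 1, 14), (5, 5, 0, 14), (5, 4, 4, 14), (5, 4, 3, 14), (5, 4, 2, 14),
    (5, 4, 1, 14), (5, 4, 0, 14), (5, 3, 3, 14), (5, 3, 2, 14), (5, 3, 1, 14), (5, 3, 0, 14),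
    (5, 2, 2, 14), (5, 2, 1, 14), (5, 2, 0, 14), (5, 1, 1, 14), (5, 1, 0, 14), (5, 0, 0, 14)]),
  (4, [(4, 17, 17, 14), (4, 17, 16, 14), (4, 17, 15, 14), (4, 17, 14, 14), (4, 17, 13, 14),
    (4, 17, 12, 14), (4, 16, 16, 14), (4, 16, 15, 14), (4, 16, 14, 14), (4, 16, 13, 14),
    (4, 16, 12, 14), (4, 15, 15, 14), (4, 15, 14, 14), (4, 15, 13, 14), (4, 15, 12, 14),
    (4, 14, 14, 14), (4, 14, 13, 14), (4, 14, 12, 14), (4, 14, 11, 14), (4, 13, 13, 14),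
    (4, 13, 12, 14), (4, 13, 11, 14), (4, 13, 10, 14), (4, 12, 12, 14), (4, 12, 11, 14),
    (4, 12, 10, 14), (4, 12, 9, 14), (4, 11, 11, 14), (4, 11, 10, 14), (4, 11, 9, 14),
    (4, 11, 8, 14), (4, 10, 10, 14), (4, 10, 9, 14), (4, 10, 8, 14), (4, 10, 7, 14),
    (4, 9, 9, 14), (4, 9, 8, 14), (4, 9, 7, 14), (4, 9, 6, 14), (4, 8, 8, 14), (4, 8, 7, 14),
    (4, 8, 6, 14), (4, 8, 5, 14), (4, 7, 7, 14), (4, 7, 6, 14), (4, 7, 5, 14), (4, 7, 4, 14),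
    (4, 6, 6, 14), (4, 6, 5, 14), (4, 6, 4, 14), (4, 6, 3, 14), (4, 6, 2, 14), (4, 5, 5, 14),
    (4, 5, 4, 14), (4, 5, 3, 14), (4, 5, 2, 14), (4, 5, 1, 14), (4, 4, 4, 14), (4, 4, 3, 14),
    (4, 4, 2, 14), (4, 4, 1, 14), (4, 4, 0, 14), (4, 3, 3, 14), (4, 3, 2, 14), (4, 3, 1, 14),
    (4, 3, 0, 14), (4, 2, 2, 14), (4, 2, 1, 14), (4, 2, 0, 14), (4, 1, 1, 14), (4, 1, 0, 14),
    (4, 0, 0, 14)]),
  (3, [(3, 17, 17, 14), (3, 17, 16, 14), (3, 17, 15, 14), (3, 17, 14, 14), (3, 16, 16, 13),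
    (3, 16, 15, 13), (3, 16, 14, 13), (3, 15, 15, 12), (3, 15, 14, 12), (3, 14, 14, 11),
    (3, 14, 13, 11), (3, 13, 13, 10), (3, 13, 12, 10), (3, 12, 12, 9), (3, 11, 11, 8),
    (3, 10, 10, 7), (3, 9, 9, 6), (3, 9, 8, 6), (3, 8, 8, 5), (3, 8, 7, 5), (3, 7, 7, 4),
    (3, 7, 6, 4), (3, 6, 6, 3), (3, 6, 5, 3), (3, 6, 4, 3), (3, 5, 5, 3), (3, 5, 4, 3),
    (3, 5, 3, 3), (3, 5, 2, 3), (3, 4, 4, 3), (3, 4, 3, 3), (3, 4, 2, 3), (3, 4, 1, 3),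
    (3, 3, 3, 3), (3, 3, 2, 3), (3, 3, 1, 3), (3, 3, 0, 3), (3, 2, 2, 3), (3, 2, 1, 3),
    (3, 2, 0, 3), (3, 1, 1, 3), (3, 1, 0, 3), (3, 0, 0, 3)]),
  (2, [(2, 5, 5, 3), (2, 4, 4, 2), (2, 4, 3, 2), (2, 3, 3, 1), (2, 3, 2, 1), (2, 3, 1, 1),
    (2, 2, 2, 1), (2, 2, 1, 1), (2, 2, 0, 1), (2, 1, 1, 1), (2, 1, 0, 1), (2, 0, 0, 1)]),
  (1, [(1, 2, 2, 1), (1, 2, 1, 1), (1, 1, 1, 1), (1, 1, 0, 1), (1, 0, 0, 1)]),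
  (0, [(0, 1, 1, 1), (0, 0, 0, 0)])]

/-- the squares `kf t ^ 2` are larger than `t (M - t) + 1` -/
def kf16_8_17 (t : ℕ) : ℕ := ([2, 3, 4, 5, 5, 5, 4, 3, 2] : List ℕ).getD t 0

lemma ok16_8_17 : Kern.okF 16 8 = true ∧ Kern.okK 8 kf16_8_17 = true ∧
    Kern.srt (Kern.keyF 18) (Kern.flt gs16_8_17) = true ∧
    Kern.allTab 8 17 17 (Kern.okE 16 8 kf16_8_17)
      (fun a b c => (Kern.lookF (Kern.flt gs16_8_17) a b c).isSome) = true := by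
  decide +kernel

/-- a block -/
noncomputable def bk16_8_17 (j p k : ℕ) : Bool :=
  Kern.blk (fun a : ℕ × ℕ × ℕ × ℕ => a.1) (fun a => a.2.1) (fun a => a.2.2.2) (fun _ => 0)
    (fun _ => 0) (fun _ => 0) 8 17 9 (fun l => (Le.ld4 16 8) (Kern.revT l)) 7 gs16_8_17 j p k

end FinK

end Pool.Agent.Lib.MP_f04ccf_co
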