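import Pool.Agent.Lib.MP_f04ccf_co.M.FinY

/-!
MP_f04ccf_co, PLAN W, finite part: `R = 9`, `n = 5` rows, `∑ h ≤ 10` (loads, patterns or star).
Generated (helper11, gen.py, mk4.py): the table of all rows `(t, h, mu, b)` which pass the row filter `Kern.okE`,
`b` a bound for `h - t` on the rest of the table; the enumeration in blocks of first rows with the leaf
`(fun l => (Le.ld4 9 5 l || PatX.patX 9 5 cl5 l) || starT 9 l)`, checked by the kernel.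
-/

set_option autoImplicit false

namespace Pool.Agent.Lib.MP_f04ccf_co

namespace FinK

/-- the table -/
def gs9_5_10 : List (ℕ × List (ℕ × ℕ × ℕ × ℕ)) :=
  [(4, [(4, 10, 10, 9), (4, 10, 9, 9), (4, 10, 8, 9), (4, 10, 7, 9), (4, 10, 6, 9),
    (4, 10, 5, 9), (4, 9, 9, 9), (4, 9, 8, 9), (4, 9, 7, 9), (4, 9, 6, 9), (4, 9, 5, 9),
    (4, 8, 8, 9), (4, 8, 7, 9), (4, 8, 6, 9), (4, 8, 5, 9), (4, 8, 4, 9), (4, 7, 7, 9),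
    (4, 7, 6, 9), (4, 7, 5, 9), (4, 7, 4, 9), (4, 7, 3, 9), (4, 6, 6, 9), (4, 6, 5, 9),
    (4, 6, 4, 9), (4, 6, 3, 9), (4, 6, 2, 9), (4, 5, 5, 9), (4, 5, 4, 9), (4, 5, 3, 9),
    (4, 5, 2, 9), (4, 5, 1, 9), (4, 4, 4, 9), (4, 4, 3, 9), (4, 4, 2, 9), (4, 4, 1, 9),
    (4, 4, 0, 9), (4, 3, 3, 9), (4, 3, 2, 9), (4, 3, 1, 9), (4, 3, 0, 9), (4, 2, 2, 9),
    (4, 2, 1, 9), (4, 2, 0, 9), (4, 1, 1, 9), (4, 1, 0, 9), (4, 0, 0, 9)]),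
  (3, [(3, 10, 10, 9), (3, 10, 9, 9), (3, 10, 8, 9), (3, 10, 7, 9), (3, 10, 6, 9), (3, 9, 9, 9),
    (3, 9, 8, 9), (3, 9, 7, 9), (3, 9, 6, 9), (3, 9, 5, 9), (3, 8, 8, 9), (3, 8, 7, 9),
    (3, 8, 6, 9), (3, 8, 5, 9), (3, 7, 7, 9), (3, 7, 6, 9), (3, 7, 5, 9), (3, 7, 4, 9),
    (3, 6, 6, 9), (3, 6, 5, 9), (3, 6, 4, 9), (3, 6, 3, 9), (3, 5, 5, 9), (3, 5, 4, 9),
    (3, 5, 3, 9), (3, 5, 2, 9), (3, 4, 4, 9), (3, 4, 3, 9), (3, 4, 2, 9), (3, 4, 1, 9),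
    (3, 3, 3, 9), (3, 3, 2, 9), (3, 3, 1, 9), (3, 3, 0, 9), (3, 2, 2, 9), (3, 2, 1, 9),
    (3, 2, 0, 9), (3, 1, 1, 9), (3, 1, 0, 9), (3, 0, 0, 9)]),
  (2, [(2, 10, 10, 9), (2, 10, 9, 9), (2, 10, 8, 9), (2, 10, 7, 9), (2, 9, 9, 9), (2, 9, 8, 9),
    (2, 9, 7, 9), (2, 8, 8, 9), (2, 8, 7, 9), (2, 8, 6, 9), (2, 7, 7, 9), (2, 7, 6, 9),
    (2, 6, 6, 9), (2, 6, 5, 9), (2, 5, 5, 9), (2, 5, 4, 9), (2, 5, 3, 9), (2, 4, 4, 9),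
    (2, 4, 3, 9), (2, 4, 2, 9), (2, 3, 3, 9), (2, 3, 2, 9), (2, 3, 1, 9), (2, 2, 2, 9),
    (2, 2, 1, 9), (2, 2, 0, 9), (2, 1, 1, 9), (2, 1, 0, 9), (2, 0, 0, 9)]),
  (1, [(1, 10, 10, 9), (1, 10, 9, 9), (1, 9, 9, 8), (1, 4, 4, 3), (1, 3, 3, 2), (1, 3, 2, 2),
    (1, 2, 2, 1), (1, 2, 1, 1), (1, 1, 1, 1), (1, 1, 0, 1), (1, 0, 0, 1)]),
  (0, [(0, 1, 1, 1), (0, 0, 0, 0)])]

/-- the squares `kf t ^ 2` are larger than `t (M - t) + 1` -/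
def kf9_5_10 (t : ℕ) : ℕ := ([2, 3, 3, 3, 2] : List ℕ).getD t 0

lemma ok9_5_10 : Kern.okF 9 4 = true ∧ Kern.okK 4 kf9_5_10 = true ∧
    Kern.srt (Kern.keyF 11) (Kern.flt gs9_5_10) = true ∧
    Kern.allTab 4 10 10 (Kern.okE 9 4 kf9_5_10)
      (fun a b c => (Kern.lookF (Kern.flt gs9_5_10) a b c).isSome) = true := by
  decide +kernel

/-- a block -/
noncomputable def bk9_5_10 (j p k : ℕ) : Bool :=
  Kern.blk (fun a : ℕ × ℕ × ℕ × ℕ => a.1) (fun a => a.2.1) (fun a => a.2.2.2) (fun _ => 0)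
    (fun _ => 0) (fun _ => 0) 4 10 6 (fun l => (fun l => (Le.ld4 9 5 l || PatX.patX 9 5 cl5 l) || starT 9 l) (Kern.revT l)) 4 gs9_5_10 j p k

lemma b9_5_10_0_0 : bk9_5_10 0 0 46 = true := by decide +kernel

lemma b9_5_10_1_0 : bk9_5_10 1 0 40 = true := by decide +kernel

lemma b9_5_10_2_0 : bk9_5_10 2 0 29 = true := by decide +kernel

lemma b9_5_10_3_0 : bk9_5_10 3 0 11 = true := by decide +kernel

lemma b9_5_10_4_0 : bk9_5_10 4 0 2 = true := by decide +kernel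

lemma c9_5_10_0 : bk9_5_10 0 0 46 = true := b9_5_10_0_0

lemma c9_5_10_1 : bk9_5_10 1 0 40 = true := b9_5_10_1_0

lemma c9_5_10_2 : bk9_5_10 2 0 29 = true := b9_5_10_2_0

lemma c9_5_10_3 : bk9_5_10 3 0 11 = true := b9_5_10_3_0

lemma c9_5_10_4 : bk9_5_10 4 0 2 = true := b9_5_10_4_0

lemma e9_5_10 : Kern.EnS (fun a : ℕ × ℕ × ℕ × ℕ => a.1) (fun a => a.2.1) (fun _ => 0) (fun _ => 0)
    4 10 (5 + 1) (fun l => (fun l => (Le.ld4 9 5 l || PatX.patX 9 5 cl5 l) || starT 9 l) (Kern.revT l)) (4 + 1) (Kern.flt gs9_5_10) := by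
  refine Kern.EnS.of_blk (b := fun a => a.2.2.2) (bg := fun _ => 0) (by decide +kernel) fun j hj => ?_
  have hj' : j < 5 := hj
  interval_cases j
  · exact c9_5_10_0
  · exact c9_5_10_1
  · exact c9_5_10_2
  · exact c9_5_10_3
  · exact c9_5_10_4

theorem part9_5_10 : PartC ((9 : ℕ) : ℤ) 10 5 (fun l => (Le.ld4 9 5 l || PatX.patX 9 5 cl5 l) || starT 9 l) := by
  obtain ⟨h1, h2, h3, h4⟩ := ok9_5_10
  exact PartC.enumS (N := 11) (by norm_num) (by norm_num) h1 h2 h3 h4 e9_5_10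

end FinK

/-- **`R = 9`, `n = 5`, `∑ h ≤ 10`: no items** -/
theorem noItC9_5_10 : NoItC 9 10 5 :=
  NoItC.of_ls (by norm_num) (by norm_num) FinK.part9_5_10

end Pool.Agent.Lib.MP_f04ccf_co
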