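import Pool.Agent.Lib.MP_f04ccf_co.M.ItC

/-!
MP_f04ccf_co, PLAN W, version [C]: the excess of a cell for few PC pairs (over `ItC`).
For `i ≠ j`, `be i j` PC pairs of the host `i` with tail `j`:
* `ItC.nb10`, `ItC.nb20`, `ItC.nb11`: one pair; two pairs of one host; one pair of each host;
* `ItC.net1`, `ItC.net2`: `NN i j + NN j i - 2 FF i j ≤ 2`, `≤ 6` for one, two PC pairs of the cell;
* `ItC.pc2`, `ItC.pc3`: two (three) PC pairs of the cell: `R ≤ t t' + 4` (`2 R ≤ t t' + 9`);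
* `ItC.pairS`: the pair test with the energies and the net excess of the own cell.
-/

set_option autoImplicit false

namespace Pool.Agent.Lib.MP_f04ccf_co

open Finset

attribute [local instance] Classical.propDecidable

section CapC

variable {ι : Type*} {R : ℤ} {n : ℕ} {t s h e : ℕ → ℤ} {E : ℕ → ℕ → ℤ} {U : Finset ι}
  {ho : ι → ℕ} {vl : ι → ℤ} {kp ms mr : ℕ → ι → ℤ} {mu Nb : ℕ → ℤ} {Nx : ℕ → ℕ → ℤ}
  {be : ℕ → ℕ → ℤ} {ls : ℕ → ℤ → ℤ} {pc ar : ι → ℤ} {aT : ℕ → ℤ} {NN FF pw : ℕ → ℕ → ℤ}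
  {nu : ℕ → ι → ℤ}

namespace ItC

/-- the PC pairs of the host `i` with tail `j` -/
lemma pcset (H : ItC R n t s h e E U ho vl kp ms mr mu Nb Nx be ls pc ar aT NN FF pw nu)
    {i j : ℕ} (hi : i < n) (hj : j < n) :
    ∃ D ⊆ U, (D.card : ℤ) = be i j ∧ (∀ u ∈ D, ho u = i ∧ pc u = 1 ∧ kp j u ≠ 0) ∧
      ∑ u ∈ U.filter (fun u => ho u = i), nu j u = ∑ u ∈ D, nu j u := by
  refine ⟨U.filter fun u => ho u = i ∧ pc u = 1 ∧ kp j u ≠ 0, filter_subset _ _, ?_,
    fun u hu => (mem_filter.1 hu).2, ?_⟩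
  · rw [← H.pcb i hi j hj, card_filter, Nat.cast_sum, sum_filter]
    refine sum_congr rfl fun u hu => ?_
    by_cases h1 : ho u = i
    · rcases H.pcf u hu with h2 | h2
      · simp [h1, h2]
      · by_cases h3 : kp j u = 0
        · simp [h1, h2, h3]
        · have h4 := H.k0 u hu j hj
          have h5 : kp j u ≤ 1 := by
            have h6 := H.pcv u hu (by rw [h2]; norm_num)
            have h7 := H.kv u hu j hj
            linarith
          have h6 : kp j u = 1 := by omega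
          simp [h1, h2, h6]
    · simp [h1]
  · refine (sum_subset (fun u hu => ?_) fun u hu hu' => ?_).symm
    · obtain ⟨h1, h2⟩ := mem_filter.1 hu
      exact mem_filter.2 ⟨h1, h2.1⟩
    · obtain ⟨h1, h2⟩ := mem_filter.1 hu
      rcases H.pcf u h1 with h3 | h3
      · exact H.nup u h1 h3 j hj
      · by_cases h4 : kp j u = 0
        · exact H.nuz u h1 j hj h4
        · exact absurd (mem_filter.2 ⟨h1, h2, h3, h4⟩) hu'

/-- one PC pair of the host `i` with tail `j`, at least one: the free arcs `f` of the longest -/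
lemma exf (H : ItC R n t s h e E U ho vl kp ms mr mu Nb Nx be ls pc ar aT NN FF pw nu)
    {i j : ℕ} (hi : i < n) (hj : j < n) :
    ∃ f : ℤ, 0 ≤ f ∧ NN i j ≤ be i j * (be i j + 1 + 2 * f) ∧
      (be i j = 0 ∨ ∃ u ∈ U, ho u = i ∧ pc u = 1 ∧ kp j u ≠ 0 ∧ nu j u = f) ∧
      (be i j ≠ 0 → f * (f + 1 - be j i) ≤ FF i j) := by
  obtain ⟨D, hD, hc, hp, hs⟩ := H.pcset hi hj
  have h1 := H.NNb i hi j hj
  rw [hs] at h1
  rcases D.eq_empty_or_nonempty with rfl | hne
  · have h2 : be i j = 0 := by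
      rw [← hc]
      simp
    refine ⟨0, le_refl _, ?_, Or.inl h2, fun h3 => absurd h2 h3⟩
    rw [H.NNz i hi j hj h2, h2]
    norm_num
  · obtain ⟨u, hu, hmax⟩ := exists_max_image D (fun u => nu j u) hne
    obtain ⟨a1, a2, a3⟩ := hp u hu
    have h2 : ∑ v ∈ D, nu j v ≤ D.card * nu j u := by
      have := sum_le_card_nsmul D (fun v => nu j v) (nu j u) fun v hv => hmax v hv
      rw [nsmul_eq_mul] at this
      exact this
    rw [hc] at h2
    have h3 := H.FFg u (hD hu) a2 j hj a3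
    rw [a1] at h3
    refine ⟨nu j u, H.nu0 u (hD hu) j hj, ?_, Or.inr ⟨u, hD hu, a1, a2, a3, rfl⟩, fun _ => h3⟩
    have h4 : be i j * (be i j + 1 + 2 * nu j u)
        = be i j * (be i j + 1) + 2 * (be i j * nu j u) := by ring
    rw [h4]
    linarith

/-- **the excess of a cell with one PC pair** -/
theorem nb10 (H : ItC R n t s h e E U ho vl kp ms mr mu Nb Nx be ls pc ar aT NN FF pw nu)
    {i j : ℕ} (hi : i < n) (hj : j < n) (hij : i ≠ j) (h1 : be i j = 1) (h0 : be j i = 0) :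
    NN j i = 0 ∧ ∃ f : ℤ, 0 ≤ f ∧ NN i j ≤ 2 * (1 + f) ∧ f ^ 2 ≤ t i * t j + 1 ∧
      f * (f + 1) ≤ FF i j := by
  obtain ⟨f, f0, f1, -, f2⟩ := H.exf hi hj
  have h2 := H.NNz j hj i hi h0
  have h3 := H.cellP i hi j hj hij
  have h4 := f2 (by rw [h1]; norm_num)
  rw [h1] at f1
  rw [h0] at h4
  rw [h1, h0, h2] at h3
  have h5 : f * (f + 1) ≤ FF i j := by
    have e : f * (f + 1 - 0) = f * (f + 1) := by ring
    rw [e] at h4
    exact h4
  refine ⟨h2, f, f0, by linarith, by nlinarith, h5⟩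

/-- **the excess of a cell with two PC pairs of one host** -/
theorem nb20 (H : ItC R n t s h e E U ho vl kp ms mr mu Nb Nx be ls pc ar aT NN FF pw nu)
    {i j : ℕ} (hi : i < n) (hj : j < n) (hij : i ≠ j) (h1 : be i j = 2) (h0 : be j i = 0) :
    NN j i = 0 ∧ ∃ f : ℤ, 0 ≤ f ∧ NN i j ≤ 2 * (3 + 2 * f) ∧ f ^ 2 - f ≤ t i * t j + 4 - R ∧
      f * (f + 1) ≤ FF i j := by
  obtain ⟨f, f0, f1, -, f2⟩ := H.exf hi hj
  have h2 := H.NNz j hj i hi h0
  have h3 := H.cellP i hi j hj hij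
  have h4 := f2 (by rw [h1]; norm_num)
  rw [h1] at f1
  rw [h0] at h4
  rw [h1, h0, h2] at h3
  have h5 : f * (f + 1) ≤ FF i j := by
    have e : f * (f + 1 - 0) = f * (f + 1) := by ring
    rw [e] at h4
    exact h4
  refine ⟨h2, f, f0, by linarith, by nlinarith, h5⟩

/-- **the excess of a cell with one PC pair of each host** -/
theorem nb11 (H : ItC R n t s h e E U ho vl kp ms mr mu Nb Nx be ls pc ar aT NN FF pw nu)
    {i j : ℕ} (hi : i < n) (hj : j < n) (hij : i ≠ j) (h1 : be i j = 1) (h0 : be j i = 1) :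
    ∃ f : ℤ, 0 ≤ f ∧ NN i j ≤ 2 * (1 + f) ∧ NN j i ≤ 2 * (1 + f) ∧
      f ^ 2 - 2 * f ≤ t i * t j + 3 - R ∧ f ^ 2 ≤ FF i j := by
  obtain ⟨f, f0, f1, -, f2⟩ := H.exf hi hj
  obtain ⟨g, g0, g1, -, g2⟩ := H.exf hj hi
  have h3 := H.cellP i hi j hj hij
  have h4 := f2 (by rw [h1]; norm_num)
  have h5 := g2 (by rw [h0]; norm_num)
  rw [H.FFs j hj i hi] at h5
  rw [h1] at f1 h5
  rw [h0] at g1 h4
  rw [h1, h0] at h3
  rcases le_total g f with hgf | hgf
  · exact ⟨f, f0, by linarith, by linarith, by nlinarith, by nlinarith⟩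
  · exact ⟨g, g0, by linarith, by linarith, by nlinarith, by nlinarith⟩

/-- **the net excess of a cell with one PC pair** -/
theorem net1 (H : ItC R n t s h e E U ho vl kp ms mr mu Nb Nx be ls pc ar aT NN FF pw nu)
    {i j : ℕ} (hi : i < n) (hj : j < n) (hij : i ≠ j) (h1 : be i j + be j i = 1) :
    NN i j + NN j i - 2 * FF i j ≤ 2 := by
  have b0 := H.be0 i hi j hj
  have b1 := H.be0 j hj i hi
  rcases (by omega : be i j = 1 ∧ be j i = 0 ∨ be i j = 0 ∧ be j i = 1) with ⟨h2, h3⟩ | ⟨h2, h3⟩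
  · obtain ⟨a1, f, f0, f1, -, f2⟩ := H.nb10 hi hj hij h2 h3
    rw [a1]
    nlinarith
  · obtain ⟨a1, f, f0, f1, -, f2⟩ := H.nb10 hj hi hij.symm h3 h2
    rw [H.FFs j hj i hi] at f2
    rw [a1]
    nlinarith

/-- **the net excess of a cell with two PC pairs** -/
theorem net2 (H : ItC R n t s h e E U ho vl kp ms mr mu Nb Nx be ls pc ar aT NN FF pw nu)
    {i j : ℕ} (hi : i < n) (hj : j < n) (hij : i ≠ j) (h1 : be i j + be j i = 2) :
    NN i j + NN j i - 2 * FF i j ≤ 6 := by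
  have b0 := H.be0 i hi j hj
  have b1 := H.be0 j hj i hi
  have key : ∀ f : ℤ, 0 ≤ f → f ≤ f * f := fun f hf => by
    rcases eq_or_lt_of_le hf with h2 | h2
    · rw [← h2]
      norm_num
    · nlinarith
  rcases (by omega : be i j = 2 ∧ be j i = 0 ∨ be i j = 0 ∧ be j i = 2 ∨
    be i j = 1 ∧ be j i = 1) with ⟨h2, h3⟩ | ⟨h2, h3⟩ | ⟨h2, h3⟩
  · obtain ⟨a1, f, f0, f1, -, f2⟩ := H.nb20 hi hj hij h2 h3
    have h4 := key f f0
    rw [a1]
    nlinarith
  · obtain ⟨a1, f, f0, f1, -, f2⟩ := H.nb20 hj hi hij.symm h3 h2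
    have h4 := key f f0
    rw [H.FFs j hj i hi] at f2
    rw [a1]
    nlinarith
  · obtain ⟨f, f0, f1, f1', -, f2⟩ := H.nb11 hi hj hij h2 h3
    nlinarith [sq_nonneg (f - 1)]

/-- **two PC pairs of a cell** -/
theorem pc2 (H : ItC R n t s h e E U ho vl kp ms mr mu Nb Nx be ls pc ar aT NN FF pw nu)
    {i j : ℕ} (hi : i < n) (hj : j < n) (hij : i ≠ j) (h1 : 2 ≤ be i j + be j i) :
    R ≤ t i * t j + 4 := by
  have h2 := H.jsub i hi j hj hij 2 (by exact_mod_cast h1)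
  norm_num at h2
  linarith

/-- **three PC pairs of a cell** -/
theorem pc3 (H : ItC R n t s h e E U ho vl kp ms mr mu Nb Nx be ls pc ar aT NN FF pw nu)
    {i j : ℕ} (hi : i < n) (hj : j < n) (hij : i ≠ j) (h1 : 3 ≤ be i j + be j i) :
    2 * R ≤ t i * t j + 9 := by
  have h2 := H.jsub i hi j hj hij 3 (by exact_mod_cast h1)
  norm_num at h2
  linarith

/-- **the energy in cells** -/
theorem enC (H : ItC R n t s h e E U ho vl kp ms mr mu Nb Nx be ls pc ar aT NN FF pw nu)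
    {i : ℕ} (hi : i < n) :
    2 * e i + mu i * (mu i + 1) ≤ 2 * (mu i * h i) + ∑ j ∈ (range n).erase i, NN i j := by
  have h1 := H.en i hi
  have h2 : ∑ j ∈ (range n).erase i, Nx i j = 0 := sum_eq_zero fun j hj =>
    H.nxC i hi j (mem_range.1 (mem_of_mem_erase hj))
  rw [h2, H.nbC i hi] at h1
  linarith

/-- **the pair test with the own cell paid** -/
theorem pairS (H : ItC R n t s h e E U ho vl kp ms mr mu Nb Nx be ls pc ar aT NN FF pw nu)
    {i j : ℕ} (hi : i < n) (hj : j < n) (hij : i ≠ j) :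
    2 * ((R - 1) * (s i + s j))
      + 2 * (∑ u ∈ U.filter (fun u => ho u = i), (kp j u * (R - t j) - ms j u)
        + ∑ u ∈ U.filter (fun u => ho u = j), (kp i u * (R - t i) - ms i u))
      + mu i * (mu i + 1) + mu j * (mu j + 1)
      ≤ 2 * (mu i * h i) + 2 * (mu j * h j) + 2 * (R + 1) + 2 * (s i * s j)
        + ∑ l ∈ ((range n).erase i).erase j, NN i l + ∑ l ∈ ((range n).erase j).erase i, NN j l
        + (NN i j + NN j i - 2 * FF i j) := by
  have h1 := H.enC hi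
  have h2 := H.enC hj
  have h3 := H.pairF i hi j hj hij
  have h4 := H.P {i, j} (by
    intro x hx
    rcases mem_insert.1 hx with h5 | h5
    · rw [h5]
      exact mem_range.2 hi
    · rw [mem_singleton.1 h5]
      exact mem_range.2 hj)
  rw [← add_sum_erase _ (fun l => NN i l) (mem_erase.2 ⟨hij.symm, mem_range.2 hj⟩)] at h1
  rw [← add_sum_erase _ (fun l => NN j l) (mem_erase.2 ⟨hij, mem_range.2 hi⟩)] at h2
  have e1 : ({i, j} : Finset ℕ).erase i = {j} := by
    rw [erase_insert]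
    simpa using hij
  have e2 : ({i, j} : Finset ℕ).erase j = {i} := by
    rw [pair_comm, erase_insert]
    simpa using hij.symm
  rw [sum_pair hij, sum_pair hij, sum_pair hij, sum_pair hij, e1, e2, sum_singleton,
    sum_singleton, card_pair hij, H.Es j i] at h4
  push_cast at h4
  nlinarith

end ItC

end CapC

end Pool.Agent.Lib.MP_f04ccf_co
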