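import Pool.Agent.Lib.MP_f04ccf_co.M.KernD

/-!
MP_f04ccf_co: kernel checks (F5), FAST ENUMERATION.  The rows are grouped by `t`
(`gs : List (ℕ × List α)`, `Kern.flt gs` = the table), a group whose `t` is too large is skipped in one
step; besides `Σ t ≤ M`, `Σ h ≤ K`, `Σ h = Σ t + c` there is one more additive budget
`Σ gm ≤ Σ gp` (two more columns, for example `gm = D mu`, `gp = cap`) which is used at every node.
`Kern.enumF`: the enumeration, written with the recursors (speed under `decide +kernel`),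
`Kern.enumF_sound`; `BI.enumF`, `ItE.enumF3`: the forms of `BI.enumA`, `ItE.enum3`.
Columns: `b` is a bound for `h - t`, `bg` a bound for `gp - gm` on the rest of the table.
-/

set_option autoImplicit false

namespace Pool.Agent.Lib.MP_f04ccf_co

open Finset

namespace Kern

section Fast

variable {α : Type*}

/-- the table of the groups -/
def flt (gs : List (ℕ × List α)) : List α := gs.flatMap fun g => g.2

/-- every row of a group has at least the `t` of the group -/
def okG (t : α → ℕ) (gs : List (ℕ × List α)) : Bool := gs.all fun g => g.2.all fun a => Nat.ble g.1 (t a)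

/-- the loop over the rows `e` of one group, `cont` the result for the later groups, `rec` the
search for one more row -/
noncomputable def lpF (t h b bg : α → ℕ) (M K c k T H P Q : ℕ) (cont : Bool)
    (rec : List α → Bool) (e : List α) : Bool :=
  List.rec (motive := fun _ => Bool) cont
    (fun a tab r => Bool.rec (motive := fun _ => Bool)
      (Bool.rec (motive := fun _ => Bool)
        (Bool.rec (motive := fun _ => Bool) r
          (Bool.rec (motive := fun _ => Bool) r
            (Bool.rec (motive := fun _ => Bool) false r (rec (a :: tab)))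
            (Nat.ble (Nat.add H (h a)) K))
          (Nat.ble (Nat.add T (t a)) M))
        true (Nat.ble (Nat.succ (Nat.add P (Nat.mul k (bg a)))) Q))
      true (Nat.ble (Nat.succ (Nat.add H (Nat.mul k (b a)))) (Nat.add T c))) e

/-- the loop over the groups -/
noncomputable def lpG (t h b bg : α → ℕ) (M K c k T H P Q : ℕ)
    (rec : List α → List (ℕ × List α) → Bool) (gs : List (ℕ × List α)) : Bool :=
  List.rec (motive := fun _ => Bool) true
    (fun g gs' r => Bool.rec (motive := fun _ => Bool) r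
      (lpF t h b bg M K c k T H P Q r (fun e => rec e gs') g.2)
      (Nat.ble (Nat.add T g.1) M)) gs

/-- **the search** for `n` more rows: `e` the rest of the group, `gs` the later groups, `l` the rows
up to now, `T`, `H`, `P`, `Q` their sums of `t`, `h`, `gp`, `gm` -/
noncomputable def seF (t h b gp gm bg : α → ℕ) (M K c : ℕ) (leaf : List α → Bool) (n : ℕ) :
    List α → List (ℕ × List α) → ℕ → ℕ → ℕ → ℕ → List α → Bool :=
  Nat.rec (motive := fun _ => List α → List (ℕ × List α) → ℕ → ℕ → ℕ → ℕ → List α → Bool)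
    (fun _ _ T H P Q l => Bool.rec (motive := fun _ => Bool) true
      (Bool.rec (motive := fun _ => Bool) true (leaf l) (Nat.ble Q P)) (Nat.beq H (Nat.add T c)))
    (fun k ih e gs T H P Q l => lpF t h b bg M K c (Nat.succ k) T H P Q
      (lpG t h b bg M K c (Nat.succ k) T H P Q (fun e' gs' => List.rec
        (motive := fun _ => Bool) true
        (fun a _ _ => ih e' gs' (Nat.add T (t a)) (Nat.add H (h a)) (Nat.add P (gp a))
          (Nat.add Q (gm a)) (a :: l)) e') gs)
      (fun e' => List.rec (motive := fun _ => Bool) true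
        (fun a _ _ => ih e' gs (Nat.add T (t a)) (Nat.add H (h a)) (Nat.add P (gp a))
          (Nat.add Q (gm a)) (a :: l)) e') e) n

/-- **the fast enumeration** -/
noncomputable def enumF (t h b gp gm bg : α → ℕ) (M K c : ℕ) (leaf : List α → Bool) (n : ℕ)
    (gs : List (ℕ × List α)) : Bool :=
  okG t gs && (bnd t h b (flt gs) && (bnd gm gp bg (flt gs) &&
    seF t h b gp gm bg M K c leaf n [] gs 0 0 0 0 []))

variable {t h b gp gm bg : α → ℕ} {M K c : ℕ} {leaf : List α → Bool}

lemma lpF_cons (k T H P Q : ℕ) (cont : Bool) (rec : List α → Bool) (a : α) (tab : List α)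
    (h1 : lpF t h b bg M K c k T H P Q cont rec (a :: tab) = true) :
    H + k * b a < T + c ∨ P + k * bg a < Q ∨
      ((T + t a ≤ M → H + h a ≤ K → rec (a :: tab) = true) ∧
        lpF t h b bg M K c k T H P Q cont rec tab = true) := by
  have h2 : Bool.rec (motive := fun _ => Bool)
      (Bool.rec (motive := fun _ => Bool)
        (Bool.rec (motive := fun _ => Bool) (lpF t h b bg M K c k T H P Q cont rec tab)
          (Bool.rec (motive := fun _ => Bool) (lpF t h b bg M K c k T H P Q cont rec tab)
            (Bool.rec (motive := fun _ => Bool) false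
              (lpF t h b bg M K c k T H P Q cont rec tab) (rec (a :: tab)))
            (Nat.ble (Nat.add H (h a)) K))
          (Nat.ble (Nat.add T (t a)) M))
        true (Nat.ble (Nat.succ (Nat.add P (Nat.mul k (bg a)))) Q))
      true (Nat.ble (Nat.succ (Nat.add H (Nat.mul k (b a)))) (Nat.add T c)) = true := h1
  rcases e1 : Nat.ble (Nat.succ (Nat.add H (Nat.mul k (b a)))) (Nat.add T c) with _ | _
  · rw [e1] at h2
    rcases e2 : Nat.ble (Nat.succ (Nat.add P (Nat.mul k (bg a)))) Q with _ | _
    · rw [e2] at h2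
      refine Or.inr (Or.inr ?_)
      rcases e3 : Nat.ble (Nat.add T (t a)) M with _ | _
      · rw [e3] at h2
        refine ⟨fun h3 => ?_, h2⟩
        have h4 : Nat.ble (Nat.add T (t a)) M = true := Nat.ble_eq_true_of_le h3
        rw [e3] at h4
        exact absurd h4 (by simp)
      · rw [e3] at h2
        rcases e4 : Nat.ble (Nat.add H (h a)) K with _ | _
        · rw [e4] at h2
          refine ⟨fun _ h3 => ?_, h2⟩
          have h4 : Nat.ble (Nat.add H (h a)) K = true := Nat.ble_eq_true_of_le h3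
          rw [e4] at h4
          exact absurd h4 (by simp)
        · rw [e4] at h2
          rcases e5 : rec (a :: tab) with _ | _
          · rw [e5] at h2
            exact absurd h2 (by simp)
          · rw [e5] at h2
            exact ⟨fun _ _ => rfl, h2⟩
    · exact Or.inr (Or.inl (Nat.le_of_ble_eq_true e2))
  · exact Or.inl (Nat.le_of_ble_eq_true e1)

lemma lpG_cons (k T H P Q : ℕ) (rec : List α → List (ℕ × List α) → Bool) (g : ℕ × List α)
    (gs : List (ℕ × List α))
    (h1 : lpG t h b bg M K c k T H P Q rec (g :: gs) = true) :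
    (M < T + g.1 ∧ lpG t h b bg M K c k T H P Q rec gs = true) ∨
    lpF t h b bg M K c k T H P Q (lpG t h b bg M K c k T H P Q rec gs)
      (fun e => rec e gs) g.2 = true := by
  have h2 : Bool.rec (motive := fun _ => Bool) (lpG t h b bg M K c k T H P Q rec gs)
      (lpF t h b bg M K c k T H P Q (lpG t h b bg M K c k T H P Q rec gs)
        (fun e => rec e gs) g.2) (Nat.ble (Nat.add T g.1) M) = true := h1
  rcases e1 : Nat.ble (Nat.add T g.1) M with _ | _
  · rw [e1] at h2
    refine Or.inl ⟨?_, h2⟩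
    by_contra h3
    have h4 : Nat.ble (Nat.add T g.1) M = true := Nat.ble_eq_true_of_le (not_lt.1 h3)
    rw [e1] at h4
    exact absurd h4 (by simp)
  · rw [e1] at h2
    exact Or.inr h2

/-- what the search shows: every completion of the rows up to now passes the leaf -/
def Cmp (t h gp gm : α → ℕ) (M K c : ℕ) (leaf : List α → Bool) (k : ℕ) (tab : List α)
    (T H P Q : ℕ) (l : List α) : Prop :=
  ∀ l' : List α, l'.length = k → InTab tab l' → T + (l'.map t).sum ≤ M → H + (l'.map h).sum ≤ K →
    H + (l'.map h).sum = T + (l'.map t).sum + c → Q + (l'.map gm).sum ≤ P + (l'.map gp).sum →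
    leaf (l'.reverse ++ l) = true

/-- the loop over a group -/
lemma lpF_spec {k T H P Q : ℕ} {l : List α} {cont : Bool} {rec : List α → Bool} {rest : List α}
    (hc : cont = true → Cmp t h gp gm M K c leaf (k + 1) rest T H P Q l)
    (hr : ∀ a tab, bnd t h b (a :: tab ++ rest) = true → bnd gm gp bg (a :: tab ++ rest) = true →
      rec (a :: tab) = true → Cmp t h gp gm M K c leaf k (a :: tab ++ rest)
        (T + t a) (H + h a) (P + gp a) (Q + gm a) (a :: l)) :
    ∀ e : List α, bnd t h b (e ++ rest) = true → bnd gm gp bg (e ++ rest) = true →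
      lpF t h b bg M K c (k + 1) T H P Q cont rec e = true →
      Cmp t h gp gm M K c leaf (k + 1) (e ++ rest) T H P Q l := by
  intro e
  induction e with
  | nil => intro _ _ h1; exact hc h1
  | cons a tab ih =>
    intro hb hb' h1 l' hl hin hM hK hs hq
    rcases lpF_cons _ _ _ _ _ _ _ _ _ h1 with h2 | h2 | ⟨h2, h3⟩
    · exfalso
      have h4 := InTab.le_sum hb hin
      rw [hl] at h4
      omega
    · exfalso
      have h4 := InTab.le_sum hb' hin
      rw [hl] at h4
      omega
    rcases l' with _ | ⟨x, l'⟩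
    · simp at hl
    obtain ⟨suf, h4, h5⟩ := hin
    rcases List.suffix_cons_iff.1 h4 with h6 | h6
    · obtain ⟨rfl, rfl⟩ := List.cons.inj h6
      simp only [List.map_cons, List.sum_cons] at hM hK hs hq
      have h7 := hr x tab hb hb' (h2 (by omega) (by omega)) l' (by simpa using hl) h5 (by omega)
        (by omega) (by omega) (by omega)
      rw [List.reverse_cons, List.append_assoc]
      exact h7
    · exact ih (bnd_tail hb) (bnd_tail hb') h3 (x :: l') hl ⟨suf, h6, h5⟩ hM hK hs hq

lemma flt_cons (g : ℕ × List α) (gs : List (ℕ × List α)) : flt (g :: gs) = g.2 ++ flt gs := by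
  rw [flt, List.flatMap_cons, flt]

/-- the loop over the groups -/
lemma lpG_spec {k T H P Q : ℕ} {l : List α} {rec : List α → List (ℕ × List α) → Bool}
    (hr : ∀ a tab gs, okG t gs = true → bnd t h b (a :: tab ++ flt gs) = true →
      bnd gm gp bg (a :: tab ++ flt gs) = true →
      rec (a :: tab) gs = true → Cmp t h gp gm M K c leaf k (a :: tab ++ flt gs)
        (T + t a) (H + h a) (P + gp a) (Q + gm a) (a :: l)) :
    ∀ gs : List (ℕ × List α), okG t gs = true → bnd t h b (flt gs) = true →
      bnd gm gp bg (flt gs) = true →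
      lpG t h b bg M K c (k + 1) T H P Q rec gs = true →
      Cmp t h gp gm M K c leaf (k + 1) (flt gs) T H P Q l := by
  intro gs
  induction gs with
  | nil =>
    intro _ _ _ _ l' hl hin
    rcases l' with _ | ⟨a, l'⟩
    · simp at hl
    · obtain ⟨suf, h1, -⟩ := hin
      simp [flt] at h1
  | cons g gs ih =>
    intro hg hb hb' h1
    have hg' : (∀ a ∈ g.2, g.1 ≤ t a) ∧ okG t gs = true := by
      rw [okG, List.all_cons, Bool.and_eq_true] at hg
      refine ⟨fun a ha => ?_, hg.2⟩
      exact Nat.le_of_ble_eq_true (List.all_eq_true.1 hg.1 a ha)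
    rw [flt_cons] at hb hb' ⊢
    have hbs : bnd t h b (flt gs) = true := bnd_suffix hb (List.suffix_append _ _)
    have hbs' : bnd gm gp bg (flt gs) = true := bnd_suffix hb' (List.suffix_append _ _)
    rcases lpG_cons _ _ _ _ _ _ _ _ h1 with ⟨h2, h3⟩ | h2
    · -- the group is skipped
      intro l' hl hin hM hK hs hq
      rcases l' with _ | ⟨x, l'⟩
      · simp at hl
      have hx : x ∉ g.2 := by
        intro hx
        have h4 := hg'.1 x hx
        simp only [List.map_cons, List.sum_cons] at hM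
        omega
      obtain ⟨suf, h4, h5⟩ := hin
      refine ih hg'.2 hbs hbs' h3 (x :: l') hl ⟨suf, ?_, h5⟩ hM hK hs hq
      obtain ⟨pre, h6⟩ := h4
      rcases List.append_eq_append_iff.1 h6 with ⟨a', h7, h8⟩ | ⟨c', h7, h8⟩
      · -- `g.2 = pre ++ a'`, `x :: suf = a' ++ flt gs`
        rcases a' with _ | ⟨y, a'⟩
        · rw [List.nil_append] at h8
          rw [← h8]
        · exfalso
          rw [List.cons_append] at h8
          obtain ⟨rfl, -⟩ := List.cons.inj h8
          exact hx (by rw [h7]; simp)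
      · exact ⟨c', h8.symm⟩
    · exact lpF_spec (ih hg'.2 hbs hbs') (fun a tab h3 h4 h5 => hr a tab gs hg'.2 h3 h4 h5) g.2 hb hb'
        h2

theorem seF_spec : ∀ (n : ℕ) (e : List α) (gs : List (ℕ × List α)) (T H P Q : ℕ) (l : List α),
    okG t gs = true → bnd t h b (e ++ flt gs) = true → bnd gm gp bg (e ++ flt gs) = true →
    seF t h b gp gm bg M K c leaf n e gs T H P Q l = true →
    Cmp t h gp gm M K c leaf n (e ++ flt gs) T H P Q l := by
  intro n
  induction n with
  | zero =>
    intro e gs T H P Q l _ _ _ h1 l' hl _ hM hK hs hq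
    rw [List.length_eq_zero_iff] at hl
    subst hl
    simp only [List.map_nil, List.sum_nil, add_zero] at hM hK hs hq
    have h2 : Bool.rec (motive := fun _ => Bool) true
      (Bool.rec (motive := fun _ => Bool) true (leaf l) (Nat.ble Q P)) (Nat.beq H (Nat.add T c))
        = true := h1
    have e1 : Nat.beq H (Nat.add T c) = true := by rw [Nat.beq_eq]; exact hs
    have e2 : Nat.ble Q P = true := Nat.ble_eq_true_of_le hq
    rw [e1, e2] at h2
    exact h2
  | succ k ih =>
    intro e gs T H P Q l hg hb hb' h1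
    have h2 : lpF t h b bg M K c (k + 1) T H P Q
      (lpG t h b bg M K c (k + 1) T H P Q (fun e' gs' => List.rec
        (motive := fun _ => Bool) true
        (fun a _ _ => seF t h b gp gm bg M K c leaf k e' gs' (T + t a) (H + h a) (P + gp a)
          (Q + gm a) (a :: l)) e') gs)
      (fun e' => List.rec (motive := fun _ => Bool) true
        (fun a _ _ => seF t h b gp gm bg M K c leaf k e' gs (T + t a) (H + h a) (P + gp a)
          (Q + gm a) (a :: l)) e') e = true := h1
    refine lpF_spec ?_ ?_ e hb hb' h2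
    · exact lpG_spec (fun a tab gs' h3 h4 h5 h6 => ih (a :: tab) gs' _ _ _ _ _ h3 h4 h5 h6) gs hg
        (bnd_suffix hb (List.suffix_append _ _)) (bnd_suffix hb' (List.suffix_append _ _))
    · intro a tab h3 h4 h5
      exact ih (a :: tab) gs _ _ _ _ _ hg h3 h4 h5

/-- **soundness**: every list of `n` rows in table order with the five conditions passes the leaf -/
theorem enumF_sound {n : ℕ} {gs : List (ℕ × List α)}
    (he : enumF t h b gp gm bg M K c leaf n gs = true) {l : List α} (hl : l.length = n)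
    (hin : InTab (flt gs) l) (hM : (l.map t).sum ≤ M) (hK : (l.map h).sum ≤ K)
    (hc : (l.map h).sum = (l.map t).sum + c) (hq : (l.map gm).sum ≤ (l.map gp).sum) :
    leaf l.reverse = true := by
  rw [enumF, Bool.and_eq_true, Bool.and_eq_true, Bool.and_eq_true] at he
  obtain ⟨h1, h2, h3, h4⟩ := he
  have h5 := seF_spec n [] gs 0 0 0 0 [] h1 h2 h3 h4 l hl hin (by omega) (by omega) (by omega)
    (by omega)
  simpa using h5

end Fast

end Kern

attribute [local instance] Classical.propDecidable

section ListF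

variable {R : ℤ} {n : ℕ} {t s h e : ℕ → ℤ} {E : ℕ → ℕ → ℤ} {α : Type*}

/-- **the basic integers go through the fast enumeration** -/
theorem BI.enumF (H : BI R n t s h e E) {ft fh fb fp fm fg κ : α → ℕ} {gs : List (ℕ × List α)}
    {M K : ℕ} {leaf : List α → Bool} (hs : Kern.srt κ (Kern.flt gs) = true) (hK : R + 1 ≤ K)
    (hM : R - n ≤ M) (x : ℕ → α)
    (hx : ∀ i, i < n → x i ∈ Kern.flt gs ∧ (ft (x i) : ℤ) = t i ∧ (fh (x i) : ℤ) = h i)
    (hκ : ∀ i j, i < j → j < n → κ (x j) ≤ κ (x i))
    (hq : ∑ i ∈ range n, fm (x i) ≤ ∑ i ∈ range n, fp (x i))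
    (he : Kern.enumF ft fh fb fp fm fg M K (n + 1) leaf n gs = true) :
    leaf ((List.range n).map x).reverse = true := by
  have e1 : ((((List.range n).map x).map ft).sum : ℤ) = ∑ i ∈ range n, t i := by
    rw [List.map_map, Kern.sum_map_range]
    push_cast
    exact sum_congr rfl fun i hi => (hx i (mem_range.1 hi)).2.1
  have e2 : ((((List.range n).map x).map fh).sum : ℤ) = ∑ i ∈ range n, h i := by
    rw [List.map_map, Kern.sum_map_range]
    push_cast
    exact sum_congr rfl fun i hi => (hx i (mem_range.1 hi)).2.2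
  have e3 : ∑ i ∈ range n, h i = ∑ i ∈ range n, t i + (n + 1) := by
    rw [sum_congr rfl fun i hi => H.hh i (mem_range.1 hi), sum_add_distrib, sum_add_distrib,
      sum_const, card_range, nsmul_eq_mul, mul_one, H.ss]
    ring
  have h1 := H.st
  have h2 := H.sh
  refine Kern.enumF_sound he (by rw [List.length_map, List.length_range]) ?_ ?_ ?_ ?_ ?_
  · refine Kern.inTab_of_key (Kern.srt_pairwise hs) (fun a ha => ?_)
      (Kern.map_range_pairwise hκ)
    obtain ⟨i, hi, rfl⟩ := List.mem_map.1 ha
    exact (hx i (List.mem_range.1 hi)).1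
  · have : ((((List.range n).map x).map ft).sum : ℤ) ≤ M := by
      rw [e1]
      linarith
    exact_mod_cast this
  · have : ((((List.range n).map x).map fh).sum : ℤ) ≤ K := by
      rw [e2]
      linarith
    exact_mod_cast this
  · have : ((((List.range n).map x).map fh).sum : ℤ)
        = (((List.range n).map x).map ft).sum + (n + 1) := by
      rw [e1, e2]
      exact e3
    exact_mod_cast this
  · rw [List.map_map, List.map_map, Kern.sum_map_range, Kern.sum_map_range]
    exact hq

end ListF

namespace Kern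

variable {δ : Type*}

/-- look up a triple in a table of rows `(t, h, mu, data)` -/
def lookF (tab : List (ℕ × ℕ × ℕ × δ)) (a b c : ℕ) : Option (ℕ × ℕ × ℕ × δ) :=
  tab.find? fun x => Nat.beq x.1 a && (Nat.beq x.2.1 b && Nat.beq x.2.2.1 c)

theorem lookF_spec {tab : List (ℕ × ℕ × ℕ × δ)} {a b c : ℕ} {x : ℕ × ℕ × ℕ × δ}
    (h : lookF tab a b c = some x) : x ∈ tab ∧ x.1 = a ∧ x.2.1 = b ∧ x.2.2.1 = c := by
  rw [lookF] at h
  have h1 := List.find?_some h
  have h2 := List.mem_of_find?_eq_some h
  rw [Bool.and_eq_true, Bool.and_eq_true, Nat.beq_eq, Nat.beq_eq, Nat.beq_eq] at h1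
  exact ⟨h2, h1.1, h1.2.1, h1.2.2⟩

/-- the lexicographic key -/
def keyF (N : ℕ) (x : ℕ × ℕ × ℕ × δ) : ℕ := (x.1 * N + x.2.1) * N + x.2.2.1

end Kern

section ThreeF

variable {ι : Type*} {R : ℤ} {n : ℕ} {t s h e : ℕ → ℤ} {E : ℕ → ℕ → ℤ} {U : Finset ι}
  {ho : ι → ℕ} {vl : ι → ℤ} {kp ms mr : ℕ → ι → ℤ} {mu Nb : ℕ → ℤ} {Nx : ℕ → ℕ → ℤ}

/-- **the worlds with items go through the fast enumeration of the triples `(t, h, mu)`**: rows
`(t, h, mu, data)`, every row which passes `ok` is in the table; the budget `hq` may be proved from the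
values of the rows only -/
theorem ItE.enumF3 {δ : Type*} (H : ItE R n t s h e E U ho vl kp ms mr mu Nb Nx)
    (lex : ∀ i j, i ≤ j → j < n → t j < t i ∨ t j = t i ∧
      (h j < h i ∨ h j = h i ∧ mu j ≤ mu i))
    {gs : List (ℕ × List (ℕ × ℕ × ℕ × δ))} {N M K : ℕ} {leaf : List (ℕ × ℕ × ℕ × δ) → Bool}
    {fb fp fm fg : ℕ × ℕ × ℕ × δ → ℕ} {ok : ℕ → ℕ → ℕ → Bool}
    (hK : R + 1 ≤ K) (hN : K < N) (hM : R - n ≤ M)
    (hok : ∀ i, i < n → ok (t i).toNat (h i).toNat (mu i).toNat = true)
    (hs : Kern.srt (Kern.keyF N) (Kern.flt gs) = true)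
    (ht : Kern.allTab M K K ok (fun a b c => (Kern.lookF (Kern.flt gs) a b c).isSome) = true)
    (hq : ∀ x : ℕ → ℕ × ℕ × ℕ × δ, (∀ i, i < n → x i ∈ Kern.flt gs ∧ ((x i).1 : ℤ) = t i ∧
      ((x i).2.1 : ℤ) = h i ∧ ((x i).2.2.1 : ℤ) = mu i) →
      ∑ i ∈ range n, fm (x i) ≤ ∑ i ∈ range n, fp (x i))
    (he : Kern.enumF (fun a : ℕ × ℕ × ℕ × δ => a.1) (fun a => a.2.1) fb fp fm fg M K (n + 1)
      leaf n gs = true) :
    ∃ x : ℕ → ℕ × ℕ × ℕ × δ, (∀ i, i < n → x i ∈ Kern.flt gs ∧ ((x i).1 : ℤ) = t i ∧
      ((x i).2.1 : ℤ) = h i ∧ ((x i).2.2.1 : ℤ) = mu i) ∧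
      leaf ((List.range n).map x).reverse = true := by
  have b1 : ∀ i, i < n → t i ≤ M := by
    intro i hi
    have h1 := single_le_sum (f := t) (fun i hi => H.t0 i (mem_range.1 hi)) (mem_range.2 hi)
    have h2 := H.st
    linarith
  have b2 : ∀ i, i < n → h i ≤ K := by
    intro i hi
    have h1 := single_le_sum (f := h) (fun i hi => H.h0 i (mem_range.1 hi)) (mem_range.2 hi)
    have h2 := H.sh
    linarith
  rcases Nat.eq_zero_or_pos n with hn | hn
  · -- no rows
    subst hn
    have h1 : (0 : ℤ) = 1 := by simpa using H.ss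
    exact absurd h1 (by norm_num)
  have key : ∀ i, i < n → ∃ x : ℕ × ℕ × ℕ × δ, x ∈ Kern.flt gs ∧ (x.1 : ℤ) = t i ∧
      (x.2.1 : ℤ) = h i ∧ (x.2.2.1 : ℤ) = mu i := by
    intro i hi
    have c1 := H.t0 i hi
    have c2 := H.h0 i hi
    have c3 := H.mu0 hi
    have c4 := b1 i hi
    have c5 := b2 i hi
    have c6 := H.muh i hi
    have h1 := Kern.allTab_spec ht (a := (t i).toNat) (b := (h i).toNat) (c := (mu i).toNat)
      (by omega) (by omega) (by omega) (hok i hi)
    obtain ⟨x, hx⟩ := Option.isSome_iff_exists.1 h1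
    obtain ⟨h2, h3, h4, h5⟩ := Kern.lookF_spec hx
    exact ⟨x, h2, by omega, by omega, by omega⟩
  obtain ⟨x0, -⟩ := key 0 hn
  have hne : Nonempty (ℕ × ℕ × ℕ × δ) := ⟨x0⟩
  choose! y hy using key
  have hx : ∀ i, i < n → y i ∈ Kern.flt gs ∧ ((y i).1 : ℤ) = t i ∧
      ((y i).2.1 : ℤ) = h i ∧ ((y i).2.2.1 : ℤ) = mu i := hy
  refine ⟨y, hx, ?_⟩
  refine H.toItN.toBI.enumF (κ := Kern.keyF N) hs hK hM y
    (fun i hi => ⟨(hx i hi).1, (hx i hi).2.1, (hx i hi).2.2.1⟩) (fun i j hij hj => ?_) (hq y hx) he
  obtain ⟨-, a1, a2, a3⟩ := hx i (hij.trans hj)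
  obtain ⟨-, a4, a5, a6⟩ := hx j hj
  have c5 := b2 j hj
  have c6 := H.muh j hj
  have e1 : ∀ z : ℕ × ℕ × ℕ × δ, Kern.keyF N z = Kern.key3 N (z.1, z.2.1, z.2.2.1, 0) :=
    fun _ => rfl
  rw [e1, e1]
  refine Kern.key3_le (by simp only []; omega) (by simp only []; omega) ?_
  simp only []
  rcases lex i j hij.le hj with h1 | ⟨h1, h1 | ⟨h1, h2⟩⟩
  · left
    omega
  · right
    exact ⟨by omega, Or.inl (by omega)⟩
  · right
    exact ⟨by omega, Or.inr ⟨by omega, by omega⟩⟩

end ThreeF

end Pool.Agent.Lib.MP_f04ccf_co
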