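import Pool.Agent.Lib.MP_f04ccf_co.M.FalC
import Pool.Agent.Lib.MP_f04ccf_co.M.ItCc
import Pool.Agent.Lib.MP_f04ccf_co.M.KernF

/-!
MP_f04ccf_co, PLAN W, finite part: **the enumeration of the rows `(t, h, mu)` with `∑ h ≤ H`**.
`LeafC R n leaf`: a world whose rows pass `leaf` does not exist (closed under `||`).
`BI.enumH`, `ItE.enumH3`: `BI.enumF`, `ItE.enumF3` with `∑ h ≤ K`.
`Kern.okE`: the row filter (`mu ≤ h ≤ mu + t` and the energy with the largest excess), `ItC.okE`.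
`NoItC.enum`: if every world of the table passes the leaf then `NoItC R H n`.
-/

set_option autoImplicit false

namespace Pool.Agent.Lib.MP_f04ccf_co

open Finset

attribute [local instance] Classical.propDecidable

section EnumH

variable {α : Type*} {R : ℤ} {n : ℕ} {t s h e : ℕ → ℤ} {E : ℕ → ℕ → ℤ}

theorem BI.enumH (H : BI R n t s h e E) {ft fh fb fp fm fg κ : α → ℕ} {gs : List (ℕ × List α)}
    {M K : ℕ} {leaf : List α → Bool} (hs : Kern.srt κ (Kern.flt gs) = true)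
    (hK : ∑ i ∈ range n, h i ≤ K) (hM : K ≤ M + (n + 1)) (x : ℕ → α)
    (hx : ∀ i, i < n → x i ∈ Kern.flt gs ∧ (ft (x i) : ℤ) = t i ∧ (fh (x i) : ℤ) = h i)
    (hκ : ∀ i j, i < j → j < n → κ (x j) ≤ κ (x i))
    (hq : ∑ i ∈ range n, fm (x i) ≤ ∑ i ∈ range n, fp (x i))
    (he : Kern.enumF ft fh fb fp fm fg M K (n + 1) leaf n gs = true) :
    leaf ((List.range n).map x).reverse = true := by
  have e1 : ((((List.range n).map x).map ft).sum : ℤ) = ∑ i ∈ range n, t i := by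
    rw [List.map_map, Kern.sum_map_range]
    push_cast
    exact sum_congr rfl fun i hi => (hx i (mem_range.1 hi)).2.1
  have e2 : ((((List.range n).map x).map fh).sum : ℤ) = ∑ i ∈ range n, h i := by
    rw [List.map_map, Kern.sum_map_range]
    push_cast
    exact sum_congr rfl fun i hi => (hx i (mem_range.1 hi)).2.2
  have e3 : ∑ i ∈ range n, h i = ∑ i ∈ range n, t i + (n + 1) := by
    rw [sum_congr rfl fun i hi => H.hh i (mem_range.1 hi), sum_add_distrib, sum_add_distrib,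
      sum_const, card_range, nsmul_eq_mul, mul_one, H.ss]
    ring
  have hM' : (K : ℤ) ≤ M + (n + 1) := by exact_mod_cast hM
  refine Kern.enumF_sound he (by rw [List.length_map, List.length_range]) ?_ ?_ ?_ ?_ ?_
  · refine Kern.inTab_of_key (Kern.srt_pairwise hs) (fun a ha => ?_)
      (Kern.map_range_pairwise hκ)
    obtain ⟨i, hi, rfl⟩ := List.mem_map.1 ha
    exact (hx i (List.mem_range.1 hi)).1
  · have : ((((List.range n).map x).map ft).sum : ℤ) ≤ M := by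
      rw [e1]
      linarith
    exact_mod_cast this
  · have : ((((List.range n).map x).map fh).sum : ℤ) ≤ K := by
      rw [e2]
      linarith
    exact_mod_cast this
  · have : ((((List.range n).map x).map fh).sum : ℤ)
        = (((List.range n).map x).map ft).sum + (n + 1) := by
      rw [e1, e2]
      exact e3
    exact_mod_cast this
  · rw [List.map_map, List.map_map, Kern.sum_map_range, Kern.sum_map_range]
    exact hq

end EnumH

section ThreeH

variable {ι : Type*} {R : ℤ} {n : ℕ} {t s h e : ℕ → ℤ} {E : ℕ → ℕ → ℤ} {U : Finset ι}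
  {ho : ι → ℕ} {vl : ι → ℤ} {kp ms mr : ℕ → ι → ℤ} {mu Nb : ℕ → ℤ} {Nx : ℕ → ℕ → ℤ}

/-- `∑ t ≤ M` from `∑ h ≤ K` -/
lemma BI.sum_t (H : BI R n t s h e E) {M K : ℕ} (hK : ∑ i ∈ range n, h i ≤ K)
    (hM : K ≤ M + (n + 1)) : ∑ i ∈ range n, t i ≤ M := by
  have e3 : ∑ i ∈ range n, h i = ∑ i ∈ range n, t i + (n + 1) := by
    rw [sum_congr rfl fun i hi => H.hh i (mem_range.1 hi), sum_add_distrib, sum_add_distrib,
      sum_const, card_range, nsmul_eq_mul, mul_one, H.ss]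
    ring
  have hM' : (K : ℤ) ≤ M + (n + 1) := by exact_mod_cast hM
  linarith

/-- the product of two shares -/
lemma BI.prod_t (H : BI R n t s h e E) {M K : ℕ} (hK : ∑ i ∈ range n, h i ≤ K)
    (hM : K ≤ M + (n + 1)) {i j : ℕ} (hi : i < n) (hj : j < n) (hji : j ≠ i) :
    (t i).toNat ≤ M ∧ t i * t j ≤ ((t i).toNat * (M - (t i).toNat) : ℕ) := by
  have h1 := H.sum_t hK hM
  rw [← add_sum_erase _ _ (mem_range.2 hi),
    ← add_sum_erase _ _ (mem_erase.2 ⟨hji, mem_range.2 hj⟩)] at h1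
  have h3 : 0 ≤ ∑ x ∈ ((range n).erase i).erase j, t x := sum_nonneg fun x hx =>
    H.t0 x (mem_range.1 (mem_of_mem_erase (mem_of_mem_erase hx)))
  obtain ⟨a, ha⟩ := Int.eq_ofNat_of_zero_le (H.t0 i hi)
  have h4 := H.t0 j hj
  have haM : a ≤ M := by
    have : (a : ℤ) ≤ M := by linarith
    exact_mod_cast this
  rw [ha, Int.toNat_natCast]
  refine ⟨haM, ?_⟩
  rw [Nat.cast_mul, Nat.cast_sub haM]
  exact mul_le_mul_of_nonneg_left (by linarith) (Nat.cast_nonneg _)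

theorem ItE.enumH3 {δ : Type*} (H : ItE R n t s h e E U ho vl kp ms mr mu Nb Nx)
    (lex : ∀ i j, i ≤ j → j < n → t j < t i ∨ t j = t i ∧
      (h j < h i ∨ h j = h i ∧ mu j ≤ mu i))
    {gs : List (ℕ × List (ℕ × ℕ × ℕ × δ))} {N M K : ℕ} {leaf : List (ℕ × ℕ × ℕ × δ) → Bool}
    {fb fp fm fg : ℕ × ℕ × ℕ × δ → ℕ} {ok : ℕ → ℕ → ℕ → Bool}
    (hK : ∑ i ∈ range n, h i ≤ K) (hN : K < N) (hM : K ≤ M + (n + 1))
    (hok : ∀ i, i < n → ok (t i).toNat (h i).toNat (mu i).toNat = true)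
    (hs : Kern.srt (Kern.keyF N) (Kern.flt gs) = true)
    (ht : Kern.allTab M K K ok (fun a b c => (Kern.lookF (Kern.flt gs) a b c).isSome) = true)
    (hq : ∀ x : ℕ → ℕ × ℕ × ℕ × δ, (∀ i, i < n → x i ∈ Kern.flt gs ∧ ((x i).1 : ℤ) = t i ∧
      ((x i).2.1 : ℤ) = h i ∧ ((x i).2.2.1 : ℤ) = mu i) →
      ∑ i ∈ range n, fm (x i) ≤ ∑ i ∈ range n, fp (x i))
    (he : Kern.enumF (fun a : ℕ × ℕ × ℕ × δ => a.1) (fun a => a.2.1) fb fp fm fg M K (n + 1)
      leaf n gs = true) :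
    ∃ x : ℕ → ℕ × ℕ × ℕ × δ, (∀ i, i < n → x i ∈ Kern.flt gs ∧ ((x i).1 : ℤ) = t i ∧
      ((x i).2.1 : ℤ) = h i ∧ ((x i).2.2.1 : ℤ) = mu i) ∧
      leaf ((List.range n).map x).reverse = true := by
  have b1 : ∀ i, i < n → t i ≤ M := by
    intro i hi
    have h1 := single_le_sum (f := t) (fun i hi => H.t0 i (mem_range.1 hi)) (mem_range.2 hi)
    have h2 := H.toItN.toBI.sum_t hK hM
    linarith
  have b2 : ∀ i, i < n → h i ≤ K := by
    intro i hi
    have h1 := single_le_sum (f := h) (fun i hi => H.h0 i (mem_range.1 hi)) (mem_range.2 hi)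
    linarith
  rcases Nat.eq_zero_or_pos n with hn | hn
  · -- no rows
    subst hn
    have h1 : (0 : ℤ) = 1 := by simpa using H.ss
    exact absurd h1 (by norm_num)
  have key : ∀ i, i < n → ∃ x : ℕ × ℕ × ℕ × δ, x ∈ Kern.flt gs ∧ (x.1 : ℤ) = t i ∧
      (x.2.1 : ℤ) = h i ∧ (x.2.2.1 : ℤ) = mu i := by
    intro i hi
    have c1 := H.t0 i hi
    have c2 := H.h0 i hi
    have c3 := H.mu0 hi
    have c4 := b1 i hi
    have c5 := b2 i hi
    have c6 := H.muh i hi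
    have h1 := Kern.allTab_spec ht (a := (t i).toNat) (b := (h i).toNat) (c := (mu i).toNat)
      (by omega) (by omega) (by omega) (hok i hi)
    obtain ⟨x, hx⟩ := Option.isSome_iff_exists.1 h1
    obtain ⟨h2, h3, h4, h5⟩ := Kern.lookF_spec hx
    exact ⟨x, h2, by omega, by omega, by omega⟩
  obtain ⟨x0, -⟩ := key 0 hn
  have hne : Nonempty (ℕ × ℕ × ℕ × δ) := ⟨x0⟩
  choose! y hy using key
  have hx : ∀ i, i < n → y i ∈ Kern.flt gs ∧ ((y i).1 : ℤ) = t i ∧
      ((y i).2.1 : ℤ) = h i ∧ ((y i).2.2.1 : ℤ) = mu i := hy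
  refine ⟨y, hx, ?_⟩
  refine H.toItN.toBI.enumH (κ := Kern.keyF N) hs hK hM y
    (fun i hi => ⟨(hx i hi).1, (hx i hi).2.1, (hx i hi).2.2.1⟩) (fun i j hij hj => ?_) (hq y hx) he
  obtain ⟨-, a1, a2, a3⟩ := hx i (hij.trans hj)
  obtain ⟨-, a4, a5, a6⟩ := hx j hj
  have c5 := b2 j hj
  have c6 := H.muh j hj
  have e1 : ∀ z : ℕ × ℕ × ℕ × δ, Kern.keyF N z = Kern.key3 N (z.1, z.2.1, z.2.2.1, 0) :=
    fun _ => rfl
  rw [e1, e1]
  refine Kern.key3_le (by simp only []; omega) (by simp only []; omega) ?_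
  simp only []
  rcases lex i j hij.le hj with h1 | ⟨h1, h1 | ⟨h1, h2⟩⟩
  · left
    omega
  · right
    exact ⟨by omega, Or.inl (by omega)⟩
  · right
    exact ⟨by omega, Or.inr ⟨by omega, by omega⟩⟩

end ThreeH

namespace Kern

/-- **the row filter**: `mu ≤ h`, `1 ≤ mu` if `0 ≤ s`, `R s ≤ mu h - mu (mu + 1) / 2 + N`, doubled, with
`N ≤ mu kf t`, `(kf t)² > t (M - t) + 1` (one more for two PC pairs if `R ≤ t (M - t) + 4`) -/
def okE (R M : ℕ) (kf : ℕ → ℕ) (t h mu : ℕ) : Bool :=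
  Nat.ble mu h && ((Nat.ble h t || Nat.ble 1 mu) &&
    Nat.ble (2 * R * h + mu * (mu + 1)) (2 * R * (t + 1) + 2 * mu * h + 2 * (mu * kf t)
      + if R ≤ t * (M - t) + 4 then mu else 0))

/-- the condition for `kf` -/
def okK (M : ℕ) (kf : ℕ → ℕ) : Bool :=
  (List.range (M + 1)).all fun t => Nat.blt (t * (M - t) + 1) (kf t * kf t)

lemma okK_spec {M : ℕ} {kf : ℕ → ℕ} (h : okK M kf = true) {t : ℕ} (ht : t ≤ M) :
    t * (M - t) + 1 < kf t * kf t := by
  rw [okK, List.all_eq_true] at h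
  have h1 := h t (List.mem_range.2 (by omega))
  rwa [Nat.blt_eq] at h1

/-- no three PC pairs in a cell: `2 R > t (M - t) + 9` -/
def okF (Q M : ℕ) : Bool := (List.range (M + 1)).all fun a => Nat.blt (a * (M - a) + 9) (2 * Q)

lemma okF_spec {Q M : ℕ} (h : okF Q M = true) {a : ℕ} (ha : a ≤ M) : a * (M - a) + 9 < 2 * Q := by
  rw [okF, List.all_eq_true] at h
  have h1 := h a (List.mem_range.2 (by omega))
  rwa [Nat.blt_eq] at h1

/-- the triple of a row of the table -/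
def tri {δ : Type*} (a : ℕ × ℕ × ℕ × δ) : ℕ × ℕ × ℕ := (a.1, a.2.1, a.2.2.1)

/-- the triples in the opposite order -/
noncomputable def revT {δ : Type*} (l : List (ℕ × ℕ × ℕ × δ)) : List (ℕ × ℕ × ℕ) :=
  List.rec (motive := fun _ => List (ℕ × ℕ × ℕ) → List (ℕ × ℕ × ℕ)) (fun acc => acc)
    (fun a _ ih acc => ih (tri a :: acc)) l []

lemma revT_aux {δ : Type*} (l : List (ℕ × ℕ × ℕ × δ)) : ∀ acc : List (ℕ × ℕ × ℕ),
    (List.rec (motive := fun _ => List (ℕ × ℕ × ℕ) → List (ℕ × ℕ × ℕ)) (fun acc => acc)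
      (fun a _ ih acc => ih (tri a :: acc)) l acc) = (l.map tri).reverse ++ acc := by
  induction l with
  | nil => intro acc; rfl
  | cons a l ih =>
    intro acc
    show (List.rec (motive := fun _ => List (ℕ × ℕ × ℕ) → List (ℕ × ℕ × ℕ)) (fun acc => acc)
      (fun a _ ih acc => ih (tri a :: acc)) l (tri a :: acc)) = _
    rw [ih (tri a :: acc), List.map_cons, List.reverse_cons, List.append_assoc]
    rfl

lemma revT_eq {δ : Type*} (l : List (ℕ × ℕ × ℕ × δ)) : revT l = (l.map tri).reverse := by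
  have h := revT_aux l []
  rw [List.append_nil] at h
  exact h

end Kern

section Leaf

/-- **a world whose rows pass `leaf` does not exist** -/
def LeafC (R : ℤ) (n : ℕ) (leaf : List (ℕ × ℕ × ℕ) → Bool) : Prop :=
  ∀ (ι : Type) (t s h e : ℕ → ℤ) (E : ℕ → ℕ → ℤ) (U : Finset ι) (ho : ι → ℕ) (vl : ι → ℤ)
    (kp ms mr mn : ℕ → ι → ℤ) (mu Nb : ℕ → ℤ) (Nx : ℕ → ℕ → ℤ) (be : ℕ → ℕ → ℤ) (ls : ℕ → ℤ → ℤ)
    (pc ar : ι → ℤ) (aT : ℕ → ℤ) (NN FF pw : ℕ → ℕ → ℤ) (nu : ℕ → ι → ℤ),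
    ItC R n t s h e E U ho vl kp ms mr mu Nb Nx be ls pc ar aT NN FF pw nu →
    LvI R n t s h e U ho vl kp ms mr mn mu be pc ar →
    ∀ x : ℕ → ℕ × ℕ × ℕ, (∀ i < n, ((x i).1 : ℤ) = t i ∧ ((x i).2.1 : ℤ) = h i ∧
      ((x i).2.2 : ℤ) = mu i) → leaf ((List.range n).map x) = true → False

lemma LeafC.or {R : ℤ} {n : ℕ} {leaf leaf' : List (ℕ × ℕ × ℕ) → Bool} (h : LeafC R n leaf)
    (h' : LeafC R n leaf') : LeafC R n fun l => leaf l || leaf' l := by
  intro ι t s h0 e E U ho vl kp ms mr mn mu Nb Nx be ls pc ar aT NN FF pw nu h1 h2 x hx hl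
  rw [Bool.or_eq_true] at hl
  rcases hl with hl | hl
  · exact h _ _ _ _ _ _ _ _ _ _ _ _ _ _ _ _ _ _ _ _ _ _ _ _ _ h1 h2 x hx hl
  · exact h' _ _ _ _ _ _ _ _ _ _ _ _ _ _ _ _ _ _ _ _ _ _ _ _ _ h1 h2 x hx hl

end Leaf

section Filter

variable {ι : Type*} {R : ℤ} {n : ℕ} {t s h e : ℕ → ℤ} {E : ℕ → ℕ → ℤ} {U : Finset ι}
  {ho : ι → ℕ} {vl : ι → ℤ} {kp ms mr : ℕ → ι → ℤ} {mu Nb : ℕ → ℤ} {Nx : ℕ → ℕ → ℤ}
  {be : ℕ → ℕ → ℤ} {ls : ℕ → ℤ → ℤ} {pc ar : ι → ℤ} {aT : ℕ → ℤ} {NN FF pw : ℕ → ℕ → ℤ}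
  {nu : ℕ → ι → ℤ}

/-- few PC pairs in a cell -/
lemma ItC.few (H : ItC R n t s h e E U ho vl kp ms mr mu Nb Nx be ls pc ar aT NN FF pw nu)
    {Q M K : ℕ} (hQ : R = Q) (hK : ∑ i ∈ range n, h i ≤ K) (hM : K ≤ M + (n + 1))
    (hF : Kern.okF Q M = true) :
    ∀ i < n, ∀ j < n, i ≠ j → be i j ≤ 2 ∧ (be i j = 2 → R ≤ t i * t j + 4) := by
  intro i hi j hj hij
  obtain ⟨h1, h2⟩ := H.toItN.toBI.prod_t hK hM hi hj hij.symm
  have h3 := Kern.okF_spec hF h1
  have h4 := H.be0 j hj i hi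
  refine ⟨?_, fun h5 => H.pc2 hi hj hij (by linarith)⟩
  by_contra h5
  push Not at h5
  have h6 := H.pc3 hi hj hij (by linarith)
  have h7 : ((((t i).toNat * (M - (t i).toNat) : ℕ)) : ℤ) + 9 < 2 * Q := by exact_mod_cast h3
  rw [hQ] at h6
  linarith

/-- the free arcs of the PC pairs of a cell -/
lemma ItC.nu_sum (H : ItC R n t s h e E U ho vl kp ms mr mu Nb Nx be ls pc ar aT NN FF pw nu)
    {i j : ℕ} (hi : i < n) (hj : j < n) {k : ℤ} (hk0 : 0 ≤ k) (hk : t i * t j + 1 < (k + 1) ^ 2) :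
    ∑ u ∈ U.filter (fun u => ho u = i), nu j u ≤ k * be i j := by
  rw [← H.pcb i hi j hj, mul_sum]
  refine sum_le_sum fun u hu => ?_
  obtain ⟨huU, hui⟩ := mem_filter.1 hu
  rcases H.pcf u huU with h1 | h1
  · rw [H.nup u huU h1 j hj, h1]
    simp
  · by_cases h2 : kp j u = 0
    · rw [H.nuz u huU j hj h2, h2]
      simp
    · have h3 : 1 ≤ kp j u := by
        have := H.k0 u huU j hj
        omega
      have h4 := H.pcv u huU (by rw [h1]; norm_num)
      have h5 := H.nuq u huU h4 j hj h2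
      rw [h1, hui] at h5
      have h6 := H.nu0 u huU j hj
      have h7 : nu j u ≤ k := by
        by_contra h8
        have h9 : k + 1 ≤ nu j u := by omega
        nlinarith
      rw [h1, one_mul]
      nlinarith

/-- the number of PC pairs of a host -/
lemma ItC.be_sum (H : ItC R n t s h e E U ho vl kp ms mr mu Nb Nx be ls pc ar aT NN FF pw nu)
    {i : ℕ} (hi : i < n) : ∑ j ∈ range n, be i j ≤ mu i := by
  rw [H.hmu i hi, sum_congr rfl fun j hj => (H.pcb i hi j (mem_range.1 hj)).symm, sum_comm]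
  refine sum_le_sum fun u hu => ?_
  have huU := (mem_filter.1 hu).1
  rw [← mul_sum]
  have h1 := H.v1 u huU
  rcases H.pcf u huU with h2 | h2
  · rw [h2, zero_mul]
    linarith
  · have h3 := H.sumk u huU
    have h4 := H.pcv u huU (by rw [h2]; norm_num)
    rw [h2] at h3 ⊢
    linarith

/-- the excess of a host -/
lemma ItC.NN_sum (H : ItC R n t s h e E U ho vl kp ms mr mu Nb Nx be ls pc ar aT NN FF pw nu)
    (few : ∀ i < n, ∀ j < n, i ≠ j → be i j ≤ 2 ∧ (be i j = 2 → R ≤ t i * t j + 4))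
    {i : ℕ} (hi : i < n) {k : ℤ} (hk0 : 0 ≤ k)
    (hk : ∀ j < n, j ≠ i → t i * t j + 1 < (k + 1) ^ 2) {c : ℤ} (hc : 0 ≤ c)
    (hc1 : ∀ j < n, j ≠ i → R ≤ t i * t j + 4 → 1 ≤ c) :
    ∑ j ∈ (range n).erase i, NN i j ≤ 2 * ((k + 1) * mu i) + c * mu i := by
  have h1 : ∀ j ∈ (range n).erase i, NN i j ≤ (2 * (k + 1) + c) * be i j := by
    intro j hj
    have hjn := mem_range.1 (mem_of_mem_erase hj)
    have hji := ne_of_mem_erase hj
    have h2 := H.NNb i hi j hjn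
    have h3 := H.nu_sum hi hjn hk0 (hk j hjn hji)
    obtain ⟨h4, h5⟩ := few i hi j hjn hji.symm
    have h6 := H.be0 i hi j hjn
    have h7 : be i j = 0 ∨ be i j = 1 ∨ be i j = 2 := by omega
    rcases h7 with h7 | h7 | h7
    · rw [H.NNz i hi j hjn h7, h7]
      simp
    · rw [h7] at h2 h3 ⊢
      linarith
    · have h8 := hc1 j hjn hji (h5 h7)
      rw [h7] at h2 h3 ⊢
      linarith
  have h2 := sum_le_sum h1
  rw [← mul_sum] at h2
  have h3 := H.be_sum hi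
  rw [← add_sum_erase _ _ (mem_range.2 hi)] at h3
  have h4 := H.be0 i hi i hi
  have h5 : (2 * (k + 1) + c) * ∑ j ∈ (range n).erase i, be i j ≤ (2 * (k + 1) + c) * mu i :=
    mul_le_mul_of_nonneg_left (by linarith) (by linarith)
  linarith

/-- **every row passes the filter** -/
lemma ItC.okE (H : ItC R n t s h e E U ho vl kp ms mr mu Nb Nx be ls pc ar aT NN FF pw nu)
    (few : ∀ i < n, ∀ j < n, i ≠ j → be i j ≤ 2 ∧ (be i j = 2 → R ≤ t i * t j + 4))
    {Q M K : ℕ} (hQ : R = Q) (hK : ∑ i ∈ range n, h i ≤ K) (hM : K ≤ M + (n + 1))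
    {kf : ℕ → ℕ} (hkf : Kern.okK M kf = true) {i : ℕ} (hi : i < n) :
    Kern.okE Q M kf (t i).toNat (h i).toNat (mu i).toNat = true := by
  have h1 := H.toItN.toBI.sum_t hK hM
  have ht := fun j (hj : j < n) => H.t0 j hj
  have h2 : ∀ j < n, j ≠ i → t i + t j ≤ M := by
    intro j hj hji
    rw [← add_sum_erase _ _ (mem_range.2 hi),
      ← add_sum_erase _ _ (mem_erase.2 ⟨hji, mem_range.2 hj⟩)] at h1
    have h3 : 0 ≤ ∑ x ∈ ((range n).erase i).erase j, t x := sum_nonneg fun x hx =>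
      ht x (mem_range.1 (mem_of_mem_erase (mem_of_mem_erase hx)))
    linarith
  have h2' : t i ≤ M := by
    rw [← add_sum_erase _ _ (mem_range.2 hi)] at h1
    have h3 : 0 ≤ ∑ x ∈ (range n).erase i, t x := sum_nonneg fun x hx =>
      ht x (mem_range.1 (mem_of_mem_erase hx))
    linarith
  obtain ⟨a, ha⟩ := Int.eq_ofNat_of_zero_le (ht i hi)
  obtain ⟨b, hb⟩ := Int.eq_ofNat_of_zero_le (H.h0 i hi)
  obtain ⟨c, hc⟩ := Int.eq_ofNat_of_zero_le (H.mu0 hi)
  have haM : a ≤ M := by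
    rw [ha] at h2'
    exact_mod_cast h2'
  have h3 := Kern.okK_spec hkf haM
  have hprod : ∀ j < n, j ≠ i → t i * t j ≤ (a * (M - a) : ℕ) := by
    intro j hj hji
    have h4 := h2 j hj hji
    have h5 : ((M - a : ℕ) : ℤ) = M - a := by rw [Nat.cast_sub haM]
    rw [Nat.cast_mul, h5, ← ha]
    exact mul_le_mul_of_nonneg_left (by linarith) (ht i hi)
  have h3' : ((a * (M - a) : ℕ) : ℤ) + 1 < (kf a : ℤ) * kf a := by exact_mod_cast h3
  have hk1 : 1 ≤ kf a := by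
    by_contra h4
    have h5 : kf a = 0 := by omega
    rw [h5] at h3
    omega
  have h6 := H.NN_sum few hi (k := (kf a : ℤ) - 1) (by
      have : (1 : ℤ) ≤ kf a := by exact_mod_cast hk1
      linarith)
    (fun j hj hji => by
      have h4 := hprod j hj hji
      have h5 : ((kf a : ℤ) - 1 + 1) ^ 2 = (kf a : ℤ) * kf a := by ring
      rw [h5]
      linarith) (c := if Q ≤ a * (M - a) + 4 then 1 else 0) (by split_ifs <;> norm_num)
    (fun j hj hji h4 => by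
      have h5 := hprod j hj hji
      have h7 : Q ≤ a * (M - a) + 4 := by
        have : (Q : ℤ) ≤ (a * (M - a) : ℕ) + 4 := by
          rw [hQ] at h4
          linarith
        exact_mod_cast this
      rw [if_pos h7])
  have h7 := H.en i hi
  rw [H.nbC i hi, sum_congr rfl fun j hj => H.nxC i hi j (mem_range.1 (mem_of_mem_erase hj)),
    sum_const_zero] at h7
  have h8 : R * s i ≤ e i := by
    have h10 := H.row i hi ∅ (empty_subset _) (fun u hu => absurd hu (by simp))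
    simp only [sum_empty] at h10
    linarith
  have h9 := H.hh i hi
  have h10 := H.muh i hi
  have h11 := H.mup i hi
  rw [ha, hb, hc, Int.toNat_natCast, Int.toNat_natCast, Int.toNat_natCast]
  rw [ha, hb] at h9
  rw [hc, hb] at h10
  rw [hc] at h11 h6
  have h12 : s i = b - a - 1 := by linarith
  rw [h12] at h8 h11
  rw [hc, hb] at h7
  rw [Kern.okE, Bool.and_eq_true, Bool.and_eq_true, Bool.or_eq_true, Nat.ble_eq, Nat.ble_eq,
    Nat.ble_eq, Nat.ble_eq]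
  refine ⟨by exact_mod_cast h10, ?_, ?_⟩
  · by_cases h20 : b ≤ a
    · exact Or.inl h20
    · right
      have h21 : (a : ℤ) + 1 ≤ b := by
        have : a + 1 ≤ b := by omega
        exact_mod_cast this
      have h22 := h11 (by linarith)
      exact_mod_cast h22
  · have h13 : ((if Q ≤ a * (M - a) + 4 then (1 : ℤ) else 0)) * c
        = ((if Q ≤ a * (M - a) + 4 then c else 0 : ℕ) : ℤ) := by
      split_ifs <;> simp
    rw [h13] at h6
    have h14 : (2 * Q * b + c * (c + 1) : ℤ) ≤ 2 * Q * (a + 1) + 2 * c * b + 2 * (c * kf a)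
        + ((if Q ≤ a * (M - a) + 4 then c else 0 : ℕ) : ℤ) := by
      rw [hQ] at h8
      nlinarith
    exact_mod_cast h14

end Filter

section Enum

/-- **every world with `∑ h ≤ K` passes `leaf`** -/
def PartC (R : ℤ) (K n : ℕ) (leaf : List (ℕ × ℕ × ℕ) → Bool) : Prop :=
  ∀ (ι : Type) (t s h e : ℕ → ℤ) (E : ℕ → ℕ → ℤ) (U : Finset ι) (ho : ι → ℕ) (vl : ι → ℤ)
    (kp ms mr : ℕ → ι → ℤ) (mu Nb : ℕ → ℤ) (Nx : ℕ → ℕ → ℤ) (be : ℕ → ℕ → ℤ) (ls : ℕ → ℤ → ℤ)
    (pc ar : ι → ℤ) (aT : ℕ → ℤ) (NN FF pw : ℕ → ℕ → ℤ) (nu : ℕ → ι → ℤ),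
    ItC R n t s h e E U ho vl kp ms mr mu Nb Nx be ls pc ar aT NN FF pw nu →
    ∑ i ∈ range n, h i ≤ K →
    (∀ i j, i ≤ j → j < n → t j < t i ∨ t j = t i ∧ (h j < h i ∨ h j = h i ∧ mu j ≤ mu i)) →
    leaf ((List.range n).map fun i => ((t i).toNat, (h i).toNat, (mu i).toNat)) = true

/-- **the enumeration**: the table `gs` contains every row which passes the filter, every world of the
table passes `leaf` -/
theorem PartC.enum {Q K n M N : ℕ} {kf : ℕ → ℕ} {gs : List (ℕ × List (ℕ × ℕ × ℕ × ℕ))}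
    {leaf : List (ℕ × ℕ × ℕ) → Bool} {fb : ℕ × ℕ × ℕ × ℕ → ℕ}
    (hM : K ≤ M + (n + 1)) (hN : K < N) (hF : Kern.okF Q M = true) (hkf : Kern.okK M kf = true)
    (hs : Kern.srt (Kern.keyF N) (Kern.flt gs) = true)
    (ht : Kern.allTab M K K (Kern.okE Q M kf)
      (fun a b c => (Kern.lookF (Kern.flt gs) a b c).isSome) = true)
    (he : Kern.enumF (fun a : ℕ × ℕ × ℕ × ℕ => a.1) (fun a => a.2.1) fb (fun _ => 0) (fun _ => 0)
      (fun _ => 0) M K (n + 1) (fun l => leaf (Kern.revT l)) n gs = true) :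
    PartC Q K n leaf := by
  intro ι t s h e E U ho vl kp ms mr mu Nb Nx be ls pc ar aT NN FF pw nu H hh lex
  obtain ⟨x, hx, hl⟩ := H.toItE.enumH3 lex hh hN hM
    (fun i hi => H.okE (H.few rfl hh hM hF) rfl hh hM hkf hi)
    hs ht (fun x _ => by simp) he
  have h1 : Kern.revT ((List.range n).map x).reverse
      = (List.range n).map fun i => ((t i).toNat, (h i).toNat, (mu i).toNat) := by
    rw [Kern.revT_eq, List.map_reverse, List.reverse_reverse, List.map_map]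
    refine List.map_congr_left fun i hi => ?_
    obtain ⟨-, h2, h3, h4⟩ := hx i (List.mem_range.1 hi)
    show ((x i).1, (x i).2.1, (x i).2.2.1) = _
    rw [← h2, ← h3, ← h4, Int.toNat_natCast, Int.toNat_natCast, Int.toNat_natCast]
  rw [h1] at hl
  exact hl

/-- the check in classes -/
theorem PartC.parts {R : ℤ} {K n m : ℕ} {leaf : List (ℕ × ℕ × ℕ) → Bool}
    {cls : List (ℕ × ℕ × ℕ) → ℕ} (hc : ∀ l, cls l < m)
    (h : ∀ k < m, PartC R K n fun l => !(Nat.beq (cls l) k) || leaf l) : PartC R K n leaf := by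
  intro ι t s h0 e E U ho vl kp ms mr mu Nb Nx be ls pc ar aT NN FF pw nu H hh lex
  have h1 := h _ (hc ((List.range n).map fun i => ((t i).toNat, (h0 i).toNat, (mu i).toNat)))
    _ _ _ _ _ _ _ _ _ _ _ _ _ _ _ _ _ _ _ _ _ _ _ _ H hh lex
  rw [Bool.or_eq_true] at h1
  rcases h1 with h1 | h1
  · rw [Bool.not_eq_true', Nat.beq_refl] at h1
    exact absurd h1 (by simp)
  · exact h1

/-- **no items** -/
theorem PartC.noItC {R : ℤ} {K n : ℕ} {leaf : List (ℕ × ℕ × ℕ) → Bool} (h : PartC R K n leaf)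
    (hl : LeafC R n leaf) : NoItC R K n := by
  intro ι t s h0 e E U ho vl kp ms mr mn mu Nb Nx be ls pc ar aT NN FF pw nu H L hh lex
  refine hl _ _ _ _ _ _ _ _ _ _ _ _ _ _ _ _ _ _ _ _ _ _ _ _ _ H L
    (fun i => ((t i).toNat, (h0 i).toNat, (mu i).toNat)) (fun i hi => ?_)
    (h _ _ _ _ _ _ _ _ _ _ _ _ _ _ _ _ _ _ _ _ _ _ _ _ H hh lex)
  exact ⟨Int.toNat_of_nonneg (H.t0 i hi), Int.toNat_of_nonneg (H.h0 i hi),
    Int.toNat_of_nonneg (H.mu0 hi)⟩

end Enum

end Pool.Agent.Lib.MP_f04ccf_co
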