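import Pool.Agent.Lib.MP_f04ccf_co.M.FinE

/-!
MP_f04ccf_co, PLAN W, finite part: **the enumeration in blocks of first rows** (less memory per check).
`Kern.EnS`: what the enumeration shows; `Kern.EnS.of_enumF`; `Kern.blk j p k`: the worlds whose first row
is one of the `k` rows from place `p` on in the group `j` of the table, `Kern.blk_join`,
`Kern.EnS.of_blk`; `PartC.enumS`: `PartC.enum` from `Kern.EnS`.
-/

set_option autoImplicit false

namespace Pool.Agent.Lib.MP_f04ccf_co

open Finset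

attribute [local instance] Classical.propDecidable

namespace Kern

section Blocks

variable {α : Type*}

/-- **what the enumeration shows** -/
def EnS (t h gp gm : α → ℕ) (M K c : ℕ) (leaf : List α → Bool) (n : ℕ) (tab : List α) : Prop :=
  ∀ l : List α, l.length = n → InTab tab l → (l.map t).sum ≤ M → (l.map h).sum ≤ K →
    (l.map h).sum = (l.map t).sum + c → (l.map gm).sum ≤ (l.map gp).sum → leaf l.reverse = true

variable {t h b gp gm bg : α → ℕ} {M K c : ℕ} {leaf : List α → Bool} {n : ℕ}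

theorem EnS.of_enumF {gs : List (ℕ × List α)} (he : enumF t h b gp gm bg M K c leaf n gs = true) :
    EnS t h gp gm M K c leaf n (flt gs) :=
  fun _ hl hin hM hK hc hq => enumF_sound he hl hin hM hK hc hq

/-- the worlds with the first row `a`: `e = a :: tab` the rest of the group, `gs` the later groups -/
noncomputable def fst1 (t h b gp gm bg : α → ℕ) (M K c : ℕ) (leaf : List α → Bool) (n : ℕ)
    (gs : List (ℕ × List α)) (e : List α) : Bool :=
  List.rec (motive := fun _ => Bool) true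
    (fun a tab _ => seF t h b gp gm bg M K c leaf n (a :: tab) gs (t a) (h a) (gp a) (gm a) [a]) e

/-- **a block**: the `k` rows from place `p` on in the group `j` as first rows (`n` more rows) -/
noncomputable def blk (t h b gp gm bg : α → ℕ) (M K c : ℕ) (leaf : List α → Bool) (n : ℕ)
    (gs : List (ℕ × List α)) (j p k : ℕ) : Bool :=
  (List.range k).all fun i =>
    fst1 t h b gp gm bg M K c leaf n (gs.drop (j + 1)) ((gs.getD j (0, [])).2.drop (p + i))

lemma blk_join {gs : List (ℕ × List α)} {j p k k' : ℕ}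
    (h1 : blk t h b gp gm bg M K c leaf n gs j p k = true)
    (h2 : blk t h b gp gm bg M K c leaf n gs j (p + k) k' = true) :
    blk t h b gp gm bg M K c leaf n gs j p (k + k') = true := by
  rw [blk, List.all_eq_true] at h1 h2 ⊢
  intro i hi
  have hi' := List.mem_range.1 hi
  by_cases h3 : i < k
  · exact h1 i (List.mem_range.2 h3)
  · have h4 := h2 (i - k) (List.mem_range.2 (by omega))
    have h5 : p + k + (i - k) = p + i := by omega
    rw [h5] at h4
    exact h4

/-- the three conditions of the table -/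
def okB (t h b gp gm bg : α → ℕ) (gs : List (ℕ × List α)) : Bool :=
  okG t gs && (bnd t h b (flt gs) && bnd gm gp bg (flt gs))

lemma okG_drop {gs : List (ℕ × List α)} (h1 : okG t gs = true) (k : ℕ) :
    okG t (gs.drop k) = true := by
  rw [okG, List.all_eq_true] at h1 ⊢
  exact fun g hg => h1 g (List.mem_of_mem_drop hg)

/-- a suffix of the flat table starts in a group -/
lemma flt_suffix {gs : List (ℕ × List α)} {a : α} {suf : List α} (h1 : (a :: suf) <:+ flt gs) :
    ∃ j < gs.length, ∃ p < (gs.getD j (0, [])).2.length,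
      a :: suf = (gs.getD j (0, [])).2.drop p ++ flt (gs.drop (j + 1)) := by
  induction gs with
  | nil =>
    have h2 := h1.length_le
    simp [flt] at h2
  | cons g gs ih =>
    rw [flt_cons] at h1
    obtain ⟨pre, h2⟩ := h1
    rcases List.append_eq_append_iff.1 h2 with ⟨a', h3, h4⟩ | ⟨c', h3, h4⟩
    · rcases a' with _ | ⟨y, a'⟩
      · rw [List.nil_append] at h4
        obtain ⟨j, hj, p, hp, h5⟩ := ih (by rw [h4])
        refine ⟨j + 1, by rw [List.length_cons]; omega, p, ?_, ?_⟩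
        · simpa using hp
        · simpa using h5
      · refine ⟨0, by simp, pre.length, ?_, ?_⟩
        · simp [h3]
        · simp [h3, h4]
    · obtain ⟨j, hj, p, hp, h5⟩ := ih ⟨c', h4.symm⟩
      refine ⟨j + 1, by rw [List.length_cons]; omega, p, ?_, ?_⟩
      · simpa using hp
      · simpa using h5

/-- **soundness of the blocks** -/
theorem EnS.of_blk {gs : List (ℕ × List α)} (h0 : okB t h b gp gm bg gs = true)
    (hb : ∀ j < gs.length, blk t h b gp gm bg M K c leaf n gs j 0
      (gs.getD j (0, [])).2.length = true) :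
    EnS t h gp gm M K c leaf (n + 1) (flt gs) := by
  intro l hl hin hM hK hc hq
  rw [okB, Bool.and_eq_true, Bool.and_eq_true] at h0
  obtain ⟨h1, h2, h3⟩ := h0
  rcases l with _ | ⟨a, l⟩
  · simp at hl
  obtain ⟨suf, h4, h5⟩ := hin
  obtain ⟨j, hj, p, hp, h6⟩ := flt_suffix h4
  have h7 := hb j hj
  rw [blk, List.all_eq_true] at h7
  have h8 := h7 p (List.mem_range.2 hp)
  rw [Nat.zero_add] at h8
  rcases h9 : (gs.getD j (0, [])).2.drop p with _ | ⟨a', tab⟩
  · rw [List.drop_eq_nil_iff] at h9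
    omega
  rw [h9] at h6 h8
  rw [List.cons_append] at h6
  obtain ⟨rfl, h10⟩ := List.cons.inj h6
  have h11 : seF t h b gp gm bg M K c leaf n (a :: tab) (gs.drop (j + 1)) (t a) (h a) (gp a) (gm a)
      [a] = true := h8
  have h12 : (a :: tab ++ flt (gs.drop (j + 1))) <:+ flt gs := by
    rw [List.cons_append, ← h10]
    exact h4
  have h13 := seF_spec n (a :: tab) (gs.drop (j + 1)) _ _ _ _ _ (okG_drop h1 _)
    (bnd_suffix h2 h12) (bnd_suffix h3 h12) h11 l (by simpa using hl)
    (by rw [List.cons_append, ← h10]; exact h5)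
  simp only [List.map_cons, List.sum_cons] at hM hK hc hq
  rw [List.reverse_cons]
  exact h13 hM hK hc hq

end Blocks

end Kern

section EnumS

variable {α : Type*} {R : ℤ} {n : ℕ} {t s h e : ℕ → ℤ} {E : ℕ → ℕ → ℤ}

theorem BI.enumS (H : BI R n t s h e E) {ft fh fp fm κ : α → ℕ} {tab : List α}
    {M K : ℕ} {leaf : List α → Bool} (hs : Kern.srt κ tab = true)
    (hK : ∑ i ∈ range n, h i ≤ K) (hM : K ≤ M + (n + 1)) (x : ℕ → α)
    (hx : ∀ i, i < n → x i ∈ tab ∧ (ft (x i) : ℤ) = t i ∧ (fh (x i) : ℤ) = h i)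
    (hκ : ∀ i j, i < j → j < n → κ (x j) ≤ κ (x i))
    (hq : ∑ i ∈ range n, fm (x i) ≤ ∑ i ∈ range n, fp (x i))
    (he : Kern.EnS ft fh fp fm M K (n + 1) leaf n tab) :
    leaf ((List.range n).map x).reverse = true := by
  have e1 : ((((List.range n).map x).map ft).sum : ℤ) = ∑ i ∈ range n, t i := by
    rw [List.map_map, Kern.sum_map_range]
    push_cast
    exact sum_congr rfl fun i hi => (hx i (mem_range.1 hi)).2.1
  have e2 : ((((List.range n).map x).map fh).sum : ℤ) = ∑ i ∈ range n, h i := by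
    rw [List.map_map, Kern.sum_map_range]
    push_cast
    exact sum_congr rfl fun i hi => (hx i (mem_range.1 hi)).2.2
  have e3 : ∑ i ∈ range n, h i = ∑ i ∈ range n, t i + (n + 1) := by
    rw [sum_congr rfl fun i hi => H.hh i (mem_range.1 hi), sum_add_distrib, sum_add_distrib,
      sum_const, card_range, nsmul_eq_mul, mul_one, H.ss]
    ring
  have hM' : (K : ℤ) ≤ M + (n + 1) := by exact_mod_cast hM
  refine he _ (by rw [List.length_map, List.length_range]) ?_ ?_ ?_ ?_ ?_
  · refine Kern.inTab_of_key (Kern.srt_pairwise hs) (fun a ha => ?_)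
      (Kern.map_range_pairwise hκ)
    obtain ⟨i, hi, rfl⟩ := List.mem_map.1 ha
    exact (hx i (List.mem_range.1 hi)).1
  · have : ((((List.range n).map x).map ft).sum : ℤ) ≤ M := by
      rw [e1]
      linarith
    exact_mod_cast this
  · have : ((((List.range n).map x).map fh).sum : ℤ) ≤ K := by
      rw [e2]
      linarith
    exact_mod_cast this
  · have : ((((List.range n).map x).map fh).sum : ℤ)
        = (((List.range n).map x).map ft).sum + (n + 1) := by
      rw [e1, e2]
      exact e3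
    exact_mod_cast this
  · rw [List.map_map, List.map_map, Kern.sum_map_range, Kern.sum_map_range]
    exact hq

end EnumS

section ThreeS

variable {ι : Type*} {R : ℤ} {n : ℕ} {t s h e : ℕ → ℤ} {E : ℕ → ℕ → ℤ} {U : Finset ι}
  {ho : ι → ℕ} {vl : ι → ℤ} {kp ms mr : ℕ → ι → ℤ} {mu Nb : ℕ → ℤ} {Nx : ℕ → ℕ → ℤ}

theorem ItE.enumS3 {δ : Type*} (H : ItE R n t s h e E U ho vl kp ms mr mu Nb Nx)
    (lex : ∀ i j, i ≤ j → j < n → t j < t i ∨ t j = t i ∧
      (h j < h i ∨ h j = h i ∧ mu j ≤ mu i))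
    {tab : List (ℕ × ℕ × ℕ × δ)} {N M K : ℕ} {leaf : List (ℕ × ℕ × ℕ × δ) → Bool}
    {ok : ℕ → ℕ → ℕ → Bool}
    (hK : ∑ i ∈ range n, h i ≤ K) (hN : K < N) (hM : K ≤ M + (n + 1))
    (hok : ∀ i, i < n → ok (t i).toNat (h i).toNat (mu i).toNat = true)
    (hs : Kern.srt (Kern.keyF N) tab = true)
    (ht : Kern.allTab M K K ok (fun a b c => (Kern.lookF tab a b c).isSome) = true)
    (he : Kern.EnS (fun a : ℕ × ℕ × ℕ × δ => a.1) (fun a => a.2.1) (fun _ => 0) (fun _ => 0) M K
      (n + 1) leaf n tab) :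
    ∃ x : ℕ → ℕ × ℕ × ℕ × δ, (∀ i, i < n → x i ∈ tab ∧ ((x i).1 : ℤ) = t i ∧
      ((x i).2.1 : ℤ) = h i ∧ ((x i).2.2.1 : ℤ) = mu i) ∧
      leaf ((List.range n).map x).reverse = true := by
  have b1 : ∀ i, i < n → t i ≤ M := by
    intro i hi
    have h1 := single_le_sum (f := t) (fun i hi => H.t0 i (mem_range.1 hi)) (mem_range.2 hi)
    have h2 := H.toItN.toBI.sum_t hK hM
    linarith
  have b2 : ∀ i, i < n → h i ≤ K := by
    intro i hi
    have h1 := single_le_sum (f := h) (fun i hi => H.h0 i (mem_range.1 hi)) (mem_range.2 hi)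
    linarith
  rcases Nat.eq_zero_or_pos n with hn | hn
  · -- no rows
    subst hn
    have h1 : (0 : ℤ) = 1 := by simpa using H.ss
    exact absurd h1 (by norm_num)
  have key : ∀ i, i < n → ∃ x : ℕ × ℕ × ℕ × δ, x ∈ tab ∧ (x.1 : ℤ) = t i ∧
      (x.2.1 : ℤ) = h i ∧ (x.2.2.1 : ℤ) = mu i := by
    intro i hi
    have c1 := H.t0 i hi
    have c2 := H.h0 i hi
    have c3 := H.mu0 hi
    have c4 := b1 i hi
    have c5 := b2 i hi
    have c6 := H.muh i hi
    have h1 := Kern.allTab_spec ht (a := (t i).toNat) (b := (h i).toNat) (c := (mu i).toNat)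
      (by omega) (by omega) (by omega) (hok i hi)
    obtain ⟨x, hx⟩ := Option.isSome_iff_exists.1 h1
    obtain ⟨h2, h3, h4, h5⟩ := Kern.lookF_spec hx
    exact ⟨x, h2, by omega, by omega, by omega⟩
  obtain ⟨x0, -⟩ := key 0 hn
  have hne : Nonempty (ℕ × ℕ × ℕ × δ) := ⟨x0⟩
  choose! y hy using key
  have hx : ∀ i, i < n → y i ∈ tab ∧ ((y i).1 : ℤ) = t i ∧
      ((y i).2.1 : ℤ) = h i ∧ ((y i).2.2.1 : ℤ) = mu i := hy
  refine ⟨y, hx, ?_⟩
  refine H.toItN.toBI.enumS (κ := Kern.keyF N) hs hK hM y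
    (fun i hi => ⟨(hx i hi).1, (hx i hi).2.1, (hx i hi).2.2.1⟩) (fun i j hij hj => ?_) (by simp) he
  obtain ⟨-, a1, a2, a3⟩ := hx i (hij.trans hj)
  obtain ⟨-, a4, a5, a6⟩ := hx j hj
  have c5 := b2 j hj
  have c6 := H.muh j hj
  have e1 : ∀ z : ℕ × ℕ × ℕ × δ, Kern.keyF N z = Kern.key3 N (z.1, z.2.1, z.2.2.1, 0) :=
    fun _ => rfl
  rw [e1, e1]
  refine Kern.key3_le (by simp only []; omega) (by simp only []; omega) ?_
  simp only []
  rcases lex i j hij.le hj with h1 | ⟨h1, h1 | ⟨h1, h2⟩⟩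
  · left
    omega
  · right
    exact ⟨by omega, Or.inl (by omega)⟩
  · right
    exact ⟨by omega, Or.inr ⟨by omega, by omega⟩⟩

end ThreeS

/-- **the enumeration** from `Kern.EnS` -/
theorem PartC.enumS {Q K n M N : ℕ} {kf : ℕ → ℕ} {tab : List (ℕ × ℕ × ℕ × ℕ)}
    {leaf : List (ℕ × ℕ × ℕ) → Bool} (hM : K ≤ M + (n + 1)) (hN : K < N)
    (hF : Kern.okF Q M = true) (hkf : Kern.okK M kf = true)
    (hs : Kern.srt (Kern.keyF N) tab = true)
    (ht : Kern.allTab M K K (Kern.okE Q M kf)
      (fun a b c => (Kern.lookF tab a b c).isSome) = true)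
    (he : Kern.EnS (fun a : ℕ × ℕ × ℕ × ℕ => a.1) (fun a => a.2.1) (fun _ => 0) (fun _ => 0) M K
      (n + 1) (fun l => leaf (Kern.revT l)) n tab) :
    PartC Q K n leaf := by
  intro ι t s h e E U ho vl kp ms mr mu Nb Nx be ls pc ar aT NN FF pw nu H hh lex
  obtain ⟨x, hx, hl⟩ := H.toItE.enumS3 lex hh hN hM
    (fun i hi => H.okE (H.few rfl hh hM hF) rfl hh hM hkf hi) hs ht he
  have h1 : Kern.revT ((List.range n).map x).reverse
      = (List.range n).map fun i => ((t i).toNat, (h i).toNat, (mu i).toNat) := by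
    rw [Kern.revT_eq, List.map_reverse, List.reverse_reverse, List.map_map]
    refine List.map_congr_left fun i hi => ?_
    obtain ⟨-, h2, h3, h4⟩ := hx i (List.mem_range.1 hi)
    show ((x i).1, (x i).2.1, (x i).2.2.1) = _
    rw [← h2, ← h3, ← h4, Int.toNat_natCast, Int.toNat_natCast, Int.toNat_natCast]
  rw [h1] at hl
  exact hl

end Pool.Agent.Lib.MP_f04ccf_co
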