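import Pool.Agent.Lib.MP_f04ccf_co.M.FinAll
import Pool.Agent.Lib.MP_f04ccf_co.M.GoodE

/-!
# The finite part: `Good r (r ^ 2 + 1)` for `10 ≤ r ≤ 16` (helper11)
-/

set_option autoImplicit false

namespace Pool.Agent.Lib.MP_f04ccf_co

/-- The finite part. -/
theorem good_fin {r : ℕ} (h1 : 10 ≤ r) (h2 : r ≤ 16) : Good r (r ^ 2 + 1) :=
  good_of_noitE r (by omega) (fun _ h5 hn => finA h1 h2 h5 hn)
    (fun _ h5 hn hQ => finB h1 h2 h5 hn hQ)

end Pool.Agent.Lib.MP_f04ccf_co
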