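import Pool.Agent.Lib.MP_f04ccf_co.M.GoodB
import Pool.Agent.Lib.MP_f04ccf_co.M.BlkE16
import Pool.Agent.Lib.MP_f04ccf_co.M.BlkC17
import Pool.Agent.Lib.MP_f04ccf_co.M.BlkC18
import Pool.Agent.Lib.MP_f04ccf_co.M.BlkC19

/-!
MP_f04ccf_co, PLAN W, **the finite part, `17 ≤ r ≤ 20`**: the block certificates for `16 ≤ R ≤ 19`,
`r = R + 1` (helper11; the certificates of helper8, helper31, helper32, helper99).
-/

set_option autoImplicit false

namespace Pool.Agent.Lib.MP_f04ccf_co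

/-- `r = 17` -/
theorem good_17 : Good 17 (17 ^ 2 + 1) :=
  good_of_blk (R := 16) (by norm_num) rfl (fun _ hn => noItC16_16 hn) (fun _ hn => noItC16_17 hn)

/-- `r = 18` -/
theorem good_18 : Good 18 (18 ^ 2 + 1) :=
  good_of_blk (R := 17) (by norm_num) rfl (fun _ hn => noItC17_17 hn) (fun _ hn => noItC17_18 hn)

/-- `r = 19` -/
theorem good_19 : Good 19 (19 ^ 2 + 1) :=
  good_of_blk (R := 18) (by norm_num) rfl (fun _ hn => noItC18_18 hn) (fun _ hn => noItC18_19 hn)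

/-- `r = 20` -/
theorem good_20 : Good 20 (20 ^ 2 + 1) :=
  good_of_blk (R := 19) (by norm_num) rfl (fun _ hn => noItC19_19 hn) (fun _ hn => noItC19_20 hn)

/-- **the finite part, `17 ≤ r ≤ 20`** -/
theorem good_hi {r : ℕ} (h1 : 17 ≤ r) (h2 : r ≤ 20) : Good r (r ^ 2 + 1) := by
  have hr : r = 17 ∨ r = 18 ∨ r = 19 ∨ r = 20 := by omega
  rcases hr with rfl | rfl | rfl | rfl
  · exact good_17
  · exact good_18
  · exact good_19
  · exact good_20

end Pool.Agent.Lib.MP_f04ccf_co
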