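import Pool.Agent.Lib.MP_f04ccf_co.M.TieC
import Pool.Agent.Lib.MP_f04ccf_co.M.FalC
import Pool.Agent.Lib.MP_f04ccf_co.M.GoodE

/-!
MP_f04ccf_co, PLAN W, finite part: `Good r (r ^ 2 + 1)`, `r = R + 1`, from the two families of tables of
one `R ≥ 13`: `∑ h ≤ R` for `n ≥ 5` rows, `∑ h ≤ R + 1` for `n ≥ 6` rows (helper11).
-/

set_option autoImplicit false

namespace Pool.Agent.Lib.MP_f04ccf_co

/-- **one `R` from its tables** -/
theorem good_of_blk {R r : ℕ} (hR : 13 ≤ R) (hr : r = R + 1)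
    (hA : ∀ n : ℕ, 5 ≤ n → NoItC ((R : ℕ) : ℤ) ((R : ℕ) : ℤ) n)
    (hB : ∀ n : ℕ, 6 ≤ n → NoItC ((R : ℕ) : ℤ) ((R + 1 : ℕ) : ℤ) n) : Good r (r ^ 2 + 1) := by
  subst hr
  refine good_of_noitE (R + 1) (by omega) (fun n h5 _ => ?_) (fun n h5 _ hQ => ?_)
  · have h := (hA n h5).t
    have e : (((R + 1 : ℕ) : ℤ) - 1) = ((R : ℕ) : ℤ) := by push_cast; ring
    rw [e]
    exact h
  · have h6 : 6 ≤ n := by
      rcases Nat.lt_or_ge n 6 with h | h
      · have hn : n = 5 := by omega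
        subst hn
        have := Exc.QQ.five_le hQ
        omega
      · exact h
    have h := (hB n h6).t
    have e : (((R + 1 : ℕ) : ℤ) - 1) = ((R : ℕ) : ℤ) := by push_cast; ring
    rw [e]
    exact h

end Pool.Agent.Lib.MP_f04ccf_co
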