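import Pool.Agent.Lib.MP_f04ccf_co.M.FinC9
import Pool.Agent.Lib.MP_f04ccf_co.M.FinA10
import Pool.Agent.Lib.MP_f04ccf_co.M.FinC10
import Pool.Agent.Lib.MP_f04ccf_co.M.FinB10_6
import Pool.Agent.Lib.MP_f04ccf_co.M.FinA11
import Pool.Agent.Lib.MP_f04ccf_co.M.FinC11
import Pool.Agent.Lib.MP_f04ccf_co.M.FinB11_6
import Pool.Agent.Lib.MP_f04ccf_co.M.FinB11_7
import Pool.Agent.Lib.MP_f04ccf_co.M.FinA12
import Pool.Agent.Lib.MP_f04ccf_co.M.FinC12
import Pool.Agent.Lib.MP_f04ccf_co.M.FinB12_6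
import Pool.Agent.Lib.MP_f04ccf_co.M.FinB12_7
import Pool.Agent.Lib.MP_f04ccf_co.M.FinB12_8
import Pool.Agent.Lib.MP_f04ccf_co.M.BlkC13
import Pool.Agent.Lib.MP_f04ccf_co.M.BlkC14
import Pool.Agent.Lib.MP_f04ccf_co.M.BlkC15
import Pool.Agent.Lib.MP_f04ccf_co.M.GoodB

/-!
MP_f04ccf_co, PLAN W, **the finite part, `10 ≤ r ≤ 16`, light form** (helper11): the tables of rows for
`9 ≤ R ≤ 12`, the block certificates for `13 ≤ R ≤ 15` (`r = R + 1`).
-/

set_option autoImplicit false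

namespace Pool.Agent.Lib.MP_f04ccf_co

lemma NoItC.toL {R H : ℤ} {n : ℕ} (h : NoItC R H n) {R' H' : ℤ} (hR : R' = R) (hH : H' ≤ H) :
    NoItT R' H' n := by
  subst hR
  exact (h.mono hH).t

/-- `r = 10` -/
theorem good_10 : Good 10 (10 ^ 2 + 1) := by
  refine good_of_noitE 10 (by norm_num) (fun n h5 hn => ?_) (fun n h5 hn _ => ?_)
  · omega
  · have hn' : n = 5 := by omega
    subst hn'
    exact NoItC.toL noItC9_5_10 (by norm_num) (by norm_num)

/-- `r = 11` -/
theorem good_11 : Good 11 (11 ^ 2 + 1) := by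
  refine good_of_noitE 11 (by norm_num) (fun n h5 hn => ?_) (fun n h5 hn _ => ?_)
  · have hn' : n = 5 := by omega
    subst hn'
    exact NoItC.toL noItC10_5_10 (by norm_num) (by norm_num)
  · have hn' : n = 5 ∨ n = 6 := by omega
    rcases hn' with rfl | rfl
    · exact NoItC.toL noItC10_5_11 (by norm_num) (by norm_num)
    · exact NoItC.toL noItC10_6_11 (by norm_num) (by norm_num)

/-- `r = 12` -/
theorem good_12 : Good 12 (12 ^ 2 + 1) := by
  refine good_of_noitE 12 (by norm_num) (fun n h5 hn => ?_) (fun n h5 hn _ => ?_)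
  · have hn' : n = 5 ∨ n = 6 := by omega
    rcases hn' with rfl | rfl
    · exact NoItC.toL noItC11_5_11 (by norm_num) (by norm_num)
    · exact NoItC.toL noItC11_6_12 (by norm_num) (by norm_num)
  · have hn' : n = 5 ∨ n = 6 ∨ n = 7 := by omega
    rcases hn' with rfl | rfl | rfl
    · exact NoItC.toL noItC11_5_12 (by norm_num) (by norm_num)
    · exact NoItC.toL noItC11_6_12 (by norm_num) (by norm_num)
    · exact NoItC.toL noItC11_7_12 (by norm_num) (by norm_num)

/-- `r = 13` -/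
theorem good_13 : Good 13 (13 ^ 2 + 1) := by
  refine good_of_noitE 13 (by norm_num) (fun n h5 hn => ?_) (fun n h5 hn _ => ?_)
  · have hn' : n = 5 ∨ n = 6 ∨ n = 7 := by omega
    rcases hn' with rfl | rfl | rfl
    · exact NoItC.toL noItC12_5_12 (by norm_num) (by norm_num)
    · exact NoItC.toL noItC12_6_13 (by norm_num) (by norm_num)
    · exact NoItC.toL noItC12_7_13 (by norm_num) (by norm_num)
  · have hn' : n = 5 ∨ n = 6 ∨ n = 7 ∨ n = 8 := by omega
    rcases hn' with rfl | rfl | rfl | rfl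
    · exact NoItC.toL noItC12_5_13 (by norm_num) (by norm_num)
    · exact NoItC.toL noItC12_6_13 (by norm_num) (by norm_num)
    · exact NoItC.toL noItC12_7_13 (by norm_num) (by norm_num)
    · exact NoItC.toL noItC12_8_13 (by norm_num) (by norm_num)

/-- `r = 14` -/
theorem good_14 : Good 14 (14 ^ 2 + 1) :=
  good_of_blk (R := 13) (by norm_num) rfl (fun _ hn => noItC13_13 hn) (fun _ hn => noItC13_14 hn)

/-- `r = 15` -/
theorem good_15 : Good 15 (15 ^ 2 + 1) :=
  good_of_blk (R := 14) (by norm_num) rfl (fun _ hn => noItC14_14 hn) (fun _ hn => noItC14_15 hn)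

/-- `r = 16` -/
theorem good_16 : Good 16 (16 ^ 2 + 1) :=
  good_of_blk (R := 15) (by norm_num) rfl (fun _ hn => noItC15_15 hn) (fun _ hn => noItC15_16 hn)

/-- **the finite part, `10 ≤ r ≤ 16`** -/
theorem good_lo {r : ℕ} (h1 : 10 ≤ r) (h2 : r ≤ 16) : Good r (r ^ 2 + 1) := by
  have hr : r = 10 ∨ r = 11 ∨ r = 12 ∨ r = 13 ∨ r = 14 ∨ r = 15 ∨ r = 16 := by omega
  rcases hr with rfl | rfl | rfl | rfl | rfl | rfl | rfl
  · exact good_10
  · exact good_11
  · exact good_12
  · exact good_13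
  · exact good_14
  · exact good_15
  · exact good_16

end Pool.Agent.Lib.MP_f04ccf_co
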