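import Pool.Agent.Lib.MP_f04ccf_co.M.PatV
import Pool.Agent.Lib.MP_f04ccf_co.M.FinE

/-!
MP_f04ccf_co, PLAN W, finite part: **the leaf `patT R n cs rows`**, version [C] of the items (`ItC`, `LvI`).
Search over the numbers of PC pairs of the cells `cs` (all pairs of rows, `prs n`), cell by cell, with
optimistic excess for the other cells; a node is dead if some row is dead by the ends of the PC pairs or if
the value of the ends of the host `0` or `1` is too small (`LvI.hostV`: values `n - 1`, `n - 2`, `0` with two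
thresholds, the row test for the number of ends of each level with the ends of the PC pairs in front, the
pair inequality with the own cell paid).  Everything in `ℕ` with recursors (`decide +kernel`).
`leafC_patT : LeafC R n (patT R n (prs n))`.
-/

set_option autoImplicit false

namespace Pool.Agent.Lib.MP_f04ccf_co

open Finset

namespace PatT

/-- the smaller one -/
noncomputable def mn2 (a b : ℕ) : ℕ := Bool.rec (motive := fun _ => ℕ) b a (Nat.ble a b)

/-- the larger one -/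
noncomputable def mx2 (a b : ℕ) : ℕ := Bool.rec (motive := fun _ => ℕ) a b (Nat.ble a b)

/-- the choice `if a then b else c` -/
noncomputable def ite3 {α : Type} (a : Bool) (b c : α) : α := Bool.rec (motive := fun _ => α) c b a

/-- the largest value of `f` below `n`, without `x` and `z` -/
noncomputable def maxo (x z : ℕ) (f : ℕ → ℕ) (n : ℕ) : ℕ :=
  Nat.rec (motive := fun _ => ℕ) 0
    (fun y r => Bool.rec (motive := fun _ => ℕ)
      (Bool.rec (motive := fun _ => ℕ) (mx2 (f y) r) r (Nat.beq y z)) r (Nat.beq y x)) n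

/-- the sum of `f` below `n`, without `x` -/
noncomputable def sumo (x : ℕ) (f : ℕ → ℕ) (n : ℕ) : ℕ :=
  Nat.rec (motive := fun _ => ℕ) 0
    (fun y r => Bool.rec (motive := fun _ => ℕ) (Nat.add (f y) r) r (Nat.beq y x)) n

/-- the number of ends: `f` fuel, `g` hits and `h` gain of one more end -/
noncomputable def km (g h : ℕ) (f : ℕ) : ℕ → ℕ → ℕ → ℕ :=
  Nat.rec (motive := fun _ => ℕ → ℕ → ℕ → ℕ) (fun _ _ _ => 0)
    (fun _ ih L Q k => Bool.rec (motive := fun _ => ℕ) 0
      (Nat.succ (ih (Nat.add L g) (Nat.add Q (Nat.add h (Nat.succ (Nat.mul 4 k)))) (Nat.succ k)))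
      (Nat.ble (Nat.add L g) (Nat.add Q (Nat.add h (Nat.succ (Nat.mul 4 k)))))) f

/-- the largest `f` with `f ^ 2 ≤ τ + 1` -/
noncomputable def f1 (τ : ℕ) : ℕ :=
  ite3 (Nat.ble τ 2) 1 (ite3 (Nat.ble τ 7) 2 (ite3 (Nat.ble τ 14) 3 (ite3 (Nat.ble τ 23) 4
    (ite3 (Nat.ble τ 34) 5 (ite3 (Nat.ble τ 47) 6 τ)))))

/-- the largest `f` with `f ^ 2 - f ≤ q` -/
noncomputable def f2 (q : ℕ) : ℕ :=
  ite3 (Nat.ble q 1) 1 (ite3 (Nat.ble q 5) 2 (ite3 (Nat.ble q 11) 3 (ite3 (Nat.ble q 19) 4
    (ite3 (Nat.ble q 29) 5 (Nat.succ q)))))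

/-- the largest `f` with `f ^ 2 ≤ q` -/
noncomputable def f3 (q : ℕ) : ℕ :=
  ite3 (Nat.ble q 0) 0 (ite3 (Nat.ble q 3) 1 (ite3 (Nat.ble q 8) 2 (ite3 (Nat.ble q 15) 3
    (ite3 (Nat.ble q 24) 4 q))))

/-- the excess of `a` PC pairs when there are `b` in the other direction -/
noncomputable def nb (R τ a b : ℕ) : ℕ :=
  Nat.rec (motive := fun _ => ℕ) 0
    (fun a' _ => Nat.rec (motive := fun _ => ℕ)
      (Nat.rec (motive := fun _ => ℕ) (Nat.succ (f1 τ))
        (fun _ _ => Nat.add 2 (f3 (Nat.sub (Nat.add τ 4) R))) b)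
      (fun _ _ => Nat.add 3 (Nat.mul 2 (f2 (Nat.sub (Nat.add τ 4) R)))) a') a

/-- the largest excess of a cell -/
noncomputable def nmC (R τ : ℕ) : ℕ :=
  ite3 (Nat.ble R (Nat.add τ 4)) (mx2 (nb R τ 1 0) (mx2 (nb R τ 2 0) (nb R τ 1 1))) (nb R τ 1 0)

/-- the largest excess of one PC pair of a cell -/
noncomputable def kmC (R τ : ℕ) : ℕ :=
  ite3 (Nat.ble R (Nat.add τ 4)) (mx2 (nb R τ 1 0) (mx2 (Nat.div (Nat.succ (nb R τ 2 0)) 2)
    (nb R τ 1 1))) (nb R τ 1 0)

section World

variable (R n : ℕ) (t h mu : ℕ → ℕ)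

/-- the first threshold, `a`, `b` the rows with the largest `t` besides the host -/
noncomputable def m1 (a b j : ℕ) : ℕ :=
  mx2 j (Nat.div (Nat.add R (Nat.mul (t a) (t b))) (Nat.sub R (t a)))

/-- the second threshold, `m` the first one -/
noncomputable def m2 (m a b z : ℕ) : ℕ :=
  mx2 m (mn2 (Nat.div (Nat.add R (Nat.mul (t (Bool.rec (motive := fun _ => ℕ) a b (Nat.beq z a)))
    (t z))) (Nat.succ m)) (Nat.pred (Nat.sub R (t z))))

/-- the row sides without ends of PC pairs: left -/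
noncomputable def rL (q : ℕ → ℕ) (z : ℕ) : ℕ :=
  Nat.add (Nat.mul R (h z)) (Nat.mul (q z) (Nat.add R (t z)))

/-- the row sides: right -/
noncomputable def rR (e q : ℕ → ℕ) (z : ℕ) : ℕ :=
  Nat.add (e z) (Nat.add (Nat.mul R (Nat.succ (t z)))
    (Nat.mul (q z) (Nat.add (Nat.mul 2 (h z)) (Nat.pred (Nat.mul 2 (q z))))))

/-- a row is dead by the ends of PC pairs -/
noncomputable def fr1 (e q : ℕ → ℕ) (z : ℕ) (r : Bool) : Bool :=
  Bool.rec (motive := fun _ => Bool) true r (Nat.ble (rL R t h q z) (rR R t h e q z))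

/-- some row is dead by the ends of PC pairs -/
noncomputable def frt (e q : ℕ → ℕ) : Bool :=
  fr1 R t h e q 0 (fr1 R t h e q 1
    (Nat.rec (motive := fun _ => Bool) false (fun z r => fr1 R t h e q z r) n))

/-- the pair constants: right side -/
noncomputable def kA (x z : ℕ) : ℕ :=
  Nat.add (Nat.succ R) (Nat.add (Nat.add (Nat.mul (h x) (h z))
    (Nat.mul (Nat.succ (t x)) (Nat.succ (t z))))
    (Nat.mul (Nat.pred R) (Nat.add (t x) (Nat.add (t z) 2))))

/-- the pair constants: left side -/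
noncomputable def kB (x z : ℕ) : ℕ :=
  Nat.add (Nat.add (Nat.mul (h x) (Nat.succ (t z))) (Nat.mul (h z) (Nat.succ (t x))))
    (Nat.mul (Nat.pred R) (Nat.add (h x) (h z)))

/-- the value of a row for the host `x`: `S` the bound of the hits, `c` the length of the row, `a1`,
`a2` the thresholds, `L`, `Q` the row sides, `k` the ends in front -/
noncomputable def rowV (D p c t2 h2 hx S a1 a2 L Q k : ℕ) : ℕ :=
  Nat.add (Nat.mul D p) (Nat.add
    (Nat.mul (Nat.pred D) (km (Nat.add (Nat.sub c a2) t2) h2 (mn2 hx (Nat.div S (Nat.sub c a2)))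
      L Q k))
    (km (Nat.add (Nat.sub c a1) t2) h2 (mn2 hx (Nat.div S (Nat.sub c a1))) L Q k))

/-- the test of the host `x`, `m` the first threshold -/
noncomputable def hsm (e q : ℕ → ℕ) (P W : ℕ → ℕ → ℕ) (x a b m : ℕ) : Bool :=
  Nat.ble (Nat.succ (sumo x (fun z => rowV (Nat.pred n) (P x z) (Nat.sub R (t z))
    (Nat.mul 2 (t z)) (Nat.mul 2 (h z)) (h x)
    (Nat.sub (Nat.add (Nat.add (e x) (e z)) (kA R t h x z)) (Nat.add (kB R t h x z) (W x z)))
    m (m2 R t m a b z) (rL R t h q z) (rR R t h e q z) (q z)) n)) (Nat.mul (Nat.pred n) (mu x))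

/-- the test of the host `x` with the parameter `j` -/
noncomputable def hst (e q : ℕ → ℕ) (P W : ℕ → ℕ → ℕ) (x a b j : ℕ) : Bool :=
  ite3 (Nat.ble (Nat.succ (m1 R t a b j)) (Nat.sub R (t 0)))
    (hsm R n t h mu e q P W x a b (m1 R t a b j)) false

/-- the test of a node -/
noncomputable def ndT (e q : ℕ → ℕ) (P W : ℕ → ℕ → ℕ) : Bool :=
  ite3 (frt R n t h e q) true
    (ite3 (hst R n t h mu e q P W 0 1 2 2) true (ite3 (hst R n t h mu e q P W 1 0 2 2) true
    (ite3 (hst R n t h mu e q P W 0 1 2 3) true (hst R n t h mu e q P W 1 0 2 3))))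

/-- the energies -/
noncomputable def eng (bs KM eN o rm : ℕ → ℕ) (z : ℕ) : ℕ :=
  Nat.add (bs z) (Nat.add (eN z) (mn2 (rm z) (Nat.mul (Nat.sub (mu z) (o z)) (KM z))))

/-- add at two places -/
noncomputable def up (f : ℕ → ℕ) (i a j b z : ℕ) : ℕ :=
  Bool.rec (motive := fun _ => ℕ) (Bool.rec (motive := fun _ => ℕ) (f z) (Nat.add (f z) b)
    (Nat.beq z j)) (Nat.add (f z) a) (Nat.beq z i)

/-- subtract at two places -/
noncomputable def dn (f : ℕ → ℕ) (i a j b z : ℕ) : ℕ :=
  Bool.rec (motive := fun _ => ℕ) (Bool.rec (motive := fun _ => ℕ) (f z) (Nat.sub (f z) b)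
    (Nat.beq z j)) (Nat.sub (f z) a) (Nat.beq z i)

/-- set two entries -/
noncomputable def st2 (P : ℕ → ℕ → ℕ) (i j a b x z : ℕ) : ℕ :=
  Bool.rec (motive := fun _ => ℕ)
    (Bool.rec (motive := fun _ => ℕ) (P x z)
      (Bool.rec (motive := fun _ => ℕ) (P x z) b (Nat.beq z i)) (Nat.beq x j))
    (Bool.rec (motive := fun _ => ℕ) (P x z) a (Nat.beq z j)) (Nat.beq x i)

/-- the payments of a cell: excess, hits of the PC pairs, without the net gain -/
noncomputable def wC (i j a b : ℕ) : ℕ :=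
  Nat.sub (Nat.add (Nat.add (nb R (Nat.mul (t i) (t j)) a b) (nb R (Nat.mul (t i) (t j)) b a))
    (Nat.add (Nat.mul a (Nat.sub R (t j))) (Nat.mul b (Nat.sub R (t i)))))
    (Nat.div (Nat.mul (Nat.add a b) (Nat.succ (Nat.add a b))) 2)

/-- **the search over the cells** -/
noncomputable def dfs (bs KM : ℕ → ℕ) (cs : List (ℕ × ℕ)) :
    (ℕ → ℕ) → (ℕ → ℕ) → (ℕ → ℕ) → (ℕ → ℕ) → (ℕ → ℕ → ℕ) → (ℕ → ℕ → ℕ) → Bool :=
  List.rec (motive := fun _ => (ℕ → ℕ) → (ℕ → ℕ) → (ℕ → ℕ) → (ℕ → ℕ) → (ℕ → ℕ → ℕ) →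
      (ℕ → ℕ → ℕ) → Bool)
    (fun eN o q rm P W => ndT R n t h mu (eng mu bs KM eN o rm) q P W)
    (fun c _ ih eN o q rm P W =>
      ite3 (ndT R n t h mu (eng mu bs KM eN o rm) q P W) true
        ((fun (go : ℕ → ℕ → Bool) =>
          ite3 (go 0 0) (ite3 (ite3 (Nat.ble (mu c.1) (o c.1)) true (go 1 0))
            (ite3 (ite3 (Nat.ble (mu c.2) (o c.2)) true (go 0 1))
              (ite3 (Nat.ble R (Nat.add (Nat.mul (t c.1) (t c.2)) 4))
                (ite3 (ite3 (Nat.ble (mu c.1) (Nat.succ (o c.1))) true (go 2 0))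
                  (ite3 (ite3 (Nat.ble (mu c.2) (Nat.succ (o c.2))) true (go 0 2))
                    (ite3 (Nat.ble (mu c.1) (o c.1)) true
                      (ite3 (Nat.ble (mu c.2) (o c.2)) true (go 1 1))) false) false)
                true) false) false) false)
          (fun a b => ih
            (up eN c.1 (nb R (Nat.mul (t c.1) (t c.2)) a b) c.2
              (nb R (Nat.mul (t c.1) (t c.2)) b a))
            (up o c.1 a c.2 b) (up q c.1 b c.2 a)
            (dn rm c.1 (nmC R (Nat.mul (t c.1) (t c.2))) c.2 (nmC R (Nat.mul (t c.1) (t c.2))))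
            (st2 P c.1 c.2 a b)
            (st2 W c.1 c.2 (wC R t c.1 c.2 a b) (wC R t c.1 c.2 a b))))) cs

end World

/-- the base of the energy -/
noncomputable def bsN (m h : ℕ) : ℕ := Nat.div (Nat.mul m (Nat.pred (Nat.sub (Nat.mul 2 h) m))) 2

/-- look up -/
noncomputable def gt {α : Type} (d : ℕ) (f : α → ℕ) (l : List α) : ℕ → ℕ :=
  List.rec (motive := fun _ => ℕ → ℕ) (fun _ => d)
    (fun a _ ih i => Nat.rec (motive := fun _ => ℕ) (f a) (fun i' _ => ih i') i) l

/-- **the leaf** -/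
noncomputable def patT (R n : ℕ) (cs : List (ℕ × ℕ)) (rs : List (ℕ × ℕ × ℕ)) : Bool :=
  (fun (t h mu : ℕ → ℕ) => ite3 (Nat.ble (Nat.add (Nat.mul (t 0) (t 1)) 10) (Nat.mul 2 R))
    (dfs R n t h mu (fun z => bsN (mu z) (h z))
      (fun z => maxo z z (fun y => kmC R (Nat.mul (t z) (t y))) n) cs
      (fun _ => 0) (fun _ => 0) (fun _ => 0)
      (fun z => sumo z (fun y => nmC R (Nat.mul (t z) (t y))) n) (fun _ _ => 0) (fun _ _ => 0))
    false)
  (gt 0 (fun a => a.1) rs) (gt 0 (fun a => a.2.1) rs) (gt 0 (fun a => a.2.2) rs)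

/-! ### the pure functions -/

section Pure

lemma mn2_eq (a b : ℕ) : mn2 a b = min a b := by
  unfold mn2
  rcases h : Nat.ble a b with _ | _
  · have h1 : ¬ a ≤ b := fun h2 => by
      rw [Nat.ble_eq_true_of_le h2] at h
      exact absurd h (by simp)
    exact (min_eq_right (not_le.1 h1).le).symm
  · exact (min_eq_left (Nat.le_of_ble_eq_true h)).symm

lemma mx2_eq (a b : ℕ) : mx2 a b = max a b := by
  unfold mx2
  rcases h : Nat.ble a b with _ | _
  · have h1 : ¬ a ≤ b := fun h2 => by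
      rw [Nat.ble_eq_true_of_le h2] at h
      exact absurd h (by simp)
    exact (max_eq_left (not_le.1 h1).le).symm
  · exact (max_eq_right (Nat.le_of_ble_eq_true h)).symm

lemma ite3_true {a b c : Bool} (h : ite3 a b c = true) : a = true ∧ b = true ∨ a = false ∧ c = true := by
  rcases a with _ | _
  · exact Or.inr ⟨rfl, h⟩
  · exact Or.inl ⟨rfl, h⟩

lemma ite3_nat {a : Bool} {b c : ℕ} : ite3 a b c = if a = true then b else c := by
  rcases a with _ | _
  · rfl
  · rfl

lemma maxo_ge (x z : ℕ) (f : ℕ → ℕ) : ∀ n y, y < n → y ≠ x → y ≠ z → f y ≤ maxo x z f n := by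
  intro n
  induction n with
  | zero =>
    intro y hy
    omega
  | succ n ih =>
    intro y hy hx hz
    have h1 : maxo x z f (n + 1) = Bool.rec (motive := fun _ => ℕ)
      (Bool.rec (motive := fun _ => ℕ) (mx2 (f n) (maxo x z f n)) (maxo x z f n) (Nat.beq n z))
        (maxo x z f n) (Nat.beq n x) := rfl
    rw [h1]
    rcases (by omega : y = n ∨ y < n) with h2 | h2
    · subst h2
      have e1 : Nat.beq y x = false := by
        rcases h : Nat.beq y x with _ | _
        · rfl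
        · exact absurd (Nat.eq_of_beq_eq_true h) hx
      have e2 : Nat.beq y z = false := by
        rcases h : Nat.beq y z with _ | _
        · rfl
        · exact absurd (Nat.eq_of_beq_eq_true h) hz
      rw [e1, e2, mx2_eq]
      exact le_max_left _ _
    · have h3 := ih y h2 hx hz
      rcases Nat.beq n x with _ | _
      · rcases Nat.beq n z with _ | _
        · rw [mx2_eq]
          exact h3.trans (le_max_right _ _)
        · exact h3
      · exact h3

lemma sumo_eq (x : ℕ) (f : ℕ → ℕ) : ∀ n, sumo x f n = ∑ z ∈ (range n).erase x, f z := by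
  intro n
  induction n with
  | zero => rfl
  | succ n ih =>
    have h1 : sumo x f (n + 1) = Bool.rec (motive := fun _ => ℕ) (f n + sumo x f n) (sumo x f n)
      (Nat.beq n x) := rfl
    rw [h1, ih]
    rcases h : Nat.beq n x with _ | _
    · have hx : n ≠ x := fun h2 => by
        rw [h2, Nat.beq_refl] at h
        exact absurd h (by simp)
      rw [range_add_one, erase_insert_of_ne hx, sum_insert (by simp)]
    · have hx := Nat.eq_of_beq_eq_true h
      rw [range_add_one, ← hx, erase_insert (by simp)]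
      rw [erase_eq_of_notMem (by simp)]

lemma km_ge (g h : ℕ) : ∀ J f L Q k, J ≤ f →
    (∀ j, 1 ≤ j → j ≤ J → L + j * g + j ≤ Q + j * h + 4 * j * k + 2 * j ^ 2) →
    J ≤ km g h f L Q k := by
  intro J
  induction J with
  | zero =>
    intro f L Q k _ _
    exact Nat.zero_le _
  | succ J ih =>
    intro f L Q k hf hj
    obtain ⟨f, rfl⟩ : ∃ f', f = f' + 1 := ⟨f - 1, by omega⟩
    have h1 : km g h (f + 1) L Q k = Bool.rec (motive := fun _ => ℕ) 0
      (Nat.succ (km g h f (L + g) (Q + (h + Nat.succ (4 * k))) (Nat.succ k)))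
      (Nat.ble (L + g) (Q + (h + Nat.succ (4 * k)))) := rfl
    have h2 := hj 1 le_rfl (by omega)
    have h3 : Nat.ble (L + g) (Q + (h + Nat.succ (4 * k))) = true :=
      Nat.ble_eq_true_of_le (by
        simp only [one_mul, mul_one, one_pow] at h2
        omega)
    rw [h1, h3]
    refine Nat.succ_le_succ (ih f _ _ _ (by omega) fun j hj1 hj2 => ?_)
    have h4 := hj (j + 1) (by omega) (by omega)
    simp only [Nat.succ_eq_add_one]
    nlinarith

lemma f1_ge {f τ : ℕ} (h : f * f ≤ τ + 1) : f ≤ f1 τ := by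
  unfold f1
  simp only [ite3_nat, Nat.ble_eq]
  have key : ∀ k, ¬ f ≤ k → (k + 1) * (k + 1) ≤ f * f := fun k hk =>
    Nat.mul_le_mul (by omega) (by omega)
  split_ifs
  · by_contra h1
    have := key _ h1
    omega
  · by_contra h1
    have := key _ h1
    omega
  · by_contra h1
    have := key _ h1
    omega
  · by_contra h1
    have := key _ h1
    omega
  · by_contra h1
    have := key _ h1
    omega
  · by_contra h1
    have := key _ h1
    omega
  · by_contra h1
    have h2 := key _ h1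
    have h3 := Nat.mul_le_mul_right (τ + 1) (show 2 ≤ τ + 1 by omega)
    omega

lemma f2_ge {f q : ℕ} (h : f * f ≤ q + f) : f ≤ f2 q := by
  unfold f2
  simp only [ite3_nat, Nat.ble_eq]
  have key : ∀ k, ¬ f ≤ k → (k + 1) * k ≤ q := fun k hk => by
    have h1 : (k + 1) * f ≤ f * f := Nat.mul_le_mul_right f (by omega)
    nlinarith
  split_ifs
  · by_contra h1
    have := key _ h1
    omega
  · by_contra h1
    have := key _ h1
    omega
  · by_contra h1
    have := key _ h1
    omega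
  · by_contra h1
    have := key _ h1
    omega
  · by_contra h1
    have := key _ h1
    omega
  · by_contra h1
    have := key _ h1
    simp only [Nat.succ_eq_add_one] at this
    nlinarith

lemma f3_ge {f q : ℕ} (h : f * f ≤ q) : f ≤ f3 q := by
  unfold f3
  simp only [ite3_nat, Nat.ble_eq]
  have key : ∀ k, ¬ f ≤ k → (k + 1) * (k + 1) ≤ f * f := fun k hk =>
    Nat.mul_le_mul (by omega) (by omega)
  split_ifs
  · by_contra h1
    have := key _ h1
    omega
  · by_contra h1
    have := key _ h1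
    omega
  · by_contra h1
    have := key _ h1
    omega
  · by_contra h1
    have := key _ h1
    omega
  · by_contra h1
    have := key _ h1
    omega
  · by_contra h1
    have := key _ h1
    nlinarith

end Pure

section Cells

lemma nb_zero (R τ b : ℕ) : nb R τ 0 b = 0 := rfl

lemma nb_10 (R τ : ℕ) : nb R τ 1 0 = f1 τ + 1 := rfl

lemma nb_11 (R τ : ℕ) : nb R τ 1 1 = 2 + f3 (τ + 4 - R) := rfl

lemma nb_20 (R τ : ℕ) : nb R τ 2 0 = 3 + 2 * f2 (τ + 4 - R) := rfl

/-- the possible numbers of PC pairs of a cell -/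
def Ok2 (R τ a b : ℕ) : Prop := a + b ≤ 1 ∨ a + b = 2 ∧ R ≤ τ + 4

lemma Ok2.symm {R τ a b : ℕ} (h : Ok2 R τ a b) : Ok2 R τ b a := by
  unfold Ok2 at *
  omega

lemma Ok2.cases {R τ a b : ℕ} (h : Ok2 R τ a b) :
    a = 0 ∨ a = 1 ∧ b = 0 ∨ a = 1 ∧ b = 1 ∧ R ≤ τ + 4 ∨ a = 2 ∧ b = 0 ∧ R ≤ τ + 4 := by
  unfold Ok2 at h
  omega

lemma nb_le_nm {R τ a b : ℕ} (h : Ok2 R τ a b) : nb R τ a b ≤ nmC R τ := by
  unfold nmC
  simp only [ite3_nat, Nat.ble_eq, Nat.add_eq, mx2_eq]
  rcases h.cases with rfl | ⟨rfl, rfl⟩ | ⟨rfl, rfl, h1⟩ | ⟨rfl, rfl, h1⟩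
  · rw [nb_zero]
    exact Nat.zero_le _
  · split_ifs
    · exact le_max_left _ _
    · exact le_rfl
  · rw [if_pos h1]
    exact le_max_of_le_right (le_max_right _ _)
  · rw [if_pos h1]
    exact le_max_of_le_right (le_max_left _ _)

lemma nb_le_km {R τ a b : ℕ} (h : Ok2 R τ a b) : nb R τ a b ≤ a * kmC R τ := by
  unfold kmC
  simp only [ite3_nat, Nat.ble_eq, Nat.add_eq, mx2_eq, Nat.succ_eq_add_one]
  rcases h.cases with rfl | ⟨rfl, rfl⟩ | ⟨rfl, rfl, h1⟩ | ⟨rfl, rfl, h1⟩
  · rw [nb_zero]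
    exact Nat.zero_le _
  · rw [one_mul]
    split_ifs
    · exact le_max_left _ _
    · exact le_rfl
  · rw [if_pos h1, one_mul]
    exact le_max_of_le_right (le_max_right _ _)
  · rw [if_pos h1]
    have h2 : (nb R τ 2 0 + 1).div 2
        ≤ max (nb R τ 1 0) (max ((nb R τ 2 0 + 1).div 2) (nb R τ 1 1)) :=
      le_max_of_le_right (le_max_left _ _)
    have h3 : (nb R τ 2 0 + 1).div 2 = (nb R τ 2 0 + 1) / 2 := rfl
    generalize max (nb R τ 1 0) (max ((nb R τ 2 0 + 1).div 2) (nb R τ 1 1)) = M at h2 ⊢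
    rw [h3] at h2
    omega

lemma net_le {R τ a b : ℕ} (h : Ok2 R τ a b) :
    (a + b) * (a + b + 1) / 2 ≤ nb R τ a b + nb R τ b a := by
  have h1 := h.cases
  have h2 := h.symm.cases
  rcases h1 with rfl | ⟨rfl, rfl⟩ | ⟨rfl, rfl, h1⟩ | ⟨rfl, rfl, h1⟩
  · rcases h2 with rfl | ⟨rfl, -⟩ | ⟨rfl, h2, -⟩ | ⟨rfl, -⟩
    · simp
    · rw [nb_10, nb_zero]
      omega
    · omega
    · rw [nb_20, nb_zero]
      omega
  · rw [nb_10, nb_zero]
    omega
  · rw [nb_11]
    omega
  · rw [nb_20, nb_zero]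
    omega

variable {ι : Type*} {R n : ℕ} {t s h e : ℕ → ℤ} {E : ℕ → ℕ → ℤ} {U : Finset ι} {ho : ι → ℕ}
  {vl : ι → ℤ} {kp ms mr mn : ℕ → ι → ℤ} {mu Nb : ℕ → ℤ} {Nx : ℕ → ℕ → ℤ} {be : ℕ → ℕ → ℤ}
  {ls : ℕ → ℤ → ℤ} {pc ar : ι → ℤ} {aT : ℕ → ℤ} {NN FF pw : ℕ → ℕ → ℤ} {nu : ℕ → ι → ℤ}
  {T Hn Mn : ℕ → ℕ}

/-- the number of PC pairs as a natural number -/
def bn (be : ℕ → ℕ → ℤ) (x z : ℕ) : ℕ := (be x z).toNat

lemma bn_cast (H : ItC (R : ℤ) n t s h e E U ho vl kp ms mr mu Nb Nx be ls pc ar aT NN FF pw nu)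
    {x z : ℕ} (hx : x < n) (hz : z < n) : (bn be x z : ℤ) = be x z :=
  Int.toNat_of_nonneg (H.be0 x hx z hz)

/-- the cells -/
lemma cell (H : ItC (R : ℤ) n t s h e E U ho vl kp ms mr mu Nb Nx be ls pc ar aT NN FF pw nu)
    (hT : ∀ i < n, (T i : ℤ) = t i) (hg : T 0 * T 1 + 10 ≤ 2 * R) {x z : ℕ} (hx : x < n)
    (hz : z < n) (hxz : x ≠ z) : Ok2 R (T x * T z) (bn be x z) (bn be z x) := by
  have h1 := bn_cast H hx hz
  have h2 := bn_cast H hz hx
  have hn := H.n5
  have h3 : t x * t z ≤ t 0 * t 1 := by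
    rcases lt_or_gt_of_ne hxz with h4 | h4
    · exact mul_le_mul (H.anti 0 x (Nat.zero_le _) hx) (H.anti 1 z (by omega) hz) (H.t0 z hz)
        (H.t0 0 (by omega))
    · rw [mul_comm (t x)]
      exact mul_le_mul (H.anti 0 z (Nat.zero_le _) hz) (H.anti 1 x (by omega) hx) (H.t0 x hx)
        (H.t0 0 (by omega))
  have h4 : ((T x * T z : ℕ) : ℤ) = t x * t z := by
    push_cast
    rw [hT x hx, hT z hz]
  have h5 : ((T 0 * T 1 : ℕ) : ℤ) = t 0 * t 1 := by
    push_cast
    rw [hT 0 (by omega), hT 1 (by omega)]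
  have h6 : ((T 0 * T 1 : ℕ) : ℤ) + 10 ≤ 2 * R := by exact_mod_cast hg
  by_cases h7 : 3 ≤ be x z + be z x
  · have h8 := H.pc3 hx hz hxz h7
    exfalso
    linarith
  · by_cases h8 : 2 ≤ be x z + be z x
    · have h9 := H.pc2 hx hz hxz h8
      right
      constructor
      · omega
      · rw [← h4] at h9
        exact_mod_cast h9
    · left
      omega

/-- the excess of a cell -/
lemma NN_le (H : ItC (R : ℤ) n t s h e E U ho vl kp ms mr mu Nb Nx be ls pc ar aT NN FF pw nu)
    (hT : ∀ i < n, (T i : ℤ) = t i) (hg : T 0 * T 1 + 10 ≤ 2 * R) {x z : ℕ} (hx : x < n)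
    (hz : z < n) (hxz : x ≠ z) :
    NN x z ≤ 2 * (nb R (T x * T z) (bn be x z) (bn be z x) : ℕ) := by
  have h1 := bn_cast H hx hz
  have h2 := bn_cast H hz hx
  have h4 : ((T x * T z : ℕ) : ℤ) = t x * t z := by
    push_cast
    rw [hT x hx, hT z hz]
  rcases (cell H hT hg hx hz hxz).cases with h3 | ⟨h3, h5⟩ | ⟨h3, h5, h6⟩ | ⟨h3, h5, h6⟩
  · rw [h3, Nat.cast_zero] at h1
    rw [H.NNz x hx z hz h1.symm, h3, nb_zero]
    norm_num
  · rw [h3, Nat.cast_one] at h1
    rw [h5, Nat.cast_zero] at h2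
    obtain ⟨-, f, f0, g1, g2, -⟩ := H.nb10 hx hz hxz h1.symm h2.symm
    rw [h3, h5, nb_10]
    have h7 : f.toNat ≤ f1 (T x * T z) := by
      refine f1_ge ?_
      have e1 : ((f.toNat : ℕ) : ℤ) = f := Int.toNat_of_nonneg f0
      have e2 : ((f.toNat * f.toNat : ℕ) : ℤ) ≤ ((T x * T z + 1 : ℕ) : ℤ) := by
        push_cast
        push_cast at h4
        rw [e1, h4]
        linarith [sq f]
      exact_mod_cast e2
    have h8 : (f.toNat : ℤ) ≤ f1 (T x * T z) := by exact_mod_cast h7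
    rw [Int.toNat_of_nonneg f0] at h8
    push_cast
    linarith
  · rw [h3, Nat.cast_one] at h1
    rw [h5, Nat.cast_one] at h2
    obtain ⟨f, f0, g1, -, g2, -⟩ := H.nb11 hx hz hxz h1.symm h2.symm
    rw [h3, h5, nb_11]
    have e3 : ((T x * T z + 4 - R : ℕ) : ℤ) = t x * t z + 4 - R := by
      rw [Nat.cast_sub h6]
      push_cast
      push_cast at h4
      rw [h4]
    have h7 : (f - 1).toNat ≤ f3 (T x * T z + 4 - R) := by
      refine f3_ge ?_
      rcases le_or_gt 1 f with h9 | h9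
      · have e1 : (((f - 1).toNat : ℕ) : ℤ) = f - 1 := Int.toNat_of_nonneg (by linarith)
        have e2 : (((f - 1).toNat * (f - 1).toNat : ℕ) : ℤ) ≤ ((T x * T z + 4 - R : ℕ) : ℤ) := by
          rw [e3]
          push_cast
          rw [e1]
          nlinarith
        exact_mod_cast e2
      · have e1 : (f - 1).toNat = 0 := Int.toNat_eq_zero.2 (by linarith)
        rw [e1]
        exact Nat.zero_le _
    have h8 : f - 1 ≤ f3 (T x * T z + 4 - R) := by
      have h10 : ((f - 1).toNat : ℤ) ≤ f3 (T x * T z + 4 - R) := by exact_mod_cast h7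
      exact (Int.self_le_toNat _).trans h10
    push_cast
    linarith
  · rw [h3] at h1
    rw [h5, Nat.cast_zero] at h2
    obtain ⟨-, f, f0, g1, g2, -⟩ := H.nb20 hx hz hxz (by rw [← h1]; norm_num) h2.symm
    rw [h3, h5, nb_20]
    have e3 : ((T x * T z + 4 - R : ℕ) : ℤ) = t x * t z + 4 - R := by
      rw [Nat.cast_sub h6]
      push_cast
      push_cast at h4
      rw [h4]
    have h7 : f.toNat ≤ f2 (T x * T z + 4 - R) := by
      refine f2_ge ?_
      have e1 : ((f.toNat : ℕ) : ℤ) = f := Int.toNat_of_nonneg f0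
      have e2 : ((f.toNat * f.toNat : ℕ) : ℤ) ≤ ((T x * T z + 4 - R + f.toNat : ℕ) : ℤ) := by
        rw [Nat.cast_add, e3]
        push_cast
        rw [e1]
        linarith [sq f]
      exact_mod_cast e2
    have h8 : (f.toNat : ℤ) ≤ f2 (T x * T z + 4 - R) := by exact_mod_cast h7
    rw [Int.toNat_of_nonneg f0] at h8
    push_cast
    linarith

/-- the net gain of a cell -/
lemma net (H : ItC (R : ℤ) n t s h e E U ho vl kp ms mr mu Nb Nx be ls pc ar aT NN FF pw nu)
    (hT : ∀ i < n, (T i : ℤ) = t i) (hg : T 0 * T 1 + 10 ≤ 2 * R) {x z : ℕ} (hx : x < n)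
    (hz : z < n) (hxz : x ≠ z) :
    NN x z + NN z x - 2 * FF x z
      ≤ 2 * (((bn be x z + bn be z x) * (bn be x z + bn be z x + 1) / 2 : ℕ) : ℤ) := by
  have h1 := bn_cast H hx hz
  have h2 := bn_cast H hz hx
  have h3 := cell H hT hg hx hz hxz
  unfold Ok2 at h3
  have b1 := H.be0 x hx z hz
  have b2 := H.be0 z hz x hx
  rcases (by omega : bn be x z + bn be z x = 0 ∨ bn be x z + bn be z x = 1 ∨
    bn be x z + bn be z x = 2) with h4 | h4 | h4
  · have h5 : be x z = 0 := by omega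
    have h6 : be z x = 0 := by omega
    have h7 := H.FF0 x hx z hz
    rw [h4, H.NNz x hx z hz h5, H.NNz z hz x hx h6]
    norm_num
    exact h7
  · have h5 := H.net1 hx hz hxz (by omega)
    rw [h4]
    norm_num
    linarith
  · have h5 := H.net2 hx hz hxz (by omega)
    rw [h4]
    norm_num
    linarith

end Cells

lemma bsN_two {m h : ℕ} (hm : m ≤ h) : 2 * (bsN m h : ℤ) = 2 * (m * h) - m * (m + 1) := by
  have e1 : bsN m h = m * (2 * h - m - 1) / 2 := rfl
  obtain ⟨k, hk⟩ := Nat.even_mul_succ_self m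
  have e2 : ((m * (2 * h - m - 1) : ℕ) : ℤ) + 2 * k = 2 * (m * h : ℕ) := by
    rcases Nat.eq_zero_or_pos m with h1 | h1
    · subst h1
      have : k = 0 := by omega
      rw [this]
      simp
    · have h2 : ((m * (m + 1) : ℕ) : ℤ) = k + k := by exact_mod_cast hk
      have h3 : ((2 * h - m - 1 : ℕ) : ℤ) = 2 * h - m - 1 := by omega
      push_cast at h2 ⊢
      rw [h3]
      linarith
  have e3 : ((m * (m + 1) : ℕ) : ℤ) = k + k := by exact_mod_cast hk
  rw [e1]
  push_cast at e3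
  have e4 : 2 * ((m * (2 * h - m - 1) / 2 : ℕ) : ℤ) = ((m * (2 * h - m - 1) : ℕ) : ℤ) := by
    have e5 : m * (2 * h - m - 1) + 2 * k = 2 * (m * h) := by exact_mod_cast e2
    have e6 : 2 * (m * (2 * h - m - 1) / 2) = m * (2 * h - m - 1) := by omega
    exact_mod_cast e6
  rw [e4]
  push_cast at e2 ⊢
  linarith

section Node

variable {ι : Type*} {R n : ℕ} {t s h e : ℕ → ℤ} {E : ℕ → ℕ → ℤ} {U : Finset ι} {ho : ι → ℕ}
  {vl : ι → ℤ} {kp ms mr mn : ℕ → ι → ℤ} {mu Nb : ℕ → ℤ} {Nx : ℕ → ℕ → ℤ} {be : ℕ → ℕ → ℤ}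
  {ls : ℕ → ℤ → ℤ} {pc ar : ι → ℤ} {aT : ℕ → ℤ} {NN FF pw : ℕ → ℕ → ℤ} {nu : ℕ → ι → ℤ}
  {T Hn Mn : ℕ → ℕ} {e' q : ℕ → ℕ} {P W : ℕ → ℕ → ℕ} {A : ℕ → ℕ → Prop}

/-- what is known at a node: `A x z` the cell is assigned -/
structure NodeF (R n : ℕ) (T Hn Mn : ℕ → ℕ) (be : ℕ → ℕ → ℤ) (e' q : ℕ → ℕ) (P W : ℕ → ℕ → ℕ)
    (A : ℕ → ℕ → Prop) : Prop where
  ef : ∀ z < n, bsN (Mn z) (Hn z)
    + ∑ y ∈ (range n).erase z, nb R (T z * T y) (bn be z y) (bn be y z) ≤ e' z
  PA : ∀ x < n, ∀ z < n, x ≠ z → A x z ∧ P x z = bn be x z ∧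
    W x z = wC R T x z (bn be x z) (bn be z x) ∨ ¬ A x z ∧ P x z = 0 ∧ W x z = 0
  qf : ∀ z < n, q z ≤ ∑ y ∈ (range n).erase z, P y z

/-- the energies -/
lemma energy (H : ItC (R : ℤ) n t s h e E U ho vl kp ms mr mu Nb Nx be ls pc ar aT NN FF pw nu)
    (hT : ∀ i < n, (T i : ℤ) = t i) (hH : ∀ i < n, (Hn i : ℤ) = h i)
    (hM : ∀ i < n, (Mn i : ℤ) = mu i) (hg : T 0 * T 1 + 10 ≤ 2 * R)
    (hN : NodeF R n T Hn Mn be e' q P W A) {z : ℕ} (hz : z < n) : e z ≤ e' z := by
  have h1 := H.enC hz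
  have h2 : ∑ y ∈ (range n).erase z, NN z y
      ≤ ∑ y ∈ (range n).erase z, 2 * (nb R (T z * T y) (bn be z y) (bn be y z) : ℤ) :=
    sum_le_sum fun y hy => NN_le H hT hg hz (mem_range.1 (mem_of_mem_erase hy))
      (ne_of_mem_erase hy).symm
  rw [← mul_sum] at h2
  have h3 : ((bsN (Mn z) (Hn z)
    + ∑ y ∈ (range n).erase z, nb R (T z * T y) (bn be z y) (bn be y z) : ℕ) : ℤ) ≤ e' z := by
    exact_mod_cast hN.ef z hz
  have h4 := bsN_two (m := Mn z) (h := Hn z) (by
    have := H.muh z hz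
    rw [← hM z hz, ← hH z hz] at this
    exact_mod_cast this)
  rw [hM z hz, hH z hz] at h4
  push_cast at h3
  linarith

/-- the items of the host which stand in front -/
noncomputable def pdA (pc : ι → ℤ) (a : Prop) (u : ι) : ℤ :=
  haveI := Classical.propDecidable a
  if a then pc u else 0

lemma pdA_pos {pc : ι → ℤ} {a : Prop} (ha : a) (u : ι) : pdA pc a u = pc u := if_pos ha

lemma pdA_neg {pc : ι → ℤ} {a : Prop} (ha : ¬ a) (u : ι) : pdA pc a u = 0 := if_neg ha

lemma pdA_cases (hp : ∀ u ∈ U, pc u = 0 ∨ pc u = 1) (a : Prop) :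
    ∀ u ∈ U, pdA pc a u = 0 ∨ pdA pc a u = 1 ∧ pc u = 1 := by
  intro u hu
  by_cases ha : a
  · rw [pdA_pos ha]
    rcases hp u hu with h1 | h1
    · exact Or.inl h1
    · exact Or.inr ⟨h1, h1⟩
  · exact Or.inl (pdA_neg ha u)

/-- the ends in front of the plain ends of the host `x` -/
lemma front (H : ItC (R : ℤ) n t s h e E U ho vl kp ms mr mu Nb Nx be ls pc ar aT NN FF pw nu)
    (hN : NodeF R n T Hn Mn be e' q P W A) {x z : ℕ} (hx : x < n) (hz : z < n) (hxz : x ≠ z) :
    (q z : ℤ) ≤ ∑ u ∈ U, (if ho u = x then pdA pc (A x z) u else pc u) * kp z u := by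
  have h1 : ∑ u ∈ U, (if ho u = x then pdA pc (A x z) u else pc u) * kp z u
      = ∑ y ∈ range n, ∑ u ∈ U.filter (fun u => ho u = y),
        (if ho u = x then pdA pc (A x z) u else pc u) * kp z u :=
    (sum_fiberwise_of_maps_to (fun u hu => mem_range.2 (H.hlt u hu)) _).symm
  have h2 : ∑ u ∈ U.filter (fun u => ho u = x),
      (if ho u = x then pdA pc (A x z) u else pc u) * kp z u = P x z := by
    rcases hN.PA x hx z hz hxz with ⟨a1, a2, -⟩ | ⟨a1, a2, -⟩
    · rw [a2, bn_cast H hx hz, ← H.pcb x hx z hz]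
      refine sum_congr rfl fun u hu => ?_
      rw [if_pos (mem_filter.1 hu).2, pdA_pos a1]
    · rw [a2, Nat.cast_zero]
      refine sum_eq_zero fun u hu => ?_
      rw [if_pos (mem_filter.1 hu).2, pdA_neg a1, zero_mul]
  have h3 : ∀ y ∈ (range n).erase x, (if y = z then 0 else (P y z : ℤ))
      ≤ ∑ u ∈ U.filter (fun u => ho u = y),
        (if ho u = x then pdA pc (A x z) u else pc u) * kp z u := by
    intro y hy
    have hyn := mem_range.1 (mem_of_mem_erase hy)
    have e1 : ∑ u ∈ U.filter (fun u => ho u = y),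
        (if ho u = x then pdA pc (A x z) u else pc u) * kp z u = be y z := by
      rw [← H.pcb y hyn z hz]
      refine sum_congr rfl fun u hu => ?_
      rw [if_neg (by rw [(mem_filter.1 hu).2]; exact ne_of_mem_erase hy)]
    rw [e1]
    have e2 := H.be0 y hyn z hz
    split_ifs with h4
    · exact e2
    · rcases hN.PA y hyn z hz h4 with ⟨-, a2, -⟩ | ⟨-, a2, -⟩
      · rw [a2, bn_cast H hyn hz]
      · rw [a2, Nat.cast_zero]
        exact e2
  have h4 := sum_le_sum h3
  rw [h1, ← add_sum_erase _ _ (mem_range.2 hx), h2]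
  refine le_trans ?_ (add_le_add_right h4 _)
  have h5 : (q z : ℤ) ≤ ∑ y ∈ (range n).erase z, (P y z : ℤ) := by exact_mod_cast hN.qf z hz
  have h6 : ∑ y ∈ (range n).erase z, (P y z : ℤ) = ∑ y ∈ range n, if y = z then 0 else (P y z : ℤ) := by
    rw [← add_sum_erase _ (fun y => if y = z then 0 else (P y z : ℤ)) (mem_range.2 hz), if_pos rfl,
      zero_add]
    exact sum_congr rfl fun y hy => by rw [if_neg (ne_of_mem_erase hy)]
  rw [h6, ← add_sum_erase _ _ (mem_range.2 hx), if_neg hxz] at h5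
  exact h5

/-- the hits of a pair -/
lemma pairB (H : ItC (R : ℤ) n t s h e E U ho vl kp ms mr mu Nb Nx be ls pc ar aT NN FF pw nu)
    (L : LvI (R : ℤ) n t s h e U ho vl kp ms mr mn mu be pc ar)
    (hT : ∀ i < n, (T i : ℤ) = t i) (hH : ∀ i < n, (Hn i : ℤ) = h i)
    (hM : ∀ i < n, (Mn i : ℤ) = mu i) (hg : T 0 * T 1 + 10 ≤ 2 * R)
    (hN : NodeF R n T Hn Mn be e' q P W A) {x z : ℕ} (hx : x < n) (hz : z < n) (hxz : x ≠ z) :
    ∑ u ∈ U.filter (fun u => ho u = x), (1 - pdA pc (A x z) u) * (kp z u * (R - t z) - ms z u)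
        + ((kB R T Hn x z + W x z : ℕ) : ℤ)
      ≤ ((e' x + e' z + kA R T Hn x z : ℕ) : ℤ) := by
  have key : ∀ i < n, ∀ j < n, i ≠ j → ((bsN (Mn i) (Hn i) : ℕ) : ℤ)
      + (nb R (T i * T j) (bn be i j) (bn be j i) : ℕ)
      + ∑ l ∈ ((range n).erase i).erase j, (nb R (T i * T l) (bn be i l) (bn be l i) : ℤ) ≤ e' i := by
    intro i hi j hj hij
    have h1 := hN.ef i hi
    rw [← add_sum_erase _ _ (mem_erase.2 ⟨hij.symm, mem_range.2 hj⟩)] at h1
    have h2 : ((bsN (Mn i) (Hn i) + (nb R (T i * T j) (bn be i j) (bn be j i)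
      + ∑ l ∈ ((range n).erase i).erase j, nb R (T i * T l) (bn be i l) (bn be l i)) : ℕ) : ℤ)
      ≤ e' i := by exact_mod_cast h1
    push_cast at h2
    linarith
  have keyN : ∀ i < n, ∀ j < n, ∑ l ∈ ((range n).erase i).erase j, NN i l
      ≤ 2 * ∑ l ∈ ((range n).erase i).erase j,
        (nb R (T i * T l) (bn be i l) (bn be l i) : ℤ) := by
    intro i hi j hj
    rw [mul_sum]
    exact sum_le_sum fun l hl => NN_le H hT hg hi
      (mem_range.1 (mem_of_mem_erase (mem_of_mem_erase hl)))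
      (ne_of_mem_erase (mem_of_mem_erase hl)).symm
  have bs : ∀ i < n, 2 * (bsN (Mn i) (Hn i) : ℤ) = 2 * (mu i * h i) - mu i * (mu i + 1) := by
    intro i hi
    rw [bsN_two (m := Mn i) (h := Hn i) (by
      have := H.muh i hi
      rw [← hM i hi, ← hH i hi] at this
      exact_mod_cast this), hM i hi, hH i hi]
  have h1 := H.pairS hx hz hxz
  have kx := key x hx z hz hxz
  have kz := key z hz x hx hxz.symm
  have nx := keyN x hx z hz
  have nz := keyN z hz x hx
  have bx := bs x hx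
  have bz := bs z hz
  have hk : ((kA R T Hn x z : ℕ) : ℤ) - (kB R T Hn x z : ℕ)
      = R + 1 + s x * s z - (R - 1) * (s x + s z) := by
    have e1 : kA R T Hn x z = R + 1 + (Hn x * Hn z + (T x + 1) * (T z + 1)
      + (R - 1) * (T x + (T z + 2))) := rfl
    have e2 : kB R T Hn x z = Hn x * (T z + 1) + Hn z * (T x + 1) + (R - 1) * (Hn x + Hn z) := rfl
    have e3 : ((R - 1 : ℕ) : ℤ) = (R : ℤ) - 1 := by
      have := H.tR x hx
      have := H.t0 x hx
      have : 1 ≤ R := by
        have : (1 : ℤ) ≤ R := by linarith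
        exact_mod_cast this
      rw [Nat.cast_sub this]
      norm_num
    rw [e1, e2]
    push_cast
    rw [e3, hT x hx, hT z hz, hH x hx, hH z hz, H.hh x hx, H.hh z hz]
    ring
  have hits0 : ∀ i < n, ∀ u ∈ U, 0 ≤ kp i u * (R - t i) - ms i u := by
    intro i hi u hu
    linarith [H.msr u hu i hi, H.mrk u hu i hi]
  have hpc : ∀ i < n, ∀ u ∈ U, pc u * (kp i u * (R - t i) - ms i u) = pc u * kp i u * (R - t i) := by
    intro i hi u hu
    rcases H.pcf u hu with h2 | h2
    · rw [h2]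
      ring
    · have h3 := (L.pc_data H.m0 H.mrk hu h2 hi).1
      have h4 := L.msn u hu i hi
      have h5 := H.m0 u hu i hi
      have h6 : ms i u = 0 := by linarith
      rw [h6]
      ring
  rcases hN.PA x hx z hz hxz with ⟨a1, a2, a3⟩ | ⟨a1, a2, a3⟩
  · have h2 : ∑ u ∈ U.filter (fun u => ho u = x),
        (1 - pdA pc (A x z) u) * (kp z u * (R - t z) - ms z u)
        = ∑ u ∈ U.filter (fun u => ho u = x), (kp z u * (R - t z) - ms z u)
          - be x z * (R - t z) := by
      rw [← H.pcb x hx z hz, sum_mul, ← sum_sub_distrib]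
      refine sum_congr rfl fun u hu => ?_
      rw [pdA_pos a1, ← hpc z hz u (mem_filter.1 hu).1]
      ring
    have h3 : be z x * (R - t x) ≤ ∑ u ∈ U.filter (fun u => ho u = z),
        (kp x u * (R - t x) - ms x u) := by
      rw [← H.pcb z hz x hx, sum_mul]
      refine sum_le_sum fun u hu => ?_
      have hu' := (mem_filter.1 hu).1
      rw [← hpc x hx u hu']
      rcases H.pcf u hu' with h4 | h4 <;> rw [h4]
      · rw [zero_mul]
        exact hits0 x hx u hu'
      · rw [one_mul]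
    have h4 := net H hT hg hx hz hxz
    have hW : ((W x z : ℕ) : ℤ) = (nb R (T x * T z) (bn be x z) (bn be z x) : ℕ)
        + (nb R (T z * T x) (bn be z x) (bn be x z) : ℕ) + (be x z * (R - t z) + be z x * (R - t x))
        - (((bn be x z + bn be z x) * (bn be x z + bn be z x + 1) / 2 : ℕ) : ℤ) := by
      rw [a3]
      have e1 : wC R T x z (bn be x z) (bn be z x)
        = nb R (T x * T z) (bn be x z) (bn be z x) + nb R (T x * T z) (bn be z x) (bn be x z)
          + (bn be x z * (R - T z) + bn be z x * (R - T x))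
          - (bn be x z + bn be z x) * (bn be x z + bn be z x + 1) / 2 := rfl
      have e2 := net_le (cell H hT hg hx hz hxz)
      have e3 : ∀ i < n, ((R - T i : ℕ) : ℤ) = R - t i := by
        intro i hi
        have e4 : T i ≤ R := by
          have := H.tR i hi
          rw [← hT i hi] at this
          have : (T i : ℤ) ≤ R := by linarith
          exact_mod_cast this
        rw [Nat.cast_sub e4, hT i hi]
      rw [e1, Nat.cast_sub (by omega), mul_comm (T z)]
      push_cast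
      rw [e3 x hx, e3 z hz, bn_cast H hx hz, bn_cast H hz hx]
    rw [h2]
    push_cast
    rw [hW]
    push_cast at h4 ⊢
    linarith
  · have h2 : ∑ u ∈ U.filter (fun u => ho u = x),
        (1 - pdA pc (A x z) u) * (kp z u * (R - t z) - ms z u)
        = ∑ u ∈ U.filter (fun u => ho u = x), (kp z u * (R - t z) - ms z u) := by
      refine sum_congr rfl fun u hu => ?_
      rw [pdA_neg a1]
      ring
    have h3 : 0 ≤ ∑ u ∈ U.filter (fun u => ho u = z), (kp x u * (R - t x) - ms x u) :=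
      sum_nonneg fun u hu => hits0 x hx u (mem_filter.1 hu).1
    have h4 := H.FF0 x hx z hz
    have h5 := NN_le H hT hg hx hz hxz
    have h6 := NN_le H hT hg hz hx hxz.symm
    rw [h2, a3]
    push_cast
    linarith

lemma q_cast (q h : ℕ) : ((q * (2 * h + (2 * q - 1)) : ℕ) : ℤ) = q * (2 * h + 2 * q - 1) := by
  rcases Nat.eq_zero_or_pos q with h1 | h1
  · rw [h1]
    simp
  · have h2 : ((2 * q - 1 : ℕ) : ℤ) = 2 * q - 1 := by omega
    push_cast
    rw [h2]
    ring

lemma rL_cast {z : ℕ} : ((rL R T Hn q z : ℕ) : ℤ) = R * Hn z + q z * (R + T z) := by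
  have e1 : rL R T Hn q z = R * Hn z + q z * (R + T z) := rfl
  rw [e1]
  push_cast
  ring

lemma rR_cast {z : ℕ} : ((rR R T Hn e' q z : ℕ) : ℤ)
    = e' z + R * (T z + 1) + q z * (2 * Hn z + 2 * q z - 1) := by
  have e1 : rR R T Hn e' q z = e' z + (R * (T z + 1) + q z * (2 * Hn z + (2 * q z - 1))) := rfl
  rw [e1, Nat.cast_add, Nat.cast_add, q_cast]
  push_cast
  ring

/-- the rows -/
lemma row_le (H : ItC (R : ℤ) n t s h e E U ho vl kp ms mr mu Nb Nx be ls pc ar aT NN FF pw nu)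
    (L : LvI (R : ℤ) n t s h e U ho vl kp ms mr mn mu be pc ar)
    (hT : ∀ i < n, (T i : ℤ) = t i) (hH : ∀ i < n, (Hn i : ℤ) = h i)
    (hM : ∀ i < n, (Mn i : ℤ) = mu i) (hg : T 0 * T 1 + 10 ≤ 2 * R)
    (hN : NodeF R n T Hn Mn be e' q P W A) {x z : ℕ} (hx : x < n) (hz : z < n) (hxz : x ≠ z)
    {m : ℤ} {j : ℕ} (hj : j ≤ LvI.nE U ho kp mn (pdA pc (A x z)) x z m) :
    ((rL R T Hn q z : ℕ) : ℤ) + j * (R - T z - m + 2 * T z) + j
      ≤ ((rR R T Hn e' q z : ℕ) : ℤ) + j * (2 * Hn z) + 4 * j * q z + 2 * j ^ 2 := by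
  have h1 := L.nE_row H.m0 H.mrk H.kh H.pcf (pdA_cases H.pcf (A x z)) hz hxz.symm (H.hh z hz)
    (H.h0 z hz) (H.tR z hz) (H.e0 z hz) (front H hN hx hz hxz) hj
  have h2 := energy H hT hH hM hg hN hz
  rw [rL_cast, rR_cast, hT z hz, hH z hz]
  have h3 : s z = h z - t z - 1 := by
    have := H.hh z hz
    linarith
  rw [h3] at h1
  nlinarith

lemma row_zero (H : ItC (R : ℤ) n t s h e E U ho vl kp ms mr mu Nb Nx be ls pc ar aT NN FF pw nu)
    (L : LvI (R : ℤ) n t s h e U ho vl kp ms mr mn mu be pc ar)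
    (hT : ∀ i < n, (T i : ℤ) = t i) (hH : ∀ i < n, (Hn i : ℤ) = h i)
    (hM : ∀ i < n, (Mn i : ℤ) = mu i) (hg : T 0 * T 1 + 10 ≤ 2 * R)
    (hN : NodeF R n T Hn Mn be e' q P W A) {z : ℕ} (hz : z < n) :
    rL R T Hn q z ≤ rR R T Hn e' q z := by
  have hn := H.n5
  obtain ⟨x, hx, hxz⟩ : ∃ x, x < n ∧ x ≠ z := by
    by_cases h1 : z = 0
    · exact ⟨1, by omega, by omega⟩
    · exact ⟨0, by omega, fun h2 => h1 h2.symm⟩
  have h1 := row_le H L hT hH hM hg hN hx hz hxz (m := 0) (j := 0) (Nat.zero_le _)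
  simp only [Nat.cast_zero, zero_mul, add_zero, mul_zero] at h1
  have h2 : ((rL R T Hn q z : ℕ) : ℤ) ≤ ((rR R T Hn e' q z : ℕ) : ℤ) := by
    have e1 : (2 : ℤ) * 0 ^ 2 = 0 := by norm_num
    linarith
  exact_mod_cast h2

lemma frt_false (H : ItC (R : ℤ) n t s h e E U ho vl kp ms mr mu Nb Nx be ls pc ar aT NN FF pw nu)
    (L : LvI (R : ℤ) n t s h e U ho vl kp ms mr mn mu be pc ar)
    (hT : ∀ i < n, (T i : ℤ) = t i) (hH : ∀ i < n, (Hn i : ℤ) = h i)
    (hM : ∀ i < n, (Mn i : ℤ) = mu i) (hg : T 0 * T 1 + 10 ≤ 2 * R)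
    (hN : NodeF R n T Hn Mn be e' q P W A) : frt R n T Hn e' q = false := by
  have hn := H.n5
  have h1 : ∀ z < n, ∀ r, fr1 R T Hn e' q z r = r := by
    intro z hz r
    have h2 := Nat.ble_eq_true_of_le (row_zero H L hT hH hM hg hN hz)
    have h3 : fr1 R T Hn e' q z r = Bool.rec (motive := fun _ => Bool) true r
      (Nat.ble (rL R T Hn q z) (rR R T Hn e' q z)) := rfl
    rw [h3, h2]
  have h2 : ∀ k ≤ n, Nat.rec (motive := fun _ => Bool) false
      (fun z r => fr1 R T Hn e' q z r) k = false := by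
    intro k
    induction k with
    | zero => intro _; rfl
    | succ k ih =>
      intro hk
      have h3 : Nat.rec (motive := fun _ => Bool) false (fun z r => fr1 R T Hn e' q z r) (k + 1)
        = fr1 R T Hn e' q k (Nat.rec (motive := fun _ => Bool) false
          (fun z r => fr1 R T Hn e' q z r) k) := rfl
      rw [h3, h1 k (by omega), ih (by omega)]
  unfold frt
  rw [h1 0 (by omega), h1 1 (by omega), h2 n le_rfl]

/-- the number of ends of one level -/
lemma nE_km (H : ItC (R : ℤ) n t s h e E U ho vl kp ms mr mu Nb Nx be ls pc ar aT NN FF pw nu)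
    (L : LvI (R : ℤ) n t s h e U ho vl kp ms mr mn mu be pc ar)
    (hT : ∀ i < n, (T i : ℤ) = t i) (hH : ∀ i < n, (Hn i : ℤ) = h i)
    (hM : ∀ i < n, (Mn i : ℤ) = mu i) (hg : T 0 * T 1 + 10 ≤ 2 * R)
    (hN : NodeF R n T Hn Mn be e' q P W A) {x z : ℕ} (hx : x < n) (hz : z < n) (hxz : x ≠ z)
    {m : ℕ} (hm : m + 1 ≤ R - T z) :
    LvI.nE U ho kp mn (pdA pc (A x z)) x z m
      ≤ km (R - T z - m + 2 * T z) (2 * Hn z) (mn2 (Hn x)
        ((e' x + e' z + kA R T Hn x z - (kB R T Hn x z + W x z)) / (R - T z - m)))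
        (rL R T Hn q z) (rR R T Hn e' q z) (q z) := by
  have hc : ((R - T z - m : ℕ) : ℤ) = R - T z - m := by omega
  refine km_ge _ _ _ _ _ _ _ ?_ fun j _ hj => ?_
  · rw [mn2_eq, le_min_iff]
    constructor
    · have h1 := L.nE_host H.k0 H.pcf (pdA_cases H.pcf (A x z)) hx hz (m := (m : ℤ))
      rw [← hH x hx] at h1
      exact_mod_cast h1
    · rw [Nat.le_div_iff_mul_le (by omega)]
      have h1 := L.nE_hits H.m0 H.k0 H.mrk (pdA_cases H.pcf (A x z)) (x := x) hz (m := (m : ℤ))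
        (by linarith [H.tR z hz])
      have h2 := pairB H L hT hH hM hg hN hx hz hxz
      rw [← hT z hz] at h1 h2
      have h3 : ((LvI.nE U ho kp mn (pdA pc (A x z)) x z m * (R - T z - m)
          + (kB R T Hn x z + W x z) : ℕ) : ℤ) ≤ ((e' x + e' z + kA R T Hn x z : ℕ) : ℤ) := by
        rw [Nat.cast_add, Nat.cast_mul, hc]
        linarith
      have h4 : LvI.nE U ho kp mn (pdA pc (A x z)) x z m * (R - T z - m)
          + (kB R T Hn x z + W x z) ≤ e' x + e' z + kA R T Hn x z := by exact_mod_cast h3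
      omega
  · have h1 := row_le H L hT hH hM hg hN hx hz hxz hj
    have h2 : ((rL R T Hn q z + j * (R - T z - m + 2 * T z) + j : ℕ) : ℤ)
        ≤ ((rR R T Hn e' q z + j * (2 * Hn z) + 4 * j * q z + 2 * j ^ 2 : ℕ) : ℤ) := by
      rw [Nat.cast_add, Nat.cast_add, Nat.cast_mul, Nat.cast_add, hc]
      push_cast
      linarith
    exact_mod_cast h2

/-- **the test of one host fails** -/
lemma hsm_false (H : ItC (R : ℤ) n t s h e E U ho vl kp ms mr mu Nb Nx be ls pc ar aT NN FF pw nu)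
    (L : LvI (R : ℤ) n t s h e U ho vl kp ms mr mn mu be pc ar)
    (hT : ∀ i < n, (T i : ℤ) = t i) (hH : ∀ i < n, (Hn i : ℤ) = h i)
    (hM : ∀ i < n, (Mn i : ℤ) = mu i) (hg : T 0 * T 1 + 10 ≤ 2 * R)
    (hN : NodeF R n T Hn Mn be e' q P W A) {x a b m : ℕ} (hx : x < n)
    (h0 : m + 1 ≤ R - T 0) (hm : R + T a * T b < (m + 1) * (R - T a))
    (ha : ∀ y < n, y ≠ x → T y ≤ T a) (hb : ∀ y < n, y ≠ x → y ≠ a → T y ≤ T b) :
    hsm R n T Hn Mn e' q P W x a b m = false := by
  have hn := H.n5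
  have hT0 : ∀ z < n, T z ≤ T 0 := by
    intro z hz
    have h1 := H.anti 0 z (Nat.zero_le _) hz
    rw [← hT z hz, ← hT 0 (by omega)] at h1
    exact_mod_cast h1
  have hmz : ∀ z < n, m + 1 ≤ R - T z := fun z hz => by
    have := hT0 z hz
    omega
  have e2 : ∀ z, m2 R T m a b z = max m (min ((R + T (if z = a then b else a) * T z) / (m + 1))
      (R - T z - 1)) := by
    intro z
    unfold m2
    rw [mx2_eq, mn2_eq]
    rcases hza : Nat.beq z a with _ | _
    · have h1 : z ≠ a := fun h2 => by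
        rw [h2, Nat.beq_refl] at hza
        exact absurd hza (by simp)
      rw [if_neg h1]
      rfl
    · rw [if_pos (Nat.eq_of_beq_eq_true hza)]
      rfl
  have h2z : ∀ z < n, m2 R T m a b z + 1 ≤ R - T z := by
    intro z hz
    have h1 := hmz z hz
    rw [e2 z]
    have h2 : min ((R + T (if z = a then b else a) * T z) / (m + 1)) (R - T z - 1) ≤ R - T z - 1 :=
      min_le_right _ _
    rcases max_choice m (min ((R + T (if z = a then b else a) * T z) / (m + 1)) (R - T z - 1))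
      with h3 | h3 <;> rw [h3] <;> omega
  have hV : ∀ y < n, ∀ z < n, y ≠ z → y ≠ x → z ≠ x →
      R + T y * T z < (m + 1) * (m2 R T m a b z + 1) := by
    intro y hy z hz hyz hyx hzx
    have h1 : min ((R + T (if z = a then b else a) * T z) / (m + 1)) (R - T z - 1)
        ≤ m2 R T m a b z := by
      rw [e2 z]
      exact le_max_right _ _
    have h3 : T y ≤ T (if z = a then b else a) := by
      split_ifs with h4
      · exact hb y hy hyx (fun h5 => hyz (h5.trans h4.symm))
      · exact ha y hy hyx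
    rcases min_choice ((R + T (if z = a then b else a) * T z) / (m + 1)) (R - T z - 1)
      with h4 | h4
    · rw [h4] at h1
      have h5 : R + T (if z = a then b else a) * T z
          < (m + 1) * ((R + T (if z = a then b else a) * T z) / (m + 1) + 1) :=
        Nat.lt_mul_div_succ _ (by omega)
      have h6 : T y * T z ≤ T (if z = a then b else a) * T z := Nat.mul_le_mul_right _ h3
      have h7 := Nat.mul_le_mul_left (m + 1) (Nat.succ_le_succ h1)
      simp only [Nat.succ_eq_add_one] at h7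
      omega
    · rw [h4] at h1
      have h5 : R - T z ≤ m2 R T m a b z + 1 := by
        have := hmz z hz
        omega
      have h6 : (m + 1) * (R - T a) ≤ (m + 1) * (R - T z) :=
        Nat.mul_le_mul_left _ (by
          have := ha z hz hzx
          omega)
      have h7 := Nat.mul_le_mul_left (m + 1) h5
      have h8 : T y * T z ≤ T a * T b := by
        by_cases h9 : z = a
        · rw [h9, mul_comm (T a)]
          exact Nat.mul_le_mul_right _ (hb y hy hyx (fun h10 => hyz (h10.trans h9.symm)))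
        · exact Nat.mul_le_mul (ha y hy hyx) (hb z hz hzx h9)
      omega
  rcases hr : hsm R n T Hn Mn e' q P W x a b m with _ | _
  · rfl
  exfalso
  unfold hsm at hr
  have h1 := Nat.le_of_ble_eq_true hr
  rw [sumo_eq] at h1
  have h2 := L.hostV H.m0 H.k0 H.mrk H.kh hx (H.hmu x hx) (m := (m : ℤ)) (by positivity)
    (a2 := fun z => (m2 R T m a b z : ℤ)) (fun z => by
      rw [e2 z]
      exact_mod_cast le_max_left _ _) (fun y hy z hz hyz hyx hzx => by
      have h3 := hV y hy z hz hyz hyx hzx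
      have h4 : ((R + T y * T z : ℕ) : ℤ) < (((m + 1) * (m2 R T m a b z + 1) : ℕ) : ℤ) := by
        exact_mod_cast h3
      push_cast at h4
      rw [hT y hy, hT z hz] at h4
      exact h4) (pd := fun z => pdA pc (A x z)) (fun z _ => pdA_cases H.pcf (A x z))
  have h3 : ∑ z ∈ (range n).erase x, (((n : ℤ) - 1)
      * ∑ u ∈ U.filter (fun u => ho u = x), pdA pc (A x z) u * kp z u
      + ((((n : ℤ) - 1) - 1) * LvI.nE U ho kp mn (pdA pc (A x z)) x z (m2 R T m a b z : ℤ)
        + LvI.nE U ho kp mn (pdA pc (A x z)) x z (m : ℤ)))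
      ≤ ((∑ z ∈ (range n).erase x, rowV (Nat.pred n) (P x z) (Nat.sub R (T z))
    (Nat.mul 2 (T z)) (Nat.mul 2 (Hn z)) (Hn x)
    (Nat.sub (Nat.add (Nat.add (e' x) (e' z)) (kA R T Hn x z)) (Nat.add (kB R T Hn x z) (W x z)))
    m (m2 R T m a b z) (rL R T Hn q z) (rR R T Hn e' q z) (q z) : ℕ) : ℤ) := by
    rw [Nat.cast_sum]
    refine sum_le_sum fun z hz => ?_
    have hzn := mem_range.1 (mem_of_mem_erase hz)
    have hxz := (ne_of_mem_erase hz).symm
    have h4 := nE_km H L hT hH hM hg hN hx hzn hxz (hmz z hzn)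
    have h5 := nE_km H L hT hH hM hg hN hx hzn hxz (h2z z hzn)
    have h6 : ∑ u ∈ U.filter (fun u => ho u = x), pdA pc (A x z) u * kp z u = (P x z : ℤ) := by
      rcases hN.PA x hx z hzn hxz with ⟨a1, a2, -⟩ | ⟨a1, a2, -⟩
      · rw [a2, bn_cast H hx hzn, ← H.pcb x hx z hzn]
        exact sum_congr rfl fun u _ => by rw [pdA_pos a1]
      · rw [a2, Nat.cast_zero]
        exact sum_eq_zero fun u _ => by rw [pdA_neg a1, zero_mul]
    have e3 : rowV (Nat.pred n) (P x z) (Nat.sub R (T z))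
        (Nat.mul 2 (T z)) (Nat.mul 2 (Hn z)) (Hn x)
        (Nat.sub (Nat.add (Nat.add (e' x) (e' z)) (kA R T Hn x z))
          (Nat.add (kB R T Hn x z) (W x z)))
        m (m2 R T m a b z) (rL R T Hn q z) (rR R T Hn e' q z) (q z)
      = (n - 1) * P x z + ((n - 1 - 1) * km (R - T z - m2 R T m a b z + 2 * T z) (2 * Hn z)
          (mn2 (Hn x) ((e' x + e' z + kA R T Hn x z - (kB R T Hn x z + W x z))
            / (R - T z - m2 R T m a b z))) (rL R T Hn q z) (rR R T Hn e' q z) (q z)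
        + km (R - T z - m + 2 * T z) (2 * Hn z)
          (mn2 (Hn x) ((e' x + e' z + kA R T Hn x z - (kB R T Hn x z + W x z))
            / (R - T z - m))) (rL R T Hn q z) (rR R T Hn e' q z) (q z)) := rfl
    have en1 : ((n - 1 : ℕ) : ℤ) = (n : ℤ) - 1 := by omega
    have en2 : ((n - 1 - 1 : ℕ) : ℤ) = (n : ℤ) - 1 - 1 := by omega
    have hn2 : (0 : ℤ) ≤ (n : ℤ) - 1 - 1 := by
      have : (5 : ℤ) ≤ n := by exact_mod_cast hn
      linarith
    rw [h6, e3]
    push_cast
    rw [en1, en2]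
    have h4' : (LvI.nE U ho kp mn (pdA pc (A x z)) x z (m : ℤ) : ℤ) ≤ _ := Nat.cast_le.2 h4
    have h5' : (LvI.nE U ho kp mn (pdA pc (A x z)) x z (m2 R T m a b z : ℤ) : ℤ) ≤ _ :=
      Nat.cast_le.2 h5
    have h7 := mul_le_mul_of_nonneg_left h5' hn2
    linarith
  have h4 : ((n : ℤ) - 1) * mu x = ((n - 1) * Mn x : ℕ) := by
    have en1 : ((n - 1 : ℕ) : ℤ) = (n : ℤ) - 1 := by omega
    push_cast
    rw [en1, hM x hx]
  rw [h4] at h2
  have h5 := h2.trans h3
  have h6 := Nat.cast_le.1 h5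
  have h7 : Nat.mul (Nat.pred n) (Mn x) = (n - 1) * Mn x := rfl
  rw [h7] at h1
  simp only [Nat.succ_eq_add_one] at h1
  omega

/-- **the test of a node fails** -/
theorem ndT_false (H : ItC (R : ℤ) n t s h e E U ho vl kp ms mr mu Nb Nx be ls pc ar aT NN FF pw nu)
    (L : LvI (R : ℤ) n t s h e U ho vl kp ms mr mn mu be pc ar)
    (hT : ∀ i < n, (T i : ℤ) = t i) (hH : ∀ i < n, (Hn i : ℤ) = h i)
    (hM : ∀ i < n, (Mn i : ℤ) = mu i) (hg : T 0 * T 1 + 10 ≤ 2 * R)
    (hN : NodeF R n T Hn Mn be e' q P W A) : ndT R n T Hn Mn e' q P W = false := by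
  have hn := H.n5
  have hT0 : ∀ y z, y ≤ z → z < n → T z ≤ T y := by
    intro y z hyz hz
    have h1 := H.anti y z hyz hz
    rw [← hT z hz, ← hT y (by omega)] at h1
    exact_mod_cast h1
  have key : ∀ x a b j, x < n → a < n → (∀ y < n, y ≠ x → T y ≤ T a) →
      (∀ y < n, y ≠ x → y ≠ a → T y ≤ T b) → hst R n T Hn Mn e' q P W x a b j = false := by
    intro x a b j hx han ha hb
    unfold hst
    rcases hg1 : Nat.ble (Nat.succ (m1 R T a b j)) (Nat.sub R (T 0)) with _ | _
    · rfl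
    · have h1 := Nat.le_of_ble_eq_true hg1
      refine hsm_false H L hT hH hM hg hN hx h1 ?_ ha hb
      have h2 : (R + T a * T b) / (R - T a) ≤ m1 R T a b j := by
        unfold m1
        rw [mx2_eq]
        exact le_max_right _ _
      have h3 : 0 < R - T a := by
        have h4 := H.tR a han
        rw [← hT a han] at h4
        have : ((T a + 1 : ℕ) : ℤ) ≤ R := by
          push_cast
          exact h4
        have : T a + 1 ≤ R := by exact_mod_cast this
        omega
      have h4 : R + T a * T b < (R - T a) * ((R + T a * T b) / (R - T a) + 1) :=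
        Nat.lt_mul_div_succ _ h3
      have h5 := Nat.mul_le_mul_left (R - T a) (Nat.succ_le_succ h2)
      simp only [Nat.succ_eq_add_one] at h5
      rw [mul_comm (m1 R T a b j + 1)]
      omega
  unfold ndT
  rw [frt_false H L hT hH hM hg hN]
  rw [key 0 1 2 2 (by omega) (by omega) (fun y hy hyx => hT0 1 y (by omega) hy)
    (fun y hy hyx hya => hT0 2 y (by omega) hy)]
  rw [key 1 0 2 2 (by omega) (by omega) (fun y hy hyx => hT0 0 y (by omega) hy)
    (fun y hy hyx hya => hT0 2 y (by omega) hy)]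
  rw [key 0 1 2 3 (by omega) (by omega) (fun y hy hyx => hT0 1 y (by omega) hy)
    (fun y hy hyx hya => hT0 2 y (by omega) hy)]
  rw [key 1 0 2 3 (by omega) (by omega) (fun y hy hyx => hT0 0 y (by omega) hy)
    (fun y hy hyx hya => hT0 2 y (by omega) hy)]
  rfl

end Node

section Search

variable {ι : Type*} {R n : ℕ} {t s h e : ℕ → ℤ} {E : ℕ → ℕ → ℤ} {U : Finset ι} {ho : ι → ℕ}
  {vl : ι → ℤ} {kp ms mr mn : ℕ → ι → ℤ} {mu Nb : ℕ → ℤ} {Nx : ℕ → ℕ → ℤ} {be : ℕ → ℕ → ℤ}
  {ls : ℕ → ℤ → ℤ} {pc ar : ι → ℤ} {aT : ℕ → ℤ} {NN FF pw : ℕ → ℕ → ℤ} {nu : ℕ → ι → ℤ}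
  {T Hn Mn : ℕ → ℕ}

lemma up_eq (f : ℕ → ℕ) (i a j b z : ℕ) :
    up f i a j b z = if z = i then f z + a else if z = j then f z + b else f z := by
  unfold up
  rcases hi : Nat.beq z i with _ | _
  · have h1 : z ≠ i := fun h2 => by
      rw [h2, Nat.beq_refl] at hi
      exact absurd hi (by simp)
    rw [if_neg h1]
    rcases hj : Nat.beq z j with _ | _
    · have h2 : z ≠ j := fun h2 => by
        rw [h2, Nat.beq_refl] at hj
        exact absurd hj (by simp)
      rw [if_neg h2]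
    · rw [if_pos (Nat.eq_of_beq_eq_true hj)]
      rfl
  · rw [if_pos (Nat.eq_of_beq_eq_true hi)]
    rfl

lemma dn_eq (f : ℕ → ℕ) (i a j b z : ℕ) :
    dn f i a j b z = if z = i then f z - a else if z = j then f z - b else f z := by
  unfold dn
  rcases hi : Nat.beq z i with _ | _
  · have h1 : z ≠ i := fun h2 => by
      rw [h2, Nat.beq_refl] at hi
      exact absurd hi (by simp)
    rw [if_neg h1]
    rcases hj : Nat.beq z j with _ | _
    · have h2 : z ≠ j := fun h2 => by
        rw [h2, Nat.beq_refl] at hj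
        exact absurd hj (by simp)
      rw [if_neg h2]
    · rw [if_pos (Nat.eq_of_beq_eq_true hj)]
      rfl
  · rw [if_pos (Nat.eq_of_beq_eq_true hi)]
    rfl

lemma st2_eq (P : ℕ → ℕ → ℕ) {i j : ℕ} (hij : i ≠ j) (a b x z : ℕ) :
    st2 P i j a b x z
      = if x = i ∧ z = j then a else if x = j ∧ z = i then b else P x z := by
  have beq_f : ∀ u v : ℕ, u ≠ v → Nat.beq u v = false := by
    intro u v huv
    rcases h : Nat.beq u v with _ | _
    · rfl
    · exact absurd (Nat.eq_of_beq_eq_true h) huv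
  unfold st2
  by_cases h1 : x = i
  · subst h1
    have h2 : ¬ x = j := hij
    rw [Nat.beq_refl]
    dsimp only
    by_cases h3 : z = j
    · subst h3
      rw [Nat.beq_refl, if_pos ⟨rfl, rfl⟩]
    · rw [beq_f z j h3, if_neg (fun h4 => h3 h4.2), if_neg (fun h4 => h2 h4.1)]
  · rw [beq_f x i h1, if_neg (fun h4 => h1 h4.1)]
    dsimp only
    by_cases h3 : x = j
    · subst h3
      rw [Nat.beq_refl]
      dsimp only
      by_cases h4 : z = i
      · subst h4
        rw [Nat.beq_refl, if_pos ⟨rfl, rfl⟩]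
      · rw [beq_f z i h4, if_neg (fun h5 => h4 h5.2)]
    · rw [beq_f x j h3, if_neg (fun h5 => h3 h5.1)]

/-- the sum over the cells of `z` -/
def rs (g : ℕ → ℕ → ℕ) (cs : List (ℕ × ℕ)) (z : ℕ) : ℕ :=
  (cs.map fun c => if c.1 = z then g z c.2 else if c.2 = z then g z c.1 else 0).sum

lemma rs_nil (g : ℕ → ℕ → ℕ) (z : ℕ) : rs g [] z = 0 := rfl

lemma rs_cons (g : ℕ → ℕ → ℕ) (c : ℕ × ℕ) (cs : List (ℕ × ℕ)) (z : ℕ) :
    rs g (c :: cs) z = (if c.1 = z then g z c.2 else if c.2 = z then g z c.1 else 0) + rs g cs z := by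
  unfold rs
  rw [List.map_cons, List.sum_cons]

/-- the state belongs to the rest `cs` of the cells -/
structure Inv (R n : ℕ) (T Mn : ℕ → ℕ) (be : ℕ → ℕ → ℤ) (cs : List (ℕ × ℕ)) (eN o q rm : ℕ → ℕ)
    (P W : ℕ → ℕ → ℕ) : Prop where
  nd : cs.Nodup
  lt : ∀ c ∈ cs, c.1 < c.2 ∧ c.2 < n
  i1 : ∀ z < n, ∑ y ∈ (range n).erase z, nb R (T z * T y) (bn be z y) (bn be y z)
    ≤ eN z + rs (fun z y => nb R (T z * T y) (bn be z y) (bn be y z)) cs z
  i2 : ∀ z < n, o z + rs (bn be) cs z ≤ Mn z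
  i3 : ∀ z < n, rs (fun z y => nmC R (T z * T y)) cs z ≤ rm z
  i4 : ∀ x < n, ∀ z < n, x ≠ z → ((x, z) ∉ cs ∧ (z, x) ∉ cs) ∧ P x z = bn be x z ∧
    W x z = wC R T x z (bn be x z) (bn be z x) ∨
    ¬ ((x, z) ∉ cs ∧ (z, x) ∉ cs) ∧ P x z = 0 ∧ W x z = 0
  i5 : ∀ z < n, q z ≤ ∑ y ∈ (range n).erase z, P y z

lemma rs_le {g g' : ℕ → ℕ → ℕ} {cs : List (ℕ × ℕ)} (hlt : ∀ c ∈ cs, c.1 < c.2 ∧ c.2 < n)
    (hg : ∀ x < n, ∀ z < n, x ≠ z → g x z ≤ g' x z) {z : ℕ} (hz : z < n) :
    rs g cs z ≤ rs g' cs z := by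
  induction cs with
  | nil => exact le_rfl
  | cons c cs ih =>
    obtain ⟨h1, h2⟩ := hlt c List.mem_cons_self
    rw [rs_cons, rs_cons]
    refine add_le_add ?_ (ih fun c hc => hlt c (List.mem_cons_of_mem _ hc))
    split_ifs with h3 h4
    · exact hg z hz c.2 h2 (by omega)
    · exact hg z hz c.1 (by omega) (by omega)
    · exact le_rfl

lemma rs_mul {g : ℕ → ℕ → ℕ} {cs : List (ℕ × ℕ)} (k z : ℕ) :
    rs (fun x y => g x y * k) cs z = rs g cs z * k := by
  induction cs with
  | nil => rw [rs_nil, rs_nil, zero_mul]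
  | cons c cs ih =>
    rw [rs_cons, rs_cons, ih, add_mul]
    congr 1
    split_ifs <;> simp

/-- the node of a state -/
lemma Inv.node (H : ItC (R : ℤ) n t s h e E U ho vl kp ms mr mu Nb Nx be ls pc ar aT NN FF pw nu)
    (hT : ∀ i < n, (T i : ℤ) = t i) (hg : T 0 * T 1 + 10 ≤ 2 * R) {cs : List (ℕ × ℕ)}
    {eN o q rm : ℕ → ℕ} {P W : ℕ → ℕ → ℕ} (hI : Inv R n T Mn be cs eN o q rm P W) :
    NodeF R n T Hn Mn be (eng Mn (fun z => bsN (Mn z) (Hn z))
      (fun z => maxo z z (fun y => kmC R (Nat.mul (T z) (T y))) n) eN o rm) q P W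
      (fun x z => (x, z) ∉ cs ∧ (z, x) ∉ cs) := by
  refine ⟨fun z hz => ?_, hI.i4, hI.i5⟩
  unfold eng
  show _ ≤ bsN (Mn z) (Hn z) + (eN z + mn2 (rm z)
    ((Mn z - o z) * maxo z z (fun y => kmC R (Nat.mul (T z) (T y))) n))
  rw [mn2_eq]
  have h1 := hI.i1 z hz
  have h2 : rs (fun z y => nb R (T z * T y) (bn be z y) (bn be y z)) cs z ≤ rm z :=
    (rs_le hI.lt (fun x hx z hz hxz => nb_le_nm (cell H hT hg hx hz hxz)) hz).trans (hI.i3 z hz)
  have h3 : rs (fun z y => nb R (T z * T y) (bn be z y) (bn be y z)) cs z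
      ≤ (Mn z - o z) * maxo z z (fun y => kmC R (Nat.mul (T z) (T y))) n := by
    have h4 : rs (fun z y => nb R (T z * T y) (bn be z y) (bn be y z)) cs z
        ≤ rs (fun x y => bn be x y * kmC R (T x * T y)) cs z :=
      rs_le hI.lt (fun x hx z hz hxz => nb_le_km (cell H hT hg hx hz hxz)) hz
    have h5 : rs (fun x y => bn be x y * kmC R (T x * T y)) cs z
        ≤ rs (fun x y => bn be x y * maxo z z (fun y => kmC R (Nat.mul (T z) (T y))) n) cs z := by
      clear h1 h2 h4
      have hlt := hI.lt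
      clear hI
      induction cs with
      | nil => exact le_rfl
      | cons c cs ih =>
        obtain ⟨h1, h2⟩ := hlt c List.mem_cons_self
        rw [rs_cons, rs_cons]
        refine add_le_add ?_ (ih fun c hc => hlt c (List.mem_cons_of_mem _ hc))
        split_ifs with h3 h4
        · exact Nat.mul_le_mul_left _
            (maxo_ge z z (fun y => kmC R (Nat.mul (T z) (T y))) n c.2 h2 (by omega) (by omega))
        · exact Nat.mul_le_mul_left _
            (maxo_ge z z (fun y => kmC R (Nat.mul (T z) (T y))) n c.1 (by omega) (by omega)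
              (by omega))
        · exact le_rfl
    rw [rs_mul] at h5
    refine h4.trans (h5.trans (Nat.mul_le_mul_right _ ?_))
    have := hI.i2 z hz
    omega
  have h4 := le_min h2 h3
  omega

lemma wC_symm (i j a b : ℕ) : wC R T i j a b = wC R T j i b a := by
  have e1 : wC R T i j a b = nb R (T i * T j) a b + nb R (T i * T j) b a
    + (a * (R - T j) + b * (R - T i)) - (a + b) * (a + b + 1) / 2 := rfl
  have e2 : wC R T j i b a = nb R (T j * T i) b a + nb R (T j * T i) a b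
    + (b * (R - T i) + a * (R - T j)) - (b + a) * (b + a + 1) / 2 := rfl
  rw [e1, e2, mul_comm (T j) (T i), add_comm b a, add_comm (nb R (T i * T j) b a),
    add_comm (b * (R - T i))]

/-- **the next state** -/
lemma Inv.step {c : ℕ × ℕ} {cs : List (ℕ × ℕ)} {eN o q rm : ℕ → ℕ} {P W : ℕ → ℕ → ℕ}
    (hI : Inv R n T Mn be (c :: cs) eN o q rm P W) {a b : ℕ} (ha : a = bn be c.1 c.2)
    (hb : b = bn be c.2 c.1) :
    Inv R n T Mn be cs
      (up eN c.1 (nb R (Nat.mul (T c.1) (T c.2)) a b) c.2 (nb R (Nat.mul (T c.1) (T c.2)) b a))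
      (up o c.1 a c.2 b) (up q c.1 b c.2 a)
      (dn rm c.1 (nmC R (Nat.mul (T c.1) (T c.2))) c.2 (nmC R (Nat.mul (T c.1) (T c.2))))
      (st2 P c.1 c.2 a b) (st2 W c.1 c.2 (wC R T c.1 c.2 a b) (wC R T c.1 c.2 a b)) := by
  obtain ⟨hc1, hc2⟩ := hI.lt c List.mem_cons_self
  have hcn : c ∉ cs := (List.nodup_cons.1 hI.nd).1
  have hlt : ∀ c' ∈ cs, c'.1 < c'.2 ∧ c'.2 < n := fun c' hc' => hI.lt c' (List.mem_cons_of_mem _ hc')
  have hne : c.1 ≠ c.2 := by omega
  have m1 : Nat.mul (T c.1) (T c.2) = T c.1 * T c.2 := rfl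
  have hPc := hI.i4 c.1 (by omega) c.2 hc2 hne
  have hPc' := hI.i4 c.2 hc2 c.1 (by omega) hne.symm
  have hP1 : P c.1 c.2 = 0 := by
    rcases hPc with ⟨⟨h1, -⟩, -⟩ | ⟨-, h1, -⟩
    · exact absurd List.mem_cons_self h1
    · exact h1
  have hP2 : P c.2 c.1 = 0 := by
    rcases hPc' with ⟨⟨-, h1⟩, -⟩ | ⟨-, h1, -⟩
    · exact absurd List.mem_cons_self h1
    · exact h1
  refine ⟨(List.nodup_cons.1 hI.nd).2, hlt, fun z hz => ?_, fun z hz => ?_, fun z hz => ?_,
    fun x hx z hz hxz => ?_, fun z hz => ?_⟩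
  · have h1 := hI.i1 z hz
    rw [rs_cons] at h1
    rw [up_eq, m1]
    by_cases h2 : z = c.1
    · subst h2
      rw [if_pos rfl] at h1 ⊢
      rw [ha, hb]
      omega
    · rw [if_neg (fun h3 => h2 h3.symm)] at h1
      rw [if_neg h2]
      by_cases h3 : z = c.2
      · subst h3
        rw [if_pos rfl] at h1 ⊢
        rw [mul_comm (T c.2)] at h1
        rw [ha, hb]
        omega
      · rw [if_neg (fun h4 => h3 h4.symm)] at h1
        rw [if_neg h3]
        omega
  · have h1 := hI.i2 z hz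
    rw [rs_cons] at h1
    rw [up_eq]
    by_cases h2 : z = c.1
    · subst h2
      rw [if_pos rfl] at h1 ⊢
      omega
    · rw [if_neg (fun h3 => h2 h3.symm)] at h1
      rw [if_neg h2]
      by_cases h3 : z = c.2
      · subst h3
        rw [if_pos rfl] at h1 ⊢
        omega
      · rw [if_neg (fun h4 => h3 h4.symm)] at h1
        rw [if_neg h3]
        omega
  · have h1 := hI.i3 z hz
    rw [rs_cons] at h1
    rw [dn_eq, m1]
    by_cases h2 : z = c.1
    · subst h2
      rw [if_pos rfl] at h1 ⊢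
      omega
    · rw [if_neg (fun h3 => h2 h3.symm)] at h1
      rw [if_neg h2]
      by_cases h3 : z = c.2
      · subst h3
        rw [if_pos rfl] at h1 ⊢
        rw [mul_comm (T c.2)] at h1
        omega
      · rw [if_neg (fun h4 => h3 h4.symm)] at h1
        rw [if_neg h3]
        omega
  · rw [st2_eq P hne, st2_eq W hne]
    by_cases h1 : x = c.1 ∧ z = c.2
    · obtain ⟨rfl, rfl⟩ := h1
      left
      refine ⟨⟨hcn, fun h2 => ?_⟩, ?_, ?_⟩
      · have := (hlt _ h2).1
        dsimp only at this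
        omega
      · rw [if_pos ⟨rfl, rfl⟩, ha]
      · rw [if_pos ⟨rfl, rfl⟩, ha, hb]
    · rw [if_neg h1, if_neg h1]
      by_cases h2 : x = c.2 ∧ z = c.1
      · obtain ⟨rfl, rfl⟩ := h2
        left
        refine ⟨⟨fun h2 => ?_, hcn⟩, ?_, ?_⟩
        · have := (hlt _ h2).1
          dsimp only at this
          omega
        · rw [if_pos ⟨rfl, rfl⟩, hb]
        · rw [if_pos ⟨rfl, rfl⟩, ha, hb, wC_symm]
      · rw [if_neg h2, if_neg h2]
        have h3 : (x, z) ∈ c :: cs ↔ (x, z) ∈ cs := by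
          rw [List.mem_cons]
          constructor
          · rintro (h4 | h4)
            · exact absurd ⟨congrArg Prod.fst h4, congrArg Prod.snd h4⟩ h1
            · exact h4
          · exact Or.inr
        have h4 : (z, x) ∈ c :: cs ↔ (z, x) ∈ cs := by
          rw [List.mem_cons]
          constructor
          · rintro (h5 | h5)
            · exact absurd ⟨congrArg Prod.snd h5, congrArg Prod.fst h5⟩ h2
            · exact h5
          · exact Or.inr
        have h5 := hI.i4 x hx z hz hxz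
        rw [h3, h4] at h5
        exact h5
  · have h1 := hI.i5 z hz
    have h2 : ∑ y ∈ (range n).erase z, st2 P c.1 c.2 a b y z
        = ∑ y ∈ (range n).erase z, P y z + (if z = c.1 then b else if z = c.2 then a else 0) := by
      by_cases h3 : z = c.1
      · rw [if_pos h3]
        have h4 : c.2 ∈ (range n).erase z := mem_erase.2 ⟨by omega, mem_range.2 hc2⟩
        rw [← add_sum_erase _ _ h4, ← add_sum_erase _ (fun y => P y z) h4, st2_eq P hne,
          if_neg (fun h5 => hne h5.1.symm), if_pos ⟨rfl, h3⟩, h3, hP2, zero_add, add_comm b]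
        congr 1
        refine sum_congr rfl fun y hy => ?_
        have h5 := ne_of_mem_erase hy
        rw [st2_eq P hne, if_neg (fun h6 => hne h6.2), if_neg (fun h6 => h5 h6.1)]
      · rw [if_neg h3]
        by_cases h5 : z = c.2
        · rw [if_pos h5]
          have h4 : c.1 ∈ (range n).erase z := mem_erase.2 ⟨by omega, mem_range.2 (by omega)⟩
          rw [← add_sum_erase _ _ h4, ← add_sum_erase _ (fun y => P y z) h4, st2_eq P hne,
            if_pos ⟨rfl, h5⟩, h5, hP1, zero_add, add_comm a]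
          congr 1
          refine sum_congr rfl fun y hy => ?_
          have h6 := ne_of_mem_erase hy
          rw [st2_eq P hne, if_neg (fun h7 => h6 h7.1), if_neg (fun h7 => hne h7.2.symm)]
        · rw [if_neg h5, add_zero]
          refine sum_congr rfl fun y hy => ?_
          rw [st2_eq P hne, if_neg (fun h6 => h5 h6.2), if_neg (fun h6 => h3 h6.2)]
    rw [h2, up_eq]
    by_cases h3 : z = c.1
    · rw [if_pos h3, if_pos h3]
      omega
    · rw [if_neg h3, if_neg h3]
      by_cases h4 : z = c.2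
      · rw [if_pos h4, if_pos h4]
        omega
      · rw [if_neg h4, if_neg h4]
        omega

/-- **the search fails** -/
theorem dfs_false (H : ItC (R : ℤ) n t s h e E U ho vl kp ms mr mu Nb Nx be ls pc ar aT NN FF pw nu)
    (L : LvI (R : ℤ) n t s h e U ho vl kp ms mr mn mu be pc ar)
    (hT : ∀ i < n, (T i : ℤ) = t i) (hH : ∀ i < n, (Hn i : ℤ) = h i)
    (hM : ∀ i < n, (Mn i : ℤ) = mu i) (hg : T 0 * T 1 + 10 ≤ 2 * R) :
    ∀ (cs : List (ℕ × ℕ)) (eN o q rm : ℕ → ℕ) (P W : ℕ → ℕ → ℕ),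
      Inv R n T Mn be cs eN o q rm P W →
      dfs R n T Hn Mn (fun z => bsN (Mn z) (Hn z))
        (fun z => maxo z z (fun y => kmC R (Nat.mul (T z) (T y))) n) cs eN o q rm P W = false := by
  intro cs
  induction cs with
  | nil =>
    intro eN o q rm P W hI
    exact ndT_false H L hT hH hM hg (hI.node H hT hg)
  | cons c cs ih =>
    intro eN o q rm P W hI
    rcases hr : dfs R n T Hn Mn (fun z => bsN (Mn z) (Hn z))
        (fun z => maxo z z (fun y => kmC R (Nat.mul (T z) (T y))) n) (c :: cs) eN o q rm P W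
      with _ | _
    · rfl
    exfalso
    set go : ℕ → ℕ → Bool := fun a b => dfs R n T Hn Mn (fun z => bsN (Mn z) (Hn z))
        (fun z => maxo z z (fun y => kmC R (Nat.mul (T z) (T y))) n) cs
        (up eN c.1 (nb R (Nat.mul (T c.1) (T c.2)) a b) c.2 (nb R (Nat.mul (T c.1) (T c.2)) b a))
        (up o c.1 a c.2 b) (up q c.1 b c.2 a)
        (dn rm c.1 (nmC R (Nat.mul (T c.1) (T c.2))) c.2 (nmC R (Nat.mul (T c.1) (T c.2))))
        (st2 P c.1 c.2 a b) (st2 W c.1 c.2 (wC R T c.1 c.2 a b) (wC R T c.1 c.2 a b)) with hgo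
    have h1 : ite3 (ndT R n T Hn Mn (eng Mn (fun z => bsN (Mn z) (Hn z))
        (fun z => maxo z z (fun y => kmC R (Nat.mul (T z) (T y))) n) eN o rm) q P W) true
        (ite3 (go 0 0) (ite3 (ite3 (Nat.ble (Mn c.1) (o c.1)) true (go 1 0))
            (ite3 (ite3 (Nat.ble (Mn c.2) (o c.2)) true (go 0 1))
              (ite3 (Nat.ble R (Nat.add (Nat.mul (T c.1) (T c.2)) 4))
                (ite3 (ite3 (Nat.ble (Mn c.1) (Nat.succ (o c.1))) true (go 2 0))
                  (ite3 (ite3 (Nat.ble (Mn c.2) (Nat.succ (o c.2))) true (go 0 2))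
                    (ite3 (Nat.ble (Mn c.1) (o c.1)) true
                      (ite3 (Nat.ble (Mn c.2) (o c.2)) true (go 1 1))) false) false)
                true) false) false) false) = true := hr
    rw [ndT_false H L hT hH hM hg (hI.node H hT hg)] at h1
    obtain ⟨hc1, hc2⟩ := hI.lt c List.mem_cons_self
    have hne : c.1 ≠ c.2 := by omega
    have hcell := (cell H hT hg (show c.1 < n by omega) hc2 hne)
    have hfin : go (bn be c.1 c.2) (bn be c.2 c.1) = false :=
      ih _ _ _ _ _ _ (hI.step rfl rfl)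
    have ho1 := hI.i2 c.1 (by omega)
    have ho2 := hI.i2 c.2 hc2
    rw [rs_cons, if_pos rfl] at ho1
    rw [rs_cons, if_neg hne, if_pos rfl] at ho2
    have bf : ∀ {u v : ℕ}, v < u → Nat.ble u v = false := by
      intro u v huv
      rcases hh : Nat.ble u v with _ | _
      · rfl
      · exact absurd (Nat.le_of_ble_eq_true hh) (by omega)
    have key : ∀ {p r : Bool}, ite3 p r false = true → p = true ∧ r = true := by
      intro p r hpr
      rcases ite3_true hpr with h2 | ⟨-, h2⟩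
      · exact h2
      · exact absurd h2 (by simp)
    have h2 : ite3 (go 0 0) (ite3 (ite3 (Nat.ble (Mn c.1) (o c.1)) true (go 1 0))
            (ite3 (ite3 (Nat.ble (Mn c.2) (o c.2)) true (go 0 1))
              (ite3 (Nat.ble R (Nat.add (Nat.mul (T c.1) (T c.2)) 4))
                (ite3 (ite3 (Nat.ble (Mn c.1) (Nat.succ (o c.1))) true (go 2 0))
                  (ite3 (ite3 (Nat.ble (Mn c.2) (Nat.succ (o c.2))) true (go 0 2))
                    (ite3 (Nat.ble (Mn c.1) (o c.1)) true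
                      (ite3 (Nat.ble (Mn c.2) (o c.2)) true (go 1 1))) false) false)
                true) false) false) false = true := h1
    obtain ⟨g00, h2⟩ := key h2
    obtain ⟨g10, h2⟩ := key h2
    obtain ⟨g01, h2⟩ := key h2
    have two : R ≤ T c.1 * T c.2 + 4 →
        ite3 (Nat.ble (Mn c.1) (Nat.succ (o c.1))) true (go 2 0) = true ∧
        ite3 (Nat.ble (Mn c.2) (Nat.succ (o c.2))) true (go 0 2) = true ∧
        ite3 (Nat.ble (Mn c.1) (o c.1)) true
          (ite3 (Nat.ble (Mn c.2) (o c.2)) true (go 1 1)) = true := by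
      intro h3
      have h4 : Nat.ble R (Nat.add (Nat.mul (T c.1) (T c.2)) 4) = true := Nat.ble_eq_true_of_le h3
      rw [h4] at h2
      obtain ⟨g1, h5⟩ := key (show ite3 (ite3 (Nat.ble (Mn c.1) (Nat.succ (o c.1))) true (go 2 0))
        (ite3 (ite3 (Nat.ble (Mn c.2) (Nat.succ (o c.2))) true (go 0 2))
          (ite3 (Nat.ble (Mn c.1) (o c.1)) true
            (ite3 (Nat.ble (Mn c.2) (o c.2)) true (go 1 1))) false) false = true from h2)
      obtain ⟨g2, g3⟩ := key h5
      exact ⟨g1, g2, g3⟩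
    rcases hcell.cases with h3 | ⟨h3, h4⟩ | ⟨h3, h4, h5⟩ | ⟨h3, h4, h5⟩
    · rcases hcell.symm.cases with h4 | ⟨h4, -⟩ | ⟨h4, h5, -⟩ | ⟨h4, -, h5⟩
      · rw [h3, h4, g00] at hfin
        exact absurd hfin (by simp)
      · rw [h3, h4] at hfin
        rw [bf (show o c.2 < Mn c.2 by omega)] at g01
        have g : go 0 1 = true := g01
        rw [g] at hfin
        exact absurd hfin (by simp)
      · omega
      · rw [h3, h4] at hfin
        obtain ⟨-, g2, -⟩ := two h5
        rw [bf (show Nat.succ (o c.2) < Mn c.2 by omega)] at g2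
        have g : go 0 2 = true := g2
        rw [g] at hfin
        exact absurd hfin (by simp)
    · rw [h3, h4] at hfin
      rw [bf (show o c.1 < Mn c.1 by omega)] at g10
      have g : go 1 0 = true := g10
      rw [g] at hfin
      exact absurd hfin (by simp)
    · rw [h3, h4] at hfin
      obtain ⟨-, -, g3⟩ := two h5
      rw [bf (show o c.1 < Mn c.1 by omega)] at g3
      have g3' : ite3 (Nat.ble (Mn c.2) (o c.2)) true (go 1 1) = true := g3
      rw [bf (show o c.2 < Mn c.2 by omega)] at g3'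
      have g : go 1 1 = true := g3'
      rw [g] at hfin
      exact absurd hfin (by simp)
    · rw [h3, h4] at hfin
      obtain ⟨g1, -, -⟩ := two h5
      rw [bf (show Nat.succ (o c.1) < Mn c.1 by omega)] at g1
      have g : go 2 0 = true := g1
      rw [g] at hfin
      exact absurd hfin (by simp)

/-- the cells of `i` -/
def prs1 (n i : ℕ) : List (ℕ × ℕ) := ((List.range n).filter fun j => decide (i < j)).map fun j => (i, j)

/-- **all cells** -/
def prs (n : ℕ) : List (ℕ × ℕ) := (List.range n).flatMap (prs1 n)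

lemma mem_prs {n : ℕ} {c : ℕ × ℕ} : c ∈ prs n ↔ c.1 < c.2 ∧ c.2 < n := by
  unfold prs prs1
  rw [List.mem_flatMap]
  constructor
  · rintro ⟨i, hi, hc⟩
    obtain ⟨j, hj, rfl⟩ := List.mem_map.1 hc
    obtain ⟨h1, h2⟩ := List.mem_filter.1 hj
    exact ⟨by simpa using h2, List.mem_range.1 h1⟩
  · rintro ⟨h1, h2⟩
    refine ⟨c.1, List.mem_range.2 (by omega), List.mem_map.2 ⟨c.2, List.mem_filter.2
      ⟨List.mem_range.2 h2, by simpa using h1⟩, rfl⟩⟩

lemma nodup_prs (n : ℕ) : (prs n).Nodup := by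
  unfold prs
  rw [List.nodup_flatMap]
  constructor
  · intro i _
    unfold prs1
    refine List.Nodup.map (fun a b hab => congrArg Prod.snd hab) (List.nodup_range.filter _)
  · refine List.Pairwise.imp_of_mem (fun {a b} _ _ hab => ?_) List.nodup_range
    rw [Function.onFun, List.disjoint_left]
    intro c hc hc'
    unfold prs1 at hc hc'
    obtain ⟨j, -, rfl⟩ := List.mem_map.1 hc
    obtain ⟨j', -, h1⟩ := List.mem_map.1 hc'
    exact hab (congrArg Prod.fst h1).symm

lemma rs_append (g : ℕ → ℕ → ℕ) (l l' : List (ℕ × ℕ)) (z : ℕ) :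
    rs g (l ++ l') z = rs g l z + rs g l' z := by
  unfold rs
  rw [List.map_append, List.sum_append]

/-- the sum over all cells of a row -/
lemma rs_prs (g : ℕ → ℕ → ℕ) {n z : ℕ} (hz : z < n) :
    rs g (prs n) z = ∑ y ∈ (range n).erase z, g z y := by
  have h1 : ∀ l : List ℕ, rs g (l.flatMap (prs1 n)) z = (l.map fun i => rs g (prs1 n i) z).sum := by
    intro l
    induction l with
    | nil => rfl
    | cons i l ih => rw [List.flatMap_cons, rs_append, ih, List.map_cons, List.sum_cons]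
  have h2 : ∀ i, rs g (prs1 n i) z
      = ∑ j ∈ range n, if i < j then (if i = z then g z j else if j = z then g z i else 0) else 0 := by
    intro i
    unfold rs prs1
    rw [List.map_map, ← sum_filter]
    have e1 : (range n).filter (fun j => i < j)
        = ((List.range n).filter fun j => decide (i < j)).toFinset := by
      ext j
      simp
    rw [e1, List.sum_toFinset _ (List.nodup_range.filter _)]
    rfl
  unfold prs
  rw [h1]
  have h3 : ((List.range n).map fun i => rs g (prs1 n i) z).sum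
      = ∑ i ∈ range n, rs g (prs1 n i) z := by
    have e1 : range n = (List.range n).toFinset := by
      ext j
      simp
    rw [e1, List.sum_toFinset _ List.nodup_range]
  rw [h3]
  simp only [h2]
  rw [← add_sum_erase _ _ (mem_range.2 hz)]
  have h4 : ∀ i ∈ (range n).erase z,
      (∑ j ∈ range n, if i < j then (if i = z then g z j else if j = z then g z i else 0) else 0)
        = if i < z then g z i else 0 := by
    intro i hi
    have hiz := ne_of_mem_erase hi
    have h5 : ∀ j ∈ range n, (if i < j then (if i = z then g z j else if j = z then g z i else 0)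
        else 0) = if j = z then (if i < z then g z i else 0) else 0 := by
      intro j _
      rw [if_neg hiz]
      by_cases h6 : j = z
      · rw [if_pos h6, if_pos h6, h6]
      · rw [if_neg h6, if_neg h6]
        split_ifs <;> rfl
    rw [sum_congr rfl h5, sum_ite_eq' (range n) z, if_pos (mem_range.2 hz)]
  rw [sum_congr rfl h4]
  have h5 : (∑ j ∈ range n, if z < j then (if z = z then g z j else if j = z then g z z else 0) else 0)
      = ∑ j ∈ (range n).erase z, if z < j then g z j else 0 := by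
    rw [← add_sum_erase _ _ (mem_range.2 hz), if_neg (lt_irrefl z), zero_add]
    exact sum_congr rfl fun j _ => by rw [if_pos rfl]
  rw [h5, ← sum_add_distrib]
  refine sum_congr rfl fun y hy => ?_
  have hyz := ne_of_mem_erase hy
  rcases lt_or_gt_of_ne hyz with h6 | h6
  · rw [if_neg (by omega), if_pos h6, zero_add]
  · rw [if_pos h6, if_neg (by omega), add_zero]

/-- the first state -/
lemma Inv.init (H : ItC (R : ℤ) n t s h e E U ho vl kp ms mr mu Nb Nx be ls pc ar aT NN FF pw nu)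
    (hM : ∀ i < n, (Mn i : ℤ) = mu i) :
    Inv R n T Mn be (prs n) (fun _ => 0) (fun _ => 0) (fun _ => 0)
      (fun z => sumo z (fun y => nmC R (Nat.mul (T z) (T y))) n) (fun _ _ => 0)
      (fun _ _ => 0) := by
  refine ⟨nodup_prs n, fun c hc => mem_prs.1 hc, fun z hz => ?_, fun z hz => ?_, fun z hz => ?_,
    fun x hx z hz hxz => ?_, fun z _ => Nat.zero_le _⟩
  · rw [rs_prs _ hz, zero_add]
  · rw [rs_prs _ hz, zero_add]
    have h1 := H.bem z hz
    have h2 : ((∑ y ∈ (range n).erase z, bn be z y : ℕ) : ℤ) ≤ Mn z := by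
      rw [Nat.cast_sum, hM z hz]
      refine le_trans (le_of_eq (sum_congr rfl fun y hy => ?_)) h1
      exact bn_cast H hz (mem_range.1 (mem_of_mem_erase hy))
    exact_mod_cast h2
  · rw [rs_prs _ hz, sumo_eq]
    rfl
  · right
    refine ⟨fun h1 => ?_, rfl, rfl⟩
    rcases lt_or_gt_of_ne hxz with h2 | h2
    · exact h1.1 (mem_prs.2 ⟨h2, hz⟩)
    · exact h1.2 (mem_prs.2 ⟨h2, hx⟩)

lemma gt_map {α β : Type} (d : ℕ) (f : β → ℕ) (x : α → β) : ∀ (l : List α) (i : ℕ) (hi : i < l.length),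
    gt d f (l.map x) i = f (x l[i]) := by
  intro l
  induction l with
  | nil =>
    intro i hi
    simp at hi
  | cons a l ih =>
    intro i hi
    cases i with
    | zero => rfl
    | succ i =>
      have h1 : gt d f ((a :: l).map x) (i + 1) = gt d f (l.map x) i := rfl
      rw [h1, ih i (by simpa using hi)]
      rfl

lemma gt_range {β : Type} (d : ℕ) (f : β → ℕ) (x : ℕ → β) {n i : ℕ} (hi : i < n) :
    gt d f ((List.range n).map x) i = f (x i) := by
  rw [gt_map d f x _ i (by simpa using hi)]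
  simp

end Search

end PatT

/-- **the leaf**: `cs` the list of the cells -/
theorem leafC_patT {R n : ℕ} {cs : List (ℕ × ℕ)} (hcs : cs = PatT.prs n) :
    LeafC (R : ℤ) n (PatT.patT R n cs) := by
  intro ι t s h e E U ho vl kp ms mr mn mu Nb Nx be ls pc ar aT NN FF pw nu H L x hx hl
  have hn := H.n5
  have hT : ∀ i < n, (PatT.gt 0 (fun a : ℕ × ℕ × ℕ => a.1) ((List.range n).map x) i : ℤ) = t i :=
    fun i hi => by
      rw [PatT.gt_range 0 _ x hi]
      exact (hx i hi).1
  have hH : ∀ i < n, (PatT.gt 0 (fun a : ℕ × ℕ × ℕ => a.2.1) ((List.range n).map x) i : ℤ) = h i :=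
    fun i hi => by
      rw [PatT.gt_range 0 _ x hi]
      exact (hx i hi).2.1
  have hM : ∀ i < n, (PatT.gt 0 (fun a : ℕ × ℕ × ℕ => a.2.2) ((List.range n).map x) i : ℤ) = mu i :=
    fun i hi => by
      rw [PatT.gt_range 0 _ x hi]
      exact (hx i hi).2.2
  unfold PatT.patT at hl
  rw [hcs] at hl
  rcases PatT.ite3_true hl with ⟨h1, h2⟩ | ⟨-, h2⟩
  · have h3 := PatT.dfs_false H L hT hH hM (Nat.le_of_ble_eq_true h1) (PatT.prs n) _ _ _ _ _ _
      (PatT.Inv.init H hM)
    have h4 := h3.symm.trans h2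
    exact absurd h4 (by simp)
  · exact absurd h2 (by simp)

end Pool.Agent.Lib.MP_f04ccf_co
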