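import Pool.Agent.Lib.MP_f04ccf_co.M.FinF
import Pool.Agent.Lib.MP_f04ccf_co.M.FinL
import Pool.Agent.Lib.MP_f04ccf_co.M.PatT

/-!
MP_f04ccf_co, PLAN W, finite part: the leaf `PatT.patT` with the literal list of the cells, alone and
together with the loads checker.
-/

set_option autoImplicit false

namespace Pool.Agent.Lib.MP_f04ccf_co

open Finset

attribute [local instance] Classical.propDecidable

namespace FinK

/-- the cells of 5 rows -/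
def cs5 : List (ℕ × ℕ) :=
  [(0, 1), (0, 2), (0, 3), (0, 4), (1, 2), (1, 3), (1, 4), (2, 3), (2, 4), (3, 4)]

lemma cs5_eq : cs5 = PatT.prs 5 := by decide +kernel

/-- the cells of 6 rows -/
def cs6 : List (ℕ × ℕ) :=
  [(0, 1), (0, 2), (0, 3), (0, 4), (0, 5), (1, 2), (1, 3), (1, 4), (1, 5), (2, 3), (2, 4),
    (2, 5), (3, 4), (3, 5), (4, 5)]

lemma cs6_eq : cs6 = PatT.prs 6 := by decide +kernel

/-- the cells of 7 rows -/
def cs7 : List (ℕ × ℕ) :=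
  [(0, 1), (0, 2), (0, 3), (0, 4), (0, 5), (0, 6), (1, 2), (1, 3), (1, 4), (1, 5), (1, 6),
    (2, 3), (2, 4), (2, 5), (2, 6), (3, 4), (3, 5), (3, 6), (4, 5), (4, 6), (5, 6)]

lemma cs7_eq : cs7 = PatT.prs 7 := by decide +kernel

/-- the cells of 8 rows -/
def cs8 : List (ℕ × ℕ) :=
  [(0, 1), (0, 2), (0, 3), (0, 4), (0, 5), (0, 6), (0, 7), (1, 2), (1, 3), (1, 4), (1, 5),
    (1, 6), (1, 7), (2, 3), (2, 4), (2, 5), (2, 6), (2, 7), (3, 4), (3, 5), (3, 6), (3, 7),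
    (4, 5), (4, 6), (4, 7), (5, 6), (5, 7), (6, 7)]

lemma cs8_eq : cs8 = PatT.prs 8 := by decide +kernel

/-- the cells of 9 rows -/
def cs9 : List (ℕ × ℕ) :=
  [(0, 1), (0, 2), (0, 3), (0, 4), (0, 5), (0, 6), (0, 7), (0, 8), (1, 2), (1, 3), (1, 4),
    (1, 5), (1, 6), (1, 7), (1, 8), (2, 3), (2, 4), (2, 5), (2, 6), (2, 7), (2, 8), (3, 4),
    (3, 5), (3, 6), (3, 7), (3, 8), (4, 5), (4, 6), (4, 7), (4, 8), (5, 6), (5, 7), (5, 8),
    (6, 7), (6, 8), (7, 8)]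

lemma cs9_eq : cs9 = PatT.prs 9 := by decide +kernel

/-- the cells of 10 rows -/
def cs10 : List (ℕ × ℕ) :=
  [(0, 1), (0, 2), (0, 3), (0, 4), (0, 5), (0, 6), (0, 7), (0, 8), (0, 9), (1, 2), (1, 3),
    (1, 4), (1, 5), (1, 6), (1, 7), (1, 8), (1, 9), (2, 3), (2, 4), (2, 5), (2, 6), (2, 7),
    (2, 8), (2, 9), (3, 4), (3, 5), (3, 6), (3, 7), (3, 8), (3, 9), (4, 5), (4, 6), (4, 7),
    (4, 8), (4, 9), (5, 6), (5, 7), (5, 8), (5, 9), (6, 7), (6, 8), (6, 9), (7, 8), (7, 9),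
    (8, 9)]

lemma cs10_eq : cs10 = PatT.prs 10 := by decide +kernel

/-- the cells of 11 rows -/
def cs11 : List (ℕ × ℕ) :=
  [(0, 1), (0, 2), (0, 3), (0, 4), (0, 5), (0, 6), (0, 7), (0, 8), (0, 9), (0, 10), (1, 2),
    (1, 3), (1, 4), (1, 5), (1, 6), (1, 7), (1, 8), (1, 9), (1, 10), (2, 3), (2, 4), (2, 5),
    (2, 6), (2, 7), (2, 8), (2, 9), (2, 10), (3, 4), (3, 5), (3, 6), (3, 7), (3, 8), (3, 9),
    (3, 10), (4, 5), (4, 6), (4, 7), (4, 8), (4, 9), (4, 10), (5, 6), (5, 7), (5, 8), (5, 9),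
    (5, 10), (6, 7), (6, 8), (6, 9), (6, 10), (7, 8), (7, 9), (7, 10), (8, 9), (8, 10),
    (9, 10)]

lemma cs11_eq : cs11 = PatT.prs 11 := by decide +kernel

end FinK

/-- **the pattern search**: all worlds pass -/
theorem NoItC.of_pat {R K n : ℕ} {cs : List (ℕ × ℕ)} (hcs : cs = PatT.prs n)
    (h : PartC (R : ℤ) K n (PatT.patT R n cs)) : NoItC (R : ℤ) K n := h.noItC (leafC_patT hcs)

/-- **the pattern search or the loads** -/
theorem NoItC.of_pl {R K n : ℕ} {cs : List (ℕ × ℕ)} (hR : 10 ≤ R) (hcs : cs = PatT.prs n)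
    (h : PartC (R : ℤ) K n fun l => PatT.patT R n cs l || Kern.ldL R l) : NoItC (R : ℤ) K n :=
  h.noItC ((leafC_patT hcs).or (leafC_ld hR))

end Pool.Agent.Lib.MP_f04ccf_co
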