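import Pool.Agent.Lib.MP_f04ccf_co.M.LeT
import Pool.Agent.Lib.MP_f04ccf_co.M.FinE

/-!
MP_f04ccf_co, PLAN W, finite part: **the loads checker, second form, as a leaf of the enumeration**.
`ItC.ldT2`: if `Le.ldT R n rows = true` then there are no items of version [C] with levels whose rows
`(t, h, mu)` are `rows` (any `R ≥ 2`, `n ≥ 5`); `leafC_ld4`.
-/

set_option autoImplicit false

namespace Pool.Agent.Lib.MP_f04ccf_co

open Finset

attribute [local instance] Classical.propDecidable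

namespace Le

open Ld

/-- the square root is not too large -/
lemma isq_le (v : ℕ) : isq v ^ 2 ≤ v := by
  have key : ∀ f r : ℕ, r ^ 2 ≤ v → isqF v f r ^ 2 ≤ v := by
    intro f
    induction f with
    | zero =>
      intro r h
      exact h
    | succ f ih =>
      intro r h
      have h0 : isqF v (f + 1) r = Bool.rec (motive := fun _ => ℕ) r (isqF v f (Nat.succ r))
        (Nat.ble (Nat.mul (Nat.succ r) (Nat.succ r)) v) := rfl
      rw [h0]
      rcases h1 : Nat.ble (Nat.mul (Nat.succ r) (Nat.succ r)) v with _ | _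
      · exact h
      · refine ih (Nat.succ r) ?_
        have h2 : (r + 1) * (r + 1) ≤ v := Nat.le_of_ble_eq_true h1
        show (r + 1) ^ 2 ≤ v
        nlinarith
  exact key v 0 (by simp)

/-- the raw rows -/
noncomputable def mkL {δ : Type} (R : ℕ) : List (ℕ × ℕ × ℕ × δ) → ℕ → List Rw
  | [], _ => []
  | a :: l, k => ⟨k, a.1, a.2.1, a.2.2.1,
      Nat.sub (Nat.mul 2 (Nat.mul a.2.2.1 a.2.1)) (Nat.mul a.2.2.1 (Nat.succ a.2.2.1)),
      Nat.sub R a.1, Nat.sub (Nat.sub R a.1) (thr R a.1 (mkL R l (k + 1))),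
      thr R a.1 (mkL R l (k + 1))⟩ :: mkL R l (k + 1)

lemma raw_spec {δ : Type} (R : ℕ) (l : List (ℕ × ℕ × ℕ × δ)) :
    ∀ (k : ℕ) (cont : List Rw → Bool), raw R l k cont = cont (mkL R l k) := by
  induction l with
  | nil =>
    intro k cont
    rfl
  | cons a l ih =>
    intro k cont
    have h0 : raw R (a :: l) k cont = raw R l (Nat.succ k) fun T =>
      Ld.frc (Nat.sub (Nat.mul 2 (Nat.mul a.2.2.1 a.2.1))
      (Nat.mul a.2.2.1 (Nat.succ a.2.2.1))) fun B =>
      Ld.frc (Nat.sub R a.1) fun c => Ld.frc (thr R a.1 T) fun m => Ld.frc (Nat.sub c m) fun g =>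
      cont (⟨k, a.1, a.2.1, a.2.2.1, B, c, g, m⟩ :: T) := rfl
    rw [h0, ih, frc_eq, frc_eq, frc_eq, frc_eq]
    rfl

/-- a raw row is right -/
def Rok {δ : Type} (R : ℕ) (a : ℕ × ℕ × ℕ × δ) (y : Rw) : Prop :=
  y.t = a.1 ∧ y.h = a.2.1 ∧ y.mu = a.2.2.1 ∧
    y.B = 2 * (a.2.2.1 * a.2.1) - a.2.2.1 * (a.2.2.1 + 1) ∧ y.c = R - a.1 ∧ y.g = R - a.1 - y.q

lemma mkL_spec {δ : Type} (R : ℕ) (x : ℕ → ℕ × ℕ × ℕ × δ) : ∀ n k : ℕ, ∃ r : ℕ → Rw,
    mkL R ((List.range' k n).map x) k = (List.range' k n).map r ∧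
      ∀ j, k ≤ j → j < k + n → (r j).i = j ∧ Rok R (x j) (r j) := by
  intro n
  induction n with
  | zero =>
    intro k
    exact ⟨fun _ => ⟨0, 0, 0, 0, 0, 0, 0, 0⟩, rfl, fun j h1 h2 => by omega⟩
  | succ n ih =>
    intro k
    obtain ⟨r, h1, h2⟩ := ih (k + 1)
    have h0 : List.range' k (n + 1) = k :: List.range' (k + 1) n := rfl
    obtain ⟨y, hy⟩ : ∃ y : Rw, y = ⟨k, (x k).1, (x k).2.1, (x k).2.2.1,
      Nat.sub (Nat.mul 2 (Nat.mul (x k).2.2.1 (x k).2.1))
        (Nat.mul (x k).2.2.1 (Nat.succ (x k).2.2.1)),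
      Nat.sub R (x k).1,
      Nat.sub (Nat.sub R (x k).1) (thr R (x k).1 (mkL R ((List.range' (k + 1) n).map x) (k + 1))),
      thr R (x k).1 (mkL R ((List.range' (k + 1) n).map x) (k + 1))⟩ := ⟨_, rfl⟩
    refine ⟨fun j => if j = k then y else r j, ?_, fun j h3 h4 => ?_⟩
    · rw [h0, List.map_cons, List.map_cons, if_pos rfl]
      have h5 : mkL R (x k :: (List.range' (k + 1) n).map x) k
          = y :: mkL R ((List.range' (k + 1) n).map x) (k + 1) := by
        rw [hy]
        rfl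
      rw [h5, h1]
      congr 1
      refine List.map_congr_left fun j hj => ?_
      have h6 : j ≠ k := by
        have := (List.mem_range'_1.1 hj).1
        omega
      rw [if_neg h6]
    · by_cases h5 : j = k
      · subst h5
        simp only [if_true]
        rw [hy]
        exact ⟨rfl, rfl, rfl, rfl, rfl, rfl, rfl⟩
      · simp only [if_neg h5]
        exact h2 j (by omega) (by omega)

lemma lany_false {α : Type*} {f : α → Bool} {L : List α} (h : lany f L = false) :
    ∀ a ∈ L, f a = false := by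
  induction L with
  | nil =>
    intro a ha
    exact absurd ha (by simp)
  | cons b L ih =>
    have h0 : lany f (b :: L) = Bool.rec (motive := fun _ => Bool) (lany f L) true (f b) := rfl
    rw [h0] at h
    rcases h1 : f b with _ | _
    · rw [h1] at h
      intro a ha
      rcases List.mem_cons.1 ha with rfl | h2
      · exact h1
      · exact ih h a h2
    · rw [h1] at h
      exact absurd h (by simp)

lemma okM_spec {R : ℕ} {L : List Rw} (h : okM R L = false) :
    L.Pairwise fun x z => okP R x z = false := by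
  induction L with
  | nil => exact List.Pairwise.nil
  | cons a L ih =>
    have h0 : okM R (a :: L) = Bool.rec (motive := fun _ => Bool) (okM R L) true
      (lany (okP R a) L) := rfl
    rw [h0] at h
    rcases h1 : lany (okP R a) L with _ | _
    · rw [h1] at h
      exact List.Pairwise.cons (fun z hz => lany_false h1 z hz) (ih h)
    · rw [h1] at h
      exact absurd h (by simp)

lemma okP_spec {R : ℕ} {x z : Rw} (h : okP R x z = false) :
    x.t * z.t + 10 ≤ 2 * R ∧ R + x.t * z.t + 1 ≤ (x.q + 1) * (z.q + 1) ∧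
      (R ≤ x.t * z.t + 4 →
        x.t * z.t + 5 ≤ R + isq (x.t * z.t + 1) * (isq (x.t * z.t + 1) - 1)) := by
  unfold okP at h
  rw [frc_eq] at h
  rcases h1 : Nat.ble (Nat.add (Nat.mul x.t z.t) 10) (Nat.mul 2 R) with _ | _
  · rw [h1] at h
    exact absurd h (by simp)
  rw [h1] at h
  rcases h2 : Nat.ble (Nat.succ (Nat.add R (Nat.mul x.t z.t))) (Nat.mul (Nat.succ x.q)
    (Nat.succ z.q)) with _ | _
  · rw [h2] at h
    exact absurd h (by simp)
  rw [h2] at h
  refine ⟨Nat.le_of_ble_eq_true h1, Nat.le_of_ble_eq_true h2, fun h3 => ?_⟩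
  have h4 : Nat.ble R (Nat.add (Nat.mul x.t z.t) 4) = true := Nat.ble_eq_true_of_le h3
  rw [h4] at h
  rw [frc_eq] at h
  rcases h5 : Nat.ble (Nat.add (Nat.mul x.t z.t) 5) (Nat.add R (Nat.mul
    (isq (Nat.succ (Nat.mul x.t z.t))) (Nat.pred (isq (Nat.succ (Nat.mul x.t z.t)))))) with _ | _
  · rw [h5] at h
    exact absurd h (by simp)
  · exact Nat.le_of_ble_eq_true h5

end Le

section Final

variable {ι δ : Type} {R n : ℕ} {t s h e : ℕ → ℤ} {E : ℕ → ℕ → ℤ} {U : Finset ι}
  {ho : ι → ℕ} {vl : ι → ℤ} {kp ms mr mn : ℕ → ι → ℤ} {mu Nb : ℕ → ℤ} {Nx : ℕ → ℕ → ℤ}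
  {be : ℕ → ℕ → ℤ} {ls : ℕ → ℤ → ℤ} {pc ar : ι → ℤ} {aT : ℕ → ℤ} {NN FF pw : ℕ → ℕ → ℤ}
  {nu : ℕ → ι → ℤ}

/-- **the kernel test of the loads, second form, is sound** -/
theorem ItC.ldT2 (H : ItC (R : ℤ) n t s h e E U ho vl kp ms mr mu Nb Nx be ls pc ar aT NN FF pw nu)
    (L : LvI (R : ℤ) n t s h e U ho vl kp ms mr mn mu be pc ar) (hR : 2 ≤ R) (n5 : 5 ≤ n)
    {x : ℕ → ℕ × ℕ × ℕ × δ} (hx : ∀ i < n, ((x i).1 : ℤ) = t i ∧ ((x i).2.1 : ℤ) = h i ∧
      ((x i).2.2.1 : ℤ) = mu i) (hT : Le.ldT R n ((List.range n).map x) = true) : False := by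
  unfold Le.ldT at hT
  rw [List.range_eq_range', Le.raw_spec] at hT
  obtain ⟨r, hr1, hr2⟩ := Le.mkL_spec R x n 0
  rw [hr1] at hT
  have hr : ∀ j < n, (r j).i = j ∧ Le.Rok R (x j) (r j) := fun j hj =>
    hr2 j (Nat.zero_le _) (by omega)
  rw [← List.range_eq_range'] at hT
  rcases h1 : Le.okM R ((List.range n).map r) with _ | _
  swap
  · rw [h1] at hT
    exact absurd hT (by simp)
  rw [h1] at hT
  have hpw := Le.okM_spec h1
  rw [List.pairwise_map] at hpw
  have hok : ∀ i < n, ∀ j < n, i ≠ j →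
      (r i).t * (r j).t + 10 ≤ 2 * R ∧ R + (r i).t * (r j).t + 1 ≤ ((r i).q + 1) * ((r j).q + 1) ∧
      (R ≤ (r i).t * (r j).t + 4 → (r i).t * (r j).t + 5
        ≤ R + Ld.isq ((r i).t * (r j).t + 1) * (Ld.isq ((r i).t * (r j).t + 1) - 1)) := by
    have key : ∀ i < n, ∀ j < n, i < j → Le.okP R (r i) (r j) = false := by
      intro i hi j hj hij
      have h2 := List.pairwise_iff_getElem.1 hpw i j (by simpa using hi) (by simpa using hj) hij
      simpa using h2
    intro i hi j hj hij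
    rcases lt_or_gt_of_ne hij with h2 | h2
    · exact Le.okP_spec (key i hi j hj h2)
    · have h3 := Le.okP_spec (key j hj i hi h2)
      rw [Nat.mul_comm (r i).t, Nat.mul_comm ((r i).q + 1)]
      exact h3
  set m : ℕ → ℤ := fun j => ((r j).q : ℤ) with hm
  have hm0 : ∀ i < n, 0 ≤ m i := fun i _ => Int.natCast_nonneg _
  have ht : ∀ i < n, ((r i).t : ℤ) = t i := fun i hi => by
    rw [(hr i hi).2.1]
    exact (hx i hi).1
  have hC := H.ldc2 L (m := m)
    (fun i hi j hj' hij => by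
      have h2 := (hok i hi j hj' hij).1
      rw [← ht i hi, ← ht j hj']
      have h3 : ((r i).t : ℤ) * (r j).t + 10 ≤ 2 * R := by exact_mod_cast h2
      linarith)
    (fun i hi j hj' hij h2 a ha h3 => by
      rw [← ht i hi, ← ht j hj'] at h2 h3 ⊢
      have h4 : R ≤ (r i).t * (r j).t + 4 := by exact_mod_cast h2
      have h5 := (hok i hi j hj' hij).2.2 h4
      obtain ⟨b, rfl⟩ := Int.eq_ofNat_of_zero_le ha
      have h6 : (r i).t * (r j).t + 1 < (b + 1) ^ 2 := by exact_mod_cast h3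
      set v := Ld.isq ((r i).t * (r j).t + 1) with hv
      have h7 : v ≤ b := by
        by_contra h8
        push Not at h8
        have h9 : v ^ 2 ≤ (r i).t * (r j).t + 1 := by
          rw [hv]
          exact Le.isq_le _
        nlinarith
      have h8 : v * (v - 1) ≤ b * (b - 1) := Nat.mul_le_mul h7 (by omega)
      have h9 : (r i).t * (r j).t + 5 ≤ R + b * (b - 1) := by omega
      rcases Nat.eq_zero_or_pos b with h10 | h10
      · rw [h10] at h9 ⊢
        have h11 : (((r i).t * (r j).t + 5 : ℕ) : ℤ) ≤ R := by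
          simpa using (Int.ofNat_le.2 h9)
        push_cast at h11 ⊢
        linarith
      · have h11 : ((b - 1 : ℕ) : ℤ) = b - 1 := by
          rw [Nat.cast_sub h10]
          norm_num
        have h12 : (((r i).t * (r j).t + 5 : ℕ) : ℤ) ≤ ((R + b * (b - 1) : ℕ) : ℤ) := by
          exact_mod_cast h9
        push_cast [h11] at h12
        push_cast
        linarith)
    (fun i hi j hj' hij k _ hk => H.jsub i hi j hj' hij k hk) hm0
    (fun i hi j hj' hij => by
      have h2 := (hok i hi j hj' hij).2.1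
      rw [← ht i hi, ← ht j hj', hm]
      have h3 : (R : ℤ) + (r i).t * (r j).t + 1 ≤ ((r i).q + 1) * ((r j).q + 1) := by
        exact_mod_cast h2
      linarith)
  refine Le.top_sound (r := r) (L := (List.range n).map r) ⟨⟨hC, hR, hm0, List.Perm.refl _,
    fun j hj' => (hr j hj').1, ht, fun j hj' => ?_, fun j hj' => ?_, ?_, ?_, ?_⟩,
    H.ldx L n5, n5⟩ hT
  · rw [(hr j hj').2.2.1]
    exact (hx j hj').2.1
  · rw [(hr j hj').2.2.2.1]
    exact (hx j hj').2.2
  · intro j hj'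
    obtain ⟨h2, h3, h4⟩ := hx j hj'
    have h5 := H.muh j hj'
    rw [← h3, ← h4] at h5 ⊢
    have h6 : (x j).2.2.1 ≤ (x j).2.1 := by exact_mod_cast h5
    rw [(hr j hj').2.2.2.2.1]
    have h7 : (x j).2.2.1 * ((x j).2.2.1 + 1) ≤ 2 * ((x j).2.2.1 * (x j).2.1) := by
      rcases Nat.eq_zero_or_pos (x j).2.2.1 with h8 | h8
      · rw [h8]
        simp
      · nlinarith
    rw [Nat.cast_sub h7]
    push_cast
    ring
  · intro j hj'
    obtain ⟨h2, h3, h4⟩ := hx j hj'
    have h5 := H.tR j hj'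
    rw [← h2] at h5 ⊢
    have h6 : (x j).1 ≤ R := by omega
    rw [(hr j hj').2.2.2.2.2.1, Nat.cast_sub h6]
  · intro j hj'
    obtain ⟨h2, h3, h4⟩ := hx j hj'
    have h5 := H.tR j hj'
    have h6 := (hr j hj').2.2.2.2.2.2
    rw [← h2] at h5 ⊢
    rw [h6, hm]
    show ((R - (x j).1 - (r j).q : ℕ) : ℤ) = max 0 ((R : ℤ) - (x j).1 - ((r j).q : ℤ))
    omega

end Final

/-- the loads checker, second form, on rows `(t, h, mu)` -/
noncomputable def Le.ld4 (R n : ℕ) (l : List (ℕ × ℕ × ℕ)) : Bool :=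
  Le.ldT R n (l.map fun a => (a.1, a.2.1, a.2.2, ()))

/-- **the loads checker, second form, is a leaf** -/
theorem leafC_ld4 {R n : ℕ} (hR : 2 ≤ R) (n5 : 5 ≤ n) : LeafC (R : ℤ) n (Le.ld4 R n) := by
  intro ι t s h e E U ho vl kp ms mr mn mu Nb Nx be ls pc ar aT NN FF pw nu H L x hx hT
  refine H.ldT2 L hR n5 (x := fun i => ((x i).1, (x i).2.1, (x i).2.2, ())) hx ?_
  unfold Le.ld4 at hT
  rw [List.map_map] at hT
  exact hT

end Pool.Agent.Lib.MP_f04ccf_co
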