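import Pool.Agent.Lib.MP_f04ccf_co.M.FinF
import Pool.Agent.Lib.MP_f04ccf_co.M.LeL

/-!
MP_f04ccf_co, PLAN W, finite part: the loads checker `Le.ld4` as the leaf of the enumeration.
-/

set_option autoImplicit false

namespace Pool.Agent.Lib.MP_f04ccf_co

/-- **the loads checker**: all worlds pass -/
theorem NoItC.of_l4 {R K n : ℕ} (hR : 2 ≤ R) (n5 : 5 ≤ n) (h : PartC (R : ℤ) K n (Le.ld4 R n)) :
    NoItC (R : ℤ) K n := h.noItC (leafC_ld4 hR n5)

end Pool.Agent.Lib.MP_f04ccf_co
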