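import Pool.Agent.Lib.MP_f04ccf_co.M.PatT

/-!
MP_f04ccf_co, PLAN W, finite part: **the leaf `patX R n cs rows`** = `PatT.patT` with four additions:
(ec) the energy with the saving of Turan (the field `enT`: host items without a PC pair) in every node; (tur) the saving of Turan in the row test (`LvI.rowTt`); (prt) the value of a home is at most the number
of its PC pairs plus `n - 1` per other part; (fu) a host `x` has at most `2 (h - mu)` plain ends at one row.
`false_of_patX` for one world, `leafC_patX : LeafC R n (patX R n cs)`.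
-/

set_option autoImplicit false

namespace Pool.Agent.Lib.MP_f04ccf_co

open Finset

attribute [local instance] Classical.propDecidable

namespace LvI

open Lv CapM

variable {ι : Type*} {R : ℤ} {n : ℕ} {t s h e : ℕ → ℤ} {U : Finset ι} {ho : ι → ℕ} {vl : ι → ℤ}
  {kp ms mr mn : ℕ → ι → ℤ} {mu : ℕ → ℤ} {be : ℕ → ℕ → ℤ} {pc ar : ι → ℤ}

/-- the row test is true for few ends, with the saving -/
lemma fewt {R s t e k H q N : ℤ} (h1 : 0 ≤ t + s + 1) (h2 : t + 1 ≤ R) (he : 0 ≤ e) (hk : 0 ≤ k)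
    (hs : s + k < 0) (hH : H ≤ k * (R - t)) (hq : 0 ≤ q) (hqk : 5 * q ≤ 2 * k) (hN : 0 ≤ N) :
    2 * R * s + 2 * H ≤ 2 * e + 4 * k * (s + 1) + 2 * k * (2 * k - 1) - 4 * q * k + N * (q * (q + 1)) := by
  have hkt : k ≤ t := by linarith
  have h3 : R * s + k * (R - t) + (R + k ^ 2 - k) ≤ 2 * k * (s + 1) + k * (2 * k - 1) := by
    rcases le_or_gt (2 * k) R with h4 | h4
    · nlinarith [mul_nonneg (sub_nonneg.2 h4) (show 0 ≤ -s - k - 1 by linarith),
        mul_nonneg hk (show 0 ≤ t - k by linarith)]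
    · nlinarith [mul_nonneg (show 0 ≤ 2 * k - R by linarith) h1,
        mul_nonneg (show 0 ≤ R - k by linarith) (show 0 ≤ t - k by linarith)]
  have h5 : 2 * q * k ≤ R + k ^ 2 - k := by
    have h6 := mul_le_mul_of_nonneg_right hqk hk
    nlinarith [mul_nonneg hk hk]
  have h7 : 0 ≤ N * (q * (q + 1)) := mul_nonneg hN (mul_nonneg hq (by linarith))
  linarith

/-- **the row test for ends with the saving** -/
theorem tEt (H : LvI R n t s h e U ho vl kp ms mr mn mu be pc ar)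
    (m0 : ∀ u ∈ U, ∀ i < n, 0 ≤ ms i u) {i : ℕ} (hi : i < n) {K : Finset (ι × ℕ)}
    (hK : K ⊆ ens U ho kp i) {q : ℤ} (h0 : 0 ≤ s i + K.card) (hqk : 5 * q ≤ 2 * K.card) :
    2 * R * s i + 2 * ∑ x ∈ K, (R - t i - bm kp mn i x)
      ≤ 2 * e i + 4 * K.card * (s i + 1) + 2 * K.card * (2 * K.card - 1) - 4 * q * K.card
        + n * (q * (q + 1)) := by
  have hmn : ∀ u ∈ U, 0 ≤ mn i u := fun u hu => (m0 u hu i hi).trans (H.msn u hu i hi)
  have h1 := H.rlv i hi (its K) (its_sub hK) (its_ho hK) (lev K) (fun u hu => lev_pos hu)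
    (fun u hu => lev_le hK hu) q
  have h2 := hits_le hmn (R - t i) hK
  have hP : ∑ u ∈ its K, ((lev K u : ℤ) + 1) ≤ 2 * K.card := by
    rw [← card_eq K, mul_sum]
    exact sum_le_sum fun u hu => by
      have : (1 : ℤ) ≤ lev K u := by exact_mod_cast lev_pos hu
      linarith
  have hP0 : (K.card : ℤ) ≤ ∑ u ∈ its K, ((lev K u : ℤ) + 1) := by
    rw [← card_eq K]
    exact sum_le_sum fun u hu => by linarith
  set P := ∑ u ∈ its K, ((lev K u : ℤ) + 1)
  set k : ℤ := (K.card : ℤ)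
  nlinarith [mul_nonneg (sub_nonneg.2 hP) (show 0 ≤ 2 * s i + 2 + P + 2 * k - 1 - 2 * q by linarith)]

/-- **the row test for plain ends of one host**, with `Q` ends of PC pairs in front and the saving -/
theorem rowTt (L : LvI R n t s h e U ho vl kp ms mr mn mu be pc ar)
    (m0 : ∀ u ∈ U, ∀ i < n, 0 ≤ ms i u)
    (hmk : ∀ u ∈ U, ∀ i < n, mr i u ≤ kp i u * (R - t i)) (hkh : ∀ u ∈ U, kp (ho u) u = 0)
    (hp : ∀ u ∈ U, pc u = 0 ∨ pc u = 1) {pd : ι → ℤ}
    (hpd : ∀ u ∈ U, pd u = 0 ∨ pd u = 1 ∧ pc u = 1) {x z : ℕ} (hz : z < n) (hzx : z ≠ x) {Q : ℕ}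
    (hh : h z = t z + s z + 1) (h0 : 0 ≤ h z) (tR : t z + 1 ≤ R) (e0 : 0 ≤ e z)
    (hQ : (Q : ℤ) ≤ ∑ u ∈ U, (if ho u = x then pd u else pc u) * kp z u)
    {K : Finset (ι × ℕ)} (hK : K ⊆ plE U ho kp pd x z) {q : ℤ} (hq : 0 ≤ q)
    (hqk : 5 * q ≤ 2 * (K.card + Q)) :
    2 * R * s z + 2 * (Q * (R - t z) + ∑ a ∈ K, (R - t z - bm kp mn z a))
      ≤ 2 * e z + 4 * (K.card + Q) * (s z + 1) + 2 * (K.card + Q) * (2 * (K.card + Q) - 1)
        - 4 * q * (K.card + Q) + n * (q * (q + 1)) := by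
  set PE := (U.filter fun u => (if ho u = x then pd u else pc u) = 1 ∧ kp z u = 1).image
    fun u => (u, 0) with hPE
  have hpcd : ∀ u ∈ U, (if ho u = x then pd u else pc u) = 0 ∨
      (if ho u = x then pd u else pc u) = 1 ∧ pc u = 1 := by
    intro u hu
    split_ifs
    · exact hpd u hu
    · rcases hp u hu with h1 | h1
      · exact Or.inl h1
      · exact Or.inr ⟨h1, h1⟩
  have hPc : (PE.card : ℤ) = ∑ u ∈ U, (if ho u = x then pd u else pc u) * kp z u := by
    rw [hPE, card_image_of_injective _ (fun a b hab => (Prod.ext_iff.1 hab).1),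
      card_eq_sum_ones, sum_filter]
    push_cast
    refine sum_congr rfl fun u hu => ?_
    rcases hpcd u hu with h1 | ⟨h1, h1'⟩
    · rw [h1]
      norm_num
    · rcases (L.pc_data m0 hmk hu h1' hz).2 with h2 | h2 <;> rw [h1, h2] <;> norm_num
  have hqc : Q ≤ PE.card := by
    have h1 : (Q : ℤ) ≤ PE.card := by linarith
    exact_mod_cast h1
  obtain ⟨K', hK', hKq⟩ := exists_subset_card_eq hqc
  have hd : Disjoint K K' := by
    rw [disjoint_left]
    intro a ha ha'
    obtain ⟨u, hu, rfl⟩ := mem_image.1 (hK' ha')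
    obtain ⟨-, h1, h2, -⟩ := mem_plE.1 (hK ha)
    have h3 := (mem_filter.1 hu).2.1
    dsimp only at h1 h2
    rw [if_pos h1, h2] at h3
    norm_num at h3
  have hKK : K ∪ K' ⊆ ens U ho kp z := by
    refine union_subset (hK.trans (plE_sub hzx)) fun a ha => ?_
    obtain ⟨u, hu, rfl⟩ := mem_image.1 (hK' ha)
    obtain ⟨hu1, hu2, hu3⟩ := mem_filter.1 hu
    refine mem_ens.2 ⟨hu1, fun h1 => ?_, by norm_num, by dsimp only; rw [hu3]; norm_num⟩
    have h2 := hkh u hu1
    dsimp only at h1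
    rw [h1, hu3] at h2
    norm_num at h2
  have hcd : ((K ∪ K').card : ℤ) = K.card + Q := by
    rw [card_union_of_disjoint hd, hKq]
    push_cast
    rfl
  have h2 : ∑ a ∈ K', (R - t z - bm kp mn z a) = Q * (R - t z) := by
    rw [← hKq, ← nsmul_eq_mul, ← sum_const]
    refine sum_congr rfl fun a ha => ?_
    obtain ⟨u, hu, rfl⟩ := mem_image.1 (hK' ha)
    obtain ⟨hu1, hu2, hu3⟩ := mem_filter.1 hu
    have hpu : pc u = 1 := by
      rcases hpcd u hu1 with h4 | h4
      · rw [h4] at hu2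
        norm_num at hu2
      · exact h4.2
    unfold bm
    rw [if_pos (by dsimp only; rw [hu3]; norm_num)]
    dsimp only
    rw [(L.pc_data m0 hmk hu1 hpu hz).1]
    ring
  by_cases h5 : 0 ≤ s z + ((K ∪ K').card : ℤ)
  · have h1 := L.tEt m0 hz hKK (q := q) h5 (by rw [hcd]; exact hqk)
    rw [sum_union hd, h2, hcd] at h1
    linarith
  · rw [hcd] at h5
    have hb : ∀ a ∈ K, R - t z - bm kp mn z a ≤ R - t z := by
      intro a ha
      have h6 := (mem_plE.1 (hK ha)).1
      have h7 : 0 ≤ bm kp mn z a := by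
        unfold bm
        split_ifs
        · exact (m0 _ h6 z hz).trans (L.msn _ h6 z hz)
        · exact le_rfl
      linarith
    have h6 := sum_le_sum hb
    rw [sum_const, nsmul_eq_mul] at h6
    have h7 := fewt (R := R) (s := s z) (t := t z) (e := e z) (k := (K.card : ℤ) + Q) (q := q)
      (N := n) (H := Q * (R - t z) + ∑ a ∈ K, (R - t z - bm kp mn z a)) (by rw [hh] at h0; exact h0)
      tR e0 (by positivity) (by linarith) (by linarith) hq hqk (by positivity)
    linarith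

/-- the number of ends by the row test with the saving -/
lemma nE_rowt (L : LvI R n t s h e U ho vl kp ms mr mn mu be pc ar)
    (m0 : ∀ u ∈ U, ∀ i < n, 0 ≤ ms i u)
    (hmk : ∀ u ∈ U, ∀ i < n, mr i u ≤ kp i u * (R - t i)) (hkh : ∀ u ∈ U, kp (ho u) u = 0)
    (hp : ∀ u ∈ U, pc u = 0 ∨ pc u = 1) {pd : ι → ℤ}
    (hpd : ∀ u ∈ U, pd u = 0 ∨ pd u = 1 ∧ pc u = 1) {x z : ℕ} (hz : z < n) (hzx : z ≠ x) {Q : ℕ}
    (hh : h z = t z + s z + 1) (h0 : 0 ≤ h z) (tR : t z + 1 ≤ R) (e0 : 0 ≤ e z)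
    (hQ : (Q : ℤ) ≤ ∑ u ∈ U, (if ho u = x then pd u else pc u) * kp z u) {m : ℤ} {j : ℕ}
    (hj : j ≤ nE U ho kp mn pd x z m) {q : ℤ} (hq : 0 ≤ q) (hqk : 5 * q ≤ 2 * (j + Q)) :
    2 * R * s z + 2 * (Q * (R - t z) + j * (R - t z - m))
      ≤ 2 * e z + 4 * (j + Q) * (s z + 1) + 2 * (j + Q) * (2 * (j + Q) - 1)
        - 4 * q * (j + Q) + n * (q * (q + 1)) := by
  unfold nE at hj
  obtain ⟨K, hK, hKc⟩ := exists_subset_card_eq hj
  have h1 := L.rowTt m0 hmk hkh hp hpd hz hzx hh h0 tR e0 hQ (hK.trans (filter_subset _ _)) hq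
    (by rw [hKc]; exact hqk)
  rw [hKc] at h1
  have h2 : (j : ℤ) * (R - t z - m) ≤ ∑ a ∈ K, (R - t z - bm kp mn z a) := by
    rw [← hKc, ← nsmul_eq_mul, ← sum_const]
    refine sum_le_sum fun a ha => ?_
    have := (mem_filter.1 (hK ha)).2
    linarith
  linarith

/-- the number of ends by the number of parts of the home -/
lemma nE_part (L : LvI R n t s h e U ho vl kp ms mr mn mu be pc ar)
    (hk0 : ∀ u ∈ U, ∀ i < n, 0 ≤ kp i u) (hp : ∀ u ∈ U, pc u = 0 ∨ pc u = 1) {pd : ι → ℤ}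
    (hpd : ∀ u ∈ U, pd u = 0 ∨ pd u = 1 ∧ pc u = 1) {x z : ℕ} (hx : x < n) (hz : z < n) {m : ℤ} :
    (nE U ho kp mn pd x z m : ℤ) ≤ 2 * (h x - mu x)
      + ∑ u ∈ U.filter (fun u => ho u = x), (pc u - pd u) * kp z u := by
  have h1 : nE U ho kp mn pd x z m ≤ (plE U ho kp pd x z).card := card_filter_le _ _
  have h2 : (nE U ho kp mn pd x z m : ℤ) ≤ (plE U ho kp pd x z).card := by exact_mod_cast h1
  refine h2.trans ?_
  rw [card_plE (fun u hu => hk0 u hu z hz) (fun u hu => L.k2 u hu z hz)]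
  have h3 := mul_le_mul_of_nonneg_left (L.prt x hx) (show (0 : ℤ) ≤ 2 by norm_num)
  rw [mul_sum] at h3
  have h4 : ∑ u ∈ (U.filter fun u => ho u = x).filter (fun u => pd u = 0), kp z u
      ≤ ∑ u ∈ U.filter (fun u => ho u = x), 2 * (1 - pc u)
        + ∑ u ∈ U.filter (fun u => ho u = x), (pc u - pd u) * kp z u := by
    rw [← sum_add_distrib, sum_filter]
    refine sum_le_sum fun u hu => ?_
    have hu' := (mem_filter.1 hu).1
    have h5 := L.k2 u hu' z hz
    have h6 := hk0 u hu' z hz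
    rcases hpd u hu' with h7 | ⟨h7, h8⟩
    · rw [if_pos h7, h7]
      rcases hp u hu' with h9 | h9 <;> rw [h9] <;> linarith
    · rw [h7, h8, if_neg (by norm_num)]
      norm_num
  linarith

/-- **the parts of a home**: the value is at most the number of PC pairs plus `n - 1` per other part -/
lemma prt_le (L : LvI R n t s h e U ho vl kp ms mr mn mu be pc ar)
    (hp : ∀ u ∈ U, pc u = 0 ∨ pc u = 1) {x : ℕ} (hx : x < n)
    (hmu : mu x = ∑ u ∈ U.filter (fun u => ho u = x), vl u) (hn : 1 ≤ n) :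
    mu x ≤ ∑ u ∈ U.filter (fun u => ho u = x), pc u + ((n : ℤ) - 1) * (h x - mu x) := by
  have h1 := L.prt x hx
  have hn1 : (0 : ℤ) ≤ (n : ℤ) - 1 := by
    have : (1 : ℤ) ≤ n := by exact_mod_cast hn
    linarith
  have h2 := mul_le_mul_of_nonneg_left h1 hn1
  rw [mul_sum] at h2
  have h3 : ∑ u ∈ U.filter (fun u => ho u = x), vl u ≤ ∑ u ∈ U.filter (fun u => ho u = x), pc u
      + ∑ u ∈ U.filter (fun u => ho u = x), ((n : ℤ) - 1) * (1 - pc u) := by
    rw [← sum_add_distrib]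
    refine sum_le_sum fun u hu => ?_
    have hu' := (mem_filter.1 hu).1
    have h4 := L.vln u hu'
    rcases hp u hu' with h5 | h5
    · rw [h5]
      linarith
    · rw [h5]
      rcases L.one u hu' with ⟨j, hj, h6, h7, -, -⟩ | ⟨h6, -⟩
      · rw [h7]
        norm_num
      · rw [h6] at h5
        norm_num at h5
  rw [hmu] at h2 ⊢
  linarith

end LvI


namespace PatX

open PatT

/-- the saving of Turan for `k` ends: `∑ i < 2 k, i / n` -/
noncomputable def tc (n k : ℕ) : ℕ :=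
  Nat.rec (motive := fun _ => ℕ) 0
    (fun i r => Nat.add r (Nat.add (Nat.div (Nat.mul 2 i) n) (Nat.div (Nat.succ (Nat.mul 2 i)) n))) k

/-- the number of ends with the saving: `f` fuel, `g` hits and `h` gain of one more end -/
noncomputable def kmX (n g h : ℕ) (f : ℕ) : ℕ → ℕ → ℕ → ℕ :=
  Nat.rec (motive := fun _ => ℕ → ℕ → ℕ → ℕ) (fun _ _ _ => 0)
    (fun _ ih L Q k => Bool.rec (motive := fun _ => ℕ) 0
      (Nat.succ (ih (Nat.add L (Nat.add g (Nat.add (Nat.div (Nat.mul 2 k) n)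
          (Nat.div (Nat.succ (Nat.mul 2 k)) n))))
        (Nat.add Q (Nat.add h (Nat.succ (Nat.mul 4 k)))) (Nat.succ k)))
      (Nat.ble (Nat.add L (Nat.add g (Nat.add (Nat.div (Nat.mul 2 k) n)
          (Nat.div (Nat.succ (Nat.mul 2 k)) n))))
        (Nat.add Q (Nat.add h (Nat.succ (Nat.mul 4 k)))))) f

/-- the saving of the energy: `m` items without a PC pair, `k = n - 1` -/
noncomputable def dd (m k : ℕ) : ℕ :=
  Nat.div (Nat.sub (Nat.mul 2 (Nat.mul (Nat.div m k) m))
    (Nat.mul k (Nat.mul (Nat.div m k) (Nat.succ (Nat.div m k))))) 2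

/-- the largest number of PC pairs of a cell -/
noncomputable def cmx (R τ : ℕ) : ℕ := ite3 (Nat.ble R (Nat.add τ 4)) 2 1

section World

variable (R n : ℕ) (t h mu : ℕ → ℕ)

/-- the row side without plain ends, with the saving -/
noncomputable def rLX (q : ℕ → ℕ) (z : ℕ) : ℕ := Nat.add (rL R t h q z) (tc n (q z))

/-- a row is dead by the ends of PC pairs or by the number of parts -/
noncomputable def fr1 (e q pm : ℕ → ℕ) (z : ℕ) (r : Bool) : Bool :=
  Bool.rec (motive := fun _ => Bool) true (Bool.rec (motive := fun _ => Bool) true r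
    (Nat.ble (mu z) (Nat.add (pm z) (Nat.mul (Nat.pred n) (Nat.sub (h z) (mu z))))))
    (Nat.ble (rLX R n t h q z) (rR R t h e q z))

/-- some row is dead -/
noncomputable def frt (e q pm : ℕ → ℕ) : Bool :=
  fr1 R n t h mu e q pm 0 (fr1 R n t h mu e q pm 1
    (Nat.rec (motive := fun _ => Bool) false (fun z r => fr1 R n t h mu e q pm z r) n))

/-- the value of a row for the host `x` -/
noncomputable def rowV (D p c t2 h2 hx S a1 a2 L Q k : ℕ) : ℕ :=
  Nat.add (Nat.mul D p) (Nat.add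
    (Nat.mul (Nat.pred D) (kmX n (Nat.add (Nat.sub c a2) t2) h2 (mn2 hx (Nat.div S (Nat.sub c a2)))
      L Q k))
    (kmX n (Nat.add (Nat.sub c a1) t2) h2 (mn2 hx (Nat.div S (Nat.sub c a1))) L Q k))

/-- the largest number of ends of the host `x` at one row -/
noncomputable def fue (cp : ℕ → ℕ) (x : ℕ) : ℕ :=
  mn2 (h x) (Nat.add (Nat.mul 2 (Nat.sub (h x) (mu x))) (cp x))

/-- the test of the host `x`, `m` the first threshold -/
noncomputable def hsm (e q cp : ℕ → ℕ) (P W : ℕ → ℕ → ℕ) (x a b m : ℕ) : Bool :=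
  Nat.ble (Nat.succ (sumo x (fun z => rowV n (Nat.pred n) (P x z) (Nat.sub R (t z))
    (Nat.mul 2 (t z)) (Nat.mul 2 (h z)) (fue h mu cp x)
    (Nat.sub (Nat.add (Nat.add (e x) (e z)) (kA R t h x z)) (Nat.add (kB R t h x z) (W x z)))
    m (m2 R t m a b z) (rLX R n t h q z) (rR R t h e q z) (q z)) n)) (Nat.mul (Nat.pred n) (mu x))

/-- the test of the host `x` with the parameter `j` -/
noncomputable def hst (e q cp : ℕ → ℕ) (P W : ℕ → ℕ → ℕ) (x a b j : ℕ) : Bool :=
  ite3 (Nat.ble (Nat.succ (m1 R t a b j)) (Nat.sub R (t 0)))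
    (hsm R n t h mu e q cp P W x a b (m1 R t a b j)) false

/-- the test of a node -/
noncomputable def ndT (e q pm cp : ℕ → ℕ) (P W : ℕ → ℕ → ℕ) : Bool :=
  ite3 (frt R n t h mu e q pm) true
    (ite3 (hst R n t h mu e q cp P W 0 1 2 2) true (ite3 (hst R n t h mu e q cp P W 1 0 2 2) true
    (ite3 (hst R n t h mu e q cp P W 0 1 2 3) true (hst R n t h mu e q cp P W 1 0 2 3))))

/-- the largest number of PC pairs of the host -/
noncomputable def pmx (o cp : ℕ → ℕ) (z : ℕ) : ℕ := Nat.add (o z) (cp z)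

/-- the energies -/
noncomputable def eng (bs KM eN o rm cp : ℕ → ℕ) (z : ℕ) : ℕ :=
  Nat.sub (PatT.eng mu bs KM eN o rm z)
    (dd (Nat.sub (mu z) (pmx o cp z)) (Nat.pred n))

/-- **the search over the cells** -/
noncomputable def dfs (bs KM : ℕ → ℕ) (cs : List (ℕ × ℕ)) :
    (ℕ → ℕ) → (ℕ → ℕ) → (ℕ → ℕ) → (ℕ → ℕ) → (ℕ → ℕ) → (ℕ → ℕ → ℕ) → (ℕ → ℕ → ℕ) → Bool :=
  List.rec (motive := fun _ => (ℕ → ℕ) → (ℕ → ℕ) → (ℕ → ℕ) → (ℕ → ℕ) → (ℕ → ℕ) → (ℕ → ℕ → ℕ) →
      (ℕ → ℕ → ℕ) → Bool)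
    (fun eN o q rm cp P W => ndT R n t h mu (eng n mu bs KM eN o rm cp) q (pmx o cp) cp P W)
    (fun c _ ih eN o q rm cp P W =>
      ite3 (ndT R n t h mu (eng n mu bs KM eN o rm cp) q (pmx o cp) cp P W) true
        ((fun (go : ℕ → ℕ → Bool) =>
          ite3 (go 0 0) (ite3 (ite3 (Nat.ble (mu c.1) (o c.1)) true (go 1 0))
            (ite3 (ite3 (Nat.ble (mu c.2) (o c.2)) true (go 0 1))
              (ite3 (Nat.ble R (Nat.add (Nat.mul (t c.1) (t c.2)) 4))
                (ite3 (ite3 (Nat.ble (mu c.1) (Nat.succ (o c.1))) true (go 2 0))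
                  (ite3 (ite3 (Nat.ble (mu c.2) (Nat.succ (o c.2))) true (go 0 2))
                    (ite3 (Nat.ble (mu c.1) (o c.1)) true
                      (ite3 (Nat.ble (mu c.2) (o c.2)) true (go 1 1))) false) false)
                true) false) false) false)
          (fun a b => ih
            (up eN c.1 (PatT.nb R (Nat.mul (t c.1) (t c.2)) a b) c.2
              (PatT.nb R (Nat.mul (t c.1) (t c.2)) b a))
            (up o c.1 a c.2 b) (up q c.1 b c.2 a)
            (dn rm c.1 (nmC R (Nat.mul (t c.1) (t c.2))) c.2 (nmC R (Nat.mul (t c.1) (t c.2))))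
            (dn cp c.1 (cmx R (Nat.mul (t c.1) (t c.2))) c.2 (cmx R (Nat.mul (t c.1) (t c.2))))
            (st2 P c.1 c.2 a b)
            (st2 W c.1 c.2 (wC R t c.1 c.2 a b) (wC R t c.1 c.2 a b))))) cs

end World

/-- **the leaf** -/
noncomputable def patX (R n : ℕ) (cs : List (ℕ × ℕ)) (rs : List (ℕ × ℕ × ℕ)) : Bool :=
  (fun (t h mu : ℕ → ℕ) => ite3 (Nat.ble (Nat.add (Nat.mul (t 0) (t 1)) 10) (Nat.mul 2 R))
    (dfs R n t h mu (fun z => bsN (mu z) (h z))
      (fun z => maxo z z (fun y => kmC R (Nat.mul (t z) (t y))) n) cs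
      (fun _ => 0) (fun _ => 0) (fun _ => 0)
      (fun z => sumo z (fun y => nmC R (Nat.mul (t z) (t y))) n)
      (fun z => sumo z (fun y => cmx R (Nat.mul (t z) (t y))) n) (fun _ _ => 0) (fun _ _ => 0))
    false)
  (gt 0 (fun a => a.1) rs) (gt 0 (fun a => a.2.1) rs) (gt 0 (fun a => a.2.2) rs)

/-! ### the pure functions -/

section Pure

/-- the sum of the levels -/
lemma two_sum_div {n : ℕ} (hn : 0 < n) (w : ℕ) :
    2 * ∑ i ∈ range w, i / n + n * (w / n * (w / n + 1)) = 2 * (w / n * w) := by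
  induction w with
  | zero => simp
  | succ w ih =>
    rw [sum_range_succ, Nat.succ_div]
    split_ifs with h1
    · obtain ⟨c, hc⟩ := h1
      have h2 : w / n + 1 = c := by
        have h3 : (w + 1) / n = c := by
          rw [hc, Nat.mul_div_cancel_left _ hn]
        rw [Nat.succ_div, if_pos ⟨c, hc⟩] at h3
        exact h3
      have h4 : w + 1 = n * (w / n + 1) := by rw [h2, hc]
      nlinarith
    · rw [add_zero]
      nlinarith

lemma tc_eq (n k : ℕ) : tc n k = ∑ i ∈ range (2 * k), i / n := by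
  induction k with
  | zero => rfl
  | succ k ih =>
    have h1 : tc n (k + 1) = tc n k + (2 * k / n + (2 * k + 1) / n) := rfl
    rw [h1, ih, show 2 * (k + 1) = 2 * k + 1 + 1 by ring, sum_range_succ, sum_range_succ]
    ring

lemma tc_two {n : ℕ} (hn : 0 < n) (k : ℕ) :
    2 * tc n k + n * (2 * k / n * (2 * k / n + 1)) = 4 * (2 * k / n) * k := by
  rw [tc_eq]
  have := two_sum_div hn (2 * k)
  linarith

lemma kmX_ge (n g h : ℕ) : ∀ J f L Q k, J ≤ f →
    (∀ j, 1 ≤ j → j ≤ J → L + j * g + j + tc n (k + j)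
      ≤ Q + j * h + 4 * j * k + 2 * j ^ 2 + tc n k) →
    J ≤ kmX n g h f L Q k := by
  intro J
  induction J with
  | zero =>
    intro f L Q k _ _
    exact Nat.zero_le _
  | succ J ih =>
    intro f L Q k hf hj
    obtain ⟨f, rfl⟩ : ∃ f', f = f' + 1 := ⟨f - 1, by omega⟩
    have h1 : kmX n g h (f + 1) L Q k = Bool.rec (motive := fun _ => ℕ) 0
      (Nat.succ (kmX n g h f (L + (g + (2 * k / n + (2 * k + 1) / n)))
        (Q + (h + Nat.succ (4 * k))) (Nat.succ k)))
      (Nat.ble (L + (g + (2 * k / n + (2 * k + 1) / n))) (Q + (h + Nat.succ (4 * k)))) := rfl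
    have ht : tc n (k + 1) = tc n k + (2 * k / n + (2 * k + 1) / n) := rfl
    have h2 := hj 1 le_rfl (by omega)
    rw [ht] at h2
    have h3 : Nat.ble (L + (g + (2 * k / n + (2 * k + 1) / n))) (Q + (h + Nat.succ (4 * k)))
        = true :=
      Nat.ble_eq_true_of_le (by
        simp only [one_mul, mul_one, one_pow] at h2
        omega)
    rw [h1, h3]
    refine Nat.succ_le_succ (ih f _ _ _ (by omega) fun j hj1 hj2 => ?_)
    have h4 := hj (j + 1) (by omega) (by omega)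
    have e1 : Nat.succ k + j = k + (j + 1) := by
      simp only [Nat.succ_eq_add_one]
      ring
    rw [e1]
    simp only [Nat.succ_eq_add_one]
    rw [ht]
    nlinarith

/-- the saving of the energy -/
lemma dd_le {m k : ℕ} :
    2 * (dd m k : ℤ) ≤ 2 * ((m / k : ℕ) : ℤ) * m - k * ((m / k : ℕ) * ((m / k : ℕ) + 1)) := by
  have e1 : dd m k = (2 * (m / k * m) - k * (m / k * (m / k + 1))) / 2 := rfl
  have h1 : k * (m / k * (m / k + 1)) ≤ 2 * (m / k * m) := by
    have h2 : k * (m / k) ≤ m := Nat.mul_div_le m k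
    rcases Nat.eq_zero_or_pos (m / k) with h3 | h3
    · rw [h3]
      simp
    · have h4 := Nat.mul_le_mul_right (m / k + 1) h2
      have h5 := Nat.mul_le_mul_right m (Nat.succ_le_of_lt h3)
      simp only [Nat.succ_eq_add_one, zero_add] at h5
      nlinarith
  have h2 : 2 * dd m k ≤ 2 * (m / k * m) - k * (m / k * (m / k + 1)) := by
    rw [e1]
    exact Nat.mul_div_le _ 2
  have h3 : ((2 * dd m k + k * (m / k * (m / k + 1)) : ℕ) : ℤ) ≤ ((2 * (m / k * m) : ℕ) : ℤ) := by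
    exact_mod_cast (by omega : 2 * dd m k + k * (m / k * (m / k + 1)) ≤ 2 * (m / k * m))
  push_cast at h3 ⊢
  linarith

lemma bn_le_cmx {R τ a b : ℕ} (h : Ok2 R τ a b) : a ≤ cmx R τ := by
  unfold cmx
  unfold Ok2 at h
  simp only [ite3_nat, Nat.ble_eq, Nat.add_eq]
  split_ifs with h1 <;> omega

end Pure


section Node

variable {ι : Type*} {R n : ℕ} {t s h e : ℕ → ℤ} {E : ℕ → ℕ → ℤ} {U : Finset ι} {ho : ι → ℕ}
  {vl : ι → ℤ} {kp ms mr mn : ℕ → ι → ℤ} {mu Nb : ℕ → ℤ} {Nx : ℕ → ℕ → ℤ} {be : ℕ → ℕ → ℤ}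
  {ls : ℕ → ℤ → ℤ} {pc ar : ι → ℤ} {aT : ℕ → ℤ} {NN FF pw : ℕ → ℕ → ℤ} {nu : ℕ → ι → ℤ}
  {T Hn Mn : ℕ → ℕ} {e' q pm cp : ℕ → ℕ} {P W : ℕ → ℕ → ℕ} {A : ℕ → ℕ → Prop}

/-- **the pair test with the energies** -/
lemma pairG (H : ItC (R : ℤ) n t s h e E U ho vl kp ms mr mu Nb Nx be ls pc ar aT NN FF pw nu)
    {i j : ℕ} (hi : i < n) (hj : j < n) (hij : i ≠ j) :
    ((R : ℤ) - 1) * (s i + s j)
      + (∑ u ∈ U.filter (fun u => ho u = i), (kp j u * (R - t j) - ms j u)
        + ∑ u ∈ U.filter (fun u => ho u = j), (kp i u * (R - t i) - ms i u)) + FF i j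
      ≤ e i + e j + (R + 1) + s i * s j := by
  have h3 := H.pairF i hi j hj hij
  have h4 := H.P {i, j} (by
    intro x hx
    rcases mem_insert.1 hx with h5 | h5
    · rw [h5]
      exact mem_range.2 hi
    · rw [mem_singleton.1 h5]
      exact mem_range.2 hj)
  have e1 : ({i, j} : Finset ℕ).erase i = {j} := by
    rw [erase_insert]
    simpa using hij
  have e2 : ({i, j} : Finset ℕ).erase j = {i} := by
    rw [pair_comm, erase_insert]
    simpa using hij.symm
  rw [sum_pair hij, sum_pair hij, sum_pair hij, sum_pair hij, e1, e2, sum_singleton,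
    sum_singleton, card_pair hij, H.Es j i] at h4
  push_cast at h4
  nlinarith

/-- what is known at a node: `A x z` the cell is assigned -/
structure NodeX (R n : ℕ) (T Hn Mn : ℕ → ℕ) (be : ℕ → ℕ → ℤ) (e : ℕ → ℤ) (NN : ℕ → ℕ → ℤ)
    (e' q pm cp : ℕ → ℕ) (P W : ℕ → ℕ → ℕ) (A : ℕ → ℕ → Prop) : Prop where
  ef : ∀ z < n, ∃ d : ℕ, bsN (Mn z) (Hn z)
    + ∑ y ∈ (range n).erase z, PatT.nb R (T z * T y) (bn be z y) (bn be y z) ≤ e' z + d ∧
    2 * e z + 2 * (d : ℤ) ≤ 2 * (bsN (Mn z) (Hn z) : ℤ) + ∑ y ∈ (range n).erase z, NN z y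
  pf : ∀ z < n, ∑ y ∈ (range n).erase z, bn be z y ≤ pm z
  cf : ∀ x < n, ∀ z < n, x ≠ z → ¬ A x z → bn be x z ≤ cp x
  PA : ∀ x < n, ∀ z < n, x ≠ z → A x z ∧ P x z = bn be x z ∧
    W x z = wC R T x z (bn be x z) (bn be z x) ∨ ¬ A x z ∧ P x z = 0 ∧ W x z = 0
  qf : ∀ z < n, q z ≤ ∑ y ∈ (range n).erase z, P y z

/-- the energies -/
lemma energy (H : ItC (R : ℤ) n t s h e E U ho vl kp ms mr mu Nb Nx be ls pc ar aT NN FF pw nu)
    (hT : ∀ i < n, (T i : ℤ) = t i) (hg : T 0 * T 1 + 10 ≤ 2 * R)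
    (hN : NodeX R n T Hn Mn be e NN e' q pm cp P W A) {z : ℕ} (hz : z < n) : e z ≤ e' z := by
  obtain ⟨d, h1, h2⟩ := hN.ef z hz
  have h3 : ∑ y ∈ (range n).erase z, NN z y
      ≤ ∑ y ∈ (range n).erase z, 2 * (PatT.nb R (T z * T y) (bn be z y) (bn be y z) : ℤ) :=
    sum_le_sum fun y hy => NN_le H hT hg hz (mem_range.1 (mem_of_mem_erase hy))
      (ne_of_mem_erase hy).symm
  rw [← mul_sum] at h3
  have h4 : ((bsN (Mn z) (Hn z)
    + ∑ y ∈ (range n).erase z, PatT.nb R (T z * T y) (bn be z y) (bn be y z) : ℕ) : ℤ)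
      ≤ ((e' z + d : ℕ) : ℤ) := by exact_mod_cast h1
  push_cast at h4
  linarith

/-- the ends in front of the plain ends of the host `x` -/
lemma front (H : ItC (R : ℤ) n t s h e E U ho vl kp ms mr mu Nb Nx be ls pc ar aT NN FF pw nu)
    (hN : NodeX R n T Hn Mn be e NN e' q pm cp P W A) {x z : ℕ} (hx : x < n) (hz : z < n)
    (hxz : x ≠ z) :
    (q z : ℤ) ≤ ∑ u ∈ U, (if ho u = x then pdA pc (A x z) u else pc u) * kp z u := by
  have h1 : ∑ u ∈ U, (if ho u = x then pdA pc (A x z) u else pc u) * kp z u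
      = ∑ y ∈ range n, ∑ u ∈ U.filter (fun u => ho u = y),
        (if ho u = x then pdA pc (A x z) u else pc u) * kp z u :=
    (sum_fiberwise_of_maps_to (fun u hu => mem_range.2 (H.hlt u hu)) _).symm
  have h2 : ∑ u ∈ U.filter (fun u => ho u = x),
      (if ho u = x then pdA pc (A x z) u else pc u) * kp z u = P x z := by
    rcases hN.PA x hx z hz hxz with ⟨a1, a2, -⟩ | ⟨a1, a2, -⟩
    · rw [a2, bn_cast H hx hz, ← H.pcb x hx z hz]
      refine sum_congr rfl fun u hu => ?_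
      rw [if_pos (mem_filter.1 hu).2, pdA_pos a1]
    · rw [a2, Nat.cast_zero]
      refine sum_eq_zero fun u hu => ?_
      rw [if_pos (mem_filter.1 hu).2, pdA_neg a1, zero_mul]
  have h3 : ∀ y ∈ (range n).erase x, (if y = z then 0 else (P y z : ℤ))
      ≤ ∑ u ∈ U.filter (fun u => ho u = y),
        (if ho u = x then pdA pc (A x z) u else pc u) * kp z u := by
    intro y hy
    have hyn := mem_range.1 (mem_of_mem_erase hy)
    have e1 : ∑ u ∈ U.filter (fun u => ho u = y),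
        (if ho u = x then pdA pc (A x z) u else pc u) * kp z u = be y z := by
      rw [← H.pcb y hyn z hz]
      refine sum_congr rfl fun u hu => ?_
      rw [if_neg (by rw [(mem_filter.1 hu).2]; exact ne_of_mem_erase hy)]
    rw [e1]
    have e2 := H.be0 y hyn z hz
    split_ifs with h4
    · exact e2
    · rcases hN.PA y hyn z hz h4 with ⟨-, a2, -⟩ | ⟨-, a2, -⟩
      · rw [a2, bn_cast H hyn hz]
      · rw [a2, Nat.cast_zero]
        exact e2
  have h4 := sum_le_sum h3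
  rw [h1, ← add_sum_erase _ _ (mem_range.2 hx), h2]
  refine le_trans ?_ (add_le_add_right h4 _)
  have h5 : (q z : ℤ) ≤ ∑ y ∈ (range n).erase z, (P y z : ℤ) := by exact_mod_cast hN.qf z hz
  have h6 : ∑ y ∈ (range n).erase z, (P y z : ℤ) = ∑ y ∈ range n, if y = z then 0 else (P y z : ℤ) := by
    rw [← add_sum_erase _ (fun y => if y = z then 0 else (P y z : ℤ)) (mem_range.2 hz), if_pos rfl,
      zero_add]
    exact sum_congr rfl fun y hy => by rw [if_neg (ne_of_mem_erase hy)]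
  rw [h6, ← add_sum_erase _ _ (mem_range.2 hx), if_neg hxz] at h5
  exact h5

/-- the hits of a pair -/
lemma pairB (H : ItC (R : ℤ) n t s h e E U ho vl kp ms mr mu Nb Nx be ls pc ar aT NN FF pw nu)
    (L : LvI (R : ℤ) n t s h e U ho vl kp ms mr mn mu be pc ar)
    (hT : ∀ i < n, (T i : ℤ) = t i) (hH : ∀ i < n, (Hn i : ℤ) = h i)
    (hg : T 0 * T 1 + 10 ≤ 2 * R)
    (hN : NodeX R n T Hn Mn be e NN e' q pm cp P W A) {x z : ℕ} (hx : x < n) (hz : z < n)
    (hxz : x ≠ z) :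
    ∑ u ∈ U.filter (fun u => ho u = x), (1 - pdA pc (A x z) u) * (kp z u * (R - t z) - ms z u)
        + ((kB R T Hn x z + W x z : ℕ) : ℤ)
      ≤ ((e' x + e' z + kA R T Hn x z : ℕ) : ℤ) := by
  have key : ∀ i < n, ∀ j < n, i ≠ j → 2 * e i
      + 2 * (PatT.nb R (T i * T j) (bn be i j) (bn be j i) : ℕ) ≤ 2 * e' i + NN i j := by
    intro i hi j hj hij
    obtain ⟨d, h1, h2⟩ := hN.ef i hi
    rw [← add_sum_erase _ _ (mem_erase.2 ⟨hij.symm, mem_range.2 hj⟩)] at h1 h2
    have h3 : ((bsN (Mn i) (Hn i) + (PatT.nb R (T i * T j) (bn be i j) (bn be j i)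
      + ∑ l ∈ ((range n).erase i).erase j, PatT.nb R (T i * T l) (bn be i l) (bn be l i)) : ℕ) : ℤ)
      ≤ ((e' i + d : ℕ) : ℤ) := by exact_mod_cast h1
    have h4 : ∑ l ∈ ((range n).erase i).erase j, NN i l
      ≤ 2 * ∑ l ∈ ((range n).erase i).erase j,
        (PatT.nb R (T i * T l) (bn be i l) (bn be l i) : ℤ) := by
      rw [mul_sum]
      exact sum_le_sum fun l hl => NN_le H hT hg hi
        (mem_range.1 (mem_of_mem_erase (mem_of_mem_erase hl)))
        (ne_of_mem_erase (mem_of_mem_erase hl)).symm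
    push_cast at h3
    linarith
  have h1 := pairG H hx hz hxz
  have kx := key x hx z hz hxz
  have kz := key z hz x hx hxz.symm
  have hk : ((kA R T Hn x z : ℕ) : ℤ) - (kB R T Hn x z : ℕ)
      = R + 1 + s x * s z - (R - 1) * (s x + s z) := by
    have e1 : kA R T Hn x z = R + 1 + (Hn x * Hn z + (T x + 1) * (T z + 1)
      + (R - 1) * (T x + (T z + 2))) := rfl
    have e2 : kB R T Hn x z = Hn x * (T z + 1) + Hn z * (T x + 1) + (R - 1) * (Hn x + Hn z) := rfl
    have e3 : ((R - 1 : ℕ) : ℤ) = (R : ℤ) - 1 := by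
      have := H.tR x hx
      have := H.t0 x hx
      have : 1 ≤ R := by
        have : (1 : ℤ) ≤ R := by linarith
        exact_mod_cast this
      rw [Nat.cast_sub this]
      norm_num
    rw [e1, e2]
    push_cast
    rw [e3, hT x hx, hT z hz, hH x hx, hH z hz, H.hh x hx, H.hh z hz]
    ring
  have hits0 : ∀ i < n, ∀ u ∈ U, 0 ≤ kp i u * (R - t i) - ms i u := by
    intro i hi u hu
    linarith [H.msr u hu i hi, H.mrk u hu i hi]
  have hpc : ∀ i < n, ∀ u ∈ U, pc u * (kp i u * (R - t i) - ms i u) = pc u * kp i u * (R - t i) := by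
    intro i hi u hu
    rcases H.pcf u hu with h2 | h2
    · rw [h2]
      ring
    · have h3 := (L.pc_data H.m0 H.mrk hu h2 hi).1
      have h4 := L.msn u hu i hi
      have h5 := H.m0 u hu i hi
      have h6 : ms i u = 0 := by linarith
      rw [h6]
      ring
  rcases hN.PA x hx z hz hxz with ⟨a1, a2, a3⟩ | ⟨a1, a2, a3⟩
  · have h2 : ∑ u ∈ U.filter (fun u => ho u = x),
        (1 - pdA pc (A x z) u) * (kp z u * (R - t z) - ms z u)
        = ∑ u ∈ U.filter (fun u => ho u = x), (kp z u * (R - t z) - ms z u)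
          - be x z * (R - t z) := by
      rw [← H.pcb x hx z hz, sum_mul, ← sum_sub_distrib]
      refine sum_congr rfl fun u hu => ?_
      rw [pdA_pos a1, ← hpc z hz u (mem_filter.1 hu).1]
      ring
    have h3 : be z x * (R - t x) ≤ ∑ u ∈ U.filter (fun u => ho u = z),
        (kp x u * (R - t x) - ms x u) := by
      rw [← H.pcb z hz x hx, sum_mul]
      refine sum_le_sum fun u hu => ?_
      have hu' := (mem_filter.1 hu).1
      rw [← hpc x hx u hu']
      rcases H.pcf u hu' with h4 | h4 <;> rw [h4]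
      · rw [zero_mul]
        exact hits0 x hx u hu'
      · rw [one_mul]
    have h4 := net H hT hg hx hz hxz
    have hW : ((W x z : ℕ) : ℤ) = (PatT.nb R (T x * T z) (bn be x z) (bn be z x) : ℕ)
        + (PatT.nb R (T z * T x) (bn be z x) (bn be x z) : ℕ)
        + (be x z * (R - t z) + be z x * (R - t x))
        - (((bn be x z + bn be z x) * (bn be x z + bn be z x + 1) / 2 : ℕ) : ℤ) := by
      rw [a3]
      have e1 : wC R T x z (bn be x z) (bn be z x)
        = PatT.nb R (T x * T z) (bn be x z) (bn be z x)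
          + PatT.nb R (T x * T z) (bn be z x) (bn be x z)
          + (bn be x z * (R - T z) + bn be z x * (R - T x))
          - (bn be x z + bn be z x) * (bn be x z + bn be z x + 1) / 2 := rfl
      have e2 := net_le (cell H hT hg hx hz hxz)
      have e3 : ∀ i < n, ((R - T i : ℕ) : ℤ) = R - t i := by
        intro i hi
        have e4 : T i ≤ R := by
          have := H.tR i hi
          rw [← hT i hi] at this
          have : (T i : ℤ) ≤ R := by linarith
          exact_mod_cast this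
        rw [Nat.cast_sub e4, hT i hi]
      rw [e1, Nat.cast_sub (by omega), mul_comm (T z)]
      push_cast
      rw [e3 x hx, e3 z hz, bn_cast H hx hz, bn_cast H hz hx]
    rw [h2]
    push_cast
    rw [hW]
    push_cast at h4 kx kz ⊢
    linarith
  · have h2 : ∑ u ∈ U.filter (fun u => ho u = x),
        (1 - pdA pc (A x z) u) * (kp z u * (R - t z) - ms z u)
        = ∑ u ∈ U.filter (fun u => ho u = x), (kp z u * (R - t z) - ms z u) := by
      refine sum_congr rfl fun u hu => ?_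
      rw [pdA_neg a1]
      ring
    have h3 : 0 ≤ ∑ u ∈ U.filter (fun u => ho u = z), (kp x u * (R - t x) - ms x u) :=
      sum_nonneg fun u hu => hits0 x hx u (mem_filter.1 hu).1
    have h4 := H.FF0 x hx z hz
    have h5 := NN_le H hT hg hx hz hxz
    have h6 := NN_le H hT hg hz hx hxz.symm
    rw [h2, a3]
    push_cast at h5 h6 kx kz ⊢
    linarith

lemma rLX_cast {z : ℕ} : ((rLX R n T Hn q z : ℕ) : ℤ) = R * Hn z + q z * (R + T z) + tc n (q z) := by
  have e1 : rLX R n T Hn q z = rL R T Hn q z + tc n (q z) := rfl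
  rw [e1, Nat.cast_add, rL_cast]

/-- the rows -/
lemma row_le (H : ItC (R : ℤ) n t s h e E U ho vl kp ms mr mu Nb Nx be ls pc ar aT NN FF pw nu)
    (L : LvI (R : ℤ) n t s h e U ho vl kp ms mr mn mu be pc ar)
    (hT : ∀ i < n, (T i : ℤ) = t i) (hH : ∀ i < n, (Hn i : ℤ) = h i)
    (hg : T 0 * T 1 + 10 ≤ 2 * R)
    (hN : NodeX R n T Hn Mn be e NN e' q pm cp P W A) {x z : ℕ} (hx : x < n) (hz : z < n)
    (hxz : x ≠ z) {m : ℤ} {j : ℕ} (hj : j ≤ LvI.nE U ho kp mn (pdA pc (A x z)) x z m) :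
    ((rLX R n T Hn q z : ℕ) : ℤ) + j * (R - T z - m + 2 * T z) + j + tc n (q z + j)
      ≤ ((rR R T Hn e' q z : ℕ) : ℤ) + j * (2 * Hn z) + 4 * j * q z + 2 * j ^ 2 + tc n (q z) := by
  have hn := H.n5
  set k : ℕ := q z + j with hk
  have hd : n * (2 * k / n) ≤ 2 * k := Nat.mul_div_le _ _
  have h1 := L.nE_rowt H.m0 H.mrk H.kh H.pcf (pdA_cases H.pcf (A x z)) hz hxz.symm (H.hh z hz)
    (H.h0 z hz) (H.tR z hz) (H.e0 z hz) (front H hN hx hz hxz) hj (q := ((2 * k / n : ℕ) : ℤ))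
    (by positivity) (by
      have h2 : 5 * (2 * k / n) ≤ 2 * k := (Nat.mul_le_mul_right _ hn).trans hd
      have h3 : ((5 * (2 * k / n) : ℕ) : ℤ) ≤ ((2 * k : ℕ) : ℤ) := by exact_mod_cast h2
      rw [hk] at h3 ⊢
      rw [Nat.cast_mul] at h3
      push_cast at h3 ⊢
      linarith)
  have h2 := energy H hT hg hN hz
  have h3 : s z = h z - t z - 1 := by
    have := H.hh z hz
    linarith
  have h4 := tc_two (n := n) (by omega) k
  have h5 : ((2 * tc n k + n * (2 * k / n * (2 * k / n + 1)) : ℕ) : ℤ)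
      = ((4 * (2 * k / n) * k : ℕ) : ℤ) := by exact_mod_cast h4
  have h6 : (k : ℤ) = q z + j := by rw [hk]; push_cast; ring
  generalize 2 * k / n = D at h1 h5
  rw [Nat.cast_add, Nat.cast_mul, Nat.cast_mul, Nat.cast_mul, Nat.cast_mul, Nat.cast_mul,
    Nat.cast_add] at h5
  rw [h6] at h5
  rw [rLX_cast, rR_cast, hT z hz, hH z hz]
  rw [h3] at h1
  push_cast at h5
  nlinarith

lemma row_zero (H : ItC (R : ℤ) n t s h e E U ho vl kp ms mr mu Nb Nx be ls pc ar aT NN FF pw nu)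
    (L : LvI (R : ℤ) n t s h e U ho vl kp ms mr mn mu be pc ar)
    (hT : ∀ i < n, (T i : ℤ) = t i) (hH : ∀ i < n, (Hn i : ℤ) = h i)
    (hg : T 0 * T 1 + 10 ≤ 2 * R)
    (hN : NodeX R n T Hn Mn be e NN e' q pm cp P W A) {z : ℕ} (hz : z < n) :
    rLX R n T Hn q z ≤ rR R T Hn e' q z := by
  have hn := H.n5
  obtain ⟨x, hx, hxz⟩ : ∃ x, x < n ∧ x ≠ z := by
    by_cases h1 : z = 0
    · exact ⟨1, by omega, by omega⟩
    · exact ⟨0, by omega, fun h2 => h1 h2.symm⟩
  have h1 := row_le H L hT hH hg hN hx hz hxz (m := 0) (j := 0) (Nat.zero_le _)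
  simp only [Nat.cast_zero, zero_mul, add_zero, mul_zero] at h1
  have h2 : ((rLX R n T Hn q z : ℕ) : ℤ) ≤ ((rR R T Hn e' q z : ℕ) : ℤ) := by
    have e1 : (2 : ℤ) * 0 ^ 2 = 0 := by norm_num
    linarith
  exact_mod_cast h2

/-- the numbers of PC pairs and parts -/
lemma prt_row (H : ItC (R : ℤ) n t s h e E U ho vl kp ms mr mu Nb Nx be ls pc ar aT NN FF pw nu)
    (L : LvI (R : ℤ) n t s h e U ho vl kp ms mr mn mu be pc ar)
    (hH : ∀ i < n, (Hn i : ℤ) = h i) (hM : ∀ i < n, (Mn i : ℤ) = mu i)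
    (hN : NodeX R n T Hn Mn be e NN e' q pm cp P W A) {z : ℕ} (hz : z < n) :
    Mn z ≤ pm z + (n - 1) * (Hn z - Mn z) := by
  have hn := H.n5
  have h1 := L.prt_le H.pcf hz (H.hmu z hz) (by omega)
  have h2 : ∑ u ∈ U.filter (fun u => ho u = z), pc u ≤ ∑ y ∈ (range n).erase z, be z y := by
    have e1 : ∑ y ∈ (range n).erase z, be z y
        = ∑ u ∈ U.filter (fun u => ho u = z), ∑ y ∈ (range n).erase z, pc u * kp y u := by
      rw [sum_comm]
      exact sum_congr rfl fun y hy => (H.pcb z hz y (mem_range.1 (mem_of_mem_erase hy))).symm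
    rw [e1]
    refine sum_le_sum fun u hu => ?_
    obtain ⟨hu1, hu2⟩ := mem_filter.1 hu
    rw [← mul_sum]
    rcases H.pcf u hu1 with h3 | h3
    · rw [h3, zero_mul]
    · rw [h3, one_mul]
      rcases L.one u hu1 with ⟨j, hj, h4, -, -, -⟩ | ⟨h4, -⟩
      · have h5 : j ≠ z := fun h6 => by
          have h7 := H.kh u hu1
          rw [hu2, ← h6, h4] at h7
          norm_num at h7
        rw [← h4]
        exact single_le_sum (f := fun y => kp y u)
          (fun y hy => H.k0 u hu1 y (mem_range.1 (mem_of_mem_erase hy)))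
          (mem_erase.2 ⟨h5, mem_range.2 hj⟩)
      · rw [h4] at h3
        norm_num at h3
  have h3 : ∑ y ∈ (range n).erase z, be z y ≤ pm z := by
    have h4 := hN.pf z hz
    have h5 : ((∑ y ∈ (range n).erase z, bn be z y : ℕ) : ℤ) ≤ pm z := by exact_mod_cast h4
    rw [Nat.cast_sum] at h5
    refine le_trans (le_of_eq (sum_congr rfl fun y hy => ?_)) h5
    exact (bn_cast H hz (mem_range.1 (mem_of_mem_erase hy))).symm
  have h4 := H.muh z hz
  rw [← hM z hz, ← hH z hz] at h1 h4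
  have h5 : Mn z ≤ Hn z := by exact_mod_cast h4
  have h6 : ((n - 1 : ℕ) : ℤ) = n - 1 := by omega
  have h7 : ((Mn z : ℕ) : ℤ) ≤ ((pm z + (n - 1) * (Hn z - Mn z) : ℕ) : ℤ) := by
    rw [Nat.cast_add, Nat.cast_mul, Nat.cast_sub h5, h6]
    linarith
  exact_mod_cast h7

lemma frt_false (H : ItC (R : ℤ) n t s h e E U ho vl kp ms mr mu Nb Nx be ls pc ar aT NN FF pw nu)
    (L : LvI (R : ℤ) n t s h e U ho vl kp ms mr mn mu be pc ar)
    (hT : ∀ i < n, (T i : ℤ) = t i) (hH : ∀ i < n, (Hn i : ℤ) = h i)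
    (hM : ∀ i < n, (Mn i : ℤ) = mu i) (hg : T 0 * T 1 + 10 ≤ 2 * R)
    (hN : NodeX R n T Hn Mn be e NN e' q pm cp P W A) : frt R n T Hn Mn e' q pm = false := by
  have hn := H.n5
  have h1 : ∀ z < n, ∀ r, fr1 R n T Hn Mn e' q pm z r = r := by
    intro z hz r
    have h2 := Nat.ble_eq_true_of_le (row_zero H L hT hH hg hN hz)
    have h4 : Nat.ble (Mn z) (Nat.add (pm z) (Nat.mul (Nat.pred n) (Nat.sub (Hn z) (Mn z))))
      = true := Nat.ble_eq_true_of_le (prt_row H L hH hM hN hz)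
    have h3 : fr1 R n T Hn Mn e' q pm z r = Bool.rec (motive := fun _ => Bool) true
      (Bool.rec (motive := fun _ => Bool) true r
        (Nat.ble (Mn z) (Nat.add (pm z) (Nat.mul (Nat.pred n) (Nat.sub (Hn z) (Mn z))))))
      (Nat.ble (rLX R n T Hn q z) (rR R T Hn e' q z)) := rfl
    rw [h3, h2, h4]
  have h2 : ∀ k ≤ n, Nat.rec (motive := fun _ => Bool) false
      (fun z r => fr1 R n T Hn Mn e' q pm z r) k = false := by
    intro k
    induction k with
    | zero => intro _; rfl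
    | succ k ih =>
      intro hk
      have h3 : Nat.rec (motive := fun _ => Bool) false
          (fun z r => fr1 R n T Hn Mn e' q pm z r) (k + 1)
        = fr1 R n T Hn Mn e' q pm k (Nat.rec (motive := fun _ => Bool) false
          (fun z r => fr1 R n T Hn Mn e' q pm z r) k) := rfl
      rw [h3, h1 k (by omega), ih (by omega)]
  unfold frt
  rw [h1 0 (by omega), h1 1 (by omega), h2 n le_rfl]

/-- the number of ends of one level -/
lemma nE_km (H : ItC (R : ℤ) n t s h e E U ho vl kp ms mr mu Nb Nx be ls pc ar aT NN FF pw nu)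
    (L : LvI (R : ℤ) n t s h e U ho vl kp ms mr mn mu be pc ar)
    (hT : ∀ i < n, (T i : ℤ) = t i) (hH : ∀ i < n, (Hn i : ℤ) = h i)
    (hM : ∀ i < n, (Mn i : ℤ) = mu i) (hg : T 0 * T 1 + 10 ≤ 2 * R)
    (hN : NodeX R n T Hn Mn be e NN e' q pm cp P W A) {x z : ℕ} (hx : x < n) (hz : z < n)
    (hxz : x ≠ z) {m : ℕ} (hm : m + 1 ≤ R - T z) :
    LvI.nE U ho kp mn (pdA pc (A x z)) x z m
      ≤ kmX n (R - T z - m + 2 * T z) (2 * Hn z) (mn2 (fue Hn Mn cp x)
        ((e' x + e' z + kA R T Hn x z - (kB R T Hn x z + W x z)) / (R - T z - m)))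
        (rLX R n T Hn q z) (rR R T Hn e' q z) (q z) := by
  have hc : ((R - T z - m : ℕ) : ℤ) = R - T z - m := by omega
  refine kmX_ge _ _ _ _ _ _ _ _ ?_ fun j _ hj => ?_
  · rw [mn2_eq, le_min_iff]
    constructor
    · show _ ≤ mn2 (Hn x) (2 * (Hn x - Mn x) + cp x)
      rw [mn2_eq, le_min_iff]
      have h1 := L.nE_host H.k0 H.pcf (pdA_cases H.pcf (A x z)) hx hz (m := (m : ℤ))
      have h2 := L.nE_part H.k0 H.pcf (pdA_cases H.pcf (A x z)) hx hz (m := (m : ℤ))
      have h3 : ∑ u ∈ U.filter (fun u => ho u = x), (pc u - pdA pc (A x z) u) * kp z u ≤ cp x := by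
        by_cases hA : A x z
        · rw [sum_eq_zero fun u _ => by rw [pdA_pos hA, sub_self, zero_mul]]
          positivity
        · have h4 := hN.cf x hx z hz hxz hA
          have h5 : (bn be x z : ℤ) ≤ cp x := by exact_mod_cast h4
          rw [bn_cast H hx hz, ← H.pcb x hx z hz] at h5
          refine le_trans (le_of_eq (sum_congr rfl fun u _ => ?_)) h5
          rw [pdA_neg hA, sub_zero]
      have h6 := H.muh x hx
      rw [← hM x hx, ← hH x hx] at h2 h6
      rw [← hH x hx] at h1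
      have h7 : Mn x ≤ Hn x := by exact_mod_cast h6
      refine ⟨by exact_mod_cast h1, ?_⟩
      have h8 : ((LvI.nE U ho kp mn (pdA pc (A x z)) x z m : ℕ) : ℤ)
          ≤ ((2 * (Hn x - Mn x) + cp x : ℕ) : ℤ) := by
        rw [Nat.cast_add, Nat.cast_mul, Nat.cast_sub h7]
        push_cast
        linarith
      exact_mod_cast h8
    · rw [Nat.le_div_iff_mul_le (by omega)]
      have h1 := L.nE_hits H.m0 H.k0 H.mrk (pdA_cases H.pcf (A x z)) (x := x) hz (m := (m : ℤ))
        (by linarith [H.tR z hz])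
      have h2 := pairB H L hT hH hg hN hx hz hxz
      rw [← hT z hz] at h1 h2
      have h3 : ((LvI.nE U ho kp mn (pdA pc (A x z)) x z m * (R - T z - m)
          + (kB R T Hn x z + W x z) : ℕ) : ℤ) ≤ ((e' x + e' z + kA R T Hn x z : ℕ) : ℤ) := by
        rw [Nat.cast_add, Nat.cast_mul, hc]
        linarith
      have h4 : LvI.nE U ho kp mn (pdA pc (A x z)) x z m * (R - T z - m)
          + (kB R T Hn x z + W x z) ≤ e' x + e' z + kA R T Hn x z := by exact_mod_cast h3
      omega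
  · have h1 := row_le H L hT hH hg hN hx hz hxz hj
    have h2 : ((rLX R n T Hn q z + j * (R - T z - m + 2 * T z) + j + tc n (q z + j) : ℕ) : ℤ)
        ≤ ((rR R T Hn e' q z + j * (2 * Hn z) + 4 * j * q z + 2 * j ^ 2 + tc n (q z) : ℕ) : ℤ) := by
      rw [Nat.cast_add, Nat.cast_add, Nat.cast_add, Nat.cast_mul, Nat.cast_add, hc]
      push_cast
      linarith
    exact_mod_cast h2

/-- **the test of one host fails** -/
lemma hsm_false (H : ItC (R : ℤ) n t s h e E U ho vl kp ms mr mu Nb Nx be ls pc ar aT NN FF pw nu)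
    (L : LvI (R : ℤ) n t s h e U ho vl kp ms mr mn mu be pc ar)
    (hT : ∀ i < n, (T i : ℤ) = t i) (hH : ∀ i < n, (Hn i : ℤ) = h i)
    (hM : ∀ i < n, (Mn i : ℤ) = mu i) (hg : T 0 * T 1 + 10 ≤ 2 * R)
    (hN : NodeX R n T Hn Mn be e NN e' q pm cp P W A) {x a b m : ℕ} (hx : x < n)
    (h0 : m + 1 ≤ R - T 0) (hm : R + T a * T b < (m + 1) * (R - T a))
    (ha : ∀ y < n, y ≠ x → T y ≤ T a) (hb : ∀ y < n, y ≠ x → y ≠ a → T y ≤ T b) :
    hsm R n T Hn Mn e' q cp P W x a b m = false := by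
  have hn := H.n5
  have hT0 : ∀ z < n, T z ≤ T 0 := by
    intro z hz
    have h1 := H.anti 0 z (Nat.zero_le _) hz
    rw [← hT z hz, ← hT 0 (by omega)] at h1
    exact_mod_cast h1
  have hmz : ∀ z < n, m + 1 ≤ R - T z := fun z hz => by
    have := hT0 z hz
    omega
  have e2 : ∀ z, m2 R T m a b z = max m (min ((R + T (if z = a then b else a) * T z) / (m + 1))
      (R - T z - 1)) := by
    intro z
    unfold m2
    rw [mx2_eq, mn2_eq]
    rcases hza : Nat.beq z a with _ | _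
    · have h1 : z ≠ a := fun h2 => by
        rw [h2, Nat.beq_refl] at hza
        exact absurd hza (by simp)
      rw [if_neg h1]
      rfl
    · rw [if_pos (Nat.eq_of_beq_eq_true hza)]
      rfl
  have h2z : ∀ z < n, m2 R T m a b z + 1 ≤ R - T z := by
    intro z hz
    have h1 := hmz z hz
    rw [e2 z]
    have h2 : min ((R + T (if z = a then b else a) * T z) / (m + 1)) (R - T z - 1) ≤ R - T z - 1 :=
      min_le_right _ _
    rcases max_choice m (min ((R + T (if z = a then b else a) * T z) / (m + 1)) (R - T z - 1))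
      with h3 | h3 <;> rw [h3] <;> omega
  have hV : ∀ y < n, ∀ z < n, y ≠ z → y ≠ x → z ≠ x →
      R + T y * T z < (m + 1) * (m2 R T m a b z + 1) := by
    intro y hy z hz hyz hyx hzx
    have h1 : min ((R + T (if z = a then b else a) * T z) / (m + 1)) (R - T z - 1)
        ≤ m2 R T m a b z := by
      rw [e2 z]
      exact le_max_right _ _
    have h3 : T y ≤ T (if z = a then b else a) := by
      split_ifs with h4
      · exact hb y hy hyx (fun h5 => hyz (h5.trans h4.symm))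
      · exact ha y hy hyx
    rcases min_choice ((R + T (if z = a then b else a) * T z) / (m + 1)) (R - T z - 1)
      with h4 | h4
    · rw [h4] at h1
      have h5 : R + T (if z = a then b else a) * T z
          < (m + 1) * ((R + T (if z = a then b else a) * T z) / (m + 1) + 1) :=
        Nat.lt_mul_div_succ _ (by omega)
      have h6 : T y * T z ≤ T (if z = a then b else a) * T z := Nat.mul_le_mul_right _ h3
      have h7 := Nat.mul_le_mul_left (m + 1) (Nat.succ_le_succ h1)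
      simp only [Nat.succ_eq_add_one] at h7
      omega
    · rw [h4] at h1
      have h5 : R - T z ≤ m2 R T m a b z + 1 := by
        have := hmz z hz
        omega
      have h6 : (m + 1) * (R - T a) ≤ (m + 1) * (R - T z) :=
        Nat.mul_le_mul_left _ (by
          have := ha z hz hzx
          omega)
      have h7 := Nat.mul_le_mul_left (m + 1) h5
      have h8 : T y * T z ≤ T a * T b := by
        by_cases h9 : z = a
        · rw [h9, mul_comm (T a)]
          exact Nat.mul_le_mul_right _ (hb y hy hyx (fun h10 => hyz (h10.trans h9.symm)))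
        · exact Nat.mul_le_mul (ha y hy hyx) (hb z hz hzx h9)
      omega
  rcases hr : hsm R n T Hn Mn e' q cp P W x a b m with _ | _
  · rfl
  exfalso
  unfold hsm at hr
  have h1 := Nat.le_of_ble_eq_true hr
  rw [sumo_eq] at h1
  have h2 := L.hostV H.m0 H.k0 H.mrk H.kh hx (H.hmu x hx) (m := (m : ℤ)) (by positivity)
    (a2 := fun z => (m2 R T m a b z : ℤ)) (fun z => by
      rw [e2 z]
      exact_mod_cast le_max_left _ _) (fun y hy z hz hyz hyx hzx => by
      have h3 := hV y hy z hz hyz hyx hzx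
      have h4 : ((R + T y * T z : ℕ) : ℤ) < (((m + 1) * (m2 R T m a b z + 1) : ℕ) : ℤ) := by
        exact_mod_cast h3
      push_cast at h4
      rw [hT y hy, hT z hz] at h4
      exact h4) (pd := fun z => pdA pc (A x z)) (fun z _ => pdA_cases H.pcf (A x z))
  have h3 : ∑ z ∈ (range n).erase x, (((n : ℤ) - 1)
      * ∑ u ∈ U.filter (fun u => ho u = x), pdA pc (A x z) u * kp z u
      + ((((n : ℤ) - 1) - 1) * LvI.nE U ho kp mn (pdA pc (A x z)) x z (m2 R T m a b z : ℤ)
        + LvI.nE U ho kp mn (pdA pc (A x z)) x z (m : ℤ)))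
      ≤ ((∑ z ∈ (range n).erase x, rowV n (Nat.pred n) (P x z) (Nat.sub R (T z))
    (Nat.mul 2 (T z)) (Nat.mul 2 (Hn z)) (fue Hn Mn cp x)
    (Nat.sub (Nat.add (Nat.add (e' x) (e' z)) (kA R T Hn x z)) (Nat.add (kB R T Hn x z) (W x z)))
    m (m2 R T m a b z) (rLX R n T Hn q z) (rR R T Hn e' q z) (q z) : ℕ) : ℤ) := by
    rw [Nat.cast_sum]
    refine sum_le_sum fun z hz => ?_
    have hzn := mem_range.1 (mem_of_mem_erase hz)
    have hxz := (ne_of_mem_erase hz).symm
    have h4 := nE_km H L hT hH hM hg hN hx hzn hxz (hmz z hzn)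
    have h5 := nE_km H L hT hH hM hg hN hx hzn hxz (h2z z hzn)
    have h6 : ∑ u ∈ U.filter (fun u => ho u = x), pdA pc (A x z) u * kp z u = (P x z : ℤ) := by
      rcases hN.PA x hx z hzn hxz with ⟨a1, a2, -⟩ | ⟨a1, a2, -⟩
      · rw [a2, bn_cast H hx hzn, ← H.pcb x hx z hzn]
        exact sum_congr rfl fun u _ => by rw [pdA_pos a1]
      · rw [a2, Nat.cast_zero]
        exact sum_eq_zero fun u _ => by rw [pdA_neg a1, zero_mul]
    have e3 : rowV n (Nat.pred n) (P x z) (Nat.sub R (T z))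
        (Nat.mul 2 (T z)) (Nat.mul 2 (Hn z)) (fue Hn Mn cp x)
        (Nat.sub (Nat.add (Nat.add (e' x) (e' z)) (kA R T Hn x z))
          (Nat.add (kB R T Hn x z) (W x z)))
        m (m2 R T m a b z) (rLX R n T Hn q z) (rR R T Hn e' q z) (q z)
      = (n - 1) * P x z + ((n - 1 - 1) * kmX n (R - T z - m2 R T m a b z + 2 * T z) (2 * Hn z)
          (mn2 (fue Hn Mn cp x) ((e' x + e' z + kA R T Hn x z - (kB R T Hn x z + W x z))
            / (R - T z - m2 R T m a b z))) (rLX R n T Hn q z) (rR R T Hn e' q z) (q z)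
        + kmX n (R - T z - m + 2 * T z) (2 * Hn z)
          (mn2 (fue Hn Mn cp x) ((e' x + e' z + kA R T Hn x z - (kB R T Hn x z + W x z))
            / (R - T z - m))) (rLX R n T Hn q z) (rR R T Hn e' q z) (q z)) := rfl
    have en1 : ((n - 1 : ℕ) : ℤ) = (n : ℤ) - 1 := by omega
    have en2 : ((n - 1 - 1 : ℕ) : ℤ) = (n : ℤ) - 1 - 1 := by omega
    have hn2 : (0 : ℤ) ≤ (n : ℤ) - 1 - 1 := by
      have : (5 : ℤ) ≤ n := by exact_mod_cast hn
      linarith
    rw [h6, e3]
    push_cast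
    rw [en1, en2]
    have h4' : (LvI.nE U ho kp mn (pdA pc (A x z)) x z (m : ℤ) : ℤ) ≤ _ := Nat.cast_le.2 h4
    have h5' : (LvI.nE U ho kp mn (pdA pc (A x z)) x z (m2 R T m a b z : ℤ) : ℤ) ≤ _ :=
      Nat.cast_le.2 h5
    have h7 := mul_le_mul_of_nonneg_left h5' hn2
    linarith
  have h4 : ((n : ℤ) - 1) * mu x = ((n - 1) * Mn x : ℕ) := by
    have en1 : ((n - 1 : ℕ) : ℤ) = (n : ℤ) - 1 := by omega
    push_cast
    rw [en1, hM x hx]
  rw [h4] at h2
  have h5 := h2.trans h3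
  have h6 := Nat.cast_le.1 h5
  have h7 : Nat.mul (Nat.pred n) (Mn x) = (n - 1) * Mn x := rfl
  rw [h7] at h1
  simp only [Nat.succ_eq_add_one] at h1
  omega

/-- **the test of a node fails** -/
theorem ndT_false (H : ItC (R : ℤ) n t s h e E U ho vl kp ms mr mu Nb Nx be ls pc ar aT NN FF pw nu)
    (L : LvI (R : ℤ) n t s h e U ho vl kp ms mr mn mu be pc ar)
    (hT : ∀ i < n, (T i : ℤ) = t i) (hH : ∀ i < n, (Hn i : ℤ) = h i)
    (hM : ∀ i < n, (Mn i : ℤ) = mu i) (hg : T 0 * T 1 + 10 ≤ 2 * R)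
    (hN : NodeX R n T Hn Mn be e NN e' q pm cp P W A) : ndT R n T Hn Mn e' q pm cp P W = false := by
  have hn := H.n5
  have hT0 : ∀ y z, y ≤ z → z < n → T z ≤ T y := by
    intro y z hyz hz
    have h1 := H.anti y z hyz hz
    rw [← hT z hz, ← hT y (by omega)] at h1
    exact_mod_cast h1
  have key : ∀ x a b j, x < n → a < n → (∀ y < n, y ≠ x → T y ≤ T a) →
      (∀ y < n, y ≠ x → y ≠ a → T y ≤ T b) → hst R n T Hn Mn e' q cp P W x a b j = false := by
    intro x a b j hx han ha hb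
    unfold hst
    rcases hg1 : Nat.ble (Nat.succ (m1 R T a b j)) (Nat.sub R (T 0)) with _ | _
    · rfl
    · have h1 := Nat.le_of_ble_eq_true hg1
      refine hsm_false H L hT hH hM hg hN hx h1 ?_ ha hb
      have h2 : (R + T a * T b) / (R - T a) ≤ m1 R T a b j := by
        unfold m1
        rw [mx2_eq]
        exact le_max_right _ _
      have h3 : 0 < R - T a := by
        have h4 := H.tR a han
        rw [← hT a han] at h4
        have : ((T a + 1 : ℕ) : ℤ) ≤ R := by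
          push_cast
          exact h4
        have : T a + 1 ≤ R := by exact_mod_cast this
        omega
      have h4 : R + T a * T b < (R - T a) * ((R + T a * T b) / (R - T a) + 1) :=
        Nat.lt_mul_div_succ _ h3
      have h5 := Nat.mul_le_mul_left (R - T a) (Nat.succ_le_succ h2)
      simp only [Nat.succ_eq_add_one] at h5
      rw [mul_comm (m1 R T a b j + 1)]
      omega
  unfold ndT
  rw [frt_false H L hT hH hM hg hN]
  rw [key 0 1 2 2 (by omega) (by omega) (fun y hy hyx => hT0 1 y (by omega) hy)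
    (fun y hy hyx hya => hT0 2 y (by omega) hy)]
  rw [key 1 0 2 2 (by omega) (by omega) (fun y hy hyx => hT0 0 y (by omega) hy)
    (fun y hy hyx hya => hT0 2 y (by omega) hy)]
  rw [key 0 1 2 3 (by omega) (by omega) (fun y hy hyx => hT0 1 y (by omega) hy)
    (fun y hy hyx hya => hT0 2 y (by omega) hy)]
  rw [key 1 0 2 3 (by omega) (by omega) (fun y hy hyx => hT0 0 y (by omega) hy)
    (fun y hy hyx hya => hT0 2 y (by omega) hy)]
  rfl

end Node

section Search

variable {ι : Type*} {R n : ℕ} {t s h e : ℕ → ℤ} {E : ℕ → ℕ → ℤ} {U : Finset ι} {ho : ι → ℕ}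
  {vl : ι → ℤ} {kp ms mr mn : ℕ → ι → ℤ} {mu Nb : ℕ → ℤ} {Nx : ℕ → ℕ → ℤ} {be : ℕ → ℕ → ℤ}
  {ls : ℕ → ℤ → ℤ} {pc ar : ι → ℤ} {aT : ℕ → ℤ} {NN FF pw : ℕ → ℕ → ℤ} {nu : ℕ → ι → ℤ}
  {T Hn Mn : ℕ → ℕ}

/-- the state belongs to the rest `cs` of the cells -/
structure Inv (R n : ℕ) (T Mn : ℕ → ℕ) (be : ℕ → ℕ → ℤ) (cs : List (ℕ × ℕ))
    (eN o q rm cp : ℕ → ℕ) (P W : ℕ → ℕ → ℕ) : Prop where
  base : PatT.Inv R n T Mn be cs eN o q rm P W
  i6 : ∀ z < n, ∑ y ∈ (range n).erase z, bn be z y ≤ o z + rs (bn be) cs z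
  i7 : ∀ z < n, rs (fun z y => cmx R (T z * T y)) cs z ≤ cp z

/-- one cell of the sum -/
lemma mem_rs (g : ℕ → ℕ → ℕ) {cs : List (ℕ × ℕ)} {x z : ℕ} (hxz : x ≠ z)
    (h : (x, z) ∈ cs ∨ (z, x) ∈ cs) : g x z ≤ rs g cs x := by
  induction cs with
  | nil => simp at h
  | cons c cs ih =>
    rw [rs_cons]
    by_cases h1 : (x, z) = c ∨ (z, x) = c
    · rcases h1 with h1 | h1
      · rw [← h1, if_pos rfl]
        exact Nat.le_add_right _ _
      · rw [← h1, if_neg hxz.symm, if_pos rfl]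
        exact Nat.le_add_right _ _
    · have h2 := ih (by
        rw [List.mem_cons, List.mem_cons] at h
        tauto)
      omega

/-- the node of a state -/
lemma Inv.node (H : ItC (R : ℤ) n t s h e E U ho vl kp ms mr mu Nb Nx be ls pc ar aT NN FF pw nu)
    (hE : ∀ i < n, ∀ q : ℤ, 0 ≤ q → 2 * e i + mu i * (mu i + 1)
      + 2 * (q * (mu i - ∑ j ∈ (range n).erase i, be i j))
      ≤ 2 * (mu i * h i) + ∑ j ∈ (range n).erase i, NN i j + ((n : ℤ) - 1) * (q * (q + 1)))
    (hT : ∀ i < n, (T i : ℤ) = t i) (hH : ∀ i < n, (Hn i : ℤ) = h i)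
    (hM : ∀ i < n, (Mn i : ℤ) = mu i) (hg : T 0 * T 1 + 10 ≤ 2 * R) {cs : List (ℕ × ℕ)}
    {eN o q rm cp : ℕ → ℕ} {P W : ℕ → ℕ → ℕ} (hI : Inv R n T Mn be cs eN o q rm cp P W) :
    NodeX R n T Hn Mn be e NN (eng n Mn (fun z => bsN (Mn z) (Hn z))
      (fun z => maxo z z (fun y => kmC R (Nat.mul (T z) (T y))) n) eN o rm cp) q (pmx o cp) cp P W
      (fun x z => (x, z) ∉ cs ∧ (z, x) ∉ cs) := by
  have hn := H.n5
  have hb := hI.base.node (Hn := Hn) H hT hg
  have hpm : ∀ z < n, ∑ y ∈ (range n).erase z, bn be z y ≤ pmx o cp z := by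
    intro z hz
    have h1 := hI.i6 z hz
    have h2 : rs (bn be) cs z ≤ rs (fun z y => cmx R (T z * T y)) cs z :=
      rs_le hI.base.lt (fun x hx z hz hxz => bn_le_cmx (cell H hT hg hx hz hxz)) hz
    have h3 := hI.i7 z hz
    show _ ≤ o z + cp z
    omega
  have hcf : ∀ x < n, ∀ z < n, x ≠ z → ¬ ((x, z) ∉ cs ∧ (z, x) ∉ cs) → bn be x z ≤ cp x := by
    intro x hx z hz hxz hA
    have h1 : (x, z) ∈ cs ∨ (z, x) ∈ cs := by tauto
    have h2 : rs (bn be) cs x ≤ rs (fun z y => cmx R (T z * T y)) cs x :=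
      rs_le hI.base.lt (fun x hx z hz hxz => bn_le_cmx (cell H hT hg hx hz hxz)) hx
    exact (mem_rs (bn be) hxz h1).trans (h2.trans (hI.i7 x hx))
  refine ⟨fun z hz => ⟨dd (Mn z - pmx o cp z) (n - 1), ?_, ?_⟩, hpm, hcf, hb.PA, hb.qf⟩
  · have h1 := hb.ef z hz
    show _ ≤ PatT.eng Mn (fun z => bsN (Mn z) (Hn z))
      (fun z => maxo z z (fun y => kmC R (Nat.mul (T z) (T y))) n) eN o rm z
        - dd (Mn z - pmx o cp z) (n - 1) + dd (Mn z - pmx o cp z) (n - 1)
    omega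
  · have h2 := bsN_two (m := Mn z) (h := Hn z) (by
      have := H.muh z hz
      rw [← hM z hz, ← hH z hz] at this
      exact_mod_cast this)
    rw [hM z hz, hH z hz] at h2
    have hG : ((∑ y ∈ (range n).erase z, bn be z y : ℕ) : ℤ) = ∑ y ∈ (range n).erase z, be z y := by
      rw [Nat.cast_sum]
      exact sum_congr rfl fun y hy => bn_cast H hz (mem_range.1 (mem_of_mem_erase hy))
    have h3 := hpm z hz
    have h3' : ((∑ y ∈ (range n).erase z, bn be z y : ℕ) : ℤ) ≤ (pmx o cp z : ℕ) := by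
      exact_mod_cast h3
    rw [hG] at h3'
    rcases Nat.eq_zero_or_pos (Mn z - pmx o cp z) with h4 | h4
    · have h5 := hE z hz 0 le_rfl
      have h6 : dd (Mn z - pmx o cp z) (n - 1) = 0 := by
        rw [h4]
        have e1 : dd 0 (n - 1) = (2 * (0 / (n - 1) * 0) - (n - 1) * (0 / (n - 1)
          * (0 / (n - 1) + 1))) / 2 := rfl
        rw [e1]
        simp
      rw [h6]
      push_cast
      linarith
    · have h5 := hE z hz (((Mn z - pmx o cp z) / (n - 1) : ℕ) : ℤ) (by positivity)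
      have h6 := dd_le (m := Mn z - pmx o cp z) (k := n - 1)
      have h7 : ((Mn z - pmx o cp z : ℕ) : ℤ) ≤ mu z - ∑ y ∈ (range n).erase z, be z y := by
        rw [← hM z hz]
        omega
      have h8 : ((n - 1 : ℕ) : ℤ) = n - 1 := by omega
      rw [h8] at h6
      have h9 := mul_le_mul_of_nonneg_left h7
        (show (0 : ℤ) ≤ (((Mn z - pmx o cp z) / (n - 1) : ℕ) : ℤ) by positivity)
      linarith

/-- the rest of the numbers -/
lemma dn_step {g : ℕ → ℕ} {c : ℕ × ℕ} {cs : List (ℕ × ℕ)} {f : ℕ → ℕ → ℕ}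
    (hf : ∀ x y, f x y = f y x) {z : ℕ} (h1 : rs f (c :: cs) z ≤ g z) :
    rs f cs z ≤ dn g c.1 (f c.1 c.2) c.2 (f c.1 c.2) z := by
  rw [rs_cons] at h1
  rw [dn_eq]
  by_cases h2 : z = c.1
  · subst h2
    rw [if_pos rfl] at h1 ⊢
    omega
  · rw [if_neg (fun h3 => h2 h3.symm)] at h1
    rw [if_neg h2]
    by_cases h3 : z = c.2
    · subst h3
      rw [if_pos rfl] at h1 ⊢
      rw [hf c.2 c.1] at h1
      omega
    · rw [if_neg (fun h4 => h3 h4.symm)] at h1
      rw [if_neg h3]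
      omega

/-- **the next state** -/
lemma Inv.step {c : ℕ × ℕ} {cs : List (ℕ × ℕ)} {eN o q rm cp : ℕ → ℕ} {P W : ℕ → ℕ → ℕ}
    (hI : Inv R n T Mn be (c :: cs) eN o q rm cp P W) {a b : ℕ} (ha : a = bn be c.1 c.2)
    (hb : b = bn be c.2 c.1) :
    Inv R n T Mn be cs
      (up eN c.1 (PatT.nb R (Nat.mul (T c.1) (T c.2)) a b) c.2
        (PatT.nb R (Nat.mul (T c.1) (T c.2)) b a))
      (up o c.1 a c.2 b) (up q c.1 b c.2 a)
      (dn rm c.1 (nmC R (Nat.mul (T c.1) (T c.2))) c.2 (nmC R (Nat.mul (T c.1) (T c.2))))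
      (dn cp c.1 (cmx R (Nat.mul (T c.1) (T c.2))) c.2 (cmx R (Nat.mul (T c.1) (T c.2))))
      (st2 P c.1 c.2 a b) (st2 W c.1 c.2 (wC R T c.1 c.2 a b) (wC R T c.1 c.2 a b)) := by
  refine ⟨hI.base.step ha hb, fun z hz => ?_, fun z hz =>
    dn_step (f := fun z y => cmx R (T z * T y)) (fun x y => by rw [mul_comm]) (hI.i7 z hz)⟩
  have h1 := hI.i6 z hz
  rw [rs_cons] at h1
  rw [up_eq]
  obtain ⟨hc1, hc2⟩ := hI.base.lt c List.mem_cons_self
  by_cases h2 : z = c.1
  · subst h2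
    rw [if_pos rfl] at h1 ⊢
    rw [ha]
    omega
  · rw [if_neg (fun h3 => h2 h3.symm)] at h1
    rw [if_neg h2]
    by_cases h3 : z = c.2
    · subst h3
      rw [if_pos rfl] at h1 ⊢
      rw [hb]
      omega
    · rw [if_neg (fun h4 => h3 h4.symm)] at h1
      rw [if_neg h3]
      omega

/-- **the search fails** -/
theorem dfs_false (H : ItC (R : ℤ) n t s h e E U ho vl kp ms mr mu Nb Nx be ls pc ar aT NN FF pw nu)
    (L : LvI (R : ℤ) n t s h e U ho vl kp ms mr mn mu be pc ar)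
    (hE : ∀ i < n, ∀ q : ℤ, 0 ≤ q → 2 * e i + mu i * (mu i + 1)
      + 2 * (q * (mu i - ∑ j ∈ (range n).erase i, be i j))
      ≤ 2 * (mu i * h i) + ∑ j ∈ (range n).erase i, NN i j + ((n : ℤ) - 1) * (q * (q + 1)))
    (hT : ∀ i < n, (T i : ℤ) = t i) (hH : ∀ i < n, (Hn i : ℤ) = h i)
    (hM : ∀ i < n, (Mn i : ℤ) = mu i) (hg : T 0 * T 1 + 10 ≤ 2 * R) :
    ∀ (cs : List (ℕ × ℕ)) (eN o q rm cp : ℕ → ℕ) (P W : ℕ → ℕ → ℕ),
      Inv R n T Mn be cs eN o q rm cp P W →
      dfs R n T Hn Mn (fun z => bsN (Mn z) (Hn z))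
        (fun z => maxo z z (fun y => kmC R (Nat.mul (T z) (T y))) n) cs eN o q rm cp P W
        = false := by
  intro cs
  induction cs with
  | nil =>
    intro eN o q rm cp P W hI
    exact ndT_false H L hT hH hM hg (hI.node H hE hT hH hM hg)
  | cons c cs ih =>
    intro eN o q rm cp P W hI
    rcases hr : dfs R n T Hn Mn (fun z => bsN (Mn z) (Hn z))
        (fun z => maxo z z (fun y => kmC R (Nat.mul (T z) (T y))) n) (c :: cs) eN o q rm cp P W
      with _ | _
    · rfl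
    exfalso
    set go : ℕ → ℕ → Bool := fun a b => dfs R n T Hn Mn (fun z => bsN (Mn z) (Hn z))
        (fun z => maxo z z (fun y => kmC R (Nat.mul (T z) (T y))) n) cs
        (up eN c.1 (PatT.nb R (Nat.mul (T c.1) (T c.2)) a b) c.2
          (PatT.nb R (Nat.mul (T c.1) (T c.2)) b a))
        (up o c.1 a c.2 b) (up q c.1 b c.2 a)
        (dn rm c.1 (nmC R (Nat.mul (T c.1) (T c.2))) c.2 (nmC R (Nat.mul (T c.1) (T c.2))))
        (dn cp c.1 (cmx R (Nat.mul (T c.1) (T c.2))) c.2 (cmx R (Nat.mul (T c.1) (T c.2))))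
        (st2 P c.1 c.2 a b) (st2 W c.1 c.2 (wC R T c.1 c.2 a b) (wC R T c.1 c.2 a b)) with hgo
    have h1 : ite3 (ndT R n T Hn Mn (eng n Mn (fun z => bsN (Mn z) (Hn z))
        (fun z => maxo z z (fun y => kmC R (Nat.mul (T z) (T y))) n) eN o rm cp) q (pmx o cp) cp P W)
        true
        (ite3 (go 0 0) (ite3 (ite3 (Nat.ble (Mn c.1) (o c.1)) true (go 1 0))
            (ite3 (ite3 (Nat.ble (Mn c.2) (o c.2)) true (go 0 1))
              (ite3 (Nat.ble R (Nat.add (Nat.mul (T c.1) (T c.2)) 4))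
                (ite3 (ite3 (Nat.ble (Mn c.1) (Nat.succ (o c.1))) true (go 2 0))
                  (ite3 (ite3 (Nat.ble (Mn c.2) (Nat.succ (o c.2))) true (go 0 2))
                    (ite3 (Nat.ble (Mn c.1) (o c.1)) true
                      (ite3 (Nat.ble (Mn c.2) (o c.2)) true (go 1 1))) false) false)
                true) false) false) false) = true := hr
    rw [ndT_false H L hT hH hM hg (hI.node H hE hT hH hM hg)] at h1
    obtain ⟨hc1, hc2⟩ := hI.base.lt c List.mem_cons_self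
    have hne : c.1 ≠ c.2 := by omega
    have hcell := (cell H hT hg (show c.1 < n by omega) hc2 hne)
    have hfin : go (bn be c.1 c.2) (bn be c.2 c.1) = false :=
      ih _ _ _ _ _ _ _ (hI.step rfl rfl)
    have ho1 := hI.base.i2 c.1 (by omega)
    have ho2 := hI.base.i2 c.2 hc2
    rw [rs_cons, if_pos rfl] at ho1
    rw [rs_cons, if_neg hne, if_pos rfl] at ho2
    have bf : ∀ {u v : ℕ}, v < u → Nat.ble u v = false := by
      intro u v huv
      rcases hh : Nat.ble u v with _ | _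
      · rfl
      · exact absurd (Nat.le_of_ble_eq_true hh) (by omega)
    have key : ∀ {p r : Bool}, ite3 p r false = true → p = true ∧ r = true := by
      intro p r hpr
      rcases ite3_true hpr with h2 | ⟨-, h2⟩
      · exact h2
      · exact absurd h2 (by simp)
    have h2 : ite3 (go 0 0) (ite3 (ite3 (Nat.ble (Mn c.1) (o c.1)) true (go 1 0))
            (ite3 (ite3 (Nat.ble (Mn c.2) (o c.2)) true (go 0 1))
              (ite3 (Nat.ble R (Nat.add (Nat.mul (T c.1) (T c.2)) 4))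
                (ite3 (ite3 (Nat.ble (Mn c.1) (Nat.succ (o c.1))) true (go 2 0))
                  (ite3 (ite3 (Nat.ble (Mn c.2) (Nat.succ (o c.2))) true (go 0 2))
                    (ite3 (Nat.ble (Mn c.1) (o c.1)) true
                      (ite3 (Nat.ble (Mn c.2) (o c.2)) true (go 1 1))) false) false)
                true) false) false) false = true := h1
    obtain ⟨g00, h2⟩ := key h2
    obtain ⟨g10, h2⟩ := key h2
    obtain ⟨g01, h2⟩ := key h2
    have two : R ≤ T c.1 * T c.2 + 4 →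
        ite3 (Nat.ble (Mn c.1) (Nat.succ (o c.1))) true (go 2 0) = true ∧
        ite3 (Nat.ble (Mn c.2) (Nat.succ (o c.2))) true (go 0 2) = true ∧
        ite3 (Nat.ble (Mn c.1) (o c.1)) true
          (ite3 (Nat.ble (Mn c.2) (o c.2)) true (go 1 1)) = true := by
      intro h3
      have h4 : Nat.ble R (Nat.add (Nat.mul (T c.1) (T c.2)) 4) = true := Nat.ble_eq_true_of_le h3
      rw [h4] at h2
      obtain ⟨g1, h5⟩ := key (show ite3 (ite3 (Nat.ble (Mn c.1) (Nat.succ (o c.1))) true (go 2 0))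
        (ite3 (ite3 (Nat.ble (Mn c.2) (Nat.succ (o c.2))) true (go 0 2))
          (ite3 (Nat.ble (Mn c.1) (o c.1)) true
            (ite3 (Nat.ble (Mn c.2) (o c.2)) true (go 1 1))) false) false = true from h2)
      obtain ⟨g2, g3⟩ := key h5
      exact ⟨g1, g2, g3⟩
    rcases hcell.cases with h3 | ⟨h3, h4⟩ | ⟨h3, h4, h5⟩ | ⟨h3, h4, h5⟩
    · rcases hcell.symm.cases with h4 | ⟨h4, -⟩ | ⟨h4, h5, -⟩ | ⟨h4, -, h5⟩
      · rw [h3, h4, g00] at hfin
        exact absurd hfin (by simp)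
      · rw [h3, h4] at hfin
        rw [bf (show o c.2 < Mn c.2 by omega)] at g01
        have g : go 0 1 = true := g01
        rw [g] at hfin
        exact absurd hfin (by simp)
      · omega
      · rw [h3, h4] at hfin
        obtain ⟨-, g2, -⟩ := two h5
        rw [bf (show Nat.succ (o c.2) < Mn c.2 by omega)] at g2
        have g : go 0 2 = true := g2
        rw [g] at hfin
        exact absurd hfin (by simp)
    · rw [h3, h4] at hfin
      rw [bf (show o c.1 < Mn c.1 by omega)] at g10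
      have g : go 1 0 = true := g10
      rw [g] at hfin
      exact absurd hfin (by simp)
    · rw [h3, h4] at hfin
      obtain ⟨-, -, g3⟩ := two h5
      rw [bf (show o c.1 < Mn c.1 by omega)] at g3
      have g3' : ite3 (Nat.ble (Mn c.2) (o c.2)) true (go 1 1) = true := g3
      rw [bf (show o c.2 < Mn c.2 by omega)] at g3'
      have g : go 1 1 = true := g3'
      rw [g] at hfin
      exact absurd hfin (by simp)
    · rw [h3, h4] at hfin
      obtain ⟨g1, -, -⟩ := two h5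
      rw [bf (show Nat.succ (o c.1) < Mn c.1 by omega)] at g1
      have g : go 2 0 = true := g1
      rw [g] at hfin
      exact absurd hfin (by simp)

/-- the first state -/
lemma Inv.init (H : ItC (R : ℤ) n t s h e E U ho vl kp ms mr mu Nb Nx be ls pc ar aT NN FF pw nu)
    (hM : ∀ i < n, (Mn i : ℤ) = mu i) :
    Inv R n T Mn be (prs n) (fun _ => 0) (fun _ => 0) (fun _ => 0)
      (fun z => sumo z (fun y => nmC R (Nat.mul (T z) (T y))) n)
      (fun z => sumo z (fun y => cmx R (Nat.mul (T z) (T y))) n) (fun _ _ => 0)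
      (fun _ _ => 0) := by
  refine ⟨PatT.Inv.init H hM, fun z hz => ?_, fun z hz => ?_⟩
  · rw [rs_prs _ hz, zero_add]
  · rw [rs_prs _ hz, sumo_eq]
    rfl

end Search

end PatX

/-- **the leaf with the energy of Turan**, as a test of the world -/
theorem false_of_patX {ι : Type*} {R n : ℕ} {t s h e : ℕ → ℤ} {E : ℕ → ℕ → ℤ} {U : Finset ι}
    {ho : ι → ℕ} {vl : ι → ℤ} {kp ms mr mn : ℕ → ι → ℤ} {mu Nb : ℕ → ℤ} {Nx : ℕ → ℕ → ℤ}
    {be : ℕ → ℕ → ℤ} {ls : ℕ → ℤ → ℤ} {pc ar : ι → ℤ} {aT : ℕ → ℤ} {NN FF pw : ℕ → ℕ → ℤ}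
    {nu : ℕ → ι → ℤ}
    (H : ItC (R : ℤ) n t s h e E U ho vl kp ms mr mu Nb Nx be ls pc ar aT NN FF pw nu)
    (L : LvI (R : ℤ) n t s h e U ho vl kp ms mr mn mu be pc ar)
    (hE : ∀ i < n, ∀ q : ℤ, 0 ≤ q → 2 * e i + mu i * (mu i + 1)
      + 2 * (q * (mu i - ∑ j ∈ (range n).erase i, be i j))
      ≤ 2 * (mu i * h i) + ∑ j ∈ (range n).erase i, NN i j + ((n : ℤ) - 1) * (q * (q + 1)))
    {cs : List (ℕ × ℕ)} (hcs : cs = PatT.prs n) (x : ℕ → ℕ × ℕ × ℕ)
    (hx : ∀ i < n, ((x i).1 : ℤ) = t i ∧ ((x i).2.1 : ℤ) = h i ∧ ((x i).2.2 : ℤ) = mu i)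
    (hl : PatX.patX R n cs ((List.range n).map x) = true) : False := by
  have hT : ∀ i < n, (PatT.gt 0 (fun a : ℕ × ℕ × ℕ => a.1) ((List.range n).map x) i : ℤ) = t i :=
    fun i hi => by
      rw [PatT.gt_range 0 _ x hi]
      exact (hx i hi).1
  have hH : ∀ i < n, (PatT.gt 0 (fun a : ℕ × ℕ × ℕ => a.2.1) ((List.range n).map x) i : ℤ) = h i :=
    fun i hi => by
      rw [PatT.gt_range 0 _ x hi]
      exact (hx i hi).2.1
  have hM : ∀ i < n, (PatT.gt 0 (fun a : ℕ × ℕ × ℕ => a.2.2) ((List.range n).map x) i : ℤ) = mu i :=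
    fun i hi => by
      rw [PatT.gt_range 0 _ x hi]
      exact (hx i hi).2.2
  unfold PatX.patX at hl
  rw [hcs] at hl
  rcases PatT.ite3_true hl with ⟨h1, h2⟩ | ⟨-, h2⟩
  · have h3 := PatX.dfs_false H L hE hT hH hM (Nat.le_of_ble_eq_true h1) (PatT.prs n)
      _ _ _ _ _ _ _ (PatX.Inv.init H hM)
    have h4 := h3.symm.trans h2
    exact absurd h4 (by simp)
  · exact absurd h2 (by simp)

/-- **the leaf**: `cs` the list of the cells -/
theorem leafC_patX {R n : ℕ} {cs : List (ℕ × ℕ)} (hcs : cs = PatT.prs n) :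
    LeafC (R : ℤ) n (PatX.patX R n cs) := by
  intro ι t s h e E U ho vl kp ms mr mn mu Nb Nx be ls pc ar aT NN FF pw nu H L x hx hl
  exact false_of_patX H L H.enT hcs x hx hl

end Pool.Agent.Lib.MP_f04ccf_co
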