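import Pool.Agent.Lib.MP_f04ccf_co.M.FinQ
import Pool.Agent.Lib.MP_f04ccf_co.M.PatX

/-!
MP_f04ccf_co, PLAN W, finite part: the leaf `Le.ld4 || PatX.patX` with the literal list of the cells.
-/

set_option autoImplicit false

namespace Pool.Agent.Lib.MP_f04ccf_co

namespace FinK

/-- the cells of 5 rows -/
def cl5 : List (ℕ × ℕ) :=
  [(0, 1), (0, 2), (0, 3), (0, 4), (1, 2), (1, 3), (1, 4), (2, 3), (2, 4), (3, 4)]

lemma cl5_eq : cl5 = PatT.prs 5 := by decide +kernel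

/-- the cells of 6 rows -/
def cl6 : List (ℕ × ℕ) :=
  [(0, 1), (0, 2), (0, 3), (0, 4), (0, 5), (1, 2), (1, 3), (1, 4), (1, 5), (2, 3), (2, 4),
    (2, 5), (3, 4), (3, 5), (4, 5)]

lemma cl6_eq : cl6 = PatT.prs 6 := by decide +kernel

/-- the cells of 7 rows -/
def cl7 : List (ℕ × ℕ) :=
  [(0, 1), (0, 2), (0, 3), (0, 4), (0, 5), (0, 6), (1, 2), (1, 3), (1, 4), (1, 5), (1, 6),
    (2, 3), (2, 4), (2, 5), (2, 6), (3, 4), (3, 5), (3, 6), (4, 5), (4, 6), (5, 6)]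

lemma cl7_eq : cl7 = PatT.prs 7 := by decide +kernel

/-- the cells of 8 rows -/
def cl8 : List (ℕ × ℕ) :=
  [(0, 1), (0, 2), (0, 3), (0, 4), (0, 5), (0, 6), (0, 7), (1, 2), (1, 3), (1, 4), (1, 5),
    (1, 6), (1, 7), (2, 3), (2, 4), (2, 5), (2, 6), (2, 7), (3, 4), (3, 5), (3, 6), (3, 7),
    (4, 5), (4, 6), (4, 7), (5, 6), (5, 7), (6, 7)]

lemma cl8_eq : cl8 = PatT.prs 8 := by decide +kernel

end FinK

/-- **the loads or the pattern search with the Turan energy** -/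
theorem NoItC.of_lx {R K n : ℕ} {cs : List (ℕ × ℕ)} (hR : 2 ≤ R) (n5 : 5 ≤ n)
    (hcs : cs = PatT.prs n)
    (h : PartC (R : ℤ) K n fun l => Le.ld4 R n l || PatX.patX R n cs l) : NoItC (R : ℤ) K n :=
  h.noItC ((leafC_ld4 hR n5).or (leafC_patX hcs))

end Pool.Agent.Lib.MP_f04ccf_co
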