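import Pool.Agent.Lib.MP_f04ccf_co.M.ItCc
import Pool.Agent.Lib.MP_f04ccf_co.M.FinE

/-!
MP_f04ccf_co, PLAN W, finite part: the star worlds as a leaf of the enumeration (`leafC_star`): five rows,
`R = 9 .. 12`, all rows besides the first with `t = 0` and at most one double.
-/

set_option autoImplicit false

namespace Pool.Agent.Lib.MP_f04ccf_co

open Finset

attribute [local instance] Classical.propDecidable

section StarL

variable {ι : Type*} {R : ℤ} {n : ℕ} {t s h e : ℕ → ℤ} {E : ℕ → ℕ → ℤ} {U : Finset ι}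
  {ho : ι → ℕ} {vl : ι → ℤ} {kp ms mr : ℕ → ι → ℤ} {mu Nb : ℕ → ℤ} {Nx : ℕ → ℕ → ℤ}
  {be : ℕ → ℕ → ℤ} {ls : ℕ → ℤ → ℤ} {pc ar : ι → ℤ} {aT : ℕ → ℤ} {NN FF pw : ℕ → ℕ → ℤ}
  {nu : ℕ → ι → ℤ}

/-- the excess of a cell with `t t' = 0` -/
theorem ItC.cell0 (H : ItC R n t s h e E U ho vl kp ms mr mu Nb Nx be ls pc ar aT NN FF pw nu)
    (hR : 5 ≤ R) {i j : ℕ} (hi : i < n) (hj : j < n) (hij : i ≠ j) (ht : t i * t j = 0) :
    NN i j ≤ 4 * min (be i j) 1 := by
  have h0 := H.be0 i hi j hj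
  have h0' := H.be0 j hj i hi
  have h1 : be i j + be j i ≤ 1 := by
    by_contra hcon
    have := H.pc2 hi hj hij (by omega)
    rw [ht] at this
    linarith
  rcases (by omega : be i j = 0 ∨ be i j = 1) with h2 | h2
  · rw [H.NNz i hi j hj h2, h2]
    norm_num
  · obtain ⟨-, f, f0, f1, f2, -⟩ := H.nb10 hi hj hij h2 (by omega)
    rw [ht] at f2
    have f3 : f ≤ 1 := by nlinarith
    rw [h2]
    have : min (1 : ℤ) 1 = 1 := min_self 1
    rw [this]
    linarith

/-- **no star worlds** -/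
theorem ItC.noStar (H : ItC R n t s h e E U ho vl kp ms mr mu Nb Nx be ls pc ar aT NN FF pw nu)
    (hn : n = 5) (h9 : 9 ≤ R) (h12 : R ≤ 12) {i : ℕ} (hi : i < n)
    (ht : ∀ j < n, j ≠ i → t j = 0 ∧ h j ≤ 1)
    (hE : 2 * (mu i * h i) + 2 * R * (t i + 1) ≤ 2 * (R * h i) + 2 * csZ R + mu i * (mu i + 1)) :
    False := by
  have hst := H.star hn h9 h12 i hi (by
    intro j hj hji
    obtain ⟨h1, h2⟩ := ht j hj hji
    refine ⟨h1, ?_⟩
    have h3 := H.hh j hj
    have h4 := H.h0 j hj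
    rw [h1] at h3
    rcases (by omega : h j = 0 ∨ h j = 1) with h5 | h5
    · left
      omega
    · right
      have h6 : s j = 0 := by omega
      refine ⟨h6, ?_⟩
      have h7 := H.mup j hj (by omega)
      have h8 := H.muh j hj
      have h9 : mu j = 1 := by omega
      have h10 := H.enC hj
      rw [h9, h5] at h10
      have h11 : ∑ l ∈ (range n).erase j, NN j l ≤ ∑ l ∈ (range n).erase j, 4 * be j l := by
        refine sum_le_sum fun l hl => ?_
        obtain ⟨hlj, hl'⟩ := mem_erase.1 hl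
        have hln := mem_range.1 hl'
        refine (H.cell0 (by linarith) hj hln hlj.symm (by rw [h1]; ring)).trans ?_
        have := min_le_left (be j l) 1
        linarith
      rw [← mul_sum] at h11
      have h12 := H.bem j hj
      rw [h9] at h12
      linarith)
  have h1 := H.enC hi
  have h2 : ∑ j ∈ (range n).erase i, NN i j ≤ ∑ j ∈ (range n).erase i, 4 * min (be i j) 1 := by
    refine sum_le_sum fun j hj => ?_
    obtain ⟨hji, hj'⟩ := mem_erase.1 hj
    have hjn := mem_range.1 hj'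
    exact H.cell0 (by linarith) hi hjn hji.symm (by rw [(ht j hjn hji).1]; ring)
  rw [← mul_sum] at h2
  have h3 := H.hh i hi
  have h4 : R * h i = R * t i + R * s i + R := by rw [h3]; ring
  nlinarith

end StarL

/-- the slack over the naturals -/
def csN : ℕ → ℕ
  | 9 => 0
  | 10 => 5
  | 11 => 11
  | _ => 8

lemma csN_csZ {R : ℕ} (h9 : 9 ≤ R) (h12 : R ≤ 12) : (csN R : ℤ) = csZ R := by
  rcases (by omega : R = 9 ∨ R = 10 ∨ R = 11 ∨ R = 12) with rfl | rfl | rfl | rfl <;>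
    norm_num [csN, csZ]

/-- the test of the star worlds, rows `(t, h, mu)` -/
def starT (R : ℕ) : List (ℕ × ℕ × ℕ) → Bool
  | [] => false
  | x :: l => (l.all fun y => Nat.beq y.1 0 && Nat.ble y.2.1 1) &&
      Nat.ble (2 * (x.2.2 * x.2.1) + 2 * R * (x.1 + 1))
        (2 * (R * x.2.1) + 2 * csN R + x.2.2 * (x.2.2 + 1))

/-- **the star worlds are a leaf** -/
theorem leafC_star {R : ℕ} (h9 : 9 ≤ R) (h12 : R ≤ 12) : LeafC (R : ℤ) 5 (starT R) := by
  intro ι t s h e E U ho vl kp ms mr mn mu Nb Nx be ls pc ar aT NN FF pw nu H _ x hx hT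
  have hl : (List.range 5).map x = [x 0, x 1, x 2, x 3, x 4] := rfl
  rw [hl, starT, Bool.and_eq_true, List.all_eq_true] at hT
  obtain ⟨hT1, hT2⟩ := hT
  have hT2' := Nat.le_of_ble_eq_true hT2
  have hrow : ∀ j < 5, j ≠ 0 → t j = 0 ∧ h j ≤ 1 := by
    intro j hj hj0
    have h1 : x j ∈ [x 1, x 2, x 3, x 4] := by
      interval_cases j <;> simp_all
    have h2 := hT1 _ h1
    rw [Bool.and_eq_true] at h2
    have h3 := Nat.eq_of_beq_eq_true h2.1
    have h4 := Nat.le_of_ble_eq_true h2.2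
    obtain ⟨a1, a2, -⟩ := hx j hj
    omega
  obtain ⟨a1, a2, a3⟩ := hx 0 (by norm_num)
  refine H.noStar rfl (by exact_mod_cast h9) (by exact_mod_cast h12) (i := 0) (by norm_num)
    hrow ?_
  have h5 : ((2 * ((x 0).2.2 * (x 0).2.1) + 2 * R * ((x 0).1 + 1) : ℕ) : ℤ)
      ≤ ((2 * (R * (x 0).2.1) + 2 * csN R + (x 0).2.2 * ((x 0).2.2 + 1) : ℕ) : ℤ) :=
    Nat.cast_le.2 hT2'
  push_cast at h5
  rw [a1, a2, a3, csN_csZ h9 h12] at h5
  exact h5

end Pool.Agent.Lib.MP_f04ccf_co
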