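import Pool.Agent.Lib.MP_f04ccf_co.M.FinX
import Pool.Agent.Lib.MP_f04ccf_co.M.StarL

/-!
MP_f04ccf_co, PLAN W, finite part: the leaf `Le.ld4 || PatX.patX || starT`.
-/

set_option autoImplicit false

namespace Pool.Agent.Lib.MP_f04ccf_co

/-- **the loads, the pattern search or the star worlds** -/
theorem NoItC.of_ls {R K : ℕ} (h9 : 9 ≤ R) (h12 : R ≤ 12)
    (h : PartC (R : ℤ) K 5 fun l => (Le.ld4 R 5 l || PatX.patX R 5 FinK.cl5 l) || starT R l) :
    NoItC (R : ℤ) K 5 :=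
  h.noItC (((leafC_ld4 (by omega) le_rfl).or (leafC_patX FinK.cl5_eq)).or
    (leafC_star h9 h12))

end Pool.Agent.Lib.MP_f04ccf_co
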