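import Pool.Agent.Lib.MP_f04ccf_co.M.FrN
import Pool.Agent.Lib.MP_f04ccf_co.M.HubD

/-!
MP_f04ccf_co, TEXT D, regime L, **the frame without splitting** (every hosted half pays in its main cell, 25's `π = 1`).

* `flPhi1`: what the row pays in the cell `y`; `flPhi_one`: it is `flPhi` with no split half;
* `LevC.frame1`: the cell claims `flPhi1 ≤ al x + ga nn + ze mm + X`; `LevC.frameF1`: **`(R - A) flPhi1 ≤ T x`**;
* `RowQg R fr fc Q`: the row claim for the rows with `Q A d`; `rowCLg_of_cover`: two kinds of rows are enough;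
* `CelQg`: the cell claim F1 for the rows with `Q A d`; `rowQ_of_cel`.
-/

set_option autoImplicit false

namespace Pool.Agent.Lib.MP_f04ccf_co

open Finset

attribute [local instance] Classical.propDecidable

section FrG

variable {ι : Type*} {R : ℤ} {n : ℕ} {t s mu : ℕ → ℤ} {U : Finset ι} {ho : ι → ℕ} {vl : ι → ℤ}
  {kp mn : ℕ → ι → ℤ} {pc ar : ι → ℤ} {be kq NN sg : ℕ → ℕ → ℤ} {nu : ℕ → ι → ℤ} {z y : ℕ}
  {g : ℕ → ι → ℕ} {f : ι → ℕ} {fr fc : ℤ → ℝ} {J : Finset ℕ}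

/-- **what the row pays in the cell `y`**, hosted halves pay in the main cell only -/
noncomputable def flPhi1 (R : ℤ) (t : ℕ → ℤ) (U : Finset ι) (ho : ι → ℕ) (vl : ι → ℤ)
    (kp mn : ℕ → ι → ℤ) (pc : ι → ℤ) (be : ℕ → ℕ → ℤ) (g : ℕ → ι → ℕ) (f : ι → ℕ)
    (fr fc : ℤ → ℝ) (z y : ℕ) : ℝ :=
  csS ((t z : ℝ) + 1) ((t y : ℝ) + 1) * (rnE U ho vl pc be g z y : ℝ)
    + (1 - csS ((t z : ℝ) + 1) ((t y : ℝ) + 1))
      * (fr (t y + 1) / (R : ℝ) * ∑ u ∈ vHH U ho vl kp pc g f z y, (mn y u : ℝ)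
        + fc (t y + 1) / (R : ℝ) * ∑ u ∈ vHC U ho vl pc g z y, (msP kp mn y (g y) u : ℝ))
    - csS ((t z : ℝ) + 1) ((t y : ℝ) + 1)
      * (fr (t z + 1) / (R : ℝ) * ∑ u ∈ vS1 U ho vl kp pc g f z y, (mn z u : ℝ)
        + fc (t z + 1) / (R : ℝ) * ∑ u ∈ vSC U ho vl pc g z y, (msP kp mn z (g z) u : ℝ))

lemma flM_false {sp : ι → Prop} (h : ∀ u, ¬ sp u) (U : Finset ι) (ho : ι → ℕ) (vl : ι → ℤ)
    (kp : ℕ → ι → ℤ) (pc : ι → ℤ) (g : ℕ → ι → ℕ) (f : ι → ℕ) (z y : ℕ) :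
    flM U ho vl kp pc g f sp z y = ∅ := by
  unfold flM
  exact filter_eq_empty_iff.2 fun u _ => h u

lemma flO_false {sp : ι → Prop} (h : ∀ u, ¬ sp u) (U : Finset ι) (ho : ι → ℕ) (vl : ι → ℤ)
    (kp : ℕ → ι → ℤ) (pc : ι → ℤ) (g : ℕ → ι → ℕ) (f : ι → ℕ) (z y : ℕ) :
    flO U ho vl kp pc g f sp z y = vHH U ho vl kp pc g f z y := by
  unfold flO
  exact filter_true_of_mem fun u _ => h u

lemma flC_false {sp : ι → Prop} (h : ∀ u, ¬ sp u) (U : Finset ι) (ho : ι → ℕ) (vl : ι → ℤ)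
    (kp : ℕ → ι → ℤ) (pc : ι → ℤ) (g : ℕ → ι → ℕ) (f : ι → ℕ) (J : Finset ℕ) (z y : ℕ) :
    flC U ho vl kp pc g f sp J z y = ∅ := by
  unfold flC
  refine eq_empty_of_forall_notMem fun u hu => ?_
  obtain ⟨m, -, h1⟩ := mem_biUnion.1 hu
  rw [flM_false h, filter_empty] at h1
  exact absurd h1 (notMem_empty u)

lemma flPhi_one {sp : ι → Prop} (h : ∀ u, ¬ sp u) (R : ℤ) (t : ℕ → ℤ) (U : Finset ι)
    (ho : ι → ℕ) (vl : ι → ℤ) (kp mn : ℕ → ι → ℤ) (pc : ι → ℤ) (be : ℕ → ℕ → ℤ)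
    (g : ℕ → ι → ℕ) (f : ι → ℕ) (fr fc : ℤ → ℝ) (PM PC : ℕ → ι → ℝ) (J : Finset ℕ) (z y : ℕ) :
    flPhi R t U ho vl kp mn pc be g f fr fc sp PM PC J z y
      = flPhi1 R t U ho vl kp mn pc be g f fr fc z y := by
  unfold flPhi flPhi1
  rw [flM_false h, flO_false h, flC_false h, sum_empty, sum_empty, card_empty, Nat.cast_zero]
  ring

/-- **THE FRAME WITHOUT SPLITTING** -/
theorem LevC.frame1 (Lv : LevC n U ho vl kp mn pc (fun u i => mn i u) g f)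
    (H : PConC R n t s mu U ho vl kp mn pc ar be kq NN sg nu) (hz : z < n)
    (hJ : J ⊆ (range n).erase z) {al ga ze N0 Hm X0 T : ℝ} {nn mm X : ℕ → ℝ} (hal : 0 ≤ al)
    (hga : 0 ≤ ga) (hze : 0 ≤ ze) (hN : ∑ y ∈ J, nn y ≤ N0) (hH : ∑ y ∈ J, mm y ≤ Hm)
    (hX : ∑ y ∈ J, X y ≤ X0)
    (hT : al * ((R : ℝ) - ((t z : ℝ) + 1)) + ga * N0 + ze * Hm + X0 ≤ T)
    (cell : ∀ y ∈ J, flPhi1 R t U ho vl kp mn pc be g f fr fc z y
      ≤ al * ((t y : ℝ) + 1) + ga * nn y + ze * mm y + X y) :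
    ∑ y ∈ J,
        (((t y : ℝ) + 1) / ((t z : ℝ) + 1 + ((t y : ℝ) + 1)) * (rnE U ho vl pc be g z y : ℝ)
        + ((1 - ((t y : ℝ) + 1) / ((t z : ℝ) + 1 + ((t y : ℝ) + 1)))
            * rnHl n U ho g (thLg R t vl kp mn g fr fc) z y
          - ((t y : ℝ) + 1) / ((t z : ℝ) + 1 + ((t y : ℝ) + 1))
            * rnSl n U ho g (thLg R t vl kp mn g fr fc) z y)) ≤ T := by
  refine Lv.frame H hz hJ (sp := fun _ => False) (PM := fun _ _ => 0) (PC := fun _ _ => 0)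
    (fun y _ u hu => ?_) (fun _ => 0) hal hga hze hN hH hX hT fun y hy => ?_
  · rw [flM_false fun _ h => h] at hu
    exact absurd hu (notMem_empty u)
  · rw [flPhi_one fun _ h => h, flM_false fun _ h => h, flC_false fun _ h => h, sum_empty]
    have := cell y hy
    linarith

/-- **THE FRAME F1**: `(R - A) φ ≤ T x` in every cell -/
theorem LevC.frameF1 (Lv : LevC n U ho vl kp mn pc (fun u i => mn i u) g f)
    (H : PConC R n t s mu U ho vl kp mn pc ar be kq NN sg nu) (hz : z < n)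
    (hJ : J ⊆ (range n).erase z) {T : ℝ} (hT : 0 ≤ T) (hc : 0 < (R : ℝ) - ((t z : ℝ) + 1))
    (cell : ∀ y ∈ J, ((R : ℝ) - ((t z : ℝ) + 1)) * flPhi1 R t U ho vl kp mn pc be g f fr fc z y
      ≤ T * ((t y : ℝ) + 1)) :
    ∑ y ∈ J,
        (((t y : ℝ) + 1) / ((t z : ℝ) + 1 + ((t y : ℝ) + 1)) * (rnE U ho vl pc be g z y : ℝ)
        + ((1 - ((t y : ℝ) + 1) / ((t z : ℝ) + 1 + ((t y : ℝ) + 1)))
            * rnHl n U ho g (thLg R t vl kp mn g fr fc) z y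
          - ((t y : ℝ) + 1) / ((t z : ℝ) + 1 + ((t y : ℝ) + 1))
            * rnSl n U ho g (thLg R t vl kp mn g fr fc) z y)) ≤ T := by
  refine Lv.frame1 H hz hJ (al := T / ((R : ℝ) - ((t z : ℝ) + 1))) (ga := 0) (ze := 0)
    (N0 := 0) (Hm := 0) (X0 := 0) (nn := fun _ => 0) (mm := fun _ => 0) (X := fun _ => 0)
    (div_nonneg hT hc.le) le_rfl le_rfl (by simp) (by simp) (by simp)
    (by rw [div_mul_cancel₀ _ hc.ne']; linarith) fun y hy => ?_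
  have h1 := cell y hy
  have h2 : flPhi1 R t U ho vl kp mn pc be g f fr fc z y
      ≤ T * ((t y : ℝ) + 1) / ((R : ℝ) - ((t z : ℝ) + 1)) := by
    rw [le_div_iff₀ hc]
    linarith
  have e1 : T / ((R : ℝ) - ((t z : ℝ) + 1)) * ((t y : ℝ) + 1)
      = T * ((t y : ℝ) + 1) / ((R : ℝ) - ((t z : ℝ) + 1)) := by ring
  rw [e1]
  linarith

end FrG

/-- **the row claim for the rows with `Q A d`**, `A = t z + 1`, `d = mu z - s z` -/
def RowQg (R : ℤ) (fr fc : ℤ → ℝ) (Q : ℤ → ℤ → Prop) : Prop :=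
  ∀ (ι : Type) (n : ℕ) (t s mu : ℕ → ℤ) (U : Finset ι) (ho : ι → ℕ) (vl : ι → ℤ)
    (kp mn : ℕ → ι → ℤ) (pc ar : ι → ℤ) (be kq NN sg : ℕ → ℕ → ℤ) (nu : ℕ → ι → ℤ)
    (g : ℕ → ι → ℕ) (f : ι → ℕ) (L : Finset ℕ) (z : ℕ),
    PConC R n t s mu U ho vl kp mn pc ar be kq NN sg nu → (∀ i < n, 2 * (t i + 1) ≤ R) →
    LevC n U ho vl kp mn pc (fun u i => mn i u) g f → z < n → z ∉ L →
    (∀ y < n, y ∉ L → R ≤ 2 * (t y + 1) ^ 3) → 3 * R < 40 * (t z + 1) →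
    mu z - s z + 1 ≤ ∑ y ∈ (range n).erase z, rnE U ho vl pc be g z y →
    Q (t z + 1) (mu z - s z) →
    ∑ y ∈ ((range n).erase z).filter (fun y => y ∉ L),
        (((t y : ℝ) + 1) / ((t z : ℝ) + 1 + ((t y : ℝ) + 1)) * (rnE U ho vl pc be g z y : ℝ)
        + ((1 - ((t y : ℝ) + 1) / ((t z : ℝ) + 1 + ((t y : ℝ) + 1)))
            * rnHl n U ho g (thLg R t vl kp mn g fr fc) z y
          - ((t y : ℝ) + 1) / ((t z : ℝ) + 1 + ((t y : ℝ) + 1))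
            * rnSl n U ho g (thLg R t vl kp mn g fr fc) z y))
      ≤ (mu z : ℝ) - s z + ((t z : ℝ) + 1) / ((R : ℝ) + 1)

/-- **the cell claim F1 for the rows with `Q A d`**: `(R - A) φ ≤ T x` -/
def CelQg (R : ℤ) (fr fc : ℤ → ℝ) (Q : ℤ → ℤ → Prop) : Prop :=
  ∀ (ι : Type) (n : ℕ) (t s mu : ℕ → ℤ) (U : Finset ι) (ho : ι → ℕ) (vl : ι → ℤ)
    (kp mn : ℕ → ι → ℤ) (pc ar : ι → ℤ) (be kq NN sg : ℕ → ℕ → ℤ) (nu : ℕ → ι → ℤ)
    (g : ℕ → ι → ℕ) (f : ι → ℕ) (L : Finset ℕ) (z : ℕ),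
    PConC R n t s mu U ho vl kp mn pc ar be kq NN sg nu → (∀ i < n, 2 * (t i + 1) ≤ R) →
    LevC n U ho vl kp mn pc (fun u i => mn i u) g f → z < n → z ∉ L →
    (∀ y < n, y ∉ L → R ≤ 2 * (t y + 1) ^ 3) → 3 * R < 40 * (t z + 1) →
    mu z - s z + 1 ≤ ∑ y ∈ (range n).erase z, rnE U ho vl pc be g z y →
    Q (t z + 1) (mu z - s z) →
    ∀ y ∈ (range n).erase z, y ∉ L →
      ((R : ℝ) - ((t z : ℝ) + 1)) * flPhi1 R t U ho vl kp mn pc be g f fr fc z y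
        ≤ ((mu z : ℝ) - s z + ((t z : ℝ) + 1) / ((R : ℝ) + 1)) * ((t y : ℝ) + 1)

/-- two kinds of rows -/
theorem rowCLg_of_cover {R : ℤ} {fr fc : ℤ → ℝ} {P Q : ℤ → ℤ → Prop}
    (h : ∀ A d : ℤ, 3 * R < 40 * A → 2 * A ≤ R → 0 ≤ d → P A d ∨ Q A d)
    (hP : RowQg R fr fc P) (hQ : RowQg R fr fc Q) : RowCLg R fr fc := by
  intro ι n t s mu U ho vl kp mn pc ar be kq NN sg nu g f L z H hA Lv hz hzL hL h3 he
  have hd : 0 ≤ mu z - s z := H.toPCon.d_nonneg hz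
  rcases h (t z + 1) (mu z - s z) h3 (hA z hz) hd with h4 | h4
  · exact hP ι n t s mu U ho vl kp mn pc ar be kq NN sg nu g f L z H hA Lv hz hzL hL h3 he h4
  · exact hQ ι n t s mu U ho vl kp mn pc ar be kq NN sg nu g f L z H hA Lv hz hzL hL h3 he h4

/-- more rows -/
theorem RowQg.mono {R : ℤ} {fr fc : ℤ → ℝ} {P Q : ℤ → ℤ → Prop} (hP : RowQg R fr fc P)
    (h : ∀ A d, Q A d → P A d) : RowQg R fr fc Q := by
  intro ι n t s mu U ho vl kp mn pc ar be kq NN sg nu g f L z H hA Lv hz hzL hL h3 he h4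
  exact hP ι n t s mu U ho vl kp mn pc ar be kq NN sg nu g f L z H hA Lv hz hzL hL h3 he (h _ _ h4)

/-- the union of two kinds of rows -/
theorem RowQg.or {R : ℤ} {fr fc : ℤ → ℝ} {P Q : ℤ → ℤ → Prop} (hP : RowQg R fr fc P)
    (hQ : RowQg R fr fc Q) : RowQg R fr fc fun A d => P A d ∨ Q A d := by
  intro ι n t s mu U ho vl kp mn pc ar be kq NN sg nu g f L z H hA Lv hz hzL hL h3 he h4
  rcases h4 with h4 | h4
  · exact hP ι n t s mu U ho vl kp mn pc ar be kq NN sg nu g f L z H hA Lv hz hzL hL h3 he h4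
  · exact hQ ι n t s mu U ho vl kp mn pc ar be kq NN sg nu g f L z H hA Lv hz hzL hL h3 he h4

/-- more rows -/
theorem CelQg.mono {R : ℤ} {fr fc : ℤ → ℝ} {P Q : ℤ → ℤ → Prop} (hP : CelQg R fr fc P)
    (h : ∀ A d, Q A d → P A d) : CelQg R fr fc Q := by
  intro ι n t s mu U ho vl kp mn pc ar be kq NN sg nu g f L z H hA Lv hz hzL hL h3 he h4
  exact hP ι n t s mu U ho vl kp mn pc ar be kq NN sg nu g f L z H hA Lv hz hzL hL h3 he (h _ _ h4)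

/-- the union of two kinds of rows -/
theorem CelQg.or {R : ℤ} {fr fc : ℤ → ℝ} {P Q : ℤ → ℤ → Prop} (hP : CelQg R fr fc P)
    (hQ : CelQg R fr fc Q) : CelQg R fr fc fun A d => P A d ∨ Q A d := by
  intro ι n t s mu U ho vl kp mn pc ar be kq NN sg nu g f L z H hA Lv hz hzL hL h3 he h4
  rcases h4 with h4 | h4
  · exact hP ι n t s mu U ho vl kp mn pc ar be kq NN sg nu g f L z H hA Lv hz hzL hL h3 he h4
  · exact hQ ι n t s mu U ho vl kp mn pc ar be kq NN sg nu g f L z H hA Lv hz hzL hL h3 he h4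

/-- **the cell claims F1 give the row claims** -/
theorem rowQ_of_cel {R : ℤ} {fr fc : ℤ → ℝ} {Q : ℤ → ℤ → Prop} (hR : 3 ≤ R)
    (hC : CelQg R fr fc Q) : RowQg R fr fc Q := by
  intro ι n t s mu U ho vl kp mn pc ar be kq NN sg nu g f L z H hA Lv hz hzL hL h3 he h4
  have hd : 0 ≤ mu z - s z := H.toPCon.d_nonneg hz
  have hd' : (0 : ℝ) ≤ (mu z : ℝ) - s z := by exact_mod_cast hd
  have ht : (0 : ℝ) ≤ (t z : ℝ) := by exact_mod_cast H.t0 z hz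
  have hA' : (2 : ℝ) * ((t z : ℝ) + 1) ≤ R := by exact_mod_cast hA z hz
  have hR' : (3 : ℝ) ≤ R := by exact_mod_cast hR
  refine Lv.frameF1 H hz (filter_subset _ _) (by positivity) (by linarith) fun y hy => ?_
  obtain ⟨h5, h6⟩ := mem_filter.1 hy
  exact hC ι n t s mu U ho vl kp mn pc ar be kq NN sg nu g f L z H hA Lv hz hzL hL h3 he h4 y h5 h6

end Pool.Agent.Lib.MP_f04ccf_co
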