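import Pool.Agent.Lib.MP_f04ccf_co.M.RowLA

/-!
MP_f04ccf_co, TEXT D, regime L: **light rows, all types** (`tzN` at every size, `d ≤ A`, the exact row test for the
hosted items only; no columns, no rectangle, no arcs).

* `exists_level`: used pieces of any given number; `LevC.serv_all`: all pieces used at a row;
* `LevC.sub_ten`: `tzN` at every size `q` between the hosted non-Konig value and the number of units;
* `PCon.kept_q`: the hosted non-Konig value is small;
* `LevC.ms_sq`, `LevC.ms72`, `LevC.ms20`: the misses at a main end (`φ = mn`);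
* `LevC.row_s0`: all units of a row against one share `R / (R + 2 A)`; `LevC.sm_facts`, `sm_num75`: numbers;
* `LevC.row_sm75`: the row sum is at most `d` for `40 A ≤ 3 R`, factors `θ ≤ 1 - (7/5) b / R` at the row.
-/

set_option autoImplicit false

namespace Pool.Agent.Lib.MP_f04ccf_co

open Finset

attribute [local instance] Classical.propDecidable

section RowSm

variable {ι : Type*} {R : ℤ} {n : ℕ} {t s mu : ℕ → ℤ} {U : Finset ι} {ho : ι → ℕ} {vl : ι → ℤ}
  {kp mn : ℕ → ι → ℤ} {pc ar : ι → ℤ} {be kq NN sg : ℕ → ℕ → ℤ} {nu : ℕ → ι → ℤ} {z y : ℕ}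
  {φ : ι → ℕ → ℤ} {g : ℕ → ι → ℕ} {f : ι → ℕ}

/-- **used pieces of any given number** -/
lemma exists_level {α : Type*} (g : α → ℕ) : ∀ (N : ℕ) (S : Finset α) (T : ℕ), S.card = N →
    T ≤ ∑ u ∈ S, g u →
    ∃ K ⊆ S, ∃ g' : α → ℕ, (∀ u ∈ K, 1 ≤ g' u ∧ g' u ≤ g u) ∧ ∑ u ∈ K, g' u = T := by
  intro N
  induction N with
  | zero =>
    intro S T hS hT
    have h1 : S = ∅ := card_eq_zero.1 hS
    subst h1
    refine ⟨∅, Subset.refl _, g, fun u hu => absurd hu (notMem_empty u), ?_⟩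
    rw [sum_empty] at hT ⊢
    omega
  | succ N ih =>
    intro S T hS hT
    have hne : S.Nonempty := card_pos.1 (by omega)
    obtain ⟨a, ha⟩ := hne
    have hc : (S.erase a).card = N := by rw [card_erase_of_mem ha]; omega
    have h1 := add_sum_erase S g ha
    rcases Nat.lt_or_ge (∑ u ∈ S.erase a, g u) T with h2 | h2
    · obtain ⟨K, hK, g', hg, hs⟩ := ih (S.erase a) (∑ u ∈ S.erase a, g u) hc le_rfl
      have haK : a ∉ K := fun h => notMem_erase a S (hK h)
      refine ⟨insert a K, ?_, fun u => if u = a then T - ∑ u ∈ S.erase a, g u else g' u, ?_, ?_⟩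
      · exact insert_subset ha (hK.trans (erase_subset _ _))
      · intro u hu
        beta_reduce
        rcases mem_insert.1 hu with h3 | h3
        · rw [if_pos h3, h3]
          omega
        · have h4 : u ≠ a := fun h => haK (h ▸ h3)
          rw [if_neg h4]
          exact hg u h3
      · beta_reduce
        rw [sum_insert haK, if_pos rfl]
        have h3 : ∑ u ∈ K, (if u = a then T - ∑ u ∈ S.erase a, g u else g' u) = ∑ u ∈ K, g' u :=
          sum_congr rfl fun u hu => if_neg fun h : u = a => haK (h ▸ hu)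
        rw [h3, hs]
        omega
    · obtain ⟨K, hK, g', hg, hs⟩ := ih (S.erase a) T hc h2
      exact ⟨K, hK.trans (erase_subset _ _), g', hg, hs⟩

/-- the pieces used at `z` -/
noncomputable def rnS (U : Finset ι) (ho : ι → ℕ) (g : ℕ → ι → ℕ) (z : ℕ) : Finset ι :=
  U.filter fun u => ho u ≠ z ∧ g z u ≠ 0

/-- **all units of a row**: the hosted value and the pieces used -/
theorem LevC.serv_all (C : LevC n U ho vl kp mn pc φ g f)
    (H : PCon R n t s mu U ho vl kp mn pc ar be kq NN sg nu) (hz : z < n) :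
    ∑ y ∈ (range n).erase z, rnE U ho vl pc be g z y = mu z + ∑ u ∈ rnS U ho g z, (g z u : ℤ) := by
  have h1 := C.rn_mu H hz
  have h2 : ∑ u ∈ rnS U ho g z, (g z u : ℤ)
      = ∑ y ∈ (range n).erase z, (be y z + ∑ u ∈ rnK U ho pc g z y, (g z u : ℤ)) := by
    rw [← sum_fiberwise_of_maps_to (t := (range n).erase z) (g := fun u => ho u) fun u hu => ?_]
    · refine sum_congr rfl fun y hy => ?_
      have hyz := ne_of_mem_erase hy
      rw [← C.lev_serv H hz (mem_range.1 (mem_of_mem_erase hy))]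
      have h3 : (rnS U ho g z).filter (fun u => ho u = y)
          = (U.filter fun u => ho u = y).filter fun u => g z u ≠ 0 := by
        unfold rnS
        ext u
        simp only [mem_filter]
        constructor
        · rintro ⟨⟨a, -, b⟩, c⟩
          exact ⟨⟨a, c⟩, b⟩
        · rintro ⟨⟨a, c⟩, b⟩
          exact ⟨⟨a, fun h => hyz (c.symm.trans h), b⟩, c⟩
      rw [h3]
      refine sum_subset (filter_subset _ _) fun u hu hu' => ?_
      by_contra h4
      exact hu' (mem_filter.2 ⟨hu, fun h5 => h4 (by rw [h5]; rfl)⟩)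
    · obtain ⟨h3, h4, -⟩ := mem_filter.1 hu
      exact mem_erase.2 ⟨h4, mem_range.2 (H.hlt u h3)⟩
  rw [h2, h1, ← sum_add_distrib]
  rfl

/-- **`tzN` at every size**: `q` units, `q` at least the hosted non-Konig value, at most all; `w` times the misses
of a piece at its full level at most `v` -/
theorem LevC.sub_ten (C : LevC n U ho vl kp mn pc φ g f)
    (H : PCon R n t s mu U ho vl kp mn pc ar be kq NN sg nu) (hz : z < n) {w v q : ℤ} (hw : 0 < w)
    (hv : 0 ≤ v) (hm : ∀ u ∈ U, ho u ≠ z → w * msP kp mn z (g z) u ≤ v) (hq0 : 0 ≤ q)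
    (hq1 : mu z - ∑ l ∈ range n, kq z l ≤ q)
    (hq2 : q ≤ ∑ y ∈ (range n).erase z, rnE U ho vl pc be g z y) (hq : 2 * q ≤ R) :
    w * ((R - 2 * q) * (q - (mu z - s z))) ≤ (w * (t z + 1) + v) * q := by
  rw [C.serv_all H hz] at hq2
  have hvq := mul_nonneg hv hq0
  rcases le_or_gt q (mu z) with h1 | h1
  · have h2 := H.tK z hz (mu z - q) (by linarith) (by linarith) ∅ (empty_subset _)
      (fun u hu => absurd hu (notMem_empty u)) ∅ (empty_subset _)
      (fun u hu => absurd hu (notMem_empty u)) (g z) (fun u hu => absurd hu (notMem_empty u))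
      (fun u hu => absurd hu (notMem_empty u)) (by
        simp only [sum_empty]
        linarith)
    simp only [sum_empty] at h2
    have h3 : mu z - (mu z - q) - 0 + 0 = q := by ring
    have h4 : s z - (mu z - q) - 0 + 0 = q - (mu z - s z) := by ring
    rw [h3, h4, add_zero] at h2
    have h5 := mul_le_mul_of_nonneg_left h2 hw.le
    nlinarith
  · obtain ⟨T, hT⟩ := Int.eq_ofNat_of_zero_le (show (0 : ℤ) ≤ q - mu z by linarith)
    have hT' : ((T : ℕ) : ℤ) = q - mu z := hT.symm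
    have h2 : T ≤ ∑ u ∈ rnS U ho g z, g z u := by
      have h3 : ((T : ℕ) : ℤ) ≤ ((∑ u ∈ rnS U ho g z, g z u : ℕ) : ℤ) := by
        rw [hT']
        push_cast
        linarith
      exact_mod_cast h3
    obtain ⟨K, hK, g', hg, hs⟩ := exists_level (g z) _ _ T rfl h2
    have hK0 : ∀ u ∈ K, u ∈ U ∧ ho u ≠ z := fun u hu => by
      obtain ⟨h3, h4, -⟩ := mem_filter.1 (hK hu)
      exact ⟨h3, h4⟩
    have hs' : ∑ u ∈ K, (g' u : ℤ) = q - mu z := by
      rw [← hT', ← hs]
      push_cast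
      rfl
    have h3 := H.tN z hz K (fun u hu => (hK0 u hu).1) (fun u hu => (hK0 u hu).2) g'
      (fun u hu => (hg u hu).1) (fun u hu => by
        have h4 := C.le u (hK0 u hu).1 z hz
        have h5 : (g' u : ℤ) ≤ (g z u : ℤ) := by exact_mod_cast (hg u hu).2
        linarith) (by rw [hs']; linarith)
    rw [hs'] at h3
    have h4 : w * ∑ u ∈ K, msP kp mn z g' u ≤ v * (q - mu z) := by
      rw [← hs', mul_sum, mul_sum]
      refine sum_le_sum fun u hu => ?_
      have h5 : (1 : ℤ) ≤ (g' u : ℤ) := by exact_mod_cast (hg u hu).1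
      have h6 := hm u (hK0 u hu).1 (hK0 u hu).2
      have h7 : w * msP kp mn z g' u ≤ v := by
        unfold msP at h6 ⊢
        by_cases h8 : kp z u ≤ (g' u : ℤ)
        · have h9 : (g' u : ℤ) ≤ (g z u : ℤ) := by exact_mod_cast (hg u hu).2
          rw [if_pos (h8.trans h9)] at h6
          rw [if_pos h8]
          exact h6
        · rw [if_neg h8, mul_zero]
          exact hv
      nlinarith
    have hmu := H.mu0 hz
    have h5 : mu z + (q - mu z) = q := by ring
    have h6 : s z + (q - mu z) = q - (mu z - s z) := by ring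
    rw [h5, h6] at h3
    have h7 := mul_le_mul_of_nonneg_left h3 hw.le
    have h8 := mul_nonneg hv hmu
    nlinarith

/-- **the hosted non-Konig value** `M` of a light row: `M (2 R - M - A) ≤ 2 R A` and `M ≤ R` -/
theorem PCon.kept_q (H : PCon R n t s mu U ho vl kp mn pc ar be kq NN sg nu) (hz : z < n)
    (hA : 4 * (t z + 1) ≤ R) (hR : 24 ≤ R) {M : ℤ} (hM : M = mu z - ∑ l ∈ range n, kq z l) :
    0 ≤ M ∧ M ≤ R ∧ M * (2 * R - M - (t z + 1)) ≤ 2 * (R * (t z + 1)) := by
  have ht0 := H.t0 z hz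
  have h1 := H.tT z hz (range n) (Subset.refl _) ∅ (empty_subset _) ∅ (empty_subset _)
    (fun u hu => absurd hu (notMem_empty u)) ∅ (empty_subset _)
    (fun u hu => absurd hu (notMem_empty u)) (fun _ => 0) (fun u hu => absurd hu (notMem_empty u))
    (fun u hu => absurd hu (notMem_empty u))
  have e1 : (range n).erase z \ range n = ∅ := sdiff_eq_empty_iff_subset.2 (erase_subset _ _)
  have e2 : svP n ho vl (∅ : Finset ι) (fun _ => 0) = 0 := by
    unfold svP
    simp
  simp only [sum_empty, sdiff_empty, e1, e2, mul_zero, add_zero, sub_zero] at h1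
  have hbe : ∀ l ∈ range n, 0 ≤ be z l - kq z l ∧ be z l - kq z l ≤ t z + 1 := by
    intro l hl
    have hl' := mem_range.1 hl
    have h2 := H.kqb z hz l hl'
    have h3 := H.kq0 z hz l hl'
    by_cases h4 : l = z
    · subst h4
      have h5 := H.be_self hz
      rw [h5] at h2 ⊢
      constructor <;> linarith
    · have h5 := H.be_le hl' hz h4
      have h6 := H.be0 l hl' z hz
      constructor <;> linarith
  have hsum : ∑ l ∈ range n, (be z l - kq z l) ≤ M := by
    have h2 := H.pc_tails hz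
    have h3 : ∑ l ∈ range n, be z l = ∑ l ∈ (range n).erase z, be z l := by
      have := add_sum_erase (range n) (fun l => be z l) (mem_range.2 hz)
      beta_reduce at this
      rw [H.be_self hz] at this
      linarith
    have h4 : ∑ u ∈ U.filter (fun u => ho u = z), pc u ≤ mu z := by
      rw [H.hmu z hz]
      refine sum_le_sum fun u hu => ?_
      have h5 := (mem_filter.1 hu).1
      have h6 := H.v1 u h5
      rcases H.pc01 u h5 with h7 | h7 <;> rw [h7] <;> linarith
    rw [sum_sub_distrib, h3, ← h2, hM]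
    linarith
  have hN : ∑ l ∈ range n, (be z l - kq z l) * (be z l - kq z l + 1) ≤ (t z + 2) * M := by
    calc ∑ l ∈ range n, (be z l - kq z l) * (be z l - kq z l + 1)
        ≤ ∑ l ∈ range n, (be z l - kq z l) * (t z + 2) :=
          sum_le_sum fun l hl => mul_le_mul_of_nonneg_left (by linarith [(hbe l hl).2]) (hbe l hl).1
      _ = (t z + 2) * ∑ l ∈ range n, (be z l - kq z l) := by rw [← sum_mul, mul_comm]
      _ ≤ (t z + 2) * M := mul_le_mul_of_nonneg_left hsum (by linarith)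
  have hM0 : 0 ≤ M := (sum_nonneg fun l hl => (hbe l hl).1).trans hsum
  have hd0 := H.d_nonneg hz
  have hdA := H.dt z hz
  have hglob := H.glob1 hz
  have hk0 : 0 ≤ ∑ l ∈ range n, kq z l :=
    sum_nonneg fun l hl => H.kq0 z hz l (mem_range.1 hl)
  unfold TstP at h1
  rw [← hM] at h1
  have e3 : s z - ∑ l ∈ range n, kq z l = M - (mu z - s z) := by rw [hM]; ring
  rw [e3] at h1
  have h2 : 2 * ((R - M) * (M - (mu z - s z))) ≤ M * (3 * (t z + 1) - M) := by
    nlinarith
  have hMR : M ≤ R + 1 := by linarith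
  have hMR' : M ≤ R := by
    by_contra hc
    push Not at hc
    have h3 : M = R + 1 := by omega
    rw [h3] at h2
    nlinarith
  refine ⟨hM0, hMR', ?_⟩
  have h3 : (R - M) * (M - (t z + 1)) ≤ (R - M) * (M - (mu z - s z)) :=
    mul_le_mul_of_nonneg_left (by linarith) (by linarith)
  nlinarith

/-- **the misses at a main end** (`φ = mn`) -/
theorem LevC.ms_sq (Lv : LevC n U ho vl kp mn pc (fun u i => mn i u) g f)
    (H : PCon R n t s mu U ho vl kp mn pc ar be kq NN sg nu) {u : ι} (hu : u ∈ U) {i : ℕ}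
    (hi : i < n) {T : ℤ} (hT : ∀ j < n, t j ≤ T) :
    0 ≤ msP kp mn i (g i) u ∧ msP kp mn i (g i) u ^ 2 ≤ R + t i * T := by
  have hti := H.t0 i hi
  have hT0 : 0 ≤ T := hti.trans (hT i hi)
  have hR := R_pos H
  have h0 : (0 : ℤ) ≤ R + t i * T := by
    have := mul_nonneg hti hT0
    linarith
  have hm0 := H.m0 u hu i hi
  unfold msP
  by_cases h1 : kp i u ≤ (g i u : ℤ)
  · rw [if_pos h1]
    refine ⟨hm0, ?_⟩
    by_cases h2 : kp i u = 0
    · rw [H.mnz u hu i hi h2]
      simpa using h0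
    · rcases Lv.typ u hu with ⟨-, -, -, h4, h5⟩ | ⟨-, h4, -, h6⟩
      · by_cases h7 : i = f u
        · rw [h7, h4]
          rw [h7] at h0
          simpa using h0
        · exact absurd (h5 i hi h7) h2
      · have h7 : i ≠ f u := by
          intro h8
          rw [h8] at h1
          linarith
        have h8 := h6 i hi h2
        beta_reduce at h8
        have h9 := H.mpr u hu i hi (f u) (Lv.fn u hu) h7
        have h10 := hT (f u) (Lv.fn u hu)
        have h11 := mul_le_mul_of_nonneg_left h8 hm0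
        have h12 := mul_le_mul_of_nonneg_left h10 hti
        nlinarith
  · rw [if_neg h1]
    exact ⟨le_rfl, by simpa using h0⟩

/-- the misses at a main end, linear bound (`2 A y ≤ R`) -/
theorem LevC.ms72 (Lv : LevC n U ho vl kp mn pc (fun u i => mn i u) g f)
    (H : PCon R n t s mu U ho vl kp mn pc ar be kq NN sg nu) {u : ι} (hu : u ∈ U) {i : ℕ}
    (hi : i < n) (hL : ∀ j < n, 2 * (t j + 1) ≤ R) :
    72 * msP kp mn i (g i) u ≤ 81 * (t i + 1) + 8 * R + 81 := by
  have hR := R_pos H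
  have hti := H.t0 i hi
  obtain ⟨h1, h2⟩ := Lv.ms_sq H hu hi (T := (R - 2) / 2) fun j hj => by
    have := hL j hj
    omega
  have h3 : 2 * ((R - 2) / 2) ≤ R - 2 := Int.mul_ediv_self_le (by norm_num)
  generalize msP kp mn i (g i) u = b at *
  generalize (R - 2) / 2 = T at *
  have h4 := mul_le_mul_of_nonneg_left h3 hti
  have h5 : R * (72 * b) ≤ R * (81 * (t i + 1) + 8 * R + 81) := by
    nlinarith [sq_nonneg (9 * b - 2 * R)]
  exact le_of_mul_le_mul_left h5 hR

theorem LevC.ms20 (Lv : LevC n U ho vl kp mn pc (fun u i => mn i u) g f)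
    (H : PCon R n t s mu U ho vl kp mn pc ar be kq NN sg nu) {u : ι} (hu : u ∈ U) {i : ℕ}
    (hi : i < n) (hL : ∀ j < n, 2 * (t j + 1) ≤ R) :
    20 * msP kp mn i (g i) u ≤ 25 * (t i + 1) + 2 * R + 25 := by
  have hR := R_pos H
  have hti := H.t0 i hi
  obtain ⟨h1, h2⟩ := Lv.ms_sq H hu hi (T := (R - 2) / 2) fun j hj => by
    have := hL j hj
    omega
  have h3 : 2 * ((R - 2) / 2) ≤ R - 2 := Int.mul_ediv_self_le (by norm_num)
  generalize msP kp mn i (g i) u = b at *
  generalize (R - 2) / 2 = T at *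
  have h4 := mul_le_mul_of_nonneg_left h3 hti
  have h5 : R * (20 * b) ≤ R * (25 * (t i + 1) + 2 * R + 25) := by
    nlinarith [sq_nonneg (5 * b - R)]
  exact le_of_mul_le_mul_left h5 hR

/-! ### the numbers -/

/-- numbers, `A ≤ 3 R / 40`, factor `7/5` -/
lemma sm_num75 {R A d e sb M : ℤ} (hR : 60 ≤ R) (hA1 : 1 ≤ A) (hA : 40 * A ≤ 3 * R) (hd0 : 0 ≤ d)
    (hdA : d ≤ A) (he : d + 1 ≤ e) (hsb : 20 * sb ≤ (25 * A + 2 * R + 25) * e)
    (hM0 : 0 ≤ M) (hMR : M ≤ R) (hM : M * (2 * R - M - A) ≤ 2 * (R * A))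
    (hten : 2 * e ≤ R → (R - 2 * e) * (e - d) ≤ A * e + sb)
    (hq : ∀ q : ℤ, 0 ≤ q → M ≤ q → q ≤ e → 2 * q ≤ R →
      20 * ((R - 2 * q) * (q - d)) ≤ (20 * A + (25 * A + 2 * R + 25)) * q) :
    5 * (e * R) - 7 * sb ≤ 5 * ((R + 2 * A) * d) := by
  have hM8 : 8 * M ≤ R := by
    by_contra hc
    push Not at hc
    have h1 : 0 ≤ (8 * M - R) * (R - M) := mul_nonneg (by linarith) (by linarith)
    nlinarith
  by_cases h1 : 8 * e ≤ R
  · have h2 := hten (by linarith)
    have h3 : (10 * A + 14 * e - 2 * R) * (e - d) ≤ 3 * (A * e) := by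
      rcases le_or_gt (10 * A + 14 * e - 2 * R) 0 with h4 | h4
      · have h5 : (10 * A + 14 * e - 2 * R) * (e - d) ≤ 0 :=
          mul_nonpos_of_nonpos_of_nonneg h4 (by linarith)
        have h6 : 0 ≤ A * e := mul_nonneg (by linarith) (by linarith)
        linarith
      · -- (R - 2 e) (e - d) ≤ (A + β) e
        have h5 : 20 * ((R - 2 * e) * (e - d)) ≤ (45 * A + 2 * R + 25) * e := by nlinarith
        have h6 : 0 ≤ e - d := by linarith
        have h7 : 4 * (10 * A + 14 * e - 2 * R) ≤ 40 * A - R := by linarith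
        have h8 : 15 * (R * (e - d)) ≤ (45 * A + 2 * R + 25) * e := by
          nlinarith [mul_nonneg (by linarith : (0 : ℤ) ≤ R - 8 * e) h6]
        have h9 : 0 ≤ 40 * A - R := by linarith
        have h10 : 60 * R * ((10 * A + 14 * e - 2 * R) * (e - d))
            ≤ (40 * A - R) * ((45 * A + 2 * R + 25) * e) := by
          have h11 := mul_le_mul_of_nonneg_left h8 h9
          have h12 := mul_le_mul_of_nonneg_right h7 (mul_nonneg (by linarith : (0 : ℤ) ≤ 15 * R) h6)
          nlinarith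
        have h13 : (40 * A - R) * (45 * A + 2 * R + 25) ≤ 180 * (A * R) := by
          nlinarith [mul_nonneg (by linarith : (0 : ℤ) ≤ 3 * R - 40 * A) (by linarith : (0 : ℤ) ≤ A),
            mul_nonneg (by linarith : (0 : ℤ) ≤ 3 * R - 40 * A) (by linarith : (0 : ℤ) ≤ R),
            mul_nonneg (by linarith : (0 : ℤ) ≤ R - 60) (by linarith : (0 : ℤ) ≤ R)]
        have h14 : 60 * R * ((10 * A + 14 * e - 2 * R) * (e - d)) ≤ 60 * R * (3 * (A * e)) := by
          have h15 := mul_le_mul_of_nonneg_right h13 (by linarith : (0 : ℤ) ≤ e)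
          nlinarith
        exact le_of_mul_le_mul_left h14 (by linarith)
    nlinarith
  · exfalso
    push Not at h1
    have h2 := hq (R / 8 + 1) (by omega) (by omega) (by omega) (by omega)
    obtain ⟨v, hv⟩ : ∃ v : ℤ, v = 8 * (R / 8 + 1) - R := ⟨_, rfl⟩
    have hv1 : 1 ≤ v := by omega
    have hv2 : v ≤ 8 := by omega
    generalize R / 8 + 1 = q at *
    have h3 : 0 ≤ R - 2 * q := by linarith
    have h4 : 20 * ((R - 2 * q) * (q - A)) ≤ (45 * A + 2 * R + 25) * q := by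
      nlinarith [mul_le_mul_of_nonneg_left (by linarith : q - A ≤ q - d) h3]
    -- 8 q = R + v
    have h5 : 5 * ((3 * R - v) * (R + v - 8 * A)) ≤ (45 * A + 2 * R + 25) * (R + v) := by
      have h6 : R + v = 8 * q := by linarith
      have h7 : 3 * R - v = 4 * (R - 2 * q) := by linarith
      rw [h6, h7]
      nlinarith
    nlinarith [mul_nonneg (by linarith : (0 : ℤ) ≤ 3 * R - 40 * A) (by linarith : (0 : ℤ) ≤ R),
      mul_nonneg (by linarith : (0 : ℤ) ≤ v - 1) (by linarith : (0 : ℤ) ≤ R),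
      mul_nonneg (by linarith : (0 : ℤ) ≤ v - 1) (by linarith : (0 : ℤ) ≤ 8 - v),
      mul_nonneg (by linarith : (0 : ℤ) ≤ v - 1) (by linarith : (0 : ℤ) ≤ 3 * R - 40 * A),
      mul_nonneg (by linarith : (0 : ℤ) ≤ R - 60) (by linarith : (0 : ℤ) ≤ R)]

/-- **the shares of a row, one bound for all units**: hosted units cost at most `R / (R + 2 A)`, used pieces at most
`R / (R + 2 A) * (1 - fr b / R)` -/
theorem LevC.row_s0 (Lv : LevC n U ho vl kp mn pc φ g f)
    (H : PCon R n t s mu U ho vl kp mn pc ar be kq NN sg nu) (hz : z < n)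
    (hL : ∀ j < n, 2 * (t j + 1) ≤ R) {θ : ι × ℕ × ℕ → ℝ} (hθ : ∀ v ∈ unV n U g, 0 ≤ θ v) {fr : ℝ}
    (hs : ∀ v ∈ unV n U g, v.2.1 = z → θ v ≤ 1 - fr / R * (unb kp mn g v : ℝ))
    (hh : ∀ v ∈ unV n U g, ho v.1 = z → 2 * ((t z : ℝ) + 1) / ((R : ℝ) + 2 * ((t z : ℝ) + 1))
      ≤ (1 - ((t v.2.1 : ℝ) + 1) / ((t z : ℝ) + 1 + ((t v.2.1 : ℝ) + 1))) * θ v) :
    ∑ y ∈ (range n).erase z,
        (((t y : ℝ) + 1) / ((t z : ℝ) + 1 + ((t y : ℝ) + 1)) * (rnE U ho vl pc be g z y : ℝ)
        + ((1 - ((t y : ℝ) + 1) / ((t z : ℝ) + 1 + ((t y : ℝ) + 1))) * rnHl n U ho g θ z y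
          - ((t y : ℝ) + 1) / ((t z : ℝ) + 1 + ((t y : ℝ) + 1)) * rnSl n U ho g θ z y))
      ≤ (R : ℝ) / ((R : ℝ) + 2 * ((t z : ℝ) + 1))
        * (((∑ y ∈ (range n).erase z, rnE U ho vl pc be g z y : ℤ) : ℝ)
          - fr / R * ((∑ y ∈ (range n).erase z, rnSb U ho kp mn pc g z y : ℤ) : ℝ)) := by
  have hR0 : (0 : ℝ) < R := by exact_mod_cast R_pos H
  have htz : (0 : ℝ) ≤ t z := by exact_mod_cast H.t0 z hz
  push_cast
  rw [mul_sum, ← sum_sub_distrib, mul_sum]
  refine sum_le_sum fun y hy => ?_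
  have hyn := mem_range.1 (mem_of_mem_erase hy)
  have hty : (0 : ℝ) ≤ t y := by exact_mod_cast H.t0 y hyn
  have hLy : 2 * ((t y : ℝ) + 1) ≤ R := by exact_mod_cast hL y hyn
  obtain ⟨w, hw⟩ : ∃ w : ℝ, w = ((t y : ℝ) + 1) / ((t z : ℝ) + 1 + ((t y : ℝ) + 1)) := ⟨_, rfl⟩
  obtain ⟨s0, hs0⟩ : ∃ s0 : ℝ, s0 = (R : ℝ) / ((R : ℝ) + 2 * ((t z : ℝ) + 1)) := ⟨_, rfl⟩
  have hw0 : 0 ≤ w := by rw [hw]; positivity
  have hs00 : 0 ≤ s0 := by rw [hs0]; positivity
  have hws : w ≤ s0 := by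
    rw [hw, hs0, div_le_div_iff₀ (by positivity) (by positivity)]
    nlinarith
  have hco : 1 - s0 = 2 * ((t z : ℝ) + 1) / ((R : ℝ) + 2 * ((t z : ℝ) + 1)) := by
    rw [hs0]
    field_simp
    ring
  rw [← hw, ← hs0]
  have e1 : (rnE U ho vl pc be g z y : ℝ)
      = (((unV n U g).filter fun v => ho v.1 = z ∧ v.2.1 = y).card : ℝ)
        + (((unV n U g).filter fun v => ho v.1 = y ∧ v.2.1 = z).card : ℝ) := by
    have h4 : (((unV n U g).filter fun v => ho v.1 = z ∧ v.2.1 = y).card : ℤ)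
        + (((unV n U g).filter fun v => ho v.1 = y ∧ v.2.1 = z).card : ℤ)
        = rnE U ho vl pc be g z y := by
      rw [Lv.card_host H hz hyn, Lv.card_serv H hz hyn]
      rfl
    rw [← h4]
    push_cast
    rfl
  have e2 : (rnSb U ho kp mn pc g z y : ℝ)
      = ∑ v ∈ (unV n U g).filter (fun v => ho v.1 = y ∧ v.2.1 = z), (unb kp mn g v : ℝ) := by
    have h3 := Lv.unb_serv H (y := y) hz
    unfold rnSb
    rw [← h3]
    push_cast
    rfl
  have e3 : w * (((unV n U g).filter fun v => ho v.1 = z ∧ v.2.1 = y).card : ℝ)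
      + (1 - w) * rnHl n U ho g θ z y
      ≤ s0 * (((unV n U g).filter fun v => ho v.1 = z ∧ v.2.1 = y).card : ℝ) := by
    unfold rnHl
    rw [mul_sum, ← nsmul_eq_mul', ← sum_const, ← sum_add_distrib, ← nsmul_eq_mul', ← sum_const]
    refine sum_le_sum fun v hv => ?_
    obtain ⟨h3, h4, h5⟩ := mem_filter.1 hv
    have h6 := hh v h3 h4
    rw [h5, ← hw, ← hco] at h6
    linarith
  have e4 : w * (((unV n U g).filter fun v => ho v.1 = y ∧ v.2.1 = z).card : ℝ)
      - w * rnSl n U ho g θ z y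
      ≤ s0 * ((((unV n U g).filter fun v => ho v.1 = y ∧ v.2.1 = z).card : ℝ)
        - fr / R * ∑ v ∈ (unV n U g).filter (fun v => ho v.1 = y ∧ v.2.1 = z),
          (unb kp mn g v : ℝ)) := by
    unfold rnSl
    have h1 : w * (((unV n U g).filter fun v => ho v.1 = y ∧ v.2.1 = z).card : ℝ)
        - w * ∑ v ∈ (unV n U g).filter (fun v => ho v.1 = y ∧ v.2.1 = z), (1 - θ v)
        = ∑ v ∈ (unV n U g).filter (fun v => ho v.1 = y ∧ v.2.1 = z), w * θ v := by
      rw [mul_sum, ← nsmul_eq_mul', ← sum_const, ← sum_sub_distrib]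
      exact sum_congr rfl fun v _ => by ring
    have h2 : s0 * ((((unV n U g).filter fun v => ho v.1 = y ∧ v.2.1 = z).card : ℝ)
        - fr / R * ∑ v ∈ (unV n U g).filter (fun v => ho v.1 = y ∧ v.2.1 = z),
          (unb kp mn g v : ℝ))
        = ∑ v ∈ (unV n U g).filter (fun v => ho v.1 = y ∧ v.2.1 = z),
          s0 * (1 - fr / R * (unb kp mn g v : ℝ)) := by
      rw [← mul_sum, sum_sub_distrib, sum_const, nsmul_eq_mul, mul_one, mul_sum]
    rw [h1, h2]
    refine sum_le_sum fun v hv => ?_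
    obtain ⟨h3, h4, h5⟩ := mem_filter.1 hv
    exact (mul_le_mul_of_nonneg_right hws (hθ v h3)).trans
      (mul_le_mul_of_nonneg_left (hs v h3 h5) hs00)
  rw [e1, e2]
  have e5 : w * ((((unV n U g).filter fun v => ho v.1 = z ∧ v.2.1 = y).card : ℝ)
        + (((unV n U g).filter fun v => ho v.1 = y ∧ v.2.1 = z).card : ℝ))
      + ((1 - w) * rnHl n U ho g θ z y - w * rnSl n U ho g θ z y)
      = (w * (((unV n U g).filter fun v => ho v.1 = z ∧ v.2.1 = y).card : ℝ)
        + (1 - w) * rnHl n U ho g θ z y)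
      + (w * (((unV n U g).filter fun v => ho v.1 = y ∧ v.2.1 = z).card : ℝ)
      - w * rnSl n U ho g θ z y) := by ring
  rw [e5]
  refine (add_le_add e3 e4).trans (le_of_eq ?_)
  ring

/-- **the numbers of a light row** -/
theorem LevC.sm_facts (Lv : LevC n U ho vl kp mn pc (fun u i => mn i u) g f)
    (H : PCon R n t s mu U ho vl kp mn pc ar be kq NN sg nu) (hz : z < n) {w v : ℤ}
    (hv : 0 ≤ v) (hm : ∀ u ∈ U, w * msP kp mn z (g z) u ≤ v) :
    0 ≤ ∑ y ∈ (range n).erase z, rnSb U ho kp mn pc g z y ∧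
    w * ∑ y ∈ (range n).erase z, rnSb U ho kp mn pc g z y
      ≤ v * ∑ y ∈ (range n).erase z, rnE U ho vl pc be g z y ∧
    (2 * ∑ y ∈ (range n).erase z, rnE U ho vl pc be g z y ≤ R →
      (R - 2 * ∑ y ∈ (range n).erase z, rnE U ho vl pc be g z y)
          * (∑ y ∈ (range n).erase z, rnE U ho vl pc be g z y - (mu z - s z))
        ≤ (t z + 1) * ∑ y ∈ (range n).erase z, rnE U ho vl pc be g z y
          + ∑ y ∈ (range n).erase z, rnSb U ho kp mn pc g z y) := by
  have hms : ∀ y, ∀ u ∈ rnK U ho pc g z y, 0 ≤ msP kp mn z (g z) u := by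
    intro y u hu
    unfold msP
    split_ifs
    · exact H.m0 u (mem_filter.1 hu).1 z hz
    · exact le_rfl
  have h1 : ∀ y, 0 ≤ rnSb U ho kp mn pc g z y := fun y => sum_nonneg (hms y)
  refine ⟨sum_nonneg fun y _ => h1 y, ?_, ?_⟩
  · rw [mul_sum, mul_sum]
    refine sum_le_sum fun y hy => ?_
    have hyn := mem_range.1 (mem_of_mem_erase hy)
    have h2 : w * rnSb U ho kp mn pc g z y ≤ v * ∑ u ∈ rnK U ho pc g z y, (g z u : ℤ) := by
      unfold rnSb
      rw [mul_sum, mul_sum]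
      refine sum_le_sum fun u hu => ?_
      obtain ⟨h3, -, -, h4⟩ := mem_filter.1 hu
      have h5 : (1 : ℤ) ≤ (g z u : ℤ) := by exact_mod_cast Nat.one_le_iff_ne_zero.2 h4
      have h6 := hm u h3
      nlinarith
    have h3 : ∑ u ∈ rnK U ho pc g z y, (g z u : ℤ) ≤ rnE U ho vl pc be g z y := by
      unfold rnE
      have h4 := H.be0 z hz y hyn
      have h5 := H.be0 y hyn z hz
      have h6 : (0 : ℤ) ≤ ∑ u ∈ rnC U ho vl pc z, (g y u : ℤ) :=
        sum_nonneg fun u _ => Nat.cast_nonneg _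
      have h7 : (0 : ℤ) ≤ ((rnM U ho vl pc g z y).card : ℤ) := Nat.cast_nonneg _
      linarith
    exact h2.trans (mul_le_mul_of_nonneg_left h3 hv)
  · intro h2
    refine (Lv.rowZ H hz).ten ((range n).erase z) (Subset.refl _) _ ?_ h2
    rw [Lv.rn_mu H hz, ← sum_add_distrib]
    rfl

/-- **LIGHT ROWS, `A ≤ 3 R / 40`, all types**: any factors `θ` with `θ ≤ 1 - (7/5) b / R` on the used pieces of the row and
host shares at most `R / (R + 2 A)` -/
theorem LevC.row_sm75 (Lv : LevC n U ho vl kp mn pc (fun u i => mn i u) g f)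
    (H : PCon R n t s mu U ho vl kp mn pc ar be kq NN sg nu) (hz : z < n) (hR : 60 ≤ R)
    (hA : 40 * (t z + 1) ≤ 3 * R) (hL : ∀ j < n, 2 * (t j + 1) ≤ R) {θ : ι × ℕ × ℕ → ℝ}
    (hθ : ∀ v ∈ unV n U g, 0 ≤ θ v)
    (hs : ∀ v ∈ unV n U g, v.2.1 = z → θ v ≤ 1 - 7 / 5 / R * (unb kp mn g v : ℝ))
    (hh : ∀ v ∈ unV n U g, ho v.1 = z → 2 * ((t z : ℝ) + 1) / ((R : ℝ) + 2 * ((t z : ℝ) + 1))
      ≤ (1 - ((t v.2.1 : ℝ) + 1) / ((t z : ℝ) + 1 + ((t v.2.1 : ℝ) + 1))) * θ v)
    (he : mu z - s z + 1 ≤ ∑ y ∈ (range n).erase z, rnE U ho vl pc be g z y) :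
    ∑ y ∈ (range n).erase z,
        (((t y : ℝ) + 1) / ((t z : ℝ) + 1 + ((t y : ℝ) + 1)) * (rnE U ho vl pc be g z y : ℝ)
        + ((1 - ((t y : ℝ) + 1) / ((t z : ℝ) + 1 + ((t y : ℝ) + 1))) * rnHl n U ho g θ z y
          - ((t y : ℝ) + 1) / ((t z : ℝ) + 1 + ((t y : ℝ) + 1)) * rnSl n U ho g θ z y))
      ≤ (mu z : ℝ) - s z := by
  have hR0 : (0 : ℝ) < R := by exact_mod_cast R_pos H
  have htz := H.t0 z hz
  have htz' : (0 : ℝ) ≤ t z := by exact_mod_cast htz
  refine (Lv.row_s0 H hz hL hθ hs hh).trans ?_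
  obtain ⟨k1, k2, k3⟩ := Lv.sm_facts H hz (w := 20) (v := 25 * (t z + 1) + 2 * R + 25)
    (by linarith) fun u hu => Lv.ms20 H hu hz hL
  obtain ⟨m1, m2, m3⟩ := H.kept_q hz (by linarith) (by linarith) rfl
  have h1 := sm_num75 (R := R) (A := t z + 1) (d := mu z - s z)
    (e := ∑ y ∈ (range n).erase z, rnE U ho vl pc be g z y)
    (sb := ∑ y ∈ (range n).erase z, rnSb U ho kp mn pc g z y)
    (M := mu z - ∑ l ∈ range n, kq z l) hR (by linarith) hA (H.d_nonneg hz)
    (by have := H.dt z hz; linarith) he k2 m1 m2 m3 k3 fun q hq0 hq1 hq2 hq3 =>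
      Lv.sub_ten H hz (by norm_num) (by linarith) (fun u hu _ => Lv.ms20 H hu hz hL) hq0 hq1 hq2
        hq3
  generalize (∑ y ∈ (range n).erase z, rnE U ho vl pc be g z y) = E at *
  generalize (∑ y ∈ (range n).erase z, rnSb U ho kp mn pc g z y) = B at *
  have h2 : 5 * ((E : ℝ) * R) - 7 * B ≤ 5 * (((R : ℝ) + 2 * ((t z : ℝ) + 1)) * (mu z - s z)) := by
    exact_mod_cast h1
  have h3 : (R : ℝ) / ((R : ℝ) + 2 * ((t z : ℝ) + 1)) * ((E : ℝ) - 7 / 5 / R * B)
      = (5 * ((E : ℝ) * R) - 7 * B) / (5 * ((R : ℝ) + 2 * ((t z : ℝ) + 1))) := by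
    field_simp
  rw [h3, div_le_iff₀ (by positivity)]
  linarith

end RowSm

end Pool.Agent.Lib.MP_f04ccf_co
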