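import Pool.Agent.Lib.MP_f04ccf_co.M.ClosM5
import Pool.Agent.Lib.MP_f04ccf_co.M.RowSm

/-!
MP_f04ccf_co, TEXT D, regime L: **`tzN` at every real size with the average misses of the served units**, and the bound of
the effective number of units.

* `LevC.sb_sum`: the misses of a row;
* `LevC.ten_av`: `E ((R - 2 q) (q - d)) ≤ E (A q) + q B` for every integer `q` between the hosted non-Konig value and `E`
  (`E` all units, `B` all misses at `z`);
* `LevC.ten_real`: the same for real `q`, with `+ E / 2`;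
* `LevC.n_row`: `E - ρ B ≤ N` (chord bound: served units with misses `b` count `1 - ρ b`).
-/

set_option autoImplicit false

namespace Pool.Agent.Lib.MP_f04ccf_co

open Finset

attribute [local instance] Classical.propDecidable

section TenAv

variable {ι : Type*} {R : ℤ} {n : ℕ} {t s mu : ℕ → ℤ} {U : Finset ι} {ho : ι → ℕ} {vl : ι → ℤ}
  {kp mn : ℕ → ι → ℤ} {pc ar : ι → ℤ} {be kq NN sg : ℕ → ℕ → ℤ} {nu : ℕ → ι → ℤ} {z y : ℕ}
  {φ : ι → ℕ → ℤ} {g : ℕ → ι → ℕ} {f : ι → ℕ}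

/-- **the misses of a row** -/
theorem LevC.sb_sum (C : LevC n U ho vl kp mn pc φ g f)
    (H : PCon R n t s mu U ho vl kp mn pc ar be kq NN sg nu) (hz : z < n) :
    ∑ y ∈ (range n).erase z, rnSb U ho kp mn pc g z y
      = ∑ v ∈ (unV n U g).filter (fun v => v.2.1 = z), unb kp mn g v := by
  rw [← sum_fiberwise_of_maps_to (s := (unV n U g).filter fun v => v.2.1 = z)
    (t := (range n).erase z) (g := fun v : ι × ℕ × ℕ => ho v.1) fun v hv => ?_]
  · refine sum_congr rfl fun y _ => ?_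
    have h1 := C.unb_serv H (y := y) hz
    unfold rnSb
    rw [← h1]
    refine sum_congr ?_ fun _ _ => rfl
    ext v
    simp only [mem_filter]
    tauto
  · obtain ⟨h1, h2⟩ := mem_filter.1 hv
    exact mem_erase.2 ⟨fun h3 => C.main_ne h1 (h2.trans h3.symm),
      mem_range.2 (H.hlt _ (LevC.mem_unV h1).1)⟩

/-- **`tzN` at every size, average misses** -/
theorem LevC.ten_av (C : LevC n U ho vl kp mn pc φ g f)
    (H : PCon R n t s mu U ho vl kp mn pc ar be kq NN sg nu) (hz : z < n) {q E B : ℤ}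
    (hE : E = ∑ y ∈ (range n).erase z, rnE U ho vl pc be g z y)
    (hB : B = ∑ y ∈ (range n).erase z, rnSb U ho kp mn pc g z y) (hq0 : 0 ≤ q)
    (hq1 : mu z - ∑ l ∈ range n, kq z l ≤ q) (hq2 : q ≤ E) (hq : 2 * q ≤ R) :
    E * ((R - 2 * q) * (q - (mu z - s z))) ≤ E * ((t z + 1) * q) + q * B := by
  have hmu := H.mu0 hz
  have hE1 : E = mu z + (((unV n U g).filter fun v => v.2.1 = z).card : ℤ) := by
    rw [hE, C.rnE_sum H hz]
  have hB1 : B = ∑ v ∈ (unV n U g).filter (fun v => v.2.1 = z), unb kp mn g v := by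
    rw [hB, C.sb_sum H hz]
  have hB0 : 0 ≤ B := by
    rw [hB1]
    exact sum_nonneg fun v hv => LevC.unb_nonneg H (mem_filter.1 hv).1
  have hE0 : 0 ≤ E := by
    rw [hE1]
    positivity
  rcases le_or_gt q (mu z) with h1 | h1
  · have h2 := H.tK z hz (mu z - q) (by linarith) (by linarith) ∅ (empty_subset _)
      (fun u hu => absurd hu (notMem_empty u)) ∅ (empty_subset _)
      (fun u hu => absurd hu (notMem_empty u)) (g z) (fun u hu => absurd hu (notMem_empty u))
      (fun u hu => absurd hu (notMem_empty u)) (by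
        simp only [sum_empty]
        linarith)
    simp only [sum_empty] at h2
    have h3 : mu z - (mu z - q) - 0 + 0 = q := by ring
    have h4 : s z - (mu z - q) - 0 + 0 = q - (mu z - s z) := by ring
    rw [h3, h4, add_zero] at h2
    have h5 := mul_le_mul_of_nonneg_left h2 hE0
    have h6 := mul_nonneg hq0 hB0
    linarith
  · obtain ⟨k, hk⟩ := Int.eq_ofNat_of_zero_le (show (0 : ℤ) ≤ q - mu z by linarith)
    have hk' : ((k : ℕ) : ℤ) = q - mu z := hk.symm
    have hkc : k ≤ ((unV n U g).filter fun v => v.2.1 = z).card := by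
      have h2 : (k : ℤ) ≤ (((unV n U g).filter fun v => v.2.1 = z).card : ℤ) := by
        rw [hk']
        linarith
      exact_mod_cast h2
    obtain ⟨V, hV, hVc, hVb⟩ := exists_lowN (unb kp mn g) k _
      ((unV n U g).filter fun v => v.2.1 = z) rfl hkc
    obtain ⟨K, g', hK, hKh, hg1, hg2, hgs, hgb⟩ := C.sub_units H hz hV
    rw [hVc, hk'] at hgs
    have h2 := H.tN z hz K hK hKh g' hg1 hg2 (by rw [hgs]; linarith)
    rw [hgs] at h2
    have h3 : mu z + (q - mu z) = q := by ring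
    have h4 : s z + (q - mu z) = q - (mu z - s z) := by ring
    rw [h3, h4] at h2
    rw [← hB1, hk'] at hVb
    obtain ⟨c, hc⟩ : ∃ c : ℤ, c = (((unV n U g).filter fun v => v.2.1 = z).card : ℤ) := ⟨_, rfl⟩
    rw [← hc] at hVb hE1
    obtain ⟨b, hb⟩ : ∃ b : ℤ, b = ∑ u ∈ K, msP kp mn z g' u := ⟨_, rfl⟩
    rw [← hb] at h2 hgb
    have hc1 : 1 ≤ c := by linarith
    have h5 : c * b ≤ (q - mu z) * B := (mul_le_mul_of_nonneg_left hgb (by linarith)).trans hVb
    have h6 : E * b ≤ q * B := by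
      have h7 : c * (E * b) ≤ c * (q * B) := by
        have h8 : E * (c * b) ≤ E * ((q - mu z) * B) := mul_le_mul_of_nonneg_left h5 hE0
        have h9 : 0 ≤ mu z * (E - q) * B := mul_nonneg (mul_nonneg hmu (by linarith)) hB0
        have h10 : E * ((q - mu z) * B) = c * (q * B) - mu z * (E - q) * B := by
          rw [hE1]
          ring
        nlinarith
      exact le_of_mul_le_mul_left h7 (by linarith)
    have h7 := mul_le_mul_of_nonneg_left h2 hE0
    linarith

/-- **`tzN` at every real size** -/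
theorem LevC.ten_real (C : LevC n U ho vl kp mn pc φ g f)
    (H : PCon R n t s mu U ho vl kp mn pc ar be kq NN sg nu) (hz : z < n) {E B : ℤ}
    (hE : E = ∑ y ∈ (range n).erase z, rnE U ho vl pc be g z y)
    (hB : B = ∑ y ∈ (range n).erase z, rnSb U ho kp mn pc g z y) {q : ℝ} (hq0 : 0 ≤ q)
    (hq1 : ((mu z - ∑ l ∈ range n, kq z l : ℤ) : ℝ) ≤ q) (hq2 : q ≤ E) (hq : 2 * q + 2 ≤ R) :
    (E : ℝ) * (((R : ℝ) - 2 * q) * (q - (mu z - s z)))
      ≤ (E : ℝ) * (((t z : ℝ) + 1) * q) + q * B + (E : ℝ) / 2 := by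
  have hE0 : (0 : ℝ) ≤ E := hq0.trans hq2
  obtain ⟨m, hm⟩ : ∃ m : ℤ, m = ⌊q⌋ := ⟨_, rfl⟩
  have hm1 : (m : ℝ) ≤ q := by rw [hm]; exact Int.floor_le q
  have hm2 : q < (m : ℝ) + 1 := by rw [hm]; exact Int.lt_floor_add_one q
  have hm0 : 0 ≤ m := by rw [hm]; exact Int.floor_nonneg.2 hq0
  have hmq : mu z - ∑ l ∈ range n, kq z l ≤ m := by
    rw [hm]
    exact Int.le_floor.2 hq1
  have hmE : m ≤ E := by
    have : (m : ℝ) ≤ E := hm1.trans hq2
    exact_mod_cast this
  have hmR : 2 * (m + 1) ≤ R := by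
    have h1 : (2 : ℝ) * ((m : ℝ) + 1) ≤ R := by linarith
    exact_mod_cast h1
  have h1 := C.ten_av H hz hE hB hm0 hmq hmE (by linarith)
  have h1' : (E : ℝ) * (((R : ℝ) - 2 * m) * ((m : ℝ) - (mu z - s z)))
      ≤ (E : ℝ) * (((t z : ℝ) + 1) * m) + m * B := by exact_mod_cast h1
  rcases eq_or_lt_of_le hm1 with h2 | h2
  · rw [← h2]
    linarith
  · have hmE1 : m + 1 ≤ E := by
      have : (m : ℝ) < E := h2.trans_le hq2
      have h3 : m < E := by exact_mod_cast this
      linarith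
    have h3 := C.ten_av H hz hE hB (q := m + 1) (by linarith) (by linarith) hmE1 hmR
    have h3' : (E : ℝ) * (((R : ℝ) - 2 * (m + 1)) * ((m : ℝ) + 1 - (mu z - s z)))
        ≤ (E : ℝ) * (((t z : ℝ) + 1) * (m + 1)) + (m + 1) * B := by exact_mod_cast h3
    obtain ⟨x, hx⟩ : ∃ x : ℝ, x = q - m := ⟨_, rfl⟩
    have hx0 : 0 ≤ x := by linarith
    have hx1 : 0 ≤ 1 - x := by linarith
    have hqx : q = m + x := by linarith
    rw [hqx]
    have h4 := mul_le_mul_of_nonneg_left h1' hx1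
    have h5 := mul_le_mul_of_nonneg_left h3' hx0
    have h6 : 0 ≤ (E : ℝ) * (1 / 2 - 2 * (x * (1 - x))) :=
      mul_nonneg hE0 (by nlinarith [sq_nonneg (2 * x - 1)])
    nlinarith

/-- **the effective number of units of a row**: served units with misses `b` count `1 - ρ b`; `β` is the average of the
misses per unit -/
theorem LevC.n_row (C : LevC n U ho vl kp mn pc φ g f)
    (H : PCon R n t s mu U ho vl kp mn pc ar be kq NN sg nu) (hz : z < n) {E B : ℤ}
    (hE : E = ∑ y ∈ (range n).erase z, rnE U ho vl pc be g z y)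
    (hB : B = ∑ y ∈ (range n).erase z, rnSb U ho kp mn pc g z y) {ρ N βm : ℝ} (hρ : 0 ≤ ρ)
    (hm0 : 0 ≤ βm) (hN : 0 ≤ N) (hN1 : ((mu z - ∑ l ∈ range n, kq z l : ℤ) : ℝ) ≤ N)
    (hm : ∀ v ∈ unV n U g, v.2.1 = z → (unb kp mn g v : ℝ) ≤ βm)
    (hnum : ∀ β x : ℝ, 0 ≤ β → β ≤ βm → x = 1 - ρ * β → 0 < x →
      2 * (N / x) + 2 ≤ R ∧ ((t z : ℝ) + 1 + β) * (N / x) + 1 / 2
        < ((R : ℝ) - 2 * (N / x)) * (N / x - (mu z - s z))) :
    (E : ℝ) - ρ * B ≤ N := by
  by_contra hcon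
  push Not at hcon
  have hmu := H.mu0 hz
  have hE1 : E = mu z + (((unV n U g).filter fun v => v.2.1 = z).card : ℤ) := by
    rw [hE, C.rnE_sum H hz]
  have hB1 : B = ∑ v ∈ (unV n U g).filter (fun v => v.2.1 = z), unb kp mn g v := by
    rw [hB, C.sb_sum H hz]
  have hB0 : 0 ≤ B := by
    rw [hB1]
    exact sum_nonneg fun v hv => LevC.unb_nonneg H (mem_filter.1 hv).1
  have hB0' : (0 : ℝ) ≤ B := by exact_mod_cast hB0
  have hE0 : (0 : ℝ) < E := by
    have := mul_nonneg hρ hB0'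
    linarith
  obtain ⟨β, hβ⟩ : ∃ β : ℝ, β = B / E := ⟨_, rfl⟩
  have hβE : β * E = B := by rw [hβ, div_mul_cancel₀ _ hE0.ne']
  have hβ0 : 0 ≤ β := by rw [hβ]; exact div_nonneg hB0' hE0.le
  have hβm0 : β ≤ βm := by
    rw [hβ, div_le_iff₀ hE0]
    have h5 : (B : ℝ) ≤ (((unV n U g).filter fun v => v.2.1 = z).card : ℝ) * βm := by
      rw [hB1, ← nsmul_eq_mul, ← sum_const]
      push_cast
      exact sum_le_sum fun w hw => hm w (mem_filter.1 hw).1 (mem_filter.1 hw).2
    have h6 : (((unV n U g).filter fun v => v.2.1 = z).card : ℝ) ≤ E := by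
      have h7 : (((unV n U g).filter fun v => v.2.1 = z).card : ℤ) ≤ E := by linarith
      exact_mod_cast h7
    nlinarith [mul_le_mul_of_nonneg_right h6 hm0]
  obtain ⟨x, hx⟩ : ∃ x : ℝ, x = 1 - ρ * β := ⟨_, rfl⟩
  have hxE : N < x * E := by
    rw [hx, sub_mul, one_mul, mul_assoc, hβE]
    exact hcon
  have hx0 : 0 < x := by
    by_contra h1
    push Not at h1
    nlinarith
  have hx1 : x ≤ 1 := by
    have := mul_nonneg hρ hβ0
    linarith
  obtain ⟨h1, h2⟩ := hnum β x hβ0 hβm0 hx hx0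
  obtain ⟨q, hq⟩ : ∃ q : ℝ, q = N / x := ⟨_, rfl⟩
  rw [← hq] at h1 h2
  have hqx : q * x = N := by rw [hq, div_mul_cancel₀ _ hx0.ne']
  have hq0 : 0 ≤ q := by rw [hq]; exact div_nonneg hN hx0.le
  have hqN : N ≤ q := by
    rw [← hqx]
    nlinarith
  have hqE : q ≤ E := by
    by_contra h3
    push Not at h3
    nlinarith
  have h3 := C.ten_real H hz hE hB hq0 (hN1.trans hqN) hqE h1
  have h4 : (E : ℝ) * (((R : ℝ) - 2 * q) * (q - (mu z - s z)))
      ≤ (E : ℝ) * (((t z : ℝ) + 1 + β) * q + 1 / 2) := by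
    have h5 : (E : ℝ) * (((t z : ℝ) + 1 + β) * q + 1 / 2)
        = (E : ℝ) * (((t z : ℝ) + 1) * q) + q * (β * E) + (E : ℝ) / 2 := by ring
    rw [h5, hβE]
    exact h3
  have h5 := le_of_mul_le_mul_left h4 hE0
  linarith

end TenAv

end Pool.Agent.Lib.MP_f04ccf_co
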