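import Pool.Agent.Lib.MP_f04ccf_co.M.AsmL
import Pool.Agent.Lib.MP_f04ccf_co.M.TabG
import Pool.Agent.Lib.MP_f04ccf_co.M.TenAv
import Pool.Agent.Lib.MP_f04ccf_co.M.CsExt8

/-!
MP_f04ccf_co, TEXT D, **REGIME L, THE FRAME OF THE ROW CLAIM (c): the sum of one-cell claims** (82's form).

Row `z`, cells `y ∈ J`; `sp u`: the hosted halves whose payment is split between the main and the cut end.

* `flM`, `flO`: the hosted halves with main end `y`, split and not split; `flC`: the cut pieces at `y`;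
* `flPhi`: **what the row pays in the cell `y`**: `s e`, the main and cut pieces pay `PM`, `PC`; `LevC.fl_pay`: the row
  sum is at most `∑ flPhi`;
* `LevC.fl_cut`, `LevC.fl_bal`: any number `sh u` of the split halves has the same sum over main and cut pieces;
* `LevC.frame`: **the cell claims** `flPhi y ≤ al x + ga nn + ze mm + (∑ cut sh - ∑ main sh) + X` and the row numbers
  give the row claim (`sh = ν + la b`; `X`: star, pairs, blocks); `LevC.frame_kap`: with the block term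
  `- kap (p y - x P / c)`;
* `LevC.nn_le`: `nn = e - ρ mu` with the chord bound of `tzN`; `LevC.mm_le`: `mm` = hosted units;
* `LevC.half_nums`: the numbers of a hosted half; `LevC.split46`: 46's payment of a half with both ends in `J`.
-/

set_option autoImplicit false

namespace Pool.Agent.Lib.MP_f04ccf_co

open Finset

attribute [local instance] Classical.propDecidable

section FrL

variable {ι : Type*} {R : ℤ} {n : ℕ} {t s mu : ℕ → ℤ} {U : Finset ι} {ho : ι → ℕ} {vl : ι → ℤ}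
  {kp mn : ℕ → ι → ℤ} {pc ar : ι → ℤ} {be kq NN sg : ℕ → ℕ → ℤ} {nu : ℕ → ι → ℤ} {z y : ℕ}
  {g : ℕ → ι → ℕ} {f : ι → ℕ} {fr fc : ℤ → ℝ} {sp : ι → Prop} {J : Finset ℕ}

/-- the split halves of the row with main end `y` -/
noncomputable def flM (U : Finset ι) (ho : ι → ℕ) (vl : ι → ℤ) (kp : ℕ → ι → ℤ) (pc : ι → ℤ)
    (g : ℕ → ι → ℕ) (f : ι → ℕ) (sp : ι → Prop) (z y : ℕ) : Finset ι :=
  (vHH U ho vl kp pc g f z y).filter fun u => sp u

/-- the hosted halves with main end `y` which are not split -/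
noncomputable def flO (U : Finset ι) (ho : ι → ℕ) (vl : ι → ℤ) (kp : ℕ → ι → ℤ) (pc : ι → ℤ)
    (g : ℕ → ι → ℕ) (f : ι → ℕ) (sp : ι → Prop) (z y : ℕ) : Finset ι :=
  (vHH U ho vl kp pc g f z y).filter fun u => ¬ sp u

/-- the cut pieces at `y` of the split halves with main end in `J` -/
noncomputable def flC (U : Finset ι) (ho : ι → ℕ) (vl : ι → ℤ) (kp : ℕ → ι → ℤ) (pc : ι → ℤ)
    (g : ℕ → ι → ℕ) (f : ι → ℕ) (sp : ι → Prop) (J : Finset ℕ) (z y : ℕ) : Finset ι :=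
  J.biUnion fun m => (flM U ho vl kp pc g f sp z m).filter fun u => f u = y

/-- hosted plain units with main end `y` -/
noncomputable def flH (U : Finset ι) (ho : ι → ℕ) (vl pc : ι → ℤ) (g : ℕ → ι → ℕ) (z y : ℕ) : ℤ :=
  ((rnM U ho vl pc g z y).card : ℤ) + ∑ u ∈ rnC U ho vl pc z, (g y u : ℤ)

/-- **what the row pays in the cell `y`**, the split halves by `PM` (main piece) and `PC` (cut piece) -/
noncomputable def flPhi (R : ℤ) (t : ℕ → ℤ) (U : Finset ι) (ho : ι → ℕ) (vl : ι → ℤ)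
    (kp mn : ℕ → ι → ℤ) (pc : ι → ℤ) (be : ℕ → ℕ → ℤ) (g : ℕ → ι → ℕ) (f : ι → ℕ)
    (fr fc : ℤ → ℝ) (sp : ι → Prop) (PM PC : ℕ → ι → ℝ) (J : Finset ℕ) (z y : ℕ) : ℝ :=
  csS ((t z : ℝ) + 1) ((t y : ℝ) + 1)
      * ((rnE U ho vl pc be g z y : ℝ) - ((flM U ho vl kp pc g f sp z y).card : ℝ))
    + (1 - csS ((t z : ℝ) + 1) ((t y : ℝ) + 1))
      * (fr (t y + 1) / (R : ℝ) * ∑ u ∈ flO U ho vl kp pc g f sp z y, (mn y u : ℝ)
        + fc (t y + 1) / (R : ℝ) * ∑ u ∈ vHC U ho vl pc g z y, (msP kp mn y (g y) u : ℝ))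
    - csS ((t z : ℝ) + 1) ((t y : ℝ) + 1)
      * (fr (t z + 1) / (R : ℝ) * ∑ u ∈ vS1 U ho vl kp pc g f z y, (mn z u : ℝ)
        + fc (t z + 1) / (R : ℝ) * ∑ u ∈ vSC U ho vl pc g z y, (msP kp mn z (g z) u : ℝ))
    + ∑ u ∈ flM U ho vl kp pc g f sp z y, PM y u + ∑ u ∈ flC U ho vl kp pc g f sp J z y, PC y u

lemma flM_disj (U : Finset ι) (ho : ι → ℕ) (vl : ι → ℤ) (kp : ℕ → ι → ℤ) (pc : ι → ℤ)
    (g : ℕ → ι → ℕ) (f : ι → ℕ) (sp : ι → Prop) (z y : ℕ) :
    Disjoint (flM U ho vl kp pc g f sp z y) (flO U ho vl kp pc g f sp z y) ∧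
      flM U ho vl kp pc g f sp z y ∪ flO U ho vl kp pc g f sp z y
        = vHH U ho vl kp pc g f z y := by
  unfold flM flO
  exact ⟨disjoint_filter_filter_not _ _ _, filter_union_filter_not_eq _ _⟩

/-- **sums over the cut pieces** -/
theorem LevC.fl_cut (Lv : LevC n U ho vl kp mn pc (fun u i => mn i u) g f) (hJ : J ⊆ range n)
    (hsp : ∀ m ∈ J, ∀ u ∈ flM U ho vl kp pc g f sp z m, f u ∈ J) (F : ι → ℝ) :
    ∑ y ∈ J, ∑ u ∈ flM U ho vl kp pc g f sp z y, F u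
      = ∑ y ∈ J, ∑ u ∈ flC U ho vl kp pc g f sp J z y, F u := by
  have h1 : ∀ y ∈ J, ∑ u ∈ flC U ho vl kp pc g f sp J z y, F u
      = ∑ m ∈ J, ∑ u ∈ (flM U ho vl kp pc g f sp z m).filter (fun u => f u = y), F u := by
    intro y _
    unfold flC
    refine sum_biUnion fun m hm m' hm' hmm => ?_
    rw [Function.onFun, disjoint_left]
    intro u hu hu'
    have h2 := (mem_filter.1 (mem_filter.1 (mem_filter.1 hu).1).1)
    have h3 := (mem_filter.1 (mem_filter.1 (mem_filter.1 hu').1).1)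
    have h4 : g m u + g m' u ≤ ∑ i ∈ range n, g i u := by
      have h5 : ∑ i ∈ ({m, m'} : Finset ℕ), g i u = g m u + g m' u := sum_pair hmm
      rw [← h5]
      refine sum_le_sum_of_subset_of_nonneg (fun i hi => ?_) fun _ _ _ => Nat.zero_le _
      rcases mem_insert.1 hi with rfl | h6
      · exact hJ hm
      · rw [mem_singleton.1 h6]
        exact hJ hm'
    have h5 := Lv.sum u h2.1
    rw [h2.2.2.2.1] at h5
    have h6 : (((∑ i ∈ range n, g i u : ℕ)) : ℤ) = 1 := by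
      rw [← h5]
      push_cast
      rfl
    have h7 : ∑ i ∈ range n, g i u = 1 := by exact_mod_cast h6
    have h8 := h2.2.2.2.2.1
    have h9 := h3.2.2.2.2.1
    omega
  rw [sum_congr rfl h1, sum_comm]
  refine sum_congr rfl fun m hm => ?_
  exact (sum_fiberwise_of_maps_to (fun u hu => hsp m hm u hu) F).symm

/-- **as many cut pieces as main pieces** -/
theorem LevC.fl_bal (Lv : LevC n U ho vl kp mn pc (fun u i => mn i u) g f) (hJ : J ⊆ range n)
    (hsp : ∀ m ∈ J, ∀ u ∈ flM U ho vl kp pc g f sp z m, f u ∈ J) :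
    ∑ y ∈ J, (((flC U ho vl kp pc g f sp J z y).card : ℝ)
      - ((flM U ho vl kp pc g f sp z y).card : ℝ)) = 0 := by
  have h1 := Lv.fl_cut hJ hsp fun _ => (1 : ℝ)
  rw [sum_sub_distrib]
  simp only [sum_const, nsmul_eq_mul, mul_one] at h1
  linarith

/-- the misses of a cell, weighted -/
lemma LevC.rnH_sum (Lv : LevC n U ho vl kp mn pc (fun u i => mn i u) g f) (hy : y < n) :
    rnHr U ho vl kp mn pc g (rLg R t vl fr fc) z y
      = fr (t y + 1) / (R : ℝ) * ∑ u ∈ vHH U ho vl kp pc g f z y, (mn y u : ℝ)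
        + fc (t y + 1) / (R : ℝ) * ∑ u ∈ vHC U ho vl pc g z y, (msP kp mn y (g y) u : ℝ) := by
  unfold rnHr
  rw [rnM_split U ho vl kp pc g f z y, sum_union (vH_disj U ho vl kp pc g f z y).1, rnC_filter,
    mul_sum, mul_sum]
  have h1 : ∑ u ∈ vHF U ho vl kp pc g f z y, rLg R t vl fr fc y u * (mn y u : ℝ) = 0 :=
    sum_eq_zero fun u hu => by rw [(Lv.hf_fact hy hu).2.2.1, Int.cast_zero, mul_zero]
  rw [h1, zero_add]
  congr 1
  · refine sum_congr rfl fun u hu => ?_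
    obtain ⟨-, -, -, h2, -⟩ := mem_filter.1 hu
    unfold rLg fLg
    rw [if_pos h2]
  · refine sum_congr rfl fun u hu => ?_
    obtain ⟨-, -, -, h2, -⟩ := mem_filter.1 hu
    unfold rLg fLg
    rw [if_neg h2]

/-- the misses at `z` of the served units of a cell, weighted -/
lemma LevC.rnS_sum (Lv : LevC n U ho vl kp mn pc (fun u i => mn i u) g f)
    (H : PConC R n t s mu U ho vl kp mn pc ar be kq NN sg nu) (hz : z < n) (y : ℕ) :
    rnSr U ho kp mn pc g (rLg R t vl fr fc) z y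
      = fr (t z + 1) / (R : ℝ) * ∑ u ∈ vS1 U ho vl kp pc g f z y, (mn z u : ℝ)
        + fc (t z + 1) / (R : ℝ) * ∑ u ∈ vSC U ho vl pc g z y, (msP kp mn z (g z) u : ℝ) := by
  obtain ⟨d1, d2⟩ := vS_disj U ho vl kp pc g f z y
  have d3 : Disjoint (vSF U ho vl kp pc g f z y) (vS1 U ho vl kp pc g f z y) :=
    disjoint_of_subset_right (filter_subset _ _) d1
  have d4 : Disjoint (vSF U ho vl kp pc g f z y ∪ vS1 U ho vl kp pc g f z y)
      (vSC U ho vl pc g z y) :=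
    disjoint_of_subset_left (union_subset_union (Subset.refl _) (filter_subset _ _)) d2
  obtain ⟨r, hr⟩ := Int.eq_ofNat_of_zero_le (R_pos H.toPCon).le
  have hK : rnK U ho pc g z y
      = (vSF U ho vl kp pc g f z y ∪ vS1 U ho vl kp pc g f z y) ∪ vSC U ho vl pc g z y := by
    have H' : PConC ((r : ℕ) : ℤ) n t s mu U ho vl kp mn pc ar be kq NN sg nu := by
      rw [← hr]
      exact H
    exact Lv.rnK_types H' hz
  unfold rnSr
  rw [hK, sum_union d4, sum_union d3, mul_sum, mul_sum]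
  have h1 : ∑ u ∈ vSF U ho vl kp pc g f z y,
      rLg R t vl fr fc z u * (msP kp mn z (g z) u : ℝ) = 0 :=
    sum_eq_zero fun u hu => by
      obtain ⟨h1, h2, h3, h4, h5, h6⟩ := mem_filter.1 hu
      unfold msP
      rw [(Lv.full_at h1 h4 h6 hz h5).2.1, ite_self, Int.cast_zero, mul_zero]
  rw [h1, zero_add]
  congr 1
  · refine sum_congr rfl fun u hu => ?_
    obtain ⟨h3, h4⟩ := mem_filter.1 hu
    obtain ⟨h5, h6, h7, h8, h9, h10⟩ := mem_filter.1 h3
    unfold msP rLg fLg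
    rw [if_pos h8, if_pos]
    rw [h4, H.kp_one h5 h8 hz h9]
    norm_num
  · refine sum_congr rfl fun u hu => ?_
    obtain ⟨-, -, -, h2, -⟩ := mem_filter.1 hu
    unfold rLg fLg
    rw [if_neg h2]

/-- **the row sum is at most the sum of the `flPhi`** -/
theorem LevC.fl_pay (Lv : LevC n U ho vl kp mn pc (fun u i => mn i u) g f)
    (H : PConC R n t s mu U ho vl kp mn pc ar be kq NN sg nu) (hz : z < n) (hJ : J ⊆ range n)
    {PM PC : ℕ → ι → ℝ}
    (hsp : ∀ y ∈ J, ∀ u ∈ flM U ho vl kp pc g f sp z y, f u ∈ J ∧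
      csS ((t z : ℝ) + 1) ((t y : ℝ) + 1) + (1 - csS ((t z : ℝ) + 1) ((t y : ℝ) + 1))
        * (fr (t y + 1) / (R : ℝ) * (mn y u : ℝ)) ≤ PM y u + PC (f u) u) :
    ∑ y ∈ J,
        (((t y : ℝ) + 1) / ((t z : ℝ) + 1 + ((t y : ℝ) + 1)) * (rnE U ho vl pc be g z y : ℝ)
        + ((1 - ((t y : ℝ) + 1) / ((t z : ℝ) + 1 + ((t y : ℝ) + 1)))
            * rnHl n U ho g (thLg R t vl kp mn g fr fc) z y
          - ((t y : ℝ) + 1) / ((t z : ℝ) + 1 + ((t y : ℝ) + 1))
            * rnSl n U ho g (thLg R t vl kp mn g fr fc) z y))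
      ≤ ∑ y ∈ J, flPhi R t U ho vl kp mn pc be g f fr fc sp PM PC J z y := by
  have e0 : thLg R t vl kp mn g fr fc
      = fun v : ι × ℕ × ℕ => 1 - rLg R t vl fr fc v.2.1 v.1 * (unb kp mn g v : ℝ) :=
    funext fun v => thLg_eq v
  have h1 : ∀ y ∈ J,
      (((t y : ℝ) + 1) / ((t z : ℝ) + 1 + ((t y : ℝ) + 1)) * (rnE U ho vl pc be g z y : ℝ)
        + ((1 - ((t y : ℝ) + 1) / ((t z : ℝ) + 1 + ((t y : ℝ) + 1)))
            * rnHl n U ho g (thLg R t vl kp mn g fr fc) z y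
          - ((t y : ℝ) + 1) / ((t z : ℝ) + 1 + ((t y : ℝ) + 1))
            * rnSl n U ho g (thLg R t vl kp mn g fr fc) z y))
      ≤ flPhi R t U ho vl kp mn pc be g f fr fc sp PM PC J z y
        + (∑ u ∈ flM U ho vl kp pc g f sp z y, PC (f u) u
          - ∑ u ∈ flC U ho vl kp pc g f sp J z y, PC y u) := by
    intro y hy
    have hyn := mem_range.1 (hJ hy)
    obtain ⟨d1, d2⟩ := flM_disj U ho vl kp pc g f sp z y
    rw [e0, Lv.rnHl_r H.toPCon hyn (rLg R t vl fr fc) z,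
      Lv.rnSl_r H.toPCon hz (rLg R t vl fr fc) y, Lv.rnH_sum hyn, Lv.rnS_sum H hz, ← d2,
      sum_union d1]
    unfold flPhi csS
    have h2 : ∑ u ∈ flM U ho vl kp pc g f sp z y,
        (csS ((t z : ℝ) + 1) ((t y : ℝ) + 1) + (1 - csS ((t z : ℝ) + 1) ((t y : ℝ) + 1))
          * (fr (t y + 1) / (R : ℝ) * (mn y u : ℝ)))
        ≤ ∑ u ∈ flM U ho vl kp pc g f sp z y, (PM y u + PC (f u) u) :=
      sum_le_sum fun u hu => (hsp y hy u hu).2
    rw [sum_add_distrib, sum_add_distrib, sum_const, nsmul_eq_mul, ← mul_sum, ← mul_sum] at h2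
    unfold csS at h2
    linarith
  refine (sum_le_sum h1).trans ?_
  rw [sum_add_distrib, sum_sub_distrib]
  have h2 := Lv.fl_cut (z := z) (sp := sp) hJ (fun m hm u hu => (hsp m hm u hu).1)
    fun u => PC (f u) u
  have h3 : ∑ y ∈ J, ∑ u ∈ flC U ho vl kp pc g f sp J z y, PC (f u) u
      = ∑ y ∈ J, ∑ u ∈ flC U ho vl kp pc g f sp J z y, PC y u := by
    refine sum_congr rfl fun y _ => sum_congr rfl fun u hu => ?_
    unfold flC at hu
    obtain ⟨m, -, hu⟩ := mem_biUnion.1 hu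
    rw [(mem_filter.1 hu).2]
  linarith

/-- **THE FRAME**: the one-cell claims and the row numbers give the row claim -/
theorem LevC.frame (Lv : LevC n U ho vl kp mn pc (fun u i => mn i u) g f)
    (H : PConC R n t s mu U ho vl kp mn pc ar be kq NN sg nu) (hz : z < n)
    (hJ : J ⊆ (range n).erase z) {PM PC : ℕ → ι → ℝ}
    (hsp : ∀ y ∈ J, ∀ u ∈ flM U ho vl kp pc g f sp z y, f u ∈ J ∧
      csS ((t z : ℝ) + 1) ((t y : ℝ) + 1) + (1 - csS ((t z : ℝ) + 1) ((t y : ℝ) + 1))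
        * (fr (t y + 1) / (R : ℝ) * (mn y u : ℝ)) ≤ PM y u + PC (f u) u)
    {al ga ze N0 Hm X0 T : ℝ} {nn mm X : ℕ → ℝ} (sh : ι → ℝ) (hal : 0 ≤ al) (hga : 0 ≤ ga)
    (hze : 0 ≤ ze)
    (hN : ∑ y ∈ J, nn y ≤ N0) (hH : ∑ y ∈ J, mm y ≤ Hm) (hX : ∑ y ∈ J, X y ≤ X0)
    (hT : al * ((R : ℝ) - ((t z : ℝ) + 1)) + ga * N0 + ze * Hm + X0 ≤ T)
    (cell : ∀ y ∈ J, flPhi R t U ho vl kp mn pc be g f fr fc sp PM PC J z y
      ≤ al * ((t y : ℝ) + 1) + ga * nn y + ze * mm y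
        + (∑ u ∈ flC U ho vl kp pc g f sp J z y, sh u
          - ∑ u ∈ flM U ho vl kp pc g f sp z y, sh u) + X y) :
    ∑ y ∈ J,
        (((t y : ℝ) + 1) / ((t z : ℝ) + 1 + ((t y : ℝ) + 1)) * (rnE U ho vl pc be g z y : ℝ)
        + ((1 - ((t y : ℝ) + 1) / ((t z : ℝ) + 1 + ((t y : ℝ) + 1)))
            * rnHl n U ho g (thLg R t vl kp mn g fr fc) z y
          - ((t y : ℝ) + 1) / ((t z : ℝ) + 1 + ((t y : ℝ) + 1))
            * rnSl n U ho g (thLg R t vl kp mn g fr fc) z y)) ≤ T := by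
  have hJ' : J ⊆ range n := hJ.trans (erase_subset _ _)
  refine (Lv.fl_pay H hz hJ' hsp).trans ((sum_le_sum cell).trans ?_)
  have h0 := Lv.fl_cut (z := z) (sp := sp) hJ' (fun m hm u hu => (hsp m hm u hu).1) sh
  rw [sum_add_distrib, sum_add_distrib, sum_add_distrib, sum_add_distrib, ← mul_sum, ← mul_sum,
    ← mul_sum, sum_sub_distrib, h0, sub_self, add_zero]
  have h1 : ∑ y ∈ J, ((t y : ℝ) + 1) ≤ (R : ℝ) - ((t z : ℝ) + 1) := by
    have h2 := H.tsum
    rw [← add_sum_erase (range n) (fun i => t i + 1) (mem_range.2 hz)] at h2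
    have h3 : ∑ y ∈ J, (t y + 1) ≤ ∑ y ∈ (range n).erase z, (t y + 1) :=
      sum_le_sum_of_subset_of_nonneg hJ fun i hi _ => by
        have := H.t0 i (mem_range.1 (mem_of_mem_erase hi))
        linarith
    have h4 : ∑ y ∈ J, (t y + 1) ≤ R - (t z + 1) := by
      beta_reduce at h2
      linarith
    exact_mod_cast h4
  have h2 := mul_le_mul_of_nonneg_left h1 hal
  have h3 := mul_le_mul_of_nonneg_left hN hga
  have h4 := mul_le_mul_of_nonneg_left hH hze
  linarith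

/-- **the frame with the block pairs**: `P` the block pairs of the row with tail in `J` -/
theorem LevC.frame_kap (Lv : LevC n U ho vl kp mn pc (fun u i => mn i u) g f)
    (H : PConC R n t s mu U ho vl kp mn pc ar be kq NN sg nu) (hz : z < n)
    (hJ : J ⊆ (range n).erase z) {PM PC : ℕ → ι → ℝ}
    (hsp : ∀ y ∈ J, ∀ u ∈ flM U ho vl kp pc g f sp z y, f u ∈ J ∧
      csS ((t z : ℝ) + 1) ((t y : ℝ) + 1) + (1 - csS ((t z : ℝ) + 1) ((t y : ℝ) + 1))
        * (fr (t y + 1) / (R : ℝ) * (mn y u : ℝ)) ≤ PM y u + PC (f u) u)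
    {al ga ze kap N0 Hm X0 T P : ℝ} {nn mm X : ℕ → ℝ} (sh : ι → ℝ) (hal : 0 ≤ al) (hga : 0 ≤ ga)
    (hze : 0 ≤ ze) (hk : 0 ≤ kap) (hP : P = ∑ y ∈ J, ((be z y - kq z y : ℤ) : ℝ))
    (hc : 0 < (R : ℝ) - ((t z : ℝ) + 1))
    (hN : ∑ y ∈ J, nn y ≤ N0) (hH : ∑ y ∈ J, mm y ≤ Hm) (hX : ∑ y ∈ J, X y ≤ X0)
    (hT : al * ((R : ℝ) - ((t z : ℝ) + 1)) + ga * N0 + ze * Hm + X0 ≤ T)
    (cell : ∀ y ∈ J, flPhi R t U ho vl kp mn pc be g f fr fc sp PM PC J z y
      ≤ al * ((t y : ℝ) + 1) + ga * nn y + ze * mm y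
        + (∑ u ∈ flC U ho vl kp pc g f sp J z y, sh u
          - ∑ u ∈ flM U ho vl kp pc g f sp z y, sh u)
        - kap * (((be z y - kq z y : ℤ) : ℝ)
          - ((t y : ℝ) + 1) / ((R : ℝ) - ((t z : ℝ) + 1)) * P) + X y) :
    ∑ y ∈ J,
        (((t y : ℝ) + 1) / ((t z : ℝ) + 1 + ((t y : ℝ) + 1)) * (rnE U ho vl pc be g z y : ℝ)
        + ((1 - ((t y : ℝ) + 1) / ((t z : ℝ) + 1 + ((t y : ℝ) + 1)))
            * rnHl n U ho g (thLg R t vl kp mn g fr fc) z y
          - ((t y : ℝ) + 1) / ((t z : ℝ) + 1 + ((t y : ℝ) + 1))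
            * rnSl n U ho g (thLg R t vl kp mn g fr fc) z y)) ≤ T := by
  refine Lv.frame H hz hJ hsp (X0 := X0) (X := fun y => X y - kap * (((be z y - kq z y : ℤ) : ℝ)
    - ((t y : ℝ) + 1) / ((R : ℝ) - ((t z : ℝ) + 1)) * P)) sh hal hga hze hN hH ?_ hT
    fun y hy => by
      have := cell y hy
      linarith
  rw [sum_sub_distrib, ← mul_sum, sum_sub_distrib, ← hP, ← sum_mul, ← sum_div]
  have h0 : 0 ≤ P := by
    rw [hP]
    refine sum_nonneg fun y hy => ?_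
    have h1 := H.kqb z hz y (mem_range.1 (mem_of_mem_erase (hJ hy)))
    exact_mod_cast (by linarith : 0 ≤ be z y - kq z y)
  have h1 : (∑ y ∈ J, ((t y : ℝ) + 1)) / ((R : ℝ) - ((t z : ℝ) + 1)) ≤ 1 := by
    rw [div_le_one hc]
    have h2 := H.tsum
    rw [← add_sum_erase (range n) (fun i => t i + 1) (mem_range.2 hz)] at h2
    have h3 : ∑ y ∈ J, (t y + 1) ≤ ∑ y ∈ (range n).erase z, (t y + 1) :=
      sum_le_sum_of_subset_of_nonneg hJ fun i hi _ => by
        have := H.t0 i (mem_range.1 (mem_of_mem_erase hi))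
        linarith
    have h4 : ∑ y ∈ J, (t y + 1) ≤ R - (t z + 1) := by
      beta_reduce at h2
      linarith
    exact_mod_cast h4
  have h2 := mul_le_mul_of_nonneg_right h1 h0
  have h3 := mul_nonneg hk (by linarith : 0 ≤ P - (∑ y ∈ J, ((t y : ℝ) + 1))
    / ((R : ℝ) - ((t z : ℝ) + 1)) * P)
  linarith

/-! ### the row numbers -/

/-- the misses of the served units of a cell are at most `R / 2` each -/
lemma LevC.mu_cell (Lv : LevC n U ho vl kp mn pc (fun u i => mn i u) g f)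
    (H : PCon R n t s mu U ho vl kp mn pc ar be kq NN sg nu) (hz : z < n) (hy : y < n) :
    0 ≤ rnSb U ho kp mn pc g z y ∧
      2 * rnSb U ho kp mn pc g z y ≤ R * rnE U ho vl pc be g z y := by
  have hR := R_pos H
  have h1 : ∀ u ∈ rnK U ho pc g z y, 0 ≤ msP kp mn z (g z) u ∧ 2 * msP kp mn z (g z) u ≤ R := by
    intro u hu
    obtain ⟨h2, h3, h4, h5⟩ := mem_filter.1 hu
    refine ⟨?_, ?_⟩
    · unfold msP
      split_ifs
      · exact H.m0 u h2 z hz
      · exact le_rfl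
    · rw [msP_unb h5]
      exact Lv.two_unb H (Lv.mem_unV' H h2 hz h5)
  have h2 : 2 * rnSb U ho kp mn pc g z y ≤ R * ∑ u ∈ rnK U ho pc g z y, (g z u : ℤ) := by
    unfold rnSb
    rw [mul_sum, mul_sum]
    refine sum_le_sum fun u hu => ?_
    have h3 : (1 : ℤ) ≤ (g z u : ℤ) := by
      exact_mod_cast Nat.one_le_iff_ne_zero.2 (mem_filter.1 hu).2.2.2
    nlinarith [(h1 u hu).2]
  refine ⟨?_, h2.trans (mul_le_mul_of_nonneg_left ?_ hR.le)⟩
  · unfold rnSb
    exact sum_nonneg fun u hu => (h1 u hu).1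
  · unfold rnE
    have h4 := H.be0 z hz y hy
    have h5 := H.be0 y hy z hz
    have h6 : (0 : ℤ) ≤ ∑ u ∈ rnC U ho vl pc z, (g y u : ℤ) :=
      sum_nonneg fun u _ => Nat.cast_nonneg _
    have h7 : (0 : ℤ) ≤ ((rnM U ho vl pc g z y).card : ℤ) := Nat.cast_nonneg _
    linarith

/-- **`nn = e - ρ mu`**: the cells of `J` have at most the units of the row -/
theorem LevC.nn_le (Lv : LevC n U ho vl kp mn pc (fun u i => mn i u) g f)
    (H : PCon R n t s mu U ho vl kp mn pc ar be kq NN sg nu) (hz : z < n)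
    (hJ : J ⊆ (range n).erase z) {ρ N0 : ℝ} (hρ : ρ * R ≤ 2)
    (h : ((∑ y ∈ (range n).erase z, rnE U ho vl pc be g z y : ℤ) : ℝ)
      - ρ * ((∑ y ∈ (range n).erase z, rnSb U ho kp mn pc g z y : ℤ) : ℝ) ≤ N0) :
    ∑ y ∈ J, ((rnE U ho vl pc be g z y : ℝ) - ρ * (rnSb U ho kp mn pc g z y : ℝ)) ≤ N0 := by
  refine le_trans ?_ h
  push_cast
  rw [mul_sum, ← sum_sub_distrib]
  refine sum_le_sum_of_subset_of_nonneg hJ fun y hy _ => ?_
  obtain ⟨h1, h2⟩ := Lv.mu_cell (vl := vl) (be := be) H hz (mem_range.1 (mem_of_mem_erase hy))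
  have hR : (0 : ℝ) < R := by exact_mod_cast R_pos H
  have h1' : (0 : ℝ) ≤ rnSb U ho kp mn pc g z y := by exact_mod_cast h1
  have h2' : (2 : ℝ) * rnSb U ho kp mn pc g z y ≤ R * rnE U ho vl pc be g z y := by
    exact_mod_cast h2
  have h3 : ρ * rnSb U ho kp mn pc g z y * R ≤ rnE U ho vl pc be g z y * R := by nlinarith
  have h4 := le_of_mul_le_mul_right h3 hR
  linarith

/-- **`mm` = the hosted units** of the cells of `J` -/
theorem LevC.mm_le (Lv : LevC n U ho vl kp mn pc (fun u i => mn i u) g f)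
    (H : PCon R n t s mu U ho vl kp mn pc ar be kq NN sg nu) (hz : z < n)
    (hJ : J ⊆ (range n).erase z) :
    ∑ y ∈ J, flH U ho vl pc g z y ≤ ∑ u ∈ U.filter (fun u => ho u = z ∧ pc u = 0), vl u := by
  have h1 := Lv.rn_mu H hz
  have h2 := H.mu_plain hz
  have h3 : ∑ y ∈ J, flH U ho vl pc g z y ≤ ∑ y ∈ (range n).erase z, flH U ho vl pc g z y :=
    sum_le_sum_of_subset_of_nonneg hJ fun y _ _ => by
      unfold flH
      exact add_nonneg (Nat.cast_nonneg _) (sum_nonneg fun u _ => Nat.cast_nonneg _)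
  have h4 : mu z = ∑ y ∈ (range n).erase z, be z y
      + ∑ y ∈ (range n).erase z, flH U ho vl pc g z y := by
    rw [h1, ← sum_add_distrib]
    refine sum_congr rfl fun y _ => ?_
    unfold flH
    ring
  linarith

/-- **the numbers of a hosted half**, main end `y`, cut end `f u` -/
theorem LevC.half_nums (Lv : LevC n U ho vl kp mn pc (fun u i => mn i u) g f)
    (H : PCon R n t s mu U ho vl kp mn pc ar be kq NN sg nu) (hz : z < n) (hy : y < n) {u : ι}
    (hu : u ∈ vHH U ho vl kp pc g f z y) :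
    f u < n ∧ f u ≠ z ∧ f u ≠ y ∧ kp y u = 1 ∧ kp (f u) u = 1 ∧ 0 ≤ mn y u ∧
      mn y u ≤ mn (f u) u ∧ mn y u * mn (f u) u ≤ R + t y * t (f u) ∧
      t (f u) + mn (f u) u ≤ R ∧ mn y u + mn (f u) u ≤ R ∧
      (t y + 1) + (t (f u) + 1) ≤ R - (t z + 1) := by
  obtain ⟨h1, h2, h3, h4, h5, h6⟩ := mem_filter.1 hu
  obtain ⟨-, k1, -, -, k2⟩ := Lv.hh_fact H hy hu
  have hfn := Lv.fn u h1
  have hfz : f u ≠ z := fun h => Lv.fh u h1 (h.trans h2.symm)
  have hf1 : kp (f u) u = 1 := by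
    refine H.kp_one h1 h4 hfn ?_
    have := Lv.f1 u h1
    omega
  have hb0 := H.m0 u h1 y hy
  have hbv : mn y u ≤ mn (f u) u := by
    rcases Lv.typ u h1 with ⟨a1, a2, a3, a4, a5⟩ | ⟨a1, a2, a3, a4⟩
    · exfalso
      have := a5 y hy k2
      omega
    · have h8 := a4 y hy (by rw [k1]; norm_num)
      beta_reduce at h8
      exact h8
  have hsum : mn y u + mn (f u) u ≤ R := by
    have h8 := H.m1 u h1 h4
    have h9 : ∑ l ∈ ({y, f u} : Finset ℕ), mn l u ≤ ∑ l ∈ range n, mn l u := by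
      refine sum_le_sum_of_subset_of_nonneg ?_ fun l hl _ => H.m0 u h1 l (mem_range.1 hl)
      intro l hl
      rcases mem_insert.1 hl with h10 | h10
      · rw [h10]
        exact mem_range.2 hy
      · rw [mem_singleton.1 h10]
        exact mem_range.2 hfn
    rw [sum_pair k2] at h9
    exact h9.trans h8
  have hyz : y ≠ z := by
    rintro rfl
    have := Lv.home u h1
    rw [h2, h5] at this
    omega
  have hm : (t y + 1) + (t (f u) + 1) ≤ R - (t z + 1) := by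
    have h9 : ({z, y, f u} : Finset ℕ) ⊆ range n := by
      intro i hi
      rw [mem_insert, mem_insert, mem_singleton] at hi
      rcases hi with rfl | rfl | rfl
      · exact mem_range.2 hz
      · exact mem_range.2 hy
      · exact mem_range.2 hfn
    have a1 : y ∉ ({f u} : Finset ℕ) := by
      rw [mem_singleton]
      exact k2
    have a2 : z ∉ ({y, f u} : Finset ℕ) := by
      rw [mem_insert, mem_singleton]
      rintro (h11 | h11)
      · exact hyz h11.symm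
      · exact hfz h11.symm
    have h10 : ∑ i ∈ ({z, y, f u} : Finset ℕ), (t i + 1)
        = (t z + 1) + (t y + 1) + (t (f u) + 1) := by
      rw [sum_insert a2, sum_insert a1, sum_singleton]
      ring
    have h11 : (t z + 1) + (t y + 1) + (t (f u) + 1) ≤ R := by
      rw [← h10]
      refine le_trans (sum_le_sum_of_subset_of_nonneg h9 fun i hi _ => ?_) H.tsum
      have := H.t0 i (mem_range.1 hi)
      linarith
    linarith
  have hmc := H.mnc u h1 (f u) hfn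
  exact ⟨hfn, hfz, k2.symm, k1, hf1, hb0, hbv, H.mpr u h1 y hy (f u) hfn k2, by linarith, hsum, hm⟩

/-- **46's payment of a hosted half with both ends in `J`** -/
theorem LevC.split46 (Lv : LevC n U ho vl kp mn pc (fun u i => mn i u) g f)
    (H : PCon R n t s mu U ho vl kp mn pc ar be kq NN sg nu) (hz : z < n) (hR : 65 ≤ R)
    (hA : ∀ i < n, 2 * (t i + 1) ≤ R) (hF : FacOK R fr fc)
    (h15 : 8 * (t y + 1) ≤ R → fr (t y + 1) ≤ 3 / 2) (h3 : 3 * R < 40 * (t z + 1)) (hy : y < n) (hy3 : R ≤ 2 * (t y + 1) ^ 3) {u : ι} (hu : u ∈ vHH U ho vl kp pc g f z y)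
    (hw3 : R ≤ 2 * (t (f u) + 1) ^ 3) :
    csS ((t z : ℝ) + 1) ((t y : ℝ) + 1) + (1 - csS ((t z : ℝ) + 1) ((t y : ℝ) + 1))
        * (fr (t y + 1) / (R : ℝ) * (mn y u : ℝ))
      ≤ (csS ((t z : ℝ) + 1) ((t y : ℝ) + 1)
          * ((R : ℝ) - ((t z : ℝ) + 1) - (mn y u : ℝ) + ((t z : ℝ) + 1) / 2)
            / ((R : ℝ) - ((t z : ℝ) + 1))
          + if 8 * (t y + 1) ≤ R then (R : ℝ) / (50 * ((R : ℝ) - ((t z : ℝ) + 1))) else 0)
        + csS ((t z : ℝ) + 1) ((t (f u) : ℝ) + 1)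
          * max 0 ((R : ℝ) - ((t z : ℝ) + 1) - (mn (f u) u : ℝ) + ((t z : ℝ) + 1) / 2)
            / ((R : ℝ) - ((t z : ℝ) + 1)) := by
  obtain ⟨a1, a2, a3, a4, a5, a6, a7, a8, a9, a10, a11⟩ := Lv.half_nums H hz hy hu
  have h4 : ∀ i < n, R ≤ 2 * (t i + 1) ^ 3 → 3 ≤ t i := by
    intro i hi h5
    by_contra hcon
    push Not at hcon
    have h6 := H.t0 i hi
    have h7 : (t i + 1) ^ 3 ≤ 3 ^ 3 := pow_le_pow_left₀ (by linarith) (by linarith) 3
    linarith
  have ht := h4 y hy hy3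
  have hu4 := h4 _ a1 hw3
  have k1 := cs_payF (R := (R : ℝ)) (A := (t z : ℝ) + 1) (t := (t y : ℝ)) (u := (t (f u) : ℝ))
    (b := (mn y u : ℝ)) (v := (mn (f u) u : ℝ)) (f := fr (t y + 1)) (by exact_mod_cast hR)
    (by have : (3 : ℤ) * R ≤ 40 * (t z + 1) := h3.le
        exact_mod_cast this) (by exact_mod_cast hA z hz) (by exact_mod_cast ht)
    (by exact_mod_cast hA y hy) (by exact_mod_cast hu4) (by exact_mod_cast hA _ a1)
    (by exact_mod_cast hy3) (by exact_mod_cast hw3) (by exact_mod_cast a6)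
    (by exact_mod_cast a7) (by exact_mod_cast a8) (by exact_mod_cast a9) (by exact_mod_cast a10)
    (by exact_mod_cast a11)
  have h5 := hF.rF (t y + 1) (by linarith) (hA y hy)
  have e1 : ∀ x : ℝ, (1 - csS ((t z : ℝ) + 1) ((t y : ℝ) + 1)) * (fr (t y + 1) / (R : ℝ) * x)
      = fr (t y + 1) * (1 - csS ((t z : ℝ) + 1) ((t y : ℝ) + 1)) * x / R := fun x => by ring
  rw [e1]
  by_cases h8 : 8 * (t y + 1) ≤ R
  · rw [if_pos h8]
    have := k1.1 (by exact_mod_cast h8) (h15 h8)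
    linarith
  · rw [if_neg h8, add_zero]
    have h9 : fr (t y + 1) ≤ 9 / 5 * (1 - 2 * ((t y : ℝ) + 1) / (R : ℝ)) := by
      rcases h5 with h5 | h5
      · exact absurd h5.1 h8
      · push_cast at h5
        exact h5
    exact k1.2 (by
      have : R ≤ 8 * (t y + 1) := (not_le.1 h8).le
      exact_mod_cast this) h9

end FrL

/-- table L8 up to `R / 8` -/
lemma fL8_le {R A : ℤ} (h8 : 8 * A ≤ R) : fL8 R A ≤ 3 / 2 := by
  unfold fL8
  split_ifs with h1
  · norm_num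
  · exact le_rfl

end Pool.Agent.Lib.MP_f04ccf_co
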