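import Pool.Agent.Lib.MP_f04ccf_co.M.FrL

/-!
MP_f04ccf_co, TEXT D, regime L, **the row numbers of the frame**: hosted non-Konig value and the chord bound of `tzN`.

* `PCon.kept_T`: `M (2 (c + d) - M - p) ≤ 2 R d` for the hosted non-Konig value `M` and the largest block `p`;
* `kept_num`, `PCon.kept_le`: `M ≤ N` from numbers;
* `LevC.chord`: `E - ρ B ≤ N` for all units `E` and all misses `B` of a row, from polynomial inequalities in `ρ`, `N`
  and the miss `β`;
* `chord_num`, `LevC.chord2`: the ends `β = 0` and `β = βm` are enough;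
* `LevC.own_tz`: the own tz of a cell; `split_pi`: mixed payments.
-/

set_option autoImplicit false

namespace Pool.Agent.Lib.MP_f04ccf_co

open Finset

attribute [local instance] Classical.propDecidable

section FrN

variable {ι : Type*} {R : ℤ} {n : ℕ} {t s mu : ℕ → ℤ} {U : Finset ι} {ho : ι → ℕ} {vl : ι → ℤ}
  {kp mn : ℕ → ι → ℤ} {pc ar : ι → ℤ} {be kq NN sg : ℕ → ℕ → ℤ} {nu : ℕ → ι → ℤ} {z y : ℕ}
  {φ : ι → ℕ → ℤ} {g : ℕ → ι → ℕ} {f : ι → ℕ}

/-- **the hosted non-Konig value** `M`: the row test with the blocks kept -/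
theorem PCon.kept_T (H : PCon R n t s mu U ho vl kp mn pc ar be kq NN sg nu) (hz : z < n) {M : ℤ}
    (hM : M = mu z - ∑ l ∈ range n, kq z l) :
    0 ≤ M ∧ M ≤ R - (t z + 1) + (mu z - s z) + 1 ∧
      (∀ l < n, 0 ≤ be z l - kq z l ∧ be z l - kq z l ≤ M ∧ be z l - kq z l ≤ t z + 1) ∧
      ∀ p : ℤ, (∀ l < n, be z l - kq z l ≤ p) →
        M * (2 * (R - (t z + 1) + (mu z - s z)) - M - p) ≤ 2 * (R * (mu z - s z)) := by
  have ht0 := H.t0 z hz
  have h1 := H.tT z hz (range n) (Subset.refl _) ∅ (empty_subset _) ∅ (empty_subset _)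
    (fun u hu => absurd hu (notMem_empty u)) ∅ (empty_subset _)
    (fun u hu => absurd hu (notMem_empty u)) (fun _ => 0) (fun u hu => absurd hu (notMem_empty u))
    (fun u hu => absurd hu (notMem_empty u))
  have e1 : (range n).erase z \ range n = ∅ := sdiff_eq_empty_iff_subset.2 (erase_subset _ _)
  have e2 : svP n ho vl (∅ : Finset ι) (fun _ => 0) = 0 := by
    unfold svP
    simp
  simp only [sum_empty, sdiff_empty, e1, e2, mul_zero, add_zero, sub_zero] at h1
  have hbe : ∀ l ∈ range n, 0 ≤ be z l - kq z l ∧ be z l - kq z l ≤ t z + 1 := by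
    intro l hl
    have hl' := mem_range.1 hl
    have h2 := H.kqb z hz l hl'
    have h3 := H.kq0 z hz l hl'
    by_cases h4 : l = z
    · subst h4
      have h5 := H.be_self hz
      rw [h5] at h2 ⊢
      constructor <;> linarith
    · have h5 := H.be_le hl' hz h4
      have h6 := H.be0 l hl' z hz
      constructor <;> linarith
  have hsum : ∑ l ∈ range n, (be z l - kq z l) ≤ M := by
    have h2 := H.pc_tails hz
    have h3 : ∑ l ∈ range n, be z l = ∑ l ∈ (range n).erase z, be z l := by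
      have := add_sum_erase (range n) (fun l => be z l) (mem_range.2 hz)
      beta_reduce at this
      rw [H.be_self hz] at this
      linarith
    have h4 : ∑ u ∈ U.filter (fun u => ho u = z), pc u ≤ mu z := by
      rw [H.hmu z hz]
      refine sum_le_sum fun u hu => ?_
      have h5 := (mem_filter.1 hu).1
      have h6 := H.v1 u h5
      rcases H.pc01 u h5 with h7 | h7 <;> rw [h7] <;> linarith
    rw [sum_sub_distrib, h3, ← h2, hM]
    linarith
  have hM0 : 0 ≤ M := (sum_nonneg fun l hl => (hbe l hl).1).trans hsum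
  have hglob := H.glob1 hz
  have hk0 : 0 ≤ ∑ l ∈ range n, kq z l :=
    sum_nonneg fun l hl => H.kq0 z hz l (mem_range.1 hl)
  refine ⟨hM0, by linarith, fun l hl => ⟨(hbe l (mem_range.2 hl)).1, ?_,
    (hbe l (mem_range.2 hl)).2⟩, fun p hp => ?_⟩
  · exact (single_le_sum (f := fun l => be z l - kq z l) (fun l hl => (hbe l hl).1)
      (mem_range.2 hl)).trans hsum
  · have hp0 : 0 ≤ p := by
      have := hp z hz
      have h5 := (hbe z (mem_range.2 hz)).1
      linarith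
    have hN : ∑ l ∈ range n, (be z l - kq z l) * (be z l - kq z l + 1) ≤ (p + 1) * M := by
      calc ∑ l ∈ range n, (be z l - kq z l) * (be z l - kq z l + 1)
          ≤ ∑ l ∈ range n, (be z l - kq z l) * (p + 1) :=
            sum_le_sum fun l hl => mul_le_mul_of_nonneg_left
              (by linarith [hp l (mem_range.1 hl)]) (hbe l hl).1
        _ = (p + 1) * ∑ l ∈ range n, (be z l - kq z l) := by rw [← sum_mul, mul_comm]
        _ ≤ (p + 1) * M := mul_le_mul_of_nonneg_left hsum (by linarith)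
    unfold TstP at h1
    rw [← hM] at h1
    have e3 : s z - ∑ l ∈ range n, kq z l = M - (mu z - s z) := by rw [hM]; ring
    rw [e3] at h1
    nlinarith

/-- numbers: the two branches of `M (2 S - M - p) ≤ 2 K` -/
lemma kept_num {M S K p N : ℝ} (hM1 : M ≤ S + 1) (h1 : M * (2 * S - M - M) ≤ 2 * K)
    (h2 : M * (2 * S - M - p) ≤ 2 * K) (hN1 : K < N * (S - N))
    (k1 : 8 * K < S * (3 * S - 2 * p)) (k2 : 2 * K < (S + 1) * (S - 1 - p)) : M ≤ N := by
  by_contra hcon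
  push Not at hcon
  rcases le_or_gt (2 * M) S with h3 | h3
  · nlinarith [mul_nonneg (by linarith : 0 ≤ M - N) (by linarith : 0 ≤ S - M - N)]
  · have h4 : 0 ≤ (M - S / 2) * (S + 1 - M) :=
      mul_nonneg (by linarith) (by linarith)
    rcases le_or_gt 0 (2 * S - p - S / 2 - (S + 1)) with h5 | h5
    · nlinarith [mul_nonneg h5 (by linarith : 0 ≤ M - S / 2)]
    · nlinarith [mul_nonneg (by linarith : 0 ≤ -(2 * S - p - S / 2 - (S + 1)))
        (by linarith : 0 ≤ S + 1 - M)]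

/-- **the hosted non-Konig value is at most `N`** -/
theorem PCon.kept_le (H : PCon R n t s mu U ho vl kp mn pc ar be kq NN sg nu) (hz : z < n)
    {S K p N : ℝ} (hS : S = (R : ℝ) - ((t z : ℝ) + 1) + ((mu z : ℝ) - s z))
    (hK : K = (R : ℝ) * ((mu z : ℝ) - s z)) (hp : ((t z : ℝ) + 1) ≤ p)
    (hN1 : K < N * (S - N))
    (k1 : 8 * K < S * (3 * S - 2 * p)) (k2 : 2 * K < (S + 1) * (S - 1 - p)) :
    ((mu z - ∑ l ∈ range n, kq z l : ℤ) : ℝ) ≤ N := by
  obtain ⟨M, hM⟩ : ∃ M : ℤ, M = mu z - ∑ l ∈ range n, kq z l := ⟨_, rfl⟩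
  obtain ⟨h0, h1, h2, h3⟩ := H.kept_T hz hM
  have h4 := h3 M fun l hl => (h2 l hl).2.1
  have h5 := h3 (t z + 1) fun l hl => (h2 l hl).2.2
  rw [← hM]
  have h0' : (0 : ℝ) ≤ M := by exact_mod_cast h0
  have h1' : (M : ℝ) ≤ S + 1 := by
    rw [hS]
    exact_mod_cast h1
  have h4' : (M : ℝ) * (2 * S - M - M) ≤ 2 * K := by
    rw [hS, hK]
    exact_mod_cast h4
  have h5' : (M : ℝ) * (2 * S - M - ((t z : ℝ) + 1)) ≤ 2 * K := by
    rw [hS, hK]
    exact_mod_cast h5
  have h6 : (M : ℝ) * (2 * S - M - p) ≤ 2 * K := by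
    have := mul_le_mul_of_nonneg_left (show 2 * S - M - p ≤ 2 * S - M - ((t z : ℝ) + 1) by
      linarith) h0'
    linarith
  exact kept_num h1' h4' h6 hN1 k1 k2

/-- **the chord conditions from the two ends** `β = 0` and `β = βm` (`x = 1 - ρ β`; `1 / x` is the natural letter) -/
lemma chord_num {R A d N ρ βm β : ℝ} (hR : 2 ≤ R) (hβ0 : 0 ≤ β) (hβ : β ≤ βm)
    (hm : 0 < 1 - ρ * βm) (hρ : 0 ≤ ρ)
    (h1 : 2 * N + 2 * (1 - ρ * βm) ≤ R * (1 - ρ * βm))
    (h0 : A * N + 1 / 2 < (R - 2 * N) * (N - d))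
    (h2 : (A + βm) * N * (1 - ρ * βm) + (1 - ρ * βm) ^ 2 / 2
      < (R * (1 - ρ * βm) - 2 * N) * (N - d * (1 - ρ * βm))) :
    2 * N + 2 * (1 - ρ * β) ≤ R * (1 - ρ * β) ∧
      (A + β) * N * (1 - ρ * β) + (1 - ρ * β) ^ 2 / 2
        < (R * (1 - ρ * β) - 2 * N) * (N - d * (1 - ρ * β)) := by
  have hβm : 0 ≤ βm := hβ0.trans hβ
  have hx : 1 - ρ * βm ≤ 1 - ρ * β := by
    have := mul_le_mul_of_nonneg_left hβ hρ
    linarith
  constructor
  · nlinarith [mul_nonneg (by linarith : 0 ≤ R - 2)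
      (by linarith : 0 ≤ (1 - ρ * β) - (1 - ρ * βm))]
  · rcases hβm.eq_or_lt with h | h
    · have h3 : β = 0 := le_antisymm (by rw [h]; exact hβ) hβ0
      rw [h3]
      linarith
    · obtain ⟨x, hxx⟩ : ∃ x, x = 1 - ρ * β := ⟨_, rfl⟩
      obtain ⟨w, hw⟩ : ∃ w, w = 1 - ρ * βm := ⟨_, rfl⟩
      rw [← hw] at h1 h2 hm hx
      rw [← hxx] at hx ⊢
      have hx0 : 0 < x := lt_of_lt_of_le hm hx
      -- the identity, multiplied by `βm x² w²`
      have e1 : βm * w * ((R * x - 2 * N) * (N - d * x) - (A + β) * N * x - x ^ 2 / 2)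
          = w * (βm * x - β * w) * x * ((R - 2 * N) * (N - d) - A * N - 1 / 2)
            + β * x * ((R * w - 2 * N) * (N - d * w) - (A + βm) * N * w - w ^ 2 / 2)
            + 2 * N ^ 2 * (β * (βm - β) * ρ ^ 2 * βm) := by
        rw [hxx, hw]
        ring
      have h3 : 0 ≤ βm * x - β * w := by
        have := mul_le_mul hβ hx hm.le hβm
        linarith
      have h4 : 0 < βm * x - β * w ∨ 0 < β := by
        rcases hβ0.eq_or_lt with h5 | h5
        · left
          rw [← h5]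
          simp only [zero_mul, sub_zero]
          exact mul_pos h hx0
        · exact Or.inr h5
      have h5 : 0 ≤ 2 * N ^ 2 * (β * (βm - β) * ρ ^ 2 * βm) :=
        mul_nonneg (by positivity) (mul_nonneg (mul_nonneg (mul_nonneg hβ0 (by linarith))
          (sq_nonneg ρ)) hβm)
      have h6 : 0 < βm * w * ((R * x - 2 * N) * (N - d * x) - (A + β) * N * x - x ^ 2 / 2) := by
        rw [e1]
        rcases h4 with h7 | h7
        · have a1 : 0 < w * (βm * x - β * w) * x * ((R - 2 * N) * (N - d) - A * N - 1 / 2) :=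
            mul_pos (mul_pos (mul_pos hm h7) hx0) (by linarith)
          have a2 : 0 ≤ β * x * ((R * w - 2 * N) * (N - d * w) - (A + βm) * N * w - w ^ 2 / 2) :=
            mul_nonneg (mul_nonneg hβ0 hx0.le) (by linarith)
          linarith
        · have a1 : 0 ≤ w * (βm * x - β * w) * x * ((R - 2 * N) * (N - d) - A * N - 1 / 2) :=
            mul_nonneg (mul_nonneg (mul_nonneg hm.le h3) hx0.le) (by linarith)
          have a2 : 0 < β * x * ((R * w - 2 * N) * (N - d * w) - (A + βm) * N * w - w ^ 2 / 2) :=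
            mul_pos (mul_pos h7 hx0) (by linarith)
          linarith
      have h7 := (mul_pos_iff_of_pos_left (mul_pos h hm)).1 h6
      linarith

/-- **the chord bound of `tzN`**: `E` all units, `B` all misses of the row -/
theorem LevC.chord (C : LevC n U ho vl kp mn pc (fun u i => mn i u) g f)
    (H : PCon R n t s mu U ho vl kp mn pc ar be kq NN sg nu) (hz : z < n)
    {S K p ρ N βm A d : ℝ} (hA : A = (t z : ℝ) + 1) (hd : d = (mu z : ℝ) - s z)
    (hS : S = (R : ℝ) - A + d) (hK : K = (R : ℝ) * d) (hp : A ≤ p) (hρ : 0 ≤ ρ)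
    (hρ2 : ρ * R ≤ 2) (hN0 : 0 < N) (hN1 : K < N * (S - N))
    (k1 : 8 * K < S * (3 * S - 2 * p)) (k2 : 2 * K < (S + 1) * (S - 1 - p))
    (hm0 : 0 ≤ βm) (hm : ∀ v ∈ unV n U g, v.2.1 = z → (unb kp mn g v : ℝ) ≤ βm)
    (h3 : ∀ β x : ℝ, 0 ≤ β → β ≤ βm → x = 1 - ρ * β → 0 < x → x ≤ 1 →
      2 * N + 2 * x ≤ R * x ∧ (A + β) * N * x + x ^ 2 / 2 < (R * x - 2 * N) * (N - d * x))
    {J : Finset ℕ} (hJ : J ⊆ (range n).erase z) :
    ∑ y ∈ J, ((rnE U ho vl pc be g z y : ℝ) - ρ * (rnSb U ho kp mn pc g z y : ℝ)) ≤ N := by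
  have h1 := H.kept_le hz (S := S) (K := K) (p := p) (N := N) (by rw [hS, hA, hd])
    (by rw [hK, hd]) (by rw [← hA]; exact hp) hN1 k1 k2
  refine C.nn_le H hz hJ hρ2 (C.n_row H hz rfl rfl hρ hm0 hN0.le h1 hm
    fun β x hβ0 hβ1 hx hx0 => ?_)
  have hx1 : x ≤ 1 := by
    have := mul_nonneg hρ hβ0
    linarith
  obtain ⟨k3, k4⟩ := h3 β x hβ0 hβ1 hx hx0 hx1
  rw [← hA, ← hd]
  obtain ⟨q, hq⟩ : ∃ q : ℝ, q = N / x := ⟨_, rfl⟩
  rw [← hq]
  have hqx : q * x = N := by rw [hq, div_mul_cancel₀ _ hx0.ne']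
  have hq0 : 0 ≤ q := by rw [hq]; exact div_nonneg hN0.le hx0.le
  constructor
  · have h5 : (2 * q + 2) * x ≤ R * x := by
      rw [add_mul, mul_assoc, hqx]
      linarith
    exact le_of_mul_le_mul_right h5 hx0
  · have h5 : ((A + β) * q + 1 / 2) * (x * x) < (((R : ℝ) - 2 * q) * (q - d)) * (x * x) := by
      have e1 : ((A + β) * q + 1 / 2) * (x * x) = (A + β) * (q * x) * x + x ^ 2 / 2 := by ring
      have e2 : (((R : ℝ) - 2 * q) * (q - d)) * (x * x)
          = ((R : ℝ) * x - 2 * (q * x)) * (q * x - d * x) := by ring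
      rw [e1, e2, hqx]
      exact k4
    exact lt_of_mul_lt_mul_right h5 (by positivity)

/-- **the chord bound with the two end conditions** -/
theorem LevC.chord2 (C : LevC n U ho vl kp mn pc (fun u i => mn i u) g f)
    (H : PCon R n t s mu U ho vl kp mn pc ar be kq NN sg nu) (hz : z < n)
    {S K p ρ N βm A d : ℝ} (hA : A = (t z : ℝ) + 1) (hd : d = (mu z : ℝ) - s z)
    (hS : S = (R : ℝ) - A + d) (hK : K = (R : ℝ) * d) (hp : A ≤ p) (hρ : 0 ≤ ρ)
    (hρ2 : ρ * R ≤ 2) (hR2 : (2 : ℝ) ≤ R) (hN0 : 0 < N) (hN1 : K < N * (S - N))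
    (k1 : 8 * K < S * (3 * S - 2 * p)) (k2 : 2 * K < (S + 1) * (S - 1 - p))
    (hm0 : 0 ≤ βm) (hm : ∀ v ∈ unV n U g, v.2.1 = z → (unb kp mn g v : ℝ) ≤ βm)
    (hx : 0 < 1 - ρ * βm) (h1 : 2 * N + 2 * (1 - ρ * βm) ≤ R * (1 - ρ * βm))
    (h0 : A * N + 1 / 2 < (R - 2 * N) * (N - d))
    (h2 : (A + βm) * N * (1 - ρ * βm) + (1 - ρ * βm) ^ 2 / 2
      < (R * (1 - ρ * βm) - 2 * N) * (N - d * (1 - ρ * βm)))
    {J : Finset ℕ} (hJ : J ⊆ (range n).erase z) :
    ∑ y ∈ J, ((rnE U ho vl pc be g z y : ℝ) - ρ * (rnSb U ho kp mn pc g z y : ℝ)) ≤ N := by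
  refine C.chord H hz hA hd hS hK hp hρ hρ2 hN0 hN1 k1 k2 hm0 hm
    (fun β x hβ0 hβ1 hxx _ _ => ?_) hJ
  rw [hxx]
  exact chord_num hR2 hβ0 hβ1 hx hρ h1 h0 h2

/-- the misses at `z` of the served units of a cell are at most `R / 2` per unit -/
lemma LevC.mu_srv (Lv : LevC n U ho vl kp mn pc (fun u i => mn i u) g f)
    (H : PCon R n t s mu U ho vl kp mn pc ar be kq NN sg nu) (hz : z < n) (y : ℕ) :
    0 ≤ rnSb U ho kp mn pc g z y ∧
      2 * rnSb U ho kp mn pc g z y ≤ R * ∑ u ∈ rnK U ho pc g z y, (g z u : ℤ) := by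
  have hR := R_pos H
  have h1 : ∀ u ∈ rnK U ho pc g z y, 0 ≤ msP kp mn z (g z) u ∧ 2 * msP kp mn z (g z) u ≤ R := by
    intro u hu
    obtain ⟨h2, h3, h4, h5⟩ := mem_filter.1 hu
    refine ⟨?_, ?_⟩
    · unfold msP
      split_ifs
      · exact H.m0 u h2 z hz
      · exact le_rfl
    · rw [msP_unb h5]
      exact Lv.two_unb H (Lv.mem_unV' H h2 hz h5)
  refine ⟨?_, ?_⟩
  · unfold rnSb
    exact sum_nonneg fun u hu => (h1 u hu).1
  · unfold rnSb
    rw [mul_sum, mul_sum]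
    refine sum_le_sum fun u hu => ?_
    have h3 : (1 : ℤ) ≤ (g z u : ℤ) := by
      exact_mod_cast Nat.one_le_iff_ne_zero.2 (mem_filter.1 hu).2.2.2
    nlinarith [(h1 u hu).2]

/-- **own tz** (f7'): all hosted value, the pairs out of the cell and its served units are at most `N0` -/
theorem LevC.own_tz (Lv : LevC n U ho vl kp mn pc (fun u i => mn i u) g f)
    (H : PCon R n t s mu U ho vl kp mn pc ar be kq NN sg nu) (hz : z < n)
    (hy : y ∈ (range n).erase z) {ρ N0 : ℝ} (hρ : ρ * R ≤ 2)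
    (h : ∑ y ∈ (range n).erase z,
      ((rnE U ho vl pc be g z y : ℝ) - ρ * (rnSb U ho kp mn pc g z y : ℝ)) ≤ N0) :
    (mu z : ℝ) + be y z + ∑ u ∈ rnK U ho pc g z y, (g z u : ℝ)
      - ρ * (rnSb U ho kp mn pc g z y : ℝ) ≤ N0 := by
  have hR : (0 : ℝ) < R := by exact_mod_cast R_pos H
  have h1 : mu z = ∑ l ∈ (range n).erase z, (be z l + flH U ho vl pc g z l) := by
    rw [Lv.rn_mu H hz]
    refine sum_congr rfl fun y _ => ?_
    unfold flH
    ring
  have h2 : (mu z : ℝ) = ∑ l ∈ (range n).erase z, ((be z l : ℝ) + (flH U ho vl pc g z l : ℝ)) := by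
    rw [h1]
    push_cast
    rfl
  have h3 : ∀ l : ℕ, (rnE U ho vl pc be g z l : ℝ) = (be z l : ℝ) + (flH U ho vl pc g z l : ℝ)
      + (be l z : ℝ) + ∑ u ∈ rnK U ho pc g z l, (g z u : ℝ) := by
    intro l
    unfold rnE flH
    push_cast
    ring
  have h4 : ∑ l ∈ ((range n).erase z).erase y, ((be z l : ℝ) + (flH U ho vl pc g z l : ℝ))
      ≤ ∑ l ∈ ((range n).erase z).erase y,
        ((rnE U ho vl pc be g z l : ℝ) - ρ * (rnSb U ho kp mn pc g z l : ℝ)) := by
    refine sum_le_sum fun l hl => ?_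
    have hl' := mem_range.1 (mem_of_mem_erase (mem_of_mem_erase hl))
    obtain ⟨k1, k2⟩ := Lv.mu_srv H hz l
    have k3 := H.be0 l hl' z hz
    have k1' : (0 : ℝ) ≤ rnSb U ho kp mn pc g z l := by exact_mod_cast k1
    have k2' : (2 : ℝ) * rnSb U ho kp mn pc g z l
        ≤ R * ∑ u ∈ rnK U ho pc g z l, (g z u : ℝ) := by exact_mod_cast k2
    have k3' : (0 : ℝ) ≤ be l z := by exact_mod_cast k3
    have k4 : ρ * rnSb U ho kp mn pc g z l * R
        ≤ (∑ u ∈ rnK U ho pc g z l, (g z u : ℝ)) * R := by nlinarith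
    have k5 := le_of_mul_le_mul_right k4 hR
    rw [h3 l]
    linarith
  have h5 := add_sum_erase ((range n).erase z)
    (fun l => (be z l : ℝ) + (flH U ho vl pc g z l : ℝ)) hy
  have h6 := add_sum_erase ((range n).erase z)
    (fun l => (rnE U ho vl pc be g z l : ℝ) - ρ * (rnSb U ho kp mn pc g z l : ℝ)) hy
  beta_reduce at h5 h6
  rw [← h2] at h5
  rw [h3 y] at h6
  linarith

end FrN

/-- **a mixed payment**: `pi` of the payment stays with the main piece -/
lemma split_pi {X a b pi : ℝ} (h1 : pi ≤ 1) (h : X ≤ a + b) :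
    X ≤ ((1 - pi) * a + pi * X) + (1 - pi) * b := by
  have := mul_le_mul_of_nonneg_left h (by linarith : 0 ≤ 1 - pi)
  linarith

end Pool.Agent.Lib.MP_f04ccf_co
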