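import Pool.Agent.Lib.MP_f04ccf_co.M.RowN
import Pool.Agent.Lib.MP_f04ccf_co.M.RowCol

/-!
MP_f04ccf_co, PLAN W, version [B]: the free arcs ITEM BY ITEM.
* `nuS z u`: the N-types of the item `u` with the tail `z` (the member of a PC pair, the N-ends of a clique);
  `nuC z u` their number, `nuF z u` their free arcs.
* `Pk.sum_nuC`, `Pk.sum_nuF`: the N-types and the free arcs of a host as sums over its items.
* `Pk.nuC_le`, `Pk.nuC_sum`: an item of value `v` has at most `v` N-types (a half unit at most one).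
* `Pk.iar_le`, `Pk.sum_nd_le`: upper bounds of the arcs of one item and of all members.
-/

set_option autoImplicit false

namespace Pool.Agent.Lib.MP_f04ccf_co

open Finset

attribute [local instance] Classical.propDecidable

section NuPk

variable {ι V : Type*} {G : SimpleGraph V} {C H : Finset V} {tl : V → ι}
  {B : Finset (V × V)} {Ps : Finset (Finset V)}

variable (G) in
/-- the N-types of an item with the tail `z` -/
noncomputable def nuS (C : Finset V) (tl : V → ι) (B : Finset (V × V)) (z : ι) : Itm V → Finset V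
  | Sum.inl Q => Q.filter fun v => tl v = z ∧ (frC G C tl B v).Nonempty
  | Sum.inr e => ({e.1} : Finset V).filter fun v => tl v = z

variable (G) in
/-- the number of N-types of an item with the tail `z` -/
noncomputable def nuC (C : Finset V) (tl : V → ι) (B : Finset (V × V)) (z : ι) (u : Itm V) : ℕ :=
  (nuS G C tl B z u).card

variable (G) in
/-- the free arcs of the N-types of an item with the tail `z` -/
noncomputable def nuF (C : Finset V) (tl : V → ι) (B : Finset (V × V)) (z : ι) (u : Itm V) : ℕ :=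
  ∑ v ∈ nuS G C tl B z u, (frC G C tl B v).card

lemma nuS_sub {z : ι} {u : Itm V} : nuS G C tl B z u ⊆ imem u := by
  rcases u with Q | e
  · exact filter_subset _ _
  · exact filter_subset _ _

lemma nuS_tl {z : ι} {u : Itm V} {v : V} (hv : v ∈ nuS G C tl B z u) : tl v = z := by
  rcases u with Q | e
  · exact (mem_filter.1 hv).2.1
  · exact (mem_filter.1 hv).2

lemma nuF_eq {z : ι} {u : Itm V} : nuF G C tl B z u
    = ∑ v ∈ (imem u).filter (fun v => tl v = z), (frC G C tl B v).card := by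
  rcases u with Q | e
  · unfold nuF
    refine sum_subset ?_ ?_
    · intro v hv
      obtain ⟨h1, h2, -⟩ := mem_filter.1 hv
      exact mem_filter.2 ⟨h1, h2⟩
    · intro v hv hv'
      obtain ⟨h1, h2⟩ := mem_filter.1 hv
      rw [card_eq_zero]
      by_contra h3
      exact hv' (mem_filter.2 ⟨h1, h2, nonempty_iff_ne_empty.2 h3⟩)
  · rfl

namespace Pk

/-- different items have different members -/
lemma imem_disj (h : Pk G C H tl B Ps) {u v : Itm V} (hu : u ∈ pkf B Ps) (hv : v ∈ pkf B Ps)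
    (huv : u ≠ v) : Disjoint (imem u) (imem v) := by
  rw [disjoint_left]
  intro w hw hw'
  rcases u with P | e <;> rcases v with P' | e'
  · have h2 := (inl_mem_pkf.1 hu).1
    have h3 := (inl_mem_pkf.1 hv).1
    exact huv (by rw [h.part_eq h2 h3 hw hw'])
  · have h2 := (inl_mem_pkf.1 hu).1
    have h3 := inr_mem_pkf.1 hv
    simp only [imem, mem_singleton] at hw hw'
    exact h.dw e' h3 P h2 (hw' ▸ hw)
  · have h2 := (inl_mem_pkf.1 hv).1
    have h3 := inr_mem_pkf.1 hu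
    simp only [imem, mem_singleton] at hw hw'
    exact h.dw e h3 P' h2 (hw ▸ hw')
  · have h2 := inr_mem_pkf.1 hu
    have h3 := inr_mem_pkf.1 hv
    simp only [imem, mem_singleton] at hw hw'
    exact huv (by rw [h.b1 e h2 e' h3 (hw.symm.trans hw')])

/-- **the N-types of a host are the N-types of its items** -/
theorem biUnion_nuS (h : Pk G C H tl B Ps)
    (hmin : ∀ B' Ps', Pk G C H tl B' Ps' → Ps.card ≤ Ps'.card)
    (h32 : ∀ v ∈ H, ∀ w ∈ H, ∀ a ∈ C, v ≠ w → tl v = tl w →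
      ¬ G.Adj v a → ¬ G.Adj w a → G.Adj v w) (z : ι) :
    (pkf B Ps).biUnion (nuS G C tl B z) = ntl G C H tl B z := by
  ext v
  constructor
  · intro hv
    obtain ⟨u, hu, hvu⟩ := mem_biUnion.1 hv
    rcases u with Q | e
    · obtain ⟨h1, h2, h3⟩ := mem_filter.1 hvu
      have h4 := (inl_mem_pkf.1 hu).1
      refine mem_union_right _ (mem_filter.2 ⟨mem_Nend.2 ⟨mem_sdiff.2 ⟨h.sub Q h4 h1, ?_⟩, h3⟩, h2⟩)
      intro h5
      obtain ⟨e, he, hev⟩ := mem_image.1 h5
      exact h.dw e he Q h4 (hev ▸ h1)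
    · obtain ⟨h1, h2⟩ := mem_filter.1 hvu
      rw [mem_singleton] at h1
      subst h1
      exact mem_union_left _ (mem_image_of_mem _ (mem_btl.2 ⟨inr_mem_pkf.1 hu, h2⟩))
  · intro hv
    rcases mem_union.1 hv with h1 | h1
    · obtain ⟨e, he, rfl⟩ := mem_image.1 h1
      obtain ⟨h2, h3⟩ := mem_btl.1 he
      exact mem_biUnion.2 ⟨Sum.inr e, inr_mem_pkf.2 h2, mem_filter.2 ⟨mem_singleton_self _, h3⟩⟩
    · obtain ⟨h2, h3⟩ := mem_filter.1 h1
      obtain ⟨h4, h5⟩ := mem_Nend.1 h2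
      rw [h.union_eq] at h4
      obtain ⟨P, hP, hvP⟩ := mem_biUnion.1 h4
      obtain ⟨w, hw, hw'⟩ := h.home hmin h32 hP
      have h6 : 2 ≤ P.card := by
        by_contra hcon
        have h7 : P.card ≤ 1 := by omega
        have h8 := card_le_one.1 h7 v hvP w hw
        exact hw' (h8 ▸ h5)
      exact mem_biUnion.2 ⟨Sum.inl P, inl_mem_pkf.2 ⟨hP, h6⟩, mem_filter.2 ⟨hvP, h3, h5⟩⟩

lemma nuS_disj (h : Pk G C H tl B Ps) (z : ι) :
    (pkf B Ps : Set (Itm V)).PairwiseDisjoint (nuS G C tl B z) := by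
  intro u hu v hv huv
  have hu' : u ∈ pkf B Ps := by exact_mod_cast hu
  have hv' : v ∈ pkf B Ps := by exact_mod_cast hv
  exact (h.imem_disj hu' hv' huv).mono nuS_sub nuS_sub

/-- the number of N-types, item by item -/
theorem sum_nuC (h : Pk G C H tl B Ps)
    (hmin : ∀ B' Ps', Pk G C H tl B' Ps' → Ps.card ≤ Ps'.card)
    (h32 : ∀ v ∈ H, ∀ w ∈ H, ∀ a ∈ C, v ≠ w → tl v = tl w →
      ¬ G.Adj v a → ¬ G.Adj w a → G.Adj v w) (z : ι) :
    ∑ u ∈ pkf B Ps, nuC G C tl B z u = (ntl G C H tl B z).card := by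
  rw [← h.biUnion_nuS hmin h32 z, card_biUnion fun u hu v hv huv =>
    h.nuS_disj z (by exact_mod_cast hu) (by exact_mod_cast hv) huv]
  rfl

/-- the free arcs of the N-types, item by item -/
theorem sum_nuF (h : Pk G C H tl B Ps)
    (hmin : ∀ B' Ps', Pk G C H tl B' Ps' → Ps.card ≤ Ps'.card)
    (h32 : ∀ v ∈ H, ∀ w ∈ H, ∀ a ∈ C, v ≠ w → tl v = tl w →
      ¬ G.Adj v a → ¬ G.Adj w a → G.Adj v w) (z : ι) :
    ∑ u ∈ pkf B Ps, nuF G C tl B z u = ∑ v ∈ ntl G C H tl B z, (frC G C tl B v).card := by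
  rw [← h.biUnion_nuS hmin h32 z, sum_biUnion (h.nuS_disj z)]
  rfl

/-- the free arcs of the PC pairs with tail `z`, item by item -/
theorem sum_ipc_nuF (z : ι) :
    ∑ u ∈ pkf B Ps, ipc u * nuF G C tl B z u
      = ∑ e ∈ btl tl B z, (frC G C tl B e.1).card := by
  unfold pkf
  rw [sum_disjSum]
  have h1 : ∑ P ∈ Ps.filter (fun P => 2 ≤ P.card),
      ipc (Sum.inl P : Itm V) * nuF G C tl B z (Sum.inl P : Itm V) = 0 :=
    sum_eq_zero fun P _ => by simp [ipc]
  rw [h1, zero_add]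
  unfold btl
  rw [sum_filter]
  refine sum_congr rfl fun e _ => ?_
  unfold nuF
  simp only [ipc, one_mul, nuS, filter_singleton]
  split_ifs
  · rw [sum_singleton]
  · rw [sum_empty]

/-- the free arcs of the N-ends with tail `z`, item by item -/
theorem sum_nez (h : Pk G C H tl B Ps)
    (hmin : ∀ B' Ps', Pk G C H tl B' Ps' → Ps.card ≤ Ps'.card)
    (h32 : ∀ v ∈ H, ∀ w ∈ H, ∀ a ∈ C, v ≠ w → tl v = tl w →
      ¬ G.Adj v a → ¬ G.Adj w a → G.Adj v w) (z : ι) :
    ∑ v ∈ nez G C H tl B z, ((frC G C tl B v).card : ℤ)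
      = ∑ u ∈ pkf B Ps, (1 - (ipc u : ℤ)) * nuF G C tl B z u := by
  have h1 := h.sum_nuF hmin h32 z
  have h2 := sum_ipc_nuF (G := G) (C := C) (tl := tl) (B := B) (Ps := Ps) z
  have h3 : ∑ v ∈ ntl G C H tl B z, (frC G C tl B v).card
      = ∑ e ∈ btl tl B z, (frC G C tl B e.1).card + ∑ v ∈ nez G C H tl B z,
        (frC G C tl B v).card := by
    unfold ntl
    rw [sum_union (ntl_disj z), sum_image (fun e he f hf hef => h.btl_inj z he hf hef)]
  have h4 : ∑ u ∈ pkf B Ps, (1 - (ipc u : ℤ)) * nuF G C tl B z u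
      = ((∑ u ∈ pkf B Ps, nuF G C tl B z u : ℕ) : ℤ)
        - ((∑ u ∈ pkf B Ps, ipc u * nuF G C tl B z u : ℕ) : ℤ) := by
    push_cast
    rw [← sum_sub_distrib]
    exact sum_congr rfl fun u _ => by ring
  rw [h4, h1, h2, h3]
  push_cast
  ring

/-- **the excess of the N-ends, item by item** -/
theorem nxk_le (h : Pk G C H tl B Ps)
    (hmin : ∀ B' Ps', Pk G C H tl B' Ps' → Ps.card ≤ Ps'.card)
    (h32 : ∀ v ∈ H, ∀ w ∈ H, ∀ a ∈ C, v ≠ w → tl v = tl w →
      ¬ G.Adj v a → ¬ G.Adj w a → G.Adj v w) (z : ι) :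
    nxk G C H tl B z ≤ ∑ u ∈ pkf B Ps, (1 - (ipc u : ℤ)) * nuF G C tl B z u := by
  have h1 := two_nxk (G := G) C H tl B z
  have h2 := h.sum_nez hmin h32 z
  have h3 : (0 : ℤ) ≤ E G (nez G C H tl B z) := Nat.cast_nonneg _
  rw [h2] at h1
  linarith

/-- the N-types of an item over different tails -/
lemma card_biUnion_nuS {Y : Finset ι} {u : Itm V} :
    (Y.biUnion fun z => nuS G C tl B z u).card = ∑ z ∈ Y, nuC G C tl B z u := by
  refine card_biUnion fun z _ z' _ hzz => ?_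
  show Disjoint (nuS G C tl B z u) (nuS G C tl B z' u)
  rw [disjoint_left]
  intro v hv hv'
  exact hzz ((nuS_tl hv).symm.trans (nuS_tl hv'))

/-- **an item of value `v` has at most `v` N-types** -/
theorem nuC_sum (h : Pk G C H tl B Ps)
    (hmin : ∀ B' Ps', Pk G C H tl B' Ps' → Ps.card ≤ Ps'.card)
    (h32 : ∀ v ∈ H, ∀ w ∈ H, ∀ a ∈ C, v ≠ w → tl v = tl w →
      ¬ G.Adj v a → ¬ G.Adj w a → G.Adj v w) {u : Itm V} (hu : u ∈ pkf B Ps) (Y : Finset ι) :
    ∑ z ∈ Y, nuC G C tl B z u ≤ ivl u := by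
  rw [← card_biUnion_nuS]
  rcases u with Q | e
  · obtain ⟨hQ, h2⟩ := inl_mem_pkf.1 hu
    obtain ⟨w, hw, hw'⟩ := h.home hmin h32 hQ
    have h3 : (Y.biUnion fun z => nuS G C tl B z (Sum.inl Q)) ⊆ Q.erase w := by
      intro v hv
      obtain ⟨z, -, hvz⟩ := mem_biUnion.1 hv
      obtain ⟨h4, -, h5⟩ := mem_filter.1 hvz
      refine mem_erase.2 ⟨fun h6 => hw' (h6 ▸ h5), h4⟩
    have h4 := card_le_card h3
    rw [card_erase_of_mem hw] at h4
    exact h4
  · refine (card_le_card (biUnion_subset.2 fun z _ => nuS_sub)).trans ?_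
    simp [imem, ivl]

/-- **the N-types of an item with the tail `z`: at most its load** -/
theorem nuC_le (h : Pk G C H tl B Ps)
    (hmin : ∀ B' Ps', Pk G C H tl B' Ps' → Ps.card ≤ Ps'.card)
    (h32 : ∀ v ∈ H, ∀ w ∈ H, ∀ a ∈ C, v ≠ w → tl v = tl w →
      ¬ G.Adj v a → ¬ G.Adj w a → G.Adj v w) {u : Itm V} (hu : u ∈ pkf B Ps) (z : ι) :
    nuC G C tl B z u ≤ ikp tl z u := by
  rcases u with Q | e
  · by_cases hone : tlp tl Q z = Q
    · have h1 := h.nuC_sum hmin h32 hu {z}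
      rw [sum_singleton] at h1
      simp only [ikp, hone, if_true]
      exact h1
    · simp only [ikp, hone, if_false]
      refine card_le_card fun v hv => ?_
      obtain ⟨h4, h5, -⟩ := mem_filter.1 hv
      exact mem_tlp.2 ⟨h4, h5⟩
  · unfold nuC
    simp only [ikp, nuS, filter_singleton]
    split_ifs
    · simp
    · simp

/-- the free arcs of an item: its N-types times the largest number of free arcs -/
theorem nuF_le_kpl (h : Pk G C H tl B Ps)
    (hmin : ∀ B' Ps', Pk G C H tl B' Ps' → Ps.card ≤ Ps'.card)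
    (h32 : ∀ v ∈ H, ∀ w ∈ H, ∀ a ∈ C, v ≠ w → tl v = tl w →
      ¬ G.Adj v a → ¬ G.Adj w a → G.Adj v w) {u : Itm V} (hu : u ∈ pkf B Ps) (z : ι) :
    nuF G C tl B z u ≤ nuC G C tl B z u * kpl G C H tl B z := by
  unfold nuF nuC
  rw [← smul_eq_mul]
  refine sum_le_card_nsmul _ _ _ fun v hv => ?_
  have h1 : v ∈ ntl G C H tl B z := by
    rw [← h.biUnion_nuS hmin h32 z]
    exact mem_biUnion.2 ⟨u, hu, hv⟩
  exact le_sup (f := fun v => (frC G C tl B v).card) h1

/-- the missed class points of a member: free ones and used ones of its tail -/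
lemma nd_le {v : V} :
    nd G C v ≤ (frC G C tl B v).card + ((btl tl B (tl v)).filter fun e => ¬ G.Adj v e.2).card := by
  have h1 : C.filter (fun a => a ≠ v ∧ ¬ G.Adj v a)
      ⊆ frC G C tl B v ∪ ((btl tl B (tl v)).filter fun e => ¬ G.Adj v e.2).image Prod.snd := by
    intro a ha
    obtain ⟨h1, -, h3⟩ := mem_filter.1 ha
    by_cases h4 : ∀ e ∈ B, e.2 = a → tl e.1 ≠ tl v
    · exact mem_union_left _ (mem_frC.2 ⟨h1, h3, h4⟩)
    · push Not at h4
      obtain ⟨e, he, hea, hev⟩ := h4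
      exact mem_union_right _ (mem_image.2 ⟨e, mem_filter.2 ⟨mem_btl.2 ⟨he, hev⟩, hea ▸ h3⟩, hea⟩)
  refine (card_le_card h1).trans ((card_union_le _ _).trans ?_)
  exact Nat.add_le_add_left card_image_le _

/-- **the arcs of one item**: the PC pairs of its tails and its free arcs -/
theorem iar_le (h : Pk G C H tl B Ps) (h32 : ∀ v ∈ H, ∀ w ∈ H, ∀ a ∈ C, v ≠ w → tl v = tl w →
      ¬ G.Adj v a → ¬ G.Adj w a → G.Adj v w) {Y : Finset ι} {u : Itm V}
    (hu : u ∈ pkf B Ps) (hY : ∀ v ∈ imem u, tl v ∈ Y) (hk : ∀ v ∈ imem u, ikp tl (tl v) u ≠ 0) :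
    iar G C u ≤ ∑ z ∈ Y, ((if ikp tl z u = 0 then 0 else (btl tl B z).card)
      + nuF G C tl B z u) := by
  have hsub : imem u ⊆ H := by
    rcases u with Q | e
    · exact h.sub Q (inl_mem_pkf.1 hu).1
    · intro v hv
      rw [mem_singleton.1 hv]
      exact h.bH e (inr_mem_pkf.1 hu)
  have h1 : iar G C u = ∑ z ∈ Y, ∑ v ∈ (imem u).filter (fun v => tl v = z), nd G C v := by
    unfold iar
    exact (sum_fiberwise_of_maps_to hY fun v => nd G C v).symm
  rw [h1]
  refine sum_le_sum fun z _ => ?_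
  have h2 : ∑ v ∈ (imem u).filter (fun v => tl v = z), nd G C v
      ≤ ∑ v ∈ (imem u).filter (fun v => tl v = z), ((frC G C tl B v).card
        + ((btl tl B z).filter fun e => ¬ G.Adj v e.2).card) := by
    refine sum_le_sum fun v hv => ?_
    obtain ⟨h3, h4⟩ := mem_filter.1 hv
    have h5 := nd_le (G := G) (C := C) (tl := tl) (B := B) (v := v)
    rw [h4] at h5
    exact h5
  refine h2.trans ?_
  rw [sum_add_distrib, ← nuF_eq, add_comm]
  refine Nat.add_le_add_right ?_ _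
  by_cases h3 : ikp tl z u = 0
  · rw [if_pos h3]
    have h4 : (imem u).filter (fun v => tl v = z) = ∅ := by
      rw [filter_eq_empty_iff]
      intro v hv hvz
      exact hk v hv (hvz ▸ h3)
    rw [h4, sum_empty]
  · rw [if_neg h3]
    have h4 := sum_card_bipartiteAbove_eq_sum_card_bipartiteBelow
      (s := (imem u).filter (fun v => tl v = z)) (t := btl tl B z)
      (fun v e => ¬ G.Adj v e.2)
    simp only [bipartiteAbove, bipartiteBelow] at h4
    rw [h4, card_eq_sum_ones]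
    refine sum_le_sum fun e he => ?_
    rw [card_le_one]
    intro v hv w hw
    obtain ⟨v1, v2⟩ := mem_filter.1 hv
    obtain ⟨w1, w2⟩ := mem_filter.1 hw
    obtain ⟨v3, v4⟩ := mem_filter.1 v1
    obtain ⟨w3, w4⟩ := mem_filter.1 w1
    by_contra hne
    have h5 := h32 v (hsub v3) w (hsub w3) e.2 (h.bC e (mem_btl.1 he).1) hne (v4.trans w4.symm) v2 w2
    rcases u with Q | f
    · exact h.ind Q (inl_mem_pkf.1 hu).1 v v3 w w3 h5
    · exact hne ((mem_singleton.1 v3).trans (mem_singleton.1 w3).symm)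

/-- the arcs between the PC pairs of one tail -/
lemma arcs_btl (z : ι) :
    2 * ∑ e ∈ btl tl B z, ((btl tl B z).filter fun f => e.1 ≠ f.1 ∧ ¬ G.Adj e.1 f.2).card
      ≤ (btl tl B z).card * ((btl tl B z).card - 1) + ((btl tl B z ×ˢ btl tl B z).filter fun q =>
        q.1.1 ≠ q.2.1 ∧ ¬ G.Adj q.1.1 q.2.2 ∧ ¬ G.Adj q.2.1 q.1.2).card := by
  set K := btl tl B z with hK
  set A1 : Finset ((V × V) × (V × V)) := (K ×ˢ K).filter fun q =>
    q.1.1 ≠ q.2.1 ∧ ¬ G.Adj q.1.1 q.2.2 with hA1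
  set A2 : Finset ((V × V) × (V × V)) := (K ×ˢ K).filter fun q =>
    q.1.1 ≠ q.2.1 ∧ ¬ G.Adj q.2.1 q.1.2 with hA2
  have h1 : ∑ e ∈ K, (K.filter fun f => e.1 ≠ f.1 ∧ ¬ G.Adj e.1 f.2).card = A1.card := by
    rw [hA1, card_filter, sum_product]
    refine sum_congr rfl fun e _ => ?_
    rw [card_filter]
  have h2 : A2.card = A1.card := by
    refine card_bij (fun q _ => (q.2, q.1)) ?_ ?_ ?_
    · intro q hq
      obtain ⟨h3, h4, h5⟩ := mem_filter.1 hq
      obtain ⟨h6, h7⟩ := mem_product.1 h3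
      exact mem_filter.2 ⟨mem_product.2 ⟨h7, h6⟩, Ne.symm h4, h5⟩
    · intro q _ q' _ hqq
      simp only [Prod.mk.injEq] at hqq
      exact Prod.ext hqq.2 hqq.1
    · intro q hq
      obtain ⟨h3, h4, h5⟩ := mem_filter.1 hq
      obtain ⟨h6, h7⟩ := mem_product.1 h3
      exact ⟨(q.2, q.1), mem_filter.2 ⟨mem_product.2 ⟨h7, h6⟩, Ne.symm h4, h5⟩, rfl⟩
  have h3 := card_union_add_card_inter A1 A2
  have h4 : A1 ∪ A2 ⊆ K.offDiag := by
    intro q hq
    rcases mem_union.1 hq with h5 | h5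
    · obtain ⟨h6, h7, -⟩ := mem_filter.1 h5
      exact mem_offDiag.2 ⟨(mem_product.1 h6).1, (mem_product.1 h6).2, fun h8 => h7 (by rw [h8])⟩
    · obtain ⟨h6, h7, -⟩ := mem_filter.1 h5
      exact mem_offDiag.2 ⟨(mem_product.1 h6).1, (mem_product.1 h6).2, fun h8 => h7 (by rw [h8])⟩
  have h5 := card_le_card h4
  rw [offDiag_card] at h5
  have h6 : A1 ∩ A2 ⊆ (K ×ˢ K).filter fun q =>
      q.1.1 ≠ q.2.1 ∧ ¬ G.Adj q.1.1 q.2.2 ∧ ¬ G.Adj q.2.1 q.1.2 := by
    intro q hq
    obtain ⟨h7, h8⟩ := mem_inter.1 hq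
    obtain ⟨h9, h10, h11⟩ := mem_filter.1 h7
    exact mem_filter.2 ⟨h9, h10, h11, (mem_filter.1 h8).2.2⟩
  have h7 := card_le_card h6
  have h8 : K.card * (K.card - 1) = K.card * K.card - K.card := by
    rw [Nat.mul_sub, mul_one]
  rw [h1, h8]
  omega

lemma bothB_btl (z : ι) : bothB G tl (btl tl B z) = ((btl tl B z ×ˢ btl tl B z).filter fun q =>
      q.1.1 ≠ q.2.1 ∧ ¬ G.Adj q.1.1 q.2.2 ∧ ¬ G.Adj q.2.1 q.1.2).card := by
  unfold bothB
  congr 1
  ext q
  simp only [mem_filter, mem_product]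
  constructor
  · rintro ⟨⟨h1, h2⟩, h3, -, h5⟩
    exact ⟨⟨h1, h2⟩, h3, h5⟩
  · rintro ⟨⟨h1, h2⟩, h3, h5⟩
    exact ⟨⟨h1, h2⟩, h3, (mem_btl.1 h1).2.trans (mem_btl.1 h2).2.symm, h5⟩

/-- the arcs of the PC members -/
lemma sum_nd_pc (h : Pk G C H tl B Ps) (z : ι) :
    2 * ∑ e ∈ btl tl B z, nd G C e.1
      ≤ 2 * (btl tl B z).card + 2 * ∑ e ∈ btl tl B z, (frC G C tl B e.1).card
        + (btl tl B z).card * ((btl tl B z).card - 1) + bothB G tl (btl tl B z) := by
  have h1 := arcs_btl (G := G) (tl := tl) (B := B) z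
  rw [← bothB_btl] at h1
  have h2 : ∀ e ∈ btl tl B z, nd G C e.1 ≤ 1 + (frC G C tl B e.1).card
      + ((btl tl B z).filter fun f => e.1 ≠ f.1 ∧ ¬ G.Adj e.1 f.2).card := by
    intro e he
    have h3 := nd_le (G := G) (C := C) (tl := tl) (B := B) (v := e.1)
    rw [(mem_btl.1 he).2] at h3
    have h4 : (btl tl B z).filter (fun f => ¬ G.Adj e.1 f.2)
        ⊆ insert e ((btl tl B z).filter fun f => e.1 ≠ f.1 ∧ ¬ G.Adj e.1 f.2) := by
      intro f hf
      obtain ⟨h5, h6⟩ := mem_filter.1 hf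
      by_cases h7 : e.1 = f.1
      · rw [h.b1 e (mem_btl.1 he).1 f (mem_btl.1 h5).1 h7]
        exact mem_insert_self _ _
      · exact mem_insert_of_mem (mem_filter.2 ⟨h5, h7, h6⟩)
    have h5 := (card_le_card h4).trans (card_insert_le _ _)
    omega
  have h3 := sum_le_sum h2
  rw [sum_add_distrib, sum_add_distrib, sum_const, smul_eq_mul, mul_one] at h3
  omega

/-- **the arcs of all members of a host**, doubled: the PC pairs, the parts, the unpaid excess and the
free arcs of the N-ends -/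
theorem sum_nd_le (h : Pk G C H tl B Ps)
    (h32 : ∀ v ∈ H, ∀ w ∈ H, ∀ a ∈ C, v ≠ w → tl v = tl w →
      ¬ G.Adj v a → ¬ G.Adj w a → G.Adj v w) {Y : Finset ι} (hY : ∀ v ∈ H, tl v ∈ Y) :
    2 * ∑ v ∈ H, (nd G C v : ℤ)
      ≤ ∑ z ∈ Y, ((btl tl B z).card : ℤ) * ((btl tl B z).card - 1 + 2 * Ps.card)
        + nbk G C H tl B Ps + 2 * ∑ z ∈ Y, ∑ v ∈ nez G C H tl B z, ((frC G C tl B v).card : ℤ) := by
  have hB : ∀ e ∈ B, tl e.1 ∈ Y := fun e he => hY _ (h.bH e he)
  have hsub : B.image Prod.fst ⊆ H := by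
    intro v hv
    obtain ⟨e, he, rfl⟩ := mem_image.1 hv
    exact h.bH e he
  have h1 : ∑ v ∈ H, nd G C v = ∑ e ∈ B, nd G C e.1 + ∑ v ∈ H \ B.image Prod.fst, nd G C v := by
    rw [← sum_sdiff hsub, add_comm, sum_image (fun e he f hf hef =>
      h.b1 e (by exact_mod_cast he) f (by exact_mod_cast hf) hef)]
  -- the PC members
  have h2 : 2 * ∑ e ∈ B, nd G C e.1 ≤ ∑ z ∈ Y, (2 * (btl tl B z).card
      + 2 * ∑ e ∈ btl tl B z, (frC G C tl B e.1).card
        + (btl tl B z).card * ((btl tl B z).card - 1) + bothB G tl (btl tl B z)) := by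
    rw [sum_B_tail Y hB fun e : V × V => nd G C e.1, mul_sum]
    exact sum_le_sum fun z _ => h.sum_nd_pc z
  -- the others
  have h3 : ∑ v ∈ H \ B.image Prod.fst, nd G C v
      ≤ ∑ v ∈ H \ B.image Prod.fst, (frC G C tl B v).card
        + ∑ e ∈ B, uin G tl (H \ B.image Prod.fst) e := by
    have h4 : ∑ v ∈ H \ B.image Prod.fst, nd G C v
        ≤ ∑ v ∈ H \ B.image Prod.fst, ((frC G C tl B v).card
          + (B.filter fun e => tl v = tl e.1 ∧ ¬ G.Adj v e.2).card) := by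
      refine sum_le_sum fun v _ => ?_
      refine (nd_le (G := G) (C := C) (tl := tl) (B := B) (v := v)).trans ?_
      refine Nat.add_le_add_left (card_le_card fun e he => ?_) _
      obtain ⟨h5, h6⟩ := mem_filter.1 he
      exact mem_filter.2 ⟨(mem_btl.1 h5).1, (mem_btl.1 h5).2.symm, h6⟩
    refine h4.trans ?_
    rw [sum_add_distrib]
    refine Nat.add_le_add_left (le_of_eq ?_) _
    have h5 := sum_card_bipartiteAbove_eq_sum_card_bipartiteBelow
      (s := H \ B.image Prod.fst) (t := B) (fun v e => tl v = tl e.1 ∧ ¬ G.Adj v e.2)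
    simp only [bipartiteAbove, bipartiteBelow] at h5
    exact h5
  have h4 : ∑ v ∈ H \ B.image Prod.fst, (frC G C tl B v).card
      = ∑ z ∈ Y, ∑ v ∈ nez G C H tl B z, (frC G C tl B v).card := by
    have h5 : ∑ v ∈ H \ B.image Prod.fst, (frC G C tl B v).card
        = ∑ v ∈ Nend G C H tl B, (frC G C tl B v).card := by
      symm
      refine sum_subset (fun v hv => (mem_Nend.1 hv).1) fun v hv hv' => ?_
      rw [card_eq_zero]
      by_contra h6
      exact hv' (mem_Nend.2 ⟨hv, nonempty_iff_ne_empty.2 h6⟩)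
    rw [h5]
    exact (sum_fiberwise_of_maps_to (fun v hv => hY v (mem_sdiff.1 (mem_Nend.1 hv).1).1)
      fun v => (frC G C tl B v).card).symm
  have h6 : ∑ e ∈ B, ((Ps.card - uin G tl (H \ B.image Prod.fst) e : ℕ) : ℤ)
      = (B.card : ℤ) * Ps.card - ∑ e ∈ B, (uin G tl (H \ B.image Prod.fst) e : ℤ) := by
    rw [← nsmul_eq_mul, ← sum_const, ← sum_sub_distrib]
    refine sum_congr rfl fun e he => ?_
    have h7 := h.uin_le_card h32 he
    omega
  have h7 : (B.card : ℤ) = ∑ z ∈ Y, ((btl tl B z).card : ℤ) := by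
    have := sum_B_tail Y hB fun _ : V × V => (1 : ℤ)
    simpa using this
  have h8 : (bothB G tl B : ℤ) = ∑ z ∈ Y, (bothB G tl (btl tl B z) : ℤ) := by
    rw [bothB_tail Y hB, Nat.cast_sum]
  have h9 := sum_B_tail Y hB fun e : V × V => ((frC G C tl B e.1).card : ℤ)
  have h10 : ∀ z ∈ Y, (((btl tl B z).card * ((btl tl B z).card - 1) : ℕ) : ℤ)
      = ((btl tl B z).card : ℤ) * ((btl tl B z).card - 1) := by
    intro z _
    rcases Nat.eq_zero_or_pos (btl tl B z).card with h11 | h11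
    · rw [h11]
      simp
    · push_cast [Nat.cast_sub h11]
      ring
  have e1 : (2 : ℤ) * ∑ v ∈ H, (nd G C v : ℤ)
      ≤ ∑ z ∈ Y, (2 * ((btl tl B z).card : ℤ)
        + 2 * ∑ e ∈ btl tl B z, ((frC G C tl B e.1).card : ℤ)
        + ((btl tl B z).card : ℤ) * ((btl tl B z).card - 1) + (bothB G tl (btl tl B z) : ℤ))
        + 2 * (∑ z ∈ Y, ∑ v ∈ nez G C H tl B z, ((frC G C tl B v).card : ℤ)
          + ∑ e ∈ B, (uin G tl (H \ B.image Prod.fst) e : ℤ)) := by
    have h12 : 2 * ∑ v ∈ H, nd G C v ≤ ∑ z ∈ Y, (2 * (btl tl B z).card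
      + 2 * ∑ e ∈ btl tl B z, (frC G C tl B e.1).card
        + (btl tl B z).card * ((btl tl B z).card - 1) + bothB G tl (btl tl B z))
        + 2 * (∑ z ∈ Y, ∑ v ∈ nez G C H tl B z, (frC G C tl B v).card
          + ∑ e ∈ B, uin G tl (H \ B.image Prod.fst) e) := by
      rw [← h4]
      omega
    have h13 : (2 : ℤ) * ∑ v ∈ H, (nd G C v : ℤ) = ((2 * ∑ v ∈ H, nd G C v : ℕ) : ℤ) := by
      push_cast
      rfl
    rw [h13]
    refine (Nat.cast_le.2 h12).trans (le_of_eq ?_)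
    push_cast
    congr 1
    refine sum_congr rfl fun z hz => ?_
    have h14 := h10 z hz
    push_cast at h14
    rw [h14]
  unfold nbk
  rw [h6, h8, h7]
  simp only [sum_add_distrib, ← mul_sum, mul_add, sum_const, nsmul_eq_mul, mul_one] at e1 ⊢
  rw [← h9] at e1
  rw [← h7] at e1 ⊢
  have h15 : ∑ z ∈ Y, ((btl tl B z).card : ℤ) * (2 * Ps.card) = 2 * ((B.card : ℤ) * Ps.card) := by
    rw [← sum_mul, ← h7]
    ring
  rw [h15]
  linarith

/-- **the free arcs of an item and the PC pairs of the same tail use different class points** -/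
theorem nuF_card (h : Pk G C H tl B Ps) (h32 : ∀ v ∈ H, ∀ w ∈ H, ∀ a ∈ C, v ≠ w → tl v = tl w →
      ¬ G.Adj v a → ¬ G.Adj w a → G.Adj v w) {u : Itm V} (hu : u ∈ pkf B Ps) (z : ι) :
    nuF G C tl B z u + (btl tl B z).card ≤ C.card := by
  have hsub : imem u ⊆ H := by
    rcases u with Q | e
    · exact h.sub Q (inl_mem_pkf.1 hu).1
    · intro v hv
      rw [mem_singleton.1 hv]
      exact h.bH e (inr_mem_pkf.1 hu)
  have h1 : (btl tl B z).card = ((btl tl B z).image Prod.snd).card := by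
    refine (card_image_of_injOn fun e he f hf hef => ?_).symm
    have he' := mem_btl.1 (by exact_mod_cast he : e ∈ btl tl B z)
    have hf' := mem_btl.1 (by exact_mod_cast hf : f ∈ btl tl B z)
    exact h.b2 e he'.1 f hf'.1 hef (he'.2.trans hf'.2.symm)
  have h2 : nuF G C tl B z u = ((nuS G C tl B z u).biUnion fun v => frC G C tl B v).card := by
    rw [card_biUnion]
    · rfl
    · intro v hv w hw hvw
      show Disjoint (frC G C tl B v) (frC G C tl B w)
      rw [disjoint_left]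
      intro a ha ha'
      have h3 := mem_frC.1 ha
      have h4 := mem_frC.1 ha'
      have h5 := h32 v (hsub (nuS_sub hv)) w (hsub (nuS_sub hw)) a h3.1 hvw
        ((nuS_tl hv).trans (nuS_tl hw).symm) h3.2.1 h4.2.1
      rcases u with Q | e
      · exact h.ind Q (inl_mem_pkf.1 hu).1 v (nuS_sub hv) w (nuS_sub hw) h5
      · exact hvw ((mem_singleton.1 (nuS_sub hv)).trans (mem_singleton.1 (nuS_sub hw)).symm)
  rw [h1, h2, ← card_union_of_disjoint]
  · refine card_le_card (union_subset ?_ ?_)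
    · intro a ha
      obtain ⟨v, -, hv⟩ := mem_biUnion.1 ha
      exact (mem_frC.1 hv).1
    · intro a ha
      obtain ⟨e, he, rfl⟩ := mem_image.1 ha
      exact h.bC e (mem_btl.1 he).1
  · rw [disjoint_left]
    intro a ha ha'
    obtain ⟨v, hv, hva⟩ := mem_biUnion.1 ha
    obtain ⟨e, he, rfl⟩ := mem_image.1 ha'
    exact (mem_frC.1 hva).2.2 e (mem_btl.1 he).1 rfl ((mem_btl.1 he).2.trans (nuS_tl hv).symm)

end Pk

end NuPk

end Pool.Agent.Lib.MP_f04ccf_co
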