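import Pool.Agent.Lib.MP_f04ccf_co.M.ItZ
import Pool.Agent.Lib.MP_f04ccf_co.M.PayQ
import Pool.Agent.Lib.MP_f04ccf_co.M.CellJ
import Pool.Agent.Lib.MP_f04ccf_co.M.NuPk

/-!
MP_f04ccf_co, PLAN W, version [B]: THE COUPLING of the free arcs of an item with its misses (note 17169).
* `WCoreK.rect1`: one member: home misses times tail misses at most `R + tx ty`, and
  `(a - 1) (b - 1) ≤ tx ty + 1`.
* `WCoreK.nuF_ims`: an item with at most one member of the tail `y`: free arcs times misses.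
* `WCoreK.jnI`, `WCoreK.jnJ`: the joint cell tests over the items (one home; both homes).
-/

set_option autoImplicit false

namespace Pool.Agent.Lib.MP_f04ccf_co

open Finset

attribute [local instance] Classical.propDecidable

section NuW

variable {V : Type*} {G : SimpleGraph V} {Z T : Finset V} {hm : V → V} {r m n p : ℕ}

/-- **the rectangle of one member** -/
theorem WCoreK.rect1 (h : WCoreK G Z T r m n p hm) {x y v : V} (hx : x ∈ T) (hy : y ∈ T)
    (hxy : x ≠ y) (hv : v ∈ hz G Z T hm x) (hvy : tlo G T hm v = y) :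
    ((msd G (cz G Z T hm x) v).card : ℤ) * (msd G (cz G Z T hm y) v).card
        ≤ (r : ℤ) - 1 + tI G Z T hm r Z x * tI G Z T hm r Z y
      ∧ (((msd G (cz G Z T hm x) v).card : ℤ) - 1) * ((msd G (cz G Z T hm y) v).card - 1)
        ≤ tI G Z T hm r Z x * tI G Z T hm r Z y + 1 := by
  have hF := h.F.toPFrame
  have hC := h.csys
  have hcell := hC.cellD hF hx hy hxy
  have hD : v ∈ Dbl G Z T x y := hC.mem_Dbl_of_tlo h.hh hx hv hvy
  have e1 : ((cz G Z T hm x).card : ℤ) = (r : ℤ) - 1 - tI G Z T hm r Z x := card_CP_eq Z x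
  have e2 : ((cz G Z T hm y).card : ℤ) = (r : ℤ) - 1 - tI G Z T hm r Z y := card_CP_eq Z y
  have h1 : msd G (cz G Z T hm x) v ×ˢ msd G (cz G Z T hm y) v
      ⊆ eds G (cz G Z T hm x) (cz G Z T hm y) := by
    intro q hq
    obtain ⟨h2, h3⟩ := mem_product.1 hq
    obtain ⟨h4, h5⟩ := (hcell.mem_msd hD).1 h2
    obtain ⟨h6, h7⟩ := (hcell.symm.mem_msd hD).1 h3
    exact mem_filter.2 ⟨mem_product.2 ⟨h4, h6⟩, hcell.rect v hD _ h4 _ h6 h5 h7⟩
  have h2 := card_le_card h1
  rw [card_product] at h2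
  have h2' : ((msd G (cz G Z T hm x) v).card : ℤ) * (msd G (cz G Z T hm y) v).card
      ≤ (eds G (cz G Z T hm x) (cz G Z T hm y)).card := by exact_mod_cast h2
  have h3 := h.gp.P.s1_cell (W := ∅) (hC.CP_clq hF hx) (hC.CP_clq hF hy)
    (h.wsysT.dCC x hx y hy hxy) (disjoint_empty_right _) (disjoint_empty_right _)
  have h4 := h.gp.P.s1_cell (W := {v}) (hC.CP_clq hF hx) (hC.CP_clq hF hy)
    (h.wsysT.dCC x hx y hy hxy) (disjoint_singleton_right.2 (hcell.nC v hD))
    (disjoint_singleton_right.2 (hcell.nD v hD))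
  have h5 : NE G (∅ : Finset V) = 0 := by simp [NE]
  have h6 : (NE G ({v} : Finset V) : ℤ) ≤ 0 := by
    have := NE_le_self (G := G) ({v} : Finset V)
    simpa using this
  rw [h5] at h3
  rw [sum_empty, card_empty, e1, e2] at h3
  rw [sum_singleton, card_singleton, e1, e2] at h4
  have h7 : ((msd G (cz G Z T hm x) v).card : ℤ) = nd G (cz G Z T hm x) v := rfl
  have h8 : ((msd G (cz G Z T hm y) v).card : ℤ) = nd G (cz G Z T hm y) v := rfl
  push_cast at h3 h4
  constructor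
  · linarith
  · rw [← h7, ← h8] at h4
    linarith

/-- the free arcs are misses at home -/
lemma frC_sub_msd {C : Finset V} {tl : V → V} {Q : Finset (V × V)} {v : V} (hv : v ∉ C) :
    frC G C tl Q v ⊆ msd G C v := by
  intro a ha
  obtain ⟨h1, h2, -⟩ := mem_frC.1 ha
  exact mem_filter.2 ⟨h1, fun h3 => hv (h3 ▸ h1), h2⟩

/-- **the coupling**: an item with load at most one at its tail `y` -/
theorem WCoreK.nuF_ims (h : WCoreK G Z T r m n p hm) {x y : V} (hx : x ∈ T) (hy : y ∈ T)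
    (hxy : x ≠ y) {Q : Finset (V × V)} {Ps : Finset (Finset V)}
    (hQ : Pk G (cz G Z T hm x) (hz G Z T hm x) (tlo G T hm) Q Ps) {u : Itm V}
    (hu : u ∈ pkf Q Ps) (hk : ikp (tlo G T hm) y u ≤ 1) :
    (nuF G (cz G Z T hm x) (tlo G T hm) Q y u : ℤ) * ims G (cz G Z T hm) (tlo G T hm) y u
        ≤ (r : ℤ) - 1 + tI G Z T hm r Z x * tI G Z T hm r Z y
      ∧ ((nuF G (cz G Z T hm x) (tlo G T hm) Q y u : ℤ) - 1)
          * ((ims G (cz G Z T hm) (tlo G T hm) y u : ℤ) - 1)
        ≤ tI G Z T hm r Z x * tI G Z T hm r Z y + 1 := by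
  have htx := h.hsys.tI_nonneg h.F h.ok hx
  have hty := h.hsys.tI_nonneg h.F h.ok hy
  have htt := mul_nonneg htx hty
  have hr : (5 : ℤ) ≤ r := by
    have h1 := h.toWHom.toWBase.five
    have h2 := h.toWHom.toWBase.nr
    have : 5 ≤ r := by omega
    exact_mod_cast this
  have hms0 : (0 : ℤ) ≤ ims G (cz G Z T hm) (tlo G T hm) y u := Nat.cast_nonneg _
  have hnu0 : (0 : ℤ) ≤ nuF G (cz G Z T hm x) (tlo G T hm) Q y u := Nat.cast_nonneg _
  -- without misses
  have key0 : ims G (cz G Z T hm) (tlo G T hm) y u = 0 →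
      (nuF G (cz G Z T hm x) (tlo G T hm) Q y u : ℤ) * ims G (cz G Z T hm) (tlo G T hm) y u
        ≤ (r : ℤ) - 1 + tI G Z T hm r Z x * tI G Z T hm r Z y
      ∧ ((nuF G (cz G Z T hm x) (tlo G T hm) Q y u : ℤ) - 1)
          * ((ims G (cz G Z T hm) (tlo G T hm) y u : ℤ) - 1)
        ≤ tI G Z T hm r Z x * tI G Z T hm r Z y + 1 := by
    intro h0
    rw [h0]
    push_cast
    constructor
    · linarith
    · linarith
  rcases u with P | e
  · obtain ⟨hP, hP2⟩ := inl_mem_pkf.1 hu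
    by_cases hone : tlp (tlo G T hm) P y = P
    · refine key0 ?_
      unfold ims icl
      simp only [rcl, hone, if_true, card_empty]
    · simp only [ikp, hone, if_false] at hk
      by_cases hemp : tlp (tlo G T hm) P y = ∅
      · refine key0 ?_
        unfold ims icl
        simp only [rcl, hone, if_false]
        rw [card_eq_zero, filter_eq_empty_iff]
        rintro c - ⟨⟨w, hw, hwy, -⟩, -⟩
        have : w ∈ tlp (tlo G T hm) P y := mem_tlp.2 ⟨hw, hwy⟩
        rw [hemp] at this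
        exact absurd this (notMem_empty _)
      · obtain ⟨v, hv⟩ := nonempty_iff_ne_empty.2 hemp
        obtain ⟨hvP, hvy⟩ := mem_tlp.1 hv
        have hvH := hQ.sub P hP hvP
        have huniq : ∀ w ∈ P, tlo G T hm w = y → w = v := fun w hw hwy =>
          card_le_one.1 hk w (mem_tlp.2 ⟨hw, hwy⟩) v hv
        have hvC : v ∉ cz G Z T hm x := fun h1 => disjoint_left.1 (h.csys.dCH hx hx) h1 hvH
        have h1 : nuF G (cz G Z T hm x) (tlo G T hm) Q y (Sum.inl P)
            ≤ (msd G (cz G Z T hm x) v).card := by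
          have h2 : nuS G (cz G Z T hm x) (tlo G T hm) Q y (Sum.inl P) ⊆ {v} := by
            intro w hw
            obtain ⟨h3, h4, -⟩ := mem_filter.1 hw
            exact mem_singleton.2 (huniq w h3 h4)
          unfold nuF
          refine (sum_le_sum_of_subset h2).trans ?_
          rw [sum_singleton]
          exact card_le_card (frC_sub_msd hvC)
        have h2 : ims G (cz G Z T hm) (tlo G T hm) y (Sum.inl P)
            ≤ (msd G (cz G Z T hm y) v).card := by
          have hvC' : v ∉ cz G Z T hm y := fun h3 => disjoint_left.1 (h.csys.dCH hy hx) h3 hvH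
          unfold ims icl
          simp only [rcl, hone, if_false]
          refine card_le_card fun c hc => ?_
          obtain ⟨h3, ⟨w, hw, hwy, hwc⟩, -⟩ := mem_filter.1 hc
          have h4 := huniq w hw hwy
          subst h4
          exact mem_filter.2 ⟨h3, fun h5 => hvC' (h5 ▸ h3), fun h5 => hwc h5.symm⟩
        obtain ⟨h3, h4⟩ := h.rect1 hx hy hxy hvH hvy
        have h1' : (nuF G (cz G Z T hm x) (tlo G T hm) Q y (Sum.inl P) : ℤ)
            ≤ (msd G (cz G Z T hm x) v).card := by exact_mod_cast h1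
        have h2' : (ims G (cz G Z T hm) (tlo G T hm) y (Sum.inl P) : ℤ)
            ≤ (msd G (cz G Z T hm y) v).card := by exact_mod_cast h2
        constructor
        · exact (mul_le_mul h1' h2' hms0 (hnu0.trans h1')).trans h3
        · rcases Nat.eq_zero_or_pos (ims G (cz G Z T hm) (tlo G T hm) y (Sum.inl P)) with h5 | h5
          · exact (key0 h5).2
          · have h6 : (1 : ℤ) ≤ ims G (cz G Z T hm) (tlo G T hm) y (Sum.inl P) := by
              exact_mod_cast h5
            rcases Nat.eq_zero_or_pos (nuF G (cz G Z T hm x) (tlo G T hm) Q y (Sum.inl P))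
              with h7 | h7
            · rw [h7]
              push_cast
              linarith
            · have h8 : (1 : ℤ) ≤ nuF G (cz G Z T hm x) (tlo G T hm) Q y (Sum.inl P) := by
                exact_mod_cast h7
              refine (mul_le_mul (sub_le_sub_right h1' 1) (sub_le_sub_right h2' 1) ?_ ?_).trans h4
              · linarith
              · linarith
  · exact key0 (by
      unfold ims icl
      simp only [rcl, card_empty])

/-- the member of an item with one N-type of the tail `y` -/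
lemma WCoreK.nuS_mem (h : WCoreK G Z T r m n p hm) {x y : V} (hx : x ∈ T)
    {Q : Finset (V × V)} {Ps : Finset (Finset V)}
    (hQ : Pk G (cz G Z T hm x) (hz G Z T hm x) (tlo G T hm) Q Ps) {u : Itm V}
    (hu : u ∈ pkf Q Ps) {v : V} (hv : v ∈ nuS G (cz G Z T hm x) (tlo G T hm) Q y u) :
    v ∈ hz G Z T hm x ∧ tlo G T hm v = y
      ∧ (nuC G (cz G Z T hm x) (tlo G T hm) Q y u = 1 →
        nuF G (cz G Z T hm x) (tlo G T hm) Q y u
          = (frC G (cz G Z T hm x) (tlo G T hm) Q v).card)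
      ∧ (frC G (cz G Z T hm x) (tlo G T hm) Q v).card + ipc u
        ≤ (msd G (cz G Z T hm x) v).card := by
  have hvm := nuS_sub hv
  have hvH : v ∈ hz G Z T hm x := by
    rcases u with P | e
    · exact hQ.sub P (inl_mem_pkf.1 hu).1 hvm
    · rw [mem_singleton.1 hvm]
      exact hQ.bH e (inr_mem_pkf.1 hu)
  have hvC : v ∉ cz G Z T hm x := fun h1 => disjoint_left.1 (h.csys.dCH hx hx) h1 hvH
  refine ⟨hvH, nuS_tl hv, fun h1 => ?_, ?_⟩
  · obtain ⟨w, hw⟩ := card_eq_one.1 h1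
    unfold nuF
    rw [hw] at hv ⊢
    rw [sum_singleton, mem_singleton.1 hv]
  · rcases u with P | e
    · simp only [ipc, add_zero]
      exact card_le_card (frC_sub_msd hvC)
    · have h2 : v = e.1 := mem_singleton.1 hvm
      subst h2
      have he := inr_mem_pkf.1 hu
      have h3 : e.2 ∉ frC G (cz G Z T hm x) (tlo G T hm) Q e.1 := fun h4 =>
        (mem_frC.1 h4).2.2 e he rfl rfl
      simp only [ipc]
      rw [← card_insert_of_notMem h3]
      refine card_le_card (insert_subset ?_ (frC_sub_msd hvC))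
      exact mem_filter.2 ⟨hQ.bC e he, fun h4 => hvC (h4 ▸ hQ.bC e he), hQ.bN e he⟩

/-- the N-types of a set of items with one each -/
lemma card_biUnion_nuS1 {C H : Finset V} {tl : V → V} {Q : Finset (V × V)} {Ps : Finset (Finset V)}
    (h : Pk G C H tl Q Ps) {y : V} {K : Finset (Itm V)} (hK : K ⊆ pkf Q Ps)
    (h1 : ∀ u ∈ K, nuC G C tl Q y u = 1) : (K.biUnion (nuS G C tl Q y)).card = K.card := by
  rw [card_biUnion fun u hu v hv huv => h.nuS_disj y (by exact_mod_cast hK hu)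
    (by exact_mod_cast hK hv) huv, card_eq_sum_ones]
  exact sum_congr rfl h1

/-- **the joint cell test over the items, one home**: the PC pairs and cliques with one N-end of the
tail each -/
theorem WCoreK.jnI (hp : 2 * r ≤ p) (h : WCoreK G Z T r m n p hm) {x y : V} (hx : x ∈ T)
    (hy : y ∈ T) (hxy : x ≠ y) {Q : Finset (V × V)} {Ps : Finset (Finset V)}
    (hQ : Pk G (cz G Z T hm x) (hz G Z T hm x) (tlo G T hm) Q Ps) {K : Finset (Itm V)}
    (hK : K ⊆ pkf Q Ps)
    (hK0 : ∀ u ∈ K, ipc u = 0 ∧ nuC G (cz G Z T hm x) (tlo G T hm) Q y u = 1) {f : ℕ}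
    (hf : 1 ≤ f) (hKf : ∀ u ∈ K, f ≤ nuF G (cz G Z T hm x) (tlo G T hm) Q y u) {u : Itm V}
    (hu : u ∈ K) {k : ℕ} (hk : k = (pcs (tlo G T hm) Q y).card + min K.card f) :
    ((k : ℤ) - 1) * ((r : ℤ) - 1)
      + ((nuF G (cz G Z T hm x) (tlo G T hm) Q y u - k : ℕ) : ℤ) ^ 2
      ≤ tI G Z T hm r Z x * tI G Z T hm r Z y + (k : ℤ) ^ 2 := by
  have h1 : K.biUnion (nuS G (cz G Z T hm x) (tlo G T hm) Q y)
      ⊆ nez G (cz G Z T hm x) (hz G Z T hm x) (tlo G T hm) Q y := by
    intro v hv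
    obtain ⟨w, hw, hvw⟩ := mem_biUnion.1 hv
    obtain ⟨a1, a2, -, -⟩ := h.nuS_mem hx hQ (hK hw) hvw
    rcases w with P | e
    · obtain ⟨b1, b2, b3⟩ := mem_filter.1 hvw
      refine mem_filter.2 ⟨mem_Nend.2 ⟨mem_sdiff.2 ⟨a1, fun h5 => ?_⟩, b3⟩, a2⟩
      obtain ⟨e, he, hev⟩ := mem_image.1 h5
      exact hQ.dw e he P (inl_mem_pkf.1 (hK hw)).1 (hev ▸ b1)
    · have := (hK0 _ hw).1
      simp [ipc] at this
  have h2 : ∀ v ∈ K.biUnion (nuS G (cz G Z T hm x) (tlo G T hm) Q y),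
      f ≤ (frC G (cz G Z T hm x) (tlo G T hm) Q v).card := by
    intro v hv
    obtain ⟨w, hw, hvw⟩ := mem_biUnion.1 hv
    obtain ⟨-, -, a3, -⟩ := h.nuS_mem hx hQ (hK hw) hvw
    rw [← a3 (hK0 w hw).2]
    exact hKf w hw
  obtain ⟨v, hv⟩ : (nuS G (cz G Z T hm x) (tlo G T hm) Q y u).Nonempty := by
    rw [← card_pos]
    have := (hK0 u hu).2
    unfold nuC at this
    omega
  obtain ⟨-, -, a3, -⟩ := h.nuS_mem hx hQ (hK hu) hv
  rw [a3 (hK0 u hu).2]
  exact h.jntN hp hx hy hxy hQ hf h1 h2 (mem_biUnion.2 ⟨u, hu, hv⟩)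
    (by rw [hk, card_biUnion_nuS1 hQ hK fun w hw => (hK0 w hw).2])

/-- **the joint cell test over the items, PC pairs** -/
theorem WCoreK.jnP (hp : 2 * r ≤ p) (h : WCoreK G Z T r m n p hm) {x y : V} (hx : x ∈ T)
    (hy : y ∈ T) (hxy : x ≠ y) {Q : Finset (V × V)} {Ps : Finset (Finset V)}
    (hQ : Pk G (cz G Z T hm x) (hz G Z T hm x) (tlo G T hm) Q Ps) {u : Itm V}
    (hu : u ∈ pkf Q Ps) (hpc : ipc u = 1) (hk : ikp (tlo G T hm) y u ≠ 0) :
    (((pcs (tlo G T hm) Q y).card : ℤ) - 1) * ((r : ℤ) - 1)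
      + (((nuF G (cz G Z T hm x) (tlo G T hm) Q y u + 1)
        - (pcs (tlo G T hm) Q y).card : ℕ) : ℤ) ^ 2
      ≤ tI G Z T hm r Z x * tI G Z T hm r Z y + ((pcs (tlo G T hm) Q y).card : ℤ) ^ 2 := by
  rcases u with P | e
  · simp [ipc] at hpc
  · have he := inr_mem_pkf.1 hu
    have hey : tlo G T hm e.1 = y := by
      by_contra h1
      simp [ikp, h1] at hk
    have h1 : nuF G (cz G Z T hm x) (tlo G T hm) Q y (Sum.inr e)
        = (frC G (cz G Z T hm x) (tlo G T hm) Q e.1).card := by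
      unfold nuF
      simp only [nuS, filter_singleton, hey, if_true, sum_singleton]
    rw [h1]
    exact h.jntP hp hx hy hxy hQ he hey

/-- **the joint cell test over the items, both homes**: `w` items with one N-type each in the cell, all
with at least `q ≥ w` misses at home -/
theorem WCoreK.jnJ (hp : 2 * r ≤ p) (h : WCoreK G Z T r m n p hm) {x y : V} (hx : x ∈ T)
    (hy : y ∈ T) (hxy : x ≠ y) {Q : Finset (V × V)} {Ps : Finset (Finset V)}
    (hQ : Pk G (cz G Z T hm x) (hz G Z T hm x) (tlo G T hm) Q Ps)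
    {Q' : Finset (V × V)} {Ps' : Finset (Finset V)}
    (hQ' : Pk G (cz G Z T hm y) (hz G Z T hm y) (tlo G T hm) Q' Ps') {K K' : Finset (Itm V)}
    (hK : K ⊆ pkf Q Ps) (hK' : K' ⊆ pkf Q' Ps') {q : ℕ}
    (h1 : ∀ u ∈ K, nuC G (cz G Z T hm x) (tlo G T hm) Q y u = 1
      ∧ q ≤ nuF G (cz G Z T hm x) (tlo G T hm) Q y u + ipc u)
    (h1' : ∀ u ∈ K', nuC G (cz G Z T hm y) (tlo G T hm) Q' x u = 1
      ∧ q ≤ nuF G (cz G Z T hm y) (tlo G T hm) Q' x u + ipc u)
    (hne : 1 ≤ K.card + K'.card) (hq : K.card + K'.card ≤ q) :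
    4 * (((K.card : ℤ) + K'.card - 1) * ((r : ℤ) - 1))
      + 4 * ((q : ℤ) * (q - 2 * ((K.card : ℤ) + K'.card)))
      ≤ 4 * (tI G Z T hm r Z x * tI G Z T hm r Z y) + ((K.card : ℤ) + K'.card) ^ 2 := by
  have hF := h.F.toPFrame
  have hC := h.csys
  have hcell := hC.cellD hF hx hy hxy
  set W : Finset V := K.biUnion (nuS G (cz G Z T hm x) (tlo G T hm) Q y) with hW
  set W' : Finset V := K'.biUnion (nuS G (cz G Z T hm y) (tlo G T hm) Q' x) with hW'
  have a1 : ∀ v ∈ W, v ∈ hz G Z T hm x ∧ tlo G T hm v = y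
      ∧ q ≤ (msd G (cz G Z T hm x) v).card := by
    intro v hv
    obtain ⟨w, hw, hvw⟩ := mem_biUnion.1 hv
    obtain ⟨b1, b2, b3, b4⟩ := h.nuS_mem hx hQ (hK hw) hvw
    rw [← b3 (h1 w hw).1] at b4
    exact ⟨b1, b2, (h1 w hw).2.trans b4⟩
  have a2 : ∀ v ∈ W', v ∈ hz G Z T hm y ∧ tlo G T hm v = x
      ∧ q ≤ (msd G (cz G Z T hm y) v).card := by
    intro v hv
    obtain ⟨w, hw, hvw⟩ := mem_biUnion.1 hv
    obtain ⟨b1, b2, b3, b4⟩ := h.nuS_mem hy hQ' (hK' hw) hvw
    rw [← b3 (h1' w hw).1] at b4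
    exact ⟨b1, b2, (h1' w hw).2.trans b4⟩
  have hdis : Disjoint W W' := by
    rw [disjoint_left]
    intro v hv hv'
    exact disjoint_left.1 (h.wsysT.dHH x hx y hy hxy) (a1 v hv).1 (a2 v hv').1
  have hcard : (W ∪ W').card = K.card + K'.card := by
    rw [card_union_of_disjoint hdis, hW, hW', card_biUnion_nuS1 hQ hK fun w hw => (h1 w hw).1,
      card_biUnion_nuS1 hQ' hK' fun w hw => (h1' w hw).1]
  have hD : W ∪ W' ⊆ Dbl G Z T x y := by
    intro v hv
    rcases mem_union.1 hv with hv | hv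
    · exact hC.mem_Dbl_of_tlo h.hh hx (a1 v hv).1 (a1 v hv).2.1
    · have h2 := hC.mem_Dbl_of_tlo h.hh hy (a2 v hv).1 (a2 v hv).2.1
      have h3 : Dbl G Z T y x = Dbl G Z T x y := by
        unfold Dbl
        rw [pair_comm]
      rw [← h3]
      exact h2
  have hne' : (W ∪ W').Nonempty := by
    rw [← card_pos, hcard]
    omega
  have b1 : ∀ v ∈ W ∪ W', q ≤ (msd G (cz G Z T hm x) v).card := by
    intro v hv
    rcases mem_union.1 hv with hv | hv
    · exact (a1 v hv).2.2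
    · exact (a2 v hv).2.2.trans (h.msd_le hp hy (a2 v hv).1 (a2 v hv).2.1)
  have b2 : ∀ v ∈ W ∪ W', q ≤ (msd G (cz G Z T hm y) v).card := by
    intro v hv
    rcases mem_union.1 hv with hv | hv
    · exact (a1 v hv).2.2.trans (h.msd_le hp hx (a1 v hv).1 (a1 v hv).2.1)
    · exact (a2 v hv).2.2
  have h2 := hcell.joint h.gp.P (hC.CP_clq hF hx) (hC.CP_clq hF hy)
    (h.wsysT.dCC x hx y hy hxy) hD hne' (by rw [hcard]; exact hq) b1 b2
  have h3 := hF.ne_cell hx hy hD
  have e1 : ((cz G Z T hm x).card : ℤ) = (r : ℤ) - 1 - tI G Z T hm r Z x := card_CP_eq Z x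
  have e2 : ((cz G Z T hm y).card : ℤ) = (r : ℤ) - 1 - tI G Z T hm r Z y := card_CP_eq Z y
  rw [e1, e2, hcard] at h2
  rw [hcard] at h3
  push_cast at h2 h3
  nlinarith

end NuW

end Pool.Agent.Lib.MP_f04ccf_co
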