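import Pool.Agent.Lib.MP_f04ccf_co.M.CellF
import Pool.Agent.Lib.MP_f04ccf_co.M.FrL

/-!
MP_f04ccf_co, TEXT D, regime L: **the glue**: inequalities for one hosted unit give the cell claim of `LevC.frame`.

With one multiplier `mult ≥ 0` of the column test (everything hosted and all blocks kept, everything served used) the cell
claim is affine in the hosted units `u`: `F0 + ∑ flF u ≤ 0`. It is enough that `F0 * vl u + H * flF u ≤ 0` for every
hosted unit, `H` the hosted value (`LevC.cell_glue`).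
-/

set_option autoImplicit false

namespace Pool.Agent.Lib.MP_f04ccf_co

open Finset

attribute [local instance] Classical.propDecidable

/-- the mean over a weighted family -/
lemma glue_sum {ι : Type*} {S : Finset ι} {v F : ι → ℝ} {F0 H : ℝ} (hv : ∀ u ∈ S, 0 < v u)
    (hH : H = ∑ u ∈ S, v u) (h0 : S = ∅ → F0 ≤ 0) (h1 : ∀ u ∈ S, F0 * v u + H * F u ≤ 0) :
    F0 + ∑ u ∈ S, F u ≤ 0 := by
  rcases S.eq_empty_or_nonempty with h2 | h2
  · rw [h2, sum_empty, add_zero]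
    exact h0 h2
  · have h3 : 0 < H := by
      rw [hH]
      exact sum_pos hv h2
    have h4 := sum_nonpos h1
    rw [sum_add_distrib, ← mul_sum, ← mul_sum, ← hH] at h4
    have h5 : H * (F0 + ∑ u ∈ S, F u) ≤ 0 := by linarith
    by_contra h6
    push Not at h6
    have := mul_pos h3 h6
    linarith

section CellG

variable {ι : Type*} {R : ℤ} {n : ℕ} {t s mu : ℕ → ℤ} {U : Finset ι} {ho : ι → ℕ} {vl : ι → ℤ}
  {kp mn : ℕ → ι → ℤ} {pc ar : ι → ℤ} {be kq NN sg : ℕ → ℕ → ℤ} {nu : ℕ → ι → ℤ} {z y : ℕ}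
  {g : ℕ → ι → ℕ} {f : ι → ℕ} {fr fc : ℤ → ℝ} {sp : ι → Prop} {J : Finset ℕ}

/-- **the contribution of one hosted item to the cell claim**, column multiplier `m` -/
noncomputable def flF (R : ℤ) (t : ℕ → ℤ) (U : Finset ι) (ho : ι → ℕ) (vl : ι → ℤ)
    (kp mn : ℕ → ι → ℤ) (pc : ι → ℤ) (g : ℕ → ι → ℕ) (f : ι → ℕ) (fr fc : ℤ → ℝ) (sp : ι → Prop)
    (PM PC : ℕ → ι → ℝ) (sh : ι → ℝ) (J : Finset ℕ) (z y : ℕ) (gz m : ℝ) (u : ι) : ℝ :=
  (csS ((t z : ℝ) + 1) ((t y : ℝ) + 1) - gz) * (g y u : ℝ)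
    + (if u ∈ flM U ho vl kp pc g f sp z y then
        PM y u - csS ((t z : ℝ) + 1) ((t y : ℝ) + 1) + sh u else 0)
    + (if u ∈ flO U ho vl kp pc g f sp z y then
        (1 - csS ((t z : ℝ) + 1) ((t y : ℝ) + 1)) * (fr (t y + 1) / (R : ℝ) * (mn y u : ℝ)) else 0)
    + (if u ∈ flC U ho vl kp pc g f sp J z y then PC y u - sh u else 0)
    + (if u ∈ vHC U ho vl pc g z y then (1 - csS ((t z : ℝ) + 1) ((t y : ℝ) + 1))
        * (fc (t y + 1) / (R : ℝ) * (msP kp mn y (g y) u : ℝ)) else 0)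
    - m * ((kp y u : ℝ) * ((R : ℝ) - t y) - mn y u + ((t y : ℝ) - ((t z : ℝ) + 1)) * (vl u : ℝ))

/-- the hosted units of a cell -/
lemma LevC.sumg (Lv : LevC n U ho vl kp mn pc (fun u i => mn i u) g f)
    (H : PCon R n t s mu U ho vl kp mn pc ar be kq NN sg nu) (hy : y < n) :
    ∑ u ∈ hsZ U ho pc z, (g y u : ℤ)
      = ((rnM U ho vl pc g z y).card : ℤ) + ∑ u ∈ rnC U ho vl pc z, (g y u : ℤ) := by
  rw [← sum_filter_add_sum_filter_not (hsZ U ho pc z) (fun u => vl u = 1)]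
  congr 1
  · have h1 : ∀ u ∈ (hsZ U ho pc z).filter (fun u => vl u = 1),
        (g y u : ℤ) = if g y u = 1 then 1 else 0 := by
      intro u hu
      obtain ⟨h2, h3⟩ := mem_filter.1 hu
      have h4 := (mem_filter.1 h2).1
      have h5 := Lv.le u h4 y hy
      have h6 := H.kv u h4 y hy
      split_ifs with h7
      · rw [h7]
        norm_num
      · omega
    rw [sum_congr rfl h1, ← sum_filter, card_eq_sum_ones]
    push_cast
    refine sum_congr ?_ fun _ _ => rfl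
    unfold rnM hsZ
    ext u
    simp only [mem_filter]
    tauto
  · refine sum_congr ?_ fun _ _ => rfl
    unfold rnC hsZ
    ext u
    simp only [mem_filter]
    tauto

/-- the sets of the cell are hosted plain items -/
lemma flS_sub (U : Finset ι) (ho : ι → ℕ) (vl : ι → ℤ) (kp : ℕ → ι → ℤ) (pc : ι → ℤ)
    (g : ℕ → ι → ℕ) (f : ι → ℕ) (sp : ι → Prop) (J : Finset ℕ) (z y : ℕ) :
    flM U ho vl kp pc g f sp z y ⊆ hsZ U ho pc z ∧ flO U ho vl kp pc g f sp z y ⊆ hsZ U ho pc z ∧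
      flC U ho vl kp pc g f sp J z y ⊆ hsZ U ho pc z ∧ vHC U ho vl pc g z y ⊆ hsZ U ho pc z := by
  have h1 : ∀ m, vHH U ho vl kp pc g f z m ⊆ hsZ U ho pc z := fun m u hu => by
    obtain ⟨h2, h3, h4, -⟩ := mem_filter.1 hu
    exact mem_filter.2 ⟨h2, h3, h4⟩
  refine ⟨(filter_subset _ _).trans (h1 y), (filter_subset _ _).trans (h1 y), fun u hu => ?_,
    fun u hu => ?_⟩
  · unfold flC at hu
    obtain ⟨m, -, h2⟩ := mem_biUnion.1 hu
    exact h1 m (mem_filter.1 (mem_filter.1 h2).1).1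
  · obtain ⟨h2, h3, h4, -⟩ := mem_filter.1 hu
    exact mem_filter.2 ⟨h2, h3, h4⟩

/-- **the glue** -/
theorem LevC.cell_glue (Lv : LevC n U ho vl kp mn pc (fun u i => mn i u) g f)
    (H : PConC R n t s mu U ho vl kp mn pc ar be kq NN sg nu) (hz : z < n)
    (hJ : J ⊆ (range n).erase z) (hy : y ∈ J) {PM PC : ℕ → ι → ℝ} (sh : ι → ℝ)
    {al ga ze ρ m X A x d M b k κ κ₁ w Q Gs F0 Hv : ℝ} (hm : 0 ≤ m)
    (hA : A = (t z : ℝ) + 1) (hx : x = (t y : ℝ) + 1) (hd : d = (mu z : ℝ) - s z)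
    (hM : M = (be z y : ℝ) + be y z) (hb : b = (csB n be kq z y ∅ : ℝ))
    (hk : k = ∑ u ∈ rnK U ho pc g z y, (g z u : ℝ)) (hκ : κ = ((rnK U ho pc g z y).card : ℝ))
    (hκ₁ : κ₁ = (((rnK U ho pc g z y).filter fun u => vl u = 1).card : ℝ))
    (hw : ∑ u ∈ rnK U ho pc g z y, ((msP kp mn z (g z) u : ℝ) + (rnA n kp be z y u : ℝ)) ≤ w)
    (hHv : Hv = ∑ u ∈ hsZ U ho pc z, (vl u : ℝ))
    (hQ : Q ≤ ((Hv + b + M + k + κ) * (2 * d - (Hv + b + M + k + κ)) - M ^ 2 + (Hv + b) + (k - κ)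
      + 2 * (κ₁ * (κ₁ - 1)) + ∑ e ∈ (hsZ U ho pc z).offDiag, min (vl e.1 : ℝ) (vl e.2)
      - (csNb n kp be kq sg z y (hsZ U ho pc z) ∅ : ℝ)) / 2)
    (hGs : fr (t z + 1) / (R : ℝ) * ∑ u ∈ vS1 U ho vl kp pc g f z y, (mn z u : ℝ)
        + fc (t z + 1) / (R : ℝ) * ∑ u ∈ vSC U ho vl pc g z y, (msP kp mn z (g z) u : ℝ) = Gs)
    (hF0 : csS A x * (M + k) - csS A x * Gs - al * x
        - ga * (M + k - ρ * (rnSb U ho kp mn pc g z y : ℝ)) - X
        + m * ((x - 1) * d + ((R : ℝ) - (x - 1)) + w - ((R : ℝ) - A) * (M + k)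
          - (x - 1 - A) * b - Q) ≤ F0)
    (h0 : hsZ U ho pc z = ∅ → F0 ≤ 0)
    (h1 : ∀ u ∈ hsZ U ho pc z, F0 * (vl u : ℝ)
      + Hv * flF R t U ho vl kp mn pc g f fr fc sp PM PC sh J z y (ga + ze) m u ≤ 0) :
    flPhi R t U ho vl kp mn pc be g f fr fc sp PM PC J z y
      ≤ al * ((t y : ℝ) + 1)
        + ga * ((rnE U ho vl pc be g z y : ℝ) - ρ * (rnSb U ho kp mn pc g z y : ℝ))
        + ze * (flH U ho vl pc g z y : ℝ)
        + (∑ u ∈ flC U ho vl kp pc g f sp J z y, sh u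
          - ∑ u ∈ flM U ho vl kp pc g f sp z y, sh u) + X := by
  have hy' := hJ hy
  have hyn : y < n := mem_range.1 (mem_of_mem_erase hy')
  obtain ⟨V, hV⟩ : ∃ V : Finset ι, V = U.filter fun u => ho u = y ∧ g z u ≠ 0 := ⟨_, rfl⟩
  have hK : csK pc V = rnK U ho pc g z y := by
    rw [hV]
    unfold csK rnK
    ext u
    simp only [mem_filter]
    tauto
  have hQa : ((csQ pc V).card : ℤ) = be y z := by
    rw [hV]
    exact Lv.csQ_all H.toPCon hz hyn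
  -- the column test
  have k1 := Lv.colR H hz hy' (P := hsZ U ho pc z) (Subset.refl _) (Y := ∅) (empty_subset _)
    (V := V) (by rw [hV]) hQa hA hx hd hM hb rfl rfl (by rw [hK, ← hk]) (by rw [hK, ← hκ])
    (by rw [hK, ← hκ₁]) rfl rfl rfl rfl rfl
  rw [hK, ← hHv, sub_self, mul_zero, sub_zero, add_zero] at k1
  -- the hosted part
  obtain ⟨s1, s2, s3, s4⟩ := flS_sub U ho vl kp pc g f sp J z y
  have e1 : ∑ u ∈ hsZ U ho pc z, flF R t U ho vl kp mn pc g f fr fc sp PM PC sh J z y (ga + ze) m u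
      = (csS ((t z : ℝ) + 1) ((t y : ℝ) + 1) - (ga + ze)) * ∑ u ∈ hsZ U ho pc z, (g y u : ℝ)
        + ∑ u ∈ flM U ho vl kp pc g f sp z y,
            (PM y u - csS ((t z : ℝ) + 1) ((t y : ℝ) + 1) + sh u)
        + ∑ u ∈ flO U ho vl kp pc g f sp z y,
            (1 - csS ((t z : ℝ) + 1) ((t y : ℝ) + 1)) * (fr (t y + 1) / (R : ℝ) * (mn y u : ℝ))
        + ∑ u ∈ flC U ho vl kp pc g f sp J z y, (PC y u - sh u)
        + ∑ u ∈ vHC U ho vl pc g z y, (1 - csS ((t z : ℝ) + 1) ((t y : ℝ) + 1))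
            * (fc (t y + 1) / (R : ℝ) * (msP kp mn y (g y) u : ℝ))
        - m * (∑ u ∈ hsZ U ho pc z, ((kp y u : ℝ) * ((R : ℝ) - t y) - mn y u)
          + ((t y : ℝ) - ((t z : ℝ) + 1)) * ∑ u ∈ hsZ U ho pc z, (vl u : ℝ)) := by
    unfold flF
    rw [sum_sub_distrib, sum_add_distrib, sum_add_distrib, sum_add_distrib, sum_add_distrib,
      ← mul_sum, ← mul_sum, sum_add_distrib (f := fun u => (kp y u : ℝ) * ((R : ℝ) - t y) - mn y u),
      ← mul_sum, sum_ite_mem, sum_ite_mem, sum_ite_mem, sum_ite_mem,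
      inter_eq_right.2 s1, inter_eq_right.2 s2, inter_eq_right.2 s3, inter_eq_right.2 s4]
  have e2 : ∑ u ∈ hsZ U ho pc z, (g y u : ℝ)
      = ((rnM U ho vl pc g z y).card : ℝ) + ∑ u ∈ rnC U ho vl pc z, (g y u : ℝ) := by
    exact_mod_cast Lv.sumg H.toPCon (z := z) hyn
  have k2 := glue_sum (S := hsZ U ho pc z) (v := fun u => (vl u : ℝ))
    (F := flF R t U ho vl kp mn pc g f fr fc sp PM PC sh J z y (ga + ze) m) (fun u hu => by
      have := H.v1 u (mem_filter.1 hu).1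
      have h2 : 0 < vl u := by linarith
      exact_mod_cast h2) hHv h0 h1
  rw [e1, e2, sum_add_distrib, sum_sub_distrib, sum_sub_distrib, sum_const, nsmul_eq_mul, ← mul_sum,
    ← mul_sum, ← mul_sum, ← mul_sum, ← hHv] at k2
  have h3 : (t y : ℝ) = x - 1 := by rw [hx]; ring
  rw [h3] at k1
  have k3 := mul_le_mul_of_nonneg_left (k1.trans (add_le_add le_rfl hw)) hm
  have k4 := mul_le_mul_of_nonneg_left hw hm
  have k5 := mul_le_mul_of_nonneg_left hQ hm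
  have e3 : (rnE U ho vl pc be g z y : ℝ) = M + k
      + (((rnM U ho vl pc g z y).card : ℝ) + ∑ u ∈ rnC U ho vl pc z, (g y u : ℝ)) := by
    unfold rnE
    rw [hM, hk]
    push_cast
    ring
  have e4 : (flH U ho vl pc g z y : ℝ)
      = ((rnM U ho vl pc g z y).card : ℝ) + ∑ u ∈ rnC U ho vl pc z, (g y u : ℝ) := by
    unfold flH
    push_cast
    ring
  unfold flPhi
  rw [e3, e4]
  simp only [← hA, ← hx] at k2 ⊢
  rw [h3] at k2
  rw [← hGs] at hF0
  clear k1 k4 e1 e2 e3 e4 h1 h0 hw hQ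
  linarith

end CellG

end Pool.Agent.Lib.MP_f04ccf_co
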