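import Pool.Agent.Lib.MP_f04ccf_co.S2Red
import Pool.Agent.Lib.MP_f04ccf_co.S2Test

/-!
MP_f04ccf_co: the two-colour grid (helper31, note 15226; notes 15264, 15269).  `L` is a line of
colour `k`; the rows are the classes of the colour `i`, the columns the classes of the colour `j`,
with respect to `L`.
-/

set_option autoImplicit false

namespace Pool.Agent.Lib.MP_f04ccf_co

open Finset

attribute [local instance] Classical.propDecidable

section Gen

variable {V : Type*} {G : SimpleGraph V} {r m t : ℕ} {Z T : Finset V}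

/-- every vertex outside `B` lies in some class -/
lemma PFrame.exists_Cl (h : PFrame G r m t Z T) {z : V} (hz : z ∈ Z) (hB : z ∉ BB G Z T) :
    ∃ v ∈ T, z ∈ Cl G Z T v := by
  by_cases hzT : z ∈ T
  · exact ⟨z, hzT, h.self_mem_Cl hzT⟩
  · have h1 := h.k1 hz hzT
    have h2 := h.k2 z (mem_sdiff.2 ⟨hz, hzT⟩)
    have h3 : dg G T z ≠ 2 := fun h3 => hB (mem_BB.2 ⟨⟨hz, hzT⟩, h3⟩)
    have h4 : (ends G T z).card = 1 := by rw [card_ends]; omega
    obtain ⟨v, hv⟩ := card_eq_one.1 h4
    have hvT : v ∈ T := by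
      have : v ∈ ends G T z := by rw [hv]; exact mem_singleton_self v
      exact (mem_ends.1 this).1
    exact ⟨v, hvT, mem_Cl.2 ⟨hz, Or.inr ⟨hzT, hv⟩⟩⟩

/-- a set of size at most `s` meets at most `s - |I ∩ B|` classes -/
lemma hit_count {I : Finset V} {s : ℕ} (hs : I.card ≤ s) :
    (T.filter (fun y => ¬ Disjoint I (Cl G Z T y))).card + (I ∩ BB G Z T).card ≤ s := by
  have h1 : ∀ y ∈ T.filter (fun y => ¬ Disjoint I (Cl G Z T y)), ∃ x, x ∈ I ∧ x ∈ Cl G Z T y := by
    intro y hy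
    obtain ⟨x, hx, hxy⟩ := not_disjoint_iff.1 (mem_filter.1 hy).2
    exact ⟨x, hx, hxy⟩
  choose! f hf using h1
  have h2 : (T.filter (fun y => ¬ Disjoint I (Cl G Z T y))).card ≤ (I \ BB G Z T).card := by
    apply card_le_card_of_injOn f
    · intro y hy
      obtain ⟨h3, h4⟩ := hf y hy
      refine mem_coe.2 (mem_sdiff.2 ⟨h3, fun h5 => ?_⟩)
      exact disjoint_left.1 (PFrame.BB_disjoint_Cl (mem_filter.1 (mem_coe.1 hy)).1) h4 h5
    · intro y hy y' hy' hyy
      by_contra hne
      have h3 := (hf y hy).2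
      have h4 := (hf y' hy').2
      rw [hyy] at h3
      exact disjoint_left.1 (PFrame.Cl_disjoint (mem_filter.1 (mem_coe.1 hy)).1
        (mem_filter.1 (mem_coe.1 hy')).1 hne) h3 h4
  have h3 := card_sdiff_add_card_inter I (BB G Z T)
  omega

end Gen

section Colour

variable {V : Type*} {r : ℕ} {c : V → V → Fin r} {hc : ∀ x y, c x y = c y x}

lemma col_adj {l : Fin r} {x y : V} : (col c hc l).Adj x y ↔ x ≠ y ∧ c x y = l := Iff.rfl

/-- the degrees of `b` into a set which does not contain `b` -/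
lemma sum_dg_notMem (W : Finset V) {b : V} (hb : b ∉ W) :
    ∑ l : Fin r, dg (col c hc l) W b = W.card := by
  have h1 := sum_dg hc (insert b W) (mem_insert_self b W)
  rw [card_insert_of_notMem hb] at h1
  simp only [dg_insert_self] at h1
  rw [h1]; rfl

/-- two disjoint `l`-independent sets have at least `|B| + |W| - r` edges of colour `l` -/
lemma bip_edges (hs : Sees c) (l : Fin r) {B W : Finset V} (hB : Ind (col c hc l) B)
    (hW : Ind (col c hc l) W) (hd : Disjoint B W) :
    (B.card : ℤ) + W.card - r ≤ ∑ b ∈ B, (dg (col c hc l) W b : ℤ) := by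
  have h1 := E_lower (col c hc l) r _ (W ∪ B) rfl (alpha_le hc hs l _)
  rw [E_union (col c hc l) hd.symm, card_union_of_disjoint hd.symm] at h1
  have h2 : ∀ S : Finset V, Ind (col c hc l) S → E (col c hc l) S = 0 := by
    intro S hS
    unfold E
    refine sum_eq_zero fun v hv => ?_
    unfold dg
    rw [card_eq_zero, filter_eq_empty_iff]
    exact fun x hx => hS v hv x hx
  rw [h2 _ hB, h2 _ hW] at h1
  push_cast at h1
  linarith

/-- **CELL INEQUALITY** (15264 (2), 15269 (A)): `B` a clique of colour `i`, `W` a clique of colour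
`j`, disjoint -/
theorem cell_ineq (hs : Sees c) {i j : Fin r} (hij : i ≠ j) {B W : Finset V}
    (hB : Clq (col c hc i) B) (hW : Clq (col c hc j) W) (hd : Disjoint B W) :
    ∑ b ∈ B, (dg (col c hc i) W b : ℤ) + ∑ b ∈ B, (dg (col c hc j) W b : ℤ)
      + ((r : ℤ) - 2) * ((B.card : ℤ) + W.card - r) ≤ B.card * W.card := by
  have h1 : ∑ b ∈ B, ∑ l : Fin r, (dg (col c hc l) W b : ℤ) = B.card * W.card := by
    have : ∀ b ∈ B, ∑ l : Fin r, (dg (col c hc l) W b : ℤ) = W.card := by
      intro b hb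
      exact_mod_cast sum_dg_notMem (hc := hc) W (disjoint_left.1 hd hb)
    rw [sum_congr rfl this, sum_const, nsmul_eq_mul]
  rw [sum_comm, ← add_sum_erase univ _ (mem_univ i),
    ← add_sum_erase (univ.erase i) _ (mem_erase.2 ⟨hij.symm, mem_univ j⟩)] at h1
  have h2 : ∀ l ∈ (univ.erase i).erase j, (B.card : ℤ) + W.card - r
      ≤ ∑ b ∈ B, (dg (col c hc l) W b : ℤ) := by
    intro l hl
    obtain ⟨h3, h4⟩ := mem_erase.1 hl
    exact bip_edges hs l (clq_ind hc (ne_of_mem_erase h4) hB) (clq_ind hc h3 hW) hd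
  have h3 := sum_le_sum h2
  rw [sum_const, nsmul_eq_mul] at h3
  have h4 : ((((univ : Finset (Fin r)).erase i).erase j).card : ℤ) = r - 2 := by
    rw [card_erase_of_mem (mem_erase.2 ⟨hij.symm, mem_univ j⟩), card_erase_of_mem (mem_univ i),
      card_univ, Fintype.card_fin]
    have h5 : 2 ≤ r := by
      have e1 := i.2
      have e2 := j.2
      have e3 : (i : ℕ) ≠ j := fun h => hij (Fin.ext h)
      omega
    omega
  rw [h4] at h3
  linarith

/-- a cell which is closed in both colours has `T + T' ≤ T T'`, and the covers are almost exact -/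
theorem closed_cell (hs : Sees c) {i j : Fin r} (hij : i ≠ j) {B W : Finset V}
    (hB : Clq (col c hc i) B) (hW : Clq (col c hc j) W) (hd : Disjoint B W)
    (hBc : ∀ b ∈ B, 1 ≤ dg (col c hc i) W b) (hWc : ∀ w ∈ W, 1 ≤ dg (col c hc j) B w) :
    ((r : ℤ) - B.card) + (r - W.card) ≤ ((r : ℤ) - B.card) * (r - W.card)
      ∧ ∑ b ∈ B, (dg (col c hc i) W b : ℤ)
        ≤ B.card + (((r : ℤ) - B.card) - 1) * (((r : ℤ) - W.card) - 1) - 1
      ∧ ∑ b ∈ B, (dg (col c hc j) W b : ℤ)
        ≤ W.card + (((r : ℤ) - B.card) - 1) * (((r : ℤ) - W.card) - 1) - 1 := by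
  have h1 := cell_ineq hs hij hB hW hd
  have h2 : (B.card : ℤ) ≤ ∑ b ∈ B, (dg (col c hc i) W b : ℤ) := by
    have : ∑ b ∈ B, 1 ≤ ∑ b ∈ B, dg (col c hc i) W b := sum_le_sum hBc
    rw [← card_eq_sum_ones] at this
    exact_mod_cast this
  have h3 : (W.card : ℤ) ≤ ∑ b ∈ B, (dg (col c hc j) W b : ℤ) := by
    have : ∑ w ∈ W, 1 ≤ ∑ w ∈ W, dg (col c hc j) B w := sum_le_sum hWc
    rw [← card_eq_sum_ones, dg_comm] at this
    exact_mod_cast this
  refine ⟨by nlinarith, by nlinarith, by nlinarith⟩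

/-- a line of colour `i` is not dominated (in colour `i`) by a set `W` with fewer than `r` points
outside the line -/
lemma line_not_closed (hs : Sees c) (hr : 2 ≤ r) {i : Fin r} {B W : Finset V}
    (hB : Line hc i B) (hd : Disjoint B W) {q : V} (hq : q ∈ W) (hq0 : dg (col c hc i) B q = 0)
    (hWc : W.card ≤ r) : ¬ ∀ b ∈ B, 1 ≤ dg (col c hc i) W b := by
  intro h
  have h1 : ∑ b ∈ B, 1 ≤ ∑ b ∈ B, dg (col c hc i) W b := sum_le_sum h
  rw [← card_eq_sum_ones, dg_comm, hB.2] at h1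
  have h2 : ∀ w ∈ W, dg (col c hc i) B w ≤ if w = q then 0 else 1 := by
    intro w hw
    split_ifs with h3
    · rw [h3, hq0]
    · exact (PG_col hc hs i).line_nbr hr hB.1 hB.2 (fun h4 => disjoint_left.1 hd h4 hw)
  have h3 := sum_le_sum h2
  have h4 : ∑ w ∈ W, (if w = q then 0 else 1) = W.card - 1 := by
    rw [← sum_erase_add _ _ hq, if_pos rfl, add_zero, ← card_erase_of_mem hq, card_eq_sum_ones]
    refine sum_congr rfl fun w hw => ?_
    rw [if_neg (ne_of_mem_erase hw)]
  rw [h4] at h3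
  have h5 : 0 < W.card := card_pos.2 ⟨q, hq⟩
  omega

variable [Fintype V] {k : Fin r} {L : Finset V}

/-- the frame of the colour `i` at the line `L` -/
lemma Line.fr (hs : Sees c) (hL : Line hc k L) {i : Fin r} (hi : i ≠ k)
    (hV : Fintype.card V = r ^ 2 + 1) :
    PFrame (col c hc i) r (BB (col c hc i) univ L).card r univ L :=
  hL.frame hs hi hV le_rfl

/-- the doubles of two colours are disjoint -/
lemma Line.disjoint_BB (hs : Sees c) (hL : Line hc k L) {i j : Fin r} (hi : i ≠ k) (hj : j ≠ k)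
    (hij : i ≠ j) : Disjoint (BB (col c hc i) univ L) (BB (col c hc j) univ L) := by
  rw [disjoint_left]
  intro z hz hz'
  obtain ⟨⟨_, hzL⟩, h1⟩ := mem_BB.1 hz
  obtain ⟨_, h2⟩ := mem_BB.1 hz'
  have h3 := hL.excess hs hzL
  rw [← add_sum_erase (univ.erase k) _ (mem_erase.2 ⟨hi, mem_univ i⟩),
    ← add_sum_erase ((univ.erase k).erase i) _
      (mem_erase.2 ⟨hij.symm, mem_erase.2 ⟨hj, mem_univ j⟩⟩)] at h3
  omega

/-- a cell has at most one point -/
lemma Line.cell_le_one (hs : Sees c) (hL : Line hc k L) {i j : Fin r} (hi : i ≠ k) (hj : j ≠ k)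
    (hij : i ≠ j) (hV : Fintype.card V = r ^ 2 + 1) {y q z z' : V} (hy : y ∈ L) (hq : q ∈ L)
    (h1 : z ∈ Cl (col c hc i) univ L y) (h2 : z ∈ Cl (col c hc j) univ L q)
    (h1' : z' ∈ Cl (col c hc i) univ L y) (h2' : z' ∈ Cl (col c hc j) univ L q) : z = z' := by
  by_contra hne
  have e1 := (hL.fr hs hi hV).Cl_clq hy z h1 z' h1' hne
  have e2 := (hL.fr hs hj hV).Cl_clq hq z h2 z' h2' hne
  exact hij (e1.2.symm.trans e2.2)

/-- the doubles of colour `i` are distributed to the columns -/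
lemma Line.BB_le (hs : Sees c) (hL : Line hc k L) {i j : Fin r} (hi : i ≠ k) (hj : j ≠ k)
    (hij : i ≠ j) (hV : Fintype.card V = r ^ 2 + 1) {I : V → Finset V}
    (hI : ∀ q ∈ L, Cl (col c hc j) univ L q ⊆ I q) :
    (BB (col c hc i) univ L).card ≤ ∑ q ∈ L, (I q ∩ BB (col c hc i) univ L).card := by
  refine (card_le_card ?_).trans card_biUnion_le
  intro v hv
  have h1 : v ∉ BB (col c hc j) univ L := disjoint_left.1 (hL.disjoint_BB hs hi hj hij) hv
  obtain ⟨q, hq, hvq⟩ := (hL.fr hs hj hV).exists_Cl (mem_univ v) h1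
  exact mem_biUnion.2 ⟨q, hq, mem_inter.2 ⟨hI q hq hvq, hv⟩⟩

/-- **UNIVERSAL FORM OF THE GRID** (15264 (1)): for all `i`-independent sets `I q` containing the
columns and all `j`-independent sets `K y` containing the rows some cell is missed by both -/
theorem Line.universal (hs : Sees c) (hL : Line hc k L) {i j : Fin r} (hi : i ≠ k) (hj : j ≠ k)
    (hij : i ≠ j) (hV : Fintype.card V = r ^ 2 + 1) (I K : V → Finset V)
    (hI : ∀ q ∈ L, Cl (col c hc j) univ L q ⊆ I q ∧ Ind (col c hc i) (I q))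
    (hK : ∀ y ∈ L, Cl (col c hc i) univ L y ⊆ K y ∧ Ind (col c hc j) (K y)) :
    ∃ y ∈ L, ∃ q ∈ L, Disjoint (I q) (Cl (col c hc i) univ L y) ∧
      Disjoint (K y) (Cl (col c hc j) univ L q) := by
  by_contra hcon
  push Not at hcon
  set Di := BB (col c hc i) univ L with hDi
  set Dj := BB (col c hc j) univ L with hDj
  set P := L ×ˢ L with hP
  set HI := P.filter (fun p => ¬ Disjoint (I p.2) (Cl (col c hc i) univ L p.1)) with hHI
  set HK := P.filter (fun p => ¬ Disjoint (K p.1) (Cl (col c hc j) univ L p.2)) with hHK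
  have hLc : L.card = r := hL.2
  -- the cells hit by the sets `I q`
  have c1 : HI.card + Di.card ≤ r * r := by
    have e1 : HI.card
        = ∑ q ∈ L, (L.filter (fun y => ¬ Disjoint (I q) (Cl (col c hc i) univ L y))).card := by
      rw [hHI, hP, card_filter, sum_product_right]
      exact sum_congr rfl fun q _ => (card_filter _ _).symm
    have e2 : ∀ q ∈ L, (L.filter (fun y => ¬ Disjoint (I q) (Cl (col c hc i) univ L y))).card
        + (I q ∩ Di).card ≤ r := fun q hq =>
      hit_count (alpha_le hc hs i (I q) (I q) (Subset.refl _) (hI q hq).2)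
    have e3 := sum_le_sum e2
    rw [sum_add_distrib, sum_const, smul_eq_mul, hLc, ← e1] at e3
    have e4 := hL.BB_le hs hi hj hij hV (I := I) (fun q hq => (hI q hq).1)
    rw [← hDi] at e4
    omega
  have c2 : HK.card + Dj.card ≤ r * r := by
    have e1 : HK.card
        = ∑ y ∈ L, (L.filter (fun q => ¬ Disjoint (K y) (Cl (col c hc j) univ L q))).card := by
      rw [hHK, hP, card_filter, sum_product]
      exact sum_congr rfl fun y _ => (card_filter _ _).symm
    have e2 : ∀ y ∈ L, (L.filter (fun q => ¬ Disjoint (K y) (Cl (col c hc j) univ L q))).card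
        + (K y ∩ Dj).card ≤ r := fun y hy =>
      hit_count (alpha_le hc hs j (K y) (K y) (Subset.refl _) (hK y hy).2)
    have e3 := sum_le_sum e2
    rw [sum_add_distrib, sum_const, smul_eq_mul, hLc, ← e1] at e3
    have e4 := hL.BB_le hs hj hi hij.symm hV (I := K) (fun y hy => (hK y hy).1)
    rw [← hDj] at e4
    omega
  -- the occupied cells are hit twice
  have c3 : (univ \ (Di ∪ Dj)).card ≤ (HI ∩ HK).card := by
    have e1 : ∀ z ∈ univ \ (Di ∪ Dj), ∃ p : V × V, p ∈ P ∧ z ∈ Cl (col c hc i) univ L p.1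
        ∧ z ∈ Cl (col c hc j) univ L p.2 := by
      intro z hz
      have h1 := (mem_sdiff.1 hz).2
      obtain ⟨y, hy, hzy⟩ := (hL.fr hs hi hV).exists_Cl (mem_univ z)
        (fun h => h1 (mem_union_left _ h))
      obtain ⟨q, hq, hzq⟩ := (hL.fr hs hj hV).exists_Cl (mem_univ z)
        (fun h => h1 (mem_union_right _ h))
      exact ⟨(y, q), mem_product.2 ⟨hy, hq⟩, hzy, hzq⟩
    choose! f hf using e1
    apply card_le_card_of_injOn f
    · intro z hz
      obtain ⟨h1, h2, h3⟩ := hf z hz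
      obtain ⟨h4, h5⟩ := mem_product.1 h1
      refine mem_coe.2 (mem_inter.2 ⟨mem_filter.2 ⟨h1, ?_⟩, mem_filter.2 ⟨h1, ?_⟩⟩)
      · exact not_disjoint_iff.2 ⟨z, (hI _ h5).1 h3, h2⟩
      · exact not_disjoint_iff.2 ⟨z, (hK _ h4).1 h2, h3⟩
    · intro z hz z' hz' hzz
      obtain ⟨h1, h2, h3⟩ := hf z hz
      obtain ⟨_, h2', h3'⟩ := hf z' hz'
      obtain ⟨h4, h5⟩ := mem_product.1 h1
      rw [← hzz] at h2' h3'
      exact hL.cell_le_one hs hi hj hij hV h4 h5 h2 h3 h2' h3'
  have c4 : r ^ 2 + 1 ≤ (univ \ (Di ∪ Dj)).card + (Di.card + Dj.card) := by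
    have e1 := card_sdiff_add_card_eq_card (subset_univ (Di ∪ Dj))
    rw [card_univ, hV] at e1
    have e2 := card_union_le Di Dj
    omega
  have c5 : r * r ≤ (HI ∪ HK).card := by
    have e1 : P.card = r * r := by rw [hP, card_product, hLc]
    rw [← e1]
    apply card_le_card
    intro p hp
    obtain ⟨h1, h2⟩ := mem_product.1 hp
    rw [mem_union]
    by_cases h3 : Disjoint (I p.2) (Cl (col c hc i) univ L p.1)
    · exact Or.inr (mem_filter.2 ⟨hp, hcon _ h1 _ h2 h3⟩)
    · exact Or.inl (mem_filter.2 ⟨hp, h3⟩)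
  have c6 := card_union_add_card_inter HI HK
  have c7 : r ^ 2 = r * r := by ring
  omega

/-- the class of `y` has no edge of its colour to the other points of `L` -/
lemma Line.dg_Cl (hs : Sees c) (hL : Line hc k L) {i : Fin r} (hi : i ≠ k)
    (hV : Fintype.card V = r ^ 2 + 1) {y q : V} (hy : y ∈ L) (hq : q ∈ L) (hyq : y ≠ q) :
    dg (col c hc i) (Cl (col c hc i) univ L y) q = 0 := by
  have h := hL.fr hs hi hV
  unfold dg
  rw [card_eq_zero, filter_eq_empty_iff]
  intro z hz hqz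
  rcases (mem_Cl.1 hz).2 with h1 | ⟨_, h1⟩
  · subst h1
    exact h.ind q hq z hy hqz
  · have h2 : q ∈ ends (col c hc i) L z := mem_ends.2 ⟨hq, hqz.symm⟩
    rw [h1, mem_singleton] at h2
    exact hyq h2.symm

/-- a row which is a line is never closed: some point of the row `y` has no `i`-neighbour in the
column `q` (`y ≠ q`, empty cell) -/
theorem Line.row_line_open (hs : Sees c) (hr : 2 ≤ r) (hL : Line hc k L) {i j : Fin r} (hi : i ≠ k)
    (hj : j ≠ k) (hV : Fintype.card V = r ^ 2 + 1) {y q : V} (hy : y ∈ L) (hq : q ∈ L)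
    (hyq : y ≠ q) (hd : Disjoint (Cl (col c hc i) univ L y) (Cl (col c hc j) univ L q))
    (hyr : (Cl (col c hc i) univ L y).card = r) :
    ∃ b ∈ Cl (col c hc i) univ L y, dg (col c hc i) (Cl (col c hc j) univ L q) b = 0 := by
  have h1 := line_not_closed hs hr (B := Cl (col c hc i) univ L y)
    (W := Cl (col c hc j) univ L q) ⟨(hL.fr hs hi hV).Cl_clq hy, hyr⟩ hd
    ((hL.fr hs hj hV).self_mem_Cl hq) (hL.dg_Cl hs hi hV hy hq hyq)
    ((hL.fr hs hj hV).Cl_card_le hr (PG_col hc hs j) hq)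
  push Not at h1
  obtain ⟨b, hb, hb1⟩ := h1
  exact ⟨b, hb, by omega⟩

/-- lines of different colours through different points of `L` meet -/
theorem Line.lines_meet (hs : Sees c) (hr : 2 ≤ r) (hL : Line hc k L) {i j : Fin r} (hi : i ≠ k)
    (hj : j ≠ k) (hij : i ≠ j) (hV : Fintype.card V = r ^ 2 + 1) {y q : V} (hy : y ∈ L)
    (hq : q ∈ L) (hyq : y ≠ q) (hyr : (Cl (col c hc i) univ L y).card = r)
    (hqr : (Cl (col c hc j) univ L q).card = r) :
    ¬ Disjoint (Cl (col c hc i) univ L y) (Cl (col c hc j) univ L q) := by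
  intro hd
  obtain ⟨b, hb, hb0⟩ := hL.row_line_open hs hr hi hj hV hy hq hyq hd hyr
  have h1 := dom_of_alpha (subset_univ (Cl (col c hc j) univ L q))
    (clq_ind hc hij ((hL.fr hs hj hV).Cl_clq hq)) hqr (alpha_le hc hs i univ) (mem_univ b)
    (disjoint_left.1 hd hb)
  omega

/-- **a cell closed in both colours has `T ≥ 2` and `T' ≥ 2`** and the two covers are almost exact -/
theorem Line.closed_cell (hs : Sees c) (hr : 2 ≤ r) (hL : Line hc k L) {i j : Fin r} (hi : i ≠ k)
    (hj : j ≠ k) (hij : i ≠ j) (hV : Fintype.card V = r ^ 2 + 1) {y q : V} (hy : y ∈ L)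
    (hq : q ∈ L) (hyq : y ≠ q)
    (hd : Disjoint (Cl (col c hc i) univ L y) (Cl (col c hc j) univ L q))
    (h1 : ∀ b ∈ Cl (col c hc i) univ L y, 1 ≤ dg (col c hc i) (Cl (col c hc j) univ L q) b)
    (h2 : ∀ b ∈ Cl (col c hc j) univ L q, 1 ≤ dg (col c hc j) (Cl (col c hc i) univ L y) b) :
    (Cl (col c hc i) univ L y).card + 2 ≤ r ∧ (Cl (col c hc j) univ L q).card + 2 ≤ r := by
  have e1 := (Pool.Agent.Lib.MP_f04ccf_co.closed_cell hs hij ((hL.fr hs hi hV).Cl_clq hy)
    ((hL.fr hs hj hV).Cl_clq hq) hd h1 h2).1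
  have e2 : (Cl (col c hc i) univ L y).card ≤ r :=
    (hL.fr hs hi hV).Cl_card_le hr (PG_col hc hs i) hy
  have e3 : (Cl (col c hc j) univ L q).card ≤ r :=
    (hL.fr hs hj hV).Cl_card_le hr (PG_col hc hs j) hq
  have e4 : (Cl (col c hc i) univ L y).card ≠ r := by
    intro h3
    obtain ⟨b, hb, hb0⟩ := hL.row_line_open hs hr hi hj hV hy hq hyq hd h3
    have := h1 b hb
    omega
  have e5 : (Cl (col c hc j) univ L q).card ≠ r := by
    intro h3
    obtain ⟨b, hb, hb0⟩ := hL.row_line_open hs hr hj hi hV hq hy hyq.symm hd.symm h3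
    have := h2 b hb
    omega
  obtain ⟨T, hT⟩ : ∃ T, (Cl (col c hc i) univ L y).card + T = r :=
    ⟨r - (Cl (col c hc i) univ L y).card, by omega⟩
  obtain ⟨T', hT'⟩ : ∃ T', (Cl (col c hc j) univ L q).card + T' = r :=
    ⟨r - (Cl (col c hc j) univ L q).card, by omega⟩
  have f1 : (r : ℤ) - (Cl (col c hc i) univ L y).card = T := by
    have : ((Cl (col c hc i) univ L y).card : ℤ) + T = r := by exact_mod_cast hT
    linarith
  have f2 : (r : ℤ) - (Cl (col c hc j) univ L q).card = T' := by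
    have : ((Cl (col c hc j) univ L q).card : ℤ) + T' = r := by exact_mod_cast hT'
    linarith
  rw [f1, f2] at e1
  have g1 : 1 ≤ T := by omega
  have g2 : 1 ≤ T' := by omega
  have g3 : T + T' ≤ T * T' := by exact_mod_cast e1
  have g4 : T ≠ 1 := by
    intro h; subst h; omega
  have g5 : T' ≠ 1 := by
    intro h; subst h; omega
  omega

end Colour

end Pool.Agent.Lib.MP_f04ccf_co
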