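import Pool.Agent.Lib.MP_f04ccf_co.M.CmbR

/-!
MP_f04ccf_co, notes 16064, 16002 (S2_E5 section 3, (3b)): hard located fronts together with residual
units.  `W x` = the located points of the host `x` at the row `z`, `Y x` = points of the host such that
a column which misses a nonempty part `M` of `W x` sees `|M| + l` of them (for instance `α + l` common
neighbours, `α` = independence number of `W x`), `P` = residual front of `l` units off the `W x`.
Then every such column sees `Σ |W x| + l` points of the union.  `CSys.row_un`: the row test of a front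
which every column `c` sees in `M - un c` points.
-/

set_option autoImplicit false

namespace Pool.Agent.Lib.MP_f04ccf_co

open Finset

attribute [local instance] Classical.propDecidable

section HardF

variable {ι V : Type*}

/-- **hard located fronts and residual units add** (`N` = the points seen by the column) -/
theorem hard_front {X : Finset ι} {W Y : ι → Finset V} {P N : Finset V} {l : ℕ}
    (hWW : ∀ x ∈ X, ∀ y ∈ X, x ≠ y → Disjoint (W x) (W y))
    (hYY : ∀ x ∈ X, ∀ y ∈ X, x ≠ y → Disjoint (Y x) (Y y))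
    (hWY : ∀ x ∈ X, ∀ y ∈ X, Disjoint (W x) (Y y))
    (hWP : ∀ x ∈ X, Disjoint (W x) P)
    (hM : ∀ x ∈ X, ¬ W x ⊆ N → (W x \ N).card + l ≤ (Y x ∩ N).card)
    (hl : l ≤ (P ∩ N).card) :
    ∑ x ∈ X, (W x).card + l ≤ ((X.biUnion W ∪ (X.biUnion Y ∪ P)) ∩ N).card := by
  by_cases hall : ∀ x ∈ X, W x ⊆ N
  · have h1 : X.biUnion W ∪ (P ∩ N) ⊆ (X.biUnion W ∪ (X.biUnion Y ∪ P)) ∩ N := by
      intro v hv
      rcases mem_union.1 hv with h | h
      · obtain ⟨x, hx, hvx⟩ := mem_biUnion.1 h
        exact mem_inter.2 ⟨mem_union_left _ h, hall x hx hvx⟩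
      · obtain ⟨a, b⟩ := mem_inter.1 h
        exact mem_inter.2 ⟨mem_union_right _ (mem_union_right _ a), b⟩
    have h2 : Disjoint (X.biUnion W) (P ∩ N) := by
      rw [disjoint_biUnion_left]
      intro x hx
      exact (hWP x hx).mono_right inter_subset_left
    have h3 := card_le_card h1
    rw [card_union_of_disjoint h2, card_biUnion (fun x hx y hy hxy => hWW x hx y hy hxy)] at h3
    omega
  · push Not at hall
    obtain ⟨x0, hx0, hx0N⟩ := hall
    have h1 : X.biUnion (fun x => W x ∩ N) ∪ X.biUnion (fun x => Y x ∩ N)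
        ⊆ (X.biUnion W ∪ (X.biUnion Y ∪ P)) ∩ N := by
      intro v hv
      rcases mem_union.1 hv with h | h
      · obtain ⟨x, hx, hvx⟩ := mem_biUnion.1 h
        obtain ⟨a, b⟩ := mem_inter.1 hvx
        exact mem_inter.2 ⟨mem_union_left _ (mem_biUnion.2 ⟨x, hx, a⟩), b⟩
      · obtain ⟨x, hx, hvx⟩ := mem_biUnion.1 h
        obtain ⟨a, b⟩ := mem_inter.1 hvx
        exact mem_inter.2 ⟨mem_union_right _ (mem_union_left _ (mem_biUnion.2 ⟨x, hx, a⟩)), b⟩
    have h2 : Disjoint (X.biUnion (fun x => W x ∩ N)) (X.biUnion (fun x => Y x ∩ N)) := by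
      rw [disjoint_biUnion_left]
      intro x hx
      rw [disjoint_biUnion_right]
      intro y hy
      exact (hWY x hx y hy).mono inter_subset_left inter_subset_left
    have h3 := card_le_card h1
    rw [card_union_of_disjoint h2,
      card_biUnion (fun x hx y hy hxy => (hWW x hx y hy hxy).mono inter_subset_left inter_subset_left),
      card_biUnion (fun x hx y hy hxy => (hYY x hx y hy hxy).mono inter_subset_left inter_subset_left),
      ← sum_add_distrib] at h3
    refine le_trans ?_ h3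
    have h4 : ∀ x ∈ X, (W x).card ≤ (W x ∩ N).card + (Y x ∩ N).card := by
      intro x hx
      have e1 := card_inter_add_card_sdiff (W x) N
      by_cases hc : W x ⊆ N
      · have e2 : (W x \ N).card = 0 := by
          rw [card_eq_zero, sdiff_eq_empty_iff_subset]
          exact hc
        omega
      · have e2 := hM x hx hc
        omega
    have h5 : (W x0).card + l ≤ (W x0 ∩ N).card + (Y x0 ∩ N).card := by
      have e1 := card_inter_add_card_sdiff (W x0) N
      have e2 := hM x0 hx0 hx0N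
      omega
    rw [← add_sum_erase X _ hx0, ← add_sum_erase X (fun x => (W x ∩ N).card + (Y x ∩ N).card) hx0]
    have h6 : ∑ x ∈ X.erase x0, (W x).card
        ≤ ∑ x ∈ X.erase x0, ((W x ∩ N).card + (Y x ∩ N).card) :=
      sum_le_sum fun x hx => h4 x (mem_of_mem_erase hx)
    omega

/-- the version with common neighbours: a column which misses a point of `W x` sees all of `Y x`,
it misses at most `α x` points of `W x`, `α x + l ≤ |Y x|` -/
theorem hard_front_common {X : Finset ι} {W Y : ι → Finset V} {P N : Finset V} {l : ℕ} {α : ι → ℕ}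
    (hWW : ∀ x ∈ X, ∀ y ∈ X, x ≠ y → Disjoint (W x) (W y))
    (hYY : ∀ x ∈ X, ∀ y ∈ X, x ≠ y → Disjoint (Y x) (Y y))
    (hWY : ∀ x ∈ X, ∀ y ∈ X, Disjoint (W x) (Y y))
    (hWP : ∀ x ∈ X, Disjoint (W x) P)
    (hM : ∀ x ∈ X, ¬ W x ⊆ N → Y x ⊆ N) (hα : ∀ x ∈ X, (W x \ N).card ≤ α x)
    (hY : ∀ x ∈ X, α x + l ≤ (Y x).card)
    (hl : l ≤ (P ∩ N).card) :
    ∑ x ∈ X, (W x).card + l ≤ ((X.biUnion W ∪ (X.biUnion Y ∪ P)) ∩ N).card := by
  refine hard_front hWW hYY hWY hWP (fun x hx hc => ?_) hl
  rw [inter_eq_left.2 (hM x hx hc)]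
  have h1 := hα x hx
  have h2 := hY x hx
  omega

/-- the number of points of the front -/
lemma hard_front_size {X : Finset ι} {W Y : ι → Finset V} {P : Finset V} {p : ℕ}
    (hp : P.card ≤ p) :
    (X.biUnion W ∪ (X.biUnion Y ∪ P)).card
      ≤ ∑ x ∈ X, (W x).card + (∑ x ∈ X, (Y x).card + p) := by
  refine (card_union_le _ _).trans (Nat.add_le_add card_biUnion_le ?_)
  exact (card_union_le _ _).trans (Nat.add_le_add card_biUnion_le hp)

variable {G : SimpleGraph V} {Z T : Finset V} {hm : V → V} {r m t : ℕ}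

lemma card_inter_nbr (G : SimpleGraph V) (U : Finset V) (c : V) :
    (U ∩ U.filter (fun v => G.Adj c v)).card = dg G U c := by
  unfold dg
  rw [inter_eq_right.2 (filter_subset _ _)]

/-- **the row test of a front** `U` (disjoint from the slot) which the column `c` sees in at least
`M - un c` points, `M ≤ |U| ≤ M + q`:
`2 R (s + M) - 2 M t - NE (S y) - 2 (M + q) g - (M + q)(M + q - 1) ≤ 2 Σ un` -/
theorem CSys.row_un (hF : PFrame G r m t Z T) (hP : PG G r) {A : Finset V} {S : V → Finset V}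
    (h : CSys G Z T hm A S) {y : V} (hy : y ∈ A) {U : Finset V} (hU : Disjoint (S y) U)
    {M q : ℕ} {un : V → ℤ} (hM : ∀ c ∈ CP G Z T S y, (M : ℤ) ≤ dg G U c + un c)
    (hMU : M ≤ U.card) (hq : U.card ≤ M + q) (hr : (r : ℤ) ≤ (S y).card + 1 + M) :
    2 * ((r : ℤ) - 1) * (((S y).card : ℤ) - r + M)
        - 2 * (M : ℤ) * ((r : ℤ) - 1 - (CP G Z T S y).card) - NE G (S y)
        - 2 * ((M : ℤ) + q) * (((S y).card : ℤ) - r + 1)
        - ((M : ℤ) + q) * ((M : ℤ) + q - 1)
        + 2 * ∑ v ∈ U, (dg G (HP G Z T S y) v : ℤ)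
      ≤ 2 * ∑ c ∈ CP G Z T S y, un c := by
  have h1 := h.row_load hF hP hy hU (k := fun c => (M : ℤ) - un c) (fun c hc => by
    have := hM c hc
    linarith)
  have h2 := NE_le_self (G := G) U
  have h4 : (M : ℤ) ≤ U.card := by exact_mod_cast hMU
  have h5 : (U.card : ℤ) ≤ M + q := by exact_mod_cast hq
  have h6 := front_num' (M := (M : ℤ)) (k := (U.card : ℤ)) (q := q)
    (g := ((S y).card : ℤ) - r + 1) h4 h5 (by linarith)
  rw [sum_sub_distrib, sum_const, nsmul_eq_mul] at h1
  nlinarith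

/-- a column sees at least `dg` of every subset -/
lemma dg_eq_inter {U N : Finset V} {c : V} (hN : ∀ v ∈ U, (v ∈ N ↔ G.Adj c v)) :
    (U ∩ N).card = dg G U c := by
  unfold dg
  congr 1
  ext v
  simp only [mem_inter, mem_filter]
  constructor
  · rintro ⟨a, b⟩
    exact ⟨a, (hN v a).1 b⟩
  · rintro ⟨a, b⟩
    exact ⟨a, (hN v a).2 b⟩

/-- **(3b) of S2_E5: the row test of hard located fronts with residual units.**  `bad` = the columns
to which the exchange argument does not apply; they cost `Σ |W x| + l` each. -/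
theorem CSys.row_hard (hF : PFrame G r m t Z T) (hP : PG G r) {A : Finset V} {S : V → Finset V}
    (h : CSys G Z T hm A S) {y : V} (hy : y ∈ A) {X : Finset ι} {W Y : ι → Finset V}
    {P bad : Finset V} {l p : ℕ}
    (hSW : ∀ x ∈ X, Disjoint (S y) (W x)) (hSY : ∀ x ∈ X, Disjoint (S y) (Y x))
    (hSP : Disjoint (S y) P)
    (hWW : ∀ x ∈ X, ∀ x' ∈ X, x ≠ x' → Disjoint (W x) (W x'))
    (hYY : ∀ x ∈ X, ∀ x' ∈ X, x ≠ x' → Disjoint (Y x) (Y x'))
    (hWY : ∀ x ∈ X, ∀ x' ∈ X, Disjoint (W x) (Y x'))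
    (hWP : ∀ x ∈ X, Disjoint (W x) P)
    (hM : ∀ x ∈ X, ∀ c ∈ CP G Z T S y, c ∉ bad → dg G (W x) c < (W x).card →
      (W x).card + l ≤ dg G (W x) c + dg G (Y x) c)
    (hl : ∀ c ∈ CP G Z T S y, c ∉ bad → l ≤ dg G P c) (hlP : l ≤ P.card) (hp : P.card ≤ p)
    (hr : (r : ℤ) ≤ (S y).card + 1 + (∑ x ∈ X, (W x).card + l : ℕ)) :
    2 * ((r : ℤ) - 1) * (((S y).card : ℤ) - r + (∑ x ∈ X, (W x).card + l : ℕ))
        - 2 * ((∑ x ∈ X, (W x).card + l : ℕ) : ℤ) * ((r : ℤ) - 1 - (CP G Z T S y).card)
        - NE G (S y)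
        - 2 * (((∑ x ∈ X, (W x).card + l : ℕ) : ℤ) + (∑ x ∈ X, (Y x).card + p - l : ℕ))
          * (((S y).card : ℤ) - r + 1)
        - (((∑ x ∈ X, (W x).card + l : ℕ) : ℤ) + (∑ x ∈ X, (Y x).card + p - l : ℕ))
          * (((∑ x ∈ X, (W x).card + l : ℕ) : ℤ) + (∑ x ∈ X, (Y x).card + p - l : ℕ) - 1)
      ≤ 2 * (((∑ x ∈ X, (W x).card + l : ℕ) : ℤ) * (CP G Z T S y ∩ bad).card) := by
  set U : Finset V := X.biUnion W ∪ (X.biUnion Y ∪ P) with hUdef
  have hSU : Disjoint (S y) U := by
    rw [hUdef, disjoint_union_right, disjoint_union_right, disjoint_biUnion_right,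
      disjoint_biUnion_right]
    exact ⟨hSW, hSY, hSP⟩
  have hsize : U.card ≤ (∑ x ∈ X, (W x).card + l) + (∑ x ∈ X, (Y x).card + p - l) := by
    have h1 := hard_front_size (X := X) (W := W) (Y := Y) hp
    have h2 : l ≤ p := hlP.trans hp
    have h3 : (∑ x ∈ X, (W x).card + l) + (∑ x ∈ X, (Y x).card + p - l)
        = ∑ x ∈ X, (W x).card + (∑ x ∈ X, (Y x).card + p) := by omega
    rw [h3]
    exact h1
  have hMU : ∑ x ∈ X, (W x).card + l ≤ U.card := by
    have h1 : X.biUnion W ∪ P ⊆ U := by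
      rw [hUdef]
      exact union_subset_union_right subset_union_right
    have h2 : Disjoint (X.biUnion W) P := by
      rw [disjoint_biUnion_left]
      exact hWP
    have h3 := card_le_card h1
    rw [card_union_of_disjoint h2, card_biUnion (fun x hx y hy hxy => hWW x hx y hy hxy)] at h3
    omega
  have hcol : ∀ c ∈ CP G Z T S y, ((∑ x ∈ X, (W x).card + l : ℕ) : ℤ) ≤ dg G U c
      + (if c ∈ bad then ((∑ x ∈ X, (W x).card + l : ℕ) : ℤ) else 0) := by
    intro c hc
    by_cases hb : c ∈ bad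
    · rw [if_pos hb]
      have : (0 : ℤ) ≤ dg G U c := by positivity
      linarith
    · rw [if_neg hb, add_zero]
      have h1 : ∑ x ∈ X, (W x).card + l ≤ (U ∩ U.filter (fun v => G.Adj c v)).card := by
        refine hard_front hWW hYY hWY hWP (fun x hx hn => ?_) ?_
        · have e1 : (W x ∩ U.filter (fun v => G.Adj c v)).card = dg G (W x) c := by
            refine dg_eq_inter fun v hv => ?_
            rw [mem_filter]
            exact ⟨fun a => a.2, fun a => ⟨mem_union_left _ (mem_biUnion.2 ⟨x, hx, hv⟩), a⟩⟩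
          have e2 : (Y x ∩ U.filter (fun v => G.Adj c v)).card = dg G (Y x) c := by
            refine dg_eq_inter fun v hv => ?_
            rw [mem_filter]
            exact ⟨fun a => a.2, fun a =>
              ⟨mem_union_right _ (mem_union_left _ (mem_biUnion.2 ⟨x, hx, hv⟩)), a⟩⟩
          have e3 := card_inter_add_card_sdiff (W x) (U.filter (fun v => G.Adj c v))
          have e4 : dg G (W x) c < (W x).card := by
            by_contra hcon
            apply hn
            rw [← sdiff_eq_empty_iff_subset, ← card_eq_zero]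
            omega
          have e5 := hM x hx c hc hb e4
          omega
        · have e1 : (P ∩ U.filter (fun v => G.Adj c v)).card = dg G P c := by
            refine dg_eq_inter fun v hv => ?_
            rw [mem_filter]
            exact ⟨fun a => a.2, fun a => ⟨mem_union_right _ (mem_union_right _ hv), a⟩⟩
          rw [e1]
          exact hl c hc hb
      rw [card_inter_nbr] at h1
      exact_mod_cast h1
  have h1 := h.row_un hF hP hy hSU hcol hMU hsize hr
  have h2 : ∑ c ∈ CP G Z T S y, (if c ∈ bad then ((∑ x ∈ X, (W x).card + l : ℕ) : ℤ) else 0)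
      = ((∑ x ∈ X, (W x).card + l : ℕ) : ℤ) * (CP G Z T S y ∩ bad).card := by
    rw [← sum_filter, sum_const, nsmul_eq_mul, mul_comm, filter_mem_eq_inter]
  have h3 : (0 : ℤ) ≤ ∑ v ∈ U, (dg G (HP G Z T S y) v : ℤ) := sum_nonneg fun v _ => by positivity
  rw [h2] at h1
  linarith

end HardF

end Pool.Agent.Lib.MP_f04ccf_co
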