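import Pool.Agent.Lib.MP_f04ccf_co.M.LemA

/-!
MP_f04ccf_co: Hall hosting (note 14780 (b)).  `T` is a maximum independent set of `MIN-U`, `D = DD G U T`
the vertices outside the private cliques, `F (z) = FT G T z` the neighbours of `z` in `T`.
-/

set_option autoImplicit false

namespace Pool.Agent.Lib.MP_f04ccf_co.Mn

open Finset

attribute [local instance] Classical.propDecidable

variable {V : Type*} {r : ℕ} {c : V → V → Fin r} {hc : ∀ x y, c x y = c y x}
  {U0 U : Finset V} {i : Fin r} {k : ℕ}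

/-- the neighbours of `z` in `T` -/
noncomputable def FT (G : SimpleGraph V) (T : Finset V) (z : V) : Finset V :=
  T.filter (fun w => G.Adj z w)

lemma mem_FT {G : SimpleGraph V} {T : Finset V} {z w : V} : w ∈ FT G T z ↔ w ∈ T ∧ G.Adj z w :=
  mem_filter

lemma FT_card (G : SimpleGraph V) (T : Finset V) (z : V) : (FT G T z).card = dg G T z := rfl

lemma FT_sub (G : SimpleGraph V) (T : Finset V) (z : V) : FT G T z ⊆ T := filter_subset _ _

lemma DD_sub (G : SimpleGraph V) (U T : Finset V) : DD G U T ⊆ U := sdiff_subset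

lemma DD_notMem_pn {G : SimpleGraph V} {U T : Finset V} {z y : V} (hz : z ∈ DD G U T)
    (hy : y ∈ T) : z ∉ pn G U T y :=
  fun h => (mem_sdiff.1 hz).2 (mem_biUnion.2 ⟨y, hy, h⟩)

lemma DD_notMem {G : SimpleGraph V} {U T : Finset V} (hT : T ⊆ U) {z : V}
    (hz : z ∈ DD G U T) : z ∉ T :=
  fun h => DD_notMem_pn hz h (self_mem_pn hT h)

/-- `|D| + Σ |C_y| = k r + 1` -/
lemma MinU.DD_card (h : MinU hc U0 i k U) {T : Finset V} (hi : Ind (col c hc i) T) :
    (DD (col c hc i) U T).card + ∑ y ∈ T, (pn (col c hc i) U T y).card = k * r + 1 := by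
  have hsub : T.biUnion (pn (col c hc i) U T) ⊆ U := by
    intro x hx
    obtain ⟨u, _, hx⟩ := mem_biUnion.1 hx
    exact pn_sub _ _ _ hx
  have h1 := card_sdiff_add_card_eq_card hsub
  have h2 : (T.biUnion (pn (col c hc i) U T)).card = ∑ y ∈ T, (pn (col c hc i) U T y).card :=
    card_biUnion fun u hu w hw huw => pn_disj hi hu hw huw
  have h3 := h.card
  unfold DD
  omega

/-- the Hall condition: `#{z ∈ D : F (z) ⊆ Y} + Σ_{y ∈ Y} |C_y| ≤ |Y| r` for every proper subset `Y`
of `T` (so `#{z ∈ D : F (z) ⊆ Y} ≤ |Y| + t (Y)`) -/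
theorem MinU.hall_le (h : MinU hc U0 i k U) {T : Finset V} (hT : T ⊆ U)
    (hi : Ind (col c hc i) T) (hTc : T.card = k) {Y : Finset V} (hY : Y ⊆ T) (hne : Y ≠ T) :
    ((DD (col c hc i) U T).filter (fun z => FT (col c hc i) T z ⊆ Y)).card +
      ∑ y ∈ Y, (pn (col c hc i) U T y).card ≤ Y.card * r := by
  set G := col c hc i with hG
  have hJ : T \ Y ⊆ U := sdiff_subset.trans hT
  have hJi : Ind G (T \ Y) := fun x hx y hy => hi x (mem_sdiff.1 hx).1 y (mem_sdiff.1 hy).1
  have hJne : (T \ Y).Nonempty := by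
    rw [sdiff_nonempty]
    exact fun h' => hne (Subset.antisymm hY h')
  have h1 := h.NJ_ge hJ hJi hJne
  rw [← hG] at h1
  have h2 := card_sdiff_add_card_eq_card hY
  have h3 : Y.biUnion (pn G U T) ∪ (DD G U T).filter (fun z => FT G T z ⊆ Y) ⊆
      U \ NJ G U (T \ Y) := by
    intro v hv
    rw [mem_union] at hv
    rcases hv with hv | hv
    · obtain ⟨y, hy, hv⟩ := mem_biUnion.1 hv
      refine mem_sdiff.2 ⟨pn_sub _ _ _ hv, fun hN => ?_⟩
      rcases (mem_NJ.1 hN).2 with h4 | ⟨u, hu, huv⟩
      · have h5 := mem_sdiff.1 h4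
        refine pn_notMem hi (hY hy) hv (mem_erase.2 ⟨?_, h5.1⟩)
        rintro rfl
        exact h5.2 hy
      · have h5 := mem_sdiff.1 hu
        refine pn_not_adj hi (hY hy) hv u (mem_erase.2 ⟨?_, h5.1⟩) huv.symm
        rintro rfl
        exact h5.2 hy
    · rw [mem_filter] at hv
      refine mem_sdiff.2 ⟨DD_sub _ _ _ hv.1, fun hN => ?_⟩
      rcases (mem_NJ.1 hN).2 with h4 | ⟨u, hu, huv⟩
      · exact DD_notMem hT hv.1 (mem_sdiff.1 h4).1
      · have h5 := mem_sdiff.1 hu
        exact h5.2 (hv.2 (mem_FT.2 ⟨h5.1, huv.symm⟩))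
  have h4 := card_le_card h3
  have h5 : Disjoint (Y.biUnion (pn G U T)) ((DD G U T).filter (fun z => FT G T z ⊆ Y)) := by
    rw [disjoint_left]
    intro v hv hv'
    obtain ⟨y, hy, hv⟩ := mem_biUnion.1 hv
    exact DD_notMem_pn (mem_filter.1 hv').1 (hY hy) hv
  rw [card_union_of_disjoint h5, card_biUnion (fun u hu w hw huw =>
    pn_disj hi (hY hu) (hY hw) huw)] at h4
  have h6 := card_sdiff_add_card_eq_card (show NJ G U (T \ Y) ⊆ U from filter_subset _ _)
  have h7 := h.card
  have h8 : k * r = (T \ Y).card * r + Y.card * r := by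
    rw [← hTc, ← h2]; ring
  omega

/-- **Hosting.** For every `z0 ∈ D` there is a map `g` from `D \ {z0}` to `T` with `g z` adjacent to `z`
such that `|C_x| + |g ⁻¹ (x)| = r` for every `x ∈ T`. -/
theorem MinU.host (h : MinU hc U0 i k U) {T : Finset V} (hT : T ⊆ U)
    (hi : Ind (col c hc i) T) (hTc : T.card = k) {z0 : V} (hz0 : z0 ∈ DD (col c hc i) U T) :
    ∃ g : V → V, (∀ z ∈ (DD (col c hc i) U T).erase z0, g z ∈ T ∧ (col c hc i).Adj z (g z)) ∧
      ∀ x ∈ T, (pn (col c hc i) U T x).card +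
        (((DD (col c hc i) U T).erase z0).filter (fun z => g z = x)).card = r := by
  set G := col c hc i with hG
  set D := (DD G U T).erase z0 with hD
  have hpn : ∀ y ∈ T, (pn G U T y).card ≤ r - 1 := fun y hy => h.pn_le hT hi hTc hy
  have hDD := h.DD_card hi
  rw [← hG] at hDD
  have hDc : D.card + 1 = (DD G U T).card := by
    rw [hD, card_erase_of_mem hz0]
    have := card_pos.2 ⟨z0, hz0⟩
    omega
  have hslot : ∀ Y ⊆ T, ∑ y ∈ Y, (r - (pn G U T y).card) + ∑ y ∈ Y, (pn G U T y).card =
      Y.card * r := by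
    intro Y hY
    rw [← sum_add_distrib, card_eq_sum_ones, sum_mul]
    refine sum_congr rfl fun y hy => ?_
    have := hpn y (hY hy)
    omega
  have hall := (all_card_le_biUnion_card_iff_exists_injective
    (fun z : {z // z ∈ D} => (FT G T z.1).sigma (fun x => range (r - (pn G U T x).card)))).1 ?_
  · obtain ⟨f, hfi, hf⟩ := hall
    set g : V → V := fun z => if hz : z ∈ D then (f ⟨z, hz⟩).1 else z0 with hg
    have hgz : ∀ (z : V) (hz : z ∈ D), g z = (f ⟨z, hz⟩).1 := fun z hz => by
      simp only [hg]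
      rw [dif_pos hz]
    have hgT : ∀ z ∈ D, g z ∈ T ∧ G.Adj z (g z) := by
      intro z hz
      have h1 := mem_sigma.1 (hf ⟨z, hz⟩)
      rw [hgz z hz]
      exact mem_FT.1 h1.1
    have hle : ∀ x ∈ T, (D.filter (fun z => g z = x)).card ≤ r - (pn G U T x).card := by
      intro x _
      have h1 : (D.filter (fun z => g z = x)).card ≤ (range (r - (pn G U T x).card)).card := by
        refine card_le_card_of_injOn (fun z => if hz : z ∈ D then (f ⟨z, hz⟩).2 else 0) ?_ ?_
        · intro z hz
          have hz' := mem_filter.1 (mem_coe.1 hz)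
          have h2 := (mem_sigma.1 (hf ⟨z, hz'.1⟩)).2
          have h3 := hz'.2
          rw [hgz z hz'.1] at h3
          rw [h3] at h2
          simp only [mem_coe]
          rw [dif_pos hz'.1]
          exact h2
        · intro z hz w hw hzw
          have hz' := mem_filter.1 (mem_coe.1 hz)
          have hw' := mem_filter.1 (mem_coe.1 hw)
          simp only at hzw
          rw [dif_pos hz'.1, dif_pos hw'.1] at hzw
          have h3 := hz'.2
          have h4 := hw'.2
          rw [hgz z hz'.1] at h3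
          rw [hgz w hw'.1] at h4
          have h5 : f ⟨z, hz'.1⟩ = f ⟨w, hw'.1⟩ := Sigma.ext (h3.trans h4.symm) (heq_of_eq hzw)
          exact congrArg Subtype.val (hfi h5)
      rwa [card_range] at h1
    refine ⟨g, hgT, ?_⟩
    have hsum : ∑ x ∈ T, (D.filter (fun z => g z = x)).card = D.card :=
      (card_eq_sum_card_fiberwise fun z hz => (hgT z hz).1).symm
    have h1 := hslot T (Subset.refl T)
    have h2 : ∑ x ∈ T, (D.filter (fun z => g z = x)).card = ∑ y ∈ T, (r - (pn G U T y).card) := by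
      rw [hTc] at h1
      omega
    have h3 := (sum_eq_sum_iff_of_le hle).1 h2
    intro x hx
    have h4 := h3 x hx
    have h5 := hpn x hx
    omega
  · intro s
    set Y : Finset V := s.biUnion (fun z => FT G T z.1) with hY
    have hYT : Y ⊆ T := by
      intro y hy
      obtain ⟨z, _, hz⟩ := mem_biUnion.1 hy
      exact FT_sub _ _ _ hz
    have h1 : s.biUnion (fun z : {z // z ∈ D} =>
        (FT G T z.1).sigma (fun x => range (r - (pn G U T x).card))) =
        Y.sigma (fun x => range (r - (pn G U T x).card)) := by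
      ext ⟨x, n⟩
      rw [mem_biUnion, mem_sigma, hY, mem_biUnion]
      constructor
      · rintro ⟨z, hz, hx⟩
        rw [mem_sigma] at hx
        exact ⟨⟨z, hz, hx.1⟩, hx.2⟩
      · rintro ⟨⟨z, hz, hx⟩, hn⟩
        exact ⟨z, hz, mem_sigma.2 ⟨hx, hn⟩⟩
    rw [h1, card_sigma]
    simp only [card_range]
    have h2 := hslot Y hYT
    have h3 : s.card = (s.map (Function.Embedding.subtype _)).card := (card_map _).symm
    have h4 : s.map (Function.Embedding.subtype _) ⊆ D := by
      intro z hz
      obtain ⟨w, _, rfl⟩ := mem_map.1 hz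
      exact w.2
    by_cases hne : Y = T
    · have h5 := card_le_card h4
      rw [hne] at h2 ⊢
      rw [hTc] at h2
      omega
    · have h5 := h.hall_le hT hi hTc hYT hne
      rw [← hG] at h5
      have h6 : s.map (Function.Embedding.subtype _) ⊆
          (DD G U T).filter (fun z => FT G T z ⊆ Y) := by
        intro z hz
        obtain ⟨w, hw, rfl⟩ := mem_map.1 hz
        refine mem_filter.2 ⟨(mem_erase.1 w.2).2, ?_⟩
        exact subset_biUnion_of_mem (fun z : {z // z ∈ D} => FT G T z.1) hw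
      have h7 := card_le_card h6
      omega

end Pool.Agent.Lib.MP_f04ccf_co.Mn
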