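import Pool.Agent.Lib.MP_f04ccf_co.M.PCap2
import Pool.Agent.Lib.MP_f04ccf_co.M.Lev4
import Pool.Agent.Lib.MP_f04ccf_co.M.AlfM

/-!
MP_f04ccf_co: hub worlds (note 16088 of helper60).
If all doubles of a closed system have the row `x` and there is no missing triangle of the type
`TriAt` at another row, then every independent set has at most `|A|` points
(`JSys.alpha_hub2`).  This holds if all other rows have `r - 1` class points (`JSys.alpha_hub0`), and
in every `3`-closed system (`JSys.alpha_hub3`).  With four rows this contradicts level four: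
`JSys.no_hub4`, `JSys.no_hub4'`, and a hub world with four rows of a `2`-closed system has a
triangle (`JSys.hub4_tri`).
-/

set_option autoImplicit false

namespace Pool.Agent.Lib.MP_f04ccf_co

open Finset

attribute [local instance] Classical.propDecidable

section Hub4

variable {V : Type*} {G : SimpleGraph V} {Z T : Finset V} {r m t j : ℕ}

/-- **all doubles at one row, no triangle: independent sets have at most `|A|` points** -/
theorem JSys.alpha_hub2 (hF : PFrame G r m t Z T) {A S : Finset V} (h : JSys G Z T j A S)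
    (hj : 2 ≤ j) {x : V} (hx : x ∈ A) (hN : ∀ v ∈ S, v ∈ BB G Z T → x ∈ rws G T v)
    (hno : ∀ y ∈ A.erase x, ∀ I, ¬ TriAt G Z T A S x y I) : AlphaLe G S A.card := by
  intro K hK hi
  by_contra hcon
  rcases h.exists_tri hF hj hK hi (by omega) hx with ⟨I, hIK, -, w, hw, hxw⟩ | ⟨I, -, y, hy, hI⟩
  · exact hxw (hN w (hK (hIK (mem_inter.1 hw).1)) (mem_inter.1 hw).2)
  · exact hno y hy I hI

/-- all other rows with `r - 1` class points -/
theorem JSys.alpha_hub0 (hr : 5 ≤ r) (hP : PG G r) (hF : PFrame G r m t Z T) {A S : Finset V}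
    (h : JSys G Z T j A S) (hj : 2 ≤ j) {x : V} (hx : x ∈ A)
    (hN : ∀ v ∈ S, v ∈ BB G Z T → x ∈ rws G T v)
    (hc : ∀ y ∈ A.erase x, r ≤ (S ∩ Cl G Z T y).card + 1) : AlphaLe G S A.card :=
  h.alpha_hub2 hF hj hx hN fun y hy _ =>
    TriAt.none hr hP hF h hj (mem_of_mem_erase hy) (hc y hy)

/-- in a `3`-closed system there is no triangle -/
lemma TriAt.no3 {A S : Finset V} (h : JSys G Z T j A S) (hj : 3 ≤ j) {x y : V} {I : Finset V} :
    ¬ TriAt G Z T A S x y I := by
  intro hI
  have h1 : (I ∩ BB G Z T).card ≤ j :=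
    ((card_le_card inter_subset_left).trans_eq hI.card3).trans hj
  have h2 := h.ind I hI.sub hI.ind h1
  have h3 : (rwsU G T I ∩ A).card ≤ 2 := by
    refine (card_le_card ?_).trans (card_le_two (a := x) (b := y))
    intro z hz
    obtain ⟨hz1, hz2⟩ := mem_inter.1 hz
    obtain ⟨v, hv, hvz⟩ := mem_rwsU.1 hz1
    exact hI.rws2 v hv (mem_inter.2 ⟨hvz, hz2⟩)
  have h4 := hI.card3
  omega

/-- **all doubles at one row of a `3`-closed system** -/
theorem JSys.alpha_hub3 (hF : PFrame G r m t Z T) {A S : Finset V} (h : JSys G Z T j A S)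
    (hj : 3 ≤ j) {x : V} (hx : x ∈ A) (hN : ∀ v ∈ S, v ∈ BB G Z T → x ∈ rws G T v) :
    AlphaLe G S A.card :=
  h.alpha_hub2 hF (by omega) hx hN fun _ _ _ => TriAt.no3 h hj

/-- **four rows, all doubles at one of them: there is a triangle** -/
theorem JSys.hub4_tri (hr : 8 ≤ r) (hP : PG G r) (hC : CAP G r) (hF : PFrame G r m t Z T)
    {A S : Finset V} (h : JSys G Z T j A S) (hj : 2 ≤ j) (h4 : A.card = 4)
    (hcard : 4 * r + 1 ≤ S.card) {x : V} (hx : x ∈ A)
    (hN : ∀ v ∈ S, v ∈ BB G Z T → x ∈ rws G T v) :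
    ∃ y ∈ A.erase x, ∃ I, TriAt G Z T A S x y I := by
  by_contra hcon
  push Not at hcon
  have h1 := h.alpha_hub2 hF hj hx hN hcon
  rw [h4] at h1
  have h2 := hP.level4 hr hC h1
  omega

/-- **no hub world with four rows whose other rows have `r - 1` class points** -/
theorem JSys.no_hub4 (hr : 8 ≤ r) (hP : PG G r) (hC : CAP G r) (hF : PFrame G r m t Z T)
    {A S : Finset V} (h : JSys G Z T j A S) (hj : 2 ≤ j) (h4 : A.card = 4)
    (hcard : 4 * r + 1 ≤ S.card) {x : V} (hx : x ∈ A)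
    (hN : ∀ v ∈ S, v ∈ BB G Z T → x ∈ rws G T v)
    (hc : ∀ y ∈ A.erase x, r ≤ (S ∩ Cl G Z T y).card + 1) : False := by
  have h1 := h.alpha_hub0 (by omega) hP hF hj hx hN hc
  rw [h4] at h1
  have h2 := hP.level4 hr hC h1
  omega

/-- **no hub world with four rows in a `3`-closed system** -/
theorem JSys.no_hub4' (hr : 8 ≤ r) (hP : PG G r) (hC : CAP G r) (hF : PFrame G r m t Z T)
    {A S : Finset V} (h : JSys G Z T j A S) (hj : 3 ≤ j) (h4 : A.card = 4)
    (hcard : 4 * r + 1 ≤ S.card) {x : V} (hx : x ∈ A)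
    (hN : ∀ v ∈ S, v ∈ BB G Z T → x ∈ rws G T v) : False := by
  have h1 := h.alpha_hub3 hF hj hx hN
  rw [h4] at h1
  have h2 := hP.level4 hr hC h1
  omega

/-- homes: if no point has its home outside `x`, every double of `S` has the row `x` -/
lemma row_of_home {A S : Finset V} {hm : V → V} {x : V}
    (hh : ∀ v ∈ S, hm v ∈ rws G T v ∩ A)
    (h0 : ∀ y ∈ A.erase x, ∀ v ∈ S, v ∈ BB G Z T → hm v ≠ y) :
    ∀ v ∈ S, v ∈ BB G Z T → x ∈ rws G T v := by
  intro v hv hb
  obtain ⟨h1, h2⟩ := mem_inter.1 (hh v hv)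
  by_cases hx : hm v = x
  · rwa [hx] at h1
  · exact absurd rfl (h0 (hm v) (mem_erase.2 ⟨hx, h2⟩) v hv hb)

end Hub4

end Pool.Agent.Lib.MP_f04ccf_co
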