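import Pool.Agent.Lib.MP_f04ccf_co.M.UnR

/-!
MP_f04ccf_co, TEXT D, regime H (78's 18049 (2), (4)): **the exact integer forms of the tests of a row `z ≠ 0`
which regime H uses, in unit letters over `PCon` and `UnP`.**

Letters: `A = t z + 1`, `c = R - t 0` (the hub is the row `0`), `m = mu z` the hosted units, `S0` the used units of
the hub (`k0 = #S0`, `q` PC pairs among them, `M = be z 0 + q` PC pairs of the cell both ways), `S1` the used units
of third hosts (`k1 = #S1`), `p = s z + k0 + k1`, `V = m + 2 (k0 + k1)`, `W = m + 2 k0 - q`, misses `B0`, `B1`,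
hosted hits at the hub `SA`.

* `PCon.hubT`: the exact row test, everything kept, `S0` and `S1` used;
* `PCon.hubP`: T+ with the columns of the hub, everything kept, only `S0` used;
* `PCon.hubC`: the combination `r T + A P`, `r = c - A`: every hub unit without misses is exactly neutral;
* `PCon.hubN`: tzN.
-/

set_option autoImplicit false

namespace Pool.Agent.Lib.MP_f04ccf_co

open Finset

attribute [local instance] Classical.propDecidable

section HubP

variable {ι κ : Type*} {R : ℤ} {n : ℕ} {t s mu : ℕ → ℤ} {U : Finset ι} {ho : ι → ℕ} {vl : ι → ℤ}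
  {kp mn : ℕ → ι → ℤ} {pc ar : ι → ℤ} {be kq NN sg : ℕ → ℕ → ℤ} {nu : ℕ → ι → ℤ}
  {V : Finset κ} {it : κ → ι} {C : κ → Finset ℕ} {bt ht : κ → ℕ → ℤ} {z : ℕ}
  {S S0 S1 : Finset κ}

/-- the saving, when all units have one host: the plain units of value one -/
lemma svU_host {x : ℕ} (hx : x < n) (hS : ∀ v ∈ S, ho (it v) = x) :
    svU n ho vl it S = ((S.filter fun v => vl (it v) = 1).card : ℤ)
      * (((S.filter fun v => vl (it v) = 1).card : ℤ) - 1) := by
  unfold svU
  rw [sum_eq_single_of_mem x (mem_range.2 hx)]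
  · have h1 : (S.filter fun v => ho (it v) = x ∧ vl (it v) = 1) = S.filter fun v => vl (it v) = 1 :=
      filter_congr fun v hv => by simp [hS v hv]
    rw [h1]
  · intro y _ hy
    have h1 : (S.filter fun v => ho (it v) = y ∧ vl (it v) = 1) = ∅ :=
      filter_eq_empty_iff.2 fun v hv h => hy (by rw [← h.1, hS v hv])
    rw [h1]
    simp

/-- **T: the exact row test of `z`, everything kept, the units `S` used** -/
theorem PCon.hubT (H : PCon R n t s mu U ho vl kp mn pc ar be kq NN sg nu)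
    (hV : UnP R n t U ho vl kp mn V it C bt ht) (hz : z < n)
    (hS : S ⊆ V.filter fun v => z ∈ C v) (hp : 0 ≤ s z + (S.card : ℤ)) :
    2 * ((R - (mu z + 2 * (S.card : ℤ))) * (s z + (S.card : ℤ)))
      ≤ 2 * ((t z + 1) * (mu z + (S.card : ℤ)) + ∑ v ∈ S, bt v z)
        - mu z * (mu z + 2 * (S.card : ℤ) + 1) - svU n ho vl it S
        + ∑ l ∈ (range n).erase z, NN z l := by
  have h := H.unT hV hz hS (X := ∅) (Y := ∅) (empty_subset _) (empty_subset _) (D := ∅)
    (empty_subset _) (fun u hu => absurd hu (notMem_empty u)) (by simpa using hp)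
  unfold TstP at h
  simp only [sum_empty, sdiff_self, bot_eq_empty, sub_zero, add_zero, zero_mul, mul_zero, zero_add,
    sdiff_empty] at h
  have e1 : mu z + 2 * (S.card : ℤ) - 2 * (S.card : ℤ) = mu z := by ring
  rw [e1] at h
  exact h

/-- **tzN of `z`** -/
theorem PCon.hubN (H : PCon R n t s mu U ho vl kp mn pc ar be kq NN sg nu)
    (hV : UnP R n t U ho vl kp mn V it C bt ht) (hz : z < n)
    (hS : S ⊆ V.filter fun v => z ∈ C v) (h2 : 2 * (mu z + (S.card : ℤ)) ≤ R) :
    (R - 2 * (mu z + (S.card : ℤ))) * (s z + (S.card : ℤ))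
      ≤ (t z + 1) * (mu z + (S.card : ℤ)) + ∑ v ∈ S, bt v z :=
  H.unN hV hz hS h2

/-- **P: T+ of `z` with the columns of the hub, everything kept, the units `S` of the hub used**; `q` the PC pairs
and `f` the full units among them, `g` the plain units of value one -/
theorem PCon.hubP (H : PCon R n t s mu U ho vl kp mn pc ar be kq NN sg nu)
    (hV : UnP R n t U ho vl kp mn V it C bt ht) (hz : z < n) (hz0 : z ≠ 0)
    (hS : S ⊆ V.filter fun v => z ∈ C v) (hS0 : ∀ v ∈ S, ho (it v) = 0) {q f g : ℤ}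
    (hq : q = ∑ v ∈ S, pc (it v))
    (hf : f = ((S.filter fun v => pc (it v) = 0 ∧ ∀ l < n, l ≠ z → kp l (it v) = 0).card : ℤ))
    (hg : g = ((S.filter fun v => vl (it v) = 1 ∧ pc (it v) = 0).card : ℤ))
    (hp : 0 ≤ s z + (S.card : ℤ)) :
    2 * ((t 0 - (mu z + 2 * (S.card : ℤ) - q)) * (s z + (S.card : ℤ)))
      ≤ 2 * ((t z + 1) * (mu z + (S.card : ℤ)) + ∑ v ∈ S, bt v z)
        - 2 * ((R - t 0) * ((S.card : ℤ) - 1))
        - 2 * ∑ v ∈ V.filter (fun v => ho (it v) = z), ht v 0
        - (mu z + q) * (mu z + 2 * (S.card : ℤ) - q + 1)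
        - (g * (g - 1) + 2 * (q * f)) + ∑ l ∈ ((range n).erase z).erase 0, NN z l
        + (be z 0 + q) * (be z 0 + q + 1)
        + 2 * ∑ u ∈ S.image it, (1 - pc u) * ar u := by
  have hn : 0 < n := by have := H.n5; omega
  have h := H.unP hV hz hn (Ne.symm hz0) hS (X := ∅) (Y := ∅) (empty_subset _) (notMem_empty _)
    (empty_subset _) (D := ∅) (empty_subset _) (fun u hu => absurd hu (notMem_empty u))
    (q := q) (f := f) (by
      rw [hq]
      exact sum_congr rfl fun v hv => by rw [if_pos (hS0 v hv)])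
    (by
      rw [hf]
      congr 2
      exact filter_congr fun v hv => by simp [hS0 v hv]) (by simpa using hp)
  have e1 : ((S.image it).filter fun u => ho u = 0) = S.image it :=
    filter_true_of_mem fun u hu => by
      obtain ⟨v, hv, rfl⟩ := mem_image.1 hu
      exact hS0 v hv
  have e2 : (S.filter fun v => ho (it v) ≠ 0) = ∅ :=
    filter_eq_empty_iff.2 fun v hv h1 => h1 (hS0 v hv)
  have e3 : (S.filter fun v => ho (it v) = 0 → pc (it v) = 0) = S.filter fun v => pc (it v) = 0 :=
    filter_congr fun v hv => by simp [hS0 v hv]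
  have e4 : (V.filter fun v => ho (it v) = z ∧ it v ∉ (∅ : Finset ι))
      = V.filter fun v => ho (it v) = z :=
    filter_congr fun v _ => by simp
  have e5 : svU n ho vl it (S.filter fun v => pc (it v) = 0) = g * (g - 1) := by
    rw [svU_host hn fun v hv => hS0 v (mem_filter.1 hv).1, filter_filter, hg]
    have e6 : (S.filter fun v => pc (it v) = 0 ∧ vl (it v) = 1)
        = S.filter fun v => vl (it v) = 1 ∧ pc (it v) = 0 :=
      filter_congr fun v _ => by rw [and_comm]
    rw [e6]
  rw [e1, e2, e3, e4, e5] at h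
  unfold TstP at h
  simp only [sum_empty, sdiff_self, bot_eq_empty, sub_zero, add_zero, zero_mul, mul_zero, zero_add,
    sdiff_empty, card_empty, Nat.cast_zero] at h
  have e7 : mu z + 2 * (S.card : ℤ) - (2 * (S.card : ℤ) - q) = mu z + q := by ring
  have e8 : R - (R - t 0) - (mu z + (2 * (S.card : ℤ) - q))
      = t 0 - (mu z + 2 * (S.card : ℤ) - q) := by ring
  have e9 : mu z + (2 * (S.card : ℤ) - q) + 1 = mu z + 2 * (S.card : ℤ) - q + 1 := by ring
  rw [e7, e8, e9] at h
  linarith

/-- the pieces of the mixture in numbers: `r T + A P`, `r = c - A` -/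
lemma hub_mix {R A c r m k0 k1 q p B0 B1 SA QT QP : ℤ} (hr : r = c - A) (h0 : 0 ≤ r)
    (hA : 0 ≤ A)
    (hT : 2 * ((R - (m + 2 * (k0 + k1))) * p)
      ≤ 2 * (A * (m + (k0 + k1)) + (B0 + B1)) - QT)
    (hP : 2 * ((R - c - (m + 2 * k0 - q)) * (p - k1))
      ≤ 2 * (A * (m + k0) + B0) - 2 * (c * (k0 - 1)) - 2 * SA - QP) :
    2 * (p * (c * (R - A) - r * (m + 2 * (k0 + k1)) - A * (m + 2 * k0 - q)))
      ≤ 2 * (c * B0 + A * (c * m - SA) + (r * B1 + A * (R - A) * k1) + A * c
        - A * (m + 2 * k0 - q) * k1) - r * QT - A * QP := by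
  have h1 := mul_le_mul_of_nonneg_left hT h0
  have h2 := mul_le_mul_of_nonneg_left hP hA
  subst hr
  nlinarith [h1, h2]

/-- **the combination of regime H** (`r T + A P`, `r = c - A`): complements `b/(R - A)` for a used unit of the hub,
`A (c - hit)/(c (R - A))` for a hosted one, `(r b + A (R - A))/(c (R - A))` for a used unit of a third host -/
theorem PCon.hubC (H : PCon R n t s mu U ho vl kp mn pc ar be kq NN sg nu)
    (hV : UnP R n t U ho vl kp mn V it C bt ht) (hz : z < n) (hz0 : z ≠ 0)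
    (hS0 : S0 ⊆ V.filter fun v => z ∈ C v) (h0 : ∀ v ∈ S0, ho (it v) = 0)
    (hS1 : S1 ⊆ V.filter fun v => z ∈ C v) (h1 : ∀ v ∈ S1, ho (it v) ≠ 0)
    {A c r m k0 k1 q f g M p : ℤ} (hA : A = t z + 1) (hc : c = R - t 0) (hr : r = c - A)
    (hm : m = mu z) (hk0 : k0 = (S0.card : ℤ)) (hk1 : k1 = (S1.card : ℤ))
    (hq : q = ∑ v ∈ S0, pc (it v))
    (hf : f = ((S0.filter fun v => pc (it v) = 0 ∧ ∀ l < n, l ≠ z → kp l (it v) = 0).card : ℤ))
    (hg : g = ((S0.filter fun v => vl (it v) = 1 ∧ pc (it v) = 0).card : ℤ))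
    (hM : M = be z 0 + q) (hp : p = s z + k0 + k1) (hp0 : k1 ≤ p) :
    2 * (p * (c * (R - A) - r * (m + 2 * (k0 + k1)) - A * (m + 2 * k0 - q)))
      ≤ 2 * (c * ∑ v ∈ S0, bt v z
          + A * (c * m - ∑ v ∈ V.filter (fun v => ho (it v) = z), ht v 0)
          + (r * ∑ v ∈ S1, bt v z + A * (R - A) * k1) + A * c - A * (m + 2 * k0 - q) * k1)
        - r * (m * (m + 2 * (k0 + k1) + 1) + svU n ho vl it (S0 ∪ S1)
          - ∑ l ∈ (range n).erase z, NN z l)
        - A * ((m + q) * (m + 2 * k0 - q + 1) + (g * (g - 1) + 2 * (q * f))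
          - ∑ l ∈ ((range n).erase z).erase 0, NN z l - M * (M + 1)
          - 2 * ∑ u ∈ S0.image it, (1 - pc u) * ar u) := by
  have hdis : Disjoint S0 S1 := disjoint_left.2 fun v hv hv' => h1 v hv' (h0 v hv)
  have hcard : ((S0 ∪ S1).card : ℤ) = k0 + k1 := by
    rw [card_union_of_disjoint hdis, hk0, hk1]
    push_cast
    ring
  have hsum : ∑ v ∈ S0 ∪ S1, bt v z = ∑ v ∈ S0, bt v z + ∑ v ∈ S1, bt v z :=
    sum_union hdis
  have hn : 0 < n := by have := H.n5; omega
  -- the row and the hub together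
  have htt : t 0 + 1 + (t z + 1) ≤ R := by
    have h2 := H.tsum
    have h3 : ∑ i ∈ ({0, z} : Finset ℕ), (t i + 1) ≤ ∑ i ∈ range n, (t i + 1) :=
      sum_le_sum_of_subset_of_nonneg (fun i hi => by
        rcases mem_insert.1 hi with h4 | h4
        · rw [h4]
          exact mem_range.2 hn
        · rw [mem_singleton.1 h4]
          exact mem_range.2 hz) fun i hi _ => by
        have := H.t0 i (mem_range.1 hi)
        linarith
    rw [sum_pair (Ne.symm hz0)] at h3
    linarith
  have hA0 : 0 ≤ A := by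
    have := H.t0 z hz
    linarith
  have hr0 : 0 ≤ r := by linarith
  have hT := H.hubT hV hz (union_subset hS0 hS1) (by
    rw [hcard]
    have h2 : 0 ≤ k1 := by rw [hk1]; positivity
    linarith)
  have hP := H.hubP hV hz hz0 hS0 h0 hq hf hg (by
    rw [← hk0]
    linarith)
  rw [hcard, hsum] at hT
  refine hub_mix hr hr0 hA0 ?_ ?_
  · rw [hA, hm]
    have e1 : s z + (k0 + k1) = p := by rw [hp]; ring
    rw [e1] at hT
    linarith
  · rw [← hk0] at hP
    have e1 : s z + k0 = p - k1 := by rw [hp]; ring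
    have e2 : t 0 = R - c := by rw [hc]; ring
    rw [e1, e2, ← hM] at hP
    rw [hA, hm]
    have e3 : R - (R - c) = c := by ring
    rw [e3] at hP
    linarith

end HubP

end Pool.Agent.Lib.MP_f04ccf_co
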