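import Pool.Agent.Lib.MP_f04ccf_co.M.CelX
import Pool.Agent.Lib.MP_f04ccf_co.M.PConC

/-!
MP_f04ccf_co, TEXT D: **the row tests of the contract for concentrated packings (`PConC`, v5) in unit form.**

* `PConC.unT2`, `PConC.unP2`, `PConC.unX2`: `unT`, `unP`, `unX` with the larger savings: `svU` is counted
  twice on the plain units, and the kept plain hosted items give the gain `minP`;
* `minP_card`: the gain is at least `m (m - 1)`, `m` kept plain hosted items.
-/

set_option autoImplicit false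

namespace Pool.Agent.Lib.MP_f04ccf_co

open Finset

attribute [local instance] Classical.propDecidable

section UnCS

variable {ι κ : Type*} {R : ℤ} {n : ℕ} {t s mu : ℕ → ℤ} {U : Finset ι} {ho : ι → ℕ} {vl : ι → ℤ}
  {kp mn : ℕ → ι → ℤ} {pc ar : ι → ℤ} {be kq NN sg : ℕ → ℕ → ℤ} {nu : ℕ → ι → ℤ}
  {V : Finset κ} {it : κ → ι} {C : κ → Finset ℕ} {bt ht : κ → ℕ → ℤ} {z : ℕ} {S : Finset κ}

/-- the doubled saving of the units -/
lemma UnP.sv2_le (hV : UnP R n t U ho vl kp mn V it C bt ht) (hS : S ⊆ V) (P : ι → Prop)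
    [DecidablePred P] (hP : ∀ u, pc u = 0 → P u) :
    svU n ho vl it (S.filter fun v => P (it v)) + svU n ho vl it (S.filter fun v => pc (it v) = 0)
      ≤ svP n ho vl ((S.image it).filter P) (fun u => lvU it S u)
        + svP n ho vl (((S.image it).filter P).filter fun u => pc u = 0) fun u => lvU it S u := by
  refine add_le_add (hV.sv_le hS P) ?_
  have e1 : ((S.image it).filter P).filter (fun u => pc u = 0)
      = (S.image it).filter fun u => pc u = 0 := by
    rw [filter_filter]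
    exact filter_congr fun u _ => ⟨fun h => h.2, fun h => ⟨hP u h, h⟩⟩
  rw [e1]
  exact hV.sv_le hS fun u => pc u = 0

/-- **the exact row test in unit form, concentrated packings** -/
theorem PConC.unT2 (H : PConC R n t s mu U ho vl kp mn pc ar be kq NN sg nu)
    (hV : UnP R n t U ho vl kp mn V it C bt ht) (hz : z < n)
    (hS : S ⊆ V.filter fun v => z ∈ C v) {X Y : Finset ℕ} (hX : X ⊆ range n) (hY : Y ⊆ X)
    {D : Finset ι} (hD : D ⊆ U) (hDz : ∀ u ∈ D, ho u = z ∧ pc u = 0)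
    (hp : 0 ≤ s z - (∑ l ∈ X, kq z l + ∑ l ∈ Y, (be z l - kq z l) + ∑ u ∈ D, (vl u + 1))
      + (S.card : ℤ)) :
    TstP R 0 (t z + 1) (s z) (S.card : ℤ) (2 * (S.card : ℤ)) (∑ v ∈ S, bt v z)
      (mu z - ∑ l ∈ X, kq z l - ∑ l ∈ Y, (be z l - kq z l) - ∑ u ∈ D, vl u)
      (∑ l ∈ X, kq z l + ∑ l ∈ Y, (be z l - kq z l) + ∑ u ∈ D, (vl u + 1)) 0
      (svU n ho vl it S + svU n ho vl it (S.filter fun v => pc (it v) = 0))
      (∑ l ∈ X \ Y, (be z l - kq z l) * (be z l - kq z l + 1)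
        + ∑ l ∈ (range n).erase z \ X, NN z l
        + 2 * ∑ l ∈ Y, (be z l - kq z l) * (sg z l
          + ((U.filter fun u => ho u = z ∧ u ∉ D ∧ pc u = 0 ∧ kp l u ≠ 0).card : ℤ))
        - minP U ho vl pc z D) 0 := by
  obtain ⟨h3, h4, h5, h6, h7, h8⟩ := hV.use hz hS
  have h9 := H.tTc z hz X hX Y hY D hD hDz _ h3 h4 (fun u => lvU it S u) h5 h6 _ (Or.inl le_rfl)
  rw [sum_lvU] at h9
  have h10 := hV.sv2_le (pc := pc) (hS.trans (filter_subset _ _)) (fun _ => True) fun _ _ => trivial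
  simp only [filter_true] at h10
  unfold NP2 at h9
  refine h9.mono h8 ?_ hp h7 le_rfl h10 le_rfl le_rfl
  rw [sum_add_distrib, sum_lvU, sum_const, nsmul_eq_mul, mul_one]
  have h11 : (0 : ℤ) ≤ ((S.image it).card : ℤ) := Nat.cast_nonneg _
  linarith

/-- the used units in the column test: the numbers of PC pairs, full items, points, costs -/
lemma PCon.un_aux (H : PCon R n t s mu U ho vl kp mn pc ar be kq NN sg nu)
    (hV : UnP R n t U ho vl kp mn V it C bt ht) (hz : z < n) {j : ℕ} (hj : j < n)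
    (hS : S ⊆ V.filter fun v => z ∈ C v) {q f : ℤ}
    (hq : q = ∑ v ∈ S, if ho (it v) = j then pc (it v) else 0)
    (hf : f = ((S.filter fun v => ho (it v) = j ∧ pc (it v) = 0
      ∧ ∀ l < n, l ≠ z → kp l (it v) = 0).card : ℤ)) :
    ∑ u ∈ S.image it, (if ho u = j then pc u else 0) = q
      ∧ (((S.image it).filter fun u => ho u = j ∧ pc u = 0
        ∧ ∀ l < n, l ≠ z → kp l u = 0).card : ℤ) = f
      ∧ ∑ u ∈ S.image it, ((lvU it S u : ℤ) + 1 - if ho u = j then pc u else 0)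
        = ∑ u ∈ S.image it, ((lvU it S u : ℤ) + 1) - q
      ∧ ∑ u ∈ (S.image it).filter (fun u => ¬ ho u = j), ((lvU it S u : ℤ) + 1) * (R - t j)
        ≤ 2 * (((S.filter fun v => ho (it v) ≠ j).card : ℤ) * (R - t j))
      ∧ q ≤ ((S.image it).card : ℤ) := by
  obtain ⟨h3, h4, h5, h6, h7, h8⟩ := hV.use hz hS
  have h0 : S ⊆ V := hS.trans (filter_subset _ _)
  have e1 : ∑ u ∈ S.image it, (if ho u = j then pc u else 0) = q := by
    rw [hq]
    refine hV.sum_one h0 fun u hu h10 => H.pcv u hu fun h11 => h10 ?_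
    rw [h11, ite_self]
  have e2 : (((S.image it).filter fun u => ho u = j ∧ pc u = 0
      ∧ ∀ l < n, l ≠ z → kp l u = 0).card : ℤ) = f := by
    rw [hf, hV.card_one h0 (fun u => ho u = j ∧ pc u = 0 ∧ ∀ l < n, l ≠ z → kp l u = 0)]
    rintro u hu ⟨h10, h11, h12⟩
    rcases H.one u hu with ⟨i, -, -, h13, -⟩ | ⟨-, h13⟩
    · exact h13
    · exfalso
      have h14 : ∑ i ∈ range n, kp i u = kp z u :=
        sum_eq_single_of_mem z (mem_range.2 hz) fun l hl hlz => h12 l (mem_range.1 hl) hlz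
      have h15 := H.kv u hu z hz
      linarith
  have e3 : ∑ u ∈ S.image it, ((lvU it S u : ℤ) + 1 - if ho u = j then pc u else 0)
      = ∑ u ∈ S.image it, ((lvU it S u : ℤ) + 1) - q := by
    rw [sum_sub_distrib, e1]
  have htj : 0 ≤ R - t j := by
    have h10 := H.tsum
    have h11 : t j + 1 ≤ ∑ i ∈ range n, (t i + 1) :=
      single_le_sum (f := fun i => t i + 1) (fun i hi => by
        have := H.t0 i (mem_range.1 hi)
        linarith) (mem_range.2 hj)
    linarith
  refine ⟨e1, e2, e3, ?_, ?_⟩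
  · have h11 : (S.image it).filter (fun u => ¬ ho u = j)
        = (S.filter fun v => ho (it v) ≠ j).image it := by
      ext u
      simp only [mem_filter, mem_image]
      constructor
      · rintro ⟨⟨v, hv, rfl⟩, h12⟩
        exact ⟨v, ⟨hv, h12⟩, rfl⟩
      · rintro ⟨v, ⟨hv, h12⟩, rfl⟩
        exact ⟨⟨v, hv, rfl⟩, h12⟩
    have h12 : ∑ u ∈ (S.image it).filter (fun u => ¬ ho u = j), ((lvU it S u : ℤ) + 1)
        ≤ 2 * ((S.filter fun v => ho (it v) ≠ j).card : ℤ) := by
      have h13 : ∀ u ∈ (S.filter fun v => ho (it v) ≠ j).image it,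
          (lvU it S u : ℤ) = (lvU it (S.filter fun v => ho (it v) ≠ j) u : ℤ) := by
        intro u hu
        obtain ⟨v, hv, rfl⟩ := mem_image.1 hu
        have h14 := (mem_filter.1 hv).2
        unfold lvU
        rw [filter_filter]
        congr 2
        ext w
        simp only [mem_filter]
        constructor
        · rintro ⟨h15, h16⟩
          exact ⟨h15, by rw [h16]; exact h14, h16⟩
        · rintro ⟨h15, -, h16⟩
          exact ⟨h15, h16⟩
      rw [h11, sum_congr rfl fun u hu => by rw [h13 u hu], sum_add_distrib, sum_lvU, sum_const,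
        nsmul_eq_mul, mul_one]
      have h14 : ((S.filter fun v => ho (it v) ≠ j).image it).card
          ≤ (S.filter fun v => ho (it v) ≠ j).card := card_image_le
      have h15 : (((S.filter fun v => ho (it v) ≠ j).image it).card : ℤ)
          ≤ ((S.filter fun v => ho (it v) ≠ j).card : ℤ) := by exact_mod_cast h14
      linarith
    rw [← sum_mul]
    have h13 := mul_le_mul_of_nonneg_right h12 htj
    linarith
  · rw [← e1]
    have h12 : ∑ u ∈ S.image it, (if ho u = j then pc u else 0) ≤ ∑ u ∈ S.image it, (1 : ℤ) := by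
      refine sum_le_sum fun u hu => ?_
      split_ifs
      · rcases H.pc01 u (h3 hu) with h13 | h13
        · rw [h13]
          norm_num
        · rw [h13]
      · norm_num
    rw [sum_const, nsmul_eq_mul, mul_one] at h12
    exact h12

/-- **the row test with the columns of `j` in unit form, concentrated packings** -/
theorem PConC.unP2 (H : PConC R n t s mu U ho vl kp mn pc ar be kq NN sg nu)
    (hV : UnP R n t U ho vl kp mn V it C bt ht) (hz : z < n) {j : ℕ} (hj : j < n) (hjz : j ≠ z)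
    (hS : S ⊆ V.filter fun v => z ∈ C v) {X Y : Finset ℕ} (hX : X ⊆ range n) (hjX : j ∉ X)
    (hY : Y ⊆ X) {D : Finset ι} (hD : D ⊆ U) (hDz : ∀ u ∈ D, ho u = z ∧ pc u = 0) {q f : ℤ}
    (hq : q = ∑ v ∈ S, if ho (it v) = j then pc (it v) else 0)
    (hf : f = ((S.filter fun v => ho (it v) = j ∧ pc (it v) = 0
      ∧ ∀ l < n, l ≠ z → kp l (it v) = 0).card : ℤ))
    (hp : 0 ≤ s z - (∑ l ∈ X, kq z l + ∑ l ∈ Y, (be z l - kq z l) + ∑ u ∈ D, (vl u + 1))
      + (S.card : ℤ)) :
    TstP R (R - t j) (t z + 1) (s z) (S.card : ℤ) (2 * (S.card : ℤ) - q) (∑ v ∈ S, bt v z)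
      (mu z - ∑ l ∈ X, kq z l - ∑ l ∈ Y, (be z l - kq z l) - ∑ u ∈ D, vl u)
      (∑ l ∈ X, kq z l + ∑ l ∈ Y, (be z l - kq z l) + ∑ u ∈ D, (vl u + 1))
      (∑ v ∈ V.filter (fun v => ho (it v) = z ∧ it v ∉ D), ht v j)
      (svU n ho vl it (S.filter fun v => ho (it v) = j → pc (it v) = 0)
        + svU n ho vl it (S.filter fun v => pc (it v) = 0) + 2 * (q * f))
      (∑ l ∈ X \ Y, (be z l - kq z l) * (be z l - kq z l + 1)
        + ∑ l ∈ ((range n).erase z).erase j \ X, NN z l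
        + 2 * ∑ l ∈ Y, (be z l - kq z l) * (sg z l
          + ((U.filter fun u => ho u = z ∧ u ∉ D ∧ pc u = 0 ∧ kp l u ≠ 0).card : ℤ))
        - minP U ho vl pc z D)
      ((be z j + q) * (be z j + q + 1)
        + 2 * ∑ u ∈ (S.image it).filter (fun u => ho u = j), (1 - pc u) * ar u
        + 4 * (((S.filter fun v => ho (it v) ≠ j).card : ℤ) * (R - t j))) := by
  obtain ⟨h3, h4, h5, h6, h7, h8⟩ := hV.use hz hS
  have h0 : S ⊆ V := hS.trans (filter_subset _ _)
  obtain ⟨e1, e2, e3, e4', hqk⟩ := H.toPCon.un_aux hV hz hj hS hq hf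
  have h9 := H.tPc z hz j hj hjz X hX hjX Y hY D hD hDz _ h3 h4 (fun u => lvU it S u) h5 h6 _
    (Or.inl le_rfl)
  have e4 : ∑ u ∈ S.image it, (if ho u = j then (1 - pc u) * ar u
      else ((lvU it S u : ℤ) + 1) * (R - t j))
      ≤ ∑ u ∈ (S.image it).filter (fun u => ho u = j), (1 - pc u) * ar u
        + 2 * (((S.filter fun v => ho (it v) ≠ j).card : ℤ) * (R - t j)) := by
    rw [← sum_filter_add_sum_filter_not (S.image it) (fun u => ho u = j)]
    refine add_le_add (le_of_eq (sum_congr rfl fun u hu => if_pos (mem_filter.1 hu).2)) ?_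
    rw [sum_congr rfl fun u hu => if_neg (mem_filter.1 hu).2]
    exact e4'
  have h10 := hV.sv2_le (pc := pc) h0 (fun u => ho u = j → pc u = 0) fun u h _ => h
  have h11 := hV.hosted hj hjz D
  have hwk : ∑ u ∈ S.image it, ((lvU it S u : ℤ) + 1) = (S.card : ℤ) + ((S.image it).card : ℤ) := by
    rw [sum_add_distrib, sum_lvU, sum_const, nsmul_eq_mul, mul_one]
  rw [sum_lvU, e1, e2, e3] at h9
  unfold NP2 at h9
  refine h9.mono (by linarith) (by linarith) hp h7 h11 (by linarith) le_rfl (by linarith)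

/-- **the row test with the columns of `j` and a rectangle in unit form, concentrated packings** -/
theorem PConC.unX2 (H : PConC R n t s mu U ho vl kp mn pc ar be kq NN sg nu)
    (hV : UnP R n t U ho vl kp mn V it C bt ht) (hz : z < n) {j : ℕ} (hj : j < n) (hjz : j ≠ z)
    (hS : S ⊆ V.filter fun v => z ∈ C v) {X Y : Finset ℕ} (hX : X ⊆ range n) (hjX : j ∉ X)
    (hY : Y ⊆ X) {D : Finset ι} (hD : D ⊆ U) (hDz : ∀ u ∈ D, ho u = z ∧ pc u = 0) {q f EX : ℤ}
    (hq : q = ∑ v ∈ S, if ho (it v) = j then pc (it v) else 0)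
    (hf : f = ((S.filter fun v => ho (it v) = j ∧ pc (it v) = 0
      ∧ ∀ l < n, l ≠ z → kp l (it v) = 0).card : ℤ))
    (hE : RcW U mn z j (be z j) q EX)
    (hp : 0 ≤ s z - (∑ l ∈ X, kq z l + ∑ l ∈ Y, (be z l - kq z l) + ∑ u ∈ D, (vl u + 1))
      + (S.card : ℤ)) :
    TstP R (R - t j) (t z + 1) (s z) (S.card : ℤ) (2 * (S.card : ℤ) - q) (∑ v ∈ S, bt v z)
      (mu z - ∑ l ∈ X, kq z l - ∑ l ∈ Y, (be z l - kq z l) - ∑ u ∈ D, vl u)
      (∑ l ∈ X, kq z l + ∑ l ∈ Y, (be z l - kq z l) + ∑ u ∈ D, (vl u + 1))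
      (∑ v ∈ V.filter (fun v => ho (it v) = z ∧ it v ∉ D), ht v j)
      (svU n ho vl it (S.filter fun v => ho (it v) = j → pc (it v) = 0)
        + svU n ho vl it (S.filter fun v => pc (it v) = 0) + 2 * (q * f) + 2 * EX)
      (∑ l ∈ X \ Y, (be z l - kq z l) * (be z l - kq z l + 1)
        + ∑ l ∈ (range n).erase z \ X, NN z l
        + 2 * ∑ l ∈ Y, (be z l - kq z l) * (sg z l
          + ((U.filter fun u => ho u = z ∧ u ∉ D ∧ pc u = 0 ∧ kp l u ≠ 0).card : ℤ))
        - minP U ho vl pc z D)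
      (2 * (q * be z j)
        + 2 * ∑ u ∈ (S.image it).filter (fun u => ho u = j), ar u
        + 4 * (((S.filter fun v => ho (it v) ≠ j).card : ℤ) * (R - t j))) := by
  obtain ⟨h3, h4, h5, h6, h7, h8⟩ := hV.use hz hS
  have h0 : S ⊆ V := hS.trans (filter_subset _ _)
  obtain ⟨e1, e2, e3, e4', hqk⟩ := H.toPCon.un_aux hV hz hj hS hq hf
  have h9 := H.tXc z hz j hj hjz X hX hjX Y hY D hD hDz _ h3 h4 (fun u => lvU it S u) h5 h6 EX
    (by rw [e1]; exact hE) _ (Or.inl le_rfl)
  have e4 : ∑ u ∈ S.image it, (if ho u = j then ar u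
      else ((lvU it S u : ℤ) + 1) * (R - t j))
      ≤ ∑ u ∈ (S.image it).filter (fun u => ho u = j), ar u
        + 2 * (((S.filter fun v => ho (it v) ≠ j).card : ℤ) * (R - t j)) := by
    rw [← sum_filter_add_sum_filter_not (S.image it) (fun u => ho u = j)]
    refine add_le_add (le_of_eq (sum_congr rfl fun u hu => if_pos (mem_filter.1 hu).2)) ?_
    rw [sum_congr rfl fun u hu => if_neg (mem_filter.1 hu).2]
    exact e4'
  have h10 := hV.sv2_le (pc := pc) h0 (fun u => ho u = j → pc u = 0) fun u h _ => h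
  have h11 := hV.hosted hj hjz D
  have hwk : ∑ u ∈ S.image it, ((lvU it S u : ℤ) + 1) = (S.card : ℤ) + ((S.image it).card : ℤ) := by
    rw [sum_add_distrib, sum_lvU, sum_const, nsmul_eq_mul, mul_one]
  rw [sum_lvU, e1, e2, e3] at h9
  unfold NP2 at h9
  refine h9.mono (by linarith) (by linarith) hp h7 h11 (by linarith) le_rfl (by linarith)

end UnCS

end Pool.Agent.Lib.MP_f04ccf_co
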