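import Pool.Agent.Lib.MP_f04ccf_co.M.HubI
import Pool.Agent.Lib.MP_f04ccf_co.M.HubP
import Pool.Agent.Lib.MP_f04ccf_co.M.UnC

/-!
MP_f04ccf_co, TEXT D, regime H: **the tests of a row `z ≠ 0` over `PConC` (concentrated packings) and the mixture
`r T + A P` with the shares of the table Y+.**

Letters as in `M/HubP.lean`: `A = t z + 1`, `c = R - t 0`, `r = c - A`, `m = mu z`, `S0` the used units of the hub
(`k0`, `q` PC pairs, `f` full, `g` plain of value one), `S1` the used units of third hosts (`k1`).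

* `PConC.hubT2`, `PConC.hubP2`, `PConC.hubC2`: `hubT`, `hubP`, `hubC` with the larger savings;
* `LevC.rowH_mix`: **one inequality for the whole row**, only counts on the right side.
-/

set_option autoImplicit false

namespace Pool.Agent.Lib.MP_f04ccf_co

open Finset

attribute [local instance] Classical.propDecidable

section HubC2

variable {ι κ : Type*} {R : ℤ} {n : ℕ} {t s mu : ℕ → ℤ} {U : Finset ι} {ho : ι → ℕ} {vl : ι → ℤ}
  {kp mn : ℕ → ι → ℤ} {pc ar : ι → ℤ} {be kq NN sg : ℕ → ℕ → ℤ} {nu : ℕ → ι → ℤ}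
  {V : Finset κ} {it : κ → ι} {C : κ → Finset ℕ} {bt ht : κ → ℕ → ℤ} {z : ℕ}
  {S S0 S1 : Finset κ}

/-- **T: the exact row test of `z`, everything kept, the units `S` used** -/
theorem PConC.hubT2 (H : PConC R n t s mu U ho vl kp mn pc ar be kq NN sg nu)
    (hV : UnP R n t U ho vl kp mn V it C bt ht) (hz : z < n)
    (hS : S ⊆ V.filter fun v => z ∈ C v) (hp : 0 ≤ s z + (S.card : ℤ)) :
    2 * ((R - (mu z + 2 * (S.card : ℤ))) * (s z + (S.card : ℤ)))
      ≤ 2 * ((t z + 1) * (mu z + (S.card : ℤ)) + ∑ v ∈ S, bt v z)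
        - mu z * (mu z + 2 * (S.card : ℤ) + 1)
        - (svU n ho vl it S + svU n ho vl it (S.filter fun v => pc (it v) = 0))
        + ∑ l ∈ (range n).erase z, NN z l - minP U ho vl pc z ∅ := by
  have h := H.unT2 hV hz hS (X := ∅) (Y := ∅) (empty_subset _) (empty_subset _) (D := ∅)
    (empty_subset _) (fun u hu => absurd hu (notMem_empty u)) (by simpa using hp)
  unfold TstP at h
  simp only [sum_empty, sdiff_self, bot_eq_empty, sub_zero, add_zero, zero_mul, mul_zero, zero_add,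
    sdiff_empty] at h
  have e1 : mu z + 2 * (S.card : ℤ) - 2 * (S.card : ℤ) = mu z := by ring
  rw [e1] at h
  linarith

/-- **P: T+ of `z` with the columns of the hub, everything kept, the units `S` of the hub used** -/
theorem PConC.hubP2 (H : PConC R n t s mu U ho vl kp mn pc ar be kq NN sg nu)
    (hV : UnP R n t U ho vl kp mn V it C bt ht) (hz : z < n) (hz0 : z ≠ 0)
    (hS : S ⊆ V.filter fun v => z ∈ C v) (hS0 : ∀ v ∈ S, ho (it v) = 0) {q f g : ℤ}
    (hq : q = ∑ v ∈ S, pc (it v))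
    (hf : f = ((S.filter fun v => pc (it v) = 0 ∧ ∀ l < n, l ≠ z → kp l (it v) = 0).card : ℤ))
    (hg : g = ((S.filter fun v => vl (it v) = 1 ∧ pc (it v) = 0).card : ℤ))
    (hp : 0 ≤ s z + (S.card : ℤ)) :
    2 * ((t 0 - (mu z + 2 * (S.card : ℤ) - q)) * (s z + (S.card : ℤ)))
      ≤ 2 * ((t z + 1) * (mu z + (S.card : ℤ)) + ∑ v ∈ S, bt v z)
        - 2 * ((R - t 0) * ((S.card : ℤ) - 1))
        - 2 * ∑ v ∈ V.filter (fun v => ho (it v) = z), ht v 0
        - (mu z + q) * (mu z + 2 * (S.card : ℤ) - q + 1)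
        - (2 * (g * (g - 1)) + 2 * (q * f)) + ∑ l ∈ ((range n).erase z).erase 0, NN z l
        - minP U ho vl pc z ∅
        + (be z 0 + q) * (be z 0 + q + 1)
        + 2 * ∑ u ∈ S.image it, (1 - pc u) * ar u := by
  have hn : 0 < n := by have := H.n5; omega
  have h := H.unP2 hV hz hn (Ne.symm hz0) hS (X := ∅) (Y := ∅) (empty_subset _) (notMem_empty _)
    (empty_subset _) (D := ∅) (empty_subset _) (fun u hu => absurd hu (notMem_empty u))
    (q := q) (f := f) (by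
      rw [hq]
      exact sum_congr rfl fun v hv => by rw [if_pos (hS0 v hv)])
    (by
      rw [hf]
      congr 2
      exact filter_congr fun v hv => by simp [hS0 v hv]) (by simpa using hp)
  have e1 : ((S.image it).filter fun u => ho u = 0) = S.image it :=
    filter_true_of_mem fun u hu => by
      obtain ⟨v, hv, rfl⟩ := mem_image.1 hu
      exact hS0 v hv
  have e2 : (S.filter fun v => ho (it v) ≠ 0) = ∅ :=
    filter_eq_empty_iff.2 fun v hv h1 => h1 (hS0 v hv)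
  have e3 : (S.filter fun v => ho (it v) = 0 → pc (it v) = 0) = S.filter fun v => pc (it v) = 0 :=
    filter_congr fun v hv => by simp [hS0 v hv]
  have e4 : (V.filter fun v => ho (it v) = z ∧ it v ∉ (∅ : Finset ι))
      = V.filter fun v => ho (it v) = z :=
    filter_congr fun v _ => by simp
  have e5 : svU n ho vl it (S.filter fun v => pc (it v) = 0) = g * (g - 1) := by
    rw [svU_host hn fun v hv => hS0 v (mem_filter.1 hv).1, filter_filter, hg]
    have e6 : (S.filter fun v => pc (it v) = 0 ∧ vl (it v) = 1)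
        = S.filter fun v => vl (it v) = 1 ∧ pc (it v) = 0 :=
      filter_congr fun v _ => by rw [and_comm]
    rw [e6]
  rw [e1, e2, e3, e4, e5] at h
  unfold TstP at h
  simp only [sum_empty, sdiff_self, bot_eq_empty, sub_zero, add_zero, zero_mul, mul_zero, zero_add,
    sdiff_empty, card_empty, Nat.cast_zero] at h
  have e7 : mu z + 2 * (S.card : ℤ) - (2 * (S.card : ℤ) - q) = mu z + q := by ring
  have e8 : R - (R - t 0) - (mu z + (2 * (S.card : ℤ) - q))
      = t 0 - (mu z + 2 * (S.card : ℤ) - q) := by ring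
  have e9 : mu z + (2 * (S.card : ℤ) - q) + 1 = mu z + 2 * (S.card : ℤ) - q + 1 := by ring
  rw [e7, e8, e9] at h
  linarith

/-- the row and the hub together -/
lemma PCon.mass2 (H : PCon R n t s mu U ho vl kp mn pc ar be kq NN sg nu) (hz : z < n)
    (hz0 : z ≠ 0) : t 0 + 1 + (t z + 1) ≤ R := by
  have hn : 0 < n := by have := H.n5; omega
  have h2 := H.tsum
  have h3 : ∑ i ∈ ({0, z} : Finset ℕ), (t i + 1) ≤ ∑ i ∈ range n, (t i + 1) :=
    sum_le_sum_of_subset_of_nonneg (fun i hi => by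
      rcases mem_insert.1 hi with h4 | h4
      · rw [h4]
        exact mem_range.2 hn
      · rw [mem_singleton.1 h4]
        exact mem_range.2 hz) fun i hi _ => by
      have := H.t0 i (mem_range.1 hi)
      linarith
  rw [sum_pair (Ne.symm hz0)] at h3
  linarith

/-- **the combination of regime H** (`r T + A P`, `r = c - A`), concentrated packings -/
theorem PConC.hubC2 (H : PConC R n t s mu U ho vl kp mn pc ar be kq NN sg nu)
    (hV : UnP R n t U ho vl kp mn V it C bt ht) (hz : z < n) (hz0 : z ≠ 0)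
    (hS0 : S0 ⊆ V.filter fun v => z ∈ C v) (h0 : ∀ v ∈ S0, ho (it v) = 0)
    (hS1 : S1 ⊆ V.filter fun v => z ∈ C v) (h1 : ∀ v ∈ S1, ho (it v) ≠ 0)
    {A c r m k0 k1 q f g M p : ℤ} (hA : A = t z + 1) (hc : c = R - t 0) (hr : r = c - A)
    (hm : m = mu z) (hk0 : k0 = (S0.card : ℤ)) (hk1 : k1 = (S1.card : ℤ))
    (hq : q = ∑ v ∈ S0, pc (it v))
    (hf : f = ((S0.filter fun v => pc (it v) = 0 ∧ ∀ l < n, l ≠ z → kp l (it v) = 0).card : ℤ))
    (hg : g = ((S0.filter fun v => vl (it v) = 1 ∧ pc (it v) = 0).card : ℤ))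
    (hM : M = be z 0 + q) (hp : p = s z + k0 + k1) (hp0 : k1 ≤ p)
    (hS : ∀ v, v ∈ S ↔ v ∈ S0 ∨ v ∈ S1) {w : ℤ}
    (hw : w = svU n ho vl it S + svU n ho vl it (S.filter fun v => pc (it v) = 0)) :
    2 * (p * (c * (R - A) - r * (m + 2 * (k0 + k1)) - A * (m + 2 * k0 - q)))
      ≤ 2 * (c * ∑ v ∈ S0, bt v z
          + A * (c * m - ∑ v ∈ V.filter (fun v => ho (it v) = z), ht v 0)
          + (r * ∑ v ∈ S1, bt v z + A * (R - A) * k1) + A * c - A * (m + 2 * k0 - q) * k1)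
        - r * (m * (m + 2 * (k0 + k1) + 1) + w
          - ∑ l ∈ (range n).erase z, NN z l + minP U ho vl pc z ∅)
        - A * ((m + q) * (m + 2 * k0 - q + 1) + (2 * (g * (g - 1)) + 2 * (q * f))
          - ∑ l ∈ ((range n).erase z).erase 0, NN z l + minP U ho vl pc z ∅ - M * (M + 1)
          - 2 * ∑ u ∈ S0.image it, (1 - pc u) * ar u) := by
  have hdis : Disjoint S0 S1 := disjoint_left.2 fun v hv hv' => h1 v hv' (h0 v hv)
  obtain rfl : S = S0 ∪ S1 := by
    ext v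
    rw [hS v, mem_union]
  have hcard : ((S0 ∪ S1).card : ℤ) = k0 + k1 := by
    rw [card_union_of_disjoint hdis, hk0, hk1]
    push_cast
    ring
  have hsum : ∑ v ∈ S0 ∪ S1, bt v z = ∑ v ∈ S0, bt v z + ∑ v ∈ S1, bt v z :=
    sum_union hdis
  have htt := H.toPCon.mass2 hz hz0
  have hA0 : 0 ≤ A := by
    have := H.t0 z hz
    linarith
  have hr0 : 0 ≤ r := by linarith
  have hT := H.hubT2 hV hz (union_subset hS0 hS1) (by
    rw [hcard]
    have h2 : 0 ≤ k1 := by rw [hk1]; positivity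
    linarith)
  have hP := H.hubP2 hV hz hz0 hS0 h0 hq hf hg (by
    rw [← hk0]
    linarith)
  rw [hcard, hsum] at hT
  refine hub_mix hr hr0 hA0 ?_ ?_
  · rw [hA, hm]
    have e1 : s z + (k0 + k1) = p := by rw [hp]; ring
    rw [e1, ← hw] at hT
    linarith
  · rw [← hk0] at hP
    have e1 : s z + k0 = p - k1 := by rw [hp]; ring
    have e2 : t 0 = R - c := by rw [hc]; ring
    rw [e1, e2, ← hM] at hP
    rw [hA, hm]
    have e3 : R - (R - c) = c := by ring
    rw [e3] at hP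
    linarith

end HubC2

section RowMix

variable {ι : Type*} {R : ℤ} {n : ℕ} {t s mu : ℕ → ℤ} {U : Finset ι} {ho : ι → ℕ} {vl : ι → ℤ}
  {kp mn : ℕ → ι → ℤ} {pc ar : ι → ℤ} {be kq NN sg : ℕ → ℕ → ℤ} {nu : ℕ → ι → ℤ}
  {ψ : ι → ℕ → ℤ} {g : ℕ → ι → ℕ} {f : ι → ℕ}

/-- a PC unit: full, no misses, in table Y+ no cut end -/
lemma LevC.pc_unit (Lv : LevC n U ho vl kp mn pc (phiH R n t ho vl mn ψ) g f)
    (H : PCon R n t s mu U ho vl kp mn pc ar be kq NN sg nu)
    {v : ι × ℕ × ℕ} (hv : v ∈ unV n U g) (hp : pc v.1 ≠ 0) :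
    vl v.1 = 1 ∧ unb kp mn g v = 0 ∧ ¬ cutE kp g f v.1 := by
  obtain ⟨h1, -, -⟩ := LevC.mem_unV hv
  have h2 := H.pcv v.1 h1 hp
  have h3 : ¬ cutE kp g f v.1 := by
    rcases Lv.typ v.1 h1 with ⟨-, h4, h5, -, -⟩ | ⟨h4, -⟩
    · unfold cutE
      rw [h4, h5]
      norm_num
    · exact absurd h4 hp
  exact ⟨h2, Lv.full_unb hv h2 fun h => h3 h.2, h3⟩

/-- **the units of the hub with main end `z`**: share, misses and arcs, also for the PC units -/
theorem LevC.coV_hub' (Lv : LevC n U ho vl kp mn pc (phiH R n t ho vl mn ψ) g f)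
    (H : PCon R n t s mu U ho vl kp mn pc ar be kq NN sg nu) (hR : R ≤ 2 * (t 0 + 1))
    (hR2 : 24 ≤ R) {v : ι × ℕ × ℕ} (hv : v ∈ unV n U g) {z : ℕ} (hz : v.2.1 = z) (hz0 : z ≠ 0)
    (hh : ho v.1 = 0)
    (hcl : vl v.1 ≠ 1 → (((R : ℝ) - t 0) * (R - (t z + 1))) * TuH R t ho vl kp mn g f v
        + ((R : ℝ) - t 0) * unb kp mn g v + ((t z : ℝ) + 1) * ar v.1
      ≤ ((R : ℝ) - t 0) * (R - (t z + 1)) + ((t z : ℝ) + 1) * be 0 z) :
    (((R : ℝ) - t 0) * (R - (t z + 1))) * TuH R t ho vl kp mn g f v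
        + ((R : ℝ) - t 0) * unb kp mn g v + ((t z : ℝ) + 1) * ((1 - pc v.1) * ar v.1)
      ≤ ((R : ℝ) - t 0) * (R - (t z + 1)) + ((t z : ℝ) + 1) * ((1 - pc v.1) * be 0 z) := by
  obtain ⟨h1, -, -⟩ := LevC.mem_unV hv
  rcases H.pc01 v.1 h1 with h2 | h2
  · rw [h2]
    push_cast
    rw [sub_zero, one_mul, one_mul]
    by_cases h3 : vl v.1 = 1
    · exact Lv.coV_hub H hR hR2 hv hz hz0 hh h3 h2
    · exact hcl h3
  · obtain ⟨-, h3, h4⟩ := Lv.pc_unit H hv (by rw [h2]; norm_num)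
    rw [h2, h3]
    unfold TuH
    rw [if_pos hh, if_neg h4]
    push_cast
    rw [sub_self, zero_mul, zero_mul, mul_zero, mul_zero, mul_one]
    linarith

/-- **the whole row from the mixture `r T + A P`**: only counts on the right side. `Sh` the shares (table Y+) of all
units hosted at `z` and of the used units `S0` (hub), `S1` (third hosts) -/
theorem LevC.rowH_mix (Lv : LevC n U ho vl kp mn pc (phiH R n t ho vl mn ψ) g f)
    (H : PConC R n t s mu U ho vl kp mn pc ar be kq NN sg nu) (hR : R ≤ 2 * (t 0 + 1))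
    (hR2 : 24 ≤ R) {z : ℕ} (hz : z < n) (hz0 : z ≠ 0) {S0 S1 : Finset (ι × ℕ × ℕ)}
    (hS0 : S0 ⊆ (unV n U g).filter fun v => ho v.1 = 0 ∧ v.2.1 = z)
    (hS1 : S1 ⊆ (unV n U g).filter fun v => ho v.1 ≠ 0 ∧ v.2.1 = z)
    (hb : ∀ v ∈ S1, unb kp mn g v ≤ R - (t z + 1))
    (hcl : ∀ v ∈ S0, vl v.1 ≠ 1 →
      (((R : ℝ) - t 0) * (R - (t z + 1))) * TuH R t ho vl kp mn g f v
        + ((R : ℝ) - t 0) * unb kp mn g v + ((t z : ℝ) + 1) * ar v.1
      ≤ ((R : ℝ) - t 0) * (R - (t z + 1)) + ((t z : ℝ) + 1) * be 0 z)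
    (hT : ∀ v ∈ unV n U g, ho v.1 = z → v.2.1 ≠ 0 → ¬ hubC ho vl kp g f v.1 →
      ((t z : ℝ) + 1) / (R - (t z + 1)) ≤ TuH R t ho vl kp mn g f v)
    {A c r m k0 k1 q e g' M p d : ℤ} (hA : A = t z + 1) (hc : c = R - t 0) (hr : r = c - A)
    (hm : m = mu z) (hd : d = mu z - s z) (hk0 : k0 = (S0.card : ℤ)) (hk1 : k1 = (S1.card : ℤ))
    (hq : q = ∑ v ∈ S0, pc v.1)
    (he : e = ((S0.filter fun v => pc v.1 = 0 ∧ ∀ l < n, l ≠ z → kp l v.1 = 0).card : ℤ))
    (hg : g' = ((S0.filter fun v => vl v.1 = 1 ∧ pc v.1 = 0).card : ℤ))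
    (hM : M = be z 0 + q) (hp : p = m - d + k0 + k1) (hp0 : k1 ≤ p)
    {S : Finset (ι × ℕ × ℕ)} (hS : ∀ v, v ∈ S ↔ v ∈ S0 ∨ v ∈ S1) {w : ℤ}
    (hw : w = svU n ho vl (fun v : ι × ℕ × ℕ => v.1) S
      + svU n ho vl (fun v : ι × ℕ × ℕ => v.1) (S.filter fun v => pc v.1 = 0)) {Sh : ℝ}
    (hSh : Sh = ∑ v ∈ (unV n U g).filter (fun v => ho v.1 = z), (1 - TuH R t ho vl kp mn g f v)
      + (∑ v ∈ S0, (1 - wuH R t ho vl kp mn g f v) * TuH R t ho vl kp mn g f v
      + ∑ v ∈ S1, (1 - wuH R t ho vl kp mn g f v) * TuH R t ho vl kp mn g f v)) :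
    2 * (((c : ℝ) * (R - A)) * (Sh - d))
      ≤ ((2 * (p * (r * (m + 2 * (k0 + k1)) + A * (m + 2 * k0 - q)))
        + 2 * (A * ((k0 - q) * be 0 z)) + 2 * (A * c) - 2 * (A * (m + 2 * k0 - q) * k1)
        - r * (m * (m + 2 * (k0 + k1) + 1) + w
          - ∑ l ∈ (range n).erase z, NN z l + minP U ho vl pc z ∅)
        - A * ((m + q) * (m + 2 * k0 - q + 1) + (2 * (g' * (g' - 1)) + 2 * (q * e))
          - ∑ l ∈ ((range n).erase z).erase 0, NN z l + minP U ho vl pc z ∅ - M * (M + 1)) : ℤ)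
          : ℝ) := by
  have hP := H.toPCon
  have hV := Lv.unp hP
  have hmem : ∀ v, v ∈ unV n U g → v.2.1 = z →
      v ∈ (unV n U g).filter fun v => z ∈ unC (twoE vl kp g f) f v := by
    intro v hv h1
    refine mem_filter.2 ⟨hv, ?_⟩
    unfold unC
    split_ifs
    · rw [h1]
      exact mem_insert_self _ _
    · rw [h1]
      exact mem_singleton_self _
  have hS0' : S0 ⊆ (unV n U g).filter fun v => z ∈ unC (twoE vl kp g f) f v := fun v hv => by
    obtain ⟨h1, -, h2⟩ := mem_filter.1 (hS0 hv)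
    exact hmem v h1 h2
  have hS1' : S1 ⊆ (unV n U g).filter fun v => z ∈ unC (twoE vl kp g f) f v := fun v hv => by
    obtain ⟨h1, -, h2⟩ := mem_filter.1 (hS1 hv)
    exact hmem v h1 h2
  have h00 : ∀ v ∈ S0, ho v.1 = 0 := fun v hv => (mem_filter.1 (hS0 hv)).2.1
  have h11 : ∀ v ∈ S1, ho v.1 ≠ 0 := fun v hv => (mem_filter.1 (hS1 hv)).2.1
  have key := H.hubC2 (A := A) (c := c) (r := r) (m := m) (k0 := k0) (k1 := k1) (q := q) (f := e)
    (g := g') (M := M) (p := p) hV hz hz0 hS0' h00 hS1' h11 hA hc hr hm hk0 hk1 hq he hg hM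
    (by rw [hp, hm, hd]; ring) hp0 hS hw
  have hm2 := hP.mass2 hz hz0
  have hA0 : (0 : ℝ) ≤ A := by
    have h1 : 0 ≤ A := by
      have := H.t0 z hz
      linarith
    exact_mod_cast h1
  have hcr : (c : ℝ) = (R : ℝ) - t 0 := by rw [hc]; push_cast; ring
  have hAr : (A : ℝ) = (t z : ℝ) + 1 := by rw [hA]; push_cast; ring
  have hc0 : (0 : ℝ) < c := by
    have h1 : 0 < c := by
      have := H.t0 z hz
      linarith
    exact_mod_cast h1
  have hRA : (0 : ℝ) < (R : ℝ) - A := by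
    have h1 : 0 < R - A := by
      have h2 := H.t0 0 (by have := H.n5; omega)
      linarith
    exact_mod_cast h1
  -- (1) the units of the hub
  have a1 : ∑ u ∈ S0.image (fun v : ι × ℕ × ℕ => v.1), (1 - pc u) * ar u
      ≤ ∑ v ∈ S0, (1 - pc v.1) * ar v.1 := by
    rw [← sum_unU (it := fun v : ι × ℕ × ℕ => v.1) (S := S0) fun v => (1 - pc v.1) * ar v.1]
    refine sum_le_sum fun u hu => ?_
    obtain ⟨v, hv, rfl⟩ := mem_image.1 hu
    have h1 : ∀ w ∈ S0.filter (fun w => w.1 = v.1), 0 ≤ (1 - pc w.1) * ar w.1 := by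
      intro w hw
      have h2 := (LevC.mem_unV (mem_filter.1 (hS0 (mem_filter.1 hw).1)).1).1
      have h3 := H.ar0 w.1 h2
      rcases H.pc01 w.1 h2 with h4 | h4
      · rw [h4]
        linarith
      · rw [h4]
        simp
    exact single_le_sum h1 (mem_filter.2 ⟨hv, rfl⟩)
  have b1 : ∀ v ∈ S0, unt kp mn g v z = unb kp mn g v := fun v hv => by
    unfold unt
    exact if_pos (mem_filter.1 (hS0 hv)).2.2.symm
  have b2 : ∀ v ∈ S1, unt kp mn g v z = unb kp mn g v := fun v hv => by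
    unfold unt
    exact if_pos (mem_filter.1 (hS1 hv)).2.2.symm
  have c1 : (c : ℝ) * ∑ v ∈ S0, (unt kp mn g v z : ℝ)
      + A * ∑ v ∈ S0, (((1 - pc v.1) * ar v.1 : ℤ) : ℝ)
      ≤ (c * (R - A)) * (k0 - ∑ v ∈ S0, (1 - wuH R t ho vl kp mn g f v)
        * TuH R t ho vl kp mn g f v) + A * ((k0 - q) * be 0 z) := by
    have h1 : ∀ v ∈ S0, (c : ℝ) * (unt kp mn g v z : ℝ) + A * (((1 - pc v.1) * ar v.1 : ℤ) : ℝ)
        ≤ (c * (R - A)) * (1 - (1 - wuH R t ho vl kp mn g f v) * TuH R t ho vl kp mn g f v)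
          + A * (((1 - pc v.1 : ℤ) : ℝ) * be 0 z) := by
      intro v hv
      obtain ⟨h2, h3, h4⟩ := mem_filter.1 (hS0 hv)
      have h5 := Lv.coV_hub' hP hR hR2 h2 h4 hz0 h3 (hcl v hv)
      have h6 : wuH R t ho vl kp mn g f v = 0 := by
        unfold wuH
        exact if_neg fun h => h.2.1 h3
      rw [h6, b1 v hv, hcr, hAr, sub_zero, one_mul]
      push_cast
      linarith
    have h2 := sum_le_sum h1
    rw [sum_add_distrib, sum_add_distrib, ← mul_sum, ← mul_sum, ← mul_sum, ← mul_sum,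
      sum_sub_distrib, sum_const, nsmul_eq_mul, mul_one, ← sum_mul] at h2
    have e1 : ∑ v ∈ S0, ((1 - pc v.1 : ℤ) : ℝ) = k0 - q := by
      rw [hk0, hq]
      push_cast
      rw [sum_sub_distrib, sum_const, nsmul_eq_mul, mul_one]
    have e2 : ((S0.card : ℕ) : ℝ) = k0 := by
      rw [hk0]
      push_cast
      rfl
    rw [e1, e2] at h2
    exact h2
  -- (2) the hosted units
  have c2 : (A : ℝ) * (c * m - ∑ v ∈ (unV n U g).filter (fun v => ho v.1 = z),
        (unh R t vl kp mn g f v 0 : ℝ))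
      ≤ (c * (R - A)) * (m - ∑ v ∈ (unV n U g).filter (fun v => ho v.1 = z),
        (1 - TuH R t ho vl kp mn g f v)) := by
    have h1 : ∀ v ∈ (unV n U g).filter (fun v => ho v.1 = z),
        (A : ℝ) * (c - unh R t vl kp mn g f v 0)
          ≤ (c * (R - A)) * (1 - (1 - TuH R t ho vl kp mn g f v)) := by
      intro v hv
      obtain ⟨h2, h3⟩ := mem_filter.1 hv
      have h5 := Lv.coV_host hP h2 h3 hz0 (hT v h2 h3)
      rw [← hcr, ← hAr] at h5
      have h6 : (A : ℝ) * (c - unh R t vl kp mn g f v 0) / (c * (R - A))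
          ≤ 1 - (1 - TuH R t ho vl kp mn g f v) := by linarith
      rw [div_le_iff₀ (mul_pos hc0 hRA)] at h6
      linarith
    have h2 := sum_le_sum h1
    have e1 : (((unV n U g).filter fun v => ho v.1 = z).card : ℝ) = m := by
      have h3 := hP.mu_units hV hz
      rw [hm, h3]
      push_cast
      rfl
    rw [← mul_sum, ← mul_sum, sum_sub_distrib, sum_sub_distrib, sum_const, sum_const,
      nsmul_eq_mul, nsmul_eq_mul, e1] at h2
    rw [mul_one] at h2
    have e2 : (m : ℝ) * c = c * m := mul_comm _ _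
    rw [e2] at h2
    exact h2
  -- (3) the units of third hosts
  have c3 : (r : ℝ) * ∑ v ∈ S1, (unt kp mn g v z : ℝ) + A * (R - A) * k1
      ≤ (c * (R - A)) * (k1 - ∑ v ∈ S1, (1 - wuH R t ho vl kp mn g f v)
        * TuH R t ho vl kp mn g f v) := by
    have h1 : ∀ v ∈ S1, (r : ℝ) * (unt kp mn g v z : ℝ) + A * (R - A)
        ≤ (c * (R - A)) * (1 - (1 - wuH R t ho vl kp mn g f v) * TuH R t ho vl kp mn g f v) := by
      intro v hv
      obtain ⟨h2, h3, h4⟩ := mem_filter.1 (hS1 hv)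
      have h5 := Lv.coV_third hP hR h2 h4 hz0 h3 (hb v hv)
      rw [← hcr, ← hAr] at h5
      have h6 : (((c : ℝ) - A) * unb kp mn g v + A * (R - A)) / (c * (R - A))
          ≤ 1 - (1 - wuH R t ho vl kp mn g f v) * TuH R t ho vl kp mn g f v := by linarith
      rw [div_le_iff₀ (mul_pos hc0 hRA)] at h6
      have e1 : (r : ℝ) = c - A := by rw [hr]; push_cast; ring
      rw [b2 v hv, e1]
      linarith
    have h2 := sum_le_sum h1
    have e2 : ((S1.card : ℕ) : ℝ) = k1 := by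
      rw [hk1]
      push_cast
      rfl
    have eL : ∑ v ∈ S1, ((r : ℝ) * (unt kp mn g v z : ℝ) + A * (R - A))
        = (r : ℝ) * ∑ v ∈ S1, (unt kp mn g v z : ℝ) + A * (R - A) * k1 := by
      rw [sum_add_distrib, ← mul_sum, sum_const, nsmul_eq_mul, e2]
      ring
    have eR : ∑ v ∈ S1, ((c : ℝ) * (R - A)) * (1 - (1 - wuH R t ho vl kp mn g f v)
          * TuH R t ho vl kp mn g f v)
        = (c * (R - A)) * (k1 - ∑ v ∈ S1, (1 - wuH R t ho vl kp mn g f v)
          * TuH R t ho vl kp mn g f v) := by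
      rw [← mul_sum, sum_sub_distrib, sum_const, nsmul_eq_mul, mul_one, e2]
    rw [eL, eR] at h2
    exact h2
  have a1' : ((∑ u ∈ S0.image (fun v : ι × ℕ × ℕ => v.1), (1 - pc u) * ar u : ℤ) : ℝ)
      ≤ ∑ v ∈ S0, (((1 - pc v.1) * ar v.1 : ℤ) : ℝ) := by
    exact_mod_cast a1
  have a2 := mul_le_mul_of_nonneg_left a1' hA0
  have key' : ((2 * (p * (c * (R - A) - r * (m + 2 * (k0 + k1)) - A * (m + 2 * k0 - q))) : ℤ) : ℝ)
      ≤ _ := Int.cast_le.2 key
  push_cast at key' ⊢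
  push_cast at c1 c2 c3 a2
  have e3 : (p : ℝ) = m - d + k0 + k1 := by rw [hp]; push_cast; ring
  have e4 : 2 * ((c : ℝ) * (R - A) * (Sh - d)) = 2 * (p * (c * (R - A)))
      - 2 * ((c * (R - A)) * (m + k0 + k1 - Sh)) := by
    rw [e3]
    ring
  rw [e4, hSh]
  linarith [key', c1, c2, c3, a2]

end RowMix

end Pool.Agent.Lib.MP_f04ccf_co
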