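import Pool.Agent.Lib.MP_f04ccf_co.M.HubT

/-!
MP_f04ccf_co, TEXT D, regime H: **the exact row test with fractional used units** (independent rounding).

* `round_le`: a multilinear polynomial which is at most zero on all subsets is at most zero on the cube;
* `PConC.rowT1m`: `PConC.rowT1` with the gain `minP` of the hosted items;
* `svU_pair`: the savings of the used units of value one as ordered pairs; `minP_le`;
* `PConC.rowTF`: the row test for weights `x v ∈ [0, 1]` of units of value one: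
  `c M - M² / 2 + (e + minP - ∑ p²) / 2 + ∑ x (c - b - 2 M - 2 + 2 d) - ∑_{v ≠ v'} x x' (2 - [same host])
    ≤ (R - M) d`.
-/

set_option autoImplicit false

namespace Pool.Agent.Lib.MP_f04ccf_co

open Finset

attribute [local instance] Classical.propDecidable

section HubFrA

variable {κ : Type*}

lemma pair_insert {M : Type*} [AddCommMonoid M] {v0 : κ} {S : Finset κ} (h : v0 ∉ S) (F : κ → κ → M) :
    ∑ v ∈ insert v0 S, ∑ v' ∈ (insert v0 S).erase v, F v v'
      = ∑ v ∈ S, F v0 v + (∑ v ∈ S, F v v0 + ∑ v ∈ S, ∑ v' ∈ S.erase v, F v v') := by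
  have h0 : ∑ v ∈ S, F v v0 + ∑ v ∈ S, ∑ v' ∈ S.erase v, F v v'
      = ∑ v ∈ S, ∑ v' ∈ (insert v0 S).erase v, F v v' := by
    rw [← sum_add_distrib]
    refine sum_congr rfl fun v hv => ?_
    have h1 : v ≠ v0 := fun h2 => h (h2 ▸ hv)
    rw [erase_insert_of_ne h1.symm, sum_insert fun h2 => h (mem_of_mem_erase h2)]
  rw [sum_insert h, erase_insert h, h0]

/-- **independent rounding**: a multilinear polynomial of degree two on the cube -/
theorem round_le (w : κ → κ → ℝ) (K : Finset κ) :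
    ∀ (c0 : ℝ) (a : κ → ℝ),
      (∀ S ⊆ K, c0 + ∑ v ∈ S, a v - ∑ v ∈ S, ∑ v' ∈ S.erase v, w v v' ≤ 0) →
      ∀ x : κ → ℝ, (∀ v ∈ K, 0 ≤ x v) → (∀ v ∈ K, x v ≤ 1) →
      c0 + ∑ v ∈ K, x v * a v - ∑ v ∈ K, ∑ v' ∈ K.erase v, x v * x v' * w v v' ≤ 0 := by
  induction K using Finset.induction_on with
  | empty =>
    intro c0 a h x _ _
    have h1 := h ∅ (Subset.refl _)
    simpa using h1
  | insert v0 K hv0 ih =>
    intro c0 a h x hx0 hx1
    have h1 := ih c0 a (fun S hS => h S (hS.trans (subset_insert _ _))) x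
      (fun v hv => hx0 v (mem_insert_of_mem hv)) (fun v hv => hx1 v (mem_insert_of_mem hv))
    have h2 := ih (c0 + a v0) (fun v => a v - w v0 v - w v v0) (fun S hS => by
      have h3 : v0 ∉ S := fun h4 => hv0 (hS h4)
      have h4 := h (insert v0 S) (insert_subset_insert _ hS)
      rw [sum_insert h3, pair_insert h3] at h4
      have h5 : ∑ v ∈ S, (a v - w v0 v - w v v0)
          = ∑ v ∈ S, a v - ∑ v ∈ S, w v0 v - ∑ v ∈ S, w v v0 := by
        rw [sum_sub_distrib, sum_sub_distrib]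
      rw [h5]
      linarith) x
      (fun v hv => hx0 v (mem_insert_of_mem hv)) (fun v hv => hx1 v (mem_insert_of_mem hv))
    have h3 := hx0 v0 (mem_insert_self _ _)
    have h4 := hx1 v0 (mem_insert_self _ _)
    rw [sum_insert hv0, pair_insert hv0]
    have h5 : ∑ v ∈ K, x v * (a v - w v0 v - w v v0)
        = ∑ v ∈ K, x v * a v - ∑ v ∈ K, x v * w v0 v - ∑ v ∈ K, x v * w v v0 := by
      rw [← sum_sub_distrib, ← sum_sub_distrib]
      exact sum_congr rfl fun v _ => by ring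
    have h6 : ∑ v ∈ K, x v0 * x v * w v0 v = x v0 * ∑ v ∈ K, x v * w v0 v := by
      rw [mul_sum]
      exact sum_congr rfl fun v _ => by ring
    have h7 : ∑ v ∈ K, x v * x v0 * w v v0 = x v0 * ∑ v ∈ K, x v * w v v0 := by
      rw [mul_sum]
      exact sum_congr rfl fun v _ => by ring
    rw [h6, h7]
    rw [h5] at h2
    nlinarith [mul_nonneg (sub_nonneg.2 h4) (neg_nonneg.2 h1), mul_nonneg h3 (neg_nonneg.2 h2)]

end HubFrA

section HubFrS

variable {ι κ : Type*} {R : ℤ} {n : ℕ} {t s mu : ℕ → ℤ} {U : Finset ι} {ho : ι → ℕ} {vl : ι → ℤ}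
  {kp mn : ℕ → ι → ℤ} {pc ar : ι → ℤ} {be kq NN sg : ℕ → ℕ → ℤ} {nu : ℕ → ι → ℤ}
  {V : Finset κ} {it : κ → ι} {C : κ → Finset ℕ} {bt ht : κ → ℕ → ℤ} {z : ℕ} {S : Finset κ}

/-- **the exact row test in numbers, the hosted gain `minP`** -/
theorem PConC.rowT1m (H : PConC R n t s mu U ho vl kp mn pc ar be kq NN sg nu)
    (hV : UnP R n t U ho vl kp mn V it C bt ht) (hz : z < n)
    (hS : S ⊆ V.filter fun v => z ∈ C v) {P e k M c d : ℤ}
    (hP : P = ∑ l ∈ range n, (be z l - kq z l)) (he : e = mu z - ∑ l ∈ range n, be z l)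
    (hk : k = (S.card : ℤ))
    (hM : M = P + e) (hc : c = R - (t z + 1)) (hd : d = mu z - s z) (hp : d ≤ M + k) :
    2 * (c * (M + k)) - (M + 2 * k) ^ 2 + e + minP U ho vl pc z ∅
        + (svU n ho vl it S + svU n ho vl it (S.filter fun v => pc (it v) = 0))
        - 2 * ∑ v ∈ S, bt v z - ∑ l ∈ range n, (be z l - kq z l) ^ 2
      ≤ 2 * ((R - (M + 2 * k)) * d) := by
  have e0 : M = mu z - ∑ l ∈ range n, kq z l := by
    rw [hM, hP, he, sum_sub_distrib]
    ring
  have h1 := H.unT2 hV hz hS (X := range n) (Y := ∅) (Subset.refl _) (empty_subset _) (D := ∅)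
    (empty_subset _) (fun u hu => absurd hu (notMem_empty u)) (by
      simp only [sum_empty, add_zero]
      rw [← hk]
      linarith)
  have h2 : (range n).erase z \ range n = ∅ := sdiff_eq_empty_iff_subset.2 (erase_subset _ _)
  have h3 : range n \ (∅ : Finset ℕ) = range n := sdiff_empty
  unfold TstP at h1
  rw [h2, h3] at h1
  simp only [sum_empty, sub_zero, add_zero, mul_zero, zero_mul] at h1
  have e1 : ∑ l ∈ range n, (be z l - kq z l) * (be z l - kq z l + 1)
      = ∑ l ∈ range n, (be z l - kq z l) ^ 2 + P := by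
    rw [hP, ← sum_add_distrib]
    exact sum_congr rfl fun l _ => by ring
  rw [e1, ← e0, ← hk] at h1
  have e2 : s z - ∑ l ∈ range n, kq z l + k = M + k - d := by
    rw [hd]
    linarith
  rw [e2] at h1
  have e3 : t z + 1 = R - c := by rw [hc]; ring
  rw [e3] at h1
  have e4 : e = M - P := by rw [hM]; ring
  rw [e4]
  nlinarith [h1]

/-- the savings of the used units of value one, as ordered pairs -/
lemma svU_pair {S : Finset κ} (h1 : ∀ v ∈ S, vl (it v) = 1) (hn : ∀ v ∈ S, ho (it v) < n) :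
    (svU n ho vl it S : ℤ)
      = ∑ v ∈ S, ∑ v' ∈ S.erase v, if ho (it v) = ho (it v') then 1 else 0 := by
  have h2 : ∀ v ∈ S, (∑ v' ∈ S.erase v, if ho (it v) = ho (it v') then (1 : ℤ) else 0)
      = ((S.filter fun v' => ho (it v') = ho (it v) ∧ vl (it v') = 1).card : ℤ) - 1 := by
    intro v hv
    have h3 : (∑ v' ∈ S, if ho (it v) = ho (it v') then (1 : ℤ) else 0)
        = ((S.filter fun v' => ho (it v') = ho (it v) ∧ vl (it v') = 1).card : ℤ) := by
      rw [← sum_filter, sum_const, nsmul_eq_mul, mul_one]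
      congr 2
      ext v'
      simp only [mem_filter]
      constructor
      · rintro ⟨h4, h5⟩
        exact ⟨h4, h5.symm, h1 v' h4⟩
      · rintro ⟨h4, h5, -⟩
        exact ⟨h4, h5.symm⟩
    have h4 := add_sum_erase S (fun v' => if ho (it v) = ho (it v') then (1 : ℤ) else 0) hv
    rw [if_pos rfl, h3] at h4
    linarith
  rw [sum_congr rfl h2]
  unfold svU
  rw [← sum_fiberwise_of_maps_to (s := S) (t := range n) (g := fun v => ho (it v))
    (fun v hv => mem_range.2 (hn v hv))]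
  refine sum_congr rfl fun x _ => ?_
  have h3 : ∀ v ∈ S.filter (fun v => ho (it v) = x),
      ((S.filter fun v' => ho (it v') = ho (it v) ∧ vl (it v') = 1).card : ℤ) - 1
      = ((S.filter fun v' => ho (it v') = x ∧ vl (it v') = 1).card : ℤ) - 1 := by
    intro v hv
    rw [(mem_filter.1 hv).2]
  rw [sum_congr rfl h3, sum_const, nsmul_eq_mul]
  congr 2
  congr 1
  ext v'
  simp only [mem_filter]
  constructor
  · rintro ⟨h4, h5, -⟩
    exact ⟨h4, h5⟩
  · rintro ⟨h4, h5⟩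
    exact ⟨h4, h5, h1 v' h4⟩

/-- the hosted gain is at most `e (e - 1)`, `e` the plain value -/
lemma minP_le {e : ℤ} (h1 : ∀ u ∈ U, 1 ≤ vl u)
    (he : ∑ u ∈ U.filter (fun u => ho u = z ∧ pc u = 0), vl u = e) :
    minP U ho vl pc z ∅ ≤ e * (e - 1) := by
  have h2 : kpPl U ho pc z ∅ = U.filter fun u => ho u = z ∧ pc u = 0 := by
    unfold kpPl
    exact filter_congr fun u _ => ⟨fun h => ⟨h.1, h.2.2⟩, fun h => ⟨h.1, notMem_empty u, h.2⟩⟩
  unfold minP
  rw [h2]
  set Q := U.filter fun u => ho u = z ∧ pc u = 0 with hQ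
  have hv : ∀ u ∈ Q, 1 ≤ vl u := fun u hu => h1 u (mem_filter.1 hu).1
  have h3 : ∑ p ∈ Q.offDiag, min (vl p.1) (vl p.2) ≤ ∑ p ∈ Q.offDiag, vl p.1 * vl p.2 := by
    refine sum_le_sum fun p hp => ?_
    obtain ⟨h4, h5, -⟩ := mem_offDiag.1 hp
    have h6 := hv _ h4
    have h7 := hv _ h5
    refine (min_le_left _ _).trans ?_
    nlinarith
  have h4 : ∑ p ∈ Q ×ˢ Q, vl p.1 * vl p.2 = e * e := by
    rw [sum_product, ← he, sum_mul_sum]
  have h5 : ∑ p ∈ Q ×ˢ Q, vl p.1 * vl p.2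
      = ∑ p ∈ Q.diag, vl p.1 * vl p.2 + ∑ p ∈ Q.offDiag, vl p.1 * vl p.2 := by
    rw [← diag_union_offDiag, sum_union (disjoint_diag_offDiag _)]
  have h6 : ∑ p ∈ Q.diag, vl p.1 * vl p.2 = ∑ u ∈ Q, vl u * vl u := by
    rw [sum_diag]
  have h7 : e ≤ ∑ u ∈ Q, vl u * vl u := by
    rw [← he]
    refine sum_le_sum fun u hu => ?_
    have := hv u hu
    nlinarith
  rw [h6] at h5
  linarith

/-- **the exact row test with fractional used units of value one** (all Konig pairs and block pairs kept), for a row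
with `M + 2 #K ≤ A z` -/
theorem PConC.rowTF (H : PConC R n t s mu U ho vl kp mn pc ar be kq NN sg nu)
    (hV : UnP R n t U ho vl kp mn V it C bt ht) (hz : z < n) {K : Finset κ}
    (hK : K ⊆ V.filter fun v => z ∈ C v) (h1 : ∀ v ∈ K, vl (it v) = 1)
    (hp : ∀ v ∈ K, pc (it v) = 0) (hb : ∀ v ∈ K, 0 ≤ bt v z) {P e M c d G Q : ℤ}
    (hP : P = ∑ l ∈ range n, (be z l - kq z l)) (he : e = mu z - ∑ l ∈ range n, be z l)
    (hM : M = P + e) (hc : c = R - (t z + 1)) (hc0 : 0 ≤ c) (hd : d = mu z - s z)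
    (hMK : M + 2 * (K.card : ℤ) ≤ R - c) (hG : G = minP U ho vl pc z ∅)
    (hQ : Q = ∑ l ∈ range n, (be z l - kq z l) ^ 2)
    {x : κ → ℝ} (hx0 : ∀ v ∈ K, 0 ≤ x v) (hx1 : ∀ v ∈ K, x v ≤ 1) :
    (c : ℝ) * M - (M : ℝ) ^ 2 / 2 + ((e : ℝ) + G) / 2 - (Q : ℝ) / 2
        + ∑ v ∈ K, x v * ((c : ℝ) - bt v z - 2 * M - 2 + 2 * d)
        - ∑ v ∈ K, ∑ v' ∈ K.erase v, x v * x v' * (2 - if ho (it v) = ho (it v') then 1 else 0)
      ≤ ((R : ℝ) - M) * d := by
  have hpl := H.toPCon.plain_val hz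
  have he0 : 0 ≤ e := by rw [he]; exact H.toPCon.plain_nonneg hz
  have hP0 : 0 ≤ P := by
    rw [hP]
    exact sum_nonneg fun l hl => by
      have := H.kqb z hz l (mem_range.1 hl)
      linarith
  have hQ0 : 0 ≤ Q := by
    rw [hQ]
    exact sum_nonneg fun l _ => sq_nonneg _
  have hG1 : G ≤ e * (e - 1) := by
    rw [hG]
    exact minP_le H.v1 (by rw [he, hpl])
  have hR0 : 0 ≤ R - c - M - 2 * (K.card : ℤ) := by linarith
  have key : ∀ S ⊆ K, ((c : ℝ) * M - (M : ℝ) ^ 2 / 2 + ((e : ℝ) + G) / 2 - (Q : ℝ) / 2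
      - ((R : ℝ) - M) * d) + ∑ v ∈ S, ((c : ℝ) - bt v z - 2 * M - 2 + 2 * d)
      - ∑ v ∈ S, ∑ v' ∈ S.erase v, (2 - if ho (it v) = ho (it v') then (1 : ℝ) else 0) ≤ 0 := by
    intro S hS
    have hSV : S ⊆ V.filter fun v => z ∈ C v := hS.trans hK
    have hfp : S.filter (fun v => pc (it v) = 0) = S :=
      filter_true_of_mem fun v hv => hp v (hS hv)
    have hsv := svU_pair (n := n) (ho := ho) (vl := vl) (it := it) (S := S)
      (fun v hv => h1 v (hS hv))
      (fun v hv => H.hlt _ (hV.mem v (mem_filter.1 (hSV hv)).1))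
    set k : ℤ := (S.card : ℤ) with hk
    set s1 : ℤ := svU n ho vl it S with hs1
    have hkK : k ≤ (K.card : ℤ) := by
      rw [hk]
      exact_mod_cast card_le_card hS
    have hk0 : 0 ≤ k := by rw [hk]; positivity
    have hpr : (∑ v ∈ S, ∑ v' ∈ S.erase v, (2 - if ho (it v) = ho (it v') then (1 : ℝ) else 0))
        = 2 * ((k : ℝ) * k - k) - s1 := by
      have h2 : ∀ v ∈ S, (∑ v' ∈ S.erase v, (2 - if ho (it v) = ho (it v') then (1 : ℝ) else 0))
          = 2 * ((k : ℝ) - 1) - ∑ v' ∈ S.erase v, if ho (it v) = ho (it v') then (1 : ℝ) else 0 := by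
        intro v hv
        rw [sum_sub_distrib, sum_const, nsmul_eq_mul, card_erase_of_mem hv,
          Nat.cast_sub (card_pos.2 ⟨v, hv⟩), hk]
        push_cast
        ring
      rw [sum_congr rfl h2, sum_sub_distrib, sum_const, nsmul_eq_mul, hsv, hk]
      push_cast
      ring
    have hs2 : s1 ≤ k * k - k := by
      rw [hsv, hk]
      have h3 : ∀ v ∈ S, (∑ v' ∈ S.erase v, if ho (it v) = ho (it v') then (1 : ℤ) else 0)
          ≤ (S.card : ℤ) - 1 := by
        intro v hv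
        have h4 : (∑ v' ∈ S.erase v, if ho (it v) = ho (it v') then (1 : ℤ) else 0)
            ≤ ∑ v' ∈ S.erase v, (1 : ℤ) := sum_le_sum fun v' _ => by split_ifs <;> norm_num
        rw [sum_const, nsmul_eq_mul, mul_one, card_erase_of_mem hv,
          Nat.cast_sub (card_pos.2 ⟨v, hv⟩)] at h4
        exact_mod_cast h4
      have h5 := sum_le_sum h3
      rw [sum_const, nsmul_eq_mul] at h5
      linarith
    have hsum : (∑ v ∈ S, ((c : ℝ) - bt v z - 2 * M - 2 + 2 * d))
        = (k : ℝ) * (c - 2 * M - 2 + 2 * d) - ((∑ v ∈ S, bt v z : ℤ) : ℝ) := by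
      have h2 : ∀ v ∈ S, ((c : ℝ) - bt v z - 2 * M - 2 + 2 * d)
          = (c - 2 * M - 2 + 2 * d) - (bt v z : ℝ) := fun v _ => by ring
      rw [sum_congr rfl h2, sum_sub_distrib, sum_const, nsmul_eq_mul, hk]
      push_cast
      ring
    have hB0 : 0 ≤ ∑ v ∈ S, bt v z := sum_nonneg fun v hv => hb v (hS hv)
    have main : 2 * (c * (M + k)) - (M + 2 * k) ^ 2 + e + G + 2 * s1 - 2 * ∑ v ∈ S, bt v z - Q
        ≤ 2 * ((R - (M + 2 * k)) * d) := by
      rcases le_or_gt d (M + k) with h4 | h4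
      · have h5 := H.rowT1m hV hz hSV hP he hk hM hc hd h4
        rw [hfp, ← hs1, ← hG, ← hQ] at h5
        linarith
      · have h5 : 0 ≤ (R - c - (M + 2 * k)) * d := mul_nonneg (by linarith) (by linarith)
        have h6 : 0 ≤ c * (d - (M + k)) := mul_nonneg hc0 (by linarith)
        have h7 : e * e ≤ M * M := mul_self_le_mul_self he0 (by linarith)
        have h8 : 0 ≤ M * k := mul_nonneg (by linarith) hk0
        nlinarith
    have main' : 2 * ((c : ℝ) * (M + k)) - (M + 2 * k) ^ 2 + e + G + 2 * s1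
        - 2 * ((∑ v ∈ S, bt v z : ℤ) : ℝ) - Q ≤ 2 * (((R : ℝ) - (M + 2 * k)) * d) := by
      exact_mod_cast main
    rw [hpr, hsum]
    nlinarith [main']
  have fin := round_le (fun v v' => 2 - if ho (it v) = ho (it v') then (1 : ℝ) else 0) K _ _ key x
    hx0 hx1
  linarith

end HubFrS

end Pool.Agent.Lib.MP_f04ccf_co
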