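import Pool.Agent.Lib.MP_f04ccf_co.M.HubC2

/-!
MP_f04ccf_co, TEXT D, regime H: **the mixture `r T + A P` of a row `z ≠ 0` for any table of shares.**

Letters as in `M/HubC2.lean`: `A = t z + 1`, `c = R - t 0`, `r = c - A`, `m = mu z`, `d = mu z - s z`, `D = c (R - A)`;
`S0` the used units of the hub, `S1` the used units of third hosts.

* `PConC.rowH_sum`: the mixture with three sums as hypotheses (units of the hub, hosted units, units of third hosts);
* `PConC.rowH_gen`: the same from one inequality per unit: `X v` = what the host `z` pays, `Y v` = what the main end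
  `z` pays (any real functions).
-/

set_option autoImplicit false

namespace Pool.Agent.Lib.MP_f04ccf_co

open Finset

attribute [local instance] Classical.propDecidable

section HubG

variable {ι κ : Type*} {R : ℤ} {n : ℕ} {t s mu : ℕ → ℤ} {U : Finset ι} {ho : ι → ℕ} {vl : ι → ℤ}
  {kp mn : ℕ → ι → ℤ} {pc ar : ι → ℤ} {be kq NN sg : ℕ → ℕ → ℤ} {nu : ℕ → ι → ℤ}
  {V : Finset κ} {it : κ → ι} {C : κ → Finset ℕ} {bt ht : κ → ℕ → ℤ} {z : ℕ}
  {S S0 S1 : Finset κ}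

/-- **the mixture for any table, sums** -/
theorem PConC.rowH_sum (H : PConC R n t s mu U ho vl kp mn pc ar be kq NN sg nu)
    (hV : UnP R n t U ho vl kp mn V it C bt ht) (hz : z < n) (hz0 : z ≠ 0)
    (hS0 : S0 ⊆ V.filter fun v => z ∈ C v) (h0 : ∀ v ∈ S0, ho (it v) = 0)
    (hS1 : S1 ⊆ V.filter fun v => z ∈ C v) (h1 : ∀ v ∈ S1, ho (it v) ≠ 0)
    {A c r m k0 k1 q e g M p d : ℤ} (hA : A = t z + 1) (hc : c = R - t 0) (hr : r = c - A)
    (hm : m = mu z) (hd : d = mu z - s z) (hk0 : k0 = (S0.card : ℤ)) (hk1 : k1 = (S1.card : ℤ))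
    (hq : q = ∑ v ∈ S0, pc (it v))
    (he : e = ((S0.filter fun v => pc (it v) = 0 ∧ ∀ l < n, l ≠ z → kp l (it v) = 0).card : ℤ))
    (hg : g = ((S0.filter fun v => vl (it v) = 1 ∧ pc (it v) = 0).card : ℤ))
    (hM : M = be z 0 + q) (hp : p = m - d + k0 + k1) (hp0 : k1 ≤ p)
    (hS : ∀ v, v ∈ S ↔ v ∈ S0 ∨ v ∈ S1) {w : ℤ}
    (hw : w = svU n ho vl it S + svU n ho vl it (S.filter fun v => pc (it v) = 0))
    {D X0 Y0 Y1 B : ℝ}
    (c1 : (c : ℝ) * ∑ v ∈ S0, (bt v z : ℝ) + A * ((∑ u ∈ S0.image it, (1 - pc u) * ar u : ℤ) : ℝ)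
      ≤ D * (k0 - Y0) + A * B)
    (c2 : (A : ℝ) * (c * m - ∑ v ∈ V.filter (fun v => ho (it v) = z), (ht v 0 : ℝ))
      ≤ D * (m - X0))
    (c3 : (r : ℝ) * ∑ v ∈ S1, (bt v z : ℝ) + A * (R - A) * k1 ≤ D * (k1 - Y1))
    (hD : D = c * (R - A)) :
    2 * (D * (X0 + Y0 + Y1 - d)) - 2 * (A * B)
      ≤ ((2 * (p * (r * (m + 2 * (k0 + k1)) + A * (m + 2 * k0 - q)))
        + 2 * (A * c) - 2 * (A * (m + 2 * k0 - q) * k1)
        - r * (m * (m + 2 * (k0 + k1) + 1) + w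
          - ∑ l ∈ (range n).erase z, NN z l + minP U ho vl pc z ∅)
        - A * ((m + q) * (m + 2 * k0 - q + 1) + (2 * (g * (g - 1)) + 2 * (q * e))
          - ∑ l ∈ ((range n).erase z).erase 0, NN z l + minP U ho vl pc z ∅ - M * (M + 1)) : ℤ)
          : ℝ) := by
  have key := H.hubC2 (A := A) (c := c) (r := r) (m := m) (k0 := k0) (k1 := k1) (q := q) (f := e)
    (g := g) (M := M) (p := p) hV hz hz0 hS0 h0 hS1 h1 hA hc hr hm hk0 hk1 hq he hg hM
    (by rw [hp, hm, hd]; ring) hp0 hS hw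
  have key' : ((2 * (p * (c * (R - A) - r * (m + 2 * (k0 + k1)) - A * (m + 2 * k0 - q))) : ℤ) : ℝ)
      ≤ _ := Int.cast_le.2 key
  have e3 : (p : ℝ) = m - d + k0 + k1 := by rw [hp]; push_cast; ring
  have e4 : 2 * (D * (X0 + Y0 + Y1 - d)) = 2 * (p * (c * (R - A)))
      - 2 * (D * (m + k0 + k1 - (X0 + Y0 + Y1))) := by
    rw [e3, hD]
    ring
  push_cast at key' ⊢
  push_cast at c1
  rw [e4]
  linarith [key', c1, c2, c3]

/-- **the mixture for any table, one inequality per unit**: `X` the part of the host, `Y` the part of the main end -/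
theorem PConC.rowH_gen (H : PConC R n t s mu U ho vl kp mn pc ar be kq NN sg nu)
    (hV : UnP R n t U ho vl kp mn V it C bt ht) (hz : z < n) (hz0 : z ≠ 0)
    (hS0 : S0 ⊆ V.filter fun v => z ∈ C v) (h0 : ∀ v ∈ S0, ho (it v) = 0)
    (hS1 : S1 ⊆ V.filter fun v => z ∈ C v) (h1 : ∀ v ∈ S1, ho (it v) ≠ 0)
    {A c r m k0 k1 q e g M p d : ℤ} (hA : A = t z + 1) (hc : c = R - t 0) (hr : r = c - A)
    (hm : m = mu z) (hd : d = mu z - s z) (hk0 : k0 = (S0.card : ℤ)) (hk1 : k1 = (S1.card : ℤ))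
    (hq : q = ∑ v ∈ S0, pc (it v))
    (he : e = ((S0.filter fun v => pc (it v) = 0 ∧ ∀ l < n, l ≠ z → kp l (it v) = 0).card : ℤ))
    (hg : g = ((S0.filter fun v => vl (it v) = 1 ∧ pc (it v) = 0).card : ℤ))
    (hM : M = be z 0 + q) (hp : p = m - d + k0 + k1) (hp0 : k1 ≤ p)
    (hS : ∀ v, v ∈ S ↔ v ∈ S0 ∨ v ∈ S1) {w : ℤ}
    (hw : w = svU n ho vl it S + svU n ho vl it (S.filter fun v => pc (it v) = 0))
    {D : ℝ} {X Y β : κ → ℝ} (hD : D = c * (R - A))
    (x0 : ∀ v ∈ S0, D * Y v + c * bt v z + A * ((1 - pc (it v)) * ar (it v)) ≤ D + A * β v)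
    (xz : ∀ v ∈ V, ho (it v) = z → D * X v + A * (c - ht v 0) ≤ D)
    (x1 : ∀ v ∈ S1, D * Y v + (r * bt v z + A * (R - A)) ≤ D) :
    2 * (D * (∑ v ∈ V.filter (fun v => ho (it v) = z), X v
        + (∑ v ∈ S0, Y v + ∑ v ∈ S1, Y v) - d)) - 2 * (A * ∑ v ∈ S0, β v)
      ≤ ((2 * (p * (r * (m + 2 * (k0 + k1)) + A * (m + 2 * k0 - q)))
        + 2 * (A * c) - 2 * (A * (m + 2 * k0 - q) * k1)
        - r * (m * (m + 2 * (k0 + k1) + 1) + w
          - ∑ l ∈ (range n).erase z, NN z l + minP U ho vl pc z ∅)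
        - A * ((m + q) * (m + 2 * k0 - q + 1) + (2 * (g * (g - 1)) + 2 * (q * e))
          - ∑ l ∈ ((range n).erase z).erase 0, NN z l + minP U ho vl pc z ∅ - M * (M + 1)) : ℤ)
          : ℝ) := by
  have hA0 : (0 : ℝ) ≤ A := by
    have h1 : 0 ≤ A := by
      have := H.t0 z hz
      linarith
    exact_mod_cast h1
  have a1 : ∑ u ∈ S0.image it, (1 - pc u) * ar u ≤ ∑ v ∈ S0, (1 - pc (it v)) * ar (it v) := by
    rw [← sum_unU (it := it) (S := S0) fun v => (1 - pc (it v)) * ar (it v)]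
    refine sum_le_sum fun u hu => ?_
    obtain ⟨v, hv, rfl⟩ := mem_image.1 hu
    have h1 : ∀ w ∈ S0.filter (fun w => it w = it v), 0 ≤ (1 - pc (it w)) * ar (it w) := by
      intro w hw
      have h2 := hV.mem w (mem_filter.1 (hS0 (mem_filter.1 hw).1)).1
      have h3 := H.ar0 (it w) h2
      rcases H.pc01 (it w) h2 with h4 | h4
      · rw [h4]
        linarith
      · rw [h4]
        simp
    exact single_le_sum h1 (mem_filter.2 ⟨hv, rfl⟩)
  have a1' : ((∑ u ∈ S0.image it, (1 - pc u) * ar u : ℤ) : ℝ)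
      ≤ ∑ v ∈ S0, (((1 - pc (it v)) * ar (it v) : ℤ) : ℝ) := by
    exact_mod_cast a1
  have a2 := mul_le_mul_of_nonneg_left a1' hA0
  have c1 : (c : ℝ) * ∑ v ∈ S0, (bt v z : ℝ)
      + A * ((∑ u ∈ S0.image it, (1 - pc u) * ar u : ℤ) : ℝ)
      ≤ D * (k0 - ∑ v ∈ S0, Y v) + A * ∑ v ∈ S0, β v := by
    have h2 := sum_le_sum x0
    simp only [sum_add_distrib, ← mul_sum] at h2
    rw [sum_const, nsmul_eq_mul] at h2
    have e2 : ((S0.card : ℕ) : ℝ) = k0 := by
      rw [hk0]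
      push_cast
      rfl
    rw [e2] at h2
    push_cast at a2 ⊢
    linarith
  have c2 : (A : ℝ) * (c * m - ∑ v ∈ V.filter (fun v => ho (it v) = z), (ht v 0 : ℝ))
      ≤ D * (m - ∑ v ∈ V.filter (fun v => ho (it v) = z), X v) := by
    have h2 := sum_le_sum fun v (hv : v ∈ V.filter fun v => ho (it v) = z) =>
      xz v (mem_filter.1 hv).1 (mem_filter.1 hv).2
    have e1 : ((V.filter fun v => ho (it v) = z).card : ℝ) = m := by
      have h3 := H.mu_units hV hz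
      rw [hm, h3]
      push_cast
      rfl
    simp only [sum_add_distrib, ← mul_sum, sum_sub_distrib] at h2
    rw [sum_const, sum_const, nsmul_eq_mul, nsmul_eq_mul, e1] at h2
    linarith
  have c3 : (r : ℝ) * ∑ v ∈ S1, (bt v z : ℝ) + A * (R - A) * k1
      ≤ D * (k1 - ∑ v ∈ S1, Y v) := by
    have h2 := sum_le_sum x1
    simp only [sum_add_distrib, ← mul_sum] at h2
    rw [sum_const, sum_const, nsmul_eq_mul, nsmul_eq_mul] at h2
    have e2 : ((S1.card : ℕ) : ℝ) = k1 := by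
      rw [hk1]
      push_cast
      rfl
    rw [e2] at h2
    linarith
  have := H.rowH_sum hV hz hz0 hS0 h0 hS1 h1 hA hc hr hm hd hk0 hk1 hq he hg hM hp hp0 hS hw
    c1 c2 c3 hD
  rw [← add_assoc]
  exact this

end HubG

end Pool.Agent.Lib.MP_f04ccf_co
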