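import Mathlib

/-!
MP_f04ccf_co, text S (notes 17448 (iv), 17561): the closed caps of a cell, pure part.  A cell test holds for
all sub-amounts `p` of the units; `cap_of` is the general lemma, `cap_man` the closed cap
`R (q - 1) ≤ t t'` of the full units with Mantel's bound, `cap_tri` the triangle of the two directions,
`cap_big`, `cap_sum` the sums over the cells with at least `K` units.
-/

set_option autoImplicit false

namespace Pool.Agent.Lib.MP_f04ccf_co

open Finset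

namespace ShCap

/-- **the cap lemma**: `p A ≤ C + B p²` for all sub-amounts `1 ≤ p ≤ q`, false at `X` and at `X + 1` -/
theorem cap_of {q : ℤ} {A B C X : ℝ} (hB : 0 ≤ B) (hX : 0 ≤ X)
    (h : ∀ p : ℤ, 1 ≤ p → p ≤ q → (p : ℝ) * A ≤ C + B * (p : ℝ) ^ 2)
    (h1 : C + B * X ^ 2 < X * A) (h2 : C + B * (X + 1) ^ 2 < (X + 1) * A) : (q : ℝ) ≤ X := by
  by_contra hq
  push Not at hq
  have h3 : (⌊X⌋ : ℝ) ≤ X := Int.floor_le X
  have h4 : X < ⌊X⌋ + 1 := Int.lt_floor_add_one X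
  have h5 : 0 ≤ ⌊X⌋ := Int.floor_nonneg.2 hX
  have h6 : ⌊X⌋ < q := by
    have h7 : (⌊X⌋ : ℝ) < q := lt_of_le_of_lt h3 hq
    exact_mod_cast h7
  have h7 := h (⌊X⌋ + 1) (by linarith) (by linarith)
  push_cast at h7
  obtain ⟨l, hl⟩ : ∃ l : ℝ, l = (⌊X⌋ : ℝ) + 1 - X := ⟨_, rfl⟩
  have hl0 : 0 < l := by linarith
  have hl1 : l ≤ 1 := by linarith
  have h8 : (⌊X⌋ : ℝ) + 1 = X + l := by linarith
  rw [h8] at h7
  have h9 : 0 ≤ B * (l * (1 - l)) := mul_nonneg hB (mul_nonneg hl0.le (by linarith))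
  have h10 : 0 < l * ((X + 1) * A - (C + B * (X + 1) ^ 2)) := mul_pos hl0 (by linarith)
  have h11 : 0 ≤ (1 - l) * (X * A - (C + B * X ^ 2)) :=
    mul_nonneg (by linarith) (by linarith)
  nlinarith

/-- **Mantel's cap**, `t` the row whose points are counted (`A = R + t`) -/
theorem cap_man {R t t' q : ℤ} (hR : 5 ≤ R) (ht : 0 ≤ t) (ht' : 0 ≤ t') (htR : t' + 3 ≤ R)
    (h : ∀ p : ℤ, 1 ≤ p → p ≤ q → p * (R + t) ≤ R + t * t' + p ^ 2) : R * (q - 1) ≤ t * t' := by
  by_contra hq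
  push Not at hq
  have hR0 : 0 < R := by linarith
  have hP : 0 ≤ t * t' := mul_nonneg ht ht'
  obtain ⟨p, hp⟩ : ∃ p : ℤ, p = t * t' / R + 2 := ⟨_, rfl⟩
  have h1 : R * (p - 2) ≤ t * t' := by
    rw [hp, add_sub_cancel_right]
    exact Int.mul_ediv_self_le (by linarith)
  have h2 : t * t' < R * (p - 1) := by
    have h3 := Int.lt_mul_ediv_self_add (x := t * t') hR0
    have h4 : R * (p - 1) = R * (t * t' / R) + R := by
      rw [hp]
      ring
    rw [h4]
    exact h3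
  have h3 : 2 ≤ p := by
    have := Int.ediv_nonneg hP hR0.le
    linarith
  have h4 : p ≤ q := by
    by_contra h5
    push Not at h5
    have h6 : R * (q - 1) ≤ R * (p - 2) := mul_le_mul_of_nonneg_left (by linarith) hR0.le
    linarith
  have h5 := h p (by linarith) h4
  rcases le_or_gt p t with h6 | h6
  · have h7 : 0 ≤ p * (t - p) := mul_nonneg (by linarith) (by linarith)
    nlinarith
  · rcases eq_or_lt_of_le ht with h7 | h7
    · rw [← h7] at h1 h5
      have h8 : p ≤ 2 := by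
        by_contra h9
        push Not at h9
        nlinarith
      have h9 : p = 2 := le_antisymm h8 h3
      rw [h9] at h5
      linarith
    · have h8 : p ≤ t + 1 := by
        by_contra h9
        push Not at h9
        have h10 : R * t ≤ R * (p - 2) := mul_le_mul_of_nonneg_left (by linarith) hR0.le
        have h11 : t * t' < t * R := mul_lt_mul_of_pos_left (by linarith) h7
        linarith
      have h9 : p = t + 1 := le_antisymm h8 (by linarith)
      rw [h9] at h5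
      have h10 : t * 2 ≤ t * (R - t' - 1) := mul_le_mul_of_nonneg_left (by linarith) h7.le
      nlinarith

/-- **Mantel's cap with losses**: the whole cell at once -/
theorem cap_loss {R t t' q L : ℤ} (hq : 0 ≤ q) (hqt : q ≤ t)
    (h : q * (R + t) - L ≤ R + t * t' + q ^ 2) : R * (q - 1) ≤ t * t' + L := by
  have h1 : 0 ≤ q * (t - q) := mul_nonneg hq (by linarith)
  nlinarith

/-- **the triangle**: the cell test of the full cell in the form `A m + A' k ≤ C + (m + k)²`, upper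
bounds `M`, `K` of the two single directions and the crude bound `(m + k)² ≤ C` -/
theorem cap_tri {A A' C m k M K : ℝ} (hm : 0 ≤ m) (hk : 0 ≤ k) (hM : 0 < M) (hK : 0 < K)
    (h : A * m + A' * k ≤ C + (m + k) ^ 2) (hc : (m + k) ^ 2 < C)
    (h1 : C + M ^ 2 ≤ A * M) (h2 : C + K ^ 2 ≤ A' * K) : m / M + k / K ≤ 1 := by
  by_contra hq
  push Not at hq
  set a := m / M with ha
  set b := k / K with hb
  have ha0 : 0 ≤ a := div_nonneg hm hM.le
  have hb0 : 0 ≤ b := div_nonneg hk hK.le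
  have em : m = a * M := by rw [ha]; field_simp
  have ek : k = b * K := by rw [hb]; field_simp
  have h3 : a * (C + M ^ 2) ≤ a * (A * M) := mul_le_mul_of_nonneg_left h1 ha0
  have h4 : b * (C + K ^ 2) ≤ b * (A' * K) := mul_le_mul_of_nonneg_left h2 hb0
  have h5 : (a + b) * C + a * M ^ 2 + b * K ^ 2 ≤ C + (m + k) ^ 2 := by
    have h6 : A * m + A' * k = a * (A * M) + b * (A' * K) := by rw [em, ek]; ring
    linarith
  -- `(a + b) (a M² + b K²) ≥ (a M + b K)²`
  have h6 : (a * M + b * K) ^ 2 ≤ (a + b) * (a * M ^ 2 + b * K ^ 2) := by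
    nlinarith [mul_nonneg (mul_nonneg ha0 hb0) (sq_nonneg (M - K))]
  rw [← em, ← ek] at h6
  have hab : 0 < a + b := by linarith
  have h7 : (a + b) * ((a + b) * C + a * M ^ 2 + b * K ^ 2) ≤ (a + b) * (C + (m + k) ^ 2) :=
    mul_le_mul_of_nonneg_left h5 hab.le
  have h8 : (a + b - 1) * ((a + b) * C) ≤ (a + b - 1) * (m + k) ^ 2 := by nlinarith
  have h9 : (a + b) * C ≤ (m + k) ^ 2 := le_of_mul_le_mul_left h8 (by linarith)
  have h10 : 0 < C := lt_of_le_of_lt (sq_nonneg _) hc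
  nlinarith

/-- **a cell with at least `K` units**: `(K - 1) R q ≤ K t t'` -/
theorem cap_big {R t t' q K : ℤ} (hR : 0 ≤ R) (hK : K ≤ q) (h : R * (q - 1) ≤ t * t')
    (hK1 : 1 ≤ K) : (K - 1) * (R * q) ≤ K * (t * t') := by
  have h1 : 0 ≤ R * (q - K) := mul_nonneg hR (by linarith)
  have h2 : K * (R * (q - 1)) ≤ K * (t * t') := mul_le_mul_of_nonneg_left h (by linarith)
  nlinarith

/-- the sum over cells with at least `K` units -/
theorem cap_big_sum {R t K : ℤ} {t' q : ℕ → ℤ} {J : Finset ℕ} (hR : 0 ≤ R) (hK1 : 1 ≤ K)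
    (hK : ∀ x ∈ J, K ≤ q x) (h : ∀ x ∈ J, R * (q x - 1) ≤ t * t' x) :
    (K - 1) * (R * ∑ x ∈ J, q x) ≤ K * (t * ∑ x ∈ J, t' x) := by
  have h1 : ∑ x ∈ J, (K - 1) * (R * q x) ≤ ∑ x ∈ J, K * (t * t' x) :=
    sum_le_sum fun x hx => cap_big hR (hK x hx) (h x hx) hK1
  rw [← mul_sum, ← mul_sum, ← mul_sum, ← mul_sum] at h1
  exact h1

/-- the sum over cells with `t' + 1 ≥ u`: `R u Σ q ≤ (u t + R - t) Σ (t' + 1)` -/
theorem cap_sum {R t u : ℤ} {t' q : ℕ → ℤ} {J : Finset ℕ} (hu : 0 ≤ u) (htR : t ≤ R)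
    (hJ : ∀ x ∈ J, u ≤ t' x + 1) (h : ∀ x ∈ J, R * (q x - 1) ≤ t * t' x) :
    R * u * ∑ x ∈ J, q x ≤ (u * t + (R - t)) * ∑ x ∈ J, (t' x + 1) := by
  rw [mul_sum, mul_sum]
  refine sum_le_sum fun x hx => ?_
  have h1 : u * (R * (q x - 1)) ≤ u * (t * t' x) := mul_le_mul_of_nonneg_left (h x hx) hu
  have h2 : 0 ≤ (R - t) * (t' x + 1 - u) := mul_nonneg (by linarith) (by linarith [hJ x hx])
  nlinarith

/-- the total weight of the rows other than `z` -/
theorem cap_sum_row {R t u β : ℤ} {t' q : ℕ → ℤ} {J : Finset ℕ} (hu : 0 ≤ u) (ht : 0 ≤ t)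
    (htR : t ≤ R) (hJ : ∀ x ∈ J, u ≤ t' x + 1) (h : ∀ x ∈ J, R * (q x - 1) ≤ t * t' x)
    (hs : ∑ x ∈ J, (t' x + 1) ≤ β) :
    R * u * ∑ x ∈ J, q x ≤ (u * t + (R - t)) * β := by
  have h1 := cap_sum hu htR hJ h
  have h2 : 0 ≤ u * t + (R - t) := by
    have := mul_nonneg hu ht
    linarith
  exact h1.trans (mul_le_mul_of_nonneg_left hs h2)

end ShCap

end Pool.Agent.Lib.MP_f04ccf_co
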