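import Pool.Agent.Lib.MP_f04ccf_co.M.PCon
import Pool.Agent.Lib.MP_f04ccf_co.M.ShCapP

/-!
MP_f04ccf_co, TEXT D, pure side: **the closed caps of a cell from the contract `PCon`**.

Cell `{i, j}`, `M = be i j + be j i` PC pairs of both homes, full items `K` of host `i` (only end `j`) and `K'` of
host `j` (only end `i`), `E = M + |K| + |K'|`.

* `PCon.full_item`: a full item has value one and no misses;
* `PCon.capF`: `(E - 1) R + |K| t j + |K'| t i ≤ t i * t j + E²`;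
* `PCon.capA`: **`p R ≤ R + t i * t j + p²` for every `1 ≤ p ≤ E`**; `PCon.capA'`: with the gains
  `(p - 1) R + (p - M) min (t i) (t j) ≤ t i * t j + p²` for `M ≤ p ≤ E`;
* `PCon.capE`: `2 ≤ t j ≤ t i`, `t i + t j + 3 ≤ R`: `E ≤ t j` and `(E - 1) (R - t j) ≤ t j (t i + 1)`;
  `PCon.capE1`: `t j ≤ 1`, `t i + 5 ≤ R`: `E ≤ 1`;
* `PCon.cap1`: plain items of value one with any third ends (pairs of one host), `PCon.cap1T`: with Turan's saving.
-/

set_option autoImplicit false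

namespace Pool.Agent.Lib.MP_f04ccf_co

open Finset

attribute [local instance] Classical.propDecidable

/-- **the closed cap from all sub-amounts** -/
lemma ShCap.le_all {R a b E : ℤ} (hb : 2 ≤ b) (hba : b ≤ a) (hR : a + b + 3 ≤ R)
    (h : ∀ p : ℤ, 1 ≤ p → p ≤ E → p * R ≤ R + a * b + p ^ 2) :
    E ≤ b ∧ (E - 1) * (R - b) ≤ b * (a + 1) := by
  have h1 : E ≤ b := by
    by_contra hcon
    push Not at hcon
    have h2 := h (b + 1) (by linarith) (by linarith)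
    nlinarith
  refine ⟨h1, ?_⟩
  rcases le_or_gt 1 E with h2 | h2
  · have h3 := h E h2 le_rfl
    nlinarith
  · have h3 : 0 ≤ b * (a + 1) := mul_nonneg (by linarith) (by linarith)
    have h4 : (E - 1) * (R - b) ≤ 0 := mul_nonpos_of_nonpos_of_nonneg (by linarith) (by linarith)
    linarith

lemma ShCap.le_all1 {R a b E : ℤ} (hb : b ≤ 1) (ha : 0 ≤ a) (hR : a + 5 ≤ R)
    (h : ∀ p : ℤ, 1 ≤ p → p ≤ E → p * R ≤ R + a * b + p ^ 2) : E ≤ 1 := by
  by_contra hcon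
  push Not at hcon
  have h2 := h 2 (by norm_num) (by linarith)
  nlinarith

namespace PCon

variable {ι : Type*} {R : ℤ} {n : ℕ} {t s mu : ℕ → ℤ} {U : Finset ι} {ho : ι → ℕ} {vl : ι → ℤ}
  {kp mn : ℕ → ι → ℤ} {pc ar : ι → ℤ} {be kq NN sg : ℕ → ℕ → ℤ} {nu : ℕ → ι → ℤ}

/-- a full item (one end) has value one and no misses -/
lemma full_item (H : PCon R n t s mu U ho vl kp mn pc ar be kq NN sg nu) {u : ι} (hu : u ∈ U)
    {j : ℕ} (hj : j < n) (h1 : kp j u = 1) (h2 : ∀ l < n, l ≠ j → kp l u = 0) :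
    vl u = 1 ∧ mn j u = 0 := by
  rcases H.one u hu with ⟨i, hi, h3, h4, h5, -⟩ | ⟨-, h3⟩
  · have h6 : i = j := by
      by_contra h7
      have := h2 i hi h7
      omega
    exact ⟨h4, h6 ▸ h5⟩
  · have h4 : ∑ i ∈ range n, kp i u = 1 := by
      rw [sum_eq_single_of_mem j (mem_range.2 hj) fun l hl hlj => h2 l (mem_range.1 hl) hlj, h1]
    have := H.v1 u hu
    omega

/-- the mixed cap at the level one for plain items of value one -/
lemma capM1 (H : PCon R n t s mu U ho vl kp mn pc ar be kq NN sg nu) {i j : ℕ} (hi : i < n)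
    (hj : j < n) (hij : i ≠ j) {K K' : Finset ι} (hK : K ⊆ U) (hK' : K' ⊆ U)
    (h1 : ∀ u ∈ K, ho u = i ∧ pc u = 0 ∧ kp j u = 1)
    (h2 : ∀ u ∈ K', ho u = j ∧ pc u = 0 ∧ kp i u = 1) {sv : ℤ}
    (hs : SvC n vl kp pc i j (fun _ => 1) (fun _ => 1) K K' sv) :
    2 * ((be i j + be j i + K.card + K'.card - 1) * R)
      + 2 * (K.card * t j - ∑ u ∈ K, (mn j u + ∑ l ∈ ((range n).erase i).erase j, kp l u * be i l))
      + 2 * (K'.card * t i
        - ∑ u ∈ K', (mn i u + ∑ l ∈ ((range n).erase i).erase j, kp l u * be j l)) + sv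
      ≤ 2 * (t i * t j) + 2 * (be i j + be j i) ^ 2
        + 4 * (be i j + be j i) * (K.card + K'.card)
        + (2 * ((K.card : ℤ) + K'.card)) * (2 * ((K.card : ℤ) + K'.card) - 1) := by
  have h3 := H.capM i hi j hj hij K hK (fun u hu => ⟨(h1 u hu).1, (h1 u hu).2.1⟩) K' hK'
    (fun u hu => ⟨(h2 u hu).1, (h2 u hu).2.1⟩) (fun _ => 1) (fun _ => 1)
    (fun _ _ => le_refl 1) (fun u hu => by rw [(h1 u hu).2.2]; norm_num)
    (fun _ _ => le_refl 1) (fun u hu => by rw [(h2 u hu).2.2]; norm_num) sv hs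
  have key : ∀ {j y : ℕ} {K : Finset ι}, (∀ u ∈ K, kp j u = 1) →
      ∑ u ∈ K, (R * (((1 : ℕ) : ℤ)) + t j - msP kp mn j (fun _ => 1) u
          - ∑ l ∈ ((range n).erase i).erase y, kp l u * be i l)
        = K.card * (R + t j)
          - ∑ u ∈ K, (mn j u + ∑ l ∈ ((range n).erase i).erase y, kp l u * be i l) := by
    intro j y K h
    rw [← nsmul_eq_mul, ← sum_const, ← sum_sub_distrib]
    refine sum_congr rfl fun u hu => ?_
    unfold msP
    rw [h u hu, if_pos (by norm_num)]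
    push_cast
    ring
  have key' : ∀ {K : Finset ι}, (∀ u ∈ K, kp i u = 1) →
      ∑ u ∈ K, (R * (((1 : ℕ) : ℤ)) + t i - msP kp mn i (fun _ => 1) u
          - ∑ l ∈ ((range n).erase i).erase j, kp l u * be j l)
        = K.card * (R + t i)
          - ∑ u ∈ K, (mn i u + ∑ l ∈ ((range n).erase i).erase j, kp l u * be j l) := by
    intro K h
    rw [← nsmul_eq_mul, ← sum_const, ← sum_sub_distrib]
    refine sum_congr rfl fun u hu => ?_
    unfold msP
    rw [h u hu, if_pos (by norm_num)]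
    push_cast
    ring
  beta_reduce at h3
  rw [key fun u hu => (h1 u hu).2.2, key' fun u hu => (h2 u hu).2.2] at h3
  simp only [sum_const, nsmul_eq_mul] at h3
  push_cast at h3
  nlinarith [h3]

/-- **PC pairs of both homes and full items of both directions** -/
theorem capF (H : PCon R n t s mu U ho vl kp mn pc ar be kq NN sg nu) {i j : ℕ} (hi : i < n)
    (hj : j < n) (hij : i ≠ j) {K K' : Finset ι} (hK : K ⊆ U) (hK' : K' ⊆ U)
    (h1 : ∀ u ∈ K, ho u = i ∧ pc u = 0 ∧ kp j u = 1 ∧ ∀ l < n, l ≠ j → kp l u = 0)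
    (h2 : ∀ u ∈ K', ho u = j ∧ pc u = 0 ∧ kp i u = 1 ∧ ∀ l < n, l ≠ i → kp l u = 0) :
    (be i j + be j i + K.card + K'.card - 1) * R + K.card * t j + K'.card * t i
      ≤ t i * t j + (be i j + be j i + K.card + K'.card) ^ 2 := by
  have hI : ({i, j} : Finset ℕ) ⊆ range n := by
    intro l hl
    rcases mem_insert.1 hl with rfl | hl
    · exact mem_range.2 hi
    · rw [mem_singleton.1 hl]
      exact mem_range.2 hj
  have hc : (({i, j} : Finset ℕ).card : ℤ) = 2 := by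
    rw [card_pair hij]
    norm_num
  have s1 : ∀ {K : Finset ι}, (∀ u ∈ K, pc u = 0) →
      ∑ u ∈ K, ((((fun _ => 1 : ι → ℕ) u : ℕ) : ℤ) + 1 - pc u) = 2 * K.card := by
    intro K h
    rw [sum_congr rfl fun u hu => by rw [h u hu], sum_const, nsmul_eq_mul]
    push_cast
    ring
  have hsv : SvC n vl kp pc i j (fun _ => 1) (fun _ => 1) K K'
      (2 * ((K.card : ℤ) + K'.card) * (2 * K.card + 2 * K'.card)
        - 2 * (((K.card : ℤ) + K'.card) * ((K.card : ℤ) + K'.card + 1))) := by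
    refine Or.inr (Or.inl ⟨{i, j}, hI, by simp, by simp, fun u hu l hl hk => ?_,
      fun u hu l hl hk => ?_, (K.card : ℤ) + K'.card, ?_⟩)
    · by_contra h3
      exact hk ((h1 u hu).2.2.2 l hl fun h4 => h3 (by simp [h4]))
    · by_contra h3
      exact hk ((h2 u hu).2.2.2 l hl fun h4 => h3 (by simp [h4]))
    · rw [s1 fun u hu => (h1 u hu).2.1, s1 fun u hu => (h2 u hu).2.1, hc]
  have h3 := H.capM1 hi hj hij hK hK' (fun u hu => ⟨(h1 u hu).1, (h1 u hu).2.1, (h1 u hu).2.2.1⟩)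
    (fun u hu => ⟨(h2 u hu).1, (h2 u hu).2.1, (h2 u hu).2.2.1⟩) hsv
  have z1 : ∑ u ∈ K, (mn j u + ∑ l ∈ ((range n).erase i).erase j, kp l u * be i l) = 0 := by
    refine sum_eq_zero fun u hu => ?_
    rw [(H.full_item (hK hu) hj (h1 u hu).2.2.1 (h1 u hu).2.2.2).2, zero_add]
    refine sum_eq_zero fun l hl => ?_
    have hl1 := mem_erase.1 hl
    rw [(h1 u hu).2.2.2 l (mem_range.1 (mem_of_mem_erase hl1.2)) hl1.1, zero_mul]
  have z2 : ∑ u ∈ K', (mn i u + ∑ l ∈ ((range n).erase i).erase j, kp l u * be j l) = 0 := by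
    refine sum_eq_zero fun u hu => ?_
    rw [(H.full_item (hK' hu) hi (h2 u hu).2.2.1 (h2 u hu).2.2.2).2, zero_add]
    refine sum_eq_zero fun l hl => ?_
    have hl1 := mem_erase.1 (mem_erase.1 hl).2
    rw [(h2 u hu).2.2.2 l (mem_range.1 hl1.2) hl1.1, zero_mul]
  rw [z1, z2] at h3
  nlinarith [h3]

/-- **all sub-amounts, with the gains of the full items** -/
theorem capA' (H : PCon R n t s mu U ho vl kp mn pc ar be kq NN sg nu) {i j : ℕ} (hi : i < n)
    (hj : j < n) (hij : i ≠ j) {K K' : Finset ι} (hK : K ⊆ U) (hK' : K' ⊆ U)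
    (h1 : ∀ u ∈ K, ho u = i ∧ pc u = 0 ∧ kp j u = 1 ∧ ∀ l < n, l ≠ j → kp l u = 0)
    (h2 : ∀ u ∈ K', ho u = j ∧ pc u = 0 ∧ kp i u = 1 ∧ ∀ l < n, l ≠ i → kp l u = 0)
    {p : ℤ} (hp : be i j + be j i ≤ p) (hpE : p ≤ be i j + be j i + K.card + K'.card) :
    (p - 1) * R + (p - (be i j + be j i)) * min (t i) (t j) ≤ t i * t j + p ^ 2 := by
  obtain ⟨q, hq⟩ : ∃ q : ℕ, (q : ℤ) = p - (be i j + be j i) :=
    ⟨(p - (be i j + be j i)).toNat, Int.toNat_of_nonneg (by linarith)⟩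
  have h4 : q ≤ K.card + K'.card := by
    have : (q : ℤ) ≤ K.card + K'.card := by linarith
    exact_mod_cast this
  obtain ⟨L, hL, L', hL', hc⟩ : ∃ L ⊆ K, ∃ L' ⊆ K', L.card + L'.card = q := by
    rcases le_or_gt q K.card with h | h
    · obtain ⟨L, hL, h1⟩ := exists_subset_card_eq h
      exact ⟨L, hL, ∅, empty_subset _, by rw [h1, card_empty, add_zero]⟩
    · obtain ⟨L', hL', h1⟩ := exists_subset_card_eq (s := K') (n := q - K.card) (by omega)
      exact ⟨K, subset_rfl, L', hL', by omega⟩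
  have h5 := H.capF hi hj hij (hL.trans hK) (hL'.trans hK') (fun u hu => h1 u (hL hu))
    (fun u hu => h2 u (hL' hu))
  have h6 : (L.card : ℤ) + L'.card = q := by exact_mod_cast hc
  have h7 : be i j + be j i + L.card + L'.card = p := by linarith
  have g1 : (L.card : ℤ) * min (t i) (t j) ≤ L.card * t j :=
    mul_le_mul_of_nonneg_left (min_le_right _ _) (Nat.cast_nonneg _)
  have g2 : (L'.card : ℤ) * min (t i) (t j) ≤ L'.card * t i :=
    mul_le_mul_of_nonneg_left (min_le_left _ _) (Nat.cast_nonneg _)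
  have g3 : (p - (be i j + be j i)) * min (t i) (t j)
      = (L.card : ℤ) * min (t i) (t j) + L'.card * min (t i) (t j) := by
    rw [← add_mul, h6, hq]
  rw [h7] at h5
  rw [g3]
  linarith

/-- **all sub-amounts of a cell** -/
theorem capA (H : PCon R n t s mu U ho vl kp mn pc ar be kq NN sg nu) {i j : ℕ} (hi : i < n)
    (hj : j < n) (hij : i ≠ j) {K K' : Finset ι} (hK : K ⊆ U) (hK' : K' ⊆ U)
    (h1 : ∀ u ∈ K, ho u = i ∧ pc u = 0 ∧ kp j u = 1 ∧ ∀ l < n, l ≠ j → kp l u = 0)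
    (h2 : ∀ u ∈ K', ho u = j ∧ pc u = 0 ∧ kp i u = 1 ∧ ∀ l < n, l ≠ i → kp l u = 0)
    {p : ℤ} (hp : 1 ≤ p) (hpE : p ≤ be i j + be j i + K.card + K'.card) :
    p * R ≤ R + t i * t j + p ^ 2 := by
  rcases le_or_gt p (be i j + be j i) with h3 | h3
  · obtain ⟨q, rfl⟩ := Int.eq_ofNat_of_zero_le (show 0 ≤ p by linarith)
    have h4 := H.jsub i hi j hj hij q h3
    have h5 : ((q : ℤ) - 1) * R ≤ t i * t j + (q : ℤ) ^ 2 := h4
    show (q : ℤ) * R ≤ R + t i * t j + (q : ℤ) ^ 2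
    linarith
  · have h4 := H.capA' hi hj hij hK hK' h1 h2 h3.le hpE
    have h5 : 0 ≤ (p - (be i j + be j i)) * min (t i) (t j) :=
      mul_nonneg (by linarith) (le_min (H.t0 i hi) (H.t0 j hj))
    linarith

/-- **the closed cap** -/
theorem capE (H : PCon R n t s mu U ho vl kp mn pc ar be kq NN sg nu) {i j : ℕ} (hi : i < n)
    (hj : j < n) (hij : i ≠ j) {K K' : Finset ι} (hK : K ⊆ U) (hK' : K' ⊆ U)
    (h1 : ∀ u ∈ K, ho u = i ∧ pc u = 0 ∧ kp j u = 1 ∧ ∀ l < n, l ≠ j → kp l u = 0)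
    (h2 : ∀ u ∈ K', ho u = j ∧ pc u = 0 ∧ kp i u = 1 ∧ ∀ l < n, l ≠ i → kp l u = 0)
    (hj2 : 2 ≤ t j) (hji : t j ≤ t i) (hR : t i + t j + 3 ≤ R) :
    be i j + be j i + K.card + K'.card ≤ t j ∧
      (be i j + be j i + K.card + K'.card - 1) * (R - t j) ≤ t j * (t i + 1) :=
  ShCap.le_all hj2 hji hR fun _ hp hpE => H.capA hi hj hij hK hK' h1 h2 hp hpE

theorem capE1 (H : PCon R n t s mu U ho vl kp mn pc ar be kq NN sg nu) {i j : ℕ} (hi : i < n)
    (hj : j < n) (hij : i ≠ j) {K K' : Finset ι} (hK : K ⊆ U) (hK' : K' ⊆ U)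
    (h1 : ∀ u ∈ K, ho u = i ∧ pc u = 0 ∧ kp j u = 1 ∧ ∀ l < n, l ≠ j → kp l u = 0)
    (h2 : ∀ u ∈ K', ho u = j ∧ pc u = 0 ∧ kp i u = 1 ∧ ∀ l < n, l ≠ i → kp l u = 0)
    (hj1 : t j ≤ 1) (hR : t i + 5 ≤ R) : be i j + be j i + K.card + K'.card ≤ 1 :=
  ShCap.le_all1 hj1 (H.t0 i hi) hR fun _ hp hpE => H.capA hi hj hij hK hK' h1 h2 hp hpE

/-- **plain items of value one with any third ends**, with the PC pairs of the cell; pairs of one host -/
theorem cap1 (H : PCon R n t s mu U ho vl kp mn pc ar be kq NN sg nu) {i j : ℕ} (hi : i < n)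
    (hj : j < n) (hij : i ≠ j) {K K' : Finset ι} (hK : K ⊆ U) (hK' : K' ⊆ U)
    (h1 : ∀ u ∈ K, ho u = i ∧ pc u = 0 ∧ kp j u = 1 ∧ vl u = 1)
    (h2 : ∀ u ∈ K', ho u = j ∧ pc u = 0 ∧ kp i u = 1 ∧ vl u = 1) :
    2 * ((be i j + be j i + K.card + K'.card - 1) * R) + 2 * (K.card * t j + K'.card * t i)
      ≤ 2 * (t i * t j) + 2 * (be i j + be j i + K.card + K'.card) ^ 2
        + ((K.card : ℤ) + K'.card) * ((K.card : ℤ) + K'.card - 1) + 2 * (K.card * K'.card)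
        + 2 * ∑ u ∈ K, (mn j u + ∑ l ∈ ((range n).erase i).erase j, kp l u * be i l)
        + 2 * ∑ u ∈ K', (mn i u + ∑ l ∈ ((range n).erase i).erase j, kp l u * be j l) := by
  have e1 : ∀ {K : Finset ι}, (∀ u ∈ K, pc u = 0 ∧ vl u = 1) →
      K.filter (fun u => ((((fun _ => 1 : ι → ℕ) u : ℕ) : ℤ) = vl u ∧ pc u = 0)) = K := by
    intro K h
    refine filter_true_of_mem fun u hu => ⟨?_, (h u hu).1⟩
    rw [(h u hu).2]
    norm_num
  have hsv : SvC n vl kp pc i j (fun _ => 1) (fun _ => 1) K K'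
      ((K.card : ℤ) * (K.card - 1) + (K'.card : ℤ) * (K'.card - 1)) := by
    refine Or.inr (Or.inr ?_)
    rw [e1 fun u hu => ⟨(h1 u hu).2.1, (h1 u hu).2.2.2⟩,
      e1 fun u hu => ⟨(h2 u hu).2.1, (h2 u hu).2.2.2⟩]
  have h3 := H.capM1 hi hj hij hK hK' (fun u hu => ⟨(h1 u hu).1, (h1 u hu).2.1, (h1 u hu).2.2.1⟩)
    (fun u hu => ⟨(h2 u hu).1, (h2 u hu).2.1, (h2 u hu).2.2.1⟩) hsv
  nlinarith [h3]

/-- **plain items of value one**, Turan's saving over the rows `I` of all ends -/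
theorem cap1T (H : PCon R n t s mu U ho vl kp mn pc ar be kq NN sg nu) {i j : ℕ} (hi : i < n)
    (hj : j < n) (hij : i ≠ j) {K K' : Finset ι} (hK : K ⊆ U) (hK' : K' ⊆ U)
    (h1 : ∀ u ∈ K, ho u = i ∧ pc u = 0 ∧ kp j u = 1)
    (h2 : ∀ u ∈ K', ho u = j ∧ pc u = 0 ∧ kp i u = 1) {I : Finset ℕ} (hI : I ⊆ range n)
    (hiI : i ∈ I) (hjI : j ∈ I) (hIK : ∀ u ∈ K, ∀ l < n, kp l u ≠ 0 → l ∈ I)
    (hIK' : ∀ u ∈ K', ∀ l < n, kp l u ≠ 0 → l ∈ I) (q : ℤ) :
    2 * ((be i j + be j i + K.card + K'.card - 1) * R) + 2 * (K.card * t j + K'.card * t i)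
      ≤ 2 * (t i * t j) + 2 * (be i j + be j i) ^ 2 + 4 * (be i j + be j i) * (K.card + K'.card)
        + (2 * ((K.card : ℤ) + K'.card)) * (2 * ((K.card : ℤ) + K'.card) - 1 - 2 * q)
        + I.card * (q * (q + 1))
        + 2 * ∑ u ∈ K, (mn j u + ∑ l ∈ ((range n).erase i).erase j, kp l u * be i l)
        + 2 * ∑ u ∈ K', (mn i u + ∑ l ∈ ((range n).erase i).erase j, kp l u * be j l) := by
  have s1 : ∀ {K : Finset ι}, (∀ u ∈ K, pc u = 0) →
      ∑ u ∈ K, ((((fun _ => 1 : ι → ℕ) u : ℕ) : ℤ) + 1 - pc u) = 2 * K.card := by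
    intro K h
    rw [sum_congr rfl fun u hu => by rw [h u hu], sum_const, nsmul_eq_mul]
    push_cast
    ring
  have hsv : SvC n vl kp pc i j (fun _ => 1) (fun _ => 1) K K'
      (2 * q * (2 * K.card + 2 * K'.card) - I.card * (q * (q + 1))) := by
    refine Or.inr (Or.inl ⟨I, hI, hiI, hjI, hIK, hIK', q, ?_⟩)
    rw [s1 fun u hu => (h1 u hu).2.1, s1 fun u hu => (h2 u hu).2.1]
  have h3 := H.capM1 hi hj hij hK hK' h1 h2 hsv
  nlinarith [h3]

end PCon

end Pool.Agent.Lib.MP_f04ccf_co
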