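import Pool.Agent.Lib.MP_f04ccf_co.M.HubD
import Pool.Agent.Lib.MP_f04ccf_co.M.PCapF
import Pool.Agent.Lib.MP_f04ccf_co.M.UnI

/-!
MP_f04ccf_co, TEXT D, regime H: **the hub row of table M3**.

For a row `z` with `R ≤ 2 A z`, `C = R - A z`, `11 ≤ R`: if the row pays `C / (4 R)` for each of its hosted units
of value one with two ends, then it pays at most `d = mu z - s z`.

* `PCon.hub_e`: `C e ≤ 4 R d` for the plain value `e` hosted at `z`, unless `e = 1` and the block pairs fill `C`;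
* `PCon.hub_full`: in the exceptional case every other row has `t = 0` and one PC pair of host `z`;
* `PCon.hub_two`: then no item of value one with two ends is hosted at `z`;
* `PCon.hubRow`: the claim over the units.
-/

set_option autoImplicit false

namespace Pool.Agent.Lib.MP_f04ccf_co

open Finset

attribute [local instance] Classical.propDecidable

namespace PCon

variable {ι : Type*} {R : ℤ} {n : ℕ} {t s mu : ℕ → ℤ} {U : Finset ι} {ho : ι → ℕ} {vl : ι → ℤ}
  {kp mn : ℕ → ι → ℤ} {pc ar : ι → ℤ} {be kq NN sg : ℕ → ℕ → ℤ} {nu : ℕ → ι → ℤ}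
  {φ : ι → ℕ → ℤ} {g : ℕ → ι → ℕ} {f : ι → ℕ}

/-- the plain value `e` of a row with `2 C ≤ R` -/
theorem hub_e (H : PCon R n t s mu U ho vl kp mn pc ar be kq NN sg nu) {z : ℕ} (hz : z < n)
    {P e C : ℤ} (hP : P = ∑ l ∈ range n, (be z l - kq z l)) (he : e = mu z - ∑ l ∈ range n, be z l)
    (hC : C = R - (t z + 1)) (hR : 2 * C ≤ R) :
    C * e ≤ 4 * R * (mu z - s z) ∨ (e = 1 ∧ P = C) := by
  have h1 := H.hub_d hz hP he hC
  have h2 := H.bl_le hz
  rw [← hP, ← hC] at h2
  have h3 := H.plain_nonneg hz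
  rw [← he] at h3
  have h4 : 0 ≤ P := by
    rw [hP]
    exact sum_nonneg fun l hl => by
      have := H.kqb z hz l (mem_range.1 hl)
      linarith
  have h5 : P + e ≤ mu z := by
    have h6 : P = ∑ l ∈ range n, be z l - ∑ l ∈ range n, kq z l := by rw [hP, sum_sub_distrib]
    have h7 : 0 ≤ ∑ l ∈ range n, kq z l := sum_nonneg fun l hl => H.kq0 z hz l (mem_range.1 hl)
    linarith
  have h6 := H.glob1 hz
  rw [← hC] at h6
  have h7 := H.d_nonneg hz
  have h8 : 0 ≤ R := by
    have := H.t0 z hz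
    linarith
  obtain ⟨y, hy⟩ : ∃ y, y = C - P := ⟨_, rfl⟩
  obtain ⟨d, hd⟩ : ∃ d, d = mu z - s z := ⟨_, rfl⟩
  rw [← hd] at h1 h6 h7 ⊢
  have hCy : C = P + y := by linarith
  rcases le_or_gt (8 * (y + 1)) (7 * e) with h9 | h9
  · left
    have h10 : e ≤ 8 * d := by linarith
    have h11 : R * e ≤ R * (8 * d) := mul_le_mul_of_nonneg_left h10 h8
    have h12 : 2 * C * e ≤ R * e := mul_le_mul_of_nonneg_right hR h3
    nlinarith
  · rcases le_or_gt 1 y with h10 | h10
    · left
      have h11 : 0 ≤ P * (4 * y - e) := mul_nonneg h4 (by linarith)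
      have h12 : 0 ≤ e * (3 * y - 2 * e + 2) := mul_nonneg h3 (by linarith)
      have h13 : 0 ≤ (P + e) * d := mul_nonneg (by linarith) h7
      rw [hCy] at h1 ⊢
      nlinarith
    · have h11 : y = 0 := by linarith
      rcases le_or_gt 1 e with h12 | h12
      · right
        exact ⟨by linarith, by linarith⟩
      · left
        have h13 : e = 0 := by linarith
        rw [h13]
        have h14 : 0 ≤ R * d := mul_nonneg h8 h7
        linarith

/-- the block pairs fill the mass of the other rows -/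
theorem hub_full (H : PCon R n t s mu U ho vl kp mn pc ar be kq NN sg nu) {z : ℕ} (hz : z < n)
    (hP : ∑ l ∈ range n, (be z l - kq z l) = R - (t z + 1)) {l : ℕ} (hl : l < n) (hlz : l ≠ z) :
    t l = 0 ∧ be z l + be l z = 1 := by
  have h1 : t l = 0 := by
    by_contra hcon
    have h2 := H.t0 l hl
    have h3 := H.bl_lt hz hl hlz (by omega)
    linarith
  refine ⟨h1, ?_⟩
  have h2 := H.be_le hz hl (fun h => hlz h.symm)
  rw [h1] at h2
  have h0 := H.be0 z hz l hl
  have h0' := H.be0 l hl z hz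
  by_contra hcon
  have h3 : be z l + be l z < 1 := by omega
  have h4 : ∑ l ∈ (range n).erase z, (be z l - kq z l) < ∑ l ∈ (range n).erase z, (t l + 1) := by
    refine sum_lt_sum (fun i hi => ?_) ⟨l, mem_erase.2 ⟨hlz, mem_range.2 hl⟩, ?_⟩
    · obtain ⟨h5, h6⟩ := mem_erase.1 hi
      have h7 := H.be_le hz (mem_range.1 h6) (fun h => h5 h.symm)
      have h8 := H.kq0 z hz i (mem_range.1 h6)
      have h9 := H.be0 i (mem_range.1 h6) z hz
      linarith
    · have h8 := H.kq0 z hz l hl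
      rw [h1]
      linarith
  rw [sum_range_erase hz (H.bl_self hz).2] at hP
  have h5 := add_sum_erase (range n) (fun i => t i + 1) (mem_range.2 hz)
  have h6 := H.tsum
  beta_reduce at h5
  linarith

/-- then the row hosts no item of value one with two ends -/
theorem hub_two (H : PCon R n t s mu U ho vl kp mn pc ar be kq NN sg nu)
    (Lv : LevC n U ho vl kp mn pc φ g f) {z : ℕ} (hz : z < n) (h11 : 11 ≤ R)
    (hP : ∑ l ∈ range n, (be z l - kq z l) = R - (t z + 1)) {u : ι} (hu : u ∈ U)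
    (huz : ho u = z) (hp : twoE vl kp g f u) : False := by
  obtain ⟨m, hm, hmf, hmh, h1, -, h2, h3, h4⟩ := Lv.half H hu hp.1 hp.2
  have hf := Lv.fn u hu
  have hfh := Lv.fh u hu
  rw [huz] at hmh hfh
  have hpc : pc u = 0 := by
    rcases Lv.typ u hu with ⟨-, h6, -⟩ | h6
    · rw [h3] at h6
      exact absurd h6 (by norm_num)
    · exact h6.1
  obtain ⟨t1, b1⟩ := H.hub_full hz hP hm hmh
  obtain ⟨t2, b2⟩ := H.hub_full hz hP hf hfh
  have bz1 := H.be0 m hm z hz
  have bz2 := H.be0 (f u) hf z hz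
  -- the arcs
  have arc : ∀ i j : ℕ, i ≠ j → i ≠ z → j ≠ z → i < n → j < n → kp j u = 1 →
      be z j ≤ 1 → (∀ l < n, l ≠ i → l ≠ j → kp l u = 0) →
      ∑ l ∈ ((range n).erase z).erase i, kp l u * be z l ≤ 1 := by
    intro i j hij hiz hjz hi hj k1 k2 k3
    have e1 : j ∈ ((range n).erase z).erase i :=
      mem_erase.2 ⟨hij.symm, mem_erase.2 ⟨hjz, mem_range.2 hj⟩⟩
    rw [sum_eq_single_of_mem j e1, k1, one_mul]
    · exact k2
    · intro l hl hlj
      obtain ⟨h5, h6⟩ := mem_erase.1 hl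
      obtain ⟨-, h7⟩ := mem_erase.1 h6
      rw [k3 l (mem_range.1 h7) h5 hlj, zero_mul]
  have c1 := H.cap1 hz hm (fun h => hmh h.symm) (K := {u}) (K' := ∅)
    (singleton_subset_iff.2 hu) (empty_subset _)
    (fun v hv => by rw [mem_singleton.1 hv]; exact ⟨huz, hpc, h1, hp.1⟩)
    (fun v hv => absurd hv (notMem_empty v))
  have c2 := H.cap1 hz hf (fun h => hfh h.symm) (K := {u}) (K' := ∅)
    (singleton_subset_iff.2 hu) (empty_subset _)
    (fun v hv => by rw [mem_singleton.1 hv]; exact ⟨huz, hpc, h2, hp.1⟩)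
    (fun v hv => absurd hv (notMem_empty v))
  rw [card_singleton, card_empty, sum_singleton, sum_empty] at c1 c2
  have a1 := arc m (f u) hmf hmh hfh hm hf h2 (by linarith) fun l hl hl1 hl2 => (h4 l hl hl1 hl2).1
  have a2 := arc (f u) m hmf.symm hfh hmh hf hm h1 (by linarith)
    fun l hl hl1 hl2 => (h4 l hl hl2 hl1).1
  push_cast at c1 c2
  rw [b1, t1] at c1
  rw [b2, t2] at c2
  have h15 : mn m u + mn (f u) u ≤ R := by
    have h14 := H.m1 u hu hp.1
    have h16 : mn m u + ∑ i ∈ (range n).erase m, mn i u = ∑ i ∈ range n, mn i u :=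
      add_sum_erase (range n) (fun i => mn i u) (mem_range.2 hm)
    have h17 : mn (f u) u ≤ ∑ i ∈ (range n).erase m, mn i u :=
      single_le_sum (f := fun i => mn i u)
        (fun i hi => H.m0 u hu i (mem_range.1 (mem_of_mem_erase hi)))
        (mem_erase.2 ⟨hmf.symm, mem_range.2 hf⟩)
    linarith
  linarith

/-- **the hub row of table M3**: `C / (4 R)` for every hosted unit of value one with two ends -/
theorem hubRow (H : PCon R n t s mu U ho vl kp mn pc ar be kq NN sg nu)
    (Lv : LevC n U ho vl kp mn pc φ g f) {z : ℕ} (hz : z < n) (hR : R ≤ 2 * (t z + 1))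
    (h11 : 11 ≤ R) {F : Finset (ι × ℕ × ℕ)} (hF : F ⊆ unV n U g) :
    ((F.filter fun v => ho v.1 = z ∧ twoE vl kp g f v.1).card : ℝ)
      * (((R : ℝ) - ((t z : ℝ) + 1)) / (4 * (R : ℝ))) ≤ (mu z : ℝ) - s z := by
  obtain ⟨P, hP⟩ : ∃ P, P = ∑ l ∈ range n, (be z l - kq z l) := ⟨_, rfl⟩
  obtain ⟨e, he⟩ : ∃ e, e = mu z - ∑ l ∈ range n, be z l := ⟨_, rfl⟩
  obtain ⟨C, hC⟩ : ∃ C, C = R - (t z + 1) := ⟨_, rfl⟩
  obtain ⟨N, hN⟩ : ∃ N : ℕ, N = (F.filter fun v => ho v.1 = z ∧ twoE vl kp g f v.1).card :=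
    ⟨_, rfl⟩
  -- the units are plain hosted items of value one
  have hpc : ∀ u ∈ U, twoE vl kp g f u → pc u = 0 := by
    intro u hu hp
    rcases Lv.typ u hu with ⟨-, h6, -⟩ | h6
    · rw [(Lv.cut_one H hu hp.1 hp.2).1] at h6
      exact absurd h6 (by norm_num)
    · exact h6.1
  have h1 : N ≤ ((U.filter fun u => ho u = z ∧ pc u = 0).filter fun u => vl u = 1).card := by
    rw [hN]
    refine card_le_card_of_injOn (fun v => v.1) (fun v hv => ?_) fun v hv w hw hvw => ?_
    · obtain ⟨h2, h3, h4⟩ := mem_filter.1 (mem_coe.1 hv)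
      have h5 := (LevC.mem_unV (hF h2)).1
      exact mem_coe.2 (mem_filter.2 ⟨mem_filter.2 ⟨h5, h3, hpc _ h5 h4⟩, h4.1⟩)
    · obtain ⟨h2, -, h4⟩ := mem_filter.1 (mem_coe.1 hv)
      obtain ⟨h5, -, -⟩ := mem_filter.1 (mem_coe.1 hw)
      exact (Lv.unp H).inj (hF h2) (hF h5) h4.1 hvw
  have h2 : (((U.filter fun u => ho u = z ∧ pc u = 0).filter fun u => vl u = 1).card : ℤ) ≤ e := by
    rw [he, H.plain_val hz, card_eq_sum_ones]
    push_cast
    refine (sum_le_sum_of_subset_of_nonneg (filter_subset _ _) fun _ _ _ => zero_le_one).trans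
      (sum_le_sum fun u hu => H.v1 u (mem_filter.1 hu).1)
  have h3 : (N : ℤ) ≤ e := by
    have : (N : ℤ) ≤ (((U.filter fun u => ho u = z ∧ pc u = 0).filter fun u => vl u = 1).card : ℤ) :=
      by exact_mod_cast h1
    exact this.trans h2
  have hC0 : 0 ≤ C := by
    have h4 := H.bl_le hz
    rw [← hP, ← hC] at h4
    have h5 : 0 ≤ P := by
      rw [hP]
      exact sum_nonneg fun l hl => by
        have := H.kqb z hz l (mem_range.1 hl)
        linarith
    linarith
  have h4 : C * N ≤ 4 * R * (mu z - s z) := by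
    rcases H.hub_e hz hP he hC (by linarith) with h5 | ⟨h5, h6⟩
    · exact (mul_le_mul_of_nonneg_left h3 hC0).trans h5
    · rcases Nat.eq_zero_or_pos N with h7 | h7
      · rw [h7]
        have h8 := H.d_nonneg hz
        have h9 : 0 ≤ R * (mu z - s z) := mul_nonneg (by linarith) h8
        push_cast
        linarith
      · rw [hN] at h7
        obtain ⟨v, hv⟩ := card_pos.1 h7
        obtain ⟨h8, h9, h10⟩ := mem_filter.1 hv
        rw [hP, hC] at h6
        exact (H.hub_two Lv hz h11 h6 (LevC.mem_unV (hF h8)).1 h9 h10).elim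
  have hR0 : (0 : ℝ) < R := by
    have : 0 < R := by linarith
    exact_mod_cast this
  have h5 : (C : ℝ) * N ≤ 4 * R * ((mu z : ℝ) - s z) := by exact_mod_cast h4
  have h6 : (R : ℝ) - ((t z : ℝ) + 1) = C := by
    rw [hC]
    push_cast
    ring
  rw [← hN, h6, ← mul_div_assoc, div_le_iff₀ (by linarith)]
  linarith

end PCon

end Pool.Agent.Lib.MP_f04ccf_co
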