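import Pool.Agent.Lib.MP_f04ccf_co.M.HubX

/-!
MP_f04ccf_co, TEXT D, regime H: **the room of a row: K2 of the cell `{i, j}` with the items of both homes, in numbers.**

Letters: `K` plain items of the host `i` with an end at `j` (any value, used at level one), `K'` plain items of the
host `j` with an end at `i`, `M = #K`, `M' = #K'`, `N`, `N'` those of value one, `β` the PC pairs of the cell.

* `PConC.roomM`: with the PC pairs of both homes;
* `PConC.roomC`: without PC pairs;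
* `PConC.roomM1`, `PConC.roomC1`: value one, in the form `R (β + N + 2 N' - A j) ≤ ...`, `C = R - A i`.
-/

set_option autoImplicit false

namespace Pool.Agent.Lib.MP_f04ccf_co

open Finset

attribute [local instance] Classical.propDecidable

section HubRoomS

variable {ι : Type*} {R : ℤ} {n : ℕ} {t s mu : ℕ → ℤ} {U : Finset ι} {ho : ι → ℕ} {vl : ι → ℤ}
  {kp mn : ℕ → ι → ℤ} {pc ar : ι → ℤ} {be kq NN sg : ℕ → ℕ → ℤ} {nu : ℕ → ι → ℤ}

private lemma lev_one (H : PConC R n t s mu U ho vl kp mn pc ar be kq NN sg nu) {j : ℕ} (hj : j < n)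
    {u : ι} (hu : u ∈ U) (hk : kp j u ≠ 0) : (((fun _ : ι => (1 : ℕ)) u : ℕ) : ℤ) ≤ kp j u := by
  have h1 := H.k0 u hu j hj
  push_cast
  omega

private lemma msP_le (H : PConC R n t s mu U ho vl kp mn pc ar be kq NN sg nu) {j : ℕ} (hj : j < n)
    {u : ι} (hu : u ∈ U) : msP kp mn j (fun _ => 1) u ≤ mn j u := by
  unfold msP
  have h1 := H.m0 u hu j hj
  split_ifs
  · exact le_rfl
  · exact h1

private lemma sum_two {K : Finset ι} {M : ℤ} (hM : M = (K.card : ℤ)) :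
    ∑ u ∈ K, (((fun _ : ι => (1 : ℕ)) u : ℤ) + 1) = 2 * M := by
  rw [hM, mul_comm, ← nsmul_eq_mul, ← sum_const]
  exact sum_congr rfl fun u hu => by norm_num

private lemma filt_one {K : Finset ι} (hp : ∀ u ∈ K, pc u = 0) :
    K.filter (fun u => (((fun _ : ι => (1 : ℕ)) u : ℕ) : ℤ) = vl u ∧ pc u = 0)
      = K.filter fun u => vl u = 1 := by
  refine filter_congr fun u hu => ?_
  have h1 := hp u hu
  constructor
  · rintro ⟨h2, -⟩
    push_cast at h2
    exact h2.symm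
  · intro h2
    refine ⟨?_, h1⟩
    push_cast
    exact h2.symm

/-- **K2 of a cell, both homes, with the PC pairs of the cell** -/
theorem PConC.roomM (H : PConC R n t s mu U ho vl kp mn pc ar be kq NN sg nu) {i j : ℕ}
    (hi : i < n) (hj : j < n) (hij : i ≠ j) {K K' : Finset ι} (hK : K ⊆ U)
    (hKi : ∀ u ∈ K, ho u = i ∧ pc u = 0 ∧ kp j u ≠ 0) (hK' : K' ⊆ U)
    (hKj : ∀ u ∈ K', ho u = j ∧ pc u = 0 ∧ kp i u ≠ 0) {M M' N N' β : ℤ}
    (hM : M = (K.card : ℤ)) (hM' : M' = (K'.card : ℤ))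
    (hN : N = ((K.filter fun u => vl u = 1).card : ℤ))
    (hN' : N' = ((K'.filter fun u => vl u = 1).card : ℤ)) (hβ : β = be i j + be j i) :
    (β - 1) * R + ∑ u ∈ K, (R + t j - mn j u
        - ∑ l ∈ ((range n).erase i).erase j, kp l u * be i l)
      + ∑ u ∈ K', (R + t i - mn i u - ∑ l ∈ ((range n).erase i).erase j, kp l u * be j l)
      + N * (N - 1) + N' * (N' - 1)
      ≤ t i * t j + β ^ 2 + 2 * β * (M + M') + (M + M') * (2 * (M + M') - 1) := by
  have h0 := H.capMC i hi j hj hij K hK (fun u hu => ⟨(hKi u hu).1, (hKi u hu).2.1⟩) K' hK'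
    (fun u hu => ⟨(hKj u hu).1, (hKj u hu).2.1⟩) (fun _ => 1) (fun _ => 1) (fun _ _ => le_rfl)
    (fun u hu => lev_one H hj (hK hu) (hKi u hu).2.2) (fun _ _ => le_rfl)
    (fun u hu => lev_one H hi (hK' hu) (hKj u hu).2.2)
    (2 * (N * (N - 1)) + 2 * (N' * (N' - 1))) (Or.inr (Or.inr (by
      rw [filt_one fun u hu => (hKi u hu).2.1, filt_one fun u hu => (hKj u hu).2.1, ← hN, ← hN'])))
  have e1 : ∑ u ∈ K, (R + t j - mn j u - ∑ l ∈ ((range n).erase i).erase j, kp l u * be i l)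
      ≤ ∑ u ∈ K, (R * ((fun _ : ι => (1 : ℕ)) u : ℤ) + t j - msP kp mn j (fun _ => 1) u
        - ∑ l ∈ ((range n).erase i).erase j, kp l u * be i l) := by
    refine sum_le_sum fun u hu => ?_
    have h3 := msP_le H hj (hK hu)
    push_cast
    linarith
  have e2 : ∑ u ∈ K', (R + t i - mn i u - ∑ l ∈ ((range n).erase i).erase j, kp l u * be j l)
      ≤ ∑ u ∈ K', (R * ((fun _ : ι => (1 : ℕ)) u : ℤ) + t i - msP kp mn i (fun _ => 1) u
        - ∑ l ∈ ((range n).erase i).erase j, kp l u * be j l) := by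
    refine sum_le_sum fun u hu => ?_
    have h3 := msP_le H hi (hK' hu)
    push_cast
    linarith
  rw [sum_two hM, sum_two hM', ← hβ] at h0
  nlinarith [h0, e1, e2]

/-- **K2 of a cell, both homes, without PC pairs** -/
theorem PConC.roomC (H : PConC R n t s mu U ho vl kp mn pc ar be kq NN sg nu) {i j : ℕ}
    (hi : i < n) (hj : j < n) (hij : i ≠ j) {K K' : Finset ι} (hK : K ⊆ U)
    (hKi : ∀ u ∈ K, ho u = i ∧ pc u = 0 ∧ kp j u ≠ 0) (hK' : K' ⊆ U)
    (hKj : ∀ u ∈ K', ho u = j ∧ pc u = 0 ∧ kp i u ≠ 0) {M M' N N' : ℤ}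
    (hM : M = (K.card : ℤ)) (hM' : M' = (K'.card : ℤ))
    (hN : N = ((K.filter fun u => vl u = 1).card : ℤ))
    (hN' : N' = ((K'.filter fun u => vl u = 1).card : ℤ)) :
    ∑ u ∈ K, (R + t j - mn j u - ar u) + ∑ u ∈ K', (R + t i - mn i u - ar u)
      + N * (N - 1) + N' * (N' - 1)
      ≤ R + t i * t j + (M + M') * (2 * (M + M') - 1) := by
  have h0 := H.capC i hi j hj hij K hK (fun u hu => (hKi u hu).1) K' hK'
    (fun u hu => (hKj u hu).1) (fun _ => 1) (fun _ => 1) (fun _ _ => le_rfl)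
    (fun u hu => lev_one H hj (hK hu) (hKi u hu).2.2) (fun _ _ => le_rfl)
    (fun u hu => lev_one H hi (hK' hu) (hKj u hu).2.2) 0 (Or.inl le_rfl)
    (2 * (N * (N - 1)) + 2 * (N' * (N' - 1))) (Or.inr (Or.inr (by
      rw [filt_one fun u hu => (hKi u hu).2.1, filt_one fun u hu => (hKj u hu).2.1, ← hN, ← hN'])))
  have e1 : ∑ u ∈ K, (R + t j - mn j u - ar u)
      ≤ ∑ u ∈ K, (R * ((fun _ : ι => (1 : ℕ)) u : ℤ) + (1 - pc u) * t j
        - msP kp mn j (fun _ => 1) u - ar u) := by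
    refine sum_le_sum fun u hu => ?_
    have h3 := msP_le H hj (hK hu)
    rw [(hKi u hu).2.1]
    push_cast
    linarith
  have e2 : ∑ u ∈ K', (R + t i - mn i u - ar u)
      ≤ ∑ u ∈ K', (R * ((fun _ : ι => (1 : ℕ)) u : ℤ) + (1 - pc u) * t i
        - msP kp mn i (fun _ => 1) u - ar u) := by
    refine sum_le_sum fun u hu => ?_
    have h3 := msP_le H hi (hK' hu)
    rw [(hKj u hu).2.1]
    push_cast
    linarith
  have e3 : ∑ u ∈ K, (((fun _ : ι => (1 : ℕ)) u : ℤ) + 1 - pc u) = 2 * M := by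
    rw [← sum_two hM]
    exact sum_congr rfl fun u hu => by rw [(hKi u hu).2.1, sub_zero]
  have e4 : ∑ u ∈ K', (((fun _ : ι => (1 : ℕ)) u : ℤ) + 1 - pc u) = 2 * M' := by
    rw [← sum_two hM']
    exact sum_congr rfl fun u hu => by rw [(hKj u hu).2.1, sub_zero]
  have e5 : ∑ u ∈ K, pc u = 0 := sum_eq_zero fun u hu => (hKi u hu).2.1
  have e6 : ∑ u ∈ K', pc u = 0 := sum_eq_zero fun u hu => (hKj u hu).2.1
  rw [e3, e4, e5, e6] at h0
  nlinarith [h0, e1, e2]

/-- **the room of the row `j`, value one, with the PC pairs of the cell**: `C = R - A i` -/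
theorem PConC.roomM1 (H : PConC R n t s mu U ho vl kp mn pc ar be kq NN sg nu) {i j : ℕ}
    (hi : i < n) (hj : j < n) (hij : i ≠ j) {K K' : Finset ι} (hK : K ⊆ U)
    (hKi : ∀ u ∈ K, ho u = i ∧ pc u = 0 ∧ vl u = 1 ∧ kp j u ≠ 0) (hK' : K' ⊆ U)
    (hKj : ∀ u ∈ K', ho u = j ∧ pc u = 0 ∧ vl u = 1 ∧ kp i u ≠ 0) {N N' β C : ℤ}
    (hN : N = (K.card : ℤ)) (hN' : N' = (K'.card : ℤ)) (hβ : β = be i j + be j i)
    (hC : C = R - (t i + 1)) :
    R * (β + N + 2 * N' - (t j + 1)) ≤ (β + N + N') ^ 2 + 2 * (N * N')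
      - (C + 1 + N) * t j + (C + 1) * N'
      + ∑ u ∈ K, (mn j u + ∑ l ∈ ((range n).erase i).erase j, kp l u * be i l)
      + ∑ u ∈ K', (mn i u + ∑ l ∈ ((range n).erase i).erase j, kp l u * be j l) := by
  have f1 : K.filter (fun u => vl u = 1) = K := filter_true_of_mem fun u hu => (hKi u hu).2.2.1
  have f2 : K'.filter (fun u => vl u = 1) = K' := filter_true_of_mem fun u hu => (hKj u hu).2.2.1
  have h0 := H.roomM hi hj hij hK (fun u hu => ⟨(hKi u hu).1, (hKi u hu).2.1, (hKi u hu).2.2.2⟩) hK'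
    (fun u hu => ⟨(hKj u hu).1, (hKj u hu).2.1, (hKj u hu).2.2.2⟩) hN hN' (N := N) (N' := N')
    (by rw [f1]; exact hN) (by rw [f2]; exact hN') hβ
  have e1 : ∑ u ∈ K, (R + t j - mn j u - ∑ l ∈ ((range n).erase i).erase j, kp l u * be i l)
      = N * (R + t j)
        - ∑ u ∈ K, (mn j u + ∑ l ∈ ((range n).erase i).erase j, kp l u * be i l) := by
    rw [hN, ← nsmul_eq_mul, ← sum_const, ← sum_sub_distrib]
    exact sum_congr rfl fun u hu => by ring
  have e2 : ∑ u ∈ K', (R + t i - mn i u - ∑ l ∈ ((range n).erase i).erase j, kp l u * be j l)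
      = N' * (R + t i)
        - ∑ u ∈ K', (mn i u + ∑ l ∈ ((range n).erase i).erase j, kp l u * be j l) := by
    rw [hN', ← nsmul_eq_mul, ← sum_const, ← sum_sub_distrib]
    exact sum_congr rfl fun u hu => by ring
  rw [e1, e2] at h0
  have e3 : t i = R - C - 1 := by rw [hC]; ring
  rw [e3] at h0
  nlinarith [h0]

/-- **the room of the row `j`, value one, without PC pairs**: `C = R - A i` -/
theorem PConC.roomC1 (H : PConC R n t s mu U ho vl kp mn pc ar be kq NN sg nu) {i j : ℕ}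
    (hi : i < n) (hj : j < n) (hij : i ≠ j) {K K' : Finset ι} (hK : K ⊆ U)
    (hKi : ∀ u ∈ K, ho u = i ∧ pc u = 0 ∧ vl u = 1 ∧ kp j u ≠ 0) (hK' : K' ⊆ U)
    (hKj : ∀ u ∈ K', ho u = j ∧ pc u = 0 ∧ vl u = 1 ∧ kp i u ≠ 0) {N N' C : ℤ}
    (hN : N = (K.card : ℤ)) (hN' : N' = (K'.card : ℤ)) (hC : C = R - (t i + 1)) :
    R * (N + 2 * N' - (t j + 1)) ≤ (N + N') ^ 2 + 2 * (N * N')
      - (C + 1 + N) * t j + (C + 1) * N'
      + ∑ u ∈ K, (mn j u + ar u) + ∑ u ∈ K', (mn i u + ar u) := by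
  have f1 : K.filter (fun u => vl u = 1) = K := filter_true_of_mem fun u hu => (hKi u hu).2.2.1
  have f2 : K'.filter (fun u => vl u = 1) = K' := filter_true_of_mem fun u hu => (hKj u hu).2.2.1
  have h0 := H.roomC hi hj hij hK (fun u hu => ⟨(hKi u hu).1, (hKi u hu).2.1, (hKi u hu).2.2.2⟩) hK'
    (fun u hu => ⟨(hKj u hu).1, (hKj u hu).2.1, (hKj u hu).2.2.2⟩) hN hN' (N := N) (N' := N')
    (by rw [f1]; exact hN) (by rw [f2]; exact hN')
  have e1 : ∑ u ∈ K, (R + t j - mn j u - ar u) = N * (R + t j) - ∑ u ∈ K, (mn j u + ar u) := by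
    rw [hN, ← nsmul_eq_mul, ← sum_const, ← sum_sub_distrib]
    exact sum_congr rfl fun u hu => by ring
  have e2 : ∑ u ∈ K', (R + t i - mn i u - ar u) = N' * (R + t i) - ∑ u ∈ K', (mn i u + ar u) := by
    rw [hN', ← nsmul_eq_mul, ← sum_const, ← sum_sub_distrib]
    exact sum_congr rfl fun u hu => by ring
  rw [e1, e2] at h0
  have e3 : t i = R - C - 1 := by rw [hC]; ring
  rw [e3] at h0
  nlinarith [h0]

end HubRoomS

end Pool.Agent.Lib.MP_f04ccf_co
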