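import Pool.Agent.Lib.MP_f04ccf_co.M.UnC
import Pool.Agent.Lib.MP_f04ccf_co.M.HubS

/-!
MP_f04ccf_co, TEXT D: **the exact row test of a row in numbers, concentrated packings, all Konig pairs left.**

Letters of a row `z`: `c = R - A z`, `d = mu z - s z`, `P` the block pairs, `e` the plain value, `N` the plain items
hosted by `z`, `M = P + e`, `S` the used units, `k = #S`.

* `PConC.rowT1`: `2 c (M + k) - (M + 2 k)² + e + N (N - 1) + sv - 2 B - ∑ p² ≤ 2 (R - M - 2 k) d`, if `d ≤ M + k`;
* `PConC.rowT0`: nothing used.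
-/

set_option autoImplicit false

namespace Pool.Agent.Lib.MP_f04ccf_co

open Finset

attribute [local instance] Classical.propDecidable

section HubTS

variable {ι κ : Type*} {R : ℤ} {n : ℕ} {t s mu : ℕ → ℤ} {U : Finset ι} {ho : ι → ℕ} {vl : ι → ℤ}
  {kp mn : ℕ → ι → ℤ} {pc ar : ι → ℤ} {be kq NN sg : ℕ → ℕ → ℤ} {nu : ℕ → ι → ℤ}
  {V : Finset κ} {it : κ → ι} {C : κ → Finset ℕ} {bt ht : κ → ℕ → ℤ} {z : ℕ} {S : Finset κ}

/-- **the exact row test in numbers** (all Konig pairs left, everything else kept, the units `S` used) -/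
theorem PConC.rowT1 (H : PConC R n t s mu U ho vl kp mn pc ar be kq NN sg nu)
    (hV : UnP R n t U ho vl kp mn V it C bt ht) (hz : z < n)
    (hS : S ⊆ V.filter fun v => z ∈ C v) {P e N k M c d : ℤ}
    (hP : P = ∑ l ∈ range n, (be z l - kq z l)) (he : e = mu z - ∑ l ∈ range n, be z l)
    (hN : N = ((U.filter fun u => ho u = z ∧ pc u = 0).card : ℤ)) (hk : k = (S.card : ℤ))
    (hM : M = P + e) (hc : c = R - (t z + 1)) (hd : d = mu z - s z) (hp : d ≤ M + k) :
    2 * (c * (M + k)) - (M + 2 * k) ^ 2 + e + N * (N - 1)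
        + (svU n ho vl it S + svU n ho vl it (S.filter fun v => pc (it v) = 0))
        - 2 * ∑ v ∈ S, bt v z - ∑ l ∈ range n, (be z l - kq z l) ^ 2
      ≤ 2 * ((R - (M + 2 * k)) * d) := by
  have e0 : M = mu z - ∑ l ∈ range n, kq z l := by
    rw [hM, hP, he, sum_sub_distrib]
    ring
  have h1 := H.unT2 hV hz hS (X := range n) (Y := ∅) (Subset.refl _) (empty_subset _) (D := ∅)
    (empty_subset _) (fun u hu => absurd hu (notMem_empty u)) (by
      simp only [sum_empty, add_zero]
      rw [← hk]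
      linarith)
  have h2 : (range n).erase z \ range n = ∅ := sdiff_eq_empty_iff_subset.2 (erase_subset _ _)
  have h3 : range n \ (∅ : Finset ℕ) = range n := sdiff_empty
  have h4 := minP_ge (ho := ho) (pc := pc) (z := z) (D := (∅ : Finset ι)) H.v1
  have h5 : (U.filter fun u => ho u = z ∧ u ∉ (∅ : Finset ι) ∧ pc u = 0)
      = U.filter fun u => ho u = z ∧ pc u = 0 :=
    filter_congr fun u _ => ⟨fun h => ⟨h.1, h.2.2⟩, fun h => ⟨h.1, notMem_empty u, h.2⟩⟩
  unfold kpPl at h4
  rw [h5, ← hN] at h4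
  unfold TstP at h1
  rw [h2, h3] at h1
  simp only [sum_empty, sub_zero, add_zero, mul_zero, zero_mul] at h1
  have e1 : ∑ l ∈ range n, (be z l - kq z l) * (be z l - kq z l + 1)
      = ∑ l ∈ range n, (be z l - kq z l) ^ 2 + P := by
    rw [hP, ← sum_add_distrib]
    exact sum_congr rfl fun l _ => by ring
  rw [e1, ← e0, ← hk] at h1
  have e2 : s z - ∑ l ∈ range n, kq z l + k = M + k - d := by
    rw [hd]
    linarith
  rw [e2] at h1
  have e3 : t z + 1 = R - c := by rw [hc]; ring
  rw [e3] at h1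
  have e4 : e = M - P := by rw [hM]; ring
  rw [e4]
  nlinarith [h1, h4]

/-- **the exact row test in numbers, nothing used** -/
theorem PConC.rowT0 (H : PConC R n t s mu U ho vl kp mn pc ar be kq NN sg nu)
    (hV : UnP R n t U ho vl kp mn V it C bt ht) (hz : z < n) {P e N M c d : ℤ}
    (hP : P = ∑ l ∈ range n, (be z l - kq z l)) (he : e = mu z - ∑ l ∈ range n, be z l)
    (hN : N = ((U.filter fun u => ho u = z ∧ pc u = 0).card : ℤ))
    (hM : M = P + e) (hc : c = R - (t z + 1)) (hd : d = mu z - s z) (hp : d ≤ M) :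
    2 * (c * M) - M ^ 2 + e + N * (N - 1) - ∑ l ∈ range n, (be z l - kq z l) ^ 2
      ≤ 2 * ((R - M) * d) := by
  have h1 := H.rowT1 hV hz (empty_subset _) hP he hN (k := 0) (by simp) hM hc hd (by linarith)
  have h2 : svU n ho vl it (∅ : Finset κ) = 0 := by simp [svU]
  have h3 : ((∅ : Finset κ).filter fun v => pc (it v) = 0) = ∅ := filter_empty _
  rw [h3, h2] at h1
  simp only [sum_empty, mul_zero, add_zero, sub_zero] at h1
  exact h1

end HubTS

end Pool.Agent.Lib.MP_f04ccf_co
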