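import Mathlib

/-!
MP_f04ccf_co, TEXT D, regime H, **RULE 3 gives every row `z ≥ 2` at least its value `V`** (pure inequalities).

Letters: `R`, the hub `A1`, the row `A`, the rest `r = R - A1 - A`, `Cc = R - A1 = A + r`, `c = R - A`.
The mixture `r T_z + A P_z` (`T_z` the exact row test with all ends used, `P_z` the row test with the columns of
the hub, hosted items kept, ends of third hosts left out) has the left side `Cc c p + ..` and per unit
* hub unit hosted at the hub, own misses `b`: `Cc b - A`;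
* hub unit hosted at `z`, hub misses `b1 ≤ Cc + 1`: `A (b1 - 1)`;
* unit hosted at `z` without an end at the hub: `A Cc`;
* served unit of a third host, own misses `b`: `A c + r b - A`.
RULE 3: `D = A_host` or `A_end + b`, complement `(number of counted rows - 1) D / T`, `T` the sum of the `D`.
-/

set_option autoImplicit false

namespace Pool.Agent.Lib.MP_f04ccf_co

namespace HubV

variable {R A1 A r b b1 b' X Y D Dw T : ℝ}

/-- three counted rows, no negative share: the complement is at least the one of the two rows alone -/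
lemma two_one (hD : 0 ≤ D) (hDw : 0 ≤ Dw) (hT : 0 < T - Dw) (h : 2 * Dw ≤ T) :
    D / (T - Dw) ≤ 2 * D / T := by
  have hT' : 0 < T := by linarith
  rw [div_le_div_iff₀ hT hT']
  nlinarith [mul_nonneg hD (show (0 : ℝ) ≤ T - 2 * Dw by linarith)]

/-- the value of the mixture for a unit: coefficients of `T_z` and `P_z` -/
lemma mix_hub (h : R = A1 + A + r) : r * (A + b) + A * (A + b - (R - A1 + 1)) = (R - A1) * b - A := by
  subst h
  ring

lemma mix_host (h : R = A1 + A + r) : r * A + A * (A + b1 - (R - A1 + 1)) = A * (b1 - 1) := by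
  subst h
  ring

lemma mix_third (h : R = A1 + A + r) : r * A + A * A = A * (R - A1) := by
  subst h
  ring

lemma mix_served (h : R = A1 + A + r) :
    r * (A + b) + A * (A1 - 1) = A * (R - A) + r * b - A := by
  subst h
  ring

lemma mix_left (h : R = A1 + A + r) :
    r * R + A * (A1 - 1) = (R - A1) * (R - A) - A := by
  subst h
  ring

/-- hub unit hosted at the hub, `z` counted -/
lemma hub_hosted (hA : 0 < A) (hA1 : 0 ≤ A1) (h : R = A1 + A + r) (hb : 0 ≤ b) (hbr : b ≤ r) :
    b / (R - A) ≤ (A + b) / (A1 + (A + b)) := by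
  have hc : 0 < R - A ∨ R - A = 0 := by
    rcases lt_or_ge 0 (R - A) with h1 | h1
    · exact Or.inl h1
    · exact Or.inr (le_antisymm h1 (by linarith))
  rcases hc with hc | hc
  · rw [div_le_div_iff₀ hc (by linarith)]
    have e : (A + b) * (R - A) - b * (A1 + (A + b)) = A * (R - A - b) + b * (r - b) := by
      rw [h]
      ring
    have h1 : 0 ≤ A * (R - A - b) := mul_nonneg hA.le (by linarith)
    have h2 : 0 ≤ b * (r - b) := mul_nonneg hb (by linarith)
    linarith
  · rw [hc, div_zero]
    exact div_nonneg (by linarith) (by linarith)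

/-- hub unit hosted at `z`, hub counted -/
lemma host_hub (hA : 0 < A) (hA1 : 0 < A1) (h : R = A1 + A + r) (hb : 0 ≤ b1) (hbr : b1 ≤ r) :
    A * b1 / ((R - A1) * (R - A)) ≤ A / (A + (A1 + b1)) := by
  have h1 : 0 < R - A1 := by linarith
  have h2 : 0 < R - A := by linarith
  rw [div_le_div_iff₀ (mul_pos h1 h2) (by linarith)]
  have e : A * ((R - A1) * (R - A)) - A * b1 * (A + (A1 + b1))
      = A * ((A + r) * A1 + (A + r) * r - b1 * (A + A1 + b1)) := by
    rw [h]
    ring
  have h3 : b1 * (A + A1 + b1) ≤ r * (A + A1 + r) := by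
    have h4 : 0 ≤ (r - b1) * (A + A1 + r + b1) := mul_nonneg (by linarith) (by linarith)
    nlinarith
  have h5 : r * (A + A1 + r) ≤ (A + r) * A1 + (A + r) * r := by
    nlinarith [mul_pos hA hA1]
  nlinarith [mul_le_mul_of_nonneg_left (h3.trans h5) hA.le]

/-- hub unit hosted at `z`, the hub not counted, the thin end `Y` counted with misses `b'` -/
lemma host_end (hA : 0 < A) (hY : 0 ≤ Y) (hb' : 0 ≤ b')
    (hrow : A + Y + 2 ≤ R - A1) (hhub : 2 * (R - A1) + 1 ≤ R)
    (hbc : b1 ≤ R - A1 + 1) (hp : b1 * b' ≤ A1 * Y + (R - A1 - Y) + 1) :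
    A * b1 / ((R - A1) * (R - A)) ≤ A / (A + (Y + b')) := by
  have h1 : 0 < R - A1 := by linarith
  have h2 : 0 < R - A := by linarith
  rw [div_le_div_iff₀ (mul_pos h1 h2) (by linarith)]
  have h3 : b1 * (A + (Y + b')) ≤ (R - A1) * (R - A) := by
    have h4 : b1 * (A + Y) ≤ (R - A1 + 1) * (A + Y) :=
      mul_le_mul_of_nonneg_right hbc (by linarith)
    have h5 : 0 ≤ (R - A1 - Y - A - 2) * R := mul_nonneg (by linarith) (by linarith)
    have h6 : 0 ≤ A * (R - 2 * (R - A1) - 1) := mul_nonneg hA.le (by linarith)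
    nlinarith
  nlinarith [mul_le_mul_of_nonneg_left h3 hA.le]

/-- unit hosted at `z` without an end at the hub, the end `Y` counted -/
lemma host_third (hA : 0 < A) (hY : 0 ≤ Y) (hb : 0 ≤ b) (hs : b ≤ R - 2 * A - Y) :
    A / (R - A) ≤ A / (A + (Y + b)) :=
  div_le_div_of_nonneg_left hA.le (by linarith) (by linarith)

/-- **the identity of the served thirds**: host `X`, own misses `b` -/
lemma served_id (h : R = A1 + A + r) :
    (A + b) * ((R - A1) * (R - A)) - (A * (R - A) + r * b) * (X + (A + b))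
      = A * (R - A) * (r - X) + r * b * (R - 2 * A - X - b) := by
  rw [h]
  ring

/-- served unit of a third host `X`, own misses `b` -/
lemma served (hA : 0 < A) (hX : 0 ≤ X) (h : R = A1 + A + r) (hA1 : 0 ≤ A1) (hXr : X ≤ r)
    (hb : 0 ≤ b)
    (hs : b ≤ R - 2 * A - X ∨ r * b ≤ (R - A) * (r - X) ∧ b ≤ R - A - X) :
    (A * (R - A) + r * b) / ((R - A1) * (R - A)) ≤ (A + b) / (X + (A + b)) := by
  have hr : 0 ≤ r := hX.trans hXr
  have h1 : 0 < R - A1 := by linarith
  rcases eq_or_lt_of_le (show (0 : ℝ) ≤ R - A by linarith) with h2 | h2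
  · rw [← h2, mul_zero ((R - A1) : ℝ), div_zero]
    exact div_nonneg (by linarith) (by linarith)
  · rw [div_le_div_iff₀ (mul_pos h1 h2) (by linarith)]
    have e := served_id (b := b) (X := X) h
    have h3 : 0 ≤ A * (R - A) * (r - X) :=
      mul_nonneg (mul_nonneg hA.le h2.le) (by linarith)
    rcases hs with hs | ⟨hs, hs'⟩
    · have h4 : 0 ≤ r * b * (R - 2 * A - X - b) := mul_nonneg (mul_nonneg hr hb) (by linarith)
      linarith
    · have h4 : r * b * (R - 2 * A - X - b) ≥ - (A * (r * b)) := by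
        have h5 : 0 ≤ r * b * (R - A - X - b) := mul_nonneg (mul_nonneg hr hb) (by linarith)
        nlinarith
      have h5 : A * (r * b) ≤ A * ((R - A) * (r - X)) := mul_le_mul_of_nonneg_left hs hA.le
      nlinarith

/-- two thin ends `Y`, `W` of one host `H` cannot both be late (`b > R - 2 H - Y`-like): in letters, if
`s = R - A - H` (`A` the row whose share is asked, or `A = H` the host) -/
lemma not_both_late {H W : ℝ} {bw : ℝ}
    (hbig : R + 1 ≤ (R - A - H) * (R - A - H - Y - W + 2))
    (hb : R - A - H - Y + 1 ≤ b) (hbw : R - A - H - W + 1 ≤ bw)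
    (hY' : 0 ≤ R - A - H - Y + 1) (hW' : 0 ≤ R - A - H - W + 1) (hp : b * bw ≤ Y * W + (R - Y - W) + 1) : False := by
  have h1 : (R - A - H - Y + 1) * (R - A - H - W + 1) ≤ b * bw :=
    mul_le_mul hb hbw hW' (hY'.trans hb)
  have e : (R - A - H - Y + 1) * (R - A - H - W + 1)
      = Y * W + (R - A - H) * (R - A - H - Y - W + 2) + 1 - Y - W := by
    ring
  linarith

end HubV

end Pool.Agent.Lib.MP_f04ccf_co
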