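import Pool.Agent.Lib.MP_f04ccf_co.M.HubP
import Pool.Agent.Lib.MP_f04ccf_co.M.FilP

/-!
MP_f04ccf_co, TEXT D, regime H (69's 18142 (1)): **the column test of one cell `{z, y}` in d-form with the PC pairs of
the cell split off**, units of host `y` used at `z`, every Konig pair of another tail out, any plain hosted items
`D` out (`g = #D`).

Letters: `A = t z + 1`, `c = R - t y`, `d = mu z - s z`, `k = #S`, `q` the PC pairs in `S`, `k' = k - q`,
`M = be z y + q`, `m = mu z - ∑_{l ≠ y} kq z l - ∑_D vl` the kept hosted value, `m' = m - be z y`, `W = m' + M + 2 k'`,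
`SA` the hits of the kept hosted units at `y`, `B` the misses of `S`, `f` the full units and `p` the plain units
of value one in `S`.

* `PCon.arc_leY`: the arcs of a plain item are at most the PC pairs of its host with tails at its ends;
* `PCon.arcs_full`: for full units and PC pairs the arcs cost at most `f q` (all PC pairs of `y` at `z` in `S`);
* `PCon.celY`: `m + k < d + g` or
  `2 (c (k - 1) + SA) + m' (W + 1) + M (m' + 2 k') + p (p - 1) + 2 q f
     ≤ 2 (A (m + k) + B) + 2 (t y - W) (d + g - m - k) + ∑_{l ≠ y} b_l (b_l + 1) + 2 ∑ ar`, `b_l = be z l - kq z l`;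
* `PCon.celF`: the same for full units and PC pairs, without arcs;
* `PCon.celX`, `PCon.hubF`: the Konig pairs of the tails of `X` out, the others kept; the hub column, all kept.
-/

set_option autoImplicit false

namespace Pool.Agent.Lib.MP_f04ccf_co

open Finset

attribute [local instance] Classical.propDecidable

section HubY

variable {ι κ : Type*} {R : ℤ} {n : ℕ} {t s mu : ℕ → ℤ} {U : Finset ι} {ho : ι → ℕ} {vl : ι → ℤ}
  {kp mn : ℕ → ι → ℤ} {pc ar : ι → ℤ} {be kq NN sg : ℕ → ℕ → ℤ} {nu : ℕ → ι → ℤ}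
  {V : Finset κ} {it : κ → ι} {C : κ → Finset ℕ} {bt ht : κ → ℕ → ℤ} {z y : ℕ}
  {S : Finset κ}

/-- the arcs of a plain item: the PC pairs of its host with tails at its ends -/
theorem PCon.arc_leY (H : PCon R n t s mu U ho vl kp mn pc ar be kq NN sg nu) {u : ι} (hu : u ∈ U)
    (h0 : pc u = 0) : ar u ≤ ∑ j ∈ (range n).erase (ho u),
      if kp j u = 0 then 0 else be (ho u) j := by
  have h1 := H.arU u hu
  rw [h0, zero_add] at h1
  refine h1.trans (le_of_eq (sum_congr rfl fun j hj => ?_))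
  have h2 := H.nup u hu h0 j (mem_range.1 (mem_erase.1 hj).2)
  rw [h2, zero_add]
  simp

/-- a full item with the end `z` -/
theorem PCon.arc_full (H : PCon R n t s mu U ho vl kp mn pc ar be kq NN sg nu) {u : ι} (hu : u ∈ U)
    (hz : z < n) (h0 : pc u = 0) (h1 : ∀ l < n, l ≠ z → kp l u = 0) : ar u ≤ be (ho u) z := by
  refine (H.arc_leY hu h0).trans ?_
  have hb := H.be0 (ho u) (H.hlt u hu) z hz
  have h2 : ∀ j ∈ (range n).erase (ho u), j ≠ z →
      (if kp j u = 0 then (0 : ℤ) else be (ho u) j) = 0 := fun j hj hjz => by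
    rw [if_pos (h1 j (mem_range.1 (mem_erase.1 hj).2) hjz)]
  by_cases h3 : z ∈ (range n).erase (ho u)
  · rw [sum_eq_single_of_mem z h3 h2]
    split_ifs
    · exact hb
    · exact le_rfl
  · rw [sum_eq_zero fun j hj => h2 j hj fun h4 => h3 (h4 ▸ hj)]
    exact hb

/-- the PC pairs of the host `y` with the tail `z` are units of value one -/
theorem PCon.pc_all (H : PCon R n t s mu U ho vl kp mn pc ar be kq NN sg nu)
    (hV : UnP R n t U ho vl kp mn V it C bt ht) (hz : z < n) (hy : y < n)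
    (hS : S ⊆ V.filter fun v => z ∈ C v) (hSy : ∀ v ∈ S, ho (it v) = y)
    (hall : ∀ v ∈ V, ho (it v) = y → pc (it v) = 1 → kp z (it v) ≠ 0 → v ∈ S) :
    ∑ v ∈ S, pc (it v) = be y z := by
  have h0 : S ⊆ V := hS.trans (filter_subset _ _)
  rw [← H.pcb y hy z hz]
  have h1 : ∀ u ∈ U, pc u * kp z u = if pc u = 1 ∧ kp z u ≠ 0 then 1 else 0 := by
    intro u hu
    rcases H.pc01 u hu with h2 | h2
    · rw [h2, zero_mul, if_neg]
      rintro ⟨h3, -⟩
      norm_num at h3
    · rw [h2, one_mul]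
      have h3 := H.pcv u hu (by rw [h2]; norm_num)
      have h4 := H.kv u hu z hz
      have h5 := H.k0 u hu z hz
      rw [h3] at h4
      by_cases h6 : kp z u = 0
      · rw [if_neg (fun h => h.2 h6), h6]
      · rw [if_pos ⟨rfl, h6⟩]
        omega
  rw [sum_congr rfl fun u hu => h1 u (mem_filter.1 hu).1]
  have h2 : ∀ v ∈ S, pc (it v) = if pc (it v) = 1 ∧ kp z (it v) ≠ 0 then 1 else 0 := by
    intro v hv
    rw [← h1 _ (hV.mem v (h0 hv))]
    have h3 := (mem_filter.1 (hS hv)).2
    have h4 := (hV.lev _ (hV.mem v (h0 hv)) z hz {v} (singleton_subset_iff.2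
      (mem_filter.2 ⟨h0 hv, rfl, h3⟩)) (singleton_nonempty v)).1
    rw [card_singleton] at h4
    rcases H.pc01 _ (hV.mem v (h0 hv)) with h5 | h5
    · rw [h5, zero_mul]
    · have h6 := H.pcv _ (hV.mem v (h0 hv)) (by rw [h5]; norm_num)
      have h7 := H.kv _ (hV.mem v (h0 hv)) z hz
      rw [h6] at h7
      rw [h5, one_mul]
      have h8 : ((1 : ℕ) : ℤ) = 1 := by norm_num
      linarith
  rw [sum_congr rfl h2, ← sum_filter, ← sum_filter, sum_const, sum_const, filter_filter]
  congr 1
  refine card_bij (fun v _ => it v) ?_ ?_ ?_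
  · intro v hv
    obtain ⟨h3, h4⟩ := mem_filter.1 hv
    exact mem_filter.2 ⟨hV.mem v (h0 h3), hSy v h3, h4⟩
  · intro v hv v' hv' h3
    obtain ⟨h4, h5⟩ := mem_filter.1 hv
    obtain ⟨h6, h7⟩ := mem_filter.1 hv'
    exact hV.inj (h0 h4) (h0 h6) (H.pcv _ (hV.mem v (h0 h4)) (by rw [h5.1]; norm_num)) h3
  · intro u hu
    obtain ⟨h3, h4, h5⟩ := mem_filter.1 hu
    have h6 := H.pcv u h3 (by rw [h5.1]; norm_num)
    have h7 := hV.val u h3
    rw [h6] at h7
    have h8 : 0 < (V.filter fun v => it v = u).card := by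
      have : (V.filter fun v => it v = u).card = 1 := by exact_mod_cast h7
      omega
    obtain ⟨v, hv⟩ := card_pos.1 h8
    obtain ⟨h9, h10⟩ := mem_filter.1 hv
    subst h10
    exact ⟨v, mem_filter.2 ⟨hall v h9 h4 h5.1 h5.2, h5⟩, rfl⟩

/-- the arcs of full units and PC pairs -/
theorem PCon.arcs_full (H : PCon R n t s mu U ho vl kp mn pc ar be kq NN sg nu)
    (hV : UnP R n t U ho vl kp mn V it C bt ht) (hz : z < n)
    (hS : S ⊆ V.filter fun v => z ∈ C v) (hSy : ∀ v ∈ S, ho (it v) = y)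
    (hful : ∀ v ∈ S, pc (it v) = 0 → ∀ l < n, l ≠ z → kp l (it v) = 0) {f : ℤ}
    (hf : f = ((S.filter fun v => pc (it v) = 0 ∧ ∀ l < n, l ≠ z → kp l (it v) = 0).card : ℤ)) :
    ∑ u ∈ S.image it, (1 - pc u) * ar u ≤ f * be y z := by
  have h0 : S ⊆ V := hS.trans (filter_subset _ _)
  have h1 : ∀ u ∈ S.image it, (1 - pc u) * ar u ≤ if (pc u = 0 ∧ ∀ l < n, l ≠ z → kp l u = 0)
      then be y z else 0 := by
    intro u hu
    obtain ⟨v, hv, rfl⟩ := mem_image.1 hu
    rcases H.pc01 _ (hV.mem v (h0 hv)) with h2 | h2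
    · rw [if_pos ⟨h2, hful v hv h2⟩, h2, sub_zero, one_mul]
      have h3 := H.arc_full (hV.mem v (h0 hv)) hz h2 (hful v hv h2)
      rw [hSy v hv] at h3
      exact h3
    · rw [if_neg (fun h => by rw [h2] at h; norm_num at h), h2]
      norm_num
  refine (sum_le_sum h1).trans (le_of_eq ?_)
  rw [← sum_filter, sum_const, nsmul_eq_mul, hf]
  congr 1
  rw [hV.card_one h0 (fun u => pc u = 0 ∧ ∀ l < n, l ≠ z → kp l u = 0)]
  rintro u hu ⟨h11, h12⟩
  rcases H.one u hu with ⟨i, -, -, h13, -⟩ | ⟨-, h13⟩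
  · exact h13
  · exfalso
    have h14 : ∑ i ∈ range n, kp i u = kp z u :=
      sum_eq_single_of_mem z (mem_range.2 hz) fun l hl hlz => h12 l (mem_range.1 hl) hlz
    have h15 := H.kv u hu z hz
    linarith

/-- **the column test of the cell `{z, y}`** -/
theorem PCon.celY (H : PCon R n t s mu U ho vl kp mn pc ar be kq NN sg nu)
    (hV : UnP R n t U ho vl kp mn V it C bt ht) (hz : z < n) (hy : y < n) (hyz : y ≠ z)
    (hS : S ⊆ V.filter fun v => z ∈ C v) (hSy : ∀ v ∈ S, ho (it v) = y) {D : Finset ι}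
    (hD : D ⊆ U) (hDz : ∀ u ∈ D, ho u = z ∧ pc u = 0) {A c d k q k' M m m' W f p g : ℤ}
    (hA : A = t z + 1) (hc : c = R - t y) (hd : d = mu z - s z) (hk : k = (S.card : ℤ))
    (hq : q = ∑ v ∈ S, pc (it v)) (hk' : k' = k - q) (hM : M = be z y + q)
    (hm : m = mu z - ∑ l ∈ (range n).erase y, kq z l - ∑ u ∈ D, vl u) (hm' : m' = m - be z y)
    (hW : W = m' + M + 2 * k')
    (hf : f = ((S.filter fun v => pc (it v) = 0 ∧ ∀ l < n, l ≠ z → kp l (it v) = 0).card : ℤ))
    (hp : p = ((S.filter fun v => vl (it v) = 1 ∧ pc (it v) = 0).card : ℤ))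
    (hg : g = (D.card : ℤ)) :
    m + k < d + g ∨
    2 * (c * (k - 1) + ∑ v ∈ V.filter (fun v => ho (it v) = z ∧ it v ∉ D), ht v y)
      + m' * (W + 1) + M * (m' + 2 * k') + p * (p - 1) + 2 * (q * f)
      ≤ 2 * (A * (m + k) + ∑ v ∈ S, bt v z) + 2 * ((t y - W) * (d + g - (m + k)))
        + ∑ l ∈ (range n).erase y, (be z l - kq z l) * (be z l - kq z l + 1)
        + 2 * ∑ u ∈ S.image it, (1 - pc u) * ar u := by
  have h := H.dP hV hz hy hyz hS (X := (range n).erase y) (Y := ∅) (erase_subset _ _)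
    (fun h1 => (mem_erase.1 h1).1 rfl) (empty_subset _) hD hDz (q := q) (f := f) (by
      rw [hq]
      exact sum_congr rfl fun v hv => by rw [if_pos (hSy v hv)])
    (by
      rw [hf]
      congr 2
      exact filter_congr fun v hv => by simp [hSy v hv]) hd (m := m) (by rw [hm, sum_empty, sub_zero])
    hg
  rw [← hk] at h
  rcases h with h | h
  · exact Or.inl h
  · right
    have e1 : ((S.image it).filter fun u => ho u = y) = S.image it :=
      filter_true_of_mem fun u hu => by
        obtain ⟨v, hv, rfl⟩ := mem_image.1 hu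
        exact hSy v hv
    have e2 : (S.filter fun v => ho (it v) ≠ y) = ∅ :=
      filter_eq_empty_iff.2 fun v hv h1 => h1 (hSy v hv)
    have e3 : (S.filter fun v => ho (it v) = y → pc (it v) = 0) = S.filter fun v => pc (it v) = 0 :=
      filter_congr fun v hv => by simp [hSy v hv]
    have e5 : svU n ho vl it (S.filter fun v => pc (it v) = 0) = p * (p - 1) := by
      rw [svU_host hy fun v hv => hSy v (mem_filter.1 hv).1, filter_filter, hp]
      have e6 : (S.filter fun v => pc (it v) = 0 ∧ vl (it v) = 1)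
          = S.filter fun v => vl (it v) = 1 ∧ pc (it v) = 0 :=
        filter_congr fun v _ => by rw [and_comm]
      rw [e6]
    have e7 : ((range n).erase z).erase y \ (range n).erase y = ∅ := by
      ext l
      simp only [mem_sdiff, mem_erase, notMem_empty, iff_false]
      tauto
    rw [e1, e2, e3, e5, e7, ← hA, ← hc] at h
    simp only [sum_empty, sdiff_empty, mul_zero, add_zero, card_empty, Nat.cast_zero,
      zero_mul] at h
    have e8 : m + 2 * k - q = W := by rw [hW, hM, hk', hm']; ring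
    have e9 : m = m' + be z y := by rw [hm']; ring
    have e10 : k = k' + q := by rw [hk']; ring
    rw [e8] at h
    have e11 : (m + q) * (W + 1) - (be z y + q) * (be z y + q + 1)
        = m' * (W + 1) + M * (m' + 2 * k') := by
      rw [hW, hM, e9]
      ring
    linarith

/-- **the same for full units and PC pairs**: the arcs are paid by the cross saving -/
theorem PCon.celF (H : PCon R n t s mu U ho vl kp mn pc ar be kq NN sg nu)
    (hV : UnP R n t U ho vl kp mn V it C bt ht) (hz : z < n) (hy : y < n) (hyz : y ≠ z)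
    (hS : S ⊆ V.filter fun v => z ∈ C v) (hSy : ∀ v ∈ S, ho (it v) = y)
    (hful : ∀ v ∈ S, pc (it v) = 0 → ∀ l < n, l ≠ z → kp l (it v) = 0)
    (hall : ∀ v ∈ V, ho (it v) = y → pc (it v) = 1 → kp z (it v) ≠ 0 → v ∈ S) {D : Finset ι}
    (hD : D ⊆ U) (hDz : ∀ u ∈ D, ho u = z ∧ pc u = 0) {A c d k q k' M m m' W p g : ℤ}
    (hA : A = t z + 1) (hc : c = R - t y) (hd : d = mu z - s z) (hk : k = (S.card : ℤ))
    (hq : q = be y z) (hk' : k' = k - q) (hM : M = be z y + q)
    (hm : m = mu z - ∑ l ∈ (range n).erase y, kq z l - ∑ u ∈ D, vl u) (hm' : m' = m - be z y)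
    (hW : W = m' + M + 2 * k')
    (hp : p = ((S.filter fun v => vl (it v) = 1 ∧ pc (it v) = 0).card : ℤ))
    (hg : g = (D.card : ℤ)) :
    m + k < d + g ∨
    2 * (c * (k - 1) + ∑ v ∈ V.filter (fun v => ho (it v) = z ∧ it v ∉ D), ht v y)
      + m' * (W + 1) + M * (m' + 2 * k') + p * (p - 1)
      ≤ 2 * (A * (m + k) + ∑ v ∈ S, bt v z) + 2 * ((t y - W) * (d + g - (m + k)))
        + ∑ l ∈ (range n).erase y, (be z l - kq z l) * (be z l - kq z l + 1) := by
  have h1 := H.arcs_full hV hz hS hSy hful rfl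
  have h2 := H.pc_all hV hz hy hS hSy hall
  rcases H.celY hV hz hy hyz hS hSy hD hDz hA hc hd hk (hq.trans h2.symm) hk' hM hm hm' hW rfl hp hg
    with h3 | h3
  · exact Or.inl h3
  · right
    rw [hq] at h3
    linarith

/-- **the column test of the cell `{z, y}`, the Konig pairs of the tails of `X` out, all others kept** (`X = ∅`,
`y = 0`: the hub column with everything kept) -/
theorem PCon.celX (H : PCon R n t s mu U ho vl kp mn pc ar be kq NN sg nu)
    (hV : UnP R n t U ho vl kp mn V it C bt ht) (hz : z < n) (hy : y < n) (hyz : y ≠ z)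
    (hS : S ⊆ V.filter fun v => z ∈ C v) (hSy : ∀ v ∈ S, ho (it v) = y) {X : Finset ℕ}
    (hX : X ⊆ range n) (hyX : y ∉ X) {D : Finset ι}
    (hD : D ⊆ U) (hDz : ∀ u ∈ D, ho u = z ∧ pc u = 0) {A c d k q k' M m m' W f p g : ℤ}
    (hA : A = t z + 1) (hc : c = R - t y) (hd : d = mu z - s z) (hk : k = (S.card : ℤ))
    (hq : q = ∑ v ∈ S, pc (it v)) (hk' : k' = k - q) (hM : M = be z y + q)
    (hm : m = mu z - ∑ l ∈ X, kq z l - ∑ u ∈ D, vl u) (hm' : m' = m - be z y)
    (hW : W = m' + M + 2 * k')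
    (hf : f = ((S.filter fun v => pc (it v) = 0 ∧ ∀ l < n, l ≠ z → kp l (it v) = 0).card : ℤ))
    (hp : p = ((S.filter fun v => vl (it v) = 1 ∧ pc (it v) = 0).card : ℤ))
    (hg : g = (D.card : ℤ)) :
    m + k < d + g ∨
    2 * (c * (k - 1) + ∑ v ∈ V.filter (fun v => ho (it v) = z ∧ it v ∉ D), ht v y)
      + m' * (W + 1) + M * (m' + 2 * k') + p * (p - 1) + 2 * (q * f)
      ≤ 2 * (A * (m + k) + ∑ v ∈ S, bt v z) + 2 * ((t y - W) * (d + g - (m + k)))
        + (∑ l ∈ X, (be z l - kq z l) * (be z l - kq z l + 1)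
          + ∑ l ∈ ((range n).erase z).erase y \ X, NN z l)
        + 2 * ∑ u ∈ S.image it, (1 - pc u) * ar u := by
  have h := H.dP hV hz hy hyz hS (X := X) (Y := ∅) hX hyX (empty_subset _) hD hDz (q := q)
    (f := f) (by
      rw [hq]
      exact sum_congr rfl fun v hv => by rw [if_pos (hSy v hv)])
    (by
      rw [hf]
      congr 2
      exact filter_congr fun v hv => by simp [hSy v hv]) hd (m := m) (by rw [hm, sum_empty, sub_zero])
    hg
  rw [← hk] at h
  rcases h with h | h
  · exact Or.inl h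
  · right
    have e1 : ((S.image it).filter fun u => ho u = y) = S.image it :=
      filter_true_of_mem fun u hu => by
        obtain ⟨v, hv, rfl⟩ := mem_image.1 hu
        exact hSy v hv
    have e2 : (S.filter fun v => ho (it v) ≠ y) = ∅ :=
      filter_eq_empty_iff.2 fun v hv h1 => h1 (hSy v hv)
    have e3 : (S.filter fun v => ho (it v) = y → pc (it v) = 0) = S.filter fun v => pc (it v) = 0 :=
      filter_congr fun v hv => by simp [hSy v hv]
    have e5 : svU n ho vl it (S.filter fun v => pc (it v) = 0) = p * (p - 1) := by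
      rw [svU_host hy fun v hv => hSy v (mem_filter.1 hv).1, filter_filter, hp]
      have e6 : (S.filter fun v => pc (it v) = 0 ∧ vl (it v) = 1)
          = S.filter fun v => vl (it v) = 1 ∧ pc (it v) = 0 :=
        filter_congr fun v _ => by rw [and_comm]
      rw [e6]
    rw [e1, e2, e3, e5, ← hA, ← hc] at h
    simp only [sum_empty, sdiff_empty, mul_zero, add_zero, card_empty, Nat.cast_zero,
      zero_mul] at h
    have e8 : m + 2 * k - q = W := by rw [hW, hM, hk', hm']; ring
    have e9 : m = m' + be z y := by rw [hm']; ring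
    rw [e8] at h
    have e11 : (m + q) * (W + 1) - (be z y + q) * (be z y + q + 1)
        = m' * (W + 1) + M * (m' + 2 * k') := by
      rw [hW, hM, e9]
      ring
    linarith

/-- **the hub column of a row `z ≠ 0`, full units and PC pairs of the hub, everything kept** (69's P') -/
theorem PCon.hubF (H : PCon R n t s mu U ho vl kp mn pc ar be kq NN sg nu)
    (hV : UnP R n t U ho vl kp mn V it C bt ht) (hz : z < n) (hz0 : z ≠ 0)
    (hS : S ⊆ V.filter fun v => z ∈ C v) (hSy : ∀ v ∈ S, ho (it v) = 0)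
    (hful : ∀ v ∈ S, pc (it v) = 0 → ∀ l < n, l ≠ z → kp l (it v) = 0)
    (hall : ∀ v ∈ V, ho (it v) = 0 → pc (it v) = 1 → kp z (it v) ≠ 0 → v ∈ S)
    {A c d k q k' M m m' W p : ℤ}
    (hA : A = t z + 1) (hc : c = R - t 0) (hd : d = mu z - s z) (hk : k = (S.card : ℤ))
    (hq : q = be 0 z) (hk' : k' = k - q) (hM : M = be z 0 + q)
    (hm : m = mu z) (hm' : m' = m - be z 0) (hW : W = m' + M + 2 * k')
    (hp : p = ((S.filter fun v => vl (it v) = 1 ∧ pc (it v) = 0).card : ℤ)) :
    m + k < d ∨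
    2 * (c * (k - 1) + ∑ v ∈ V.filter (fun v => ho (it v) = z), ht v 0)
      + m' * (W + 1) + M * (m' + 2 * k') + p * (p - 1)
      ≤ 2 * (A * (m + k) + ∑ v ∈ S, bt v z) + 2 * ((t 0 - W) * (d - (m + k)))
        + ∑ l ∈ ((range n).erase z).erase 0, NN z l := by
  have hn : 0 < n := by have := H.n5; omega
  have h1 := H.arcs_full hV hz hS hSy hful rfl
  have h2 := H.pc_all hV hz hn hS hSy hall
  rcases H.celX hV hz hn (Ne.symm hz0) hS hSy (X := ∅) (empty_subset _) (notMem_empty _) (D := ∅)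
    (empty_subset _) (fun u hu => absurd hu (notMem_empty u)) hA hc hd hk (hq.trans h2.symm) hk' hM
    (by rw [hm, sum_empty, sum_empty]; ring) hm' hW rfl hp (g := 0) (by simp) with h3 | h3
  · left
    linarith
  · right
    have e4 : (V.filter fun v => ho (it v) = z ∧ it v ∉ (∅ : Finset ι))
        = V.filter fun v => ho (it v) = z :=
      filter_congr fun v _ => by simp
    rw [e4] at h3
    simp only [sum_empty, sdiff_empty, zero_add, add_zero] at h3
    rw [hq] at h3
    linarith

end HubY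

end Pool.Agent.Lib.MP_f04ccf_co
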