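import Pool.Agent.Lib.MP_f04ccf_co.Large.ITL

/-!
Weighted independent transversals by counting (Rosenfeld; Wanless - Wood).
-/

set_option autoImplicit false

namespace Pool.Agent.EG

open Finset

namespace ITLaux

section
variable {V : Type*} [Fintype V] [DecidableEq V] {ι : Type*} [Fintype ι] [DecidableEq ι]
variable {G : V → V → Prop} {X : ι → Finset V} {v₀ : V}

open Classical in
/-- number of edges between two parts -/
noncomputable def eX (G : V → V → Prop) (A B : Finset V) : ℕ :=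
  ∑ x ∈ A, (B.filter (fun y => G x y)).card

open Classical in
theorem TT_stepW (hsy : ∀ x y, G x y → G y x) (l : ι → ℝ) (hl : ∀ i, 0 < l i)
    (hX : ∀ i, l i + ∑ j ∈ univ.erase i, (eX G (X i) (X j) : ℝ) / l j ≤ (X i).card) :
    ∀ (n : ℕ) (S : Finset ι), S.card = n → ∀ i, i ∉ S →
      l i * ((TT G X v₀ S).card : ℝ) ≤ ((TT G X v₀ (insert i S)).card : ℝ) := by
  intro n
  induction n using Nat.strong_induction_on with
  | _ n ih =>
    intro S hS i hi
    have hc := TT_count (X := X) (v₀ := v₀) hsy S hi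
    have hc' : ((TT G X v₀ S).card : ℝ) * ((X i).card : ℝ) ≤
        ((TT G X v₀ (insert i S)).card : ℝ) +
        ∑ s ∈ S, (eX G (X i) (X s) : ℝ) * ((TT G X v₀ (S.erase s)).card : ℝ) := by
      unfold eX
      exact_mod_cast hc
    set t : ℝ := ((TT G X v₀ S).card : ℝ) with ht
    have ht0 : 0 ≤ t := Nat.cast_nonneg _
    have hs1 : ∀ s ∈ S, ((TT G X v₀ (S.erase s)).card : ℝ) ≤ t / l s := by
      intro s hs
      have h1 := ih (S.erase s).card (by rw [← hS]; exact Finset.card_erase_lt_of_mem hs)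
        (S.erase s) rfl s (Finset.notMem_erase s S)
      rw [Finset.insert_erase hs, ← ht] at h1
      rw [le_div_iff₀ (hl s)]
      linarith
    have hs2 : ∑ s ∈ S, (eX G (X i) (X s) : ℝ) * ((TT G X v₀ (S.erase s)).card : ℝ) ≤
        t * ∑ j ∈ univ.erase i, (eX G (X i) (X j) : ℝ) / l j := by
      rw [mul_sum]
      refine (sum_le_sum fun s hs => mul_le_mul_of_nonneg_left (hs1 s hs) (Nat.cast_nonneg _)).trans ?_
      have h3 : ∀ s, (eX G (X i) (X s) : ℝ) * (t / l s) = t * ((eX G (X i) (X s) : ℝ) / l s) := by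
        intro s; ring
      rw [sum_congr rfl fun s _ => h3 s]
      refine sum_le_sum_of_subset_of_nonneg (fun s hs => mem_erase.2 ⟨?_, mem_univ s⟩) ?_
      · rintro rfl; exact hi hs
      · intro s _ _
        have := hl s
        positivity
    have h4 : t * (l i + ∑ j ∈ univ.erase i, (eX G (X i) (X j) : ℝ) / l j) ≤
        t * ((X i).card : ℝ) := mul_le_mul_of_nonneg_left (hX i) ht0
    nlinarith

open Classical in
theorem itw_fin (v₀ : V) (hsy : ∀ x y, G x y → G y x) (l : ι → ℝ) (hl : ∀ i, 0 < l i)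
    (hX : ∀ i, l i + ∑ j ∈ univ.erase i, (eX G (X i) (X j) : ℝ) / l j ≤ (X i).card) :
    ∃ g : ι → V, (∀ i, g i ∈ X i) ∧ ∀ i j, i ≠ j → ¬ G (g i) (g j) := by
  have hpos : ∀ S : Finset ι, 0 < ((TT G X v₀ S).card : ℝ) := by
    intro S
    induction S using Finset.induction_on with
    | empty => rw [TT_empty]; norm_num
    | insert i S hi ih =>
      have h := TT_stepW (v₀ := v₀) hsy l hl hX S.card S rfl i hi
      have := mul_pos (hl i) ih
      linarith
  have h1 := hpos univ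
  rw [Nat.cast_pos, Finset.card_pos] at h1
  obtain ⟨f, hf⟩ := h1
  rw [mem_TT] at hf
  exact ⟨f, fun i => hf.1 i (Finset.mem_univ i),
    fun i j hij => hf.2.2 i (Finset.mem_univ i) j (Finset.mem_univ j) hij⟩

end

end ITLaux

section
variable {V : Type*} [Fintype V] [DecidableEq V]

open ITLaux in
/-- weighted independent transversals: parts `X i`, `i ∈ I`, numbers `l i > 0` with
`l i + ∑_{j ≠ i} e(X i, X j) / l j ≤ |X i|`. -/
theorem itw {ι : Type*} [DecidableEq ι] [Nonempty V] (G : V → V → Prop)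
    (hs : ∀ x y, G x y → G y x) (I : Finset ι) (X : ι → Finset V) (l : ι → ℝ)
    (hl : ∀ i ∈ I, 0 < l i)
    (hX : ∀ i ∈ I, l i + ∑ j ∈ I.erase i, (eX G (X i) (X j) : ℝ) / l j ≤ (X i).card) :
    ∃ g : ι → V, (∀ i ∈ I, g i ∈ X i) ∧ ∀ i ∈ I, ∀ j ∈ I, i ≠ j → ¬ G (g i) (g j) := by
  classical
  obtain ⟨v₀⟩ := ‹Nonempty V›
  have hsum : ∀ (i : I) (f : ι → ℝ), ∑ j ∈ (univ : Finset I).erase i, f j
      = ∑ j ∈ I.erase (i : ι), f j := by
    intro i f
    refine Finset.sum_bij (fun (j : I) _ => (j : ι)) ?_ ?_ ?_ ?_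
    · intro j hj
      rw [Finset.mem_erase] at hj ⊢
      exact ⟨fun h => hj.1 (Subtype.ext h), j.2⟩
    · intro j _ k _ h
      exact Subtype.ext h
    · intro j hj
      rw [Finset.mem_erase] at hj
      refine ⟨⟨j, hj.2⟩, ?_, rfl⟩
      rw [Finset.mem_erase]
      exact ⟨fun h => hj.1 (congrArg Subtype.val h), Finset.mem_univ _⟩
    · intro j _
      rfl
  obtain ⟨g, hg1, hg2⟩ := ITLaux.itw_fin (ι := I) (G := G) (X := fun i => X i) v₀ hs
    (fun i => l i) (fun i => hl i i.2) (by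
      intro i
      have h := hX i i.2
      rw [← hsum i (fun j => (eX G (X i) (X j) : ℝ) / l j)] at h
      exact h)
  refine ⟨fun i => if h : i ∈ I then g ⟨i, h⟩ else v₀, ?_, ?_⟩
  · intro i hi
    simp only [hi, dif_pos]
    exact hg1 ⟨i, hi⟩
  · intro i hi j hj hij
    simp only [hi, hj, dif_pos]
    exact hg2 ⟨i, hi⟩ ⟨j, hj⟩ (fun h => hij (congrArg Subtype.val h))

end

end Pool.Agent.EG
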