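import Pool.Agent.Lib.MP_f04ccf_co.M.ItE

/-!
MP_f04ccf_co, TEXT S / D: the types of the items (assembly).  Over `ItN` with the field `sumk`
(`∑ kp ≤ vl + 1 - pc`, in ItV and ItC):

* `cls_sum`: `vl ≤ ∑ kp`, `∑ ms ≤ R (∑ kp - vl)`; `cls_full`: `∑ kp = vl` gives no misses;
* `cls_pc`: a PC item has one end, no misses;
* `cls_one`: an item of value one is full (one end, no misses) or has two ends with
  `ms y + ms z ≤ R`, `ms y * ms z ≤ R + t y * t z`;
* `sum_one`, `sum_two`: sums over the rows of a function which vanishes off the ends.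
-/

set_option autoImplicit false

namespace Pool.Agent.Lib.MP_f04ccf_co

open Finset

attribute [local instance] Classical.propDecidable

section Cls

variable {ι : Type*} {R : ℤ} {n : ℕ} {t s h e : ℕ → ℤ} {E : ℕ → ℕ → ℤ} {U : Finset ι} {ho : ι → ℕ}
  {vl : ι → ℤ} {kp ms mr : ℕ → ι → ℤ} {pc : ι → ℤ}

namespace ItN

/-- no pieces, no misses -/
lemma ms_of_kp (H : ItN R n t s h e E U ho vl kp ms mr) {u : ι} (hu : u ∈ U) {j : ℕ} (hj : j < n)
    (h0 : kp j u = 0) : ms j u = 0 := by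
  have h1 := H.m0 u hu j hj
  have h2 := H.msr u hu j hj
  have h3 := H.mrk u hu j hj
  rw [h0, zero_mul] at h3
  linarith

/-- no pieces at home -/
lemma ms_home (H : ItN R n t s h e E U ho vl kp ms mr) {u : ι} (hu : u ∈ U) : ms (ho u) u = 0 :=
  H.ms_of_kp hu (H.hlt u hu) (H.kh u hu)

/-- **the pieces**: at least the value, all misses by the surplus -/
theorem cls_sum (H : ItN R n t s h e E U ho vl kp ms mr) {u : ι} (hu : u ∈ U) :
    ∑ i ∈ range n, ms i u ≤ R * (∑ i ∈ range n, kp i u - vl u) := by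
  rcases H.srv u hu with ⟨y, hy, h1, h2, h3⟩ | h1
  · have h4 : ∑ i ∈ range n, kp i u = vl u := by
      rw [← h1]
      exact sum_eq_single_of_mem y (mem_range.2 hy) fun j hj hjy => h3 j (mem_range.1 hj) hjy
    have h5 : ∑ i ∈ range n, ms i u = 0 := by
      refine sum_eq_zero fun j hj => ?_
      have hj' := mem_range.1 hj
      by_cases hjy : j = y
      · have h6 := H.m0 u hu j hj'
        have h7 := H.msr u hu j hj'
        rw [hjy] at h6 h7 ⊢
        linarith
      · exact H.ms_of_kp hu hj' (h3 j hj' hjy)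
    rw [h4, h5]
    simp
  · rw [sum_sub_distrib, ← mul_sum] at h1
    linarith

lemma vl_le (H : ItN R n t s h e E U ho vl kp ms mr) (hR : 0 < R) {u : ι} (hu : u ∈ U) :
    vl u ≤ ∑ i ∈ range n, kp i u := by
  have h1 := H.cls_sum hu
  have h2 : 0 ≤ ∑ i ∈ range n, ms i u := sum_nonneg fun i hi => H.m0 u hu i (mem_range.1 hi)
  by_contra h3
  push Not at h3
  have h4 : R * (∑ i ∈ range n, kp i u - vl u) < 0 := mul_neg_of_pos_of_neg hR (by linarith)
  linarith

/-- no surplus piece, no misses -/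
lemma cls_full (H : ItN R n t s h e E U ho vl kp ms mr) {u : ι} (hu : u ∈ U)
    (h0 : ∑ i ∈ range n, kp i u ≤ vl u) (hR : 0 < R) : ∀ j < n, ms j u = 0 := by
  intro j hj
  have h1 := H.cls_sum hu
  have h2 : ∑ i ∈ range n, kp i u - vl u ≤ 0 := by linarith
  have h3 : R * (∑ i ∈ range n, kp i u - vl u) ≤ 0 := mul_nonpos_of_nonneg_of_nonpos hR.le h2
  have h4 : ms j u ≤ ∑ i ∈ range n, ms i u :=
    single_le_sum (f := fun i => ms i u) (fun i hi => H.m0 u hu i (mem_range.1 hi))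
      (mem_range.2 hj)
  have h5 := H.m0 u hu j hj
  linarith

/-- **an item of value one**: full, or two ends -/
theorem cls_one (H : ItN R n t s h e E U ho vl kp ms mr) (hR : 0 < R) {u : ι} (hu : u ∈ U)
    (hv : vl u = 1) (hs : ∑ i ∈ range n, kp i u ≤ 2) :
    (∃ y < n, y ≠ ho u ∧ kp y u = 1 ∧ ms y u = 0 ∧ ∀ j < n, j ≠ y → kp j u = 0) ∨
    (∃ y < n, ∃ z < n, y ≠ ho u ∧ z ≠ ho u ∧ y ≠ z ∧ kp y u = 1 ∧ kp z u = 1 ∧
      (∀ j < n, j ≠ y → j ≠ z → kp j u = 0) ∧ ms y u + ms z u ≤ R ∧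
      ms y u * ms z u ≤ R + t y * t z) := by
  have h1 := H.vl_le hR hu
  rw [hv] at h1
  have hk0 : ∀ i ∈ range n, 0 ≤ kp i u := fun i hi => H.k0 u hu i (mem_range.1 hi)
  have hk1 : ∀ i < n, kp i u ≤ 1 := fun i hi => by
    have := H.kv u hu i hi
    rwa [hv] at this
  have hex : ∃ y ∈ range n, kp y u ≠ 0 := by
    by_contra h2
    push Not at h2
    have : ∑ i ∈ range n, kp i u = 0 := sum_eq_zero h2
    linarith
  obtain ⟨y, hy, hy0⟩ := hex
  have hy' := mem_range.1 hy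
  have hky : kp y u = 1 := by
    have h2 := hk0 y hy
    have h3 := hk1 y hy'
    omega
  have hyh : y ≠ ho u := fun h2 => hy0 (by rw [h2]; exact H.kh u hu)
  have e1 : ∑ i ∈ (range n).erase y, kp i u + 1 = ∑ i ∈ range n, kp i u := by
    rw [← hky]
    exact sum_erase_add _ _ hy
  by_cases h2 : ∃ z ∈ (range n).erase y, kp z u ≠ 0
  · right
    obtain ⟨z, hz, hz0⟩ := h2
    obtain ⟨hzy, hzn⟩ := mem_erase.1 hz
    have hz' := mem_range.1 hzn
    have hkz : kp z u = 1 := by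
      have h3 := hk0 z hzn
      have h4 := hk1 z hz'
      omega
    have hzh : z ≠ ho u := fun h3 => hz0 (by rw [h3]; exact H.kh u hu)
    have e2 : ∑ i ∈ ((range n).erase y).erase z, kp i u + 1 = ∑ i ∈ (range n).erase y, kp i u := by
      rw [← hkz]
      exact sum_erase_add _ _ hz
    have h3 : ∑ i ∈ ((range n).erase y).erase z, kp i u = 0 := by
      refine le_antisymm (by linarith) (sum_nonneg fun i hi => hk0 i ?_)
      exact mem_of_mem_erase (mem_of_mem_erase hi)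
    have h4 : ∀ j < n, j ≠ y → j ≠ z → kp j u = 0 := by
      intro j hj hjy hjz
      have h5 := (sum_eq_zero_iff_of_nonneg fun i hi =>
        hk0 i (mem_of_mem_erase (mem_of_mem_erase hi))).1 h3
      exact h5 j (mem_erase.2 ⟨hjz, mem_erase.2 ⟨hjy, mem_range.2 hj⟩⟩)
    refine ⟨y, hy', z, hz', hyh, hzh, Ne.symm hzy, hky, hkz, h4, ?_, H.prod u hu y hy' z hz'
      (Ne.symm hzy)⟩
    have h5 := H.msum u hu
    have e3 : ∑ i ∈ (range n).erase y, ms i u + ms y u = ∑ i ∈ range n, ms i u :=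
      sum_erase_add _ _ hy
    have e4 : ms z u ≤ ∑ i ∈ (range n).erase y, ms i u :=
      single_le_sum (f := fun i => ms i u)
        (fun i hi => H.m0 u hu i (mem_range.1 (mem_of_mem_erase hi))) hz
    linarith
  · left
    push Not at h2
    have h3 : ∀ j < n, j ≠ y → kp j u = 0 := fun j hj hjy =>
      h2 j (mem_erase.2 ⟨hjy, mem_range.2 hj⟩)
    have h4 : ∑ i ∈ range n, kp i u ≤ vl u := by
      rw [hv, ← e1, sum_eq_zero h2]
      norm_num
    exact ⟨y, hy', hyh, hky, H.cls_full hu h4 hR y hy', h3⟩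

/-- **a PC item** (value one, at most one piece): one end, no misses -/
theorem cls_pc (H : ItN R n t s h e E U ho vl kp ms mr) (hR : 0 < R) {u : ι} (hu : u ∈ U)
    (hv : vl u = 1) (hs : ∑ i ∈ range n, kp i u ≤ 1) :
    ∃ y < n, y ≠ ho u ∧ kp y u = 1 ∧ ms y u = 0 ∧ ∀ j < n, j ≠ y → kp j u = 0 := by
  rcases H.cls_one hR hu hv (by linarith) with h1 | ⟨y, hy, z, hz, -, -, hyz, h1, h2, -⟩
  · exact h1
  · exfalso
    have h3 : kp y u + kp z u ≤ ∑ i ∈ range n, kp i u := by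
      have e1 : ∑ i ∈ (range n).erase y, kp i u + kp y u = ∑ i ∈ range n, kp i u :=
        sum_erase_add _ _ (mem_range.2 hy)
      have e2 : kp z u ≤ ∑ i ∈ (range n).erase y, kp i u :=
        single_le_sum (f := fun i => kp i u)
          (fun i hi => H.k0 u hu i (mem_range.1 (mem_of_mem_erase hi)))
          (mem_erase.2 ⟨Ne.symm hyz, mem_range.2 hz⟩)
      linarith
    linarith

end ItN

/-- a sum over the rows with one end -/
lemma sum_one {M : Type*} [AddCommMonoid M] {n y x : ℕ} (hy : y < n) (hyx : y ≠ x) {f : ℕ → M}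
    (h : ∀ j < n, j ≠ y → j ≠ x → f j = 0) : ∑ j ∈ (range n).erase x, f j = f y :=
  sum_eq_single_of_mem y (mem_erase.2 ⟨hyx, mem_range.2 hy⟩) fun j hj hjy =>
    h j (mem_range.1 (mem_of_mem_erase hj)) hjy (mem_erase.1 hj).1

/-- a sum over the rows with two ends -/
lemma sum_two {M : Type*} [AddCommMonoid M] {n y z x : ℕ} (hy : y < n) (hz : z < n) (hyx : y ≠ x)
    (hzx : z ≠ x) (hyz : y ≠ z) {f : ℕ → M}
    (h : ∀ j < n, j ≠ y → j ≠ z → j ≠ x → f j = 0) :
    ∑ j ∈ (range n).erase x, f j = f y + f z := by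
  have h1 : y ∈ (range n).erase x := mem_erase.2 ⟨hyx, mem_range.2 hy⟩
  have h2 : z ∈ ((range n).erase x).erase y :=
    mem_erase.2 ⟨Ne.symm hyz, mem_erase.2 ⟨hzx, mem_range.2 hz⟩⟩
  rw [← add_sum_erase _ _ h1, ← add_sum_erase _ _ h2]
  have h3 : ∑ j ∈ (((range n).erase x).erase y).erase z, f j = 0 := by
    refine sum_eq_zero fun j hj => ?_
    obtain ⟨h4, h5⟩ := mem_erase.1 hj
    obtain ⟨h6, h7⟩ := mem_erase.1 h5
    obtain ⟨h8, h9⟩ := mem_erase.1 h7
    exact h j (mem_range.1 h9) h6 h4 h8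
  rw [h3, add_zero]

end Cls

end Pool.Agent.Lib.MP_f04ccf_co
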