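import Pool.Agent.Lib.MP_f04ccf_co.M.MNR

/-!
MP_f04ccf_co, PLAN W (notes 16518, 16567, 16634, 16665): the tests over the items in T-form.  `ItE`:
the items over the basic integers (`ItN`) with the energy `2 e ≤ 2 mu h - mu (mu + 1) + N-excess`.
With `p = s + k`, `y = mu + k`, `d = mu - s`, `v = s + 2 k`:
`ItE.tz` the row test, `ItE.test` the test of any set `B` of rows and any items hosted outside,
`ItE.pr2` the pair test, `ItE.mass` the mass `∑ t y ≤ ∑ (d - 1) y + M (R + 1 - ∑ mu)` (M-form).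
-/

set_option autoImplicit false

namespace Pool.Agent.Lib.MP_f04ccf_co

open Finset

attribute [local instance] Classical.propDecidable

section ItE

variable {ι : Type*}

/-- **the items with energies**: `mu i` the value hosted at `i`, `Nx i j` the N-excess of the host `i`
which is paid in the cell `i j`, `Nb i` twice the rest of the N-excess -/
structure ItE (R : ℤ) (n : ℕ) (t s h e : ℕ → ℤ) (E : ℕ → ℕ → ℤ) (U : Finset ι)
    (ho : ι → ℕ) (vl : ι → ℤ) (kp ms mr : ℕ → ι → ℤ) (mu Nb : ℕ → ℤ) (Nx : ℕ → ℕ → ℤ) : Prop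
    extends ItN R n t s h e E U ho vl kp ms mr where
  hmu : ∀ i < n, mu i = ∑ u ∈ U.filter (fun u => ho u = i), vl u
  muh : ∀ i < n, mu i ≤ h i
  en : ∀ i < n, 2 * e i + mu i * (mu i + 1)
    ≤ 2 * (mu i * h i) + Nb i + 2 * ∑ j ∈ (range n).erase i, Nx i j
  pairN : ∀ i < n, ∀ j < n, i ≠ j →
    ∑ u ∈ U.filter (fun u => ho u = i), (kp j u * (R - t j) - ms j u)
      + ∑ u ∈ U.filter (fun u => ho u = j), (kp i u * (R - t i) - ms i u)
      + Nx i j + Nx j i ≤ E i j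

variable {R : ℤ} {n : ℕ} {t s h e : ℕ → ℤ} {E : ℕ → ℕ → ℤ} {U : Finset ι} {ho : ι → ℕ}
  {vl : ι → ℤ} {kp ms mr : ℕ → ι → ℤ} {mu Nb : ℕ → ℤ} {Nx : ℕ → ℕ → ℤ}

namespace ItE

lemma mu0 (H : ItE R n t s h e E U ho vl kp ms mr mu Nb Nx) {i : ℕ} (hi : i < n) : 0 ≤ mu i := by
  rw [H.hmu i hi]
  exact sum_nonneg fun u hu => by
    have := H.v1 u (mem_filter.1 hu).1
    linarith

/-- **the energy in T-form**: `2 e ≤ 2 t mu + s (s + 1) - d (d - 1) + N` -/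
lemma ef (H : ItE R n t s h e E U ho vl kp ms mr mu Nb Nx) {i : ℕ} (hi : i < n) :
    2 * e i + (mu i - s i) * (mu i - s i - 1)
      ≤ 2 * (t i * mu i) + s i ^ 2 + s i + Nb i + 2 * ∑ j ∈ (range n).erase i, Nx i j := by
  have h1 := H.en i hi
  rw [H.hh i hi] at h1
  nlinarith

/-- the members: `d - 1 ≤ t` -/
lemma dt (H : ItE R n t s h e E U ho vl kp ms mr mu Nb Nx) {i : ℕ} (hi : i < n) :
    mu i - s i - 1 ≤ t i := by
  have h1 := H.muh i hi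
  rw [H.hh i hi] at h1
  linarith

/-- **(P) of one row** -/
lemma pz (H : ItE R n t s h e E U ho vl kp ms mr mu Nb Nx) {i : ℕ} (hi : i < n) :
    2 * (R * s i) + (mu i - s i) * (mu i - s i - 1)
      ≤ 2 * (t i * mu i) + s i ^ 2 + s i + Nb i + 2 * ∑ j ∈ (range n).erase i, Nx i j := by
  have h1 := H.ef hi
  have h2 := H.P1 hi
  linarith

/-- **the row test in T-form**, `k = ∑ kp` over `K`: `2 R p + d (d - 1) ≤ 2 t y + v (v + 1) + ..` -/
theorem tz (H : ItE R n t s h e E U ho vl kp ms mr mu Nb Nx) {i : ℕ} (hi : i < n) {K : Finset ι}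
    (hK : K ⊆ U) (hKh : ∀ u ∈ K, ho u ≠ i) :
    2 * (R * (s i + ∑ u ∈ K, kp i u)) + (mu i - s i) * (mu i - s i - 1)
      ≤ 2 * (t i * (mu i + ∑ u ∈ K, kp i u))
        + (s i + 2 * ∑ u ∈ K, kp i u) * (s i + 2 * ∑ u ∈ K, kp i u + 1)
        + Nb i + 2 * ∑ j ∈ (range n).erase i, Nx i j + 2 * ∑ u ∈ K, mr i u := by
  have h1 := H.row i hi K hK hKh
  have h2 := H.ef hi
  rw [sum_sub_distrib, ← sum_mul] at h1
  nlinarith

/-- **the row test in T-form with all points**, `w = ∑ (vl + 1)`: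
`2 R p + d (d - 1) ≤ 2 t y + (s + w) (s + w + 1) + 2 misses + ..` -/
theorem tza (H : ItE R n t s h e E U ho vl kp ms mr mu Nb Nx) {i : ℕ} (hi : i < n) {K : Finset ι}
    (hK : K ⊆ U) (hKh : ∀ u ∈ K, ho u ≠ i) (hk : ∀ u ∈ K, kp i u ≠ 0) :
    2 * (R * (s i + ∑ u ∈ K, kp i u)) + (mu i - s i) * (mu i - s i - 1)
      ≤ 2 * (t i * (mu i + ∑ u ∈ K, kp i u))
        + (s i + ∑ u ∈ K, (vl u + 1)) * (s i + ∑ u ∈ K, (vl u + 1) + 1)
        + Nb i + 2 * ∑ j ∈ (range n).erase i, Nx i j + 2 * ∑ u ∈ K, ms i u := by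
  have h1 := H.rowa i hi K hK hKh hk
  have h2 := H.ef hi
  rw [sum_sub_distrib, ← sum_mul] at h1
  nlinarith

/-- the hits inside `B` and the N-excess paid there -/
lemma pairs (H : ItE R n t s h e E U ho vl kp ms mr mu Nb Nx) {B : Finset ℕ} (hB : B ⊆ range n) :
    2 * ∑ u ∈ U.filter (fun u => ho u ∈ B), ∑ z ∈ B, (kp z u * (R - t z) - ms z u)
      + 2 * ∑ i ∈ B, ∑ j ∈ B.erase i, Nx i j ≤ ∑ i ∈ B, ∑ j ∈ B.erase i, E i j := by
  set g : ℕ → ℕ → ℤ := fun x z =>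
    ∑ u ∈ U.filter (fun u => ho u = x), (kp z u * (R - t z) - ms z u) with hg
  have h1 : ∑ u ∈ U.filter (fun u => ho u ∈ B), ∑ z ∈ B, (kp z u * (R - t z) - ms z u)
      = ∑ x ∈ B, ∑ z ∈ B, g x z := by
    rw [← sum_hosts U ho B fun u => ∑ z ∈ B, (kp z u * (R - t z) - ms z u)]
    exact sum_congr rfl fun x _ => by rw [sum_comm]
  have h2 : ∀ x ∈ B, g x x ≤ 0 := by
    intro x hx
    refine sum_nonpos fun u hu => ?_
    obtain ⟨hu1, rfl⟩ := mem_filter.1 hu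
    have h3 := H.kh u hu1
    have h4 := H.m0 u hu1 (ho u) (mem_range.1 (hB hx))
    rw [h3]
    linarith
  have h3 : ∑ x ∈ B, ∑ z ∈ B, g x z ≤ ∑ x ∈ B, ∑ z ∈ B.erase x, g x z := by
    refine sum_le_sum fun x hx => ?_
    have h4 := add_sum_erase B (fun z => g x z) hx
    have h5 := h2 x hx
    have h6 : g x x + ∑ z ∈ B.erase x, g x z = ∑ z ∈ B, g x z := h4
    linarith
  have e1 : ∀ φ : ℕ → ℕ → ℤ, ∑ x ∈ B, ∑ z ∈ B.erase x, φ x z
      = ∑ x ∈ B, ∑ z ∈ B, φ x z - ∑ x ∈ B, φ x x := by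
    intro φ
    rw [← sum_sub_distrib]
    refine sum_congr rfl fun x hx => ?_
    have e2 := add_sum_erase B (fun z => φ x z) hx
    have e3 : φ x x + ∑ z ∈ B.erase x, φ x z = ∑ z ∈ B, φ x z := e2
    linarith
  have sw : ∀ φ : ℕ → ℕ → ℤ, ∑ x ∈ B, ∑ z ∈ B.erase x, φ x z
      = ∑ x ∈ B, ∑ z ∈ B.erase x, φ z x := by
    intro φ
    rw [e1 φ, e1 fun x z => φ z x, sum_comm]
  have h5 : ∑ x ∈ B, ∑ z ∈ B.erase x, (g x z + g z x + Nx x z + Nx z x)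
      ≤ ∑ x ∈ B, ∑ z ∈ B.erase x, E x z := by
    refine sum_le_sum fun x hx => sum_le_sum fun z hz => ?_
    obtain ⟨h6, h7⟩ := mem_erase.1 hz
    exact H.pairN x (mem_range.1 (hB hx)) z (mem_range.1 (hB h7)) fun h8 => h6 h8.symm
  have h6 : ∑ x ∈ B, ∑ z ∈ B.erase x, (g x z + g z x + Nx x z + Nx z x)
      = ∑ x ∈ B, ∑ z ∈ B.erase x, g x z + ∑ x ∈ B, ∑ z ∈ B.erase x, g z x
        + ∑ x ∈ B, ∑ z ∈ B.erase x, Nx x z + ∑ x ∈ B, ∑ z ∈ B.erase x, Nx z x := by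
    simp only [sum_add_distrib]
  rw [h6, ← sw g, ← sw Nx] at h5
  rw [h1]
  linarith

/-- **the test of the rows `B` and of items `K` hosted outside, in T-form**: with `b = |B|`,
`w = σ + 2 ∑ vl` and the loads of all items hosted in `B` and of `K`,
`2 R ∑ p + ∑ d (d - 1) ≤ 2 ∑ t y + b (b - 1) (R + 1) + w² + (2 b - 1) w + ..` -/
theorem test (H : ItE R n t s h e E U ho vl kp ms mr mu Nb Nx) {B : Finset ℕ} (hB : B ⊆ range n)
    {K : Finset ι} (hK : K ⊆ U) (hKh : ∀ u ∈ K, ho u ∉ B)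
    (h0 : 0 ≤ (B.card : ℤ) + ∑ i ∈ B, s i + ∑ u ∈ K, vl u) :
    2 * (R * ∑ i ∈ B, (s i + ∑ u ∈ U.filter (fun u => ho u ∈ B) ∪ K, kp i u))
      + ∑ i ∈ B, (mu i - s i) * (mu i - s i - 1)
      ≤ 2 * ∑ i ∈ B, t i * (mu i + ∑ u ∈ U.filter (fun u => ho u ∈ B) ∪ K, kp i u)
        + B.card * (B.card - 1) * (R + 1) + (∑ i ∈ B, s i + 2 * ∑ u ∈ K, vl u) ^ 2
        + (2 * B.card - 1) * (∑ i ∈ B, s i + 2 * ∑ u ∈ K, vl u)
        + ∑ i ∈ B, Nb i + 2 * ∑ i ∈ B, ∑ j ∈ range n \ B, Nx i j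
        + 2 * ∑ i ∈ B, ∑ u ∈ U.filter (fun u => ho u ∈ B) ∪ K, ms i u := by
  have h1 := H.tst B hB K hK hKh h0
  have h2 := H.pairs hB
  have h3 : ∑ i ∈ B, (2 * e i + (mu i - s i) * (mu i - s i - 1))
      ≤ ∑ i ∈ B, (2 * (t i * mu i) + s i ^ 2 + s i + Nb i + 2 * ∑ j ∈ (range n).erase i, Nx i j) :=
    sum_le_sum fun i hi => H.ef (mem_range.1 (hB hi))
  have h4 : ∀ i ∈ B, ∑ j ∈ (range n).erase i, Nx i j
      = ∑ j ∈ range n \ B, Nx i j + ∑ j ∈ B.erase i, Nx i j := by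
    intro i hi
    rw [← sum_sdiff (erase_subset_erase i hB)]
    congr 1
    refine sum_congr ?_ fun _ _ => rfl
    ext j
    rw [mem_sdiff, mem_sdiff, mem_erase, mem_erase]
    constructor
    · rintro ⟨⟨h5, h6⟩, h7⟩
      exact ⟨h6, fun h8 => h7 ⟨h5, h8⟩⟩
    · rintro ⟨h5, h6⟩
      exact ⟨⟨fun h7 => h6 (h7 ▸ hi), h5⟩, fun h7 => h6 h7.2⟩
  have h5 : ∑ i ∈ B, (2 * (t i * mu i) + s i ^ 2 + s i + Nb i
        + 2 * ∑ j ∈ (range n).erase i, Nx i j)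
      = 2 * ∑ i ∈ B, t i * mu i + ∑ i ∈ B, s i ^ 2 + ∑ i ∈ B, s i + ∑ i ∈ B, Nb i
        + 2 * ∑ i ∈ B, ∑ j ∈ range n \ B, Nx i j + 2 * ∑ i ∈ B, ∑ j ∈ B.erase i, Nx i j := by
    simp only [sum_add_distrib, ← mul_sum]
    rw [sum_congr rfl h4, sum_add_distrib]
    ring
  rw [sum_add_distrib, ← mul_sum, h5] at h3
  have hd : Disjoint (U.filter fun u => ho u ∈ B) K := by
    rw [disjoint_left]
    exact fun u hu hu' => hKh u hu' (mem_filter.1 hu).2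
  set UB := U.filter fun u => ho u ∈ B with hUB
  have h6 : ∀ g : ℕ → ι → ℤ, ∑ i ∈ B, ∑ u ∈ UB ∪ K, g i u
      = ∑ u ∈ UB, ∑ i ∈ B, g i u + ∑ u ∈ K, ∑ i ∈ B, g i u := by
    intro g
    rw [sum_comm, sum_union hd]
  have h7 : ∀ X : Finset ι, ∑ u ∈ X, ∑ i ∈ B, (kp i u * (R - t i) - ms i u)
      = R * ∑ u ∈ X, ∑ i ∈ B, kp i u - ∑ u ∈ X, ∑ i ∈ B, t i * kp i u
        - ∑ u ∈ X, ∑ i ∈ B, ms i u := by
    intro X
    simp only [mul_sum, ← sum_sub_distrib]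
    exact sum_congr rfl fun u _ => sum_congr rfl fun i _ => by ring
  rw [h7] at h1 h2
  have h8 : ∑ i ∈ B, (s i + ∑ u ∈ UB ∪ K, kp i u)
      = ∑ i ∈ B, s i + (∑ u ∈ UB, ∑ i ∈ B, kp i u + ∑ u ∈ K, ∑ i ∈ B, kp i u) := by
    rw [sum_add_distrib, h6 fun i u => kp i u]
  have h9 : ∑ i ∈ B, t i * (mu i + ∑ u ∈ UB ∪ K, kp i u)
      = ∑ i ∈ B, t i * mu i + (∑ u ∈ UB, ∑ i ∈ B, t i * kp i u + ∑ u ∈ K, ∑ i ∈ B, t i * kp i u) := by
    rw [← h6 fun i u => t i * kp i u, ← sum_add_distrib]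
    exact sum_congr rfl fun i _ => by rw [mul_add, mul_sum]
  rw [h8, h9, h6 fun i u => ms i u]
  generalize ∑ u ∈ UB, ∑ i ∈ B, kp i u = a1 at *
  generalize ∑ u ∈ K, ∑ i ∈ B, kp i u = a2 at *
  generalize ∑ u ∈ UB, ∑ i ∈ B, t i * kp i u = a3 at *
  generalize ∑ u ∈ K, ∑ i ∈ B, t i * kp i u = a4 at *
  generalize ∑ u ∈ UB, ∑ i ∈ B, ms i u = a5 at *
  generalize ∑ u ∈ K, ∑ i ∈ B, ms i u = a6 at *
  generalize ∑ i ∈ B, ∑ j ∈ B.erase i, E i j = a7 at *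
  generalize ∑ i ∈ B, ∑ j ∈ B.erase i, Nx i j = a8 at *
  generalize ∑ i ∈ B, s i ^ 2 = a9 at *
  generalize ∑ u ∈ K, vl u = w at *
  generalize ∑ i ∈ B, s i = σ at *
  nlinarith

/-- **the pair test**, no items from outside: `kij`, `mij` load and misses of the host `i` at `j` -/
theorem pr2 (H : ItE R n t s h e E U ho vl kp ms mr mu Nb Nx) {i j : ℕ} (hi : i < n) (hj : j < n)
    (hij : i ≠ j) {kij kji mij mji : ℤ}
    (e1 : kij = ∑ u ∈ U.filter (fun u => ho u = i), kp j u)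
    (e2 : kji = ∑ u ∈ U.filter (fun u => ho u = j), kp i u)
    (e3 : mij = ∑ u ∈ U.filter (fun u => ho u = i), ms j u)
    (e4 : mji = ∑ u ∈ U.filter (fun u => ho u = j), ms i u) :
    2 * (R * (s i + s j + kij + kji)) + (mu i - s i) * (mu i - s i - 1)
        + (mu j - s j) * (mu j - s j - 1)
      ≤ 2 * (t i * (mu i + kji)) + 2 * (t j * (mu j + kij)) + 2 * R
        + (s i + s j + 1) * (s i + s j + 2) + Nb i + Nb j
        + 2 * (∑ x ∈ (range n).erase i, Nx i x + ∑ x ∈ (range n).erase j, Nx j x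
          - Nx i j - Nx j i) + 2 * (mij + mji) := by
  have h1 := H.P2 hi hj hij
  have h2 := H.pairN i hi j hj hij
  have h3 := H.ef hi
  have h4 := H.ef hj
  have h5 : ∑ u ∈ U.filter (fun u => ho u = i), (kp j u * (R - t j) - ms j u)
      = kij * (R - t j) - mij := by
    rw [sum_sub_distrib, ← sum_mul, ← e1, ← e3]
  have h6 : ∑ u ∈ U.filter (fun u => ho u = j), (kp i u * (R - t i) - ms i u)
      = kji * (R - t i) - mji := by
    rw [sum_sub_distrib, ← sum_mul, ← e2, ← e4]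
  rw [h5, h6] at h2
  nlinarith

/-- the rest of the mass: `0 ≤ R + 1 - ∑ mu` -/
lemma rest (H : ItE R n t s h e E U ho vl kp ms mr mu Nb Nx) :
    ∑ i ∈ range n, (t i - (mu i - s i - 1)) ≤ R + 1 - ∑ i ∈ range n, mu i := by
  have h1 := H.sh
  rw [sum_congr rfl fun i hi => H.hh i (mem_range.1 hi)] at h1
  have h2 : ∑ i ∈ range n, (t i - (mu i - s i - 1))
      = ∑ i ∈ range n, (t i + s i + 1) - ∑ i ∈ range n, mu i := by
    rw [← sum_sub_distrib]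
    exact sum_congr rfl fun i _ => by ring
  linarith

lemma rest0 (H : ItE R n t s h e E U ho vl kp ms mr mu Nb Nx) :
    ∑ i ∈ range n, mu i ≤ R + 1 := by
  have h1 := H.rest
  have h2 : 0 ≤ ∑ i ∈ range n, (t i - (mu i - s i - 1)) :=
    sum_nonneg fun i hi => by
      have := H.dt (mem_range.1 hi)
      linarith
  linarith

/-- **the mass, M-form** (note 16665): if `y ≤ M` on `Z` then
`∑ t y ≤ ∑ (d - 1) y + M (R + 1 - ∑ mu)` -/
theorem mass (H : ItE R n t s h e E U ho vl kp ms mr mu Nb Nx) {Z : Finset ℕ} (hZ : Z ⊆ range n)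
    {y : ℕ → ℤ} {M : ℤ} (hM : 0 ≤ M) (hy : ∀ i ∈ Z, y i ≤ M) :
    ∑ i ∈ Z, t i * y i ≤ ∑ i ∈ Z, (mu i - s i - 1) * y i
      + M * (R + 1 - ∑ i ∈ range n, mu i) := by
  have h1 : ∑ i ∈ Z, t i * y i ≤ ∑ i ∈ Z, ((mu i - s i - 1) * y i
      + M * (t i - (mu i - s i - 1))) := by
    refine sum_le_sum fun i hi => ?_
    have h2 := H.dt (mem_range.1 (hZ hi))
    have h3 := hy i hi
    nlinarith [mul_nonneg (by linarith : (0 : ℤ) ≤ t i - (mu i - s i - 1))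
      (by linarith : (0 : ℤ) ≤ M - y i)]
  rw [sum_add_distrib, ← mul_sum] at h1
  have h2 : ∑ i ∈ Z, (t i - (mu i - s i - 1)) ≤ ∑ i ∈ range n, (t i - (mu i - s i - 1)) :=
    sum_le_sum_of_subset_of_nonneg hZ fun i hi _ => by
      have := H.dt (mem_range.1 hi)
      linarith
  have h3 := mul_le_mul_of_nonneg_left (h2.trans H.rest) hM
  linarith

end ItE

end ItE

end Pool.Agent.Lib.MP_f04ccf_co
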