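import Pool.Agent.Lib.MP_f04ccf_co.M.ItE

/-!
MP_f04ccf_co, PLAN W (note 16665): the certificates in M-form.  With `d = mu - s`, `O = ∑ mu`:
every family of row tests and at most one pair test bounds `M (R + 1 - O)` from below, no `t` left.
`ItE.mform`: row tests, `ItE.mpair`: one pair test and row tests.
-/

set_option autoImplicit false

namespace Pool.Agent.Lib.MP_f04ccf_co

open Finset

attribute [local instance] Classical.propDecidable

section ItM

variable {ι : Type*} {R : ℤ} {n : ℕ} {t s h e : ℕ → ℤ} {E : ℕ → ℕ → ℤ} {U : Finset ι} {ho : ι → ℕ}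
  {vl : ι → ℤ} {kp ms mr : ℕ → ι → ℤ} {mu Nb : ℕ → ℤ} {Nx : ℕ → ℕ → ℤ}

/-- the (doubled) term of a row in M-form -/
def AM (R mu d k : ℤ) : ℤ := 2 * R * (mu - d + k) - (mu + 2 * k) ^ 2 + mu + 2 * d * k

/-- the (doubled) term of a pair in M-form, `kab` the load of the host `a` at `b` -/
def AP (R ma mb da db kab kba : ℤ) : ℤ :=
  2 * R * (ma + mb - da - db + kab + kba - 1) - (ma + mb) * (ma + mb + 1) + 2 * (kab + kba)
    + 2 * da * (mb - kba) + 2 * db * (ma - kab) - 2 * (da - 1) * (db - 1)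

/-- the sum of the N-excess of a row -/
def NS (n : ℕ) (Nb : ℕ → ℤ) (Nx : ℕ → ℕ → ℤ) (i : ℕ) : ℤ := Nb i + 2 * ∑ j ∈ (range n).erase i, Nx i j

namespace ItE

/-- **the row tests of `Z` in M-form** -/
theorem mform (H : ItE R n t s h e E U ho vl kp ms mr mu Nb Nx) {Z : Finset ℕ} (hZ : Z ⊆ range n)
    {K : ℕ → Finset ι} (hK : ∀ i ∈ Z, K i ⊆ U) (hKh : ∀ i ∈ Z, ∀ u ∈ K i, ho u ≠ i)
    {k m : ℕ → ℤ} (hk : ∀ i ∈ Z, k i = ∑ u ∈ K i, kp i u) (hm : ∀ i ∈ Z, m i = ∑ u ∈ K i, mr i u)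
    {M : ℤ} (hM : 0 ≤ M) (hy : ∀ i ∈ Z, mu i + k i ≤ M) :
    ∑ i ∈ Z, AM R (mu i) (mu i - s i) (k i)
      ≤ 2 * (M * (R + 1 - ∑ i ∈ range n, mu i)) + ∑ i ∈ Z, (NS n Nb Nx i + 2 * m i) := by
  have h1 := H.mass hZ hM hy
  have h2 : ∑ i ∈ Z, AM R (mu i) (mu i - s i) (k i)
      ≤ ∑ i ∈ Z, (2 * (t i * (mu i + k i)) - 2 * ((mu i - s i - 1) * (mu i + k i))
        + (NS n Nb Nx i + 2 * m i)) := by
    refine sum_le_sum fun i hi => ?_
    have h3 := H.tz (mem_range.1 (hZ hi)) (hK i hi) (hKh i hi)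
    rw [← hk i hi, ← hm i hi] at h3
    unfold AM NS
    nlinarith
  rw [sum_add_distrib, sum_sub_distrib, ← mul_sum, ← mul_sum] at h2
  linarith

/-- **one pair test and the row tests of `Z` in M-form** -/
theorem mpair (H : ItE R n t s h e E U ho vl kp ms mr mu Nb Nx) {a b : ℕ} (ha : a < n) (hb : b < n)
    (hab : a ≠ b) {Z : Finset ℕ} (hZ : Z ⊆ range n) (haZ : a ∉ Z) (hbZ : b ∉ Z)
    {K : ℕ → Finset ι} (hK : ∀ i ∈ Z, K i ⊆ U) (hKh : ∀ i ∈ Z, ∀ u ∈ K i, ho u ≠ i)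
    {k m : ℕ → ℤ} (hk : ∀ i ∈ Z, k i = ∑ u ∈ K i, kp i u) (hm : ∀ i ∈ Z, m i = ∑ u ∈ K i, mr i u)
    {kab kba mab mba : ℤ} (e1 : kab = ∑ u ∈ U.filter (fun u => ho u = a), kp b u)
    (e2 : kba = ∑ u ∈ U.filter (fun u => ho u = b), kp a u)
    (e3 : mab = ∑ u ∈ U.filter (fun u => ho u = a), ms b u)
    (e4 : mba = ∑ u ∈ U.filter (fun u => ho u = b), ms a u)
    {M : ℤ} (hM : 0 ≤ M) (hy : ∀ i ∈ Z, mu i + k i ≤ M) (hya : mu a + kba ≤ M)
    (hyb : mu b + kab ≤ M) :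
    AP R (mu a) (mu b) (mu a - s a) (mu b - s b) kab kba
        + ∑ i ∈ Z, AM R (mu i) (mu i - s i) (k i)
      ≤ 2 * (M * (R + 1 - ∑ i ∈ range n, mu i)) + ∑ i ∈ Z, (NS n Nb Nx i + 2 * m i)
        + (NS n Nb Nx a + NS n Nb Nx b - 2 * Nx a b - 2 * Nx b a) + 2 * (mab + mba) := by
  have hsub : insert a (insert b Z) ⊆ range n :=
    insert_subset (mem_range.2 ha) (insert_subset (mem_range.2 hb) hZ)
  have haZ' : a ∉ insert b Z := fun h1 => by
    rcases mem_insert.1 h1 with h2 | h2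
    · exact hab h2
    · exact haZ h2
  have h1 := H.mass hsub hM
    (y := fun i => if i = a then mu a + kba else if i = b then mu b + kab else mu i + k i) (by
      intro i hi
      show (if i = a then mu a + kba else if i = b then mu b + kab else mu i + k i) ≤ M
      split_ifs with h2 h3
      · exact hya
      · exact hyb
      · rcases mem_insert.1 hi with h4 | h4
        · exact absurd h4 h2
        rcases mem_insert.1 h4 with h5 | h5
        · exact absurd h5 h3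
        exact hy i h5)
  rw [sum_insert haZ', sum_insert hbZ, sum_insert haZ', sum_insert hbZ] at h1
  have hba : b ≠ a := fun h2 => hab h2.symm
  simp only [if_true, if_neg hba] at h1
  have hc : ∀ g : ℕ → ℤ, ∑ i ∈ Z, g i
      * (if i = a then mu a + kba else if i = b then mu b + kab else mu i + k i)
      = ∑ i ∈ Z, g i * (mu i + k i) := by
    intro g
    refine sum_congr rfl fun i hi => ?_
    have h2 : i ≠ a := fun h2 => haZ (h2 ▸ hi)
    have h3 : i ≠ b := fun h3 => hbZ (h3 ▸ hi)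
    rw [if_neg h2, if_neg h3]
  rw [hc t, hc fun i => mu i - s i - 1] at h1
  have h2 : ∑ i ∈ Z, AM R (mu i) (mu i - s i) (k i)
      ≤ ∑ i ∈ Z, (2 * (t i * (mu i + k i)) - 2 * ((mu i - s i - 1) * (mu i + k i))
        + (NS n Nb Nx i + 2 * m i)) := by
    refine sum_le_sum fun i hi => ?_
    have h3 := H.tz (mem_range.1 (hZ hi)) (hK i hi) (hKh i hi)
    rw [← hk i hi, ← hm i hi] at h3
    unfold AM NS
    nlinarith
  rw [sum_add_distrib, sum_sub_distrib, ← mul_sum, ← mul_sum] at h2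
  have h3 := H.pr2 ha hb hab e1 e2 e3 e4
  have h4 : AP R (mu a) (mu b) (mu a - s a) (mu b - s b) kab kba
      ≤ 2 * (t a * (mu a + kba)) - 2 * ((mu a - s a - 1) * (mu a + kba))
        + 2 * (t b * (mu b + kab)) - 2 * ((mu b - s b - 1) * (mu b + kab))
        + (NS n Nb Nx a + NS n Nb Nx b - 2 * Nx a b - 2 * Nx b a) + 2 * (mab + mba) := by
    unfold AP NS
    nlinarith
  linarith

/-- the service: `R O + misses ≤ R ∑ k` over the loads `k i` and misses `m i` of all items -/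
theorem serve (H : ItE R n t s h e E U ho vl kp ms mr mu Nb Nx) :
    R * ∑ i ∈ range n, mu i + ∑ i ∈ range n, ∑ u ∈ U, ms i u
      ≤ R * ∑ i ∈ range n, ∑ u ∈ U, kp i u := by
  have h1 : ∑ i ∈ range n, mu i = ∑ u ∈ U, vl u := by
    rw [sum_congr rfl fun i hi => H.hmu i (mem_range.1 hi), sum_hosts U ho (range n) vl]
    congr 1
    exact filter_true_of_mem fun u hu => mem_range.2 (H.hlt u hu)
  have h2 : ∑ u ∈ U, R * vl u ≤ ∑ u ∈ U, ∑ i ∈ range n, (R * kp i u - ms i u) :=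
    sum_le_sum fun u hu => H.srv' hu
  rw [h1, sum_comm, sum_comm (s := range n) (t := U) (f := fun i u => kp i u), mul_sum, mul_sum]
  simp only [mul_sum, sum_sub_distrib] at h2 ⊢
  linarith

/-- `∑ d = O - 1` -/
lemma sumd (H : ItE R n t s h e E U ho vl kp ms mr mu Nb Nx) :
    ∑ i ∈ range n, (mu i - s i) = ∑ i ∈ range n, mu i - 1 := by
  rw [sum_sub_distrib, H.ss]

end ItE

end ItM

end Pool.Agent.Lib.MP_f04ccf_co
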