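import Pool.Agent.Lib.MP_f04ccf_co.M.FrQ

/-!
MP_f04ccf_co, PLAN W, version [B]: the items with the free arcs ITEM BY ITEM (notes 17169, 17196, 17200).
`ItQ` extends `ItZ`: `nf j u` the number of N-types of the item `u` with the tail `j` (the member of a PC
pair, the N-ends of a clique), `nu j u` their free arcs.
`nums`, `numq`: the coupling of the free arcs with the misses; `nxu`: the excess of the N-ends item by
item; `jnp`, `jnn`, `jnj`: the joint cell tests; `aru`, `atu`: upper bounds of the arcs.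
`WItK.itq`: the transport.
-/

set_option autoImplicit false

namespace Pool.Agent.Lib.MP_f04ccf_co

open Finset

attribute [local instance] Classical.propDecidable

section StrQ

variable {ι : Type*}

/-- **the items with the free arcs item by item** -/
structure ItQ (R : ℤ) (n : ℕ) (t s h e : ℕ → ℤ) (E : ℕ → ℕ → ℤ) (U : Finset ι)
    (ho : ι → ℕ) (vl : ι → ℤ) (kp ms mr : ℕ → ι → ℤ) (mu Nb : ℕ → ℤ) (Nx : ℕ → ℕ → ℤ)
    (be : ℕ → ℕ → ℤ) (ls : ℕ → ℤ → ℤ) (pc ar : ι → ℤ) (aT : ℕ → ℤ) (fr : ℕ → ℤ)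
    (gn ka : ℕ → ℕ → ℤ) (nf nu : ℕ → ι → ℤ) : Prop
    extends ItZ R n t s h e E U ho vl kp ms mr mu Nb Nx be ls pc ar aT fr gn ka where
  nf0 : ∀ j < n, ∀ u ∈ U, 0 ≤ nf j u
  nu0 : ∀ j < n, ∀ u ∈ U, 0 ≤ nu j u
  nfk : ∀ j < n, ∀ u ∈ U, nf j u ≤ kp j u
  nfv : ∀ u ∈ U, ∑ j ∈ range n, nf j u ≤ vl u
  nfp : ∀ j < n, ∀ u ∈ U, pc u ≠ 0 → nf j u = kp j u
  gnf : ∀ i < n, ∀ j < n, ∑ u ∈ U.filter (fun u => ho u = i), nf j u = gn i j
  nuk : ∀ i < n, ∀ j < n, ∀ u ∈ U, ho u = i → nu j u ≤ nf j u * ka i j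
  nuc : ∀ i < n, ∀ j < n, ∀ u ∈ U, ho u = i → nu j u + be i j ≤ R - t i
  frn : ∀ i < n, fr i = ∑ j ∈ (range n).erase i, ∑ u ∈ U.filter (fun u => ho u = i), pc u * nu j u
  nxu : ∀ i < n, ∀ j < n, Nx i j ≤ ∑ u ∈ U.filter (fun u => ho u = i), (1 - pc u) * nu j u
  nums : ∀ i < n, ∀ j < n, i ≠ j → ∀ u ∈ U, ho u = i → kp j u ≤ 1 →
    nu j u * ms j u ≤ R + t i * t j
  numq : ∀ i < n, ∀ j < n, i ≠ j → ∀ u ∈ U, ho u = i → kp j u ≤ 1 →
    (nu j u - 1) * (ms j u - 1) ≤ t i * t j + 1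
  jnp : ∀ i < n, ∀ j < n, i ≠ j → ∀ u ∈ U, ho u = i → pc u ≠ 0 → kp j u ≠ 0 →
    (be i j - 1) * R + (max 0 (nu j u + 1 - be i j)) ^ 2 ≤ t i * t j + (be i j) ^ 2
  jnn : ∀ i < n, ∀ j < n, i ≠ j → ∀ K ⊆ U, (∀ u ∈ K, ho u = i ∧ pc u = 0 ∧ nf j u = 1) →
    ∀ f : ℤ, 1 ≤ f → (∀ u ∈ K, f ≤ nu j u) → ∀ v ∈ K, ∀ k : ℤ, k = be i j + min (K.card : ℤ) f →
    (k - 1) * R + (max 0 (nu j v - k)) ^ 2 ≤ t i * t j + k ^ 2
  jnj : ∀ i < n, ∀ j < n, i ≠ j → ∀ q : ℤ,
    ∀ K ⊆ U, (∀ u ∈ K, ho u = i ∧ nf j u = 1 ∧ q ≤ nu j u + pc u) →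
    ∀ K' ⊆ U, (∀ u ∈ K', ho u = j ∧ nf i u = 1 ∧ q ≤ nu i u + pc u) →
    ∀ w : ℤ, w = K.card + K'.card → 1 ≤ w → w ≤ q →
    4 * ((w - 1) * R) + 4 * (q * (q - 2 * w)) ≤ 4 * (t i * t j) + w ^ 2
  aru : ∀ i < n, ∀ u ∈ U, ho u = i →
    ar u ≤ ∑ j ∈ (range n).erase i, ((if kp j u = 0 then 0 else be i j) + nu j u)
  atu : ∀ i < n, 2 * aT i ≤ Nb i
    + ∑ j ∈ (range n).erase i, be i j * (be i j - 1 + 2 * (h i - mu i))
    + 2 * ∑ j ∈ (range n).erase i, ∑ u ∈ U.filter (fun u => ho u = i), (1 - pc u) * nu j u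

end StrQ

section TransQ

variable {V : Type*} {G : SimpleGraph V} {Z T : Finset V} {hm : V → V} {r m n p : ℕ}
  {φ : Finset (V × V) → Finset (Finset V) → ℕ} {B : V → Finset (V × V)}
  {Ps : V → Finset (Finset V)} {host : Itm V → V} {ρ : V → ℕ} {σ : ℕ → V}

/-- **the transport to `ItQ`, version [B]** -/
theorem WItK.itq (hp : 2 * r ≤ p) (h : WCoreK G Z T r m n p hm)
    (H : WItK G Z T hm r n φ B Ps host ρ σ) :
    ItQ ((r : ℤ) - 1) n (fun i => tI G Z T hm r Z (σ i)) (fun i => sI hm r Z (σ i))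
      (fun i => hI G Z T hm Z (σ i)) (fun i => eI G hm Z (σ i))
      (fun i j => EI G hm Z (σ i) (σ j)) (T.biUnion fun x => pkf (B x) (Ps x))
      (fun u => ρ (host u)) (fun u => (ivl u : ℤ)) (fun i u => (ikp (tlo G T hm) (σ i) u : ℤ))
      (fun i u => (ims G (cz G Z T hm) (tlo G T hm) (σ i) u : ℤ))
      (fun i u => (rmr G (cz G Z T hm) (tlo G T hm) (σ i) u : ℤ))
      (fun i => ∑ u ∈ pkf (B (σ i)) (Ps (σ i)), (ivl u : ℤ))
      (fun i => nbk G (cz G Z T hm (σ i)) (hz G Z T hm (σ i)) (tlo G T hm) (B (σ i)) (Ps (σ i)))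
      (fun i j => nxk G (cz G Z T hm (σ i)) (hz G Z T hm (σ i)) (tlo G T hm) (B (σ i)) (σ j))
      (fun i j => pcn (tlo G T hm) B (σ i) (σ j))
      (fun i q => lsx G (cz G Z T hm (σ i)) (hz G Z T hm (σ i)) q)
      (fun u => (ipc u : ℤ)) (fun u => (iar G (cz G Z T hm (host u)) u : ℤ))
      (fun i => ∑ v ∈ hz G Z T hm (σ i), (nd G (cz G Z T hm (σ i)) v : ℤ))
      (fun i => ∑ e ∈ B (σ i), ((frC G (cz G Z T hm (σ i)) (tlo G T hm) (B (σ i)) e.1).card : ℤ))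
      (fun i j => ((ntl G (cz G Z T hm (σ i)) (hz G Z T hm (σ i)) (tlo G T hm) (B (σ i))
        (σ j)).card : ℤ))
      (fun i j => (kpl G (cz G Z T hm (σ i)) (hz G Z T hm (σ i)) (tlo G T hm) (B (σ i))
        (σ j) : ℤ))
      (fun j u => (nuC G (cz G Z T hm (host u)) (tlo G T hm) (B (host u)) (σ j) u : ℤ))
      (fun j u => (nuF G (cz G Z T hm (host u)) (tlo G T hm) (B (host u)) (σ j) u : ℤ)) := by
  have hcard := h.cardT
  have hmem : ∀ i < n, σ i ∈ T := fun i hi => H.rk.mem i (by rw [hcard]; exact hi)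
  have hne : ∀ i < n, ∀ j < n, i ≠ j → σ i ≠ σ j := fun i hi j hj hij h1 =>
    hij (H.rk.sinj (by rw [hcard]; exact hi) (by rw [hcard]; exact hj) h1)
  have her : ∀ i < n, ∀ g : V → ℤ, ∑ z ∈ T.erase (σ i), g z = ∑ j ∈ (range n).erase i, g (σ j) := by
    intro i hi g
    have := H.rk.sum_er (i := i) (by rw [hcard]; exact hi) g
    rw [hcard] at this
    exact this
  have hpk := fun x hx => (H.pk x hx).toPk
  have hmin := fun x hx => (H.pk x hx).min
  have h32 : ∀ x ∈ T, _ := fun x hx => h.csys.h32 h.F.toPFrame h.hh h.toWHom.ht hx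
  have hbt : ∀ x z : V, btl (tlo G T hm) (B x) z = pcs (tlo G T hm) (B x) z := fun _ _ => rfl
  have hfil : ∀ i < n, (T.biUnion fun x => pkf (B x) (Ps x)).filter (fun u => ρ (host u) = i)
      = pkf (B (σ i)) (Ps (σ i)) := fun i hi => fil_host H.hst H.rk (by rw [hcard]; exact hi)
  -- items of one host
  have hmemU : ∀ u ∈ T.biUnion fun x => pkf (B x) (Ps x), ∀ i < n, ρ (host u) = i →
      u ∈ pkf (B (σ i)) (Ps (σ i)) ∧ host u = σ i := by
    intro u hu i hi hui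
    have h1 : u ∈ pkf (B (σ i)) (Ps (σ i)) := by
      rw [← hfil i hi, mem_filter]
      exact ⟨hu, hui⟩
    exact ⟨h1, H.hst _ (hmem i hi) u h1⟩
  have hany : ∀ u ∈ T.biUnion fun x => pkf (B x) (Ps x),
      host u ∈ T ∧ u ∈ pkf (B (host u)) (Ps (host u)) := by
    intro u hu
    obtain ⟨x, hx, hux⟩ := mem_biUnion.1 hu
    rw [H.hst x hx u hux]
    exact ⟨hx, hux⟩
  have hK : ∀ i < n, ∀ K ⊆ T.biUnion fun x => pkf (B x) (Ps x), (∀ u ∈ K, ρ (host u) = i) →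
      K ⊆ pkf (B (σ i)) (Ps (σ i)) := fun i hi K hK hKi u hu =>
    (hmemU u (hK hu) i hi (hKi u hu)).1
  have hsum : ∀ i < n, ∀ g : V → Itm V → ℤ, ∑ u ∈ pkf (B (σ i)) (Ps (σ i)), g (host u) u
      = ∑ u ∈ pkf (B (σ i)) (Ps (σ i)), g (σ i) u := fun i hi g =>
    sum_congr rfl fun u hu => by rw [H.hst _ (hmem i hi) u hu]
  have hnez : ∀ i < n, ∀ j < n, ∑ v ∈ nez G (cz G Z T hm (σ i)) (hz G Z T hm (σ i)) (tlo G T hm)
        (B (σ i)) (σ j), ((frC G (cz G Z T hm (σ i)) (tlo G T hm) (B (σ i)) v).card : ℤ)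
      = ∑ u ∈ (T.biUnion fun x => pkf (B x) (Ps x)).filter (fun u => ρ (host u) = i),
        (1 - (ipc u : ℤ)) * (nuF G (cz G Z T hm (host u)) (tlo G T hm) (B (host u)) (σ j) u : ℤ) := by
    intro i hi j hj
    have hx := hmem i hi
    rw [hfil i hi, hsum i hi fun x u => (1 - (ipc u : ℤ))
      * (nuF G (cz G Z T hm x) (tlo G T hm) (B x) (σ j) u : ℤ)]
    exact (hpk _ hx).sum_nez (hmin _ hx) (h32 _ hx) (σ j)
  refine ⟨WItK.itz hp h H, fun j hj u hu => Nat.cast_nonneg _, fun j hj u hu => Nat.cast_nonneg _,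
    fun j hj u hu => ?_, fun u hu => ?_, fun j hj u hu hpc => ?_, fun i hi j hj => ?_,
    fun i hi j hj u hu hui => ?_, fun i hi j hj u hu hui => ?_, fun i hi => ?_,
    fun i hi j hj => ?_, fun i hi j hj hij u hu hui hk => ?_, fun i hi j hj hij u hu hui hk => ?_,
    fun i hi j hj hij u hu hui hpc hk => ?_, fun i hi j hj hij K hKU hKi f hf hKf v hv k hk => ?_,
    fun i hi j hj hij q K hKU hKi K' hKU' hKi' w hw hw1 hwq => ?_, fun i hi u hu hui => ?_,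
    fun i hi => ?_⟩
  · obtain ⟨hx, hux⟩ := hany u hu
    show (nuC G (cz G Z T hm (host u)) (tlo G T hm) (B (host u)) (σ j) u : ℤ)
      ≤ (ikp (tlo G T hm) (σ j) u : ℤ)
    exact_mod_cast (hpk _ hx).nuC_le (hmin _ hx) (h32 _ hx) hux (σ j)
  · obtain ⟨hx, hux⟩ := hany u hu
    have h1 := (hpk _ hx).nuC_sum (hmin _ hx) (h32 _ hx) hux ((range n).image σ)
    rw [sum_image fun i hi j hj hij => H.rk.sinj (by rw [hcard]; exact mem_range.1 hi)
      (by rw [hcard]; exact mem_range.1 hj) hij] at h1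
    show ∑ j ∈ range n, (nuC G (cz G Z T hm (host u)) (tlo G T hm) (B (host u)) (σ j) u : ℤ)
      ≤ (ivl u : ℤ)
    exact_mod_cast h1
  · obtain ⟨hx, hux⟩ := hany u hu
    have hpc' : ipc u ≠ 0 := by
      intro h1
      exact hpc (by rw [h1]; rfl)
    show (nuC G (cz G Z T hm (host u)) (tlo G T hm) (B (host u)) (σ j) u : ℤ)
      = (ikp (tlo G T hm) (σ j) u : ℤ)
    rcases u with P | e
    · exact absurd rfl hpc'
    · unfold nuC
      simp only [nuS, ikp, filter_singleton]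
      split_ifs
      · simp
      · simp
  · have hx := hmem i hi
    show ∑ u ∈ (T.biUnion fun x => pkf (B x) (Ps x)).filter (fun u => ρ (host u) = i),
      (nuC G (cz G Z T hm (host u)) (tlo G T hm) (B (host u)) (σ j) u : ℤ) = _
    rw [hfil i hi, hsum i hi fun x u => (nuC G (cz G Z T hm x) (tlo G T hm) (B x) (σ j) u : ℤ)]
    exact_mod_cast (hpk _ hx).sum_nuC (hmin _ hx) (h32 _ hx) (σ j)
  · obtain ⟨h1, h2⟩ := hmemU u hu i hi hui
    have hx := hmem i hi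
    show (nuF G (cz G Z T hm (host u)) (tlo G T hm) (B (host u)) (σ j) u : ℤ)
      ≤ (nuC G (cz G Z T hm (host u)) (tlo G T hm) (B (host u)) (σ j) u : ℤ) * _
    rw [h2]
    exact_mod_cast (hpk _ hx).nuF_le_kpl (hmin _ hx) (h32 _ hx) h1 (σ j)
  · obtain ⟨h1, h2⟩ := hmemU u hu i hi hui
    have hx := hmem i hi
    show (nuF G (cz G Z T hm (host u)) (tlo G T hm) (B (host u)) (σ j) u : ℤ)
      + pcn (tlo G T hm) B (σ i) (σ j) ≤ (r : ℤ) - 1 - tI G Z T hm r Z (σ i)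
    rw [h2]
    have h3 := (hpk _ hx).nuF_card (h32 _ hx) h1 (σ j)
    have e1 : ((cz G Z T hm (σ i)).card : ℤ) = (r : ℤ) - 1 - tI G Z T hm r Z (σ i) :=
      card_CP_eq Z (σ i)
    rw [← e1]
    have h4 : (nuF G (cz G Z T hm (σ i)) (tlo G T hm) (B (σ i)) (σ j) u : ℤ)
        + ((btl (tlo G T hm) (B (σ i)) (σ j)).card : ℤ) ≤ ((cz G Z T hm (σ i)).card : ℤ) := by
      exact_mod_cast h3
    exact h4
  · have hx := hmem i hi
    show ∑ e ∈ B (σ i), ((frC G (cz G Z T hm (σ i)) (tlo G T hm) (B (σ i)) e.1).card : ℤ)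
      = ∑ j ∈ (range n).erase i,
        ∑ u ∈ (T.biUnion fun x => pkf (B x) (Ps x)).filter (fun u => ρ (host u) = i),
          (ipc u : ℤ) * (nuF G (cz G Z T hm (host u)) (tlo G T hm) (B (host u)) (σ j) u : ℤ)
    rw [hfil i hi, sum_B_tail (tl := tlo G T hm) (B := B (σ i)) (T.erase (σ i))
        (fun e he => h.toWHom.ht _ hx _ ((hpk _ hx).bH e he)), her i hi]
    refine sum_congr rfl fun j _ => ?_
    rw [hsum i hi fun x u => (ipc u : ℤ) * (nuF G (cz G Z T hm x) (tlo G T hm) (B x) (σ j) u : ℤ)]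
    have h1 := Pk.sum_ipc_nuF (G := G) (C := cz G Z T hm (σ i)) (tl := tlo G T hm) (B := B (σ i))
      (Ps := Ps (σ i)) (σ j)
    exact_mod_cast h1.symm
  · have hx := hmem i hi
    show nxk G (cz G Z T hm (σ i)) (hz G Z T hm (σ i)) (tlo G T hm) (B (σ i)) (σ j)
      ≤ ∑ u ∈ (T.biUnion fun x => pkf (B x) (Ps x)).filter (fun u => ρ (host u) = i),
        (1 - (ipc u : ℤ)) * (nuF G (cz G Z T hm (host u)) (tlo G T hm) (B (host u)) (σ j) u : ℤ)
    rw [← hnez i hi j hj, (hpk _ hx).sum_nez (hmin _ hx) (h32 _ hx) (σ j)]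
    exact (hpk _ hx).nxk_le (hmin _ hx) (h32 _ hx) (σ j)
  · obtain ⟨h1, h2⟩ := hmemU u hu i hi hui
    show (nuF G (cz G Z T hm (host u)) (tlo G T hm) (B (host u)) (σ j) u : ℤ)
      * (ims G (cz G Z T hm) (tlo G T hm) (σ j) u : ℤ) ≤ _
    rw [h2]
    exact (h.nuF_ims (hmem i hi) (hmem j hj) (hne i hi j hj hij) (hpk _ (hmem i hi)) h1
      (by exact_mod_cast hk)).1
  · obtain ⟨h1, h2⟩ := hmemU u hu i hi hui
    show ((nuF G (cz G Z T hm (host u)) (tlo G T hm) (B (host u)) (σ j) u : ℤ) - 1)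
      * ((ims G (cz G Z T hm) (tlo G T hm) (σ j) u : ℤ) - 1) ≤ _
    rw [h2]
    exact (h.nuF_ims (hmem i hi) (hmem j hj) (hne i hi j hj hij) (hpk _ (hmem i hi)) h1
      (by exact_mod_cast hk)).2
  · obtain ⟨h1, h2⟩ := hmemU u hu i hi hui
    have hpc1 : ipc u = 1 := by
      rcases u with P | e
      · exact absurd rfl hpc
      · rfl
    have hk' : ikp (tlo G T hm) (σ j) u ≠ 0 := fun h3 => hk (by
      show (ikp (tlo G T hm) (σ j) u : ℤ) = 0
      rw [h3]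
      rfl)
    have h3 := h.jnP hp (hmem i hi) (hmem j hj) (hne i hi j hj hij) (hpk _ (hmem i hi)) h1 hpc1 hk'
    show (pcn (tlo G T hm) B (σ i) (σ j) - 1) * ((r : ℤ) - 1)
      + (max 0 ((nuF G (cz G Z T hm (host u)) (tlo G T hm) (B (host u)) (σ j) u : ℤ) + 1
        - pcn (tlo G T hm) B (σ i) (σ j))) ^ 2 ≤ _
    rw [h2]
    have e1 : max 0 ((nuF G (cz G Z T hm (σ i)) (tlo G T hm) (B (σ i)) (σ j) u : ℤ) + 1
        - pcn (tlo G T hm) B (σ i) (σ j))
        = (((nuF G (cz G Z T hm (σ i)) (tlo G T hm) (B (σ i)) (σ j) u + 1)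
          - (pcs (tlo G T hm) (B (σ i)) (σ j)).card : ℕ) : ℤ) := by
      unfold pcn
      omega
    rw [e1]
    exact h3
  · have hKi1 : ∀ u ∈ K, ρ (host u) = i := fun u hu => (hKi u hu).1
    have h1 := hK i hi K hKU hKi1
    have hhost : ∀ u ∈ K, host u = σ i := fun u hu => H.hst _ (hmem i hi) u (h1 hu)
    have hKf' : ∀ u ∈ K, f.toNat ≤ nuF G (cz G Z T hm (σ i)) (tlo G T hm) (B (σ i)) (σ j) u := by
      intro u hu
      have h2 : f ≤ (nuF G (cz G Z T hm (host u)) (tlo G T hm) (B (host u)) (σ j) u : ℤ) := hKf u hu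
      rw [hhost u hu] at h2
      omega
    have h3 := h.jnI hp (hmem i hi) (hmem j hj) (hne i hi j hj hij) (hpk _ (hmem i hi)) h1
      (fun u hu => by
        obtain ⟨-, h4, h5⟩ := hKi u hu
        have h6 : (nuC G (cz G Z T hm (host u)) (tlo G T hm) (B (host u)) (σ j) u : ℤ) = 1 := h5
        rw [hhost u hu] at h6
        exact ⟨by exact_mod_cast h4, by exact_mod_cast h6⟩) (f := f.toNat) (by omega) hKf' hv
      (k := (pcs (tlo G T hm) (B (σ i)) (σ j)).card + min K.card f.toNat) rfl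
    have hk' : k = (((pcs (tlo G T hm) (B (σ i)) (σ j)).card + min K.card f.toNat : ℕ) : ℤ) := by
      have h4 : k = pcn (tlo G T hm) B (σ i) (σ j) + min (K.card : ℤ) f := hk
      unfold pcn at h4
      rw [h4]
      push_cast
      rw [Int.toNat_of_nonneg (by omega : 0 ≤ f)]
    show (k - 1) * ((r : ℤ) - 1)
      + (max 0 ((nuF G (cz G Z T hm (host v)) (tlo G T hm) (B (host v)) (σ j) v : ℤ) - k)) ^ 2 ≤ _
    rw [hhost v hv]
    have e1 : max 0 ((nuF G (cz G Z T hm (σ i)) (tlo G T hm) (B (σ i)) (σ j) v : ℤ) - k)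
        = ((nuF G (cz G Z T hm (σ i)) (tlo G T hm) (B (σ i)) (σ j) v
          - ((pcs (tlo G T hm) (B (σ i)) (σ j)).card + min K.card f.toNat) : ℕ) : ℤ) := by
      rw [hk']
      omega
    rw [e1, hk']
    exact h3
  · have h1 := hK i hi K hKU fun u hu => (hKi u hu).1
    have h1' := hK j hj K' hKU' fun u hu => (hKi' u hu).1
    have hh1 : ∀ u ∈ K, host u = σ i := fun u hu => H.hst _ (hmem i hi) u (h1 hu)
    have hh2 : ∀ u ∈ K', host u = σ j := fun u hu => H.hst _ (hmem j hj) u (h1' hu)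
    have h3 := h.jnJ hp (hmem i hi) (hmem j hj) (hne i hi j hj hij) (hpk _ (hmem i hi))
      (hpk _ (hmem j hj)) h1 h1' (q := q.toNat)
      (fun u hu => by
        obtain ⟨-, h4, h5⟩ := hKi u hu
        have h6 : (nuC G (cz G Z T hm (host u)) (tlo G T hm) (B (host u)) (σ j) u : ℤ) = 1 := h4
        have h7 : q ≤ (nuF G (cz G Z T hm (host u)) (tlo G T hm) (B (host u)) (σ j) u : ℤ)
          + (ipc u : ℤ) := h5
        rw [hh1 u hu] at h6 h7
        exact ⟨by exact_mod_cast h6, by omega⟩)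
      (fun u hu => by
        obtain ⟨-, h4, h5⟩ := hKi' u hu
        have h6 : (nuC G (cz G Z T hm (host u)) (tlo G T hm) (B (host u)) (σ i) u : ℤ) = 1 := h4
        have h7 : q ≤ (nuF G (cz G Z T hm (host u)) (tlo G T hm) (B (host u)) (σ i) u : ℤ)
          + (ipc u : ℤ) := h5
        rw [hh2 u hu] at h6 h7
        exact ⟨by exact_mod_cast h6, by omega⟩)
      (by omega) (by omega)
    rw [Int.toNat_of_nonneg (by omega : 0 ≤ q), ← hw] at h3
    exact h3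
  · obtain ⟨h1, h2⟩ := hmemU u hu i hi hui
    have hx := hmem i hi
    have hsub : imem u ⊆ hz G Z T hm (σ i) := by
      rcases u with P | e
      · exact (hpk _ hx).sub P (inl_mem_pkf.1 h1).1
      · intro v hv
        rw [mem_singleton.1 hv]
        exact (hpk _ hx).bH e (inr_mem_pkf.1 h1)
    have h3 := (hpk _ hx).iar_le (h32 _ hx) (Y := T.erase (σ i)) h1
      (fun v hv => h.toWHom.ht _ hx v (hsub hv)) (fun v hv => ikp_tail_ne (fun Q hQ => by
        subst hQ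
        exact (inl_mem_pkf.1 h1).2) hv)
    have h4 : (iar G (cz G Z T hm (σ i)) u : ℤ) ≤ ∑ z ∈ T.erase (σ i),
        (((if ikp (tlo G T hm) z u = 0 then 0 else (btl (tlo G T hm) (B (σ i)) z).card : ℕ) : ℤ)
        + nuF G (cz G Z T hm (σ i)) (tlo G T hm) (B (σ i)) z u) := by
      exact_mod_cast h3
    show (iar G (cz G Z T hm (host u)) u : ℤ) ≤ ∑ j ∈ (range n).erase i,
      ((if (ikp (tlo G T hm) (σ j) u : ℤ) = 0 then 0 else pcn (tlo G T hm) B (σ i) (σ j))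
        + (nuF G (cz G Z T hm (host u)) (tlo G T hm) (B (host u)) (σ j) u : ℤ))
    rw [h2]
    refine h4.trans (le_of_eq ?_)
    rw [her i hi]
    refine sum_congr rfl fun j _ => ?_
    congr 1
    by_cases h5 : ikp (tlo G T hm) (σ j) u = 0
    · rw [if_pos h5, if_pos (by exact_mod_cast h5)]
      rfl
    · rw [if_neg h5, if_neg (by exact_mod_cast h5)]
      rfl
  · have hx := hmem i hi
    have h1 := (hpk _ hx).sum_nd_le (h32 _ hx) (Y := T.erase (σ i))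
      (fun v hv => h.toWHom.ht _ hx v hv)
    have h2 := (hpk _ hx).sum_ivl
    have h3 : ((Ps (σ i)).card : ℤ) = hI G Z T hm Z (σ i)
        - ∑ u ∈ pkf (B (σ i)) (Ps (σ i)), (ivl u : ℤ) := by
      have h4 : (∑ u ∈ pkf (B (σ i)) (Ps (σ i)), (ivl u : ℤ)) + (Ps (σ i)).card
          = (hz G Z T hm (σ i)).card := by exact_mod_cast h2
      have h5 : hI G Z T hm Z (σ i) = ((hz G Z T hm (σ i)).card : ℤ) := rfl
      rw [h5, ← h4]
      ring
    rw [her i hi fun z => ((btl (tlo G T hm) (B (σ i)) z).card : ℤ)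
        * ((btl (tlo G T hm) (B (σ i)) z).card - 1 + 2 * (Ps (σ i)).card),
      her i hi fun z => ∑ v ∈ nez G (cz G Z T hm (σ i)) (hz G Z T hm (σ i)) (tlo G T hm)
        (B (σ i)) z, ((frC G (cz G Z T hm (σ i)) (tlo G T hm) (B (σ i)) v).card : ℤ), h3] at h1
    have h6 : ∑ j ∈ (range n).erase i, ∑ v ∈ nez G (cz G Z T hm (σ i)) (hz G Z T hm (σ i))
        (tlo G T hm) (B (σ i)) (σ j),
        ((frC G (cz G Z T hm (σ i)) (tlo G T hm) (B (σ i)) v).card : ℤ)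
        = ∑ j ∈ (range n).erase i,
          ∑ u ∈ (T.biUnion fun x => pkf (B x) (Ps x)).filter (fun u => ρ (host u) = i),
          (1 - (ipc u : ℤ)) * (nuF G (cz G Z T hm (host u)) (tlo G T hm) (B (host u)) (σ j) u : ℤ) :=
      sum_congr rfl fun j hj => hnez i hi j (mem_range.1 (mem_of_mem_erase hj))
    rw [h6] at h1
    refine h1.trans (le_of_eq ?_)
    rw [add_comm (∑ j ∈ (range n).erase i, _) (nbk _ _ _ _ _ _)]
    rfl

end TransQ

end Pool.Agent.Lib.MP_f04ccf_co
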