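import Pool.Agent.Lib.MP_f04ccf_co.M.SameP
import Pool.Agent.Lib.MP_f04ccf_co.M.CellS

/-!
MP_f04ccf_co, PLAN W (note 17329): the same-host saving with Mantel's bound.  The points of the used items
of one host `x` all of whose loads are at the row `z` have their rows in `{x, z}`, so at most two of them
are pairwise not adjacent, and Turan's bound for two classes holds for their missing pairs.
`NE_grp_le2`: missing pairs of a union of groups, families of groups with a bound, and saved pairs.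
`Fam.NE_sav`: the points of the items.  `Fam.row_sav`, `RowN.rowE_sav`: the tests with any saving.
-/

set_option autoImplicit false

namespace Pool.Agent.Lib.MP_f04ccf_co

open Finset

attribute [local instance] Classical.propDecidable

section Grp2

variable {ι κ V : Type*} {G : SimpleGraph V}

variable (G) in
/-- the adjacent ordered pairs -/
noncomputable def adp (W : Finset V) : ℕ := ((W ×ˢ W).filter fun e => G.Adj e.1 e.2).card

lemma NE_add_adp (W : Finset V) : NE G W + adp G W + W.card = W.card * W.card := by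
  have h2 : W.card = ((W ×ˢ W).filter fun e => e.1 = e.2).card := by
    refine card_bij (fun v _ => (v, v)) (fun v hv => ?_) (fun v _ w _ h => ?_) fun e he => ?_
    · exact mem_filter.2 ⟨mem_product.2 ⟨hv, hv⟩, rfl⟩
    · exact (Prod.ext_iff.1 h).1
    · obtain ⟨h3, h4⟩ := mem_filter.1 he
      exact ⟨e.1, (mem_product.1 h3).1, Prod.ext rfl h4⟩
  have h3 : Disjoint ((W ×ˢ W).filter fun e => e.2 ≠ e.1 ∧ ¬ G.Adj e.1 e.2)
      ((W ×ˢ W).filter fun e => G.Adj e.1 e.2) := by
    rw [disjoint_left]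
    intro e he he'
    exact (mem_filter.1 he).2.2 (mem_filter.1 he').2
  have h4 : Disjoint (((W ×ˢ W).filter fun e => e.2 ≠ e.1 ∧ ¬ G.Adj e.1 e.2)
      ∪ ((W ×ˢ W).filter fun e => G.Adj e.1 e.2)) ((W ×ˢ W).filter fun e => e.1 = e.2) := by
    rw [disjoint_left]
    intro e he he'
    have h5 := (mem_filter.1 he').2
    rcases mem_union.1 he with h6 | h6
    · exact (mem_filter.1 h6).2.1 h5.symm
    · exact (mem_filter.1 h6).2.ne h5
  have h5 : ((((W ×ˢ W).filter fun e => e.2 ≠ e.1 ∧ ¬ G.Adj e.1 e.2)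
      ∪ ((W ×ˢ W).filter fun e => G.Adj e.1 e.2)) ∪ ((W ×ˢ W).filter fun e => e.1 = e.2))
      = W ×ˢ W := by
    refine Subset.antisymm (union_subset (union_subset (filter_subset _ _) (filter_subset _ _))
      (filter_subset _ _)) fun e he => ?_
    by_cases h6 : e.1 = e.2
    · exact mem_union_right _ (mem_filter.2 ⟨he, h6⟩)
    · by_cases h7 : G.Adj e.1 e.2
      · exact mem_union_left _ (mem_union_right _ (mem_filter.2 ⟨he, h7⟩))
      · exact mem_union_left _ (mem_union_left _ (mem_filter.2 ⟨he, fun h8 => h6 h8.symm, h7⟩))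
  have h6 := congrArg Finset.card h5
  rw [card_union_of_disjoint h4, card_union_of_disjoint h3, card_product, ← h2,
    ← NE_eq_card] at h6
  exact h6

/-- **missing pairs of a union of groups**: the families `Q j` of groups with a bound, and saved pairs
of groups which are not in one family -/
theorem NE_grp_le2 {K : Finset ι} {P : ι → Finset V}
    (hd : ∀ u ∈ K, ∀ v ∈ K, u ≠ v → Disjoint (P u) (P v)) {J : Finset κ} {Q : κ → Finset ι}
    (hQ : ∀ j ∈ J, Q j ⊆ K) (hQd : ∀ i ∈ J, ∀ j ∈ J, i ≠ j → Disjoint (Q i) (Q j)) {b : κ → ℤ}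
    (hb : ∀ j ∈ J, (NE G ((Q j).biUnion P) : ℤ) + b j + ((Q j).biUnion P).card
      ≤ (((Q j).biUnion P).card : ℤ) * ((Q j).biUnion P).card) {D : Finset (ι × ι)}
    (hD : ∀ e ∈ D, e.1 ∈ K ∧ e.2 ∈ K ∧ (∀ j ∈ J, e.1 ∈ Q j → e.2 ∉ Q j)
      ∧ ∃ p ∈ P e.1, ∃ q ∈ P e.2, G.Adj p q) :
    (NE G (K.biUnion P) : ℤ) + (∑ j ∈ J, b j + D.card) + (K.biUnion P).card
      ≤ ((K.biUnion P).card : ℤ) * (K.biUnion P).card := by
  set W := K.biUnion P with hW
  have hsame : ∀ u ∈ K, ∀ v ∈ K, ∀ p, p ∈ P u → p ∈ P v → u = v := by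
    intro u hu v hv p h1 h2
    by_contra h3
    exact disjoint_left.1 (hd u hu v hv h3) h1 h2
  have h1 : ∀ j ∈ J, b j ≤ (adp G ((Q j).biUnion P) : ℤ) := by
    intro j hj
    have h2 := hb j hj
    have h3 := NE_add_adp (G := G) ((Q j).biUnion P)
    have h4 : (NE G ((Q j).biUnion P) : ℤ) + adp G ((Q j).biUnion P) + ((Q j).biUnion P).card
        = (((Q j).biUnion P).card : ℤ) * ((Q j).biUnion P).card := by exact_mod_cast h3
    linarith
  have h2 : ∑ j ∈ J, adp G ((Q j).biUnion P) + D.card ≤ adp G W := by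
    have e1 : D.card ≤ ∑ e ∈ D, ((P e.1 ×ˢ P e.2).filter fun f => G.Adj f.1 f.2).card := by
      rw [card_eq_sum_ones]
      refine sum_le_sum fun e he => ?_
      obtain ⟨-, -, -, p, hp, q, hq, hpq⟩ := hD e he
      exact card_pos.2 ⟨(p, q), mem_filter.2 ⟨mem_product.2 ⟨hp, hq⟩, hpq⟩⟩
    have e2 : ∑ e ∈ D, ((P e.1 ×ˢ P e.2).filter fun f => G.Adj f.1 f.2).card
        = (D.biUnion fun e => (P e.1 ×ˢ P e.2).filter fun f => G.Adj f.1 f.2).card := by
      rw [card_biUnion]
      intro e he f hf hef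
      obtain ⟨ha, hb', -⟩ := hD e he
      obtain ⟨ha', hb'', -⟩ := hD f hf
      show Disjoint _ _
      rw [disjoint_left]
      intro g hg hg'
      obtain ⟨h2, h3⟩ := mem_product.1 (mem_filter.1 hg).1
      obtain ⟨h4, h5⟩ := mem_product.1 (mem_filter.1 hg').1
      exact hef (Prod.ext (hsame _ ha _ ha' _ h2 h4) (hsame _ hb' _ hb'' _ h3 h5))
    have e3 : ∑ j ∈ J, adp G ((Q j).biUnion P)
        = (J.biUnion fun j => (((Q j).biUnion P) ×ˢ ((Q j).biUnion P)).filter
          fun e => G.Adj e.1 e.2).card := by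
      rw [card_biUnion]
      · rfl
      · intro i hi j hj hij
        show Disjoint _ _
        rw [disjoint_left]
        intro g hg hg'
        obtain ⟨h2, -⟩ := mem_product.1 (mem_filter.1 hg).1
        obtain ⟨h4, -⟩ := mem_product.1 (mem_filter.1 hg').1
        obtain ⟨u, hu, h5⟩ := mem_biUnion.1 h2
        obtain ⟨v, hv, h6⟩ := mem_biUnion.1 h4
        have h7 := hsame u (hQ i hi hu) v (hQ j hj hv) _ h5 h6
        subst h7
        exact disjoint_left.1 (hQd i hi j hj hij) hu hv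
    have e4 : Disjoint (J.biUnion fun j => (((Q j).biUnion P) ×ˢ ((Q j).biUnion P)).filter
          fun e => G.Adj e.1 e.2)
        (D.biUnion fun e => (P e.1 ×ˢ P e.2).filter fun f => G.Adj f.1 f.2) := by
      rw [disjoint_left]
      intro g hg hg'
      obtain ⟨j, hj, h2⟩ := mem_biUnion.1 hg
      obtain ⟨e, he, h3⟩ := mem_biUnion.1 hg'
      obtain ⟨h4, h5⟩ := mem_product.1 (mem_filter.1 h2).1
      obtain ⟨h6, h7⟩ := mem_product.1 (mem_filter.1 h3).1
      obtain ⟨u, hu, h8⟩ := mem_biUnion.1 h4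
      obtain ⟨v, hv, h9⟩ := mem_biUnion.1 h5
      obtain ⟨ha, hb', hc, -⟩ := hD e he
      have h10 := hsame u (hQ j hj hu) _ ha _ h8 h6
      have h11 := hsame v (hQ j hj hv) _ hb' _ h9 h7
      exact hc j hj (h10 ▸ hu) (h11 ▸ hv)
    have e5 : ((J.biUnion fun j => (((Q j).biUnion P) ×ˢ ((Q j).biUnion P)).filter
          fun e => G.Adj e.1 e.2)
        ∪ (D.biUnion fun e => (P e.1 ×ˢ P e.2).filter fun f => G.Adj f.1 f.2)).card
        ≤ adp G W := by
      refine card_le_card (union_subset (biUnion_subset.2 fun j hj => ?_)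
        (biUnion_subset.2 fun e he => ?_))
      · have h3 : (Q j).biUnion P ⊆ W := biUnion_subset_biUnion_of_subset_left _ (hQ j hj)
        exact filter_subset_filter _ (product_subset_product h3 h3)
      · obtain ⟨ha, hb', -⟩ := hD e he
        exact filter_subset_filter _ (product_subset_product (subset_biUnion_of_mem P ha)
          (subset_biUnion_of_mem P hb'))
    rw [card_union_of_disjoint e4, ← e2, ← e3] at e5
    omega
  have h3 : (NE G W : ℤ) + adp G W + W.card = (W.card : ℤ) * W.card := by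
    exact_mod_cast NE_add_adp (G := G) W
  have h4 : (∑ j ∈ J, (adp G ((Q j).biUnion P) : ℤ)) + D.card ≤ adp G W := by exact_mod_cast h2
  have h5 := sum_le_sum h1
  linarith

end Grp2

section Sav

variable {V : Type*} {G : SimpleGraph V} {Z T : Finset V} {hm : V → V} {r m t : ℕ}
  {A : Finset V} {S : V → Finset V} {U : V → Finset (Itm V)}

/-- the rows of a class point -/
lemma rws_CP {x v : V} (hx : x ∈ T) (hv : v ∈ CP G Z T S x) : rws G T v = {x} := by
  obtain ⟨-, h1⟩ := mem_Cl.1 (mem_CP.1 hv).2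
  rcases h1 with h1 | ⟨h1, h2⟩
  · rw [h1, rws_of_mem hx]
  · rw [rws_of_notMem h1, h2]

/-- the rows of the points of an item all of whose loads are at `z` -/
lemma Fam.rws_full (hh : Homes G Z T hm) (hC : CSys G Z T hm A S)
    (h : ∀ x ∈ A, Fam (co G) (CP G Z T S) (HP G Z T S) (tlo G T hm) x (U x))
    {x z : V} (hx : x ∈ A) {u : Itm V} (hu : u ∈ U x)
    (hf : ∀ y, y ≠ z → ikp (tlo G T hm) y u = 0) {v : V} (hv : v ∈ ipts u) :
    v ∈ Z ∧ rws G T v ⊆ {x, z} := by
  have hmem : ∀ w ∈ imem u, w ∈ Z ∧ rws G T w ⊆ {x, z} := by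
    intro w hw
    have h1 := (h x hx).imem_sub hu hw
    refine ⟨hC.subZ hx (HP_sub h1), ?_⟩
    rw [hC.rws_HP hh hx h1]
    intro y hy
    rcases mem_insert.1 hy with h2 | h2
    · rw [h2]
      exact mem_insert_self _ _
    · rw [mem_singleton.1 h2]
      by_cases h3 : tlo G T hm w = z
      · rw [h3]
        exact mem_insert_of_mem (mem_singleton_self _)
      · exact absurd (hf _ h3) (ikp_tail_ne (fun Q hQ => (h x hx).two Q (hQ ▸ hu)) hw)
  rcases u with Q | e
  · exact hmem v hv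
  · rcases mem_insert.1 hv with h1 | h1
    · exact hmem v (by rw [h1]; exact mem_singleton_self _)
    · rw [mem_singleton.1 h1]
      have h2 := (h x hx).pcC e hu
      refine ⟨hC.subZ hx (CP_sub h2), ?_⟩
      rw [rws_CP (hC.sub hx) h2]
      exact singleton_subset_iff.2 (mem_insert_self _ _)

/-- **the missing pairs of the used points of the items `K` outside `Y`**: families `Q j` of items of one
host with all loads at `z`, and other pairs of items with adjacent used points -/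
theorem Fam.NE_sav {κ : Type*} (hF : PFrame G r m t Z T) (hh : Homes G Z T hm)
    (hC : CSys G Z T hm A S)
    (hW : WSysT G (co G) A (CP G Z T S) (HP G Z T S) (tlo G T hm))
    (h : ∀ x ∈ A, Fam (co G) (CP G Z T S) (HP G Z T S) (tlo G T hm) x (U x))
    {z : V} {K : Finset (Itm V)} (hK : K ⊆ (A.erase z).biUnion U)
    (hk : ∀ u ∈ K, ikp (tlo G T hm) z u ≠ 0)
    {X : Finset V → Finset V} (hX : ∀ Q, X Q ⊆ oth (tlo G T hm) z Q) (Y : Finset V)
    {J : Finset κ} {ho : κ → V} (hho : ∀ i ∈ J, ∀ j ∈ J, ho i = ho j → i = j)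
    {Q : κ → Finset (Itm V)} (hQK : ∀ j ∈ J, Q j ⊆ K)
    (hQU : ∀ j ∈ J, ∀ u ∈ Q j, ho j ∈ A ∧ u ∈ U (ho j))
    (hQf : ∀ j ∈ J, ∀ u ∈ Q j, ∀ y, y ≠ z → ikp (tlo G T hm) y u = 0) (q : κ → ℤ)
    {D : Finset (Itm V × Itm V)} (hD : ∀ e ∈ D, e.1 ∈ K ∧ e.2 ∈ K
      ∧ (∀ j ∈ J, e.1 ∈ Q j → e.2 ∉ Q j) ∧ ∃ p ∈ rpts (tlo G T hm) X z e.1 \ Y,
      ∃ q ∈ rpts (tlo G T hm) X z e.2 \ Y, G.Adj p q) :
    (NE G (K.biUnion (rpts (tlo G T hm) X z) \ Y) : ℤ)
      + (∑ j ∈ J, (2 * q j * (∑ u ∈ Q j, ((rpts (tlo G T hm) X z u \ Y).card : ℤ))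
          - 2 * (q j * (q j + 1))) + D.card)
      + (K.biUnion (rpts (tlo G T hm) X z) \ Y).card
      ≤ ((K.biUnion (rpts (tlo G T hm) X z) \ Y).card : ℤ)
        * (K.biUnion (rpts (tlo G T hm) X z) \ Y).card := by
  have hdis : ∀ u ∈ K, ∀ v ∈ K, u ≠ v → Disjoint (rpts (tlo G T hm) X z u \ Y)
      (rpts (tlo G T hm) X z v \ Y) := by
    intro u hu v hv huv
    obtain ⟨x, hx, hux⟩ := mem_biUnion.1 (hK hu)
    obtain ⟨x', hx', hvx⟩ := mem_biUnion.1 (hK hv)
    exact ((Fam.dis_row hW h (mem_of_mem_erase hx) (mem_of_mem_erase hx') hux hvx huv (hk u hu)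
      (hk v hv)).mono ((h x (mem_of_mem_erase hx)).rpts_sub hX)
      ((h x' (mem_of_mem_erase hx')).rpts_sub hX)).mono sdiff_subset sdiff_subset
  have hsd : K.biUnion (rpts (tlo G T hm) X z) \ Y
      = K.biUnion fun u => rpts (tlo G T hm) X z u \ Y := by
    ext v
    simp only [mem_sdiff, mem_biUnion]
    constructor
    · rintro ⟨⟨u, hu, hv⟩, hv'⟩
      exact ⟨u, hu, hv, hv'⟩
    · rintro ⟨u, hu, hv, hv'⟩
      exact ⟨⟨u, hu, hv⟩, hv'⟩
  rw [hsd]
  refine NE_grp_le2 (G := G) (K := K) (P := fun u => rpts (tlo G T hm) X z u \ Y) hdis hQK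
    (fun i hi j hj hij => ?_) (b := fun j => 2 * q j
      * (∑ u ∈ Q j, ((rpts (tlo G T hm) X z u \ Y).card : ℤ)) - 2 * (q j * (q j + 1)))
    (fun j hj => ?_) hD
  · rw [disjoint_left]
    intro u hu hu'
    obtain ⟨h1, h2⟩ := hQU i hi u hu
    obtain ⟨h3, h4⟩ := hQU j hj u hu'
    have h5 : ho i ≠ ho j := fun h6 => hij (hho i hi j hj h6)
    obtain ⟨v, hv⟩ := (h _ h1).imem_ne h2
    exact disjoint_left.1 (hW.dHH _ h1 _ h3 h5) ((h _ h1).imem_sub h2 hv)
      ((h _ h3).imem_sub h4 hv)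
  · have h1 : (((Q j).biUnion fun u => rpts (tlo G T hm) X z u \ Y).card : ℤ)
        = ∑ u ∈ Q j, ((rpts (tlo G T hm) X z u \ Y).card : ℤ) := by
      rw [card_biUnion fun u hu v hv huv => hdis u (hQK j hj hu) v (hQK j hj hv) huv]
      push_cast
      rfl
    have hpt : ∀ v ∈ (Q j).biUnion fun u => rpts (tlo G T hm) X z u \ Y,
        v ∈ Z ∧ rws G T v ⊆ {ho j, z} := by
      intro v hv
      obtain ⟨u, hu, h2⟩ := mem_biUnion.1 hv
      obtain ⟨h3, h4⟩ := hQU j hj u hu
      exact Fam.rws_full hh hC h h3 h4 (hQf j hj u hu)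
        ((h _ h3).rpts_sub hX (mem_sdiff.1 h2).1)
    have h2 := hF.NE_rows (I := {ho j, z}) (fun v hv => (hpt v hv).1) (fun v hv => (hpt v hv).2)
      (q j)
    have h3 : ((({ho j, z} : Finset V).card : ℤ)) ≤ 2 := by exact_mod_cast card_le_two
    have h4 : (0 : ℤ) ≤ q j * (q j + 1) := by
      rcases le_or_gt 0 (q j) with h5 | h5
      · positivity
      · nlinarith
    rw [h1] at h2 ⊢
    nlinarith

/-- **the row test with any saving** `sv` in the missing pairs of the used points -/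
theorem Fam.row_sav (hP : PG G r) (hC : CSys G Z T hm A S)
    (hW : WSysT G (co G) A (CP G Z T S) (HP G Z T S) (tlo G T hm))
    (h : ∀ x ∈ A, Fam (co G) (CP G Z T S) (HP G Z T S) (tlo G T hm) x (U x))
    {z : V} (hz : z ∈ A) {K : Finset (Itm V)} (hK : K ⊆ (A.erase z).biUnion U)
    (hk : ∀ u ∈ K, ikp (tlo G T hm) z u ≠ 0)
    {X : Finset V → Finset V} (hX : ∀ Q, X Q ⊆ oth (tlo G T hm) z Q) (hX1 : ∀ Q, (X Q).card ≤ 1)
    (h0 : 0 ≤ ((S z).card : ℤ) - r + 1 + ∑ u ∈ K, (ikp (tlo G T hm) z u : ℤ))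
    {sv : ℤ} (hne : (NE G (K.biUnion (rpts (tlo G T hm) X z)) : ℤ) + sv
      + (K.biUnion (rpts (tlo G T hm) X z)).card
      ≤ ((K.biUnion (rpts (tlo G T hm) X z)).card : ℤ)
        * (K.biUnion (rpts (tlo G T hm) X z)).card) :
    2 * ((r : ℤ) - 1) * (((S z).card : ℤ) - r)
      + 2 * ∑ u ∈ K, (((CP G Z T S z).card : ℤ) * ikp (tlo G T hm) z u
          - (rcl G (CP G Z T S) (tlo G T hm) X z u).card) + sv
      ≤ NE G (S z) + 4 * (∑ u ∈ K, (ikp (tlo G T hm) z u : ℤ)) * (((S z).card : ℤ) - r + 1)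
        + 2 * (∑ u ∈ K, (ikp (tlo G T hm) z u : ℤ))
          * (2 * (∑ u ∈ K, (ikp (tlo G T hm) z u : ℤ)) - 1) := by
  have h1 := Fam.row_ne hP hC hW h hz hK hk hX
  have hg := Fam.grp hW h (D := A.erase z) (erase_subset _ _) hK (z := z) hX
  have hfil : (K.filter fun u => ikp (tlo G T hm) z u ≠ 0) = K := filter_true_of_mem hk
  rw [hfil] at hg
  have hcW : (K.biUnion (rpts (tlo G T hm) X z)).card
      = ∑ u ∈ K, (rpts (tlo G T hm) X z u).card := card_biUnion hg.dis
  have h2 : ∀ u ∈ K, 1 ≤ (rpts (tlo G T hm) X z u).card ∧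
      (rpts (tlo G T hm) X z u).card ≤ 2 * ikp (tlo G T hm) z u := by
    intro u hu
    obtain ⟨y, hy, huy⟩ := mem_biUnion.1 (hK hu)
    have hf := h y (mem_of_mem_erase hy)
    have hku := hk u hu
    rcases u with Q | e
    · have h2 := hf.two Q huy
      have h3 : (rpts (tlo G T hm) X z (Sum.inl Q)).card
          ≤ (tlp (tlo G T hm) Q z).card + (X Q).card := card_union_le _ _
      have h4 : (tlp (tlo G T hm) Q z).card ≤ (rpts (tlo G T hm) X z (Sum.inl Q)).card :=
        card_le_card subset_union_left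
      have h5 := hX1 Q
      by_cases hone : tlp (tlo G T hm) Q z = Q
      · have h6 : X Q = ∅ := by
          have h7 : oth (tlo G T hm) z Q = ∅ := by
            unfold oth
            rw [hone, sdiff_self]
            rfl
          have := hX Q
          rw [h7] at this
          exact subset_empty.1 this
        have h7 : ikp (tlo G T hm) z (Sum.inl Q) = Q.card - 1 := by
          simp only [ikp, hone, if_true]
        rw [h7]
        rw [h6, card_empty, hone] at h3
        rw [hone] at h4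
        omega
      · have h7 : ikp (tlo G T hm) z (Sum.inl Q) = (tlp (tlo G T hm) Q z).card := by
          simp only [ikp, hone, if_false]
        rw [h7] at hku ⊢
        omega
    · have h3 : ikp (tlo G T hm) z (Sum.inr e) = 1 := by
        by_cases h4 : tlo G T hm e.1 = z
        · simp only [ikp, h4, if_true]
        · exact absurd (by simp only [ikp, h4, if_false]) hku
      rw [h3]
      simp only [rpts]
      exact ⟨card_pos.2 ⟨e.1, mem_insert_self _ _⟩, card_le_two⟩
  have h3 : (∑ u ∈ K, ((rpts (tlo G T hm) X z u).card : ℤ))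
      ≤ 2 * ∑ u ∈ K, (ikp (tlo G T hm) z u : ℤ) := by
    rw [mul_sum]
    exact sum_le_sum fun u hu => by exact_mod_cast (h2 u hu).2
  have h4 : (K.card : ℤ) ≤ ∑ u ∈ K, ((rpts (tlo G T hm) X z u).card : ℤ) := by
    rw [card_eq_sum_ones]
    push_cast
    exact sum_le_sum fun u hu => by exact_mod_cast (h2 u hu).1
  have hne' : (NE G (K.biUnion (rpts (tlo G T hm) X z)) : ℤ) + sv
      + ∑ u ∈ K, ((rpts (tlo G T hm) X z u).card : ℤ)
      ≤ (∑ u ∈ K, ((rpts (tlo G T hm) X z u).card : ℤ))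
        * ∑ u ∈ K, ((rpts (tlo G T hm) X z u).card : ℤ) := by
    rw [hcW] at hne
    push_cast at hne
    exact hne
  set w : ℤ := ∑ u ∈ K, ((rpts (tlo G T hm) X z u).card : ℤ) with hw
  set v : ℤ := ∑ u ∈ K, (ikp (tlo G T hm) z u : ℤ) with hv
  have h5 : 0 ≤ (2 * v - w) * (2 * (((S z).card : ℤ) - r + 1) + 2 * v + w - 1) := by
    rcases K.eq_empty_or_nonempty with hK0 | hK0
    · have e1 : w = 0 := by
        rw [hw, hK0]
        simp
      have e2 : v = 0 := by
        rw [hv, hK0]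
        simp
      rw [e1, e2]
      simp
    · have e1 : (1 : ℤ) ≤ K.card := by exact_mod_cast card_pos.2 hK0
      exact mul_nonneg (by linarith) (by linarith)
  nlinarith

/-- **any saving** `sv` in the missing pairs outside the columns -/
theorem RowN.rowE_sav {z y : V} {K : Finset (Itm V)} {X : Finset V → Finset V} {EX : ℤ}
    (hN : RowN G Z T hm r S U K X z y EX) {sv : ℤ}
    (h2 : (NE G (K.biUnion (rpts (tlo G T hm) X z) \ CP G Z T S y) : ℤ) + sv
      + (K.biUnion (rpts (tlo G T hm) X z) \ CP G Z T S y).card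
      ≤ ((K.biUnion (rpts (tlo G T hm) X z) \ CP G Z T S y).card : ℤ)
        * (K.biUnion (rpts (tlo G T hm) X z) \ CP G Z T S y).card) :
    RowE G Z T hm r S U K X z y (EX + sv) := by
  unfold RowN at hN
  unfold RowE
  linarith

end Sav

end Pool.Agent.Lib.MP_f04ccf_co
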