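import Pool.Agent.Lib.MP_f04ccf_co.M.RowG
import Pool.Agent.Lib.MP_f04ccf_co.M.SameM

/-!
MP_f04ccf_co, notes 17535, 17653, 17666: the saving of missing pairs in the row test of `z` with the columns
of `y`, the PC pairs of both homes of the cell in joint form (`Fam.rowM_joint`).

* `sav_cross`: the missing pairs of `M ∪ W`, all edges inside `M`, any saving in `W`, one edge from every
  point of `M` to every group of `W` in a family;
* `Fam.adj_full_pc`: a member of a used PC pair of `y` with tail `z` sees every item of `y` all of whose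
  loads are at `z`;
* `Fam.savG`: the saving `E (W_y) + 2 q f + sv`.
-/

set_option autoImplicit false

namespace Pool.Agent.Lib.MP_f04ccf_co

open Finset

attribute [local instance] Classical.propDecidable

section Gen

variable {V : Type*} {G : SimpleGraph V}

/-- **the saving of two parts, with the edges between them** -/
lemma sav_cross {ι : Type*} {M W : Finset V} (hd : Disjoint M W) {sv : ℤ}
    (hs : (NE G W : ℤ) + sv + W.card ≤ (W.card : ℤ) * W.card)
    {F : Finset ι} {P : ι → Finset V} (hP : ∀ u ∈ F, P u ⊆ W)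
    (hPd : ∀ u ∈ F, ∀ v ∈ F, u ≠ v → Disjoint (P u) (P v))
    (hadj : ∀ w ∈ M, ∀ u ∈ F, ∃ a ∈ P u, G.Adj w a) :
    (NE G (M ∪ W) : ℤ) + (E G M + 2 * ((M.card : ℤ) * F.card) + sv) + (M ∪ W).card
      ≤ ((M ∪ W).card : ℤ) * (M ∪ W).card := by
  have h1 : ∀ w ∈ M, F.card ≤ dg G W w := by
    intro w hw
    have h2 : F.card ≤ (F.biUnion fun u => (P u).filter fun a => G.Adj w a).card := by
      rw [card_biUnion fun u hu v hv huv =>
        disjoint_filter_filter (hPd u hu v hv huv), card_eq_sum_ones]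
      refine sum_le_sum fun u hu => ?_
      obtain ⟨a, ha, hwa⟩ := hadj w hw u hu
      exact card_pos.2 ⟨a, mem_filter.2 ⟨ha, hwa⟩⟩
    refine h2.trans (card_le_card (biUnion_subset.2 fun u hu a ha => ?_))
    obtain ⟨h3, h4⟩ := mem_filter.1 ha
    exact mem_filter.2 ⟨hP u hu h3, h4⟩
  have h2 : (M.card : ℤ) * F.card ≤ ∑ w ∈ M, (dg G W w : ℤ) := by
    have h3 : ∑ _w ∈ M, (F.card : ℤ) ≤ ∑ w ∈ M, (dg G W w : ℤ) :=
      sum_le_sum fun w hw => by exact_mod_cast h1 w hw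
    rw [sum_const, nsmul_eq_mul] at h3
    exact h3
  have h3 : (NE G (M ∪ W) : ℤ) = NE G M + NE G W + 2 * ∑ w ∈ W, (nd G M w : ℤ) := by
    rw [NE_union hd]
    push_cast
    ring
  have h4 : ∑ w ∈ W, (dg G M w : ℤ) + ∑ w ∈ W, (nd G M w : ℤ) = (M.card : ℤ) * W.card := by
    have := sum_dg_nd (G := G) (C := M) (Z := W) hd
    linarith
  have h5 : ∑ w ∈ W, (dg G M w : ℤ) = ∑ w ∈ M, (dg G W w : ℤ) := by
    have := dg_comm G W M
    exact_mod_cast this
  have h6 := E_add_NE (G := G) M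
  have h7 : ((M ∪ W).card : ℤ) = M.card + W.card := by
    rw [card_union_of_disjoint hd]
    push_cast
    rfl
  rw [h3, h7]
  nlinarith

end Gen

section SvG

variable {V : Type*} {G : SimpleGraph V} {Z T : Finset V} {hm : V → V} {r m t : ℕ}
  {A : Finset V} {S : V → Finset V} {U : V → Finset (Itm V)}

/-- **a member of a PC pair of `y` with tail `z` sees every other item of `y` with all loads at `z`** -/
theorem Fam.adj_full_pc (hF : PFrame G r m t Z T) (hh : Homes G Z T hm)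
    (hC : CSys G Z T hm A S)
    (h : ∀ x ∈ A, Fam (co G) (CP G Z T S) (HP G Z T S) (tlo G T hm) x (U x))
    {z y : V} (hz : z ∈ A) (hy : y ∈ A) {e : V × V} (he : Sum.inr e ∈ U y)
    (hez : tlo G T hm e.1 = z) {Q : Finset V} (hQ : Sum.inl Q ∈ U y)
    (hf : ∀ x, x ≠ z → ikp (tlo G T hm) x (Sum.inl Q : Itm V) = 0) :
    ∃ a ∈ Q, G.Adj e.1 a := by
  have hfy := h y hy
  have hZI : ∀ v ∈ HP G Z T S y, tlo G T hm v = z → v ∈ ZI G Z T {y, z} := by
    intro v hv hvz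
    obtain ⟨h1, h2⟩ := mem_Dbl.1 (hC.mem_Dbl_of_tlo hh hy hv hvz)
    exact PFrame.mem_ZI_of_BB h1 (by rw [h2])
  have hQ2 := hfy.two Q hQ
  obtain ⟨a, ha, b, hb, hab⟩ := one_lt_card.1 (lt_of_lt_of_le one_lt_two hQ2)
  have htl : ∀ v ∈ Q, tlo G T hm v = z := by
    intro v hv
    by_contra h1
    exact ikp_tail_ne (tl := tlo G T hm) (u := (Sum.inl Q : Itm V))
      (fun Q' hQ' => hfy.two Q' (hQ' ▸ hQ)) hv (hf _ h1)
  have hne : ∀ v ∈ Q, e.1 ≠ v := by
    intro v hv h1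
    have h2 := hfy.dis _ he _ hQ (fun h3 => by cases h3)
    exact disjoint_left.1 h2 (mem_singleton_self e.1) (h1 ▸ hv)
  by_contra hcon
  have hna : ∀ v ∈ Q, ¬ G.Adj e.1 v := fun v hv h1 => hcon ⟨v, hv, h1⟩
  have hind : ¬ G.Adj a b := (co_adj.1 (hfy.clq Q hQ a ha b hb hab)).2
  exact hF.no3 (I := {y, z}) (by
      intro x hx
      rcases mem_insert.1 hx with h1 | h1
      · rw [h1]
        exact hC.sub hy
      · rw [mem_singleton.1 h1]
        exact hC.sub hz) card_le_two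
    (hZI _ (hfy.pcH e he) hez) (hZI a (hfy.sub Q hQ ha) (htl a ha))
    (hZI b (hfy.sub Q hQ hb) (htl b hb)) (hne a ha) (hne b hb) hab (hna a ha) (hna b hb) hind

/-- **the saving in the row test of `z` with the columns of `y`**: the edges inside the used members of PC
pairs of `y` with tail `z`, one edge from each of them to every item of `F`, and any saving of the rest -/
theorem Fam.savG (hF : PFrame G r m t Z T) (hh : Homes G Z T hm)
    (hC : CSys G Z T hm A S)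
    (hW : WSysT G (co G) A (CP G Z T S) (HP G Z T S) (tlo G T hm))
    (h : ∀ x ∈ A, Fam (co G) (CP G Z T S) (HP G Z T S) (tlo G T hm) x (U x))
    {z y : V} (hz : z ∈ A) (hy : y ∈ A) {K : Finset (Itm V)}
    (hK : K ⊆ (A.erase z).biUnion U) (hk : ∀ u ∈ K, ikp (tlo G T hm) z u ≠ 0)
    {X : Finset V → Finset V} (hX : ∀ Q, X Q ⊆ oth (tlo G T hm) z Q) {sv : ℤ}
    (hs : (NE G ((K \ (upc (tlo G T hm) z (U y) K).image Sum.inr).biUnion
          (rpts (tlo G T hm) X z) \ CP G Z T S y) : ℤ) + sv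
        + ((K \ (upc (tlo G T hm) z (U y) K).image Sum.inr).biUnion
          (rpts (tlo G T hm) X z) \ CP G Z T S y).card
      ≤ (((K \ (upc (tlo G T hm) z (U y) K).image Sum.inr).biUnion
          (rpts (tlo G T hm) X z) \ CP G Z T S y).card : ℤ)
        * ((K \ (upc (tlo G T hm) z (U y) K).image Sum.inr).biUnion
          (rpts (tlo G T hm) X z) \ CP G Z T S y).card)
    {F : Finset (Finset V)} (hFK : ∀ Q ∈ F, Sum.inl Q ∈ K ∧ Sum.inl Q ∈ U y)
    (hFf : ∀ Q ∈ F, ∀ x, x ≠ z → ikp (tlo G T hm) x (Sum.inl Q : Itm V) = 0) :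
    (NE G (K.biUnion (rpts (tlo G T hm) X z) \ CP G Z T S y) : ℤ)
      + (E G ((upc (tlo G T hm) z (U y) K).image Prod.fst)
        + 2 * (((upc (tlo G T hm) z (U y) K).card : ℤ) * F.card) + sv)
      + (K.biUnion (rpts (tlo G T hm) X z) \ CP G Z T S y).card
      ≤ ((K.biUnion (rpts (tlo G T hm) X z) \ CP G Z T S y).card : ℤ)
        * (K.biUnion (rpts (tlo G T hm) X z) \ CP G Z T S y).card := by
  obtain ⟨P2, hP2⟩ : ∃ P, P = upc (tlo G T hm) z (U y) K := ⟨_, rfl⟩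
  rw [← hP2] at hs ⊢
  obtain ⟨M2, hM2⟩ : ∃ M, M = P2.image Prod.fst := ⟨_, rfl⟩
  obtain ⟨K0, hK0⟩ : ∃ K0, K0 = K \ P2.image Sum.inr := ⟨_, rfl⟩
  rw [← hK0] at hs
  rw [← hM2]
  have fy := h y hy
  have mP2 : ∀ e ∈ P2, Sum.inr e ∈ U y ∧ tlo G T hm e.1 = z ∧ Sum.inr e ∈ K := fun e he =>
    mem_upc.1 (hP2 ▸ he)
  have hK0K : K0 ⊆ K := hK0 ▸ sdiff_subset
  have hown : ∀ u ∈ K, ∃ x ∈ A.erase z, u ∈ U x := fun u hu => by
    obtain ⟨x, hx, hux⟩ := mem_biUnion.1 (hK hu)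
    exact ⟨x, hx, hux⟩
  have hM2H : M2 ⊆ HP G Z T S y := by
    intro v hv
    rw [hM2] at hv
    obtain ⟨e, he, rfl⟩ := mem_image.1 hv
    exact fy.pcH e (mP2 e he).1
  have hM2Y : Disjoint M2 (CP G Z T S y) :=
    (CP_HP_disjoint (G := G) (Z := Z) (T := T) (S := S) (x := y)).symm.mono_left hM2H
  have hWY : K.biUnion (rpts (tlo G T hm) X z) \ CP G Z T S y
      = M2 ∪ (K0.biUnion (rpts (tlo G T hm) X z) \ CP G Z T S y) := by
    ext v
    rw [mem_sdiff, mem_union, mem_sdiff, mem_biUnion, mem_biUnion]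
    constructor
    · rintro ⟨⟨u, hu, hvu⟩, hvY⟩
      by_cases hu2 : u ∈ P2.image Sum.inr
      · obtain ⟨e, he, rfl⟩ := mem_image.1 hu2
        left
        rcases mem_insert.1 hvu with h3 | h3
        · rw [h3, hM2]
          exact mem_image_of_mem _ he
        · rw [mem_singleton.1 h3] at hvY
          exact absurd (fy.pcC e (mP2 e he).1) hvY
      · right
        exact ⟨⟨u, hK0 ▸ mem_sdiff.2 ⟨hu, hu2⟩, hvu⟩, hvY⟩
    · rintro (hv | ⟨⟨u, hu, hvu⟩, hvY⟩)
      · refine ⟨?_, fun h3 => disjoint_left.1 hM2Y hv h3⟩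
        rw [hM2] at hv
        obtain ⟨e, he, rfl⟩ := mem_image.1 hv
        exact ⟨Sum.inr e, (mP2 e he).2.2, mem_insert_self _ _⟩
      · exact ⟨⟨u, hK0K hu, hvu⟩, hvY⟩
  have hdK : ∀ e ∈ P2, ∀ u ∈ K, u ≠ Sum.inr e →
      e.1 ∉ rpts (tlo G T hm) X z u := by
    intro e he u hu hne hv
    obtain ⟨x, hx, hux⟩ := hown u hu
    have h3 := Fam.dis_row hW h hy (mem_of_mem_erase hx) (mP2 e he).1 hux (Ne.symm hne)
      (hk _ (mP2 e he).2.2) (hk u hu)
    exact disjoint_left.1 h3 (mem_insert_self _ _)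
      ((h x (mem_of_mem_erase hx)).rpts_sub hX hv)
  have hdis : Disjoint M2 (K0.biUnion (rpts (tlo G T hm) X z) \ CP G Z T S y) := by
    rw [disjoint_left]
    intro v hv hv'
    rw [hM2] at hv
    obtain ⟨e, he, rfl⟩ := mem_image.1 hv
    obtain ⟨u, hu, hvu⟩ := mem_biUnion.1 (mem_sdiff.1 hv').1
    refine hdK e he u (hK0K hu) ?_ hvu
    rintro rfl
    rw [hK0] at hu
    exact (mem_sdiff.1 hu).2 (mem_image_of_mem _ he)
  have j2 : ∀ e ∈ P2, ∀ f ∈ P2, e.1 = f.1 → e = f := fun e he f hf hef =>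
    fy.pcz_inj e (mem_pcz.2 ⟨(mP2 e he).1, (mP2 e he).2.1⟩) f
      (mem_pcz.2 ⟨(mP2 f hf).1, (mP2 f hf).2.1⟩) hef
  have c2 : M2.card = P2.card := by
    rw [hM2]
    exact card_image_of_injOn fun e he f hf hef =>
      j2 e (by exact_mod_cast he) f (by exact_mod_cast hf) hef
  have hX1 : ∀ Q ∈ F, rpts (tlo G T hm) X z (Sum.inl Q) = Q := by
    intro Q hQ
    obtain ⟨h1, h2⟩ := hFK Q hQ
    have htl : ∀ v ∈ Q, tlo G T hm v = z := by
      intro v hv
      by_contra h3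
      exact ikp_tail_ne (tl := tlo G T hm) (u := (Sum.inl Q : Itm V))
        (fun Q' hQ' => fy.two Q' (hQ' ▸ h2)) hv (hFf Q hQ _ h3)
    have h3 : tlp (tlo G T hm) Q z = Q :=
      Subset.antisymm tlp_sub fun v hv => mem_tlp.2 ⟨hv, htl v hv⟩
    show tlp (tlo G T hm) Q z ∪ X Q = Q
    rw [h3]
    exact union_eq_left.2 ((hX Q).trans sdiff_subset)
  have h1 := sav_cross (G := G) hdis hs (F := F) (P := fun Q => Q)
    (fun Q hQ v hv => by
      obtain ⟨h1, h2⟩ := hFK Q hQ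
      refine mem_sdiff.2 ⟨mem_biUnion.2 ⟨Sum.inl Q, ?_, by rw [hX1 Q hQ]; exact hv⟩, fun h3 => ?_⟩
      · rw [hK0]
        refine mem_sdiff.2 ⟨h1, fun h3 => ?_⟩
        obtain ⟨e, -, h4⟩ := mem_image.1 h3
        cases h4
      · exact disjoint_left.1 (CP_HP_disjoint (G := G) (Z := Z) (T := T) (S := S) (x := y)) h3
          (fy.sub Q h2 hv))
    (fun Q hQ Q' hQ' hne => fy.dis _ (hFK Q hQ).2 _ (hFK Q' hQ').2
      fun h3 => hne (Sum.inl_injective h3))
    (fun w hw Q hQ => by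
      rw [hM2] at hw
      obtain ⟨e, he, rfl⟩ := mem_image.1 hw
      exact Fam.adj_full_pc hF hh hC h hz hy (mP2 e he).1 (mP2 e he).2.1 (hFK Q hQ).2 (hFf Q hQ))
  rw [hWY]
  rw [c2] at h1
  exact h1

end SvG

end Pool.Agent.Lib.MP_f04ccf_co
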