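import Pool.Agent.Lib.MP_f04ccf_co.M.RowGI
import Pool.Agent.Lib.MP_f04ccf_co.M.SvG
import Pool.Agent.Lib.MP_f04ccf_co.M.EnGC
import Pool.Agent.Lib.MP_f04ccf_co.M.TsU

/-!
MP_f04ccf_co, notes 17535, 17622, 17663, 17692, 17724: the row test of `i` with the columns of `j`, the PC pairs
of both homes of the cell in joint form, over the row indices, at any levels, with the best other points.

* `RowGN`: the statement over numbers, energy `En i j`, any saving `SavJ` of the items which are not PC pairs of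
  the host `j`, and two missing pairs for every PC pair of `j` and every full item of `j`;
* `WCoreK.savGL`: the saving; `WCoreK.rowgN`: the statement for any packings with the least number of parts;
* `WItK.rowg`: version [B], `En = 2 mu h - mu (mu + 1) + (Nb i - nc i j) + 2 ∑ Nx`; `WItK.ncs`: the numbers
  `nc i j`;
* `WItC.rowg`: version [C], `En = 2 mu h - mu (mu + 1) + ∑_(l ≠ i, j) NN i l`.
-/

set_option autoImplicit false

namespace Pool.Agent.Lib.MP_f04ccf_co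

open Finset

attribute [local instance] Classical.propDecidable

section Defs

variable {ι : Type*}

/-- **the row test with the columns of `j`, the PC pairs of both homes in joint form**, energy `En i j` -/
def RowGN (R : ℤ) (n : ℕ) (t s : ℕ → ℤ) (U : Finset ι) (ho : ι → ℕ) (vl : ι → ℤ)
    (kp ms mn : ℕ → ι → ℤ) (be : ℕ → ℕ → ℤ) (pc ar : ι → ℤ) (En : ℕ → ℕ → ℤ) : Prop :=
  ∀ i < n, ∀ j < n, i ≠ j → ∀ K ⊆ U, (∀ u ∈ K, ho u ≠ i) → ∀ g : ι → ℕ,
    (∀ u ∈ K, 1 ≤ g u) → (∀ u ∈ K, (g u : ℤ) ≤ kp i u) → ∀ sv : ℤ,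
    SavJ n ho vl kp pc i g {j} (K.filter fun u => ho u = j → pc u = 0) sv →
    2 * R * s i
      + 2 * ∑ u ∈ K, (g u * (R - t i) - if kp i u ≤ (g u : ℤ) then mn i u else 0)
      + 2 * ∑ u ∈ U.filter (fun u => ho u = i), (kp j u * (R - t j) - ms j u)
      + (sv + 2 * ((∑ u ∈ K, if ho u = j then pc u else 0)
        * ((K.filter fun u => ho u = j ∧ pc u = 0 ∧ ∀ l < n, l ≠ i → kp l u = 0).card : ℤ)))
      ≤ En i j
        + (be i j + ∑ u ∈ K, if ho u = j then pc u else 0)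
          * (be i j + (∑ u ∈ K, if ho u = j then pc u else 0) + 1)
        + 2 * (∑ u ∈ K, ((g u : ℤ) + 1 - if ho u = j then pc u else 0) + (R - t j)) * (s i + 1)
        + (∑ u ∈ K, ((g u : ℤ) + 1 - if ho u = j then pc u else 0))
          * (∑ u ∈ K, ((g u : ℤ) + 1 - if ho u = j then pc u else 0) - 1)
        + 2 * ∑ u ∈ K, (if ho u = j then (1 - pc u) * ar u else ((g u : ℤ) + 1) * (R - t j))

end Defs

section RowGT

variable {V : Type*} {G : SimpleGraph V} {Z T : Finset V} {hm : V → V} {r m n p : ℕ}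
  {φ : Finset (V × V) → Finset (Finset V) → ℕ} {B : V → Finset (V × V)}
  {Ps : V → Finset (Finset V)} {host : Itm V → V} {ρ : V → ℕ} {σ : ℕ → V}

/-- **the saving in the row test with the PC pairs in joint form, at any levels** -/
theorem WCoreK.savGL (h : WCoreK G Z T r m n p hm)
    (hpk : ∀ x ∈ T, Pk G (cz G Z T hm x) (hz G Z T hm x) (tlo G T hm) (B x) (Ps x))
    (min : ∀ x ∈ T, ∀ B' Ps', Pk G (cz G Z T hm x) (hz G Z T hm x) (tlo G T hm) B' Ps' →
      (Ps x).card ≤ Ps'.card)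
    (hst : ∀ x ∈ T, ∀ u ∈ pkf (B x) (Ps x), host u = x)
    (rk : Rank T (tI G Z T hm r Z) ρ σ) {i j : ℕ} (hi : i < n) (hj : j < n)
    {K : Finset (Itm V)}
    (hK : K ⊆ T.biUnion fun x => pkf (B x) (Ps x)) (hKh : ∀ u ∈ K, ρ (host u) ≠ i)
    {g : Itm V → ℕ} (hg1 : ∀ u ∈ K, 1 ≤ g u) (hg2 : ∀ u ∈ K, g u ≤ ikp (tlo G T hm) (σ i) u)
    {sv : ℤ}
    (hS : SavJ n (fun u => ρ (host u)) (fun u => (ivl u : ℤ))
      (fun i u => (ikp (tlo G T hm) (σ i) u : ℤ)) (fun u => (ipc u : ℤ)) i g {j}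
      (K.filter fun u => ρ (host u) = j → (ipc u : ℤ) = 0) sv) :
    (NE G (K.biUnion (rpts (tlo G T hm) (xlv G (cz G Z T hm) (tlo G T hm) (σ i) g) (σ i))
          \ cz G Z T hm (σ j)) : ℤ)
        + ((sv + 2 * ((∑ u ∈ K, if ρ (host u) = j then (ipc u : ℤ) else 0)
            * ((K.filter fun u => ρ (host u) = j ∧ (ipc u : ℤ) = 0
              ∧ ∀ l < n, l ≠ i → (ikp (tlo G T hm) (σ l) u : ℤ) = 0).card : ℤ)))
          + E G ((upc (tlo G T hm) (σ i) (pkf (B (σ j)) (Ps (σ j))) K).image Prod.fst))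
        + (K.biUnion (rpts (tlo G T hm) (xlv G (cz G Z T hm) (tlo G T hm) (σ i) g) (σ i))
          \ cz G Z T hm (σ j)).card
      ≤ ((K.biUnion (rpts (tlo G T hm) (xlv G (cz G Z T hm) (tlo G T hm) (σ i) g) (σ i))
          \ cz G Z T hm (σ j)).card : ℤ)
        * (K.biUnion (rpts (tlo G T hm) (xlv G (cz G Z T hm) (tlo G T hm) (σ i) g) (σ i))
          \ cz G Z T hm (σ j)).card := by
  have hcard := h.toWHom.cardT
  have hmem : ∀ i < n, σ i ∈ T := fun i hi => rk.mem i (by rw [hcard]; exact hi)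
  have hfam : ∀ x ∈ T, Fam (co G) (cz G Z T hm) (hz G Z T hm) (tlo G T hm) x
      (pkf (B x) (Ps x)) := fun x hx => (hpk x hx).fam (h.csys.dCH hx hx).symm
  have hk : ∀ u ∈ K, ikp (tlo G T hm) (σ i) u ≠ 0 := fun u hu h3 => by
    have := hg1 u hu
    have := hg2 u hu
    omega
  have hmK : ∀ u ∈ K, ∃ x ∈ T, u ∈ pkf (B x) (Ps x) ∧ host u = x := by
    intro u hu
    obtain ⟨x, hx, hux⟩ := mem_biUnion.1 (hK hu)
    exact ⟨x, hx, hux, hst x hx u hux⟩
  have hK' : K ⊆ (T.erase (σ i)).biUnion fun x => pkf (B x) (Ps x) := by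
    intro u hu
    obtain ⟨x, hx, hux⟩ := mem_biUnion.1 (hK hu)
    refine mem_biUnion.2 ⟨x, mem_erase.2 ⟨fun h1 => hKh u hu ?_, hx⟩, hux⟩
    show ρ (host u) = i
    rw [hst x hx u hux, h1]
    exact rk.right i (by rw [hcard]; exact hi)
  have hho : ∀ u ∈ K, (host u = σ j ↔ ρ (host u) = j) := by
    intro u hu
    obtain ⟨x, hx, -, hxx⟩ := hmK u hu
    rw [hxx]
    constructor
    · rintro rfl
      exact rk.right j (by rw [hcard]; exact hj)
    · rintro rfl
      exact (rk.left x hx).symm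
  have hsty : ∀ u ∈ K, (host u = σ j ↔ u ∈ pkf (B (σ j)) (Ps (σ j))) := by
    intro u hu
    obtain ⟨x, hx, hux, hxx⟩ := hmK u hu
    constructor
    · intro h1
      rw [hxx] at h1
      exact h1 ▸ hux
    · exact hst (σ j) (hmem j hj) u
  -- the items which are not PC pairs of `j`
  have hK0 : K \ (upc (tlo G T hm) (σ i) (pkf (B (σ j)) (Ps (σ j))) K).image Sum.inr
      = K.filter fun u => ρ (host u) = j → (ipc u : ℤ) = 0 := by
    ext u
    rw [mem_sdiff, mem_filter]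
    refine and_congr_right fun hu => ?_
    rcases u with Q | e
    · refine ⟨fun _ _ => rfl, fun _ h1 => ?_⟩
      obtain ⟨e, -, h2⟩ := mem_image.1 h1
      cases h2
    · constructor
      · intro h1 h2
        exfalso
        refine h1 (mem_image_of_mem _ (mem_upc.2 ⟨(hsty _ hu).1 ((hho _ hu).2 h2), ?_, hu⟩))
        by_contra h3
        exact hk _ hu (by simp only [ikp, h3, if_false])
      · intro h1 h2
        obtain ⟨f, hf, h3⟩ := mem_image.1 h2
        have h4 := Sum.inr_injective h3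
        subst h4
        have h5 := h1 ((hho _ hu).1 ((hsty _ hu).2 (mem_upc.1 hf).1))
        simp [ipc] at h5
  have hs := h.savJJ hpk min hst rk hi (J := {j}) (fun l hl => by
    rw [mem_singleton.1 hl]
    exact hj) ((filter_subset _ _).trans hK) (fun u hu => hKh u (mem_filter.1 hu).1)
    (fun u hu => hg1 u (mem_filter.1 hu).1) (fun u hu => hg2 u (mem_filter.1 hu).1) hS
  rw [image_singleton, singleton_biUnion, ← hK0] at hs
  -- the full items of `j`
  obtain ⟨S, hSd⟩ : ∃ S, S = K.filter fun u => ρ (host u) = j ∧ (ipc u : ℤ) = 0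
      ∧ ∀ l < n, l ≠ i → (ikp (tlo G T hm) (σ l) u : ℤ) = 0 := ⟨_, rfl⟩
  have hSc : S.toLeft.card = S.card := by
    have h1 : S.toRight = ∅ := by
      rw [eq_empty_iff_forall_notMem]
      intro e he
      have h2 := mem_toRight.1 he
      rw [hSd] at h2
      have h3 := (mem_filter.1 h2).2.2.1
      simp [ipc] at h3
    have h2 := card_toLeft_add_card_toRight (u := S)
    rw [h1, card_empty] at h2
    exact h2
  have h1 := Fam.savG h.F.toPFrame h.hh h.csys h.wsysT hfam (hmem i hi) (hmem j hj) hK' hk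
    (X := xlv G (cz G Z T hm) (tlo G T hm) (σ i) g) (fun Q => xlv_sub) hs (F := S.toLeft)
    (fun Q hQ => by
      have h2 := mem_toLeft.1 hQ
      rw [hSd] at h2
      obtain ⟨h3, h4, -⟩ := mem_filter.1 h2
      exact ⟨h3, (hsty _ h3).1 ((hho _ h3).2 h4)⟩)
    (fun Q hQ x hx => by
      have h2 := mem_toLeft.1 hQ
      rw [hSd] at h2
      obtain ⟨h3, h4, -, h5⟩ := mem_filter.1 h2
      have hux := (hsty _ h3).1 ((hho _ h3).2 h4)
      by_contra h6
      obtain ⟨v, hv, hvx⟩ := ikp_ne_tail (fun Q' hQ' => (hfam _ (hmem j hj)).two Q' (hQ' ▸ hux)) h6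
      have h7 := h.toWHom.ht _ (hmem j hj) v ((hfam _ (hmem j hj)).imem_sub hux hv)
      rw [hvx] at h7
      have hxT := mem_of_mem_erase h7
      have h8 := rk.lt x hxT
      rw [hcard] at h8
      have h9 : ρ x ≠ i := fun h9 => hx (by rw [← rk.left x hxT, h9])
      have h10 := h5 (ρ x) h8 h9
      rw [rk.left x hxT] at h10
      exact h6 (by exact_mod_cast h10))
  have h2 : ∑ u ∈ K, (if ρ (host u) = j then (ipc u : ℤ) else 0)
      = ((upc (tlo G T hm) (σ i) (pkf (B (σ j)) (Ps (σ j))) K).card : ℤ) := by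
    have h3 := sum_upc (host := host) hk hsty fun _ => 1
    rw [sum_const, nsmul_eq_mul, mul_one] at h3
    rw [h3]
    refine sum_congr rfl fun u hu => ?_
    by_cases h4 : ρ (host u) = j
    · rw [if_pos h4, if_pos ((hho u hu).2 h4)]
      rcases u with Q | e
      · simp [ipc]
      · simp [ipc]
    · rw [if_neg h4, if_neg fun h5 => h4 ((hho u hu).1 h5)]
  rw [← hSd, h2]
  rw [hSc] at h1
  have h3 : ∀ x, CP G Z T (fun x => Z.filter fun v => hm v = x) x = cz G Z T hm x := fun _ => rfl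
  rw [h3] at h1
  linarith

/-- **the row test with the PC pairs of both homes in joint form**, any packings with the least number of
parts, any energy -/
theorem WCoreK.rowgN (hp : 2 * r ≤ p) (h : WCoreK G Z T r m n p hm)
    (hpk : ∀ x ∈ T, Pk G (cz G Z T hm x) (hz G Z T hm x) (tlo G T hm) (B x) (Ps x))
    (min : ∀ x ∈ T, ∀ B' Ps', Pk G (cz G Z T hm x) (hz G Z T hm x) (tlo G T hm) B' Ps' →
      (Ps x).card ≤ Ps'.card)
    (hst : ∀ x ∈ T, ∀ u ∈ pkf (B x) (Ps x), host u = x)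
    (rk : Rank T (tI G Z T hm r Z) ρ σ) {En : ℕ → ℕ → ℤ}
    (EN : ∀ i < n, ∀ j < n, i ≠ j →
      2 * eI G hm Z (σ i) + E G ((pcs (tlo G T hm) (B (σ i)) (σ j)).image Prod.fst)
      ≤ En i j + 2 * ∑ e ∈ pcs (tlo G T hm) (B (σ i)) (σ j), (nd G (cz G Z T hm (σ i)) e.1 : ℤ)) :
    RowGN ((r : ℤ) - 1) n (fun i => tI G Z T hm r Z (σ i)) (fun i => sI hm r Z (σ i))
      (T.biUnion fun x => pkf (B x) (Ps x)) (fun u => ρ (host u)) (fun u => (ivl u : ℤ))
      (fun i u => (ikp (tlo G T hm) (σ i) u : ℤ))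
      (fun i u => (ims G (cz G Z T hm) (tlo G T hm) (σ i) u : ℤ))
      (fun i u => (imn G (cz G Z T hm) (tlo G T hm) (σ i) u : ℤ))
      (fun i j => pcn (tlo G T hm) B (σ i) (σ j)) (fun u => (ipc u : ℤ))
      (fun u => (iar G (cz G Z T hm (host u)) u : ℤ)) En := by
  intro i hi j hj hij K hK hKh g hg1 hg2 sv hS
  have hcard := h.toWHom.cardT
  have hmem : ∀ i < n, σ i ∈ T := fun i hi => rk.mem i (by rw [hcard]; exact hi)
  have hne : σ i ≠ σ j := fun h1 =>
    hij (rk.sinj (by rw [hcard]; exact hi) (by rw [hcard]; exact hj) h1)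
  have hg2' : ∀ u ∈ K, g u ≤ ikp (tlo G T hm) (σ i) u := fun u hu => by
    have h5 : (g u : ℤ) ≤ (ikp (tlo G T hm) (σ i) u : ℤ) := hg2 u hu
    exact_mod_cast h5
  have hk : ∀ u ∈ K, ikp (tlo G T hm) (σ i) u ≠ 0 := fun u hu h3 => by
    have := hg1 u hu
    have := hg2' u hu
    omega
  have hmK : ∀ u ∈ K, ∃ x ∈ T, u ∈ pkf (B x) (Ps x) ∧ host u = x := by
    intro u hu
    obtain ⟨x, hx, hux⟩ := mem_biUnion.1 (hK hu)
    exact ⟨x, hx, hux, hst x hx u hux⟩
  have hK' : K ⊆ (T.erase (σ i)).biUnion fun x => pkf (B x) (Ps x) := by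
    intro u hu
    obtain ⟨x, hx, hux⟩ := mem_biUnion.1 (hK hu)
    refine mem_biUnion.2 ⟨x, mem_erase.2 ⟨fun h1 => hKh u hu ?_, hx⟩, hux⟩
    show ρ (host u) = i
    rw [hst x hx u hux, h1]
    exact rk.right i (by rw [hcard]; exact hi)
  have hho : ∀ u ∈ K, (host u = σ j ↔ ρ (host u) = j) := by
    intro u hu
    obtain ⟨x, hx, -, hxx⟩ := hmK u hu
    rw [hxx]
    constructor
    · rintro rfl
      exact rk.right j (by rw [hcard]; exact hj)
    · rintro rfl
      exact (rk.left x hx).symm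
  have h1 := h.rowM_G hp hpk hst (hmem i hi) (hmem j hj) hne hK' hk
    (X := xlv G (cz G Z T hm) (tlo G T hm) (σ i) g) (fun Q => xlv_sub) (EN i hi j hj hij)
  have h2 : ∀ f : Itm V → ℤ, ∑ u ∈ K, (if host u = σ j then f u else 0)
      = ∑ u ∈ K, (if ρ (host u) = j then f u else 0) := by
    intro f
    refine sum_congr rfl fun u hu => ?_
    by_cases h3 : ρ (host u) = j
    · rw [if_pos h3, if_pos ((hho u hu).2 h3)]
    · rw [if_neg h3, if_neg fun h4 => h3 ((hho u hu).1 h4)]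
  rw [h2, h2] at h1
  have hsv := h.savGL hpk min hst rk hi hj hK hKh hg1 hg2' hS
  have h3 := h.toWHom.rowLS hpk hst rk hi (J := {j}) (fun l hl => by
    rw [mem_singleton.1 hl]
    exact hj) (fun hl => hij (mem_singleton.1 hl)) hK hKh hg1 hg2'
    (by
      rw [image_singleton, card_singleton, Nat.cast_one]
      exact h1)
    (by
      rw [image_singleton, singleton_biUnion]
      exact hsv)
  simp only [sum_singleton, card_singleton, mem_singleton, Nat.cast_one] at h3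
  have h4 : ∑ u ∈ K, (if ρ (host u) = j
            then (iar G (cz G Z T hm (host u)) u : ℤ)
              - ((g u : ℤ) + 1 - ipc u)
                * (tI G Z T hm r Z (σ j) - tI G Z T hm r Z (host u))
            else ((g u : ℤ) + 1)
              * ((r : ℤ) - 1 - tI G Z T hm r Z (σ j)))
      = ∑ u ∈ K, (if ρ (host u) = j
            then (1 - (ipc u : ℤ)) * (iar G (cz G Z T hm (host u)) u : ℤ)
            else ((g u : ℤ) + 1)
              * ((r : ℤ) - 1 - tI G Z T hm r Z (σ j)))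
        + ∑ u ∈ K, (if ρ (host u) = j
          then (ipc u : ℤ) * (iar G (cz G Z T hm (σ j)) u : ℤ) else 0) := by
    rw [← sum_add_distrib]
    refine sum_congr rfl fun u hu => ?_
    by_cases h5 : ρ (host u) = j
    · rw [if_pos h5, if_pos h5, if_pos h5, (hho u hu).2 h5]
      ring
    · rw [if_neg h5, if_neg h5, if_neg h5, add_zero]
  rw [h4] at h3
  simp only [ilm_cast] at h3
  clear h1 hsv EN h4 hS
  beta_reduce
  linarith

/-- **version [B]**: `nc i j` the (doubled) unpaid excess of the PC pairs of `i` with tail `j` -/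
theorem WItK.rowg (hp : 2 * r ≤ p) (h : WCoreK G Z T r m n p hm)
    (H : WItK G Z T hm r n φ B Ps host ρ σ) :
    RowGN ((r : ℤ) - 1) n (fun i => tI G Z T hm r Z (σ i)) (fun i => sI hm r Z (σ i))
      (T.biUnion fun x => pkf (B x) (Ps x)) (fun u => ρ (host u)) (fun u => (ivl u : ℤ))
      (fun i u => (ikp (tlo G T hm) (σ i) u : ℤ))
      (fun i u => (ims G (cz G Z T hm) (tlo G T hm) (σ i) u : ℤ))
      (fun i u => (imn G (cz G Z T hm) (tlo G T hm) (σ i) u : ℤ))
      (fun i j => pcn (tlo G T hm) B (σ i) (σ j)) (fun u => (ipc u : ℤ))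
      (fun u => (iar G (cz G Z T hm (host u)) u : ℤ))
      (fun i j => 2 * ((∑ u ∈ pkf (B (σ i)) (Ps (σ i)), (ivl u : ℤ)) * hI G Z T hm Z (σ i))
        - (∑ u ∈ pkf (B (σ i)) (Ps (σ i)), (ivl u : ℤ))
          * (∑ u ∈ pkf (B (σ i)) (Ps (σ i)), (ivl u : ℤ) + 1)
        + (nbk G (cz G Z T hm (σ i)) (hz G Z T hm (σ i)) (tlo G T hm) (B (σ i)) (Ps (σ i))
          - nbc G (cz G Z T hm (σ i)) (tlo G T hm) (B (σ i)) (σ j))
        + 2 * ∑ l ∈ (range n).erase i, nxk G (cz G Z T hm (σ i)) (hz G Z T hm (σ i))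
          (tlo G T hm) (B (σ i)) (σ l)) := by
  have hcard := h.toWHom.cardT
  have hmem : ∀ i < n, σ i ∈ T := fun i hi => H.rk.mem i (by rw [hcard]; exact hi)
  refine h.rowgN hp (fun x hx => (H.pk x hx).toPk) (fun x hx => (H.pk x hx).min) H.hst H.rk
    fun i hi j hj hij => ?_
  have h1 := PkPP.energyG h.F.toPFrame h.hh h.csys h.toWHom.ht (hmem i hi) (H.pk _ (hmem i hi))
    (σ j)
  have h2 := nbk_eq (G := G) (cz G Z T hm (σ i)) (hz G Z T hm (σ i)) (tlo G T hm) (B (σ i))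
    (Ps (σ i)) (σ j)
  have h3 := H.rk.sum_er (i := i) (by rw [hcard]; exact hi)
    (fun z => nxk G (cz G Z T hm (σ i)) (hz G Z T hm (σ i)) (tlo G T hm) (B (σ i)) z)
  rw [hcard] at h3
  rw [h2, ← h3]
  have h4 : 2 * eI G hm Z (σ i) + (∑ u ∈ pkf (B (σ i)) (Ps (σ i)), (ivl u : ℤ))
        * (∑ u ∈ pkf (B (σ i)) (Ps (σ i)), (ivl u : ℤ) + 1)
        + E G ((pcs (tlo G T hm) (B (σ i)) (σ j)).image Prod.fst)
      ≤ 2 * ((∑ u ∈ pkf (B (σ i)) (Ps (σ i)), (ivl u : ℤ)) * hI G Z T hm Z (σ i))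
        + nbo G (cz G Z T hm (σ i)) (hz G Z T hm (σ i)) (tlo G T hm) (B (σ i)) (Ps (σ i)) (σ j)
        + 2 * ∑ z ∈ T.erase (σ i), nxk G (cz G Z T hm (σ i)) (hz G Z T hm (σ i))
          (tlo G T hm) (B (σ i)) z
        + 2 * ∑ e ∈ pcs (tlo G T hm) (B (σ i)) (σ j), (nd G (cz G Z T hm (σ i)) e.1 : ℤ) := h1
  linarith

/-- **the numbers `nc i j`**: not negative, at most `be (be + 1)` plus twice the free arcs of the PC pairs of
the cell, and `Nb i` is at most their sum -/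
theorem WItK.ncs (h : WCoreK G Z T r m n p hm) (H : WItK G Z T hm r n φ B Ps host ρ σ) :
    (∀ i < n, ∀ j < n, 0 ≤ nbc G (cz G Z T hm (σ i)) (tlo G T hm) (B (σ i)) (σ j))
    ∧ (∀ i < n, ∀ j < n, nbc G (cz G Z T hm (σ i)) (tlo G T hm) (B (σ i)) (σ j)
      ≤ pcn (tlo G T hm) B (σ i) (σ j) * (pcn (tlo G T hm) B (σ i) (σ j) + 1)
        + 2 * fjk G Z T hm B (σ i) (σ j))
    ∧ ∀ i < n, nbk G (cz G Z T hm (σ i)) (hz G Z T hm (σ i)) (tlo G T hm) (B (σ i)) (Ps (σ i))
      ≤ ∑ l ∈ (range n).erase i, nbc G (cz G Z T hm (σ i)) (tlo G T hm) (B (σ i)) (σ l) := by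
  have hcard := h.toWHom.cardT
  have hmem : ∀ i < n, σ i ∈ T := fun i hi => H.rk.mem i (by rw [hcard]; exact hi)
  refine ⟨fun i _ j _ => nbc_nonneg _ _ _ _, fun i _ j _ => nbc_le _ _ _ _, fun i hi => ?_⟩
  have h1 := nbk_sum (G := G) (C := cz G Z T hm (σ i)) (H := hz G Z T hm (σ i))
    (tl := tlo G T hm) (Q := B (σ i)) (Ps := Ps (σ i)) (Y := T.erase (σ i))
    (fun e he => h.toWHom.ht _ (hmem i hi) _ ((H.pk _ (hmem i hi)).toPk.bH e he))
  have h2 : (0 : ℤ) ≤ ∑ e ∈ B (σ i), (((Ps (σ i)).card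
      - Pk.uin G (tlo G T hm) (hz G Z T hm (σ i) \ (B (σ i)).image Prod.fst) e : ℕ) : ℤ) :=
    sum_nonneg fun e _ => Nat.cast_nonneg _
  have h3 := H.rk.sum_er (i := i) (by rw [hcard]; exact hi)
    (fun z => nbc G (cz G Z T hm (σ i)) (tlo G T hm) (B (σ i)) z)
  rw [hcard] at h3
  rw [← h3]
  linarith

/-- **version [C]**: `NN i l` the (doubled) excess of the cell `{i, l}` -/
theorem WItC.rowg (hp : 2 * r ≤ p) (h : WCoreK G Z T r m n p hm)
    (H : WItC G Z T hm r n φ B Ps host ρ σ) :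
    RowGN ((r : ℤ) - 1) n (fun i => tI G Z T hm r Z (σ i)) (fun i => sI hm r Z (σ i))
      (T.biUnion fun x => pkf (B x) (Ps x)) (fun u => ρ (host u)) (fun u => (ivl u : ℤ))
      (fun i u => (ikp (tlo G T hm) (σ i) u : ℤ))
      (fun i u => (ims G (cz G Z T hm) (tlo G T hm) (σ i) u : ℤ))
      (fun i u => (imn G (cz G Z T hm) (tlo G T hm) (σ i) u : ℤ))
      (fun i j => pcn (tlo G T hm) B (σ i) (σ j)) (fun u => (ipc u : ℤ))
      (fun u => (iar G (cz G Z T hm (host u)) u : ℤ))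
      (fun i j => 2 * ((∑ u ∈ pkf (B (σ i)) (Ps (σ i)), (ivl u : ℤ)) * hI G Z T hm Z (σ i))
        - (∑ u ∈ pkf (B (σ i)) (Ps (σ i)), (ivl u : ℤ))
          * (∑ u ∈ pkf (B (σ i)) (Ps (σ i)), (ivl u : ℤ) + 1)
        + ∑ l ∈ ((range n).erase i).erase j, nxw G Z T hm B (σ i) (σ l)) := by
  have hcard := h.toWHom.cardT
  have hmem : ∀ i < n, σ i ∈ T := fun i hi => H.rk.mem i (by rw [hcard]; exact hi)
  refine h.rowgN hp (fun x hx => (H.pk x hx).toPk) (fun x hx => (H.pk x hx).min) H.hst H.rk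
    fun i hi j hj hij => ?_
  have hne : σ i ≠ σ j := fun h1 =>
    hij (H.rk.sinj (by rw [hcard]; exact hi) (by rw [hcard]; exact hj) h1)
  have h1 := PkOpt.energyG h.toWHom (y := σ j) (hmem i hi) H.pk
  have h3 := H.rk.sum_er (i := i) (by rw [hcard]; exact hi)
    (fun z => nxw G Z T hm B (σ i) z)
  rw [hcard] at h3
  have h4 : ∑ z ∈ (T.erase (σ i)).erase (σ j), nxw G Z T hm B (σ i) z
      = ∑ l ∈ ((range n).erase i).erase j, nxw G Z T hm B (σ i) (σ l) := by
    have h5 := add_sum_erase (T.erase (σ i)) (fun z => nxw G Z T hm B (σ i) z)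
      (mem_erase.2 ⟨hne.symm, hmem j hj⟩)
    have h6 := add_sum_erase ((range n).erase i) (fun l => nxw G Z T hm B (σ i) (σ l))
      (mem_erase.2 ⟨fun h7 => hij h7.symm, mem_range.2 hj⟩)
    beta_reduce at h5 h6
    linarith
  rw [h4] at h1
  linarith

end RowGT

end Pool.Agent.Lib.MP_f04ccf_co
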