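import Pool.Agent.Lib.MP_f04ccf_co.M.TsX
import Pool.Agent.Lib.MP_f04ccf_co.M.RowGDT
import Pool.Agent.Lib.MP_f04ccf_co.M.SubT

/-!
MP_f04ccf_co, PLAN W, TEXT D: the row tests with dropped items (helper9, helper94, helper23) in one structure, for
ANY packings with the least number of parts.

* `edI`, `ejdI`: the energy (twice) of the slot of `i` without the members of the items `D`; the same less twice
  the missed class points of the members of its kept PC pairs with tail `j`, plus the adjacent pairs between them;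
* `TsD`: `rowtD` (T, helper9), `rowgD` (T+ with the PC pairs of both homes in joint form, helper94), `ejl`;
* `WCoreK.tsd`: the transport.
-/

set_option autoImplicit false

namespace Pool.Agent.Lib.MP_f04ccf_co

open Finset

attribute [local instance] Classical.propDecidable

section StrD

variable {ι : Type*}

/-- **the row tests with dropped items**: `ed i D` twice the energy of the row `i` without the items `D`, `ejd i j D`
the same with the kept PC pairs with tail `j` in joint form -/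
structure TsD (R : ℤ) (n : ℕ) (t s : ℕ → ℤ) (U : Finset ι)
    (ho : ι → ℕ) (vl : ι → ℤ) (kp ms mn : ℕ → ι → ℤ)
    (be : ℕ → ℕ → ℤ) (pc ar : ι → ℤ) (ed : ℕ → Finset ι → ℤ) (ejd : ℕ → ℕ → Finset ι → ℤ) : Prop where
  rowtD : ∀ i < n, ∀ D ⊆ U.filter (fun u => ho u = i), RowTD1 R n t s U ho vl kp mn pc i D (ed i D)
  rowgD : RowGDN R n t s U ho vl kp ms mn be pc ar ejd
  ejl : ∀ i < n, ∀ j < n, ∀ D ⊆ U.filter (fun u => ho u = i),
    ejd i j D + 2 * ∑ u ∈ U.filter (fun u => ho u = i ∧ u ∉ D), pc u * kp j u * ar u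
      ≤ ed i D + (be i j - ∑ u ∈ D, pc u * kp j u) * (be i j - ∑ u ∈ D, pc u * kp j u - 1)

end StrD

section TransD

variable {V : Type*} {G : SimpleGraph V} {Z T : Finset V} {hm : V → V} {r m n p : ℕ}
  {B : V → Finset (V × V)} {Ps : V → Finset (Finset V)} {host : Itm V → V} {ρ : V → ℕ}
  {σ : ℕ → V}

variable (G Z T hm) in
/-- twice the energy of the slot of `x` without the members of the items `D` -/
noncomputable def edI (x : V) (D : Finset (Itm V)) : ℤ := 2 * eI G hm (Z \ D.biUnion imem) x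

variable (G Z T hm) in
/-- the same less twice the missed class points of the members of the kept PC pairs with tail `y`, plus the
adjacent pairs between these members -/
noncomputable def ejdI (B : V → Finset (V × V)) (x y : V) (D : Finset (Itm V)) : ℤ :=
  2 * eI G hm (Z \ D.biUnion imem) x
    + E G ((pcs (tlo G T hm) (kpB (B x) D) y).image Prod.fst)
    - 2 * ∑ e ∈ pcs (tlo G T hm) (kpB (B x) D) y, (nd G (cz G Z T hm x) e.1 : ℤ)

lemma mem_filter_any {α : Type*} {q : α → Prop} (inst : DecidablePred q) {s : Finset α} {a : α} :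
    a ∈ @Finset.filter α q inst s ↔ a ∈ s ∧ q a := mem_filter

/-- adjacent pairs in a set of a given number of points -/
lemma E_card_le' (W : Finset V) : (E G W : ℤ) ≤ (W.card : ℤ) * (W.card - 1) := by
  have h1 := E_add_NE (G := G) W
  have h2 : (0 : ℤ) ≤ NE G W := Nat.cast_nonneg _
  linarith

/-- **the transport to `TsD`**, any packings with the least number of parts -/
theorem WCoreK.tsd (hp : 2 * r ≤ p) (h : WCoreK G Z T r m n p hm)
    (hpk : ∀ x ∈ T, Pk G (cz G Z T hm x) (hz G Z T hm x) (tlo G T hm) (B x) (Ps x))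
    (hmin : ∀ x ∈ T, ∀ B' Ps', Pk G (cz G Z T hm x) (hz G Z T hm x) (tlo G T hm) B' Ps' →
      (Ps x).card ≤ Ps'.card)
    (hst : ∀ x ∈ T, ∀ u ∈ pkf (B x) (Ps x), host u = x)
    (rk : Rank T (tI G Z T hm r Z) ρ σ) :
    TsD ((r : ℤ) - 1) n (fun i => tI G Z T hm r Z (σ i)) (fun i => sI hm r Z (σ i))
      (T.biUnion fun x => pkf (B x) (Ps x))
      (fun u => ρ (host u)) (fun u => (ivl u : ℤ)) (fun i u => (ikp (tlo G T hm) (σ i) u : ℤ))
      (fun i u => (ims G (cz G Z T hm) (tlo G T hm) (σ i) u : ℤ))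
      (fun i u => (imn G (cz G Z T hm) (tlo G T hm) (σ i) u : ℤ))
      (fun i j => pcn (tlo G T hm) B (σ i) (σ j))
      (fun u => (ipc u : ℤ)) (fun u => (iar G (cz G Z T hm (host u)) u : ℤ))
      (fun i D => edI G Z hm (σ i) D) (fun i j D => ejdI G Z T hm B (σ i) (σ j) D) := by
  have hcard := h.toWHom.cardT
  have hmem : ∀ i < n, σ i ∈ T := fun i hi => rk.mem i (by rw [hcard]; exact hi)
  have hfil : ∀ i < n, (T.biUnion fun x => pkf (B x) (Ps x)).filter (fun u => ρ (host u) = i)
      = pkf (B (σ i)) (Ps (σ i)) := fun i hi => fil_host hst rk (by rw [hcard]; exact hi)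
  refine ⟨?_, ?_, ?_⟩
  · intro i hi D hD
    rw [hfil i hi] at hD
    exact h.rowtD1 hpk hmin hst rk hi hD le_rfl
  · intro i hi j hj hij D hD
    rw [hfil i hi] at hD
    exact h.rowgD1 hp hpk hmin hst rk hi hj hij hD (by unfold ejdI; linarith)
  · intro i hi j hj D hD
    rw [hfil i hi] at hD
    have hp1 := hpk _ (hmem i hi)
    obtain ⟨P, hP⟩ : ∃ P, P = pcs (tlo G T hm) (kpB (B (σ i)) D) (σ j) := ⟨_, rfl⟩
    have h1 := card_pcs_kp (tl := tlo G T hm) (y := σ j) hD
    rw [← hP] at h1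
    have hPB : ∀ e ∈ P, e ∈ B (σ i) ∧ Sum.inr e ∉ D ∧ tlo G T hm e.1 = σ j := by
      intro e he
      rw [hP] at he
      obtain ⟨h2, h3⟩ := mem_pcs.1 he
      exact ⟨(mem_kpB.1 h2).1, (mem_kpB.1 h2).2, h3⟩
    have hc : (P.image Prod.fst).card = P.card :=
      card_image_of_injOn fun e he f hf hef => hp1.b1 e (hPB e (by exact_mod_cast he)).1 f
        (hPB f (by exact_mod_cast hf)).1 hef
    have h2 := E_card_le' (G := G) (P.image Prod.fst)
    rw [hc, h1] at h2
    have h3 : ∀ F : Finset (Itm V), (∀ u, u ∈ F ↔ u ∈ pkf (B (σ i)) (Ps (σ i)) ∧ u ∉ D) →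
        ∑ u ∈ F, (ipc u : ℤ) * (ikp (tlo G T hm) (σ j) u : ℤ) * (iar G (cz G Z T hm (host u)) u : ℤ)
        = ∑ e ∈ P, (nd G (cz G Z T hm (σ i)) e.1 : ℤ) := by
      intro F hF
      have h4 : P.image Sum.inr ⊆ F := by
        intro u hu
        obtain ⟨e, he, rfl⟩ := mem_image.1 hu
        obtain ⟨h5, h6, -⟩ := hPB e he
        exact (hF _).2 ⟨inr_mem_pkf.2 h5, h6⟩
      rw [← sum_subset h4]
      · rw [sum_image fun e _ f _ hef => Sum.inr_injective hef]
        refine sum_congr rfl fun e he => ?_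
        obtain ⟨h5, h6, h7⟩ := hPB e he
        have h8 := hst _ (hmem i hi) _ (inr_mem_pkf.2 h5)
        show (1 : ℤ) * ((if tlo G T hm e.1 = σ j then 1 else 0 : ℕ) : ℤ)
          * (iar G (cz G Z T hm (host (Sum.inr e))) (Sum.inr e) : ℤ) = _
        rw [h8, h.iar_inr (hmem i hi) hp1 h5, if_pos h7, msd_card]
        push_cast
        ring
      · intro u hu hu'
        obtain ⟨h5, h6⟩ := (hF u).1 hu
        rcases u with Q | e
        · simp [ipc]
        · by_cases h7 : tlo G T hm e.1 = σ j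
          · exfalso
            refine hu' (mem_image_of_mem _ ?_)
            rw [hP]
            exact mem_pcs.2 ⟨mem_kpB.2 ⟨inr_mem_pkf.1 h5, h6⟩, h7⟩
          · simp [ikp, h7]
    have key : ∀ S : ℤ, S = ∑ e ∈ P, (nd G (cz G Z T hm (σ i)) e.1 : ℤ) →
        ejdI G Z T hm B (σ i) (σ j) D + 2 * S
          ≤ edI G Z hm (σ i) D
            + (pcn (tlo G T hm) B (σ i) (σ j) - ∑ u ∈ D, (ipc u : ℤ) * (ikp (tlo G T hm) (σ j) u : ℤ))
              * (pcn (tlo G T hm) B (σ i) (σ j)
                - ∑ u ∈ D, (ipc u : ℤ) * (ikp (tlo G T hm) (σ j) u : ℤ) - 1) := by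
      intro S hS
      rw [hS]
      unfold ejdI edI pcn
      rw [← hP]
      linarith
    refine key _ (h3 _ fun u => ⟨fun hu => ?_, fun hu => ?_⟩)
    · obtain ⟨h4, h5, h6⟩ := (mem_filter_any _).1 hu
      exact ⟨hfil i hi ▸ mem_filter.2 ⟨h4, h5⟩, h6⟩
    · have h4 := hu.1
      rw [← hfil i hi] at h4
      exact (mem_filter_any _).2 ⟨(mem_filter.1 h4).1, (mem_filter.1 h4).2, hu.2⟩

end TransD

end Pool.Agent.Lib.MP_f04ccf_co
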