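import Pool.Agent.Lib.MP_f04ccf_co.M.PayQ
import Pool.Agent.Lib.MP_f04ccf_co.M.CellJB

/-!
MP_f04ccf_co, note 17580: the joint cell test for the missing pairs of both homes of a cell, with the
square of one member (`PayTwo` of helper35: the same without the square, by another proof).

* `pay_hall`: rectangles `A v × B v` over a hereditary family of sets with Hall's condition for `A`.
* `pay_twoQ`: PROPOSITION PAY for two homes: `P` the members with `|A| ≤ |B|` and own points in `A`, the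
  others with `|B| ≤ |A|` and own points in `B`.
* `PG.cuBQ`, `WCoreK.jntBQ`: `g` missing pairs of both homes, injective, `v` one of the members:
  `(g - 1) R + (κ_v - g)⁺² ≤ t_x t_y + g²`.
* `WCoreK.jointQ`, `WItK.jnQ`: members of both homes with many missed points at home, one with `κ`.
* `WItK.jgq`: the PC pairs of both homes.
-/

set_option autoImplicit false

namespace Pool.Agent.Lib.MP_f04ccf_co

open Finset

attribute [local instance] Classical.propDecidable

section Hall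

variable {V α β : Type*}

/-- the sum of the sizes, counted by the points -/
lemma sum_card_pts {W : Finset V} {A : V → Finset α} {C : Finset α} (hC : ∀ v ∈ W, A v ⊆ C) :
    ∑ v ∈ W, (A v).card = ∑ a ∈ C, (W.filter fun v => a ∈ A v).card := by
  have h9 := sum_card_bipartiteAbove_eq_sum_card_bipartiteBelow (s := W) (t := C)
    (fun v a => a ∈ A v)
  simp only [bipartiteAbove, bipartiteBelow] at h9
  rw [← h9]
  refine sum_congr rfl fun v hv => ?_
  congr 1
  ext c
  rw [mem_filter]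
  exact ⟨fun h => ⟨hC v hv h, h⟩, fun h => h.2⟩

/-- a smallest set of points with Hall's condition over a hereditary family is matched into the
members -/
theorem hall_min {W : Finset V} {A : V → Finset α} {Hf : Finset V → Prop}
    (hher : ∀ S T, S ⊆ T → Hf T → Hf S)
    (hall : ∀ S ⊆ W, Hf S → S.card ≤ (S.biUnion A).card) :
    ∃ X ⊆ W.biUnion A, (∀ S ⊆ W, Hf S → S.card ≤ (S.biUnion A ∩ X).card) ∧
      ∀ Y ⊆ X, Y.card ≤ (W.filter fun v => ∃ a ∈ Y, a ∈ A v).card := by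
  set good : Finset α → Prop := fun X => ∀ S ⊆ W, Hf S → S.card ≤ (S.biUnion A ∩ X).card with hg
  have h0 : good (W.biUnion A) := by
    intro S hS hH
    rw [inter_eq_left.2 (biUnion_subset_biUnion_of_subset_left A hS)]
    exact hall S hS hH
  obtain ⟨X, hX, hmin⟩ := exists_min_image ((W.biUnion A).powerset.filter fun X => good X)
    (fun X => X.card) ⟨_, mem_filter.2 ⟨mem_powerset.2 (Subset.refl _), h0⟩⟩
  obtain ⟨hX1, hX2⟩ := mem_filter.1 hX
  have hXC := mem_powerset.1 hX1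
  -- every point is in a tight set
  have ht : ∀ a ∈ X, ∃ T ⊆ W, Hf T ∧ (T.biUnion A ∩ X).card = T.card ∧ a ∈ T.biUnion A := by
    intro a ha
    by_contra hcon
    push Not at hcon
    have h1 : good (X.erase a) := by
      intro S hS hH
      have h2 := hX2 S hS hH
      by_cases h3 : a ∈ S.biUnion A
      · have h4 : (S.biUnion A ∩ X).card ≠ S.card := fun h5 => hcon S hS hH h5 h3
        have h5 : (S.biUnion A ∩ X).card ≤ (S.biUnion A ∩ X.erase a).card + 1 := by
          have h6 : S.biUnion A ∩ X ⊆ insert a (S.biUnion A ∩ X.erase a) := by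
            intro b hb
            obtain ⟨hb1, hb2⟩ := mem_inter.1 hb
            by_cases hba : b = a
            · rw [hba]
              exact mem_insert_self _ _
            · exact mem_insert_of_mem (mem_inter.2 ⟨hb1, mem_erase.2 ⟨hba, hb2⟩⟩)
          exact (card_le_card h6).trans (card_insert_le _ _)
        omega
      · have h4 : S.biUnion A ∩ X = S.biUnion A ∩ X.erase a := by
          ext b
          rw [mem_inter, mem_inter, mem_erase]
          exact ⟨fun h => ⟨h.1, fun h5 => h3 (h5 ▸ h.1), h.2⟩, fun h => ⟨h.1, h.2.2⟩⟩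
        rw [← h4]
        exact h2
    have h2 := hmin (X.erase a) (mem_filter.2 ⟨mem_powerset.2 ((erase_subset _ _).trans hXC), h1⟩)
    have h3 := card_erase_lt_of_mem ha
    omega
  refine ⟨X, hXC, hX2, ?_⟩
  intro Y
  induction Y using Finset.strongInduction with
  | H Y ih =>
    intro hYX
    rcases Y.eq_empty_or_nonempty with h1 | ⟨a, ha⟩
    · rw [h1]
      exact Nat.zero_le _
    obtain ⟨T, hT, hHT, hTc, haT⟩ := ht a (hYX ha)
    set Y2 := Y.filter fun b => b ∈ T.biUnion A with hY2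
    set Y1 := Y.filter fun b => b ∉ T.biUnion A with hY1
    have h2 : Y1.card + Y2.card = Y.card := by
      rw [Nat.add_comm]
      exact card_filter_add_card_filter_not fun b => b ∈ T.biUnion A
    have h3 : Y1 ⊂ Y := by
      refine Finset.ssubset_iff_subset_ne.2 ⟨filter_subset _ _, fun h4 => ?_⟩
      have h5 : a ∈ Y1 := by
        rw [h4]
        exact ha
      exact (mem_filter.1 h5).2 haT
    have h4 := ih Y1 h3 ((filter_subset _ _).trans hYX)
    -- inside the tight set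
    have h5 : Y2.card ≤ (T.filter fun v => ∃ b ∈ Y2, b ∈ A v).card := by
      set T0 := T.filter fun v => ¬ ∃ b ∈ Y2, b ∈ A v with hT0
      have h6 : (T.filter fun v => ∃ b ∈ Y2, b ∈ A v).card + T0.card = T.card :=
        card_filter_add_card_filter_not _
      have h7 := hX2 T0 ((filter_subset _ _).trans hT) (hher T0 T (filter_subset _ _) hHT)
      have h8 : (T0.biUnion A ∩ X).card + Y2.card ≤ (T.biUnion A ∩ X).card := by
        have h9 : Disjoint (T0.biUnion A ∩ X) Y2 := by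
          rw [disjoint_left]
          intro b hb hb'
          obtain ⟨v, hv, hbv⟩ := mem_biUnion.1 (mem_inter.1 hb).1
          exact (mem_filter.1 hv).2 ⟨b, hb', hbv⟩
        rw [← card_union_of_disjoint h9]
        refine card_le_card (union_subset (inter_subset_inter
          (biUnion_subset_biUnion_of_subset_left A (filter_subset _ _)) (Subset.refl _)) ?_)
        intro b hb
        obtain ⟨hb1, hb2⟩ := mem_filter.1 hb
        exact mem_inter.2 ⟨hb2, hYX hb1⟩
      omega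
    have h6 : Disjoint (W.filter fun v => ∃ b ∈ Y1, b ∈ A v)
        (T.filter fun v => ∃ b ∈ Y2, b ∈ A v) := by
      rw [disjoint_left]
      intro v hv hv'
      obtain ⟨-, b, hb, hbv⟩ := mem_filter.1 hv
      exact (mem_filter.1 hb).2 (mem_biUnion.2 ⟨v, (mem_filter.1 hv').1, hbv⟩)
    have h7 : (W.filter fun v => ∃ b ∈ Y1, b ∈ A v) ∪ (T.filter fun v => ∃ b ∈ Y2, b ∈ A v)
        ⊆ W.filter fun v => ∃ b ∈ Y, b ∈ A v := by
      refine union_subset (fun v hv => ?_) (fun v hv => ?_)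
      · obtain ⟨hv1, b, hb, hbv⟩ := mem_filter.1 hv
        exact mem_filter.2 ⟨hv1, b, (mem_filter.1 hb).1, hbv⟩
      · obtain ⟨hv1, b, hb, hbv⟩ := mem_filter.1 hv
        exact mem_filter.2 ⟨hT hv1, b, (mem_filter.1 hb).1, hbv⟩
    have h8 := card_le_card h7
    rw [card_union_of_disjoint h6] at h8
    omega

/-- **rectangles with Hall's condition for the columns** -/
theorem pay_hall {W : Finset V} {A : V → Finset α} {B : V → Finset β} {D : V → ℕ}
    {Hf : Finset V → Prop} (hher : ∀ S T, S ⊆ T → Hf T → Hf S)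
    (hcol : ∀ c : β, Hf (W.filter fun v => c ∈ B v))
    (hall : ∀ S ⊆ W, Hf S → S.card ≤ (S.biUnion A).card)
    (hrow : ∀ a : α, (W.filter fun v => a ∈ A v).card
      ≤ ((W.filter fun v => a ∈ A v).biUnion B).card)
    (hD : ∀ a : α, ∀ v ∈ W, a ∈ A v → (W.filter fun v => a ∈ A v).card ≤ D v)
    {m : ℕ} (hm : m ≤ W.card ∨ ∃ v ∈ W, m ≤ (A v).card ∧ m ≤ (B v).card) :
    ∑ v ∈ W, (A v).card + ∑ v ∈ W, (B v).card + (m - W.card) * (m - W.card)
      ≤ (W.biUnion fun v => A v ×ˢ B v).card + ∑ v ∈ W, D v := by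
  obtain ⟨X, hXC, hX, hY⟩ := hall_min hher hall
  set C := W.biUnion A with hC
  set Y := W.biUnion B with hYd
  set N : α → Finset V := fun a => W.filter fun v => a ∈ A v with hN
  set M : β → Finset V := fun c => W.filter fun v => c ∈ B v with hM
  set U := W.biUnion fun v => A v ×ˢ B v with hU
  have hmU : ∀ a c, (a, c) ∈ U ↔ ∃ v ∈ W, a ∈ A v ∧ c ∈ B v := by
    intro a c
    rw [hU, mem_biUnion]
    simp only [mem_product]
  -- the points of `X` are matched into the members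
  obtain ⟨f, hf1, hf2⟩ := (Finset.all_card_le_biUnion_card_iff_exists_injective
    (fun a : {a // a ∈ X} => N a.1)).1 (by
      intro s
      have h1 := hY (s.image Subtype.val) (by
        intro a ha
        obtain ⟨b, -, rfl⟩ := mem_image.1 ha
        exact b.2)
      rw [card_image_of_injective _ Subtype.val_injective] at h1
      refine h1.trans (card_le_card fun v hv => ?_)
      obtain ⟨hv1, a, ha, hav⟩ := mem_filter.1 hv
      obtain ⟨b, hb, rfl⟩ := mem_image.1 ha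
      exact mem_biUnion.2 ⟨b, hb, mem_filter.2 ⟨hv1, hav⟩⟩)
  have hfm : ∀ a : {a // a ∈ X}, f a ∈ W ∧ a.1 ∈ A (f a) := fun a => mem_filter.1 (hf2 a)
  have hXD : ∑ a ∈ X, (N a).card ≤ ∑ v ∈ W, D v := by
    rw [← sum_attach X fun a => (N a).card]
    calc ∑ a ∈ X.attach, (N a.1).card ≤ ∑ a ∈ X.attach, D (f a) :=
          sum_le_sum fun a _ => hD a.1 (f a) (hfm a).1 (hfm a).2
      _ = ∑ v ∈ X.attach.image f, D v := (sum_image fun a _ b _ hab => hf1 hab).symm
      _ ≤ ∑ v ∈ W, D v := by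
          refine sum_le_sum_of_subset fun v hv => ?_
          obtain ⟨a, -, rfl⟩ := mem_image.1 hv
          exact (hfm a).1
  have hXW : X.card ≤ W.card := by
    have h1 : (X.attach.image f).card = X.card := by
      rw [card_image_of_injective _ hf1, card_attach]
    rw [← h1]
    refine card_le_card fun v hv => ?_
    obtain ⟨a, -, rfl⟩ := mem_image.1 hv
    exact (hfm a).1
  have e1 : ∑ v ∈ W, (A v).card = ∑ a ∈ C, (N a).card :=
    sum_card_pts fun v hv => subset_biUnion_of_mem A hv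
  have e2 : ∑ v ∈ W, (B v).card = ∑ c ∈ Y, (M c).card :=
    sum_card_pts fun v hv => subset_biUnion_of_mem B hv
  have e3 : ∑ a ∈ C, (N a).card = ∑ a ∈ X, (N a).card + ∑ a ∈ C \ X, (N a).card := by
    rw [← sum_sdiff hXC, Nat.add_comm]
  -- the part of `U` over `X`
  have e4 : ∑ c ∈ Y, (M c).card ≤ (U.filter fun q => q.1 ∈ X).card := by
    have h1 : (U.filter fun q => q.1 ∈ X).card
        = ∑ c ∈ Y, ((U.filter fun q => q.1 ∈ X).filter fun q => q.2 = c).card := by
      refine card_eq_sum_card_fiberwise fun q hq => ?_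
      have hq' := (mem_filter.1 (by exact_mod_cast hq : q ∈ U.filter fun q => q.1 ∈ X)).1
      obtain ⟨v, hv, -, h3⟩ := (hmU q.1 q.2).1 hq'
      exact_mod_cast mem_biUnion.2 ⟨v, hv, h3⟩
    rw [h1]
    refine sum_le_sum fun c _ => ?_
    refine (hX (M c) (filter_subset _ _) (hcol c)).trans ?_
    refine card_le_card_of_injOn (fun a => (a, c)) (fun a ha => ?_)
      (fun a _ b _ hab => (Prod.mk.inj hab).1)
    have ha' : a ∈ (M c).biUnion A ∩ X := by exact_mod_cast ha
    obtain ⟨ha1, ha2⟩ := mem_inter.1 ha'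
    obtain ⟨v, hv, hav⟩ := mem_biUnion.1 ha1
    obtain ⟨hv1, hv2⟩ := mem_filter.1 hv
    exact mem_coe.2 (mem_filter.2 ⟨mem_filter.2 ⟨(hmU a c).2 ⟨v, hv1, hav, hv2⟩, ha2⟩, rfl⟩)
  -- the rest of `U`
  have e5 : ∑ a ∈ C \ X, ((N a).biUnion B).card ≤ (U.filter fun q => q.1 ∉ X).card := by
    have h1 : (U.filter fun q => q.1 ∉ X).card
        = ∑ a ∈ C \ X, ((U.filter fun q => q.1 ∉ X).filter fun q => q.1 = a).card := by
      refine card_eq_sum_card_fiberwise fun q hq => ?_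
      obtain ⟨hq1, hq2⟩ := mem_filter.1 (by exact_mod_cast hq : q ∈ U.filter fun q => q.1 ∉ X)
      obtain ⟨v, hv, h3, -⟩ := (hmU q.1 q.2).1 hq1
      exact_mod_cast mem_sdiff.2 ⟨mem_biUnion.2 ⟨v, hv, h3⟩, hq2⟩
    rw [h1]
    refine sum_le_sum fun a ha => ?_
    refine card_le_card_of_injOn (fun c => (a, c)) (fun c hc => ?_)
      (fun c _ d _ hcd => (Prod.mk.inj hcd).2)
    have hc' : c ∈ (N a).biUnion B := by exact_mod_cast hc
    obtain ⟨v, hv, hcv⟩ := mem_biUnion.1 hc'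
    obtain ⟨hv1, hv2⟩ := mem_filter.1 hv
    exact mem_coe.2 (mem_filter.2 ⟨mem_filter.2 ⟨(hmU a c).2 ⟨v, hv1, hv2, hcv⟩,
      (mem_sdiff.1 ha).2⟩, rfl⟩)
  have e6 : (U.filter fun q => q.1 ∈ X).card + (U.filter fun q => q.1 ∉ X).card = U.card :=
    card_filter_add_card_filter_not _
  -- the square
  have e7 : ∑ a ∈ C \ X, (N a).card + (m - W.card) * (m - W.card)
      ≤ ∑ a ∈ C \ X, ((N a).biUnion B).card := by
    rcases Nat.lt_or_ge W.card m with hlt | hge
    · obtain ⟨v, hv, hv1, hv2⟩ := hm.resolve_left (by omega)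
      have h1 : m - W.card ≤ (A v \ X).card := by
        have := le_card_sdiff X (A v)
        omega
      have h2 : ∑ a ∈ C \ X, (if a ∈ A v then (m - W.card) else 0)
          = (A v \ X).card * (m - W.card) := by
        rw [← sum_filter, sum_const, smul_eq_mul]
        congr 2
        ext a
        rw [mem_filter, mem_sdiff, mem_sdiff]
        exact ⟨fun h => ⟨h.2, h.1.2⟩, fun h => ⟨⟨mem_biUnion.2 ⟨v, hv, h.1⟩, h.2⟩, h.1⟩⟩
      have h3 : (m - W.card) * (m - W.card) ≤ (A v \ X).card * (m - W.card) :=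
        Nat.mul_le_mul_right _ h1
      rw [← h2] at h3
      refine (Nat.add_le_add_left h3 _).trans ?_
      rw [← sum_add_distrib]
      refine sum_le_sum fun a _ => ?_
      split_ifs with h4
      · have h5 : (B v).card ≤ ((N a).biUnion B).card :=
          card_le_card (subset_biUnion_of_mem B (mem_filter.2 ⟨hv, h4⟩))
        have h6 : (N a).card ≤ W.card := card_le_card (filter_subset _ _)
        omega
      · exact hrow a
    · have h1 : m - W.card = 0 := by omega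
      rw [h1, Nat.mul_zero, Nat.add_zero]
      exact sum_le_sum fun a _ => hrow a
  omega

/-- a set of neighbours of a member -/
lemma card_le_dgc {G : SimpleGraph V} {W S : Finset V} (hS : S ⊆ W) {w : V}
    (h : ∀ v ∈ S, w ≠ v → G.Adj w v) : S.card ≤ 1 + dg G W w := by
  have h3 : S ⊆ insert w (W.filter fun v => G.Adj w v) := by
    intro v hv
    by_cases hwv : w = v
    · rw [hwv]
      exact mem_insert_self _ _
    · exact mem_insert_of_mem (mem_filter.2 ⟨hS hv, h v hv hwv⟩)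
  refine (card_le_card h3).trans ((card_insert_le _ _).trans ?_)
  unfold dg
  omega

/-- **PROPOSITION PAY for two homes** -/
theorem pay_twoQ {G : SimpleGraph V} {A : V → Finset α} {B : V → Finset β} {p : V → Prop}
    {oa : V → α} {ob : V → β} : ∀ W : Finset V,
    (∀ v ∈ W, p v → oa v ∈ A v ∧ (A v).card ≤ (B v).card) →
    (∀ v ∈ W, ¬ p v → ob v ∈ B v ∧ (B v).card ≤ (A v).card) →
    (∀ u ∈ W, ∀ v ∈ W, p u → p v → oa u = oa v → u = v) →
    (∀ u ∈ W, ∀ v ∈ W, ¬ p u → ¬ p v → ob u = ob v → u = v) →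
    (∀ u ∈ W, ∀ v ∈ W, u ≠ v → ∀ a ∈ A u, a ∈ A v → G.Adj u v) →
    (∀ u ∈ W, ∀ v ∈ W, u ≠ v → ∀ c ∈ B u, c ∈ B v → G.Adj u v) →
    ∀ m, (m ≤ W.card ∨ ∃ v ∈ W, m ≤ (A v).card ∧ m ≤ (B v).card) →
    ∑ v ∈ W, (A v).card + ∑ v ∈ W, (B v).card + (m - W.card) * (m - W.card)
      ≤ (W.biUnion fun v => A v ×ˢ B v).card + ∑ v ∈ W, (1 + dg G W v) := by
  intro W
  induction W using Finset.strongInduction with
  | H W ih =>
    intro hp hq ia ib ca cb m hm
    by_cases hu : ∃ u ∈ W, (A u).card + (B u).card ≤ 1 + 2 * dg G W u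
    · -- remove a small member
      obtain ⟨u, hu, hu2⟩ := hu
      have hW' : W.erase u ⊆ W := erase_subset _ _
      have hc := card_erase_add_one hu
      have hdu : dg G (W.erase u) u = dg G W u := by
        unfold dg
        congr 1
        ext w
        rw [mem_filter, mem_filter, mem_erase]
        exact ⟨fun h => ⟨h.1.2, h.2⟩, fun h => ⟨⟨h.2.ne', h.1⟩, h.2⟩⟩
      have hdc : dg G W u ≤ (W.erase u).card := by
        rw [← hdu]
        exact card_le_card (filter_subset _ _)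
      obtain ⟨m', hm', hmm⟩ : ∃ m', (m' ≤ (W.erase u).card ∨ ∃ v ∈ W.erase u,
          m' ≤ (A v).card ∧ m' ≤ (B v).card) ∧ m - W.card ≤ m' - (W.erase u).card := by
        rcases Nat.lt_or_ge W.card m with hlt | hge
        · obtain ⟨v, hv, hv1, hv2⟩ := hm.resolve_left (by omega)
          by_cases hvu : v = u
          · subst hvu
            omega
          · exact ⟨m, Or.inr ⟨v, mem_erase.2 ⟨hvu, hv⟩, hv1, hv2⟩, by omega⟩
        · exact ⟨0, Or.inl (Nat.zero_le _), by omega⟩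
      have h1 := ih (W.erase u) (erase_ssubset hu) (fun v hv => hp v (hW' hv))
        (fun v hv => hq v (hW' hv)) (fun v hv w hw => ia v (hW' hv) w (hW' hw))
        (fun v hv w hw => ib v (hW' hv) w (hW' hw)) (fun v hv w hw => ca v (hW' hv) w (hW' hw))
        (fun v hv w hw => cb v (hW' hv) w (hW' hw)) m' hm'
      have h2 := Nat.mul_le_mul hmm hmm
      have h3 : ((W.erase u).biUnion fun v => A v ×ˢ B v).card
          ≤ (W.biUnion fun v => A v ×ˢ B v).card :=
        card_le_card (biUnion_subset_biUnion_of_subset_left _ hW')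
      have e1 := add_sum_erase W (fun v => (A v).card) hu
      have e2 := add_sum_erase W (fun v => (B v).card) hu
      have e3 := add_sum_erase W (fun v => 1 + dg G W v) hu
      have e4 : ∑ v ∈ W.erase u, (1 + dg G W v)
          = ∑ v ∈ W.erase u, (1 + dg G (W.erase u) v) + dg G W u := by
        have e5 : ∀ v ∈ W.erase u, 1 + dg G W v
            = (1 + dg G (W.erase u) v) + if G.Adj u v then 1 else 0 := by
          intro v hv
          have e6 : dg G W v = dg G (W.erase u) v + if G.Adj u v then 1 else 0 := by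
            unfold dg
            have e7 : W.filter (fun w => G.Adj v w)
                = (W.erase u).filter (fun w => G.Adj v w)
                  ∪ (({u} : Finset V).filter fun w => G.Adj v w) := by
              rw [← filter_union]
              congr 1
              ext w
              rw [mem_union, mem_erase, mem_singleton]
              constructor
              · intro hw
                by_cases hwu : w = u
                · exact Or.inr hwu
                · exact Or.inl ⟨hwu, hw⟩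
              · rintro (hw | hw)
                · exact hw.2
                · rw [hw]
                  exact hu
            rw [e7, card_union_of_disjoint (disjoint_filter_filter (by
              rw [disjoint_left]
              intro w hw hw'
              exact (mem_erase.1 hw).1 (mem_singleton.1 hw')))]
            congr 1
            rw [filter_singleton]
            by_cases huv : G.Adj u v
            · rw [if_pos huv, if_pos huv.symm, card_singleton]
            · rw [if_neg huv, if_neg fun h => huv h.symm, card_empty]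
          omega
        rw [sum_congr rfl e5, sum_add_distrib, ← card_filter]
        congr 1
      have e8 : (A u).card + ∑ v ∈ W.erase u, (A v).card = ∑ v ∈ W, (A v).card := e1
      have e9 : (B u).card + ∑ v ∈ W.erase u, (B v).card = ∑ v ∈ W, (B v).card := e2
      have e10 : 1 + dg G W u + ∑ v ∈ W.erase u, (1 + dg G W v)
          = ∑ v ∈ W, (1 + dg G W v) := e3
      rw [e4] at e10
      omega
    · push Not at hu
      have hclA : ∀ a, ∀ v ∈ W, a ∈ A v → (W.filter fun v => a ∈ A v).card ≤ 1 + dg G W v := by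
        intro a v hv hav
        refine card_le_dgc (filter_subset _ _) fun w hw hvw => ?_
        obtain ⟨hw1, hw2⟩ := mem_filter.1 hw
        exact ca v hv w hw1 hvw a hav hw2
      have hinA : ∀ S ⊆ W, (∀ v ∈ S, p v) → S.card ≤ (S.biUnion A).card := by
        intro S hS hpS
        refine card_le_card_of_injOn oa (fun v hv => ?_) (fun v hv w hw hvw => ?_)
        · have hv' : v ∈ S := by exact_mod_cast hv
          exact_mod_cast mem_biUnion.2 ⟨v, hv', (hp v (hS hv') (hpS v hv')).1⟩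
        · have hv' : v ∈ S := by exact_mod_cast hv
          have hw' : w ∈ S := by exact_mod_cast hw
          exact ia v (hS hv') w (hS hw') (hpS v hv') (hpS w hw') hvw
      refine pay_hall (Hf := fun S => (∀ v ∈ S, p v) ∨ ∃ c, ∀ v ∈ S, c ∈ B v)
        (fun S T hST h => ?_) (fun c => Or.inr ⟨c, fun v hv => (mem_filter.1 hv).2⟩)
        (fun S hS h => ?_) (fun a => ?_) hclA hm
      · rcases h with h | ⟨c, h⟩
        · exact Or.inl fun v hv => h v (hST hv)
        · exact Or.inr ⟨c, fun v hv => h v (hST hv)⟩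
      · by_cases h1 : ∀ v ∈ S, p v
        · exact hinA S hS h1
        · obtain ⟨c, hc⟩ := h.resolve_left h1
          push Not at h1
          obtain ⟨w, hw, hpw⟩ := h1
          have h2 := hu w (hS hw)
          have h3 := (hq w (hS hw) hpw).2
          have h4 : S.card ≤ 1 + dg G W w := card_le_dgc hS fun v hv hwv =>
            cb w (hS hw) v (hS hv) hwv c (hc w hw) (hc v hv)
          have h5 : (A w).card ≤ (S.biUnion A).card := card_le_card (subset_biUnion_of_mem A hw)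
          omega
      · by_cases h1 : ∃ v ∈ W.filter (fun v => a ∈ A v), p v
        · obtain ⟨v, hv, hpv⟩ := h1
          obtain ⟨hv1, hv2⟩ := mem_filter.1 hv
          have h2 := hu v hv1
          have h3 := (hp v hv1 hpv).2
          have h4 := hclA a v hv1 hv2
          have h5 : (B v).card ≤ ((W.filter fun v => a ∈ A v).biUnion B).card :=
            card_le_card (subset_biUnion_of_mem B hv)
          omega
        · push Not at h1
          refine card_le_card_of_injOn ob (fun v hv => ?_) (fun v hv w hw hvw => ?_)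
          · have hv' : v ∈ W.filter fun v => a ∈ A v := by exact_mod_cast hv
            exact_mod_cast mem_biUnion.2 ⟨v, hv', (hq v (mem_filter.1 hv').1 (h1 v hv')).1⟩
          · have hv' : v ∈ W.filter fun v => a ∈ A v := by exact_mod_cast hv
            have hw' : w ∈ W.filter fun v => a ∈ A v := by exact_mod_cast hw
            exact ib v (mem_filter.1 hv').1 w (mem_filter.1 hw').1 (h1 v hv') (h1 w hw') hvw

end Hall

section CUB

variable {V : Type*} {G : SimpleGraph V} {r : ℕ}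

/-- **(CU) for two homes**: `p` the members of the first home -/
theorem PG.cuBQ (hP : PG G r) {Cx Cy W : Finset V} (hx : Clq G Cx) (hy : Clq G Cy)
    (dxy : Disjoint Cx Cy) (dxW : Disjoint Cx W) (dyW : Disjoint Cy W) {p : V → Prop}
    {oa ob : V → V}
    (h1 : ∀ v ∈ W, p v → oa v ∈ msC G Cx v ∧ (msC G Cx v).card ≤ (msC G Cy v).card)
    (h2 : ∀ v ∈ W, ¬ p v → ob v ∈ msC G Cy v ∧ (msC G Cy v).card ≤ (msC G Cx v).card)
    (i1 : ∀ u ∈ W, ∀ v ∈ W, p u → p v → oa u = oa v → u = v)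
    (i2 : ∀ u ∈ W, ∀ v ∈ W, ¬ p u → ¬ p v → ob u = ob v → u = v)
    (hr : ∀ w ∈ W, ∀ a ∈ Cx, ∀ c ∈ Cy, ¬ G.Adj w a → ¬ G.Adj w c → G.Adj a c)
    (hcx : ∀ w ∈ W, ∀ w' ∈ W, w ≠ w' → ∀ a ∈ Cx, ¬ G.Adj w a → ¬ G.Adj w' a → G.Adj w w')
    (hcy : ∀ w ∈ W, ∀ w' ∈ W, w ≠ w' → ∀ c ∈ Cy, ¬ G.Adj w c → ¬ G.Adj w' c → G.Adj w w')
    {m : ℕ} (hm : m ≤ W.card ∨ ∃ v ∈ W, m ≤ (msC G Cx v).card ∧ m ≤ (msC G Cy v).card) :
    2 * (((W.card : ℤ) - 1) * ((r : ℤ) - 1)) + 2 * ((m - W.card : ℕ) : ℤ) ^ 2 + NE G W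
      ≤ 2 * (((r : ℤ) - 1 - Cx.card) * ((r : ℤ) - 1 - Cy.card)) + 2 * (W.card : ℤ) ^ 2 := by
  have e1 := pay_twoQ (G := G) (A := msC G Cx) (B := msC G Cy) (p := p) (oa := oa) (ob := ob) W
    h1 h2 i1 i2
    (fun u hu v hv huv a ha ha' => hcx u hu v hv huv a (mem_filter.1 ha).1 (mem_filter.1 ha).2
      (mem_filter.1 ha').2)
    (fun u hu v hv huv c hc hc' => hcy u hu v hv huv c (mem_filter.1 hc).1 (mem_filter.1 hc).2
      (mem_filter.1 hc').2) m hm
  have e2 : (W.biUnion fun v => msC G Cx v ×ˢ msC G Cy v).card ≤ (eds G Cx Cy).card := by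
    refine card_le_card fun q hq => ?_
    obtain ⟨v, hv, hq'⟩ := mem_biUnion.1 hq
    obtain ⟨h3, h4⟩ := mem_product.1 hq'
    obtain ⟨h5, h6⟩ := mem_filter.1 h3
    obtain ⟨h7, h8⟩ := mem_filter.1 h4
    exact mem_filter.2 ⟨mem_product.2 ⟨h5, h7⟩, hr v hv _ h5 _ h7 h6 h8⟩
  have e3 := hP.s1_ne hx hy dxy dxW dyW
  have e4 : ((eds G Cx Cy).card : ℤ) = ∑ c ∈ Cy, (dg G Cx c : ℤ) := by
    rw [card_eds_eq]
    exact_mod_cast dg_comm G Cx Cy
  have hn : ∀ C : Finset V, Disjoint C W → ∀ v ∈ W, nd G C v = (msC G C v).card := by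
    intro C hC v hv
    unfold nd msC
    congr 1
    ext a
    rw [mem_filter, mem_filter]
    exact ⟨fun h => ⟨h.1, h.2.2⟩, fun h => ⟨h.1, fun h' => disjoint_left.1 hC (h' ▸ h.1) hv, h.2⟩⟩
  have e5 : ∑ w ∈ W, (nd G Cx w : ℤ) = ((∑ v ∈ W, (msC G Cx v).card : ℕ) : ℤ) := by
    push_cast
    exact sum_congr rfl fun v hv => by rw [hn Cx dxW v hv]
  have e6 : ∑ c ∈ Cy, (dg G W c : ℤ)
      = (W.card : ℤ) * Cy.card - ((∑ v ∈ W, (msC G Cy v).card : ℕ) : ℤ) := by
    have a1 : ∑ c ∈ Cy, (dg G W c : ℤ) = ∑ w ∈ W, (dg G Cy w : ℤ) := by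
      exact_mod_cast (dg_comm G W Cy).symm
    have a2 : ∀ w ∈ W, (dg G Cy w : ℤ) = (Cy.card : ℤ) - (msC G Cy w).card := by
      intro w hw
      have h3 := nd_of_notMem (G := G) (A := Cy) (x := w) fun h => disjoint_left.1 dyW h hw
      rw [hn Cy dyW w hw] at h3
      omega
    rw [a1, sum_congr rfl a2, sum_sub_distrib, sum_const, nsmul_eq_mul]
    push_cast
    ring
  have e7 := E_add_NE (G := G) W
  have e8 : ∑ v ∈ W, (1 + dg G W v) = W.card + E G W := by
    rw [sum_add_distrib, sum_const, smul_eq_mul, mul_one]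
    rfl
  rw [e8] at e1
  rw [e5, e6, ← e4] at e3
  zify at e1 e2
  obtain ⟨q, hq⟩ : ∃ q : ℤ, q = ((m - W.card : ℕ) : ℤ) := ⟨_, rfl⟩
  rw [← hq] at e1 ⊢
  push_cast at e3
  nlinarith [e1, e2, e3, e7]

end CUB

section FrameB

variable {V : Type*} {G : SimpleGraph V} {Z T : Finset V} {hm : V → V} {r m n p : ℕ}

/-- **the joint cell test** for missing pairs of both homes of a cell -/
theorem WCoreK.jntBQ (hp : 2 * r ≤ p) (h : WCoreK G Z T r m n p hm) {x y : V} (hx : x ∈ T)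
    (hy : y ∈ T) (hxy : x ≠ y) {K K' : Finset (V × V)} (k0 : ∀ e ∈ K, e.1 ∈ hz G Z T hm x)
    (k1 : ∀ e ∈ K, tlo G T hm e.1 = y) (k2 : ∀ e ∈ K, e.2 ∈ cz G Z T hm x)
    (k3 : ∀ e ∈ K, ¬ G.Adj e.1 e.2) (i1 : ∀ e ∈ K, ∀ f ∈ K, e.1 = f.1 → e = f)
    (i2 : ∀ e ∈ K, ∀ f ∈ K, e.2 = f.2 → e = f) (k0' : ∀ e ∈ K', e.1 ∈ hz G Z T hm y)
    (k1' : ∀ e ∈ K', tlo G T hm e.1 = x) (k2' : ∀ e ∈ K', e.2 ∈ cz G Z T hm y)
    (k3' : ∀ e ∈ K', ¬ G.Adj e.1 e.2) (i1' : ∀ e ∈ K', ∀ f ∈ K', e.1 = f.1 → e = f)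
    (i2' : ∀ e ∈ K', ∀ f ∈ K', e.2 = f.2 → e = f) {q : ℕ}
    (hq : q ≤ K.card + K'.card ∨ (∃ e ∈ K, q ≤ (msC G (cz G Z T hm x) e.1).card)
      ∨ ∃ e ∈ K', q ≤ (msC G (cz G Z T hm y) e.1).card) :
    ((K.card : ℤ) + K'.card - 1) * ((r : ℤ) - 1) + ((q - (K.card + K'.card) : ℕ) : ℤ) ^ 2
      ≤ tI G Z T hm r Z x * tI G Z T hm r Z y + ((K.card : ℤ) + K'.card) ^ 2 := by
  have hF := h.F.toPFrame
  have hC := h.csys
  have hcell := hC.cellD hF hx hy hxy
  set W1 := K.image Prod.fst with hW1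
  set W2 := K'.image Prod.fst with hW2
  have m1 : ∀ w ∈ W1, w ∈ hz G Z T hm x ∧ tlo G T hm w = y := by
    intro w hw
    obtain ⟨e, he, rfl⟩ := mem_image.1 hw
    exact ⟨k0 e he, k1 e he⟩
  have m2 : ∀ w ∈ W2, w ∈ hz G Z T hm y ∧ tlo G T hm w = x := by
    intro w hw
    obtain ⟨e, he, rfl⟩ := mem_image.1 hw
    exact ⟨k0' e he, k1' e he⟩
  have c1 : W1.card = K.card := card_image_of_injOn fun e he f hf hef =>
    i1 e (by exact_mod_cast he) f (by exact_mod_cast hf) hef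
  have c2 : W2.card = K'.card := card_image_of_injOn fun e he f hf hef =>
    i1' e (by exact_mod_cast he) f (by exact_mod_cast hf) hef
  have hd : Disjoint W1 W2 := by
    rw [disjoint_left]
    intro v hv hv'
    exact disjoint_left.1 (h.wsysT.dHH x hx y hy hxy) (m1 v hv).1 (m2 v hv').1
  have c3 : (W1 ∪ W2).card = K.card + K'.card := by
    rw [card_union_of_disjoint hd, c1, c2]
  have hD : ∀ w ∈ W1 ∪ W2, w ∈ Dbl G Z T x y := by
    intro w hw
    rcases mem_union.1 hw with hw | hw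
    · exact hC.mem_Dbl_of_tlo h.hh hx (m1 w hw).1 (m1 w hw).2
    · rw [Dbl_comm]
      exact hC.mem_Dbl_of_tlo h.hh hy (m2 w hw).1 (m2 w hw).2
  have o1 : ∀ v, ∃ a, v ∈ W1 → (v, a) ∈ K := by
    intro v
    by_cases hv : v ∈ W1
    · obtain ⟨e, he, rfl⟩ := mem_image.1 hv
      exact ⟨e.2, fun _ => he⟩
    · exact ⟨v, fun h3 => absurd h3 hv⟩
  have o2 : ∀ v, ∃ a, v ∈ W2 → (v, a) ∈ K' := by
    intro v
    by_cases hv : v ∈ W2
    · obtain ⟨e, he, rfl⟩ := mem_image.1 hv
      exact ⟨e.2, fun _ => he⟩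
    · exact ⟨v, fun h3 => absurd h3 hv⟩
  choose oa hoa using o1
  choose ob hob using o2
  have w2 : ∀ v ∈ W1 ∪ W2, ¬ v ∈ W1 → v ∈ W2 := fun v hv hv' =>
    (mem_union.1 hv).resolve_left hv'
  have h1 := h.gp.P.cuBQ (Cx := cz G Z T hm x) (Cy := cz G Z T hm y) (W := W1 ∪ W2)
    (hC.CP_clq hF hx) (hC.CP_clq hF hy) (h.wsysT.dCC x hx y hy hxy)
    (disjoint_union_right.2 ⟨(hC.dCH hx hx).mono_right fun w hw => (m1 w hw).1,
      (hC.dCH hx hy).mono_right fun w hw => (m2 w hw).1⟩)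
    (disjoint_union_right.2 ⟨(hC.dCH hy hx).mono_right fun w hw => (m1 w hw).1,
      (hC.dCH hy hy).mono_right fun w hw => (m2 w hw).1⟩)
    (p := fun v => v ∈ W1) (oa := oa) (ob := ob)
    (fun v _ hv => ⟨mem_filter.2 ⟨k2 _ (hoa v hv), k3 _ (hoa v hv)⟩,
      h.ms_le hp hx hy hxy (m1 v hv).1 (m1 v hv).2⟩)
    (fun v hv hv' => ⟨mem_filter.2 ⟨k2' _ (hob v (w2 v hv hv')), k3' _ (hob v (w2 v hv hv'))⟩,
      h.ms_le hp hy hx hxy.symm (m2 v (w2 v hv hv')).1 (m2 v (w2 v hv hv')).2⟩)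
    (fun u _ v _ hu hv huv => congrArg Prod.fst (i2 _ (hoa u hu) _ (hoa v hv) huv))
    (fun u hu v hv hu' hv' huv => congrArg Prod.fst
      (i2' _ (hob u (w2 u hu hu')) _ (hob v (w2 v hv hv')) huv))
    (fun w hw => hcell.rect w (hD w hw)) (fun w hw w' hw' => hcell.comC w (hD w hw) w' (hD w' hw'))
    (fun w hw w' hw' => hcell.comD w (hD w hw) w' (hD w' hw')) (m := q) (by
      rcases hq with hq | ⟨e, he, hq⟩ | ⟨e, he, hq⟩
      · exact Or.inl (c3 ▸ hq)
      · have h2 := mem_image_of_mem Prod.fst he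
        exact Or.inr ⟨e.1, mem_union_left _ h2, hq, hq.trans
          (h.ms_le hp hx hy hxy (k0 e he) (k1 e he))⟩
      · have h2 := mem_image_of_mem Prod.fst he
        exact Or.inr ⟨e.1, mem_union_right _ h2, hq.trans
          (h.ms_le hp hy hx hxy.symm (k0' e he) (k1' e he)), hq⟩)
  have e1 : ((cz G Z T hm x).card : ℤ) = (r : ℤ) - 1 - tI G Z T hm r Z x := card_CP_eq Z x
  have e2 : ((cz G Z T hm y).card : ℤ) = (r : ℤ) - 1 - tI G Z T hm r Z y := card_CP_eq Z y
  have e3 : (0 : ℤ) ≤ NE G (W1 ∪ W2) := Int.natCast_nonneg _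
  rw [c3, e1, e2] at h1
  push_cast at h1 ⊢
  obtain ⟨w, hw⟩ : ∃ w : ℤ, w = ((q - (K.card + K'.card) : ℕ) : ℤ) := ⟨_, rfl⟩
  rw [← hw] at h1 ⊢
  linarith

/-- different points, one for every member -/
lemma exists_sdr {S : Finset V} {F : V → Finset V} (hF : ∀ v ∈ S, S.card ≤ (F v).card) :
    ∃ K : Finset (V × V), K.card = S.card ∧ (∀ e ∈ K, e.1 ∈ S ∧ e.2 ∈ F e.1) ∧
      (∀ e ∈ K, ∀ f ∈ K, e.1 = f.1 → e = f) ∧ (∀ e ∈ K, ∀ f ∈ K, e.2 = f.2 → e = f) ∧
      K.image Prod.fst = S := by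
  obtain ⟨g, hg1, hg2⟩ := (Finset.all_card_le_biUnion_card_iff_exists_injective
    (fun v : {v // v ∈ S} => F v.1)).1 (by
      intro s
      rcases s.eq_empty_or_nonempty with h1 | ⟨v, hv⟩
      · rw [h1]
        exact Nat.zero_le _
      · have h1 : s.card ≤ S.card := by
          rw [← card_image_of_injective s Subtype.val_injective]
          refine card_le_card fun a ha => ?_
          obtain ⟨b, -, rfl⟩ := mem_image.1 ha
          exact b.2
        exact h1.trans ((hF v.1 v.2).trans (card_le_card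
          (subset_biUnion_of_mem (fun v : {v // v ∈ S} => F v.1) hv))))
  have hinj : Function.Injective fun v : {v // v ∈ S} => ((v.1, g v) : V × V) := by
    intro a b hab
    exact Subtype.ext (congrArg Prod.fst hab)
  refine ⟨S.attach.image fun v => (v.1, g v), ?_, ?_, ?_, ?_, ?_⟩
  · rw [card_image_of_injective _ hinj, card_attach]
  · intro e he
    obtain ⟨v, -, rfl⟩ := mem_image.1 he
    exact ⟨v.2, hg2 v⟩
  · intro e he f hf hef
    obtain ⟨v, -, rfl⟩ := mem_image.1 he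
    obtain ⟨w, -, rfl⟩ := mem_image.1 hf
    have h1 : v = w := Subtype.ext hef
    rw [h1]
  · intro e he f hf hef
    obtain ⟨v, -, rfl⟩ := mem_image.1 he
    obtain ⟨w, -, rfl⟩ := mem_image.1 hf
    have h1 : v = w := hg1 hef
    rw [h1]
  · ext v
    rw [mem_image]
    constructor
    · rintro ⟨e, he, rfl⟩
      obtain ⟨w, -, rfl⟩ := mem_image.1 he
      exact w.2
    · intro hv
      exact ⟨(v, g ⟨v, hv⟩), mem_image.2 ⟨⟨v, hv⟩, mem_attach _ _, rfl⟩, rfl⟩

/-- **the joint cell test**: members of both homes, each with as many missed points at home as there are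
members of its home; `q` missed points at home of one member -/
theorem WCoreK.jointQ (hp : 2 * r ≤ p) (h : WCoreK G Z T r m n p hm) {x y : V} (hx : x ∈ T)
    (hy : y ∈ T) (hxy : x ≠ y) {W W' : Finset V}
    (hW : ∀ v ∈ W, v ∈ hz G Z T hm x ∧ tlo G T hm v = y)
    (hW' : ∀ v ∈ W', v ∈ hz G Z T hm y ∧ tlo G T hm v = x)
    (h1 : ∀ v ∈ W, W.card ≤ (msC G (cz G Z T hm x) v).card)
    (h2 : ∀ v ∈ W', W'.card ≤ (msC G (cz G Z T hm y) v).card) {q : ℕ}
    (hq : q ≤ W.card + W'.card ∨ (∃ v ∈ W, q ≤ (msC G (cz G Z T hm x) v).card)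
      ∨ ∃ v ∈ W', q ≤ (msC G (cz G Z T hm y) v).card) :
    ((W.card : ℤ) + W'.card - 1) * ((r : ℤ) - 1) + ((q - (W.card + W'.card) : ℕ) : ℤ) ^ 2
      ≤ tI G Z T hm r Z x * tI G Z T hm r Z y + ((W.card : ℤ) + W'.card) ^ 2 := by
  obtain ⟨K, a1, a2, a3, a4, a5⟩ := exists_sdr (S := W) (F := msC G (cz G Z T hm x)) h1
  obtain ⟨K', b1, b2, b3, b4, b5⟩ := exists_sdr (S := W') (F := msC G (cz G Z T hm y)) h2
  have h3 := h.jntBQ hp hx hy hxy (K := K) (K' := K') (fun e he => (hW _ (a2 e he).1).1)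
    (fun e he => (hW _ (a2 e he).1).2) (fun e he => (mem_filter.1 (a2 e he).2).1)
    (fun e he => (mem_filter.1 (a2 e he).2).2) a3 a4 (fun e he => (hW' _ (b2 e he).1).1)
    (fun e he => (hW' _ (b2 e he).1).2) (fun e he => (mem_filter.1 (b2 e he).2).1)
    (fun e he => (mem_filter.1 (b2 e he).2).2) b3 b4 (q := q) (by
      rw [a1, b1]
      rcases hq with hq | ⟨v, hv, hq⟩ | ⟨v, hv, hq⟩
      · exact Or.inl hq
      · rw [← a5] at hv
        obtain ⟨e, he, rfl⟩ := mem_image.1 hv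
        exact Or.inr (Or.inl ⟨e, he, hq⟩)
      · rw [← b5] at hv
        obtain ⟨e, he, rfl⟩ := mem_image.1 hv
        exact Or.inr (Or.inr ⟨e, he, hq⟩))
  rw [a1, b1] at h3
  exact h3

end FrameB

section TransB

variable {V : Type*} {G : SimpleGraph V} {Z T : Finset V} {hm : V → V} {r m n p : ℕ}
  {φ : Finset (V × V) → Finset (Finset V) → ℕ} {B : V → Finset (V × V)}
  {Ps : V → Finset (Finset V)} {host : Itm V → V} {ρ : V → ℕ} {σ : ℕ → V}

/-- `msd` and `msC` of a member -/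
lemma WCoreK.msd_eq_msC (h : WCoreK G Z T r m n p hm) {x y v : V} (hx : x ∈ T) (hy : y ∈ T)
    (hv : v ∈ hz G Z T hm x) : msd G (cz G Z T hm y) v = msC G (cz G Z T hm y) v := by
  unfold msd msC
  ext a
  rw [mem_filter, mem_filter]
  exact ⟨fun h1 => ⟨h1.1, h1.2.2⟩, fun h1 => ⟨h1.1, fun h2 =>
    disjoint_left.1 (h.wsysT.dHC x hx y hy) hv (h2 ▸ h1.1), h1.2⟩⟩

/-- **the joint cell test with the square, over the index of the rows**: `g` (`g'`) N-types of the host
`i` (`j`) with at least `g` (`g'`) missed points at home, one of them with `κ` missed points -/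
theorem WItK.jnQ (hp : 2 * r ≤ p) (h : WCoreK G Z T r m n p hm)
    (H : WItK G Z T hm r n φ B Ps host ρ σ) {i j : ℕ} (hi : i < n) (hj : j < n) (hij : i ≠ j)
    {g g' κ : ℕ} (hg : (g : ℤ) ≤ khI G Z T hm B σ i j g) (hg' : (g' : ℤ) ≤ khI G Z T hm B σ j i g')
    (hκ : κ ≤ g + g' ∨ (1 ≤ g ∧ 1 ≤ khI G Z T hm B σ i j κ)
      ∨ (1 ≤ g' ∧ 1 ≤ khI G Z T hm B σ j i κ)) :
    ((g : ℤ) + g' - 1) * ((r : ℤ) - 1) + ((κ - (g + g') : ℕ) : ℤ) ^ 2
      ≤ tI G Z T hm r Z (σ i) * tI G Z T hm r Z (σ j) + ((g : ℤ) + g') ^ 2 := by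
  have hcard := h.cardT
  have hmem : ∀ i < n, σ i ∈ T := fun i hi => H.rk.mem i (by rw [hcard]; exact hi)
  have hne : σ i ≠ σ j := fun h1 =>
    hij (H.rk.sinj (by rw [hcard]; exact hi) (by rw [hcard]; exact hj) h1)
  have key : ∀ i < n, ∀ j < n, ∀ g : ℕ, (g : ℤ) ≤ khI G Z T hm B σ i j g →
      ∃ W : Finset V, W.card = g ∧ (∀ v ∈ W, v ∈ hz G Z T hm (σ i) ∧ tlo G T hm v = σ j) ∧
        (∀ v ∈ W, W.card ≤ (msC G (cz G Z T hm (σ i)) v).card) ∧
        (g < κ → 1 ≤ g → 1 ≤ khI G Z T hm B σ i j κ →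
          ∃ v ∈ W, κ ≤ (msC G (cz G Z T hm (σ i)) v).card) := by
    intro i hi j hj g hg
    have hx := hmem i hi
    set N := ntm G (cz G Z T hm (σ i)) (hz G Z T hm (σ i)) (tlo G T hm) (B (σ i)) (σ j) g with hN
    have hgN : g ≤ N.card := by
      unfold khI at hg
      exact_mod_cast hg
    have hm1 : ∀ v ∈ N, v ∈ hz G Z T hm (σ i) ∧ tlo G T hm v = σ j := fun v hv =>
      (H.pk _ hx).toPk.ntl_sub (mem_ntm.1 hv).1
    have hm2 : ∀ v ∈ N, g ≤ (msC G (cz G Z T hm (σ i)) v).card := fun v hv => by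
      rw [← h.msd_eq_msC hx hx (hm1 v hv).1]
      exact (mem_ntm.1 hv).2
    by_cases hk : g < κ ∧ 1 ≤ g ∧ 1 ≤ khI G Z T hm B σ i j κ
    · obtain ⟨k1, k2, k3⟩ := hk
      have h1 : 0 < (ntm G (cz G Z T hm (σ i)) (hz G Z T hm (σ i)) (tlo G T hm) (B (σ i))
          (σ j) κ).card := by
        unfold khI at k3
        have : 1 ≤ (ntm G (cz G Z T hm (σ i)) (hz G Z T hm (σ i)) (tlo G T hm) (B (σ i))
          (σ j) κ).card := by exact_mod_cast k3
        omega
      obtain ⟨v0, hv0⟩ := card_pos.1 h1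
      have hv1 : v0 ∈ N := mem_ntm.2 ⟨(mem_ntm.1 hv0).1, k1.le.trans (mem_ntm.1 hv0).2⟩
      obtain ⟨W, hW0, hWN, hWc⟩ := exists_subsuperset_card_eq (singleton_subset_iff.2 hv1)
        (by rw [card_singleton]; exact k2) hgN
      refine ⟨W, hWc, fun v hv => hm1 v (hWN hv), fun v hv => hWc ▸ hm2 v (hWN hv),
        fun _ _ _ => ⟨v0, hW0 (mem_singleton_self _), ?_⟩⟩
      rw [← h.msd_eq_msC hx hx (hm1 v0 hv1).1]
      exact (mem_ntm.1 hv0).2
    · obtain ⟨W, hWN, hWc⟩ := exists_subset_card_eq hgN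
      exact ⟨W, hWc, fun v hv => hm1 v (hWN hv), fun v hv => hWc ▸ hm2 v (hWN hv),
        fun k1 k2 k3 => absurd ⟨k1, k2, k3⟩ hk⟩
  obtain ⟨W, a1, a2, a3, a4⟩ := key i hi j hj g hg
  obtain ⟨W', b1, b2, b3, b4⟩ := key j hj i hi g' hg'
  have h3 := h.jointQ hp (hmem i hi) (hmem j hj) hne a2 b2 a3 b3 (q := κ) (by
    rw [a1, b1]
    rcases Nat.lt_or_ge (g + g') κ with hlt | hge
    · rcases hκ with hκ | ⟨hκ1, hκ2⟩ | ⟨hκ1, hκ2⟩
      · omega
      · exact Or.inr (Or.inl (a4 (by omega) hκ1 hκ2))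
      · exact Or.inr (Or.inr (b4 (by omega) hκ1 hκ2))
    · exact Or.inl hge)
  rw [a1, b1] at h3
  exact h3

/-- **PC pairs of both homes with the square**: `κ` missed points at home of the member of one PC pair -/
theorem WItK.jgq (hp : 2 * r ≤ p) (h : WCoreK G Z T r m n p hm)
    (H : WItK G Z T hm r n φ B Ps host ρ σ) {i j : ℕ} (hi : i < n) (hj : j < n) (hij : i ≠ j)
    {κ : ℕ} (hκ : (κ : ℤ) ≤ pcn (tlo G T hm) B (σ i) (σ j) + pcn (tlo G T hm) B (σ j) (σ i)
      ∨ (∃ e ∈ B (σ i), tlo G T hm e.1 = σ j ∧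
        κ ≤ (frC G (cz G Z T hm (σ i)) (tlo G T hm) (B (σ i)) e.1).card + 1)
      ∨ ∃ e ∈ B (σ j), tlo G T hm e.1 = σ i ∧
        κ ≤ (frC G (cz G Z T hm (σ j)) (tlo G T hm) (B (σ j)) e.1).card + 1) :
    (pcn (tlo G T hm) B (σ i) (σ j) + pcn (tlo G T hm) B (σ j) (σ i) - 1) * ((r : ℤ) - 1)
        + (max 0 ((κ : ℤ) - (pcn (tlo G T hm) B (σ i) (σ j)
          + pcn (tlo G T hm) B (σ j) (σ i)))) ^ 2
      ≤ tI G Z T hm r Z (σ i) * tI G Z T hm r Z (σ j)
        + (pcn (tlo G T hm) B (σ i) (σ j) + pcn (tlo G T hm) B (σ j) (σ i)) ^ 2 := by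
  have hcard := h.cardT
  have hmem : ∀ i < n, σ i ∈ T := fun i hi => H.rk.mem i (by rw [hcard]; exact hi)
  have hne : σ i ≠ σ j := fun h1 =>
    hij (H.rk.sinj (by rw [hcard]; exact hi) (by rw [hcard]; exact hj) h1)
  have hb : ∀ i < n, ∀ j < n, (∀ e ∈ pcs (tlo G T hm) (B (σ i)) (σ j), e.1 ∈ hz G Z T hm (σ i)) ∧
      (∀ e ∈ pcs (tlo G T hm) (B (σ i)) (σ j), tlo G T hm e.1 = σ j) ∧
      (∀ e ∈ pcs (tlo G T hm) (B (σ i)) (σ j), e.2 ∈ cz G Z T hm (σ i)) ∧
      (∀ e ∈ pcs (tlo G T hm) (B (σ i)) (σ j), ¬ G.Adj e.1 e.2) ∧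
      (∀ e ∈ pcs (tlo G T hm) (B (σ i)) (σ j), ∀ f ∈ pcs (tlo G T hm) (B (σ i)) (σ j),
        e.1 = f.1 → e = f) ∧
      (∀ e ∈ pcs (tlo G T hm) (B (σ i)) (σ j), ∀ f ∈ pcs (tlo G T hm) (B (σ i)) (σ j),
        e.2 = f.2 → e = f) ∧
      ∀ e ∈ B (σ i), (frC G (cz G Z T hm (σ i)) (tlo G T hm) (B (σ i)) e.1).card + 1
        ≤ (msC G (cz G Z T hm (σ i)) e.1).card := by
    intro i hi j hj
    have hx := hmem i hi
    have hpk := (H.pk _ hx).toPk
    refine ⟨fun e he => hpk.bH e (mem_pcs.1 he).1, fun e he => (mem_pcs.1 he).2,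
      fun e he => hpk.bC e (mem_pcs.1 he).1, fun e he => hpk.bN e (mem_pcs.1 he).1,
      fun e he f hf => hpk.b1 e (mem_pcs.1 he).1 f (mem_pcs.1 hf).1,
      fun e he f hf hef => hpk.b2 e (mem_pcs.1 he).1 f (mem_pcs.1 hf).1 hef
        ((mem_pcs.1 he).2.trans (mem_pcs.1 hf).2.symm), fun e he => ?_⟩
    rw [← h.msd_eq_msC hx hx (hpk.bH e he)]
    exact hpk.frC_lt_msd (h.csys.dCH hx hx) he
  obtain ⟨a1, a2, a3, a4, a5, a6, a7⟩ := hb i hi j hj
  obtain ⟨b1, b2, b3, b4, b5, b6, b7⟩ := hb j hj i hi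
  have h1 := h.jntBQ hp (hmem i hi) (hmem j hj) hne a1 a2 a3 a4 a5 a6 b1 b2 b3 b4 b5 b6 (q := κ) (by
    rcases hκ with hκ | ⟨e, he, h2, h3⟩ | ⟨e, he, h2, h3⟩
    · left
      unfold pcn at hκ
      exact_mod_cast hκ
    · exact Or.inr (Or.inl ⟨e, mem_pcs.2 ⟨he, h2⟩, h3.trans (a7 e he)⟩)
    · exact Or.inr (Or.inr ⟨e, mem_pcs.2 ⟨he, h2⟩, h3.trans (b7 e he)⟩))
  have h2 : (max 0 ((κ : ℤ) - (pcn (tlo G T hm) B (σ i) (σ j)
          + pcn (tlo G T hm) B (σ j) (σ i)))) = ((κ - ((pcs (tlo G T hm) (B (σ i)) (σ j)).card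
          + (pcs (tlo G T hm) (B (σ j)) (σ i)).card) : ℕ) : ℤ) := by
    unfold pcn
    omega
  rw [h2]
  exact h1

end TransB

end Pool.Agent.Lib.MP_f04ccf_co
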