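import Pool.Agent.Lib.MP_f04ccf_co.M.MatT
import Pool.Agent.Lib.MP_f04ccf_co.M.RowP

/-!
MP_f04ccf_co, PLAN W, cliques: LEMMA N (the row test without N-excess) and LEMMA N+ (all the energy
against the slack of that test) with ANY choice `X` of the other points, in particular with the best one
(`xmn`, misses `imn`, which have product bounds for items of any value).

* `WCoreK.tzlX`, `WCoreK.slkX`: for one row, any `X`;
* `WCoreK.tzIn`, `WCoreK.slkIn`: over the integers of `WItK`, misses `imn`.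
-/

set_option autoImplicit false

namespace Pool.Agent.Lib.MP_f04ccf_co

open Finset

attribute [local instance] Classical.propDecidable

section SlkX

variable {V : Type*} {G : SimpleGraph V} {Z T : Finset V} {hm : V → V} {r m n p : ℕ}
  {φ : Finset (V × V) → Finset (Finset V) → ℕ}

/-- at most one best point -/
lemma card_xmn_le {ι : Type*} {C : ι → Finset V} {tl : V → ι} {z : ι} {Q : Finset V} :
    (xmn G C tl z Q).card ≤ 1 := by
  unfold xmn
  split_ifs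
  · rw [card_singleton]
  · rw [card_empty]
    exact Nat.zero_le _

/-- **LEMMA N with any choice of the other points** -/
theorem WCoreK.tzlX (hp : 2 * r ≤ p) (h : WCoreK G Z T r m n p hm) {B : V → Finset (V × V)}
    {Ps : V → Finset (Finset V)}
    (hB : ∀ x ∈ T, PkPP G (cz G Z T hm x) (hz G Z T hm x) (tlo G T hm) φ (B x) (Ps x))
    {z : V} (hzT : z ∈ T) {K : Finset (Itm V)}
    (hK : K ⊆ (T.erase z).biUnion fun x => pkf (B x) (Ps x))
    {X : Finset V → Finset V} (hX : ∀ Q, X Q ⊆ oth (tlo G T hm) z Q)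
    (hX1 : ∀ Q, (X Q).card ≤ 1)
    (h0 : 0 ≤ sI hm r Z z + ∑ u ∈ K, (ikp (tlo G T hm) z u : ℤ)) :
    ((r : ℤ) - 1) * (sI hm r Z z + ∑ u ∈ K, (ikp (tlo G T hm) z u : ℤ))
      ≤ (∑ u ∈ pkf (B z) (Ps z), (ivl u : ℤ) + ∑ u ∈ K, (ikp (tlo G T hm) z u : ℤ))
          * (tI G Z T hm r Z z
            + 2 * (sI hm r Z z + ∑ u ∈ K, (ikp (tlo G T hm) z u : ℤ)) + 1)
        + ∑ u ∈ K, ((rcl G (cz G Z T hm) (tlo G T hm) X z u).card : ℤ) := by
  set C := cz G Z T hm with hCdef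
  set H := hz G Z T hm with hHdef
  set tl := tlo G T hm with htl
  have hF := h.F.toPFrame
  have hfam : ∀ x ∈ T, Fam (co G) C H tl x (pkf (B x) (Ps x)) := fun x hx =>
    (hB x hx).toPk.fam (h.csys.dCH hx hx).symm
  have hpk := hB z hzT
  have hcard : ((C z).card : ℤ) = (r : ℤ) - 1 - tI G Z T hm r Z z := card_CP_eq Z z
  have ht0 : 0 ≤ tI G Z T hm r Z z := by
    have h1 := h.hom (C z) (fun c hc => (mem_filter.1 (mem_CP.1 hc).1).1)
      (h.csys.CP_clq hF hzT)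
    have := h.hr
    have h2 : ((C z).card : ℤ) ≤ (r : ℤ) - 1 := by omega
    linarith
  have hmu0 : 0 ≤ ∑ u ∈ pkf (B z) (Ps z), (ivl u : ℤ) := sum_nonneg fun _ _ => Nat.cast_nonneg _
  have hrm0 : 0 ≤ ∑ u ∈ K, ((rcl G C tl X z u).card : ℤ) := sum_nonneg fun _ _ => Nat.cast_nonneg _
  have hk0 : 0 ≤ ∑ u ∈ K, (ikp tl z u : ℤ) := sum_nonneg fun _ _ => Nat.cast_nonneg _
  set K' := K.filter fun u => ikp tl z u ≠ 0 with hK'
  have e1 : ∑ u ∈ K, ((rcl G C tl X z u).card : ℤ) = ∑ u ∈ K', ((rcl G C tl X z u).card : ℤ) := by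
    rw [hK', sum_filter]
    refine sum_congr rfl fun u hu => ?_
    by_cases h1 : ikp tl z u = 0
    · have h2 := rcl_card_le (G := G) (C := C) (tl := tl) (X := X)
        (z := z) (u := u)
      rw [h1, Nat.zero_mul] at h2
      have h3 : (rcl G C tl X z u).card = 0 := Nat.le_zero.1 h2
      rw [h3, h1]
      simp
    · simp only [ne_eq, h1, not_false_iff, if_true]
  have e2 : ∑ u ∈ K, (ikp tl z u : ℤ) = ∑ u ∈ K', (ikp tl z u : ℤ) := by
    rw [hK', sum_filter]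
    refine sum_congr rfl fun u _ => ?_
    by_cases h1 : ikp tl z u = 0
    · rw [h1]
      simp
    · simp only [ne_eq, h1, not_false_iff, if_true]
  have hK'K : K' ⊆ (T.erase z).biUnion fun x => pkf (B x) (Ps x) := (filter_subset _ _).trans hK
  have hk' : ∀ u ∈ K', ikp tl z u ≠ 0 := fun u hu => (mem_filter.1 hu).2
  rw [e1] at hrm0 ⊢
  rw [e2] at h0 hk0 ⊢
  -- the test without extra points
  have h5 := two_eI (G := G) (hm := hm) Z z
  have h6 : (((Z.filter fun v => hm v = z).card : ℤ) - r) = sI hm r Z z := rfl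
  have e3 : ∑ u ∈ K', (((C z).card : ℤ) * ikp tl z u
      - (rcl G C tl X z u).card)
      = ((r : ℤ) - 1 - tI G Z T hm r Z z) * ∑ u ∈ K', (ikp tl z u : ℤ)
        - ∑ u ∈ K', ((rcl G C tl X z u).card : ℤ) := by
    rw [sum_sub_distrib, ← mul_sum, hcard]
  have hh0 : 0 ≤ ((Z.filter fun v => hm v = z).card : ℤ) - r + 1
      + ∑ u ∈ K', (ikp tl z u : ℤ) := by
    rw [h6]
    linarith
  have h1 := Fam.row_one h.gp.P h.csys h.wsysT hfam hzT hK'K hk'
    (X := X) hX hX1 hh0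
  -- the energy
  have hYt : ∀ v ∈ H z, tl v ∈ T.erase z := h.toWHom.ht z hzT
  have h32 := h.csys.h32 hF h.hh h.toWHom.ht hzT
  have en := PkPP.energyK hF h.hh h.csys h.toWHom.ht hzT hpk
  have hex := hpk.toPk.excess hYt
  have hcn := hpk.toPk.sum_card_ntl hpk.min h32 hYt
  have hiv := hpk.toPk.sum_ivl
  have hmu : ∑ j ∈ T.erase z, ((ntl G (C z) (H z) tl (B z) j).card : ℤ)
      ≤ ∑ u ∈ pkf (B z) (Ps z), (ivl u : ℤ) := by
    have h2 : ∑ j ∈ T.erase z, (ntl G (C z) (H z) tl (B z) j).card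
        ≤ ∑ u ∈ pkf (B z) (Ps z), ivl u := by omega
    exact_mod_cast h2
  have hh := hI_eq (G := G) (Z := Z) (T := T) (hm := hm) (r := r) Z z
  by_contra hcon
  push Not at hcon
  by_cases hm1 : 1 ≤ sI hm r Z z + 2 * ∑ u ∈ K', (ikp tl z u : ℤ)
  swap
  · have h2 : ∑ u ∈ K', (ikp tl z u : ℤ) = 0 := by omega
    have h3 : sI hm r Z z = 0 := by omega
    rw [h2, h3] at hcon
    simp only [add_zero, mul_zero] at hcon
    have h4 := mul_nonneg hmu0 (by linarith : 0 ≤ tI G Z T hm r Z z + 1)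
    linarith
  obtain ⟨Δ, hΔ⟩ : ∃ Δ : ℤ, Δ = 2 * ((r : ℤ) - 1) * sI hm r Z z
      + 2 * (((r : ℤ) - 1 - tI G Z T hm r Z z) * ∑ u ∈ K', (ikp tl z u : ℤ)
        - ∑ u ∈ K', ((rcl G C tl X z u).card : ℤ))
      - (2 * eI G hm Z z + 4 * (∑ u ∈ K', (ikp tl z u : ℤ)) * (sI hm r Z z + 1)
        + 2 * (∑ u ∈ K', (ikp tl z u : ℤ)) * (2 * (∑ u ∈ K', (ikp tl z u : ℤ)) - 1)) :=
    ⟨_, rfl⟩
  have hΔ0 : Δ ≤ 0 := by
    rw [e3, h6, ← h5] at h1
    linarith
  refine tail_final (T.erase z) (fun j => ((btl tl (B z) j).card : ℤ))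
    (fun j => ((ntl G (C z) (H z) tl (B z) j).card : ℤ))
    (fun j => (kpl G (C z) (H z) tl (B z) j : ℤ)) (Δ := Δ - 1)
    (fun j _ => Nat.cast_nonneg _) (fun j _ => ?_) hm1 hmu ?_ (by linarith) ?_
  · show ((btl tl (B z) j).card : ℤ) ≤ ((ntl G (C z) (H z) tl (B z) j).card : ℤ)
    have h2 := hpk.toPk.card_ntl j
    have h3 : (btl tl (B z) j).card ≤ (ntl G (C z) (H z) tl (B z) j).card := by omega
    exact_mod_cast h3
  · show _ ≤ Δ - 1 + ∑ j ∈ T.erase z, ((btl tl (B z) j).card : ℤ) * ((btl tl (B z) j).card + 1)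
      + 2 * ∑ j ∈ T.erase z, ((ntl G (C z) (H z) tl (B z) j).card : ℤ)
        * kpl G (C z) (H z) tl (B z) j
    rw [hh] at en
    have en' : 2 * eI G hm Z z + (∑ u ∈ pkf (B z) (Ps z), (ivl u : ℤ))
        * (∑ u ∈ pkf (B z) (Ps z), (ivl u : ℤ) + 1)
      ≤ 2 * ((∑ u ∈ pkf (B z) (Ps z), (ivl u : ℤ))
          * (tI G Z T hm r Z z + sI hm r Z z + 1))
        + nbk G (C z) (H z) tl (B z) (Ps z)
        + 2 * ∑ j ∈ T.erase z, nxk G (C z) (H z) tl (B z) j := en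
    generalize ∑ j ∈ T.erase z, ((btl tl (B z) j).card : ℤ) * ((btl tl (B z) j).card + 1) = a1 at *
    generalize ∑ j ∈ T.erase z, ((ntl G (C z) (H z) tl (B z) j).card : ℤ)
        * kpl G (C z) (H z) tl (B z) j = a2 at *
    generalize ∑ j ∈ T.erase z, nxk G (C z) (H z) tl (B z) j = a3 at *
    generalize nbk G (C z) (H z) tl (B z) (Ps z) = a4 at *
    generalize ∑ u ∈ pkf (B z) (Ps z), (ivl u : ℤ) = μ at *
    generalize ∑ u ∈ K', (ikp tl z u : ℤ) = k at *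
    generalize ∑ u ∈ K', ((rcl G C tl X z u).card : ℤ) = ρ at *
    generalize tI G Z T hm r Z z = τ at *
    generalize sI hm r Z z = s at *
    generalize eI G hm Z z = e at *
    rw [hΔ]
    nlinarith
  · intro j hj hG1 hκ
    have hG1' : (1 : ℤ) ≤ ((ntl G (C z) (H z) tl (B z) j).card : ℤ) := hG1
    have hne : (ntl G (C z) (H z) tl (B z) j).Nonempty := by
      rw [← card_pos]
      have : (0 : ℤ) < ((ntl G (C z) (H z) tl (B z) j).card : ℤ) := by linarith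
      exact_mod_cast this
    obtain ⟨v, hv, hvκ⟩ := exists_mem_eq_sup _ hne
      fun v => (frC G (C z) tl (B z) v).card
    have hvκ' : kpl G (C z) (H z) tl (B z) j = (frC G (C z) tl (B z) v).card := hvκ
    obtain ⟨hvH, hvj⟩ := hpk.toPk.ntl_sub hv
    have hfr := h.frC_le hp (B := B z) hzT hvH
    have hfr' : (frC G (C z) tl (B z) v).card ≤ (msd G (C j) v).card := by
      rw [← hvj]
      exact hfr
    set W : Finset V := K'.biUnion (rpts tl X z) with hW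
    set Y : Finset V := msd G (C j) v \ W with hY
    have hYC : Y ⊆ C j := fun y hy => (mem_filter.1 (mem_sdiff.1 hy).1).1
    have hYW : Disjoint W Y := disjoint_sdiff
    have hgk := Fam.card_cls h.wsysT hfam (z := z) (mem_of_mem_erase hj) hK'K hk'
      (X := X) hX
    have hq : ∀ y ∈ Y, ((btl tl (B z) j).card : ℤ) + (frC G (C z) tl (B z) v).card
        ≤ (dg G (Z.filter fun w => hm w = z) y : ℤ) := by
      intro y hy
      have h7 : ¬ G.Adj v y := (mem_filter.1 (mem_sdiff.1 hy).1).2.2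
      have h8 := hpk.toPk.slot_hits h.wsysT hzT hvH (y := y) (by
        show y ∈ C (tl v)
        rw [hvj]
        exact hYC hy) h7
      have h9 : (btl tl (B z) j).card + (frC G (C z) tl (B z) v).card
          ≤ dg G (Z.filter fun w => hm w = z) y := by
        rw [← hvj]
        exact h8
      exact_mod_cast h9
    have h2 := Fam.row_x hF h.gp.P h.csys h.wsysT hfam hzT hj hK'K hk'
      (X := X) hX hX1 hYC hYW hq hh0
    have hYc : (msd G (C j) v).card ≤ Y.card + (W ∩ C j).card := by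
      have h3 : msd G (C j) v ⊆ Y ∪ (W ∩ C j) := by
        intro y hy
        by_cases hyW : y ∈ W
        · exact mem_union_right _ (mem_inter.2 ⟨hyW, (mem_filter.1 hy).1⟩)
        · exact mem_union_left _ (mem_sdiff.2 ⟨hy, hyW⟩)
      exact (card_le_card h3).trans (card_union_le _ _)
    have hκ' : sI hm r Z z + 2 * ∑ u ∈ K', (ikp tl z u : ℤ)
        < ((frC G (C z) tl (B z) v).card : ℤ) := by
      rw [← hvκ']
      exact hκ
    refine ⟨((W ∩ C j).card : ℤ), Nat.cast_nonneg _, ?_, ?_⟩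
    · have h3 : ((W ∩ C j).card : ℤ) ≤ ∑ u ∈ K', (ikp tl z u : ℤ) := by exact_mod_cast hgk
      linarith
    · show Δ - 1 + 2 * (((kpl G (C z) (H z) tl (B z) j : ℕ) - (W ∩ C j).card : ℤ)
        * ((kpl G (C z) (H z) tl (B z) j : ℕ) - 1
          - (sI hm r Z z + 2 * ∑ u ∈ K', (ikp tl z u : ℤ))
          + (btl tl (B z) j).card + (W ∩ C j).card)) < 0
      rw [hvκ']
      rw [e3, h6, ← h5] at h2
      have h2' : 2 * ((r : ℤ) - 1) * sI hm r Z z
        + 2 * (((r : ℤ) - 1 - tI G Z T hm r Z z) * ∑ u ∈ K', (ikp tl z u : ℤ)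
          - ∑ u ∈ K', ((rcl G C tl X z u).card : ℤ))
        + 2 * (Y.card * (((btl tl (B z) j).card : ℤ) + (frC G (C z) tl (B z) v).card
          + ((W ∩ C j).card : ℤ) - (sI hm r Z z + 1) - 2 * ∑ u ∈ K', (ikp tl z u : ℤ)))
        ≤ 2 * eI G hm Z z + 4 * (∑ u ∈ K', (ikp tl z u : ℤ)) * (sI hm r Z z + 1)
          + 2 * (∑ u ∈ K', (ikp tl z u : ℤ)) * (2 * (∑ u ∈ K', (ikp tl z u : ℤ)) - 1) := h2
      have h7 : ((frC G (C z) tl (B z) v).card : ℤ) - (W ∩ C j).card ≤ Y.card := by omega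
      have h8 : (0 : ℤ) ≤ (btl tl (B z) j).card := Nat.cast_nonneg _
      have h9 : (0 : ℤ) ≤ (W ∩ C j).card := Nat.cast_nonneg _
      have h10 : (((frC G (C z) tl (B z) v).card : ℤ) - (W ∩ C j).card)
          * (((btl tl (B z) j).card : ℤ) + (frC G (C z) tl (B z) v).card
          + ((W ∩ C j).card : ℤ) - (sI hm r Z z + 1) - 2 * ∑ u ∈ K', (ikp tl z u : ℤ))
          ≤ Y.card * (((btl tl (B z) j).card : ℤ) + (frC G (C z) tl (B z) v).card
          + ((W ∩ C j).card : ℤ) - (sI hm r Z z + 1) - 2 * ∑ u ∈ K', (ikp tl z u : ℤ)) :=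
        mul_le_mul_of_nonneg_right h7 (by linarith)
      generalize (((W ∩ C j).card : ℕ) : ℤ) = d at *
      generalize ((Y.card : ℕ) : ℤ) = y at *
      generalize (((btl tl (B z) j).card : ℕ) : ℤ) = g at *
      generalize (((frC G (C z) tl (B z) v).card : ℕ) : ℤ) = κ at *
      generalize ∑ u ∈ K', (ikp tl z u : ℤ) = k at *
      generalize ∑ u ∈ K', ((rcl G C tl X z u).card : ℤ) = ρ at *
      generalize tI G Z T hm r Z z = τ at *
      generalize sI hm r Z z = s at *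
      generalize eI G hm Z z = e at *
      have e4 : (κ - d) * (κ - 1 - (s + 2 * k) + g + d)
          = (κ - d) * (g + κ + d - (s + 1) - 2 * k) := by ring
      rw [e4]
      linarith

/-- **LEMMA N+ with any choice of the other points** -/
theorem WCoreK.slkX (hp : 2 * r ≤ p) (h : WCoreK G Z T r m n p hm) {B : V → Finset (V × V)}
    {Ps : V → Finset (Finset V)}
    (hB : ∀ x ∈ T, PkPP G (cz G Z T hm x) (hz G Z T hm x) (tlo G T hm) φ (B x) (Ps x))
    {z : V} (hzT : z ∈ T) {K : Finset (Itm V)}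
    (hK : K ⊆ (T.erase z).biUnion fun x => pkf (B x) (Ps x))
    {X : Finset V → Finset V} (hX : ∀ Q, X Q ⊆ oth (tlo G T hm) z Q)
    (hX1 : ∀ Q, (X Q).card ≤ 1)
    (h0 : 0 ≤ sI hm r Z z + ∑ u ∈ K, (ikp (tlo G T hm) z u : ℤ)) :
    eI G hm Z z + (∑ u ∈ K, (ikp (tlo G T hm) z u : ℤ)) * tI G Z T hm r Z z
        + 2 * (∑ u ∈ K, (ikp (tlo G T hm) z u : ℤ)) * (sI hm r Z z + 1)
        + (∑ u ∈ K, (ikp (tlo G T hm) z u : ℤ))
          * (2 * (∑ u ∈ K, (ikp (tlo G T hm) z u : ℤ)) - 1)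
        + ((r : ℤ) - 1) * (sI hm r Z z + ∑ u ∈ K, (ikp (tlo G T hm) z u : ℤ))
      ≤ 2 * ((∑ u ∈ pkf (B z) (Ps z), (ivl u : ℤ) + ∑ u ∈ K, (ikp (tlo G T hm) z u : ℤ))
          * (tI G Z T hm r Z z
            + 2 * (sI hm r Z z + ∑ u ∈ K, (ikp (tlo G T hm) z u : ℤ)) + 1))
        + ∑ u ∈ K, ((rcl G (cz G Z T hm) (tlo G T hm) X z u).card : ℤ) := by
  set C := cz G Z T hm with hCdef
  set H := hz G Z T hm with hHdef
  set tl := tlo G T hm with htl
  have hF := h.F.toPFrame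
  have hfam : ∀ x ∈ T, Fam (co G) C H tl x (pkf (B x) (Ps x)) := fun x hx =>
    (hB x hx).toPk.fam (h.csys.dCH hx hx).symm
  have hpk := hB z hzT
  have hcard : ((C z).card : ℤ) = (r : ℤ) - 1 - tI G Z T hm r Z z := card_CP_eq Z z
  have hmu0 : 0 ≤ ∑ u ∈ pkf (B z) (Ps z), (ivl u : ℤ) := sum_nonneg fun _ _ => Nat.cast_nonneg _
  have hk0 : 0 ≤ ∑ u ∈ K, (ikp tl z u : ℤ) := sum_nonneg fun _ _ => Nat.cast_nonneg _
  set K' := K.filter fun u => ikp tl z u ≠ 0 with hK'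
  have e1 : ∑ u ∈ K, ((rcl G C tl X z u).card : ℤ) = ∑ u ∈ K', ((rcl G C tl X z u).card : ℤ) := by
    rw [hK', sum_filter]
    refine sum_congr rfl fun u hu => ?_
    by_cases h1 : ikp tl z u = 0
    · have h2 := rcl_card_le (G := G) (C := C) (tl := tl) (X := X)
        (z := z) (u := u)
      rw [h1, Nat.zero_mul] at h2
      have h3 : (rcl G C tl X z u).card = 0 := Nat.le_zero.1 h2
      rw [h3, h1]
      simp
    · simp only [ne_eq, h1, not_false_iff, if_true]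
  have e2 : ∑ u ∈ K, (ikp tl z u : ℤ) = ∑ u ∈ K', (ikp tl z u : ℤ) := by
    rw [hK', sum_filter]
    refine sum_congr rfl fun u _ => ?_
    by_cases h1 : ikp tl z u = 0
    · rw [h1]
      simp
    · simp only [ne_eq, h1, not_false_iff, if_true]
  have hK'K : K' ⊆ (T.erase z).biUnion fun x => pkf (B x) (Ps x) := (filter_subset _ _).trans hK
  have hk' : ∀ u ∈ K', ikp tl z u ≠ 0 := fun u hu => (mem_filter.1 hu).2
  rw [e1]
  rw [e2] at h0 hk0 ⊢
  have h5 := two_eI (G := G) (hm := hm) Z z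
  have h6 : (((Z.filter fun v => hm v = z).card : ℤ) - r) = sI hm r Z z := rfl
  have e3 : ∑ u ∈ K', (((C z).card : ℤ) * ikp tl z u
      - (rcl G C tl X z u).card)
      = ((r : ℤ) - 1 - tI G Z T hm r Z z) * ∑ u ∈ K', (ikp tl z u : ℤ)
        - ∑ u ∈ K', ((rcl G C tl X z u).card : ℤ) := by
    rw [sum_sub_distrib, ← mul_sum, hcard]
  have hh0 : 0 ≤ ((Z.filter fun v => hm v = z).card : ℤ) - r + 1
      + ∑ u ∈ K', (ikp tl z u : ℤ) := by
    rw [h6]
    linarith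
  have h1 := Fam.row_one h.gp.P h.csys h.wsysT hfam hzT hK'K hk'
    (X := X) hX hX1 hh0
  -- the energy
  have hYt : ∀ v ∈ H z, tl v ∈ T.erase z := h.toWHom.ht z hzT
  have hHC : Disjoint (H z) (C z) := (h.csys.dCH hzT hzT).symm
  have h32 := h.csys.h32 hF h.hh h.toWHom.ht hzT
  have en := PkPP.energyK hF h.hh h.csys h.toWHom.ht hzT hpk
  have hex := hpk.toPk.excess2 hYt
  have hcn := hpk.toPk.card_ntp_le hpk.min h32 hYt
  have hiv := hpk.toPk.sum_ivl
  have hmu : ((ntp G (C z) (H z) tl (B z)).card : ℤ)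
      ≤ ∑ u ∈ pkf (B z) (Ps z), (ivl u : ℤ) := by
    have h2 : (ntp G (C z) (H z) tl (B z)).card
        ≤ ∑ u ∈ pkf (B z) (Ps z), ivl u := by omega
    exact_mod_cast h2
  have hh := hI_eq (G := G) (Z := Z) (T := T) (hm := hm) (r := r) Z z
  obtain ⟨Δ, hΔ⟩ : ∃ Δ : ℤ, Δ = 2 * eI G hm Z z
      + 4 * (∑ u ∈ K', (ikp tl z u : ℤ)) * (sI hm r Z z + 1)
      + 2 * (∑ u ∈ K', (ikp tl z u : ℤ)) * (2 * (∑ u ∈ K', (ikp tl z u : ℤ)) - 1)
      - 2 * ((r : ℤ) - 1) * sI hm r Z z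
      - 2 * (((r : ℤ) - 1 - tI G Z T hm r Z z) * ∑ u ∈ K', (ikp tl z u : ℤ)
        - ∑ u ∈ K', ((rcl G C tl X z u).card : ℤ)) :=
    ⟨_, rfl⟩
  have hΔ0 : 0 ≤ Δ := by
    rw [e3, h6, ← h5] at h1
    linarith
  set N := ntp G (C z) (H z) tl (B z) with hN
  obtain ⟨om, hom⟩ : ∃ om : V → ℤ, om = fun v => (2 * ((frC G (C z) tl (B z) v).card : ℤ)
      + if v ∈ (B z).image Prod.fst then 2 + ((usC G (C z) tl (B z) v).card : ℤ) else 0)
      - 2 * (sI hm r Z z + 2 * ∑ u ∈ K', (ikp tl z u : ℤ)) - (N.card + 1) := ⟨_, rfl⟩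
  have hsum : ∑ v ∈ N, om v = ∑ v ∈ N, (2 * ((frC G (C z) tl (B z) v).card : ℤ)
      + if v ∈ (B z).image Prod.fst then 2 + ((usC G (C z) tl (B z) v).card : ℤ) else 0)
      - N.card * (2 * (sI hm r Z z + 2 * ∑ u ∈ K', (ikp tl z u : ℤ)) + (N.card + 1)) := by
    rw [hom]
    simp only [sum_sub_distrib, sum_const, nsmul_eq_mul]
    ring
  have key := slk_int N om (D := Δ)
    (S := 2 * ((∑ u ∈ pkf (B z) (Ps z), (ivl u : ℤ) + ∑ u ∈ K', (ikp tl z u : ℤ))
        * (tI G Z T hm r Z z + 2 * (sI hm r Z z + ∑ u ∈ K', (ikp tl z u : ℤ)) + 1))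
      + 2 * ∑ u ∈ K', ((rcl G C tl X z u).card : ℤ)
      - 2 * (((r : ℤ) - 1) * (sI hm r Z z + ∑ u ∈ K', (ikp tl z u : ℤ)))) hΔ0 ?_ ?_
  · rw [hΔ] at key
    generalize ∑ u ∈ pkf (B z) (Ps z), (ivl u : ℤ) = μ at *
    generalize ∑ u ∈ K', (ikp tl z u : ℤ) = k at *
    generalize ∑ u ∈ K', ((rcl G C tl X z u).card : ℤ) = ρ at *
    generalize tI G Z T hm r Z z = τ at *
    generalize sI hm r Z z = s at *
    generalize eI G hm Z z = e at *
    nlinarith
  · rw [hsum]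
    rw [hh] at en
    have en' : 2 * eI G hm Z z + (∑ u ∈ pkf (B z) (Ps z), (ivl u : ℤ))
        * (∑ u ∈ pkf (B z) (Ps z), (ivl u : ℤ) + 1)
      ≤ 2 * ((∑ u ∈ pkf (B z) (Ps z), (ivl u : ℤ))
          * (tI G Z T hm r Z z + sI hm r Z z + 1))
        + nbk G (C z) (H z) tl (B z) (Ps z)
        + 2 * ∑ j ∈ T.erase z, nxk G (C z) (H z) tl (B z) j := en
    have hc0 : (0 : ℤ) ≤ N.card := Nat.cast_nonneg _
    generalize ∑ v ∈ N, (2 * ((frC G (C z) tl (B z) v).card : ℤ)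
      + if v ∈ (B z).image Prod.fst then 2 + ((usC G (C z) tl (B z) v).card : ℤ) else 0)
        = a1 at *
    generalize ∑ j ∈ T.erase z, nxk G (C z) (H z) tl (B z) j = a3 at *
    generalize nbk G (C z) (H z) tl (B z) (Ps z) = a4 at *
    generalize ((N.card : ℕ) : ℤ) = c at *
    generalize ∑ u ∈ pkf (B z) (Ps z), (ivl u : ℤ) = μ at *
    generalize ∑ u ∈ K', (ikp tl z u : ℤ) = k at *
    generalize ∑ u ∈ K', ((rcl G C tl X z u).card : ℤ) = ρ at *
    generalize tI G Z T hm r Z z = τ at *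
    generalize sI hm r Z z = s at *
    generalize eI G hm Z z = e at *
    rw [hΔ]
    have h7 : 0 ≤ (μ - c) * (μ + c + 1 + 2 * (s + 2 * k)) :=
      mul_nonneg (by linarith) (by linarith)
    nlinarith
  · intro v hv hv1
    have hvH : v ∈ H z := hpk.toPk.ntp_sub hv
    have hnd := h.nd_le_tail hp hzT hvH
    have hge := hpk.toPk.nd_ge hHC hvH
    have hj := hYt v hvH
    set W : Finset V := K'.biUnion (rpts tl X z) with hW
    set Y : Finset V := msd G (C (tl v)) v \ W with hY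
    have hYC : Y ⊆ C (tl v) := fun y hy => (mem_filter.1 (mem_sdiff.1 hy).1).1
    have hYW : Disjoint W Y := disjoint_sdiff
    have hgk := Fam.card_cls h.wsysT hfam (z := z) (mem_of_mem_erase hj) hK'K hk'
      (X := X) hX
    have hq : ∀ y ∈ Y, ((btl tl (B z) (tl v)).card : ℤ) + (frC G (C z) tl (B z) v).card
        ≤ (dg G (Z.filter fun w => hm w = z) y : ℤ) := by
      intro y hy
      have h7 : ¬ G.Adj v y := (mem_filter.1 (mem_sdiff.1 hy).1).2.2
      have h8 := hpk.toPk.slot_hits h.wsysT hzT hvH (y := y) (hYC hy) h7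
      have h9 : (btl tl (B z) (tl v)).card + (frC G (C z) tl (B z) v).card
          ≤ dg G (Z.filter fun w => hm w = z) y := h8
      exact_mod_cast h9
    have h2 := Fam.row_x hF h.gp.P h.csys h.wsysT hfam hzT hj hK'K hk'
      (X := X) hX hX1 hYC hYW hq hh0
    have hYc : (msd G (C (tl v)) v).card ≤ Y.card + (W ∩ C (tl v)).card := by
      have h3 : msd G (C (tl v)) v ⊆ Y ∪ (W ∩ C (tl v)) := by
        intro y hy
        by_cases hyW : y ∈ W
        · exact mem_union_right _ (mem_inter.2 ⟨hyW, (mem_filter.1 hy).1⟩)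
        · exact mem_union_left _ (mem_sdiff.2 ⟨hy, hyW⟩)
      exact (card_le_card h3).trans (card_union_le _ _)
    have hgk' : ((W ∩ C (tl v)).card : ℤ) ≤ ∑ u ∈ K', (ikp tl z u : ℤ) := by exact_mod_cast hgk
    rw [e3, h6, ← h5] at h2
    have h2' : 2 * (Y.card * (((btl tl (B z) (tl v)).card : ℤ)
        + (sI hm r Z z + 2 * ∑ u ∈ K', (ikp tl z u : ℤ) + (((frC G (C z) tl (B z) v).card : ℤ)
          - (sI hm r Z z + 2 * ∑ u ∈ K', (ikp tl z u : ℤ))))
        + ((W ∩ C (tl v)).card : ℤ) - 1 - (sI hm r Z z + 2 * ∑ u ∈ K', (ikp tl z u : ℤ))))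
        ≤ Δ := by
      have e4 : ((btl tl (B z) (tl v)).card : ℤ)
        + (sI hm r Z z + 2 * ∑ u ∈ K', (ikp tl z u : ℤ) + (((frC G (C z) tl (B z) v).card : ℤ)
          - (sI hm r Z z + 2 * ∑ u ∈ K', (ikp tl z u : ℤ))))
        + ((W ∩ C (tl v)).card : ℤ) - 1 - (sI hm r Z z + 2 * ∑ u ∈ K', (ikp tl z u : ℤ))
        = ((btl tl (B z) (tl v)).card : ℤ) + (frC G (C z) tl (B z) v).card
          + ((W ∩ C (tl v)).card : ℤ) - (sI hm r Z z + 1)
          - 2 * ∑ u ∈ K', (ikp tl z u : ℤ) := by ring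
      rw [e4, hΔ]
      have h2'' : 2 * ((r : ℤ) - 1) * sI hm r Z z
        + 2 * (((r : ℤ) - 1 - tI G Z T hm r Z z) * ∑ u ∈ K', (ikp tl z u : ℤ)
          - ∑ u ∈ K', ((rcl G C tl X z u).card : ℤ))
        + 2 * (Y.card * (((btl tl (B z) (tl v)).card : ℤ) + (frC G (C z) tl (B z) v).card
          + ((W ∩ C (tl v)).card : ℤ) - (sI hm r Z z + 1) - 2 * ∑ u ∈ K', (ikp tl z u : ℤ)))
        ≤ 2 * eI G hm Z z + 4 * (∑ u ∈ K', (ikp tl z u : ℤ)) * (sI hm r Z z + 1)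
          + 2 * (∑ u ∈ K', (ikp tl z u : ℤ)) * (2 * (∑ u ∈ K', (ikp tl z u : ℤ)) - 1) := h2
      linarith
    have hd0 : (0 : ℤ) ≤ ((W ∩ C (tl v)).card : ℤ) := Nat.cast_nonneg _
    have hdm : ((W ∩ C (tl v)).card : ℤ) ≤ sI hm r Z z + 2 * ∑ u ∈ K', (ikp tl z u : ℤ) := by
      linarith
    have hu0 : (0 : ℤ) ≤ ((usC G (C z) tl (B z) v).card : ℤ) := Nat.cast_nonneg _
    have hc1 : 1 ≤ N.card := card_pos.2 ⟨v, hv⟩
    rw [hom] at hv1 ⊢
    by_cases hpc : v ∈ (B z).image Prod.fst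
    · simp only [hpc, if_true] at hv1 hge ⊢
      obtain ⟨e, he, hev⟩ := mem_image.1 hpc
      have hus := hpk.toPk.usC_le (e := e) he
      rw [hev] at hus
      have hbt : (btl tl (B z) (tl v)).card ≤ N.card := by
        have h7 : N.card = (B z).card + (Nend G (C z) (H z) tl (B z)).card :=
          hpk.toPk.card_ntp
        have h8 : (btl tl (B z) (tl v)).card ≤ (B z).card := card_filter_le _ _
        omega
      have hY1 : ((frC G (C z) tl (B z) v).card : ℤ) + (usC G (C z) tl (B z) v).card + 1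
          - (W ∩ C (tl v)).card ≤ Y.card := by
        have h9 : (frC G (C z) tl (B z) v).card + (usC G (C z) tl (B z) v).card + 1
          ≤ Y.card + (W ∩ C (tl v)).card := by
          have : (frC G (C z) tl (B z) v).card + (usC G (C z) tl (B z) v).card + 1
            ≤ nd G (C z) v := hge
          exact this.trans (hnd.trans hYc)
        have h10 : ((frC G (C z) tl (B z) v).card : ℤ) + (usC G (C z) tl (B z) v).card + 1
          ≤ Y.card + (W ∩ C (tl v)).card := by exact_mod_cast h9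
        linarith
      have h11 := slk_pc (x := ((frC G (C z) tl (B z) v).card : ℤ)
          - (sI hm r Z z + 2 * ∑ u ∈ K', (ikp tl z u : ℤ)))
        (u := ((usC G (C z) tl (B z) v).card : ℤ)) (g := ((btl tl (B z) (tl v)).card : ℤ))
        (c := (N.card : ℤ)) (m := sI hm r Z z + 2 * ∑ u ∈ K', (ikp tl z u : ℤ))
        (d := ((W ∩ C (tl v)).card : ℤ)) (y := (Y.card : ℤ)) (D := Δ) hu0
        (by exact_mod_cast hus) (by exact_mod_cast hbt) hd0 hdm (by linarith) (by linarith) h2'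
      have e5 : ∀ a b c m : ℤ, 2 * (c * (2 * a + (2 + b) - 2 * m - (c + 1)))
          = 2 * (c * (2 * (a - m) + 1 + b - c)) := fun a b c m => by ring
      rw [e5]
      exact h11
    · simp only [hpc, if_false] at hv1 hge ⊢
      have hY1 : ((frC G (C z) tl (B z) v).card : ℤ) - (W ∩ C (tl v)).card ≤ Y.card := by
        have h9 : (frC G (C z) tl (B z) v).card ≤ Y.card + (W ∩ C (tl v)).card := by
          have : (frC G (C z) tl (B z) v).card + (usC G (C z) tl (B z) v).card + 0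
            ≤ nd G (C z) v := hge
          exact (by omega : (frC G (C z) tl (B z) v).card ≤ nd G (C z) v).trans
            (hnd.trans hYc)
        have h10 : ((frC G (C z) tl (B z) v).card : ℤ)
          ≤ Y.card + (W ∩ C (tl v)).card := by exact_mod_cast h9
        linarith
      have h11 := slk_ne (x := ((frC G (C z) tl (B z) v).card : ℤ)
          - (sI hm r Z z + 2 * ∑ u ∈ K', (ikp tl z u : ℤ)))
        (g := ((btl tl (B z) (tl v)).card : ℤ))
        (c := (N.card : ℤ)) (m := sI hm r Z z + 2 * ∑ u ∈ K', (ikp tl z u : ℤ))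
        (d := ((W ∩ C (tl v)).card : ℤ)) (y := (Y.card : ℤ)) (D := Δ)
        (Nat.cast_nonneg _) (by exact_mod_cast hc1) hd0 hdm (by linarith) (by linarith) h2'
      have e5 : ∀ a c m : ℤ, 2 * (c * (2 * a + 0 - 2 * m - (c + 1)))
          = 2 * (c * (2 * (a - m) - 1 - c)) := fun a c m => by ring
      rw [e5]
      exact h11

end SlkX

section SlkI

variable {V : Type*} {G : SimpleGraph V} {Z T : Finset V} {hm : V → V} {r m n p : ℕ}
  {φ : Finset (V × V) → Finset (Finset V) → ℕ} {B : V → Finset (V × V)}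
  {Ps : V → Finset (Finset V)} {host : Itm V → V} {ρ : V → ℕ} {σ : ℕ → V}

/-- **LEMMA N over the integers of `WItK`**, misses `imn` -/
theorem WCoreK.tzIn (hp : 2 * r ≤ p) (h : WCoreK G Z T r m n p hm)
    (W : WItK G Z T hm r n φ B Ps host ρ σ) {i : ℕ} (hi : i < n) {K : Finset (Itm V)}
    (hK : K ⊆ T.biUnion fun x => pkf (B x) (Ps x)) (hho : ∀ u ∈ K, ρ (host u) ≠ i)
    (h0 : 0 ≤ sI hm r Z (σ i) + ∑ u ∈ K, (ikp (tlo G T hm) (σ i) u : ℤ)) :
    ((r : ℤ) - 1) * (sI hm r Z (σ i) + ∑ u ∈ K, (ikp (tlo G T hm) (σ i) u : ℤ))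
      ≤ (∑ u ∈ pkf (B (σ i)) (Ps (σ i)), (ivl u : ℤ)
          + ∑ u ∈ K, (ikp (tlo G T hm) (σ i) u : ℤ))
          * (tI G Z T hm r Z (σ i)
            + 2 * (sI hm r Z (σ i) + ∑ u ∈ K, (ikp (tlo G T hm) (σ i) u : ℤ)) + 1)
        + ∑ u ∈ K, (imn G (cz G Z T hm) (tlo G T hm) (σ i) u : ℤ) := by
  have hiT : i < T.card := by
    rw [W.cT]
    exact hi
  refine h.tzlX hp W.pk (W.rk.mem i hiT) (fun u hu => ?_)
    (X := xmn G (cz G Z T hm) (tlo G T hm) (σ i)) (fun Q => xmn_sub) (fun Q => card_xmn_le) h0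
  obtain ⟨x, hx, hux⟩ := mem_biUnion.1 (hK hu)
  refine mem_biUnion.2 ⟨x, mem_erase.2 ⟨fun h1 => hho u hu ?_, hx⟩, hux⟩
  rw [W.hst x hx u hux, h1]
  exact W.rk.right i hiT

/-- **LEMMA N+ over the integers of `WItK`**, misses `imn` -/
theorem WCoreK.slkIn (hp : 2 * r ≤ p) (h : WCoreK G Z T r m n p hm)
    (W : WItK G Z T hm r n φ B Ps host ρ σ) {i : ℕ} (hi : i < n) {K : Finset (Itm V)}
    (hK : K ⊆ T.biUnion fun x => pkf (B x) (Ps x)) (hho : ∀ u ∈ K, ρ (host u) ≠ i)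
    (h0 : 0 ≤ sI hm r Z (σ i) + ∑ u ∈ K, (ikp (tlo G T hm) (σ i) u : ℤ)) :
    eI G hm Z (σ i)
        + (∑ u ∈ K, (ikp (tlo G T hm) (σ i) u : ℤ)) * tI G Z T hm r Z (σ i)
        + 2 * (∑ u ∈ K, (ikp (tlo G T hm) (σ i) u : ℤ)) * (sI hm r Z (σ i) + 1)
        + (∑ u ∈ K, (ikp (tlo G T hm) (σ i) u : ℤ))
          * (2 * (∑ u ∈ K, (ikp (tlo G T hm) (σ i) u : ℤ)) - 1)
        + ((r : ℤ) - 1) * (sI hm r Z (σ i) + ∑ u ∈ K, (ikp (tlo G T hm) (σ i) u : ℤ))
      ≤ 2 * ((∑ u ∈ pkf (B (σ i)) (Ps (σ i)), (ivl u : ℤ)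
          + ∑ u ∈ K, (ikp (tlo G T hm) (σ i) u : ℤ))
          * (tI G Z T hm r Z (σ i)
            + 2 * (sI hm r Z (σ i) + ∑ u ∈ K, (ikp (tlo G T hm) (σ i) u : ℤ)) + 1))
        + ∑ u ∈ K, (imn G (cz G Z T hm) (tlo G T hm) (σ i) u : ℤ) := by
  have hiT : i < T.card := by
    rw [W.cT]
    exact hi
  refine h.slkX hp W.pk (W.rk.mem i hiT) (fun u hu => ?_)
    (X := xmn G (cz G Z T hm) (tlo G T hm) (σ i)) (fun Q => xmn_sub) (fun Q => card_xmn_le) h0
  obtain ⟨x, hx, hux⟩ := mem_biUnion.1 (hK hu)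
  refine mem_biUnion.2 ⟨x, mem_erase.2 ⟨fun h1 => hho u hu ?_, hx⟩, hux⟩
  rw [W.hst x hx u hux, h1]
  exact W.rk.right i hiT

end SlkI

end Pool.Agent.Lib.MP_f04ccf_co
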