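import Pool.Agent.Lib.MP_f04ccf_co.M.TsU
import Pool.Agent.Lib.MP_f04ccf_co.M.CellU
import Pool.Agent.Lib.MP_f04ccf_co.M.RowNX
import Pool.Agent.Lib.MP_f04ccf_co.M.PayB

/-!
MP_f04ccf_co, PLAN W: more tests over the row indices, for ANY packings with the least number of parts.

* `TsX`: T_z at any levels with any saving (`rowt`, helper9's remark), LEMMA N and N+ with the misses `mn`
  (`tzM`, `slM`, helper15, helper99), the cell test at any levels (`cll`, helper15), `(G)` with the square of one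
  member (`jgq`, helper80);
* `WCoreK.tsx`: the transport.
-/

set_option autoImplicit false

namespace Pool.Agent.Lib.MP_f04ccf_co

open Finset

attribute [local instance] Classical.propDecidable

section StrX

variable {ι : Type*}

/-- **more tests**, for any packings with the least number of parts -/
structure TsX (R : ℤ) (n : ℕ) (t s e : ℕ → ℤ) (U : Finset ι)
    (ho : ι → ℕ) (vl : ι → ℤ) (kp ms mn : ℕ → ι → ℤ) (mu : ℕ → ℤ)
    (be : ℕ → ℕ → ℤ) (pc ar : ι → ℤ) (nu : ℕ → ι → ℤ) : Prop where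
  rowt : ∀ i < n, ∀ K ⊆ U, (∀ u ∈ K, ho u ≠ i) → ∀ g : ι → ℕ,
    (∀ u ∈ K, 1 ≤ g u) → (∀ u ∈ K, (g u : ℤ) ≤ kp i u) →
    ∀ sv : ℤ, SavJ n ho vl kp pc i g ∅ K sv →
    2 * R * s i + 2 * ∑ u ∈ K, (g u * (R - t i) - if kp i u ≤ (g u : ℤ) then mn i u else 0) + sv
      ≤ 2 * e i + 2 * (∑ u ∈ K, ((g u : ℤ) + 1)) * (s i + 1)
        + (∑ u ∈ K, ((g u : ℤ) + 1)) * (∑ u ∈ K, ((g u : ℤ) + 1) - 1)
  tzM : ∀ i < n, ∀ K ⊆ U, (∀ u ∈ K, ho u ≠ i) → 0 ≤ s i + ∑ u ∈ K, kp i u →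
    R * (s i + ∑ u ∈ K, kp i u)
      ≤ (mu i + ∑ u ∈ K, kp i u) * (t i + 2 * (s i + ∑ u ∈ K, kp i u) + 1) + ∑ u ∈ K, mn i u
  slM : ∀ i < n, ∀ K ⊆ U, (∀ u ∈ K, ho u ≠ i) → 0 ≤ s i + ∑ u ∈ K, kp i u →
    e i + (∑ u ∈ K, kp i u) * t i + 2 * (∑ u ∈ K, kp i u) * (s i + 1)
        + (∑ u ∈ K, kp i u) * (2 * (∑ u ∈ K, kp i u) - 1) + R * (s i + ∑ u ∈ K, kp i u)
      ≤ 2 * ((mu i + ∑ u ∈ K, kp i u) * (t i + 2 * (s i + ∑ u ∈ K, kp i u) + 1))
        + ∑ u ∈ K, mn i u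
  cll : ∀ i < n, ∀ j < n, i ≠ j → ∀ K ⊆ U, (∀ u ∈ K, ho u = i) → ∀ K' ⊆ U,
    (∀ u ∈ K', ho u = j) → ∀ g g' : ι → ℕ, (∀ u ∈ K, 1 ≤ g u) →
    (∀ u ∈ K, (g u : ℤ) ≤ kp j u) → (∀ u ∈ K', 1 ≤ g' u) → (∀ u ∈ K', (g' u : ℤ) ≤ kp i u) →
    ∀ EX : ℤ, RecC U ho vl kp ms pc ar nu i j (∑ u ∈ K, pc u) (∑ u ∈ K', pc u) EX →
    ∀ sv : ℤ, SavK n vl kp pc i j g g' K K' sv →
    2 * ∑ u ∈ K, (R * g u + (1 - pc u) * t j - (if kp j u ≤ (g u : ℤ) then mn j u else 0) - ar u)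
      + 2 * ∑ u ∈ K', (R * g' u + (1 - pc u) * t i
        - (if kp i u ≤ (g' u : ℤ) then mn i u else 0) - ar u)
      + 2 * EX + sv
      ≤ 2 * (R + t i * t j)
        + (∑ u ∈ K, ((g u : ℤ) + 1 - pc u) + ∑ u ∈ K', ((g' u : ℤ) + 1 - pc u))
          * (∑ u ∈ K, ((g u : ℤ) + 1 - pc u) + ∑ u ∈ K', ((g' u : ℤ) + 1 - pc u) - 1)
        + 2 * (∑ u ∈ K, pc u) * ∑ u ∈ K', pc u
  jgq : ∀ i < n, ∀ j < n, i ≠ j → ∀ κ : ℤ,
    (κ ≤ 0 ∨ (∃ u ∈ U, ho u = i ∧ pc u = 1 ∧ kp j u ≠ 0 ∧ κ ≤ ar u)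
      ∨ ∃ u ∈ U, ho u = j ∧ pc u = 1 ∧ kp i u ≠ 0 ∧ κ ≤ ar u) →
    (be i j + be j i - 1) * R + (max 0 (κ - (be i j + be j i))) ^ 2
      ≤ t i * t j + (be i j + be j i) ^ 2

end StrX

section TransX

variable {V : Type*} {G : SimpleGraph V} {Z T : Finset V} {hm : V → V} {r m n p : ℕ}
  {B : V → Finset (V × V)} {Ps : V → Finset (Finset V)} {host : Itm V → V} {ρ : V → ℕ}
  {σ : ℕ → V}

/-- **the transport to `TsX`**, any packings with the least number of parts -/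
theorem WCoreK.tsx (hp : 2 * r ≤ p) (h : WCoreK G Z T r m n p hm)
    (hpk : ∀ x ∈ T, Pk G (cz G Z T hm x) (hz G Z T hm x) (tlo G T hm) (B x) (Ps x))
    (hmin : ∀ x ∈ T, ∀ B' Ps', Pk G (cz G Z T hm x) (hz G Z T hm x) (tlo G T hm) B' Ps' →
      (Ps x).card ≤ Ps'.card)
    (hst : ∀ x ∈ T, ∀ u ∈ pkf (B x) (Ps x), host u = x)
    (rk : Rank T (tI G Z T hm r Z) ρ σ) :
    TsX ((r : ℤ) - 1) n (fun i => tI G Z T hm r Z (σ i)) (fun i => sI hm r Z (σ i))
      (fun i => eI G hm Z (σ i)) (T.biUnion fun x => pkf (B x) (Ps x))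
      (fun u => ρ (host u)) (fun u => (ivl u : ℤ)) (fun i u => (ikp (tlo G T hm) (σ i) u : ℤ))
      (fun i u => (ims G (cz G Z T hm) (tlo G T hm) (σ i) u : ℤ))
      (fun i u => (imn G (cz G Z T hm) (tlo G T hm) (σ i) u : ℤ))
      (fun i => ∑ u ∈ pkf (B (σ i)) (Ps (σ i)), (ivl u : ℤ))
      (fun i j => pcn (tlo G T hm) B (σ i) (σ j))
      (fun u => (ipc u : ℤ)) (fun u => (iar G (cz G Z T hm (host u)) u : ℤ))
      (fun j u => (nui G (cz G Z T hm (host u)) (tlo G T hm) (B (host u)) (σ j) u : ℤ)) := by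
  have hcard := h.toWHom.cardT
  have hmem : ∀ i < n, σ i ∈ T := fun i hi => rk.mem i (by rw [hcard]; exact hi)
  have hne : ∀ i < n, ∀ j < n, i ≠ j → σ i ≠ σ j := fun i hi j hj hij h1 =>
    hij (rk.sinj (by rw [hcard]; exact hi) (by rw [hcard]; exact hj) h1)
  have hKe : ∀ i < n, ∀ K ⊆ T.biUnion fun x => pkf (B x) (Ps x), (∀ u ∈ K, ρ (host u) ≠ i) →
      K ⊆ (T.erase (σ i)).biUnion fun x => pkf (B x) (Ps x) := by
    intro i hi K hK hKh u hu
    obtain ⟨x, hx, hux⟩ := mem_biUnion.1 (hK hu)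
    refine mem_biUnion.2 ⟨x, mem_erase.2 ⟨fun h1 => hKh u hu ?_, hx⟩, hux⟩
    show ρ (host u) = i
    rw [hst x hx u hux, h1]
    exact rk.right i (by rw [hcard]; exact hi)
  have hown : ∀ u ∈ T.biUnion (fun x => pkf (B x) (Ps x)), ∀ l < n, ρ (host u) = l →
      u ∈ pkf (B (σ l)) (Ps (σ l)) ∧ host u = σ l := by
    intro u hu l hl hul
    obtain ⟨x, hx, hux⟩ := mem_biUnion.1 hu
    have h1 := hst x hx u hux
    have h2 : σ l = x := by
      rw [← hul, h1]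
      exact rk.left x hx
    rw [h2, h1]
    exact ⟨hux, rfl⟩
  refine ⟨?_, ?_, ?_, ?_, ?_⟩
  · -- rowt
    intro i hi K hK hKh g hg1 hg2 sv hsv
    have hg2' : ∀ u ∈ K, g u ≤ ikp (tlo G T hm) (σ i) u := fun u hu => by
      exact_mod_cast hg2 u hu
    have hK' := hKe i hi K hK hKh
    have h1 := h.savJJ hpk hmin hst rk hi (J := ∅) (fun j hj => absurd hj (notMem_empty _)) hK hKh
      hg1 hg2' hsv
    rw [image_empty, biUnion_empty, sdiff_empty] at h1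
    obtain ⟨j, hj, hij⟩ : ∃ j, j < n ∧ i ≠ j := by
      have := h.five
      by_cases h2 : i = 0
      · exact ⟨1, by omega, by omega⟩
      · exact ⟨0, by omega, h2⟩
    have h2 := h.rowALI hpk (hmem i hi) (hmem j hj) (hne i hi j hj hij) hK' hg1 hg2'
      (le_refl (0 : ℤ)) (le_refl (0 : ℤ))
      ⟨∅, ∅, empty_subset _, fun _ _ => notMem_empty _, empty_subset _, disjoint_empty_left _,
        fun a ha => absurd ha (notMem_empty _), by simp, by simp⟩ h1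
    simp only [ilm_cast] at h2
    have e1 : ∑ u ∈ pkf (B (σ i)) (Ps (σ i)), ((0 : ℤ) * ikp (tlo G T hm) (σ j) u
          - min 0 (ims G (cz G Z T hm) (tlo G T hm) (σ j) u : ℤ)) = 0 := by
      refine sum_eq_zero fun u _ => ?_
      rw [min_eq_left (Nat.cast_nonneg _)]
      ring
    have e2 : ∑ u ∈ K, (if u ∈ pkf (B (σ j)) (Ps (σ j))
          then min (iar G (cz G Z T hm (σ j)) u : ℤ) (0 * ((g u : ℤ) + 1))
          else 0 * ((g u : ℤ) + 1)) = 0 := by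
      refine sum_eq_zero fun u _ => ?_
      rw [zero_mul, min_eq_right (Nat.cast_nonneg _), ite_self]
    rw [e1, e2] at h2
    linarith
  · -- tzM
    intro i hi K hK hKh h0
    exact h.tzlXM hp hpk (hmem i hi) (hmin _ (hmem i hi)) (hKe i hi K hK hKh)
      (X := xmn G (cz G Z T hm) (tlo G T hm) (σ i)) (fun Q => xmn_sub) (fun Q => card_xmn_le) h0
  · -- slM
    intro i hi K hK hKh h0
    exact h.slkXM hp hpk (hmem i hi) (hmin _ (hmem i hi)) (hKe i hi K hK hKh)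
      (X := xmn G (cz G Z T hm) (tlo G T hm) (σ i)) (fun Q => xmn_sub) (fun Q => card_xmn_le) h0
  · -- cll
    intro i hi j hj hij K hK hKi K' hK' hKj g g' hg1 hg2 hg1' hg2' EX hE sv hs
    exact h.cellLU hp hpk hmin hst rk hi hj hij hK hKi hK' hKj hg1 hg2 hg1' hg2' hE hs
  · -- jgq
    intro i hi j hj hij κ hκ
    have hpc : ∀ k < n, ∀ u ∈ T.biUnion (fun x => pkf (B x) (Ps x)), ρ (host u) = k →
        (ipc u : ℤ) = 1 → ∀ l, (ikp (tlo G T hm) (σ l) u : ℤ) ≠ 0 →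
        ∃ e ∈ B (σ k), tlo G T hm e.1 = σ l ∧ u = Sum.inr e ∧
          (iar G (cz G Z T hm (host u)) u : ℤ) = ((msC G (cz G Z T hm (σ k)) e.1).card : ℤ) := by
      intro k hk u hu huk hpu l hkl
      obtain ⟨h1, h2⟩ := hown u hu k hk huk
      rcases u with Q | e
      · simp [ipc] at hpu
      · have h3 : tlo G T hm e.1 = σ l := by
          by_contra h4
          apply hkl
          simp [ikp, h4]
        have h5 : e ∈ B (σ k) := inr_mem_pkf.1 h1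
        refine ⟨e, h5, h3, rfl, ?_⟩
        rw [h2, ← h.msd_eq_msC (hmem k hk) (hmem k hk) ((hpk _ (hmem k hk)).bH e h5)]
        have h6 : iar G (cz G Z T hm (σ k)) (Sum.inr e) = (msd G (cz G Z T hm (σ k)) e.1).card := by
          unfold iar imem
          rw [sum_singleton]
          rfl
        rw [h6]
    have hp1 := hpk _ (hmem i hi)
    have hp2 := hpk _ (hmem j hj)
    have key : ∀ q : ℕ, (q ≤ (pcs (tlo G T hm) (B (σ i)) (σ j)).card
          + (pcs (tlo G T hm) (B (σ j)) (σ i)).card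
        ∨ (∃ e ∈ pcs (tlo G T hm) (B (σ i)) (σ j), q ≤ (msC G (cz G Z T hm (σ i)) e.1).card)
        ∨ ∃ e ∈ pcs (tlo G T hm) (B (σ j)) (σ i), q ≤ (msC G (cz G Z T hm (σ j)) e.1).card) →
        (pcn (tlo G T hm) B (σ i) (σ j) + pcn (tlo G T hm) B (σ j) (σ i) - 1) * ((r : ℤ) - 1)
          + (max 0 ((q : ℤ) - (pcn (tlo G T hm) B (σ i) (σ j)
            + pcn (tlo G T hm) B (σ j) (σ i)))) ^ 2
        ≤ tI G Z T hm r Z (σ i) * tI G Z T hm r Z (σ j)
          + (pcn (tlo G T hm) B (σ i) (σ j) + pcn (tlo G T hm) B (σ j) (σ i)) ^ 2 := by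
      intro q hq
      have h1 := h.jntBQ hp (hmem i hi) (hmem j hj) (hne i hi j hj hij)
        (K := pcs (tlo G T hm) (B (σ i)) (σ j)) (K' := pcs (tlo G T hm) (B (σ j)) (σ i)) (q := q)
        (fun e he => hp1.bH e (mem_pcs.1 he).1) (fun e he => (mem_pcs.1 he).2)
        (fun e he => hp1.bC e (mem_pcs.1 he).1) (fun e he => hp1.bN e (mem_pcs.1 he).1)
        (fun e he f hf hef => hp1.b1 e (mem_pcs.1 he).1 f (mem_pcs.1 hf).1 hef)
        (fun e he f hf hef => hp1.b2 e (mem_pcs.1 he).1 f (mem_pcs.1 hf).1 hef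
          ((mem_pcs.1 he).2.trans (mem_pcs.1 hf).2.symm))
        (fun e he => hp2.bH e (mem_pcs.1 he).1) (fun e he => (mem_pcs.1 he).2)
        (fun e he => hp2.bC e (mem_pcs.1 he).1) (fun e he => hp2.bN e (mem_pcs.1 he).1)
        (fun e he f hf hef => hp2.b1 e (mem_pcs.1 he).1 f (mem_pcs.1 hf).1 hef)
        (fun e he f hf hef => hp2.b2 e (mem_pcs.1 he).1 f (mem_pcs.1 hf).1 hef
          ((mem_pcs.1 he).2.trans (mem_pcs.1 hf).2.symm)) hq
      have h2 : (((q - ((pcs (tlo G T hm) (B (σ i)) (σ j)).card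
          + (pcs (tlo G T hm) (B (σ j)) (σ i)).card) : ℕ) : ℤ))
          = max 0 ((q : ℤ) - (pcn (tlo G T hm) B (σ i) (σ j)
            + pcn (tlo G T hm) B (σ j) (σ i))) := by
        unfold pcn
        rcases le_total q ((pcs (tlo G T hm) (B (σ i)) (σ j)).card
          + (pcs (tlo G T hm) (B (σ j)) (σ i)).card) with h3 | h3
        · rw [Nat.sub_eq_zero_of_le h3, max_eq_left]
          · rfl
          · have : (q : ℤ) ≤ ((pcs (tlo G T hm) (B (σ i)) (σ j)).card : ℤ)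
              + (pcs (tlo G T hm) (B (σ j)) (σ i)).card := by exact_mod_cast h3
            linarith
        · rw [Nat.cast_sub h3, max_eq_right]
          · push_cast
            ring
          · have : ((pcs (tlo G T hm) (B (σ i)) (σ j)).card : ℤ)
              + (pcs (tlo G T hm) (B (σ j)) (σ i)).card ≤ (q : ℤ) := by exact_mod_cast h3
            linarith
      rw [← h2]
      exact h1
    rcases hκ with hκ | ⟨u, hu, h1, h2, h3, hκ⟩ | ⟨u, hu, h1, h2, h3, hκ⟩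
    · have h1 := key 0 (Or.inl (Nat.zero_le _))
      have h2 : max 0 (κ - (pcn (tlo G T hm) B (σ i) (σ j) + pcn (tlo G T hm) B (σ j) (σ i)))
          ≤ max 0 (((0 : ℕ) : ℤ) - (pcn (tlo G T hm) B (σ i) (σ j)
            + pcn (tlo G T hm) B (σ j) (σ i))) := by
        refine max_le_max le_rfl ?_
        push_cast
        linarith
      have h3 := pow_le_pow_left₀ (le_max_left _ _) h2 2
      beta_reduce
      linarith
    · obtain ⟨e, he, h4, -, h5⟩ := hpc i hi u hu h1 h2 j h3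
      beta_reduce at hκ
      rw [h5] at hκ
      have h6 := key (msC G (cz G Z T hm (σ i)) e.1).card
        (Or.inr (Or.inl ⟨e, mem_pcs.2 ⟨he, h4⟩, le_rfl⟩))
      have h7 := pow_le_pow_left₀ (le_max_left 0 _) (max_le_max (le_refl (0 : ℤ))
        (sub_le_sub_right hκ (pcn (tlo G T hm) B (σ i) (σ j)
          + pcn (tlo G T hm) B (σ j) (σ i)))) 2
      beta_reduce
      linarith
    · obtain ⟨e, he, h4, -, h5⟩ := hpc j hj u hu h1 h2 i h3
      beta_reduce at hκ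
      rw [h5] at hκ
      have h6 := key (msC G (cz G Z T hm (σ j)) e.1).card
        (Or.inr (Or.inr ⟨e, mem_pcs.2 ⟨he, h4⟩, le_rfl⟩))
      have h7 := pow_le_pow_left₀ (le_max_left 0 _) (max_le_max (le_refl (0 : ℤ))
        (sub_le_sub_right hκ (pcn (tlo G T hm) B (σ i) (σ j)
          + pcn (tlo G T hm) B (σ j) (σ i)))) 2
      beta_reduce
      linarith

end TransX

end Pool.Agent.Lib.MP_f04ccf_co
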