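import Pool.Agent.Lib.MP_f04ccf_co.M.TzLv
import Pool.Agent.Lib.MP_f04ccf_co.M.TsX

/-!
MP_f04ccf_co, PLAN W: LEMMA N and LEMMA N+ at levels (contract `PCon.tN`) in one structure, for ANY packings with
the least number of parts.

* `TsY`: `tzL` (tzN at levels `g`, misses `mn` only at the full level), `slL` (N+ at levels);
* `WCoreK.tsy`: the transport.
-/

set_option autoImplicit false

namespace Pool.Agent.Lib.MP_f04ccf_co

open Finset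

attribute [local instance] Classical.propDecidable

section StrY

variable {ι : Type*}

/-- **LEMMA N and N+ at levels** -/
structure TsY (R : ℤ) (n : ℕ) (t s e : ℕ → ℤ) (U : Finset ι)
    (ho : ι → ℕ) (kp mn : ℕ → ι → ℤ) (mu : ℕ → ℤ) : Prop where
  tzL : ∀ i < n, ∀ K ⊆ U, (∀ u ∈ K, ho u ≠ i) → ∀ g : ι → ℕ, (∀ u ∈ K, 1 ≤ g u) →
    (∀ u ∈ K, (g u : ℤ) ≤ kp i u) → 0 ≤ s i + ∑ u ∈ K, (g u : ℤ) →
    R * (s i + ∑ u ∈ K, (g u : ℤ))
      ≤ (mu i + ∑ u ∈ K, (g u : ℤ)) * (t i + 2 * (s i + ∑ u ∈ K, (g u : ℤ)) + 1)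
        + ∑ u ∈ K, (if kp i u ≤ (g u : ℤ) then mn i u else 0)
  slL : ∀ i < n, ∀ K ⊆ U, (∀ u ∈ K, ho u ≠ i) → ∀ g : ι → ℕ, (∀ u ∈ K, 1 ≤ g u) →
    (∀ u ∈ K, (g u : ℤ) ≤ kp i u) → 0 ≤ s i + ∑ u ∈ K, (g u : ℤ) →
    e i + (∑ u ∈ K, (g u : ℤ)) * t i + 2 * (∑ u ∈ K, (g u : ℤ)) * (s i + 1)
        + (∑ u ∈ K, (g u : ℤ)) * (2 * (∑ u ∈ K, (g u : ℤ)) - 1)
        + R * (s i + ∑ u ∈ K, (g u : ℤ))
      ≤ 2 * ((mu i + ∑ u ∈ K, (g u : ℤ)) * (t i + 2 * (s i + ∑ u ∈ K, (g u : ℤ)) + 1))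
        + ∑ u ∈ K, (if kp i u ≤ (g u : ℤ) then mn i u else 0)

end StrY

section TransY

variable {V : Type*} {G : SimpleGraph V} {Z T : Finset V} {hm : V → V} {r m n p : ℕ}
  {B : V → Finset (V × V)} {Ps : V → Finset (Finset V)} {host : Itm V → V} {ρ : V → ℕ}
  {σ : ℕ → V}

/-- **the transport to `TsY`**, any packings with the least number of parts -/
theorem WCoreK.tsy (hp : 2 * r ≤ p) (h : WCoreK G Z T r m n p hm)
    (hpk : ∀ x ∈ T, Pk G (cz G Z T hm x) (hz G Z T hm x) (tlo G T hm) (B x) (Ps x))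
    (hmin : ∀ x ∈ T, ∀ B' Ps', Pk G (cz G Z T hm x) (hz G Z T hm x) (tlo G T hm) B' Ps' →
      (Ps x).card ≤ Ps'.card)
    (hst : ∀ x ∈ T, ∀ u ∈ pkf (B x) (Ps x), host u = x)
    (rk : Rank T (tI G Z T hm r Z) ρ σ) :
    TsY ((r : ℤ) - 1) n (fun i => tI G Z T hm r Z (σ i)) (fun i => sI hm r Z (σ i))
      (fun i => eI G hm Z (σ i)) (T.biUnion fun x => pkf (B x) (Ps x))
      (fun u => ρ (host u)) (fun i u => (ikp (tlo G T hm) (σ i) u : ℤ))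
      (fun i u => (imn G (cz G Z T hm) (tlo G T hm) (σ i) u : ℤ))
      (fun i => ∑ u ∈ pkf (B (σ i)) (Ps (σ i)), (ivl u : ℤ)) := by
  have hcard := h.toWHom.cardT
  have hmem : ∀ i < n, σ i ∈ T := fun i hi => rk.mem i (by rw [hcard]; exact hi)
  have hKe : ∀ i < n, ∀ K ⊆ T.biUnion fun x => pkf (B x) (Ps x), (∀ u ∈ K, ρ (host u) ≠ i) →
      K ⊆ (T.erase (σ i)).biUnion fun x => pkf (B x) (Ps x) := by
    intro i hi K hK hKh u hu
    obtain ⟨x, hx, hux⟩ := mem_biUnion.1 (hK hu)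
    refine mem_biUnion.2 ⟨x, mem_erase.2 ⟨fun h1 => hKh u hu ?_, hx⟩, hux⟩
    show ρ (host u) = i
    rw [hst x hx u hux, h1]
    exact rk.right i (by rw [hcard]; exact hi)
  refine ⟨?_, ?_⟩
  · intro i hi K hK hKh g hg1 hg2 h0
    exact h.tzLv hp hpk (hmem i hi) (hmin _ (hmem i hi)) (hKe i hi K hK hKh) hg1
      (fun u hu => by exact_mod_cast hg2 u hu) h0
  · intro i hi K hK hKh g hg1 hg2 h0
    exact h.slLv hp hpk (hmem i hi) (hmin _ (hmem i hi)) (hKe i hi K hK hKh) hg1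
      (fun u hu => by exact_mod_cast hg2 u hu) h0

end TransY

end Pool.Agent.Lib.MP_f04ccf_co
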