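import Pool.Agent.Lib.MP_f04ccf_co.M.TsU
import Pool.Agent.Lib.MP_f04ccf_co.M.ItV
import Pool.Agent.Lib.MP_f04ccf_co.M.ItQ
import Pool.Agent.Lib.MP_f04ccf_co.M.ItC
import Pool.Agent.Lib.MP_f04ccf_co.M.LvI
import Pool.Agent.Lib.MP_f04ccf_co.M.TsX
import Pool.Agent.Lib.MP_f04ccf_co.M.RowGT
import Pool.Agent.Lib.MP_f04ccf_co.M.TsY
import Pool.Agent.Lib.MP_f04ccf_co.M.TsD
import Pool.Agent.Lib.MP_f04ccf_co.M.CellG
import Pool.Agent.Lib.MP_f04ccf_co.M.EnKon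

/-!
MP_f04ccf_co, PLAN W: all facts over the integers in one structure, for version [B] and for version [C].

* `ItU` (version [B]): `v : ItV`, `q : ItQ` (helper35), `ts : TsU`, `tx : TsX` (the tests), `lv : LvI`
  (helper15), `jgn` (joint cell test, PC pairs and N-ends of both homes), `rg : RowGN` (helper94, helper35: the
  PC pairs of both homes in joint form, `nc i j` the excess of the PC pairs of `i` with tail `j`), `cb` (cell test,
  helper15, with the pairs of the PC pairs of one host); one function `nu` for the free arcs.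
* `ItCU` (version [C]): `c : ItC` (helper99), `ts : TsU`, `tx : TsX`, `lv : LvI`, `rg : RowGN`, `tk : TsK`
  (helper94, helper59: the free PC pairs leave; `KQ` the free PC pairs).
* both: `ty : TsY` (LEMMA N, N+ at levels), `td : TsD` (dropped items, energies `ed`, `ejd`), `mx : MixI`
  (helper72: mixed caps).
* `WItK.itu`, `WItC.itcu`: the transports; `WCoreK.exists_both`: both versions over the same frame.
-/

set_option autoImplicit false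

namespace Pool.Agent.Lib.MP_f04ccf_co

open Finset

attribute [local instance] Classical.propDecidable

section StrU

variable {ι : Type*}

/-- **all facts, version [B]** -/
structure ItU (R : ℤ) (n : ℕ) (t s h e : ℕ → ℤ) (E : ℕ → ℕ → ℤ) (U : Finset ι)
    (ho : ι → ℕ) (vl : ι → ℤ) (kp ms mr mn : ℕ → ι → ℤ) (mu Nb : ℕ → ℤ) (Nx : ℕ → ℕ → ℤ)
    (be : ℕ → ℕ → ℤ) (ls : ℕ → ℤ → ℤ) (pc ar : ι → ℤ) (aT : ℕ → ℤ) (fr : ℕ → ℤ)
    (gn ka : ℕ → ℕ → ℤ) (fj pw : ℕ → ℕ → ℤ) (nf nu : ℕ → ι → ℤ) (us : ℕ → ℤ)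
    (nq : ℕ → ℕ → ℕ → ℤ) (nc : ℕ → ℕ → ℤ) : Prop where
  v : ItV R n t s h e E U ho vl kp ms mr mu Nb Nx be ls pc ar aT fr gn ka fj pw nu us nq
  q : ItQ R n t s h e E U ho vl kp ms mr mu Nb Nx be ls pc ar aT fr gn ka nf nu
  ts : TsU R n t s h e E U ho vl kp ms mr mn mu Nx be pc ar pw nu
  tx : TsX R n t s e U ho vl kp ms mn mu be pc ar nu
  lv : LvI R n t s h e U ho vl kp ms mr mn mu be pc ar
  jgn : ∀ i < n, ∀ j < n, i ≠ j → ∀ f f' : ℤ, 0 ≤ f → 0 ≤ f' →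
    ∀ K ⊆ U, (∀ u ∈ K, ho u = i ∧ pc u = 0 ∧ nf j u = 1 ∧ f ≤ nu j u) →
    ∀ K' ⊆ U, (∀ u ∈ K', ho u = j ∧ pc u = 0 ∧ nf i u = 1 ∧ f' ≤ nu i u) →
    ∀ k : ℤ, k = be i j + min (K.card : ℤ) f + (be j i + min (K'.card : ℤ) f') →
    (k - 1) * R ≤ t i * t j + k ^ 2
  rg : RowGN R n t s U ho vl kp ms mn be pc ar fun i j =>
    2 * (mu i * h i) - mu i * (mu i + 1) + (Nb i - nc i j) + 2 * ∑ l ∈ (range n).erase i, Nx i l
  nc0 : ∀ i < n, ∀ j < n, 0 ≤ nc i j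
  ncb : ∀ i < n, ∀ j < n, nc i j ≤ be i j * (be i j + 1) + 2 * fj i j
  ncN : ∀ i < n, Nb i ≤ ∑ l ∈ (range n).erase i, nc i l
  cb : ∀ i < n, ∀ j < n, i ≠ j → ∀ K ⊆ U, (∀ u ∈ K, ho u = i) → ∀ K' ⊆ U,
    (∀ u ∈ K', ho u = j) → ∀ g g' : ι → ℕ, (∀ u ∈ K, 1 ≤ g u) →
    (∀ u ∈ K, (g u : ℤ) ≤ kp j u) → (∀ u ∈ K', 1 ≤ g' u) → (∀ u ∈ K', (g' u : ℤ) ≤ kp i u) →
    ∀ EX : ℤ, RecC U ho vl kp ms pc ar nu i j (∑ u ∈ K, pc u) (∑ u ∈ K', pc u) EX →
    ∀ sv : ℤ, SavC n vl kp pc i j K K'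
      (∑ u ∈ K, ((g u : ℤ) + 1 - pc u) + ∑ u ∈ K', ((g' u : ℤ) + 1 - pc u)) sv →
    2 * ∑ u ∈ K, (R * g u + (1 - pc u) * t j - (if kp j u ≤ (g u : ℤ) then mn j u else 0) - ar u)
      + 2 * ∑ u ∈ K', (R * g' u + (1 - pc u) * t i
        - (if kp i u ≤ (g' u : ℤ) then mn i u else 0) - ar u)
      + 2 * EX + sv
      ≤ 2 * (R + t i * t j)
        + (∑ u ∈ K, ((g u : ℤ) + 1 - pc u) + ∑ u ∈ K', ((g' u : ℤ) + 1 - pc u))
          * (∑ u ∈ K, ((g u : ℤ) + 1 - pc u) + ∑ u ∈ K', ((g' u : ℤ) + 1 - pc u) - 1)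
        + 2 * (∑ u ∈ K, pc u) * ∑ u ∈ K', pc u
  ty : TsY R n t s e U ho kp mn mu
  td : ∃ ed ejd, TsD R n t s U ho vl kp ms mn be pc ar ed ejd
  mx : MixI R n t U ho kp mr be pc nu

/-- **all facts, version [C]** -/
structure ItCU (R : ℤ) (n : ℕ) (t s h e : ℕ → ℤ) (E : ℕ → ℕ → ℤ) (U : Finset ι)
    (ho : ι → ℕ) (vl : ι → ℤ) (kp ms mr mn : ℕ → ι → ℤ) (mu Nb : ℕ → ℤ)
    (be : ℕ → ℕ → ℤ) (ls : ℕ → ℤ → ℤ) (pc ar : ι → ℤ) (aT : ℕ → ℤ)
    (NN FF pw : ℕ → ℕ → ℤ) (nu : ℕ → ι → ℤ) : Prop where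
  c : ItC R n t s h e E U ho vl kp ms mr mu Nb (fun _ _ => 0) be ls pc ar aT NN FF pw nu
  ts : TsU R n t s h e E U ho vl kp ms mr mn mu (fun _ _ => 0) be pc ar pw nu
  tx : TsX R n t s e U ho vl kp ms mn mu be pc ar nu
  lv : LvI R n t s h e U ho vl kp ms mr mn mu be pc ar
  rg : RowGN R n t s U ho vl kp ms mn be pc ar fun i j =>
    2 * (mu i * h i) - mu i * (mu i + 1) + ∑ l ∈ ((range n).erase i).erase j, NN i l
  ty : TsY R n t s e U ho kp mn mu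
  td : ∃ ed ejd, TsD R n t s U ho vl kp ms mn be pc ar ed ejd
  mx : MixI R n t U ho kp mr be pc nu
  tk : ∃ KQ, TsK R n t s h U ho vl kp ms mn mu be pc ar NN KQ

/-- the tests depend on `Nx i j`, `i, j < n`, only -/
lemma TsU.congr_Nx {R : ℤ} {n : ℕ} {t s h e : ℕ → ℤ} {E : ℕ → ℕ → ℤ} {U : Finset ι}
    {ho : ι → ℕ} {vl : ι → ℤ} {kp ms mr mn : ℕ → ι → ℤ} {mu : ℕ → ℤ} {Nx Nx' : ℕ → ℕ → ℤ}
    {be : ℕ → ℕ → ℤ} {pc ar : ι → ℤ} {pw : ℕ → ℕ → ℤ} {nu : ℕ → ι → ℤ}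
    (H : TsU R n t s h e E U ho vl kp ms mr mn mu Nx be pc ar pw nu)
    (hN : ∀ i < n, ∀ j < n, Nx i j = Nx' i j) :
    TsU R n t s h e E U ho vl kp ms mr mn mu Nx' be pc ar pw nu := by
  refine ⟨H.tzN, H.slk, H.jgg, ?_, ?_, ?_, H.tstT⟩
  · intro i hi J hJ hiJ K hK hKh g hg1 hg2 P hP sv hsv
    refine H.rowj i hi J hJ hiJ K hK hKh g hg1 hg2 P (fun j hj => ?_) sv hsv
    rcases hP j hj with h1 | h1
    · left
      rw [hN i hi j (mem_range.1 (hJ hj))]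
      exact h1
    · exact Or.inr h1
  · exact H.rowa
  · intro Q hQ J hJ hQJ
    have h1 := H.blkJ Q hQ J hJ hQJ
    have h2 : ∑ j ∈ J, ∑ i ∈ Q, (∑ u ∈ U.filter (fun u => ho u = i), (kp j u * (R - t j) - ms j u)
          + Nx i j + pw i j)
        = ∑ j ∈ J, ∑ i ∈ Q, (∑ u ∈ U.filter (fun u => ho u = i), (kp j u * (R - t j) - ms j u)
          + Nx' i j + pw i j) :=
      sum_congr rfl fun j hj => sum_congr rfl fun i hi => by
        rw [hN i (mem_range.1 (hQ hi)) j (mem_range.1 (hJ hj))]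
    rw [h2] at h1
    exact h1

end StrU

section TransU

variable {V : Type*} {G : SimpleGraph V} {Z T : Finset V} {hm : V → V} {r m n p : ℕ}
  {φ : Finset (V × V) → Finset (Finset V) → ℕ} {B : V → Finset (V × V)}
  {Ps : V → Finset (Finset V)} {host : Itm V → V} {ρ : V → ℕ} {σ : ℕ → V}

/-- the two functions for the free arcs are the same -/
lemma nuF_eq_nui {κ : Type*} (C : Finset V) (tl : V → κ) (B : Finset (V × V)) (z : κ) (u : Itm V) :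
    nuF G C tl B z u = nui G C tl B z u := by
  unfold nuF nui
  rcases u with Q | e
  · show ∑ v ∈ Q.filter (fun v => tl v = z ∧ (frC G C tl B v).Nonempty), (frC G C tl B v).card
      = ∑ v ∈ Q.filter (fun v => tl v = z), (frC G C tl B v).card
    rw [← filter_filter]
    refine sum_filter_of_ne fun v _ hv => ?_
    exact card_pos.1 (Nat.pos_of_ne_zero hv)
  · rfl

/-- **the transport, version [B]** -/
theorem WItK.itu (hp : 2 * r ≤ p) (h : WCoreK G Z T r m n p hm)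
    (H : WItK G Z T hm r n φ B Ps host ρ σ) :
    ItU ((r : ℤ) - 1) n (fun i => tI G Z T hm r Z (σ i)) (fun i => sI hm r Z (σ i))
      (fun i => hI G Z T hm Z (σ i)) (fun i => eI G hm Z (σ i))
      (fun i j => EI G hm Z (σ i) (σ j)) (T.biUnion fun x => pkf (B x) (Ps x))
      (fun u => ρ (host u)) (fun u => (ivl u : ℤ)) (fun i u => (ikp (tlo G T hm) (σ i) u : ℤ))
      (fun i u => (ims G (cz G Z T hm) (tlo G T hm) (σ i) u : ℤ))
      (fun i u => (rmr G (cz G Z T hm) (tlo G T hm) (σ i) u : ℤ))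
      (fun i u => (imn G (cz G Z T hm) (tlo G T hm) (σ i) u : ℤ))
      (fun i => ∑ u ∈ pkf (B (σ i)) (Ps (σ i)), (ivl u : ℤ))
      (fun i => nbk G (cz G Z T hm (σ i)) (hz G Z T hm (σ i)) (tlo G T hm) (B (σ i)) (Ps (σ i)))
      (fun i j => nxk G (cz G Z T hm (σ i)) (hz G Z T hm (σ i)) (tlo G T hm) (B (σ i)) (σ j))
      (fun i j => pcn (tlo G T hm) B (σ i) (σ j))
      (fun i q => lsx G (cz G Z T hm (σ i)) (hz G Z T hm (σ i)) q)
      (fun u => (ipc u : ℤ)) (fun u => (iar G (cz G Z T hm (host u)) u : ℤ))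
      (fun i => ∑ v ∈ hz G Z T hm (σ i), (nd G (cz G Z T hm (σ i)) v : ℤ))
      (fun i => ∑ e ∈ B (σ i), ((frC G (cz G Z T hm (σ i)) (tlo G T hm) (B (σ i)) e.1).card : ℤ))
      (fun i j => ((ntl G (cz G Z T hm (σ i)) (hz G Z T hm (σ i)) (tlo G T hm) (B (σ i))
        (σ j)).card : ℤ))
      (fun i j => (kpl G (cz G Z T hm (σ i)) (hz G Z T hm (σ i)) (tlo G T hm) (B (σ i))
        (σ j) : ℤ))
      (fun i j => fjk G Z T hm B (σ i) (σ j))
      (fun i j => pfw G (cz G Z T hm (σ i)) (tlo G T hm) (B (σ i)) (σ j))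
      (fun j u => (nuC G (cz G Z T hm (host u)) (tlo G T hm) (B (host u)) (σ j) u : ℤ))
      (fun j u => (nui G (cz G Z T hm (host u)) (tlo G T hm) (B (host u)) (σ j) u : ℤ))
      (fun i => ((usd B (σ i)).card : ℤ))
      (fun i j q => khI G Z T hm B σ i j q)
      (fun i j => nbc G (cz G Z T hm (σ i)) (tlo G T hm) (B (σ i)) (σ j)) := by
  have hq := H.itq hp h
  have hj : ∀ i < n, ∀ j < n, i ≠ j → ∀ f f' : ℤ, 0 ≤ f → 0 ≤ f' → _ := fun i hi j hj hij f f'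
    hf hf' => fun (K K' : Finset (Itm V)) a b c d k (hk : k = _) =>
      WItK.jgn hp h H hi hj hij hf hf' (K := K) (K' := K') a b c d hk
  simp only [nuF_eq_nui] at hq hj
  obtain ⟨n1, n2, n3⟩ := H.ncs h
  refine ⟨H.itv hp h, hq,
    h.tsu hp (fun x hx => (H.pk x hx).toPk) (fun x hx => (H.pk x hx).min) H.hst H.rk,
    h.tsx hp (fun x hx => (H.pk x hx).toPk) (fun x hx => (H.pk x hx).min) H.hst H.rk,
    h.toWHom.lvi (fun x hx => (H.pk x hx).toPk) H.hst H.rk, ?_, H.rowg hp h, n1, n2, n3, ?_,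
    h.tsy hp (fun x hx => (H.pk x hx).toPk) (fun x hx => (H.pk x hx).min) H.hst H.rk,
    ⟨_, _, h.tsd hp (fun x hx => (H.pk x hx).toPk) (fun x hx => (H.pk x hx).min) H.hst H.rk⟩,
    h.mixI hp (fun x hx => (H.pk x hx).toPk) H.hst H.rk⟩
  · intro i hi j hj' hij f f' hf hf' K hKU hK K' hKU' hK' k hk
    exact hj i hi j hj' hij f f' hf hf' K K' hKU hK hKU' hK' k hk
  · intro i hi j hj' hij K hK hKi K' hK' hKj g g' hg1 hg2 hg1' hg2' EX hE sv hs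
    exact H.cellLv hp h hi hj' hij hK hKi hK' hKj hg1 hg2 hg1' hg2' hE hs

/-- **the transport, version [C]** -/
theorem WItC.itcu (hp : 2 * r ≤ p) (h : WCoreK G Z T r m n p hm)
    (H : WItC G Z T hm r n φ B Ps host ρ σ) :
    ItCU ((r : ℤ) - 1) n (fun i => tI G Z T hm r Z (σ i)) (fun i => sI hm r Z (σ i))
      (fun i => hI G Z T hm Z (σ i)) (fun i => eI G hm Z (σ i))
      (fun i j => EI G hm Z (σ i) (σ j)) (T.biUnion fun x => pkf (B x) (Ps x))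
      (fun u => ρ (host u)) (fun u => (ivl u : ℤ)) (fun i u => (ikp (tlo G T hm) (σ i) u : ℤ))
      (fun i u => (ims G (cz G Z T hm) (tlo G T hm) (σ i) u : ℤ))
      (fun i u => (rmr G (cz G Z T hm) (tlo G T hm) (σ i) u : ℤ))
      (fun i u => (imn G (cz G Z T hm) (tlo G T hm) (σ i) u : ℤ))
      (fun i => ∑ u ∈ pkf (B (σ i)) (Ps (σ i)), (ivl u : ℤ))
      (fun i => ∑ z ∈ T.erase (σ i), nxw G Z T hm B (σ i) z)
      (fun i j => pcn (tlo G T hm) B (σ i) (σ j))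
      (fun i q => lsx G (cz G Z T hm (σ i)) (hz G Z T hm (σ i)) q)
      (fun u => (ipc u : ℤ)) (fun u => (iar G (cz G Z T hm (host u)) u : ℤ))
      (fun i => ∑ v ∈ hz G Z T hm (σ i), (nd G (cz G Z T hm (σ i)) v : ℤ))
      (fun i j => nxw G Z T hm B (σ i) (σ j)) (fun i j => fcw G Z T hm B (σ i) (σ j))
      (fun i j => pfw G (cz G Z T hm (σ i)) (tlo G T hm) (B (σ i)) (σ j))
      (fun j u => (nui G (cz G Z T hm (host u)) (tlo G T hm) (B (host u)) (σ j) u : ℤ)) := by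
  have hpk := fun x hx => (H.pk x hx).toPk
  have hmem : ∀ i < n, σ i ∈ T := fun i hi => H.rk.mem i (by rw [h.toWHom.cardT]; exact hi)
  exact ⟨H.itc hp h, (h.tsu hp hpk (fun x hx => (H.pk x hx).min) H.hst H.rk).congr_Nx
    (fun i hi j _ => (H.pk _ (hmem i hi)).nxk_zero (σ j)),
    h.tsx hp hpk (fun x hx => (H.pk x hx).min) H.hst H.rk, h.toWHom.lvi hpk H.hst H.rk,
    H.rowg hp h, h.tsy hp hpk (fun x hx => (H.pk x hx).min) H.hst H.rk,
    ⟨_, _, h.tsd hp hpk (fun x hx => (H.pk x hx).min) H.hst H.rk⟩,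
    h.mixI hp hpk H.hst H.rk, ⟨_, H.tsk hp h⟩⟩

/-- **both versions over the same frame, with the same rank** -/
theorem WCoreK.exists_both (hp : 2 * r ≤ p) (h : WCoreK G Z T r m n p hm)
    (φ φ' : Finset (V × V) → Finset (Finset V) → ℕ) :
    ∃ B Ps host ρ σ B' Ps' host', WItK G Z T hm r n φ B Ps host ρ σ ∧
      WItC G Z T hm r n φ' B' Ps' host' ρ σ ∧
      (∀ i < n, ∑ u ∈ pkf (B' (σ i)) (Ps' (σ i)), (ivl u : ℤ)
        = ∑ u ∈ pkf (B (σ i)) (Ps (σ i)), (ivl u : ℤ)) ∧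
      ∀ i j, i ≤ j → j < n → tI G Z T hm r Z (σ j) < tI G Z T hm r Z (σ i) ∨
        tI G Z T hm r Z (σ j) = tI G Z T hm r Z (σ i) ∧
          (hI G Z T hm Z (σ j) < hI G Z T hm Z (σ i) ∨
            hI G Z T hm Z (σ j) = hI G Z T hm Z (σ i) ∧
            ∑ u ∈ pkf (B (σ j)) (Ps (σ j)), (ivl u : ℤ)
              ≤ ∑ u ∈ pkf (B (σ i)) (Ps (σ i)), (ivl u : ℤ)) := by
  obtain ⟨B, Ps, host, ρ, σ, H, h1⟩ := h.exists_witkM hp φ
  obtain ⟨B', Ps', host', hB', hhost'⟩ := h.toWHom.exists_packs φ'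
  have H' := h.toWHom.witc hB' hhost' H.rk
  refine ⟨B, Ps, host, ρ, σ, B', Ps', host', H, H', fun i hi => ?_, h1⟩
  have hx : σ i ∈ T := H.rk.mem i (by rw [h.toWHom.cardT]; exact hi)
  have e1 : (∑ u ∈ pkf (B (σ i)) (Ps (σ i)), (ivl u : ℤ)) + (Ps (σ i)).card
      = ((hz G Z T hm (σ i)).card : ℤ) := by exact_mod_cast (H.pk _ hx).toPk.sum_ivl
  have e2 : (∑ u ∈ pkf (B' (σ i)) (Ps' (σ i)), (ivl u : ℤ)) + (Ps' (σ i)).card
      = ((hz G Z T hm (σ i)).card : ℤ) := by exact_mod_cast (hB' _ hx).toPk.sum_ivl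
  have e3 : (Ps (σ i)).card = (Ps' (σ i)).card :=
    le_antisymm ((H.pk _ hx).min _ _ (hB' _ hx).toPk) ((hB' _ hx).min _ _ (H.pk _ hx).toPk)
  rw [e3] at e1
  linarith

end TransU

end Pool.Agent.Lib.MP_f04ccf_co
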