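import Pool.Agent.Lib.MP_f04ccf_co.M.ItX

/-!
MP_f04ccf_co, PLAN W (notes 16848, 16857, 16934): the tests with the degree sum in T-form.
`hitx i j`: the hits of the items of `i` at `j`; `gai i j`: the gain of the degree sum at the class part of
`j` by the items of `i`.  `ItX.pairL`: the pair test with both gains, N-excess of the cell paid;
`ItX.pairR`: with the rectangle of one item; `ItX.slotL`: the test of any set of rows with the gains.
-/

set_option autoImplicit false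

namespace Pool.Agent.Lib.MP_f04ccf_co

open Finset

attribute [local instance] Classical.propDecidable

section ItXT

variable {ι : Type*} {R : ℤ} {n : ℕ} {t s h e : ℕ → ℤ} {E : ℕ → ℕ → ℤ} {U : Finset ι} {ho : ι → ℕ}
  {vl : ι → ℤ} {kp ms mr : ℕ → ι → ℤ} {mu Nb : ℕ → ℤ} {Nx : ℕ → ℕ → ℤ} {be : ℕ → ℕ → ℤ}
  {ls : ℕ → ℤ → ℤ}

/-- the load of the items of `i` at the row `j` -/
def lod (U : Finset ι) (ho : ι → ℕ) (kp : ℕ → ι → ℤ) (i j : ℕ) : ℤ :=
  ∑ u ∈ U.filter (fun u => ho u = i), kp j u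

/-- the hits of the items of `i` at the row `j` -/
def hitx (R : ℤ) (t : ℕ → ℤ) (U : Finset ι) (ho : ι → ℕ) (kp ms : ℕ → ι → ℤ) (i j : ℕ) : ℤ :=
  lod U ho kp i j * (R - t j) - lod U ho ms i j

/-- the gain of the degree sum at the class part of `j` by the items of `i`, against a price `w` -/
def gai (R : ℤ) (t : ℕ → ℤ) (U : Finset ι) (ho : ι → ℕ) (kp ms : ℕ → ι → ℤ) (ls : ℕ → ℤ → ℤ)
    (i j : ℕ) (w : ℤ) : ℤ :=
  max 0 ((R - t j) * (lod U ho kp i j - w) - ls j (lod U ho kp i j - w) - lod U ho ms i j)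

lemma gai_nonneg (R : ℤ) (t : ℕ → ℤ) (U : Finset ι) (ho : ι → ℕ) (kp ms : ℕ → ι → ℤ)
    (ls : ℕ → ℤ → ℤ) (i j : ℕ) (w : ℤ) : 0 ≤ gai R t U ho kp ms ls i j w := le_max_left _ _

/-- the gain is at least the hits minus the price and the loss -/
lemma le_gai (R : ℤ) (t : ℕ → ℤ) (U : Finset ι) (ho : ι → ℕ) (kp ms : ℕ → ι → ℤ)
    (ls : ℕ → ℤ → ℤ) (i j : ℕ) (w : ℤ) :
    hitx R t U ho kp ms i j - (R - t j) * w - ls j (lod U ho kp i j - w)
      ≤ gai R t U ho kp ms ls i j w := by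
  refine le_trans (le_of_eq ?_) (le_max_right _ _)
  unfold hitx
  ring

lemma sum_hitx (R : ℤ) (t : ℕ → ℤ) (U : Finset ι) (ho : ι → ℕ) (kp ms : ℕ → ι → ℤ) (i j : ℕ) :
    ∑ u ∈ U.filter (fun u => ho u = i), (kp j u * (R - t j) - ms j u)
      = hitx R t U ho kp ms i j := by
  rw [sum_sub_distrib, ← sum_mul]
  rfl

namespace ItX

/-- **the pair test with both gains, T-form, N-excess of the cell paid** -/
theorem pairL (H : ItX R n t s h e E U ho vl kp ms mr mu Nb Nx be ls) {i j : ℕ} (hi : i < n)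
    (hj : j < n) (hij : i ≠ j) :
    2 * (R - 1) * (s i + s j) + 2 * (hitx R t U ho kp ms i j + hitx R t U ho kp ms j i)
      + 2 * gai R t U ho kp ms ls j i (1 + s j) + 2 * gai R t U ho kp ms ls i j (1 + s i)
      + (mu i - s i) * (mu i - s i - 1) + (mu j - s j) * (mu j - s j - 1)
      ≤ 2 * (t i * mu i) + 2 * (t j * mu j) + s i + s j + (s i + s j) ^ 2 + 2 * (R + 1)
        + Nb i + Nb j
        + 2 * (∑ x ∈ (range n).erase i, Nx i x - Nx i j)
        + 2 * (∑ x ∈ (range n).erase j, Nx j x - Nx j i) := by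
  have h1 := H.low i hi j hj hij
  have h2 := H.pairN i hi j hj hij
  rw [sum_hitx, sum_hitx] at h2
  have h3 := H.ef hi
  have h4 := H.ef hj
  have e1 : max 0 ((R - t i) * (∑ u ∈ U.filter (fun u => ho u = j), kp i u - 1 - s j)
        - ls i (∑ u ∈ U.filter (fun u => ho u = j), kp i u - 1 - s j)
        - ∑ u ∈ U.filter (fun u => ho u = j), ms i u) = gai R t U ho kp ms ls j i (1 + s j) := by
    unfold gai lod
    rw [← sub_sub]
  have e2 : max 0 ((R - t j) * (∑ u ∈ U.filter (fun u => ho u = i), kp j u - 1 - s i)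
        - ls j (∑ u ∈ U.filter (fun u => ho u = i), kp j u - 1 - s i)
        - ∑ u ∈ U.filter (fun u => ho u = i), ms j u) = gai R t U ho kp ms ls i j (1 + s i) := by
    unfold gai lod
    rw [← sub_sub]
  rw [e1, e2] at h1
  linarith

/-- **the pair test with both gains and the rectangle of one item**, T-form -/
theorem pairR (H : ItX R n t s h e E U ho vl kp ms mr mu Nb Nx be ls) {i j : ℕ} (hi : i < n)
    (hj : j < n) (hij : i ≠ j) {w : ι} (hw : w ∈ U) :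
    2 * (R - 1) * (s i + s j) + 2 * (hitx R t U ho kp ms i j + hitx R t U ho kp ms j i)
      + 2 * (max 0 (ms i w - be i j) * max 0 (ms j w - be j i))
      + 2 * gai R t U ho kp ms ls j i (1 + s j) + 2 * gai R t U ho kp ms ls i j (1 + s i)
      + (mu i - s i) * (mu i - s i - 1) + (mu j - s j) * (mu j - s j - 1)
      ≤ 2 * (t i * mu i) + 2 * (t j * mu j) + s i + s j + (s i + s j) ^ 2 + 2 * (R + 1)
        + Nb i + Nb j
        + 2 * ∑ x ∈ (range n).erase i, Nx i x + 2 * ∑ x ∈ (range n).erase j, Nx j x := by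
  have h1 := H.low i hi j hj hij
  have h2 := H.rect i hi j hj hij w hw
  rw [sum_hitx, sum_hitx] at h2
  have h3 := H.ef hi
  have h4 := H.ef hj
  have e1 : max 0 ((R - t i) * (∑ u ∈ U.filter (fun u => ho u = j), kp i u - 1 - s j)
        - ls i (∑ u ∈ U.filter (fun u => ho u = j), kp i u - 1 - s j)
        - ∑ u ∈ U.filter (fun u => ho u = j), ms i u) = gai R t U ho kp ms ls j i (1 + s j) := by
    unfold gai lod
    rw [← sub_sub]
  have e2 : max 0 ((R - t j) * (∑ u ∈ U.filter (fun u => ho u = i), kp j u - 1 - s i)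
        - ls j (∑ u ∈ U.filter (fun u => ho u = i), kp j u - 1 - s i)
        - ∑ u ∈ U.filter (fun u => ho u = i), ms j u) = gai R t U ho kp ms ls i j (1 + s i) := by
    unfold gai lod
    rw [← sub_sub]
  rw [e1, e2] at h1
  linarith

/-- **the test of the rows `B` with the gains at all rows of `B`, T-form**; `q i`, `mi i`: load and
misses at `i` of the items of the other rows of `B` -/
theorem slotL (H : ItX R n t s h e E U ho vl kp ms mr mu Nb Nx be ls) {B : Finset ℕ}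
    (hB : B ⊆ range n) (hB1 : 1 ≤ B.card) :
    ((B.card : ℤ) - 1) * (2 * (R + 1 - B.card) * ∑ i ∈ B, s i
        + 2 * ∑ i ∈ B, ∑ j ∈ B.erase i, hitx R t U ho kp ms i j
        + ∑ i ∈ B, (mu i - s i) * (mu i - s i - 1))
      + 2 * ∑ i ∈ B, max 0 ((R - t i)
          * (∑ j ∈ B.erase i, lod U ho kp j i - ((B.card : ℤ) - 1 + ∑ j ∈ B.erase i, s j))
        - ls i (∑ j ∈ B.erase i, lod U ho kp j i - ((B.card : ℤ) - 1 + ∑ j ∈ B.erase i, s j))
        - ∑ j ∈ B.erase i, lod U ho ms j i)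
      ≤ ((B.card : ℤ) - 1) * (2 * ∑ i ∈ B, t i * mu i + ∑ i ∈ B, s i
        + B.card * (B.card - 1) * (R + 1) + (∑ i ∈ B, s i) ^ 2
        + ∑ i ∈ B, Nb i + 2 * ∑ i ∈ B, ∑ j ∈ range n \ B, Nx i j) := by
  have h1 := H.lowB B hB hB1
  have hb : (0 : ℤ) ≤ (B.card : ℤ) - 1 := by
    have : (1 : ℤ) ≤ B.card := by exact_mod_cast hB1
    linarith
  have h3 : ∑ i ∈ B, (2 * e i + (mu i - s i) * (mu i - s i - 1))
      ≤ ∑ i ∈ B, (2 * (t i * mu i) + s i ^ 2 + s i + Nb i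
        + 2 * ∑ j ∈ (range n).erase i, Nx i j) :=
    sum_le_sum fun i hi => H.ef (mem_range.1 (hB hi))
  have h4 : ∀ i ∈ B, ∑ j ∈ (range n).erase i, Nx i j
      = ∑ j ∈ range n \ B, Nx i j + ∑ j ∈ B.erase i, Nx i j := by
    intro i hi
    rw [← sum_sdiff (erase_subset_erase i hB)]
    congr 1
    refine sum_congr ?_ fun _ _ => rfl
    ext j
    rw [mem_sdiff, mem_sdiff, mem_erase, mem_erase]
    constructor
    · rintro ⟨⟨h5, h6⟩, h7⟩
      exact ⟨h6, fun h8 => h7 ⟨h5, h8⟩⟩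
    · rintro ⟨h5, h6⟩
      exact ⟨⟨fun h7 => h6 (h7 ▸ hi), h5⟩, fun h7 => h6 h7.2⟩
  have h5 : ∑ i ∈ B, (2 * (t i * mu i) + s i ^ 2 + s i + Nb i
        + 2 * ∑ j ∈ (range n).erase i, Nx i j)
      = 2 * ∑ i ∈ B, t i * mu i + ∑ i ∈ B, s i ^ 2 + ∑ i ∈ B, s i + ∑ i ∈ B, Nb i
        + 2 * ∑ i ∈ B, ∑ j ∈ range n \ B, Nx i j + 2 * ∑ i ∈ B, ∑ j ∈ B.erase i, Nx i j := by
    simp only [sum_add_distrib, ← mul_sum]
    rw [sum_congr rfl h4, sum_add_distrib]
    ring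
  rw [sum_add_distrib, ← mul_sum, h5] at h3
  -- the pairs
  have e1 : ∀ φ : ℕ → ℕ → ℤ, ∑ x ∈ B, ∑ z ∈ B.erase x, φ x z
      = ∑ x ∈ B, ∑ z ∈ B, φ x z - ∑ x ∈ B, φ x x := by
    intro φ
    rw [← sum_sub_distrib]
    refine sum_congr rfl fun x hx => ?_
    have e2 := add_sum_erase B (fun z => φ x z) hx
    have e3 : φ x x + ∑ z ∈ B.erase x, φ x z = ∑ z ∈ B, φ x z := e2
    linarith
  have sw : ∀ φ : ℕ → ℕ → ℤ, ∑ x ∈ B, ∑ z ∈ B.erase x, φ x z
      = ∑ x ∈ B, ∑ z ∈ B.erase x, φ z x := by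
    intro φ
    rw [e1 φ, e1 fun x z => φ z x, sum_comm]
  have h6 : ∑ x ∈ B, ∑ z ∈ B.erase x, (hitx R t U ho kp ms x z + hitx R t U ho kp ms z x
      + Nx x z + Nx z x) ≤ ∑ x ∈ B, ∑ z ∈ B.erase x, E x z := by
    refine sum_le_sum fun x hx => sum_le_sum fun z hz => ?_
    obtain ⟨h6, h7⟩ := mem_erase.1 hz
    have h8 := H.pairN x (mem_range.1 (hB hx)) z (mem_range.1 (hB h7)) fun h8 => h6 h8.symm
    rw [sum_hitx, sum_hitx] at h8
    exact h8
  have h7 : ∑ x ∈ B, ∑ z ∈ B.erase x, (hitx R t U ho kp ms x z + hitx R t U ho kp ms z x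
      + Nx x z + Nx z x)
      = ∑ x ∈ B, ∑ z ∈ B.erase x, hitx R t U ho kp ms x z
        + ∑ x ∈ B, ∑ z ∈ B.erase x, hitx R t U ho kp ms z x
        + ∑ x ∈ B, ∑ z ∈ B.erase x, Nx x z + ∑ x ∈ B, ∑ z ∈ B.erase x, Nx z x := by
    simp only [sum_add_distrib]
  rw [h7, ← sw fun x z => hitx R t U ho kp ms x z, ← sw Nx] at h6
  have h8 := mul_le_mul_of_nonneg_left h3 hb
  have h9 := mul_le_mul_of_nonneg_left h6 hb
  have h10 : ∑ i ∈ B, max 0 ((R - t i)
          * (∑ j ∈ B.erase i, ∑ u ∈ U.filter (fun u => ho u = j), kp i u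
            - ((B.card : ℤ) - 1 + ∑ j ∈ B.erase i, s j))
        - ls i (∑ j ∈ B.erase i, ∑ u ∈ U.filter (fun u => ho u = j), kp i u
            - ((B.card : ℤ) - 1 + ∑ j ∈ B.erase i, s j))
        - ∑ j ∈ B.erase i, ∑ u ∈ U.filter (fun u => ho u = j), ms i u)
      = ∑ i ∈ B, max 0 ((R - t i)
          * (∑ j ∈ B.erase i, lod U ho kp j i - ((B.card : ℤ) - 1 + ∑ j ∈ B.erase i, s j))
        - ls i (∑ j ∈ B.erase i, lod U ho kp j i - ((B.card : ℤ) - 1 + ∑ j ∈ B.erase i, s j))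
        - ∑ j ∈ B.erase i, lod U ho ms j i) := rfl
  rw [h10] at h1
  nlinarith

end ItX

end ItXT

end Pool.Agent.Lib.MP_f04ccf_co
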