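import Pool.Agent.Lib.MP_f04ccf_co.M.N2H
import Pool.Agent.Lib.MP_f04ccf_co.M.Lev3

/-!
MP_f04ccf_co: no closed system with three rows and `3 r + 1` points, `17 ≤ r`, in which every
independent set of four points consists of doubles (`3`-closed systems).  Everything used about the
system is in the structure `Tri`: `S` has `3 r + 1` points and no `r`-clique, `C` (the class points)
has at least `2 r + 1` points, and no independent set of four points of `S` meets `C`.  The slack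
`sg v` of the missing degrees is at most `5` in total (`Tri.sum_sg`); for an independent triple `K`
of class points property (P) on the three closed neighbourhoods gives `Tri.ineq`; small classes and
swaps make the slack of `K` at most `1`.
-/

set_option autoImplicit false

namespace Pool.Agent.Lib.MP_f04ccf_co

open Finset

attribute [local instance] Classical.propDecidable

section J3

variable {V : Type*} {G : SimpleGraph V} {r : ℕ}

variable (G) in
/-- no independent set of four points of `S` meets `C` -/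
def NoFour (S C : Finset V) : Prop :=
  ∀ I : Finset V, I ⊆ S → Ind G I → I.card = 4 → ∀ c ∈ I, c ∉ C

lemma NoFour.four {S C : Finset V} (h : NoFour G S C) {a b c d : V} (ha : a ∈ C) (haS : a ∈ S)
    (hb : b ∈ S) (hc : c ∈ S) (hd : d ∈ S) (hab : a ≠ b) (hac : a ≠ c) (had : a ≠ d) (hbc : b ≠ c)
    (hbd : b ≠ d) (hcd : c ≠ d) (nab : ¬ G.Adj a b) (nac : ¬ G.Adj a c) (nad : ¬ G.Adj a d)
    (nbc : ¬ G.Adj b c) (nbd : ¬ G.Adj b d) : G.Adj c d := by
  by_contra ncd
  refine h {a, b, c, d} ?_ ?_ ?_ a (by simp) ha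
  · intro w hw
    simp only [mem_insert, mem_singleton] at hw
    rcases hw with rfl | rfl | rfl | rfl <;> assumption
  · intro u hu v hv huv
    simp only [mem_insert, mem_singleton] at hu hv
    rcases hu with rfl | rfl | rfl | rfl <;> rcases hv with rfl | rfl | rfl | rfl <;>
      first
        | exact G.loopless.irrefl _ huv
        | exact nab huv
        | exact nac huv
        | exact nad huv
        | exact nbc huv
        | exact nbd huv
        | exact ncd huv
        | exact nab huv.symm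
        | exact nac huv.symm
        | exact nad huv.symm
        | exact nbc huv.symm
        | exact nbd huv.symm
        | exact ncd huv.symm
  · rw [card_insert_of_notMem (by simp [hab, hac, had]),
      card_insert_of_notMem (by simp [hbc, hbd]), card_pair hcd]

/-- the non-neighbours of a class point have independence number at most two -/
lemma NoFour.alpha {S C : Finset V} (h : NoFour G S C) (hCS : C ⊆ S) {c : V} (hc : c ∈ C) :
    AlphaLe G (S.filter fun y => y ≠ c ∧ ¬ G.Adj c y) 2 := by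
  intro I hI hi
  by_contra hlt
  obtain ⟨I', hI', h3⟩ := exists_subset_card_eq (show 3 ≤ I.card by omega)
  have hmem : ∀ x ∈ I', x ∈ S ∧ x ≠ c ∧ ¬ G.Adj c x := fun x hx => by
    have := hI (hI' hx)
    rwa [mem_filter] at this
  have hc' : c ∉ I' := fun hcI => (hmem c hcI).2.1 rfl
  refine h (insert c I') (insert_subset (hCS hc) fun x hx => (hmem x hx).1) ?_ ?_ c
    (mem_insert_self _ _) hc
  · exact Ind.insert_of G (fun x hx y hy => hi x (hI' hx) y (hI' hy)) fun x hx => (hmem x hx).2.2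
  · rw [card_insert_of_notMem hc', h3]

variable (G r) in
/-- what is used about a `3`-closed system with three rows -/
structure Tri (S C : Finset V) : Prop where
  card : S.card = 3 * r + 1
  sub : C ⊆ S
  big : 2 * r + 1 ≤ C.card
  no4 : NoFour G S C
  clq : ∀ K : Finset V, K ⊆ S → Clq G K → K.card ≤ r - 1

variable {S C : Finset V}

/-- class points have at most `2 r - 1` non-neighbours -/
lemma Tri.nd_C (h : Tri G r S C) (hr : 7 ≤ r) (hP : PG G r) {c : V} (hc : c ∈ C) :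
    nd G S c + 1 ≤ 2 * r := by
  refine hP.level2' hr (h.no4.alpha h.sub hc) fun K hK hq hK' => ?_
  have h1 := h.clq K (hK.trans (filter_subset _ _)) hq
  omega

/-- every point has at most `2 r` non-neighbours -/
lemma Tri.nd_S (h : Tri G r S C) (hr : 7 ≤ r) (hP : PG G r) {v : V} (hv : v ∈ S) :
    nd G S v ≤ 2 * r := by
  by_cases hvC : v ∈ C
  · have := h.nd_C hr hP hvC
    omega
  by_contra hlt
  obtain ⟨X, hX, hXc⟩ := exists_subset_card_eq
    (show 2 * r + 1 ≤ (S.filter fun y => y ≠ v ∧ ¬ G.Adj v y).card by unfold nd at hlt; omega)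
  have hXm : ∀ x ∈ X, x ∈ S ∧ x ≠ v ∧ ¬ G.Adj v x := fun x hx => by
    have := hX hx
    rwa [mem_filter] at this
  have hXS : X ⊆ S := fun x hx => (hXm x hx).1
  have h1 : (X \ C).card ≤ r - 1 := by
    have h2 : insert v (X \ C) ⊆ S \ C := by
      intro x hx
      rcases mem_insert.1 hx with rfl | hx
      · exact mem_sdiff.2 ⟨hv, hvC⟩
      · exact mem_sdiff.2 ⟨hXS (mem_sdiff.1 hx).1, (mem_sdiff.1 hx).2⟩
    have h3 := card_le_card h2
    rw [card_insert_of_notMem (fun hx => (hXm v (mem_sdiff.1 hx).1).2.1 rfl)] at h3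
    have h4 := card_sdiff_add_card_eq_card h.sub
    have h5 := h.card
    have h6 := h.big
    omega
  have h2 : r + 1 ≤ (X.filter fun x => x ∈ C).card := by
    have h3 : (X.filter fun x => x ∈ C).card + (X.filter fun x => ¬ x ∈ C).card = X.card :=
      card_filter_add_card_filter_not _
    have h4 : (X.filter fun x => ¬ x ∈ C).card ≤ (X \ C).card :=
      card_le_card fun x hx => mem_sdiff.2 (mem_filter.1 hx)
    omega
  refine hP.no_two (by omega) hXc (fun K hK hq => h.clq K (hK.trans hXS) hq)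
    (filter_subset (fun x => x ∈ C) X) h2 fun c hc => ?_
  rw [mem_filter] at hc
  obtain ⟨hcX, hcC⟩ := hc
  obtain ⟨hcS, hcv, hnc⟩ := hXm c hcX
  intro x hx y hy hxy
  rw [mem_filter] at hx hy
  obtain ⟨hx1, hx2, hx3⟩ := hx
  obtain ⟨hy1, hy2, hy3⟩ := hy
  exact h.no4.four hcC hcS hv (hXS hx1) (hXS hy1) hcv (Ne.symm hx2) (Ne.symm hy2)
    (Ne.symm (hXm x hx1).2.1) (Ne.symm (hXm y hy1).2.1) hxy (fun h' => hnc h'.symm) hx3 hy3
    (hXm x hx1).2.2 (hXm y hy1).2.2

variable (G r S C) in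
/-- slack of the missing degree -/
noncomputable def sg (v : V) : ℤ := (if v ∈ C then 2 * (r : ℤ) - 1 else 2 * (r : ℤ)) - nd G S v

lemma Tri.sg_nonneg (h : Tri G r S C) (hr : 7 ≤ r) (hP : PG G r) {v : V} (hv : v ∈ S) :
    0 ≤ sg G r S C v := by
  unfold sg
  by_cases hvC : v ∈ C
  · have := h.nd_C hr hP hvC
    rw [if_pos hvC]
    omega
  · have := h.nd_S hr hP hv
    rw [if_neg hvC]
    omega

/-- **total slack at most five** -/
lemma Tri.sum_sg (h : Tri G r S C) (hP : PG G r) : ∑ v ∈ S, sg G r S C v ≤ 5 := by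
  have h1 := hP.ne S 3
  have h2 : (NE G S : ℤ) = ∑ v ∈ S, (nd G S v : ℤ) := by unfold NE; push_cast; rfl
  have h3 : ∑ v ∈ S, (if v ∈ C then 2 * (r : ℤ) - 1 else 2 * (r : ℤ)) =
      2 * r * S.card - C.card := by
    have h4 : ∀ v ∈ S, (if v ∈ C then 2 * (r : ℤ) - 1 else 2 * (r : ℤ)) =
        2 * (r : ℤ) - (if v ∈ C then 1 else 0) := by
      intro v _
      split_ifs <;> ring
    rw [sum_congr rfl h4, sum_sub_distrib, sum_const, nsmul_eq_mul, sum_boole]
    have h5 : S.filter (fun v => v ∈ C) = C := by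
      ext v
      rw [mem_filter]
      exact ⟨fun h' => h'.2, fun h' => ⟨h.sub h', h'⟩⟩
    rw [h5]
    ring
  have h4 : (S.card : ℤ) = 3 * r + 1 := by exact_mod_cast h.card
  have h5 : (2 * r + 1 : ℤ) ≤ C.card := by exact_mod_cast h.big
  unfold sg
  rw [sum_sub_distrib, h3, ← h2, h4]
  rw [h4] at h1
  nlinarith

/-- no point misses an independent triple of class points -/
lemma Tri.k_pos (h : Tri G r S C) {K : Finset V} (hK : K ⊆ C) (hi : Ind G K) (h3 : K.card = 3)
    {v : V} (hv : v ∈ S \ K) : 1 ≤ dg G K v := by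
  by_contra hlt
  have h0 : ∀ y ∈ K, ¬ G.Adj v y := fun y hy hvy =>
    hlt (card_pos.2 ⟨y, mem_filter.2 ⟨hy, hvy⟩⟩)
  obtain ⟨hvS, hvK⟩ := mem_sdiff.1 hv
  obtain ⟨c, hc⟩ : K.Nonempty := card_pos.1 (by omega)
  exact h.no4 (insert v K) (insert_subset hvS (hK.trans h.sub)) (Ind.insert_of G hi h0)
    (by rw [card_insert_of_notMem hvK, h3]) c (mem_insert_of_mem hc) (hK hc)

lemma Tri.dg_eq (h : Tri G r S C) {x : V} (hx : x ∈ C) :
    (dg G S x : ℤ) = r + 1 + sg G r S C x := by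
  have h1 := dg_add_nd (G := G) (h.sub hx)
  have h2 := h.card
  unfold sg
  rw [if_pos hx]
  omega

lemma tri_sum_dg_ind {K : Finset V} (hi : Ind G K) :
    ∑ v ∈ S \ K, dg G K v = ∑ x ∈ K, dg G S x := by
  rw [dg_comm]
  refine sum_congr rfl fun x hx => ?_
  unfold dg
  congr 1
  ext w
  simp only [mem_filter, mem_sdiff]
  constructor
  · rintro ⟨⟨h1, -⟩, h2⟩
    exact ⟨h1, h2⟩
  · rintro ⟨h1, h2⟩
    exact ⟨⟨h1, fun hw => hi x hx w hw h2⟩, h2⟩

/-- the excess of an independent triple -/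
lemma Tri.sum_k (h : Tri G r S C) {K : Finset V} (hK : K ⊆ C) (hi : Ind G K) (h3 : K.card = 3) :
    ∑ v ∈ S \ K, ((dg G K v : ℤ) - 1) = 5 + ∑ x ∈ K, sg G r S C x := by
  have hKS := hK.trans h.sub
  have h1 : ∑ v ∈ S \ K, (dg G K v : ℤ) = ∑ x ∈ K, (dg G S x : ℤ) := by
    exact_mod_cast tri_sum_dg_ind (G := G) (S := S) hi
  have h2 : ∑ x ∈ K, (dg G S x : ℤ) = ∑ x ∈ K, ((r : ℤ) + 1 + sg G r S C x) :=
    sum_congr rfl fun x hx => h.dg_eq (hK hx)
  have h4 := card_sdiff_add_card_eq_card hKS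
  have h5 := h.card
  rw [sum_sub_distrib, h1, h2, sum_add_distrib, sum_const, sum_const, nsmul_eq_mul, nsmul_eq_mul,
    h3]
  have h6 : ((S \ K).card : ℤ) = 3 * r - 2 := by omega
  rw [h6]
  push_cast
  ring

/-- the points of `P` count for the excess -/
lemma Tri.card_two (h : Tri G r S C) {K : Finset V} (hK : K ⊆ C) (hi : Ind G K) (h3 : K.card = 3)
    {P : Finset V} (hP : P ⊆ S \ K) (h2 : ∀ v ∈ P, 2 ≤ dg G K v) :
    (P.card : ℤ) ≤ 5 + ∑ x ∈ K, sg G r S C x := by
  rw [← h.sum_k hK hi h3]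
  have h4 : ∑ v ∈ P, (1 : ℤ) ≤ ∑ v ∈ P, ((dg G K v : ℤ) - 1) :=
    sum_le_sum fun v hv => by have := h2 v hv; omega
  have h5 : ∑ v ∈ P, ((dg G K v : ℤ) - 1) ≤ ∑ v ∈ S \ K, ((dg G K v : ℤ) - 1) := by
    refine sum_le_sum_of_subset_of_nonneg hP fun v hv _ => ?_
    have := h.k_pos hK hi h3 hv
    omega
  rw [sum_const, nsmul_eq_mul, mul_one] at h4
  exact h4.trans h5

/-- **swap**: a row with at least `b + 7` class points, at most `b` and the slack of the triple of
them adjacent to the other two points, has a free one without slack -/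
lemma Tri.swap (h : Tri G r S C) (hr : 7 ≤ r) (hP : PG G r) {K : Finset V} (hK : K ⊆ C)
    (hi : Ind G K) {z : V} (hz : z ∈ K) {Q : Finset V} (hQ : Q ⊆ C)
    (hQz : ∀ c ∈ Q, c ≠ z → G.Adj c z) {b : ℕ}
    (hb : ((Q.erase z).filter fun c => ∃ k ∈ K.erase z, G.Adj c k).card ≤
      b + ∑ x ∈ K, sg G r S C x) (h7 : b + 7 ≤ Q.card) :
    ∃ c ∈ Q, c ∉ K.erase z ∧ (∀ k ∈ K.erase z, ¬ G.Adj c k) ∧ sg G r S C c = 0 := by
  by_contra hcon
  push Not at hcon
  have hKS := hK.trans h.sub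
  have hQK : ∀ c ∈ Q.erase z, c ∈ S \ K := by
    intro c hc
    obtain ⟨h1, h2⟩ := mem_erase.1 hc
    exact mem_sdiff.2 ⟨h.sub (hQ h2), fun h' => hi c h' z hz (hQz c h2 h1)⟩
  set P := (Q.erase z).filter (fun c => ∃ k ∈ K.erase z, G.Adj c k) with hPdef
  set N := (Q.erase z).filter (fun c => ¬ ∃ k ∈ K.erase z, G.Adj c k) with hNdef
  have h4 : P.card + N.card = (Q.erase z).card := card_filter_add_card_filter_not _
  have h6 : ∀ c ∈ N, 1 ≤ sg G r S C c := by
    intro c hc
    obtain ⟨h1, h2⟩ := mem_filter.1 hc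
    push Not at h2
    obtain ⟨hcz, hcQ⟩ := mem_erase.1 h1
    have h7 := hcon c hcQ (fun h' => (mem_sdiff.1 (hQK c h1)).2 (mem_of_mem_erase h')) h2
    have h8 := h.sg_nonneg hr hP (h.sub (hQ hcQ))
    omega
  have h7 : (N.card : ℤ) + ∑ x ∈ K, sg G r S C x ≤ 5 := by
    have h8 : ∑ c ∈ N, (1 : ℤ) ≤ ∑ c ∈ N, sg G r S C c := sum_le_sum h6
    rw [sum_const, nsmul_eq_mul, mul_one] at h8
    have hd : Disjoint N K := by
      rw [disjoint_left]
      intro c hc
      exact (mem_sdiff.1 (hQK c (mem_filter.1 hc).1)).2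
    have h9 : ∑ c ∈ N ∪ K, sg G r S C c ≤ ∑ c ∈ S, sg G r S C c := by
      refine sum_le_sum_of_subset_of_nonneg (union_subset ?_ hKS) fun v hv _ =>
        h.sg_nonneg hr hP hv
      exact fun c hc => (mem_sdiff.1 (hQK c (mem_filter.1 hc).1)).1
    rw [sum_union hd] at h9
    have h10 := h.sum_sg hP
    linarith
  have h8 : Q.card ≤ (Q.erase z).card + 1 := by
    have := pred_card_le_card_erase (s := Q) (a := z)
    omega
  omega

/-- the class points of the row of `z` adjacent to another point of the triple -/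
lemma Tri.two_mem {K : Finset V} {z : V} (hz : z ∈ K) {Q : Finset V}
    (hQz : ∀ c ∈ Q, c ≠ z → G.Adj c z) :
    ∀ c ∈ (Q.erase z).filter (fun c => ∃ k ∈ K.erase z, G.Adj c k), 2 ≤ dg G K c := by
  intro c hc
  obtain ⟨h1, k, hk, hck⟩ := mem_filter.1 hc
  obtain ⟨hcz, hcQ⟩ := mem_erase.1 h1
  obtain ⟨hkz, hkK⟩ := mem_erase.1 hk
  have h6 : ({z, k} : Finset V) ⊆ K.filter (fun w => G.Adj c w) := by
    intro w hw
    simp only [mem_insert, mem_singleton] at hw
    rcases hw with rfl | rfl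
    · exact mem_filter.2 ⟨hz, hQz c hcQ hcz⟩
    · exact mem_filter.2 ⟨hkK, hck⟩
  have h7 := card_le_card h6
  rw [card_pair (Ne.symm hkz)] at h7
  exact h7

/-- at most `5` and the slack of the triple -/
lemma Tri.adj_le (h : Tri G r S C) {K : Finset V} (hK : K ⊆ C) (hi : Ind G K) (h3 : K.card = 3)
    {z : V} (hz : z ∈ K) {Q : Finset V} (hQ : Q ⊆ C) (hQz : ∀ c ∈ Q, c ≠ z → G.Adj c z) :
    (((Q.erase z).filter fun c => ∃ k ∈ K.erase z, G.Adj c k).card : ℤ) ≤
      (5 : ℕ) + ∑ x ∈ K, sg G r S C x := by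
  refine h.card_two hK hi h3 (fun c hc => ?_) (Tri.two_mem hz hQz)
  obtain ⟨h1, h2⟩ := mem_erase.1 (mem_filter.1 hc).1
  exact mem_sdiff.2 ⟨h.sub (hQ h2), fun h' => hi c h' z hz (hQz c h2 h1)⟩

variable (G) in
/-- common neighbours in `K` of a missing pair -/
noncomputable def cmk (K : Finset V) (u v : V) : ℕ :=
  if v ≠ u ∧ ¬ G.Adj u v then dg G (K.filter fun x => G.Adj u x) v else 0

lemma cmk_comm (K : Finset V) (u v : V) : cmk G K u v = cmk G K v u := by
  unfold cmk
  by_cases h : v ≠ u ∧ ¬ G.Adj u v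
  · rw [if_pos h, if_pos ⟨h.1.symm, fun h' => h.2 h'.symm⟩]
    unfold dg
    rw [filter_filter, filter_filter]
    congr 1
    ext x
    simp only [mem_filter]
    tauto
  · rw [if_neg h, if_neg fun h' => h ⟨h'.1.symm, fun h'' => h'.2 h''.symm⟩]

lemma sum_NE_cmk {K U : Finset V} :
    ∑ x ∈ K, NE G (U.filter fun v => G.Adj x v) = ∑ u ∈ U, ∑ v ∈ U, cmk G K u v := by
  have h1 : ∀ x ∈ K, NE G (U.filter fun v => G.Adj x v) = ∑ u ∈ U, ∑ v ∈ U,
      (if (G.Adj u x ∧ G.Adj v x) ∧ (v ≠ u ∧ ¬ G.Adj u v) then 1 else 0) := by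
    intro x _
    unfold NE nd
    rw [sum_filter]
    refine sum_congr rfl fun u _ => ?_
    split_ifs with hxu
    · rw [filter_filter, card_filter]
      refine sum_congr rfl fun v _ => ?_
      have e : (G.Adj x v ∧ v ≠ u ∧ ¬ G.Adj u v) ↔
          ((G.Adj u x ∧ G.Adj v x) ∧ (v ≠ u ∧ ¬ G.Adj u v)) := by
        constructor
        · rintro ⟨a, b⟩
          exact ⟨⟨hxu.symm, a.symm⟩, b⟩
        · rintro ⟨⟨-, a⟩, b⟩
          exact ⟨a.symm, b⟩
      simp only [e]
    · symm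
      apply sum_eq_zero
      intro v _
      rw [if_neg]
      rintro ⟨⟨h, -⟩, -⟩
      exact hxu h.symm
  rw [sum_congr rfl h1, sum_comm]
  refine sum_congr rfl fun u _ => ?_
  rw [sum_comm]
  refine sum_congr rfl fun v _ => ?_
  unfold cmk dg
  by_cases h : v ≠ u ∧ ¬ G.Adj u v
  · rw [if_pos h, filter_filter, card_filter]
    refine sum_congr rfl fun x _ => ?_
    by_cases h' : G.Adj u x ∧ G.Adj v x
    · rw [if_pos ⟨h', h⟩, if_pos h']
    · rw [if_neg fun h'' => h' h''.1, if_neg h']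
  · rw [if_neg h]
    exact sum_eq_zero fun x _ => if_neg fun h' => h h'.2

/-- property (P), slope one, on a closed neighbourhood of the triple -/
lemma Tri.ne_nb (h : Tri G r S C) (hP : PG G r) {K : Finset V} (hK : K ⊆ C) (hi : Ind G K) {x : V}
    (hx : x ∈ K) :
    2 * ((r : ℤ) - 1) * (2 + sg G r S C x) ≤ NE G ((S \ K).filter fun v => G.Adj x v) := by
  set N := (S \ K).filter (fun v => G.Adj x v) with hN
  have hN' : N = S.filter (fun v => G.Adj x v) := by
    ext v
    simp only [hN, mem_filter, mem_sdiff]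
    constructor
    · rintro ⟨⟨h1, -⟩, h2⟩
      exact ⟨h1, h2⟩
    · rintro ⟨h1, h2⟩
      exact ⟨⟨h1, fun hv => hi x hx v hv h2⟩, h2⟩
  have hc : (N.card : ℤ) = r + 1 + sg G r S C x := by
    rw [hN']
    exact h.dg_eq (hK hx)
  have hxN : x ∉ N := fun hx' => G.loopless.irrefl _ (mem_filter.1 hx').2
  have hd : Disjoint {x} N := disjoint_singleton_left.2 hxN
  have h1 := NE_union (G := G) hd
  have h2 : NE G {x} = 0 := NE_clq (by
    intro a ha b hb hab
    rw [mem_singleton] at ha hb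
    exact absurd (ha.trans hb.symm) hab)
  have h3 : ∑ v ∈ N, nd G {x} v = 0 := by
    refine sum_eq_zero fun v hv => ?_
    unfold nd
    rw [card_eq_zero, filter_eq_empty_iff]
    intro y hy h'
    rw [mem_singleton.1 hy] at h'
    exact h'.2 (mem_filter.1 hv).2.symm
  rw [h2, h3] at h1
  have h4 := hP.ne1 ({x} ∪ N)
  have h5 : (({x} ∪ N : Finset V).card : ℤ) = r + 2 + sg G r S C x := by
    rw [card_union_of_disjoint hd, card_singleton]
    push_cast
    linarith
  rw [h5, h1] at h4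
  push_cast at h4
  linarith

/-- private neighbours of the same point of the triple are adjacent -/
lemma Tri.cmk_one (h : Tri G r S C) {K : Finset V} (hK : K ⊆ C) (hi : Ind G K) (h3 : K.card = 3)
    {u v : V} (hu : u ∈ S \ K) (hv : v ∈ S \ K) (hu1 : dg G K u = 1) (hv1 : dg G K v = 1) :
    cmk G K u v = 0 := by
  unfold cmk
  split_ifs with hm
  swap
  · rfl
  by_contra hne
  obtain ⟨x, hx⟩ := card_pos.1 (Nat.pos_of_ne_zero hne)
  rw [mem_filter, mem_filter] at hx
  obtain ⟨⟨hxK, hux⟩, hvx⟩ := hx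
  have key : ∀ w, dg G K w = 1 → G.Adj w x → ∀ y ∈ K, y ≠ x → ¬ G.Adj w y := by
    intro w hw hwx y hy hyx hwy
    obtain ⟨a, ha⟩ := card_eq_one.1 hw
    have h1 : x ∈ K.filter (fun y => G.Adj w y) := mem_filter.2 ⟨hxK, hwx⟩
    have h2 : y ∈ K.filter (fun y => G.Adj w y) := mem_filter.2 ⟨hy, hwy⟩
    rw [ha, mem_singleton] at h1 h2
    exact hyx (h2.trans h1.symm)
  have h4 : (K.erase x).card = 2 := by rw [card_erase_of_mem hxK]; omega
  obtain ⟨a, b, hab, he⟩ := card_eq_two.1 h4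
  have ha : a ∈ K.erase x := by rw [he]; simp
  have hb : b ∈ K.erase x := by rw [he]; simp
  obtain ⟨hax, haK⟩ := mem_erase.1 ha
  obtain ⟨hbx, hbK⟩ := mem_erase.1 hb
  obtain ⟨huS, huK⟩ := mem_sdiff.1 hu
  obtain ⟨hvS, hvK⟩ := mem_sdiff.1 hv
  have hKS := hK.trans h.sub
  exact hm.2 (h.no4.four (hK haK) (hKS haK) (hKS hbK) huS hvS hab
    (fun h' => huK (h' ▸ haK)) (fun h' => hvK (h' ▸ haK)) (fun h' => huK (h' ▸ hbK))
    (fun h' => hvK (h' ▸ hbK)) hm.1.symm (hi a haK b hbK)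
    (fun h' => key u hu1 hux a haK hax h'.symm) (fun h' => key v hv1 hvx a haK hax h'.symm)
    (fun h' => key u hu1 hux b hbK hbx h'.symm) (fun h' => key v hv1 hvx b hbK hbx h'.symm))

/-- private neighbours of `x` are pairwise adjacent -/
lemma Tri.priv_adj (h : Tri G r S C) {K : Finset V} (hK : K ⊆ C) (hi : Ind G K) (h3 : K.card = 3)
    {u v x : V} (hu : u ∈ S \ K) (hv : v ∈ S \ K) (hu1 : dg G K u = 1) (hv1 : dg G K v = 1)
    (hx : x ∈ K) (hux : G.Adj u x) (hvx : G.Adj v x) (huv : u ≠ v) : G.Adj u v := by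
  by_contra hn
  have h8 := h.cmk_one hK hi h3 hu hv hu1 hv1
  unfold cmk at h8
  rw [if_pos ⟨Ne.symm huv, hn⟩] at h8
  have h9 : x ∈ (K.filter fun y => G.Adj u y).filter (fun y => G.Adj v y) :=
    mem_filter.2 ⟨mem_filter.2 ⟨hx, hux⟩, hvx⟩
  have h10 : 0 < ((K.filter fun y => G.Adj u y).filter (fun y => G.Adj v y)).card :=
    card_pos.2 ⟨x, h9⟩
  unfold dg at h8
  omega

/-- many points see `z` and another point of the triple -/
lemma Tri.see_two (h : Tri G r S C) {K : Finset V} (hK : K ⊆ C) (hi : Ind G K) (h3 : K.card = 3)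
    (hr : 1 ≤ r) {z : V} (hz : z ∈ K) :
    3 + sg G r S C z ≤ (((S \ K).filter fun v => G.Adj v z ∧ 2 ≤ dg G K v).card : ℤ) := by
  have hKS := hK.trans h.sub
  set N1 := (S \ K).filter (fun v => G.Adj v z ∧ dg G K v = 1) with hN1
  set N2 := (S \ K).filter (fun v => G.Adj v z ∧ 2 ≤ dg G K v) with hN2
  have hzN : z ∉ N1 := fun h' => G.loopless.irrefl _ (mem_filter.1 h').2.1
  have hcl : Clq G (insert z N1) := by
    intro c hc d hd hcd
    rcases mem_insert.1 hc with hc | hc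
    · rcases mem_insert.1 hd with hd | hd
      · exact absurd (hc.trans hd.symm) hcd
      · rw [hc]
        exact (mem_filter.1 hd).2.1.symm
    · rcases mem_insert.1 hd with hd | hd
      · rw [hd]
        exact (mem_filter.1 hc).2.1
      · obtain ⟨h4, h5, h6⟩ := mem_filter.1 hc
        obtain ⟨h7, h8, h9⟩ := mem_filter.1 hd
        exact h.priv_adj hK hi h3 h4 h7 h6 h9 hz h5 h8 hcd
  have h4 := h.clq (insert z N1) (insert_subset (hKS hz) ((filter_subset _ _).trans sdiff_subset))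
    hcl
  rw [card_insert_of_notMem hzN] at h4
  have h5 : dg G S z ≤ N1.card + N2.card := by
    refine le_trans (card_le_card fun v hv => ?_) (card_union_le N1 N2)
    obtain ⟨h6, h7⟩ := mem_filter.1 hv
    have h8 : v ∈ S \ K := mem_sdiff.2 ⟨h6, fun h' => hi z hz v h' h7⟩
    have h9 := h.k_pos hK hi h3 h8
    rw [mem_union]
    by_cases h10 : dg G K v = 1
    · exact Or.inl (mem_filter.2 ⟨h8, h7.symm, h10⟩)
    · exact Or.inr (mem_filter.2 ⟨h8, h7.symm, by omega⟩)
  have h6 := h.dg_eq (hK hz)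
  omega

/-- at most `2` and the slack of the triple, if no class point of the row sees `z` -/
lemma Tri.adj_le' (h : Tri G r S C) (hr : 7 ≤ r) (hP : PG G r) {K : Finset V} (hK : K ⊆ C)
    (hi : Ind G K) (h3 : K.card = 3) {y z : V} (hy : y ∈ K) (hz : z ∈ K) {Q : Finset V}
    (hQ : Q ⊆ C) (hQy : ∀ c ∈ Q, c ≠ y → G.Adj c y) (hQz : ∀ c ∈ Q, c ≠ y → ¬ G.Adj c z) :
    (((Q.erase y).filter fun c => ∃ k ∈ K.erase y, G.Adj c k).card : ℤ) ≤
      (2 : ℕ) + ∑ x ∈ K, sg G r S C x := by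
  have h2 := Tri.two_mem hy hQy
  have h4 := h.see_two hK hi h3 (by omega) hz
  have h5 := h.sg_nonneg hr hP (h.sub (hK hz))
  set P := (Q.erase y).filter (fun c => ∃ k ∈ K.erase y, G.Adj c k) with hPdef
  set N2 := (S \ K).filter (fun v => G.Adj v z ∧ 2 ≤ dg G K v) with hN2
  have hd : Disjoint P N2 := by
    rw [disjoint_left]
    intro c hc hc2
    obtain ⟨h6, h7⟩ := mem_erase.1 (mem_filter.1 hc).1
    exact hQz c h7 h6 (mem_filter.1 hc2).2.1
  have h6 := h.card_two hK hi h3 (P := P ∪ N2) (fun c hc => by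
    rcases mem_union.1 hc with hc | hc
    · obtain ⟨h6, h7⟩ := mem_erase.1 (mem_filter.1 hc).1
      exact mem_sdiff.2 ⟨h.sub (hQ h7), fun h' => hi c h' y hy (hQy c h7 h6)⟩
    · exact (mem_filter.1 hc).1) (fun c hc => by
    rcases mem_union.1 hc with hc | hc
    · exact h2 c hc
    · exact (mem_filter.1 hc).2.2)
  rw [card_union_of_disjoint hd] at h6
  push_cast at h6 ⊢
  linarith

/-- the loads of a point with at least two neighbours in the triple -/
lemma Tri.load (h : Tri G r S C) (hr : 7 ≤ r) (hP : PG G r) {K : Finset V} (hK : K ⊆ C)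
    (hi : Ind G K) (h3 : K.card = 3) {u : V} (hu : u ∈ S \ K) (hu2 : 2 ≤ dg G K u) {B : ℤ}
    (hB5 : 5 ≤ B)
    (hB : (((S \ K).filter fun v => 2 ≤ dg G K v).card : ℤ) +
      ((S \ K).filter fun v => dg G K v = 3).card = B) :
    ∑ v ∈ S \ K, (if dg G K v = 1 then 2 else 1 : ℤ) * cmk G K u v ≤
      ((dg G K u : ℤ) - 1) * (2 * ((r : ℤ) - 1) + B - 1) := by
  have hKS := hK.trans h.sub
  have hk1 : ∀ v ∈ S \ K, 1 ≤ dg G K v := fun v hv => h.k_pos hK hi h3 hv
  have hk3 : ∀ v, dg G K v ≤ 3 := fun v => h3 ▸ card_filter_le _ _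
  set P := (S \ K).filter (fun v => 2 ≤ dg G K v) with hPdef
  set Q := (S \ K).filter (fun v => dg G K v = 3) with hQdef
  obtain ⟨huS, huK⟩ := mem_sdiff.1 hu
  have hPe : ∑ v ∈ S \ K, (if v ≠ u ∧ 2 ≤ dg G K v then 1 else 0 : ℤ) = (P.card : ℤ) - 1 := by
    rw [sum_boole]
    have h4 : (S \ K).filter (fun v => v ≠ u ∧ 2 ≤ dg G K v) = P.erase u := by
      ext v
      simp only [hPdef, mem_filter, mem_erase]
      tauto
    have h5 : u ∈ P := mem_filter.2 ⟨hu, hu2⟩
    have h6 : 1 ≤ P.card := card_pos.2 ⟨u, h5⟩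
    rw [h4, card_erase_of_mem h5]
    omega
  rcases Nat.lt_or_ge (dg G K u) 3 with hlt | hge
  · have hu2' : dg G K u = 2 := by omega
    -- the missing row
    have h4 : (K.filter fun x => G.Adj u x).card + (K.filter fun x => ¬ G.Adj u x).card = K.card :=
      card_filter_add_card_filter_not _
    have h5 : (K.filter fun x => ¬ G.Adj u x).card = 1 := by
      have : (K.filter fun x => G.Adj u x).card = 2 := hu2'
      omega
    obtain ⟨z, hz⟩ := card_eq_one.1 h5
    have hzK : z ∈ K ∧ ¬ G.Adj u z := by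
      have : z ∈ K.filter fun x => ¬ G.Adj u x := by rw [hz]; simp
      exact mem_filter.1 this
    have hKz : K.filter (fun x => G.Adj u x) = K.erase z := by
      ext y
      rw [mem_filter, mem_erase]
      constructor
      · rintro ⟨h6, h7⟩
        exact ⟨fun h' => hzK.2 (h' ▸ h7), h6⟩
      · rintro ⟨h6, h7⟩
        refine ⟨h7, ?_⟩
        by_contra h8
        have : y ∈ K.filter fun x => ¬ G.Adj u x := mem_filter.2 ⟨h7, h8⟩
        rw [hz, mem_singleton] at this
        exact h6 this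
    have hkz : ∀ v, dg G K v = dg G (K.erase z) v + (if G.Adj v z then 1 else 0) := by
      intro v
      unfold dg
      rw [filter_erase]
      by_cases hvz : G.Adj v z
      · have h6 : z ∈ K.filter (fun w => G.Adj v w) := mem_filter.2 ⟨hzK.1, hvz⟩
        rw [if_pos hvz, card_erase_of_mem h6]
        have : 1 ≤ (K.filter (fun w => G.Adj v w)).card := card_pos.2 ⟨z, h6⟩
        omega
      · rw [if_neg hvz, erase_eq_of_notMem (fun h' => hvz (mem_filter.1 h').2)]
        rfl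
    set A := (S \ K).filter (fun v => (v ≠ u ∧ ¬ G.Adj u v) ∧ ¬ G.Adj v z) with hA
    have hAc : A.card ≤ r - 1 := by
      refine h.clq A ((filter_subset _ _).trans sdiff_subset) fun a ha b hb hab => ?_
      obtain ⟨ha1, ⟨ha2, ha3⟩, ha4⟩ := mem_filter.1 ha
      obtain ⟨hb1, ⟨hb2, hb3⟩, hb4⟩ := mem_filter.1 hb
      obtain ⟨haS, haK⟩ := mem_sdiff.1 ha1
      obtain ⟨hbS, hbK⟩ := mem_sdiff.1 hb1
      exact h.no4.four (hK hzK.1) (hKS hzK.1) huS haS hbS (fun h' => huK (h' ▸ hzK.1))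
        (fun h' => haK (h' ▸ hzK.1)) (fun h' => hbK (h' ▸ hzK.1)) ha2.symm hb2.symm hab
        (fun h' => hzK.2 h'.symm) (fun h' => ha4 h'.symm) (fun h' => hb4 h'.symm) ha3 hb3
    have hAs : ∑ v ∈ S \ K, (if (v ≠ u ∧ ¬ G.Adj u v) ∧ ¬ G.Adj v z then 1 else 0 : ℤ) =
        A.card := by
      rw [sum_boole]
    have hQs : ∑ v ∈ S \ K, (if dg G K v = 3 then 1 else 0 : ℤ) = Q.card := by
      rw [sum_boole]
    have hpt : ∀ v ∈ S \ K, (if dg G K v = 1 then 2 else 1 : ℤ) * cmk G K u v ≤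
        2 * (if (v ≠ u ∧ ¬ G.Adj u v) ∧ ¬ G.Adj v z then 1 else 0 : ℤ) +
          (if v ≠ u ∧ 2 ≤ dg G K v then 1 else 0 : ℤ) + (if dg G K v = 3 then 1 else 0 : ℤ) := by
      intro v hv
      unfold cmk
      have h6 := hk1 v hv
      have h7 := hk3 v
      have h8 := hkz v
      have h9 : dg G (K.erase z) v ≤ 2 := by
        have : (K.erase z).card = 2 := by rw [card_erase_of_mem hzK.1]; omega
        exact this ▸ card_filter_le _ _
      rw [hKz]
      by_cases hm : v ≠ u ∧ ¬ G.Adj u v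
      · rw [if_pos hm]
        have hvu := hm.1
        by_cases hvz : G.Adj v z
        · rw [if_pos hvz] at h8
          have e1 : ¬ ((v ≠ u ∧ ¬ G.Adj u v) ∧ ¬ G.Adj v z) := fun h' => h'.2 hvz
          rw [if_neg e1]
          by_cases hv1 : dg G K v = 1
          · have e2 : ¬ (v ≠ u ∧ 2 ≤ dg G K v) := by omega
            have e3 : ¬ dg G K v = 3 := by omega
            rw [if_pos hv1, if_neg e2, if_neg e3]
            omega
          · have e2 : v ≠ u ∧ 2 ≤ dg G K v := ⟨hvu, by omega⟩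
            rw [if_neg hv1, if_pos e2]
            by_cases hv3 : dg G K v = 3
            · rw [if_pos hv3]
              omega
            · rw [if_neg hv3]
              omega
        · rw [if_neg hvz] at h8
          have e1 : (v ≠ u ∧ ¬ G.Adj u v) ∧ ¬ G.Adj v z := ⟨hm, hvz⟩
          rw [if_pos e1]
          have e3 : ¬ dg G K v = 3 := by omega
          by_cases hv1 : dg G K v = 1
          · have e2 : ¬ (v ≠ u ∧ 2 ≤ dg G K v) := by omega
            rw [if_pos hv1, if_neg e2, if_neg e3]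
            omega
          · have e2 : v ≠ u ∧ 2 ≤ dg G K v := ⟨hvu, by omega⟩
            rw [if_neg hv1, if_pos e2, if_neg e3]
            omega
      · have e1 : ¬ ((v ≠ u ∧ ¬ G.Adj u v) ∧ ¬ G.Adj v z) := fun h' => hm h'.1
        rw [if_neg hm, if_neg e1]
        split_ifs <;> simp
    have h6 := sum_le_sum hpt
    rw [sum_add_distrib, sum_add_distrib, ← mul_sum, hAs, hPe, hQs] at h6
    rw [hu2']
    have h7 : (A.card : ℤ) ≤ r - 1 := by omega
    push_cast
    linarith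
  · have hu3 : dg G K u = 3 := by have := hk3 u; omega
    have hKu : K.filter (fun x => G.Adj u x) = K :=
      eq_of_subset_of_card_le (filter_subset _ _) (by
        have : (K.filter fun x => G.Adj u x).card = 3 := hu3
        omega)
    have hQe : ∑ v ∈ S \ K, (if v ≠ u ∧ dg G K v = 3 then 1 else 0 : ℤ) = (Q.card : ℤ) - 1 := by
      rw [sum_boole]
      have h4 : (S \ K).filter (fun v => v ≠ u ∧ dg G K v = 3) = Q.erase u := by
        ext v
        simp only [hQdef, mem_filter, mem_erase]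
        tauto
      have h5 : u ∈ Q := mem_filter.2 ⟨hu, hu3⟩
      have h6 : 1 ≤ Q.card := card_pos.2 ⟨u, h5⟩
      rw [h4, card_erase_of_mem h5]
      omega
    have hNs : ∑ v ∈ S \ K, (if v ≠ u ∧ ¬ G.Adj u v then 1 else 0 : ℤ) = nd G (S \ K) u := by
      rw [sum_boole]
      rfl
    have hpt : ∀ v ∈ S \ K, (if dg G K v = 1 then 2 else 1 : ℤ) * cmk G K u v ≤
        2 * (if v ≠ u ∧ ¬ G.Adj u v then 1 else 0 : ℤ) +
          (if v ≠ u ∧ dg G K v = 3 then 1 else 0 : ℤ) := by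
      intro v hv
      unfold cmk
      have h6 := hk1 v hv
      have h7 := hk3 v
      rw [hKu]
      by_cases hm : v ≠ u ∧ ¬ G.Adj u v
      · rw [if_pos hm, if_pos hm]
        have hvu := hm.1
        by_cases hv1 : dg G K v = 1
        · have e2 : ¬ (v ≠ u ∧ dg G K v = 3) := by omega
          rw [if_pos hv1, if_neg e2]
          omega
        · rw [if_neg hv1]
          by_cases hv3 : dg G K v = 3
          · rw [if_pos ⟨hvu, hv3⟩]
            omega
          · have e2 : ¬ (v ≠ u ∧ dg G K v = 3) := fun h' => hv3 h'.2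
            rw [if_neg e2]
            omega
      · rw [if_neg hm, if_neg hm]
        split_ifs <;> simp
    have h6 := sum_le_sum hpt
    rw [sum_add_distrib, ← mul_sum, hNs, hQe] at h6
    have h7 : (nd G (S \ K) u : ℤ) ≤ 2 * r := by
      have h8 := nd_mono (G := G) (sdiff_subset (s := S) (t := K)) u
      have h9 := h.nd_S hr hP huS
      exact_mod_cast h8.trans h9
    have h8 : (Q.card : ℤ) ≤ P.card := by
      exact_mod_cast card_le_card fun v hv => mem_filter.2
        ⟨(mem_filter.1 hv).1, by have := (mem_filter.1 hv).2; omega⟩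
    rw [hu3]
    push_cast
    linarith

/-- **the inequality for an independent triple of class points** -/
lemma Tri.ineq (h : Tri G r S C) (hr : 7 ≤ r) (hP : PG G r) {K : Finset V} (hK : K ⊆ C)
    (hi : Ind G K) (h3 : K.card = 3) {B : ℤ} (hB : B = 5 + ∑ x ∈ K, sg G r S C x) :
    2 * ((r : ℤ) - 1) ≤ B * (B - 1) := by
  have hKS := hK.trans h.sub
  have hk1 : ∀ v ∈ S \ K, 1 ≤ dg G K v := fun v hv => h.k_pos hK hi h3 hv
  have hk3 : ∀ v, dg G K v ≤ 3 := fun v => h3 ▸ card_filter_le _ _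
  have hB5 : 5 ≤ B := by
    have : 0 ≤ ∑ x ∈ K, sg G r S C x := sum_nonneg fun x hx => h.sg_nonneg hr hP (hKS hx)
    linarith
  set P := (S \ K).filter (fun v => 2 ≤ dg G K v) with hPdef
  set Q := (S \ K).filter (fun v => dg G K v = 3) with hQdef
  have hsum : ∑ v ∈ P, ((dg G K v : ℤ) - 1) = B := by
    rw [hB, ← h.sum_k hK hi h3, hPdef, sum_filter]
    refine sum_congr rfl fun v hv => ?_
    split_ifs with h4
    · rfl
    · have := hk1 v hv
      omega
  have hPQ : (P.card : ℤ) + Q.card = B := by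
    rw [← hsum]
    have h4 : ∀ v ∈ P, ((dg G K v : ℤ) - 1) = 1 + (if dg G K v = 3 then 1 else 0) := by
      intro v hv
      have h5 := (mem_filter.1 hv).2
      have h6 := hk3 v
      split_ifs <;> omega
    rw [sum_congr rfl h4, sum_add_distrib, sum_const, nsmul_eq_mul, mul_one, sum_boole]
    congr 2
    congr 1
    ext v
    simp only [hPdef, hQdef, mem_filter]
    constructor
    · rintro ⟨h5, h6⟩
      exact ⟨⟨h5, by omega⟩, h6⟩
    · rintro ⟨⟨h5, -⟩, h6⟩
      exact ⟨h5, h6⟩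
  -- the lower bound
  have hlow : 2 * ((r : ℤ) - 1) * (B + 1) ≤ ∑ u ∈ S \ K, ∑ v ∈ S \ K, (cmk G K u v : ℤ) := by
    have h4 : ∑ x ∈ K, 2 * ((r : ℤ) - 1) * (2 + sg G r S C x) ≤
        ∑ x ∈ K, (NE G ((S \ K).filter fun v => G.Adj x v) : ℤ) :=
      sum_le_sum fun x hx => h.ne_nb hP hK hi hx
    have h5 : ∑ x ∈ K, (NE G ((S \ K).filter fun v => G.Adj x v) : ℤ) =
        ∑ u ∈ S \ K, ∑ v ∈ S \ K, (cmk G K u v : ℤ) := by
      exact_mod_cast sum_NE_cmk (G := G) (K := K) (U := S \ K)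
    rw [← mul_sum, sum_add_distrib, sum_const, nsmul_eq_mul, h3] at h4
    rw [← h5]
    refine le_trans (le_of_eq ?_) h4
    rw [hB]
    push_cast
    ring
  -- every missing pair is charged to a point of `P`
  have htot : ∑ u ∈ S \ K, ∑ v ∈ S \ K, (cmk G K u v : ℤ) =
      ∑ u ∈ P, ∑ v ∈ S \ K, (if dg G K v = 1 then 2 else 1 : ℤ) * cmk G K u v := by
    set O := (S \ K).filter (fun v => ¬ 2 ≤ dg G K v) with hO
    have hO1 : ∀ v ∈ O, v ∈ S \ K ∧ dg G K v = 1 := by
      intro v hv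
      obtain ⟨h4, h5⟩ := mem_filter.1 hv
      have := hk1 v h4
      exact ⟨h4, by omega⟩
    have split : ∀ f : V → ℤ, ∑ v ∈ S \ K, f v = ∑ v ∈ P, f v + ∑ v ∈ O, f v := fun f =>
      (sum_filter_add_sum_filter_not _ _ _).symm
    have h4 : ∑ u ∈ O, ∑ v ∈ S \ K, (cmk G K u v : ℤ) = ∑ u ∈ P, ∑ v ∈ O, (cmk G K u v : ℤ) := by
      have h5 : ∀ u ∈ O, ∑ v ∈ S \ K, (cmk G K u v : ℤ) = ∑ v ∈ P, (cmk G K v u : ℤ) := by
        intro u hu
        rw [split]
        have h6 : ∑ v ∈ O, (cmk G K u v : ℤ) = 0 := by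
          refine sum_eq_zero fun v hv => ?_
          have := h.cmk_one hK hi h3 (hO1 u hu).1 (hO1 v hv).1 (hO1 u hu).2 (hO1 v hv).2
          rw [this]
          rfl
        rw [h6, add_zero]
        exact sum_congr rfl fun v _ => by rw [cmk_comm]
      rw [sum_congr rfl h5, sum_comm]
    rw [split, h4, ← sum_add_distrib]
    refine sum_congr rfl fun u _ => ?_
    rw [split, split (fun v => (if dg G K v = 1 then 2 else 1 : ℤ) * cmk G K u v)]
    have h5 : ∑ v ∈ P, (if dg G K v = 1 then 2 else 1 : ℤ) * cmk G K u v =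
        ∑ v ∈ P, (cmk G K u v : ℤ) := by
      refine sum_congr rfl fun v hv => ?_
      have := (mem_filter.1 hv).2
      rw [if_neg (by omega), one_mul]
    have h6 : ∑ v ∈ O, (if dg G K v = 1 then 2 else 1 : ℤ) * cmk G K u v =
        2 * ∑ v ∈ O, (cmk G K u v : ℤ) := by
      rw [mul_sum]
      refine sum_congr rfl fun v hv => ?_
      rw [if_pos (hO1 v hv).2]
    rw [h5, h6]
    ring
  have hup : ∑ u ∈ P, ∑ v ∈ S \ K, (if dg G K v = 1 then 2 else 1 : ℤ) * cmk G K u v ≤
      ∑ u ∈ P, ((dg G K u : ℤ) - 1) * (2 * ((r : ℤ) - 1) + B - 1) :=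
    sum_le_sum fun u hu => h.load hr hP hK hi h3 (mem_filter.1 hu).1 (mem_filter.1 hu).2 hB5 hPQ
  rw [← sum_mul, hsum] at hup
  rw [htot] at hlow
  nlinarith

/-- replacing the point `z` of the triple by a point without slack of its row -/
lemma Tri.swap_to (h : Tri G r S C) (hr : 7 ≤ r) (hP : PG G r) {K : Finset V} (hK : K ⊆ C)
    (hi : Ind G K) (h3 : K.card = 3) {z : V} (hz : z ∈ K) {Q : Finset V} (hQ : Q ⊆ C)
    (hQz : ∀ c ∈ Q, c ≠ z → G.Adj c z) {b : ℕ}
    (hb : ((Q.erase z).filter fun c => ∃ k ∈ K.erase z, G.Adj c k).card ≤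
      b + ∑ x ∈ K, sg G r S C x) (h7 : b + 7 ≤ Q.card) :
    ∃ K' : Finset V, K' ⊆ C ∧ Ind G K' ∧ K'.card = 3 ∧ K.erase z ⊆ K' ∧
      ∑ v ∈ K', sg G r S C v = ∑ v ∈ K, sg G r S C v - sg G r S C z := by
  obtain ⟨c, hc, hcK, hcn, hc0⟩ := h.swap hr hP hK hi hz hQ hQz hb h7
  refine ⟨insert c (K.erase z), insert_subset (hQ hc) ((erase_subset _ _).trans hK),
    Ind.insert_of G (fun a ha b hb => hi a (mem_of_mem_erase ha) b (mem_of_mem_erase hb)) hcn, ?_,
    subset_insert _ _, ?_⟩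
  · rw [card_insert_of_notMem hcK, card_erase_of_mem hz, h3]
  · rw [sum_insert hcK, hc0, zero_add, ← add_sum_erase K _ hz]
    ring

/-- **no closed system with three rows in which every independent set of four points consists of
doubles** -/
theorem Tri.false (hr : 17 ≤ r) (hP : PG G r) (h : Tri G r S C) {A : Finset V} (hA : A ⊆ C)
    (hi : Ind G A) (h3 : A.card = 3) (h1 : ∀ c ∈ C, c ∉ A → dg G A c ≤ 1) : False := by
  have hr7 : 7 ≤ r := by omega
  have hAS := hA.trans h.sub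
  set Q : V → Finset V := fun x => C.filter (fun c => c = x ∨ G.Adj c x) with hQ
  have hQC : ∀ x, Q x ⊆ C := fun x => filter_subset _ _
  have hQz : ∀ x, ∀ c ∈ Q x, c ≠ x → G.Adj c x := by
    intro x c hc hne
    exact (mem_filter.1 hc).2.resolve_left hne
  have hQA : ∀ x ∈ A, ∀ c ∈ Q x, c ≠ x → c ∈ S \ A ∧ dg G A c = 1 := by
    intro x hx c hc hne
    have h4 : c ∉ A := fun h' => hi c h' x hx (hQz x c hc hne)
    have h5 : c ∈ S \ A := mem_sdiff.2 ⟨h.sub (hQC x hc), h4⟩
    have h6 := h.k_pos hA hi h3 h5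
    have h7 := h1 c (hQC x hc) h4
    exact ⟨h5, by omega⟩
  have hQn : ∀ x ∈ A, ∀ c ∈ Q x, ∀ k ∈ A, k ≠ x → ¬ G.Adj c k := by
    intro x hx c hc k hk hkx hck
    by_cases hcx : c = x
    · rw [hcx] at hck
      exact hi x hx k hk hck
    · obtain ⟨-, h6⟩ := hQA x hx c hc hcx
      obtain ⟨a, ha⟩ := card_eq_one.1 h6
      have h7 : x ∈ A.filter (fun y => G.Adj c y) := mem_filter.2 ⟨hx, hQz x c hc hcx⟩
      have h8 : k ∈ A.filter (fun y => G.Adj c y) := mem_filter.2 ⟨hk, hck⟩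
      rw [ha, mem_singleton] at h7 h8
      exact hkx (h8.trans h7.symm)
  have hQclq : ∀ x ∈ A, Clq G (Q x) := by
    intro x hx c hc d hd hcd
    by_cases hcx : c = x
    · subst hcx
      exact (hQz c d hd (Ne.symm hcd)).symm
    by_cases hdx : d = x
    · subst hdx
      exact hQz d c hc hcd
    obtain ⟨h4, h5⟩ := hQA x hx c hc hcx
    obtain ⟨h6, h7⟩ := hQA x hx d hd hdx
    exact h.priv_adj hA hi h3 h4 h6 h5 h7 hx (hQz x c hc hcx) (hQz x d hd hdx) hcd
  have hQle : ∀ x ∈ A, (Q x).card ≤ r - 1 := fun x hx =>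
    h.clq _ ((hQC x).trans h.sub) (hQclq x hx)
  have hcov : C.card ≤ ∑ x ∈ A, (Q x).card := by
    refine le_trans (card_le_card fun c hc => ?_) card_biUnion_le
    rw [mem_biUnion]
    by_cases hcA : c ∈ A
    · exact ⟨c, hcA, mem_filter.2 ⟨hc, Or.inl rfl⟩⟩
    · obtain ⟨x, hx⟩ := card_pos.1 (h.k_pos hA hi h3 (mem_sdiff.2 ⟨h.sub hc, hcA⟩))
      rw [mem_filter] at hx
      exact ⟨x, hx.1, mem_filter.2 ⟨hc, Or.inr hx.2⟩⟩
  -- `x` is the smallest row, `z` the largest of the other two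
  obtain ⟨x, hx, hmin⟩ := exists_min_image A (fun x => (Q x).card) (card_pos.1 (by omega))
  have h4 : (A.erase x).card = 2 := by rw [card_erase_of_mem hx]; omega
  obtain ⟨z, hz', hmax⟩ := exists_max_image (A.erase x) (fun x => (Q x).card)
    (card_pos.1 (by omega))
  have h5 : ((A.erase x).erase z).card = 1 := by rw [card_erase_of_mem hz']; omega
  obtain ⟨y, hy0⟩ := card_eq_one.1 h5
  have hy'' : y ∈ (A.erase x).erase z := by rw [hy0]; simp
  obtain ⟨hyz, hy'⟩ := mem_erase.1 hy''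
  have he : A.erase x = {z, y} := by rw [← insert_erase hz', hy0]
  obtain ⟨hyx, hy⟩ := mem_erase.1 hy'
  obtain ⟨hzx, hz⟩ := mem_erase.1 hz'
  have hsum : ∀ f : V → ℕ, ∑ v ∈ A, f v = f x + (f z + f y) := by
    intro f
    rw [← add_sum_erase A f hx, he, sum_pair hyz.symm]
  rw [hsum] at hcov
  have hbig := h.big
  have hqz := hQle z hz
  have hmy := hmin y hy
  have hmz := hmax y hy'
  have hy12 : 2 + 7 ≤ (Q y).card := by omega
  have hz12 : 5 + 7 ≤ (Q z).card := by omega
  have hx3 : 3 ≤ (Q x).card := by omega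
  -- a point of the smallest row with slack at most one
  obtain ⟨c, hc, hc1⟩ : ∃ c ∈ Q x, sg G r S C c ≤ 1 := by
    by_contra hcon
    push Not at hcon
    have h5 : ∑ c ∈ Q x, (2 : ℤ) ≤ ∑ c ∈ Q x, sg G r S C c :=
      sum_le_sum fun c hc => by have := hcon c hc; omega
    have h6 : ∑ c ∈ Q x, sg G r S C c ≤ ∑ c ∈ S, sg G r S C c :=
      sum_le_sum_of_subset_of_nonneg ((hQC x).trans h.sub) fun v hv _ => h.sg_nonneg hr7 hP hv
    have h7 := h.sum_sg hP
    rw [sum_const, nsmul_eq_mul] at h5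
    have h8 : (3 : ℤ) ≤ (Q x).card := by exact_mod_cast hx3
    linarith
  have hcn : ∀ k ∈ A.erase x, ¬ G.Adj c k := fun k hk =>
    hQn x hx c hc k (mem_of_mem_erase hk) (ne_of_mem_erase hk)
  have hcA : c ∉ A.erase x := by
    intro h'
    obtain ⟨h5, h6⟩ := mem_erase.1 h'
    exact (mem_sdiff.1 (hQA x hx c hc h5).1).2 h6
  -- two swaps
  have hK1 : insert c (A.erase x) ⊆ C := insert_subset (hQC x hc) ((erase_subset _ _).trans hA)
  have hi1 : Ind G (insert c (A.erase x)) :=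
    Ind.insert_of G (fun a ha b hb => hi a (mem_of_mem_erase ha) b (mem_of_mem_erase hb)) hcn
  have hc1' : (insert c (A.erase x)).card = 3 := by
    rw [card_insert_of_notMem hcA, h4]
  have hs1 : ∑ v ∈ insert c (A.erase x), sg G r S C v =
      sg G r S C c + (sg G r S C z + sg G r S C y) := by
    rw [sum_insert hcA, he, sum_pair hyz.symm]
  obtain ⟨K2, hK2, hi2, hc2, hsub2, hs2⟩ := h.swap_to hr7 hP hK1 hi1 hc1'
    (mem_insert_of_mem hy') (hQC y) (hQz y)
    (h.adj_le' hr7 hP hK1 hi1 hc1' (mem_insert_of_mem hy') (mem_insert_of_mem hz') (hQC y) (hQz y)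
      (fun d hd _ => hQn y hy d hd z hz hyz.symm)) hy12
  have hzK2 : z ∈ K2 := hsub2 (mem_erase.2 ⟨hyz.symm, mem_insert_of_mem hz'⟩)
  obtain ⟨K3, hK3, hi3, hc3, -, hs3⟩ := h.swap_to hr7 hP hK2 hi2 hc2 hzK2 (hQC z) (hQz z)
    (h.adj_le hK2 hi2 hc2 hzK2 (hQC z) (hQz z)) hz12
  have hfin := h.ineq hr7 hP hK3 hi3 hc3 rfl
  have hs : ∑ v ∈ K3, sg G r S C v = sg G r S C c := by
    rw [hs3, hs2, hs1]
    ring
  have hc0 := h.sg_nonneg hr7 hP (h.sub (hQC x hc))
  rw [hs] at hfin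
  have hrz : (17 : ℤ) ≤ r := by exact_mod_cast hr
  nlinarith

variable {Z T : Finset V} {m t : ℕ}

/-- **no `3`-closed system with three rows and `3 r + 1` points** (at most `r` doubles) -/
theorem HSys.card_ne_three (hr : 17 ≤ r) (hP : PG G r) (hF : S2 G r m t Z T) (hm : m ≤ r)
    {A S : Finset V} (h : HSys G Z T A S) (h3 : A.card = 3)
    (hj : ∀ I : Finset V, I ⊆ S → Ind G I → (I.filter fun v => v ∈ BB G Z T).card ≤ 3 →
      I.card ≤ 3) : S.card ≤ 3 * r := by
  by_contra hcon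
  obtain ⟨S', hS'1, hS'2, hS'3⟩ := exists_subsuperset_card_eq h.ctr
    (show A.card ≤ 3 * r + 1 by omega) (show 3 * r + 1 ≤ S.card by omega)
  have h' := h.mono hS'2 hS'1
  have hAT := h.sub
  refine Tri.false hr hP (S := S') (C := S'.filter fun v => v ∉ BB G Z T) (A := A) ?_ ?_ ?_ h3 ?_
  · refine ⟨hS'3, filter_subset _ _, ?_, ?_, fun K hK hq => h'.omega hF hK hq⟩
    · have h4 := card_filter_add_card_filter_not (s := S') (fun v => v ∈ BB G Z T)
      have h5 : (S'.filter fun v => v ∈ BB G Z T).card ≤ (BB G Z T).card :=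
        card_le_card fun v hv => (mem_filter.1 hv).2
      have h6 := hF.b
      omega
    · intro I hI hIi hI4 c hc hcC
      have h4 : (I.filter fun v => v ∈ BB G Z T).card ≤ 3 := by
        have h5 : I.filter (fun v => v ∈ BB G Z T) ⊆ I.erase c := by
          intro v hv
          obtain ⟨h6, h7⟩ := mem_filter.1 hv
          exact mem_erase.2 ⟨fun he => (mem_filter.1 hcC).2 (he ▸ h7), h6⟩
        have h6 := card_le_card h5
        rw [card_erase_of_mem hc] at h6
        omega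
      have h5 := hj I (hI.trans hS'2) hIi h4
      omega
  · intro x hx
    refine mem_filter.2 ⟨hS'1 hx, fun hB => ?_⟩
    exact (mem_BB.1 hB).1.2 (hAT hx)
  · exact fun x hx y hy => hF.ind x (hAT hx) y (hAT hy)
  · intro c hc hcA
    obtain ⟨hcS, hcB⟩ := mem_filter.1 hc
    have hcZ := h'.subZ hcS
    have h4 : dg G A c ≤ dg G T c := dg_mono G hAT c
    by_cases hcT : c ∈ T
    · have h5 : dg G T c = 0 := by
        unfold dg
        rw [card_eq_zero, filter_eq_empty_iff]
        exact fun y hy => hF.ind c hcT y hy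
      omega
    · have h5 := hF.k2 c (mem_sdiff.2 ⟨hcZ, hcT⟩)
      have h6 : dg G T c ≠ 2 := fun h' => hcB (mem_BB.2 ⟨⟨hcZ, hcT⟩, h'⟩)
      omega

end J3

end Pool.Agent.Lib.MP_f04ccf_co
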