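import Pool.Agent.Lib.MP_f04ccf_co.M.TabX

/-!
MP_f04ccf_co, TEXT D, regime H: **the prices of the units of one hub-hosted item.**

* `Kc v = ∑ kapR k` over `k = 1 .. v`: `4/5, 57/40, 79/40, 99/40, 119/40, 139/40`, then `+ 9/20`;
* `sum_rank_le`: the ranks of the elements of a finite set are at least `1, 2, ..`;
* `LevC.sum_prB`: the prices of all units of one item of value `v ≠ 1` with a cut end are at most
  `(Kc l (1 + γ/4) + (3/10) (v - l)) γ`, `l` the number of its last pieces; `LevC.sum_prB_le`: at most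
  `Kc v (1 + γ/4) γ`; `Kc_le`: `Kc v ≤ (9/20) v + 31/40` and the values.
-/

set_option autoImplicit false

namespace Pool.Agent.Lib.MP_f04ccf_co

open Finset

attribute [local instance] Classical.propDecidable

/-- the sum of the caps of the ranks `1 .. v` -/
noncomputable def Kc (v : ℕ) : ℝ := ∑ k ∈ range v, kapR (k + 1)

lemma Kc_zero : Kc 0 = 0 := by simp [Kc]

lemma Kc_succ (v : ℕ) : Kc (v + 1) = Kc v + kapR (v + 1) := by
  unfold Kc
  rw [sum_range_succ]

lemma Kc_vals : Kc 1 = 4 / 5 ∧ Kc 2 = 57 / 40 ∧ Kc 3 = 79 / 40 ∧ Kc 4 = 99 / 40 ∧ Kc 5 = 119 / 40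
    ∧ Kc 6 = 139 / 40 := by
  simp only [Kc, sum_range_succ, sum_range_zero, kapR]
  norm_num

lemma Kc_six (k : ℕ) : Kc (6 + k) = 139 / 40 + 9 / 20 * k := by
  induction k with
  | zero => simp [Kc_vals.2.2.2.2.2]
  | succ k ih =>
    have e1 : 6 + (k + 1) = (6 + k) + 1 := by ring
    rw [e1, Kc_succ, ih]
    have e2 : kapR (6 + k + 1) = 9 / 20 := by
      unfold kapR
      rw [if_neg (by omega), if_neg (by omega), if_neg (by omega), if_neg (by omega)]
    rw [e2]
    push_cast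
    ring

lemma Kc_nonneg (v : ℕ) : 0 ≤ Kc v :=
  sum_nonneg fun k _ => by have := kapR_ge (k + 1); linarith

lemma Kc_le (v : ℕ) : Kc v ≤ 9 / 20 * v + 31 / 40 := by
  rcases lt_or_ge v 6 with h | h
  · have h1 := Kc_vals
    have h2 : v = 0 ∨ v = 1 ∨ v = 2 ∨ v = 3 ∨ v = 4 ∨ v = 5 := by omega
    rcases h2 with h2 | h2 | h2 | h2 | h2 | h2
    · rw [h2, Kc_zero]; norm_num
    · rw [h2, h1.1]; norm_num
    · rw [h2, h1.2.1]; norm_num
    · rw [h2, h1.2.2.1]; norm_num
    · rw [h2, h1.2.2.2.1]; norm_num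
    · rw [h2, h1.2.2.2.2.1]; norm_num
  · obtain ⟨k, rfl⟩ := Nat.exists_eq_add_of_le h
    rw [Kc_six]
    push_cast
    linarith

lemma Kc_add (l m : ℕ) : Kc l + 9 / 20 * m ≤ Kc (l + m) := by
  induction m with
  | zero => simp
  | succ m ih =>
    rw [← add_assoc, Kc_succ]
    have := kapR_ge (l + m + 1)
    push_cast
    linarith

lemma kapR_antitone : Antitone kapR := fun _ _ h => kapR_anti h

/-- **the ranks** of the elements of `L` below `f` are at least `1, 2, ..` -/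
lemma sum_rank_le {κ : ℕ → ℝ} (hκ : Antitone κ) (φ : ℕ → ℤ) (f : ℕ) (L : Finset ℕ) :
    f ∉ L → (∀ i ∈ L, φ i ≤ φ f) →
    ∑ i ∈ L, κ (((insert f L).filter fun j => j ≠ i ∧ φ i ≤ φ j).card)
      ≤ ∑ k ∈ range L.card, κ (k + 1) := by
  refine Finset.induction_on_min_value φ L ?_ ?_
  · intro _ _
    simp
  · intro a s ha hmin ih hf hφ
    have hfs : f ∉ s := fun h => hf (mem_insert_of_mem h)
    have hfa : f ≠ a := fun h => hf (by rw [h]; exact mem_insert_self a s)
    have h1 := ih hfs fun i hi => hφ i (mem_insert_of_mem hi)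
    rw [sum_insert ha, card_insert_of_notMem ha, sum_range_succ]
    have h2 : ((insert f (insert a s)).filter fun j => j ≠ a ∧ φ a ≤ φ j) = insert f s := by
      ext j
      simp only [mem_filter, mem_insert]
      constructor
      · rintro ⟨h3 | h3 | h3, h4, -⟩
        · exact Or.inl h3
        · exact absurd h3 h4
        · exact Or.inr h3
      · rintro (h3 | h3)
        · exact ⟨Or.inl h3, by rw [h3]; exact hfa, by rw [h3]; exact hφ a (mem_insert_self a s)⟩
        · exact ⟨Or.inr (Or.inr h3), fun h4 => ha (h4 ▸ h3), hmin j h3⟩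
    rw [h2, card_insert_of_notMem hfs]
    have h3 : ∑ i ∈ s, κ (((insert f (insert a s)).filter fun j => j ≠ i ∧ φ i ≤ φ j).card)
        ≤ ∑ i ∈ s, κ (((insert f s).filter fun j => j ≠ i ∧ φ i ≤ φ j).card) := by
      refine sum_le_sum fun i _ => hκ (card_le_card (filter_subset_filter _ ?_))
      exact insert_subset_insert _ (subset_insert _ _)
    linarith

section KapS

variable {ι : Type*} {R : ℤ} {n : ℕ} {t s mu : ℕ → ℤ} {U : Finset ι} {ho : ι → ℕ} {vl : ι → ℤ}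
  {kp mn : ℕ → ι → ℤ} {pc ar : ι → ℤ} {be kq NN sg : ℕ → ℕ → ℤ} {nu : ℕ → ι → ℤ}
  {g : ℕ → ι → ℕ} {f : ι → ℕ}

/-- the last pieces of the ends of the item `u` -/
noncomputable def laU (n : ℕ) (U : Finset ι) (kp : ℕ → ι → ℤ) (g : ℕ → ι → ℕ) (u : ι) :
    Finset (ι × ℕ × ℕ) :=
  (unV n U g).filter fun v => v.1 = u ∧ (kp v.2.1 v.1 ≤ (g v.2.1 v.1 : ℤ) ∧ v.2.2 + 1 = g v.2.1 v.1)

/-- **the prices of the units of one item, value `≠ 1`** -/
theorem LevC.sum_prB (C : LevC n U ho vl kp mn pc (phiX R t ho mn) g f)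
    (H : PCon R n t s mu U ho vl kp mn pc ar be kq NN sg nu) {u : ι} (hu : u ∈ U)
    (h1 : vl u ≠ 1) (h0 : 0 ≤ gaX R t) :
    ∑ v ∈ (unV n U g).filter (fun v => v.1 = u), prB R n t ho vl kp mn be g f v
      ≤ (Kc (laU n U kp g u).card * (1 + gaX R t / 4)
        + 3 / 10 * ((vl u : ℝ) - (laU n U kp g u).card)) * gaX R t := by
  have htyp : (g (f u) u : ℤ) + 1 = kp (f u) u ∧ (∀ i < n, i ≠ f u → (g i u : ℤ) = kp i u) ∧
      ∀ i < n, kp i u ≠ 0 → phiX R t ho mn u i ≤ phiX R t ho mn u (f u) := by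
    rcases C.typ u hu with ⟨h2, -⟩ | ⟨-, h3, h4, h5⟩
    · exact absurd h2 h1
    · exact ⟨h3, h4, h5⟩
  obtain ⟨hcut, hg, hmax⟩ := htyp
  have hsplit : ∑ v ∈ (unV n U g).filter (fun v => v.1 = u), prB R n t ho vl kp mn be g f v
      = ∑ v ∈ laU n U kp g u, prB R n t ho vl kp mn be g f v
        + ∑ v ∈ ((unV n U g).filter (fun v => v.1 = u)).filter
          (fun v => ¬ (kp v.2.1 v.1 ≤ (g v.2.1 v.1 : ℤ) ∧ v.2.2 + 1 = g v.2.1 v.1)),
          prB R n t ho vl kp mn be g f v := by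
    rw [← sum_filter_add_sum_filter_not ((unV n U g).filter (fun v => v.1 = u))
      (fun v => kp v.2.1 v.1 ≤ (g v.2.1 v.1 : ℤ) ∧ v.2.2 + 1 = g v.2.1 v.1), filter_filter]
    rfl
  -- the last pieces
  set La := laU n U kp g u with hLa
  have hLm : ∀ v ∈ La, v ∈ unV n U g ∧ v.1 = u ∧ kp v.2.1 v.1 ≤ (g v.2.1 v.1 : ℤ)
      ∧ v.2.2 + 1 = g v.2.1 v.1 := by
    intro v hv
    rw [hLa] at hv
    obtain ⟨h2, h3, h4, h5⟩ := mem_filter.1 hv
    exact ⟨h2, h3, h4, h5⟩
  have hinj : Set.InjOn (fun v : ι × ℕ × ℕ => v.2.1) La := by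
    intro v hv w hw hvw
    obtain ⟨-, h3, -, h5⟩ := hLm v hv
    obtain ⟨-, g3, -, g5⟩ := hLm w hw
    have e1 : v.2.1 = w.2.1 := hvw
    have e2 : v.1 = w.1 := h3.trans g3.symm
    rw [e1, e2] at h5
    have e3 : v.2.2 = w.2.2 := by omega
    exact Prod.ext e2 (Prod.ext e1 e3)
  set L : Finset ℕ := La.image fun v => v.2.1 with hL
  have hLc : L.card = La.card := card_image_of_injOn hinj
  have hLf : ∀ i ∈ L, i < n ∧ i ≠ f u ∧ kp i u ≠ 0 := by
    intro i hi
    obtain ⟨v, hv, rfl⟩ := mem_image.1 hi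
    obtain ⟨h2, h3, h4, h5⟩ := hLm v hv
    obtain ⟨-, h7, h8⟩ := LevC.mem_unV h2
    rw [h3] at h4 h8
    refine ⟨h7, fun h => ?_, fun h => ?_⟩
    · rw [h] at h4
      omega
    · by_cases h9 : v.2.1 = f u
      · rw [h9] at h4
        omega
      · have := hg _ h7 h9
        omega
  have hfL : f u ∉ L := fun h => (hLf _ h).2.1 rfl
  have hsum := sum_rank_le kapR_antitone (phiX R t ho mn u) (f u) L hfL
    (fun i hi => hmax i (hLf i hi).1 (hLf i hi).2.2)
  have hlast : ∑ v ∈ La, prB R n t ho vl kp mn be g f v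
      ≤ Kc La.card * (1 + gaX R t / 4) * gaX R t := by
    have e1 : ∑ v ∈ La, prB R n t ho vl kp mn be g f v
        ≤ ∑ v ∈ La, kapR (((insert (f u) L).filter
          fun j => j ≠ v.2.1 ∧ phiX R t ho mn u v.2.1 ≤ phiX R t ho mn u j).card)
            * ((1 + gaX R t / 4) * gaX R t) := by
      refine sum_le_sum fun v hv => ?_
      obtain ⟨h2, h3, h4, h5⟩ := hLm v hv
      have hv1 : vl v.1 ≠ 1 := by rw [h3]; exact h1
      refine (prB_cl_le h0 hv1).trans ?_
      rw [mul_assoc]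
      refine mul_le_mul_of_nonneg_right (kapR_anti ?_) (mul_nonneg (by linarith) h0)
      unfold rkB
      refine card_le_card fun j hj => ?_
      obtain ⟨h6, h7, h8⟩ := mem_filter.1 hj
      rw [h3]
      rcases mem_insert.1 h6 with h9 | h9
      · rw [h9] at h7 h8 ⊢
        exact mem_filter.2 ⟨mem_range.2 (C.fn u hu), h7, by have := C.f1 u hu; omega, h8⟩
      · exact mem_filter.2 ⟨mem_range.2 (hLf j h9).1, h7, (hLf j h9).2.2, h8⟩
    refine e1.trans ?_
    rw [← sum_mul, mul_assoc]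
    refine mul_le_mul_of_nonneg_right ?_ (mul_nonneg (by linarith) h0)
    have e2 : ∑ v ∈ La, kapR (((insert (f u) L).filter
          fun j => j ≠ v.2.1 ∧ phiX R t ho mn u v.2.1 ≤ phiX R t ho mn u j).card)
        = ∑ i ∈ L, kapR (((insert (f u) L).filter
          fun j => j ≠ i ∧ phiX R t ho mn u i ≤ phiX R t ho mn u j).card) := by
      rw [hL, sum_image hinj]
    rw [e2]
    rw [hLc] at hsum
    exact hsum
  have hcard : (((unV n U g).filter (fun v => v.1 = u)).filter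
      (fun v => ¬ (kp v.2.1 v.1 ≤ (g v.2.1 v.1 : ℤ) ∧ v.2.2 + 1 = g v.2.1 v.1))).card + La.card
      = ((unV n U g).filter (fun v => v.1 = u)).card := by
    have e1 := card_filter_add_card_filter_not (s := (unV n U g).filter (fun v => v.1 = u))
      (fun v => kp v.2.1 v.1 ≤ (g v.2.1 v.1 : ℤ) ∧ v.2.2 + 1 = g v.2.1 v.1)
    have e2 : ((unV n U g).filter (fun v => v.1 = u)).filter
        (fun v => kp v.2.1 v.1 ≤ (g v.2.1 v.1 : ℤ) ∧ v.2.2 + 1 = g v.2.1 v.1) = La := by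
      rw [hLa, filter_filter]
      rfl
    rw [e2] at e1
    omega
  have hvl : (((unV n U g).filter fun v => v.1 = u).card : ℤ) = vl u := C.val H hu
  have hfirst : ∑ v ∈ ((unV n U g).filter (fun v => v.1 = u)).filter
      (fun v => ¬ (kp v.2.1 v.1 ≤ (g v.2.1 v.1 : ℤ) ∧ v.2.2 + 1 = g v.2.1 v.1)),
      prB R n t ho vl kp mn be g f v ≤ 3 / 10 * ((vl u : ℝ) - La.card) * gaX R t := by
    have e1 : ∀ v ∈ ((unV n U g).filter (fun v => v.1 = u)).filter
        (fun v => ¬ (kp v.2.1 v.1 ≤ (g v.2.1 v.1 : ℤ) ∧ v.2.2 + 1 = g v.2.1 v.1)),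
        prB R n t ho vl kp mn be g f v ≤ 3 / 10 * gaX R t := by
      intro v hv
      obtain ⟨h2, h3⟩ := mem_filter.1 hv
      obtain ⟨-, h4⟩ := mem_filter.1 h2
      rw [prB_first (by rw [h4]; exact h1) h3]
    refine (sum_le_card_nsmul _ _ _ e1).trans (le_of_eq ?_)
    rw [nsmul_eq_mul]
    have e2 : ((((unV n U g).filter (fun v => v.1 = u)).filter
        (fun v => ¬ (kp v.2.1 v.1 ≤ (g v.2.1 v.1 : ℤ) ∧ v.2.2 + 1 = g v.2.1 v.1))).card : ℝ)
        = (vl u : ℝ) - La.card := by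
      have h2 : (((unV n U g).filter fun v => v.1 = u).card : ℝ) = vl u := by exact_mod_cast hvl
      have h3 : ((((unV n U g).filter (fun v => v.1 = u)).filter
        (fun v => ¬ (kp v.2.1 v.1 ≤ (g v.2.1 v.1 : ℤ) ∧ v.2.2 + 1 = g v.2.1 v.1))).card : ℝ)
        + La.card = (((unV n U g).filter fun v => v.1 = u).card : ℝ) := by exact_mod_cast hcard
      linarith
    rw [e2]
    ring
  rw [hsplit]
  linarith

/-- **the prices of the units of one item, value `≠ 1`**: at most `Kc v (1 + γ/4) γ` -/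
theorem LevC.sum_prB_le (C : LevC n U ho vl kp mn pc (phiX R t ho mn) g f)
    (H : PCon R n t s mu U ho vl kp mn pc ar be kq NN sg nu) {u : ι} (hu : u ∈ U)
    (h1 : vl u ≠ 1) (h0 : 0 ≤ gaX R t) :
    ∑ v ∈ (unV n U g).filter (fun v => v.1 = u), prB R n t ho vl kp mn be g f v
      ≤ Kc (vl u).toNat * (1 + gaX R t / 4) * gaX R t := by
  refine (C.sum_prB H hu h1 h0).trans (mul_le_mul_of_nonneg_right ?_ h0)
  set l := (laU n U kp g u).card with hl
  have hvl : (((unV n U g).filter fun v => v.1 = u).card : ℤ) = vl u := C.val H hu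
  have hle : l ≤ ((unV n U g).filter fun v => v.1 = u).card := by
    rw [hl]
    refine card_le_card fun v hv => ?_
    obtain ⟨h2, h3, -⟩ := mem_filter.1 hv
    exact mem_filter.2 ⟨h2, h3⟩
  obtain ⟨m, hm⟩ := Nat.exists_eq_add_of_le hle
  have e1 : (vl u).toNat = l + m := by omega
  have e2 : (vl u : ℝ) = (l : ℝ) + m := by
    have : (vl u : ℤ) = (l : ℤ) + m := by rw [← hvl, hm]; push_cast; ring
    exact_mod_cast this
  rw [e1, e2]
  have h2 := Kc_add l m
  have h3 : (0 : ℝ) ≤ m := Nat.cast_nonneg m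
  have h4 : 0 ≤ 1 + gaX R t / 4 := by linarith
  have h5 : (Kc l + 9 / 20 * m) * (1 + gaX R t / 4) ≤ Kc (l + m) * (1 + gaX R t / 4) :=
    mul_le_mul_of_nonneg_right h2 h4
  have h6 : 0 ≤ 9 / 20 * (m : ℝ) * (gaX R t / 4) := by positivity
  nlinarith

/-- **the price of an item of value one** -/
theorem LevC.sum_prB_one (C : LevC n U ho vl kp mn pc (phiX R t ho mn) g f)
    (H : PCon R n t s mu U ho vl kp mn pc ar be kq NN sg nu) {u : ι} (hu : u ∈ U)
    (h1 : vl u = 1) (h0 : 0 ≤ gaX R t) :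
    ∑ v ∈ (unV n U g).filter (fun v => v.1 = u), prB R n t ho vl kp mn be g f v
      ≤ 9 / 10 * gaX R t := by
  have hvl : (((unV n U g).filter fun v => v.1 = u).card : ℤ) = vl u := C.val H hu
  have h2 : ((unV n U g).filter fun v => v.1 = u).card = 1 := by omega
  refine (sum_le_card_nsmul _ _ (9 / 10 * gaX R t) fun v hv => ?_).trans (le_of_eq ?_)
  · obtain ⟨-, h3⟩ := mem_filter.1 hv
    exact prB_one_le h0 (by rw [h3]; exact h1)
  · rw [h2, one_smul]

end KapS

end Pool.Agent.Lib.MP_f04ccf_co
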