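import Mathlib.Data.List.GetD
import Mathlib.Data.Bool.Basic
import Mathlib.Tactic.Linarith

/-!
MP_f04ccf_co, TEXT D, the middle range: **a tree of boxes, generic, for the kernel.**

* `KdT.T α β`: leaf with data `α` | split of the dimension `i` at `m` (left: `σ i ≤ m`, right: `m + 1 ≤ σ i`) |
  `env b t`: build a new environment from the data `b` (coarse box: filtered list of contents, vectors) for the
  subtree `t`;
* boxes are two lists `lo`, `hi` of naturals; `KdT.setC` (continuation form, no growing terms);
* `KdT.chk leafOk mkE t e lo hi`; `mkE` in continuation form, so that the new environment is evaluated once;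
* `KdT.chk_node`: a split node from two checks done in two modules (each subtree starts with its own `env`);
* `KdT.chk_sound`: for ONE state `σ` (the state of the true row), any invariant `J` of environments and any claim `C`:
  if `mkE` keeps the invariant and `leafOk` proves the claim for the boxes which contain `σ`, then
  `chk .. = true`, `σ` in the box and `J e` give `C`.
-/

set_option autoImplicit false

namespace Pool.Agent.Lib.MP_f04ccf_co

namespace KdT

/-- the tree -/
inductive T (α β : Type) : Type where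
  | leaf : α → T α β
  | node : ℕ → ℕ → T α β → T α β → T α β
  | env : β → T α β → T α β

/-- replace the entry `i` by `m`, continuation form -/
def setC {γ : Type} : List ℕ → ℕ → ℕ → (List ℕ → γ) → γ
  | [], _, _, k => k []
  | _ :: l, 0, m, k => k (m :: l)
  | x :: l, i + 1, m, k => setC l i m (fun l' => k (x :: l'))

lemma setC_eq {γ : Type} : ∀ (l : List ℕ) (i m : ℕ) (k : List ℕ → γ),
    setC l i m k = k (l.set i m)
  | [], _, _, _ => rfl
  | _ :: _, 0, _, _ => rfl
  | x :: l, i + 1, m, k => by
    show setC l i m (fun l' => k (x :: l')) = k (x :: l.set i m)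
    rw [setC_eq l i m]

/-- the state is above the lower ends -/
def Lo (σ : ℕ → ℕ) (l : List ℕ) : Prop := ∀ i, i < l.length → l.getD i 0 ≤ σ i

/-- the state is below the upper ends -/
def Hi (σ : ℕ → ℕ) (l : List ℕ) : Prop := ∀ i, i < l.length → σ i ≤ l.getD i 0

lemma getD_set (l : List ℕ) (i m j : ℕ) (hj : j < l.length) :
    (l.set i m).getD j 0 = if i = j then m else l.getD j 0 := by
  rw [List.getD_eq_getElem _ _ (by rw [List.length_set]; exact hj), List.getD_eq_getElem _ _ hj,
    List.getElem_set]

lemma Hi.set {σ : ℕ → ℕ} {l : List ℕ} (h : Hi σ l) {i m : ℕ} (hm : σ i ≤ m) : Hi σ (l.set i m) := by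
  intro j hj
  rw [List.length_set] at hj
  rw [getD_set l i m j hj]
  by_cases c : i = j
  · rw [if_pos c, ← c]
    exact hm
  · rw [if_neg c]
    exact h j hj

lemma Lo.set {σ : ℕ → ℕ} {l : List ℕ} (h : Lo σ l) {i m : ℕ} (hm : m ≤ σ i) : Lo σ (l.set i m) := by
  intro j hj
  rw [List.length_set] at hj
  rw [getD_set l i m j hj]
  by_cases c : i = j
  · rw [if_pos c, ← c]
    exact hm
  · rw [if_neg c]
    exact h j hj

section

variable {α β ε : Type}

/-- **the check of a tree** -/
noncomputable def chk (leafOk : ε → List ℕ → List ℕ → α → Bool)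
    (mkE : ε → List ℕ → List ℕ → β → (ε → Bool) → Bool) (t : T α β) :
    ε → List ℕ → List ℕ → Bool :=
  T.rec (motive := fun _ => ε → List ℕ → List ℕ → Bool)
    (fun a e lo hi => leafOk e lo hi a)
    (fun i m _ _ cl cr e lo hi =>
      bif setC hi i m (fun hi' => cl e lo hi') then setC lo i (Nat.succ m) (fun lo' => cr e lo' hi)
      else false)
    (fun b _ ct e lo hi => mkE e lo hi b (fun e' => ct e' lo hi)) t

/-- **two subtrees from two modules** -/
theorem chk_node {leafOk : ε → List ℕ → List ℕ → α → Bool}
    {mkE : ε → List ℕ → List ℕ → β → (ε → Bool) → Bool} {i m : ℕ} {l r : T α β} {e : ε}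
    {lo hi lo' hi' : List ℕ} (hh : hi.set i m = hi') (hl : lo.set i (Nat.succ m) = lo')
    (h1 : chk leafOk mkE l e lo hi' = true) (h2 : chk leafOk mkE r e lo' hi = true) :
    chk leafOk mkE (T.node i m l r) e lo hi = true := by
  have h3 : chk leafOk mkE (T.node i m l r) e lo hi
      = bif setC hi i m (fun hi' => chk leafOk mkE l e lo hi')
        then setC lo i (Nat.succ m) (fun lo' => chk leafOk mkE r e lo' hi) else false := rfl
  rw [h3, setC_eq, setC_eq, hh, hl, h1, h2]
  rfl

/-- **soundness**, for the state `σ` of the true row -/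
theorem chk_sound {leafOk : ε → List ℕ → List ℕ → α → Bool}
    {mkE : ε → List ℕ → List ℕ → β → (ε → Bool) → Bool} {σ : ℕ → ℕ} {J : ε → Prop} {C : Prop}
    (hE : ∀ e lo hi b, Lo σ lo → Hi σ hi → J e → ∀ k : ε → Bool, mkE e lo hi b k = true →
      ∃ e', J e' ∧ k e' = true)
    (hL : ∀ e lo hi a, Lo σ lo → Hi σ hi → J e → leafOk e lo hi a = true → C) :
    ∀ (t : T α β) (e : ε) (lo hi : List ℕ), Lo σ lo → Hi σ hi → J e →
      chk leafOk mkE t e lo hi = true → C := by
  intro t
  induction t with
  | leaf a =>
    intro e lo hi h1 h2 h3 h4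
    exact hL e lo hi a h1 h2 h3 h4
  | node i m l r ihl ihr =>
    intro e lo hi h1 h2 h3 h4
    have h5 : (bif setC hi i m (fun hi' => chk leafOk mkE l e lo hi')
        then setC lo i (Nat.succ m) (fun lo' => chk leafOk mkE r e lo' hi) else false) = true := h4
    rw [setC_eq, setC_eq] at h5
    rcases h6 : chk leafOk mkE l e lo (hi.set i m) with _ | _
    · rw [h6] at h5
      exact absurd h5 (by simp)
    · rw [h6] at h5
      have h7 : chk leafOk mkE r e (lo.set i (Nat.succ m)) hi = true := h5
      rcases Nat.lt_or_ge m (σ i) with h8 | h8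
      · exact ihr e _ hi (h1.set h8) h2 h3 h7
      · exact ihl e lo _ h1 (h2.set h8) h3 h6
  | env b t ih =>
    intro e lo hi h1 h2 h3 h4
    obtain ⟨e', h5, h6⟩ := hE e lo hi b h1 h2 h3 _
      (show mkE e lo hi b (fun e' => chk leafOk mkE t e' lo hi) = true from h4)
    exact ih e' lo hi h1 h2 h5 h6

end

section test

/-- a small test: `σ 0 * σ 0 ≤ 30` for `σ 0 ≤ 5` by two leaves -/
example : chk (α := ℕ) (β := ℕ) (ε := ℕ)
    (fun _ _ hi a => Nat.ble (Nat.mul (hi.getD 0 0) (hi.getD 0 0)) a)
    (fun e _ _ b k => k (Nat.add e b))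
    (T.node 0 3 (T.leaf 9) (T.env 7 (T.node 0 4 (T.leaf 16) (T.leaf 25)))) 0 [0] [5] = true := by
  decide +kernel

end test

end KdT

end Pool.Agent.Lib.MP_f04ccf_co
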