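import Mathlib

/-!
MP_f04ccf_co: kernel checks (F5).  Verified enumeration of sorted lists of rows.
`Kern.InTab tab l`: the entries of `l` occur in `tab` in this order, repetitions allowed.
`Kern.enum prune step leaf n tab s`: all lists of `n` entries of `tab` in table order, `step` is the
running state (`none`: the branch is closed), `prune` closes a branch from the remaining table;
`Kern.enum_sound`.  `Kern.inTab_of_key`: sorted lists.  `Kern.enumT`: the form with running sums of
`d` natural numbers per entry which must stay below given bounds, `Kern.enumT_sound`.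
`Kern.farkas`: dual certificates.
-/

set_option autoImplicit false

namespace Pool.Agent.Lib.MP_f04ccf_co

namespace Kern

section Enum

variable {α σ : Type*}

/-- the entries of `l` occur in `tab` in this order, repetitions allowed -/
def InTab : List α → List α → Prop
  | _, [] => True
  | tab, a :: l => ∃ suf, (a :: suf) <:+ tab ∧ InTab (a :: suf) l

lemma InTab.mem {tab : List α} : ∀ {l : List α}, InTab tab l → ∀ a ∈ l, a ∈ tab := by
  intro l
  induction l generalizing tab with
  | nil => intro _ a ha; simp at ha
  | cons b l ih =>
    rintro ⟨suf, h1, h2⟩ a ha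
    rcases List.mem_cons.1 ha with rfl | ha
    · exact h1.mem (List.mem_cons_self)
    · exact h1.mem (ih h2 a ha)

/-- the running state along a list -/
def run (step : σ → α → Option σ) : σ → List α → Option σ
  | s, [] => some s
  | s, a :: l => match step s a with
    | none => none
    | some s' => run step s' l

/-- the first entry runs through the table -/
def go (prune : List α → σ → Bool) (rec : List α → σ → Bool) (step : σ → α → Option σ) :
    List α → σ → Bool
  | [], _ => true
  | a :: tab, s => prune (a :: tab) s || ((match step s a with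
    | none => true
    | some s' => rec (a :: tab) s') && go prune rec step tab s)

/-- all lists of `n` entries of the table in table order -/
def enum (prune : ℕ → List α → σ → Bool) (step : σ → α → Option σ) (leaf : σ → Bool) :
    ℕ → List α → σ → Bool
  | 0, _, s => leaf s
  | n + 1, tab, s => go (prune (n + 1)) (enum prune step leaf n) step tab s

theorem enum_sound {P : σ → Prop} {prune : ℕ → List α → σ → Bool} {step : σ → α → Option σ}
    {leaf : σ → Bool} (hleaf : ∀ s, leaf s = true → P s)
    (hprune : ∀ k tab s, prune k tab s = true → ∀ l : List α, l.length = k → InTab tab l →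
      ∀ s', run step s l = some s' → P s') :
    ∀ (n : ℕ) (tab : List α) (s : σ), enum prune step leaf n tab s = true →
      ∀ l : List α, l.length = n → InTab tab l → ∀ s', run step s l = some s' → P s' := by
  intro n
  induction n with
  | zero =>
    intro tab s h l hl _ s' hs'
    rw [List.length_eq_zero_iff] at hl
    subst hl
    simp only [run, Option.some.injEq] at hs'
    subst hs'
    exact hleaf s h
  | succ n ih =>
    intro tab s h
    rw [enum] at h
    induction tab with
    | nil =>
      intro l hl hin s' _
      rcases l with _ | ⟨a, l⟩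
      · simp at hl
      · obtain ⟨suf, h1, -⟩ := hin
        simp at h1
    | cons b tab iht =>
      intro l hl hin s' hs'
      rw [go, Bool.or_eq_true, Bool.and_eq_true] at h
      rcases h with h | ⟨h1, h2⟩
      · exact hprune _ _ _ h l hl hin s' hs'
      rcases l with _ | ⟨a, l⟩
      · simp at hl
      obtain ⟨suf, h3, h4⟩ := hin
      rcases List.suffix_cons_iff.1 h3 with h5 | h5
      · obtain ⟨rfl, rfl⟩ := List.cons.inj h5
        rw [run] at hs'
        rcases hst : step s a with _ | s1
        · rw [hst] at hs'
          simp at hs'
        · rw [hst] at hs' h1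
          exact ih (a :: suf) s1 h1 l (by simpa using hl) h4 s' hs'
      · exact iht h2 (a :: l) hl ⟨suf, h5, h4⟩ s' hs'

/-- a sorted list with entries in a strictly sorted table -/
theorem inTab_of_key {κ : α → ℕ} : ∀ {l tab : List α}, tab.Pairwise (fun a b => κ b < κ a) →
    (∀ a ∈ l, a ∈ tab) → l.Pairwise (fun a b => κ b ≤ κ a) → InTab tab l := by
  intro l
  induction l with
  | nil => intro _ _ _ _; trivial
  | cons a l ih =>
    intro tab ht hm hl
    obtain ⟨pre, suf, hps⟩ := List.append_of_mem (hm a List.mem_cons_self)
    have hs : (a :: suf) <:+ tab := ⟨pre, hps.symm⟩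
    rw [List.pairwise_cons] at hl
    refine ⟨suf, hs, ih (ht.sublist hs.sublist) (fun b hb => ?_) hl.2⟩
    have h1 : b ∈ tab := hm b (List.mem_cons_of_mem a hb)
    rw [hps, List.mem_append] at h1
    rcases h1 with h1 | h1
    · rw [hps, List.pairwise_append] at ht
      have h2 := ht.2.2 b h1 a List.mem_cons_self
      have h3 := hl.1 b hb
      omega
    · exact h1

/-- the check that a table is strictly sorted -/
def srt (κ : α → ℕ) : List α → Bool
  | [] => true
  | [_] => true
  | a :: b :: l => Nat.blt (κ b) (κ a) && srt κ (b :: l)

theorem srt_pairwise {κ : α → ℕ} : ∀ {l : List α}, srt κ l = true →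
    l.Pairwise (fun a b => κ b < κ a) := by
  intro l
  induction l with
  | nil => intro _; exact List.Pairwise.nil
  | cons a l ih =>
    intro h
    rcases l with _ | ⟨b, l⟩
    · exact List.pairwise_singleton _ _
    · rw [srt, Bool.and_eq_true] at h
      have h1 : κ b < κ a := by
        have := h.1
        rwa [Nat.blt_eq] at this
      have h2 := ih h.2
      refine List.pairwise_cons.2 ⟨fun c hc => ?_, h2⟩
      rcases List.mem_cons.1 hc with rfl | hc
      · exact h1
      · exact lt_trans ((List.pairwise_cons.1 h2).1 c hc) h1

/-- the list of the values of a function on `range n` -/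
theorem map_range_pairwise {x : ℕ → α} {r : α → α → Prop} {n : ℕ}
    (h : ∀ i j, i < j → j < n → r (x i) (x j)) : ((List.range n).map x).Pairwise r := by
  rw [List.pairwise_map]
  refine List.Pairwise.imp_of_mem (R := (· < ·)) ?_ List.pairwise_lt_range
  intro i j _ hj hij
  exact h i j hij (List.mem_range.1 hj)

theorem sum_map_range {M : Type*} [AddCommMonoid M] (f : ℕ → M) (n : ℕ) :
    ((List.range n).map f).sum = ∑ i ∈ Finset.range n, f i := by
  induction n with
  | zero => simp
  | succ n ih =>
    rw [List.range_succ, List.map_append, List.sum_append, ih, Finset.sum_range_succ]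
    simp

/-- running sums -/
structure St (α : Type*) where
  T : ℕ
  H : ℕ
  l : List α

/-- one entry more: the sums stay below `M`, `K` -/
def stepW (t h : α → ℕ) (M K : ℕ) (s : St α) (a : α) : Option (St α) :=
  if Nat.ble (s.T + t a) M && Nat.ble (s.H + h a) K then
    some ⟨s.T + t a, s.H + h a, a :: s.l⟩ else none

/-- `k` more entries, each with `h ≤ t + b`, do not reach `Σ h = Σ t + c` -/
def pruneW (b : α → ℕ) (c k : ℕ) (tab : List α) (s : St α) : Bool :=
  match tab with
  | [] => false
  | a :: _ => Nat.blt (s.H + k * b a) (s.T + c)

/-- the bounds `b` of a table: `h a ≤ t a + b a`, `b` antitone -/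
def bnd (t h b : α → ℕ) : List α → Bool
  | [] => true
  | [a] => Nat.ble (h a) (t a + b a)
  | a :: a' :: l => Nat.ble (h a) (t a + b a) && Nat.ble (b a') (b a) && bnd t h b (a' :: l)

theorem bnd_mem {t h b : α → ℕ} : ∀ {tab : List α} {a : α}, bnd t h b (a :: tab) = true →
    ∀ x ∈ a :: tab, h x ≤ t x + b a := by
  intro tab
  induction tab with
  | nil =>
    intro a hb x hx
    rw [List.mem_singleton] at hx
    subst hx
    rw [bnd] at hb
    exact Nat.le_of_ble_eq_true hb
  | cons a' l ih =>
    intro a hb x hx
    rw [bnd, Bool.and_eq_true, Bool.and_eq_true] at hb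
    rcases List.mem_cons.1 hx with rfl | hx
    · exact Nat.le_of_ble_eq_true hb.1.1
    · exact (ih hb.2 x hx).trans (Nat.add_le_add_left (Nat.le_of_ble_eq_true hb.1.2) _)

theorem bnd_tail {t h b : α → ℕ} {tab : List α} {a : α} (hb : bnd t h b (a :: tab) = true) :
    bnd t h b tab = true := by
  rcases tab with _ | ⟨a', l⟩
  · rfl
  · rw [bnd, Bool.and_eq_true, Bool.and_eq_true] at hb
    exact hb.2

theorem bnd_suffix {t h b : α → ℕ} : ∀ {tab l : List α}, bnd t h b tab = true → l <:+ tab →
    bnd t h b l = true := by
  intro tab
  induction tab with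
  | nil =>
    intro l hb hl
    rw [List.suffix_nil.1 hl]
    exact hb
  | cons a tab ih =>
    intro l hb hl
    rcases List.suffix_cons_iff.1 hl with rfl | hl
    · exact hb
    · exact ih (bnd_tail hb) hl

theorem InTab.le_sum {t h b : α → ℕ} : ∀ {l tab : List α} {a : α},
    bnd t h b (a :: tab) = true → InTab (a :: tab) l →
    (l.map h).sum ≤ (l.map t).sum + l.length * b a := by
  intro l
  induction l with
  | nil => intro _ _ _ _; simp
  | cons x l ih =>
    intro tab a hb hin
    have h1 := bnd_mem hb x (hin.mem x List.mem_cons_self)
    obtain ⟨suf, h2, h3⟩ := hin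
    have h4 := ih (bnd_suffix hb h2) h3
    have h5 : b x ≤ b a := by
      clear h4 h3 h1 ih
      induction tab generalizing a with
      | nil =>
        rcases List.suffix_cons_iff.1 h2 with h6 | h6
        · rw [(List.cons.inj h6).1]
        · simp at h6
      | cons a' tab iht =>
        rcases List.suffix_cons_iff.1 h2 with h6 | h6
        · rw [(List.cons.inj h6).1]
        · have h7 := iht (bnd_tail hb) h6
          rw [bnd, Bool.and_eq_true, Bool.and_eq_true] at hb
          exact h7.trans (Nat.le_of_ble_eq_true hb.1.2)
    have h6 : l.length * b x ≤ l.length * b a := Nat.mul_le_mul_left _ h5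
    simp only [List.map_cons, List.sum_cons, List.length_cons]
    have h7 : (l.length + 1) * b a = l.length * b a + b a := Nat.succ_mul _ _
    omega

/-- the result of the running sums -/
theorem run_stepW {t h : α → ℕ} {M K : ℕ} : ∀ {l : List α} {s s' : St α},
    run (stepW t h M K) s l = some s' →
      s' = ⟨s.T + (l.map t).sum, s.H + (l.map h).sum, l.reverse ++ s.l⟩ := by
  intro l
  induction l with
  | nil =>
    intro s s' hs
    simp only [run, Option.some.injEq] at hs
    subst hs
    simp
  | cons a l ih =>
    intro s s' hs
    rw [run] at hs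
    by_cases hc : (Nat.ble (s.T + t a) M && Nat.ble (s.H + h a) K) = true
    · rw [stepW, if_pos hc] at hs
      have h1 := ih hs
      rw [h1]
      simp only [List.map_cons, List.sum_cons, List.reverse_cons, List.append_assoc,
        List.cons_append, List.nil_append, St.mk.injEq, and_true]
      omega
    · rw [stepW, if_neg hc] at hs
      simp at hs

theorem run_stepW_some {t h : α → ℕ} {M K : ℕ} : ∀ {l : List α} {s : St α},
    s.T + (l.map t).sum ≤ M → s.H + (l.map h).sum ≤ K →
      ∃ s', run (stepW t h M K) s l = some s' := by
  intro l
  induction l with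
  | nil => intro s _ _; exact ⟨s, rfl⟩
  | cons a l ih =>
    intro s h1 h2
    simp only [List.map_cons, List.sum_cons] at h1 h2
    have hc : (Nat.ble (s.T + t a) M && Nat.ble (s.H + h a) K) = true := by
      rw [Bool.and_eq_true, Nat.ble_eq, Nat.ble_eq]
      omega
    rw [run, stepW, if_pos hc]
    exact ih (by simp only []; omega) (by simp only []; omega)

/-- **all sorted lists of `n` entries** with `Σ t ≤ M`, `Σ h ≤ K`, `Σ h = Σ t + c` -/
def enumW (t h b : α → ℕ) (M K c : ℕ) (leaf : List α → Bool) (n : ℕ) (tab : List α) : Bool :=
  bnd t h b tab && enum (pruneW b c) (stepW t h M K)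
    (fun s => !(Nat.beq s.H (s.T + c)) || leaf s.l) n tab ⟨0, 0, []⟩

theorem enumW_sound {t h b : α → ℕ} {M K c : ℕ} {leaf : List α → Bool} {n : ℕ} {tab : List α}
    (he : enumW t h b M K c leaf n tab = true) {l : List α} (hl : l.length = n)
    (hin : InTab tab l) (hM : (l.map t).sum ≤ M) (hK : (l.map h).sum ≤ K)
    (hc : (l.map h).sum = (l.map t).sum + c) : leaf l.reverse = true := by
  rw [enumW, Bool.and_eq_true] at he
  obtain ⟨hb, he⟩ := he
  -- all the suffixes in the search satisfy the bound
  have key : ∀ (n : ℕ) (tab : List α) (s : St α), bnd t h b tab = true →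
      enum (pruneW b c) (stepW t h M K)
        (fun s => !(Nat.beq s.H (s.T + c)) || leaf s.l) n tab s = true →
      ∀ l : List α, l.length = n → InTab tab l →
        ∀ s', run (stepW t h M K) s l = some s' → s'.H = s'.T + c → leaf s'.l = true := by
    intro n
    induction n with
    | zero =>
      intro tab s _ h1 l hl _ s' hs' hH
      rw [List.length_eq_zero_iff] at hl
      subst hl
      simp only [run, Option.some.injEq] at hs'
      subst hs'
      rw [enum, Bool.or_eq_true, Bool.not_eq_true'] at h1
      rcases h1 with h1 | h1
      · rw [hH, Nat.beq_refl] at h1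
        exact absurd h1 (by simp)
      · exact h1
    | succ n ih =>
      intro tab s hb h1
      rw [enum] at h1
      induction tab with
      | nil =>
        intro l hl hin s' _ _
        rcases l with _ | ⟨a, l⟩
        · simp at hl
        · obtain ⟨suf, h1, -⟩ := hin
          simp at h1
      | cons x tab iht =>
        intro l hl hin s' hs' hH
        rw [go, Bool.or_eq_true, Bool.and_eq_true] at h1
        rcases h1 with h1 | ⟨h1, h2⟩
        · exfalso
          rw [pruneW, Nat.blt_eq] at h1
          have h3 := InTab.le_sum hb hin
          have h4 := run_stepW hs'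
          rw [h4] at hH
          simp only at hH
          rw [hl] at h3
          omega
        rcases l with _ | ⟨a, l⟩
        · simp at hl
        obtain ⟨suf, h3, h4⟩ := hin
        rcases List.suffix_cons_iff.1 h3 with h5 | h5
        · obtain ⟨rfl, rfl⟩ := List.cons.inj h5
          rw [run] at hs'
          rcases hst : stepW t h M K s a with _ | s1
          · rw [hst] at hs'
            simp at hs'
          · rw [hst] at hs' h1
            exact ih (a :: suf) s1 hb h1 l (by simpa using hl) h4 s' hs' hH
        · exact iht (bnd_tail hb) h2 (a :: l) hl ⟨suf, h5, h4⟩ s' hs' hH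
  obtain ⟨s', hs'⟩ := run_stepW_some (t := t) (h := h) (M := M) (K := K) (l := l)
    (s := ⟨0, 0, []⟩) (by simpa using hM) (by simpa using hK)
  have h1 := run_stepW hs'
  have h2 := key n tab ⟨0, 0, []⟩ hb he l hl hin s' hs' (by
    rw [h1]
    simp only []
    omega)
  rw [h1] at h2
  simpa using h2

end Enum

end Kern

end Pool.Agent.Lib.MP_f04ccf_co
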