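import Pool.Agent.Lib.MP_f04ccf_co.M.AC
import Pool.Agent.Lib.MP_f04ccf_co.M.Kern

/-!
MP_f04ccf_co: glue between the basic integers and the kernel checks.
`exists_rank3`: the rows ranked by three integers lexicographically (`Rank` for the first one).
`HSys.bi_rank`, `HSys.bic_rank`, `ACore.bic_rank`: the basic integers for a given rank.
`BI.enumW`: the list of the pairs `(t i, h i)` goes through the enumeration `Kern.enumW`.
-/

set_option autoImplicit false

namespace Pool.Agent.Lib.MP_f04ccf_co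

open Finset

attribute [local instance] Classical.propDecidable

section Rank

variable {V : Type*} {A : Finset V} {f g : V → ℤ} {ρ : V → ℕ} {σ : ℕ → V}

lemma Rank.coarse (h : Rank A f ρ σ) (hfg : ∀ x ∈ A, ∀ y ∈ A, f y ≤ f x → g y ≤ g x) :
    Rank A g ρ σ :=
  ⟨h.lt, h.mem, h.left, h.right, fun i j hij hj =>
    hfg _ (h.mem i (lt_of_le_of_lt hij hj)) _ (h.mem j hj) (h.anti i j hij hj)⟩

private lemma kernB_abs_le (A : Finset V) (f : V → ℤ) (x : V) (hx : x ∈ A) :
    |f x| ≤ ∑ y ∈ A, |f y| :=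
  single_le_sum (f := fun y => |f y|) (fun _ _ => abs_nonneg _) hx

/-- **a rank by three integers** -/
theorem exists_rank3 (A : Finset V) (hA : A.Nonempty) (a b c : V → ℤ) :
    ∃ (ρ : V → ℕ) (σ : ℕ → V), Rank A a ρ σ ∧
      ∀ i j, i ≤ j → j < A.card → a (σ j) < a (σ i) ∨ a (σ j) = a (σ i) ∧
        (b (σ j) < b (σ i) ∨ b (σ j) = b (σ i) ∧ c (σ j) ≤ c (σ i)) := by
  set N : ℤ := 1 + (∑ y ∈ A, |b y| + ∑ y ∈ A, |c y|) with hN
  have hb : ∀ x ∈ A, |b x| < N := fun x hx => by
    have h1 := kernB_abs_le A b x hx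
    have h2 : 0 ≤ ∑ y ∈ A, |c y| := sum_nonneg fun _ _ => abs_nonneg _
    omega
  have hc : ∀ x ∈ A, |c x| < N := fun x hx => by
    have h1 := kernB_abs_le A c x hx
    have h2 : 0 ≤ ∑ y ∈ A, |b y| := sum_nonneg fun _ _ => abs_nonneg _
    omega
  have key : ∀ x ∈ A, ∀ y ∈ A,
      4 * N ^ 2 * a y + 2 * N * b y + c y ≤ 4 * N ^ 2 * a x + 2 * N * b x + c x →
      a y < a x ∨ a y = a x ∧ (b y < b x ∨ b y = b x ∧ c y ≤ c x) := by
    intro x hx y hy hxy
    obtain ⟨h1, h2⟩ := abs_lt.1 (hb x hx)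
    obtain ⟨h3, h4⟩ := abs_lt.1 (hb y hy)
    obtain ⟨h5, h6⟩ := abs_lt.1 (hc x hx)
    obtain ⟨h7, h8⟩ := abs_lt.1 (hc y hy)
    have hN0 : 1 ≤ N := by omega
    rcases lt_trichotomy (a y) (a x) with h | h | h
    · exact Or.inl h
    · refine Or.inr ⟨h, ?_⟩
      rw [h] at hxy
      rcases lt_trichotomy (b y) (b x) with h9 | h9 | h9
      · exact Or.inl h9
      · refine Or.inr ⟨h9, ?_⟩
        rw [h9] at hxy
        linarith
      · exfalso
        nlinarith [mul_le_mul_of_nonneg_left (show b x + 1 ≤ b y by omega)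
          (show (0 : ℤ) ≤ 2 * N by omega)]
    · exfalso
      have h9 := mul_le_mul_of_nonneg_left (show a x + 1 ≤ a y by omega)
        (show (0 : ℤ) ≤ 4 * N ^ 2 by positivity)
      have h10 := mul_le_mul_of_nonneg_left (show b x - (2 * N - 2) ≤ b y by omega)
        (show (0 : ℤ) ≤ 2 * N by omega)
      nlinarith
  obtain ⟨ρ, σ, h⟩ := exists_rank A hA fun x => 4 * N ^ 2 * a x + 2 * N * b x + c x
  refine ⟨ρ, σ, h.coarse fun x hx y hy hxy => ?_, fun i j hij hj =>
    key _ (h.mem i (lt_of_le_of_lt hij hj)) _ (h.mem j hj) (h.anti i j hij hj)⟩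
  rcases key x hx y hy hxy with h1 | h1
  · exact h1.le
  · exact h1.1.le

end Rank

section BIR

variable {V : Type*} {G : SimpleGraph V} {Z T : Finset V} {hm : V → V} {r m t : ℕ}
  {A S : Finset V} {ρ : V → ℕ} {σ : ℕ → V}

/-- **the basic integers for a given rank** -/
theorem HSys.bi_rank (hF : S2 G r m t Z T) (hPG : PG G r) (hPM : PM G r) (hb : m ≤ r)
    (h : HSys G Z T A S) (h2 : 2 ≤ A.card) (hv : S.card = A.card * r + 1)
    (hh : ∀ v ∈ S, hm v ∈ A ∧ hm v ∈ rws G T v) (hσ : Rank A (tI G Z T hm r S) ρ σ) :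
    BI ((r : ℤ) - 1) A.card (fun i => tI G Z T hm r S (σ i)) (fun i => sI hm r S (σ i))
      (fun i => hI G Z T hm S (σ i)) (fun i => eI G hm S (σ i))
      (fun i j => EI G hm S (σ i) (σ j)) := by
  have hFP := hF.toPFrame
  have er : (r : ℤ) - 1 + 1 = r := by ring
  refine ⟨h2, fun i j hij hj => hσ.anti i j hij hj,
    fun i hi => h.tI_nonneg hF hh (hσ.mem i hi), fun i hi => h.tI_lt hFP hh (hσ.mem i hi),
    fun i _ => hI_nonneg S _, fun i _ => hI_eq S _, fun i _ => eI_nonneg S _,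
    fun _ _ => EI_nonneg S _ _, fun _ _ => EI_comm S _ _, ?_, ?_, ?_, ?_⟩
  · rw [← hσ.sum (sI hm r S), HSys.sum_sI hh, hv]
    push_cast
    ring
  · rw [← hσ.sum (hI G Z T hm S), er]
    refine (h.sum_hI hFP hh).trans ?_
    exact_mod_cast hF.b.trans hb
  · intro B hB
    have h1 := h.slots_I hFP hPG hh (hσ.image_sub hB)
    rw [hσ.card_image hB, hσ.sum2_im hB (EI G hm S), hσ.sum_im hB (sI hm r S),
      hσ.sum_im hB (eI G hm S), hσ.sum_im hB fun x => sI hm r S x ^ 2] at h1
    rw [er]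
    exact h1
  · intro B hB ω hω q hq
    have h1 := h.slots_om hFP hPM hh (hσ.image_sub hB) (fun x => ω (ρ x)) (fun x hx => by
      obtain ⟨i, hi, rfl⟩ := mem_image.1 hx
      rw [hσ.right i (mem_range.1 (hB hi))]
      exact hω i hi) q hq
    have e1 : ∀ i ∈ B, ρ (σ i) = i := fun i hi => hσ.right i (mem_range.1 (hB hi))
    have e2 : ∀ g : V → V → ℤ → ℤ → ℤ, ∑ x ∈ B.image σ, ∑ y ∈ (B.image σ).erase x,
        g x y (ω (ρ x)) (ω (ρ y)) = ∑ i ∈ B, ∑ j ∈ B.erase i, g (σ i) (σ j) (ω i) (ω j) := fun g => by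
      rw [hσ.sum2_im hB fun x y => g x y (ω (ρ x)) (ω (ρ y))]
      exact sum_congr rfl fun i hi => sum_congr rfl fun j hj => by
        rw [e1 i hi, e1 j (mem_of_mem_erase hj)]
    have e3 : ∀ g : V → ℤ → ℤ, ∑ x ∈ B.image σ, g x (ω (ρ x)) = ∑ i ∈ B, g (σ i) (ω i) :=
      fun g => by
        rw [hσ.sum_im hB fun x => g x (ω (ρ x))]
        exact sum_congr rfl fun i hi => by rw [e1 i hi]
    have a1 := e3 fun x w => w * (r + sI hm r S x)
    have a2 := e2 fun x y w w' => w * w' * EI G hm S x y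
    have a3 := e3 fun x w => w ^ 2 * eI G hm S x
    have a4 := e2 fun x y w w' => w * w' * ((r + sI hm r S x) * (r + sI hm r S y))
    have a5 := e3 fun x w => w * (w - 1) * (r + sI hm r S x)
    rw [a1, a2, a3, a4, a5] at h1
    rw [er]
    exact h1

/-- **the basic integers with the cap for a given rank** -/
theorem HSys.bic_rank (hF : S2 G r m t Z T) (hPG : PG G r) (hPM : PM G r) (hC : CAP G r)
    (hb : m ≤ r) (h : HSys G Z T A S) (h2 : 2 ≤ A.card) (hv : S.card = A.card * r + 1)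
    (ha : AlphaLe G S A.card) (hh : ∀ v ∈ S, hm v ∈ A ∧ hm v ∈ rws G T v)
    (hσ : Rank A (tI G Z T hm r S) ρ σ) :
    BIC ((r : ℤ) - 1) A.card (fun i => tI G Z T hm r S (σ i)) (fun i => sI hm r S (σ i))
      (fun i => hI G Z T hm S (σ i)) (fun i => eI G hm S (σ i))
      (fun i j => EI G hm S (σ i) (σ j)) := by
  refine ⟨h.bi_rank hF hPG hPM hb h2 hv hh hσ, ?_⟩
  have h1 := h.slots_cap hF.toPFrame hC hv ha hh
  have e1 : (range A.card).image σ = A := by
    refine eq_of_subset_of_card_le (hσ.image_sub (Subset.refl _)) ?_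
    rw [hσ.card_image (Subset.refl _), card_range]
  have e2 := hσ.sum2_im (Subset.refl (range A.card)) (EI G hm S)
  rw [e1] at e2
  rw [e2, hσ.sum (eI G hm S), hσ.sum fun x => sI hm r S x ^ 2] at h1
  have er : (r : ℤ) - 1 + 1 = r := by ring
  rw [er]
  exact h1

variable {n p : ℕ}

/-- the basic integers of the whole frame for a given rank -/
theorem ACore.bic_rank (h : ACore G Z T r m n p hm) (hσ : Rank T (tI G Z T hm r Z) ρ σ) :
    BIC ((r : ℤ) - 1) n (fun i => tI G Z T hm r Z (σ i)) (fun i => sI hm r Z (σ i))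
      (fun i => hI G Z T hm Z (σ i)) (fun i => eI G hm Z (σ i))
      (fun i j => EI G hm Z (σ i) (σ j)) := by
  have h1 := h.hsys.bic_rank h.F h.gp.P h.gp.M h.gp.cap h.hmr (by
    rw [h.F.cardT]
    have := h.five
    omega) (by rw [h.F.cardT]; exact h.F.cardZ) (by rw [h.F.cardT]; exact h.F.alpha) h.hh hσ
  rwa [h.F.cardT] at h1

end BIR

section List

variable {R : ℤ} {n : ℕ} {t s h e : ℕ → ℤ} {E : ℕ → ℕ → ℤ}

/-- **the basic integers go through the enumeration**: `tab` is a table of triples `(t, h, b)`,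
strictly sorted by `t`, `h`; all rows occur in it; `leaf` holds at the reversed list of the rows -/
theorem BI.enumW (H : BI R n t s h e E)
    (lex : ∀ i j, i ≤ j → j < n → t j < t i ∨ t j = t i ∧ h j ≤ h i)
    {tab : List (ℕ × ℕ × ℕ)} {N M K : ℕ} {leaf : List (ℕ × ℕ × ℕ) → Bool}
    (hs : Kern.srt (fun a : ℕ × ℕ × ℕ => a.1 * N + a.2.1) tab = true)
    (hK : R + 1 ≤ K) (hN : K < N) (hM : R - n ≤ M)
    (x : ℕ → ℕ × ℕ × ℕ) (hx : ∀ i, i < n → x i ∈ tab ∧ ((x i).1 : ℤ) = t i ∧
      ((x i).2.1 : ℤ) = h i)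
    (he : Kern.enumW (fun a : ℕ × ℕ × ℕ => a.1) (fun a => a.2.1) (fun a => a.2.2) M K (n + 1)
      leaf n tab = true) : leaf ((List.range n).map x).reverse = true := by
  have e1 : ((((List.range n).map x).map fun a : ℕ × ℕ × ℕ => a.1).sum : ℤ)
      = ∑ i ∈ range n, t i := by
    rw [List.map_map, Kern.sum_map_range]
    push_cast
    exact sum_congr rfl fun i hi => (hx i (mem_range.1 hi)).2.1
  have e2 : ((((List.range n).map x).map fun a : ℕ × ℕ × ℕ => a.2.1).sum : ℤ)
      = ∑ i ∈ range n, h i := by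
    rw [List.map_map, Kern.sum_map_range]
    push_cast
    exact sum_congr rfl fun i hi => (hx i (mem_range.1 hi)).2.2
  have e3 : ∑ i ∈ range n, h i = ∑ i ∈ range n, t i + (n + 1) := by
    rw [sum_congr rfl fun i hi => H.hh i (mem_range.1 hi), sum_add_distrib, sum_add_distrib,
      sum_const, card_range, nsmul_eq_mul, mul_one, H.ss]
    ring
  have h1 := H.st
  have h2 := H.sh
  have hle : ∀ i, i < n → (x i).2.1 < N := by
    intro i hi
    have h3 := single_le_sum (f := h) (fun i hi => H.h0 i (mem_range.1 hi)) (mem_range.2 hi)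
    have h4 := (hx i hi).2.2
    omega
  refine Kern.enumW_sound he (by rw [List.length_map, List.length_range]) ?_ ?_ ?_ ?_
  · refine Kern.inTab_of_key (Kern.srt_pairwise hs) (fun a ha => ?_) ?_
    · obtain ⟨i, hi, rfl⟩ := List.mem_map.1 ha
      exact (hx i (List.mem_range.1 hi)).1
    · refine Kern.map_range_pairwise fun i j hij hj => ?_
      have h3 := hx i (hij.trans hj)
      have h4 := hx j hj
      have h5 := hle j hj
      rcases lex i j hij.le hj with h6 | ⟨h6, h7⟩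
      · have h8 : (x j).1 + 1 ≤ (x i).1 := by omega
        calc (x j).1 * N + (x j).2.1 ≤ ((x j).1 + 1) * N := by
              rw [add_mul, one_mul]
              omega
          _ ≤ (x i).1 * N := Nat.mul_le_mul_right _ h8
          _ ≤ (x i).1 * N + (x i).2.1 := Nat.le_add_right _ _
      · have h8 : (x j).1 = (x i).1 := by omega
        rw [h8]
        omega
  · have : ((((List.range n).map x).map fun a : ℕ × ℕ × ℕ => a.1).sum : ℤ) ≤ M := by
      rw [e1]
      linarith
    exact_mod_cast this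
  · have : ((((List.range n).map x).map fun a : ℕ × ℕ × ℕ => a.2.1).sum : ℤ) ≤ K := by
      rw [e2]
      linarith
    exact_mod_cast this
  · have : ((((List.range n).map x).map fun a : ℕ × ℕ × ℕ => a.2.1).sum : ℤ)
        = (((List.range n).map x).map fun a : ℕ × ℕ × ℕ => a.1).sum + (n + 1) := by
      rw [e1, e2]
      exact e3
    exact_mod_cast this

end List

end Pool.Agent.Lib.MP_f04ccf_co
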