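import Mathlib

/-!
MP_f04ccf_co: kernel checks (F5), the leaf.  Transport of units: `Flow n mu cap M N V` are naturals
`V x z` (load of the host `x` at the row `z`, in any scale) with row sums at least `mu x`, column sums
at most `cap z`, `V x z ≤ M x z`, `V x z + V z x ≤ N x z`.
`Flow.cut`: the cut inequality of a set of hosts and a set of rows (given by `f i = (host, row)`).
`Kern.cut2`: search for a violated cut inequality on lists of naturals; `Kern.cut2_no`: if it finds one
there is no such `V`; `Kern.mk`, `Kern.cutL`, `Kern.cutL_no`: the same for a list of rows of any type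
(the leaf of `Kern.enumW`).  `Kern.dual`, `Kern.dual_no`: the check of a given dual solution of the
system with the linear pair tests `P x z * V x z + P z x * V z x ≤ S x z` (`FlowP`).
-/

set_option autoImplicit false

namespace Pool.Agent.Lib.MP_f04ccf_co

open Finset

namespace Kern

/-- loads `V` of the hosts at the rows -/
structure Flow (n : ℕ) (mu cap : ℕ → ℕ) (M N V : ℕ → ℕ → ℕ) : Prop where
  row : ∀ x < n, mu x ≤ ∑ z ∈ (range n).erase x, V x z
  col : ∀ z < n, ∑ x ∈ (range n).erase z, V x z ≤ cap z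
  one : ∀ x < n, ∀ z < n, x ≠ z → V x z ≤ M x z
  two : ∀ x < n, ∀ z < n, x ≠ z → V x z + V z x ≤ N x z

/-- the bound of the pair `j`, `i`: `a = (host j, row j)`, `b = (host i, row i)` in the cut,
`mji`, `mij` bounds of the two directions, `nji` of both -/
def pc (a b : Bool × Bool) (mji mij nji : ℕ) : ℕ :=
  match a.1 && !b.2, b.1 && !a.2 with
  | true, true => nji
  | true, false => mji
  | false, true => mij
  | false, false => 0

/-- the capacity of the cut `f` -/
def cst (cap : ℕ → ℕ) (M N : ℕ → ℕ → ℕ) (f : ℕ → Bool × Bool) (k : ℕ) : ℕ :=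
  ∑ i ∈ range k, ((if (f i).2 then cap i else 0) +
    ∑ j ∈ range i, pc (f j) (f i) (M j i) (M i j) (N j i))

/-- the demand of the cut `f` -/
def gn (mu : ℕ → ℕ) (f : ℕ → Bool × Bool) (k : ℕ) : ℕ :=
  ∑ i ∈ range k, if (f i).1 then mu i else 0

lemma sum_tri (n : ℕ) (g : ℕ → ℕ → ℕ) :
    ∑ i ∈ range n, ∑ j ∈ (range n).erase i, g i j
      = ∑ i ∈ range n, ∑ j ∈ range i, (g j i + g i j) := by
  induction n with
  | zero => simp
  | succ n ih =>
    rw [sum_range_succ, sum_range_succ, ← ih]
    have h1 : (range (n + 1)).erase n = range n := by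
      ext x
      rw [mem_erase, mem_range, mem_range]
      omega
    have h2 : ∀ i ∈ range n, ∑ j ∈ (range (n + 1)).erase i, g i j
        = ∑ j ∈ (range n).erase i, g i j + g i n := by
      intro i hi
      have h3 : (range (n + 1)).erase i = insert n ((range n).erase i) := by
        ext x
        rw [mem_erase, mem_insert, mem_erase, mem_range, mem_range]
        have := mem_range.1 hi
        omega
      rw [h3, sum_insert (by simp), add_comm]
    rw [sum_congr rfl h2, sum_add_distrib, h1, sum_add_distrib]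
    ring

/-- **the cut inequality** -/
theorem Flow.cut {n : ℕ} {mu cap : ℕ → ℕ} {M N V : ℕ → ℕ → ℕ} (h : Flow n mu cap M N V)
    (f : ℕ → Bool × Bool) : gn mu f n ≤ cst cap M N f n := by
  -- the load which crosses the cut
  set g : ℕ → ℕ → ℕ := fun x z => if ((f x).1 && !(f z).2) = true then V x z else 0 with hg
  have h1 : gn mu f n ≤ ∑ x ∈ range n, ∑ z ∈ (range n).erase x,
      (if (f x).1 then V x z else 0) := by
    rw [gn]
    refine sum_le_sum fun x hx => ?_
    split_ifs with hfx
    · exact h.row x (mem_range.1 hx)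
    · exact Nat.zero_le _
  have h2 : ∀ x z, (if (f x).1 then V x z else 0)
      ≤ (if (f z).2 then V x z else 0) + g x z := by
    intro x z
    rw [hg]
    cases h3 : (f x).1 <;> cases h4 : (f z).2 <;> simp [h3, h4]
  have h3 : ∑ x ∈ range n, ∑ z ∈ (range n).erase x, (if (f x).1 then V x z else 0)
      ≤ ∑ x ∈ range n, ∑ z ∈ (range n).erase x, (if (f z).2 then V x z else 0)
        + ∑ x ∈ range n, ∑ z ∈ (range n).erase x, g x z := by
    rw [← sum_add_distrib]
    refine sum_le_sum fun x _ => ?_
    rw [← sum_add_distrib]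
    exact sum_le_sum fun z _ => h2 x z
  have h4 : ∑ x ∈ range n, ∑ z ∈ (range n).erase x, (if (f z).2 then V x z else 0)
      ≤ ∑ z ∈ range n, if (f z).2 then cap z else 0 := by
    have h5 : ∑ x ∈ range n, ∑ z ∈ (range n).erase x, (if (f z).2 then V x z else 0)
        = ∑ z ∈ range n, ∑ x ∈ (range n).erase z, (if (f z).2 then V x z else 0) := by
      refine sum_comm' ?_
      intro x y
      simp only [mem_range, mem_erase]
      constructor
      · rintro ⟨h6, h7, h8⟩
        exact ⟨⟨fun h9 => h7 h9.symm, h6⟩, h8⟩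
      · rintro ⟨⟨h6, h7⟩, h8⟩
        exact ⟨h7, fun h9 => h6 h9.symm, h8⟩
    rw [h5]
    refine sum_le_sum fun z hz => ?_
    split_ifs with hfz
    · exact h.col z (mem_range.1 hz)
    · simp
  have h5 : ∑ x ∈ range n, ∑ z ∈ (range n).erase x, g x z
      ≤ ∑ i ∈ range n, ∑ j ∈ range i, pc (f j) (f i) (M j i) (M i j) (N j i) := by
    rw [sum_tri]
    refine sum_le_sum fun i hi => sum_le_sum fun j hj => ?_
    have hi' := mem_range.1 hi
    have hj' := mem_range.1 hj
    have h6 := h.one j (by omega) i hi' (by omega)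
    have h7 := h.one i hi' j (by omega) (by omega)
    have h8 := h.two j (by omega) i hi' (by omega)
    rw [hg, pc]
    show (if ((f j).1 && !(f i).2) = true then V j i else 0)
      + (if ((f i).1 && !(f j).2) = true then V i j else 0) ≤ _
    cases h9 : ((f j).1 && !(f i).2) <;> cases h10 : ((f i).1 && !(f j).2) <;>
      simp only [if_true, if_false, Bool.false_eq_true] <;> omega
  rw [cst, sum_add_distrib]
  omega

/-- the capacities of the pairs of one position with the earlier ones -/
def pcs (b : Bool × Bool) : List (ℕ × ℕ × ℕ) → List (Bool × Bool) → ℕ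
  | (mji, mij, nji) :: l, a :: fl => pc a b mji mij nji + pcs b l fl
  | _, _ => 0

/-- search for a cut with demand larger than capacity: `(mu, cap, pairs with the earlier positions)`,
`fl` the choices of the earlier positions (last one first), `g`, `c` demand and capacity up to now,
`r` the demand which is left -/
def cut2 : List (ℕ × ℕ × List (ℕ × ℕ × ℕ)) → List (Bool × Bool) → ℕ → ℕ → ℕ → Bool
  | [], _, g, c, _ => Nat.blt c g
  | (m, cp, l) :: L, fl, g, c, r =>
    Nat.blt c (g + r) &&
      (cut2 L ((true, false) :: fl) (g + m) (c + pcs (true, false) l fl) (r - m) ||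
      (cut2 L ((true, true) :: fl) (g + m) (c + (cp + pcs (true, true) l fl)) (r - m) ||
      (cut2 L ((false, false) :: fl) g (c + pcs (false, false) l fl) (r - m) ||
      cut2 L ((false, true) :: fl) g (c + (cp + pcs (false, true) l fl)) (r - m))))

/-- the data of the position `k` -/
def dat (mu cap : ℕ → ℕ) (M N : ℕ → ℕ → ℕ) (k : ℕ) : ℕ × ℕ × List (ℕ × ℕ × ℕ) :=
  (mu k, cap k, (List.range k).reverse.map fun j => (M j k, M k j, N j k))

lemma pcs_eq (M N : ℕ → ℕ → ℕ) (f : ℕ → Bool × Bool) (b : Bool × Bool) (i : ℕ) :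
    ∀ k : ℕ, pcs b ((List.range k).reverse.map fun j => (M j i, M i j, N j i))
      ((List.range k).reverse.map f) = ∑ j ∈ range k, pc (f j) b (M j i) (M i j) (N j i) := by
  intro k
  induction k with
  | zero => rfl
  | succ k ih =>
    rw [List.range_succ, List.reverse_append, List.reverse_singleton, List.singleton_append,
      List.map_cons, List.map_cons, pcs, ih, sum_range_succ, add_comm]

/-- change the choice of the position `k` -/
private def upd (f : ℕ → Bool × Bool) (k : ℕ) (b : Bool × Bool) : ℕ → Bool × Bool :=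
  fun i => if i = k then b else f i

private lemma upd_self (f : ℕ → Bool × Bool) (k : ℕ) (b : Bool × Bool) : upd f k b k = b := by
  rw [upd, if_pos rfl]

private lemma upd_lt (f : ℕ → Bool × Bool) {k i : ℕ} (b : Bool × Bool) (h : i < k) :
    upd f k b i = f i := by
  rw [upd, if_neg (by omega)]

private lemma upd_map (f : ℕ → Bool × Bool) (k : ℕ) (b : Bool × Bool) :
    (List.range (k + 1)).reverse.map (upd f k b) = b :: (List.range k).reverse.map f := by
  rw [List.range_succ, List.reverse_append, List.reverse_singleton, List.singleton_append,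
    List.map_cons, upd_self]
  congr 1
  refine List.map_congr_left fun i hi => ?_
  rw [List.mem_reverse, List.mem_range] at hi
  exact upd_lt f b hi

private lemma gn_upd (mu : ℕ → ℕ) (f : ℕ → Bool × Bool) (k : ℕ) (b : Bool × Bool) :
    gn mu (upd f k b) (k + 1) = gn mu f k + if b.1 then mu k else 0 := by
  rw [gn, sum_range_succ, upd_self, gn]
  congr 1
  refine sum_congr rfl fun i hi => ?_
  rw [upd_lt f b (mem_range.1 hi)]

private lemma cst_upd (cap : ℕ → ℕ) (M N : ℕ → ℕ → ℕ) (f : ℕ → Bool × Bool) (k : ℕ)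
    (b : Bool × Bool) : cst cap M N (upd f k b) (k + 1) = cst cap M N f k
      + ((if b.2 then cap k else 0) + ∑ j ∈ range k, pc (f j) b (M j k) (M k j) (N j k)) := by
  rw [cst, sum_range_succ, upd_self, cst]
  congr 1
  · refine sum_congr rfl fun i hi => ?_
    rw [upd_lt f b (mem_range.1 hi)]
    congr 1
    refine sum_congr rfl fun j hj => ?_
    rw [upd_lt f b ((mem_range.1 hj).trans (mem_range.1 hi))]
  · congr 1
    refine sum_congr rfl fun j hj => ?_
    rw [upd_lt f b (mem_range.1 hj)]

/-- **a cut which is found is violated** -/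
theorem cut2_spec (mu cap : ℕ → ℕ) (M N : ℕ → ℕ → ℕ) : ∀ (m k : ℕ) (f : ℕ → Bool × Bool) (r : ℕ),
    cut2 ((List.range' k m).map (dat mu cap M N)) ((List.range k).reverse.map f)
      (gn mu f k) (cst cap M N f k) r = true →
    ∃ f' : ℕ → Bool × Bool, cst cap M N f' (k + m) < gn mu f' (k + m) := by
  intro m
  induction m with
  | zero =>
    intro k f r h
    rw [List.range'_zero, List.map_nil, cut2, Nat.blt_eq] at h
    exact ⟨f, h⟩
  | succ m ih =>
    intro k f r h
    rw [List.range'_succ, List.map_cons, dat, cut2, Bool.and_eq_true, Bool.or_eq_true,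
      Bool.or_eq_true, Bool.or_eq_true, pcs_eq, pcs_eq, pcs_eq, pcs_eq] at h
    have key : ∀ b : Bool × Bool, ∀ r' : ℕ,
        cut2 ((List.range' (k + 1) m).map (dat mu cap M N)) (b :: (List.range k).reverse.map f)
          (gn mu f k + if b.1 then mu k else 0)
          (cst cap M N f k + ((if b.2 then cap k else 0)
            + ∑ j ∈ range k, pc (f j) b (M j k) (M k j) (N j k))) r' = true →
        ∃ f' : ℕ → Bool × Bool, cst cap M N f' (k + (m + 1)) < gn mu f' (k + (m + 1)) := by
      intro b r' h1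
      rw [← upd_map, ← gn_upd, ← cst_upd] at h1
      obtain ⟨f', h2⟩ := ih (k + 1) (upd f k b) r' h1
      rw [show k + 1 + m = k + (m + 1) by omega] at h2
      exact ⟨f', h2⟩
    rcases h.2 with h1 | h1 | h1 | h1
    · exact key (true, false) _ (by simpa using h1)
    · exact key (true, true) _ (by simpa using h1)
    · exact key (false, false) _ (by simpa using h1)
    · exact key (false, true) _ (by simpa using h1)

/-- **no flow** -/
theorem cut2_no {n : ℕ} {mu cap : ℕ → ℕ} {M N : ℕ → ℕ → ℕ} {r : ℕ}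
    (h : cut2 ((List.range n).map (dat mu cap M N)) [] 0 0 r = true) (V : ℕ → ℕ → ℕ) :
    ¬ Flow n mu cap M N V := by
  intro hV
  rw [List.range_eq_range'] at h
  obtain ⟨f', h1⟩ := cut2_spec mu cap M N n 0 (fun _ => (false, false)) r (by
    simpa [gn, cst] using h)
  rw [zero_add] at h1
  exact absurd (hV.cut f') (not_le.2 h1)

section List

variable {α : Type*}

/-- the data of a list of rows, `pre` the earlier rows (last one first) -/
def mk (mu cap : α → ℕ) (M N : α → α → ℕ) : List α → List α → List (ℕ × ℕ × List (ℕ × ℕ × ℕ))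
  | _, [] => []
  | pre, a :: l =>
    (mu a, cap a, pre.map fun b => (M b a, M a b, N b a)) :: mk mu cap M N (a :: pre) l

lemma mk_eq (mu cap : α → ℕ) (M N : α → α → ℕ) (x : ℕ → α) : ∀ (m k : ℕ),
    mk mu cap M N ((List.range k).reverse.map x) ((List.range' k m).map x)
      = (List.range' k m).map (dat (fun i => mu (x i)) (fun i => cap (x i))
        (fun i j => M (x i) (x j)) (fun i j => N (x i) (x j))) := by
  intro m
  induction m with
  | zero => intro k; rfl
  | succ m ih =>
    intro k
    rw [List.range'_succ, List.map_cons, mk, List.map_cons, dat, List.map_map]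
    have h1 := ih (k + 1)
    rw [List.range_succ, List.reverse_append, List.reverse_singleton, List.singleton_append,
      List.map_cons] at h1
    rw [h1]
    rfl

/-- **the leaf**: a violated cut in the list of rows `l` -/
def cutL (mu cap : α → ℕ) (M N : α → α → ℕ) (l : List α) : Bool :=
  cut2 (mk mu cap M N [] l) [] 0 0 (l.map mu).sum

theorem cutL_no {n : ℕ} {mu cap : α → ℕ} {M N : α → α → ℕ} {x : ℕ → α}
    (h : cutL mu cap M N ((List.range n).map x) = true) (V : ℕ → ℕ → ℕ) :
    ¬ Flow n (fun i => mu (x i)) (fun i => cap (x i)) (fun i j => M (x i) (x j))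
      (fun i j => N (x i) (x j)) V := by
  rw [cutL] at h
  have h1 := mk_eq mu cap M N x n 0
  rw [List.range_zero, List.reverse_nil, List.map_nil, ← List.range_eq_range'] at h1
  rw [h1] at h
  exact cut2_no h V

/-- the same for the reversed list (the leaf of `Kern.enumW`) -/
theorem cutL_no' {n : ℕ} {mu cap : α → ℕ} {M N : α → α → ℕ} {x : ℕ → α}
    (h : cutL mu cap M N ((List.range n).map x).reverse = true) (V : ℕ → ℕ → ℕ) :
    ¬ Flow n (fun i => mu (x i)) (fun i => cap (x i)) (fun i j => M (x i) (x j))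
      (fun i j => N (x i) (x j)) V := by
  intro hV
  have h1 : ((List.range n).map x).reverse = (List.range n).map fun i => x (n - 1 - i) := by
    rw [← List.map_reverse]
    refine List.ext_getElem (by simp) fun i h2 h3 => ?_
    simp
  rw [h1] at h
  refine cutL_no h (fun i j => V (n - 1 - i) (n - 1 - j)) ?_
  have hb : ∀ g : ℕ → ℕ, ∀ i < n, ∑ z ∈ (range n).erase i, g (n - 1 - z)
      = ∑ z ∈ (range n).erase (n - 1 - i), g z := by
    intro g i hi
    refine sum_nbij' (fun z => n - 1 - z) (fun z => n - 1 - z) ?_ ?_ ?_ ?_ ?_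
    · intro z hz
      rw [mem_erase, mem_range] at hz ⊢
      omega
    · intro z hz
      rw [mem_erase, mem_range] at hz ⊢
      omega
    · intro z hz
      rw [mem_erase, mem_range] at hz
      show n - 1 - (n - 1 - z) = z
      omega
    · intro z hz
      rw [mem_erase, mem_range] at hz
      show n - 1 - (n - 1 - z) = z
      omega
    · intro z _
      rfl
  refine ⟨fun i hi => ?_, fun i hi => ?_, fun i hi j hj hij => ?_, fun i hi j hj hij => ?_⟩
  · rw [hb (fun z => V (n - 1 - i) z) i hi]
    exact hV.row (n - 1 - i) (by omega)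
  · rw [hb (fun z => V z (n - 1 - i)) i hi]
    exact hV.col (n - 1 - i) (by omega)
  · exact hV.one (n - 1 - i) (by omega) (n - 1 - j) (by omega) (by omega)
  · exact hV.two (n - 1 - i) (by omega) (n - 1 - j) (by omega) (by omega)

end List

section Dual

/-- loads with linear pair tests -/
structure FlowP (n : ℕ) (mu cap : ℕ → ℕ) (M P S V : ℕ → ℕ → ℕ) : Prop where
  row : ∀ x < n, mu x ≤ ∑ z ∈ (range n).erase x, V x z
  col : ∀ z < n, ∑ x ∈ (range n).erase z, V x z ≤ cap z
  one : ∀ x < n, ∀ z < n, x ≠ z → V x z ≤ M x z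
  lin : ∀ x < n, ∀ z < n, x ≠ z → P x z * V x z + P z x * V z x ≤ S x z

/-- the price of the pair `j`, `i`: `a = (α j, β j)`, `b = (α i, β i)`, `g` the multiplier of the pair
test, `q = (M j i, M i j, P j i, P i j, S j i)` -/
def dpc (a b : ℕ × ℕ) (g : ℕ) (q : ℕ × ℕ × ℕ × ℕ × ℕ) : ℕ :=
  g * q.2.2.2.2 + (q.1 * (a.1 - (b.2 + g * q.2.2.1)) + q.2.1 * (b.1 - (a.2 + g * q.2.2.2.1)))

/-- the price of the dual solution -/
def dcst (cap : ℕ → ℕ) (M P S : ℕ → ℕ → ℕ) (f : ℕ → ℕ × ℕ) (γ : ℕ → ℕ → ℕ) (k : ℕ) : ℕ :=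
  ∑ i ∈ range k, ((f i).2 * cap i +
    ∑ j ∈ range i, dpc (f j) (f i) (γ j i) (M j i, M i j, P j i, P i j, S j i))

/-- **weak duality** -/
theorem FlowP.dual {n : ℕ} {mu cap : ℕ → ℕ} {M P S V : ℕ → ℕ → ℕ} (h : FlowP n mu cap M P S V)
    (f : ℕ → ℕ × ℕ) (γ : ℕ → ℕ → ℕ) :
    ∑ i ∈ range n, (f i).1 * mu i ≤ dcst cap M P S f γ n := by
  -- the part of the load which is not paid by the columns
  set g : ℕ → ℕ → ℕ := fun x z => ((f x).1 - (f z).2) * V x z with hg
  have h1 : ∑ x ∈ range n, (f x).1 * mu x ≤ ∑ x ∈ range n, ∑ z ∈ (range n).erase x,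
      (f x).1 * V x z := by
    refine sum_le_sum fun x hx => ?_
    rw [← mul_sum]
    exact Nat.mul_le_mul_left _ (h.row x (mem_range.1 hx))
  have h2 : ∀ x z, (f x).1 * V x z ≤ (f z).2 * V x z + g x z := by
    intro x z
    rw [hg]
    show (f x).1 * V x z ≤ (f z).2 * V x z + ((f x).1 - (f z).2) * V x z
    rw [← add_mul]
    exact Nat.mul_le_mul_right _ (by omega)
  have h3 : ∑ x ∈ range n, ∑ z ∈ (range n).erase x, (f x).1 * V x z
      ≤ ∑ x ∈ range n, ∑ z ∈ (range n).erase x, (f z).2 * V x z
        + ∑ x ∈ range n, ∑ z ∈ (range n).erase x, g x z := by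
    rw [← sum_add_distrib]
    refine sum_le_sum fun x _ => ?_
    rw [← sum_add_distrib]
    exact sum_le_sum fun z _ => h2 x z
  have h4 : ∑ x ∈ range n, ∑ z ∈ (range n).erase x, (f z).2 * V x z
      ≤ ∑ z ∈ range n, (f z).2 * cap z := by
    have h5 : ∑ x ∈ range n, ∑ z ∈ (range n).erase x, (f z).2 * V x z
        = ∑ z ∈ range n, ∑ x ∈ (range n).erase z, (f z).2 * V x z := by
      refine sum_comm' ?_
      intro x y
      simp only [mem_range, mem_erase]
      constructor
      · rintro ⟨h6, h7, h8⟩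
        exact ⟨⟨fun h9 => h7 h9.symm, h6⟩, h8⟩
      · rintro ⟨⟨h6, h7⟩, h8⟩
        exact ⟨h7, fun h9 => h6 h9.symm, h8⟩
    rw [h5]
    refine sum_le_sum fun z hz => ?_
    rw [← mul_sum]
    exact Nat.mul_le_mul_left _ (h.col z (mem_range.1 hz))
  have h5 : ∑ x ∈ range n, ∑ z ∈ (range n).erase x, g x z
      ≤ ∑ i ∈ range n, ∑ j ∈ range i,
        dpc (f j) (f i) (γ j i) (M j i, M i j, P j i, P i j, S j i) := by
    rw [sum_tri]
    refine sum_le_sum fun i hi => sum_le_sum fun j hj => ?_
    have hi' := mem_range.1 hi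
    have hj' := mem_range.1 hj
    have h6 := h.one j (by omega) i hi' (by omega)
    have h7 := h.one i hi' j (by omega) (by omega)
    have h8 := Nat.mul_le_mul_left (γ j i) (h.lin j (by omega) i hi' (by omega))
    rw [hg, dpc]
    show ((f j).1 - (f i).2) * V j i + ((f i).1 - (f j).2) * V i j
      ≤ γ j i * S j i + (M j i * ((f j).1 - ((f i).2 + γ j i * P j i))
        + M i j * ((f i).1 - ((f j).2 + γ j i * P i j)))
    have h9 : ∀ a b c v m : ℕ, v ≤ m → (a - b) * v ≤ c * v + m * (a - (b + c)) := by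
      intro a b c v m hvm
      have e1 : a - b ≤ c + (a - (b + c)) := by omega
      calc (a - b) * v ≤ (c + (a - (b + c))) * v := Nat.mul_le_mul_right _ e1
        _ = c * v + (a - (b + c)) * v := by rw [add_mul]
        _ ≤ c * v + (a - (b + c)) * m :=
          Nat.add_le_add_left (Nat.mul_le_mul_left _ hvm) _
        _ = c * v + m * (a - (b + c)) := by rw [Nat.mul_comm m]
    have h10 := h9 (f j).1 (f i).2 (γ j i * P j i) (V j i) (M j i) h6
    have h11 := h9 (f i).1 (f j).2 (γ j i * P i j) (V i j) (M i j) h7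
    rw [mul_add, ← mul_assoc, ← mul_assoc] at h8
    omega
  rw [dcst, sum_add_distrib]
  omega

/-- the prices of one position with the earlier ones -/
def dpcs (b : ℕ × ℕ) : List (ℕ × ℕ × ℕ × ℕ × ℕ) → List ℕ → List (ℕ × ℕ) → ℕ
  | q :: l, g :: gs, a :: fl => dpc a b g q + dpcs b l gs fl
  | _, _, _ => 0

/-- check of a dual solution: data `(mu, cap, pairs with the earlier positions)`, solution
`(α, β, multipliers of the pairs with the earlier positions)` -/
def dual : List (ℕ × ℕ × List (ℕ × ℕ × ℕ × ℕ × ℕ)) → List (ℕ × ℕ × List ℕ) → List (ℕ × ℕ) →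
    ℕ → ℕ → Bool
  | [], _, _, g, c => Nat.blt c g
  | (m, cp, l) :: L, (a, b, gs) :: D, fl, g, c =>
    Nat.beq gs.length l.length &&
      dual L D ((a, b) :: fl) (g + a * m) (c + (b * cp + dpcs (a, b) l gs fl))
  | _, _, _, _, _ => false

/-- the data of the position `k` -/
def datP (mu cap : ℕ → ℕ) (M P S : ℕ → ℕ → ℕ) (k : ℕ) : ℕ × ℕ × List (ℕ × ℕ × ℕ × ℕ × ℕ) :=
  (mu k, cap k, (List.range k).reverse.map fun j => (M j k, M k j, P j k, P k j, S j k))

private lemma dpcs_eq (M P S : ℕ → ℕ → ℕ) (f : ℕ → ℕ × ℕ) (b : ℕ × ℕ) (i : ℕ) :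
    ∀ (k : ℕ) (gs : List ℕ), gs.length = k → ∃ γ : ℕ → ℕ,
      dpcs b ((List.range k).reverse.map fun j => (M j i, M i j, P j i, P i j, S j i)) gs
        ((List.range k).reverse.map f)
        = ∑ j ∈ range k, dpc (f j) b (γ j) (M j i, M i j, P j i, P i j, S j i) := by
  intro k
  induction k with
  | zero => intro gs _; exact ⟨fun _ => 0, by cases gs <;> rfl⟩
  | succ k ih =>
    intro gs hgs
    rcases gs with _ | ⟨g, gs⟩
    · simp at hgs
    obtain ⟨γ, h1⟩ := ih gs (by simpa using hgs)
    refine ⟨fun j => if j = k then g else γ j, ?_⟩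
    rw [List.range_succ, List.reverse_append, List.reverse_singleton, List.singleton_append,
      List.map_cons, List.map_cons, dpcs, h1, sum_range_succ, add_comm]
    congr 1
    · refine sum_congr rfl fun j hj => ?_
      show _ = dpc (f j) b (if j = k then g else γ j) _
      rw [if_neg (by have := mem_range.1 hj; omega)]
    · show _ = dpc (f k) b (if k = k then g else γ k) _
      rw [if_pos rfl]

theorem dual_spec (mu cap : ℕ → ℕ) (M P S : ℕ → ℕ → ℕ) : ∀ (m k : ℕ) (f : ℕ → ℕ × ℕ)
    (γ : ℕ → ℕ → ℕ) (D : List (ℕ × ℕ × List ℕ)),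
    dual ((List.range' k m).map (datP mu cap M P S)) D ((List.range k).reverse.map f)
      (∑ i ∈ range k, (f i).1 * mu i) (dcst cap M P S f γ k) = true →
    ∃ (f' : ℕ → ℕ × ℕ) (γ' : ℕ → ℕ → ℕ),
      dcst cap M P S f' γ' (k + m) < ∑ i ∈ range (k + m), (f' i).1 * mu i := by
  intro m
  induction m with
  | zero =>
    intro k f γ D h
    rw [List.range'_zero, List.map_nil, dual, Nat.blt_eq] at h
    exact ⟨f, γ, h⟩
  | succ m ih =>
    intro k f γ D h
    rcases D with _ | ⟨⟨a, b, gs⟩, D⟩
    · rw [List.range'_succ, List.map_cons, datP, dual] at h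
      · simp at h
      all_goals simp
    rw [List.range'_succ, List.map_cons, datP, dual, Bool.and_eq_true] at h
    obtain ⟨h1, h2⟩ := h
    have h3 : gs.length = k := by
      have := Nat.eq_of_beq_eq_true h1
      simpa using this
    obtain ⟨γ', h4⟩ := dpcs_eq M P S f (a, b) k k gs h3
    rw [h4] at h2
    set f' : ℕ → ℕ × ℕ := fun i => if i = k then (a, b) else f i with hf'
    have hf1 : f' k = (a, b) := by rw [hf']; exact if_pos rfl
    have hf2 : ∀ i, i < k → f' i = f i := fun i hi => by
      rw [hf']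
      exact if_neg (by omega)
    set γ₂ : ℕ → ℕ → ℕ := fun j i => if i = k then γ' j else γ j i with hγ₂
    have hl : (List.range (k + 1)).reverse.map f' = (a, b) :: (List.range k).reverse.map f := by
      rw [List.range_succ, List.reverse_append, List.reverse_singleton, List.singleton_append,
        List.map_cons, hf1]
      congr 1
      refine List.map_congr_left fun i hi => ?_
      rw [List.mem_reverse, List.mem_range] at hi
      exact hf2 i hi
    have hs : ∑ i ∈ range (k + 1), (f' i).1 * mu i = ∑ i ∈ range k, (f i).1 * mu i + a * mu k := by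
      rw [sum_range_succ, hf1]
      congr 1
      exact sum_congr rfl fun i hi => by rw [hf2 i (mem_range.1 hi)]
    have hc : dcst cap M P S f' γ₂ (k + 1) = dcst cap M P S f γ k + (b * cap k
        + ∑ j ∈ range k, dpc (f j) (a, b) (γ' j) (M j k, M k j, P j k, P k j, S j k)) := by
      rw [dcst, sum_range_succ, hf1, dcst]
      congr 1
      · refine sum_congr rfl fun i hi => ?_
        have hi' := mem_range.1 hi
        rw [hf2 i hi']
        congr 1
        refine sum_congr rfl fun j hj => ?_
        rw [hf2 j ((mem_range.1 hj).trans hi')]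
        show dpc (f j) (f i) (if i = k then γ' j else γ j i) _ = _
        rw [if_neg (by omega)]
      · congr 1
        refine sum_congr rfl fun j hj => ?_
        rw [hf2 j (mem_range.1 hj)]
        show dpc (f j) (a, b) (if k = k then γ' j else γ j k) _ = _
        rw [if_pos rfl]
    rw [← hl, ← hs, ← hc] at h2
    obtain ⟨f₃, γ₃, h5⟩ := ih (k + 1) f' γ₂ D h2
    rw [show k + 1 + m = k + (m + 1) by omega] at h5
    exact ⟨f₃, γ₃, h5⟩

/-- **no loads** -/
theorem dual_no {n : ℕ} {mu cap : ℕ → ℕ} {M P S : ℕ → ℕ → ℕ} {D : List (ℕ × ℕ × List ℕ)}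
    (h : dual ((List.range n).map (datP mu cap M P S)) D [] 0 0 = true) (V : ℕ → ℕ → ℕ) :
    ¬ FlowP n mu cap M P S V := by
  intro hV
  rw [List.range_eq_range'] at h
  obtain ⟨f', γ', h1⟩ := dual_spec mu cap M P S n 0 (fun _ => (0, 0)) (fun _ _ => 0) D (by
    simpa [dcst] using h)
  rw [zero_add] at h1
  exact absurd (hV.dual f' γ') (not_le.2 h1)

end Dual

end Kern

end Pool.Agent.Lib.MP_f04ccf_co
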