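import Pool.Agent.Lib.MP_f04ccf_co.M.KernB
import Pool.Agent.Lib.MP_f04ccf_co.M.ItE

/-!
MP_f04ccf_co, PLAN W, finite part: the worlds `ItE` go through the enumeration `Kern.enumW`.
`BI.enumA`: rows with arbitrary row data `x i : α` (table strictly sorted by a key).
`Kern.row3`: the key of a triple, `ItE.enum3`: rows `(t, h, mu, b)` ranked by `t`, `h`, `mu`.
`Kern.allTab`: every row allowed by a Boolean test occurs in the table.
-/

set_option autoImplicit false

namespace Pool.Agent.Lib.MP_f04ccf_co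

open Finset

attribute [local instance] Classical.propDecidable

section ListA

variable {R : ℤ} {n : ℕ} {t s h e : ℕ → ℤ} {E : ℕ → ℕ → ℤ} {α : Type*}

/-- **the basic integers go through the enumeration**, rows with arbitrary row data -/
theorem BI.enumA (H : BI R n t s h e E) {ft fh fb κ : α → ℕ} {tab : List α} {M K : ℕ}
    {leaf : List α → Bool} (hs : Kern.srt κ tab = true) (hK : R + 1 ≤ K) (hM : R - n ≤ M)
    (x : ℕ → α) (hx : ∀ i, i < n → x i ∈ tab ∧ (ft (x i) : ℤ) = t i ∧ (fh (x i) : ℤ) = h i)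
    (hκ : ∀ i j, i < j → j < n → κ (x j) ≤ κ (x i))
    (he : Kern.enumW ft fh fb M K (n + 1) leaf n tab = true) :
    leaf ((List.range n).map x).reverse = true := by
  have e1 : ((((List.range n).map x).map ft).sum : ℤ) = ∑ i ∈ range n, t i := by
    rw [List.map_map, Kern.sum_map_range]
    push_cast
    exact sum_congr rfl fun i hi => (hx i (mem_range.1 hi)).2.1
  have e2 : ((((List.range n).map x).map fh).sum : ℤ) = ∑ i ∈ range n, h i := by
    rw [List.map_map, Kern.sum_map_range]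
    push_cast
    exact sum_congr rfl fun i hi => (hx i (mem_range.1 hi)).2.2
  have e3 : ∑ i ∈ range n, h i = ∑ i ∈ range n, t i + (n + 1) := by
    rw [sum_congr rfl fun i hi => H.hh i (mem_range.1 hi), sum_add_distrib, sum_add_distrib,
      sum_const, card_range, nsmul_eq_mul, mul_one, H.ss]
    ring
  have h1 := H.st
  have h2 := H.sh
  refine Kern.enumW_sound he (by rw [List.length_map, List.length_range]) ?_ ?_ ?_ ?_
  · refine Kern.inTab_of_key (Kern.srt_pairwise hs) (fun a ha => ?_)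
      (Kern.map_range_pairwise hκ)
    obtain ⟨i, hi, rfl⟩ := List.mem_map.1 ha
    exact (hx i (List.mem_range.1 hi)).1
  · have : ((((List.range n).map x).map ft).sum : ℤ) ≤ M := by
      rw [e1]
      linarith
    exact_mod_cast this
  · have : ((((List.range n).map x).map fh).sum : ℤ) ≤ K := by
      rw [e2]
      linarith
    exact_mod_cast this
  · have : ((((List.range n).map x).map fh).sum : ℤ)
        = (((List.range n).map x).map ft).sum + (n + 1) := by
      rw [e1, e2]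
      exact e3
    exact_mod_cast this

end ListA

namespace Kern

/-- every triple below the bounds which passes the test occurs in the table -/
def allTab (Mt Mh Mm : ℕ) (ok : ℕ → ℕ → ℕ → Bool) (mem : ℕ → ℕ → ℕ → Bool) : Bool :=
  (List.range (Mt + 1)).all fun a => (List.range (Mh + 1)).all fun b =>
    (List.range (Mm + 1)).all fun c => !(ok a b c) || mem a b c

theorem allTab_spec {Mt Mh Mm : ℕ} {ok mem : ℕ → ℕ → ℕ → Bool}
    (h : allTab Mt Mh Mm ok mem = true) {a b c : ℕ} (ha : a ≤ Mt) (hb : b ≤ Mh) (hc : c ≤ Mm)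
    (h1 : ok a b c = true) : mem a b c = true := by
  rw [allTab, List.all_eq_true] at h
  have h2 := h a (List.mem_range.2 (Nat.lt_succ_of_le ha))
  rw [List.all_eq_true] at h2
  have h3 := h2 b (List.mem_range.2 (Nat.lt_succ_of_le hb))
  rw [List.all_eq_true] at h3
  have h4 := h3 c (List.mem_range.2 (Nat.lt_succ_of_le hc))
  rw [h1] at h4
  simpa using h4

/-- look up a triple in a table of quadruples `(t, h, mu, b)` -/
def look (tab : List (ℕ × ℕ × ℕ × ℕ)) (a b c : ℕ) : Option (ℕ × ℕ × ℕ × ℕ) :=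
  tab.find? fun x => Nat.beq x.1 a && Nat.beq x.2.1 b && Nat.beq x.2.2.1 c

theorem look_spec {tab : List (ℕ × ℕ × ℕ × ℕ)} {a b c : ℕ} {x : ℕ × ℕ × ℕ × ℕ}
    (h : look tab a b c = some x) : x ∈ tab ∧ x.1 = a ∧ x.2.1 = b ∧ x.2.2.1 = c := by
  rw [look] at h
  have h1 := List.find?_some h
  have h2 := List.mem_of_find?_eq_some h
  rw [Bool.and_eq_true, Bool.and_eq_true, Nat.beq_eq, Nat.beq_eq, Nat.beq_eq] at h1
  exact ⟨h2, h1.1.1, h1.1.2, h1.2⟩

/-- the lexicographic key -/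
def key3 (N : ℕ) (x : ℕ × ℕ × ℕ × ℕ) : ℕ := (x.1 * N + x.2.1) * N + x.2.2.1

theorem key3_le {N : ℕ} {x y : ℕ × ℕ × ℕ × ℕ} (h1 : y.2.1 < N) (h2 : y.2.2.1 < N)
    (h : y.1 < x.1 ∨ y.1 = x.1 ∧ (y.2.1 < x.2.1 ∨ y.2.1 = x.2.1 ∧ y.2.2.1 ≤ x.2.2.1)) :
    key3 N y ≤ key3 N x := by
  unfold key3
  have key : ∀ p q : ℕ, p + 1 ≤ q → p * N + N ≤ q * N := fun p q h => by
    have := Nat.mul_le_mul_right N h
    rw [add_mul, one_mul] at this
    exact this
  rcases h with h | ⟨h, h' | ⟨h', h''⟩⟩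
  · have h3 := key _ _ h
    have h5 := key (y.1 * N + y.2.1) (x.1 * N + x.2.1) (by omega)
    omega
  · rw [h]
    have h5 := key (x.1 * N + y.2.1) (x.1 * N + x.2.1) (by omega)
    omega
  · rw [h, h']
    omega

end Kern

section Three

variable {ι : Type*} {R : ℤ} {n : ℕ} {t s h e : ℕ → ℤ} {E : ℕ → ℕ → ℤ} {U : Finset ι}
  {ho : ι → ℕ} {vl : ι → ℤ} {kp ms mr : ℕ → ι → ℤ} {mu Nb : ℕ → ℤ} {Nx : ℕ → ℕ → ℤ}

lemma ItE.mu_le (H : ItE R n t s h e E U ho vl kp ms mr mu Nb Nx) {i : ℕ} (hi : i < n) :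
    mu i ≤ h i := H.muh i hi

/-- **the worlds with items go through the enumeration of the triples `(t, h, mu)`**: the table
`tab` of quadruples `(t, h, mu, b)` contains every row which passes `ok` -/
theorem ItE.enum3 (H : ItE R n t s h e E U ho vl kp ms mr mu Nb Nx)
    (lex : ∀ i j, i ≤ j → j < n → t j < t i ∨ t j = t i ∧
      (h j < h i ∨ h j = h i ∧ mu j ≤ mu i))
    {tab : List (ℕ × ℕ × ℕ × ℕ)} {N M K : ℕ} {leaf : List (ℕ × ℕ × ℕ × ℕ) → Bool}
    {ok : ℕ → ℕ → ℕ → Bool} (hK : R + 1 ≤ K) (hN : K < N) (hM : R - n ≤ M)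
    (hok : ∀ i, i < n → ok (t i).toNat (h i).toNat (mu i).toNat = true)
    (hs : Kern.srt (Kern.key3 N) tab = true)
    (ht : Kern.allTab M K K ok (fun a b c => (Kern.look tab a b c).isSome) = true)
    (he : Kern.enumW (fun a : ℕ × ℕ × ℕ × ℕ => a.1) (fun a => a.2.1) (fun a => a.2.2.2) M K (n + 1)
      leaf n tab = true) :
    ∃ x : ℕ → ℕ × ℕ × ℕ × ℕ, (∀ i, i < n → x i ∈ tab ∧ ((x i).1 : ℤ) = t i ∧
      ((x i).2.1 : ℤ) = h i ∧ ((x i).2.2.1 : ℤ) = mu i) ∧
      leaf ((List.range n).map x).reverse = true := by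
  have b1 : ∀ i, i < n → t i ≤ M := by
    intro i hi
    have h1 := single_le_sum (f := t) (fun i hi => H.t0 i (mem_range.1 hi)) (mem_range.2 hi)
    have h2 := H.st
    linarith
  have b2 : ∀ i, i < n → h i ≤ K := by
    intro i hi
    have h1 := single_le_sum (f := h) (fun i hi => H.h0 i (mem_range.1 hi)) (mem_range.2 hi)
    have h2 := H.sh
    linarith
  have key : ∀ i, ∃ x : ℕ × ℕ × ℕ × ℕ, i < n → x ∈ tab ∧ (x.1 : ℤ) = t i ∧
      (x.2.1 : ℤ) = h i ∧ (x.2.2.1 : ℤ) = mu i := by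
    intro i
    by_cases hi : i < n
    · have c1 := H.t0 i hi
      have c2 := H.h0 i hi
      have c3 := H.mu0 hi
      have c4 := b1 i hi
      have c5 := b2 i hi
      have c6 := H.muh i hi
      have h1 := Kern.allTab_spec ht (a := (t i).toNat) (b := (h i).toNat) (c := (mu i).toNat)
        (by omega) (by omega) (by omega) (hok i hi)
      obtain ⟨x, hx⟩ := Option.isSome_iff_exists.1 h1
      obtain ⟨h2, h3, h4, h5⟩ := Kern.look_spec hx
      exact ⟨x, fun _ => ⟨h2, by omega, by omega, by omega⟩⟩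
    · exact ⟨(0, 0, 0, 0), fun h => absurd h hi⟩
  choose x hx using key
  refine ⟨x, hx, ?_⟩
  refine H.toItN.toBI.enumA (κ := Kern.key3 N) hs hK hM x
    (fun i hi => ⟨(hx i hi).1, (hx i hi).2.1, (hx i hi).2.2.1⟩) (fun i j hij hj => ?_) he
  obtain ⟨-, a1, a2, a3⟩ := hx i (hij.trans hj)
  obtain ⟨-, a4, a5, a6⟩ := hx j hj
  have c5 := b2 j hj
  have c6 := H.muh j hj
  refine Kern.key3_le (by omega) (by omega) ?_
  rcases lex i j hij.le hj with h1 | ⟨h1, h1 | ⟨h1, h2⟩⟩
  · left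
    omega
  · right
    exact ⟨by omega, Or.inl (by omega)⟩
  · right
    exact ⟨by omega, Or.inr ⟨by omega, by omega⟩⟩

end Three

end Pool.Agent.Lib.MP_f04ccf_co
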