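import Pool.Agent.Lib.MP_f04ccf_co.M.KernC

/-!
MP_f04ccf_co: kernel checks (F5), FAST CUT CHECK.  All `4 ^ n` cut inequalities of `Kern.Flow` at once:
the costs (and the demands) of the `4 ^ n` cuts are the digits of one large number in base `2 ^ w`, built
from the rows by a few additions and multiplications, compared by one bitwise `and`.
`Kern.cutS w L lv C G K`: the check; `Kern.lvs w n`: its table of masks (depends on `w`, `n` only);
`Kern.cutF w n mu cap M N l`: the check of a list `l` of `n` rows, the same data as `Kern.cutL`;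
`Kern.cutF_no`, `Kern.cutF_no'`: if it succeeds there is no `Flow`.
All functions in the check are written with the recursors, for speed under `decide +kernel`.
-/

set_option autoImplicit false

namespace Pool.Agent.Lib.MP_f04ccf_co

open Finset

namespace Kern

section Vec

variable (w : ℕ)

/-- the shift by `4 ^ k` digits -/
def Sh (k : ℕ) : ℕ := 2 ^ (w * 4 ^ k)

/-- the number with the digits `c fl`, `fl` all lists of `k` choices (newest first) -/
def vec : ℕ → (List (Bool × Bool) → ℕ) → ℕ
  | 0, c => c []
  | k + 1, c => vec k (fun l => c ((false, false) :: l)) + Sh w k *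
      (vec k (fun l => c ((false, true) :: l)) + Sh w k *
      (vec k (fun l => c ((true, true) :: l)) + Sh w k * vec k (fun l => c ((true, false) :: l))))

variable {w}

lemma vec_congr : ∀ {k : ℕ} {c d : List (Bool × Bool) → ℕ},
    (∀ l, l.length = k → c l = d l) → vec w k c = vec w k d := by
  intro k
  induction k with
  | zero => intro c d h; exact h [] rfl
  | succ k ih =>
    intro c d h
    have h1 : ∀ b : Bool × Bool, vec w k (fun l => c (b :: l)) = vec w k (fun l => d (b :: l)) :=
      fun b => ih fun l hl => h _ (by simp [hl])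
    simp only [vec, h1]

lemma vec_add : ∀ (k : ℕ) (c d : List (Bool × Bool) → ℕ),
    vec w k (fun l => c l + d l) = vec w k c + vec w k d := by
  intro k
  induction k with
  | zero => intro c d; rfl
  | succ k ih =>
    intro c d
    simp only [vec, ih]
    ring

lemma vec_mul : ∀ (k a : ℕ) (c : List (Bool × Bool) → ℕ),
    vec w k (fun l => a * c l) = a * vec w k c := by
  intro k
  induction k with
  | zero => intro a c; rfl
  | succ k ih =>
    intro a c
    simp only [vec, ih]
    ring

lemma vec_zero (k : ℕ) : vec w k (fun _ => 0) = 0 := by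
  have h := vec_mul (w := w) k 0 (fun _ => 0)
  simpa using h

/-- all digits less than the base: the number is less than the shift -/
lemma vec_lt : ∀ {k : ℕ} {c : List (Bool × Bool) → ℕ}, (∀ l, l.length = k → c l < 2 ^ w) →
    vec w k c < Sh w k := by
  intro k
  induction k with
  | zero => intro c h; simpa [vec, Sh] using h [] rfl
  | succ k ih =>
    intro c h
    have h1 : ∀ b : Bool × Bool, vec w k (fun l => c (b :: l)) < Sh w k :=
      fun b => ih fun l hl => h _ (by simp [hl])
    have a0 := h1 (false, false)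
    have a1 := h1 (false, true)
    have a2 := h1 (true, true)
    have a3 := h1 (true, false)
    have h2 : Sh w (k + 1) = Sh w k * (Sh w k * (Sh w k * Sh w k)) := by
      rw [Sh, Sh, ← pow_add, ← pow_add, ← pow_add]
      congr 1
      rw [pow_succ]
      ring
    rw [vec, h2]
    set S := Sh w k
    set x0 := vec w k (fun l => c ((false, false) :: l))
    set x1 := vec w k (fun l => c ((false, true) :: l))
    set x2 := vec w k (fun l => c ((true, true) :: l))
    set x3 := vec w k (fun l => c ((true, false) :: l))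
    have e : ∀ x y z : ℕ, x < S → y < z → x + S * y < S * z := by
      intro x y z hx hy
      have := Nat.mul_le_mul_left S (Nat.succ_le_of_lt hy)
      rw [Nat.mul_succ] at this
      omega
    exact e _ _ _ a0 (e _ _ _ a1 (e _ _ _ a2 a3))

lemma Sh_pow (k : ℕ) : Sh w k = 2 ^ (w * 4 ^ k) := rfl

/-- bitwise and of two numbers digit by digit (blocks) -/
lemma land_block {m x x' y y' : ℕ} (hx : x < 2 ^ m) (hy : y < 2 ^ m) :
    Nat.land (x + 2 ^ m * x') (y + 2 ^ m * y') = Nat.land x y + 2 ^ m * Nat.land x' y' := by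
  have hxy : Nat.land x y < 2 ^ m := Nat.and_lt_two_pow x hy
  apply Nat.eq_of_testBit_eq
  intro i
  show Nat.testBit ((x + 2 ^ m * x') &&& (y + 2 ^ m * y')) i = _
  rw [Nat.testBit_and, add_comm x, add_comm y, add_comm (Nat.land x y),
    Nat.testBit_two_pow_mul_add _ hx, Nat.testBit_two_pow_mul_add _ hy,
    Nat.testBit_two_pow_mul_add _ hxy]
  split_ifs with h
  · exact (Nat.testBit_and x y i).symm
  · exact (Nat.testBit_and x' y' _).symm

lemma vec_land : ∀ {k : ℕ} {c d : List (Bool × Bool) → ℕ}, (∀ l, l.length = k → c l < 2 ^ w) →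
    (∀ l, l.length = k → d l < 2 ^ w) →
    Nat.land (vec w k c) (vec w k d) = vec w k (fun l => Nat.land (c l) (d l)) := by
  intro k
  induction k with
  | zero => intro c d _ _; rfl
  | succ k ih =>
    intro c d hc hd
    have h1 : ∀ b : Bool × Bool, vec w k (fun l => c (b :: l)) < 2 ^ (w * 4 ^ k) :=
      fun b => vec_lt fun l hl => hc _ (by simp [hl])
    have h2 : ∀ b : Bool × Bool, vec w k (fun l => d (b :: l)) < 2 ^ (w * 4 ^ k) :=
      fun b => vec_lt fun l hl => hd _ (by simp [hl])
    have h3 : ∀ b : Bool × Bool, Nat.land (vec w k (fun l => c (b :: l)))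
        (vec w k (fun l => d (b :: l))) = vec w k (fun l => Nat.land (c (b :: l)) (d (b :: l))) :=
      fun b => ih (fun l hl => hc _ (by simp [hl])) (fun l hl => hd _ (by simp [hl]))
    simp only [vec, Sh_pow]
    rw [land_block (h1 _) (h2 _), land_block (h1 _) (h2 _), land_block (h1 _) (h2 _)]
    simp only [h3]

/-- **the comparison**: digits `g ≤ c < 2 ^ (w - 1)` pass the test -/
theorem vec_test {k : ℕ} {c g : List (Bool × Bool) → ℕ} {v : ℕ} (hw : w = v + 1)
    (h1 : ∀ l, l.length = k → g l ≤ c l) (h2 : ∀ l, l.length = k → c l < 2 ^ v) :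
    Nat.land (Nat.sub (Nat.add (vec w k c) (vec w k fun _ => 2 ^ v)) (vec w k g))
      (vec w k fun _ => 2 ^ v) = vec w k fun _ => 2 ^ v := by
  have e1 : Nat.sub (Nat.add (vec w k c) (vec w k fun _ => 2 ^ v)) (vec w k g)
      = vec w k (fun l => (c l - g l) + 2 ^ v) := by
    have e2 : vec w k c = vec w k (fun l => (c l - g l) + g l) :=
      vec_congr fun l hl => by have := h1 l hl; omega
    rw [e2, vec_add, vec_add]
    show vec w k (fun l => c l - g l) + vec w k g + vec w k (fun _ => 2 ^ v) - vec w k g = _
    omega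
  have hp : 2 ^ w = 2 ^ v + 2 ^ v := by rw [hw, pow_succ]; ring
  have hv : 0 < 2 ^ v := Nat.two_pow_pos v
  rw [e1, vec_land (fun l hl => by have := h2 l hl; omega) (fun l _ => by omega)]
  refine vec_congr fun l hl => ?_
  have h3 : c l - g l < 2 ^ v := by have := h2 l hl; omega
  have h4 : Nat.land (c l - g l + 2 ^ v * 1) (0 + 2 ^ v * 1) = _ := land_block h3 hv
  rw [mul_one, zero_add] at h4
  rw [h4]
  have h5 : Nat.land (c l - g l) 0 = 0 := Nat.and_zero _
  have h6 : Nat.land 1 1 = 1 := rfl
  rw [h5, h6]
  omega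

end Vec

section Mask

variable (w : ℕ)

/-- the number with all digits `1` -/
noncomputable def one (k : ℕ) : ℕ :=
  Nat.rec 1 (fun k o => Nat.mul o (Nat.add 1 (Nat.mul (Sh w k) (Nat.add 1 (Nat.mul (Sh w k)
    (Nat.add 1 (Sh w k))))))) k

/-- the digits of a mask at the level `k`, repeated for the four choices of the next position -/
noncomputable def rpt (k m : ℕ) : ℕ :=
  Nat.mul m (Nat.add 1 (Nat.mul (Sh w k) (Nat.add 1 (Nat.mul (Sh w k) (Nat.add 1 (Sh w k))))))

/-- the five masks of the newest position -/
noncomputable def new5 (k : ℕ) : ℕ × ℕ × ℕ × ℕ × ℕ :=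
  (Nat.mul (one w k) (Nat.mul (Sh w k) (Nat.mul (Sh w k) (Nat.add 1 (Sh w k)))),
   Nat.mul (one w k) (Nat.add 1 (Nat.mul (Sh w k) (Nat.mul (Sh w k) (Sh w k)))),
   Nat.mul (one w k) (Nat.mul (Sh w k) (Sh w k)),
   Nat.mul (one w k) (Nat.mul (Sh w k) (Nat.mul (Sh w k) (Sh w k))),
   one w k)

/-- the masks of all positions at the level `k` (newest first) -/
noncomputable def masks (k : ℕ) : List (ℕ × ℕ × ℕ × ℕ × ℕ) :=
  Nat.rec [] (fun k ms => new5 w k :: ms.map fun q => (rpt w k q.1, rpt w k q.2.1,
    rpt w k q.2.2.1, rpt w k q.2.2.2.1, rpt w k q.2.2.2.2)) k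

/-- the levels `k`, .., `k + m - 1` -/
noncomputable def lvs (m : ℕ) : ℕ → List (ℕ × ℕ × List (ℕ × ℕ × ℕ × ℕ × ℕ)) :=
  Nat.rec (fun _ => []) (fun _ ih k => (Sh w k, one w k, masks w k) :: ih (Nat.succ k)) m

/-- what the masks of the position `i` (counted from the newest) mean -/
def M5 (k i : ℕ) : ℕ × ℕ × ℕ × ℕ × ℕ :=
  (vec w k fun l => (l.getD i (false, false)).1.toNat,
   vec w k fun l => (!(l.getD i (false, false)).2).toNat,
   vec w k fun l => ((l.getD i (false, false)).1 && (l.getD i (false, false)).2).toNat,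
   vec w k fun l => ((l.getD i (false, false)).1 && !(l.getD i (false, false)).2).toNat,
   vec w k fun l => (!(l.getD i (false, false)).1 && !(l.getD i (false, false)).2).toNat)

lemma one_eq (k : ℕ) : one w k = vec w k fun _ => 1 := by
  induction k with
  | zero => rfl
  | succ k ih =>
    show one w k * (1 + Sh w k * (1 + Sh w k * (1 + Sh w k))) = _
    rw [ih, vec]
    ring

lemma vec_const (k a : ℕ) : vec w k (fun _ => a) = a * one w k := by
  rw [one_eq, ← vec_mul]
  simp

lemma vec_head (k : ℕ) (φ : Bool × Bool → ℕ) :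
    vec w (k + 1) (fun l => φ (l.getD 0 (false, false))) = one w k * (φ (false, false) + Sh w k *
      (φ (false, true) + Sh w k * (φ (true, true) + Sh w k * φ (true, false)))) := by
  rw [vec]
  simp only [List.getD_cons_zero, vec_const]
  ring

lemma vec_tail (k i : ℕ) (φ : Bool × Bool → ℕ) :
    vec w (k + 1) (fun l => φ (l.getD (i + 1) (false, false)))
      = rpt w k (vec w k fun l => φ (l.getD i (false, false))) := by
  rw [vec]
  simp only [List.getD_cons_succ]
  show _ = vec w k _ * (1 + Sh w k * (1 + Sh w k * (1 + Sh w k)))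
  ring

lemma masks_eq (k : ℕ) : masks w k = (List.range k).map (M5 w k) := by
  induction k with
  | zero => rfl
  | succ k ih =>
    show new5 w k :: (masks w k).map _ = _
    rw [ih, List.range_succ_eq_map, List.map_cons, List.map_map, List.map_map]
    congr 1
    · unfold new5 M5
      rw [vec_head w k (fun b => b.1.toNat), vec_head w k (fun b => (!b.2).toNat),
        vec_head w k (fun b => (b.1 && b.2).toNat), vec_head w k (fun b => (b.1 && !b.2).toNat),
        vec_head w k (fun b => (!b.1 && !b.2).toNat)]
      simp only [Bool.toNat_false, Bool.toNat_true, Bool.not_false, Bool.not_true, Bool.and_true,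
        Bool.and_false, Bool.and_self, Nat.mul_eq, Nat.add_eq]
      refine Prod.ext ?_ (Prod.ext ?_ (Prod.ext ?_ (Prod.ext ?_ ?_))) <;> simp only [] <;> ring
    · refine List.map_congr_left fun i _ => ?_
      show (rpt w k (M5 w k i).1, rpt w k (M5 w k i).2.1, rpt w k (M5 w k i).2.2.1,
        rpt w k (M5 w k i).2.2.2.1, rpt w k (M5 w k i).2.2.2.2) = M5 w (k + 1) (i + 1)
      unfold M5
      rw [vec_tail w k i (fun b => b.1.toNat), vec_tail w k i (fun b => (!b.2).toNat),
        vec_tail w k i (fun b => (b.1 && b.2).toNat), vec_tail w k i (fun b => (b.1 && !b.2).toNat),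
        vec_tail w k i (fun b => (!b.1 && !b.2).toNat)]

end Mask

section Check

variable {α : Type*}

/-- evaluate the number first -/
noncomputable def frc (x : ℕ) (f : ℕ → Bool) : Bool :=
  Nat.rec (motive := fun _ => Bool) (f 0) (fun m _ => f (Nat.succ m)) x

lemma frc_eq (x : ℕ) (f : ℕ → Bool) : frc x f = f x := by
  cases x <;> rfl

/-- the costs of the pairs of the row `a` with the earlier rows `pre`, for all cuts at once -/
noncomputable def fldP (M N : α → α → ℕ) (a : α) (pre : List α) :
    List (ℕ × ℕ × ℕ × ℕ × ℕ) → ℕ → ℕ → ℕ → ℕ → (ℕ → ℕ → ℕ → ℕ → Bool) → Bool :=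
  List.rec (motive := fun _ => List (ℕ × ℕ × ℕ × ℕ × ℕ) → ℕ → ℕ → ℕ → ℕ →
      (ℕ → ℕ → ℕ → ℕ → Bool) → Bool)
    (fun _ u v y s f => f u v y s)
    (fun b _ ih ms u v y s f => List.rec (motive := fun _ => Bool) (f u v y s)
      (fun q ms' _ => ih ms' (Nat.add u (Nat.mul (M b a) q.1)) (Nat.add v (Nat.mul (M a b) q.2.1))
        (Nat.add y (Nat.add (Nat.mul (M b a) q.2.2.1) (Nat.add (Nat.mul (M a b) q.2.2.2.2)
          (Nat.mul (N b a) q.2.2.2.1)))) (Nat.add s (Nat.add (M b a) (Nat.add (M a b) (N b a)))) f)
      ms) pre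

/-- the check: costs `C`, demands `G` of all cuts of the rows up to now, `s` bound of the costs -/
noncomputable def cutG (mu cap : α → ℕ) (M N : α → α → ℕ) (V K : ℕ) (l : List α) :
    List α → List (ℕ × ℕ × List (ℕ × ℕ × ℕ × ℕ × ℕ)) → ℕ → ℕ → ℕ → Bool :=
  List.rec (motive := fun _ => List α → List (ℕ × ℕ × List (ℕ × ℕ × ℕ × ℕ × ℕ)) →
      ℕ → ℕ → ℕ → Bool)
    (fun _ _ C G s => Bool.rec (motive := fun _ => Bool) false
      (Bool.rec (motive := fun _ => Bool) true false
        (Nat.beq (Nat.land (Nat.sub (Nat.add C K) G) K) K)) (Nat.ble (Nat.succ s) V))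
    (fun a _ ih pre lv C G s => List.rec (motive := fun _ => Bool) false
      (fun q lv' _ => fldP M N a pre q.2.2 0 0 0 (Nat.add s (cap a)) (fun u v y s' =>
        frc (Nat.add (Nat.add C u) (Nat.mul q.1 (Nat.add (Nat.add C (Nat.mul (cap a) q.2.1))
          (Nat.mul q.1 (Nat.add (Nat.add C (Nat.add v (Nat.mul (cap a) q.2.1)))
            (Nat.mul q.1 (Nat.add C y))))))) fun C' =>
        frc (Nat.mul (Nat.add G (Nat.mul q.1 (Nat.mul q.1 (Nat.add G (Nat.mul (mu a) q.2.1)))))
          (Nat.add 1 q.1)) fun G' => ih (a :: pre) lv' C' G' s')) lv) l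

/-- **the fast check** of a list of `n` rows: digits in base `2 ^ (v + 1)` -/
noncomputable def cutF (v n : ℕ) (mu cap : α → ℕ) (M N : α → α → ℕ) (l : List α) : Bool :=
  cutG mu cap M N (2 ^ v) (Nat.mul (2 ^ v) (one (v + 1) n)) l [] (lvs (v + 1) n 0) 0 0 0

/-- the cost after one more row -/
def stC (cap : α → ℕ) (M N : α → α → ℕ) (a : α) (pre : List α) (c : List (Bool × Bool) → ℕ) :
    List (Bool × Bool) → ℕ
  | [] => 0
  | b :: fl => c fl + ((if b.2 then cap a else 0) + pcs b (pre.map fun x => (M x a, M a x, N x a)) fl)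

/-- the demand after one more row -/
def stG (mu : α → ℕ) (a : α) (g : List (Bool × Bool) → ℕ) : List (Bool × Bool) → ℕ
  | [] => 0
  | b :: fl => g fl + (if b.1 then mu a else 0)

/-- the costs at the end -/
def fnC (cap : α → ℕ) (M N : α → α → ℕ) : List α → List α → (List (Bool × Bool) → ℕ) →
    List (Bool × Bool) → ℕ
  | [], _, c => c
  | a :: l, pre, c => fnC cap M N l (a :: pre) (stC cap M N a pre c)

/-- the demands at the end -/
def fnG (mu : α → ℕ) : List α → (List (Bool × Bool) → ℕ) → List (Bool × Bool) → ℕ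
  | [], g => g
  | a :: l, g => fnG mu l (stG mu a g)

/-- the sum of all bounds of the pairs of one row with the earlier ones -/
def tl (M N : α → α → ℕ) (a : α) (pre : List α) : ℕ :=
  (pre.map fun b => M b a + (M a b + N b a)).sum

lemma fldP_nil (M N : α → α → ℕ) (a : α) (ms : List (ℕ × ℕ × ℕ × ℕ × ℕ)) (u v y s : ℕ)
    (f : ℕ → ℕ → ℕ → ℕ → Bool) : fldP M N a [] ms u v y s f = f u v y s := rfl

lemma fldP_cons (M N : α → α → ℕ) (a b : α) (pre : List α) (q : ℕ × ℕ × ℕ × ℕ × ℕ)
    (ms : List (ℕ × ℕ × ℕ × ℕ × ℕ)) (u v y s : ℕ) (f : ℕ → ℕ → ℕ → ℕ → Bool) :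
    fldP M N a (b :: pre) (q :: ms) u v y s f = fldP M N a pre ms (u + M b a * q.1)
      (v + M a b * q.2.1) (y + (M b a * q.2.2.1 + (M a b * q.2.2.2.2 + N b a * q.2.2.2.1)))
      (s + (M b a + (M a b + N b a))) f := rfl

lemma pc_ff (q : Bool × Bool) (a b c : ℕ) : pc q (false, false) a b c = a * q.1.toNat := by
  rcases q with ⟨_ | _, _ | _⟩ <;> simp [pc]

lemma pc_ft (q : Bool × Bool) (a b c : ℕ) : pc q (false, true) a b c = 0 := by
  rcases q with ⟨_ | _, _ | _⟩ <;> simp [pc]

lemma pc_tt (q : Bool × Bool) (a b c : ℕ) : pc q (true, true) a b c = b * (!q.2).toNat := by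
  rcases q with ⟨_ | _, _ | _⟩ <;> simp [pc]

lemma pc_tf (q : Bool × Bool) (a b c : ℕ) : pc q (true, false) a b c = a * (q.1 && q.2).toNat +
    (b * (!q.1 && !q.2).toNat + c * (q.1 && !q.2).toNat) := by
  rcases q with ⟨_ | _, _ | _⟩ <;> simp [pc]

lemma pcs_ft : ∀ (l : List (ℕ × ℕ × ℕ)) (fl : List (Bool × Bool)), pcs (false, true) l fl = 0 := by
  intro l
  induction l with
  | nil => intro fl; rw [pcs]; simp
  | cons a l ih =>
    intro fl
    rcases fl with _ | ⟨b, fl⟩
    · rw [pcs]; simp
    · rw [pcs, pc_ft, ih]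

lemma pcs_nil (b : Bool × Bool) (l : List (ℕ × ℕ × ℕ)) : pcs b l [] = 0 := by
  rcases l with _ | ⟨a, l⟩ <;> rw [pcs] <;> simp

lemma pcs_le (b : Bool × Bool) (M N : α → α → ℕ) (a : α) : ∀ (pre : List α)
    (fl : List (Bool × Bool)), pcs b (pre.map fun x => (M x a, M a x, N x a)) fl ≤ tl M N a pre := by
  intro pre
  induction pre with
  | nil => intro fl; rw [List.map_nil, pcs]; · exact Nat.zero_le _
           all_goals simp
  | cons x pre ih =>
    intro fl
    rcases fl with _ | ⟨q, fl⟩
    · rw [pcs_nil]; exact Nat.zero_le _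
    · rw [List.map_cons, pcs, tl, List.map_cons, List.sum_cons]
      have h1 := ih fl
      rw [tl] at h1
      have h2 : pc q b (M x a) (M a x) (N x a) ≤ M x a + (M a x + N x a) := by
        unfold pc
        split <;> omega
      exact Nat.add_le_add h2 h1

/-- the fold computes the costs of the pairs -/
lemma fldP_eq {w : ℕ} (M N : α → α → ℕ) (a : α) (k : ℕ) (f : ℕ → ℕ → ℕ → ℕ → Bool) :
    ∀ (pre : List α) (m i : ℕ), i + m = k → ∀ (cu cv cy : List (Bool × Bool) → ℕ) (s : ℕ),
    ∃ s' : ℕ, s' ≤ s + tl M N a pre ∧ s ≤ s' ∧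
      (pre.length ≤ m → s' = s + tl M N a pre) ∧
      fldP M N a pre ((List.range' i m).map (M5 w k)) (vec w k cu) (vec w k cv) (vec w k cy) s f
      = f (vec w k fun fl => cu fl + pcs (false, false)
            (pre.map fun x => (M x a, M a x, N x a)) (fl.drop i))
          (vec w k fun fl => cv fl + pcs (true, true)
            (pre.map fun x => (M x a, M a x, N x a)) (fl.drop i))
          (vec w k fun fl => cy fl + pcs (true, false)
            (pre.map fun x => (M x a, M a x, N x a)) (fl.drop i)) s' := by
  intro pre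
  induction pre with
  | nil =>
    intro m i _ cu cv cy s
    refine ⟨s, Nat.le_add_right _ _, le_rfl, fun _ => by simp [tl], ?_⟩
    rw [fldP_nil]
    have h1 : ∀ b fl, pcs b (List.map (fun x => (M x a, M a x, N x a)) []) fl = 0 := by
      intro b fl
      rw [List.map_nil, pcs]
      simp
    simp only [h1, add_zero]
  | cons b pre ih =>
    intro m i him cu cv cy s
    rcases m with _ | m
    · refine ⟨s, Nat.le_add_right _ _, le_rfl, fun h => by simp at h, ?_⟩
      have h1 : ∀ (d : List (Bool × Bool) → ℕ) (b' : Bool × Bool), vec w k (fun fl => d fl + pcs b'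
          ((b :: pre).map fun x => (M x a, M a x, N x a)) (fl.drop i)) = vec w k d := by
        intro d b'
        refine vec_congr fun l hl => ?_
        rw [List.drop_eq_nil_of_le (by omega), pcs_nil, add_zero]
      rw [h1, h1, h1]
      rfl
    · rw [List.range'_succ, List.map_cons, fldP_cons]
      have e1 : vec w k cu + M b a * (M5 w k i).1
          = vec w k (fun l => cu l + M b a * (l.getD i (false, false)).1.toNat) := by
        rw [vec_add, vec_mul]
        rfl
      have e2 : vec w k cv + M a b * (M5 w k i).2.1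
          = vec w k (fun l => cv l + M a b * (!(l.getD i (false, false)).2).toNat) := by
        rw [vec_add, vec_mul]
        rfl
      have e3 : vec w k cy + (M b a * (M5 w k i).2.2.1 + (M a b * (M5 w k i).2.2.2.2
            + N b a * (M5 w k i).2.2.2.1))
          = vec w k (fun l => cy l + (M b a * ((l.getD i (false, false)).1
              && (l.getD i (false, false)).2).toNat + (M a b * (!(l.getD i (false, false)).1
              && !(l.getD i (false, false)).2).toNat + N b a * ((l.getD i (false, false)).1
              && !(l.getD i (false, false)).2).toNat))) := by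
        rw [vec_add, vec_add, vec_add, vec_mul, vec_mul, vec_mul]
        rfl
      rw [e1, e2, e3]
      obtain ⟨s', h1, h2, h3, h4⟩ := ih m (i + 1) (by omega)
        (fun l => cu l + M b a * (l.getD i (false, false)).1.toNat)
        (fun l => cv l + M a b * (!(l.getD i (false, false)).2).toNat)
        (fun l => cy l + (M b a * ((l.getD i (false, false)).1
              && (l.getD i (false, false)).2).toNat + (M a b * (!(l.getD i (false, false)).1
              && !(l.getD i (false, false)).2).toNat + N b a * ((l.getD i (false, false)).1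
              && !(l.getD i (false, false)).2).toNat)))
        (s + (M b a + (M a b + N b a)))
      have ht : tl M N a (b :: pre) = (M b a + (M a b + N b a)) + tl M N a pre := by
        rw [tl, List.map_cons, List.sum_cons, tl]
      refine ⟨s', by omega, by omega, fun h => ?_, ?_⟩
      · rw [h3 (by simpa using h)]
        omega
      rw [h4]
      have hd : ∀ l : List (Bool × Bool), l.length = k →
          l.drop i = l.getD i (false, false) :: l.drop (i + 1) := by
        intro l hl
        rw [List.getD_eq_getElem _ _ (by omega : i < l.length)]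
        exact List.drop_eq_getElem_cons (by omega)
      congr 1
      · refine vec_congr fun l hl => ?_
        rw [hd l hl, List.map_cons, pcs, pc_ff]
        omega
      · refine vec_congr fun l hl => ?_
        rw [hd l hl, List.map_cons, pcs, pc_tt]
        omega
      · refine vec_congr fun l hl => ?_
        rw [hd l hl, List.map_cons, pcs, pc_tf]
        omega

lemma stC_le {cap : α → ℕ} {M N : α → α → ℕ} {a : α} {pre : List α}
    {c : List (Bool × Bool) → ℕ} {k s : ℕ} (h : ∀ fl, fl.length = k → c fl ≤ s) :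
    ∀ fl, fl.length = k + 1 → stC cap M N a pre c fl ≤ s + cap a + tl M N a pre := by
  intro fl hfl
  rcases fl with _ | ⟨b, fl⟩
  · simp at hfl
  · rw [stC]
    have h1 := h fl (by simpa using hfl)
    have h2 := pcs_le b M N a pre fl
    have h3 : (if b.2 then cap a else 0) ≤ cap a := by split_ifs <;> simp
    omega

lemma cutG_nil (mu cap : α → ℕ) (M N : α → α → ℕ) (V K : ℕ) (pre : List α)
    (lv : List (ℕ × ℕ × List (ℕ × ℕ × ℕ × ℕ × ℕ))) (C G s : ℕ)
    (h : cutG mu cap M N V K [] pre lv C G s = true) :
    s < V ∧ Nat.land (Nat.sub (Nat.add C K) G) K ≠ K := by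
  have h' : Bool.rec (motive := fun _ => Bool) false
      (Bool.rec (motive := fun _ => Bool) true false
        (Nat.beq (Nat.land (Nat.sub (Nat.add C K) G) K) K)) (Nat.ble (Nat.succ s) V) = true := h
  rcases h1 : Nat.ble (Nat.succ s) V with _ | _
  · rw [h1] at h'
    exact absurd h' (by simp)
  · rw [h1] at h'
    rcases h2 : Nat.beq (Nat.land (Nat.sub (Nat.add C K) G) K) K with _ | _
    · refine ⟨Nat.le_of_ble_eq_true h1, fun h3 => ?_⟩
      rw [h3, Nat.beq_refl] at h2
      exact absurd h2 (by simp)
    · rw [h2] at h'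
      exact absurd h' (by simp)

lemma cutG_cons (mu cap : α → ℕ) (M N : α → α → ℕ) (V K : ℕ) (a : α) (l pre : List α)
    (q : ℕ × ℕ × List (ℕ × ℕ × ℕ × ℕ × ℕ)) (lv : List (ℕ × ℕ × List (ℕ × ℕ × ℕ × ℕ × ℕ)))
    (C G s : ℕ) : cutG mu cap M N V K (a :: l) pre (q :: lv) C G s
      = fldP M N a pre q.2.2 0 0 0 (s + cap a) (fun u v y s' =>
        cutG mu cap M N V K l (a :: pre) lv
          (C + u + q.1 * (C + cap a * q.2.1 + q.1 * (C + (v + cap a * q.2.1) + q.1 * (C + y))))
          ((G + q.1 * (q.1 * (G + mu a * q.2.1))) * (1 + q.1)) s') := by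
  show fldP M N a pre q.2.2 0 0 0 (s + cap a) (fun u v y s' =>
        frc (C + u + q.1 * (C + cap a * q.2.1 + q.1 * (C + (v + cap a * q.2.1) + q.1 * (C + y))))
          fun C' => frc ((G + q.1 * (q.1 * (G + mu a * q.2.1))) * (1 + q.1))
            fun G' => cutG mu cap M N V K l (a :: pre) lv C' G' s') = _
  simp only [frc_eq]

lemma lvs_succ (w m k : ℕ) : lvs w (m + 1) k = (Sh w k, one w k, masks w k) :: lvs w m (k + 1) :=
  rfl

/-- **soundness of the check** -/
theorem cutG_spec (mu cap : α → ℕ) (M N : α → α → ℕ) (v K : ℕ) : ∀ (l pre : List α) (k : ℕ)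
    (c g : List (Bool × Bool) → ℕ) (s : ℕ), pre.length = k → (∀ fl, fl.length = k → c fl ≤ s) →
    K = vec (v + 1) (k + l.length) (fun _ => 2 ^ v) →
    cutG mu cap M N (2 ^ v) K l pre (lvs (v + 1) l.length k) (vec (v + 1) k c) (vec (v + 1) k g) s
      = true →
    ∃ fl, fl.length = k + l.length ∧ fnC cap M N l pre c fl < fnG mu l g fl := by
  intro l
  induction l with
  | nil =>
    intro pre k c g s _ hs hK h
    obtain ⟨h1, h2⟩ := cutG_nil _ _ _ _ _ _ _ _ _ _ _ h
    by_contra hno
    apply h2
    have hno' : ∀ fl : List (Bool × Bool), fl.length = k → g fl ≤ c fl := by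
      intro fl hfl
      by_contra h3
      exact hno ⟨fl, by simpa using hfl, not_le.1 h3⟩
    rw [hK]
    exact vec_test rfl hno' fun fl hfl => lt_of_le_of_lt (hs fl hfl) h1
  | cons a l ih =>
    intro pre k c g s hpre hs hK h
    rw [List.length_cons, lvs_succ, cutG_cons, masks_eq, List.range_eq_range'] at h
    have e0 : (0 : ℕ) = vec (v + 1) k (fun _ => 0) := (vec_zero k).symm
    obtain ⟨s', h1, h2, h3, h4⟩ := fldP_eq (w := v + 1) M N a k (fun u v' y s' =>
        cutG mu cap M N (2 ^ v) K l (a :: pre) (lvs (v + 1) l.length (k + 1))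
          (vec (v + 1) k c + u + Sh (v + 1) k * (vec (v + 1) k c + cap a * one (v + 1) k
            + Sh (v + 1) k * (vec (v + 1) k c + (v' + cap a * one (v + 1) k)
            + Sh (v + 1) k * (vec (v + 1) k c + y))))
          ((vec (v + 1) k g + Sh (v + 1) k * (Sh (v + 1) k * (vec (v + 1) k g
            + mu a * one (v + 1) k))) * (1 + Sh (v + 1) k)) s')
      pre k 0 (by omega) (fun _ => 0) (fun _ => 0) (fun _ => 0) (s + cap a)
    rw [← e0] at h4
    have h5 : s' = s + cap a + tl M N a pre := h3 hpre.le
    simp only [] at h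
    rw [h4] at h
    simp only [zero_add, List.drop_zero] at h
    have eC : vec (v + 1) k c + vec (v + 1) k (fun fl => pcs (false, false)
            (pre.map fun x => (M x a, M a x, N x a)) fl)
          + Sh (v + 1) k * (vec (v + 1) k c + cap a * one (v + 1) k
          + Sh (v + 1) k * (vec (v + 1) k c + (vec (v + 1) k (fun fl => pcs (true, true)
            (pre.map fun x => (M x a, M a x, N x a)) fl) + cap a * one (v + 1) k)
          + Sh (v + 1) k * (vec (v + 1) k c + vec (v + 1) k (fun fl => pcs (true, false)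
            (pre.map fun x => (M x a, M a x, N x a)) fl))))
        = vec (v + 1) (k + 1) (stC cap M N a pre c) := by
      have e1 : cap a * one (v + 1) k = vec (v + 1) k (fun _ => cap a) := (vec_const _ _ _).symm
      rw [vec, e1, ← vec_add, ← vec_add, ← vec_add, ← vec_add, ← vec_add]
      have t0 : vec (v + 1) k (fun l => stC cap M N a pre c ((false, false) :: l))
          = vec (v + 1) k (fun l => c l + pcs (false, false)
            (pre.map fun x => (M x a, M a x, N x a)) l) :=
        vec_congr fun l _ => by rw [stC]; simp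
      have t1 : vec (v + 1) k (fun l => stC cap M N a pre c ((false, true) :: l))
          = vec (v + 1) k (fun l => c l + cap a) :=
        vec_congr fun l _ => by rw [stC, pcs_ft]; simp
      have t2 : vec (v + 1) k (fun l => stC cap M N a pre c ((true, true) :: l))
          = vec (v + 1) k (fun l => c l + (pcs (true, true)
            (pre.map fun x => (M x a, M a x, N x a)) l + cap a)) :=
        vec_congr fun l _ => by rw [stC]; simp [add_comm]
      have t3 : vec (v + 1) k (fun l => stC cap M N a pre c ((true, false) :: l))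
          = vec (v + 1) k (fun l => c l + pcs (true, false)
            (pre.map fun x => (M x a, M a x, N x a)) l) :=
        vec_congr fun l _ => by rw [stC]; simp
      rw [t0, t1, t2, t3]
    have eG : (vec (v + 1) k g + Sh (v + 1) k * (Sh (v + 1) k * (vec (v + 1) k g
            + mu a * one (v + 1) k))) * (1 + Sh (v + 1) k)
        = vec (v + 1) (k + 1) (stG mu a g) := by
      have e1 : mu a * one (v + 1) k = vec (v + 1) k (fun _ => mu a) := (vec_const _ _ _).symm
      rw [vec, e1, ← vec_add]
      have t0 : ∀ z, vec (v + 1) k (fun l => stG mu a g ((false, z) :: l)) = vec (v + 1) k g :=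
        fun z => vec_congr fun l _ => by rw [stG]; simp
      have t2 : ∀ z, vec (v + 1) k (fun l => stG mu a g ((true, z) :: l))
          = vec (v + 1) k (fun l => g l + mu a) :=
        fun z => vec_congr fun l _ => by rw [stG]; simp
      rw [t0, t0, t2, t2]
      ring
    rw [eC, eG] at h
    obtain ⟨fl, h6, h7⟩ := ih (a :: pre) (k + 1) (stC cap M N a pre c) (stG mu a g) s'
      (by simp [hpre]) (by rw [h5]; exact stC_le hs)
      (by rw [hK, List.length_cons, show k + 1 + l.length = k + (l.length + 1) by omega]) h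
    exact ⟨fl, by rw [h6, List.length_cons]; omega, h7⟩

lemma fn_eq (mu cap : α → ℕ) (M N : α → α → ℕ) (x : ℕ → α) (f : ℕ → Bool × Bool) :
    ∀ (m k : ℕ) (c g : List (Bool × Bool) → ℕ),
    c ((List.range k).reverse.map f) = cst (fun i => cap (x i)) (fun i j => M (x i) (x j))
      (fun i j => N (x i) (x j)) f k →
    g ((List.range k).reverse.map f) = gn (fun i => mu (x i)) f k →
    fnC cap M N ((List.range' k m).map x) ((List.range k).reverse.map x) c
        ((List.range (k + m)).reverse.map f)
      = cst (fun i => cap (x i)) (fun i j => M (x i) (x j)) (fun i j => N (x i) (x j)) f (k + m) ∧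
    fnG mu ((List.range' k m).map x) g ((List.range (k + m)).reverse.map f)
      = gn (fun i => mu (x i)) f (k + m) := by
  intro m
  induction m with
  | zero =>
    intro k c g hc hg
    exact ⟨hc, hg⟩
  | succ m ih =>
    intro k c g hc hg
    rw [List.range'_succ, List.map_cons, fnC, fnG, show k + (m + 1) = k + 1 + m by omega]
    have e : x k :: (List.range k).reverse.map x = (List.range (k + 1)).reverse.map x := by
      rw [List.range_succ, List.reverse_append, List.reverse_singleton, List.singleton_append,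
        List.map_cons]
    rw [e]
    refine ih (k + 1) _ _ ?_ ?_
    · rw [List.range_succ, List.reverse_append, List.reverse_singleton, List.singleton_append,
        List.map_cons, stC, hc, List.map_map, cst, cst, sum_range_succ]
      congr 2
      exact pcs_eq (fun i j => M (x i) (x j)) (fun i j => N (x i) (x j)) f (f k) k k
    · rw [List.range_succ, List.reverse_append, List.reverse_singleton, List.singleton_append,
        List.map_cons, stG, hg, gn, gn, sum_range_succ]

/-- **the fast check: no flow** -/
theorem cutF_no {v n : ℕ} {mu cap : α → ℕ} {M N : α → α → ℕ} {x : ℕ → α}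
    (h : cutF v n mu cap M N ((List.range n).map x) = true) (V : ℕ → ℕ → ℕ) :
    ¬ Flow n (fun i => mu (x i)) (fun i => cap (x i)) (fun i j => M (x i) (x j))
      (fun i j => N (x i) (x j)) V := by
  intro hV
  have hl : ((List.range n).map x).length = n := by simp
  have e0 : (0 : ℕ) = vec (v + 1) 0 (fun _ => 0) := rfl
  have h0 : cutG mu cap M N (2 ^ v) (Nat.mul (2 ^ v) (one (v + 1) n)) ((List.range n).map x) []
      (lvs (v + 1) ((List.range n).map x).length 0) (vec (v + 1) 0 fun _ => 0)
      (vec (v + 1) 0 fun _ => 0) 0 = true := by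
    rw [hl]
    exact h
  obtain ⟨fl, h1, h2⟩ := cutG_spec mu cap M N v _ _ _ 0 (fun _ => 0) (fun _ => 0) 0 rfl
    (fun _ _ => le_rfl) (by
      rw [hl, zero_add, vec_const]
      rfl) h0
  rw [hl, zero_add] at h1
  set f : ℕ → Bool × Bool := fun i => fl.reverse.getD i (false, false) with hf
  have h3 : fl = (List.range n).reverse.map f := by
    have h4 : fl.reverse = (List.range n).map f := by
      refine List.ext_getElem (by simp [h1]) fun i hi hi' => ?_
      rw [List.getElem_map, List.getElem_range, hf]
      exact (List.getD_eq_getElem _ _ hi).symm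
    rw [← List.reverse_reverse fl, h4, List.map_reverse]
  have h5 := fn_eq mu cap M N x f n 0 (fun _ => 0) (fun _ => 0) (by simp [cst]) (by simp [gn])
  rw [zero_add, ← List.range_eq_range', ← h3] at h5
  have h6 : fnC cap M N ((List.range n).map x) [] (fun _ => 0) fl = _ := h5.1
  rw [h6, h5.2] at h2
  exact absurd (hV.cut f) (not_le.2 h2)

/-- the same for the reversed list (the leaf of `Kern.enumW`) -/
theorem cutF_no' {v n : ℕ} {mu cap : α → ℕ} {M N : α → α → ℕ} {x : ℕ → α}
    (h : cutF v n mu cap M N ((List.range n).map x).reverse = true) (V : ℕ → ℕ → ℕ) :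
    ¬ Flow n (fun i => mu (x i)) (fun i => cap (x i)) (fun i j => M (x i) (x j))
      (fun i j => N (x i) (x j)) V := by
  intro hV
  have h1 : ((List.range n).map x).reverse = (List.range n).map fun i => x (n - 1 - i) := by
    rw [← List.map_reverse]
    refine List.ext_getElem (by simp) fun i h2 h3 => ?_
    simp
  rw [h1] at h
  refine cutF_no h (fun i j => V (n - 1 - i) (n - 1 - j)) ?_
  have hb : ∀ g : ℕ → ℕ, ∀ i < n, ∑ z ∈ (range n).erase i, g (n - 1 - z)
      = ∑ z ∈ (range n).erase (n - 1 - i), g z := by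
    intro g i hi
    refine sum_nbij' (fun z => n - 1 - z) (fun z => n - 1 - z) ?_ ?_ ?_ ?_ ?_
    · intro z hz
      rw [mem_erase, mem_range] at hz ⊢
      omega
    · intro z hz
      rw [mem_erase, mem_range] at hz ⊢
      omega
    · intro z hz
      rw [mem_erase, mem_range] at hz
      show n - 1 - (n - 1 - z) = z
      omega
    · intro z hz
      rw [mem_erase, mem_range] at hz
      show n - 1 - (n - 1 - z) = z
      omega
    · intro z _
      rfl
  refine ⟨fun i hi => ?_, fun i hi => ?_, fun i hi j hj hij => ?_, fun i hi j hj hij => ?_⟩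
  · rw [hb (fun z => V (n - 1 - i) z) i hi]
    exact hV.row (n - 1 - i) (by omega)
  · rw [hb (fun z => V z (n - 1 - i)) i hi]
    exact hV.col (n - 1 - i) (by omega)
  · exact hV.one (n - 1 - i) (by omega) (n - 1 - j) (by omega) (by omega)
  · exact hV.two (n - 1 - i) (by omega) (n - 1 - j) (by omega) (by omega)

end Check

end Kern

end Pool.Agent.Lib.MP_f04ccf_co
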