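import Pool.Agent.Lib.MP_f04ccf_co.M.Kon
import Pool.Agent.Lib.MP_f04ccf_co.M.EnDI
import Pool.Agent.Lib.MP_f04ccf_co.M.SubDI

/-!
MP_f04ccf_co, TEXT D (note 17758): the energy of a slot without its free PC pairs.

`konQ` (M/Kon) = the free PC pairs; `konB y` = the PC pairs which are not free or have the tail `y`.
* `PkOpt.frC_kon`, `PkOpt.nd_kon`: a kept member with tail `/= y` misses only class points of kept pairs of its tail;
* `PkOpt.energy_kon`: the energy of any part of the slot inside `konB y`: no N-ends, no free arcs, only the pairs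
  of `konB y` which are dropped have unpaid arcs;
* `PkOpt.enK`: the same over a home, in the letters of M/SubDI.
-/

set_option autoImplicit false

namespace Pool.Agent.Lib.MP_f04ccf_co

open Finset

attribute [local instance] Classical.propDecidable

section KonE

variable {ι V : Type*} {G : SimpleGraph V} {C H : Finset V} {tl : V → ι}
  {B B1 : Finset (V × V)} {Ps P1 : Finset (Finset V)} {φ : Finset (V × V) → Finset (Finset V) → ℕ}

variable (G C tl B) in
/-- the PC pairs which are kept: not free, or of the tail `y` -/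
noncomputable def konB (y : ι) : Finset (V × V) :=
  B \ (konQ G C tl B).filter fun e => tl e.1 ≠ y

variable (G C tl B) in
/-- the dropped members -/
noncomputable def konW (y : ι) : Finset V :=
  ((konQ G C tl B).filter fun e => tl e.1 ≠ y).image Prod.fst

lemma konB_sub (y : ι) : konB G C tl B y ⊆ B := sdiff_subset

lemma mem_konB {y : ι} {e : V × V} :
    e ∈ konB G C tl B y ↔ e ∈ B ∧ (e ∈ konQ G C tl B → tl e.1 = y) := by
  unfold konB
  rw [mem_sdiff, mem_filter]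
  constructor
  · rintro ⟨h1, h2⟩
    refine ⟨h1, fun h3 => ?_⟩
    by_contra h4
    exact h2 ⟨h3, h4⟩
  · rintro ⟨h1, h2⟩
    exact ⟨h1, fun h3 => h3.2 (h2 h3.1)⟩

/-- the pairs of the tail `y` are all kept -/
lemma pcs_konB (y : ι) : pcs tl (konB G C tl B y) y = pcs tl B y := by
  ext e
  rw [mem_pcs, mem_pcs, mem_konB]
  constructor
  · rintro ⟨⟨h1, -⟩, h2⟩
    exact ⟨h1, h2⟩
  · rintro ⟨h1, h2⟩
    exact ⟨⟨h1, fun _ => h2⟩, h2⟩

/-- the kept pairs of another tail do not depend on `y` -/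
lemma pcs_konB_ne {x y : ι} (hxy : x ≠ y) :
    pcs tl (konB G C tl B y) x = pcs tl (B \ konQ G C tl B) x := by
  ext e
  rw [mem_pcs, mem_pcs, mem_konB, mem_sdiff]
  constructor
  · rintro ⟨⟨h1, h3⟩, h2⟩
    exact ⟨⟨h1, fun h4 => hxy (h2.symm.trans (h3 h4))⟩, h2⟩
  · rintro ⟨⟨h1, h3⟩, h2⟩
    exact ⟨⟨h1, fun h4 => absurd h4 h3⟩, h2⟩

/-- **an optimal packing of the smaller slot** -/
lemma PkOpt.konP (h : PkOpt G C H tl φ B Ps) (y : ι) :
    PkOpt G C (H \ konW G C tl B y) tl (fun _ _ => 0) (konB G C tl B y) Ps :=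
  (h.konX (fun x => x ≠ y) (Q := (konQ G C tl B).filter fun e => tl e.1 ≠ y)
    (by ext e; simp only [mem_filter])).1

/-- a kept member misses only class points of kept pairs of its tail -/
lemma PkOpt.konM (h : PkOpt G C H tl φ B Ps) {y : ι} {w : V} (hw : w ∈ H \ konW G C tl B y)
    (hy : tl w ≠ y) {a : V} (ha : a ∈ C) (hn : ¬ G.Adj w a) :
    ∃ e ∈ konB G C tl B y, e.2 = a ∧ tl e.1 = tl w :=
  (h.konX (fun x => x ≠ y) (Q := (konQ G C tl B).filter fun e => tl e.1 ≠ y)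
    (by ext e; simp only [mem_filter])).2 w hw hy a ha hn

/-- **no free arcs** -/
lemma PkOpt.frC_kon (h : PkOpt G C H tl φ B Ps) {y : ι} {w : V} (hw : w ∈ H \ konW G C tl B y)
    (hy : tl w ≠ y) {C1 : Finset V} (hC1 : C1 ⊆ C) : frC G C1 tl (konB G C tl B y) w = ∅ := by
  by_contra h1
  obtain ⟨a, ha⟩ := nonempty_iff_ne_empty.2 h1
  obtain ⟨h2, h3, h4⟩ := mem_frC.1 ha
  obtain ⟨e, he, h5, h6⟩ := h.konM hw hy (hC1 h2) h3
  exact h4 e he h5 h6

/-- **the missed class points of a kept member**: at most the number of kept pairs of its tail -/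
lemma PkOpt.nd_kon (h : PkOpt G C H tl φ B Ps) {y : ι} {w : V} (hw : w ∈ H \ konW G C tl B y)
    (hy : tl w ≠ y) : nd G C w ≤ (pcs tl (B \ konQ G C tl B) (tl w)).card := by
  rw [← pcs_konB_ne hy]
  have h1 : ∀ a ∈ C.filter (fun a => a ≠ w ∧ ¬ G.Adj w a),
      ∃ e ∈ konB G C tl B y, e.2 = a ∧ tl e.1 = tl w := by
    intro a ha
    obtain ⟨h2, -, h3⟩ := mem_filter.1 ha
    exact h.konM hw hy h2 h3
  choose! f hf1 hf2 hf3 using h1
  unfold nd
  refine card_le_card_of_injOn f ?_ ?_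
  · intro a ha
    exact mem_coe.2 (mem_pcs.2 ⟨hf1 a (mem_coe.1 ha), hf3 a (mem_coe.1 ha)⟩)
  · intro a ha b hb hab
    rw [← hf2 a (mem_coe.1 ha), ← hf2 b (mem_coe.1 hb), hab]

/-- the PC members which are kept are members of the smaller slot -/
lemma konB_mem (h : Pk G C H tl B Ps) {y : ι} {e : V × V} (he : e ∈ konB G C tl B y) :
    e.1 ∈ H \ konW G C tl B y := by
  obtain ⟨h1, h2⟩ := mem_konB.1 he
  refine mem_sdiff.2 ⟨h.bH e h1, fun h3 => ?_⟩
  obtain ⟨f, hf, h4⟩ := mem_image.1 h3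
  obtain ⟨h5, h6⟩ := mem_filter.1 hf
  have h7 := h.b1 f (konQ_sub h5) e h1 h4
  exact h6 (h7 ▸ h2 (h7 ▸ h5))

/-- a sum over the parts with several members -/
private lemma bothB_pcs {L : Finset ι} {Q : Finset (V × V)} (hL : ∀ e ∈ Q, tl e.1 ∈ L) :
    2 * (Q.card : ℤ) + (bothB G tl Q : ℤ)
      ≤ ∑ l ∈ L, ((pcs tl Q l).card : ℤ) * ((pcs tl Q l).card + 1) := by
  have h1 : (Q.card : ℤ) = ∑ l ∈ L, ((pcs tl Q l).card : ℤ) := by
    have h2 : Q.card = ∑ l ∈ L, (pcs tl Q l).card := card_eq_sum_card_fiberwise hL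
    exact_mod_cast h2
  rw [bothB_split (G := G) hL, h1, mul_sum, Nat.cast_sum, ← sum_add_distrib]
  refine sum_le_sum fun l _ => ?_
  have h3 := bothB_le (G := G) (tl := tl) (pcs tl Q l)
  nlinarith

/-- **the energy of a part of a slot without the free PC pairs**: kept PC pairs `B1 ⊆ konB y`, kept parts `P1`, kept
class points `C1`; the PC pairs of the tail `y` kept exactly -/
theorem PkOpt.energy_kon (h : PkOpt G C H tl φ B Ps)
    (h32 : ∀ v ∈ H, ∀ w ∈ H, ∀ a ∈ C, v ≠ w → tl v = tl w →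
      ¬ G.Adj v a → ¬ G.Adj w a → G.Adj v w) (hC : Clq G C) (hHC : Disjoint H C) (y : ι)
    (hB : B1 ⊆ konB G C tl B y) (hP : P1 ⊆ Ps) {C1 : Finset V} (hC1 : C1 ⊆ C) {L : Finset ι}
    (hL : ∀ e ∈ B1, tl e.1 ≠ y → tl e.1 ∈ L) :
    (NE G ((B1.image Prod.fst ∪ P1.biUnion id) ∪ C1) : ℤ) + P1.card * (P1.card - 1)
        + E G ((pcs tl B1 y).image Prod.fst)
      ≤ ((B1.image Prod.fst ∪ P1.biUnion id).card : ℤ)
          * ((B1.image Prod.fst ∪ P1.biUnion id).card - 1)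
        + ∑ l ∈ L, ((pcs tl B1 l).card : ℤ) * ((pcs tl B1 l).card + 1)
        + 2 * ∑ e ∈ pcs tl B1 y, (nd G C1 e.1 : ℤ)
        + 2 * losD G tl C1 (konB G C tl B y) B1
          (P1.biUnion id ∪ (B1 \ pcs tl B1 y).image Prod.fst) := by
  have hp := h.konP y
  have hk := hp.toPk.keep hB hP
  have hks := hp.toPk.keep_sub hB hP
  have hUe := hk.union_eq
  have h32' : ∀ v ∈ H \ konW G C tl B y, ∀ w ∈ H \ konW G C tl B y, ∀ a ∈ C, v ≠ w →
      tl v = tl w → ¬ G.Adj v a → ¬ G.Adj w a → G.Adj v w := fun v hv w hw =>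
    h32 v (mem_sdiff.1 hv).1 w (mem_sdiff.1 hw).1
  have h1 := hp.toPk.energy_drop hp.min h32' hC (hHC.mono_left sdiff_subset) hB hP hC1 y
    (D := 0) (by
      rw [add_zero]
      refine sum_le_sum fun e he => ?_
      have h2 := hk.uin_le (fun v hv w hw => h32' v (hks hv) w (hks hw)) he
      rwa [hUe] at h2)
  -- no N-ends
  have h0 : Nend G C (H \ konW G C tl B y) tl (konB G C tl B y) = ∅ := hp.frC_zero
  have h11 : ∑ v ∈ P1.biUnion id, ((frC G C1 tl (konB G C tl B y) v).card : ℤ) = 0 := by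
    refine sum_eq_zero fun v hv => ?_
    obtain ⟨P, hP1, hvP⟩ := mem_biUnion.1 hv
    have h12 : v ∈ (H \ konW G C tl B y) \ (konB G C tl B y).image Prod.fst := by
      refine mem_sdiff.2 ⟨hp.sub P (hP hP1) hvP, fun h7 => ?_⟩
      obtain ⟨e, he, hev⟩ := mem_image.1 h7
      exact hp.dw e he P (hP hP1) (hev ▸ hvP)
    have h13 : frC G C1 tl (konB G C tl B y) v = ∅ := by
      by_contra h14
      obtain ⟨a, ha⟩ := nonempty_iff_ne_empty.2 h14
      have h15 := mem_frC.1 ha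
      have h16 : v ∈ Nend G C (H \ konW G C tl B y) tl (konB G C tl B y) :=
        mem_Nend.2 ⟨h12, a, mem_frC.2 ⟨hC1 h15.1, h15.2⟩⟩
      rw [h0] at h16
      exact notMem_empty v h16
    rw [h13, card_empty]
    rfl
  -- the PC pairs of the other tails
  have h12 : ∑ e ∈ B1 \ pcs tl B1 y, (1 + ((frC G C1 tl (konB G C tl B y) e.1).card : ℤ))
      = ((B1 \ pcs tl B1 y).card : ℤ) := by
    rw [sum_congr rfl fun e he => ?_, card_eq_sum_ones, Nat.cast_sum]
    obtain ⟨h2, h3⟩ := mem_sdp.1 he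
    rw [h.frC_kon (konB_mem h.toPk (hB h2)) h3 hC1, card_empty]
    rfl
  have h13 := bothB_pcs (G := G) (tl := tl) (L := L) (Q := B1 \ pcs tl B1 y) fun e he =>
    hL e (mem_sdp.1 he).1 (mem_sdp.1 he).2
  have h14 : ∑ l ∈ L, ((pcs tl (B1 \ pcs tl B1 y) l).card : ℤ)
        * ((pcs tl (B1 \ pcs tl B1 y) l).card + 1)
      ≤ ∑ l ∈ L, ((pcs tl B1 l).card : ℤ) * ((pcs tl B1 l).card + 1) := by
    refine sum_le_sum fun l _ => ?_
    have h2 : (pcs tl (B1 \ pcs tl B1 y) l).card ≤ (pcs tl B1 l).card :=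
      card_le_card fun e he => by
        obtain ⟨h3, h4⟩ := mem_pcs.1 he
        exact mem_pcs.2 ⟨(mem_sdiff.1 h3).1, h4⟩
    have h3 : ((pcs tl (B1 \ pcs tl B1 y) l).card : ℤ) ≤ (pcs tl B1 l).card := by
      exact_mod_cast h2
    have h4 : (0 : ℤ) ≤ ((pcs tl (B1 \ pcs tl B1 y) l).card : ℤ) := Int.natCast_nonneg _
    nlinarith
  rw [h11, h12] at h1
  have h15 : (0 : ℤ) ≤ (E G ((P1.biUnion id).filter fun v =>
    (frC G C tl (konB G C tl B y) v).Nonempty) : ℤ) := Int.natCast_nonneg _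
  push_cast at h1
  linarith

end KonE

section KonW

variable {V : Type*} {G : SimpleGraph V} {Z T : Finset V} {hm : V → V} {r m n p : ℕ}
  {φ : Finset (V × V) → Finset (Finset V) → ℕ}
  {B : V → Finset (V × V)} {Ps : V → Finset (Finset V)}
  {B1 : Finset (V × V)} {P1 : Finset (Finset V)} {XC : Finset V}

/-- **the energy of the home `z` without its free PC pairs** (letters of M/SubDI) -/
theorem PkOpt.enK (h : WHom G Z T r m n hm) {z : V} (y : V) (hz' : z ∈ T)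
    (hB : PkOpt G (cz G Z T hm z) (hz G Z T hm z) (tlo G T hm) φ (B z) (Ps z))
    (hB1 : B1 ⊆ konB G (cz G Z T hm z) (tlo G T hm) (B z) y) (hP1 : P1 ⊆ Ps z)
    (hXC : XC ⊆ cz G Z T hm z) {L : Finset V}
    (hL : ∀ e ∈ B1, tlo G T hm e.1 ≠ y → tlo G T hm e.1 ∈ L) :
    2 * eI G hm (Z \ keepX G Z T hm z B1 P1 XC) z
        + (∑ u ∈ pkf B1 P1, (ivl u : ℤ)) * (∑ u ∈ pkf B1 P1, (ivl u : ℤ) + 1)
        + E G ((pcs (tlo G T hm) B1 y).image Prod.fst)
      ≤ 2 * ((∑ u ∈ pkf B1 P1, (ivl u : ℤ)) * (keepH B1 P1).card)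
        + ∑ l ∈ L, ((pcs (tlo G T hm) B1 l).card : ℤ) * ((pcs (tlo G T hm) B1 l).card + 1)
        + 2 * ∑ e ∈ pcs (tlo G T hm) B1 y, (nd G (cz G Z T hm z \ XC) e.1 : ℤ)
        + 2 * losD G (tlo G T hm) (cz G Z T hm z \ XC)
          (konB G (cz G Z T hm z) (tlo G T hm) (B z) y) B1
          (P1.biUnion id ∪ (B1 \ pcs (tlo G T hm) B1 y).image Prod.fst) := by
  have hF := h.F.toPFrame
  have hCH : Disjoint (hz G Z T hm z) (cz G Z T hm z) := (h.csys.dCH hz' hz').symm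
  have h32 := h.csys.h32 hF h.hh h.ht hz'
  have h1 := hB.energy_kon h32 (h.csys.CP_clq hF hz') hCH y hB1 hP1
    (sdiff_subset : cz G Z T hm z \ XC ⊆ cz G Z T hm z) hL
  have hk := hB.toPk.keep (hB1.trans (konB_sub y)) hP1
  have h2 := hk.sum_ivl
  have h3 : ∑ u ∈ pkf B1 P1, (ivl u : ℤ) + (P1.card : ℤ) = ((keepH B1 P1).card : ℤ) := by
    exact_mod_cast h2
  have hkH : keepH B1 P1 ⊆ hz G Z T hm z := keepH_sub hB.toPk (hB1.trans (konB_sub y)) hP1
  have h5 := two_eI (G := G) (hm := hm) (Z \ keepX G Z T hm z B1 P1 XC) z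
  have h10 : ((Z \ keepX G Z T hm z B1 P1 XC).filter fun v => hm v = z)
      = (B1.image Prod.fst ∪ P1.biUnion id) ∪ (cz G Z T hm z \ XC) := by
    have h6 := CP_union_HP (G := G) (Z := Z) (T := T)
      (S := fun x => (Z \ keepX G Z T hm z B1 P1 XC).filter fun v => hm v = x) (x := z)
    rw [keep_CP, keep_HP hXC hkH] at h6
    rw [← h6, union_comm]
    rfl
  rw [h5, h10]
  obtain ⟨μ, hμ⟩ : ∃ μ : ℤ, μ = ∑ u ∈ pkf B1 P1, (ivl u : ℤ) := ⟨_, rfl⟩
  rw [← hμ] at h3 ⊢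
  have h14 : ((P1.card : ℤ)) = ((keepH B1 P1).card : ℤ) - μ := by linarith
  have h16 : (B1.image Prod.fst ∪ P1.biUnion id).card = (keepH B1 P1).card := rfl
  rw [h14, h16] at h1
  generalize ((keepH B1 P1).card : ℤ) = nH at *
  nlinarith

/-- nothing else is dropped: no unpaid arcs -/
lemma losD_self {ι : Type*} {tl : V → ι} {C1 X : Finset V} {Q : Finset (V × V)} :
    losD G tl C1 Q Q X = 0 := by
  refine losD_zero fun e he => ?_
  rw [sdiff_self] at he
  exact absurd he (notMem_empty e)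

end KonW

end Pool.Agent.Lib.MP_f04ccf_co
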