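import Pool.Agent.Lib.MP_f04ccf_co.M.MN
import Pool.Agent.Lib.MP_f04ccf_co.M.PairC

/-!
MP_f04ccf_co, notes 16521, 16550, 16616 (3): the tests with class points outside.  `CSys.xtst`: the
slot test of `B` with any class points `Y` of one further row (no missing pairs inside `Y`),
`CSys.xone`: `B = {x}`.  `Fam.col_see`: what a column of another row sees of the items, the members
outside the items and the free class points.  `Fam.xcol`, `Fam.vcol`: the tests (X) and (COL).
`CSys.rect_row`: the class points which are missed by doubles (rectangles) at the other row.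
`Fam.tA`: the class points of PC pairs at their tail.
-/

set_option autoImplicit false

namespace Pool.Agent.Lib.MP_f04ccf_co

open Finset

attribute [local instance] Classical.propDecidable

section XTest

variable {V : Type*} {G : SimpleGraph V} {Z T : Finset V} {hm : V → V} {r m t : ℕ}
  {A C D I : Finset V} {S : V → Finset V} {U : V → Finset (Itm V)}

/-- **the slot test with class points of one further row** -/
theorem CSys.xtst (hF : PFrame G r m t Z T) (hP : PG G r) (h : CSys G Z T hm A S)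
    {B : Finset V} (hB : B ⊆ A) {z : V} (hz : z ∈ A) (hzB : z ∉ B) {Y : Finset V}
    (hY : Y ⊆ CP G Z T S z) :
    2 * ((r : ℤ) - B.card) * ∑ x ∈ B, (((S x).card : ℤ) - r)
      + ∑ x ∈ B, ∑ y ∈ B.erase x, ∑ v ∈ S y, (dg G (S x) v : ℤ)
      + ∑ x ∈ B, (((S x).card : ℤ) - r) ^ 2
      + 2 * ∑ x ∈ B, ∑ v ∈ Y, (dg G (S x) v : ℤ)
      ≤ ∑ x ∈ B, (NE G (S x) : ℤ) + B.card * (B.card - 1) * r
        + (∑ x ∈ B, (((S x).card : ℤ) - r)) ^ 2
        + 2 * Y.card * (B.card + ∑ x ∈ B, (((S x).card : ℤ) - r)) := by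
  have h1 := h.tst hP hB (W := Y) (fun x hx => (h.disj (hB hx) hz fun h2 => hzB (h2 ▸ hx)).mono_right
    fun v hv => (mem_CP.1 (hY hv)).1)
  have h2 : Clq G Y := fun u hu v hv huv => h.CP_clq hF hz u (hY hu) v (hY hv) huv
  rw [NE_clq h2] at h1
  push_cast at h1
  linarith

/-- **(X)**: one slot and class points of another row -/
theorem CSys.xone (hF : PFrame G r m t Z T) (hP : PG G r) (h : CSys G Z T hm A S) {x z : V}
    (hx : x ∈ A) (hz : z ∈ A) (hxz : x ≠ z) {Y : Finset V} (hY : Y ⊆ CP G Z T S z) :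
    2 * ((r : ℤ) - 1) * (((S x).card : ℤ) - r) + 2 * ∑ v ∈ Y, (dg G (S x) v : ℤ)
      ≤ NE G (S x) + 2 * Y.card * (((S x).card : ℤ) - r + 1) := by
  have h1 := h.xtst hF hP (B := {x}) (singleton_subset_iff.2 hx) hz
    (fun h2 => hxz (mem_singleton.1 h2).symm) hY
  simp only [sum_singleton, card_singleton, erase_singleton, sum_empty] at h1
  push_cast at h1
  nlinarith

/-- **what a column sees**: items, members `W` outside the items, class points `F` outside the partners -/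
theorem Fam.col_see (hW : WSysT G (co G) A (CP G Z T S) (HP G Z T S) (tlo G T hm))
    (h : ∀ x ∈ A, Fam (co G) (CP G Z T S) (HP G Z T S) (tlo G T hm) x (U x))
    {x z : V} (hx : x ∈ A) {W F : Finset V} (hWx : W ⊆ HP G Z T S x)
    (hWU : ∀ v ∈ W, ∀ u ∈ U x, v ∉ imem u) (hFx : F ⊆ CP G Z T S x)
    (hFU : ∀ e ∈ pcz (tlo G T hm) z (U x), e.2 ∉ F) {c : V} (hc : c ∈ CP G Z T S z) :
    ∑ u ∈ U x, ((ikp (tlo G T hm) z u : ℤ)
        - if c ∈ icl G (CP G Z T S) (tlo G T hm) z u then 1 else 0)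
      + (dg G W c : ℤ) + (dg G F c : ℤ) ≤ (dg G (S x) c : ℤ) := by
  obtain ⟨L, hL⟩ : ∃ L, L = (U x).filter fun u => ikp (tlo G T hm) z u ≠ 0 := ⟨_, rfl⟩
  have hdis : ∀ u ∈ L, ∀ v ∈ L, u ≠ v → Disjoint (ipts u) (ipts v) := by
    intro u hu v hv huv
    rw [hL] at hu hv
    exact Fam.dis_row hW h hx hx (mem_filter.1 hu).1 (mem_filter.1 hv).1 huv (mem_filter.1 hu).2
      (mem_filter.1 hv).2
  have hHC : ∀ v, v ∈ HP G Z T S x → v ∈ CP G Z T S x → False := fun v h1 h2 =>
    disjoint_left.1 (hW.dHC x hx x hx) h1 h2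
  have h1 : ∀ u ∈ U x, u ∉ L → ((ikp (tlo G T hm) z u : ℤ)
      - if c ∈ icl G (CP G Z T S) (tlo G T hm) z u then 1 else 0) = 0 := by
    intro u hu huL
    have h2 : ikp (tlo G T hm) z u = 0 := by
      by_contra h3
      exact huL (hL ▸ mem_filter.2 ⟨hu, h3⟩)
    have h3 : icl G (CP G Z T S) (tlo G T hm) z u = ∅ := by
      have := rcl_card_le (G := G) (C := CP G Z T S) (tl := tlo G T hm)
        (X := oth (tlo G T hm) z) (z := z) (u := u)
      rw [h2, Nat.zero_mul] at this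
      exact card_eq_zero.1 (Nat.le_zero.1 this)
    rw [h2, h3]
    simp
  have h2 : ∑ u ∈ U x, ((ikp (tlo G T hm) z u : ℤ)
        - if c ∈ icl G (CP G Z T S) (tlo G T hm) z u then 1 else 0)
      = ∑ u ∈ L, ((ikp (tlo G T hm) z u : ℤ)
        - if c ∈ icl G (CP G Z T S) (tlo G T hm) z u then 1 else 0) := by
    symm
    refine sum_subset (hL ▸ filter_subset _ _) fun u hu huL => h1 u hu huL
  have h3 : ∀ u ∈ L, ((ikp (tlo G T hm) z u : ℤ)
        - if c ∈ icl G (CP G Z T S) (tlo G T hm) z u then 1 else 0) ≤ (dg G (ipts u) c : ℤ) := by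
    intro u hu
    have hu1 := (mem_filter.1 (hL ▸ hu)).1
    have h4 := (h x hx).see hW hx (z := z) (X := oth (tlo G T hm) z) (fun _ => subset_rfl)
      hu1 hc
    rw [rpts_oth] at h4
    have h5 : icl G (CP G Z T S) (tlo G T hm) z u
      = rcl G (CP G Z T S) (tlo G T hm) (oth (tlo G T hm) z) z u := rfl
    rw [h5]
    linarith
  have h4 : ((L.biUnion ipts).filter fun w => G.Adj c w).card
      = ∑ u ∈ L, ((ipts u).filter fun w => G.Adj c w).card := by
    rw [filter_biUnion, card_biUnion]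
    intro u hu v hv huv
    exact disjoint_filter_filter (hdis u hu v hv huv)
  have hd1 : Disjoint (L.biUnion ipts) W := by
    rw [disjoint_left]
    intro v hv hvW
    obtain ⟨u, hu, hvu⟩ := mem_biUnion.1 hv
    have hu1 := (mem_filter.1 (hL ▸ hu)).1
    rcases u with Q | e
    · exact hWU v hvW _ hu1 hvu
    · simp only [ipts] at hvu
      rcases mem_insert.1 hvu with rfl | h5
      · exact hWU _ hvW _ hu1 (by simp [imem])
      · rw [mem_singleton] at h5
        exact hHC v (hWx hvW) (h5 ▸ (h x hx).pcC e hu1)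
  have hd2 : Disjoint (L.biUnion ipts ∪ W) F := by
    rw [disjoint_left]
    intro v hv hvF
    rcases mem_union.1 hv with hv | hv
    · obtain ⟨u, hu, hvu⟩ := mem_biUnion.1 hv
      obtain ⟨hu1, hu2⟩ := mem_filter.1 (hL ▸ hu)
      rcases u with Q | e
      · exact hHC v ((h x hx).sub Q hu1 hvu) (hFx hvF)
      · simp only [ipts] at hvu
        rcases mem_insert.1 hvu with h5 | h5
        · exact hHC v (h5 ▸ (h x hx).pcH e hu1) (hFx hvF)
        · rw [mem_singleton] at h5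
          have h6 : tlo G T hm e.1 = z := by
            by_contra h7
            exact hu2 (by simp only [ikp, h7, if_false])
          exact hFU e (mem_pcz.2 ⟨hu1, h6⟩) (h5 ▸ hvF)
    · exact hHC v (hWx hv) (hFx hvF)
  have h5 : dg G (L.biUnion ipts ∪ W ∪ F) c
      = dg G (L.biUnion ipts) c + dg G W c + dg G F c := by
    unfold dg
    rw [filter_union, card_union_of_disjoint (disjoint_filter_filter hd2), filter_union,
      card_union_of_disjoint (disjoint_filter_filter hd1)]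
  have h6 : L.biUnion ipts ∪ W ∪ F ⊆ S x := by
    intro v hv
    rcases mem_union.1 hv with hv | hv
    · rcases mem_union.1 hv with hv | hv
      · obtain ⟨u, hu, hvu⟩ := mem_biUnion.1 hv
        rcases mem_union.1 ((h x hx).ipts_sub (mem_filter.1 (hL ▸ hu)).1 hvu) with h7 | h7
        · exact (mem_HP.1 h7).1
        · exact (mem_CP.1 h7).1
      · exact (mem_HP.1 (hWx hv)).1
    · exact (mem_CP.1 (hFx hv)).1
  have h7 := dg_mono (G := G) h6 c
  have h8 : dg G (L.biUnion ipts) c = ∑ u ∈ L, dg G (ipts u) c := h4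
  rw [h5, h8] at h7
  have h9 : (∑ u ∈ L, (dg G (ipts u) c : ℤ)) + (dg G W c : ℤ) + (dg G F c : ℤ)
      ≤ (dg G (S x) c : ℤ) := by exact_mod_cast h7
  rw [h2]
  have := sum_le_sum h3
  linarith

/-- the items on the columns `Y` of the row `z` -/
lemma sum_cols {C : V → Finset V} {tl : V → V} {z : V} {Y : Finset V} (U : Finset (Itm V)) :
    ∑ c ∈ Y, ∑ u ∈ U, ((ikp tl z u : ℤ) - if c ∈ icl G C tl z u then 1 else 0)
      = ∑ u ∈ U, ((Y.card : ℤ) * ikp tl z u - (Y ∩ icl G C tl z u).card) := by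
  rw [sum_comm]
  refine sum_congr rfl fun u _ => ?_
  rw [sum_sub_distrib, sum_const, nsmul_eq_mul, ← sum_filter, sum_const, nsmul_eq_mul, mul_one,
    filter_mem_eq_inter]

/-- **(COL)**: the slot test of `B` with columns `Y` of a row outside; items, members `W x` outside the
items, class points `F x` outside the partners of the PC pairs with tail `z` -/
theorem Fam.vcol (hF : PFrame G r m t Z T) (hP : PG G r) (hS : CSys G Z T hm A S)
    (hW : WSysT G (co G) A (CP G Z T S) (HP G Z T S) (tlo G T hm))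
    (h : ∀ x ∈ A, Fam (co G) (CP G Z T S) (HP G Z T S) (tlo G T hm) x (U x))
    {B : Finset V} (hB : B ⊆ A) {z : V} (hz : z ∈ A) (hzB : z ∉ B) {Y : Finset V}
    (hY : Y ⊆ CP G Z T S z) {W F : V → Finset V} (hWx : ∀ x ∈ B, W x ⊆ HP G Z T S x)
    (hWU : ∀ x ∈ B, ∀ v ∈ W x, ∀ u ∈ U x, v ∉ imem u) (hFx : ∀ x ∈ B, F x ⊆ CP G Z T S x)
    (hFU : ∀ x ∈ B, ∀ e ∈ pcz (tlo G T hm) z (U x), e.2 ∉ F x) :
    2 * ((r : ℤ) - B.card) * ∑ x ∈ B, (((S x).card : ℤ) - r)
      + ∑ x ∈ B, ∑ y ∈ B.erase x, ∑ v ∈ S y, (dg G (S x) v : ℤ)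
      + ∑ x ∈ B, (((S x).card : ℤ) - r) ^ 2
      + 2 * ∑ x ∈ B, (∑ u ∈ U x, ((Y.card : ℤ) * ikp (tlo G T hm) z u
          - (Y ∩ icl G (CP G Z T S) (tlo G T hm) z u).card)
        + ∑ c ∈ Y, (dg G (W x) c : ℤ) + ∑ c ∈ Y, (dg G (F x) c : ℤ))
      ≤ ∑ x ∈ B, (NE G (S x) : ℤ) + B.card * (B.card - 1) * r
        + (∑ x ∈ B, (((S x).card : ℤ) - r)) ^ 2
        + 2 * Y.card * (B.card + ∑ x ∈ B, (((S x).card : ℤ) - r)) := by
  have h1 := hS.xtst hF hP hB hz hzB hY
  have h2 : ∑ x ∈ B, (∑ u ∈ U x, ((Y.card : ℤ) * ikp (tlo G T hm) z u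
          - (Y ∩ icl G (CP G Z T S) (tlo G T hm) z u).card)
        + ∑ c ∈ Y, (dg G (W x) c : ℤ) + ∑ c ∈ Y, (dg G (F x) c : ℤ))
      ≤ ∑ x ∈ B, ∑ v ∈ Y, (dg G (S x) v : ℤ) := by
    refine sum_le_sum fun x hx => ?_
    rw [← sum_cols, ← sum_add_distrib, ← sum_add_distrib]
    exact sum_le_sum fun c hc => Fam.col_see hW h (hB hx) (hWx x hx) (hWU x hx) (hFx x hx)
      (hFU x hx) (hY hc)
  linarith

/-- **(X) with items**: one slot, columns `Y` of another row -/
theorem Fam.xcol (hF : PFrame G r m t Z T) (hP : PG G r) (hS : CSys G Z T hm A S)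
    (hW : WSysT G (co G) A (CP G Z T S) (HP G Z T S) (tlo G T hm))
    (h : ∀ x ∈ A, Fam (co G) (CP G Z T S) (HP G Z T S) (tlo G T hm) x (U x))
    {x z : V} (hx : x ∈ A) (hz : z ∈ A) (hxz : x ≠ z) {Y : Finset V}
    (hY : Y ⊆ CP G Z T S z) {W F : Finset V} (hWx : W ⊆ HP G Z T S x)
    (hWU : ∀ v ∈ W, ∀ u ∈ U x, v ∉ imem u) (hFx : F ⊆ CP G Z T S x)
    (hFU : ∀ e ∈ pcz (tlo G T hm) z (U x), e.2 ∉ F) :
    2 * ((r : ℤ) - 1) * (((S x).card : ℤ) - r)
      + 2 * (∑ u ∈ U x, ((Y.card : ℤ) * ikp (tlo G T hm) z u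
          - (Y ∩ icl G (CP G Z T S) (tlo G T hm) z u).card)
        + ∑ c ∈ Y, (dg G W c : ℤ) + ∑ c ∈ Y, (dg G F c : ℤ))
      ≤ NE G (S x) + 2 * Y.card * (((S x).card : ℤ) - r + 1) := by
  have h1 := hS.xone hF hP hx hz hxz hY
  have h2 : ∑ u ∈ U x, ((Y.card : ℤ) * ikp (tlo G T hm) z u
          - (Y ∩ icl G (CP G Z T S) (tlo G T hm) z u).card)
        + ∑ c ∈ Y, (dg G W c : ℤ) + ∑ c ∈ Y, (dg G F c : ℤ)
      ≤ ∑ v ∈ Y, (dg G (S x) v : ℤ) := by
    rw [← sum_cols, ← sum_add_distrib, ← sum_add_distrib]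
    exact sum_le_sum fun c hc => Fam.col_see hW h hx hWx hWU hFx hFU (hY hc)
  linarith

/-- the columns of a rectangle: a double with missed points in both class parts -/
lemma dg_rect (hD : CellD G C D I) {v : V} (hv : v ∈ I) {c : V} (hc : c ∈ msd G D v) :
    (msd G C v).card ≤ dg G C c := by
  refine card_le_card fun a ha => ?_
  have h1 := (hD.mem_msd hv).1 ha
  have h2 := (hD.symm.mem_msd hv).1 hc
  exact mem_filter.2 ⟨h1.1, (hD.rect v hv a h1.1 c h2.1 h1.2 h2.2).symm⟩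

/-- **the missed class points at the other row** (note 16550): `A'` class points of `x`, doubles `I` of
the cell -/
theorem CSys.rect_row (hF : PFrame G r m t Z T) (hP : PG G r) (hS : CSys G Z T hm A S) {x z : V}
    (hx : x ∈ A) (hz : z ∈ A) (hxz : x ≠ z) {A' : Finset V} (hA' : A' ⊆ CP G Z T S x)
    {I : Finset V} (hI : I ⊆ Dbl G Z T x z) :
    2 * ((r : ℤ) - 1) * (((S z).card : ℤ) - r)
      + 2 * ((I.biUnion fun v => msd G A' v ×ˢ msd G (CP G Z T S z) v).card : ℤ)
      + 2 * ∑ a ∈ A', (dg G (HP G Z T S z) a : ℤ)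
      ≤ NE G (S z) + 2 * A'.card * (((S z).card : ℤ) - r + 1) := by
  have h1 := hS.xone hF hP hz hx hxz.symm hA'
  have h2 := (((hS.cellD hF hx hz hxz).mono hI).sub hA' (Subset.refl _)).cells
  have h3 : ∀ a, (dg G (S z) a : ℤ) = dg G (CP G Z T S z) a + dg G (HP G Z T S z) a := by
    intro a
    have h4 : S z = CP G Z T S z ∪ HP G Z T S z := by
      ext v
      rw [mem_union, mem_CP, mem_HP]
      tauto
    have h5 : Disjoint (CP G Z T S z) (HP G Z T S z) := by
      rw [disjoint_left]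
      intro v hv hv'
      exact (mem_HP.1 hv').2 (mem_CP.1 hv).2
    have h6 : dg G (S z) a = dg G (CP G Z T S z) a + dg G (HP G Z T S z) a := by
      conv_lhs => rw [h4]
      unfold dg
      rw [filter_union, card_union_of_disjoint (disjoint_filter_filter h5)]
    exact_mod_cast h6
  simp only [h3] at h1
  rw [sum_add_distrib] at h1
  linarith

/-- **(T^A)**: the class points of PC pairs at their tail see all class points which their members miss -/
theorem Fam.tA (hF : PFrame G r m t Z T) (hh : Homes G Z T hm) (hP : PG G r)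
    (hS : CSys G Z T hm A S) {x z : V} (hx : x ∈ A) (hz : z ∈ A) (hxz : x ≠ z)
    (h : Fam (co G) (CP G Z T S) (HP G Z T S) (tlo G T hm) x (U x)) {K : Finset (V × V)}
    (hK : K ⊆ pcz (tlo G T hm) z (U x)) :
    2 * ((r : ℤ) - 1) * (((S z).card : ℤ) - r)
      + 2 * ∑ e ∈ K, ((msd G (CP G Z T S z) e.1).card : ℤ)
      + 2 * ∑ e ∈ K, (dg G (HP G Z T S z) e.2 : ℤ)
      ≤ NE G (S z) + 2 * K.card * (((S z).card : ℤ) - r + 1) := by
  have hinj : Set.InjOn Prod.snd (K : Set (V × V)) := by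
    intro e he f hf hef
    obtain ⟨he1, he2⟩ := mem_pcz.1 (hK (by exact_mod_cast he))
    obtain ⟨hf1, hf2⟩ := mem_pcz.1 (hK (by exact_mod_cast hf))
    by_contra hne
    exact h.cop e he1 f hf1 hef hne (he2.trans hf2.symm)
  have hsub : K.image Prod.snd ⊆ CP G Z T S x := by
    intro a ha
    obtain ⟨e, he, rfl⟩ := mem_image.1 ha
    exact h.pcC e (mem_pcz.1 (hK he)).1
  have h1 := hS.xone hF hP hz hx hxz.symm hsub
  rw [card_image_of_injOn hinj, sum_image (fun e he f hf hef => hinj he hf hef)] at h1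
  have hD := hS.cellD hF hx hz hxz
  have h2 : ∀ e ∈ K, ((msd G (CP G Z T S z) e.1).card : ℤ) + (dg G (HP G Z T S z) e.2 : ℤ)
      ≤ (dg G (S z) e.2 : ℤ) := by
    intro e he
    obtain ⟨he1, he2⟩ := mem_pcz.1 (hK he)
    have h3 := hS.mem_Dbl_of_tlo hh hx (h.pcH e he1) he2
    have h4 : e.2 ∈ msd G (CP G Z T S x) e.1 := (hD.mem_msd h3).2
      ⟨h.pcC e he1, ((SimpleGraph.compl_adj _ _ _).1 (h.pcF e he1)).2⟩
    have h5 := dg_rect hD.symm h3 h4
    have h6 : dg G (CP G Z T S z) e.2 + dg G (HP G Z T S z) e.2 ≤ dg G (S z) e.2 := by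
      have h7 : Disjoint (CP G Z T S z) (HP G Z T S z) := by
        rw [disjoint_left]
        intro v hv hv'
        exact (mem_HP.1 hv').2 (mem_CP.1 hv).2
      have h8 : CP G Z T S z ∪ HP G Z T S z ⊆ S z := by
        intro v hv
        rcases mem_union.1 hv with h9 | h9
        · exact (mem_CP.1 h9).1
        · exact (mem_HP.1 h9).1
      refine le_trans (le_of_eq ?_) (dg_mono (G := G) h8 e.2)
      unfold dg
      rw [filter_union, card_union_of_disjoint (disjoint_filter_filter h7)]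
    exact_mod_cast (Nat.add_le_add_right h5 _).trans h6
  have h3 := sum_le_sum h2
  rw [sum_add_distrib] at h3
  linarith

end XTest

end Pool.Agent.Lib.MP_f04ccf_co
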