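import Pool.Agent.Lib.MP_f04ccf_co.M.LDeg
import Pool.Agent.Lib.MP_f04ccf_co.M.XTest
import Pool.Agent.Lib.MP_f04ccf_co.M.MatI

/-!
MP_f04ccf_co, notes 16222, 16778, 16816, 16843, 16895 (3): the slot tests with the degree sum (LD) over
the items.  `Fam.star_ldi`: the rows `B`, any class points `Y x` of the rows, each of them credited with
what it sees of the items, of members outside the items and of free class points of the other rows of
`B`, minus the missed class points of the members of its own row.  `KE`: the class edges of a cell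
outside the partners of its PC pairs; `Fam.pairK`: they count in the pair inequality;
`Fam.rectK`: an item with misses at both rows leaves a full rectangle of them.  `Fam.lowI`,
`Fam.lowUI`: the tests over the basic integers.
-/

set_option autoImplicit false

namespace Pool.Agent.Lib.MP_f04ccf_co

open Finset

attribute [local instance] Classical.propDecidable

section LDI

variable {V : Type*} {G : SimpleGraph V} {Z T : Finset V} {hm : V → V} {r m t : ℕ}
  {A : Finset V} {S : V → Finset V} {U : V → Finset (Itm V)}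

/-- the missing degrees of class points are the missed class points of the members -/
lemma CSys.sum_nd (hF : PFrame G r m t Z T) (hS : CSys G Z T hm A S) {x : V} (hx : x ∈ A)
    {Y : Finset V} (hY : Y ⊆ CP G Z T S x) :
    ∑ c ∈ Y, nd G (S x) c = ∑ w ∈ HP G Z T S x, (msd G Y w).card := by
  have hHC : ∀ v, v ∈ HP G Z T S x → v ∈ CP G Z T S x → False := fun v h1 h2 =>
    (mem_HP.1 h1).2 (mem_CP.1 h2).2
  have h1 : ∀ c ∈ Y, nd G (S x) c = ((HP G Z T S x).filter fun w => ¬ G.Adj c w).card := by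
    intro c hc
    unfold nd
    congr 1
    ext w
    rw [mem_filter, mem_filter]
    constructor
    · rintro ⟨h2, h3, h4⟩
      refine ⟨mem_HP.2 ⟨h2, fun h5 => ?_⟩, h4⟩
      exact h4 (hS.CP_clq hF hx c (hY hc) w (mem_CP.2 ⟨h2, h5⟩) (Ne.symm h3))
    · rintro ⟨h2, h3⟩
      exact ⟨(mem_HP.1 h2).1, fun h4 => hHC w h2 (h4 ▸ hY hc), h3⟩
  have h2 : ∀ w ∈ HP G Z T S x, (msd G Y w).card = (Y.filter fun c => ¬ G.Adj c w).card := by
    intro w hw
    unfold msd
    congr 1
    ext c
    rw [mem_filter, mem_filter]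
    constructor
    · rintro ⟨h3, _, h5⟩
      exact ⟨h3, fun h6 => h5 h6.symm⟩
    · rintro ⟨h3, h4⟩
      exact ⟨h3, fun h5 => hHC w hw (h5 ▸ hY h3), fun h6 => h4 h6.symm⟩
  rw [sum_congr rfl h1, sum_congr rfl h2]
  simp only [card_filter]
  rw [sum_comm]

/-- **the slot test with (LD) over the items**: any class points `Y x` of the rows `x ∈ B`, members
`W x y` of the row `y` outside its items and class points `F x y` outside the partners with tail `x` -/
theorem Fam.star_ldi (hL : LowD G r) (hF : PFrame G r m t Z T) (hS : CSys G Z T hm A S)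
    (hW : WSysT G (co G) A (CP G Z T S) (HP G Z T S) (tlo G T hm))
    (h : ∀ x ∈ A, Fam (co G) (CP G Z T S) (HP G Z T S) (tlo G T hm) x (U x))
    {B : Finset V} (hB : B ⊆ A) (hB1 : 1 ≤ B.card) {Y : V → Finset V}
    (hY : ∀ x ∈ B, Y x ⊆ CP G Z T S x) {W F : V → V → Finset V}
    (hWx : ∀ x ∈ B, ∀ y ∈ B.erase x, W x y ⊆ HP G Z T S y)
    (hWU : ∀ x ∈ B, ∀ y ∈ B.erase x, ∀ v ∈ W x y, ∀ u ∈ U y, v ∉ imem u)
    (hFx : ∀ x ∈ B, ∀ y ∈ B.erase x, F x y ⊆ CP G Z T S y)
    (hFU : ∀ x ∈ B, ∀ y ∈ B.erase x, ∀ e ∈ pcz (tlo G T hm) x (U y), e.2 ∉ F x y) :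
    ((B.card : ℤ) - 1) * (2 * ((r : ℤ) - B.card) * ∑ x ∈ B, (((S x).card : ℤ) - r)
      + ∑ x ∈ B, ∑ y ∈ B.erase x, ∑ v ∈ S y, (dg G (S x) v : ℤ)
      + ∑ x ∈ B, (((S x).card : ℤ) - r) ^ 2)
      + 2 * ∑ x ∈ B, (∑ y ∈ B.erase x, (∑ u ∈ U y, (((Y x).card : ℤ) * ikp (tlo G T hm) x u
            - (Y x ∩ icl G (CP G Z T S) (tlo G T hm) x u).card)
          + ∑ c ∈ Y x, (dg G (W x y) c : ℤ) + ∑ c ∈ Y x, (dg G (F x y) c : ℤ))
        - ∑ w ∈ HP G Z T S x, ((msd G (Y x) w).card : ℤ)
        - (Y x).card * (B.card - 1 + ∑ y ∈ B, (((S y).card : ℤ) - r) - (((S x).card : ℤ) - r)))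
      ≤ ((B.card : ℤ) - 1) * (∑ x ∈ B, (NE G (S x) : ℤ) + B.card * (B.card - 1) * r
        + (∑ x ∈ B, (((S x).card : ℤ) - r)) ^ 2) := by
  have h1 := hS.star_low hL hB hB1 (D := Y) fun x hx v hv => (mem_CP.1 (hY x hx hv)).1
  have h2 : ∀ x ∈ B, ∑ y ∈ B.erase x, (∑ u ∈ U y, (((Y x).card : ℤ) * ikp (tlo G T hm) x u
            - (Y x ∩ icl G (CP G Z T S) (tlo G T hm) x u).card)
          + ∑ c ∈ Y x, (dg G (W x y) c : ℤ) + ∑ c ∈ Y x, (dg G (F x y) c : ℤ))
        - ∑ w ∈ HP G Z T S x, ((msd G (Y x) w).card : ℤ)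
        - (Y x).card * (B.card - 1 + ∑ y ∈ B, (((S y).card : ℤ) - r) - (((S x).card : ℤ) - r))
      ≤ ∑ v ∈ Y x, (∑ y ∈ B.erase x, (dg G (S y) v : ℤ) - nd G (S x) v
        - (B.card - 1) - ∑ y ∈ B, (((S y).card : ℤ) - r) + (((S x).card : ℤ) - r)) := by
    intro x hx
    have e1 : ∑ v ∈ Y x, (∑ y ∈ B.erase x, (dg G (S y) v : ℤ) - nd G (S x) v
        - (B.card - 1) - ∑ y ∈ B, (((S y).card : ℤ) - r) + (((S x).card : ℤ) - r))
        = ∑ y ∈ B.erase x, ∑ v ∈ Y x, (dg G (S y) v : ℤ) - ∑ v ∈ Y x, (nd G (S x) v : ℤ)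
          - (Y x).card * (B.card - 1 + ∑ y ∈ B, (((S y).card : ℤ) - r)
            - (((S x).card : ℤ) - r)) := by
      rw [sum_comm (s := B.erase x), sum_add_distrib, sum_sub_distrib, sum_sub_distrib,
        sum_sub_distrib, sum_const, sum_const, sum_const, nsmul_eq_mul, nsmul_eq_mul, nsmul_eq_mul]
      ring
    have e2 : ∑ v ∈ Y x, (nd G (S x) v : ℤ) = ∑ w ∈ HP G Z T S x, ((msd G (Y x) w).card : ℤ) := by
      exact_mod_cast hS.sum_nd hF (hB hx) (hY x hx)
    rw [e1, e2]
    refine sub_le_sub_right (sub_le_sub_right (sum_le_sum fun y hy => ?_) _) _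
    rw [← sum_cols, ← sum_add_distrib, ← sum_add_distrib]
    exact sum_le_sum fun c hc => Fam.col_see hW h (hB (mem_of_mem_erase hy)) (hWx x hx y hy)
      (hWU x hx y hy) (hFx x hx y hy) (hFU x hx y hy) (hY x hx hc)
  have h3 := sum_le_sum h2
  linarith

/-- the class edges of a cell outside the partners of its PC pairs -/
noncomputable def KE (G : SimpleGraph V) (C : V → Finset V) (tl : V → V) (U : V → Finset (Itm V))
    (x z : V) : Finset (V × V) :=
  eds G (C x \ (pcz tl z (U x)).image Prod.snd) (C z \ (pcz tl x (U z)).image Prod.snd)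

lemma card_KE_comm {C : V → Finset V} {tl : V → V} (x z : V) :
    (KE G C tl U x z).card = (KE G C tl U z x).card := by
  have h1 : ∀ X Y : Finset V, (eds G X Y).card = (eds G Y X).card := by
    intro X Y
    have h2 : ((eds G X Y).card : ℤ) = ((eds G Y X).card : ℤ) := by
      rw [card_eds_eq, card_eds_eq]
      exact_mod_cast dg_comm G X Y
    exact_mod_cast h2
  exact h1 _ _

/-- **an item with misses at two rows leaves a full rectangle of class edges** -/
theorem Fam.rectK (hW : WSysT G (co G) A (CP G Z T S) (HP G Z T S) (tlo G T hm)) {k x z : V}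
    (hk : k ∈ A) (hx : x ∈ A) (hz : z ∈ A) (hxz : x ≠ z) {X : Finset (Itm V)}
    (hX : Fam (co G) (CP G Z T S) (HP G Z T S) (tlo G T hm) k X)
    {u : Itm V} (hu : u ∈ X) :
    (ims G (CP G Z T S) (tlo G T hm) x u - (pcz (tlo G T hm) z (U x)).card)
      * (ims G (CP G Z T S) (tlo G T hm) z u - (pcz (tlo G T hm) x (U z)).card)
      ≤ (KE G (CP G Z T S) (tlo G T hm) U x z).card := by
  have h1 : ∀ X N : Finset V, ∀ L : Finset (V × V), N = L.image Prod.snd →
      X.card - L.card ≤ (X \ N).card := by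
    intro X N L hN
    have h2 := le_card_sdiff N X
    have h3 : N.card ≤ L.card := by
      rw [hN]
      exact card_image_le
    omega
  have h2 := Nat.mul_le_mul
    (h1 (icl G (CP G Z T S) (tlo G T hm) x u) _ (pcz (tlo G T hm) z (U x)) rfl)
    (h1 (icl G (CP G Z T S) (tlo G T hm) z u) _ (pcz (tlo G T hm) x (U z)) rfl)
  refine h2.trans ?_
  rw [← card_product]
  refine card_le_card fun c hc => ?_
  obtain ⟨hc1, hc2⟩ := mem_product.1 hc
  obtain ⟨a1, a2⟩ := mem_sdiff.1 hc1
  obtain ⟨b1, b2⟩ := mem_sdiff.1 hc2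
  refine mem_filter.2 ⟨mem_product.2 ⟨mem_sdiff.2 ⟨rcl_sub a1, a2⟩, mem_sdiff.2 ⟨rcl_sub b1, b2⟩⟩,
    hX.icl_complete hW hk hx hz hxz hu _ a1 _ b1⟩

/-- **(pair+) with all class edges outside the partners** and the hits of members outside the items -/
theorem Fam.pairK (hW : WSysT G (co G) A (CP G Z T S) (HP G Z T S) (tlo G T hm))
    (h : ∀ x ∈ A, Fam (co G) (CP G Z T S) (HP G Z T S) (tlo G T hm) x (U x))
    {x z : V} (hx : x ∈ A) (hz : z ∈ A) (hxz : x ≠ z) {Wx Wz : Finset V}
    (hWx : Wx ⊆ HP G Z T S x) (hWz : Wz ⊆ HP G Z T S z)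
    (hWxU : ∀ v ∈ Wx, ∀ u ∈ U x, v ∉ imem u) (hWzU : ∀ v ∈ Wz, ∀ u ∈ U z, v ∉ imem u) :
    ∑ u ∈ U x, iht G (CP G Z T S) (tlo G T hm) z u
      + ∑ u ∈ U z, iht G (CP G Z T S) (tlo G T hm) x u
      + ∑ v ∈ Wx, (dg G (CP G Z T S z) v : ℤ) + ∑ v ∈ Wz, (dg G (CP G Z T S x) v : ℤ)
      + (KE G (CP G Z T S) (tlo G T hm) U x z).card
      ≤ ∑ v ∈ S z, (dg G (S x) v : ℤ) := by
  refine Fam.pair_pay hW h hx hz hxz hWx hWz hWxU hWzU (X := KE G (CP G Z T S) (tlo G T hm) U x z)
    ?_ ?_ ?_
  · exact filter_subset_filter _ (product_subset_product sdiff_subset sdiff_subset)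
  · intro c hc e he hec
    have h1 := (mem_sdiff.1 (mem_product.1 (mem_filter.1 hc).1).1).2
    exact h1 (hec ▸ mem_image_of_mem _ he)
  · intro c hc e he hec
    have h1 := (mem_sdiff.1 (mem_product.1 (mem_filter.1 hc).1).2).2
    exact h1 (hec ▸ mem_image_of_mem _ he)

/-- what the class points `Y` of `x` see of the free class points of `z` -/
lemma card_KE_le {C : V → Finset V} {tl : V → V} (x z : V) :
    ((KE G C tl U x z).card : ℤ)
      ≤ ∑ c ∈ C x, (dg G (C z \ (pcz tl x (U z)).image Prod.snd) c : ℤ) := by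
  rw [← card_eds_eq]
  exact_mod_cast card_le_card (filter_subset_filter _ (product_subset_product sdiff_subset le_rfl))

variable (G Z T hm) in
/-- the arcs of the row `x` into its class points outside `N` -/
noncomputable def arI (S : Finset V) (N : V → Finset V) (x : V) : ℤ :=
  ∑ w ∈ HP G Z T (fun x => S.filter fun v => hm v = x) x,
    ((msd G (CP G Z T (fun x => S.filter fun v => hm v = x) x \ N x) w).card : ℤ)

variable (G Z T hm) in
/-- the edges from the class points of `x` outside `N` to the class points of `z` outside the partners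
with tail `x` -/
noncomputable def ceI (S : Finset V) (N : V → Finset V) (U : V → Finset (Itm V)) (x z : V) : ℤ :=
  ∑ c ∈ CP G Z T (fun x => S.filter fun v => hm v = x) x \ N x,
    (dg G (CP G Z T (fun x => S.filter fun v => hm v = x) z
      \ (pcz (tlo G T hm) x (U z)).image Prod.snd) c : ℤ)

variable (G Z T hm) in
/-- the hits of the members of `z` outside its items at the class points of `x` outside `N` -/
noncomputable def owI (S : Finset V) (N : V → Finset V) (U : V → Finset (Itm V)) (x z : V) : ℤ :=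
  ∑ c ∈ CP G Z T (fun x => S.filter fun v => hm v = x) x \ N x,
    (dg G (HP G Z T (fun x => S.filter fun v => hm v = x) z \ (U z).biUnion imem) c : ℤ)

/-- **the slot test with (LD) over the basic integers**: the rows `B`, the class points (without `N x`)
of the rows `x ∈ D` -/
theorem Fam.lowUI {S : Finset V} (hL : LowD G r) (hF : PFrame G r m t Z T)
    (hS : CSys G Z T hm A fun x => S.filter fun v => hm v = x)
    (hW : WSysT G (co G) A (CP G Z T fun x => S.filter fun v => hm v = x)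
      (HP G Z T fun x => S.filter fun v => hm v = x) (tlo G T hm))
    (h : ∀ x ∈ A, Fam (co G) (CP G Z T fun x => S.filter fun v => hm v = x)
      (HP G Z T fun x => S.filter fun v => hm v = x) (tlo G T hm) x (U x))
    {B : Finset V} (hB : B ⊆ A) (hB1 : 1 ≤ B.card) {D : Finset V} (hD : D ⊆ B)
    {N : V → Finset V}
    (hN : ∀ x ∈ D, N x ⊆ CP G Z T (fun x => S.filter fun v => hm v = x) x) :
    ((B.card : ℤ) - 1) * (2 * ((r : ℤ) - B.card) * ∑ x ∈ B, sI hm r S x
      + ∑ x ∈ B, ∑ y ∈ B.erase x, EI G hm S x y + ∑ x ∈ B, sI hm r S x ^ 2)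
      + 2 * ∑ x ∈ D, (∑ y ∈ B.erase x, (∑ u ∈ U y, ((ikp (tlo G T hm) x u : ℤ)
              * ((r : ℤ) - 1 - tI G Z T hm r S x - (N x).card)
            - ims G (CP G Z T fun x => S.filter fun v => hm v = x) (tlo G T hm) x u)
          + owI G Z T hm S N U x y + ceI G Z T hm S N U x y)
        - arI G Z T hm S N x
        - ((r : ℤ) - 1 - tI G Z T hm r S x - (N x).card)
          * (B.card - 1 + ∑ y ∈ B, sI hm r S y - sI hm r S x))
      ≤ ((B.card : ℤ) - 1) * (2 * ∑ x ∈ B, eI G hm S x + B.card * (B.card - 1) * r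
        + (∑ x ∈ B, sI hm r S x) ^ 2) := by
  obtain ⟨Y, hYdef⟩ : ∃ Y : V → Finset V, ∀ x, Y x = if x ∈ D then
      CP G Z T (fun x => S.filter fun v => hm v = x) x \ N x else ∅ := ⟨_, fun _ => rfl⟩
  have hYD : ∀ x ∈ D, Y x = CP G Z T (fun x => S.filter fun v => hm v = x) x \ N x :=
    fun x hx => by rw [hYdef, if_pos hx]
  have hY0 : ∀ x ∉ D, Y x = ∅ := fun x hx => by rw [hYdef, if_neg hx]
  have hY : ∀ x ∈ B, Y x ⊆ CP G Z T (fun x => S.filter fun v => hm v = x) x := by
    intro x _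
    by_cases hx : x ∈ D
    · rw [hYD x hx]
      exact sdiff_subset
    · rw [hY0 x hx]
      exact empty_subset _
  have h1 := Fam.star_ldi hL hF hS hW h hB hB1 hY
    (W := fun _ y => HP G Z T (fun x => S.filter fun v => hm v = x) y \ (U y).biUnion imem)
    (F := fun x y => CP G Z T (fun x => S.filter fun v => hm v = x) y
      \ (pcz (tlo G T hm) x (U y)).image Prod.snd)
    (fun x _ y _ => sdiff_subset)
    (fun x _ y _ v hv u hu h2 => (mem_sdiff.1 hv).2 (mem_biUnion.2 ⟨u, hu, h2⟩))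
    (fun x _ y _ => sdiff_subset)
    (fun x _ y _ e he h2 => (mem_sdiff.1 h2).2 (mem_image_of_mem _ he))
  have h5 : ∑ x ∈ B, (NE G (S.filter fun v => hm v = x) : ℤ) = 2 * ∑ x ∈ B, eI G hm S x := by
    rw [mul_sum]
    exact sum_congr rfl fun x _ => (two_eI S x).symm
  rw [h5] at h1
  refine le_trans (add_le_add_right (mul_le_mul_of_nonneg_left ?_ (by norm_num)) _) h1
  refine le_trans ?_ (sum_subset hD ?_).le
  · refine sum_le_sum fun x hx => ?_
    have hcard : (((Y x).card : ℕ) : ℤ) = (r : ℤ) - 1 - tI G Z T hm r S x - (N x).card := by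
      have h2 := card_sdiff_of_subset (hN x hx)
      have h3 := card_le_card (hN x hx)
      have h4 := card_CP_eq (G := G) (Z := Z) (T := T) (hm := hm) (r := r) S x
      rw [hYD x hx, h2, Nat.cast_sub h3, h4]
    rw [hcard, hYD x hx]
    refine sub_le_sub_right (sub_le_sub_right (sum_le_sum fun y _ => ?_) _) _
    refine add_le_add_left (add_le_add_left (sum_le_sum fun u _ => ?_) _) _
    have h2 : ((CP G Z T (fun x => S.filter fun v => hm v = x) x \ N x)
        ∩ icl G (CP G Z T fun x => S.filter fun v => hm v = x) (tlo G T hm) x u).card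
        ≤ ims G (CP G Z T fun x => S.filter fun v => hm v = x) (tlo G T hm) x u :=
      card_le_card inter_subset_right
    have h3 : (((CP G Z T (fun x => S.filter fun v => hm v = x) x \ N x)
        ∩ icl G (CP G Z T fun x => S.filter fun v => hm v = x) (tlo G T hm) x u).card : ℤ)
        ≤ (ims G (CP G Z T fun x => S.filter fun v => hm v = x) (tlo G T hm) x u : ℤ) := by
      exact_mod_cast h2
    linarith
  · intro x _ hx
    rw [hY0 x hx]
    simp [msd]

end LDI

end Pool.Agent.Lib.MP_f04ccf_co
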