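import Pool.Agent.Lib.MP_f04ccf_co.M.LDI

/-!
MP_f04ccf_co, notes 16843, 16913: the loss in the tests with the degree sum (LD).  The class points of a
row `x` are missed by members of `x`; for the tails inside `B` the class edges of the cell pay these
arcs (homes with `kappa ≤ beta`), up to the adjacent pairs of the members.
`CellD.pay1`: the payment of doubles with any columns left out.  `Fam.arc_pay`: the arcs of one tail.
`Fam.lowN`: the test of the rows `B` with the degree sum at the class points outside `N x`, `x ∈ D`.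
-/

set_option autoImplicit false

namespace Pool.Agent.Lib.MP_f04ccf_co

open Finset

attribute [local instance] Classical.propDecidable

section Pay1

variable {V : Type*} {G : SimpleGraph V} {C D I : Finset V}

/-- the arithmetic of one double -/
private theorem pay_arith1 {k α β p y : ℕ} (h1 : k ≤ α) (h2 : k ≤ β + y) :
    (k : ℚ) ≤ (α : ℚ) * β / ((p : ℚ) + 1) + (p : ℚ) / 2 + y := by
  have hd : (0 : ℚ) < (p : ℚ) + 1 := by positivity
  obtain ⟨m, hm1, hm2, hm3⟩ : ∃ m : ℕ, m ≤ α ∧ m ≤ β ∧ k ≤ m + y := by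
    rcases le_total α β with h | h
    · exact ⟨α, le_refl _, h, by omega⟩
    · exact ⟨β, h, le_refl _, by omega⟩
  have e1 : (m : ℚ) * m ≤ (α : ℚ) * β := by
    have : m * m ≤ α * β := Nat.mul_le_mul hm1 hm2
    exact_mod_cast this
  have e2 : (k : ℚ) ≤ m + y := by exact_mod_cast hm3
  have e3 : (m : ℚ) ≤ (m : ℚ) * m / ((p : ℚ) + 1) + (p : ℚ) / 2 := by
    rw [← sub_le_iff_le_add, le_div_iff₀ hd]
    rcases Nat.eq_zero_or_pos p with h0 | h0
    · subst h0
      have h3 : (m : ℚ) ≤ (m : ℚ) * m := by exact_mod_cast Nat.le_mul_self m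
      push_cast
      linarith
    · have h3 : (1 : ℚ) ≤ (p : ℚ) := by exact_mod_cast h0
      nlinarith [sq_nonneg (2 * (m : ℚ) - (p + 1))]
  have e4 : (m : ℚ) * m / ((p : ℚ) + 1) ≤ (α : ℚ) * β / ((p : ℚ) + 1) :=
    div_le_div_of_nonneg_right e1 hd.le
  linarith

/-- **the payment of the doubles `P` with the columns `N` left out**: `K'` the PC pairs of the other
home `D` -/
theorem CellD.pay1 (h : CellD G C D I) {P N : Finset V} {K' : Finset (V × V)} (hP : P ⊆ I)
    (hK' : ∀ e ∈ K', e.1 ∈ I ∧ e.2 ∈ msd G D e.1)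
    (hKi' : ∀ e ∈ K', ∀ f ∈ K', e.1 = f.1 → e = f)
    (hd' : ∀ e ∈ K', e.1 ∉ P) {κ : V → ℕ} (k1 : ∀ v ∈ P, κ v ≤ (msd G C v \ N).card)
    (k2 : ∀ v ∈ P, κ v ≤ (msd G D v).card) :
    2 * ∑ v ∈ P, κ v ≤ 2 * (fcell G C D P N (K'.image Prod.snd)).card
        + E G P + 2 * ∑ v ∈ P, dg G (K'.image Prod.fst) v := by
  obtain ⟨R, hR⟩ : ∃ R : V → Finset (V × V), ∀ v, R v =
      (msd G C v \ N) ×ˢ (msd G D v \ K'.image Prod.snd) := ⟨_, fun _ => rfl⟩
  have h1 := pay_share P R (fun v => dg G P v + 1) (by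
    intro v hv p hp
    refine (card_le_card (t := insert v (P.filter (fun w => G.Adj v w))) ?_).trans ?_
    · intro w hw
      obtain ⟨hw1, hw2⟩ := mem_filter.1 hw
      rw [mem_insert, mem_filter]
      by_cases hvw : w = v
      · exact Or.inl hvw
      · right
        refine ⟨hw1, ?_⟩
        rw [hR] at hp hw2
        have a1 := (mem_sdiff.1 (mem_product.1 hp).1).1
        have a2 := (mem_sdiff.1 (mem_product.1 hw2).1).1
        exact h.adj (hP hv) (hP hw1) (fun h' => hvw h'.symm) (Or.inl ⟨a1, a2⟩)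
    · refine (card_insert_le _ _).trans ?_
      rfl)
  have h2 : P.biUnion R = fcell G C D P N (K'.image Prod.snd) := by
    unfold fcell
    exact biUnion_congr rfl fun v _ => hR v
  rw [h2] at h1
  have e2 : ∀ v, (R v).card = (msd G C v \ N).card * (msd G D v \ K'.image Prod.snd).card :=
    fun v => by rw [hR, card_product]
  have h3 : ∀ v ∈ P, (κ v : ℚ) ≤ ((R v).card : ℚ) / ((dg G P v + 1 : ℕ) : ℚ)
      + (dg G P v : ℚ) / 2 + (dg G (K'.image Prod.fst) v : ℚ) := by
    intro v hv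
    have c2 : (msd G D v).card ≤ (msd G D v \ K'.image Prod.snd).card
        + (msd G D v ∩ K'.image Prod.snd).card := by rw [card_sdiff_add_card_inter]
    have c3 := h.symm.used_le hK' hKi' (hP hv) fun e he h4 => hd' e he (h4 ▸ hv)
    have c4 := k1 v hv
    have c5 := k2 v hv
    have e1 := pay_arith1 (k := κ v) (α := (msd G C v \ N).card)
      (β := (msd G D v \ K'.image Prod.snd).card) (p := dg G P v)
      (y := dg G (K'.image Prod.fst) v) (by omega) (by omega)
    rw [e2]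
    push_cast
    linarith
  have h5 := sum_le_sum h3
  rw [sum_add_distrib, sum_add_distrib] at h5
  have h6 : ∑ v ∈ P, (dg G P v : ℚ) / 2 = (E G P : ℚ) / 2 := by
    unfold E
    rw [← sum_div]
    push_cast
    rfl
  have h7 : 2 * ∑ v ∈ P, (κ v : ℚ) ≤ 2 * ((fcell G C D P N (K'.image Prod.snd)).card : ℚ)
        + (E G P : ℚ) + 2 * ∑ v ∈ P, (dg G (K'.image Prod.fst) v : ℚ) := by linarith
  exact_mod_cast h7

end Pay1

section LDR

variable {V : Type*} {G : SimpleGraph V} {Z T : Finset V} {hm : V → V} {r m t : ℕ}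
  {A : Finset V} {S : V → Finset V} {U : V → Finset (Itm V)}

variable (G) in
/-- the members in `H` with tail `y` which miss one of the columns `C` -/
noncomputable def mzC (C H : Finset V) (tl : V → V) (y : V) : Finset V :=
  H.filter fun v => tl v = y ∧ (msd G C v).Nonempty

/-- **the arcs of one tail** are paid by the class edges of the cell, up to adjacent pairs of members -/
theorem Fam.arc_pay (hF : PFrame G r m t Z T) (hh : Homes G Z T hm) (hS : CSys G Z T hm A S)
    (hW : WSysT G (co G) A (CP G Z T S) (HP G Z T S) (tlo G T hm)) {x y : V} (hx : x ∈ A)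
    (hy : y ∈ A) (hxy : x ≠ y)
    (h : Fam (co G) (CP G Z T S) (HP G Z T S) (tlo G T hm) y (U y)) (N : Finset V)
    (hkb : ∀ v ∈ HP G Z T S x, tlo G T hm v = y →
      (msd G (CP G Z T S x) v).card ≤ (msd G (CP G Z T S y) v).card) :
    2 * ∑ v ∈ (HP G Z T S x).filter (fun v => tlo G T hm v = y),
        (msd G (CP G Z T S x \ N) v).card
      ≤ 2 * ∑ c ∈ CP G Z T S x \ N,
          dg G (CP G Z T S y \ (pcz (tlo G T hm) x (U y)).image Prod.snd) c
        + E G (mzC G (CP G Z T S x \ N) (HP G Z T S x) (tlo G T hm) y)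
        + 2 * ∑ v ∈ mzC G (CP G Z T S x \ N) (HP G Z T S x) (tlo G T hm) y,
          dg G ((pcz (tlo G T hm) x (U y)).image Prod.fst) v := by
  have hD := hS.cellD hF hx hy hxy
  obtain ⟨P, hP⟩ : ∃ P, P = mzC G (CP G Z T S x \ N) (HP G Z T S x) (tlo G T hm) y := ⟨_, rfl⟩
  have hPm : ∀ v, v ∈ P ↔ v ∈ HP G Z T S x ∧ tlo G T hm v = y ∧
      (msd G (CP G Z T S x \ N) v).Nonempty := fun v => by
    rw [hP]
    exact mem_filter
  have hms : ∀ v, msd G (CP G Z T S x \ N) v = msd G (CP G Z T S x) v \ N := by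
    intro v
    ext a
    unfold msd
    rw [mem_filter, mem_sdiff, mem_sdiff, mem_filter]
    tauto
  have h1 : ∑ v ∈ (HP G Z T S x).filter (fun v => tlo G T hm v = y),
        (msd G (CP G Z T S x \ N) v).card = ∑ v ∈ P, (msd G (CP G Z T S x \ N) v).card := by
    symm
    refine sum_subset ?_ fun v hv hvP => ?_
    · intro v hv
      obtain ⟨h2, h3, -⟩ := (hPm v).1 hv
      exact mem_filter.2 ⟨h2, h3⟩
    · obtain ⟨h2, h3⟩ := mem_filter.1 hv
      rw [card_eq_zero, ← not_nonempty_iff_eq_empty]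
      exact fun h4 => hvP ((hPm v).2 ⟨h2, h3, h4⟩)
  have hI : P ⊆ Dbl G Z T x y := by
    intro v hv
    obtain ⟨h2, h3, -⟩ := (hPm v).1 hv
    exact hS.mem_Dbl_of_tlo hh hx h2 h3
  have hswap : ∀ v, v ∈ Dbl G Z T y x → v ∈ Dbl G Z T x y := by
    intro v hv
    rwa [Dbl_comm]
  have hK : ∀ e ∈ pcz (tlo G T hm) x (U y), e.1 ∈ HP G Z T S y ∧ e.1 ∈ Dbl G Z T x y ∧
      e.2 ∈ msd G (CP G Z T S y) e.1 := by
    intro e he
    obtain ⟨h2, h3⟩ := mem_pcz.1 he
    have h4 := hS.mem_Dbl_of_tlo hh hy (h.pcH e h2) h3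
    exact ⟨h.pcH e h2, hswap _ h4, (hD.symm.mem_msd (hswap _ h4)).2
      ⟨h.pcC e h2, ((SimpleGraph.compl_adj _ _ _).1 (h.pcF e h2)).2⟩⟩
  have h2 := hD.pay1 (P := P) (N := N) (K' := pcz (tlo G T hm) x (U y)) hI
    (fun e he => ⟨(hK e he).2.1, (hK e he).2.2⟩) h.pcz_inj
    (fun e he h3 => by
      have h4 := (hPm _).1 h3
      exact disjoint_left.1 (hS.dHP hx hy hxy) h4.1 (hK e he).1)
    (κ := fun v => (msd G (CP G Z T S x \ N) v).card)
    (fun v _ => by rw [hms v])
    (fun v hv => by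
      obtain ⟨h3, h4, -⟩ := (hPm v).1 hv
      refine le_trans ?_ (hkb v h3 h4)
      rw [hms v]
      exact card_le_card sdiff_subset)
  have h3 : (fcell G (CP G Z T S x) (CP G Z T S y) P N
      ((pcz (tlo G T hm) x (U y)).image Prod.snd)).card
      ≤ ∑ c ∈ CP G Z T S x \ N,
          dg G (CP G Z T S y \ (pcz (tlo G T hm) x (U y)).image Prod.snd) c := by
    have h4 : fcell G (CP G Z T S x) (CP G Z T S y) P N
        ((pcz (tlo G T hm) x (U y)).image Prod.snd)
        ⊆ eds G (CP G Z T S x \ N)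
          (CP G Z T S y \ (pcz (tlo G T hm) x (U y)).image Prod.snd) := by
      intro e he
      obtain ⟨⟨h5, h6, h7⟩, h8, h9⟩ := hD.fcell_sub hI he
      exact mem_filter.2 ⟨mem_product.2 ⟨mem_sdiff.2 ⟨h5, h8⟩, mem_sdiff.2 ⟨h6, h9⟩⟩, h7⟩
    have h5 := card_le_card h4
    have h6 := card_eds_eq (G := G) (CP G Z T S x \ N)
      (CP G Z T S y \ (pcz (tlo G T hm) x (U y)).image Prod.snd)
    have h7 : (eds G (CP G Z T S x \ N)
          (CP G Z T S y \ (pcz (tlo G T hm) x (U y)).image Prod.snd)).card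
        = ∑ c ∈ CP G Z T S x \ N,
          dg G (CP G Z T S y \ (pcz (tlo G T hm) x (U y)).image Prod.snd) c := by
      exact_mod_cast h6
    exact h5.trans h7.le
  rw [h1, ← hP]
  omega

/-- **the test of the rows `B` with the degree sum over the items**, at the class points outside `N x`
of the rows `x ∈ D`; the arcs with tails in `B` are paid by class edges -/
theorem Fam.lowN (hL : LowD G r) (hF : PFrame G r m t Z T) (hh : Homes G Z T hm)
    (hS : CSys G Z T hm A S)
    (hW : WSysT G (co G) A (CP G Z T S) (HP G Z T S) (tlo G T hm))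
    (h : ∀ x ∈ A, Fam (co G) (CP G Z T S) (HP G Z T S) (tlo G T hm) x (U x))
    {B : Finset V} (hB : B ⊆ A) (hB1 : 1 ≤ B.card) {D : Finset V} (hD : D ⊆ B)
    (N : V → Finset V)
    (hkb : ∀ x ∈ D, ∀ v ∈ HP G Z T S x, tlo G T hm v ∈ B →
      (msd G (CP G Z T S x) v).card ≤ (msd G (CP G Z T S (tlo G T hm v)) v).card) :
    ((B.card : ℤ) - 1) * (2 * ((r : ℤ) - B.card) * ∑ x ∈ B, (((S x).card : ℤ) - r)
      + ∑ x ∈ B, ∑ y ∈ B.erase x, ∑ v ∈ S y, (dg G (S x) v : ℤ)
      + ∑ x ∈ B, (((S x).card : ℤ) - r) ^ 2)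
      + 2 * ∑ x ∈ D, (∑ y ∈ B.erase x, (∑ u ∈ U y, (((CP G Z T S x \ N x).card : ℤ)
              * ikp (tlo G T hm) x u - ims G (CP G Z T S) (tlo G T hm) x u)
            + ∑ c ∈ CP G Z T S x \ N x, (dg G (HP G Z T S y \ (U y).biUnion imem) c : ℤ))
          - ∑ v ∈ (HP G Z T S x).filter (fun v => tlo G T hm v ∉ B),
            ((msd G (CP G Z T S x \ N x) v).card : ℤ)
          - (CP G Z T S x \ N x).card
            * (B.card - 1 + ∑ y ∈ B, (((S y).card : ℤ) - r) - (((S x).card : ℤ) - r)))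
      ≤ ((B.card : ℤ) - 1) * (∑ x ∈ B, (NE G (S x) : ℤ) + B.card * (B.card - 1) * r
        + (∑ x ∈ B, (((S x).card : ℤ) - r)) ^ 2)
        + ∑ x ∈ D, ∑ y ∈ B.erase x,
          ((E G (mzC G (CP G Z T S x \ N x) (HP G Z T S x) (tlo G T hm) y) : ℤ)
            + 2 * ∑ v ∈ mzC G (CP G Z T S x \ N x) (HP G Z T S x) (tlo G T hm) y,
              (dg G ((pcz (tlo G T hm) x (U y)).image Prod.fst) v : ℤ)) := by
  obtain ⟨Y, hYdef⟩ : ∃ Y : V → Finset V, ∀ x, Y x = if x ∈ D then CP G Z T S x \ N x else ∅ :=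
    ⟨_, fun _ => rfl⟩
  have hYD : ∀ x ∈ D, Y x = CP G Z T S x \ N x := fun x hx => by rw [hYdef, if_pos hx]
  have hY0 : ∀ x ∉ D, Y x = ∅ := fun x hx => by rw [hYdef, if_neg hx]
  have hY : ∀ x ∈ B, Y x ⊆ CP G Z T S x := by
    intro x _
    by_cases hx : x ∈ D
    · rw [hYD x hx]
      exact sdiff_subset
    · rw [hY0 x hx]
      exact empty_subset _
  have h1 := Fam.star_ldi hL hF hS hW h hB hB1 hY
    (W := fun _ y => HP G Z T S y \ (U y).biUnion imem)
    (F := fun x y => CP G Z T S y \ (pcz (tlo G T hm) x (U y)).image Prod.snd)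
    (fun x _ y _ => sdiff_subset)
    (fun x _ y _ v hv u hu h2 => (mem_sdiff.1 hv).2 (mem_biUnion.2 ⟨u, hu, h2⟩))
    (fun x _ y _ => sdiff_subset)
    (fun x _ y _ e he h2 => (mem_sdiff.1 h2).2 (mem_image_of_mem _ he))
  have key : 2 * ∑ x ∈ D, (∑ y ∈ B.erase x, (∑ u ∈ U y, (((CP G Z T S x \ N x).card : ℤ)
              * ikp (tlo G T hm) x u - ims G (CP G Z T S) (tlo G T hm) x u)
            + ∑ c ∈ CP G Z T S x \ N x, (dg G (HP G Z T S y \ (U y).biUnion imem) c : ℤ))
          - ∑ v ∈ (HP G Z T S x).filter (fun v => tlo G T hm v ∉ B),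
            ((msd G (CP G Z T S x \ N x) v).card : ℤ)
          - (CP G Z T S x \ N x).card
            * (B.card - 1 + ∑ y ∈ B, (((S y).card : ℤ) - r) - (((S x).card : ℤ) - r)))
        - ∑ x ∈ D, ∑ y ∈ B.erase x,
          ((E G (mzC G (CP G Z T S x \ N x) (HP G Z T S x) (tlo G T hm) y) : ℤ)
            + 2 * ∑ v ∈ mzC G (CP G Z T S x \ N x) (HP G Z T S x) (tlo G T hm) y,
              (dg G ((pcz (tlo G T hm) x (U y)).image Prod.fst) v : ℤ))
      ≤ 2 * ∑ x ∈ B, (∑ y ∈ B.erase x, (∑ u ∈ U y, (((Y x).card : ℤ) * ikp (tlo G T hm) x u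
            - (Y x ∩ icl G (CP G Z T S) (tlo G T hm) x u).card)
          + ∑ c ∈ Y x, (dg G (HP G Z T S y \ (U y).biUnion imem) c : ℤ)
          + ∑ c ∈ Y x, (dg G (CP G Z T S y
            \ (pcz (tlo G T hm) x (U y)).image Prod.snd) c : ℤ))
        - ∑ w ∈ HP G Z T S x, ((msd G (Y x) w).card : ℤ)
        - (Y x).card * (B.card - 1 + ∑ y ∈ B, (((S y).card : ℤ) - r)
          - (((S x).card : ℤ) - r))) := by
    rw [mul_sum, mul_sum, ← sum_sub_distrib]
    refine le_trans ?_ (sum_subset hD ?_).le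
    · refine sum_le_sum fun x hx => ?_
      have hxA := hB (hD hx)
      rw [hYD x hx]
      have h2 : ∀ y ∈ B.erase x, 2 * ∑ v ∈ (HP G Z T S x).filter (fun v => tlo G T hm v = y),
          ((msd G (CP G Z T S x \ N x) v).card : ℤ)
          ≤ 2 * ∑ c ∈ CP G Z T S x \ N x,
              (dg G (CP G Z T S y \ (pcz (tlo G T hm) x (U y)).image Prod.snd) c : ℤ)
            + ((E G (mzC G (CP G Z T S x \ N x) (HP G Z T S x) (tlo G T hm) y) : ℤ)
            + 2 * ∑ v ∈ mzC G (CP G Z T S x \ N x) (HP G Z T S x) (tlo G T hm) y,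
              (dg G ((pcz (tlo G T hm) x (U y)).image Prod.fst) v : ℤ)) := by
        intro y hy
        obtain ⟨hyx, hyB⟩ := mem_erase.1 hy
        have h3 := Fam.arc_pay hF hh hS hW hxA (hB hyB) (Ne.symm hyx) (h y (hB hyB)) (N x)
          (fun v hv hvy => hvy ▸ hkb x hx v hv (hvy ▸ hyB))
        have h4 := Nat.cast_le (α := ℤ).2 h3
        push_cast at h4
        linarith
      have h3 := sum_le_sum h2
      rw [← mul_sum, sum_add_distrib, ← mul_sum] at h3
      have h4 : ∑ w ∈ HP G Z T S x, ((msd G (CP G Z T S x \ N x) w).card : ℤ)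
          = ∑ y ∈ B.erase x, ∑ v ∈ (HP G Z T S x).filter (fun v => tlo G T hm v = y),
            ((msd G (CP G Z T S x \ N x) v).card : ℤ)
            + ∑ v ∈ (HP G Z T S x).filter (fun v => tlo G T hm v ∉ B),
            ((msd G (CP G Z T S x \ N x) v).card : ℤ) := by
        rw [← sum_filter_add_sum_filter_not (HP G Z T S x) (fun v => tlo G T hm v ∈ B)]
        congr 1
        have h5 : ∀ v ∈ (HP G Z T S x).filter (fun v => tlo G T hm v ∈ B),
            tlo G T hm v ∈ B.erase x := by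
          intro v hv
          obtain ⟨h6, h7⟩ := mem_filter.1 hv
          exact mem_erase.2 ⟨ne_of_mem_erase (hW.tlA x hxA v h6), h7⟩
        rw [← sum_fiberwise_of_maps_to h5]
        refine sum_congr rfl fun y hy => ?_
        rw [filter_filter]
        refine sum_congr ?_ fun _ _ => rfl
        ext v
        rw [mem_filter, mem_filter]
        constructor
        · rintro ⟨h6, -, h7⟩
          exact ⟨h6, h7⟩
        · rintro ⟨h6, h7⟩
          exact ⟨h6, h7 ▸ mem_of_mem_erase hy, h7⟩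
      have h6 : ∀ y ∈ B.erase x, ∑ u ∈ U y, (((CP G Z T S x \ N x).card : ℤ)
              * ikp (tlo G T hm) x u - ims G (CP G Z T S) (tlo G T hm) x u)
            + ∑ c ∈ CP G Z T S x \ N x, (dg G (HP G Z T S y \ (U y).biUnion imem) c : ℤ)
            + ∑ c ∈ CP G Z T S x \ N x,
              (dg G (CP G Z T S y \ (pcz (tlo G T hm) x (U y)).image Prod.snd) c : ℤ)
          ≤ ∑ u ∈ U y, (((CP G Z T S x \ N x).card : ℤ) * ikp (tlo G T hm) x u
            - ((CP G Z T S x \ N x) ∩ icl G (CP G Z T S) (tlo G T hm) x u).card)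
          + ∑ c ∈ CP G Z T S x \ N x, (dg G (HP G Z T S y \ (U y).biUnion imem) c : ℤ)
          + ∑ c ∈ CP G Z T S x \ N x, (dg G (CP G Z T S y
            \ (pcz (tlo G T hm) x (U y)).image Prod.snd) c : ℤ) := by
        intro y _
        refine add_le_add_left (add_le_add_left (sum_le_sum fun u _ => ?_) _) _
        have h7 : ((CP G Z T S x \ N x) ∩ icl G (CP G Z T S) (tlo G T hm) x u).card
            ≤ ims G (CP G Z T S) (tlo G T hm) x u := card_le_card inter_subset_right
        have h8 : (((CP G Z T S x \ N x) ∩ icl G (CP G Z T S) (tlo G T hm) x u).card : ℤ)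
            ≤ (ims G (CP G Z T S) (tlo G T hm) x u : ℤ) := by exact_mod_cast h7
        linarith
      have h7 := sum_le_sum h6
      rw [sum_add_distrib] at h7
      rw [h4]
      linarith
    · intro x _ hx
      rw [hY0 x hx]
      simp [msd]
  linarith

end LDR

end Pool.Agent.Lib.MP_f04ccf_co
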