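import Pool.Agent.Lib.MP_f04ccf_co.M.BSlot

/-!
MP_f04ccf_co, note 16222 (helper39): consequences of a gain `γ` in property (P) (cap, rigidity, degree
sum) in the B-slot tests.  `CSys.slots_gain`, `CSys.star_B_gain`: the tests of `BSlot` with a gain.
`CSys.nd_slots`: the missing degree of a point in the union of the slot parts of `B`.
`CSys.star_ld`: the B-slot test with the degree sum `Σ_D (L_B(v) + s_x - |B| + 1 - σ - d_v)`.
-/

set_option autoImplicit false

namespace Pool.Agent.Lib.MP_f04ccf_co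

open Finset

attribute [local instance] Classical.propDecidable

section LDS

variable {V : Type*} {G : SimpleGraph V} {Z T : Finset V} {hm : V → V} {r m t : ℕ}

/-- **B-slot test, free slope, with a gain** -/
theorem CSys.slots_gain {A : Finset V} {S : V → Finset V} (h : CSys G Z T hm A S)
    {B : Finset V} (hB : B ⊆ A) {q γ : ℤ}
    (hγ : ((r : ℤ) - 1) * (2 * q * (B.biUnion S).card - r * q * (q + 1)) + γ
      ≤ NE G (B.biUnion S)) :
    ((r : ℤ) - 1) * (2 * q * ∑ x ∈ B, ((S x).card : ℤ) - r * q * (q + 1)) + γ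
      + ∑ x ∈ B, ∑ y ∈ B.erase x, ∑ v ∈ S y, (dg G (S x) v : ℤ)
      ≤ ∑ x ∈ B, (NE G (S x) : ℤ)
        + ∑ x ∈ B, ∑ y ∈ B.erase x, ((S x).card : ℤ) * (S y).card := by
  have hd : ∀ x ∈ B, ∀ y ∈ B, x ≠ y → Disjoint (S x) (S y) := fun x hx y hy hxy =>
    h.disj (hB hx) (hB hy) hxy
  have hNE := NE_biUnion (G := G) B S ∅ hd (fun _ _ => disjoint_empty_right _)
  have e0 : (NE G (∅ : Finset V) : ℤ) = 0 := by
    have : NE G (∅ : Finset V) = 0 := rfl
    rw [this]
    rfl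
  rw [empty_union, e0] at hNE
  simp only [sum_empty, sum_const_zero, mul_zero, add_zero, zero_add] at hNE
  have h3 : ((B.biUnion S).card : ℤ) = ∑ x ∈ B, ((S x).card : ℤ) := by
    rw [card_biUnion hd]
    push_cast
    rfl
  have h4 := h.nd_cross hB fun _ => 1
  simp only [one_mul] at h4
  rw [h4] at hNE
  rw [h3] at hγ
  linarith

/-- **B-slot test, slope `|B|`, with a gain**, in terms of the excesses `s_x = |S_x| - r` -/
theorem CSys.star_B_gain {A : Finset V} {S : V → Finset V} (h : CSys G Z T hm A S)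
    {B : Finset V} (hB : B ⊆ A) {γ : ℤ}
    (hγ : ((r : ℤ) - 1) * (2 * B.card * (B.biUnion S).card - r * B.card * (B.card + 1)) + γ
      ≤ NE G (B.biUnion S)) :
    2 * ((r : ℤ) - B.card) * ∑ x ∈ B, (((S x).card : ℤ) - r) + γ
      + ∑ x ∈ B, ∑ y ∈ B.erase x, ∑ v ∈ S y, (dg G (S x) v : ℤ)
      + ∑ x ∈ B, (((S x).card : ℤ) - r) ^ 2
      ≤ ∑ x ∈ B, (NE G (S x) : ℤ) + B.card * (B.card - 1) * r
        + (∑ x ∈ B, (((S x).card : ℤ) - r)) ^ 2 := by
  have h1 := h.slots_gain hB hγ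
  have hs : ∑ x ∈ B, ((S x).card : ℤ) = ∑ x ∈ B, (((S x).card : ℤ) - r) + B.card * r := by
    rw [sum_sub_distrib, sum_const, nsmul_eq_mul]
    ring
  have h2 : ∑ x ∈ B, ∑ y ∈ B.erase x, ((S x).card : ℤ) * (S y).card
      = (∑ x ∈ B, ((S x).card : ℤ)) ^ 2 - ∑ x ∈ B, ((S x).card : ℤ) ^ 2 := by
    rw [sum_offdiag B fun x y => ((S x).card : ℤ) * (S y).card, sq (∑ x ∈ B, _), sum_mul_sum]
    congr 1
    exact sum_congr rfl fun x _ => by ring
  have h3 : ∑ x ∈ B, ((S x).card : ℤ) ^ 2 = ∑ x ∈ B, (((S x).card : ℤ) - r) ^ 2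
      + 2 * r * ∑ x ∈ B, (((S x).card : ℤ) - r) + B.card * r ^ 2 := by
    have h5 : ∀ x ∈ B, ((S x).card : ℤ) ^ 2 = (((S x).card : ℤ) - r) ^ 2
        + 2 * r * (((S x).card : ℤ) - r) + (r : ℤ) ^ 2 := fun x _ => by ring
    rw [sum_congr rfl h5, sum_add_distrib, sum_add_distrib, ← mul_sum, sum_const, nsmul_eq_mul]
  set σ : ℤ := ∑ x ∈ B, (((S x).card : ℤ) - r) with hσ
  rw [h2, h3, hs] at h1
  nlinarith [h1]

/-- **two-slot test with a gain** -/
theorem CSys.two_slots_gain {A : Finset V} {S : V → Finset V} (h : CSys G Z T hm A S)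
    {x y : V} (hx : x ∈ A) (hy : y ∈ A) (hxy : x ≠ y) {γ : ℤ}
    (hγ : ((r : ℤ) - 1) * (4 * (S x ∪ S y).card - 6 * r) + γ ≤ NE G (S x ∪ S y)) :
    2 * ((r : ℤ) - 2) * ((((S x).card : ℤ) - r) + (((S y).card : ℤ) - r)) + γ
      + 2 * ∑ v ∈ S y, (dg G (S x) v : ℤ)
      ≤ NE G (S x) + NE G (S y) + 2 * r
        + 2 * (((S x).card : ℤ) - r) * (((S y).card : ℤ) - r) := by
  have e0 : ({x, y} : Finset V).biUnion S = S x ∪ S y := by
    rw [biUnion_insert, singleton_biUnion]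
  have hc : ({x, y} : Finset V).card = 2 := card_pair hxy
  have h1 := h.star_B_gain (r := r) (B := {x, y}) (γ := γ) (by
    intro z hz
    rcases mem_insert.1 hz with rfl | hz
    · exact hx
    · exact (mem_singleton.1 hz) ▸ hy) (by
    rw [e0, hc]
    push_cast
    linarith)
  have e1 : ({x, y} : Finset V).erase x = {y} := erase_insert (by simpa using hxy)
  have e2 : ({x, y} : Finset V).erase y = {x} := by
    rw [pair_comm]
    exact erase_insert (by simpa using hxy.symm)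
  have hcm : ∑ v ∈ S x, (dg G (S y) v : ℤ) = ∑ v ∈ S y, (dg G (S x) v : ℤ) := by
    have := dg_comm G (S x) (S y)
    exact_mod_cast this
  simp only [sum_pair hxy, card_pair hxy, e1, e2, sum_singleton, hcm] at h1
  push_cast at h1
  linarith

/-- the degree of a point into a union of slot parts -/
lemma CSys.dg_slots {A : Finset V} {S : V → Finset V} (h : CSys G Z T hm A S)
    {B : Finset V} (hB : B ⊆ A) (v : V) :
    (dg G (B.biUnion S) v : ℤ) = ∑ y ∈ B, (dg G (S y) v : ℤ) := by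
  unfold dg
  rw [filter_biUnion, card_biUnion (fun x hx y hy hxy =>
    disjoint_filter_filter (h.disj (hB hx) (hB hy) hxy))]
  push_cast
  rfl

/-- **the missing degree of a point of the slot part `S x` in the union of the slot parts of `B`**:
`(|B| - 1) R - nd(v) = L_B(v) - d_v - (|B| - 1) - σ + s_x` -/
theorem CSys.nd_slots {A : Finset V} {S : V → Finset V} (h : CSys G Z T hm A S)
    {B : Finset V} (hB : B ⊆ A) {x v : V} (hx : x ∈ B) (hv : v ∈ S x) :
    ((B.card : ℤ) - 1) * ((r : ℤ) - 1) - nd G (B.biUnion S) v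
      = ∑ y ∈ B.erase x, (dg G (S y) v : ℤ) - nd G (S x) v - (B.card - 1)
        - ∑ y ∈ B, (((S y).card : ℤ) - r) + (((S x).card : ℤ) - r) := by
  have hd : ∀ x ∈ B, ∀ y ∈ B, x ≠ y → Disjoint (S x) (S y) := fun x hx y hy hxy =>
    h.disj (hB hx) (hB hy) hxy
  have hvU : v ∈ B.biUnion S := mem_biUnion.2 ⟨x, hx, hv⟩
  have h1 := dg_add_nd (G := G) hvU
  have h2 := dg_add_nd (G := G) hv
  have h3 := h.dg_slots hB v
  have h4 : ((B.biUnion S).card : ℤ) = ∑ y ∈ B, ((S y).card : ℤ) := by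
    rw [card_biUnion hd]
    push_cast
    rfl
  have h5 : 1 ≤ (B.biUnion S).card := card_pos.2 ⟨v, hvU⟩
  have h6 : 1 ≤ (S x).card := card_pos.2 ⟨v, hv⟩
  have h7 : (dg G (B.biUnion S) v : ℤ) + nd G (B.biUnion S) v + 1 = (B.biUnion S).card := by
    have : dg G (B.biUnion S) v + nd G (B.biUnion S) v + 1 = (B.biUnion S).card := by omega
    exact_mod_cast this
  have h8 : (dg G (S x) v : ℤ) + nd G (S x) v + 1 = (S x).card := by
    have : dg G (S x) v + nd G (S x) v + 1 = (S x).card := by omega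
    exact_mod_cast this
  rw [← add_sum_erase B _ hx] at h3
  rw [sum_sub_distrib, sum_const, nsmul_eq_mul]
  rw [h4] at h7
  linarith

/-- the degree sum of (LD) in the slots: `D x` = the chosen points of the slot part `S x` -/
theorem CSys.ld_sum {A : Finset V} {S : V → Finset V} (h : CSys G Z T hm A S)
    {B : Finset V} (hB : B ⊆ A) {D : V → Finset V} (hD : ∀ x ∈ B, D x ⊆ S x) :
    ∑ v ∈ B.biUnion D, (((B.card : ℤ) - 1) * ((r : ℤ) - 1) - nd G (B.biUnion S) v)
      = ∑ x ∈ B, ∑ v ∈ D x, (∑ y ∈ B.erase x, (dg G (S y) v : ℤ) - nd G (S x) v - (B.card - 1)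
        - ∑ y ∈ B, (((S y).card : ℤ) - r) + (((S x).card : ℤ) - r)) := by
  have hd : ∀ x ∈ B, ∀ y ∈ B, x ≠ y → Disjoint (D x) (D y) := fun x hx y hy hxy =>
    (h.disj (hB hx) (hB hy) hxy).mono (hD x hx) (hD y hy)
  rw [sum_biUnion (fun x hx y hy hxy => hd x hx y hy hxy)]
  exact sum_congr rfl fun x hx => sum_congr rfl fun v hv => h.nd_slots hB hx (hD x hx hv)

/-- **the B-slot test with the degree sum** (note 16222 (2); `B = A`: the star): (LD) on the union of
the slot parts enters as the hypothesis `hLD` (all counts ordered, so the sum has a factor 2) -/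
theorem CSys.star_ld {A : Finset V} {S : V → Finset V} (h : CSys G Z T hm A S)
    {B : Finset V} (hB : B ⊆ A) {D : V → Finset V} (hD : ∀ x ∈ B, D x ⊆ S x)
    (hLD : 2 * ∑ v ∈ B.biUnion D, (((B.card : ℤ) - 1) * ((r : ℤ) - 1) - nd G (B.biUnion S) v)
      ≤ ((B.card : ℤ) - 1) * (NE G (B.biUnion S)
        - ((r : ℤ) - 1) * (2 * B.card * (B.biUnion S).card - r * B.card * (B.card + 1)))) :
    ((B.card : ℤ) - 1) * (2 * ((r : ℤ) - B.card) * ∑ x ∈ B, (((S x).card : ℤ) - r)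
      + ∑ x ∈ B, ∑ y ∈ B.erase x, ∑ v ∈ S y, (dg G (S x) v : ℤ)
      + ∑ x ∈ B, (((S x).card : ℤ) - r) ^ 2)
      + 2 * ∑ x ∈ B, ∑ v ∈ D x, (∑ y ∈ B.erase x, (dg G (S y) v : ℤ) - nd G (S x) v
        - (B.card - 1) - ∑ y ∈ B, (((S y).card : ℤ) - r) + (((S x).card : ℤ) - r))
      ≤ ((B.card : ℤ) - 1) * (∑ x ∈ B, (NE G (S x) : ℤ) + B.card * (B.card - 1) * r
        + (∑ x ∈ B, (((S x).card : ℤ) - r)) ^ 2) := by
  rcases eq_or_ne B ∅ with rfl | hne
  · simp
  have hb : (1 : ℤ) ≤ B.card := by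
    exact_mod_cast card_pos.2 (nonempty_iff_ne_empty.2 hne)
  have h1 := h.star_B_gain (r := r) hB (γ := NE G (B.biUnion S)
        - ((r : ℤ) - 1) * (2 * B.card * (B.biUnion S).card - r * B.card * (B.card + 1)))
    (by linarith)
  rw [h.ld_sum hB hD] at hLD
  have h2 := mul_le_mul_of_nonneg_left h1 (show (0 : ℤ) ≤ (B.card : ℤ) - 1 by linarith)
  generalize ∑ x ∈ B, ∑ v ∈ D x, (∑ y ∈ B.erase x, (dg G (S y) v : ℤ) - nd G (S x) v
        - (B.card - 1) - ∑ y ∈ B, (((S y).card : ℤ) - r) + (((S x).card : ℤ) - r)) = a at *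
  generalize (NE G (B.biUnion S) : ℤ)
        - ((r : ℤ) - 1) * (2 * B.card * (B.biUnion S).card - r * B.card * (B.card + 1)) = b at *
  linarith

end LDS

end Pool.Agent.Lib.MP_f04ccf_co
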