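import Pool.Agent.Lib.MP_f04ccf_co.M.RigD
import Pool.Agent.Lib.MP_f04ccf_co.M.LDS

/-!
MP_f04ccf_co, note 16222 (helper39): the degree sum inequality (LD).  In a graph with independence
number at most `k` the degrees of the points of any set `D` fall below `q - 1` in total by at most
`q - 1` times the Turan excess of slope `q` (`lowdeg`); if there is no clique with `q + 1` points and
there are at least `k q + 1` points, the excess may be diminished by `q - 1` (`lowdeg_cap`).  Summed
over the other colours this is an improvement of (P) for every set `U`, every slope `q` and every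
`D ⊆ U`: `LowD`, `lowD_col`; with the cap for sets without `q + 1` independent points: `LowC`,
`lowC_col`.  In the slots: `CSys.star_low`, `CSys.star_lowC`, `CSys.two_low`.
-/

set_option autoImplicit false

namespace Pool.Agent.Lib.MP_f04ccf_co

open Finset

attribute [local instance] Classical.propDecidable

section LDeg

variable {V : Type*}

/-- the step of the induction -/
lemma lowdeg_step (G : SimpleGraph V) (q : ℕ) (hq : 1 ≤ q) {S D : Finset V} {v : V} (hv : v ∈ S)
    (hmin : ∀ w ∈ S, dg G S v ≤ dg G S w) (X : ℤ)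
    (ih : 2 * ∑ c ∈ D \ nb G S v, ((q : ℤ) - 1 - dg G (S \ nb G S v) c) ≤ ((q : ℤ) - 1) *
      (E G (S \ nb G S v) - 2 * q * (S \ nb G S v).card + X)) :
    2 * ∑ c ∈ D, ((q : ℤ) - 1 - dg G S c) ≤ ((q : ℤ) - 1) *
      (E G S - 2 * q * S.card + (X + q * (q + 1))) := by
  have hNS := nb_sub G S v
  have hqz : (1 : ℤ) ≤ q := by exact_mod_cast hq
  have hq' := nb_card G hv
  have h2 := E_sdiff G hNS
  set N : Finset V := nb G S v with hN
  set P : ℕ := ∑ z ∈ N, dg G S z with hP
  have hPq : (N.card : ℤ) * (N.card - 1) ≤ P := by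
    have h3 := card_nsmul_le_sum N (fun z => dg G S z) (dg G S v) (fun z hz => hmin z (hNS hz))
    rw [smul_eq_mul] at h3
    have h4 : (N.card : ℤ) - 1 = dg G S v := by rw [hq']; push_cast; ring
    rw [h4]
    exact_mod_cast h3
  have hEN : (E G N : ℤ) ≤ (N.card : ℤ) * (N.card - 1) := by
    have h3 := E_add_NE (G := G) N
    have h4 : (0 : ℤ) ≤ NE G N := Int.natCast_nonneg _
    omega
  have hout : ∑ c ∈ D \ N, ((q : ℤ) - 1 - dg G S c) ≤
      ∑ c ∈ D \ N, ((q : ℤ) - 1 - dg G (S \ N) c) := by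
    refine sum_le_sum fun c _ => ?_
    have h3 := dg_sdiff G hNS c
    omega
  have hsum : ∑ c ∈ D, ((q : ℤ) - 1 - dg G S c) =
      ∑ c ∈ D ∩ N, ((q : ℤ) - 1 - dg G S c) + ∑ c ∈ D \ N, ((q : ℤ) - 1 - dg G S c) := by
    have h3 := sum_sdiff (f := fun c => (q : ℤ) - 1 - dg G S c)
      (inter_subset_left : D ∩ N ⊆ D)
    rw [sdiff_inter_self_left] at h3
    rw [← h3, add_comm]
  have hdeg : ∀ z ∈ N, (N.card : ℤ) - 1 ≤ dg G S z := fun z hz => by
    have h3 := hmin z (hNS hz)
    omega
  have hN1 : 1 ≤ N.card := by rw [hq']; omega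
  have hN1' : (1 : ℤ) ≤ N.card := by exact_mod_cast hN1
  -- the local inequality
  have hloc : 2 * ∑ c ∈ D ∩ N, ((q : ℤ) - 1 - dg G S c) ≤
      ((q : ℤ) - 1) * (((q : ℤ) - N.card) * (q - N.card + 1)) := by
    have h3 : ∑ c ∈ D ∩ N, ((q : ℤ) - 1 - dg G S c) ≤
        ((D ∩ N).card : ℤ) * ((q : ℤ) - N.card) := by
      rw [← nsmul_eq_mul, ← sum_const]
      refine sum_le_sum fun c hc => ?_
      have := hdeg c (mem_inter.1 hc).2
      linarith
    have h4 : ((D ∩ N).card : ℤ) ≤ N.card := by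
      exact_mod_cast card_le_card inter_subset_right
    have h5 : (0 : ℤ) ≤ (D ∩ N).card := Int.natCast_nonneg _
    rcases lt_or_ge (N.card : ℤ) q with h6 | h6
    · -- fewer than `q` points
      have e1 : ((D ∩ N).card : ℤ) * ((q : ℤ) - N.card) ≤ N.card * ((q : ℤ) - N.card) :=
        mul_le_mul_of_nonneg_right h4 (by linarith)
      have e2 : 0 ≤ ((q : ℤ) - N.card) * ((q - N.card - 1) * (q + 1)) := by
        refine mul_nonneg (by linarith) (mul_nonneg (by linarith) (by linarith))
      nlinarith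
    · have e1 : ((D ∩ N).card : ℤ) * ((q : ℤ) - N.card) ≤ 0 :=
        mul_nonpos_of_nonneg_of_nonpos h5 (by linarith)
      have e2 := consec_nonneg ((N.card : ℤ) - q)
      have e3 : 0 ≤ ((q : ℤ) - 1) * (((q : ℤ) - N.card) * (q - N.card + 1)) := by
        refine mul_nonneg (by linarith) ?_
        nlinarith
      linarith
  have hcard : ((S \ N).card : ℤ) = S.card - N.card := by
    have := card_sdiff_add_card_eq_card hNS
    omega
  have h2' : (E G (S \ N) : ℤ) = E G S + E G N - 2 * P := by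
    omega
  have h7 : 0 ≤ ((q : ℤ) - 1) * ((P - (N.card : ℤ) * (N.card - 1)) +
      (P - (E G N : ℤ))) := mul_nonneg (by linarith) (by linarith)
  rw [hcard, h2'] at ih
  rw [hsum]
  nlinarith

/-- **the points of small degree** -/
theorem lowdeg (G : SimpleGraph V) (q : ℕ) (hq : 1 ≤ q) : ∀ (k : ℕ) (S D : Finset V),
    AlphaLe G S k → D ⊆ S →
    2 * ∑ c ∈ D, ((q : ℤ) - 1 - dg G S c) ≤ ((q : ℤ) - 1) *
      (E G S - 2 * q * S.card + k * (q * (q + 1))) := by
  intro k
  have hqz : (1 : ℤ) ≤ q := by exact_mod_cast hq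
  induction k with
  | zero =>
    intro S D hS hD
    have h1 := hS.zero
    subst h1
    have h2 := subset_empty.1 hD
    subst h2
    simp [E]
  | succ k ih =>
    intro S D hS hD
    by_cases hS0 : S = ∅
    · subst hS0
      have h2 := subset_empty.1 hD
      subst h2
      have h3 : (0 : ℤ) ≤ ((q : ℤ) - 1) * (((k : ℤ) + 1) * (q * (q + 1))) := by
        refine mul_nonneg (by linarith) (mul_nonneg (by positivity) (by positivity))
      simp only [E, sum_empty, card_empty, Nat.cast_zero, mul_zero, sub_zero, zero_add]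
      push_cast
      exact h3
    obtain ⟨v, hv, hmin⟩ := exists_min_image S (fun w => dg G S w) (nonempty_iff_ne_empty.2 hS0)
    have h1 := ih (S \ nb G S v) (D \ nb G S v) (hS.sdiff_nb G hv) (sdiff_subset_sdiff hD le_rfl)
    have h2 := lowdeg_step G q hq hv hmin _ h1
    push_cast
    linarith

/-- **the points of small degree, with the cap** -/
theorem lowdeg_cap (G : SimpleGraph V) (q : ℕ) (hq : 1 ≤ q) : ∀ (k : ℕ) (S D : Finset V),
    AlphaLe G S k → D ⊆ S → (∀ K ⊆ S, Clq G K → K.card ≤ q) → q * k + 1 ≤ S.card →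
    2 * ∑ c ∈ D, ((q : ℤ) - 1 - dg G S c) ≤ ((q : ℤ) - 1) *
      (E G S - 2 * q * S.card + k * (q * (q + 1)) - 2 * (q - 1)) := by
  intro k
  have hqz : (1 : ℤ) ≤ q := by exact_mod_cast hq
  induction k with
  | zero =>
    intro S D hS hD _ hc
    have h1 := hS.zero
    subst h1
    simp at hc
  | succ k ih =>
    intro S D hS hD hω hc
    have hS0 : S.Nonempty := card_pos.1 (by omega)
    obtain ⟨v, hv, hmin⟩ := exists_min_image S (fun w => dg G S w) hS0
    have hq' := nb_card G hv
    have hNS := nb_sub G S v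
    by_cases hp : (nb G S v).card ≤ q
    · have hc' : q * k + 1 ≤ (S \ nb G S v).card := by
        have := card_sdiff_add_card_eq_card hNS
        have h3 : q * (k + 1) = q * k + q := by ring
        omega
      have h1 := ih (S \ nb G S v) (D \ nb G S v) (hS.sdiff_nb G hv)
        (sdiff_subset_sdiff hD le_rfl) (fun K hK => hω K (hK.trans sdiff_subset)) hc'
      have h2 := lowdeg_step G q hq hv hmin (k * (q * (q + 1)) - 2 * (q - 1)) (by linarith)
      push_cast
      linarith
    · -- all degrees are at least `q`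
      obtain ⟨j, hj⟩ := Nat.exists_eq_add_of_le hc
      have h1 := brou (G := G) q (k + 1) j S hS hω hj
      have h2 : ∑ c ∈ D, ((q : ℤ) - 1 - dg G S c) ≤ 0 := by
        refine sum_nonpos fun c hc => ?_
        have h3 := hmin c (hD hc)
        have h4 : q ≤ dg G S v := by omega
        have h5 : (q : ℤ) ≤ dg G S c := by exact_mod_cast h4.trans h3
        linarith
      have h3 : (0 : ℤ) ≤ ((q : ℤ) - 1) *
          (E G S - 2 * q * S.card + (k + 1 : ℕ) * (q * (q + 1)) - 2 * (q - 1)) := by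
        refine mul_nonneg (by linarith) ?_
        have h4 : (S.card : ℤ) = q * (k + 1) + 1 + j := by exact_mod_cast hj
        rw [h4]
        push_cast at h1 ⊢
        nlinarith
      linarith

/-- (P) with the points of small missing degree: for every set `U`, slope `q`, and `D ⊆ U` -/
def LowD (G : SimpleGraph V) (r : ℕ) : Prop :=
  ∀ (q : ℕ) (U D : Finset V), 1 ≤ q → D ⊆ U →
    2 * ∑ v ∈ D, (((q : ℤ) - 1) * (r - 1) - nd G U v) ≤ ((q : ℤ) - 1) *
      (NE G U - (r - 1) * (2 * q * U.card - r * (q * (q + 1))))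

/-- the sum of the colour degrees -/
lemma sum_dg_erase {r : ℕ} {c : V → V → Fin r} (hc : ∀ x y, c x y = c y x) (k : Fin r)
    {S : Finset V} {x : V} (hx : x ∈ S) (q : ℤ) :
    ∑ j ∈ (univ.erase k : Finset (Fin r)), (q - (dg (col c hc j) S x : ℤ)) =
      (r - 1) * q - nd (col c hc k) S x := by
  have hr1 : (((univ.erase k : Finset (Fin r)).card : ℕ) : ℤ) = r - 1 := by
    rw [card_erase_of_mem (mem_univ k), card_univ, Fintype.card_fin]
    have : 0 < r := k.pos
    omega
  have h4 := sum_dg hc S hx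
  have h5 := dg_add_nd (G := col c hc k) hx
  rw [← add_sum_erase univ _ (mem_univ k)] at h4
  rw [sum_sub_distrib, sum_const, nsmul_eq_mul, hr1]
  have h6 : ((∑ j ∈ univ.erase k, dg (col c hc j) S x : ℕ) : ℤ) = nd (col c hc k) S x := by
    omega
  rw [← h6]
  push_cast
  ring

/-- **the colour classes have the property `LowD`** -/
theorem lowD_col {r : ℕ} {c : V → V → Fin r} {hc : ∀ x y, c x y = c y x} (hs : Sees c)
    (k : Fin r) : LowD (col c hc k) r := by
  intro q U D hq hD
  have hr1 : (((univ.erase k : Finset (Fin r)).card : ℕ) : ℤ) = r - 1 := by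
    rw [card_erase_of_mem (mem_univ k), card_univ, Fintype.card_fin]
    have : 0 < r := k.pos
    omega
  have h2 := sum_le_sum (s := (univ.erase k : Finset (Fin r))) fun j _ =>
    lowdeg (col c hc j) q hq r U D (alpha_le hc hs j U) hD
  have h5 := sum_E_int hc U
  rw [← add_sum_erase univ _ (mem_univ k)] at h5
  have h6 := E_add_NE (G := col c hc k) U
  have h7 : ∑ j ∈ univ.erase k, (E (col c hc j) U : ℤ) = NE (col c hc k) U := by linarith
  have h9 : ∑ j ∈ univ.erase k, ((q : ℤ) - 1) *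
      ((E (col c hc j) U : ℤ) - 2 * q * U.card + r * (q * (q + 1))) = ((q : ℤ) - 1) *
      (NE (col c hc k) U - (r - 1) * (2 * q * U.card - r * (q * (q + 1)))) := by
    rw [← mul_sum, sum_add_distrib, sum_sub_distrib, sum_const, sum_const, nsmul_eq_mul,
      nsmul_eq_mul, hr1, h7]
    ring
  rw [h9, ← mul_sum, sum_comm, sum_congr rfl fun x hx => sum_dg_erase hc k (hD hx) ((q : ℤ) - 1)]
    at h2
  have h8 : ∑ v ∈ D, (((q : ℤ) - 1) * (r - 1) - nd (col c hc k) U v) =
      ∑ v ∈ D, (((r : ℤ) - 1) * (q - 1) - nd (col c hc k) U v) :=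
    sum_congr rfl fun v _ => by ring
  rw [h8]
  exact h2

/-- (P) with the points of small missing degree and the cap: sets without `q + 1` independent
points -/
def LowC (G : SimpleGraph V) (r : ℕ) : Prop :=
  ∀ (q : ℕ) (U D : Finset V), 1 ≤ q → D ⊆ U → AlphaLe G U q → q * r + 1 ≤ U.card →
    2 * ∑ v ∈ D, (((q : ℤ) - 1) * (r - 1) - nd G U v) ≤ ((q : ℤ) - 1) *
      (NE G U - (r - 1) * (2 * q * U.card - r * (q * (q + 1))) - 2 * (q - 1) * (r - 1))

/-- **the colour classes have the property `LowC`** -/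
theorem lowC_col {r : ℕ} {c : V → V → Fin r} {hc : ∀ x y, c x y = c y x} (hs : Sees c)
    (k : Fin r) : LowC (col c hc k) r := by
  intro q U D hq hD ha hcard
  have hr1 : (((univ.erase k : Finset (Fin r)).card : ℕ) : ℤ) = r - 1 := by
    rw [card_erase_of_mem (mem_univ k), card_univ, Fintype.card_fin]
    have : 0 < r := k.pos
    omega
  have h2 := sum_le_sum (s := (univ.erase k : Finset (Fin r))) fun j hj =>
    lowdeg_cap (col c hc j) q hq r U D (alpha_le hc hs j U) hD
      (fun K hK hq' => ha K hK (clq_ind hc (ne_of_mem_erase hj).symm hq')) hcard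
  have h5 := sum_E_int hc U
  rw [← add_sum_erase univ _ (mem_univ k)] at h5
  have h6 := E_add_NE (G := col c hc k) U
  have h7 : ∑ j ∈ univ.erase k, (E (col c hc j) U : ℤ) = NE (col c hc k) U := by linarith
  have h9 : ∑ j ∈ univ.erase k, ((q : ℤ) - 1) *
      ((E (col c hc j) U : ℤ) - 2 * q * U.card + r * (q * (q + 1)) - 2 * (q - 1)) =
      ((q : ℤ) - 1) * (NE (col c hc k) U - (r - 1) * (2 * q * U.card - r * (q * (q + 1)))
        - 2 * (q - 1) * (r - 1)) := by
    rw [← mul_sum, sum_sub_distrib, sum_add_distrib, sum_sub_distrib, sum_const, sum_const,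
      sum_const, nsmul_eq_mul, nsmul_eq_mul, nsmul_eq_mul, hr1, h7]
    ring
  rw [h9, ← mul_sum, sum_comm, sum_congr rfl fun x hx => sum_dg_erase hc k (hD hx) ((q : ℤ) - 1)]
    at h2
  have h8 : ∑ v ∈ D, (((q : ℤ) - 1) * (r - 1) - nd (col c hc k) U v) =
      ∑ v ∈ D, (((r : ℤ) - 1) * (q - 1) - nd (col c hc k) U v) :=
    sum_congr rfl fun v _ => by ring
  rw [h8]
  exact h2

variable {G : SimpleGraph V} {Z T : Finset V} {hm : V → V} {r m t : ℕ}

/-- **the B-slot test with the degree sum** for every nonempty set `B` of rows and every choice of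
points `D x ⊆ S x` (16222 (2), 16564 (1)) -/
theorem CSys.star_low (hL : LowD G r) {A : Finset V} {S : V → Finset V}
    (h : CSys G Z T hm A S) {B : Finset V} (hB : B ⊆ A) (hB1 : 1 ≤ B.card) {D : V → Finset V}
    (hD : ∀ x ∈ B, D x ⊆ S x) :
    ((B.card : ℤ) - 1) * (2 * ((r : ℤ) - B.card) * ∑ x ∈ B, (((S x).card : ℤ) - r)
      + ∑ x ∈ B, ∑ y ∈ B.erase x, ∑ v ∈ S y, (dg G (S x) v : ℤ)
      + ∑ x ∈ B, (((S x).card : ℤ) - r) ^ 2)
      + 2 * ∑ x ∈ B, ∑ v ∈ D x, (∑ y ∈ B.erase x, (dg G (S y) v : ℤ) - nd G (S x) v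
        - (B.card - 1) - ∑ y ∈ B, (((S y).card : ℤ) - r) + (((S x).card : ℤ) - r))
      ≤ ((B.card : ℤ) - 1) * (∑ x ∈ B, (NE G (S x) : ℤ) + B.card * (B.card - 1) * r
        + (∑ x ∈ B, (((S x).card : ℤ) - r)) ^ 2) := by
  refine h.star_ld hB hD ?_
  have h1 := hL B.card (B.biUnion S) (B.biUnion D) hB1 (biUnion_subset.2 fun x hx =>
    (hD x hx).trans (subset_biUnion_of_mem S hx))
  have h2 : ((r : ℤ) - 1) * (2 * B.card * (B.biUnion S).card - r * B.card * (B.card + 1))
      = ((r : ℤ) - 1) * (2 * B.card * (B.biUnion S).card - r * (B.card * (B.card + 1))) := by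
    ring
  rw [h2]
  exact h1

/-- **the two-slot test with the degree sum** (16564 (P2+)), doubled; `D x ⊆ S x`, `D y ⊆ S y` -/
theorem CSys.two_low (hL : LowD G r) {A : Finset V} {S : V → Finset V}
    (h : CSys G Z T hm A S) {x y : V} (hx : x ∈ A) (hy : y ∈ A) (hxy : x ≠ y)
    {Dx Dy : Finset V} (hDx : Dx ⊆ S x) (hDy : Dy ⊆ S y) :
    2 * ((r : ℤ) - 2) * ((((S x).card : ℤ) - r) + (((S y).card : ℤ) - r))
      + 2 * ∑ v ∈ S y, (dg G (S x) v : ℤ)
      + 2 * ∑ v ∈ Dx, ((dg G (S y) v : ℤ) - nd G (S x) v - 1 - (((S y).card : ℤ) - r))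
      + 2 * ∑ v ∈ Dy, ((dg G (S x) v : ℤ) - nd G (S y) v - 1 - (((S x).card : ℤ) - r))
      ≤ NE G (S x) + NE G (S y) + 2 * r
        + 2 * (((S x).card : ℤ) - r) * (((S y).card : ℤ) - r) := by
  have hB2 : ({x, y} : Finset V).card = 2 := card_pair hxy
  have e1 : ({x, y} : Finset V).erase x = {y} := by
    ext z
    simp only [mem_erase, mem_insert, mem_singleton]
    constructor
    · rintro ⟨h1, h2 | h2⟩
      · exact absurd h2 h1
      · exact h2
    · rintro rfl
      exact ⟨hxy.symm, Or.inr rfl⟩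
  have e2 : ({x, y} : Finset V).erase y = {x} := by
    ext z
    simp only [mem_erase, mem_insert, mem_singleton]
    constructor
    · rintro ⟨h1, h2 | h2⟩
      · exact h2
      · exact absurd h2 h1
    · rintro rfl
      exact ⟨hxy, Or.inl rfl⟩
  have h1 := h.star_low hL (B := {x, y}) (by
    intro z hz
    rcases mem_insert.1 hz with rfl | hz
    · exact hx
    · rw [mem_singleton.1 hz]; exact hy) (by rw [hB2]; omega)
    (D := fun z => if z = x then Dx else Dy) (by
      intro z hz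
      rcases mem_insert.1 hz with rfl | hz
      · simpa using hDx
      · rw [mem_singleton.1 hz]
        simpa [hxy.symm] using hDy)
  rw [hB2, sum_pair hxy, sum_pair hxy, sum_pair hxy, sum_pair hxy, sum_pair hxy, e1, e2] at h1
  simp only [sum_singleton, if_true, if_neg hxy.symm] at h1
  have h3 : ∑ v ∈ S x, (dg G (S y) v : ℤ) = ∑ v ∈ S y, (dg G (S x) v : ℤ) := by
    exact_mod_cast dg_comm G (S x) (S y)
  rw [h3] at h1
  push_cast at h1
  have h4 : ∑ v ∈ Dx, ((dg G (S y) v : ℤ) - nd G (S x) v - 1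
      - (((S x).card : ℤ) - r + (((S y).card : ℤ) - r)) + (((S x).card : ℤ) - r)) =
      ∑ v ∈ Dx, ((dg G (S y) v : ℤ) - nd G (S x) v - 1 - (((S y).card : ℤ) - r)) :=
    sum_congr rfl fun v _ => by ring
  have h5 : ∑ v ∈ Dy, ((dg G (S x) v : ℤ) - nd G (S y) v - 1
      - (((S x).card : ℤ) - r + (((S y).card : ℤ) - r)) + (((S y).card : ℤ) - r)) =
      ∑ v ∈ Dy, ((dg G (S x) v : ℤ) - nd G (S y) v - 1 - (((S x).card : ℤ) - r)) :=
    sum_congr rfl fun v _ => by ring
  rw [h4, h5] at h1
  linarith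

end LDeg

end Pool.Agent.Lib.MP_f04ccf_co
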