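import Pool.Agent.Lib.MP_f04ccf_co.M.Enum

/-!
MP_f04ccf_co, PLAN W, track 2: LAGRANGE CERTIFICATES.  Every end of an item `u` at a row `i` has a
potential `g i u`, the item has a price `q u` at its host, at most the sum of its potentials.
`Lag.sum_le`: the sum of the row values `D s + potentials - prices` is at least `D`.
`Lag.lin_dead`: no data if the value of every row is at most `gam + bet t` (and `eta` at the hub);
`Lag.tab_dead`: the same with a table of row values.
-/

set_option autoImplicit false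

namespace Pool.Agent.Lib.MP_f04ccf_co

open Finset

attribute [local instance] Classical.propDecidable

namespace Lag

variable {ι : Type*} {n : ℕ} {s rho : ℕ → ℤ} {U : Finset ι} {ho : ι → ℕ} {g : ℕ → ι → ℤ}
  {q : ι → ℤ} {D : ℤ}

/-- **duality** -/
theorem sum_le (hlt : ∀ u ∈ U, ho u < n) (hs : ∑ i ∈ range n, s i = 1)
    (hq : ∀ u ∈ U, q u ≤ ∑ i ∈ range n, g i u)
    (hF : ∀ i < n, D * s i + ∑ u ∈ U, g i u - ∑ u ∈ U.filter (fun u => ho u = i), q u ≤ rho i) :
    D ≤ ∑ i ∈ range n, rho i := by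
  have h1 : ∑ i ∈ range n, (D * s i + ∑ u ∈ U, g i u
      - ∑ u ∈ U.filter (fun u => ho u = i), q u) ≤ ∑ i ∈ range n, rho i :=
    sum_le_sum fun i hi => hF i (mem_range.1 hi)
  rw [sum_sub_distrib, sum_add_distrib, ← mul_sum, hs] at h1
  have h2 : ∑ i ∈ range n, ∑ u ∈ U.filter (fun u => ho u = i), q u = ∑ u ∈ U, q u :=
    sum_fiberwise_of_maps_to (fun u hu => mem_range.2 (hlt u hu)) q
  have h3 : ∑ i ∈ range n, ∑ u ∈ U, g i u = ∑ u ∈ U, ∑ i ∈ range n, g i u := sum_comm
  have h4 : ∑ u ∈ U, q u ≤ ∑ u ∈ U, ∑ i ∈ range n, g i u := sum_le_sum hq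
  rw [h2, h3] at h1
  linarith

variable {R : ℤ} {t h e : ℕ → ℤ} {E : ℕ → ℕ → ℤ}

/-- the total of the `t` -/
lemma sum_t (H : BI R n t s h e E) : ∑ i ∈ range n, t i ≤ R - n := by
  have h1 : ∑ i ∈ range n, h i = ∑ i ∈ range n, (t i + s i + 1) :=
    sum_congr rfl fun i hi => H.hh i (mem_range.1 hi)
  have h2 : ∑ i ∈ range n, (t i + s i + 1) = ∑ i ∈ range n, t i + 1 + n := by
    rw [sum_add_distrib, sum_add_distrib, H.ss, sum_const, card_range, nsmul_eq_mul, mul_one]
  have h3 := H.sh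
  rw [h1, h2] at h3
  linarith

/-- **certificate with the hub `0`**: the value of every other row is at most `gam + bet t` -/
theorem lin_dead (H : BI R n t s h e E) (h5 : 5 ≤ n) (hlt : ∀ u ∈ U, ho u < n)
    (hq : ∀ u ∈ U, q u ≤ ∑ i ∈ range n, g i u) {eta gam bet : ℤ} (hb : 0 ≤ bet) (hg : gam ≤ bet)
    (h0 : D * s 0 + ∑ u ∈ U, g 0 u - ∑ u ∈ U.filter (fun u => ho u = 0), q u ≤ eta)
    (hF : ∀ i < n, i ≠ 0 → D * s i + ∑ u ∈ U, g i u
      - ∑ u ∈ U.filter (fun u => ho u = i), q u ≤ gam + bet * t i)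
    (hc : eta + 4 * gam + bet * (R - 5 - t 0) < D) : False := by
  have h1 := sum_le (rho := fun i => if i = 0 then eta else gam + bet * t i) hlt H.ss hq
    fun i hi => by
      by_cases h2 : i = 0
      · subst h2
        simpa using h0
      · simp only [h2, if_false]
        exact hF i hi h2
  have h0n : (0 : ℕ) ∈ range n := mem_range.2 (by omega)
  rw [← add_sum_erase _ _ h0n] at h1
  have h3 : ∑ i ∈ (range n).erase 0, (if i = 0 then eta else gam + bet * t i)
      = ((n : ℤ) - 1) * gam + bet * ∑ i ∈ (range n).erase 0, t i := by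
    rw [sum_congr rfl fun i hi => if_neg (ne_of_mem_erase hi), sum_add_distrib, sum_const,
      card_erase_of_mem h0n, card_range, nsmul_eq_mul, ← mul_sum]
    have h4 : ((n - 1 : ℕ) : ℤ) = (n : ℤ) - 1 := by omega
    rw [h4]
  simp only [if_true] at h1
  rw [h3] at h1
  have h5' := sum_t H
  rw [← add_sum_erase _ _ h0n] at h5'
  have h6 : bet * ∑ i ∈ (range n).erase 0, t i ≤ bet * (R - n - t 0) :=
    mul_le_mul_of_nonneg_left (by linarith) hb
  have h7 : (5 : ℤ) ≤ n := by exact_mod_cast h5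
  nlinarith [mul_le_mul_of_nonneg_right hg (show (0 : ℤ) ≤ (n : ℤ) - 5 by linarith)]

/-- **certificate with a table**: the value of every row other than the hub is at most `rho (t)`, and
the knapsack bound `kn k M` for `k` rows with total `M` -/
theorem tab_dead (H : BI R n t s h e E) (hn : 1 ≤ n) (hlt : ∀ u ∈ U, ho u < n)
    (hq : ∀ u ∈ U, q u ≤ ∑ i ∈ range n, g i u) {eta : ℤ} {rh : ℤ → ℤ}
    (h0 : D * s 0 + ∑ u ∈ U, g 0 u - ∑ u ∈ U.filter (fun u => ho u = 0), q u ≤ eta)
    (hF : ∀ i < n, i ≠ 0 → D * s i + ∑ u ∈ U, g i u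
      - ∑ u ∈ U.filter (fun u => ho u = i), q u ≤ rh (t i))
    (hc : eta + ∑ i ∈ (range n).erase 0, rh (t i) < D) : False := by
  have h1 := sum_le (rho := fun i => if i = 0 then eta else rh (t i)) hlt H.ss hq
    fun i hi => by
      by_cases h2 : i = 0
      · subst h2
        simpa using h0
      · simp only [h2, if_false]
        exact hF i hi h2
  have h0n : (0 : ℕ) ∈ range n := mem_range.2 (by omega)
  rw [← add_sum_erase _ _ h0n, sum_congr rfl fun i hi => if_neg (ne_of_mem_erase hi)] at h1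
  simp only [if_true] at h1
  linarith

end Lag

end Pool.Agent.Lib.MP_f04ccf_co
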