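import Pool.Agent.Lib.MP_f04ccf_co.M.LvE
import Pool.Agent.Lib.MP_f04ccf_co.M.PotL
import Pool.Agent.Lib.MP_f04ccf_co.M.ItC

/-!
MP_f04ccf_co, PLAN W, finite part: **the loads**.  One threshold `m z` per row with
`R + t z ^ 2 < (m z + 1) ^ 2`; `P x z` the number of PC ends of the host `x` at the row `z`, `K x z` the
number of its other ends with at most `m z` misses.
`LvI.tE4`: the row test for ends without the sign condition for `s ≥ -4`.
`LdC`: supply, row test, pair test, energies and the values of the cells over the integers `P`, `K`;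
`ItC.ldc`: the items of version [C] with levels give such loads.
-/

set_option autoImplicit false

namespace Pool.Agent.Lib.MP_f04ccf_co

open Finset

attribute [local instance] Classical.propDecidable

/-- **the loads** -/
structure LdC (R : ℤ) (n : ℕ) (t s h e mu m : ℕ → ℤ) (P K : ℕ → ℕ → ℕ) (N W : ℕ → ℕ → ℤ) :
    Prop where
  t0 : ∀ i < n, 0 ≤ t i
  tR : ∀ i < n, t i + 1 ≤ R
  h0 : ∀ i < n, 0 ≤ h i
  hh : ∀ i < n, h i = t i + s i + 1
  mu0 : ∀ i < n, 0 ≤ mu i
  muh : ∀ i < n, mu i ≤ h i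
  en : ∀ i < n, 2 * e i + mu i * (mu i + 1)
    ≤ 2 * (mu i * h i) + ∑ j ∈ (range n).erase i, N i j
  pm : ∀ i < n, ∑ j ∈ (range n).erase i, (P i j : ℤ) ≤ mu i
  sup : ∀ i < n, mu i ≤ ∑ j ∈ (range n).erase i, ((P i j : ℤ) + K i j)
  row : ∀ z < n, ∀ a b : ℕ, a ≤ ∑ x ∈ (range n).erase z, P x z →
    b ≤ ∑ x ∈ (range n).erase z, K x z → (0 ≤ s z + ((a : ℤ) + b) ∨ -4 ≤ s z) →
    2 * R * s z + 2 * (a * (R - t z) + b * max 0 (R - t z - m z))
      ≤ 2 * e z + 4 * ((a : ℤ) + b) * (s z + 1) + 2 * ((a : ℤ) + b) * (2 * ((a : ℤ) + b) - 1)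
  pair : ∀ x < n, ∀ z < n, x ≠ z →
    2 * (R - 1) * (s x + s z) + 2 * (P x z * (R - t z) + K x z * max 0 (R - t z - m z)
      + (P z x * (R - t x) + K z x * max 0 (R - t x - m x))) + 2 * W x z
      ≤ 2 * e x + 2 * e z + 2 * (R + 1) + 2 * s x * s z
  pc2 : ∀ x < n, ∀ z < n, x ≠ z → P x z + P z x ≤ 2
  pc1 : ∀ x < n, ∀ z < n, x ≠ z → P x z + P z x = 2 → R ≤ t x * t z + 4
  nn : ∀ x < n, ∀ z < n, x ≠ z → ∀ a : ℤ, 0 ≤ a → t x * t z + 1 < (a + 1) ^ 2 →
    N x z ≤ 2 * (P x z * (1 + a))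
  net : ∀ x < n, ∀ z < n, x ≠ z → N x z + N z x ≤ 2 * W x z
    + if P x z + P z x = 2 then 6 else 2 * ((P x z : ℤ) + P z x)

section Ends

open Lv

variable {ι : Type*} {R : ℤ} {n : ℕ} {t s h e : ℕ → ℤ} {U : Finset ι} {ho : ι → ℕ} {vl : ι → ℤ}
  {kp ms mr mn : ℕ → ι → ℤ} {mu : ℕ → ℤ} {be : ℕ → ℕ → ℤ} {pc ar : ι → ℤ}

/-- the row test for ends without the sign condition -/
theorem LvI.tE4 (H : LvI R n t s h e U ho vl kp ms mr mn mu be pc ar)
    (m0 : ∀ u ∈ U, ∀ i < n, 0 ≤ ms i u) {i : ℕ} (hi : i < n) {K : Finset (ι × ℕ)}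
    (hK : K ⊆ ens U ho kp i) (h0 : 0 ≤ s i + K.card ∨ -4 ≤ s i) :
    2 * R * s i + 2 * ∑ x ∈ K, (R - t i - bm kp mn i x)
      ≤ 2 * e i + 4 * K.card * (s i + 1) + 2 * K.card * (2 * K.card - 1) := by
  rcases h0 with h0 | h0
  · exact H.tE m0 hi hK h0
  have hmn : ∀ u ∈ U, 0 ≤ mn i u := fun u hu => (m0 u hu i hi).trans (H.msn u hu i hi)
  have h1 := H.rlv i hi (its K) (its_sub hK) (its_ho hK) (lev K) (fun u hu => lev_pos hu)
    (fun u hu => lev_le hK hu) 0
  have h2 := hits_le hmn (R - t i) hK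
  have hP : ∑ u ∈ its K, ((lev K u : ℤ) + 1) ≤ 2 * K.card := by
    rw [← card_eq K, mul_sum]
    exact sum_le_sum fun u hu => by
      have : (1 : ℤ) ≤ lev K u := by exact_mod_cast lev_pos hu
      linarith
  have hP0 : 3 * (K.card : ℤ) ≤ 2 * ∑ u ∈ its K, ((lev K u : ℤ) + 1) := by
    rw [← card_eq K, mul_sum, mul_sum]
    exact sum_le_sum fun u hu => by
      have : (lev K u : ℤ) ≤ 2 := by exact_mod_cast lev_two hK u
      linarith
  set P := ∑ u ∈ its K, ((lev K u : ℤ) + 1)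
  set k : ℤ := (K.card : ℤ) with hk
  have hk0 : 0 ≤ k := by rw [hk]; exact Int.natCast_nonneg _
  have h3 : 0 ≤ (2 * k - P) * (2 * s i + 2 + P + 2 * k - 1) := by
    rcases eq_or_lt_of_le hP with h4 | h4
    · rw [h4]
      simp
    · exact mul_nonneg (by linarith) (by omega)
  nlinarith

/-- a sum over the ends of one host -/
lemma sum_ends {x z : ℕ} (hxz : x ≠ z) (f : ι × ℕ → ℤ) :
    ∑ p ∈ (ens U ho kp z).filter (fun p => ho p.1 = x), f p
      = ∑ u ∈ U.filter (fun u => ho u = x), ∑ l ∈ range 2,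
        if (l : ℤ) < kp z u then f (u, l) else 0 := by
  have h1 : (ens U ho kp z).filter (fun p => ho p.1 = x)
      = ((U.filter fun u => ho u = x) ×ˢ range 2).filter fun p => (p.2 : ℤ) < kp z p.1 := by
    ext p
    rw [mem_filter, mem_ens, mem_filter, mem_product, mem_filter, mem_range]
    constructor
    · rintro ⟨⟨h1, h2, h3, h4⟩, h5⟩
      exact ⟨⟨⟨h1, h5⟩, h3⟩, h4⟩
    · rintro ⟨⟨⟨h1, h5⟩, h3⟩, h4⟩
      exact ⟨⟨h1, by rw [h5]; exact hxz, h3, h4⟩, h5⟩
  rw [h1, sum_filter, sum_product]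

/-- the ends of PC pairs of the host `x` at the row `z` -/
noncomputable def ldP (U : Finset ι) (ho : ι → ℕ) (kp : ℕ → ι → ℤ) (pc : ι → ℤ) (x z : ℕ) :
    Finset (ι × ℕ) := (ens U ho kp z).filter fun p => ho p.1 = x ∧ pc p.1 = 1

/-- the other ends of the host `x` at the row `z` with few misses -/
noncomputable def ldK (U : Finset ι) (ho : ι → ℕ) (kp mn : ℕ → ι → ℤ) (pc : ι → ℤ) (m : ℕ → ℤ)
    (x z : ℕ) : Finset (ι × ℕ) :=
  (ens U ho kp z).filter fun p => ho p.1 = x ∧ pc p.1 = 0 ∧ bm kp mn z p ≤ m z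

end Ends

section FromItC

open Lv

variable {ι : Type*} {R : ℤ} {n : ℕ} {t s h e : ℕ → ℤ} {E : ℕ → ℕ → ℤ} {U : Finset ι}
  {ho : ι → ℕ} {vl : ι → ℤ} {kp ms mr mn : ℕ → ι → ℤ} {mu Nb : ℕ → ℤ} {Nx : ℕ → ℕ → ℤ}
  {be : ℕ → ℕ → ℤ} {ls : ℕ → ℤ → ℤ} {pc ar : ι → ℤ} {aT : ℕ → ℤ} {NN FF pw : ℕ → ℕ → ℤ}
  {nu : ℕ → ι → ℤ}

namespace ItC

/-- the PC pairs of a cell with the longest free part -/
lemma exM (H : ItC R n t s h e E U ho vl kp ms mr mu Nb Nx be ls pc ar aT NN FF pw nu)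
    {i j : ℕ} (hi : i < n) (hj : j < n) :
    ∃ M : ℤ, 0 ≤ M ∧ ∑ u ∈ U.filter (fun u => ho u = i), nu j u ≤ be i j * M ∧
      (1 ≤ be i j → M * (M + 1 - be j i) ≤ FF i j ∧ M ^ 2 ≤ t i * t j + 1) := by
  set F := U.filter fun u => ho u = i ∧ pc u = 1 ∧ kp j u ≠ 0 with hF
  have hFm : ∀ u ∈ F, u ∈ U ∧ ho u = i ∧ pc u = 1 ∧ kp j u ≠ 0 := fun u hu => by
    have := mem_filter.1 hu
    exact ⟨this.1, this.2.1, this.2.2.1, this.2.2.2⟩
  have hsub : F ⊆ U.filter fun u => ho u = i := fun u hu =>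
    mem_filter.2 ⟨(hFm u hu).1, (hFm u hu).2.1⟩
  have h1 : ∑ u ∈ U.filter (fun u => ho u = i), nu j u = ∑ u ∈ F, nu j u := by
    refine (sum_subset hsub fun u hu hu' => ?_).symm
    obtain ⟨h2, h3⟩ := mem_filter.1 hu
    rcases H.pcf u h2 with h4 | h4
    · exact H.nup u h2 h4 j hj
    · by_cases h5 : kp j u = 0
      · exact H.nuz u h2 j hj h5
      · exact absurd (mem_filter.2 ⟨h2, h3, h4, h5⟩) hu'
  have h2 : be i j = F.card := by
    rw [← H.pcb i hi j hj]
    have h3 : ∑ u ∈ U.filter (fun u => ho u = i), pc u * kp j u = ∑ u ∈ F, pc u * kp j u := by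
      refine (sum_subset hsub fun u hu hu' => ?_).symm
      obtain ⟨h2, h3⟩ := mem_filter.1 hu
      rcases H.pcf u h2 with h4 | h4
      · rw [h4, zero_mul]
      · by_cases h5 : kp j u = 0
        · rw [h5, mul_zero]
        · exact absurd (mem_filter.2 ⟨h2, h3, h4, h5⟩) hu'
    rw [h3]
    have h4 : ∀ u ∈ F, pc u * kp j u = 1 := fun u hu => by
      obtain ⟨a1, a2, a3, a4⟩ := hFm u hu
      have b1 := H.kv u a1 j hj
      have b2 := H.k0 u a1 j hj
      have b3 := H.pcv u a1 (by rw [a3]; norm_num)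
      have b4 : kp j u = 1 := by
        rw [b3] at b1
        omega
      rw [a3, b4]
      norm_num
    rw [sum_congr rfl h4, sum_const, nsmul_eq_mul, mul_one]
  rcases F.eq_empty_or_nonempty with h3 | h3
  · refine ⟨0, le_rfl, ?_, fun h4 => ?_⟩
    · rw [h1, h3, sum_empty, mul_zero]
    · rw [h2, h3] at h4
      simp at h4
  · obtain ⟨u, hu, hmax⟩ := exists_max_image F (fun u => nu j u) h3
    obtain ⟨a1, a2, a3, a4⟩ := hFm u hu
    refine ⟨nu j u, H.nu0 u a1 j hj, ?_, fun _ => ⟨?_, ?_⟩⟩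
    · rw [h1, h2]
      have h5 := sum_le_card_nsmul F (fun u => nu j u) (nu j u) fun v hv => hmax v hv
      rwa [nsmul_eq_mul] at h5
    · have h5 := H.FFg u a1 a3 j hj a4
      rw [a2] at h5
      exact h5
    · have h5 := H.nuq u a1 (H.pcv u a1 (by rw [a3]; norm_num)) j hj a4
      rw [a2, a3] at h5
      nlinarith

/-- the values of a cell -/
lemma cellV (H : ItC R n t s h e E U ho vl kp ms mr mu Nb Nx be ls pc ar aT NN FF pw nu)
    (hR : 10 ≤ R) {i j : ℕ} (hi : i < n) (hj : j < n) (hij : i ≠ j) (ht : t i * t j ≤ R)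
    (h2 : be i j + be j i ≤ 2) :
    (∀ a : ℤ, 0 ≤ a → t i * t j + 1 < (a + 1) ^ 2 → NN i j ≤ 2 * (be i j * (1 + a))) ∧
      NN i j + NN j i ≤ 2 * FF i j
        + if be i j + be j i = 2 then 6 else 2 * (be i j + be j i) := by
  have b1 := H.be0 i hi j hj
  have b2 := H.be0 j hj i hi
  obtain ⟨M, hM, m1, m2⟩ := H.exM hi hj
  obtain ⟨M', hM', m1', m2'⟩ := H.exM hj hi
  have n1 := H.NNb i hi j hj
  have n2 := H.NNb j hj i hi
  have c1 := H.cellP i hi j hj hij
  have f0 := H.FF0 i hi j hj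
  have f1 := H.FFs j hj i hi
  rw [f1] at m2'
  have hc : (be i j = 0 ∧ be j i = 0) ∨ (be i j = 1 ∧ be j i = 0) ∨ (be i j = 0 ∧ be j i = 1) ∨
      (be i j = 2 ∧ be j i = 0) ∨ (be i j = 1 ∧ be j i = 1) ∨ (be i j = 0 ∧ be j i = 2) := by
    omega
  rcases hc with ⟨p1, p2⟩ | ⟨p1, p2⟩ | ⟨p1, p2⟩ | ⟨p1, p2⟩ | ⟨p1, p2⟩ | ⟨p1, p2⟩
  · have z1 := H.NNz i hi j hj p1
    have z2 := H.NNz j hj i hi p2
    rw [z1, z2, p1, p2]
    refine ⟨fun a _ _ => by norm_num, ?_⟩
    norm_num
    exact f0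
  · have z2 := H.NNz j hj i hi p2
    obtain ⟨m3, m4⟩ := m2 (by rw [p1])
    rw [p1] at n1 m1 ⊢
    rw [p2] at m3 ⊢
    rw [z2]
    refine ⟨fun a ha h3 => ?_, ?_⟩
    · have h5 : M ≤ a := by
        by_contra h6
        push Not at h6
        nlinarith
      nlinarith
    · norm_num
      nlinarith
  · have z1 := H.NNz i hi j hj p1
    obtain ⟨m3, m4⟩ := m2' (by rw [p2])
    rw [p2] at n2 m1' ⊢
    rw [p1] at m3 ⊢
    rw [z1]
    refine ⟨fun a ha h3 => by norm_num, ?_⟩
    norm_num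
    nlinarith
  · have z2 := H.NNz j hj i hi p2
    obtain ⟨m3, m4⟩ := m2 (by rw [p1]; norm_num)
    rw [p1] at n1 m1 ⊢
    rw [p2] at m3 ⊢
    rw [p1, p2, z2] at c1
    rw [z2]
    have h4 : M ^ 2 - M ≤ t i * t j + 4 - R := by nlinarith
    refine ⟨fun a ha h3 => ?_, ?_⟩
    · have h5 : M + 1 ≤ a := by
        by_contra h6
        push Not at h6
        have h7 : a ≤ M := by omega
        have h8 : (a + 1) ^ 2 ≤ (M + 1) ^ 2 := by nlinarith
        have h9 : 3 ≤ M := by nlinarith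
        nlinarith
      nlinarith
    · norm_num
      nlinarith
  · obtain ⟨m3, m4⟩ := m2 (by rw [p1])
    obtain ⟨m3', m4'⟩ := m2' (by rw [p2])
    rw [p1] at n1 m1 m3' ⊢
    rw [p2] at n2 m1' m3 ⊢
    refine ⟨fun a ha h3 => ?_, ?_⟩
    · have h5 : M ≤ a := by
        by_contra h6
        push Not at h6
        nlinarith
      nlinarith
    · norm_num
      nlinarith [sq_nonneg (M - 1), sq_nonneg (M' - 1)]
  · have z1 := H.NNz i hi j hj p1
    obtain ⟨m3, m4⟩ := m2' (by rw [p2]; norm_num)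
    rw [p2] at n2 m1' ⊢
    rw [p1] at m3 ⊢
    rw [z1]
    refine ⟨fun a ha h3 => by norm_num, ?_⟩
    norm_num
    nlinarith

end ItC

/-- an end of a PC pair has no misses -/
lemma LvI.bm_pc (L : LvI R n t s h e U ho vl kp ms mr mn mu be pc ar) {z : ℕ} (hz : z < n)
    {p : ι × ℕ} (hp : p ∈ ens U ho kp z) (h1 : pc p.1 = 1) : bm kp mn z p = 0 := by
  obtain ⟨a1, a2, a3, a4⟩ := mem_ens.1 hp
  rcases L.one p.1 a1 with ⟨i, hi, b1, b2, b3, b4⟩ | ⟨b1, -⟩
  · have h2 : z = i := by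
      by_contra h3
      have h4 := b4 z hz h3
      rw [h4] at a4
      have : (0 : ℤ) ≤ p.2 := Int.natCast_nonneg _
      omega
    unfold bm
    rw [h2, b3]
    simp
  · rw [h1] at b1
    norm_num at b1

/-- the number of the ends of PC pairs -/
lemma ItC.card_ldP (H : ItC R n t s h e E U ho vl kp ms mr mu Nb Nx be ls pc ar aT NN FF pw nu)
    (L : LvI R n t s h e U ho vl kp ms mr mn mu be pc ar) {x z : ℕ} (hx : x < n) (hz : z < n)
    (hxz : x ≠ z) : ((ldP U ho kp pc x z).card : ℤ) = be x z := by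
  have h1 : ((ldP U ho kp pc x z).card : ℤ)
      = ∑ p ∈ (ens U ho kp z).filter (fun p => ho p.1 = x), if pc p.1 = 1 then (1 : ℤ) else 0 := by
    have h2 : ldP U ho kp pc x z
        = ((ens U ho kp z).filter fun p => ho p.1 = x).filter fun p => pc p.1 = 1 := by
      unfold ldP
      rw [filter_filter]
    rw [h2, card_filter]
    push_cast
    rfl
  rw [h1, sum_ends hxz fun p => if pc p.1 = 1 then (1 : ℤ) else 0, ← H.pcb x hx z hz]
  refine sum_congr rfl fun u hu => ?_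
  have hU := (mem_filter.1 hu).1
  have k0 := H.k0 u hU z hz
  have k2 := L.k2 u hU z hz
  rw [sum_range_succ, sum_range_one]
  have hk : kp z u = 0 ∨ kp z u = 1 ∨ kp z u = 2 := by omega
  rcases H.pcf u hU with h3 | h3
  · simp [h3]
  · rcases hk with h4 | h4 | h4 <;> simp [h3, h4]

/-- the supply of one item -/
lemma ItC.sup_item (H : ItC R n t s h e E U ho vl kp ms mr mu Nb Nx be ls pc ar aT NN FF pw nu)
    (L : LvI R n t s h e U ho vl kp ms mr mn mu be pc ar) {m : ℕ → ℤ} {x z : ℕ}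
    (hz : z < n) (hm : 0 ≤ m z) (hxz : x ≠ z) :
    ∑ u ∈ U.filter (fun u => ho u = x), (kp z u - if m z < mn z u then 1 else 0)
      ≤ ((ldP U ho kp pc x z).card : ℤ) + (ldK U ho kp mn pc m x z).card := by
  have h1 : ((ldP U ho kp pc x z).card : ℤ) + (ldK U ho kp mn pc m x z).card
      = ∑ p ∈ (ens U ho kp z).filter (fun p => ho p.1 = x),
        ((if pc p.1 = 1 then (1 : ℤ) else 0)
          + if pc p.1 = 0 ∧ bm kp mn z p ≤ m z then 1 else 0) := by
    have h2 : ldP U ho kp pc x z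
        = ((ens U ho kp z).filter fun p => ho p.1 = x).filter fun p => pc p.1 = 1 := by
      unfold ldP
      rw [filter_filter]
    have h3 : ldK U ho kp mn pc m x z = ((ens U ho kp z).filter fun p => ho p.1 = x).filter
        fun p => pc p.1 = 0 ∧ bm kp mn z p ≤ m z := by
      unfold ldK
      rw [filter_filter]
    rw [h2, h3, card_filter, card_filter, sum_add_distrib]
    push_cast
    rfl
  have h4 : ∑ p ∈ (ens U ho kp z).filter (fun p => ho p.1 = x),
      (if bm kp mn z p ≤ m z then (1 : ℤ) else 0)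
      ≤ ((ldP U ho kp pc x z).card : ℤ) + (ldK U ho kp mn pc m x z).card := by
    rw [h1]
    refine sum_le_sum fun p hp => ?_
    have hU := (mem_ens.1 (mem_filter.1 hp).1).1
    rcases H.pcf p.1 hU with h5 | h5
    · by_cases h6 : bm kp mn z p ≤ m z <;> simp [h5, h6]
    · by_cases h6 : bm kp mn z p ≤ m z <;> simp [h5, h6]
  refine le_trans ?_ h4
  rw [sum_ends hxz fun p => if bm kp mn z p ≤ m z then (1 : ℤ) else 0]
  refine sum_le_sum fun u hu => ?_
  have hU := (mem_filter.1 hu).1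
  have k0 := H.k0 u hU z hz
  have k2 := L.k2 u hU z hz
  rw [sum_range_succ, sum_range_one]
  have hk : kp z u = 0 ∨ kp z u = 1 ∨ kp z u = 2 := by omega
  rcases hk with h5 | h5 | h5
  · rw [h5]
    by_cases h6 : m z < mn z u <;> simp [h6]
  · by_cases h6 : m z < mn z u
    · have h7 : ¬ mn z u ≤ m z := not_le.2 h6
      simp [h5, h6, h7, bm]
    · have h7 : mn z u ≤ m z := not_lt.1 h6
      simp [h5, h6, h7, bm]
  · by_cases h6 : m z < mn z u
    · have h7 : ¬ mn z u ≤ m z := not_le.2 h6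
      simp [h5, h6, h7, bm, hm]
    · have h7 : mn z u ≤ m z := not_lt.1 h6
      simp [h5, h6, h7, bm, hm]

/-- the hits of the hosted items in one row -/
lemma ItC.hits_ld (H : ItC R n t s h e E U ho vl kp ms mr mu Nb Nx be ls pc ar aT NN FF pw nu)
    (L : LvI R n t s h e U ho vl kp ms mr mn mu be pc ar) {m : ℕ → ℤ} {x z : ℕ}
    (hz : z < n) (hxz : x ≠ z) :
    ((ldP U ho kp pc x z).card : ℤ) * (R - t z)
      + (ldK U ho kp mn pc m x z).card * max 0 (R - t z - m z)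
      ≤ ∑ u ∈ U.filter (fun u => ho u = x), (kp z u * (R - t z) - ms z u) := by
  have hR := H.tR z hz
  have h1 : ∑ p ∈ (ens U ho kp z).filter (fun p => ho p.1 = x), (R - t z - bm kp mn z p)
      ≤ ∑ u ∈ U.filter (fun u => ho u = x), (kp z u * (R - t z) - ms z u) := by
    rw [sum_ends hxz fun p => R - t z - bm kp mn z p]
    refine sum_le_sum fun u hu => ?_
    have hU := (mem_filter.1 hu).1
    have k0 := H.k0 u hU z hz
    have k2 := L.k2 u hU z hz
    have a1 := L.msn u hU z hz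
    rw [sum_range_succ, sum_range_one]
    have hk : kp z u = 0 ∨ kp z u = 1 ∨ kp z u = 2 := by omega
    rcases hk with h5 | h5 | h5
    · have a2 := H.msr u hU z hz
      have a3 := H.mrk u hU z hz
      rw [h5, zero_mul] at a3
      simp [h5]
      linarith
    · simp [h5, bm]
      linarith
    · simp [h5, bm]
      linarith
  refine le_trans ?_ h1
  have h2 : Disjoint (ldP U ho kp pc x z) (ldK U ho kp mn pc m x z) := by
    rw [disjoint_left]
    intro p hp hp'
    have h3 := (mem_filter.1 hp).2.2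
    have h4 := (mem_filter.1 hp').2.2.1
    rw [h3] at h4
    norm_num at h4
  have h3 : ldP U ho kp pc x z ∪ ldK U ho kp mn pc m x z
      ⊆ (ens U ho kp z).filter fun p => ho p.1 = x := by
    intro p hp
    rcases mem_union.1 hp with h4 | h4
    · exact mem_filter.2 ⟨(mem_filter.1 h4).1, (mem_filter.1 h4).2.1⟩
    · exact mem_filter.2 ⟨(mem_filter.1 h4).1, (mem_filter.1 h4).2.1⟩
  refine le_trans ?_ (sum_le_sum_of_subset_of_nonneg h3 fun p hp _ => ?_)
  · rw [sum_union h2]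
    refine add_le_add ?_ ?_
    · rw [← nsmul_eq_mul]
      refine card_nsmul_le_sum _ _ _ fun p hp => ?_
      obtain ⟨h4, h5, h6⟩ := mem_filter.1 hp
      rw [L.bm_pc hz h4 h6]
      linarith
    · rw [← nsmul_eq_mul]
      refine card_nsmul_le_sum _ _ _ fun p hp => ?_
      have h4 := (mem_filter.1 hp).2.2.2
      refine max_le ?_ (by linarith)
      have hU := (mem_ens.1 (mem_filter.1 hp).1).1
      have h5 := L.mnc p.1 hU z hz
      unfold bm
      split_ifs
      · linarith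
      · linarith
  · have hU := (mem_ens.1 (mem_filter.1 hp).1).1
    have h4 := L.mnc p.1 hU z hz
    unfold bm
    split_ifs
    · linarith
    · linarith

/-- all ends of PC pairs at the row `z` -/
noncomputable def ldPZ (U : Finset ι) (ho : ι → ℕ) (kp : ℕ → ι → ℤ) (pc : ι → ℤ) (z : ℕ) :
    Finset (ι × ℕ) := (ens U ho kp z).filter fun p => pc p.1 = 1

/-- all other ends at the row `z` with few misses -/
noncomputable def ldKZ (U : Finset ι) (ho : ι → ℕ) (kp mn : ℕ → ι → ℤ) (pc : ι → ℤ) (m : ℕ → ℤ)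
    (z : ℕ) : Finset (ι × ℕ) :=
  (ens U ho kp z).filter fun p => pc p.1 = 0 ∧ bm kp mn z p ≤ m z

lemma ItC.card_ldPZ (H : ItC R n t s h e E U ho vl kp ms mr mu Nb Nx be ls pc ar aT NN FF pw nu)
    (z : ℕ) : (ldPZ U ho kp pc z).card
      = ∑ x ∈ (range n).erase z, (ldP U ho kp pc x z).card := by
  rw [card_eq_sum_card_fiberwise (f := fun p => ho p.1) (t := (range n).erase z)]
  · refine sum_congr rfl fun x _ => ?_
    congr 1
    ext p
    simp only [ldP, ldPZ, mem_filter]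
    tauto
  · intro p hp
    have h1 := mem_ens.1 (mem_filter.1 (mem_coe.1 hp)).1
    exact mem_coe.2 (mem_erase.2 ⟨h1.2.1, mem_range.2 (H.hlt p.1 h1.1)⟩)

lemma ItC.card_ldKZ (H : ItC R n t s h e E U ho vl kp ms mr mu Nb Nx be ls pc ar aT NN FF pw nu)
    (m : ℕ → ℤ) (z : ℕ) : (ldKZ U ho kp mn pc m z).card
      = ∑ x ∈ (range n).erase z, (ldK U ho kp mn pc m x z).card := by
  rw [card_eq_sum_card_fiberwise (f := fun p => ho p.1) (t := (range n).erase z)]
  · refine sum_congr rfl fun x _ => ?_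
    congr 1
    ext p
    simp only [ldK, ldKZ, mem_filter]
    tauto
  · intro p hp
    have h1 := mem_ens.1 (mem_filter.1 (mem_coe.1 hp)).1
    exact mem_coe.2 (mem_erase.2 ⟨h1.2.1, mem_range.2 (H.hlt p.1 h1.1)⟩)

/-- **the loads of the items of version [C]** -/
theorem ItC.ldc (H : ItC R n t s h e E U ho vl kp ms mr mu Nb Nx be ls pc ar aT NN FF pw nu)
    (L : LvI R n t s h e U ho vl kp ms mr mn mu be pc ar) (hR : 10 ≤ R)
    (ht : ∀ i < n, ∀ j < n, i ≠ j → t i * t j ≤ R)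
    (hj : ∀ i < n, ∀ j < n, i ≠ j → ∀ k : ℕ, 1 ≤ k → (k : ℤ) ≤ be i j + be j i →
      ((k : ℤ) - 1) * R ≤ t i * t j + (k : ℤ) ^ 2)
    {m : ℕ → ℤ} (hm0 : ∀ i < n, 0 ≤ m i)
    (hm : ∀ i < n, ∀ j < n, i ≠ j → R + t i * t j < (m i + 1) * (m j + 1)) :
    LdC R n t s h e mu m (fun x z => (ldP U ho kp pc x z).card)
      (fun x z => (ldK U ho kp mn pc m x z).card) NN FF := by
  have hP : ∀ x < n, ∀ z < n, x ≠ z → ((ldP U ho kp pc x z).card : ℤ) = be x z :=
    fun x hx z hz hxz => H.card_ldP L hx hz hxz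
  have h2 : ∀ i < n, ∀ j < n, i ≠ j → be i j + be j i ≤ 2 := by
    intro i hi j hjn hij
    by_contra h3
    push Not at h3
    have h4 := hj i hi j hjn hij 3 (by norm_num) (by push_cast; linarith)
    have h5 := ht i hi j hjn hij
    push_cast at h4
    linarith
  have hmu0 : ∀ i < n, 0 ≤ mu i := fun i hi => H.mu0 hi
  refine ⟨H.t0, H.tR, H.h0, H.hh, hmu0, H.muh, ?_, ?_, ?_, ?_, ?_, ?_, ?_, ?_, ?_⟩
  · intro i hi
    have h3 := H.en i hi
    rw [H.nbC i hi, sum_eq_zero (s := (range n).erase i) (f := fun j => Nx i j) fun j hj' =>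
      H.nxC i hi j (mem_range.1 (mem_of_mem_erase hj'))] at h3
    linarith
  · intro i hi
    refine le_trans (le_of_eq ?_) (H.bem i hi)
    exact sum_congr rfl fun j hj' => hP i hi j (mem_range.1 (mem_of_mem_erase hj'))
      (ne_of_mem_erase hj').symm
  · intro x hx
    rw [H.hmu x hx]
    have h3 : ∀ u ∈ U.filter (fun u => ho u = x), vl u
        ≤ ∑ i ∈ range n, (kp i u - if m i < mn i u then 1 else 0) := fun u hu =>
      L.pot1 H.m0 H.mrk hm0 (mem_filter.1 hu).1 fun i hi j hj' hij _ _ => hm i hi j hj' hij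
    refine (sum_le_sum h3).trans ?_
    rw [sum_comm, ← add_sum_erase _ _ (mem_range.2 hx)]
    have h4 : ∑ u ∈ U.filter (fun u => ho u = x), (kp x u - if m x < mn x u then 1 else 0) ≤ 0 := by
      refine sum_nonpos fun u hu => ?_
      obtain ⟨hU, hux⟩ := mem_filter.1 hu
      have h5 := H.kh u hU
      rw [hux] at h5
      rw [h5]
      split_ifs <;> norm_num
    have h5 : ∑ i ∈ (range n).erase x, ∑ u ∈ U.filter (fun u => ho u = x),
        (kp i u - if m i < mn i u then 1 else 0)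
        ≤ ∑ j ∈ (range n).erase x, (((ldP U ho kp pc x j).card : ℤ)
          + (ldK U ho kp mn pc m x j).card) := by
      refine sum_le_sum fun i hi => ?_
      have hin := mem_range.1 (mem_of_mem_erase hi)
      exact H.sup_item L hin (hm0 i hin) (ne_of_mem_erase hi).symm
    linarith
  · intro z hz a b ha hb h0
    obtain ⟨K1, hK1, c1⟩ := exists_subset_card_eq (s := ldPZ U ho kp pc z) (n := a)
      (by rw [H.card_ldPZ z]; exact ha)
    obtain ⟨K2, hK2, c2⟩ := exists_subset_card_eq (s := ldKZ U ho kp mn pc m z) (n := b)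
      (by rw [H.card_ldKZ m z]; exact hb)
    have hd : Disjoint K1 K2 := by
      rw [disjoint_left]
      intro p hp hp'
      have h3 := (mem_filter.1 (hK1 hp)).2
      have h4 := (mem_filter.1 (hK2 hp')).2.1
      rw [h3] at h4
      norm_num at h4
    have hcard : ((K1 ∪ K2).card : ℤ) = (a : ℤ) + b := by
      rw [card_union_of_disjoint hd, c1, c2]
      push_cast
      rfl
    have h3 := L.tE4 H.m0 hz (K := K1 ∪ K2) (union_subset (hK1.trans (filter_subset _ _))
      (hK2.trans (filter_subset _ _))) (by rw [hcard]; exact h0)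
    rw [sum_union hd, hcard] at h3
    have h4 : (a : ℤ) * (R - t z) ≤ ∑ x ∈ K1, (R - t z - bm kp mn z x) := by
      rw [← c1, ← nsmul_eq_mul]
      refine card_nsmul_le_sum _ _ _ fun p hp => ?_
      obtain ⟨h4, h5⟩ := mem_filter.1 (hK1 hp)
      rw [L.bm_pc hz h4 h5]
      linarith
    have h5 : (b : ℤ) * max 0 (R - t z - m z) ≤ ∑ x ∈ K2, (R - t z - bm kp mn z x) := by
      rw [← c2, ← nsmul_eq_mul]
      refine card_nsmul_le_sum _ _ _ fun p hp => ?_
      have h4 := (mem_filter.1 (hK2 hp)).2.2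
      refine max_le ?_ (by linarith)
      have hU := (mem_ens.1 (mem_filter.1 (hK2 hp)).1).1
      have h5 := L.mnc p.1 hU z hz
      have h6 := H.tR z hz
      unfold bm
      split_ifs
      · linarith
      · linarith
    linarith
  · intro x hx z hz hxz
    have h3 := H.low x hx z hz hxz
    have h4 := H.pairF x hx z hz hxz
    have h5 := H.hits_ld L (m := m) hz hxz
    have h6 := H.hits_ld L (m := m) hx hxz.symm
    have h7 := le_max_left (0 : ℤ) ((R - t x) * (∑ u ∈ U.filter (fun u => ho u = z), kp x u - 1 - s z)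
        - ls x (∑ u ∈ U.filter (fun u => ho u = z), kp x u - 1 - s z)
        - ∑ u ∈ U.filter (fun u => ho u = z), ms x u)
    have h8 := le_max_left (0 : ℤ) ((R - t z) * (∑ u ∈ U.filter (fun u => ho u = x), kp z u - 1 - s x)
        - ls z (∑ u ∈ U.filter (fun u => ho u = x), kp z u - 1 - s x)
        - ∑ u ∈ U.filter (fun u => ho u = x), ms z u)
    linarith
  · intro x hx z hz hxz
    have h3 := h2 x hx z hz hxz
    rw [← hP x hx z hz hxz, ← hP z hz x hx hxz.symm] at h3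
    exact_mod_cast h3
  · intro x hx z hz hxz h3
    have h4 : be x z + be z x = 2 := by
      rw [← hP x hx z hz hxz, ← hP z hz x hx hxz.symm]
      exact_mod_cast h3
    have h5 := hj x hx z hz hxz 2 (by norm_num) (by rw [h4]; norm_num)
    push_cast at h5
    linarith
  · intro x hx z hz hxz a ha h3
    have h4 := (H.cellV hR hx hz hxz (ht x hx z hz hxz) (h2 x hx z hz hxz)).1 a ha h3
    rw [← hP x hx z hz hxz] at h4
    exact h4
  · intro x hx z hz hxz
    have h4 := (H.cellV hR hx hz hxz (ht x hx z hz hxz) (h2 x hx z hz hxz)).2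
    rw [← hP x hx z hz hxz, ← hP z hz x hx hxz.symm] at h4
    by_cases h5 : (ldP U ho kp pc x z).card + (ldP U ho kp pc z x).card = 2
    · rw [if_pos h5]
      rw [if_pos (by exact_mod_cast h5)] at h4
      exact h4
    · rw [if_neg h5]
      rw [if_neg (by exact_mod_cast h5)] at h4
      exact h4

end FromItC

end Pool.Agent.Lib.MP_f04ccf_co
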