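import Pool.Agent.Lib.MP_f04ccf_co.M.LdC

/-!
MP_f04ccf_co, PLAN W, block certificate: **the loads, general form**.  Thresholds `m x z` which depend
on the host `x`; `P x z` the PC pairs of the host `x` with tail `z`, `A x z` its other items with one
good end at `z` (one end with at most `m x z` misses, or a doubled tail with more misses), `D x z` its
doubled tails at `z` with at most `m x z` misses.
`LdG`: supply, number of parts, row test with any numbers of the items used (Turan term free), pair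
test, the values of the cells; `ItC.ldg`: the items of version [C] with levels give such loads, for
every `R` and `n`.  `LdG.nn`, `LdG.net`: the values of a cell.
-/

set_option autoImplicit false

namespace Pool.Agent.Lib.MP_f04ccf_co

open Finset

attribute [local instance] Classical.propDecidable

/-- **the loads, general form** -/
structure LdG (R : ℤ) (n : ℕ) (t s h e mu : ℕ → ℤ) (m : ℕ → ℕ → ℤ) (P A D : ℕ → ℕ → ℕ)
    (N W : ℕ → ℕ → ℤ) : Prop where
  t0 : ∀ i < n, 0 ≤ t i
  tR : ∀ i < n, t i + 1 ≤ R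
  h0 : ∀ i < n, 0 ≤ h i
  hh : ∀ i < n, h i = t i + s i + 1
  mu0 : ∀ i < n, 0 ≤ mu i
  muh : ∀ i < n, mu i ≤ h i
  en : ∀ i < n, 2 * e i + mu i * (mu i + 1)
    ≤ 2 * (mu i * h i) + ∑ j ∈ (range n).erase i, N i j
  pm : ∀ i < n, ∑ j ∈ (range n).erase i, (P i j : ℤ) ≤ mu i
  prt : ∀ x < n, ∀ z < n, x ≠ z → (A x z : ℤ) + D x z ≤ h x - mu x
  prv : ∀ x < n, mu x - ∑ j ∈ (range n).erase x, (P x j : ℤ) ≤ (h x - mu x) * (n - 1)
  sup : ∀ x < n, mu x ≤ ∑ z ∈ (range n).erase x, ((P x z : ℤ) + A x z + 2 * D x z)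
  row : ∀ z < n, ∀ p a d d' : ℕ → ℕ,
    (∀ x < n, x ≠ z → p x ≤ P x z ∧ a x ≤ A x z ∧ d x + d' x ≤ D x z) → ∀ q : ℤ,
    2 * R * s z + 2 * ∑ x ∈ (range n).erase z, (((p x : ℤ) + d' x) * (R - t z)
        + a x * max 0 (R - t z - m x z) + d x * (R - t z + max 0 (R - t z - m x z)))
      ≤ 2 * e z
        + 2 * (∑ x ∈ (range n).erase z, (2 * ((p x : ℤ) + a x + d' x) + 3 * d x)) * (s z + 1)
        + (∑ x ∈ (range n).erase z, (2 * ((p x : ℤ) + a x + d' x) + 3 * d x))
          * (∑ x ∈ (range n).erase z, (2 * ((p x : ℤ) + a x + d' x) + 3 * d x) - 1)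
        - 2 * q * (∑ x ∈ (range n).erase z, (2 * ((p x : ℤ) + a x + d' x) + 3 * d x))
        + n * (q * (q + 1))
  pair : ∀ x < n, ∀ z < n, x ≠ z →
    2 * (R - 1) * (s x + s z) + 2 * ((P x z * (R - t z) + A x z * max 0 (R - t z - m x z)
        + D x z * (R - t z + max 0 (R - t z - m x z)))
      + (P z x * (R - t x) + A z x * max 0 (R - t x - m z x)
        + D z x * (R - t x + max 0 (R - t x - m z x)))) + 2 * W x z
      ≤ 2 * e x + 2 * e z + 2 * (R + 1) + 2 * s x * s z
  W0 : ∀ x < n, ∀ z < n, 0 ≤ W x z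
  Ws : ∀ x < n, ∀ z < n, W x z = W z x
  N0 : ∀ x < n, ∀ z < n, 0 ≤ N x z
  jn : ∀ x < n, ∀ z < n, x ≠ z → ∀ k : ℕ, k ≤ P x z + P z x →
    ((k : ℤ) - 1) * R ≤ t x * t z + (k : ℤ) ^ 2
  cel : ∀ x < n, ∀ z < n, x ≠ z → 2 * (((P x z : ℤ) + P z x - 1) * R) + 2 * W x z
    ≤ 2 * (t x * t z) + ((P x z : ℤ) + P z x) * ((P x z : ℤ) + P z x - 1) + N x z + N z x
  exc : ∀ x < n, ∀ z < n, x ≠ z → ∃ M : ℤ, 0 ≤ M ∧ (P x z = 0 → M = 0) ∧
    N x z ≤ P x z * (P x z + 1) + 2 * (P x z * M) ∧ (P x z ≠ 0 → M ^ 2 ≤ t x * t z + 1 ∧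
      M * (M + 1 - P z x) ≤ W x z ∧ ((P x z : ℤ) - 1) * R + (max 0 (M + 1 - P x z)) ^ 2
        ≤ t x * t z + (P x z : ℤ) ^ 2)
  mup : ∀ i < n, 0 ≤ s i → 1 ≤ mu i
  cap : ∀ x < n, ∀ z < n, x ≠ z →
    ∑ j ∈ (range n).erase x, (P x j : ℤ) + A x z + 2 * D x z ≤ mu x

namespace LdG

variable {R : ℤ} {n : ℕ} {t s h e mu : ℕ → ℤ} {m : ℕ → ℕ → ℤ} {P A D : ℕ → ℕ → ℕ}
  {N W : ℕ → ℕ → ℤ}

/-- the excess of a cell from one host -/
theorem nn (C : LdG R n t s h e mu m P A D N W) {x z : ℕ} (hx : x < n) (hz : z < n) (hxz : x ≠ z)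
    {a : ℤ} (ha : 0 ≤ a)
    (h1 : t x * t z + (P x z : ℤ) ^ 2 - ((P x z : ℤ) - 1) * R < (a + 1) ^ 2) :
    N x z ≤ 3 * (P x z : ℤ) ^ 2 - P x z + 2 * (P x z * a) := by
  obtain ⟨M, hM, h2, h3, h4⟩ := C.exc x hx z hz hxz
  rcases Nat.eq_zero_or_pos (P x z) with h5 | h5
  · rw [h5] at h3 ⊢
    push_cast at h3 ⊢
    linarith
  · obtain ⟨-, -, h6⟩ := h4 (by omega)
    have hp : (1 : ℤ) ≤ P x z := by exact_mod_cast h5
    have h7 : M + 1 - P x z ≤ a := by
      by_contra h8
      push Not at h8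
      have h9 : a + 1 ≤ max 0 (M + 1 - (P x z : ℤ)) := le_max_of_le_right (by linarith)
      nlinarith
    nlinarith

/-- the net excess of a cell: `v` bounds `p M + q Q - max (M (M + 1 - q)) (Q (Q + 1 - p))` -/
theorem net (C : LdG R n t s h e mu m P A D N W) {x z : ℕ} (hx : x < n) (hz : z < n)
    (hxz : x ≠ z) {v : ℤ} (hv : ∀ M Q w : ℤ, 0 ≤ M → 0 ≤ Q → (P x z = 0 → M = 0) →
      (P z x = 0 → Q = 0) → 0 ≤ w → (P x z ≠ 0 → M * (M + 1 - P z x) ≤ w) →
      (P z x ≠ 0 → Q * (Q + 1 - P x z) ≤ w) → P x z * M + P z x * Q ≤ v + w) :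
    N x z + N z x ≤ 2 * W x z + P x z * (P x z + 1) + P z x * (P z x + 1) + 2 * v := by
  obtain ⟨M, hM, h2, h3, h4⟩ := C.exc x hx z hz hxz
  obtain ⟨Q, hQ, g2, g3, g4⟩ := C.exc z hz x hx hxz.symm
  have hw := C.Ws x hx z hz
  have h5 := hv M Q (W x z) hM hQ h2 g2 (C.W0 x hx z hz) (fun h6 => (h4 h6).2.1)
    (fun h6 => by rw [hw]; exact (g4 h6).2.1)
  linarith

end LdG

section Items

open Lv

variable {ι : Type*} {R : ℤ} {n : ℕ} {t s h e : ℕ → ℤ} {E : ℕ → ℕ → ℤ} {U : Finset ι}
  {ho : ι → ℕ} {vl : ι → ℤ} {kp ms mr mn : ℕ → ι → ℤ} {mu Nb : ℕ → ℤ} {Nx : ℕ → ℕ → ℤ}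
  {be : ℕ → ℕ → ℤ} {ls : ℕ → ℤ → ℤ} {pc ar : ι → ℤ} {aT : ℕ → ℤ} {NN FF pw : ℕ → ℕ → ℤ}
  {nu : ℕ → ι → ℤ}

/-- the PC pairs of the host `x` with tail `z` -/
noncomputable def lgP (U : Finset ι) (ho : ι → ℕ) (kp : ℕ → ι → ℤ) (pc : ι → ℤ) (x z : ℕ) :
    Finset ι := U.filter fun u => ho u = x ∧ pc u = 1 ∧ kp z u ≠ 0

/-- the other items of the host `x` with one good end at `z` -/
noncomputable def lgA (U : Finset ι) (ho : ι → ℕ) (kp mn : ℕ → ι → ℤ) (pc : ι → ℤ)
    (m : ℕ → ℕ → ℤ) (x z : ℕ) : Finset ι :=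
  U.filter fun u => ho u = x ∧ pc u = 0 ∧
    ((kp z u = 1 ∧ mn z u ≤ m x z) ∨ (kp z u = 2 ∧ m x z < mn z u))

/-- the doubled tails at `z` of the host `x` with few misses -/
noncomputable def lgD (U : Finset ι) (ho : ι → ℕ) (kp mn : ℕ → ι → ℤ) (pc : ι → ℤ)
    (m : ℕ → ℕ → ℤ) (x z : ℕ) : Finset ι :=
  U.filter fun u => ho u = x ∧ pc u = 0 ∧ kp z u = 2 ∧ mn z u ≤ m x z

namespace ItC

/-- the PC pairs of a cell with the longest free part, with the joint product -/
lemma exM2 (H : ItC R n t s h e E U ho vl kp ms mr mu Nb Nx be ls pc ar aT NN FF pw nu)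
    {i j : ℕ} (hi : i < n) (hj : j < n) :
    ∃ M : ℤ, 0 ≤ M ∧ (be i j = 0 → M = 0) ∧
      ∑ u ∈ U.filter (fun u => ho u = i), nu j u ≤ be i j * M ∧
      (be i j ≠ 0 → M ^ 2 ≤ t i * t j + 1 ∧ M * (M + 1 - be j i) ≤ FF i j ∧
        (be i j - 1) * R + (max 0 (M + 1 - be i j)) ^ 2 ≤ t i * t j + be i j ^ 2) := by
  set F := U.filter fun u => ho u = i ∧ pc u = 1 ∧ kp j u ≠ 0 with hF
  have hFm : ∀ u ∈ F, u ∈ U ∧ ho u = i ∧ pc u = 1 ∧ kp j u ≠ 0 := fun u hu => by
    have := mem_filter.1 hu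
    exact ⟨this.1, this.2.1, this.2.2.1, this.2.2.2⟩
  have hsub : F ⊆ U.filter fun u => ho u = i := fun u hu =>
    mem_filter.2 ⟨(hFm u hu).1, (hFm u hu).2.1⟩
  have h1 : ∑ u ∈ U.filter (fun u => ho u = i), nu j u = ∑ u ∈ F, nu j u := by
    refine (sum_subset hsub fun u hu hu' => ?_).symm
    obtain ⟨h2, h3⟩ := mem_filter.1 hu
    rcases H.pcf u h2 with h4 | h4
    · exact H.nup u h2 h4 j hj
    · by_cases h5 : kp j u = 0
      · exact H.nuz u h2 j hj h5
      · exact absurd (mem_filter.2 ⟨h2, h3, h4, h5⟩) hu'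
  have h2 : be i j = F.card := by
    rw [← H.pcb i hi j hj]
    have h3 : ∑ u ∈ U.filter (fun u => ho u = i), pc u * kp j u = ∑ u ∈ F, pc u * kp j u := by
      refine (sum_subset hsub fun u hu hu' => ?_).symm
      obtain ⟨h2, h3⟩ := mem_filter.1 hu
      rcases H.pcf u h2 with h4 | h4
      · rw [h4, zero_mul]
      · by_cases h5 : kp j u = 0
        · rw [h5, mul_zero]
        · exact absurd (mem_filter.2 ⟨h2, h3, h4, h5⟩) hu'
    rw [h3]
    have h4 : ∀ u ∈ F, pc u * kp j u = 1 := fun u hu => by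
      obtain ⟨a1, a2, a3, a4⟩ := hFm u hu
      have b1 := H.kv u a1 j hj
      have b2 := H.k0 u a1 j hj
      have b3 := H.pcv u a1 (by rw [a3]; norm_num)
      have b4 : kp j u = 1 := by
        rw [b3] at b1
        omega
      rw [a3, b4]
      norm_num
    rw [sum_congr rfl h4, sum_const, nsmul_eq_mul, mul_one]
  rcases F.eq_empty_or_nonempty with h3 | h3
  · refine ⟨0, le_rfl, fun _ => rfl, ?_, fun h4 => ?_⟩
    · rw [h1, h3, sum_empty, mul_zero]
    · rw [h2, h3] at h4
      simp at h4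
  · obtain ⟨u, hu, hmax⟩ := exists_max_image F (fun u => nu j u) h3
    obtain ⟨a1, a2, a3, a4⟩ := hFm u hu
    refine ⟨nu j u, H.nu0 u a1 j hj, fun h4 => ?_, ?_, fun _ => ⟨?_, ?_, ?_⟩⟩
    · exfalso
      rw [h2] at h4
      have h5 := card_pos.2 h3
      have h6 : F.card = 0 := by exact_mod_cast h4
      omega
    · rw [h1, h2]
      have h5 := sum_le_card_nsmul F (fun u => nu j u) (nu j u) fun v hv => hmax v hv
      rwa [nsmul_eq_mul] at h5
    · have h5 := H.nuq u a1 (H.pcv u a1 (by rw [a3]; norm_num)) j hj a4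
      rw [a2, a3] at h5
      nlinarith
    · have h5 := H.FFg u a1 a3 j hj a4
      rw [a2] at h5
      exact h5
    · have h5 := H.jntp u a1 a3 j hj a4
      rw [a2] at h5
      exact h5

end ItC

/-- the number of the PC pairs -/
lemma ItC.card_lgP (H : ItC R n t s h e E U ho vl kp ms mr mu Nb Nx be ls pc ar aT NN FF pw nu)
    {x z : ℕ} (hx : x < n) (hz : z < n) : ((lgP U ho kp pc x z).card : ℤ) = be x z := by
  rw [← H.pcb x hx z hz]
  have h3 : ∑ u ∈ U.filter (fun u => ho u = x), pc u * kp z u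
      = ∑ u ∈ lgP U ho kp pc x z, pc u * kp z u := by
    refine (sum_subset (fun u hu => ?_) fun u hu hu' => ?_).symm
    · have := mem_filter.1 hu
      exact mem_filter.2 ⟨this.1, this.2.1⟩
    · obtain ⟨h2, h3⟩ := mem_filter.1 hu
      rcases H.pcf u h2 with h4 | h4
      · rw [h4, zero_mul]
      · by_cases h5 : kp z u = 0
        · rw [h5, mul_zero]
        · exact absurd (mem_filter.2 ⟨h2, h3, h4, h5⟩) hu'
  rw [h3]
  have h4 : ∀ u ∈ lgP U ho kp pc x z, pc u * kp z u = 1 := fun u hu => by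
    obtain ⟨a1, a2, a3, a4⟩ := mem_filter.1 hu
    have b1 := H.kv u a1 z hz
    have b2 := H.k0 u a1 z hz
    have b3 := H.pcv u a1 (by rw [a3]; norm_num)
    have b4 : kp z u = 1 := by
      rw [b3] at b1
      omega
    rw [a3, b4]
    norm_num
  rw [sum_congr rfl h4, sum_const, nsmul_eq_mul, mul_one]

/-- a PC pair: one end, no misses -/
lemma ItC.lgP_mem (H : ItC R n t s h e E U ho vl kp ms mr mu Nb Nx be ls pc ar aT NN FF pw nu)
    (L : LvI R n t s h e U ho vl kp ms mr mn mu be pc ar) {x z : ℕ} (hz : z < n) {u : ι}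
    (hu : u ∈ lgP U ho kp pc x z) : u ∈ U ∧ ho u = x ∧ kp z u = 1 ∧ mn z u = 0 := by
  obtain ⟨a1, a2, a3, a4⟩ := mem_filter.1 hu
  have b1 := H.kv u a1 z hz
  have b2 := H.k0 u a1 z hz
  have b3 := H.pcv u a1 (by rw [a3]; norm_num)
  have b4 : kp z u = 1 := by
    rw [b3] at b1
    omega
  refine ⟨a1, a2, b4, ?_⟩
  rcases L.one u a1 with ⟨i, hi, c1, c2, c3, c4⟩ | ⟨c1, -⟩
  · have h2 : z = i := by
      by_contra h3
      exact a4 (c4 z hz h3)
    rw [h2]
    exact c3
  · rw [a3] at c1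
    norm_num at c1

/-- one item in one row -/
lemma ItC.lg_item (H : ItC R n t s h e E U ho vl kp ms mr mu Nb Nx be ls pc ar aT NN FF pw nu)
    (L : LvI R n t s h e U ho vl kp ms mr mn mu be pc ar) {m : ℕ → ℕ → ℤ} {x z : ℕ}
    (hz : z < n) (hm : 0 ≤ m x z) {u : ι} (hu : u ∈ U) (hux : ho u = x) :
    kp z u - (if m x z < mn z u then 1 else 0)
      ≤ (if u ∈ lgP U ho kp pc x z then 1 else 0) + (if u ∈ lgA U ho kp mn pc m x z then 1 else 0)
        + 2 * (if u ∈ lgD U ho kp mn pc m x z then 1 else 0) ∧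
    (if u ∈ lgP U ho kp pc x z then 1 else 0) * (R - t z)
      + (if u ∈ lgA U ho kp mn pc m x z then 1 else 0) * max 0 (R - t z - m x z)
      + (if u ∈ lgD U ho kp mn pc m x z then 1 else 0) * (R - t z + max 0 (R - t z - m x z))
      ≤ kp z u * (R - t z) - ms z u := by
  have k0 := H.k0 u hu z hz
  have k2 := L.k2 u hu z hz
  have a1 := L.msn u hu z hz
  have a2 := H.msr u hu z hz
  have a3 := H.mrk u hu z hz
  have a4 := L.mnc u hu z hz
  have hk : kp z u = 0 ∨ kp z u = 1 ∨ kp z u = 2 := by omega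
  have hmax : max 0 (R - t z - m x z) ≤ R - t z := max_le (by linarith [H.tR z hz]) (by linarith)
  rcases H.pcf u hu with h3 | h3
  · have hP : u ∉ lgP U ho kp pc x z := fun h4 => by
      have := (mem_filter.1 h4).2.2.1
      rw [h3] at this
      norm_num at this
    rw [if_neg hP]
    rcases hk with h5 | h5 | h5
    · have hA : u ∉ lgA U ho kp mn pc m x z := fun h4 => by
        have := (mem_filter.1 h4).2.2.2
        rw [h5] at this
        norm_num at this
      have hD : u ∉ lgD U ho kp mn pc m x z := fun h4 => by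
        have := (mem_filter.1 h4).2.2.2.1
        rw [h5] at this
        norm_num at this
      rw [if_neg hA, if_neg hD, h5]
      rw [h5, zero_mul] at a3
      refine ⟨?_, by linarith⟩
      split_ifs <;> norm_num
    · have hD : u ∉ lgD U ho kp mn pc m x z := fun h4 => by
        have := (mem_filter.1 h4).2.2.2.1
        rw [h5] at this
        norm_num at this
      rw [if_neg hD, h5]
      by_cases h6 : m x z < mn z u
      · have hA : u ∉ lgA U ho kp mn pc m x z := fun h4 => by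
          rcases (mem_filter.1 h4).2.2.2 with h7 | h7
          · linarith [h7.2]
          · rw [h5] at h7
            norm_num at h7
        rw [if_neg hA, if_pos h6]
        refine ⟨by norm_num, by linarith⟩
      · have hA : u ∈ lgA U ho kp mn pc m x z :=
          mem_filter.2 ⟨hu, hux, h3, Or.inl ⟨h5, not_lt.1 h6⟩⟩
        rw [if_pos hA, if_neg h6]
        refine ⟨by norm_num, ?_⟩
        have h7 : max 0 (R - t z - m x z) ≤ R - t z - ms z u :=
          max_le (by linarith) (by linarith [not_lt.1 h6])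
        linarith
    · rw [h5]
      by_cases h6 : m x z < mn z u
      · have hA : u ∈ lgA U ho kp mn pc m x z :=
          mem_filter.2 ⟨hu, hux, h3, Or.inr ⟨h5, h6⟩⟩
        have hD : u ∉ lgD U ho kp mn pc m x z := fun h4 => by
          have := (mem_filter.1 h4).2.2.2.2
          linarith
        rw [if_pos hA, if_neg hD, if_pos h6]
        refine ⟨by norm_num, by linarith⟩
      · have hA : u ∉ lgA U ho kp mn pc m x z := fun h4 => by
          rcases (mem_filter.1 h4).2.2.2 with h7 | h7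
          · rw [h5] at h7
            norm_num at h7
          · exact h6 h7.2
        have hD : u ∈ lgD U ho kp mn pc m x z := mem_filter.2 ⟨hu, hux, h3, h5, not_lt.1 h6⟩
        rw [if_neg hA, if_pos hD, if_neg h6]
        refine ⟨by norm_num, ?_⟩
        have h7 : max 0 (R - t z - m x z) ≤ R - t z - ms z u :=
          max_le (by linarith) (by linarith [not_lt.1 h6])
        linarith
  · have hA : u ∉ lgA U ho kp mn pc m x z := fun h4 => by
      have := (mem_filter.1 h4).2.2.1
      rw [h3] at this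
      norm_num at this
    have hD : u ∉ lgD U ho kp mn pc m x z := fun h4 => by
      have := (mem_filter.1 h4).2.2.1
      rw [h3] at this
      norm_num at this
    rw [if_neg hA, if_neg hD]
    by_cases h5 : kp z u = 0
    · have hP : u ∉ lgP U ho kp pc x z := fun h4 => (mem_filter.1 h4).2.2.2 h5
      rw [if_neg hP, h5]
      rw [h5, zero_mul] at a3
      refine ⟨?_, by linarith⟩
      split_ifs <;> norm_num
    · have hP : u ∈ lgP U ho kp pc x z := mem_filter.2 ⟨hu, hux, h3, h5⟩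
      obtain ⟨-, -, h6, h7⟩ := H.lgP_mem L hz hP
      rw [if_pos hP, h6]
      refine ⟨?_, by linarith⟩
      rw [h7, if_neg (not_lt.2 hm)]
      norm_num

/-- a sum over the items of one host -/
lemma sum_hostG {x : ℕ} {S : Finset ι} (hS : ∀ u ∈ S, u ∈ U ∧ ho u = x) :
    ∑ u ∈ U.filter (fun u => ho u = x), (if u ∈ S then (1 : ℤ) else 0) = S.card := by
  rw [← sum_filter, sum_const, nsmul_eq_mul, mul_one]
  congr 2
  ext u
  rw [mem_filter, mem_filter]
  exact ⟨fun h1 => h1.2, fun h1 => ⟨hS u h1, h1⟩⟩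

/-- one threshold at every row, only where it can be exceeded -/
theorem LvI.pot1c (L : LvI R n t s h e U ho vl kp ms mr mn mu be pc ar)
    (hm0 : ∀ u ∈ U, ∀ i < n, 0 ≤ ms i u)
    (hmk : ∀ u ∈ U, ∀ i < n, mr i u ≤ kp i u * (R - t i))
    {θ : ℕ → ℤ} (h0 : ∀ i < n, 0 ≤ θ i) {u : ι} (hu : u ∈ U)
    (hθ : ∀ i < n, ∀ j < n, i ≠ j → kp i u ≠ 0 → kp j u ≠ 0 → θ i + 1 ≤ R - t i →
      θ j + 1 ≤ R - t j → R + t i * t j < (θ i + 1) * (θ j + 1)) :
    vl u ≤ ∑ i ∈ range n, (kp i u - if θ i < mn i u then 1 else 0) := by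
  have h1 := L.pot hm0 hmk (D := 1) (δ := fun i b => if θ i < b then 1 else 0)
    (fun i hi => if_neg (not_lt.2 (h0 i hi))) hu (fun b hb hbc hbz hbb => by
      by_cases hex : ∃ i < n, θ i < b i
      · obtain ⟨i, hi, hib⟩ := hex
        rw [← add_sum_erase _ _ (mem_range.2 hi), if_pos hib, sum_eq_zero, add_zero]
        intro j hj
        have hjn := mem_range.1 (mem_of_mem_erase hj)
        refine if_neg fun h2 => ?_
        have hij := (ne_of_mem_erase hj).symm
        have h3 := hbb i hi j hjn hij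
        have h4 : kp i u ≠ 0 := fun h5 => by
          have := hbz i hi h5
          have := h0 i hi
          linarith
        have h5 : kp j u ≠ 0 := fun h5 => by
          have := hbz j hjn h5
          have := h0 j hjn
          linarith
        have h7 : θ i + 1 ≤ b i := hib
        have h8 : θ j + 1 ≤ b j := h2
        have h6 := hθ i hi j hjn hij h4 h5 (h7.trans (hbc i hi)) (h8.trans (hbc j hjn))
        have h9 := mul_le_mul h7 h8 (by linarith [h0 j hjn]) (hb i hi)
        linarith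
      · push Not at hex
        rw [sum_eq_zero]
        · norm_num
        · intro i hi
          exact if_neg (not_lt.2 (hex i (mem_range.1 hi))))
  simpa using h1

/-- the row test with any numbers of the items -/
lemma ItC.row_ldg (H : ItC R n t s h e E U ho vl kp ms mr mu Nb Nx be ls pc ar aT NN FF pw nu)
    (L : LvI R n t s h e U ho vl kp ms mr mn mu be pc ar) {m : ℕ → ℕ → ℤ}
    (hm0 : ∀ x < n, ∀ i < n, 0 ≤ m x i) {z : ℕ} (hz : z < n) (p a d d' : ℕ → ℕ)
    (hp : ∀ x < n, x ≠ z → p x ≤ (lgP U ho kp pc x z).card ∧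
      a x ≤ (lgA U ho kp mn pc m x z).card ∧ d x + d' x ≤ (lgD U ho kp mn pc m x z).card)
    (q : ℤ) :
    2 * R * s z + 2 * ∑ x ∈ (range n).erase z, (((p x : ℤ) + d' x) * (R - t z)
        + a x * max 0 (R - t z - m x z) + d x * (R - t z + max 0 (R - t z - m x z)))
      ≤ 2 * e z
        + 2 * (∑ x ∈ (range n).erase z, (2 * ((p x : ℤ) + a x + d' x) + 3 * d x)) * (s z + 1)
        + (∑ x ∈ (range n).erase z, (2 * ((p x : ℤ) + a x + d' x) + 3 * d x))
          * (∑ x ∈ (range n).erase z, (2 * ((p x : ℤ) + a x + d' x) + 3 * d x) - 1)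
        - 2 * q * (∑ x ∈ (range n).erase z, (2 * ((p x : ℤ) + a x + d' x) + 3 * d x))
        + n * (q * (q + 1)) := by
  have h1 : ∀ x, ∃ S1 S2 S3 S4 : Finset ι, x < n → x ≠ z →
      S1 ⊆ lgP U ho kp pc x z ∧ S1.card = p x ∧ S2 ⊆ lgA U ho kp mn pc m x z ∧ S2.card = a x ∧
      S3 ⊆ lgD U ho kp mn pc m x z ∧ S3.card = d x ∧ S4 ⊆ lgD U ho kp mn pc m x z ∧
      S4.card = d' x ∧ Disjoint S3 S4 := by
    intro x
    by_cases hx : x < n ∧ x ≠ z
    · obtain ⟨h2, h3, h4⟩ := hp x hx.1 hx.2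
      obtain ⟨S1, a1, a2⟩ := exists_subset_card_eq h2
      obtain ⟨S2, b1, b2⟩ := exists_subset_card_eq h3
      obtain ⟨S5, c1, c2⟩ := exists_subset_card_eq h4
      obtain ⟨S3, d1, d2⟩ := exists_subset_card_eq (s := S5) (n := d x) (by omega)
      refine ⟨S1, S2, S3, S5 \ S3, fun _ _ => ⟨a1, a2, b1, b2, d1.trans c1, d2,
        sdiff_subset.trans c1, ?_, disjoint_sdiff⟩⟩
      rw [card_sdiff_of_subset d1]
      omega
    · exact ⟨∅, ∅, ∅, ∅, fun h2 h3 => absurd ⟨h2, h3⟩ hx⟩
  choose S1 S2 S3 S4 hS using h1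
  set T : ℕ → Finset ι := fun x => (S1 x ∪ S2 x) ∪ (S3 x ∪ S4 x) with hT
  have hTm : ∀ x ∈ (range n).erase z, ∀ u ∈ T x, u ∈ U ∧ ho u = x ∧ 1 ≤ kp z u ∧
      (u ∈ S3 x → kp z u = 2) := by
    intro x hx u hu
    have hxn := mem_range.1 (mem_of_mem_erase hx)
    obtain ⟨a1, a2, b1, b2, c1, c2, d1, d2, hd⟩ := hS x hxn (ne_of_mem_erase hx)
    have key : ∀ v ∈ S3 x, kp z v = 2 := fun v hv => (mem_filter.1 (c1 hv)).2.2.2.1
    rcases mem_union.1 hu with h2 | h2
    · rcases mem_union.1 h2 with h3 | h3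
      · obtain ⟨g1, g2, g3, g4⟩ := H.lgP_mem L hz (a1 h3)
        exact ⟨g1, g2, g3.ge, key u⟩
      · obtain ⟨g1, g2, g3, g4⟩ := mem_filter.1 (b1 h3)
        refine ⟨g1, g2, ?_, key u⟩
        rcases g4 with g4 | g4
        · rw [g4.1]
        · rw [g4.1]
          norm_num
    · rcases mem_union.1 h2 with h3 | h3
      · obtain ⟨g1, g2, g3, g4, g5⟩ := mem_filter.1 (c1 h3)
        exact ⟨g1, g2, by rw [g4]; norm_num, key u⟩
      · obtain ⟨g1, g2, g3, g4, g5⟩ := mem_filter.1 (d1 h3)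
        exact ⟨g1, g2, by rw [g4]; norm_num, key u⟩
  set K := ((range n).erase z).biUnion T with hK
  set g : ι → ℕ := fun u => if u ∈ S3 (ho u) then 2 else 1 with hg
  have hsum : ∀ f : ι → ℤ, ∑ u ∈ K, f u = ∑ x ∈ (range n).erase z,
      (∑ u ∈ S1 x, f u + ∑ u ∈ S2 x, f u + (∑ u ∈ S3 x, f u + ∑ u ∈ S4 x, f u)) := by
    intro f
    rw [hK, sum_biUnion]
    · refine sum_congr rfl fun x hx => ?_
      have hxn := mem_range.1 (mem_of_mem_erase hx)
      obtain ⟨a1, a2, b1, b2, c1, c2, d1, d2, hd⟩ := hS x hxn (ne_of_mem_erase hx)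
      have e1 : Disjoint (S1 x ∪ S2 x) (S3 x ∪ S4 x) := by
        rw [disjoint_left]
        intro u hu hu'
        have g1 : u ∈ lgD U ho kp mn pc m x z := by
          rcases mem_union.1 hu' with h3 | h3
          · exact c1 h3
          · exact d1 h3
        obtain ⟨-, -, g2, g3, g4⟩ := mem_filter.1 g1
        rcases mem_union.1 hu with h3 | h3
        · have h4 := (mem_filter.1 (a1 h3)).2.2.1
          rw [g2] at h4
          norm_num at h4
        · rcases (mem_filter.1 (b1 h3)).2.2.2 with h4 | h4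
          · rw [g3] at h4
            norm_num at h4
          · linarith [h4.2]
      have e2 : Disjoint (S1 x) (S2 x) := by
        rw [disjoint_left]
        intro u hu hu'
        have h3 := (mem_filter.1 (a1 hu)).2.2.1
        have h4 := (mem_filter.1 (b1 hu')).2.2.1
        rw [h3] at h4
        norm_num at h4
      rw [hT, sum_union e1, sum_union e2, sum_union hd]
    · intro x hx y hy hxy
      have hx' : x ∈ (range n).erase z := by exact_mod_cast hx
      have hy' : y ∈ (range n).erase z := by exact_mod_cast hy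
      show Disjoint (T x) (T y)
      rw [disjoint_left]
      intro u hu hu'
      exact hxy ((hTm x hx' u hu).2.1.symm.trans (hTm y hy' u hu').2.1)
  have hg3 : ∀ x ∈ (range n).erase z, ∀ u ∈ S3 x, g u = 2 := fun x hx u hu => by
    have h2 := (hTm x hx u (mem_union_right _ (mem_union_left _ hu))).2.1
    show (if u ∈ S3 (ho u) then 2 else 1) = 2
    rw [h2, if_pos hu]
  have hg1 : ∀ x ∈ (range n).erase z, ∀ u ∈ T x, u ∉ S3 x → g u = 1 := fun x hx u hu hu' => by
    have h2 := (hTm x hx u hu).2.1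
    show (if u ∈ S3 (ho u) then 2 else 1) = 1
    rw [h2, if_neg hu']
  -- members of the other sets are not in `S3`
  have hn : ∀ x ∈ (range n).erase z, (∀ u ∈ S1 x, g u = 1) ∧ (∀ u ∈ S2 x, g u = 1) ∧
      ∀ u ∈ S4 x, g u = 1 := by
    intro x hx
    have hxn := mem_range.1 (mem_of_mem_erase hx)
    obtain ⟨a1, a2, b1, b2, c1, c2, d1, d2, hd⟩ := hS x hxn (ne_of_mem_erase hx)
    refine ⟨fun u hu => hg1 x hx u (mem_union_left _ (mem_union_left _ hu)) fun h3 => ?_,
      fun u hu => hg1 x hx u (mem_union_left _ (mem_union_right _ hu)) fun h3 => ?_,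
      fun u hu => hg1 x hx u (mem_union_right _ (mem_union_right _ hu)) fun h3 =>
        (disjoint_left.1 hd) h3 hu⟩
    · have h4 := (mem_filter.1 (a1 hu)).2.2.1
      rw [(mem_filter.1 (c1 h3)).2.2.1] at h4
      norm_num at h4
    · obtain ⟨-, -, -, g3, g4⟩ := mem_filter.1 (c1 h3)
      rcases (mem_filter.1 (b1 hu)).2.2.2 with h4 | h4
      · rw [g3] at h4
        norm_num at h4
      · linarith [h4.2]
  have hJ : ∑ u ∈ K, ((g u : ℤ) + 1)
      = ∑ x ∈ (range n).erase z, (2 * ((p x : ℤ) + a x + d' x) + 3 * d x) := by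
    rw [hsum]
    refine sum_congr rfl fun x hx => ?_
    have hxn := mem_range.1 (mem_of_mem_erase hx)
    obtain ⟨a1, a2, b1, b2, c1, c2, d1, d2, hd⟩ := hS x hxn (ne_of_mem_erase hx)
    obtain ⟨n1, n2, n3⟩ := hn x hx
    have e1 : ∑ u ∈ S1 x, ((g u : ℤ) + 1) = 2 * p x := by
      rw [sum_congr rfl fun u hu => by rw [n1 u hu], sum_const, nsmul_eq_mul, a2]
      push_cast
      ring
    have e2 : ∑ u ∈ S2 x, ((g u : ℤ) + 1) = 2 * a x := by
      rw [sum_congr rfl fun u hu => by rw [n2 u hu], sum_const, nsmul_eq_mul, b2]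
      push_cast
      ring
    have e3 : ∑ u ∈ S3 x, ((g u : ℤ) + 1) = 3 * d x := by
      rw [sum_congr rfl fun u hu => by rw [hg3 x hx u hu], sum_const, nsmul_eq_mul, c2]
      push_cast
      ring
    have e4 : ∑ u ∈ S4 x, ((g u : ℤ) + 1) = 2 * d' x := by
      rw [sum_congr rfl fun u hu => by rw [n3 u hu], sum_const, nsmul_eq_mul, d2]
      push_cast
      ring
    rw [e1, e2, e3, e4]
    ring
  have hR := H.tR z hz
  have hH : ∑ x ∈ (range n).erase z, (((p x : ℤ) + d' x) * (R - t z)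
        + a x * max 0 (R - t z - m x z) + d x * (R - t z + max 0 (R - t z - m x z)))
      ≤ ∑ u ∈ K, ((R - t z) * g u - if kp z u ≤ (g u : ℤ) then mn z u else 0) := by
    rw [hsum]
    refine sum_le_sum fun x hx => ?_
    have hxn := mem_range.1 (mem_of_mem_erase hx)
    obtain ⟨a1, a2, b1, b2, c1, c2, d1, d2, hd⟩ := hS x hxn (ne_of_mem_erase hx)
    obtain ⟨n1, n2, n3⟩ := hn x hx
    have e1 : (p x : ℤ) * (R - t z)
        ≤ ∑ u ∈ S1 x, ((R - t z) * g u - if kp z u ≤ (g u : ℤ) then mn z u else 0) := by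
      rw [← a2, ← nsmul_eq_mul]
      refine card_nsmul_le_sum _ _ _ fun u hu => ?_
      obtain ⟨-, -, g3, g4⟩ := H.lgP_mem L hz (a1 hu)
      rw [n1 u hu, g4]
      split_ifs <;> simp
    have e2 : (a x : ℤ) * max 0 (R - t z - m x z)
        ≤ ∑ u ∈ S2 x, ((R - t z) * g u - if kp z u ≤ (g u : ℤ) then mn z u else 0) := by
      rw [← b2, ← nsmul_eq_mul]
      refine card_nsmul_le_sum _ _ _ fun u hu => ?_
      obtain ⟨g1, g2, g3, g4⟩ := mem_filter.1 (b1 hu)
      have h5 := L.mnc u g1 z hz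
      have h6 := hm0 x hxn z hz
      rw [n2 u hu]
      rcases g4 with g4 | g4
      · rw [g4.1]
        simp only [Nat.cast_one, le_refl, if_true]
        exact max_le (by linarith) (by linarith [g4.2])
      · rw [g4.1]
        simp only [Nat.cast_one]
        rw [if_neg (by norm_num)]
        exact max_le (by linarith) (by linarith)
    have e3 : (d x : ℤ) * (R - t z + max 0 (R - t z - m x z))
        ≤ ∑ u ∈ S3 x, ((R - t z) * g u - if kp z u ≤ (g u : ℤ) then mn z u else 0) := by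
      rw [← c2, ← nsmul_eq_mul]
      refine card_nsmul_le_sum _ _ _ fun u hu => ?_
      obtain ⟨g1, g2, g3, g4, g5⟩ := mem_filter.1 (c1 hu)
      have h5 := L.mnc u g1 z hz
      rw [hg3 x hx u hu, g4]
      simp only [Nat.cast_ofNat, le_refl, if_true]
      have h6 : max 0 (R - t z - m x z) ≤ R - t z - mn z u :=
        max_le (by linarith) (by linarith)
      linarith
    have e4 : (d' x : ℤ) * (R - t z)
        ≤ ∑ u ∈ S4 x, ((R - t z) * g u - if kp z u ≤ (g u : ℤ) then mn z u else 0) := by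
      rw [← d2, ← nsmul_eq_mul]
      refine card_nsmul_le_sum _ _ _ fun u hu => ?_
      obtain ⟨g1, g2, g3, g4, g5⟩ := mem_filter.1 (d1 hu)
      rw [n3 u hu, g4]
      simp only [Nat.cast_one]
      rw [if_neg (by norm_num)]
      linarith
    linarith
  have hrow := L.rlv z hz K (fun u hu => by
      obtain ⟨x, hx, hux⟩ := mem_biUnion.1 hu
      exact (hTm x hx u hux).1) (fun u hu => by
      obtain ⟨x, hx, hux⟩ := mem_biUnion.1 hu
      rw [(hTm x hx u hux).2.1]
      exact ne_of_mem_erase hx) g (fun u _ => by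
      show 1 ≤ if u ∈ S3 (ho u) then 2 else 1
      split_ifs <;> norm_num) (fun u hu => by
      obtain ⟨x, hx, hux⟩ := mem_biUnion.1 hu
      obtain ⟨h2, h3, h4, h5⟩ := hTm x hx u hux
      show (((if u ∈ S3 (ho u) then 2 else 1 : ℕ)) : ℤ) ≤ kp z u
      rw [h3]
      split_ifs with h6
      · rw [h5 h6]
        norm_num
      · exact h4) q
  rw [hJ] at hrow
  linarith

/-- **the loads of the items of version [C], general form** -/
theorem ItC.ldg (H : ItC R n t s h e E U ho vl kp ms mr mu Nb Nx be ls pc ar aT NN FF pw nu)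
    (L : LvI R n t s h e U ho vl kp ms mr mn mu be pc ar) {m : ℕ → ℕ → ℤ}
    (hm0 : ∀ x < n, ∀ i < n, 0 ≤ m x i)
    (hm : ∀ x < n, ∀ i < n, ∀ j < n, i ≠ x → j ≠ x → i ≠ j → m x i + 1 ≤ R - t i →
      m x j + 1 ≤ R - t j → R + t i * t j < (m x i + 1) * (m x j + 1)) :
    LdG R n t s h e mu m (fun x z => (lgP U ho kp pc x z).card)
      (fun x z => (lgA U ho kp mn pc m x z).card)
      (fun x z => (lgD U ho kp mn pc m x z).card) NN FF := by
  have hP : ∀ x < n, ∀ z < n, ((lgP U ho kp pc x z).card : ℤ) = be x z :=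
    fun x hx z hz => H.card_lgP hx hz
  have hPm : ∀ x z, ∀ u ∈ lgP U ho kp pc x z, u ∈ U ∧ ho u = x := fun x z u hu =>
    ⟨(mem_filter.1 hu).1, (mem_filter.1 hu).2.1⟩
  have hAm : ∀ x z, ∀ u ∈ lgA U ho kp mn pc m x z, u ∈ U ∧ ho u = x := fun x z u hu =>
    ⟨(mem_filter.1 hu).1, (mem_filter.1 hu).2.1⟩
  have hDm : ∀ x z, ∀ u ∈ lgD U ho kp mn pc m x z, u ∈ U ∧ ho u = x := fun x z u hu =>
    ⟨(mem_filter.1 hu).1, (mem_filter.1 hu).2.1⟩
  have hmu0 : ∀ i < n, 0 ≤ mu i := fun i hi => H.mu0 hi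
  have hits : ∀ x < n, ∀ z < n, ((lgP U ho kp pc x z).card : ℤ) * (R - t z)
      + (lgA U ho kp mn pc m x z).card * max 0 (R - t z - m x z)
      + (lgD U ho kp mn pc m x z).card * (R - t z + max 0 (R - t z - m x z))
      ≤ ∑ u ∈ U.filter (fun u => ho u = x), (kp z u * (R - t z) - ms z u) := by
    intro x hx z hz
    rw [← sum_hostG (hPm x z), ← sum_hostG (hAm x z), ← sum_hostG (hDm x z), sum_mul, sum_mul,
      sum_mul, ← sum_add_distrib, ← sum_add_distrib]
    exact sum_le_sum fun u hu => (H.lg_item L hz (hm0 x hx z hz) (mem_filter.1 hu).1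
      (mem_filter.1 hu).2).2
  refine ⟨H.t0, H.tR, H.h0, H.hh, hmu0, H.muh, ?_, ?_, ?_, ?_, ?_, ?_, ?_, ?_, ?_, ?_, ?_, ?_, ?_, ?_,
    ?_⟩
  · intro i hi
    have h3 := H.en i hi
    rw [H.nbC i hi, sum_eq_zero (s := (range n).erase i) (f := fun j => Nx i j) fun j hj' =>
      H.nxC i hi j (mem_range.1 (mem_of_mem_erase hj'))] at h3
    linarith
  · intro i hi
    refine le_trans (le_of_eq ?_) (H.bem i hi)
    exact sum_congr rfl fun j hj' => hP i hi j (mem_range.1 (mem_of_mem_erase hj'))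
  · intro x hx z hz hxz
    have h2 := L.prt x hx
    rw [← sum_hostG (hAm x z), ← sum_hostG (hDm x z), ← sum_add_distrib]
    refine le_trans (sum_le_sum fun u hu => ?_) h2
    have hU := (mem_filter.1 hu).1
    rcases H.pcf u hU with h5 | h5
    · rw [h5]
      by_cases h6 : u ∈ lgA U ho kp mn pc m x z
      · have h7 : u ∉ lgD U ho kp mn pc m x z := fun h8 => by
          obtain ⟨-, -, -, g3, g4⟩ := mem_filter.1 h8
          rcases (mem_filter.1 h6).2.2.2 with h4 | h4
          · rw [g3] at h4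
            norm_num at h4
          · linarith [h4.2]
        rw [if_pos h6, if_neg h7]
        norm_num
      · rw [if_neg h6]
        split_ifs <;> norm_num
    · have h6 : u ∉ lgA U ho kp mn pc m x z := fun h8 => by
        have := (mem_filter.1 h8).2.2.1
        rw [h5] at this
        norm_num at this
      have h7 : u ∉ lgD U ho kp mn pc m x z := fun h8 => by
        have := (mem_filter.1 h8).2.2.1
        rw [h5] at this
        norm_num at this
      rw [if_neg h6, if_neg h7, h5]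
      norm_num
  · intro x hx
    rw [sum_congr rfl fun j hj => hP x hx j (mem_range.1 (mem_of_mem_erase hj))]
    have h2 : ∑ u ∈ U.filter (fun u => ho u = x), pc u ≤ ∑ j ∈ (range n).erase x, be x j := by
      rw [sum_congr rfl fun j hj => (H.pcb x hx j (mem_range.1 (mem_of_mem_erase hj))).symm,
        sum_comm]
      refine sum_le_sum fun u hu => ?_
      obtain ⟨hU, hux⟩ := mem_filter.1 hu
      rw [← mul_sum]
      rcases H.pcf u hU with h3 | h3
      · rw [h3, zero_mul]
      · rcases L.one u hU with ⟨i, hi, b1, b2, b3, b4⟩ | ⟨b1, -⟩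
        · have hix : i ≠ x := by
            rintro rfl
            have h4 := H.kh u hU
            rw [hux, b1] at h4
            norm_num at h4
          have h5 : kp i u ≤ ∑ j ∈ (range n).erase x, kp j u :=
            single_le_sum (f := fun j => kp j u) (fun j hj =>
              H.k0 u hU j (mem_range.1 (mem_of_mem_erase hj)))
              (mem_erase.2 ⟨hix, mem_range.2 hi⟩)
          rw [h3]
          linarith
        · rw [h3] at b1
          norm_num at b1
    have h3 := L.prt x hx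
    have h4 : mu x ≤ ∑ u ∈ U.filter (fun u => ho u = x), (pc u + (1 - pc u) * ((n : ℤ) - 1)) := by
      rw [H.hmu x hx]
      refine sum_le_sum fun u hu => ?_
      have hU := (mem_filter.1 hu).1
      rcases H.pcf u hU with h5 | h5
      · have h6 := L.vln u hU
        rw [h5]
        linarith
      · have h6 := H.pcv u hU (by rw [h5]; norm_num)
        rw [h5, h6]
        norm_num
    rw [sum_add_distrib, ← sum_mul] at h4
    have h5 : (0 : ℤ) ≤ (n : ℤ) - 1 := by
      have : (1 : ℤ) ≤ n := by exact_mod_cast (Nat.lt_of_le_of_lt (Nat.zero_le _) hx)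
      linarith
    have h6 := mul_le_mul_of_nonneg_right h3 h5
    linarith
  · intro x hx
    rw [H.hmu x hx]
    have h3 : ∀ u ∈ U.filter (fun u => ho u = x), vl u
        ≤ ∑ i ∈ range n, (kp i u - if m x i < mn i u then 1 else 0) := fun u hu => by
      obtain ⟨hU, hux⟩ := mem_filter.1 hu
      have hkh : ∀ i, kp i u ≠ 0 → i ≠ x := fun i hi hix => by
        have h5 := H.kh u hU
        rw [hux, ← hix] at h5
        exact hi h5
      exact L.pot1c H.m0 H.mrk (hm0 x hx) hU fun i hi j hj' hij h1 h2 h4 h5 =>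
        hm x hx i hi j hj' (hkh i h1) (hkh j h2) hij h4 h5
    refine (sum_le_sum h3).trans ?_
    rw [sum_comm, ← add_sum_erase _ _ (mem_range.2 hx)]
    have h4 : ∑ u ∈ U.filter (fun u => ho u = x),
        (kp x u - if m x x < mn x u then 1 else 0) ≤ 0 := by
      refine sum_nonpos fun u hu => ?_
      obtain ⟨hU, hux⟩ := mem_filter.1 hu
      have h5 := H.kh u hU
      rw [hux] at h5
      rw [h5]
      split_ifs <;> norm_num
    have h5 : ∑ i ∈ (range n).erase x, ∑ u ∈ U.filter (fun u => ho u = x),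
        (kp i u - if m x i < mn i u then 1 else 0)
        ≤ ∑ j ∈ (range n).erase x, (((lgP U ho kp pc x j).card : ℤ)
          + (lgA U ho kp mn pc m x j).card + 2 * (lgD U ho kp mn pc m x j).card) := by
      refine sum_le_sum fun i hi => ?_
      have hin := mem_range.1 (mem_of_mem_erase hi)
      rw [← sum_hostG (hPm x i), ← sum_hostG (hAm x i), ← sum_hostG (hDm x i), mul_sum,
        ← sum_add_distrib, ← sum_add_distrib]
      exact sum_le_sum fun u hu => (H.lg_item L hin (hm0 x hx i hin) (mem_filter.1 hu).1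
        (mem_filter.1 hu).2).1
    linarith
  · intro z hz p a d d' hp q
    exact H.row_ldg L hm0 hz p a d d' hp q
  · intro x hx z hz hxz
    have h3 := H.low x hx z hz hxz
    have h4 := H.pairF x hx z hz hxz
    have h5 := hits x hx z hz
    have h6 := hits z hz x hx
    have h7 := le_max_left (0 : ℤ) ((R - t x) * (∑ u ∈ U.filter (fun u => ho u = z), kp x u - 1 - s z)
        - ls x (∑ u ∈ U.filter (fun u => ho u = z), kp x u - 1 - s z)
        - ∑ u ∈ U.filter (fun u => ho u = z), ms x u)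
    have h8 := le_max_left (0 : ℤ) ((R - t z) * (∑ u ∈ U.filter (fun u => ho u = x), kp z u - 1 - s x)
        - ls z (∑ u ∈ U.filter (fun u => ho u = x), kp z u - 1 - s x)
        - ∑ u ∈ U.filter (fun u => ho u = x), ms z u)
    linarith
  · exact fun x hx z hz => H.FF0 x hx z hz
  · exact fun x hx z hz => H.FFs x hx z hz
  · exact fun x hx z hz => H.NN0 x hx z hz
  · intro x hx z hz hxz k hk
    refine H.jsub x hx z hz hxz k ?_
    rw [← hP x hx z hz, ← hP z hz x hx]
    exact_mod_cast hk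
  · intro x hx z hz hxz
    have h3 := H.cellP x hx z hz hxz
    rw [← hP x hx z hz, ← hP z hz x hx] at h3
    exact h3
  · intro x hx z hz hxz
    obtain ⟨M, hM, h1, h2, h3⟩ := H.exM2 hx hz
    rw [← hP x hx z hz, ← hP z hz x hx] at h3
    rw [← hP x hx z hz] at h1 h2
    have h4 := H.NNb x hx z hz
    rw [← hP x hx z hz] at h4
    refine ⟨M, hM, fun h5 => h1 (by exact_mod_cast h5), by linarith, fun h5 => ?_⟩
    exact h3 (by exact_mod_cast h5)
  · exact H.mup
  · intro x hx z hz hxz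
    rw [sum_congr rfl fun j hj => hP x hx j (mem_range.1 (mem_of_mem_erase hj)), H.hmu x hx]
    have h2 : ∑ j ∈ (range n).erase x, be x j ≤ ∑ u ∈ U.filter (fun u => ho u = x), pc u := by
      rw [sum_congr rfl fun j hj => (H.pcb x hx j (mem_range.1 (mem_of_mem_erase hj))).symm,
        sum_comm]
      refine sum_le_sum fun u hu => ?_
      obtain ⟨hU, hux⟩ := mem_filter.1 hu
      rw [← mul_sum]
      rcases H.pcf u hU with h3 | h3
      · rw [h3, zero_mul]
      · have h4 := H.sumk u hU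
        have h5 := H.pcv u hU (by rw [h3]; norm_num)
        rw [h3, h5] at h4
        have h6 : ∑ j ∈ (range n).erase x, kp j u ≤ ∑ j ∈ range n, kp j u :=
          sum_le_sum_of_subset_of_nonneg (erase_subset _ _) fun j hj _ =>
            H.k0 u hU j (mem_range.1 hj)
        rw [h3]
        linarith
    have h3 : ∑ u ∈ U.filter (fun u => ho u = x), pc u
        + ((lgA U ho kp mn pc m x z).card : ℤ) + 2 * (lgD U ho kp mn pc m x z).card
        ≤ ∑ u ∈ U.filter (fun u => ho u = x), vl u := by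
      rw [← sum_hostG (hAm x z), ← sum_hostG (hDm x z), mul_sum, ← sum_add_distrib,
        ← sum_add_distrib]
      refine sum_le_sum fun u hu => ?_
      obtain ⟨hU, hux⟩ := mem_filter.1 hu
      have v1 := H.v1 u hU
      have kv := H.kv u hU z hz
      rcases H.pcf u hU with h5 | h5
      · rw [h5]
        by_cases h6 : u ∈ lgD U ho kp mn pc m x z
        · have h7 : u ∉ lgA U ho kp mn pc m x z := fun h8 => by
            obtain ⟨-, -, -, g3, g4⟩ := mem_filter.1 h6
            rcases (mem_filter.1 h8).2.2.2 with h4 | h4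
            · rw [g3] at h4
              norm_num at h4
            · linarith [h4.2]
          have h8 := (mem_filter.1 h6).2.2.2.1
          rw [if_pos h6, if_neg h7]
          linarith
        · rw [if_neg h6]
          split_ifs <;> linarith
      · have h6 : u ∉ lgA U ho kp mn pc m x z := fun h8 => by
          have := (mem_filter.1 h8).2.2.1
          rw [h5] at this
          norm_num at this
        have h7 : u ∉ lgD U ho kp mn pc m x z := fun h8 => by
          have := (mem_filter.1 h8).2.2.1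
          rw [h5] at this
          norm_num at this
        rw [if_neg h6, if_neg h7, h5]
        linarith
    linarith

end Items

end Pool.Agent.Lib.MP_f04ccf_co
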