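import Pool.Agent.Lib.MP_f04ccf_co.M.LdT
import Pool.Agent.Lib.MP_f04ccf_co.M.FinE

/-!
MP_f04ccf_co, PLAN W, finite part: the loads checker as a leaf of the enumeration.
-/

set_option autoImplicit false

namespace Pool.Agent.Lib.MP_f04ccf_co

open Finset

attribute [local instance] Classical.propDecidable

/-- the loads checker on rows `(t, h, mu)` -/
noncomputable def Ld.ld3 (R : ℕ) (l : List (ℕ × ℕ × ℕ)) : Bool :=
  Ld.ldT R (l.map fun a => (a.1, a.2.1, a.2.2, ()))

/-- **the loads checker is a leaf** -/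
theorem leafC_ld3 {R : ℕ} (hR : 10 ≤ R) (n : ℕ) : LeafC (R : ℤ) n (Ld.ld3 R) := by
  intro ι t s h e E U ho vl kp ms mr mn mu Nb Nx be ls pc ar aT NN FF pw nu H L x hx hT
  refine H.ldT L hR (fun i hi j hj hij k _ hk => H.jsub i hi j hj hij k hk)
    (x := fun i => ((x i).1, (x i).2.1, (x i).2.2, ())) hx ?_
  unfold Ld.ld3 at hT
  rw [List.map_map] at hT
  exact hT

end Pool.Agent.Lib.MP_f04ccf_co
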