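import Pool.Agent.Lib.MP_f04ccf_co.M.LdG

/-!
MP_f04ccf_co, PLAN W, block certificate: **the multipliers**.  `LdG.mult`: the sum of the `s z` is at
most the sum of the values of the rows, for prices `L x` of the units of the host `x` and `V x z` of the
PC pairs of the host `x` with tail `z`; `LdG.mult2`: the same with two distinguished hosts `0`, `1`.
`Knap.le`: the knapsack bound for the other rows; `Kern.kn`: computed; `LdG.node_lin`, `LdG.node_kn`: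
no world in a node.
-/

set_option autoImplicit false

namespace Pool.Agent.Lib.MP_f04ccf_co

open Finset

attribute [local instance] Classical.propDecidable

/-- the ordered pairs of rows, both orders -/
lemma sum_erase_comm {n : ℕ} (f : ℕ → ℕ → ℤ) :
    ∑ z ∈ range n, ∑ x ∈ (range n).erase z, f x z
      = ∑ z ∈ range n, ∑ y ∈ (range n).erase z, f z y := by
  have h1 : ∀ g : ℕ → ℕ → ℤ, ∑ z ∈ range n, ∑ x ∈ (range n).erase z, g x z
      = ∑ z ∈ range n, ∑ x ∈ range n, if x = z then 0 else g x z := by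
    intro g
    refine sum_congr rfl fun z hz => ?_
    rw [← add_sum_erase (range n) (fun x => if x = z then (0 : ℤ) else g x z) hz, if_pos rfl,
      zero_add]
    exact sum_congr rfl fun x hx => by rw [if_neg (ne_of_mem_erase hx)]
  rw [h1 f, h1 (fun x z => f z x), sum_comm]
  exact sum_congr rfl fun z _ => sum_congr rfl fun x _ => by
    by_cases h : x = z
    · rw [if_pos h, if_pos h.symm]
    · rw [if_neg h, if_neg (Ne.symm h)]

/-- a sum without one row, the rows `0` and `1` written out -/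
lemma sum_erase_zero {n : ℕ} (hn : 2 ≤ n) (g : ℕ → ℤ) :
    ∑ x ∈ (range n).erase 0, g x = g 1 + ∑ x ∈ Ico 2 n, g x := by
  have h1 : (range n).erase 0 = Ico 1 n := by
    ext x
    rw [mem_erase, mem_range, mem_Ico]
    omega
  rw [h1, sum_eq_sum_Ico_succ_bot (by omega)]

lemma sum_erase_one {n : ℕ} (hn : 2 ≤ n) (g : ℕ → ℤ) :
    ∑ x ∈ (range n).erase 1, g x = g 0 + ∑ x ∈ Ico 2 n, g x := by
  have h1 : (range n).erase 1 = insert 0 (Ico 2 n) := by
    ext x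
    rw [mem_erase, mem_range, mem_insert, mem_Ico]
    omega
  rw [h1, sum_insert (by rw [mem_Ico]; omega)]

lemma sum_erase_rest {n z : ℕ} (hz : z ∈ Ico 2 n) (g : ℕ → ℤ) :
    ∑ x ∈ (range n).erase z, g x = g 0 + g 1 + ∑ x ∈ (Ico 2 n).erase z, g x := by
  have hz' := mem_Ico.1 hz
  have h1 : (range n).erase z = insert 0 (insert 1 ((Ico 2 n).erase z)) := by
    ext x
    rw [mem_erase, mem_range, mem_insert, mem_insert, mem_erase, mem_Ico]
    omega
  rw [h1, sum_insert (by rw [mem_insert, mem_erase, mem_Ico]; omega),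
    sum_insert (by rw [mem_erase, mem_Ico]; omega), add_assoc]

lemma sum_range_two {n : ℕ} (hn : 2 ≤ n) (g : ℕ → ℤ) :
    ∑ x ∈ range n, g x = g 0 + g 1 + ∑ x ∈ Ico 2 n, g x := by
  rw [range_eq_Ico, sum_eq_sum_Ico_succ_bot (by omega), sum_eq_sum_Ico_succ_bot (by omega)]
  exact (add_assoc _ _ _).symm

/-- **the knapsack bound**: `F m c` for at least `m` rows and capacity `c` -/
theorem Knap.le {rho : ℕ → ℤ} {F : ℕ → ℕ → ℤ} {M C T : ℕ} (h0 : ∀ c ≤ C, 0 ≤ F 0 c)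
    (h1 : ∀ m ≤ M, ∀ c ≤ C, ∀ x ≤ T, x + 1 ≤ c → rho x + F (m - 1) (c - (x + 1)) ≤ F m c)
    {S : Finset ℕ} {τ : ℕ → ℕ} : (∀ z ∈ S, τ z ≤ T) → ∀ m ≤ M, ∀ c ≤ C, m ≤ S.card →
    ∑ z ∈ S, (τ z + 1) ≤ c → ∑ z ∈ S, rho (τ z) ≤ F m c := by
  induction S using Finset.induction_on with
  | empty =>
    intro _ m _ c hc hm _
    rw [card_empty] at hm
    rw [sum_empty, Nat.le_zero.1 hm]
    exact h0 c hc
  | insert z S hz ih =>
    intro hT m hm c hc hmS hsum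
    rw [sum_insert hz] at hsum ⊢
    rw [card_insert_of_notMem hz] at hmS
    have h2 := ih (fun y hy => hT y (mem_insert_of_mem hy)) (m - 1) (by omega)
      (c - (τ z + 1)) (by omega) (by omega) (by omega)
    have h3 := h1 m hm c hc (τ z) (hT z (mem_insert_self z S)) (by omega)
    linarith

namespace LdG

variable {R : ℤ} {n : ℕ} {t s h e mu : ℕ → ℤ} {m : ℕ → ℕ → ℤ} {P A D : ℕ → ℕ → ℕ}
  {N W : ℕ → ℕ → ℤ}

/-- **the multipliers**: prices `L x` of the units of the host `x`, `V x z` of its PC pairs with tail `z` -/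
theorem mult (C : LdG R n t s h e mu m P A D N W) {L : ℕ → ℤ} (hL : ∀ x < n, 0 ≤ L x)
    (V : ℕ → ℕ → ℤ) (c : ℤ) :
    c * ∑ z ∈ range n, s z ≤ ∑ z ∈ range n, (c * s z
      + ∑ x ∈ (range n).erase z, (L x * ((A x z : ℤ) + 2 * D x z) + V x z * P x z)
      - ∑ y ∈ (range n).erase z, V z y * P z y
      - L z * (mu z - ∑ y ∈ (range n).erase z, (P z y : ℤ))) := by
  have h1 : ∑ z ∈ range n, ∑ x ∈ (range n).erase z, (L x * ((A x z : ℤ) + 2 * D x z)
      + V x z * P x z) = ∑ z ∈ range n, ∑ y ∈ (range n).erase z, (L z * ((A z y : ℤ) + 2 * D z y)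
      + V z y * P z y) := sum_erase_comm fun x z => L x * ((A x z : ℤ) + 2 * D x z) + V x z * P x z
  have h2 : ∀ z ∈ range n, 0 ≤ L z * (∑ y ∈ (range n).erase z, ((P z y : ℤ) + A z y + 2 * D z y)
      - mu z) := fun z hz => mul_nonneg (hL z (mem_range.1 hz))
        (by linarith [C.sup z (mem_range.1 hz)])
  have h3 := sum_nonneg h2
  rw [sum_sub_distrib, sum_sub_distrib, sum_add_distrib, h1, ← mul_sum]
  have h4 : ∑ z ∈ range n, ∑ y ∈ (range n).erase z, (L z * ((A z y : ℤ) + 2 * D z y)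
      + V z y * P z y) - ∑ z ∈ range n, ∑ y ∈ (range n).erase z, V z y * P z y
      - ∑ z ∈ range n, L z * (mu z - ∑ y ∈ (range n).erase z, (P z y : ℤ))
      = ∑ z ∈ range n, L z * (∑ y ∈ (range n).erase z, ((P z y : ℤ) + A z y + 2 * D z y)
      - mu z) := by
    rw [← sum_sub_distrib, ← sum_sub_distrib]
    refine sum_congr rfl fun z _ => ?_
    simp only [sum_add_distrib, ← mul_sum]
    ring
  linarith

/-- the value of the two distinguished rows: prices `L0`, `L1` of the units of the hosts, `V0`, `V1` of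
their PC pairs to the other rows, `W0`, `W1` of the PC pairs of the other rows with tail `0`, `1` -/
def bv (c L0 L1 V0 V1 W0 W1 s0 s1 mu0 mu1 S01 D01 S10 D10 p01 p10 o0 o1 i0 i1 : ℤ) : ℤ :=
  c * (s0 + s1) - L0 * (mu0 - p01 - o0 - (S01 + 2 * D01)) - L1 * (mu1 - p10 - o1 - (S10 + 2 * D10))
    - V0 * o0 - V1 * o1 + W0 * i0 + W1 * i1

/-- the value of another row: units `S + 2 D` and PC pairs `p` of the hosts `0`, `1`, its own PC pairs
`g0`, `g1` with tail `0`, `1`, `o` with the other tails; `i` PC pairs of other hosts -/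
def rv (c L0 L1 V0 V1 W0 W1 VC s S0 D0 S1 D1 p0 p1 g0 g1 o i : ℤ) : ℤ :=
  c * s + L0 * (S0 + 2 * D0) + L1 * (S1 + 2 * D1) + V0 * p0 + V1 * p1 - W0 * g0 - W1 * g1
    + VC * i - VC * o

/-- **the multipliers for two distinguished hosts** -/
theorem mult2 (C : LdG R n t s h e mu m P A D N W) (hn : 2 ≤ n) {L0 L1 : ℤ} (h0 : 0 ≤ L0)
    (h1 : 0 ≤ L1) (V0 V1 W0 W1 VC c : ℤ) :
    c * ∑ z ∈ range n, s z ≤ bv c L0 L1 V0 V1 W0 W1 (s 0) (s 1) (mu 0) (mu 1) (A 0 1) (D 0 1)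
        (A 1 0) (D 1 0) (P 0 1) (P 1 0) (∑ z ∈ Ico 2 n, (P 0 z : ℤ)) (∑ z ∈ Ico 2 n, (P 1 z : ℤ))
        (∑ z ∈ Ico 2 n, (P z 0 : ℤ)) (∑ z ∈ Ico 2 n, (P z 1 : ℤ))
      + ∑ z ∈ Ico 2 n, rv c L0 L1 V0 V1 W0 W1 VC (s z) (A 0 z) (D 0 z) (A 1 z) (D 1 z) (P 0 z)
        (P 1 z) (P z 0) (P z 1) (∑ y ∈ (Ico 2 n).erase z, (P z y : ℤ))
        (∑ x ∈ (Ico 2 n).erase z, (P x z : ℤ)) := by
  have h2 := C.mult (L := fun x => if x = 0 then L0 else if x = 1 then L1 else 0)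
    (fun x _ => by
      show 0 ≤ if x = 0 then L0 else if x = 1 then L1 else 0
      split_ifs
      · exact h0
      · exact h1
      · exact le_rfl)
    (fun x z => if x = 0 then (if z = 1 then 0 else V0) else if x = 1 then (if z = 0 then 0 else V1)
      else if z = 0 then W0 else if z = 1 then W1 else VC) c
  refine h2.trans (le_of_eq ?_)
  rw [sum_range_two hn]
  congr 1
  · rw [sum_erase_zero hn, sum_erase_zero hn, sum_erase_zero hn, sum_erase_one hn, sum_erase_one hn,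
      sum_erase_one hn]
    have a1 : ∑ x ∈ Ico 2 n, ((if x = 0 then L0 else if x = 1 then L1 else 0)
        * ((A x 0 : ℤ) + 2 * D x 0) + (if x = 0 then (if (0 : ℕ) = 1 then 0 else V0)
          else if x = 1 then (if (0 : ℕ) = 0 then 0 else V1)
          else if (0 : ℕ) = 0 then W0 else if (0 : ℕ) = 1 then W1 else VC) * (P x 0 : ℤ))
        = W0 * ∑ z ∈ Ico 2 n, (P z 0 : ℤ) := by
      rw [mul_sum]
      refine sum_congr rfl fun x hx => ?_
      have hx' := mem_Ico.1 hx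
      rw [if_neg (by omega : ¬ x = 0), if_neg (by omega : ¬ x = 1), if_neg (by omega : ¬ x = 0),
        if_neg (by omega : ¬ x = 1), if_pos rfl]
      ring
    have a2 : ∑ x ∈ Ico 2 n, ((if x = 0 then L0 else if x = 1 then L1 else 0)
        * ((A x 1 : ℤ) + 2 * D x 1) + (if x = 0 then (if (1 : ℕ) = 1 then 0 else V0)
          else if x = 1 then (if (1 : ℕ) = 0 then 0 else V1)
          else if (1 : ℕ) = 0 then W0 else if (1 : ℕ) = 1 then W1 else VC) * (P x 1 : ℤ))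
        = W1 * ∑ z ∈ Ico 2 n, (P z 1 : ℤ) := by
      rw [mul_sum]
      refine sum_congr rfl fun x hx => ?_
      have hx' := mem_Ico.1 hx
      rw [if_neg (by omega : ¬ x = 0), if_neg (by omega : ¬ x = 1), if_neg (by omega : ¬ x = 0),
        if_neg (by omega : ¬ x = 1), if_neg (by norm_num), if_pos rfl]
      ring
    have a3 : ∑ y ∈ Ico 2 n, (if (0 : ℕ) = 0 then (if y = 1 then 0 else V0)
          else if (0 : ℕ) = 1 then (if y = 0 then 0 else V1)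
          else if y = 0 then W0 else if y = 1 then W1 else VC) * (P 0 y : ℤ)
        = V0 * ∑ z ∈ Ico 2 n, (P 0 z : ℤ) := by
      rw [mul_sum]
      refine sum_congr rfl fun x hx => ?_
      have hx' := mem_Ico.1 hx
      rw [if_pos rfl, if_neg (by omega : ¬ x = 1)]
    have a4 : ∑ y ∈ Ico 2 n, (if (1 : ℕ) = 0 then (if y = 1 then 0 else V0)
          else if (1 : ℕ) = 1 then (if y = 0 then 0 else V1)
          else if y = 0 then W0 else if y = 1 then W1 else VC) * (P 1 y : ℤ)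
        = V1 * ∑ z ∈ Ico 2 n, (P 1 z : ℤ) := by
      rw [mul_sum]
      refine sum_congr rfl fun x hx => ?_
      have hx' := mem_Ico.1 hx
      rw [if_neg (by norm_num), if_pos rfl, if_neg (by omega : ¬ x = 0)]
    simp only [] at a1 a2 a3 a4 ⊢
    rw [a1, a2, a3, a4]
    simp only [bv, if_false, one_ne_zero, zero_ne_one, if_pos]
    ring
  · refine sum_congr rfl fun z hz => ?_
    have hz' := mem_Ico.1 hz
    rw [sum_erase_rest hz, sum_erase_rest hz]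
    have a1 : ∑ x ∈ (Ico 2 n).erase z, ((if x = 0 then L0 else if x = 1 then L1 else 0)
        * ((A x z : ℤ) + 2 * D x z) + (if x = 0 then (if z = 1 then 0 else V0)
          else if x = 1 then (if z = 0 then 0 else V1)
          else if z = 0 then W0 else if z = 1 then W1 else VC) * (P x z : ℤ))
        = VC * ∑ x ∈ (Ico 2 n).erase z, (P x z : ℤ) := by
      rw [mul_sum]
      refine sum_congr rfl fun x hx => ?_
      have hx' := mem_Ico.1 (mem_of_mem_erase hx)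
      rw [if_neg (by omega : ¬ x = 0), if_neg (by omega : ¬ x = 1), if_neg (by omega : ¬ x = 0),
        if_neg (by omega : ¬ x = 1), if_neg (by omega : ¬ z = 0), if_neg (by omega : ¬ z = 1)]
      ring
    have a2 : ∑ y ∈ (Ico 2 n).erase z, (if z = 0 then (if y = 1 then 0 else V0)
          else if z = 1 then (if y = 0 then 0 else V1)
          else if y = 0 then W0 else if y = 1 then W1 else VC) * (P z y : ℤ)
        = VC * ∑ y ∈ (Ico 2 n).erase z, (P z y : ℤ) := by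
      rw [mul_sum]
      refine sum_congr rfl fun x hx => ?_
      have hx' := mem_Ico.1 (mem_of_mem_erase hx)
      rw [if_neg (by omega : ¬ z = 0), if_neg (by omega : ¬ z = 1), if_neg (by omega : ¬ x = 0),
        if_neg (by omega : ¬ x = 1)]
    simp only [] at a1 a2 ⊢
    have z0 : ¬ z = 0 := by omega
    have z1 : ¬ z = 1 := by omega
    rw [a1, a2]
    simp only [rv, z0, z1, if_true, if_false, one_ne_zero, zero_ne_one]
    ring

/-- the capacity of the other rows -/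
lemma cap2 (C : LdG R n t s h e mu m P A D N W) (hn : 2 ≤ n) {H : ℤ} (hs : 1 ≤ ∑ z ∈ range n, s z)
    (hH : ∑ z ∈ range n, h z ≤ H) :
    ∑ z ∈ Ico 2 n, (t z + 1) + (t 0 + 1) + (t 1 + 1) + 1 ≤ H := by
  have h1 : ∑ z ∈ range n, h z = ∑ z ∈ range n, s z + ∑ z ∈ range n, (t z + 1) := by
    rw [← sum_add_distrib]
    exact sum_congr rfl fun z hz => by rw [C.hh z (mem_range.1 hz)]; ring
  rw [sum_range_two hn (fun z => t z + 1)] at h1
  linarith

/-- **no world in a node**: `beta` bounds the two rows of the hosts, `rho` the other rows -/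
theorem node (C : LdG R n t s h e mu m P A D N W) (hn : 2 ≤ n) {L0 L1 V0 V1 W0 W1 VC c : ℤ}
    (h0 : 0 ≤ L0) (h1 : 0 ≤ L1) (hc : 0 ≤ c) (hs : 1 ≤ ∑ z ∈ range n, s z) {beta : ℤ}
    {rho : ℤ → ℤ}
    (hb : bv c L0 L1 V0 V1 W0 W1 (s 0) (s 1) (mu 0) (mu 1) (A 0 1) (D 0 1) (A 1 0) (D 1 0)
        (P 0 1) (P 1 0) (∑ z ∈ Ico 2 n, (P 0 z : ℤ)) (∑ z ∈ Ico 2 n, (P 1 z : ℤ))
        (∑ z ∈ Ico 2 n, (P z 0 : ℤ)) (∑ z ∈ Ico 2 n, (P z 1 : ℤ)) ≤ beta)
    (hr : ∀ z ∈ Ico 2 n, rv c L0 L1 V0 V1 W0 W1 VC (s z) (A 0 z) (D 0 z) (A 1 z) (D 1 z) (P 0 z)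
        (P 1 z) (P z 0) (P z 1) (∑ y ∈ (Ico 2 n).erase z, (P z y : ℤ))
        (∑ x ∈ (Ico 2 n).erase z, (P x z : ℤ)) ≤ rho (t z)) :
    c ≤ beta + ∑ z ∈ Ico 2 n, rho (t z) := by
  have h2 := C.mult2 hn h0 h1 V0 V1 W0 W1 VC c
  have h3 := sum_le_sum hr
  nlinarith

/-- the node with a linear bound of the other rows -/
theorem node_lin (C : LdG R n t s h e mu m P A D N W) {q : ℕ} (hn : q + 2 ≤ n)
    {L0 L1 V0 V1 W0 W1 VC c : ℤ} (h0 : 0 ≤ L0) (h1 : 0 ≤ L1) (hc : 0 ≤ c)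
    (hs : 1 ≤ ∑ z ∈ range n, s z) {H : ℤ} (hH : ∑ z ∈ range n, h z ≤ H) {beta : ℤ} {rho : ℤ → ℤ}
    (hb : bv c L0 L1 V0 V1 W0 W1 (s 0) (s 1) (mu 0) (mu 1) (A 0 1) (D 0 1) (A 1 0) (D 1 0)
        (P 0 1) (P 1 0) (∑ z ∈ Ico 2 n, (P 0 z : ℤ)) (∑ z ∈ Ico 2 n, (P 1 z : ℤ))
        (∑ z ∈ Ico 2 n, (P z 0 : ℤ)) (∑ z ∈ Ico 2 n, (P z 1 : ℤ)) ≤ beta)
    (hr : ∀ z ∈ Ico 2 n, rv c L0 L1 V0 V1 W0 W1 VC (s z) (A 0 z) (D 0 z) (A 1 z) (D 1 z) (P 0 z)
        (P 1 z) (P z 0) (P z 1) (∑ y ∈ (Ico 2 n).erase z, (P z y : ℤ))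
        (∑ x ∈ (Ico 2 n).erase z, (P x z : ℤ)) ≤ rho (t z))
    {al ga : ℤ} (hal : 0 ≤ al) (hga : 0 ≤ ga)
    (hrho : ∀ z ∈ Ico 2 n, rho (t z) ≤ al * (t z + 1) - ga)
    (hlt : beta + al * (H - t 0 - t 1 - 3) - ga * q < c) : False := by
  have h2 := C.node (by omega) h0 h1 hc hs hb hr
  have h3 := C.cap2 (by omega) hs hH
  have h4 := sum_le_sum hrho
  rw [sum_sub_distrib, ← mul_sum, sum_const, Nat.card_Ico, nsmul_eq_mul] at h4
  have h5 : ga * (q : ℤ) ≤ ga * ((n - 2 : ℕ) : ℤ) :=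
    mul_le_mul_of_nonneg_left (by exact_mod_cast (by omega : q ≤ n - 2)) hga
  have h6 : al * ∑ z ∈ Ico 2 n, (t z + 1) ≤ al * (H - t 0 - t 1 - 3) :=
    mul_le_mul_of_nonneg_left (by linarith) hal
  linarith

/-- the node with a knapsack bound of the other rows -/
theorem node_kn (C : LdG R n t s h e mu m P A D N W) {q : ℕ} (hn : q + 2 ≤ n)
    {L0 L1 V0 V1 W0 W1 VC c : ℤ} (h0 : 0 ≤ L0) (h1 : 0 ≤ L1) (hc : 0 ≤ c)
    (hs : 1 ≤ ∑ z ∈ range n, s z) {H : ℤ} (hH : ∑ z ∈ range n, h z ≤ H) {beta : ℤ} {rho : ℤ → ℤ}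
    (hb : bv c L0 L1 V0 V1 W0 W1 (s 0) (s 1) (mu 0) (mu 1) (A 0 1) (D 0 1) (A 1 0) (D 1 0)
        (P 0 1) (P 1 0) (∑ z ∈ Ico 2 n, (P 0 z : ℤ)) (∑ z ∈ Ico 2 n, (P 1 z : ℤ))
        (∑ z ∈ Ico 2 n, (P z 0 : ℤ)) (∑ z ∈ Ico 2 n, (P z 1 : ℤ)) ≤ beta)
    (hr : ∀ z ∈ Ico 2 n, rv c L0 L1 V0 V1 W0 W1 VC (s z) (A 0 z) (D 0 z) (A 1 z) (D 1 z) (P 0 z)
        (P 1 z) (P z 0) (P z 1) (∑ y ∈ (Ico 2 n).erase z, (P z y : ℤ))
        (∑ x ∈ (Ico 2 n).erase z, (P x z : ℤ)) ≤ rho (t z))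
    {F : ℕ → ℕ → ℤ} {B T : ℕ} (hB : H - t 0 - t 1 - 3 ≤ B) (hT : ∀ z ∈ Ico 2 n, t z ≤ T)
    (f0 : ∀ a ≤ B, 0 ≤ F 0 a)
    (f1 : ∀ k ≤ q, ∀ a ≤ B, ∀ x ≤ T, x + 1 ≤ a → rho x + F (k - 1) (a - (x + 1)) ≤ F k a)
    (hlt : beta + F q B < c) : False := by
  have h2 := C.node (by omega) h0 h1 hc hs hb hr
  have h3 := C.cap2 (by omega) hs hH
  have h4 : ∀ z ∈ Ico 2 n, t z = ((t z).toNat : ℤ) := fun z hz =>
    (Int.toNat_of_nonneg (C.t0 z (mem_Ico.1 hz).2)).symm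
  have h5 : ∑ z ∈ Ico 2 n, rho (t z) = ∑ z ∈ Ico 2 n, rho (((t z).toNat : ℕ) : ℤ) :=
    sum_congr rfl fun z hz => by rw [← h4 z hz]
  have h6 : ∑ z ∈ Ico 2 n, ((t z).toNat + 1) ≤ B := by
    have h7 : ((∑ z ∈ Ico 2 n, ((t z).toNat + 1) : ℕ) : ℤ) = ∑ z ∈ Ico 2 n, (t z + 1) := by
      rw [Nat.cast_sum]
      exact sum_congr rfl fun z hz => by
        rw [Nat.cast_add, ← h4 z hz, Nat.cast_one]
    have h8 : ((∑ z ∈ Ico 2 n, ((t z).toNat + 1) : ℕ) : ℤ) ≤ B := by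
      rw [h7]
      linarith
    exact_mod_cast h8
  have h7 := Knap.le (rho := fun x : ℕ => rho (x : ℤ)) (F := F) (M := q) (C := B) (T := T) f0 f1
    (S := Ico 2 n) (τ := fun z => (t z).toNat)
    (fun z hz => by
      have h8 := hT z hz
      rw [h4 z hz] at h8
      exact_mod_cast h8)
    q le_rfl B le_rfl (by rw [Nat.card_Ico]; omega) h6
  rw [h5] at h2
  linarith

end LdG

end Pool.Agent.Lib.MP_f04ccf_co
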