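import Pool.Agent.Lib.MP_f04ccf_co.M.LdK

/-!
MP_f04ccf_co, PLAN W, finite part: **the kernel test of the loads is sound**.
`Ld.Ctx`: the rows of the checker and the integers of the loads; `Ld.Ctx.node`, `Ld.Ctx.srch`: a node
and the search; `Ld.ldT_sound`: `ldT R rows = true` and loads over these rows are a contradiction;
`ItC.ldT`: the same for the items of version [C] with levels.
-/

set_option autoImplicit false

namespace Pool.Agent.Lib.MP_f04ccf_co

open Finset

attribute [local instance] Classical.propDecidable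

namespace Ld

/-- sums over the rows -/
lemma sum_map_range (g : ℕ → ℕ) (n : ℕ) : ((List.range n).map g).sum = ∑ i ∈ range n, g i := by
  induction n with
  | zero => rfl
  | succ n ih =>
    rw [List.range_succ, List.map_append, List.sum_append, ih, sum_range_succ]
    simp

/-- the rows of the checker for the loads -/
structure Ctx (R n : ℕ) (t s h e mu m : ℕ → ℤ) (P K : ℕ → ℕ → ℕ) (N W : ℕ → ℕ → ℤ)
    (r : ℕ → Rw) (L : List Rw) : Prop where
  H : LdC (R : ℤ) n t s h e mu m P K N W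
  R2 : 2 ≤ R
  m0 : ∀ j < n, 0 ≤ m j
  hp : L.Perm ((List.range n).map r)
  ri : ∀ j < n, (r j).i = j
  rt : ∀ j < n, ((r j).t : ℤ) = t j
  rh : ∀ j < n, ((r j).h : ℤ) = h j
  rmu : ∀ j < n, ((r j).mu : ℤ) = mu j
  rB : ∀ j < n, ((r j).B : ℤ) = 2 * (mu j * h j) - mu j * (mu j + 1)
  rc : ∀ j < n, ((r j).c : ℤ) = R - t j
  rg : ∀ j < n, ((r j).g : ℤ) = max 0 (R - t j - m j)

namespace Ctx

variable {R n : ℕ} {t s h e mu m : ℕ → ℤ} {P K : ℕ → ℕ → ℕ} {N W : ℕ → ℕ → ℤ}
  {r : ℕ → Rw} {L : List Rw}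

lemma mem (C : Ctx R n t s h e mu m P K N W r L) {z : Rw} (hz : z ∈ L) : ∃ j < n, r j = z := by
  obtain ⟨j, hj, h1⟩ := List.mem_map.1 (C.hp.mem_iff.1 hz)
  exact ⟨j, List.mem_range.1 hj, h1⟩

/-- a sum over the other rows -/
lemma lsum (C : Ctx R n t s h e mu m P K N W r L) (F : Rw → ℕ) {z : ℕ} (hz : z < n) :
    Ld.lsum (fun y => Bool.rec (motive := fun _ => ℕ) (F y) 0 (Nat.beq (r z).i y.i)) L
      = ∑ j ∈ (range n).erase z, F (r j) := by
  rw [lsum_eq, (C.hp.map _).sum_eq, List.map_map, sum_map_range, ← add_sum_erase _ _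
    (mem_range.2 hz)]
  have h1 : Nat.beq (r z).i (r z).i = true := by rw [Nat.beq_eq]
  have h2 : ∀ j ∈ (range n).erase z, Nat.beq (r z).i (r j).i = false := by
    intro j hj
    rcases h3 : Nat.beq (r z).i (r j).i with _ | _
    · rfl
    · rw [Nat.beq_eq, C.ri z hz, C.ri j (mem_range.1 (mem_of_mem_erase hj))] at h3
      exact absurd h3.symm (ne_of_mem_erase hj)
  simp only [Function.comp_apply, h1]
  rw [zero_add]
  exact sum_congr rfl fun j hj => by rw [h2 j hj]

/-- the values of the cells for a bound `hi` of the PC pairs -/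
structure Iv (C : Ctx R n t s h e mu m P K N W r L) (lo hi : Rw → Rw → ℕ) : Prop where
  lo : ∀ x < n, ∀ z < n, x ≠ z → lo (r x) (r z) ≤ P x z
  hi : ∀ x < n, ∀ z < n, x ≠ z → P x z ≤ hi (r x) (r z)

/-- the excess of one PC pair -/
lemma nb_spec (C : Ctx R n t s h e mu m P K N W r L) {x z : ℕ} (hx : x < n) (hz : z < n)
    (hxz : x ≠ z) : N x z ≤ 2 * ((P x z : ℤ) * nb (r x) (r z)) := by
  have h1 := isq_spec (Nat.succ (Nat.mul (r x).t (r z).t))
  have h2 : t x * t z + 1 < ((isq (Nat.succ (Nat.mul (r x).t (r z).t)) : ℤ) + 1) ^ 2 := by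
    rw [← C.rt x hx, ← C.rt z hz]
    have h3 : (r x).t * (r z).t + 1 < (isq (Nat.succ (Nat.mul (r x).t (r z).t)) + 1) ^ 2 := h1
    exact_mod_cast h3
  have h3 := C.H.nn x hx z hz hxz _ (Int.natCast_nonneg _) h2
  have h4 : ((nb (r x) (r z) : ℕ) : ℤ) = 1 + (isq (Nat.succ (Nat.mul (r x).t (r z).t)) : ℤ) := by
    show ((Nat.succ (isq (Nat.succ (Nat.mul (r x).t (r z).t))) : ℕ) : ℤ) = _
    push_cast
    ring
  rw [h4]
  exact h3

/-- the excess of a host, sum form -/
lemma ns_spec (C : Ctx R n t s h e mu m P K N W r L) {hi : Rw → Rw → ℕ}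
    (hh : ∀ x < n, ∀ z < n, x ≠ z → P x z ≤ hi (r x) (r z)) {z : ℕ} (hz : z < n) :
    ns hi L (r z) = ∑ j ∈ (range n).erase z, hi (r z) (r j) * nb (r z) (r j) ∧
      ∀ j ∈ (range n).erase z, N z j ≤ 2 * ((hi (r z) (r j) * nb (r z) (r j) : ℕ) : ℤ) := by
  refine ⟨C.lsum (fun y => hi (r z) y * nb (r z) y) hz, fun j hj => ?_⟩
  have hjn := mem_range.1 (mem_of_mem_erase hj)
  have hne := (ne_of_mem_erase hj).symm
  have h1 := C.nb_spec hz hjn hne
  have h2 := hh z hz j hjn hne
  push_cast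
  have h3 : ((P z j : ℤ)) * nb (r z) (r j) ≤ (hi (r z) (r j) : ℤ) * nb (r z) (r j) :=
    mul_le_mul_of_nonneg_right (by exact_mod_cast h2) (Int.natCast_nonneg _)
  linarith

/-- the excess of a host, product form -/
lemma nm_spec (C : Ctx R n t s h e mu m P K N W r L) {hi : Rw → Rw → ℕ}
    (hh : ∀ x < n, ∀ z < n, x ≠ z → P x z ≤ hi (r x) (r z)) {z : ℕ} (hz : z < n)
    {S : Finset ℕ} (hS : S ⊆ (range n).erase z) :
    ∑ j ∈ S, N z j ≤ 2 * (nm hi L (r z) : ℤ) := by
  set X := lmax (fun y => Bool.rec (motive := fun _ => ℕ)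
    (Bool.rec (motive := fun _ => ℕ) (nb (r z) y) 0 (Nat.beq (hi (r z) y) 0)) 0
      (Nat.beq (r z).i y.i)) L with hX
  have h0 : nm hi L (r z) = (r z).mu * X := rfl
  have h1 : ∀ j ∈ S, N z j ≤ 2 * ((P z j : ℤ) * X) := by
    intro j hj
    have hj' := hS hj
    have hjn := mem_range.1 (mem_of_mem_erase hj')
    have hne := (ne_of_mem_erase hj').symm
    have h2 := C.nb_spec hz hjn hne
    have h3 := hh z hz j hjn hne
    rcases Nat.eq_zero_or_pos (hi (r z) (r j)) with h4 | h4
    · have h5 : P z j = 0 := by omega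
      rw [h5] at h2 ⊢
      simpa using h2
    · have h5 : r j ∈ L := C.hp.mem_iff.2 (List.mem_map.2 ⟨j, List.mem_range.2 hjn, rfl⟩)
      have h6 := le_lmax (fun y => Bool.rec (motive := fun _ => ℕ)
        (Bool.rec (motive := fun _ => ℕ) (nb (r z) y) 0 (Nat.beq (hi (r z) y) 0)) 0
        (Nat.beq (r z).i y.i)) h5
      have h7 : Nat.beq (r z).i (r j).i = false := by
        rcases h3 : Nat.beq (r z).i (r j).i with _ | _
        · rfl
        · rw [Nat.beq_eq, C.ri z hz, C.ri j hjn] at h3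
          exact absurd h3 hne
      have h8 : Nat.beq (hi (r z) (r j)) 0 = false := by
        rcases h3 : Nat.beq (hi (r z) (r j)) 0 with _ | _
        · rfl
        · rw [Nat.beq_eq] at h3
          omega
      simp only [h7, h8] at h6
      rw [← hX] at h6
      have h9 : ((P z j : ℤ)) * nb (r z) (r j) ≤ (P z j : ℤ) * X :=
        mul_le_mul_of_nonneg_left (by exact_mod_cast h6) (Int.natCast_nonneg _)
      linarith
  have h2 := sum_le_sum h1
  rw [← mul_sum, ← sum_mul] at h2
  have h3 : ∑ j ∈ S, (P z j : ℤ) ≤ mu z :=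
    (sum_le_sum_of_subset_of_nonneg hS fun _ _ _ => Int.natCast_nonneg _).trans (C.H.pm z hz)
  have h4 : (∑ j ∈ S, (P z j : ℤ)) * X ≤ mu z * X :=
    mul_le_mul_of_nonneg_right h3 (Int.natCast_nonneg _)
  rw [h0]
  push_cast
  rw [C.rmu z hz]
  linarith

/-- the energy -/
lemma en_spec (C : Ctx R n t s h e mu m P K N W r L) {hi : Rw → Rw → ℕ}
    (hh : ∀ x < n, ∀ z < n, x ≠ z → P x z ≤ hi (r x) (r z)) {z : ℕ} (hz : z < n) :
    2 * e z ≤ (en (r z) (ns hi L (r z)) (nm hi L (r z)) : ℤ) := by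
  have h1 := C.H.en z hz
  obtain ⟨h2, h3⟩ := C.ns_spec hh hz
  have h4 := C.nm_spec hh hz (Subset.refl _)
  have h5 : ∑ j ∈ (range n).erase z, N z j ≤ 2 * (ns hi L (r z) : ℤ) := by
    rw [h2]
    push_cast
    rw [mul_sum]
    refine sum_le_sum fun j hj => ?_
    have := h3 j hj
    push_cast at this
    exact this
  have h6 : (en (r z) (ns hi L (r z)) (nm hi L (r z)))
      = (r z).B + 2 * min (ns hi L (r z)) (nm hi L (r z)) := by
    show (r z).B + 2 * mi _ _ = _
    rw [mi_eq]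
  rw [h6]
  push_cast
  rw [C.rB z hz]
  rcases le_total (ns hi L (r z) : ℤ) (nm hi L (r z) : ℤ) with h7 | h7
  · rw [min_eq_left h7]
    linarith
  · rw [min_eq_right h7]
    linarith

/-- the row test holds -/
lemma rt_spec (C : Ctx R n t s h e mu m P K N W r L) {z : ℕ} (hz : z < n) {E a b : ℕ}
    (hE : 2 * e z ≤ (E : ℤ)) (ha : a ≤ ∑ x ∈ (range n).erase z, P x z)
    (hb : a + b ≤ ∑ x ∈ (range n).erase z, (P x z + K x z)) : Ld.rt R (r z) E a b = true := by
  unfold Ld.rt
  rcases h1 : Nat.ble (r z).t (Nat.add (r z).h 3) with _ | _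
  · rfl
  show Nat.ble _ _ = true
  refine Nat.ble_eq_true_of_le ?_
  have h2 : (r z).t ≤ (r z).h + 3 := Nat.le_of_ble_eq_true h1
  have hs : -4 ≤ s z := by
    have h3 := C.H.hh z hz
    rw [← C.rt z hz, ← C.rh z hz] at h3
    have h4 : ((r z).t : ℤ) ≤ (r z).h + 3 := by exact_mod_cast h2
    linarith
  rw [sum_add_distrib] at hb
  obtain ⟨a', b', e1, e2, e3, e4⟩ : ∃ a' b' : ℕ, a ≤ a' ∧ a' + b' = a + b ∧
      a' ≤ ∑ x ∈ (range n).erase z, P x z ∧ b' ≤ ∑ x ∈ (range n).erase z, K x z := by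
    by_cases h3 : b ≤ ∑ x ∈ (range n).erase z, K x z
    · exact ⟨a, b, le_rfl, rfl, ha, h3⟩
    · exact ⟨a + b - ∑ x ∈ (range n).erase z, K x z, ∑ x ∈ (range n).erase z, K x z,
        by omega, by omega, by omega, le_rfl⟩
  have h3 := C.H.row z hz a' b' e3 e4 (Or.inr hs)
  have h4 : ((a' : ℤ) + b') = (a : ℤ) + b := by exact_mod_cast e2
  have hc := C.rc z hz
  have hg := C.rg z hz
  rw [← hg, ← hc] at h3
  have hgc : ((r z).g : ℤ) ≤ (r z).c := by
    rw [hg, hc]
    have h5 := C.m0 z hz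
    have h6 := C.H.tR z hz
    exact max_le (by linarith) (by linarith)
  have h5 : (a : ℤ) * (r z).c + b * (r z).g ≤ a' * (r z).c + b' * (r z).g := by
    have h6 : (a : ℤ) ≤ a' := by exact_mod_cast e1
    nlinarith
  have hhz := C.H.hh z hz
  rw [← C.rt z hz, ← C.rh z hz] at hhz
  rw [h4] at h3
  have hz1 : s z = (r z).h - (r z).t - 1 := by linarith
  rw [hz1] at h3
  show 2 * (R * (r z).h + (a * (r z).c + b * (r z).g)) + (a + b) * (4 * (r z).t + 2)
    ≤ E + (4 * (a + b) * ((r z).h + (a + b)) + 2 * R * ((r z).t + 1))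
  zify
  nlinarith

/-- the cap of a row by the row test -/
lemma kc_spec {z : Rw} {E p Kt : ℕ} (hK : ∀ b, b ≤ Kt → Ld.rt R z E p b = true) :
    ∀ f k : ℕ, min Kt (k + f) ≤ kc R z E p f k := by
  intro f
  induction f with
  | zero =>
    intro k
    show min Kt (k + 0) ≤ k
    omega
  | succ f ih =>
    intro k
    have h0 : kc R z E p (f + 1) k = Bool.rec (motive := fun _ => ℕ) k (kc R z E p f (Nat.succ k))
      (Ld.rt R z E p (Nat.succ k)) := rfl
    rw [h0]
    rcases h1 : Ld.rt R z E p (Nat.succ k) with _ | _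
    · have h2 : Kt ≤ k := by
        by_contra h3
        rw [hK (Nat.succ k) (by omega)] at h1
        exact absurd h1 (by simp)
      show min Kt (k + (f + 1)) ≤ k
      omega
    · have h2 := ih (Nat.succ k)
      show min Kt (k + (f + 1)) ≤ kc R z E p f (Nat.succ k)
      omega

/-- the numbers of a row -/
noncomputable def mkR (R : ℕ) (lo hi : Rw → Rw → ℕ) (L : List Rw) (z : Rw) : Rw × ℕ × ℕ × ℕ :=
  (z, ns hi L z, nm hi L z, kc R z (en z (ns hi L z) (nm hi L z)) (pin lo L z) 16 0)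

/-- a row is impossible -/
def Bad (R : ℕ) (lo hi : Rw → Rw → ℕ) (L : List Rw) (z : Rw) : Prop :=
  Ld.rt R z (en z (ns hi L z) (nm hi L z)) 0 0 = false ∨
    Ld.rt R z (en z (ns hi L z) (nm hi L z)) (pin lo L z) 0 = false

lemma prep_spec (lo hi : Rw → Rw → ℕ) (L : List Rw) (cont : List (Rw × ℕ × ℕ × ℕ) → Bool) :
    ∀ (M : List Rw) (acc : List (Rw × ℕ × ℕ × ℕ)), prep R lo hi L cont M acc = true →
      (∃ z ∈ M, Bad R lo hi L z) ∨ cont ((M.map (mkR R lo hi L)).reverse ++ acc) = true := by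
  intro M
  induction M with
  | nil =>
    intro acc h
    right
    exact h
  | cons z M ih =>
    intro acc h
    have h0 : prep R lo hi L cont (z :: M) acc = frc (ns hi L z) fun a => frc (nm hi L z) fun b =>
      frc (en z a b) fun E => Bool.rec (motive := fun _ => Bool) true
        (frc (pin lo L z) fun p => Bool.rec (motive := fun _ => Bool) true
          (frc (kc R z E p 16 0) fun k => prep R lo hi L cont M ((z, a, b, k) :: acc))
            (Ld.rt R z E p 0))
        (Ld.rt R z E 0 0) := rfl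
    rw [h0, frc_eq, frc_eq, frc_eq] at h
    rcases h1 : Ld.rt R z (en z (ns hi L z) (nm hi L z)) 0 0 with _ | _
    · left
      exact ⟨z, List.mem_cons_self, Or.inl h1⟩
    · rw [h1] at h
      rw [frc_eq] at h
      rcases h2 : Ld.rt R z (en z (ns hi L z) (nm hi L z)) (pin lo L z) 0 with _ | _
      · left
        exact ⟨z, List.mem_cons_self, Or.inr h2⟩
      · rw [h2] at h
        rw [frc_eq] at h
        rcases ih _ h with ⟨y, hy, h3⟩ | h3
        · left
          exact ⟨y, List.mem_cons_of_mem _ hy, h3⟩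
        · right
          rw [List.map_cons, List.reverse_cons, List.append_assoc]
          exact h3

variable (C : Ctx R n t s h e mu m P K N W r L) {lo hi : Rw → Rw → ℕ}

include C in
/-- the number of PC ends fixed at a row -/
lemma pin_spec (I : C.Iv lo hi) {z : ℕ} (hz : z < n) :
    pin lo L (r z) ≤ ∑ x ∈ (range n).erase z, P x z := by
  have h1 : pin lo L (r z) = ∑ j ∈ (range n).erase z, lo (r j) (r z) :=
    C.lsum (fun y => lo y (r z)) hz
  rw [h1]
  exact sum_le_sum fun x hx => I.lo x (mem_range.1 (mem_of_mem_erase hx)) z hz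
    (ne_of_mem_erase hx)

include C in
/-- no row is impossible -/
lemma not_bad (I : C.Iv lo hi) {z : Rw} (hz : z ∈ L) : ¬ Bad R lo hi L z := by
  obtain ⟨j, hj, rfl⟩ := C.mem hz
  have hE := C.en_spec I.hi hj
  have hpin := pin_spec C I hj
  have h2 : ∑ x ∈ (range n).erase j, P x j ≤ ∑ x ∈ (range n).erase j, (P x j + K x j) :=
    sum_le_sum fun x _ => Nat.le_add_right _ _
  rintro (h1 | h1)
  · rw [C.rt_spec hj hE (Nat.zero_le _) (by omega)] at h1
    exact absurd h1 (by simp)
  · rw [C.rt_spec hj hE hpin (by omega)] at h1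
    exact absurd h1 (by simp)

include C in
/-- the slack of a cell bounds the good ends of the host -/
lemma slk_spec (I : C.Iv lo hi) {x z : ℕ} (hx : x < n) (hz : z < n) (hxz : x ≠ z) :
    (P x z + K x z - lo (r x) (r z)) * (2 * (r z).g)
      ≤ slk R lo hi (mkR R lo hi L (r x)) (mkR R lo hi L (r z)) := by
  obtain ⟨a1, a2⟩ := C.ns_spec I.hi hx
  obtain ⟨b1, b2⟩ := C.ns_spec I.hi hz
  have hzx : z ∈ (range n).erase x := mem_erase.2 ⟨hxz.symm, mem_range.2 hz⟩
  have hxz' : x ∈ (range n).erase z := mem_erase.2 ⟨hxz, mem_range.2 hx⟩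
  -- the excess outside the cell
  have key : ∀ x z : ℕ, x < n → z < n → x ≠ z → z ∈ (range n).erase x →
      ∑ j ∈ (range n).erase x, N x j ≤ N x z + 2 * ((mi (Nat.sub (ns hi L (r x))
        (Nat.mul (hi (r x) (r z)) (nb (r x) (r z)))) (nm hi L (r x)) : ℕ) : ℤ) := by
    intro x z hx hz hxz hzx
    obtain ⟨a1, a2⟩ := C.ns_spec I.hi hx
    rw [← add_sum_erase _ _ hzx]
    have h1 := C.nm_spec I.hi hx (S := ((range n).erase x).erase z) (erase_subset _ _)
    have h2 : ∑ j ∈ ((range n).erase x).erase z, N x j ≤ 2 * ((Nat.sub (ns hi L (r x))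
        (Nat.mul (hi (r x) (r z)) (nb (r x) (r z))) : ℕ) : ℤ) := by
      have h3 : Nat.sub (ns hi L (r x)) (Nat.mul (hi (r x) (r z)) (nb (r x) (r z)))
          = ∑ j ∈ ((range n).erase x).erase z, hi (r x) (r j) * nb (r x) (r j) := by
        rw [a1, ← add_sum_erase _ _ hzx]
        exact Nat.add_sub_cancel_left _ _
      rw [h3]
      push_cast
      rw [mul_sum]
      refine sum_le_sum fun j hj => ?_
      have := a2 j (mem_of_mem_erase hj)
      push_cast at this
      exact this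
    rw [mi_eq]
    push_cast
    rcases le_total ((Nat.sub (ns hi L (r x)) (Nat.mul (hi (r x) (r z)) (nb (r x) (r z))) : ℕ) : ℤ)
      (nm hi L (r x) : ℤ) with h7 | h7
    · rw [min_eq_left h7]
      linarith
    · rw [min_eq_right h7]
      linarith
  have k1 := key x z hx hz hxz hzx
  have k2 := key z x hz hx hxz.symm hxz'
  have hpair := C.H.pair x hx z hz hxz
  have e1 := C.H.en x hx
  have e2 := C.H.en z hz
  have hnet := C.H.net x hx z hz hxz
  -- the net excess
  have hn : (if P x z + P z x = 2 then (6 : ℤ) else 2 * ((P x z : ℤ) + P z x))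
      ≤ (net R hi (r x) (r z) : ℤ) := by
    have p1 := I.hi x hx z hz hxz
    have p2 := I.hi z hz x hx hxz.symm
    have p3 := C.H.pc2 x hx z hz hxz
    have p4 := C.H.pc1 x hx z hz hxz
    have hnn : net R hi (r x) (r z) = Nat.rec (motive := fun _ => ℕ) 0
      (fun m _ => Nat.rec (motive := fun _ => ℕ) 2
        (fun _ _ => Bool.rec (motive := fun _ => ℕ) 2 6
          (Nat.ble R (Nat.add (Nat.mul (r x).t (r z).t) 4))) m)
      (Nat.add (hi (r x) (r z)) (hi (r z) (r x))) := rfl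
    have hadd : Nat.add (hi (r x) (r z)) (hi (r z) (r x)) = hi (r x) (r z) + hi (r z) (r x) := rfl
    rw [hnn, hadd]
    rcases h1 : hi (r x) (r z) + hi (r z) (r x) with _ | _ | k
    · have h2 : P x z = 0 := by omega
      have h3 : P z x = 0 := by omega
      rw [h2, h3]
      norm_num
    · have h2 : P x z + P z x ≤ 1 := by omega
      rw [if_neg (by omega)]
      show 2 * ((P x z : ℤ) + P z x) ≤ ((2 : ℕ) : ℤ)
      push_cast
      have : ((P x z : ℤ) + P z x) ≤ 1 := by exact_mod_cast h2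
      linarith
    · rcases h2 : Nat.ble R (Nat.add (Nat.mul (r x).t (r z).t) 4) with _ | _
      · show _ ≤ ((2 : ℕ) : ℤ)
        have h3 : P x z + P z x ≠ 2 := by
          intro h4
          have h5 := p4 h4
          rw [← C.rt x hx, ← C.rt z hz] at h5
          have h6 : R ≤ (r x).t * (r z).t + 4 := by exact_mod_cast h5
          have h7 : Nat.ble R (Nat.add (Nat.mul (r x).t (r z).t) 4) = true :=
            Nat.ble_eq_true_of_le h6
          rw [h7] at h2
          exact absurd h2 (by simp)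
        rw [if_neg h3]
        have h4 : P x z + P z x ≤ 1 := by omega
        have : ((P x z : ℤ) + P z x) ≤ 1 := by exact_mod_cast h4
        push_cast
        linarith
      · show _ ≤ ((6 : ℕ) : ℤ)
        have : ((P x z : ℤ) + P z x) ≤ 2 := by exact_mod_cast p3
        split_ifs
        · norm_num
        · push_cast
          linarith
  set nx : ℕ := mi (Nat.sub (ns hi L (r x)) (Nat.mul (hi (r x) (r z)) (nb (r x) (r z))))
    (nm hi L (r x)) with hnx
  set nz : ℕ := mi (Nat.sub (ns hi L (r z)) (Nat.mul (hi (r z) (r x)) (nb (r z) (r x))))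
    (nm hi L (r z)) with hnz
  have hs : slk R lo hi (mkR R lo hi L (r x)) (mkR R lo hi L (r z))
      = ((r x).B + (r z).B + (2 * (nx + nz) + net R hi (r x) (r z))
        + 2 * (R + 1 + (r x).h * (r z).h + (((r x).t + 1) * ((r z).t + 1)
          + (R - 1) * ((r x).t + (r z).t + 2))))
        - 2 * ((R - 1) * ((r x).h + (r z).h) + ((r x).h * ((r z).t + 1) + (r z).h * ((r x).t + 1))
          + (lo (r x) (r z) * (r z).c + lo (r z) (r x) * (r x).c)) := rfl
  rw [hs]
  have l1 := I.lo x hx z hz hxz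
  have l2 := I.lo z hz x hx hxz.symm
  refine Nat.le_sub_of_add_le ?_
  have hR := C.R2
  obtain ⟨R', rfl⟩ : ∃ R', R = R' + 1 := ⟨R - 1, by omega⟩
  rw [Nat.add_sub_cancel]
  obtain ⟨y, hy⟩ : ∃ y, P x z + K x z = lo (r x) (r z) + y := ⟨P x z + K x z - lo (r x) (r z),
    by omega⟩
  rw [hy, Nat.add_sub_cancel_left]
  have c1 := C.rc x hx
  have c2 := C.rc z hz
  have g1 := C.rg x hx
  have g2 := C.rg z hz
  have gc1 : ((r x).g : ℤ) ≤ (r x).c := by
    rw [g1, c1]
    have h5 := C.m0 x hx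
    have h6 := C.H.tR x hx
    exact max_le (by linarith) (by linarith)
  have gc2 : ((r z).g : ℤ) ≤ (r z).c := by
    rw [g2, c2]
    have h5 := C.m0 z hz
    have h6 := C.H.tR z hz
    exact max_le (by linarith) (by linarith)
  rw [← g1, ← g2, ← c1, ← c2] at hpair
  have hh1 := C.H.hh x hx
  have hh2 := C.H.hh z hz
  rw [← C.rt x hx, ← C.rh x hx] at hh1
  rw [← C.rt z hz, ← C.rh z hz] at hh2
  have s1 : s x = (r x).h - (r x).t - 1 := by linarith
  have s2 : s z = (r z).h - (r z).t - 1 := by linarith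
  rw [s1, s2] at hpair
  have B1 := C.rB x hx
  have B2 := C.rB z hz
  have hyZ : (P x z : ℤ) + K x z = lo (r x) (r z) + y := by exact_mod_cast hy
  -- the hits
  have hit1 : (lo (r x) (r z) : ℤ) * (r z).c + y * (r z).g
      ≤ P x z * (r z).c + K x z * (r z).g := by
    have h1 : (lo (r x) (r z) : ℤ) ≤ P x z := by exact_mod_cast l1
    nlinarith
  have hit2 : (lo (r z) (r x) : ℤ) * (r x).c ≤ P z x * (r x).c + K z x * (r x).g := by
    have h1 : (lo (r z) (r x) : ℤ) ≤ P z x := by exact_mod_cast l2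
    have h2 : (0 : ℤ) ≤ (r x).c := Int.natCast_nonneg _
    have h3 : (0 : ℤ) ≤ K z x * (r x).g := by positivity
    nlinarith
  zify
  push_cast at hpair hn ⊢
  nlinarith

end Ctx

end Ld

end Pool.Agent.Lib.MP_f04ccf_co
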