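import Pool.Agent.Lib.MP_f04ccf_co.M.LdT

/-!
MP_f04ccf_co, PLAN W, finite part: **the loads, second form** (for the checker `Le`).
`ItC.ldc2`: the loads for every `R` with `t i * t j + 9 < 2 * R`;
`LvI.tE5`: the row test for ends with the Turan term; `LdX`, `ItC.ldx`: the number of plain items
of a host and the row test with the Turan term.
-/

set_option autoImplicit false

namespace Pool.Agent.Lib.MP_f04ccf_co

open Finset

attribute [local instance] Classical.propDecidable

/-- **the loads**: the plain items of a host, the row test with the Turan term -/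
structure LdX (R : ℤ) (n : ℕ) (t s h e mu m : ℕ → ℤ) (P K : ℕ → ℕ → ℕ) : Prop where
  prt : ∀ x < n, mu x ≤ ∑ j ∈ (range n).erase x, (P x j : ℤ) + (h x - mu x) * (n - 1)
  kk2 : ∀ x < n, ∀ z < n, x ≠ z → (K x z : ℤ) ≤ 2 * (h x - mu x)
  rowq : ∀ z < n, ∀ a b : ℕ, a ≤ ∑ x ∈ (range n).erase z, P x z →
    b ≤ ∑ x ∈ (range n).erase z, K x z → -4 ≤ s z → ∀ q : ℕ, q * n ≤ 2 * (a + b) →
    2 * R * s z + 2 * (a * (R - t z) + b * max 0 (R - t z - m z))
        + q * (4 * ((a : ℤ) + b) - n * (q + 1))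
      ≤ 2 * e z + 4 * ((a : ℤ) + b) * (s z + 1) + 2 * ((a : ℤ) + b) * (2 * ((a : ℤ) + b) - 1)

section Ends

open Lv

variable {ι : Type*} {R : ℤ} {n : ℕ} {t s h e : ℕ → ℤ} {U : Finset ι} {ho : ι → ℕ} {vl : ι → ℤ}
  {kp ms mr mn : ℕ → ι → ℤ} {mu : ℕ → ℤ} {be : ℕ → ℕ → ℤ} {pc ar : ι → ℤ}

/-- the row test for ends with the Turan term -/
theorem LvI.tE5 (H : LvI R n t s h e U ho vl kp ms mr mn mu be pc ar) (n5 : 5 ≤ n)
    (m0 : ∀ u ∈ U, ∀ i < n, 0 ≤ ms i u) {i : ℕ} (hi : i < n) {K : Finset (ι × ℕ)}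
    (hK : K ⊆ ens U ho kp i) (h0 : -4 ≤ s i) {q : ℕ} (hq : q * n ≤ 2 * K.card) :
    2 * R * s i + 2 * ∑ x ∈ K, (R - t i - bm kp mn i x) + q * (4 * (K.card : ℤ) - n * (q + 1))
      ≤ 2 * e i + 4 * K.card * (s i + 1) + 2 * K.card * (2 * K.card - 1) := by
  have hmn : ∀ u ∈ U, 0 ≤ mn i u := fun u hu => (m0 u hu i hi).trans (H.msn u hu i hi)
  have h1 := H.rlv i hi (its K) (its_sub hK) (its_ho hK) (lev K) (fun u hu => lev_pos hu)
    (fun u hu => lev_le hK hu) q
  have h2 := hits_le hmn (R - t i) hK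
  have hP : ∑ u ∈ its K, ((lev K u : ℤ) + 1) ≤ 2 * K.card := by
    rw [← card_eq K, mul_sum]
    exact sum_le_sum fun u hu => by
      have : (1 : ℤ) ≤ lev K u := by exact_mod_cast lev_pos hu
      linarith
  have hP0 : 3 * (K.card : ℤ) ≤ 2 * ∑ u ∈ its K, ((lev K u : ℤ) + 1) := by
    rw [← card_eq K, mul_sum, mul_sum]
    exact sum_le_sum fun u hu => by
      have : (lev K u : ℤ) ≤ 2 := by exact_mod_cast lev_two hK u
      linarith
  set P := ∑ u ∈ its K, ((lev K u : ℤ) + 1)
  have hq5 : q * 5 ≤ 2 * K.card := (Nat.mul_le_mul_left q n5).trans hq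
  have hq5' : (q : ℤ) * 5 ≤ 2 * (K.card : ℤ) := by exact_mod_cast hq5
  set k : ℤ := (K.card : ℤ) with hk
  have hk0 : 0 ≤ k := by rw [hk]; exact Int.natCast_nonneg _
  have hq0 : (0 : ℤ) ≤ q := Int.natCast_nonneg _
  have h3 : 0 ≤ (2 * k - P) * (2 * s i + 2 + P + 2 * k - 1 - 2 * q) := by
    rcases eq_or_lt_of_le hP with h4 | h4
    · rw [h4]
      simp
    · refine mul_nonneg (by linarith) ?_
      have h5 : k ≤ 0 ∨ k = 1 ∨ k = 2 ∨ 3 ≤ k := by omega
      rcases h5 with h5 | h5 | h5 | h5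
      · omega
      · omega
      · have h6 : (q : ℤ) ≤ 0 := by omega
        omega
      · linarith
  nlinarith

end Ends

section FromItC

open Lv

variable {ι : Type*} {R : ℤ} {n : ℕ} {t s h e : ℕ → ℤ} {E : ℕ → ℕ → ℤ} {U : Finset ι}
  {ho : ι → ℕ} {vl : ι → ℤ} {kp ms mr mn : ℕ → ι → ℤ} {mu Nb : ℕ → ℤ} {Nx : ℕ → ℕ → ℤ}
  {be : ℕ → ℕ → ℤ} {ls : ℕ → ℤ → ℤ} {pc ar : ι → ℤ} {aT : ℕ → ℤ} {NN FF pw : ℕ → ℕ → ℤ}
  {nu : ℕ → ι → ℤ}

namespace ItC

/-- the values of a cell, general form -/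
lemma cellV2 (H : ItC R n t s h e E U ho vl kp ms mr mu Nb Nx be ls pc ar aT NN FF pw nu)
    {i j : ℕ} (hi : i < n) (hj : j < n) (hij : i ≠ j)
    (hq : R ≤ t i * t j + 4 → ∀ a : ℤ, 0 ≤ a → t i * t j + 1 < (a + 1) ^ 2 →
      t i * t j + 4 - R < a * (a - 1))
    (h2 : be i j + be j i ≤ 2) :
    (∀ a : ℤ, 0 ≤ a → t i * t j + 1 < (a + 1) ^ 2 → NN i j ≤ 2 * (be i j * (1 + a))) ∧
      NN i j + NN j i ≤ 2 * FF i j
        + if be i j + be j i = 2 then 6 else 2 * (be i j + be j i) := by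
  have b1 := H.be0 i hi j hj
  have b2 := H.be0 j hj i hi
  obtain ⟨M, hM, m1, m2⟩ := H.exM hi hj
  obtain ⟨M', hM', m1', m2'⟩ := H.exM hj hi
  have n1 := H.NNb i hi j hj
  have n2 := H.NNb j hj i hi
  have c1 := H.cellP i hi j hj hij
  have f0 := H.FF0 i hi j hj
  have f1 := H.FFs j hj i hi
  rw [f1] at m2'
  have hc : (be i j = 0 ∧ be j i = 0) ∨ (be i j = 1 ∧ be j i = 0) ∨ (be i j = 0 ∧ be j i = 1) ∨
      (be i j = 2 ∧ be j i = 0) ∨ (be i j = 1 ∧ be j i = 1) ∨ (be i j = 0 ∧ be j i = 2) := by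
    omega
  rcases hc with ⟨p1, p2⟩ | ⟨p1, p2⟩ | ⟨p1, p2⟩ | ⟨p1, p2⟩ | ⟨p1, p2⟩ | ⟨p1, p2⟩
  · have z1 := H.NNz i hi j hj p1
    have z2 := H.NNz j hj i hi p2
    rw [z1, z2, p1, p2]
    refine ⟨fun a _ _ => by norm_num, ?_⟩
    norm_num
    exact f0
  · have z2 := H.NNz j hj i hi p2
    obtain ⟨m3, m4⟩ := m2 (by rw [p1])
    rw [p1] at n1 m1 ⊢
    rw [p2] at m3 ⊢
    rw [z2]
    refine ⟨fun a ha h3 => ?_, ?_⟩
    · have h5 : M ≤ a := by
        by_contra h6
        push Not at h6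
        nlinarith
      nlinarith
    · norm_num
      nlinarith
  · have z1 := H.NNz i hi j hj p1
    obtain ⟨m3, m4⟩ := m2' (by rw [p2])
    rw [p2] at n2 m1' ⊢
    rw [p1] at m3 ⊢
    rw [z1]
    refine ⟨fun a ha h3 => by norm_num, ?_⟩
    norm_num
    nlinarith
  · have z2 := H.NNz j hj i hi p2
    obtain ⟨m3, m4⟩ := m2 (by rw [p1]; norm_num)
    rw [p1] at n1 m1 ⊢
    rw [p2] at m3 ⊢
    rw [p1, p2, z2] at c1
    rw [z2]
    have h4 : M ^ 2 - M ≤ t i * t j + 4 - R := by nlinarith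
    refine ⟨fun a ha h3 => ?_, ?_⟩
    · have h5 : M + 1 ≤ a := by
        by_contra h6
        push Not at h6
        have h7 : a ≤ M := by omega
        have h8 : 0 ≤ M ^ 2 - M := by
          rcases eq_or_lt_of_le hM with h9 | h9
          · rw [← h9]
            norm_num
          · nlinarith
        have h9 := hq (by linarith) a ha h3
        have h10 : a * (a - 1) ≤ M ^ 2 - M := by
          rcases eq_or_lt_of_le ha with h11 | h11
          · rw [← h11]
            linarith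
          · nlinarith
        linarith
      nlinarith
    · norm_num
      nlinarith
  · obtain ⟨m3, m4⟩ := m2 (by rw [p1])
    obtain ⟨m3', m4'⟩ := m2' (by rw [p2])
    rw [p1] at n1 m1 m3' ⊢
    rw [p2] at n2 m1' m3 ⊢
    refine ⟨fun a ha h3 => ?_, ?_⟩
    · have h5 : M ≤ a := by
        by_contra h6
        push Not at h6
        nlinarith
      nlinarith
    · norm_num
      nlinarith [sq_nonneg (M - 1), sq_nonneg (M' - 1)]
  · have z1 := H.NNz i hi j hj p1
    obtain ⟨m3, m4⟩ := m2' (by rw [p2]; norm_num)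
    rw [p2] at n2 m1' ⊢
    rw [p1] at m3 ⊢
    rw [z1]
    refine ⟨fun a ha h3 => by norm_num, ?_⟩
    norm_num
    nlinarith

end ItC

/-- **the loads of the items of version [C]**, general form -/
theorem ItC.ldc2 (H : ItC R n t s h e E U ho vl kp ms mr mu Nb Nx be ls pc ar aT NN FF pw nu)
    (L : LvI R n t s h e U ho vl kp ms mr mn mu be pc ar)
    (ht : ∀ i < n, ∀ j < n, i ≠ j → t i * t j + 9 < 2 * R)
    (hq : ∀ i < n, ∀ j < n, i ≠ j → R ≤ t i * t j + 4 → ∀ a : ℤ, 0 ≤ a →
      t i * t j + 1 < (a + 1) ^ 2 → t i * t j + 4 - R < a * (a - 1))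
    (hj : ∀ i < n, ∀ j < n, i ≠ j → ∀ k : ℕ, 1 ≤ k → (k : ℤ) ≤ be i j + be j i →
      ((k : ℤ) - 1) * R ≤ t i * t j + (k : ℤ) ^ 2)
    {m : ℕ → ℤ} (hm0 : ∀ i < n, 0 ≤ m i)
    (hm : ∀ i < n, ∀ j < n, i ≠ j → R + t i * t j < (m i + 1) * (m j + 1)) :
    LdC R n t s h e mu m (fun x z => (ldP U ho kp pc x z).card)
      (fun x z => (ldK U ho kp mn pc m x z).card) NN FF := by
  have hP : ∀ x < n, ∀ z < n, x ≠ z → ((ldP U ho kp pc x z).card : ℤ) = be x z :=
    fun x hx z hz hxz => H.card_ldP L hx hz hxz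
  have h2 : ∀ i < n, ∀ j < n, i ≠ j → be i j + be j i ≤ 2 := by
    intro i hi j hjn hij
    by_contra h3
    push Not at h3
    have h4 := hj i hi j hjn hij 3 (by norm_num) (by push_cast; linarith)
    have h5 := ht i hi j hjn hij
    push_cast at h4
    linarith
  have hmu0 : ∀ i < n, 0 ≤ mu i := fun i hi => H.mu0 hi
  refine ⟨H.t0, H.tR, H.h0, H.hh, hmu0, H.muh, ?_, ?_, ?_, ?_, ?_, ?_, ?_, ?_, ?_⟩
  · intro i hi
    have h3 := H.en i hi
    rw [H.nbC i hi, sum_eq_zero (s := (range n).erase i) (f := fun j => Nx i j) fun j hj' =>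
      H.nxC i hi j (mem_range.1 (mem_of_mem_erase hj'))] at h3
    linarith
  · intro i hi
    refine le_trans (le_of_eq ?_) (H.bem i hi)
    exact sum_congr rfl fun j hj' => hP i hi j (mem_range.1 (mem_of_mem_erase hj'))
      (ne_of_mem_erase hj').symm
  · intro x hx
    rw [H.hmu x hx]
    have h3 : ∀ u ∈ U.filter (fun u => ho u = x), vl u
        ≤ ∑ i ∈ range n, (kp i u - if m i < mn i u then 1 else 0) := fun u hu =>
      L.pot1 H.m0 H.mrk hm0 (mem_filter.1 hu).1 fun i hi j hj' hij _ _ => hm i hi j hj' hij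
    refine (sum_le_sum h3).trans ?_
    rw [sum_comm, ← add_sum_erase _ _ (mem_range.2 hx)]
    have h4 : ∑ u ∈ U.filter (fun u => ho u = x), (kp x u - if m x < mn x u then 1 else 0) ≤ 0 := by
      refine sum_nonpos fun u hu => ?_
      obtain ⟨hU, hux⟩ := mem_filter.1 hu
      have h5 := H.kh u hU
      rw [hux] at h5
      rw [h5]
      split_ifs <;> norm_num
    have h5 : ∑ i ∈ (range n).erase x, ∑ u ∈ U.filter (fun u => ho u = x),
        (kp i u - if m i < mn i u then 1 else 0)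
        ≤ ∑ j ∈ (range n).erase x, (((ldP U ho kp pc x j).card : ℤ)
          + (ldK U ho kp mn pc m x j).card) := by
      refine sum_le_sum fun i hi => ?_
      have hin := mem_range.1 (mem_of_mem_erase hi)
      exact H.sup_item L hin (hm0 i hin) (ne_of_mem_erase hi).symm
    linarith
  · intro z hz a b ha hb h0
    obtain ⟨K1, hK1, c1⟩ := exists_subset_card_eq (s := ldPZ U ho kp pc z) (n := a)
      (by rw [H.card_ldPZ z]; exact ha)
    obtain ⟨K2, hK2, c2⟩ := exists_subset_card_eq (s := ldKZ U ho kp mn pc m z) (n := b)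
      (by rw [H.card_ldKZ m z]; exact hb)
    have hd : Disjoint K1 K2 := by
      rw [disjoint_left]
      intro p hp hp'
      have h3 := (mem_filter.1 (hK1 hp)).2
      have h4 := (mem_filter.1 (hK2 hp')).2.1
      rw [h3] at h4
      norm_num at h4
    have hcard : ((K1 ∪ K2).card : ℤ) = (a : ℤ) + b := by
      rw [card_union_of_disjoint hd, c1, c2]
      push_cast
      rfl
    have h3 := L.tE4 H.m0 hz (K := K1 ∪ K2) (union_subset (hK1.trans (filter_subset _ _))
      (hK2.trans (filter_subset _ _))) (by rw [hcard]; exact h0)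
    rw [sum_union hd, hcard] at h3
    have h4 : (a : ℤ) * (R - t z) ≤ ∑ x ∈ K1, (R - t z - bm kp mn z x) := by
      rw [← c1, ← nsmul_eq_mul]
      refine card_nsmul_le_sum _ _ _ fun p hp => ?_
      obtain ⟨h4, h5⟩ := mem_filter.1 (hK1 hp)
      rw [L.bm_pc hz h4 h5]
      linarith
    have h5 : (b : ℤ) * max 0 (R - t z - m z) ≤ ∑ x ∈ K2, (R - t z - bm kp mn z x) := by
      rw [← c2, ← nsmul_eq_mul]
      refine card_nsmul_le_sum _ _ _ fun p hp => ?_
      have h4 := (mem_filter.1 (hK2 hp)).2.2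
      refine max_le ?_ (by linarith)
      have hU := (mem_ens.1 (mem_filter.1 (hK2 hp)).1).1
      have h5 := L.mnc p.1 hU z hz
      have h6 := H.tR z hz
      unfold bm
      split_ifs
      · linarith
      · linarith
    linarith
  · intro x hx z hz hxz
    have h3 := H.low x hx z hz hxz
    have h4 := H.pairF x hx z hz hxz
    have h5 := H.hits_ld L (m := m) hz hxz
    have h6 := H.hits_ld L (m := m) hx hxz.symm
    have h7 := le_max_left (0 : ℤ) ((R - t x) * (∑ u ∈ U.filter (fun u => ho u = z), kp x u - 1 - s z)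
        - ls x (∑ u ∈ U.filter (fun u => ho u = z), kp x u - 1 - s z)
        - ∑ u ∈ U.filter (fun u => ho u = z), ms x u)
    have h8 := le_max_left (0 : ℤ) ((R - t z) * (∑ u ∈ U.filter (fun u => ho u = x), kp z u - 1 - s x)
        - ls z (∑ u ∈ U.filter (fun u => ho u = x), kp z u - 1 - s x)
        - ∑ u ∈ U.filter (fun u => ho u = x), ms z u)
    linarith
  · intro x hx z hz hxz
    have h3 := h2 x hx z hz hxz
    rw [← hP x hx z hz hxz, ← hP z hz x hx hxz.symm] at h3
    exact_mod_cast h3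
  · intro x hx z hz hxz h3
    have h4 : be x z + be z x = 2 := by
      rw [← hP x hx z hz hxz, ← hP z hz x hx hxz.symm]
      exact_mod_cast h3
    have h5 := hj x hx z hz hxz 2 (by norm_num) (by rw [h4]; norm_num)
    push_cast at h5
    linarith
  · intro x hx z hz hxz a ha h3
    have h4 := (H.cellV2 hx hz hxz (hq x hx z hz hxz) (h2 x hx z hz hxz)).1 a ha h3
    rw [← hP x hx z hz hxz] at h4
    exact h4
  · intro x hx z hz hxz
    have h4 := (H.cellV2 hx hz hxz (hq x hx z hz hxz) (h2 x hx z hz hxz)).2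
    rw [← hP x hx z hz hxz, ← hP z hz x hx hxz.symm] at h4
    by_cases h5 : (ldP U ho kp pc x z).card + (ldP U ho kp pc z x).card = 2
    · rw [if_pos h5]
      rw [if_pos (by exact_mod_cast h5)] at h4
      exact h4
    · rw [if_neg h5]
      rw [if_neg (by exact_mod_cast h5)] at h4
      exact h4

/-- **the plain items of a host and the row test with the Turan term** -/
theorem ItC.ldx (H : ItC R n t s h e E U ho vl kp ms mr mu Nb Nx be ls pc ar aT NN FF pw nu)
    (L : LvI R n t s h e U ho vl kp ms mr mn mu be pc ar) (n5 : 5 ≤ n) {m : ℕ → ℤ} :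
    LdX R n t s h e mu m (fun x z => (ldP U ho kp pc x z).card)
      (fun x z => (ldK U ho kp mn pc m x z).card) := by
  refine ⟨fun x hx => ?_, fun x hx z hz hxz => ?_, fun z hz a b ha hb h0 q hq => ?_⟩
  · have h1 : ∑ j ∈ (range n).erase x, (((ldP U ho kp pc x j).card : ℕ) : ℤ)
        = ∑ j ∈ (range n).erase x, be x j := sum_congr rfl fun j hj =>
      H.card_ldP L hx (mem_range.1 (mem_of_mem_erase hj)) (ne_of_mem_erase hj).symm
    rw [h1]
    have h2 : ∑ u ∈ U.filter (fun u => ho u = x), pc u ≤ ∑ j ∈ (range n).erase x, be x j := by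
      rw [sum_congr rfl fun j hj => (H.pcb x hx j (mem_range.1 (mem_of_mem_erase hj))).symm,
        sum_comm]
      refine sum_le_sum fun u hu => ?_
      obtain ⟨hU, hux⟩ := mem_filter.1 hu
      rw [← mul_sum]
      rcases H.pcf u hU with h3 | h3
      · rw [h3, zero_mul]
      · rcases L.one u hU with ⟨i, hi, b1, b2, b3, b4⟩ | ⟨b1, -⟩
        · have hix : i ≠ x := by
            rintro rfl
            have h4 := H.kh u hU
            rw [hux, b1] at h4
            norm_num at h4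
          have h5 : kp i u ≤ ∑ j ∈ (range n).erase x, kp j u :=
            single_le_sum (f := fun j => kp j u) (fun j hj =>
              H.k0 u hU j (mem_range.1 (mem_of_mem_erase hj)))
              (mem_erase.2 ⟨hix, mem_range.2 hi⟩)
          rw [h3]
          linarith
        · rw [h3] at b1
          norm_num at b1
    have h3 := L.prt x hx
    have h4 : mu x ≤ ∑ u ∈ U.filter (fun u => ho u = x), (pc u + (1 - pc u) * ((n : ℤ) - 1)) := by
      rw [H.hmu x hx]
      refine sum_le_sum fun u hu => ?_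
      have hU := (mem_filter.1 hu).1
      rcases H.pcf u hU with h5 | h5
      · have h6 := L.vln u hU
        rw [h5]
        linarith
      · have h6 := H.pcv u hU (by rw [h5]; norm_num)
        rw [h5, h6]
        norm_num
    rw [sum_add_distrib, ← sum_mul] at h4
    have h5 : (0 : ℤ) ≤ (n : ℤ) - 1 := by
      have : (5 : ℤ) ≤ n := by exact_mod_cast n5
      linarith
    have h6 := mul_le_mul_of_nonneg_right h3 h5
    linarith
  · have h1 : ((ldK U ho kp mn pc m x z).card : ℤ)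
        = ∑ p ∈ (ens U ho kp z).filter (fun p => ho p.1 = x),
          if pc p.1 = 0 ∧ bm kp mn z p ≤ m z then (1 : ℤ) else 0 := by
      have h3 : ldK U ho kp mn pc m x z = ((ens U ho kp z).filter fun p => ho p.1 = x).filter
          fun p => pc p.1 = 0 ∧ bm kp mn z p ≤ m z := by
        unfold ldK
        rw [filter_filter]
      rw [h3, card_filter]
      push_cast
      rfl
    have h2 := L.prt x hx
    rw [h1, sum_ends hxz fun p => if pc p.1 = 0 ∧ bm kp mn z p ≤ m z then (1 : ℤ) else 0]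
    have h3 : ∀ u ∈ U.filter (fun u => ho u = x), (∑ l ∈ range 2,
        if (l : ℤ) < kp z u then (if pc (u, l).1 = 0 ∧ bm kp mn z (u, l) ≤ m z then (1 : ℤ) else 0)
        else 0) ≤ 2 * (1 - pc u) := by
      intro u hu
      have hU := (mem_filter.1 hu).1
      rcases H.pcf u hU with h5 | h5
      · rw [h5, sum_range_succ, sum_range_one]
        split_ifs <;> norm_num
      · rw [h5, sum_range_succ, sum_range_one]
        simp [h5]
    have h4 := sum_le_sum h3
    rw [← mul_sum] at h4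
    linarith
  · obtain ⟨K1, hK1, c1⟩ := exists_subset_card_eq (s := ldPZ U ho kp pc z) (n := a)
      (by rw [H.card_ldPZ z]; exact ha)
    obtain ⟨K2, hK2, c2⟩ := exists_subset_card_eq (s := ldKZ U ho kp mn pc m z) (n := b)
      (by rw [H.card_ldKZ m z]; exact hb)
    have hd : Disjoint K1 K2 := by
      rw [disjoint_left]
      intro p hp hp'
      have h3 := (mem_filter.1 (hK1 hp)).2
      have h4 := (mem_filter.1 (hK2 hp')).2.1
      rw [h3] at h4
      norm_num at h4
    have hcN : (K1 ∪ K2).card = a + b := by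
      rw [card_union_of_disjoint hd, c1, c2]
    have hcard : ((K1 ∪ K2).card : ℤ) = (a : ℤ) + b := by
      rw [hcN]
      push_cast
      rfl
    have h3 := L.tE5 n5 H.m0 hz (K := K1 ∪ K2) (union_subset (hK1.trans (filter_subset _ _))
      (hK2.trans (filter_subset _ _))) h0 (q := q) (by rw [hcN]; exact hq)
    rw [sum_union hd, hcard] at h3
    have h4 : (a : ℤ) * (R - t z) ≤ ∑ x ∈ K1, (R - t z - bm kp mn z x) := by
      rw [← c1, ← nsmul_eq_mul]
      refine card_nsmul_le_sum _ _ _ fun p hp => ?_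
      obtain ⟨h4, h5⟩ := mem_filter.1 (hK1 hp)
      rw [L.bm_pc hz h4 h5]
      linarith
    have h5 : (b : ℤ) * max 0 (R - t z - m z) ≤ ∑ x ∈ K2, (R - t z - bm kp mn z x) := by
      rw [← c2, ← nsmul_eq_mul]
      refine card_nsmul_le_sum _ _ _ fun p hp => ?_
      have h4 := (mem_filter.1 (hK2 hp)).2.2
      refine max_le ?_ (by linarith)
      have hU := (mem_ens.1 (mem_filter.1 (hK2 hp)).1).1
      have h5 := L.mnc p.1 hU z hz
      have h6 := H.tR z hz
      unfold bm
      split_ifs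
      · linarith
      · linarith
    linarith

end FromItC

end Pool.Agent.Lib.MP_f04ccf_co
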