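import Pool.Agent.Lib.MP_f04ccf_co.M.LeC

/-!
MP_f04ccf_co, PLAN W, finite part: **the kernel test of the loads, second form**.
`Le.ldT R n rows`: as `Ld.ldT`, with thresholds computed from the thin rows up (verified by `okM`),
the Turan term in the row test and the number of plain items of a host.
-/

set_option autoImplicit false

namespace Pool.Agent.Lib.MP_f04ccf_co

open Finset

namespace Le

open Ld

/-- the Turan term of `j` ends -/
noncomputable def tq (n j : ℕ) : ℕ :=
  Ld.frc (Nat.div (Nat.mul 2 j) n) fun q =>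
    Nat.mul q (Nat.sub (Nat.mul 4 j) (Nat.mul n (Nat.succ q)))

/-- the row test: `p` PC ends, `k` good ends, `E` twice the energy (`true`: it holds) -/
noncomputable def rt (R n : ℕ) (z : Rw) (E p k : ℕ) : Bool :=
  Bool.rec (motive := fun _ => Bool) true
    (Ld.frc (Nat.add p k) fun j => Nat.ble (Nat.add (Nat.add (Nat.mul 2 (Nat.add (Nat.mul R z.h)
        (Nat.add (Nat.mul p z.c) (Nat.mul k z.g))))
        (Nat.mul j (Nat.add (Nat.mul 4 z.t) 2))) (tq n j))
      (Nat.add E (Nat.add (Nat.mul (Nat.mul 4 j) (Nat.add z.h j))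
        (Nat.mul (Nat.mul 2 R) (Nat.succ z.t)))))
    (Nat.ble z.t (Nat.add z.h 3))

/-- the cap of the good ends of a row -/
noncomputable def kc (R n : ℕ) (z : Rw) (E p : ℕ) (f : ℕ) : ℕ → ℕ :=
  Nat.rec (motive := fun _ => ℕ → ℕ) (fun k => k)
    (fun _ ih k => Bool.rec (motive := fun _ => ℕ) k (ih (Nat.succ k))
      (rt R n z E p (Nat.succ k))) f

/-- the number of PC pairs of a host -/
noncomputable def pou (hi : Rw → Rw → ℕ) (L : List Rw) (z : Rw) : ℕ :=
  lsum (fun y => Bool.rec (motive := fun _ => ℕ) (hi z y) 0 (Nat.beq z.i y.i)) L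

/-- the value of a host is not too large for its parts -/
noncomputable def prt (n : ℕ) (hi : Rw → Rw → ℕ) (L : List Rw) (z : Rw) : Bool :=
  Bool.rec (motive := fun _ => Bool)
    (Nat.ble z.mu (Nat.add (pou hi L z) (Nat.mul (Nat.sub z.h z.mu) (Nat.pred n))))
    true (Nat.ble z.mu (Nat.mul (Nat.sub z.h z.mu) (Nat.pred n)))

/-- the rows with their numbers, `true` if a row is impossible -/
noncomputable def prep (R n : ℕ) (lo hi : Rw → Rw → ℕ) (L : List Rw)
    (cont : List (Rw × ℕ × ℕ × ℕ) → Bool) (M : List Rw) : List (Rw × ℕ × ℕ × ℕ) → Bool :=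
  List.rec (motive := fun _ => List (Rw × ℕ × ℕ × ℕ) → Bool) cont
    (fun z _ ih acc => Ld.frc (ns hi L z) fun a => Ld.frc (nm hi L z) fun b =>
      Ld.frc (en z a b) fun E => Bool.rec (motive := fun _ => Bool) true
        (Bool.rec (motive := fun _ => Bool) true
        (Ld.frc (pin lo L z) fun p => Bool.rec (motive := fun _ => Bool) true
          (Ld.frc (kc R n z E p 16 0) fun k => ih ((z, a, b, k) :: acc)) (rt R n z E p 0))
          (prt n hi L z)) (rt R n z E 0 0)) M

/-- the cap of the good ends of the host `d` at the row `f`: at most two ends of every plain item -/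
noncomputable def cap (R : ℕ) (lo hi : Rw → Rw → ℕ) (d f : Rw × ℕ × ℕ × ℕ) : ℕ :=
  mi (Nat.add (Nat.sub (hi d.1 f.1) (lo d.1 f.1)) (Nat.mul 2 (Nat.sub d.1.h d.1.mu)))
    (Ld.cap R lo hi d f)

/-- the test of one host -/
noncomputable def host (R : ℕ) (lo hi : Rw → Rw → ℕ) (D : List (Rw × ℕ × ℕ × ℕ))
    (d : Rw × ℕ × ℕ × ℕ) : Bool :=
  Bool.rec (motive := fun _ => Bool)
    (Bool.rec (motive := fun _ => Bool) false
      (Nat.ble (Nat.succ (lsum (fun f => Bool.rec (motive := fun _ => ℕ)
        (Nat.add (cap R lo hi d f) (lo d.1 f.1)) 0 (Nat.beq d.1.i f.1.i)) D)) d.1.mu)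
      (Nat.ble d.1.mu 16)) false (Nat.beq d.1.mu 0)

/-- one node -/
noncomputable def node (R n : ℕ) (L : List Rw) (lo hi : Rw → Rw → ℕ) : Bool :=
  prep R n lo hi L (fun D => lany (host R lo hi D) D) L []

/-- the search over the cells -/
noncomputable def srch (R n : ℕ) (L : List Rw) (cs : List (Rw × Rw)) :
    (Rw → Rw → ℕ) → (Rw → Rw → ℕ) → Bool :=
  List.rec (motive := fun _ => (Rw → Rw → ℕ) → (Rw → Rw → ℕ) → Bool)
    (fun lo hi => node R n L lo hi)
    (fun c _ ih lo hi => Bool.rec (motive := fun _ => Bool)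
      (Bool.rec (motive := fun _ => Bool)
        (cfg R lo hi c.1 c.2 ih 0 0 && (cfg R lo hi c.1 c.2 ih 1 0 &&
          (cfg R lo hi c.1 c.2 ih 0 1 && (cfg R lo hi c.1 c.2 ih 2 0 &&
          (cfg R lo hi c.1 c.2 ih 1 1 && cfg R lo hi c.1 c.2 ih 0 2)))))
        true (node R n L lo hi))
      (ih lo hi) (Nat.beq (Nat.add (hi c.1 c.2) (hi c.2 c.1)) 0)) cs

/-- the rows with `q`, `true` if a row is impossible -/
noncomputable def top (R n : ℕ) (L : List Rw) (M : List Rw) : (List Rw → Bool) → Bool :=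
  List.rec (motive := fun _ => (List Rw → Bool) → Bool) (fun cont => cont [])
    (fun z _ ih cont => Ld.frc (en z (ns (cG R) L z) (nm (cG R) L z)) fun E =>
      Bool.rec (motive := fun _ => Bool) true
        (Bool.rec (motive := fun _ => Bool)
          (ih fun T => cont (⟨z.i, z.t, z.h, z.mu, z.B, z.c, z.g, 0⟩ :: T))
          (Bool.rec (motive := fun _ => Bool)
            (ih fun T => cont (⟨z.i, z.t, z.h, z.mu, z.B, z.c, z.g, 1⟩ :: T))
            (ih fun T => cont (⟨z.i, z.t, z.h, z.mu, z.B, z.c, z.g, 2⟩ :: T)) (rt R n z E 2 0))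
          (rt R n z E 1 0)) (rt R n z E 0 0)) M

/-- the threshold of a row from the thinner rows (stored in `q`) -/
noncomputable def thr (R t : ℕ) (T : List Rw) : ℕ :=
  List.rec (motive := fun _ => ℕ) (isq (Nat.add R (Nat.mul t t)))
    (fun b T' _ => lmax (fun y => Nat.div (Nat.add R (Nat.mul t y.t)) (Nat.succ y.q)) (b :: T')) T

/-- the raw rows, the threshold is stored in `q` -/
noncomputable def raw {δ : Type} (R : ℕ) (l : List (ℕ × ℕ × ℕ × δ)) :
    ℕ → (List Rw → Bool) → Bool :=
  List.rec (motive := fun _ => ℕ → (List Rw → Bool) → Bool) (fun _ cont => cont [])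
    (fun a _ ih k cont => ih (Nat.succ k) fun T =>
      Ld.frc (Nat.sub (Nat.mul 2 (Nat.mul a.2.2.1 a.2.1))
      (Nat.mul a.2.2.1 (Nat.succ a.2.2.1))) fun B =>
      Ld.frc (Nat.sub R a.1) fun c => Ld.frc (thr R a.1 T) fun m => Ld.frc (Nat.sub c m) fun g =>
      cont (⟨k, a.1, a.2.1, a.2.2.1, B, c, g, m⟩ :: T)) l

/-- one pair of rows, `true` if it is not fine -/
noncomputable def okP (R : ℕ) (x z : Rw) : Bool :=
  Ld.frc (Nat.mul x.t z.t) fun τ =>
    Bool.rec (motive := fun _ => Bool) true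
      (Bool.rec (motive := fun _ => Bool) true
        (Bool.rec (motive := fun _ => Bool) false
          (Ld.frc (isq (Nat.succ τ)) fun a => Bool.rec (motive := fun _ => Bool) true false
            (Nat.ble (Nat.add τ 5) (Nat.add R (Nat.mul a (Nat.pred a)))))
          (Nat.ble R (Nat.add τ 4)))
        (Nat.ble (Nat.succ (Nat.add R τ)) (Nat.mul (Nat.succ x.q) (Nat.succ z.q))))
      (Nat.ble (Nat.add τ 10) (Nat.mul 2 R))

/-- some pair of rows is not fine -/
noncomputable def okM (R : ℕ) (L : List Rw) : Bool :=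
  List.rec (motive := fun _ => Bool) false
    (fun x L' ih => Bool.rec (motive := fun _ => Bool) ih true (lany (okP R x) L')) L

/-- **the kernel test** -/
noncomputable def ldT {δ : Type} (R n : ℕ) (rows : List (ℕ × ℕ × ℕ × δ)) : Bool :=
  raw R rows 0 fun L => Bool.rec (motive := fun _ => Bool)
    (top R n L L fun L' => srch R n L' (prs L') (fun _ _ => 0) (fun x z => mi z.q (cG R x z)))
    false (okM R L)

end Le

end Pool.Agent.Lib.MP_f04ccf_co
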