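import Pool.Agent.Lib.MP_f04ccf_co.M.LeK

/-!
MP_f04ccf_co, PLAN W, finite part: **the kernel test of the loads, second form, is sound**.
`Le.Ctx2`; `Le.srch_sound`, `Le.top_sound`, `Le.raw_spec`, `Le.okM_spec`; `ItC.ldT2`: if
`Le.ldT R n rows = true` then there are no items of version [C] with levels whose rows `(t, h, mu)`
are `rows`.
-/

set_option autoImplicit false

namespace Pool.Agent.Lib.MP_f04ccf_co

open Finset

attribute [local instance] Classical.propDecidable

namespace Le

open Ld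

/-- the rows of the checker for the loads, second form -/
structure Ctx2 (R n : ℕ) (t s h e mu m : ℕ → ℤ) (P K : ℕ → ℕ → ℕ) (N W : ℕ → ℕ → ℤ)
    (r : ℕ → Rw) (L : List Rw) : Prop extends Ld.Ctx R n t s h e mu m P K N W r L where
  X : LdX (R : ℤ) n t s h e mu m P K
  n5 : 5 ≤ n

variable {R n : ℕ} {t s h e mu m : ℕ → ℤ} {P K : ℕ → ℕ → ℕ} {N W : ℕ → ℕ → ℤ}
  {r : ℕ → Rw} {L : List Rw} (C : Ctx2 R n t s h e mu m P K N W r L) {lo hi : Rw → Rw → ℕ}

include C in
/-- the row test holds -/
lemma rt_spec {z : ℕ} (hz : z < n) {E a b : ℕ}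
    (hE : 2 * e z ≤ (E : ℤ)) (ha : a ≤ ∑ x ∈ (range n).erase z, P x z)
    (hb : a + b ≤ ∑ x ∈ (range n).erase z, (P x z + K x z)) : Le.rt R n (r z) E a b = true := by
  unfold Le.rt
  rcases h1 : Nat.ble (r z).t (Nat.add (r z).h 3) with _ | _
  · rfl
  show Ld.frc _ _ = true
  rw [frc_eq]
  refine Nat.ble_eq_true_of_le ?_
  have h2 : (r z).t ≤ (r z).h + 3 := Nat.le_of_ble_eq_true h1
  have hs : -4 ≤ s z := by
    have h3 := C.H.hh z hz
    rw [← C.rt z hz, ← C.rh z hz] at h3
    have h4 : ((r z).t : ℤ) ≤ (r z).h + 3 := by exact_mod_cast h2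
    linarith
  rw [sum_add_distrib] at hb
  obtain ⟨a', b', e1, e2, e3, e4⟩ : ∃ a' b' : ℕ, a ≤ a' ∧ a' + b' = a + b ∧
      a' ≤ ∑ x ∈ (range n).erase z, P x z ∧ b' ≤ ∑ x ∈ (range n).erase z, K x z := by
    by_cases h3 : b ≤ ∑ x ∈ (range n).erase z, K x z
    · exact ⟨a, b, le_rfl, rfl, ha, h3⟩
    · exact ⟨a + b - ∑ x ∈ (range n).erase z, K x z, ∑ x ∈ (range n).erase z, K x z,
        by omega, by omega, by omega, le_rfl⟩
  have h4 : ((a' : ℤ) + b') = (a : ℤ) + b := by exact_mod_cast e2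
  -- the Turan term
  have h3 : 2 * R * s z + 2 * (a' * (R - t z) + b' * max 0 (R - t z - m z)) + (tq n (a + b) : ℤ)
      ≤ 2 * e z + 4 * ((a' : ℤ) + b') * (s z + 1)
        + 2 * ((a' : ℤ) + b') * (2 * ((a' : ℤ) + b') - 1) := by
    set q := (2 * (a + b)) / n with hq
    have h5 : tq n (a + b) = q * (4 * (a + b) - n * (q + 1)) := by
      unfold tq
      rw [frc_eq]
      rfl
    have hqn : q * n ≤ 2 * (a' + b') := by
      rw [e2, hq]
      exact Nat.div_mul_le_self _ _
    rcases le_total (n * (q + 1)) (4 * (a + b)) with h6 | h6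
    · have h7 := C.X.rowq z hz a' b' e3 e4 hs q hqn
      rw [h5]
      rw [Nat.cast_mul, Nat.cast_sub h6]
      push_cast
      rw [← h4]
      exact h7
    · have h7 := C.X.rowq z hz a' b' e3 e4 hs 0 (by omega)
      rw [h5, Nat.sub_eq_zero_of_le h6, Nat.mul_zero]
      push_cast at h7 ⊢
      linarith
  have hc := C.rc z hz
  have hg := C.rg z hz
  rw [← hg, ← hc] at h3
  have hgc : ((r z).g : ℤ) ≤ (r z).c := by
    rw [hg, hc]
    have h5 := C.m0 z hz
    have h6 := C.H.tR z hz
    exact max_le (by linarith) (by linarith)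
  have h5 : (a : ℤ) * (r z).c + b * (r z).g ≤ a' * (r z).c + b' * (r z).g := by
    have h6 : (a : ℤ) ≤ a' := by exact_mod_cast e1
    nlinarith
  have hhz := C.H.hh z hz
  rw [← C.rt z hz, ← C.rh z hz] at hhz
  rw [h4] at h3
  have hz1 : s z = (r z).h - (r z).t - 1 := by linarith
  rw [hz1] at h3
  show 2 * (R * (r z).h + (a * (r z).c + b * (r z).g)) + (a + b) * (4 * (r z).t + 2)
      + tq n (a + b)
    ≤ E + (4 * (a + b) * ((r z).h + (a + b)) + 2 * R * ((r z).t + 1))
  zify
  nlinarith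

/-- the cap of a row by the row test -/
lemma kc_spec {z : Rw} {E p Kt : ℕ} (hK : ∀ b, b ≤ Kt → Le.rt R n z E p b = true) :
    ∀ f k : ℕ, min Kt (k + f) ≤ kc R n z E p f k := by
  intro f
  induction f with
  | zero =>
    intro k
    show min Kt (k + 0) ≤ k
    omega
  | succ f ih =>
    intro k
    have h0 : kc R n z E p (f + 1) k = Bool.rec (motive := fun _ => ℕ) k
      (kc R n z E p f (Nat.succ k)) (Le.rt R n z E p (Nat.succ k)) := rfl
    rw [h0]
    rcases h1 : Le.rt R n z E p (Nat.succ k) with _ | _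
    · have h2 : Kt ≤ k := by
        by_contra h3
        rw [hK (Nat.succ k) (by omega)] at h1
        exact absurd h1 (by simp)
      show min Kt (k + (f + 1)) ≤ k
      omega
    · have h2 := ih (Nat.succ k)
      show min Kt (k + (f + 1)) ≤ kc R n z E p f (Nat.succ k)
      omega

/-- the numbers of a row -/
noncomputable def mkR (R n : ℕ) (lo hi : Rw → Rw → ℕ) (L : List Rw) (z : Rw) : Rw × ℕ × ℕ × ℕ :=
  (z, ns hi L z, nm hi L z, kc R n z (en z (ns hi L z) (nm hi L z)) (pin lo L z) 16 0)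

/-- a row is impossible -/
def Bad (R n : ℕ) (lo hi : Rw → Rw → ℕ) (L : List Rw) (z : Rw) : Prop :=
  Le.rt R n z (en z (ns hi L z) (nm hi L z)) 0 0 = false ∨
    Le.rt R n z (en z (ns hi L z) (nm hi L z)) (pin lo L z) 0 = false ∨ prt n hi L z = false

lemma prep_spec (R n : ℕ) (lo hi : Rw → Rw → ℕ) (L : List Rw)
    (cont : List (Rw × ℕ × ℕ × ℕ) → Bool) :
    ∀ (M : List Rw) (acc : List (Rw × ℕ × ℕ × ℕ)), prep R n lo hi L cont M acc = true →
      (∃ z ∈ M, Bad R n lo hi L z) ∨
        cont ((M.map (mkR R n lo hi L)).reverse ++ acc) = true := by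
  intro M
  induction M with
  | nil =>
    intro acc h
    right
    exact h
  | cons z M ih =>
    intro acc h
    have h0 : prep R n lo hi L cont (z :: M) acc
      = Ld.frc (ns hi L z) fun a => Ld.frc (nm hi L z) fun b =>
      Ld.frc (en z a b) fun E => Bool.rec (motive := fun _ => Bool) true
        (Bool.rec (motive := fun _ => Bool) true
        (Ld.frc (pin lo L z) fun p => Bool.rec (motive := fun _ => Bool) true
          (Ld.frc (kc R n z E p 16 0) fun k => prep R n lo hi L cont M ((z, a, b, k) :: acc))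
            (Le.rt R n z E p 0)) (prt n hi L z))
        (Le.rt R n z E 0 0) := rfl
    rw [h0, frc_eq, frc_eq, frc_eq] at h
    rcases h1 : Le.rt R n z (en z (ns hi L z) (nm hi L z)) 0 0 with _ | _
    · left
      exact ⟨z, List.mem_cons_self, Or.inl h1⟩
    rw [h1] at h
    rcases h3 : prt n hi L z with _ | _
    · left
      exact ⟨z, List.mem_cons_self, Or.inr (Or.inr h3)⟩
    rw [h3] at h
    rw [frc_eq] at h
    rcases h2 : Le.rt R n z (en z (ns hi L z) (nm hi L z)) (pin lo L z) 0 with _ | _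
    · left
      exact ⟨z, List.mem_cons_self, Or.inr (Or.inl h2)⟩
    · rw [h2] at h
      rw [frc_eq] at h
      rcases ih _ h with ⟨y, hy, h3⟩ | h3
      · left
        exact ⟨y, List.mem_cons_of_mem _ hy, h3⟩
      · right
        rw [List.map_cons, List.reverse_cons, List.append_assoc]
        exact h3

include C in
/-- the value of a host is not too large -/
lemma prt_spec (hh : ∀ x < n, ∀ z < n, x ≠ z → P x z ≤ hi (r x) (r z)) {z : ℕ} (hz : z < n) :
    prt n hi L (r z) = true := by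
  have h1 := C.X.prt z hz
  have h2 : pou hi L (r z) = ∑ j ∈ (range n).erase z, hi (r z) (r j) :=
    C.toCtx.lsum (fun y => hi (r z) y) hz
  have h3 : ∑ j ∈ (range n).erase z, P z j ≤ pou hi L (r z) := by
    rw [h2]
    exact sum_le_sum fun j hj => hh z hz j (mem_range.1 (mem_of_mem_erase hj))
      (ne_of_mem_erase hj).symm
  have h4 := C.H.muh z hz
  rw [← C.rmu z hz, ← C.rh z hz] at h1 h4
  have h5 : (r z).mu ≤ (r z).h := by exact_mod_cast h4
  have hn := C.n5
  have h6 : (r z).mu ≤ pou hi L (r z) + ((r z).h - (r z).mu) * (n - 1) := by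
    have h7 : (((r z).h - (r z).mu : ℕ) : ℤ) = (r z).h - (r z).mu := Nat.cast_sub h5
    have h8 : ((n - 1 : ℕ) : ℤ) = n - 1 := by
      rw [Nat.cast_sub (by omega)]
      norm_num
    zify
    rw [h7, h8]
    have h9 : ((∑ j ∈ (range n).erase z, P z j : ℕ) : ℤ) ≤ pou hi L (r z) := by exact_mod_cast h3
    push_cast at h9
    linarith
  unfold prt
  rcases h7 : Nat.ble (r z).mu (Nat.mul (Nat.sub (r z).h (r z).mu) (Nat.pred n)) with _ | _
  · show Nat.ble _ _ = true
    exact Nat.ble_eq_true_of_le h6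
  · rfl

include C in
/-- no row is impossible -/
lemma not_bad (I : C.toCtx.Iv lo hi) {z : Rw} (hz : z ∈ L) : ¬ Bad R n lo hi L z := by
  obtain ⟨j, hj, rfl⟩ := C.toCtx.mem hz
  have hE := C.toCtx.en_spec I.hi hj
  have hpin := Ctx.pin_spec C.toCtx I hj
  have h2 : ∑ x ∈ (range n).erase j, P x j ≤ ∑ x ∈ (range n).erase j, (P x j + K x j) :=
    sum_le_sum fun x _ => Nat.le_add_right _ _
  rintro (h1 | h1 | h1)
  · rw [rt_spec C hj hE (Nat.zero_le _) (by omega)] at h1
    exact absurd h1 (by simp)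
  · rw [rt_spec C hj hE hpin (by omega)] at h1
    exact absurd h1 (by simp)
  · rw [prt_spec C I.hi hj] at h1
    exact absurd h1 (by simp)

include C in
/-- the cap of a host in a row -/
lemma cap0_spec (I : C.toCtx.Iv lo hi) {x z : ℕ} (hx : x < n) (hz : z < n) (hxz : x ≠ z) :
    min (P x z + K x z - lo (r x) (r z)) (min 16 (r x).mu)
      ≤ Ld.cap R lo hi (mkR R n lo hi L (r x)) (mkR R n lo hi L (r z)) := by
  have h0 : Ld.cap R lo hi (mkR R n lo hi L (r x)) (mkR R n lo hi L (r z)) =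
      Bool.rec (motive := fun _ => ℕ)
        (mi (kc R n (r z) (en (r z) (ns hi L (r z)) (nm hi L (r z))) (pin lo L (r z)) 16 0)
          (Nat.div (Ld.slk R lo hi (Ctx.mkR R lo hi L (r x)) (Ctx.mkR R lo hi L (r z)))
            (Nat.mul 2 (r z).g))) (r x).mu (Nat.beq (r z).g 0) := rfl
  rw [h0]
  rcases h1 : Nat.beq (r z).g 0 with _ | _
  · have hg : (r z).g ≠ 0 := fun h2 => by
      rw [h2] at h1
      exact absurd h1 (by simp)
    show _ ≤ mi _ _
    rw [mi_eq]
    have hxz' : x ∈ (range n).erase z := mem_erase.2 ⟨hxz, mem_range.2 hx⟩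
    have hE := C.toCtx.en_spec I.hi hz
    have hpin := Ctx.pin_spec C.toCtx I hz
    -- the row test
    have h2 : ∀ b, b ≤ P x z + K x z - lo (r x) (r z) →
        Le.rt R n (r z) (en (r z) (ns hi L (r z)) (nm hi L (r z))) (pin lo L (r z)) b = true := by
      intro b hb
      refine rt_spec C hz hE hpin ?_
      have h3 : pin lo L (r z) = ∑ j ∈ (range n).erase z, lo (r j) (r z) :=
        C.toCtx.lsum (fun y => lo y (r z)) hz
      rw [h3, ← add_sum_erase _ _ hxz', ← add_sum_erase _ (fun x => P x z + K x z) hxz']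
      have h4 : ∑ j ∈ ((range n).erase z).erase x, lo (r j) (r z)
          ≤ ∑ j ∈ ((range n).erase z).erase x, (P j z + K j z) := by
        refine sum_le_sum fun j hj => ?_
        have hj' := mem_of_mem_erase hj
        have := I.lo j (mem_range.1 (mem_of_mem_erase hj')) z hz (ne_of_mem_erase hj')
        omega
      have h5 := I.lo x hx z hz hxz
      omega
    have h3 := kc_spec h2 16 0
    have h4 := Ctx.slk_spec C.toCtx I hx hz hxz
    have h5 : P x z + K x z - lo (r x) (r z)
        ≤ Ld.slk R lo hi (Ctx.mkR R lo hi L (r x)) (Ctx.mkR R lo hi L (r z)) / (2 * (r z).g) := by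
      rw [Nat.le_div_iff_mul_le (by omega)]
      exact h4
    have h6 : P x z + K x z - lo (r x) (r z)
        ≤ Nat.div (Ld.slk R lo hi (Ctx.mkR R lo hi L (r x)) (Ctx.mkR R lo hi L (r z)))
          (Nat.mul 2 (r z).g) := h5
    omega
  · show _ ≤ (r x).mu
    omega

include C in
/-- the cap of a host in a row, second form -/
lemma cap_spec (I : C.toCtx.Iv lo hi) {x z : ℕ} (hx : x < n) (hz : z < n) (hxz : x ≠ z) :
    min (P x z + K x z - lo (r x) (r z)) (min 16 (r x).mu)
      ≤ Le.cap R lo hi (mkR R n lo hi L (r x)) (mkR R n lo hi L (r z)) := by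
  have h1 := cap0_spec C I hx hz hxz
  have h2 := C.X.kk2 x hx z hz hxz
  rw [← C.rmu x hx, ← C.rh x hx] at h2
  have h3 := I.lo x hx z hz hxz
  have h4 := I.hi x hx z hz hxz
  have h5 := C.H.muh x hx
  rw [← C.rmu x hx, ← C.rh x hx] at h5
  have h0 : Le.cap R lo hi (mkR R n lo hi L (r x)) (mkR R n lo hi L (r z))
      = mi (Nat.add (Nat.sub (hi (r x) (r z)) (lo (r x) (r z)))
        (Nat.mul 2 (Nat.sub (r x).h (r x).mu)))
        (Ld.cap R lo hi (mkR R n lo hi L (r x)) (mkR R n lo hi L (r z))) := rfl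
  rw [h0, mi_eq]
  refine le_min ?_ h1
  have h6 : P x z + K x z - lo (r x) (r z)
      ≤ (hi (r x) (r z) - lo (r x) (r z)) + 2 * ((r x).h - (r x).mu) := by omega
  exact (min_le_left _ _).trans h6

include C in
/-- the test of a host is not a contradiction -/
lemma host_spec (I : C.toCtx.Iv lo hi) {x : ℕ} (hx : x < n) :
    Le.host R lo hi ((L.map (mkR R n lo hi L)).reverse ++ []) (mkR R n lo hi L (r x)) = false := by
  have h0 : Le.host R lo hi ((L.map (mkR R n lo hi L)).reverse ++ []) (mkR R n lo hi L (r x))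
      = Bool.rec (motive := fun _ => Bool)
        (Bool.rec (motive := fun _ => Bool) false
          (Nat.ble (Nat.succ (Ld.lsum (fun f => Bool.rec (motive := fun _ => ℕ)
            (Nat.add (Le.cap R lo hi (mkR R n lo hi L (r x)) f) (lo (r x) f.1)) 0
              (Nat.beq (r x).i f.1.i)) ((L.map (mkR R n lo hi L)).reverse ++ []))) (r x).mu)
          (Nat.ble (r x).mu 16)) false (Nat.beq (r x).mu 0) := rfl
  rw [h0]
  rcases h1 : Nat.beq (r x).mu 0 with _ | _
  swap
  · rfl
  rcases h2 : Nat.ble (r x).mu 16 with _ | _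
  · rfl
  show Nat.ble _ _ = false
  have h3 : (r x).mu ≤ 16 := Nat.le_of_ble_eq_true h2
  have h4 : Ld.lsum (fun f => Bool.rec (motive := fun _ => ℕ)
            (Nat.add (Le.cap R lo hi (mkR R n lo hi L (r x)) f) (lo (r x) f.1)) 0
              (Nat.beq (r x).i f.1.i)) ((L.map (mkR R n lo hi L)).reverse ++ [])
      = ∑ z ∈ (range n).erase x, (Le.cap R lo hi (mkR R n lo hi L (r x)) (mkR R n lo hi L (r z))
        + lo (r x) (r z)) := by
    rw [List.append_nil, lsum_eq, List.map_reverse, List.sum_reverse, List.map_map, ← lsum_eq]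
    exact C.toCtx.lsum (fun y => cap R lo hi (mkR R n lo hi L (r x)) (mkR R n lo hi L y)
      + lo (r x) y) hx
  rw [h4]
  rcases h5 : Nat.ble (Nat.succ (∑ z ∈ (range n).erase x, (Le.cap R lo hi (mkR R n lo hi L (r x))
    (mkR R n lo hi L (r z)) + lo (r x) (r z)))) (r x).mu with _ | _
  · rfl
  exfalso
  have h6 : ∑ z ∈ (range n).erase x, (Le.cap R lo hi (mkR R n lo hi L (r x))
    (mkR R n lo hi L (r z)) + lo (r x) (r z)) < (r x).mu := Nat.le_of_ble_eq_true h5
  -- the supply
  have h7 := C.H.sup x hx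
  rw [← C.rmu x hx] at h7
  have h8 : (r x).mu ≤ ∑ z ∈ (range n).erase x, (P x z + K x z) := by exact_mod_cast h7
  have hc : ∀ z ∈ (range n).erase x, min (P x z + K x z - lo (r x) (r z)) (r x).mu
      ≤ cap R lo hi (mkR R n lo hi L (r x)) (mkR R n lo hi L (r z)) := fun z hz => by
    have := cap_spec C I hx (mem_range.1 (mem_of_mem_erase hz)) (ne_of_mem_erase hz).symm
    omega
  by_cases h9 : ∃ z ∈ (range n).erase x, (r x).mu ≤ P x z + K x z - lo (r x) (r z)
  · obtain ⟨z, hz, h10⟩ := h9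
    have h11 := hc z hz
    have h12 : cap R lo hi (mkR R n lo hi L (r x)) (mkR R n lo hi L (r z)) + lo (r x) (r z)
        ≤ ∑ z ∈ (range n).erase x, (Le.cap R lo hi (mkR R n lo hi L (r x))
          (mkR R n lo hi L (r z)) + lo (r x) (r z)) :=
      single_le_sum (f := fun z => cap R lo hi (mkR R n lo hi L (r x)) (mkR R n lo hi L (r z))
        + lo (r x) (r z)) (fun _ _ => Nat.zero_le _) hz
    omega
  · push Not at h9
    have h13 : ∑ z ∈ (range n).erase x, (P x z + K x z)
        ≤ ∑ z ∈ (range n).erase x, (Le.cap R lo hi (mkR R n lo hi L (r x))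
          (mkR R n lo hi L (r z)) + lo (r x) (r z)) := by
      refine sum_le_sum fun z hz => ?_
      have h10 := hc z hz
      have h11 := h9 z hz
      omega
    omega

include C in
/-- **a node is not a contradiction** -/
lemma node_sound (I : C.toCtx.Iv lo hi) : node R n L lo hi ≠ true := by
  intro h1
  rcases prep_spec R n lo hi L _ L [] h1 with ⟨z, hz, h2⟩ | h2
  · exact not_bad C I hz h2
  · obtain ⟨d, hd, h3⟩ := lany_eq h2
    rw [List.append_nil, List.mem_reverse, List.mem_map] at hd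
    obtain ⟨z, hz, rfl⟩ := hd
    obtain ⟨x, hx, rfl⟩ := C.toCtx.mem hz
    rw [host_spec C I hx] at h3
    exact absurd h3 (by simp)

include C in
/-- **the search is sound** -/
theorem srch_sound : ∀ (cs : List (Rw × Rw)) (lo hi : Rw → Rw → ℕ), C.toCtx.Iv lo hi →
    (∀ c ∈ cs, ∃ x < n, ∃ z < n, x ≠ z ∧ c = (r x, r z)) → srch R n L cs lo hi ≠ true := by
  intro cs
  induction cs with
  | nil =>
    intro lo hi I _ h
    exact node_sound C I h
  | cons c cs ih =>
    intro lo hi I hc h
    obtain ⟨x, hx, z, hz, hxz, rfl⟩ := hc _ List.mem_cons_self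
    have hc' := fun c hc1 => hc c (List.mem_cons_of_mem _ hc1)
    have h0 : srch R n L ((r x, r z) :: cs) lo hi = Bool.rec (motive := fun _ => Bool)
      (Bool.rec (motive := fun _ => Bool)
        (cfg R lo hi (r x) (r z) (srch R n L cs) 0 0
          && (cfg R lo hi (r x) (r z) (srch R n L cs) 1 0 &&
          (cfg R lo hi (r x) (r z) (srch R n L cs) 0 1
            && (cfg R lo hi (r x) (r z) (srch R n L cs) 2 0 &&
          (cfg R lo hi (r x) (r z) (srch R n L cs) 1 1
            && cfg R lo hi (r x) (r z) (srch R n L cs) 0 2)))))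
        true (node R n L lo hi))
      (srch R n L cs lo hi) (Nat.beq (Nat.add (hi (r x) (r z)) (hi (r z) (r x))) 0) := rfl
    rw [h0] at h
    rcases h1 : Nat.beq (Nat.add (hi (r x) (r z)) (hi (r z) (r x))) 0 with _ | _
    · rw [h1] at h
      rcases h2 : node R n L lo hi with _ | _
      · rw [h2] at h
        have h3 : (cfg R lo hi (r x) (r z) (srch R n L cs) 0 0
          && (cfg R lo hi (r x) (r z) (srch R n L cs) 1 0 &&
          (cfg R lo hi (r x) (r z) (srch R n L cs) 0 1
            && (cfg R lo hi (r x) (r z) (srch R n L cs) 2 0 &&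
          (cfg R lo hi (r x) (r z) (srch R n L cs) 1 1
            && cfg R lo hi (r x) (r z) (srch R n L cs) 0 2))))) = true := h
        simp only [Bool.and_eq_true] at h3
        obtain ⟨c1, c2, c3, c4, c5, c6⟩ := h3
        have h4 := C.H.pc2 x hx z hz hxz
        have h5 : (P x z = 0 ∧ P z x = 0) ∨ (P x z = 1 ∧ P z x = 0) ∨ (P x z = 0 ∧ P z x = 1) ∨
          (P x z = 2 ∧ P z x = 0) ∨ (P x z = 1 ∧ P z x = 1) ∨ (P x z = 0 ∧ P z x = 2) := by
          omega
        have I' := I.upd C.toCtx hx hz hxz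
        rcases h5 with ⟨a, b⟩ | ⟨a, b⟩ | ⟨a, b⟩ | ⟨a, b⟩ | ⟨a, b⟩ | ⟨a, b⟩
        · exact ih _ _ I' hc' (Ctx.cfg_spec C.toCtx I hx hz hxz a b c1)
        · exact ih _ _ I' hc' (Ctx.cfg_spec C.toCtx I hx hz hxz a b c2)
        · exact ih _ _ I' hc' (Ctx.cfg_spec C.toCtx I hx hz hxz a b c3)
        · exact ih _ _ I' hc' (Ctx.cfg_spec C.toCtx I hx hz hxz a b c4)
        · exact ih _ _ I' hc' (Ctx.cfg_spec C.toCtx I hx hz hxz a b c5)
        · exact ih _ _ I' hc' (Ctx.cfg_spec C.toCtx I hx hz hxz a b c6)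
      · exact node_sound C I h2
    · rw [h1] at h
      exact ih lo hi I hc' h

/-- a row with its `q` -/
noncomputable def qv (R n : ℕ) (L : List Rw) (z : Rw) : ℕ :=
  Bool.rec (motive := fun _ => ℕ) 0
    (Bool.rec (motive := fun _ => ℕ) 1 2
      (Le.rt R n z (en z (ns (cG R) L z) (nm (cG R) L z)) 2 0))
    (Le.rt R n z (en z (ns (cG R) L z) (nm (cG R) L z)) 1 0)

/-- a row with its `q` -/
noncomputable def rq (R n : ℕ) (L : List Rw) (z : Rw) : Rw :=
  ⟨z.i, z.t, z.h, z.mu, z.B, z.c, z.g, qv R n L z⟩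

lemma top_spec (R n : ℕ) (L : List Rw) :
    ∀ (M : List Rw) (cont : List Rw → Bool), top R n L M cont = true →
      (∃ z ∈ M, Le.rt R n z (en z (ns (cG R) L z) (nm (cG R) L z)) 0 0 = false) ∨
        cont (M.map (rq R n L)) = true := by
  intro M
  induction M with
  | nil =>
    intro cont h
    exact Or.inr h
  | cons z M ih =>
    intro cont h
    have h0 : top R n L (z :: M) cont
      = Ld.frc (en z (ns (cG R) L z) (nm (cG R) L z)) fun E =>
      Bool.rec (motive := fun _ => Bool) true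
        (Bool.rec (motive := fun _ => Bool)
          (top R n L M fun T => cont (⟨z.i, z.t, z.h, z.mu, z.B, z.c, z.g, 0⟩ :: T))
          (Bool.rec (motive := fun _ => Bool)
            (top R n L M fun T => cont (⟨z.i, z.t, z.h, z.mu, z.B, z.c, z.g, 1⟩ :: T))
            (top R n L M fun T => cont (⟨z.i, z.t, z.h, z.mu, z.B, z.c, z.g, 2⟩ :: T))
            (Le.rt R n z E 2 0))
          (Le.rt R n z E 1 0)) (Le.rt R n z E 0 0) := rfl
    rw [h0, frc_eq] at h
    rcases h1 : Le.rt R n z (en z (ns (cG R) L z) (nm (cG R) L z)) 0 0 with _ | _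
    · exact Or.inl ⟨z, List.mem_cons_self, h1⟩
    · rw [h1] at h
      have h2 : top R n L M (fun T => cont (rq R n L z :: T)) = true := by
        unfold rq qv
        rcases h3 : Le.rt R n z (en z (ns (cG R) L z) (nm (cG R) L z)) 1 0 with _ | _
        · rw [h3] at h
          exact h
        · rw [h3] at h
          rcases h4 : Le.rt R n z (en z (ns (cG R) L z) (nm (cG R) L z)) 2 0 with _ | _
          · rw [h4] at h
            exact h
          · rw [h4] at h
            exact h
      rcases ih _ h2 with ⟨y, hy, h3⟩ | h3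
      · exact Or.inl ⟨y, List.mem_cons_of_mem _ hy, h3⟩
      · right
        exact h3

include C in
lemma qv_spec {x z : ℕ} (hx : x < n) (hz : z < n) (hxz : x ≠ z) : P x z ≤ qv R n L (r z) := by
  have hE := C.toCtx.en_spec (hi := cG R)
    (fun x hx z hz hxz => Ctx.cG_spec C.toCtx hx hz hxz) hz
  have h1 : ∀ a, a ≤ P x z →
      Le.rt R n (r z) (en (r z) (ns (cG R) L (r z)) (nm (cG R) L (r z))) a 0 = true := by
    intro a ha
    have h2 : P x z ≤ ∑ x ∈ (range n).erase z, P x z :=
      single_le_sum (f := fun x => P x z) (fun _ _ => Nat.zero_le _)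
        (mem_erase.2 ⟨hxz, mem_range.2 hx⟩)
    have h3 : ∑ x ∈ (range n).erase z, P x z ≤ ∑ x ∈ (range n).erase z, (P x z + K x z) :=
      sum_le_sum fun x _ => Nat.le_add_right _ _
    exact rt_spec C hz hE (by omega) (by omega)
  have h4 := C.H.pc2 x hx z hz hxz
  unfold qv
  rcases h2 : Le.rt R n (r z) (en (r z) (ns (cG R) L (r z)) (nm (cG R) L (r z))) 1 0 with _ | _
  · show P x z ≤ 0
    by_contra h3
    rw [h1 1 (by omega)] at h2
    exact absurd h2 (by simp)
  · rcases h3 : Le.rt R n (r z) (en (r z) (ns (cG R) L (r z)) (nm (cG R) L (r z))) 2 0 with _ | _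
    · show P x z ≤ 1
      by_contra h5
      rw [h1 2 (by omega)] at h3
      exact absurd h3 (by simp)
    · show P x z ≤ 2
      omega

include C in
/-- the test of the rows is sound -/
theorem top_sound : top R n L L (fun L' => srch R n L' (prs L') (fun _ _ => 0)
    (fun x z => mi z.q (cG R x z))) ≠ true := by
  intro hh
  rcases top_spec R n L L _ hh with ⟨z, hz, h1⟩ | h1
  · obtain ⟨j, hj, rfl⟩ := C.toCtx.mem hz
    have hE := C.toCtx.en_spec (hi := cG R)
      (fun x hx z hz hxz => Ctx.cG_spec C.toCtx hx hz hxz) hj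
    rw [rt_spec C hj hE (Nat.zero_le _) (Nat.zero_le _)] at h1
    exact absurd h1 (by simp)
  · have C1 : Ctx R n t s h e mu m P K N W (fun j => rq R n L (r j)) (L.map (rq R n L)) := by
      refine ⟨C.H, C.R2, C.m0, ?_, C.ri, C.rt, C.rh, C.rmu, C.rB, C.rc, C.rg⟩
      have h2 := C.hp.map (rq R n L)
      rwa [List.map_map] at h2
    have C' : Ctx2 R n t s h e mu m P K N W (fun j => rq R n L (r j)) (L.map (rq R n L)) :=
      ⟨C1, C.X, C.n5⟩
    refine srch_sound C' _ _ _ ⟨fun _ _ _ _ _ => Nat.zero_le _, fun x hx z hz hxz => ?_⟩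
      (Ctx.prs_spec C1) h1
    show P x z ≤ mi (qv R n L (r z)) (cG R (r x) (r z))
    rw [mi_eq]
    exact le_min (qv_spec C hx hz hxz) (Ctx.cG_spec C.toCtx hx hz hxz)

end Le

end Pool.Agent.Lib.MP_f04ccf_co
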