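import Pool.Agent.Lib.MP_f04ccf_co.M.EnuL

/-!
MP_f04ccf_co, **the leaf check of the middle range, generic part**: on list lanes (contents) the *need*
`nd x = max over forms of min over corners of (negative part - positive part)` (truncated) is computed once per
box of states; every certificate vector then costs two comparisons.

* a form: two functions `q = (positive, negative)` (its part of degree two) and a list of corners, a corner: two
  coefficient lists for the linear letters `ls`; value `cF ls q c x = (q⁻ + ⟨c⁻, ls⟩) - (q⁺ + ⟨c⁺, ls⟩)`;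
* `fV`: minimum over the corners; `sMax`: maximum over the forms;
* programs `minP`, `fP`, `maxP` in continuation style; **`maxP_spec`**.
-/

set_option autoImplicit false

namespace Pool.Agent.Lib.MP_f04ccf_co

namespace Sl

variable {γ β : Type} {w : ℕ} {L : List γ}

/-- a corner: coefficients of the positive and of the negative part -/
abbrev Cr : Type := List ℕ × List ℕ

/-! ### values -/

/-- the value of a form at a corner (truncated) -/
noncomputable def cF (ls : List (γ → ℕ)) (q : (γ → ℕ) × (γ → ℕ)) (c : Cr) (x : γ) : ℕ :=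
  (q.2 x + Sd.dot c.2 (ls.map fun f => f x)) - (q.1 x + Sd.dot c.1 (ls.map fun f => f x))

/-- minimum over corners, started with `a` -/
noncomputable def sMin (ls : List (γ → ℕ)) (q : (γ → ℕ) × (γ → ℕ)) : List Cr → (γ → ℕ) → γ → ℕ
  | [], a => a
  | c :: cs, a => sMin ls q cs fun x => min (a x) (cF ls q c x)

/-- the value of a form on a list of corners (0 if there is none) -/
noncomputable def fV (ls : List (γ → ℕ)) (q : (γ → ℕ) × (γ → ℕ)) : List Cr → γ → ℕ
  | [] => fun _ => 0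
  | c :: cs => sMin ls q cs (cF ls q c)

/-- maximum over forms, started with `a` -/
noncomputable def sMax (ls : List (γ → ℕ)) : List (((γ → ℕ) × (γ → ℕ)) × List Cr) → (γ → ℕ) → γ → ℕ
  | [], a => a
  | f :: fs, a => sMax ls fs fun x => max (a x) (fV ls f.1 f.2 x)

lemma sMin_le_start (ls : List (γ → ℕ)) (q : (γ → ℕ) × (γ → ℕ)) : ∀ (cs : List Cr)
    (a : γ → ℕ) (x : γ), sMin ls q cs a x ≤ a x := by
  intro cs
  induction cs with
  | nil => intro a x; exact le_rfl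
  | cons c cs ih => intro a x; exact (ih _ x).trans (min_le_left _ _)

lemma sMin_le (ls : List (γ → ℕ)) (q : (γ → ℕ) × (γ → ℕ)) : ∀ (cs : List Cr)
    (a : γ → ℕ) (x : γ), ∀ c ∈ cs, sMin ls q cs a x ≤ cF ls q c x := by
  intro cs
  induction cs with
  | nil => intro a x c hc; exact absurd hc List.not_mem_nil
  | cons b cs ih =>
    intro a x c hc
    rcases List.mem_cons.1 hc with h | h
    · rw [h]
      exact (sMin_le_start ls q cs _ x).trans (min_le_right _ _)
    · exact ih _ x c h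

lemma fV_le (ls : List (γ → ℕ)) (q : (γ → ℕ) × (γ → ℕ)) (cs : List Cr) (x : γ) {v : ℕ}
    (h : ∃ c ∈ cs, cF ls q c x ≤ v) : fV ls q cs x ≤ v := by
  obtain ⟨c, hc, h1⟩ := h
  cases cs with
  | nil => exact absurd hc List.not_mem_nil
  | cons b cs =>
    rcases List.mem_cons.1 hc with h2 | h2
    · rw [h2] at h1
      exact (sMin_le_start ls q cs _ x).trans h1
    · exact (sMin_le ls q cs _ x c h2).trans h1

lemma sMax_le (ls : List (γ → ℕ)) : ∀ (fs : List (((γ → ℕ) × (γ → ℕ)) × List Cr))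
    (a : γ → ℕ) (x : γ) {v : ℕ}, a x ≤ v → (∀ f ∈ fs, fV ls f.1 f.2 x ≤ v) →
    sMax ls fs a x ≤ v := by
  intro fs
  induction fs with
  | nil => intro a x v h _; exact h
  | cons f fs ih =>
    intro a x v h1 h2
    exact ih _ x (max_le h1 (h2 f List.mem_cons_self)) fun g hg => h2 g (List.mem_cons_of_mem _ hg)

/-! ### multiplied by a function -/

lemma cF_mul (s : γ → ℕ) (ls : List (γ → ℕ)) (q : (γ → ℕ) × (γ → ℕ)) (c : Cr) (x : γ) :
    cF (ls.map fun f y => s y * f y) (fun y => s y * q.1 y, fun y => s y * q.2 y) c x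
      = s x * cF ls q c x := by
  have h1 : ∀ cs : List ℕ, Sd.dot cs ((ls.map fun f y => s y * f y).map fun f => f x)
      = s x * Sd.dot cs (ls.map fun f => f x) := by
    induction ls with
    | nil => intro cs; simp only [List.map_nil, Sd.dot_nil', Nat.mul_zero]
    | cons f ls ih =>
      intro cs
      cases cs with
      | nil => simp only [Sd.dot_nil, Nat.mul_zero]
      | cons a cs =>
        simp only [List.map_cons, Sd.dot_cons]
        rw [ih cs]
        ring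
  unfold cF
  rw [h1, h1, Nat.mul_sub, Nat.mul_add, Nat.mul_add]

lemma sMin_mul (s : γ → ℕ) (ls : List (γ → ℕ)) (q : (γ → ℕ) × (γ → ℕ)) : ∀ (cs : List Cr)
    (a : γ → ℕ) (x : γ),
    sMin (ls.map fun f y => s y * f y) (fun y => s y * q.1 y, fun y => s y * q.2 y) cs
      (fun y => s y * a y) x = s x * sMin ls q cs a x := by
  intro cs
  induction cs with
  | nil => intro a x; rfl
  | cons c cs ih =>
    intro a x
    have e1 : (fun y => min (s y * a y) (cF (ls.map fun f y => s y * f y)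
        (fun y => s y * q.1 y, fun y => s y * q.2 y) c y))
        = fun y => s y * min (a y) (cF ls q c y) := by
      funext y
      rw [cF_mul, Nat.mul_min_mul_left]
    show sMin (ls.map fun f y => s y * f y) (fun y => s y * q.1 y, fun y => s y * q.2 y) cs
      (fun y => min (s y * a y) (cF (ls.map fun f y => s y * f y)
        (fun y => s y * q.1 y, fun y => s y * q.2 y) c y)) x = _
    rw [e1, ih]
    rfl

lemma fV_mul (s : γ → ℕ) (ls : List (γ → ℕ)) (q : (γ → ℕ) × (γ → ℕ)) (cs : List Cr) (x : γ) :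
    fV (ls.map fun f y => s y * f y) (fun y => s y * q.1 y, fun y => s y * q.2 y) cs x
      = s x * fV ls q cs x := by
  cases cs with
  | nil => exact (Nat.mul_zero _).symm
  | cons c cs =>
    have e1 : cF (ls.map fun f y => s y * f y) (fun y => s y * q.1 y, fun y => s y * q.2 y) c
        = fun y => s y * cF ls q c y := by
      funext y
      exact cF_mul s ls q c y
    show sMin (ls.map fun f y => s y * f y) (fun y => s y * q.1 y, fun y => s y * q.2 y) cs
      (cF (ls.map fun f y => s y * f y) (fun y => s y * q.1 y, fun y => s y * q.2 y) c) x = _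
    rw [e1, sMin_mul]
    rfl

lemma sMax_mul (s : γ → ℕ) (ls : List (γ → ℕ)) :
    ∀ (fs : List (((γ → ℕ) × (γ → ℕ)) × List Cr)) (a : γ → ℕ) (x : γ),
    sMax (ls.map fun f y => s y * f y)
      (fs.map fun f => ((fun y => s y * f.1.1 y, fun y => s y * f.1.2 y), f.2))
      (fun y => s y * a y) x = s x * sMax ls fs a x := by
  intro fs
  induction fs with
  | nil => intro a x; rfl
  | cons f fs ih =>
    intro a x
    have e1 : (fun y => max (s y * a y) (fV (ls.map fun f y => s y * f y)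
        (fun y => s y * f.1.1 y, fun y => s y * f.1.2 y) f.2 y))
        = fun y => s y * max (a y) (fV ls f.1 f.2 y) := by
      funext y
      rw [fV_mul, Nat.mul_max_mul_left]
    show sMax (ls.map fun f y => s y * f y)
      (fs.map fun f => ((fun y => s y * f.1.1 y, fun y => s y * f.1.2 y), f.2))
      (fun y => max (s y * a y) (fV (ls.map fun f y => s y * f y)
        (fun y => s y * f.1.1 y, fun y => s y * f.1.2 y) f.2 y)) x = _
    rw [e1, ih]
    rfl

/-! ### programs -/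

/-- the value at a corner -/
noncomputable def corP (w1 T M : ℕ) (ls : List (ℕ × ℕ)) (q : (ℕ × ℕ) × (ℕ × ℕ)) (c : Cr)
    (k : ℕ × ℕ → β) : β :=
  frV (vadd q.2 (vdot c.2 ls)) fun a => frV (vadd q.1 (vdot c.1 ls)) fun b => frV (vsub w1 T M a b) k

/-- the minimum -/
noncomputable def minP (w1 T M : ℕ) (ls : List (ℕ × ℕ)) (q : (ℕ × ℕ) × (ℕ × ℕ))
    (cs : List Cr) : ℕ × ℕ → (ℕ × ℕ → β) → β :=
  List.rec (motive := fun _ => ℕ × ℕ → (ℕ × ℕ → β) → β) (fun a k => k a)
    (fun c _ ih a k => corP w1 T M ls q c fun b => frV (vmin w1 T M a b) fun a' => ih a' k) cs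

/-- the value of a form -/
noncomputable def fP (w1 T M : ℕ) (ls : List (ℕ × ℕ)) (q : (ℕ × ℕ) × (ℕ × ℕ)) (cs : List Cr)
    (k : ℕ × ℕ → β) : β :=
  List.casesOn (motive := fun _ => β) cs (k (0, 0))
    fun c cs' => corP w1 T M ls q c fun a => minP w1 T M ls q cs' a k

/-- the maximum over the forms -/
noncomputable def maxP (w1 T M : ℕ) (ls : List (ℕ × ℕ))
    (fs : List (((ℕ × ℕ) × (ℕ × ℕ)) × List Cr)) : ℕ × ℕ → (ℕ × ℕ → β) → β :=
  List.rec (motive := fun _ => ℕ × ℕ → (ℕ × ℕ → β) → β) (fun a k => k a)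
    (fun f _ ih a k => fP w1 T M ls f.1 f.2 fun b => frV (vmax w1 T M a b) fun a' => ih a' k) fs

/-- a program delivers a vector with the values `f` -/
def Dl (w : ℕ) (L : List γ) (P : (ℕ × ℕ → β) → β) (f : γ → ℕ) : Prop :=
  ∃ v : ℕ × ℕ, Rv w L v f ∧ ∀ k, P k = k v

lemma corP_spec (hw : 0 < w) {ls : List (ℕ × ℕ)} {fs : List (γ → ℕ)}
    (hl : List.Forall₂ (Rv w L) ls fs) {q : (ℕ × ℕ) × (ℕ × ℕ)} {g : (γ → ℕ) × (γ → ℕ)}
    (h1 : Rv w L q.1 g.1) (h2 : Rv w L q.2 g.2) (c : Cr) :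
    Dl (β := β) w L (corP (w - 1) (2 ^ (w - 1)) (pkL (2 ^ w) (fun _ => 2 ^ (w - 1)) L) ls q c)
      (cF fs g c) := by
  refine ⟨vsub (w - 1) (2 ^ (w - 1)) (pkL (2 ^ w) (fun _ => 2 ^ (w - 1)) L)
    (vadd q.2 (vdot c.2 ls)) (vadd q.1 (vdot c.1 ls)), ?_, fun k => ?_⟩
  · exact Rv.sub hw (h2.add (Rv.dot hl c.2)) (h1.add (Rv.dot hl c.1))
  · unfold corP
    rw [frV_eq, frV_eq, frV_eq]

lemma minP_spec (hw : 0 < w) {ls : List (ℕ × ℕ)} {fs : List (γ → ℕ)}
    (hl : List.Forall₂ (Rv w L) ls fs) {q : (ℕ × ℕ) × (ℕ × ℕ)} {g : (γ → ℕ) × (γ → ℕ)}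
    (h1 : Rv w L q.1 g.1) (h2 : Rv w L q.2 g.2) : ∀ (cs : List Cr) {a : ℕ × ℕ} {f : γ → ℕ},
    Rv w L a f →
    Dl (β := β) w L (minP (w - 1) (2 ^ (w - 1)) (pkL (2 ^ w) (fun _ => 2 ^ (w - 1)) L) ls q cs a)
      (sMin fs g cs f) := by
  intro cs
  induction cs with
  | nil => intro a f ha; exact ⟨a, ha, fun k => rfl⟩
  | cons c cs ih =>
    intro a f ha
    obtain ⟨b, hb, hb'⟩ := corP_spec (β := β) hw hl h1 h2 c
    obtain ⟨v, hv, hv'⟩ := ih (Rv.min hw ha hb)
    refine ⟨v, hv, fun k => ?_⟩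
    have e1 : minP (w - 1) (2 ^ (w - 1)) (pkL (2 ^ w) (fun _ => 2 ^ (w - 1)) L) ls q (c :: cs) a k
        = corP (w - 1) (2 ^ (w - 1)) (pkL (2 ^ w) (fun _ => 2 ^ (w - 1)) L) ls q c fun b =>
          frV (vmin (w - 1) (2 ^ (w - 1)) (pkL (2 ^ w) (fun _ => 2 ^ (w - 1)) L) a b) fun a' =>
            minP (w - 1) (2 ^ (w - 1)) (pkL (2 ^ w) (fun _ => 2 ^ (w - 1)) L) ls q cs a' k := rfl
    rw [e1, hb', frV_eq, hv']

lemma fP_spec (hw : 0 < w) {ls : List (ℕ × ℕ)} {fs : List (γ → ℕ)}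
    (hl : List.Forall₂ (Rv w L) ls fs) {q : (ℕ × ℕ) × (ℕ × ℕ)} {g : (γ → ℕ) × (γ → ℕ)}
    (h1 : Rv w L q.1 g.1) (h2 : Rv w L q.2 g.2) (cs : List Cr) :
    Dl (β := β) w L (fP (w - 1) (2 ^ (w - 1)) (pkL (2 ^ w) (fun _ => 2 ^ (w - 1)) L) ls q cs)
      (fV fs g cs) := by
  cases cs with
  | nil => exact ⟨(0, 0), fun _ => ⟨(pkL_zero _ _).symm, fun _ _ => le_rfl⟩, fun k => rfl⟩
  | cons c cs =>
    obtain ⟨b, hb, hb'⟩ := corP_spec (β := β) hw hl h1 h2 c
    obtain ⟨v, hv, hv'⟩ := minP_spec (β := β) hw hl h1 h2 cs hb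
    refine ⟨v, hv, fun k => ?_⟩
    have e1 : fP (w - 1) (2 ^ (w - 1)) (pkL (2 ^ w) (fun _ => 2 ^ (w - 1)) L) ls q (c :: cs) k
        = corP (w - 1) (2 ^ (w - 1)) (pkL (2 ^ w) (fun _ => 2 ^ (w - 1)) L) ls q c fun b =>
          minP (w - 1) (2 ^ (w - 1)) (pkL (2 ^ w) (fun _ => 2 ^ (w - 1)) L) ls q cs b k := rfl
    rw [e1, hb', hv']

/-- the forms as vectors and as functions -/
def RvF (w : ℕ) (L : List γ) (a : ((ℕ × ℕ) × (ℕ × ℕ)) × List Cr)
    (f : ((γ → ℕ) × (γ → ℕ)) × List Cr) : Prop :=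
  Rv w L a.1.1 f.1.1 ∧ Rv w L a.1.2 f.1.2 ∧ a.2 = f.2

theorem maxP_spec (hw : 0 < w) {ls : List (ℕ × ℕ)} {fs : List (γ → ℕ)}
    (hl : List.Forall₂ (Rv w L) ls fs) {Fs : List (((ℕ × ℕ) × (ℕ × ℕ)) × List Cr)}
    {Gs : List (((γ → ℕ) × (γ → ℕ)) × List Cr)} (hF : List.Forall₂ (RvF w L) Fs Gs) :
    ∀ {a : ℕ × ℕ} {f : γ → ℕ}, Rv w L a f →
    Dl (β := β) w L (maxP (w - 1) (2 ^ (w - 1)) (pkL (2 ^ w) (fun _ => 2 ^ (w - 1)) L) ls Fs a)
      (sMax fs Gs f) := by
  induction hF with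
  | nil => intro a f ha; exact ⟨a, ha, fun k => rfl⟩
  | cons h1 h2 ih =>
    rename_i F G Fs Gs
    intro a f ha
    obtain ⟨b, hb, hb'⟩ := fP_spec (β := β) hw hl h1.1 h1.2.1 F.2
    obtain ⟨v, hv, hv'⟩ := ih (Rv.max hw ha hb)
    rw [h1.2.2] at hv
    refine ⟨v, hv, fun k => ?_⟩
    have e1 : maxP (w - 1) (2 ^ (w - 1)) (pkL (2 ^ w) (fun _ => 2 ^ (w - 1)) L) ls (F :: Fs) a k
        = fP (w - 1) (2 ^ (w - 1)) (pkL (2 ^ w) (fun _ => 2 ^ (w - 1)) L) ls F.1 F.2 fun b =>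
          frV (vmax (w - 1) (2 ^ (w - 1)) (pkL (2 ^ w) (fun _ => 2 ^ (w - 1)) L) a b) fun a' =>
            maxP (w - 1) (2 ^ (w - 1)) (pkL (2 ^ w) (fun _ => 2 ^ (w - 1)) L) ls Fs a' k := rfl
    rw [e1, hb', frV_eq, hv']

end Sl

end Pool.Agent.Lib.MP_f04ccf_co
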