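import Pool.Agent.Lib.MP_f04ccf_co.M.SimX
import Pool.Agent.Lib.MP_f04ccf_co.M.MidX

/-!
MP_f04ccf_co, TEXT D, middle range: **the forms of a cell on lanes** (check (C) of a leaf, `CelF` of `M/MidX.lean`).

* a content is a natural number (code) with the letters `lB lp lx lq lm lh l0 l2 lc la lnb ld` (6 bits, 9 times 5 bits,
  10 bits, 3 bits; `lh` = hosted clique units, `ld` = doubled ones, `li = lh - ld` items); `basF` the basis (1, letters,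
  products);
* `qAK qAO qOK qOO qCM qCO`: the integer coefficients of the four column tests and the two caps, `vAK`, ...;
* `Ev`, `EvOk`: the vectors of a list of codes; `mkEv`, `mkEv_spec`.
-/

set_option autoImplicit false

namespace Pool.Agent.Lib.MP_f04ccf_co

namespace Sl

/-! ### the letters -/

def lB : ℕ → ℕ := lt 0 6
def lp : ℕ → ℕ := lt 6 5
def lx : ℕ → ℕ := lt 11 5
def lq : ℕ → ℕ := lt 16 5
def lm : ℕ → ℕ := lt 21 5
def lh : ℕ → ℕ := lt 26 5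
def l0 : ℕ → ℕ := lt 31 5
def l2 : ℕ → ℕ := lt 36 5
def lc : ℕ → ℕ := lt 41 5
def la : ℕ → ℕ := lt 46 5
def lnb : ℕ → ℕ := lt 51 10
/-- hosted clique items with two units in the cell -/
def ld : ℕ → ℕ := lt 61 3

/-- the digits -/
def digs : List (ℕ × ℕ) := [(0, 6), (6, 5), (11, 5), (16, 5), (21, 5), (26, 5), (31, 5), (36, 5),
  (41, 5), (46, 5), (51, 10), (61, 3)]

/-- the letters -/
def letF : List (ℕ → ℕ) := [lB, lp, lx, lq, lm, lh, l0, l2, lc, la, lnb, ld]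

/-- all PC pairs -/
def lM (c : ℕ) : ℕ := lp c + lx c + lq c
/-- units and items of the served ones -/
def ls (c : ℕ) : ℕ := l0 c + l2 c + lc c + (l0 c + l2 c + la c)
/-- served units of value one -/
def lj (c : ℕ) : ℕ := l0 c + l2 c
/-- hosted PC pairs -/
def lP (c : ℕ) : ℕ := lp c + lx c
/-- hosted plain units -/
def lH (c : ℕ) : ℕ := lm c + lh c
/-- hosted clique items -/
def li (c : ℕ) : ℕ := lh c - ld c
/-- hosted plain items -/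
def lI (c : ℕ) : ℕ := lm c + li c
/-- served plain units -/
def lK (c : ℕ) : ℕ := l0 c + l2 c + lc c

/-- the letters for the products -/
def lexF : List (ℕ → ℕ) := [lB, lp, lx, lq, lm, lh, l0, l2, lc, la, lnb, ld, lM, ls, lj]

/-- the pairs of the products, with the bits of the second factor -/
def prs : List (ℕ × ℕ × ℕ) := [(1, 1, 5), (3, 3, 5), (3, 6, 5), (3, 7, 5), (6, 6, 5), (6, 7, 5),
  (7, 7, 5), (13, 13, 8), (13, 12, 7), (12, 12, 7), (12, 1, 5), (13, 1, 5), (13, 4, 5), (12, 4, 5),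
  (1, 4, 5), (4, 4, 5), (0, 4, 5), (0, 5, 5), (0, 1, 5), (12, 14, 6), (14, 4, 5), (3, 4, 5)]

/-- the basis -/
def basF : List (ℕ → ℤ) := [fun _ => ((1 : ℕ) : ℤ), fun c => (lB c : ℤ), fun c => (lp c : ℤ),
  fun c => (lx c : ℤ), fun c => (lq c : ℤ), fun c => (lm c : ℤ), fun c => (lh c : ℤ),
  fun c => (l0 c : ℤ), fun c => (l2 c : ℤ), fun c => (lc c : ℤ), fun c => (la c : ℤ),
  fun c => (lnb c : ℤ), fun c => (ld c : ℤ), fun c => ((lp c * lp c : ℕ) : ℤ), fun c => ((lq c * lq c : ℕ) : ℤ),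
  fun c => ((lq c * l0 c : ℕ) : ℤ), fun c => ((lq c * l2 c : ℕ) : ℤ),
  fun c => ((l0 c * l0 c : ℕ) : ℤ), fun c => ((l0 c * l2 c : ℕ) : ℤ),
  fun c => ((l2 c * l2 c : ℕ) : ℤ), fun c => ((ls c * ls c : ℕ) : ℤ),
  fun c => ((ls c * lM c : ℕ) : ℤ), fun c => ((lM c * lM c : ℕ) : ℤ),
  fun c => ((lM c * lp c : ℕ) : ℤ), fun c => ((ls c * lp c : ℕ) : ℤ),
  fun c => ((ls c * lm c : ℕ) : ℤ), fun c => ((lM c * lm c : ℕ) : ℤ),
  fun c => ((lp c * lm c : ℕ) : ℤ), fun c => ((lm c * lm c : ℕ) : ℤ),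
  fun c => ((lB c * lm c : ℕ) : ℤ), fun c => ((lB c * lh c : ℕ) : ℤ),
  fun c => ((lB c * lp c : ℕ) : ℤ), fun c => ((lM c * lj c : ℕ) : ℤ),
  fun c => ((lj c * lm c : ℕ) : ℤ), fun c => ((lq c * lm c : ℕ) : ℤ)]

/-! ### the forms -/

def qAK (R A : ℤ) : List ℤ := [2*R+2, -2, -2*R-1, 2*A-2*R, 2*A-2*R, -2*R-2, -2*R-2, 2*A-2*R+2,
  2*A-2*R+2, 2*A-2*R-1, 1, 0, 0, 1, 0, 0, 2, -2, -4, -2, 1, 2, 2, -2, -2, 0, 0, 0, 0, 2, 2, 2]
def qAO (R A : ℤ) : List ℤ := [2*R+2, -2, 2*A-2*R, 2*A-2*R, 2*A-2*R, -2*R-2, -2*R-2, 2*A-2*R+2,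
  2*A-2*R+2, 2*A-2*R-1, 1, 0, 0, 0, 0, 0, 2, -2, -4, -2, 1, 2, 2, 0, 0, 0, 0, 0, 0, 2, 2]
def qOK (R A : ℤ) : List ℤ := [2*R+2, -2, -2*R-1, 2*A-2*R, 2*A-2*R, 2*A+2-2*R, 0, 2*A-2*R+2,
  2*A-2*R+2, 2*A-2*R-1, 1, 0, 0, 1, 0, 0, 2, -2, -4, -2, 1, 2, 2, -2, -2, 4, 4, -4, 2, -2, 0, 2]
def qOO (R A : ℤ) : List ℤ := [2*R+2, -2, 2*A-2*R, 2*A-2*R, 2*A-2*R, 2*A+2-2*R, 0, 2*A-2*R+2,
  2*A-2*R+2, 2*A-2*R-1, 1, 0, 0, 0, 0, 0, 2, -2, -4, -2, 1, 2, 2, 0, 0, 4, 4, 0, 2, -2]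
def qCM (R A : ℤ) : List ℤ := [2*R-2*A+2, 2*A-2, -2*R, -2*R, -2*R, 2-2*R, 0, -2*(R+A-1),
  -2*(R+A-1), 0, 0, 0, 0, 0, 0, 0, 0, 2, 4, 2, 0, 0, 2, 0, 0, 0, 4, 0, 2, -2, 0, 0, 4, 8]
def qCO (R A : ℤ) : List ℤ := [2*R-2*A+2, 2*A-2, 0, 0, 0, 2-2*R, 0, -2*(R+A-1), -2*(R+A-1), 0, 0,
  0, 0, 0, 0, 2, 2, 2, 4, 2, 0, 0, 0, 0, 0, 0, 2, 0, 2, -2, 0, 0, 0, 8, -2]
/-- the letters `u` of the four forms -/
def uAK : List ℤ := [1, -1, 0, 1, 1, 0, 0, 2, 2, 1, 1]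
def uAO : List ℤ := [1, -1, 1, 1, 1, 0, 0, 2, 2, 1, 1]
def uOK : List ℤ := [1, -1, 0, 1, 1, 1, 0, 2, 2, 1, 1]
def uOO : List ℤ := [1, -1, 1, 1, 1, 1, 0, 2, 2, 1, 1]

/-- the values of the basis -/
def basV (B p x q m h k0 k2 c a nb d2 : ℤ) : List ℤ := [1, B, p, x, q, m, h, k0, k2, c, a, nb, d2,
  p*p, q*q, q*k0, q*k2, k0*k0, k0*k2, k2*k2,
  (2*k0+2*k2+c+a)*(2*k0+2*k2+c+a), (2*k0+2*k2+c+a)*(p+x+q), (p+x+q)*(p+x+q), (p+x+q)*p,
  (2*k0+2*k2+c+a)*p, (2*k0+2*k2+c+a)*m, (p+x+q)*m, p*m, m*m, B*m, B*h, B*p, (p+x+q)*(k0+k2),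
  (k0+k2)*m, q*m]

lemma basF_val (c : ℕ) : (basF.map fun f => f c) = basV (lB c) (lp c) (lx c) (lq c) (lm c) (lh c)
    (l0 c) (l2 c) (lc c) (la c) (lnb c) (ld c) := by
  unfold basF basV ls lM lj
  simp only [List.map_cons, List.map_nil]
  push_cast
  have e1 : ((l0 c : ℤ) + l2 c + lc c + (l0 c + l2 c + la c))
      = 2 * (l0 c : ℤ) + 2 * l2 c + lc c + la c := by ring
  rw [e1]

lemma vAK (R A B p x q m h k0 k2 c a nb d2 mb w wc gn p1 d H P : ℤ) :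
    colAK R A B p (p + x + q) (m + h) mb (k0 + k2 + c) (k0 + k2 + a) (k0 + k2) (w + k2 * q + wc)
      gn p1 d H P = zdot (qAK R A) (basV B p x q m h k0 k2 c a nb d2) + 2 * mb + 2 * w + 2 * wc
      - (p1 + 1) * p + (2 * (H + P) - 2 * d) * (1 - B + x + q + 2 * k0 + 2 * k2 + c + a)
      + ((H + P) * (H + P) + 2 * A * (H + P) + P * (p1 + 1)) - ((H + P) * (2 * d + 1) + gn) := by
  unfold colAK colR qAK basV
  simp only [zdot]
  ring

lemma vAO (R A B p x q m h k0 k2 c a nb d2 mb w wc gn p1 d H : ℤ) :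
    colAO R A B (p + x + q) (m + h) 0 m mb (k0 + k2 + c) (k0 + k2 + a) (k0 + k2) (w + k2 * q + wc)
      gn p1 d H = zdot (qAO R A) (basV B p x q m h k0 k2 c a nb d2) + 2 * mb + 2 * w + 2 * wc
      - 2 * p1 * m + (2 * H - 2 * d) * (1 - B + p + x + q + 2 * k0 + 2 * k2 + c + a)
      + (H * H + 2 * A * H + 2 * p1 * (A + H)) - (H * (2 * d + 1) + 2 * p1 * d + gn) := by
  unfold colAO colR qAO basV
  simp only [zdot]
  ring

lemma vOK (R A B p x q m h k0 k2 c a nb d2 mb w wc p1 D P : ℤ) :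
    colOK R A B p (p + x + q) 0 m mb (k0 + k2 + c) (k0 + k2 + a) (k0 + k2) (w + k2 * q + wc)
      p1 D P = zdot (qOK R A) (basV B p x q m h k0 k2 c a nb d2) + 2 * mb + 2 * w + 2 * wc
      - (p1 + 1) * p + (2 * P - 2 * D) * (1 - B + x + q + m + 2 * k0 + 2 * k2 + c + a)
      + 2 * P * m + (P * P + 2 * A * P + P * (p1 + 1)) - P * (2 * D + 1) := by
  unfold colOK colR qOK basV
  simp only [zdot]
  ring

lemma vOO (R A B p x q m h k0 k2 c a nb d2 mb w wc p1 D : ℤ) :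
    colOO R A B (p + x + q) 0 m mb (k0 + k2 + c) (k0 + k2 + a) (k0 + k2) (w + k2 * q + wc)
      p1 D = zdot (qOO R A) (basV B p x q m h k0 k2 c a nb d2) + 2 * mb + 2 * w + 2 * wc
      + 2 * p1 * m + (0 - 2 * D) * (1 - B + p + x + q + m + 2 * k0 + 2 * k2 + c + a)
      + 2 * p1 * A - 2 * p1 * D := by
  unfold colOO colR qOO basV
  simp only [zdot]
  ring

lemma vCM (R A B p x q m h k0 k2 c a nb d2 hw w : ℤ)
    (hc : CapVM R A B (p + x + q) (0 + m) (k0 + k2) hw w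
      (2 * ((0 + m) * (0 + m - 1)) + 2 * ((k0 + k2) * (k0 + k2 - 1)))) :
    0 ≤ zdot (qCM R A) (basV B p x q m h k0 k2 c a nb d2) + 2 * hw + 2 * w := by
  unfold CapVM at hc
  unfold qCM basV
  simp only [zdot]
  linarith

lemma vCO (R A B p x q m h k0 k2 c a nb d2 hw w : ℤ)
    (hc : CapVO R A B (p + x) q (0 + m) (k0 + k2) hw w
      (2 * ((0 + m) * (0 + m - 1)) + 2 * ((k0 + k2) * (k0 + k2 - 1)))) :
    0 ≤ zdot (qCO R A) (basV B p x q m h k0 k2 c a nb d2) + 2 * hw + 2 * w := by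
  unfold CapVO at hc
  unfold qCO basV
  simp only [zdot]
  linarith

/-! ### the vectors of a list of codes -/

variable {β : Type}

/-- append -/
noncomputable def appL {α : Type} (xs ys : List α) : List α :=
  List.rec (motive := fun _ => List α) ys (fun x _ ih => x :: ih) xs

lemma appL_spec {α δ : Type} {r : α → δ → Prop} {xs ys : List α} {fs gs : List δ}
    (h : List.Forall₂ r xs fs) (h' : List.Forall₂ r ys gs) :
    List.Forall₂ r (appL xs ys) (fs ++ gs) := by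
  induction h with
  | nil => exact h'
  | cons h1 _ ih => exact List.Forall₂.cons h1 ih

/-- natural vectors as signed ones -/
noncomputable def zofs (xs : List (ℕ × ℕ)) : List Vz :=
  List.rec (motive := fun _ => List Vz) [] (fun x _ ih => ⟨x.1, x.2, 0, 0⟩ :: ih) xs

lemma zofs_spec {w : ℕ} {L : List ℕ} {xs : List (ℕ × ℕ)} {fs : List (ℕ → ℕ)}
    (h : List.Forall₂ (Rv w L) xs fs) :
    List.Forall₂ (Rz w L) (zofs xs) (fs.map fun f c => (f c : ℤ)) := by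
  induction h with
  | nil => exact List.Forall₂.nil
  | cons h1 _ ih => exact List.Forall₂.cons h1.toRz ih

/-- the vectors of a list of codes -/
structure Ev where
  (g : Gp) (F : ℕ) (lt bl : List (ℕ × ℕ)) (zb : List Vz) (ones mB hB kB aB : List (ℕ × ℕ))
  (sAK sAO sOK sOO sCM sCO u1 u2 u3 u4 v1 v2 v3 v4 : Vz) (sh gv : ℕ × ℕ)

/-- the tables of the payments by the size of the cell: `D - P A B`, `D - S A B`, `G A B`, `P B A`, `S B A`, `G B A` -/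
structure PayL where
  (ph sh gh ps ss gs : List ℕ)

/-- the entry for the size `B` -/
def tg (tab : List ℕ) (B : ℕ) : ℕ := tab.getD (B - 1) 0

/-- the entry for the size `B`, `0` outside of `1, .., n` -/
def tq (n : ℕ) (tab : List ℕ) (c : ℕ) : ℕ :=
  if 1 ≤ lB c ∧ lB c < 1 + n then tab.getD (lB c - 1) 0 else 0

lemma tq_eq {n : ℕ} (tab : List ℕ) {c : ℕ} (h1 : 1 ≤ lB c) (h2 : lB c ≤ n) :
    tq n tab c = tg tab (lB c) := by
  unfold tq tg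
  rw [if_pos ⟨h1, by omega⟩]

/-- the letters with bounds: `p x q m k0 k2 c ca, m + mc, m + items, items, doubled` -/
def bndF : List (ℕ → ℕ) := [lp, lx, lq, lm, l0, l2, lc, la, lH, lI, li, ld]

/-- the share without the misses of the hosted units -/
def shF (n : ℕ) (y : PayL) (c : ℕ) : ℕ :=
  tq n y.ph c * lP c + tq n y.sh c * lH c + (tq n y.ps c * lq c + tq n y.ss c * lK c)

/-- the vectors are right -/
structure EvOk (w : ℕ) (L : List ℕ) (R A : ℤ) (n : ℕ) (y : PayL) (e : Ev) : Prop where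
  g : e.g = gp w L
  F : e.F = 2 ^ w - 1
  lt : List.Forall₂ (Rv w L) e.lt lexF
  bl : List.Forall₂ (Rv w L) e.bl bndF
  zb : List.Forall₂ (Rz w L) e.zb basF
  ones : List.Forall₂ (Rv w L) e.ones (rngM lB (fun _ => 1) n 1)
  mB : List.Forall₂ (Rv w L) e.mB (rngM lB lm n 1)
  hB : List.Forall₂ (Rv w L) e.hB (rngM lB li n 1)
  kB : List.Forall₂ (Rv w L) e.kB (rngM lB l2 n 1)
  aB : List.Forall₂ (Rv w L) e.aB (rngM lB la n 1)
  sAK : Rz w L e.sAK (fun c => 0 + zdot (qAK R A) (basF.map fun f => f c))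
  sAO : Rz w L e.sAO (fun c => 0 + zdot (qAO R A) (basF.map fun f => f c))
  sOK : Rz w L e.sOK (fun c => 0 + zdot (qOK R A) (basF.map fun f => f c))
  sOO : Rz w L e.sOO (fun c => 0 + zdot (qOO R A) (basF.map fun f => f c))
  sCM : Rz w L e.sCM (fun c => 0 + zdot (qCM R A) (basF.map fun f => f c))
  sCO : Rz w L e.sCO (fun c => 0 + zdot (qCO R A) (basF.map fun f => f c))
  u1 : Rz w L e.u1 (fun c => 0 + zdot uAK (basF.map fun f => f c))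
  u2 : Rz w L e.u2 (fun c => 0 + zdot uAO (basF.map fun f => f c))
  u3 : Rz w L e.u3 (fun c => 0 + zdot uOK (basF.map fun f => f c))
  u4 : Rz w L e.u4 (fun c => 0 + zdot uOO (basF.map fun f => f c))
  v1 : Rz w L e.v1 (fun c => -(0 + zdot uAK (basF.map fun f => f c)))
  v2 : Rz w L e.v2 (fun c => -(0 + zdot uAO (basF.map fun f => f c)))
  v3 : Rz w L e.v3 (fun c => -(0 + zdot uOK (basF.map fun f => f c)))
  v4 : Rz w L e.v4 (fun c => -(0 + zdot uOO (basF.map fun f => f c)))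
  sh : Rv w L e.sh (shF n y)
  gv : Rv w L e.gv (tq n y.gs)

/-- the vectors of a list of codes, packed: `rec`; `O` the vector of ones -/
noncomputable def mkEv (w O rec : ℕ) (R A : ℤ) (n : ℕ) (y : PayL) (k : Ev → β) : β :=
  Mid.frN (Nat.sub w 1) fun w1 => Mid.frN (Nat.pow 2 w1) fun T => Mid.frN (Nat.mul T O) fun M =>
  Mid.frN (Nat.sub (Nat.pow 2 w) 1) fun F =>
  letP O rec digs fun vs =>
  frV (vadd (vadd (nthV vs 1) (nthV vs 2)) (nthV vs 3)) fun vM =>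
  frV (vadd (vadd (nthV vs 6) (nthV vs 7)) (nthV vs 8)) fun vK =>
  frV (vadd vK (vadd (vadd (nthV vs 6) (nthV vs 7)) (nthV vs 9))) fun vS =>
  frV (vadd (nthV vs 6) (nthV vs 7)) fun vJ =>
  frV (vadd (nthV vs 1) (nthV vs 2)) fun vP =>
  frV (vadd (nthV vs 4) (nthV vs 5)) fun vH =>
  frV (vsub w1 T M (nthV vs 5) (nthV vs 11)) fun vi => frV (vadd (nthV vs 4) vi) fun vI =>
  prodP ⟨w1, T, M, O⟩ (appL vs [vM, vS, vJ]) prs fun pr =>
  onesP ⟨w1, T, M, O⟩ (nthV vs 0) n [] fun os =>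
  mskP F (nthV vs 4) os fun mB => mskP F vi os fun hB =>
  mskP F (nthV vs 7) os fun kB => mskP F (nthV vs 9) os fun aB =>
  zlinK O (qAK R A) (⟨O, 1, 0, 0⟩ :: zofs (appL vs pr)) ⟨0, 0, 0, 0⟩ fun s1 =>
  zlinK O (qAO R A) (⟨O, 1, 0, 0⟩ :: zofs (appL vs pr)) ⟨0, 0, 0, 0⟩ fun s2 =>
  zlinK O (qOK R A) (⟨O, 1, 0, 0⟩ :: zofs (appL vs pr)) ⟨0, 0, 0, 0⟩ fun s3 =>
  zlinK O (qOO R A) (⟨O, 1, 0, 0⟩ :: zofs (appL vs pr)) ⟨0, 0, 0, 0⟩ fun s4 =>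
  zlinK O (qCM R A) (⟨O, 1, 0, 0⟩ :: zofs (appL vs pr)) ⟨0, 0, 0, 0⟩ fun s5 =>
  zlinK O (qCO R A) (⟨O, 1, 0, 0⟩ :: zofs (appL vs pr)) ⟨0, 0, 0, 0⟩ fun s6 =>
  zlinK O uAK (⟨O, 1, 0, 0⟩ :: zofs (appL vs pr)) ⟨0, 0, 0, 0⟩ fun u1 =>
  zlinK O uAO (⟨O, 1, 0, 0⟩ :: zofs (appL vs pr)) ⟨0, 0, 0, 0⟩ fun u2 =>
  zlinK O uOK (⟨O, 1, 0, 0⟩ :: zofs (appL vs pr)) ⟨0, 0, 0, 0⟩ fun u3 =>
  zlinK O uOO (⟨O, 1, 0, 0⟩ :: zofs (appL vs pr)) ⟨0, 0, 0, 0⟩ fun u4 =>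
  frZ (zneg O u1) fun v1 => frZ (zneg O u2) fun v2 => frZ (zneg O u3) fun v3 =>
  frZ (zneg O u4) fun v4 =>
  frV (vdot y.ph os) fun a1 => frV (vdot y.sh os) fun a2 => frV (vdot y.ps os) fun a3 =>
  frV (vdot y.ss os) fun a4 => frV (vdot y.gs os) fun a5 =>
  vmulb w1 T O 6 a1 vP fun b1 => vmulb w1 T O 6 a2 vH fun b2 =>
  vmulb w1 T O 5 a3 (nthV vs 3) fun b3 => vmulb w1 T O 7 a4 vK fun b4 =>
  frV (vadd (vadd b1 b2) (vadd b3 b4)) fun sh =>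
  k ⟨⟨w1, T, M, O⟩, F, appL vs [vM, vS, vJ],
    [nthV vs 1, nthV vs 2, nthV vs 3, nthV vs 4, nthV vs 6, nthV vs 7, nthV vs 8, nthV vs 9, vH, vI,
      vi, nthV vs 11], ⟨O, 1, 0, 0⟩ :: zofs (appL vs pr), os, mB, hB, kB, aB, s1, s2, s3, s4, s5, s6,
    u1, u2, u3, u4, v1, v2, v3, v4, sh, a5⟩

lemma rngF_one (f : ℕ → ℕ) {w : ℕ} {L : List ℕ} : ∀ {n a : ℕ} {os : List (ℕ × ℕ)},
    List.Forall₂ (Rv w L) os (rngF f n a) → List.Forall₂ (Rv w L) os (rngM f (fun _ => 1) n a) := by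
  intro n
  induction n with
  | zero => intro a os h; cases h; exact List.Forall₂.nil
  | succ n ih =>
    intro a os h
    cases h with
    | cons h1 h2 =>
      refine List.Forall₂.cons (h1.congr fun c _ => (Nat.mul_one _).symm) (ih h2)

/-- **the vectors of a list of codes are right** -/
theorem mkEv_spec {w : ℕ} (hw : 64 ≤ w) {L : List ℕ} (hL : ∀ c ∈ L, c < 2 ^ w) (R A : ℤ) (n : ℕ)
    (y : PayL) : ∃ e : Ev, EvOk w L R A n y e ∧ ∀ k : Ev → β,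
      mkEv w (pkL (2 ^ w) (fun _ => 1) L) (pkL (2 ^ w) (fun c => c) L) R A n y k = k e := by
  have hw0 : 0 < w := by omega
  have hMM : 2 ^ (w - 1) * pkL (2 ^ w) (fun _ => 1) L = pkL (2 ^ w) (fun _ => 2 ^ (w - 1)) L := by
    rw [pkL_smul]
    exact pkL_congr fun c _ => Nat.mul_one _
  have hgp : (⟨w - 1, 2 ^ (w - 1), pkL (2 ^ w) (fun _ => 2 ^ (w - 1)) L,
      pkL (2 ^ w) (fun _ => 1) L⟩ : Gp) = gp w L := rfl
  obtain ⟨vs, h1, h2⟩ := letP_spec (β := β) hL digs (by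
    intro d hd
    have : d ∈ digs := hd
    unfold digs at this
    simp only [List.mem_cons, List.not_mem_nil, or_false] at this
    rcases this with rfl | rfl | rfl | rfl | rfl | rfl | rfl | rfl | rfl | rfl | rfl | rfl <;>
    · dsimp only
      omega)
  have h1' : List.Forall₂ (Rv w L) vs letF := h1
  have n0 : Rv w L (nthV vs 0) lB := nthV_spec h1' 0
  have n1 : Rv w L (nthV vs 1) lp := nthV_spec h1' 1
  have n2 : Rv w L (nthV vs 2) lx := nthV_spec h1' 2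
  have n3 : Rv w L (nthV vs 3) lq := nthV_spec h1' 3
  have n4 : Rv w L (nthV vs 4) lm := nthV_spec h1' 4
  have n5 : Rv w L (nthV vs 5) lh := nthV_spec h1' 5
  have n6 : Rv w L (nthV vs 6) l0 := nthV_spec h1' 6
  have n7 : Rv w L (nthV vs 7) l2 := nthV_spec h1' 7
  have n8 : Rv w L (nthV vs 8) lc := nthV_spec h1' 8
  have n9 : Rv w L (nthV vs 9) la := nthV_spec h1' 9
  have n11 : Rv w L (nthV vs 11) ld := nthV_spec h1' 11
  have hM : Rv w L (vadd (vadd (nthV vs 1) (nthV vs 2)) (nthV vs 3)) lM := (n1.add n2).add n3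
  have hK : Rv w L (vadd (vadd (nthV vs 6) (nthV vs 7)) (nthV vs 8)) lK := (n6.add n7).add n8
  have hS : Rv w L (vadd (vadd (vadd (nthV vs 6) (nthV vs 7)) (nthV vs 8))
      (vadd (vadd (nthV vs 6) (nthV vs 7)) (nthV vs 9))) ls := hK.add ((n6.add n7).add n9)
  have hJ : Rv w L (vadd (nthV vs 6) (nthV vs 7)) lj := n6.add n7
  have hP : Rv w L (vadd (nthV vs 1) (nthV vs 2)) lP := n1.add n2
  have hH : Rv w L (vadd (nthV vs 4) (nthV vs 5)) lH := n4.add n5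
  have hi := Rv.sub hw0 n5 n11
  have hI := n4.add hi
  have hlex : List.Forall₂ (Rv w L) (appL vs [vadd (vadd (nthV vs 1) (nthV vs 2)) (nthV vs 3),
      vadd (vadd (vadd (nthV vs 6) (nthV vs 7)) (nthV vs 8))
        (vadd (vadd (nthV vs 6) (nthV vs 7)) (nthV vs 9)), vadd (nthV vs 6) (nthV vs 7)]) lexF :=
    appL_spec h1' (List.Forall₂.cons hM (List.Forall₂.cons hS (List.Forall₂.cons hJ
      List.Forall₂.nil)))
  obtain ⟨pr, h3, h4⟩ := prodP_spec (β := β) hw0 hlex prs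
  have hone : Rz w L ⟨pkL (2 ^ w) (fun _ => 1) L, 1, 0, 0⟩ (fun _ => ((1 : ℕ) : ℤ)) := by
    have h5 : Rv w L (pkL (2 ^ w) (fun _ => 1) L, 1) (fun _ => 1) := fun _ =>
      ⟨rfl, fun _ _ => le_rfl⟩
    exact h5.toRz
  have hzb : List.Forall₂ (Rz w L) (⟨pkL (2 ^ w) (fun _ => 1) L, 1, 0, 0⟩ :: zofs (appL vs pr))
      basF := List.Forall₂.cons hone (zofs_spec (appL_spec h1' h3))
  obtain ⟨os, h5, h6⟩ := onesP_spec (β := β) hw0 n0 n (acc := []) (fs := []) List.Forall₂.nil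
  rw [List.append_nil] at h5
  obtain ⟨mB, m1, m2⟩ := mskP_spec (β := β) hw0 n4 lB h5
  obtain ⟨hB, m3, m4⟩ := mskP_spec (β := β) hw0 hi lB h5
  obtain ⟨kB, m5, m6⟩ := mskP_spec (β := β) hw0 n7 lB h5
  obtain ⟨aB, m7, m8⟩ := mskP_spec (β := β) hw0 n9 lB h5
  obtain ⟨s1, s11, s12⟩ := zlinK_spec (β := β) hzb (qAK R A) Rz.zero
  obtain ⟨s2, s21, s22⟩ := zlinK_spec (β := β) hzb (qAO R A) Rz.zero
  obtain ⟨s3, s31, s32⟩ := zlinK_spec (β := β) hzb (qOK R A) Rz.zero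
  obtain ⟨s4, s41, s42⟩ := zlinK_spec (β := β) hzb (qOO R A) Rz.zero
  obtain ⟨s5, s51, s52⟩ := zlinK_spec (β := β) hzb (qCM R A) Rz.zero
  obtain ⟨s6, s61, s62⟩ := zlinK_spec (β := β) hzb (qCO R A) Rz.zero
  obtain ⟨u1, u11, u12⟩ := zlinK_spec (β := β) hzb uAK Rz.zero
  obtain ⟨u2, u21, u22⟩ := zlinK_spec (β := β) hzb uAO Rz.zero
  obtain ⟨u3, u31, u32⟩ := zlinK_spec (β := β) hzb uOK Rz.zero
  obtain ⟨u4, u41, u42⟩ := zlinK_spec (β := β) hzb uOO Rz.zero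
  have h7 := rngF_one lB h5
  have tv : ∀ tab : List ℕ, Rv w L (vdot tab os) (tq n tab) := fun tab =>
    (tabv_spec h7 tab).congr fun c _ => Nat.mul_one _
  obtain ⟨b1, b11, b12⟩ := vmulb_spec (β := β) hw0 6 (tv y.ph) hP
  obtain ⟨b2, b21, b22⟩ := vmulb_spec (β := β) hw0 6 (tv y.sh) hH
  obtain ⟨b3, b31, b32⟩ := vmulb_spec (β := β) hw0 5 (tv y.ps) n3
  obtain ⟨b4, b41, b42⟩ := vmulb_spec (β := β) hw0 7 (tv y.ss) hK
  refine ⟨⟨gp w L, 2 ^ w - 1, appL vs [vadd (vadd (nthV vs 1) (nthV vs 2)) (nthV vs 3),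
      vadd (vadd (vadd (nthV vs 6) (nthV vs 7)) (nthV vs 8))
        (vadd (vadd (nthV vs 6) (nthV vs 7)) (nthV vs 9)), vadd (nthV vs 6) (nthV vs 7)],
    [nthV vs 1, nthV vs 2, nthV vs 3, nthV vs 4, nthV vs 6, nthV vs 7, nthV vs 8, nthV vs 9,
      vadd (nthV vs 4) (nthV vs 5), vadd (nthV vs 4) (vsub (w - 1) (2 ^ (w - 1))
        (pkL (2 ^ w) (fun _ => 2 ^ (w - 1)) L) (nthV vs 5) (nthV vs 11)), vsub (w - 1) (2 ^ (w - 1))
        (pkL (2 ^ w) (fun _ => 2 ^ (w - 1)) L) (nthV vs 5) (nthV vs 11), nthV vs 11],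
    ⟨pkL (2 ^ w) (fun _ => 1) L, 1, 0, 0⟩ :: zofs (appL vs pr), os, mB, hB, kB, aB, s1, s2, s3, s4,
    s5, s6, u1, u2, u3, u4, zneg (pkL (2 ^ w) (fun _ => 1) L) u1,
    zneg (pkL (2 ^ w) (fun _ => 1) L) u2, zneg (pkL (2 ^ w) (fun _ => 1) L) u3,
    zneg (pkL (2 ^ w) (fun _ => 1) L) u4, vadd (vadd b1 b2) (vadd b3 b4), vdot y.gs os⟩,
    ⟨rfl, rfl, hlex, ?_, hzb, h7, m1, m3, m5, m7, s11, s21, s31, s41, s51, s61, u11, u21, u31, u41,
      u11.neg, u21.neg, u31.neg, u41.neg, (b11.add b21).add (b31.add b41), tv y.gs⟩, fun k => ?_⟩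
  · exact List.Forall₂.cons n1 (List.Forall₂.cons n2 (List.Forall₂.cons n3 (List.Forall₂.cons n4
      (List.Forall₂.cons n6 (List.Forall₂.cons n7 (List.Forall₂.cons n8 (List.Forall₂.cons n9
        (List.Forall₂.cons hH (List.Forall₂.cons hI (List.Forall₂.cons hi
          (List.Forall₂.cons n11 List.Forall₂.nil)))))))))))
  · have e0 : Nat.sub (Nat.pow 2 w) 1 = 2 ^ w - 1 := rfl
    have e1 : Nat.mul (2 ^ (w - 1)) (pkL (2 ^ w) (fun _ => 1) L)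
      = pkL (2 ^ w) (fun _ => 2 ^ (w - 1)) L := hMM
    have e2 : Nat.sub w 1 = w - 1 := rfl
    have e3 : Nat.pow 2 (w - 1) = 2 ^ (w - 1) := rfl
    unfold mkEv
    simp only [Mid.frN_eq, frV_eq, frZ_eq]
    rw [e2, e3, e0, e1, hgp, h2]
    rw [h4, h6, m2, m4, m6, m8, s12, s22, s32, s42, s52, s62, u12, u22, u32, u42]
    have e4 := b12
    rw [b12, b22, b32, b42]

end Sl

end Pool.Agent.Lib.MP_f04ccf_co
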