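import Pool.Agent.Lib.MP_f04ccf_co.M.LeafQ

/-!
MP_f04ccf_co, TEXT D, middle range: **the check (C) of a leaf on lanes.**

* `TabL`: the tables of a box by the size of the cell (`bH wH bS a1 Wm bC bK aK`, lists); `Et`, `mkEt`, `EtOk`;
* `LfC`: the data of a leaf; `leafC`: the check; **`leafC_sound`: for every code of the list and all numbers of
  `CelF`: the inequality of the cell.**
-/

set_option autoImplicit false

namespace Pool.Agent.Lib.MP_f04ccf_co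

namespace Sl

variable {β : Type}

/-- the tables by the size of the cell -/
structure TabL where
  (bH wH bS a1 Wm bC bK aK : List ℕ)

/-- products of two lists, entry by entry (forced) -/
noncomputable def mulL (xs : List ℕ) : List ℕ → (List ℕ → β) → β :=
  List.rec (motive := fun _ => List ℕ → (List ℕ → β) → β) (fun _ k => k [])
    (fun x _ ih ys k => List.casesOn (motive := fun _ => β) ys (k [])
      (fun y ys' => Mid.frN (Nat.mul x y) fun z => ih ys' fun zs => k (z :: zs))) xs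

/-- products of two lists -/
def mulZ (xs : List ℕ) : List ℕ → List ℕ :=
  List.rec (motive := fun _ => List ℕ → List ℕ) (fun _ => [])
    (fun x _ ih ys => List.casesOn (motive := fun _ => List ℕ) ys [] (fun y ys' => x * y :: ih ys')) xs

lemma mulL_eq : ∀ (xs ys : List ℕ) (k : List ℕ → β), mulL xs ys k = k (mulZ xs ys) := by
  intro xs
  induction xs with
  | nil => intro ys k; rfl
  | cons x xs ih =>
    intro ys k
    cases ys with
    | nil => rfl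
    | cons y ys =>
      have e1 : mulL (x :: xs) (y :: ys) k = Mid.frN (Nat.mul x y) fun z =>
        mulL xs ys fun zs => k (z :: zs) := rfl
      rw [e1, Mid.frN_eq, ih]
      rfl

lemma mulZ_get : ∀ (xs ys : List ℕ) (i : ℕ), (mulZ xs ys).getD i 0 = xs.getD i 0 * ys.getD i 0 := by
  intro xs
  induction xs with
  | nil => intro ys i; show ([] : List ℕ).getD i 0 = _; simp
  | cons x xs ih =>
    intro ys i
    cases ys with
    | nil => show ([] : List ℕ).getD i 0 = _; simp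
    | cons y ys =>
      show (x * y :: mulZ xs ys).getD i 0 = _
      cases i with
      | zero => rfl
      | succ i => rw [List.getD_cons_succ, List.getD_cons_succ, List.getD_cons_succ, ih]

/-- the vectors of the tables -/
structure Et where
  (fAK fAO fOK fOO fC : Vz) (kA kW kS cb sh kG : ℕ × ℕ)

/-- the entries -/
structure EtOk (w : ℕ) (L : List ℕ) (R A : ℤ) (n : ℕ) (y : PayL) (t : TabL) (x : Et) : Prop where
  fAK : Rz w L x.fAK (fun c => 0 + zdot (qAK R A) (basF.map fun f => f c)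
    + 2 * ((tq n t.bH c * lm c + tq n t.bC c * li c : ℕ) : ℤ)
    + 2 * ((tq n t.bK c * la c + tq n t.aK c * la c : ℕ) : ℤ))
  fAO : Rz w L x.fAO (fun c => 0 + zdot (qAO R A) (basF.map fun f => f c)
    + 2 * ((tq n t.bH c * lm c + tq n t.bC c * li c : ℕ) : ℤ)
    + 2 * ((tq n t.bK c * la c + tq n t.aK c * la c : ℕ) : ℤ))
  fOK : Rz w L x.fOK (fun c => 0 + zdot (qOK R A) (basF.map fun f => f c)
    + 2 * ((tq n t.bH c * lm c : ℕ) : ℤ) + 2 * ((tq n t.bK c * la c + tq n t.aK c * la c : ℕ) : ℤ))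
  fOO : Rz w L x.fOO (fun c => 0 + zdot (qOO R A) (basF.map fun f => f c)
    + 2 * ((tq n t.bH c * lm c : ℕ) : ℤ) + 2 * ((tq n t.bK c * la c + tq n t.aK c * la c : ℕ) : ℤ))
  fC : Rz w L x.fC (fun c => Min.min
    (0 + zdot (qCM R A) (basF.map fun f => f c) + 2 * ((tq n t.wH c * lm c : ℕ) : ℤ))
    (0 + zdot (qCO R A) (basF.map fun f => f c) + 2 * ((tq n t.wH c * lm c : ℕ) : ℤ)))
  kA : Rv w L x.kA (fun c => 2 * (tq n t.a1 c * l2 c))
  kW : Rv w L x.kW (fun c => 2 * (tq n t.Wm c * l2 c))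
  kS : Rv w L x.kS (fun c => tq n t.bS c * l2 c)
  cb : Rv w L x.cb (fun c => tq n t.bK c * la c)
  sh : Rv w L x.sh (fun c => shF n y c + (tq n (mulZ y.gh t.bH) c * lm c
    + tq n (mulZ y.gh t.bC) c * li c))
  kG : Rv w L x.kG (fun c => tq n (mulZ y.gs t.bS) c * l2 c)

/-- the vectors of the tables -/
noncomputable def mkEt (e : Ev) (y : PayL) (t : TabL) (k : Et → β) : β :=
  frV (vdot t.bH e.mB) fun tH => frV (vdot t.bC e.hB) fun tC => frV (vdot t.wH e.mB) fun tW =>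
  frV (vdot t.bK e.aB) fun cb => frV (vdot t.aK e.aB) fun ca => frV (vadd tH tC) fun hh =>
  frV (vadd cb ca) fun ck =>
  frZ (zadd (zadd e.sAK (zsm 2 (zof hh))) (zsm 2 (zof ck))) fun f1 =>
  frZ (zadd (zadd e.sAO (zsm 2 (zof hh))) (zsm 2 (zof ck))) fun f2 =>
  frZ (zadd (zadd e.sOK (zsm 2 (zof tH))) (zsm 2 (zof ck))) fun f3 =>
  frZ (zadd (zadd e.sOO (zsm 2 (zof tH))) (zsm 2 (zof ck))) fun f4 =>
  frZ (zadd e.sCM (zsm 2 (zof tW))) fun f5 => frZ (zadd e.sCO (zsm 2 (zof tW))) fun f6 =>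
  zmin e.g.w1 e.g.T e.g.M e.g.O f5 f6 fun fC =>
  frV (vsm 2 (vdot t.a1 e.kB)) fun kA => frV (vsm 2 (vdot t.Wm e.kB)) fun kW =>
  frV (vdot t.bS e.kB) fun kS =>
  mulL y.gh t.bH fun g1 => mulL y.gh t.bC fun g2 => mulL y.gs t.bS fun g3 =>
  frV (vadd e.sh (vadd (vdot g1 e.mB) (vdot g2 e.hB))) fun sh =>
  frV (vdot g3 e.kB) fun kG =>
  k ⟨f1, f2, f3, f4, fC, kA, kW, kS, cb, sh, kG⟩

theorem mkEt_spec {w : ℕ} (hw : 0 < w) {L : List ℕ} {R A : ℤ} {n : ℕ} {y : PayL} {e : Ev}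
    (he : EvOk w L R A n y e) (t : TabL) : ∃ x : Et, EtOk w L R A n y t x ∧ ∀ k : Et → β,
      mkEt e y t k = k x := by
  have tH := tabv_spec he.mB t.bH
  have tC := tabv_spec he.hB t.bC
  have tW := tabv_spec he.mB t.wH
  have cb := tabv_spec he.aB t.bK
  have ca := tabv_spec he.aB t.aK
  obtain ⟨fC, c1, c2⟩ := zmin_spec (β := β) hw (he.sCM.add (Rz.smul 2 tW.toRz))
    (he.sCO.add (Rz.smul 2 tW.toRz))
  refine ⟨⟨_, _, _, _, fC, _, _, _, _, _, _⟩,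
    ⟨(he.sAK.add (Rz.smul 2 (tH.add tC).toRz)).add (Rz.smul 2 (cb.add ca).toRz),
      (he.sAO.add (Rz.smul 2 (tH.add tC).toRz)).add (Rz.smul 2 (cb.add ca).toRz),
      (he.sOK.add (Rz.smul 2 tH.toRz)).add (Rz.smul 2 (cb.add ca).toRz),
      (he.sOO.add (Rz.smul 2 tH.toRz)).add (Rz.smul 2 (cb.add ca).toRz), c1,
      Rv.smul 2 (tabv_spec he.kB t.a1), Rv.smul 2 (tabv_spec he.kB t.Wm), tabv_spec he.kB t.bS, cb,
      he.sh.add ((tabv_spec he.mB (mulZ y.gh t.bH)).add (tabv_spec he.hB (mulZ y.gh t.bC))),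
      tabv_spec he.kB (mulZ y.gs t.bS)⟩, fun k => ?_⟩
  have hg : e.g = gp w L := he.g
  unfold mkEt
  simp only [frV_eq, frZ_eq, mulL_eq]
  rw [hg]
  exact c2 _

/-- the data of a leaf: largest block `p1`, corners of the four column tests, bounds of the letters `bs`
(`bndF`), scale `E` of the payments, coefficients `kap` of the misses of the served halves, `kc`
of the served cliques, `mu` of the marked cell (`pm` at least), coefficients `cx` of the basis, right side: table `tB`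
minus `t0` -/
structure LfC where
  (p1 : ℕ) (c1 c2 c3 c4 : List Cor) (bs : List ℕ) (E kap kc mu pm : ℕ) (cx : List ℤ)
  (tB : List ℕ) (t0 : ℕ)

/-- the smallest value of the forms -/
noncomputable def leafV (e : Ev) (x : Et) (f : LfC) (k : Vz → β) : β :=
  zlinK e.g.O [0, 0, Int.negSucc f.p1] e.zb x.fAK fun f1 =>
  zlinK e.g.O [0, 0, 0, 0, 0, Int.negOfNat (Nat.mul 2 f.p1)] e.zb x.fAO fun f2 =>
  zlinK e.g.O [0, 0, Int.negSucc f.p1] e.zb x.fOK fun f3 =>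
  zlinK e.g.O [0, 0, 0, 0, 0, Int.ofNat (Nat.mul 2 f.p1)] e.zb x.fOO fun f4 =>
  frZ (zof (nthV e.lt 4)) fun m =>
  maxK e.g f1 e.u1 e.v1 m f.c1 fun x1 =>
  zmin e.g.w1 e.g.T e.g.M e.g.O x1 x.fC fun y1 =>
  maxK e.g f2 e.u2 e.v2 m f.c2 fun x2 =>
  zmin e.g.w1 e.g.T e.g.M e.g.O x2 y1 fun y2 =>
  maxK e.g f3 e.u3 e.v3 m f.c3 fun x3 =>
  zmin e.g.w1 e.g.T e.g.M e.g.O x3 y2 fun y3 =>
  maxK e.g f4 e.u4 e.v4 m f.c4 fun x4 =>
  zmin e.g.w1 e.g.T e.g.M e.g.O x4 y3 k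

/-- the value of the forms at a code -/
def fVal (R A : ℤ) (n : ℕ) (t : TabL) (f : LfC) (c : ℕ) : ℤ :=
  let b : ℤ := 2 * ((tq n t.bK c * la c + tq n t.aK c * la c : ℕ) : ℤ)
  let h : ℤ := 2 * ((tq n t.bH c * lm c + tq n t.bC c * li c : ℕ) : ℤ)
  let g : ℤ := 2 * ((tq n t.bH c * lm c : ℕ) : ℤ)
  min (corX (0 + zdot (qOO R A) (basF.map fun f => f c) + g + b
      + zdot [0, 0, 0, 0, 0, Int.ofNat (Nat.mul 2 f.p1)] (basF.map fun f => f c))
      (0 + zdot uOO (basF.map fun f => f c)) (lm c) f.c4)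
  (min (corX (0 + zdot (qOK R A) (basF.map fun f => f c) + g + b
      + zdot [0, 0, Int.negSucc f.p1] (basF.map fun f => f c))
      (0 + zdot uOK (basF.map fun f => f c)) (lm c) f.c3)
  (min (corX (0 + zdot (qAO R A) (basF.map fun f => f c) + h + b
      + zdot [0, 0, 0, 0, 0, Int.negOfNat (Nat.mul 2 f.p1)] (basF.map fun f => f c))
      (0 + zdot uAO (basF.map fun f => f c)) (lm c) f.c2)
  (min (corX (0 + zdot (qAK R A) (basF.map fun f => f c) + h + b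
      + zdot [0, 0, Int.negSucc f.p1] (basF.map fun f => f c))
      (0 + zdot uAK (basF.map fun f => f c)) (lm c) f.c1)
  (Min.min (0 + zdot (qCM R A) (basF.map fun f => f c) + 2 * ((tq n t.wH c * lm c : ℕ) : ℤ))
    (0 + zdot (qCO R A) (basF.map fun f => f c) + 2 * ((tq n t.wH c * lm c : ℕ) : ℤ))))))

lemma leafV_spec {w : ℕ} (hw : 0 < w) {L : List ℕ} {R A : ℤ} {n : ℕ} {y : PayL} {e : Ev}
    (he : EvOk w L R A n y e) {t : TabL} {x : Et} (hx : EtOk w L R A n y t x) (f : LfC) :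
    Dz (β := β) w L (leafV e x f) (fVal R A n t f) := by
  obtain ⟨f1, f11, f12⟩ := zlinK_spec (β := β) he.zb [0, 0, Int.negSucc f.p1] hx.fAK
  obtain ⟨f2, f21, f22⟩ := zlinK_spec (β := β) he.zb
    [0, 0, 0, 0, 0, Int.negOfNat (Nat.mul 2 f.p1)] hx.fAO
  obtain ⟨f3, f31, f32⟩ := zlinK_spec (β := β) he.zb [0, 0, Int.negSucc f.p1] hx.fOK
  obtain ⟨f4, f41, f42⟩ := zlinK_spec (β := β) he.zb
    [0, 0, 0, 0, 0, Int.ofNat (Nat.mul 2 f.p1)] hx.fOO
  have hm : Rz w L (zof (nthV e.lt 4)) (fun c => (lm c : ℤ)) :=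
    (show Rv w L (nthV e.lt 4) lm from nthV_spec he.lt 4).toRz
  obtain ⟨x1, x11, x12⟩ := maxK_spec (β := β) hw f11 he.u1 he.v1 hm f.c1
  obtain ⟨y1, y11, y12⟩ := zmin_spec (β := β) hw x11 hx.fC
  obtain ⟨x2, x21, x22⟩ := maxK_spec (β := β) hw f21 he.u2 he.v2 hm f.c2
  obtain ⟨y2, y21, y22⟩ := zmin_spec (β := β) hw x21 y11
  obtain ⟨x3, x31, x32⟩ := maxK_spec (β := β) hw f31 he.u3 he.v3 hm f.c3
  obtain ⟨y3, y31, y32⟩ := zmin_spec (β := β) hw x31 y21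
  obtain ⟨x4, x41, x42⟩ := maxK_spec (β := β) hw f41 he.u4 he.v4 hm f.c4
  obtain ⟨y4, y41, y42⟩ := zmin_spec (β := β) hw x41 y31
  refine ⟨y4, y41, fun k => ?_⟩
  have hg : e.g = gp w L := he.g
  have hO : (gp w L).O = pkL (2 ^ w) (fun _ => 1) L := rfl
  unfold leafV
  rw [hg, hO, f12, f22, f32, f42, frZ_eq, x12]
  refine (y12 _).trans ?_
  rw [x22]
  refine (y22 _).trans ?_
  rw [x32]
  refine (y32 _).trans ?_
  rw [x42]
  exact y42 k

/-- **the check (C) of a leaf** -/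
noncomputable def leafC (e : Ev) (x : Et) (f : LfC) : Bool :=
  leafV e x f fun V =>
  zre e.g.w1 e.g.T e.g.M e.g.O (zneg e.g.O V) fun N =>
  frV (vsub e.g.w1 e.g.T e.g.M N x.kA) fun nd =>
  frV (Nat.mul 511 e.g.O, 511) fun cl =>
  frV (vmin e.g.w1 e.g.T e.g.M cl nd) fun nd2 =>
  frV (vleq e.g.T e.g.M N x.kW) fun mW => frV (vleq e.g.T e.g.M nd (vsm 2 x.kS)) fun mS =>
  frV (vand mW mS) fun m0 => ltsK e.g e.bl f.bs m0 fun al =>
  frV (Nat.mul f.pm e.g.O, f.pm) fun pc => frV (vleq e.g.T e.g.M pc (nthV e.lt 1)) fun mp =>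
  frV (Nat.shiftRight mp.1 e.g.w1, Nat.succ mp.2) fun pv =>
  frZ (zadd (zadd (zsm f.E (zof x.sh)) (zsm f.kc (zof x.cb))) (zsm f.mu (zof pv))) fun s0 =>
  zlinK e.g.O f.cx e.zb s0 fun X =>
  vmulb e.g.w1 e.g.T e.g.O 9 e.gv nd2 fun gn =>
  frV (vdot f.tB e.ones) fun tb =>
  zle e.g.T e.g.M e.g.O (zadd (zsm 2 X) (zsm f.kap (zof nd2)))
    (zadd (zsm 2 (zsf (zof tb) 0 f.t0)) (zsm f.E (zof gn))) fun i1 =>
  zle e.g.T e.g.M e.g.O (zadd X (zsm f.kap (zof x.kS)))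
    (zadd (zsf (zof tb) 0 f.t0) (zsm f.E (zof x.kG))) fun i2 =>
  vimp e.g.T al (vand i1 i2)

/-- the left side of the inequality of a cell without the misses of the served halves -/
def lhsX (n : ℕ) (y : PayL) (t : TabL) (f : LfC) (c : ℕ) : ℤ :=
  f.E * ((shF n y c + (tq n (mulZ y.gh t.bH) c * lm c + tq n (mulZ y.gh t.bC) c * li c) : ℕ) : ℤ)
    + f.kc * ((tq n t.bK c * la c : ℕ) : ℤ) + f.mu * ((bl 1 (decide (f.pm ≤ lp c)) : ℕ) : ℤ)
    + zdot f.cx (basF.map fun f => f c)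

/-- **soundness, raw form** -/
theorem leafC_raw {w : ℕ} (hw : 0 < w) {L : List ℕ} {R A : ℤ} {n : ℕ} {y : PayL} {e : Ev}
    (he : EvOk w L R A n y e) {t : TabL} {x : Et} (hx : EtOk w L R A n y t x) {f : LfC}
    (h : leafC e x f = true) {c : ℕ} (hc : c ∈ L)
    (h1 : (-(fVal R A n t f c)).toNat ≤ 2 * (tq n t.Wm c * l2 c))
    (h2 : (-(fVal R A n t f c)).toNat - 2 * (tq n t.a1 c * l2 c) ≤ 2 * (tq n t.bS c * l2 c))
    (h3 : ltsB f.bs (bndF.map fun f => f c) = true) :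
    2 * lhsX n y t f c + f.kap * ((min 511 ((-(fVal R A n t f c)).toNat
        - 2 * (tq n t.a1 c * l2 c)) : ℕ) : ℤ)
      ≤ 2 * (((tq n f.tB c : ℕ) : ℤ) + (0 : ℕ) - f.t0) + f.E * ((tq n y.gs c * (min 511
        ((-(fVal R A n t f c)).toNat - 2 * (tq n t.a1 c * l2 c))) : ℕ) : ℤ) ∧
    lhsX n y t f c + f.kap * ((tq n t.bS c * l2 c : ℕ) : ℤ)
      ≤ (((tq n f.tB c : ℕ) : ℤ) + (0 : ℕ) - f.t0)
        + f.E * ((tq n (mulZ y.gs t.bS) c * l2 c : ℕ) : ℤ) := by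
  obtain ⟨V, v1, v2⟩ := leafV_spec (β := Bool) hw he hx f
  obtain ⟨N, n1, n2⟩ := zre_spec (β := Bool) hw v1.neg
  have hnd := Rv.sub hw n1 hx.kA
  have hcl : Rv w L (Nat.mul 511 (pkL (2 ^ w) (fun _ => 1) L), 511) (fun _ => 511) := Rv.const _
  have hnd2 := Rv.min hw hcl hnd
  have hmW := Rm.leq hw n1 hx.kW
  have hmS := Rm.leq hw hnd (Rv.smul 2 hx.kS)
  obtain ⟨al, a1, a2⟩ := ltsK_spec (β := Bool) hw he.bl f.bs (Rm.and hw hmW hmS)
  have hpc : Rv w L (Nat.mul f.pm (pkL (2 ^ w) (fun _ => 1) L), f.pm) (fun _ => f.pm) := Rv.const _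
  have hp1 : Rv w L (nthV e.lt 1) lp := nthV_spec he.lt 1
  have hpv := mask_one (Rm.leq hw hpc hp1)
  have hs0 := ((Rz.smul f.E hx.sh.toRz).add (Rz.smul f.kc hx.cb.toRz)).add
    (Rz.smul f.mu hpv.toRz)
  obtain ⟨X, x1, x2⟩ := zlinK_spec (β := Bool) he.zb f.cx hs0
  obtain ⟨gn, g1, g2⟩ := vmulb_spec (β := Bool) hw 9 he.gv hnd2
  have htb : Rv w L (vdot f.tB e.ones) (tq n f.tB) :=
    (tabv_spec he.ones f.tB).congr fun c _ => Nat.mul_one _
  have htz := zsf_spec htb.toRz 0 f.t0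
  obtain ⟨i1, i11, i12⟩ := zle_spec (β := Bool) hw ((Rz.smul 2 x1).add (Rz.smul f.kap hnd2.toRz))
    ((Rz.smul 2 htz).add (Rz.smul f.E g1.toRz))
  obtain ⟨i2, i21, i22⟩ := zle_spec (β := Bool) hw (x1.add (Rz.smul f.kap hx.kS.toRz))
    (htz.add (Rz.smul f.E hx.kG.toRz))
  have hg : e.g = gp w L := he.g
  have hO : (gp w L).O = pkL (2 ^ w) (fun _ => 1) L := rfl
  have hT : (gp w L).T = 2 ^ (w - 1) := rfl
  have hM : (gp w L).M = pkL (2 ^ w) (fun _ => 2 ^ (w - 1)) L := rfl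
  have hw1 : (gp w L).w1 = w - 1 := rfl
  unfold leafC at h
  rw [v2] at h
  simp only [frV_eq, frZ_eq] at h
  rw [hg] at h
  simp only [hO, hT, hM, hw1] at h
  rw [n2, a2, x2, g2, i12, i22] at h
  have h4 := Rm.imp hw a1 (Rm.and hw i11 i21) h c hc
  have h5 : ((decide ((-(fVal R A n t f c)).toNat ≤ 2 * (tq n t.Wm c * l2 c))
      && decide ((-(fVal R A n t f c)).toNat - 2 * (tq n t.a1 c * l2 c)
        ≤ 2 * (tq n t.bS c * l2 c))) && ltsB f.bs (bndF.map fun f => f c)) = true := by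
    rw [decide_eq_true h1, decide_eq_true h2, h3]
    rfl
  have h6 := h4 h5
  rw [Bool.and_eq_true] at h6
  obtain ⟨h7, h8⟩ := h6
  have h9 := of_decide_eq_true h7
  have h10 := of_decide_eq_true h8
  unfold lhsX
  exact ⟨h9, h10⟩

end Sl

end Pool.Agent.Lib.MP_f04ccf_co
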