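import Pool.Agent.Lib.MP_f04ccf_co.M.SimV

/-!
MP_f04ccf_co, **signed lane-wise arithmetic in the kernel** (over `M/SimV.lean`).

A signed vector `x : Vz` has the packed lanes `x.v`, their bound `x.h` and two numbers `x.a`, `x.b`: its values are
`g + a - b` (`g` the lanes). `Rz w L x f`: if the bound is below `T`, the values are `f`. Operations: `zadd`, `zsm`,
`zneg`, `zlin` (linear combination with integer coefficients), `zmax`, `zmin`, `zre` (positive part, a natural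
vector), `zle` (mask); `vmulb`: the product of two natural vectors, the second one small.
-/

set_option autoImplicit false

namespace Pool.Agent.Lib.MP_f04ccf_co

namespace Sl

variable {γ β : Type} {w : ℕ} {L : List γ}

/-- a signed vector -/
structure Vz where
  (v h a b : ℕ)

/-- the values of a signed vector -/
def Rz (w : ℕ) (L : List γ) (x : Vz) (f : γ → ℤ) : Prop :=
  ∃ g : γ → ℕ, Rv w L (x.v, x.h) g ∧
    (x.h < 2 ^ (w - 1) → ∀ c ∈ L, (g c : ℤ) + x.a = f c + x.b)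

/-- a natural vector -/
noncomputable def zof (v : ℕ × ℕ) : Vz := ⟨v.1, v.2, 0, 0⟩
/-- sum -/
noncomputable def zadd (x y : Vz) : Vz :=
  ⟨Nat.add x.v y.v, Nat.add x.h y.h, Nat.add x.a y.a, Nat.add x.b y.b⟩
/-- multiple -/
noncomputable def zsm (n : ℕ) (x : Vz) : Vz :=
  ⟨Nat.mul n x.v, Nat.mul n x.h, Nat.mul n x.a, Nat.mul n x.b⟩
/-- negative; `O` the vector of ones -/
noncomputable def zneg (O : ℕ) (x : Vz) : Vz :=
  ⟨Nat.sub (Nat.mul x.h O) x.v, x.h, x.b, Nat.add x.a x.h⟩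

lemma Rv.toRz {v : ℕ × ℕ} {f : γ → ℕ} (hv : Rv w L v f) : Rz w L (zof v) (fun c => (f c : ℤ)) :=
  ⟨f, hv, fun _ c _ => by show (f c : ℤ) + ((0 : ℕ) : ℤ) = f c + ((0 : ℕ) : ℤ); ring⟩

lemma Rz.congr {x : Vz} {f g : γ → ℤ} (hx : Rz w L x f) (h : ∀ c ∈ L, f c = g c) :
    Rz w L x g := by
  obtain ⟨u, h1, h2⟩ := hx
  exact ⟨u, h1, fun h3 c hc => by rw [← h c hc]; exact h2 h3 c hc⟩

lemma Rv.congr {v : ℕ × ℕ} {f g : γ → ℕ} (hv : Rv w L v f) (h : ∀ c ∈ L, f c = g c) :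
    Rv w L v g := by
  intro h1
  obtain ⟨h2, h3⟩ := hv h1
  exact ⟨h2.trans (pkL_congr h), fun c hc => by rw [← h c hc]; exact h3 c hc⟩

lemma Rz.add {x y : Vz} {f g : γ → ℤ} (hx : Rz w L x f) (hy : Rz w L y g) :
    Rz w L (zadd x y) (fun c => f c + g c) := by
  obtain ⟨u, h1, h2⟩ := hx
  obtain ⟨u', h1', h2'⟩ := hy
  refine ⟨fun c => u c + u' c, h1.add h1', fun h3 c hc => ?_⟩
  have h4 : x.h + y.h < 2 ^ (w - 1) := h3
  have h5 := h2 (by omega) c hc
  have h6 := h2' (by omega) c hc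
  show ((u c + u' c : ℕ) : ℤ) + ((x.a + y.a : ℕ) : ℤ) = f c + g c + ((x.b + y.b : ℕ) : ℤ)
  push_cast
  linarith

lemma Rz.smul (n : ℕ) {x : Vz} {f : γ → ℤ} (hx : Rz w L x f) :
    Rz w L (zsm n x) (fun c => n * f c) := by
  obtain ⟨u, h1, h2⟩ := hx
  refine ⟨fun c => n * u c, Rv.smul n h1, fun h3 c hc => ?_⟩
  have h4 : n * x.h < 2 ^ (w - 1) := h3
  show ((n * u c : ℕ) : ℤ) + ((n * x.a : ℕ) : ℤ) = n * f c + ((n * x.b : ℕ) : ℤ)
  push_cast
  rcases Nat.eq_zero_or_pos n with h5 | h5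
  · rw [h5]
    push_cast
    ring
  · have h6 := h2 (by nlinarith) c hc
    have h7 : (n : ℤ) * ((u c : ℤ) + x.a) = n * (f c + x.b) := by rw [h6]
    linarith

/-- a constant vector -/
lemma Rv.const (n : ℕ) : Rv w L (Nat.mul n (pkL (2 ^ w) (fun _ => 1) L), n) (fun _ => n) := by
  intro _
  refine ⟨?_, fun _ _ => le_rfl⟩
  show n * pkL (2 ^ w) (fun _ => 1) L = _
  rw [pkL_smul]
  exact pkL_congr fun c _ => Nat.mul_one n

lemma Rz.neg {x : Vz} {f : γ → ℤ} (hx : Rz w L x f) :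
    Rz w L (zneg (pkL (2 ^ w) (fun _ => 1) L) x) (fun c => - f c) := by
  obtain ⟨u, h1, h2⟩ := hx
  refine ⟨fun c => x.h - u c, fun h3 => ?_, fun h3 c hc => ?_⟩
  · have h4 : x.h < 2 ^ (w - 1) := h3
    obtain ⟨h5, h6⟩ := h1 h4
    have h7 := (Rv.const (w := w) (L := L) x.h h4).1
    have h5' : x.v = pkL (2 ^ w) u L := h5
    have h7' : x.h * pkL (2 ^ w) (fun _ => 1) L = pkL (2 ^ w) (fun _ => x.h) L := h7
    refine ⟨?_, fun c _ => Nat.sub_le _ _⟩
    show x.h * pkL (2 ^ w) (fun _ => 1) L - x.v = _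
    rw [h7', h5']
    exact pkL_sub fun c hc => h6 c hc
  · have h4 : x.h < 2 ^ (w - 1) := h3
    have h5 : u c ≤ x.h := (h1 h4).2 c hc
    have h6 := h2 h4 c hc
    show ((x.h - u c : ℕ) : ℤ) + (x.b : ℤ) = - f c + ((x.a + x.h : ℕ) : ℤ)
    push_cast [h5]
    linarith

/-- integer linear combination of values -/
def zdot : List ℤ → List ℤ → ℤ
  | [], _ => 0
  | _ :: _, [] => 0
  | c :: cs, x :: xs => c * x + zdot cs xs

lemma zdot_nil (xs : List ℤ) : zdot [] xs = 0 := rfl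
lemma zdot_nil' (cs : List ℤ) : zdot cs [] = 0 := by cases cs <;> rfl
lemma zdot_cons (c x : ℤ) (cs xs : List ℤ) : zdot (c :: cs) (x :: xs) = c * x + zdot cs xs := rfl

/-- one term -/
noncomputable def ztm (O : ℕ) (c : ℤ) (x : Vz) : Vz :=
  Int.casesOn (motive := fun _ => Vz) c (fun n => zsm n x) (fun n => zsm (Nat.succ n) (zneg O x))

/-- linear combination -/
noncomputable def zlin (O : ℕ) (cs : List ℤ) : List Vz → Vz :=
  List.rec (motive := fun _ => List Vz → Vz) (fun _ => ⟨0, 0, 0, 0⟩)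
    (fun c _ ih xs => List.casesOn (motive := fun _ => Vz) xs ⟨0, 0, 0, 0⟩
      (fun x xs' => zadd (ztm O c x) (ih xs'))) cs

lemma Rz.tm (c : ℤ) {x : Vz} {f : γ → ℤ} (hx : Rz w L x f) :
    Rz w L (ztm (pkL (2 ^ w) (fun _ => 1) L) c x) (fun d => c * f d) := by
  cases c with
  | ofNat n => exact Rz.smul n hx
  | negSucc n =>
    refine (Rz.smul (Nat.succ n) hx.neg).congr fun d _ => ?_
    rw [Int.negSucc_eq]
    push_cast
    ring

lemma Rz.zero : Rz w L ⟨0, 0, 0, 0⟩ (fun _ => 0) :=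
  ⟨fun _ => 0, fun _ => ⟨(pkL_zero _ _).symm, fun _ _ => le_rfl⟩, fun _ _ _ => rfl⟩

lemma Rz.lin {vs : List Vz} {fs : List (γ → ℤ)} (h : List.Forall₂ (Rz w L) vs fs) :
    ∀ cs : List ℤ, Rz w L (zlin (pkL (2 ^ w) (fun _ => 1) L) cs vs)
      (fun c => zdot cs (fs.map fun f => f c)) := by
  induction h with
  | nil =>
    intro cs
    have e1 : zlin (pkL (2 ^ w) (fun _ => 1) L) cs [] = ⟨0, 0, 0, 0⟩ := by cases cs <;> rfl
    rw [e1]
    exact Rz.zero.congr fun c _ => by rw [List.map_nil, zdot_nil']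
  | cons h1 h2 ih =>
    intro cs
    cases cs with
    | nil => exact Rz.zero
    | cons x cs => exact (Rz.tm x h1).add (ih cs)

/-- force a signed vector -/
noncomputable def frZ (x : Vz) (k : Vz → β) : β :=
  Mid.frN x.v fun v => Mid.frN x.h fun h => Mid.frN x.a fun a => Mid.frN x.b fun b => k ⟨v, h, a, b⟩

lemma frZ_eq (x : Vz) (k : Vz → β) : frZ x k = k x := by
  unfold frZ
  rw [Mid.frN_eq, Mid.frN_eq, Mid.frN_eq, Mid.frN_eq]

/-! ### comparisons -/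

/-- two signed vectors with the same shift -/
noncomputable def zal (O : ℕ) (x y : Vz) (k : ℕ × ℕ → ℕ × ℕ → ℕ → ℕ → β) : β :=
  Mid.frN (Nat.add x.a y.b) fun A => Mid.frN (Nat.add y.a x.b) fun B =>
    Mid.frN (Nat.sub A B) fun p => Mid.frN (Nat.sub B A) fun q =>
      frV (Nat.add x.v (Nat.mul p O), Nat.add x.h p) fun X =>
        frV (Nat.add y.v (Nat.mul q O), Nat.add y.h q) fun Y => k X Y A B

/-- the shift of the pair -/
noncomputable def zsh (x y : Vz) (A B : ℕ) : ℕ × ℕ :=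
  Bool.rec (motive := fun _ => ℕ × ℕ) (x.a, x.b) (y.a, y.b) (Nat.ble B A)

lemma zal_spec {x y : Vz} {f g : γ → ℤ} (hx : Rz w L x f) (hy : Rz w L y g) :
    ∃ (X Y : ℕ × ℕ) (A B : ℕ) (F G : γ → ℕ),
      (∀ (β : Type) (k : ℕ × ℕ → ℕ × ℕ → ℕ → ℕ → β),
        zal (pkL (2 ^ w) (fun _ => 1) L) x y k = k X Y A B) ∧ Rv w L X F ∧ Rv w L Y G ∧
      x.h ≤ X.2 ∧ y.h ≤ Y.2 ∧
      (X.2 < 2 ^ (w - 1) → ∀ c ∈ L, (F c : ℤ) + (zsh x y A B).1 = f c + (zsh x y A B).2) ∧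
      (Y.2 < 2 ^ (w - 1) → ∀ c ∈ L, (G c : ℤ) + (zsh x y A B).1 = g c + (zsh x y A B).2) := by
  obtain ⟨u, h1, h2⟩ := hx
  obtain ⟨u', h1', h2'⟩ := hy
  refine ⟨(x.v + ((x.a + y.b) - (y.a + x.b)) * pkL (2 ^ w) (fun _ => 1) L,
      x.h + ((x.a + y.b) - (y.a + x.b))),
    (y.v + ((y.a + x.b) - (x.a + y.b)) * pkL (2 ^ w) (fun _ => 1) L,
      y.h + ((y.a + x.b) - (x.a + y.b))), x.a + y.b, y.a + x.b,
    fun c => u c + ((x.a + y.b) - (y.a + x.b)), fun c => u' c + ((y.a + x.b) - (x.a + y.b)),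
    fun β k => ?_, h1.add (Rv.const _), h1'.add (Rv.const _), Nat.le_add_right _ _,
    Nat.le_add_right _ _, fun h3 c hc => ?_, fun h3 c hc => ?_⟩
  · unfold zal
    rw [Mid.frN_eq, Mid.frN_eq, Mid.frN_eq, Mid.frN_eq, frV_eq, frV_eq]
    rfl
  · have h4 : x.h + ((x.a + y.b) - (y.a + x.b)) < 2 ^ (w - 1) := h3
    have h5 := h2 (by omega) c hc
    unfold zsh
    cases h6 : Nat.ble (y.a + x.b) (x.a + y.b) with
    | true =>
      have h7 : y.a + x.b ≤ x.a + y.b := Nat.le_of_ble_eq_true h6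
      show ((u c + ((x.a + y.b) - (y.a + x.b)) : ℕ) : ℤ) + (y.a : ℤ) = f c + (y.b : ℤ)
      push_cast [h7]
      linarith
    | false =>
      have h7 : x.a + y.b < y.a + x.b := by
        by_contra h8
        rw [Nat.ble_eq_true_of_le (not_lt.1 h8)] at h6
        exact Bool.false_ne_true h6.symm
      have h8 : (x.a + y.b) - (y.a + x.b) = 0 := by omega
      show ((u c + ((x.a + y.b) - (y.a + x.b)) : ℕ) : ℤ) + (x.a : ℤ) = f c + (x.b : ℤ)
      rw [h8]
      push_cast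
      linarith
  · have h4 : y.h + ((y.a + x.b) - (x.a + y.b)) < 2 ^ (w - 1) := h3
    have h5 := h2' (by omega) c hc
    unfold zsh
    cases h6 : Nat.ble (y.a + x.b) (x.a + y.b) with
    | true =>
      have h7 : y.a + x.b ≤ x.a + y.b := Nat.le_of_ble_eq_true h6
      have h8 : (y.a + x.b) - (x.a + y.b) = 0 := by omega
      show ((u' c + ((y.a + x.b) - (x.a + y.b)) : ℕ) : ℤ) + (y.a : ℤ) = g c + (y.b : ℤ)
      rw [h8]
      push_cast
      linarith
    | false =>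
      have h7 : x.a + y.b < y.a + x.b := by
        by_contra h8
        rw [Nat.ble_eq_true_of_le (not_lt.1 h8)] at h6
        exact Bool.false_ne_true h6.symm
      show ((u' c + ((y.a + x.b) - (x.a + y.b)) : ℕ) : ℤ) + (x.a : ℤ) = g c + (x.b : ℤ)
      push_cast [h7.le]
      linarith

/-- the mask `x ≤ y` -/
noncomputable def zle (T M O : ℕ) (x y : Vz) (k : ℕ × ℕ → β) : β :=
  zal O x y fun X Y _ _ => frV (vleq T M X Y) k

/-- maximum -/
noncomputable def zmax (w1 T M O : ℕ) (x y : Vz) (k : Vz → β) : β :=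
  zal O x y fun X Y A B => frV (vmax w1 T M X Y) fun r =>
    frZ ⟨r.1, r.2, (zsh x y A B).1, (zsh x y A B).2⟩ k

/-- minimum -/
noncomputable def zmin (w1 T M O : ℕ) (x y : Vz) (k : Vz → β) : β :=
  zal O x y fun X Y A B => frV (vmin w1 T M X Y) fun r =>
    frZ ⟨r.1, Nat.add r.2 Y.2, (zsh x y A B).1, (zsh x y A B).2⟩ k

/-- positive part -/
noncomputable def zre (w1 T M O : ℕ) (x : Vz) (k : ℕ × ℕ → β) : β :=
  Mid.frN (Nat.sub x.a x.b) fun p => Mid.frN (Nat.sub x.b x.a) fun q =>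
    frV (Nat.add x.v (Nat.mul p O), Nat.add x.h p) fun X =>
      frV (Nat.mul q O, q) fun Y => frV (vsub w1 T M X Y) k

/-- a program delivers a signed vector -/
def Dz (w : ℕ) (L : List γ) (P : (Vz → β) → β) (f : γ → ℤ) : Prop :=
  ∃ x : Vz, Rz w L x f ∧ ∀ k, P k = k x

/-- a program delivers a natural vector -/
def Dv (w : ℕ) (L : List γ) (P : (ℕ × ℕ → β) → β) (f : γ → ℕ) : Prop :=
  ∃ x : ℕ × ℕ, Rv w L x f ∧ ∀ k, P k = k x

/-- a program delivers a mask -/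
def Dm (w : ℕ) (L : List γ) (P : (ℕ × ℕ → β) → β) (p : γ → Bool) : Prop :=
  ∃ x : ℕ × ℕ, Rm w L x p ∧ ∀ k, P k = k x

/-- weaker bounds -/
lemma Rm.mono {m m' : ℕ × ℕ} {p : γ → Bool} (hm : Rm w L m p) (h1 : m'.1 = m.1)
    (h2 : m.2 ≤ m'.2) : Rm w L m' p := by
  intro h
  rw [h1]
  exact hm (lt_of_le_of_lt h2 h)

lemma zle_spec (hw : 0 < w) {x y : Vz} {f g : γ → ℤ} (hx : Rz w L x f) (hy : Rz w L y g) :
    Dm (β := β) w L (zle (2 ^ (w - 1)) (pkL (2 ^ w) (fun _ => 2 ^ (w - 1)) L)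
      (pkL (2 ^ w) (fun _ => 1) L) x y) (fun c => decide (f c ≤ g c)) := by
  obtain ⟨X, Y, A, B, F, G, h0, h1, h2, -, -, h5, h6⟩ := zal_spec hx hy
  refine ⟨vleq (2 ^ (w - 1)) (pkL (2 ^ w) (fun _ => 2 ^ (w - 1)) L) X Y, fun h => ?_, fun k => ?_⟩
  · have h7 := Rm.leq hw h1 h2 h
    rw [h7]
    have h8 : Y.2 + (psn (2 ^ (w - 1)) (Nat.ble (Nat.succ X.2) (2 ^ (w - 1)))
      + psn (2 ^ (w - 1)) (Nat.ble (Nat.succ Y.2) (2 ^ (w - 1)))) < 2 ^ (w - 1) := h
    have h9 : Y.2 + psn (2 ^ (w - 1)) (Nat.ble (Nat.succ Y.2) (2 ^ (w - 1)))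
      + psn (2 ^ (w - 1)) (Nat.ble (Nat.succ X.2) (2 ^ (w - 1))) < 2 ^ (w - 1) := by omega
    have hX : X.2 < 2 ^ (w - 1) := Nat.le_of_ble_eq_true (psn_lt h9).1
    have hY : Y.2 < 2 ^ (w - 1) := by omega
    refine pkL_congr fun c hc => ?_
    have a1 := h5 hX c hc
    have a2 := h6 hY c hc
    have h10 : (F c ≤ G c) ↔ f c ≤ g c := by
      constructor
      · intro h11
        have : (F c : ℤ) ≤ G c := by exact_mod_cast h11
        linarith
      · intro h11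
        have : (F c : ℤ) ≤ G c := by linarith
        exact_mod_cast this
    congr 1
    exact decide_eq_decide.2 h10
  · unfold zle
    rw [h0]
    exact frV_eq _ _

lemma zmax_spec (hw : 0 < w) {x y : Vz} {f g : γ → ℤ} (hx : Rz w L x f) (hy : Rz w L y g) :
    Dz (β := β) w L (zmax (w - 1) (2 ^ (w - 1)) (pkL (2 ^ w) (fun _ => 2 ^ (w - 1)) L)
      (pkL (2 ^ w) (fun _ => 1) L) x y) (fun c => Max.max (f c) (g c)) := by
  obtain ⟨X, Y, A, B, F, G, h0, h1, h2, -, -, h5, h6⟩ := zal_spec hx hy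
  obtain ⟨r, hr⟩ : ∃ r, r = vmax (w - 1) (2 ^ (w - 1)) (pkL (2 ^ w) (fun _ => 2 ^ (w - 1)) L) X Y :=
    ⟨_, rfl⟩
  have h7 : Rv w L r (fun c => Max.max (F c) (G c)) := by rw [hr]; exact Rv.max hw h1 h2
  refine ⟨⟨r.1, r.2, (zsh x y A B).1, (zsh x y A B).2⟩, ⟨fun c => Max.max (F c) (G c), h7,
    fun h c hc => ?_⟩, fun k => ?_⟩
  · have h8 : r.2 < 2 ^ (w - 1) := h
    have e2 : r.2 = Mid.frN (vsub (w - 1) (2 ^ (w - 1)) (pkL (2 ^ w) (fun _ => 2 ^ (w - 1)) L) X Y).2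
        fun x => Bool.rec (motive := fun _ => ℕ) x Y.2 (Nat.ble x Y.2) := by rw [hr]; rfl
    rw [Mid.frN_eq] at e2
    have e3 : (vsub (w - 1) (2 ^ (w - 1)) (pkL (2 ^ w) (fun _ => 2 ^ (w - 1)) L) X Y).2
        = X.2 + psn (2 ^ (w - 1)) (Nat.ble (Nat.succ Y.2) (2 ^ (w - 1))) := rfl
    rw [e3] at e2
    have h9 : X.2 < 2 ^ (w - 1) ∧ Y.2 < 2 ^ (w - 1) := by
      cases h10 : Nat.ble (X.2 + psn (2 ^ (w - 1)) (Nat.ble (Nat.succ Y.2) (2 ^ (w - 1)))) Y.2 with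
      | true =>
        rw [h10] at e2
        have e4 : r.2 = Y.2 := e2
        have h11 := Nat.le_of_ble_eq_true h10
        constructor <;> omega
      | false =>
        rw [h10] at e2
        have e4 : r.2 = X.2 + psn (2 ^ (w - 1)) (Nat.ble (Nat.succ Y.2) (2 ^ (w - 1))) := e2
        have h11 : Y.2 ≤ X.2 + psn (2 ^ (w - 1)) (Nat.ble (Nat.succ Y.2) (2 ^ (w - 1))) := by
          by_contra h12
          rw [Nat.ble_eq_true_of_le (not_le.1 h12).le] at h10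
          exact Bool.false_ne_true h10.symm
        constructor <;> omega
    have a1 := h5 h9.1 c hc
    have a2 := h6 h9.2 c hc
    show ((Max.max (F c) (G c) : ℕ) : ℤ) + ((zsh x y A B).1 : ℤ)
      = Max.max (f c) (g c) + ((zsh x y A B).2 : ℤ)
    rcases le_total (F c) (G c) with h10 | h10
    · have h11 : f c ≤ g c := by
        have : (F c : ℤ) ≤ G c := by exact_mod_cast h10
        linarith
      rw [max_eq_right h10, max_eq_right h11]
      exact a2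
    · have h11 : g c ≤ f c := by
        have : (G c : ℤ) ≤ F c := by exact_mod_cast h10
        linarith
      rw [max_eq_left h10, max_eq_left h11]
      exact a1
  · unfold zmax
    rw [h0, frV_eq, ← hr]
    exact frZ_eq _ _

lemma Rv.mono {v v' : ℕ × ℕ} {f : γ → ℕ} (hv : Rv w L v f) (h1 : v'.1 = v.1)
    (h2 : v.2 ≤ v'.2) : Rv w L v' f := by
  intro h
  obtain ⟨h3, h4⟩ := hv (lt_of_le_of_lt h2 h)
  exact ⟨h1.trans h3, fun c hc => (h4 c hc).trans h2⟩

lemma zmin_spec (hw : 0 < w) {x y : Vz} {f g : γ → ℤ} (hx : Rz w L x f) (hy : Rz w L y g) :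
    Dz (β := β) w L (zmin (w - 1) (2 ^ (w - 1)) (pkL (2 ^ w) (fun _ => 2 ^ (w - 1)) L)
      (pkL (2 ^ w) (fun _ => 1) L) x y) (fun c => Min.min (f c) (g c)) := by
  obtain ⟨X, Y, A, B, F, G, h0, h1, h2, -, -, h5, h6⟩ := zal_spec hx hy
  obtain ⟨r, hr⟩ : ∃ r, r = vmin (w - 1) (2 ^ (w - 1)) (pkL (2 ^ w) (fun _ => 2 ^ (w - 1)) L) X Y :=
    ⟨_, rfl⟩
  have h7 : Rv w L r (fun c => Min.min (F c) (G c)) := by rw [hr]; exact Rv.min hw h1 h2
  refine ⟨⟨r.1, Nat.add r.2 Y.2, (zsh x y A B).1, (zsh x y A B).2⟩,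
    ⟨fun c => Min.min (F c) (G c), h7.mono rfl (Nat.le_add_right _ _), fun h c hc => ?_⟩,
    fun k => ?_⟩
  · have h8 : r.2 + Y.2 < 2 ^ (w - 1) := h
    have e3 : r.2 = X.2 + psn (2 ^ (w - 1)) (Nat.ble (Nat.succ Y.2) (2 ^ (w - 1))) := by
      rw [hr]; rfl
    have a1 := h5 (by omega) c hc
    have a2 := h6 (by omega) c hc
    show ((Min.min (F c) (G c) : ℕ) : ℤ) + ((zsh x y A B).1 : ℤ)
      = Min.min (f c) (g c) + ((zsh x y A B).2 : ℤ)
    rcases le_total (F c) (G c) with h10 | h10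
    · have h11 : f c ≤ g c := by
        have : (F c : ℤ) ≤ G c := by exact_mod_cast h10
        linarith
      rw [min_eq_left h10, min_eq_left h11]
      exact a1
    · have h11 : g c ≤ f c := by
        have : (G c : ℤ) ≤ F c := by exact_mod_cast h10
        linarith
      rw [min_eq_right h10, min_eq_right h11]
      exact a2
  · unfold zmin
    rw [h0, frV_eq, ← hr]
    exact frZ_eq _ _

lemma zre_spec (hw : 0 < w) {x : Vz} {f : γ → ℤ} (hx : Rz w L x f) :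
    Dv (β := β) w L (zre (w - 1) (2 ^ (w - 1)) (pkL (2 ^ w) (fun _ => 2 ^ (w - 1)) L)
      (pkL (2 ^ w) (fun _ => 1) L) x) (fun c => (f c).toNat) := by
  obtain ⟨u, h1, h2⟩ := hx
  have h3 : Rv w L (x.v + (x.a - x.b) * pkL (2 ^ w) (fun _ => 1) L, x.h + (x.a - x.b))
      (fun c => u c + (x.a - x.b)) := h1.add (Rv.const _)
  have h4 : Rv w L ((x.b - x.a) * pkL (2 ^ w) (fun _ => 1) L, x.b - x.a)
      (fun _ => x.b - x.a) := Rv.const _
  refine ⟨vsub (w - 1) (2 ^ (w - 1)) (pkL (2 ^ w) (fun _ => 2 ^ (w - 1)) L)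
    (x.v + (x.a - x.b) * pkL (2 ^ w) (fun _ => 1) L, x.h + (x.a - x.b))
    ((x.b - x.a) * pkL (2 ^ w) (fun _ => 1) L, x.b - x.a), fun h => ?_, fun k => ?_⟩
  · obtain ⟨h5, h6⟩ := Rv.sub hw h3 h4 h
    have h7 : x.h + (x.a - x.b) + psn (2 ^ (w - 1)) (Nat.ble (Nat.succ (x.b - x.a)) (2 ^ (w - 1)))
      < 2 ^ (w - 1) := h
    have h8 : ∀ c ∈ L, u c + (x.a - x.b) - (x.b - x.a) = (f c).toNat := fun c hc => by
      have h9 := h2 (by omega) c hc
      omega
    exact ⟨h5.trans (pkL_congr h8), fun c hc => by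
      show (f c).toNat ≤ _
      rw [← h8 c hc]
      exact h6 c hc⟩
  · unfold zre
    rw [Mid.frN_eq, Mid.frN_eq, frV_eq, frV_eq, frV_eq]
    rfl

/-! ### products -/

/-- the bit `j` of every lane -/
lemma pkL_bit (hw : 0 < w) {g : γ → ℕ} (hg : ∀ c ∈ L, g c < 2 ^ w) {j : ℕ} (hj : j < w) :
    Nat.land (Nat.shiftRight (pkL (2 ^ w) g L) j) (pkL (2 ^ w) (fun _ => 1) L)
      = pkL (2 ^ w) (fun c => ((g c).testBit j).toNat) L := by
  induction L with
  | nil => exact Nat.and_zero _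
  | cons c L ih =>
    have h1 := ih fun c hc => hg c (List.mem_cons_of_mem _ hc)
    have h2 := hg c List.mem_cons_self
    rw [pkL_cons, pkL_cons, pkL_cons, ← h1]
    refine Nat.eq_of_testBit_eq fun i => ?_
    have e1 : Nat.land (Nat.shiftRight (g c + 2 ^ w * pkL (2 ^ w) g L) j)
        (1 + 2 ^ w * pkL (2 ^ w) (fun _ => 1) L)
        = ((g c + 2 ^ w * pkL (2 ^ w) g L) >>> j)
          &&& (1 + 2 ^ w * pkL (2 ^ w) (fun _ => 1) L) := rfl
    have e2 : Nat.land (Nat.shiftRight (pkL (2 ^ w) g L) j) (pkL (2 ^ w) (fun _ => 1) L)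
        = (pkL (2 ^ w) g L >>> j) &&& pkL (2 ^ w) (fun _ => 1) L := rfl
    have h3 : (1 : ℕ) < 2 ^ w := Nat.one_lt_two_pow (by omega)
    have h4 : ((g c).testBit j).toNat < 2 ^ w := by
      cases (g c).testBit j
      · exact Nat.two_pow_pos w
      · exact h3
    rw [e1, e2, Nat.testBit_and, Nat.testBit_shiftRight, Nat.add_comm (g c), Nat.add_comm 1,
      Nat.add_comm ((g c).testBit j).toNat, Nat.testBit_two_pow_mul_add _ h2,
      Nat.testBit_two_pow_mul_add _ h3, Nat.testBit_two_pow_mul_add _ h4]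
    by_cases h5 : i < w
    · rw [if_pos h5, if_pos h5]
      rcases Nat.eq_zero_or_pos i with h6 | h6
      · subst h6
        rw [Nat.add_zero, if_pos hj]
        cases (g c).testBit j <;> rfl
      · have h7 : Nat.testBit 1 i = false := by
          rw [Nat.testBit_one_eq_true_iff_self_eq_zero.not.2 (by omega) |> Bool.eq_false_iff.2]
        rw [h7, Bool.and_false]
        cases (g c).testBit j
        · exact (Nat.zero_testBit i).symm
        · exact h7.symm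
    · rw [if_neg h5, if_neg h5, if_neg (by omega), Nat.testBit_and, Nat.testBit_shiftRight]
      congr 2
      omega

/-- the product with the last `n` bits of a vector, packed numbers; `F` one full lane -/
noncomputable def mulB (F O a b : ℕ) (n : ℕ) : (ℕ → β) → β :=
  Nat.rec (motive := fun _ => (ℕ → β) → β) (fun k => k 0)
    (fun j ih k => ih fun acc => Mid.frN (Nat.land (Nat.shiftRight b j) O) fun t =>
      Mid.frN (Nat.land (Nat.mul F t) a) fun u =>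
        Mid.frN (Nat.add acc (Nat.mul (Nat.pow 2 j) u)) k) n

lemma mulB_eq (hw : 0 < w) {f g : γ → ℕ} (hf : ∀ c ∈ L, f c < 2 ^ w) (hg : ∀ c ∈ L, g c < 2 ^ w) :
    ∀ {n : ℕ}, n ≤ w → ∀ k : ℕ → β, mulB (2 ^ w - 1) (pkL (2 ^ w) (fun _ => 1) L) (pkL (2 ^ w) f L)
      (pkL (2 ^ w) g L) n k = k (pkL (2 ^ w) (fun c => f c * (g c % 2 ^ n)) L) := by
  intro n
  induction n with
  | zero =>
    intro _ k
    show k 0 = _
    congr 1
    refine (pkL_zero (2 ^ w) L).symm.trans (pkL_congr fun c _ => ?_)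
    rw [pow_zero, Nat.mod_one, Nat.mul_zero]
  | succ n ih =>
    intro hn k
    have e1 : mulB (2 ^ w - 1) (pkL (2 ^ w) (fun _ => 1) L) (pkL (2 ^ w) f L)
        (pkL (2 ^ w) g L) (n + 1) k = mulB (2 ^ w - 1) (pkL (2 ^ w) (fun _ => 1) L) (pkL (2 ^ w) f L)
        (pkL (2 ^ w) g L) n fun acc => Mid.frN (Nat.land (Nat.shiftRight (pkL (2 ^ w) g L) n)
          (pkL (2 ^ w) (fun _ => 1) L)) fun t => Mid.frN (Nat.land (Nat.mul (2 ^ w - 1) t)
            (pkL (2 ^ w) f L)) fun u => Mid.frN (Nat.add acc (Nat.mul (Nat.pow 2 n) u)) k := rfl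
    rw [e1, ih (by omega), Mid.frN_eq, Mid.frN_eq, Mid.frN_eq, pkL_bit hw hg (by omega)]
    congr 1
    have e2 : Nat.mul (2 ^ w - 1) (pkL (2 ^ w) (fun c => ((g c).testBit n).toNat) L)
        = pkL (2 ^ w) (fun c => bl (2 ^ w - 1) ((g c).testBit n)) L := by
      refine (pkL_smul _ _ _ _).trans (pkL_congr fun c _ => ?_)
      cases (g c).testBit n
      · exact Nat.mul_zero _
      · exact Nat.mul_one _
    have e3 : Nat.land (pkL (2 ^ w) (fun c => bl (2 ^ w - 1) ((g c).testBit n)) L)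
        (pkL (2 ^ w) f L) = pkL (2 ^ w) (fun c => bl (f c) ((g c).testBit n)) L := by
      refine (pkL_land (fun c _ => ?_) hf).trans (pkL_congr fun c hc => bl_land _ (hf c hc))
      unfold bl
      cases (g c).testBit n
      · exact Nat.two_pow_pos w
      · show 2 ^ w - 1 < 2 ^ w
        have := Nat.two_pow_pos w
        omega
    rw [e2, e3]
    show _ + 2 ^ n * _ = _
    rw [pkL_smul, pkL_add]
    refine pkL_congr fun c _ => ?_
    have h1 : g c % 2 ^ (n + 1) = 2 ^ n * ((g c).testBit n).toNat + g c % 2 ^ n := by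
      rw [Nat.mod_pow_succ, Nat.toNat_testBit, Nat.add_comm]
    rw [h1]
    unfold bl
    cases (g c).testBit n
    · show f c * (g c % 2 ^ n) + 2 ^ n * 0 = f c * (2 ^ n * 0 + g c % 2 ^ n)
      ring
    · show f c * (g c % 2 ^ n) + 2 ^ n * f c = f c * (2 ^ n * 1 + g c % 2 ^ n)
      ring

lemma mulB_k (F O x y : ℕ) : ∀ (n : ℕ) {β : Type} (k : ℕ → β),
    mulB F O x y n k = k (mulB F O x y n fun r => r) := by
  intro n
  induction n with
  | zero => intro β k; rfl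
  | succ n ih =>
    intro β k
    have e3 : ∀ {β : Type} (k : ℕ → β), mulB F O x y (n + 1) k = mulB F O x y n fun acc =>
      Mid.frN (Nat.land (Nat.shiftRight y n) O) fun t => Mid.frN (Nat.land (Nat.mul F t) x)
        fun u => Mid.frN (Nat.add acc (Nat.mul (Nat.pow 2 n) u)) k := fun _ => rfl
    rw [e3 k, e3 (fun r => r), ih, ih (fun acc => Mid.frN _ _)]
    simp only [Mid.frN_eq]

/-- product, the second vector below `2^n` -/
noncomputable def vmulb (w1 T O : ℕ) (n : ℕ) (a b : ℕ × ℕ) (k : ℕ × ℕ → β) : β :=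
  Mid.frN (Nat.pred (Nat.mul 2 T)) fun F => mulB F O a.1 b.1 n fun r =>
    Mid.frN (Nat.add (Nat.mul a.2 b.2) (Nat.add (psn T (Nat.ble (Nat.succ b.2) (Nat.pow 2 n)))
      (Nat.add (psn T (Nat.ble n w1)) (Nat.add a.2 b.2)))) fun h => k (r, h)

lemma vmulb_spec (hw : 0 < w) (n : ℕ) {a b : ℕ × ℕ} {f g : γ → ℕ} (ha : Rv w L a f)
    (hb : Rv w L b g) : Dv (β := β) w L (vmulb (w - 1) (2 ^ (w - 1)) (pkL (2 ^ w) (fun _ => 1) L) n a b)
      (fun c => f c * g c) := by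
  have e0 : Nat.pred (Nat.mul 2 (2 ^ (w - 1))) = 2 ^ w - 1 := by
    show 2 * 2 ^ (w - 1) - 1 = _
    rw [← two_pow_split hw]
  obtain ⟨h, hh⟩ : ∃ h, h = a.2 * b.2 + (psn (2 ^ (w - 1)) (Nat.ble (Nat.succ b.2) (2 ^ n))
      + (psn (2 ^ (w - 1)) (Nat.ble n (w - 1)) + (a.2 + b.2))) := ⟨_, rfl⟩
  by_cases hT : h < 2 ^ (w - 1)
  · have h1 : (a.2 * b.2 + (a.2 + b.2) + psn (2 ^ (w - 1)) (Nat.ble n (w - 1)))
        + psn (2 ^ (w - 1)) (Nat.ble (Nat.succ b.2) (2 ^ n)) < 2 ^ (w - 1) := by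
      rw [hh] at hT
      omega
    obtain ⟨h2, h3⟩ := psn_lt h1
    obtain ⟨h4, h5⟩ := psn_lt h3
    have h6 : b.2 < 2 ^ n := Nat.le_of_ble_eq_true h2
    have h7 : n ≤ w - 1 := Nat.le_of_ble_eq_true h4
    have h8 := two_pow_split hw
    obtain ⟨a1, a2⟩ := ha (by omega)
    obtain ⟨b1, b2⟩ := hb (by omega)
    refine ⟨(pkL (2 ^ w) (fun c => f c * g c) L, h), fun _ => ⟨rfl, fun c hc => ?_⟩, fun k => ?_⟩
    · show f c * g c ≤ h
      have := Nat.mul_le_mul (a2 c hc) (b2 c hc)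
      omega
    · have e1 : vmulb (w - 1) (2 ^ (w - 1)) (pkL (2 ^ w) (fun _ => 1) L) n a b k
          = Mid.frN (Nat.pred (Nat.mul 2 (2 ^ (w - 1)))) fun F =>
            mulB F (pkL (2 ^ w) (fun _ => 1) L) a.1 b.1 n fun r => Mid.frN h fun h => k (r, h) := by
        rw [hh]
        rfl
      rw [e1, Mid.frN_eq, e0, a1, b1, mulB_eq hw (fun c hc => by have := a2 c hc; omega)
        (fun c hc => by have := b2 c hc; omega) (by omega), Mid.frN_eq]
      congr 2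
      refine pkL_congr fun c hc => ?_
      rw [Nat.mod_eq_of_lt (lt_of_le_of_lt (b2 c hc) h6)]
  · refine ⟨(mulB (2 ^ w - 1) (pkL (2 ^ w) (fun _ => 1) L) a.1 b.1 n fun r => r, h),
      fun h1 => absurd h1 hT, fun k => ?_⟩
    have e1 : vmulb (w - 1) (2 ^ (w - 1)) (pkL (2 ^ w) (fun _ => 1) L) n a b k
        = Mid.frN (Nat.pred (Nat.mul 2 (2 ^ (w - 1)))) fun F =>
          mulB F (pkL (2 ^ w) (fun _ => 1) L) a.1 b.1 n fun r => Mid.frN h fun h => k (r, h) := by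
      rw [hh]
      rfl
    rw [e1, Mid.frN_eq, e0]
    rw [mulB_k, Mid.frN_eq]

end Sl

end Pool.Agent.Lib.MP_f04ccf_co
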