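import Pool.Agent.Lib.MP_f04ccf_co.M.MidF
import Pool.Agent.Lib.MP_f04ccf_co.M.SimZ

/-!
MP_f04ccf_co, TEXT D, middle range: **the coefficients of (C) in the kernel**: the left side of the cell inequality of
a leaf (`M/MidL.lean`, `M/MidF.lean`), without the payment and the mark, as a polynomial in the letters of the cell.

* `CfN`: thirteen naturals; `CfN.vl`;
* `LfD.cf`, `LfD.cf_sound`: the tests of a leaf;
* `LfD.cfz`, **`LfD.cfz_sound`**: twenty integers in the order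
  `kb cb nb p x q m mc md k0 k2 c ca pp qq qk0 qk2 k0k0 k0k2 k2k2` for tests and totals together;
* `LfD.cfx`, **`LfD.cfx_sound`**: the same in the order of `Sl.LfC` (`M/LeafS.lean`).
-/

set_option autoImplicit false

namespace Pool.Agent.Lib.MP_f04ccf_co

open Finset

/-- the coefficients of the tests of a cell (`qq` to `k2k2` with the sign minus) -/
structure CfN where
  (kb cb nb pp q k0 k2 qq qk qh kk kh hh : ℕ)

namespace CfN

/-- the value -/
def vl (f : CfN) (p q k0 k2 nb kb cb : ℤ) : ℤ :=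
  f.kb * kb + f.cb * cb + f.nb * nb + f.pp * (p * (p + 1)) + f.q * q + f.k0 * k0 + f.k2 * k2
    - (f.qq * (q * q) + f.qk * (q * k0) + f.qh * (q * k2) + f.kk * (k0 * k0) + f.kh * (k0 * k2)
      + f.hh * (k2 * k2))

/-- a group added: flags `xy c uq uf`, `s` the scale of the PC pairs and cliques, `b` of `kb`, `u v w` of the savings -/
noncomputable def ad {β : Type} (f : CfN) (xy c uq uf s b cc u v w : ℕ) (k : CfN → β) : β :=
  MF.fr (Nat.add f.kb b) fun kb => MF.fr (Nat.add f.cb (Nat.mul c cc)) fun cb =>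
  MF.fr (Nat.add f.nb (Nat.mul (MF.sel xy 1 0 0 0 0 0) s)) fun nb =>
  MF.fr (Nat.add f.pp (Nat.mul (MF.sel xy 0 1 0 0 0 0) s)) fun pp =>
  MF.fr (Nat.mul uq u) fun u1 => MF.fr (Nat.mul (Nat.mul 2 uf) u) fun u2 =>
  MF.fr (Nat.add f.q u1) fun q => MF.fr (Nat.add f.k0 u2) fun k0 =>
  MF.fr (Nat.add f.k2 (Nat.mul 2 w)) fun k2 => MF.fr (Nat.add f.qq u1) fun qq =>
  MF.fr (Nat.add f.qk (Nat.mul uq u2)) fun qk =>
  MF.fr (Nat.add f.qh (Nat.mul (Nat.mul 2 uq) v)) fun qh => MF.fr (Nat.add f.kk u2) fun kk =>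
  MF.fr (Nat.add f.kh (Nat.mul (Nat.mul 4 uf) v)) fun kh =>
  MF.fr (Nat.add f.hh (Nat.mul 2 w)) fun hh => k ⟨kb, cb, nb, pp, q, k0, k2, qq, qk, qh, kk, kh, hh⟩

/-- the value of the group -/
def gv (xy c uq uf s b cc u v w : ℕ) (p q k0 k2 nb kb cb : ℤ) : ℤ :=
  b * kb + (c * cc : ℕ) * cb + s * (if xy = 0 then nb else if xy = 1 then p * (p + 1) else 0)
    - (u * (uq * (q * q - q) + 2 * (uf * uq) * (q * k0) + 2 * uf * (k0 * k0 - k0))
      + v * (2 * uq * (q * k2) + 4 * uf * (k0 * k2)) + w * (2 * (k2 * k2 - k2)))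

lemma ad_eq {β : Type} (f : CfN) (xy c uq uf s b cc u v w : ℕ) (k : CfN → β) (hxy : xy ≤ 2) :
    ∃ f' : CfN, ad f xy c uq uf s b cc u v w k = k f' ∧
      ∀ p q k0 k2 nb kb cb : ℤ, f'.vl p q k0 k2 nb kb cb
        = f.vl p q k0 k2 nb kb cb + gv xy c uq uf s b cc u v w p q k0 k2 nb kb cb := by
  refine ⟨⟨Nat.add f.kb b, Nat.add f.cb (Nat.mul c cc),
      Nat.add f.nb (Nat.mul (MF.sel xy 1 0 0 0 0 0) s), Nat.add f.pp (Nat.mul (MF.sel xy 0 1 0 0 0 0) s),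
      Nat.add f.q (Nat.mul uq u), Nat.add f.k0 (Nat.mul (Nat.mul 2 uf) u), Nat.add f.k2 (Nat.mul 2 w),
      Nat.add f.qq (Nat.mul uq u), Nat.add f.qk (Nat.mul uq (Nat.mul (Nat.mul 2 uf) u)),
      Nat.add f.qh (Nat.mul (Nat.mul 2 uq) v), Nat.add f.kk (Nat.mul (Nat.mul 2 uf) u),
      Nat.add f.kh (Nat.mul (Nat.mul 4 uf) v), Nat.add f.hh (Nat.mul 2 w)⟩, ?_, ?_⟩
  · unfold ad
    simp only [MF.fr_eq]
  · intro p q k0 k2 nb kb cb
    unfold vl gv
    simp only [Nat.add_eq, Nat.mul_eq]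
    rcases (by omega : xy = 0 ∨ xy = 1 ∨ xy = 2) with h | h | h
    · have e1 : MF.sel xy 1 0 0 0 0 0 = 1 := by rw [h]; rfl
      have e2 : MF.sel xy 0 1 0 0 0 0 = 0 := by rw [h]; rfl
      rw [e1, e2, if_pos h]
      push_cast
      ring
    · have e1 : MF.sel xy 1 0 0 0 0 0 = 0 := by rw [h]; rfl
      have e2 : MF.sel xy 0 1 0 0 0 0 = 1 := by rw [h]; rfl
      have n0 : ¬ xy = 0 := by omega
      rw [e1, e2, if_neg n0, if_pos h]
      push_cast
      ring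
    · have e1 : MF.sel xy 1 0 0 0 0 0 = 0 := by rw [h]; rfl
      have e2 : MF.sel xy 0 1 0 0 0 0 = 0 := by rw [h]; rfl
      have n0 : ¬ xy = 0 := by omega
      have n1 : ¬ xy = 1 := by omega
      rw [e1, e2, if_neg n0, if_neg n1]
      push_cast
      ring

end CfN

namespace MF

/-- the coefficients of a group added -/
noncomputable def cfG (g : GrD) (f : CfN) (k : CfN → Bool) : Bool :=
  an' (Nat.ble g.uq 1) (an' (Nat.ble g.uf 1) (an' (Nat.ble g.xy 2) (an' (Nat.ble 1 g.k1)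
  (fr g.k0 fun k0 => fr g.k1 fun k1 => fr (Nat.mul k0 (Nat.mul k1 (Nat.sub k1 1))) fun sk =>
  ws 1000000 (fun a b c =>
    Nat.casesOn (motive := fun _ => Bool) g.ty
      -- 0
      (fr (Nat.mul sk a) fun s => fr (Nat.mul k0 (Nat.mul (Nat.sub k1 1) b)) fun v =>
        fr (Nat.mul k0 (Nat.sub c b)) fun w =>
        CfN.ad f g.xy g.c g.uq g.uf s (Nat.mul 2 (Nat.mul (Nat.mul k1 (Nat.sub k1 1)) b))
          (Nat.mul 2 s) s v w k)
      (fun t => Nat.casesOn (motive := fun _ => Bool) t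
      -- 1
      (CfN.ad f 2 g.c 0 0 0 b (Nat.mul k0 a) 0 0 0 k)
      (fun t => Nat.casesOn (motive := fun _ => Bool) t
      -- 2
      (fr (Nat.mul sk a) fun s => fr (Nat.mul k0 (Nat.sub c b)) fun w =>
        CfN.ad f g.xy g.c 1 1 s (Nat.mul 2 (Nat.mul (Nat.mul k1 (Nat.sub k1 1)) b))
          (Nat.mul 2 s) w w w k)
      (fun t => Nat.casesOn (motive := fun _ => Bool) t
      -- 3
      (CfN.ad f 2 g.c 0 0 0 b (Nat.mul k0 a) 0 0 0 k)
      (fun t => Nat.casesOn (motive := fun _ => Bool) t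
      -- 4
      (CfN.ad f g.xy g.c g.uq g.uf a (Nat.mul 2 a) (Nat.mul 2 a) a a a k)
      (fun t => Nat.casesOn (motive := fun _ => Bool) t
      -- 5
      (CfN.ad f 2 g.c 0 0 0 a a 0 0 0 k)
      (fun _ => CfN.ad f 2 g.c 0 0 0 b (Nat.mul k0 a) 0 0 0 k))))))) g.js 0 0 0))))

/-- sum of the cell parts of a group -/
def gsum (g : GrD) (p q a0 a2 nb kb cb : ℤ) : ℤ :=
  (g.rows.map fun r => (r.1 : ℤ) * r.2.rc p q a0 a2 nb kb cb).sum

lemma W1_le_W2 (js : List (ℕ × ℕ)) : W1 js ≤ W2 js := by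
  induction js with
  | nil => exact le_rfl
  | cons w js ih =>
    have e1 : W1 (w :: js) = w.1 * w.2 + W1 js := rfl
    have e2 : W2 (w :: js) = w.1 * w.2 * w.2 + W2 js := rfl
    rw [e1, e2]
    have : w.1 * w.2 ≤ w.1 * w.2 * w.2 := by
      rw [Nat.mul_assoc]
      exact Nat.mul_le_mul_left _ (Nat.le_mul_self _)
    omega

lemma cfG_sound {g : GrD} {f : CfN} {k : CfN → Bool} (h : cfG g f k = true) :
    ∃ f' : CfN, k f' = true ∧ ∀ p q a0 a2 nb kb cb : ℤ, f'.vl p q a0 a2 nb kb cb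
      = f.vl p q a0 a2 nb kb cb + gsum g p q a0 a2 nb kb cb := by
  obtain ⟨c1, h⟩ := an'_eq h
  obtain ⟨c2, h⟩ := an'_eq h
  obtain ⟨c3, h⟩ := an'_eq h
  obtain ⟨c4, h⟩ := an'_eq h
  have b1 := Nat.le_of_ble_eq_true c1
  have b2 := Nat.le_of_ble_eq_true c2
  have b3 := Nat.le_of_ble_eq_true c3
  have hk1 : 1 ≤ g.k1 := Nat.le_of_ble_eq_true c4
  simp only [fr_eq] at h
  obtain ⟨-, h⟩ := ws_sound h
  simp only [Nat.zero_add] at h
  obtain ⟨k0, hk0⟩ : ∃ k0 : ℕ, k0 = g.k0 := ⟨_, rfl⟩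
  obtain ⟨k1, hk11⟩ : ∃ k1 : ℕ, k1 = g.k1 := ⟨_, rfl⟩
  rw [← hk11] at hk1
  simp only [← hk0, ← hk11] at h
  have hw := W1_le_W2 g.js
  have cw : ((W2 g.js - W1 g.js : ℕ) : ℤ) = W2 g.js - W1 g.js := by rw [Nat.cast_sub hw]
  have ck : ((k1 - 1 : ℕ) : ℤ) = k1 - 1 := by rw [Nat.cast_sub hk1]; rfl
  obtain ⟨k9, hk9⟩ : ∃ k9 : ℕ, k9 = k1 - 1 := ⟨_, rfl⟩
  obtain ⟨w9, hw9⟩ : ∃ w9 : ℕ, w9 = W2 g.js - W1 g.js := ⟨_, rfl⟩
  have z1 : Nat.sub k1 1 = k9 := hk9.symm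
  have z3 : Nat.sub (W2 g.js) (W1 g.js) = w9 := hw9.symm
  rw [← hk9] at ck
  rw [← hw9] at cw
  simp only [z1, z3] at h
  have e9 : ∀ p q a0 a2 nb kb cb a b c : ℤ, (∀ j : ℕ, RKd.rc ⟨g.ty, ⟨g.xy, g.th, g.uq, g.uf, g.c, j, k0, k1⟩⟩ p q a0 a2 nb
      kb cb = a + b * j + c * ((j : ℤ) * j)) →
      gsum g p q a0 a2 nb kb cb = a * W0 g.js + b * W1 g.js + c * W2 g.js := by
    intro p q a0 a2 nb kb cb a b c hj
    obtain ⟨F, hF⟩ : ∃ F : ℕ → ℤ, F = fun j : ℕ => RKd.rc ⟨g.ty, ⟨g.xy, g.th, g.uq, g.uf, g.c, j, k0, k1⟩⟩ p q a0 a2 nb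
      kb cb := ⟨_, rfl⟩
    have e1 : gsum g p q a0 a2 nb kb cb = (g.js.map fun w => (w.1 : ℤ) * F w.2).sum := by
      rw [hF, hk0, hk11]
      unfold gsum GrD.rows
      rw [List.map_map]
      rfl
    rw [e1]
    exact sum_js fun w _ => by rw [hF]; exact hj w.2
  obtain ⟨uq, hq⟩ : ∃ z : ℤ, z = g.uq := ⟨_, rfl⟩
  obtain ⟨uf, hf⟩ : ∃ z : ℤ, z = g.uf := ⟨_, rfl⟩
  have hq2 : uq * uq = uq := by
    rcases Nat.le_one_iff_eq_zero_or_eq_one.1 b1 with h7 | h7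
    · rw [hq, h7]; rfl
    · rw [hq, h7]; rfl
  have hf2 : uf * uf = uf := by
    rcases Nat.le_one_iff_eq_zero_or_eq_one.1 b2 with h7 | h7
    · rw [hf, h7]; rfl
    · rw [hf, h7]; rfl
  have n20 : ¬ ((2 : ℕ) = 0) := by norm_num
  have n21 : ¬ ((2 : ℕ) = 1) := by norm_num
  rcases sel_cases g.ty with h2 | ⟨t0, t1, t2, t4, t5, h2⟩
  · rcases h2 with h2 | h2 | h2 | h2 | h2
    · -- ty = 0
      simp only [h2] at h
      obtain ⟨f', h3, h4⟩ := CfN.ad_eq f g.xy g.c g.uq g.uf (Nat.mul (k0 * (k1 * k9)) (W0 g.js))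
        (Nat.mul 2 (Nat.mul (Nat.mul k1 k9) (W1 g.js))) (Nat.mul 2 (Nat.mul (k0 * (k1 * k9)) (W0 g.js)))
        (Nat.mul (k0 * (k1 * k9)) (W0 g.js)) (Nat.mul k0 (Nat.mul k9 (W1 g.js)))
        (Nat.mul k0 w9) k b3
      have h5 : CfN.ad f g.xy g.c g.uq g.uf (Nat.mul (k0 * (k1 * k9)) (W0 g.js))
        (Nat.mul 2 (Nat.mul (Nat.mul k1 k9) (W1 g.js))) (Nat.mul 2 (Nat.mul (k0 * (k1 * k9)) (W0 g.js)))
        (Nat.mul (k0 * (k1 * k9)) (W0 g.js)) (Nat.mul k0 (Nat.mul k9 (W1 g.js)))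
        (Nat.mul k0 w9) k = true := h
      rw [h3] at h5
      refine ⟨f', h5, fun p q a0 a2 nb kb cb => ?_⟩
      rw [h4, e9 p q a0 a2 nb kb cb ((k0 : ℤ) * (k1 * ((k1 : ℤ) - 1)) * ((if g.xy = 0 then nb
          else if g.xy = 1 then p * (p + 1) else 0) + 2 * (g.c * cb)
          - ((uq * q + uf * a0) * (uq * q + uf * a0 - 1) + (uf * a0) * (uf * a0 - 1))))
        (2 * (k1 * ((k1 : ℤ) - 1)) * kb
          - k0 * ((k1 : ℤ) - 1) * (2 * (uq * q + uf * a0) * a2 + 2 * (uf * a0) * a2)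
          + k0 * (2 * (a2 * (a2 - 1)))) (-(k0 * (2 * (a2 * (a2 - 1))))) (fun j => by
            unfold RKd.rc
            simp only [if_pos h2]
            unfold TKd.ce TKd.sc
            dsimp only
            rw [← hq, ← hf]
            ring)]
      unfold CfN.gv
      simp only [Nat.mul_eq]
      push_cast
      rw [← hq, ← hf, ck, cw]
      linear_combination (k0 * (k1 * ((k1 : ℤ) - 1)) * W0 g.js * (q * q)) * hq2
        + (2 * (k0 * (k1 * ((k1 : ℤ) - 1)) * W0 g.js) * (a0 * a0)) * hf2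
    · -- ty = 1
      have n0 : ¬ g.ty = 0 := by omega
      have n2 : ¬ g.ty = 2 := by omega
      have n4 : ¬ g.ty = 4 := by omega
      have n5 : ¬ g.ty = 5 := by omega
      simp only [h2] at h
      obtain ⟨f', h3, h4⟩ := CfN.ad_eq f 2 g.c 0 0 0 (W1 g.js) (Nat.mul k0 (W0 g.js)) 0 0 0 k le_rfl
      have h5 : CfN.ad f 2 g.c 0 0 0 (W1 g.js) (Nat.mul k0 (W0 g.js)) 0 0 0 k = true := h
      rw [h3] at h5
      refine ⟨f', h5, fun p q a0 a2 nb kb cb => ?_⟩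
      rw [h4, e9 p q a0 a2 nb kb cb (k0 * (g.c * cb)) kb 0 (fun j => by
            unfold RKd.rc
            simp only [if_neg n0, if_neg n2, if_neg n4, if_neg n5]
            unfold TKd.cn
            dsimp only
            ring)]
      unfold CfN.gv
      simp only [Nat.mul_eq]
      rw [if_neg n20, if_neg n21]
      push_cast
      ring
    · -- ty = 2
      have n0 : ¬ g.ty = 0 := by omega
      simp only [h2] at h
      obtain ⟨f', h3, h4⟩ := CfN.ad_eq f g.xy g.c 1 1 (Nat.mul (k0 * (k1 * k9)) (W0 g.js))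
        (Nat.mul 2 (Nat.mul (Nat.mul k1 k9) (W1 g.js))) (Nat.mul 2 (Nat.mul (k0 * (k1 * k9)) (W0 g.js)))
        (Nat.mul k0 w9) (Nat.mul k0 w9) (Nat.mul k0 w9) k b3
      have h5 : CfN.ad f g.xy g.c 1 1 (Nat.mul (k0 * (k1 * k9)) (W0 g.js))
        (Nat.mul 2 (Nat.mul (Nat.mul k1 k9) (W1 g.js))) (Nat.mul 2 (Nat.mul (k0 * (k1 * k9)) (W0 g.js)))
        (Nat.mul k0 w9) (Nat.mul k0 w9) (Nat.mul k0 w9) k = true := h
      rw [h3] at h5
      refine ⟨f', h5, fun p q a0 a2 nb kb cb => ?_⟩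
      rw [h4, e9 p q a0 a2 nb kb cb ((k0 : ℤ) * (k1 * ((k1 : ℤ) - 1)) * ((if g.xy = 0 then nb
          else if g.xy = 1 then p * (p + 1) else 0) + 2 * (g.c * cb)))
        (2 * (k1 * ((k1 : ℤ) - 1)) * kb
          + k0 * ((q + a0 + a2) * (q + a0 + a2 - 1) + (a0 + a2) * (a0 + a2 - 1)))
        (-(k0 * ((q + a0 + a2) * (q + a0 + a2 - 1) + (a0 + a2) * (a0 + a2 - 1)))) (fun j => by
            unfold RKd.rc
            simp only [if_neg n0, if_pos h2]
            unfold TKd.cea TKd.sc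
            dsimp only
            ring)]
      unfold CfN.gv
      simp only [Nat.mul_eq]
      push_cast
      rw [ck, cw]
      ring
    · -- ty = 4
      have n0 : ¬ g.ty = 0 := by omega
      have n2 : ¬ g.ty = 2 := by omega
      simp only [h2] at h
      obtain ⟨f', h3, h4⟩ := CfN.ad_eq f g.xy g.c g.uq g.uf (W0 g.js) (Nat.mul 2 (W0 g.js))
        (Nat.mul 2 (W0 g.js)) (W0 g.js) (W0 g.js) (W0 g.js) k b3
      have h5 : CfN.ad f g.xy g.c g.uq g.uf (W0 g.js) (Nat.mul 2 (W0 g.js))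
        (Nat.mul 2 (W0 g.js)) (W0 g.js) (W0 g.js) (W0 g.js) k = true := h
      rw [h3] at h5
      refine ⟨f', h5, fun p q a0 a2 nb kb cb => ?_⟩
      rw [h4, e9 p q a0 a2 nb kb cb ((if g.xy = 0 then nb
          else if g.xy = 1 then p * (p + 1) else 0) + 2 * (g.c * cb) + 2 * kb
          - ((uq * q + (uf * a0 + a2)) * (uq * q + (uf * a0 + a2) - 1)
            + (uf * a0 + a2) * (uf * a0 + a2 - 1))) 0 0 (fun j => by
            unfold RKd.rc
            simp only [if_neg n0, if_neg n2, if_pos h2]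
            unfold TKd.ceu
            dsimp only
            rw [← hq, ← hf]
            ring)]
      unfold CfN.gv
      simp only [Nat.mul_eq]
      push_cast
      rw [← hq, ← hf]
      linear_combination ((W0 g.js : ℤ) * (q * q)) * hq2 + (2 * (W0 g.js : ℤ) * (a0 * a0)) * hf2
    · -- ty = 5
      have n0 : ¬ g.ty = 0 := by omega
      have n2 : ¬ g.ty = 2 := by omega
      have n4 : ¬ g.ty = 4 := by omega
      simp only [h2] at h
      obtain ⟨f', h3, h4⟩ := CfN.ad_eq f 2 g.c 0 0 0 (W0 g.js) (W0 g.js) 0 0 0 k le_rfl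
      have h5 : CfN.ad f 2 g.c 0 0 0 (W0 g.js) (W0 g.js) 0 0 0 k = true := h
      rw [h3] at h5
      refine ⟨f', h5, fun p q a0 a2 nb kb cb => ?_⟩
      rw [h4, e9 p q a0 a2 nb kb cb (kb + g.c * cb) 0 0 (fun j => by
            unfold RKd.rc
            simp only [if_neg n0, if_neg n2, if_neg n4, if_pos h2]
            ring)]
      unfold CfN.gv
      rw [if_neg n20, if_neg n21]
      push_cast
      ring
  · -- else
    have h5 : CfN.ad f 2 g.c 0 0 0 (W1 g.js) (Nat.mul k0 (W0 g.js)) 0 0 0 k = true := by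
      rcases hty : g.ty with _ | _ | _ | _ | _ | _ | t
      · exact absurd hty t0
      · exact absurd hty t1
      · exact absurd hty t2
      · rw [hty] at h; exact h
      · exact absurd hty t4
      · exact absurd hty t5
      · rw [hty] at h; exact h
    obtain ⟨f', h3, h4⟩ := CfN.ad_eq f 2 g.c 0 0 0 (W1 g.js) (Nat.mul k0 (W0 g.js)) 0 0 0 k le_rfl
    rw [h3] at h5
    refine ⟨f', h5, fun p q a0 a2 nb kb cb => ?_⟩
    rw [h4, e9 p q a0 a2 nb kb cb (k0 * (g.c * cb)) kb 0 (fun j => by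
          unfold RKd.rc
          simp only [if_neg t0, if_neg t2, if_neg t4, if_neg t5]
          unfold TKd.cn
          dsimp only
          ring)]
    unfold CfN.gv
    simp only [Nat.mul_eq]
    rw [if_neg n20, if_neg n21]
    push_cast
    ring

/-- the coefficients of a list of groups -/
noncomputable def cfs (k : CfN → Bool) (gs : List GrD) : CfN → Bool :=
  List.rec (motive := fun _ => CfN → Bool) k (fun g _ ih f => cfG g f ih) gs

lemma cfs_sound {k : CfN → Bool} : ∀ {gs : List GrD} {f : CfN}, cfs k gs f = true →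
    ∃ f' : CfN, k f' = true ∧ ∀ p q a0 a2 nb kb cb : ℤ, f'.vl p q a0 a2 nb kb cb
      = f.vl p q a0 a2 nb kb cb + ((rowsL gs).map fun r => (r.1 : ℤ)
        * r.2.rc p q a0 a2 nb kb cb).sum := by
  intro gs
  induction gs with
  | nil =>
    intro f h
    refine ⟨f, h, fun p q a0 a2 nb kb cb => ?_⟩
    unfold rowsL
    simp
  | cons g gs ih =>
    intro f h
    have h0 : cfG g f (fun f' => cfs k gs f') = true := h
    obtain ⟨f1, h1, h2⟩ := cfG_sound h0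
    obtain ⟨f2, h3, h4⟩ := ih h1
    refine ⟨f2, h3, fun p q a0 a2 nb kb cb => ?_⟩
    have e1 : rowsL (g :: gs) = g.rows ++ rowsL gs := rfl
    rw [h4, h2, e1, List.map_append, List.sum_append]
    unfold gsum
    ring

/-- first entry (or zero) and rest -/
noncomputable def ut (l : List ℕ) (k : ℕ → List ℕ → Bool) : Bool :=
  List.casesOn (motive := fun _ => Bool) l (k 0 []) k

lemma ut_eq (l : List ℕ) (k : ℕ → List ℕ → Bool) : ut l k = k (l.getD 0 0) l.tail := by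
  cases l <;> rfl

lemma getD_tail (l : List ℕ) (i : ℕ) : l.tail.getD i 0 = l.getD (i + 1) 0 := by
  cases l <;> simp

end MF

namespace LfD

/-- the coefficients of the tests of a leaf -/
noncomputable def cf (L : LfD) (k : CfN → Bool) : Bool :=
  MF.cfs k L.gs ⟨0, 0, 0, 0, 0, 0, 0, 0, 0, 0, 0, 0, 0⟩

theorem cf_sound {L : LfD} {k : CfN → Bool} (h : L.cf k = true) :
    ∃ f : CfN, k f = true ∧ ∀ p q a0 a2 nb kb cb : ℤ,
      L.toD.cel p q a0 a2 nb kb cb = f.vl p q a0 a2 nb kb cb := by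
  obtain ⟨f, h1, h2⟩ := MF.cfs_sound h
  refine ⟨f, h1, fun p q a0 a2 nb kb cb => ?_⟩
  rw [h2]
  unfold LeafD.cel toD CfN.vl
  dsimp only
  push_cast
  ring

/-- difference of naturals as an integer -/
noncomputable def zi (a b : ℕ) : ℤ := Int.subNatNat a b

lemma zi_eq (a b : ℕ) : zi a b = (a : ℤ) - b := Int.subNatNat_eq_coe

/-- **the coefficients of (C)** in the order
`kb cb nb p x q m mc md k0 k2 c ca pp qq qk0 qk2 k0k0 k0k2 k2k2` -/
noncomputable def cfz (L : LfD) (k : List ℤ → Bool) : Bool :=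
  L.cf fun f =>
  MF.ut L.lp fun h1 a => MF.ut a fun p1 a => MF.ut a fun x1 a => MF.ut a fun q1 a =>
  MF.ut a fun f1 a => MF.ut a fun s1 a => MF.ut a fun c1 a => MF.ut a fun a1 _ =>
  MF.ut L.lm fun h2 a => MF.ut a fun p2 a => MF.ut a fun x2 a => MF.ut a fun q2 a =>
  MF.ut a fun f2 a => MF.ut a fun s2 a => MF.ut a fun c2 a => MF.ut a fun a2 _ =>
  k [Int.ofNat f.kb, Int.ofNat f.cb, Int.ofNat f.nb, zi (Nat.add f.pp p1) p2, zi x1 x2,
    zi (Nat.add f.q q1) q2, zi h1 (Nat.add h2 L.an), zi h1 h2, zi 0 L.an, zi (Nat.add f.k0 f1) f2,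
    zi (Nat.add f.k2 s1) s2, zi c1 c2, zi a1 a2, Int.ofNat f.pp, zi 0 f.qq, zi 0 f.qk, zi 0 f.qh,
    zi 0 f.kk, zi 0 f.kh, zi 0 f.hh]

/-- **the left side of (C)** without the payment and the mark -/
theorem cfz_sound {L : LfD} {k : List ℤ → Bool} (h : L.cfz k = true) :
    ∃ cs : List ℤ, k cs = true ∧ cs.length = 20 ∧ ∀ p x q m1 m2 mc md k0 k2 c ca nb kb cb : ℤ,
      L.toD.cel p q k0 k2 nb kb cb + L.toD.ln.cel p x q m1 m2 mc k0 k2 c ca
        - L.toD.ln.an * md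
      = Sl.zdot cs [kb, cb, nb, p, x, q, m1 + m2, mc, md, k0, k2, c, ca, p * p, q * q, q * k0,
        q * k2, k0 * k0, k0 * k2, k2 * k2] := by
  unfold cfz at h
  obtain ⟨f, h1, h2⟩ := cf_sound h
  simp only [MF.ut_eq, MF.getD_tail] at h1
  refine ⟨_, h1, rfl, fun p x q m1 m2 mc md k0 k2 c ca nb kb cb => ?_⟩
  rw [h2]
  simp only [Sl.zdot_cons, Sl.zdot_nil, zi_eq, Nat.add_eq]
  unfold LnM.cel toD MF.lnOf CfN.vl
  dsimp only
  push_cast
  simp only [Int.ofNat_eq_natCast]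
  ring

/-- **the coefficients of (C)** for `Sl.LfC`: of `kb`, of `cb`, and of the basis
`1 B p x q m mc k0 k2 c ca nb md pp qq qk0 qk2 k0k0 k0k2 k2k2` -/
noncomputable def cfx (L : LfD) (k : ℕ → ℕ → List ℤ → Bool) : Bool :=
  L.cf fun f =>
  MF.ut L.lp fun h1 a => MF.ut a fun p1 a => MF.ut a fun x1 a => MF.ut a fun q1 a =>
  MF.ut a fun f1 a => MF.ut a fun s1 a => MF.ut a fun c1 a => MF.ut a fun a1 _ =>
  MF.ut L.lm fun h2 a => MF.ut a fun p2 a => MF.ut a fun x2 a => MF.ut a fun q2 a =>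
  MF.ut a fun f2 a => MF.ut a fun s2 a => MF.ut a fun c2 a => MF.ut a fun a2 _ =>
  k f.kb f.cb [0, 0, zi (Nat.add f.pp p1) p2, zi x1 x2, zi (Nat.add f.q q1) q2,
    zi h1 (Nat.add h2 L.an), zi h1 h2, zi (Nat.add f.k0 f1) f2, zi (Nat.add f.k2 s1) s2, zi c1 c2,
    zi a1 a2, Int.ofNat f.nb, zi 0 L.an, Int.ofNat f.pp, zi 0 f.qq, zi 0 f.qk, zi 0 f.qh, zi 0 f.kk,
    zi 0 f.kh, zi 0 f.hh]

/-- **the left side of (C)** without the payment and the mark, in the form of `Sl.LfC` -/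
theorem cfx_sound {L : LfD} {k : ℕ → ℕ → List ℤ → Bool} (h : L.cfx k = true) :
    ∃ (kap kc : ℕ) (cx : List ℤ), k kap kc cx = true ∧
      ∀ B p x q m1 m2 mc md k0 k2 c ca nb kb cb : ℤ,
      L.toD.cel p q k0 k2 nb kb cb + L.toD.ln.cel p x q m1 m2 mc k0 k2 c ca
        - L.toD.ln.an * md
      = kap * kb + kc * cb + Sl.zdot cx [1, B, p, x, q, m1 + m2, mc, k0, k2, c, ca, nb, md, p * p,
        q * q, q * k0, q * k2, k0 * k0, k0 * k2, k2 * k2] := by
  unfold cfx at h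
  obtain ⟨f, h1, h2⟩ := cf_sound h
  simp only [MF.ut_eq, MF.getD_tail] at h1
  refine ⟨_, _, _, h1, fun B p x q m1 m2 mc md k0 k2 c ca nb kb cb => ?_⟩
  rw [h2]
  simp only [Sl.zdot_cons, Sl.zdot_nil, zi_eq, Nat.add_eq]
  unfold LnM.cel toD MF.lnOf CfN.vl
  dsimp only
  push_cast
  simp only [Int.ofNat_eq_natCast]
  ring

section test

/-- a small test -/
example : cfz ⟨100, 20000, 50, 0, 60, 0, 10, 0, 5, [1, 2, 3, 4, 5, 6], [0, 0, 1], [⟨0, 0, 1, 1, 1, 0, 2, 5,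
    [(3, 0), (2, 1), (5, 2)]⟩, ⟨1, 0, 1, 1, 1, 0, 2, 5, [(7, 0), (2, 2)]⟩]⟩ (fun l => List.casesOn l false fun a _ =>
      Int.casesOn a (fun n => Nat.ble n 484) (fun _ => false)) = true := by
  decide +kernel

end test

end LfD

end Pool.Agent.Lib.MP_f04ccf_co
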