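import Pool.Agent.Lib.MP_f04ccf_co.M.LeafU
import Pool.Agent.Lib.MP_f04ccf_co.M.MidE

/-!
MP_f04ccf_co, TEXT D, middle range: **the check (C) of a leaf from the literal of the leaf and the box.**

* `tbF`, `tbP`: the right side `al B + (class)` by the size of the cell, classes from the intervals of `M1`, `M2`;
* `leafT`: corners, bounds, coefficients, right side, `leafC`;
* **`leafT_sound`**: (C) for every class which is possible for the cell.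
-/

set_option autoImplicit false

namespace Pool.Agent.Lib.MP_f04ccf_co

namespace Sl

/-! ### the right side -/

/-- `v` if the condition holds, else `big` -/
def cl (b : Bool) (v big : ℕ) : ℕ := Bool.rec (motive := fun _ => ℕ) big v b

/-- minimum -/
def mn2 (a b : ℕ) : ℕ := Nat.sub a (Nat.sub a b)

lemma mn2_le (a b : ℕ) : mn2 a b ≤ a ∧ mn2 a b ≤ b := by
  unfold mn2
  show a - (a - b) ≤ a ∧ a - (a - b) ≤ b
  omega

/-- the right side of the size `b` -/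
def tbF (al v1 v2 v3 a1 b1 a2 b2 big b : ℕ) : ℕ :=
  Nat.add (Nat.mul al b) (mn2 (cl (Bool.rec (motive := fun _ => Bool) false (Nat.ble b b1)
    (Nat.ble a1 b)) v1 big) (mn2 (cl (Bool.rec (motive := fun _ => Bool) false (Nat.ble b b2)
    (Nat.ble a2 b)) v2 big) (cl (Nat.ble b b2) v3 big)))

lemma tbF_le {al v1 v2 v3 a1 b1 a2 b2 big b : ℕ} :
    (a1 ≤ b → b ≤ b1 → tbF al v1 v2 v3 a1 b1 a2 b2 big b ≤ al * b + v1) ∧
    (a2 ≤ b → b ≤ b2 → tbF al v1 v2 v3 a1 b1 a2 b2 big b ≤ al * b + v2) ∧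
    (b ≤ b2 → tbF al v1 v2 v3 a1 b1 a2 b2 big b ≤ al * b + v3) := by
  unfold tbF
  refine ⟨fun h1 h2 => ?_, fun h1 h2 => ?_, fun h2 => ?_⟩
  · rw [Nat.ble_eq_true_of_le h1]
    refine Nat.add_le_add_left ((mn2_le _ _).1.trans ?_) _
    show cl (Nat.ble b b1) v1 big ≤ v1
    rw [Nat.ble_eq_true_of_le h2]
    exact le_rfl
  · rw [Nat.ble_eq_true_of_le h1]
    refine Nat.add_le_add_left ((mn2_le _ _).2.trans ((mn2_le _ _).1.trans ?_)) _
    show cl (Nat.ble b b2) v2 big ≤ v2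
    rw [Nat.ble_eq_true_of_le h2]
    exact le_rfl
  · refine Nat.add_le_add_left ((mn2_le _ _).2.trans ((mn2_le _ _).2.trans ?_)) _
    rw [Nat.ble_eq_true_of_le h2]
    exact le_rfl

/-- the right sides of the sizes `n, n - 1, .., 1` in front of `acc` -/
noncomputable def tbP (al v1 v2 v3 a1 b1 a2 b2 big n : ℕ) :
    List ℕ → (List ℕ → Bool) → Bool :=
  Nat.rec (motive := fun _ => List ℕ → (List ℕ → Bool) → Bool) (fun acc k => k acc)
    (fun i ih acc k => Mid.frN (Nat.succ i) fun b =>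
      Mid.frN (tbF al v1 v2 v3 a1 b1 a2 b2 big b) fun r => ih (r :: acc) k) n

lemma tbP_eq {al v1 v2 v3 a1 b1 a2 b2 big : ℕ} : ∀ (n : ℕ) (acc : List ℕ) (k : List ℕ → Bool),
    tbP al v1 v2 v3 a1 b1 a2 b2 big n acc k
      = k ((List.range n).map (fun i => tbF al v1 v2 v3 a1 b1 a2 b2 big (i + 1)) ++ acc) := by
  intro n
  induction n with
  | zero => intro acc k; rfl
  | succ n ih =>
    intro acc k
    have e1 : tbP al v1 v2 v3 a1 b1 a2 b2 big (n + 1) acc k = Mid.frN (Nat.succ n) fun b =>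
      Mid.frN (tbF al v1 v2 v3 a1 b1 a2 b2 big b) fun r =>
        tbP al v1 v2 v3 a1 b1 a2 b2 big n (r :: acc) k := rfl
    rw [e1, Mid.frN_eq, Mid.frN_eq, ih, List.range_succ, List.map_append, List.append_assoc]
    rfl

lemma tg_range {f : ℕ → ℕ} {n B : ℕ} (h1 : 1 ≤ B) (h2 : B ≤ n) :
    tg ((List.range n).map fun i => f (i + 1)) B = f B := by
  unfold tg
  have h3 : B - 1 < ((List.range n).map fun i => f (i + 1)).length := by
    rw [List.length_map, List.length_range]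
    omega
  rw [List.getD_eq_getElem _ _ h3, List.getElem_map, List.getElem_range]
  congr 1
  omega

/-! ### the leaf -/

/-- gain of the hosted units of value one -/
def gnF (n : ℕ) : ℕ := Nat.mul n (Nat.sub n 1)

/-- **the check (C) of a leaf**: literal `L` in the box `lo`, `hi` (letters `d hn hx P X K F S C Ca pm M1 M2`) -/
noncomputable def leafT (A n : ℕ) (e : Ev) (x : Et) (L : LfD) (lo hi : List ℕ) : Bool :=
  MF.ut lo fun d0 a => MF.ut a fun n0 a => MF.ut a fun x0 a => MF.ut a fun P0 a =>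
  MF.ut a fun _ a => MF.ut a fun _ a => MF.ut a fun _ a => MF.ut a fun _ a =>
  MF.ut a fun _ a => MF.ut a fun _ a => MF.ut a fun q0 a => MF.ut a fun a1 a => MF.ut a fun a2 _ =>
  MF.ut hi fun d1 a => MF.ut a fun n1 a => MF.ut a fun x1 a => MF.ut a fun P1 a =>
  MF.ut a fun X1 a => MF.ut a fun K1 a => MF.ut a fun F1 a => MF.ut a fun S1 a =>
  MF.ut a fun C1 a => MF.ut a fun A1 a => MF.ut a fun p1 a => MF.ut a fun b1 a => MF.ut a fun b2 _ =>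
  Mid.frN (Nat.add n0 x0) fun h0 => Mid.frN (Nat.add n1 x1) fun h1 =>
  Mid.frN (Nat.add d0 n0) fun D0 => Mid.frN (mn2 (Nat.add d1 n1) A) fun D1 =>
  Mid.frN (gnF n0) fun gn => Mid.frN (Nat.add L.u1p (Nat.add L.u2m L.u3)) fun v1 =>
  Mid.frN (Nat.add L.u2p (Nat.add L.u1m L.u3)) fun v2 => Mid.frN (Nat.add L.u1m L.u2m) fun v3 =>
  L.cfx fun kap kc cx =>
  tbP L.al v1 v2 v3 a1 b1 a2 b2 (Nat.add (Nat.add v1 v2) v3) n [] fun tB =>
  leafC e x ⟨p1, corAKs A p1 gn (ends d0 d1) (ends h0 h1) (ends P0 P1),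
    corAOs A p1 gn (ends d0 d1) (ends h0 h1), corOKs A p1 (ends D0 D1) (ends P0 P1),
    corOOs A p1 (ends D0 D1), [p1, X1, K1, n1, F1, S1, C1, A1, h1, n1, x1, x1], L.E, kap, kc, L.mkd,
    q0, cx, tB, Nat.add L.u1m (Nat.add L.u2m L.u3)⟩

/-- the facts of a cell in a box: code `c`, box `lo`, `hi` -/
structure CelB (R A n : ℕ) (t : TabL) (lo hi : List ℕ) (c kb w hb hw hc cb wc : ℕ) : Prop where
  B1 : 1 ≤ lB c
  Bn : lB c ≤ n
  bp : lp c ≤ hi.getD 10 0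
  bx : lx c ≤ hi.getD 4 0
  bq : lq c ≤ hi.getD 5 0
  bm : lm c ≤ hi.getD 1 0
  b0 : l0 c ≤ hi.getD 6 0
  b2 : l2 c ≤ hi.getD 7 0
  bc : lc c ≤ hi.getD 8 0
  ba : la c ≤ hi.getD 9 0
  bh : lm c + lh c ≤ hi.getD 1 0 + hi.getD 2 0
  bI : lm c + li c ≤ hi.getD 1 0
  bi : li c ≤ hi.getD 2 0
  bd : ld c ≤ hi.getD 2 0
  kbS : kb ≤ l2 c * tg t.bS (lB c)
  wa : w ≤ kb + l2 c * tg t.a1 (lB c)
  ww : w ≤ l2 c * tg t.Wm (lB c)
  hbH : hb ≤ lm c * tg t.bH (lB c)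
  hwH : hw ≤ lm c * tg t.wH (lB c)
  hcC : hc ≤ li c * tg t.bC (lB c)
  cbK : cb ≤ la c * tg t.bK (lB c)
  wcK : wc ≤ cb + la c * tg t.aK (lB c)
  capM : CapVM R A (lB c) ((lp c : ℤ) + lx c + lq c) (0 + (lm c : ℤ)) ((l0 c : ℤ) + l2 c) hw w
    (2 * ((0 + (lm c : ℤ)) * (0 + lm c - 1)) + 2 * (((l0 c : ℤ) + l2 c) * (l0 c + l2 c - 1)))
  capO : CapVO R A (lB c) ((lp c : ℤ) + lx c) (lq c) (0 + (lm c : ℤ)) ((l0 c : ℤ) + l2 c) hw w
    (2 * ((0 + (lm c : ℤ)) * (0 + lm c - 1)) + 2 * (((l0 c : ℤ) + l2 c) * (l0 c + l2 c - 1)))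
  col : ColBox R A ⟨lB c, lp c, lx c, lq c, 0, lm c, lh c, l0 c, l2 c, lc c, la c⟩ 1
    ((hb : ℤ) + hc) hb ((w : ℤ) + l2 c * lq c + wc)
    ((lo.getD 1 0 : ℤ) * ((lo.getD 1 0 : ℤ) - 1)) (hi.getD 10 0) (lo.getD 0 0) (hi.getD 0 0)
    ((lo.getD 1 0 : ℤ) + lo.getD 2 0) ((hi.getD 1 0 : ℤ) + hi.getD 2 0) (lo.getD 3 0) (hi.getD 3 0)
    ((lo.getD 0 0 : ℤ) + lo.getD 1 0) (min ((hi.getD 0 0 : ℤ) + hi.getD 1 0) A)

lemma gnF_eq (n : ℕ) : ((gnF n : ℕ) : ℤ) = (n : ℤ) * ((n : ℤ) - 1) := by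
  unfold gnF
  show ((n * (n - 1) : ℕ) : ℤ) = _
  rcases Nat.eq_zero_or_pos n with h | h
  · subst h
    simp
  · push_cast [h]
    ring

lemma mn2_eq (a b : ℕ) : ((mn2 a b : ℕ) : ℤ) = min (a : ℤ) b := by
  unfold mn2
  show ((a - (a - b) : ℕ) : ℤ) = _
  omega

/-- the coefficients with the length -/
theorem cfx_sound' {L : LfD} {k : ℕ → ℕ → List ℤ → Bool} (h : L.cfx k = true) :
    ∃ (kap kc : ℕ) (cx : List ℤ), k kap kc cx = true ∧ cx.length = 20 ∧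
      ∀ B p x q m1 m2 mc md k0 k2 c ca nb kb cb : ℤ,
      L.toD.cel p q k0 k2 nb kb cb + L.toD.ln.cel p x q m1 m2 mc k0 k2 c ca
        - L.toD.ln.an * md
      = kap * kb + kc * cb + Sl.zdot cx [1, B, p, x, q, m1 + m2, mc, k0, k2, c, ca, nb, md, p * p,
        q * q, q * k0, q * k2, k0 * k0, k0 * k2, k2 * k2] := by
  unfold LfD.cfx at h
  obtain ⟨f, h1, h2⟩ := LfD.cf_sound h
  simp only [MF.ut_eq, MF.getD_tail] at h1
  refine ⟨_, _, _, h1, rfl, fun B p x q m1 m2 mc md k0 k2 c ca nb kb cb => ?_⟩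
  rw [h2]
  simp only [Sl.zdot_cons, Sl.zdot_nil, LfD.zi_eq, Nat.add_eq]
  unfold LnM.cel LfD.toD MF.lnOf CfN.vl
  dsimp only
  push_cast
  simp only [Int.ofNat_eq_natCast]
  ring

lemma zdot_append {cs : List ℤ} : ∀ {xs : List ℤ} (ys : List ℤ), cs.length = xs.length →
    zdot cs (xs ++ ys) = zdot cs xs := by
  induction cs with
  | nil => intro xs ys _; rfl
  | cons c cs ih =>
    intro xs ys h
    cases xs with
    | nil => simp at h
    | cons x xs =>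
      rw [List.cons_append, zdot_cons, zdot_cons, ih ys (by simpa using h)]

/-- **(C) FOR EVERY POSSIBLE CLASS OF A CELL** -/
theorem leafT_sound {w : ℕ} (hw : 0 < w) {Lc : List ℕ} {R A n : ℕ} {y : PayL} {e : Ev}
    (he : EvOk w Lc R A n y e) {t : TabL} {x : Et} (hx : EtOk w Lc R A n y t x) {L : LfD}
    {lo hi : List ℕ} (h : leafT A n e x L lo hi = true) {D : ℕ} {S G P : ℕ → ℕ → ℕ}
    (hy : PayOk D S G P A n y) {c : ℕ} (hc : c ∈ Lc) {kb w' hb hw' hcm cb wc : ℕ}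
    (X : CelB R A n t lo hi c kb w' hb hw' hcm cb wc) {u : ℤ}
    (hu : (u = (L.u1p : ℤ) - L.u1m ∧ lo.getD 11 0 ≤ lB c ∧ lB c ≤ hi.getD 11 0) ∨
      (u = (L.u2p : ℤ) - L.u2m ∧ lo.getD 12 0 ≤ lB c ∧ lB c ≤ hi.getD 12 0) ∨
      (u = -(L.u3 : ℤ) ∧ lB c ≤ hi.getD 12 0)) (m1 m2 : ℤ) (hm : m1 + m2 = lm c) :
    (L.E : ℤ) * payG D S G P A (lB c) ((lp c : ℤ) + lx c) ((lm c : ℤ) + lh c) ((hb : ℤ) + hcm)
        (lq c) ((l0 c : ℤ) + l2 c + lc c) ((kb : ℤ) + cb)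
      + L.toD.cel (lp c) (lq c) (l0 c) (l2 c) (lnb c) kb cb
      + L.toD.ln.cel (lp c) (lx c) (lq c) m1 m2 (lh c) (l0 c) (l2 c) (lc c) (la c)
      - L.toD.ln.an * ld c
      + L.mkd * ((bl 1 (decide (lo.getD 10 0 ≤ lp c)) : ℕ) : ℤ)
      ≤ L.al * lB c + u := by
  unfold leafT at h
  simp only [MF.ut_eq, MF.getD_tail, Mid.frN_eq] at h
  obtain ⟨kap, kc, cx, h1, h2, h3⟩ := cfx_sound' h
  rw [tbP_eq, List.append_nil] at h1
  have hX : CelX (R : ℤ) A n t ⟨hi.getD 10 0, corAKs A (hi.getD 10 0) (gnF (lo.getD 1 0))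
      (ends (lo.getD 0 0) (hi.getD 0 0)) (ends (Nat.add (lo.getD 1 0) (lo.getD 2 0))
        (Nat.add (hi.getD 1 0) (hi.getD 2 0))) (ends (lo.getD 3 0) (hi.getD 3 0)),
      corAOs A (hi.getD 10 0) (gnF (lo.getD 1 0)) (ends (lo.getD 0 0) (hi.getD 0 0))
        (ends (Nat.add (lo.getD 1 0) (lo.getD 2 0)) (Nat.add (hi.getD 1 0) (hi.getD 2 0))),
      corOKs A (hi.getD 10 0) (ends (Nat.add (lo.getD 0 0) (lo.getD 1 0))
        (mn2 (Nat.add (hi.getD 0 0) (hi.getD 1 0)) A)) (ends (lo.getD 3 0) (hi.getD 3 0)),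
      corOOs A (hi.getD 10 0) (ends (Nat.add (lo.getD 0 0) (lo.getD 1 0))
        (mn2 (Nat.add (hi.getD 0 0) (hi.getD 1 0)) A)),
      [hi.getD 10 0, hi.getD 4 0, hi.getD 5 0, hi.getD 1 0, hi.getD 6 0, hi.getD 7 0, hi.getD 8 0,
        hi.getD 9 0, Nat.add (hi.getD 1 0) (hi.getD 2 0), hi.getD 1 0, hi.getD 2 0, hi.getD 2 0],
      L.E, kap, kc, L.mkd, lo.getD 10 0, cx, (List.range n).map fun i => tbF L.al
        (Nat.add L.u1p (Nat.add L.u2m L.u3)) (Nat.add L.u2p (Nat.add L.u1m L.u3))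
        (Nat.add L.u1m L.u2m) (lo.getD 11 0) (hi.getD 11 0) (lo.getD 12 0) (hi.getD 12 0)
        (Nat.add (Nat.add (Nat.add L.u1p (Nat.add L.u2m L.u3)) (Nat.add L.u2p (Nat.add L.u1m L.u3)))
          (Nat.add L.u1m L.u2m)) (i + 1), Nat.add L.u1m (Nat.add L.u2m L.u3)⟩
      (gnF (lo.getD 1 0)) (lo.getD 0 0) (hi.getD 0 0) (Nat.add (lo.getD 1 0) (lo.getD 2 0))
      (Nat.add (hi.getD 1 0) (hi.getD 2 0)) (lo.getD 3 0) (hi.getD 3 0)
      (Nat.add (lo.getD 0 0) (lo.getD 1 0)) (mn2 (Nat.add (hi.getD 0 0) (hi.getD 1 0)) A)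
      c kb w' hb hw' hcm cb wc := by
    obtain ⟨k1, k2, k3, k4⟩ := X.col
    simp only [one_mul, zero_add] at k1 k2 k3 k4
    refine ⟨X.B1, X.Bn, ?_, X.kbS, X.wa, X.ww, X.hbH, X.hwH, X.hcC, X.cbK, X.wcK, X.capM, X.capO,
      ?_, ?_, ?_, ?_⟩
    · have b := And.intro X.bp (And.intro X.bx (And.intro X.bq (And.intro X.bm (And.intro X.b0
        (And.intro X.b2 (And.intro X.bc (And.intro X.ba (And.intro X.bh (And.intro X.bI
        (And.intro X.bi X.bd))))))))))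
      obtain ⟨z1, z2, z3, z4, z5, z6, z7, z8, z9, z10, z11, z12⟩ := b
      show (decide (lp c ≤ hi.getD 10 0) && (decide (lx c ≤ hi.getD 4 0)
        && (decide (lq c ≤ hi.getD 5 0) && (decide (lm c ≤ hi.getD 1 0)
        && (decide (l0 c ≤ hi.getD 6 0) && (decide (l2 c ≤ hi.getD 7 0)
        && (decide (lc c ≤ hi.getD 8 0) && (decide (la c ≤ hi.getD 9 0)
        && (decide (lH c ≤ hi.getD 1 0 + hi.getD 2 0) && (decide (lI c ≤ hi.getD 1 0)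
        && (decide (li c ≤ hi.getD 2 0) && (decide (ld c ≤ hi.getD 2 0)
        && true)))))))))))) = true
      rw [decide_eq_true z1, decide_eq_true z2, decide_eq_true z3, decide_eq_true z4,
        decide_eq_true z5, decide_eq_true z6, decide_eq_true z7, decide_eq_true z8,
        decide_eq_true (show lH c ≤ hi.getD 1 0 + hi.getD 2 0 from z9),
        decide_eq_true (show lI c ≤ hi.getD 1 0 from z10), decide_eq_true z11, decide_eq_true z12]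
      rfl
    · obtain ⟨d, H, P, e1, e2, e3, e4⟩ := k1
      refine ⟨d, H, P, e1, ?_, e3, ?_⟩
      · show End (((lo.getD 1 0 + lo.getD 2 0 : ℕ) : ℤ)) ((hi.getD 1 0 + hi.getD 2 0 : ℕ) : ℤ) H
        push_cast
        exact e2
      · rw [gnF_eq]
        exact e4
    · obtain ⟨d, H, e1, e2, e4⟩ := k2
      refine ⟨d, H, e1, ?_, ?_⟩
      · show End (((lo.getD 1 0 + lo.getD 2 0 : ℕ) : ℤ)) ((hi.getD 1 0 + hi.getD 2 0 : ℕ) : ℤ) H
        push_cast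
        exact e2
      · rw [gnF_eq]
        exact e4
    · obtain ⟨Dd, P, e1, e2, e4⟩ := k3
      refine ⟨Dd, P, ?_, e2, e4⟩
      rw [mn2_eq]
      show End (((lo.getD 0 0 + lo.getD 1 0 : ℕ) : ℤ)) (min ((hi.getD 0 0 + hi.getD 1 0 : ℕ) : ℤ) A) Dd
      push_cast
      exact e1
    · obtain ⟨Dd, e1, e4⟩ := k4
      refine ⟨Dd, ?_, e4⟩
      rw [mn2_eq]
      show End (((lo.getD 0 0 + lo.getD 1 0 : ℕ) : ℤ)) (min ((hi.getD 0 0 + hi.getD 1 0 : ℕ) : ℤ) A) Dd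
      push_cast
      exact e1
  have h4 := leafC_sound hw rfl he hx h1 hy ⟨fun d hd H hH P hP => mem_AKs hd hH hP,
    fun d hd H hH => mem_AOs hd hH, fun D hD P hP => mem_OKs hD hP, fun D hD => mem_OOs hD⟩ hc hX
  dsimp only at h4
  rw [tg_range X.B1 X.Bn] at h4
  have h5 := h3 (lB c) (lp c) (lx c) (lq c) m1 m2 (lh c) (ld c) (l0 c) (l2 c) (lc c) (la c) (lnb c)
    kb cb
  have h6 : zdot cx (basF.map fun f => f c) = zdot cx [1, (lB c : ℤ), lp c, lx c, lq c, m1 + m2,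
      lh c, l0 c, l2 c, lc c, la c, lnb c, ld c, (lp c : ℤ) * lp c, (lq c : ℤ) * lq c,
      (lq c : ℤ) * l0 c, (lq c : ℤ) * l2 c, (l0 c : ℤ) * l0 c, (l0 c : ℤ) * l2 c,
      (l2 c : ℤ) * l2 c] := by
    rw [basF_val, hm]
    unfold basV
    exact zdot_append (xs := [1, (lB c : ℤ), lp c, lx c, lq c, lm c,
      lh c, l0 c, l2 c, lc c, la c, lnb c, ld c, (lp c : ℤ) * lp c, (lq c : ℤ) * lq c,
      (lq c : ℤ) * l0 c, (lq c : ℤ) * l2 c, (l0 c : ℤ) * l0 c, (l0 c : ℤ) * l2 c,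
      (l2 c : ℤ) * l2 c]) _ h2
  rw [h6] at h4
  obtain ⟨t1, t2, t3⟩ := tbF_le (al := L.al) (v1 := Nat.add L.u1p (Nat.add L.u2m L.u3))
    (v2 := Nat.add L.u2p (Nat.add L.u1m L.u3)) (v3 := Nat.add L.u1m L.u2m) (a1 := lo.getD 11 0)
    (b1 := hi.getD 11 0) (a2 := lo.getD 12 0) (b2 := hi.getD 12 0)
    (big := Nat.add (Nat.add (Nat.add L.u1p (Nat.add L.u2m L.u3))
      (Nat.add L.u2p (Nat.add L.u1m L.u3))) (Nat.add L.u1m L.u2m)) (b := lB c)
  have h7 : (tbF L.al (Nat.add L.u1p (Nat.add L.u2m L.u3)) (Nat.add L.u2p (Nat.add L.u1m L.u3))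
      (Nat.add L.u1m L.u2m) (lo.getD 11 0) (hi.getD 11 0) (lo.getD 12 0) (hi.getD 12 0)
      (Nat.add (Nat.add (Nat.add L.u1p (Nat.add L.u2m L.u3)) (Nat.add L.u2p (Nat.add L.u1m L.u3)))
        (Nat.add L.u1m L.u2m)) (lB c) : ℤ) - ((Nat.add L.u1m (Nat.add L.u2m L.u3) : ℕ) : ℤ)
      ≤ L.al * lB c + u := by
    rcases hu with ⟨hu, g1, g2⟩ | ⟨hu, g1, g2⟩ | ⟨hu, g2⟩
    · have g3 := t1 g1 g2
      zify at g3
      simp only [Nat.add_eq] at g3 ⊢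
      push_cast at g3 ⊢
      rw [hu]
      linarith
    · have g3 := t2 g1 g2
      zify at g3
      simp only [Nat.add_eq] at g3 ⊢
      push_cast at g3 ⊢
      rw [hu]
      linarith
    · have g3 := t3 g2
      zify at g3
      simp only [Nat.add_eq] at g3 ⊢
      push_cast at g3 ⊢
      rw [hu]
      linarith
  linarith

end Sl

end Pool.Agent.Lib.MP_f04ccf_co
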