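import Pool.Agent.Lib.MP_f04ccf_co.M.LeafS
import Pool.Agent.Lib.MP_f04ccf_co.M.TabG

/-!
MP_f04ccf_co, TEXT D, middle range: **soundness of the check (C) of a leaf against the facts of a cell.**

* `BxN`: the box of states in naturals; `corAKs corAOs corOKs corOOs`: the corners of the four column tests;
* `TabL.fn`: tables as functions (`TbM`); `cnt`: the content of a code; `PayOk`: the payment tables are right;
* **`leafC_sound`**: `leafC .. = true`, the code in the list, the facts of the cell with the tables and the box: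
  `E (payment) + kap kb + kc cb + mu [pm ≤ p] + cx . basis ≤ tB (B) - t0` for all misses.
-/

set_option autoImplicit false

namespace Pool.Agent.Lib.MP_f04ccf_co

namespace Sl

/-- the tables as functions -/
def TabL.fn (t : TabL) : TbM :=
  ⟨tg t.bH, tg t.wH, tg t.bS, tg t.a1, tg t.Wm, tg t.bC, fun _ => 0, tg t.bK, tg t.aK⟩

/-- the content of a code -/
def cnt (c : ℕ) : Cnt := ⟨lB c, lp c, lx c, lq c, 0, lm c, lh c, ld c, l0 c, l2 c, lc c, la c⟩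

/-! ### corners -/

/-- a corner of the test with everything kept -/
def cAK (A p1 gn d H P : ℕ) : Cor :=
  ⟨Nat.mul 2 (Nat.add H P), Nat.mul 2 d, 0, Nat.add (Nat.add (Nat.mul (Nat.add H P) (Nat.add H P))
    (Nat.mul 2 (Nat.mul A (Nat.add H P)))) (Nat.mul P (Nat.succ p1)),
    Nat.add (Nat.mul (Nat.add H P) (Nat.succ (Nat.mul 2 d))) gn⟩

/-- a corner of the test with the other block pairs out -/
def cAO (A p1 gn d H : ℕ) : Cor :=
  ⟨Nat.mul 2 H, Nat.mul 2 d, 0, Nat.add (Nat.add (Nat.mul H H) (Nat.mul 2 (Nat.mul A H)))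
    (Nat.mul 2 (Nat.mul p1 (Nat.add A H))),
    Nat.add (Nat.add (Nat.mul H (Nat.succ (Nat.mul 2 d))) (Nat.mul 2 (Nat.mul p1 d))) gn⟩

/-- a corner of the test with the own hosted units kept -/
def cOK (A p1 D P : ℕ) : Cor :=
  ⟨Nat.mul 2 P, Nat.mul 2 D, Nat.mul 2 P, Nat.add (Nat.add (Nat.mul P P)
    (Nat.mul 2 (Nat.mul A P))) (Nat.mul P (Nat.succ p1)), Nat.mul P (Nat.succ (Nat.mul 2 D))⟩

/-- a corner of the test with the own hosted units kept, the other block pairs out -/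
def cOO (A p1 D : ℕ) : Cor :=
  ⟨0, Nat.mul 2 D, 0, Nat.mul 2 (Nat.mul p1 A), Nat.mul 2 (Nat.mul p1 D)⟩

/-- fold over a list -/
noncomputable def fl {α : Type} (l : List ℕ) (f : ℕ → List α → List α) (acc : List α) : List α :=
  List.rec (motive := fun _ => List α) acc (fun x _ ih => f x ih) l

lemma fl_sub {α : Type} {l : List ℕ} {f : ℕ → List α → List α} {acc : List α} {r : α}
    (hf : ∀ x acc, r ∈ acc → r ∈ f x acc) (h : r ∈ acc) : r ∈ fl l f acc := by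
  induction l with
  | nil => exact h
  | cons x l ih => exact hf x _ ih

lemma fl_mem {α : Type} {l : List ℕ} {f : ℕ → List α → List α} {acc : List α} {r : α} {x : ℕ}
    (hf : ∀ x acc, r ∈ acc → r ∈ f x acc) (hx : x ∈ l) (h : ∀ acc, r ∈ f x acc) :
    r ∈ fl l f acc := by
  induction l with
  | nil => exact absurd hx List.not_mem_nil
  | cons y l ih =>
    rcases List.mem_cons.1 hx with h1 | h1
    · subst h1
      exact h _
    · exact hf y _ (ih h1)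

/-- the corners -/
noncomputable def corAKs (A p1 gn : ℕ) (ds Hs Ps : List ℕ) : List Cor :=
  fl ds (fun d acc => fl Hs (fun H acc => fl Ps (fun P acc => cAK A p1 gn d H P :: acc) acc) acc) []

/-- the corners -/
noncomputable def corAOs (A p1 gn : ℕ) (ds Hs : List ℕ) : List Cor :=
  fl ds (fun d acc => fl Hs (fun H acc => cAO A p1 gn d H :: acc) acc) []

/-- the corners -/
noncomputable def corOKs (A p1 : ℕ) (Ds Ps : List ℕ) : List Cor :=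
  fl Ds (fun D acc => fl Ps (fun P acc => cOK A p1 D P :: acc) acc) []

/-- the corners -/
noncomputable def corOOs (A p1 : ℕ) (Ds : List ℕ) : List Cor :=
  fl Ds (fun D acc => cOO A p1 D :: acc) []

lemma mem_AKs {A p1 gn d H P : ℕ} {ds Hs Ps : List ℕ} (h1 : d ∈ ds) (h2 : H ∈ Hs) (h3 : P ∈ Ps) :
    cAK A p1 gn d H P ∈ corAKs A p1 gn ds Hs Ps := by
  unfold corAKs
  have k3 : ∀ (d H P : ℕ) (acc : List Cor), ∀ r ∈ acc, r ∈ cAK A p1 gn d H P :: acc :=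
    fun d H P acc r hr => List.mem_cons_of_mem _ hr
  have k2 : ∀ (d H : ℕ) (acc : List Cor), ∀ r ∈ acc,
      r ∈ fl Ps (fun P acc => cAK A p1 gn d H P :: acc) acc :=
    fun d H acc r hr => fl_sub (fun P acc h => k3 d H P acc r h) hr
  have k1 : ∀ (d : ℕ) (acc : List Cor), ∀ r ∈ acc,
      r ∈ fl Hs (fun H acc => fl Ps (fun P acc => cAK A p1 gn d H P :: acc) acc) acc :=
    fun d acc r hr => fl_sub (fun H acc h => k2 d H acc r h) hr
  refine fl_mem (fun d acc h => k1 d acc _ h) h1 fun acc => ?_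
  refine fl_mem (fun H acc h => k2 d H acc _ h) h2 fun acc => ?_
  exact fl_mem (fun P acc h => k3 d H P acc _ h) h3 fun acc => List.mem_cons_self

lemma mem_AOs {A p1 gn d H : ℕ} {ds Hs : List ℕ} (h1 : d ∈ ds) (h2 : H ∈ Hs) :
    cAO A p1 gn d H ∈ corAOs A p1 gn ds Hs := by
  unfold corAOs
  have k2 : ∀ (d H : ℕ) (acc : List Cor), ∀ r ∈ acc, r ∈ cAO A p1 gn d H :: acc :=
    fun d H acc r hr => List.mem_cons_of_mem _ hr
  have k1 : ∀ (d : ℕ) (acc : List Cor), ∀ r ∈ acc,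
      r ∈ fl Hs (fun H acc => cAO A p1 gn d H :: acc) acc :=
    fun d acc r hr => fl_sub (fun H acc h => k2 d H acc r h) hr
  refine fl_mem (fun d acc h => k1 d acc _ h) h1 fun acc => ?_
  exact fl_mem (fun H acc h => k2 d H acc _ h) h2 fun acc => List.mem_cons_self

lemma mem_OKs {A p1 D P : ℕ} {Ds Ps : List ℕ} (h1 : D ∈ Ds) (h2 : P ∈ Ps) :
    cOK A p1 D P ∈ corOKs A p1 Ds Ps := by
  unfold corOKs
  have k2 : ∀ (d H : ℕ) (acc : List Cor), ∀ r ∈ acc, r ∈ cOK A p1 d H :: acc :=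
    fun d H acc r hr => List.mem_cons_of_mem _ hr
  have k1 : ∀ (d : ℕ) (acc : List Cor), ∀ r ∈ acc,
      r ∈ fl Ps (fun P acc => cOK A p1 d P :: acc) acc :=
    fun d acc r hr => fl_sub (fun H acc h => k2 d H acc r h) hr
  refine fl_mem (fun d acc h => k1 d acc _ h) h1 fun acc => ?_
  exact fl_mem (fun H acc h => k2 D H acc _ h) h2 fun acc => List.mem_cons_self

lemma mem_OOs {A p1 D : ℕ} {Ds : List ℕ} (h1 : D ∈ Ds) : cOO A p1 D ∈ corOOs A p1 Ds := by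
  unfold corOOs
  exact fl_mem (fun _ acc h => List.mem_cons_of_mem _ h) h1 fun acc => List.mem_cons_self

/-- the ends of an interval -/
noncomputable def ends (a b : ℕ) : List ℕ := Bool.rec (motive := fun _ => List ℕ) [a, b] [a] (Nat.beq a b)

lemma mem_ends {a b : ℕ} {x : ℤ} (h : End (a : ℤ) b x) : ∃ y : ℕ, y ∈ ends a b ∧ x = y := by
  unfold ends
  cases h1 : Nat.beq a b with
  | true =>
    have h2 : a = b := Nat.eq_of_beq_eq_true h1
    rcases h with h | h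
    · exact ⟨a, List.mem_singleton.2 rfl, h⟩
    · exact ⟨a, List.mem_singleton.2 rfl, by rw [h, h2]⟩
  | false =>
    rcases h with h | h
    · exact ⟨a, List.mem_cons_self, h⟩
    · exact ⟨b, List.mem_cons_of_mem _ (List.mem_singleton.2 rfl), h⟩

/-! ### the four forms -/

lemma form_AK {R A : ℤ} {An p1 gn d H P c : ℕ} (hA : A = An) {mb w wc hh ck : ℤ}
    (h : 0 ≤ colAK R A (lB c) (lp c) ((lp c : ℤ) + lx c + lq c) ((lm c : ℤ) + lh c) mb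
      ((l0 c : ℤ) + l2 c + lc c) ((l0 c : ℤ) + l2 c + la c) ((l0 c : ℤ) + l2 c)
      (w + l2 c * lq c + wc) gn p1 d H P) (h1 : 2 * mb ≤ hh) (h2 : 2 * wc ≤ ck) :
    -(2 * w) ≤ (cAK An p1 gn d H P).val (0 + zdot (qAK R A) (basF.map fun f => f c) + hh + ck
      + zdot [0, 0, Int.negSucc p1] (basF.map fun f => f c))
      (0 + zdot uAK (basF.map fun f => f c)) (lm c) := by
  rw [basF_val]
  rw [vAK R A (lB c) (lp c) (lx c) (lq c) (lm c) (lh c) (l0 c) (l2 c) (lc c) (la c) (lnb c) (ld c)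
    mb w wc gn p1 d H P] at h
  unfold cAK Cor.val
  have e1 : zdot [0, 0, Int.negSucc p1] (basV (lB c) (lp c) (lx c) (lq c) (lm c) (lh c) (l0 c)
      (l2 c) (lc c) (la c) (lnb c) (ld c)) = -((p1 : ℤ) + 1) * lp c := by
    unfold basV
    simp only [zdot, Int.negSucc_eq]
    ring
  have e2 : zdot uAK (basV (lB c) (lp c) (lx c) (lq c) (lm c) (lh c) (l0 c)
      (l2 c) (lc c) (la c) (lnb c) (ld c)) = 1 - lB c + lx c + lq c + 2 * l0 c + 2 * l2 c + lc c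
        + la c := by
    unfold basV uAK
    simp only [zdot]
    ring
  rw [e1, e2]
  simp only [Nat.mul_eq, Nat.add_eq, Nat.succ_eq_add_one]
  push_cast
  rw [hA] at h ⊢
  linarith

lemma form_AO {R A : ℤ} {An p1 gn d H c : ℕ} (hA : A = An) {mb w wc hh ck : ℤ}
    (h : 0 ≤ colAO R A (lB c) ((lp c : ℤ) + lx c + lq c) ((lm c : ℤ) + lh c) 0 (lm c) mb
      ((l0 c : ℤ) + l2 c + lc c) ((l0 c : ℤ) + l2 c + la c) ((l0 c : ℤ) + l2 c)
      (w + l2 c * lq c + wc) gn p1 d H) (h1 : 2 * mb ≤ hh) (h2 : 2 * wc ≤ ck) :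
    -(2 * w) ≤ (cAO An p1 gn d H).val (0 + zdot (qAO R A) (basF.map fun f => f c) + hh + ck
      + zdot [0, 0, 0, 0, 0, Int.negOfNat (Nat.mul 2 p1)] (basF.map fun f => f c))
      (0 + zdot uAO (basF.map fun f => f c)) (lm c) := by
  rw [basF_val]
  rw [vAO R A (lB c) (lp c) (lx c) (lq c) (lm c) (lh c) (l0 c) (l2 c) (lc c) (la c) (lnb c) (ld c)
    mb w wc gn p1 d H] at h
  unfold cAO Cor.val
  have e1 : zdot [0, 0, 0, 0, 0, Int.negOfNat (Nat.mul 2 p1)] (basV (lB c) (lp c) (lx c) (lq c)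
      (lm c) (lh c) (l0 c) (l2 c) (lc c) (la c) (lnb c) (ld c)) = -(2 * (p1 : ℤ)) * lm c := by
    unfold basV
    simp only [zdot, Int.negOfNat_eq, Nat.mul_eq, Int.ofNat_eq_natCast]
    push_cast
    ring
  have e2 : zdot uAO (basV (lB c) (lp c) (lx c) (lq c) (lm c) (lh c) (l0 c)
      (l2 c) (lc c) (la c) (lnb c) (ld c)) = 1 - lB c + lp c + lx c + lq c + 2 * l0 c + 2 * l2 c
        + lc c + la c := by
    unfold basV uAO
    simp only [zdot]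
    ring
  rw [e1, e2]
  simp only [Nat.mul_eq, Nat.add_eq, Nat.succ_eq_add_one]
  push_cast
  rw [hA] at h ⊢
  linarith

lemma form_OK {R A : ℤ} {An p1 D P c : ℕ} (hA : A = An) {mb w wc hh ck : ℤ}
    (h : 0 ≤ colOK R A (lB c) (lp c) ((lp c : ℤ) + lx c + lq c) 0 (lm c) mb
      ((l0 c : ℤ) + l2 c + lc c) ((l0 c : ℤ) + l2 c + la c) ((l0 c : ℤ) + l2 c)
      (w + l2 c * lq c + wc) p1 D P) (h1 : 2 * mb ≤ hh) (h2 : 2 * wc ≤ ck) :
    -(2 * w) ≤ (cOK An p1 D P).val (0 + zdot (qOK R A) (basF.map fun f => f c) + hh + ck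
      + zdot [0, 0, Int.negSucc p1] (basF.map fun f => f c))
      (0 + zdot uOK (basF.map fun f => f c)) (lm c) := by
  rw [basF_val]
  rw [vOK R A (lB c) (lp c) (lx c) (lq c) (lm c) (lh c) (l0 c) (l2 c) (lc c) (la c) (lnb c) (ld c)
    mb w wc p1 D P] at h
  unfold cOK Cor.val
  have e1 : zdot [0, 0, Int.negSucc p1] (basV (lB c) (lp c) (lx c) (lq c) (lm c) (lh c) (l0 c)
      (l2 c) (lc c) (la c) (lnb c) (ld c)) = -((p1 : ℤ) + 1) * lp c := by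
    unfold basV
    simp only [zdot, Int.negSucc_eq]
    ring
  have e2 : zdot uOK (basV (lB c) (lp c) (lx c) (lq c) (lm c) (lh c) (l0 c)
      (l2 c) (lc c) (la c) (lnb c) (ld c)) = 1 - lB c + lx c + lq c + lm c + 2 * l0 c + 2 * l2 c
        + lc c + la c := by
    unfold basV uOK
    simp only [zdot]
    ring
  rw [e1, e2]
  simp only [Nat.mul_eq, Nat.add_eq, Nat.succ_eq_add_one]
  push_cast
  rw [hA] at h ⊢
  linarith

lemma form_OO {R A : ℤ} {An p1 D c : ℕ} (hA : A = An) {mb w wc hh ck : ℤ}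
    (h : 0 ≤ colOO R A (lB c) ((lp c : ℤ) + lx c + lq c) 0 (lm c) mb
      ((l0 c : ℤ) + l2 c + lc c) ((l0 c : ℤ) + l2 c + la c) ((l0 c : ℤ) + l2 c)
      (w + l2 c * lq c + wc) p1 D) (h1 : 2 * mb ≤ hh) (h2 : 2 * wc ≤ ck) :
    -(2 * w) ≤ (cOO An p1 D).val (0 + zdot (qOO R A) (basF.map fun f => f c) + hh + ck
      + zdot [0, 0, 0, 0, 0, Int.ofNat (Nat.mul 2 p1)] (basF.map fun f => f c))
      (0 + zdot uOO (basF.map fun f => f c)) (lm c) := by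
  rw [basF_val]
  rw [vOO R A (lB c) (lp c) (lx c) (lq c) (lm c) (lh c) (l0 c) (l2 c) (lc c) (la c) (lnb c) (ld c)
    mb w wc p1 D] at h
  unfold cOO Cor.val
  have e1 : zdot [0, 0, 0, 0, 0, Int.ofNat (Nat.mul 2 p1)] (basV (lB c) (lp c) (lx c) (lq c)
      (lm c) (lh c) (l0 c) (l2 c) (lc c) (la c) (lnb c) (ld c)) = 2 * (p1 : ℤ) * lm c := by
    unfold basV
    simp only [zdot, Int.ofNat_eq_natCast, Nat.mul_eq]
    push_cast
    ring
  have e2 : zdot uOO (basV (lB c) (lp c) (lx c) (lq c) (lm c) (lh c) (l0 c)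
      (l2 c) (lc c) (la c) (lnb c) (ld c)) = 1 - lB c + lp c + lx c + lq c + lm c + 2 * l0 c
        + 2 * l2 c + lc c + la c := by
    unfold basV uOO
    simp only [zdot]
    ring
  rw [e1, e2]
  simp only [Nat.mul_eq]
  push_cast
  rw [hA] at h ⊢
  linarith

/-! ### soundness -/

/-- the payment tables are right for the sizes `1, .., n` -/
structure PayOk (D : ℕ) (S G P : ℕ → ℕ → ℕ) (A n : ℕ) (y : PayL) : Prop where
  ph : ∀ B, 1 ≤ B → B ≤ n → (tg y.ph B : ℤ) = (D : ℤ) - P A B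
  sh : ∀ B, 1 ≤ B → B ≤ n → (tg y.sh B : ℤ) = (D : ℤ) - S A B
  gh : ∀ B, 1 ≤ B → B ≤ n → tg y.gh B = G A B
  ps : ∀ B, 1 ≤ B → B ≤ n → tg y.ps B = P B A
  ss : ∀ B, 1 ≤ B → B ≤ n → tg y.ss B = S B A
  gs : ∀ B, 1 ≤ B → B ≤ n → tg y.gs B = G B A

/-- the corners of a leaf are those of the box -/
structure CorOk (A : ℕ) (f : LfC) (gn d0 d1 h0 h1 P0 P1 D0 D1 : ℕ) : Prop where
  c1 : ∀ d ∈ ends d0 d1, ∀ H ∈ ends h0 h1, ∀ P ∈ ends P0 P1, cAK A f.p1 gn d H P ∈ f.c1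
  c2 : ∀ d ∈ ends d0 d1, ∀ H ∈ ends h0 h1, cAO A f.p1 gn d H ∈ f.c2
  c3 : ∀ D ∈ ends D0 D1, ∀ P ∈ ends P0 P1, cOK A f.p1 D P ∈ f.c3
  c4 : ∀ D ∈ ends D0 D1, cOO A f.p1 D ∈ f.c4

/-- the facts of a cell for the check of a leaf -/
structure CelX (R A : ℤ) (n : ℕ) (t : TabL) (f : LfC) (gn d0 d1 h0 h1 P0 P1 D0 D1 c kb w hb hw hc
    cb wc : ℕ) : Prop where
  B1 : 1 ≤ lB c
  Bn : lB c ≤ n
  bs : ltsB f.bs (bndF.map fun f => f c) = true
  kbS : kb ≤ l2 c * tg t.bS (lB c)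
  wa : w ≤ kb + l2 c * tg t.a1 (lB c)
  ww : w ≤ l2 c * tg t.Wm (lB c)
  hbH : hb ≤ lm c * tg t.bH (lB c)
  hwH : hw ≤ lm c * tg t.wH (lB c)
  hcC : hc ≤ li c * tg t.bC (lB c)
  cbK : cb ≤ la c * tg t.bK (lB c)
  wcK : wc ≤ cb + la c * tg t.aK (lB c)
  capM : CapVM R A (lB c) ((lp c : ℤ) + lx c + lq c) (0 + (lm c : ℤ)) ((l0 c : ℤ) + l2 c) hw w
    (2 * ((0 + (lm c : ℤ)) * (0 + lm c - 1)) + 2 * (((l0 c : ℤ) + l2 c) * (l0 c + l2 c - 1)))
  capO : CapVO R A (lB c) ((lp c : ℤ) + lx c) (lq c) (0 + (lm c : ℤ)) ((l0 c : ℤ) + l2 c) hw w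
    (2 * ((0 + (lm c : ℤ)) * (0 + lm c - 1)) + 2 * (((l0 c : ℤ) + l2 c) * (l0 c + l2 c - 1)))
  AK : ∃ d H P : ℤ, End (d0 : ℤ) d1 d ∧ End (h0 : ℤ) h1 H ∧ End (P0 : ℤ) P1 P ∧
    0 ≤ colAK R A (lB c) (lp c) ((lp c : ℤ) + lx c + lq c) ((lm c : ℤ) + lh c) ((hb : ℤ) + hc)
      ((l0 c : ℤ) + l2 c + lc c) ((l0 c : ℤ) + l2 c + la c) ((l0 c : ℤ) + l2 c)
      (w + l2 c * lq c + wc) gn f.p1 d H P
  AO : ∃ d H : ℤ, End (d0 : ℤ) d1 d ∧ End (h0 : ℤ) h1 H ∧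
    0 ≤ colAO R A (lB c) ((lp c : ℤ) + lx c + lq c) ((lm c : ℤ) + lh c) 0 (lm c) ((hb : ℤ) + hc)
      ((l0 c : ℤ) + l2 c + lc c) ((l0 c : ℤ) + l2 c + la c) ((l0 c : ℤ) + l2 c)
      (w + l2 c * lq c + wc) gn f.p1 d H
  OK : ∃ D P : ℤ, End (D0 : ℤ) D1 D ∧ End (P0 : ℤ) P1 P ∧
    0 ≤ colOK R A (lB c) (lp c) ((lp c : ℤ) + lx c + lq c) 0 (lm c) hb
      ((l0 c : ℤ) + l2 c + lc c) ((l0 c : ℤ) + l2 c + la c) ((l0 c : ℤ) + l2 c)
      (w + l2 c * lq c + wc) f.p1 D P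
  OO : ∃ D : ℤ, End (D0 : ℤ) D1 D ∧
    0 ≤ colOO R A (lB c) ((lp c : ℤ) + lx c + lq c) 0 (lm c) hb
      ((l0 c : ℤ) + l2 c + lc c) ((l0 c : ℤ) + l2 c + la c) ((l0 c : ℤ) + l2 c)
      (w + l2 c * lq c + wc) f.p1 D

/-- the forms are at least minus twice the misses and arcs -/
theorem fVal_ge {R A : ℤ} {An n : ℕ} (hA : A = An) {t : TabL} {f : LfC}
    {gn d0 d1 h0 h1 P0 P1 D0 D1 c kb w hb hw hc cb wc : ℕ}
    (hf : CorOk An f gn d0 d1 h0 h1 P0 P1 D0 D1)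
    (X : CelX R A n t f gn d0 d1 h0 h1 P0 P1 D0 D1 c kb w hb hw hc cb wc) :
    -(2 * (w : ℤ)) ≤ fVal R A n t f c := by
  have tq' : ∀ tab, tq n tab c = tg tab (lB c) := fun tab => tq_eq tab X.B1 X.Bn
  have a1 := X.hbH
  have a2 := X.hcC
  have a3 := X.wcK
  have a4 := X.cbK
  have a5 := X.hwH
  have b1 : 2 * ((hb : ℤ) + hc)
      ≤ 2 * ((tq n t.bH c * lm c + tq n t.bC c * li c : ℕ) : ℤ) := by
    rw [tq', tq']
    have : hb + hc ≤ tg t.bH (lB c) * lm c + tg t.bC (lB c) * li c := by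
      rw [Nat.mul_comm (tg t.bH (lB c)), Nat.mul_comm (tg t.bC (lB c))]
      exact Nat.add_le_add a1 a2
    have h2 : ((hb + hc : ℕ) : ℤ) ≤ ((tg t.bH (lB c) * lm c + tg t.bC (lB c) * li c : ℕ) : ℤ) := by
      exact_mod_cast this
    push_cast at h2 ⊢
    linarith
  have b2 : 2 * (hb : ℤ) ≤ 2 * ((tq n t.bH c * lm c : ℕ) : ℤ) := by
    rw [tq']
    have h2 : (hb : ℤ) ≤ ((tg t.bH (lB c) * lm c : ℕ) : ℤ) := by
      rw [Nat.mul_comm]
      exact_mod_cast a1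
    linarith
  have b3 : 2 * (wc : ℤ) ≤ 2 * ((tq n t.bK c * la c + tq n t.aK c * la c : ℕ) : ℤ) := by
    rw [tq', tq']
    have : wc ≤ tg t.bK (lB c) * la c + tg t.aK (lB c) * la c := by
      rw [Nat.mul_comm (tg t.bK (lB c)), Nat.mul_comm (tg t.aK (lB c))]
      exact a3.trans (Nat.add_le_add_right a4 _)
    have h2 : (wc : ℤ) ≤ ((tg t.bK (lB c) * la c + tg t.aK (lB c) * la c : ℕ) : ℤ) := by
      exact_mod_cast this
    linarith
  have b4 : 2 * (hw : ℤ) ≤ 2 * ((tq n t.wH c * lm c : ℕ) : ℤ) := by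
    rw [tq']
    have h2 : (hw : ℤ) ≤ ((tg t.wH (lB c) * lm c : ℕ) : ℤ) := by
      rw [Nat.mul_comm]
      exact_mod_cast a5
    linarith
  unfold fVal
  dsimp only
  refine le_min ?_ (le_min ?_ (le_min ?_ (le_min ?_ (le_min ?_ ?_))))
  · obtain ⟨D, e1, h⟩ := X.OO
    obtain ⟨D', m1, rfl⟩ := mem_ends e1
    exact (form_OO hA h b2 b3).trans (corX_le _ _ _ _ _ (hf.c4 D' m1))
  · obtain ⟨D, P, e1, e2, h⟩ := X.OK
    obtain ⟨D', m1, rfl⟩ := mem_ends e1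
    obtain ⟨P', m2, rfl⟩ := mem_ends e2
    exact (form_OK hA h b2 b3).trans (corX_le _ _ _ _ _ (hf.c3 D' m1 P' m2))
  · obtain ⟨d, H, e1, e2, h⟩ := X.AO
    obtain ⟨d', m1, rfl⟩ := mem_ends e1
    obtain ⟨H', m2, rfl⟩ := mem_ends e2
    exact (form_AO hA h b1 b3).trans (corX_le _ _ _ _ _ (hf.c2 d' m1 H' m2))
  · obtain ⟨d, H, P, e1, e2, e3, h⟩ := X.AK
    obtain ⟨d', m1, rfl⟩ := mem_ends e1
    obtain ⟨H', m2, rfl⟩ := mem_ends e2
    obtain ⟨P', m3, rfl⟩ := mem_ends e3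
    exact (form_AK hA h b1 b3).trans (corX_le _ _ _ _ _ (hf.c1 d' m1 H' m2 P' m3))
  · have h := vCM R A (lB c) (lp c) (lx c) (lq c) (lm c) (lh c) (l0 c) (l2 c) (lc c) (la c) (lnb c)
      (ld c) hw w X.capM
    rw [basF_val]
    linarith
  · have h := vCO R A (lB c) (lp c) (lx c) (lq c) (lm c) (lh c) (l0 c) (l2 c) (lc c) (la c) (lnb c)
      (ld c) hw w X.capO
    rw [basF_val]
    linarith

/-- **SOUNDNESS OF THE CHECK (C) OF A LEAF** -/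
theorem leafC_sound {w : ℕ} (hw : 0 < w) {L : List ℕ} {R A : ℤ} {An n : ℕ} (hA : A = An)
    {y : PayL} {e : Ev} (he : EvOk w L R A n y e) {t : TabL} {x : Et} (hx : EtOk w L R A n y t x)
    {f : LfC} (h : leafC e x f = true) {D : ℕ} {S G P : ℕ → ℕ → ℕ} (hy : PayOk D S G P An n y)
    {gn d0 d1 h0 h1 P0 P1 D0 D1 : ℕ} (hf : CorOk An f gn d0 d1 h0 h1 P0 P1 D0 D1)
    {c : ℕ} (hc : c ∈ L) {kb w' hb hw' hcm cb wc : ℕ}
    (X : CelX R A n t f gn d0 d1 h0 h1 P0 P1 D0 D1 c kb w' hb hw' hcm cb wc) :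
    (f.E : ℤ) * payG D S G P An (lB c) ((lp c : ℤ) + lx c) ((lm c : ℤ) + lh c) ((hb : ℤ) + hcm)
        (lq c) ((l0 c : ℤ) + l2 c + lc c) ((kb : ℤ) + cb)
      + f.kap * (kb : ℤ) + f.kc * (cb : ℤ) + f.mu * ((bl 1 (decide (f.pm ≤ lp c)) : ℕ) : ℤ)
      + zdot f.cx (basF.map fun f => f c) ≤ (tg f.tB (lB c) : ℤ) - f.t0 := by
  have tq' : ∀ tab, tq n tab c = tg tab (lB c) := fun tab => tq_eq tab X.B1 X.Bn
  have hge := fVal_ge hA hf X
  have q1 := X.kbS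
  have q2 := X.wa
  have q3 := X.ww
  have k1 : (-(fVal R A n t f c)).toNat ≤ 2 * (tq n t.Wm c * l2 c) := by
    rw [tq', Nat.mul_comm (tg t.Wm (lB c))]
    have : -(fVal R A n t f c) ≤ ((2 * (l2 c * tg t.Wm (lB c)) : ℕ) : ℤ) := by
      have h3 : (w' : ℤ) ≤ ((l2 c * tg t.Wm (lB c) : ℕ) : ℤ) := by exact_mod_cast q3
      push_cast at h3 ⊢
      linarith
    omega
  have k3 : (-(fVal R A n t f c)).toNat - 2 * (tq n t.a1 c * l2 c) ≤ 2 * kb := by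
    rw [tq', Nat.mul_comm (tg t.a1 (lB c))]
    have : -(fVal R A n t f c) ≤ ((2 * (kb + l2 c * tg t.a1 (lB c)) : ℕ) : ℤ) := by
      have h3 : (w' : ℤ) ≤ ((kb + l2 c * tg t.a1 (lB c) : ℕ) : ℤ) := by exact_mod_cast q2
      push_cast at h3 ⊢
      linarith
    omega
  have k2 : (-(fVal R A n t f c)).toNat - 2 * (tq n t.a1 c * l2 c)
      ≤ 2 * (tq n t.bS c * l2 c) := by
    refine k3.trans ?_
    rw [tq', Nat.mul_comm (tg t.bS (lB c))]
    omega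
  obtain ⟨r1, r2⟩ := leafC_raw hw he hx h hc k1 k2 X.bs
  obtain ⟨nd, hnd⟩ : ∃ nd, nd = min 511 ((-(fVal R A n t f c)).toNat
    - 2 * (tq n t.a1 c * l2 c)) := ⟨_, rfl⟩
  rw [← hnd] at r1
  have hnd2 : nd ≤ 2 * kb := by
    rw [hnd]
    exact (min_le_right _ _).trans k3
  -- the payment
  have p1 := hy.ph _ X.B1 X.Bn
  have p2 := hy.sh _ X.B1 X.Bn
  have p3 := hy.gh _ X.B1 X.Bn
  have p4 := hy.ps _ X.B1 X.Bn
  have p5 := hy.ss _ X.B1 X.Bn
  have p6 := hy.gs _ X.B1 X.Bn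
  have mg : ∀ u v : List ℕ, tg (mulZ u v) (lB c) = tg u (lB c) * tg v (lB c) := fun u v =>
    mulZ_get u v _
  unfold lhsX at r1 r2
  simp only [tq'] at r1 r2
  rw [mg, mg] at r1 r2
  rw [mg] at r2
  unfold shF at r1 r2
  simp only [tq'] at r1 r2
  unfold lP lH lK at r1 r2
  -- bounds
  obtain ⟨g, hg⟩ : ∃ g, g = G An (lB c) := ⟨_, rfl⟩
  obtain ⟨g', hg'⟩ : ∃ g', g' = G (lB c) An := ⟨_, rfl⟩
  rw [p3, ← hg] at r1 r2
  rw [p6, ← hg'] at r1 r2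
  have m1 : (g : ℤ) * ((hb : ℤ) + hcm) ≤ ((g * tg t.bH (lB c) * lm c
      + g * tg t.bC (lB c) * li c : ℕ) : ℤ) := by
    have h3 : hb + hcm ≤ tg t.bH (lB c) * lm c + tg t.bC (lB c) * li c := by
      rw [Nat.mul_comm (tg t.bH (lB c)), Nat.mul_comm (tg t.bC (lB c))]
      exact Nat.add_le_add X.hbH X.hcC
    have h4 := Nat.mul_le_mul_left g h3
    have h5 : ((g * (hb + hcm) : ℕ) : ℤ)
        ≤ ((g * (tg t.bH (lB c) * lm c + tg t.bC (lB c) * li c) : ℕ) : ℤ) := by exact_mod_cast h4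
    push_cast at h5 ⊢
    linarith
  have m2 : (0 : ℤ) ≤ (g' : ℤ) * cb := by positivity
  have m3 : (f.kc : ℤ) * cb ≤ f.kc * ((tg t.bK (lB c) * la c : ℕ) : ℤ) := by
    have h3 : cb ≤ tg t.bK (lB c) * la c := by
      rw [Nat.mul_comm]
      exact X.cbK
    have h4 := Nat.mul_le_mul_left f.kc h3
    have h5 : ((f.kc * cb : ℕ) : ℤ) ≤ ((f.kc * (tg t.bK (lB c) * la c) : ℕ) : ℤ) := by
      exact_mod_cast h4
    push_cast at h5 ⊢
    linarith
  have hE : (0 : ℤ) ≤ f.E := Nat.cast_nonneg _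
  have m1' := mul_le_mul_of_nonneg_left m1 hE
  have m2' := mul_nonneg hE m2
  have e1 : payG D S G P An (lB c) ((lp c : ℤ) + lx c) ((lm c : ℤ) + lh c) ((hb : ℤ) + hcm)
      (lq c) ((l0 c : ℤ) + l2 c + lc c) ((kb : ℤ) + cb)
      = ((tg y.ph (lB c) * (lp c + lx c) + tg y.sh (lB c) * (lm c + lh c)
        + (tg y.ps (lB c) * lq c + tg y.ss (lB c) * (l0 c + l2 c + lc c)) : ℕ) : ℤ)
        + g * ((hb : ℤ) + hcm) - g' * kb - g' * cb := by
    unfold payG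
    push_cast
    rw [p1, p2, p4, p5, hg, hg']
    ring
  rw [e1]
  obtain ⟨s, hs⟩ : ∃ s : ℤ, s = ((tg y.ph (lB c) * (lp c + lx c) + tg y.sh (lB c) * (lm c + lh c)
        + (tg y.ps (lB c) * lq c + tg y.ss (lB c) * (l0 c + l2 c + lc c)) : ℕ) : ℤ) := ⟨_, rfl⟩
  obtain ⟨hm, hhm⟩ : ∃ s : ℤ, s = ((g * tg t.bH (lB c) * lm c
      + g * tg t.bC (lB c) * li c : ℕ) : ℤ) := ⟨_, rfl⟩
  rw [← hs]
  rw [← hhm] at m1'
  have e2 : ((tg y.ph (lB c) * (lp c + lx c) + tg y.sh (lB c) * (lm c + lh c)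
      + (tg y.ps (lB c) * lq c + tg y.ss (lB c) * (l0 c + l2 c + lc c))
      + (g * tg t.bH (lB c) * lm c + g * tg t.bC (lB c) * li c) : ℕ) : ℤ) = s + hm := by
    rw [hs, hhm]
    push_cast
    ring
  rw [e2] at r1 r2
  obtain ⟨X0, hX0⟩ : ∃ X0 : ℤ, X0 = f.E * (s + hm) + f.kc * ((tg t.bK (lB c) * la c : ℕ) : ℤ)
    + f.mu * ((bl 1 (decide (f.pm ≤ lp c)) : ℕ) : ℤ) + zdot f.cx (basF.map fun f => f c) := ⟨_, rfl⟩
  rw [← hX0] at r1 r2
  have goal : X0 + ((f.kap : ℤ) - f.E * g') * kb ≤ (tg f.tB (lB c) : ℤ) - f.t0 := by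
    rcases le_total 0 ((f.kap : ℤ) - f.E * g') with hs1 | hs1
    · have h3 : (kb : ℤ) ≤ ((tg t.bS (lB c) * l2 c : ℕ) : ℤ) := by
        rw [Nat.mul_comm]
        exact_mod_cast q1
      have h4 := mul_le_mul_of_nonneg_left h3 hs1
      push_cast at r2 h4 ⊢
      linarith
    · have h3 : (nd : ℤ) ≤ ((2 * kb : ℕ) : ℤ) := by exact_mod_cast hnd2
      have h4 := mul_le_mul_of_nonpos_left h3 hs1
      push_cast at r1 h4 ⊢
      linarith
  rw [hX0] at goal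
  linarith

end Sl

end Pool.Agent.Lib.MP_f04ccf_co
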