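import Pool.Agent.Lib.MP_f04ccf_co.S2Total
import Pool.Agent.Lib.MP_f04ccf_co.M.PA

/-!
MP_f04ccf_co: the ledger of the additions calculus (helper19, note 15155).  For every row `w` a set
`Y w` of testers besides `C_w ∪ H_w`; property (P) with slope one for every row, summed.  An addition
is a set `J` which covers the row `w`; its budget is `R |J| - G(J, C_w) ≥ R + (|J| - 1)(a_w - 1)`.
-/

set_option autoImplicit false

namespace Pool.Agent.Lib.MP_f04ccf_co

open Finset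

attribute [local instance] Classical.propDecidable

section

variable {V : Type*} {G : SimpleGraph V} {r m t : ℕ} {Z T : Finset V} {hm : V → V}

/-- `J` covers `C` -/
def Covers (G : SimpleGraph V) (J C : Finset V) : Prop := ∀ c ∈ C, ∃ v ∈ J, G.Adj v c

/-- the loads of a covering set -/
lemma Covers.card_le {J C : Finset V} (h : Covers G J C) : C.card ≤ ∑ v ∈ J, dg G C v := by
  have h1 : ∑ v ∈ J, dg G C v = ∑ c ∈ C, (J.filter (fun v => G.Adj v c)).card := by
    unfold dg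
    simp only [card_filter]
    rw [sum_comm]
  rw [h1, card_eq_sum_ones]
  refine sum_le_sum fun c hc => ?_
  obtain ⟨v, hv, hvc⟩ := h c hc
  exact card_pos.2 ⟨v, mem_filter.2 ⟨hv, hvc⟩⟩

/-- the missing loads of a covering set -/
lemma Covers.sum_nd {J C : Finset V} (h : Covers G J C) (hd : Disjoint C J) :
    (∑ v ∈ J, (nd G C v : ℤ)) ≤ ((J.card : ℤ) - 1) * C.card := by
  have h1 := h.card_le
  have h2 : ∑ v ∈ J, (dg G C v + nd G C v) = J.card * C.card := by
    rw [sum_congr rfl fun v hv => nd_of_notMem (G := G) (fun h' => disjoint_left.1 hd h' hv),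
      sum_const, smul_eq_mul]
  rw [sum_add_distrib] at h2
  have h3 : ((∑ v ∈ J, dg G C v : ℕ) : ℤ) + ((∑ v ∈ J, nd G C v : ℕ) : ℤ) = J.card * C.card := by
    exact_mod_cast h2
  have h4 : (C.card : ℤ) ≤ ((∑ v ∈ J, dg G C v : ℕ) : ℤ) := by exact_mod_cast h1
  push_cast at h3 h4 ⊢
  linarith

/-- **the budget of an addition** -/
lemma Covers.budget {J C : Finset V} (h : Covers G J C) (hd : Disjoint C J) (r : ℕ) :
    ((r : ℤ) - 1) + ((J.card : ℤ) - 1) * ((r : ℤ) - C.card - 1)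
      ≤ ∑ v ∈ J, (((r : ℤ) - 1) - nd G C v) := by
  have h1 := h.sum_nd hd
  rw [sum_sub_distrib, sum_const, nsmul_eq_mul]
  linarith

/-- the same with the points of `C` seen by `extra` more points -/
lemma Covers.budget' {J C : Finset V} (hd : Disjoint C J) {e : ℤ}
    (h : (C.card : ℤ) + e ≤ ∑ v ∈ J, (dg G C v : ℤ)) (r : ℕ) :
    ((r : ℤ) - 1) + ((J.card : ℤ) - 1) * ((r : ℤ) - C.card - 1) + e
      ≤ ∑ v ∈ J, (((r : ℤ) - 1) - nd G C v) := by
  have h2 : ∑ v ∈ J, (dg G C v + nd G C v) = J.card * C.card := by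
    rw [sum_congr rfl fun v hv => nd_of_notMem (G := G) (fun h' => disjoint_left.1 hd h' hv),
      sum_const, smul_eq_mul]
  rw [sum_add_distrib] at h2
  have h3 : ((∑ v ∈ J, dg G C v : ℕ) : ℤ) + ((∑ v ∈ J, nd G C v : ℕ) : ℤ) = J.card * C.card := by
    exact_mod_cast h2
  rw [sum_sub_distrib, sum_const, nsmul_eq_mul]
  push_cast at h3
  linarith

namespace PFrame

/-- **THE LEDGER**: (P) on `C_w ∪ H_w ∪ Y_w`, summed over all rows (doubled values) -/
theorem ledger (h : PFrame G r m t Z T) (hP : PG G r) (hh : Homes G Z T hm) (Y : V → Finset V)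
    (hY : ∀ w ∈ T, Disjoint (MM G Z T hm w) (Y w)) :
    2 * ((r : ℤ) - 1) + ∑ w ∈ T, 2 * ∑ v ∈ Y w, (((r : ℤ) - 1) - nd G (Cl G Z T w) v)
      ≤ ∑ w ∈ T, (NE G (MM G Z T hm w) : ℤ)
        + ∑ w ∈ T, (2 * ∑ v ∈ Y w, (nd G (Ph G Z T hm w) v : ℤ) + NE G (Y w)) := by
  have h1 : ∀ w ∈ T, 2 * ((r : ℤ) - 1) * ((MM G Z T hm w).card - r)
      + 2 * ∑ v ∈ Y w, (((r : ℤ) - 1) - nd G (Cl G Z T w) v)
      ≤ NE G (MM G Z T hm w)
        + (2 * ∑ v ∈ Y w, (nd G (Ph G Z T hm w) v : ℤ) + NE G (Y w)) := by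
    intro w hw
    have e1 := hP.ne1 (MM G Z T hm w ∪ Y w)
    have e2 := NE_union (G := G) (hY w hw)
    rw [card_union_of_disjoint (hY w hw)] at e1
    have e3 : ∑ v ∈ Y w, (nd G (MM G Z T hm w) v : ℤ)
        = ∑ v ∈ Y w, (nd G (Cl G Z T w) v : ℤ) + ∑ v ∈ Y w, (nd G (Ph G Z T hm w) v : ℤ) := by
      rw [← sum_add_distrib]
      refine sum_congr rfl fun v _ => ?_
      unfold MM
      rw [nd_union (MM_disj hw)]
      push_cast
      rfl
    have e4 : (NE G (MM G Z T hm w ∪ Y w) : ℤ) = NE G (MM G Z T hm w) + NE G (Y w)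
        + 2 * ∑ v ∈ Y w, (nd G (MM G Z T hm w) v : ℤ) := by exact_mod_cast e2
    rw [e4, e3] at e1
    rw [sum_sub_distrib, sum_const, nsmul_eq_mul]
    push_cast at e1
    linarith
  have h2 := sum_le_sum h1
  rw [sum_add_distrib, sum_add_distrib, ← mul_sum, sum_sub_distrib, h.sum_card_MM hh, sum_const,
    nsmul_eq_mul, h.cardT] at h2
  linarith

/-- the ledger with additions: `A w` is the set of the additions at the row `w` -/
theorem ledger_add (h : PFrame G r m t Z T) (hP : PG G r) (hh : Homes G Z T hm)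
    (A : V → Finset (Finset V))
    (hdis : ∀ w ∈ T, ∀ J ∈ A w, ∀ J' ∈ A w, J ≠ J' → Disjoint J J')
    (hdM : ∀ w ∈ T, ∀ J ∈ A w, Disjoint (MM G Z T hm w) J)
    (hcov : ∀ w ∈ T, ∀ J ∈ A w, Covers G J (Cl G Z T w)) :
    2 * ((r : ℤ) - 1) + ∑ w ∈ T, 2 * ∑ J ∈ A w, (((r : ℤ) - 1)
        + ((J.card : ℤ) - 1) * ((r : ℤ) - (Cl G Z T w).card - 1))
      ≤ ∑ w ∈ T, (NE G (MM G Z T hm w) : ℤ)
        + ∑ w ∈ T, (2 * ∑ J ∈ A w, ∑ v ∈ J, (nd G (Ph G Z T hm w) v : ℤ)
          + NE G ((A w).biUnion id)) := by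
  have hY : ∀ w ∈ T, Disjoint (MM G Z T hm w) ((A w).biUnion id) := by
    intro w hw
    rw [disjoint_biUnion_right]
    exact fun J hJ => hdM w hw J hJ
  have h1 := h.ledger hP hh (fun w => (A w).biUnion id) hY
  have h2 : ∀ w ∈ T, ∀ f : V → ℤ, ∑ v ∈ (A w).biUnion id, f v = ∑ J ∈ A w, ∑ v ∈ J, f v := by
    intro w hw f
    exact sum_biUnion (t := id) fun J hJ J' hJ' hne => hdis w hw J hJ J' hJ' hne
  have h3 : ∑ w ∈ T, 2 * ∑ J ∈ A w, (((r : ℤ) - 1)
        + ((J.card : ℤ) - 1) * ((r : ℤ) - (Cl G Z T w).card - 1))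
      ≤ ∑ w ∈ T, 2 * ∑ v ∈ (A w).biUnion id, (((r : ℤ) - 1) - nd G (Cl G Z T w) v) := by
    refine sum_le_sum fun w hw => ?_
    rw [h2 w hw]
    refine mul_le_mul_of_nonneg_left (sum_le_sum fun J hJ => ?_) (by norm_num)
    refine (hcov w hw J hJ).budget ?_ r
    exact (hdM w hw J hJ).mono_left subset_union_left
  have h4 : ∑ w ∈ T, (2 * ∑ v ∈ (A w).biUnion id, (nd G (Ph G Z T hm w) v : ℤ)
        + NE G ((A w).biUnion id))
      = ∑ w ∈ T, (2 * ∑ J ∈ A w, ∑ v ∈ J, (nd G (Ph G Z T hm w) v : ℤ)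
        + NE G ((A w).biUnion id)) := by
    refine sum_congr rfl fun w hw => ?_
    rw [h2 w hw]
  linarith

end PFrame

namespace S2

/-- a clique of full dominators of the row `w` has at most `a_w - 1` points -/
lemma full_clique_card (h : S2 G r m t Z T) {w : V} (hw : w ∈ T) {K : Finset V} (hK : K ⊆ BB G Z T)
    (hKc : Clq G K) (hfull : ∀ z ∈ K, nd G (Cl G Z T w) z = 0) :
    K.card + (Cl G Z T w).card + 1 ≤ r := by
  have hd : Disjoint (Cl G Z T w) K := (Cl_BB_disjoint hw).mono_right hK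
  have hadj : ∀ z ∈ K, ∀ c ∈ Cl G Z T w, G.Adj z c := by
    intro z hz c hc
    have h1 := hfull z hz
    unfold nd at h1
    rw [card_eq_zero, filter_eq_empty_iff] at h1
    have h2 := h1 hc
    by_contra h3
    exact h2 ⟨fun h' => disjoint_left.1 hd (h' ▸ hc) hz, h3⟩
  have h1 := h.omega (Cl G Z T w ∪ K) (union_subset (filter_subset _ _) (fun z hz =>
    (mem_BB.1 (hK hz)).1.1)) (by
    intro x hx y hy hxy
    rcases mem_union.1 hx with hx | hx <;> rcases mem_union.1 hy with hy | hy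
    · exact h.toPFrame.Cl_clq hw x hx y hy hxy
    · exact (hadj y hy x hx).symm
    · exact hadj x hx y hy
    · exact hKc x hx y hy hxy)
  rw [card_union_of_disjoint hd] at h1
  have := h.lt
  omega

end S2

end

end Pool.Agent.Lib.MP_f04ccf_co
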