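import Pool.Agent.Lib.MP_f04ccf_co.M.Code

/-!
MP_f04ccf_co: Lemma A (helper32, note 14781): M' through a prescribed independent set.
-/

set_option autoImplicit false

namespace Pool.Agent.Lib.MP_f04ccf_co.Mn

open Finset

attribute [local instance] Classical.propDecidable

/-- the `n` elements of `W` with the largest values of `f` -/
lemma exists_top {V : Type*} (f : V → ℕ) : ∀ (n : ℕ) (W : Finset V), n ≤ W.card →
    ∃ H ⊆ W, H.card = n ∧ ∀ a ∈ H, ∀ b ∈ W \ H, f b ≤ f a := by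
  intro n
  induction n with
  | zero =>
    intro W _
    exact ⟨∅, empty_subset _, rfl, fun a ha => absurd ha (notMem_empty a)⟩
  | succ n ih =>
    intro W hW
    obtain ⟨H, hH, hHc, htop⟩ := ih W (by omega)
    have hne : (W \ H).Nonempty := by
      rw [← card_pos]
      have := le_card_sdiff H W
      omega
    obtain ⟨a, ha, hmax⟩ := exists_max_image (W \ H) f hne
    have ha' := mem_sdiff.1 ha
    refine ⟨insert a H, insert_subset ha'.1 hH, by rw [card_insert_of_notMem ha'.2, hHc], ?_⟩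
    intro x hx b hb
    have hb' := mem_sdiff.1 hb
    rw [mem_insert, not_or] at hb'
    rw [mem_insert] at hx
    rcases hx with rfl | hx
    · exact hmax b (mem_sdiff.2 ⟨hb'.1, hb'.2.2⟩)
    · exact htop x hx b (mem_sdiff.2 ⟨hb'.1, hb'.2.2⟩)

variable {V : Type*} {r : ℕ} {c : V → V → Fin r} {hc : ∀ x y, c x y = c y x}
  {U0 U : Finset V} {i : Fin r} {k : ℕ}

/-- the vertices outside the private cliques -/
noncomputable def DD (G : SimpleGraph V) (U T : Finset V) : Finset V := U \ T.biUnion (pn G U T)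

lemma sum_pn {G : SimpleGraph V} {U T : Finset V} (hT : T ⊆ U) (hi : Ind G T) (f : V → ℤ) :
    ∑ v ∈ U, f v = ∑ y ∈ T, ∑ v ∈ pn G U T y, f v + ∑ v ∈ DD G U T, f v := by
  have hsub : T.biUnion (pn G U T) ⊆ U := by
    intro x hx
    obtain ⟨u, _, hx⟩ := mem_biUnion.1 hx
    exact pn_sub _ _ _ hx
  have h1 : ∑ v ∈ T.biUnion (pn G U T), f v = ∑ y ∈ T, ∑ v ∈ pn G U T y, f v :=
    sum_biUnion fun u hu w hw huw => pn_disj hi hu hw huw
  rw [← h1, add_comm]
  exact (sum_sdiff hsub).symm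

/-- the exact identity `x(T) = 2 + τ + μ` -/
lemma MinU.x_T (h : MinU hc U0 i k U) {T : Finset V} (hT : T ⊆ U) (hi : Ind (col c hc i) T)
    (hTc : T.card = k) :
    ∑ u ∈ T, ((dg (col c hc i) U u : ℤ) - r) =
      2 + ∑ u ∈ T, ((r : ℤ) - 1 - (pn (col c hc i) U T u).card)
        + ∑ v ∈ DD (col c hc i) U T, ((dg (col c hc i) T v : ℤ) - 2) := by
  set G := col c hc i with hG
  have h1 : ∑ u ∈ T, dg G U u = ∑ v ∈ U, dg G T v := dg_comm G T U
  have h1' : ∑ u ∈ T, (dg G U u : ℤ) = ∑ v ∈ U, (dg G T v : ℤ) := by exact_mod_cast h1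
  have h2 := sum_pn hT hi (fun v => (dg G T v : ℤ))
  have h3 : ∀ y ∈ T, ∑ v ∈ pn G U T y, (dg G T v : ℤ) = (pn G U T y).card - 1 := by
    intro y hy
    have hself := self_mem_pn (G := G) hT hy
    rw [← sum_erase_add _ _ hself]
    have e1 : (dg G T y : ℤ) = 0 := by
      have : dg G T y = 0 := by
        unfold dg
        rw [card_eq_zero, filter_eq_empty_iff]
        exact fun x hx => hi y hy x hx
      rw [this]; rfl
    have e2 : ∑ v ∈ (pn G U T y).erase y, (dg G T v : ℤ) = ∑ v ∈ (pn G U T y).erase y, (1 : ℤ) := by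
      refine sum_congr rfl fun v hv => ?_
      have hv' := mem_erase.1 hv
      rcases (mem_pn.1 hv'.2).2 with h | ⟨h, h'⟩
      · exact absurd h hv'.1
      · have : dg G T v = 1 := by
          unfold dg
          rw [card_eq_one]
          refine ⟨y, ?_⟩
          ext w
          rw [mem_filter, mem_singleton]
          constructor
          · rintro ⟨hw, hvw⟩; exact h' w hw hvw
          · rintro rfl; exact ⟨hy, h⟩
        rw [this]; rfl
    rw [e1, e2, sum_const, card_erase_of_mem hself, nsmul_eq_mul]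
    have := card_pos.2 ⟨y, hself⟩
    push_cast [this]
    ring
  rw [sum_congr rfl h3] at h2
  have h4 := sum_pn hT hi (fun _ => (1 : ℤ))
  simp only [sum_const, nsmul_eq_mul, mul_one] at h4
  rw [h.card] at h4
  have h5 : ∑ u ∈ T, ((dg G U u : ℤ) - r) = ∑ u ∈ T, (dg G U u : ℤ) - k * r := by
    rw [sum_sub_distrib, sum_const, hTc, nsmul_eq_mul]
  have h6 : ∑ u ∈ T, ((r : ℤ) - 1 - (pn G U T u).card)
      = k * (r - 1) - ∑ u ∈ T, ((pn G U T u).card : ℤ) := by
    rw [sum_sub_distrib, sum_const, hTc, nsmul_eq_mul]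
  have h7 : ∑ v ∈ DD G U T, ((dg G T v : ℤ) - 2) = ∑ v ∈ DD G U T, (dg G T v : ℤ)
      - 2 * (DD G U T).card := by
    rw [sum_sub_distrib, sum_const, nsmul_eq_mul]; ring
  have h8 : ∑ u ∈ T, (((pn G U T u).card : ℤ) - 1) = ∑ u ∈ T, ((pn G U T u).card : ℤ) - k := by
    rw [sum_sub_distrib, sum_const, hTc, nsmul_eq_mul, mul_one]
  rw [h5, h6, h7, h1', h2, h8]
  push_cast at h4
  linarith

/-- `f - 2 ≥ 0` on `D` -/
lemma MinU.two_le_f (h : MinU hc U0 i k U) {T : Finset V} (hT : T ⊆ U) (hi : Ind (col c hc i) T)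
    (hTc : T.card = k) {v : V} (hv : v ∈ DD (col c hc i) U T) : 2 ≤ dg (col c hc i) T v :=
  two_of_rest h.alpha hT hi hTc (mem_sdiff.1 hv).1 (mem_sdiff.1 hv).2

/-- LEMMA A: a maximum independent set through `J` whose other members have minimal degree in their
private cliques and small excess. -/
theorem MinU.lemA (h : MinU hc U0 i k U) {J : Finset V} (hJ : J ⊆ U) (hi : Ind (col c hc i) J)
    (hJk : J.card < k) {m : ℕ}
    (hm : (NJ (col c hc i) U J).card + m = (J.card + 1) * r) :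
    ∃ T ⊆ U, J ⊆ T ∧ Ind (col c hc i) T ∧ T.card = k ∧
      (∀ y ∈ T, y ∉ J → ∀ z ∈ pn (col c hc i) U T y, dg (col c hc i) U y ≤ dg (col c hc i) U z) ∧
      (∀ y ∈ T, y ∉ J → ((m : ℤ) + 1) * ((dg (col c hc i) U y : ℤ) - r) ≤ XX hc i U) := by
  set G := col c hc i with hG
  set W := U \ NJ G U J with hW
  have hNU : NJ G U J ⊆ U := filter_subset _ _
  have h1 := card_sdiff_add_card_eq_card hNU
  obtain ⟨l, hl⟩ : ∃ l, k = l + 1 + J.card := ⟨k - J.card - 1, by omega⟩
  have hWc : W.card = l * r + 1 + m := by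
    have e1 : k * r = l * r + (J.card + 1) * r := by rw [hl]; ring
    have := h.card
    rw [← hW] at h1
    omega
  obtain ⟨H, hHW, hHc, htop⟩ := exists_top (fun v => dg G U v) m W (by omega)
  have hWH : (W \ H).card = l * r + 1 := by
    have := card_sdiff_add_card_eq_card hHW
    omega
  have hWU : W ⊆ U := sdiff_subset
  have h2 := h.her (W \ H) (sdiff_subset.trans hWU) l (by omega) (by omega)
  unfold AlphaLe at h2
  push Not at h2
  obtain ⟨I0, hI0, hI0i, hI0c⟩ := h2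
  obtain ⟨I1, hI1, hI1c⟩ := exists_subset_card_eq (show l + 1 ≤ I0.card by omega)
  obtain ⟨T', hT', hmin⟩ := exists_min_image
    ((W \ H).powerset.filter (fun I => Ind G I ∧ I.card = l + 1)) (fun I => ∑ u ∈ I, dg G U u)
    ⟨I1, mem_filter.2 ⟨mem_powerset.2 (hI1.trans hI0),
      fun x hx y hy => hI0i x (hI1 hx) y (hI1 hy), hI1c⟩⟩
  rw [mem_filter, mem_powerset] at hT'
  obtain ⟨hT'W, hT'i, hT'c⟩ := hT'
  have hWJ : ∀ x ∈ W, x ∉ J := fun x hx hxJ =>
    (mem_sdiff.1 hx).2 (mem_NJ.2 ⟨hWU hx, Or.inl hxJ⟩)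
  have hWn : ∀ x ∈ W, ∀ u ∈ J, ¬ G.Adj u x := fun x hx u hu hux =>
    (mem_sdiff.1 hx).2 (mem_NJ.2 ⟨hWU hx, Or.inr ⟨u, hu, hux⟩⟩)
  have hT'W' : T' ⊆ W := hT'W.trans sdiff_subset
  have hdisj : Disjoint J T' := by
    rw [disjoint_left]
    intro x hx hx'
    exact hWJ x (hT'W' hx') hx
  have hTi : Ind G (J ∪ T') := by
    intro x hx y hy hxy
    rw [mem_union] at hx hy
    rcases hx with hx | hx <;> rcases hy with hy | hy
    · exact hi x hx y hy hxy
    · exact hWn y (hT'W' hy) x hx hxy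
    · exact hWn x (hT'W' hx) y hy hxy.symm
    · exact hT'i x hx y hy hxy
  refine ⟨J ∪ T', union_subset hJ (hT'W'.trans hWU), subset_union_left, hTi,
    by rw [card_union_of_disjoint hdisj]; omega, ?_, ?_⟩
  · intro y hy hyJ z hz
    have hyT' : y ∈ T' := by
      rcases mem_union.1 hy with h' | h'
      · exact absurd h' hyJ
      · exact h'
    have hzW : z ∈ W := by
      refine mem_sdiff.2 ⟨pn_sub _ _ _ hz, fun hzN => ?_⟩
      rcases (mem_NJ.1 hzN).2 with hzJ | ⟨u, hu, huz⟩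
      · rcases (mem_pn.1 hz).2 with hzy | ⟨hzy, -⟩
        · exact hyJ (hzy ▸ hzJ)
        · exact hTi z (mem_union_left _ hzJ) y hy hzy
      · rcases (mem_pn.1 hz).2 with hzy | ⟨-, hz'⟩
        · exact hWn y (hT'W' hyT') u hu (hzy ▸ huz)
        · have := hz' u (mem_union_left _ hu) huz.symm
          exact hyJ (this ▸ hu)
    by_cases hzH : z ∈ H
    · exact htop z hzH y (hT'W hyT')
    · have hsw := swap_ind hTi hy hz
      have hzn := pn_notMem hTi hy hz
      have hzT' : z ∉ T'.erase y := fun h' =>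
        hzn (mem_erase.2 ⟨(mem_erase.1 h').1, mem_union_right _ (mem_erase.1 h').2⟩)
      have hle := hmin (insert z (T'.erase y)) (mem_filter.2 ⟨mem_powerset.2 ?_, ?_, ?_⟩)
      · rw [sum_insert hzT'] at hle
        have h3 := sum_erase_add T' (fun u => dg G U u) hyT'
        simp only at h3 hle
        omega
      · intro x hx
        rw [mem_insert] at hx
        rcases hx with rfl | hx
        · exact mem_sdiff.2 ⟨hzW, hzH⟩
        · exact hT'W (mem_erase.1 hx).2
      · intro a ha b hb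
        have hcon : ∀ a ∈ insert z (T'.erase y), a ∈ insert z ((J ∪ T').erase y) := by
          intro a ha
          rw [mem_insert] at ha ⊢
          rcases ha with h' | h'
          · exact Or.inl h'
          · exact Or.inr (mem_erase.2 ⟨(mem_erase.1 h').1, mem_union_right _ (mem_erase.1 h').2⟩)
        exact hsw a (hcon a ha) b (hcon b hb)
      · rw [card_insert_of_notMem hzT', card_erase_of_mem hyT', hT'c]
        rfl
  · intro y hy hyJ
    have hyT' : y ∈ T' := by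
      rcases mem_union.1 hy with h' | h'
      · exact absurd h' hyJ
      · exact h'
    have hyWH := hT'W hyT'
    have hyH : y ∉ H := (mem_sdiff.1 hyWH).2
    have hsub : insert y H ⊆ U := insert_subset (hWU (mem_sdiff.1 hyWH).1) (hHW.trans hWU)
    have h3 : ∑ v ∈ insert y H, ((dg G U y : ℤ) - r) ≤ ∑ v ∈ insert y H, ((dg G U v : ℤ) - r) := by
      refine sum_le_sum fun v hv => ?_
      rw [mem_insert] at hv
      rcases hv with rfl | hv
      · exact le_rfl
      · have := htop v hv y hyWH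
        have : (dg G U y : ℤ) ≤ dg G U v := by exact_mod_cast this
        linarith
    have h4 : ∑ v ∈ insert y H, ((dg G U v : ℤ) - r) ≤ XX hc i U :=
      sum_le_sum_of_subset_of_nonneg hsub fun v hv _ => h.eps_nonneg hv
    rw [sum_const, card_insert_of_notMem hyH, hHc, nsmul_eq_mul] at h3
    push_cast at h3
    linarith

/-- inequality (A) for a set `T` as in Lemma A -/
theorem MinU.ineqA (h : MinU hc U0 i k U) {J T : Finset V} (hT : T ⊆ U) (hJT : J ⊆ T)
    (hi : Ind (col c hc i) T) (hTc : T.card = k)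
    (hmin : ∀ y ∈ T, y ∉ J → ∀ z ∈ pn (col c hc i) U T y,
      dg (col c hc i) U y ≤ dg (col c hc i) U z)
    (hx : ∀ y ∈ T, y ∉ J → (dg (col c hc i) U y : ℤ) ≤ 2 * r - 1)
    (w : V → ℕ) (hw : ∀ z ∈ J, ∀ K ⊆ U, z ∈ K → Clq (col c hc i) K → K.card ≤ w z) :
    ((r : ℤ) - 1) * (2 + ∑ v ∈ DD (col c hc i) U T, ((dg (col c hc i) T v : ℤ) - 2)
        + ∑ z ∈ J, ((r : ℤ) - 1 - w z - ((dg (col c hc i) U z : ℤ) - r)))
      + (∑ z ∈ J, ∑ v ∈ pn (col c hc i) U T z, ((dg (col c hc i) U v : ℤ) - r)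
      + ∑ v ∈ DD (col c hc i) U T, ((dg (col c hc i) U v : ℤ) - r)) ≤ XX hc i U := by
  set G := col c hc i with hG
  have h1 := h.x_T hT hi hTc
  rw [← hG] at h1
  have h2 : XX hc i U = ∑ y ∈ T, ∑ v ∈ pn G U T y, ((dg G U v : ℤ) - r)
      + ∑ v ∈ DD G U T, ((dg G U v : ℤ) - r) := sum_pn hT hi _
  have h3 : ∀ f : V → ℤ, ∑ y ∈ T, f y = ∑ y ∈ T \ J, f y + ∑ y ∈ J, f y :=
    fun f => (sum_sdiff hJT).symm
  rw [h3 (fun y => ∑ v ∈ pn G U T y, ((dg G U v : ℤ) - r))] at h2
  rw [h3 (fun u => (dg G U u : ℤ) - r),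
    h3 (fun u => (r : ℤ) - 1 - (pn G U T u).card)] at h1
  have hclq : ∀ y ∈ T, Clq G (pn G U T y) := fun y hy => pn_clq h.alpha hT hi hTc hy
  have hr1 := h.kr
  have hk2 := h.k2
  -- T \ J
  have h4 : ∑ y ∈ T \ J, (((r : ℤ) - 1) * ((dg G U y : ℤ) - r)
      - (r - 1) * ((r : ℤ) - 1 - (pn G U T y).card)) ≤
      ∑ y ∈ T \ J, ∑ v ∈ pn G U T y, ((dg G U v : ℤ) - r) := by
    refine sum_le_sum fun y hy => ?_
    have hy' := mem_sdiff.1 hy
    have e1 : ((pn G U T y).card : ℤ) * ((dg G U y : ℤ) - r) ≤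
        ∑ v ∈ pn G U T y, ((dg G U v : ℤ) - r) := by
      rw [← nsmul_eq_mul, ← sum_const]
      refine sum_le_sum fun v hv => ?_
      have := hmin y hy'.1 hy'.2 v hv
      have : (dg G U y : ℤ) ≤ dg G U v := by exact_mod_cast this
      linarith
    refine le_trans ?_ e1
    have e2 : ((pn G U T y).card : ℤ) ≤ r - 1 := by
      have := h.free _ (pn_sub _ _ _) (hclq y hy'.1)
      omega
    have e3 : (dg G U y : ℤ) - r ≤ r - 1 := by
      have := hx y hy'.1 hy'.2
      linarith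
    nlinarith [mul_nonneg (sub_nonneg.2 e2) (sub_nonneg.2 e3)]
  -- J
  have h5 : ∑ z ∈ J, ((r : ℤ) - 1 - w z) ≤ ∑ z ∈ J, ((r : ℤ) - 1 - (pn G U T z).card) := by
    refine sum_le_sum fun z hz => ?_
    have := hw z hz _ (pn_sub _ _ _) (self_mem_pn hT (hJT hz)) (hclq z (hJT hz))
    have : ((pn G U T z).card : ℤ) ≤ w z := by exact_mod_cast this
    linarith
  have h6 : ∑ z ∈ J, ((r : ℤ) - 1 - w z - ((dg G U z : ℤ) - r))
      = ∑ z ∈ J, ((r : ℤ) - 1 - w z) - ∑ z ∈ J, ((dg G U z : ℤ) - r) := by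
    rw [← sum_sub_distrib]
  rw [sum_sub_distrib, ← mul_sum, ← mul_sum] at h4
  rw [h6]
  have h7 : (0 : ℤ) ≤ (r : ℤ) - 1 := by omega
  have h8 := mul_le_mul_of_nonneg_left h5 h7
  nlinarith

end Pool.Agent.Lib.MP_f04ccf_co.Mn
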