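import Pool.Agent.Lib.MP_f04ccf_co.M.LemFN
import Pool.Agent.Lib.MP_f04ccf_co.M.TB

/-!
MP_f04ccf_co: LEMMA F with the exact excess of the members with missing class points (E4).
`eps2` is twice the excess: for `v` in the cover with missing class points, twice the number of missing
class points minus the number of members which `v` sees.  `lemFE`, `lemFE'`: the bound of LEMMA F with
the error `eps2` (this is the form for the tests of one row).  `eps_share`, `eps_half`, `eps_over`: the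
excess in terms of shares (the form for the star).  `CSys.testQ`: the row test with the points of the
class of the tail which a member `v` misses added to the outside set; each of them sees all points of
the home class which `v` misses.
-/

set_option autoImplicit false

namespace Pool.Agent.Lib.MP_f04ccf_co

open Finset

attribute [local instance] Classical.propDecidable

section Abs

variable {ι V : Type*} {G F : SimpleGraph V} {tl : V → ι} {H P X : Finset V}
  {Y : ι → Finset V} {B : Finset ι}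

/-- twice the excess of the members of the cover with a missing class point -/
noncomputable def eps2 (F : SimpleGraph V) (H P X : Finset V) : ℤ :=
  ∑ v ∈ NX F P X, (2 * (dg F P v : ℤ) - ((H.card : ℤ) - 1 - dg F H v))

lemma dg_add_one_le {v : V} (hv : v ∈ H) : dg F H v + 1 ≤ H.card := by
  have h8 : insert v (H.filter (fun w => F.Adj v w)) ⊆ H :=
    insert_subset hv (filter_subset _ _)
  have h9 := card_le_card h8
  rw [card_insert_of_notMem (by simp)] at h9
  exact h9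

/-- the excess is at most the sum of the class degrees -/
lemma eps2_le (hXH : X ⊆ H) : eps2 F H P X ≤ 2 * ∑ v ∈ NX F P X, (dg F P v : ℤ) := by
  unfold eps2
  rw [mul_sum]
  refine sum_le_sum fun v hv => ?_
  have h1 := dg_add_one_le (F := F) (hXH (mem_NX.1 hv).1)
  omega

/-- no members with missing class points in the cover: no excess -/
lemma eps2_eq_zero (h : ∀ v ∈ X, ∀ a ∈ P, ¬ F.Adj v a) : eps2 F H P X = 0 := by
  have h1 : NX F P X = ∅ := by
    refine eq_empty_of_forall_notMem fun v hv => ?_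
    obtain ⟨h1, a, ha, hva⟩ := mem_NX.1 hv
    exact h v h1 a ha hva
  unfold eps2
  rw [h1, sum_empty]

/-- **LEMMA F with the exact excess, raw form** -/
theorem lemFE_raw (hHP : Disjoint H P) (hP : ∀ a ∈ P, ∀ b ∈ P, ¬ F.Adj a b) (hXH : X ⊆ H)
    (hc : SpCov F tl H P X Y) (htl : ∀ v ∈ H, ∀ a ∈ P, F.Adj v a → tl v ∈ B) :
    (E F (H ∪ P) : ℤ) + X.card * (X.card + 1) ≤ 2 * ((X.card : ℤ) * H.card)
      + 2 * ∑ z ∈ B, ((WN F tl H P X z).card : ℤ) * (Y z).card + eps2 F H P X := by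
  have h1 := E_sdiff F (subset_union_right : P ⊆ H ∪ P)
  have h2 : (H ∪ P) \ P = H := by
    rw [union_sdiff_right]
    exact sdiff_eq_self_of_disjoint hHP
  have h3 : E F P = 0 := by
    unfold E
    refine sum_eq_zero fun v hv => ?_
    unfold dg
    rw [card_eq_zero, filter_eq_empty_iff]
    exact fun u hu huv => hP v hv u hu huv
  have h4 : ∑ v ∈ P, dg F (H ∪ P) v = ∑ v ∈ P, dg F H v := by
    refine sum_congr rfl fun v hv => ?_
    have h5 : dg F P v = 0 := by
      unfold dg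
      rw [card_eq_zero, filter_eq_empty_iff]
      exact fun u hu huv => hP v hv u hu huv
    have h6 : dg F (H ∪ P) v = dg F H v + dg F P v := by
      unfold dg
      rw [filter_union, card_union_of_disjoint (disjoint_filter_filter hHP)]
    omega
  have h5 := dg_comm F P H
  have h6 := cov_E_nn hXH hc.1
  have h7 := cov_dg_le hc hXH htl
  rw [h2, h3, h4] at h1
  have h9 : ∑ v ∈ X, dg F P v = ∑ v ∈ NX F P X, dg F P v := by
    symm
    refine sum_subset (filter_subset _ _) fun v hv hv' => ?_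
    unfold dg
    rw [card_eq_zero, filter_eq_empty_iff]
    intro a ha hva
    exact hv' (mem_NX.2 ⟨hv, a, ha, hva⟩)
  have h10 : ∑ v ∈ NX F P X, ((H.card : ℤ) - 1 - dg F H v)
      ≤ ∑ v ∈ X, ((H.card : ℤ) - 1 - dg F H v) := by
    refine sum_le_sum_of_subset_of_nonneg (filter_subset _ _) fun v hv _ => ?_
    have h10 := dg_add_one_le (F := F) (hXH hv)
    omega
  have h1' : (E F (H ∪ P) : ℤ) = E F H + 2 * ∑ v ∈ H, (dg F P v : ℤ) := by
    have : E F (H ∪ P) = E F H + 2 * ∑ v ∈ H, dg F P v := by omega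
    exact_mod_cast this
  have h7' : ∑ v ∈ H, (dg F P v : ℤ) ≤ ∑ v ∈ NX F P X, (dg F P v : ℤ)
      + ∑ z ∈ B, ((WN F tl H P X z).card : ℤ) * (Y z).card := by
    rw [h9] at h7
    exact_mod_cast h7
  unfold eps2
  rw [sum_sub_distrib, ← mul_sum]
  linarith

/-- **LEMMA F with the exact excess**, rows with `g ≥ 1` -/
theorem lemFE (hHP : Disjoint H P) (hP : ∀ a ∈ P, ∀ b ∈ P, ¬ F.Adj a b) (hXH : X ⊆ H)
    (hc : SpCov F tl H P X Y) (htl : ∀ v ∈ H, ∀ a ∈ P, F.Adj v a → tl v ∈ B)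
    (ex : ι → ℕ) {t : ℕ} {g : ℤ} (hh : (H.card : ℤ) = t + g)
    (hC : ∀ z ∈ B, 2 ≤ (Y z).card → (WN F tl H P X z).card ≤ t + ex z) :
    (E F (H ∪ P) : ℤ) ≤ 2 * (((X.card : ℤ) + ∑ z ∈ B, ((Y z).card : ℤ)) * t)
      + g * (g - 1) + 2 + 2 * ∑ z ∈ B, ((Y z).card : ℤ) * ex z + eps2 F H P X := by
  have h1 := lemFE_raw hHP hP hXH hc htl
  have h2 := lemF_pos B (fun z => (Y z).card) (fun z => (WN F tl H P X z).card) ex hh
    (WN_sum hXH) hC
  linarith

/-- the same for rows with `g ≤ 0` -/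
theorem lemFE' (hHP : Disjoint H P) (hP : ∀ a ∈ P, ∀ b ∈ P, ¬ F.Adj a b) (hXH : X ⊆ H)
    (hc : SpCov F tl H P X Y) (htl : ∀ v ∈ H, ∀ a ∈ P, F.Adj v a → tl v ∈ B) :
    (E F (H ∪ P) : ℤ) + X.card * (X.card + 1)
      ≤ 2 * (((X.card : ℤ) + ∑ z ∈ B, ((Y z).card : ℤ)) * H.card) + eps2 F H P X := by
  have h1 := lemFE_raw hHP hP hXH hc htl
  have h2 := lemF_neg B (fun z => (Y z).card) (fun z => (WN F tl H P X z).card) (a := X.card)
    (h := H.card) (fun z _ => card_le_card (filter_subset _ _))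
  have h3 : 2 * ((X.card : ℤ) * H.card)
      + 2 * ∑ z ∈ B, ((WN F tl H P X z).card : ℤ) * (Y z).card
      ≤ 2 * (((X.card : ℤ) + ∑ z ∈ B, ((Y z).card : ℤ)) * H.card) := by exact_mod_cast h2
  linarith

/-- **the excess in terms of shares** -/
theorem eps_share {C : ι → Finset V} {o : ι → V → ℚ} {φ : V → ℚ}
    (hXH : X ⊆ H)
    (htl : ∀ v ∈ H, ∀ a ∈ P, F.Adj v a → tl v ∈ B)
    (hcl : ∀ z ∈ B, ∀ c ∈ C z, ∀ v ∈ MN G F tl H P z c, ∀ w ∈ MN G F tl H P z c, ¬ F.Adj v w)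
    (ho : ∀ z ∈ B, ∀ c ∈ C z, 0 ≤ o z c)
    (hφ : ∀ v ∈ NX F P X, mis G (C (tl v)) v = 0 → 2 * (dg F P v : ℚ) ≤ φ v)
    (hφo : ∀ v ∈ NX F P X, ∀ c ∈ C (tl v), ¬ G.Adj c v →
      (2 * (dg F P v : ℚ) + 1 - (MN G F tl H P (tl v) c).card - φ v)
        * (MN G F tl H P (tl v) c ∩ X).card ≤ 2 * mis G (C (tl v)) v * o (tl v) c) :
    (eps2 F H P X : ℚ) ≤ ∑ v ∈ NX F P X, φ v + 2 * ∑ z ∈ B, ∑ c ∈ C z, o z c := by
  have h1 := fn_share hXH htl hcl ho hφ hφo
  unfold eps2
  push_cast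
  exact h1

/-- shares of at least half of the over-coverage: `φ v = κ(v) + 1` (homes with `κ ≤ β + 1`) -/
theorem eps_half {C : ι → Finset V} {o : ι → V → ℚ}
    (hXH : X ⊆ H)
    (htl : ∀ v ∈ H, ∀ a ∈ P, F.Adj v a → tl v ∈ B)
    (hcl : ∀ z ∈ B, ∀ c ∈ C z, ∀ v ∈ MN G F tl H P z c, ∀ w ∈ MN G F tl H P z c, ¬ F.Adj v w)
    (ho : ∀ z ∈ B, ∀ c ∈ C z, 0 ≤ o z c)
    (hβ : ∀ v ∈ NX F P X, dg F P v ≤ mis G (C (tl v)) v + 1)
    (hov : ∀ v ∈ NX F P X, ∀ c ∈ C (tl v), ¬ G.Adj c v →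
      (dg F P v : ℚ) - (MN G F tl H P (tl v) c).card ≤ 2 * o (tl v) c) :
    (eps2 F H P X : ℚ) ≤ ∑ v ∈ NX F P X, ((dg F P v : ℚ) + 1)
      + 2 * ∑ z ∈ B, ∑ c ∈ C z, o z c := by
  refine eps_share hXH htl hcl ho (fun v hv h0 => ?_) (fun v hv c hc hcv => ?_)
  · have h1 := hβ v hv
    rw [h0] at h1
    have h2 : (dg F P v : ℚ) ≤ 1 := by exact_mod_cast h1
    linarith
  · have hvB : tl v ∈ B := by
      obtain ⟨h1, a, ha, hva⟩ := mem_NX.1 hv
      exact htl v (hXH h1) a ha hva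
    exact half_phi (card_le_card inter_subset_left) (hβ v hv) (ho _ hvB c hc) (hov v hv c hc hcv)

/-- **the excess against the over-coverage** `|UN z c| - |MN z c|` -/
theorem eps_over {C : ι → Finset V}
    (hXH : X ⊆ H)
    (htl : ∀ v ∈ H, ∀ a ∈ P, F.Adj v a → tl v ∈ B)
    (hcl : ∀ z ∈ B, ∀ c ∈ C z, ∀ v ∈ MN G F tl H P z c, ∀ w ∈ MN G F tl H P z c, ¬ F.Adj v w)
    (hβ : ∀ v ∈ NX F P X, dg F P v ≤ mis G (C (tl v)) v + 1) :
    eps2 F H P X ≤ ∑ v ∈ NX F P X, ((dg F P v : ℤ) + 1)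
      + ∑ z ∈ B, ∑ c ∈ C z,
        (((UN G F tl H P z c).card - (MN G F tl H P z c).card : ℕ) : ℤ) := by
  have h1 := eps_half (G := G) (F := F) (tl := tl) (H := H) (P := P) (X := X) (B := B) (C := C)
    (o := fun z c => (((UN G F tl H P z c).card - (MN G F tl H P z c).card : ℕ) : ℚ) / 2)
    hXH htl hcl (fun z _ c _ => by positivity) hβ (fun v hv c _ hcv => by
      obtain ⟨h1, a, ha, hva⟩ := mem_NX.1 hv
      have h2 : dg F P v ≤ (UN G F tl H P (tl v) c).card := by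
        refine card_le_card fun b hb => ?_
        obtain ⟨b1, b2⟩ := mem_filter.1 hb
        exact mem_UN.2 ⟨b1, v, mem_MN.2 ⟨hXH h1, rfl, hcv, a, ha, hva⟩, b2⟩
      have h3 : dg F P v ≤ ((UN G F tl H P (tl v) c).card - (MN G F tl H P (tl v) c).card)
          + (MN G F tl H P (tl v) c).card := by omega
      have h4 : (dg F P v : ℚ) ≤ (((UN G F tl H P (tl v) c).card
          - (MN G F tl H P (tl v) c).card : ℕ) : ℚ) + (MN G F tl H P (tl v) c).card := by
        exact_mod_cast h3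
      linarith)
  have h2 : 2 * ∑ z ∈ B, ∑ c ∈ C z,
        ((((UN G F tl H P z c).card - (MN G F tl H P z c).card : ℕ) : ℚ) / 2)
      = ∑ z ∈ B, ∑ c ∈ C z,
        (((UN G F tl H P z c).card - (MN G F tl H P z c).card : ℕ) : ℚ) := by
    rw [mul_sum]
    refine sum_congr rfl fun z _ => ?_
    rw [mul_sum]
    refine sum_congr rfl fun c _ => ?_
    ring
  rw [h2] at h1
  have h3 : ((eps2 F H P X : ℤ) : ℚ) ≤ ((∑ v ∈ NX F P X, ((dg F P v : ℤ) + 1)
      + ∑ z ∈ B, ∑ c ∈ C z,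
        (((UN G F tl H P z c).card - (MN G F tl H P z c).card : ℕ) : ℤ) : ℤ) : ℚ) := by
    push_cast
    push_cast at h1
    exact h1
  exact_mod_cast h3

end Abs

section Frame

variable {V : Type*} {G : SimpleGraph V} {Z T : Finset V} {hm : V → V} {r m t : ℕ}
  {A : Finset V} {S : V → Finset V} {X : Finset V} {Y : V → Finset V}

/-- **LEMMA F in a closed system with the exact excess, all arcs discharged** (form for the row tests,
`g ≥ 1`) -/
theorem CSys.lemFE_min (hr : 6 ≤ r) (hP : PG G r) (hF : S2 G r m t Z T) (hh : Homes G Z T hm)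
    (h : CSys G Z T hm A S) (hctr : ∀ y ∈ A, y ∈ S y) {x : V} (hx : x ∈ A)
    (hXH : X ⊆ HP G Z T S x) (hYP : ∀ z, Y z ⊆ CP G Z T S x)
    (hc : SpCov (co G) (tlo G T hm) (HP G Z T S x) (CP G Z T S x) X Y)
    (hmin : X.card + ∑ z ∈ A.erase x, (Y z).card
      = spn (co G) (tlo G T hm) (HP G Z T S x) (CP G Z T S x) (A.erase x))
    (hD : ∀ z ∈ A.erase x, r - 1 + 4 ≤ (CP G Z T S x).card + (CP G Z T S z).card)
    {t' : ℕ} {g : ℤ} (ht : t' + (CP G Z T S x).card = r - 1)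
    (hg : ((HP G Z T S x).card : ℤ) = t' + g) :
    (NE G (S x) : ℤ)
      ≤ 2 * ((spn (co G) (tlo G T hm) (HP G Z T S x) (CP G Z T S x) (A.erase x) : ℤ) * t')
        + g * (g - 1) + 2 + eps2 (co G) (HP G Z T S x) (CP G Z T S x) X := by
  have h1 := lemFE (F := co G) (tl := tlo G T hm) (B := A.erase x)
    CP_HP_disjoint.symm (h.CP_co hF.toPFrame hx) hXH hc
    (fun v hv a ha hva => (h.pc_tail hF.toPFrame hh hctr hx hv ha hva).1) (fun _ => 0) hg
    (fun z hz hb => by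
      have h2 := ((h.arc_lemC hr hP hF hh hctr hx hYP hc hmin hz (by omega) (hD z hz)).2.1 hb).2
      omega)
  have h2 : ((X.card : ℤ) + ∑ z ∈ A.erase x, ((Y z).card : ℤ))
      = (spn (co G) (tlo G T hm) (HP G Z T S x) (CP G Z T S x) (A.erase x) : ℤ) := by
    rw [← hmin]
    push_cast
    rfl
  have h3 : HP G Z T S x ∪ CP G Z T S x = S x := by
    rw [union_comm]
    exact CP_union_HP
  have h4 : ∑ z ∈ A.erase x, ((Y z).card : ℤ) * (((fun _ => 0 : V → ℕ) z : ℕ) : ℤ) = 0 := by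
    refine sum_eq_zero fun z _ => ?_
    push_cast
    ring
  rw [h2, h3, h4, ← NE_eq_E] at h1
  linarith

/-- **the same for rows with `g ≤ 0`** -/
theorem CSys.lemFE_min' (hF : PFrame G r m t Z T) (hh : Homes G Z T hm)
    (h : CSys G Z T hm A S) (hctr : ∀ y ∈ A, y ∈ S y) {x : V} (hx : x ∈ A)
    (hXH : X ⊆ HP G Z T S x)
    (hc : SpCov (co G) (tlo G T hm) (HP G Z T S x) (CP G Z T S x) X Y)
    (hmin : X.card + ∑ z ∈ A.erase x, (Y z).card
      = spn (co G) (tlo G T hm) (HP G Z T S x) (CP G Z T S x) (A.erase x)) :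
    (NE G (S x) : ℤ) + X.card * (X.card + 1)
      ≤ 2 * ((spn (co G) (tlo G T hm) (HP G Z T S x) (CP G Z T S x) (A.erase x) : ℤ)
          * (HP G Z T S x).card) + eps2 (co G) (HP G Z T S x) (CP G Z T S x) X := by
  have h1 := lemFE' (F := co G) (tl := tlo G T hm) (B := A.erase x)
    CP_HP_disjoint.symm (h.CP_co hF hx) hXH hc
    (fun v hv a ha hva => (h.pc_tail hF hh hctr hx hv ha hva).1)
  have h2 : ((X.card : ℤ) + ∑ z ∈ A.erase x, ((Y z).card : ℤ))
      = (spn (co G) (tlo G T hm) (HP G Z T S x) (CP G Z T S x) (A.erase x) : ℤ) := by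
    rw [← hmin]
    push_cast
    rfl
  have h3 : HP G Z T S x ∪ CP G Z T S x = S x := by
    rw [union_comm]
    exact CP_union_HP
  rw [h2, h3, ← NE_eq_E] at h1
  linarith

/-- **the excess of a slot against the over-coverage**, homes with `κ ≤ β + 1` -/
theorem CSys.eps_over (hF : PFrame G r m t Z T) (hh : Homes G Z T hm)
    (h : CSys G Z T hm A S) (hctr : ∀ y ∈ A, y ∈ S y) {x : V} (hx : x ∈ A)
    (hXH : X ⊆ HP G Z T S x)
    (hβ : ∀ v ∈ NX (co G) (CP G Z T S x) X,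
      nd G (CP G Z T S x) v ≤ mis G (CP G Z T S (tlo G T hm v)) v + 1) :
    eps2 (co G) (HP G Z T S x) (CP G Z T S x) X
      ≤ ∑ v ∈ NX (co G) (CP G Z T S x) X, ((nd G (CP G Z T S x) v : ℤ) + 1)
        + ∑ z ∈ A.erase x, ∑ c ∈ CP G Z T S z,
          (((UN G (co G) (tlo G T hm) (HP G Z T S x) (CP G Z T S x) z c).card
            - (MN G (co G) (tlo G T hm) (HP G Z T S x) (CP G Z T S x) z c).card : ℕ) : ℤ) := by
  have h1 := Pool.Agent.Lib.MP_f04ccf_co.eps_over (G := G) (F := co G) (tl := tlo G T hm)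
    (H := HP G Z T S x) (P := CP G Z T S x) (X := X) (B := A.erase x)
    (C := fun z => CP G Z T S z) hXH
    (fun v hv a ha hva => (h.pc_tail hF hh hctr hx hv ha hva).1)
    (fun z hz c hcz => h.MN_clq hF hh hx hz hcz)
    (fun v hv => by rw [← nd_eq_dg]; exact hβ v hv)
  simpa only [← nd_eq_dg] using h1

/-- the general form with shares -/
theorem CSys.eps_share (hF : PFrame G r m t Z T) (hh : Homes G Z T hm)
    (h : CSys G Z T hm A S) (hctr : ∀ y ∈ A, y ∈ S y) {x : V} (hx : x ∈ A)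
    (hXH : X ⊆ HP G Z T S x) {o : V → V → ℚ} {φ : V → ℚ}
    (ho : ∀ z ∈ A.erase x, ∀ c ∈ CP G Z T S z, 0 ≤ o z c)
    (hφ : ∀ v ∈ NX (co G) (CP G Z T S x) X, mis G (CP G Z T S (tlo G T hm v)) v = 0 →
      2 * (nd G (CP G Z T S x) v : ℚ) ≤ φ v)
    (hφo : ∀ v ∈ NX (co G) (CP G Z T S x) X, ∀ c ∈ CP G Z T S (tlo G T hm v), ¬ G.Adj c v →
      (2 * (nd G (CP G Z T S x) v : ℚ) + 1 - (MN G (co G) (tlo G T hm) (HP G Z T S x)
          (CP G Z T S x) (tlo G T hm v) c).card - φ v)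
        * (MN G (co G) (tlo G T hm) (HP G Z T S x) (CP G Z T S x) (tlo G T hm v) c ∩ X).card
        ≤ 2 * mis G (CP G Z T S (tlo G T hm v)) v * o (tlo G T hm v) c) :
    (eps2 (co G) (HP G Z T S x) (CP G Z T S x) X : ℚ)
      ≤ ∑ v ∈ NX (co G) (CP G Z T S x) X, φ v
        + 2 * ∑ z ∈ A.erase x, ∑ c ∈ CP G Z T S z, o z c :=
  Pool.Agent.Lib.MP_f04ccf_co.eps_share (G := G) (F := co G) (tl := tlo G T hm) (B := A.erase x)
    (C := fun z => CP G Z T S z) hXH
    (fun v hv a ha hva => (h.pc_tail hF hh hctr hx hv ha hva).1)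
    (fun z hz c hcz => h.MN_clq hF hh hx hz hcz) ho
    (fun v hv h0 => by rw [← nd_eq_dg]; exact hφ v hv h0)
    (fun v hv c hc hcv => by rw [← nd_eq_dg]; exact hφo v hv c hc hcv)

/-- the homes of least weight have `κ ≤ β + 1` at every member of a cover with missing class points -/
theorem WHomes.kap_mis {b : ℕ} {A S : Finset V} (hF : PFrame G r b t Z T) (hb : b ≤ r)
    (h : HSys G Z T A S) (hw : WHomes G Z T (r + 1) 1 A S hm) {x : V} (hx : x ∈ A) {X : Finset V}
    (hXH : X ⊆ HP G Z T (fun x => S.filter fun v => hm v = x) x) :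
    ∀ v ∈ NX (co G) (CP G Z T (fun x => S.filter fun v => hm v = x) x) X,
      nd G (CP G Z T (fun x => S.filter fun v => hm v = x) x) v
        ≤ mis G (CP G Z T (fun x => S.filter fun v => hm v = x) (tlo G T hm v)) v + 1 := by
  intro v hv
  obtain ⟨h1, a, ha, hva⟩ := mem_NX.1 hv
  have hcs := h.csys hF hw.ok
  have hctr : ∀ y ∈ A, y ∈ (fun x => S.filter fun v => hm v = x) y := by
    intro y hy
    have h2 := (hw.ok y (h.ctr hy)).2
    rw [rws_of_mem (h.sub hy), mem_singleton] at h2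
    exact mem_filter.2 ⟨h.ctr hy, h2⟩
  have h3 := (hcs.pc_tail hF hw.hh hctr hx (hXH h1) ha hva).1
  obtain ⟨hxz, he⟩ := hcs.ends_of_tlo hw.hh hx (hXH h1) rfl
  have hvS := mem_filter.1 (mem_HP.1 (hXH h1)).1
  have hvB := h.HP_BB hF hw.ok (hXH h1)
  have h4 : tlo G T hm v ∈ rws G T v := by
    rw [rws_BB hvB, he]
    simp
  have h5 := hw.kap_le hF hb h hvS.1 hvS.2 (mem_of_mem_erase h3) (ne_of_mem_erase h3) h4
  rwa [mis_eq_nd]
  intro h6
  have h7 := (mem_CP.1 h6).2
  have h8 : x ∈ ends G T v := by rw [he]; simp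
  exact hF.Cl_not_adj (h.sub (mem_of_mem_erase h3)) (h.sub hx) (ne_of_mem_erase h3).symm h7
    (mem_ends.1 h8).2

/-- **TEST (Q)**: the points of the class of the tail `z` which `v` misses are added to the outside
set `W` of the row test; each of them sees the points of the home class which `v` misses -/
theorem CSys.testQ (hF : PFrame G r m t Z T) (hP : PG G r) (hh : Homes G Z T hm)
    (h : CSys G Z T hm A S) {x z : V} (hx : x ∈ A) (hz : z ∈ A.erase x) {v : V}
    (hv : v ∈ HP G Z T S x) (hvz : tlo G T hm v = z) {W : Finset V} (hW : Disjoint (S x) W) :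
    2 * ((r : ℤ) - 1) * (((S x).card : ℤ) - r) + 2 * ∑ c ∈ CP G Z T S x, (dg G W c : ℤ)
      + 2 * ∑ u ∈ W, (dg G (HP G Z T S x) u : ℤ)
      + 2 * ((((CP G Z T S z).filter (fun c => ¬ G.Adj c v)) \ W).card : ℤ)
        * ((nd G (CP G Z T S x) v : ℤ) - W.card - (((S x).card : ℤ) - r + 1))
      ≤ NE G (S x) + NE G W + 2 * W.card * (((S x).card : ℤ) - r + 1) := by
  have hzA := mem_of_mem_erase hz
  have hzx := ne_of_mem_erase hz
  obtain ⟨hxz, he⟩ := h.ends_of_tlo hh hx hv hvz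
  have hvB := (mem_Ph.1 (h.HP_Ph hx hv)).1
  set Q : Finset V := ((CP G Z T S z).filter (fun c => ¬ G.Adj c v)) \ W with hQ
  set D : Finset V := (CP G Z T S x).filter (fun a => a ≠ v ∧ ¬ G.Adj v a) with hD
  have hQz : ∀ q ∈ Q, q ∈ CP G Z T S z ∧ ¬ G.Adj q v := fun q hq =>
    mem_filter.1 (mem_sdiff.1 hq).1
  have hQD : ∀ q ∈ Q, ∀ a ∈ D, G.Adj a q := by
    intro q hq a ha
    obtain ⟨a1, a2, a3⟩ := mem_filter.1 ha
    obtain ⟨q1, q2⟩ := hQz q hq
    rcases hF.srv_PC (h.sub hx) (h.sub hzA) hxz hvB he (mem_CP.1 a1).2 a3 (mem_CP.1 q1).2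
      with h1 | h1
    · exact absurd h1.symm q2
    · exact h1
  have hWQ : Disjoint W Q := disjoint_sdiff
  have hSQ : Disjoint (S x) Q := by
    rw [disjoint_left]
    intro u hu hu'
    exact disjoint_left.1 (h.disj hx hzA hxz) hu (CP_sub (hQz u hu').1)
  have h1 := h.row_load hF hP hx (W := W ∪ Q) (disjoint_union_right.2 ⟨hW, hSQ⟩)
    (k := fun c => (dg G W c : ℤ) + (if c ∈ D then (Q.card : ℤ) else 0)) (fun c hc => by
      have h2 : dg G (W ∪ Q) c = dg G W c + dg G Q c := by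
        unfold dg
        rw [filter_union, card_union_of_disjoint]
        exact hWQ.mono (filter_subset _ _) (filter_subset _ _)
      rw [h2]
      push_cast
      by_cases hcD : c ∈ D
      · rw [if_pos hcD]
        have h3 : dg G Q c = Q.card := by
          unfold dg
          rw [filter_true_of_mem]
          exact fun q hq => hQD q hq c hcD
        rw [h3]
      · rw [if_neg hcD]
        have : (0 : ℤ) ≤ dg G Q c := by positivity
        linarith)
  have h2 : ∑ c ∈ CP G Z T S x, (if c ∈ D then (Q.card : ℤ) else 0)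
      = (nd G (CP G Z T S x) v : ℤ) * Q.card := by
    have h5 : (CP G Z T S x).filter (fun c => c ∈ D) = D := by
      ext a
      rw [mem_filter]
      exact ⟨fun ha => ha.2, fun ha => ⟨(mem_filter.1 ha).1, ha⟩⟩
    rw [← sum_filter, sum_const, nsmul_eq_mul, h5]
    rfl
  have h3 : (NE G (W ∪ Q) : ℤ) ≤ NE G W + 2 * W.card * Q.card := by
    have h4 := NE_union (G := G) hWQ
    have h5 : NE G Q = 0 := NE_clq ((h.CP_clq hF hzA).mono fun q hq => (hQz q hq).1)
    have h6 : ∑ q ∈ Q, nd G W q ≤ Q.card * W.card := by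
      rw [← smul_eq_mul, ← sum_const]
      exact sum_le_sum fun q _ => card_filter_le _ _
    have h7 : NE G (W ∪ Q) ≤ NE G W + 2 * (Q.card * W.card) := by omega
    have h8 : (NE G (W ∪ Q) : ℤ) ≤ NE G W + 2 * ((Q.card : ℤ) * W.card) := by
      exact_mod_cast h7
    linarith
  have h4 : ∑ u ∈ W, (dg G (HP G Z T S x) u : ℤ) ≤ ∑ u ∈ W ∪ Q, (dg G (HP G Z T S x) u : ℤ) :=
    sum_le_sum_of_subset_of_nonneg subset_union_left fun u _ _ => by positivity
  rw [sum_add_distrib, h2, card_union_of_disjoint hWQ] at h1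
  push_cast at h1
  nlinarith

end Frame

end Pool.Agent.Lib.MP_f04ccf_co
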