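import Pool.Agent.Lib.MP_f04ccf_co.M.LemFC
import Pool.Agent.Lib.MP_f04ccf_co.M.Mut

/-!
MP_f04ccf_co: LEMMA FN, members with missing class points in a split cover (E4).  `X`, `Y` a split cover
of one host, `NX` the members of `X` with a missing class point, `C z` the class of the row `z`,
`MN z c` the members with tail `z` and a missing class point which `c` misses (a clique of `G`).
For every choice of shares `o z c ≥ 0` and of `φ v` with
`2 κ(v) + 1 ≤ |MN z c| + φ v + 2 β(v) o z c / |MN z c ∩ X|` (`z` the tail of `v`, `c ∈ C z` missing `v`,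
`κ(v)`, `β(v)` the numbers of missing points in `P` and in `C z`) the bound of LEMMA F holds with the
error `Σ φ v + 2 Σ o z c`, the quadratic bonus is kept (`lemFN_raw`, `lemFN`, `lemFN'`).
`half_phi`: shares of at least one half of `κ(v) - |MN z c|` allow `φ v = κ(v) + 1`.
-/

set_option autoImplicit false

namespace Pool.Agent.Lib.MP_f04ccf_co

open Finset

attribute [local instance] Classical.propDecidable

section Abs

variable {ι V : Type*} {G F : SimpleGraph V} {tl : V → ι} {H P X : Finset V}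
  {Y : ι → Finset V} {B : Finset ι}

/-- the members of the cover with a missing class point -/
noncomputable def NX (F : SimpleGraph V) (P X : Finset V) : Finset V :=
  X.filter (fun v => ∃ a ∈ P, F.Adj v a)

lemma mem_NX {v : V} : v ∈ NX F P X ↔ v ∈ X ∧ ∃ a ∈ P, F.Adj v a := mem_filter

/-- the number of points of `C` which `v` misses -/
noncomputable def mis (G : SimpleGraph V) (C : Finset V) (v : V) : ℕ :=
  (C.filter (fun c => ¬ G.Adj c v)).card

/-- the pairs inside `H`: every point of the cover sees `|H| - 1 - dg F H v` members -/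
lemma cov_E_nn (hXH : X ⊆ H) (hc : ∀ p ∈ H, ∀ q ∈ H, F.Adj p q → p ∈ X ∨ q ∈ X) :
    (E F H : ℤ) + X.card * (X.card + 1) ≤ 2 * ((X.card : ℤ) * H.card)
      - ∑ v ∈ X, ((H.card : ℤ) - 1 - dg F H v) := by
  have h1 := E_sdiff F hXH
  have h2 : E F (H \ X) = 0 := by
    unfold E
    refine sum_eq_zero fun v hv => ?_
    obtain ⟨v1, v2⟩ := mem_sdiff.1 hv
    unfold dg
    rw [card_eq_zero, filter_eq_empty_iff]
    intro u hu huv
    obtain ⟨u1, u2⟩ := mem_sdiff.1 hu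
    rcases hc v v1 u u1 huv with h | h
    · exact v2 h
    · exact u2 h
  have h3 : ∑ v ∈ X, dg F H v = ∑ v ∈ X, dg F (H \ X) v + E F X := by
    unfold E
    rw [← sum_add_distrib]
    exact sum_congr rfl fun v _ => dg_sdiff F hXH v
  have h4 : ∑ v ∈ X, dg F (H \ X) v ≤ X.card * (H \ X).card := by
    rw [← smul_eq_mul, ← sum_const]
    exact sum_le_sum fun v _ => card_filter_le _ _
  have h5 := card_sdiff_add_card_eq_card hXH
  have h6 : ∑ v ∈ X, ((H.card : ℤ) - 1 - dg F H v)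
      = X.card * ((H.card : ℤ) - 1) - ∑ v ∈ X, (dg F H v : ℤ) := by
    rw [sum_sub_distrib, sum_const, nsmul_eq_mul]
  rw [h6]
  have h1' : (E F H : ℤ) + E F X = E F (H \ X) + 2 * ∑ v ∈ X, (dg F H v : ℤ) := by
    exact_mod_cast h1
  have h3' : ∑ v ∈ X, (dg F H v : ℤ) = ∑ v ∈ X, (dg F (H \ X) v : ℤ) + E F X := by
    exact_mod_cast h3
  have h4' : ∑ v ∈ X, (dg F (H \ X) v : ℤ) ≤ (X.card : ℤ) * (H \ X).card := by
    exact_mod_cast h4
  have h5' : ((H \ X).card : ℤ) = H.card - X.card := by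
    have : ((H \ X).card : ℤ) + X.card = H.card := by exact_mod_cast h5
    linarith
  have h2' : (E F (H \ X) : ℤ) = 0 := by exact_mod_cast h2
  rw [h5'] at h4'
  nlinarith

/-- a member sees all other members of `MN` -/
lemma MN_nn {z : ι} {c w : V}
    (hcl : ∀ v ∈ MN G F tl H P z c, ∀ w ∈ MN G F tl H P z c, ¬ F.Adj v w)
    (hw : w ∈ MN G F tl H P z c) : dg F H w + (MN G F tl H P z c).card ≤ H.card := by
  unfold dg
  have h4 : Disjoint (H.filter (fun y => F.Adj w y)) (MN G F tl H P z c) := by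
    rw [disjoint_left]
    intro y hy hy'
    exact hcl w hw y hy' (mem_filter.1 hy).2
  rw [← card_union_of_disjoint h4]
  exact card_le_card (union_subset (filter_subset _ _) (filter_subset _ _))

/-- **the shares**: the class degrees of the members in the cover minus the members they see -/
theorem fn_share {C : ι → Finset V} {o : ι → V → ℚ} {φ : V → ℚ}
    (hXH : X ⊆ H)
    (htl : ∀ v ∈ H, ∀ a ∈ P, F.Adj v a → tl v ∈ B)
    (hcl : ∀ z ∈ B, ∀ c ∈ C z, ∀ v ∈ MN G F tl H P z c, ∀ w ∈ MN G F tl H P z c, ¬ F.Adj v w)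
    (ho : ∀ z ∈ B, ∀ c ∈ C z, 0 ≤ o z c)
    (hφ : ∀ v ∈ NX F P X, mis G (C (tl v)) v = 0 → 2 * (dg F P v : ℚ) ≤ φ v)
    (hφo : ∀ v ∈ NX F P X, ∀ c ∈ C (tl v), ¬ G.Adj c v →
      (2 * (dg F P v : ℚ) + 1 - (MN G F tl H P (tl v) c).card - φ v)
        * (MN G F tl H P (tl v) c ∩ X).card ≤ 2 * mis G (C (tl v)) v * o (tl v) c) :
    ∑ v ∈ NX F P X, (2 * (dg F P v : ℚ) - ((H.card : ℚ) - 1 - dg F H v))
      ≤ ∑ v ∈ NX F P X, φ v + 2 * ∑ z ∈ B, ∑ c ∈ C z, o z c := by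
  have hNH : ∀ v ∈ NX F P X, v ∈ H ∧ ∃ a ∈ P, F.Adj v a := fun v hv =>
    ⟨hXH (mem_NX.1 hv).1, (mem_NX.1 hv).2⟩
  have htN : ∀ v ∈ NX F P X, tl v ∈ B := by
    intro v hv
    obtain ⟨h1, a, h2, h3⟩ := hNH v hv
    exact htl v h1 a h2 h3
  have hMN : ∀ v ∈ NX F P X, ∀ z c, (v ∈ MN G F tl H P z c ↔ tl v = z ∧ ¬ G.Adj c v) := by
    intro v hv z c
    obtain ⟨h1, h2⟩ := hNH v hv
    rw [mem_MN]
    exact ⟨fun h => ⟨h.2.1, h.2.2.1⟩, fun h => ⟨h1, h.1, h.2, h2⟩⟩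
  -- one member
  have key : ∀ v ∈ NX F P X, 2 * (dg F P v : ℚ) - ((H.card : ℚ) - 1 - dg F H v)
      ≤ φ v + 2 * ∑ z ∈ B, ∑ c ∈ C z, (if v ∈ MN G F tl H P z c then
          o z c / (MN G F tl H P z c ∩ X).card else 0) := by
    intro v hv
    have hvz := htN v hv
    have e1 : ∑ z ∈ B, ∑ c ∈ C z, (if v ∈ MN G F tl H P z c then
          o z c / (MN G F tl H P z c ∩ X).card else 0)
        = ∑ c ∈ (C (tl v)).filter (fun c => ¬ G.Adj c v),
            o (tl v) c / (MN G F tl H P (tl v) c ∩ X).card := by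
      rw [sum_eq_single_of_mem _ hvz]
      · rw [sum_filter]
        refine sum_congr rfl fun c _ => ?_
        have h2 := hMN v hv (tl v) c
        by_cases h3 : G.Adj c v
        · rw [if_neg (fun h => (h2.1 h).2 h3), if_neg (fun h => h h3)]
        · rw [if_pos (h2.2 ⟨rfl, h3⟩), if_pos h3]
      · intro z _ hzv
        refine sum_eq_zero fun c _ => ?_
        rw [if_neg]
        intro h
        exact hzv ((hMN v hv z c).1 h).1.symm
    rw [e1]
    set A : Finset V := (C (tl v)).filter (fun c => ¬ G.Adj c v) with hA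
    have hAm : mis G (C (tl v)) v = A.card := rfl
    rcases A.eq_empty_or_nonempty with h0 | h0
    · rw [h0, sum_empty, mul_zero, add_zero]
      have h3 := hφ v hv (by rw [hAm, h0, card_empty])
      have h4 : dg F H v + 1 ≤ H.card := by
        unfold dg
        have h8 : insert v (H.filter (fun w => F.Adj v w)) ⊆ H :=
          insert_subset (hNH v hv).1 (filter_subset _ _)
        have h9 := card_le_card h8
        rw [card_insert_of_notMem (by simp)] at h9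
        exact h9
      have h5 : (dg F H v : ℚ) + 1 ≤ H.card := by exact_mod_cast h4
      linarith
    · have hA0 : (0 : ℚ) < A.card := by exact_mod_cast h0.card_pos
      have h1 : ∀ c ∈ A, (2 * (dg F P v : ℚ) - ((H.card : ℚ) - 1 - dg F H v) - φ v) / A.card
          ≤ 2 * (o (tl v) c / (MN G F tl H P (tl v) c ∩ X).card) := by
        intro c hc
        obtain ⟨hcC, hcv⟩ := mem_filter.1 hc
        have hvM : v ∈ MN G F tl H P (tl v) c := (hMN v hv (tl v) c).2 ⟨rfl, hcv⟩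
        have h2 := MN_nn (hcl _ hvz c hcC) hvM
        have h3 : (dg F H v : ℚ) + (MN G F tl H P (tl v) c).card ≤ H.card := by
          exact_mod_cast h2
        have h4 := hφo v hv c hcC hcv
        rw [hAm] at h4
        have h5 : (0 : ℚ) < (MN G F tl H P (tl v) c ∩ X).card := by
          have : 0 < (MN G F tl H P (tl v) c ∩ X).card :=
            card_pos.2 ⟨v, mem_inter.2 ⟨hvM, (mem_NX.1 hv).1⟩⟩
          exact_mod_cast this
        rw [← mul_div_assoc, div_le_div_iff₀ hA0 h5]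
        have h6 : (2 * (dg F P v : ℚ) - ((H.card : ℚ) - 1 - dg F H v) - φ v)
            * (MN G F tl H P (tl v) c ∩ X).card
            ≤ (2 * (dg F P v : ℚ) + 1 - (MN G F tl H P (tl v) c).card - φ v)
              * (MN G F tl H P (tl v) c ∩ X).card :=
          mul_le_mul_of_nonneg_right (by linarith) h5.le
        calc _ ≤ _ := h6
          _ ≤ _ := h4
          _ = _ := by ring
      have h2 := sum_le_sum h1
      rw [sum_const, nsmul_eq_mul, mul_div_cancel₀ _ hA0.ne', ← mul_sum] at h2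
      linarith
  have h1 := sum_le_sum key
  rw [sum_add_distrib, ← mul_sum] at h1
  have h2 : ∑ v ∈ NX F P X, ∑ z ∈ B, ∑ c ∈ C z, (if v ∈ MN G F tl H P z c then
        o z c / (MN G F tl H P z c ∩ X).card else 0) ≤ ∑ z ∈ B, ∑ c ∈ C z, o z c := by
    rw [sum_comm]
    refine sum_le_sum fun z hz => ?_
    rw [sum_comm]
    refine sum_le_sum fun c hc => ?_
    rw [← sum_filter, sum_const, nsmul_eq_mul]
    have h3 : ((NX F P X).filter (fun v => v ∈ MN G F tl H P z c)).card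
        ≤ (MN G F tl H P z c ∩ X).card := by
      refine card_le_card fun v hv => ?_
      obtain ⟨v1, v2⟩ := mem_filter.1 hv
      exact mem_inter.2 ⟨v2, (mem_NX.1 v1).1⟩
    have h4 := ho z hz c hc
    rcases Nat.eq_zero_or_pos (MN G F tl H P z c ∩ X).card with h5 | h5
    · rw [h5] at h3 ⊢
      have h6 := Nat.le_zero.1 h3
      rw [h6]
      simpa using h4
    · have h6 : (0 : ℚ) < (MN G F tl H P z c ∩ X).card := by exact_mod_cast h5
      have h7 : (((NX F P X).filter (fun v => v ∈ MN G F tl H P z c)).card : ℚ)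
          ≤ (MN G F tl H P z c ∩ X).card := by exact_mod_cast h3
      rw [← mul_div_assoc, div_le_iff₀ h6, mul_comm]
      exact mul_le_mul_of_nonneg_left h7 h4
  linarith

/-- **LEMMA FN, raw form** -/
theorem lemFN_raw {C : ι → Finset V} {o : ι → V → ℚ} {φ : V → ℚ} (hHP : Disjoint H P)
    (hP : ∀ a ∈ P, ∀ b ∈ P, ¬ F.Adj a b) (hXH : X ⊆ H) (hc : SpCov F tl H P X Y)
    (htl : ∀ v ∈ H, ∀ a ∈ P, F.Adj v a → tl v ∈ B)
    (hcl : ∀ z ∈ B, ∀ c ∈ C z, ∀ v ∈ MN G F tl H P z c, ∀ w ∈ MN G F tl H P z c, ¬ F.Adj v w)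
    (ho : ∀ z ∈ B, ∀ c ∈ C z, 0 ≤ o z c)
    (hφ : ∀ v ∈ NX F P X, mis G (C (tl v)) v = 0 → 2 * (dg F P v : ℚ) ≤ φ v)
    (hφo : ∀ v ∈ NX F P X, ∀ c ∈ C (tl v), ¬ G.Adj c v →
      (2 * (dg F P v : ℚ) + 1 - (MN G F tl H P (tl v) c).card - φ v)
        * (MN G F tl H P (tl v) c ∩ X).card ≤ 2 * mis G (C (tl v)) v * o (tl v) c) :
    (E F (H ∪ P) : ℚ) + X.card * (X.card + 1) ≤ 2 * ((X.card : ℚ) * H.card)
      + 2 * ∑ z ∈ B, ((WN F tl H P X z).card : ℚ) * (Y z).card + ∑ v ∈ NX F P X, φ v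
      + 2 * ∑ z ∈ B, ∑ c ∈ C z, o z c := by
  have h1 := E_sdiff F (subset_union_right : P ⊆ H ∪ P)
  have h2 : (H ∪ P) \ P = H := by
    rw [union_sdiff_right]
    exact sdiff_eq_self_of_disjoint hHP
  have h3 : E F P = 0 := by
    unfold E
    refine sum_eq_zero fun v hv => ?_
    unfold dg
    rw [card_eq_zero, filter_eq_empty_iff]
    exact fun u hu huv => hP v hv u hu huv
  have h4 : ∑ v ∈ P, dg F (H ∪ P) v = ∑ v ∈ P, dg F H v := by
    refine sum_congr rfl fun v hv => ?_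
    have h5 : dg F P v = 0 := by
      unfold dg
      rw [card_eq_zero, filter_eq_empty_iff]
      exact fun u hu huv => hP v hv u hu huv
    have h6 : dg F (H ∪ P) v = dg F H v + dg F P v := by
      unfold dg
      rw [filter_union, card_union_of_disjoint (disjoint_filter_filter hHP)]
    omega
  have h5 := dg_comm F P H
  have h6 := cov_E_nn hXH hc.1
  have h7 := cov_dg_le hc hXH htl
  have h8 := fn_share hXH htl hcl ho hφ hφo
  rw [h2, h3, h4] at h1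
  -- the sums over `X` and `NX`
  have h9 : ∑ v ∈ X, dg F P v = ∑ v ∈ NX F P X, dg F P v := by
    symm
    refine sum_subset (filter_subset _ _) fun v hv hv' => ?_
    unfold dg
    rw [card_eq_zero, filter_eq_empty_iff]
    intro a ha hva
    exact hv' (mem_NX.2 ⟨hv, a, ha, hva⟩)
  have h10 : ∑ v ∈ NX F P X, ((H.card : ℤ) - 1 - dg F H v)
      ≤ ∑ v ∈ X, ((H.card : ℤ) - 1 - dg F H v) := by
    refine sum_le_sum_of_subset_of_nonneg (filter_subset _ _) fun v hv _ => ?_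
    have h8 : insert v (H.filter (fun w => F.Adj v w)) ⊆ H :=
      insert_subset (hXH hv) (filter_subset _ _)
    have h9 := card_le_card h8
    rw [card_insert_of_notMem (by simp)] at h9
    have h10 : dg F H v + 1 ≤ H.card := h9
    omega
  have h1' : (E F (H ∪ P) : ℤ) = E F H + 2 * ∑ v ∈ H, (dg F P v : ℤ) := by
    have : E F (H ∪ P) = E F H + 2 * ∑ v ∈ H, dg F P v := by omega
    exact_mod_cast this
  have h7' : ∑ v ∈ H, (dg F P v : ℤ) ≤ ∑ v ∈ NX F P X, (dg F P v : ℤ)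
      + ∑ z ∈ B, ((WN F tl H P X z).card : ℤ) * (Y z).card := by
    rw [h9] at h7
    exact_mod_cast h7
  have h11 : (E F (H ∪ P) : ℤ) + X.card * (X.card + 1) ≤ 2 * ((X.card : ℤ) * H.card)
      + 2 * ∑ z ∈ B, ((WN F tl H P X z).card : ℤ) * (Y z).card
      + ∑ v ∈ NX F P X, (2 * (dg F P v : ℤ) - ((H.card : ℤ) - 1 - dg F H v)) := by
    rw [sum_sub_distrib, ← mul_sum]
    linarith
  have h12 : (E F (H ∪ P) : ℚ) + X.card * (X.card + 1) ≤ 2 * ((X.card : ℚ) * H.card)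
      + 2 * ∑ z ∈ B, ((WN F tl H P X z).card : ℚ) * (Y z).card
      + ∑ v ∈ NX F P X, (2 * (dg F P v : ℚ) - ((H.card : ℚ) - 1 - dg F H v)) := by
    exact_mod_cast h11
  linarith

/-- **LEMMA FN** for rows with `g ≥ 1` (`|H| = t + g`, LEMMA C as hypothesis `hC` on the arcs) -/
theorem lemFN {C : ι → Finset V} {o : ι → V → ℚ} {φ : V → ℚ} (hHP : Disjoint H P)
    (hP : ∀ a ∈ P, ∀ b ∈ P, ¬ F.Adj a b) (hXH : X ⊆ H) (hc : SpCov F tl H P X Y)
    (htl : ∀ v ∈ H, ∀ a ∈ P, F.Adj v a → tl v ∈ B)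
    (hcl : ∀ z ∈ B, ∀ c ∈ C z, ∀ v ∈ MN G F tl H P z c, ∀ w ∈ MN G F tl H P z c, ¬ F.Adj v w)
    (ho : ∀ z ∈ B, ∀ c ∈ C z, 0 ≤ o z c)
    (hφ : ∀ v ∈ NX F P X, mis G (C (tl v)) v = 0 → 2 * (dg F P v : ℚ) ≤ φ v)
    (hφo : ∀ v ∈ NX F P X, ∀ c ∈ C (tl v), ¬ G.Adj c v →
      (2 * (dg F P v : ℚ) + 1 - (MN G F tl H P (tl v) c).card - φ v)
        * (MN G F tl H P (tl v) c ∩ X).card ≤ 2 * mis G (C (tl v)) v * o (tl v) c)
    (ex : ι → ℕ) {t : ℕ} {g : ℤ} (hh : (H.card : ℤ) = t + g)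
    (hC : ∀ z ∈ B, 2 ≤ (Y z).card → (WN F tl H P X z).card ≤ t + ex z) :
    (E F (H ∪ P) : ℚ) ≤ 2 * (((X.card : ℚ) + ∑ z ∈ B, ((Y z).card : ℚ)) * t)
      + (g : ℚ) * (g - 1) + 2 + 2 * ∑ z ∈ B, ((Y z).card : ℚ) * ex z
      + ∑ v ∈ NX F P X, φ v + 2 * ∑ z ∈ B, ∑ c ∈ C z, o z c := by
  have h1 := lemFN_raw hHP hP hXH hc htl hcl ho hφ hφo
  have h2 := lemF_pos B (fun z => (Y z).card) (fun z => (WN F tl H P X z).card) ex hh
    (WN_sum hXH) hC
  have h3 : 2 * ((X.card : ℚ) * H.card) - X.card * (X.card + 1)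
      + 2 * ∑ z ∈ B, ((WN F tl H P X z).card : ℚ) * (Y z).card
      ≤ 2 * (((X.card : ℚ) + ∑ z ∈ B, ((Y z).card : ℚ)) * t) + (g : ℚ) * (g - 1) + 2
        + 2 * ∑ z ∈ B, ((Y z).card : ℚ) * ex z := by exact_mod_cast h2
  linarith

/-- **LEMMA FN** for rows with `g ≤ 0` -/
theorem lemFN' {C : ι → Finset V} {o : ι → V → ℚ} {φ : V → ℚ} (hHP : Disjoint H P)
    (hP : ∀ a ∈ P, ∀ b ∈ P, ¬ F.Adj a b) (hXH : X ⊆ H) (hc : SpCov F tl H P X Y)
    (htl : ∀ v ∈ H, ∀ a ∈ P, F.Adj v a → tl v ∈ B)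
    (hcl : ∀ z ∈ B, ∀ c ∈ C z, ∀ v ∈ MN G F tl H P z c, ∀ w ∈ MN G F tl H P z c, ¬ F.Adj v w)
    (ho : ∀ z ∈ B, ∀ c ∈ C z, 0 ≤ o z c)
    (hφ : ∀ v ∈ NX F P X, mis G (C (tl v)) v = 0 → 2 * (dg F P v : ℚ) ≤ φ v)
    (hφo : ∀ v ∈ NX F P X, ∀ c ∈ C (tl v), ¬ G.Adj c v →
      (2 * (dg F P v : ℚ) + 1 - (MN G F tl H P (tl v) c).card - φ v)
        * (MN G F tl H P (tl v) c ∩ X).card ≤ 2 * mis G (C (tl v)) v * o (tl v) c) :
    (E F (H ∪ P) : ℚ) + X.card * (X.card + 1)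
      ≤ 2 * (((X.card : ℚ) + ∑ z ∈ B, ((Y z).card : ℚ)) * H.card)
      + ∑ v ∈ NX F P X, φ v + 2 * ∑ z ∈ B, ∑ c ∈ C z, o z c := by
  have h1 := lemFN_raw hHP hP hXH hc htl hcl ho hφ hφo
  have h2 := lemF_neg B (fun z => (Y z).card) (fun z => (WN F tl H P X z).card) (a := X.card)
    (h := H.card) (fun z _ => card_le_card (filter_subset _ _))
  have h3 : 2 * ((X.card : ℚ) * H.card)
      + 2 * ∑ z ∈ B, ((WN F tl H P X z).card : ℚ) * (Y z).card
      ≤ 2 * (((X.card : ℚ) + ∑ z ∈ B, ((Y z).card : ℚ)) * H.card) := by exact_mod_cast h2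
  linarith

end Abs

section Frame

variable {V : Type*} {G : SimpleGraph V} {Z T : Finset V} {hm : V → V} {r m t : ℕ}
  {A : Finset V} {S : V → Finset V} {X : Finset V} {Y : V → Finset V}

/-- two members with the same tail `z` which both miss a point of the class of `z` are adjacent -/
lemma CSys.MN_clq (hF : PFrame G r m t Z T) (hh : Homes G Z T hm) (h : CSys G Z T hm A S) {x z : V}
    (hx : x ∈ A) (hz : z ∈ A.erase x) {c : V} (hc : c ∈ CP G Z T S z) :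
    ∀ v ∈ MN G (co G) (tlo G T hm) (HP G Z T S x) (CP G Z T S x) z c,
      ∀ w ∈ MN G (co G) (tlo G T hm) (HP G Z T S x) (CP G Z T S x) z c, ¬ (co G).Adj v w := by
  intro v hv w hw hvw
  obtain ⟨v1, v2, v3, -⟩ := mem_MN.1 hv
  obtain ⟨w1, w2, w3, -⟩ := mem_MN.1 hw
  obtain ⟨hxz, ev⟩ := h.ends_of_tlo hh hx v1 v2
  obtain ⟨-, ew⟩ := h.ends_of_tlo hh hx w1 w2
  have hv4 := (mem_Ph.1 (h.HP_Ph hx v1)).1
  have hw4 := (mem_Ph.1 (h.HP_Ph hx w1)).1
  exact hvw.2 (hF.adj_of_common hxz (h.sub hx) (h.sub (mem_of_mem_erase hz)) hv4 hw4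
    (by rw [ev]; simp) (by rw [ev]; simp) (by rw [ew]; simp) (by rw [ew]; simp) hvw.1
    (mem_CP.1 hc).2 (fun h' => v3 h'.symm) (fun h' => w3 h'.symm))

/-- `mis` is the number of missing points -/
lemma mis_eq_nd {C : Finset V} {v : V} (hv : v ∉ C) : mis G C v = nd G C v := by
  unfold mis nd
  congr 1
  ext c
  simp only [mem_filter]
  constructor
  · rintro ⟨h1, h2⟩
    exact ⟨h1, fun h3 => hv (h3 ▸ h1), fun h3 => h2 h3.symm⟩
  · rintro ⟨h1, -, h3⟩
    exact ⟨h1, fun h4 => h3 h4.symm⟩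

/-- **LEMMA FN IN A CLOSED SYSTEM, all arcs discharged** (used for `g ≥ 1`): `t' = r - 1 - |CP x|`,
`|HP x| = t' + g`, `X`, `Y` a minimum split cover of the slot `x`, shares `o`, values `φ` -/
theorem CSys.lemFN_min (hr : 6 ≤ r) (hP : PG G r) (hF : S2 G r m t Z T) (hh : Homes G Z T hm)
    (h : CSys G Z T hm A S) (hctr : ∀ y ∈ A, y ∈ S y) {x : V} (hx : x ∈ A)
    (hXH : X ⊆ HP G Z T S x) (hYP : ∀ z, Y z ⊆ CP G Z T S x)
    (hc : SpCov (co G) (tlo G T hm) (HP G Z T S x) (CP G Z T S x) X Y)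
    (hmin : X.card + ∑ z ∈ A.erase x, (Y z).card
      = spn (co G) (tlo G T hm) (HP G Z T S x) (CP G Z T S x) (A.erase x))
    (hD : ∀ z ∈ A.erase x, r - 1 + 4 ≤ (CP G Z T S x).card + (CP G Z T S z).card)
    {t' : ℕ} {g : ℤ} (ht : t' + (CP G Z T S x).card = r - 1)
    (hg : ((HP G Z T S x).card : ℤ) = t' + g) {o : V → V → ℚ} {φ : V → ℚ}
    (ho : ∀ z ∈ A.erase x, ∀ c ∈ CP G Z T S z, 0 ≤ o z c)
    (hφ : ∀ v ∈ NX (co G) (CP G Z T S x) X, mis G (CP G Z T S (tlo G T hm v)) v = 0 →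
      2 * (nd G (CP G Z T S x) v : ℚ) ≤ φ v)
    (hφo : ∀ v ∈ NX (co G) (CP G Z T S x) X, ∀ c ∈ CP G Z T S (tlo G T hm v), ¬ G.Adj c v →
      (2 * (nd G (CP G Z T S x) v : ℚ) + 1 - (MN G (co G) (tlo G T hm) (HP G Z T S x)
          (CP G Z T S x) (tlo G T hm v) c).card - φ v)
        * (MN G (co G) (tlo G T hm) (HP G Z T S x) (CP G Z T S x) (tlo G T hm v) c ∩ X).card
        ≤ 2 * mis G (CP G Z T S (tlo G T hm v)) v * o (tlo G T hm v) c) :
    (NE G (S x) : ℚ)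
      ≤ 2 * ((spn (co G) (tlo G T hm) (HP G Z T S x) (CP G Z T S x) (A.erase x) : ℚ) * t')
        + (g : ℚ) * (g - 1) + 2 + ∑ v ∈ NX (co G) (CP G Z T S x) X, φ v
        + 2 * ∑ z ∈ A.erase x, ∑ c ∈ CP G Z T S z, o z c := by
  have h1 := lemFN (G := G) (F := co G) (tl := tlo G T hm) (B := A.erase x)
    (C := fun z => CP G Z T S z) (o := o) (φ := φ) CP_HP_disjoint.symm
    (h.CP_co hF.toPFrame hx) hXH hc
    (fun v hv a ha hva => (h.pc_tail hF.toPFrame hh hctr hx hv ha hva).1)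
    (fun z hz c hcz => h.MN_clq hF.toPFrame hh hx hz hcz) ho
    (fun v hv h0 => by rw [← nd_eq_dg]; exact hφ v hv h0)
    (fun v hv c hc hcv => by rw [← nd_eq_dg]; exact hφo v hv c hc hcv) (fun _ => 0) hg
    (fun z hz hb => by
      have h2 := ((h.arc_lemC hr hP hF hh hctr hx hYP hc hmin hz (by omega) (hD z hz)).2.1 hb).2
      omega)
  have h2 : ((X.card : ℚ) + ∑ z ∈ A.erase x, ((Y z).card : ℚ))
      = (spn (co G) (tlo G T hm) (HP G Z T S x) (CP G Z T S x) (A.erase x) : ℚ) := by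
    rw [← hmin]
    push_cast
    rfl
  have h3 : HP G Z T S x ∪ CP G Z T S x = S x := by
    rw [union_comm]
    exact CP_union_HP
  have h4 : ∑ z ∈ A.erase x, ((Y z).card : ℚ) * (((fun _ => 0 : V → ℕ) z : ℕ) : ℚ) = 0 := by
    refine sum_eq_zero fun z _ => ?_
    push_cast
    ring
  rw [h2, h3, h4, ← NE_eq_E] at h1
  linarith

/-- **the same for rows with `g ≤ 0`** -/
theorem CSys.lemFN_min' (hF : PFrame G r m t Z T) (hh : Homes G Z T hm)
    (h : CSys G Z T hm A S) (hctr : ∀ y ∈ A, y ∈ S y) {x : V} (hx : x ∈ A)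
    (hXH : X ⊆ HP G Z T S x)
    (hc : SpCov (co G) (tlo G T hm) (HP G Z T S x) (CP G Z T S x) X Y)
    (hmin : X.card + ∑ z ∈ A.erase x, (Y z).card
      = spn (co G) (tlo G T hm) (HP G Z T S x) (CP G Z T S x) (A.erase x))
    {o : V → V → ℚ} {φ : V → ℚ}
    (ho : ∀ z ∈ A.erase x, ∀ c ∈ CP G Z T S z, 0 ≤ o z c)
    (hφ : ∀ v ∈ NX (co G) (CP G Z T S x) X, mis G (CP G Z T S (tlo G T hm v)) v = 0 →
      2 * (nd G (CP G Z T S x) v : ℚ) ≤ φ v)
    (hφo : ∀ v ∈ NX (co G) (CP G Z T S x) X, ∀ c ∈ CP G Z T S (tlo G T hm v), ¬ G.Adj c v →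
      (2 * (nd G (CP G Z T S x) v : ℚ) + 1 - (MN G (co G) (tlo G T hm) (HP G Z T S x)
          (CP G Z T S x) (tlo G T hm v) c).card - φ v)
        * (MN G (co G) (tlo G T hm) (HP G Z T S x) (CP G Z T S x) (tlo G T hm v) c ∩ X).card
        ≤ 2 * mis G (CP G Z T S (tlo G T hm v)) v * o (tlo G T hm v) c) :
    (NE G (S x) : ℚ) + X.card * (X.card + 1)
      ≤ 2 * ((spn (co G) (tlo G T hm) (HP G Z T S x) (CP G Z T S x) (A.erase x) : ℚ)
          * (HP G Z T S x).card)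
        + ∑ v ∈ NX (co G) (CP G Z T S x) X, φ v
        + 2 * ∑ z ∈ A.erase x, ∑ c ∈ CP G Z T S z, o z c := by
  have h1 := lemFN' (G := G) (F := co G) (tl := tlo G T hm) (B := A.erase x)
    (C := fun z => CP G Z T S z) (o := o) (φ := φ) CP_HP_disjoint.symm
    (h.CP_co hF hx) hXH hc
    (fun v hv a ha hva => (h.pc_tail hF hh hctr hx hv ha hva).1)
    (fun z hz c hcz => h.MN_clq hF hh hx hz hcz) ho
    (fun v hv h0 => by rw [← nd_eq_dg]; exact hφ v hv h0)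
    (fun v hv c hc hcv => by rw [← nd_eq_dg]; exact hφo v hv c hc hcv)
  have h2 : ((X.card : ℚ) + ∑ z ∈ A.erase x, ((Y z).card : ℚ))
      = (spn (co G) (tlo G T hm) (HP G Z T S x) (CP G Z T S x) (A.erase x) : ℚ) := by
    rw [← hmin]
    push_cast
    rfl
  have h3 : HP G Z T S x ∪ CP G Z T S x = S x := by
    rw [union_comm]
    exact CP_union_HP
  rw [h2, h3, ← NE_eq_E] at h1
  linarith

end Frame

section Choice

/-- shares of at least half of the over-coverage `κ - μ`: `φ = κ + 1` (`j ≤ μ`, `κ ≤ β + 1`) -/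
lemma half_phi {κ μ j β : ℕ} {o : ℚ} (hj : j ≤ μ) (hβ : κ ≤ β + 1) (ho : 0 ≤ o)
    (h : (κ : ℚ) - μ ≤ 2 * o) :
    (2 * (κ : ℚ) + 1 - μ - (κ + 1)) * j ≤ 2 * β * o := by
  have h1 : 2 * (κ : ℚ) + 1 - μ - (κ + 1) = κ - μ := by ring
  rw [h1]
  have hβ0 : (0 : ℚ) ≤ β := by positivity
  have hj0 : (0 : ℚ) ≤ j := by positivity
  rcases le_or_gt κ μ with h2 | h2
  · have h3 : (κ : ℚ) ≤ μ := by exact_mod_cast h2
    have h4 : ((κ : ℚ) - μ) * j ≤ 0 := mul_nonpos_of_nonpos_of_nonneg (by linarith) hj0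
    have h5 : 0 ≤ 2 * (β : ℚ) * o := by positivity
    linarith
  · have h3 : j ≤ β := by omega
    have h4 : (j : ℚ) ≤ β := by exact_mod_cast h3
    have h5 : ((κ : ℚ) - μ) * j ≤ (2 * o) * j := mul_le_mul_of_nonneg_right h hj0
    have h6 : (2 * o) * j ≤ (2 * o) * β := mul_le_mul_of_nonneg_left h4 (by positivity)
    linarith

/-- one member with its tail in the cover (`μ = j = 1`): a share of `(κ - 1) / β` gives `φ = 2` -/
lemma one_phi {κ β : ℕ} {o : ℚ} (h : (κ : ℚ) - 1 ≤ β * o) :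
    (2 * (κ : ℚ) + 1 - (1 : ℕ) - 2) * (1 : ℕ) ≤ 2 * β * o := by
  push_cast
  linarith

/-- full shares `κ - μ ≤ o` with `κ ≤ β`: `φ = j + 1` -/
lemma full_phi {κ μ j β : ℕ} {o : ℚ} (hj : j ≤ μ) (hβ : κ ≤ β) (ho : 0 ≤ o)
    (h : (κ : ℚ) - μ ≤ o) (hμ : μ ≤ κ) :
    (2 * (κ : ℚ) + 1 - μ - (μ + 1)) * j ≤ 2 * β * o := by
  have h1 : 2 * (κ : ℚ) + 1 - μ - (μ + 1) = 2 * (κ - μ) := by ring
  rw [h1]
  have h3 : j ≤ β := by omega
  have h4 : (j : ℚ) ≤ β := by exact_mod_cast h3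
  have hj0 : (0 : ℚ) ≤ j := by positivity
  have h5 : 2 * ((κ : ℚ) - μ) * j ≤ 2 * o * j := mul_le_mul_of_nonneg_right (by linarith) hj0
  have h6 : (2 * o) * j ≤ (2 * o) * β := mul_le_mul_of_nonneg_left h4 (by positivity)
  linarith

end Choice

end Pool.Agent.Lib.MP_f04ccf_co
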