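import Pool.Agent.Lib.MP_f04ccf_co.M.Back

/-!
MP_f04ccf_co: LEMMA H of helper63 (note 15320).  A uniform transversal `(c y)` of the rows: the
neighbours of `c y` in the home set `H x` cover the pairs served at `y`; a half-served pair of the
rows `y`, `z` is covered by the neighbours of `c y` or of `c z` unless `c y` and `c z` are adjacent,
and then one pays with the cross edges between the two classes.
-/

set_option autoImplicit false

namespace Pool.Agent.Lib.MP_f04ccf_co

open Finset

attribute [local instance] Classical.propDecidable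

section Avg

variable {ι V : Type*} [Fintype ι]

/-- one coordinate of a uniform transversal -/
lemma tr_one (s : ι → Finset V) (i : ι) (f : V → ℚ) :
    ((s i).card : ℚ) * ∑ c ∈ Fintype.piFinset s, f (c i)
      = (∏ j, ((s j).card : ℚ)) * ∑ a ∈ s i, f a := by
  have h1 : ∑ c ∈ Fintype.piFinset s, f (c i)
      = ∑ a ∈ s i, ∑ c ∈ (Fintype.piFinset s).filter (fun c => c i = a), f (c i) :=
    (sum_fiberwise_of_maps_to (fun c hc => Fintype.mem_piFinset.1 hc i) _).symm
  have h2 : ∀ a ∈ s i, ∑ c ∈ (Fintype.piFinset s).filter (fun c => c i = a), f (c i)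
      = (∏ j ∈ univ.erase i, ((s j).card : ℚ)) * f a := by
    intro a ha
    have h3 : ∀ c ∈ (Fintype.piFinset s).filter (fun c => c i = a), f (c i) = f a := by
      intro c hc
      rw [(mem_filter.1 hc).2]
    rw [sum_congr rfl h3, sum_const, nsmul_eq_mul, Fintype.card_filter_piFinset_eq_of_mem s i ha]
    push_cast
    rfl
  rw [h1, sum_congr rfl h2, ← mul_sum, ← mul_assoc,
    mul_prod_erase univ (fun j => ((s j).card : ℚ)) (mem_univ i)]

/-- two coordinates of a uniform transversal -/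
lemma tr_two (s : ι → Finset V) {i j : ι} (hij : i ≠ j) (g : V → V → ℚ) :
    ((s i).card : ℚ) * (s j).card * ∑ c ∈ Fintype.piFinset s, g (c i) (c j)
      = (∏ k, ((s k).card : ℚ)) * ∑ a ∈ s i, ∑ b ∈ s j, g a b := by
  have h1 : ∑ c ∈ Fintype.piFinset s, g (c i) (c j)
      = ∑ a ∈ s i, ∑ c ∈ (Fintype.piFinset s).filter (fun c => c i = a), g (c i) (c j) :=
    (sum_fiberwise_of_maps_to (fun c hc => Fintype.mem_piFinset.1 hc i) _).symm
  have h2 : ∀ a ∈ s i, ((s i).card : ℚ) * (s j).card
      * ∑ c ∈ (Fintype.piFinset s).filter (fun c => c i = a), g (c i) (c j)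
      = (∏ k, ((s k).card : ℚ)) * ∑ b ∈ s j, g a b := by
    intro a ha
    have h3 : ∀ c ∈ (Fintype.piFinset s).filter (fun c => c i = a), g (c i) (c j) = g a (c j) := by
      intro c hc
      rw [(mem_filter.1 hc).2]
    have h4 := Fintype.piFinset_update_singleton_eq_filter_piFinset_eq s i ha
    rw [sum_congr rfl h3, ← h4]
    have h5 := tr_one (Function.update s i {a}) j (fun b => g a b)
    rw [Function.update_of_ne hij.symm] at h5
    have h6 : (∏ k, ((Function.update s i {a} k).card : ℚ))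
        = ∏ k ∈ univ.erase i, ((s k).card : ℚ) := by
      rw [← mul_prod_erase univ _ (mem_univ i), Function.update_self, card_singleton, Nat.cast_one,
        one_mul]
      refine prod_congr rfl fun k hk => ?_
      rw [Function.update_of_ne (ne_of_mem_erase hk)]
    rw [mul_assoc, h5, h6, ← mul_assoc,
      mul_prod_erase univ (fun j => ((s j).card : ℚ)) (mem_univ i)]
  rw [h1, mul_sum, sum_congr rfl h2, ← mul_sum]

end Avg

section LemH

variable {ι κ V : Type*} [Fintype ι] {G : SimpleGraph V}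

/-- the smaller of two rows -/
private def prH (C : ι → Finset V) (y z : ι) : Prop :=
  (C y).card < (C z).card ∨ ((C y).card = (C z).card ∧ WellOrderingRel y z)

omit [Fintype ι] in
private lemma prH_le {C : ι → Finset V} {y z : ι} (h : prH C y z) : (C y).card ≤ (C z).card := by
  rcases h with h | h
  · exact h.le
  · exact h.1.le

omit [Fintype ι] in
private lemma prH_or (C : ι → Finset V) {y z : ι} (h : y ≠ z) :
    (prH C y z ∧ ¬ prH C z y) ∨ (¬ prH C y z ∧ prH C z y) := by
  have h1 : WellOrderingRel y z ∨ y = z ∨ WellOrderingRel z y := trichotomous_of _ _ _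
  have h2 : WellOrderingRel y z → ¬ WellOrderingRel z y := fun a b => asymm a b
  unfold prH
  rcases lt_trichotomy (C y).card (C z).card with h3 | h3 | h3
  · left
    refine ⟨Or.inl h3, ?_⟩
    rintro (h4 | h4) <;> omega
  · rcases h1 with h1 | h1 | h1
    · left
      refine ⟨Or.inr ⟨h3, h1⟩, ?_⟩
      rintro (h4 | h4)
      · omega
      · exact h2 h1 h4.2
    · exact absurd h1 h
    · right
      refine ⟨?_, Or.inr ⟨h3.symm, h1⟩⟩
      rintro (h4 | h4)
      · omega
      · exact h2 h4.2 h1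
  · right
    refine ⟨?_, Or.inl h3⟩
    rintro (h4 | h4) <;> omega

/-- **LEMMA H**, abstract form: rows `ι` with classes `C y`, homes `κ` with sets `H x`, the home `x`
may use the rows `A x` -/
theorem lemH (C : ι → Finset V) (hC : ∀ y, (C y).Nonempty) (I : Finset κ) (A : κ → Finset ι)
    (H : κ → Finset V) (N : κ → ι → SimpleGraph V) (F : κ → ι → ι → SimpleGraph V)
    (hN : ∀ x ∈ I, ∀ y ∈ A x, SrvBy G (N x y) (H x) (C y))
    (hF : ∀ x ∈ I, ∀ y ∈ A x, ∀ z ∈ A x, y ≠ z → ∀ p ∈ H x, ∀ q ∈ H x, (F x y z).Adj p q →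
      ∀ c ∈ C y, ∀ d ∈ C z, ¬ G.Adj c d →
        G.Adj p c ∨ G.Adj q c ∨ G.Adj p d ∨ G.Adj q d)
    (L : κ → ι → ι → Finset V) (hLs : ∀ x y z, L x y z = L x z y)
    (hL : ∀ x ∈ I, ∀ y ∈ A x, ∀ z ∈ A x, y ≠ z → L x y z ⊆ H x ∧ CovN (F x y z) (H x) (L x y z))
    (W : κ → ℚ)
    (hW : ∀ x ∈ I, ∀ K : ι → Finset V,
      (∀ y ∈ A x, K y ⊆ H x ∧ CovN (N x y) (H x) (K y)) →
      (∀ y ∈ A x, ∀ z ∈ A x, y ≠ z → ∀ p ∈ H x, ∀ q ∈ H x, (F x y z).Adj p q →
        p ∈ K y ∨ q ∈ K y ∨ p ∈ K z ∨ q ∈ K z) →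
      W x ≤ ∑ y ∈ A x, ((C y).card : ℚ) * (K y).card) :
    ∑ x ∈ I, W x ≤ ∑ x ∈ I, ∑ y ∈ A x, ∑ c ∈ C y, (dg G (H x) c : ℚ)
      + (1 / 2) * ∑ x ∈ I, ∑ y ∈ A x, ∑ z ∈ (A x).erase y,
          ((L x y z).card : ℚ) / max ((C y).card : ℚ) (C z).card * ∑ c ∈ C y, (dg G (C z) c : ℚ) := by
  have hc0 : ∀ y, (0 : ℚ) < (C y).card := fun y => by exact_mod_cast card_pos.2 (hC y)
  set P : ℚ := ∏ y, ((C y).card : ℚ) with hP
  have hP0 : 0 < P := prod_pos fun y _ => hc0 y
  have hPc : ((Fintype.piFinset C).card : ℚ) = P := by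
    rw [Fintype.card_piFinset, hP]
    push_cast
    rfl
  -- one transversal, one home
  have h1 : ∀ x ∈ I, ∀ c ∈ Fintype.piFinset C,
      W x ≤ ∑ y ∈ A x, ((C y).card : ℚ) * dg G (H x) (c y)
        + ∑ y ∈ A x, ∑ z ∈ (A x).erase y, (if prH C y z then
            ((C y).card : ℚ) * (L x y z).card * (if G.Adj (c y) (c z) then 1 else 0) else 0) := by
    intro x hx c hc
    have hcm : ∀ y, c y ∈ C y := fun y => Fintype.mem_piFinset.1 hc y
    set X : ι → Finset ι := fun y => ((A x).erase y).filter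
      (fun z => prH C y z ∧ G.Adj (c y) (c z)) with hX
    set K : ι → Finset V := fun y => (H x).filter (fun v => G.Adj (c y) v)
      ∪ (X y).biUnion (fun z => L x y z) with hK
    have k1 : ∀ y ∈ A x, K y ⊆ H x ∧ CovN (N x y) (H x) (K y) := by
      intro y hy
      refine ⟨union_subset (filter_subset _ _) ?_, ?_⟩
      · rw [biUnion_subset]
        intro z hz
        obtain ⟨a, _⟩ := mem_filter.1 hz
        exact (hL x hx y hy z (mem_of_mem_erase a) (ne_of_mem_erase a).symm).1
      · intro p hp q hq hpq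
        rcases (hN x hx y hy).cov (hcm y) p hp q hq hpq with h | h
        · exact Or.inl (mem_union_left _ h)
        · exact Or.inr (mem_union_left _ h)
    have k2 : ∀ y ∈ A x, ∀ z ∈ A x, y ≠ z → ∀ p ∈ H x, ∀ q ∈ H x, (F x y z).Adj p q →
        p ∈ K y ∨ q ∈ K y ∨ p ∈ K z ∨ q ∈ K z := by
      intro y hy z hz hyz p hp q hq hpq
      by_cases had : G.Adj (c y) (c z)
      · have hcov := (hL x hx y hy z hz hyz).2 p hp q hq hpq
        rcases prH_or C hyz with ⟨h2, _⟩ | ⟨_, h2⟩
        · have h3 : z ∈ X y := mem_filter.2 ⟨mem_erase.2 ⟨hyz.symm, hz⟩, h2, had⟩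
          rcases hcov with h4 | h4
          · exact Or.inl (mem_union_right _ (mem_biUnion.2 ⟨z, h3, h4⟩))
          · exact Or.inr (Or.inl (mem_union_right _ (mem_biUnion.2 ⟨z, h3, h4⟩)))
        · have h3 : y ∈ X z := mem_filter.2 ⟨mem_erase.2 ⟨hyz, hy⟩, h2, had.symm⟩
          rw [hLs] at hcov
          rcases hcov with h4 | h4
          · exact Or.inr (Or.inr (Or.inl (mem_union_right _ (mem_biUnion.2 ⟨y, h3, h4⟩))))
          · exact Or.inr (Or.inr (Or.inr (mem_union_right _ (mem_biUnion.2 ⟨y, h3, h4⟩))))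
      · rcases hF x hx y hy z hz hyz p hp q hq hpq (c y) (hcm y) (c z) (hcm z) had
          with h4 | h4 | h4 | h4
        · exact Or.inl (mem_union_left _ (mem_filter.2 ⟨hp, h4.symm⟩))
        · exact Or.inr (Or.inl (mem_union_left _ (mem_filter.2 ⟨hq, h4.symm⟩)))
        · exact Or.inr (Or.inr (Or.inl (mem_union_left _ (mem_filter.2 ⟨hp, h4.symm⟩))))
        · exact Or.inr (Or.inr (Or.inr (mem_union_left _ (mem_filter.2 ⟨hq, h4.symm⟩))))
    refine (hW x hx K k1 k2).trans ?_
    rw [← sum_add_distrib]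
    refine sum_le_sum fun y hy => ?_
    have k3 : ((K y).card : ℚ) ≤ dg G (H x) (c y)
        + ∑ z ∈ (A x).erase y, (if prH C y z then
            ((L x y z).card : ℚ) * (if G.Adj (c y) (c z) then 1 else 0) else 0) := by
      have e1 : (K y).card ≤ dg G (H x) (c y) + ∑ z ∈ X y, (L x y z).card :=
        (card_union_le _ _).trans (Nat.add_le_add_left card_biUnion_le _)
      have e2 : ((∑ z ∈ X y, (L x y z).card : ℕ) : ℚ)
          = ∑ z ∈ (A x).erase y, (if prH C y z then
            ((L x y z).card : ℚ) * (if G.Adj (c y) (c z) then 1 else 0) else 0) := by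
        rw [Nat.cast_sum, hX, sum_filter]
        refine sum_congr rfl fun z _ => ?_
        by_cases a : prH C y z <;> by_cases b : G.Adj (c y) (c z) <;> simp [a, b]
      rw [← e2]
      exact_mod_cast e1
    have k4 := mul_le_mul_of_nonneg_left k3 (hc0 y).le
    rw [mul_add, mul_sum] at k4
    refine k4.trans (le_of_eq ?_)
    congr 1
    refine sum_congr rfl fun z _ => ?_
    split_ifs <;> ring
  -- the average
  have h2 : ∀ x ∈ I, P * W x ≤ P * (∑ y ∈ A x, ∑ a ∈ C y, (dg G (H x) a : ℚ)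
      + ∑ y ∈ A x, ∑ z ∈ (A x).erase y, (if prH C y z then
          ((L x y z).card : ℚ) / max ((C y).card : ℚ) (C z).card
            * ∑ a ∈ C y, (dg G (C z) a : ℚ) else 0)) := by
    intro x hx
    have g1 := sum_le_sum fun c hc => h1 x hx c hc
    rw [sum_const, nsmul_eq_mul, hPc, sum_add_distrib, sum_comm] at g1
    refine g1.trans (le_of_eq ?_)
    rw [mul_add]
    congr 1
    · rw [mul_sum]
      refine sum_congr rfl fun y _ => ?_
      rw [← mul_sum, tr_one C y (fun a => (dg G (H x) a : ℚ))]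
    · rw [sum_comm, mul_sum]
      refine sum_congr rfl fun y _ => ?_
      rw [sum_comm, mul_sum]
      refine sum_congr rfl fun z hz => ?_
      by_cases hpr : prH C y z
      · simp only [if_pos hpr]
        rw [← mul_sum, max_eq_right (by exact_mod_cast prH_le hpr)]
        have g2 := tr_two C (ne_of_mem_erase hz).symm (fun a b => if G.Adj a b then (1 : ℚ) else 0)
        have g3 : ∑ a ∈ C y, ∑ b ∈ C z, (if G.Adj a b then (1 : ℚ) else 0)
            = ∑ a ∈ C y, (dg G (C z) a : ℚ) := by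
          refine sum_congr rfl fun a _ => ?_
          unfold dg
          rw [card_filter]
          push_cast
          rfl
        rw [g3] at g2
        have g4 : ∑ c ∈ Fintype.piFinset C, (if G.Adj (c y) (c z) then (1 : ℚ) else 0)
            = P * ∑ a ∈ C y, (dg G (C z) a : ℚ) / ((C y).card * (C z).card) := by
          rw [← sum_div, ← mul_div_assoc, eq_div_iff (mul_pos (hc0 y) (hc0 z)).ne', mul_comm]
          exact g2
        rw [g4, ← sum_div]
        have g5 := (hc0 y).ne'
        have g6 := (hc0 z).ne'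
        field_simp
      · simp only [if_neg hpr]
        rw [sum_const_zero, mul_zero]
  have h3 : ∀ x ∈ I, W x ≤ ∑ y ∈ A x, ∑ a ∈ C y, (dg G (H x) a : ℚ)
      + ∑ y ∈ A x, ∑ z ∈ (A x).erase y, (if prH C y z then
          ((L x y z).card : ℚ) / max ((C y).card : ℚ) (C z).card
            * ∑ a ∈ C y, (dg G (C z) a : ℚ) else 0) :=
    fun x hx => le_of_mul_le_mul_left (h2 x hx) hP0
  -- symmetry
  have hsym : ∀ x, ∀ y z, ((L x y z).card : ℚ) / max ((C y).card : ℚ) (C z).card
      * ∑ a ∈ C y, (dg G (C z) a : ℚ) = ((L x z y).card : ℚ) / max ((C z).card : ℚ) (C y).card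
      * ∑ a ∈ C z, (dg G (C y) a : ℚ) := by
    intro x y z
    rw [hLs x y z, max_comm]
    congr 1
    have g1 : ∀ y z : ι, ∑ a ∈ C y, (dg G (C z) a : ℚ)
        = ∑ a ∈ C y, ∑ b ∈ C z, (if G.Adj a b then (1 : ℚ) else 0) := by
      intro y z
      refine sum_congr rfl fun a _ => ?_
      unfold dg
      rw [card_filter]
      push_cast
      rfl
    rw [g1, g1, sum_comm]
    refine sum_congr rfl fun a _ => sum_congr rfl fun b _ => ?_
    simp only [G.adj_comm]
  have h4 : ∀ x ∈ I, ∑ y ∈ A x, ∑ z ∈ (A x).erase y, (if prH C y z then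
          ((L x y z).card : ℚ) / max ((C y).card : ℚ) (C z).card
            * ∑ a ∈ C y, (dg G (C z) a : ℚ) else 0)
      = (1 / 2) * ∑ y ∈ A x, ∑ z ∈ (A x).erase y,
          ((L x y z).card : ℚ) / max ((C y).card : ℚ) (C z).card * ∑ c ∈ C y, (dg G (C z) c : ℚ) := by
    intro x _
    have g1 : ∑ y ∈ A x, ∑ z ∈ (A x).erase y, (if prH C y z then
          ((L x y z).card : ℚ) / max ((C y).card : ℚ) (C z).card
            * ∑ a ∈ C y, (dg G (C z) a : ℚ) else 0)
        = ∑ y ∈ A x, ∑ z ∈ (A x).erase y, (if prH C z y then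
          ((L x y z).card : ℚ) / max ((C y).card : ℚ) (C z).card
            * ∑ a ∈ C y, (dg G (C z) a : ℚ) else 0) := by
      rw [sum_comm' (t' := A x) (s' := fun z => (A x).erase z) (by
        intro y z
        simp only [mem_erase]
        tauto)]
      refine sum_congr rfl fun z _ => sum_congr rfl fun y _ => ?_
      split_ifs
      · exact hsym x y z
      · rfl
    have g2 : ∑ y ∈ A x, ∑ z ∈ (A x).erase y,
          ((L x y z).card : ℚ) / max ((C y).card : ℚ) (C z).card * ∑ c ∈ C y, (dg G (C z) c : ℚ)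
        = ∑ y ∈ A x, ∑ z ∈ (A x).erase y, (if prH C y z then
          ((L x y z).card : ℚ) / max ((C y).card : ℚ) (C z).card
            * ∑ a ∈ C y, (dg G (C z) a : ℚ) else 0)
          + ∑ y ∈ A x, ∑ z ∈ (A x).erase y, (if prH C z y then
          ((L x y z).card : ℚ) / max ((C y).card : ℚ) (C z).card
            * ∑ a ∈ C y, (dg G (C z) a : ℚ) else 0) := by
      rw [← sum_add_distrib]
      refine sum_congr rfl fun y _ => ?_
      rw [← sum_add_distrib]
      refine sum_congr rfl fun z hz => ?_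
      rcases prH_or C (ne_of_mem_erase hz).symm with ⟨a, b⟩ | ⟨a, b⟩
      · rw [if_pos a, if_neg b, add_zero]
      · rw [if_neg a, if_pos b, zero_add]
    rw [g2, ← g1]
    ring
  have h5 := sum_le_sum h3
  rw [sum_add_distrib, sum_congr rfl h4, ← mul_sum] at h5
  exact h5

end LemH

end Pool.Agent.Lib.MP_f04ccf_co
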