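import Pool.Agent.Lib.MP_f04ccf_co.M.StarX
import Pool.Agent.Lib.MP_f04ccf_co.M.Tau

/-!
MP_f04ccf_co: LEMMA J of helper92 (note 15619 (2)).  In a closed system fix pairwise non-adjacent
points `p y` in the class parts of all rows but `z`.  Every point `c` of the class part of `z` which
is adjacent to none of them sees every missing pair of a slot part `S x` which is seen by none of the
`p y`, `y ≠ x, z`.  So these pairs may be used as kills with fronts of two points each in the single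
row test at `z`; the points of the class part of `z` which are adjacent to some `p y` are lost.
-/

set_option autoImplicit false

namespace Pool.Agent.Lib.MP_f04ccf_co

open Finset

attribute [local instance] Classical.propDecidable

section LemJ

variable {V : Type*} {G : SimpleGraph V} {Z T : Finset V} {hm : V → V} {r m t : ℕ}

/-- **LEMMA J**: a point of the class part of `z` covers the pairs which the fixed transversal does
not see -/
theorem CSys.lemJ_cover (hF : PFrame G r m t Z T) {A : Finset V} {S : V → Finset V}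
    (h : CSys G Z T hm A S) {z : V} {p : V → V}
    (hp : ∀ y ∈ A.erase z, p y ∈ CP G Z T S y)
    (hi : ∀ y ∈ A.erase z, ∀ y' ∈ A.erase z, ¬ G.Adj (p y) (p y')) {x : V} (hx : x ∈ A.erase z)
    {c : V} (hc : c ∈ CP G Z T S z) (hcn : ∀ y ∈ (A.erase z).erase x, ¬ G.Adj (p y) c)
    {u v : V} (hu : u ∈ S x) (hv : v ∈ S x) (huv : (co G).Adj u v)
    (nu : ∀ y ∈ (A.erase z).erase x, ¬ G.Adj (p y) u ∧ ¬ G.Adj (p y) v) :
    G.Adj c u ∨ G.Adj c v := by
  have hxA := mem_of_mem_erase hx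
  have hxz := ne_of_mem_erase hx
  obtain ⟨hcS, hcC⟩ := mem_CP.1 hc
  have hBx : ∀ v w, v ∈ S x → w ≠ x → ends G T v = {x, w} → v ∈ BB G Z T := by
    intro v w hv hwx he
    rcases mem_MM.1 (h.slot x hxA hv) with h2 | h2
    · exfalso
      have hw : w ∈ ends G T v := by rw [he]; simp
      rcases (mem_Cl.1 h2).2 with h3 | ⟨-, h3⟩
      · rw [h3, hF.ends_T (h.sub hxA)] at hw
        simp at hw
      · rw [h3, mem_singleton] at hw
        exact hwx hw
    · exact (mem_Ph.1 h2).1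
  have hmem : ∀ y, y ∈ A.erase x → y ≠ z → y ∈ (A.erase z).erase x := fun y hy hyz =>
    mem_erase.2 ⟨ne_of_mem_erase hy, mem_erase.2 ⟨hyz, mem_of_mem_erase hy⟩⟩
  rcases h.closed x hxA u hu v hv huv with ⟨y, hy, h1⟩ | ⟨y, hy, y', hy', hyy, h1, h2⟩
  · by_cases hyz : y = z
    · rcases h1 c (hyz ▸ hcS) (hyz ▸ hcC) with h2 | h2
      · exact Or.inl h2.symm
      · exact Or.inr h2.symm
    · exfalso
      have hy2 := hmem y hy hyz
      obtain ⟨h3, h4⟩ := mem_CP.1 (hp y (mem_of_mem_erase hy2))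
      rcases h1 (p y) h3 h4 with h5 | h5
      · exact (nu y hy2).1 h5.symm
      · exact (nu y hy2).2 h5.symm
  · by_contra hcon
    push Not at hcon
    have hyT := h.sub (mem_of_mem_erase hy)
    have hyT' := h.sub (mem_of_mem_erase hy')
    have hub := hBx u y hu (ne_of_mem_erase hy) h1
    have hvb := hBx v y' hv (ne_of_mem_erase hy') h2
    by_cases hyz : y = z
    · -- `y = z`, the point `p y'`
      have hy2 := hmem y' hy' (fun h' => hyy (hyz.trans h'.symm))
      obtain ⟨h3, h4⟩ := mem_CP.1 (hp y' (mem_of_mem_erase hy2))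
      have h5 := hF.half hyT hyT' hyy (h.sub hxA) hub h1 hvb h2 huv.1 huv.2
        (c := c) (c' := p y') (by rw [hyz]; exact hcC) h4 (fun h' => hcon.1 h'.symm)
        (fun h' => hcon.2 h'.symm) (fun h' => (nu y' hy2).1 h'.symm)
        (fun h' => (nu y' hy2).2 h'.symm)
      exact hcn y' hy2 h5.symm
    · have hy2 := hmem y hy hyz
      obtain ⟨h3, h4⟩ := mem_CP.1 (hp y (mem_of_mem_erase hy2))
      by_cases hyz' : y' = z
      · have h5 := hF.half hyT hyT' hyy (h.sub hxA) hub h1 hvb h2 huv.1 huv.2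
          (c := p y) (c' := c) h4 (by rw [hyz']; exact hcC) (fun h' => (nu y hy2).1 h'.symm)
          (fun h' => (nu y hy2).2 h'.symm) (fun h' => hcon.1 h'.symm) (fun h' => hcon.2 h'.symm)
        exact hcn y hy2 h5
      · have hy3 := hmem y' hy' hyz'
        obtain ⟨h5, h6⟩ := mem_CP.1 (hp y' (mem_of_mem_erase hy3))
        have h7 := hF.half hyT hyT' hyy (h.sub hxA) hub h1 hvb h2 huv.1 huv.2
          (c := p y) (c' := p y') h4 h6 (fun h' => (nu y hy2).1 h'.symm)
          (fun h' => (nu y hy2).2 h'.symm) (fun h' => (nu y' hy3).1 h'.symm)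
          (fun h' => (nu y' hy3).2 h'.symm)
        exact hi y (mem_of_mem_erase hy2) y' (mem_of_mem_erase hy3) h7

variable (G Z T) in
/-- the missing pairs of `S x` which every point of the class part of `z` (away from the
neighbourhoods of the fixed points `p y`) has to cover: those served at `z` and those not seen by the
points `p y`, `y ≠ x, z` -/
def JPair (A : Finset V) (S : V → Finset V) (p : V → V) (z x u v : V) : Prop :=
  (co G).Adj u v ∧ ((∀ c ∈ CP G Z T S z, G.Adj c u ∨ G.Adj c v) ∨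
    ∀ y ∈ (A.erase z).erase x, ¬ G.Adj (p y) u ∧ ¬ G.Adj (p y) v)

/-- the cover number of the pairs `JPair` is at least `tau` minus the number of points seen by the
fixed transversal -/
theorem JPair.cov {A : Finset V} {S : V → Finset V} {p : V → V} {z x : V} {n : ℕ}
    (hn : ∀ X ⊆ S x, (∀ u ∈ S x, ∀ v ∈ S x, (co G).Adj u v → u ∈ X ∨ v ∈ X) → n ≤ X.card)
    {X : Finset V} (hX : X ⊆ S x)
    (hc : ∀ u ∈ S x, ∀ v ∈ S x, JPair G Z T A S p z x u v → u ∈ X ∨ v ∈ X) :
    n ≤ X.card + ((S x).filter fun v => ∃ y ∈ (A.erase z).erase x, G.Adj (p y) v).card := by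
  refine (hn (X ∪ (S x).filter fun v => ∃ y ∈ (A.erase z).erase x, G.Adj (p y) v)
    (union_subset hX (filter_subset _ _)) fun u hu v hv huv => ?_).trans (card_union_le _ _)
  by_cases hs : ∃ y ∈ (A.erase z).erase x, G.Adj (p y) u ∨ G.Adj (p y) v
  · obtain ⟨y, hy, h1 | h1⟩ := hs
    · exact Or.inl (mem_union_right _ (mem_filter.2 ⟨hu, y, hy, h1⟩))
    · exact Or.inr (mem_union_right _ (mem_filter.2 ⟨hv, y, hy, h1⟩))
  · push Not at hs
    rcases hc u hu v hv ⟨huv, Or.inr hs⟩ with h1 | h1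
    · exact Or.inl (mem_union_left _ h1)
    · exact Or.inr (mem_union_left _ h1)

/-- front of `2 k` points for `k` kills of the pairs `JPair` -/
theorem CSys.lemJ_front (hF : PFrame G r m t Z T) {A : Finset V} {S : V → Finset V}
    (h : CSys G Z T hm A S) {z : V} (hz : z ∈ A) {p : V → V}
    (hp : ∀ y ∈ A.erase z, p y ∈ CP G Z T S y)
    (hi : ∀ y ∈ A.erase z, ∀ y' ∈ A.erase z, ¬ G.Adj (p y) (p y')) {n : V → ℕ}
    (hn : ∀ x ∈ A.erase z, ∀ X ⊆ S x,
      (∀ u ∈ S x, ∀ v ∈ S x, JPair G Z T A S p z x u v → u ∈ X ∨ v ∈ X) → n x ≤ X.card) :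
    ∃ W : Finset V, Disjoint (S z) W ∧ W ⊆ (A.erase z).biUnion S ∧
      W.card ≤ 2 * ∑ x ∈ A.erase z, n x ∧ ∀ c ∈ CP G Z T S z,
        (∀ y ∈ A.erase z, ¬ G.Adj (p y) c) → ∑ x ∈ A.erase z, n x ≤ dg G W c := by
  have key : ∀ x, ∃ P : Finset V, x ∈ A.erase z → P ⊆ S x ∧ P.card ≤ 2 * n x ∧
      ∀ X : Finset V, (∀ u ∈ S x, ∀ v ∈ S x, JPair G Z T A S p z x u v → u ∈ X ∨ v ∈ X) →
        n x ≤ (X ∩ P).card := by
    intro x
    by_cases hx : x ∈ A.erase z
    · obtain ⟨P, h1, -, h2, h3⟩ := Tau.front_set_rel (S x) (JPair G Z T A S p z x) (n x)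
        (fun X hX hc => hn x hx X hX hc)
      exact ⟨P, fun _ => ⟨h1, h2, h3⟩⟩
    · exact ⟨∅, fun h' => absurd h' hx⟩
  choose P hP using key
  refine ⟨(A.erase z).biUnion P, ?_, ?_, ?_, ?_⟩
  · rw [disjoint_biUnion_right]
    intro x hx
    exact (h.disj hz (mem_of_mem_erase hx) (ne_of_mem_erase hx).symm).mono_right (hP x hx).1
  · exact biUnion_mono fun x hx => (hP x hx).1
  · rw [mul_sum]
    exact card_biUnion_le.trans (sum_le_sum fun x hx => (hP x hx).2.1)
  · intro c hc hcn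
    have h1 : dg G ((A.erase z).biUnion P) c = ∑ x ∈ A.erase z, dg G (P x) c := by
      unfold dg
      rw [filter_biUnion, card_biUnion]
      intro x hx x' hx' hxx
      refine disjoint_of_subset_left (filter_subset _ _)
        (disjoint_of_subset_right (filter_subset _ _) ?_)
      exact ((h.disj (mem_of_mem_erase hx) (mem_of_mem_erase hx') hxx).mono_left
        (hP x hx).1).mono_right (hP x' hx').1
    rw [h1]
    refine sum_le_sum fun x hx => ?_
    obtain ⟨-, -, h2⟩ := hP x hx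
    have h3 := h2 ((S x).filter fun v => G.Adj c v) (by
      rintro u hu v hv ⟨huv, h4 | h4⟩
      · rcases h4 c hc with h5 | h5
        · exact Or.inl (mem_filter.2 ⟨hu, h5⟩)
        · exact Or.inr (mem_filter.2 ⟨hv, h5⟩)
      · rcases h.lemJ_cover hF hp hi hx hc (fun y hy => hcn y (mem_of_mem_erase hy)) hu hv huv h4
          with h5 | h5
        · exact Or.inl (mem_filter.2 ⟨hu, h5⟩)
        · exact Or.inr (mem_filter.2 ⟨hv, h5⟩))
    refine h3.trans (card_le_card fun v hv => ?_)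
    obtain ⟨h4, h5⟩ := mem_inter.1 hv
    exact mem_filter.2 ⟨h5, (mem_filter.1 h4).2⟩

/-- **the single row test with LEMMA J**: `k` kills, fronts of `2 k` points, `delta` points of the
class part of `z` lost -/
theorem CSys.lemJ (hF : PFrame G r m t Z T) (hP : PG G r) {A : Finset V} {S : V → Finset V}
    (h : CSys G Z T hm A S) {z : V} (hz : z ∈ A) {p : V → V}
    (hp : ∀ y ∈ A.erase z, p y ∈ CP G Z T S y)
    (hi : ∀ y ∈ A.erase z, ∀ y' ∈ A.erase z, ¬ G.Adj (p y) (p y')) {n : V → ℕ}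
    (hn : ∀ x ∈ A.erase z, ∀ X ⊆ S x,
      (∀ u ∈ S x, ∀ v ∈ S x, JPair G Z T A S p z x u v → u ∈ X ∨ v ∈ X) → n x ≤ X.card)
    {k : ℕ} (hk : k = ∑ x ∈ A.erase z, n x) (hg : (1 : ℤ) ≤ 2 * ((S z).card - r + 1) + 2 * k) :
    2 * ((r : ℤ) - 1) * (((S z).card : ℤ) - r)
      + 2 * k * (((CP G Z T S z).card : ℤ)
        - ((CP G Z T S z).filter fun c => ∃ y ∈ A.erase z, G.Adj (p y) c).card)
      ≤ NE G (S z) + 4 * k * (((S z).card : ℤ) - r + 1) + 2 * k * (2 * k - 1) := by
  obtain ⟨W, hWd, -, hWc, hW⟩ := h.lemJ_front hF hz hp hi hn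
  rw [← hk] at hWc hW
  have h1 := h.row_load hF hP hz hWd
    (k := fun c => if ∃ y ∈ A.erase z, G.Adj (p y) c then (0 : ℤ) else k) (by
      intro c hc
      show (if ∃ y ∈ A.erase z, G.Adj (p y) c then (0 : ℤ) else k) ≤ dg G W c
      split_ifs with h2
      · positivity
      · push Not at h2
        exact_mod_cast hW c hc h2)
  have h2 : ∑ c ∈ CP G Z T S z, (if ∃ y ∈ A.erase z, G.Adj (p y) c then (0 : ℤ) else k)
      = k * (((CP G Z T S z).card : ℤ)
        - ((CP G Z T S z).filter fun c => ∃ y ∈ A.erase z, G.Adj (p y) c).card) := by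
    rw [sum_ite, sum_const_zero, zero_add, sum_const, nsmul_eq_mul]
    have h3 := card_filter_add_card_filter_not (s := CP G Z T S z)
      (fun c => ∃ y ∈ A.erase z, G.Adj (p y) c)
    have h4 : (((CP G Z T S z).filter fun c => ¬ ∃ y ∈ A.erase z, G.Adj (p y) c).card : ℤ)
        = (CP G Z T S z).card
          - ((CP G Z T S z).filter fun c => ∃ y ∈ A.erase z, G.Adj (p y) c).card := by
      have : (((CP G Z T S z).filter fun c => ∃ y ∈ A.erase z, G.Adj (p y) c).card : ℤ)
          + ((CP G Z T S z).filter fun c => ¬ ∃ y ∈ A.erase z, G.Adj (p y) c).card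
          = (CP G Z T S z).card := by exact_mod_cast h3
      linarith
    rw [h4]
    ring
  rw [h2] at h1
  have h5 : (0 : ℤ) ≤ ∑ v ∈ W, (dg G (HP G Z T S z) v : ℤ) := by positivity
  have h6 : (NE G W : ℤ) ≤ W.card * (W.card - 1) := by
    have h7 := NE_le (G := G) W
    rcases Nat.eq_zero_or_pos W.card with h8 | h8
    · rw [h8] at h7 ⊢
      simp at h7 ⊢
      omega
    · have h9 : ((W.card - 1 : ℕ) : ℤ) = (W.card : ℤ) - 1 := by
        push_cast [Nat.cast_sub h8]
        ring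
      have h10 : (NE G W : ℤ) ≤ ((W.card * (W.card - 1) : ℕ) : ℤ) := by exact_mod_cast h7
      rw [Nat.cast_mul, h9] at h10
      exact h10
  have h7 : (W.card : ℤ) ≤ 2 * k := by exact_mod_cast hWc
  have h8 : (0 : ℤ) ≤ W.card := by positivity
  have h9 : (0 : ℤ) ≤ (2 * k - W.card) * (2 * (((S z).card : ℤ) - r + 1) + 2 * k + W.card - 1) :=
    mul_nonneg (by linarith) (by linarith)
  nlinarith

/-- the row test with a front `W` of `k` kills, the points of `N(p)` lost, `NE G W` kept -/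
theorem CSys.lemJ_ne (hF : PFrame G r m t Z T) (hP : PG G r) {A : Finset V} {S : V → Finset V}
    (h : CSys G Z T hm A S) {z : V} (hz : z ∈ A) {p : V → V} {W : Finset V}
    (hWd : Disjoint (S z) W) {k : ℕ}
    (hW : ∀ c ∈ CP G Z T S z, (∀ y ∈ A.erase z, ¬ G.Adj (p y) c) → k ≤ dg G W c) :
    2 * ((r : ℤ) - 1) * (((S z).card : ℤ) - r)
      + 2 * k * (((CP G Z T S z).card : ℤ)
        - ((CP G Z T S z).filter fun c => ∃ y ∈ A.erase z, G.Adj (p y) c).card)
      + 2 * ∑ v ∈ W, (dg G (HP G Z T S z) v : ℤ)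
      ≤ NE G (S z) + NE G W + 2 * W.card * (((S z).card : ℤ) - r + 1) := by
  have h1 := h.row_load hF hP hz hWd
    (k := fun c => if ∃ y ∈ A.erase z, G.Adj (p y) c then (0 : ℤ) else k) (by
      intro c hc
      show (if ∃ y ∈ A.erase z, G.Adj (p y) c then (0 : ℤ) else k) ≤ dg G W c
      split_ifs with h2
      · positivity
      · push Not at h2
        exact_mod_cast hW c hc h2)
  have h2 : ∑ c ∈ CP G Z T S z, (if ∃ y ∈ A.erase z, G.Adj (p y) c then (0 : ℤ) else k)
      = k * (((CP G Z T S z).card : ℤ)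
        - ((CP G Z T S z).filter fun c => ∃ y ∈ A.erase z, G.Adj (p y) c).card) := by
    rw [sum_ite, sum_const_zero, zero_add, sum_const, nsmul_eq_mul]
    have h3 := card_filter_add_card_filter_not (s := CP G Z T S z)
      (fun c => ∃ y ∈ A.erase z, G.Adj (p y) c)
    have h4 : (((CP G Z T S z).filter fun c => ¬ ∃ y ∈ A.erase z, G.Adj (p y) c).card : ℤ)
        = (CP G Z T S z).card
          - ((CP G Z T S z).filter fun c => ∃ y ∈ A.erase z, G.Adj (p y) c).card := by
      have : (((CP G Z T S z).filter fun c => ∃ y ∈ A.erase z, G.Adj (p y) c).card : ℤ)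
          + ((CP G Z T S z).filter fun c => ¬ ∃ y ∈ A.erase z, G.Adj (p y) c).card
          = (CP G Z T S z).card := by exact_mod_cast h3
      linarith
    rw [h4]
    ring
  rw [h2] at h1
  linarith

/-- front of at most `2 k` points when the pairs `JPair` of ALL the other slot parts together have
cover number at least `k` -/
theorem CSys.lemJ_frontU (hF : PFrame G r m t Z T) {A : Finset V} {S : V → Finset V}
    (h : CSys G Z T hm A S) {z : V} (hz : z ∈ A) {p : V → V}
    (hp : ∀ y ∈ A.erase z, p y ∈ CP G Z T S y)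
    (hi : ∀ y ∈ A.erase z, ∀ y' ∈ A.erase z, ¬ G.Adj (p y) (p y')) {k : ℕ}
    (hk : ∀ X ⊆ (A.erase z).biUnion S,
      (∀ x ∈ A.erase z, ∀ u ∈ S x, ∀ v ∈ S x, JPair G Z T A S p z x u v → u ∈ X ∨ v ∈ X) →
        k ≤ X.card) :
    ∃ W : Finset V, Disjoint (S z) W ∧ W ⊆ (A.erase z).biUnion S ∧ W.card ≤ 2 * k ∧
      ∀ c ∈ CP G Z T S z, (∀ y ∈ A.erase z, ¬ G.Adj (p y) c) → k ≤ dg G W c := by
  obtain ⟨P, h1, -, h2, h3⟩ := Tau.front_set_rel ((A.erase z).biUnion S)
    (fun u v => ∃ x ∈ A.erase z, u ∈ S x ∧ v ∈ S x ∧ JPair G Z T A S p z x u v) k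
    (fun X hX hc => hk X hX fun x hx u hu v hv huv => hc u (mem_biUnion.2 ⟨x, hx, hu⟩) v
      (mem_biUnion.2 ⟨x, hx, hv⟩) ⟨x, hx, hu, hv, huv⟩)
  refine ⟨P, ?_, h1, h2, fun c hc hcn => ?_⟩
  · refine Disjoint.mono_right h1 ?_
    rw [disjoint_biUnion_right]
    exact fun x hx => h.disj hz (mem_of_mem_erase hx) (ne_of_mem_erase hx).symm
  · have h4 := h3 (((A.erase z).biUnion S).filter fun v => G.Adj c v) (by
      rintro u hu v hv ⟨x, hx, hux, hvx, huv, h4 | h4⟩
      · rcases h4 c hc with h5 | h5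
        · exact Or.inl (mem_filter.2 ⟨hu, h5⟩)
        · exact Or.inr (mem_filter.2 ⟨hv, h5⟩)
      · rcases h.lemJ_cover hF hp hi hx hc (fun y hy => hcn y (mem_of_mem_erase hy)) hux hvx huv h4
          with h5 | h5
        · exact Or.inl (mem_filter.2 ⟨hu, h5⟩)
        · exact Or.inr (mem_filter.2 ⟨hv, h5⟩))
    refine h4.trans (card_le_card fun v hv => ?_)
    obtain ⟨h5, h6⟩ := mem_inter.1 hv
    exact mem_filter.2 ⟨h6, (mem_filter.1 h5).2⟩

end LemJ

end Pool.Agent.Lib.MP_f04ccf_co
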