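import Pool.Agent.Lib.MP_f04ccf_co.Basic

/-!
MP_f04ccf_co: LEMMA L, location by a cheapest transversal (second form of (E5)).  Rows `Y`, columns
`C z`, cost sets `K z c` with `|K z c| ≤ a z c`, correction sets `U y z c d` of the cells with
`|U y z c d| ≤ g y z c d`, both symmetric.  Every transversal `J` gives a cover `D J` inside the union
of its cost sets and correction sets with at most `o J` points, and a point `v ∉ D J` has `d v ≤ |D J|`.
For bounds `lam ≥ 0` of the multipliers let `J` minimise `o J` plus the averages of the cells at its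
points, weighted with `1 + lam`.  Then the points which only the row `z` of `J` sees are located at `z`:
a column of `C z` which misses one of them pays `mu z ≤ lam z` (chosen after `J`) for every missed point,
and this is summed over all rows.
-/

set_option autoImplicit false

namespace Pool.Agent.Lib.MP_f04ccf_co

open Finset

attribute [local instance] Classical.propDecidable

section LemL

variable {ι V P : Type*}

/-- average of the cell costs at the point `c` of the row `y` over the row `z` -/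
noncomputable def gav (C : ι → Finset V) (g : ι → ι → V → V → ℕ) (y z : ι) (c : V) : ℚ :=
  (∑ d ∈ C z, (g y z c d : ℚ)) / (C z).card

/-- twice the cost of a transversal -/
noncomputable def o2 (Y : Finset ι) (a : ι → V → ℕ) (g : ι → ι → V → V → ℕ) (J : ι → V) : ℚ :=
  2 * ∑ z ∈ Y, (a z (J z) : ℚ) + ∑ z ∈ Y, ∑ y ∈ Y.erase z, (g y z (J y) (J z) : ℚ)

/-- the weighted averages of the cells at the points of a transversal -/
noncomputable def th (Y : Finset ι) (C : ι → Finset V) (g : ι → ι → V → V → ℕ) (lam : ι → ℚ)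
    (z : ι) (c : V) : ℚ :=
  ∑ y ∈ Y.erase z, (1 + lam y) * gav C g z y c

/-- the function which is minimised (twice) -/
noncomputable def F2 (Y : Finset ι) (C : ι → Finset V) (a : ι → V → ℕ) (g : ι → ι → V → V → ℕ)
    (lam : ι → ℚ) (J : ι → V) : ℚ :=
  o2 Y a g J + 2 * ∑ z ∈ Y, th Y C g lam z (J z)

lemma gav_nonneg (C : ι → Finset V) (g : ι → ι → V → V → ℕ) (y z : ι) (c : V) :
    0 ≤ gav C g y z c := by
  unfold gav
  positivity

/-- splitting off one row of a double sum -/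
lemma dsum_split {Y : Finset ι} {h : ι → ι → ℚ} (hs : ∀ y z, h y z = h z y) {w : ι} (hw : w ∈ Y) :
    ∑ z ∈ Y, ∑ y ∈ Y.erase z, h y z
      = 2 * ∑ y ∈ Y.erase w, h y w + ∑ z ∈ Y.erase w, ∑ y ∈ (Y.erase w).erase z, h y z := by
  rw [← add_sum_erase Y _ hw]
  have h1 : ∀ z ∈ Y.erase w, ∑ y ∈ Y.erase z, h y z
      = h w z + ∑ y ∈ (Y.erase w).erase z, h y z := by
    intro z hz
    have h2 : w ∈ Y.erase z := mem_erase.2 ⟨(ne_of_mem_erase hz).symm, hw⟩
    rw [← add_sum_erase (Y.erase z) _ h2, erase_right_comm]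
  rw [sum_congr rfl h1, sum_add_distrib]
  have h3 : ∑ z ∈ Y.erase w, h w z = ∑ y ∈ Y.erase w, h y w :=
    sum_congr rfl fun z _ => hs w z
  rw [h3]
  ring

variable {Y : Finset ι} {C : ι → Finset V} {a : ι → V → ℕ} {g : ι → ι → V → V → ℕ} {lam : ι → ℚ}

/-- the cost after changing one row -/
lemma o2_update (hg : ∀ y z c d, g y z c d = g z y d c) (J : ι → V) {w : ι} (hw : w ∈ Y) (c : V) :
    o2 Y a g (Function.update J w c) = o2 Y a g J + 2 * ((a w c : ℚ) - a w (J w))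
      + 2 * (∑ y ∈ Y.erase w, (g y w (J y) c : ℚ) - ∑ y ∈ Y.erase w, (g y w (J y) (J w) : ℚ)) := by
  have e1 : Function.update J w c w = c := Function.update_self _ _ _
  have e2 : ∀ y ∈ Y.erase w, Function.update J w c y = J y := fun y hy =>
    Function.update_of_ne (ne_of_mem_erase hy) _ _
  unfold o2
  rw [dsum_split (h := fun y z => (g y z (Function.update J w c y) (Function.update J w c z) : ℚ))
      (fun y z => by rw [hg]) hw,
    dsum_split (h := fun y z => (g y z (J y) (J z) : ℚ)) (fun y z => by rw [hg]) hw,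
    ← add_sum_erase Y (fun z => (a z (Function.update J w c z) : ℚ)) hw,
    ← add_sum_erase Y (fun z => (a z (J z) : ℚ)) hw]
  have s1 : ∑ z ∈ Y.erase w, (a z (Function.update J w c z) : ℚ) = ∑ z ∈ Y.erase w, (a z (J z) : ℚ) :=
    sum_congr rfl fun z hz => by rw [e2 z hz]
  have s2 : ∑ y ∈ Y.erase w, (g y w (Function.update J w c y) c : ℚ)
      = ∑ y ∈ Y.erase w, (g y w (J y) c : ℚ) := sum_congr rfl fun y hy => by rw [e2 y hy]
  have s3 : ∑ z ∈ Y.erase w, ∑ y ∈ (Y.erase w).erase z,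
      (g y z (Function.update J w c y) (Function.update J w c z) : ℚ)
      = ∑ z ∈ Y.erase w, ∑ y ∈ (Y.erase w).erase z, (g y z (J y) (J z) : ℚ) :=
    sum_congr rfl fun z hz => sum_congr rfl fun y hy => by
      rw [e2 z hz, e2 y (mem_of_mem_erase hy)]
  simp only [e1, s1, s2, s3]
  ring

/-- the minimised function after changing one row -/
lemma F2_update (hg : ∀ y z c d, g y z c d = g z y d c) (J : ι → V) {w : ι} (hw : w ∈ Y) (c : V) :
    F2 Y C a g lam (Function.update J w c) = F2 Y C a g lam J + 2 * ((a w c : ℚ) - a w (J w))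
      + 2 * (∑ y ∈ Y.erase w, (g y w (J y) c : ℚ) - ∑ y ∈ Y.erase w, (g y w (J y) (J w) : ℚ))
      + 2 * (th Y C g lam w c - th Y C g lam w (J w)) := by
  have e1 : Function.update J w c w = c := Function.update_self _ _ _
  unfold F2
  rw [o2_update hg J hw c, ← add_sum_erase Y (fun z => th Y C g lam z (Function.update J w c z)) hw,
    ← add_sum_erase Y (fun z => th Y C g lam z (J z)) hw]
  have s1 : ∑ z ∈ Y.erase w, th Y C g lam z (Function.update J w c z)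
      = ∑ z ∈ Y.erase w, th Y C g lam z (J z) :=
    sum_congr rfl fun z hz => by rw [Function.update_of_ne (ne_of_mem_erase hz)]
  simp only [s1, e1]
  ring

/-- a cheapest transversal exists -/
lemma exists_minJ {c₀ : ι → V} (h₀ : ∀ z ∈ Y, c₀ z ∈ C z) (F : (ι → V) → ℚ)
    (hF : ∀ J J', (∀ z ∈ Y, J z = J' z) → F J = F J') :
    ∃ J : ι → V, (∀ z ∈ Y, J z ∈ C z) ∧ ∀ J' : ι → V, (∀ z ∈ Y, J' z ∈ C z) → F J ≤ F J' := by
  set ex : ((z : ι) → z ∈ Y → V) → ι → V := fun j z => if h : z ∈ Y then j z h else c₀ z with hex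
  have hex1 : ∀ (j : (z : ι) → z ∈ Y → V) (z : ι) (hz : z ∈ Y), ex j z = j z hz := by
    intro j z hz
    simp only [hex, hz, dif_pos]
  have hne : (Y.pi C).Nonempty := ⟨fun z _ => c₀ z, mem_pi.2 fun z hz => h₀ z hz⟩
  obtain ⟨j, hj, hmin⟩ := exists_min_image (Y.pi C) (fun j => F (ex j)) hne
  refine ⟨ex j, fun z hz => ?_, fun J' hJ' => ?_⟩
  · rw [hex1 j z hz]
    exact mem_pi.1 hj z hz
  · have h1 := hmin (fun z _ => J' z) (mem_pi.2 fun z hz => hJ' z hz)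
    refine h1.trans (le_of_eq (hF _ _ fun z hz => ?_))
    exact hex1 (fun z _ => J' z) z hz

/-- the general form of the minimised function (twice): any weights `T` of single points -/
noncomputable def FT (Y : Finset ι) (a : ι → V → ℕ) (g : ι → ι → V → V → ℕ) (T : ι → V → ℚ)
    (J : ι → V) : ℚ :=
  o2 Y a g J + 2 * ∑ z ∈ Y, T z (J z)

/-- the general function after changing one row -/
lemma FT_update {T : ι → V → ℚ} (hg : ∀ y z c d, g y z c d = g z y d c) (J : ι → V) {w : ι}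
    (hw : w ∈ Y) (c : V) :
    FT Y a g T (Function.update J w c) = FT Y a g T J + 2 * ((a w c : ℚ) - a w (J w))
      + 2 * (∑ y ∈ Y.erase w, (g y w (J y) c : ℚ) - ∑ y ∈ Y.erase w, (g y w (J y) (J w) : ℚ))
      + 2 * (T w c - T w (J w)) := by
  have e1 : Function.update J w c w = c := Function.update_self _ _ _
  unfold FT
  rw [o2_update hg J hw c, ← add_sum_erase Y (fun z => T z (Function.update J w c z)) hw,
    ← add_sum_erase Y (fun z => T z (J z)) hw]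
  have s1 : ∑ z ∈ Y.erase w, T z (Function.update J w c z) = ∑ z ∈ Y.erase w, T z (J z) :=
    sum_congr rfl fun z hz => by rw [Function.update_of_ne (ne_of_mem_erase hz)]
  simp only [s1, e1]
  ring

/-- number of located points which the cells at `c` take away -/
noncomputable def kc (Y : Finset ι) (K : ι → V → Finset P) (U : ι → ι → V → V → Finset P)
    (J : ι → V) (W : ι → Finset P) (z : ι) (c : V) : ℕ :=
  ∑ y ∈ Y.erase z, ((U y z (J y) c) ∩ ((W z) \ (K z c))).card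

/-- from the inequality of one column to the sum over the rows -/
lemma key_sum {T : ι → V → ℚ} {J : ι → V} (hJ : ∀ z ∈ Y, J z ∈ C z) {K : ι → V → Finset P}
    {U : ι → ι → V → V → Finset P} {W : ι → Finset P} {mu : ι → ℚ}
    (key : ∀ z ∈ Y, ∀ c ∈ C z, mu z * (((W z) \ (K z c)).card : ℚ)
      ≤ ((a z c : ℚ) - a z (J z)) + (∑ y ∈ Y.erase z, (g y z (J y) c : ℚ)
        - ∑ y ∈ Y.erase z, (g y z (J y) (J z) : ℚ)) + (T z c - T z (J z))
        + mu z * (kc Y K U J W z c : ℚ)) :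
    ∑ z ∈ Y, (a z (J z) : ℚ) + ∑ z ∈ Y, ∑ y ∈ Y.erase z, (g y z (J y) (J z) : ℚ)
        + ∑ z ∈ Y, mu z * ((∑ c ∈ C z, (((W z) \ (K z c)).card : ℚ)) / (C z).card)
        + ∑ z ∈ Y, T z (J z)
      ≤ ∑ z ∈ Y, (∑ c ∈ C z, (a z c : ℚ)) / (C z).card
        + ∑ z ∈ Y, (∑ c ∈ C z, T z c) / (C z).card
        + ∑ z ∈ Y, ∑ y ∈ Y.erase z, gav C g y z (J y)
        + ∑ z ∈ Y, mu z * ((∑ c ∈ C z, (kc Y K U J W z c : ℚ)) / (C z).card) := by
  have avg : ∀ z ∈ Y, mu z * ((∑ c ∈ C z, (((W z) \ (K z c)).card : ℚ)) / (C z).card)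
      ≤ ((∑ c ∈ C z, (a z c : ℚ)) / (C z).card - a z (J z))
        + (∑ y ∈ Y.erase z, gav C g y z (J y) - ∑ y ∈ Y.erase z, (g y z (J y) (J z) : ℚ))
        + ((∑ c ∈ C z, T z c) / (C z).card - T z (J z))
        + mu z * ((∑ c ∈ C z, (kc Y K U J W z c : ℚ)) / (C z).card) := by
    intro z hz
    have hc0 : (0 : ℚ) < (C z).card := by exact_mod_cast card_pos.2 ⟨_, hJ z hz⟩
    have h1 := sum_le_sum fun c hc => key z hz c hc
    rw [← mul_sum] at h1
    simp only [sum_add_distrib, sum_sub_distrib, sum_const, nsmul_eq_mul, ← mul_sum] at h1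
    have g1 : ∑ c ∈ C z, ∑ y ∈ Y.erase z, (g y z (J y) c : ℚ)
        = (C z).card * ∑ y ∈ Y.erase z, gav C g y z (J y) := by
      rw [sum_comm, mul_sum]
      refine sum_congr rfl fun y _ => ?_
      unfold gav
      rw [mul_div_cancel₀ _ hc0.ne']
    rw [g1] at h1
    have m1 : ∑ c ∈ C z, (((W z) \ (K z c)).card : ℚ)
        = (C z).card * ((∑ c ∈ C z, (((W z) \ (K z c)).card : ℚ)) / (C z).card) :=
      (mul_div_cancel₀ _ hc0.ne').symm
    have m2 : ∑ c ∈ C z, (a z c : ℚ) = (C z).card * ((∑ c ∈ C z, (a z c : ℚ)) / (C z).card) :=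
      (mul_div_cancel₀ _ hc0.ne').symm
    have m3 : ∑ c ∈ C z, T z c = (C z).card * ((∑ c ∈ C z, T z c) / (C z).card) :=
      (mul_div_cancel₀ _ hc0.ne').symm
    have m4 : ∑ c ∈ C z, (kc Y K U J W z c : ℚ)
        = (C z).card * ((∑ c ∈ C z, (kc Y K U J W z c : ℚ)) / (C z).card) :=
      (mul_div_cancel₀ _ hc0.ne').symm
    rw [m1, m2, m3, m4] at h1
    generalize (∑ c ∈ C z, (((W z) \ (K z c)).card : ℚ)) / (C z).card = m' at h1 ⊢
    generalize (∑ c ∈ C z, (a z c : ℚ)) / (C z).card = a' at h1 ⊢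
    generalize (∑ c ∈ C z, T z c) / (C z).card = t' at h1 ⊢
    generalize (∑ c ∈ C z, (kc Y K U J W z c : ℚ)) / (C z).card = k' at h1 ⊢
    refine le_of_mul_le_mul_left ?_ hc0
    linarith
  have tot := sum_le_sum avg
  simp only [sum_add_distrib, sum_sub_distrib] at tot
  linarith

/-- a cheapest transversal for the general function -/
lemma exists_minFT (T : ι → V → ℚ) {c₀ : ι → V} (h₀ : ∀ z ∈ Y, c₀ z ∈ C z) :
    ∃ J : ι → V, (∀ z ∈ Y, J z ∈ C z) ∧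
      ∀ J' : ι → V, (∀ z ∈ Y, J' z ∈ C z) → FT Y a g T J ≤ FT Y a g T J' :=
  exists_minJ h₀ (FT Y a g T) (fun J J' h => by
    unfold FT o2
    have s1 : ∑ z ∈ Y, (a z (J z) : ℚ) = ∑ z ∈ Y, (a z (J' z) : ℚ) :=
      sum_congr rfl fun z hz => by rw [h z hz]
    have s2 : ∑ z ∈ Y, ∑ y ∈ Y.erase z, (g y z (J y) (J z) : ℚ)
        = ∑ z ∈ Y, ∑ y ∈ Y.erase z, (g y z (J' y) (J' z) : ℚ) :=
      sum_congr rfl fun z hz => sum_congr rfl fun y hy => by
        rw [h z hz, h y (mem_of_mem_erase hy)]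
    have s3 : ∑ z ∈ Y, T z (J z) = ∑ z ∈ Y, T z (J' z) :=
      sum_congr rfl fun z hz => by rw [h z hz]
    rw [s1, s2, s3])

/-- a located point which the column `c` misses stays outside the new cover -/
lemma notMem_update {K : ι → V → Finset P} {U : ι → ι → V → V → Finset P}
    {D : (ι → V) → Finset P}
    (hDm : ∀ J : ι → V, (∀ z ∈ Y, J z ∈ C z) → ∀ v ∈ D J, (∃ z ∈ Y, v ∈ K z (J z)) ∨
      ∃ z ∈ Y, ∃ y ∈ Y.erase z, v ∈ U y z (J y) (J z))
    (hUs : ∀ y z c e, U y z c e = U z y e c) {J : ι → V} (hJ : ∀ z ∈ Y, J z ∈ C z) {z : ι} {c : V}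
    (hc : c ∈ C z) {v : P} (w2 : ∀ y ∈ Y.erase z, v ∉ K y (J y))
    (w3 : ∀ y ∈ Y.erase z, ∀ y' ∈ (Y.erase z).erase y, v ∉ U y' y (J y') (J y))
    (hv2 : v ∉ K z c) (hvU : ∀ y ∈ Y.erase z, v ∉ U y z (J y) c) :
    v ∉ D (Function.update J z c) := by
  set J' := Function.update J z c with hJ'
  have e1 : J' z = c := Function.update_self _ _ _
  have e2 : ∀ y, y ≠ z → J' y = J y := fun y hy => Function.update_of_ne hy _ _
  have hJ'C : ∀ y ∈ Y, J' y ∈ C y := by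
    intro y hy
    by_cases h : y = z
    · rw [h, e1]
      exact hc
    · rw [e2 y h]
      exact hJ y hy
  intro h
  rcases hDm J' hJ'C v h with ⟨y, hy, h3⟩ | ⟨y, hy, y', hy', h3⟩
  · by_cases h4 : y = z
    · rw [h4, e1] at h3
      exact hv2 h3
    · rw [e2 y h4] at h3
      exact w2 y (mem_erase.2 ⟨h4, hy⟩) h3
  · have hy'Y := mem_of_mem_erase hy'
    have hne := ne_of_mem_erase hy'
    by_cases h4 : y = z
    · have h5 : y' ≠ z := fun h => hne (h.trans h4.symm)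
      rw [h4, e1, e2 y' h5] at h3
      exact hvU y' (mem_erase.2 ⟨h5, hy'Y⟩) h3
    · by_cases h5 : y' = z
      · rw [h5, e1, e2 y h4, hUs] at h3
        exact hvU y (mem_erase.2 ⟨h4, hy⟩) h3
      · rw [e2 y h4, e2 y' h5] at h3
        exact w3 y (mem_erase.2 ⟨h4, hy⟩) y' (mem_erase.2 ⟨hne, mem_erase.2 ⟨h5, hy'Y⟩⟩) h3

/-- **LEMMA L, general form** (note 16052): `T z c` are arbitrary weights of single points in the
minimised function, the cells of a row at the points of `J` stay explicit. -/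
theorem lemL_gen (T : ι → V → ℚ) {c₀ : ι → V} (h₀ : ∀ z ∈ Y, c₀ z ∈ C z)
    (hg : ∀ y z c d, g y z c d = g z y d c)
    {X : Finset P} {d : P → ℚ} {K : ι → V → Finset P}
    {U : ι → ι → V → V → Finset P} {D : (ι → V) → Finset P}
    (hDm : ∀ J : ι → V, (∀ z ∈ Y, J z ∈ C z) → ∀ v ∈ D J, (∃ z ∈ Y, v ∈ K z (J z)) ∨
      ∃ z ∈ Y, ∃ y ∈ Y.erase z, v ∈ U y z (J y) (J z))
    (hUs : ∀ y z c e, U y z c e = U z y e c)
    (hDo : ∀ J : ι → V, (∀ z ∈ Y, J z ∈ C z) → 2 * ((D J).card : ℚ) ≤ o2 Y a g J)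
    (hDd : ∀ J : ι → V, (∀ z ∈ Y, J z ∈ C z) → ∀ v ∈ X, v ∉ D J → d v ≤ (D J).card) :
    ∃ J : ι → V, (∀ z ∈ Y, J z ∈ C z) ∧
      (∀ J' : ι → V, (∀ z ∈ Y, J' z ∈ C z) → FT Y a g T J ≤ FT Y a g T J') ∧
      ∀ (W : ι → Finset P) (mu : ι → ℚ),
      (∀ z ∈ Y, 0 ≤ mu z) →
      (∀ z ∈ Y, ∀ v ∈ W z, v ∈ X ∧ (∀ y ∈ Y.erase z, v ∉ K y (J y)) ∧
        (∀ y ∈ Y.erase z, ∀ y' ∈ (Y.erase z).erase y, v ∉ U y' y (J y') (J y)) ∧
        ∀ c ∈ C z, v ∉ K z c → 2 * (mu z * ((W z) \ (K z c)).card + T z (J z))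
          + o2 Y a g J ≤ 2 * d v + 2 * T z c) →
      ∑ z ∈ Y, (a z (J z) : ℚ) + ∑ z ∈ Y, ∑ y ∈ Y.erase z, (g y z (J y) (J z) : ℚ)
        + ∑ z ∈ Y, mu z * ((∑ c ∈ C z, (((W z) \ (K z c)).card : ℚ)) / (C z).card)
        + ∑ z ∈ Y, T z (J z)
      ≤ ∑ z ∈ Y, (∑ c ∈ C z, (a z c : ℚ)) / (C z).card
        + ∑ z ∈ Y, (∑ c ∈ C z, T z c) / (C z).card
        + ∑ z ∈ Y, ∑ y ∈ Y.erase z, gav C g y z (J y)
        + ∑ z ∈ Y, mu z * ((∑ c ∈ C z, (kc Y K U J W z c : ℚ)) / (C z).card) := by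
  obtain ⟨J, hJ, hmin⟩ := exists_minFT (C := C) (a := a) (g := g) T h₀
  refine ⟨J, hJ, hmin, fun W mu hmu hW => key_sum hJ fun z hz c hc => ?_⟩
  have hJ'C : ∀ y ∈ Y, Function.update J z c y ∈ C y := by
    intro y hy
    by_cases h : y = z
    · rw [h, Function.update_self]
      exact hc
    · rw [Function.update_of_ne h]
      exact hJ y hy
  have h1 := hmin _ hJ'C
  rw [FT_update hg J hz c] at h1
  by_cases hbad : ∃ v ∈ (W z) \ (K z c), ∀ y ∈ Y.erase z, v ∉ U y z (J y) c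
  · obtain ⟨v, hv, hvU⟩ := hbad
    obtain ⟨hv1, hv2⟩ := mem_sdiff.1 hv
    obtain ⟨w1, w2, w3, w4'⟩ := hW z hz v hv1
    have w4 := w4' c hc hv2
    have hvD := notMem_update hDm hUs hJ hc w2 w3 hv2 hvU
    have h2 := hDd _ hJ'C v w1 hvD
    have h3 := hDo _ hJ'C
    rw [o2_update hg J hz c] at h3
    have h7 := mul_nonneg (hmu z hz) (Nat.cast_nonneg (α := ℚ) (kc Y K U J W z c))
    linarith
  · push Not at hbad
    have h2 : ((W z) \ (K z c)).card ≤ kc Y K U J W z c := by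
      have h3 : (W z) \ (K z c) ⊆ (Y.erase z).biUnion
          (fun y => (U y z (J y) c) ∩ ((W z) \ (K z c))) := by
        intro v hv
        obtain ⟨y, hy, h4⟩ := hbad v hv
        exact mem_biUnion.2 ⟨y, hy, mem_inter.2 ⟨h4, hv⟩⟩
      exact (card_le_card h3).trans card_biUnion_le
    have h3 : (((W z) \ (K z c)).card : ℚ) ≤ (kc Y K U J W z c : ℚ) := by
      exact_mod_cast h2
    have h4 := mul_le_mul_of_nonneg_left h3 (hmu z hz)
    linarith

/-- what the other rows and their cells see at the transversal `J` -/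
noncomputable def Rz (Y : Finset ι) (K : ι → V → Finset P) (U : ι → ι → V → V → Finset P)
    (J : ι → V) (z : ι) : Finset P :=
  ((Y.erase z).biUnion fun y => K y (J y)) ∪
    (Y.erase z).biUnion fun y => ((Y.erase z).erase y).biUnion fun y' => U y' y (J y') (J y)

lemma mem_Rz {K : ι → V → Finset P} {U : ι → ι → V → V → Finset P} {J : ι → V} {z : ι} {v : P} :
    v ∈ Rz Y K U J z ↔ (∃ y ∈ Y.erase z, v ∈ K y (J y)) ∨
      ∃ y ∈ Y.erase z, ∃ y' ∈ (Y.erase z).erase y, v ∈ U y' y (J y') (J y) := by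
  unfold Rz
  rw [mem_union, mem_biUnion, mem_biUnion]
  refine or_congr Iff.rfl (exists_congr fun y => and_congr_right fun _ => ?_)
  rw [mem_biUnion]

/-- **LEMMA L with a local threshold, Hall form** (notes 16066, 16082): independent sets `M` of
located points with `mu_z |M| + a z (J z) + cells ≤ |N(M) \ Rz|` -/
theorem lemL_hall (T : ι → V → ℚ) {c₀ : ι → V} (h₀ : ∀ z ∈ Y, c₀ z ∈ C z)
    (hg : ∀ y z c d, g y z c d = g z y d c)
    {X : Finset P} {N : P → Finset P} {K : ι → V → Finset P}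
    {U : ι → ι → V → V → Finset P} {D : (ι → V) → Finset P}
    (hKa : ∀ z ∈ Y, ∀ c ∈ C z, (K z c).card ≤ a z c)
    (hU : ∀ y z c e, (U y z c e).card ≤ g y z c e)
    (hDm : ∀ J : ι → V, (∀ z ∈ Y, J z ∈ C z) → ∀ v ∈ D J, (∃ z ∈ Y, v ∈ K z (J z)) ∨
      ∃ z ∈ Y, ∃ y ∈ Y.erase z, v ∈ U y z (J y) (J z))
    (hUs : ∀ y z c e, U y z c e = U z y e c)
    (hDN : ∀ J : ι → V, (∀ z ∈ Y, J z ∈ C z) → ∀ v ∈ X, v ∉ D J → N v ⊆ D J) :
    ∃ J : ι → V, (∀ z ∈ Y, J z ∈ C z) ∧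
      (∀ J' : ι → V, (∀ z ∈ Y, J' z ∈ C z) → FT Y a g T J ≤ FT Y a g T J') ∧
      ∀ (W : ι → Finset P) (mu : ι → ℚ),
      (∀ z ∈ Y, 0 ≤ mu z) →
      (∀ z ∈ Y, ∀ v ∈ W z, v ∈ X ∧ v ∉ Rz Y K U J z) →
      (∀ z ∈ Y, ∀ c ∈ C z, ∀ M ⊆ (W z) \ (K z c), M.Nonempty → (∀ v ∈ M, ∀ w ∈ M, w ∉ N v) →
        mu z * M.card + T z (J z) + a z (J z) + ∑ y ∈ Y.erase z, (g y z (J y) (J z) : ℚ)
          ≤ ((M.biUnion N) \ Rz Y K U J z).card + T z c) →
      ∑ z ∈ Y, (a z (J z) : ℚ) + ∑ z ∈ Y, ∑ y ∈ Y.erase z, (g y z (J y) (J z) : ℚ)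
        + ∑ z ∈ Y, mu z * ((∑ c ∈ C z, (((W z) \ (K z c)).card : ℚ)) / (C z).card)
        + ∑ z ∈ Y, T z (J z)
      ≤ ∑ z ∈ Y, (∑ c ∈ C z, (a z c : ℚ)) / (C z).card
        + ∑ z ∈ Y, (∑ c ∈ C z, T z c) / (C z).card
        + ∑ z ∈ Y, ∑ y ∈ Y.erase z, gav C g y z (J y)
        + ∑ z ∈ Y, mu z * ((∑ c ∈ C z, (kc Y K U J W z c : ℚ)) / (C z).card) := by
  obtain ⟨J, hJ, hmin⟩ := exists_minFT (C := C) (a := a) (g := g) T h₀
  refine ⟨J, hJ, hmin, fun W mu hmu hW hM => key_sum hJ fun z hz c hc => ?_⟩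
  have hJ'C : ∀ y ∈ Y, Function.update J z c y ∈ C y := by
    intro y hy
    by_cases h : y = z
    · rw [h, Function.update_self]
      exact hc
    · rw [Function.update_of_ne h]
      exact hJ y hy
  have h1 := hmin _ hJ'C
  rw [FT_update hg J hz c] at h1
  set M := ((W z) \ (K z c)).filter (fun v => ∀ y ∈ Y.erase z, v ∉ U y z (J y) c) with hMd
  have h2 : ((W z) \ (K z c)).card ≤ M.card + kc Y K U J W z c := by
    have h3 : (W z) \ (K z c) ⊆ M ∪ (Y.erase z).biUnion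
        (fun y => (U y z (J y) c) ∩ ((W z) \ (K z c))) := by
      intro v hv
      by_cases hb : ∀ y ∈ Y.erase z, v ∉ U y z (J y) c
      · exact mem_union_left _ (mem_filter.2 ⟨hv, hb⟩)
      · push Not at hb
        obtain ⟨y, hy, h4⟩ := hb
        exact mem_union_right _ (mem_biUnion.2 ⟨y, hy, mem_inter.2 ⟨h4, hv⟩⟩)
    exact (card_le_card h3).trans ((card_union_le _ _).trans
      (Nat.add_le_add_left card_biUnion_le _))
  have h3 : (((W z) \ (K z c)).card : ℚ) ≤ M.card + (kc Y K U J W z c : ℚ) := by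
    exact_mod_cast h2
  have h4 := mul_le_mul_of_nonneg_left h3 (hmu z hz)
  rw [mul_add] at h4
  by_cases hne : M.Nonempty
  · have hout : ∀ v ∈ M, v ∉ D (Function.update J z c) := by
      intro v hv
      obtain ⟨v1, v2⟩ := mem_filter.1 hv
      obtain ⟨v3, v4⟩ := mem_sdiff.1 v1
      obtain ⟨w1, w2⟩ := hW z hz v v3
      rw [mem_Rz, not_or] at w2
      push Not at w2
      exact notMem_update hDm hUs hJ hc w2.1 w2.2 v4 v2
    have hin : ∀ v ∈ M, N v ⊆ D (Function.update J z c) := fun v hv =>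
      hDN _ hJ'C v (hW z hz v (mem_sdiff.1 (mem_filter.1 hv).1).1).1 (hout v hv)
    have h5 := hM z hz c hc M (filter_subset _ _) hne
      (fun v hv w hw h => hout w hw (hin v hv h))
    have h6 : (M.biUnion N) \ Rz Y K U J z
        ⊆ K z c ∪ (Y.erase z).biUnion (fun y => U y z (J y) c) := by
      intro p hp
      obtain ⟨p1, p2⟩ := mem_sdiff.1 hp
      obtain ⟨v, hv, p3⟩ := mem_biUnion.1 p1
      have p4 := hin v hv p3
      by_contra hcon
      rw [mem_union, not_or, mem_biUnion] at hcon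
      push Not at hcon
      rw [mem_Rz, not_or] at p2
      push Not at p2
      exact notMem_update hDm hUs hJ hc p2.1 p2.2 hcon.1 hcon.2 p4
    have h7 : ((M.biUnion N) \ Rz Y K U J z).card ≤ a z c + ∑ y ∈ Y.erase z, g y z (J y) c :=
      (card_le_card h6).trans ((card_union_le _ _).trans (Nat.add_le_add (hKa z hz c hc)
        (card_biUnion_le.trans (sum_le_sum fun y _ => hU _ _ _ _))))
    have h8 : (((M.biUnion N) \ Rz Y K U J z).card : ℚ)
        ≤ a z c + ∑ y ∈ Y.erase z, (g y z (J y) c : ℚ) := by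
      exact_mod_cast h7
    linarith
  · rw [not_nonempty_iff_eq_empty] at hne
    rw [hne, card_empty, Nat.cast_zero, mul_zero, zero_add] at h4
    linarith

/-- **LEMMA L with a local threshold** (note 16066) -/
theorem lemL_loc (T : ι → V → ℚ) {c₀ : ι → V} (h₀ : ∀ z ∈ Y, c₀ z ∈ C z)
    (hg : ∀ y z c d, g y z c d = g z y d c)
    {X : Finset P} {N : P → Finset P} {K : ι → V → Finset P}
    {U : ι → ι → V → V → Finset P} {D : (ι → V) → Finset P}
    (hKa : ∀ z ∈ Y, ∀ c ∈ C z, (K z c).card ≤ a z c)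
    (hU : ∀ y z c e, (U y z c e).card ≤ g y z c e)
    (hDm : ∀ J : ι → V, (∀ z ∈ Y, J z ∈ C z) → ∀ v ∈ D J, (∃ z ∈ Y, v ∈ K z (J z)) ∨
      ∃ z ∈ Y, ∃ y ∈ Y.erase z, v ∈ U y z (J y) (J z))
    (hUs : ∀ y z c e, U y z c e = U z y e c)
    (hDN : ∀ J : ι → V, (∀ z ∈ Y, J z ∈ C z) → ∀ v ∈ X, v ∉ D J → N v ⊆ D J) :
    ∃ J : ι → V, (∀ z ∈ Y, J z ∈ C z) ∧
      (∀ J' : ι → V, (∀ z ∈ Y, J' z ∈ C z) → FT Y a g T J ≤ FT Y a g T J') ∧
      ∀ (W : ι → Finset P) (mu : ι → ℚ),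
      (∀ z ∈ Y, 0 ≤ mu z) →
      (∀ z ∈ Y, ∀ v ∈ W z, v ∈ X ∧ v ∉ Rz Y K U J z ∧ ∀ c ∈ C z, v ∉ K z c →
        mu z * ((W z) \ (K z c)).card + T z (J z) + a z (J z)
          + ∑ y ∈ Y.erase z, (g y z (J y) (J z) : ℚ) ≤ ((N v) \ Rz Y K U J z).card + T z c) →
      ∑ z ∈ Y, (a z (J z) : ℚ) + ∑ z ∈ Y, ∑ y ∈ Y.erase z, (g y z (J y) (J z) : ℚ)
        + ∑ z ∈ Y, mu z * ((∑ c ∈ C z, (((W z) \ (K z c)).card : ℚ)) / (C z).card)
        + ∑ z ∈ Y, T z (J z)
      ≤ ∑ z ∈ Y, (∑ c ∈ C z, (a z c : ℚ)) / (C z).card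
        + ∑ z ∈ Y, (∑ c ∈ C z, T z c) / (C z).card
        + ∑ z ∈ Y, ∑ y ∈ Y.erase z, gav C g y z (J y)
        + ∑ z ∈ Y, mu z * ((∑ c ∈ C z, (kc Y K U J W z c : ℚ)) / (C z).card) := by
  obtain ⟨J, hJ, hmin, h⟩ := lemL_hall (C := C) (a := a) T h₀ hg hKa hU hDm hUs hDN
  refine ⟨J, hJ, hmin, fun W mu hmu hW => h W mu hmu (fun z hz v hv =>
    ⟨(hW z hz v hv).1, (hW z hz v hv).2.1⟩) fun z hz c hc M hM hne _ => ?_⟩
  obtain ⟨v, hv⟩ := hne
  obtain ⟨v1, v2⟩ := mem_sdiff.1 (hM hv)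
  have h1 := (hW z hz v v1).2.2 c hc v2
  have h2 : ((M.card : ℕ) : ℚ) ≤ ((W z) \ (K z c)).card := by exact_mod_cast card_le_card hM
  have h3 := mul_le_mul_of_nonneg_left h2 (hmu z hz)
  have h4 : (((N v) \ Rz Y K U J z).card : ℚ) ≤ ((M.biUnion N) \ Rz Y K U J z).card := by
    exact_mod_cast card_le_card (sdiff_subset_sdiff (subset_biUnion_of_mem N hv) subset_rfl)
  linarith

/-- the cells take at most `g` points -/
lemma kc_le {K : ι → V → Finset P} {U : ι → ι → V → V → Finset P}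
    (hU : ∀ y z c e, (U y z c e).card ≤ g y z c e) (J : ι → V) (W : ι → Finset P) (z : ι) (c : V) :
    kc Y K U J W z c ≤ ∑ y ∈ Y.erase z, min (g y z (J y) c) (W z).card :=
  sum_le_sum fun _ _ => le_min ((card_le_card inter_subset_left).trans (hU _ _ _ _))
    ((card_le_card inter_subset_right).trans (card_le_card sdiff_subset))

/-- the averages of a function of the cells at the point `c` of the row `y` over the row `z` -/
noncomputable def gavQ (C : ι → Finset V) (G : ι → ι → V → V → ℚ) (y z : ι) (c : V) : ℚ :=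
  (∑ d ∈ C z, G y z c d) / (C z).card

/-- **LEMMA L, form with a cell function `G`** (16052): the points of the cells cost
`g + mu_z min g |W z| ≤ G` -/
theorem lemL_G (G : ι → ι → V → V → ℚ) {c₀ : ι → V} (h₀ : ∀ z ∈ Y, c₀ z ∈ C z)
    (hg : ∀ y z c d, g y z c d = g z y d c)
    {X : Finset P} {d : P → ℚ} {K : ι → V → Finset P}
    {U : ι → ι → V → V → Finset P} {D : (ι → V) → Finset P}
    (hU : ∀ y z c e, (U y z c e).card ≤ g y z c e)
    (hDm : ∀ J : ι → V, (∀ z ∈ Y, J z ∈ C z) → ∀ v ∈ D J, (∃ z ∈ Y, v ∈ K z (J z)) ∨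
      ∃ z ∈ Y, ∃ y ∈ Y.erase z, v ∈ U y z (J y) (J z))
    (hUs : ∀ y z c e, U y z c e = U z y e c)
    (hDo : ∀ J : ι → V, (∀ z ∈ Y, J z ∈ C z) → 2 * ((D J).card : ℚ) ≤ o2 Y a g J)
    (hDd : ∀ J : ι → V, (∀ z ∈ Y, J z ∈ C z) → ∀ v ∈ X, v ∉ D J → d v ≤ (D J).card) :
    ∃ J : ι → V, (∀ z ∈ Y, J z ∈ C z) ∧
      (∀ J' : ι → V, (∀ z ∈ Y, J' z ∈ C z) →
        o2 Y a g J + 2 * ∑ z ∈ Y, ∑ y ∈ Y.erase z, gavQ C G z y (J z)
          ≤ o2 Y a g J' + 2 * ∑ z ∈ Y, ∑ y ∈ Y.erase z, gavQ C G z y (J' z)) ∧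
      ∀ (W : ι → Finset P) (mu : ι → ℚ),
      (∀ z ∈ Y, 0 ≤ mu z) →
      (∀ z ∈ Y, ∀ v ∈ W z, v ∈ X ∧ (∀ y ∈ Y.erase z, v ∉ K y (J y)) ∧
        (∀ y ∈ Y.erase z, ∀ y' ∈ (Y.erase z).erase y, v ∉ U y' y (J y') (J y)) ∧
        ∀ c ∈ C z, v ∉ K z c → 2 * (mu z * ((W z) \ (K z c)).card
            + ∑ y ∈ Y.erase z, gavQ C G z y (J z)) + o2 Y a g J
          ≤ 2 * d v + 2 * ∑ y ∈ Y.erase z, gavQ C G z y c) →
      ∑ z ∈ Y, (a z (J z) : ℚ) + ∑ z ∈ Y, ∑ y ∈ Y.erase z, (g y z (J y) (J z) : ℚ)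
        + ∑ z ∈ Y, mu z * ((∑ c ∈ C z, (((W z) \ (K z c)).card : ℚ)) / (C z).card)
        + ∑ z ∈ Y, ∑ y ∈ Y.erase z, (∑ c ∈ C z, (G y z (J y) c - g y z (J y) c
            - mu z * (min (g y z (J y) c) (W z).card : ℕ))) / (C z).card
      ≤ ∑ z ∈ Y, (∑ c ∈ C z, (a z c : ℚ)) / (C z).card
        + ∑ z ∈ Y, ∑ y ∈ Y.erase z,
          ((∑ c ∈ C z, ∑ e ∈ C y, G z y c e) / ((C z).card * (C y).card)) := by
  obtain ⟨J, hJ, hmin, h⟩ := lemL_gen (fun z c => ∑ y ∈ Y.erase z, gavQ C G z y c) h₀ hg hDm hUs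
    hDo hDd
  refine ⟨J, hJ, hmin, fun W mu hmu hW => ?_⟩
  have h1 := h W mu hmu hW
  have hT : ∀ z ∈ Y, (∑ c ∈ C z, ∑ y ∈ Y.erase z, gavQ C G z y c) / (C z).card
      = ∑ y ∈ Y.erase z, ((∑ c ∈ C z, ∑ e ∈ C y, G z y c e) / ((C z).card * (C y).card)) := by
    intro z _
    rw [sum_comm, sum_div]
    refine sum_congr rfl fun y _ => ?_
    unfold gavQ
    rw [← sum_div, div_div, mul_comm ((C y).card : ℚ)]
  rw [sum_congr rfl hT] at h1
  have hk : ∀ z ∈ Y, mu z * ((∑ c ∈ C z, (kc Y K U J W z c : ℚ)) / (C z).card)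
      ≤ ∑ y ∈ Y.erase z, (∑ c ∈ C z, mu z * (min (g y z (J y) c) (W z).card : ℕ)) / (C z).card := by
    intro z hz
    rw [← sum_div, sum_comm, ← mul_div_assoc, mul_sum]
    refine div_le_div_of_nonneg_right (sum_le_sum fun c _ => ?_) (Nat.cast_nonneg _)
    rw [← mul_sum]
    refine mul_le_mul_of_nonneg_left ?_ (hmu z hz)
    exact_mod_cast kc_le hU J W z c
  have hk' := sum_le_sum hk
  have hS : ∑ z ∈ Y, ∑ y ∈ Y.erase z, (∑ c ∈ C z, (G y z (J y) c - g y z (J y) c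
            - mu z * (min (g y z (J y) c) (W z).card : ℕ))) / (C z).card
      = ∑ z ∈ Y, ∑ y ∈ Y.erase z, gavQ C G y z (J y) - ∑ z ∈ Y, ∑ y ∈ Y.erase z, gav C g y z (J y)
        - ∑ z ∈ Y, ∑ y ∈ Y.erase z,
          (∑ c ∈ C z, mu z * (min (g y z (J y) c) (W z).card : ℕ)) / (C z).card := by
    rw [← sum_sub_distrib, ← sum_sub_distrib]
    refine sum_congr rfl fun z _ => ?_
    rw [← sum_sub_distrib, ← sum_sub_distrib]
    refine sum_congr rfl fun y _ => ?_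
    unfold gavQ gav
    rw [← sub_div, ← sub_div, ← sum_sub_distrib, ← sum_sub_distrib]
  have sw : ∑ z ∈ Y, ∑ y ∈ Y.erase z, gavQ C G z y (J z)
      = ∑ z ∈ Y, ∑ y ∈ Y.erase z, gavQ C G y z (J y) := by
    rw [sum_comm' (s' := fun y => Y.erase y) (t' := Y) (by
      intro z y
      simp only [mem_erase, ne_eq]
      tauto)]
  rw [hS]
  linarith

/-- **LEMMA L** with the slack of the multipliers kept on the left side -/
theorem lemL_slack {c₀ : ι → V} (h₀ : ∀ z ∈ Y, c₀ z ∈ C z) (hg : ∀ y z c d, g y z c d = g z y d c)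
    {X : Finset P} {d : P → ℚ} {K : ι → V → Finset P}
    {U : ι → ι → V → V → Finset P} {D : (ι → V) → Finset P}
    (hU : ∀ y z c e, (U y z c e).card ≤ g y z c e)
    (hDm : ∀ J : ι → V, (∀ z ∈ Y, J z ∈ C z) → ∀ v ∈ D J, (∃ z ∈ Y, v ∈ K z (J z)) ∨
      ∃ z ∈ Y, ∃ y ∈ Y.erase z, v ∈ U y z (J y) (J z))
    (hUs : ∀ y z c e, U y z c e = U z y e c)
    (hDo : ∀ J : ι → V, (∀ z ∈ Y, J z ∈ C z) → 2 * ((D J).card : ℚ) ≤ o2 Y a g J)
    (hDd : ∀ J : ι → V, (∀ z ∈ Y, J z ∈ C z) → ∀ v ∈ X, v ∉ D J → d v ≤ (D J).card) :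
    ∃ J : ι → V, (∀ z ∈ Y, J z ∈ C z) ∧ ∀ (W : ι → Finset P) (mu : ι → ℚ),
      (∀ z ∈ Y, 0 ≤ mu z ∧ mu z ≤ lam z) →
      (∀ z ∈ Y, ∀ v ∈ W z, v ∈ X ∧ (∀ y ∈ Y.erase z, v ∉ K y (J y)) ∧
        (∀ y ∈ Y.erase z, ∀ y' ∈ (Y.erase z).erase y, v ∉ U y' y (J y') (J y)) ∧
        ∀ c ∈ C z, v ∉ K z c → 2 * (mu z * ((W z) \ (K z c)).card + th Y C g lam z (J z))
          + o2 Y a g J ≤ 2 * d v + 2 * th Y C g lam z c) →
      ∑ z ∈ Y, (a z (J z) : ℚ) + ∑ z ∈ Y, ∑ y ∈ Y.erase z, (g y z (J y) (J z) : ℚ)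
        + ∑ z ∈ Y, mu z * ((∑ c ∈ C z, (((W z) \ (K z c)).card : ℚ)) / (C z).card)
        + ∑ z ∈ Y, (lam z - mu z) * ∑ y ∈ Y.erase z, gav C g y z (J y)
      ≤ ∑ z ∈ Y, (∑ c ∈ C z, (a z c : ℚ)) / (C z).card
        + ∑ z ∈ Y, ∑ y ∈ Y.erase z, (1 + lam y)
          * ((∑ c ∈ C z, ∑ e ∈ C y, (g z y c e : ℚ)) / ((C z).card * (C y).card)) := by
  obtain ⟨J, hJ, hmin⟩ := exists_minJ h₀ (F2 Y C a g lam) (fun J J' h => by
    unfold F2 o2
    have s1 : ∑ z ∈ Y, (a z (J z) : ℚ) = ∑ z ∈ Y, (a z (J' z) : ℚ) :=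
      sum_congr rfl fun z hz => by rw [h z hz]
    have s2 : ∑ z ∈ Y, ∑ y ∈ Y.erase z, (g y z (J y) (J z) : ℚ)
        = ∑ z ∈ Y, ∑ y ∈ Y.erase z, (g y z (J' y) (J' z) : ℚ) :=
      sum_congr rfl fun z hz => sum_congr rfl fun y hy => by
        rw [h z hz, h y (mem_of_mem_erase hy)]
    have s3 : ∑ z ∈ Y, th Y C g lam z (J z) = ∑ z ∈ Y, th Y C g lam z (J' z) :=
      sum_congr rfl fun z hz => by rw [h z hz]
    rw [s1, s2, s3])
  refine ⟨J, hJ, fun W mu hmu hW => ?_⟩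
  -- the inequality of one column
  have key : ∀ z ∈ Y, ∀ c ∈ C z, mu z * (((W z) \ (K z c)).card : ℚ)
      ≤ ((a z c : ℚ) - a z (J z)) + (∑ y ∈ Y.erase z, (g y z (J y) c : ℚ)
        - ∑ y ∈ Y.erase z, (g y z (J y) (J z) : ℚ)) + (th Y C g lam z c - th Y C g lam z (J z))
        + mu z * ∑ y ∈ Y.erase z, (g y z (J y) c : ℚ) := by
    intro z hz c hc
    set J' := Function.update J z c with hJ'
    have e1 : J' z = c := Function.update_self _ _ _
    have e2 : ∀ y, y ≠ z → J' y = J y := fun y hy => Function.update_of_ne hy _ _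
    have hJ'C : ∀ y ∈ Y, J' y ∈ C y := by
      intro y hy
      by_cases h : y = z
      · rw [h, e1]
        exact hc
      · rw [e2 y h]
        exact hJ y hy
    have h1 := hmin J' hJ'C
    rw [hJ', F2_update hg J hz c] at h1
    have hgn : 0 ≤ ∑ y ∈ Y.erase z, (g y z (J y) c : ℚ) := by positivity
    by_cases hbad : ∃ v ∈ (W z) \ (K z c), ∀ y ∈ Y.erase z, v ∉ U y z (J y) c
    · obtain ⟨v, hv, hvU⟩ := hbad
      obtain ⟨hv1, hv2⟩ := mem_sdiff.1 hv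
      obtain ⟨w1, w2, w3, w4'⟩ := hW z hz v hv1
      have w4 := w4' c hc hv2
      have hvD : v ∉ D J' := by
        intro h
        rcases hDm J' hJ'C v h with ⟨y, hy, h3⟩ | ⟨y, hy, y', hy', h3⟩
        · by_cases h4 : y = z
          · rw [h4, e1] at h3
            exact hv2 h3
          · rw [e2 y h4] at h3
            exact w2 y (mem_erase.2 ⟨h4, hy⟩) h3
        · have hy'Y := mem_of_mem_erase hy'
          have hne := ne_of_mem_erase hy'
          by_cases h4 : y = z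
          · have h5 : y' ≠ z := fun h => hne (h.trans h4.symm)
            rw [h4, e1, e2 y' h5] at h3
            exact hvU y' (mem_erase.2 ⟨h5, hy'Y⟩) h3
          · by_cases h5 : y' = z
            · rw [h5, e1, e2 y h4, hUs] at h3
              exact hvU y (mem_erase.2 ⟨h4, hy⟩) h3
            · rw [e2 y h4, e2 y' h5] at h3
              exact w3 y (mem_erase.2 ⟨h4, hy⟩) y' (mem_erase.2 ⟨hne, mem_erase.2 ⟨h5, hy'Y⟩⟩) h3
      have h2 := hDd J' hJ'C v w1 hvD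
      have h3 := hDo J' hJ'C
      rw [hJ', o2_update hg J hz c] at h3
      rw [hJ'] at h2
      have h7 := mul_nonneg (hmu z hz).1 hgn
      linarith
    · push Not at hbad
      have h2 : ((W z) \ (K z c)).card ≤ ∑ y ∈ Y.erase z, g y z (J y) c := by
        have h3 : (W z) \ (K z c) ⊆ (Y.erase z).biUnion (fun y => U y z (J y) c) := by
          intro v hv
          obtain ⟨y, hy, h4⟩ := hbad v hv
          exact mem_biUnion.2 ⟨y, hy, h4⟩
        exact (card_le_card h3).trans (card_biUnion_le.trans (sum_le_sum fun y _ => hU _ _ _ _))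
      have h3 : (((W z) \ (K z c)).card : ℚ) ≤ ∑ y ∈ Y.erase z, (g y z (J y) c : ℚ) := by
        exact_mod_cast h2
      have h4 := mul_le_mul_of_nonneg_left h3 (hmu z hz).1
      linarith
  -- average over the columns of a row
  have avg : ∀ z ∈ Y, mu z * ((∑ c ∈ C z, (((W z) \ (K z c)).card : ℚ)) / (C z).card)
      ≤ ((∑ c ∈ C z, (a z c : ℚ)) / (C z).card - a z (J z))
        + (∑ y ∈ Y.erase z, gav C g y z (J y) - ∑ y ∈ Y.erase z, (g y z (J y) (J z) : ℚ))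
        + (∑ y ∈ Y.erase z, (1 + lam y)
          * ((∑ c ∈ C z, ∑ e ∈ C y, (g z y c e : ℚ)) / ((C z).card * (C y).card))
          - th Y C g lam z (J z))
        + mu z * ∑ y ∈ Y.erase z, gav C g y z (J y) := by
    intro z hz
    have hc0 : (0 : ℚ) < (C z).card := by exact_mod_cast card_pos.2 ⟨_, hJ z hz⟩
    have h1 := sum_le_sum fun c hc => key z hz c hc
    rw [← mul_sum] at h1
    simp only [sum_add_distrib, sum_sub_distrib, sum_const, nsmul_eq_mul, ← mul_sum] at h1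
    have g1 : ∑ c ∈ C z, ∑ y ∈ Y.erase z, (g y z (J y) c : ℚ)
        = (C z).card * ∑ y ∈ Y.erase z, gav C g y z (J y) := by
      rw [sum_comm, mul_sum]
      refine sum_congr rfl fun y _ => ?_
      unfold gav
      rw [mul_div_cancel₀ _ hc0.ne']
    have g2 : ∑ c ∈ C z, th Y C g lam z c = (C z).card * ∑ y ∈ Y.erase z, (1 + lam y)
          * ((∑ c ∈ C z, ∑ e ∈ C y, (g z y c e : ℚ)) / ((C z).card * (C y).card)) := by
      unfold th gav
      rw [sum_comm, mul_sum]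
      refine sum_congr rfl fun y _ => ?_
      rw [← mul_sum, ← sum_div, mul_left_comm]
      congr 1
      rw [← div_div, div_right_comm, mul_div_cancel₀ _ hc0.ne']
    rw [g1, g2] at h1
    have m1 : ∑ c ∈ C z, (((W z) \ (K z c)).card : ℚ)
        = (C z).card * ((∑ c ∈ C z, (((W z) \ (K z c)).card : ℚ)) / (C z).card) :=
      (mul_div_cancel₀ _ hc0.ne').symm
    have m2 : ∑ c ∈ C z, (a z c : ℚ) = (C z).card * ((∑ c ∈ C z, (a z c : ℚ)) / (C z).card) :=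
      (mul_div_cancel₀ _ hc0.ne').symm
    rw [m1, m2] at h1
    generalize (∑ c ∈ C z, (((W z) \ (K z c)).card : ℚ)) / (C z).card = m' at h1 ⊢
    generalize (∑ c ∈ C z, (a z c : ℚ)) / (C z).card = a' at h1 ⊢
    refine le_of_mul_le_mul_left ?_ hc0
    linarith
  have tot := sum_le_sum avg
  have sw : ∑ z ∈ Y, th Y C g lam z (J z)
      = ∑ z ∈ Y, ∑ y ∈ Y.erase z, gav C g y z (J y)
        + ∑ z ∈ Y, lam z * ∑ y ∈ Y.erase z, gav C g y z (J y) := by
    unfold th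
    rw [← sum_add_distrib, sum_comm' (s' := fun y => Y.erase y) (t' := Y) (by
      intro z y
      simp only [mem_erase, ne_eq]
      tauto)]
    refine sum_congr rfl fun z _ => ?_
    rw [mul_sum, ← sum_add_distrib]
    refine sum_congr rfl fun y _ => ?_
    ring
  simp only [sum_add_distrib, sum_sub_distrib, sub_mul] at tot ⊢
  linarith

/-- **LEMMA L** -/
theorem lemL {c₀ : ι → V} (h₀ : ∀ z ∈ Y, c₀ z ∈ C z) (hg : ∀ y z c d, g y z c d = g z y d c)
    {X : Finset P} {d : P → ℚ} {K : ι → V → Finset P}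
    {U : ι → ι → V → V → Finset P} {D : (ι → V) → Finset P}
    (hU : ∀ y z c e, (U y z c e).card ≤ g y z c e)
    (hDm : ∀ J : ι → V, (∀ z ∈ Y, J z ∈ C z) → ∀ v ∈ D J, (∃ z ∈ Y, v ∈ K z (J z)) ∨
      ∃ z ∈ Y, ∃ y ∈ Y.erase z, v ∈ U y z (J y) (J z))
    (hUs : ∀ y z c e, U y z c e = U z y e c)
    (hDo : ∀ J : ι → V, (∀ z ∈ Y, J z ∈ C z) → 2 * ((D J).card : ℚ) ≤ o2 Y a g J)
    (hDd : ∀ J : ι → V, (∀ z ∈ Y, J z ∈ C z) → ∀ v ∈ X, v ∉ D J → d v ≤ (D J).card) :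
    ∃ J : ι → V, (∀ z ∈ Y, J z ∈ C z) ∧ ∀ (W : ι → Finset P) (mu : ι → ℚ),
      (∀ z ∈ Y, 0 ≤ mu z ∧ mu z ≤ lam z) →
      (∀ z ∈ Y, ∀ v ∈ W z, v ∈ X ∧ (∀ y ∈ Y.erase z, v ∉ K y (J y)) ∧
        (∀ y ∈ Y.erase z, ∀ y' ∈ (Y.erase z).erase y, v ∉ U y' y (J y') (J y)) ∧
        ∀ c ∈ C z, v ∉ K z c → 2 * (mu z * ((W z) \ (K z c)).card + th Y C g lam z (J z))
          + o2 Y a g J ≤ 2 * d v + 2 * th Y C g lam z c) →
      ∑ z ∈ Y, (a z (J z) : ℚ) + ∑ z ∈ Y, ∑ y ∈ Y.erase z, (g y z (J y) (J z) : ℚ)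
        + ∑ z ∈ Y, mu z * ((∑ c ∈ C z, (((W z) \ (K z c)).card : ℚ)) / (C z).card)
      ≤ ∑ z ∈ Y, (∑ c ∈ C z, (a z c : ℚ)) / (C z).card
        + ∑ z ∈ Y, ∑ y ∈ Y.erase z, (1 + lam y)
          * ((∑ c ∈ C z, ∑ e ∈ C y, (g z y c e : ℚ)) / ((C z).card * (C y).card)) := by
  obtain ⟨J, hJ, h⟩ := lemL_slack h₀ hg hU hDm hUs hDo hDd (lam := lam)
  refine ⟨J, hJ, fun W mu hmu hW => ?_⟩
  have h1 := h W mu hmu hW
  have h2 : 0 ≤ ∑ z ∈ Y, (lam z - mu z) * ∑ y ∈ Y.erase z, gav C g y z (J y) :=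
    sum_nonneg fun z hz => mul_nonneg (by linarith [(hmu z hz).2])
      (sum_nonneg fun y _ => gav_nonneg _ _ _ _ _)
  linarith

/-- **LEMMA L with the simple condition on the multipliers and the slack** -/
theorem lemL_slack' {c₀ : ι → V} (h₀ : ∀ z ∈ Y, c₀ z ∈ C z) (hg : ∀ y z c d, g y z c d = g z y d c)
    (hlam : ∀ z, 0 ≤ lam z) {X : Finset P} {d : P → ℚ} {K : ι → V → Finset P}
    {U : ι → ι → V → V → Finset P} {D : (ι → V) → Finset P}
    (hU : ∀ y z c e, (U y z c e).card ≤ g y z c e)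
    (hDm : ∀ J : ι → V, (∀ z ∈ Y, J z ∈ C z) → ∀ v ∈ D J, (∃ z ∈ Y, v ∈ K z (J z)) ∨
      ∃ z ∈ Y, ∃ y ∈ Y.erase z, v ∈ U y z (J y) (J z))
    (hUs : ∀ y z c e, U y z c e = U z y e c)
    (hDo : ∀ J : ι → V, (∀ z ∈ Y, J z ∈ C z) → 2 * ((D J).card : ℚ) ≤ o2 Y a g J)
    (hDd : ∀ J : ι → V, (∀ z ∈ Y, J z ∈ C z) → ∀ v ∈ X, v ∉ D J → d v ≤ (D J).card) :
    ∃ J : ι → V, (∀ z ∈ Y, J z ∈ C z) ∧ ∀ (W : ι → Finset P) (mu : ι → ℚ),
      (∀ z ∈ Y, 0 ≤ mu z ∧ mu z ≤ lam z) →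
      (∀ z ∈ Y, ∀ v ∈ W z, v ∈ X ∧ (∀ y ∈ Y.erase z, v ∉ K y (J y)) ∧
        (∀ y ∈ Y.erase z, ∀ y' ∈ (Y.erase z).erase y, v ∉ U y' y (J y') (J y)) ∧
        2 * (mu z * (W z).card + th Y C g lam z (J z)) + o2 Y a g J ≤ 2 * d v) →
      ∑ z ∈ Y, (a z (J z) : ℚ) + ∑ z ∈ Y, ∑ y ∈ Y.erase z, (g y z (J y) (J z) : ℚ)
        + ∑ z ∈ Y, mu z * ((∑ c ∈ C z, (((W z) \ (K z c)).card : ℚ)) / (C z).card)
        + ∑ z ∈ Y, (lam z - mu z) * ∑ y ∈ Y.erase z, gav C g y z (J y)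
      ≤ ∑ z ∈ Y, (∑ c ∈ C z, (a z c : ℚ)) / (C z).card
        + ∑ z ∈ Y, ∑ y ∈ Y.erase z, (1 + lam y)
          * ((∑ c ∈ C z, ∑ e ∈ C y, (g z y c e : ℚ)) / ((C z).card * (C y).card)) := by
  obtain ⟨J, hJ, h⟩ := lemL_slack h₀ hg hU hDm hUs hDo hDd (lam := lam)
  refine ⟨J, hJ, fun W mu hmu hW => h W mu hmu fun z hz v hv => ?_⟩
  obtain ⟨w1, w2, w3, w4⟩ := hW z hz v hv
  refine ⟨w1, w2, w3, fun c _ _ => ?_⟩
  have h4 : (((W z) \ (K z c)).card : ℚ) ≤ (W z).card := by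
    exact_mod_cast card_le_card sdiff_subset
  have h5 := mul_le_mul_of_nonneg_left h4 (hmu z hz).1
  have h6 : 0 ≤ th Y C g lam z c := by
    unfold th
    exact sum_nonneg fun y _ => mul_nonneg (by linarith [hlam y]) (gav_nonneg _ _ _ _ _)
  linarith

/-- **LEMMA L with the simple condition on the multipliers** -/
theorem lemL' {c₀ : ι → V} (h₀ : ∀ z ∈ Y, c₀ z ∈ C z) (hg : ∀ y z c d, g y z c d = g z y d c)
    (hlam : ∀ z, 0 ≤ lam z) {X : Finset P} {d : P → ℚ} {K : ι → V → Finset P}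
    {U : ι → ι → V → V → Finset P} {D : (ι → V) → Finset P}
    (hU : ∀ y z c e, (U y z c e).card ≤ g y z c e)
    (hDm : ∀ J : ι → V, (∀ z ∈ Y, J z ∈ C z) → ∀ v ∈ D J, (∃ z ∈ Y, v ∈ K z (J z)) ∨
      ∃ z ∈ Y, ∃ y ∈ Y.erase z, v ∈ U y z (J y) (J z))
    (hUs : ∀ y z c e, U y z c e = U z y e c)
    (hDo : ∀ J : ι → V, (∀ z ∈ Y, J z ∈ C z) → 2 * ((D J).card : ℚ) ≤ o2 Y a g J)
    (hDd : ∀ J : ι → V, (∀ z ∈ Y, J z ∈ C z) → ∀ v ∈ X, v ∉ D J → d v ≤ (D J).card) :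
    ∃ J : ι → V, (∀ z ∈ Y, J z ∈ C z) ∧ ∀ (W : ι → Finset P) (mu : ι → ℚ),
      (∀ z ∈ Y, 0 ≤ mu z ∧ mu z ≤ lam z) →
      (∀ z ∈ Y, ∀ v ∈ W z, v ∈ X ∧ (∀ y ∈ Y.erase z, v ∉ K y (J y)) ∧
        (∀ y ∈ Y.erase z, ∀ y' ∈ (Y.erase z).erase y, v ∉ U y' y (J y') (J y)) ∧
        2 * (mu z * (W z).card + th Y C g lam z (J z)) + o2 Y a g J ≤ 2 * d v) →
      ∑ z ∈ Y, (a z (J z) : ℚ) + ∑ z ∈ Y, ∑ y ∈ Y.erase z, (g y z (J y) (J z) : ℚ)
        + ∑ z ∈ Y, mu z * ((∑ c ∈ C z, (((W z) \ (K z c)).card : ℚ)) / (C z).card)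
      ≤ ∑ z ∈ Y, (∑ c ∈ C z, (a z c : ℚ)) / (C z).card
        + ∑ z ∈ Y, ∑ y ∈ Y.erase z, (1 + lam y)
          * ((∑ c ∈ C z, ∑ e ∈ C y, (g z y c e : ℚ)) / ((C z).card * (C y).card)) := by
  obtain ⟨J, hJ, h⟩ := lemL_slack' h₀ hg hlam hU hDm hUs hDo hDd
  refine ⟨J, hJ, fun W mu hmu hW => ?_⟩
  have h1 := h W mu hmu hW
  have h2 : 0 ≤ ∑ z ∈ Y, (lam z - mu z) * ∑ y ∈ Y.erase z, gav C g y z (J y) :=
    sum_nonneg fun z hz => mul_nonneg (by linarith [(hmu z hz).2])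
      (sum_nonneg fun y _ => gav_nonneg _ _ _ _ _)
  linarith

/-- the point `v` is located: for some row `z` no other row of `J` and no cell without `z` has it -/
def Loc (Y : Finset ι) (K : ι → V → Finset P) (U : ι → ι → V → V → Finset P) (J : ι → V) (v : P) :
    Prop :=
  ∃ z ∈ Y, (∀ y ∈ Y.erase z, v ∉ K y (J y)) ∧
    ∀ y ∈ Y.erase z, ∀ y' ∈ (Y.erase z).erase y, v ∉ U y' y (J y') (J y)

/-- **counting the points which are not located** -/
theorem lemL_count {K : ι → V → Finset P} {U : ι → ι → V → V → Finset P} {J : ι → V}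
    (hUs : ∀ y z c e, U y z c e = U z y e c) {D : Finset P}
    (hDm : ∀ v ∈ D, (∃ z ∈ Y, v ∈ K z (J z)) ∨ ∃ z ∈ Y, ∃ y ∈ Y.erase z, v ∈ U y z (J y) (J z)) :
    2 * D.card + 2 * (D.filter fun v => ¬ Loc Y K U J v).card
      ≤ 2 * ∑ z ∈ Y, (K z (J z)).card + ∑ z ∈ Y, ∑ y ∈ Y.erase z, (U y z (J y) (J z)).card := by
  set A1 : P → Finset ι := fun v => Y.filter fun z => v ∈ K z (J z) with hA1
  set B1 : P → Finset (ι × ι) := fun v => (Y ×ˢ Y).filter fun p => p.2 ≠ p.1 ∧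
    v ∈ U p.2 p.1 (J p.2) (J p.1) with hB1
  have mB : ∀ v z y, (z, y) ∈ B1 v ↔ (z ∈ Y ∧ y ∈ Y) ∧ y ≠ z ∧ v ∈ U y z (J y) (J z) := by
    intro v z y
    simp only [hB1, mem_filter, mem_product]
  have hmu : ∀ v ∈ D, 2 + (if ¬ Loc Y K U J v then 2 else 0) ≤ 2 * (A1 v).card + (B1 v).card := by
    intro v hv
    -- a cell with its mirror image
    have two : ∀ z y, z ∈ Y → y ∈ Y → y ≠ z → v ∈ U y z (J y) (J z) →
        ({(z, y), (y, z)} : Finset (ι × ι)) ⊆ B1 v := by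
      intro z y hz hy hyz h1 p hp
      rcases mem_insert.1 hp with h2 | h2
      · rw [h2, mB]
        exact ⟨⟨hz, hy⟩, hyz, h1⟩
      · rw [mem_singleton.1 h2, mB]
        exact ⟨⟨hy, hz⟩, hyz.symm, by rw [hUs]; exact h1⟩
    have c2 : ∀ z y : ι, y ≠ z → ({(z, y), (y, z)} : Finset (ι × ι)).card = 2 := by
      intro z y hyz
      refine card_pair fun h => hyz ?_
      exact (Prod.ext_iff.1 h).2
    by_cases hA : (A1 v).card = 0
    · have hA' : ∀ z ∈ Y, v ∉ K z (J z) := by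
        intro z hz h1
        have h2 : z ∈ A1 v := mem_filter.2 ⟨hz, h1⟩
        rw [card_eq_zero.1 hA] at h2
        simp at h2
      rcases hDm v hv with ⟨z, hz, h1⟩ | ⟨z, hz, y, hy, h1⟩
      · exact absurd h1 (hA' z hz)
      · have hyY := mem_of_mem_erase hy
        have hyz := ne_of_mem_erase hy
        have h2 := two z y hz hyY hyz h1
        by_cases hL : Loc Y K U J v
        · rw [if_neg (not_not.2 hL)]
          have h3 := card_le_card h2
          rw [c2 z y hyz] at h3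
          omega
        · rw [if_pos hL]
          have h3 : ∃ y1 ∈ Y.erase z, ∃ y2 ∈ (Y.erase z).erase y1, v ∈ U y2 y1 (J y2) (J y1) := by
            by_contra hcon
            push Not at hcon
            exact hL ⟨z, hz, fun y hy => hA' y (mem_of_mem_erase hy), hcon⟩
          obtain ⟨y1, hy1, y2, hy2, h4⟩ := h3
          have k1 := ne_of_mem_erase hy1
          have k2 := ne_of_mem_erase (mem_of_mem_erase hy2)
          have k3 := ne_of_mem_erase hy2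
          have h5 := two y1 y2 (mem_of_mem_erase hy1) (mem_of_mem_erase (mem_of_mem_erase hy2)) k3 h4
          have h6 : Disjoint ({(z, y), (y, z)} : Finset (ι × ι)) {(y1, y2), (y2, y1)} := by
            rw [disjoint_left]
            intro p hp hp'
            simp only [mem_insert, mem_singleton] at hp hp'
            rcases hp with rfl | rfl <;> rcases hp' with h7 | h7 <;>
              (obtain ⟨h8, h9⟩ := Prod.ext_iff.1 h7; simp only at h8 h9)
            · exact k1 h8.symm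
            · exact k2 h8.symm
            · exact k2 h9.symm
            · exact k1 h9.symm
          have h7 := card_le_card (union_subset h2 h5)
          rw [card_union_of_disjoint h6, c2 z y hyz, c2 y1 y2 k3] at h7
          omega
    · by_cases hA2 : 2 ≤ (A1 v).card
      · have : (if ¬ Loc Y K U J v then 2 else 0) ≤ 2 := by split_ifs <;> omega
        omega
      · have hA3 : (A1 v).card = 1 := by omega
        obtain ⟨z, hz⟩ := card_eq_one.1 hA3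
        have hzA : z ∈ A1 v := by rw [hz]; exact mem_singleton_self z
        obtain ⟨hzY, hzK⟩ := mem_filter.1 hzA
        by_cases hL : Loc Y K U J v
        · rw [if_neg (not_not.2 hL)]
          omega
        · rw [if_pos hL]
          have h3 : ∃ y1 ∈ Y.erase z, ∃ y2 ∈ (Y.erase z).erase y1, v ∈ U y2 y1 (J y2) (J y1) := by
            by_contra hcon
            push Not at hcon
            refine hL ⟨z, hzY, fun y hy h4 => ?_, hcon⟩
            have h5 : y ∈ A1 v := mem_filter.2 ⟨mem_of_mem_erase hy, h4⟩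
            rw [hz, mem_singleton] at h5
            exact ne_of_mem_erase hy h5
          obtain ⟨y1, hy1, y2, hy2, h4⟩ := h3
          have k3 := ne_of_mem_erase hy2
          have h5 := two y1 y2 (mem_of_mem_erase hy1) (mem_of_mem_erase (mem_of_mem_erase hy2)) k3 h4
          have h7 := card_le_card h5
          rw [c2 y1 y2 k3] at h7
          omega
  have h1 := sum_le_sum hmu
  rw [sum_add_distrib, sum_const, smul_eq_mul, ← sum_filter, sum_const, smul_eq_mul,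
    sum_add_distrib, ← mul_sum] at h1
  have h2 : ∑ v ∈ D, (A1 v).card ≤ ∑ z ∈ Y, (K z (J z)).card := by
    have h3 : ∑ v ∈ D, (A1 v).card = ∑ z ∈ Y, (D.filter fun v => v ∈ K z (J z)).card := by
      simp only [hA1, card_filter]
      exact sum_comm
    rw [h3]
    exact sum_le_sum fun z _ => card_le_card fun v hv => (mem_filter.1 hv).2
  have h4 : ∑ v ∈ D, (B1 v).card ≤ ∑ z ∈ Y, ∑ y ∈ Y.erase z, (U y z (J y) (J z)).card := by
    have h5 : ∑ v ∈ D, (B1 v).card = ∑ p ∈ Y ×ˢ Y,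
        (D.filter fun v => p.2 ≠ p.1 ∧ v ∈ U p.2 p.1 (J p.2) (J p.1)).card := by
      simp only [hB1, card_filter]
      exact sum_comm
    rw [h5, sum_product]
    refine sum_le_sum fun z hz => ?_
    rw [← add_sum_erase Y _ hz]
    have h6 : (D.filter fun v => (z, z).2 ≠ (z, z).1 ∧ v ∈ U (z, z).2 (z, z).1 (J (z, z).2)
        (J (z, z).1)).card = 0 := by
      rw [card_eq_zero, filter_eq_empty_iff]
      intro v _ h7
      exact h7.1 rfl
    rw [h6, zero_add]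
    exact sum_le_sum fun y _ => card_le_card fun v hv => (mem_filter.1 hv).2.2
  omega

end LemL

end Pool.Agent.Lib.MP_f04ccf_co
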