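import Pool.Agent.Lib.MP_f04ccf_co.M.LemLH
import Pool.Agent.Lib.MP_f04ccf_co.M.LemH

/-!
MP_f04ccf_co: LEMMA L for one host with arbitrary weights of single points in the minimised function
(`lemL_hostT`), and with a cell function `G` (`lemL_hostG`, note 16052): a cell costs
`g + mu_z min g w_z ≤ G`.
-/

set_option autoImplicit false

namespace Pool.Agent.Lib.MP_f04ccf_co

open Finset

attribute [local instance] Classical.propDecidable

section LemLH

attribute [-instance] instDecidableEqSum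

variable {ι V : Type*} {G F : SimpleGraph V} {tl : V → ι} {H P : Finset V} {B : Finset ι}

/-- **LEMMA L for one host, general weights of single points** -/
theorem lemL_hostT {T : ι → V → ℚ} (hT : ∀ z c, 0 ≤ T z c) {C : ι → Finset V} {c₀ : ι → V}
    (h₀ : ∀ z ∈ B, c₀ z ∈ C z) (hHP : Disjoint H P)
    (htl : ∀ v ∈ H, ∀ a ∈ P, F.Adj v a → tl v ∈ B) {K : ι → V → Finset V}
    (hK : ∀ z ∈ B, ∀ c ∈ C z, ∀ v ∈ MN G F tl H P z c, ∀ a ∈ P, F.Adj v a → v ∈ K z c ∨ a ∈ K z c)
    (hKP : ∀ z ∈ B, ∀ c ∈ C z, ∀ a ∈ K z c, a ∈ P → G.Adj c a)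
    {U : ι → ι → V → V → Finset V}
    (hUs : ∀ y z c e, U y z c e = U z y e c)
    (hL : ∀ c : ι → V, (∀ y ∈ B, c y ∈ C y) → ∀ p ∈ H, ∀ q ∈ H, F.Adj p q →
      (∃ z ∈ B, (G.Adj (c z) p ∨ p ∈ K z (c z)) ∨ (G.Adj (c z) q ∨ q ∈ K z (c z))) ∨
        ∃ z ∈ B, ∃ y ∈ B.erase z, p ∈ U y z (c y) (c z) ∨ q ∈ U y z (c y) (c z)) :
    ∃ J : ι → V, (∀ z ∈ B, J z ∈ C z) ∧
      SpCov F tl H P (XJ G H B K U J) (fun z => if z ∈ B then K z (J z) ∩ P else ∅) ∧
      ∃ o gs : ℚ, 0 ≤ gs ∧
      2 * gs = ∑ z ∈ B, ∑ y ∈ B.erase z, ((U y z (J y) (J z)).card : ℚ) ∧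
      o = ∑ z ∈ B, (((dg G H (J z) + (K z (J z)).card : ℕ)) : ℚ) + gs ∧
      ((XJ G H B K U J).card : ℚ) + ∑ z ∈ B, ((K z (J z) ∩ P).card : ℚ)
        + ((XJ G H B K U J).filter fun v => ∀ z ∈ B, ¬ LocAt G B K U J z v).card ≤ o ∧
      (∀ J' : ι → V, (∀ z ∈ B, J' z ∈ C z) →
        FT B (fun z c => dg G H c + (K z c).card) (fun y z c e => (U y z c e).card) T J
          ≤ FT B (fun z c => dg G H c + (K z c).card) (fun y z c e => (U y z c e).card) T J') ∧
      ∀ (W X2 : ι → Finset V) (mu : ι → ℚ), (∀ z ∈ B, 0 ≤ mu z) →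
        (∀ z ∈ B, ∀ v ∈ W z, v ∈ H ∧ LocAt G B K U J z v ∧
          mu z * ((W z).card + (X2 z).card) + T z (J z) + o ≤ dg F (H ∪ P) v) →
        (∀ z ∈ B, ∀ a ∈ X2 z, a ∈ P ∧ mu z * ((W z).card + (X2 z).card) + T z (J z) + o
            ≤ (H.filter fun w => tl w = z ∧ F.Adj w a).card) →
        o + gs + ∑ z ∈ B, mu z * (((W z) ∪ (X2 z)).card : ℚ) + ∑ z ∈ B, T z (J z)
          ≤ ∑ z ∈ B, (∑ c ∈ C z, ((dg G H c : ℚ) + (K z c).card
              + mu z * dg G ((W z) ∪ (X2 z)) c)) / (C z).card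
            + ∑ z ∈ B, (∑ c ∈ C z, T z c) / (C z).card
            + ∑ z ∈ B, ∑ y ∈ B.erase z, gav C (fun y z c e => (U y z c e).card) y z (J y)
            + ∑ z ∈ B, mu z * ((∑ c ∈ C z, ∑ y ∈ B.erase z,
              (((U y z (J y) c) ∩ (W z)).card : ℚ)) / (C z).card)
            + ∑ z ∈ B, mu z * ((∑ v ∈ W z,
              (((C z).filter fun c => ¬ G.Adj c v ∧ v ∈ K z c).card : ℚ)) / (C z).card) := by
  have cK : ∀ z ∈ B, ∀ c ∈ C z, (KSp G H P K z c).card ≤ dg G H c + (K z c).card := by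
    intro z _ c _
    unfold KSp
    rw [card_disjSum, card_sigma, sum_singleton]
    have k1 : (H.filter fun v => G.Adj c v ∨ v ∈ K z c).card ≤ dg G H c + (K z c ∩ H).card := by
      unfold dg
      refine (card_le_card ?_).trans (card_union_le _ _)
      intro v hv
      obtain ⟨v1, v2⟩ := mem_filter.1 hv
      rcases v2 with v2 | v2
      · exact mem_union_left _ (mem_filter.2 ⟨v1, v2⟩)
      · exact mem_union_right _ (mem_inter.2 ⟨v2, v1⟩)
    have k2 : (K z c ∩ H).card + (K z c ∩ P).card ≤ (K z c).card := by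
      rw [← card_union_of_disjoint (hHP.mono inter_subset_right inter_subset_right)]
      exact card_le_card (union_subset inter_subset_left inter_subset_left)
    omega
  have cU : ∀ y z c e, (USp U y z c e).card = (U y z c e).card := by
    intro y z c e
    unfold USp
    rw [card_disjSum, card_empty, add_zero]
  have sU : ∀ y z c e, USp U y z c e = USp U z y e c := by
    intro y z c e
    unfold USp
    rw [hUs]
  have mK : ∀ z c v, (Sum.inl v : V ⊕ (Σ _ : ι, V)) ∈ KSp G H P K z c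
      ↔ v ∈ H ∧ (G.Adj c v ∨ v ∈ K z c) := by
    intro z c v
    unfold KSp
    rw [inl_mem_disjSum, mem_filter]
  have mK2 : ∀ z c y a, (Sum.inr ⟨y, a⟩ : V ⊕ (Σ _ : ι, V)) ∈ KSp G H P K z c
      ↔ y = z ∧ a ∈ K z c ∩ P := by
    intro z c y a
    unfold KSp
    rw [inr_mem_disjSum, mem_sigma, mem_singleton]
  have mU : ∀ y z c e v, (Sum.inl v : V ⊕ (Σ _ : ι, V)) ∈ USp U y z c e ↔ v ∈ U y z c e := by
    intro y z c e v
    unfold USp
    rw [inl_mem_disjSum]
  have mU2 : ∀ y z c e p, (Sum.inr p : V ⊕ (Σ _ : ι, V)) ∉ USp U y z c e := by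
    intro y z c e p
    unfold USp
    rw [inr_mem_disjSum]
    exact notMem_empty _
  set D : (ι → V) → Finset (V ⊕ (Σ _ : ι, V)) := fun c =>
    (XJ G H B K U c).disjSum (B.sigma fun z => K z (c z) ∩ P) with hD
  have hDm : ∀ J : ι → V, (∀ z ∈ B, J z ∈ C z) → ∀ v ∈ D J,
      (∃ z ∈ B, v ∈ KSp G H P K z (J z)) ∨
      ∃ z ∈ B, ∃ y ∈ B.erase z, v ∈ USp U y z (J y) (J z) := by
    intro J _ p hp
    rcases p with v | ⟨z, a⟩
    · rw [hD, inl_mem_disjSum] at hp
      obtain ⟨v1, v2⟩ := mem_filter.1 hp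
      rcases v2 with ⟨z, hz, h⟩ | ⟨z, hz, y, hy, h⟩
      · exact Or.inl ⟨z, hz, (mK _ _ _).2 ⟨v1, h⟩⟩
      · exact Or.inr ⟨z, hz, y, hy, (mU _ _ _ _ _).2 h⟩
    · rw [hD, inr_mem_disjSum, mem_sigma] at hp
      exact Or.inl ⟨z, hp.1, (mK2 _ _ _ _).2 ⟨rfl, hp.2⟩⟩
  have hcnt : ∀ J : ι → V, (∀ z ∈ B, J z ∈ C z) →
      2 * ((D J).card : ℚ) + 2 * (((D J).filter fun v => ¬ Loc B (KSp G H P K) (USp U) J v).card : ℚ)
        ≤ o2 B (fun z c => dg G H c + (K z c).card) (fun y z c e => (U y z c e).card) J := by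
    intro J hJ
    have h1 := lemL_count (Y := B) (K := KSp G H P K) (U := USp U) (J := J) sU (hDm J hJ)
    have h2 : ∑ z ∈ B, (KSp G H P K z (J z)).card ≤ ∑ z ∈ B, (dg G H (J z) + (K z (J z)).card) :=
      sum_le_sum fun z hz => cK z hz _ (hJ z hz)
    simp only [cU] at h1
    have h3 : 2 * (D J).card + 2 * ((D J).filter fun v => ¬ Loc B (KSp G H P K) (USp U) J v).card
        ≤ 2 * ∑ z ∈ B, (dg G H (J z) + (K z (J z)).card)
          + ∑ z ∈ B, ∑ y ∈ B.erase z, (U y z (J y) (J z)).card := by omega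
    unfold o2
    exact_mod_cast h3
  have hcov : ∀ c : ι → V, (∀ z ∈ B, c z ∈ C z) →
      SpCov F tl H P (XJ G H B K U c) (fun z => if z ∈ B then K z (c z) ∩ P else ∅) := by
    intro c hc
    refine ⟨fun p hp q hq hpq => ?_, fun v hv a ha hva => ?_⟩
    · rcases hL c hc p hp q hq hpq with ⟨z, hz, h2 | h2⟩ | ⟨z, hz, y, hy, h2 | h2⟩
      · exact Or.inl (mem_filter.2 ⟨hp, Or.inl ⟨z, hz, h2⟩⟩)
      · exact Or.inr (mem_filter.2 ⟨hq, Or.inl ⟨z, hz, h2⟩⟩)
      · exact Or.inl (mem_filter.2 ⟨hp, Or.inr ⟨z, hz, y, hy, h2⟩⟩)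
      · exact Or.inr (mem_filter.2 ⟨hq, Or.inr ⟨z, hz, y, hy, h2⟩⟩)
    · have hz := htl v hv a ha hva
      beta_reduce
      rw [if_pos hz]
      by_cases h2 : G.Adj (c (tl v)) v
      · exact Or.inl (mem_filter.2 ⟨hv, Or.inl ⟨_, hz, Or.inl h2⟩⟩)
      · rcases hK _ hz _ (hc _ hz) v (mem_MN.2 ⟨hv, rfl, h2, a, ha, hva⟩) a ha hva with h3 | h3
        · exact Or.inl (mem_filter.2 ⟨hv, Or.inl ⟨_, hz, Or.inr h3⟩⟩)
        · exact Or.inr (mem_inter.2 ⟨h3, ha⟩)
  have hDc : ∀ c : ι → V, ((D c).card : ℚ) = (XJ G H B K U c).card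
      + ∑ z ∈ B, (((if z ∈ B then K z (c z) ∩ P else ∅) : Finset V).card : ℚ) := by
    intro c
    rw [hD]
    beta_reduce
    rw [card_disjSum, card_sigma]
    push_cast
    congr 1
    exact sum_congr rfl fun z hz => by rw [if_pos hz]
  obtain ⟨J, hJ, hmn, hmain⟩ := lemL_gen T (Y := B) (C := C)
    (a := fun z c => dg G H c + (K z c).card)
    (g := fun y z c e => (U y z c e).card) h₀ (fun y z c d => by rw [hUs])
    (X := H.disjSum (B.sigma fun _ => P))
    (d := Sum.elim (fun v => (dg F (H ∪ P) v : ℚ))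
      (fun p => ((H.filter fun w => tl w = p.1 ∧ F.Adj w p.2).card : ℚ)))
    (K := KSp G H P K) (U := USp U) (D := D) hDm sU
    (fun J hJ => by
      have h1 := hcnt J hJ
      have h2 : (0 : ℚ) ≤ (((D J).filter fun v => ¬ Loc B (KSp G H P K) (USp U) J v).card : ℚ) :=
        Nat.cast_nonneg _
      linarith)
    (fun c hc p hp hpD => by
      rw [hDc c]
      rcases p with v | ⟨z, a⟩
      · rw [inl_mem_disjSum] at hp
        have h1 : v ∉ XJ G H B K U c := fun h => hpD (by rw [hD, inl_mem_disjSum]; exact h)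
        have h2 := sp_dg_le hHP htl (hcov c hc) hp h1
        simp only [Sum.elim_inl]
        exact_mod_cast h2
      · rw [inr_mem_disjSum, mem_sigma] at hp
        have h1 : a ∉ (if z ∈ B then K z (c z) ∩ P else ∅ : Finset V) := by
          rw [if_pos hp.1]
          exact fun h => hpD (by rw [hD, inr_mem_disjSum, mem_sigma]; exact ⟨hp.1, h⟩)
        have h2 := sp_cp_le (hcov c hc) hp.2 h1
        have h3 : (H.filter fun w => tl w = z ∧ F.Adj w a).card ≤ (XJ G H B K U c).card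
            + ∑ z ∈ B, ((if z ∈ B then K z (c z) ∩ P else ∅) : Finset V).card :=
          h2.trans (Nat.le_add_right _ _)
        simp only [Sum.elim_inr]
        exact_mod_cast h3)
  have hgs : (0 : ℚ) ≤ ∑ z ∈ B, ∑ y ∈ B.erase z, ((U y z (J y) (J z)).card : ℚ) :=
    sum_nonneg fun z _ => sum_nonneg fun y _ => Nat.cast_nonneg _
  refine ⟨J, hJ, hcov J hJ,
    o2 B (fun z c => dg G H c + (K z c).card) (fun y z c e => (U y z c e).card) J / 2,
    (∑ z ∈ B, ∑ y ∈ B.erase z, ((U y z (J y) (J z)).card : ℚ)) / 2, by linarith, by ring, ?_,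
    ?_, hmn, ?_⟩
  · unfold o2
    ring
  · have h1 := hcnt J hJ
    have h2 := hDc J
    have h0 : ∑ z ∈ B, (((if z ∈ B then K z (J z) ∩ P else ∅) : Finset V).card : ℚ)
        = ∑ z ∈ B, ((K z (J z) ∩ P).card : ℚ) :=
      sum_congr rfl fun z hz => by rw [if_pos hz]
    rw [h0] at h2
    have h3 : ((XJ G H B K U J).filter fun v => ∀ z ∈ B, ¬ LocAt G B K U J z v).card
        ≤ ((D J).filter fun v => ¬ Loc B (KSp G H P K) (USp U) J v).card := by
      have h4 : (((XJ G H B K U J).filter fun v => ∀ z ∈ B, ¬ LocAt G B K U J z v).map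
          ⟨Sum.inl, Sum.inl_injective⟩ : Finset (V ⊕ (Σ _ : ι, V)))
          ⊆ (D J).filter fun v => ¬ Loc B (KSp G H P K) (USp U) J v := by
        intro p hp
        obtain ⟨v, hv, rfl⟩ := mem_map.1 hp
        obtain ⟨v1, v2⟩ := mem_filter.1 hv
        refine mem_filter.2 ⟨?_, ?_⟩
        · rw [hD]
          exact inl_mem_disjSum.2 v1
        · rintro ⟨z, hz, h5, h6⟩
          refine v2 z hz ⟨fun y hy => ?_, fun y hy y' hy' h7 => ?_⟩
          · have h7 := h5 y hy
            by_contra h8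
            rw [not_and_or, not_not, not_not] at h8
            exact h7 ((mK _ _ _).2 ⟨(mem_filter.1 v1).1, h8⟩)
          · exact h6 y hy y' hy' ((mU _ _ _ _ _).2 h7)
      have h5 := card_le_card h4
      rwa [card_map] at h5
    have h3' : ((((XJ G H B K U J).filter fun v => ∀ z ∈ B, ¬ LocAt G B K U J z v).card : ℕ) : ℚ)
        ≤ (((D J).filter fun v => ¬ Loc B (KSp G H P K) (USp U) J v).card : ℚ) := by
      exact_mod_cast h3
    linarith
  · intro W X2 mu hmu hW hX2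
    have sdle : ∀ z c, (((((W z).disjSum (({z} : Finset ι).sigma fun _ => X2 z) :
            Finset (V ⊕ (Σ _ : ι, V))) \ KSp G H P K z c).card : ℕ) : ℚ)
          ≤ (W z).card + (X2 z).card := by
      intro z c
      have h1 : (((W z).disjSum (({z} : Finset ι).sigma fun _ => X2 z) :
            Finset (V ⊕ (Σ _ : ι, V))) \ KSp G H P K z c).card
          ≤ (W z).card + (X2 z).card := by
        refine (card_le_card sdiff_subset).trans (le_of_eq ?_)
        rw [card_disjSum, card_sigma, sum_singleton]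
      exact_mod_cast h1
    have h1 := hmain (fun z => (W z).disjSum (({z} : Finset ι).sigma fun _ => X2 z)) mu hmu
      (fun z hz p hp => by
        rcases p with v | ⟨z', a⟩
        · rw [inl_mem_disjSum] at hp
          obtain ⟨w1, ⟨w2, w3⟩, w4⟩ := hW z hz v hp
          refine ⟨inl_mem_disjSum.2 w1, fun y hy h => ?_, fun y hy y' hy' h => ?_, fun c _ _ => ?_⟩
          · obtain ⟨-, h5 | h5⟩ := (mK _ _ _).1 h
            · exact (w2 y hy).1 h5
            · exact (w2 y hy).2 h5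
          · exact w3 y hy y' hy' ((mU _ _ _ _ _).1 h)
          · have w5 := sdle z c
            have w6 := mul_le_mul_of_nonneg_left w5 (hmu z hz)
            have w7 := hT z c
            simp only [Sum.elim_inl]
            linarith
        · rw [inr_mem_disjSum, mem_sigma, mem_singleton] at hp
          obtain ⟨p1, p2⟩ := hp
          simp only at p1 p2
          subst p1
          obtain ⟨w1, w4⟩ := hX2 z' hz a p2
          refine ⟨?_, fun y hy h => ?_, fun y hy y' hy' h => mU2 _ _ _ _ _ h, fun c _ _ => ?_⟩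
          · rw [inr_mem_disjSum, mem_sigma]
            exact ⟨hz, w1⟩
          · exact (ne_of_mem_erase hy) ((mK2 _ _ _ _).1 h).1.symm
          · have w5 := sdle z' c
            have w6 := mul_le_mul_of_nonneg_left w5 (hmu z' hz)
            have w7 := hT z' c
            simp only [Sum.elim_inr]
            linarith)
    -- the gain of a row
    have gain : ∀ z ∈ B, mu z * (((W z) ∪ (X2 z)).card : ℚ)
        ≤ mu z * ((∑ c ∈ C z, ((((W z).disjSum (({z} : Finset ι).sigma fun _ => X2 z) :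
            Finset (V ⊕ (Σ _ : ι, V))) \ KSp G H P K z c).card : ℚ)) / (C z).card)
          + (∑ c ∈ C z, (mu z * dg G ((W z) ∪ (X2 z)) c : ℚ)) / (C z).card
          + mu z * ((∑ v ∈ W z,
              (((C z).filter fun c => ¬ G.Adj c v ∧ v ∈ K z c).card : ℚ)) / (C z).card) := by
      intro z hz
      have hc0 : (0 : ℚ) < (C z).card := by exact_mod_cast card_pos.2 ⟨_, hJ z hz⟩
      have hWH : W z ⊆ H := fun v hv => (hW z hz v hv).1
      have hXP : X2 z ⊆ P := fun v hv => (hX2 z hz v hv).1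
      have pw : ∀ c ∈ C z, ((W z) ∪ (X2 z)).card
          ≤ (((W z).disjSum (({z} : Finset ι).sigma fun _ => X2 z) :
            Finset (V ⊕ (Σ _ : ι, V))) \ KSp G H P K z c).card + dg G ((W z) ∪ (X2 z)) c
            + ((W z).filter fun v => ¬ G.Adj c v ∧ v ∈ K z c).card := by
        intro c hc
        have q1 : ((W z).filter fun v => ¬ G.Adj c v ∧ v ∉ K z c).card
            + ((X2 z).filter fun a => a ∉ K z c).card
            ≤ (((W z).disjSum (({z} : Finset ι).sigma fun _ => X2 z) :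
              Finset (V ⊕ (Σ _ : ι, V))) \ KSp G H P K z c).card := by
          have q2 : (((W z).filter fun v => ¬ G.Adj c v ∧ v ∉ K z c).disjSum
              (({z} : Finset ι).sigma fun _ => (X2 z).filter fun a => a ∉ K z c) :
              Finset (V ⊕ (Σ _ : ι, V))).card
              = ((W z).filter fun v => ¬ G.Adj c v ∧ v ∉ K z c).card
                + ((X2 z).filter fun a => a ∉ K z c).card := by
            rw [card_disjSum, card_sigma, sum_singleton]
          rw [← q2]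
          refine card_le_card fun p hp => ?_
          rw [mem_sdiff]
          rcases p with v | ⟨y, a⟩
          · rw [inl_mem_disjSum, mem_filter] at hp
            refine ⟨inl_mem_disjSum.2 hp.1, fun h => ?_⟩
            obtain ⟨-, h5 | h5⟩ := (mK _ _ _).1 h
            · exact hp.2.1 h5
            · exact hp.2.2 h5
          · rw [inr_mem_disjSum, mem_sigma, mem_singleton, mem_filter] at hp
            refine ⟨?_, fun h => ?_⟩
            · rw [inr_mem_disjSum, mem_sigma, mem_singleton]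
              exact ⟨hp.1, hp.2.1⟩
            · exact hp.2.2 (mem_inter.1 ((mK2 _ _ _ _).1 h).2).1
        have q3 : (W z).card = ((W z).filter fun v => G.Adj c v).card
            + (((W z).filter fun v => ¬ G.Adj c v ∧ v ∈ K z c).card
              + ((W z).filter fun v => ¬ G.Adj c v ∧ v ∉ K z c).card) := by
          rw [← filter_filter, ← filter_filter, card_filter_add_card_filter_not,
            card_filter_add_card_filter_not]
        have q4 : (X2 z).card ≤ ((X2 z).filter fun a => G.Adj c a).card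
            + ((X2 z).filter fun a => a ∉ K z c).card := by
          refine (card_le_card ?_).trans (card_union_le _ _)
          intro a ha
          by_cases h5 : a ∈ K z c
          · exact mem_union_left _ (mem_filter.2 ⟨ha, hKP z hz c hc a h5 (hXP ha)⟩)
          · exact mem_union_right _ (mem_filter.2 ⟨ha, h5⟩)
        have q5 : dg G ((W z) ∪ (X2 z)) c = ((W z).filter fun v => G.Adj c v).card
            + ((X2 z).filter fun a => G.Adj c a).card := by
          unfold dg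
          rw [filter_union, card_union_of_disjoint]
          exact disjoint_filter_filter (hHP.mono hWH hXP)
        have q6 := card_union_le (W z) (X2 z)
        omega
      have s1 : ((C z).card : ℚ) * (((W z) ∪ (X2 z)).card : ℚ)
          ≤ ∑ c ∈ C z, ((((W z).disjSum (({z} : Finset ι).sigma fun _ => X2 z) :
              Finset (V ⊕ (Σ _ : ι, V))) \ KSp G H P K z c).card : ℚ)
            + ∑ c ∈ C z, (dg G ((W z) ∪ (X2 z)) c : ℚ)
            + ∑ v ∈ W z, (((C z).filter fun c => ¬ G.Adj c v ∧ v ∈ K z c).card : ℚ) := by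
        have s2 := sum_le_sum pw
        rw [sum_const, smul_eq_mul, sum_add_distrib, sum_add_distrib] at s2
        have s3 : ∑ c ∈ C z, ((W z).filter fun v => ¬ G.Adj c v ∧ v ∈ K z c).card
            = ∑ v ∈ W z, ((C z).filter fun c => ¬ G.Adj c v ∧ v ∈ K z c).card := by
          simp only [card_filter]
          exact sum_comm
        rw [s3] at s2
        exact_mod_cast s2
      rw [← mul_sum, mul_div_assoc, ← mul_add, ← mul_add, ← add_div, ← add_div]
      refine mul_le_mul_of_nonneg_left ?_ (hmu z hz)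
      rw [le_div_iff₀ hc0]
      linarith
    have hkc : ∀ z ∈ B, mu z * ((∑ c ∈ C z, (kc B (KSp G H P K) (USp U) J
          (fun z => (W z).disjSum (({z} : Finset ι).sigma fun _ => X2 z)) z c : ℚ)) / (C z).card)
        ≤ mu z * ((∑ c ∈ C z, ∑ y ∈ B.erase z,
          (((U y z (J y) c) ∩ (W z)).card : ℚ)) / (C z).card) := by
      intro z hz
      refine mul_le_mul_of_nonneg_left (div_le_div_of_nonneg_right (sum_le_sum fun c _ => ?_)
        (Nat.cast_nonneg _)) (hmu z hz)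
      have h2 : kc B (KSp G H P K) (USp U) J
          (fun z => (W z).disjSum (({z} : Finset ι).sigma fun _ => X2 z)) z c
          ≤ ∑ y ∈ B.erase z, ((U y z (J y) c) ∩ (W z)).card := by
        unfold kc
        refine sum_le_sum fun y _ => ?_
        have h3 : (USp U y z (J y) c) ∩ (((W z).disjSum (({z} : Finset ι).sigma fun _ => X2 z) :
            Finset (V ⊕ (Σ _ : ι, V))) \ KSp G H P K z c)
            ⊆ (((U y z (J y) c) ∩ (W z)).map ⟨Sum.inl, Sum.inl_injective⟩ :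
              Finset (V ⊕ (Σ _ : ι, V))) := by
          intro p hp
          obtain ⟨p1, p2⟩ := mem_inter.1 hp
          rcases p with v | q
          · refine mem_map.2 ⟨v, mem_inter.2 ⟨(mU _ _ _ _ _).1 p1, ?_⟩, rfl⟩
            exact inl_mem_disjSum.1 (mem_sdiff.1 p2).1
          · exact absurd p1 (mU2 _ _ _ _ _)
        have h4 := card_le_card h3
        rwa [card_map] at h4
      exact_mod_cast h2
    have hkc' := sum_le_sum hkc
    have h2 := sum_le_sum gain
    simp only [sum_add_distrib] at h2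
    have h3 : ∑ z ∈ B, (∑ c ∈ C z, ((dg G H c : ℚ) + (K z c).card
          + mu z * dg G ((W z) ∪ (X2 z)) c)) / (C z).card
        = ∑ z ∈ B, (∑ c ∈ C z, (((dg G H c + (K z c).card : ℕ)) : ℚ)) / (C z).card
          + ∑ z ∈ B, (∑ c ∈ C z, (mu z * dg G ((W z) ∪ (X2 z)) c : ℚ)) / (C z).card := by
      rw [← sum_add_distrib]
      refine sum_congr rfl fun z _ => ?_
      rw [← add_div, ← sum_add_distrib]
      congr 1
      refine sum_congr rfl fun c _ => ?_
      push_cast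
      ring
    rw [h3]
    unfold o2
    linarith

/-- **LEMMA L'' for one host** (note 16052): the cells cost `G`, any function with
`g + mu_z min g w_z ≤ G`; the rest of `G` at the points of `J` stays on the left side. -/
theorem lemL_hostG {Gf : ι → ι → V → V → ℚ} (hG : ∀ y z c e, 0 ≤ Gf y z c e)
    {C : ι → Finset V} {c₀ : ι → V}
    (h₀ : ∀ z ∈ B, c₀ z ∈ C z) (hHP : Disjoint H P)
    (htl : ∀ v ∈ H, ∀ a ∈ P, F.Adj v a → tl v ∈ B) {K : ι → V → Finset V}
    (hK : ∀ z ∈ B, ∀ c ∈ C z, ∀ v ∈ MN G F tl H P z c, ∀ a ∈ P, F.Adj v a → v ∈ K z c ∨ a ∈ K z c)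
    (hKP : ∀ z ∈ B, ∀ c ∈ C z, ∀ a ∈ K z c, a ∈ P → G.Adj c a)
    {U : ι → ι → V → V → Finset V}
    (hUs : ∀ y z c e, U y z c e = U z y e c)
    (hL : ∀ c : ι → V, (∀ y ∈ B, c y ∈ C y) → ∀ p ∈ H, ∀ q ∈ H, F.Adj p q →
      (∃ z ∈ B, (G.Adj (c z) p ∨ p ∈ K z (c z)) ∨ (G.Adj (c z) q ∨ q ∈ K z (c z))) ∨
        ∃ z ∈ B, ∃ y ∈ B.erase z, p ∈ U y z (c y) (c z) ∨ q ∈ U y z (c y) (c z)) :
    ∃ J : ι → V, (∀ z ∈ B, J z ∈ C z) ∧
      SpCov F tl H P (XJ G H B K U J) (fun z => if z ∈ B then K z (J z) ∩ P else ∅) ∧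
      ∃ o gs : ℚ, 0 ≤ gs ∧
      2 * gs = ∑ z ∈ B, ∑ y ∈ B.erase z, ((U y z (J y) (J z)).card : ℚ) ∧
      o = ∑ z ∈ B, (((dg G H (J z) + (K z (J z)).card : ℕ)) : ℚ) + gs ∧
      ((XJ G H B K U J).card : ℚ) + ∑ z ∈ B, ((K z (J z) ∩ P).card : ℚ)
        + ((XJ G H B K U J).filter fun v => ∀ z ∈ B, ¬ LocAt G B K U J z v).card ≤ o ∧
      (∀ J' : ι → V, (∀ z ∈ B, J' z ∈ C z) →
        FT B (fun z c => dg G H c + (K z c).card) (fun y z c e => (U y z c e).card)
            (fun z c => ∑ y ∈ B.erase z, gavQ C Gf z y c) J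
          ≤ FT B (fun z c => dg G H c + (K z c).card) (fun y z c e => (U y z c e).card)
            (fun z c => ∑ y ∈ B.erase z, gavQ C Gf z y c) J') ∧
      ∀ (W X2 : ι → Finset V) (mu : ι → ℚ), (∀ z ∈ B, 0 ≤ mu z) →
        (∀ z ∈ B, ∀ v ∈ W z, v ∈ H ∧ LocAt G B K U J z v ∧
          mu z * ((W z).card + (X2 z).card) + ∑ y ∈ B.erase z, gavQ C Gf z y (J z) + o
            ≤ dg F (H ∪ P) v) →
        (∀ z ∈ B, ∀ a ∈ X2 z, a ∈ P ∧
          mu z * ((W z).card + (X2 z).card) + ∑ y ∈ B.erase z, gavQ C Gf z y (J z) + o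
            ≤ (H.filter fun w => tl w = z ∧ F.Adj w a).card) →
        o + gs + ∑ z ∈ B, mu z * (((W z) ∪ (X2 z)).card : ℚ)
            + ∑ z ∈ B, ∑ y ∈ B.erase z, (∑ c ∈ C z, (Gf y z (J y) c - (U y z (J y) c).card
              - mu z * ((U y z (J y) c) ∩ (W z)).card)) / (C z).card
          ≤ ∑ z ∈ B, (∑ c ∈ C z, ((dg G H c : ℚ) + (K z c).card
              + mu z * dg G ((W z) ∪ (X2 z)) c)) / (C z).card
            + ∑ z ∈ B, ∑ y ∈ B.erase z,
              ((∑ c ∈ C z, ∑ e ∈ C y, Gf z y c e) / ((C z).card * (C y).card))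
            + ∑ z ∈ B, mu z * ((∑ v ∈ W z,
              (((C z).filter fun c => ¬ G.Adj c v ∧ v ∈ K z c).card : ℚ)) / (C z).card) := by
  have hT : ∀ z c, 0 ≤ (fun z c => ∑ y ∈ B.erase z, gavQ C Gf z y c) z c := by
    intro z c
    refine sum_nonneg fun y _ => ?_
    unfold gavQ
    exact div_nonneg (sum_nonneg fun d _ => hG _ _ _ _) (Nat.cast_nonneg _)
  obtain ⟨J, hJ, hcov, o, gs, h1, h2, h3, h4, hmn, h5⟩ := lemL_hostT hT h₀ hHP htl hK hKP hUs hL
  refine ⟨J, hJ, hcov, o, gs, h1, h2, h3, h4, hmn, fun W X2 mu hmu hW hX2 => ?_⟩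
  have h6 := h5 W X2 mu hmu hW hX2
  have hT : ∀ z ∈ B, (∑ c ∈ C z, ∑ y ∈ B.erase z, gavQ C Gf z y c) / (C z).card
      = ∑ y ∈ B.erase z, ((∑ c ∈ C z, ∑ e ∈ C y, Gf z y c e) / ((C z).card * (C y).card)) := by
    intro z _
    rw [sum_comm, sum_div]
    refine sum_congr rfl fun y _ => ?_
    unfold gavQ
    rw [← sum_div, div_div, mul_comm ((C y).card : ℚ)]
  rw [sum_congr rfl hT] at h6
  have hk : ∀ z ∈ B, mu z * ((∑ c ∈ C z, ∑ y ∈ B.erase z,
        (((U y z (J y) c) ∩ (W z)).card : ℚ)) / (C z).card)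
      = ∑ y ∈ B.erase z, (∑ c ∈ C z, mu z * ((U y z (J y) c) ∩ (W z)).card) / (C z).card := by
    intro z hz
    rw [← sum_div, sum_comm, ← mul_div_assoc, mul_sum]
    congr 1
    refine sum_congr rfl fun y _ => ?_
    rw [mul_sum]
  rw [sum_congr rfl hk] at h6
  have hS : ∑ z ∈ B, ∑ y ∈ B.erase z, (∑ c ∈ C z, (Gf y z (J y) c - (U y z (J y) c).card
              - mu z * ((U y z (J y) c) ∩ (W z)).card)) / (C z).card
      = ∑ z ∈ B, ∑ y ∈ B.erase z, gavQ C Gf y z (J y)
        - ∑ z ∈ B, ∑ y ∈ B.erase z, gav C (fun y z c e => (U y z c e).card) y z (J y)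
        - ∑ z ∈ B, ∑ y ∈ B.erase z,
          (∑ c ∈ C z, mu z * ((U y z (J y) c) ∩ (W z)).card) / (C z).card := by
    rw [← sum_sub_distrib, ← sum_sub_distrib]
    refine sum_congr rfl fun z _ => ?_
    rw [← sum_sub_distrib, ← sum_sub_distrib]
    refine sum_congr rfl fun y _ => ?_
    unfold gavQ gav
    rw [← sub_div, ← sub_div, ← sum_sub_distrib, ← sum_sub_distrib]
  have sw : ∑ z ∈ B, ∑ y ∈ B.erase z, gavQ C Gf z y (J z)
      = ∑ z ∈ B, ∑ y ∈ B.erase z, gavQ C Gf y z (J y) := by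
    rw [sum_comm' (s' := fun y => B.erase y) (t' := B) (by
      intro z y
      simp only [mem_erase, ne_eq]
      tauto)]
  rw [hS]
  linarith

end LemLH

section FTavg

variable {ι V : Type*} [Fintype ι]

/-- **the minimum of the function is at most its average** (16042 (1e)) -/
theorem FT_avg {Y : Finset ι} {C : ι → Finset V} (hC : ∀ y, (C y).Nonempty) {a : ι → V → ℕ}
    {g : ι → ι → V → V → ℕ} {T : ι → V → ℚ} {M : ℚ}
    (hmin : ∀ J' : ι → V, (∀ z ∈ Y, J' z ∈ C z) → M ≤ FT Y a g T J') :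
    M ≤ 2 * ∑ z ∈ Y, (∑ c ∈ C z, (a z c : ℚ)) / (C z).card
      + ∑ z ∈ Y, ∑ y ∈ Y.erase z,
        ((∑ e ∈ C y, ∑ c ∈ C z, (g y z e c : ℚ)) / ((C y).card * (C z).card))
      + 2 * ∑ z ∈ Y, (∑ c ∈ C z, T z c) / (C z).card := by
  have hc0 : ∀ y, (0 : ℚ) < (C y).card := fun y => by exact_mod_cast card_pos.2 (hC y)
  set Pr : ℚ := ∏ y, ((C y).card : ℚ) with hPr
  have hP0 : 0 < Pr := prod_pos fun y _ => hc0 y
  have hPc : ((Fintype.piFinset C).card : ℚ) = Pr := by
    rw [Fintype.card_piFinset, hPr]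
    push_cast
    rfl
  have h1 : Pr * M ≤ ∑ J ∈ Fintype.piFinset C, FT Y a g T J := by
    rw [← hPc, ← nsmul_eq_mul, ← sum_const]
    exact sum_le_sum fun J hJ => hmin J fun z _ => Fintype.mem_piFinset.1 hJ z
  have o1 : ∀ (z : ι) (f : V → ℚ), ∑ J ∈ Fintype.piFinset C, f (J z)
      = Pr * ((∑ c ∈ C z, f c) / (C z).card) := by
    intro z f
    rw [← mul_div_assoc, eq_div_iff (hc0 z).ne', mul_comm]
    exact tr_one C z f
  have o3 : ∀ (z y : ι), y ≠ z → ∑ J ∈ Fintype.piFinset C, (g y z (J y) (J z) : ℚ)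
      = Pr * ((∑ e ∈ C y, ∑ c ∈ C z, (g y z e c : ℚ)) / ((C y).card * (C z).card)) := by
    intro z y hyz
    rw [← mul_div_assoc, eq_div_iff (mul_pos (hc0 y) (hc0 z)).ne', mul_comm]
    exact tr_two C hyz (fun e c => (g y z e c : ℚ))
  have h2 : ∑ J ∈ Fintype.piFinset C, FT Y a g T J
      = Pr * (2 * ∑ z ∈ Y, (∑ c ∈ C z, (a z c : ℚ)) / (C z).card
      + ∑ z ∈ Y, ∑ y ∈ Y.erase z,
        ((∑ e ∈ C y, ∑ c ∈ C z, (g y z e c : ℚ)) / ((C y).card * (C z).card))
      + 2 * ∑ z ∈ Y, (∑ c ∈ C z, T z c) / (C z).card) := by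
    unfold FT o2
    rw [sum_add_distrib, sum_add_distrib, ← mul_sum, ← mul_sum]
    rw [sum_comm (s := Fintype.piFinset C) (t := Y) (f := fun J z => (a z (J z) : ℚ)),
      sum_comm (s := Fintype.piFinset C) (t := Y)
        (f := fun J z => ∑ y ∈ Y.erase z, (g y z (J y) (J z) : ℚ)),
      sum_comm (s := Fintype.piFinset C) (t := Y) (f := fun J z => T z (J z))]
    rw [sum_congr rfl (fun z _ => o1 z (fun c => (a z c : ℚ))), ← mul_sum,
      sum_congr rfl (fun z _ => o1 z (fun c => T z c)), ← mul_sum]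
    have h3 : ∀ z ∈ Y, ∑ J ∈ Fintype.piFinset C, ∑ y ∈ Y.erase z, (g y z (J y) (J z) : ℚ)
        = Pr * ∑ y ∈ Y.erase z,
          ((∑ e ∈ C y, ∑ c ∈ C z, (g y z e c : ℚ)) / ((C y).card * (C z).card)) := by
      intro z _
      rw [sum_comm, mul_sum]
      exact sum_congr rfl fun y hy => o3 z y (ne_of_mem_erase hy)
    rw [sum_congr rfl h3, ← mul_sum]
    ring
  rw [h2] at h1
  exact le_of_mul_le_mul_left h1 hP0

end FTavg

end Pool.Agent.Lib.MP_f04ccf_co
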