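import Pool.Agent.Lib.MP_f04ccf_co.M.LemL
import Pool.Agent.Lib.MP_f04ccf_co.M.LemF

/-!
MP_f04ccf_co: LEMMA L for one host (note 15932): split covers, arbitrary cost sets `K z c`, cells
`U y z c d`.  `lemL_host`: a transversal `J` whose split cover `XJ`, `K z (J z) ∩ P` has cost `o`, at
most `o - |XJ| - Σ |K z (J z) ∩ P|` members of `XJ` are located at no row, and every family of located
members `W z` and copies `X2 z` gives its gain; the slack `lam z - mu z` of the multipliers pays for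
the cells of the row `z` at the points of `J`.
-/

set_option autoImplicit false

namespace Pool.Agent.Lib.MP_f04ccf_co

open Finset

attribute [local instance] Classical.propDecidable

section LemLH

attribute [-instance] instDecidableEqSum

variable {ι V : Type*} {G F : SimpleGraph V} {tl : V → ι} {H P : Finset V} {B : Finset ι}

variable (G) in
/-- the cost set of the row `z` at the column `c` -/
noncomputable def KSp (H P : Finset V) (K : ι → V → Finset V) (z : ι) (c : V) :
    Finset (V ⊕ (Σ _ : ι, V)) :=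
  (H.filter fun v => G.Adj c v ∨ v ∈ K z c).disjSum
    (({z} : Finset ι).sigma fun _ => K z c ∩ P)

/-- the correction set of a cell -/
noncomputable def USp (U : ι → ι → V → V → Finset V) (y z : ι) (c e : V) :
    Finset (V ⊕ (Σ _ : ι, V)) :=
  (U y z c e).disjSum ∅

variable (G) in
/-- the members of the cover made by the transversal -/
noncomputable def XJ (H : Finset V) (B : Finset ι) (K : ι → V → Finset V)
    (U : ι → ι → V → V → Finset V) (c : ι → V) : Finset V :=
  H.filter fun v => (∃ z ∈ B, G.Adj (c z) v ∨ v ∈ K z (c z)) ∨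
    ∃ z ∈ B, ∃ y ∈ B.erase z, v ∈ U y z (c y) (c z)

variable (G) in
/-- the member `v` is located at the row `z` -/
def LocAt (B : Finset ι) (K : ι → V → Finset V) (U : ι → ι → V → V → Finset V) (J : ι → V) (z : ι)
    (v : V) : Prop :=
  (∀ y ∈ B.erase z, ¬ G.Adj (J y) v ∧ v ∉ K y (J y)) ∧
    ∀ y ∈ B.erase z, ∀ y' ∈ (B.erase z).erase y, v ∉ U y' y (J y') (J y)

/-- degrees outside a split cover -/
lemma sp_dg_le {X : Finset V} {Y : ι → Finset V} (hHP : Disjoint H P)
    (htl : ∀ v ∈ H, ∀ a ∈ P, F.Adj v a → tl v ∈ B) (hc : SpCov F tl H P X Y) {v : V}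
    (hv : v ∈ H) (hvX : v ∉ X) : dg F (H ∪ P) v ≤ X.card + ∑ z ∈ B, (Y z).card := by
  have e1 : dg F (H ∪ P) v = dg F H v + dg F P v := by
    unfold dg
    rw [filter_union, card_union_of_disjoint (disjoint_filter_filter hHP)]
  have e2 : dg F H v ≤ X.card := by
    unfold dg
    refine card_le_card fun w hw => ?_
    obtain ⟨w1, w2⟩ := mem_filter.1 hw
    exact (hc.1 v hv w w1 w2).resolve_left hvX
  have e3 : dg F P v ≤ ∑ z ∈ B, (Y z).card := by
    by_cases h0 : (P.filter fun a => F.Adj v a).Nonempty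
    · obtain ⟨a, ha⟩ := h0
      obtain ⟨a1, a2⟩ := mem_filter.1 ha
      have htv := htl v hv a a1 a2
      refine le_trans ?_ (single_le_sum (f := fun z => (Y z).card) (fun _ _ => Nat.zero_le _) htv)
      unfold dg
      refine card_le_card fun b hb => ?_
      obtain ⟨b1, b2⟩ := mem_filter.1 hb
      exact (hc.2 v hv b b1 b2).resolve_left hvX
    · unfold dg
      rw [not_nonempty_iff_eq_empty] at h0
      rw [h0, card_empty]
      exact Nat.zero_le _
  omega

/-- degrees of the copies outside a split cover -/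
lemma sp_cp_le {X : Finset V} {Y : ι → Finset V} (hc : SpCov F tl H P X Y) {z : ι} {a : V}
    (ha : a ∈ P) (haY : a ∉ Y z) :
    (H.filter fun w => tl w = z ∧ F.Adj w a).card ≤ X.card := by
  refine card_le_card fun w hw => ?_
  obtain ⟨w1, w2, w3⟩ := mem_filter.1 hw
  rcases hc.2 w w1 a ha w3 with h2 | h2
  · exact h2
  · rw [w2] at h2
    exact absurd h2 haY

/-- **LEMMA L for one host** -/
theorem lemL_host {C : ι → Finset V} {c₀ : ι → V} (h₀ : ∀ z ∈ B, c₀ z ∈ C z) (hHP : Disjoint H P)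
    (htl : ∀ v ∈ H, ∀ a ∈ P, F.Adj v a → tl v ∈ B) {K : ι → V → Finset V}
    (hK : ∀ z ∈ B, ∀ c ∈ C z, ∀ v ∈ MN G F tl H P z c, ∀ a ∈ P, F.Adj v a → v ∈ K z c ∨ a ∈ K z c)
    (hKP : ∀ z ∈ B, ∀ c ∈ C z, ∀ a ∈ K z c, a ∈ P → G.Adj c a)
    {U : ι → ι → V → V → Finset V}
    (hUs : ∀ y z c e, U y z c e = U z y e c)
    (hL : ∀ c : ι → V, (∀ y ∈ B, c y ∈ C y) → ∀ p ∈ H, ∀ q ∈ H, F.Adj p q →
      (∃ z ∈ B, (G.Adj (c z) p ∨ p ∈ K z (c z)) ∨ (G.Adj (c z) q ∨ q ∈ K z (c z))) ∨
        ∃ z ∈ B, ∃ y ∈ B.erase z, p ∈ U y z (c y) (c z) ∨ q ∈ U y z (c y) (c z))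
    {lam : ι → ℚ} (hlam : ∀ z, 0 ≤ lam z) :
    ∃ J : ι → V, (∀ z ∈ B, J z ∈ C z) ∧
      SpCov F tl H P (XJ G H B K U J) (fun z => if z ∈ B then K z (J z) ∩ P else ∅) ∧
      ∃ o gs : ℚ, 0 ≤ gs ∧
      2 * gs = ∑ z ∈ B, ∑ y ∈ B.erase z, ((U y z (J y) (J z)).card : ℚ) ∧
      o = ∑ z ∈ B, (((dg G H (J z) + (K z (J z)).card : ℕ)) : ℚ) + gs ∧
      ((XJ G H B K U J).card : ℚ) + ∑ z ∈ B, ((K z (J z) ∩ P).card : ℚ)
        + ((XJ G H B K U J).filter fun v => ∀ z ∈ B, ¬ LocAt G B K U J z v).card ≤ o ∧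
      ∀ (W X2 : ι → Finset V) (mu : ι → ℚ), (∀ z ∈ B, 0 ≤ mu z ∧ mu z ≤ lam z) →
        (∀ z ∈ B, ∀ v ∈ W z, v ∈ H ∧ LocAt G B K U J z v ∧
          mu z * ((W z).card + (X2 z).card)
            + th B C (fun y z c e => (U y z c e).card) lam z (J z) + o ≤ dg F (H ∪ P) v) →
        (∀ z ∈ B, ∀ a ∈ X2 z, a ∈ P ∧ mu z * ((W z).card + (X2 z).card)
            + th B C (fun y z c e => (U y z c e).card) lam z (J z) + o
            ≤ (H.filter fun w => tl w = z ∧ F.Adj w a).card) →
        o + gs + ∑ z ∈ B, mu z * (((W z) ∪ (X2 z)).card : ℚ)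
            + ∑ z ∈ B, (lam z - mu z) * ∑ y ∈ B.erase z,
              gav C (fun y z c e => (U y z c e).card) y z (J y)
          ≤ ∑ z ∈ B, (∑ c ∈ C z, ((dg G H c : ℚ) + (K z c).card
              + mu z * dg G ((W z) ∪ (X2 z)) c)) / (C z).card
            + ∑ z ∈ B, ∑ y ∈ B.erase z, (1 + lam y)
              * ((∑ c ∈ C z, ∑ e ∈ C y, ((U z y c e).card : ℚ)) / ((C z).card * (C y).card))
            + ∑ z ∈ B, mu z * ((∑ v ∈ W z,
              (((C z).filter fun c => ¬ G.Adj c v ∧ v ∈ K z c).card : ℚ)) / (C z).card) := by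
  have cK : ∀ z ∈ B, ∀ c ∈ C z, (KSp G H P K z c).card ≤ dg G H c + (K z c).card := by
    intro z _ c _
    unfold KSp
    rw [card_disjSum, card_sigma, sum_singleton]
    have k1 : (H.filter fun v => G.Adj c v ∨ v ∈ K z c).card ≤ dg G H c + (K z c ∩ H).card := by
      unfold dg
      refine (card_le_card ?_).trans (card_union_le _ _)
      intro v hv
      obtain ⟨v1, v2⟩ := mem_filter.1 hv
      rcases v2 with v2 | v2
      · exact mem_union_left _ (mem_filter.2 ⟨v1, v2⟩)
      · exact mem_union_right _ (mem_inter.2 ⟨v2, v1⟩)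
    have k2 : (K z c ∩ H).card + (K z c ∩ P).card ≤ (K z c).card := by
      rw [← card_union_of_disjoint (hHP.mono inter_subset_right inter_subset_right)]
      exact card_le_card (union_subset inter_subset_left inter_subset_left)
    omega
  have cU : ∀ y z c e, (USp U y z c e).card = (U y z c e).card := by
    intro y z c e
    unfold USp
    rw [card_disjSum, card_empty, add_zero]
  have sU : ∀ y z c e, USp U y z c e = USp U z y e c := by
    intro y z c e
    unfold USp
    rw [hUs]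
  have mK : ∀ z c v, (Sum.inl v : V ⊕ (Σ _ : ι, V)) ∈ KSp G H P K z c
      ↔ v ∈ H ∧ (G.Adj c v ∨ v ∈ K z c) := by
    intro z c v
    unfold KSp
    rw [inl_mem_disjSum, mem_filter]
  have mK2 : ∀ z c y a, (Sum.inr ⟨y, a⟩ : V ⊕ (Σ _ : ι, V)) ∈ KSp G H P K z c
      ↔ y = z ∧ a ∈ K z c ∩ P := by
    intro z c y a
    unfold KSp
    rw [inr_mem_disjSum, mem_sigma, mem_singleton]
  have mU : ∀ y z c e v, (Sum.inl v : V ⊕ (Σ _ : ι, V)) ∈ USp U y z c e ↔ v ∈ U y z c e := by
    intro y z c e v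
    unfold USp
    rw [inl_mem_disjSum]
  have mU2 : ∀ y z c e p, (Sum.inr p : V ⊕ (Σ _ : ι, V)) ∉ USp U y z c e := by
    intro y z c e p
    unfold USp
    rw [inr_mem_disjSum]
    exact notMem_empty _
  set D : (ι → V) → Finset (V ⊕ (Σ _ : ι, V)) := fun c =>
    (XJ G H B K U c).disjSum (B.sigma fun z => K z (c z) ∩ P) with hD
  have hDm : ∀ J : ι → V, (∀ z ∈ B, J z ∈ C z) → ∀ v ∈ D J,
      (∃ z ∈ B, v ∈ KSp G H P K z (J z)) ∨
      ∃ z ∈ B, ∃ y ∈ B.erase z, v ∈ USp U y z (J y) (J z) := by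
    intro J _ p hp
    rcases p with v | ⟨z, a⟩
    · rw [hD, inl_mem_disjSum] at hp
      obtain ⟨v1, v2⟩ := mem_filter.1 hp
      rcases v2 with ⟨z, hz, h⟩ | ⟨z, hz, y, hy, h⟩
      · exact Or.inl ⟨z, hz, (mK _ _ _).2 ⟨v1, h⟩⟩
      · exact Or.inr ⟨z, hz, y, hy, (mU _ _ _ _ _).2 h⟩
    · rw [hD, inr_mem_disjSum, mem_sigma] at hp
      exact Or.inl ⟨z, hp.1, (mK2 _ _ _ _).2 ⟨rfl, hp.2⟩⟩
  have hcnt : ∀ J : ι → V, (∀ z ∈ B, J z ∈ C z) →
      2 * ((D J).card : ℚ) + 2 * (((D J).filter fun v => ¬ Loc B (KSp G H P K) (USp U) J v).card : ℚ)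
        ≤ o2 B (fun z c => dg G H c + (K z c).card) (fun y z c e => (U y z c e).card) J := by
    intro J hJ
    have h1 := lemL_count (Y := B) (K := KSp G H P K) (U := USp U) (J := J) sU (hDm J hJ)
    have h2 : ∑ z ∈ B, (KSp G H P K z (J z)).card ≤ ∑ z ∈ B, (dg G H (J z) + (K z (J z)).card) :=
      sum_le_sum fun z hz => cK z hz _ (hJ z hz)
    simp only [cU] at h1
    have h3 : 2 * (D J).card + 2 * ((D J).filter fun v => ¬ Loc B (KSp G H P K) (USp U) J v).card
        ≤ 2 * ∑ z ∈ B, (dg G H (J z) + (K z (J z)).card)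
          + ∑ z ∈ B, ∑ y ∈ B.erase z, (U y z (J y) (J z)).card := by omega
    unfold o2
    exact_mod_cast h3
  have hcov : ∀ c : ι → V, (∀ z ∈ B, c z ∈ C z) →
      SpCov F tl H P (XJ G H B K U c) (fun z => if z ∈ B then K z (c z) ∩ P else ∅) := by
    intro c hc
    refine ⟨fun p hp q hq hpq => ?_, fun v hv a ha hva => ?_⟩
    · rcases hL c hc p hp q hq hpq with ⟨z, hz, h2 | h2⟩ | ⟨z, hz, y, hy, h2 | h2⟩
      · exact Or.inl (mem_filter.2 ⟨hp, Or.inl ⟨z, hz, h2⟩⟩)
      · exact Or.inr (mem_filter.2 ⟨hq, Or.inl ⟨z, hz, h2⟩⟩)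
      · exact Or.inl (mem_filter.2 ⟨hp, Or.inr ⟨z, hz, y, hy, h2⟩⟩)
      · exact Or.inr (mem_filter.2 ⟨hq, Or.inr ⟨z, hz, y, hy, h2⟩⟩)
    · have hz := htl v hv a ha hva
      beta_reduce
      rw [if_pos hz]
      by_cases h2 : G.Adj (c (tl v)) v
      · exact Or.inl (mem_filter.2 ⟨hv, Or.inl ⟨_, hz, Or.inl h2⟩⟩)
      · rcases hK _ hz _ (hc _ hz) v (mem_MN.2 ⟨hv, rfl, h2, a, ha, hva⟩) a ha hva with h3 | h3
        · exact Or.inl (mem_filter.2 ⟨hv, Or.inl ⟨_, hz, Or.inr h3⟩⟩)
        · exact Or.inr (mem_inter.2 ⟨h3, ha⟩)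
  have hDc : ∀ c : ι → V, ((D c).card : ℚ) = (XJ G H B K U c).card
      + ∑ z ∈ B, (((if z ∈ B then K z (c z) ∩ P else ∅) : Finset V).card : ℚ) := by
    intro c
    rw [hD]
    beta_reduce
    rw [card_disjSum, card_sigma]
    push_cast
    congr 1
    exact sum_congr rfl fun z hz => by rw [if_pos hz]
  obtain ⟨J, hJ, hmain⟩ := lemL_slack' (Y := B) (C := C) (a := fun z c => dg G H c + (K z c).card)
    (g := fun y z c e => (U y z c e).card) (lam := lam) h₀ (fun y z c d => by rw [hUs]) hlam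
    (X := H.disjSum (B.sigma fun _ => P))
    (d := Sum.elim (fun v => (dg F (H ∪ P) v : ℚ))
      (fun p => ((H.filter fun w => tl w = p.1 ∧ F.Adj w p.2).card : ℚ)))
    (K := KSp G H P K) (U := USp U) (D := D) (fun y z c e => (cU y z c e).le) hDm sU
    (fun J hJ => by
      have h1 := hcnt J hJ
      have h2 : (0 : ℚ) ≤ (((D J).filter fun v => ¬ Loc B (KSp G H P K) (USp U) J v).card : ℚ) :=
        Nat.cast_nonneg _
      linarith)
    (fun c hc p hp hpD => by
      rw [hDc c]
      rcases p with v | ⟨z, a⟩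
      · rw [inl_mem_disjSum] at hp
        have h1 : v ∉ XJ G H B K U c := fun h => hpD (by rw [hD, inl_mem_disjSum]; exact h)
        have h2 := sp_dg_le hHP htl (hcov c hc) hp h1
        simp only [Sum.elim_inl]
        exact_mod_cast h2
      · rw [inr_mem_disjSum, mem_sigma] at hp
        have h1 : a ∉ (if z ∈ B then K z (c z) ∩ P else ∅ : Finset V) := by
          rw [if_pos hp.1]
          exact fun h => hpD (by rw [hD, inr_mem_disjSum, mem_sigma]; exact ⟨hp.1, h⟩)
        have h2 := sp_cp_le (hcov c hc) hp.2 h1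
        have h3 : (H.filter fun w => tl w = z ∧ F.Adj w a).card ≤ (XJ G H B K U c).card
            + ∑ z ∈ B, ((if z ∈ B then K z (c z) ∩ P else ∅) : Finset V).card :=
          h2.trans (Nat.le_add_right _ _)
        simp only [Sum.elim_inr]
        exact_mod_cast h3)
  have hgs : (0 : ℚ) ≤ ∑ z ∈ B, ∑ y ∈ B.erase z, ((U y z (J y) (J z)).card : ℚ) :=
    sum_nonneg fun z _ => sum_nonneg fun y _ => Nat.cast_nonneg _
  refine ⟨J, hJ, hcov J hJ,
    o2 B (fun z c => dg G H c + (K z c).card) (fun y z c e => (U y z c e).card) J / 2,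
    (∑ z ∈ B, ∑ y ∈ B.erase z, ((U y z (J y) (J z)).card : ℚ)) / 2, by linarith, by ring, ?_,
    ?_, ?_⟩
  · unfold o2
    ring
  · have h1 := hcnt J hJ
    have h2 := hDc J
    have h0 : ∑ z ∈ B, (((if z ∈ B then K z (J z) ∩ P else ∅) : Finset V).card : ℚ)
        = ∑ z ∈ B, ((K z (J z) ∩ P).card : ℚ) :=
      sum_congr rfl fun z hz => by rw [if_pos hz]
    rw [h0] at h2
    have h3 : ((XJ G H B K U J).filter fun v => ∀ z ∈ B, ¬ LocAt G B K U J z v).card
        ≤ ((D J).filter fun v => ¬ Loc B (KSp G H P K) (USp U) J v).card := by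
      have h4 : (((XJ G H B K U J).filter fun v => ∀ z ∈ B, ¬ LocAt G B K U J z v).map
          ⟨Sum.inl, Sum.inl_injective⟩ : Finset (V ⊕ (Σ _ : ι, V)))
          ⊆ (D J).filter fun v => ¬ Loc B (KSp G H P K) (USp U) J v := by
        intro p hp
        obtain ⟨v, hv, rfl⟩ := mem_map.1 hp
        obtain ⟨v1, v2⟩ := mem_filter.1 hv
        refine mem_filter.2 ⟨?_, ?_⟩
        · rw [hD]
          exact inl_mem_disjSum.2 v1
        · rintro ⟨z, hz, h5, h6⟩
          refine v2 z hz ⟨fun y hy => ?_, fun y hy y' hy' h7 => ?_⟩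
          · have h7 := h5 y hy
            by_contra h8
            rw [not_and_or, not_not, not_not] at h8
            exact h7 ((mK _ _ _).2 ⟨(mem_filter.1 v1).1, h8⟩)
          · exact h6 y hy y' hy' ((mU _ _ _ _ _).2 h7)
      have h5 := card_le_card h4
      rwa [card_map] at h5
    have h3' : ((((XJ G H B K U J).filter fun v => ∀ z ∈ B, ¬ LocAt G B K U J z v).card : ℕ) : ℚ)
        ≤ (((D J).filter fun v => ¬ Loc B (KSp G H P K) (USp U) J v).card : ℚ) := by
      exact_mod_cast h3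
    linarith
  · intro W X2 mu hmu hW hX2
    have h1 := hmain (fun z => (W z).disjSum (({z} : Finset ι).sigma fun _ => X2 z)) mu hmu
      (fun z hz p hp => by
        have hcw : (((W z).disjSum (({z} : Finset ι).sigma fun _ => X2 z) :
            Finset (V ⊕ (Σ _ : ι, V))).card : ℚ) = (W z).card + (X2 z).card := by
          rw [card_disjSum, card_sigma, sum_singleton]
          push_cast
          rfl
        rw [hcw]
        rcases p with v | ⟨z', a⟩
        · rw [inl_mem_disjSum] at hp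
          obtain ⟨w1, ⟨w2, w3⟩, w4⟩ := hW z hz v hp
          refine ⟨inl_mem_disjSum.2 w1, fun y hy h => ?_, fun y hy y' hy' h => ?_, ?_⟩
          · obtain ⟨-, h5 | h5⟩ := (mK _ _ _).1 h
            · exact (w2 y hy).1 h5
            · exact (w2 y hy).2 h5
          · exact w3 y hy y' hy' ((mU _ _ _ _ _).1 h)
          · simp only [Sum.elim_inl]
            linarith
        · rw [inr_mem_disjSum, mem_sigma, mem_singleton] at hp
          obtain ⟨p1, p2⟩ := hp
          simp only at p1 p2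
          subst p1
          obtain ⟨w1, w4⟩ := hX2 z' hz a p2
          refine ⟨?_, fun y hy h => ?_, fun y hy y' hy' h => mU2 _ _ _ _ _ h, ?_⟩
          · rw [inr_mem_disjSum, mem_sigma]
            exact ⟨hz, w1⟩
          · exact (ne_of_mem_erase hy) ((mK2 _ _ _ _).1 h).1.symm
          · simp only [Sum.elim_inr]
            linarith)
    -- the gain of a row
    have gain : ∀ z ∈ B, mu z * (((W z) ∪ (X2 z)).card : ℚ)
        ≤ mu z * ((∑ c ∈ C z, ((((W z).disjSum (({z} : Finset ι).sigma fun _ => X2 z) :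
            Finset (V ⊕ (Σ _ : ι, V))) \ KSp G H P K z c).card : ℚ)) / (C z).card)
          + (∑ c ∈ C z, (mu z * dg G ((W z) ∪ (X2 z)) c : ℚ)) / (C z).card
          + mu z * ((∑ v ∈ W z,
              (((C z).filter fun c => ¬ G.Adj c v ∧ v ∈ K z c).card : ℚ)) / (C z).card) := by
      intro z hz
      have hc0 : (0 : ℚ) < (C z).card := by exact_mod_cast card_pos.2 ⟨_, hJ z hz⟩
      have hWH : W z ⊆ H := fun v hv => (hW z hz v hv).1
      have hXP : X2 z ⊆ P := fun v hv => (hX2 z hz v hv).1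
      have pw : ∀ c ∈ C z, ((W z) ∪ (X2 z)).card
          ≤ (((W z).disjSum (({z} : Finset ι).sigma fun _ => X2 z) :
            Finset (V ⊕ (Σ _ : ι, V))) \ KSp G H P K z c).card + dg G ((W z) ∪ (X2 z)) c
            + ((W z).filter fun v => ¬ G.Adj c v ∧ v ∈ K z c).card := by
        intro c hc
        have q1 : ((W z).filter fun v => ¬ G.Adj c v ∧ v ∉ K z c).card
            + ((X2 z).filter fun a => a ∉ K z c).card
            ≤ (((W z).disjSum (({z} : Finset ι).sigma fun _ => X2 z) :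
              Finset (V ⊕ (Σ _ : ι, V))) \ KSp G H P K z c).card := by
          have q2 : (((W z).filter fun v => ¬ G.Adj c v ∧ v ∉ K z c).disjSum
              (({z} : Finset ι).sigma fun _ => (X2 z).filter fun a => a ∉ K z c) :
              Finset (V ⊕ (Σ _ : ι, V))).card
              = ((W z).filter fun v => ¬ G.Adj c v ∧ v ∉ K z c).card
                + ((X2 z).filter fun a => a ∉ K z c).card := by
            rw [card_disjSum, card_sigma, sum_singleton]
          rw [← q2]
          refine card_le_card fun p hp => ?_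
          rw [mem_sdiff]
          rcases p with v | ⟨y, a⟩
          · rw [inl_mem_disjSum, mem_filter] at hp
            refine ⟨inl_mem_disjSum.2 hp.1, fun h => ?_⟩
            obtain ⟨-, h5 | h5⟩ := (mK _ _ _).1 h
            · exact hp.2.1 h5
            · exact hp.2.2 h5
          · rw [inr_mem_disjSum, mem_sigma, mem_singleton, mem_filter] at hp
            refine ⟨?_, fun h => ?_⟩
            · rw [inr_mem_disjSum, mem_sigma, mem_singleton]
              exact ⟨hp.1, hp.2.1⟩
            · exact hp.2.2 (mem_inter.1 ((mK2 _ _ _ _).1 h).2).1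
        have q3 : (W z).card = ((W z).filter fun v => G.Adj c v).card
            + (((W z).filter fun v => ¬ G.Adj c v ∧ v ∈ K z c).card
              + ((W z).filter fun v => ¬ G.Adj c v ∧ v ∉ K z c).card) := by
          rw [← filter_filter, ← filter_filter, card_filter_add_card_filter_not,
            card_filter_add_card_filter_not]
        have q4 : (X2 z).card ≤ ((X2 z).filter fun a => G.Adj c a).card
            + ((X2 z).filter fun a => a ∉ K z c).card := by
          refine (card_le_card ?_).trans (card_union_le _ _)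
          intro a ha
          by_cases h5 : a ∈ K z c
          · exact mem_union_left _ (mem_filter.2 ⟨ha, hKP z hz c hc a h5 (hXP ha)⟩)
          · exact mem_union_right _ (mem_filter.2 ⟨ha, h5⟩)
        have q5 : dg G ((W z) ∪ (X2 z)) c = ((W z).filter fun v => G.Adj c v).card
            + ((X2 z).filter fun a => G.Adj c a).card := by
          unfold dg
          rw [filter_union, card_union_of_disjoint]
          exact disjoint_filter_filter (hHP.mono hWH hXP)
        have q6 := card_union_le (W z) (X2 z)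
        omega
      have s1 : ((C z).card : ℚ) * (((W z) ∪ (X2 z)).card : ℚ)
          ≤ ∑ c ∈ C z, ((((W z).disjSum (({z} : Finset ι).sigma fun _ => X2 z) :
              Finset (V ⊕ (Σ _ : ι, V))) \ KSp G H P K z c).card : ℚ)
            + ∑ c ∈ C z, (dg G ((W z) ∪ (X2 z)) c : ℚ)
            + ∑ v ∈ W z, (((C z).filter fun c => ¬ G.Adj c v ∧ v ∈ K z c).card : ℚ) := by
        have s2 := sum_le_sum pw
        rw [sum_const, smul_eq_mul, sum_add_distrib, sum_add_distrib] at s2
        have s3 : ∑ c ∈ C z, ((W z).filter fun v => ¬ G.Adj c v ∧ v ∈ K z c).card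
            = ∑ v ∈ W z, ((C z).filter fun c => ¬ G.Adj c v ∧ v ∈ K z c).card := by
          simp only [card_filter]
          exact sum_comm
        rw [s3] at s2
        exact_mod_cast s2
      rw [← mul_sum, mul_div_assoc, ← mul_add, ← mul_add, ← add_div, ← add_div]
      refine mul_le_mul_of_nonneg_left ?_ (hmu z hz).1
      rw [le_div_iff₀ hc0]
      linarith
    have h2 := sum_le_sum gain
    simp only [sum_add_distrib] at h2
    have h3 : ∑ z ∈ B, (∑ c ∈ C z, ((dg G H c : ℚ) + (K z c).card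
          + mu z * dg G ((W z) ∪ (X2 z)) c)) / (C z).card
        = ∑ z ∈ B, (∑ c ∈ C z, (((dg G H c + (K z c).card : ℕ)) : ℚ)) / (C z).card
          + ∑ z ∈ B, (∑ c ∈ C z, (mu z * dg G ((W z) ∪ (X2 z)) c : ℚ)) / (C z).card := by
      rw [← sum_add_distrib]
      refine sum_congr rfl fun z _ => ?_
      rw [← add_div, ← sum_add_distrib]
      congr 1
      refine sum_congr rfl fun c _ => ?_
      push_cast
      ring
    rw [h3]
    unfold o2
    linarith

end LemLH

end Pool.Agent.Lib.MP_f04ccf_co
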