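import Pool.Agent.Lib.MP_f04ccf_co.M.LemLG

/-!
MP_f04ccf_co: LEMMA L for one host with the local threshold (note 16066).  `dlM`: number of partners
of a member outside everything the other rows see; `dlC`: the same for a copy.  `lemL_hostL`.
-/

set_option autoImplicit false

namespace Pool.Agent.Lib.MP_f04ccf_co

open Finset

attribute [local instance] Classical.propDecidable

section LemLL

attribute [-instance] instDecidableEqSum

variable {ι V : Type*} {G F : SimpleGraph V} {tl : V → ι} {H P : Finset V} {B : Finset ι}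
  {K : ι → V → Finset V} {U : ι → ι → V → V → Finset V}

variable (G) in
/-- the split cover made by a transversal, as a set of members and copies -/
noncomputable def DSp (H P : Finset V) (B : Finset ι) (K : ι → V → Finset V)
    (U : ι → ι → V → V → Finset V) (c : ι → V) : Finset (V ⊕ (Σ _ : ι, V)) :=
  (XJ G H B K U c).disjSum (B.sigma fun z => K z (c z) ∩ P)

variable (F) in
/-- the partners of a member or of a copy -/
noncomputable def NSp (tl : V → ι) (H P : Finset V) : V ⊕ (Σ _ : ι, V) → Finset (V ⊕ (Σ _ : ι, V)) :=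
  Sum.elim
    (fun v => (H.filter fun w => F.Adj v w).disjSum
      (({tl v} : Finset ι).sigma fun _ => P.filter fun a => F.Adj v a))
    (fun p => (H.filter fun w => tl w = p.1 ∧ F.Adj w p.2).disjSum ∅)

lemma mem_KSp_inl {z : ι} {c v : V} : (Sum.inl v : V ⊕ (Σ _ : ι, V)) ∈ KSp G H P K z c
    ↔ v ∈ H ∧ (G.Adj c v ∨ v ∈ K z c) := by
  unfold KSp
  rw [inl_mem_disjSum, mem_filter]

lemma mem_KSp_inr {z : ι} {c : V} {y : ι} {a : V} :
    (Sum.inr ⟨y, a⟩ : V ⊕ (Σ _ : ι, V)) ∈ KSp G H P K z c ↔ y = z ∧ a ∈ K z c ∩ P := by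
  unfold KSp
  rw [inr_mem_disjSum, mem_sigma, mem_singleton]

lemma mem_USp_inl {y z : ι} {c e v : V} : (Sum.inl v : V ⊕ (Σ _ : ι, V)) ∈ USp U y z c e
    ↔ v ∈ U y z c e := by
  unfold USp
  rw [inl_mem_disjSum]

lemma notMem_USp_inr {y z : ι} {c e : V} {p : Σ _ : ι, V} :
    (Sum.inr p : V ⊕ (Σ _ : ι, V)) ∉ USp U y z c e := by
  unfold USp
  rw [inr_mem_disjSum]
  exact notMem_empty _

lemma USp_card {y z : ι} {c e : V} : (USp U y z c e).card = (U y z c e).card := by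
  unfold USp
  rw [card_disjSum, card_empty, add_zero]

lemma KSp_card_le (hHP : Disjoint H P) (z : ι) (c : V) :
    (KSp G H P K z c).card ≤ dg G H c + (K z c).card := by
  unfold KSp
  rw [card_disjSum, card_sigma, sum_singleton]
  have k1 : (H.filter fun v => G.Adj c v ∨ v ∈ K z c).card ≤ dg G H c + (K z c ∩ H).card := by
    unfold dg
    refine (card_le_card ?_).trans (card_union_le _ _)
    intro v hv
    obtain ⟨v1, v2⟩ := mem_filter.1 hv
    rcases v2 with v2 | v2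
    · exact mem_union_left _ (mem_filter.2 ⟨v1, v2⟩)
    · exact mem_union_right _ (mem_inter.2 ⟨v2, v1⟩)
  have k2 : (K z c ∩ H).card + (K z c ∩ P).card ≤ (K z c).card := by
    rw [← card_union_of_disjoint (hHP.mono inter_subset_right inter_subset_right)]
    exact card_le_card (union_subset inter_subset_left inter_subset_left)
  omega

lemma mem_DSp_inl {c : ι → V} {v : V} :
    (Sum.inl v : V ⊕ (Σ _ : ι, V)) ∈ DSp G H P B K U c ↔ v ∈ XJ G H B K U c := by
  unfold DSp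
  rw [inl_mem_disjSum]

lemma mem_DSp_inr {c : ι → V} {z : ι} {a : V} :
    (Sum.inr ⟨z, a⟩ : V ⊕ (Σ _ : ι, V)) ∈ DSp G H P B K U c ↔ z ∈ B ∧ a ∈ K z (c z) ∩ P := by
  unfold DSp
  rw [inr_mem_disjSum, mem_sigma]

lemma DSp_sub {J : ι → V} {p : V ⊕ (Σ _ : ι, V)} (hp : p ∈ DSp G H P B K U J) :
    (∃ z ∈ B, p ∈ KSp G H P K z (J z)) ∨
      ∃ z ∈ B, ∃ y ∈ B.erase z, p ∈ USp U y z (J y) (J z) := by
  rcases p with v | ⟨z, a⟩
  · rw [mem_DSp_inl] at hp
    obtain ⟨v1, v2⟩ := mem_filter.1 hp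
    rcases v2 with ⟨z, hz, h⟩ | ⟨z, hz, y, hy, h⟩
    · exact Or.inl ⟨z, hz, mem_KSp_inl.2 ⟨v1, h⟩⟩
    · exact Or.inr ⟨z, hz, y, hy, mem_USp_inl.2 h⟩
  · rw [mem_DSp_inr] at hp
    exact Or.inl ⟨z, hp.1, mem_KSp_inr.2 ⟨rfl, hp.2⟩⟩

variable (G F) in
/-- the hypotheses of a host: tails in `B`, Koenig sets, cells -/
structure HostL (tl : V → ι) (H P : Finset V) (B : Finset ι) (C : ι → Finset V)
    (K : ι → V → Finset V) (U : ι → ι → V → V → Finset V) : Prop where
  hHP : Disjoint H P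
  htl : ∀ v ∈ H, ∀ a ∈ P, F.Adj v a → tl v ∈ B
  hK : ∀ z ∈ B, ∀ c ∈ C z, ∀ v ∈ MN G F tl H P z c, ∀ a ∈ P, F.Adj v a → v ∈ K z c ∨ a ∈ K z c
  hKP : ∀ z ∈ B, ∀ c ∈ C z, ∀ a ∈ K z c, a ∈ P → G.Adj c a
  hUs : ∀ y z c e, U y z c e = U z y e c
  hL : ∀ c : ι → V, (∀ y ∈ B, c y ∈ C y) → ∀ p ∈ H, ∀ q ∈ H, F.Adj p q →
      (∃ z ∈ B, (G.Adj (c z) p ∨ p ∈ K z (c z)) ∨ (G.Adj (c z) q ∨ q ∈ K z (c z))) ∨
        ∃ z ∈ B, ∃ y ∈ B.erase z, p ∈ U y z (c y) (c z) ∨ q ∈ U y z (c y) (c z)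

variable {C : ι → Finset V}

/-- every transversal gives a split cover -/
lemma HostL.cov (h : HostL G F tl H P B C K U) {c : ι → V} (hc : ∀ z ∈ B, c z ∈ C z) :
    SpCov F tl H P (XJ G H B K U c) (fun z => if z ∈ B then K z (c z) ∩ P else ∅) := by
  refine ⟨fun p hp q hq hpq => ?_, fun v hv a ha hva => ?_⟩
  · rcases h.hL c hc p hp q hq hpq with ⟨z, hz, h2 | h2⟩ | ⟨z, hz, y, hy, h2 | h2⟩
    · exact Or.inl (mem_filter.2 ⟨hp, Or.inl ⟨z, hz, h2⟩⟩)
    · exact Or.inr (mem_filter.2 ⟨hq, Or.inl ⟨z, hz, h2⟩⟩)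
    · exact Or.inl (mem_filter.2 ⟨hp, Or.inr ⟨z, hz, y, hy, h2⟩⟩)
    · exact Or.inr (mem_filter.2 ⟨hq, Or.inr ⟨z, hz, y, hy, h2⟩⟩)
  · have hz := h.htl v hv a ha hva
    beta_reduce
    rw [if_pos hz]
    by_cases h2 : G.Adj (c (tl v)) v
    · exact Or.inl (mem_filter.2 ⟨hv, Or.inl ⟨_, hz, Or.inl h2⟩⟩)
    · rcases h.hK _ hz _ (hc _ hz) v (mem_MN.2 ⟨hv, rfl, h2, a, ha, hva⟩) a ha hva with h3 | h3
      · exact Or.inl (mem_filter.2 ⟨hv, Or.inl ⟨_, hz, Or.inr h3⟩⟩)
      · exact Or.inr (mem_inter.2 ⟨h3, ha⟩)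

/-- the partners of a point outside the cover lie in the cover -/
lemma HostL.nbr (h : HostL G F tl H P B C K U) {c : ι → V} (hc : ∀ z ∈ B, c z ∈ C z)
    {p : V ⊕ (Σ _ : ι, V)} (hp : p ∈ H.disjSum (B.sigma fun _ => P))
    (hpD : p ∉ DSp G H P B K U c) : NSp F tl H P p ⊆ DSp G H P B K U c := by
  have hcv := h.cov hc
  rcases p with v | ⟨z, a⟩
  · rw [inl_mem_disjSum] at hp
    rw [mem_DSp_inl] at hpD
    intro q hq
    simp only [NSp, Sum.elim_inl] at hq
    rcases q with w | ⟨y, b⟩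
    · rw [inl_mem_disjSum, mem_filter] at hq
      exact mem_DSp_inl.2 ((hcv.1 v hp w hq.1 hq.2).resolve_left hpD)
    · rw [inr_mem_disjSum, mem_sigma, mem_singleton, mem_filter] at hq
      obtain ⟨q1, q2, q3⟩ := hq
      simp only at q1 q2 q3
      have h4 := (hcv.2 v hp b q2 q3).resolve_left hpD
      have hz := h.htl v hp b q2 q3
      beta_reduce at h4
      rw [if_pos hz] at h4
      subst q1
      exact mem_DSp_inr.2 ⟨hz, h4⟩
  · rw [inr_mem_disjSum, mem_sigma] at hp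
    rw [mem_DSp_inr] at hpD
    intro q hq
    simp only [NSp, Sum.elim_inr] at hq
    rcases q with w | ⟨y, b⟩
    · rw [inl_mem_disjSum, mem_filter] at hq
      obtain ⟨w1, w2, w3⟩ := hq
      rcases hcv.2 w w1 a hp.2 w3 with h4 | h4
      · exact mem_DSp_inl.2 h4
      · rw [w2] at h4
        beta_reduce at h4
        rw [if_pos hp.1] at h4
        exact absurd ⟨hp.1, h4⟩ hpD
    · rw [inr_mem_disjSum] at hq
      exact absurd hq (notMem_empty _)

variable (G F) in
/-- partners of a member `v` outside what the rows other than `z` see -/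
noncomputable def dlM (tl : V → ι) (H P : Finset V) (B : Finset ι) (K : ι → V → Finset V)
    (U : ι → ι → V → V → Finset V) (J : ι → V) (z : ι) (v : V) : ℕ :=
  (H.filter fun w => F.Adj v w ∧ LocAt G B K U J z w).card
    + (P.filter fun a => F.Adj v a ∧ (tl v = z ∨ a ∉ K (tl v) (J (tl v)))).card

variable (G F) in
/-- partners of a copy `(z, a)` outside what the rows other than `z` see -/
noncomputable def dlC (tl : V → ι) (H : Finset V) (B : Finset ι) (K : ι → V → Finset V)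
    (U : ι → ι → V → V → Finset V) (J : ι → V) (z : ι) (a : V) : ℕ :=
  (H.filter fun w => (tl w = z ∧ F.Adj w a) ∧ LocAt G B K U J z w).card

lemma notMem_Rz_inl {J : ι → V} {z : ι} {v : V} (hv : v ∈ H) :
    (Sum.inl v : V ⊕ (Σ _ : ι, V)) ∉ Rz B (KSp G H P K) (USp U) J z ↔ LocAt G B K U J z v := by
  rw [mem_Rz, not_or]
  unfold LocAt
  push Not
  refine and_congr (forall_congr' fun y => forall_congr' fun _ => ?_) (forall_congr' fun y =>
    forall_congr' fun _ => forall_congr' fun y' => forall_congr' fun _ => ?_)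
  · rw [mem_KSp_inl]
    constructor
    · intro h
      refine ⟨fun h1 => h ⟨hv, Or.inl h1⟩, fun h1 => h ⟨hv, Or.inr h1⟩⟩
    · rintro ⟨h1, h2⟩ ⟨-, h3 | h3⟩
      · exact h1 h3
      · exact h2 h3
  · rw [mem_USp_inl]

lemma notMem_Rz_inr {J : ι → V} {z y : ι} {a : V} (h : y ∈ B → y ≠ z → a ∉ K y (J y)) :
    (Sum.inr ⟨y, a⟩ : V ⊕ (Σ _ : ι, V)) ∉ Rz B (KSp G H P K) (USp U) J z := by
  rw [mem_Rz, not_or]
  push Not
  refine ⟨fun y' hy' h1 => ?_, fun y' _ y2 _ => notMem_USp_inr⟩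
  obtain ⟨h2, h3⟩ := mem_KSp_inr.1 h1
  subst h2
  exact h (mem_of_mem_erase hy') (ne_of_mem_erase hy') (mem_inter.1 h3).1

lemma dlM_le {J : ι → V} {z : ι} {v : V} :
    dlM G F tl H P B K U J z v
      ≤ ((NSp F tl H P (Sum.inl v)) \ Rz B (KSp G H P K) (USp U) J z).card := by
  have h1 : ((H.filter fun w => F.Adj v w ∧ LocAt G B K U J z w).disjSum
      (({tl v} : Finset ι).sigma fun _ => P.filter fun a => F.Adj v a ∧
        (tl v = z ∨ a ∉ K (tl v) (J (tl v)))) : Finset (V ⊕ (Σ _ : ι, V)))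
      ⊆ (NSp F tl H P (Sum.inl v)) \ Rz B (KSp G H P K) (USp U) J z := by
    intro q hq
    rw [mem_sdiff]
    simp only [NSp, Sum.elim_inl]
    rcases q with w | ⟨y, b⟩
    · rw [inl_mem_disjSum, mem_filter] at hq
      obtain ⟨w1, w2, w3⟩ := hq
      refine ⟨?_, (notMem_Rz_inl w1).2 w3⟩
      rw [inl_mem_disjSum, mem_filter]
      exact ⟨w1, w2⟩
    · rw [inr_mem_disjSum, mem_sigma, mem_singleton, mem_filter] at hq
      obtain ⟨q1, q2, q3, q4⟩ := hq
      simp only at q1 q2 q3 q4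
      subst q1
      refine ⟨?_, notMem_Rz_inr fun _ h2 => q4.resolve_left h2⟩
      rw [inr_mem_disjSum, mem_sigma, mem_singleton, mem_filter]
      exact ⟨rfl, q2, q3⟩
  have h2 := card_le_card h1
  rw [card_disjSum, card_sigma, sum_singleton] at h2
  exact h2

lemma dlC_le {J : ι → V} {z : ι} {a : V} :
    dlC G F tl H B K U J z a
      ≤ ((NSp F tl H P (Sum.inr ⟨z, a⟩)) \ Rz B (KSp G H P K) (USp U) J z).card := by
  have h1 : ((H.filter fun w => (tl w = z ∧ F.Adj w a) ∧ LocAt G B K U J z w).disjSum ∅ :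
      Finset (V ⊕ (Σ _ : ι, V)))
      ⊆ (NSp F tl H P (Sum.inr ⟨z, a⟩)) \ Rz B (KSp G H P K) (USp U) J z := by
    intro q hq
    rw [mem_sdiff]
    simp only [NSp, Sum.elim_inr]
    rcases q with w | ⟨y, b⟩
    · rw [inl_mem_disjSum, mem_filter] at hq
      obtain ⟨w1, w2, w3⟩ := hq
      refine ⟨?_, (notMem_Rz_inl w1).2 w3⟩
      rw [inl_mem_disjSum, mem_filter]
      exact ⟨w1, w2⟩
    · rw [inr_mem_disjSum] at hq
      exact absurd hq (notMem_empty _)
  have h2 := card_le_card h1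
  rw [card_disjSum, card_empty, add_zero] at h2
  exact h2

/-- the gain of one row -/
lemma host_gain (hHP : Disjoint H P) {z : ι}
    (hKP : ∀ c ∈ C z, ∀ a ∈ K z c, a ∈ P → G.Adj c a) {W X2 : Finset V} (hWH : W ⊆ H)
    (hXP : X2 ⊆ P) {mu : ℚ} (hmu : 0 ≤ mu) (hc0 : (0 : ℚ) < (C z).card) :
    mu * ((W ∪ X2).card : ℚ)
      ≤ mu * ((∑ c ∈ C z, (((W.disjSum (({z} : Finset ι).sigma fun _ => X2) :
            Finset (V ⊕ (Σ _ : ι, V))) \ KSp G H P K z c).card : ℚ)) / (C z).card)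
          + (∑ c ∈ C z, (mu * dg G (W ∪ X2) c : ℚ)) / (C z).card
          + mu * ((∑ v ∈ W,
              (((C z).filter fun c => ¬ G.Adj c v ∧ v ∈ K z c).card : ℚ)) / (C z).card) := by
  have pw : ∀ c ∈ C z, (W ∪ X2).card
      ≤ ((W.disjSum (({z} : Finset ι).sigma fun _ => X2) :
        Finset (V ⊕ (Σ _ : ι, V))) \ KSp G H P K z c).card + dg G (W ∪ X2) c
        + (W.filter fun v => ¬ G.Adj c v ∧ v ∈ K z c).card := by
    intro c hc
    have q1 : (W.filter fun v => ¬ G.Adj c v ∧ v ∉ K z c).card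
        + (X2.filter fun a => a ∉ K z c).card
        ≤ ((W.disjSum (({z} : Finset ι).sigma fun _ => X2) :
          Finset (V ⊕ (Σ _ : ι, V))) \ KSp G H P K z c).card := by
      have q2 : ((W.filter fun v => ¬ G.Adj c v ∧ v ∉ K z c).disjSum
          (({z} : Finset ι).sigma fun _ => X2.filter fun a => a ∉ K z c) :
          Finset (V ⊕ (Σ _ : ι, V))).card
          = (W.filter fun v => ¬ G.Adj c v ∧ v ∉ K z c).card
            + (X2.filter fun a => a ∉ K z c).card := by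
        rw [card_disjSum, card_sigma, sum_singleton]
      rw [← q2]
      refine card_le_card fun p hp => ?_
      rw [mem_sdiff]
      rcases p with v | ⟨y, a⟩
      · rw [inl_mem_disjSum, mem_filter] at hp
        refine ⟨inl_mem_disjSum.2 hp.1, fun h => ?_⟩
        obtain ⟨-, h5 | h5⟩ := mem_KSp_inl.1 h
        · exact hp.2.1 h5
        · exact hp.2.2 h5
      · rw [inr_mem_disjSum, mem_sigma, mem_singleton, mem_filter] at hp
        refine ⟨?_, fun h => ?_⟩
        · rw [inr_mem_disjSum, mem_sigma, mem_singleton]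
          exact ⟨hp.1, hp.2.1⟩
        · exact hp.2.2 (mem_inter.1 (mem_KSp_inr.1 h).2).1
    have q3 : W.card = (W.filter fun v => G.Adj c v).card
        + ((W.filter fun v => ¬ G.Adj c v ∧ v ∈ K z c).card
          + (W.filter fun v => ¬ G.Adj c v ∧ v ∉ K z c).card) := by
      rw [← filter_filter, ← filter_filter, card_filter_add_card_filter_not,
        card_filter_add_card_filter_not]
    have q4 : X2.card ≤ (X2.filter fun a => G.Adj c a).card
        + (X2.filter fun a => a ∉ K z c).card := by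
      refine (card_le_card ?_).trans (card_union_le _ _)
      intro a ha
      by_cases h5 : a ∈ K z c
      · exact mem_union_left _ (mem_filter.2 ⟨ha, hKP c hc a h5 (hXP ha)⟩)
      · exact mem_union_right _ (mem_filter.2 ⟨ha, h5⟩)
    have q5 : dg G (W ∪ X2) c = (W.filter fun v => G.Adj c v).card
        + (X2.filter fun a => G.Adj c a).card := by
      unfold dg
      rw [filter_union, card_union_of_disjoint]
      exact disjoint_filter_filter (hHP.mono hWH hXP)
    have q6 := card_union_le W X2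
    omega
  have s1 : ((C z).card : ℚ) * ((W ∪ X2).card : ℚ)
      ≤ ∑ c ∈ C z, (((W.disjSum (({z} : Finset ι).sigma fun _ => X2) :
          Finset (V ⊕ (Σ _ : ι, V))) \ KSp G H P K z c).card : ℚ)
        + ∑ c ∈ C z, (dg G (W ∪ X2) c : ℚ)
        + ∑ v ∈ W, (((C z).filter fun c => ¬ G.Adj c v ∧ v ∈ K z c).card : ℚ) := by
    have s2 := sum_le_sum pw
    rw [sum_const, smul_eq_mul, sum_add_distrib, sum_add_distrib] at s2
    have s3 : ∑ c ∈ C z, (W.filter fun v => ¬ G.Adj c v ∧ v ∈ K z c).card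
        = ∑ v ∈ W, ((C z).filter fun c => ¬ G.Adj c v ∧ v ∈ K z c).card := by
      simp only [card_filter]
      exact sum_comm
    rw [s3] at s2
    exact_mod_cast s2
  rw [← mul_sum, mul_div_assoc, ← mul_add, ← mul_add, ← add_div, ← add_div]
  refine mul_le_mul_of_nonneg_left ?_ hmu
  rw [le_div_iff₀ hc0]
  linarith

/-- counting the members which are located at no row -/
lemma HostL.count (h : HostL G F tl H P B C K U) (J : ι → V) :
    2 * ((XJ G H B K U J).card : ℚ) + 2 * ∑ z ∈ B, ((K z (J z) ∩ P).card : ℚ)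
        + 2 * (((XJ G H B K U J).filter fun v => ∀ z ∈ B, ¬ LocAt G B K U J z v).card : ℚ)
      ≤ o2 B (fun z c => dg G H c + (K z c).card) (fun y z c e => (U y z c e).card) J := by
  have h1 := lemL_count (Y := B) (K := KSp G H P K) (U := USp U) (J := J)
    (fun y z c e => by unfold USp; rw [h.hUs]) (fun p hp => DSp_sub (p := p) hp)
  have h2 : ∑ z ∈ B, (KSp G H P K z (J z)).card ≤ ∑ z ∈ B, (dg G H (J z) + (K z (J z)).card) :=
    sum_le_sum fun z _ => KSp_card_le h.hHP z _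
  simp only [USp_card] at h1
  have h3 : ((XJ G H B K U J).filter fun v => ∀ z ∈ B, ¬ LocAt G B K U J z v).card
      ≤ ((DSp G H P B K U J).filter fun v => ¬ Loc B (KSp G H P K) (USp U) J v).card := by
    have h4 : (((XJ G H B K U J).filter fun v => ∀ z ∈ B, ¬ LocAt G B K U J z v).map
        ⟨Sum.inl, Sum.inl_injective⟩ : Finset (V ⊕ (Σ _ : ι, V)))
        ⊆ (DSp G H P B K U J).filter fun v => ¬ Loc B (KSp G H P K) (USp U) J v := by
      intro p hp
      obtain ⟨v, hv, rfl⟩ := mem_map.1 hp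
      obtain ⟨v1, v2⟩ := mem_filter.1 hv
      refine mem_filter.2 ⟨mem_DSp_inl.2 v1, ?_⟩
      rintro ⟨z, hz, h5, h6⟩
      refine v2 z hz ⟨fun y hy => ?_, fun y hy y' hy' h7 => ?_⟩
      · have h7 := h5 y hy
        by_contra h8
        rw [not_and_or, not_not, not_not] at h8
        exact h7 (mem_KSp_inl.2 ⟨(mem_filter.1 v1).1, h8⟩)
      · exact h6 y hy y' hy' (mem_USp_inl.2 h7)
    have h5 := card_le_card h4
    rwa [card_map] at h5
  have h6 : (DSp G H P B K U J).card = (XJ G H B K U J).card + ∑ z ∈ B, (K z (J z) ∩ P).card := by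
    unfold DSp
    rw [card_disjSum, card_sigma]
  rw [h6] at h1
  have h7 : 2 * (XJ G H B K U J).card + 2 * ∑ z ∈ B, (K z (J z) ∩ P).card
      + 2 * ((XJ G H B K U J).filter fun v => ∀ z ∈ B, ¬ LocAt G B K U J z v).card
      ≤ 2 * ∑ z ∈ B, (dg G H (J z) + (K z (J z)).card)
        + ∑ z ∈ B, ∑ y ∈ B.erase z, (U y z (J y) (J z)).card := by omega
  unfold o2
  exact_mod_cast h7

/-- **LEMMA L for one host with the local threshold, Hall form** (notes 16066, 16082): every set `M`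
of located members and copies missed by a column and without inner partners has to satisfy
`mu_z |M| + T z (J z) + a z (J z) + (cells of the row z at J) ≤ |N(M) \ Rz| + T z c`. -/
theorem HostL.lemL_hall (h : HostL G F tl H P B C K U) (T : ι → V → ℚ)
    {c₀ : ι → V} (h₀ : ∀ z ∈ B, c₀ z ∈ C z) :
    ∃ J : ι → V, (∀ z ∈ B, J z ∈ C z) ∧
      ∃ o gs : ℚ, 0 ≤ gs ∧
      2 * gs = ∑ z ∈ B, ∑ y ∈ B.erase z, ((U y z (J y) (J z)).card : ℚ) ∧
      o = ∑ z ∈ B, (((dg G H (J z) + (K z (J z)).card : ℕ)) : ℚ) + gs ∧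
      ((XJ G H B K U J).card : ℚ) + ∑ z ∈ B, ((K z (J z) ∩ P).card : ℚ)
        + ((XJ G H B K U J).filter fun v => ∀ z ∈ B, ¬ LocAt G B K U J z v).card ≤ o ∧
      (∀ J' : ι → V, (∀ z ∈ B, J' z ∈ C z) →
        FT B (fun z c => dg G H c + (K z c).card) (fun y z c e => (U y z c e).card) T J
          ≤ FT B (fun z c => dg G H c + (K z c).card) (fun y z c e => (U y z c e).card) T J') ∧
      ∀ (W X2 : ι → Finset V) (mu : ι → ℚ), (∀ z ∈ B, 0 ≤ mu z) →
        (∀ z ∈ B, ∀ v ∈ W z, v ∈ H ∧ LocAt G B K U J z v) → (∀ z ∈ B, X2 z ⊆ P) →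
        (∀ z ∈ B, ∀ c ∈ C z, ∀ M ⊆ ((W z).disjSum (({z} : Finset ι).sigma fun _ => X2 z) :
            Finset (V ⊕ (Σ _ : ι, V))) \ KSp G H P K z c, M.Nonempty →
          (∀ p ∈ M, ∀ q ∈ M, q ∉ NSp F tl H P p) →
          mu z * M.card + T z (J z) + (dg G H (J z) + (K z (J z)).card)
            + ∑ y ∈ B.erase z, ((U y z (J y) (J z)).card : ℚ)
            ≤ ((M.biUnion (NSp F tl H P)) \ Rz B (KSp G H P K) (USp U) J z).card + T z c) →
        o + gs + ∑ z ∈ B, mu z * (((W z) ∪ (X2 z)).card : ℚ) + ∑ z ∈ B, T z (J z)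
          ≤ ∑ z ∈ B, (∑ c ∈ C z, ((dg G H c : ℚ) + (K z c).card
              + mu z * dg G ((W z) ∪ (X2 z)) c)) / (C z).card
            + ∑ z ∈ B, (∑ c ∈ C z, T z c) / (C z).card
            + ∑ z ∈ B, ∑ y ∈ B.erase z, gav C (fun y z c e => (U y z c e).card) y z (J y)
            + ∑ z ∈ B, mu z * ((∑ c ∈ C z, ∑ y ∈ B.erase z,
              (((U y z (J y) c) ∩ (W z)).card : ℚ)) / (C z).card)
            + ∑ z ∈ B, mu z * ((∑ v ∈ W z,
              (((C z).filter fun c => ¬ G.Adj c v ∧ v ∈ K z c).card : ℚ)) / (C z).card) := by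
  obtain ⟨J, hJ, hmn, hmain⟩ := Pool.Agent.Lib.MP_f04ccf_co.lemL_hall T (Y := B) (C := C)
    (a := fun z c => dg G H c + (K z c).card)
    (g := fun y z c e => (U y z c e).card) h₀ (fun y z c d => by rw [h.hUs])
    (X := H.disjSum (B.sigma fun _ => P)) (N := NSp F tl H P)
    (K := KSp G H P K) (U := USp U) (D := DSp G H P B K U)
    (fun z _ c _ => KSp_card_le h.hHP z c) (fun y z c e => USp_card.le)
    (fun J _ p hp => DSp_sub hp) (fun y z c e => by unfold USp; rw [h.hUs])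
    (fun J hJ p hp hpD => h.nbr hJ hp hpD)
  refine ⟨J, hJ, o2 B (fun z c => dg G H c + (K z c).card) (fun y z c e => (U y z c e).card) J / 2,
    (∑ z ∈ B, ∑ y ∈ B.erase z, ((U y z (J y) (J z)).card : ℚ)) / 2, ?_, by ring, ?_,
    ?_, hmn, ?_⟩
  · have hgs : (0 : ℚ) ≤ ∑ z ∈ B, ∑ y ∈ B.erase z, ((U y z (J y) (J z)).card : ℚ) :=
      sum_nonneg fun z _ => sum_nonneg fun y _ => Nat.cast_nonneg _
    linarith
  · unfold o2
    ring
  · have h1 := h.count J
    linarith
  · intro W X2 mu hmu hW hX2 hM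
    have h1 := hmain (fun z => (W z).disjSum (({z} : Finset ι).sigma fun _ => X2 z)) mu hmu
      (fun z hz p hp => by
        rcases p with v | ⟨z', a⟩
        · rw [inl_mem_disjSum] at hp
          obtain ⟨w1, w2⟩ := hW z hz v hp
          exact ⟨inl_mem_disjSum.2 w1, (notMem_Rz_inl w1).2 w2⟩
        · rw [inr_mem_disjSum, mem_sigma, mem_singleton] at hp
          obtain ⟨p1, p2⟩ := hp
          simp only at p1 p2
          subst p1
          refine ⟨?_, notMem_Rz_inr fun _ h2 => absurd rfl h2⟩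
          rw [inr_mem_disjSum, mem_sigma]
          exact ⟨hz, hX2 z' hz p2⟩)
      (fun z hz c hc M hMs hne hin => by
        have h2 := hM z hz c hc M hMs hne hin
        push_cast
        linarith)
    have gain : ∀ z ∈ B, mu z * (((W z) ∪ (X2 z)).card : ℚ)
        ≤ mu z * ((∑ c ∈ C z, ((((W z).disjSum (({z} : Finset ι).sigma fun _ => X2 z) :
            Finset (V ⊕ (Σ _ : ι, V))) \ KSp G H P K z c).card : ℚ)) / (C z).card)
          + (∑ c ∈ C z, (mu z * dg G ((W z) ∪ (X2 z)) c : ℚ)) / (C z).card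
          + mu z * ((∑ v ∈ W z,
              (((C z).filter fun c => ¬ G.Adj c v ∧ v ∈ K z c).card : ℚ)) / (C z).card) :=
      fun z hz => host_gain h.hHP (h.hKP z hz) (fun v hv => (hW z hz v hv).1)
        (hX2 z hz) (hmu z hz) (by exact_mod_cast card_pos.2 ⟨_, hJ z hz⟩)
    have hkc : ∀ z ∈ B, mu z * ((∑ c ∈ C z, (kc B (KSp G H P K) (USp U) J
          (fun z => (W z).disjSum (({z} : Finset ι).sigma fun _ => X2 z)) z c : ℚ)) / (C z).card)
        ≤ mu z * ((∑ c ∈ C z, ∑ y ∈ B.erase z,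
          (((U y z (J y) c) ∩ (W z)).card : ℚ)) / (C z).card) := by
      intro z hz
      refine mul_le_mul_of_nonneg_left (div_le_div_of_nonneg_right (sum_le_sum fun c _ => ?_)
        (Nat.cast_nonneg _)) (hmu z hz)
      have h2 : kc B (KSp G H P K) (USp U) J
          (fun z => (W z).disjSum (({z} : Finset ι).sigma fun _ => X2 z)) z c
          ≤ ∑ y ∈ B.erase z, ((U y z (J y) c) ∩ (W z)).card := by
        unfold kc
        refine sum_le_sum fun y _ => ?_
        have h3 : (USp U y z (J y) c) ∩ (((W z).disjSum (({z} : Finset ι).sigma fun _ => X2 z) :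
            Finset (V ⊕ (Σ _ : ι, V))) \ KSp G H P K z c)
            ⊆ (((U y z (J y) c) ∩ (W z)).map ⟨Sum.inl, Sum.inl_injective⟩ :
              Finset (V ⊕ (Σ _ : ι, V))) := by
          intro p hp
          obtain ⟨p1, p2⟩ := mem_inter.1 hp
          rcases p with v | q
          · refine mem_map.2 ⟨v, mem_inter.2 ⟨mem_USp_inl.1 p1, ?_⟩, rfl⟩
            exact inl_mem_disjSum.1 (mem_sdiff.1 p2).1
          · exact absurd p1 notMem_USp_inr
        have h4 := card_le_card h3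
        rwa [card_map] at h4
      exact_mod_cast h2
    have hkc' := sum_le_sum hkc
    have h2 := sum_le_sum gain
    simp only [sum_add_distrib] at h2
    have h3 : ∑ z ∈ B, (∑ c ∈ C z, ((dg G H c : ℚ) + (K z c).card
          + mu z * dg G ((W z) ∪ (X2 z)) c)) / (C z).card
        = ∑ z ∈ B, (∑ c ∈ C z, (((dg G H c + (K z c).card : ℕ)) : ℚ)) / (C z).card
          + ∑ z ∈ B, (∑ c ∈ C z, (mu z * dg G ((W z) ∪ (X2 z)) c : ℚ)) / (C z).card := by
      rw [← sum_add_distrib]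
      refine sum_congr rfl fun z _ => ?_
      rw [← add_div, ← sum_add_distrib]
      congr 1
      refine sum_congr rfl fun c _ => ?_
      push_cast
      ring
    rw [h3]
    unfold o2
    linarith

/-- the single-point condition gives the Hall condition -/
lemma hall_of_loc {T : ι → V → ℚ} (hT : ∀ z c, 0 ≤ T z c) {J : ι → V} {z : ι} {W X2 : Finset V}
    {mu κ : ℚ} (hmu : 0 ≤ mu)
    (hW : ∀ v ∈ W, mu * (W.card + X2.card) + κ ≤ dlM G F tl H P B K U J z v)
    (hX2 : ∀ a ∈ X2, mu * (W.card + X2.card) + κ ≤ dlC G F tl H B K U J z a) {c : V}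
    {M : Finset (V ⊕ (Σ _ : ι, V))} (hM : M ⊆ (W.disjSum (({z} : Finset ι).sigma fun _ => X2) :
      Finset (V ⊕ (Σ _ : ι, V))) \ KSp G H P K z c) (hne : M.Nonempty) :
    mu * M.card + κ ≤ ((M.biUnion (NSp F tl H P)) \ Rz B (KSp G H P K) (USp U) J z).card
      + T z c := by
  obtain ⟨p, hp⟩ := hne
  have h1 : M.card ≤ W.card + X2.card := by
    refine (card_le_card (hM.trans sdiff_subset)).trans (le_of_eq ?_)
    rw [card_disjSum, card_sigma, sum_singleton]
  have h2 : ((M.card : ℕ) : ℚ) ≤ W.card + X2.card := by exact_mod_cast h1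
  have h3 := mul_le_mul_of_nonneg_left h2 hmu
  have h4 : (((NSp F tl H P p) \ Rz B (KSp G H P K) (USp U) J z).card : ℚ)
      ≤ ((M.biUnion (NSp F tl H P)) \ Rz B (KSp G H P K) (USp U) J z).card := by
    exact_mod_cast card_le_card (sdiff_subset_sdiff (subset_biUnion_of_mem _ hp) subset_rfl)
  have h5 := hT z c
  have hp1 := (mem_sdiff.1 (hM hp)).1
  rcases p with v | ⟨z', a⟩
  · rw [inl_mem_disjSum] at hp1
    have h6 := hW v hp1
    have h7 := dlM_le (G := G) (F := F) (tl := tl) (H := H) (P := P) (B := B) (K := K)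
      (U := U) (J := J) (z := z) (v := v)
    have h8 : (dlM G F tl H P B K U J z v : ℚ)
      ≤ ((NSp F tl H P (Sum.inl v)) \ Rz B (KSp G H P K) (USp U) J z).card := by
      exact_mod_cast h7
    linarith
  · rw [inr_mem_disjSum, mem_sigma, mem_singleton] at hp1
    obtain ⟨p1, p2⟩ := hp1
    simp only at p1 p2
    subst p1
    have h6 := hX2 a p2
    have h7 := dlC_le (G := G) (F := F) (tl := tl) (H := H) (P := P) (B := B) (K := K)
      (U := U) (J := J) (z := z') (a := a)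
    have h8 : (dlC G F tl H B K U J z' a : ℚ) ≤ ((NSp F tl H P (Sum.inr ⟨z', a⟩)) \
      Rz B (KSp G H P K) (USp U) J z').card := by
      exact_mod_cast h7
    linarith

/-- **LEMMA L for one host with the local threshold** (note 16066): a located member `v` of the row
`z` is good if `mu_z (|W z| + |X2 z|) + T z (J z) + a z (J z) + (cells of the row z at J) ≤ dlM v`. -/
theorem HostL.lemL (h : HostL G F tl H P B C K U) {T : ι → V → ℚ} (hT : ∀ z c, 0 ≤ T z c)
    {c₀ : ι → V} (h₀ : ∀ z ∈ B, c₀ z ∈ C z) :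
    ∃ J : ι → V, (∀ z ∈ B, J z ∈ C z) ∧
      ∃ o gs : ℚ, 0 ≤ gs ∧
      2 * gs = ∑ z ∈ B, ∑ y ∈ B.erase z, ((U y z (J y) (J z)).card : ℚ) ∧
      o = ∑ z ∈ B, (((dg G H (J z) + (K z (J z)).card : ℕ)) : ℚ) + gs ∧
      ((XJ G H B K U J).card : ℚ) + ∑ z ∈ B, ((K z (J z) ∩ P).card : ℚ)
        + ((XJ G H B K U J).filter fun v => ∀ z ∈ B, ¬ LocAt G B K U J z v).card ≤ o ∧
      (∀ J' : ι → V, (∀ z ∈ B, J' z ∈ C z) →
        FT B (fun z c => dg G H c + (K z c).card) (fun y z c e => (U y z c e).card) T J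
          ≤ FT B (fun z c => dg G H c + (K z c).card) (fun y z c e => (U y z c e).card) T J') ∧
      ∀ (W X2 : ι → Finset V) (mu : ι → ℚ), (∀ z ∈ B, 0 ≤ mu z) →
        (∀ z ∈ B, ∀ v ∈ W z, v ∈ H ∧ LocAt G B K U J z v ∧
          mu z * ((W z).card + (X2 z).card) + T z (J z) + (dg G H (J z) + (K z (J z)).card)
            + ∑ y ∈ B.erase z, ((U y z (J y) (J z)).card : ℚ) ≤ dlM G F tl H P B K U J z v) →
        (∀ z ∈ B, ∀ a ∈ X2 z, a ∈ P ∧
          mu z * ((W z).card + (X2 z).card) + T z (J z) + (dg G H (J z) + (K z (J z)).card)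
            + ∑ y ∈ B.erase z, ((U y z (J y) (J z)).card : ℚ) ≤ dlC G F tl H B K U J z a) →
        o + gs + ∑ z ∈ B, mu z * (((W z) ∪ (X2 z)).card : ℚ) + ∑ z ∈ B, T z (J z)
          ≤ ∑ z ∈ B, (∑ c ∈ C z, ((dg G H c : ℚ) + (K z c).card
              + mu z * dg G ((W z) ∪ (X2 z)) c)) / (C z).card
            + ∑ z ∈ B, (∑ c ∈ C z, T z c) / (C z).card
            + ∑ z ∈ B, ∑ y ∈ B.erase z, gav C (fun y z c e => (U y z c e).card) y z (J y)
            + ∑ z ∈ B, mu z * ((∑ c ∈ C z, ∑ y ∈ B.erase z,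
              (((U y z (J y) c) ∩ (W z)).card : ℚ)) / (C z).card)
            + ∑ z ∈ B, mu z * ((∑ v ∈ W z,
              (((C z).filter fun c => ¬ G.Adj c v ∧ v ∈ K z c).card : ℚ)) / (C z).card) := by
  obtain ⟨J, hJ, o, gs, h1, h2, h3, h4, hmn, h5⟩ := h.lemL_hall T h₀
  refine ⟨J, hJ, o, gs, h1, h2, h3, h4, hmn, fun W X2 mu hmu hW hX2 => h5 W X2 mu hmu
    (fun z hz v hv => ⟨(hW z hz v hv).1, (hW z hz v hv).2.1⟩)
    (fun z hz a ha => (hX2 z hz a ha).1) fun z hz c hc M hM hne _ => ?_⟩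
  have h6 := hall_of_loc (T := T) hT (κ := T z (J z) + (dg G H (J z) + (K z (J z)).card)
      + ∑ y ∈ B.erase z, ((U y z (J y) (J z)).card : ℚ)) (hmu z hz)
    (fun v hv => by linarith [(hW z hz v hv).2.2]) (fun a ha => by linarith [(hX2 z hz a ha).2])
    hM hne
  linarith

end LemLL

end Pool.Agent.Lib.MP_f04ccf_co
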