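import Pool.Agent.Lib.MP_f04ccf_co.Basic

/-!
MP_f04ccf_co: LEMMA N (note 15294).  A graph `Γ` on `H ∪ C` without edges inside `C`, a family of
vertex covers `X c`, `c ∈ Y`; every vertex with more than `|H|` neighbours is missed by at least as
many covers as it has neighbours in `C`.  Then the total size of the covers pays all edges of `Γ`
with the full coefficient `|Y| - |H|` for every point of a minimum cover.
-/

set_option autoImplicit false

namespace Pool.Agent.Lib.MP_f04ccf_co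

open Finset

attribute [local instance] Classical.propDecidable

section LemN

variable {V ι : Type*}

/-- `X` meets every edge of `Γ` inside `S` -/
def Cov (Γ : SimpleGraph V) (S X : Finset V) : Prop :=
  ∀ u ∈ S, ∀ v ∈ S, Γ.Adj u v → u ∈ X ∨ v ∈ X

/-- the points of the cover `X0` with more than `|H|` neighbours -/
noncomputable def Nst (Γ : SimpleGraph V) (H S X0 : Finset V) : Finset V :=
  X0.filter (fun w => H.card < dg Γ S w)

/-- the largest excess in `W` -/
noncomputable def mmax (Γ : SimpleGraph V) (H S W : Finset V) : ℕ :=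
  W.sup (fun w => dg Γ S w - H.card)

private lemma ln_union {A B : Finset V} (h : Disjoint A B) (Γ : SimpleGraph V) (z : V) :
    dg Γ (A ∪ B) z = dg Γ A z + dg Γ B z := by
  unfold dg
  rw [filter_union, card_union_of_disjoint]
  exact disjoint_filter_filter h

variable {Γ : SimpleGraph V} {H C X0 : Finset V} {Y : Finset ι} {X : ι → Finset V}

/-- one cover `X c` -/
private lemma ln_one (hHC : Disjoint H C)
    (hC : ∀ u ∈ C, ∀ v ∈ C, ¬ Γ.Adj u v) (h0 : X0 ⊆ H ∪ C)
    {c : ι} (hXc : X c ⊆ H ∪ C) (hcov : Cov Γ (H ∪ C) (X c)) {w : V}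
    (hw : w ∈ Nst Γ H (H ∪ C) X0 \ X c) :
    w ∈ H ∧ dg Γ (H ∪ C) w ≤ (X c).card ∧
      dg Γ (H ∪ C) w - H.card + (Nst Γ H (H ∪ C) X0 \ X c).card ≤ dg Γ C w := by
  have hN : ∀ z ∈ Nst Γ H (H ∪ C) X0, z ∈ H := by
    intro z hz
    obtain ⟨z1, z2⟩ := mem_filter.1 hz
    rcases mem_union.1 (h0 z1) with h | h
    · exact h
    · exfalso
      rw [ln_union hHC] at z2
      have e1 : dg Γ C z = 0 := by
        unfold dg
        rw [card_eq_zero, filter_eq_empty_iff]
        exact fun y hy hzy => hC z h y hy hzy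
      have e2 : dg Γ H z ≤ H.card := card_filter_le _ _
      omega
  obtain ⟨w1, w2⟩ := mem_sdiff.1 hw
  have wH := hN w w1
  have w3 := (mem_filter.1 w1).2
  refine ⟨wH, ?_, ?_⟩
  · refine card_le_card fun y hy => ?_
    obtain ⟨y1, y2⟩ := mem_filter.1 hy
    rcases hcov w (mem_union_left _ wH) y y1 y2 with h | h
    · exact absurd h w2
    · exact h
  · have e1 : dg Γ H w + (Nst Γ H (H ∪ C) X0 \ X c).card ≤ H.card := by
      unfold dg
      have e2 : Disjoint (H.filter (fun y => Γ.Adj w y)) (Nst Γ H (H ∪ C) X0 \ X c) := by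
        rw [disjoint_left]
        intro y hy hy'
        obtain ⟨y1, y2⟩ := mem_filter.1 hy
        obtain ⟨y3, y4⟩ := mem_sdiff.1 hy'
        rcases hcov w (mem_union_left _ wH) y (mem_union_left _ y1) y2 with h | h
        · exact w2 h
        · exact y4 h
      rw [← card_union_of_disjoint e2]
      refine card_le_card (union_subset (filter_subset _ _) fun y hy => ?_)
      exact hN y (mem_sdiff.1 hy).1
    rw [ln_union hHC] at w3 ⊢
    omega

private theorem ln_main {S N : Finset V} (hS : S = H ∪ C) (hN : N = Nst Γ H S X0)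
    (hHC : Disjoint H C) (hC : ∀ u ∈ C, ∀ v ∈ C, ¬ Γ.Adj u v)
    (hX : ∀ c ∈ Y, X c ⊆ S) (hcov : ∀ c ∈ Y, Cov Γ S (X c))
    (hα : ∀ w ∈ H, H.card < dg Γ S w →
      dg Γ C w ≤ (Y.filter (fun c => w ∉ X c)).card)
    (h0 : X0 ⊆ S) (h0c : Cov Γ S X0)
    (hmin : ∀ c ∈ Y, X0.card ≤ (X c).card) :
    (E Γ S : ℚ) + E Γ X0 + 2 * (X0.card : ℚ) * ((Y.card : ℚ) - H.card)
        + 2 * ∑ v ∈ X0, ((H.card - dg Γ S v : ℕ) : ℚ)
        + 2 * ∑ c ∈ Y.filter (fun c => (N \ X c).Nonempty),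
          (((H.card : ℚ) - X0.card) + (mmax Γ H S (N \ X c) : ℚ) ^ 2
            / ((mmax Γ H S (N \ X c) : ℚ) + (N \ X c).card))
      ≤ 2 * ∑ c ∈ Y, ((X c).card : ℚ) := by
  -- (1) all edges are met
  have s1 : (E Γ S : ℚ) + E Γ X0 = 2 * ∑ v ∈ X0, (dg Γ S v : ℚ) := by
    have e1 := E_sdiff Γ h0
    have e2 : E Γ (S \ X0) = 0 := by
      unfold E
      refine sum_eq_zero fun v hv => ?_
      unfold dg
      rw [card_eq_zero, filter_eq_empty_iff]
      intro u hu hvu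
      obtain ⟨v1, v2⟩ := mem_sdiff.1 hv
      obtain ⟨u1, u2⟩ := mem_sdiff.1 hu
      rcases h0c v v1 u u1 hvu with h | h
      · exact v2 h
      · exact u2 h
    rw [e2, zero_add] at e1
    exact_mod_cast e1
  -- (2) degrees
  have s2 : ∑ v ∈ X0, (dg Γ S v : ℚ) = (X0.card : ℚ) * H.card
      + ∑ w ∈ N, ((dg Γ S w - H.card : ℕ) : ℚ) - ∑ v ∈ X0, ((H.card - dg Γ S v : ℕ) : ℚ) := by
    have e1 : ∑ w ∈ N, ((dg Γ S w - H.card : ℕ) : ℚ)
        = ∑ v ∈ X0, ((dg Γ S v - H.card : ℕ) : ℚ) := by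
      rw [hN]
      unfold Nst
      rw [sum_filter]
      refine sum_congr rfl fun v _ => ?_
      split_ifs with h
      · rfl
      · have : dg Γ S v - H.card = 0 := by omega
        rw [this]
        simp
    have e2 : (X0.card : ℚ) * H.card = ∑ v ∈ X0, (H.card : ℚ) := by
      rw [sum_const, nsmul_eq_mul]
    rw [e1, e2, ← sum_add_distrib, ← sum_sub_distrib]
    refine sum_congr rfl fun v _ => ?_
    rcases le_total (dg Γ S v) H.card with h | h
    · have h1 : dg Γ S v - H.card = 0 := by omega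
      rw [h1]
      push_cast [h]
      ring
    · have h1 : H.card - dg Γ S v = 0 := by omega
      rw [h1]
      push_cast [h]
      ring
  -- (3) spread the excess over the covers which miss the point
  have hpos : ∀ w ∈ N, ∀ c ∈ Y, w ∉ X c →
      w ∈ H ∧ dg Γ S w ≤ (X c).card ∧ dg Γ S w - H.card + (N \ X c).card ≤ dg Γ C w := by
    intro w hw c hc hwc
    subst hN
    subst hS
    exact ln_one hHC hC h0 (hX c hc) (hcov c hc) (mem_sdiff.2 ⟨hw, hwc⟩)
  have hNH : ∀ w ∈ N, w ∈ H ∧ 0 < (Y.filter (fun c => w ∉ X c)).card := by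
    intro w hw
    have hwd : H.card < dg Γ S w := by rw [hN] at hw; exact (mem_filter.1 hw).2
    have hwX : w ∈ X0 := by rw [hN] at hw; exact (mem_filter.1 hw).1
    have hwd' := hwd
    rw [hS, ln_union hHC] at hwd'
    have hwH : w ∈ H := by
      have := h0 hwX
      rw [hS] at this
      rcases mem_union.1 this with h | h
      · exact h
      · exfalso
        have e1 : dg Γ C w = 0 := by
          unfold dg
          rw [card_eq_zero, filter_eq_empty_iff]
          exact fun y hy hzy => hC w h y hy hzy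
        have e2 : dg Γ H w ≤ H.card := card_filter_le _ _
        omega
    refine ⟨hwH, ?_⟩
    have h1 := hα w hwH hwd
    have h2 : dg Γ H w ≤ H.card := card_filter_le _ _
    omega
  have s3 : ∑ w ∈ N, ((dg Γ S w - H.card : ℕ) : ℚ)
      = ∑ c ∈ Y, ∑ w ∈ N \ X c, ((dg Γ S w - H.card : ℕ) : ℚ)
          / (Y.filter (fun c => w ∉ X c)).card := by
    have e1 : ∀ c ∈ Y, ∑ w ∈ N \ X c, ((dg Γ S w - H.card : ℕ) : ℚ)
          / (Y.filter (fun c => w ∉ X c)).card
        = ∑ w ∈ N, if w ∉ X c then ((dg Γ S w - H.card : ℕ) : ℚ)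
          / (Y.filter (fun c => w ∉ X c)).card else 0 := by
      intro c _
      rw [← sum_filter]
      congr 1
      ext w
      rw [mem_sdiff, mem_filter]
    rw [sum_congr rfl e1, sum_comm]
    refine sum_congr rfl fun w hw => ?_
    rw [← sum_filter, sum_const, nsmul_eq_mul]
    have h1 : ((Y.filter (fun c => w ∉ X c)).card : ℚ) ≠ 0 := by
      have := (hNH w hw).2
      positivity
    field_simp
  -- (4) one cover
  have s4 : ∀ c ∈ Y, ∑ w ∈ N \ X c, ((dg Γ S w - H.card : ℕ) : ℚ)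
          / (Y.filter (fun c => w ∉ X c)).card
      ≤ if (N \ X c).Nonempty then ((X c).card : ℚ) - X0.card
          - (((H.card : ℚ) - X0.card) + (mmax Γ H S (N \ X c) : ℚ) ^ 2
            / ((mmax Γ H S (N \ X c) : ℚ) + (N \ X c).card)) else 0 := by
    intro c hc
    split_ifs with hne
    · obtain ⟨w0, hw0, hm0⟩ := exists_mem_eq_sup (N \ X c) hne (fun w => dg Γ S w - H.card)
      have hm : mmax Γ H S (N \ X c) = dg Γ S w0 - H.card := hm0
      have ht : 1 ≤ (N \ X c).card := card_pos.2 hne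
      have htq : (1 : ℚ) ≤ (N \ X c).card := by exact_mod_cast ht
      obtain ⟨a1, a2, a3⟩ := hpos w0 (mem_sdiff.1 hw0).1 c hc (mem_sdiff.1 hw0).2
      have hw0d : H.card < dg Γ S w0 := by
        have := (mem_sdiff.1 hw0).1
        rw [hN] at this
        exact (mem_filter.1 this).2
      have hmx : (mmax Γ H S (N \ X c) : ℚ) ≤ (X c).card - H.card := by
        rw [hm]
        have : ((dg Γ S w0 - H.card : ℕ) : ℚ) = dg Γ S w0 - H.card := by
          push_cast [hw0d.le]; ring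
        rw [this]
        have h2 : (dg Γ S w0 : ℚ) ≤ (X c).card := by exact_mod_cast a2
        linarith
      have hm0' : (0 : ℚ) ≤ mmax Γ H S (N \ X c) := by positivity
      have hterm : ∀ w ∈ N \ X c, ((dg Γ S w - H.card : ℕ) : ℚ)
          / (Y.filter (fun c => w ∉ X c)).card
          ≤ (mmax Γ H S (N \ X c) : ℚ) / ((mmax Γ H S (N \ X c) : ℚ) + (N \ X c).card) := by
        intro w hw
        obtain ⟨b1, b2, b3⟩ := hpos w (mem_sdiff.1 hw).1 c hc (mem_sdiff.1 hw).2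
        have hwd : H.card < dg Γ S w := by
          have := (mem_sdiff.1 hw).1
          rw [hN] at this
          exact (mem_filter.1 this).2
        have b4 := hα w b1 hwd
        have b5 : dg Γ S w - H.card ≤ mmax Γ H S (N \ X c) :=
          le_sup (f := fun w => dg Γ S w - H.card) hw
        have b6 : ((dg Γ S w - H.card : ℕ) : ℚ) + (N \ X c).card
            ≤ (Y.filter (fun c => w ∉ X c)).card := by exact_mod_cast b3.trans b4
        have b7 : ((dg Γ S w - H.card : ℕ) : ℚ) ≤ mmax Γ H S (N \ X c) := by exact_mod_cast b5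
        have b8 : (0 : ℚ) ≤ ((dg Γ S w - H.card : ℕ) : ℚ) := by positivity
        rw [div_le_div_iff₀ (by linarith) (by linarith)]
        nlinarith
      calc ∑ w ∈ N \ X c, ((dg Γ S w - H.card : ℕ) : ℚ)
            / (Y.filter (fun c => w ∉ X c)).card
          ≤ ∑ w ∈ N \ X c, (mmax Γ H S (N \ X c) : ℚ)
            / ((mmax Γ H S (N \ X c) : ℚ) + (N \ X c).card) := sum_le_sum hterm
        _ = (N \ X c).card * ((mmax Γ H S (N \ X c) : ℚ)
            / ((mmax Γ H S (N \ X c) : ℚ) + (N \ X c).card)) := by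
            rw [sum_const, nsmul_eq_mul]
        _ = (mmax Γ H S (N \ X c) : ℚ) - (mmax Γ H S (N \ X c) : ℚ) ^ 2
            / ((mmax Γ H S (N \ X c) : ℚ) + (N \ X c).card) := by
            have : (mmax Γ H S (N \ X c) : ℚ) + (N \ X c).card ≠ 0 := by linarith
            field_simp
            ring
        _ ≤ _ := by linarith
    · rw [not_nonempty_iff_eq_empty] at hne
      rw [hne]
      simp
  -- (5) together
  have s5 : ∑ w ∈ N, ((dg Γ S w - H.card : ℕ) : ℚ)
      ≤ ∑ c ∈ Y, (((X c).card : ℚ) - X0.card)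
        - ∑ c ∈ Y.filter (fun c => (N \ X c).Nonempty),
          (((H.card : ℚ) - X0.card) + (mmax Γ H S (N \ X c) : ℚ) ^ 2
            / ((mmax Γ H S (N \ X c) : ℚ) + (N \ X c).card)) := by
    rw [s3]
    refine (sum_le_sum s4).trans ?_
    rw [sum_filter, ← sum_sub_distrib]
    refine sum_le_sum fun c hc => ?_
    split_ifs with hne
    · exact le_rfl
    · have : (X0.card : ℚ) ≤ (X c).card := by exact_mod_cast hmin c hc
      linarith
  rw [sum_sub_distrib, sum_const, nsmul_eq_mul] at s5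
  rw [s1, s2]
  linarith

/-- **LEMMA N**, exact form over `ℚ` -/
theorem lemN (hHC : Disjoint H C) (hC : ∀ u ∈ C, ∀ v ∈ C, ¬ Γ.Adj u v)
    (hX : ∀ c ∈ Y, X c ⊆ H ∪ C) (hcov : ∀ c ∈ Y, Cov Γ (H ∪ C) (X c))
    (hα : ∀ w ∈ H, H.card < dg Γ (H ∪ C) w →
      dg Γ C w ≤ (Y.filter (fun c => w ∉ X c)).card)
    (h0 : X0 ⊆ H ∪ C) (h0c : Cov Γ (H ∪ C) X0)
    (hmin : ∀ c ∈ Y, X0.card ≤ (X c).card) :
    (E Γ (H ∪ C) : ℚ) + E Γ X0 + 2 * (X0.card : ℚ) * ((Y.card : ℚ) - H.card)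
        + 2 * ∑ v ∈ X0, ((H.card - dg Γ (H ∪ C) v : ℕ) : ℚ)
        + 2 * ∑ c ∈ Y.filter (fun c => (Nst Γ H (H ∪ C) X0 \ X c).Nonempty),
          (((H.card : ℚ) - X0.card) + (mmax Γ H (H ∪ C) (Nst Γ H (H ∪ C) X0 \ X c) : ℚ) ^ 2
            / ((mmax Γ H (H ∪ C) (Nst Γ H (H ∪ C) X0 \ X c) : ℚ)
              + (Nst Γ H (H ∪ C) X0 \ X c).card))
      ≤ 2 * ∑ c ∈ Y, ((X c).card : ℚ) :=
  ln_main rfl rfl hHC hC hX hcov hα h0 h0c hmin

/-- LEMMA N without the fraction, integer form; `X0` a minimum cover -/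
theorem lemN_int (hHC : Disjoint H C) (hC : ∀ u ∈ C, ∀ v ∈ C, ¬ Γ.Adj u v)
    (hX : ∀ c ∈ Y, X c ⊆ H ∪ C) (hcov : ∀ c ∈ Y, Cov Γ (H ∪ C) (X c))
    (hα : ∀ w ∈ H, H.card < dg Γ (H ∪ C) w →
      dg Γ C w ≤ (Y.filter (fun c => w ∉ X c)).card)
    (h0 : X0 ⊆ H ∪ C) (h0c : Cov Γ (H ∪ C) X0)
    (hmin : ∀ c ∈ Y, X0.card ≤ (X c).card) (h0H : X0.card ≤ H.card) :
    (E Γ (H ∪ C) : ℤ) + E Γ X0 + 2 * (X0.card : ℤ) * ((Y.card : ℤ) - H.card)
        + 2 * ∑ v ∈ X0, ((H.card - dg Γ (H ∪ C) v : ℕ) : ℤ)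
        + 2 * (Y.filter (fun c => (Nst Γ H (H ∪ C) X0 \ X c).Nonempty)).card
          * ((H.card : ℤ) - X0.card)
      ≤ 2 * ∑ c ∈ Y, ((X c).card : ℤ) := by
  have h1 := lemN hHC hC hX hcov hα h0 h0c hmin
  have h2 : ∑ c ∈ Y.filter (fun c => (Nst Γ H (H ∪ C) X0 \ X c).Nonempty),
      ((H.card : ℚ) - X0.card)
      ≤ ∑ c ∈ Y.filter (fun c => (Nst Γ H (H ∪ C) X0 \ X c).Nonempty),
          (((H.card : ℚ) - X0.card) + (mmax Γ H (H ∪ C) (Nst Γ H (H ∪ C) X0 \ X c) : ℚ) ^ 2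
            / ((mmax Γ H (H ∪ C) (Nst Γ H (H ∪ C) X0 \ X c) : ℚ)
              + (Nst Γ H (H ∪ C) X0 \ X c).card)) := by
    refine sum_le_sum fun c _ => ?_
    have : (0 : ℚ) ≤ (mmax Γ H (H ∪ C) (Nst Γ H (H ∪ C) X0 \ X c) : ℚ) ^ 2
            / ((mmax Γ H (H ∪ C) (Nst Γ H (H ∪ C) X0 \ X c) : ℚ)
              + (Nst Γ H (H ∪ C) X0 \ X c).card) := by positivity
    linarith
  rw [sum_const, nsmul_eq_mul] at h2
  have h3 : (E Γ (H ∪ C) : ℚ) + E Γ X0 + 2 * (X0.card : ℚ) * ((Y.card : ℚ) - H.card)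
        + 2 * ∑ v ∈ X0, ((H.card - dg Γ (H ∪ C) v : ℕ) : ℚ)
        + 2 * (Y.filter (fun c => (Nst Γ H (H ∪ C) X0 \ X c).Nonempty)).card
          * ((H.card : ℚ) - X0.card)
      ≤ 2 * ∑ c ∈ Y, ((X c).card : ℚ) := by linarith
  exact_mod_cast h3

end LemN

end Pool.Agent.Lib.MP_f04ccf_co
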