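import Pool.Agent.Lib.MP_f04ccf_co.M.LemN

/-!
MP_f04ccf_co: LEMMA N2 (note 15361).  Two rows `x`, `y` with class parts `Cx`, `Cy` and home parts
`Hx`, `Hy`; `Γ` = missing pairs of `Hx ∪ Cx` which every point of `Cy` meets, `Γ'` = missing pairs
of `Hy ∪ Cy` which every point of `Cx` meets.  Both cover numbers are paid in full by the edges
between the two slots, up to the overlap of the needed rectangles outside the two minimum covers.
-/

set_option autoImplicit false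

namespace Pool.Agent.Lib.MP_f04ccf_co

open Finset

attribute [local instance] Classical.propDecidable

section LemN2

variable {V : Type*}

/-- the needed class points of `Cx` for the point `c` of the other row -/
noncomputable def Ned (G Γ : SimpleGraph V) (H C : Finset V) (c : V) : Finset V :=
  C.filter (fun p => ∃ w ∈ H, Γ.Adj w p ∧ ¬ G.Adj c w)

/-- the cover of `Γ` which the point `c` of the other row brings: its neighbours in `H`, and the
class points which it needs -/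
noncomputable def Vc (G Γ : SimpleGraph V) (H C : Finset V) (c : V) : Finset V :=
  H.filter (fun w => G.Adj c w) ∪ Ned G Γ H C c

variable {G Γ Γ' : SimpleGraph V} {Hx Cx Hy Cy X X' : Finset V} {τ τ' : ℕ}

private lemma l2_union {A B : Finset V} (h : Disjoint A B) (Γ : SimpleGraph V) (z : V) :
    dg Γ (A ∪ B) z = dg Γ A z + dg Γ B z := by
  unfold dg
  rw [filter_union, card_union_of_disjoint]
  exact disjoint_filter_filter h

lemma Vc_sub (c : V) : Vc G Γ Hx Cx c ⊆ Hx ∪ Cx :=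
  union_subset_union (filter_subset _ _) (filter_subset _ _)

/-- the needed points are neighbours -/
lemma Ned_adj {c : V}
    (s1 : ∀ u ∈ Hx ∪ Cx, ∀ v ∈ Hx ∪ Cx, Γ.Adj u v → G.Adj c u ∨ G.Adj c v) {p : V}
    (hp : p ∈ Ned G Γ Hx Cx c) : p ∈ Cx ∧ G.Adj c p := by
  obtain ⟨p1, w, hw, h1, h2⟩ := mem_filter.1 hp
  refine ⟨p1, ?_⟩
  rcases s1 w (mem_union_left _ hw) p (mem_union_right _ p1) h1 with h | h
  · exact absurd h h2
  · exact h

lemma Vc_cov {c : V} (hC : ∀ u ∈ Cx, ∀ v ∈ Cx, ¬ Γ.Adj u v)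
    (s1 : ∀ u ∈ Hx ∪ Cx, ∀ v ∈ Hx ∪ Cx, Γ.Adj u v → G.Adj c u ∨ G.Adj c v) :
    Cov Γ (Hx ∪ Cx) (Vc G Γ Hx Cx c) := by
  have key : ∀ u ∈ Hx, ∀ v ∈ Hx ∪ Cx, Γ.Adj u v → u ∈ Vc G Γ Hx Cx c ∨ v ∈ Vc G Γ Hx Cx c := by
    intro u hu v hv huv
    by_cases hcu : G.Adj c u
    · exact Or.inl (mem_union_left _ (mem_filter.2 ⟨hu, hcu⟩))
    · right
      rcases mem_union.1 hv with hv1 | hv1
      · rcases s1 u (mem_union_left _ hu) v hv huv with h | h
        · exact absurd h hcu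
        · exact mem_union_left _ (mem_filter.2 ⟨hv1, h⟩)
      · exact mem_union_right _ (mem_filter.2 ⟨hv1, u, hu, huv, hcu⟩)
  intro u hu v hv huv
  rcases mem_union.1 hu with hu1 | hu1
  · exact key u hu1 v hv huv
  · rcases mem_union.1 hv with hv1 | hv1
    · exact (key v hv1 u hu huv.symm).symm
    · exact absurd huv (hC u hu1 v hv1)

/-- Hall condition of a minimum cover for its class points -/
lemma hall_cov (hC : ∀ u ∈ Cx, ∀ v ∈ Cx, ¬ Γ.Adj u v) (hX : X ⊆ Hx ∪ Cx)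
    (hXc : Cov Γ (Hx ∪ Cx) X)
    (hmin : ∀ X1 ⊆ Hx ∪ Cx, Cov Γ (Hx ∪ Cx) X1 → X.card ≤ X1.card) {A : Finset V}
    (hA : A ⊆ X ∩ Cx) :
    A.card ≤ ((Hx \ X).filter (fun w => ∃ p ∈ A, Γ.Adj w p)).card := by
  have hAX : A ⊆ X := hA.trans inter_subset_left
  have hAC : A ⊆ Cx := hA.trans inter_subset_right
  have h1 : ((X \ A) ∪ (Hx \ X).filter (fun w => ∃ p ∈ A, Γ.Adj w p)) ⊆ Hx ∪ Cx := by
    refine union_subset (sdiff_subset.trans hX) ?_
    exact (filter_subset _ _).trans (sdiff_subset.trans subset_union_left)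
  have key : ∀ u ∈ Hx ∪ Cx, ∀ v ∈ Hx ∪ Cx, Γ.Adj u v → u ∈ X →
      u ∈ ((X \ A) ∪ (Hx \ X).filter (fun w => ∃ p ∈ A, Γ.Adj w p)) ∨
      v ∈ ((X \ A) ∪ (Hx \ X).filter (fun w => ∃ p ∈ A, Γ.Adj w p)) := by
    intro u hu v hv huv hux
    by_cases huA : u ∈ A
    · right
      have hvC : v ∉ Cx := fun h => hC u (hAC huA) v h huv
      have hvH : v ∈ Hx := by
        rcases mem_union.1 hv with h | h
        · exact h
        · exact absurd h hvC
      by_cases hvX : v ∈ X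
      · exact mem_union_left _ (mem_sdiff.2 ⟨hvX, fun h => hvC (hAC h)⟩)
      · exact mem_union_right _ (mem_filter.2 ⟨mem_sdiff.2 ⟨hvH, hvX⟩, u, huA, huv.symm⟩)
    · exact Or.inl (mem_union_left _ (mem_sdiff.2 ⟨hux, huA⟩))
  have h2 : Cov Γ (Hx ∪ Cx) ((X \ A) ∪ (Hx \ X).filter (fun w => ∃ p ∈ A, Γ.Adj w p)) := by
    intro u hu v hv huv
    rcases hXc u hu v hv huv with h | h
    · exact key u hu v hv huv h
    · exact (key v hv u hu huv.symm h).symm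
  have h3 := hmin _ h1 h2
  have h4 := card_union_le (X \ A) ((Hx \ X).filter (fun w => ∃ p ∈ A, Γ.Adj w p))
  have h5 := card_sdiff_add_card_eq_card hAX
  omega

/-- the payment of one direction: for the class points `p` of the cover `X`, the points of `N`
(in the home of the other row) which miss `p` are paid by edges between `Hx` and `N` -/
lemma pay_cov (hC : ∀ u ∈ Cx, ∀ v ∈ Cx, ¬ Γ.Adj u v) (hX : X ⊆ Hx ∪ Cx)
    (hXc : Cov Γ (Hx ∪ Cx) X)
    (hmin : ∀ X1 ⊆ Hx ∪ Cx, Cov Γ (Hx ∪ Cx) X1 → X.card ≤ X1.card) {N : Finset V}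
    (hF : ∀ p ∈ X ∩ Cx, ∀ w ∈ Hx, ∀ w' ∈ N, Γ.Adj w p → ¬ G.Adj p w' → G.Adj w w') :
    ∑ p ∈ X ∩ Cx, (N.filter (fun w' => ¬ G.Adj p w')).card
      ≤ ∑ w' ∈ N, ((Hx \ X).filter (fun w => G.Adj w' w)).card := by
  have h1 : ∑ p ∈ X ∩ Cx, (N.filter (fun w' => ¬ G.Adj p w')).card
      = ∑ w' ∈ N, ((X ∩ Cx).filter (fun p => ¬ G.Adj p w')).card := by
    have h := Finset.sum_card_bipartiteAbove_eq_sum_card_bipartiteBelow (s := X ∩ Cx) (t := N)
      (fun a b => ¬ G.Adj a b)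
    simpa only [bipartiteAbove, bipartiteBelow] using h
  rw [h1]
  refine sum_le_sum fun w' hw' => ?_
  refine (hall_cov hC hX hXc hmin (filter_subset (fun p => ¬ G.Adj p w') (X ∩ Cx))).trans ?_
  refine card_le_card fun w hw => ?_
  obtain ⟨w1, p, hp, h2⟩ := mem_filter.1 hw
  obtain ⟨p1, p2⟩ := mem_filter.1 hp
  exact mem_filter.2 ⟨w1, (hF p p1 w (mem_sdiff.1 w1).1 w' hw' h2 p2).symm⟩

/-- the pairs of class points outside both covers which both directions need -/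
noncomputable def Ovl (G Γ Γ' : SimpleGraph V) (Hx Cx Hy Cy X X' : Finset V) : Finset (V × V) :=
  ((Cx \ X) ×ˢ (Cy \ X')).filter
    (fun q => q.1 ∈ Ned G Γ Hx Cx q.2 ∧ q.2 ∈ Ned G Γ' Hy Cy q.1)

private lemma Vc_card (hH : Disjoint Hx Cx) (c : V) :
    (Vc G Γ Hx Cx c).card = dg G Hx c + (Ned G Γ Hx Cx c).card := by
  unfold Vc
  rw [card_union_of_disjoint]
  · rfl
  · exact disjoint_of_subset_left (filter_subset _ _)
      (disjoint_of_subset_right (filter_subset _ _) hH)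

/-- a column of the other cover: only the rows of `X` are used -/
private lemma col_cov (hH : Disjoint Hx Cx) {c : V} (hC : ∀ u ∈ Cx, ∀ v ∈ Cx, ¬ Γ.Adj u v)
    (s1 : ∀ u ∈ Hx ∪ Cx, ∀ v ∈ Hx ∪ Cx, Γ.Adj u v → G.Adj c u ∨ G.Adj c v)
    (hXc : Cov Γ (Hx ∪ Cx) X)
    (hmin : ∀ X1 ⊆ Hx ∪ Cx, Cov Γ (Hx ∪ Cx) X1 → X.card ≤ X1.card) :
    X.card ≤ dg G Hx c + ((Ned G Γ Hx Cx c).filter (fun p => p ∈ X)).card
      + (((X ∩ Hx).filter (fun w => ∃ p ∈ Cx \ X, Γ.Adj w p)).filter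
          (fun w => ¬ G.Adj c w)).card := by
  set A := Hx.filter (fun w => G.Adj c w) with hA
  set B := (Ned G Γ Hx Cx c).filter (fun p => p ∈ X) with hB
  set D := ((X ∩ Hx).filter (fun w => ∃ p ∈ Cx \ X, Γ.Adj w p)).filter
          (fun w => ¬ G.Adj c w) with hD
  have hsub : (A ∪ B) ∪ D ⊆ Hx ∪ Cx := by
    refine union_subset (union_subset ?_ ?_) ?_
    · exact (filter_subset _ _).trans subset_union_left
    · exact ((filter_subset _ _).trans (filter_subset _ _)).trans subset_union_right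
    · exact ((filter_subset _ _).trans ((filter_subset _ _).trans inter_subset_right)).trans
        subset_union_left
  have key : ∀ u ∈ Hx, ∀ v ∈ Hx ∪ Cx, Γ.Adj u v → u ∈ (A ∪ B) ∪ D ∨ v ∈ (A ∪ B) ∪ D := by
    intro u hu v hv huv
    by_cases hcu : G.Adj c u
    · exact Or.inl (mem_union_left _ (mem_union_left _ (mem_filter.2 ⟨hu, hcu⟩)))
    · rcases mem_union.1 hv with hv1 | hv1
      · right
        rcases s1 u (mem_union_left _ hu) v hv huv with h | h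
        · exact absurd h hcu
        · exact mem_union_left _ (mem_union_left _ (mem_filter.2 ⟨hv1, h⟩))
      · by_cases hvX : v ∈ X
        · right
          refine mem_union_left _ (mem_union_right _ ?_)
          exact mem_filter.2 ⟨mem_filter.2 ⟨hv1, u, hu, huv, hcu⟩, hvX⟩
        · left
          have huX : u ∈ X := by
            rcases hXc u (mem_union_left _ hu) v hv huv with h | h
            · exact h
            · exact absurd h hvX
          refine mem_union_right _ (mem_filter.2 ⟨mem_filter.2 ⟨mem_inter.2 ⟨huX, hu⟩, ?_⟩, hcu⟩)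
          exact ⟨v, mem_sdiff.2 ⟨hv1, hvX⟩, huv⟩
  have hcov : Cov Γ (Hx ∪ Cx) ((A ∪ B) ∪ D) := by
    intro u hu v hv huv
    rcases mem_union.1 hu with hu1 | hu1
    · exact key u hu1 v hv huv
    · rcases mem_union.1 hv with hv1 | hv1
      · exact (key v hv1 u hu huv.symm).symm
      · exact absurd huv (hC u hu1 v hv1)
  have h1 := hmin _ hsub hcov
  have h2 := card_union_le (A ∪ B) D
  have h3 := card_union_le A B
  have h4 : dg G Hx c = A.card := rfl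
  omega

/-- a row of the cover `X`: no class points are used -/
private lemma row_cov {p : V} (hC' : ∀ u ∈ Cy, ∀ v ∈ Cy, ¬ Γ'.Adj u v)
    (s2 : ∀ u ∈ Hy ∪ Cy, ∀ v ∈ Hy ∪ Cy, Γ'.Adj u v → G.Adj p u ∨ G.Adj p v)
    (hmin' : ∀ X1 ⊆ Hy ∪ Cy, Cov Γ' (Hy ∪ Cy) X1 → X'.card ≤ X1.card) :
    X'.card ≤ dg G Hy p
      + ((Hy.filter (fun w => ∃ c ∈ Cy, Γ'.Adj w c)).filter (fun w => ¬ G.Adj p w)).card := by
  set A := Hy.filter (fun w => G.Adj p w) with hA
  set D := (Hy.filter (fun w => ∃ c ∈ Cy, Γ'.Adj w c)).filter (fun w => ¬ G.Adj p w) with hD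
  have hsub : A ∪ D ⊆ Hy ∪ Cy := by
    refine union_subset ?_ ?_
    · exact (filter_subset _ _).trans subset_union_left
    · exact ((filter_subset _ _).trans (filter_subset _ _)).trans subset_union_left
  have key : ∀ u ∈ Hy, ∀ v ∈ Hy ∪ Cy, Γ'.Adj u v → u ∈ A ∪ D ∨ v ∈ A ∪ D := by
    intro u hu v hv huv
    by_cases hcu : G.Adj p u
    · exact Or.inl (mem_union_left _ (mem_filter.2 ⟨hu, hcu⟩))
    · rcases mem_union.1 hv with hv1 | hv1
      · right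
        rcases s2 u (mem_union_left _ hu) v hv huv with h | h
        · exact absurd h hcu
        · exact mem_union_left _ (mem_filter.2 ⟨hv1, h⟩)
      · left
        exact mem_union_right _ (mem_filter.2 ⟨mem_filter.2 ⟨hu, v, hv1, huv⟩, hcu⟩)
  have hcov : Cov Γ' (Hy ∪ Cy) (A ∪ D) := by
    intro u hu v hv huv
    rcases mem_union.1 hu with hu1 | hu1
    · exact key u hu1 v hv huv
    · rcases mem_union.1 hv with hv1 | hv1
      · exact (key v hv1 u hu huv.symm).symm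
      · exact absurd huv (hC' u hu1 v hv1)
  have h1 := hmin' _ hsub hcov
  have h2 := card_union_le A D
  have h4 : dg G Hy p = A.card := rfl
  omega

/-- **LEMMA N2, general form**: the two directions together, with the overlap of the needed
rectangles outside the two minimum covers -/
theorem lemN2_gen (hH : Disjoint Hx Cx) (hH' : Disjoint Hy Cy)
    (hC : ∀ u ∈ Cx, ∀ v ∈ Cx, ¬ Γ.Adj u v) (hC' : ∀ u ∈ Cy, ∀ v ∈ Cy, ¬ Γ'.Adj u v)
    (s1 : ∀ c ∈ Cy, ∀ u ∈ Hx ∪ Cx, ∀ v ∈ Hx ∪ Cx, Γ.Adj u v → G.Adj c u ∨ G.Adj c v)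
    (s2 : ∀ p ∈ Cx, ∀ u ∈ Hy ∪ Cy, ∀ v ∈ Hy ∪ Cy, Γ'.Adj u v → G.Adj p u ∨ G.Adj p v)
    (hX : X ⊆ Hx ∪ Cx) (hXc : Cov Γ (Hx ∪ Cx) X)
    (hmin : ∀ X1 ⊆ Hx ∪ Cx, Cov Γ (Hx ∪ Cx) X1 → X.card ≤ X1.card)
    (hX' : X' ⊆ Hy ∪ Cy) (hXc' : Cov Γ' (Hy ∪ Cy) X')
    (hmin' : ∀ X1 ⊆ Hy ∪ Cy, Cov Γ' (Hy ∪ Cy) X1 → X'.card ≤ X1.card)
    (hF : ∀ w ∈ Hx, ∀ w' ∈ Hy, (∃ p ∈ Cx, Γ.Adj w p ∧ ¬ G.Adj p w') →
      (∃ c ∈ Cy, Γ'.Adj w' c) → G.Adj w w')
    (hF' : ∀ w ∈ Hx, ∀ w' ∈ Hy, (∃ c ∈ Cy, Γ'.Adj w' c ∧ ¬ G.Adj c w) →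
      (∃ p ∈ Cx, Γ.Adj w p) → G.Adj w w') :
    ∑ c ∈ Cy \ X', (Vc G Γ Hx Cx c).card + ∑ c ∈ X' ∩ Cy, max X.card (dg G Hx c)
      + (∑ p ∈ Cx \ X, (Vc G Γ' Hy Cy p).card + ∑ p ∈ X ∩ Cx, max X'.card (dg G Hy p))
      ≤ ∑ u ∈ Hy ∪ Cy, dg G (Hx ∪ Cx) u + (Ovl G Γ Γ' Hx Cx Hy Cy X X').card := by
  -- the class - class edges
  have e1 : ∑ c ∈ Cy, (if c ∈ X' then ((Ned G Γ Hx Cx c).filter (fun p => p ∈ X)).card
        else (Ned G Γ Hx Cx c).card)
      + ∑ p ∈ Cx, (if p ∈ X then 0 else (Ned G Γ' Hy Cy p).card)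
      ≤ ∑ c ∈ Cy, dg G Cx c + (Ovl G Γ Γ' Hx Cx Hy Cy X X').card := by
    have a1 : ∑ c ∈ Cy, (if c ∈ X' then ((Ned G Γ Hx Cx c).filter (fun p => p ∈ X)).card
        else (Ned G Γ Hx Cx c).card)
        = ∑ c ∈ Cy, ∑ p ∈ Cx, (if (c ∉ X' ∨ p ∈ X) ∧ p ∈ Ned G Γ Hx Cx c then 1 else 0) := by
      refine sum_congr rfl fun c _ => ?_
      rw [← card_filter]
      split_ifs with h
      · congr 1
        ext p
        simp only [mem_filter, Ned]
        tauto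
      · congr 1
        ext p
        simp only [mem_filter, Ned]
        tauto
    have a2 : ∑ p ∈ Cx, (if p ∈ X then 0 else (Ned G Γ' Hy Cy p).card)
        = ∑ c ∈ Cy, ∑ p ∈ Cx, (if p ∉ X ∧ c ∈ Ned G Γ' Hy Cy p then 1 else 0) := by
      rw [sum_comm]
      refine sum_congr rfl fun p _ => ?_
      rw [← card_filter]
      split_ifs with h
      · symm
        rw [card_eq_zero, filter_eq_empty_iff]
        rintro c _ ⟨h1, _⟩
        exact h1 h
      · congr 1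
        ext c
        simp only [mem_filter, Ned]
        tauto
    have a3 : ∑ c ∈ Cy, dg G Cx c = ∑ c ∈ Cy, ∑ p ∈ Cx, (if G.Adj c p then 1 else 0) := by
      refine sum_congr rfl fun c _ => ?_
      unfold dg
      rw [card_filter]
    have a4 : (Ovl G Γ Γ' Hx Cx Hy Cy X X').card
        = ∑ c ∈ Cy, ∑ p ∈ Cx, (if (p ∉ X ∧ c ∉ X') ∧ p ∈ Ned G Γ Hx Cx c ∧
            c ∈ Ned G Γ' Hy Cy p then 1 else 0) := by
      unfold Ovl
      rw [card_filter, sum_product, sum_comm]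
      have b1 : ∀ c, ∑ p ∈ Cx \ X, (if p ∈ Ned G Γ Hx Cx c ∧ c ∈ Ned G Γ' Hy Cy p then 1 else 0)
          = ∑ p ∈ Cx, (if p ∉ X ∧ p ∈ Ned G Γ Hx Cx c ∧ c ∈ Ned G Γ' Hy Cy p then 1 else 0) := by
        intro c
        rw [← card_filter, ← card_filter]
        congr 1
        ext p
        simp only [mem_filter, mem_sdiff]
        tauto
      have b2 : ∑ c ∈ Cy \ X', ∑ p ∈ Cx \ X,
            (if p ∈ Ned G Γ Hx Cx c ∧ c ∈ Ned G Γ' Hy Cy p then 1 else 0)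
          = ∑ c ∈ Cy \ X', ∑ p ∈ Cx,
            (if (p ∉ X ∧ c ∉ X') ∧ p ∈ Ned G Γ Hx Cx c ∧ c ∈ Ned G Γ' Hy Cy p then 1 else 0) := by
        refine sum_congr rfl fun c hc => ?_
        rw [b1 c]
        refine sum_congr rfl fun p _ => ?_
        have := (mem_sdiff.1 hc).2
        congr 1
        simp only [eq_iff_iff]
        tauto
      rw [b2]
      refine sum_subset sdiff_subset fun c hc hc' => ?_
      refine sum_eq_zero fun p _ => ?_
      rw [if_neg]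
      rintro ⟨⟨_, h1⟩, _⟩
      exact hc' (mem_sdiff.2 ⟨hc, h1⟩)
    rw [a1, a2, a3, a4, ← sum_add_distrib, ← sum_add_distrib]
    refine sum_le_sum fun c hc => ?_
    rw [← sum_add_distrib, ← sum_add_distrib]
    refine sum_le_sum fun p hp => ?_
    have h1 : p ∈ Ned G Γ Hx Cx c → G.Adj c p := fun h => (Ned_adj (s1 c hc) h).2
    have h2 : c ∈ Ned G Γ' Hy Cy p → G.Adj c p := fun h => ((Ned_adj (s2 p hp) h).2).symm
    by_cases k1 : p ∈ Ned G Γ Hx Cx c <;> by_cases k2 : c ∈ Ned G Γ' Hy Cy p <;>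
      by_cases k3 : p ∈ X <;> by_cases k4 : c ∈ X' <;> by_cases k5 : G.Adj c p <;>
      simp_all
  -- the columns
  have e2 : ∑ c ∈ Cy \ X', (Vc G Γ Hx Cx c).card + ∑ c ∈ X' ∩ Cy, max X.card (dg G Hx c)
      ≤ ∑ c ∈ Cy, dg G Hx c
        + ∑ c ∈ Cy, (if c ∈ X' then ((Ned G Γ Hx Cx c).filter (fun p => p ∈ X)).card
          else (Ned G Γ Hx Cx c).card)
        + ∑ c ∈ X' ∩ Cy, (((X ∩ Hx).filter (fun w => ∃ p ∈ Cx \ X, Γ.Adj w p)).filter
          (fun w => ¬ G.Adj c w)).card := by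
    have b0 : Cy = (Cy \ X') ∪ (X' ∩ Cy) := by
      ext c
      simp only [mem_union, mem_sdiff, mem_inter]
      tauto
    have b1 : Disjoint (Cy \ X') (X' ∩ Cy) := by
      rw [disjoint_left]
      intro c hc hc'
      exact (mem_sdiff.1 hc).2 (mem_inter.1 hc').1
    have b2 : ∀ f : V → ℕ, ∑ c ∈ Cy, f c = ∑ c ∈ Cy \ X', f c + ∑ c ∈ X' ∩ Cy, f c := by
      intro f
      conv_lhs => rw [b0]
      rw [sum_union b1]
    rw [b2, b2 (fun c => if c ∈ X' then _ else _)]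
    have b3 : ∑ c ∈ Cy \ X', (Vc G Γ Hx Cx c).card
        = ∑ c ∈ Cy \ X', dg G Hx c + ∑ c ∈ Cy \ X',
          (if c ∈ X' then ((Ned G Γ Hx Cx c).filter (fun p => p ∈ X)).card
          else (Ned G Γ Hx Cx c).card) := by
      rw [← sum_add_distrib]
      refine sum_congr rfl fun c hc => ?_
      have k : c ∉ X' := (mem_sdiff.1 hc).2
      rw [Vc_card hH, if_neg k]
    have b4 : ∑ c ∈ X' ∩ Cy, max X.card (dg G Hx c)
        ≤ ∑ c ∈ X' ∩ Cy, dg G Hx c + ∑ c ∈ X' ∩ Cy,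
          (if c ∈ X' then ((Ned G Γ Hx Cx c).filter (fun p => p ∈ X)).card
          else (Ned G Γ Hx Cx c).card)
        + ∑ c ∈ X' ∩ Cy, (((X ∩ Hx).filter (fun w => ∃ p ∈ Cx \ X, Γ.Adj w p)).filter
          (fun w => ¬ G.Adj c w)).card := by
      rw [← sum_add_distrib, ← sum_add_distrib]
      refine sum_le_sum fun c hc => ?_
      obtain ⟨c1, c2⟩ := mem_inter.1 hc
      rw [if_pos c1]
      have := col_cov hH hC (s1 c c2) hXc hmin
      refine max_le this ?_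
      omega
    omega
  -- the rows
  have e3 : ∑ p ∈ Cx \ X, (Vc G Γ' Hy Cy p).card + ∑ p ∈ X ∩ Cx, max X'.card (dg G Hy p)
      ≤ ∑ p ∈ Cx, dg G Hy p
        + ∑ p ∈ Cx, (if p ∈ X then 0 else (Ned G Γ' Hy Cy p).card)
        + ∑ p ∈ X ∩ Cx, ((Hy.filter (fun w => ∃ c ∈ Cy, Γ'.Adj w c)).filter
          (fun w => ¬ G.Adj p w)).card := by
    have b0 : Cx = (Cx \ X) ∪ (X ∩ Cx) := by
      ext c
      simp only [mem_union, mem_sdiff, mem_inter]
      tauto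
    have b1 : Disjoint (Cx \ X) (X ∩ Cx) := by
      rw [disjoint_left]
      intro c hc hc'
      exact (mem_sdiff.1 hc).2 (mem_inter.1 hc').1
    have b2 : ∀ f : V → ℕ, ∑ c ∈ Cx, f c = ∑ c ∈ Cx \ X, f c + ∑ c ∈ X ∩ Cx, f c := by
      intro f
      conv_lhs => rw [b0]
      rw [sum_union b1]
    rw [b2, b2 (fun p => if p ∈ X then _ else _)]
    have b3 : ∑ p ∈ Cx \ X, (Vc G Γ' Hy Cy p).card
        = ∑ p ∈ Cx \ X, dg G Hy p + ∑ p ∈ Cx \ X,
          (if p ∈ X then 0 else (Ned G Γ' Hy Cy p).card) := by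
      rw [← sum_add_distrib]
      refine sum_congr rfl fun c hc => ?_
      have k : c ∉ X := (mem_sdiff.1 hc).2
      rw [Vc_card hH', if_neg k]
    have b4 : ∑ p ∈ X ∩ Cx, max X'.card (dg G Hy p)
        ≤ ∑ p ∈ X ∩ Cx, dg G Hy p
        + ∑ p ∈ X ∩ Cx, ((Hy.filter (fun w => ∃ c ∈ Cy, Γ'.Adj w c)).filter
          (fun w => ¬ G.Adj p w)).card := by
      rw [← sum_add_distrib]
      refine sum_le_sum fun p hp => ?_
      obtain ⟨p1, p2⟩ := mem_inter.1 hp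
      have := row_cov hC' (s2 p p2) hmin'
      refine max_le this ?_
      omega
    omega
  -- the payments
  have e4 := pay_cov (G := G)
    (N := Hy.filter (fun w => ∃ c ∈ Cy, Γ'.Adj w c)) hC hX hXc hmin
    (fun p hp w hw w' hw' h1 h2 => by
      obtain ⟨k1, k2⟩ := mem_filter.1 hw'
      exact hF w hw w' k1 ⟨p, (mem_inter.1 hp).2, h1, h2⟩ k2)
  have e5 := pay_cov (G := G)
    (N := (X ∩ Hx).filter (fun w => ∃ p ∈ Cx \ X, Γ.Adj w p)) hC' hX' hXc' hmin'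
    (fun c hc w' hw' w hw h1 h2 => by
      obtain ⟨k1, p, k2, k3⟩ := mem_filter.1 hw
      exact (hF' w (mem_inter.1 k1).2 w' hw' ⟨c, (mem_inter.1 hc).2, h1, h2⟩
        ⟨p, (mem_sdiff.1 k2).1, k3⟩).symm)
  have e6 : ∑ w' ∈ Hy.filter (fun w => ∃ c ∈ Cy, Γ'.Adj w c),
      ((Hx \ X).filter (fun w => G.Adj w' w)).card
      + ∑ w ∈ (X ∩ Hx).filter (fun w => ∃ p ∈ Cx \ X, Γ.Adj w p),
        ((Hy \ X').filter (fun w' => G.Adj w w')).card ≤ ∑ w' ∈ Hy, dg G Hx w' := by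
    have c1 : ∑ w' ∈ Hy.filter (fun w => ∃ c ∈ Cy, Γ'.Adj w c),
        ((Hx \ X).filter (fun w => G.Adj w' w)).card ≤ ∑ w' ∈ Hy, dg G (Hx \ X) w' :=
      sum_le_sum_of_subset (filter_subset _ _)
    have c2 : ∑ w ∈ (X ∩ Hx).filter (fun w => ∃ p ∈ Cx \ X, Γ.Adj w p),
        ((Hy \ X').filter (fun w' => G.Adj w w')).card ≤ ∑ w ∈ X ∩ Hx, dg G Hy w := by
      refine (sum_le_sum_of_subset (filter_subset _ _)).trans (sum_le_sum fun w _ => ?_)
      exact dg_mono G sdiff_subset w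
    have c3 := dg_comm G (X ∩ Hx) Hy
    have c4 : ∀ w', dg G Hx w' = dg G (Hx \ X) w' + dg G (X ∩ Hx) w' := by
      intro w'
      have h1 := dg_sdiff G (inter_subset_right : X ∩ Hx ⊆ Hx) w'
      have h2 : Hx \ (X ∩ Hx) = Hx \ X := by
        ext z
        simp only [mem_sdiff, mem_inter]
        tauto
      rw [h2] at h1
      exact h1
    have c5 : ∑ w' ∈ Hy, dg G Hx w' = ∑ w' ∈ Hy, dg G (Hx \ X) w'
        + ∑ w' ∈ Hy, dg G (X ∩ Hx) w' := by
      rw [← sum_add_distrib]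
      exact sum_congr rfl fun w' _ => c4 w'
    omega
  -- the total
  have e7 : ∑ u ∈ Hy ∪ Cy, dg G (Hx ∪ Cx) u = ∑ w' ∈ Hy, dg G Hx w' + ∑ w' ∈ Hy, dg G Cx w'
      + (∑ c ∈ Cy, dg G Hx c + ∑ c ∈ Cy, dg G Cx c) := by
    rw [sum_union hH', ← sum_add_distrib, ← sum_add_distrib]
    congr 1
    · exact sum_congr rfl fun w' _ => l2_union hH G w'
    · exact sum_congr rfl fun w' _ => l2_union hH G w'
  have e8 := dg_comm G Hy Cx
  omega

/-- **LEMMA N2 (1)**: if the minimum cover `X` has no N-type (all pairs with a class point are met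
by their class point) then the two cover numbers are paid in full -/
theorem lemN2 (hH : Disjoint Hx Cx) (hH' : Disjoint Hy Cy)
    (hC : ∀ u ∈ Cx, ∀ v ∈ Cx, ¬ Γ.Adj u v) (hC' : ∀ u ∈ Cy, ∀ v ∈ Cy, ¬ Γ'.Adj u v)
    (s1 : ∀ c ∈ Cy, ∀ u ∈ Hx ∪ Cx, ∀ v ∈ Hx ∪ Cx, Γ.Adj u v → G.Adj c u ∨ G.Adj c v)
    (s2 : ∀ p ∈ Cx, ∀ u ∈ Hy ∪ Cy, ∀ v ∈ Hy ∪ Cy, Γ'.Adj u v → G.Adj p u ∨ G.Adj p v)
    (hX : X ⊆ Hx ∪ Cx) (hXc : Cov Γ (Hx ∪ Cx) X)
    (hmin : ∀ X1 ⊆ Hx ∪ Cx, Cov Γ (Hx ∪ Cx) X1 → X.card ≤ X1.card)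
    (hXN : ∀ w ∈ Hx, ∀ p ∈ Cx, Γ.Adj w p → p ∈ X)
    (hmin' : ∀ X1 ⊆ Hy ∪ Cy, Cov Γ' (Hy ∪ Cy) X1 → τ' ≤ X1.card)
    (hF : ∀ w ∈ Hx, ∀ w' ∈ Hy, (∃ p ∈ Cx, Γ.Adj w p ∧ ¬ G.Adj p w') →
      (∃ c ∈ Cy, Γ'.Adj w' c) → G.Adj w w') :
    X.card * Cy.card + τ' * Cx.card ≤ ∑ u ∈ Hy ∪ Cy, dg G (Hx ∪ Cx) u := by
  have e7 : ∑ u ∈ Hy ∪ Cy, dg G (Hx ∪ Cx) u = ∑ w' ∈ Hy, dg G Hx w' + ∑ w' ∈ Hy, dg G Cx w'
      + (∑ c ∈ Cy, dg G Hx c + ∑ c ∈ Cy, dg G Cx c) := by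
    rw [sum_union hH', ← sum_add_distrib, ← sum_add_distrib]
    congr 1
    · exact sum_congr rfl fun w' _ => l2_union hH G w'
    · exact sum_congr rfl fun w' _ => l2_union hH G w'
  have e8 := dg_comm G Hy Cx
  have e4 := pay_cov (G := G)
    (N := Hy.filter (fun w => ∃ c ∈ Cy, Γ'.Adj w c)) hC hX hXc hmin
    (fun p hp w hw w' hw' h1 h2 => by
      obtain ⟨k1, k2⟩ := mem_filter.1 hw'
      exact hF w hw w' k1 ⟨p, (mem_inter.1 hp).2, h1, h2⟩ k2)
  have e5 : ∑ w' ∈ Hy.filter (fun w => ∃ c ∈ Cy, Γ'.Adj w c),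
      ((Hx \ X).filter (fun w => G.Adj w' w)).card ≤ ∑ w' ∈ Hy, dg G Hx w' := by
    refine (sum_le_sum_of_subset (filter_subset _ _)).trans (sum_le_sum fun w _ => ?_)
    exact dg_mono G sdiff_subset w
  -- columns
  have f1 : X.card * Cy.card ≤ ∑ c ∈ Cy, (dg G Hx c + dg G (X ∩ Cx) c) := by
    rw [mul_comm, ← smul_eq_mul, ← sum_const]
    refine sum_le_sum fun c hc => ?_
    have h1 := col_cov hH hC (s1 c hc) hXc hmin
    have h2 : (((X ∩ Hx).filter (fun w => ∃ p ∈ Cx \ X, Γ.Adj w p)).filter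
        (fun w => ¬ G.Adj c w)).card = 0 := by
      rw [card_eq_zero, filter_eq_empty_iff]
      intro w hw
      obtain ⟨k1, p, k2, k3⟩ := mem_filter.1 hw
      exact absurd (hXN w (mem_inter.1 k1).2 p (mem_sdiff.1 k2).1 k3) (mem_sdiff.1 k2).2
    have h3 : ((Ned G Γ Hx Cx c).filter (fun p => p ∈ X)).card ≤ dg G (X ∩ Cx) c := by
      refine card_le_card fun p hp => ?_
      obtain ⟨p1, p2⟩ := mem_filter.1 hp
      obtain ⟨p3, p4⟩ := Ned_adj (s1 c hc) p1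
      exact mem_filter.2 ⟨mem_inter.2 ⟨p2, p3⟩, p4⟩
    omega
  -- rows
  have key : ∀ p ∈ Cx, τ' ≤ (Vc G Γ' Hy Cy p).card := fun p hp =>
    hmin' _ (Vc_sub p) (Vc_cov hC' (s2 p hp))
  have f2 : τ' * Cx.card ≤ ∑ p ∈ Cx, dg G Hy p + ∑ p ∈ Cx \ X, dg G Cy p
      + ∑ p ∈ X ∩ Cx, ((Hy.filter (fun w => ∃ c ∈ Cy, Γ'.Adj w c)).filter
          (fun w => ¬ G.Adj p w)).card := by
    have b0 : Cx = (Cx \ X) ∪ (X ∩ Cx) := by
      ext c
      simp only [mem_union, mem_sdiff, mem_inter]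
      tauto
    have b1 : Disjoint (Cx \ X) (X ∩ Cx) := by
      rw [disjoint_left]
      intro c hc hc'
      exact (mem_sdiff.1 hc).2 (mem_inter.1 hc').1
    have b2 : ∀ f : V → ℕ, ∑ c ∈ Cx, f c = ∑ c ∈ Cx \ X, f c + ∑ c ∈ X ∩ Cx, f c := by
      intro f
      conv_lhs => rw [b0]
      rw [sum_union b1]
    have b5 : τ' * Cx.card = ∑ _c ∈ Cx, τ' := by
      rw [sum_const, smul_eq_mul, mul_comm]
    rw [b5, b2 (fun _ => τ'), b2 (fun p => dg G Hy p)]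
    have b3 : ∑ _p ∈ Cx \ X, τ' ≤ ∑ p ∈ Cx \ X, dg G Hy p + ∑ p ∈ Cx \ X, dg G Cy p := by
      rw [← sum_add_distrib]
      refine sum_le_sum fun p hp => ?_
      have hpC := (mem_sdiff.1 hp).1
      have h1 := key p hpC
      rw [Vc_card hH'] at h1
      have h2 : (Ned G Γ' Hy Cy p).card ≤ dg G Cy p := by
        refine card_le_card fun c hc => ?_
        obtain ⟨c1, c2⟩ := Ned_adj (s2 p hpC) hc
        exact mem_filter.2 ⟨c1, c2⟩
      omega
    have b4 : ∑ _p ∈ X ∩ Cx, τ' ≤ ∑ p ∈ X ∩ Cx, dg G Hy p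
        + ∑ p ∈ X ∩ Cx, ((Hy.filter (fun w => ∃ c ∈ Cy, Γ'.Adj w c)).filter
          (fun w => ¬ G.Adj p w)).card := by
      rw [← sum_add_distrib]
      refine sum_le_sum fun p hp => ?_
      have hpC := (mem_inter.1 hp).2
      set A := Hy.filter (fun w => G.Adj p w) with hA
      set D := (Hy.filter (fun w => ∃ c ∈ Cy, Γ'.Adj w c)).filter (fun w => ¬ G.Adj p w) with hD
      have hsub : A ∪ D ⊆ Hy ∪ Cy := by
        refine union_subset ?_ ?_
        · exact (filter_subset _ _).trans subset_union_left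
        · exact ((filter_subset _ _).trans (filter_subset _ _)).trans subset_union_left
      have key2 : ∀ u ∈ Hy, ∀ v ∈ Hy ∪ Cy, Γ'.Adj u v → u ∈ A ∪ D ∨ v ∈ A ∪ D := by
        intro u hu v hv huv
        by_cases hcu : G.Adj p u
        · exact Or.inl (mem_union_left _ (mem_filter.2 ⟨hu, hcu⟩))
        · rcases mem_union.1 hv with hv1 | hv1
          · right
            rcases s2 p hpC u (mem_union_left _ hu) v hv huv with h | h
            · exact absurd h hcu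
            · exact mem_union_left _ (mem_filter.2 ⟨hv1, h⟩)
          · left
            exact mem_union_right _ (mem_filter.2 ⟨mem_filter.2 ⟨hu, v, hv1, huv⟩, hcu⟩)
      have hcov : Cov Γ' (Hy ∪ Cy) (A ∪ D) := by
        intro u hu v hv huv
        rcases mem_union.1 hu with hu1 | hu1
        · exact key2 u hu1 v hv huv
        · rcases mem_union.1 hv with hv1 | hv1
          · exact (key2 v hv1 u hu huv.symm).symm
          · exact absurd huv (hC' u hu1 v hv1)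
      have h1 := hmin' _ hsub hcov
      have h2 := card_union_le A D
      have h4 : dg G Hy p = A.card := rfl
      omega
    omega
  -- class - class edges
  have f3 : ∑ c ∈ Cy, (dg G Hx c + dg G (X ∩ Cx) c) = ∑ c ∈ Cy, dg G Hx c
      + ∑ c ∈ Cy, dg G (X ∩ Cx) c := sum_add_distrib
  have f4 : ∑ c ∈ Cy, dg G Cx c = ∑ c ∈ Cy, dg G (Cx \ X) c + ∑ c ∈ Cy, dg G (X ∩ Cx) c := by
    rw [← sum_add_distrib]
    refine sum_congr rfl fun c _ => ?_
    have h1 := dg_sdiff G (inter_subset_right : X ∩ Cx ⊆ Cx) c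
    have h2 : Cx \ (X ∩ Cx) = Cx \ X := by
      ext z
      simp only [mem_sdiff, mem_inter]
      tauto
    rw [h2] at h1
    exact h1
  have f5 := dg_comm G Cy (Cx \ X)
  omega

end LemN2

end Pool.Agent.Lib.MP_f04ccf_co
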