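import Pool.Agent.Lib.MP_f04ccf_co.M.Back

/-!
MP_f04ccf_co: LEMMA N of helper79 (note 15294), version for served graphs (`SrvBy`) and the frame.  `N` is a graph of missing pairs on the slot `S`, served
by the clique `C`; `K` is a minimum vertex cover of `N`.  The edges between `S` and `C` pay all the edges
of `N` and `K.card * (C.card - h)` more, although a vertex of `K` may have more than `h` partners.
-/

set_option autoImplicit false

namespace Pool.Agent.Lib.MP_f04ccf_co

open Finset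

attribute [local instance] Classical.propDecidable

section LemN

variable {V : Type*} {G N : SimpleGraph V} {S C K : Finset V}

/-- the edges of `N` inside `S`, counted from a vertex cover (exact) -/
lemma CovN.E_eq (hK : K ⊆ S) (hc : CovN N S K) :
    E N S + E N K = 2 * ∑ v ∈ K, dg N S v := by
  have h1 := E_sdiff N hK
  have h2 : E N (S \ K) = 0 := by
    unfold E dg
    refine sum_eq_zero fun p hp => ?_
    rw [card_eq_zero, filter_eq_empty_iff]
    intro q hq hpq
    obtain ⟨a1, a2⟩ := mem_sdiff.1 hp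
    obtain ⟨b1, b2⟩ := mem_sdiff.1 hq
    rcases hc p a1 q b1 hpq with h | h
    · exact a2 h
    · exact b2 h
  omega

/-- the edges of `N` inside `S` with a bound for the degrees of the cover -/
lemma CovN.E_le (hK : K ⊆ S) (hc : CovN N S K) {D : ℕ} (hD : ∀ v ∈ K, dg N S v ≤ D) :
    E N S + E N K ≤ 2 * (K.card * D) := by
  rw [hc.E_eq hK]
  have h1 := sum_le_sum hD
  rw [sum_const, smul_eq_mul] at h1
  omega

variable (G N S) in
/-- the vertices of `K` with more than `h` partners which the point `c` does not see -/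
noncomputable def Wc (h : ℕ) (K : Finset V) (c : V) : Finset V :=
  K.filter (fun w => h < dg N S w ∧ ¬ G.Adj w c)

lemma mem_Wc {h : ℕ} {c w : V} :
    w ∈ Wc G N S h K c ↔ w ∈ K ∧ h < dg N S w ∧ ¬ G.Adj w c := mem_filter

/-- a point of `C` which misses `w` sees all the partners of `w` -/
lemma SrvBy.dg_miss (hs : SrvBy G N S C) {w c : V} (hw : w ∈ S) (hc : c ∈ C)
    (hwc : ¬ G.Adj w c) : dg N S w ≤ dg G S c := by
  unfold dg
  refine card_le_card fun v hv => ?_
  obtain ⟨a1, a2⟩ := mem_filter.1 hv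
  rcases hs w hw v a1 a2 c hc with h4 | h4
  · exact absurd h4 hwc
  · exact mem_filter.2 ⟨a1, h4.symm⟩

/-- the excess of the degrees over `h`, spread over the points of `C` which are missed -/
lemma SrvBy.excess {h : ℕ}
    {f : V → ℚ} (hf : ∀ c ∈ C, ∀ w ∈ Wc G N S h K c,
      ((dg N S w : ℚ) - h) * (Wc G N S h K c).card
        ≤ f c * (C.filter (fun c' => ¬ G.Adj w c')).card)
    (hpos : ∀ w ∈ K, h < dg N S w → 0 < (C.filter (fun c' => ¬ G.Adj w c')).card) :
    ∑ w ∈ K.filter (fun w => h < dg N S w), ((dg N S w : ℚ) - h)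
      ≤ ∑ c ∈ C.filter (fun c => (Wc G N S h K c).Nonempty), f c := by
  have h1 : ∀ w ∈ K.filter (fun w => h < dg N S w), ((dg N S w : ℚ) - h)
      = ∑ c ∈ C, (if ¬ G.Adj w c then
          ((dg N S w : ℚ) - h) / (C.filter (fun c' => ¬ G.Adj w c')).card else 0) := by
    intro w hw
    obtain ⟨a1, a2⟩ := mem_filter.1 hw
    have h2 := hpos w a1 a2
    have h3 : ((C.filter (fun c' => ¬ G.Adj w c')).card : ℚ) ≠ 0 := by
      have : (0 : ℚ) < (C.filter (fun c' => ¬ G.Adj w c')).card := by exact_mod_cast h2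
      exact ne_of_gt this
    rw [← sum_filter, sum_const, nsmul_eq_mul, mul_div_cancel₀ _ h3]
  rw [sum_congr rfl h1, sum_comm, sum_filter]
  refine sum_le_sum fun c hc => ?_
  have h4 : ∑ w ∈ K.filter (fun w => h < dg N S w), (if ¬ G.Adj w c then
          ((dg N S w : ℚ) - h) / (C.filter (fun c' => ¬ G.Adj w c')).card else 0)
      = ∑ w ∈ Wc G N S h K c,
          ((dg N S w : ℚ) - h) / (C.filter (fun c' => ¬ G.Adj w c')).card := by
    rw [← sum_filter, filter_filter]
    rfl
  rw [h4]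
  by_cases hne : (Wc G N S h K c).Nonempty
  · rw [if_pos hne]
    have h5 : (0 : ℚ) < (Wc G N S h K c).card := by exact_mod_cast hne.card_pos
    have h6 : ∀ w ∈ Wc G N S h K c,
        ((dg N S w : ℚ) - h) / (C.filter (fun c' => ¬ G.Adj w c')).card
          ≤ f c / (Wc G N S h K c).card := by
      intro w hw
      obtain ⟨a1, a2, a3⟩ := mem_Wc.1 hw
      have h7 : (0 : ℚ) < (C.filter (fun c' => ¬ G.Adj w c')).card := by
        exact_mod_cast hpos w a1 a2
      rw [div_le_div_iff₀ h7 h5]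
      exact hf c hc w hw
    have h8 := sum_le_sum h6
    rw [sum_const, nsmul_eq_mul, mul_div_cancel₀ _ (ne_of_gt h5)] at h8
    exact h8
  · rw [if_neg hne, not_nonempty_iff_eq_empty.1 hne, sum_empty]

/-- **LEMMA N**, general form: `f c` is any bound for the part of the excess spread to `c` -/
theorem SrvBy.lemN_gen (hs : SrvBy G N S C) (hK : K ⊆ S) (hc : CovN N S K)
    (hmin : ∀ K' : Finset V, K' ⊆ S → CovN N S K' → K.card ≤ K'.card) {h : ℕ}
    {f : V → ℚ} (hf : ∀ c ∈ C, ∀ w ∈ Wc G N S h K c,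
      ((dg N S w : ℚ) - h) * (Wc G N S h K c).card
        ≤ f c * (C.filter (fun c' => ¬ G.Adj w c')).card)
    (hpos : ∀ w ∈ K, h < dg N S w → 0 < (C.filter (fun c' => ¬ G.Adj w c')).card) :
    (E N S : ℚ) + E N K + 2 * K.card * ((C.card : ℚ) - h)
      + 2 * ∑ v ∈ K, ((h - dg N S v : ℕ) : ℚ)
      + 2 * ∑ c ∈ C.filter (fun c => (Wc G N S h K c).Nonempty),
          ((dg G S c : ℚ) - K.card - f c)
      ≤ 2 * ∑ c ∈ C, (dg G S c : ℚ) := by
  have h1 := SrvBy.excess hf hpos
  have h2 : ((E N S + E N K : ℕ) : ℚ) = 2 * ∑ v ∈ K, (dg N S v : ℚ) := by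
    rw [hc.E_eq hK]
    push_cast
    rfl
  have h3 : ∑ v ∈ K, (dg N S v : ℚ) = K.card * h
      + ∑ w ∈ K.filter (fun w => h < dg N S w), ((dg N S w : ℚ) - h)
      - ∑ v ∈ K, ((h - dg N S v : ℕ) : ℚ) := by
    have e1 : (K.card : ℚ) * h = ∑ v ∈ K, (h : ℚ) := by rw [sum_const, nsmul_eq_mul]
    rw [e1, sum_filter, ← sum_add_distrib, ← sum_sub_distrib]
    refine sum_congr rfl fun v _ => ?_
    by_cases hv : h < dg N S v
    · rw [if_pos hv, Nat.sub_eq_zero_of_le hv.le]
      push_cast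
      ring
    · rw [if_neg hv, Nat.cast_sub (not_lt.1 hv)]
      ring
  have h4 : ∑ c ∈ C.filter (fun c => ¬ (Wc G N S h K c).Nonempty), (K.card : ℚ)
      ≤ ∑ c ∈ C.filter (fun c => ¬ (Wc G N S h K c).Nonempty), (dg G S c : ℚ) := by
    refine sum_le_sum fun c hcc => ?_
    exact_mod_cast hs.le_dg hmin (mem_filter.1 hcc).1
  have h5 := sum_filter_add_sum_filter_not C (fun c => (Wc G N S h K c).Nonempty)
    (fun c => (dg G S c : ℚ))
  have h6 := sum_filter_add_sum_filter_not C (fun c => (Wc G N S h K c).Nonempty)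
    (fun _ => (K.card : ℚ))
  rw [sum_const (s := C), nsmul_eq_mul] at h6
  rw [sum_sub_distrib, sum_sub_distrib]
  push_cast at h2
  nlinarith

/-- **LEMMA N** (helper79): if every point of `C` misses at most `κ w` of the vertices of `K` with more
than `h` partners, where `κ w` is the number of points of `C` missed by any of them -/
theorem SrvBy.lemN (hs : SrvBy G N S C) (hK : K ⊆ S) (hc : CovN N S K)
    (hmin : ∀ K' : Finset V, K' ⊆ S → CovN N S K' → K.card ≤ K'.card) {h : ℕ}
    (ht : ∀ c ∈ C, ∀ w ∈ Wc G N S h K c,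
      (Wc G N S h K c).card ≤ (C.filter (fun c' => ¬ G.Adj w c')).card)
    (hpos : ∀ w ∈ K, h < dg N S w → 0 < (C.filter (fun c' => ¬ G.Adj w c')).card) :
    (E N S : ℤ) + E N K + 2 * K.card * ((C.card : ℤ) - h)
      + 2 * ∑ v ∈ K, ((h - dg N S v : ℕ) : ℤ)
      + 2 * ((h : ℤ) - K.card) * (C.filter (fun c => (Wc G N S h K c).Nonempty)).card
      ≤ 2 * ∑ c ∈ C, (dg G S c : ℤ) := by
  have h1 := hs.lemN_gen hK hc hmin (h := h) (f := fun c => (dg G S c : ℚ) - h) (by
    intro c hcC w hw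
    obtain ⟨a1, a2, a3⟩ := mem_Wc.1 hw
    have e1 : ((dg N S w : ℕ) : ℚ) ≤ dg G S c := by
      exact_mod_cast hs.dg_miss (hK a1) hcC a3
    have e2 : ((Wc G N S h K c).card : ℚ) ≤ (C.filter (fun c' => ¬ G.Adj w c')).card := by
      exact_mod_cast ht c hcC w hw
    have e3 : (0 : ℚ) ≤ (Wc G N S h K c).card := by positivity
    have e4 : (h : ℚ) < dg N S w := by exact_mod_cast a2
    calc ((dg N S w : ℚ) - h) * (Wc G N S h K c).card
        ≤ ((dg G S c : ℚ) - h) * (Wc G N S h K c).card :=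
          mul_le_mul_of_nonneg_right (by linarith) e3
      _ ≤ ((dg G S c : ℚ) - h) * (C.filter (fun c' => ¬ G.Adj w c')).card :=
          mul_le_mul_of_nonneg_left e2 (by linarith)) hpos
  have h2 : ∑ c ∈ C.filter (fun c => (Wc G N S h K c).Nonempty),
      ((dg G S c : ℚ) - K.card - ((dg G S c : ℚ) - h))
      = ((h : ℚ) - K.card) * (C.filter (fun c => (Wc G N S h K c).Nonempty)).card := by
    rw [sum_congr rfl (g := fun _ => (h : ℚ) - K.card) (fun c _ => by ring), sum_const,
      nsmul_eq_mul]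
    ring
  rw [h2] at h1
  have h3 : (((E N S : ℤ) + E N K + 2 * K.card * ((C.card : ℤ) - h)
      + 2 * ∑ v ∈ K, ((h - dg N S v : ℕ) : ℤ)
      + 2 * ((h : ℤ) - K.card) * (C.filter (fun c => (Wc G N S h K c).Nonempty)).card : ℤ) : ℚ)
      ≤ ((2 * ∑ c ∈ C, (dg G S c : ℤ) : ℤ) : ℚ) := by
    push_cast
    push_cast at h1
    linarith
  exact_mod_cast h3

/-- **LEMMA N**, fine form: `m + t ≤ κ` for all missed points; the square terms are kept -/
theorem SrvBy.lemN_fine (hs : SrvBy G N S C) (hK : K ⊆ S) (hc : CovN N S K)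
    (hmin : ∀ K' : Finset V, K' ⊆ S → CovN N S K' → K.card ≤ K'.card) {h : ℕ}
    (ht : ∀ c ∈ C, ∀ w ∈ Wc G N S h K c,
      dg N S w + (Wc G N S h K c).card ≤ h + (C.filter (fun c' => ¬ G.Adj w c')).card)
    (hpos : ∀ w ∈ K, h < dg N S w → 0 < (C.filter (fun c' => ¬ G.Adj w c')).card) :
    (E N S : ℚ) + E N K + 2 * K.card * ((C.card : ℚ) - h)
      + 2 * ∑ v ∈ K, ((h - dg N S v : ℕ) : ℚ)
      + 2 * ∑ c ∈ C.filter (fun c => (Wc G N S h K c).Nonempty),
          ((h : ℚ) - K.card + ((dg G S c : ℚ) - h) ^ 2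
            / ((dg G S c : ℚ) - h + (Wc G N S h K c).card))
      ≤ 2 * ∑ c ∈ C, (dg G S c : ℚ) := by
  have h0 : ∀ c ∈ C.filter (fun c => (Wc G N S h K c).Nonempty),
      (0 : ℚ) < (dg G S c : ℚ) - h ∧ (0 : ℚ) < (Wc G N S h K c).card := by
    intro c hcc
    obtain ⟨hcC, w, hw⟩ := mem_filter.1 hcc
    obtain ⟨a1, a2, a3⟩ := mem_Wc.1 hw
    have e1 : ((dg N S w : ℕ) : ℚ) ≤ dg G S c := by
      exact_mod_cast hs.dg_miss (hK a1) hcC a3
    have e4 : (h : ℚ) < dg N S w := by exact_mod_cast a2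
    refine ⟨by linarith, ?_⟩
    exact_mod_cast card_pos.2 ⟨w, hw⟩
  have h1 := hs.lemN_gen hK hc hmin (h := h)
    (f := fun c => (Wc G N S h K c).card * ((dg G S c : ℚ) - h)
      / ((dg G S c : ℚ) - h + (Wc G N S h K c).card)) (by
    intro c hcC w hw
    obtain ⟨a1, a2, a3⟩ := mem_Wc.1 hw
    obtain ⟨b1, b2⟩ := h0 c (mem_filter.2 ⟨hcC, w, hw⟩)
    have e1 : ((dg N S w : ℕ) : ℚ) ≤ dg G S c := by
      exact_mod_cast hs.dg_miss (hK a1) hcC a3
    have e2 : (dg N S w : ℚ) + (Wc G N S h K c).card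
        ≤ h + (C.filter (fun c' => ¬ G.Adj w c')).card := by
      exact_mod_cast ht c hcC w hw
    have e4 : (h : ℚ) < dg N S w := by exact_mod_cast a2
    rw [div_mul_eq_mul_div, le_div_iff₀ (by linarith)]
    generalize hm : (dg N S w : ℚ) - h = m'
    generalize hM : (dg G S c : ℚ) - h = M at b1
    generalize ht' : ((Wc G N S h K c).card : ℚ) = t' at e2 b2
    generalize hκ : ((C.filter (fun c' => ¬ G.Adj w c')).card : ℚ) = κ at e2
    have e5 : m' ≤ M := by linarith
    have e6 : m' + t' ≤ κ := by linarith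
    have e7 : 0 < m' := by linarith
    have e8 : t' * M * (m' + t') ≤ t' * M * κ :=
      mul_le_mul_of_nonneg_left e6 (by positivity)
    have e9 : 0 ≤ t' * t' * (M - m') := by
      have := sub_nonneg.2 e5
      positivity
    nlinarith) hpos
  have h2 : ∀ c ∈ C.filter (fun c => (Wc G N S h K c).Nonempty),
      (dg G S c : ℚ) - K.card - (Wc G N S h K c).card * ((dg G S c : ℚ) - h)
        / ((dg G S c : ℚ) - h + (Wc G N S h K c).card)
      = (h : ℚ) - K.card + ((dg G S c : ℚ) - h) ^ 2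
            / ((dg G S c : ℚ) - h + (Wc G N S h K c).card) := by
    intro c hcc
    obtain ⟨b1, b2⟩ := h0 c hcc
    have e1 : (dg G S c : ℚ) - h + (Wc G N S h K c).card ≠ 0 := by
      have : (0 : ℚ) < (dg G S c : ℚ) - h + (Wc G N S h K c).card := by linarith
      exact ne_of_gt this
    rw [eq_comm, ← sub_eq_zero]
    field_simp
    ring
  rw [sum_congr rfl h2] at h1
  exact h1

end LemN

section LemNFrame

variable {V : Type*} {G N : SimpleGraph V} {Z T K : Finset V} {hm : V → V} {r m t : ℕ}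

/-- the vertices with home `x` cover every graph of missing pairs of the slot -/
lemma PFrame.cov_Ph (h : PFrame G r m t Z T) {x : V} (hx : x ∈ T) (hN : N ≤ co G) :
    CovN N (MM G Z T hm x) (Ph G Z T hm x) := by
  intro p hp q hq hpq
  rcases mem_union.1 hp with h1 | h1
  · rcases mem_union.1 hq with h2 | h2
    · have h3 := hN hpq
      exact absurd (h.Cl_clq hx p h1 q h2 h3.1) h3.2
    · exact Or.inr h2
  · exact Or.inl h1

lemma nd_eq_filter {S : Finset V} {x : V} (hx : x ∉ S) :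
    (S.filter (fun y => ¬ G.Adj x y)).card = nd G S x := by
  unfold nd
  congr 1
  ext c
  rw [mem_filter, mem_filter]
  constructor
  · rintro ⟨a, b⟩
    exact ⟨a, fun h' => hx (h' ▸ a), b⟩
  · rintro ⟨a, b⟩
    exact ⟨a, b.2⟩

/-- the two facts about the vertices of `K` with more than `|Ph x|` partners -/
lemma PFrame.lemN_aux (h : PFrame G r m t Z T) {x y : V} (hx : x ∈ T) (hy : y ∈ T)
    (hxy : x ≠ y) (hN : N ≤ co G)
    (hs : SrvBy G N (MM G Z T hm x) (Cl G Z T y)) (hK : K ⊆ MM G Z T hm x)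
    (hrule : ∀ w ∈ K, w ∈ Ph G Z T hm x → (Ph G Z T hm x).card < dg N (MM G Z T hm x) w →
      nd G (Cl G Z T x) w ≤ nd G (Cl G Z T y) w) :
    (∀ c ∈ Cl G Z T y, ∀ w ∈ Wc G N (MM G Z T hm x) (Ph G Z T hm x).card K c,
      dg N (MM G Z T hm x) w + (Wc G N (MM G Z T hm x) (Ph G Z T hm x).card K c).card
        ≤ (Ph G Z T hm x).card + ((Cl G Z T y).filter (fun c' => ¬ G.Adj w c')).card) ∧
    (∀ w ∈ K, (Ph G Z T hm x).card < dg N (MM G Z T hm x) w →
      0 < ((Cl G Z T y).filter (fun c' => ¬ G.Adj w c')).card) := by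
  have hd : Disjoint (Cl G Z T x) (Ph G Z T hm x) :=
    disjoint_of_subset_right (filter_subset _ _) (Cl_BB_disjoint hx)
  have hdis := PFrame.MM_Cl_disj (G := G) (Z := Z) (T := T) (hm := hm) hx hy hxy
  -- a vertex with many partners is not in the class
  have hPh : ∀ w ∈ K, (Ph G Z T hm x).card < dg N (MM G Z T hm x) w →
      w ∈ Ph G Z T hm x := by
    intro w hw hlt
    by_contra hcon
    have h2 : dg N (MM G Z T hm x) w ≤ (Ph G Z T hm x).card := by
      unfold dg
      refine card_le_card fun v hv => ?_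
      obtain ⟨a1, a2⟩ := mem_filter.1 hv
      rcases h.cov_Ph hx hN w (hK hw) v a1 a2 with h3 | h3
      · exact absurd h3 hcon
      · exact h3
    omega
  -- partners in the class
  have hdeg : ∀ w ∈ K, (Ph G Z T hm x).card < dg N (MM G Z T hm x) w →
      dg N (MM G Z T hm x) w ≤ ((Cl G Z T y).filter (fun c' => ¬ G.Adj w c')).card
        + dg N (Ph G Z T hm x) w := by
    intro w hw hlt
    have h1 := hPh w hw hlt
    have h3 : dg N (Cl G Z T x) w ≤ nd G (Cl G Z T x) w := by
      unfold dg nd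
      refine card_le_card fun v hv => ?_
      obtain ⟨a1, a2⟩ := mem_filter.1 hv
      have a3 := hN a2
      exact mem_filter.2 ⟨a1, a3.1.symm, a3.2⟩
    have h4 := hrule w hw h1 hlt
    have h5 : w ∉ Cl G Z T y := fun h' => disjoint_left.1 hdis (hK hw) h'
    rw [nd_eq_filter h5]
    have h6 : dg N (MM G Z T hm x) w = dg N (Cl G Z T x) w + dg N (Ph G Z T hm x) w := by
      unfold dg MM
      rw [filter_union, card_union_of_disjoint (disjoint_filter_filter hd)]
    omega
  constructor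
  · intro c hc w hw
    obtain ⟨a1, a2, a3⟩ := mem_Wc.1 hw
    have h1 := hdeg w a1 a2
    have h2 : dg N (Ph G Z T hm x) w
        + (Wc G N (MM G Z T hm x) (Ph G Z T hm x).card K c).card ≤ (Ph G Z T hm x).card := by
      unfold dg
      rw [← card_union_of_disjoint]
      · refine card_le_card fun v hv => ?_
        rcases mem_union.1 hv with h3 | h3
        · exact (mem_filter.1 h3).1
        · obtain ⟨b1, b2, b3⟩ := mem_Wc.1 h3
          exact hPh v b1 b2
      · rw [disjoint_left]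
        intro v hv1 hv2
        obtain ⟨b1, b2⟩ := mem_filter.1 hv1
        obtain ⟨c1, c2, c3⟩ := mem_Wc.1 hv2
        rcases hs w (hK a1) v (hK c1) b2 c hc with h3 | h3
        · exact a3 h3
        · exact c3 h3
    omega
  · intro w hw hlt
    have h1 := hdeg w hw hlt
    have h2 : dg N (Ph G Z T hm x) w ≤ (Ph G Z T hm x).card := card_filter_le _ _
    omega

/-- **LEMMA N in the frame**: home `x`, far row `y`, a graph `N` of missing pairs of the slot `MM x`
served at `y`, minimum cover `K`; rule: the vertices of `K` with more than `|Ph x|` partners miss at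
least as many points of `Cl y` as of `Cl x` -/
theorem PFrame.lemN (h : PFrame G r m t Z T) {x y : V} (hx : x ∈ T) (hy : y ∈ T)
    (hxy : x ≠ y) (hN : N ≤ co G)
    (hs : SrvBy G N (MM G Z T hm x) (Cl G Z T y)) (hK : K ⊆ MM G Z T hm x)
    (hc : CovN N (MM G Z T hm x) K)
    (hmin : ∀ K' : Finset V, K' ⊆ MM G Z T hm x → CovN N (MM G Z T hm x) K' →
      K.card ≤ K'.card)
    (hrule : ∀ w ∈ K, w ∈ Ph G Z T hm x → (Ph G Z T hm x).card < dg N (MM G Z T hm x) w →
      nd G (Cl G Z T x) w ≤ nd G (Cl G Z T y) w) :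
    K.card ≤ (Ph G Z T hm x).card ∧
    (E N (MM G Z T hm x) : ℤ) + E N K
      + 2 * K.card * (((Cl G Z T y).card : ℤ) - (Ph G Z T hm x).card)
      + 2 * ∑ v ∈ K, (((Ph G Z T hm x).card - dg N (MM G Z T hm x) v : ℕ) : ℤ)
      ≤ 2 * ∑ c ∈ Cl G Z T y, (dg G (MM G Z T hm x) c : ℤ) := by
  have h1 : K.card ≤ (Ph G Z T hm x).card :=
    hmin _ subset_union_right (h.cov_Ph hx hN)
  obtain ⟨h2, h3⟩ := h.lemN_aux hx hy hxy hN hs hK hrule
  have h4 := hs.lemN hK hc hmin (h := (Ph G Z T hm x).card) (by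
    intro c hc' w hw
    have e1 := h2 c hc' w hw
    obtain ⟨a1, a2, a3⟩ := mem_Wc.1 hw
    omega) h3
  have h5 : (0 : ℤ) ≤ 2 * (((Ph G Z T hm x).card : ℤ) - K.card)
      * ((Cl G Z T y).filter (fun c =>
        (Wc G N (MM G Z T hm x) (Ph G Z T hm x).card K c).Nonempty)).card := by
    have e1 : (K.card : ℤ) ≤ (Ph G Z T hm x).card := by exact_mod_cast h1
    have e2 : (0 : ℤ) ≤ ((Ph G Z T hm x).card : ℤ) - K.card := by linarith
    positivity
  exact ⟨h1, by linarith⟩

end LemNFrame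

end Pool.Agent.Lib.MP_f04ccf_co
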