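import Pool.Agent.Lib.MP_f04ccf_co.M.LemFN

/-!
MP_f04ccf_co: over-coverage at the N-types of a split cover (note 15951 (II)).  `X`, `Y` a split cover of
one host, `c` a transversal with cost sets `K z`.  `MX z` are the members of `X` with tail `z`, with
a missing class point, which `c z` misses, `UX z` the class points they miss (all seen by `c z`).
`sp_high`: with the costs `K z ∪ UX z` at the rows of `Z` the transversal pays
`spn + Σ_Z (|UX z \ Y z| - d z)`, where `d z` is the number of low points of `MX z` (with fewer than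
`spn` missing partners in `H`), or a common bound of their deficits `spn - dg F H v`.
`sp_high'`: the same as a cost: the server `z` costs `|UN ∩ Y z| + d z`.  `lemFR_raw`: LEMMA FN where the
missing points in `Y` are paid by the members outside `X` (Hall), so only `κ' v`, the number of missing
points outside `Y (tl v)`, counts.  `high_zero`, `high_one`, `high_two`: the values of `φ`.
-/

set_option autoImplicit false

namespace Pool.Agent.Lib.MP_f04ccf_co

open Finset

attribute [local instance] Classical.propDecidable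

section Abs

variable {ι V : Type*}

/-- the members of `X` with tail `z` and a missing class point which are missed by `c` -/
noncomputable def MX (G F : SimpleGraph V) (tl : V → ι) (H P X : Finset V) (z : ι) (c : V) :
    Finset V :=
  (MN G F tl H P z c).filter (fun v => v ∈ X)

/-- the class points missed by a member of `MX` -/
noncomputable def UX (G F : SimpleGraph V) (tl : V → ι) (H P X : Finset V) (z : ι) (c : V) :
    Finset V :=
  P.filter (fun a => ∃ v ∈ MX G F tl H P X z c, F.Adj v a)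

variable {G F : SimpleGraph V} {tl : V → ι} {H P X : Finset V} {Y : ι → Finset V} {B Z : Finset ι}

lemma mem_MX {z : ι} {c v : V} :
    v ∈ MX G F tl H P X z c ↔ v ∈ MN G F tl H P z c ∧ v ∈ X := mem_filter

lemma mem_UX {z : ι} {c a : V} :
    a ∈ UX G F tl H P X z c ↔ a ∈ P ∧ ∃ v ∈ MX G F tl H P X z c, F.Adj v a := mem_filter

lemma UX_sub {z : ι} {c : V} : UX G F tl H P X z c ⊆ UN G F tl H P z c := fun a ha => by
  obtain ⟨h1, v, hv, hva⟩ := mem_UX.1 ha
  exact mem_UN.2 ⟨h1, v, (mem_MX.1 hv).1, hva⟩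

/-- **over-coverage of one transversal** -/
theorem sp_high {c : ι → V} {K : ι → Finset V} {L : Finset V} {d : ι → ℕ} (hHP : Disjoint H P)
    (htl : ∀ v ∈ H, ∀ a ∈ P, F.Adj v a → tl v ∈ B) (hc : SpCov F tl H P X Y) (hZ : Z ⊆ B)
    (hK : ∀ z ∈ B, ∀ v ∈ MN G F tl H P z (c z), ∀ a ∈ P, F.Adj v a → v ∈ K z ∨ a ∈ K z)
    (hL : ∀ p ∈ H, ∀ q ∈ H, F.Adj p q → (∃ z ∈ B, G.Adj (c z) p ∨ G.Adj (c z) q) ∨ p ∈ L ∨ q ∈ L)
    (hd : ∀ z ∈ Z, (∃ D : Finset V, D.card ≤ d z ∧ ∀ v ∈ MX G F tl H P X z (c z), v ∉ D →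
        spn F tl H P B ≤ dg F H v) ∨
      ∀ v ∈ MX G F tl H P X z (c z), spn F tl H P B ≤ dg F H v + d z) :
    spn F tl H P B + ∑ z ∈ Z, (UX G F tl H P X z (c z) \ Y z).card
      ≤ ∑ z ∈ B, (dg G H (c z) + (K z ∪ if z ∈ Z then UX G F tl H P X z (c z) else ∅).card)
        + L.card + ∑ z ∈ Z, d z := by
  obtain ⟨U, hU⟩ : ∃ U : ι → Finset V, U = fun z => UX G F tl H P X z (c z) := ⟨_, rfl⟩
  have hUz : ∀ z, UX G F tl H P X z (c z) = U z := fun z => by rw [hU]
  have hUP : ∀ z, U z ⊆ P := fun z a ha => by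
    rw [hU] at ha
    exact (mem_UX.1 ha).1
  simp only [hUz]
  -- the true cover
  obtain ⟨T, hT⟩ : ∃ T : Finset V, T = B.biUnion (fun z => H.filter (fun v => G.Adj (c z) v)
    ∪ (K z ∩ H)) ∪ L := ⟨_, rfl⟩
  have seen : ∀ z ∈ B, ∀ v ∈ H, G.Adj (c z) v → v ∈ T := fun z hz v hv hcv => by
    rw [hT]
    exact mem_union_left _ (mem_biUnion.2 ⟨z, hz, mem_union_left _ (mem_filter.2 ⟨hv, hcv⟩)⟩)
  have inK : ∀ z ∈ B, ∀ v ∈ K z, v ∈ H → v ∈ T := fun z hz v hv hvH => by
    rw [hT]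
    exact mem_union_left _ (mem_biUnion.2 ⟨z, hz, mem_union_right _ (mem_inter.2 ⟨hv, hvH⟩)⟩)
  have inL : L ⊆ T := fun v hv => by
    rw [hT]
    exact mem_union_right _ hv
  have hTc : T.card ≤ ∑ z ∈ B, (dg G H (c z) + (K z ∩ H).card) + L.card := by
    rw [hT]
    refine (card_union_le _ _).trans (Nat.add_le_add_right ?_ _)
    refine card_biUnion_le.trans (sum_le_sum fun z _ => ?_)
    exact card_union_le _ _
  -- splitting of the costs
  have hcost : ∀ z, (K z ∩ H).card + ((K z ∩ P) ∪ if z ∈ Z then U z else ∅).card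
      ≤ (K z ∪ if z ∈ Z then U z else ∅).card := by
    intro z
    rw [← card_union_of_disjoint]
    · refine card_le_card (union_subset (inter_subset_left.trans subset_union_left)
        (union_subset_union_left inter_subset_left))
    · rw [disjoint_left]
      intro a ha ha'
      have h1 := (mem_inter.1 ha).2
      rcases mem_union.1 ha' with h2 | h2
      · exact disjoint_left.1 hHP h1 (mem_inter.1 h2).2
      · by_cases hz : z ∈ Z
        · rw [if_pos hz] at h2
          exact disjoint_left.1 hHP h1 (hUP z h2)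
        · rw [if_neg hz] at h2
          simp at h2
  have hsum : T.card + ∑ z ∈ B, ((K z ∩ P) ∪ if z ∈ Z then U z else ∅).card
      ≤ ∑ z ∈ B, (dg G H (c z) + (K z ∪ if z ∈ Z then U z else ∅).card) + L.card := by
    have h1 : ∑ z ∈ B, (dg G H (c z) + (K z ∩ H).card)
        + ∑ z ∈ B, ((K z ∩ P) ∪ if z ∈ Z then U z else ∅).card
        ≤ ∑ z ∈ B, (dg G H (c z) + (K z ∪ if z ∈ Z then U z else ∅).card) := by
      rw [← sum_add_distrib]
      refine sum_le_sum fun z _ => ?_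
      have := hcost z
      omega
    omega
  -- a high point outside the true cover
  have high : ∀ z ∈ Z, ∀ v ∈ MX G F tl H P X z (c z), v ∉ T → ∀ e : ℕ,
      spn F tl H P B ≤ dg F H v + e →
      spn F tl H P B + ∑ z ∈ Z, (U z \ Y z).card
        ≤ ∑ z ∈ B, (dg G H (c z) + (K z ∪ if z ∈ Z then U z else ∅).card) + L.card + e := by
    intro z _ v hv hvT e he
    obtain ⟨hv1, hv2, hv3, -⟩ := mem_MN.1 (mem_MX.1 hv).1
    have h1 : dg F H v ≤ T.card := by
      unfold dg
      refine card_le_card fun q hq => ?_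
      obtain ⟨hq1, hq2⟩ := mem_filter.1 hq
      rcases hL v hv1 q hq1 hq2 with ⟨y, hy, h2 | h2⟩ | h2 | h2
      · exact absurd (seen y hy v hv1 h2) hvT
      · exact seen y hy q hq1 h2
      · exact absurd (inL h2) hvT
      · exact inL h2
    have h2 : ∑ z ∈ Z, (U z \ Y z).card
        ≤ ∑ z ∈ B, ((K z ∩ P) ∪ if z ∈ Z then U z else ∅).card := by
      refine le_trans ?_ (sum_le_sum_of_subset hZ)
      refine sum_le_sum fun y hy => card_le_card ?_
      rw [if_pos hy]
      exact sdiff_subset.trans subset_union_right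
    omega
  by_cases hex : ∃ z ∈ Z, ∃ v ∈ MX G F tl H P X z (c z), v ∉ T ∧
      spn F tl H P B ≤ dg F H v + ∑ z ∈ Z, d z
  · obtain ⟨z, hz, v, hv, hvT, he⟩ := hex
    exact high z hz v hv hvT _ he
  · push Not at hex
    -- all members of `MX` outside `T` are low
    obtain ⟨N, hN⟩ : ∃ N : Finset V, N = Z.biUnion (fun z => (MX G F tl H P X z (c z)) \ T) :=
      ⟨_, rfl⟩
    have hNc : N.card ≤ ∑ z ∈ Z, d z := by
      rw [hN]
      refine card_biUnion_le.trans (sum_le_sum fun z hz => ?_)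
      rcases hd z hz with ⟨D, hD, hD'⟩ | h1
      · refine (card_le_card fun v hv => ?_).trans hD
        obtain ⟨h2, h3⟩ := mem_sdiff.1 hv
        by_contra h4
        have h5 := hex z hz v h2 h3
        have h6 := hD' v h2 h4
        omega
      · rcases ((MX G F tl H P X z (c z)) \ T).eq_empty_or_nonempty with h2 | ⟨v, hv⟩
        · rw [h2]
          simp
        · exfalso
          obtain ⟨h2, h3⟩ := mem_sdiff.1 hv
          have h5 := hex z hz v h2 h3
          have h6 := h1 v h2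
          have h7 : d z ≤ ∑ z ∈ Z, d z := single_le_sum (fun _ _ => Nat.zero_le _) hz
          omega
    have hcov : SpCov F tl H P (T ∪ N)
        (fun z => if z ∈ Z then (K z ∩ P) \ (U z \ Y z) else K z ∩ P) := by
      refine ⟨fun p hp q hq hpq => ?_, fun v hv a ha hva => ?_⟩
      · rcases hL p hp q hq hpq with ⟨y, hy, h1 | h1⟩ | h1 | h1
        · exact Or.inl (mem_union_left _ (seen y hy p hp h1))
        · exact Or.inr (mem_union_left _ (seen y hy q hq h1))
        · exact Or.inl (mem_union_left _ (inL h1))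
        · exact Or.inr (mem_union_left _ (inL h1))
      · have hz := htl v hv a ha hva
        by_cases hvT : v ∈ T
        · exact Or.inl (mem_union_left _ hvT)
        have h1 : ¬ G.Adj (c (tl v)) v := fun h => hvT (seen _ hz v hv h)
        have hvM : v ∈ MN G F tl H P (tl v) (c (tl v)) := mem_MN.2 ⟨hv, rfl, h1, a, ha, hva⟩
        have haK : a ∈ K (tl v) :=
          (hK _ hz v hvM a ha hva).resolve_left fun h => hvT (inK _ hz v h hv)
        by_cases hzZ : tl v ∈ Z
        · by_cases haU : a ∈ U (tl v) \ Y (tl v)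
          · have h2 : v ∈ X := (hc.2 v hv a ha hva).resolve_right (mem_sdiff.1 haU).2
            refine Or.inl (mem_union_right _ ?_)
            rw [hN]
            exact mem_biUnion.2 ⟨tl v, hzZ, mem_sdiff.2 ⟨mem_MX.2 ⟨hvM, h2⟩, hvT⟩⟩
          · right
            show a ∈ (if tl v ∈ Z then (K (tl v) ∩ P) \ (U (tl v) \ Y (tl v))
              else K (tl v) ∩ P)
            rw [if_pos hzZ]
            exact mem_sdiff.2 ⟨mem_inter.2 ⟨haK, ha⟩, haU⟩
        · right
          show a ∈ (if tl v ∈ Z then (K (tl v) ∩ P) \ (U (tl v) \ Y (tl v))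
            else K (tl v) ∩ P)
          rw [if_neg hzZ]
          exact mem_inter.2 ⟨haK, ha⟩
    have h1 := spn_le (B := B) hcov
    have h2 := card_union_le T N
    have h3 : ∑ z ∈ B, (if z ∈ Z then (K z ∩ P) \ (U z \ Y z) else K z ∩ P).card
        + ∑ z ∈ Z, (U z \ Y z).card
        ≤ ∑ z ∈ B, ((K z ∩ P) ∪ if z ∈ Z then U z else ∅).card := by
      have h4 : ∑ z ∈ Z, (U z \ Y z).card
          = ∑ z ∈ B, (if z ∈ Z then (U z \ Y z).card else 0) := by
        rw [← sum_filter]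
        refine sum_congr ?_ fun _ _ => rfl
        ext z
        rw [mem_filter]
        exact ⟨fun h => ⟨hZ h, h⟩, fun h => h.2⟩
      rw [h4, ← sum_add_distrib]
      refine sum_le_sum fun z _ => ?_
      by_cases hz : z ∈ Z
      · simp only [if_pos hz]
        rw [← card_union_of_disjoint sdiff_disjoint]
        refine card_le_card (union_subset (sdiff_subset.trans subset_union_left)
          (sdiff_subset.trans subset_union_right))
      · simp only [if_neg hz]
        rw [union_empty, add_zero]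
    omega

/-- **cost form**: at a row of `Z` the server `z` costs only the points of `Y z` missed by members with
tail `z` which `c z` misses, plus `d z` -/
theorem sp_high' {c : ι → V} {K : ι → Finset V} {L : Finset V} {d : ι → ℕ} (hHP : Disjoint H P)
    (htl : ∀ v ∈ H, ∀ a ∈ P, F.Adj v a → tl v ∈ B) (hc : SpCov F tl H P X Y) (hZ : Z ⊆ B)
    (hK : ∀ z ∈ B, z ∉ Z → ∀ v ∈ MN G F tl H P z (c z), ∀ a ∈ P, F.Adj v a → v ∈ K z ∨ a ∈ K z)
    (hL : ∀ p ∈ H, ∀ q ∈ H, F.Adj p q → (∃ z ∈ B, G.Adj (c z) p ∨ G.Adj (c z) q) ∨ p ∈ L ∨ q ∈ L)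
    (hd : ∀ z ∈ Z, (∃ D : Finset V, D.card ≤ d z ∧ ∀ v ∈ MX G F tl H P X z (c z), v ∉ D →
        spn F tl H P B ≤ dg F H v) ∨
      ∀ v ∈ MX G F tl H P X z (c z), spn F tl H P B ≤ dg F H v + d z) :
    spn F tl H P B ≤ ∑ z ∈ B, dg G H (c z)
      + ∑ z ∈ B, (if z ∈ Z then (UN G F tl H P z (c z) ∩ Y z).card + d z else (K z).card)
      + L.card := by
  have h1 := sp_high (G := G) (c := c) (K := fun z => if z ∈ Z then UN G F tl H P z (c z) else K z)
    (L := L) (d := d) hHP htl hc hZ (fun z hz v hv a ha hva => by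
      by_cases hzZ : z ∈ Z
      · rw [if_pos hzZ]
        exact Or.inr (mem_UN.2 ⟨ha, v, hv, hva⟩)
      · rw [if_neg hzZ]
        exact hK z hz hzZ v hv a ha hva) hL hd
  have h2 : ∀ z ∈ B, ((if z ∈ Z then UN G F tl H P z (c z) else K z) ∪
        if z ∈ Z then UX G F tl H P X z (c z) else ∅).card + (if z ∈ Z then d z else 0)
      ≤ (if z ∈ Z then (UX G F tl H P X z (c z) \ Y z).card else 0)
        + (if z ∈ Z then (UN G F tl H P z (c z) ∩ Y z).card + d z else (K z).card) := by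
    intro z _
    by_cases hzZ : z ∈ Z
    · simp only [if_pos hzZ]
      rw [union_eq_left.2 UX_sub]
      have h3 : (UN G F tl H P z (c z)).card ≤ (UX G F tl H P X z (c z) \ Y z).card
          + (UN G F tl H P z (c z) ∩ Y z).card := by
        refine (card_le_card ?_).trans (card_union_le _ _)
        intro a ha
        by_cases haY : a ∈ Y z
        · exact mem_union_right _ (mem_inter.2 ⟨ha, haY⟩)
        · obtain ⟨h4, v, hv, hva⟩ := mem_UN.1 ha
          obtain ⟨v1, v2, -, -⟩ := mem_MN.1 hv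
          refine mem_union_left _ (mem_sdiff.2 ⟨mem_UX.2 ⟨h4, v, mem_MX.2 ⟨hv, ?_⟩, hva⟩, haY⟩)
          exact (hc.2 v v1 a h4 hva).resolve_right (v2 ▸ haY)
      omega
    · simp only [if_neg hzZ]
      simp
  have h3 := sum_le_sum h2
  rw [sum_add_distrib, sum_add_distrib] at h3
  have h4 : ∑ z ∈ B, (if z ∈ Z then d z else 0) = ∑ z ∈ Z, d z := by
    rw [← sum_filter]
    refine sum_congr ?_ fun _ _ => rfl
    ext z
    rw [mem_filter]
    exact ⟨fun h => h.2, fun h => ⟨hZ h, h⟩⟩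
  have h5 : ∑ z ∈ B, (if z ∈ Z then (UX G F tl H P X z (c z) \ Y z).card else 0)
      = ∑ z ∈ Z, (UX G F tl H P X z (c z) \ Y z).card := by
    rw [← sum_filter]
    refine sum_congr ?_ fun _ _ => rfl
    ext z
    rw [mem_filter]
    exact ⟨fun h => h.2, fun h => ⟨hZ h, h⟩⟩
  rw [h4, h5] at h3
  rw [sum_add_distrib] at h1
  omega

/-- the pairs inside `H`, exact: the members outside `X` which a point of `X` sees count twice -/
lemma cov_E_ex (hXH : X ⊆ H) (hc : ∀ p ∈ H, ∀ q ∈ H, F.Adj p q → p ∈ X ∨ q ∈ X) :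
    (E F H : ℤ) + X.card * (X.card + 1) = 2 * ((X.card : ℤ) * H.card)
      - ∑ v ∈ X, (2 * (((H \ X).card : ℤ) - dg F (H \ X) v) + ((X.card : ℤ) - 1 - dg F X v)) := by
  have h1 := E_sdiff F hXH
  have h2 : E F (H \ X) = 0 := by
    unfold E
    refine sum_eq_zero fun v hv => ?_
    obtain ⟨v1, v2⟩ := mem_sdiff.1 hv
    unfold dg
    rw [card_eq_zero, filter_eq_empty_iff]
    intro u hu huv
    obtain ⟨u1, u2⟩ := mem_sdiff.1 hu
    rcases hc v v1 u u1 huv with h | h
    · exact v2 h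
    · exact u2 h
  have h3 : ∑ v ∈ X, dg F H v = ∑ v ∈ X, dg F (H \ X) v + E F X := by
    unfold E
    rw [← sum_add_distrib]
    exact sum_congr rfl fun v _ => dg_sdiff F hXH v
  have h5 := card_sdiff_add_card_eq_card hXH
  have h6 : ∑ v ∈ X, (2 * (((H \ X).card : ℤ) - dg F (H \ X) v) + ((X.card : ℤ) - 1 - dg F X v))
      = 2 * ((X.card : ℤ) * (H \ X).card) - 2 * ∑ v ∈ X, (dg F (H \ X) v : ℤ)
        + X.card * ((X.card : ℤ) - 1) - E F X := by
    rw [sum_add_distrib, ← mul_sum, sum_sub_distrib, sum_sub_distrib, sum_const, sum_const,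
      nsmul_eq_mul, nsmul_eq_mul]
    have : ∑ v ∈ X, (dg F X v : ℤ) = E F X := by
      unfold E
      push_cast
      rfl
    rw [this]
    ring
  rw [h6]
  have h1' : (E F H : ℤ) + E F X = E F (H \ X) + 2 * ∑ v ∈ X, (dg F H v : ℤ) := by
    exact_mod_cast h1
  have h3' : ∑ v ∈ X, (dg F H v : ℤ) = ∑ v ∈ X, (dg F (H \ X) v : ℤ) + E F X := by
    exact_mod_cast h3
  have h5' : ((H \ X).card : ℤ) = H.card - X.card := by
    have : ((H \ X).card : ℤ) + X.card = H.card := by exact_mod_cast h5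
    linarith
  have h2' : (E F (H \ X) : ℤ) = 0 := by exact_mod_cast h2
  rw [h5']
  rw [h2', h3'] at h1'
  linear_combination h1'

/-- a point of `X` sees at least as many members outside `X` as it misses points of `Y` -/
lemma hall_nn (hXH : X ⊆ H) (hYP : ∀ z, Y z ⊆ P) (hc : SpCov F tl H P X Y)
    (hmin : X.card + ∑ z ∈ B, (Y z).card = spn F tl H P B)
    (hcl2 : ∀ v ∈ H, ∀ w ∈ H, tl v = tl w → ∀ a ∈ P, F.Adj v a → F.Adj w a → ¬ F.Adj v w)
    {v : V} (hv : v ∈ X) (hz : tl v ∈ B) :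
    dg F (Y (tl v)) v + dg F (H \ X) v ≤ (H \ X).card := by
  obtain ⟨f, hf, hi⟩ := sp_hall hc hmin hz
  have h1 : ((Y (tl v)).filter (fun a => F.Adj v a)).card
      = (((Y (tl v)).filter (fun a => F.Adj v a)).image f).card := by
    rw [card_image_of_injOn]
    intro a ha b hb hab
    exact hi (mem_filter.1 (mem_coe.1 ha)).1 (mem_filter.1 (mem_coe.1 hb)).1 hab
  unfold dg
  rw [h1, ← card_union_of_disjoint]
  · refine card_le_card (union_subset ?_ (filter_subset _ _))
    intro w hw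
    obtain ⟨a, ha, rfl⟩ := mem_image.1 hw
    obtain ⟨h2, h3, -, -⟩ := mem_WN.1 (hf a (mem_filter.1 ha).1).1
    exact mem_sdiff.2 ⟨h2, h3⟩
  · rw [disjoint_left]
    intro w hw hw'
    obtain ⟨a, ha, rfl⟩ := mem_image.1 hw
    obtain ⟨a1, a2⟩ := mem_filter.1 ha
    obtain ⟨h4, h5⟩ := hf a a1
    obtain ⟨h2, -, h3, -⟩ := mem_WN.1 h4
    exact hcl2 v (hXH hv) (f a) h2 h3.symm a (hYP _ a1) a2 h5 (mem_filter.1 hw').2

/-- the average over the columns which miss a point -/
lemma share_avg {N : Finset V} {M : ι → V → Finset V} {C : ι → Finset V} {o : ι → V → ℚ}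
    {q φ : V → ℚ} (htN : ∀ v ∈ N, tl v ∈ B)
    (hM : ∀ v ∈ N, ∀ z c, (v ∈ M z c ↔ tl v = z ∧ ¬ G.Adj c v))
    (hNM : ∀ z c, N.filter (fun v => v ∈ M z c) = M z c)
    (ho : ∀ z ∈ B, ∀ c ∈ C z, 0 ≤ o z c)
    (h0 : ∀ v ∈ N, mis G (C (tl v)) v = 0 → q v ≤ φ v)
    (h1 : ∀ v ∈ N, ∀ c ∈ C (tl v), ¬ G.Adj c v →
      (q v - φ v) * (M (tl v) c).card ≤ 2 * mis G (C (tl v)) v * o (tl v) c) :
    ∑ v ∈ N, q v ≤ ∑ v ∈ N, φ v + 2 * ∑ z ∈ B, ∑ c ∈ C z, o z c := by
  have key : ∀ v ∈ N, q v ≤ φ v + 2 * ∑ z ∈ B, ∑ c ∈ C z, (if v ∈ M z c then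
          o z c / (M z c).card else 0) := by
    intro v hv
    have hvz := htN v hv
    have e1 : ∑ z ∈ B, ∑ c ∈ C z, (if v ∈ M z c then o z c / (M z c).card else 0)
        = ∑ c ∈ (C (tl v)).filter (fun c => ¬ G.Adj c v), o (tl v) c / (M (tl v) c).card := by
      rw [sum_eq_single_of_mem _ hvz]
      · rw [sum_filter]
        refine sum_congr rfl fun c _ => ?_
        have h2 := hM v hv (tl v) c
        by_cases h3 : G.Adj c v
        · rw [if_neg (fun h => (h2.1 h).2 h3), if_neg (fun h => h h3)]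
        · rw [if_pos (h2.2 ⟨rfl, h3⟩), if_pos h3]
      · intro z _ hzv
        refine sum_eq_zero fun c _ => ?_
        rw [if_neg]
        intro h
        exact hzv ((hM v hv z c).1 h).1.symm
    rw [e1]
    obtain ⟨A, hA⟩ : ∃ A : Finset V, A = (C (tl v)).filter (fun c => ¬ G.Adj c v) := ⟨_, rfl⟩
    have hAm : mis G (C (tl v)) v = A.card := by rw [hA]; rfl
    rw [← hA]
    rcases A.eq_empty_or_nonempty with h2 | h2
    · rw [h2, sum_empty, mul_zero, add_zero]
      exact h0 v hv (by rw [hAm, h2, card_empty])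
    · have hA0 : (0 : ℚ) < A.card := by exact_mod_cast h2.card_pos
      have h3 : ∀ c ∈ A, (q v - φ v) / A.card ≤ 2 * (o (tl v) c / (M (tl v) c).card) := by
        intro c hc
        rw [hA] at hc
        obtain ⟨hcC, hcv⟩ := mem_filter.1 hc
        have hvM : v ∈ M (tl v) c := (hM v hv (tl v) c).2 ⟨rfl, hcv⟩
        have h4 := h1 v hv c hcC hcv
        rw [hAm] at h4
        have h5 : (0 : ℚ) < (M (tl v) c).card := by exact_mod_cast card_pos.2 ⟨v, hvM⟩
        rw [← mul_div_assoc, div_le_div_iff₀ hA0 h5]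
        linarith
      have h4 := sum_le_sum h3
      rw [sum_const, nsmul_eq_mul, mul_div_cancel₀ _ hA0.ne', ← mul_sum] at h4
      linarith
  have h2 := sum_le_sum key
  rw [sum_add_distrib, ← mul_sum] at h2
  have h3 : ∑ v ∈ N, ∑ z ∈ B, ∑ c ∈ C z, (if v ∈ M z c then o z c / (M z c).card else 0)
      ≤ ∑ z ∈ B, ∑ c ∈ C z, o z c := by
    rw [sum_comm]
    refine sum_le_sum fun z hz => ?_
    rw [sum_comm]
    refine sum_le_sum fun c hc => ?_
    rw [← sum_filter, sum_const, nsmul_eq_mul, hNM z c]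
    have h4 := ho z hz c hc
    rcases Nat.eq_zero_or_pos (M z c).card with h5 | h5
    · rw [h5]
      simpa using h4
    · have h6 : ((M z c).card : ℚ) ≠ 0 := by exact_mod_cast h5.ne'
      rw [mul_div_cancel₀ _ h6]
  linarith

/-- **LEMMA FN with the points of `Y` removed**: `κ' v = dg F (P \ Y (tl v)) v`, `j` the number of
members of `X` with tail `z` and a missing class point which `c` misses -/
theorem lemFR_raw {C : ι → Finset V} {o : ι → V → ℚ} {φ : V → ℚ} (hHP : Disjoint H P)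
    (hP : ∀ a ∈ P, ∀ b ∈ P, ¬ F.Adj a b) (hXH : X ⊆ H) (hYP : ∀ z, Y z ⊆ P)
    (hc : SpCov F tl H P X Y)
    (hmin : X.card + ∑ z ∈ B, (Y z).card = spn F tl H P B)
    (htl : ∀ v ∈ H, ∀ a ∈ P, F.Adj v a → tl v ∈ B)
    (hcl : ∀ z ∈ B, ∀ c ∈ C z, ∀ v ∈ MN G F tl H P z c, ∀ w ∈ MN G F tl H P z c, ¬ F.Adj v w)
    (hcl2 : ∀ v ∈ H, ∀ w ∈ H, tl v = tl w → ∀ a ∈ P, F.Adj v a → F.Adj w a → ¬ F.Adj v w)
    (ho : ∀ z ∈ B, ∀ c ∈ C z, 0 ≤ o z c)
    (hφ : ∀ v ∈ NX F P X, mis G (C (tl v)) v = 0 → 2 * (dg F (P \ Y (tl v)) v : ℚ) ≤ φ v)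
    (hφo : ∀ v ∈ NX F P X, ∀ c ∈ C (tl v), ¬ G.Adj c v →
      (2 * (dg F (P \ Y (tl v)) v : ℚ) + 1 - (MX G F tl H P X (tl v) c).card - φ v)
        * (MX G F tl H P X (tl v) c).card ≤ 2 * mis G (C (tl v)) v * o (tl v) c) :
    (E F (H ∪ P) : ℚ) + X.card * (X.card + 1) ≤ 2 * ((X.card : ℚ) * H.card)
      + 2 * ∑ z ∈ B, ((WN F tl H P X z).card : ℚ) * (Y z).card + ∑ v ∈ NX F P X, φ v
      + 2 * ∑ z ∈ B, ∑ c ∈ C z, o z c := by
  have hNH : ∀ v ∈ NX F P X, v ∈ H ∧ ∃ a ∈ P, F.Adj v a := fun v hv =>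
    ⟨hXH (mem_NX.1 hv).1, (mem_NX.1 hv).2⟩
  have htN : ∀ v ∈ NX F P X, tl v ∈ B := by
    intro v hv
    obtain ⟨h1, a, h2, h3⟩ := hNH v hv
    exact htl v h1 a h2 h3
  have hX1 : ∀ v ∈ X, dg F X v + 1 ≤ X.card := by
    intro v hv
    unfold dg
    have h8 : insert v (X.filter (fun w => F.Adj v w)) ⊆ X := insert_subset hv (filter_subset _ _)
    have h9 := card_le_card h8
    rw [card_insert_of_notMem (by simp)] at h9
    exact h9
  have hH1 : ∀ v, dg F (H \ X) v ≤ (H \ X).card := fun v => card_filter_le _ _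
  have hκ : ∀ v ∈ NX F P X, dg F P v = dg F (P \ Y (tl v)) v + dg F (Y (tl v)) v :=
    fun v _ => dg_sdiff F (hYP (tl v)) v
  have hMX : ∀ v ∈ NX F P X, ∀ z c, (v ∈ MX G F tl H P X z c ↔ tl v = z ∧ ¬ G.Adj c v) := by
    intro v hv z c
    obtain ⟨h1, h2⟩ := hNH v hv
    rw [mem_MX, mem_MN]
    exact ⟨fun h => ⟨h.1.2.1, h.1.2.2.1⟩, fun h => ⟨⟨h1, h.1, h.2, h2⟩, (mem_NX.1 hv).1⟩⟩
  have hNM : ∀ z c, (NX F P X).filter (fun v => v ∈ MX G F tl H P X z c)
      = MX G F tl H P X z c := by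
    intro z c
    ext v
    rw [mem_filter]
    refine ⟨fun h => h.2, fun h => ⟨mem_NX.2 ⟨(mem_MX.1 h).2, (mem_MN.1 (mem_MX.1 h).1).2.2.2⟩, h⟩⟩
  have hsh := share_avg (G := G) (tl := tl) (B := B) (C := C) (o := o) (φ := φ)
    (q := fun v => 2 * (dg F P v : ℚ) - (2 * (((H \ X).card : ℚ) - dg F (H \ X) v)
      + ((X.card : ℚ) - 1 - dg F X v))) htN hMX hNM ho
    (fun v hv h0 => by
      have h1 := hφ v hv h0
      have h2 := hall_nn hXH hYP hc hmin hcl2 (mem_NX.1 hv).1 (htN v hv)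
      have h2' : (dg F (Y (tl v)) v : ℚ) + dg F (H \ X) v ≤ (H \ X).card := by exact_mod_cast h2
      have h3' : (dg F X v : ℚ) + 1 ≤ X.card := by exact_mod_cast hX1 v (mem_NX.1 hv).1
      have h4' : (dg F P v : ℚ) = dg F (P \ Y (tl v)) v + dg F (Y (tl v)) v := by
        exact_mod_cast hκ v hv
      change 2 * (dg F P v : ℚ) - (2 * (((H \ X).card : ℚ) - dg F (H \ X) v)
        + ((X.card : ℚ) - 1 - dg F X v)) ≤ φ v
      linarith)
    (fun v hv c hcC hcv => by
      have h1 := hφo v hv c hcC hcv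
      have h2 := hall_nn hXH hYP hc hmin hcl2 (mem_NX.1 hv).1 (htN v hv)
      have h2' : (dg F (Y (tl v)) v : ℚ) + dg F (H \ X) v ≤ (H \ X).card := by exact_mod_cast h2
      have h4' : (dg F P v : ℚ) = dg F (P \ Y (tl v)) v + dg F (Y (tl v)) v := by
        exact_mod_cast hκ v hv
      have h3 : dg F X v + (MX G F tl H P X (tl v) c).card ≤ X.card := by
        unfold dg
        rw [← card_union_of_disjoint]
        · refine card_le_card (union_subset (filter_subset _ _) fun w hw => (mem_MX.1 hw).2)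
        · rw [disjoint_left]
          intro w hw hw'
          exact hcl (tl v) (htN v hv) c hcC v (mem_MX.1 ((hMX v hv (tl v) c).2 ⟨rfl, hcv⟩)).1 w
            (mem_MX.1 hw').1 (mem_filter.1 hw).2
      have h3' : (dg F X v : ℚ) + (MX G F tl H P X (tl v) c).card ≤ X.card := by
        exact_mod_cast h3
      change (2 * (dg F P v : ℚ) - (2 * (((H \ X).card : ℚ) - dg F (H \ X) v)
        + ((X.card : ℚ) - 1 - dg F X v)) - φ v) * (MX G F tl H P X (tl v) c).card
        ≤ 2 * mis G (C (tl v)) v * o (tl v) c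
      refine le_trans (mul_le_mul_of_nonneg_right ?_ (Nat.cast_nonneg _)) h1
      linarith)
  have h1 := E_sdiff F (subset_union_right : P ⊆ H ∪ P)
  have h2 : (H ∪ P) \ P = H := by
    rw [union_sdiff_right]
    exact sdiff_eq_self_of_disjoint hHP
  have h3 : E F P = 0 := by
    unfold E
    refine sum_eq_zero fun v hv => ?_
    unfold dg
    rw [card_eq_zero, filter_eq_empty_iff]
    exact fun u hu huv => hP v hv u hu huv
  have h4 : ∑ v ∈ P, dg F (H ∪ P) v = ∑ v ∈ P, dg F H v := by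
    refine sum_congr rfl fun v hv => ?_
    have h5 : dg F P v = 0 := by
      unfold dg
      rw [card_eq_zero, filter_eq_empty_iff]
      exact fun u hu huv => hP v hv u hu huv
    have h6 : dg F (H ∪ P) v = dg F H v + dg F P v := by
      unfold dg
      rw [filter_union, card_union_of_disjoint (disjoint_filter_filter hHP)]
    omega
  have h5 := dg_comm F P H
  have h6 := cov_E_ex hXH hc.1
  have h7 := cov_dg_le hc hXH htl
  rw [h2, h3, h4] at h1
  have h9 : ∑ v ∈ X, dg F P v = ∑ v ∈ NX F P X, dg F P v := by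
    symm
    refine sum_subset (filter_subset _ _) fun v hv hv' => ?_
    unfold dg
    rw [card_eq_zero, filter_eq_empty_iff]
    intro a ha hva
    exact hv' (mem_NX.2 ⟨hv, a, ha, hva⟩)
  have h10 : ∑ v ∈ NX F P X, (2 * (((H \ X).card : ℤ) - dg F (H \ X) v)
        + ((X.card : ℤ) - 1 - dg F X v))
      ≤ ∑ v ∈ X, (2 * (((H \ X).card : ℤ) - dg F (H \ X) v) + ((X.card : ℤ) - 1 - dg F X v)) := by
    refine sum_le_sum_of_subset_of_nonneg (filter_subset _ _) fun v hv _ => ?_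
    have g1 := hX1 v hv
    have g2 := hH1 v
    omega
  have h1' : (E F (H ∪ P) : ℤ) = E F H + 2 * ∑ v ∈ H, (dg F P v : ℤ) := by
    have : E F (H ∪ P) = E F H + 2 * ∑ v ∈ H, dg F P v := by omega
    exact_mod_cast this
  have h7' : ∑ v ∈ H, (dg F P v : ℤ) ≤ ∑ v ∈ NX F P X, (dg F P v : ℤ)
      + ∑ z ∈ B, ((WN F tl H P X z).card : ℤ) * (Y z).card := by
    rw [h9] at h7
    exact_mod_cast h7
  have h11 : (E F (H ∪ P) : ℤ) + X.card * (X.card + 1) ≤ 2 * ((X.card : ℤ) * H.card)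
      + 2 * ∑ z ∈ B, ((WN F tl H P X z).card : ℤ) * (Y z).card
      + ∑ v ∈ NX F P X, (2 * (dg F P v : ℤ) - (2 * (((H \ X).card : ℤ) - dg F (H \ X) v)
        + ((X.card : ℤ) - 1 - dg F X v))) := by
    rw [sum_sub_distrib, ← mul_sum]
    linarith
  have h12 : (E F (H ∪ P) : ℚ) + X.card * (X.card + 1) ≤ 2 * ((X.card : ℚ) * H.card)
      + 2 * ∑ z ∈ B, ((WN F tl H P X z).card : ℚ) * (Y z).card
      + ∑ v ∈ NX F P X, (2 * (dg F P v : ℚ) - (2 * (((H \ X).card : ℚ) - dg F (H \ X) v)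
        + ((X.card : ℚ) - 1 - dg F X v))) := by
    exact_mod_cast h11
  have h13 : ∑ v ∈ NX F P X, (2 * (dg F P v : ℚ) - (2 * (((H \ X).card : ℚ) - dg F (H \ X) v)
        + ((X.card : ℚ) - 1 - dg F X v)))
      ≤ ∑ v ∈ NX F P X, φ v + 2 * ∑ z ∈ B, ∑ c ∈ C z, o z c := hsh
  linarith

end Abs

section Choice

/-- all members high, full weight, `κ ≤ β`: `φ = 0` -/
lemma high_zero {κ j β : ℕ} {o : ℚ} (hj : 1 ≤ j) (hβ : κ ≤ β) (ho : (κ : ℚ) ≤ o) :
    (2 * (κ : ℚ) + 1 - j - 0) * j ≤ 2 * β * o := by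
  have h1 : (2 * (κ : ℤ) + 1 - j) * j ≤ 2 * κ * κ := by
    rcases Nat.lt_or_ge j 2 with h | h
    · have : j = 1 := by omega
      subst this
      push_cast
      nlinarith [mul_nonneg (Int.natCast_nonneg κ) (Int.natCast_nonneg κ), (by
        rcases Nat.eq_zero_or_pos κ with h0 | h0
        · subst h0; simp
        · have : (1 : ℤ) ≤ κ := by exact_mod_cast h0
          nlinarith : (κ : ℤ) ≤ κ * κ)]
    · have h2 : (2 : ℤ) ≤ j := by exact_mod_cast h
      nlinarith [sq_nonneg (2 * (κ : ℤ) - j), mul_nonneg (by linarith : (0 : ℤ) ≤ j - 2)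
        (by linarith : (0 : ℤ) ≤ j)]
  have h1' : (2 * (κ : ℚ) + 1 - j) * j ≤ 2 * κ * κ := by exact_mod_cast h1
  have hκ0 : (0 : ℚ) ≤ κ := by positivity
  have h2 : (κ : ℚ) ≤ β := by exact_mod_cast hβ
  have h3 : (κ : ℚ) * κ ≤ β * o := mul_le_mul h2 ho hκ0 (by positivity)
  linarith

/-- all members high, at least half weight, `κ ≤ β`: `φ = 1` -/
lemma high_one {κ j β : ℕ} {o : ℚ} (hβ : κ ≤ β) (ho : (κ : ℚ) ≤ 2 * o) :
    (2 * (κ : ℚ) + 1 - j - 1) * j ≤ 2 * β * o := by
  have hκ0 : (0 : ℚ) ≤ κ := by positivity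
  have h2 : (κ : ℚ) ≤ β := by exact_mod_cast hβ
  have h3 : (κ : ℚ) * κ ≤ β * (2 * o) := mul_le_mul h2 ho hκ0 (by positivity)
  nlinarith [sq_nonneg ((κ : ℚ) - j)]

/-- all members high, at least half weight, `κ ≤ β + 1`, `1 ≤ β`: `φ = 2` -/
lemma high_two {κ j β : ℕ} {o : ℚ} (hβ : κ ≤ β + 1) (ho : (κ : ℚ) ≤ 2 * o) :
    (2 * (κ : ℚ) + 1 - j - 2) * j ≤ 2 * β * o := by
  have hκ0 : (0 : ℚ) ≤ κ := by positivity
  have h2 : (κ : ℚ) - 1 ≤ β := by
    have : (κ : ℚ) ≤ β + 1 := by exact_mod_cast hβ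
    linarith
  have h3 : ((κ : ℚ) - 1) * κ ≤ β * (2 * o) := by
    rcases Nat.eq_zero_or_pos κ with h0 | h0
    · subst h0
      have : (0 : ℚ) ≤ 2 * o := by simpa using ho
      have h4 : (0 : ℚ) ≤ β * (2 * o) := by positivity
      simpa using h4
    · have h5 : (1 : ℚ) ≤ κ := by exact_mod_cast h0
      exact mul_le_mul h2 ho hκ0 (by positivity)
  have h4 : (0 : ℤ) ≤ ((κ : ℤ) - j) * (κ - j - 1) := by
    rcases le_or_gt (κ : ℤ) j with h | h
    · nlinarith
    · nlinarith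
  have h4' : (0 : ℚ) ≤ ((κ : ℚ) - j) * (κ - j - 1) := by exact_mod_cast h4
  nlinarith

end Choice

end Pool.Agent.Lib.MP_f04ccf_co
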