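import Pool.Agent.Lib.MP_f04ccf_co.M.LemNF
import Pool.Agent.Lib.MP_f04ccf_co.M.LemH

/-!
MP_f04ccf_co: LEMMA N in the transversal form (note 15569 (B)).  One host with home part `H` and class
part `P`, `F` = missing pairs of `H ∪ P`; rows `B` with a transversal `c`.  `MN z c` = members of `H`
with tail `z` and a missing class point which `c` does not see, `UN z c` = the class points they miss.
The members seen by the transversal together with any covers `K z` of the pairs between `MN z (c z)` and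
`P` cover `F`; this uses at most the cells `UN z (c z) × {c z}` between two classes, and a member
with more than `|H|` partners brings `|UN| - |MN|` more than its excess.
-/

set_option autoImplicit false

namespace Pool.Agent.Lib.MP_f04ccf_co

open Finset

attribute [local instance] Classical.propDecidable

section NT

variable {ι V : Type*}

/-- the members of `H` with tail `z` and a missing point in `P` which `c` does not see -/
noncomputable def MN (G F : SimpleGraph V) (tl : V → ι) (H P : Finset V) (z : ι) (c : V) :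
    Finset V :=
  H.filter (fun v => tl v = z ∧ ¬ G.Adj c v ∧ ∃ a ∈ P, F.Adj v a)

/-- the points of `P` missed by a member of `MN` -/
noncomputable def UN (G F : SimpleGraph V) (tl : V → ι) (H P : Finset V) (z : ι) (c : V) :
    Finset V :=
  P.filter (fun a => ∃ v ∈ MN G F tl H P z c, F.Adj v a)

variable {G F : SimpleGraph V} {tl : V → ι} {H P : Finset V}

lemma mem_MN {z : ι} {c v : V} :
    v ∈ MN G F tl H P z c ↔ v ∈ H ∧ tl v = z ∧ ¬ G.Adj c v ∧ ∃ a ∈ P, F.Adj v a := mem_filter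

lemma mem_UN {z : ι} {c a : V} :
    a ∈ UN G F tl H P z c ↔ a ∈ P ∧ ∃ v ∈ MN G F tl H P z c, F.Adj v a := mem_filter

/-- the cells which are used are edges -/
lemma UN_adj {z : ι} {c : V}
    (hs : ∀ v ∈ H, ∀ a ∈ P, F.Adj v a → tl v = z → G.Adj c v ∨ G.Adj c a) {a : V}
    (ha : a ∈ UN G F tl H P z c) : a ∈ P ∧ G.Adj c a := by
  obtain ⟨a1, v, hv, hva⟩ := mem_UN.1 ha
  obtain ⟨v1, v2, v3, _⟩ := mem_MN.1 hv
  exact ⟨a1, (hs v v1 a a1 hva v2).resolve_left v3⟩

lemma card_UN_le {z : ι} {c : V}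
    (hs : ∀ v ∈ H, ∀ a ∈ P, F.Adj v a → tl v = z → G.Adj c v ∨ G.Adj c a) :
    (UN G F tl H P z c).card ≤ dg G P c :=
  card_le_card fun _ ha => mem_filter.2 (UN_adj hs ha)

/-- a member with its partners: the degree is at most `|H| + |UN| - |MN|` -/
lemma MN_deg (hHP : Disjoint H P) {z : ι} {c : V}
    (hcl : ∀ v ∈ MN G F tl H P z c, ∀ w ∈ MN G F tl H P z c, ¬ F.Adj v w) {w : V}
    (hw : w ∈ MN G F tl H P z c) :
    dg F (H ∪ P) w + (MN G F tl H P z c).card ≤ H.card + (UN G F tl H P z c).card := by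
  have h1 : dg F (H ∪ P) w = dg F H w + dg F P w := by
    unfold dg
    rw [filter_union, card_union_of_disjoint (disjoint_filter_filter hHP)]
  have h2 : dg F P w ≤ (UN G F tl H P z c).card := by
    refine card_le_card fun a ha => ?_
    obtain ⟨a1, a2⟩ := mem_filter.1 ha
    exact mem_UN.2 ⟨a1, w, hw, a2⟩
  have h3 : dg F H w + (MN G F tl H P z c).card ≤ H.card := by
    unfold dg
    have h4 : Disjoint (H.filter (fun y => F.Adj w y)) (MN G F tl H P z c) := by
      rw [disjoint_left]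
      intro y hy hy'
      exact hcl w hw y hy' (mem_filter.1 hy).2
    rw [← card_union_of_disjoint h4]
    exact card_le_card (union_subset (filter_subset _ _) (filter_subset _ _))
  omega

/-- the degree into `P` of a member -/
lemma MN_alpha (hHP : Disjoint H P) {z : ι} {c : V}
    (hcl : ∀ v ∈ MN G F tl H P z c, ∀ w ∈ MN G F tl H P z c, ¬ F.Adj v w) {w : V}
    (hw : w ∈ MN G F tl H P z c) :
    dg F (H ∪ P) w + (MN G F tl H P z c).card ≤ H.card + dg F P w := by
  have h1 : dg F (H ∪ P) w = dg F H w + dg F P w := by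
    unfold dg
    rw [filter_union, card_union_of_disjoint (disjoint_filter_filter hHP)]
  have h3 : dg F H w + (MN G F tl H P z c).card ≤ H.card := by
    unfold dg
    have h4 : Disjoint (H.filter (fun y => F.Adj w y)) (MN G F tl H P z c) := by
      rw [disjoint_left]
      intro y hy hy'
      exact hcl w hw y hy' (mem_filter.1 hy).2
    rw [← card_union_of_disjoint h4]
    exact card_le_card (union_subset (filter_subset _ _) (filter_subset _ _))
  omega

variable {B : Finset ι} {c : ι → V} {K : ι → Finset V} {L : Finset V} {τ : ℕ}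

/-- **the cover of one transversal** -/
theorem nt_base (hP : ∀ a ∈ P, ∀ b ∈ P, ¬ F.Adj a b)
    (htl : ∀ v ∈ H, ∀ a ∈ P, F.Adj v a → tl v ∈ B)
    (hKs : ∀ z ∈ B, K z ⊆ H ∪ P)
    (hK : ∀ z ∈ B, ∀ v ∈ MN G F tl H P z (c z), ∀ a ∈ P, F.Adj v a → v ∈ K z ∨ a ∈ K z)
    (hLs : L ⊆ H ∪ P)
    (hL : ∀ p ∈ H, ∀ q ∈ H, F.Adj p q → (∃ z ∈ B, G.Adj (c z) p ∨ G.Adj (c z) q) ∨ p ∈ L ∨ q ∈ L)
    (hτ : ∀ X ⊆ H ∪ P, CovN F (H ∪ P) X → τ ≤ X.card) :
    τ ≤ ∑ z ∈ B, (dg G H (c z) + (K z).card) + L.card := by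
  set X : Finset V := B.biUnion (fun z => H.filter (fun v => G.Adj (c z) v) ∪ K z) ∪ L with hX
  have hXs : X ⊆ H ∪ P := by
    rw [hX]
    refine union_subset ?_ hLs
    rw [biUnion_subset]
    intro z hz
    exact union_subset ((filter_subset _ _).trans subset_union_left) (hKs z hz)
  have seen : ∀ z ∈ B, ∀ v ∈ H, G.Adj (c z) v → v ∈ X := fun z hz v hv hcv =>
    mem_union_left _ (mem_biUnion.2 ⟨z, hz, mem_union_left _ (mem_filter.2 ⟨hv, hcv⟩)⟩)
  have inK : ∀ z ∈ B, ∀ v ∈ K z, v ∈ X := fun z hz v hv =>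
    mem_union_left _ (mem_biUnion.2 ⟨z, hz, mem_union_right _ hv⟩)
  have key : ∀ v ∈ H, ∀ a ∈ P, F.Adj v a → v ∈ X ∨ a ∈ X := by
    intro v hv a ha hva
    have hz := htl v hv a ha hva
    by_cases h1 : G.Adj (c (tl v)) v
    · exact Or.inl (seen _ hz v hv h1)
    · rcases hK _ hz v (mem_MN.2 ⟨hv, rfl, h1, a, ha, hva⟩) a ha hva with h2 | h2
      · exact Or.inl (inK _ hz _ h2)
      · exact Or.inr (inK _ hz _ h2)
  have hcov : CovN F (H ∪ P) X := by
    intro p hp q hq hpq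
    rcases mem_union.1 hp with hp1 | hp1 <;> rcases mem_union.1 hq with hq1 | hq1
    · rcases hL p hp1 q hq1 hpq with ⟨z, hz, h1 | h1⟩ | h1 | h1
      · exact Or.inl (seen z hz p hp1 h1)
      · exact Or.inr (seen z hz q hq1 h1)
      · exact Or.inl (mem_union_right _ h1)
      · exact Or.inr (mem_union_right _ h1)
    · exact key p hp1 q hq1 hpq
    · exact (key q hq1 p hp1 hpq.symm).symm
    · exact absurd hpq (hP p hp1 q hq1)
  refine (hτ X hXs hcov).trans ?_
  refine (card_union_le _ _).trans (Nat.add_le_add_right ?_ _)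
  refine card_biUnion_le.trans (sum_le_sum fun z _ => ?_)
  exact card_union_le _ _

/-- the smaller one of `MN` and `UN` -/
theorem nt_min (hP : ∀ a ∈ P, ∀ b ∈ P, ¬ F.Adj a b)
    (htl : ∀ v ∈ H, ∀ a ∈ P, F.Adj v a → tl v ∈ B)
    (hLs : L ⊆ H ∪ P)
    (hL : ∀ p ∈ H, ∀ q ∈ H, F.Adj p q → (∃ z ∈ B, G.Adj (c z) p ∨ G.Adj (c z) q) ∨ p ∈ L ∨ q ∈ L)
    (hτ : ∀ X ⊆ H ∪ P, CovN F (H ∪ P) X → τ ≤ X.card) :
    τ ≤ ∑ z ∈ B, (dg G H (c z)
      + min (MN G F tl H P z (c z)).card (UN G F tl H P z (c z)).card) + L.card := by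
  set K : ι → Finset V := fun z =>
    if (MN G F tl H P z (c z)).card ≤ (UN G F tl H P z (c z)).card then MN G F tl H P z (c z)
      else UN G F tl H P z (c z) with hKdef
  have h1 : ∀ z, (K z).card = min (MN G F tl H P z (c z)).card (UN G F tl H P z (c z)).card := by
    intro z
    rw [hKdef]
    by_cases h : (MN G F tl H P z (c z)).card ≤ (UN G F tl H P z (c z)).card
    · simp only [if_pos h]
      rw [min_eq_left h]
    · simp only [if_neg h]
      rw [min_eq_right (le_of_not_ge h)]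
  have h2 := nt_base (G := G) (tl := tl) (c := c) (K := K) hP htl (fun z _ => by
    rw [hKdef]
    by_cases h : (MN G F tl H P z (c z)).card ≤ (UN G F tl H P z (c z)).card
    · simp only [if_pos h]
      exact (filter_subset _ _).trans subset_union_left
    · simp only [if_neg h]
      exact (filter_subset _ _).trans subset_union_right) (fun z _ v hv a ha hva => by
    rw [hKdef]
    by_cases h : (MN G F tl H P z (c z)).card ≤ (UN G F tl H P z (c z)).card
    · simp only [if_pos h]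
      exact Or.inl hv
    · simp only [if_neg h]
      exact Or.inr (mem_UN.2 ⟨ha, v, hv, hva⟩)) hLs hL hτ
  simpa only [h1] using h2

/-- **LEMMA N, transversal form**: over-coverage -/
theorem nt_over (hP : ∀ a ∈ P, ∀ b ∈ P, ¬ F.Adj a b)
    (htl : ∀ v ∈ H, ∀ a ∈ P, F.Adj v a → tl v ∈ B)
    (hLs : L ⊆ H ∪ P)
    (hL : ∀ p ∈ H, ∀ q ∈ H, F.Adj p q → (∃ z ∈ B, G.Adj (c z) p ∨ G.Adj (c z) q) ∨ p ∈ L ∨ q ∈ L)
    (hτ : ∀ X ⊆ H ∪ P, CovN F (H ∪ P) X → τ ≤ X.card) :
    τ + ∑ z ∈ B, ((UN G F tl H P z (c z)).card - (MN G F tl H P z (c z)).card)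
      ≤ ∑ z ∈ B, (dg G H (c z) + (UN G F tl H P z (c z)).card) + L.card := by
  have h1 := nt_min (G := G) (tl := tl) (c := c) hP htl hLs hL hτ
  have h2 : ∑ z ∈ B, (dg G H (c z) + (UN G F tl H P z (c z)).card)
      = ∑ z ∈ B, (dg G H (c z)
        + min (MN G F tl H P z (c z)).card (UN G F tl H P z (c z)).card)
        + ∑ z ∈ B, ((UN G F tl H P z (c z)).card - (MN G F tl H P z (c z)).card) := by
    rw [← sum_add_distrib]
    refine sum_congr rfl fun z _ => ?_
    omega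
  omega

/-- the excess of the degrees over `|H|`, spread over the points of the classes of the tails -/
theorem nt_excess {C : ι → Finset V} {X0 : Finset V} (hHP : Disjoint H P)
    (hP : ∀ a ∈ P, ∀ b ∈ P, ¬ F.Adj a b) (hX0 : X0 ⊆ H ∪ P)
    (htl : ∀ v ∈ H, ∀ a ∈ P, F.Adj v a → tl v ∈ B)
    (hcl : ∀ z ∈ B, ∀ c ∈ C z, ∀ v ∈ MN G F tl H P z c, ∀ w ∈ MN G F tl H P z c, ¬ F.Adj v w)
    (hα : ∀ w ∈ X0, H.card < dg F (H ∪ P) w →
      dg F P w ≤ ((C (tl w)).filter (fun c => ¬ G.Adj c w)).card)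
    {f : ι → V → ℚ}
    (hf : ∀ z ∈ B, ∀ c ∈ C z, ∀ w ∈ MN G F tl H P z c, w ∈ X0 → H.card < dg F (H ∪ P) w →
      ((dg F (H ∪ P) w : ℚ) - H.card) * (X0.filter (fun w => H.card < dg F (H ∪ P) w ∧
        w ∈ MN G F tl H P z c)).card ≤ f z c *
        (((dg F (H ∪ P) w : ℚ) - H.card) + (MN G F tl H P z c).card))
    (hf0 : ∀ z ∈ B, ∀ c ∈ C z, 0 ≤ f z c) :
    ∑ w ∈ X0, ((dg F (H ∪ P) w - H.card : ℕ) : ℚ) ≤ ∑ z ∈ B, ∑ c ∈ C z, f z c := by
  -- only the vertices with large degree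
  set N : Finset V := X0.filter (fun w => H.card < dg F (H ∪ P) w) with hN
  have e1 : ∑ w ∈ X0, ((dg F (H ∪ P) w - H.card : ℕ) : ℚ)
      = ∑ w ∈ N, ((dg F (H ∪ P) w : ℚ) - H.card) := by
    rw [hN, sum_filter]
    refine sum_congr rfl fun w _ => ?_
    by_cases h : H.card < dg F (H ∪ P) w
    · rw [if_pos h, Nat.cast_sub h.le]
    · rw [if_neg h, Nat.sub_eq_zero_of_le (not_lt.1 h), Nat.cast_zero]
  have hNH : ∀ w ∈ N, w ∈ H ∧ ∃ a ∈ P, F.Adj w a := by
    intro w hw
    obtain ⟨w1, w2⟩ := mem_filter.1 hw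
    have h1 : dg F (H ∪ P) w = dg F H w + dg F P w := by
      unfold dg
      rw [filter_union, card_union_of_disjoint (disjoint_filter_filter hHP)]
    have h2 : dg F H w ≤ H.card := card_filter_le _ _
    have h3 : 0 < dg F P w := by omega
    obtain ⟨a, ha⟩ := card_pos.1 h3
    obtain ⟨a1, a2⟩ := mem_filter.1 ha
    refine ⟨?_, a, a1, a2⟩
    rcases mem_union.1 (hX0 w1) with h | h
    · exact h
    · exact absurd a2 (hP w h a a1)
  have hMN : ∀ w ∈ N, ∀ z ∈ B, ∀ c ∈ C z, (w ∈ MN G F tl H P z c ↔ tl w = z ∧ ¬ G.Adj c w) := by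
    intro w hw z _ c _
    obtain ⟨h1, h2⟩ := hNH w hw
    rw [mem_MN]
    exact ⟨fun h => ⟨h.2.1, h.2.2.1⟩, fun h => ⟨h1, h.1, h.2, h2⟩⟩
  have htN : ∀ w ∈ N, tl w ∈ B := by
    intro w hw
    obtain ⟨h1, a, h2, h3⟩ := hNH w hw
    exact htl w h1 a h2 h3
  set β : V → ℚ := fun w => (((C (tl w)).filter (fun c => ¬ G.Adj c w)).card : ℚ) with hβ
  have hβα : ∀ w ∈ N, (dg F P w : ℚ) ≤ β w := by
    intro w hw
    obtain ⟨w1, w2⟩ := mem_filter.1 hw
    change (dg F P w : ℚ) ≤ (((C (tl w)).filter (fun c => ¬ G.Adj c w)).card : ℚ)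
    exact_mod_cast hα w w1 w2
  have hβ0 : ∀ w ∈ N, 0 < β w := by
    intro w hw
    obtain ⟨_, a, h2, h3⟩ := hNH w hw
    have h4 : 0 < dg F P w := card_pos.2 ⟨a, mem_filter.2 ⟨h2, h3⟩⟩
    exact lt_of_lt_of_le (by exact_mod_cast h4) (hβα w hw)
  -- spread
  have e2 : ∀ w ∈ N, ((dg F (H ∪ P) w : ℚ) - H.card)
      = ∑ z ∈ B, ∑ c ∈ C z, (if w ∈ MN G F tl H P z c then
          ((dg F (H ∪ P) w : ℚ) - H.card) / β w else 0) := by
    intro w hw
    rw [sum_eq_single (tl w)]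
    · have h1 : ∀ c ∈ C (tl w), (if w ∈ MN G F tl H P (tl w) c then
          ((dg F (H ∪ P) w : ℚ) - H.card) / β w else 0)
          = (if ¬ G.Adj c w then ((dg F (H ∪ P) w : ℚ) - H.card) / β w else 0) := by
        intro c hc
        have h2 := hMN w hw (tl w) (htN w hw) c hc
        by_cases h3 : G.Adj c w
        · rw [if_neg (fun h => (h2.1 h).2 h3), if_neg (fun h => h h3)]
        · rw [if_pos (h2.2 ⟨rfl, h3⟩), if_pos h3]
      rw [sum_congr rfl h1, ← sum_filter, sum_const, nsmul_eq_mul]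
      change _ = β w * _
      rw [mul_div_cancel₀ _ (hβ0 w hw).ne']
    · intro z hz hzw
      refine sum_eq_zero fun c hc => ?_
      rw [if_neg]
      intro h
      exact hzw ((hMN w hw z hz c hc).1 h).1.symm
    · intro h
      exact absurd (htN w hw) h
  rw [e1, sum_congr rfl e2, sum_comm]
  refine sum_le_sum fun z hz => ?_
  rw [sum_comm]
  refine sum_le_sum fun c hc => ?_
  rw [← sum_filter]
  set W : Finset V := N.filter (fun w => w ∈ MN G F tl H P z c) with hW
  have hWeq : X0.filter (fun w => H.card < dg F (H ∪ P) w ∧ w ∈ MN G F tl H P z c) = W := by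
    rw [hW, hN, filter_filter]
  rcases W.eq_empty_or_nonempty with h0 | h0
  · rw [h0, sum_empty]
    exact hf0 z hz c hc
  · have h1 : (0 : ℚ) < W.card := by exact_mod_cast h0.card_pos
    have h2 : ∀ w ∈ W, ((dg F (H ∪ P) w : ℚ) - H.card) / β w ≤ f z c / W.card := by
      intro w hw
      obtain ⟨w1, w2⟩ := mem_filter.1 hw
      obtain ⟨w3, w4⟩ := mem_filter.1 w1
      have g1 := hf z hz c hc w w2 w3 w4
      rw [hWeq] at g1
      have g2 := MN_alpha hHP (hcl z hz c hc) w2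
      have g3 := hβα w w1
      have g4 : ((dg F (H ∪ P) w : ℚ) - H.card) + (MN G F tl H P z c).card ≤ β w := by
        have g5 : ((dg F (H ∪ P) w : ℚ)) + (MN G F tl H P z c).card ≤ H.card + dg F P w := by
          exact_mod_cast g2
        linarith
      rw [div_le_div_iff₀ (hβ0 w w1) h1]
      refine g1.trans ?_
      exact mul_le_mul_of_nonneg_left g4 (hf0 z hz c hc)
    have h3 := sum_le_sum h2
    rw [sum_const, nsmul_eq_mul, mul_div_cancel₀ _ h1.ne'] at h3
    exact h3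

end NT

section Avg

variable {ι V : Type*} [Fintype ι] {G F : SimpleGraph V}

/-- **averaged form**: `k z c` bounds the cover which the point `c` of the row `z` needs, `L c d` is the
correction for an adjacent pair of class points -/
theorem nt_avg {B : Finset ι} {C : ι → Finset V} (hC : ∀ z, (C z).Nonempty) {H : Finset V}
    {k : ι → V → ℚ} {Lc : V → V → ℚ} {R : ι → ι → Prop} {τ : ℚ}
    (h : ∀ c : ι → V, (∀ z, c z ∈ C z) → τ ≤ ∑ z ∈ B, ((dg G H (c z) : ℚ) + k z (c z))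
      + ∑ y ∈ B, ∑ z ∈ B.filter (fun z => y ≠ z ∧ R y z), Lc (c y) (c z)) :
    τ ≤ ∑ z ∈ B, (∑ c ∈ C z, ((dg G H c : ℚ) + k z c)) / (C z).card
      + ∑ y ∈ B, ∑ z ∈ B.filter (fun z => y ≠ z ∧ R y z),
        (∑ c ∈ C y, ∑ d ∈ C z, Lc c d) / ((C y).card * (C z).card) := by
  have hc0 : ∀ y, (0 : ℚ) < (C y).card := fun y => by exact_mod_cast card_pos.2 (hC y)
  set Pr : ℚ := ∏ y, ((C y).card : ℚ) with hPr
  have hP0 : 0 < Pr := prod_pos fun y _ => hc0 y
  have hPc : ((Fintype.piFinset C).card : ℚ) = Pr := by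
    rw [Fintype.card_piFinset, hPr]
    push_cast
    rfl
  have h1 := sum_le_sum fun c (hc : c ∈ Fintype.piFinset C) =>
    h c (fun z => Fintype.mem_piFinset.1 hc z)
  rw [sum_const, nsmul_eq_mul, hPc, sum_add_distrib, sum_comm] at h1
  have h2 : ∑ z ∈ B, ∑ c ∈ Fintype.piFinset C, ((dg G H (c z) : ℚ) + k z (c z))
      = Pr * ∑ z ∈ B, (∑ c ∈ C z, ((dg G H c : ℚ) + k z c)) / (C z).card := by
    rw [mul_sum]
    refine sum_congr rfl fun z _ => ?_
    have g1 := tr_one C z (fun a => (dg G H a : ℚ) + k z a)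
    rw [← mul_div_assoc, eq_div_iff (hc0 z).ne', mul_comm]
    exact g1
  have h3 : ∑ c ∈ Fintype.piFinset C, ∑ y ∈ B, ∑ z ∈ B.filter (fun z => y ≠ z ∧ R y z),
      Lc (c y) (c z) = Pr * ∑ y ∈ B, ∑ z ∈ B.filter (fun z => y ≠ z ∧ R y z),
        (∑ c ∈ C y, ∑ d ∈ C z, Lc c d) / ((C y).card * (C z).card) := by
    rw [sum_comm, mul_sum]
    refine sum_congr rfl fun y _ => ?_
    rw [sum_comm, mul_sum]
    refine sum_congr rfl fun z hz => ?_
    have g1 := tr_two C (mem_filter.1 hz).2.1 (fun a b => Lc a b)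
    rw [← mul_div_assoc, eq_div_iff (mul_pos (hc0 y) (hc0 z)).ne', mul_comm]
    exact g1
  rw [h2, h3, ← mul_add] at h1
  exact le_of_mul_le_mul_left h1 hP0

end Avg

end Pool.Agent.Lib.MP_f04ccf_co
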