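import Pool.Agent.Lib.MP_f04ccf_co.M.WgtF

/-!
MP_f04ccf_co: the combined load statement (*_L), the raw inequality `wgt_raw`: weighted hosts and layers
against the weighted cells and edges.
-/

set_option autoImplicit false

namespace Pool.Agent.Lib.MP_f04ccf_co

open Finset

attribute [local instance] Classical.propDecidable

section RawG

variable {ι V : Type*} {G F : SimpleGraph V} {A : Finset ι} {C H : ι → Finset V} {tl : V → ι}
  {ρ : ι → ℕ} {X L : ι → ι → Finset V} {w : ι → ι → V → V} {Us : ι → ι → V → Finset V}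
  {u om : ι → ℚ} {lm : ι → ι → ι → ℚ} {lmJ : ι → ι → ι → ι → ℚ} {f : ι → V → ℚ}

/-- the average cost without the corrections paid by the cells -/
noncomputable def JV (G : SimpleGraph V) (A : Finset ι) (C H : ι → Finset V) (ρ : ι → ℕ)
    (X : ι → ι → Finset V) (w : ι → ι → V → V) (x : ι) (Ar : ι → Finset V) (ku : ι → V → ℚ)
    (NN : ι → ι → V → ℚ) (z : ι) : ℚ :=
  (ee G (C z) (H x) + (if ρ x < ρ z then ∑ c ∈ X z x, (dg G (Ar z) (w z x c) : ℚ)
      + ∑ c ∈ C z \ X z x, ku z c else ∑ c ∈ C z, ku z c)) / (C z).card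
    + (∑ t ∈ A.erase x, (if z = t then 0 else ∑ a ∈ X z t, NN z t a)) / (C z).card

lemma JW_eq (x : ι) (Ar : ι → Finset V) (ku : ι → V → ℚ) (NN : ι → ι → V → ℚ) (l : ι → ι → ℚ)
    (z : ι) : JW G A C H ρ X w x Ar ku NN l z = JV G A C H ρ X w x Ar ku NN z
      + ∑ t ∈ A.erase x, (if ρ z < ρ t then l z t
        * (ee G (C z \ X z t) (C t \ X t z) / ((C z).card * (C t).card)) else 0) := by
  unfold JW JV
  congr 1
  refine sum_congr rfl fun t _ => ?_
  split_ifs
  · rw [div_mul_eq_mul_div, mul_div_assoc]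
  · rfl

/-- the host and the layers of the row `x` at the row `z` -/
lemma JV_comb (hK : KDs F A C H tl X L w) {x z : ι} (hx : x ∈ A) (hz : z ∈ A) (hxz : x ≠ z) :
    u x * JV G A C H ρ X w x (fun z => arc H tl x z) (fun z c => ((Us x z c).card : ℚ))
        (fun s t a => ∑ q ∈ NF G H tl X L w x s t a, f x q) z
      + Om A ρ om x z * JV G A C H ρ X w x (fun _ => Hin H tl A x)
        (fun _ c => (dg G (C x) c : ℚ)) (fun s t a => (dg G (Hin H tl A x) (w s t a) : ℚ)) z
      = (u x + Om A ρ om x z) / (C z).card * ee G (C z) (H x)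
        + (u x * (if ρ x < ρ z then ∑ c ∈ C z \ X z x, ((Us x z c).card : ℚ)
            else ∑ c ∈ C z, ((Us x z c).card : ℚ))
          + Om A ρ om x z * ∑ c ∈ C z \ X z x, (dg G (C x) c : ℚ)) / (C z).card
        + ∑ g ∈ H z, ∑ q ∈ H x, (if G.Adj g q then chg A C tl ρ X L w u om f z x g q else 0) := by
  rw [chg_sum hK hz, ← sum_erase_add (A.erase z) _ (mem_erase.2 ⟨hxz, hx⟩)]
  have e1 : ∀ φ : ι → ℚ, ∑ t ∈ A.erase x, (if z = t then 0 else φ t)
      = ∑ t ∈ (A.erase z).erase x, φ t := by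
    intro φ
    rw [erase_right_comm, ← sum_erase_add (A.erase x) _ (mem_erase.2 ⟨hxz.symm, hz⟩),
      if_pos rfl, add_zero]
    exact sum_congr rfl fun t ht => if_neg (ne_of_mem_erase ht).symm
  have e2 : ∑ t ∈ (A.erase z).erase x, (∑ a ∈ X z t,
        (u x * (if t = x then (if ρ x < ρ z then (dg G (arc H tl x z) (w z t a) : ℚ) else 0)
            else ∑ q ∈ NF G H tl X L w x z t a, f x q)
          + Om A ρ om x z * (dg G (Hin H tl A x) (w z t a) : ℚ))) / ((C z).card : ℚ)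
      = u x * ((∑ t ∈ (A.erase z).erase x, ∑ a ∈ X z t,
          ∑ q ∈ NF G H tl X L w x z t a, f x q) / (C z).card)
        + Om A ρ om x z * ((∑ t ∈ (A.erase z).erase x, ∑ a ∈ X z t,
          (dg G (Hin H tl A x) (w z t a) : ℚ)) / (C z).card) := by
    rw [sum_div, sum_div, mul_sum, mul_sum, ← sum_add_distrib]
    refine sum_congr rfl fun t ht => ?_
    rw [sum_div, sum_div, sum_div, mul_sum, mul_sum, ← sum_add_distrib]
    refine sum_congr rfl fun a _ => ?_
    rw [if_neg (ne_of_mem_erase ht)]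
    ring
  have e3 : (∑ a ∈ X z x,
        (u x * (if x = x then (if ρ x < ρ z then (dg G (arc H tl x z) (w z x a) : ℚ) else 0)
            else ∑ q ∈ NF G H tl X L w x z x a, f x q)
          + Om A ρ om x z * (dg G (Hin H tl A x) (w z x a) : ℚ))) / ((C z).card : ℚ)
      = (u x * (if ρ x < ρ z then ∑ a ∈ X z x, (dg G (arc H tl x z) (w z x a) : ℚ) else 0)
        + Om A ρ om x z * ∑ a ∈ X z x, (dg G (Hin H tl A x) (w z x a) : ℚ)) / (C z).card := by
    congr 1
    rw [sum_add_distrib]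
    congr 1
    · by_cases h1 : ρ x < ρ z
      · simp only [h1, if_true]
        rw [mul_sum]
      · simp only [h1, if_false, if_true, mul_zero, sum_const_zero]
    · rw [mul_sum]
  rw [e2, e3]
  unfold JV
  rw [e1, e1]
  by_cases h1 : ρ x < ρ z
  · simp only [h1, if_true]
    ring
  · simp only [h1, if_false]
    rw [Om_zero (not_lt.1 h1)]
    ring

/-- **the raw inequality**: weighted hosts and layers against the weighted cells and edges -/
theorem wgt_raw (hρ : ∀ x ∈ A, ∀ y ∈ A, ρ x = ρ y → x = y) (hK : KDs F A C H tl X L w)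
    (hXC : ∀ s ∈ A, ∀ t ∈ A, s ≠ t → X s t ⊆ C s)
    (hU : ∀ x ∈ A, ∀ z ∈ A, x ≠ z → ∀ c ∈ C z, ∀ a ∈ Us x z c, a ∈ X x z ∧ G.Adj c a)
    (hu : ∀ x ∈ A, 0 ≤ u x) (hom : ∀ j ∈ A, 0 ≤ om j) {T R vl : ι → ℚ}
    (hT : ∀ x ∈ A, T x ≤ ∑ z ∈ A.erase x, JW G A C H ρ X w x (fun z => arc H tl x z)
        (fun z c => ((Us x z c).card : ℚ))
        (fun s t a => ∑ q ∈ NF G H tl X L w x s t a, f x q) (lm x) z + R x)
    (hV : ∀ j ∈ A, vl j ≤ ∑ x ∈ A.filter (fun x => ρ x < ρ j),
        ∑ z ∈ A.filter (fun z => ρ j ≤ ρ z), JW G A C H ρ X w x (fun _ => Hin H tl A x)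
        (fun _ c => (dg G (C x) c : ℚ)) (fun s t a => (dg G (Hin H tl A x) (w s t a) : ℚ))
        (lmJ j x) z) :
    ∑ x ∈ A, u x * T x + ∑ j ∈ A, om j * vl j
      ≤ ∑ x ∈ A, ∑ z ∈ A.erase x, (u x + Om A ρ om x z) / (C z).card * ee G (C z) (H x)
        + ∑ y ∈ A, ∑ z ∈ A, (if ρ y < ρ z then ∑ p ∈ C y, ∑ c ∈ C z,
            (if G.Adj p c then cw A C ρ X Us u om lm lmJ y z p c else 0) else 0)
        + ∑ s ∈ A, ∑ x ∈ A, (if ρ s < ρ x then ∑ g ∈ H s, ∑ q ∈ H x,
            (if G.Adj g q then chg A C tl ρ X L w u om f s x g q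
              + chg A C tl ρ X L w u om f x s q g else 0) else 0)
        + ∑ x ∈ A, u x * R x := by
  set κ : ι → ι → ℚ := fun z t => ee G (C z \ X z t) (C t \ X t z) / ((C z).card * (C t).card)
    with hκ
  set J1 : ι → ι → ℚ := fun x z => JV G A C H ρ X w x (fun z => arc H tl x z)
    (fun z c => ((Us x z c).card : ℚ)) (fun s t a => ∑ q ∈ NF G H tl X L w x s t a, f x q) z
    with hJ1
  set J2 : ι → ι → ℚ := fun x z => JV G A C H ρ X w x (fun _ => Hin H tl A x)
    (fun _ c => (dg G (C x) c : ℚ)) (fun s t a => (dg G (Hin H tl A x) (w s t a) : ℚ)) z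
    with hJ2
  -- hosts
  have a1 : ∑ x ∈ A, u x * T x ≤ ∑ x ∈ A, ∑ z ∈ A.erase x, u x * J1 x z
      + ∑ y ∈ A, ∑ z ∈ A, (if ρ y < ρ z then
        (∑ x ∈ (A.erase y).erase z, u x * lm x y z) * κ y z else 0)
      + ∑ x ∈ A, u x * R x := by
    rw [← host_swap (u := u) lm κ, ← sum_add_distrib, ← sum_add_distrib]
    refine sum_le_sum fun x hx => ?_
    refine (mul_le_mul_of_nonneg_left (hT x hx) (hu x hx)).trans (le_of_eq ?_)
    rw [mul_add]
    congr 1
    simp only [JW_eq]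
    rw [sum_add_distrib, mul_add, mul_sum]
  -- layers
  have a2 : ∑ j ∈ A, om j * vl j ≤ ∑ x ∈ A, ∑ z ∈ A.erase x, Om A ρ om x z * J2 x z
      + ∑ y ∈ A, ∑ z ∈ A, (if ρ y < ρ z then
        (∑ j ∈ A, (if ρ j ≤ ρ y then om j * ∑ x ∈ A, (if ρ x < ρ j then lmJ j x y z else 0)
          else 0)) * κ y z else 0) := by
    have b1 : ∑ x ∈ A, ∑ z ∈ A.erase x, Om A ρ om x z * J2 x z
        = ∑ x ∈ A, ∑ z ∈ A, Om A ρ om x z * J2 x z := by
      refine sum_congr rfl fun x hx => ?_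
      rw [← add_sum_erase A _ hx, Om_zero (le_refl _), zero_mul, zero_add]
    rw [b1, ← lay_swap (om := om) (ρ := ρ) J2, ← lay_swap' (om := om) (ρ := ρ) lmJ κ,
      ← sum_add_distrib]
    refine sum_le_sum fun j hj => ?_
    refine (mul_le_mul_of_nonneg_left (hV j hj) (hom j hj)).trans (le_of_eq ?_)
    rw [← mul_add]
    congr 1
    simp only [JW_eq]
    rw [← sum_add_distrib]
    refine sum_congr rfl fun x _ => ?_
    rw [sum_add_distrib]
  refine (add_le_add a1 a2).trans (le_of_eq ?_)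
  -- the common part
  have c1 : ∑ x ∈ A, ∑ z ∈ A.erase x, u x * J1 x z + ∑ x ∈ A, ∑ z ∈ A.erase x,
        Om A ρ om x z * J2 x z
      = ∑ x ∈ A, ∑ z ∈ A.erase x, (u x + Om A ρ om x z) / (C z).card * ee G (C z) (H x)
        + ∑ x ∈ A, ∑ z ∈ A.erase x,
          (u x * (if ρ x < ρ z then ∑ c ∈ C z \ X z x, ((Us x z c).card : ℚ)
            else ∑ c ∈ C z, ((Us x z c).card : ℚ))
          + Om A ρ om x z * ∑ c ∈ C z \ X z x, (dg G (C x) c : ℚ)) / (C z).card
        + ∑ x ∈ A, ∑ z ∈ A.erase x, ∑ g ∈ H z, ∑ q ∈ H x,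
          (if G.Adj g q then chg A C tl ρ X L w u om f z x g q else 0) := by
    rw [← sum_add_distrib, ← sum_add_distrib, ← sum_add_distrib]
    refine sum_congr rfl fun x hx => ?_
    rw [← sum_add_distrib, ← sum_add_distrib, ← sum_add_distrib]
    refine sum_congr rfl fun z hz => ?_
    rw [hJ1, hJ2]
    exact JV_comb hK hx (mem_of_mem_erase hz) (ne_of_mem_erase hz).symm
  -- the cells
  have c2 : ∑ x ∈ A, ∑ z ∈ A.erase x,
          (u x * (if ρ x < ρ z then ∑ c ∈ C z \ X z x, ((Us x z c).card : ℚ)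
            else ∑ c ∈ C z, ((Us x z c).card : ℚ))
          + Om A ρ om x z * ∑ c ∈ C z \ X z x, (dg G (C x) c : ℚ)) / (C z).card
        + (∑ y ∈ A, ∑ z ∈ A, (if ρ y < ρ z then
        (∑ x ∈ (A.erase y).erase z, u x * lm x y z) * κ y z else 0)
        + ∑ y ∈ A, ∑ z ∈ A, (if ρ y < ρ z then
        (∑ j ∈ A, (if ρ j ≤ ρ y then om j * ∑ x ∈ A, (if ρ x < ρ j then lmJ j x y z else 0)
          else 0)) * κ y z else 0))
      = ∑ y ∈ A, ∑ z ∈ A, (if ρ y < ρ z then ∑ p ∈ C y, ∑ c ∈ C z,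
            (if G.Adj p c then cw A C ρ X Us u om lm lmJ y z p c else 0) else 0) := by
    rw [sum_rank hρ, ← sum_add_distrib, ← sum_add_distrib]
    refine sum_congr rfl fun y hy => ?_
    rw [← sum_add_distrib, ← sum_add_distrib]
    refine sum_congr rfl fun z hz => ?_
    by_cases h : ρ y < ρ z
    · have hyz : y ≠ z := by
        rintro rfl
        exact lt_irrefl _ h
      simp only [if_pos h, if_neg (not_lt.2 h.le)]
      rw [cw_sum h (hXC y hy z hz hyz) (hXC z hz y hy hyz.symm) (hU y hy z hz hyz)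
        (hU z hz y hy hyz.symm), Om_zero h.le]
      rw [hκ]
      unfold LLc
      ring
    · simp only [if_neg h, add_zero]
  -- the edges
  have c3 : ∑ x ∈ A, ∑ z ∈ A.erase x, ∑ g ∈ H z, ∑ q ∈ H x,
          (if G.Adj g q then chg A C tl ρ X L w u om f z x g q else 0)
      = ∑ s ∈ A, ∑ x ∈ A, (if ρ s < ρ x then ∑ g ∈ H s, ∑ q ∈ H x,
            (if G.Adj g q then chg A C tl ρ X L w u om f s x g q
              + chg A C tl ρ X L w u om f x s q g else 0) else 0) := by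
    rw [sum_rank hρ]
    refine sum_congr rfl fun s hs => sum_congr rfl fun x hx => ?_
    by_cases h : ρ s < ρ x
    · simp only [if_pos h]
      rw [sum_comm (s := H x), ← sum_add_distrib]
      refine sum_congr rfl fun g _ => ?_
      rw [← sum_add_distrib]
      refine sum_congr rfl fun q _ => ?_
      by_cases h2 : G.Adj g q
      · rw [if_pos h2, if_pos h2.symm, if_pos h2, add_comm]
      · rw [if_neg h2, if_neg (fun h' => h2 h'.symm), if_neg h2, add_zero]
    · simp only [if_neg h]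
  rw [← c2, ← c3]
  linarith [c1]

end RawG

end Pool.Agent.Lib.MP_f04ccf_co
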