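import Pool.Agent.Lib.MP_f04ccf_co.M.LemLL
import Pool.Agent.Lib.MP_f04ccf_co.M.WgtG

/-!
MP_f04ccf_co: LEMMA L for a host of a weighted system: the bridge from `HostL.lemL_hall` to the host
hypothesis of `wgt_raw`.  `KW x z c`: members and class points in the cost set of the server `z` (Koenig
set or all N-types missed, and the ends paid by the partners of `c`), `UW x y z c e`: the cover of the
half-served pairs on the adjacent cells outside the partner columns, `gam y z`: price of such a cell.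
-/

set_option autoImplicit false

namespace Pool.Agent.Lib.MP_f04ccf_co

open Finset

attribute [local instance] Classical.propDecidable

section DefW

variable {ι V : Type*}

/-- class points added by the server `z` -/
noncomputable def LW (G F : SimpleGraph V) (C H : ι → Finset V) (tl : V → ι) (ρ : ι → ℕ)
    (X : ι → ι → Finset V) (LP : ι → ι → V → Finset V) (x z : ι) (c : V) : Finset V :=
  (LZ ρ X LP x z c).filter fun a => a ∈ C x ∧ ∃ v ∈ arc H tl x z, F.Adj v a ∧ ¬ G.Adj c v

/-- ends paid by the partners of the column `c` -/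
noncomputable def PtW (G : SimpleGraph V) (A : Finset ι) (H : ι → Finset V) (tl : V → ι)
    (X L : ι → ι → Finset V) (w : ι → ι → V → V) (x z : ι) (c : V) : Finset V :=
  (A.erase x).biUnion fun t => if z ≠ t ∧ c ∈ X z t then NF G H tl X L w x z t c else ∅

/-- the cost set of the server `z` at the column `c` -/
noncomputable def KW (G F : SimpleGraph V) (A : Finset ι) (C H : ι → Finset V) (tl : V → ι)
    (ρ : ι → ℕ) (X L : ι → ι → Finset V) (w : ι → ι → V → V) (KP LP : ι → ι → V → Finset V)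
    (x z : ι) (c : V) : Finset V :=
  (KZ G F C H tl ρ X KP x z c ∩ H x ∪ LW G F C H tl ρ X LP x z c) ∪ PtW G A H tl X L w x z c

/-- the cover of the half-served pairs with the far rows `y`, `z` -/
noncomputable def LmS (ρ : ι → ℕ) (Lm : ι → ι → ι → Finset V) (x y z : ι) : Finset V :=
  if ρ y < ρ z then Lm x y z else if ρ z < ρ y then Lm x z y else ∅

/-- the correction set of a cell -/
noncomputable def UW (G : SimpleGraph V) (ρ : ι → ℕ) (X : ι → ι → Finset V)
    (Lm : ι → ι → ι → Finset V) (x y z : ι) (c e : V) : Finset V :=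
  if G.Adj c e ∧ c ∉ X y z ∧ e ∉ X z y then LmS ρ Lm x y z else ∅

/-- density of the paying cells at the point `c` of the row `y` over the row `z` -/
noncomputable def dD (G : SimpleGraph V) (C : ι → Finset V) (X : ι → ι → Finset V) (y z : ι)
    (c : V) : ℚ :=
  if c ∈ X y z then 0 else (dg G (C z \ X z y) c : ℚ) / (C z).card

/-- the price of a cell -/
noncomputable def gW (G : SimpleGraph V) (X : ι → ι → Finset V) (gam : ι → ι → ℚ) (y z : ι)
    (c e : V) : ℚ :=
  if G.Adj c e ∧ c ∉ X y z ∧ e ∉ X z y then gam y z else 0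

end DefW

section LemW

attribute [-instance] instDecidableEqSum

variable {ι V : Type*} {G F : SimpleGraph V} {A : Finset ι} {C H : ι → Finset V} {tl : V → ι}
  {ρ : ι → ℕ} {X L : ι → ι → Finset V} {w : ι → ι → V → V} {Lm : ι → ι → ι → Finset V}
  {KP LP Us : ι → ι → V → Finset V}

lemma LmS_comm (x y z : ι) : LmS ρ Lm x y z = LmS ρ Lm x z y := by
  unfold LmS
  rcases lt_trichotomy (ρ y) (ρ z) with h | h | h
  · rw [if_pos h, if_neg (not_lt.2 h.le), if_pos h]
  · rw [if_neg (by omega), if_neg (by omega), if_neg (by omega), if_neg (by omega)]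
  · rw [if_neg (not_lt.2 h.le), if_pos h, if_pos h]

lemma UW_comm (x y z : ι) (c e : V) : UW G ρ X Lm x y z c e = UW G ρ X Lm x z y e c := by
  unfold UW
  rw [LmS_comm]
  refine if_congr ⟨fun h => ⟨h.1.symm, h.2.2, h.2.1⟩, fun h => ⟨h.1.symm, h.2.2, h.2.1⟩⟩ rfl rfl

/-- **a host of a weighted system** -/
theorem WSys.hostL (h : WSys G F A C H tl) (hK : KDs F A C H tl X L w)
    (hU : UDs G F A C H tl X L w KP LP Us)
    (hρ : ∀ x ∈ A, ∀ y ∈ A, ρ x = ρ y → x = y) (hLm : LMs F A H tl ρ Lm) {x : ι} (hx : x ∈ A) :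
    HostL G F tl (H x) (C x) (A.erase x) C (KW G F A C H tl ρ X L w KP LP x)
      (UW G ρ X Lm x) := by
  refine ⟨h.dHC x hx x hx, fun v hv a ha hva => (h.pc x hx v hv a ha hva).1, ?_, ?_,
    fun y z c e => UW_comm x y z c e, ?_⟩
  · intro z hz c hc v hv a ha hva
    obtain ⟨v1, v2, v3, -⟩ := mem_MN.1 hv
    by_cases h3 : ρ x < ρ z ∧ c ∈ X z x
    · left
      refine mem_union_left _ (mem_union_left _ (mem_inter.2 ⟨?_, v1⟩))
      unfold KZ
      rw [if_pos h3]
      exact mem_filter.2 ⟨mem_arc.2 ⟨v1, v2⟩, v3, a, ha, hva⟩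
    · rcases hU.cov x hx z (mem_of_mem_erase hz) (ne_of_mem_erase hz).symm c hc v
        (mem_arc.2 ⟨v1, v2⟩) v3 a ha hva with h4 | h4
      · left
        refine mem_union_left _ (mem_union_left _ (mem_inter.2 ⟨?_, v1⟩))
        unfold KZ
        rw [if_neg h3]
        exact h4
      · right
        refine mem_union_left _ (mem_union_right _ (mem_filter.2 ⟨?_, ha, v,
          mem_arc.2 ⟨v1, v2⟩, hva, v3⟩))
        unfold LZ
        rw [if_neg h3]
        exact h4
  · intro z hz c hc a ha haP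
    rcases mem_union.1 ha with h1 | h1
    · rcases mem_union.1 h1 with h2 | h2
      · exact absurd haP (disjoint_left.1 (h.dHC x hx x hx) (mem_inter.1 h2).2)
      · obtain ⟨-, h3, v, hv, h4, h5⟩ := mem_filter.1 h2
        obtain ⟨v1, v2⟩ := mem_arc.1 hv
        have h6 := (h.pc x hx v v1 a h3 h4).2
        rw [v2] at h6
        exact (h6 c hc).resolve_left h5
    · obtain ⟨t, -, h2⟩ := mem_biUnion.1 h1
      split_ifs at h2 with h3
      · exact absurd haP (disjoint_left.1 (h.dHC x hx x hx) (mem_NF.1 h2).1)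
      · exact absurd h2 (notMem_empty _)
  · intro c hc p hp q hq hpq
    have hcv := (h.single_cov hK hU hρ hLm hx hc).1 p hp q hq hpq
    -- a point of the cover
    have key : ∀ v ∈ H x, v ∈ (A.erase x).biUnion (fun z => (H x).filter (fun v => G.Adj (c z) v)
        ∪ KZ G F C H tl ρ X KP x z (c z)) ∪ LJ G A H tl ρ X L w Lm x c →
        (∃ z ∈ A.erase x, G.Adj (c z) v ∨ v ∈ KW G F A C H tl ρ X L w KP LP x z (c z)) ∨
        ∃ z ∈ A.erase x, ∃ y ∈ (A.erase x).erase z, v ∈ UW G ρ X Lm x y z (c y) (c z) := by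
      intro v hv hvX
      rcases mem_union.1 hvX with h1 | h1
      · obtain ⟨z, hz, h2⟩ := mem_biUnion.1 h1
        rcases mem_union.1 h2 with h3 | h3
        · exact Or.inl ⟨z, hz, Or.inl (mem_filter.1 h3).2⟩
        · exact Or.inl ⟨z, hz, Or.inr (mem_union_left _ (mem_union_left _
            (mem_inter.2 ⟨h3, hv⟩)))⟩
      · rcases mem_union.1 h1 with h2 | h2
        · obtain ⟨z, hz, h3⟩ := mem_biUnion.1 h2
          obtain ⟨y, hy, h4⟩ := mem_biUnion.1 h3
          split_ifs at h4 with h5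
          · refine Or.inl ⟨z, hz, Or.inr (mem_union_right _ (mem_biUnion.2 ⟨y, hy, ?_⟩))⟩
            have hne : z ≠ y := by
              rintro rfl
              exact lt_irrefl _ h5.1
            rw [if_pos ⟨hne, h5.2⟩]
            exact h4
          · exact absurd h4 (notMem_empty _)
        · obtain ⟨y, hy, h3⟩ := mem_biUnion.1 h2
          obtain ⟨z, hz, h4⟩ := mem_biUnion.1 h3
          split_ifs at h4 with h5 h6
          · refine Or.inl ⟨y, hy, Or.inr (mem_union_right _ (mem_biUnion.2 ⟨z, hz, ?_⟩))⟩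
            have hne : y ≠ z := by
              rintro rfl
              exact lt_irrefl _ h5.1
            rw [if_pos ⟨hne, h6⟩]
            exact h4
          · have hne : y ≠ z := by
              rintro rfl
              exact lt_irrefl _ h5.1
            refine Or.inr ⟨z, hz, y, mem_erase.2 ⟨hne, hy⟩, ?_⟩
            unfold UW LmS
            rw [if_pos ⟨h5.2.1, h6, h5.2.2⟩, if_pos h5.1]
            exact h4
          · exact absurd h4 (notMem_empty _)
    rcases hcv with h1 | h1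
    · rcases key p hp h1 with ⟨z, hz, h2⟩ | ⟨z, hz, y, hy, h2⟩
      · exact Or.inl ⟨z, hz, Or.inl h2⟩
      · exact Or.inr ⟨z, hz, y, hy, Or.inl h2⟩
    · rcases key q hq h1 with ⟨z, hz, h2⟩ | ⟨z, hz, y, hy, h2⟩
      · exact Or.inl ⟨z, hz, Or.inr h2⟩
      · exact Or.inr ⟨z, hz, y, hy, Or.inr h2⟩

/-- the size of the cost set -/
lemma WSys.card_KW (h : WSys G F A C H tl) (hK : KDs F A C H tl X L w)
    (hU : UDs G F A C H tl X L w KP LP Us) {x z : ι} (hx : x ∈ A) (hz : z ∈ A) (hxz : x ≠ z)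
    {c : V} (hc : c ∈ C z) : (KW G F A C H tl ρ X L w KP LP x z c).card
      ≤ (if ρ x < ρ z ∧ c ∈ X z x then dg G (arc H tl x z) (w z x c) else (Us x z c).card)
        + ∑ t ∈ A.erase x, (if z ≠ t ∧ c ∈ X z t then (NF G H tl X L w x z t c).card else 0) := by
  have h1 := h.card_KZ hK hU (ρ := ρ) hx hz hxz hc
  have h2 : (KZ G F C H tl ρ X KP x z c ∩ H x ∪ LW G F C H tl ρ X LP x z c).card
      ≤ (KZ G F C H tl ρ X KP x z c).card + (LZ ρ X LP x z c).card :=
    (card_union_le _ _).trans (Nat.add_le_add (card_le_card inter_subset_left)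
      (card_le_card (filter_subset _ _)))
  have h3 : (PtW G A H tl X L w x z c).card
      ≤ ∑ t ∈ A.erase x, (if z ≠ t ∧ c ∈ X z t then (NF G H tl X L w x z t c).card else 0) := by
    unfold PtW
    refine card_biUnion_le.trans (sum_le_sum fun t _ => ?_)
    split_ifs
    · exact le_refl _
    · rw [card_empty]
  unfold KW
  exact (card_union_le _ _).trans (by omega)

/-- averages of the price of the cells -/
lemma gavQ_gW (gam : ι → ι → ℚ) (y z : ι) (c : V) :
    gavQ C (gW G X gam) y z c = gam y z * dD G C X y z c := by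
  unfold gavQ dD gW
  by_cases h1 : c ∈ X y z
  · rw [if_pos h1, mul_zero]
    have h2 : ∀ e ∈ C z, (if G.Adj c e ∧ c ∉ X y z ∧ e ∉ X z y then gam y z else 0) = 0 :=
      fun e _ => if_neg fun h => h.2.1 h1
    rw [sum_congr rfl h2, sum_const_zero, zero_div]
  · rw [if_neg h1, ← mul_div_assoc]
    congr 1
    have h2 : ∀ e ∈ C z, (if G.Adj c e ∧ c ∉ X y z ∧ e ∉ X z y then gam y z else 0)
        = gam y z * (if e ∉ X z y ∧ G.Adj c e then 1 else 0) := by
      intro e _
      by_cases h3 : e ∉ X z y ∧ G.Adj c e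
      · rw [if_pos ⟨h3.2, h1, h3.1⟩, if_pos h3, mul_one]
      · rw [if_neg (fun h => h3 ⟨h.2.2, h.1⟩), if_neg h3, mul_zero]
    rw [sum_congr rfl h2, ← mul_sum, ← sum_filter, sum_const, nsmul_eq_mul, mul_one]
    unfold dg
    rw [← filter_filter]
    congr 3
    ext e
    simp only [mem_filter, mem_sdiff]

/-- the average of the densities -/
lemma dD_avg (y z : ι) : (∑ c ∈ C y, dD G C X y z c) / (C y).card
    = ee G (C y \ X y z) (C z \ X z y) / ((C y).card * (C z).card) := by
  unfold dD ee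
  have h1 : ∀ c ∈ C y, (if c ∈ X y z then (0 : ℚ) else (dg G (C z \ X z y) c : ℚ) / (C z).card)
      = (if c ∉ X y z then (dg G (C z \ X z y) c : ℚ) else 0) / (C z).card := by
    intro c _
    split_ifs with h2
    · rw [zero_div]
    · rfl
  rw [sum_congr rfl h1, ← sum_div, ← sum_filter, div_div, mul_comm ((C z).card : ℚ)]
  congr 1
  refine sum_congr ?_ fun _ _ => rfl
  ext e
  simp only [mem_filter, mem_sdiff]

/-- the averages of the correction sets -/
lemma gav_UW (x y z : ι) (c : V) :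
    gav C (fun y z c e => (UW G ρ X Lm x y z c e).card) y z c
      = (LmS ρ Lm x y z).card * dD G C X y z c := by
  have h1 := gavQ_gW (G := G) (C := C) (X := X) (fun y z => ((LmS ρ Lm x y z).card : ℚ)) y z c
  rw [← h1]
  unfold gav gavQ gW UW
  congr 1
  refine sum_congr rfl fun e _ => ?_
  by_cases h3 : G.Adj c e ∧ c ∉ X y z ∧ e ∉ X z y
  · beta_reduce
    rw [if_pos h3, if_pos h3]
  · beta_reduce
    rw [if_neg h3, if_neg h3, card_empty, Nat.cast_zero]

/-- the same for the located points in the correction sets -/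
lemma gav_UW_inter (x y z : ι) (c : V) (W : Finset V) :
    (∑ e ∈ C z, (((UW G ρ X Lm x y z c e) ∩ W).card : ℚ)) / (C z).card
      = (LmS ρ Lm x y z ∩ W).card * dD G C X y z c := by
  have h1 := gavQ_gW (G := G) (C := C) (X := X) (fun y z => ((LmS ρ Lm x y z ∩ W).card : ℚ)) y z c
  rw [← h1]
  unfold gavQ gW UW
  congr 1
  refine sum_congr rfl fun e _ => ?_
  by_cases h3 : G.Adj c e ∧ c ∉ X y z ∧ e ∉ X z y
  · rw [if_pos h3, if_pos h3]
  · rw [if_neg h3, if_neg h3, empty_inter, card_empty, Nat.cast_zero]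

/-- exchange of the two rows in a double sum -/
lemma sum_erase_swap (B : Finset ι) (f : ι → ι → ℚ) :
    ∑ z ∈ B, ∑ y ∈ B.erase z, f z y = ∑ z ∈ B, ∑ y ∈ B.erase z, f y z := by
  rw [sum_comm' (s' := fun y => B.erase y) (t' := B) (by
      intro z y
      simp only [mem_erase, ne_eq]
      tauto)]

/-- **the average cost of a host** with the prices of the cells -/
lemma JW_ge (hX : ∀ s ∈ A, ∀ t ∈ A, s ≠ t → X s t ⊆ C s) {x : ι} (hx : x ∈ A)
    (hρ : ∀ x ∈ A, ∀ y ∈ A, ρ x = ρ y → x = y) (ku : ι → V → ℚ) (NN : ι → ι → V → ℚ)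
    (gam : ι → ι → ℚ) :
    ∑ z ∈ A.erase x, (∑ c ∈ C z, ((dg G (H x) c : ℚ)
        + ((if ρ x < ρ z ∧ c ∈ X z x then (dg G (arc H tl x z) (w z x c) : ℚ) else ku z c)
        + ∑ t ∈ A.erase x, (if z ≠ t ∧ c ∈ X z t then NN z t c else 0)))) / (C z).card
      + ∑ z ∈ A.erase x, ∑ y ∈ (A.erase x).erase z,
        gam z y * (ee G (C z \ X z y) (C y \ X y z) / ((C z).card * (C y).card))
      = ∑ z ∈ A.erase x, JW G A C H ρ X w x (fun z => arc H tl x z) ku NN
        (fun z t => gam z t + gam t z) z := by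
  have hA : ∀ z ∈ A.erase x, z ∈ A ∧ z ≠ x := fun z hz => ⟨mem_of_mem_erase hz, ne_of_mem_erase hz⟩
  -- the cells
  have c1 : ∑ z ∈ A.erase x, ∑ y ∈ (A.erase x).erase z,
        gam z y * (ee G (C z \ X z y) (C y \ X y z) / ((C z).card * (C y).card))
      = ∑ z ∈ A.erase x, ∑ t ∈ A.erase x, (if ρ z < ρ t then (gam z t + gam t z)
        / ((C z).card * (C t).card) * ee G (C z \ X z t) (C t \ X t z) else 0) := by
    have e1 : ∑ z ∈ A.erase x, ∑ y ∈ (A.erase x).erase z,
        gam z y * (ee G (C z \ X z y) (C y \ X y z) / ((C z).card * (C y).card))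
        = ∑ z ∈ A.erase x, ∑ y ∈ A.erase x, ((if ρ z < ρ y then
          gam z y * (ee G (C z \ X z y) (C y \ X y z) / ((C z).card * (C y).card)) else 0)
          + (if ρ y < ρ z then
          gam z y * (ee G (C z \ X z y) (C y \ X y z) / ((C z).card * (C y).card)) else 0)) := by
      refine sum_congr rfl fun z hz => ?_
      rw [← add_sum_erase (A.erase x) _ hz, if_neg (lt_irrefl _), add_zero, zero_add]
      refine sum_congr rfl fun y hy => ?_
      have hne : ρ z ≠ ρ y := fun h' => (ne_of_mem_erase hy).symm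
        (hρ _ (hA z hz).1 _ (hA y (mem_of_mem_erase hy)).1 h')
      rcases lt_or_gt_of_ne hne with h' | h'
      · rw [if_pos h', if_neg (not_lt.2 h'.le), add_zero]
      · rw [if_neg (not_lt.2 (le_of_lt h')), if_pos h', zero_add]
    rw [e1]
    simp only [sum_add_distrib]
    rw [sum_comm (s := A.erase x) (t := A.erase x) (f := fun z y => if ρ y < ρ z then
          gam z y * (ee G (C z \ X z y) (C y \ X y z) / ((C z).card * (C y).card)) else 0),
      ← sum_add_distrib]
    refine sum_congr rfl fun z _ => ?_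
    rw [← sum_add_distrib]
    refine sum_congr rfl fun y _ => ?_
    split_ifs
    · rw [ee_comm (C y \ X y z) (C z \ X z y), mul_comm ((C y).card : ℚ)]
      ring
    · rw [add_zero]
  rw [c1, ← sum_add_distrib]
  refine sum_congr rfl fun z hz => ?_
  obtain ⟨hzA, hzx⟩ := hA z hz
  unfold JW
  congr 1
  rw [← add_div]
  congr 1
  rw [sum_add_distrib, sum_add_distrib, add_assoc]
  congr 1
  congr 1
  · by_cases h1 : ρ x < ρ z
    · rw [if_pos h1]
      simp only [h1, true_and]
      rw [← sum_sdiff (hX z hzA x hx hzx), add_comm]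
      congr 1
      · exact sum_congr rfl fun c hc => by rw [if_pos hc]
      · exact sum_congr rfl fun c hc => by rw [if_neg (mem_sdiff.1 hc).2]
    · rw [if_neg h1]
      simp only [h1, false_and, if_false]
  · rw [sum_comm]
    refine sum_congr rfl fun t ht => ?_
    by_cases h1 : z = t
    · rw [if_pos h1]
      exact sum_eq_zero fun c _ => if_neg fun h' => h'.1 h1
    · rw [if_neg h1]
      have h2 : ∀ c ∈ C z, (if z ≠ t ∧ c ∈ X z t then NN z t c else 0)
          = if c ∈ X z t then NN z t c else 0 := fun c _ =>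
        if_congr ⟨fun h' => h'.2, fun h' => ⟨h1, h'⟩⟩ rfl rfl
      rw [sum_congr rfl h2, ← sum_filter]
      refine sum_congr ?_ fun _ _ => rfl
      rw [filter_mem_eq_inter]
      exact inter_eq_right.2 (hX z hzA t (hA t ht).1 h1)

/-- **LEMMA L FOR A HOST OF A WEIGHTED SYSTEM** (S2_E5 section 1, with the partner ends in the cost
sets): the hypothesis of `wgt_raw` with a gain. -/
theorem WSys.host_lemL (h : WSys G F A C H tl) (hK : KDs F A C H tl X L w)
    (hU : UDs G F A C H tl X L w KP LP Us)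
    (hρ : ∀ x ∈ A, ∀ y ∈ A, ρ x = ρ y → x = y) (hLm : LMs F A H tl ρ Lm) {x : ι} (hx : x ∈ A)
    (gam : ι → ι → ℚ) :
    ∃ J : ι → V, (∀ z ∈ A.erase x, J z ∈ C z) ∧
      ∃ o gs : ℚ, 0 ≤ gs ∧
      2 * gs = ∑ z ∈ A.erase x, ∑ y ∈ (A.erase x).erase z,
        ((UW G ρ X Lm x y z (J y) (J z)).card : ℚ) ∧
      o = ∑ z ∈ A.erase x, (((dg G (H x) (J z)
        + (KW G F A C H tl ρ X L w KP LP x z (J z)).card : ℕ)) : ℚ) + gs ∧
      ((XJ G (H x) (A.erase x) (KW G F A C H tl ρ X L w KP LP x) (UW G ρ X Lm x) J).card : ℚ)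
        + ∑ z ∈ A.erase x, ((KW G F A C H tl ρ X L w KP LP x z (J z) ∩ C x).card : ℚ)
        + ((XJ G (H x) (A.erase x) (KW G F A C H tl ρ X L w KP LP x) (UW G ρ X Lm x) J).filter
          fun v => ∀ z ∈ A.erase x, ¬ LocAt G (A.erase x) (KW G F A C H tl ρ X L w KP LP x)
            (UW G ρ X Lm x) J z v).card ≤ o ∧
      ∀ (W X2 : ι → Finset V) (mu : ι → ℚ), (∀ z ∈ A.erase x, 0 ≤ mu z) →
        (∀ z ∈ A.erase x, ∀ v ∈ W z, v ∈ H x ∧ LocAt G (A.erase x)
          (KW G F A C H tl ρ X L w KP LP x) (UW G ρ X Lm x) J z v) →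
        (∀ z ∈ A.erase x, X2 z ⊆ C x) →
        (∀ z ∈ A.erase x, ∀ c ∈ C z,
          ∀ M ⊆ ((W z).disjSum (({z} : Finset ι).sigma fun _ => X2 z) :
            Finset (V ⊕ (Σ _ : ι, V))) \ KSp G (H x) (C x) (KW G F A C H tl ρ X L w KP LP x) z c,
          M.Nonempty → (∀ p ∈ M, ∀ q ∈ M, q ∉ NSp F tl (H x) (C x) p) →
          mu z * M.card + ∑ y ∈ (A.erase x).erase z, gam z y * dD G C X z y (J z)
            + (dg G (H x) (J z) + (KW G F A C H tl ρ X L w KP LP x z (J z)).card)
            + ∑ y ∈ (A.erase x).erase z, ((UW G ρ X Lm x y z (J y) (J z)).card : ℚ)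
            ≤ ((M.biUnion (NSp F tl (H x) (C x))) \ Rz (A.erase x)
              (KSp G (H x) (C x) (KW G F A C H tl ρ X L w KP LP x)) (USp (UW G ρ X Lm x)) J z).card
              + ∑ y ∈ (A.erase x).erase z, gam z y * dD G C X z y c) →
        o + gs + ∑ z ∈ A.erase x, mu z * (((W z) ∪ (X2 z)).card : ℚ)
            + ∑ z ∈ A.erase x, ∑ y ∈ (A.erase x).erase z,
              (gam y z - (LmS ρ Lm x y z).card - mu z * (LmS ρ Lm x y z ∩ W z).card)
                * dD G C X y z (J y)
          ≤ ∑ z ∈ A.erase x, JW G A C H ρ X w x (fun z => arc H tl x z)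
              (fun z c => ((Us x z c).card : ℚ))
              (fun s t a => ((NF G H tl X L w x s t a).card : ℚ)) (fun z t => gam z t + gam t z) z
            + ∑ z ∈ A.erase x, mu z / (C z).card * (∑ c ∈ C z, (dg G ((W z) ∪ (X2 z)) c : ℚ)
              + ∑ v ∈ W z, (((C z).filter fun c => ¬ G.Adj c v ∧
                v ∈ KW G F A C H tl ρ X L w KP LP x z c).card : ℚ)) := by
  obtain ⟨v0, -⟩ := h.ne x hx
  have : Nonempty V := ⟨v0⟩
  choose! c₀ hc₀ using h.ne
  have hH := h.hostL hK hU hρ hLm hx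
  obtain ⟨J, hJ, o, gs, h1, h2, h3, h4, -, h5⟩ := hH.lemL_hall
    (fun z c => ∑ y ∈ (A.erase x).erase z, gam z y * dD G C X z y c) (c₀ := c₀)
    (fun z hz => hc₀ z (mem_of_mem_erase hz))
  refine ⟨J, hJ, o, gs, h1, h2, h3, h4, fun W X2 mu hmu hW hX2 hM => ?_⟩
  have h6 := h5 W X2 mu hmu hW hX2 hM
  have hXC : ∀ s ∈ A, ∀ t ∈ A, s ≠ t → X s t ⊆ C s := fun s hs t ht hst => (hK s hs t ht hst).XP
  have hJW := JW_ge (G := G) (w := w) (tl := tl) (H := H) hXC hx hρ
    (fun z c => ((Us x z c).card : ℚ)) (fun s t a => ((NF G H tl X L w x s t a).card : ℚ)) gam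
  rw [← hJW]
  -- the costs
  have hcost : ∑ z ∈ A.erase x, (∑ c ∈ C z, ((dg G (H x) c : ℚ)
        + (KW G F A C H tl ρ X L w KP LP x z c).card + mu z * dg G ((W z) ∪ (X2 z)) c))
          / (C z).card
      ≤ ∑ z ∈ A.erase x, (∑ c ∈ C z, ((dg G (H x) c : ℚ)
        + ((if ρ x < ρ z ∧ c ∈ X z x then (dg G (arc H tl x z) (w z x c) : ℚ)
            else ((Us x z c).card : ℚ))
        + ∑ t ∈ A.erase x, (if z ≠ t ∧ c ∈ X z t then ((NF G H tl X L w x z t c).card : ℚ)
            else 0)))) / (C z).card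
        + ∑ z ∈ A.erase x, mu z / (C z).card * ∑ c ∈ C z, (dg G ((W z) ∪ (X2 z)) c : ℚ) := by
    rw [← sum_add_distrib]
    refine sum_le_sum fun z hz => ?_
    rw [div_mul_eq_mul_div, ← add_div, mul_sum, ← sum_add_distrib]
    refine div_le_div_of_nonneg_right (sum_le_sum fun c hc => ?_) (Nat.cast_nonneg _)
    have k1 := h.card_KW hK hU (ρ := ρ) hx (mem_of_mem_erase hz) (ne_of_mem_erase hz).symm hc
    have k2 : ((KW G F A C H tl ρ X L w KP LP x z c).card : ℚ)
        ≤ (if ρ x < ρ z ∧ c ∈ X z x then (dg G (arc H tl x z) (w z x c) : ℚ)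
            else ((Us x z c).card : ℚ))
        + ∑ t ∈ A.erase x, (if z ≠ t ∧ c ∈ X z t then ((NF G H tl X L w x z t c).card : ℚ)
            else 0) := by
      exact_mod_cast k1
    linarith
  -- the prices
  have hT : ∀ z ∈ A.erase x, (∑ c ∈ C z, ∑ y ∈ (A.erase x).erase z, gam z y * dD G C X z y c)
        / (C z).card = ∑ y ∈ (A.erase x).erase z,
        gam z y * (ee G (C z \ X z y) (C y \ X y z) / ((C z).card * (C y).card)) := by
    intro z _
    rw [sum_comm, sum_div]
    refine sum_congr rfl fun y _ => ?_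
    rw [← mul_sum, mul_div_assoc, dD_avg]
  rw [sum_congr rfl hT] at h6
  have hg : ∑ z ∈ A.erase x, ∑ y ∈ (A.erase x).erase z,
        gav C (fun y z c e => (UW G ρ X Lm x y z c e).card) y z (J y)
      = ∑ z ∈ A.erase x, ∑ y ∈ (A.erase x).erase z, (LmS ρ Lm x y z).card * dD G C X y z (J y) :=
    sum_congr rfl fun z _ => sum_congr rfl fun y _ => gav_UW x y z (J y)
  have hi : ∑ z ∈ A.erase x, mu z * ((∑ c ∈ C z, ∑ y ∈ (A.erase x).erase z,
        (((UW G ρ X Lm x y z (J y) c) ∩ (W z)).card : ℚ)) / (C z).card)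
      = ∑ z ∈ A.erase x, ∑ y ∈ (A.erase x).erase z,
        mu z * ((LmS ρ Lm x y z ∩ W z).card * dD G C X y z (J y)) := by
    refine sum_congr rfl fun z _ => ?_
    rw [← mul_sum]
    congr 1
    rw [sum_comm, sum_div]
    exact sum_congr rfl fun y _ => gav_UW_inter x y z (J y) (W z)
  rw [hg, hi] at h6
  have hsw := sum_erase_swap (A.erase x) (fun z y => gam z y * dD G C X z y (J z))
  have hS : ∑ z ∈ A.erase x, ∑ y ∈ (A.erase x).erase z,
              (gam y z - (LmS ρ Lm x y z).card - mu z * (LmS ρ Lm x y z ∩ W z).card)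
                * dD G C X y z (J y)
      = ∑ z ∈ A.erase x, ∑ y ∈ (A.erase x).erase z, gam y z * dD G C X y z (J y)
        - ∑ z ∈ A.erase x, ∑ y ∈ (A.erase x).erase z, (LmS ρ Lm x y z).card * dD G C X y z (J y)
        - ∑ z ∈ A.erase x, ∑ y ∈ (A.erase x).erase z,
        mu z * ((LmS ρ Lm x y z ∩ W z).card * dD G C X y z (J y)) := by
    rw [← sum_sub_distrib, ← sum_sub_distrib]
    refine sum_congr rfl fun z _ => ?_
    rw [← sum_sub_distrib, ← sum_sub_distrib]
    exact sum_congr rfl fun y _ => by ring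
  have hp : ∑ z ∈ A.erase x, mu z / (C z).card * (∑ c ∈ C z, (dg G ((W z) ∪ (X2 z)) c : ℚ)
              + ∑ v ∈ W z, (((C z).filter fun c => ¬ G.Adj c v ∧
                v ∈ KW G F A C H tl ρ X L w KP LP x z c).card : ℚ))
      = ∑ z ∈ A.erase x, mu z / (C z).card * ∑ c ∈ C z, (dg G ((W z) ∪ (X2 z)) c : ℚ)
        + ∑ z ∈ A.erase x, mu z * ((∑ v ∈ W z, (((C z).filter fun c => ¬ G.Adj c v ∧
                v ∈ KW G F A C H tl ρ X L w KP LP x z c).card : ℚ)) / (C z).card) := by
    rw [← sum_add_distrib]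
    refine sum_congr rfl fun z _ => ?_
    ring
  rw [hS, hp]
  linarith

end LemW

end Pool.Agent.Lib.MP_f04ccf_co
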