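import Pool.Agent.Lib.MP_f04ccf_co.M.WgtI

/-!
MP_f04ccf_co: the combination of (E3) and (E5) (S2_E5 section 4).  `WSys.budget_loc`: the budget with
located points `Wt x z` of every host `x` at every row `z`, missed points are paid with `Lam z`.
`CSys.row_V`: the row test of a system with a set of located points and a residual front.
`CSys.budget_row`: both together.
-/

set_option autoImplicit false

namespace Pool.Agent.Lib.MP_f04ccf_co

open Finset

attribute [local instance] Classical.propDecidable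

section BudgetLoc

variable {ι V : Type*} {G F : SimpleGraph V} {A : Finset ι} {C H : ι → Finset V} {tl : V → ι}
  {ρ : ι → ℕ} {X L : ι → ι → Finset V} {w : ι → ι → V → V} {Us : ι → ι → V → Finset V}
  {u om : ι → ℚ} {lm : ι → ι → ι → ℚ} {lmJ : ι → ι → ι → ι → ℚ}

/-- the located points of all hosts at the row `z` -/
noncomputable def WtU (A : Finset ι) (Wt : ι → ι → Finset V) (z : ι) : Finset V :=
  (A.erase z).biUnion fun x => Wt x z

lemma sum_erase_swap' (A : Finset ι) (f : ι → ι → ℚ) :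
    ∑ x ∈ A, ∑ z ∈ A.erase x, f x z = ∑ z ∈ A, ∑ x ∈ A.erase z, f x z := by
  rw [sum_comm' (s' := fun z => A.erase z) (t' := A) (by
    intro x z
    simp only [mem_erase, ne_eq]
    tauto)]

/-- **the budget with located points**: `pd x z` is what the misses at the row `z` do not pay -/
theorem WSys.budget_loc (h : WSys G F A C H tl) (hρ : ∀ x ∈ A, ∀ y ∈ A, ρ x = ρ y → x = y)
    (hK : KDs F A C H tl X L w)
    (hU : ∀ x ∈ A, ∀ z ∈ A, x ≠ z → ∀ c ∈ C z, ∀ a ∈ Us x z c, a ∈ X x z ∧ G.Adj c a)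
    (hu : ∀ x ∈ A, 0 < u x) (hom : ∀ j ∈ A, 0 ≤ om j)
    (hw : ∀ x ∈ A, ∀ z ∈ A, x ≠ z → u x + Om A ρ om x z ≤ (C z).card) {ob vl Lam : ι → ℚ}
    {Wt : ι → ι → Finset V} {pd : ι → ι → ℚ}
    (hWt : ∀ x ∈ A, ∀ z ∈ A.erase x, Wt x z ⊆ H x ∪ C x)
    (hG : ∀ x ∈ A, ob x + ∑ z ∈ A.erase x, Lam z * (C z).card / u x * ((Wt x z).card : ℚ)
      ≤ ∑ z ∈ A.erase x, JW G A C H ρ X w x (fun z => arc H tl x z)
          (fun z c => ((Us x z c).card : ℚ))
          (fun s t a => ((NF G H tl X L w x s t a).card : ℚ)) (lm x) z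
        + ∑ z ∈ A.erase x, Lam z * (C z).card / u x / (C z).card
          * (∑ c ∈ C z, (dg G (Wt x z) c : ℚ) + pd x z))
    (hV : ∀ j ∈ A, vl j ≤ ∑ x ∈ A.filter (fun x => ρ x < ρ j),
        ∑ z ∈ A.filter (fun z => ρ j ≤ ρ z), JW G A C H ρ X w x (fun _ => Hin H tl A x)
        (fun _ c => (dg G (C x) c : ℚ)) (fun s t a => (dg G (Hin H tl A x) (w s t a) : ℚ))
        (lmJ j x) z)
    {o : ι → ι → V → V → ℚ} (ho : ∀ y ∈ A, ∀ z ∈ A, ρ y < ρ z → ∀ p ∈ C y, ∀ c ∈ C z,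
      G.Adj p c → cw A C ρ X Us u om lm lmJ y z p c + o y z p c ≤ 1) :
    ∑ x ∈ A, u x * ob x
      + ∑ z ∈ A, Lam z * ((C z).card * ((WtU A Wt z).card : ℚ)
        - ∑ c ∈ C z, (dg G (WtU A Wt z) c : ℚ) - ∑ x ∈ A.erase z, pd x z)
      + ∑ j ∈ A, om j * vl j
      + ∑ y ∈ A, ∑ z ∈ A, (if ρ y < ρ z then ∑ p ∈ C y, ∑ c ∈ C z,
            (if G.Adj p c then o y z p c else 0) else 0)
      + ∑ x ∈ A, ∑ z ∈ A.erase x, (1 - (u x + Om A ρ om x z) / (C z).card) * ee G (C z) (H x)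
      ≤ ∑ y ∈ A, ∑ z ∈ A, (if ρ y < ρ z then ee G (C y ∪ H y) (C z ∪ H z) else 0)
        + ∑ s ∈ A, ∑ x ∈ A, (if ρ s < ρ x then lossP G A C ρ X L w u om s x else 0) := by
  have hc0 : ∀ z ∈ A, (0 : ℚ) < (C z).card := fun z hz => by
    exact_mod_cast card_pos.2 (h.ne z hz)
  have h1 := h.budget (f := fun _ _ => 1)
    (T := fun x => ob x + ∑ z ∈ A.erase x, Lam z * (C z).card / u x * ((Wt x z).card : ℚ))
    (R := fun x => ∑ z ∈ A.erase x, Lam z * (C z).card / u x / (C z).card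
          * (∑ c ∈ C z, (dg G (Wt x z) c : ℚ) + pd x z))
    (vl := vl) (lm := lm) (lmJ := lmJ) (u := u) (om := om) (o := o)
    hρ hK hU (fun x hx => (hu x hx).le) hom (fun _ _ _ _ => le_refl _) hw (fun x hx => by
      simp only [sum_const, nsmul_eq_mul, mul_one]
      exact hG x hx) hV ho
  have hterm : ∀ x ∈ A, ∀ z ∈ A.erase x, u x * (Lam z * (C z).card / u x / (C z).card) = Lam z := by
    intro x hx z hz
    have k1 := (hu x hx).ne'
    have k2 := (hc0 z (mem_of_mem_erase hz)).ne'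
    field_simp
  have hterm2 : ∀ x ∈ A, ∀ z ∈ A.erase x, u x * (Lam z * (C z).card / u x)
      = Lam z * (C z).card := by
    intro x hx z hz
    have k1 := (hu x hx).ne'
    field_simp
  have hdis : ∀ z ∈ A, ∀ x ∈ A.erase z, ∀ y ∈ A.erase z, x ≠ y →
      Disjoint (Wt x z) (Wt y z) := by
    intro z hz x hx y hy hxy
    have hxA := mem_of_mem_erase hx
    have hyA := mem_of_mem_erase hy
    refine Disjoint.mono (hWt x hxA z (mem_erase.2 ⟨(ne_of_mem_erase hx).symm, hz⟩))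
      (hWt y hyA z (mem_erase.2 ⟨(ne_of_mem_erase hy).symm, hz⟩)) ?_
    rw [disjoint_union_left, disjoint_union_right, disjoint_union_right]
    exact ⟨⟨h.dHH x hxA y hyA hxy, h.dHC x hxA y hyA⟩, (h.dHC y hyA x hxA).symm,
      h.dCC x hxA y hyA hxy⟩
  have hcard : ∀ z ∈ A, ((WtU A Wt z).card : ℚ) = ∑ x ∈ A.erase z, ((Wt x z).card : ℚ) := by
    intro z hz
    unfold WtU
    rw [card_biUnion (fun x hx y hy hxy => hdis z hz x hx y hy hxy)]
    push_cast
    rfl
  have hdg : ∀ z ∈ A, ∀ c : V, (dg G (WtU A Wt z) c : ℚ) = ∑ x ∈ A.erase z, (dg G (Wt x z) c : ℚ) := by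
    intro z hz c
    unfold dg WtU
    rw [filter_biUnion, card_biUnion (fun x hx y hy hxy =>
      disjoint_filter_filter (hdis z hz x hx y hy hxy))]
    push_cast
    rfl
  have hL : ∑ x ∈ A, u x * (ob x
        + ∑ z ∈ A.erase x, Lam z * (C z).card / u x * ((Wt x z).card : ℚ))
      = ∑ x ∈ A, u x * ob x + ∑ z ∈ A, Lam z * ((C z).card * ((WtU A Wt z).card : ℚ)) := by
    have e1 : ∑ z ∈ A, Lam z * ((C z).card * ((WtU A Wt z).card : ℚ))
        = ∑ x ∈ A, u x * ∑ z ∈ A.erase x, Lam z * (C z).card / u x * ((Wt x z).card : ℚ) := by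
      have e2 : ∀ x ∈ A, u x * ∑ z ∈ A.erase x, Lam z * (C z).card / u x * ((Wt x z).card : ℚ)
          = ∑ z ∈ A.erase x, Lam z * (C z).card * ((Wt x z).card : ℚ) := by
        intro x hx
        rw [mul_sum]
        refine sum_congr rfl fun z hz => ?_
        rw [← mul_assoc, hterm2 x hx z hz]
      rw [sum_congr rfl e2, sum_erase_swap']
      refine sum_congr rfl fun z hz => ?_
      rw [hcard z hz, ← mul_sum, mul_assoc]
    rw [e1, ← sum_add_distrib]
    exact sum_congr rfl fun x _ => by ring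
  have hRR : ∑ x ∈ A, u x * ∑ z ∈ A.erase x, Lam z * (C z).card / u x / (C z).card
          * (∑ c ∈ C z, (dg G (Wt x z) c : ℚ) + pd x z)
      = ∑ z ∈ A, Lam z * (∑ c ∈ C z, (dg G (WtU A Wt z) c : ℚ) + ∑ x ∈ A.erase z, pd x z) := by
    have e2 : ∀ x ∈ A, u x * ∑ z ∈ A.erase x, Lam z * (C z).card / u x / (C z).card
          * (∑ c ∈ C z, (dg G (Wt x z) c : ℚ) + pd x z)
        = ∑ z ∈ A.erase x, Lam z * (∑ c ∈ C z, (dg G (Wt x z) c : ℚ) + pd x z) := by
      intro x hx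
      rw [mul_sum]
      refine sum_congr rfl fun z hz => ?_
      rw [← mul_assoc, hterm x hx z hz]
    rw [sum_congr rfl e2, sum_erase_swap']
    refine sum_congr rfl fun z hz => ?_
    rw [← mul_sum, sum_add_distrib]
    congr 2
    rw [sum_comm]
    exact sum_congr rfl fun c _ => (hdg z hz c).symm
  have hfin : ∑ z ∈ A, Lam z * ((C z).card * ((WtU A Wt z).card : ℚ)
        - ∑ c ∈ C z, (dg G (WtU A Wt z) c : ℚ) - ∑ x ∈ A.erase z, pd x z)
      = ∑ z ∈ A, Lam z * ((C z).card * ((WtU A Wt z).card : ℚ))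
        - ∑ z ∈ A, Lam z * (∑ c ∈ C z, (dg G (WtU A Wt z) c : ℚ) + ∑ x ∈ A.erase z, pd x z) := by
    rw [← sum_sub_distrib]
    exact sum_congr rfl fun z _ => by ring
  rw [hL, hRR] at h1
  rw [hfin]
  linarith

end BudgetLoc

end Pool.Agent.Lib.MP_f04ccf_co
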