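import Pool.Agent.Lib.MP_f04ccf_co.M.LemLL

/-!
MP_f04ccf_co: the missing pairs of a slot for a split cover with low members (S2_E5 section 5).
`sp_energy`: exact splitting; `HostL.out_le`: a located member has at most `dlM` partners outside the
cover; `HostL.kap_le`: the class points missed by a member located off its tail; `HostL.energy`.
-/

set_option autoImplicit false

namespace Pool.Agent.Lib.MP_f04ccf_co

open Finset

attribute [local instance] Classical.propDecidable

section SpE

variable {ι V : Type*} {F : SimpleGraph V} {tl : V → ι} {H P X : Finset V} {Y : ι → Finset V}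
  {B : Finset ι}

/-- **splitting of the missing pairs** along a split cover -/
theorem sp_energy (hHP : Disjoint H P) (hP : ∀ a ∈ P, ∀ b ∈ P, ¬ F.Adj a b) (hXH : X ⊆ H)
    (hc : SpCov F tl H P X Y) (htl : ∀ v ∈ H, ∀ a ∈ P, F.Adj v a → tl v ∈ B) :
    E F (H ∪ P) ≤ E F X + 2 * ∑ v ∈ X, (dg F (H \ X) v + dg F P v)
      + 2 * ∑ z ∈ B, (WN F tl H P X z).card * (Y z).card := by
  have h1 := E_sdiff F (subset_union_right : P ⊆ H ∪ P)
  have h2 : (H ∪ P) \ P = H := by
    rw [union_sdiff_right]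
    exact sdiff_eq_self_of_disjoint hHP
  have h3 : E F P = 0 := by
    unfold E
    refine sum_eq_zero fun v hv => ?_
    unfold dg
    rw [card_eq_zero, filter_eq_empty_iff]
    exact fun u hu huv => hP v hv u hu huv
  have h4 : ∑ v ∈ P, dg F (H ∪ P) v = ∑ v ∈ P, dg F H v := by
    refine sum_congr rfl fun v hv => ?_
    have h5 : dg F P v = 0 := by
      unfold dg
      rw [card_eq_zero, filter_eq_empty_iff]
      exact fun u hu huv => hP v hv u hu huv
    have h6 : dg F (H ∪ P) v = dg F H v + dg F P v := by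
      unfold dg
      rw [filter_union, card_union_of_disjoint (disjoint_filter_filter hHP)]
    omega
  have h5 := dg_comm F P H
  have h7 := cov_dg_le hc hXH htl
  have h8 := E_sdiff F hXH
  have h9 : E F (H \ X) = 0 := by
    unfold E
    refine sum_eq_zero fun v hv => ?_
    obtain ⟨v1, v2⟩ := mem_sdiff.1 hv
    unfold dg
    rw [card_eq_zero, filter_eq_empty_iff]
    intro u hu huv
    obtain ⟨u1, u2⟩ := mem_sdiff.1 hu
    rcases hc.1 v v1 u u1 huv with h | h
    · exact v2 h
    · exact u2 h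
  have h10 : ∑ v ∈ X, dg F H v = ∑ v ∈ X, dg F (H \ X) v + E F X := by
    unfold E
    rw [← sum_add_distrib]
    exact sum_congr rfl fun v _ => dg_sdiff F hXH v
  rw [sum_add_distrib]
  rw [h2, h3, h4] at h1
  omega

end SpE

section HostE

variable {ι V : Type*} {G F : SimpleGraph V} {tl : V → ι} {H P : Finset V} {B : Finset ι}
  {K : ι → V → Finset V} {U : ι → ι → V → V → Finset V} {C : ι → Finset V} {J : ι → V}

lemma XJ_sub : XJ G H B K U J ⊆ H := filter_subset _ _

/-- a member outside the cover is seen by no row -/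
lemma locAt_of_notMem {w : V} (hw : w ∈ H) (hX : w ∉ XJ G H B K U J) (z : ι) :
    LocAt G B K U J z w := by
  refine ⟨fun y hy => ?_, fun y hy y' hy' h => ?_⟩
  · by_contra hcon
    rw [not_and_or, not_not, not_not] at hcon
    exact hX (mem_filter.2 ⟨hw, Or.inl ⟨y, mem_of_mem_erase hy, hcon⟩⟩)
  · exact hX (mem_filter.2 ⟨hw, Or.inr ⟨y, mem_of_mem_erase hy, y', mem_erase.2
      ⟨ne_of_mem_erase hy', mem_of_mem_erase (mem_of_mem_erase hy')⟩, h⟩⟩)

/-- partners outside the cover, and the missed class points of a member located at its tail -/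
lemma out_le (z : ι) (v : V) :
    dg F (H \ XJ G H B K U J) v + (if tl v = z then dg F P v else 0)
      ≤ dlM G F tl H P B K U J z v := by
  unfold dlM
  refine Nat.add_le_add ?_ ?_
  · unfold dg
    refine card_le_card fun w hw => ?_
    obtain ⟨w1, w2⟩ := mem_filter.1 hw
    obtain ⟨w3, w4⟩ := mem_sdiff.1 w1
    exact mem_filter.2 ⟨w3, w2, locAt_of_notMem w3 w4 z⟩
  · split_ifs with h
    · unfold dg
      refine card_le_card fun a ha => ?_
      obtain ⟨a1, a2⟩ := mem_filter.1 ha
      exact mem_filter.2 ⟨a1, a2, Or.inl h⟩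
    · exact Nat.zero_le _

/-- the class points missed by a member which its tail does not see -/
lemma HostL.kap_le (h : HostL G F tl H P B C K U) (hJ : ∀ z ∈ B, J z ∈ C z) {z : ι} {v : V}
    (hv : v ∈ H) (hL : LocAt G B K U J z v) (hz : tl v ≠ z) :
    dg F P v ≤ (K (tl v) (J (tl v)) ∩ P).card := by
  unfold dg
  refine card_le_card fun a ha => ?_
  obtain ⟨a1, a2⟩ := mem_filter.1 ha
  have hB := h.htl v hv a a1 a2
  obtain ⟨h1, h2⟩ := hL.1 (tl v) (mem_erase.2 ⟨hz, hB⟩)
  rcases h.hK _ hB _ (hJ _ hB) v (mem_MN.2 ⟨hv, rfl, h1, a, a1, a2⟩) a a1 a2 with h3 | h3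
  · exact absurd h3 h2
  · exact mem_inter.2 ⟨h3, a1⟩

/-- **the missing pairs of a slot with low members**: `lo z` are members located at `z` with at most
`k z` partners outside what the other rows see -/
theorem HostL.energy (h : HostL G F tl H P B C K U) (hP : ∀ a ∈ P, ∀ b ∈ P, ¬ F.Adj a b)
    (hJ : ∀ z ∈ B, J z ∈ C z) {lo : ι → Finset V} {k : ι → ℕ}
    (hlo : ∀ z ∈ B, lo z ⊆ XJ G H B K U J)
    (hdis : ∀ z ∈ B, ∀ y ∈ B, z ≠ y → Disjoint (lo z) (lo y))
    (hk : ∀ z ∈ B, ∀ v ∈ lo z, dlM G F tl H P B K U J z v ≤ k z) :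
    E F (H ∪ P) ≤ E F (XJ G H B K U J)
      + 2 * ∑ v ∈ XJ G H B K U J \ B.biUnion lo, ((H \ XJ G H B K U J).card + dg F P v)
      + 2 * ∑ z ∈ B, ∑ v ∈ lo z, (if tl v = z then
          Min.min (k z) ((H \ XJ G H B K U J).card + dg F P v)
          else Min.min (k z) (H \ XJ G H B K U J).card + dg F P v)
      + 2 * ∑ z ∈ B, (WN F tl H P (XJ G H B K U J) z).card * (K z (J z) ∩ P).card := by
  set X := XJ G H B K U J with hX
  have h1 := sp_energy (B := B) h.hHP hP XJ_sub (h.cov hJ) h.htl
  have e1 : ∑ z ∈ B, (WN F tl H P (XJ G H B K U J) z).card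
      * ((if z ∈ B then K z (J z) ∩ P else ∅) : Finset V).card
      = ∑ z ∈ B, (WN F tl H P (XJ G H B K U J) z).card * (K z (J z) ∩ P).card :=
    sum_congr rfl fun z hz => by rw [if_pos hz]
  rw [e1, ← hX] at h1
  have hsub : B.biUnion lo ⊆ X := by
    rw [biUnion_subset]
    exact hlo
  have e2 : ∑ v ∈ X, (dg F (H \ X) v + dg F P v)
      = ∑ v ∈ X \ B.biUnion lo, (dg F (H \ X) v + dg F P v)
        + ∑ z ∈ B, ∑ v ∈ lo z, (dg F (H \ X) v + dg F P v) := by
    rw [← sum_sdiff hsub, sum_biUnion (fun z hz y hy hzy => hdis z hz y hy hzy)]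
  have e3 : ∑ v ∈ X \ B.biUnion lo, (dg F (H \ X) v + dg F P v)
      ≤ ∑ v ∈ X \ B.biUnion lo, ((H \ X).card + dg F P v) :=
    sum_le_sum fun v _ => Nat.add_le_add_right (card_filter_le _ _) _
  have e4 : ∑ z ∈ B, ∑ v ∈ lo z, (dg F (H \ X) v + dg F P v)
      ≤ ∑ z ∈ B, ∑ v ∈ lo z, (if tl v = z then Min.min (k z) ((H \ X).card + dg F P v)
          else Min.min (k z) (H \ X).card + dg F P v) := by
    refine sum_le_sum fun z hz => sum_le_sum fun v hv => ?_
    have k1 := (out_le (G := G) (F := F) (tl := tl) (H := H) (P := P) (B := B) (K := K) (U := U)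
      (J := J) z v).trans (hk z hz v hv)
    rw [← hX] at k1
    have k2 : dg F (H \ X) v ≤ (H \ X).card := card_filter_le _ _
    split_ifs with h2
    · rw [if_pos h2] at k1
      exact le_min k1 (by omega)
    · rw [if_neg h2] at k1
      have k3 : dg F (H \ X) v ≤ Min.min (k z) (H \ X).card := le_min (by omega) k2
      omega
  omega

end HostE

end Pool.Agent.Lib.MP_f04ccf_co
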