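import Pool.Agent.Lib.MP_f04ccf_co.M.LemW

/-!
MP_f04ccf_co: LEMMA L for all hosts of a weighted system at once (S2_E5 section 4).  `HData`: the data of
one host (cheapest transversal, cost, gain for every family of located points); `WSys.exists_hdata`;
`WSys.lemL_all`: the weighted sum over the hosts and the layers, where a row `z` pays `Lam z` for every
missed located point.
-/

set_option autoImplicit false

namespace Pool.Agent.Lib.MP_f04ccf_co

open Finset

attribute [local instance] Classical.propDecidable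

section DefR

attribute [-instance] instDecidableEqSum

variable {ι V : Type*}

/-- the column conditions on the located points of the host `x` -/
def HallC (G F : SimpleGraph V) (A : Finset ι) (C H : ι → Finset V) (tl : V → ι) (ρ : ι → ℕ)
    (X L : ι → ι → Finset V) (w : ι → ι → V → V) (Lm : ι → ι → ι → Finset V)
    (KP LP : ι → ι → V → Finset V) (gam : ι → ι → ℚ) (x : ι) (J : ι → V) (z : ι) (W X2 : Finset V)
    (mu : ℚ) : Prop :=
  ∀ c ∈ C z, ∀ M ⊆ (W.disjSum (({z} : Finset ι).sigma fun _ => X2) :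
      Finset (V ⊕ (Σ _ : ι, V))) \ KSp G (H x) (C x) (KW G F A C H tl ρ X L w KP LP x) z c,
    M.Nonempty → (∀ p ∈ M, ∀ q ∈ M, q ∉ NSp F tl (H x) (C x) p) →
    mu * M.card + ∑ y ∈ (A.erase x).erase z, gam z y * dD G C X z y (J z)
      + (dg G (H x) (J z) + (KW G F A C H tl ρ X L w KP LP x z (J z)).card)
      + ∑ y ∈ (A.erase x).erase z, ((UW G ρ X Lm x y z (J y) (J z)).card : ℚ)
      ≤ ((M.biUnion (NSp F tl (H x) (C x))) \ Rz (A.erase x)
        (KSp G (H x) (C x) (KW G F A C H tl ρ X L w KP LP x)) (USp (UW G ρ X Lm x)) J z).card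
        + ∑ y ∈ (A.erase x).erase z, gam z y * dD G C X z y c

/-- paid misses of the located members of the host `x` at the row `z` -/
noncomputable def paidW (G F : SimpleGraph V) (A : Finset ι) (C H : ι → Finset V) (tl : V → ι)
    (ρ : ι → ℕ) (X L : ι → ι → Finset V) (w : ι → ι → V → V) (KP LP : ι → ι → V → Finset V)
    (x z : ι) (W : Finset V) : ℚ :=
  ∑ v ∈ W, (((C z).filter fun c => ¬ G.Adj c v ∧
    v ∈ KW G F A C H tl ρ X L w KP LP x z c).card : ℚ)

/-- what is left of the prices at the cells of the cheapest transversal -/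
noncomputable def surW (G : SimpleGraph V) (A : Finset ι) (C : ι → Finset V) (ρ : ι → ℕ)
    (X : ι → ι → Finset V) (Lm : ι → ι → ι → Finset V) (gam : ι → ι → ℚ) (x : ι) (J : ι → V)
    (W : ι → Finset V) (mu : ι → ℚ) : ℚ :=
  ∑ z ∈ A.erase x, ∑ y ∈ (A.erase x).erase z,
    (gam y z - (LmS ρ Lm x y z).card - mu z * (LmS ρ Lm x y z ∩ W z).card) * dD G C X y z (J y)

/-- the data of the host `x`: cheapest transversal `J`, cost `o`, half of the cells `gs` -/
structure HData (G F : SimpleGraph V) (A : Finset ι) (C H : ι → Finset V) (tl : V → ι)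
    (ρ : ι → ℕ) (X L : ι → ι → Finset V) (w : ι → ι → V → V) (Lm : ι → ι → ι → Finset V)
    (KP LP Us : ι → ι → V → Finset V) (gam : ι → ι → ℚ) (x : ι) (J : ι → V) (o gs : ℚ) :
    Prop where
  tr : ∀ z ∈ A.erase x, J z ∈ C z
  gs0 : 0 ≤ gs
  gs2 : 2 * gs = ∑ z ∈ A.erase x, ∑ y ∈ (A.erase x).erase z,
    ((UW G ρ X Lm x y z (J y) (J z)).card : ℚ)
  oe : o = ∑ z ∈ A.erase x, (((dg G (H x) (J z)
    + (KW G F A C H tl ρ X L w KP LP x z (J z)).card : ℕ)) : ℚ) + gs
  cnt : ((XJ G (H x) (A.erase x) (KW G F A C H tl ρ X L w KP LP x) (UW G ρ X Lm x) J).card : ℚ)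
    + ∑ z ∈ A.erase x, ((KW G F A C H tl ρ X L w KP LP x z (J z) ∩ C x).card : ℚ)
    + ((XJ G (H x) (A.erase x) (KW G F A C H tl ρ X L w KP LP x) (UW G ρ X Lm x) J).filter
      fun v => ∀ z ∈ A.erase x, ¬ LocAt G (A.erase x) (KW G F A C H tl ρ X L w KP LP x)
        (UW G ρ X Lm x) J z v).card ≤ o
  gain : ∀ (W X2 : ι → Finset V) (mu : ι → ℚ), (∀ z ∈ A.erase x, 0 ≤ mu z) →
    (∀ z ∈ A.erase x, ∀ v ∈ W z, v ∈ H x ∧ LocAt G (A.erase x)
      (KW G F A C H tl ρ X L w KP LP x) (UW G ρ X Lm x) J z v) →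
    (∀ z ∈ A.erase x, X2 z ⊆ C x) →
    (∀ z ∈ A.erase x, HallC G F A C H tl ρ X L w Lm KP LP gam x J z (W z) (X2 z) (mu z)) →
    o + gs + ∑ z ∈ A.erase x, mu z * (((W z) ∪ (X2 z)).card : ℚ)
        + surW G A C ρ X Lm gam x J W mu
      ≤ ∑ z ∈ A.erase x, JW G A C H ρ X w x (fun z => arc H tl x z)
          (fun z c => ((Us x z c).card : ℚ))
          (fun s t a => ((NF G H tl X L w x s t a).card : ℚ)) (fun z t => gam z t + gam t z) z
        + ∑ z ∈ A.erase x, mu z / (C z).card * (∑ c ∈ C z, (dg G ((W z) ∪ (X2 z)) c : ℚ)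
          + paidW G F A C H tl ρ X L w KP LP x z (W z))

end DefR

section LemWR

attribute [-instance] instDecidableEqSum

variable {ι V : Type*} {G F : SimpleGraph V} {A : Finset ι} {C H : ι → Finset V} {tl : V → ι}
  {ρ : ι → ℕ} {X L : ι → ι → Finset V} {w : ι → ι → V → V} {Lm : ι → ι → ι → Finset V}
  {KP LP Us : ι → ι → V → Finset V}

theorem WSys.exists_hdata (h : WSys G F A C H tl) (hK : KDs F A C H tl X L w)
    (hU : UDs G F A C H tl X L w KP LP Us)
    (hρ : ∀ x ∈ A, ∀ y ∈ A, ρ x = ρ y → x = y) (hLm : LMs F A H tl ρ Lm) {x : ι} (hx : x ∈ A)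
    (gam : ι → ι → ℚ) :
    ∃ (J : ι → V) (o gs : ℚ), HData G F A C H tl ρ X L w Lm KP LP Us gam x J o gs := by
  obtain ⟨J, hJ, o, gs, h1, h2, h3, h4, h5⟩ := h.host_lemL hK hU hρ hLm hx gam
  exact ⟨J, o, gs, hJ, h1, h2, h3, h4, h5⟩

/-- the split cover number is at most the cost of the transversal -/
theorem HData.spn_le (h : WSys G F A C H tl) (hK : KDs F A C H tl X L w)
    (hU : UDs G F A C H tl X L w KP LP Us)
    (hρ : ∀ x ∈ A, ∀ y ∈ A, ρ x = ρ y → x = y) (hLm : LMs F A H tl ρ Lm) {x : ι} (hx : x ∈ A)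
    {J : ι → V} (hJ : ∀ z ∈ A.erase x, J z ∈ C z) :
    spn F tl (H x) (C x) (A.erase x)
      ≤ (XJ G (H x) (A.erase x) (KW G F A C H tl ρ X L w KP LP x) (UW G ρ X Lm x) J).card
        + ∑ z ∈ A.erase x, (KW G F A C H tl ρ X L w KP LP x z (J z) ∩ C x).card := by
  have h1 := Pool.Agent.Lib.MP_f04ccf_co.spn_le (B := A.erase x)
    ((h.hostL hK hU hρ hLm hx).cov hJ)
  refine h1.trans (le_of_eq ?_)
  congr 1
  exact sum_congr rfl fun z hz => by rw [if_pos hz]

/-- **all hosts at once** -/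
theorem WSys.lemL_all (hρ : ∀ x ∈ A, ∀ y ∈ A, ρ x = ρ y → x = y) (h : WSys G F A C H tl)
    (hK : KDs F A C H tl X L w) (hU : UDs G F A C H tl X L w KP LP Us)
    {u om : ι → ℚ} (hu : ∀ x ∈ A, 0 < u x) (hom : ∀ j ∈ A, 0 ≤ om j) {gam : ι → ι → ι → ℚ}
    {J : ι → ι → V} {o gs : ι → ℚ}
    (hD : ∀ x ∈ A, HData G F A C H tl ρ X L w Lm KP LP Us (gam x) x (J x) (o x) (gs x))
    {vl : ι → ℚ} {lmJ : ι → ι → ι → ι → ℚ}
    (hV : ∀ j ∈ A, vl j ≤ ∑ x ∈ A.filter (fun x => ρ x < ρ j),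
        ∑ z ∈ A.filter (fun z => ρ j ≤ ρ z), JW G A C H ρ X w x (fun _ => Hin H tl A x)
        (fun _ c => (dg G (C x) c : ℚ)) (fun s t a => (dg G (Hin H tl A x) (w s t a) : ℚ))
        (lmJ j x) z)
    {W X2 : ι → ι → Finset V} {Lam : ι → ℚ} (hLam : ∀ z ∈ A, 0 ≤ Lam z)
    (hW : ∀ x ∈ A, ∀ z ∈ A.erase x, ∀ v ∈ W x z, v ∈ H x ∧ LocAt G (A.erase x)
      (KW G F A C H tl ρ X L w KP LP x) (UW G ρ X Lm x) (J x) z v)
    (hX2 : ∀ x ∈ A, ∀ z ∈ A.erase x, X2 x z ⊆ C x)
    (hM : ∀ x ∈ A, ∀ z ∈ A.erase x, HallC G F A C H tl ρ X L w Lm KP LP (gam x) x (J x) z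
      (W x z) (X2 x z) (Lam z * (C z).card / u x)) :
    ∑ x ∈ A, u x * (o x + gs x
        + surW G A C ρ X Lm (gam x) x (J x) (W x) (fun z => Lam z * (C z).card / u x))
      + ∑ z ∈ A, Lam z * ((C z).card * (((A.erase z).biUnion fun x => W x z ∪ X2 x z).card : ℚ)
        - ∑ c ∈ C z, (dg G ((A.erase z).biUnion fun x => W x z ∪ X2 x z) c : ℚ)
        - ∑ x ∈ A.erase z, paidW G F A C H tl ρ X L w KP LP x z (W x z))
      + ∑ j ∈ A, om j * vl j
      ≤ ∑ x ∈ A, ∑ z ∈ A.erase x, (u x + Om A ρ om x z) / (C z).card * ee G (C z) (H x)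
        + ∑ y ∈ A, ∑ z ∈ A, (if ρ y < ρ z then ∑ p ∈ C y, ∑ c ∈ C z,
            (if G.Adj p c then cw A C ρ X Us u om (fun x z t => gam x z t + gam x t z) lmJ y z p c
              else 0) else 0)
        + ∑ s ∈ A, ∑ x ∈ A, (if ρ s < ρ x then ∑ g ∈ H s, ∑ q ∈ H x,
            (if G.Adj g q then chg A C tl ρ X L w u om (fun _ _ => 1) s x g q
              + chg A C tl ρ X L w u om (fun _ _ => 1) x s q g else 0) else 0) := by
  set mu : ι → ι → ℚ := fun x z => Lam z * (C z).card / u x with hmu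
  have hc0 : ∀ z ∈ A, (0 : ℚ) < (C z).card := fun z hz => by
    exact_mod_cast card_pos.2 (h.ne z hz)
  have hXC : ∀ s ∈ A, ∀ t ∈ A, s ≠ t → X s t ⊆ C s := fun s hs t ht hst => (hK s hs t ht hst).XP
  set T : ι → ℚ := fun x => o x + gs x + ∑ z ∈ A.erase x, mu x z * (((W x z) ∪ (X2 x z)).card : ℚ)
    + surW G A C ρ X Lm (gam x) x (J x) (W x) (mu x) with hT
  set R : ι → ℚ := fun x => ∑ z ∈ A.erase x, mu x z / (C z).card *
    (∑ c ∈ C z, (dg G ((W x z) ∪ (X2 x z)) c : ℚ)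
      + paidW G F A C H tl ρ X L w KP LP x z (W x z)) with hR
  have hTx : ∀ x ∈ A, T x ≤ ∑ z ∈ A.erase x, JW G A C H ρ X w x (fun z => arc H tl x z)
        (fun z c => ((Us x z c).card : ℚ))
        (fun s t a => ∑ q ∈ NF G H tl X L w x s t a, (fun _ _ => (1 : ℚ)) x q)
        ((fun x z t => gam x z t + gam x t z) x) z + R x := by
    intro x hx
    have h1 := (hD x hx).gain (W x) (X2 x) (mu x) (fun z hz => div_nonneg (mul_nonneg
      (hLam z (mem_of_mem_erase hz)) (Nat.cast_nonneg _)) (hu x hx).le) (hW x hx) (hX2 x hx)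
      (hM x hx)
    have h2 : ∀ s t a, ∑ q ∈ NF G H tl X L w x s t a, (fun _ _ => (1 : ℚ)) x q
        = ((NF G H tl X L w x s t a).card : ℚ) := by
      intro s t a
      rw [sum_const, nsmul_eq_mul, mul_one]
    simp only [h2]
    exact h1
  have hraw := wgt_raw (u := u) (om := om) (Us := Us) (f := fun _ _ => (1 : ℚ))
    (lm := fun x z t => gam x z t + gam x t z) (lmJ := lmJ) hρ hK hXC
    (fun x hx z hz hxz c hc a ha => hU.sub x hx z hz hxz c hc a ha)
    (fun x hx => (hu x hx).le) hom hTx hV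
  -- the located points of one host at one row
  have hterm : ∀ x ∈ A, ∀ z ∈ A.erase x, u x * (mu x z / (C z).card) = Lam z := by
    intro x hx z hz
    have k1 := (hu x hx).ne'
    have k2 := (hc0 z (mem_of_mem_erase hz)).ne'
    rw [hmu]
    field_simp
  have hterm2 : ∀ x ∈ A, ∀ z ∈ A.erase x, u x * mu x z = Lam z * (C z).card := by
    intro x hx z hz
    have k1 := (hu x hx).ne'
    rw [hmu]
    field_simp
  have hdis : ∀ z ∈ A, ∀ x ∈ A.erase z, ∀ y ∈ A.erase z, x ≠ y →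
      Disjoint (W x z ∪ X2 x z) (W y z ∪ X2 y z) := by
    intro z hz x hx y hy hxy
    have hxA := mem_of_mem_erase hx
    have hyA := mem_of_mem_erase hy
    have hzx : z ∈ A.erase x := mem_erase.2 ⟨(ne_of_mem_erase hx).symm, hz⟩
    have hzy : z ∈ A.erase y := mem_erase.2 ⟨(ne_of_mem_erase hy).symm, hz⟩
    have s1 : W x z ∪ X2 x z ⊆ H x ∪ C x := union_subset_union
      (fun v hv => (hW x hxA z hzx v hv).1) (hX2 x hxA z hzx)
    have s2 : W y z ∪ X2 y z ⊆ H y ∪ C y := union_subset_union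
      (fun v hv => (hW y hyA z hzy v hv).1) (hX2 y hyA z hzy)
    refine Disjoint.mono s1 s2 ?_
    rw [disjoint_union_left, disjoint_union_right, disjoint_union_right]
    exact ⟨⟨h.dHH x hxA y hyA hxy, h.dHC x hxA y hyA⟩, (h.dHC y hyA x hxA).symm,
      h.dCC x hxA y hyA hxy⟩
  have hcard : ∀ z ∈ A, (((A.erase z).biUnion fun x => W x z ∪ X2 x z).card : ℚ)
      = ∑ x ∈ A.erase z, ((W x z ∪ X2 x z).card : ℚ) := by
    intro z hz
    rw [card_biUnion (fun x hx y hy hxy => hdis z hz x hx y hy hxy)]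
    push_cast
    rfl
  have hdg : ∀ z ∈ A, ∀ c : V, (dg G ((A.erase z).biUnion fun x => W x z ∪ X2 x z) c : ℚ)
      = ∑ x ∈ A.erase z, (dg G (W x z ∪ X2 x z) c : ℚ) := by
    intro z hz c
    unfold dg
    rw [filter_biUnion, card_biUnion (fun x hx y hy hxy =>
      disjoint_filter_filter (hdis z hz x hx y hy hxy))]
    push_cast
    rfl
  -- exchange of hosts and rows
  have hsw : ∀ f : ι → ι → ℚ, ∑ x ∈ A, ∑ z ∈ A.erase x, f x z
      = ∑ z ∈ A, ∑ x ∈ A.erase z, f x z := by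
    intro f
    rw [sum_comm' (s' := fun z => A.erase z) (t' := A) (by
      intro x z
      simp only [mem_erase, ne_eq]
      tauto)]
  have hL : ∑ x ∈ A, u x * T x = ∑ x ∈ A, u x * (o x + gs x
        + surW G A C ρ X Lm (gam x) x (J x) (W x) (mu x))
      + ∑ z ∈ A, Lam z * ((C z).card * (((A.erase z).biUnion fun x => W x z ∪ X2 x z).card : ℚ)) := by
    have e1 : ∑ z ∈ A, Lam z * ((C z).card
          * (((A.erase z).biUnion fun x => W x z ∪ X2 x z).card : ℚ))
        = ∑ x ∈ A, u x * ∑ z ∈ A.erase x, mu x z * (((W x z) ∪ (X2 x z)).card : ℚ) := by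
      have e2 : ∀ x ∈ A, u x * ∑ z ∈ A.erase x, mu x z * (((W x z) ∪ (X2 x z)).card : ℚ)
          = ∑ z ∈ A.erase x, Lam z * (C z).card * ((W x z ∪ X2 x z).card : ℚ) := by
        intro x hx
        rw [mul_sum]
        refine sum_congr rfl fun z hz => ?_
        rw [← mul_assoc, hterm2 x hx z hz]
      rw [sum_congr rfl e2, hsw]
      refine sum_congr rfl fun z hz => ?_
      rw [hcard z hz, ← mul_sum, mul_assoc]
    rw [e1, ← sum_add_distrib]
    refine sum_congr rfl fun x _ => ?_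
    rw [hT]
    ring
  have hRR : ∑ x ∈ A, u x * R x = ∑ z ∈ A, Lam z *
      (∑ c ∈ C z, (dg G ((A.erase z).biUnion fun x => W x z ∪ X2 x z) c : ℚ)
        + ∑ x ∈ A.erase z, paidW G F A C H tl ρ X L w KP LP x z (W x z)) := by
    have e2 : ∀ x ∈ A, u x * R x = ∑ z ∈ A.erase x, Lam z *
        (∑ c ∈ C z, (dg G ((W x z) ∪ (X2 x z)) c : ℚ)
          + paidW G F A C H tl ρ X L w KP LP x z (W x z)) := by
      intro x hx
      rw [hR]
      beta_reduce
      rw [mul_sum]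
      refine sum_congr rfl fun z hz => ?_
      rw [← mul_assoc, hterm x hx z hz]
    rw [sum_congr rfl e2, hsw]
    refine sum_congr rfl fun z hz => ?_
    rw [← mul_sum, sum_add_distrib]
    congr 2
    rw [sum_comm]
    exact sum_congr rfl fun c _ => (hdg z hz c).symm
  have hfin : ∑ z ∈ A, Lam z * ((C z).card * (((A.erase z).biUnion fun x => W x z ∪ X2 x z).card : ℚ)
        - ∑ c ∈ C z, (dg G ((A.erase z).biUnion fun x => W x z ∪ X2 x z) c : ℚ)
        - ∑ x ∈ A.erase z, paidW G F A C H tl ρ X L w KP LP x z (W x z))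
      = ∑ z ∈ A, Lam z * ((C z).card * (((A.erase z).biUnion fun x => W x z ∪ X2 x z).card : ℚ))
        - ∑ z ∈ A, Lam z *
      (∑ c ∈ C z, (dg G ((A.erase z).biUnion fun x => W x z ∪ X2 x z) c : ℚ)
        + ∑ x ∈ A.erase z, paidW G F A C H tl ρ X L w KP LP x z (W x z)) := by
    rw [← sum_sub_distrib]
    exact sum_congr rfl fun z _ => by ring
  rw [hL, hRR] at hraw
  rw [hfin]
  linarith

end LemWR

end Pool.Agent.Lib.MP_f04ccf_co
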