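import Pool.Agent.Lib.MP_f04ccf_co.M.LemL

/-!
MP_f04ccf_co: the excess of a column over the cheapest transversal.  `xc`: excess; `key_sum_ex`: from a
certificate for every column to the sum over all rows, with arbitrary unpaid misses `ex`; `xc_hall`: the
certificate for points seen by one row; `multi_le`: several rows are exchanged at once (LEMMA L2, notes
16202, 16209, 16210).
-/

set_option autoImplicit false

namespace Pool.Agent.Lib.MP_f04ccf_co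

open Finset

attribute [local instance] Classical.propDecidable

section LemX

variable {ι V P : Type*}

/-- the excess of the column `c` of the row `z` over the transversal `J` -/
noncomputable def xc (Y : Finset ι) (a : ι → V → ℕ) (g : ι → ι → V → V → ℕ) (T : ι → V → ℚ)
    (J : ι → V) (z : ι) (c : V) : ℚ :=
  ((a z c : ℚ) - a z (J z)) + (∑ y ∈ Y.erase z, (g y z (J y) c : ℚ)
    - ∑ y ∈ Y.erase z, (g y z (J y) (J z) : ℚ)) + (T z c - T z (J z))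

variable {Y : Finset ι} {C : ι → Finset V} {a : ι → V → ℕ} {g : ι → ι → V → V → ℕ}
  {T : ι → V → ℚ} {J : ι → V}

lemma update_mem (hJ : ∀ z ∈ Y, J z ∈ C z) {z : ι} {c : V} (hc : c ∈ C z) :
    ∀ y ∈ Y, Function.update J z c y ∈ C y := by
  intro y hy
  by_cases h : y = z
  · rw [h, Function.update_self]
    exact hc
  · rw [Function.update_of_ne h]
    exact hJ y hy

lemma FT_update_xc (hg : ∀ y z c d, g y z c d = g z y d c) (J : ι → V) {z : ι} (hz : z ∈ Y)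
    (c : V) : FT Y a g T (Function.update J z c) = FT Y a g T J + 2 * xc Y a g T J z c := by
  rw [FT_update hg J hz c]
  unfold xc
  ring

/-- the excess is not negative -/
lemma xc_nonneg (hg : ∀ y z c d, g y z c d = g z y d c) (hJ : ∀ z ∈ Y, J z ∈ C z)
    (hmin : ∀ J' : ι → V, (∀ z ∈ Y, J' z ∈ C z) → FT Y a g T J ≤ FT Y a g T J') {z : ι}
    (hz : z ∈ Y) {c : V} (hc : c ∈ C z) : 0 ≤ xc Y a g T J z c := by
  have h1 := hmin _ (update_mem hJ hc)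
  rw [FT_update_xc hg J hz c] at h1
  linarith

/-- **from the certificates of the columns to the sum over the rows** -/
theorem key_sum_ex (hJ : ∀ z ∈ Y, J z ∈ C z) {K : ι → V → Finset P} {W : ι → Finset P}
    {mu : ι → ℚ} {ex : ι → V → ℚ}
    (key : ∀ z ∈ Y, ∀ c ∈ C z, mu z * (((W z) \ (K z c)).card : ℚ)
      ≤ xc Y a g T J z c + ex z c) :
    ∑ z ∈ Y, (a z (J z) : ℚ) + ∑ z ∈ Y, ∑ y ∈ Y.erase z, (g y z (J y) (J z) : ℚ)
        + ∑ z ∈ Y, mu z * ((∑ c ∈ C z, (((W z) \ (K z c)).card : ℚ)) / (C z).card)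
        + ∑ z ∈ Y, T z (J z)
      ≤ ∑ z ∈ Y, (∑ c ∈ C z, (a z c : ℚ)) / (C z).card
        + ∑ z ∈ Y, (∑ c ∈ C z, T z c) / (C z).card
        + ∑ z ∈ Y, ∑ y ∈ Y.erase z, gav C g y z (J y)
        + ∑ z ∈ Y, (∑ c ∈ C z, ex z c) / (C z).card := by
  have avg : ∀ z ∈ Y, mu z * ((∑ c ∈ C z, (((W z) \ (K z c)).card : ℚ)) / (C z).card)
      ≤ ((∑ c ∈ C z, (a z c : ℚ)) / (C z).card - a z (J z))
        + (∑ y ∈ Y.erase z, gav C g y z (J y) - ∑ y ∈ Y.erase z, (g y z (J y) (J z) : ℚ))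
        + ((∑ c ∈ C z, T z c) / (C z).card - T z (J z))
        + (∑ c ∈ C z, ex z c) / (C z).card := by
    intro z hz
    have hc0 : (0 : ℚ) < (C z).card := by exact_mod_cast card_pos.2 ⟨_, hJ z hz⟩
    have h1 := sum_le_sum fun c hc => key z hz c hc
    unfold xc at h1
    rw [← mul_sum] at h1
    simp only [sum_add_distrib, sum_sub_distrib, sum_const, nsmul_eq_mul] at h1
    have g1 : ∑ c ∈ C z, ∑ y ∈ Y.erase z, (g y z (J y) c : ℚ)
        = (C z).card * ∑ y ∈ Y.erase z, gav C g y z (J y) := by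
      rw [sum_comm, mul_sum]
      refine sum_congr rfl fun y _ => ?_
      unfold gav
      rw [mul_div_cancel₀ _ hc0.ne']
    rw [g1] at h1
    have m1 : ∑ c ∈ C z, (((W z) \ (K z c)).card : ℚ)
        = (C z).card * ((∑ c ∈ C z, (((W z) \ (K z c)).card : ℚ)) / (C z).card) :=
      (mul_div_cancel₀ _ hc0.ne').symm
    have m2 : ∑ c ∈ C z, (a z c : ℚ) = (C z).card * ((∑ c ∈ C z, (a z c : ℚ)) / (C z).card) :=
      (mul_div_cancel₀ _ hc0.ne').symm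
    have m3 : ∑ c ∈ C z, T z c = (C z).card * ((∑ c ∈ C z, T z c) / (C z).card) :=
      (mul_div_cancel₀ _ hc0.ne').symm
    have m4 : ∑ c ∈ C z, ex z c = (C z).card * ((∑ c ∈ C z, ex z c) / (C z).card) :=
      (mul_div_cancel₀ _ hc0.ne').symm
    rw [m1, m2, m3, m4] at h1
    generalize (∑ c ∈ C z, (((W z) \ (K z c)).card : ℚ)) / (C z).card = m' at h1 ⊢
    generalize (∑ c ∈ C z, (a z c : ℚ)) / (C z).card = a' at h1 ⊢
    generalize (∑ c ∈ C z, T z c) / (C z).card = t' at h1 ⊢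
    generalize (∑ c ∈ C z, ex z c) / (C z).card = k' at h1 ⊢
    refine le_of_mul_le_mul_left ?_ hc0
    linarith
  have tot := sum_le_sum avg
  simp only [sum_add_distrib, sum_sub_distrib] at tot
  linarith

/-- what the rows outside `Z` and their cells see at the transversal `J` -/
noncomputable def RZ (Y : Finset ι) (K : ι → V → Finset P) (U : ι → ι → V → V → Finset P)
    (J : ι → V) (Z : Finset ι) : Finset P :=
  ((Y \ Z).biUnion fun y => K y (J y)) ∪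
    (Y \ Z).biUnion fun y => ((Y \ Z).erase y).biUnion fun y' => U y' y (J y') (J y)

lemma mem_RZ {K : ι → V → Finset P} {U : ι → ι → V → V → Finset P} {Z : Finset ι} {v : P} :
    v ∈ RZ Y K U J Z ↔ (∃ y ∈ Y \ Z, v ∈ K y (J y)) ∨
      ∃ y ∈ Y \ Z, ∃ y' ∈ (Y \ Z).erase y, v ∈ U y' y (J y') (J y) := by
  unfold RZ
  rw [mem_union, mem_biUnion, mem_biUnion]
  refine or_congr Iff.rfl (exists_congr fun y => and_congr_right fun _ => ?_)
  rw [mem_biUnion]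

lemma RZ_singleton {K : ι → V → Finset P} {U : ι → ι → V → V → Finset P} (z : ι) :
    RZ Y K U J {z} = Rz Y K U J z := by
  unfold RZ Rz
  rw [sdiff_singleton_eq_erase]

/-- the transversal with new columns in the rows of `Z` -/
noncomputable def upZ (Z : Finset ι) (J c : ι → V) : ι → V := fun y => if y ∈ Z then c y else J y

/-- the column `c z` does not pay `v`, and no cell with a row outside `Z` has it -/
def Expo (Y : Finset ι) (K : ι → V → Finset P) (U : ι → ι → V → V → Finset P) (J : ι → V)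
    (Z : Finset ι) (z : ι) (c : V) (v : P) : Prop :=
  v ∉ K z c ∧ ∀ y ∈ Y \ Z, v ∉ U y z (J y) c

/-- where the points of the new cover come from -/
lemma upZ_cases {K : ι → V → Finset P} {U : ι → ι → V → V → Finset P} {D : (ι → V) → Finset P}
    (hDm : ∀ J : ι → V, (∀ z ∈ Y, J z ∈ C z) → ∀ v ∈ D J, (∃ z ∈ Y, v ∈ K z (J z)) ∨
      ∃ z ∈ Y, ∃ y ∈ Y.erase z, v ∈ U y z (J y) (J z))
    (hUs : ∀ y z c e, U y z c e = U z y e c) (hJ : ∀ z ∈ Y, J z ∈ C z) {Z : Finset ι}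
    {c : ι → V} (hc : ∀ z ∈ Z, c z ∈ C z) {v : P} (hv : v ∈ D (upZ Z J c)) :
    v ∈ RZ Y K U J Z ∨ (∃ z ∈ Z ∩ Y, v ∈ K z (c z)) ∨
      (∃ z ∈ Z ∩ Y, ∃ y ∈ Y \ Z, v ∈ U y z (J y) (c z)) ∨
      ∃ z ∈ Z ∩ Y, ∃ y ∈ (Z ∩ Y).erase z, v ∈ U y z (c y) (c z) := by
  have e1 : ∀ y, y ∈ Z → upZ Z J c y = c y := fun y hy => if_pos hy
  have e2 : ∀ y, y ∉ Z → upZ Z J c y = J y := fun y hy => if_neg hy
  have hJ' : ∀ y ∈ Y, upZ Z J c y ∈ C y := by
    intro y hy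
    by_cases h : y ∈ Z
    · rw [e1 y h]
      exact hc y h
    · rw [e2 y h]
      exact hJ y hy
  rcases hDm _ hJ' v hv with ⟨z, hz, h1⟩ | ⟨z, hz, y, hy, h1⟩
  · by_cases h : z ∈ Z
    · rw [e1 z h] at h1
      exact Or.inr (Or.inl ⟨z, mem_inter.2 ⟨h, hz⟩, h1⟩)
    · rw [e2 z h] at h1
      exact Or.inl (mem_RZ.2 (Or.inl ⟨z, mem_sdiff.2 ⟨hz, h⟩, h1⟩))
  · have hyY := mem_of_mem_erase hy
    have hne := ne_of_mem_erase hy
    by_cases h : z ∈ Z <;> by_cases h' : y ∈ Z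
    · rw [e1 z h, e1 y h'] at h1
      exact Or.inr (Or.inr (Or.inr ⟨z, mem_inter.2 ⟨h, hz⟩, y,
        mem_erase.2 ⟨hne, mem_inter.2 ⟨h', hyY⟩⟩, h1⟩))
    · rw [e1 z h, e2 y h'] at h1
      exact Or.inr (Or.inr (Or.inl ⟨z, mem_inter.2 ⟨h, hz⟩, y, mem_sdiff.2 ⟨hyY, h'⟩, h1⟩))
    · rw [e2 z h, e1 y h', hUs] at h1
      exact Or.inr (Or.inr (Or.inl ⟨y, mem_inter.2 ⟨h', hyY⟩, z, mem_sdiff.2 ⟨hz, h⟩, h1⟩))
    · rw [e2 z h, e2 y h'] at h1
      exact Or.inl (mem_RZ.2 (Or.inr ⟨z, mem_sdiff.2 ⟨hz, h⟩, y,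
        mem_erase.2 ⟨hne, mem_sdiff.2 ⟨hyY, h'⟩⟩, h1⟩))

/-- **several rows are exchanged at once**: a point `v` which the rows outside `Z` do not see, and
which no new column pays, has all its partners in the new cover -/
theorem multi_le (hT : ∀ z c, 0 ≤ T z c) {X : Finset P}
    {N : P → Finset P} {K : ι → V → Finset P}
    {U : ι → ι → V → V → Finset P} {D : (ι → V) → Finset P}
    (hKa : ∀ z ∈ Y, ∀ c ∈ C z, (K z c).card ≤ a z c)
    (hU : ∀ y z c e, (U y z c e).card ≤ g y z c e)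
    (hDm : ∀ J : ι → V, (∀ z ∈ Y, J z ∈ C z) → ∀ v ∈ D J, (∃ z ∈ Y, v ∈ K z (J z)) ∨
      ∃ z ∈ Y, ∃ y ∈ Y.erase z, v ∈ U y z (J y) (J z))
    (hUs : ∀ y z c e, U y z c e = U z y e c)
    (hDN : ∀ J : ι → V, (∀ z ∈ Y, J z ∈ C z) → ∀ v ∈ X, v ∉ D J → N v ⊆ D J)
    (hJ : ∀ z ∈ Y, J z ∈ C z) {Z : Finset ι} (hZ : Z ⊆ Y) {c : ι → V} (hc : ∀ z ∈ Z, c z ∈ C z)
    {v : P} (hvX : v ∈ X) (hvR : v ∉ RZ Y K U J Z) (hE : ∀ z ∈ Z, Expo Y K U J Z z (c z) v)
    (hcell : ∀ z ∈ Z, ∀ y ∈ Z.erase z, v ∉ U y z (c y) (c z)) :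
    2 * (((N v) \ RZ Y K U J Z).card : ℚ)
      ≤ 2 * ∑ z ∈ Z, (xc Y a g T J z (c z) + a z (J z)
          + ∑ y ∈ Y.erase z, (g y z (J y) (J z) : ℚ) + T z (J z))
        + ∑ z ∈ Z, ∑ y ∈ Z.erase z, (g y z (c y) (c z) : ℚ) := by
  have hJ' : ∀ y ∈ Y, upZ Z J c y ∈ C y := by
    intro y hy
    unfold upZ
    split_ifs with h
    · exact hc y h
    · exact hJ y hy
  have hZY : Z ∩ Y = Z := inter_eq_left.2 hZ
  have hvD : v ∉ D (upZ Z J c) := by
    intro h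
    rcases upZ_cases hDm hUs hJ hc h with h1 | ⟨z, hz, h1⟩ | ⟨z, hz, y, hy, h1⟩ | ⟨z, hz, y, hy, h1⟩
    · exact hvR h1
    · exact (hE z (mem_inter.1 hz).1).1 h1
    · exact (hE z (mem_inter.1 hz).1).2 y hy h1
    · rw [hZY] at hz hy
      exact hcell z hz y hy h1
  have hsub := hDN _ hJ' v hvX hvD
  have h1 : (N v) \ RZ Y K U J Z ⊆ (Z.biUnion fun z => K z (c z)) ∪
      ((Z.biUnion fun z => (Y \ Z).biUnion fun y => U y z (J y) (c z)) ∪
        ((Z ×ˢ Z).filter fun p => p.2 ≠ p.1).biUnion fun p => U p.2 p.1 (c p.2) (c p.1)) := by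
    intro q hq
    obtain ⟨q1, q2⟩ := mem_sdiff.1 hq
    rcases upZ_cases hDm hUs hJ hc (hsub q1) with h1 | ⟨z, hz, h1⟩ | ⟨z, hz, y, hy, h1⟩ |
      ⟨z, hz, y, hy, h1⟩
    · exact absurd h1 q2
    · exact mem_union_left _ (mem_biUnion.2 ⟨z, (mem_inter.1 hz).1, h1⟩)
    · exact mem_union_right _ (mem_union_left _ (mem_biUnion.2 ⟨z, (mem_inter.1 hz).1,
        mem_biUnion.2 ⟨y, hy, h1⟩⟩))
    · rw [hZY] at hz hy
      exact mem_union_right _ (mem_union_right _ (mem_biUnion.2 ⟨(z, y), mem_filter.2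
        ⟨mem_product.2 ⟨hz, mem_of_mem_erase hy⟩, ne_of_mem_erase hy⟩, h1⟩))
  -- the cells inside `Z` come in mirror pairs
  set Q := (Z ×ˢ Z).filter (fun p : ι × ι => p.2 ≠ p.1) with hQ
  have h2 : 2 * (Q.biUnion fun p => U p.2 p.1 (c p.2) (c p.1)).card
      ≤ ∑ p ∈ Q, (U p.2 p.1 (c p.2) (c p.1)).card := by
    set S := Q.biUnion fun p => U p.2 p.1 (c p.2) (c p.1) with hS
    have h3 : ∑ p ∈ Q, (U p.2 p.1 (c p.2) (c p.1)).card
        = ∑ s ∈ S, (Q.filter fun p => s ∈ U p.2 p.1 (c p.2) (c p.1)).card := by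
      have h4 : ∀ p ∈ Q, (U p.2 p.1 (c p.2) (c p.1)).card
          = ∑ s ∈ S, if s ∈ U p.2 p.1 (c p.2) (c p.1) then 1 else 0 := by
        intro p hp
        rw [← card_filter]
        congr 1
        ext s
        rw [mem_filter]
        exact ⟨fun h => ⟨mem_biUnion.2 ⟨p, hp, h⟩, h⟩, fun h => h.2⟩
      rw [sum_congr rfl h4, sum_comm]
      exact sum_congr rfl fun s _ => (card_filter _ _).symm
    rw [h3, mul_comm, ← smul_eq_mul, ← sum_const]
    refine sum_le_sum fun s hs => ?_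
    obtain ⟨⟨z, y⟩, hp, hps⟩ := mem_biUnion.1 hs
    obtain ⟨p1, p2⟩ := mem_filter.1 hp
    obtain ⟨p3, p4⟩ := mem_product.1 p1
    simp only at p2 p3 p4 hps
    have h5 : ({(z, y), (y, z)} : Finset (ι × ι)) ⊆ Q.filter fun p => s ∈ U p.2 p.1 (c p.2) (c p.1) := by
      intro p hp'
      rcases mem_insert.1 hp' with h6 | h6
      · rw [h6]
        exact mem_filter.2 ⟨hp, hps⟩
      · rw [mem_singleton.1 h6]
        refine mem_filter.2 ⟨mem_filter.2 ⟨mem_product.2 ⟨p4, p3⟩, p2.symm⟩, ?_⟩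
        rw [hUs]
        exact hps
    have h6 : ({(z, y), (y, z)} : Finset (ι × ι)).card = 2 := by
      refine card_pair fun h => p2 ?_
      exact (Prod.ext_iff.1 h).2
    rw [← h6]
    exact card_le_card h5
  have h3 : ∑ p ∈ Q, (U p.2 p.1 (c p.2) (c p.1)).card
      ≤ ∑ z ∈ Z, ∑ y ∈ Z.erase z, g y z (c y) (c z) := by
    have h4 : ∑ z ∈ Z, ∑ y ∈ Z.erase z, g y z (c y) (c z)
        = ∑ p ∈ Q, g p.2 p.1 (c p.2) (c p.1) := by
      rw [hQ, sum_filter, sum_product]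
      refine sum_congr rfl fun z hz => ?_
      rw [← sum_erase_add Z _ hz, if_neg (fun h => h rfl), add_zero]
      exact sum_congr rfl fun y hy => (if_pos (ne_of_mem_erase hy)).symm
    rw [h4]
    exact sum_le_sum fun p _ => hU _ _ _ _
  have h4 : (Z.biUnion fun z => K z (c z)).card ≤ ∑ z ∈ Z, a z (c z) :=
    card_biUnion_le.trans (sum_le_sum fun z hz => hKa z (hZ hz) _ (hc z hz))
  have h5 : (Z.biUnion fun z => (Y \ Z).biUnion fun y => U y z (J y) (c z)).card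
      ≤ ∑ z ∈ Z, ∑ y ∈ Y \ Z, g y z (J y) (c z) :=
    card_biUnion_le.trans (sum_le_sum fun z _ => card_biUnion_le.trans
      (sum_le_sum fun y _ => hU _ _ _ _))
  have h6 : 2 * ((N v) \ RZ Y K U J Z).card ≤ 2 * ∑ z ∈ Z, a z (c z)
      + 2 * ∑ z ∈ Z, ∑ y ∈ Y \ Z, g y z (J y) (c z)
      + ∑ z ∈ Z, ∑ y ∈ Z.erase z, g y z (c y) (c z) := by
    have h7 := (card_le_card h1).trans ((card_union_le _ _).trans
      (Nat.add_le_add_left (card_union_le _ _) _))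
    omega
  have h7 : 2 * (((N v) \ RZ Y K U J Z).card : ℚ) ≤ 2 * ∑ z ∈ Z, (a z (c z) : ℚ)
      + 2 * ∑ z ∈ Z, ∑ y ∈ Y \ Z, (g y z (J y) (c z) : ℚ)
      + ∑ z ∈ Z, ∑ y ∈ Z.erase z, (g y z (c y) (c z) : ℚ) := by
    exact_mod_cast h6
  have h8 : ∀ z ∈ Z, (a z (c z) : ℚ) + ∑ y ∈ Y \ Z, (g y z (J y) (c z) : ℚ)
      ≤ xc Y a g T J z (c z) + a z (J z) + ∑ y ∈ Y.erase z, (g y z (J y) (J z) : ℚ)
        + T z (J z) := by
    intro z hz
    have h9 : ∑ y ∈ Y \ Z, (g y z (J y) (c z) : ℚ) ≤ ∑ y ∈ Y.erase z, (g y z (J y) (c z) : ℚ) := by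
      refine sum_le_sum_of_subset_of_nonneg ?_ (fun _ _ _ => Nat.cast_nonneg _)
      intro y hy
      obtain ⟨y1, y2⟩ := mem_sdiff.1 hy
      exact mem_erase.2 ⟨fun h => y2 (by rw [h]; exact hz), y1⟩
    have h10 := hT z (c z)
    unfold xc
    linarith
  have h9 := sum_le_sum h8
  rw [sum_add_distrib] at h9
  linarith

/-- **the excess of a column which misses an independent set of located points** (Hall form) -/
theorem xc_hall {X : Finset P}
    {N : P → Finset P} {K : ι → V → Finset P}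
    {U : ι → ι → V → V → Finset P} {D : (ι → V) → Finset P}
    (hKa : ∀ z ∈ Y, ∀ c ∈ C z, (K z c).card ≤ a z c)
    (hU : ∀ y z c e, (U y z c e).card ≤ g y z c e)
    (hDm : ∀ J : ι → V, (∀ z ∈ Y, J z ∈ C z) → ∀ v ∈ D J, (∃ z ∈ Y, v ∈ K z (J z)) ∨
      ∃ z ∈ Y, ∃ y ∈ Y.erase z, v ∈ U y z (J y) (J z))
    (hUs : ∀ y z c e, U y z c e = U z y e c)
    (hDN : ∀ J : ι → V, (∀ z ∈ Y, J z ∈ C z) → ∀ v ∈ X, v ∉ D J → N v ⊆ D J)
    (hJ : ∀ z ∈ Y, J z ∈ C z) {z : ι} (hz : z ∈ Y) {c : V} (hc : c ∈ C z) {M : Finset P}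
    (hM : ∀ v ∈ M, v ∈ X ∧ v ∉ Rz Y K U J z ∧ v ∉ K z c ∧ ∀ y ∈ Y.erase z, v ∉ U y z (J y) c) :
    (((M.biUnion N) \ Rz Y K U J z).card : ℚ) + T z c
      ≤ xc Y a g T J z c + T z (J z) + a z (J z) + ∑ y ∈ Y.erase z, (g y z (J y) (J z) : ℚ) ∧
    ∀ v ∈ M, ∀ w ∈ M, w ∉ N v := by
  have hout : ∀ v ∈ M, v ∉ D (Function.update J z c) := by
    intro v hv
    obtain ⟨-, w2, w3, w4⟩ := hM v hv
    rw [mem_Rz, not_or] at w2
    push Not at w2
    exact notMem_update hDm hUs hJ hc w2.1 w2.2 w3 w4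
  have hin : ∀ v ∈ M, N v ⊆ D (Function.update J z c) := fun v hv =>
    hDN _ (update_mem hJ hc) v (hM v hv).1 (hout v hv)
  refine ⟨?_, fun v hv w hw h => hout w hw (hin v hv h)⟩
  have h6 : (M.biUnion N) \ Rz Y K U J z
      ⊆ K z c ∪ (Y.erase z).biUnion (fun y => U y z (J y) c) := by
    intro p hp
    obtain ⟨p1, p2⟩ := mem_sdiff.1 hp
    obtain ⟨v, hv, p3⟩ := mem_biUnion.1 p1
    have p4 := hin v hv p3
    by_contra hcon
    rw [mem_union, not_or, mem_biUnion] at hcon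
    push Not at hcon
    rw [mem_Rz, not_or] at p2
    push Not at p2
    exact notMem_update hDm hUs hJ hc p2.1 p2.2 hcon.1 hcon.2 p4
  have h7 : ((M.biUnion N) \ Rz Y K U J z).card ≤ a z c + ∑ y ∈ Y.erase z, g y z (J y) c :=
    (card_le_card h6).trans ((card_union_le _ _).trans (Nat.add_le_add (hKa z hz c hc)
      (card_biUnion_le.trans (sum_le_sum fun y _ => hU _ _ _ _))))
  have h8 : (((M.biUnion N) \ Rz Y K U J z).card : ℚ)
      ≤ a z c + ∑ y ∈ Y.erase z, (g y z (J y) c : ℚ) := by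
    exact_mod_cast h7
  unfold xc
  linarith

/-- **LEMMA L2, any number of rows**: cheap columns of the rows of `Z` which all expose `v` have a cell
with a correction between them -/
theorem multi_rows (hT : ∀ z c, 0 ≤ T z c) {X : Finset P}
    {N : P → Finset P} {K : ι → V → Finset P}
    {U : ι → ι → V → V → Finset P} {D : (ι → V) → Finset P}
    (hKa : ∀ z ∈ Y, ∀ c ∈ C z, (K z c).card ≤ a z c)
    (hU : ∀ y z c e, (U y z c e).card ≤ g y z c e)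
    (hg0 : ∀ y z c e, U y z c e = ∅ → g y z c e = 0)
    (hDm : ∀ J : ι → V, (∀ z ∈ Y, J z ∈ C z) → ∀ v ∈ D J, (∃ z ∈ Y, v ∈ K z (J z)) ∨
      ∃ z ∈ Y, ∃ y ∈ Y.erase z, v ∈ U y z (J y) (J z))
    (hUs : ∀ y z c e, U y z c e = U z y e c)
    (hDN : ∀ J : ι → V, (∀ z ∈ Y, J z ∈ C z) → ∀ v ∈ X, v ∉ D J → N v ⊆ D J)
    (hJ : ∀ z ∈ Y, J z ∈ C z) {Z : Finset ι} (hZ : Z ⊆ Y) (hne : Z.Nonempty) {v : P}
    (hvX : v ∈ X) (hvR : v ∉ RZ Y K U J Z) {th : ι → ℚ}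
    (hth : ∑ z ∈ Z, (th z + a z (J z) + ∑ y ∈ Y.erase z, (g y z (J y) (J z) : ℚ) + T z (J z))
      ≤ ((N v) \ RZ Y K U J Z).card)
    {c : ι → V} (hc : ∀ z ∈ Z, c z ∈ C z) (hE : ∀ z ∈ Z, Expo Y K U J Z z (c z) v)
    (hx : ∀ z ∈ Z, xc Y a g T J z (c z) < th z) :
    ∃ z ∈ Z, ∃ y ∈ Z.erase z, U y z (c y) (c z) ≠ ∅ := by
  by_contra hcon
  push Not at hcon
  have h1 := multi_le (N := N) hT hKa hU hDm hUs hDN hJ hZ hc hvX hvR hE
    (fun z hz y hy => by rw [hcon z hz y hy]; exact notMem_empty _)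
  have h2 : ∑ z ∈ Z, ∑ y ∈ Z.erase z, (g y z (c y) (c z) : ℚ) = 0 :=
    sum_eq_zero fun z hz => sum_eq_zero fun y hy => by
      rw [hg0 y z _ _ (hcon z hz y hy), Nat.cast_zero]
  have h3 := sum_lt_sum_of_nonempty hne hx
  rw [h2] at h1
  simp only [sum_add_distrib] at h1 hth
  linarith

/-- **no cells between the rows of `Z`**: one row has only dear columns which expose `v` -/
theorem multi_free (hT : ∀ z c, 0 ≤ T z c) {X : Finset P}
    {N : P → Finset P} {K : ι → V → Finset P}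
    {U : ι → ι → V → V → Finset P} {D : (ι → V) → Finset P}
    (hKa : ∀ z ∈ Y, ∀ c ∈ C z, (K z c).card ≤ a z c)
    (hU : ∀ y z c e, (U y z c e).card ≤ g y z c e)
    (hg0 : ∀ y z c e, U y z c e = ∅ → g y z c e = 0)
    (hDm : ∀ J : ι → V, (∀ z ∈ Y, J z ∈ C z) → ∀ v ∈ D J, (∃ z ∈ Y, v ∈ K z (J z)) ∨
      ∃ z ∈ Y, ∃ y ∈ Y.erase z, v ∈ U y z (J y) (J z))
    (hUs : ∀ y z c e, U y z c e = U z y e c)
    (hDN : ∀ J : ι → V, (∀ z ∈ Y, J z ∈ C z) → ∀ v ∈ X, v ∉ D J → N v ⊆ D J)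
    (hJ : ∀ z ∈ Y, J z ∈ C z) {Z : Finset ι} (hZ : Z ⊆ Y) (hne : Z.Nonempty) {v : P}
    (hvX : v ∈ X) (hvR : v ∉ RZ Y K U J Z) {th : ι → ℚ}
    (hth : ∑ z ∈ Z, (th z + a z (J z) + ∑ y ∈ Y.erase z, (g y z (J y) (J z) : ℚ) + T z (J z))
      ≤ ((N v) \ RZ Y K U J Z).card)
    (hfree : ∀ z ∈ Z, ∀ y ∈ Z.erase z, ∀ c ∈ C y, ∀ e ∈ C z, U y z c e = ∅) :
    ∃ z ∈ Z, ∀ c ∈ C z, Expo Y K U J Z z c v → th z ≤ xc Y a g T J z c := by
  by_contra hcon
  push Not at hcon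
  obtain ⟨z0, hz0⟩ := hne
  obtain ⟨c0, -⟩ := hcon z0 hz0
  have : Nonempty V := ⟨c0⟩
  choose! c hc using hcon
  obtain ⟨z, hz, y, hy, h1⟩ := multi_rows (N := N) hT hKa hU hg0 hDm hUs hDN hJ hZ ⟨z0, hz0⟩ hvX
    hvR hth (fun z hz => (hc z hz).1) (fun z hz => (hc z hz).2.1) (fun z hz => (hc z hz).2.2)
  exact h1 (hfree z hz y hy _ (hc y (mem_of_mem_erase hy)).1 _ (hc z hz).1)

/-- **LEMMA L2**: a point seen by the rows `y` and `z` only; all cheap columns of the row `y` which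
expose it have a correction with all cheap columns of the row `z` which expose it -/
theorem two_rows (hT : ∀ z c, 0 ≤ T z c) {X : Finset P}
    {N : P → Finset P} {K : ι → V → Finset P}
    {U : ι → ι → V → V → Finset P} {D : (ι → V) → Finset P}
    (hKa : ∀ z ∈ Y, ∀ c ∈ C z, (K z c).card ≤ a z c)
    (hU : ∀ y z c e, (U y z c e).card ≤ g y z c e)
    (hg0 : ∀ y z c e, U y z c e = ∅ → g y z c e = 0)
    (hDm : ∀ J : ι → V, (∀ z ∈ Y, J z ∈ C z) → ∀ v ∈ D J, (∃ z ∈ Y, v ∈ K z (J z)) ∨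
      ∃ z ∈ Y, ∃ y ∈ Y.erase z, v ∈ U y z (J y) (J z))
    (hUs : ∀ y z c e, U y z c e = U z y e c)
    (hDN : ∀ J : ι → V, (∀ z ∈ Y, J z ∈ C z) → ∀ v ∈ X, v ∉ D J → N v ⊆ D J)
    (hJ : ∀ z ∈ Y, J z ∈ C z) {y z : ι} (hy : y ∈ Y) (hz : z ∈ Y) (hyz : y ≠ z) {v : P}
    (hvX : v ∈ X) (hvR : v ∉ RZ Y K U J {y, z}) {ty tz : ℚ}
    (hth : ty + a y (J y) + ∑ x ∈ Y.erase y, (g x y (J x) (J y) : ℚ) + T y (J y)
      + (tz + a z (J z) + ∑ x ∈ Y.erase z, (g x z (J x) (J z) : ℚ) + T z (J z))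
      ≤ ((N v) \ RZ Y K U J {y, z}).card) {c e : V} (hc : c ∈ C y) (he : e ∈ C z)
    (hcE : Expo Y K U J {y, z} y c v) (heE : Expo Y K U J {y, z} z e v)
    (hcx : xc Y a g T J y c < ty) (hex : xc Y a g T J z e < tz) : U y z c e ≠ ∅ := by
  set cc : ι → V := fun x => if x = y then c else e with hcc
  have e1 : cc y = c := if_pos rfl
  have e2 : cc z = e := if_neg hyz.symm
  set th : ι → ℚ := fun x => if x = y then ty else tz with hthd
  have t1 : th y = ty := if_pos rfl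
  have t2 : th z = tz := if_neg hyz.symm
  have hfor : ∀ (p : ι → Prop), p y → p z → ∀ x ∈ ({y, z} : Finset ι), p x := by
    intro p h1 h2 x hx
    rcases mem_insert.1 hx with h | h
    · rw [h]
      exact h1
    · rw [mem_singleton.1 h]
      exact h2
  obtain ⟨x, hx, x', hx', h1⟩ := multi_rows (N := N) (Z := {y, z}) (c := cc) (th := th) hT hKa hU
    hg0 hDm hUs hDN hJ (hfor (fun x => x ∈ Y) hy hz) ⟨y, mem_insert_self _ _⟩ hvX hvR
    (by rw [sum_pair hyz, t1, t2]; exact hth)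
    (hfor (fun x => cc x ∈ C x) (by rw [e1]; exact hc) (by rw [e2]; exact he))
    (hfor (fun x => Expo Y K U J {y, z} x (cc x) v) (by rw [e1]; exact hcE)
      (by rw [e2]; exact heE))
    (hfor (fun x => xc Y a g T J x (cc x) < th x) (by rw [e1, t1]; exact hcx)
      (by rw [e2, t2]; exact hex))
  have hx'' := mem_of_mem_erase hx'
  have hne := ne_of_mem_erase hx'
  rcases mem_insert.1 hx with h | h <;> rcases mem_insert.1 hx'' with h' | h'
  · exact absurd (h'.trans h.symm) hne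
  · rw [h, mem_singleton.1 h', e1, e2, hUs] at h1
    exact h1
  · rw [mem_singleton.1 h, h', e1, e2] at h1
    exact h1
  · exact absurd ((mem_singleton.1 h').trans (mem_singleton.1 h).symm) hne

/-- **mixed certificate of a column**: Hall points `W1` and threshold points `W2`; the points in
cells with other rows and the points in exceptional columns are not paid -/
theorem cert_mix {K : ι → V → Finset P} {U : ι → ι → V → V → Finset P} {z : ι} {c : V}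
    {W1 W2 : Finset P} {mu x : ℚ} (hmu : 0 ≤ mu) {Zs : P → Finset ι}
    {Ex : P → Finset V}
    (h1 : mu * (((W1 \ K z c).filter fun v => ∀ y ∈ Y.erase z, v ∉ U y z (J y) c).card : ℚ) ≤ x)
    (h2 : ∀ v ∈ W2, c ∉ Ex v → Expo Y K U J (Zs v) z c v → mu * ((W1 ∪ W2).card : ℚ) ≤ x) :
    mu * (((W1 ∪ W2) \ K z c).card : ℚ) ≤ x + mu *
      (((((W1 \ K z c).filter fun v => ¬ ∀ y ∈ Y.erase z, v ∉ U y z (J y) c).card : ℕ) : ℚ)
      + (((W2.filter fun v => c ∈ Ex v ∨ (v ∉ K z c ∧ ∃ y ∈ Y \ Zs v, v ∈ U y z (J y) c)).card :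
        ℕ) : ℚ)) := by
  set B1 := (W1 \ K z c).filter fun v => ¬ ∀ y ∈ Y.erase z, v ∉ U y z (J y) c with hB1
  set G1 := (W1 \ K z c).filter fun v => ∀ y ∈ Y.erase z, v ∉ U y z (J y) c with hG1
  set B2 := W2.filter fun v => c ∈ Ex v ∨ (v ∉ K z c ∧ ∃ y ∈ Y \ Zs v, v ∈ U y z (J y) c)
    with hB2
  have hb : (0 : ℚ) ≤ mu * ((B1.card : ℚ) + B2.card) := by positivity
  by_cases hex : ∃ v ∈ W2, v ∉ K z c ∧ v ∉ B2
  · obtain ⟨v, hv, hvK, hvB⟩ := hex
    have h3 : c ∉ Ex v ∧ Expo Y K U J (Zs v) z c v := by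
      rw [hB2, mem_filter, not_and, not_or] at hvB
      obtain ⟨h4, h5⟩ := hvB hv
      refine ⟨h4, hvK, fun y hy h6 => h5 ⟨hvK, y, hy, h6⟩⟩
    have h4 := h2 v hv h3.1 h3.2
    have h5 : ((((W1 ∪ W2) \ K z c).card : ℕ) : ℚ) ≤ (W1 ∪ W2).card := by
      exact_mod_cast card_le_card sdiff_subset
    have h6 := mul_le_mul_of_nonneg_left h5 hmu
    linarith
  · push Not at hex
    have h3 : (W1 ∪ W2) \ K z c ⊆ G1 ∪ (B1 ∪ B2) := by
      intro v hv
      obtain ⟨v1, v2⟩ := mem_sdiff.1 hv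
      rcases mem_union.1 v1 with h4 | h4
      · by_cases h5 : ∀ y ∈ Y.erase z, v ∉ U y z (J y) c
        · exact mem_union_left _ (mem_filter.2 ⟨mem_sdiff.2 ⟨h4, v2⟩, h5⟩)
        · exact mem_union_right _ (mem_union_left _ (mem_filter.2 ⟨mem_sdiff.2 ⟨h4, v2⟩, h5⟩))
      · exact mem_union_right _ (mem_union_right _ (hex v h4 v2))
    have h4 : ((W1 ∪ W2) \ K z c).card ≤ G1.card + (B1.card + B2.card) :=
      (card_le_card h3).trans ((card_union_le _ _).trans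
        (Nat.add_le_add_left (card_union_le _ _) _))
    have h5 : ((((W1 ∪ W2) \ K z c).card : ℕ) : ℚ) ≤ G1.card + (B1.card + B2.card) := by
      exact_mod_cast h4
    have h6 := mul_le_mul_of_nonneg_left h5 hmu
    rw [mul_add] at h6
    linarith

end LemX

end Pool.Agent.Lib.MP_f04ccf_co
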