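import Pool.Agent.Lib.MP_f04ccf_co.M.LemXW

/-!
MP_f04ccf_co: LOCATION of the points of the cover which a cheapest transversal makes (S2_E5, sections
1, 1b).  `ZS p`: rows which see the point `p`; `CHp th p z`: the columns of `z` which expose `p` and are
cheaper than the threshold `th z`; `LowP`: few partners outside what the other rows see; `loc_all`: a
point which is not low has a row with few cheap columns; `HostL.host_loc`, `WSys.host_loc`: the line.
-/

set_option autoImplicit false

namespace Pool.Agent.Lib.MP_f04ccf_co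

open Finset

attribute [local instance] Classical.propDecidable

section Trans

variable {ι V : Type*}

/-- a transversal without bad pairs, by averages -/
lemma exists_trans [Nonempty V] {S : ι → Finset V} {bad : ι → ι → V → V → Prop}
    (hsym : ∀ y z c e, bad y z c e → bad z y e c) {q : ℚ} (hq : 0 ≤ q) (Z : Finset ι) :
    (∀ z ∈ Z, (S z).Nonempty) →
    (∀ y ∈ Z, ∀ z ∈ Z, y ≠ z → (((S y ×ˢ S z).filter fun p => bad y z p.1 p.2).card : ℚ)
      ≤ q * ((S y).card * (S z).card)) →
    ∀ lam : ι → V → ℚ, (∀ z c, 0 ≤ lam z c) →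
      ∑ z ∈ Z, (∑ c ∈ S z, lam z c) / (S z).card + q * (Z.card.choose 2 : ℕ) < 1 →
      ∃ c : ι → V, (∀ z ∈ Z, c z ∈ S z) ∧ (∀ z ∈ Z, lam z (c z) < 1) ∧
        ∀ z ∈ Z, ∀ y ∈ Z.erase z, ¬ bad y z (c y) (c z) := by
  induction Z using Finset.induction_on with
  | empty =>
    intro _ _ lam _ _
    exact ⟨fun _ => Classical.arbitrary V, fun _ h => absurd h (notMem_empty _),
      fun _ h => absurd h (notMem_empty _), fun _ h => absurd h (notMem_empty _)⟩
  | insert a Z ha ih =>
    intro hne hbad lam hlam hsum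
    have hne' : ∀ z ∈ Z, (S z).Nonempty := fun z hz => hne z (mem_insert_of_mem hz)
    have hcp : ∀ z ∈ insert a Z, (0 : ℚ) < (S z).card := fun z hz => by
      exact_mod_cast card_pos.2 (hne z hz)
    have haz : ∀ z ∈ Z, a ≠ z := fun z hz h => ha (by rw [h]; exact hz)
    rw [sum_insert ha, card_insert_of_notMem ha] at hsum
    have hch : (((Z.card + 1).choose 2 : ℕ) : ℚ) = Z.card + (Z.card.choose 2 : ℕ) := by
      have h1 : (Z.card + 1).choose 2 = Z.card + Z.card.choose 2 := by
        rw [Nat.choose_succ_succ' Z.card 1, Nat.choose_one_right]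
      rw [h1]
      push_cast
      ring
    rw [hch] at hsum
    -- the averages over the first row
    have h1 : ∑ c ∈ S a, (lam a c + ∑ z ∈ Z, (∑ e ∈ S z, (lam z e
        + if bad a z c e then (1 : ℚ) else 0)) / (S z).card)
        ≤ ∑ c ∈ S a, ((∑ c ∈ S a, lam a c) / (S a).card
          + ∑ z ∈ Z, (∑ e ∈ S z, lam z e) / (S z).card + q * Z.card) := by
      rw [sum_const, nsmul_eq_mul, sum_add_distrib]
      have h2 : ∑ c ∈ S a, ∑ z ∈ Z, (∑ e ∈ S z, (lam z e
          + if bad a z c e then (1 : ℚ) else 0)) / (S z).card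
          ≤ ∑ z ∈ Z, ((S a).card * ((∑ e ∈ S z, lam z e) / (S z).card) + q * (S a).card) := by
        rw [sum_comm]
        refine sum_le_sum fun z hz => ?_
        have h3 : ∑ c ∈ S a, ∑ e ∈ S z, (if bad a z c e then (1 : ℚ) else 0)
            = ((S a ×ˢ S z).filter fun p => bad a z p.1 p.2).card := by
          rw [card_filter, sum_product]
          push_cast
          rfl
        rw [← sum_div]
        simp only [sum_add_distrib]
        rw [h3, sum_const, nsmul_eq_mul, add_div, mul_div_assoc]
        refine add_le_add (le_refl _) ?_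
        rw [div_le_iff₀ (hcp z (mem_insert_of_mem hz)), mul_assoc]
        exact hbad a (mem_insert_self _ _) z (mem_insert_of_mem hz) (haz z hz)
      have h4 : ∑ c ∈ S a, lam a c = (S a).card * ((∑ c ∈ S a, lam a c) / (S a).card) :=
        (mul_div_cancel₀ _ (hcp a (mem_insert_self _ _)).ne').symm
      rw [sum_add_distrib, ← mul_sum, sum_const, nsmul_eq_mul] at h2
      calc _ ≤ (S a).card * ((∑ c ∈ S a, lam a c) / (S a).card)
            + ((S a).card * ∑ z ∈ Z, (∑ e ∈ S z, lam z e) / (S z).card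
              + (Z.card : ℚ) * (q * (S a).card)) := add_le_add (le_of_eq h4) h2
        _ = _ := by ring
    obtain ⟨c0, hc0, hv⟩ := exists_le_of_sum_le (hne a (mem_insert_self _ _)) h1
    obtain ⟨c, k1, k2, k3⟩ := ih hne'
      (fun y hy z hz => hbad y (mem_insert_of_mem hy) z (mem_insert_of_mem hz))
      (fun z e => lam z e + if bad a z c0 e then (1 : ℚ) else 0)
      (fun z e => by
        have := hlam z e
        split_ifs <;> linarith) (by
        have h5 := hlam a c0
        linarith)
    refine ⟨Function.update c a c0, ?_, ?_, ?_⟩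
    · intro z hz
      rcases mem_insert.1 hz with h | h
      · rw [h, Function.update_self]
        exact hc0
      · rw [Function.update_of_ne (haz z h).symm]
        exact k1 z h
    · intro z hz
      rcases mem_insert.1 hz with h | h
      · rw [h, Function.update_self]
        have h6 : 0 ≤ ∑ z ∈ Z, (∑ e ∈ S z, (lam z e
            + if bad a z c0 e then (1 : ℚ) else 0)) / (S z).card := by
          refine sum_nonneg fun z _ => div_nonneg (sum_nonneg fun e _ => ?_) (Nat.cast_nonneg _)
          have := hlam z e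
          split_ifs <;> linarith
        have h7 : 0 ≤ q * ((Z.card.choose 2 : ℕ) : ℚ) := mul_nonneg hq (Nat.cast_nonneg _)
        linarith
      · rw [Function.update_of_ne (haz z h).symm]
        have h8 := k2 z h
        beta_reduce at h8
        split_ifs at h8 with h9
        · have := hlam z (c z)
          linarith
        · linarith
    · intro z hz y hy
      obtain ⟨hyz, hy'⟩ := mem_erase.1 hy
      have hcell : ∀ x ∈ Z, ¬ bad a x c0 (c x) := by
        intro x hx hb
        have h8 := k2 x hx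
        beta_reduce at h8
        rw [if_pos hb] at h8
        have := hlam x (c x)
        linarith
      rcases mem_insert.1 hz with h | h <;> rcases mem_insert.1 hy' with h' | h'
      · exact absurd (h'.trans h.symm) hyz
      · rw [h, Function.update_self, Function.update_of_ne (haz y h').symm]
        exact fun hb => hcell y h' (hsym _ _ _ _ hb)
      · rw [h', Function.update_self, Function.update_of_ne (haz z h).symm]
        exact hcell z h
      · rw [Function.update_of_ne (haz z h).symm, Function.update_of_ne (haz y h').symm]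
        exact k3 z h y (mem_erase.2 ⟨hyz, h'⟩)

/-- big sets have a transversal without bad pairs -/
lemma exists_trans' [Nonempty V] {S : ι → Finset V} {bad : ι → ι → V → V → Prop}
    (hsym : ∀ y z c e, bad y z c e → bad z y e c) {Q : ℕ} {Z : Finset ι}
    (hQ : ∀ y ∈ Z, ∀ z ∈ Z, y ≠ z → ((S y ×ˢ S z).filter fun p => bad y z p.1 p.2).card ≤ Q)
    (hS : ∀ z ∈ Z, Z.card.choose 2 * Q < (S z).card ^ 2) :
    ∃ c : ι → V, (∀ z ∈ Z, c z ∈ S z) ∧ ∀ z ∈ Z, ∀ y ∈ Z.erase z, ¬ bad y z (c y) (c z) := by
  set M := Z.card.choose 2 * Q + 1 with hM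
  have hM0 : (0 : ℚ) < M := by
    rw [hM]
    positivity
  have hne : ∀ z ∈ Z, (S z).Nonempty := by
    intro z hz
    rw [nonempty_iff_ne_empty]
    intro h
    have h1 := hS z hz
    rw [h, card_empty] at h1
    omega
  obtain ⟨c, h1, -, h2⟩ := exists_trans hsym (q := Q / M) (by positivity) Z hne (by
      intro y hy z hz hyz
      have h3 : (((S y ×ˢ S z).filter fun p => bad y z p.1 p.2).card : ℚ) ≤ Q := by
        exact_mod_cast hQ y hy z hz hyz
      have h4 : M ≤ (S y).card * (S z).card := by
        by_contra hcon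
        push Not at hcon
        have h5 := hS y hy
        have h6 := hS z hz
        have h7 : M ≤ (S y).card ^ 2 := h5
        have h8 : M ≤ (S z).card ^ 2 := h6
        have h9 : M * M ≤ (S y).card ^ 2 * (S z).card ^ 2 := Nat.mul_le_mul h7 h8
        have h10 : (S y).card ^ 2 * (S z).card ^ 2
            = ((S y).card * (S z).card) * ((S y).card * (S z).card) := by ring
        rw [h10] at h9
        have h11 := Nat.mul_lt_mul'' hcon hcon
        omega
      have h5 : (M : ℚ) ≤ (S y).card * (S z).card := by exact_mod_cast h4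
      calc _ ≤ (Q : ℚ) := h3
        _ = Q / M * M := (div_mul_cancel₀ _ hM0.ne').symm
        _ ≤ _ := mul_le_mul_of_nonneg_left h5 (by positivity)) (fun _ _ => 0)
    (fun _ _ => le_refl _) (by
      rw [sum_eq_zero fun z _ => by rw [sum_const_zero, zero_div], zero_add, div_mul_eq_mul_div,
        div_lt_one hM0, hM]
      push_cast
      linarith [mul_comm (Q : ℚ) ((Z.card.choose 2 : ℕ) : ℚ)])
  exact ⟨c, h1, h2⟩

end Trans

section LemXK

attribute [-instance] instDecidableEqSum

variable {ι V : Type*} {G F : SimpleGraph V} {tl : V → ι} {H P : Finset V} {B : Finset ι}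
  {K : ι → V → Finset V} {U : ι → ι → V → V → Finset V} {C : ι → Finset V} {T : ι → V → ℚ}
  {J : ι → V}

variable (G H P) in
/-- the rows which see the point `p` -/
noncomputable def ZS (B : Finset ι) (K : ι → V → Finset V) (J : ι → V)
    (p : V ⊕ (Σ _ : ι, V)) : Finset ι := B.filter fun z => p ∈ KSp G H P K z (J z)

variable (G H P) in
/-- the cheap columns of the row `z` which expose `p` -/
noncomputable def CHp (B : Finset ι) (C : ι → Finset V) (K : ι → V → Finset V)
    (U : ι → ι → V → V → Finset V) (T : ι → V → ℚ) (J : ι → V) (th : ι → ℚ)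
    (p : V ⊕ (Σ _ : ι, V)) (z : ι) : Finset V :=
  (C z).filter fun c => Expo B (KSp G H P K) (USp U) J (ZS G H P B K J p) z c p ∧
    xcH G H B K U T J z c < th z

variable (G H P) in
/-- `p` lies in no cell of the transversal outside its rows -/
def Clr (B : Finset ι) (K : ι → V → Finset V) (U : ι → ι → V → V → Finset V) (J : ι → V)
    (p : V ⊕ (Σ _ : ι, V)) : Prop :=
  p ∉ RZ B (KSp G H P K) (USp U) J (ZS G H P B K J p)

variable (G F) in
/-- `p` has few partners outside what the rows which do not see it see -/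
def LowP (tl : V → ι) (H P : Finset V) (B : Finset ι) (K : ι → V → Finset V)
    (U : ι → ι → V → V → Finset V) (T : ι → V → ℚ) (J : ι → V) (th : ι → ℚ)
    (p : V ⊕ (Σ _ : ι, V)) : Prop :=
  (((NSp F tl H P p) \ RZ B (KSp G H P K) (USp U) J (ZS G H P B K J p)).card : ℚ)
    < ∑ z ∈ ZS G H P B K J p, (th z + aH G H K z (J z)
      + ∑ y ∈ B.erase z, ((U y z (J y) (J z)).card : ℚ) + T z (J z))

/-- the cell of the columns `c`, `e` has a correction -/
def CellP (U : ι → ι → V → V → Finset V) (y z : ι) (c e : V) : Prop := (U y z c e).Nonempty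

lemma mem_ZS {p : V ⊕ (Σ _ : ι, V)} {z : ι} :
    z ∈ ZS G H P B K J p ↔ z ∈ B ∧ p ∈ KSp G H P K z (J z) := by
  unfold ZS
  rw [mem_filter]

lemma CHp_sub {th : ι → ℚ} {p : V ⊕ (Σ _ : ι, V)} {z : ι} :
    CHp G H P B C K U T J th p z ⊆ C z := filter_subset _ _

lemma ZS_sub {p : V ⊕ (Σ _ : ι, V)} : ZS G H P B K J p ⊆ B := filter_subset _ _

/-- **a point of the cover which is not low is located**: one of its rows has few cheap columns -/
theorem HostL.loc_all (h : HostL G F tl H P B C K U) (hT : ∀ z c, 0 ≤ T z c)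
    (hJ : ∀ z ∈ B, J z ∈ C z) {th : ι → ℚ} {p : V ⊕ (Σ _ : ι, V)}
    (hp : p ∈ H.disjSum (B.sigma fun _ => P)) (hcl : Clr G H P B K U J p)
    (hZ : (ZS G H P B K J p).Nonempty) (hlow : ¬ LowP G F tl H P B K U T J th p) {Q : ℕ}
    (hQ : ∀ y ∈ ZS G H P B K J p, ∀ z ∈ ZS G H P B K J p, y ≠ z →
      ((C y ×ˢ C z).filter fun q => CellP U y z q.1 q.2).card ≤ Q) :
    ∃ z ∈ ZS G H P B K J p, (CHp G H P B C K U T J th p z).card ^ 2
      ≤ (ZS G H P B K J p).card.choose 2 * Q := by
  by_contra hcon
  push Not at hcon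
  obtain ⟨z0, hz0⟩ := hZ
  have : Nonempty V := ⟨J z0⟩
  obtain ⟨c, h1, h2⟩ := exists_trans' (S := CHp G H P B C K U T J th p)
    (bad := CellP U) (fun y z c e h3 => by unfold CellP; rw [h.hUs]; exact h3) (Q := Q)
    (Z := ZS G H P B K J p) (fun y hy z hz hyz => by
      refine (card_le_card fun q hq => ?_).trans (hQ y hy z hz hyz)
      rw [mem_filter] at hq ⊢
      obtain ⟨q3, q4⟩ := mem_product.1 hq.1
      exact ⟨mem_product.2 ⟨CHp_sub q3, CHp_sub q4⟩, hq.2⟩)
    hcon
  have h3 : ∀ z ∈ ZS G H P B K J p, c z ∈ C z ∧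
      Expo B (KSp G H P K) (USp U) J (ZS G H P B K J p) z (c z) p ∧
      xcH G H B K U T J z (c z) < th z := fun z hz => by
    have h4 := h1 z hz
    unfold CHp at h4
    exact mem_filter.1 h4
  obtain ⟨z, hz, y, hy, h4⟩ := h.multi_rows hT hJ (th := th) ZS_sub ⟨z0, hz0⟩ hp hcl
    (by
      unfold LowP at hlow
      exact not_lt.1 hlow) (fun z hz => (h3 z hz).1) (fun z hz => (h3 z hz).2.1)
    (fun z hz => (h3 z hz).2.2)
  exact h2 z hz y hy (nonempty_iff_ne_empty.2 h4)

/-- the unpaid misses of a column -/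
noncomputable def unL (G : SimpleGraph V) (H P : Finset V) (B : Finset ι) (C : ι → Finset V)
    (K : ι → V → Finset V) (U : ι → ι → V → V → Finset V) (T : ι → V → ℚ) (J : ι → V)
    (th : ι → ℚ) (W X2 : Finset V) (z : ι) (c : V) : ℕ :=
  ((WX z W X2).filter fun p => c ∈ CHp G H P B C K U T J th p z ∨
    (p ∉ KSp G H P K z c ∧ ∃ y ∈ B \ ZS G H P B K J p, p ∈ USp U y z (J y) c)).card

/-- **the certificate of a column**: located points -/
theorem cert_loc {th : ι → ℚ} {z : ι} {c : V} (hc : c ∈ C z) {W X2 : Finset V} {mu : ℚ}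
    (hmu : 0 ≤ mu) (hth : mu * ((W.card + X2.card : ℕ) : ℚ) ≤ th z)
    (hx : 0 ≤ xcH G H B K U T J z c) :
    mu * (((WX z W X2) \ KSp G H P K z c).card : ℚ) ≤ xcH G H B K U T J z c
      + mu * (unL G H P B C K U T J th W X2 z c : ℚ) := by
  unfold unL
  set N := (WX z W X2).filter fun p => c ∈ CHp G H P B C K U T J th p z ∨
    (p ∉ KSp G H P K z c ∧ ∃ y ∈ B \ ZS G H P B K J p, p ∈ USp U y z (J y) c) with hN
  have hb : (0 : ℚ) ≤ mu * (N.card : ℚ) := by positivity
  by_cases hex : ∃ p ∈ (WX z W X2) \ KSp G H P K z c, p ∉ N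
  · obtain ⟨p, hp, hpN⟩ := hex
    obtain ⟨p1, p2⟩ := mem_sdiff.1 hp
    rw [hN, mem_filter, not_and, not_or] at hpN
    obtain ⟨h3, h4⟩ := hpN p1
    have h5 : Expo B (KSp G H P K) (USp U) J (ZS G H P B K J p) z c p :=
      ⟨p2, fun y hy h6 => h4 ⟨p2, y, hy, h6⟩⟩
    have h6 : th z ≤ xcH G H B K U T J z c := by
      by_contra h7
      push Not at h7
      refine h3 ?_
      unfold CHp
      exact mem_filter.2 ⟨hc, h5, h7⟩
    have h7 : mu * (((WX z W X2) \ KSp G H P K z c).card : ℚ)
        ≤ mu * ((W.card + X2.card : ℕ) : ℚ) := by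
      refine mul_le_mul_of_nonneg_left ?_ hmu
      rw [← WX_card z W X2]
      exact_mod_cast card_le_card sdiff_subset
    linarith
  · push Not at hex
    have h3 : (((WX z W X2) \ KSp G H P K z c).card : ℚ) ≤ N.card := by
      exact_mod_cast card_le_card hex
    have h4 := mul_le_mul_of_nonneg_left h3 hmu
    linarith

/-- all unpaid misses of a row -/
lemma unL_sum {th : ι → ℚ} {z : ι} {W X2 : Finset V}
    (hz : ∀ p ∈ WX z W X2, z ∈ ZS G H P B K J p) :
    ∑ c ∈ C z, (unL G H P B C K U T J th W X2 z c : ℚ)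
      ≤ ∑ p ∈ WX z W X2, ((CHp G H P B C K U T J th p z).card : ℚ)
        + ∑ c ∈ C z, ∑ y ∈ B.erase z, (((U y z (J y) c) ∩ W).card : ℚ) := by
  have h1 : ∑ p ∈ WX z W X2, ((CHp G H P B C K U T J th p z).card : ℚ)
      = ∑ c ∈ C z, (((WX z W X2).filter fun p => c ∈ CHp G H P B C K U T J th p z).card : ℚ) := by
    have h2 : ∀ p ∈ WX z W X2, (CHp G H P B C K U T J th p z).card
        = ∑ c ∈ C z, if c ∈ CHp G H P B C K U T J th p z then 1 else 0 := by
      intro p _
      rw [← card_filter]
      congr 1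
      ext c
      rw [mem_filter]
      exact ⟨fun h3 => ⟨(mem_filter.1 h3).1, h3⟩, fun h3 => h3.2⟩
    have h3 : ∑ p ∈ WX z W X2, (CHp G H P B C K U T J th p z).card
        = ∑ c ∈ C z, ((WX z W X2).filter fun p => c ∈ CHp G H P B C K U T J th p z).card := by
      rw [sum_congr rfl h2, sum_comm]
      exact sum_congr rfl fun c _ => (card_filter _ _).symm
    exact_mod_cast h3
  rw [h1, ← sum_add_distrib]
  refine sum_le_sum fun c _ => ?_
  have h2 : unL G H P B C K U T J th W X2 z c
      ≤ ((WX z W X2).filter fun p => c ∈ CHp G H P B C K U T J th p z).card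
        + ∑ y ∈ B.erase z, ((U y z (J y) c) ∩ W).card := by
    unfold unL
    have h3 : ((WX z W X2).filter fun p => c ∈ CHp G H P B C K U T J th p z ∨
        (p ∉ KSp G H P K z c ∧ ∃ y ∈ B \ ZS G H P B K J p, p ∈ USp U y z (J y) c))
        ⊆ ((WX z W X2).filter fun p => c ∈ CHp G H P B C K U T J th p z) ∪
          (B.erase z).biUnion fun y => (USp U y z (J y) c) ∩
            (W.disjSum ∅ : Finset (V ⊕ (Σ _ : ι, V))) := by
      intro p hp
      obtain ⟨p1, p2⟩ := mem_filter.1 hp
      rcases p2 with p3 | ⟨-, y, hy, p4⟩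
      · exact mem_union_left _ (mem_filter.2 ⟨p1, p3⟩)
      · refine mem_union_right _ (mem_biUnion.2 ⟨y, ?_, mem_inter.2 ⟨p4, ?_⟩⟩)
        · obtain ⟨y1, y2⟩ := mem_sdiff.1 hy
          refine mem_erase.2 ⟨fun h4 => y2 ?_, y1⟩
          rw [h4]
          exact hz p p1
        · rcases p with v | q
          · rw [inl_mem_disjSum]
            unfold WX at p1
            exact inl_mem_disjSum.1 p1
          · exact absurd p4 notMem_USp_inr
    refine (card_le_card h3).trans ((card_union_le _ _).trans (Nat.add_le_add_left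
      (card_biUnion_le.trans (sum_le_sum fun y _ => ?_)) _))
    have h4 : ((USp U y z (J y) c) ∩ (W.disjSum ∅ : Finset (V ⊕ (Σ _ : ι, V))))
        ⊆ (((U y z (J y) c) ∩ W).disjSum ∅ : Finset (V ⊕ (Σ _ : ι, V))) := by
      intro p hp
      obtain ⟨p1, p2⟩ := mem_inter.1 hp
      rcases p with v | q
      · rw [inl_mem_disjSum, mem_inter]
        exact ⟨mem_USp_inl.1 p1, inl_mem_disjSum.1 p2⟩
      · exact absurd p1 notMem_USp_inr
    refine (card_le_card h4).trans ?_
    rw [card_disjSum, card_empty, add_zero]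
  exact_mod_cast h2

end LemXK

end Pool.Agent.Lib.MP_f04ccf_co
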