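import Pool.Agent.Lib.MP_f04ccf_co.M.LemX
import Pool.Agent.Lib.MP_f04ccf_co.M.LemW

/-!
MP_f04ccf_co: LEMMA L and LEMMA L2 for a host, with certificates of the columns.  `HostL.MinJ`: a
cheapest transversal; `HostL.sum_ex`: from the certificates to the sum; `HostL.xc_hall`,
`HostL.multi_rows`, `HostL.two_rows`, `HostL.multi_free`: certificates; `WSys.host_ex`: the host
hypothesis of `wgt_raw` / `WSys.budget` for a host of a weighted system, with unpaid misses `un`.
-/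

set_option autoImplicit false

namespace Pool.Agent.Lib.MP_f04ccf_co

open Finset

attribute [local instance] Classical.propDecidable

section LemXH

attribute [-instance] instDecidableEqSum

variable {ι V : Type*} {G F : SimpleGraph V} {tl : V → ι} {H P : Finset V} {B : Finset ι}
  {K : ι → V → Finset V} {U : ι → ι → V → V → Finset V} {C : ι → Finset V} {T : ι → V → ℚ}
  {J : ι → V}

variable (G H) in
/-- the load of a column with its cost set -/
noncomputable def aH (K : ι → V → Finset V) (z : ι) (c : V) : ℕ := dg G H c + (K z c).card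

/-- the size of the correction set of a cell -/
noncomputable def gH (U : ι → ι → V → V → Finset V) (y z : ι) (c e : V) : ℕ := (U y z c e).card

variable (G H) in
/-- a cheapest transversal -/
structure MinJ (B : Finset ι) (C : ι → Finset V) (K : ι → V → Finset V)
    (U : ι → ι → V → V → Finset V) (T : ι → V → ℚ) (J : ι → V) : Prop where
  tr : ∀ z ∈ B, J z ∈ C z
  mn : ∀ J' : ι → V, (∀ z ∈ B, J' z ∈ C z) → FT B (aH G H K) (gH U) T J ≤ FT B (aH G H K) (gH U) T J'

lemma exists_minH (T : ι → V → ℚ) (hC : ∀ z ∈ B, (C z).Nonempty) (v0 : V) :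
    ∃ J : ι → V, MinJ G H B C K U T J := by
  have : Nonempty V := ⟨v0⟩
  choose! c₀ hc₀ using hC
  obtain ⟨J, h1, h2⟩ := exists_minFT (C := C) (a := aH G H K) (g := gH U) T hc₀
  exact ⟨J, h1, h2⟩

variable (G H) in
/-- the excess of a column of the host -/
noncomputable def xcH (B : Finset ι) (K : ι → V → Finset V) (U : ι → ι → V → V → Finset V)
    (T : ι → V → ℚ) (J : ι → V) (z : ι) (c : V) : ℚ := xc B (aH G H K) (gH U) T J z c

lemma xcH_nonneg (hUs : ∀ y z c e, U y z c e = U z y e c) (hJ : MinJ G H B C K U T J) {z : ι}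
    (hz : z ∈ B) {c : V} (hc : c ∈ C z) : 0 ≤ xcH G H B K U T J z c :=
  xc_nonneg (fun y z c d => by unfold gH; rw [hUs]) hJ.tr hJ.mn hz hc

/-- the cost of the transversal without the cells -/
noncomputable def gsH (B : Finset ι) (U : ι → ι → V → V → Finset V) (J : ι → V) : ℚ :=
  (∑ z ∈ B, ∑ y ∈ B.erase z, ((U y z (J y) (J z)).card : ℚ)) / 2

lemma gsH_nonneg (B : Finset ι) (U : ι → ι → V → V → Finset V) (J : ι → V) : 0 ≤ gsH B U J := by
  unfold gsH
  positivity

variable (G H) in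
/-- the cost of the transversal -/
noncomputable def oH (B : Finset ι) (K : ι → V → Finset V) (U : ι → ι → V → V → Finset V)
    (J : ι → V) : ℚ := ∑ z ∈ B, (aH G H K z (J z) : ℚ) + gsH B U J

/-- **counting**: the cover, the copies and the members located at no row -/
theorem HostL.count' (h : HostL G F tl H P B C K U) (J : ι → V) :
    ((XJ G H B K U J).card : ℚ) + ∑ z ∈ B, ((K z (J z) ∩ P).card : ℚ)
        + (((XJ G H B K U J).filter fun v => ∀ z ∈ B, ¬ LocAt G B K U J z v).card : ℚ)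
      ≤ oH G H B K U J := by
  have h1 := h.count J
  have h2 : o2 B (fun z c => dg G H c + (K z c).card) (fun y z c e => (U y z c e).card) J
      = 2 * oH G H B K U J := by
    unfold o2 oH gsH aH
    ring
  rw [h2] at h1
  linarith

/-- the located members and copies of the row `z` -/
noncomputable def WX (z : ι) (W X2 : Finset V) : Finset (V ⊕ (Σ _ : ι, V)) :=
  W.disjSum (({z} : Finset ι).sigma fun _ => X2)

lemma WX_card (z : ι) (W X2 : Finset V) : (WX z W X2).card = W.card + X2.card := by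
  unfold WX
  rw [card_disjSum, card_sigma, sum_singleton]

/-- **from the certificates of the columns to the sum** -/
theorem HostL.sum_ex (h : HostL G F tl H P B C K U) (hJ : ∀ z ∈ B, J z ∈ C z)
    {W X2 : ι → Finset V} {mu : ι → ℚ} {un : ι → V → ℚ} (hmu : ∀ z ∈ B, 0 ≤ mu z)
    (hW : ∀ z ∈ B, W z ⊆ H) (hX2 : ∀ z ∈ B, X2 z ⊆ P)
    (hcert : ∀ z ∈ B, ∀ c ∈ C z, mu z * (((WX z (W z) (X2 z)) \ KSp G H P K z c).card : ℚ)
      ≤ xcH G H B K U T J z c + mu z * un z c) :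
    oH G H B K U J + gsH B U J + ∑ z ∈ B, mu z * (((W z) ∪ (X2 z)).card : ℚ) + ∑ z ∈ B, T z (J z)
      ≤ ∑ z ∈ B, (∑ c ∈ C z, ((dg G H c : ℚ) + (K z c).card
          + mu z * dg G ((W z) ∪ (X2 z)) c)) / (C z).card
        + ∑ z ∈ B, (∑ c ∈ C z, T z c) / (C z).card
        + ∑ z ∈ B, ∑ y ∈ B.erase z, gav C (gH U) y z (J y)
        + ∑ z ∈ B, mu z / (C z).card * (∑ c ∈ C z, un z c
          + ∑ v ∈ W z, (((C z).filter fun c => ¬ G.Adj c v ∧ v ∈ K z c).card : ℚ)) := by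
  have h1 := key_sum_ex (Y := B) (C := C) (a := aH G H K) (g := gH U) (T := T) (J := J) hJ
    (K := KSp G H P K) (W := fun z => WX z (W z) (X2 z)) (mu := mu)
    (ex := fun z c => mu z * un z c) hcert
  have gain : ∀ z ∈ B, mu z * (((W z) ∪ (X2 z)).card : ℚ)
      ≤ mu z * ((∑ c ∈ C z, (((WX z (W z) (X2 z)) \ KSp G H P K z c).card : ℚ)) / (C z).card)
        + (∑ c ∈ C z, (mu z * dg G ((W z) ∪ (X2 z)) c : ℚ)) / (C z).card
        + mu z * ((∑ v ∈ W z,
            (((C z).filter fun c => ¬ G.Adj c v ∧ v ∈ K z c).card : ℚ)) / (C z).card) :=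
    fun z hz => host_gain h.hHP (h.hKP z hz) (hW z hz) (hX2 z hz) (hmu z hz)
      (by exact_mod_cast card_pos.2 ⟨_, hJ z hz⟩)
  have h2 := sum_le_sum gain
  simp only [sum_add_distrib] at h2
  have h3 : ∑ z ∈ B, (∑ c ∈ C z, ((dg G H c : ℚ) + (K z c).card
        + mu z * dg G ((W z) ∪ (X2 z)) c)) / (C z).card
      = ∑ z ∈ B, (∑ c ∈ C z, (aH G H K z c : ℚ)) / (C z).card
        + ∑ z ∈ B, (∑ c ∈ C z, (mu z * dg G ((W z) ∪ (X2 z)) c : ℚ)) / (C z).card := by
    rw [← sum_add_distrib]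
    refine sum_congr rfl fun z _ => ?_
    rw [← add_div, ← sum_add_distrib]
    congr 1
    refine sum_congr rfl fun c _ => ?_
    unfold aH
    push_cast
    ring
  have h4 : ∑ z ∈ B, mu z / (C z).card * (∑ c ∈ C z, un z c
          + ∑ v ∈ W z, (((C z).filter fun c => ¬ G.Adj c v ∧ v ∈ K z c).card : ℚ))
      = ∑ z ∈ B, (∑ c ∈ C z, mu z * un z c) / (C z).card
        + ∑ z ∈ B, mu z * ((∑ v ∈ W z,
            (((C z).filter fun c => ¬ G.Adj c v ∧ v ∈ K z c).card : ℚ)) / (C z).card) := by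
    rw [← sum_add_distrib]
    refine sum_congr rfl fun z _ => ?_
    rw [← mul_sum]
    ring
  have h5 : ∑ z ∈ B, ∑ y ∈ B.erase z, (gH U y z (J y) (J z) : ℚ) = 2 * gsH B U J := by
    unfold gsH gH
    ring
  rw [h5] at h1
  rw [h3, h4]
  unfold oH
  linarith

/-- the certificate of independent located points (Hall form) -/
theorem HostL.xc_hall (h : HostL G F tl H P B C K U) (hJ : ∀ z ∈ B, J z ∈ C z) {z : ι}
    (hz : z ∈ B) {c : V} (hc : c ∈ C z) {M : Finset (V ⊕ (Σ _ : ι, V))}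
    (hM : ∀ v ∈ M, v ∈ H.disjSum (B.sigma fun _ => P) ∧ v ∉ Rz B (KSp G H P K) (USp U) J z ∧
      v ∉ KSp G H P K z c ∧ ∀ y ∈ B.erase z, v ∉ USp U y z (J y) c) :
    (((M.biUnion (NSp F tl H P)) \ Rz B (KSp G H P K) (USp U) J z).card : ℚ) + T z c
      ≤ xcH G H B K U T J z c + T z (J z) + aH G H K z (J z)
        + ∑ y ∈ B.erase z, ((U y z (J y) (J z)).card : ℚ) ∧
    ∀ v ∈ M, ∀ w ∈ M, w ∉ NSp F tl H P v :=
  Pool.Agent.Lib.MP_f04ccf_co.xc_hall (N := NSp F tl H P) (D := DSp G H P B K U)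
    (a := aH G H K) (g := gH U) (K := KSp G H P K) (U := USp U)
    (fun z _ c _ => KSp_card_le h.hHP z c) (fun y z c e => USp_card.le)
    (fun J _ p hp => DSp_sub hp) (fun y z c e => by unfold USp; rw [h.hUs])
    (fun J hJ p hp hpD => h.nbr hJ hp hpD) hJ hz hc hM

/-- **LEMMA L2 for a host, any number of rows** -/
theorem HostL.multi_rows (h : HostL G F tl H P B C K U) (hT : ∀ z c, 0 ≤ T z c)
    (hJ : ∀ z ∈ B, J z ∈ C z) {Z : Finset ι} (hZ : Z ⊆ B) (hne : Z.Nonempty)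
    {v : V ⊕ (Σ _ : ι, V)} (hvX : v ∈ H.disjSum (B.sigma fun _ => P))
    (hvR : v ∉ RZ B (KSp G H P K) (USp U) J Z) {th : ι → ℚ}
    (hth : ∑ z ∈ Z, (th z + aH G H K z (J z)
        + ∑ y ∈ B.erase z, ((U y z (J y) (J z)).card : ℚ) + T z (J z))
      ≤ ((NSp F tl H P v) \ RZ B (KSp G H P K) (USp U) J Z).card)
    {c : ι → V} (hc : ∀ z ∈ Z, c z ∈ C z)
    (hE : ∀ z ∈ Z, Expo B (KSp G H P K) (USp U) J Z z (c z) v)
    (hx : ∀ z ∈ Z, xcH G H B K U T J z (c z) < th z) :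
    ∃ z ∈ Z, ∃ y ∈ Z.erase z, U y z (c y) (c z) ≠ ∅ := by
  obtain ⟨z, hz, y, hy, h1⟩ := Pool.Agent.Lib.MP_f04ccf_co.multi_rows (N := NSp F tl H P)
    (D := DSp G H P B K U) (a := aH G H K) (g := gH U) (K := KSp G H P K) (U := USp U) hT
    (fun z _ c _ => KSp_card_le h.hHP z c) (fun y z c e => USp_card.le)
    (fun y z c e he => by
      have h2 := USp_card (U := U) (y := y) (z := z) (c := c) (e := e)
      rw [he, card_empty] at h2
      exact h2.symm)
    (fun J _ p hp => DSp_sub hp) (fun y z c e => by unfold USp; rw [h.hUs])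
    (fun J hJ p hp hpD => h.nbr hJ hp hpD) hJ hZ hne hvX hvR hth hc hE hx
  refine ⟨z, hz, y, hy, fun h2 => h1 ?_⟩
  unfold USp
  rw [h2]
  rfl

/-- **LEMMA L2 for a host**: two rows -/
theorem HostL.two_rows (h : HostL G F tl H P B C K U) (hT : ∀ z c, 0 ≤ T z c)
    (hJ : ∀ z ∈ B, J z ∈ C z) {y z : ι} (hy : y ∈ B) (hz : z ∈ B) (hyz : y ≠ z)
    {v : V ⊕ (Σ _ : ι, V)} (hvX : v ∈ H.disjSum (B.sigma fun _ => P))
    (hvR : v ∉ RZ B (KSp G H P K) (USp U) J {y, z}) {ty tz : ℚ}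
    (hth : ty + aH G H K y (J y) + ∑ x ∈ B.erase y, ((U x y (J x) (J y)).card : ℚ) + T y (J y)
      + (tz + aH G H K z (J z) + ∑ x ∈ B.erase z, ((U x z (J x) (J z)).card : ℚ) + T z (J z))
      ≤ ((NSp F tl H P v) \ RZ B (KSp G H P K) (USp U) J {y, z}).card) {c e : V}
    (hc : c ∈ C y) (he : e ∈ C z)
    (hcE : Expo B (KSp G H P K) (USp U) J {y, z} y c v)
    (heE : Expo B (KSp G H P K) (USp U) J {y, z} z e v)
    (hcx : xcH G H B K U T J y c < ty) (hex : xcH G H B K U T J z e < tz) :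
    U y z c e ≠ ∅ := by
  have h1 := Pool.Agent.Lib.MP_f04ccf_co.two_rows (N := NSp F tl H P)
    (D := DSp G H P B K U) (a := aH G H K) (g := gH U) (K := KSp G H P K) (U := USp U) hT
    (fun z _ c _ => KSp_card_le h.hHP z c) (fun y z c e => USp_card.le)
    (fun y z c e he => by
      have h2 := USp_card (U := U) (y := y) (z := z) (c := c) (e := e)
      rw [he, card_empty] at h2
      exact h2.symm)
    (fun J _ p hp => DSp_sub hp) (fun y z c e => by unfold USp; rw [h.hUs])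
    (fun J hJ p hp hpD => h.nbr hJ hp hpD) hJ hy hz hyz hvX hvR hth hc he hcE heE hcx hex
  intro h2
  refine h1 ?_
  unfold USp
  rw [h2]
  rfl

/-- the cells between the rows of `Z` are empty: one row has only dear columns which expose `v` -/
theorem HostL.multi_free (h : HostL G F tl H P B C K U) (hT : ∀ z c, 0 ≤ T z c)
    (hJ : ∀ z ∈ B, J z ∈ C z) {Z : Finset ι} (hZ : Z ⊆ B) (hne : Z.Nonempty)
    {v : V ⊕ (Σ _ : ι, V)} (hvX : v ∈ H.disjSum (B.sigma fun _ => P))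
    (hvR : v ∉ RZ B (KSp G H P K) (USp U) J Z) {th : ι → ℚ}
    (hth : ∑ z ∈ Z, (th z + aH G H K z (J z)
        + ∑ y ∈ B.erase z, ((U y z (J y) (J z)).card : ℚ) + T z (J z))
      ≤ ((NSp F tl H P v) \ RZ B (KSp G H P K) (USp U) J Z).card)
    (hfree : ∀ z ∈ Z, ∀ y ∈ Z.erase z, ∀ c ∈ C y, ∀ e ∈ C z, U y z c e = ∅) :
    ∃ z ∈ Z, ∀ c ∈ C z, Expo B (KSp G H P K) (USp U) J Z z c v →
      th z ≤ xcH G H B K U T J z c := by
  by_contra hcon
  push Not at hcon
  obtain ⟨z0, hz0⟩ := hne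
  obtain ⟨c0, -⟩ := hcon z0 hz0
  have : Nonempty V := ⟨c0⟩
  choose! c hc using hcon
  obtain ⟨z, hz, y, hy, h1⟩ := h.multi_rows hT hJ hZ ⟨z0, hz0⟩ hvX hvR hth
    (fun z hz => (hc z hz).1) (fun z hz => (hc z hz).2.1) (fun z hz => (hc z hz).2.2)
  exact h1 (hfree z hz y hy _ (hc y (mem_of_mem_erase hy)).1 _ (hc z hz).1)

end LemXH

section LemXW

attribute [-instance] instDecidableEqSum

variable {ι V : Type*} {G F : SimpleGraph V} {A : Finset ι} {C H : ι → Finset V} {tl : V → ι}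
  {ρ : ι → ℕ} {X L : ι → ι → Finset V} {w : ι → ι → V → V} {Lm : ι → ι → ι → Finset V}
  {KP LP Us : ι → ι → V → Finset V} {x : ι} {gam : ι → ι → ℚ} {J : ι → V}

/-- the weights of the points: prices of the cells -/
noncomputable def TW (G : SimpleGraph V) (A : Finset ι) (C : ι → Finset V)
    (X : ι → ι → Finset V) (gam : ι → ι → ℚ) (x z : ι) (c : V) : ℚ :=
  ∑ y ∈ (A.erase x).erase z, gam z y * dD G C X z y c

lemma dD_nonneg (y z : ι) (c : V) : 0 ≤ dD G C X y z c := by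
  unfold dD
  split_ifs
  · exact le_refl _
  · positivity

lemma TW_nonneg (hgam : ∀ y z, 0 ≤ gam y z) (z : ι) (c : V) : 0 ≤ TW G A C X gam x z c :=
  sum_nonneg fun _ _ => mul_nonneg (hgam _ _) (dD_nonneg _ _ _)

/-- **a host of a weighted system with certificates of the columns**: the host hypothesis of
`wgt_raw` and of `WSys.budget` -/
theorem WSys.host_ex (h : WSys G F A C H tl) (hK : KDs F A C H tl X L w)
    (hU : UDs G F A C H tl X L w KP LP Us)
    (hρ : ∀ x ∈ A, ∀ y ∈ A, ρ x = ρ y → x = y) (hLm : LMs F A H tl ρ Lm) (hx : x ∈ A)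
    (hJ : ∀ z ∈ A.erase x, J z ∈ C z) {W X2 : ι → Finset V} {mu : ι → ℚ} {un : ι → V → ℚ}
    (hmu : ∀ z ∈ A.erase x, 0 ≤ mu z) (hW : ∀ z ∈ A.erase x, W z ⊆ H x)
    (hX2 : ∀ z ∈ A.erase x, X2 z ⊆ C x)
    (hcert : ∀ z ∈ A.erase x, ∀ c ∈ C z, mu z * (((WX z (W z) (X2 z)) \
        KSp G (H x) (C x) (KW G F A C H tl ρ X L w KP LP x) z c).card : ℚ)
      ≤ xcH G (H x) (A.erase x) (KW G F A C H tl ρ X L w KP LP x) (UW G ρ X Lm x)
        (TW G A C X gam x) J z c + mu z * un z c) :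
    oH G (H x) (A.erase x) (KW G F A C H tl ρ X L w KP LP x) (UW G ρ X Lm x) J
        + gsH (A.erase x) (UW G ρ X Lm x) J
        + ∑ z ∈ A.erase x, mu z * (((W z) ∪ (X2 z)).card : ℚ)
        + ∑ z ∈ A.erase x, ∑ y ∈ (A.erase x).erase z,
          (gam y z - (LmS ρ Lm x y z).card) * dD G C X y z (J y)
      ≤ ∑ z ∈ A.erase x, JW G A C H ρ X w x (fun z => arc H tl x z)
          (fun z c => ((Us x z c).card : ℚ))
          (fun s t a => ((NF G H tl X L w x s t a).card : ℚ)) (fun z t => gam z t + gam t z) z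
        + ∑ z ∈ A.erase x, mu z / (C z).card * (∑ c ∈ C z, (dg G ((W z) ∪ (X2 z)) c : ℚ)
          + (∑ c ∈ C z, un z c + ∑ v ∈ W z, (((C z).filter fun c => ¬ G.Adj c v ∧
            v ∈ KW G F A C H tl ρ X L w KP LP x z c).card : ℚ))) := by
  have hH := h.hostL hK hU hρ hLm hx
  have h6 := hH.sum_ex (T := TW G A C X gam x) hJ hmu hW hX2 hcert
  have hXC : ∀ s ∈ A, ∀ t ∈ A, s ≠ t → X s t ⊆ C s := fun s hs t ht hst => (hK s hs t ht hst).XP
  have hJW := JW_ge (G := G) (w := w) (tl := tl) (H := H) hXC hx hρ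
    (fun z c => ((Us x z c).card : ℚ)) (fun s t a => ((NF G H tl X L w x s t a).card : ℚ)) gam
  rw [← hJW]
  have hcost : ∑ z ∈ A.erase x, (∑ c ∈ C z, ((dg G (H x) c : ℚ)
        + (KW G F A C H tl ρ X L w KP LP x z c).card + mu z * dg G ((W z) ∪ (X2 z)) c))
          / (C z).card
      ≤ ∑ z ∈ A.erase x, (∑ c ∈ C z, ((dg G (H x) c : ℚ)
        + ((if ρ x < ρ z ∧ c ∈ X z x then (dg G (arc H tl x z) (w z x c) : ℚ)
            else ((Us x z c).card : ℚ))
        + ∑ t ∈ A.erase x, (if z ≠ t ∧ c ∈ X z t then ((NF G H tl X L w x z t c).card : ℚ)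
            else 0)))) / (C z).card
        + ∑ z ∈ A.erase x, mu z / (C z).card * ∑ c ∈ C z, (dg G ((W z) ∪ (X2 z)) c : ℚ) := by
    rw [← sum_add_distrib]
    refine sum_le_sum fun z hz => ?_
    rw [div_mul_eq_mul_div, ← add_div, mul_sum, ← sum_add_distrib]
    refine div_le_div_of_nonneg_right (sum_le_sum fun c hc => ?_) (Nat.cast_nonneg _)
    have k1 := h.card_KW hK hU (ρ := ρ) hx (mem_of_mem_erase hz) (ne_of_mem_erase hz).symm hc
    have k2 : ((KW G F A C H tl ρ X L w KP LP x z c).card : ℚ)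
        ≤ (if ρ x < ρ z ∧ c ∈ X z x then (dg G (arc H tl x z) (w z x c) : ℚ)
            else ((Us x z c).card : ℚ))
        + ∑ t ∈ A.erase x, (if z ≠ t ∧ c ∈ X z t then ((NF G H tl X L w x z t c).card : ℚ)
            else 0) := by
      exact_mod_cast k1
    linarith
  have hT : ∀ z ∈ A.erase x, (∑ c ∈ C z, TW G A C X gam x z c)
        / (C z).card = ∑ y ∈ (A.erase x).erase z,
        gam z y * (ee G (C z \ X z y) (C y \ X y z) / ((C z).card * (C y).card)) := by
    intro z _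
    unfold TW
    rw [sum_comm, sum_div]
    refine sum_congr rfl fun y _ => ?_
    rw [← mul_sum, mul_div_assoc, dD_avg]
  rw [sum_congr rfl hT] at h6
  have hg : ∑ z ∈ A.erase x, ∑ y ∈ (A.erase x).erase z,
        gav C (gH (UW G ρ X Lm x)) y z (J y)
      = ∑ z ∈ A.erase x, ∑ y ∈ (A.erase x).erase z, (LmS ρ Lm x y z).card * dD G C X y z (J y) :=
    sum_congr rfl fun z _ => sum_congr rfl fun y _ => gav_UW x y z (J y)
  rw [hg] at h6
  have hsw : ∑ z ∈ A.erase x, TW G A C X gam x z (J z)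
      = ∑ z ∈ A.erase x, ∑ y ∈ (A.erase x).erase z, gam y z * dD G C X y z (J y) :=
    sum_erase_swap (A.erase x) (fun z y => gam z y * dD G C X z y (J z))
  have hS : ∑ z ∈ A.erase x, ∑ y ∈ (A.erase x).erase z,
              (gam y z - (LmS ρ Lm x y z).card) * dD G C X y z (J y)
      = ∑ z ∈ A.erase x, ∑ y ∈ (A.erase x).erase z, gam y z * dD G C X y z (J y)
        - ∑ z ∈ A.erase x, ∑ y ∈ (A.erase x).erase z,
          (LmS ρ Lm x y z).card * dD G C X y z (J y) := by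
    rw [← sum_sub_distrib]
    refine sum_congr rfl fun z _ => ?_
    rw [← sum_sub_distrib]
    exact sum_congr rfl fun y _ => by ring
  have hp : ∑ z ∈ A.erase x, mu z / (C z).card * (∑ c ∈ C z, (dg G ((W z) ∪ (X2 z)) c : ℚ)
          + (∑ c ∈ C z, un z c + ∑ v ∈ W z, (((C z).filter fun c => ¬ G.Adj c v ∧
            v ∈ KW G F A C H tl ρ X L w KP LP x z c).card : ℚ)))
      = ∑ z ∈ A.erase x, mu z / (C z).card * ∑ c ∈ C z, (dg G ((W z) ∪ (X2 z)) c : ℚ)
        + ∑ z ∈ A.erase x, mu z / (C z).card * (∑ c ∈ C z, un z c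
          + ∑ v ∈ W z, (((C z).filter fun c => ¬ G.Adj c v ∧
            v ∈ KW G F A C H tl ρ X L w KP LP x z c).card : ℚ)) := by
    rw [← sum_add_distrib]
    refine sum_congr rfl fun z _ => ?_
    ring
  rw [hS, hp]
  linarith

end LemXW

end Pool.Agent.Lib.MP_f04ccf_co
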