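import Pool.Agent.Lib.MP_f04ccf_co.M.ItZ

/-!
MP_f04ccf_co, TEXT S (shares), block (f): THIN ROWS.

In a row with `(t + 2) (t + 3 + B) < R` every used item with at most `B` missed points per load is paid
completely by the row itself (share `kp`, host share `vl`): `mu + ∑ kp ≤ mu - s = d`, free of `N`.

* `thin_pure`: the convexity in `p`;
* `TzN`: the test without the excess (field `tzN` of `ItZ`, `ItC`) as the only hypothesis beside `ItE`;
* `ItE.thin`, `ItZ.thin`: the statement for a row with `s ≤ 0`;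
* `ItE.s_le_of_thin`, `ItE.s_lt_of_big`: `s ≤ 0` in such a row (small, resp. large `s`);
* `ItE.thin_y`: the same from the content `y = mu + ∑ kp`: `y (t + 1) + misses < R - 2 y`;
* `ItE.share_of_le`: the row inequality of `share_close` with deficit `0`.
-/

set_option autoImplicit false

namespace Pool.Agent.Lib.MP_f04ccf_co

open Finset

attribute [local instance] Classical.propDecidable

section ThinPure

/-- `(t + 1 + p) (t + 1 + 2 p + B) < R p` at `p = 1` and `p = P` gives it between -/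
theorem thin_pure {R t p P B : ℤ} (h1 : (t + 2) * (t + 3 + B) < R) (hp : 1 ≤ p) (hpP : p ≤ P)
    (h2 : (t + 1 + P) * (t + 1 + 2 * P + B) < R * P) :
    (t + 1 + p) * (t + 1 + 2 * p + B) < R * p := by
  rcases eq_or_lt_of_le hp with h3 | h3
  · subst h3
    nlinarith
  · have hP : 0 < P - 1 := by linarith
    have e1 : (P - 1) * ((t + 1 + p) * (t + 1 + 2 * p + B) - R * p)
        = (P - p) * ((t + 2) * (t + 3 + B) - R)
          + (p - 1) * ((t + 1 + P) * (t + 1 + 2 * P + B) - R * P)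
          - 2 * ((P - 1) * ((P - p) * (p - 1))) := by ring
    have h4 : 0 ≤ (P - 1) * ((P - p) * (p - 1)) :=
      mul_nonneg hP.le (mul_nonneg (by linarith) (by linarith))
    have h5 : (P - p) * ((t + 2) * (t + 3 + B) - R) ≤ 0 :=
      mul_nonpos_of_nonneg_of_nonpos (by linarith) (by linarith)
    have h6 : (p - 1) * ((t + 1 + P) * (t + 1 + 2 * P + B) - R * P) < 0 :=
      mul_neg_of_pos_of_neg (by linarith) (by linarith)
    have h7 : (P - 1) * ((t + 1 + p) * (t + 1 + 2 * p + B) - R * p) < 0 := by linarith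
    by_contra h8
    push Not at h8
    have h9 : 0 ≤ (P - 1) * ((t + 1 + p) * (t + 1 + 2 * p + B) - R * p) :=
      mul_nonneg hP.le (by linarith)
    linarith

/-- the row test at `p ≥ 1` with `y ≤ d + p`, `d ≤ t + 1`, misses at most `B (d + p)` -/
theorem thin_false {R t d p P y M B : ℤ} (ht : 0 ≤ t) (hB : 0 ≤ B) (hp : 1 ≤ p) (hpP : p ≤ P)
    (hd : d ≤ t + 1) (hy : y = d + p) (hM : M ≤ B * (d + p))
    (h1 : (t + 2) * (t + 3 + B) < R)
    (h2 : (t + 1 + P) * (t + 1 + 2 * P + B) < R * P)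
    (hT : R * p ≤ y * (t + 2 * p + 1) + M) : False := by
  have h3 := thin_pure h1 hp hpP h2
  subst hy
  have h4 : (d + p) * (t + 2 * p + 1 + B) ≤ (t + 1 + p) * (t + 2 * p + 1 + B) :=
    mul_le_mul_of_nonneg_right (by linarith) (by linarith)
  have e1 : (d + p) * (t + 2 * p + 1) + B * (d + p) = (d + p) * (t + 2 * p + 1 + B) := by ring
  have e2 : (t + 1 + p) * (t + 1 + 2 * p + B) = (t + 1 + p) * (t + 2 * p + 1 + B) := by ring
  linarith

end ThinPure

section ThinIt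

variable {ι : Type*} {R : ℤ} {n : ℕ} {t s h e : ℕ → ℤ} {E : ℕ → ℕ → ℤ} {U : Finset ι} {ho : ι → ℕ}
  {vl : ι → ℤ} {kp ms mr : ℕ → ι → ℤ} {mu Nb : ℕ → ℤ} {Nx : ℕ → ℕ → ℤ}
  {be : ℕ → ℕ → ℤ} {ls : ℕ → ℤ → ℤ} {pc ar : ι → ℤ} {aT : ℕ → ℤ} {fr : ℕ → ℤ}
  {gn ka : ℕ → ℕ → ℤ}

/-- **large `s`** is impossible: `X` bounds the excess per hosted unit -/
theorem ItE.s_lt_of_big (H : ItE R n t s h e E U ho vl kp ms mr mu Nb Nx) {i : ℕ} (hi : i < n)
    {P X : ℤ} (hX0 : 0 ≤ X) (hX : Nb i + 2 * ∑ j ∈ (range n).erase i, Nx i j ≤ X * mu i)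
    (hP0 : 1 ≤ P) (h1 : (2 * t i + X) * (t i + 1 + P) < (R + t i - 1) * P)
    (hsR : s i ≤ R - t i) : s i < P := by
  by_contra h2
  push Not at h2
  have ht := H.t0 i hi
  have hd := H.dt hi
  have h3 := H.pz hi
  have hm := H.mu0 hi
  have hdd : 0 ≤ (mu i - s i) * (mu i - s i - 1) := by
    rcases le_or_gt (mu i - s i) 0 with h4 | h4
    · exact mul_nonneg_of_nonpos_of_nonpos h4 (by linarith)
    · exact mul_nonneg h4.le (by linarith)
  have h4 : 2 * (R * s i) ≤ (2 * t i + X) * mu i + s i ^ 2 + s i := by nlinarith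
  have h5 : (2 * t i + X) * mu i ≤ (2 * t i + X) * (t i + 1 + s i) :=
    mul_le_mul_of_nonneg_left (by linarith) (by linarith)
  have h6 : (R + t i - 1) * s i ≤ (2 * R - s i - 1) * s i :=
    mul_le_mul_of_nonneg_right (by linarith) (by linarith)
  have h7 : (R + t i - 1) * s i ≤ (2 * t i + X) * (t i + 1 + s i) := by nlinarith
  -- linear in `s`, slope
  rcases le_or_gt (2 * t i + X) (R + t i - 1) with h8 | h8
  · have h9 : ((R + t i - 1) - (2 * t i + X)) * P ≤ ((R + t i - 1) - (2 * t i + X)) * s i :=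
      mul_le_mul_of_nonneg_left h2 (by linarith)
    nlinarith
  · have h9 : (R + t i - 1) * P ≤ (2 * t i + X) * P :=
      mul_le_mul_of_nonneg_right h8.le (by linarith)
    have h10 : 0 ≤ (2 * t i + X) * (t i + 1) := mul_nonneg (by linarith) (by linarith)
    nlinarith

/-- `s i ≤ R - t i`: the points -/
theorem ItE.s_le_R (H : ItE R n t s h e E U ho vl kp ms mr mu Nb Nx) {i : ℕ} (hi : i < n) :
    s i ≤ R - t i := by
  have h1 : h i ≤ ∑ j ∈ range n, h j :=
    single_le_sum (fun j hj => H.h0 j (mem_range.1 hj)) (mem_range.2 hi)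
  have h2 := H.sh
  have h3 := H.hh i hi
  linarith

/-- the row test without the excess of the host, at the row `i` (field `tzN` of `ItZ`, `ItC`) -/
def TzN (R : ℤ) (t s : ℕ → ℤ) (U : Finset ι) (ho : ι → ℕ) (kp mr : ℕ → ι → ℤ) (mu : ℕ → ℤ)
    (i : ℕ) : Prop :=
  ∀ K ⊆ U, (∀ u ∈ K, ho u ≠ i) → 0 ≤ s i + ∑ u ∈ K, kp i u →
    R * (s i + ∑ u ∈ K, kp i u)
      ≤ (mu i + ∑ u ∈ K, kp i u) * (t i + 2 * (s i + ∑ u ∈ K, kp i u) + 1) + ∑ u ∈ K, mr i u

namespace ItE

/-- **small `s ≥ 1` is impossible in a thin row** (test without items) -/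
theorem s_le_of_thin (H : ItE R n t s h e E U ho vl kp ms mr mu Nb Nx)
    {i : ℕ} (hi : i < n) (hT : TzN R t s U ho kp mr mu i) {P : ℤ} (h1 : (t i + 2) * (t i + 3) < R)
    (h2 : (t i + 1 + P) * (t i + 1 + 2 * P) < R * P) (hs : s i ≤ P) : s i ≤ 0 := by
  by_contra h3
  push Not at h3
  have h4 := hT ∅ (empty_subset _) (by simp) (by simp; linarith)
  simp only [sum_empty, add_zero] at h4
  exact thin_false (R := R) (t := t i) (d := mu i - s i) (p := s i) (P := P) (y := mu i) (M := 0)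
    (B := 0) (H.t0 i hi) le_rfl (by linarith) hs (by linarith [H.dt hi]) (by ring) (by simp)
    (by linarith) (by linarith) (by linarith)

/-- **THIN ROWS**: `(t + 2) (t + 3 + B) < R` (and the same at `p = P`, `P` a bound of the loads), items
with at most `B` missed points per load: the row pays everything, `mu + ∑ kp ≤ d` -/
theorem thin (H : ItE R n t s h e E U ho vl kp ms mr mu Nb Nx)
    {i : ℕ} (hi : i < n) (hT : TzN R t s U ho kp mr mu i) {K : Finset ι} (hK : K ⊆ U)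
    (hKh : ∀ u ∈ K, ho u ≠ i) {B P : ℤ}
    (hB0 : 0 ≤ B) (hB : ∀ u ∈ K, mr i u ≤ B * kp i u) (hP : ∀ u ∈ K, kp i u ≤ P)
    (h1 : (t i + 2) * (t i + 3 + B) < R)
    (h2 : (t i + 1 + P) * (t i + 1 + 2 * P + B) < R * P) (hs : s i ≤ 0) :
    s i + ∑ u ∈ K, kp i u ≤ 0 := by
  induction K using Finset.induction_on with
  | empty => simpa using hs
  | @insert a K ha ih =>
    have ih' := ih (fun u hu => hK (mem_insert_of_mem hu)) (fun u hu => hKh u (mem_insert_of_mem hu))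
      (fun u hu => hB u (mem_insert_of_mem hu)) (fun u hu => hP u (mem_insert_of_mem hu))
    by_contra h3
    push Not at h3
    have h4 := hT (insert a K) hK hKh (by linarith)
    have h5 : ∑ u ∈ insert a K, mr i u ≤ B * ∑ u ∈ insert a K, kp i u := by
      rw [mul_sum]
      exact sum_le_sum hB
    have h6 : ∑ u ∈ insert a K, kp i u ≤ P - s i := by
      rw [sum_insert ha]
      have := hP a (mem_insert_self a K)
      linarith
    have hm := H.mu0 hi
    generalize ∑ u ∈ insert a K, kp i u = k at *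
    generalize ∑ u ∈ insert a K, mr i u = M at *
    refine thin_false (R := R) (t := t i) (d := mu i - s i) (p := s i + k) (P := P)
      (y := mu i + k) (M := M) (B := B) (H.t0 i hi) hB0 (by linarith) (by linarith)
      (by linarith [H.dt hi]) (by ring) (h5.trans ?_) h1 h2 h4
    exact mul_le_mul_of_nonneg_left (by linarith) hB0

/-- **THIN RULE by the content**: `y (t + 1) + M < R - 2 y`, `y = mu + ∑ kp`, `M` the misses: then
`mu + ∑ kp ≤ d` (no condition on `s`, loads or `d`) -/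
theorem thin_y (H : ItE R n t s h e E U ho vl kp ms mr mu Nb Nx)
    {i : ℕ} (hi : i < n) (hT : TzN R t s U ho kp mr mu i) {K : Finset ι} (hK : K ⊆ U)
    (hKh : ∀ u ∈ K, ho u ≠ i)
    (h1 : (mu i + ∑ u ∈ K, kp i u) * (t i + 1) + ∑ u ∈ K, mr i u
      < R - 2 * (mu i + ∑ u ∈ K, kp i u)) :
    s i + ∑ u ∈ K, kp i u ≤ 0 := by
  by_contra h3
  push Not at h3
  have h4 := hT K hK hKh h3.le
  have hm := H.mu0 hi
  have hk : 0 ≤ ∑ u ∈ K, kp i u := sum_nonneg fun u hu => H.k0 u (hK hu) i hi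
  have hM : 0 ≤ ∑ u ∈ K, mr i u := sum_nonneg fun u hu =>
    (H.m0 u (hK hu) i hi).trans (H.msr u (hK hu) i hi)
  have ht := H.t0 i hi
  generalize ∑ u ∈ K, kp i u = k at *
  generalize ∑ u ∈ K, mr i u = M at *
  have h5 : 0 ≤ (mu i + k) * (t i + 1) := mul_nonneg (by linarith) (by linarith)
  have h6 : (R - 2 * (mu i + k)) * 1 ≤ (R - 2 * (mu i + k)) * (s i + k) :=
    mul_le_mul_of_nonneg_left (by linarith) (by linarith)
  nlinarith

/-- **the row inequality of `share_close`** with deficit `0` in a row with `mu + ∑ kp ≤ d`: host share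
`vl`, server share `kp` on `K` and `0` outside -/
theorem share_of_le (H : ItE R n t s h e E U ho vl kp ms mr mu Nb Nx)
    {i : ℕ} (hi : i < n) {K : Finset ι} (hK : K ⊆ U) (hKh : ∀ u ∈ K, ho u ≠ i)
    (h3 : s i + ∑ u ∈ K, kp i u ≤ 0) :
    ∑ u ∈ U.filter (fun u => ho u = i), (vl u : ℚ)
      + ∑ u ∈ U.filter (fun u => ho u ≠ i), (if u ∈ K then (kp i u : ℚ) else 0) - 0
      ≤ ((mu i - s i : ℤ) : ℚ) := by
  have e1 : ∑ u ∈ U.filter (fun u => ho u ≠ i), (if u ∈ K then (kp i u : ℚ) else 0)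
      = ((∑ u ∈ K, kp i u : ℤ) : ℚ) := by
    rw [← sum_filter, Int.cast_sum]
    refine sum_congr ?_ fun _ _ => rfl
    ext u
    simp only [mem_filter]
    constructor
    · rintro ⟨_, h4⟩
      exact h4
    · intro h4
      exact ⟨⟨hK h4, hKh u h4⟩, h4⟩
  have e2 : ∑ u ∈ U.filter (fun u => ho u = i), (vl u : ℚ) = ((mu i : ℤ) : ℚ) := by
    rw [H.hmu i hi, Int.cast_sum]
  rw [e1, e2, sub_zero, ← Int.cast_add]
  exact_mod_cast (by linarith : mu i + ∑ u ∈ K, kp i u ≤ mu i - s i)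

end ItE

namespace ItZ

lemma tzn (H : ItZ R n t s h e E U ho vl kp ms mr mu Nb Nx be ls pc ar aT fr gn ka)
    {i : ℕ} (hi : i < n) : TzN R t s U ho kp mr mu i := H.tzN i hi

/-- `ItE.s_le_of_thin` -/
theorem s_le_of_thin (H : ItZ R n t s h e E U ho vl kp ms mr mu Nb Nx be ls pc ar aT fr gn ka)
    {i : ℕ} (hi : i < n) {P : ℤ} (h1 : (t i + 2) * (t i + 3) < R)
    (h2 : (t i + 1 + P) * (t i + 1 + 2 * P) < R * P) (hs : s i ≤ P) : s i ≤ 0 :=
  H.toItE.s_le_of_thin hi (H.tzn hi) h1 h2 hs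

/-- `ItE.thin` -/
theorem thin (H : ItZ R n t s h e E U ho vl kp ms mr mu Nb Nx be ls pc ar aT fr gn ka)
    {i : ℕ} (hi : i < n) {K : Finset ι} (hK : K ⊆ U) (hKh : ∀ u ∈ K, ho u ≠ i) {B P : ℤ}
    (hB0 : 0 ≤ B) (hB : ∀ u ∈ K, mr i u ≤ B * kp i u) (hP : ∀ u ∈ K, kp i u ≤ P)
    (h1 : (t i + 2) * (t i + 3 + B) < R)
    (h2 : (t i + 1 + P) * (t i + 1 + 2 * P + B) < R * P) (hs : s i ≤ 0) :
    s i + ∑ u ∈ K, kp i u ≤ 0 :=
  H.toItE.thin hi (H.tzn hi) hK hKh hB0 hB hP h1 h2 hs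

/-- `ItE.thin_y` -/
theorem thin_y (H : ItZ R n t s h e E U ho vl kp ms mr mu Nb Nx be ls pc ar aT fr gn ka)
    {i : ℕ} (hi : i < n) {K : Finset ι} (hK : K ⊆ U) (hKh : ∀ u ∈ K, ho u ≠ i)
    (h1 : (mu i + ∑ u ∈ K, kp i u) * (t i + 1) + ∑ u ∈ K, mr i u
      < R - 2 * (mu i + ∑ u ∈ K, kp i u)) :
    s i + ∑ u ∈ K, kp i u ≤ 0 :=
  H.toItE.thin_y hi (H.tzn hi) hK hKh h1

/-- `ItE.thin` in the form of the row inequality of `share_close` -/
theorem thin_share (H : ItZ R n t s h e E U ho vl kp ms mr mu Nb Nx be ls pc ar aT fr gn ka)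
    {i : ℕ} (hi : i < n) {K : Finset ι} (hK : K ⊆ U) (hKh : ∀ u ∈ K, ho u ≠ i) {B P : ℤ}
    (hB0 : 0 ≤ B) (hB : ∀ u ∈ K, mr i u ≤ B * kp i u) (hP : ∀ u ∈ K, kp i u ≤ P)
    (h1 : (t i + 2) * (t i + 3 + B) < R)
    (h2 : (t i + 1 + P) * (t i + 1 + 2 * P + B) < R * P) (hs : s i ≤ 0) :
    ∑ u ∈ U.filter (fun u => ho u = i), (vl u : ℚ)
      + ∑ u ∈ U.filter (fun u => ho u ≠ i), (if u ∈ K then (kp i u : ℚ) else 0) - 0
      ≤ ((mu i - s i : ℤ) : ℚ) :=
  H.toItE.share_of_le hi hK hKh (H.thin hi hK hKh hB0 hB hP h1 h2 hs)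

end ItZ

end ThinIt

end Pool.Agent.Lib.MP_f04ccf_co
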