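import Pool.Agent.Lib.MP_f04ccf_co.M.RowD
import Pool.Agent.Lib.MP_f04ccf_co.M.ShThin

/-!
MP_f04ccf_co, TEXT D, (d): LIGHT ROWS, and the closing over UNITS.

* `UnitS`: a finite set `V` of units: `it v` the item, `C v` the counted rows of the unit (rows with a share,
  not the host); `vl u` units for every item `u`, at most `kp i u` units of `u` count at the row `i`.
* `cnt V C i`: the number of units counted at `i`; a row is LIGHT if `mu i + cnt V C i ≤ d_i = mu i - s i`.
* `ItE.unit_close`: shares `al v` (host), `w v i` (counted rows), enough in sum for every unit; only the rows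
  which are not in the light set `L` need their inequality, and only for the units without a light row.
* `ItE.light_of`, `ItE.heavy_of`: from the test without the excess (`TzN`): a row which is not light has
  `R ≤ (mu + ∑ kp) (t + 3) + misses` for every family which contains its counted items.
-/

set_option autoImplicit false

namespace Pool.Agent.Lib.MP_f04ccf_co

open Finset

attribute [local instance] Classical.propDecidable

section LightS

variable {ι κ : Type*}

/-- **the units** of the items: `it v` the item of the unit `v`, `C v` its counted rows -/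
structure UnitS (n : ℕ) (U : Finset ι) (ho : ι → ℕ) (vl : ι → ℤ) (kp : ℕ → ι → ℤ)
    (V : Finset κ) (it : κ → ι) (C : κ → Finset ℕ) : Prop where
  mem : ∀ v ∈ V, it v ∈ U
  val : ∀ u ∈ U, ((V.filter fun v => it v = u).card : ℤ) = vl u
  rows : ∀ v ∈ V, ∀ i ∈ C v, i < n ∧ i ≠ ho (it v)
  load : ∀ u ∈ U, ∀ i < n, ((V.filter fun v => it v = u ∧ i ∈ C v).card : ℤ) ≤ kp i u

/-- the number of units counted at the row `i` -/
noncomputable def cnt (V : Finset κ) (C : κ → Finset ℕ) (i : ℕ) : ℕ :=
  (V.filter fun v => i ∈ C v).card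

variable {R : ℤ} {n : ℕ} {t s h e : ℕ → ℤ} {E : ℕ → ℕ → ℤ} {U : Finset ι} {ho : ι → ℕ}
  {vl : ι → ℤ} {kp ms mr : ℕ → ι → ℤ} {mu Nb : ℕ → ℤ} {Nx : ℕ → ℕ → ℤ}
  {V : Finset κ} {it : κ → ι} {C : κ → Finset ℕ}

/-- a sum over the units, item by item -/
lemma UnitS.sum_items (hV : UnitS n U ho vl kp V it C) (p : ι → Prop) [DecidablePred p]
    (q : κ → Prop) [DecidablePred q] (f : κ → ℝ) :
    ∑ u ∈ U.filter p, ∑ v ∈ V.filter (fun v => it v = u ∧ q v), f v
      = ∑ v ∈ V.filter (fun v => p (it v) ∧ q v), f v := by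
  have h1 : ∑ v ∈ V.filter (fun v => p (it v) ∧ q v), f v
      = ∑ u ∈ U.filter p, ∑ v ∈ (V.filter (fun v => p (it v) ∧ q v)).filter (fun v => it v = u),
        f v := by
    refine (sum_fiberwise_of_maps_to (fun v hv => ?_) f).symm
    obtain ⟨h2, h3, -⟩ := mem_filter.1 hv
    exact mem_filter.2 ⟨hV.mem v h2, h3⟩
  rw [h1]
  refine sum_congr rfl fun u hu => sum_congr ?_ fun _ _ => rfl
  have hu' := (mem_filter.1 hu).2
  ext v
  simp only [mem_filter]
  constructor
  · rintro ⟨h2, h3, h4⟩
    exact ⟨⟨h2, h3 ▸ hu', h4⟩, h3⟩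
  · rintro ⟨⟨h2, -, h4⟩, h3⟩
    exact ⟨h2, h3, h4⟩

/-- **closing over the units with light rows**: `L` any set of rows with `mu i + cnt i ≤ d_i`; `al v` the
share of the host, `w v i` the share of the counted row `i`; the rows outside `L` only answer for the units
whose host and counted rows are all outside `L` -/
theorem ItE.unit_close (H : ItE R n t s h e E U ho vl kp ms mr mu Nb Nx)
    (hV : UnitS n U ho vl kp V it C) {L : Finset ℕ}
    (hL : ∀ i ∈ L, (mu i : ℝ) + (cnt V C i : ℝ) ≤ (mu i : ℝ) - s i)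
    {al : κ → ℝ} {w : κ → ℕ → ℝ} {δ : ℕ → ℝ}
    (h1 : ∀ v ∈ V, ho (it v) ∉ L → Disjoint (C v) L → 1 ≤ al v + ∑ i ∈ C v, w v i)
    (h2 : ∀ i < n, i ∉ L →
      ∑ v ∈ V.filter (fun v => ho (it v) = i ∧ Disjoint (C v) L), al v
        + ∑ v ∈ V.filter (fun v => ho (it v) ∉ L ∧ i ∈ C v ∧ Disjoint (C v) L), w v i - δ i
        ≤ (mu i : ℝ) - s i)
    (h3 : ∑ i ∈ (range n).filter (fun i => i ∉ L), δ i < 1) : False := by
  refine H.D_false
    (al := fun u => if ho u ∈ L then (vl u : ℝ)
      else ∑ v ∈ V.filter (fun v => it v = u ∧ Disjoint (C v) L), al v)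
    (w := fun i u => if ho u ∈ L then 0 else if i ∈ L
      then ((V.filter fun v => it v = u ∧ i ∈ C v).card : ℝ)
      else ∑ v ∈ V.filter (fun v => it v = u ∧ (i ∈ C v ∧ Disjoint (C v) L)), w v i)
    (δ := fun i => if i ∈ L then 0 else δ i) ?_ ?_ ?_
  · -- every item is paid
    intro u hu
    beta_reduce
    by_cases hh : ho u ∈ L
    · simp only [if_pos hh, sum_const_zero, add_zero, le_refl]
    · simp only [if_neg hh]
      have e1 : (vl u : ℝ) = ∑ v ∈ V.filter (fun v => it v = u), (1 : ℝ) := by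
        rw [sum_const, nsmul_eq_mul, mul_one]
        exact_mod_cast (hV.val u hu).symm
      -- the part of one unit
      have key : ∀ v ∈ V.filter (fun v => it v = u), (1 : ℝ)
          ≤ (if Disjoint (C v) L then al v else 0)
            + ∑ i ∈ (range n).erase (ho u), (if i ∈ L then (if i ∈ C v then (1 : ℝ) else 0)
              else if i ∈ C v ∧ Disjoint (C v) L then w v i else 0) := by
        intro v hv
        obtain ⟨hv1, hv2⟩ := mem_filter.1 hv
        have hsub : C v ⊆ (range n).erase (ho u) := by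
          intro i hi
          obtain ⟨h4, h5⟩ := hV.rows v hv1 i hi
          rw [hv2] at h5
          exact mem_erase.2 ⟨h5, mem_range.2 h4⟩
        by_cases hd : Disjoint (C v) L
        · rw [if_pos hd]
          have h4 := h1 v hv1 (by rw [hv2]; exact hh) hd
          refine h4.trans (add_le_add le_rfl (le_of_eq ?_))
          rw [← sum_subset hsub (f := fun i => if i ∈ L then (if i ∈ C v then (1 : ℝ) else 0)
              else if i ∈ C v ∧ Disjoint (C v) L then w v i else 0)]
          · refine sum_congr rfl fun i hi => ?_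
            rw [if_neg (disjoint_left.1 hd hi), if_pos ⟨hi, hd⟩]
          · intro i _ hi
            simp only [hi, if_false, false_and, ite_self]
        · rw [if_neg hd, zero_add]
          obtain ⟨i, hi1, hi2⟩ := not_disjoint_iff.1 hd
          have h4 : (if i ∈ L then (if i ∈ C v then (1 : ℝ) else 0)
              else if i ∈ C v ∧ Disjoint (C v) L then w v i else 0) = 1 := by
            rw [if_pos hi2, if_pos hi1]
          refine le_trans (le_of_eq h4.symm) ?_
          refine single_le_sum (f := fun i => if i ∈ L then (if i ∈ C v then (1 : ℝ) else 0)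
              else if i ∈ C v ∧ Disjoint (C v) L then w v i else 0) (fun j _ => ?_) (hsub hi1)
          beta_reduce
          split_ifs with h5 h6 h7
          · exact zero_le_one
          · exact le_rfl
          · exact absurd h7.2 hd
          · exact le_rfl
      have h4 := sum_le_sum key
      rw [← e1, sum_add_distrib, sum_comm] at h4
      refine h4.trans (add_le_add (le_of_eq ?_) (sum_le_sum fun i _ => le_of_eq ?_))
      · rw [← sum_filter, filter_filter]
      · by_cases hi : i ∈ L
        · rw [if_pos hi]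
          simp only [if_pos hi]
          rw [← sum_filter, filter_filter, sum_const, nsmul_eq_mul, mul_one]
        · rw [if_neg hi]
          simp only [if_neg hi]
          rw [← sum_filter, filter_filter]
  · -- the rows
    intro i hi
    beta_reduce
    by_cases hiL : i ∈ L
    · rw [if_pos hiL, sub_zero]
      have h4 : ∑ u ∈ U.filter (fun u => ho u = i), (if ho u ∈ L then (vl u : ℝ)
          else ∑ v ∈ V.filter (fun v => it v = u ∧ Disjoint (C v) L), al v) = (mu i : ℝ) := by
        rw [H.hmu i hi]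
        push_cast
        refine sum_congr rfl fun u hu => ?_
        rw [if_pos (by rw [(mem_filter.1 hu).2]; exact hiL)]
      have h5 : ∑ u ∈ U.filter (fun u => ho u ≠ i), (if ho u ∈ L then (0 : ℝ) else if i ∈ L
          then ((V.filter fun v => it v = u ∧ i ∈ C v).card : ℝ)
          else ∑ v ∈ V.filter (fun v => it v = u ∧ (i ∈ C v ∧ Disjoint (C v) L)), w v i)
          ≤ (cnt V C i : ℝ) := by
        have h6 : ∑ u ∈ U.filter (fun u => ho u ≠ i), (if ho u ∈ L then (0 : ℝ) else if i ∈ L
            then ((V.filter fun v => it v = u ∧ i ∈ C v).card : ℝ)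
            else ∑ v ∈ V.filter (fun v => it v = u ∧ (i ∈ C v ∧ Disjoint (C v) L)), w v i)
            ≤ ∑ u ∈ U.filter (fun u => ho u ≠ i),
              ∑ v ∈ V.filter (fun v => it v = u ∧ i ∈ C v), (1 : ℝ) := by
          refine sum_le_sum fun u _ => ?_
          rw [sum_const, nsmul_eq_mul, mul_one]
          split_ifs
          · exact Nat.cast_nonneg _
          · exact le_rfl
        refine h6.trans ?_
        rw [hV.sum_items (fun u => ho u ≠ i) (fun v => i ∈ C v) fun _ => 1, sum_const,
          nsmul_eq_mul, mul_one]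
        unfold cnt
        exact_mod_cast card_le_card fun v hv => by
          obtain ⟨h7, -, h8⟩ := mem_filter.1 hv
          exact mem_filter.2 ⟨h7, h8⟩
      rw [h4]
      have h6 := hL i hiL
      linarith
    · rw [if_neg hiL]
      have h4 : ∑ u ∈ U.filter (fun u => ho u = i), (if ho u ∈ L then (vl u : ℝ)
          else ∑ v ∈ V.filter (fun v => it v = u ∧ Disjoint (C v) L), al v)
          = ∑ v ∈ V.filter (fun v => ho (it v) = i ∧ Disjoint (C v) L), al v := by
        rw [← hV.sum_items (fun u => ho u = i) (fun v => Disjoint (C v) L) al]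
        refine sum_congr rfl fun u hu => ?_
        rw [if_neg (by rw [(mem_filter.1 hu).2]; exact hiL)]
      have h5 : ∑ u ∈ U.filter (fun u => ho u ≠ i), (if ho u ∈ L then (0 : ℝ) else if i ∈ L
          then ((V.filter fun v => it v = u ∧ i ∈ C v).card : ℝ)
          else ∑ v ∈ V.filter (fun v => it v = u ∧ (i ∈ C v ∧ Disjoint (C v) L)), w v i)
          = ∑ v ∈ V.filter (fun v => ho (it v) ∉ L ∧ i ∈ C v ∧ Disjoint (C v) L), w v i := by
        have h6 : ∑ u ∈ U.filter (fun u => ho u ≠ i), (if ho u ∈ L then (0 : ℝ) else if i ∈ L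
            then ((V.filter fun v => it v = u ∧ i ∈ C v).card : ℝ)
            else ∑ v ∈ V.filter (fun v => it v = u ∧ (i ∈ C v ∧ Disjoint (C v) L)), w v i)
            = ∑ u ∈ U.filter (fun u => ho u ≠ i ∧ ho u ∉ L),
              ∑ v ∈ V.filter (fun v => it v = u ∧ (i ∈ C v ∧ Disjoint (C v) L)), w v i := by
          rw [← filter_filter, sum_filter (s := U.filter fun u => ho u ≠ i)]
          refine sum_congr rfl fun u _ => ?_
          by_cases h7 : ho u ∈ L
          · rw [if_pos h7, if_neg fun h8 => h8 h7]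
          · rw [if_neg h7, if_neg hiL, if_pos h7]
        rw [h6, hV.sum_items (fun u => ho u ≠ i ∧ ho u ∉ L)
          (fun v => i ∈ C v ∧ Disjoint (C v) L) fun v => w v i]
        refine sum_congr ?_ fun _ _ => rfl
        ext v
        simp only [mem_filter]
        constructor
        · rintro ⟨h7, ⟨-, h8⟩, h9⟩
          exact ⟨h7, h8, h9⟩
        · rintro ⟨h7, h8, h9⟩
          exact ⟨h7, ⟨fun h10 => (hV.rows v h7 i h9.1).2 h10.symm, h8⟩, h9⟩
      rw [h4, h5]
      exact h2 i hi hiL
  · -- the deficits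
    have h4 : ∑ i ∈ range n, (if i ∈ L then (0 : ℝ) else δ i)
        = ∑ i ∈ (range n).filter (fun i => i ∉ L), δ i := by
      rw [sum_filter]
      refine sum_congr rfl fun i _ => ?_
      by_cases h5 : i ∈ L
      · rw [if_pos h5, if_neg fun h6 => h6 h5]
      · rw [if_neg h5, if_pos h5]
    rw [h4]
    exact h3

/-- the counted units of a row are at most the loads of any family which contains their items -/
lemma UnitS.cnt_le (hV : UnitS n U ho vl kp V it C) {i : ℕ} (hi : i < n) {K : Finset ι}
    (hK : K ⊆ U) (hc : ∀ v ∈ V, i ∈ C v → it v ∈ K) : (cnt V C i : ℤ) ≤ ∑ u ∈ K, kp i u := by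
  have h1 : cnt V C i = ∑ u ∈ K, (V.filter fun v => it v = u ∧ i ∈ C v).card := by
    unfold cnt
    rw [card_eq_sum_card_fiberwise (f := it) (t := K) (fun v hv => by
      have h2 := mem_filter.1 (mem_coe.1 hv)
      exact hc v h2.1 h2.2)]
    refine sum_congr rfl fun u _ => ?_
    congr 1
    ext v
    simp only [mem_filter]
    constructor
    · rintro ⟨⟨h2, h3⟩, h4⟩
      exact ⟨h2, h4, h3⟩
    · rintro ⟨h2, h4, h3⟩
      exact ⟨⟨h2, h3⟩, h4⟩
  rw [h1]
  push_cast
  exact sum_le_sum fun u hu => hV.load u (hK hu) i hi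

/-- **a light row**: `(mu + ∑ kp) (t + 3) + misses < R` for one family which contains its counted items -/
theorem ItE.light_of (H : ItE R n t s h e E U ho vl kp ms mr mu Nb Nx)
    (hV : UnitS n U ho vl kp V it C) {i : ℕ} (hi : i < n) (hT : TzN R t s U ho kp mr mu i)
    {K : Finset ι} (hK : K ⊆ U) (hKh : ∀ u ∈ K, ho u ≠ i) (hc : ∀ v ∈ V, i ∈ C v → it v ∈ K)
    (h1 : (mu i + ∑ u ∈ K, kp i u) * (t i + 3) + ∑ u ∈ K, mr i u < R) :
    (mu i : ℝ) + (cnt V C i : ℝ) ≤ (mu i : ℝ) - s i := by
  have h2 := H.thin_y hi hT hK hKh (by linarith)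
  have h3 := hV.cnt_le hi hK hc
  have h4 : mu i + (cnt V C i : ℤ) ≤ mu i - s i := by linarith
  exact_mod_cast h4

/-- **a row which is not light** -/
theorem ItE.heavy_of (H : ItE R n t s h e E U ho vl kp ms mr mu Nb Nx)
    (hV : UnitS n U ho vl kp V it C) {i : ℕ} (hi : i < n) (hT : TzN R t s U ho kp mr mu i)
    (hn : ¬ (mu i : ℝ) + (cnt V C i : ℝ) ≤ (mu i : ℝ) - s i) {K : Finset ι} (hK : K ⊆ U)
    (hKh : ∀ u ∈ K, ho u ≠ i) (hc : ∀ v ∈ V, i ∈ C v → it v ∈ K) :
    R ≤ (mu i + ∑ u ∈ K, kp i u) * (t i + 3) + ∑ u ∈ K, mr i u := by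
  by_contra h1
  push Not at h1
  exact hn (H.light_of hV hi hT hK hKh hc h1)

/-- a row which is not light, without misses above `B` per load, and small `s`: `t` is about `√R` -/
theorem ItE.heavy_sqrt (H : ItE R n t s h e E U ho vl kp ms mr mu Nb Nx)
    (hV : UnitS n U ho vl kp V it C) {i : ℕ} (hi : i < n) (hT : TzN R t s U ho kp mr mu i)
    (hn : ¬ (mu i : ℝ) + (cnt V C i : ℝ) ≤ (mu i : ℝ) - s i) {K : Finset ι} (hK : K ⊆ U)
    (hKh : ∀ u ∈ K, ho u ≠ i) (hc : ∀ v ∈ V, i ∈ C v → it v ∈ K) {B P : ℤ} (hB0 : 0 ≤ B)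
    (hB : ∀ u ∈ K, mr i u ≤ B * kp i u) (hP : ∀ u ∈ K, kp i u ≤ P)
    (h2 : (t i + 1 + P) * (t i + 1 + 2 * P + B) < R * P) (hs : s i ≤ 0) :
    R ≤ (t i + 2) * (t i + 3 + B) := by
  by_contra h1
  push Not at h1
  refine hn ?_
  have h3 := H.thin hi hT hK hKh hB0 hB hP h1 h2 hs
  have h4 := hV.cnt_le hi hK hc
  have h5 : mu i + (cnt V C i : ℤ) ≤ mu i - s i := by linarith
  exact_mod_cast h5

end LightS

end Pool.Agent.Lib.MP_f04ccf_co
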