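import Pool.Agent.Lib.MP_f04ccf_co.M.PCon

/-!
MP_f04ccf_co, TEXT D: **the closing over UNITS, with LIGHT ROWS, in p-form** (pure, any index set of units).

Units `v ∈ V` with host `h v` and counted rows `C v` (a finite set of rows, the host is not in it);
`s : ℕ → ℤ` with sum one; complements `co z v` of the shares (`z = h v` or `z ∈ C v`), in sum at most
`#(C v)`. A row `i` is LIGHT if `s i + #{v : i ∈ C v} ≤ 0`; `L` is any set of light rows.

* `units_close`: only the rows `z ∉ L` need their inequality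
  `s z + #{v free : z ∈ C v} ≤ ∑_{v free, h v = z} co z v + ∑_{v free, z ∈ C v} co z v
    + #{v touching L : h v = z} + δ z`,
  where a unit is free if neither its host nor a counted row is in `L`; `∑_{z ∉ L} δ z < 1`.
* `units_close0`: without light rows; `units_closeL`: `L` = all light rows, `1 ≤ s z + #{v : z ∈ C v}` for
  the others.
* `heavy_tzn`: from tzN: `1 ≤ s + k` gives `R ≤ (A + 2) (mu + k) + B`.
* `PCon.close_units`, `PCon.close_light`: the same over the contract.
-/

set_option autoImplicit false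

namespace Pool.Agent.Lib.MP_f04ccf_co

open Finset

attribute [local instance] Classical.propDecidable

section LightPS

variable {κ : Type*} {n : ℕ} {s : ℕ → ℤ} {V : Finset κ} {h : κ → ℕ} {C : κ → Finset ℕ}

/-- the units which do not touch the rows `L` -/
noncomputable def freeU (V : Finset κ) (h : κ → ℕ) (C : κ → Finset ℕ) (L : Finset ℕ) : Finset κ :=
  V.filter fun v => h v ∉ L ∧ Disjoint (C v) L

/-- the units which touch the rows `L` -/
noncomputable def touchU (V : Finset κ) (h : κ → ℕ) (C : κ → Finset ℕ) (L : Finset ℕ) : Finset κ :=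
  V.filter fun v => ¬ (h v ∉ L ∧ Disjoint (C v) L)

/-- **the closing over units with light rows** -/
theorem units_close (hs : ∑ i ∈ range n, s i = 1) (hh : ∀ v ∈ V, h v < n)
    (hC : ∀ v ∈ V, ∀ i ∈ C v, i < n) {L : Finset ℕ}
    (hL : ∀ i < n, i ∈ L → s i + ((V.filter fun v => i ∈ C v).card : ℤ) ≤ 0)
    {co : ℕ → κ → ℝ} {δ : ℕ → ℝ}
    (h1 : ∀ v ∈ freeU V h C L, co (h v) v + ∑ i ∈ C v, co i v ≤ ((C v).card : ℝ))
    (h2 : ∀ z < n, z ∉ L →
      (s z : ℝ) + (((freeU V h C L).filter fun v => z ∈ C v).card : ℝ)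
        ≤ ∑ v ∈ (freeU V h C L).filter (fun v => h v = z), co z v
          + ∑ v ∈ (freeU V h C L).filter (fun v => z ∈ C v), co z v
          + (((touchU V h C L).filter fun v => h v = z).card : ℝ) + δ z)
    (h3 : ∑ i ∈ (range n).filter (fun i => i ∉ L), δ i < 1) : False := by
  -- the light rows
  have a1 : ∑ i ∈ (range n).filter (fun i => i ∈ L), (s i : ℝ)
      + ∑ i ∈ (range n).filter (fun i => i ∈ L),
        (((touchU V h C L).filter fun v => h v ∉ L ∧ i ∈ C v).card : ℝ) ≤ 0 := by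
    rw [← sum_add_distrib]
    refine sum_nonpos fun i hi => ?_
    obtain ⟨hi1, hi2⟩ := mem_filter.1 hi
    have b1 := hL i (mem_range.1 hi1) hi2
    have b2 : (((touchU V h C L).filter fun v => h v ∉ L ∧ i ∈ C v).card : ℤ)
        ≤ ((V.filter fun v => i ∈ C v).card : ℤ) := by
      exact_mod_cast card_le_card fun v hv => by
        obtain ⟨c1, -, c2⟩ := mem_filter.1 hv
        exact mem_filter.2 ⟨(mem_filter.1 c1).1, c2⟩
    have b3 : s i + (((touchU V h C L).filter fun v => h v ∉ L ∧ i ∈ C v).card : ℤ) ≤ 0 := by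
      linarith
    exact_mod_cast b3
  -- every touching unit with a host outside has a light counted row
  have a2 : (((touchU V h C L).filter fun v => h v ∉ L).card : ℝ)
      ≤ ∑ i ∈ (range n).filter (fun i => i ∈ L),
        (((touchU V h C L).filter fun v => h v ∉ L ∧ i ∈ C v).card : ℝ) := by
    have b1 : (touchU V h C L).filter (fun v => h v ∉ L)
        ⊆ ((range n).filter (fun i => i ∈ L)).biUnion
          (fun i => (touchU V h C L).filter fun v => h v ∉ L ∧ i ∈ C v) := by
      intro v hv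
      obtain ⟨c1, c2⟩ := mem_filter.1 hv
      obtain ⟨c3, c4⟩ := mem_filter.1 c1
      have c5 : ¬ Disjoint (C v) L := fun c6 => c4 ⟨c2, c6⟩
      obtain ⟨i, c6, c7⟩ := not_disjoint_iff.1 c5
      exact mem_biUnion.2 ⟨i, mem_filter.2 ⟨mem_range.2 (hC v c3 i c6), c7⟩,
        mem_filter.2 ⟨c1, c2, c6⟩⟩
    have b2 := (card_le_card b1).trans card_biUnion_le
    exact_mod_cast b2
  -- the hosts outside
  have a3 : ∑ z ∈ (range n).filter (fun i => i ∉ L),
      (((touchU V h C L).filter fun v => h v = z).card : ℝ)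
      = (((touchU V h C L).filter fun v => h v ∉ L).card : ℝ) := by
    have b1 : ((touchU V h C L).filter fun v => h v ∉ L).card
        = ∑ z ∈ (range n).filter (fun i => i ∉ L),
          (((touchU V h C L).filter fun v => h v ∉ L).filter fun v => h v = z).card := by
      refine card_eq_sum_card_fiberwise fun v hv => ?_
      obtain ⟨c1, c2⟩ := mem_filter.1 (mem_coe.1 hv)
      exact mem_coe.2 (mem_filter.2 ⟨mem_range.2 (hh v (mem_filter.1 c1).1), c2⟩)
    rw [b1]
    push_cast
    refine sum_congr rfl fun z hz => ?_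
    have hz2 := (mem_filter.1 hz).2
    have b2 : ((touchU V h C L).filter fun v => h v ∉ L).filter (fun v => h v = z)
        = (touchU V h C L).filter fun v => h v = z := by
      ext v
      simp only [mem_filter]
      constructor
      · rintro ⟨⟨c1, -⟩, c2⟩
        exact ⟨c1, c2⟩
      · rintro ⟨c1, c2⟩
        exact ⟨⟨c1, by rw [c2]; exact hz2⟩, c2⟩
    rw [b2]
  -- the free units, rows outside `L`
  have a4 : ∑ z ∈ (range n).filter (fun i => i ∉ L),
      (((freeU V h C L).filter fun v => z ∈ C v).card : ℝ)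
      = ∑ v ∈ freeU V h C L, ((C v).card : ℝ) := by
    have b1 : ∀ z ∈ (range n).filter (fun i => i ∉ L),
        (((freeU V h C L).filter fun v => z ∈ C v).card : ℝ)
          = ∑ v ∈ freeU V h C L, if z ∈ C v then (1 : ℝ) else 0 := by
      intro z _
      rw [← sum_filter, sum_const, nsmul_eq_mul, mul_one]
    rw [sum_congr rfl b1, sum_comm]
    refine sum_congr rfl fun v hv => ?_
    obtain ⟨c1, c2, c3⟩ := mem_filter.1 hv
    rw [← sum_filter, sum_const, nsmul_eq_mul, mul_one]
    have b2 : ((range n).filter (fun i => i ∉ L)).filter (fun z => z ∈ C v) = C v := by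
      ext i
      simp only [mem_filter, mem_range]
      constructor
      · rintro ⟨-, c4⟩
        exact c4
      · intro c4
        exact ⟨⟨hC v c1 i c4, disjoint_left.1 c3 c4⟩, c4⟩
    rw [b2]
  have a5 : ∑ z ∈ (range n).filter (fun i => i ∉ L),
      ∑ v ∈ (freeU V h C L).filter (fun v => z ∈ C v), co z v
      = ∑ v ∈ freeU V h C L, ∑ i ∈ C v, co i v := by
    have b1 : ∀ z ∈ (range n).filter (fun i => i ∉ L),
        ∑ v ∈ (freeU V h C L).filter (fun v => z ∈ C v), co z v
          = ∑ v ∈ freeU V h C L, if z ∈ C v then co z v else 0 := by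
      intro z _
      rw [← sum_filter]
    rw [sum_congr rfl b1, sum_comm]
    refine sum_congr rfl fun v hv => ?_
    obtain ⟨c1, c2, c3⟩ := mem_filter.1 hv
    rw [← sum_filter]
    refine sum_congr ?_ fun _ _ => rfl
    ext i
    simp only [mem_filter, mem_range]
    constructor
    · rintro ⟨-, c4⟩
      exact c4
    · intro c4
      exact ⟨⟨hC v c1 i c4, disjoint_left.1 c3 c4⟩, c4⟩
  have a6 : ∑ z ∈ (range n).filter (fun i => i ∉ L),
      ∑ v ∈ (freeU V h C L).filter (fun v => h v = z), co z v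
      = ∑ v ∈ freeU V h C L, co (h v) v := by
    have b1 : ∀ z ∈ (range n).filter (fun i => i ∉ L),
        ∑ v ∈ (freeU V h C L).filter (fun v => h v = z), co z v
          = ∑ v ∈ (freeU V h C L).filter (fun v => h v = z), co (h v) v := by
      intro z _
      refine sum_congr rfl fun v hv => ?_
      rw [(mem_filter.1 hv).2]
    rw [sum_congr rfl b1]
    refine sum_fiberwise_of_maps_to (fun v hv => ?_) _
    obtain ⟨c1, c2, c3⟩ := mem_filter.1 hv
    exact mem_filter.2 ⟨mem_range.2 (hh v c1), c2⟩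
  have a7 : ∑ z ∈ (range n).filter (fun i => i ∉ L),
      ((s z : ℝ) + (((freeU V h C L).filter fun v => z ∈ C v).card : ℝ))
      ≤ ∑ z ∈ (range n).filter (fun i => i ∉ L),
        (∑ v ∈ (freeU V h C L).filter (fun v => h v = z), co z v
          + ∑ v ∈ (freeU V h C L).filter (fun v => z ∈ C v), co z v
          + (((touchU V h C L).filter fun v => h v = z).card : ℝ) + δ z) := by
    refine sum_le_sum fun z hz => ?_
    obtain ⟨c1, c2⟩ := mem_filter.1 hz
    exact h2 z (mem_range.1 c1) c2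
  rw [sum_add_distrib, sum_add_distrib, sum_add_distrib, sum_add_distrib, a3, a4, a5, a6] at a7
  have a8 : ∑ v ∈ freeU V h C L, co (h v) v + ∑ v ∈ freeU V h C L, ∑ i ∈ C v, co i v
      ≤ ∑ v ∈ freeU V h C L, ((C v).card : ℝ) := by
    rw [← sum_add_distrib]
    exact sum_le_sum h1
  have a9 : ∑ i ∈ (range n).filter (fun i => i ∈ L), (s i : ℝ)
      + ∑ i ∈ (range n).filter (fun i => i ∉ L), (s i : ℝ) = 1 := by
    rw [sum_filter_add_sum_filter_not]
    exact_mod_cast hs
  linarith

/-- the closing without light rows -/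
theorem units_close0 (hs : ∑ i ∈ range n, s i = 1) (hh : ∀ v ∈ V, h v < n)
    (hC : ∀ v ∈ V, ∀ i ∈ C v, i < n) {co : ℕ → κ → ℝ} {δ : ℕ → ℝ}
    (h1 : ∀ v ∈ V, co (h v) v + ∑ i ∈ C v, co i v ≤ ((C v).card : ℝ))
    (h2 : ∀ z < n, (s z : ℝ) + ((V.filter fun v => z ∈ C v).card : ℝ)
        ≤ ∑ v ∈ V.filter (fun v => h v = z), co z v
          + ∑ v ∈ V.filter (fun v => z ∈ C v), co z v + δ z)
    (h3 : ∑ i ∈ range n, δ i < 1) : False := by
  have e1 : freeU V h C ∅ = V := by
    unfold freeU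
    refine filter_true_of_mem fun v _ => ⟨notMem_empty _, disjoint_empty_right _⟩
  have e2 : touchU V h C ∅ = ∅ := by
    unfold touchU
    refine filter_false_of_mem fun v _ => ?_
    rw [not_not]
    exact ⟨notMem_empty _, disjoint_empty_right _⟩
  refine units_close (L := ∅) (co := co) (δ := δ) hs hh hC (fun i _ hi => absurd hi (notMem_empty i))
    (by rw [e1]; exact h1) ?_ ?_
  · intro z hz _
    rw [e1, e2]
    simpa using h2 z hz
  · simpa using h3

/-- the light rows -/
noncomputable def lightU (n : ℕ) (s : ℕ → ℤ) (V : Finset κ) (C : κ → Finset ℕ) : Finset ℕ :=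
  (range n).filter fun i => s i + ((V.filter fun v => i ∈ C v).card : ℤ) ≤ 0

lemma mem_lightU {i : ℕ} : i ∈ lightU n s V C
    ↔ i < n ∧ s i + ((V.filter fun v => i ∈ C v).card : ℤ) ≤ 0 := by
  unfold lightU
  rw [mem_filter, mem_range]

lemma not_lightU {i : ℕ} (hi : i < n) : i ∉ lightU n s V C
    ↔ 1 ≤ s i + ((V.filter fun v => i ∈ C v).card : ℤ) := by
  rw [mem_lightU]
  constructor
  · intro h1
    by_contra h2
    exact h1 ⟨hi, by omega⟩
  · rintro h1 ⟨-, h2⟩
    omega

/-- **the closing with all light rows taken out**: the other rows have `1 ≤ s z + #{v : z ∈ C v}` -/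
theorem units_closeL (hs : ∑ i ∈ range n, s i = 1) (hh : ∀ v ∈ V, h v < n)
    (hC : ∀ v ∈ V, ∀ i ∈ C v, i < n) {co : ℕ → κ → ℝ} {δ : ℕ → ℝ}
    (h1 : ∀ v ∈ freeU V h C (lightU n s V C),
      co (h v) v + ∑ i ∈ C v, co i v ≤ ((C v).card : ℝ))
    (h2 : ∀ z < n, z ∉ lightU n s V C → 1 ≤ s z + ((V.filter fun v => z ∈ C v).card : ℤ) →
      (s z : ℝ) + (((freeU V h C (lightU n s V C)).filter fun v => z ∈ C v).card : ℝ)
        ≤ ∑ v ∈ (freeU V h C (lightU n s V C)).filter (fun v => h v = z), co z v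
          + ∑ v ∈ (freeU V h C (lightU n s V C)).filter (fun v => z ∈ C v), co z v
          + (((touchU V h C (lightU n s V C)).filter fun v => h v = z).card : ℝ) + δ z)
    (h3 : ∑ i ∈ (range n).filter (fun i => i ∉ lightU n s V C), δ i < 1) : False :=
  units_close (L := lightU n s V C) (co := co) (δ := δ) hs hh hC
    (fun i _ hi => (mem_lightU.1 hi).2) h1
    (fun z hz hzL => h2 z hz hzL ((not_lightU hz).1 hzL)) h3

/-- from tzN: a row which is not light -/
lemma heavy_tzn {R A m s k B : ℤ} (hN : 2 * (m + k) ≤ R → (R - 2 * (m + k)) * (s + k)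
    ≤ A * (m + k) + B) (hA : 0 ≤ A) (hB : 0 ≤ B) (hm : 0 ≤ m + k) (hs : 1 ≤ s + k) :
    R ≤ (A + 2) * (m + k) + B := by
  by_cases h1 : 2 * (m + k) ≤ R
  · have h2 := hN h1
    have h3 := mul_le_mul_of_nonneg_left hs (show 0 ≤ R - 2 * (m + k) by linarith)
    nlinarith
  · have h2 := mul_nonneg hA hm
    nlinarith

end LightPS

section LightPC

variable {ι κ : Type*} {R : ℤ} {n : ℕ} {t s mu : ℕ → ℤ} {U : Finset ι} {ho : ι → ℕ} {vl : ι → ℤ}
  {kp mn : ℕ → ι → ℤ} {pc ar : ι → ℤ} {be kq NN sg : ℕ → ℕ → ℤ} {nu : ℕ → ι → ℤ}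
  {V : Finset κ} {h : κ → ℕ} {C : κ → Finset ℕ}

/-- the closing over units, on the contract -/
theorem PCon.close_units (H : PCon R n t s mu U ho vl kp mn pc ar be kq NN sg nu)
    (hh : ∀ v ∈ V, h v < n) (hC : ∀ v ∈ V, ∀ i ∈ C v, i < n) {co : ℕ → κ → ℝ} {δ : ℕ → ℝ}
    (h1 : ∀ v ∈ V, co (h v) v + ∑ i ∈ C v, co i v ≤ ((C v).card : ℝ))
    (h2 : ∀ z < n, (s z : ℝ) + ((V.filter fun v => z ∈ C v).card : ℝ)
        ≤ ∑ v ∈ V.filter (fun v => h v = z), co z v
          + ∑ v ∈ V.filter (fun v => z ∈ C v), co z v + δ z)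
    (h3 : ∑ i ∈ range n, δ i < 1) : False :=
  units_close0 H.ss hh hC h1 h2 h3

/-- the closing over units with all light rows taken out, on the contract -/
theorem PCon.close_light (H : PCon R n t s mu U ho vl kp mn pc ar be kq NN sg nu)
    (hh : ∀ v ∈ V, h v < n) (hC : ∀ v ∈ V, ∀ i ∈ C v, i < n) {co : ℕ → κ → ℝ} {δ : ℕ → ℝ}
    (h1 : ∀ v ∈ freeU V h C (lightU n s V C),
      co (h v) v + ∑ i ∈ C v, co i v ≤ ((C v).card : ℝ))
    (h2 : ∀ z < n, z ∉ lightU n s V C → 1 ≤ s z + ((V.filter fun v => z ∈ C v).card : ℤ) →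
      (s z : ℝ) + (((freeU V h C (lightU n s V C)).filter fun v => z ∈ C v).card : ℝ)
        ≤ ∑ v ∈ (freeU V h C (lightU n s V C)).filter (fun v => h v = z), co z v
          + ∑ v ∈ (freeU V h C (lightU n s V C)).filter (fun v => z ∈ C v), co z v
          + (((touchU V h C (lightU n s V C)).filter fun v => h v = z).card : ℝ) + δ z)
    (h3 : ∑ i ∈ (range n).filter (fun i => i ∉ lightU n s V C), δ i < 1) : False :=
  units_closeL H.ss hh hC h1 h2 h3

end LightPC

end Pool.Agent.Lib.MP_f04ccf_co
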