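import Pool.Agent.Lib.MP_f04ccf_co.M.CorA
import Pool.Agent.Lib.MP_f04ccf_co.S2Red

/-!
MP_f04ccf_co: the load inequality (L) and the global load inequality (G) of note 14874.
-/

set_option autoImplicit false

namespace Pool.Agent.Lib.MP_f04ccf_co.Mn

open Finset

attribute [local instance] Classical.propDecidable

section Gen

variable {V : Type*} {G : SimpleGraph V} {r : ℕ}

/-- (L): `2 e(J, L) ≤ 2 m(L) + 2 R u + 2 |J| (1 - u) + 2 ne(J)`, `u = r - |L|` -/
lemma load_le (hP : PG G r) {L J : Finset V} (hd : Disjoint L J) :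
    2 * ∑ v ∈ J, (dg G L v : ℤ) ≤ NE G L + NE G J + 2 * ((r : ℤ) - 1) * (r - L.card)
      + 2 * J.card * (1 - (r - L.card)) := by
  have h1 := hP.ne1 (L ∪ J)
  rw [NE_union hd, card_union_of_disjoint hd] at h1
  have h2 : ∑ v ∈ J, ((dg G L v : ℤ) + nd G L v) = J.card * L.card := by
    have h3 : ∀ x ∈ J, ((dg G L x : ℤ) + nd G L x) = L.card := by
      intro x hx
      have := nd_of_notMem (G := G) (disjoint_right.1 hd hx)
      exact_mod_cast this
    rw [sum_congr rfl h3, sum_const, nsmul_eq_mul]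
  rw [sum_add_distrib] at h2
  push_cast at h1
  nlinarith

/-- the global load inequality (G): `U` is the disjoint union of `Λ` and `L i`, `i ∈ T`, `|T| = k`,
`|U| = k r + 1`; `K i` is a subset of `U` outside `L i` and `Λ`. -/
theorem load_G (hP : PG G r) {ι : Type*} (T : Finset ι) (L K : ι → Finset V) (Lam : Finset V)
    (hd : ∀ i ∈ T, ∀ j ∈ T, i ≠ j → Disjoint (L i) (L j)) (hLam : ∀ i ∈ T, Disjoint (L i) Lam)
    (hc : (∑ i ∈ T, (L i).card) + Lam.card = T.card * r + 1)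
    (hKL : ∀ i ∈ T, Disjoint (L i) (K i)) (hKLam : ∀ i ∈ T, Disjoint Lam (K i)) :
    2 * (((r : ℤ) - 1) + Lam.card)
      + 2 * ∑ v ∈ Lam, ((dg G (Lam ∪ T.biUnion L) v : ℤ) - r)
      + 2 * ∑ i ∈ T, ∑ v ∈ K i, (dg G (L i) v : ℤ)
      ≤ ∑ i ∈ T, (NE G (L i) : ℤ) + 2 * T.card * Lam.card + 2 * (∑ i ∈ T, ((K i).card : ℤ))
        + ((T.card : ℤ) - 2) * NE G Lam
        + ∑ i ∈ T, ((NE G (K i) : ℤ) + 2 * ∑ v ∈ K i, (nd G Lam v : ℤ)
          - 2 * (K i).card * (r - (L i).card)) := by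
  -- (L) for each row
  have h1 : ∀ i ∈ T, 2 * ∑ v ∈ Lam, (dg G (L i) v : ℤ) + 2 * ∑ v ∈ K i, (dg G (L i) v : ℤ)
      ≤ NE G (L i) + (NE G Lam + NE G (K i) + 2 * ∑ v ∈ K i, (nd G Lam v : ℤ))
        + 2 * ((r : ℤ) - 1) * (r - (L i).card)
        + 2 * (Lam.card + (K i).card) * (1 - (r - (L i).card)) := by
    intro i hi
    have hJ : Disjoint (L i) (Lam ∪ K i) := disjoint_union_right.2 ⟨hLam i hi, hKL i hi⟩
    have h2 := load_le hP hJ
    rw [sum_union (hKLam i hi), NE_union (hKLam i hi), card_union_of_disjoint (hKLam i hi)] at h2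
    push_cast at h2
    linarith
  have h2 := sum_le_sum h1
  have hcZ : (∑ i ∈ T, ((L i).card : ℤ)) + Lam.card = T.card * r + 1 := by exact_mod_cast hc
  -- degrees of Λ
  have h3 : ∑ v ∈ Lam, (dg G (Lam ∪ T.biUnion L) v : ℤ)
      = ∑ v ∈ Lam, (dg G Lam v : ℤ) + ∑ i ∈ T, ∑ v ∈ Lam, (dg G (L i) v : ℤ) := by
    rw [sum_comm, ← sum_add_distrib]
    refine sum_congr rfl fun v _ => ?_
    have hdj : Disjoint Lam (T.biUnion L) := by
      rw [disjoint_biUnion_right]
      exact fun i hi => (hLam i hi).symm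
    have e1 : dg G (Lam ∪ T.biUnion L) v = dg G Lam v + dg G (T.biUnion L) v := by
      unfold dg
      rw [filter_union, card_union_of_disjoint (disjoint_filter_filter hdj)]
    have e2 : dg G (T.biUnion L) v = ∑ i ∈ T, dg G (L i) v := by
      unfold dg
      rw [filter_biUnion, card_biUnion]
      exact fun i hi j hj hij => disjoint_filter_filter (hd i hi j hj hij)
    rw [e1, e2]
    push_cast
    rfl
  have h4 := E_add_NE (G := G) Lam
  have h5 : (E G Lam : ℤ) = ∑ v ∈ Lam, (dg G Lam v : ℤ) := by unfold E; push_cast; rfl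
  rw [sum_sub_distrib, sum_const, nsmul_eq_mul, h3]
  -- expand the sum
  simp only [sum_add_distrib, sum_sub_distrib, ← mul_sum, sum_const, nsmul_eq_mul] at h2 ⊢
  have h7 : ∑ i ∈ T, 2 * ((Lam.card : ℤ) + (K i).card) * (1 - (r - ((L i).card : ℤ)))
      = 2 * Lam.card * (T.card - (T.card * r - ∑ i ∈ T, ((L i).card : ℤ)))
        + (2 * ∑ i ∈ T, ((K i).card : ℤ) - ∑ i ∈ T, 2 * ((K i).card : ℤ) * (r - (L i).card)) := by
    have e1 : ∀ i, 2 * ((Lam.card : ℤ) + (K i).card) * (1 - (r - ((L i).card : ℤ)))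
        = 2 * Lam.card * (1 - (r - ((L i).card : ℤ)))
          + (2 * ((K i).card : ℤ) - 2 * ((K i).card : ℤ) * (r - (L i).card)) := fun i => by ring
    rw [sum_congr rfl fun i _ => e1 i, sum_add_distrib, ← mul_sum, sum_sub_distrib,
      sum_sub_distrib, sum_sub_distrib, sum_const, sum_const, nsmul_eq_mul, nsmul_eq_mul, ← mul_sum,
      mul_one]
  have hSL : ∑ i ∈ T, ((L i).card : ℤ) = T.card * r + 1 - Lam.card := by linarith
  rw [h7, hSL] at h2
  rw [← h5]
  nlinarith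

end Gen

end Pool.Agent.Lib.MP_f04ccf_co.Mn
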