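import Mathlib

/-!
MP_f04ccf_co: finite part, tables of one row (notes 16681, 16709).  `Loc.Lv`: a level (`a` units, at
least `g` hits, value at most `v`).  `Loc.best F C fuel L k S`: the largest total value of a multiset
of levels of `L` which passes all tests (`k` units have at most `F k` hits) and has at most `C` hits;
`Loc.best_sound`.  `Loc.levOK`: the levels of a potential of the misses.
-/

set_option autoImplicit false

namespace Pool.Agent.Lib.MP_f04ccf_co

namespace Loc

open Finset

/-- a level: `a` units, at least `g` hits, value at most `v` -/
structure Lv where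
  a : ℕ
  g : ℕ
  v : ℕ

/-- the largest total value of a multiset of levels which passes the tests -/
def best (F : ℕ → ℕ) (C : ℕ) : ℕ → List Lv → ℕ → ℕ → Option ℕ
  | 0, _, _, _ => none
  | _ + 1, [], _, _ => some 0
  | f + 1, p :: L, k, S =>
    match best F C f L k S with
    | none => none
    | some r =>
      match Nat.ble (S + p.g) C && Nat.ble (S + p.g) (F (k + p.a)) with
      | false => some r
      | true =>
        match best F C f (p :: L) (k + p.a) (S + p.g) with
        | none => none
        | some r' => some (Nat.max r (p.v + r'))

variable {ι : Type*}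

/-- the item with `a` units, `g` hits and value `v` belongs to the level `p` -/
def Mt (p : Lv) (a g v : ℕ) : Prop := a = p.a ∧ p.g ≤ g ∧ v ≤ p.v

private lemma best_aux [DecidableEq ι] {F : ℕ → ℕ} {C : ℕ} (a g v : ι → ℕ) :
    ∀ (f : ℕ) (L : List Lv) (k S b : ℕ), best F C f L k S = some b →
      ∀ U K0 : Finset ι, Disjoint U K0 → (∀ u ∈ U, ∃ p ∈ L, Mt p (a u) (g u) (v u)) →
        (∀ K, K ⊆ U ∪ K0 → ∑ u ∈ K, g u ≤ F (∑ u ∈ K, a u)) → ∑ u ∈ U ∪ K0, g u ≤ C →
        k = ∑ u ∈ K0, a u → S ≤ ∑ u ∈ K0, g u → ∑ u ∈ U, v u ≤ b := by
  intro f
  induction f with
  | zero =>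
    intro L k S b hb
    rw [best] at hb
    exact absurd hb (by simp)
  | succ f ih =>
    intro L k S b hb U K0 hd hm hT hC hk hS
    rcases L with _ | ⟨p, L⟩
    · have hU : U = ∅ := by
        by_contra h
        obtain ⟨u, hu⟩ := nonempty_iff_ne_empty.2 h
        obtain ⟨p, hp, -⟩ := hm u hu
        simp at hp
      rw [hU, sum_empty]
      exact Nat.zero_le _
    · rw [best] at hb
      rcases h1 : best F C f L k S with _ | r
      · rw [h1] at hb
        exact absurd hb (by simp)
      · rw [h1] at hb
        simp only at hb
        by_cases hu : ∃ u ∈ U, Mt p (a u) (g u) (v u)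
        · obtain ⟨u, huU, ha, hg, hv⟩ := hu
          have huK : u ∉ K0 := fun h => (disjoint_left.1 hd) huU h
          have hun : insert u K0 ⊆ U ∪ K0 := by
            intro w hw
            rcases mem_insert.1 hw with rfl | hw
            · exact mem_union_left _ huU
            · exact mem_union_right _ hw
          have h2 : S + p.g ≤ ∑ w ∈ insert u K0, g w := by
            rw [sum_insert huK]
            omega
          have h3 : S + p.g ≤ C := h2.trans ((sum_le_sum_of_subset hun).trans hC)
          have h4 : k + p.a = ∑ w ∈ insert u K0, a w := by
            rw [sum_insert huK, hk, ha]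
            omega
          have h5 : S + p.g ≤ F (k + p.a) := by
            rw [h4]
            exact h2.trans (hT _ hun)
          have h6 : (Nat.ble (S + p.g) C && Nat.ble (S + p.g) (F (k + p.a))) = true := by
            rw [Bool.and_eq_true]
            exact ⟨Nat.ble_eq ▸ h3, Nat.ble_eq ▸ h5⟩
          rw [h6] at hb
          simp only at hb
          rcases h7 : best F C f (p :: L) (k + p.a) (S + p.g) with _ | r'
          · rw [h7] at hb
            exact absurd hb (by simp)
          · rw [h7] at hb
            simp only [Option.some.injEq] at hb
            have h8 := ih _ _ _ _ h7 (U.erase u) (insert u K0)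
              (by
                rw [disjoint_left]
                intro w hw hw'
                rcases mem_insert.1 hw' with rfl | hw'
                · exact (notMem_erase w U) hw
                · exact (disjoint_left.1 hd) (mem_of_mem_erase hw) hw')
              (fun w hw => hm w (mem_of_mem_erase hw))
              (fun K hK => hT K (hK.trans (by
                intro w hw
                rcases mem_union.1 hw with hw | hw
                · exact mem_union_left _ (mem_of_mem_erase hw)
                · exact hun hw)))
              (by
                have e : U.erase u ∪ insert u K0 = U ∪ K0 := by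
                  ext w
                  simp only [mem_union, mem_erase, mem_insert]
                  constructor
                  · rintro (⟨-, h⟩ | rfl | h)
                    · exact Or.inl h
                    · exact Or.inl huU
                    · exact Or.inr h
                  · rintro (h | h)
                    · by_cases hw : w = u
                      · exact Or.inr (Or.inl hw)
                      · exact Or.inl ⟨hw, h⟩
                    · exact Or.inr (Or.inr h)
                rw [e]
                exact hC) h4 h2
            have h9 : ∑ w ∈ U, v w = v u + ∑ w ∈ U.erase u, v w := (add_sum_erase U v huU).symm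
            have h10 : p.v + r' ≤ b := by
              rw [← hb]
              exact Nat.le_max_right _ _
            omega
        · have hm' : ∀ u ∈ U, ∃ q ∈ L, Mt q (a u) (g u) (v u) := by
            intro u huU
            obtain ⟨q, hq, h⟩ := hm u huU
            rcases List.mem_cons.1 hq with rfl | hq
            · exact absurd ⟨u, huU, h⟩ hu
            · exact ⟨q, hq, h⟩
          have h2 := ih _ _ _ _ h1 U K0 hd hm' hT hC hk hS
          have h3 : r ≤ b := by
            rcases h4 : (Nat.ble (S + p.g) C && Nat.ble (S + p.g) (F (k + p.a))) with _ | _
            · rw [h4] at hb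
              simp only [Option.some.injEq] at hb
              omega
            · rw [h4] at hb
              simp only at hb
              rcases h7 : best F C f (p :: L) (k + p.a) (S + p.g) with _ | r'
              · rw [h7] at hb
                exact absurd hb (by simp)
              · rw [h7] at hb
                simp only [Option.some.injEq] at hb
                rw [← hb]
                exact Nat.le_max_left _ _
          exact h2.trans h3

/-- **soundness of `best`**: items with `a` units, `g` hits and value `v` each, all of them (except
those of value `0`) in a level of `L`; every selection with `k` units has at most `F k` hits, all have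
at most `C` hits together -/
theorem best_sound {F : ℕ → ℕ} {C f b : ℕ} {L : List Lv} (hb : best F C f L 0 0 = some b)
    (U : Finset ι) (a g v : ι → ℕ) (hm : ∀ u ∈ U, v u ≠ 0 → ∃ p ∈ L, Mt p (a u) (g u) (v u))
    (hT : ∀ K, K ⊆ U → ∑ u ∈ K, g u ≤ F (∑ u ∈ K, a u)) (hC : ∑ u ∈ U, g u ≤ C) :
    ∑ u ∈ U, v u ≤ b := by
  classical
  have h1 : ∑ u ∈ U, v u = ∑ u ∈ U.filter (fun u => v u ≠ 0), v u :=
    (sum_filter_ne_zero U).symm
  rw [h1]
  refine best_aux a g v f L 0 0 b hb (U.filter fun u => v u ≠ 0) ∅ (disjoint_empty_right _)
    (fun u hu => hm u (mem_filter.1 hu).1 (mem_filter.1 hu).2) (fun K hK => hT K ?_) ?_ (by simp)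
    (by simp)
  · rw [union_empty] at hK
    exact hK.trans (filter_subset _ _)
  · rw [union_empty]
    exact (sum_le_sum_of_subset (filter_subset _ _)).trans hC

/-- the levels `L` contain every placement with `b < c` misses of one unit: value `lam b` -/
def levOK (lam : ℕ → ℕ) (L : List Lv) (c : ℕ) : Bool :=
  (List.range (c + 1)).all fun b => Nat.beq (lam b) 0 ||
    L.any fun p => Nat.beq p.a 1 && Nat.ble p.g (c - b) && Nat.ble (lam b) p.v

theorem levOK_mt {lam : ℕ → ℕ} {L : List Lv} {c : ℕ} (h : levOK lam L c = true) {b : ℕ}
    (hb : b ≤ c) (h0 : lam b ≠ 0) : ∃ p ∈ L, Mt p 1 (c - b) (lam b) := by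
  rw [levOK, List.all_eq_true] at h
  have h1 := h b (List.mem_range.2 (by omega))
  rw [Bool.or_eq_true, Nat.beq_eq, List.any_eq_true] at h1
  rcases h1 with h1 | ⟨p, hp, h2⟩
  · exact absurd h1 h0
  · rw [Bool.and_eq_true, Bool.and_eq_true, Nat.beq_eq, Nat.ble_eq, Nat.ble_eq] at h2
    exact ⟨p, hp, h2.1.1.symm, h2.1.2, h2.2⟩

end Loc

end Pool.Agent.Lib.MP_f04ccf_co
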