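import Pool.Agent.Lib.MP_f04ccf_co.M.LvI

/-!
MP_f04ccf_co, PLAN W, finite and middle range: **the items in single ends**.
`Lv.ens U ho kp i`: the ends at the row `i`, pairs `(u, l)` with `l < kp i u`; `Lv.bm`: the misses of an
end (`mn i u` for the last end of the item, `0` for the first end of a double tail).
`LvI.tE`, `LvI.cE`, `LvI.kE`: the row test, the row test with columns and the cell test for any sets of
ends, where every end counts two points (the end of a PC pair one point).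
-/

set_option autoImplicit false

namespace Pool.Agent.Lib.MP_f04ccf_co

open Finset

attribute [local instance] Classical.propDecidable

namespace Lv

variable {ι : Type*}

/-- the ends at the row `i` -/
noncomputable def ens (U : Finset ι) (ho : ι → ℕ) (kp : ℕ → ι → ℤ) (i : ℕ) : Finset (ι × ℕ) :=
  ((U.filter fun u => ho u ≠ i) ×ˢ range 2).filter fun x => (x.2 : ℤ) < kp i x.1

/-- the misses of an end -/
noncomputable def bm (kp mn : ℕ → ι → ℤ) (i : ℕ) (x : ι × ℕ) : ℤ :=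
  if kp i x.1 ≤ (x.2 : ℤ) + 1 then mn i x.1 else 0

variable {U : Finset ι} {ho : ι → ℕ} {kp mn : ℕ → ι → ℤ} {i : ℕ} {K : Finset (ι × ℕ)}

lemma mem_ens {x : ι × ℕ} : x ∈ ens U ho kp i ↔
    x.1 ∈ U ∧ ho x.1 ≠ i ∧ x.2 < 2 ∧ (x.2 : ℤ) < kp i x.1 := by
  unfold ens
  rw [mem_filter, mem_product, mem_filter, mem_range]
  tauto

/-- the items of a set of ends -/
noncomputable def its (K : Finset (ι × ℕ)) : Finset ι := K.image Prod.fst

/-- the level of an item -/
noncomputable def lev (K : Finset (ι × ℕ)) (u : ι) : ℕ := (K.filter fun x => x.1 = u).card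

lemma sum_its (K : Finset (ι × ℕ)) (f : ι × ℕ → ℤ) :
    ∑ u ∈ its K, ∑ x ∈ K.filter (fun x => x.1 = u), f x = ∑ x ∈ K, f x :=
  sum_fiberwise_of_maps_to (fun x hx => mem_image_of_mem _ hx) f

lemma its_sub (hK : K ⊆ ens U ho kp i) : its K ⊆ U := by
  intro u hu
  obtain ⟨x, hx, rfl⟩ := mem_image.1 hu
  exact (mem_ens.1 (hK hx)).1

lemma its_ho (hK : K ⊆ ens U ho kp i) : ∀ u ∈ its K, ho u ≠ i := by
  intro u hu
  obtain ⟨x, hx, rfl⟩ := mem_image.1 hu
  exact (mem_ens.1 (hK hx)).2.1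

lemma lev_pos {u : ι} (hu : u ∈ its K) : 1 ≤ lev K u := by
  obtain ⟨x, hx, rfl⟩ := mem_image.1 hu
  exact card_pos.2 ⟨x, mem_filter.2 ⟨hx, rfl⟩⟩

lemma lev_le (hK : K ⊆ ens U ho kp i) {u : ι} (hu : u ∈ its K) : (lev K u : ℤ) ≤ kp i u := by
  have h1 : ((K.filter fun x => x.1 = u).image Prod.snd) ⊆ range (kp i u).toNat := by
    intro l hl
    obtain ⟨x, hx, rfl⟩ := mem_image.1 hl
    obtain ⟨h2, h3⟩ := mem_filter.1 hx
    have h4 := (mem_ens.1 (hK h2)).2.2.2
    rw [h3] at h4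
    rw [mem_range]
    omega
  have h2 : ((K.filter fun x => x.1 = u).image Prod.snd).card = lev K u := by
    unfold lev
    refine card_image_of_injOn fun x hx y hy hxy => ?_
    have h3 := (mem_filter.1 (mem_coe.1 hx)).2
    have h4 := (mem_filter.1 (mem_coe.1 hy)).2
    exact Prod.ext (h3.trans h4.symm) hxy
  have h3 := card_le_card h1
  rw [h2, card_range] at h3
  have h4 : 0 ≤ kp i u := by
    obtain ⟨x, hx, rfl⟩ := mem_image.1 hu
    have := (mem_ens.1 (hK hx)).2.2.2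
    omega
  omega

lemma lev_two (hK : K ⊆ ens U ho kp i) (u : ι) : lev K u ≤ 2 := by
  have h1 : ((K.filter fun x => x.1 = u).image Prod.snd) ⊆ range 2 := by
    intro l hl
    obtain ⟨x, hx, rfl⟩ := mem_image.1 hl
    exact mem_range.2 (mem_ens.1 (hK (mem_filter.1 hx).1)).2.2.1
  have h2 : ((K.filter fun x => x.1 = u).image Prod.snd).card = lev K u := by
    unfold lev
    refine card_image_of_injOn fun x hx y hy hxy => ?_
    have h3 := (mem_filter.1 (mem_coe.1 hx)).2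
    have h4 := (mem_filter.1 (mem_coe.1 hy)).2
    exact Prod.ext (h3.trans h4.symm) hxy
  have h3 := card_le_card h1
  rw [h2, card_range] at h3
  exact h3

/-- the misses of the ends of one item -/
lemma bm_sum (hmn : ∀ u ∈ U, 0 ≤ mn i u) (hK : K ⊆ ens U ho kp i) {u : ι} (hu : u ∈ its K) :
    (if kp i u ≤ (lev K u : ℤ) then mn i u else 0)
      ≤ ∑ x ∈ K.filter (fun x => x.1 = u), bm kp mn i x := by
  have hU := its_sub hK hu
  have h0 : ∀ x ∈ K.filter (fun x => x.1 = u), 0 ≤ bm kp mn i x := by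
    intro x hx
    unfold bm
    split_ifs with h1
    · exact hmn _ (mem_ens.1 (hK (mem_filter.1 hx).1)).1
    · exact le_rfl
  split_ifs with h1
  · have h2 : ∃ x ∈ K.filter (fun x => x.1 = u), kp i x.1 ≤ (x.2 : ℤ) + 1 := by
      by_contra h3
      push Not at h3
      have h4 : ((K.filter fun x => x.1 = u).image Prod.snd) ⊆ range ((kp i u).toNat - 1) := by
        intro l hl
        obtain ⟨x, hx, rfl⟩ := mem_image.1 hl
        have h5 := h3 x hx
        rw [(mem_filter.1 hx).2] at h5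
        rw [mem_range]
        omega
      have h5 : ((K.filter fun x => x.1 = u).image Prod.snd).card = lev K u := by
        unfold lev
        refine card_image_of_injOn fun x hx y hy hxy => ?_
        have h6 := (mem_filter.1 (mem_coe.1 hx)).2
        have h7 := (mem_filter.1 (mem_coe.1 hy)).2
        exact Prod.ext (h6.trans h7.symm) hxy
      have h6 := card_le_card h4
      rw [h5, card_range] at h6
      have h7 := lev_pos hu
      omega
    obtain ⟨x, hx, h3⟩ := h2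
    have h4 : bm kp mn i x = mn i u := by
      unfold bm
      rw [if_pos h3, (mem_filter.1 hx).2]
    rw [← h4]
    exact single_le_sum h0 hx
  · exact sum_nonneg h0

/-- the hits of a set of ends -/
lemma hits_le (hmn : ∀ u ∈ U, 0 ≤ mn i u) (c : ℤ) (hK : K ⊆ ens U ho kp i) :
    ∑ x ∈ K, (c - bm kp mn i x)
      ≤ ∑ u ∈ its K, (c * lev K u - if kp i u ≤ (lev K u : ℤ) then mn i u else 0) := by
  rw [← sum_its]
  refine sum_le_sum fun u hu => ?_
  have h1 := bm_sum hmn hK hu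
  rw [sum_sub_distrib, sum_const, nsmul_eq_mul]
  unfold lev at h1 ⊢
  linarith

lemma card_eq (K : Finset (ι × ℕ)) : ∑ u ∈ its K, (lev K u : ℤ) = K.card := by
  have h1 := sum_its K fun _ => (1 : ℤ)
  simp only [sum_const, nsmul_eq_mul, mul_one] at h1
  exact h1

/-- a sum over the ends of a function of the item -/
lemma sum_le_ends (K : Finset (ι × ℕ)) (f : ι → ℤ) (hf : ∀ u ∈ its K, 0 ≤ f u) :
    ∑ u ∈ its K, f u ≤ ∑ x ∈ K, f x.1 := by
  rw [← sum_its K fun x => f x.1]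
  refine sum_le_sum fun u hu => ?_
  have h1 : ∑ x ∈ K.filter (fun x => x.1 = u), f x.1 = lev K u * f u := by
    rw [sum_congr rfl fun x hx => by rw [(mem_filter.1 hx).2], sum_const, nsmul_eq_mul]
    rfl
  rw [h1]
  have h2 : (1 : ℤ) ≤ lev K u := by exact_mod_cast lev_pos hu
  nlinarith [hf u hu]

end Lv

namespace LvI

open Lv

variable {ι : Type*} {R : ℤ} {n : ℕ} {t s h e : ℕ → ℤ} {U : Finset ι} {ho : ι → ℕ} {vl : ι → ℤ}
  {kp ms mr mn : ℕ → ι → ℤ} {mu : ℕ → ℤ} {be : ℕ → ℕ → ℤ} {pc ar : ι → ℤ}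

/-- **the row test for ends** -/
theorem tE (H : LvI R n t s h e U ho vl kp ms mr mn mu be pc ar)
    (m0 : ∀ u ∈ U, ∀ i < n, 0 ≤ ms i u) {i : ℕ} (hi : i < n) {K : Finset (ι × ℕ)}
    (hK : K ⊆ ens U ho kp i) (h0 : 0 ≤ s i + K.card) :
    2 * R * s i + 2 * ∑ x ∈ K, (R - t i - bm kp mn i x)
      ≤ 2 * e i + 4 * K.card * (s i + 1) + 2 * K.card * (2 * K.card - 1) := by
  have hmn : ∀ u ∈ U, 0 ≤ mn i u := fun u hu => (m0 u hu i hi).trans (H.msn u hu i hi)
  have h1 := H.rlv i hi (its K) (its_sub hK) (its_ho hK) (lev K) (fun u hu => lev_pos hu)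
    (fun u hu => lev_le hK hu) 0
  have h2 := hits_le hmn (R - t i) hK
  have hP : ∑ u ∈ its K, ((lev K u : ℤ) + 1) ≤ 2 * K.card := by
    rw [← card_eq K, mul_sum]
    exact sum_le_sum fun u hu => by
      have : (1 : ℤ) ≤ lev K u := by exact_mod_cast lev_pos hu
      linarith
  have hP0 : (K.card : ℤ) ≤ ∑ u ∈ its K, ((lev K u : ℤ) + 1) := by
    rw [← card_eq K]
    exact sum_le_sum fun u hu => by linarith
  set P := ∑ u ∈ its K, ((lev K u : ℤ) + 1)
  set k : ℤ := (K.card : ℤ)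
  nlinarith [mul_nonneg (sub_nonneg.2 hP) (show 0 ≤ 2 * s i + 2 + P + 2 * k - 1 by linarith)]

/-- the PC ends of a set of ends are PC items -/
lemma pc_ends (hkv : ∀ u ∈ U, ∀ i < n, kp i u ≤ vl u) (hpv : ∀ u ∈ U, pc u ≠ 0 → vl u = 1)
    {i : ℕ} (hi : i < n) {K : Finset (ι × ℕ)} (hK : K ⊆ ens U ho kp i) (f : ι → ℤ) :
    ∑ u ∈ its K, f u * pc u = ∑ x ∈ K, f x.1 * pc x.1 := by
  rw [← sum_its K fun x => f x.1 * pc x.1]
  refine sum_congr rfl fun u hu => ?_
  have h1 : ∑ x ∈ K.filter (fun x => x.1 = u), f x.1 * pc x.1 = lev K u * (f u * pc u) := by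
    rw [sum_congr rfl fun x hx => by rw [(mem_filter.1 hx).2], sum_const, nsmul_eq_mul]
    rfl
  rw [h1]
  by_cases h2 : pc u = 0
  · rw [h2]
    ring
  · have h3 := its_sub hK hu
    have h4 := hpv u h3 h2
    have h5 := hkv u h3 i hi
    have h6 := lev_le hK hu
    have h7 : (1 : ℤ) ≤ lev K u := by exact_mod_cast lev_pos hu
    have h8 : (lev K u : ℤ) = 1 := by linarith
    rw [h8]
    ring

/-- **the row test with columns for ends** -/
theorem cE (H : LvI R n t s h e U ho vl kp ms mr mn mu be pc ar)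
    (m0 : ∀ u ∈ U, ∀ i < n, 0 ≤ ms i u) (hkv : ∀ u ∈ U, ∀ i < n, kp i u ≤ vl u)
    (hp0 : ∀ u ∈ U, 0 ≤ pc u) (hp1 : ∀ u ∈ U, pc u ≤ 1) (hpv : ∀ u ∈ U, pc u ≠ 0 → vl u = 1)
    (ha0 : ∀ u ∈ U, 0 ≤ ar u) {i j : ℕ} (hi : i < n) (hj : j < n) (hij : i ≠ j)
    (htj : t j ≤ R) {K : Finset (ι × ℕ)} (hK : K ⊆ ens U ho kp i) (h0 : 0 ≤ s i + K.card) :
    2 * R * s i + 2 * ∑ x ∈ K, (R - t i - bm kp mn i x)
      + 2 * ∑ u ∈ U.filter (fun u => ho u = i), (kp j u * (R - t j) - ms j u)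
      ≤ 2 * e i
        + 2 * (2 * K.card - ∑ x ∈ K, (if ho x.1 = j then pc x.1 else 0) + (R - t j)) * (s i + 1)
        + (2 * K.card - ∑ x ∈ K, (if ho x.1 = j then pc x.1 else 0))
          * (2 * K.card - ∑ x ∈ K, (if ho x.1 = j then pc x.1 else 0) - 1)
        + 2 * ∑ x ∈ K, (if ho x.1 = j then ar x.1 else 2 * (R - t j))
        + 2 * (∑ x ∈ K, (if ho x.1 = j then pc x.1 else 0)) * be i j := by
  have hmn : ∀ u ∈ U, 0 ≤ mn i u := fun u hu => (m0 u hu i hi).trans (H.msn u hu i hi)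
  have h1 := H.clv i hi j hj hij (its K) (its_sub hK) (its_ho hK) (lev K) (fun u hu => lev_pos hu)
    (fun u hu => lev_le hK hu)
  have h2 := hits_le hmn (R - t i) hK
  have hp : ∑ u ∈ its K, (if ho u = j then pc u else 0)
      = ∑ x ∈ K, (if ho x.1 = j then pc x.1 else 0) := by
    have h3 := pc_ends hkv hpv hi hK fun u => if ho u = j then 1 else 0
    have h4 : ∀ u, (if ho u = j then (1 : ℤ) else 0) * pc u = if ho u = j then pc u else 0 := by
      intro u
      split_ifs <;> ring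
    simp only [h4] at h3
    exact h3
  have hP : ∑ u ∈ its K, ((lev K u : ℤ) + 1 - if ho u = j then pc u else 0)
      ≤ 2 * K.card - ∑ x ∈ K, (if ho x.1 = j then pc x.1 else 0) := by
    rw [← hp, sum_sub_distrib, ← card_eq K, mul_sum]
    have : ∑ u ∈ its K, ((lev K u : ℤ) + 1) ≤ ∑ u ∈ its K, 2 * (lev K u : ℤ) :=
      sum_le_sum fun u hu => by
        have : (1 : ℤ) ≤ lev K u := by exact_mod_cast lev_pos hu
        linarith
    linarith
  have hP0 : (K.card : ℤ) ≤ ∑ u ∈ its K, ((lev K u : ℤ) + 1 - if ho u = j then pc u else 0) := by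
    rw [← card_eq K]
    refine sum_le_sum fun u hu => ?_
    split_ifs
    · linarith [hp1 u (its_sub hK hu)]
    · linarith
  have hA : ∑ u ∈ its K, (if ho u = j then ar u else (R - t j) * ((lev K u : ℤ) + 1))
      ≤ ∑ x ∈ K, (if ho x.1 = j then ar x.1 else 2 * (R - t j)) := by
    rw [← sum_its K fun x => if ho x.1 = j then ar x.1 else 2 * (R - t j)]
    refine sum_le_sum fun u hu => ?_
    have h3 : ∑ x ∈ K.filter (fun x => x.1 = u), (if ho x.1 = j then ar x.1 else 2 * (R - t j))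
        = lev K u * (if ho u = j then ar u else 2 * (R - t j)) := by
      rw [sum_congr rfl fun x hx => by rw [(mem_filter.1 hx).2], sum_const, nsmul_eq_mul]
      rfl
    rw [h3]
    have h4 : (1 : ℤ) ≤ lev K u := by exact_mod_cast lev_pos hu
    split_ifs
    · nlinarith [ha0 u (its_sub hK hu)]
    · nlinarith
  rw [hp] at h1
  have hpk : ∑ x ∈ K, (if ho x.1 = j then pc x.1 else 0) ≤ K.card := by
    rw [← hp, ← card_eq K]
    refine sum_le_sum fun u hu => ?_
    have h4 : (1 : ℤ) ≤ lev K u := by exact_mod_cast lev_pos hu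
    split_ifs
    · exact (hp1 u (its_sub hK hu)).trans h4
    · linarith
  set P := ∑ u ∈ its K, ((lev K u : ℤ) + 1 - if ho u = j then pc u else 0)
  set p := ∑ x ∈ K, (if ho x.1 = j then pc x.1 else 0)
  set k : ℤ := (K.card : ℤ)
  have h5 : 0 ≤ (2 * k - p - P) * (2 * s i + 2 + P + (2 * k - p) - 1) :=
    mul_nonneg (by linarith) (by linarith)
  nlinarith

/-- the contribution of the ends to a cell test -/
noncomputable def cv (R : ℤ) (t : ℕ → ℤ) (kp mn : ℕ → ι → ℤ) (pc ar : ι → ℤ) (i : ℕ)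
    (x : ι × ℕ) : ℤ :=
  R + (if x.2 = 0 then (1 - pc x.1) * t i else 0) - bm kp mn i x - ar x.1

/-- a set of ends in a cell: the points and the value -/
lemma cell_ends (H : LvI R n t s h e U ho vl kp ms mr mn mu be pc ar)
    (m0 : ∀ u ∈ U, ∀ i < n, 0 ≤ ms i u) (hkv : ∀ u ∈ U, ∀ i < n, kp i u ≤ vl u)
    (hp1 : ∀ u ∈ U, pc u ≤ 1) (hpv : ∀ u ∈ U, pc u ≠ 0 → vl u = 1)
    (ha0 : ∀ u ∈ U, 0 ≤ ar u) {i : ℕ} (hi : i < n) (hti : 0 ≤ t i)
    {K : Finset (ι × ℕ)} (hK : K ⊆ ens U ho kp i) :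
    ∑ x ∈ K, cv R t kp mn pc ar i x
      ≤ ∑ u ∈ its K, (R * lev K u + (1 - pc u) * t i
        - (if kp i u ≤ (lev K u : ℤ) then mn i u else 0) - ar u)
    ∧ ∑ u ∈ its K, ((lev K u : ℤ) + 1 - pc u) ≤ 2 * K.card - ∑ x ∈ K, pc x.1
    ∧ (K.card : ℤ) ≤ ∑ u ∈ its K, ((lev K u : ℤ) + 1 - pc u)
    ∧ ∑ u ∈ its K, pc u = ∑ x ∈ K, pc x.1 := by
  have hmn : ∀ u ∈ U, 0 ≤ mn i u := fun u hu => (m0 u hu i hi).trans (H.msn u hu i hi)
  have hpc := pc_ends hkv hpv hi hK fun _ => 1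
  simp only [one_mul] at hpc
  refine ⟨?_, ?_, ?_, hpc⟩
  · rw [← sum_its K]
    refine sum_le_sum fun u hu => ?_
    have h1 := bm_sum hmn hK hu
    have h4 : (1 : ℤ) ≤ lev K u := by exact_mod_cast lev_pos hu
    have hU := its_sub hK hu
    have h5 : ∑ x ∈ K.filter (fun x => x.1 = u), cv R t kp mn pc ar i x
        = R * lev K u + (∑ x ∈ K.filter (fun x => x.1 = u), if x.2 = 0 then (1 - pc u) * t i else 0)
          - ∑ x ∈ K.filter (fun x => x.1 = u), bm kp mn i x - lev K u * ar u := by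
      unfold cv
      rw [sum_sub_distrib, sum_sub_distrib, sum_add_distrib, sum_const, nsmul_eq_mul]
      have e1 : ∑ x ∈ K.filter (fun x => x.1 = u), (if x.2 = 0 then (1 - pc x.1) * t i else 0)
          = ∑ x ∈ K.filter (fun x => x.1 = u), if x.2 = 0 then (1 - pc u) * t i else 0 :=
        sum_congr rfl fun x hx => by rw [(mem_filter.1 hx).2]
      have e2 : ∑ x ∈ K.filter (fun x => x.1 = u), ar x.1 = lev K u * ar u := by
        rw [sum_congr rfl fun x hx => by rw [(mem_filter.1 hx).2], sum_const, nsmul_eq_mul]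
        rfl
      rw [e1, e2]
      unfold lev
      ring
    have h6 : (∑ x ∈ K.filter (fun x => x.1 = u), if x.2 = 0 then (1 - pc u) * t i else 0)
        ≤ (1 - pc u) * t i := by
      rw [← sum_filter, sum_const, nsmul_eq_mul]
      have h7 : ((K.filter fun x => x.1 = u).filter fun x => x.2 = 0).card ≤ 1 := by
        refine card_le_one.2 fun x hx y hy => ?_
        obtain ⟨h8, h9⟩ := mem_filter.1 hx
        obtain ⟨h10, h11⟩ := mem_filter.1 hy
        exact Prod.ext ((mem_filter.1 h8).2.trans (mem_filter.1 h10).2.symm) (h9.trans h11.symm)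
      have h8 : (((K.filter fun x => x.1 = u).filter fun x => x.2 = 0).card : ℤ) ≤ 1 := by
        exact_mod_cast h7
      have h9 : 0 ≤ (1 - pc u) * t i := mul_nonneg (by linarith [hp1 u hU]) hti
      nlinarith
    rw [h5]
    nlinarith [ha0 u hU]
  · rw [← hpc, sum_sub_distrib, ← card_eq K, mul_sum]
    have : ∑ u ∈ its K, ((lev K u : ℤ) + 1) ≤ ∑ u ∈ its K, 2 * (lev K u : ℤ) :=
      sum_le_sum fun u hu => by
        have : (1 : ℤ) ≤ lev K u := by exact_mod_cast lev_pos hu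
        linarith
    linarith
  · rw [← card_eq K]
    refine sum_le_sum fun u hu => ?_
    linarith [hp1 u (its_sub hK hu)]

/-- **the cell test for ends** -/
theorem kE (H : LvI R n t s h e U ho vl kp ms mr mn mu be pc ar)
    (m0 : ∀ u ∈ U, ∀ i < n, 0 ≤ ms i u) (hkv : ∀ u ∈ U, ∀ i < n, kp i u ≤ vl u)
    (hp1 : ∀ u ∈ U, pc u ≤ 1) (hpv : ∀ u ∈ U, pc u ≠ 0 → vl u = 1)
    (ha0 : ∀ u ∈ U, 0 ≤ ar u) {i j : ℕ} (hi : i < n) (hj : j < n) (hij : i ≠ j)
    (hti : 0 ≤ t i) (htj : 0 ≤ t j) {K K' : Finset (ι × ℕ)} (hK : K ⊆ ens U ho kp j)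
    (hKi : ∀ x ∈ K, ho x.1 = i) (hK' : K' ⊆ ens U ho kp i) (hKj : ∀ x ∈ K', ho x.1 = j) :
    2 * ∑ x ∈ K, cv R t kp mn pc ar j x + 2 * ∑ x ∈ K', cv R t kp mn pc ar i x
      ≤ 2 * (R + t i * t j)
        + (2 * K.card - ∑ x ∈ K, pc x.1 + (2 * K'.card - ∑ x ∈ K', pc x.1))
          * (2 * K.card - ∑ x ∈ K, pc x.1 + (2 * K'.card - ∑ x ∈ K', pc x.1) - 1)
        + 2 * (∑ x ∈ K, pc x.1) * ∑ x ∈ K', pc x.1 := by
  have hI : ∀ u ∈ its K, ho u = i := by
    intro u hu
    obtain ⟨x, hx, rfl⟩ := mem_image.1 hu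
    exact hKi x hx
  have hJ : ∀ u ∈ its K', ho u = j := by
    intro u hu
    obtain ⟨x, hx, rfl⟩ := mem_image.1 hu
    exact hKj x hx
  have h1 := H.elv i hi j hj hij (its K) (its_sub hK) hI (its K') (its_sub hK') hJ (lev K)
    (lev K') (fun u hu => lev_pos hu) (fun u hu => lev_le hK hu) (fun u hu => lev_pos hu)
    (fun u hu => lev_le hK' hu)
  obtain ⟨a1, a2, a3, a4⟩ := cell_ends H m0 hkv hp1 hpv ha0 hj htj hK
  obtain ⟨b1, b2, b3, b4⟩ := cell_ends H m0 hkv hp1 hpv ha0 hi hti hK'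
  rw [a4, b4] at h1
  rcases Nat.eq_zero_or_pos (K.card + K'.card) with h2 | h2
  · have h3 : K = ∅ := card_eq_zero.1 (by omega)
    have h4 : K' = ∅ := card_eq_zero.1 (by omega)
    subst h3
    subst h4
    simpa [its] using h1
  · have h3 : (1 : ℤ) ≤ (K.card : ℤ) + K'.card := by exact_mod_cast h2
    set A := ∑ u ∈ its K, ((lev K u : ℤ) + 1 - pc u)
    set B := ∑ u ∈ its K', ((lev K' u : ℤ) + 1 - pc u)
    set p := ∑ x ∈ K, pc x.1
    set p' := ∑ x ∈ K', pc x.1
    have h4 : 0 ≤ (2 * (K.card : ℤ) - p + (2 * K'.card - p') - (A + B))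
        * (2 * (K.card : ℤ) - p + (2 * K'.card - p') + (A + B) - 1) :=
      mul_nonneg (by linarith) (by linarith)
    nlinarith

end LvI

end Pool.Agent.Lib.MP_f04ccf_co
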