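import Pool.Agent.Lib.MP_f04ccf_co.M.LvE
import Pool.Agent.Lib.MP_f04ccf_co.M.ItV

/-!
MP_f04ccf_co, PLAN W, finite and middle range: **T-forms of the tests for single ends**.
`LvI.tT`: `2 (R s + hits) + d (d - 1) ≤ 2 t mu + v (v + 1) + N`, `v = s + 2 k`, `d = mu - s`;
`LvI.cT`: the same with the columns of the row `j`; `ItV.exc`: the excess `N` over the items.
-/

set_option autoImplicit false

namespace Pool.Agent.Lib.MP_f04ccf_co

open Finset

attribute [local instance] Classical.propDecidable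

namespace LvI

open Lv

variable {ι : Type*} {R : ℤ} {n : ℕ} {t s h e : ℕ → ℤ} {E : ℕ → ℕ → ℤ} {U : Finset ι}
  {ho : ι → ℕ} {vl : ι → ℤ} {kp ms mr mn : ℕ → ι → ℤ} {mu Nb : ℕ → ℤ} {Nx : ℕ → ℕ → ℤ}
  {be : ℕ → ℕ → ℤ} {pc ar : ι → ℤ}

/-- **the row test in T-form for ends** -/
theorem tT (H : LvI R n t s h e U ho vl kp ms mr mn mu be pc ar)
    (HE : ItE R n t s h e E U ho vl kp ms mr mu Nb Nx) {i : ℕ} (hi : i < n)
    {K : Finset (ι × ℕ)} (hK : K ⊆ ens U ho kp i) (h0 : 0 ≤ s i + K.card) :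
    2 * (R * s i + ∑ x ∈ K, (R - t i - bm kp mn i x)) + (mu i - s i) * (mu i - s i - 1)
      ≤ 2 * (t i * mu i) + (s i + 2 * K.card) * (s i + 2 * K.card + 1)
        + (Nb i + 2 * ∑ j ∈ (range n).erase i, Nx i j) := by
  have h1 := H.tE HE.m0 hi hK h0
  have h2 := HE.ef hi
  nlinarith

/-- **the row test with columns in T-form for ends** -/
theorem cT (H : LvI R n t s h e U ho vl kp ms mr mn mu be pc ar)
    (HE : ItE R n t s h e E U ho vl kp ms mr mu Nb Nx)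
    (hp0 : ∀ u ∈ U, 0 ≤ pc u) (hp1 : ∀ u ∈ U, pc u ≤ 1) (hpv : ∀ u ∈ U, pc u ≠ 0 → vl u = 1)
    (ha0 : ∀ u ∈ U, 0 ≤ ar u) {i j : ℕ} (hi : i < n) (hj : j < n) (hij : i ≠ j)
    {K : Finset (ι × ℕ)} (hK : K ⊆ ens U ho kp i) (h0 : 0 ≤ s i + K.card) :
    2 * (R * s i + ∑ x ∈ K, (R - t i - bm kp mn i x))
      + 2 * ∑ u ∈ U.filter (fun u => ho u = i), (kp j u * (R - t j) - ms j u)
      + (mu i - s i) * (mu i - s i - 1)
      ≤ 2 * (t i * mu i)
        + (s i + 2 * K.card - ∑ x ∈ K, (if ho x.1 = j then pc x.1 else 0))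
          * (s i + 2 * K.card - ∑ x ∈ K, (if ho x.1 = j then pc x.1 else 0) + 1)
        + 2 * ((R - t j) * (s i + 1))
        + 2 * ∑ x ∈ K, (if ho x.1 = j then ar x.1 else 2 * (R - t j))
        + 2 * (∑ x ∈ K, (if ho x.1 = j then pc x.1 else 0)) * be i j
        + (Nb i + 2 * ∑ j ∈ (range n).erase i, Nx i j) := by
  have htj : t j ≤ R := by
    have := HE.tR j hj
    linarith
  have h1 := H.cE HE.m0 HE.kv hp0 hp1 hpv ha0 hi hj hij htj hK h0
  have h2 := HE.ef hi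
  nlinarith

end LvI

end Pool.Agent.Lib.MP_f04ccf_co
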