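import Mathlib.Algebra.Order.BigOperators.Group.Finset
import Mathlib.Tactic.Linarith
import Mathlib.Tactic.Abel

/-!
MP_f04ccf_co, notes 16126, 16440 (0), 16443 (A): the removal of the rows without a surplus.
`f x z ≥ 0` is the load of the host `x` at the row `z` (number of units, or the sum of the weights
`1 - miss / R` of the units), `s z` the surplus of the row, `p z = s z + Σ_(x in V) f x z`.
If `Σ_A s ≥ c > 0` then there is a nonempty `V` with `p z > 0` on `V` and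
`Σ_V p ≥ c + Σ_(x in V) Σ_(z in A) f x z` (the loads of the hosts of `V` in **all** rows).
-/

set_option autoImplicit false

namespace Pool.Agent.Lib.MP_f04ccf_co

open Finset

section Rem

variable {ι α : Type*} [DecidableEq ι] [AddCommGroup α] [LinearOrder α] [IsOrderedAddMonoid α]

/-- one step of the removal -/
lemma rem_step {A V : Finset ι} {s : ι → α} {f : ι → ι → α} {c : α} (hV : V ⊆ A)
    (hf : ∀ x ∈ A, ∀ z ∈ A, 0 ≤ f x z) {z : ι} (hz : z ∈ V)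
    (hp : s z + ∑ x ∈ V, f x z ≤ 0)
    (h : c + ∑ x ∈ V, ∑ y ∈ A, f x y ≤ ∑ y ∈ V, (s y + ∑ x ∈ V, f x y)) :
    c + ∑ x ∈ V.erase z, ∑ y ∈ A, f x y
      ≤ ∑ y ∈ V.erase z, (s y + ∑ x ∈ V.erase z, f x y) := by
  have h1 : ∑ y ∈ V, (s y + ∑ x ∈ V, f x y)
      = (s z + ∑ x ∈ V, f x z) + ∑ y ∈ V.erase z, (s y + ∑ x ∈ V, f x y) :=
    (add_sum_erase V (fun y => s y + ∑ x ∈ V, f x y) hz).symm
  have h2 : ∑ y ∈ V.erase z, (s y + ∑ x ∈ V, f x y)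
      = ∑ y ∈ V.erase z, f z y + ∑ y ∈ V.erase z, (s y + ∑ x ∈ V.erase z, f x y) := by
    rw [← sum_add_distrib]
    refine sum_congr rfl fun y _ => ?_
    rw [← add_sum_erase V (fun x => f x y) hz]
    abel
  have h3 : ∑ x ∈ V, ∑ y ∈ A, f x y = ∑ y ∈ A, f z y + ∑ x ∈ V.erase z, ∑ y ∈ A, f x y :=
    (add_sum_erase V (fun x => ∑ y ∈ A, f x y) hz).symm
  have h4 : ∑ y ∈ V.erase z, f z y ≤ ∑ y ∈ A, f z y :=
    sum_le_sum_of_subset_of_nonneg ((erase_subset _ _).trans hV)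
      fun y hy _ => hf z (hV hz) y hy
  rw [h1, h2, h3] at h
  have h5 : c + (∑ y ∈ A, f z y + ∑ x ∈ V.erase z, ∑ y ∈ A, f x y)
      ≤ 0 + (∑ y ∈ A, f z y + ∑ y ∈ V.erase z, (s y + ∑ x ∈ V.erase z, f x y)) :=
    h.trans (add_le_add hp (add_le_add h4 le_rfl))
  rw [zero_add] at h5
  have h6 : ∑ y ∈ A, f z y + (c + ∑ x ∈ V.erase z, ∑ y ∈ A, f x y)
      ≤ ∑ y ∈ A, f z y + ∑ y ∈ V.erase z, (s y + ∑ x ∈ V.erase z, f x y) := by
    refine le_trans (le_of_eq ?_) h5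
    abel
  exact le_of_add_le_add_left h6

/-- **the removal**, from any set with the inequality -/
theorem removal_of {A : Finset ι} {s : ι → α} {f : ι → ι → α} {c : α} (hc : 0 < c)
    (hf : ∀ x ∈ A, ∀ z ∈ A, 0 ≤ f x z) (V₀ : Finset ι) (hV₀ : V₀ ⊆ A)
    (h : c + ∑ x ∈ V₀, ∑ y ∈ A, f x y ≤ ∑ y ∈ V₀, (s y + ∑ x ∈ V₀, f x y)) :
    ∃ V ⊆ V₀, V.Nonempty ∧ (∀ z ∈ V, 0 < s z + ∑ x ∈ V, f x z) ∧
      c + ∑ x ∈ V, ∑ y ∈ A, f x y ≤ ∑ z ∈ V, (s z + ∑ x ∈ V, f x z) := by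
  induction V₀ using Finset.strongInduction with
  | H V ih =>
    by_cases hall : ∀ z ∈ V, 0 < s z + ∑ x ∈ V, f x z
    · refine ⟨V, Subset.refl _, ?_, hall, h⟩
      by_contra hne
      rw [not_nonempty_iff_eq_empty] at hne
      rw [hne, sum_empty, sum_empty, add_zero] at h
      exact absurd h (not_le.2 hc)
    · push Not at hall
      obtain ⟨z, hz, hp⟩ := hall
      obtain ⟨W, hW, h1, h2, h3⟩ := ih (V.erase z) (erase_ssubset hz)
        ((erase_subset _ _).trans hV₀) (rem_step hV₀ hf hz hp h)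
      exact ⟨W, hW.trans (erase_subset _ _), h1, h2, h3⟩

/-- **the removal**: `Σ_A s ≥ c > 0` -/
theorem removal {A : Finset ι} {s : ι → α} {f : ι → ι → α} {c : α} (hc : 0 < c)
    (hf : ∀ x ∈ A, ∀ z ∈ A, 0 ≤ f x z) (hs : c ≤ ∑ z ∈ A, s z) :
    ∃ V ⊆ A, V.Nonempty ∧ (∀ z ∈ V, 0 < s z + ∑ x ∈ V, f x z) ∧
      c + ∑ x ∈ V, ∑ y ∈ A, f x y ≤ ∑ z ∈ V, (s z + ∑ x ∈ V, f x z) := by
  refine removal_of hc hf A (Subset.refl _) ?_
  rw [sum_add_distrib, sum_comm]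
  exact add_le_add hs le_rfl

/-- the surplus of `V` alone: `s(V) ≥ c +` the loads of the hosts of `V` outside `V` -/
lemma removal_lost {A V : Finset ι} {s : ι → α} {f : ι → ι → α} {c : α} (hV : V ⊆ A)
    (h : c + ∑ x ∈ V, ∑ y ∈ A, f x y ≤ ∑ z ∈ V, (s z + ∑ x ∈ V, f x z)) :
    c + ∑ x ∈ V, ∑ y ∈ A \ V, f x y ≤ ∑ z ∈ V, s z := by
  rw [sum_add_distrib] at h
  have h1 : ∑ z ∈ V, ∑ x ∈ V, f x z = ∑ x ∈ V, ∑ y ∈ V, f x y := sum_comm
  have h2 : ∑ x ∈ V, ∑ y ∈ A, f x y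
      = ∑ x ∈ V, ∑ y ∈ A \ V, f x y + ∑ x ∈ V, ∑ y ∈ V, f x y := by
    rw [← sum_add_distrib]
    exact sum_congr rfl fun x _ => (sum_sdiff hV).symm
  rw [h1, h2, ← add_assoc] at h
  exact le_of_add_le_add_right h

end Rem

end Pool.Agent.Lib.MP_f04ccf_co
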