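import Pool.Agent.Lib.MP_f04ccf_co.M.MN
import Pool.Agent.Lib.MP_f04ccf_co.M.Rem

/-!
MP_f04ccf_co, PLAN W (notes 16440 (0), 16444 (1)): the final set of rows.  The removal (`Rem.lean`) on
the items over the basic integers: `FinV` are the inequalities at the set `V` of the rows which are
left (mass, loads, tests), `ItN.finV` gives `V`.
-/

set_option autoImplicit false

namespace Pool.Agent.Lib.MP_f04ccf_co

open Finset

attribute [local instance] Classical.propDecidable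

section FinV

variable {ι : Type*}

/-- sums over the items of the hosts of `V` -/
lemma sum_hosts (U : Finset ι) (ho : ι → ℕ) (V : Finset ℕ) (g : ι → ℤ) :
    ∑ x ∈ V, ∑ u ∈ U.filter (fun u => ho u = x), g u
      = ∑ u ∈ U.filter (fun u => ho u ∈ V), g u := by
  rw [← sum_biUnion]
  · refine sum_congr ?_ fun _ _ => rfl
    ext u
    rw [mem_biUnion, mem_filter]
    constructor
    · rintro ⟨x, hx, hu⟩
      obtain ⟨h1, rfl⟩ := mem_filter.1 hu
      exact ⟨h1, hx⟩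
    · rintro ⟨h1, h2⟩
      exact ⟨ho u, h2, mem_filter.2 ⟨h1, rfl⟩⟩
  · intro x _ y _ hxy
    show Disjoint _ _
    rw [disjoint_left]
    intro u hu hu'
    exact hxy ((mem_filter.1 hu).2.symm.trans (mem_filter.1 hu').2)

/-- **the final set** `V`: `mu z` value of the items of the host `z`, `k z`, `m z`, `mr z` load and
misses of the items hosted in `V` at the row `z`; `lo` weight of these items outside `V` -/
structure FinV (R : ℤ) (n : ℕ) (V : Finset ℕ) (t s e mu k m mr : ℕ → ℤ) (lo : ℤ) : Prop where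
  b2 : 2 ≤ V.card
  bn : V.card ≤ n
  t0 : ∀ z ∈ V, 0 ≤ t z
  tR : ∀ z ∈ V, t z + 1 ≤ R
  hs : ∀ z ∈ V, 0 ≤ t z + s z + 1
  mn : ∑ z ∈ V, t z + n ≤ R
  msg : ∑ z ∈ V, t z + ∑ z ∈ V, s z + V.card ≤ R + 1
  mu0 : ∀ z ∈ V, 0 ≤ mu z
  k0 : ∀ z ∈ V, 0 ≤ k z
  m0 : ∀ z ∈ V, 0 ≤ m z
  msr : ∀ z ∈ V, m z ≤ mr z
  mrk : ∀ z ∈ V, mr z ≤ k z * (R - t z)
  lo0 : 0 ≤ lo
  ky : ∀ z ∈ V, mu z + k z ≤ ∑ x ∈ V, mu x
  p1 : ∀ z ∈ V, 1 ≤ R * (s z + k z) - m z
  P : R * (1 + ∑ z ∈ V, mu z) ≤ ∑ z ∈ V, (R * (s z + k z) - m z)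
  lost : R + lo ≤ R * ∑ z ∈ V, s z
  P1 : ∀ z ∈ V, R * s z ≤ e z
  T : ∀ z ∈ V, R * s z + (k z * (R - t z) - mr z)
    ≤ e z + 2 * k z * (s z + 1) + k z * (2 * k z - 1)
  S : 2 * ∑ z ∈ V, (R * (s z + k z) - m z) + ∑ z ∈ V, s z ^ 2
    ≤ 2 * ∑ z ∈ V, (e z + t z * k z) + V.card * (V.card - 1) * (R + 1)
      + (∑ z ∈ V, s z) ^ 2 + 2 * (V.card - 1) * ∑ z ∈ V, s z

variable {R : ℤ} {n : ℕ} {t s h e : ℕ → ℤ} {E : ℕ → ℕ → ℤ} {U : Finset ι} {ho : ι → ℕ}
  {vl : ι → ℤ} {kp ms mr : ℕ → ι → ℤ}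

/-- the misses are at most `R` times the load -/
lemma ItN.ms_le (H : ItN R n t s h e E U ho vl kp ms mr) {u : ι} (hu : u ∈ U) {i : ℕ}
    (hi : i < n) : 0 ≤ R * kp i u - ms i u := by
  have h1 := H.msr u hu i hi
  have h2 := H.mrk u hu i hi
  have h3 := H.k0 u hu i hi
  have h4 := mul_nonneg h3 (H.t0 i hi)
  nlinarith

/-- **every item brings its value** -/
lemma ItN.srv' (H : ItN R n t s h e E U ho vl kp ms mr) {u : ι} (hu : u ∈ U) :
    R * vl u ≤ ∑ i ∈ range n, (R * kp i u - ms i u) := by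
  rcases H.srv u hu with ⟨i, hi, h1, h2, h3⟩ | h1
  · have h4 : ms i u ≤ 0 := by
      have := H.msr u hu i hi
      linarith
    have h5 := single_le_sum (f := fun i => R * kp i u - ms i u)
      (fun j hj => H.ms_le hu (mem_range.1 hj)) (mem_range.2 hi)
    have h6 : R * kp i u - ms i u ≤ ∑ i ∈ range n, (R * kp i u - ms i u) := h5
    rw [h1] at h6
    linarith
  · exact h1

/-- the hits at the rows of `V` of the items hosted in `V` are edges between the slots of `V` -/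
lemma ItN.pairs (H : ItN R n t s h e E U ho vl kp ms mr) {V : Finset ℕ} (hV : V ⊆ range n) :
    2 * ∑ u ∈ U.filter (fun u => ho u ∈ V), ∑ z ∈ V, (kp z u * (R - t z) - ms z u)
      ≤ ∑ i ∈ V, ∑ j ∈ V.erase i, E i j := by
  set g : ℕ → ℕ → ℤ := fun x z =>
    ∑ u ∈ U.filter (fun u => ho u = x), (kp z u * (R - t z) - ms z u) with hg
  have h1 : ∑ u ∈ U.filter (fun u => ho u ∈ V), ∑ z ∈ V, (kp z u * (R - t z) - ms z u)
      = ∑ x ∈ V, ∑ z ∈ V, g x z := by
    rw [← sum_hosts U ho V fun u => ∑ z ∈ V, (kp z u * (R - t z) - ms z u)]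
    exact sum_congr rfl fun x _ => by rw [sum_comm]
  have h2 : ∀ x ∈ V, g x x ≤ 0 := by
    intro x hx
    refine sum_nonpos fun u hu => ?_
    obtain ⟨hu1, rfl⟩ := mem_filter.1 hu
    have h3 := H.kh u hu1
    have h4 := H.m0 u hu1 (ho u) (mem_range.1 (hV hx))
    rw [h3]
    linarith
  have h3 : ∑ x ∈ V, ∑ z ∈ V, g x z ≤ ∑ x ∈ V, ∑ z ∈ V.erase x, g x z := by
    refine sum_le_sum fun x hx => ?_
    have h4 := add_sum_erase V (fun z => g x z) hx
    have h5 := h2 x hx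
    have h6 : g x x + ∑ z ∈ V.erase x, g x z = ∑ z ∈ V, g x z := h4
    linarith
  have h4 : ∑ x ∈ V, ∑ z ∈ V.erase x, g x z = ∑ x ∈ V, ∑ z ∈ V.erase x, g z x := by
    have e1 : ∀ φ : ℕ → ℕ → ℤ, ∑ x ∈ V, ∑ z ∈ V.erase x, φ x z
        = ∑ x ∈ V, ∑ z ∈ V, φ x z - ∑ x ∈ V, φ x x := by
      intro φ
      rw [← sum_sub_distrib]
      refine sum_congr rfl fun x hx => ?_
      have e2 := add_sum_erase V (fun z => φ x z) hx
      have e3 : φ x x + ∑ z ∈ V.erase x, φ x z = ∑ z ∈ V, φ x z := e2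
      linarith
    rw [e1 g, e1 fun x z => g z x, sum_comm]
  have h5 : ∑ x ∈ V, ∑ z ∈ V.erase x, (g x z + g z x) ≤ ∑ x ∈ V, ∑ z ∈ V.erase x, E x z := by
    refine sum_le_sum fun x hx => sum_le_sum fun z hz => ?_
    obtain ⟨h6, h7⟩ := mem_erase.1 hz
    exact H.pair x (mem_range.1 (hV hx)) z (mem_range.1 (hV h7)) fun h8 => h6 h8.symm
  have h6 : ∑ x ∈ V, ∑ z ∈ V.erase x, (g x z + g z x)
      = ∑ x ∈ V, ∑ z ∈ V.erase x, g x z + ∑ x ∈ V, ∑ z ∈ V.erase x, g z x := by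
    rw [← sum_add_distrib]
    exact sum_congr rfl fun x _ => sum_add_distrib
  rw [h1]
  linarith

/-- **the final set of rows** -/
theorem ItN.finV (H : ItN R n t s h e E U ho vl kp ms mr) (hR : 1 ≤ R)
    (he : ∀ i < n, e i ≤ (∑ u ∈ U.filter (fun u => ho u = i), vl u) * h i) :
    ∃ V ⊆ range n, FinV R n V t s e (fun i => ∑ u ∈ U.filter (fun u => ho u = i), vl u)
      (fun z => ∑ u ∈ U.filter (fun u => ho u ∈ V), kp z u)
      (fun z => ∑ u ∈ U.filter (fun u => ho u ∈ V), ms z u)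
      (fun z => ∑ u ∈ U.filter (fun u => ho u ∈ V), mr z u)
      (∑ u ∈ U.filter (fun u => ho u ∈ V), ∑ z ∈ range n \ V, (R * kp z u - ms z u)) := by
  set f : ℕ → ℕ → ℤ := fun x z =>
    ∑ u ∈ U.filter (fun u => ho u = x), (R * kp z u - ms z u) with hf
  have hf0 : ∀ x ∈ range n, ∀ z ∈ range n, 0 ≤ f x z := fun x _ z hz =>
    sum_nonneg fun u hu => H.ms_le (mem_filter.1 hu).1 (mem_range.1 hz)
  obtain ⟨V, hV, hVn, h1, h2⟩ := removal (A := range n) (s := fun z => R * s z) (f := f) (c := R)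
    (by linarith) hf0 (by
      rw [← mul_sum, H.ss, mul_one])
  have hVlt : ∀ z ∈ V, z < n := fun z hz => mem_range.1 (hV hz)
  -- the loads of the hosts of `V`
  have hfV : ∀ z, ∑ x ∈ V, f x z = ∑ u ∈ U.filter (fun u => ho u ∈ V), (R * kp z u - ms z u) :=
    fun z => sum_hosts U ho V fun u => R * kp z u - ms z u
  have hfV' : ∀ z, ∑ x ∈ V, f x z = R * ∑ u ∈ U.filter (fun u => ho u ∈ V), kp z u
      - ∑ u ∈ U.filter (fun u => ho u ∈ V), ms z u := fun z => by
    rw [hfV, sum_sub_distrib, mul_sum]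
  have hmu : ∀ x, 0 ≤ ∑ u ∈ U.filter (fun u => ho u = x), vl u := fun x =>
    sum_nonneg fun u hu => by
      have := H.v1 u (mem_filter.1 hu).1
      linarith
  have hO : R * ∑ x ∈ V, ∑ u ∈ U.filter (fun u => ho u = x), vl u
      ≤ ∑ x ∈ V, ∑ z ∈ range n, f x z := by
    rw [mul_sum]
    refine sum_le_sum fun x _ => ?_
    rw [hf]
    show R * ∑ u ∈ U.filter (fun u => ho u = x), vl u
      ≤ ∑ z ∈ range n, ∑ u ∈ U.filter (fun u => ho u = x), (R * kp z u - ms z u)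
    rw [sum_comm, mul_sum]
    exact sum_le_sum fun u hu => H.srv' (mem_filter.1 hu).1
  have hlost := removal_lost (A := range n) (s := fun z => R * s z) (f := f) (c := R) hV h2
  rw [← mul_sum] at hlost
  have hlo : ∑ x ∈ V, ∑ z ∈ range n \ V, f x z
      = ∑ u ∈ U.filter (fun u => ho u ∈ V), ∑ z ∈ range n \ V, (R * kp z u - ms z u) := by
    rw [← sum_hosts U ho V fun u => ∑ z ∈ range n \ V, (R * kp z u - ms z u)]
    refine sum_congr rfl fun x _ => ?_
    rw [hf]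
    exact sum_comm
  rw [hlo] at hlost
  have hlo0 : 0 ≤ ∑ u ∈ U.filter (fun u => ho u ∈ V), ∑ z ∈ range n \ V,
      (R * kp z u - ms z u) :=
    sum_nonneg fun u hu => sum_nonneg fun z hz =>
      H.ms_le (mem_filter.1 hu).1 (mem_range.1 (mem_sdiff.1 hz).1)
  have hP : R * (1 + ∑ z ∈ V, ∑ u ∈ U.filter (fun u => ho u = z), vl u)
      ≤ ∑ z ∈ V, (R * (s z + ∑ u ∈ U.filter (fun u => ho u ∈ V), kp z u)
        - ∑ u ∈ U.filter (fun u => ho u ∈ V), ms z u) := by
    have h3 : ∑ z ∈ V, (R * s z + ∑ x ∈ V, f x z)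
        = ∑ z ∈ V, (R * (s z + ∑ u ∈ U.filter (fun u => ho u ∈ V), kp z u)
        - ∑ u ∈ U.filter (fun u => ho u ∈ V), ms z u) :=
      sum_congr rfl fun z _ => by
        rw [hfV']
        ring
    rw [← h3]
    linarith
  have hp1 : ∀ z ∈ V, 1 ≤ R * (s z + ∑ u ∈ U.filter (fun u => ho u ∈ V), kp z u)
      - ∑ u ∈ U.filter (fun u => ho u ∈ V), ms z u := by
    intro z hz
    have h3 := h1 z hz
    rw [hfV'] at h3
    have h4 : 0 < R * (s z + ∑ u ∈ U.filter (fun u => ho u ∈ V), kp z u)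
      - ∑ u ∈ U.filter (fun u => ho u ∈ V), ms z u := by
      linarith
    exact h4
  -- the mass
  have hcard : V.card ≤ n := by
    have := card_le_card hV
    rwa [card_range] at this
  have hst := H.st
  have hsh := H.sh
  have hss := H.ss
  have hout : ∀ g : ℕ → ℤ, ∑ i ∈ range n, g i = ∑ i ∈ range n \ V, g i + ∑ i ∈ V, g i :=
    fun g => (sum_sdiff hV).symm
  have htout : 0 ≤ ∑ i ∈ range n \ V, t i :=
    sum_nonneg fun i hi => H.t0 i (mem_range.1 (mem_sdiff.1 hi).1)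
  have hhout : 0 ≤ ∑ i ∈ range n \ V, h i :=
    sum_nonneg fun i hi => H.h0 i (mem_range.1 (mem_sdiff.1 hi).1)
  have hhV : ∑ i ∈ V, h i = ∑ i ∈ V, t i + ∑ i ∈ V, s i + V.card := by
    rw [sum_congr rfl fun i hi => H.hh i (hVlt i hi), sum_add_distrib, sum_add_distrib,
      sum_const, nsmul_eq_mul, mul_one]
  -- two rows
  have hb2 : 2 ≤ V.card := by
    by_contra hb
    have hb1 : V.card = 1 := by
      have := card_pos.2 hVn
      omega
    obtain ⟨z, rfl⟩ := card_eq_one.1 hb1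
    have hz : z < n := hVlt z (mem_singleton_self z)
    have h3 := hP
    rw [sum_singleton, sum_singleton] at h3
    have h4 : ∑ u ∈ U.filter (fun u => ho u ∈ ({z} : Finset ℕ)), kp z u = 0 := by
      refine sum_eq_zero fun u hu => ?_
      obtain ⟨h5, h6⟩ := mem_filter.1 hu
      rw [mem_singleton] at h6
      rw [← h6]
      exact H.kh u h5
    have h5 : 0 ≤ ∑ u ∈ U.filter (fun u => ho u ∈ ({z} : Finset ℕ)), ms z u :=
      sum_nonneg fun u hu => H.m0 u (mem_filter.1 hu).1 z hz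
    rw [h4] at h3
    have h6 := H.P1 hz
    have h7 := he z hz
    have h8 : h z ≤ R + 1 := by
      have := single_le_sum (f := h) (fun i hi => H.h0 i (mem_range.1 hi)) (mem_range.2 hz)
      linarith
    have h9 := H.h0 z hz
    have h10 := H.hh z hz
    have h11 := H.t0 z hz
    have h12 := hmu z
    generalize ∑ u ∈ U.filter (fun u => ho u = z), vl u = mu at *
    -- R (1 + mu) ≤ R s, R s ≤ mu h
    have h13 : R * (1 + mu) ≤ R * s z := by nlinarith
    have h14 : 1 + mu ≤ s z := by nlinarith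
    have h15 : s z ≤ R := by linarith
    nlinarith [mul_nonneg h12 (by linarith : (0:ℤ) ≤ R + 1 - h z), mul_le_mul_of_nonneg_right
      (by linarith : mu ≤ s z - 1) h9]
  refine ⟨V, hV, hb2, hcard, fun z hz => H.t0 z (hVlt z hz), fun z hz => H.tR z (hVlt z hz),
    fun z hz => ?_, ?_, ?_, fun z _ => hmu z, fun z hz => ?_, fun z hz => ?_, fun z hz => ?_,
    fun z hz => ?_, hlo0, fun z hz => ?_, hp1, hP, hlost, fun z hz => H.P1 (hVlt z hz),
    fun z hz => ?_, ?_⟩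
  · have h3 := H.h0 z (hVlt z hz)
    rw [H.hh z (hVlt z hz)] at h3
    exact h3
  · have h3 := hout t
    linarith
  · have h3 := hout h
    linarith
  · exact sum_nonneg fun u hu => H.k0 u (mem_filter.1 hu).1 z (hVlt z hz)
  · exact sum_nonneg fun u hu => H.m0 u (mem_filter.1 hu).1 z (hVlt z hz)
  · exact sum_le_sum fun u hu => H.msr u (mem_filter.1 hu).1 z (hVlt z hz)
  · show ∑ u ∈ U.filter (fun u => ho u ∈ V), mr z u
      ≤ (∑ u ∈ U.filter (fun u => ho u ∈ V), kp z u) * (R - t z)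
    rw [sum_mul]
    exact sum_le_sum fun u hu => H.mrk u (mem_filter.1 hu).1 z (hVlt z hz)
  · show ∑ u ∈ U.filter (fun u => ho u = z), vl u
      + ∑ u ∈ U.filter (fun u => ho u ∈ V), kp z u
      ≤ ∑ x ∈ V, ∑ u ∈ U.filter (fun u => ho u = x), vl u
    rw [← sum_hosts U ho V fun u => kp z u, ← add_sum_erase V (fun x =>
      ∑ u ∈ U.filter (fun u => ho u = x), vl u) hz, ← add_sum_erase V (fun x =>
      ∑ u ∈ U.filter (fun u => ho u = x), kp z u) hz]
    have h3 : ∑ u ∈ U.filter (fun u => ho u = z), kp z u = 0 := by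
      refine sum_eq_zero fun u hu => ?_
      obtain ⟨h5, h6⟩ := mem_filter.1 hu
      rw [← h6]
      exact H.kh u h5
    rw [h3, zero_add]
    refine add_le_add le_rfl (sum_le_sum fun x _ => sum_le_sum fun u hu => ?_)
    exact H.kv u (mem_filter.1 hu).1 z (hVlt z hz)
  · -- the row test
    have h3 := H.row z (hVlt z hz) ((U.filter fun u => ho u ∈ V).filter fun u => ho u ≠ z)
      ((filter_subset _ _).trans (filter_subset _ _)) fun u hu => (mem_filter.1 hu).2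
    have h4 : ∀ g : ℕ → ι → ℤ, (∀ u ∈ U, ho u = z → g z u = 0) →
        ∑ u ∈ (U.filter fun u => ho u ∈ V).filter (fun u => ho u ≠ z), g z u
          = ∑ u ∈ U.filter (fun u => ho u ∈ V), g z u := by
      intro g hg
      rw [sum_filter]
      refine sum_congr rfl fun u hu => ?_
      by_cases h5 : ho u = z
      · rw [if_neg (fun h6 => h6 h5), hg u (mem_filter.1 hu).1 h5]
      · rw [if_pos h5]
    have hk0 : ∀ u ∈ U, ho u = z → kp z u = 0 := fun u hu h5 => by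
      rw [← h5]
      exact H.kh u hu
    have hm0 : ∀ u ∈ U, ho u = z → mr z u = 0 := fun u hu h5 => by
      have h6 := H.mrk u hu z (hVlt z hz)
      rw [hk0 u hu h5, zero_mul] at h6
      have h7 := H.m0 u hu z (hVlt z hz)
      have h8 := H.msr u hu z (hVlt z hz)
      linarith
    rw [sum_sub_distrib, ← sum_mul, h4 kp hk0, h4 mr hm0] at h3
    exact h3
  · -- the slot test
    have h3 := H.P V hV
    have h4 := H.pairs hV
    have h5 : ∑ u ∈ U.filter (fun u => ho u ∈ V), ∑ z ∈ V, (kp z u * (R - t z) - ms z u)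
        = ∑ z ∈ V, ((∑ u ∈ U.filter (fun u => ho u ∈ V), kp z u) * (R - t z)
          - ∑ u ∈ U.filter (fun u => ho u ∈ V), ms z u) := by
      rw [sum_comm]
      exact sum_congr rfl fun z _ => by rw [sum_sub_distrib, sum_mul]
    rw [h5] at h4
    show 2 * ∑ z ∈ V, (R * (s z + ∑ u ∈ U.filter (fun u => ho u ∈ V), kp z u)
        - ∑ u ∈ U.filter (fun u => ho u ∈ V), ms z u) + ∑ z ∈ V, s z ^ 2
      ≤ 2 * ∑ z ∈ V, (e z + t z * ∑ u ∈ U.filter (fun u => ho u ∈ V), kp z u)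
        + V.card * (V.card - 1) * (R + 1) + (∑ z ∈ V, s z) ^ 2
        + 2 * (V.card - 1) * ∑ z ∈ V, s z
    have h6 : ∑ z ∈ V, (R * (s z + ∑ u ∈ U.filter (fun u => ho u ∈ V), kp z u)
        - ∑ u ∈ U.filter (fun u => ho u ∈ V), ms z u)
        = R * ∑ z ∈ V, s z + ∑ z ∈ V, ((∑ u ∈ U.filter (fun u => ho u ∈ V), kp z u) * (R - t z)
          - ∑ u ∈ U.filter (fun u => ho u ∈ V), ms z u)
          + ∑ z ∈ V, t z * ∑ u ∈ U.filter (fun u => ho u ∈ V), kp z u := by
      rw [mul_sum, ← sum_add_distrib, ← sum_add_distrib]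
      exact sum_congr rfl fun z _ => by ring
    rw [h6, sum_add_distrib (f := fun z => e z)]
    nlinarith

end FinV

end Pool.Agent.Lib.MP_f04ccf_co
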