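import Pool.Agent.Lib.MP_f04ccf_co.Levels

/-!
MP_f04ccf_co: theorem M' (notes 14324, 14459, 14550): a graph with clique number at most `w` on `n`
vertices with independence number at most `t` satisfies `2 e >= w (3 n - (2 w + 1) t)`.
-/

set_option autoImplicit false

namespace Pool.Agent.Lib.MP_f04ccf_co

open Finset

attribute [local instance] Classical.propDecidable

section MPrime

variable {V : Type*} (G : SimpleGraph V)

/-- private closed neighbourhood of `u ∈ I` inside `S` -/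
noncomputable def pn (S I : Finset V) (u : V) : Finset V :=
  S.filter (fun v => v = u ∨ (G.Adj v u ∧ ∀ w ∈ I, G.Adj v w → w = u))

variable {G}

lemma mem_pn {S I : Finset V} {u v : V} :
    v ∈ pn G S I u ↔ v ∈ S ∧ (v = u ∨ (G.Adj v u ∧ ∀ w ∈ I, G.Adj v w → w = u)) := mem_filter

lemma pn_sub (S I : Finset V) (u : V) : pn G S I u ⊆ S := filter_subset _ _

lemma self_mem_pn {S I : Finset V} {u : V} (hI : I ⊆ S) (hu : u ∈ I) : u ∈ pn G S I u :=
  mem_pn.2 ⟨hI hu, Or.inl rfl⟩

lemma Ind.erase' {I : Finset V} (hI : Ind G I) (u : V) : Ind G (I.erase u) :=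
  fun x hx y hy => hI x (mem_erase.1 hx).2 y (mem_erase.1 hy).2

/-- a private neighbour is not adjacent to the other elements of `I` -/
lemma pn_not_adj {S I : Finset V} (hi : Ind G I) {u v : V} (hu : u ∈ I) (hv : v ∈ pn G S I u) :
    ∀ x ∈ I.erase u, ¬ G.Adj v x := by
  intro x hx hvx
  rcases (mem_pn.1 hv).2 with rfl | ⟨h1, h2⟩
  · exact hi v hu x (mem_erase.1 hx).2 hvx
  · exact (mem_erase.1 hx).1 (h2 x (mem_erase.1 hx).2 hvx)

lemma pn_notMem {S I : Finset V} (hi : Ind G I) {u v : V} (hu : u ∈ I) (hv : v ∈ pn G S I u) :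
    v ∉ I.erase u := by
  intro h
  rcases (mem_pn.1 hv).2 with rfl | ⟨h1, h2⟩
  · exact (mem_erase.1 h).1 rfl
  · exact hi v (mem_erase.1 h).2 u hu h1

/-- swapping `u` against a private neighbour -/
lemma swap_ind {S I : Finset V} (hi : Ind G I) {u v : V} (hu : u ∈ I) (hv : v ∈ pn G S I u) :
    Ind G (insert v (I.erase u)) :=
  Ind.insert_of G (hi.erase' u) (pn_not_adj hi hu hv)

lemma swap_card {S I : Finset V} (hi : Ind G I) {u v : V} (hu : u ∈ I) (hv : v ∈ pn G S I u) :
    (insert v (I.erase u)).card = I.card := by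
  rw [card_insert_of_notMem (pn_notMem hi hu hv), card_erase_of_mem hu]
  have := card_pos.2 ⟨u, hu⟩
  omega

lemma swap_sub {S I : Finset V} (hI : I ⊆ S) {u v : V} (hv : v ∈ pn G S I u) :
    insert v (I.erase u) ⊆ S := by
  intro x hx
  rw [mem_insert] at hx
  rcases hx with rfl | hx
  · exact pn_sub _ _ _ hv
  · exact hI (mem_erase.1 hx).2

/-- the private closed neighbourhoods of a maximum independent set are cliques -/
lemma pn_clq {S I : Finset V} {t : ℕ} (hα : AlphaLe G S t) (hI : I ⊆ S) (hi : Ind G I)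
    (hc : I.card = t) {u : V} (hu : u ∈ I) : Clq G (pn G S I u) := by
  intro x hx y hy hxy
  by_contra hadj
  have h1 := swap_ind hi hu hx
  have h2 : Ind G (insert y (insert x (I.erase u))) := by
    refine Ind.insert_of G h1 fun z hz hyz => ?_
    rw [mem_insert] at hz
    rcases hz with rfl | hz
    · exact hadj hyz.symm
    · exact pn_not_adj hi hu hy z hz hyz
  have h3 : insert y (insert x (I.erase u)) ⊆ S := by
    intro z hz
    rw [mem_insert] at hz
    rcases hz with rfl | hz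
    · exact pn_sub _ _ _ hy
    · exact swap_sub hI hx hz
  have h4 := hα _ h3 h2
  have h5 := swap_card hi hu hx
  have h6 : y ∉ insert x (I.erase u) := by
    rw [mem_insert]
    rintro (h | h)
    · exact hxy h.symm
    · exact pn_notMem hi hu hy h
  rw [card_insert_of_notMem h6] at h4
  omega

lemma pn_disj {S I : Finset V} (hi : Ind G I) {u w : V} (hu : u ∈ I) (hw : w ∈ I) (huw : u ≠ w) :
    Disjoint (pn G S I u) (pn G S I w) := by
  rw [disjoint_left]
  intro x hx hx'
  rcases (mem_pn.1 hx).2 with h1 | ⟨h1, h2⟩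
  · rcases (mem_pn.1 hx').2 with h1' | ⟨h1', h2'⟩
    · exact huw (h1.symm.trans h1')
    · rw [h1] at h1'; exact hi u hu w hw h1'
  · rcases (mem_pn.1 hx').2 with h1' | ⟨h1', h2'⟩
    · rw [h1'] at h1; exact hi w hw u hu h1
    · exact huw (h2' u hu h1)

/-- a maximal independent set dominates -/
lemma dom_of_max {S I : Finset V} {t : ℕ} (hα : AlphaLe G S t) (hI : I ⊆ S) (hi : Ind G I)
    (hc : I.card = t) {v : V} (hv : v ∈ S) (hvI : v ∉ I) : 1 ≤ dg G I v := by
  by_contra hlt
  have h0 : dg G I v = 0 := by omega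
  have h1 : ∀ x ∈ I, ¬ G.Adj v x := by
    intro x hx hvx
    have : 0 < dg G I v := card_pos.2 ⟨x, mem_filter.2 ⟨hx, hvx⟩⟩
    omega
  have h2 := hα (insert v I) (insert_subset hv hI) (Ind.insert_of G hi h1)
  rw [card_insert_of_notMem hvI] at h2
  omega

/-- the vertices outside the private cliques have at least two neighbours in `I` -/
lemma two_of_rest {S I : Finset V} {t : ℕ} (hα : AlphaLe G S t) (hI : I ⊆ S) (hi : Ind G I)
    (hc : I.card = t) {v : V} (hv : v ∈ S) (hvp : v ∉ I.biUnion (pn G S I)) : 2 ≤ dg G I v := by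
  have hvI : v ∉ I := fun h => hvp (mem_biUnion.2 ⟨v, h, self_mem_pn hI h⟩)
  have h1 := dom_of_max hα hI hi hc hv hvI
  by_contra hlt
  have h2 : dg G I v = 1 := by omega
  obtain ⟨u, hu⟩ := card_eq_one.1 (show (I.filter (fun w => G.Adj v w)).card = 1 from h2)
  have hu1 : u ∈ I.filter (fun w => G.Adj v w) := by rw [hu]; exact mem_singleton_self u
  rw [mem_filter] at hu1
  refine hvp (mem_biUnion.2 ⟨u, hu1.1, mem_pn.2 ⟨hv, Or.inr ⟨hu1.2, fun w hw hvw => ?_⟩⟩⟩)
  have : w ∈ I.filter (fun w => G.Adj v w) := mem_filter.2 ⟨hw, hvw⟩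
  rw [hu, mem_singleton] at this
  exact this

/-- counting the edges at a maximum independent set -/
lemma edges_at {S I : Finset V} {t : ℕ} (hα : AlphaLe G S t) (hI : I ⊆ S) (hi : Ind G I)
    (hc : I.card = t) :
    (2 * S.card : ℤ) - ∑ u ∈ I, ((pn G S I u).card : ℤ) - t ≤ ∑ u ∈ I, (dg G S u : ℤ) := by
  set P := I.biUnion (pn G S I) with hP
  have hPS : P ⊆ S := by
    intro x hx
    obtain ⟨u, _, hx⟩ := mem_biUnion.1 hx
    exact pn_sub _ _ _ hx
  have hIP : I ⊆ P := fun u hu => mem_biUnion.2 ⟨u, hu, self_mem_pn hI hu⟩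
  have hPc : P.card = ∑ u ∈ I, (pn G S I u).card :=
    card_biUnion fun u hu w hw huw => pn_disj hi hu hw huw
  have h1 : ∑ u ∈ I, dg G S u = ∑ v ∈ S, dg G I v := dg_comm G I S
  have h2 : ∑ v ∈ S \ P, 2 ≤ ∑ v ∈ S \ P, dg G I v :=
    sum_le_sum fun v hv => two_of_rest hα hI hi hc (mem_sdiff.1 hv).1 (mem_sdiff.1 hv).2
  have h3 : ∑ v ∈ P \ I, 1 ≤ ∑ v ∈ P \ I, dg G I v :=
    sum_le_sum fun v hv => dom_of_max hα hI hi hc (hPS (mem_sdiff.1 hv).1) (mem_sdiff.1 hv).2
  have h4 : ∑ v ∈ S \ P, dg G I v + ∑ v ∈ P, dg G I v = ∑ v ∈ S, dg G I v := sum_sdiff hPS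
  have h5 : ∑ v ∈ P \ I, dg G I v + ∑ v ∈ I, dg G I v = ∑ v ∈ P, dg G I v := sum_sdiff hIP
  have h6 := card_sdiff_add_card_eq_card hPS
  have h7 := card_sdiff_add_card_eq_card hIP
  simp only [sum_const, smul_eq_mul] at h2 h3
  have h8 : 2 * S.card ≤ ∑ u ∈ I, dg G S u + P.card + t := by omega
  have h9 : (∑ u ∈ I, ((pn G S I u).card : ℤ)) = (P.card : ℤ) := by rw [hPc]; push_cast; rfl
  have h10 : (∑ u ∈ I, (dg G S u : ℤ)) = ((∑ u ∈ I, dg G S u : ℕ) : ℤ) := by push_cast; rfl
  rw [h9, h10]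
  have h11 : (2 * S.card : ℤ) ≤ ((∑ u ∈ I, dg G S u : ℕ) : ℤ) + P.card + t := by exact_mod_cast h8
  linarith

lemma exists_alpha (G : SimpleGraph V) (S : Finset V) : ∃ I ⊆ S, Ind G I ∧ AlphaLe G S I.card := by
  obtain ⟨I, hI, hmax⟩ := exists_max_image (S.powerset.filter (fun I => Ind G I)) card
    ⟨∅, mem_filter.2 ⟨mem_powerset.2 (empty_subset _), fun x hx => absurd hx (notMem_empty x)⟩⟩
  rw [mem_filter, mem_powerset] at hI
  exact ⟨I, hI.1, hI.2, fun J hJ hj => hmax J (mem_filter.2 ⟨mem_powerset.2 hJ, hj⟩)⟩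

/-- deleting the closed neighbourhood of a vertex of minimum degree -/
lemma E_del_nb {S : Finset V} {v : V} (hv : v ∈ S) {D : ℕ} (hD : dg G S v = D)
    (hmin : ∀ z ∈ S, D ≤ dg G S z) : E G (S \ nb G S v) + (D + 1) * D ≤ E G S := by
  have h2 : (nb G S v).card = D + 1 := by rw [nb_card G hv, hD]
  have h4 := E_sdiff G (nb_sub G S v)
  have h5 : (nb G S v).card * D ≤ ∑ z ∈ nb G S v, dg G S z := by
    have := card_nsmul_le_sum (nb G S v) (fun z => dg G S z) D
      (fun z hz => hmin z (nb_sub G S v hz))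
    simpa using this
  have h6 : E G (nb G S v) ≤ (nb G S v).card * D := by
    unfold E
    have : ∀ z ∈ nb G S v, dg G (nb G S v) z ≤ D := by
      intro z hz
      have e1 : (nb G (nb G S v) z).card ≤ (nb G S v).card := card_le_card (nb_sub _ _ _)
      rw [nb_card G hz, h2] at e1
      omega
    have := sum_le_card_nsmul (nb G S v) (fun z => dg G (nb G S v) z) D this
    simpa using this
  rw [h2] at h5 h6
  omega

variable (G)

/-- THEOREM M'. -/
theorem mprime (w : ℕ) : ∀ n : ℕ, ∀ S : Finset V, S.card = n → ∀ t : ℕ, AlphaLe G S t →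
    (∀ K ⊆ S, Clq G K → K.card ≤ w) →
    (w : ℤ) * (3 * S.card - (2 * w + 1) * t) ≤ E G S := by
  intro n
  induction n using Nat.strong_induction_on with
  | _ n ih =>
  intro S hS t0 hα0 hω
  -- the exact independence number
  obtain ⟨I0, hI0, hi0, hα⟩ := exists_alpha G S
  set t := I0.card with ht
  have htt : t ≤ t0 := hα0 I0 hI0 hi0
  suffices hmain : (w : ℤ) * (3 * S.card - (2 * w + 1) * t) ≤ E G S by
    refine le_trans (mul_le_mul_of_nonneg_left ?_ (by positivity)) hmain
    have : ((2 : ℤ) * w + 1) * t ≤ (2 * w + 1) * t0 :=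
      mul_le_mul_of_nonneg_left (by exact_mod_cast htt) (by positivity)
    linarith
  rcases S.eq_empty_or_nonempty with rfl | hne
  · have h0 : (0 : ℤ) ≤ w * ((2 * w + 1) * t) := by positivity
    have h1 : (0 : ℤ) ≤ E G (∅ : Finset V) := by positivity
    simp only [card_empty, Nat.cast_zero]
    linarith
  by_contra hcon
  push Not at hcon
  -- (a)
  have ha : ∀ v ∈ S, 2 * dg G S v < 3 * w := by
    intro v hv
    have h1 := ih (S.erase v).card (by rw [card_erase_of_mem hv, ← hS]; have := card_pos.2 hne; omega)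
      (S.erase v) rfl t (hα.mono G (erase_subset _ _)) (fun K hK => hω K (hK.trans (erase_subset _ _)))
    have h2 := E_erase G hv
    have h3 : ((S.erase v).card : ℤ) = S.card - 1 := by
      rw [card_erase_of_mem hv]; have := card_pos.2 hne; omega
    rw [h3] at h1
    have h4 : (E G S : ℤ) = E G (S.erase v) + 2 * dg G S v := by exact_mod_cast h2
    have h5 : (2 * dg G S v : ℤ) < 3 * w := by linarith
    exact_mod_cast h5
  -- (b)
  have hb : ∀ v ∈ S, w ≤ dg G S v := by
    obtain ⟨v, hv, hmin⟩ := exists_min_image S (fun z => dg G S z) hne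
    suffices h : w ≤ dg G S v from fun z hz => h.trans (hmin z hz)
    by_contra hlt
    push Not at hlt
    set D := dg G S v with hD
    have h1 := E_del_nb hv hD.symm hmin
    have h2 : (nb G S v).card = D + 1 := nb_card G hv
    have h3 := card_sdiff_add_card_eq_card (nb_sub G S v)
    have htpos : 1 ≤ t := by
      have := hα {v} (singleton_subset_iff.2 hv)
        (by intro x hx y hy; simp at hx hy; subst hx; subst hy; simp)
      simpa using this
    have h4 : AlphaLe G (S \ nb G S v) (t - 1) := by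
      refine AlphaLe.sdiff_nb G hv ?_
      rwa [show t - 1 + 1 = t by omega]
    have h5 := ih (S \ nb G S v).card (by omega) _ rfl (t - 1) h4
      (fun K hK => hω K (hK.trans sdiff_subset))
    have h6 : ((S \ nb G S v).card : ℤ) = S.card - (D + 1) := by
      have : (S \ nb G S v).card + (D + 1) = S.card := by omega
      have : ((S \ nb G S v).card : ℤ) + (D + 1) = S.card := by exact_mod_cast this
      linarith
    have h7 : ((t - 1 : ℕ) : ℤ) = t - 1 := by omega
    rw [h6, h7] at h5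
    have h8 : (E G (S \ nb G S v) : ℤ) + (D + 1) * D ≤ E G S := by exact_mod_cast h1
    have h9 : (0 : ℤ) ≤ (w - (D + 1)) * (2 * w + 1 - (D + 1)) := by
      have : (D : ℤ) + 1 ≤ w := by exact_mod_cast hlt
      have hw0 : (0 : ℤ) ≤ w := by positivity
      exact mul_nonneg (by linarith) (by linarith)
    nlinarith
  -- (c)
  obtain ⟨I, hI, hImin⟩ := exists_min_image
    (S.powerset.filter (fun I => Ind G I ∧ I.card = t)) (fun I => ∑ u ∈ I, dg G S u)
    ⟨I0, mem_filter.2 ⟨mem_powerset.2 hI0, hi0, rfl⟩⟩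
  rw [mem_filter, mem_powerset] at hI
  obtain ⟨hIS, hi, hIc⟩ := hI
  have hle : ∀ u ∈ I, ∀ v ∈ pn G S I u, dg G S u ≤ dg G S v := by
    intro u hu v hv
    have h1 := hImin (insert v (I.erase u)) (mem_filter.2 ⟨mem_powerset.2 (swap_sub hIS hv),
      swap_ind hi hu hv, by rw [swap_card hi hu hv, hIc]⟩)
    rw [sum_insert (pn_notMem hi hu hv)] at h1
    have h2 := sum_erase_add I (fun u => dg G S u) hu
    simp only at h1 h2
    omega
  set P := I.biUnion (pn G S I) with hP
  have hPS : P ⊆ S := by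
    intro x hx
    obtain ⟨u, _, hx⟩ := mem_biUnion.1 hx
    exact pn_sub _ _ _ hx
  have hdisj : ∀ u ∈ I, ∀ w ∈ I, u ≠ w → Disjoint (pn G S I u) (pn G S I w) :=
    fun u hu w hw huw => pn_disj hi hu hw huw
  have hPc : P.card = ∑ u ∈ I, (pn G S I u).card := card_biUnion hdisj
  have hE1 : ∑ u ∈ I, (pn G S I u).card * dg G S u + (S \ P).card * w ≤ E G S := by
    have e1 : E G S = ∑ v ∈ S \ P, dg G S v + ∑ v ∈ P, dg G S v := by
      unfold E; exact (sum_sdiff hPS).symm
    have e2 : ∑ v ∈ P, dg G S v = ∑ u ∈ I, ∑ v ∈ pn G S I u, dg G S v := sum_biUnion hdisj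
    have e3 : ∑ u ∈ I, (pn G S I u).card * dg G S u ≤ ∑ u ∈ I, ∑ v ∈ pn G S I u, dg G S v := by
      refine sum_le_sum fun u hu => ?_
      have := card_nsmul_le_sum (pn G S I u) (fun v => dg G S v) (dg G S u) (hle u hu)
      simpa using this
    have e4 : (S \ P).card * w ≤ ∑ v ∈ S \ P, dg G S v := by
      have := card_nsmul_le_sum (S \ P) (fun v => dg G S v) w (fun v hv => hb v (mem_sdiff.1 hv).1)
      simpa using this
    omega
  have hedge := edges_at hα hIS hi hIc
  have hPc' : (P.card : ℤ) = ∑ u ∈ I, ((pn G S I u).card : ℤ) := by rw [hPc]; push_cast; rfl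
  have hSP : ((S \ P).card : ℤ) = S.card - P.card := by
    have := card_sdiff_add_card_eq_card hPS
    have : ((S \ P).card : ℤ) + P.card = S.card := by exact_mod_cast this
    linarith
  have hE2 : (∑ u ∈ I, ((pn G S I u).card : ℤ) * dg G S u) + ((S \ P).card : ℤ) * w ≤ E G S := by
    have : ((∑ u ∈ I, (pn G S I u).card * dg G S u + (S \ P).card * w : ℕ) : ℤ) ≤ (E G S : ℤ) := by
      exact_mod_cast hE1
    push_cast at this
    exact this
  have hterm : ∀ u ∈ I, (w : ℤ) * dg G S u + 2 * w * (pn G S I u).card - 2 * w * w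
      ≤ ((pn G S I u).card : ℤ) * dg G S u := by
    intro u hu
    have h1 : ((pn G S I u).card : ℤ) ≤ w := by
      exact_mod_cast hω _ (pn_sub _ _ _) (pn_clq hα hIS hi hIc hu)
    have h2 : (2 * dg G S u : ℤ) < 3 * w := by exact_mod_cast ha u (hIS hu)
    have hw0 : (0 : ℤ) ≤ w := by positivity
    nlinarith [mul_nonneg (sub_nonneg.2 h1) (show (0 : ℤ) ≤ 2 * w - dg G S u by linarith)]
  have hsum := sum_le_sum hterm
  rw [sum_sub_distrib, sum_add_distrib, ← mul_sum, ← mul_sum, sum_const, hIc, nsmul_eq_mul] at hsum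
  rw [hSP, hPc'] at hE2
  nlinarith [mul_le_mul_of_nonneg_left hedge (show (0 : ℤ) ≤ w by positivity)]

end MPrime

end Pool.Agent.Lib.MP_f04ccf_co
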