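import Pool.Agent.Lib.MP_f04ccf_co.M.LvI
import Pool.Agent.Lib.MP_f04ccf_co.M.ItCls

/-!
MP_f04ccf_co, TEXT D / H (assembly): the main pieces of an item.  Over `LvI` (levels, misses `mn` of the best
other point) and `ItN`.

* `LvI.main`: an item of value `v` has `v` main pieces: levels `g i ≤ kp i` with `∑ g = v`; either all pieces
  are used and there are no misses, or one piece of ONE row `w` is left out, `g w = kp w - 1`, and every other
  row has at least as many hits: `mn i + t i ≤ mn w + t w`, `mn i * mn w ≤ R + t i * t w`;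
* `cost`: the misses charged at level `g` (none below the full level);
* `LvI.main_slack`: if `(P i + 1) (P w + 1) > R + t i * t w` for any two rows, every used end has
  `cost ≤ P i`.
-/

set_option autoImplicit false

namespace Pool.Agent.Lib.MP_f04ccf_co

open Finset

attribute [local instance] Classical.propDecidable

section MainP

variable {ι : Type*} {R : ℤ} {n : ℕ} {t s h e : ℕ → ℤ} {E : ℕ → ℕ → ℤ} {U : Finset ι} {ho : ι → ℕ}
  {vl : ι → ℤ} {kp ms mr mn : ℕ → ι → ℤ} {mu : ℕ → ℤ} {be : ℕ → ℕ → ℤ} {pc ar : ι → ℤ}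

/-- the misses charged at level `g` -/
def cost (kp mn : ℕ → ι → ℤ) (g : ℕ) (i : ℕ) (u : ι) : ℤ :=
  if kp i u ≤ (g : ℤ) then mn i u else 0

/-- **the main pieces of an item** -/
theorem LvI.main (L : LvI R n t s h e U ho vl kp ms mr mn mu be pc ar)
    (H : ItN R n t s h e E U ho vl kp ms mr) {u : ι} (hu : u ∈ U) :
    ∃ g : ℕ → ℕ, (∀ i < n, (g i : ℤ) ≤ kp i u) ∧ ∑ i ∈ range n, (g i : ℤ) = vl u ∧
      ((∀ i < n, (g i : ℤ) = kp i u ∧ (g i ≠ 0 → mn i u = 0)) ∨
        (pc u = 0 ∧ ∃ w < n, 1 ≤ kp w u ∧ (g w : ℤ) = kp w u - 1 ∧ ∀ i < n, i ≠ w →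
          (g i : ℤ) = kp i u ∧ (g i ≠ 0 → mn i u + t i ≤ mn w u + t w ∧
            mn i u * mn w u ≤ R + t i * t w))) := by
  have hk0 : ∀ i < n, 0 ≤ kp i u := fun i hi => H.k0 u hu i hi
  rcases L.one u hu with ⟨y, hy, h1, h2, h3, h4⟩ | ⟨h1, h2⟩
  · refine ⟨fun i => (kp i u).toNat, fun i hi => ?_, ?_, Or.inl fun i hi => ⟨?_, fun h5 => ?_⟩⟩
    · show ((kp i u).toNat : ℤ) ≤ kp i u
      rw [Int.toNat_of_nonneg (hk0 i hi)]
    · show ∑ i ∈ range n, ((kp i u).toNat : ℤ) = vl u
      have h5 : ∑ i ∈ range n, ((kp i u).toNat : ℤ) = ∑ i ∈ range n, kp i u :=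
        sum_congr rfl fun i hi => Int.toNat_of_nonneg (hk0 i (mem_range.1 hi))
      rw [h5, sum_eq_single_of_mem y (mem_range.2 hy) fun j hj hjy => h4 j (mem_range.1 hj) hjy,
        h1, h2]
    · show ((kp i u).toNat : ℤ) = kp i u
      exact Int.toNat_of_nonneg (hk0 i hi)
    · by_cases hiy : i = y
      · rw [hiy]
        exact h3
      · exact absurd (by show (kp i u).toNat = 0; rw [h4 i hi hiy]; rfl) h5
  · -- the row with the fewest hits
    have hv := H.v1 u hu
    have hex : ((range n).filter fun i => 1 ≤ kp i u).Nonempty := by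
      by_contra h3
      rw [not_nonempty_iff_eq_empty, filter_eq_empty_iff] at h3
      have h4 : ∑ i ∈ range n, kp i u ≤ 0 := sum_nonpos fun i hi => by
        have := h3 hi
        omega
      linarith
    obtain ⟨w, hw, hmax⟩ := exists_max_image _ (fun i => mn i u + t i) hex
    obtain ⟨hwn, hw1⟩ := mem_filter.1 hw
    have hwn' := mem_range.1 hwn
    set g : ℕ → ℕ := fun i => if i = w then (kp w u - 1).toNat else (kp i u).toNat with hg
    have hgw : (g w : ℤ) = kp w u - 1 := by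
      simp only [hg, if_true]
      exact Int.toNat_of_nonneg (by linarith)
    have hgi : ∀ i < n, i ≠ w → (g i : ℤ) = kp i u := by
      intro i hi hiw
      simp only [hg, if_neg hiw]
      exact Int.toNat_of_nonneg (hk0 i hi)
    refine ⟨g, fun i hi => ?_, ?_, Or.inr ⟨h1, w, hwn', hw1, hgw, fun i hi hiw =>
      ⟨hgi i hi hiw, fun h5 => ?_⟩⟩⟩
    · by_cases hiw : i = w
      · rw [hiw, hgw]
        linarith
      · rw [hgi i hi hiw]
    · have h3 : ∑ i ∈ (range n).erase w, (g i : ℤ) + g w = ∑ i ∈ range n, (g i : ℤ) :=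
        sum_erase_add _ _ hwn
      have h4 : ∑ i ∈ (range n).erase w, kp i u + kp w u = ∑ i ∈ range n, kp i u :=
        sum_erase_add _ _ hwn
      have h5 : ∑ i ∈ (range n).erase w, (g i : ℤ) = ∑ i ∈ (range n).erase w, kp i u :=
        sum_congr rfl fun i hi => hgi i (mem_range.1 (mem_of_mem_erase hi)) (mem_erase.1 hi).1
      rw [← h3, hgw, h5]
      linarith
    · have h6 : 1 ≤ kp i u := by
        have h7 := hgi i hi hiw
        have h8 : (1 : ℤ) ≤ g i := by exact_mod_cast Nat.one_le_iff_ne_zero.2 h5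
        linarith
      exact ⟨hmax i (mem_filter.2 ⟨mem_range.2 hi, h6⟩), L.mpr u hu i hi w hwn' hiw⟩

/-- the cost of a full level -/
lemma cost_full {g : ℕ} {i : ℕ} {u : ι} (h : (g : ℤ) = kp i u) : cost kp mn g i u = mn i u := by
  unfold cost
  rw [if_pos h.ge]

/-- no cost below the full level -/
lemma cost_low {g : ℕ} {i : ℕ} {u : ι} (h : (g : ℤ) < kp i u) : cost kp mn g i u = 0 := by
  unfold cost
  rw [if_neg (not_le.2 h)]

/-- **the slack of the main pieces**: if no two rows can have more misses than `P`, every used end has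
`cost ≤ P` -/
theorem LvI.main_slack (L : LvI R n t s h e U ho vl kp ms mr mn mu be pc ar)
    (H : ItN R n t s h e E U ho vl kp ms mr) {u : ι} (hu : u ∈ U) {g : ℕ → ℕ}
    (hg : (∀ i < n, (g i : ℤ) = kp i u ∧ (g i ≠ 0 → mn i u = 0)) ∨
        (pc u = 0 ∧ ∃ w < n, 1 ≤ kp w u ∧ (g w : ℤ) = kp w u - 1 ∧ ∀ i < n, i ≠ w →
          (g i : ℤ) = kp i u ∧ (g i ≠ 0 → mn i u + t i ≤ mn w u + t w ∧
            mn i u * mn w u ≤ R + t i * t w)))
    {P : ℕ → ℤ} (hP0 : ∀ i < n, i ≠ ho u → 0 ≤ P i)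
    (hPt : ∀ i < n, ∀ w < n, i ≠ ho u → w ≠ ho u → i ≠ w → P i + t i = P w + t w)
    (hP : ∀ i < n, ∀ w < n, i ≠ ho u → w ≠ ho u → i ≠ w →
      R + t i * t w < (P i + 1) * (P w + 1)) {i : ℕ} (hi : i < n)
    (h0 : g i ≠ 0) : cost kp mn (g i) i u ≤ P i := by
  have hhome : ∀ j < n, 1 ≤ kp j u → j ≠ ho u := fun j _ h1 h2 => by
    have h3 := H.kh u hu
    rw [← h2] at h3
    linarith
  have hg1 : (1 : ℤ) ≤ g i := by exact_mod_cast Nat.one_le_iff_ne_zero.2 h0
  rcases hg with h1 | ⟨-, w, hw, h1, h2, h3⟩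
  · obtain ⟨h4, h5⟩ := h1 i hi
    rw [cost_full h4, h5 h0]
    exact hP0 i hi (hhome i hi (by linarith))
  · by_cases hiw : i = w
    · rw [hiw] at hg1 ⊢
      rw [cost_low (by linarith)]
      exact hP0 w hw (hhome w hw h1)
    · obtain ⟨h4, h5⟩ := h3 i hi hiw
      obtain ⟨h6, h7⟩ := h5 h0
      rw [cost_full h4]
      by_contra h8
      push Not at h8
      have hix := hhome i hi (by linarith)
      have hwx := hhome w hw h1
      have e1 := hPt i hi w hw hix hwx hiw
      have h9 := hP i hi w hw hix hwx hiw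
      have h10 : P w + 1 ≤ mn w u := by linarith
      have h11 : (P i + 1) * (P w + 1) ≤ mn i u * mn w u :=
        mul_le_mul (by linarith) h10 (by have := hP0 w hw hwx; linarith)
          (by have := hP0 i hi hix; linarith)
      linarith

end MainP

end Pool.Agent.Lib.MP_f04ccf_co
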