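import Pool.Agent.Lib.MP_f04ccf_co.M.PCapS
import Pool.Agent.Lib.MP_f04ccf_co.M.Room

/-!
MP_f04ccf_co: the mass of a closed system and its dropped class points.  `HSys.sum_tI_drop`: the mass
is at most `|BB| - 1 - t` plus the number of the class points of the rows which are not in the
system.  `HSys.slots_gain`: the star from a lower bound for the missing pairs, `HSys.slots_drop`: the
star with the gain of dropped class points of one row.  `BIM`, `Core.bim`: the basic integers with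
the numbers of dropped class points.
-/

set_option autoImplicit false

namespace Pool.Agent.Lib.MP_f04ccf_co

open Finset

attribute [local instance] Classical.propDecidable

section Mass

variable {V : Type*} {G : SimpleGraph V} {Z T : Finset V} {hm : V → V} {r m t j p : ℕ}
  {A S : Finset V}

/-- **the mass and the dropped class points** -/
theorem HSys.sum_tI_drop (hF : S2 G r m t Z T) (h : HSys G Z T A S)
    (hh : ∀ v ∈ S, hm v ∈ A ∧ hm v ∈ rws G T v) :
    ∑ x ∈ A, tI G Z T hm r S x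
      ≤ (BB G Z T).card - 1 - t + ∑ x ∈ A, ((Cl G Z T x \ S).card : ℤ) := by
  have h1 : ∑ x ∈ A, tI G Z T hm r S x
      = ∑ x ∈ A, ((r : ℤ) - 1 - (Cl G Z T x).card) + ∑ x ∈ A, ((Cl G Z T x \ S).card : ℤ) := by
    rw [← sum_add_distrib]
    refine sum_congr rfl fun x hx => ?_
    have h2 : (Cl G Z T x \ S).card + (S.filter fun v => v ∈ Cl G Z T x).card
        = (Cl G Z T x).card := by
      have h3 := card_sdiff_add_card_inter (Cl G Z T x) S
      have h4 : Cl G Z T x ∩ S = S.filter fun v => v ∈ Cl G Z T x := by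
        ext v
        rw [mem_inter, mem_filter]
        exact ⟨fun h' => ⟨h'.2, h'.1⟩, fun h' => ⟨h'.2, h'.1⟩⟩
      rw [h4] at h3
      exact h3
    have h5 := h.CP_eq hh hx
    unfold tI
    rw [h5]
    have h6 : ((Cl G Z T x \ S).card : ℤ) + (S.filter fun v => v ∈ Cl G Z T x).card
        = (Cl G Z T x).card := by exact_mod_cast h2
    linarith
  have h2 : ∑ x ∈ A, ((r : ℤ) - 1 - (Cl G Z T x).card)
      ≤ ∑ x ∈ T, ((r : ℤ) - 1 - (Cl G Z T x).card) := by
    refine sum_le_sum_of_subset_of_nonneg h.sub fun x hx _ => ?_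
    have h3 := hF.Cl_card_lt hx
    have h4 := hF.lt
    have h5 : ((Cl G Z T x).card : ℤ) ≤ ((r - 1 : ℕ) : ℤ) := by exact_mod_cast h3
    rw [Nat.cast_sub (by omega)] at h5
    push_cast at h5
    linarith
  have h3 : ∑ x ∈ T, ((r : ℤ) - 1 - (Cl G Z T x).card) = (BB G Z T).card - 1 - t := by
    have h4 := hF.toPFrame.card_split
    rw [hF.cardZ] at h4
    have h5 : ((t * r + 1 : ℕ) : ℤ)
        = ((∑ v ∈ T, (Cl G Z T v).card + (BB G Z T).card : ℕ) : ℤ) := by rw [h4]
    push_cast at h5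
    rw [sum_sub_distrib, sum_const, nsmul_eq_mul, hF.cardT]
    linarith
  linarith

/-- **the star from a lower bound for the missing pairs** -/
theorem HSys.slots_gain (hF : PFrame G r m t Z T)
    (h : HSys G Z T A S) (hv : S.card = A.card * r + 1)
    (hh : ∀ v ∈ S, hm v ∈ A ∧ hm v ∈ rws G T v) {g : ℤ}
    (h2 : ((r : ℤ) - 1) * (r * A.card * (A.card - 1) + 2 * A.card) + g ≤ NE G S) :
    ∑ x ∈ A, ∑ y ∈ A.erase x, EI G hm S x y + ∑ x ∈ A, sI hm r S x ^ 2 + g
      ≤ 2 * ∑ x ∈ A, eI G hm S x + ((A.card : ℤ) ^ 2 - A.card - 2) * r + 2 * A.card + 1 := by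
  have h1 := (h.csys hF hh).NE_slots_eq
  have h3 : (A.biUnion fun x => S.filter fun v => hm v = x) = S := by
    ext v
    rw [mem_biUnion]
    constructor
    · rintro ⟨x, -, hx⟩
      exact (mem_filter.1 hx).1
    · intro hv'
      exact ⟨hm v, (hh v hv').1, mem_filter.2 ⟨hv', rfl⟩⟩
  have h4 : ∑ x ∈ A, sI hm r S x = 1 := by
    rw [HSys.sum_sI (G := G) (T := T) hh, hv]
    push_cast
    ring
  have h5 : ∑ x ∈ A, (((S.filter fun v => hm v = x).card : ℕ) : ℤ)
      = ∑ x ∈ A, sI hm r S x + A.card * r := by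
    rw [sum_congr rfl fun x _ => card_slot_eq (hm := hm) (r := r) S x, sum_add_distrib, sum_const,
      nsmul_eq_mul]
    ring
  have h6 : ∑ x ∈ A, (((S.filter fun v => hm v = x).card : ℕ) : ℤ) ^ 2
      = ∑ x ∈ A, sI hm r S x ^ 2 + 2 * r * ∑ x ∈ A, sI hm r S x + A.card * r ^ 2 := by
    rw [sum_congr rfl fun x _ => show (((S.filter fun v => hm v = x).card : ℕ) : ℤ) ^ 2
      = sI hm r S x ^ 2 + 2 * r * sI hm r S x + (r : ℤ) ^ 2 by
        rw [card_slot_eq (hm := hm) (r := r) S x]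
        ring]
    rw [sum_add_distrib, sum_add_distrib, ← mul_sum, sum_const, nsmul_eq_mul]
  have h7 : ∑ x ∈ A, (NE G (S.filter fun v => hm v = x) : ℤ) = 2 * ∑ x ∈ A, eI G hm S x := by
    rw [mul_sum]
    exact sum_congr rfl fun x _ => (two_eI S x).symm
  have h8 : ∑ x ∈ A, ∑ y ∈ A.erase x, ∑ v ∈ S.filter fun v => hm v = y,
      (dg G (S.filter fun v => hm v = x) v : ℤ) = ∑ x ∈ A, ∑ y ∈ A.erase x, EI G hm S x y := rfl
  rw [h3, h5, h6, h7, h8, h4] at h1
  generalize ∑ x ∈ A, ∑ y ∈ A.erase x, EI G hm S x y = a1 at *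
  generalize ∑ x ∈ A, sI hm r S x ^ 2 = a2 at *
  generalize ∑ x ∈ A, eI G hm S x = a3 at *
  nlinarith

/-- **the star with the dropped class points of one row** -/
theorem HSys.slots_drop (hF : PFrame G r m t Z T) (hP : PG G r)
    (h : HSys G Z T A S) (hv : S.card = A.card * r + 1)
    (hh : ∀ v ∈ S, hm v ∈ A ∧ hm v ∈ rws G T v) {x : V} (hx : x ∈ A) {Q : Finset V}
    (hQ : Q ⊆ Cl G Z T x) (hQS : Disjoint S Q) :
    ∑ x ∈ A, ∑ y ∈ A.erase x, EI G hm S x y + ∑ x ∈ A, sI hm r S x ^ 2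
      + 2 * ∑ a ∈ Q, ((dg G S a : ℤ) - (A.card + 1))
      ≤ 2 * ∑ x ∈ A, eI G hm S x + ((A.card : ℤ) ^ 2 - A.card - 2) * r + 2 * A.card + 1 := by
  refine h.slots_gain hF hv hh ?_
  have h1 := hP.add_out hv hQS
  have h2 : NE G Q = 0 := NE_clq fun u hu v hv' huv =>
    hF.Cl_clq (h.sub hx) u (hQ hu) v (hQ hv') huv
  rw [h2] at h1
  push_cast at h1
  nlinarith

/-- a dropped class point of the row `x` sees at least `r - 1 - t_x` points -/
lemma HSys.dg_drop (hF : PFrame G r m t Z T) (h : HSys G Z T A S)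
    (hh : ∀ v ∈ S, hm v ∈ A ∧ hm v ∈ rws G T v) {x a : V} (hx : x ∈ A) (ha : a ∈ Cl G Z T x)
    (haS : a ∉ S) : (r : ℤ) - 1 - tI G Z T hm r S x ≤ dg G S a := by
  have h1 := h.CP_eq hh hx
  have h2 := hF.dg_drop (h.sub hx) (C := S.filter fun v => v ∈ Cl G Z T x) (S := S)
    (fun v hv => (mem_filter.1 hv).2) (filter_subset _ _) ha fun h' => haS (mem_filter.1 h').1
  unfold tI
  rw [h1]
  have h3 : (((S.filter fun v => v ∈ Cl G Z T x).card : ℕ) : ℤ) ≤ (dg G S a : ℤ) := by
    exact_mod_cast h2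
  linarith

/-- the basic integers with the numbers `q i` of the class points of the rows which are not in the
system; `N` is the number of the rows of the frame -/
structure BIM (R : ℤ) (n N : ℕ) (t s h e q : ℕ → ℤ) (E : ℕ → ℕ → ℤ) : Prop extends
    BIP R n t s h e E where
  nN : n ≤ N
  q0 : ∀ i < n, 0 ≤ q i
  mass : ∑ i ∈ range n, t i ≤ R - N + ∑ i ∈ range n, q i
  drop : ∀ i < n, ∑ i ∈ range n, ∑ j ∈ (range n).erase i, E i j + ∑ i ∈ range n, s i ^ 2
    + 2 * q i * (R - t i - n - 1)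
    ≤ 2 * ∑ i ∈ range n, e i + ((n : ℤ) ^ 2 - n - 2) * (R + 1) + 2 * n + 1

/-- the dichotomy: the mass is at most `R - N`, or the star has an extra gain -/
theorem BIM.mass_or {R : ℤ} {n N : ℕ} {t s h e q : ℕ → ℤ} {E : ℕ → ℕ → ℤ}
    (H : BIM R n N t s h e q E) :
    ∑ i ∈ range n, t i ≤ R - N ∨ ∃ i < n, 1 ≤ q i := by
  by_contra hcon
  push Not at hcon
  obtain ⟨h1, h2⟩ := hcon
  have h3 : ∑ i ∈ range n, q i ≤ 0 :=
    sum_nonpos fun i hi => by
      have := h2 i (mem_range.1 hi)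
      omega
  have := H.mass
  omega

/-- **the basic integers of the last step with the partial cap and the dropped class points** -/
theorem Core.bim (h : Core G Z T r m t j p A S hm) :
    ∃ (ρ : V → ℕ) (σ : ℕ → V), Rank A (tI G Z T hm r S) ρ σ ∧
      BIM ((r : ℤ) - 1) A.card t (fun i => tI G Z T hm r S (σ i)) (fun i => sI hm r S (σ i))
        (fun i => hI G Z T hm S (σ i)) (fun i => eI G hm S (σ i))
        (fun i => ((Cl G Z T (σ i) \ S).card : ℤ)) (fun i j => EI G hm S (σ i) (σ j)) := by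
  obtain ⟨ρ, σ, hσ, hB⟩ := h.bip
  have hH := h.hsys
  have hFP := h.F.toPFrame
  refine ⟨ρ, σ, hσ, hB, ?_, fun i _ => Nat.cast_nonneg _, ?_, ?_⟩
  · have h1 := card_le_card hH.sub
    rw [h.F.cardT] at h1
    exact h1
  · have h1 := hH.sum_tI_drop h.F h.H.ok
    have h2 : ((BB G Z T).card : ℤ) ≤ r := by exact_mod_cast h.F.b.trans h.hmr
    rw [hσ.sum (tI G Z T hm r S), hσ.sum fun x => ((Cl G Z T x \ S).card : ℤ)] at h1
    linarith
  · intro i hi
    have hx := hσ.mem i hi
    have h1 := hH.slots_drop hFP h.gp.P h.Q.val h.H.ok hx (Q := Cl G Z T (σ i) \ S)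
      sdiff_subset disjoint_sdiff
    have h2 : ((Cl G Z T (σ i) \ S).card : ℤ)
        * ((r : ℤ) - 1 - tI G Z T hm r S (σ i) - A.card - 1)
        ≤ ∑ a ∈ Cl G Z T (σ i) \ S, ((dg G S a : ℤ) - (A.card + 1)) := by
      have h3 := card_nsmul_le_sum (Cl G Z T (σ i) \ S)
        (fun a => (dg G S a : ℤ) - (A.card + 1))
        ((r : ℤ) - 1 - tI G Z T hm r S (σ i) - A.card - 1) fun a ha => by
          have h4 := hH.dg_drop hFP h.H.ok hx (mem_sdiff.1 ha).1 (mem_sdiff.1 ha).2
          linarith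
      rw [nsmul_eq_mul] at h3
      exact h3
    have e1 : (range A.card).image σ = A := by
      refine eq_of_subset_of_card_le (hσ.image_sub (Subset.refl _)) ?_
      rw [hσ.card_image (Subset.refl _), card_range]
    have e2 := hσ.sum2_im (Subset.refl (range A.card)) (EI G hm S)
    rw [e1] at e2
    rw [e2, hσ.sum (eI G hm S), hσ.sum fun x => sI hm r S x ^ 2] at h1
    have er : (r : ℤ) - 1 + 1 = r := by ring
    rw [er]
    linarith

/-- a system with fewer rows than the frame, or the whole frame -/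
lemma Core.five_rows (h : Core G Z T r m t j p A S hm) : 5 ≤ t := h.toFCore.five_t

end Mass

end Pool.Agent.Lib.MP_f04ccf_co
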