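import Pool.Agent.Lib.MP_f04ccf_co.M.MatQ

/-!
MP_f04ccf_co, notes 16457, 16496, 16523: ITEMS.  An item of a host `x` is a clique of missing members
(`Sum.inl Q`, value `|Q| - 1`) or a missing pair (member, class point) (`Sum.inr e`, value `1`).  At the
row `z` it has the load `ikp z` and the misses `ims z`.  `Fam`: a family of items of one host.  `WSysT`:
the whole frame.  `itm_srv`: the service, `itm_prod`, `itm_pair`, `itm_tst`, `itm_row`.
-/

set_option autoImplicit false

namespace Pool.Agent.Lib.MP_f04ccf_co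

open Finset

attribute [local instance] Classical.propDecidable

section Itm

variable {ι V : Type*} {G F : SimpleGraph V}

/-- the whole frame: all tails are in `A`, a missing pair with one tail is served there -/
structure WSysT (G F : SimpleGraph V) (A : Finset ι) (C H : ι → Finset V) (tl : V → ι) : Prop
    extends WSys G F A C H tl where
  tlA : ∀ x ∈ A, ∀ v ∈ H x, tl v ∈ A.erase x
  same : ∀ x ∈ A, ∀ p ∈ H x, ∀ q ∈ H x, F.Adj p q → tl p = tl q →
    ∀ c ∈ C (tl p), G.Adj c p ∨ G.Adj c q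

/-- items: a clique of missing members, or a missing pair (member, class point) -/
abbrev Itm (V : Type*) := Finset V ⊕ V × V

/-- the value -/
def ivl : Itm V → ℕ
  | Sum.inl Q => Q.card - 1
  | Sum.inr _ => 1

/-- the members -/
def imem : Itm V → Finset V
  | Sum.inl Q => Q
  | Sum.inr e => {e.1}

/-- the points -/
noncomputable def ipts : Itm V → Finset V
  | Sum.inl Q => Q
  | Sum.inr e => {e.1, e.2}

/-- the points of `Q` with tail `z` -/
noncomputable def tlp (tl : V → ι) (Q : Finset V) (z : ι) : Finset V := Q.filter fun v => tl v = z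

lemma mem_tlp {tl : V → ι} {Q : Finset V} {z : ι} {v : V} : v ∈ tlp tl Q z ↔ v ∈ Q ∧ tl v = z :=
  mem_filter

lemma tlp_sub {tl : V → ι} {Q : Finset V} {z : ι} : tlp tl Q z ⊆ Q := filter_subset _ _

/-- the load of the row `z` -/
noncomputable def ikp (tl : V → ι) (z : ι) : Itm V → ℕ
  | Sum.inl Q => if tlp tl Q z = Q then Q.card - 1 else (tlp tl Q z).card
  | Sum.inr e => if tl e.1 = z then 1 else 0

/-- the column `c` misses a point of `Q` with tail `z` and all points of `X` -/
def Dfc (G : SimpleGraph V) (tl : V → ι) (Q X : Finset V) (z : ι) (c : V) : Prop :=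
  (∃ u ∈ Q, tl u = z ∧ ¬ G.Adj c u) ∧ ∀ v ∈ X, ¬ G.Adj c v

/-- the deficient columns of an item, `X Q` the points outside which are used -/
noncomputable def rcl (G : SimpleGraph V) (C : ι → Finset V) (tl : V → ι)
    (X : Finset V → Finset V) (z : ι) : Itm V → Finset V
  | Sum.inl Q => if tlp tl Q z = Q then ∅ else (C z).filter fun c => Dfc G tl Q (X Q) z c
  | Sum.inr _ => ∅

/-- the points used at the row `z` -/
noncomputable def rpts (tl : V → ι) (X : Finset V → Finset V) (z : ι) : Itm V → Finset V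
  | Sum.inl Q => tlp tl Q z ∪ X Q
  | Sum.inr e => {e.1, e.2}

/-- the points of `Q` with other tails -/
noncomputable def oth (tl : V → ι) (z : ι) (Q : Finset V) : Finset V := Q \ tlp tl Q z

lemma mem_oth {tl : V → ι} {Q : Finset V} {z : ι} {v : V} :
    v ∈ oth tl z Q ↔ v ∈ Q ∧ tl v ≠ z := by
  unfold oth
  rw [mem_sdiff, mem_tlp]
  tauto

/-- the deficient columns of an item -/
noncomputable def icl (G : SimpleGraph V) (C : ι → Finset V) (tl : V → ι) (z : ι) (u : Itm V) :
    Finset V := rcl G C tl (oth tl z) z u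

/-- the misses at the row `z` -/
noncomputable def ims (G : SimpleGraph V) (C : ι → Finset V) (tl : V → ι) (z : ι) (u : Itm V) : ℕ :=
  (icl G C tl z u).card

lemma rcl_sub {C : ι → Finset V} {tl : V → ι} {X : Finset V → Finset V} {z : ι} {u : Itm V} :
    rcl G C tl X z u ⊆ C z := by
  rcases u with Q | e
  · simp only [rcl]
    split_ifs
    · exact empty_subset _
    · exact filter_subset _ _
  · exact empty_subset _

/-- the load and the misses at a row without a tail -/
lemma rcl_card_le {C : ι → Finset V} {tl : V → ι} {X : Finset V → Finset V} {z : ι} {u : Itm V} :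
    (rcl G C tl X z u).card ≤ ikp tl z u * (C z).card := by
  rcases u with Q | e
  · simp only [rcl, ikp]
    split_ifs with h1
    · exact Nat.zero_le _
    · by_cases h2 : tlp tl Q z = ∅
      · rw [h2, card_empty, Nat.zero_mul]
        apply Nat.le_of_eq
        rw [card_eq_zero, filter_eq_empty_iff]
        rintro c - ⟨⟨u, hu, huz, -⟩, -⟩
        have : u ∈ tlp tl Q z := mem_tlp.2 ⟨hu, huz⟩
        rw [h2] at this
        exact absurd this (notMem_empty _)
      · have h3 : 1 ≤ (tlp tl Q z).card := card_pos.2 (nonempty_iff_ne_empty.2 h2)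
        calc _ ≤ (C z).card := card_le_card (filter_subset _ _)
          _ = 1 * (C z).card := (one_mul _).symm
          _ ≤ _ := Nat.mul_le_mul_right _ h3
  · simp [rcl]

/-- the load is at most the value -/
lemma ikp_le_ivl {tl : V → ι} {z : ι} {u : Itm V} : ikp tl z u ≤ ivl u := by
  rcases u with Q | e
  · simp only [ikp, ivl]
    split_ifs with h1
    · exact le_rfl
    · have := card_lt_card (ssubset_of_subset_of_ne (tlp_sub (tl := tl) (Q := Q) (z := z)) h1)
      omega
  · simp only [ikp, ivl]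
    split_ifs <;> omega

/-- a family of items of the host `x` -/
structure Fam (F : SimpleGraph V) (C H : ι → Finset V) (tl : V → ι) (x : ι)
    (U : Finset (Itm V)) : Prop where
  sub : ∀ Q, Sum.inl Q ∈ U → Q ⊆ H x
  two : ∀ Q, Sum.inl Q ∈ U → 2 ≤ Q.card
  clq : ∀ Q, Sum.inl Q ∈ U → ∀ u ∈ Q, ∀ v ∈ Q, u ≠ v → F.Adj u v
  pcH : ∀ e, Sum.inr e ∈ U → e.1 ∈ H x
  pcC : ∀ e, Sum.inr e ∈ U → e.2 ∈ C x
  pcF : ∀ e, Sum.inr e ∈ U → F.Adj e.1 e.2
  dis : ∀ u ∈ U, ∀ v ∈ U, u ≠ v → Disjoint (imem u) (imem v)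
  cop : ∀ e, Sum.inr e ∈ U → ∀ f, Sum.inr f ∈ U → e.2 = f.2 → e ≠ f → tl e.1 ≠ tl f.1

namespace Fam

variable {A : Finset ι} {C H : ι → Finset V} {tl : V → ι} {x y z : ι} {U : Finset (Itm V)}

lemma ivl_pos (h : Fam F C H tl x U) {u : Itm V} (hu : u ∈ U) : 1 ≤ ivl u := by
  rcases u with Q | e
  · have := h.two Q hu
    simp only [ivl]
    omega
  · simp [ivl]

lemma imem_sub (h : Fam F C H tl x U) {u : Itm V} (hu : u ∈ U) : imem u ⊆ H x := by
  rcases u with Q | e
  · exact h.sub Q hu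
  · simp only [imem, singleton_subset_iff]
    exact h.pcH e hu

lemma imem_ne (h : Fam F C H tl x U) {u : Itm V} (hu : u ∈ U) : (imem u).Nonempty := by
  rcases u with Q | e
  · have := h.two Q hu
    simp only [imem]
    exact card_pos.1 (by omega)
  · simp [imem]

lemma ipts_sub (h : Fam F C H tl x U) {u : Itm V} (hu : u ∈ U) : ipts u ⊆ H x ∪ C x := by
  rcases u with Q | e
  · exact (h.sub Q hu).trans subset_union_left
  · simp only [ipts]
    intro v hv
    rcases mem_insert.1 hv with rfl | hv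
    · exact mem_union_left _ (h.pcH e hu)
    · rw [mem_singleton.1 hv]
      exact mem_union_right _ (h.pcC e hu)

lemma card_ipts (h : Fam F C H tl x U) {u : Itm V} (hu : u ∈ U) : (ipts u).card ≤ 2 * ivl u := by
  rcases u with Q | e
  · have := h.two Q hu
    simp only [ipts, ivl]
    omega
  · simp only [ipts, ivl]
    exact card_le_two

lemma rpts_sub (h : Fam F C H tl x U) {X : Finset V → Finset V} (hX : ∀ Q, X Q ⊆ oth tl z Q)
    {u : Itm V} : rpts tl X z u ⊆ ipts u := by
  rcases u with Q | e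
  · simp only [rpts, ipts]
    refine union_subset tlp_sub fun v hv => (mem_oth.1 (hX Q hv)).1
  · exact subset_rfl

/-- no load at the host -/
lemma ikp_host (h : Fam F C H tl x U) (hW : WSysT G F A C H tl) (hx : x ∈ A) {u : Itm V}
    (hu : u ∈ U) : ikp tl x u = 0 := by
  rcases u with Q | e
  · have h1 : tlp tl Q x = ∅ := by
      unfold tlp
      rw [filter_eq_empty_iff]
      intro v hv h2
      exact ne_of_mem_erase (hW.tlA x hx v (h.sub Q hu hv)) h2
    have h2 : tlp tl Q x ≠ Q := by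
      rw [h1]
      rintro rfl
      have := h.two _ hu
      simp at this
    have h3 : ikp tl x (Sum.inl Q) = (tlp tl Q x).card := by simp only [ikp, h2, if_false]
    rw [h3, h1, card_empty]
  · have h1 : tl e.1 ≠ x := ne_of_mem_erase (hW.tlA x hx _ (h.pcH e hu))
    simp only [ikp, h1, if_false]

/-- every column misses at most one point of a clique with tail `z` -/
lemma miss_le (h : Fam F C H tl x U) (hW : WSysT G F A C H tl) (hx : x ∈ A) {Q : Finset V}
    (hQ : Sum.inl Q ∈ U) {c : V} (hc : c ∈ C z) :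
    ((tlp tl Q z).filter fun v => ¬ G.Adj c v).card ≤ 1 := by
  rw [card_le_one]
  intro u hu v hv
  by_contra hne
  obtain ⟨hu1, hu2⟩ := mem_filter.1 hu
  obtain ⟨hv1, hv2⟩ := mem_filter.1 hv
  obtain ⟨hu3, hu4⟩ := mem_tlp.1 hu1
  obtain ⟨hv3, hv4⟩ := mem_tlp.1 hv1
  rcases hW.same x hx u (h.sub Q hQ hu3) v (h.sub Q hQ hv3) (h.clq Q hQ u hu3 v hv3 hne)
    (hu4.trans hv4.symm) c (hu4 ▸ hc) with h1 | h1
  · exact hu2 h1
  · exact hv2 h1

/-- **the hits of a column** -/
theorem see (h : Fam F C H tl x U) (hW : WSysT G F A C H tl) (hx : x ∈ A)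
    {X : Finset V → Finset V} (hX : ∀ Q, X Q ⊆ oth tl z Q) {u : Itm V} (hu : u ∈ U) {c : V}
    (hc : c ∈ C z) :
    (ikp tl z u : ℤ) ≤ dg G (rpts tl X z u) c + if c ∈ rcl G C tl X z u then 1 else 0 := by
  rcases u with Q | e
  · have h1 := h.miss_le hW hx hu hc
    have h2 := card_filter_add_card_filter_not (s := tlp tl Q z) (p := fun v => G.Adj c v)
    have h3 : Disjoint (tlp tl Q z) (X Q) := by
      rw [disjoint_left]
      intro v hv hv'
      exact (mem_oth.1 (hX Q hv')).2 (mem_tlp.1 hv).2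
    have h4 : dg G (rpts tl X z (Sum.inl Q)) c = dg G (tlp tl Q z) c + dg G (X Q) c := by
      simp only [rpts]
      unfold dg
      rw [filter_union, card_union_of_disjoint (disjoint_filter_filter h3)]
    rw [h4]
    simp only [ikp, rcl]
    have h5 : dg G (tlp tl Q z) c = ((tlp tl Q z).filter fun v => G.Adj c v).card := rfl
    by_cases hone : tlp tl Q z = Q
    · simp only [hone, if_true, notMem_empty, if_false]
      rw [hone] at h1 h2 h5
      push_cast
      omega
    · simp only [hone, if_false]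
      by_cases hm : ∃ w ∈ Q, tl w = z ∧ ¬ G.Adj c w
      · by_cases hv : ∀ v ∈ X Q, ¬ G.Adj c v
        · have h6 : c ∈ (C z).filter fun c => Dfc G tl Q (X Q) z c :=
            mem_filter.2 ⟨hc, hm, hv⟩
          simp only [h6, if_true]
          push_cast
          omega
        · push Not at hv
          obtain ⟨v, hv, hcv⟩ := hv
          have h6 : 0 < dg G (X Q) c := card_pos.2 ⟨v, mem_filter.2 ⟨hv, hcv⟩⟩
          have h7 : (0 : ℤ) ≤ if c ∈ (C z).filter fun c => Dfc G tl Q (X Q) z c then (1 : ℤ)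
              else 0 := by split_ifs <;> norm_num
          push_cast
          omega
      · have h6 : ((tlp tl Q z).filter fun v => ¬ G.Adj c v) = ∅ := by
          rw [filter_eq_empty_iff]
          intro w hw hcw
          exact hm ⟨w, (mem_tlp.1 hw).1, (mem_tlp.1 hw).2, hcw⟩
        rw [h6, card_empty] at h2
        have h7 : (0 : ℤ) ≤ if c ∈ (C z).filter fun c => Dfc G tl Q (X Q) z c then (1 : ℤ)
            else 0 := by split_ifs <;> norm_num
        push_cast
        omega
  · simp only [ikp, rpts, rcl, notMem_empty, if_false, add_zero]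
    split_ifs with h1
    · rcases (hW.pc x hx e.1 (h.pcH e hu) e.2 (h.pcC e hu) (h.pcF e hu)).2 c (h1 ▸ hc)
        with h2 | h2
      · have : 0 < dg G ({e.1, e.2} : Finset V) c :=
          card_pos.2 ⟨e.1, mem_filter.2 ⟨mem_insert_self _ _, h2⟩⟩
        exact_mod_cast this
      · have : 0 < dg G ({e.1, e.2} : Finset V) c :=
          card_pos.2 ⟨e.2, mem_filter.2 ⟨mem_insert_of_mem (mem_singleton_self _), h2⟩⟩
        exact_mod_cast this
    · positivity

/-- **items loaded at one row are disjoint** -/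
theorem dis_row (hW : WSysT G F A C H tl) {U' : ι → Finset (Itm V)}
    (h : ∀ x ∈ A, Fam F C H tl x (U' x)) (hx : x ∈ A) (hy : y ∈ A) {u v : Itm V}
    (hu : u ∈ U' x) (hv : v ∈ U' y) (huv : u ≠ v) (hku : ikp tl z u ≠ 0)
    (hkv : ikp tl z v ≠ 0) : Disjoint (ipts u) (ipts v) := by
  by_cases hxy : x = y
  · subst hxy
    have hd := (h x hx).dis u hu v hv huv
    have hHC : ∀ w, w ∈ H x → w ∈ C x → False := fun w h1 h2 =>
      disjoint_left.1 (hW.dHC x hx x hx) h1 h2
    rw [disjoint_left]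
    intro w hwu hwv
    rcases u with Q | e <;> rcases v with Q' | f
    · exact disjoint_left.1 hd hwu hwv
    · simp only [ipts] at hwu hwv
      rcases mem_insert.1 hwv with h1 | h1
      · exact disjoint_left.1 hd hwu (by simp only [imem, mem_singleton]; exact h1)
      · rw [mem_singleton] at h1
        exact hHC w ((h x hx).sub Q hu hwu) (h1 ▸ (h x hx).pcC f hv)
    · simp only [ipts] at hwu hwv
      rcases mem_insert.1 hwu with h1 | h1
      · exact disjoint_left.1 hd (by simp only [imem, mem_singleton]; exact h1) hwv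
      · rw [mem_singleton] at h1
        exact hHC w ((h x hx).sub Q' hv hwv) (h1 ▸ (h x hx).pcC e hu)
    · simp only [ipts] at hwu hwv
      rcases mem_insert.1 hwu with h1 | h1 <;> rcases mem_insert.1 hwv with h2 | h2
      · exact disjoint_left.1 hd (by simp only [imem, mem_singleton]; exact h1)
          (by simp only [imem, mem_singleton]; exact h2)
      · rw [mem_singleton] at h2
        exact hHC w (h1 ▸ (h x hx).pcH e hu) (h2 ▸ (h x hx).pcC f hv)
      · rw [mem_singleton] at h1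
        exact hHC w (h2 ▸ (h x hx).pcH f hv) (h1 ▸ (h x hx).pcC e hu)
      · rw [mem_singleton] at h1 h2
        have h3 : tl e.1 = z := by
          by_contra h4
          exact hku (by simp only [ikp, h4, if_false])
        have h4 : tl f.1 = z := by
          by_contra h4
          exact hkv (by simp only [ikp, h4, if_false])
        exact (h x hx).cop e hu f hv (h1.symm.trans h2) (fun h5 => huv (by rw [h5]))
          (h3.trans h4.symm)
  · refine Disjoint.mono ((h x hx).ipts_sub hu) ((h y hy).ipts_sub hv) ?_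
    rw [disjoint_union_left, disjoint_union_right, disjoint_union_right]
    exact ⟨⟨hW.dHH x hx y hy hxy, hW.dHC x hx y hy⟩, (hW.dHC y hy x hx).symm,
      hW.dCC x hx y hy hxy⟩

/-- **the groups at one row** -/
theorem grp (hW : WSysT G F A C H tl) {U' : ι → Finset (Itm V)}
    (h : ∀ x ∈ A, Fam F C H tl x (U' x)) {D : Finset ι} (hD : D ⊆ A) {K : Finset (Itm V)}
    (hK : K ⊆ D.biUnion U') {X : Finset V → Finset V} (hX : ∀ Q, X Q ⊆ oth tl z Q) :
    Grp G (C z) (K.filter fun u => ikp tl z u ≠ 0) (rpts tl X z) (fun u => (ikp tl z u : ℤ))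
      (fun u c => if c ∈ rcl G C tl X z u then 1 else 0) := by
  have key : ∀ u ∈ K, ∃ x ∈ A, u ∈ U' x := fun u hu => by
    obtain ⟨x, hx, hux⟩ := mem_biUnion.1 (hK hu)
    exact ⟨x, hD hx, hux⟩
  refine ⟨fun u hu v hv huv => ?_, fun u hu c hc => ?_⟩
  · obtain ⟨hu1, hu2⟩ := mem_filter.1 hu
    obtain ⟨hv1, hv2⟩ := mem_filter.1 hv
    obtain ⟨x, hx, hux⟩ := key u hu1
    obtain ⟨y, hy, hvy⟩ := key v hv1
    exact (dis_row hW h hx hy hux hvy huv hu2 hv2).mono ((h x hx).rpts_sub hX)
      ((h y hy).rpts_sub hX)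
  · obtain ⟨hu1, hu2⟩ := mem_filter.1 hu
    obtain ⟨x, hx, hux⟩ := key u hu1
    exact (h x hx).see hW hx hX hux hc

end Fam

/-- the hits of the row `z` -/
noncomputable def iht (G : SimpleGraph V) (C : ι → Finset V) (tl : V → ι) (z : ι) (u : Itm V) : ℤ :=
  ((C z).card : ℤ) * ikp tl z u - ims G C tl z u

lemma iht_nonneg {C : ι → Finset V} {tl : V → ι} {z : ι} {u : Itm V} : 0 ≤ iht G C tl z u := by
  have h1 : (ims G C tl z u : ℤ) ≤ ikp tl z u * (C z).card := by
    exact_mod_cast rcl_card_le (G := G) (C := C) (tl := tl) (X := oth tl z) (z := z) (u := u)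
  unfold iht
  linarith [mul_comm ((C z).card : ℤ) (ikp tl z u : ℤ)]

lemma iht_zero {C : ι → Finset V} {tl : V → ι} {z : ι} {u : Itm V} (h : ikp tl z u = 0) :
    iht G C tl z u = 0 := by
  have h1 : ims G C tl z u ≤ ikp tl z u * (C z).card :=
    rcl_card_le (G := G) (C := C) (tl := tl) (X := oth tl z) (z := z) (u := u)
  rw [h, Nat.zero_mul] at h1
  have h2 : ims G C tl z u = 0 := Nat.le_zero.1 h1
  unfold iht
  rw [h, h2]
  simp

/-- the sum of the deficiencies -/
lemma sum_rcl {C : ι → Finset V} {tl : V → ι} {X : Finset V → Finset V} {z : ι} (u : Itm V) :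
    ∑ c ∈ C z, (if c ∈ rcl G C tl X z u then (1 : ℤ) else 0) = (rcl G C tl X z u).card := by
  rw [← sum_filter, sum_const, nsmul_eq_mul, mul_one]
  congr 2
  ext c
  rw [mem_filter]
  exact ⟨fun h => h.2, fun h => ⟨rcl_sub h, h⟩⟩

/-- **(prod), (srv): the deficient columns of an item at two rows are complete to each other** -/
theorem Fam.icl_complete {A : Finset ι} {C H : ι → Finset V} {tl : V → ι} {x y z : ι}
    {U : Finset (Itm V)} (h : Fam F C H tl x U) (hW : WSysT G F A C H tl) (hx : x ∈ A)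
    (hy : y ∈ A) (hz : z ∈ A) (hyz : y ≠ z) {u : Itm V} (hu : u ∈ U) :
    ∀ c ∈ icl G C tl y u, ∀ d ∈ icl G C tl z u, G.Adj c d := by
  rcases u with Q | e
  · intro c hc d hd
    unfold icl at hc hd
    simp only [rcl] at hc hd
    split_ifs at hc with h1
    · exact absurd hc (notMem_empty _)
    split_ifs at hd with h2
    · exact absurd hd (notMem_empty _)
    obtain ⟨hc1, ⟨v, hv, hvy, hcv⟩, hc3⟩ := mem_filter.1 hc
    obtain ⟨hd1, ⟨w, hw, hwz, hdw⟩, hd3⟩ := mem_filter.1 hd
    exact hW.toWSys.clique_def hx (hvy ▸ hW.tlA x hx v (h.sub Q hu hv))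
      (hwz ▸ hW.tlA x hx w (h.sub Q hu hw)) hyz (h.sub Q hu) (h.clq Q hu) hc1 hd1
      ⟨v, hv, hvy, hcv⟩ (fun a ha hay => hc3 a (mem_oth.2 ⟨ha, hay⟩))
      ⟨w, hw, hwz, hdw⟩ (fun a ha haz => hd3 a (mem_oth.2 ⟨ha, haz⟩))
  · intro c hc
    unfold icl at hc
    simp only [rcl] at hc
    exact absurd hc (notMem_empty _)

end Itm

section ItmC

variable {V : Type*} {G : SimpleGraph V} {Z T : Finset V} {hm : V → V} {r m t : ℕ}
  {A : Finset V} {S : V → Finset V} {U : V → Finset (Itm V)}

/-- the whole frame -/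
theorem CSys.wsysT (hF : PFrame G r m t Z T) (hh : Homes G Z T hm) (h : CSys G Z T hm T S)
    (hctr : ∀ y ∈ T, y ∈ S y) :
    WSysT G (co G) T (CP G Z T S) (HP G Z T S) (tlo G T hm) := by
  have ht : ∀ x ∈ T, ∀ v ∈ HP G Z T S x, tlo G T hm v ∈ T.erase x := by
    intro x hx v hv
    have hvP := h.HP_Ph hx hv
    obtain ⟨-, y, hy, he⟩ := Ph_tail hh hvP
    have h1 : tlo G T hm v = y := tlo_eq he (mem_Ph.1 hvP).2 (ne_of_mem_erase hy).symm
    rw [h1]
    exact hy
  refine { toWSys := h.wsys hF hh hctr, tlA := ht, same := ?_ }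
  intro x hx p hp q hq hpq htl c hc
  by_contra hcon
  push Not at hcon
  have hz := ht x hx p hp
  have e1 := (h.ends_of_tlo hh hx hp rfl).2
  have e2 := (h.ends_of_tlo hh hx hq (z := tlo G T hm p) htl.symm).2
  have hxz : x ≠ tlo G T hm p := (ne_of_mem_erase hz).symm
  have hp1 := (mem_Ph.1 (h.HP_Ph hx hp)).1
  have hq1 := (mem_Ph.1 (h.HP_Ph hx hq)).1
  exact (co_adj.1 hpq).2 (hF.adj_of_common hxz hx (mem_of_mem_erase hz) hp1 hq1
    (by rw [e1]; simp) (by rw [e1]; simp) (by rw [e2]; simp) (by rw [e2]; simp)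
    (co_adj.1 hpq).1 (mem_CP.1 hc).2 (fun h1 => hcon.1 h1.symm) (fun h1 => hcon.2 h1.symm))

/-- **the misses of an item have sum at most `R`** -/
theorem Fam.sum_ims_le (hF : PFrame G r m t Z T) (hC : CSys G Z T hm A S)
    (hom : ∀ K : Finset V, K ⊆ Z → Clq G K → K.card ≤ r - 1)
    (hW : WSysT G (co G) A (CP G Z T S) (HP G Z T S) (tlo G T hm)) {x : V} (hx : x ∈ A)
    {U : Finset (Itm V)} (h : Fam (co G) (CP G Z T S) (HP G Z T S) (tlo G T hm) x U)
    {u : Itm V} (hu : u ∈ U) :
    ∑ z ∈ A, ims G (CP G Z T S) (tlo G T hm) z u ≤ r - 1 :=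
  hC.clq_sum_le hF hom (Y := A) subset_rfl
    (D := fun z => icl G (CP G Z T S) (tlo G T hm) z u) (fun _ _ => rcl_sub)
    fun _ hy _ hz hyz => h.icl_complete hW hx hy hz hyz hu

/-- **(prod)** -/
theorem Fam.prod (hF : PFrame G r m t Z T) (hP : PG G r) (hC : CSys G Z T hm A S)
    (hW : WSysT G (co G) A (CP G Z T S) (HP G Z T S) (tlo G T hm)) {x : V} (hx : x ∈ A)
    {U : Finset (Itm V)} (h : Fam (co G) (CP G Z T S) (HP G Z T S) (tlo G T hm) x U)
    {u : Itm V} (hu : u ∈ U) {y z : V} (hy : y ∈ A) (hz : z ∈ A) (hyz : y ≠ z) :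
    (ims G (CP G Z T S) (tlo G T hm) y u : ℤ) * ims G (CP G Z T S) (tlo G T hm) z u
      ≤ (r : ℤ) - 1 + ((r : ℤ) - 1 - (CP G Z T S y).card)
        * ((r : ℤ) - 1 - (CP G Z T S z).card) :=
  hC.rect_le hF hP hy hz hyz rcl_sub rcl_sub (h.icl_complete hW hx hy hz hyz hu)

/-- **(srv): every item is served** -/
theorem Fam.srv (hF : PFrame G r m t Z T) (hC : CSys G Z T hm A S)
    (hom : ∀ K : Finset V, K ⊆ Z → Clq G K → K.card ≤ r - 1)
    (hW : WSysT G (co G) A (CP G Z T S) (HP G Z T S) (tlo G T hm)) {x : V} (hx : x ∈ A)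
    {U : Finset (Itm V)} (h : Fam (co G) (CP G Z T S) (HP G Z T S) (tlo G T hm) x U)
    {u : Itm V} (hu : u ∈ U) :
    (r - 1) * ivl u + ∑ z ∈ A, ims G (CP G Z T S) (tlo G T hm) z u
      ≤ (r - 1) * ∑ z ∈ A, ikp (tlo G T hm) z u := by
  have hcl : ∀ z ∈ A, (CP G Z T S z).card ≤ r - 1 := fun z hz =>
    hom _ (fun v hv => (mem_Cl.1 (mem_CP.1 hv).2).1) fun a ha b hb hab =>
      hC.CP_clq hF hz a ha b hb hab
  have hnn : ∀ z ∈ A, ims G (CP G Z T S) (tlo G T hm) z u ≤ (r - 1) * ikp (tlo G T hm) z u := by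
    intro z hz
    have h1 : ims G (CP G Z T S) (tlo G T hm) z u
        ≤ ikp (tlo G T hm) z u * (CP G Z T S z).card :=
      rcl_card_le (G := G) (C := CP G Z T S) (tl := tlo G T hm) (X := oth (tlo G T hm) z)
        (z := z) (u := u)
    refine h1.trans ?_
    rw [mul_comm]
    exact Nat.mul_le_mul_right _ (hcl z hz)
  have hone : ∀ y ∈ A, ivl u ≤ ikp (tlo G T hm) y u →
      ims G (CP G Z T S) (tlo G T hm) y u = 0 →
      (r - 1) * ivl u + ∑ z ∈ A, ims G (CP G Z T S) (tlo G T hm) z u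
        ≤ (r - 1) * ∑ z ∈ A, ikp (tlo G T hm) z u := by
    intro y hy h1 h2
    rw [mul_sum, ← sum_erase_add A _ hy, ← sum_erase_add A _ hy, h2, add_zero]
    have h3 := sum_le_sum fun z (hz : z ∈ A.erase y) => hnn z (mem_of_mem_erase hz)
    have h4 := Nat.mul_le_mul_left (r - 1) h1
    omega
  rcases u with Q | e
  · have h2 := h.two Q hu
    by_cases hex : ∃ y ∈ A, tlp (tlo G T hm) Q y = Q
    · obtain ⟨y, hy, hyQ⟩ := hex
      refine hone y hy ?_ ?_
      · simp only [ivl, ikp, hyQ, if_true]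
        exact le_rfl
      · unfold ims icl
        simp only [rcl, hyQ, if_true, card_empty]
    · have h3 : ∑ z ∈ A, ikp (tlo G T hm) z (Sum.inl Q) = Q.card := by
        have h4 : ∀ z ∈ A, ikp (tlo G T hm) z (Sum.inl Q) = (tlp (tlo G T hm) Q z).card := by
          intro z hz
          have : tlp (tlo G T hm) Q z ≠ Q := fun h5 => hex ⟨z, hz, h5⟩
          simp only [ikp, this, if_false]
        rw [sum_congr rfl h4]
        exact (card_eq_sum_card_fiberwise fun v hv =>
          mem_of_mem_erase (hW.tlA x hx v (h.sub Q hu hv))).symm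
      rw [h3]
      have h4 := h.sum_ims_le hF hC hom hW hx hu
      have h5 : ivl (Sum.inl Q : Itm V) + 1 = Q.card := by
        simp only [ivl]
        omega
      rw [← h5, Nat.mul_add, Nat.mul_one]
      omega
  · have h1 := hW.tlA x hx e.1 (h.pcH e hu)
    refine hone _ (mem_of_mem_erase h1) ?_ ?_
    · simp only [ivl, ikp, if_true]
      exact le_rfl
    · unfold ims icl
      simp only [rcl, card_empty]

/-- all points of an item -/
lemma rpts_oth {ι : Type*} {tl : V → ι} {z : ι} (u : Itm V) :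
    rpts tl (oth tl z) z u = ipts u := by
  rcases u with Q | e
  · simp only [rpts, ipts, oth]
    exact union_sdiff_of_subset tlp_sub
  · rfl

/-- **(pair): all hits of two hosts at each other's rows** -/
theorem Fam.pair (hW : WSysT G (co G) A (CP G Z T S) (HP G Z T S) (tlo G T hm))
    (h : ∀ x ∈ A, Fam (co G) (CP G Z T S) (HP G Z T S) (tlo G T hm) x (U x))
    {x z : V} (hx : x ∈ A) (hz : z ∈ A) (hxz : x ≠ z) :
    ∑ u ∈ U x, iht G (CP G Z T S) (tlo G T hm) z u
      + ∑ u ∈ U z, iht G (CP G Z T S) (tlo G T hm) x u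
      ≤ ∑ v ∈ S z, (dg G (S x) v : ℤ) := by
  have key : ∀ x ∈ A, ∀ z ∈ A,
      (U x).toLeft.biUnion id ⊆ HP G Z T S x ∧
      Dst ((U x).toRight.filter fun e => tlo G T hm e.1 = z) Prod.fst Prod.snd ∧
      (∀ e ∈ (U x).toRight.filter (fun e => tlo G T hm e.1 = z),
        e.1 ∉ (U x).toLeft.biUnion id) ∧
      ∑ u ∈ U x, iht G (CP G Z T S) (tlo G T hm) z u
        ≤ ∑ c ∈ CP G Z T S z, (dg G ((U x).toLeft.biUnion id) c : ℤ)
          + ∑ e ∈ (U x).toRight.filter (fun e => tlo G T hm e.1 = z),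
            (((CP G Z T S z).card : ℤ) - (rst G (CP G Z T S z) e.1 e.2).card) := by
    intro x hx z hz
    have hf := h x hx
    refine ⟨?_, ⟨?_, ?_, ?_⟩, ?_, ?_⟩
    · intro v hv
      obtain ⟨Q, hQ, hvQ⟩ := mem_biUnion.1 hv
      exact hf.sub Q (mem_toLeft.1 hQ) hvQ
    · intro e he f hf' hef
      have he1 := mem_toRight.1 (mem_filter.1 (by exact_mod_cast he :
        e ∈ (U x).toRight.filter _)).1
      have hf1 := mem_toRight.1 (mem_filter.1 (by exact_mod_cast hf' :
        f ∈ (U x).toRight.filter _)).1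
      by_contra hne
      have h1 : e.1 ∈ imem (Sum.inr e : Itm V) := by simp [imem]
      have h2 : e.1 ∈ imem (Sum.inr f : Itm V) := by
        simp only [imem, mem_singleton]
        exact hef
      exact disjoint_left.1 (hf.dis _ he1 _ hf1 fun h1 => hne (Sum.inr_injective h1)) h1 h2
    · intro e he f hf' hef
      obtain ⟨he1, he2⟩ := mem_filter.1 (by exact_mod_cast he : e ∈ (U x).toRight.filter _)
      obtain ⟨hf1, hf2⟩ := mem_filter.1 (by exact_mod_cast hf' : f ∈ (U x).toRight.filter _)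
      by_contra hne
      exact hf.cop e (mem_toRight.1 he1) f (mem_toRight.1 hf1) hef hne (he2.trans hf2.symm)
    · intro e he f hf' hef
      have he1 := mem_toRight.1 (mem_filter.1 he).1
      have hf1 := mem_toRight.1 (mem_filter.1 hf').1
      exact disjoint_left.1 (hW.dHC x hx x hx) (hf.pcH e he1) (hef ▸ hf.pcC f hf1)
    · intro e he he'
      have he1 := mem_toRight.1 (mem_filter.1 he).1
      obtain ⟨Q, hQ, hvQ⟩ := mem_biUnion.1 he'
      exact disjoint_left.1 (hf.dis _ (mem_toLeft.1 hQ) _ he1 (by simp)) hvQ (by simp [imem])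
    · have hsp : ∑ u ∈ U x, iht G (CP G Z T S) (tlo G T hm) z u
          = ∑ Q ∈ (U x).toLeft, iht G (CP G Z T S) (tlo G T hm) z (Sum.inl Q)
            + ∑ e ∈ (U x).toRight, iht G (CP G Z T S) (tlo G T hm) z (Sum.inr e) := by
        rw [← sum_disjSum, toLeft_disjSum_toRight]
      rw [hsp]
      refine add_le_add ?_ ?_
      · have h1 : ∀ c ∈ CP G Z T S z, ∑ Q ∈ (U x).toLeft,
            ((ikp (tlo G T hm) z (Sum.inl Q) : ℤ)
              - if c ∈ icl G (CP G Z T S) (tlo G T hm) z (Sum.inl Q) then 1 else 0)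
            ≤ (dg G ((U x).toLeft.biUnion id) c : ℤ) := by
          intro c hc
          have h2 : dg G ((U x).toLeft.biUnion id) c = ∑ Q ∈ (U x).toLeft, dg G Q c := by
            unfold dg
            rw [filter_biUnion, card_biUnion]
            · rfl
            · intro Q hQ Q' hQ' hne
              exact disjoint_filter_filter (hf.dis _ (mem_toLeft.1 hQ) _ (mem_toLeft.1 hQ')
                fun h3 => hne (Sum.inl_injective h3))
          rw [h2]
          push_cast
          refine sum_le_sum fun Q hQ => ?_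
          have h3 := hf.see hW hx (z := z) (X := oth (tlo G T hm) z) (fun _ => subset_rfl)
            (mem_toLeft.1 hQ) hc
          rw [rpts_oth] at h3
          have h4 : icl G (CP G Z T S) (tlo G T hm) z (Sum.inl Q)
            = rcl G (CP G Z T S) (tlo G T hm) (oth (tlo G T hm) z) z (Sum.inl Q) := rfl
          rw [h4]
          simp only [ipts] at h3
          linarith
        refine le_trans (le_of_eq ?_) (sum_le_sum h1)
        rw [sum_comm]
        refine sum_congr rfl fun Q _ => ?_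
        rw [sum_sub_distrib, sum_const, nsmul_eq_mul]
        unfold icl
        rw [sum_rcl]
        rfl
      · rw [sum_filter]
        refine sum_le_sum fun e he => ?_
        have he1 := mem_toRight.1 he
        by_cases h1 : tlo G T hm e.1 = z
        · have h2 : rst G (CP G Z T S z) e.1 e.2 = ∅ := by
            unfold rst
            rw [filter_eq_empty_iff]
            intro c hc h3
            rcases (hW.pc x hx e.1 (hf.pcH e he1) e.2 (hf.pcC e he1) (hf.pcF e he1)).2 c
              (h1 ▸ hc) with h4 | h4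
            · exact h3.1 h4
            · exact h3.2 h4
          simp only [h1, if_true, h2, card_empty, Nat.cast_zero, sub_zero]
          unfold iht ims icl
          simp only [ikp, rcl, h1, if_true, card_empty, Nat.cast_zero, sub_zero, Nat.cast_one,
            mul_one]
          exact le_refl _
        · simp only [h1, if_false]
          rw [iht_zero (by simp only [ikp, h1, if_false])]
  obtain ⟨k1, k2, k3, k4⟩ := key x hx z hz
  obtain ⟨l1, l2, l3, l4⟩ := key z hz x hx
  have hq : ∀ x ∈ A, ∀ z ∈ A, ∀ e ∈ (U x).toRight.filter (fun e => tlo G T hm e.1 = z),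
      e.2 ∈ CP G Z T S x ∧ (co G).Adj e.1 e.2 ∧ tlo G T hm e.1 = z := fun x hx z hz e he =>
    ⟨(h x hx).pcC e (mem_toRight.1 (mem_filter.1 he).1),
      (h x hx).pcF e (mem_toRight.1 (mem_filter.1 he).1), (mem_filter.1 he).2⟩
  have h1 := hW.toWSys.pair_gen hx hz hxz k1 l1 k2 l2
    (fun e he => (h x hx).pcH e (mem_toRight.1 (mem_filter.1 he).1))
    (fun e he => (h z hz).pcH e (mem_toRight.1 (mem_filter.1 he).1)) k3 l3
    (hq x hx z hz) (hq z hz x hx)
  rw [sum_dg_slots (G := G) (Z := Z) (T := T) (S := S) x z]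
  rw [card_eds_eq, card_eds_eq, card_eds_eq, card_eds_eq] at h1
  have h2 : ∑ v ∈ CP G Z T S x, (dg G (CP G Z T S z) v : ℤ)
      = ∑ v ∈ CP G Z T S z, (dg G (CP G Z T S x) v : ℤ) := by
    have := dg_comm G (CP G Z T S z) (CP G Z T S x)
    exact_mod_cast this.symm
  have h3 : ∑ v ∈ HP G Z T S x, (dg G (HP G Z T S z) v : ℤ)
      = ∑ v ∈ HP G Z T S z, (dg G (HP G Z T S x) v : ℤ) := by
    have := dg_comm G (HP G Z T S z) (HP G Z T S x)
    exact_mod_cast this.symm
  rw [h2, h3] at h1
  linarith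

/-- the sum over the groups of one row -/
lemma sum_iht_filter (K : Finset (Itm V)) {ι : Type*} {C : ι → Finset V} {tl : V → ι} {z : ι} :
    ∑ u ∈ K, iht G C tl z u = ∑ u ∈ K.filter (fun u => ikp tl z u ≠ 0),
      (((C z).card : ℤ) * (ikp tl z u : ℤ)
        - ∑ c ∈ C z, if c ∈ rcl G C tl (oth tl z) z u then (1 : ℤ) else 0) := by
  rw [sum_filter]
  refine sum_congr rfl fun u _ => ?_
  by_cases h1 : ikp tl z u = 0
  · rw [iht_zero h1]
    simp [h1]
  · simp only [ne_eq, h1, not_false_iff, if_true]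
    rw [sum_rcl]
    rfl

/-- points of the items of other hosts are outside the slots of `B` -/
lemma Fam.disj_pts (hC : CSys G Z T hm A S)
    (h : ∀ x ∈ A, Fam (co G) (CP G Z T S) (HP G Z T S) (tlo G T hm) x (U x))
    {B : Finset V} (hB : B ⊆ A) {K : Finset (Itm V)} (hK : K ⊆ (A \ B).biUnion U)
    {x : V} (hx : x ∈ B) : Disjoint (S x) (K.biUnion ipts) := by
  rw [disjoint_biUnion_right]
  intro u hu
  obtain ⟨y, hy, huy⟩ := mem_biUnion.1 (hK hu)
  obtain ⟨hyA, hyB⟩ := mem_sdiff.1 hy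
  have hxy : x ≠ y := fun hxy => hyB (hxy ▸ hx)
  refine Disjoint.mono_right ((h y hyA).ipts_sub huy) ?_
  refine (hC.disj (hB hx) hyA hxy).mono_right ?_
  rw [union_comm, CP_union_HP]

/-- **(tst): the tests with items outside `B`** -/
theorem Fam.tst (hP : PG G r) (hC : CSys G Z T hm A S)
    (hW : WSysT G (co G) A (CP G Z T S) (HP G Z T S) (tlo G T hm))
    (h : ∀ x ∈ A, Fam (co G) (CP G Z T S) (HP G Z T S) (tlo G T hm) x (U x))
    {B : Finset V} (hB : B ⊆ A) {K : Finset (Itm V)} (hK : K ⊆ (A \ B).biUnion U)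
    (h0 : 0 ≤ (B.card : ℤ) + ∑ x ∈ B, (((S x).card : ℤ) - r) + ∑ u ∈ K, (ivl u : ℤ)) :
    2 * ((r : ℤ) - B.card) * ∑ x ∈ B, (((S x).card : ℤ) - r)
      + ∑ x ∈ B, ∑ y ∈ B.erase x, ∑ v ∈ S y, (dg G (S x) v : ℤ)
      + ∑ x ∈ B, (((S x).card : ℤ) - r) ^ 2
      + 2 * ∑ u ∈ K, ∑ z ∈ B, iht G (CP G Z T S) (tlo G T hm) z u
      ≤ ∑ x ∈ B, (NE G (S x) : ℤ) + B.card * (B.card - 1) * r
        + (∑ x ∈ B, (((S x).card : ℤ) - r)) ^ 2
        + 4 * (∑ u ∈ K, (ivl u : ℤ)) * (B.card + ∑ x ∈ B, (((S x).card : ℤ) - r))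
        + 2 * (∑ u ∈ K, (ivl u : ℤ)) * (2 * (∑ u ∈ K, (ivl u : ℤ)) - 1) := by
  have hsub : K ⊆ (A \ B).biUnion U := hK
  have h1 := hC.tst_grp hP hB (W := K.biUnion ipts) (fun x hx => Fam.disj_pts hC h hB hK hx)
    (I := fun z => K.filter fun u => ikp (tlo G T hm) z u ≠ 0)
    (P := fun z => rpts (tlo G T hm) (oth (tlo G T hm) z) z)
    (k := fun z u => (ikp (tlo G T hm) z u : ℤ))
    (df := fun z u c => if c ∈ rcl G (CP G Z T S) (tlo G T hm) (oth (tlo G T hm) z) z u
      then 1 else 0)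
    (fun z _ => Fam.grp hW h (D := A \ B) sdiff_subset hK fun _ => subset_rfl)
    (fun z _ => by
      refine biUnion_subset.2 fun u hu => ?_
      rw [rpts_oth]
      exact subset_biUnion_of_mem ipts (mem_filter.1 hu).1)
  simp only [← sum_iht_filter] at h1
  rw [sum_comm (s := B) (t := K)] at h1
  have h2 := NE_le_self (G := G) (K.biUnion ipts)
  have h3 : (K.biUnion ipts).card ≤ ∑ u ∈ K, 2 * ivl u := by
    refine card_biUnion_le.trans (sum_le_sum fun u hu => ?_)
    obtain ⟨x, hx, hux⟩ := mem_biUnion.1 (hK hu)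
    exact (h x (mem_sdiff.1 hx).1).card_ipts hux
  have h4 : ((K.biUnion ipts).card : ℤ) ≤ 2 * ∑ u ∈ K, (ivl u : ℤ) := by
    rw [mul_sum]
    exact_mod_cast h3
  set w : ℤ := ((K.biUnion ipts).card : ℤ) with hw
  set v : ℤ := ∑ u ∈ K, (ivl u : ℤ) with hv
  set σ : ℤ := ∑ x ∈ B, (((S x).card : ℤ) - r) with hσ
  have h5 : 0 ≤ (2 * v - w) * (2 * ((B.card : ℤ) + σ) + 2 * v + w - 1) := by
    rcases K.eq_empty_or_nonempty with hK0 | hK0
    · have e1 : w = 0 := by
        rw [hw, hK0]
        simp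
      have e2 : v = 0 := by
        rw [hv, hK0]
        simp
      rw [e1, e2]
      simp
    · have e1 : 1 ≤ w := by
        obtain ⟨u, hu⟩ := hK0
        obtain ⟨x, hx, hux⟩ := mem_biUnion.1 (hK hu)
        have e3 := (h x (mem_sdiff.1 hx).1).imem_ne hux
        have e4 : (K.biUnion ipts).Nonempty := by
          obtain ⟨a, ha⟩ := e3
          refine ⟨a, mem_biUnion.2 ⟨u, hu, ?_⟩⟩
          rcases u with Q | e
          · exact ha
          · simp only [imem, mem_singleton] at ha
            rw [ha]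
            exact mem_insert_self _ _
        have : 0 < (K.biUnion ipts).card := card_pos.2 e4
        rw [hw]
        exact_mod_cast this
      exact mul_nonneg (by linarith) (by linarith)
  nlinarith

/-- **(row), general form**: at the row `z` the points `X Q` are used outside the tail points of `Q` -/
theorem Fam.row (hP : PG G r) (hC : CSys G Z T hm A S)
    (hW : WSysT G (co G) A (CP G Z T S) (HP G Z T S) (tlo G T hm))
    (h : ∀ x ∈ A, Fam (co G) (CP G Z T S) (HP G Z T S) (tlo G T hm) x (U x))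
    {z : V} (hz : z ∈ A) {K : Finset (Itm V)} (hK : K ⊆ (A.erase z).biUnion U)
    (hk : ∀ u ∈ K, ikp (tlo G T hm) z u ≠ 0)
    {X : Finset V → Finset V} (hX : ∀ Q, X Q ⊆ oth (tlo G T hm) z Q) :
    2 * ((r : ℤ) - 1) * (((S z).card : ℤ) - r)
      + 2 * ∑ u ∈ K, (((CP G Z T S z).card : ℤ) * ikp (tlo G T hm) z u
          - (rcl G (CP G Z T S) (tlo G T hm) X z u).card)
      ≤ NE G (S z) + 2 * (∑ u ∈ K, ((rpts (tlo G T hm) X z u).card : ℤ))
          * (((S z).card : ℤ) - r + 1)
        + (∑ u ∈ K, ((rpts (tlo G T hm) X z u).card : ℤ))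
          * ((∑ u ∈ K, ((rpts (tlo G T hm) X z u).card : ℤ)) - 1) := by
  have hK' : K ⊆ (A \ {z}).biUnion U := by
    rwa [sdiff_singleton_eq_erase]
  have hfil : (K.filter fun u => ikp (tlo G T hm) z u ≠ 0) = K := filter_true_of_mem hk
  have hg := Fam.grp hW h (D := A.erase z) (erase_subset _ _) hK (z := z) hX
  rw [hfil] at hg
  have hsb : ({z} : Finset V) ⊆ A := by
    simpa using hz
  have h1 := hC.tst_grp hP (B := {z}) hsb
    (W := K.biUnion (rpts (tlo G T hm) X z)) (fun x hx => by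
      have h2 := Fam.disj_pts hC h hsb hK' hx
      refine h2.mono_right (biUnion_mono fun u hu => ?_)
      obtain ⟨y, hy, huy⟩ := mem_biUnion.1 (hK hu)
      exact (h y (mem_of_mem_erase hy)).rpts_sub hX)
    (I := fun _ => K) (P := fun _ => rpts (tlo G T hm) X z)
    (k := fun _ u => (ikp (tlo G T hm) z u : ℤ))
    (df := fun _ u c => if c ∈ rcl G (CP G Z T S) (tlo G T hm) X z u then 1 else 0)
    (fun x hx => by
      rw [mem_singleton.1 hx]
      exact hg) (fun x _ => subset_rfl)
  have h2 := NE_le_self (G := G) (K.biUnion (rpts (tlo G T hm) X z))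
  have h3 : (K.biUnion (rpts (tlo G T hm) X z)).card
      = ∑ u ∈ K, (rpts (tlo G T hm) X z u).card := card_biUnion hg.dis
  have h4 : ((K.biUnion (rpts (tlo G T hm) X z)).card : ℤ)
      = ∑ u ∈ K, ((rpts (tlo G T hm) X z u).card : ℤ) := by
    rw [h3]
    push_cast
    rfl
  rw [h4] at h1 h2
  simp only [sum_singleton, card_singleton, erase_singleton, sum_empty, Nat.cast_one, sub_self,
    mul_zero, zero_mul, add_zero, sum_rcl] at h1
  linarith

/-- **(row) with all points** -/
theorem Fam.row_all (hP : PG G r) (hC : CSys G Z T hm A S)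
    (hW : WSysT G (co G) A (CP G Z T S) (HP G Z T S) (tlo G T hm))
    (h : ∀ x ∈ A, Fam (co G) (CP G Z T S) (HP G Z T S) (tlo G T hm) x (U x))
    {z : V} (hz : z ∈ A) {K : Finset (Itm V)} (hK : K ⊆ (A.erase z).biUnion U)
    (hk : ∀ u ∈ K, ikp (tlo G T hm) z u ≠ 0) :
    2 * ((r : ℤ) - 1) * (((S z).card : ℤ) - r)
      + 2 * ∑ u ∈ K, iht G (CP G Z T S) (tlo G T hm) z u
      ≤ NE G (S z) + 2 * (∑ u ∈ K, ((ipts u).card : ℤ)) * (((S z).card : ℤ) - r + 1)
        + (∑ u ∈ K, ((ipts u).card : ℤ)) * ((∑ u ∈ K, ((ipts u).card : ℤ)) - 1) := by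
  have h1 := Fam.row hP hC hW h hz hK hk (X := oth (tlo G T hm) z) fun _ => subset_rfl
  simp only [rpts_oth] at h1
  exact h1

/-- **(row) with one point outside per clique**: at most `2 kp` points -/
theorem Fam.row_one (hP : PG G r) (hC : CSys G Z T hm A S)
    (hW : WSysT G (co G) A (CP G Z T S) (HP G Z T S) (tlo G T hm))
    (h : ∀ x ∈ A, Fam (co G) (CP G Z T S) (HP G Z T S) (tlo G T hm) x (U x))
    {z : V} (hz : z ∈ A) {K : Finset (Itm V)} (hK : K ⊆ (A.erase z).biUnion U)
    (hk : ∀ u ∈ K, ikp (tlo G T hm) z u ≠ 0)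
    {X : Finset V → Finset V} (hX : ∀ Q, X Q ⊆ oth (tlo G T hm) z Q) (hX1 : ∀ Q, (X Q).card ≤ 1)
    (h0 : 0 ≤ ((S z).card : ℤ) - r + 1 + ∑ u ∈ K, (ikp (tlo G T hm) z u : ℤ)) :
    2 * ((r : ℤ) - 1) * (((S z).card : ℤ) - r)
      + 2 * ∑ u ∈ K, (((CP G Z T S z).card : ℤ) * ikp (tlo G T hm) z u
          - (rcl G (CP G Z T S) (tlo G T hm) X z u).card)
      ≤ NE G (S z) + 4 * (∑ u ∈ K, (ikp (tlo G T hm) z u : ℤ)) * (((S z).card : ℤ) - r + 1)
        + 2 * (∑ u ∈ K, (ikp (tlo G T hm) z u : ℤ))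
          * (2 * (∑ u ∈ K, (ikp (tlo G T hm) z u : ℤ)) - 1) := by
  have h1 := Fam.row hP hC hW h hz hK hk hX
  have h2 : ∀ u ∈ K, 1 ≤ (rpts (tlo G T hm) X z u).card ∧
      (rpts (tlo G T hm) X z u).card ≤ 2 * ikp (tlo G T hm) z u := by
    intro u hu
    obtain ⟨y, hy, huy⟩ := mem_biUnion.1 (hK hu)
    have hf := h y (mem_of_mem_erase hy)
    have hku := hk u hu
    rcases u with Q | e
    · have h2 := hf.two Q huy
      have h3 : (rpts (tlo G T hm) X z (Sum.inl Q)).card
          ≤ (tlp (tlo G T hm) Q z).card + (X Q).card := card_union_le _ _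
      have h4 : (tlp (tlo G T hm) Q z).card ≤ (rpts (tlo G T hm) X z (Sum.inl Q)).card :=
        card_le_card subset_union_left
      have h5 := hX1 Q
      by_cases hone : tlp (tlo G T hm) Q z = Q
      · have h6 : X Q = ∅ := by
          have h7 : oth (tlo G T hm) z Q = ∅ := by
            unfold oth
            rw [hone, sdiff_self]
            rfl
          have := hX Q
          rw [h7] at this
          exact subset_empty.1 this
        have h7 : ikp (tlo G T hm) z (Sum.inl Q) = Q.card - 1 := by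
          simp only [ikp, hone, if_true]
        rw [h7]
        rw [h6, card_empty, hone] at h3
        rw [hone] at h4
        omega
      · have h7 : ikp (tlo G T hm) z (Sum.inl Q) = (tlp (tlo G T hm) Q z).card := by
          simp only [ikp, hone, if_false]
        rw [h7] at hku ⊢
        omega
    · have h3 : ikp (tlo G T hm) z (Sum.inr e) = 1 := by
        by_cases h4 : tlo G T hm e.1 = z
        · simp only [ikp, h4, if_true]
        · exact absurd (by simp only [ikp, h4, if_false]) hku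
      rw [h3]
      simp only [rpts]
      exact ⟨card_pos.2 ⟨e.1, mem_insert_self _ _⟩, card_le_two⟩
  have h3 : (∑ u ∈ K, ((rpts (tlo G T hm) X z u).card : ℤ))
      ≤ 2 * ∑ u ∈ K, (ikp (tlo G T hm) z u : ℤ) := by
    rw [mul_sum]
    exact sum_le_sum fun u hu => by exact_mod_cast (h2 u hu).2
  have h4 : (K.card : ℤ) ≤ ∑ u ∈ K, ((rpts (tlo G T hm) X z u).card : ℤ) := by
    rw [card_eq_sum_ones]
    push_cast
    exact sum_le_sum fun u hu => by exact_mod_cast (h2 u hu).1
  set w : ℤ := ∑ u ∈ K, ((rpts (tlo G T hm) X z u).card : ℤ) with hw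
  set v : ℤ := ∑ u ∈ K, (ikp (tlo G T hm) z u : ℤ) with hv
  have h5 : 0 ≤ (2 * v - w) * (2 * (((S z).card : ℤ) - r + 1) + 2 * v + w - 1) := by
    rcases K.eq_empty_or_nonempty with hK0 | hK0
    · have e1 : w = 0 := by
        rw [hw, hK0]
        simp
      have e2 : v = 0 := by
        rw [hv, hK0]
        simp
      rw [e1, e2]
      simp
    · have e1 : (1 : ℤ) ≤ K.card := by exact_mod_cast card_pos.2 hK0
      exact mul_nonneg (by linarith) (by linarith)
  nlinarith

end ItmC

end Pool.Agent.Lib.MP_f04ccf_co
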