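import Pool.Agent.Lib.MP_f04ccf_co.M.Back

/-!
MP_f04ccf_co: there is no mutual loss in the load part of (P) for two rows.  `H`, `H'` are the guests
of the rows `C`, `C'`; `Γ` are missing pairs of `H ∪ C` served by `C'`, `Γ'` missing pairs of `H' ∪ C'`
served by `C`; two vertices of `H`, `H'` with pairs to `C`, `C'` which miss a common point of `C` are
adjacent.  Then the edges between `H ∪ C` and `H' ∪ C'` pay for both cover numbers.
-/

set_option autoImplicit false

namespace Pool.Agent.Lib.MP_f04ccf_co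

open Finset

attribute [local instance] Classical.propDecidable

section Mut

variable {V : Type*} {G Γ Γ' : SimpleGraph V}

/-- Hall's theorem on finite sets -/
lemma hall_finset (S : Finset V) (N : V → Finset V)
    (h : ∀ S' : Finset V, S' ⊆ S → S'.card ≤ (S'.biUnion N).card) :
    ∃ m : V → V, Set.InjOn m S ∧ ∀ w ∈ S, m w ∈ N w := by
  have h1 := (Finset.all_card_le_biUnion_card_iff_exists_injective
    (fun w : {w // w ∈ S} => N w.1)).1 (by
      intro s
      have h2 := h (s.map (Function.Embedding.subtype _)) (by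
        intro x hx
        obtain ⟨y, _, rfl⟩ := mem_map.1 hx
        exact y.2)
      rw [card_map] at h2
      refine h2.trans (card_le_card ?_)
      intro x hx
      obtain ⟨w, hw, hxw⟩ := mem_biUnion.1 hx
      obtain ⟨y, hy, rfl⟩ := mem_map.1 hw
      exact mem_biUnion.2 ⟨y, hy, hxw⟩)
  obtain ⟨f, hf, hf2⟩ := h1
  refine ⟨fun w => if hw : w ∈ S then f ⟨w, hw⟩ else w, ?_, ?_⟩
  · intro a ha b hb hab
    rw [mem_coe] at ha hb
    simp only [dif_pos ha, dif_pos hb] at hab
    exact congrArg Subtype.val (hf hab)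
  · intro w hw
    simp only [dif_pos hw]
    exact hf2 ⟨w, hw⟩

/-- Koenig's theorem for the `Γ`-edges between `W` and `X` -/
lemma konig (Γ : SimpleGraph V) (W X : Finset V) :
    ∃ K ⊆ W, ∃ L ⊆ X, (∀ w ∈ W, ∀ a ∈ X, Γ.Adj w a → w ∈ K ∨ a ∈ L) ∧
      (∃ m : V → V, Set.InjOn m K ∧ ∀ w ∈ K, m w ∈ X \ L ∧ Γ.Adj w (m w)) ∧
      (∃ m : V → V, Set.InjOn m L ∧ ∀ a ∈ L, m a ∈ W \ K ∧ Γ.Adj (m a) a) := by
  set Cs := (W.powerset ×ˢ X.powerset).filter
    (fun p => ∀ w ∈ W, ∀ a ∈ X, Γ.Adj w a → w ∈ p.1 ∨ a ∈ p.2) with hCs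
  have hne : Cs.Nonempty := ⟨(W, X), mem_filter.2 ⟨mem_product.2
    ⟨mem_powerset.2 (Subset.refl _), mem_powerset.2 (Subset.refl _)⟩, fun w hw _ _ _ => Or.inl hw⟩⟩
  obtain ⟨⟨K, L⟩, hKL, hmin⟩ := exists_min_image Cs (fun p => p.1.card + p.2.card) hne
  obtain ⟨h1, hcov⟩ := mem_filter.1 hKL
  obtain ⟨h2, h3⟩ := mem_product.1 h1
  have hK : K ⊆ W := mem_powerset.1 h2
  have hL : L ⊆ X := mem_powerset.1 h3
  have hmin' : ∀ K' L' : Finset V, K' ⊆ W → L' ⊆ X →
      (∀ w ∈ W, ∀ a ∈ X, Γ.Adj w a → w ∈ K' ∨ a ∈ L') → K.card + L.card ≤ K'.card + L'.card :=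
    fun K' L' hK' hL' hc => hmin (K', L') (mem_filter.2 ⟨mem_product.2
      ⟨mem_powerset.2 hK', mem_powerset.2 hL'⟩, hc⟩)
  refine ⟨K, hK, L, hL, hcov, ?_, ?_⟩
  · obtain ⟨m, hm, hm2⟩ := hall_finset K (fun w => (X \ L).filter (fun a => Γ.Adj w a)) (by
      intro S hS
      by_contra hlt
      push Not at hlt
      set N := S.biUnion (fun w => (X \ L).filter (fun a => Γ.Adj w a)) with hN
      have h4 := hmin' (K \ S) (L ∪ N) (sdiff_subset.trans hK) (union_subset hL (by
        intro a ha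
        obtain ⟨w, _, ha2⟩ := mem_biUnion.1 ha
        exact (mem_sdiff.1 (mem_filter.1 ha2).1).1)) (by
        intro w hw a ha hwa
        by_cases haL : a ∈ L
        · exact Or.inr (mem_union_left _ haL)
        · have hwK : w ∈ K := (hcov w hw a ha hwa).resolve_right haL
          by_cases hwS : w ∈ S
          · exact Or.inr (mem_union_right _ (mem_biUnion.2
              ⟨w, hwS, mem_filter.2 ⟨mem_sdiff.2 ⟨ha, haL⟩, hwa⟩⟩))
          · exact Or.inl (mem_sdiff.2 ⟨hwK, hwS⟩))
      have h5 := card_sdiff_add_card_eq_card hS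
      have h6 := card_union_le L N
      omega)
    exact ⟨m, hm, fun w hw => ⟨(mem_filter.1 (hm2 w hw)).1, (mem_filter.1 (hm2 w hw)).2⟩⟩
  · obtain ⟨m, hm, hm2⟩ := hall_finset L (fun a => (W \ K).filter (fun w => Γ.Adj w a)) (by
      intro S hS
      by_contra hlt
      push Not at hlt
      set N := S.biUnion (fun a => (W \ K).filter (fun w => Γ.Adj w a)) with hN
      have h4 := hmin' (K ∪ N) (L \ S) (union_subset hK (by
        intro a ha
        obtain ⟨w, _, ha2⟩ := mem_biUnion.1 ha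
        exact (mem_sdiff.1 (mem_filter.1 ha2).1).1)) (sdiff_subset.trans hL) (by
        intro w hw a ha hwa
        by_cases hwK : w ∈ K
        · exact Or.inl (mem_union_left _ hwK)
        · have haL : a ∈ L := (hcov w hw a ha hwa).resolve_left hwK
          by_cases haS : a ∈ S
          · exact Or.inl (mem_union_right _ (mem_biUnion.2
              ⟨a, haS, mem_filter.2 ⟨mem_sdiff.2 ⟨hw, hwK⟩, hwa⟩⟩))
          · exact Or.inr (mem_sdiff.2 ⟨haL, haS⟩))
      have h5 := card_sdiff_add_card_eq_card hS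
      have h6 := card_union_le K N
      omega)
    exact ⟨m, hm, fun a ha => ⟨(mem_filter.1 (hm2 a ha)).1, (mem_filter.1 (hm2 a ha)).2⟩⟩

/-- **no mutual loss**: the edges between `H ∪ C` and `H' ∪ C'` are at least `τ |C'| + τ' |C|`.
The set `X0 ⊆ C` is matched into `H` by `Γ`; all edges of `C'` at the points of `C \ X0` are used only by
the direction `Γ'`. -/
theorem mutual_load {H C H' C' : Finset V}
    (hΓ : ∀ p ∈ C, ∀ q ∈ C, ¬ Γ.Adj p q) (hΓ' : ∀ p ∈ C', ∀ q ∈ C', ¬ Γ'.Adj p q)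
    (hS : SrvBy G Γ (H ∪ C) C') (hS' : SrvBy G Γ' (H' ∪ C') C)
    (hadj : ∀ w ∈ H, ∀ w' ∈ H', ∀ a ∈ C, Γ.Adj w a → ¬ G.Adj w' a → (∃ c ∈ C', Γ'.Adj w' c) →
      G.Adj w w') {τ τ' : ℕ}
    (hτ : ∀ K : Finset V, K ⊆ H ∪ C → CovN Γ (H ∪ C) K → τ ≤ K.card)
    (hτ' : ∀ K : Finset V, K ⊆ H' ∪ C' → CovN Γ' (H' ∪ C') K → τ' ≤ K.card) :
    τ * C'.card + τ' * C.card
      ≤ ∑ c ∈ C', dg G H c + ∑ a ∈ C, dg G H' a + ∑ a ∈ C, dg G C' a + ∑ w ∈ H, dg G H' w := by
  obtain ⟨K, hK, L, hL, hcov, ⟨m, hm, hm2⟩, m', hm', hm2'⟩ := konig Γ H C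
  set X0 := L ∪ K.image m with hX0
  have hX0C : X0 ⊆ C := by
    refine union_subset hL ?_
    intro a ha
    obtain ⟨w, hw, rfl⟩ := mem_image.1 ha
    exact (mem_sdiff.1 (hm2 w hw).1).1
  have hdis : Disjoint L (K.image m) := by
    rw [disjoint_left]
    intro a ha ha'
    obtain ⟨w, hw, rfl⟩ := mem_image.1 ha'
    exact (mem_sdiff.1 (hm2 w hw).1).2 ha
  -- direction `Γ`: one point `c`
  have hc : ∀ c ∈ C', τ ≤ dg G H c + (X0.filter (fun a => G.Adj a c)).card := by
    intro c hc
    set P := K.filter (fun w => ¬ G.Adj w c) with hP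
    set Q := L.filter (fun a => ∃ w ∈ H, Γ.Adj w a ∧ ¬ G.Adj w c) with hQ
    have h1 := hτ (H.filter (fun w => G.Adj c w) ∪ (P ∪ Q)) (by
      refine union_subset ((filter_subset _ _).trans subset_union_left) (union_subset ?_ ?_)
      · exact ((filter_subset _ _).trans hK).trans subset_union_left
      · exact ((filter_subset _ _).trans hL).trans subset_union_right) (by
      have key : ∀ w ∈ H, ∀ a ∈ C, Γ.Adj w a →
          w ∈ H.filter (fun w => G.Adj c w) ∪ (P ∪ Q) ∨
            a ∈ H.filter (fun w => G.Adj c w) ∪ (P ∪ Q) := by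
        intro w hw a ha hwa
        by_cases hwc : G.Adj w c
        · exact Or.inl (mem_union_left _ (mem_filter.2 ⟨hw, hwc.symm⟩))
        · rcases hcov w hw a ha hwa with h2 | h2
          · exact Or.inl (mem_union_right _ (mem_union_left _ (mem_filter.2 ⟨h2, hwc⟩)))
          · exact Or.inr (mem_union_right _ (mem_union_right _
              (mem_filter.2 ⟨h2, w, hw, hwa, hwc⟩)))
      intro p hp q hq hpq
      rcases mem_union.1 hp with hp' | hp' <;> rcases mem_union.1 hq with hq' | hq'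
      · rcases hS p hp q hq hpq c hc with h2 | h2
        · exact Or.inl (mem_union_left _ (mem_filter.2 ⟨hp', h2.symm⟩))
        · exact Or.inr (mem_union_left _ (mem_filter.2 ⟨hq', h2.symm⟩))
      · exact key p hp' q hq' hpq
      · exact (key q hq' p hp' hpq.symm).symm
      · exact absurd hpq (hΓ p hp' q hq'))
    have h2 : (H.filter (fun w => G.Adj c w) ∪ (P ∪ Q)).card ≤ dg G H c + (P ∪ Q).card :=
      card_union_le _ _
    have h3 : (P ∪ Q).card ≤ P.card + Q.card := card_union_le _ _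
    have h4 : P.card + Q.card ≤ (X0.filter (fun a => G.Adj a c)).card := by
      have e1 : (P.image m).card = P.card :=
        card_image_of_injOn (hm.mono (by
          intro x hx
          exact (mem_filter.1 (mem_coe.1 hx)).1))
      have e2 : Disjoint (P.image m) Q :=
        (hdis.mono (filter_subset _ _) (image_subset_image (filter_subset _ _))).symm
      rw [← e1, ← card_union_of_disjoint e2]
      refine card_le_card (union_subset ?_ ?_)
      · intro a ha
        obtain ⟨w, hw, rfl⟩ := mem_image.1 ha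
        obtain ⟨hwK, hwc⟩ := mem_filter.1 hw
        refine mem_filter.2 ⟨mem_union_right _ (mem_image_of_mem m hwK), ?_⟩
        have h5 := hS w (mem_union_left _ (hK hwK)) (m w)
          (mem_union_right _ (mem_sdiff.1 (hm2 w hwK).1).1) (hm2 w hwK).2 c hc
        exact h5.resolve_left hwc
      · intro a ha
        obtain ⟨haL, w, hw, hwa, hwc⟩ := mem_filter.1 ha
        refine mem_filter.2 ⟨mem_union_left _ haL, ?_⟩
        exact (hS w (mem_union_left _ hw) a (mem_union_right _ (hL haL)) hwa c hc).resolve_left hwc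
    omega
  -- direction `Γ'`: a point outside `X0`
  have hout : ∀ a ∈ C \ X0, τ' ≤ dg G H' a + dg G C' a := by
    intro a ha
    have h1 := hS'.le_dg hτ' (mem_sdiff.1 ha).1
    have h2 : dg G (H' ∪ C') a ≤ dg G H' a + dg G C' a := by
      unfold dg
      rw [filter_union]
      exact card_union_le _ _
    omega
  -- direction `Γ'`: a point of `X0`
  have hw : ∀ a, ∃ w, a ∈ X0 → w ∈ H ∧ Γ.Adj w a ∧ ((a ∈ L → w = m' a) ∧
      (a ∉ L → w ∈ K ∧ m w = a)) := by
    intro a
    by_cases ha : a ∈ X0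
    · by_cases haL : a ∈ L
      · exact ⟨m' a, fun _ => ⟨(mem_sdiff.1 (hm2' a haL).1).1, (hm2' a haL).2,
          fun _ => rfl, fun h => absurd haL h⟩⟩
      · rcases mem_union.1 ha with h | h
        · exact absurd h haL
        · obtain ⟨w, hw, rfl⟩ := mem_image.1 h
          exact ⟨w, fun _ => ⟨hK hw, (hm2 w hw).2, fun h' => absurd h' haL, fun _ => ⟨hw, rfl⟩⟩⟩
    · exact ⟨a, fun h => absurd h ha⟩
  choose w hw using hw
  have hwinj : Set.InjOn w X0 := by
    intro a ha b hb hab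
    rw [mem_coe] at ha hb
    obtain ⟨a1, a2, a3, a4⟩ := hw a ha
    obtain ⟨b1, b2, b3, b4⟩ := hw b hb
    by_cases haL : a ∈ L <;> by_cases hbL : b ∈ L
    · rw [a3 haL, b3 hbL] at hab
      exact hm' haL hbL hab
    · exfalso
      rw [a3 haL] at hab
      exact (mem_sdiff.1 (hm2' a haL).1).2 (hab ▸ (b4 hbL).1)
    · exfalso
      rw [b3 hbL] at hab
      exact (mem_sdiff.1 (hm2' b hbL).1).2 (hab ▸ (a4 haL).1)
    · rw [← (a4 haL).2, ← (b4 hbL).2, hab]
  have hin : ∀ a ∈ X0, τ' ≤ dg G H' a + dg G H' (w a) := by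
    intro a ha
    obtain ⟨a1, a2, -, -⟩ := hw a ha
    set P := H'.filter (fun v => ¬ G.Adj v a ∧ ∃ c ∈ C', Γ'.Adj v c) with hP
    have h1 := hτ' (H'.filter (fun v => G.Adj a v) ∪ P) (by
      exact union_subset ((filter_subset _ _).trans subset_union_left)
        ((filter_subset _ _).trans subset_union_left)) (by
      have key : ∀ v ∈ H', ∀ c ∈ C', Γ'.Adj v c →
          v ∈ H'.filter (fun v => G.Adj a v) ∪ P := by
        intro v hv c hc hvc
        by_cases hva : G.Adj v a
        · exact mem_union_left _ (mem_filter.2 ⟨hv, hva.symm⟩)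
        · exact mem_union_right _ (mem_filter.2 ⟨hv, hva, c, hc, hvc⟩)
      intro p hp q hq hpq
      rcases mem_union.1 hp with hp' | hp' <;> rcases mem_union.1 hq with hq' | hq'
      · rcases hS' p hp q hq hpq a (hX0C ha) with h2 | h2
        · exact Or.inl (mem_union_left _ (mem_filter.2 ⟨hp', h2.symm⟩))
        · exact Or.inr (mem_union_left _ (mem_filter.2 ⟨hq', h2.symm⟩))
      · exact Or.inl (key p hp' q hq' hpq)
      · exact Or.inr (key q hq' p hp' hpq.symm)
      · exact absurd hpq (hΓ' p hp' q hq'))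
    have h2 := card_union_le (H'.filter (fun v => G.Adj a v)) P
    have h3 : P.card ≤ dg G H' (w a) := by
      refine card_le_card fun v hv => ?_
      obtain ⟨v1, v2, v3⟩ := mem_filter.1 hv
      exact mem_filter.2 ⟨v1, hadj (w a) a1 v v1 a (hX0C ha) a2 v2 v3⟩
    have h4 : (H'.filter (fun v => G.Adj a v)).card = dg G H' a := rfl
    omega
  -- sums
  have s1 := sum_le_sum hc
  rw [sum_const, smul_eq_mul, sum_add_distrib] at s1
  have s2 : ∑ c ∈ C', (X0.filter (fun a => G.Adj a c)).card = ∑ a ∈ X0, dg G C' a := by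
    rw [← dg_comm]
    refine sum_congr rfl fun c _ => ?_
    unfold dg
    congr 1
    exact filter_congr fun a _ => ⟨fun h => h.symm, fun h => h.symm⟩
  have s3 := sum_le_sum hout
  rw [sum_const, smul_eq_mul, sum_add_distrib] at s3
  have s4 := sum_le_sum hin
  rw [sum_const, smul_eq_mul, sum_add_distrib] at s4
  have s5 : ∑ a ∈ X0, dg G H' (w a) ≤ ∑ v ∈ H, dg G H' v := by
    rw [← sum_image (g := w) (f := fun v => dg G H' v) (fun a ha b hb hab => hwinj ha hb hab)]
    refine sum_le_sum_of_subset ?_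
    intro v hv
    obtain ⟨a, ha, rfl⟩ := mem_image.1 hv
    exact (hw a ha).1
  have s6 := sum_sdiff (f := fun a => dg G H' a) hX0C
  have s7 := sum_sdiff (f := fun a => dg G C' a) hX0C
  have s8 := card_sdiff_add_card_eq_card hX0C
  have s9 : τ' * C.card = (C \ X0).card * τ' + X0.card * τ' := by
    rw [← s8]
    ring
  rw [s2] at s1
  rw [s9, mul_comm τ]
  omega

end Mut

end Pool.Agent.Lib.MP_f04ccf_co
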