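import Pool.Agent.Lib.MP_f04ccf_co.M.LemF
import Pool.Agent.Lib.MP_f04ccf_co.M.MutL

/-!
MP_f04ccf_co: the combined load statement (*_L) of notes 15527, 15727, 15753, definitions.  `WSys`
is a closed system of rows `A` with class parts `C x`, home parts `H x`, missing pairs `F` and tails
`tl`; `Clo`: deleting `D` closes the rows `B`.  `KD` is a Koenig matching of one arc: `w` matches
`X ⊆ C s` into the members of home `s` with tail `t` and the points of `L` together with the partners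
of `X \ L` cover all missing pairs of the arc.
-/

set_option autoImplicit false

namespace Pool.Agent.Lib.MP_f04ccf_co

open Finset

attribute [local instance] Classical.propDecidable

section Def

variable {ι V : Type*}

/-- abstract closed system: rows `A`, class parts `C`, home parts `H`, missing pairs `F` -/
structure WSys (G F : SimpleGraph V) (A : Finset ι) (C H : ι → Finset V) (tl : V → ι) : Prop where
  ne : ∀ x ∈ A, (C x).Nonempty
  dHC : ∀ x ∈ A, ∀ y ∈ A, Disjoint (H x) (C y)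
  dHH : ∀ x ∈ A, ∀ y ∈ A, x ≠ y → Disjoint (H x) (H y)
  dCC : ∀ x ∈ A, ∀ y ∈ A, x ≠ y → Disjoint (C x) (C y)
  FG : ∀ p q : V, F.Adj p q → ¬ G.Adj p q
  FC : ∀ x ∈ A, ∀ a ∈ C x, ∀ b ∈ C x, ¬ F.Adj a b
  pc : ∀ x ∈ A, ∀ v ∈ H x, ∀ a ∈ C x, F.Adj v a → tl v ∈ A.erase x ∧
    ∀ c ∈ C (tl v), G.Adj c v ∨ G.Adj c a
  pp : ∀ x ∈ A, ∀ p ∈ H x, ∀ q ∈ H x, F.Adj p q →
    (∃ y ∈ A.erase x, ∀ c ∈ C y, G.Adj c p ∨ G.Adj c q) ∨
      (tl p ∈ A.erase x ∧ tl q ∈ A.erase x ∧ tl p ≠ tl q)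
  half : ∀ x ∈ A, ∀ p ∈ H x, ∀ q ∈ H x, F.Adj p q → tl p ∈ A.erase x → tl q ∈ A.erase x →
    tl p ≠ tl q → ∀ c ∈ C (tl p), ∀ d ∈ C (tl q), ¬ G.Adj c p → ¬ G.Adj c q → ¬ G.Adj d p →
      ¬ G.Adj d q → G.Adj c d
  three : ∀ x ∈ A, ∀ y ∈ A, x ≠ y → ∀ v ∈ H x, tl v = y → ∀ w ∈ H y, tl w = x → ∀ c ∈ C y,
    ¬ G.Adj c v → ¬ G.Adj c w → G.Adj w v
  four : ∀ x ∈ A, ∀ y ∈ A, ∀ z ∈ A, x ≠ y → x ≠ z → y ≠ z → ∀ p ∈ H x, ∀ q ∈ H x, F.Adj p q →
    tl p = y → tl q = z → ∀ w ∈ H y, tl w = z → ∀ a ∈ C y, ¬ G.Adj a w → ¬ G.Adj a p →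
      ¬ G.Adj a q → G.Adj w p ∨ G.Adj w q

/-- deleting `D` closes the rows `B` -/
def Clo (G F : SimpleGraph V) (C H : ι → Finset V) (tl : V → ι) (B : Finset ι) (D : Finset V) :
    Prop :=
  ∀ x ∈ B, ∀ p ∈ H x ∪ C x, ∀ q ∈ H x ∪ C x, F.Adj p q → p ∉ D → q ∉ D →
    (∃ y ∈ B.erase x, ∀ c ∈ C y, c ∉ D → G.Adj c p ∨ G.Adj c q) ∨
      (p ∈ H x ∧ q ∈ H x ∧ tl p ∈ B.erase x ∧ tl q ∈ B.erase x ∧ tl p ≠ tl q)

/-- Koenig data of one arc: `P` class points, `W` members -/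
structure KD (F : SimpleGraph V) (P W X L : Finset V) (w : V → V) : Prop where
  XP : X ⊆ P
  LX : L ⊆ X
  inj : Set.InjOn w X
  mem : ∀ a ∈ X, w a ∈ W ∧ F.Adj (w a) a
  cov : ∀ v ∈ W, ∀ a ∈ P, F.Adj v a → v ∈ (X \ L).image w ∨ a ∈ L

/-- Koenig data exist -/
theorem exists_kd (F : SimpleGraph V) (P W : Finset V) :
    ∃ (X L : Finset V) (w : V → V), KD F P W X L w := by
  obtain ⟨K, hK, L, hL, hcov, ⟨m, hm, hm2⟩, m', hm', hm2'⟩ := konig F W P
  have hdis : Disjoint L (K.image m) := by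
    rw [disjoint_left]
    intro a ha ha'
    obtain ⟨w, hw, rfl⟩ := mem_image.1 ha'
    exact (mem_sdiff.1 (hm2 w hw).1).2 ha
  have hw : ∀ a, ∃ w, (a ∈ L → w = m' a) ∧ (a ∈ K.image m → w ∈ K ∧ m w = a) := by
    intro a
    by_cases haL : a ∈ L
    · exact ⟨m' a, fun _ => rfl, fun h => absurd h (disjoint_left.1 hdis haL)⟩
    · by_cases haK : a ∈ K.image m
      · obtain ⟨w, hw, rfl⟩ := mem_image.1 haK
        exact ⟨w, fun h => absurd h haL, fun _ => ⟨hw, rfl⟩⟩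
      · exact ⟨a, fun h => absurd h haL, fun h => absurd h haK⟩
  choose w hw1 hw2 using hw
  have hXL : (L ∪ K.image m) \ L = K.image m := by
    rw [union_sdiff_left]
    exact sdiff_eq_self_of_disjoint hdis.symm
  refine ⟨L ∪ K.image m, L, w, ⟨?_, subset_union_left, ?_, ?_, ?_⟩⟩
  · refine union_subset hL ?_
    intro a ha
    obtain ⟨v, hv, rfl⟩ := mem_image.1 ha
    exact (mem_sdiff.1 (hm2 v hv).1).1
  · intro a ha b hb hab
    rw [mem_coe] at ha hb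
    rcases mem_union.1 ha with ha1 | ha1 <;> rcases mem_union.1 hb with hb1 | hb1
    · rw [hw1 a ha1, hw1 b hb1] at hab
      exact hm' ha1 hb1 hab
    · exfalso
      rw [hw1 a ha1] at hab
      exact (mem_sdiff.1 (hm2' a ha1).1).2 (hab ▸ (hw2 b hb1).1)
    · exfalso
      rw [hw1 b hb1] at hab
      exact (mem_sdiff.1 (hm2' b hb1).1).2 (hab ▸ (hw2 a ha1).1)
    · rw [← (hw2 a ha1).2, ← (hw2 b hb1).2, hab]
  · intro a ha
    rcases mem_union.1 ha with ha1 | ha1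
    · rw [hw1 a ha1]
      exact ⟨(mem_sdiff.1 (hm2' a ha1).1).1, (hm2' a ha1).2⟩
    · obtain ⟨h1, h2⟩ := hw2 a ha1
      refine ⟨hK h1, ?_⟩
      have h3 := (hm2 _ h1).2
      rwa [h2] at h3
  · intro v hv a ha hva
    rw [hXL]
    rcases hcov v hv a ha hva with h1 | h1
    · left
      have h2 : m v ∈ K.image m := mem_image_of_mem m h1
      refine mem_image.2 ⟨m v, h2, ?_⟩
      obtain ⟨h3, h4⟩ := hw2 _ h2
      exact hm h3 h1 h4
    · exact Or.inr h1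

/-- the cover which the column `c` needs for the arc -/
lemma KD.col {G F : SimpleGraph V} {P W X L : Finset V} {w : V → V} (h : KD F P W X L w) {c : V}
    (hs : ∀ v ∈ W, ∀ a ∈ P, F.Adj v a → G.Adj c v ∨ G.Adj c a) :
    (((X \ L).image w).filter (fun v => ¬ G.Adj c v)).card
      + (L.filter (fun a => ∃ v ∈ W, F.Adj v a ∧ ¬ G.Adj c v)).card ≤ dg G X c := by
  have h1 : (((X \ L).image w).filter (fun v => ¬ G.Adj c v)).card
      ≤ ((X \ L).filter (fun a => G.Adj c a)).card := by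
    rw [filter_image]
    refine card_image_le.trans (card_le_card ?_)
    intro a ha
    obtain ⟨h1, h2⟩ := mem_filter.1 ha
    have haX := (mem_sdiff.1 h1).1
    obtain ⟨h3, h4⟩ := h.mem a haX
    exact mem_filter.2 ⟨h1, (hs _ h3 a (h.XP haX) h4).resolve_left h2⟩
  have h2 : (L.filter (fun a => ∃ v ∈ W, F.Adj v a ∧ ¬ G.Adj c v)).card
      ≤ (L.filter (fun a => G.Adj c a)).card := by
    refine card_le_card ?_
    intro a ha
    obtain ⟨h1, v, hv, hva, hcv⟩ := mem_filter.1 ha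
    exact mem_filter.2 ⟨h1, (hs v hv a (h.XP (h.LX h1)) hva).resolve_left hcv⟩
  have h3 : ((X \ L).filter (fun a => G.Adj c a)).card + (L.filter (fun a => G.Adj c a)).card
      = dg G X c := by
    unfold dg
    rw [← card_union_of_disjoint (disjoint_filter_filter sdiff_disjoint), ← filter_union,
      sdiff_union_of_subset h.LX]
  omega

end Def

end Pool.Agent.Lib.MP_f04ccf_co
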