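import Pool.Agent.Lib.MP_f04ccf_co.M.MatR
import Pool.Agent.Lib.MP_f04ccf_co.M.WgtA

/-!
MP_f04ccf_co, notes 16297, 16408 (matching route): the units of two hosts `x`, `z` at each other's
rows.  `WSys.pair_hits`: all hits of the units of `x` at the row `z` and of the units of `z` at the
row `x` together are at most `e(S_x, S_z)` (a class edge counted twice is paid by an `H_x - H_z` edge).
-/

set_option autoImplicit false

namespace Pool.Agent.Lib.MP_f04ccf_co

open Finset

attribute [local instance] Classical.propDecidable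

section Hits

variable {ι κ V : Type*} {G F : SimpleGraph V}

/-- the adjacent pairs between two sets -/
noncomputable def eds (G : SimpleGraph V) (X Y : Finset V) : Finset (V × V) :=
  (X ×ˢ Y).filter fun e => G.Adj e.1 e.2

/-- unordered family of pairs, all points different -/
structure Dst (K : Finset κ) (p q : κ → V) : Prop where
  ip : Set.InjOn p K
  iq : Set.InjOn q K
  ne : ∀ e ∈ K, ∀ f ∈ K, p e ≠ q f

lemma Prs.dst {K : Finset κ} {p q : κ → V} {D : Finset V} (h : Prs K p q D) : Dst K p q :=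
  ⟨h.ip, h.iq, h.ne⟩

/-- the hits of the columns `C` on the units `K` -/
noncomputable def hts (G : SimpleGraph V) (C : Finset V) (K : Finset κ) (p q : κ → V) :
    Finset (V × κ) :=
  (C ×ˢ K).filter fun ce => G.Adj ce.1 (p ce.2) ∨ G.Adj ce.1 (q ce.2)

lemma card_hts (C : Finset V) (K : Finset κ) (p q : κ → V) :
    ((hts G C K p q).card : ℤ)
      = ∑ e ∈ K, ((C.card : ℤ) - (rst G C (p e) (q e)).card) := by
  have h1 : (hts G C K p q).card
      = ∑ e ∈ K, (C.filter fun c => G.Adj c (p e) ∨ G.Adj c (q e)).card := by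
    unfold hts
    rw [card_filter, sum_product_right]
    refine sum_congr rfl fun e _ => ?_
    rw [card_filter]
  rw [h1]
  push_cast
  refine sum_congr rfl fun e _ => ?_
  have h2 := card_filter_add_card_filter_not (s := C)
    (p := fun c => G.Adj c (p e) ∨ G.Adj c (q e))
  have h3 : (C.filter fun c => ¬ (G.Adj c (p e) ∨ G.Adj c (q e))) = rst G C (p e) (q e) := by
    unfold rst
    ext c
    simp only [mem_filter]
    tauto
  rw [h3] at h2
  have h4 : ((C.filter fun c => G.Adj c (p e) ∨ G.Adj c (q e)).card : ℤ)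
      + (rst G C (p e) (q e)).card = C.card := by exact_mod_cast h2
  linarith

/-- member hits are different edges -/
lemma card_hts_mem {C H : Finset V} {K : Finset κ} {p q : κ → V} (hK : Dst K p q)
    (hp : ∀ e ∈ K, p e ∈ H) :
    ((hts G C K p q).filter fun ce => G.Adj ce.1 (p ce.2) ∨ q ce.2 ∈ H).card
      ≤ (eds G C H).card := by
  refine card_le_card_of_injOn
    (fun ce => (ce.1, if G.Adj ce.1 (p ce.2) then p ce.2 else q ce.2)) ?_ ?_
  · intro ce hce
    have h1 : ce ∈ (hts G C K p q).filter fun ce => G.Adj ce.1 (p ce.2) ∨ q ce.2 ∈ H := by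
      exact_mod_cast hce
    obtain ⟨h2, h3⟩ := mem_filter.1 h1
    obtain ⟨h4, h5⟩ := mem_filter.1 h2
    obtain ⟨h6, h7⟩ := mem_product.1 h4
    by_cases hc : G.Adj ce.1 (p ce.2)
    · simp only [hc, if_true]
      have : (ce.1, p ce.2) ∈ eds G C H :=
        mem_filter.2 ⟨mem_product.2 ⟨h6, hp _ h7⟩, hc⟩
      exact_mod_cast this
    · simp only [hc, if_false]
      have : (ce.1, q ce.2) ∈ eds G C H :=
        mem_filter.2 ⟨mem_product.2 ⟨h6, h3.resolve_left hc⟩, h5.resolve_left hc⟩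
      exact_mod_cast this
  · rintro ⟨c, e⟩ hce ⟨d, f⟩ hdf hef
    have he : e ∈ K := (mem_product.1 (mem_filter.1 (mem_filter.1
      (by exact_mod_cast hce : (c, e) ∈ (hts G C K p q).filter _)).1).1).2
    have hf : f ∈ K := (mem_product.1 (mem_filter.1 (mem_filter.1
      (by exact_mod_cast hdf : (d, f) ∈ (hts G C K p q).filter _)).1).1).2
    simp only [Prod.mk.injEq] at hef
    obtain ⟨rfl, h2⟩ := hef
    have h3 : e = f := by
      by_cases h4 : G.Adj c (p e) <;> by_cases h5 : G.Adj c (p f)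
      · simp only [h4, h5, if_true] at h2
        exact hK.ip (by exact_mod_cast he) (by exact_mod_cast hf) h2
      · simp only [h4, h5, if_true, if_false] at h2
        exact absurd h2 (hK.ne e he f hf)
      · simp only [h4, h5, if_true, if_false] at h2
        exact absurd h2.symm (hK.ne f hf e he)
      · simp only [h4, h5, if_false] at h2
        exact hK.iq (by exact_mod_cast he) (by exact_mod_cast hf) h2
    rw [h3]

/-- the class hits of the units `K` (host `x`) -/
noncomputable def chs (G : SimpleGraph V) (C H : Finset V) (K : Finset κ) (p q : κ → V) :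
    Finset (V × κ) :=
  (hts G C K p q).filter fun ce => ¬ (G.Adj ce.1 (p ce.2) ∨ q ce.2 ∈ H)

lemma mem_chs {C H : Finset V} {K : Finset κ} {p q : κ → V} {ce : V × κ} :
    ce ∈ chs G C H K p q ↔ ce.1 ∈ C ∧ ce.2 ∈ K ∧ ¬ G.Adj ce.1 (p ce.2) ∧ G.Adj ce.1 (q ce.2)
      ∧ q ce.2 ∉ H := by
  unfold chs hts
  simp only [mem_filter, mem_product]
  tauto

/-- **all hits of two hosts at each other's rows** are at most the number of adjacent pairs -/
theorem WSys.pair_hits {A : Finset ι} {C H : ι → Finset V} {tl : V → ι}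
    (h : WSys G F A C H tl) {x z : ι} (hx : x ∈ A) (hz : z ∈ A) (hxz : x ≠ z)
    {K K' : Finset κ} {p q p' q' : κ → V} (hK : Dst K p q) (hK' : Dst K' p' q')
    (hp : ∀ e ∈ K, p e ∈ H x) (hp' : ∀ e ∈ K', p' e ∈ H z)
    (hq : ∀ e ∈ K, q e ∈ H x ∨ (q e ∈ C x ∧ F.Adj (p e) (q e) ∧ tl (p e) = z))
    (hq' : ∀ e ∈ K', q' e ∈ H z ∨ (q' e ∈ C z ∧ F.Adj (p' e) (q' e) ∧ tl (p' e) = x)) :
    ∑ e ∈ K, (((C z).card : ℤ) - (rst G (C z) (p e) (q e)).card)
      + ∑ e ∈ K', (((C x).card : ℤ) - (rst G (C x) (p' e) (q' e)).card)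
      ≤ (eds G (C z) (H x)).card + (eds G (C x) (H z)).card + (eds G (C x) (C z)).card
        + (eds G (H x) (H z)).card := by
  rw [← card_hts, ← card_hts]
  have h1 := card_filter_add_card_filter_not (s := hts G (C z) K p q)
    (p := fun ce => G.Adj ce.1 (p ce.2) ∨ q ce.2 ∈ H x)
  have h2 := card_filter_add_card_filter_not (s := hts G (C x) K' p' q')
    (p := fun ce => G.Adj ce.1 (p' ce.2) ∨ q' ce.2 ∈ H z)
  have h3 := card_hts_mem (G := G) (C := C z) hK hp
  have h4 := card_hts_mem (G := G) (C := C x) hK' hp'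
  -- the class hits
  set X1 : Finset (V × V) := (chs G (C z) (H x) K p q).image fun ce => (q ce.2, ce.1) with hX1
  set X2 : Finset (V × V) := (chs G (C x) (H z) K' p' q').image fun ce => (ce.1, q' ce.2) with hX2
  have hc1 : X1.card = (chs G (C z) (H x) K p q).card := by
    rw [hX1]
    refine card_image_of_injOn ?_
    rintro ⟨c, e⟩ hce ⟨d, f⟩ hdf hef
    have he := (mem_chs.1 (by exact_mod_cast hce : (c, e) ∈ chs G (C z) (H x) K p q)).2.1
    have hf := (mem_chs.1 (by exact_mod_cast hdf : (d, f) ∈ chs G (C z) (H x) K p q)).2.1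
    simp only [Prod.mk.injEq] at hef
    obtain ⟨h5, rfl⟩ := hef
    rw [hK.iq (by exact_mod_cast he) (by exact_mod_cast hf) h5]
  have hc2 : X2.card = (chs G (C x) (H z) K' p' q').card := by
    rw [hX2]
    refine card_image_of_injOn ?_
    rintro ⟨c, e⟩ hce ⟨d, f⟩ hdf hef
    have he := (mem_chs.1 (by exact_mod_cast hce : (c, e) ∈ chs G (C x) (H z) K' p' q')).2.1
    have hf := (mem_chs.1 (by exact_mod_cast hdf : (d, f) ∈ chs G (C x) (H z) K' p' q')).2.1
    simp only [Prod.mk.injEq] at hef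
    obtain ⟨rfl, h5⟩ := hef
    rw [hK'.iq (by exact_mod_cast he) (by exact_mod_cast hf) h5]
  have hs1 : X1 ⊆ eds G (C x) (C z) := by
    intro e he
    obtain ⟨ce, h5, rfl⟩ := mem_image.1 he
    obtain ⟨a1, a2, a3, a4, a5⟩ := mem_chs.1 h5
    refine mem_filter.2 ⟨mem_product.2 ⟨((hq _ a2).resolve_left a5).1, a1⟩, a4.symm⟩
  have hs2 : X2 ⊆ eds G (C x) (C z) := by
    intro e he
    obtain ⟨ce, h5, rfl⟩ := mem_image.1 he
    obtain ⟨a1, a2, a3, a4, a5⟩ := mem_chs.1 h5
    refine mem_filter.2 ⟨mem_product.2 ⟨a1, ((hq' _ a2).resolve_left a5).1⟩, a4⟩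
  -- the double hits are paid by member edges
  have hint : (X1 ∩ X2).card ≤ (eds G (H x) (H z)).card := by
    have hw : ∀ e ∈ X1 ∩ X2, ∃ f : V × V, f ∈ eds G (H x) (H z) ∧
        (∃ u ∈ K, q u = e.1 ∧ p u = f.1) ∧ (∃ u ∈ K', q' u = e.2 ∧ p' u = f.2) := by
      intro e he
      obtain ⟨he1, he2⟩ := mem_inter.1 he
      obtain ⟨⟨c, u⟩, h5, h6⟩ := mem_image.1 he1
      obtain ⟨⟨d, v⟩, h7, h8⟩ := mem_image.1 he2
      obtain ⟨a1, a2, a3, a4, a5⟩ := mem_chs.1 h5
      obtain ⟨b1, b2, b3, b4, b5⟩ := mem_chs.1 h7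
      simp only at a1 a2 a3 a4 a5 b1 b2 b3 b4 b5 h6 h8
      have e1 : q u = e.1 := by rw [← h6]
      have e2 : c = e.2 := by rw [← h6]
      have e3 : d = e.1 := by rw [← h8]
      have e4 : q' v = e.2 := by rw [← h8]
      obtain ⟨r1, r2, r3⟩ := (hq _ a2).resolve_left a5
      obtain ⟨s1, s2, s3⟩ := (hq' _ b2).resolve_left b5
      refine ⟨(p u, p' v), ?_, ⟨u, a2, e1, rfl⟩, ⟨v, b2, e4, rfl⟩⟩
      refine mem_filter.2 ⟨mem_product.2 ⟨hp _ a2, hp' _ b2⟩, ?_⟩
      have h9 : ¬ G.Adj (q' v) (p u) := by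
        rw [e4, ← e2]
        exact a3
      have h10 : ¬ G.Adj (q' v) (p' v) := fun h11 => h.FG _ _ s2 h11.symm
      exact (h.three x hx z hz hxz (p u) (hp _ a2) r3 (p' v) (hp' _ b2) s3 (q' v) s1 h9 h10).symm
    choose! f hf1 hf2 hf3 using hw
    refine card_le_card_of_injOn f (fun e he => ?_) ?_
    · have := hf1 e (by exact_mod_cast he)
      exact_mod_cast this
    · intro e he e' he' hee
      have he1 : e ∈ X1 ∩ X2 := by exact_mod_cast he
      have he2 : e' ∈ X1 ∩ X2 := by exact_mod_cast he'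
      obtain ⟨u, hu, hu1, hu2⟩ := hf2 e he1
      obtain ⟨u', hu', hu1', hu2'⟩ := hf2 e' he2
      obtain ⟨v, hv, hv1, hv2⟩ := hf3 e he1
      obtain ⟨v', hv', hv1', hv2'⟩ := hf3 e' he2
      have k1 : u = u' := hK.ip (by exact_mod_cast hu) (by exact_mod_cast hu')
        (by rw [hu2, hu2', hee])
      have k2 : v = v' := hK'.ip (by exact_mod_cast hv) (by exact_mod_cast hv')
        (by rw [hv2, hv2', hee])
      refine Prod.ext ?_ ?_
      · rw [← hu1, ← hu1', k1]
      · rw [← hv1, ← hv1', k2]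
  have hun : X1.card + X2.card ≤ (eds G (C x) (C z)).card + (eds G (H x) (H z)).card := by
    have h5 := card_union_add_card_inter X1 X2
    have h6 := card_le_card (union_subset hs1 hs2)
    omega
  have h5 : (chs G (C z) (H x) K p q).card = ((hts G (C z) K p q).filter fun ce =>
      ¬ (G.Adj ce.1 (p ce.2) ∨ q ce.2 ∈ H x)).card := rfl
  have h6 : (chs G (C x) (H z) K' p' q').card = ((hts G (C x) K' p' q').filter fun ce =>
      ¬ (G.Adj ce.1 (p' ce.2) ∨ q' ce.2 ∈ H z)).card := rfl
  have h7 : (hts G (C z) K p q).card + (hts G (C x) K' p' q').card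
      ≤ (eds G (C z) (H x)).card + (eds G (C x) (H z)).card + (eds G (C x) (C z)).card
        + (eds G (H x) (H z)).card := by omega
  exact_mod_cast h7

/-- the edges between two slots in four parts -/
lemma card_eds_eq (X Y : Finset V) : ((eds G X Y).card : ℤ) = ∑ v ∈ X, (dg G Y v : ℤ) := by
  have h1 : (eds G X Y).card = ∑ v ∈ X, dg G Y v := by
    unfold eds dg
    rw [card_filter, sum_product]
    refine sum_congr rfl fun v _ => ?_
    rw [card_filter]
  rw [h1]
  push_cast
  rfl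

end Hits

end Pool.Agent.Lib.MP_f04ccf_co
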