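import Pool.Agent.Lib.MP_f04ccf_co.M.MatI
import Pool.Agent.Lib.MP_f04ccf_co.M.Pack

/-!
MP_f04ccf_co, notes 16583, 16648: a packing (`Pk`) of a host gives a family of items (`Fam`); the value
is `h - #parts`; the energy of an optimal packing over the basic integers.
-/

set_option autoImplicit false

namespace Pool.Agent.Lib.MP_f04ccf_co

open Finset

attribute [local instance] Classical.propDecidable

section PkFam

variable {ι V : Type*} {G : SimpleGraph V} {C H : ι → Finset V} {tl : V → ι} {x : ι}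
  {B : Finset (V × V)} {Ps : Finset (Finset V)}

/-- the items of a packing -/
noncomputable def pkf (B : Finset (V × V)) (Ps : Finset (Finset V)) : Finset (Itm V) :=
  (Ps.filter fun P => 2 ≤ P.card).disjSum B

lemma inl_mem_pkf {Q : Finset V} : (Sum.inl Q : Itm V) ∈ pkf B Ps ↔ Q ∈ Ps ∧ 2 ≤ Q.card := by
  unfold pkf
  rw [inl_mem_disjSum, mem_filter]

lemma inr_mem_pkf {e : V × V} : (Sum.inr e : Itm V) ∈ pkf B Ps ↔ e ∈ B := by
  unfold pkf
  rw [inr_mem_disjSum]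

/-- **a packing is a family of items** -/
theorem Pk.fam (h : Pk G (C x) (H x) tl B Ps) (hHC : Disjoint (H x) (C x)) :
    Fam (co G) C H tl x (pkf B Ps) where
  sub := fun Q hQ => h.sub Q (inl_mem_pkf.1 hQ).1
  two := fun Q hQ => (inl_mem_pkf.1 hQ).2
  clq := fun Q hQ u hu v hv huv =>
    co_adj.2 ⟨huv, h.ind Q (inl_mem_pkf.1 hQ).1 u hu v hv⟩
  pcH := fun e he => h.bH e (inr_mem_pkf.1 he)
  pcC := fun e he => h.bC e (inr_mem_pkf.1 he)
  pcF := fun e he => by
    have h1 := inr_mem_pkf.1 he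
    refine co_adj.2 ⟨fun h2 => ?_, h.bN e h1⟩
    exact disjoint_left.1 hHC (h.bH e h1) (h2 ▸ h.bC e h1)
  dis := by
    intro u hu v hv huv
    rcases u with Q | e <;> rcases v with Q' | f
    · exact h.dis Q (inl_mem_pkf.1 hu).1 Q' (inl_mem_pkf.1 hv).1 fun h1 => huv (by rw [h1])
    · simp only [imem, disjoint_singleton_right]
      exact h.dw f (inr_mem_pkf.1 hv) Q (inl_mem_pkf.1 hu).1
    · simp only [imem, disjoint_singleton_left]
      exact h.dw e (inr_mem_pkf.1 hu) Q' (inl_mem_pkf.1 hv).1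
    · simp only [imem, disjoint_singleton]
      exact fun h1 => huv (by rw [h.b1 e (inr_mem_pkf.1 hu) f (inr_mem_pkf.1 hv) h1])
  cop := fun e he f hf hef hne h1 => hne (h.b2 e (inr_mem_pkf.1 he) f (inr_mem_pkf.1 hf) hef h1)

/-- the value of the items of a packing -/
theorem Pk.sum_ivl {C H : Finset V} (h : Pk G C H tl B Ps) :
    ∑ u ∈ pkf B Ps, ivl u + Ps.card = H.card := by
  have h1 : ∑ u ∈ pkf B Ps, ivl u
      = ∑ P ∈ Ps.filter (fun P => 2 ≤ P.card), (P.card - 1) + B.card := by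
    unfold pkf
    rw [sum_disjSum]
    simp only [ivl, sum_const, smul_eq_mul, mul_one]
  rw [h1, h.value]
  ring

end PkFam

section PkC

variable {V : Type*} {G : SimpleGraph V} {Z T : Finset V} {hm : V → V} {r m t : ℕ}
  {A : Finset V} {S : V → Finset V} {B : Finset (V × V)} {Ps : Finset (Finset V)}

/-- two members of one host with the same tail which miss a common class point are adjacent -/
theorem CSys.h32 (hF : PFrame G r m t Z T) (hh : Homes G Z T hm) (h : CSys G Z T hm A S)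
    (ht : ∀ x ∈ A, ∀ v ∈ HP G Z T S x, tlo G T hm v ∈ A.erase x) {x : V} (hx : x ∈ A) :
    ∀ v ∈ HP G Z T S x, ∀ w ∈ HP G Z T S x, ∀ a ∈ CP G Z T S x, v ≠ w →
      tlo G T hm v = tlo G T hm w → ¬ G.Adj v a → ¬ G.Adj w a → G.Adj v w := by
  intro v hv w hw a ha hvw htl hva hwa
  obtain ⟨h1, e1⟩ := h.ends_of_tlo hh hx hv rfl
  obtain ⟨-, e2⟩ := h.ends_of_tlo hh hx hw (z := tlo G T hm v) htl.symm
  have hT : tlo G T hm v ∈ T := h.sub (mem_of_mem_erase (ht x hx v hv))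
  exact hF.adj_of_common h1.symm hT (h.sub hx) (mem_Ph.1 (h.HP_Ph hx hv)).1
    (mem_Ph.1 (h.HP_Ph hx hw)).1 (by rw [e1]; simp) (by rw [e1]; simp) (by rw [e2]; simp)
    (by rw [e2]; simp) hvw (mem_CP.1 ha).2 hva hwa

/-- **the energy of an optimal packing**: `mu = Sum ivl`, `2 NE ≤ ..` with the arcs of the PC pairs -/
theorem PkOpt.energyC (hF : PFrame G r m t Z T) (hh : Homes G Z T hm) (hC : CSys G Z T hm A S)
    (ht : ∀ x ∈ A, ∀ v ∈ HP G Z T S x, tlo G T hm v ∈ A.erase x) {x : V} (hx : x ∈ A)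
    {φ : Finset (V × V) → Finset (Finset V) → ℕ}
    (h : PkOpt G (CP G Z T S x) (HP G Z T S x) (tlo G T hm) φ B Ps) :
    (NE G (S x) : ℤ) + (∑ u ∈ pkf B Ps, (ivl u : ℤ)) * (∑ u ∈ pkf B Ps, (ivl u : ℤ) + 1)
      ≤ 2 * (∑ u ∈ pkf B Ps, (ivl u : ℤ)) * (HP G Z T S x).card
        + 2 * ∑ e ∈ B, (nd G (CP G Z T S x) e.1 : ℤ) := by
  have h1 := h.energy (hC.h32 hF hh ht hx) (hC.CP_clq hF hx) (hC.dCH hx hx).symm
  have h2 := h.toPk.sum_ivl
  have h3 : ∑ u ∈ pkf B Ps, (ivl u : ℤ) + Ps.card = (HP G Z T S x).card := by exact_mod_cast h2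
  rw [union_comm, CP_union_HP] at h1
  set μ : ℤ := ∑ u ∈ pkf B Ps, (ivl u : ℤ) with hμ
  have h4 : (Ps.card : ℤ) = (HP G Z T S x).card - μ := by linarith
  rw [h4] at h1
  nlinarith

/-- **the energy over the basic integers**: `2 e + mu (mu + 1) ≤ 2 mu h + 2 Sum kappa` -/
theorem PkOpt.energyI {S : Finset V} (hF : PFrame G r m t Z T) (hh : Homes G Z T hm)
    (hC : CSys G Z T hm A fun x => S.filter fun v => hm v = x)
    (ht : ∀ x ∈ A, ∀ v ∈ HP G Z T (fun x => S.filter fun v => hm v = x) x,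
      tlo G T hm v ∈ A.erase x) {x : V} (hx : x ∈ A)
    {φ : Finset (V × V) → Finset (Finset V) → ℕ}
    (h : PkOpt G (CP G Z T (fun x => S.filter fun v => hm v = x) x)
      (HP G Z T (fun x => S.filter fun v => hm v = x) x) (tlo G T hm) φ B Ps) :
    2 * eI G hm S x + (∑ u ∈ pkf B Ps, (ivl u : ℤ)) * (∑ u ∈ pkf B Ps, (ivl u : ℤ) + 1)
      ≤ 2 * (∑ u ∈ pkf B Ps, (ivl u : ℤ)) * hI G Z T hm S x
        + 2 * ∑ e ∈ B, (nd G (CP G Z T (fun x => S.filter fun v => hm v = x) x) e.1 : ℤ) := by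
  have h1 := PkOpt.energyC hF hh hC ht hx h
  have h2 := two_eI (G := G) (hm := hm) S x
  rw [h2]
  exact h1

/-- `mu ≤ h` -/
theorem Pk.mu_le {S : Finset V} {x : V}
    (h : Pk G (CP G Z T (fun x => S.filter fun v => hm v = x) x)
      (HP G Z T (fun x => S.filter fun v => hm v = x) x) (tlo G T hm) B Ps) :
    ∑ u ∈ pkf B Ps, (ivl u : ℤ) ≤ hI G Z T hm S x := by
  have h2 := h.sum_ivl
  have h3 : (∑ u ∈ pkf B Ps, (ivl u : ℤ)) + Ps.card
      = ((HP G Z T (fun x => S.filter fun v => hm v = x) x).card : ℤ) := by exact_mod_cast h2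
  have h4 : (0 : ℤ) ≤ Ps.card := Nat.cast_nonneg _
  unfold hI
  linarith

end PkC

end Pool.Agent.Lib.MP_f04ccf_co
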