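import Pool.Agent.Lib.MP_f04ccf_co.M.DblC
import Pool.Agent.Lib.MP_f04ccf_co.M.BSlot
import Pool.Agent.Lib.MP_f04ccf_co.M.HardF

/-!
MP_f04ccf_co, notes 16265, 16297 (matching route).  `pairs_seen`: a column sees at least one point of
every pair which it does not miss.  `CSys.row_pairs`: the row test of a family of disjoint pairs.
`CSys.slots_load`: the B-slot test with prescribed loads.  `CSys.slots_pairs`: the B-slot test with a
family of disjoint pairs at every row.  `half_sum_le`: the misses of a half-served pair.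
-/

set_option autoImplicit false

namespace Pool.Agent.Lib.MP_f04ccf_co

open Finset

attribute [local instance] Classical.propDecidable

section Pairs

variable {ι V : Type*} {G : SimpleGraph V}

/-- the pairs `e ∈ K` with both points missed by `c` -/
noncomputable def umis (G : SimpleGraph V) (K : Finset ι) (p q : ι → V) (c : V) : ℕ :=
  (K.filter fun e => ¬ G.Adj c (p e) ∧ ¬ G.Adj c (q e)).card

/-- the points of `C` which miss both points of the pair `e` -/
noncomputable def rst (G : SimpleGraph V) (C : Finset V) (p q : V) : Finset V :=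
  C.filter fun c => ¬ G.Adj c p ∧ ¬ G.Adj c q

/-- disjoint pairs off a set `D` -/
structure Prs (K : Finset ι) (p q : ι → V) (D : Finset V) : Prop where
  ip : Set.InjOn p K
  iq : Set.InjOn q K
  ne : ∀ e ∈ K, ∀ f ∈ K, p e ≠ q f
  dp : ∀ e ∈ K, p e ∉ D
  dq : ∀ e ∈ K, q e ∉ D

/-- the points of the pairs -/
noncomputable def pts (K : Finset ι) (p q : ι → V) : Finset V := K.image p ∪ K.image q

lemma Prs.sub {K K' : Finset ι} {p q : ι → V} {D : Finset V} (h : Prs K p q D) (hK : K' ⊆ K) :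
    Prs K' p q D where
  ip := h.ip.mono (by exact_mod_cast hK)
  iq := h.iq.mono (by exact_mod_cast hK)
  ne := fun e he f hf => h.ne e (hK he) f (hK hf)
  dp := fun e he => h.dp e (hK he)
  dq := fun e he => h.dq e (hK he)

lemma Prs.card_pts {K : Finset ι} {p q : ι → V} {D : Finset V} (h : Prs K p q D) :
    (pts K p q).card = 2 * K.card := by
  unfold pts
  rw [card_union_of_disjoint, card_image_of_injOn h.ip, card_image_of_injOn h.iq]
  · ring
  · rw [disjoint_left]
    intro v hv hv'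
    obtain ⟨e, he, rfl⟩ := mem_image.1 hv
    obtain ⟨f, hf, hfe⟩ := mem_image.1 hv'
    exact h.ne e he f hf hfe.symm

lemma Prs.disj {K : Finset ι} {p q : ι → V} {D : Finset V} (h : Prs K p q D) :
    Disjoint D (pts K p q) := by
  rw [disjoint_left]
  intro v hv hv'
  rcases mem_union.1 hv' with h1 | h1
  · obtain ⟨e, he, rfl⟩ := mem_image.1 h1
    exact h.dp e he hv
  · obtain ⟨e, he, rfl⟩ := mem_image.1 h1
    exact h.dq e he hv

/-- a column sees a point of every pair which it does not miss -/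
theorem pairs_seen {K : Finset ι} {p q : ι → V} {D : Finset V} (h : Prs K p q D) (c : V) :
    K.card ≤ dg G (pts K p q) c + umis G K p q c := by
  have h1 : (K.filter fun e => ¬ (¬ G.Adj c (p e) ∧ ¬ G.Adj c (q e))).card
      ≤ dg G (pts K p q) c := by
    unfold dg
    refine card_le_card_of_injOn (fun e => if G.Adj c (p e) then p e else q e) ?_ ?_
    · intro e he
      have he' : e ∈ K.filter fun e => ¬ (¬ G.Adj c (p e) ∧ ¬ G.Adj c (q e)) := by
        exact_mod_cast he
      obtain ⟨a, b⟩ := mem_filter.1 he'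
      by_cases hc : G.Adj c (p e)
      · simp only [hc, if_true]
        have : p e ∈ (pts K p q).filter fun v => G.Adj c v :=
          mem_filter.2 ⟨mem_union_left _ (mem_image_of_mem p a), hc⟩
        exact_mod_cast this
      · simp only [hc, if_false]
        have h2 : G.Adj c (q e) := by
          by_contra hq
          exact b ⟨hc, hq⟩
        have : q e ∈ (pts K p q).filter fun v => G.Adj c v :=
          mem_filter.2 ⟨mem_union_right _ (mem_image_of_mem q a), h2⟩
        exact_mod_cast this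
    · intro e he f hf hef
      have he' : e ∈ K := (mem_filter.1 (by exact_mod_cast he : e ∈ K.filter _)).1
      have hf' : f ∈ K := (mem_filter.1 (by exact_mod_cast hf : f ∈ K.filter _)).1
      simp only at hef
      by_cases h2 : G.Adj c (p e) <;> by_cases h3 : G.Adj c (p f)
      · simp only [h2, h3, if_true] at hef
        exact h.ip (by exact_mod_cast he') (by exact_mod_cast hf') hef
      · simp only [h2, h3, if_true, if_false] at hef
        exact absurd hef (h.ne e he' f hf')
      · simp only [h2, h3, if_true, if_false] at hef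
        exact absurd hef.symm (h.ne f hf' e he')
      · simp only [h2, h3, if_false] at hef
        exact h.iq (by exact_mod_cast he') (by exact_mod_cast hf') hef
  have h2 := card_filter_add_card_filter_not (s := K)
    (p := fun e => ¬ G.Adj c (p e) ∧ ¬ G.Adj c (q e))
  unfold umis
  omega

/-- the misses, summed over the columns, resp. over the pairs -/
lemma sum_umis (C : Finset V) (K : Finset ι) (p q : ι → V) :
    ∑ c ∈ C, umis G K p q c = ∑ e ∈ K, (rst G C (p e) (q e)).card := by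
  unfold umis rst
  simp only [card_filter]
  exact sum_comm

end Pairs

section Row

variable {ι V : Type*} {G : SimpleGraph V} {Z T : Finset V} {hm : V → V} {r m t : ℕ}

/-- **(T_z): the row test of disjoint pairs** off the slot, `k = |K|`, `s = |S y| - r`:
`2 R (s + k) - 2 k t_y - NE (S y) - 4 k (s + 1) - NE (points) ≤ 2 Σ misses` -/
theorem CSys.row_pairs_ne (hF : PFrame G r m t Z T) (hP : PG G r) {A : Finset V}
    {S : V → Finset V} (h : CSys G Z T hm A S) {y : V} (hy : y ∈ A) {K : Finset ι} {p q : ι → V}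
    (hK : Prs K p q (S y)) :
    2 * ((r : ℤ) - 1) * (((S y).card : ℤ) - r + K.card)
        - 2 * (K.card : ℤ) * ((r : ℤ) - 1 - (CP G Z T S y).card) - NE G (S y)
        - 4 * (K.card : ℤ) * (((S y).card : ℤ) - r + 1) - NE G (pts K p q)
      ≤ 2 * ∑ e ∈ K, ((rst G (CP G Z T S y) (p e) (q e)).card : ℤ) := by
  have h1 := h.row_load hF hP hy hK.disj (k := fun c => (K.card : ℤ) - umis G K p q c)
    (fun c _ => by
      have := pairs_seen (G := G) hK c
      have h2 : (K.card : ℤ) ≤ dg G (pts K p q) c + umis G K p q c := by exact_mod_cast this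
      linarith)
  have h3 : (0 : ℤ) ≤ ∑ v ∈ pts K p q, (dg G (HP G Z T S y) v : ℤ) :=
    sum_nonneg fun v _ => by positivity
  have h4 : ∑ c ∈ CP G Z T S y, (umis G K p q c : ℤ)
      = ∑ e ∈ K, ((rst G (CP G Z T S y) (p e) (q e)).card : ℤ) := by
    exact_mod_cast sum_umis (G := G) (CP G Z T S y) K p q
  rw [sum_sub_distrib, sum_const, nsmul_eq_mul, h4, hK.card_pts] at h1
  push_cast at h1
  nlinarith

/-- **(T_z)** with the trivial bound for the missing pairs among the points -/
theorem CSys.row_pairs (hF : PFrame G r m t Z T) (hP : PG G r) {A : Finset V}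
    {S : V → Finset V} (h : CSys G Z T hm A S) {y : V} (hy : y ∈ A) {K : Finset ι} {p q : ι → V}
    (hK : Prs K p q (S y)) :
    2 * ((r : ℤ) - 1) * (((S y).card : ℤ) - r + K.card)
        - 2 * (K.card : ℤ) * ((r : ℤ) - 1 - (CP G Z T S y).card) - NE G (S y)
        - 2 * (K.card : ℤ) * (2 * (((S y).card : ℤ) - r + K.card) + 1)
      ≤ 2 * ∑ e ∈ K, ((rst G (CP G Z T S y) (p e) (q e)).card : ℤ) := by
  have h1 := h.row_pairs_ne hF hP hy hK
  have h2 := NE_le_self (G := G) (pts K p q)
  rw [hK.card_pts] at h2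
  push_cast at h2
  nlinarith

/-- **the B-slot test with prescribed loads** -/
theorem CSys.slots_load (hF : PFrame G r m t Z T) (hP : PG G r) {A : Finset V}
    {S : V → Finset V} (h : CSys G Z T hm A S) {B : Finset V} (hB : B ⊆ A) {Q : V → Finset V}
    (hQ : ∀ z ∈ B, Q z ⊆ (B.erase z).biUnion S) :
    2 * ((r : ℤ) - 1) * ∑ x ∈ B, (((S x).card : ℤ) - r)
      + 2 * ∑ z ∈ B, ∑ c ∈ CP G Z T S z, (dg G (Q z) c : ℤ)
      + ∑ x ∈ B, ∑ y ∈ B.erase x, ∑ v ∈ HP G Z T S y, (dg G (HP G Z T S x) v : ℤ)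
      ≤ ∑ x ∈ B, ∑ y ∈ B.erase x, (((r : ℤ) - 1) + (((S x).card : ℤ) - r + 1)
            * (((S y).card : ℤ) - r + 1))
        + ∑ x ∈ B, (NE G (S x) : ℤ)
        + ∑ x ∈ B, ∑ z ∈ B.erase x, (((Q z) ∩ CP G Z T S x).card : ℤ)
            * ((Q x) ∩ CP G Z T S z).card := by
  have h1 := h.star_B hF hP hB
  have h2 := dbl_count (G := G) (A := B) (C := CP G Z T S) (H := HP G Z T S) (Q := Q) (by
    intro z hz v hv
    obtain ⟨x, hx, hvx⟩ := mem_biUnion.1 (hQ z hz hv)
    refine mem_biUnion.2 ⟨x, hx, ?_⟩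
    rw [union_comm, CP_union_HP]
    exact hvx)
  linarith

/-- **the B-slot test with disjoint pairs** `K z` at every row `z ∈ B`, all points in the other slots
of `B`: `2 R σ + 2 Σ (c_z k_z - misses) ≤ Σ_(x ≠ y) (R + g_x g_y) + Σ NE + Σ_(x ≠ z) l_zx l_xz` -/
theorem CSys.slots_pairs (hF : PFrame G r m t Z T) (hP : PG G r) {A : Finset V}
    {S : V → Finset V} (h : CSys G Z T hm A S) {B : Finset V} (hB : B ⊆ A) {K : V → Finset ι}
    {p q : V → ι → V} (hK : ∀ z ∈ B, Prs (K z) (p z) (q z) (S z))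
    (hp : ∀ z ∈ B, ∀ e ∈ K z, ∃ x ∈ B, p z e ∈ S x) (hq : ∀ z ∈ B, ∀ e ∈ K z, ∃ x ∈ B, q z e ∈ S x) :
    2 * ((r : ℤ) - 1) * ∑ x ∈ B, (((S x).card : ℤ) - r)
      + 2 * ∑ z ∈ B, (((CP G Z T S z).card : ℤ) * (K z).card
          - ∑ e ∈ K z, ((rst G (CP G Z T S z) (p z e) (q z e)).card : ℤ))
      ≤ ∑ x ∈ B, ∑ y ∈ B.erase x, (((r : ℤ) - 1) + (((S x).card : ℤ) - r + 1)
            * (((S y).card : ℤ) - r + 1))
        + ∑ x ∈ B, (NE G (S x) : ℤ)
        + ∑ x ∈ B, ∑ z ∈ B.erase x, (((pts (K z) (p z) (q z)) ∩ CP G Z T S x).card : ℤ)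
            * ((pts (K x) (p x) (q x)) ∩ CP G Z T S z).card := by
  have h1 := h.slots_load hF hP hB (Q := fun z => pts (K z) (p z) (q z)) (by
    intro z hz v hv
    rcases mem_union.1 hv with h2 | h2
    · obtain ⟨e, he, rfl⟩ := mem_image.1 h2
      obtain ⟨x, hx, hxe⟩ := hp z hz e he
      refine mem_biUnion.2 ⟨x, mem_erase.2 ⟨?_, hx⟩, hxe⟩
      rintro rfl
      exact (hK x hz).dp e he hxe
    · obtain ⟨e, he, rfl⟩ := mem_image.1 h2
      obtain ⟨x, hx, hxe⟩ := hq z hz e he
      refine mem_biUnion.2 ⟨x, mem_erase.2 ⟨?_, hx⟩, hxe⟩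
      rintro rfl
      exact (hK x hz).dq e he hxe)
  have h2 : ∀ z ∈ B, (((CP G Z T S z).card : ℤ) * (K z).card
          - ∑ e ∈ K z, ((rst G (CP G Z T S z) (p z e) (q z e)).card : ℤ))
      ≤ ∑ c ∈ CP G Z T S z, (dg G (pts (K z) (p z) (q z)) c : ℤ) := by
    intro z hz
    have h3 : ∑ c ∈ CP G Z T S z, ((K z).card : ℤ)
        ≤ ∑ c ∈ CP G Z T S z, ((dg G (pts (K z) (p z) (q z)) c : ℤ)
          + umis G (K z) (p z) (q z) c) :=
      sum_le_sum fun c _ => by exact_mod_cast pairs_seen (G := G) (hK z hz) c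
    have h4 : ∑ c ∈ CP G Z T S z, (umis G (K z) (p z) (q z) c : ℤ)
        = ∑ e ∈ K z, ((rst G (CP G Z T S z) (p z e) (q z e)).card : ℤ) := by
      exact_mod_cast sum_umis (G := G) (CP G Z T S z) (K z) (p z) (q z)
    rw [sum_add_distrib, h4, sum_const, nsmul_eq_mul] at h3
    linarith
  have h3 : (0 : ℤ) ≤ ∑ x ∈ B, ∑ y ∈ B.erase x, ∑ v ∈ HP G Z T S y,
      (dg G (HP G Z T S x) v : ℤ) :=
    sum_nonneg fun x _ => sum_nonneg fun y _ => sum_nonneg fun v _ => by positivity
  have h4 := sum_le_sum h2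
  linarith

end Row

section Arith

/-- **the misses of a half-served pair**: a complete rectangle `b β ≤ R + t_y t_z` in
`(R - t_y) × (R - t_z)` has `b + β ≤ R + 1` if `t_y + t_z + 1 ≤ R` -/
lemma half_sum_le {R b β ty tz : ℤ} (hty : 0 ≤ ty) (htz : 0 ≤ tz) (hb : b ≤ R - ty)
    (hβ : β ≤ R - tz) (hK : b * β ≤ R + ty * tz) (hR : ty + tz + 1 ≤ R) : b + β ≤ R + 1 := by
  by_contra hcon
  have h1 : 0 ≤ (R - ty - b) * (R - tz - β) := mul_nonneg (by linarith) (by linarith)
  have h2 : 0 ≤ (R - ty - b) * tz := mul_nonneg (by linarith) htz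
  have h3 : 0 ≤ (R - tz - β) * ty := mul_nonneg (by linarith) hty
  have h4 : R + 2 ≤ b + β := by omega
  have h5 : 0 ≤ (b + β - (R + 2)) * R := mul_nonneg (by linarith) (by linarith)
  nlinarith

end Arith

end Pool.Agent.Lib.MP_f04ccf_co
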