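import Pool.Agent.Lib.MP_f04ccf_co.M.Tail

/-!
MP_f04ccf_co: complete rectangles of two class parts (notes 16202, 16238).  `CSys.cells_le`: property
(P) of slope 1 on two class parts, at most `R + t t'` adjacent cells.  `CSys.rect_le`: a rectangle
`X × Y` of adjacent cells has `|X| |Y| ≤ R + t t'`.  `rect_min`: its shorter side is at most a square
root.  `CSys.sides_le`: the two sides together are at most `R + 1`.  `CSys.rest_mul`,
`CSys.rest_add`: both for the two rests of a half-served pair.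
-/

set_option autoImplicit false

namespace Pool.Agent.Lib.MP_f04ccf_co

open Finset

attribute [local instance] Classical.propDecidable

section Rect

variable {V : Type*} {G : SimpleGraph V} {Z T : Finset V} {hm : V → V} {r m t : ℕ}
  {A : Finset V} {S : V → Finset V}

/-- at most `R + t t'` adjacent cells of two class parts -/
theorem CSys.cells_le (hF : PFrame G r m t Z T) (hP : PG G r) (h : CSys G Z T hm A S) {x z : V}
    (hx : x ∈ A) (hz : z ∈ A) (hxz : x ≠ z) :
    ∑ a ∈ CP G Z T S x, (dg G (CP G Z T S z) a : ℤ)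
      ≤ (r : ℤ) - 1 + ((r : ℤ) - 1 - (CP G Z T S x).card) * ((r : ℤ) - 1 - (CP G Z T S z).card) := by
  have h1 := h.pair_num hF hP hx hz hxz (K := ∅) (disjoint_empty_right _) (disjoint_empty_right _)
  have h2 : NE G (∅ : Finset V) = 0 := by simp [NE]
  rw [h2, card_empty, sum_empty] at h1
  push_cast at h1
  linarith

/-- **complete rectangles**: `|X| |Y| ≤ R + t t'` -/
theorem CSys.rect_le (hF : PFrame G r m t Z T) (hP : PG G r) (h : CSys G Z T hm A S) {x z : V}
    (hx : x ∈ A) (hz : z ∈ A) (hxz : x ≠ z) {X Y : Finset V} (hX : X ⊆ CP G Z T S x)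
    (hY : Y ⊆ CP G Z T S z) (hXY : ∀ a ∈ X, ∀ b ∈ Y, G.Adj a b) :
    (X.card : ℤ) * Y.card
      ≤ (r : ℤ) - 1 + ((r : ℤ) - 1 - (CP G Z T S x).card) * ((r : ℤ) - 1 - (CP G Z T S z).card) := by
  have h1 := h.cells_le hF hP hx hz hxz
  have h2 := cells_ge (G := G) (C := CP G Z T S x) (D := CP G Z T S z) (U := X ×ˢ Y) (fun p hp => by
    obtain ⟨a, b⟩ := mem_product.1 hp
    exact ⟨hX a, hY b, hXY _ a _ b⟩)
  rw [card_product] at h2
  have h3 : ((X.card : ℤ) * Y.card) ≤ ∑ a ∈ CP G Z T S x, (dg G (CP G Z T S z) a : ℤ) := by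
    exact_mod_cast h2
  linarith

/-- the shorter side of a rectangle -/
lemma rect_min {a b N : ℤ} (ha : 0 ≤ a) (hb : 0 ≤ b) (h : a * b ≤ N) : min a b * min a b ≤ N := by
  rcases le_total a b with h1 | h1
  · rw [min_eq_left h1]
    nlinarith
  · rw [min_eq_right h1]
    nlinarith

/-- a number whose square is at most `N` is at most the integer square root of `N` -/
lemma rect_sqrt {a b N : ℕ} (h : a * b ≤ N) : min a b ≤ N.sqrt := by
  rw [Nat.le_sqrt]
  rcases le_total a b with h1 | h1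
  · rw [min_eq_left h1]
    exact (Nat.mul_le_mul_left _ h1).trans h
  · rw [min_eq_right h1]
    exact (Nat.mul_le_mul_right _ h1).trans h

/-- the sides of a rectangle with `a b ≤ R + t t'`, `a ≤ R - t`, `b ≤ R - t'` have `a + b ≤ R + 1` -/
lemma sides_arith {a b R t u : ℤ} (ha1 : 1 ≤ a) (ht : 0 ≤ t) (hu : 0 ≤ u)
    (ha : a ≤ R - t) (hb : b ≤ R - u) (h : a * b ≤ R + t * u) :
    a + b ≤ R + 1 := by
  by_contra hcon
  push Not at hcon
  -- `(R - t - a) (R - u - b) ≥ 0` is not enough: use `(a - 1 - u) (b - 1 - t)`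
  have h1 : 0 ≤ R - t - a := by linarith
  have h2 : 0 ≤ R - u - b := by linarith
  have h3 : R + 2 ≤ a + b := by linarith
  -- with `b = R + 2 - a + d`
  obtain ⟨d, hd⟩ : ∃ d, a + b = R + 2 + d := ⟨a + b - R - 2, by ring⟩
  have hd0 : 0 ≤ d := by linarith
  -- `a ≥ u + 2 + d`, `b ≥ t + 2 + d`
  have ha2 : u + 2 + d ≤ a := by linarith
  have hb2 : t + 2 + d ≤ b := by linarith
  -- `(a - u - 2 - d) (R - t - a) ≥ 0`
  have h4 := mul_nonneg (sub_nonneg.2 ha2) h1
  have h5 : b = R + 2 + d - a := by linarith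
  rw [h5] at h
  nlinarith

/-- the two sides of a complete rectangle have together at most `R + 1` points -/
theorem CSys.sides_le (hF : PFrame G r m t Z T) (hP : PG G r) (h : CSys G Z T hm A S) {x z : V}
    (hx : x ∈ A) (hz : z ∈ A) (hxz : x ≠ z) {X Y : Finset V} (hX : X ⊆ CP G Z T S x)
    (hY : Y ⊆ CP G Z T S z) (hXY : ∀ a ∈ X, ∀ b ∈ Y, G.Adj a b)
    (hx1 : (CP G Z T S x).card + 1 ≤ r) (hz1 : (CP G Z T S z).card + 1 ≤ r) :
    (X.card : ℤ) + Y.card ≤ r := by
  have h1 := h.rect_le hF hP hx hz hxz hX hY hXY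
  have h4 : (X.card : ℤ) ≤ (CP G Z T S x).card := by exact_mod_cast card_le_card hX
  have h5 : (Y.card : ℤ) ≤ (CP G Z T S z).card := by exact_mod_cast card_le_card hY
  have h6 : ((CP G Z T S x).card : ℤ) + 1 ≤ r := by exact_mod_cast hx1
  have h7 : ((CP G Z T S z).card : ℤ) + 1 ≤ r := by exact_mod_cast hz1
  rcases X.eq_empty_or_nonempty with hX0 | hX0
  · rw [hX0, card_empty]
    push_cast
    linarith
  · have h2 : (1 : ℤ) ≤ X.card := by exact_mod_cast card_pos.2 hX0
    have h8 := sides_arith (a := X.card) (b := Y.card) (R := (r : ℤ) - 1)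
      (t := (r : ℤ) - 1 - (CP G Z T S x).card) (u := (r : ℤ) - 1 - (CP G Z T S z).card) h2
      (by linarith) (by linarith) (by linarith) (by linarith) h1
    linarith

/-- **the rests of a half-served pair** `p`, `q` with the far rows `y`, `z`: the points of the two
class parts which miss both ends are complete to each other -/
lemma PFrame.rest_adj (hF : PFrame G r m t Z T) {x y z p q : V} (hx : x ∈ T) (hy : y ∈ T)
    (hz : z ∈ T) (hyz : y ≠ z) (hp : p ∈ BB G Z T) (he : ends G T p = {x, y})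
    (hq : q ∈ BB G Z T) (he' : ends G T q = {x, z}) (hne : p ≠ q) (hpq : ¬ G.Adj p q) :
    ∀ a ∈ (CP G Z T S y).filter (fun c => ¬ G.Adj p c ∧ ¬ G.Adj q c),
      ∀ b ∈ (CP G Z T S z).filter (fun c => ¬ G.Adj p c ∧ ¬ G.Adj q c), G.Adj a b := by
  intro a ha b hb
  obtain ⟨ha1, ha2, ha3⟩ := mem_filter.1 ha
  obtain ⟨hb1, hb2, hb3⟩ := mem_filter.1 hb
  exact hF.half hy hz hyz hx hp he hq he' hne hpq (mem_CP.1 ha1).2 (mem_CP.1 hb1).2 ha2 ha3 hb2 hb3

/-- the product of the two rests -/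
theorem CSys.rest_mul (hF : PFrame G r m t Z T) (hP : PG G r) (h : CSys G Z T hm A S)
    {x y z p q : V} (hx : x ∈ T) (hy : y ∈ A) (hz : z ∈ A) (hyz : y ≠ z) (hp : p ∈ BB G Z T)
    (he : ends G T p = {x, y}) (hq : q ∈ BB G Z T) (he' : ends G T q = {x, z}) (hne : p ≠ q)
    (hpq : ¬ G.Adj p q) :
    ((((CP G Z T S y).filter fun c => ¬ G.Adj p c ∧ ¬ G.Adj q c).card : ℤ)
      * ((CP G Z T S z).filter fun c => ¬ G.Adj p c ∧ ¬ G.Adj q c).card)
      ≤ (r : ℤ) - 1 + ((r : ℤ) - 1 - (CP G Z T S y).card) * ((r : ℤ) - 1 - (CP G Z T S z).card) :=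
  h.rect_le hF hP hy hz hyz (filter_subset _ _) (filter_subset _ _)
    (hF.rest_adj hx (h.sub hy) (h.sub hz) hyz hp he hq he' hne hpq)

/-- **the sum of the two rests is at most `R + 1`** -/
theorem CSys.rest_add (hF : PFrame G r m t Z T) (hP : PG G r) (h : CSys G Z T hm A S)
    {x y z p q : V} (hx : x ∈ T) (hy : y ∈ A) (hz : z ∈ A) (hyz : y ≠ z) (hp : p ∈ BB G Z T)
    (he : ends G T p = {x, y}) (hq : q ∈ BB G Z T) (he' : ends G T q = {x, z}) (hne : p ≠ q)
    (hpq : ¬ G.Adj p q) (hy1 : (CP G Z T S y).card + 1 ≤ r) (hz1 : (CP G Z T S z).card + 1 ≤ r) :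
    ((((CP G Z T S y).filter fun c => ¬ G.Adj p c ∧ ¬ G.Adj q c).card : ℤ)
      + ((CP G Z T S z).filter fun c => ¬ G.Adj p c ∧ ¬ G.Adj q c).card) ≤ r :=
  h.sides_le hF hP hy hz hyz (filter_subset _ _) (filter_subset _ _)
    (hF.rest_adj hx (h.sub hy) (h.sub hz) hyz hp he hq he' hne hpq) hy1 hz1

end Rect

end Pool.Agent.Lib.MP_f04ccf_co
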