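import Pool.Agent.Lib.MP_f04ccf_co.M.MatH
import Pool.Agent.Lib.MP_f04ccf_co.M.Rect
import Pool.Agent.Lib.MP_f04ccf_co.M.WgtS

/-!
MP_f04ccf_co, notes 16297, 16425, 16448: the MATCHING SYSTEM.  `CSys.tst`: property (P) with slope `|B|`
on the slots of `B` and a set `W` outside.  `Mtc`: a matching of the split graph of one host, `Rws`: the
rows of a unit, `MatG`: units of all hosts with their rows, `CSys.exists_mat`.  `MatG.pair`: the hits of
two hosts are at most `e(S_x, S_z)`.  `MatG.tst`, `MatG.row`: the tests with units outside `B`.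
-/

set_option autoImplicit false

namespace Pool.Agent.Lib.MP_f04ccf_co

open Finset

attribute [local instance] Classical.propDecidable

section Tst

variable {V : Type*} {G : SimpleGraph V} {Z T : Finset V} {hm : V → V} {r m t : ℕ}

/-- **the general test**: slope `|B|` on the slots of `B` and a set `W` outside them -/
theorem CSys.tst (hP : PG G r) {A : Finset V} {S : V → Finset V} (h : CSys G Z T hm A S)
    {B : Finset V} (hB : B ⊆ A) {W : Finset V} (hW : ∀ x ∈ B, Disjoint (S x) W) :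
    2 * ((r : ℤ) - B.card) * ∑ x ∈ B, (((S x).card : ℤ) - r)
      + ∑ x ∈ B, ∑ y ∈ B.erase x, ∑ v ∈ S y, (dg G (S x) v : ℤ)
      + ∑ x ∈ B, (((S x).card : ℤ) - r) ^ 2
      + 2 * ∑ x ∈ B, ∑ v ∈ W, (dg G (S x) v : ℤ)
      ≤ ∑ x ∈ B, (NE G (S x) : ℤ) + B.card * (B.card - 1) * r
        + (∑ x ∈ B, (((S x).card : ℤ) - r)) ^ 2
        + NE G W + 2 * W.card * (B.card + ∑ x ∈ B, (((S x).card : ℤ) - r)) := by
  have hd : ∀ x ∈ B, ∀ y ∈ B, x ≠ y → Disjoint (S x) (S y) := fun x hx y hy hxy =>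
    h.disj (hB hx) (hB hy) hxy
  have hNE := NE_biUnion (G := G) B S W hd hW
  have hdW : Disjoint W (B.biUnion S) := by
    rw [disjoint_biUnion_right]
    exact fun x hx => (hW x hx).symm
  have h1 := hP (W ∪ B.biUnion S) B.card
  have h2 := E_add_NE (G := G) (W ∪ B.biUnion S)
  have h3 : ((W ∪ B.biUnion S).card : ℤ) = W.card + ∑ x ∈ B, ((S x).card : ℤ) := by
    rw [card_union_of_disjoint hdW, card_biUnion hd]
    push_cast
    rfl
  have h4 := h.nd_cross hB fun _ => 1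
  simp only [one_mul] at h4
  have h5 : ∑ x ∈ B, ∑ v ∈ W, (nd G (S x) v : ℤ)
      = W.card * ∑ x ∈ B, ((S x).card : ℤ) - ∑ x ∈ B, ∑ v ∈ W, (dg G (S x) v : ℤ) := by
    rw [mul_sum, ← sum_sub_distrib]
    refine sum_congr rfl fun x hx => ?_
    rw [sum_dg_nd (hW x hx)]
  have hs : ∑ x ∈ B, ((S x).card : ℤ) = ∑ x ∈ B, (((S x).card : ℤ) - r) + B.card * r := by
    rw [sum_sub_distrib, sum_const, nsmul_eq_mul]
    ring
  have h6 : ∑ x ∈ B, ∑ y ∈ B.erase x, ((S x).card : ℤ) * (S y).card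
      = (∑ x ∈ B, ((S x).card : ℤ)) ^ 2 - ∑ x ∈ B, ((S x).card : ℤ) ^ 2 := by
    rw [sum_offdiag B fun x y => ((S x).card : ℤ) * (S y).card, sq (∑ x ∈ B, _), sum_mul_sum]
    congr 1
    exact sum_congr rfl fun x _ => by ring
  have h7 : ∑ x ∈ B, ((S x).card : ℤ) ^ 2 = ∑ x ∈ B, (((S x).card : ℤ) - r) ^ 2
      + 2 * r * ∑ x ∈ B, (((S x).card : ℤ) - r) + B.card * r ^ 2 := by
    have h5 : ∀ x ∈ B, ((S x).card : ℤ) ^ 2 = (((S x).card : ℤ) - r) ^ 2
        + 2 * r * (((S x).card : ℤ) - r) + (r : ℤ) ^ 2 := fun x _ => by ring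
    rw [sum_congr rfl h5, sum_add_distrib, sum_add_distrib, ← mul_sum, sum_const, nsmul_eq_mul]
  rw [h4, h5, h6, h7] at hNE
  rw [h3] at h1 h2
  rw [hs] at h1 h2 hNE
  generalize ∑ x ∈ B, (((S x).card : ℤ) - r) = σ at *
  generalize ∑ x ∈ B, ∑ y ∈ B.erase x, ∑ v ∈ S y, (dg G (S x) v : ℤ) = e at *
  generalize ∑ x ∈ B, ∑ v ∈ W, (dg G (S x) v : ℤ) = d at *
  generalize ∑ x ∈ B, (((S x).card : ℤ) - r) ^ 2 = q at *
  generalize ∑ x ∈ B, (NE G (S x) : ℤ) = ne at *
  generalize (NE G (W ∪ B.biUnion S) : ℤ) = N at *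
  generalize (E G (W ∪ B.biUnion S) : ℤ) = E' at *
  generalize (NE G W : ℤ) = nw at *
  generalize (W.card : ℤ) = w at *
  generalize (B.card : ℤ) = b at *
  generalize (r : ℤ) = ρ at *
  nlinarith

end Tst

section Mat

variable {ι V : Type*} {G F : SimpleGraph V}

/-- a matching of the split graph of the host `x` -/
structure Mtc (F : SimpleGraph V) (C H : ι → Finset V) (tl : V → ι) (x : ι)
    (M : Finset (V × V)) : Prop where
  p_mem : ∀ e ∈ M, e.1 ∈ H x
  q_mem : ∀ e ∈ M, e.2 ∈ H x ∨ e.2 ∈ C x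
  adj : ∀ e ∈ M, F.Adj e.1 e.2
  inj1 : ∀ e ∈ M, ∀ f ∈ M, e.1 = f.1 → e = f
  ne : ∀ e ∈ M, ∀ f ∈ M, e.1 ≠ f.2
  inj2 : ∀ e ∈ M, ∀ f ∈ M, e.2 = f.2 → e = f ∨ (e.2 ∈ C x ∧ tl e.1 ≠ tl f.1)

/-- `y`, `z` are the rows of the unit `e` of the host `x` -/
structure Rws (G : SimpleGraph V) (A : Finset ι) (C H : ι → Finset V) (tl : V → ι) (x : ι)
    (e : V × V) (y z : ι) : Prop where
  ya : y ∈ A.erase x
  za : z ∈ A.erase x
  full : y = z → rst G (C y) e.1 e.2 = ∅
  pc : e.2 ∈ C x → y = z ∧ y = tl e.1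
  half : y ≠ z → y = tl e.1 ∧ z = tl e.2 ∧ e.2 ∈ H x ∧
    ∀ c ∈ rst G (C y) e.1 e.2, ∀ d ∈ rst G (C z) e.1 e.2, G.Adj c d

/-- every missing pair has rows -/
theorem WSys.exists_rws {A : Finset ι} {C H : ι → Finset V} {tl : V → ι}
    (h : WSys G F A C H tl) {x : ι} (hx : x ∈ A) {e : V × V} (hp : e.1 ∈ H x)
    (hq : e.2 ∈ H x ∨ e.2 ∈ C x) (he : F.Adj e.1 e.2) : ∃ y z, Rws G A C H tl x e y z := by
  by_cases hc : e.2 ∈ C x
  · obtain ⟨h1, h2⟩ := h.pc x hx e.1 hp e.2 hc he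
    refine ⟨tl e.1, tl e.1, h1, h1, fun _ => ?_, fun _ => ⟨rfl, rfl⟩, fun h3 => absurd rfl h3⟩
    unfold rst
    rw [filter_eq_empty_iff]
    intro c hc' h3
    rcases h2 c hc' with h4 | h4
    · exact h3.1 h4
    · exact h3.2 h4
  · have hq' : e.2 ∈ H x := hq.resolve_right hc
    rcases h.pp x hx e.1 hp e.2 hq' he with ⟨y, hy, h1⟩ | ⟨h1, h2, h3⟩
    · refine ⟨y, y, hy, hy, fun _ => ?_, fun h2 => absurd h2 hc, fun h3 => absurd rfl h3⟩
      unfold rst
      rw [filter_eq_empty_iff]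
      intro c hc' h3
      rcases h1 c hc' with h4 | h4
      · exact h3.1 h4
      · exact h3.2 h4
    · refine ⟨tl e.1, tl e.2, h1, h2, fun h4 => absurd h4 h3, fun h4 => absurd h4 hc,
        fun _ => ⟨rfl, rfl, hq', ?_⟩⟩
      intro c hc' d hd'
      obtain ⟨a1, a2, a3⟩ := mem_filter.1 hc'
      obtain ⟨b1, b2, b3⟩ := mem_filter.1 hd'
      exact h.half x hx e.1 hp e.2 hq' he h1 h2 h3 c a1 d b1 a2 a3 b2 b3

/-- the units of all hosts with their rows -/
structure MatG (G F : SimpleGraph V) (A : Finset ι) (C H : ι → Finset V) (tl : V → ι)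
    (M : ι → Finset (V × V)) (ra rb : V × V → ι) : Prop where
  mtc : ∀ x ∈ A, Mtc F C H tl x (M x)
  rws : ∀ x ∈ A, ∀ e ∈ M x, Rws G A C H tl x e (ra e) (rb e)

/-- rows can be chosen -/
theorem WSys.exists_mat {A : Finset ι} {C H : ι → Finset V} {tl : V → ι}
    (h : WSys G F A C H tl) (hA : A.Nonempty) {M : ι → Finset (V × V)}
    (hM : ∀ x ∈ A, Mtc F C H tl x (M x)) : ∃ ra rb : V × V → ι, MatG G F A C H tl M ra rb := by
  have key : ∀ e : V × V, ∃ yz : ι × ι, ∀ x ∈ A, e ∈ M x → Rws G A C H tl x e yz.1 yz.2 := by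
    intro e
    by_cases hc : ∃ x ∈ A, e ∈ M x
    · obtain ⟨x, hx, hex⟩ := hc
      obtain ⟨y, z, h1⟩ := h.exists_rws hx ((hM x hx).p_mem e hex) ((hM x hx).q_mem e hex)
        ((hM x hx).adj e hex)
      refine ⟨(y, z), fun x' hx' hex' => ?_⟩
      have h2 : x' = x := by
        by_contra h3
        exact disjoint_left.1 (h.dHH x' hx' x hx h3) ((hM x' hx').p_mem e hex')
          ((hM x hx).p_mem e hex)
      rw [h2]
      exact h1
    · obtain ⟨x0, -⟩ := hA
      exact ⟨(x0, x0), fun x hx hex => absurd ⟨x, hx, hex⟩ hc⟩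
  choose f hf using key
  exact ⟨fun e => (f e).1, fun e => (f e).2, hM, fun x hx e he => hf e x hx he⟩

namespace MatG

variable {A : Finset ι} {C H : ι → Finset V} {tl : V → ι} {M : ι → Finset (V × V)}
  {ra rb : V × V → ι}

/-- the unit `e` is served at the row `z` -/
def at' (ra rb : V × V → ι) (z : ι) (e : V × V) : Prop := z = ra e ∨ z = rb e

/-- hosts of units with a common point are equal -/
lemma host_eq (hW : WSys G F A C H tl) (h : MatG G F A C H tl M ra rb) {x x' : ι} (hx : x ∈ A)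
    (hx' : x' ∈ A) {v : V} (hv : v ∈ H x ∨ v ∈ C x) (hv' : v ∈ H x' ∨ v ∈ C x') : x = x' := by
  by_contra hne
  rcases hv with h1 | h1 <;> rcases hv' with h2 | h2
  · exact disjoint_left.1 (hW.dHH x hx x' hx' hne) h1 h2
  · exact disjoint_left.1 (hW.dHC x hx x' hx') h1 h2
  · exact disjoint_left.1 (hW.dHC x' hx' x hx) h2 h1
  · exact disjoint_left.1 (hW.dCC x hx x' hx' hne) h1 h2

/-- the units at one row have different points -/
theorem dst (hW : WSys G F A C H tl) (h : MatG G F A C H tl M ra rb) {B : Finset ι}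
    (hB : B ⊆ A) {z : ι} {K : Finset (V × V)} (hK : K ⊆ B.biUnion M)
    (hz : ∀ e ∈ K, at' ra rb z e) : Dst K Prod.fst Prod.snd := by
  have key : ∀ e ∈ K, ∃ x ∈ A, e ∈ M x := fun e he => by
    obtain ⟨x, hx, hex⟩ := mem_biUnion.1 (hK he)
    exact ⟨x, hB hx, hex⟩
  refine ⟨?_, ?_, ?_⟩
  · intro e he f hf hef
    obtain ⟨x, hx, hex⟩ := key e (by exact_mod_cast he)
    obtain ⟨y, hy, hfy⟩ := key f (by exact_mod_cast hf)
    have h1 : x = y := h.host_eq hW hx hy (Or.inl ((h.mtc x hx).p_mem e hex))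
      (by rw [hef]; exact Or.inl ((h.mtc y hy).p_mem f hfy))
    subst h1
    exact (h.mtc x hx).inj1 e hex f hfy hef
  · intro e he f hf hef
    obtain ⟨x, hx, hex⟩ := key e (by exact_mod_cast he)
    obtain ⟨y, hy, hfy⟩ := key f (by exact_mod_cast hf)
    have h1 : x = y := h.host_eq hW hx hy ((h.mtc x hx).q_mem e hex)
      (by rw [hef]; exact (h.mtc y hy).q_mem f hfy)
    subst h1
    rcases (h.mtc x hx).inj2 e hex f hfy hef with h2 | ⟨h2, h3⟩
    · exact h2
    · exfalso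
      obtain ⟨a1, a2⟩ := (h.rws x hx e hex).pc h2
      obtain ⟨b1, b2⟩ := (h.rws x hx f hfy).pc (hef ▸ h2)
      have h4 : z = tl e.1 := by
        rcases hz e (by exact_mod_cast he) with h5 | h5
        · rw [h5, a2]
        · rw [h5, ← a1, a2]
      have h5 : z = tl f.1 := by
        rcases hz f (by exact_mod_cast hf) with h5 | h5
        · rw [h5, b2]
        · rw [h5, ← b1, b2]
      exact h3 (h4.symm.trans h5)
  · intro e he f hf hef
    obtain ⟨x, hx, hex⟩ := key e he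
    obtain ⟨y, hy, hfy⟩ := key f hf
    have h1 : x = y := h.host_eq hW hx hy (Or.inl ((h.mtc x hx).p_mem e hex))
      (by rw [hef]; exact (h.mtc y hy).q_mem f hfy)
    subst h1
    exact (h.mtc x hx).ne e hex f hfy hef

end MatG

/-- the hits of the columns of the row `z` on the unit `e` -/
noncomputable def hit (G : SimpleGraph V) (C : ι → Finset V) (ra rb : V × V → ι) (z : ι)
    (e : V × V) : ℤ :=
  if z = ra e ∨ z = rb e then ((C z).card : ℤ) - (rst G (C z) e.1 e.2).card else 0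

lemma hit_nonneg {C : ι → Finset V} {ra rb : V × V → ι} (z : ι) (e : V × V) :
    0 ≤ hit G C ra rb z e := by
  unfold hit
  split_ifs
  · have : ((rst G (C z) e.1 e.2).card : ℤ) ≤ (C z).card := by
      exact_mod_cast card_le_card (filter_subset _ _)
    linarith
  · exact le_refl _

lemma sum_hit {C : ι → Finset V} {ra rb : V × V → ι} (z : ι) (K : Finset (V × V)) :
    ∑ e ∈ K, hit G C ra rb z e
      = ∑ e ∈ K.filter (fun e => z = ra e ∨ z = rb e),
        (((C z).card : ℤ) - (rst G (C z) e.1 e.2).card) := by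
  unfold hit
  rw [sum_filter]

end Mat

section MatC

variable {V : Type*} {G : SimpleGraph V} {Z T : Finset V} {hm : V → V} {r m t : ℕ}
  {A : Finset V} {S : V → Finset V} {M : V → Finset (V × V)} {ra rb : V × V → V}

/-- **the hits of two hosts at each other's rows** -/
theorem MatG.pair (hW : WSys G (co G) A (CP G Z T S) (HP G Z T S) (tlo G T hm))
    (h : MatG G (co G) A (CP G Z T S) (HP G Z T S) (tlo G T hm) M ra rb)
    {x z : V} (hx : x ∈ A) (hz : z ∈ A) (hxz : x ≠ z) :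
    ∑ e ∈ M x, hit G (CP G Z T S) ra rb z e + ∑ e ∈ M z, hit G (CP G Z T S) ra rb x e
      ≤ ∑ v ∈ S z, (dg G (S x) v : ℤ) := by
  have key : ∀ x ∈ A, ∀ z ∈ A, Dst ((M x).filter fun e => z = ra e ∨ z = rb e)
      Prod.fst Prod.snd ∧
      (∀ e ∈ (M x).filter (fun e => z = ra e ∨ z = rb e), e.1 ∈ HP G Z T S x) ∧
      ∀ e ∈ (M x).filter (fun e => z = ra e ∨ z = rb e), e.2 ∈ HP G Z T S x ∨
        (e.2 ∈ CP G Z T S x ∧ (co G).Adj e.1 e.2 ∧ tlo G T hm e.1 = z) := by
    intro x hx z hz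
    refine ⟨h.dst hW (B := {x}) (by simpa using hx) (z := z) (by
      rw [singleton_biUnion]
      exact filter_subset _ _) (fun e he => (mem_filter.1 he).2),
      fun e he => (h.mtc x hx).p_mem e (mem_filter.1 he).1, fun e he => ?_⟩
    obtain ⟨he1, he2⟩ := mem_filter.1 he
    rcases (h.mtc x hx).q_mem e he1 with h1 | h1
    · exact Or.inl h1
    · right
      obtain ⟨a1, a2⟩ := (h.rws x hx e he1).pc h1
      refine ⟨h1, (h.mtc x hx).adj e he1, ?_⟩
      rcases he2 with h2 | h2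
      · rw [h2, a2]
      · rw [h2, ← a1, a2]
  obtain ⟨k1, k2, k3⟩ := key x hx z hz
  obtain ⟨l1, l2, l3⟩ := key z hz x hx
  have h1 := hW.pair_hits hx hz hxz k1 l1 k2 l2 k3 l3
  rw [sum_hit, sum_hit, sum_dg_slots (G := G) (Z := Z) (T := T) (S := S) x z]
  rw [card_eds_eq, card_eds_eq, card_eds_eq, card_eds_eq] at h1
  have h2 : ∑ v ∈ CP G Z T S x, (dg G (CP G Z T S z) v : ℤ)
      = ∑ v ∈ CP G Z T S z, (dg G (CP G Z T S x) v : ℤ) := by
    have := dg_comm G (CP G Z T S z) (CP G Z T S x)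
    exact_mod_cast this.symm
  have h3 : ∑ v ∈ HP G Z T S x, (dg G (HP G Z T S z) v : ℤ)
      = ∑ v ∈ HP G Z T S z, (dg G (HP G Z T S x) v : ℤ) := by
    have := dg_comm G (HP G Z T S z) (HP G Z T S x)
    exact_mod_cast this.symm
  rw [h2, h3] at h1
  linarith

/-- the number of points of the units -/
lemma card_pts_le {κ : Type*} (K : Finset κ) (p q : κ → V) : (pts K p q).card ≤ 2 * K.card := by
  unfold pts
  refine (card_union_le _ _).trans ?_
  have h1 := card_image_le (s := K) (f := p)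
  have h2 := card_image_le (s := K) (f := q)
  omega

/-- the hits of the row `z` on all points of the units -/
lemma MatG.hits_le (hW : WSys G (co G) A (CP G Z T S) (HP G Z T S) (tlo G T hm))
    (h : MatG G (co G) A (CP G Z T S) (HP G Z T S) (tlo G T hm) M ra rb)
    {D : Finset V} (hD : D ⊆ A) {K : Finset (V × V)} (hK : K ⊆ D.biUnion M) {z : V} :
    ∑ e ∈ K, hit G (CP G Z T S) ra rb z e
      ≤ ∑ v ∈ pts K Prod.fst Prod.snd, (dg G (S z) v : ℤ) := by
  rw [sum_hit]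
  set K' := K.filter fun e => z = ra e ∨ z = rb e with hK'
  have hdst : Dst K' Prod.fst Prod.snd := h.dst hW hD (z := z) ((filter_subset _ _).trans hK)
    fun e he => (mem_filter.1 he).2
  have hprs : Prs K' (Prod.fst : V × V → V) Prod.snd (∅ : Finset V) :=
    ⟨hdst.ip, hdst.iq, hdst.ne, fun _ _ => notMem_empty _, fun _ _ => notMem_empty _⟩
  have h1 : ∑ e ∈ K', (((CP G Z T S z).card : ℤ) - (rst G (CP G Z T S z) e.1 e.2).card)
      ≤ ∑ c ∈ CP G Z T S z, (dg G (pts K' Prod.fst Prod.snd) c : ℤ) := by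
    have h2 : ∑ c ∈ CP G Z T S z, ((K'.card : ℤ))
        ≤ ∑ c ∈ CP G Z T S z, ((dg G (pts K' Prod.fst Prod.snd) c : ℤ)
          + umis G K' Prod.fst Prod.snd c) :=
      sum_le_sum fun c _ => by exact_mod_cast pairs_seen (G := G) hprs c
    have h3 : ∑ c ∈ CP G Z T S z, (umis G K' Prod.fst Prod.snd c : ℤ)
        = ∑ e ∈ K', ((rst G (CP G Z T S z) e.1 e.2).card : ℤ) := by
      exact_mod_cast sum_umis (G := G) (CP G Z T S z) K' Prod.fst Prod.snd
    rw [sum_add_distrib, h3, sum_const, nsmul_eq_mul] at h2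
    rw [sum_sub_distrib, sum_const, nsmul_eq_mul]
    linarith
  have h4 : pts K' Prod.fst Prod.snd ⊆ pts K (Prod.fst : V × V → V) Prod.snd := by
    unfold pts
    exact union_subset_union (image_subset_image (filter_subset _ _))
      (image_subset_image (filter_subset _ _))
  have h5 : ∀ c : V, (dg G (pts K' Prod.fst Prod.snd) c : ℤ)
      ≤ dg G (pts K (Prod.fst : V × V → V) Prod.snd) c := by
    intro c
    unfold dg
    exact_mod_cast card_le_card (filter_subset_filter _ h4)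
  have h6 : ∑ c ∈ CP G Z T S z, (dg G (pts K (Prod.fst : V × V → V) Prod.snd) c : ℤ)
      = ∑ v ∈ pts K (Prod.fst : V × V → V) Prod.snd, (dg G (CP G Z T S z) v : ℤ) := by
    have := dg_comm G (CP G Z T S z) (pts K (Prod.fst : V × V → V) Prod.snd)
    exact_mod_cast this
  have h7 : ∑ v ∈ pts K (Prod.fst : V × V → V) Prod.snd, (dg G (CP G Z T S z) v : ℤ)
      ≤ ∑ v ∈ pts K (Prod.fst : V × V → V) Prod.snd, (dg G (S z) v : ℤ) := by
    refine sum_le_sum fun v _ => ?_
    unfold dg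
    exact_mod_cast card_le_card (filter_subset_filter _ (by
      intro c hc
      exact (mem_CP.1 hc).1))
  have h8 := sum_le_sum fun c (_ : c ∈ CP G Z T S z) => h5 c
  linarith

/-- **the tests with units outside `B`** (note 16425), missing pairs of the points kept -/
theorem MatG.tst_ne (hP : PG G r) (hC : CSys G Z T hm A S)
    (hW : WSys G (co G) A (CP G Z T S) (HP G Z T S) (tlo G T hm))
    (h : MatG G (co G) A (CP G Z T S) (HP G Z T S) (tlo G T hm) M ra rb)
    {B : Finset V} (hB : B ⊆ A) {K : Finset (V × V)} (hK : K ⊆ (A \ B).biUnion M) :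
    2 * ((r : ℤ) - B.card) * ∑ x ∈ B, (((S x).card : ℤ) - r)
      + ∑ x ∈ B, ∑ y ∈ B.erase x, ∑ v ∈ S y, (dg G (S x) v : ℤ)
      + ∑ x ∈ B, (((S x).card : ℤ) - r) ^ 2
      + 2 * ∑ e ∈ K, ∑ z ∈ B, hit G (CP G Z T S) ra rb z e
      ≤ ∑ x ∈ B, (NE G (S x) : ℤ) + B.card * (B.card - 1) * r
        + (∑ x ∈ B, (((S x).card : ℤ) - r)) ^ 2
        + NE G (pts K (Prod.fst : V × V → V) Prod.snd)
        + 2 * (pts K (Prod.fst : V × V → V) Prod.snd).card
          * (B.card + ∑ x ∈ B, (((S x).card : ℤ) - r)) := by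
  have h1 := hC.tst hP hB (W := pts K (Prod.fst : V × V → V) Prod.snd) (by
    intro x hx
    rw [disjoint_left]
    intro v hv hv'
    have key : ∀ e ∈ K, ∀ u, (u = e.1 ∨ u = e.2) → u ∉ S x := by
      intro e he u hu hux
      obtain ⟨y, hy, hey⟩ := mem_biUnion.1 (hK he)
      obtain ⟨hyA, hyB⟩ := mem_sdiff.1 hy
      have hxy : x ≠ y := fun hxy => hyB (hxy ▸ hx)
      have h2 : u ∈ S y := by
        rcases hu with rfl | rfl
        · exact (mem_HP.1 ((h.mtc y hyA).p_mem e hey)).1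
        · rcases (h.mtc y hyA).q_mem e hey with h3 | h3
          · exact (mem_HP.1 h3).1
          · exact (mem_CP.1 h3).1
      exact disjoint_left.1 (hC.disj (hB hx) hyA hxy) hux h2
    rcases mem_union.1 hv' with h2 | h2
    · obtain ⟨e, he, rfl⟩ := mem_image.1 h2
      exact key e he _ (Or.inl rfl) hv
    · obtain ⟨e, he, rfl⟩ := mem_image.1 h2
      exact key e he _ (Or.inr rfl) hv)
  have h2 : ∑ e ∈ K, ∑ z ∈ B, hit G (CP G Z T S) ra rb z e
      ≤ ∑ z ∈ B, ∑ v ∈ pts K (Prod.fst : V × V → V) Prod.snd, (dg G (S z) v : ℤ) := by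
    rw [sum_comm]
    exact sum_le_sum fun z _ => h.hits_le hW sdiff_subset hK
  linarith

/-- **the tests with units outside `B`** -/
theorem MatG.tst (hP : PG G r) (hC : CSys G Z T hm A S)
    (hW : WSys G (co G) A (CP G Z T S) (HP G Z T S) (tlo G T hm))
    (h : MatG G (co G) A (CP G Z T S) (HP G Z T S) (tlo G T hm) M ra rb)
    {B : Finset V} (hB : B ⊆ A) {K : Finset (V × V)} (hK : K ⊆ (A \ B).biUnion M)
    (h0 : 0 ≤ (B.card : ℤ) + ∑ x ∈ B, (((S x).card : ℤ) - r) + K.card) :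
    2 * ((r : ℤ) - B.card) * ∑ x ∈ B, (((S x).card : ℤ) - r)
      + ∑ x ∈ B, ∑ y ∈ B.erase x, ∑ v ∈ S y, (dg G (S x) v : ℤ)
      + ∑ x ∈ B, (((S x).card : ℤ) - r) ^ 2
      + 2 * ∑ e ∈ K, ∑ z ∈ B, hit G (CP G Z T S) ra rb z e
      ≤ ∑ x ∈ B, (NE G (S x) : ℤ) + B.card * (B.card - 1) * r
        + (∑ x ∈ B, (((S x).card : ℤ) - r)) ^ 2
        + 4 * K.card * (B.card + ∑ x ∈ B, (((S x).card : ℤ) - r))
        + 2 * K.card * (2 * K.card - 1) := by
  have h1 := h.tst_ne hP hC hW hB hK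
  have h2 := NE_le_self (G := G) (pts K (Prod.fst : V × V → V) Prod.snd)
  have h3 := card_pts_le K (Prod.fst : V × V → V) Prod.snd
  have h4 : (((pts K (Prod.fst : V × V → V) Prod.snd).card : ℕ) : ℤ) ≤ 2 * K.card := by
    exact_mod_cast h3
  set w : ℤ := ((pts K (Prod.fst : V × V → V) Prod.snd).card : ℤ) with hw
  set σ : ℤ := ∑ x ∈ B, (((S x).card : ℤ) - r) with hσ
  have h5 : 0 ≤ (2 * (K.card : ℤ) - w) * (2 * ((B.card : ℤ) + σ) + 2 * K.card + w - 1) := by
    rcases K.eq_empty_or_nonempty with hK0 | hK0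
    · have e1 : w = 0 := by
        rw [hw, hK0]
        simp [pts]
      rw [e1, hK0]
      simp
    · have e1 : 1 ≤ w := by
        obtain ⟨e, he⟩ := hK0
        have : 0 < (pts K (Prod.fst : V × V → V) Prod.snd).card :=
          card_pos.2 ⟨e.1, mem_union_left _ (mem_image_of_mem _ he)⟩
        rw [hw]
        exact_mod_cast this
      exact mul_nonneg (by linarith) (by linarith)
  nlinarith

/-- **(T_z): the row test of units** (no side condition) -/
theorem MatG.row (hF : PFrame G r m t Z T) (hP : PG G r) (hC : CSys G Z T hm A S)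
    (hW : WSys G (co G) A (CP G Z T S) (HP G Z T S) (tlo G T hm))
    (h : MatG G (co G) A (CP G Z T S) (HP G Z T S) (tlo G T hm) M ra rb)
    {z : V} (hz : z ∈ A) {K : Finset (V × V)} (hK : K ⊆ (A.erase z).biUnion M)
    (hat : ∀ e ∈ K, z = ra e ∨ z = rb e) :
    2 * ((r : ℤ) - 1) * (((S z).card : ℤ) - r) + 2 * ∑ e ∈ K, hit G (CP G Z T S) ra rb z e
      ≤ NE G (S z) + 4 * (K.card : ℤ) * (((S z).card : ℤ) - r + 1)
        + 2 * K.card * (2 * K.card - 1) := by
  have hdst : Dst K Prod.fst Prod.snd := h.dst hW (erase_subset _ _) hK hat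
  have hprs : Prs K (Prod.fst : V × V → V) Prod.snd (S z) := by
    have key : ∀ e ∈ K, ∀ u, (u = e.1 ∨ u = e.2) → u ∉ S z := by
      intro e he u hu hux
      obtain ⟨y, hy, hey⟩ := mem_biUnion.1 (hK he)
      obtain ⟨hyz, hyA⟩ := mem_erase.1 hy
      have h2 : u ∈ S y := by
        rcases hu with rfl | rfl
        · exact (mem_HP.1 ((h.mtc y hyA).p_mem e hey)).1
        · rcases (h.mtc y hyA).q_mem e hey with h3 | h3
          · exact (mem_HP.1 h3).1
          · exact (mem_CP.1 h3).1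
      exact disjoint_left.1 (hC.disj hyA hz hyz) h2 hux
    exact ⟨hdst.ip, hdst.iq, hdst.ne, fun e he => key e he _ (Or.inl rfl),
      fun e he => key e he _ (Or.inr rfl)⟩
  have h1 := hC.row_pairs hF hP hz hprs
  have h2 : ∑ e ∈ K, hit G (CP G Z T S) ra rb z e
      = (K.card : ℤ) * (CP G Z T S z).card
        - ∑ e ∈ K, ((rst G (CP G Z T S z) e.1 e.2).card : ℤ) := by
    rw [sum_hit, filter_true_of_mem hat, sum_sub_distrib, sum_const, nsmul_eq_mul]
  rw [h2]
  nlinarith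

/-- the rests of a half-served unit: product and sum -/
theorem MatG.half_le (hF : PFrame G r m t Z T) (hP : PG G r) (hC : CSys G Z T hm A S)
    (h : MatG G (co G) A (CP G Z T S) (HP G Z T S) (tlo G T hm) M ra rb)
    (hc : ∀ y ∈ A, (CP G Z T S y).card + 1 ≤ r) {x : V} (hx : x ∈ A) {e : V × V} (he : e ∈ M x)
    (hne : ra e ≠ rb e) :
    ((rst G (CP G Z T S (ra e)) e.1 e.2).card : ℤ) * (rst G (CP G Z T S (rb e)) e.1 e.2).card
      ≤ (r : ℤ) - 1 + ((r : ℤ) - 1 - (CP G Z T S (ra e)).card)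
        * ((r : ℤ) - 1 - (CP G Z T S (rb e)).card) ∧
    ((rst G (CP G Z T S (ra e)) e.1 e.2).card : ℤ)
      + (rst G (CP G Z T S (rb e)) e.1 e.2).card ≤ r := by
  obtain ⟨h1, h2, h3, h4⟩ := (h.rws x hx e he).half hne
  have hy := mem_of_mem_erase (h.rws x hx e he).ya
  have hz := mem_of_mem_erase (h.rws x hx e he).za
  exact ⟨hC.rect_le hF hP hy hz hne (filter_subset _ _) (filter_subset _ _) h4,
    hC.sides_le hF hP hy hz hne (filter_subset _ _) (filter_subset _ _) h4 (hc _ hy) (hc _ hz)⟩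

end MatC

end Pool.Agent.Lib.MP_f04ccf_co
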