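import Pool.Agent.Lib.MP_f04ccf_co.M.MatU
import Pool.Agent.Lib.MP_f04ccf_co.M.CellK

/-!
MP_f04ccf_co, PLAN W, finite and middle range (notes 17190, 17210): **levels**.  A clique has at most two
members of one tail (`Fam.tlp_two`), so its load at a row is `0`, `1` or `2`; two members of the tail `z`
alone are a full unit at `z`.  An item with the load `ikp` at the row `z` can be used at every level
`1 ≤ g ≤ ikp` with exactly `g + 1` points, `xlv` the points outside, `ilm` the misses (none below the full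
load).  `Fam.row_lev`: the row test, `Fam.col_lev`: the row test with the columns of another row,
`Fam.cell_lev`: the cell test, all at any levels.
-/

set_option autoImplicit false

namespace Pool.Agent.Lib.MP_f04ccf_co

open Finset

attribute [local instance] Classical.propDecidable

section Lv

variable {ι V : Type*} {G F : SimpleGraph V}

/-- the points outside for the levels `g`: the best one at the full load, none below -/
noncomputable def xlv (G : SimpleGraph V) (C : ι → Finset V) (tl : V → ι) (z : ι)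
    (g : Itm V → ℕ) (Q : Finset V) : Finset V :=
  if ikp tl z (Sum.inl Q : Itm V) ≤ g (Sum.inl Q) then xmn G C tl z Q else ∅

lemma xlv_sub {C : ι → Finset V} {tl : V → ι} {z : ι} {g : Itm V → ℕ} {Q : Finset V} :
    xlv G C tl z g Q ⊆ oth tl z Q := by
  unfold xlv
  split_ifs
  · exact xmn_sub
  · exact empty_subset _

/-- the misses at the levels `g` -/
noncomputable def ilm (G : SimpleGraph V) (C : ι → Finset V) (tl : V → ι) (z : ι)
    (g : Itm V → ℕ) (u : Itm V) : ℕ :=
  if ikp tl z u ≤ g u then imn G C tl z u else 0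

lemma ilm_le {C : ι → Finset V} {tl : V → ι} {z : ι} {g : Itm V → ℕ} {u : Itm V} :
    ilm G C tl z g u ≤ imn G C tl z u := by
  unfold ilm
  split_ifs
  · exact le_rfl
  · exact Nat.zero_le _

end Lv

section LvF

variable {V : Type*} {G : SimpleGraph V} {Z T : Finset V} {hm : V → V} {r m t : ℕ}
  {A : Finset V} {S : V → Finset V} {U : V → Finset (Itm V)}

/-- **a clique has at most two members of one tail** -/
theorem Fam.tlp_two (hF : PFrame G r m t Z T) (hh : Homes G Z T hm) (hC : CSys G Z T hm A S)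
    {x : V} (hx : x ∈ A) {U : Finset (Itm V)}
    (h : Fam (co G) (CP G Z T S) (HP G Z T S) (tlo G T hm) x U) {Q : Finset V}
    (hu : Sum.inl Q ∈ U) (z : V) : (tlp (tlo G T hm) Q z).card ≤ 2 := by
  have hind : Ind G Q := by
    intro a ha b hb hab
    exact (co_adj.1 (h.clq Q hu a ha b hb hab.ne)).2 hab
  have hZ : Q ⊆ Z := fun a ha => MM_sub (hC.slot x hx (HP_sub (h.sub Q hu ha)))
  have h3 := hF.ind_rws hZ hind
  have h4 : (Q.biUnion fun v => rws G T v)
      ⊆ insert x (insert z ((Q \ tlp (tlo G T hm) Q z).image (tlo G T hm))) := by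
    intro b hb
    obtain ⟨a, ha, hba⟩ := mem_biUnion.1 hb
    have h5 := h.sub Q hu ha
    have h6 := (hC.ends_of_tlo hh hx h5 rfl).2
    have h7 := (mem_BB.1 (mem_Ph.1 (hC.HP_Ph hx h5)).1).1.2
    rw [rws_of_notMem h7, h6] at hba
    rcases mem_insert.1 hba with h8 | h8
    · rw [h8]
      exact mem_insert_self _ _
    · rw [mem_singleton.1 h8]
      by_cases h9 : a ∈ tlp (tlo G T hm) Q z
      · rw [(mem_tlp.1 h9).2]
        exact mem_insert_of_mem (mem_insert_self _ _)
      · exact mem_insert_of_mem (mem_insert_of_mem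
          (mem_image_of_mem _ (mem_sdiff.2 ⟨ha, h9⟩)))
  have h5 := card_insert_le x (insert z ((Q \ tlp (tlo G T hm) Q z).image (tlo G T hm)))
  have h6 := card_insert_le z ((Q \ tlp (tlo G T hm) Q z).image (tlo G T hm))
  have h7 := card_image_le (s := Q \ tlp (tlo G T hm) Q z) (f := tlo G T hm)
  have h8 := card_sdiff_add_card_eq_card (tlp_sub (tl := tlo G T hm) (Q := Q) (z := z))
  have h9 := card_le_card h4
  omega

/-- the load of an item at one row is at most two; two only for a clique with other tails -/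
theorem Fam.ikp_two (hF : PFrame G r m t Z T) (hh : Homes G Z T hm) (hC : CSys G Z T hm A S)
    {x : V} (hx : x ∈ A) {U : Finset (Itm V)}
    (h : Fam (co G) (CP G Z T S) (HP G Z T S) (tlo G T hm) x U) {u : Itm V}
    (hu : u ∈ U) (z : V) : ikp (tlo G T hm) z u ≤ 2 ∧
      (ikp (tlo G T hm) z u = 2 → ∃ Q, u = Sum.inl Q ∧ tlp (tlo G T hm) Q z ≠ Q ∧
        (tlp (tlo G T hm) Q z).card = 2) := by
  rcases u with Q | e
  · have h1 := h.tlp_two hF hh hC hx hu z
    by_cases h2 : tlp (tlo G T hm) Q z = Q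
    · rw [h2] at h1
      have h3 : ikp (tlo G T hm) z (Sum.inl Q) = Q.card - 1 := by simp only [ikp, h2, if_true]
      refine ⟨by omega, fun h4 => ?_⟩
      omega
    · have h3 : ikp (tlo G T hm) z (Sum.inl Q) = (tlp (tlo G T hm) Q z).card := by
        simp only [ikp, h2, if_false]
      rw [h3]
      exact ⟨h1, fun h4 => ⟨Q, rfl, h2, h4⟩⟩
  · simp only [ikp]
    split_ifs
    · exact ⟨by norm_num, fun h1 => absurd h1 (by norm_num)⟩
    · exact ⟨by norm_num, fun h1 => absurd h1 (by norm_num)⟩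

/-- **the points and the hits of one item at the level `g`** -/
theorem Fam.lev (hF : PFrame G r m t Z T) (hh : Homes G Z T hm) (hC : CSys G Z T hm A S)
    {x : V} (hx : x ∈ A) {U : Finset (Itm V)}
    (h : Fam (co G) (CP G Z T S) (HP G Z T S) (tlo G T hm) x U) {u : Itm V}
    (hu : u ∈ U) {z : V} {g : Itm V → ℕ} (h1 : 1 ≤ g u) (h2 : g u ≤ ikp (tlo G T hm) z u) :
    (rpts (tlo G T hm) (xlv G (CP G Z T S) (tlo G T hm) z g) z u).card = g u + 1 ∧
      ((CP G Z T S z).card : ℤ) * g u - ilm G (CP G Z T S) (tlo G T hm) z g u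
        ≤ ((CP G Z T S z).card : ℤ) * ikp (tlo G T hm) z u
          - (rcl G (CP G Z T S) (tlo G T hm)
            (xlv G (CP G Z T S) (tlo G T hm) z g) z u).card := by
  have h3 := h.ikp_two hF hh hC hx hu z
  by_cases h4 : ikp (tlo G T hm) z u ≤ g u
  · have h5 : g u = ikp (tlo G T hm) z u := le_antisymm h2 h4
    have e1 : rpts (tlo G T hm) (xlv G (CP G Z T S) (tlo G T hm) z g) z u
        = rpts (tlo G T hm) (xmn G (CP G Z T S) (tlo G T hm) z) z u := by
      rcases u with Q | e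
      · have : xlv G (CP G Z T S) (tlo G T hm) z g Q = xmn G (CP G Z T S) (tlo G T hm) z Q :=
          if_pos h4
        simp only [rpts, this]
      · rfl
    have e2 : rcl G (CP G Z T S) (tlo G T hm) (xlv G (CP G Z T S) (tlo G T hm) z g) z u
        = rcl G (CP G Z T S) (tlo G T hm) (xmn G (CP G Z T S) (tlo G T hm) z) z u := by
      rcases u with Q | e
      · have : xlv G (CP G Z T S) (tlo G T hm) z g Q = xmn G (CP G Z T S) (tlo G T hm) z Q :=
          if_pos h4
        simp only [rcl, this]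
      · rfl
    refine ⟨?_, ?_⟩
    · rw [e1, h5]
      exact rpts_xmn (G := G) (A := A) h hu (by omega)
    · have e3 : ilm G (CP G Z T S) (tlo G T hm) z g u = imn G (CP G Z T S) (tlo G T hm) z u :=
        if_pos h4
      rw [e2, e3, h5]
      exact le_rfl
  · have h5 : ikp (tlo G T hm) z u = 2 := by omega
    have h6 : g u = 1 := by omega
    obtain ⟨Q, rfl, hone, hQ2⟩ := h3.2 h5
    have e1 : xlv G (CP G Z T S) (tlo G T hm) z g Q = ∅ := if_neg h4
    refine ⟨?_, ?_⟩
    · simp only [rpts, e1, union_empty]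
      omega
    · have e3 : ilm G (CP G Z T S) (tlo G T hm) z g (Sum.inl Q) = 0 := if_neg h4
      have e4 : (rcl G (CP G Z T S) (tlo G T hm) (xlv G (CP G Z T S) (tlo G T hm) z g) z
          (Sum.inl Q)).card ≤ (CP G Z T S z).card := card_le_card rcl_sub
      have e5 : ((rcl G (CP G Z T S) (tlo G T hm) (xlv G (CP G Z T S) (tlo G T hm) z g) z
          (Sum.inl Q)).card : ℤ) ≤ (CP G Z T S z).card := by exact_mod_cast e4
      rw [e3, h5, h6]
      push_cast
      linarith

/-- **the row test at any levels**, with the missing pairs of the points -/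
theorem Fam.row_lev (hF : PFrame G r m t Z T) (hh : Homes G Z T hm) (hP : PG G r)
    (hC : CSys G Z T hm A S)
    (hW : WSysT G (co G) A (CP G Z T S) (HP G Z T S) (tlo G T hm))
    (h : ∀ x ∈ A, Fam (co G) (CP G Z T S) (HP G Z T S) (tlo G T hm) x (U x))
    {z : V} (hz : z ∈ A) {K : Finset (Itm V)} (hK : K ⊆ (A.erase z).biUnion U) {g : Itm V → ℕ}
    (h1 : ∀ u ∈ K, 1 ≤ g u) (h2 : ∀ u ∈ K, g u ≤ ikp (tlo G T hm) z u) :
    2 * ((r : ℤ) - 1) * (((S z).card : ℤ) - r)
      + 2 * ∑ u ∈ K, (((CP G Z T S z).card : ℤ) * g u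
          - ilm G (CP G Z T S) (tlo G T hm) z g u)
      ≤ NE G (S z) + 2 * (∑ u ∈ K, ((g u : ℤ) + 1)) * (((S z).card : ℤ) - r + 1)
        + NE G (K.biUnion (rpts (tlo G T hm) (xlv G (CP G Z T S) (tlo G T hm) z g) z)) := by
  have hk : ∀ u ∈ K, ikp (tlo G T hm) z u ≠ 0 := fun u hu h3 => by
    have := h1 u hu
    have := h2 u hu
    omega
  have h3 := Fam.row_ne hP hC hW h hz hK hk (X := xlv G (CP G Z T S) (tlo G T hm) z g)
    fun Q => xlv_sub
  have key : ∀ u ∈ K,
      (rpts (tlo G T hm) (xlv G (CP G Z T S) (tlo G T hm) z g) z u).card = g u + 1 ∧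
      ((CP G Z T S z).card : ℤ) * g u - ilm G (CP G Z T S) (tlo G T hm) z g u
        ≤ ((CP G Z T S z).card : ℤ) * ikp (tlo G T hm) z u
          - (rcl G (CP G Z T S) (tlo G T hm)
            (xlv G (CP G Z T S) (tlo G T hm) z g) z u).card := fun u hu => by
    obtain ⟨y, hy, huy⟩ := mem_biUnion.1 (hK hu)
    exact (h y (mem_of_mem_erase hy)).lev hF hh hC (mem_of_mem_erase hy) huy (h1 u hu) (h2 u hu)
  have h4 : ∑ u ∈ K, ((rpts (tlo G T hm) (xlv G (CP G Z T S) (tlo G T hm) z g) z u).card : ℤ)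
      = ∑ u ∈ K, ((g u : ℤ) + 1) := sum_congr rfl fun u hu => by
    rw [(key u hu).1]
    push_cast
    rfl
  have h5 := sum_le_sum fun u hu => (key u hu).2
  rw [h4] at h3
  linarith

/-- the number of the points -/
theorem Fam.card_lev (hF : PFrame G r m t Z T) (hh : Homes G Z T hm)
    (hC : CSys G Z T hm A S)
    (hW : WSysT G (co G) A (CP G Z T S) (HP G Z T S) (tlo G T hm))
    (h : ∀ x ∈ A, Fam (co G) (CP G Z T S) (HP G Z T S) (tlo G T hm) x (U x))
    {z : V} {K : Finset (Itm V)} (hK : K ⊆ (A.erase z).biUnion U) {g : Itm V → ℕ}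
    (h1 : ∀ u ∈ K, 1 ≤ g u) (h2 : ∀ u ∈ K, g u ≤ ikp (tlo G T hm) z u) :
    ((K.biUnion (rpts (tlo G T hm) (xlv G (CP G Z T S) (tlo G T hm) z g) z)).card : ℤ)
      = ∑ u ∈ K, ((g u : ℤ) + 1) := by
  have hg := Fam.grp hW h (D := A.erase z) (erase_subset _ _) hK (z := z)
    (X := xlv G (CP G Z T S) (tlo G T hm) z g) fun Q => xlv_sub
  have hfil : (K.filter fun u => ikp (tlo G T hm) z u ≠ 0) = K := filter_true_of_mem
    fun u hu h3 => by
      have := h1 u hu
      have := h2 u hu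
      omega
  rw [hfil] at hg
  rw [card_biUnion hg.dis]
  push_cast
  refine sum_congr rfl fun u hu => ?_
  obtain ⟨y, hy, huy⟩ := mem_biUnion.1 (hK hu)
  rw [((h y (mem_of_mem_erase hy)).lev hF hh hC (mem_of_mem_erase hy) huy (h1 u hu) (h2 u hu)).1]
  push_cast
  rfl

/-- **the missing pairs of the points**, Turan's bound over the tails of `T` -/
theorem Fam.NE_lev (hF : PFrame G r m t Z T) (hh : Homes G Z T hm)
    (hC : CSys G Z T hm A S)
    (hW : WSysT G (co G) A (CP G Z T S) (HP G Z T S) (tlo G T hm))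
    (h : ∀ x ∈ A, Fam (co G) (CP G Z T S) (HP G Z T S) (tlo G T hm) x (U x))
    {z : V} {K : Finset (Itm V)} (hK : K ⊆ (A.erase z).biUnion U) {g : Itm V → ℕ}
    (h1 : ∀ u ∈ K, 1 ≤ g u) (h2 : ∀ u ∈ K, g u ≤ ikp (tlo G T hm) z u) (q : ℤ) :
    NE G (K.biUnion (rpts (tlo G T hm) (xlv G (CP G Z T S) (tlo G T hm) z g) z))
      ≤ (∑ u ∈ K, ((g u : ℤ) + 1)) * (∑ u ∈ K, ((g u : ℤ) + 1) - 1)
        - 2 * q * (∑ u ∈ K, ((g u : ℤ) + 1)) + T.card * (q * (q + 1)) := by
  have hWZ : K.biUnion (rpts (tlo G T hm) (xlv G (CP G Z T S) (tlo G T hm) z g) z) ⊆ Z := by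
    refine biUnion_subset.2 fun u hu => ?_
    obtain ⟨y, hy, huy⟩ := mem_biUnion.1 (hK hu)
    have hyA := mem_of_mem_erase hy
    refine ((h y hyA).rpts_sub fun Q => xlv_sub).trans (((h y hyA).ipts_sub huy).trans ?_)
    rw [union_comm, CP_union_HP]
    exact (hC.slot y hyA).trans MM_sub
  have h6 := hF.NE_rows (I := T) hWZ (fun v _ => rws_sub) q
  rw [Fam.card_lev hF hh hC hW h hK h1 h2] at h6
  exact h6

/-- the points of an item outside the class of its host -/
theorem Fam.own_lev (hF : PFrame G r m t Z T) (hh : Homes G Z T hm)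
    (hC : CSys G Z T hm A S)
    (hW : WSysT G (co G) A (CP G Z T S) (HP G Z T S) (tlo G T hm))
    (h : ∀ x ∈ A, Fam (co G) (CP G Z T S) (HP G Z T S) (tlo G T hm) x (U x))
    {x z : V} (hx : x ∈ A) {g : Itm V → ℕ} {u : Itm V} (hu : u ∈ U x) (h1 : 1 ≤ g u)
    (h2 : g u ≤ ikp (tlo G T hm) z u) :
    (rpts (tlo G T hm) (xlv G (CP G Z T S) (tlo G T hm) z g) z u \ CP G Z T S x).card + ipc u
      = g u + 1 := by
  have hf := h x hx
  have hHC : ∀ v, v ∈ HP G Z T S x → v ∉ CP G Z T S x := fun v h1 h2 =>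
    disjoint_left.1 (hW.dHC x hx x hx) h1 h2
  have h3 := (hf.lev hF hh hC hx hu h1 h2).1
  rcases u with Q | e
  · have h4 : rpts (tlo G T hm) (xlv G (CP G Z T S) (tlo G T hm) z g) z (Sum.inl Q)
        \ CP G Z T S x
        = rpts (tlo G T hm) (xlv G (CP G Z T S) (tlo G T hm) z g) z (Sum.inl Q) := by
      rw [Finset.sdiff_eq_self_iff_disjoint, disjoint_left]
      intro v hv
      exact hHC v (hf.sub Q hu (hf.rpts_sub (X := xlv G (CP G Z T S) (tlo G T hm) z g)
        (fun Q => xlv_sub) hv))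
    rw [h4, h3]
    simp only [ipc, add_zero]
  · have h4 : ({e.1, e.2} : Finset V) \ CP G Z T S x = {e.1} := by
      ext v
      rw [mem_sdiff, mem_insert, mem_singleton, mem_singleton]
      constructor
      · rintro ⟨h5 | h5, h6⟩
        · exact h5
        · exact absurd (h5 ▸ hf.pcC e hu) h6
      · rintro rfl
        exact ⟨Or.inl rfl, hHC _ (hf.pcH e hu)⟩
    have h5 : g (Sum.inr e) = 1 := by
      simp only [ikp] at h2
      split_ifs at h2 <;> omega
    simp only [rpts, ipc]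
    rw [h4, card_singleton, h5]

/-- the points of items of one host at any levels: number, arcs, copies -/
theorem Fam.own_sumsL (hF : PFrame G r m t Z T) (hh : Homes G Z T hm)
    (hC : CSys G Z T hm A S)
    (hW : WSysT G (co G) A (CP G Z T S) (HP G Z T S) (tlo G T hm))
    (h : ∀ x ∈ A, Fam (co G) (CP G Z T S) (HP G Z T S) (tlo G T hm) x (U x))
    {x z : V} (hx : x ∈ A) {K : Finset (Itm V)} (hK : K ⊆ U x) {g : Itm V → ℕ}
    (h1 : ∀ u ∈ K, 1 ≤ g u) (h2 : ∀ u ∈ K, g u ≤ ikp (tlo G T hm) z u) :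
    ((K.biUnion (rpts (tlo G T hm) (xlv G (CP G Z T S) (tlo G T hm) z g) z)
        \ CP G Z T S x).card : ℤ) = ∑ u ∈ K, ((g u : ℤ) + 1 - ipc u)
    ∧ ∑ v ∈ K.biUnion (rpts (tlo G T hm) (xlv G (CP G Z T S) (tlo G T hm) z g) z)
        \ CP G Z T S x, (nd G (CP G Z T S x) v : ℤ) ≤ ∑ u ∈ K, (iar G (CP G Z T S x) u : ℤ)
    ∧ ((CP G Z T S x ∩ K.biUnion (rpts (tlo G T hm)
        (xlv G (CP G Z T S) (tlo G T hm) z g) z)).card : ℤ) ≤ ∑ u ∈ K, (ipc u : ℤ) := by
  set X : Finset V → Finset V := xlv G (CP G Z T S) (tlo G T hm) z g with hXd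
  have hX : ∀ Q, X Q ⊆ oth (tlo G T hm) z Q := fun Q => xlv_sub
  have hf := h x hx
  have hk : ∀ u ∈ K, ikp (tlo G T hm) z u ≠ 0 := fun u hu h3 => by
    have := h1 u hu
    have := h2 u hu
    omega
  have hdis : ∀ u ∈ K, ∀ v ∈ K, u ≠ v → Disjoint (rpts (tlo G T hm) X z u)
      (rpts (tlo G T hm) X z v) := fun u hu v hv huv =>
    (Fam.dis_row hW h hx hx (hK hu) (hK hv) huv (hk u hu) (hk v hv)).mono (hf.rpts_sub hX)
      (hf.rpts_sub hX)
  have hsd : K.biUnion (rpts (tlo G T hm) X z) \ CP G Z T S x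
      = K.biUnion fun u => rpts (tlo G T hm) X z u \ CP G Z T S x := by
    ext v
    simp only [mem_sdiff, mem_biUnion]
    constructor
    · rintro ⟨⟨u, hu, hv⟩, hv'⟩
      exact ⟨u, hu, hv, hv'⟩
    · rintro ⟨u, hu, hv, hv'⟩
      exact ⟨⟨u, hu, hv⟩, hv'⟩
  have hdis' : ∀ u ∈ K, ∀ v ∈ K, u ≠ v → Disjoint (rpts (tlo G T hm) X z u \ CP G Z T S x)
      (rpts (tlo G T hm) X z v \ CP G Z T S x) := fun u hu v hv huv =>
    (hdis u hu v hv huv).mono sdiff_subset sdiff_subset
  refine ⟨?_, ?_, ?_⟩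
  · rw [hsd, card_biUnion hdis']
    push_cast
    refine sum_congr rfl fun u hu => ?_
    have h3 := Fam.own_lev hF hh hC hW h hx (hK hu) (h1 u hu) (h2 u hu)
    have h4 : ((rpts (tlo G T hm) X z u \ CP G Z T S x).card : ℤ) + ipc u
        = g u + 1 := by exact_mod_cast h3
    linarith
  · rw [hsd, sum_biUnion (fun u hu v hv huv => hdis' u hu v hv huv)]
    refine sum_le_sum fun u hu => ?_
    have h4 := Fam.nd_own (z := z) h hx (hK hu) hX
    exact_mod_cast h4
  · have h2 : CP G Z T S x ∩ K.biUnion (rpts (tlo G T hm) X z)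
        ⊆ K.biUnion fun u => CP G Z T S x ∩ rpts (tlo G T hm) X z u := by
      intro v hv
      obtain ⟨h3, h4⟩ := mem_inter.1 hv
      obtain ⟨u, hu, h5⟩ := mem_biUnion.1 h4
      exact mem_biUnion.2 ⟨u, hu, mem_inter.2 ⟨h3, h5⟩⟩
    have h3 := (card_le_card h2).trans card_biUnion_le
    have h4 : ((CP G Z T S x ∩ K.biUnion (rpts (tlo G T hm) X z)).card : ℤ)
        ≤ ∑ u ∈ K, ((CP G Z T S x ∩ rpts (tlo G T hm) X z u).card : ℤ) := by exact_mod_cast h3
    refine h4.trans (sum_le_sum fun u hu => ?_)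
    rcases u with Q | e
    · have h5 : CP G Z T S x ∩ rpts (tlo G T hm) X z (Sum.inl Q) = ∅ := by
        rw [← disjoint_iff_inter_eq_empty, disjoint_left]
        intro v hv hv'
        exact disjoint_left.1 (hW.dHC x hx x hx) (hf.sub Q (hK hu) (hf.rpts_sub hX hv')) hv
      rw [h5]
      simp
    · have h5 : CP G Z T S x ∩ rpts (tlo G T hm) X z (Sum.inr e) ⊆ {e.2} := by
        intro v hv
        obtain ⟨h6, h7⟩ := mem_inter.1 hv
        simp only [rpts] at h7
        rcases mem_insert.1 h7 with h8 | h8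
        · exact absurd h6 (fun h9 => disjoint_left.1 (hW.dHC x hx x hx) (hf.pcH e (hK hu))
            (h8 ▸ h9))
        · exact h8
      have h6 := card_le_card h5
      rw [card_singleton] at h6
      simp only [ipc]
      exact_mod_cast h6

end LvF

end Pool.Agent.Lib.MP_f04ccf_co
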