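import Pool.Agent.Lib.MP_f04ccf_co.M.RowV

/-!
MP_f04ccf_co, TEXT D, middle range: **the cell filters of a row for boxes of states**, from `RowV`.

* `colR`: right side minus left side of the column test `ColN`;
* the four ways of keeping, everything used (`u = 1`) or nothing used (`u = 0`): `colAK`, `colAO` (all items kept, the
  other block pairs kept | out), `colOK`, `colOO` (the items of value one booked at `y` kept, block pairs kept | out);
* `RowV.colAK`, ...: these numbers are nonnegative for every cell of a row;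
* `colAK_box`, ...: nonnegative at one corner of any box of states `(d, H, P)` resp. `(d + hn, P)`.
-/

set_option autoImplicit false

namespace Pool.Agent.Lib.MP_f04ccf_co

open Finset

attribute [local instance] Classical.propDecidable

/-- right side minus left side of the column test -/
def colR (R A B G m b hit M k ka k1 w gain blk : ℤ) : ℤ :=
  2 * (A * (m + b + M + k) + w)
    + 2 * ((B - 1 - (m + b + M + k + ka)) * (G - (m + b + M + k))) + blk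
    - (2 * ((R + 1 - B) * (M + k - 1) + hit) + (m + b) * (m + b + M + k + ka + 1)
      + M * (m + b + k + ka) + (k - ka) * (m + b + M + k + ka + 1) + 2 * (k1 * (k1 - 1)) + gain)

lemma colN_iff {R A B G m b hit M k ka k1 w gain blk X : ℤ} :
    ColN R A B G m b hit M k ka k1 w gain blk X ↔
      0 ≤ colR R A B G m b hit M k ka k1 w gain blk + 2 * X := by
  unfold ColN colR
  constructor <;> intro h <;> linarith

/-- all items kept, the other block pairs kept: `mm` units booked at `y`, misses `mb`; used `k` units of `ka` items,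
`k1` of value one, misses and arcs `w`; gain `gn` -/
def colAK (R A B p M mm mb k ka k1 w gn pm d H P : ℤ) : ℤ :=
  colR R A B d H (P - p) (mm * (R + 1 - B) - mb) M k ka k1 w gn ((P - p) * (pm + 1))

/-- all items kept, the other block pairs out: `m1` full, `m2` halves booked at `y` -/
def colAO (R A B M mm m1 m2 mb k ka k1 w gn pm d H : ℤ) : ℤ :=
  colR R A B d H 0 (mm * (R + 1 - B) - mb) M k ka k1 w gn (2 * (pm * (A - d + H - 2 * m1 - m2)))

/-- the value-one items booked at `y` kept, the other block pairs kept; `D = d + hn` -/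
def colOK (R A B p M m1 m2 mb k ka k1 w pm D P : ℤ) : ℤ :=
  colR R A B (D - (m1 + m2)) (m1 + m2) (P - p) ((m1 + m2) * (R + 1 - B) - mb) M k ka k1 w
    ((m1 + m2) * (m1 + m2 - 1)) ((P - p) * (pm + 1))

/-- the value-one items booked at `y` kept, the other block pairs out; `D = d + hn` -/
def colOO (R A B M m1 m2 mb k ka k1 w pm D : ℤ) : ℤ :=
  colR R A B (D - (m1 + m2)) (m1 + m2) 0 ((m1 + m2) * (R + 1 - B) - mb) M k ka k1 w
    ((m1 + m2) * (m1 + m2 - 1)) (2 * (pm * (A - D + m2)))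

section MidC

variable {R : ℕ} {P : Finset ℕ} {A d hn h : ℕ}
  {B p x q mf mh mhb mha mc mcb mcn mcv kf kh khb kha kc kca kcb kcr sg en nn : ℕ → ℕ}

/-- the block pairs of the other tails -/
lemma blk_kept {y : ℕ} (hy : y ∈ P) {pm : ℕ} (hpm : ∀ l ∈ P, p l ≤ pm) (en' : ℕ → ℤ) (sg' : ℕ → ℤ) :
    (∑ l ∈ P.erase y \ ∅, (p l : ℤ)) = ∑ l ∈ P, (p l : ℤ) - p y ∧
    blkE (fun l => (p l : ℤ)) sg' en' (P.erase y) ∅ ≤ (∑ l ∈ P, (p l : ℤ) - p y) * (pm + 1) := by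
  have h1 := add_sum_erase P (fun l => (p l : ℤ)) hy
  beta_reduce at h1
  have h2 : (∑ l ∈ P.erase y, (p l : ℤ)) = ∑ l ∈ P, (p l : ℤ) - p y := by linarith
  unfold blkE
  rw [sdiff_empty, sum_empty, mul_zero, add_zero, h2]
  refine ⟨rfl, ?_⟩
  rw [← h2, sum_mul]
  refine sum_le_sum fun l hl => ?_
  have h3 : (p l : ℤ) ≤ pm := by exact_mod_cast hpm l (mem_of_mem_erase hl)
  have h4 : (0 : ℤ) ≤ p l := Nat.cast_nonneg _
  nlinarith

/-- everything out: the price of the single parts and the ends -/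
lemma RowV.blk_out (V : RowV R P A d hn h B p x q mf mh mhb mha mc mcb mcn mcv kf kh khb kha kc kca
      kcb kcr sg en nn) {y : ℕ} (hy : y ∈ P) {pm : ℕ} (hpm : ∀ l ∈ P, p l ≤ pm) :
    blkE (fun l => (p l : ℤ)) (fun l => (sg l : ℤ)) (fun l => (en l : ℤ)) (P.erase y) (P.erase y)
      ≤ 2 * ((pm : ℤ) * ((A : ℤ) - d + h - 2 * mf y - mh y)) ∧
    ∑ l ∈ P.erase y, (p l : ℤ) * sg l ≤ (pm : ℤ) * ((A : ℤ) - (d + hn)) := by
  have hp : ∀ l ∈ P.erase y, (p l : ℤ) ≤ pm := fun l hl => by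
    exact_mod_cast hpm l (mem_of_mem_erase hl)
  have h1 : ∑ l ∈ P.erase y, (sg l : ℤ) ≤ (A : ℤ) - d - hn := by
    have h2 : ((∑ y ∈ P, sg y + hn + d : ℕ) : ℤ) ≤ A := by exact_mod_cast V.sgs
    push_cast at h2
    have h3 : ∑ l ∈ P.erase y, (sg l : ℤ) ≤ ∑ l ∈ P, (sg l : ℤ) :=
      sum_le_sum_of_subset_of_nonneg (erase_subset _ _) fun _ _ _ => Nat.cast_nonneg _
    linarith
  have h2 : ∑ l ∈ P.erase y, (en l : ℤ) ≤ (h : ℤ) + hn - 2 * mf y - mh y := by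
    have h3 : ((∑ y ∈ P, (en y + mf y) : ℕ) : ℤ) ≤ ((h + hn : ℕ) : ℤ) := by exact_mod_cast V.ens
    push_cast at h3
    have h4 := add_sum_erase P (fun y => ((en y : ℤ) + mf y)) hy
    beta_reduce at h4
    have h5 : ∑ l ∈ P.erase y, (en l : ℤ) ≤ ∑ l ∈ P.erase y, ((en l : ℤ) + mf l) :=
      sum_le_sum fun l _ => by
        have : (0 : ℤ) ≤ mf l := Nat.cast_nonneg _
        linarith
    have h6 : ((mf y + mh y + mcn y : ℕ) : ℤ) ≤ en y := by exact_mod_cast V.enb y hy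
    push_cast at h6
    have h7 : (0 : ℤ) ≤ mcn y := Nat.cast_nonneg _
    linarith
  have hpm0 : (0 : ℤ) ≤ pm := Nat.cast_nonneg _
  constructor
  · unfold blkE
    rw [Finset.sdiff_self, sum_empty, zero_add]
    have h3 : ∑ l ∈ P.erase y, (p l : ℤ) * ((sg l : ℤ) + en l)
        ≤ ∑ l ∈ P.erase y, (pm : ℤ) * ((sg l : ℤ) + en l) :=
      sum_le_sum fun l hl => mul_le_mul_of_nonneg_right (hp l hl) (by positivity)
    rw [← mul_sum, sum_add_distrib] at h3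
    have h4 := mul_le_mul_of_nonneg_left (add_le_add h1 h2) hpm0
    nlinarith
  · have h3 : ∑ l ∈ P.erase y, (p l : ℤ) * sg l ≤ ∑ l ∈ P.erase y, (pm : ℤ) * sg l :=
      sum_le_sum fun l hl => mul_le_mul_of_nonneg_right (hp l hl) (Nat.cast_nonneg _)
    rw [← mul_sum] at h3
    have h4 := mul_le_mul_of_nonneg_left h1 hpm0
    nlinarith

/-- no half, no misses, no arcs -/
lemma RowV.kh0 (V : RowV R P A d hn h B p x q mf mh mhb mha mc mcb mcn mcv kf kh khb kha kc kca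
      kcb kcr sg en nn) {y : ℕ} (hy : y ∈ P) (h0 : kh y = 0) : khb y = 0 ∧ kha y = 0 := by
  have h1 := V.khbM y hy R fun w _ _ b b' h2 _ => by
    have := h2.2.2.2.1
    have := V.A1
    omega
  have h2 := V.khaM y hy (B y) fun w _ _ m h3 => h3.1
  rw [h0, zero_mul] at h1 h2
  omega

/-- **the eight filters of a cell**: `u = 1` everything used, `u = 0` nothing used -/
theorem RowV.cols (V : RowV R P A d hn h B p x q mf mh mhb mha mc mcb mcn mcv kf kh khb kha kc kca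
      kcb kcr sg en nn) {y : ℕ} (hy : y ∈ P) {pm : ℕ} (hpm : ∀ l ∈ P, p l ≤ pm) {u : ℕ}
    (hu : u ≤ 1) {M k ka k1 w mm mb mb1 Pt : ℤ}
    (hM : M = (p y : ℤ) + x y + u * q y) (hk : k = u * ((kf y : ℤ) + kh y + kc y))
    (hka : ka = u * ((kf y : ℤ) + kh y + kca y)) (hk1 : k1 = u * ((kf y : ℤ) + kh y))
    (hw : w = u * ((khb y : ℤ) + kha y + kh y * q y + ((kcb y : ℤ) + kcr y)))
    (hmm : mm = (mf y : ℤ) + mh y + mc y) (hmb : mb = (mhb y : ℤ) + mcb y)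
    (hmb1 : mb1 = (mhb y : ℤ)) (hP : Pt = ∑ l ∈ P, (p l : ℤ)) :
    0 ≤ colAK R A (B y) (p y) M mm mb k ka k1 w ((hn : ℤ) * (hn - 1)) pm d h Pt ∧
    0 ≤ colAO R A (B y) M mm (mf y) (mh y) mb k ka k1 w ((hn : ℤ) * (hn - 1)) pm d h ∧
    0 ≤ colOK R A (B y) (p y) M (mf y) (mh y) mb1 k ka k1 w pm ((d : ℤ) + hn) Pt ∧
    0 ≤ colOO R A (B y) M (mf y) (mh y) mb1 k ka k1 w pm ((d : ℤ) + hn) := by
  obtain ⟨b1, b2⟩ := blk_kept (p := p) hy hpm (fun l => (en l : ℤ)) (fun l => (sg l : ℤ))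
  obtain ⟨o1, o2⟩ := V.blk_out hy hpm
  have hq : u * q y ≤ q y := by nlinarith
  have hf : u * kf y ≤ kf y := by nlinarith
  have hh : u * kh y ≤ kh y := by nlinarith
  have hpm' : ∀ l ∈ P, l ≠ y → p l ≤ pm := fun l hl _ => hpm l hl
  obtain ⟨w1, w2, w3, w4, w5⟩ := V.colK y hy (u * q y) (u * kf y) (u * kh y) u hq hf hh hu
  obtain ⟨bb, v1, c1, c2, c3, v2, v3, v4, v5⟩ := V.colD y hy pm hpm' (mf y) (mh y) le_rfl le_rfl
    (u * q y) (u * kf y) (u * kh y) u hq hf hh hu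
  have hX : ((q y : ℤ) - (u * q y : ℕ)) * (u * kf y : ℕ) = 0 := by
    rcases Nat.le_one_iff_eq_zero_or_eq_one.1 hu with h1 | h1
    · rw [h1]; simp
    · rw [h1]; simp
  have hwle : ∀ w' : ℤ, w' ≤ (khb y : ℤ) + kha y → (kh y : ℤ) * w'
      ≤ (u * kh y : ℕ) * ((khb y : ℤ) + kha y) → w' + (u * kh y : ℕ) * q y
        + u * ((kcb y : ℤ) + kcr y) ≤ w := by
    intro w' h1 h2
    rcases Nat.le_one_iff_eq_zero_or_eq_one.1 hu with h3 | h3
    · rw [h3] at h2 hw ⊢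
      simp only [zero_mul, Nat.cast_zero, add_zero] at h2 hw ⊢
      rw [hw]
      by_cases h4 : kh y = 0
      · obtain ⟨h5, h6⟩ := V.kh0 hy h4
        rw [h5, h6] at h1
        simpa using h1
      · have h5 : (0 : ℤ) < kh y := by
          have : 0 < kh y := Nat.pos_of_ne_zero h4
          exact_mod_cast this
        by_contra h6
        push Not at h6
        have := mul_pos h5 h6
        linarith
    · rw [hw, h3]
      push_cast
      linarith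
  have a1 := hwle w1 w3 w4
  have a2 := hwle v1 v3 v4
  have hM' : M = (p y : ℤ) + x y + (u * q y : ℕ) := by rw [hM]; push_cast; ring
  have hk' : k = ((u * kf y : ℕ) : ℤ) + (u * kh y : ℕ) + u * (kc y : ℤ) := by
    rw [hk]; push_cast; ring
  have hka' : ka = ((u * kf y : ℕ) : ℤ) + (u * kh y : ℕ) + u * (kca y : ℤ) := by
    rw [hka]; push_cast; ring
  have hk1' : k1 = ((u * kf y : ℕ) : ℤ) + (u * kh y : ℕ) := by rw [hk1]; push_cast; ring
  have hbb : bb ≤ mhb y := c2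
  refine ⟨?_, ?_, ?_, ?_⟩
  · have h1 := colN_iff.1 (w5 ∅ (empty_subset _))
    rw [b1, ← hP] at h1
    rw [← hP] at b2
    rw [hX, ← hM', ← hk', ← hka', ← hk1', ← hmm, ← hmb] at h1
    unfold colAK
    unfold colR at h1 ⊢
    linarith
  · have h1 := colN_iff.1 (w5 (P.erase y) (Subset.refl _))
    rw [Finset.sdiff_self, sum_empty] at h1
    rw [hX, ← hM', ← hk', ← hka', ← hk1', ← hmm, ← hmb] at h1
    unfold colAO
    unfold colR at h1 ⊢
    linarith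
  · have h1 := colN_iff.1 (v5 ∅ (empty_subset _))
    obtain ⟨b3, b4⟩ := blk_kept (p := p) hy hpm (fun _ => 0) (fun l => (sg l : ℤ))
    unfold blkE at b4
    rw [b1, ← hP] at h1
    rw [← hP, sdiff_empty] at b4
    rw [sdiff_empty] at h1
    rw [if_pos rfl] at h1
    simp only [sum_empty, mul_zero, add_zero] at h1 b4
    rw [hX, ← hM', ← hk', ← hka', ← hk1'] at h1
    unfold colOK
    unfold colR at h1 ⊢
    linarith
  · have h1 := colN_iff.1 (v5 (P.erase y) (Subset.refl _))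
    rw [Finset.sdiff_self, sum_empty] at h1
    simp only [sum_empty, zero_add] at h1
    have h2 : (if P.erase y = ∅ then (0 : ℤ) else (mh y : ℤ) * pm) ≤ (mh y : ℤ) * pm := by
      split_ifs
      · positivity
      · exact le_rfl
    rw [hX, ← hM', ← hk', ← hka', ← hk1'] at h1
    unfold colOO
    unfold colR at h1 ⊢
    linarith

/-! ### corners -/

/-- a quadratic function which is convex, nonnegative at a point, is nonnegative at an end of the interval -/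
lemma cvx_end {a b c x0 x1 x : ℤ} (ha : 0 ≤ a) (h0 : x0 ≤ x) (h1 : x ≤ x1)
    (hx : 0 ≤ a * x ^ 2 + b * x + c) :
    0 ≤ a * x0 ^ 2 + b * x0 + c ∨ 0 ≤ a * x1 ^ 2 + b * x1 + c := by
  by_contra hcon
  push Not at hcon
  obtain ⟨h2, h3⟩ := hcon
  rcases eq_or_lt_of_le (h0.trans h1) with h4 | h4
  · have h5 : x = x0 := le_antisymm (by linarith) h0
    rw [h5] at hx
    linarith
  · nlinarith [mul_nonneg (sub_nonneg.2 h0) (sub_nonneg.2 h1),
      mul_nonneg ha (mul_nonneg (sub_nonneg.2 h0) (sub_nonneg.2 h1)),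
      mul_le_mul_of_nonneg_left h2.le (sub_nonneg.2 h1),
      mul_le_mul_of_nonneg_left h3.le (sub_nonneg.2 h0)]

/-- convex quadratic functions of one variable -/
def Cvx (f : ℤ → ℤ) : Prop := ∃ a b c : ℤ, 0 ≤ a ∧ ∀ x, f x = a * x ^ 2 + b * x + c

lemma Cvx.pick {f : ℤ → ℤ} (hf : Cvx f) {x0 x1 x : ℤ} (h0 : x0 ≤ x) (h1 : x ≤ x1) (hx : 0 ≤ f x) :
    ∃ v : ℤ, (v = x0 ∨ v = x1) ∧ 0 ≤ f v := by
  obtain ⟨a, b, c, ha, hf⟩ := hf
  rw [hf] at hx
  rcases cvx_end ha h0 h1 hx with h | h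
  · exact ⟨x0, Or.inl rfl, by rw [hf]; exact h⟩
  · exact ⟨x1, Or.inr rfl, by rw [hf]; exact h⟩

lemma colAK_cvx (R A B p M mm mb k ka k1 w gn pm d H P : ℤ) :
    Cvx (fun d => colAK R A B p M mm mb k ka k1 w gn pm d H P) ∧
    Cvx (fun H => colAK R A B p M mm mb k ka k1 w gn pm d H P) ∧
    Cvx (fun P => colAK R A B p M mm mb k ka k1 w gn pm d H P) := by
  refine ⟨⟨0, colAK R A B p M mm mb k ka k1 w gn pm 1 H P - colAK R A B p M mm mb k ka k1 w gn pm 0 H P,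
      colAK R A B p M mm mb k ka k1 w gn pm 0 H P, le_rfl, fun x => ?_⟩,
    ⟨1, colAK R A B p M mm mb k ka k1 w gn pm d 1 P - colAK R A B p M mm mb k ka k1 w gn pm d 0 P - 1,
      colAK R A B p M mm mb k ka k1 w gn pm d 0 P, by norm_num, fun x => ?_⟩,
    ⟨1, colAK R A B p M mm mb k ka k1 w gn pm d H 1 - colAK R A B p M mm mb k ka k1 w gn pm d H 0 - 1,
      colAK R A B p M mm mb k ka k1 w gn pm d H 0, by norm_num, fun x => ?_⟩⟩ <;>
  · unfold colAK colR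
    ring

lemma colAO_cvx (R A B M mm m1 m2 mb k ka k1 w gn pm d H : ℤ) :
    Cvx (fun d => colAO R A B M mm m1 m2 mb k ka k1 w gn pm d H) ∧
    Cvx (fun H => colAO R A B M mm m1 m2 mb k ka k1 w gn pm d H) := by
  refine ⟨⟨0, colAO R A B M mm m1 m2 mb k ka k1 w gn pm 1 H
      - colAO R A B M mm m1 m2 mb k ka k1 w gn pm 0 H,
      colAO R A B M mm m1 m2 mb k ka k1 w gn pm 0 H, le_rfl, fun x => ?_⟩,
    ⟨1, colAO R A B M mm m1 m2 mb k ka k1 w gn pm d 1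
      - colAO R A B M mm m1 m2 mb k ka k1 w gn pm d 0 - 1,
      colAO R A B M mm m1 m2 mb k ka k1 w gn pm d 0, by norm_num, fun x => ?_⟩⟩ <;>
  · unfold colAO colR
    ring

lemma colOK_cvx (R A B p M m1 m2 mb k ka k1 w pm D P : ℤ) :
    Cvx (fun D => colOK R A B p M m1 m2 mb k ka k1 w pm D P) ∧
    Cvx (fun P => colOK R A B p M m1 m2 mb k ka k1 w pm D P) := by
  refine ⟨⟨0, colOK R A B p M m1 m2 mb k ka k1 w pm 1 P - colOK R A B p M m1 m2 mb k ka k1 w pm 0 P,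
      colOK R A B p M m1 m2 mb k ka k1 w pm 0 P, le_rfl, fun x => ?_⟩,
    ⟨1, colOK R A B p M m1 m2 mb k ka k1 w pm D 1 - colOK R A B p M m1 m2 mb k ka k1 w pm D 0 - 1,
      colOK R A B p M m1 m2 mb k ka k1 w pm D 0, by norm_num, fun x => ?_⟩⟩ <;>
  · unfold colOK colR
    ring

lemma colOO_cvx (R A B M m1 m2 mb k ka k1 w pm D : ℤ) :
    Cvx (fun D => colOO R A B M m1 m2 mb k ka k1 w pm D) := by
  refine ⟨0, colOO R A B M m1 m2 mb k ka k1 w pm 1 - colOO R A B M m1 m2 mb k ka k1 w pm 0,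
      colOO R A B M m1 m2 mb k ka k1 w pm 0, le_rfl, fun x => ?_⟩
  unfold colOO colR
  ring

/-- one of the two ends of an interval -/
def End (x0 x1 v : ℤ) : Prop := v = x0 ∨ v = x1

/-- the content of a cell, numbers -/
structure CelN where
  (B p x q m1 m2 mc k0 k2 c ca : ℤ)

/-- the filters of a cell in a box of states `[d0, d1] x [H0, H1] x [P0, P1]`, `D = d + hn` in `[D0, D1]`, `pm ≤ p1`,
gain at least `gn`; `mb`, `mb1` bounds of the misses of the hosted units (all | halves), `w` of the misses and arcs of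
the used ones; `u = 1` everything used, `u = 0` nothing used -/
def ColBox (R A : ℤ) (c : CelN) (u mb mb1 w gn p1 d0 d1 H0 H1 P0 P1 D0 D1 : ℤ) : Prop :=
  (∃ d H P, End d0 d1 d ∧ End H0 H1 H ∧ End P0 P1 P ∧
    0 ≤ colAK R A c.B c.p (c.p + c.x + u * c.q) (c.m1 + c.m2 + c.mc) mb (u * (c.k0 + c.k2 + c.c))
      (u * (c.k0 + c.k2 + c.ca)) (u * (c.k0 + c.k2)) (u * w) gn p1 d H P) ∧
  (∃ d H, End d0 d1 d ∧ End H0 H1 H ∧
    0 ≤ colAO R A c.B (c.p + c.x + u * c.q) (c.m1 + c.m2 + c.mc) c.m1 c.m2 mb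
      (u * (c.k0 + c.k2 + c.c)) (u * (c.k0 + c.k2 + c.ca)) (u * (c.k0 + c.k2)) (u * w) gn p1 d H) ∧
  (∃ D P, End D0 D1 D ∧ End P0 P1 P ∧
    0 ≤ colOK R A c.B c.p (c.p + c.x + u * c.q) c.m1 c.m2 mb1 (u * (c.k0 + c.k2 + c.c))
      (u * (c.k0 + c.k2 + c.ca)) (u * (c.k0 + c.k2)) (u * w) p1 D P) ∧
  (∃ D, End D0 D1 D ∧
    0 ≤ colOO R A c.B (c.p + c.x + u * c.q) c.m1 c.m2 mb1 (u * (c.k0 + c.k2 + c.c))
      (u * (c.k0 + c.k2 + c.ca)) (u * (c.k0 + c.k2)) (u * w) p1 D)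

/-- **the filters of a cell in a box of states** -/
theorem RowV.colBox (V : RowV R P A d hn h B p x q mf mh mhb mha mc mcb mcn mcv kf kh khb kha kc
      kca kcb kcr sg en nn) {y : ℕ} (hy : y ∈ P) {pm : ℕ} (hpm : ∀ l ∈ P, p l ≤ pm) {u : ℕ}
    (hu : u ≤ 1) {c : CelN}
    (hc : c = ⟨B y, p y, x y, q y, mf y, mh y, mc y, kf y, kh y, kc y, kca y⟩)
    {mb mb1 w gn p1 d0 d1 H0 H1 P0 P1 D0 D1 : ℤ}
    (hmb : (mhb y : ℤ) + mcb y ≤ mb) (hmb1 : (mhb y : ℤ) ≤ mb1)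
    (hw : (khb y : ℤ) + kha y + kh y * q y + ((kcb y : ℤ) + kcr y) ≤ w)
    (hgn : gn ≤ (hn : ℤ) * (hn - 1)) (hp1 : (pm : ℤ) ≤ p1)
    (hd0 : d0 ≤ d) (hd1 : (d : ℤ) ≤ d1) (hH0 : H0 ≤ h) (hH1 : (h : ℤ) ≤ H1)
    (hP0 : P0 ≤ ∑ l ∈ P, (p l : ℤ)) (hP1 : ∑ l ∈ P, (p l : ℤ) ≤ P1)
    (hD0 : D0 ≤ (d : ℤ) + hn) (hD1 : (d : ℤ) + hn ≤ D1) :
    ColBox R A c u mb mb1 w gn p1 d0 d1 H0 H1 P0 P1 D0 D1 := by
  obtain ⟨h1, h2, h3, h4⟩ := V.cols hy hpm hu rfl rfl rfl rfl rfl rfl rfl rfl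
    (Pt := ∑ l ∈ P, (p l : ℤ)) rfl
  have hsg : (d : ℤ) + hn ≤ A := by
    have h2 : ((∑ y ∈ P, sg y + hn + d : ℕ) : ℤ) ≤ A := by exact_mod_cast V.sgs
    push_cast at h2
    have h3 : (0 : ℤ) ≤ ∑ l ∈ P, (sg l : ℤ) := sum_nonneg fun _ _ => Nat.cast_nonneg _
    linarith
  have hen : 2 * (mf y : ℤ) + mh y ≤ (h : ℤ) + hn := by
    have h3 : ((∑ y ∈ P, (en y + mf y) : ℕ) : ℤ) ≤ ((h + hn : ℕ) : ℤ) := by exact_mod_cast V.ens
    push_cast at h3
    have h4 := add_sum_erase P (fun y => ((en y : ℤ) + mf y)) hy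
    beta_reduce at h4
    have h5 : (0 : ℤ) ≤ ∑ l ∈ P.erase y, ((en l : ℤ) + mf l) :=
      sum_nonneg fun l _ => by positivity
    have h6 : ((mf y + mh y + mcn y : ℕ) : ℤ) ≤ en y := by exact_mod_cast V.enb y hy
    push_cast at h6
    have h7 : (0 : ℤ) ≤ mcn y := Nat.cast_nonneg _
    linarith
  have hPp : (p y : ℤ) ≤ ∑ l ∈ P, (p l : ℤ) :=
    single_le_sum (f := fun l => (p l : ℤ)) (fun _ _ => Nat.cast_nonneg _) hy
  have hu0 : (0 : ℤ) ≤ u := Nat.cast_nonneg _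
  have hw' := mul_le_mul_of_nonneg_left hw hu0
  have hpm0 : (0 : ℤ) ≤ pm := Nat.cast_nonneg _
  subst hc
  unfold ColBox
  refine ⟨?_, ?_, ?_, ?_⟩
  · have k1 : 0 ≤ colAK R A (B y) (p y) ((p y : ℤ) + x y + u * q y) ((mf y : ℤ) + mh y + mc y) mb
        (u * ((kf y : ℤ) + kh y + kc y)) (u * ((kf y : ℤ) + kh y + kca y))
        (u * ((kf y : ℤ) + kh y)) (u * w) gn p1 d h (∑ l ∈ P, (p l : ℤ)) := by
      refine h1.trans ?_
      have k2 := mul_le_mul_of_nonneg_left hp1 (sub_nonneg.2 hPp)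
      unfold colAK colR
      linarith
    obtain ⟨c1, -, -⟩ := colAK_cvx R A (B y) (p y) ((p y : ℤ) + x y + u * q y)
      ((mf y : ℤ) + mh y + mc y) mb (u * ((kf y : ℤ) + kh y + kc y))
      (u * ((kf y : ℤ) + kh y + kca y)) (u * ((kf y : ℤ) + kh y)) (u * w) gn p1 d h
      (∑ l ∈ P, (p l : ℤ))
    obtain ⟨d', e1, e2⟩ := c1.pick hd0 hd1 k1
    obtain ⟨-, c2, -⟩ := colAK_cvx R A (B y) (p y) ((p y : ℤ) + x y + u * q y)
      ((mf y : ℤ) + mh y + mc y) mb (u * ((kf y : ℤ) + kh y + kc y))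
      (u * ((kf y : ℤ) + kh y + kca y)) (u * ((kf y : ℤ) + kh y)) (u * w) gn p1 d' h
      (∑ l ∈ P, (p l : ℤ))
    obtain ⟨H', e3, e4⟩ := c2.pick hH0 hH1 e2
    obtain ⟨-, -, c3⟩ := colAK_cvx R A (B y) (p y) ((p y : ℤ) + x y + u * q y)
      ((mf y : ℤ) + mh y + mc y) mb (u * ((kf y : ℤ) + kh y + kc y))
      (u * ((kf y : ℤ) + kh y + kca y)) (u * ((kf y : ℤ) + kh y)) (u * w) gn p1 d' H'
      (∑ l ∈ P, (p l : ℤ))
    obtain ⟨P', e5, e6⟩ := c3.pick hP0 hP1 e4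
    exact ⟨d', H', P', e1, e3, e5, e6⟩
  · have k1 : 0 ≤ colAO R A (B y) ((p y : ℤ) + x y + u * q y) ((mf y : ℤ) + mh y + mc y) (mf y)
        (mh y) mb (u * ((kf y : ℤ) + kh y + kc y)) (u * ((kf y : ℤ) + kh y + kca y))
        (u * ((kf y : ℤ) + kh y)) (u * w) gn p1 d h := by
      refine h2.trans ?_
      have k3 : (0 : ℤ) ≤ (A : ℤ) - d + h - 2 * mf y - mh y := by linarith
      have k2 := mul_le_mul_of_nonneg_left hp1 k3
      unfold colAO colR
      linarith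
    obtain ⟨c1, -⟩ := colAO_cvx R A (B y) ((p y : ℤ) + x y + u * q y)
      ((mf y : ℤ) + mh y + mc y) (mf y) (mh y) mb (u * ((kf y : ℤ) + kh y + kc y))
      (u * ((kf y : ℤ) + kh y + kca y)) (u * ((kf y : ℤ) + kh y)) (u * w) gn p1 d h
    obtain ⟨d', e1, e2⟩ := c1.pick hd0 hd1 k1
    obtain ⟨-, c2⟩ := colAO_cvx R A (B y) ((p y : ℤ) + x y + u * q y)
      ((mf y : ℤ) + mh y + mc y) (mf y) (mh y) mb (u * ((kf y : ℤ) + kh y + kc y))
      (u * ((kf y : ℤ) + kh y + kca y)) (u * ((kf y : ℤ) + kh y)) (u * w) gn p1 d' h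
    obtain ⟨H', e3, e4⟩ := c2.pick hH0 hH1 e2
    exact ⟨d', H', e1, e3, e4⟩
  · have k1 : 0 ≤ colOK R A (B y) (p y) ((p y : ℤ) + x y + u * q y) (mf y) (mh y) mb1
        (u * ((kf y : ℤ) + kh y + kc y)) (u * ((kf y : ℤ) + kh y + kca y))
        (u * ((kf y : ℤ) + kh y)) (u * w) p1 ((d : ℤ) + hn) (∑ l ∈ P, (p l : ℤ)) := by
      refine h3.trans ?_
      have k2 := mul_le_mul_of_nonneg_left hp1 (sub_nonneg.2 hPp)
      unfold colOK colR
      linarith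
    obtain ⟨c1, -⟩ := colOK_cvx R A (B y) (p y) ((p y : ℤ) + x y + u * q y) (mf y) (mh y) mb1
      (u * ((kf y : ℤ) + kh y + kc y)) (u * ((kf y : ℤ) + kh y + kca y))
      (u * ((kf y : ℤ) + kh y)) (u * w) p1 ((d : ℤ) + hn) (∑ l ∈ P, (p l : ℤ))
    obtain ⟨D', e1, e2⟩ := c1.pick hD0 hD1 k1
    obtain ⟨-, c2⟩ := colOK_cvx R A (B y) (p y) ((p y : ℤ) + x y + u * q y) (mf y) (mh y) mb1
      (u * ((kf y : ℤ) + kh y + kc y)) (u * ((kf y : ℤ) + kh y + kca y))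
      (u * ((kf y : ℤ) + kh y)) (u * w) p1 D' (∑ l ∈ P, (p l : ℤ))
    obtain ⟨P', e3, e4⟩ := c2.pick hP0 hP1 e2
    exact ⟨D', P', e1, e3, e4⟩
  · have k1 : 0 ≤ colOO R A (B y) ((p y : ℤ) + x y + u * q y) (mf y) (mh y) mb1
        (u * ((kf y : ℤ) + kh y + kc y)) (u * ((kf y : ℤ) + kh y + kca y))
        (u * ((kf y : ℤ) + kh y)) (u * w) p1 ((d : ℤ) + hn) := by
      refine h4.trans ?_
      have k3 : (0 : ℤ) ≤ (A : ℤ) - ((d : ℤ) + hn) + mh y := by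
        have : (0 : ℤ) ≤ mh y := Nat.cast_nonneg _
        linarith
      have k2 := mul_le_mul_of_nonneg_left hp1 k3
      unfold colOO colR
      linarith
    have c1 := colOO_cvx R A (B y) ((p y : ℤ) + x y + u * q y) (mf y) (mh y) mb1
      (u * ((kf y : ℤ) + kh y + kc y)) (u * ((kf y : ℤ) + kh y + kca y))
      (u * ((kf y : ℤ) + kh y)) (u * w) p1 ((d : ℤ) + hn)
    obtain ⟨D', e1, e2⟩ := c1.pick hD0 hD1 k1
    exact ⟨D', e1, e2⟩

end MidC

end Pool.Agent.Lib.MP_f04ccf_co
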