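import Pool.Agent.Lib.MP_f04ccf_co.M.MidL
import Pool.Agent.Lib.MP_f04ccf_co.M.MidD
import Pool.Agent.Lib.MP_f04ccf_co.M.KdT

/-!
MP_f04ccf_co, TEXT D, middle range: **(F) in the kernel**: the final number of a vector of multipliers is below the
budget at every state of a box.

* `GrD`: a group of tests of one kind (`ty xy th uq uf c k0 k1`), `js` = multipliers and sizes `j`; `GrD.rows`;
* `MF.finOk`: the check (naturals; corners of the letters which are not fixed), `MF.finOk_sound`: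
  all `RKd.ok`, and `N * fin ≤ E * D * (N * d + v)`;
* letters of the box: `d hn hx P X K F K2 C Ca pm` with `h = hn + hx`, gain `hn (hn - 1)` of the state.
-/

set_option autoImplicit false

namespace Pool.Agent.Lib.MP_f04ccf_co

open Finset

/-- a group of tests of one kind; `k0 k1` bounds for the number of halves (`ty` 0, 1) or of all served units of value
one (`ty` 2, 3); `js` = multipliers and sizes `j` -/
structure GrD where
  (ty xy th uq uf c k0 k1 : ℕ) (js : List (ℕ × ℕ))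

/-- the tests of a group -/
def GrD.rows (g : GrD) : List (ℕ × RKd) :=
  g.js.map fun w => (w.1, ⟨g.ty, ⟨g.xy, g.th, g.uq, g.uf, g.c, w.2, g.k0, g.k1⟩⟩)

namespace MF

/-- a state by the letters of the box -/
def stD (d n hx P X K F S C Ca : ℤ) : StN := ⟨d, n, n + hx, P, X, K, F, S, C, Ca⟩

/-- the row test, weights `w0 w1 w2` -/
def TT (w0 w1 w2 x2 th R A G h n s e : ℤ) : ℤ :=
  w0 * (e * (e + 1) - 2 * (e * G) + 2 * (R * G) - 2 * ((R + 1 - A) * s) - th * (n * (n - 1)))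
    + w1 * (4 * e + 2 - 4 * G - 2 * (R + 1 - A)) + 4 * w2 + x2 * (A - G + th * h)

/-- tzN, weights `w0 w1 w2` -/
def NN (w0 w1 w2 R A G e : ℤ) : ℤ :=
  w0 * (2 * (e * e) - 2 * (e * G) + R * G - (R - A) * e) + w1 * (4 * e - 2 * G - (R - A)) + 2 * w2

lemma TT_cvx (w0 w1 w2 x2 th R A G h n s e G' h' n' s' e' : ℤ)
    (ha : 0 ≤ w0 * (e' * e' - 2 * (e' * G') - th * (n' * n'))) :
    Cvx fun x => TT w0 w1 w2 x2 th R A (G + G' * x) (h + h' * x) (n + n' * x) (s + s' * x)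
      (e + e' * x) := by
  refine ⟨_, w0 * (2 * e * e' + e' - 2 * e * G' - 2 * e' * G + 2 * R * G' - 2 * (R + 1 - A) * s'
    - th * (2 * n * n' - n')) + w1 * (4 * e' - 4 * G') + x2 * (- G' + th * h'),
    TT w0 w1 w2 x2 th R A G h n s e, ha, fun x => ?_⟩
  unfold TT
  ring

lemma NN_cvx (w0 w1 w2 R A G e G' e' : ℤ) (ha : 0 ≤ w0 * (2 * (e' * e') - 2 * (e' * G'))) :
    Cvx fun x => NN w0 w1 w2 R A (G + G' * x) (e + e' * x) := by
  refine ⟨_, w0 * (4 * e * e' - 2 * e * G' - 2 * e' * G + R * G' - (R - A) * e')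
    + w1 * (4 * e' - 2 * G'), NN w0 w1 w2 R A G e, ha, fun x => ?_⟩
  unfold NN
  ring

/-- a group, prepared: `kd = 0` row test | else tzN; weights `w0 w1 w2`, `x2 = 2 pm w0` if `xy = 2` -/
structure PG where
  (kd th pi xi uq uf u2 c w0 w1 w2 x2 : ℕ)

/-- used and kept units with value -/
def PG.s (g : PG) (n hx P X K F S C : ℤ) : ℤ :=
  g.th * (n + hx) + (g.pi * P + g.xi * X) + (g.uq * K + g.uf * F + g.u2 * S) + g.c * C

/-- `m + k + ka` -/
def PG.e (g : PG) (n hx P X K F S C Ca : ℤ) : ℤ :=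
  g.s n hx P X K F S C + (g.uq * K + g.uf * F + g.u2 * S) + g.c * Ca

/-- the value of a prepared group -/
def PG.vl (g : PG) (R A d n hx P X K F S C Ca : ℤ) : ℤ :=
  if g.kd = 0 then
    TT g.w0 g.w1 g.w2 g.x2 g.th R A (d + (1 - g.th) * n) (n + hx) n (g.s n hx P X K F S C)
      (g.e n hx P X K F S C Ca)
  else NN g.w0 g.w1 g.w2 R A (d + (1 - g.th) * n) (g.s n hx P X K F S C)

/-- convex in every letter -/
lemma PG.cvx (g : PG) (hth : g.th ≤ 1) (R A d n hx P X K F S C Ca : ℤ) :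
    Cvx (fun d => g.vl R A d n hx P X K F S C Ca) ∧ Cvx (fun n => g.vl R A d n hx P X K F S C Ca) ∧
    Cvx (fun hx => g.vl R A d n hx P X K F S C Ca) ∧ Cvx (fun P => g.vl R A d n hx P X K F S C Ca) ∧
    Cvx (fun X => g.vl R A d n hx P X K F S C Ca) ∧ Cvx (fun K => g.vl R A d n hx P X K F S C Ca) ∧
    Cvx (fun F => g.vl R A d n hx P X K F S C Ca) ∧ Cvx (fun S => g.vl R A d n hx P X K F S C Ca) ∧
    Cvx (fun C => g.vl R A d n hx P X K F S C Ca) ∧
    Cvx (fun Ca => g.vl R A d n hx P X K F S C Ca) := by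
  have h0 : (0 : ℤ) ≤ g.w0 := Nat.cast_nonneg _
  have sq : ∀ x : ℤ, 0 ≤ (g.w0 : ℤ) * (x * x - 2 * (x * 0) - g.th * (0 * 0)) := fun x => by
    have := mul_nonneg h0 (mul_self_nonneg x)
    linarith
  have sq2 : ∀ x : ℤ, 0 ≤ (g.w0 : ℤ) * (2 * (x * x) - 2 * (x * 0)) := fun x => by
    have := mul_nonneg h0 (mul_self_nonneg x)
    linarith
  obtain ⟨t, ht⟩ : ∃ t : ℤ, t = g.th := ⟨_, rfl⟩
  have ht2 : t * t = t := by
    rcases Nat.le_one_iff_eq_zero_or_eq_one.1 hth with h7 | h7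
    · rw [ht, h7]; rfl
    · rw [ht, h7]; rfl
  by_cases hk : g.kd = 0
  · simp only [PG.vl, if_pos hk]
    obtain ⟨s, hs⟩ : ∃ s : ℤ, s = g.s n hx P X K F S C := ⟨_, rfl⟩
    obtain ⟨e, he⟩ : ∃ e : ℤ, e = g.e n hx P X K F S C Ca := ⟨_, rfl⟩
    refine ⟨?_, ?_, ?_, ?_, ?_, ?_, ?_, ?_, ?_, ?_⟩
    · exact (TT_cvx g.w0 g.w1 g.w2 g.x2 g.th R A ((1 - g.th) * n) (n + hx) n s e 1 0 0 0 0
        (by simp)).congr fun x => by rw [hs, he]; congr 1 <;> ring
    · refine (TT_cvx g.w0 g.w1 g.w2 g.x2 g.th R A d hx 0 (s - g.th * n) (e - g.th * n)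
        (1 - g.th) 1 1 g.th g.th ?_).congr fun x => by
          rw [hs, he]
          unfold PG.e PG.s
          congr 1 <;> ring
      rw [← ht]
      have : t * t - 2 * (t * (1 - t)) - t * (1 * 1) = 0 := by linarith [ht2]
      rw [this, mul_zero]
    · exact (TT_cvx g.w0 g.w1 g.w2 g.x2 g.th R A (d + (1 - g.th) * n) n n (s - g.th * hx)
        (e - g.th * hx) 0 1 0 g.th g.th (sq _)).congr fun x => by
          rw [hs, he]
          unfold PG.e PG.s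
          congr 1 <;> ring
    · exact (TT_cvx g.w0 g.w1 g.w2 g.x2 g.th R A (d + (1 - g.th) * n) (n + hx) n (s - g.pi * P)
        (e - g.pi * P) 0 0 0 g.pi g.pi (sq _)).congr fun x => by
          rw [hs, he]
          unfold PG.e PG.s
          congr 1 <;> ring
    · exact (TT_cvx g.w0 g.w1 g.w2 g.x2 g.th R A (d + (1 - g.th) * n) (n + hx) n (s - g.xi * X)
        (e - g.xi * X) 0 0 0 g.xi g.xi (sq _)).congr fun x => by
          rw [hs, he]
          unfold PG.e PG.s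
          congr 1 <;> ring
    · exact (TT_cvx g.w0 g.w1 g.w2 g.x2 g.th R A (d + (1 - g.th) * n) (n + hx) n (s - g.uq * K)
        (e - 2 * g.uq * K) 0 0 0 g.uq (2 * g.uq) (sq _)).congr fun x => by
          rw [hs, he]
          unfold PG.e PG.s
          congr 1 <;> ring
    · exact (TT_cvx g.w0 g.w1 g.w2 g.x2 g.th R A (d + (1 - g.th) * n) (n + hx) n (s - g.uf * F)
        (e - 2 * g.uf * F) 0 0 0 g.uf (2 * g.uf) (sq _)).congr fun x => by
          rw [hs, he]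
          unfold PG.e PG.s
          congr 1 <;> ring
    · exact (TT_cvx g.w0 g.w1 g.w2 g.x2 g.th R A (d + (1 - g.th) * n) (n + hx) n (s - g.u2 * S)
        (e - 2 * g.u2 * S) 0 0 0 g.u2 (2 * g.u2) (sq _)).congr fun x => by
          rw [hs, he]
          unfold PG.e PG.s
          congr 1 <;> ring
    · exact (TT_cvx g.w0 g.w1 g.w2 g.x2 g.th R A (d + (1 - g.th) * n) (n + hx) n (s - g.c * C)
        (e - g.c * C) 0 0 0 g.c g.c (sq _)).congr fun x => by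
          rw [hs, he]
          unfold PG.e PG.s
          congr 1 <;> ring
    · exact (TT_cvx g.w0 g.w1 g.w2 g.x2 g.th R A (d + (1 - g.th) * n) (n + hx) n s
        (e - g.c * Ca) 0 0 0 0 g.c (sq _)).congr fun x => by
          rw [hs, he]
          unfold PG.e PG.s
          congr 1 <;> ring
  · simp only [PG.vl, if_neg hk]
    obtain ⟨s, hs⟩ : ∃ s : ℤ, s = g.s n hx P X K F S C := ⟨_, rfl⟩
    refine ⟨?_, ?_, ?_, ?_, ?_, ?_, ?_, ?_, ?_, ?_⟩
    · exact (NN_cvx g.w0 g.w1 g.w2 R A ((1 - g.th) * n) s 1 0 (by simp)).congr fun x => by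
        rw [hs]; congr 1 <;> ring
    · refine (NN_cvx g.w0 g.w1 g.w2 R A d (s - g.th * n) (1 - g.th) g.th ?_).congr fun x => by
          rw [hs]
          unfold PG.s
          congr 1 <;> ring
      rw [← ht]
      have : 2 * (t * t) - 2 * (t * (1 - t)) = 2 * t := by linarith [ht2]
      rw [this, ht]
      positivity
    · exact (NN_cvx g.w0 g.w1 g.w2 R A (d + (1 - g.th) * n) (s - g.th * hx) 0 g.th
        (sq2 _)).congr fun x => by
          rw [hs]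
          unfold PG.s
          congr 1 <;> ring
    · exact (NN_cvx g.w0 g.w1 g.w2 R A (d + (1 - g.th) * n) (s - g.pi * P) 0 g.pi
        (sq2 _)).congr fun x => by
          rw [hs]
          unfold PG.s
          congr 1 <;> ring
    · exact (NN_cvx g.w0 g.w1 g.w2 R A (d + (1 - g.th) * n) (s - g.xi * X) 0 g.xi
        (sq2 _)).congr fun x => by
          rw [hs]
          unfold PG.s
          congr 1 <;> ring
    · exact (NN_cvx g.w0 g.w1 g.w2 R A (d + (1 - g.th) * n) (s - g.uq * K) 0 g.uq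
        (sq2 _)).congr fun x => by
          rw [hs]
          unfold PG.s
          congr 1 <;> ring
    · exact (NN_cvx g.w0 g.w1 g.w2 R A (d + (1 - g.th) * n) (s - g.uf * F) 0 g.uf
        (sq2 _)).congr fun x => by
          rw [hs]
          unfold PG.s
          congr 1 <;> ring
    · exact (NN_cvx g.w0 g.w1 g.w2 R A (d + (1 - g.th) * n) (s - g.u2 * S) 0 g.u2
        (sq2 _)).congr fun x => by
          rw [hs]
          unfold PG.s
          congr 1 <;> ring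
    · exact (NN_cvx g.w0 g.w1 g.w2 R A (d + (1 - g.th) * n) (s - g.c * C) 0 g.c
        (sq2 _)).congr fun x => by
          rw [hs]
          unfold PG.s
          congr 1 <;> ring
    · exact Cvx.const _

/-! ### the kernel functions -/

/-- conjunction -/
noncomputable def an' (x y : Bool) : Bool := Bool.rec (motive := fun _ => Bool) false y x

lemma an'_eq {x y : Bool} (h : an' x y = true) : x = true ∧ y = true := by
  cases x
  · exact absurd h Bool.false_ne_true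
  · exact ⟨rfl, h⟩

/-- the sums of the multipliers -/
noncomputable def ws (jb : ℕ) (k : ℕ → ℕ → ℕ → Bool) (js : List (ℕ × ℕ)) : ℕ → ℕ → ℕ → Bool :=
  List.rec (motive := fun _ => ℕ → ℕ → ℕ → Bool) k
    (fun w _ ih a b c => an' (Nat.ble w.2 jb) (Mid.frN (Nat.add a w.1) fun a' =>
      Mid.frN (Nat.mul w.1 w.2) fun m => Mid.frN (Nat.add b m) fun b' =>
        Mid.frN (Nat.add c (Nat.mul m w.2)) fun c' => ih a' b' c')) js

/-- sums of multipliers -/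
def W0 (js : List (ℕ × ℕ)) : ℕ := (js.map fun w => w.1).sum

/-- sums of multipliers -/
def W1 (js : List (ℕ × ℕ)) : ℕ := (js.map fun w => w.1 * w.2).sum

/-- sums of multipliers -/
def W2 (js : List (ℕ × ℕ)) : ℕ := (js.map fun w => w.1 * w.2 * w.2).sum

lemma ws_sound {jb : ℕ} {k : ℕ → ℕ → ℕ → Bool} : ∀ {js : List (ℕ × ℕ)} {a b c : ℕ},
    ws jb k js a b c = true → (∀ w ∈ js, w.2 ≤ jb) ∧ k (a + W0 js) (b + W1 js) (c + W2 js) = true := by
  intro js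
  induction js with
  | nil =>
    intro a b c h
    exact ⟨fun w hw => by simp at hw, h⟩
  | cons w js ih =>
    intro a b c h
    have h1 : an' (Nat.ble w.2 jb) (Mid.frN (Nat.add a w.1) fun a' =>
      Mid.frN (Nat.mul w.1 w.2) fun m => Mid.frN (Nat.add b m) fun b' =>
        Mid.frN (Nat.add c (Nat.mul m w.2)) fun c' => ws jb k js a' b' c') = true := h
    obtain ⟨h2, h3⟩ := an'_eq h1
    simp only [Mid.frN_eq] at h3
    obtain ⟨h4, h5⟩ := ih h3
    refine ⟨fun v hv => ?_, ?_⟩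
    · rcases List.mem_cons.1 hv with rfl | hv
      · exact Nat.le_of_ble_eq_true h2
      · exact h4 v hv
    · have e0 : a + W0 (w :: js) = Nat.add a w.1 + W0 js := by
        show a + (w.1 + W0 js) = a + w.1 + W0 js
        ring
      have e1 : b + W1 (w :: js) = Nat.add b (Nat.mul w.1 w.2) + W1 js := by
        show b + (w.1 * w.2 + W1 js) = b + w.1 * w.2 + W1 js
        ring
      have e2 : c + W2 (w :: js) = Nat.add c (Nat.mul (Nat.mul w.1 w.2) w.2) + W2 js := by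
        show c + (w.1 * w.2 * w.2 + W2 js) = c + w.1 * w.2 * w.2 + W2 js
        ring
      rw [e0, e1, e2]
      exact h5

/-- one of six cases -/
noncomputable def sel (t a0 a1 a2 a3 a4 a5 : ℕ) : ℕ :=
  Nat.casesOn (motive := fun _ => ℕ) t a0 fun t => Nat.casesOn (motive := fun _ => ℕ) t a1 fun t =>
    Nat.casesOn (motive := fun _ => ℕ) t a2 fun t => Nat.casesOn (motive := fun _ => ℕ) t a3 fun t =>
      Nat.casesOn (motive := fun _ => ℕ) t a4 fun t => Nat.casesOn (motive := fun _ => ℕ) t a5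
        fun _ => a3

/-- minimum -/
noncomputable def mn' (a b : ℕ) : ℕ := Nat.sub a (Nat.sub a b)

lemma mn'_le (a b : ℕ) : mn' a b ≤ a ∧ mn' a b ≤ b := by
  unfold mn'
  show a - (a - b) ≤ a ∧ a - (a - b) ≤ b
  omega

/-- the flags of a group, prepared -/
noncomputable def pgF (g : GrD) (sc : ℕ) (pm a b c : ℕ) : PG :=
  ⟨sel g.ty 0 1 0 1 0 1, g.th, sel g.xy 1 1 0 0 0 0, sel g.xy 1 0 0 0 0 0,
    sel g.ty g.uq g.uq 0 0 g.uq g.uq, sel g.ty g.uf g.uf 0 0 g.uf g.uf, sel g.ty 0 0 0 0 1 1, g.c,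
    sc * a, sc * b, sc * c, sel g.xy 0 0 2 0 0 0 * (pm * (sc * a))⟩

/-- `a` if `a ≤ b`, else `0` -/
noncomputable def bl0 (a b : ℕ) : ℕ := Bool.rec (motive := fun _ => ℕ) 0 a (Nat.ble a b)

lemma bl0_le (a b : ℕ) : bl0 a b = 0 ∨ (bl0 a b = a ∧ a ≤ b) := by
  unfold bl0
  rcases h : Nat.ble a b with _ | _
  · left; rfl
  · right
    exact ⟨rfl, Nat.le_of_ble_eq_true h⟩

/-- **preparation of a group**; the upper corner of the letters for tzN; `S0 S1` bounds of the number of halves, `s0 s1`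
of the number of all served units of value one -/
noncomputable def pre (R pm S0 s0 s1 h1 P1 X1 K1 F1 S1 C1 : ℕ) (k : PG → Bool) (g : GrD) :
    Bool :=
  an' (Nat.ble g.th 1) (an' (Nat.ble g.uq 1) (an' (Nat.ble g.uf 1) (an' (Nat.ble g.c 1)
  (an' (Nat.ble g.xy 2)
  (an' (Nat.ble (sel g.ty S1 0 s1 0 0 0) g.k1) (an' (Nat.ble (sel g.ty 2 0 2 0 0 0) g.k1)
  (an' (Nat.ble (sel g.ty 0 0 g.k0 g.k0 0 0) s0)
  (Mid.frN (sel g.ty 0 1 0 1 0 1) fun kd =>
  Mid.frN (sel g.xy 1 1 0 0 0 0) fun pi => Mid.frN (sel g.xy 1 0 0 0 0 0) fun xi =>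
  Mid.frN (sel g.ty g.uq g.uq 0 0 g.uq g.uq) fun uq =>
  Mid.frN (sel g.ty g.uf g.uf 0 0 g.uf g.uf) fun uf =>
  Mid.frN (sel g.ty 0 0 0 0 1 1) fun u2 =>
  Mid.frN (Nat.mul g.k0 (Nat.mul g.k1 (Nat.sub g.k1 1))) fun sk =>
  Mid.frN (sel g.ty sk g.k0 sk g.k0 1 1) fun sc =>
  Mid.frN (Nat.add (Nat.add (Nat.mul g.th h1) (Nat.add (Nat.mul pi P1) (Nat.mul xi X1)))
    (Nat.add (Nat.add (Nat.mul uq K1) (Nat.add (Nat.mul uf F1) (Nat.mul u2 S1))) (Nat.mul g.c C1)))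
    fun E =>
  Mid.frN (Nat.div (Nat.sub R (Nat.mul 2 E)) 2) fun q =>
  Mid.frN (bl0 g.k0 S0) fun b0 =>
  Mid.frN (sel g.ty b0 (mn' b0 q) g.k0 (mn' g.k0 q) 0 0) fun jb =>
  an' (Nat.casesOn (motive := fun _ => Bool) kd true
    fun _ => an' (Nat.ble g.xy 1) (Nat.ble (Nat.mul 2 E) R))
  (ws jb (fun a b c => Mid.frN (Nat.mul sc a) fun w0 => Mid.frN (Nat.mul sc b) fun w1 =>
    Mid.frN (Nat.mul sc c) fun w2 =>
    Mid.frN (Nat.mul (sel g.xy 0 0 2 0 0 0) (Nat.mul pm w0)) fun x2 =>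
    k ⟨kd, g.th, pi, xi, uq, uf, u2, g.c, w0, w1, w2, x2⟩) g.js 0 0 0)))))))))

/-- what a prepared group knows -/
structure PreF (R S0 s0 s1 h1 P1 X1 K1 F1 S1 C1 : ℕ) (g : GrD) : Prop where
  th : g.th ≤ 1
  uq : g.uq ≤ 1
  uf : g.uf ≤ 1
  c : g.c ≤ 1
  xy : g.xy ≤ 2
  c1 : sel g.ty S1 0 s1 0 0 0 ≤ g.k1
  c2 : sel g.ty 2 0 2 0 0 0 ≤ g.k1
  c3 : sel g.ty 0 0 g.k0 g.k0 0 0 ≤ s0
  jb : ∀ w ∈ g.js, w.2 ≤ sel g.ty (bl0 g.k0 S0) (bl0 g.k0 S0) g.k0 g.k0 0 0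
  n1 : sel g.ty 0 1 0 1 0 1 = 1 → g.xy ≤ 1 ∧
    ∀ w ∈ g.js, 2 * (g.th * h1 + (sel g.xy 1 1 0 0 0 0 * P1 + sel g.xy 1 0 0 0 0 0 * X1)
      + (sel g.ty g.uq g.uq 0 0 g.uq g.uq * K1 + (sel g.ty g.uf g.uf 0 0 g.uf g.uf * F1
        + sel g.ty 0 0 0 0 1 1 * S1) + g.c * C1)) + 2 * w.2 ≤ R

lemma sel_cases (t : ℕ) : (t = 0 ∨ t = 1 ∨ t = 2 ∨ t = 4 ∨ t = 5) ∨
    (t ≠ 0 ∧ t ≠ 1 ∧ t ≠ 2 ∧ t ≠ 4 ∧ t ≠ 5 ∧ ∀ a0 a1 a2 a3 a4 a5, sel t a0 a1 a2 a3 a4 a5 = a3) := by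
  rcases t with _ | _ | _ | _ | _ | _ | t
  · simp
  · simp
  · simp
  · right
    exact ⟨by norm_num, by norm_num, by norm_num, by norm_num, by norm_num, fun _ _ _ _ _ _ => rfl⟩
  · simp
  · simp
  · right
    exact ⟨by omega, by omega, by omega, by omega, by omega, fun _ _ _ _ _ _ => rfl⟩

/-- the scale of a group -/
noncomputable def scG (g : GrD) : ℕ :=
  sel g.ty (g.k0 * (g.k1 * (g.k1 - 1))) g.k0 (g.k0 * (g.k1 * (g.k1 - 1))) g.k0 1 1

lemma pre_sound {R pm S0 s0 s1 h1 P1 X1 K1 F1 S1 C1 : ℕ} {k : PG → Bool} {g : GrD}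
    (h : pre R pm S0 s0 s1 h1 P1 X1 K1 F1 S1 C1 k g = true) :
    PreF R S0 s0 s1 h1 P1 X1 K1 F1 S1 C1 g ∧
      k (pgF g (scG g) pm (W0 g.js) (W1 g.js) (W2 g.js)) = true := by
  obtain ⟨c1, h⟩ := an'_eq h
  obtain ⟨c2, h⟩ := an'_eq h
  obtain ⟨c3, h⟩ := an'_eq h
  obtain ⟨c4, h⟩ := an'_eq h
  obtain ⟨c5, h⟩ := an'_eq h
  obtain ⟨d1, h⟩ := an'_eq h
  obtain ⟨d2, h⟩ := an'_eq h
  obtain ⟨d3, h⟩ := an'_eq h
  simp only [Mid.frN_eq] at h
  obtain ⟨c6, h⟩ := an'_eq h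
  obtain ⟨c7, h⟩ := ws_sound h
  simp only [Nat.zero_add] at h
  have b1 := Nat.le_of_ble_eq_true c1
  have b2 := Nat.le_of_ble_eq_true c2
  have b3 := Nat.le_of_ble_eq_true c3
  have b4 := Nat.le_of_ble_eq_true c4
  have b5 := Nat.le_of_ble_eq_true c5
  refine ⟨⟨b1, b2, b3, b4, b5, Nat.le_of_ble_eq_true d1, Nat.le_of_ble_eq_true d2,
    Nat.le_of_ble_eq_true d3, fun w hw => ?_, fun hkd => ?_⟩, h⟩
  · refine (c7 w hw).trans ?_
    rcases sel_cases g.ty with h2 | ⟨-, -, -, -, -, h2⟩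
    · rcases h2 with h2 | h2 | h2 | h2 | h2
      · rw [h2]; exact le_rfl
      · rw [h2]; exact (mn'_le _ _).1
      · rw [h2]; exact le_rfl
      · rw [h2]; exact le_rfl
      · rw [h2]; exact le_rfl
    · simp only [h2]; exact (mn'_le _ _).1
  · rw [hkd] at c6
    obtain ⟨c8, c9⟩ := an'_eq (show an' (Nat.ble g.xy 1) (Nat.ble (Nat.mul 2 _) R) = true from c6)
    have b8 := Nat.le_of_ble_eq_true c8
    have b9 := Nat.le_of_ble_eq_true c9
    refine ⟨b8, fun w hw => ?_⟩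
    have b10 := c7 w hw
    obtain ⟨E, hE⟩ : ∃ E : ℕ, E = g.th * h1 + (sel g.xy 1 1 0 0 0 0 * P1 + sel g.xy 1 0 0 0 0 0 * X1)
      + (sel g.ty g.uq g.uq 0 0 g.uq g.uq * K1 + (sel g.ty g.uf g.uf 0 0 g.uf g.uf * F1
        + sel g.ty 0 0 0 0 1 1 * S1) + g.c * C1) := ⟨_, rfl⟩
    have b11 : 2 * E ≤ R := by rw [hE]; exact b9
    have b12 : w.2 ≤ (R - 2 * E) / 2 := by
      refine b10.trans ?_
      have z0 : ((R - 2 * E) / 2 : ℕ) = Nat.div (Nat.sub R (Nat.mul 2 E)) 2 := rfl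
      rcases sel_cases g.ty with h2 | ⟨-, -, -, -, -, h2⟩
      · rcases h2 with h2 | h2 | h2 | h2 | h2
        · rw [h2] at hkd; exact absurd hkd (by decide)
        · rw [hE, h2]; exact (mn'_le _ _).2
        · rw [h2] at hkd; exact absurd hkd (by decide)
        · rw [h2] at hkd; exact absurd hkd (by decide)
        · rw [h2]; exact Nat.zero_le _
      · rw [hE]
        simp only [h2]
        exact (mn'_le _ _).2
    rw [← hE]
    omega

/-! ### the value of a group -/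

lemma sum_js {f : ℕ → ℤ} {a b c : ℤ} : ∀ {js : List (ℕ × ℕ)},
    (∀ w ∈ js, f w.2 = a + b * w.2 + c * (w.2 * w.2)) →
    (js.map fun w => (w.1 : ℤ) * f w.2).sum = a * W0 js + b * W1 js + c * W2 js := by
  intro js
  induction js with
  | nil =>
    intro _
    simp [W0, W1, W2]
  | cons w js ih =>
    intro h
    have h1 := ih fun v hv => h v (List.mem_cons_of_mem _ hv)
    have h2 := h w List.mem_cons_self
    have e0 : W0 (w :: js) = w.1 + W0 js := rfl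
    have e1 : W1 (w :: js) = w.1 * w.2 + W1 js := rfl
    have e2 : W2 (w :: js) = w.1 * w.2 * w.2 + W2 js := rfl
    rw [List.map_cons, List.sum_cons, h1, h2, e0, e1, e2]
    push_cast
    ring

lemma TT_lin (w0 w1 w2 x2 th R A G h n s e : ℤ) : TT w0 w1 w2 x2 th R A G h n s e
    = w0 * TT 1 0 0 0 th R A G h n s e + w1 * TT 0 1 0 0 th R A G h n s e
      + w2 * TT 0 0 1 0 th R A G h n s e + x2 * TT 0 0 0 1 th R A G h n s e := by
  unfold TT
  ring

lemma NN_lin (w0 w1 w2 R A G e : ℤ) : NN w0 w1 w2 R A G e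
    = w0 * NN 1 0 0 R A G e + w1 * NN 0 1 0 R A G e + w2 * NN 0 0 1 R A G e := by
  unfold NN
  ring

lemma cast_nn1 (k : ℕ) : ((k * (k - 1) : ℕ) : ℤ) = (k : ℤ) * (k - 1) := by
  rcases Nat.eq_zero_or_pos k with h | h
  · rw [h]; simp
  · push_cast [Nat.cast_sub h]
    ring

lemma sel_pi {xy : ℕ} (hxy : xy ≤ 2) (P X : ℤ) :
    (sel xy 1 1 0 0 0 0 : ℕ) * P + (sel xy 1 0 0 0 0 0 : ℕ) * X
      = if xy = 0 then X + P else if xy = 1 then P else 0 := by
  rcases (by omega : xy = 0 ∨ xy = 1 ∨ xy = 2) with h | h | h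
  · rw [h]
    have e1 : sel 0 1 1 0 0 0 0 = 1 := rfl
    have e2 : sel 0 1 0 0 0 0 0 = 1 := rfl
    rw [e1, e2, if_pos rfl]
    push_cast
    ring
  · rw [h]
    have e1 : sel 1 1 1 0 0 0 0 = 1 := rfl
    have e2 : sel 1 1 0 0 0 0 0 = 0 := rfl
    rw [e1, e2, if_neg (by norm_num), if_pos rfl]
    push_cast
    ring
  · rw [h]
    have e1 : sel 2 1 1 0 0 0 0 = 0 := rfl
    have e2 : sel 2 1 0 0 0 0 0 = 0 := rfl
    rw [e1, e2, if_neg (by norm_num), if_neg (by norm_num)]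
    push_cast
    ring

lemma sel_x2 {xy : ℕ} (hxy : xy ≤ 2) (m : ℕ) :
    ((sel xy 0 0 2 0 0 0 * m : ℕ) : ℤ) = if xy = 2 then 2 * (m : ℤ) else 0 := by
  rcases (by omega : xy = 0 ∨ xy = 1 ∨ xy = 2) with h | h | h
  · rw [h]
    have e1 : sel 0 0 0 2 0 0 0 = 0 := rfl
    rw [e1, if_neg (by norm_num)]
    simp
  · rw [h]
    have e1 : sel 1 0 0 2 0 0 0 = 0 := rfl
    rw [e1, if_neg (by norm_num)]
    simp
  · rw [h]
    have e1 : sel 2 0 0 2 0 0 0 = 2 := rfl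
    rw [e1, if_pos rfl]
    push_cast
    ring

/-- the row test with random halves as `TT` -/
lemma st_TT (κ : TKd) (R A pm d n hx P X K F C Ca : ℤ) :
    κ.st R A pm (n * (n - 1)) (d + (1 - (κ.th : ℤ)) * n) (n + hx) P X K F C Ca
    = κ.sc * TT 1 κ.j (κ.j * κ.j) (if κ.xy = 2 then 2 * pm else 0) κ.th R A
        (d + (1 - (κ.th : ℤ)) * n) (n + hx) n
        (κ.th * (n + hx) + κ.pcs P X + (κ.uq * K + κ.uf * F) + κ.c * C)
        (κ.th * (n + hx) + κ.pcs P X + (κ.uq * K + κ.uf * F) + κ.c * C + (κ.uq * K + κ.uf * F)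
          + κ.c * Ca) := by
  unfold TKd.st TesD TT
  by_cases h : κ.xy = 2
  · rw [if_pos h, if_pos h]
    ring
  · rw [if_neg h, if_neg h]
    ring

/-- tzN with random halves as `NN` -/
lemma sn_NN (κ : TKd) (R A d n hx P X K F C : ℤ) :
    κ.sn R A (d + (1 - (κ.th : ℤ)) * n) (n + hx) P X K F C
    = κ.k0 * NN 1 κ.j (κ.j * κ.j) R A (d + (1 - (κ.th : ℤ)) * n)
        (κ.th * (n + hx) + κ.pcs P X + (κ.uq * K + κ.uf * F) + κ.c * C) := by
  unfold TKd.sn NN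
  ring

/-- the row test with all halves used as `TT` -/
lemma stu_TT (κ : TKd) (R A pm d n hx P X K F S C Ca : ℤ) :
    κ.stu R A pm (n * (n - 1)) (d + (1 - (κ.th : ℤ)) * n) (n + hx) P X K F S C Ca
    = TT 1 0 0 (if κ.xy = 2 then 2 * pm else 0) κ.th R A
        (d + (1 - (κ.th : ℤ)) * n) (n + hx) n
        (κ.th * (n + hx) + κ.pcs P X + (κ.uq * K + κ.uf * F + S) + κ.c * C)
        (κ.th * (n + hx) + κ.pcs P X + (κ.uq * K + κ.uf * F + S) + κ.c * C
          + (κ.uq * K + κ.uf * F + S) + κ.c * Ca) := by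
  unfold TKd.stu TesD TT
  by_cases h : κ.xy = 2
  · rw [if_pos h, if_pos h]
    ring
  · rw [if_neg h, if_neg h]
    ring

/-- tzN with all halves used as `NN` -/
lemma snu_NN (κ : TKd) (R A d n hx P X K F S C : ℤ) :
    κ.snu R A (d + (1 - (κ.th : ℤ)) * n) (n + hx) P X K F S C
    = NN 1 0 0 R A (d + (1 - (κ.th : ℤ)) * n)
        (κ.th * (n + hx) + κ.pcs P X + (κ.uq * K + κ.uf * F + S) + κ.c * C) := by
  unfold TKd.snu NN
  ring

lemma sel0 (a0 a1 a2 a3 a4 a5 : ℕ) : sel 0 a0 a1 a2 a3 a4 a5 = a0 := rfl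
lemma sel1 (a0 a1 a2 a3 a4 a5 : ℕ) : sel 1 a0 a1 a2 a3 a4 a5 = a1 := rfl
lemma sel2 (a0 a1 a2 a3 a4 a5 : ℕ) : sel 2 a0 a1 a2 a3 a4 a5 = a2 := rfl
lemma sel4 (a0 a1 a2 a3 a4 a5 : ℕ) : sel 4 a0 a1 a2 a3 a4 a5 = a4 := rfl
lemma sel5 (a0 a1 a2 a3 a4 a5 : ℕ) : sel 5 a0 a1 a2 a3 a4 a5 = a5 := rfl

lemma coreT {f : ℕ → ℤ} {js : List (ℕ × ℕ)} {sc pm xy : ℕ} (hxy : xy ≤ 2) {th R A G h n s e : ℤ}
    (hf : ∀ w ∈ js, f w.2 = sc * TT 1 w.2 (w.2 * w.2) (if xy = 2 then 2 * pm else 0) th R A G h n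
      s e) :
    (js.map fun w => (w.1 : ℤ) * f w.2).sum
      = TT (sc * W0 js : ℕ) (sc * W1 js : ℕ) (sc * W2 js : ℕ)
        (sel xy 0 0 2 0 0 0 * (pm * (sc * W0 js)) : ℕ) th R A G h n s e := by
  rw [sum_js (f := f) (a := sc * TT 1 0 0 (if xy = 2 then 2 * pm else 0) th R A G h n s e)
    (b := sc * TT 0 1 0 0 th R A G h n s e) (c := sc * TT 0 0 1 0 th R A G h n s e)
    (fun w hw => by
      rw [hf w hw, TT_lin 1 w.2 (w.2 * w.2) _, TT_lin 1 0 0 (if xy = 2 then 2 * (pm : ℤ) else 0)]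
      ring)]
  rw [TT_lin (sc * W0 js : ℕ), sel_x2 hxy, TT_lin 1 0 0 (if xy = 2 then 2 * (pm : ℤ) else 0)]
  by_cases c : xy = 2
  · rw [if_pos c, if_pos c]
    push_cast
    ring
  · rw [if_neg c, if_neg c]
    push_cast
    ring

lemma coreN {f : ℕ → ℤ} {js : List (ℕ × ℕ)} {sc : ℕ} {R A G e : ℤ}
    (hf : ∀ w ∈ js, f w.2 = sc * NN 1 w.2 (w.2 * w.2) R A G e) :
    (js.map fun w => (w.1 : ℤ) * f w.2).sum
      = NN (sc * W0 js : ℕ) (sc * W1 js : ℕ) (sc * W2 js : ℕ) R A G e := by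
  rw [sum_js (f := f) (a := sc * NN 1 0 0 R A G e)
    (b := sc * NN 0 1 0 R A G e) (c := sc * NN 0 0 1 R A G e)
    (fun w hw => by
      rw [hf w hw, NN_lin 1 w.2 (w.2 * w.2), NN_lin 1 0 0]
      ring)]
  rw [NN_lin (sc * W0 js : ℕ), NN_lin 1 0 0]
  push_cast
  ring

/-- **the value of a group is the value of the prepared group** -/
theorem rows_vl (g : GrD) (pm : ℕ) (hxy : g.xy ≤ 2)
    (hj : g.ty = 4 ∨ g.ty = 5 → ∀ w ∈ g.js, w.2 = 0) (R A d n hx P X K F S C Ca : ℤ) :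
    (g.rows.map fun r => (r.1 : ℤ)
      * r.2.rs R A pm (n * (n - 1)) (stD d n hx P X K F S C Ca)).sum
    = (pgF g (scG g) pm (W0 g.js) (W1 g.js) (W2 g.js)).vl R A d n hx P X K F S C Ca := by
  have hpx := sel_pi hxy P X
  have e9 : (g.rows.map fun r => (r.1 : ℤ)
      * r.2.rs R A pm (n * (n - 1)) (stD d n hx P X K F S C Ca))
      = g.js.map fun w => (w.1 : ℤ) * (fun j : ℕ => RKd.rs ⟨g.ty, ⟨g.xy, g.th, g.uq, g.uf, g.c, j,
        g.k0, g.k1⟩⟩ R A pm (n * (n - 1)) (stD d n hx P X K F S C Ca)) w.2 := by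
    unfold GrD.rows
    rw [List.map_map]
    rfl
  have sT : ∀ a b : ℕ, ((a * (b * (b - 1)) : ℕ) : ℤ) = (a : ℤ) * (b * ((b : ℤ) - 1)) := fun a b => by
    rw [Nat.cast_mul, cast_nn1]
  rw [e9]
  obtain ⟨f, hf⟩ : ∃ f : ℕ → ℤ, f = fun j : ℕ => RKd.rs ⟨g.ty, ⟨g.xy, g.th, g.uq, g.uf, g.c, j,
    g.k0, g.k1⟩⟩ R A pm (n * (n - 1)) (stD d n hx P X K F S C Ca) := ⟨_, rfl⟩
  rw [← hf]
  have z01 : ¬ ((1 : ℕ) = 0) := by norm_num
  unfold PG.vl scG
  rcases sel_cases g.ty with h2 | ⟨t0, t1, t2, t4, t5, h2⟩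
  · rcases h2 with h2 | h2 | h2 | h2 | h2
    · -- ty = 0
      unfold pgF PG.e PG.s
      simp only [h2, sel0, if_true, hpx]
      refine (coreT (f := f) (sc := g.k0 * (g.k1 * (g.k1 - 1))) (pm := pm) (xy := g.xy) hxy
        (th := g.th) (R := R) (A := A) (G := d + (1 - (g.th : ℤ)) * n) (h := n + hx) (n := n)
        (s := g.th * (n + hx) + (if g.xy = 0 then X + P else if g.xy = 1 then P else 0)
          + (g.uq * K + g.uf * F) + g.c * C)
        (e := g.th * (n + hx) + (if g.xy = 0 then X + P else if g.xy = 1 then P else 0)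
          + (g.uq * K + g.uf * F) + g.c * C + (g.uq * K + g.uf * F) + g.c * Ca)
        (fun w hw => ?_)).trans ?_
      · rw [sT, hf]
        unfold RKd.rs
        simp only [if_pos h2]
        exact st_TT ⟨g.xy, g.th, g.uq, g.uf, g.c, w.2, g.k0, g.k1⟩ R A pm d n hx P X K F C Ca
      · congr 1 <;> push_cast <;> ring
    · -- ty = 1
      have h3 : ¬ g.ty = 0 := by omega
      unfold pgF PG.s
      simp only [h2, sel1, if_neg z01, hpx]
      refine (coreN (f := f) (sc := g.k0) (R := R) (A := A) (G := d + (1 - (g.th : ℤ)) * n)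
        (e := g.th * (n + hx) + (if g.xy = 0 then X + P else if g.xy = 1 then P else 0)
          + (g.uq * K + g.uf * F) + g.c * C) (fun w hw => ?_)).trans ?_
      · rw [hf]
        unfold RKd.rs
        simp only [if_neg h3, if_pos h2]
        exact sn_NN ⟨g.xy, g.th, g.uq, g.uf, g.c, w.2, g.k0, g.k1⟩ R A d n hx P X K F C
      · congr 1 <;> push_cast <;> ring
    · -- ty = 2
      have h3 : ¬ g.ty = 0 := by omega
      have h4 : ¬ g.ty = 1 := by omega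
      unfold pgF PG.e PG.s
      simp only [h2, sel2, if_true, hpx]
      refine (coreT (f := f) (sc := g.k0 * (g.k1 * (g.k1 - 1))) (pm := pm) (xy := g.xy) hxy
        (th := g.th) (R := R) (A := A) (G := d + (1 - (g.th : ℤ)) * n) (h := n + hx) (n := n)
        (s := g.th * (n + hx) + (if g.xy = 0 then X + P else if g.xy = 1 then P else 0)
          + (g.uq * 0 + g.uf * 0) + g.c * C)
        (e := g.th * (n + hx) + (if g.xy = 0 then X + P else if g.xy = 1 then P else 0)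
          + (g.uq * 0 + g.uf * 0) + g.c * C + (g.uq * 0 + g.uf * 0) + g.c * Ca)
        (fun w hw => ?_)).trans ?_
      · rw [sT, hf]
        unfold RKd.rs
        simp only [if_neg h3, if_neg h4, if_pos h2]
        exact st_TT ⟨g.xy, g.th, g.uq, g.uf, g.c, w.2, g.k0, g.k1⟩ R A pm d n hx P X 0 0 C Ca
      · congr 1 <;> push_cast <;> ring
    · -- ty = 4
      have h3 : ¬ g.ty = 0 := by omega
      have h4 : ¬ g.ty = 1 := by omega
      have h6 : ¬ g.ty = 2 := by omega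
      unfold pgF PG.e PG.s
      simp only [h2, sel4, if_true, hpx]
      refine (coreT (f := f) (sc := 1) (pm := pm) (xy := g.xy) hxy
        (th := g.th) (R := R) (A := A) (G := d + (1 - (g.th : ℤ)) * n) (h := n + hx) (n := n)
        (s := g.th * (n + hx) + (if g.xy = 0 then X + P else if g.xy = 1 then P else 0)
          + (g.uq * K + g.uf * F + S) + g.c * C)
        (e := g.th * (n + hx) + (if g.xy = 0 then X + P else if g.xy = 1 then P else 0)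
          + (g.uq * K + g.uf * F + S) + g.c * C + (g.uq * K + g.uf * F + S) + g.c * Ca)
        (fun w hw => ?_)).trans ?_
      · rw [hf, hj (Or.inl h2) w hw]
        unfold RKd.rs
        simp only [if_neg h3, if_neg h4, if_neg h6, if_pos h2]
        have := stu_TT ⟨g.xy, g.th, g.uq, g.uf, g.c, 0, g.k0, g.k1⟩
          R A pm d n hx P X K F S C Ca
        simp only [Nat.cast_zero, Nat.cast_one, mul_zero, one_mul]
        exact this
      · congr 1 <;> push_cast <;> ring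
    · -- ty = 5
      have h3 : ¬ g.ty = 0 := by omega
      have h4 : ¬ g.ty = 1 := by omega
      have h6 : ¬ g.ty = 2 := by omega
      have h7 : ¬ g.ty = 4 := by omega
      unfold pgF PG.s
      simp only [h2, sel5, if_neg z01, hpx]
      refine (coreN (f := f) (sc := 1) (R := R) (A := A) (G := d + (1 - (g.th : ℤ)) * n)
        (e := g.th * (n + hx) + (if g.xy = 0 then X + P else if g.xy = 1 then P else 0)
          + (g.uq * K + g.uf * F + S) + g.c * C) (fun w hw => ?_)).trans ?_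
      · rw [hf, hj (Or.inr h2) w hw]
        unfold RKd.rs
        simp only [if_neg h3, if_neg h4, if_neg h6, if_neg h7, if_pos h2]
        have := snu_NN ⟨g.xy, g.th, g.uq, g.uf, g.c, 0, g.k0, g.k1⟩
          R A d n hx P X K F S C
        simp only [Nat.cast_zero, Nat.cast_one, mul_zero, one_mul]
        exact this
      · congr 1 <;> push_cast <;> ring
  · -- else
    unfold pgF PG.s
    simp only [h2, if_neg z01, hpx]
    refine (coreN (f := f) (sc := g.k0) (R := R) (A := A) (G := d + (1 - (g.th : ℤ)) * n)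
      (e := g.th * (n + hx) + (if g.xy = 0 then X + P else if g.xy = 1 then P else 0)
        + (g.uq * 0 + g.uf * 0) + g.c * C) (fun w hw => ?_)).trans ?_
    · rw [hf]
      unfold RKd.rs
      simp only [if_neg t0, if_neg t1, if_neg t2, if_neg t4, if_neg t5]
      exact sn_NN ⟨g.xy, g.th, g.uq, g.uf, g.c, w.2, g.k0, g.k1⟩ R A d n hx P X 0 0 C
    · congr 1 <;> push_cast <;> ring

/-! ### the corners -/

/-- forced evaluation -/
noncomputable def fr {β : Type} (n : ℕ) (k : ℕ → β) : β :=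
  Nat.rec (motive := fun _ => β) (k 0) (fun m _ => k (Nat.succ m)) n

lemma fr_eq {β : Type} (n : ℕ) (k : ℕ → β) : fr n k = k n := by
  cases n <;> rfl

/-- one prepared group at a corner, added to the two sides -/
noncomputable def stepC (R R1 RA A d n h P X K F S C Ca : ℕ) (g : PG) (k : ℕ → ℕ → Bool)
    (p m : ℕ) : Bool :=
  PG.rec (motive := fun _ => Bool) (fun kd th pi xi uq uf u2 c w0 w1 w2 x2 =>
  fr (Nat.add (Nat.mul uq K) (Nat.add (Nat.mul uf F) (Nat.mul u2 S))) fun sv =>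
  fr (Nat.add (Nat.add (Nat.mul th h) (Nat.add (Nat.mul pi P) (Nat.mul xi X)))
    (Nat.add sv (Nat.mul c C))) fun s =>
  fr (Nat.add d (Nat.mul (Nat.sub 1 th) n)) fun G =>
  Nat.rec (motive := fun _ => Bool)
    (fr (Nat.add s (Nat.add sv (Nat.mul c Ca))) fun e =>
      k (Nat.add p (Nat.add (Nat.mul w0 (Nat.add (Nat.mul e (Nat.succ e))
          (Nat.mul 2 (Nat.mul R G))))
        (Nat.add (Nat.mul w1 (Nat.add (Nat.mul 4 e) 2)) (Nat.add (Nat.mul 4 w2)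
          (Nat.mul x2 (Nat.add A (Nat.mul th h)))))))
      (Nat.add m (Nat.add (Nat.mul w0 (Nat.add (Nat.mul 2 (Nat.mul e G))
          (Nat.add (Nat.mul 2 (Nat.mul R1 s)) (Nat.mul th (Nat.mul n (Nat.sub n 1))))))
        (Nat.add (Nat.mul w1 (Nat.add (Nat.mul 4 G) (Nat.mul 2 R1))) (Nat.mul x2 G)))))
    (fun _ _ =>
      k (Nat.add p (Nat.add (Nat.mul w0 (Nat.add (Nat.mul 2 (Nat.mul s s))
          (Nat.mul R G)))
        (Nat.add (Nat.mul w1 (Nat.mul 4 s)) (Nat.mul 2 w2))))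
      (Nat.add m (Nat.add (Nat.mul w0 (Nat.add (Nat.mul 2 (Nat.mul s G))
          (Nat.mul RA s)))
        (Nat.mul w1 (Nat.add (Nat.mul 2 G) RA))))) kd) g

/-- a state at a corner: the prepared groups added to the two sides -/
noncomputable def cor (R R1 RA A d n h P X K F S C Ca : ℕ) (gs : List PG) : ℕ → ℕ → Bool :=
  List.rec (motive := fun _ => ℕ → ℕ → Bool) (fun p m => Nat.ble p m)
    (fun g _ ih => stepC R R1 RA A d n h P X K F S C Ca g ih) gs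

/-- the sum of the values of prepared groups -/
def vls (gs : List PG) (R A d n hx P X K F S C Ca : ℤ) : ℤ :=
  (gs.map fun g => g.vl R A d n hx P X K F S C Ca).sum

lemma stepC_sound {R A d n hx P X K F S C Ca : ℕ} (hA : A ≤ R) {g : PG} {k : ℕ → ℕ → Bool}
    {p m : ℕ} (hg : g.th ≤ 1)
    (h : stepC R (R + 1 - A) (R - A) A d n (n + hx) P X K F S C Ca g k p m = true) :
    ∃ p' m' : ℕ, k p' m' = true ∧ (p : ℤ) - m + g.vl R A d n hx P X K F S C Ca = p' - m' := by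
  have c1 : ((R + 1 - A : ℕ) : ℤ) = R + 1 - A := by
    rw [Nat.cast_sub (by omega)]; push_cast; ring
  have c2 : ((R - A : ℕ) : ℤ) = R - A := by rw [Nat.cast_sub hA]
  have c3 : ((1 - g.th : ℕ) : ℤ) = 1 - g.th := by rw [Nat.cast_sub hg]; rfl
  have c4 : ((n - 1 : ℕ) : ℤ) * n = n * ((n : ℤ) - 1) := by
    have := cast_nn1 n
    push_cast at this
    linarith
  obtain ⟨kd, th, pi, xi, uq, uf, u2, c, w0, w1, w2, x2⟩ := g
  unfold stepC at h
  simp only [fr_eq] at h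
  obtain ⟨r1, hr1⟩ : ∃ r1 : ℕ, r1 = R + 1 - A := ⟨_, rfl⟩
  obtain ⟨r2, hr2⟩ : ∃ r2 : ℕ, r2 = R - A := ⟨_, rfl⟩
  obtain ⟨t1, ht1⟩ : ∃ t1 : ℕ, t1 = 1 - th := ⟨_, rfl⟩
  obtain ⟨n1, hn1⟩ : ∃ n1 : ℕ, n1 = n - 1 := ⟨_, rfl⟩
  rw [← hr1] at c1
  rw [← hr2] at c2
  rw [← ht1] at c3
  rw [← hn1] at c4
  rw [← hr1, ← hr2] at h
  unfold PG.vl
  dsimp only at hg ⊢
  by_cases hk : kd = 0
  · rw [hk] at h
    rw [if_pos hk]
    refine ⟨_, _, h, ?_⟩
    have z1 : Nat.sub 1 th = t1 := ht1.symm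
    have z2 : Nat.sub n 1 = n1 := hn1.symm
    rw [z1, z2]
    simp only [Nat.add_eq, Nat.mul_eq, Nat.succ_eq_add_one]
    push_cast
    unfold TT PG.e PG.s
    rw [c1, c3]
    linear_combination ((w0 : ℤ) * th) * c4
  · obtain ⟨kk, hkk⟩ := Nat.exists_eq_succ_of_ne_zero hk
    rw [hkk] at h
    rw [if_neg hk]
    refine ⟨_, _, h, ?_⟩
    have z1 : Nat.sub 1 th = t1 := ht1.symm
    rw [z1]
    simp only [Nat.add_eq, Nat.mul_eq]
    push_cast
    unfold NN PG.s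
    rw [c2, c3]
    ring

lemma cor_sound {R A d n hx P X K F S C Ca : ℕ} (hA : A ≤ R) : ∀ {gs : List PG} {p m : ℕ},
    (∀ g ∈ gs, g.th ≤ 1) →
    cor R (R + 1 - A) (R - A) A d n (n + hx) P X K F S C Ca gs p m = true →
    (p : ℤ) + vls gs R A d n hx P X K F S C Ca ≤ m := by
  intro gs
  induction gs with
  | nil =>
    intro p m _ h
    have h1 : p ≤ m := Nat.le_of_ble_eq_true h
    unfold vls
    simp only [List.map_nil, List.sum_nil, add_zero]
    exact_mod_cast h1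
  | cons g gs ih =>
    intro p m hth h
    have e0 : vls (g :: gs) R A d n hx P X K F S C Ca
        = g.vl R A d n hx P X K F S C Ca + vls gs R A d n hx P X K F S C Ca := rfl
    rw [e0]
    have h0 : stepC R (R + 1 - A) (R - A) A d n (n + hx) P X K F S C Ca g
      (cor R (R + 1 - A) (R - A) A d n (n + hx) P X K F S C Ca gs) p m = true := h
    obtain ⟨p', m', h1, h2⟩ := stepC_sound hA (hth g List.mem_cons_self) h0
    have h3 := ih (fun g hg => hth g (List.mem_cons_of_mem _ hg)) h1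
    linarith

/-- both ends of an interval -/
noncomputable def two (a b : ℕ) (f : ℕ → Bool) : Bool :=
  Bool.rec (motive := fun _ => Bool) (an' (f a) (f b)) (f a) (Nat.beq a b)

lemma two_le {a b : ℕ} {f : ℕ → Bool} (h : two a b f = true) {g : ℤ → ℤ} (hg : Cvx g) {T : ℤ}
    (hf : ∀ x : ℕ, a ≤ x → x ≤ b → f x = true → g x ≤ T) {x : ℕ} (hx : a ≤ x ∧ x ≤ b) :
    g x ≤ T := by
  have hab : a ≤ b := hx.1.trans hx.2
  have h1 : f a = true ∧ f b = true := by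
    unfold two at h
    rcases hc : Nat.beq a b with _ | _
    · rw [hc] at h
      exact an'_eq h
    · rw [hc] at h
      have := Nat.eq_of_beq_eq_true hc
      rw [← this]
      exact ⟨h, h⟩
  exact hg.le_ends (by exact_mod_cast hx.1) (by exact_mod_cast hx.2) (hf a le_rfl hab h1.1)
    (hf b hab le_rfl h1.2)

/-! ### the lists of groups -/

/-- all groups prepared -/
noncomputable def pres (R pm S0 s0 s1 h1 P1 X1 K1 F1 S1 C1 : ℕ) (k : List PG → Bool)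
    (gs : List GrD) : List PG → Bool :=
  List.rec (motive := fun _ => List PG → Bool) k
    (fun g _ ih acc => pre R pm S0 s0 s1 h1 P1 X1 K1 F1 S1 C1 (fun q => ih (q :: acc)) g) gs

/-- the tests of a list of groups -/
def rowsL (gs : List GrD) : List (ℕ × RKd) := gs.flatMap GrD.rows

lemma pres_sound {R pm S0 s0 s1 h1 P1 X1 K1 F1 S1 C1 : ℕ} {k : List PG → Bool}
    (R' A d n hx P X K F S C Ca : ℤ) : ∀ {gs : List GrD} {acc : List PG},
    pres R pm S0 s0 s1 h1 P1 X1 K1 F1 S1 C1 k gs acc = true → (∀ q ∈ acc, q.th ≤ 1) →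
    ∃ l : List PG, k l = true ∧ (∀ q ∈ l, q.th ≤ 1) ∧
      (∀ g ∈ gs, PreF R S0 s0 s1 h1 P1 X1 K1 F1 S1 C1 g) ∧
      vls l R' A d n hx P X K F S C Ca = vls acc R' A d n hx P X K F S C Ca
        + ((rowsL gs).map fun r => (r.1 : ℤ)
          * r.2.rs R' A pm (n * (n - 1)) (stD d n hx P X K F S C Ca)).sum := by
  intro gs
  induction gs with
  | nil =>
    intro acc h hacc
    refine ⟨acc, h, hacc, fun g hg => by simp at hg, ?_⟩
    unfold rowsL
    simp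
  | cons g gs ih =>
    intro acc h hacc
    have h0 : pre R pm S0 s0 s1 h1 P1 X1 K1 F1 S1 C1
      (fun q => pres R pm S0 s0 s1 h1 P1 X1 K1 F1 S1 C1 k gs (q :: acc)) g = true := h
    obtain ⟨c1, c2⟩ := pre_sound h0
    obtain ⟨l, l1, l2, l3, l4⟩ := ih c2 fun q hq => by
      rcases List.mem_cons.1 hq with rfl | hq
      · exact c1.th
      · exact hacc q hq
    refine ⟨l, l1, l2, fun g' hg' => ?_, ?_⟩
    · rcases List.mem_cons.1 hg' with rfl | hg'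
      · exact c1
      · exact l3 g' hg'
    · have e0 : vls (pgF g (scG g) pm (W0 g.js) (W1 g.js) (W2 g.js) :: acc) R' A d n hx P X K F S C Ca
          = (pgF g (scG g) pm (W0 g.js) (W1 g.js) (W2 g.js)).vl R' A d n hx P X K F S C Ca
            + vls acc R' A d n hx P X K F S C Ca := rfl
      have e1 : rowsL (g :: gs) = g.rows ++ rowsL gs := rfl
      rw [l4, e0, e1, List.map_append, List.sum_append, ← rows_vl g pm c1.xy
        (fun hty w hw => by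
          have := c1.jb w hw
          rcases hty with h2 | h2
          · rw [h2, sel4] at this; omega
          · rw [h2, sel5] at this; omega)]
      ring

/-- the conditions of the tests of a group at a state -/
lemma PreF.ok {R S0 s0 s1 h1 P1 X1 K1 F1 S1 C1 : ℕ} {g : GrD}
    (H : PreF R S0 s0 s1 h1 P1 X1 K1 F1 S1 C1 g) {d n hx P X K F S C Ca : ℕ}
    (hS0 : S0 ≤ S) (hs0 : s0 ≤ K + F + S) (hs1 : K + F + S ≤ s1) (hh : n + hx ≤ h1) (hP : P ≤ P1)
    (hX : X ≤ X1) (hK : K ≤ K1) (hF : F ≤ F1) (hS : S ≤ S1) (hC : C ≤ C1) :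
    ∀ r ∈ g.rows, r.2.ok R (stD d n hx P X K F S C Ca) := by
  intro r hr
  unfold GrD.rows at hr
  rw [List.mem_map] at hr
  obtain ⟨w, hw, rfl⟩ := hr
  have hjb := H.jb w hw
  have e1 := H.c1
  have e2 := H.c2
  have e3 := H.c3
  have hpx := sel_pi H.xy (P : ℤ) X
  have hpc : TKd.pcs ⟨g.xy, g.th, g.uq, g.uf, g.c, w.2, g.k0, g.k1⟩ (P : ℤ) X
      = (sel g.xy 1 1 0 0 0 0 : ℕ) * (P : ℤ) + (sel g.xy 1 0 0 0 0 0 : ℕ) * (X : ℤ) := hpx.symm
  -- tzN at the state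
  have hE : sel g.ty 0 1 0 1 0 1 = 1 → g.xy ≤ 1 ∧
      2 * (g.th * (n + hx) + (sel g.xy 1 1 0 0 0 0 * P + sel g.xy 1 0 0 0 0 0 * X)
      + (sel g.ty g.uq g.uq 0 0 g.uq g.uq * K + (sel g.ty g.uf g.uf 0 0 g.uf g.uf * F
        + sel g.ty 0 0 0 0 1 1 * S) + g.c * C)) + 2 * w.2 ≤ R := fun hkd => by
    obtain ⟨a1, a4⟩ := H.n1 hkd
    refine ⟨a1, le_trans ?_ (a4 w hw)⟩
    have b1 : g.th * (n + hx) ≤ g.th * h1 := Nat.mul_le_mul_left _ hh
    have b2 : sel g.xy 1 1 0 0 0 0 * P ≤ sel g.xy 1 1 0 0 0 0 * P1 := Nat.mul_le_mul_left _ hP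
    have b3 : sel g.xy 1 0 0 0 0 0 * X ≤ sel g.xy 1 0 0 0 0 0 * X1 := Nat.mul_le_mul_left _ hX
    have b4 : sel g.ty g.uq g.uq 0 0 g.uq g.uq * K ≤ sel g.ty g.uq g.uq 0 0 g.uq g.uq * K1 :=
      Nat.mul_le_mul_left _ hK
    have b5 : sel g.ty g.uf g.uf 0 0 g.uf g.uf * F ≤ sel g.ty g.uf g.uf 0 0 g.uf g.uf * F1 :=
      Nat.mul_le_mul_left _ hF
    have b6 : sel g.ty 0 0 0 0 1 1 * S ≤ sel g.ty 0 0 0 0 1 1 * S1 := Nat.mul_le_mul_left _ hS
    have b7 : g.c * C ≤ g.c * C1 := Nat.mul_le_mul_left _ hC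
    omega
  have hjz : w.2 ≤ bl0 g.k0 S0 → (w.2 = 0 ∨ (w.2 ≤ g.k0 ∧ (g.k0 : ℤ) ≤ S)) := fun h => by
    rcases bl0_le g.k0 S0 with h3 | ⟨h3, h4⟩
    · rw [h3] at h
      exact Or.inl (Nat.le_zero.1 h)
    · rw [h3] at h
      right
      exact ⟨h, by exact_mod_cast h4.trans hS0⟩
  have q0 : (s0 : ℤ) ≤ (K : ℤ) + F + S := by exact_mod_cast hs0
  have q1 : (K : ℤ) + F + S ≤ s1 := by exact_mod_cast hs1
  have q2 : (S : ℤ) ≤ S1 := by exact_mod_cast hS
  refine ⟨H.th, H.uq, H.uf, H.c, fun ht => ?_, fun ht => ?_, fun ht => ?_, fun ht => ?_,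
    fun ht => ?_, fun t0 t1 t2 t4 t5 => ?_⟩
  · dsimp only at ht ⊢
    rw [ht, sel0] at hjb e1 e2
    refine ⟨H.xy, hjz hjb, ?_, e2⟩
    have e4 : (S1 : ℤ) ≤ g.k1 := by exact_mod_cast e1
    exact q2.trans e4
  · dsimp only at ht ⊢
    obtain ⟨a1, a2⟩ := hE (by rw [ht]; rfl)
    rw [ht, sel1] at hjb
    rw [ht, sel1, sel1, sel1] at a2
    refine ⟨a1, hjz hjb, ?_⟩
    unfold RKd.ee
    rw [if_pos ht]
    unfold stD
    dsimp only
    rw [hpc]
    have a3 : ((2 * (g.th * (n + hx) + (sel g.xy 1 1 0 0 0 0 * P + sel g.xy 1 0 0 0 0 0 * X)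
      + (g.uq * K + (g.uf * F + 0 * S) + g.c * C)) + 2 * w.2 : ℕ) : ℤ) ≤ R := by
      exact_mod_cast a2
    push_cast at a3
    linarith
  · dsimp only at ht ⊢
    rw [ht, sel2] at hjb e1 e2 e3
    refine ⟨H.xy, hjb, ?_, ?_, e2⟩
    · have e4 : (g.k0 : ℤ) ≤ s0 := by exact_mod_cast e3
      exact e4.trans q0
    · have e4 : (s1 : ℤ) ≤ g.k1 := by exact_mod_cast e1
      exact q1.trans e4
  · exact H.xy
  · dsimp only at ht ⊢
    obtain ⟨a1, a2⟩ := hE (by rw [ht]; rfl)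
    rw [ht, sel5, sel5, sel5] at a2
    refine ⟨a1, ?_⟩
    unfold RKd.ee
    have t1 : ¬ g.ty = 1 := by omega
    rw [if_neg t1, if_pos ht]
    unfold stD
    dsimp only
    rw [hpc]
    have a3 : ((2 * (g.th * (n + hx) + (sel g.xy 1 1 0 0 0 0 * P + sel g.xy 1 0 0 0 0 0 * X)
      + (g.uq * K + (g.uf * F + 1 * S) + g.c * C)) + 2 * w.2 : ℕ) : ℤ) ≤ R := by
      exact_mod_cast a2
    push_cast at a3
    have a4 : (0 : ℤ) ≤ w.2 := Nat.cast_nonneg _
    linarith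
  · dsimp only at t0 t1 t2 t4 t5 ⊢
    obtain ⟨b0, b1, b2, b4, b5, hsel⟩ := (sel_cases g.ty).resolve_left (by omega)
    obtain ⟨a1, a2⟩ := hE (hsel _ _ _ _ _ _)
    rw [hsel] at hjb e3
    simp only [hsel] at a2
    refine ⟨a1, hjb, ?_, ?_⟩
    · have e4 : (g.k0 : ℤ) ≤ s0 := by exact_mod_cast e3
      exact e4.trans q0
    · unfold RKd.ee
      rw [if_neg t1, if_neg t5]
      unfold stD
      dsimp only
      rw [hpc]
      have a3 : ((2 * (g.th * (n + hx) + (sel g.xy 1 1 0 0 0 0 * P + sel g.xy 1 0 0 0 0 0 * X)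
        + (0 * K + (0 * F + 0 * S) + g.c * C)) + 2 * w.2 : ℕ) : ℤ) ≤ R := by
        exact_mod_cast a2
      push_cast at a3
      linarith

/-! ### the final line -/

lemma vls_cvx (R A d n hx P X K F S C Ca : ℤ) : ∀ {l : List PG}, (∀ q ∈ l, q.th ≤ 1) →
    Cvx (fun d => vls l R A d n hx P X K F S C Ca) ∧ Cvx (fun n => vls l R A d n hx P X K F S C Ca) ∧
    Cvx (fun hx => vls l R A d n hx P X K F S C Ca) ∧ Cvx (fun P => vls l R A d n hx P X K F S C Ca) ∧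
    Cvx (fun X => vls l R A d n hx P X K F S C Ca) ∧ Cvx (fun K => vls l R A d n hx P X K F S C Ca) ∧
    Cvx (fun F => vls l R A d n hx P X K F S C Ca) ∧ Cvx (fun S => vls l R A d n hx P X K F S C Ca) ∧
    Cvx (fun C => vls l R A d n hx P X K F S C Ca) ∧
    Cvx (fun Ca => vls l R A d n hx P X K F S C Ca) := by
  intro l
  induction l with
  | nil =>
    intro _
    exact ⟨Cvx.const _, Cvx.const _, Cvx.const _, Cvx.const _, Cvx.const _, Cvx.const _, Cvx.const _,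
      Cvx.const _, Cvx.const _, Cvx.const _⟩
  | cons q l ih =>
    intro h
    obtain ⟨a1, a2, a3, a4, a5, a6, a7, a8, a9, a10⟩ := ih fun g hg => h g (List.mem_cons_of_mem _ hg)
    obtain ⟨b1, b2, b3, b4, b5, b6, b7, b8, b9, b10⟩ := q.cvx (h q List.mem_cons_self) R A d n hx P X
      K F S C Ca
    exact ⟨b1.add a1, b2.add a2, b3.add a3, b4.add a4, b5.add a5, b6.add a6, b7.add a7, b8.add a8,
      b9.add a9, b10.add a10⟩

/-- scalar product -/
noncomputable def dotN (l : List ℕ) : List ℕ → ℕ :=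
  List.rec (motive := fun _ => List ℕ → ℕ) (fun _ => 0)
    (fun a _ ih v => List.casesOn (motive := fun _ => ℕ) v 0
      (fun x v' => Nat.add (Nat.mul a x) (ih v'))) l

lemma dotN_nil (v : List ℕ) : dotN [] v = 0 := rfl

lemma dotN_cons (a x : ℕ) (l v : List ℕ) : dotN (a :: l) (x :: v) = a * x + dotN l v := rfl

lemma dotN_e (l : List ℕ) : dotN l [] = 0 := by cases l <;> rfl

lemma dotN8 (l : List ℕ) (v0 v1 v2 v3 v4 v5 v6 v7 : ℕ) :
    dotN l [v0, v1, v2, v3, v4, v5, v6, v7] = l.getD 0 0 * v0 + l.getD 1 0 * v1 + l.getD 2 0 * v2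
      + l.getD 3 0 * v3 + l.getD 4 0 * v4 + l.getD 5 0 * v5 + l.getD 6 0 * v6 + l.getD 7 0 * v7 := by
  have h : ∀ (l v : List ℕ) (x : ℕ), dotN l (x :: v) = l.getD 0 0 * x + dotN l.tail v := by
    intro l v x
    cases l with
    | nil => simp [dotN_nil]
    | cons a l => rw [dotN_cons]; simp
  have g : ∀ (l : List ℕ) (i : ℕ), l.tail.getD i 0 = l.getD (i + 1) 0 := by
    intro l i
    cases l <;> simp
  rw [h, h, h, h, h, h, h, h, dotN_e]
  simp only [g]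
  ring

/-- the multipliers of the totals: plus and minus parts in the order `h P X K F K2 C Ca` -/
def lnOf (an : ℕ) (lp lm : List ℕ) : LnM :=
  ⟨(lp.getD 0 0 : ℤ) - lm.getD 0 0, an, (lp.getD 1 0 : ℤ) - lm.getD 1 0,
    (lp.getD 2 0 : ℤ) - lm.getD 2 0, (lp.getD 3 0 : ℤ) - lm.getD 3 0,
    (lp.getD 4 0 : ℤ) - lm.getD 4 0, (lp.getD 5 0 : ℤ) - lm.getD 5 0,
    (lp.getD 6 0 : ℤ) - lm.getD 6 0, (lp.getD 7 0 : ℤ) - lm.getD 7 0⟩

/-- the body of the check -/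
noncomputable def body (R A ED T al np nm an : ℕ) (lp lm : List ℕ) (gs : List GrD)
    (d0 n0 x0 P0 X0 K0 F0 S0 C0 A0 d1 n1 x1 P1 X1 K1 F1 S1 C1 A1 pm : ℕ) : Bool :=
  Mid.frN (Nat.add K0 (Nat.add F0 S0)) fun s0 => Mid.frN (Nat.add K1 (Nat.add F1 S1)) fun s1 =>
  Mid.frN (Nat.add n1 x1) fun h1 =>
  Mid.frN (Nat.sub (Nat.add R 1) A) fun R1 => Mid.frN (Nat.sub R A) fun RA =>
  Mid.frN (Nat.add (Nat.mul al RA) np) fun c0 => Mid.frN (Nat.add T nm) fun c1 =>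
  pres R pm S0 s0 s1 h1 P1 X1 K1 F1 S1 C1 (fun l =>
    two d0 d1 fun d => two n0 n1 fun n => two x0 x1 fun hx => two P0 P1 fun P =>
    two X0 X1 fun X => two K0 K1 fun K => two F0 F1 fun F => two S0 S1 fun S =>
    two C0 C1 fun C => two A0 A1 fun Ca =>
    Mid.frN (Nat.add n hx) fun h =>
    Mid.frN (Nat.add c0 (Nat.add (Nat.mul an n) (dotN lm [h, P, X, K, F, S, C, Ca]))) fun p =>
    Mid.frN (Nat.add c1 (Nat.add (Nat.mul ED d) (dotN lp [h, P, X, K, F, S, C, Ca]))) fun m =>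
    cor R R1 RA A d n h P X K F S C Ca l p m) gs []

theorem body_sound {R A ED T al np nm an : ℕ} {lp lm : List ℕ} {gs : List GrD}
    {d0 n0 x0 P0 X0 K0 F0 S0 C0 A0 d1 n1 x1 P1 X1 K1 F1 S1 C1 A1 pm : ℕ} (hA : A ≤ R)
    (h : body R A ED T al np nm an lp lm gs d0 n0 x0 P0 X0 K0 F0 S0 C0 A0 d1 n1 x1 P1 X1 K1 F1 S1 C1
      A1 pm = true) {d n hx P X K F S C Ca : ℕ} (hd : d0 ≤ d ∧ d ≤ d1) (hn : n0 ≤ n ∧ n ≤ n1)
    (hhx : x0 ≤ hx ∧ hx ≤ x1) (hP : P0 ≤ P ∧ P ≤ P1) (hX : X0 ≤ X ∧ X ≤ X1) (hK : K0 ≤ K ∧ K ≤ K1)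
    (hF : F0 ≤ F ∧ F ≤ F1) (hS : S0 ≤ S ∧ S ≤ S1) (hC : C0 ≤ C ∧ C ≤ C1) (hCa : A0 ≤ Ca ∧ Ca ≤ A1) :
    (∀ r ∈ rowsL gs, r.2.ok R (stD d n hx P X K F S C Ca)) ∧
    (LeafD.mk al ((np : ℤ) - nm) (lnOf an lp lm) (rowsL gs)).fin R A pm
      ((n : ℤ) * (n - 1)) (stD d n hx P X K F S C Ca) - ED * d ≤ T := by
  unfold body at h
  simp only [Mid.frN_eq] at h
  obtain ⟨l, l1, l2, l3, l4⟩ := pres_sound R A d n hx P X K F S C Ca h fun q hq => by simp at hq
  constructor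
  · intro r hr
    unfold rowsL at hr
    rw [List.mem_flatMap] at hr
    obtain ⟨g, hg, hr⟩ := hr
    have b1 : Nat.add K0 (Nat.add F0 S0) ≤ K + F + S := by
      show K0 + (F0 + S0) ≤ K + F + S
      omega
    have b2 : K + F + S ≤ Nat.add K1 (Nat.add F1 S1) := by
      show K + F + S ≤ K1 + (F1 + S1)
      omega
    have b3 : n + hx ≤ Nat.add n1 x1 := Nat.add_le_add hn.2 hhx.2
    exact (l3 g hg).ok hS.1 b1 b2 b3 hP.2 hX.2 hK.2 hF.2 hS.2 hC.2 r hr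
  · obtain ⟨Φ, hΦ⟩ : ∃ Φ : ℤ → ℤ → ℤ → ℤ → ℤ → ℤ → ℤ → ℤ → ℤ → ℤ → ℤ,
        Φ = fun d n hx P X K F S C Ca => (al * ((R : ℤ) - A) + (np - nm)
          - (lnOf an lp lm).stt (stD d n hx P X K F S C Ca) - ED * d)
          + vls l R A d n hx P X K F S C Ca := ⟨_, rfl⟩
    have lin : ∀ f : ℤ → ℤ, (∃ a b : ℤ, ∀ x, f x = a * x + b) → Cvx f := fun f ⟨a, b, h⟩ =>
      (Cvx.lin a b).congr h
    have hc : ∀ d n hx P X K F S C Ca : ℤ,
        Cvx (fun d => Φ d n hx P X K F S C Ca) ∧ Cvx (fun n => Φ d n hx P X K F S C Ca) ∧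
        Cvx (fun hx => Φ d n hx P X K F S C Ca) ∧ Cvx (fun P => Φ d n hx P X K F S C Ca) ∧
        Cvx (fun X => Φ d n hx P X K F S C Ca) ∧ Cvx (fun K => Φ d n hx P X K F S C Ca) ∧
        Cvx (fun F => Φ d n hx P X K F S C Ca) ∧ Cvx (fun S => Φ d n hx P X K F S C Ca) ∧
        Cvx (fun C => Φ d n hx P X K F S C Ca) ∧ Cvx (fun Ca => Φ d n hx P X K F S C Ca) := by
      intro d n hx P X K F S C Ca
      obtain ⟨a1, a2, a3, a4, a5, a6, a7, a8, a9, a10⟩ := vls_cvx R A d n hx P X K F S C Ca l2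
      obtain ⟨L, hL⟩ : ∃ L : LnM, L = lnOf an lp lm := ⟨_, rfl⟩
      rw [hΦ, ← hL]
      unfold LnM.stt stD
      dsimp only
      refine ⟨(lin _ ⟨-ED, al * ((R : ℤ) - A) + (np - nm) - (L.ah * (n + hx) - L.an * n + L.ap * P
          + L.ax * X + L.aq * K + L.a0 * F + L.a2 * S + L.ac * C + L.aca * Ca), fun x => by ring⟩).add
          a1,
        (lin _ ⟨-L.ah + L.an, al * ((R : ℤ) - A) + (np - nm) - (L.ah * hx + L.ap * P
          + L.ax * X + L.aq * K + L.a0 * F + L.a2 * S + L.ac * C + L.aca * Ca) - ED * d,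
          fun x => by ring⟩).add a2,
        (lin _ ⟨-L.ah, al * ((R : ℤ) - A) + (np - nm) - (L.ah * n - L.an * n + L.ap * P
          + L.ax * X + L.aq * K + L.a0 * F + L.a2 * S + L.ac * C + L.aca * Ca) - ED * d,
          fun x => by ring⟩).add a3,
        (lin _ ⟨-L.ap, al * ((R : ℤ) - A) + (np - nm) - (L.ah * (n + hx) - L.an * n
          + L.ax * X + L.aq * K + L.a0 * F + L.a2 * S + L.ac * C + L.aca * Ca) - ED * d,
          fun x => by ring⟩).add a4,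
        (lin _ ⟨-L.ax, al * ((R : ℤ) - A) + (np - nm) - (L.ah * (n + hx) - L.an * n + L.ap * P
          + L.aq * K + L.a0 * F + L.a2 * S + L.ac * C + L.aca * Ca) - ED * d,
          fun x => by ring⟩).add a5,
        (lin _ ⟨-L.aq, al * ((R : ℤ) - A) + (np - nm) - (L.ah * (n + hx) - L.an * n + L.ap * P
          + L.ax * X + L.a0 * F + L.a2 * S + L.ac * C + L.aca * Ca) - ED * d,
          fun x => by ring⟩).add a6,
        (lin _ ⟨-L.a0, al * ((R : ℤ) - A) + (np - nm) - (L.ah * (n + hx) - L.an * n + L.ap * P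
          + L.ax * X + L.aq * K + L.a2 * S + L.ac * C + L.aca * Ca) - ED * d,
          fun x => by ring⟩).add a7,
        (lin _ ⟨-L.a2, al * ((R : ℤ) - A) + (np - nm) - (L.ah * (n + hx) - L.an * n + L.ap * P
          + L.ax * X + L.aq * K + L.a0 * F + L.ac * C + L.aca * Ca) - ED * d,
          fun x => by ring⟩).add a8,
        (lin _ ⟨-L.ac, al * ((R : ℤ) - A) + (np - nm) - (L.ah * (n + hx) - L.an * n + L.ap * P
          + L.ax * X + L.aq * K + L.a0 * F + L.a2 * S + L.aca * Ca) - ED * d,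
          fun x => by ring⟩).add a9,
        (lin _ ⟨-L.aca, al * ((R : ℤ) - A) + (np - nm) - (L.ah * (n + hx) - L.an * n + L.ap * P
          + L.ax * X + L.aq * K + L.a0 * F + L.a2 * S + L.ac * C) - ED * d,
          fun x => by ring⟩).add a10⟩
    have key : Φ d n hx P X K F S C Ca ≤ T := by
      refine two_le l1 (hc d n hx P X K F S C Ca).1 (fun d _ _ m1 => ?_) hd
      refine two_le m1 (hc d n hx P X K F S C Ca).2.1 (fun n _ _ m2 => ?_) hn
      refine two_le m2 (hc d n hx P X K F S C Ca).2.2.1 (fun hx _ _ m3 => ?_) hhx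
      refine two_le m3 (hc d n hx P X K F S C Ca).2.2.2.1 (fun P _ _ m4 => ?_) hP
      refine two_le m4 (hc d n hx P X K F S C Ca).2.2.2.2.1 (fun X _ _ m5 => ?_) hX
      refine two_le m5 (hc d n hx P X K F S C Ca).2.2.2.2.2.1 (fun K _ _ m6 => ?_) hK
      refine two_le m6 (hc d n hx P X K F S C Ca).2.2.2.2.2.2.1 (fun F _ _ m7 => ?_) hF
      refine two_le m7 (hc d n hx P X K F S C Ca).2.2.2.2.2.2.2.1 (fun S _ _ m8 => ?_) hS
      refine two_le m8 (hc d n hx P X K F S C Ca).2.2.2.2.2.2.2.2.1 (fun C _ _ m9 => ?_) hC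
      refine two_le m9 (hc d n hx P X K F S C Ca).2.2.2.2.2.2.2.2.2 (fun Ca _ _ m10 => ?_) hCa
      have m11 := cor_sound hA l2 m10
      simp only [dotN8, Nat.add_eq, Nat.mul_eq, Nat.sub_eq] at m11
      push_cast [Nat.cast_sub hA] at m11
      rw [hΦ]
      unfold LnM.stt lnOf stD
      dsimp only
      linarith
    rw [hΦ] at key
    dsimp only at key
    unfold LeafD.fin
    dsimp only
    have z0 : vls [] R A d n hx P X K F S C Ca = 0 := rfl
    rw [z0, zero_add] at l4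
    rw [l4] at key
    linarith

/-! ### boxes given by lists -/

/-- first entry and rest -/
noncomputable def un (l : List ℕ) (k : ℕ → List ℕ → Bool) : Bool :=
  List.casesOn (motive := fun _ => Bool) l false k

lemma un_eq {l : List ℕ} {k : ℕ → List ℕ → Bool} (h : un l k = true) :
    ∃ a l', l = a :: l' ∧ k a l' = true := by
  cases l with
  | nil => exact absurd h Bool.false_ne_true
  | cons a l => exact ⟨a, l, rfl, h⟩

end MF

/-- **the literal of a leaf**: `E` denominator, `al` mass, the classes (the cell of `y1`: `u1p - u1m`, the cell of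
`y2`: `u2p - u2m`, every other cell: `-u3`; `mkd` once for the marked cells), `an` (`hn`), totals `lp - lm`
(`h P X K F K2 C Ca`), groups of tests -/
structure LfD where
  (E al u1p u1m u2p u2m u3 mkd an : ℕ) (lp lm : List ℕ) (gs : List GrD)

namespace LfD

/-- the vector of the leaf -/
def toD (L : LfD) : LeafD :=
  ⟨L.al, ((L.u1p + L.u2p : ℕ) : ℤ) - (L.u1m + L.u2m + (2 * L.u3 + L.mkd) : ℕ), MF.lnOf L.an L.lp L.lm,
    MF.rowsL L.gs⟩

/-- **THE CHECK (F)**: budget `v` over `N`, denominator `D` of the table; letters of the box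
`d hn hx P X K F K2 C Ca pm ..` -/
noncomputable def finOk (R A N D v : ℕ) (L : LfD) (lo hi : List ℕ) : Bool :=
  Mid.frN (Nat.mul L.E D) fun ED => Mid.frN (Nat.div (Nat.mul ED v) N) fun T =>
  Mid.frN (Nat.add L.u1p L.u2p) fun np =>
  Mid.frN (Nat.add (Nat.add L.u1m L.u2m) (Nat.add (Nat.mul 2 L.u3) L.mkd)) fun nm =>
  MF.un lo fun d0 a => MF.un a fun n0 a => MF.un a fun x0 a => MF.un a fun P0 a =>
  MF.un a fun X0 a => MF.un a fun K0 a => MF.un a fun F0 a => MF.un a fun S0 a =>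
  MF.un a fun C0 a => MF.un a fun A0 _ =>
  MF.un hi fun d1 a => MF.un a fun n1 a => MF.un a fun x1 a => MF.un a fun P1 a =>
  MF.un a fun X1 a => MF.un a fun K1 a => MF.un a fun F1 a => MF.un a fun S1 a =>
  MF.un a fun C1 a => MF.un a fun A1 a => MF.un a fun pm _ =>
  MF.body R A ED T L.al np nm L.an L.lp L.lm L.gs d0 n0 x0 P0 X0 K0 F0 S0 C0 A0 d1 n1 x1 P1 X1 K1 F1
    S1 C1 A1 pm

/-- **(F)**: at every state of the box all conditions of the tests hold and the final number is below the budget -/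
theorem finOk_sound {R A N D v : ℕ} {L : LfD} {lo hi : List ℕ} (h : finOk R A N D v L lo hi = true)
    (hA : A ≤ R) {σ : ℕ → ℕ} (hl : KdT.Lo σ lo) (hh : KdT.Hi σ hi) :
    (∀ r ∈ L.toD.rows, r.2.ok R (MF.stD (σ 0) (σ 1) (σ 2) (σ 3) (σ 4) (σ 5) (σ 6) (σ 7)
      (σ 8) (σ 9))) ∧
    (N : ℤ) * L.toD.fin R A (hi.getD 10 0 : ℕ) ((σ 1 : ℤ) * (σ 1 - 1)) (MF.stD (σ 0) (σ 1)
      (σ 2) (σ 3) (σ 4) (σ 5) (σ 6) (σ 7) (σ 8) (σ 9)) ≤ L.E * (D * (N * σ 0 + v)) := by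
  unfold finOk at h
  simp only [Mid.frN_eq] at h
  obtain ⟨d0, a1, rfl, h1⟩ := MF.un_eq h
  obtain ⟨n0, a2, rfl, h2⟩ := MF.un_eq h1
  obtain ⟨x0, a3, rfl, h3⟩ := MF.un_eq h2
  obtain ⟨P0, a4, rfl, h4⟩ := MF.un_eq h3
  obtain ⟨X0, a5, rfl, h5⟩ := MF.un_eq h4
  obtain ⟨K0, a6, rfl, h6⟩ := MF.un_eq h5
  obtain ⟨F0, a7, rfl, h7⟩ := MF.un_eq h6
  obtain ⟨S0, a8, rfl, h8⟩ := MF.un_eq h7
  obtain ⟨C0, a9, rfl, h9⟩ := MF.un_eq h8
  obtain ⟨A0, a10, rfl, h10⟩ := MF.un_eq h9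
  obtain ⟨d1, b1, rfl, h11⟩ := MF.un_eq h10
  obtain ⟨n1, b2, rfl, h12⟩ := MF.un_eq h11
  obtain ⟨x1, b3, rfl, h13⟩ := MF.un_eq h12
  obtain ⟨P1, b4, rfl, h14⟩ := MF.un_eq h13
  obtain ⟨X1, b5, rfl, h15⟩ := MF.un_eq h14
  obtain ⟨K1, b6, rfl, h16⟩ := MF.un_eq h15
  obtain ⟨F1, b7, rfl, h17⟩ := MF.un_eq h16
  obtain ⟨S1, b8, rfl, h18⟩ := MF.un_eq h17
  obtain ⟨C1, b9, rfl, h19⟩ := MF.un_eq h18
  obtain ⟨A1, b10, rfl, h20⟩ := MF.un_eq h19
  obtain ⟨pm, b11, rfl, h21⟩ := MF.un_eq h20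
  have q0 : d0 ≤ σ 0 ∧ σ 0 ≤ d1 := ⟨hl 0 (by simp), hh 0 (by simp)⟩
  have q1 : n0 ≤ σ 1 ∧ σ 1 ≤ n1 := ⟨hl 1 (by simp), hh 1 (by simp)⟩
  have q2 : x0 ≤ σ 2 ∧ σ 2 ≤ x1 := ⟨hl 2 (by simp), hh 2 (by simp)⟩
  have q3 : P0 ≤ σ 3 ∧ σ 3 ≤ P1 := ⟨hl 3 (by simp), hh 3 (by simp)⟩
  have q4 : X0 ≤ σ 4 ∧ σ 4 ≤ X1 := ⟨hl 4 (by simp), hh 4 (by simp)⟩
  have q5 : K0 ≤ σ 5 ∧ σ 5 ≤ K1 := ⟨hl 5 (by simp), hh 5 (by simp)⟩
  have q6 : F0 ≤ σ 6 ∧ σ 6 ≤ F1 := ⟨hl 6 (by simp), hh 6 (by simp)⟩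
  have q7 : S0 ≤ σ 7 ∧ σ 7 ≤ S1 := ⟨hl 7 (by simp), hh 7 (by simp)⟩
  have q8 : C0 ≤ σ 8 ∧ σ 8 ≤ C1 := ⟨hl 8 (by simp), hh 8 (by simp)⟩
  have q9 : A0 ≤ σ 9 ∧ σ 9 ≤ A1 := ⟨hl 9 (by simp), hh 9 (by simp)⟩
  obtain ⟨g1, g2⟩ := MF.body_sound hA h21 q0 q1 q2 q3 q4 q5 q6 q7 q8 q9
  refine ⟨g1, ?_⟩
  obtain ⟨f, hf⟩ : ∃ f : ℤ, f = L.toD.fin R A pm
      ((σ 1 : ℤ) * (σ 1 - 1)) (MF.stD (σ 0) (σ 1) (σ 2) (σ 3) (σ 4) (σ 5) (σ 6) (σ 7) (σ 8)
        (σ 9)) := ⟨_, rfl⟩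
  have g3 : f - (L.E * D : ℕ) * σ 0 ≤ ((L.E * D * v / N : ℕ) : ℤ) := by rw [hf]; exact g2
  have g4 : ((N * (L.E * D * v / N) : ℕ) : ℤ) ≤ ((L.E * D * v : ℕ) : ℤ) := by
    exact_mod_cast Nat.mul_div_le _ _
  have g5 := mul_le_mul_of_nonneg_left g3 (Nat.cast_nonneg (α := ℤ) N)
  have g6 : (N : ℤ) * f ≤ L.E * (D * (N * σ 0 + v)) := by
    have e1 : ((N * (L.E * D * v / N) : ℕ) : ℤ) = N * ((L.E * D * v / N : ℕ) : ℤ) := by push_cast; ring
    have e2 : ((L.E * D * v : ℕ) : ℤ) = L.E * D * v := by push_cast; ring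
    have e3 : ((L.E * D : ℕ) : ℤ) = L.E * D := by push_cast; ring
    rw [e1, e2] at g4
    rw [e3] at g5
    have e4 : (N : ℤ) * (f - L.E * D * σ 0) = N * f - N * (L.E * D * σ 0) := by ring
    have e5 : (L.E : ℤ) * (D * (N * σ 0 + v)) = N * (L.E * D * σ 0) + L.E * D * v := by ring
    rw [e5]
    linarith
  rw [hf] at g6
  exact g6

section test

/-- a small test -/
example : finOk 24 9 1 4096 3 ⟨100, 20000, 50, 0, 60, 0, 10, 0, 5, [1, 2, 3, 4, 5, 6], [0, 0, 1], [⟨0, 0, 1, 1, 1, 0, 2, 5,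
    [(3, 0), (2, 1), (5, 2)]⟩, ⟨1, 0, 1, 1, 1, 0, 2, 5, [(7, 0), (2, 2)]⟩]⟩ [2, 1, 0, 0, 0, 0, 1, 2, 0, 0, 0]
    [2, 2, 0, 1, 1, 1, 3, 5, 0, 0, 3] = true := by
  decide +kernel

end test

end LfD

end Pool.Agent.Lib.MP_f04ccf_co
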