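import Pool.Agent.Lib.MP_f04ccf_co.M.RowCl
import Pool.Agent.Lib.MP_f04ccf_co.M.BudX

/-!
MP_f04ccf_co, TEXT D, the middle range: **the frame of the files of one `R`** (table G, tables by triple of the world).

* `TabD`: a table (`D`, `S`, `G`, `P`), `TabD.ok Q`: `0 < D`, `S, P ≤ D`, `G x m * Q ≤ 2 * S x m` for sizes `≤ Q`;
* `TabD.tchk Q T`: the check in the kernel;
* `RowMid R N T A M1 M2 v`: the claim of a row of size `A` whose two largest other rows have the sizes `M1`, `M2`: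
  if the row is not light (`d + 1 ≤` units), `N ∑ payG ≤ D (N d + v)`; over `PConC` and `LevC`;
* `RowNum` (the same claim about the numbers of the row), `RowNum.mid`;
* **`pureNoC_tab`**: `PureNoC R` from: for every triple `a0 ≥ a1 ≥ a2` a table, a budget function with
  `Kern.wonX`, and `RowMid` for the rows of such worlds;
* **`pureNoC_lib`**: a library of tables `T j` with budgets `V j`, an index `idx a0 a1 a2` of the table of a triple, a
  Boolean `cov j A M1 M2` (the row `(A; M1, M2)` is done with the table `j`), everything checked by `MidG.chkAll`.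
-/

set_option autoImplicit false

namespace Pool.Agent.Lib.MP_f04ccf_co

open Finset

attribute [local instance] Classical.propDecidable

/-- **a table** -/
structure TabD where
  (D : ℕ) (S G P : ℕ → ℕ → ℕ)

/-- the conditions on a table -/
def TabD.ok (T : TabD) (Q : ℕ) : Prop :=
  0 < T.D ∧ ∀ x m, 1 ≤ x → x ≤ Q → 1 ≤ m → m ≤ Q →
    T.S x m ≤ T.D ∧ T.P x m ≤ T.D ∧ T.G x m * Q ≤ 2 * T.S x m

/-- the check of a table -/
def TabD.tchk (T : TabD) (Q : ℕ) : Bool :=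
  Nat.blt 0 T.D && Kern.lpW (fun x => Kern.lpW (fun m =>
    Nat.ble (T.S x m) T.D && (Nat.ble (T.P x m) T.D
      && Nat.ble (Nat.mul (T.G x m) Q) (Nat.mul 2 (T.S x m)))) Q) Q

lemma TabD.tchk_sound {T : TabD} {Q : ℕ} (h : T.tchk Q = true) : T.ok Q := by
  unfold TabD.tchk at h
  rw [Bool.and_eq_true] at h
  obtain ⟨h1, h2⟩ := h
  refine ⟨?_, fun x m hx hxQ hm hmQ => ?_⟩
  · unfold Nat.blt at h1
    exact Nat.le_of_ble_eq_true h1
  · have h3 := Kern.lpW_sound (Kern.lpW_sound h2 x hx hxQ) m hm hmQ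
    rw [Bool.and_eq_true, Bool.and_eq_true] at h3
    obtain ⟨c1, c2, c3⟩ := h3
    exact ⟨Nat.le_of_ble_eq_true c1, Nat.le_of_ble_eq_true c2, Nat.le_of_ble_eq_true c3⟩

/-- **the claim of a row of size `A`, the two largest other rows `M1`, `M2`**, budget `v / N` -/
def RowMid (R N : ℕ) (T : TabD) (A M1 M2 v : ℕ) : Prop :=
  ∀ (ι : Type) (n : ℕ) (t s mu : ℕ → ℤ) (U : Finset ι) (ho : ι → ℕ) (vl : ι → ℤ)
    (kp mn : ℕ → ι → ℤ) (pc ar : ι → ℤ) (be kq NN sg : ℕ → ℕ → ℤ) (nu : ℕ → ι → ℤ)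
    (g : ℕ → ι → ℕ) (f : ι → ℕ),
    PConC (R : ℤ) n t s mu U ho vl kp mn pc ar be kq NN sg nu →
    LevC n U ho vl kp mn pc (fun u i => mn i u) g f →
    ∀ z < n, rA t z = A → rA t (y1W z) = M1 → rA t (y2W z) = M2 →
      mu z - s z + 1 ≤ ∑ y ∈ (range n).erase z, rnE U ho vl pc be g z y →
      (N : ℤ) * ∑ y ∈ (range n).erase z, payGc T.D T.S T.G T.P t U ho vl kp mn pc be g z y
        ≤ (T.D : ℤ) * ((N : ℤ) * (mu z - s z) + (v : ℤ))

/-- a larger budget -/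
lemma RowMid.mono {R N : ℕ} {T : TabD} {A M1 M2 v v' : ℕ} (h : RowMid R N T A M1 M2 v)
    (hv : v ≤ v') : RowMid R N T A M1 M2 v' := by
  intro ι n t s mu U ho vl kp mn pc ar be kq NN sg nu g f H Lv z hz h1 h2 h3 h4
  refine (h ι n t s mu U ho vl kp mn pc ar be kq NN sg nu g f H Lv z hz h1 h2 h3 h4).trans ?_
  have h5 : (v : ℤ) ≤ v' := by exact_mod_cast hv
  exact mul_le_mul_of_nonneg_left (by linarith) (Nat.cast_nonneg _)

/-- **the claim about the numbers of a row** -/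
def RowNum (R N : ℕ) (T : TabD) (A M1 M2 v : ℕ) : Prop :=
  ∀ (P : Finset ℕ) (y1 y2 d hn h : ℕ)
    (B p x q mf mh mhb mha mc mcb mcn mcv kf kh khb kha kc kca kcb kcr sg en nn : ℕ → ℕ),
    RowT R P y1 y2 A d hn h B p x q mf mh mhb mha mc mcb mcn mcv kf kh khb kha kc kca kcb kcr
      sg en nn → B y1 = M1 → B y2 = M2 →
    (N : ℤ) * ∑ y ∈ P, payG T.D T.S T.G T.P A (B y) ((p y : ℤ) + x y) ((mf y : ℤ) + mh y + mc y)
        ((mhb y : ℤ) + mcb y) (q y) ((kf y : ℤ) + kh y + kc y) ((khb y : ℤ) + kcb y)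
      ≤ (T.D : ℤ) * ((N : ℤ) * d + v)

/-- the payment of a cell in the numbers of the row -/
lemma LevC.payGc_nums {ι : Type} {R : ℕ} {n : ℕ} {t s mu : ℕ → ℤ} {U : Finset ι} {ho : ι → ℕ}
    {vl : ι → ℤ} {kp mn : ℕ → ι → ℤ} {pc ar : ι → ℤ} {be kq NN sg : ℕ → ℕ → ℤ} {nu : ℕ → ι → ℤ}
    {g : ℕ → ι → ℕ} {f : ι → ℕ} {φ : ι → ℕ → ℤ} {z y : ℕ}
    (Lv : LevC n U ho vl kp mn pc φ g f)
    (H : PConC (R : ℤ) n t s mu U ho vl kp mn pc ar be kq NN sg nu) (hz : z < n) (hy : y < n)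
    (T : TabD) :
    payGc T.D T.S T.G T.P t U ho vl kp mn pc be g z y
      = payG T.D T.S T.G T.P (rA t z) (rA t y) ((nP be kq z y : ℤ) + nX kq z y)
        (((vHF U ho vl kp pc g f z y).card : ℤ) + (vHH U ho vl kp pc g f z y).card
          + nMc U ho vl pc g z y)
        ((nMhb U ho vl kp mn pc g f z y : ℤ) + nMcb U ho vl kp mn pc g z y) (nQ be z y)
        (((vSF U ho vl kp pc g f z y).card : ℤ) + (sHz U ho vl kp pc g f z y).card
          + nKc U ho vl pc g z y)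
        ((nKhb mn (sHz U ho vl kp pc g f z) z y : ℤ) + nKcb U ho vl kp mn pc g z y) := by
  obtain ⟨c1, c2, c3, c4, c5, c6⟩ := Lv.cell_num H hz hy (S := sHz U ho vl kp pc g f z)
    (fun _ => rfl)
  unfold payGc
  rw [c1, c2, c3, c4, c5, c6]

/-- the claim about the numbers gives the claim of the row -/
theorem RowNum.mid {R N : ℕ} {T : TabD} {A M1 M2 v : ℕ} (h : RowNum R N T A M1 M2 v) :
    RowMid R N T A M1 M2 v := by
  intro ι n t s mu U ho vl kp mn pc ar be kq NN sg nu g f H Lv z hz h1 h2 h3 h4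
  have h5 := Lv.rowT H hz h4
  rw [h1] at h5
  have h6 := h _ _ _ _ _ _ _ _ _ _ _ _ _ _ _ _ _ _ _ _ _ _ _ _ _ _ _ _ _ h5 h2 h3
  have h7 : ∑ y ∈ (range n).erase z, payGc T.D T.S T.G T.P t U ho vl kp mn pc be g z y
      = ∑ y ∈ (range n).erase z, payG T.D T.S T.G T.P A (rA t y) ((nP be kq z y : ℤ) + nX kq z y)
        (((vHF U ho vl kp pc g f z y).card : ℤ) + (vHH U ho vl kp pc g f z y).card
          + nMc U ho vl pc g z y)
        ((nMhb U ho vl kp mn pc g f z y : ℤ) + nMcb U ho vl kp mn pc g z y) (nQ be z y)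
        (((vSF U ho vl kp pc g f z y).card : ℤ) + (sHz U ho vl kp pc g f z y).card
          + nKc U ho vl pc g z y)
        ((nKhb mn (sHz U ho vl kp pc g f z) z y : ℤ) + nKcb U ho vl kp mn pc g z y) := by
    refine sum_congr rfl fun y hy => ?_
    rw [← h1]
    exact Lv.payGc_nums H hz (mem_range.1 (mem_of_mem_erase hy)) T
  rw [h7]
  refine h6.trans (le_of_eq ?_)
  rw [(H.nums hz).1]

section

variable {ι : Type} {R : ℕ} {n : ℕ} {t s mu : ℕ → ℤ} {U : Finset ι} {ho : ι → ℕ} {vl : ι → ℤ}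
  {kp mn : ℕ → ι → ℤ} {pc ar : ι → ℤ} {be kq NN sg : ℕ → ℕ → ℤ} {nu : ℕ → ι → ℤ}

/-- sizes of the rows as naturals -/
lemma PConC.rA_facts (H : PConC (R : ℤ) n t s mu U ho vl kp mn pc ar be kq NN sg nu) :
    (∀ i < n, 1 ≤ rA t i ∧ rA t i ≤ R) ∧ (∀ i j, i ≤ j → j < n → rA t j ≤ rA t i) ∧
    rA t 0 + rA t 1 + rA t 2 + 2 ≤ R ∧
    ∀ b, 3 ≤ b → b < n → rA t 0 + rA t 1 + rA t 2 + rA t b + 1 ≤ R := by
  have hn5 := H.n5
  have hcast : ∀ i < n, ((rA t i : ℕ) : ℤ) = t i + 1 := fun i hi => (H.rA_eq hi).1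
  have hpos : ∀ i < n, 1 ≤ rA t i := fun i hi => (H.rA_eq hi).2
  have hsum : ∑ i ∈ range n, rA t i ≤ R := by
    have h1 := H.tsum
    have h2 : ((∑ i ∈ range n, rA t i : ℕ) : ℤ) ≤ R := by
      rw [Nat.cast_sum, sum_congr rfl fun i hi => hcast i (mem_range.1 hi)]
      exact h1
    exact_mod_cast h2
  have hsub : ∀ K : Finset ℕ, K ⊆ range n → ∑ i ∈ K, rA t i + (n - K.card) ≤ R := by
    intro K hK
    have h1 := sum_sdiff (f := fun i => rA t i) hK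
    have h2 : ((range n) \ K).card ≤ ∑ i ∈ (range n) \ K, rA t i := by
      rw [card_eq_sum_ones]
      exact sum_le_sum fun i hi => hpos i (mem_range.1 (mem_sdiff.1 hi).1)
    rw [card_sdiff_of_subset hK, card_range] at h2
    omega
  refine ⟨fun i hi => ⟨hpos i hi, ?_⟩, fun i j hij hj => ?_, ?_, fun b hb hbn => ?_⟩
  · exact (single_le_sum (f := fun i => rA t i) (fun j _ => Nat.zero_le _)
      (mem_range.2 hi)).trans hsum
  · have h1 := H.anti i j hij hj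
    have h2 : ((rA t j : ℕ) : ℤ) ≤ rA t i := by
      rw [hcast j hj, hcast i (lt_of_le_of_lt hij hj)]
      linarith
    exact_mod_cast h2
  · have h1 := hsub {0, 1, 2} (by
      intro i hi
      simp only [mem_insert, mem_singleton] at hi
      rw [mem_range]
      omega)
    rw [sum_insert (by simp), sum_insert (by simp), sum_singleton] at h1
    have h2 : (({0, 1, 2} : Finset ℕ)).card = 3 := rfl
    rw [h2] at h1
    omega
  · have h1 := hsub {0, 1, 2, b} (by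
      intro i hi
      simp only [mem_insert, mem_singleton] at hi
      rw [mem_range]
      omega)
    rw [sum_insert (by simp; omega), sum_insert (by simp; omega), sum_insert (by simp; omega),
      sum_singleton] at h1
    have h2 : (({0, 1, 2, b} : Finset ℕ)).card ≤ 4 := card_le_four
    omega

end

/-- **`PureNoC R` from tables by triple** -/
theorem pureNoC_tab {R N : ℕ} (hN : 0 < N) (T : ℕ → ℕ → ℕ → TabD)
    (V : ℕ → ℕ → ℕ → ℕ → ℕ → ℕ → ℕ)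
    (h : ∀ a0 a1 a2, 1 ≤ a2 → a2 ≤ a1 → a1 ≤ a0 → a0 + a1 + a2 + 2 ≤ R →
      (T a0 a1 a2).ok R ∧ Kern.wonX (V a0 a1 a2) R N a0 a1 a2 = true ∧
      RowMid R N (T a0 a1 a2) a0 a1 a2 (V a0 a1 a2 a0 a1 a2) ∧
      RowMid R N (T a0 a1 a2) a1 a0 a2 (V a0 a1 a2 a1 a0 a2) ∧
      RowMid R N (T a0 a1 a2) a2 a0 a1 (V a0 a1 a2 a2 a0 a1) ∧
      ∀ b, 1 ≤ b → b ≤ a2 → a0 + a1 + a2 + b + 1 ≤ R →
        RowMid R N (T a0 a1 a2) b a0 a1 (V a0 a1 a2 b a0 a1)) : PureNoC (R : ℤ) := by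
  intro ι n t s mu U ho vl kp mn pc ar be kq NN sg nu H
  obtain ⟨g, f, Lv⟩ := H.toPCon.exists_lev fun u i => mn i u
  obtain ⟨hr, hanti, htri, hfour⟩ := H.rA_facts
  have hn5 := H.n5
  obtain ⟨⟨hD, hok⟩, hw, r0, r1, r2, r3⟩ := h (rA t 0) (rA t 1) (rA t 2) (hr 2 (by omega)).1
    (hanti 1 2 (by omega) (by omega)) (hanti 0 1 (by omega) (by omega)) htri
  refine Lv.close_GX H rfl hw hN hD
    (fun i hi j hj => (hok _ _ (hr i hi).1 (hr i hi).2 (hr j hj).1 (hr j hj).2).1)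
    (fun i hi j hj => (hok _ _ (hr i hi).1 (hr i hi).2 (hr j hj).1 (hr j hj).2).2.1)
    (fun i hi j hj => (hok _ _ (hr i hi).1 (hr i hi).2 (hr j hj).1 (hr j hj).2).2.2)
    fun z hz hzL => ?_
  have e0 : z = 0 → y1W z = 1 ∧ y2W z = 2 := by rintro rfl; exact ⟨rfl, rfl⟩
  have e1 : z = 1 → y1W z = 0 ∧ y2W z = 2 := by rintro rfl; exact ⟨rfl, rfl⟩
  have e2 : 2 ≤ z → y1W z = 0 ∧ y2W z = 1 := by
    intro h2
    unfold y1W y2W
    rw [if_neg (by omega), if_neg (by omega)]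
    exact ⟨rfl, rfl⟩
  rcases Nat.lt_or_ge z 1 with c | c
  · have c0 : z = 0 := by omega
    subst c0
    exact r0 ι n t s mu U ho vl kp mn pc ar be kq NN sg nu g f H Lv 0 hz rfl rfl rfl hzL
  rcases Nat.lt_or_ge z 2 with c' | c'
  · have c0 : z = 1 := by omega
    subst c0
    exact r1 ι n t s mu U ho vl kp mn pc ar be kq NN sg nu g f H Lv 1 hz rfl rfl rfl hzL
  obtain ⟨f1, f2⟩ := e2 c'
  rcases Nat.lt_or_ge z 3 with c'' | c''
  · have c0 : z = 2 := by omega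
    subst c0
    exact r2 ι n t s mu U ho vl kp mn pc ar be kq NN sg nu g f H Lv 2 hz rfl rfl rfl hzL
  · rw [f1, f2]
    exact r3 (rA t z) (hr z hz).1 (hanti 2 z c' hz) (hfour z c'' hz) ι n t s mu U ho vl kp mn pc ar
      be kq NN sg nu g f H Lv z hz rfl (by rw [f1]) (by rw [f2]) hzL

namespace MidG

/-- the check of one triple -/
def tri (R N : ℕ) (idx : ℕ → ℕ → ℕ → ℕ) (V : ℕ → ℕ → ℕ → ℕ → ℕ) (cov : ℕ → ℕ → ℕ → ℕ → Bool)
    (a0 a1 a2 : ℕ) : Bool :=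
  Nat.blt R (a0 + a1 + a2 + 2) ||
    (Kern.wonX (V (idx a0 a1 a2)) R N a0 a1 a2 && (cov (idx a0 a1 a2) a0 a1 a2
      && (cov (idx a0 a1 a2) a1 a0 a2 && (cov (idx a0 a1 a2) a2 a0 a1
      && Kern.lpW (fun b => Nat.blt R (a0 + a1 + a2 + b + 1) || cov (idx a0 a1 a2) b a0 a1) a2))))

/-- **the check of all triples** -/
def chkAll (R N : ℕ) (idx : ℕ → ℕ → ℕ → ℕ) (V : ℕ → ℕ → ℕ → ℕ → ℕ)
    (cov : ℕ → ℕ → ℕ → ℕ → Bool) : Bool :=
  Kern.lpW (fun a0 => Kern.lpW (fun a1 => Kern.lpW (fun a2 => tri R N idx V cov a0 a1 a2) a1) a0) R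

lemma blt_false {a b : ℕ} (h : b ≤ a) : Nat.blt a b = false := by
  rw [Bool.eq_false_iff]
  intro h1
  unfold Nat.blt at h1
  have := Nat.le_of_ble_eq_true h1
  omega

lemma chkAll_sound {R N : ℕ} {idx : ℕ → ℕ → ℕ → ℕ} {V : ℕ → ℕ → ℕ → ℕ → ℕ}
    {cov : ℕ → ℕ → ℕ → ℕ → Bool} (h : chkAll R N idx V cov = true) {a0 a1 a2 : ℕ}
    (h2 : 1 ≤ a2) (h21 : a2 ≤ a1) (h10 : a1 ≤ a0) (hR : a0 + a1 + a2 + 2 ≤ R) :
    Kern.wonX (V (idx a0 a1 a2)) R N a0 a1 a2 = true ∧ cov (idx a0 a1 a2) a0 a1 a2 = true ∧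
      cov (idx a0 a1 a2) a1 a0 a2 = true ∧ cov (idx a0 a1 a2) a2 a0 a1 = true ∧
      ∀ b, 1 ≤ b → b ≤ a2 → a0 + a1 + a2 + b + 1 ≤ R → cov (idx a0 a1 a2) b a0 a1 = true := by
  have h3 : tri R N idx V cov a0 a1 a2 = true :=
    Kern.lpW_sound (G := fun a2 => tri R N idx V cov a0 a1 a2) (Kern.lpW_sound (G := fun a1 =>
      Kern.lpW (fun a2 => tri R N idx V cov a0 a1 a2) a1) (Kern.lpW_sound h a0 (by omega) (by omega))
      a1 (by omega) h10) a2 h2 h21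
  unfold tri at h3
  rw [blt_false hR, Bool.false_or, Bool.and_eq_true, Bool.and_eq_true, Bool.and_eq_true,
    Bool.and_eq_true] at h3
  obtain ⟨c1, c2, c3, c4, c5⟩ := h3
  refine ⟨c1, c2, c3, c4, fun b hb hb2 hbR => ?_⟩
  have c6 := Kern.lpW_sound (G := fun b => Nat.blt R (a0 + a1 + a2 + b + 1)
    || cov (idx a0 a1 a2) b a0 a1) c5 b hb hb2
  simp only [blt_false hbR, Bool.false_or] at c6
  exact c6

end MidG

/-- **`PureNoC R` from a library of tables** -/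
theorem pureNoC_lib {R N : ℕ} (hN : 0 < N) (idx : ℕ → ℕ → ℕ → ℕ) (T : ℕ → TabD)
    (V : ℕ → ℕ → ℕ → ℕ → ℕ) (cov : ℕ → ℕ → ℕ → ℕ → Bool)
    (hT : ∀ a0 a1 a2, (T (idx a0 a1 a2)).ok R)
    (hcov : ∀ j A M1 M2, cov j A M1 M2 = true → RowMid R N (T j) A M1 M2 (V j A M1 M2))
    (hchk : MidG.chkAll R N idx V cov = true) : PureNoC (R : ℤ) := by
  refine pureNoC_tab hN (fun a0 a1 a2 => T (idx a0 a1 a2)) (fun a0 a1 a2 => V (idx a0 a1 a2))
    fun a0 a1 a2 h2 h21 h10 hR => ?_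
  obtain ⟨c1, c2, c3, c4, c5⟩ := MidG.chkAll_sound hchk h2 h21 h10 hR
  exact ⟨hT _ _ _, c1, hcov _ _ _ _ c2, hcov _ _ _ _ c3, hcov _ _ _ _ c4, fun b hb hb2 hbR =>
    hcov _ _ _ _ (c5 b hb hb2 hbR)⟩

end Pool.Agent.Lib.MP_f04ccf_co
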