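import Pool.Agent.Lib.MP_f04ccf_co.M.MidT

/-!
MP_f04ccf_co, TEXT D, middle range: **the leaf of the tree, abstract form**: one vector of multipliers bounds the
share sum of a row.

* `StN`: the totals of a row; `RKd`: a row test (`ty` = 0: `j` of the halves | 2: `j` of all units) or tzN (`ty` = 1 | 3);
  `RKd.ok` (numbers of units of the state), `RKd.rs` (state part), `RKd.rc` (cell part), `RowV.rkd`;
* `LnM`: multipliers of the totals; `LeafD`: a vector (mass `al`, classes through `cls`, totals, rows with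
  multipliers); `LeafD.fin`: the final number of a state;
* **`RowV.leafZ`**, `RowV.leaf`: if (C) holds at every cell then `∑ sn ≤ fin (state)`; `leaf_close`;
* `rs_cvx`: the state parts are convex in every letter; `TesD_sq`, `tzN_sq`: short forms (row test:
  `e² + e - 2 e G + 2 R G - 2 (R + 1 - A) s - gain` with `s = m + k`, `e = m + k + ka`).
-/

set_option autoImplicit false

namespace Pool.Agent.Lib.MP_f04ccf_co

open Finset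

/-- the totals of a row: `h` hosted plain value, `hn` items, `P` block, `X` Konig, `K` served PC, `F` full, `K2`
halves, `C`, `Ca` clique units and items -/
structure StN where
  (d hn h P X K F K2 C Ca : ℤ)

/-- a test with a kind `ty`: 0 row test, halves random | 1 tzN, halves random | 2 row test, all random | 4 row test, all
halves used | 5 tzN, all halves used | else tzN, all random -/
structure RKd where
  (ty : ℕ) (κ : TKd)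

namespace TKd

/-- the row test with all halves used: the state part -/
def stu (κ : TKd) (R A pm gn G h P X K F K2 C Ca : ℤ) : ℤ :=
  TesD R A G (κ.th * h + κ.pcs P X) (κ.uq * K + κ.uf * F + K2 + κ.c * C)
    (κ.uq * K + κ.uf * F + K2 + κ.c * Ca) 0 (κ.th * gn) 0
    + if κ.xy = 2 then 2 * (pm * (A - G + κ.th * h)) else 0

/-- the row test with all halves used: the part of a cell -/
def ceu (κ : TKd) (p q k0 k2 nb kb cb : ℤ) : ℤ :=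
  (if κ.xy = 0 then nb else if κ.xy = 1 then p * (p + 1) else 0) + 2 * (κ.c * cb) + 2 * kb
    - ((κ.uq * q + (κ.uf * k0 + k2)) * (κ.uq * q + (κ.uf * k0 + k2) - 1)
      + (κ.uf * k0 + k2) * (κ.uf * k0 + k2 - 1))

/-- tzN with all halves used: the state part -/
def snu (κ : TKd) (R A G h P X K F K2 C : ℤ) : ℤ :=
  -((R - 2 * (κ.th * h + κ.pcs P X + (κ.uq * K + κ.uf * F + K2 + κ.c * C)))
      * (κ.th * h + κ.pcs P X + (κ.uq * K + κ.uf * F + K2 + κ.c * C) - G)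
    - A * (κ.th * h + κ.pcs P X + (κ.uq * K + κ.uf * F + K2 + κ.c * C)))

end TKd

namespace RKd

/-- the excess letter -/
def gg (r : RKd) (σ : StN) : ℤ := σ.d + (1 - (r.κ.th : ℤ)) * σ.hn

/-- the state part -/
def rs (r : RKd) (R A pm gn : ℤ) (σ : StN) : ℤ :=
  if r.ty = 0 then r.κ.st R A pm gn (r.gg σ) σ.h σ.P σ.X σ.K σ.F σ.C σ.Ca
  else if r.ty = 1 then r.κ.sn R A (r.gg σ) σ.h σ.P σ.X σ.K σ.F σ.C
  else if r.ty = 2 then r.κ.sta R A pm gn (r.gg σ) σ.h σ.P σ.X σ.C σ.Ca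
  else if r.ty = 4 then r.κ.stu R A pm gn (r.gg σ) σ.h σ.P σ.X σ.K σ.F σ.K2 σ.C σ.Ca
  else if r.ty = 5 then r.κ.snu R A (r.gg σ) σ.h σ.P σ.X σ.K σ.F σ.K2 σ.C
  else r.κ.sn R A (r.gg σ) σ.h σ.P σ.X 0 0 σ.C

/-- the cell part -/
def rc (r : RKd) (p q k0 k2 nb kb cb : ℤ) : ℤ :=
  if r.ty = 0 then r.κ.ce p q k0 k2 nb kb cb
  else if r.ty = 2 then r.κ.cea p q k0 k2 nb kb cb
  else if r.ty = 4 then r.κ.ceu p q k0 k2 nb kb cb
  else if r.ty = 5 then kb + r.κ.c * cb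
  else r.κ.cn kb cb

/-- the number of used and kept units of tzN -/
def ee (r : RKd) (σ : StN) : ℤ :=
  r.κ.th * σ.h + r.κ.pcs σ.P σ.X + (if r.ty = 1 then r.κ.uq * σ.K + r.κ.uf * σ.F + r.κ.j
    else if r.ty = 5 then r.κ.uq * σ.K + r.κ.uf * σ.F + σ.K2 else r.κ.j) + r.κ.c * σ.C

/-- the conditions on the state -/
def ok (r : RKd) (R : ℤ) (σ : StN) : Prop :=
  r.κ.th ≤ 1 ∧ r.κ.uq ≤ 1 ∧ r.κ.uf ≤ 1 ∧ r.κ.c ≤ 1 ∧
  (r.ty = 0 → r.κ.xy ≤ 2 ∧ (r.κ.j = 0 ∨ (r.κ.j ≤ r.κ.k0 ∧ (r.κ.k0 : ℤ) ≤ σ.K2)) ∧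
    σ.K2 ≤ r.κ.k1 ∧ 2 ≤ r.κ.k1) ∧
  (r.ty = 1 → r.κ.xy ≤ 1 ∧ (r.κ.j = 0 ∨ (r.κ.j ≤ r.κ.k0 ∧ (r.κ.k0 : ℤ) ≤ σ.K2)) ∧
    2 * r.ee σ ≤ R) ∧
  (r.ty = 2 → r.κ.xy ≤ 2 ∧ r.κ.j ≤ r.κ.k0 ∧ (r.κ.k0 : ℤ) ≤ σ.K + σ.F + σ.K2 ∧
    σ.K + σ.F + σ.K2 ≤ r.κ.k1 ∧ 2 ≤ r.κ.k1) ∧
  (r.ty = 4 → r.κ.xy ≤ 2) ∧
  (r.ty = 5 → r.κ.xy ≤ 1 ∧ 2 * r.ee σ ≤ R) ∧
  (r.ty ≠ 0 → r.ty ≠ 1 → r.ty ≠ 2 → r.ty ≠ 4 → r.ty ≠ 5 → r.κ.xy ≤ 1 ∧ r.κ.j ≤ r.κ.k0 ∧
    (r.κ.k0 : ℤ) ≤ σ.K + σ.F + σ.K2 ∧ 2 * r.ee σ ≤ R)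

end RKd

/-- multipliers of the totals: `h`, value-one hosted items (one-sided, `hn`), `p x q k0 k2 c ca` -/
structure LnM where
  (ah an ap ax aq a0 a2 ac aca : ℤ)

/-- the linear part of a cell -/
def LnM.cel (l : LnM) (p x q m1 m2 mc k0 k2 c ca : ℤ) : ℤ :=
  l.ah * (m1 + m2 + mc) - l.an * (m1 + m2) + l.ap * p + l.ax * x + l.aq * q + l.a0 * k0
    + l.a2 * k2 + l.ac * c + l.aca * ca

/-- the linear part of a state -/
def LnM.stt (l : LnM) (σ : StN) : ℤ :=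
  l.ah * σ.h - l.an * σ.hn + l.ap * σ.P + l.ax * σ.X + l.aq * σ.K + l.a0 * σ.F
    + l.a2 * σ.K2 + l.ac * σ.C + l.aca * σ.Ca

/-- one vector of multipliers: mass `al`, classes at most `nu` in all, totals `ln`, tests `rows` -/
structure LeafD where
  (al nu : ℤ) (ln : LnM) (rows : List (ℕ × RKd))

/-- the tests of a cell -/
def LeafD.cel (L : LeafD) (p q k0 k2 nb kb cb : ℤ) : ℤ :=
  (L.rows.map fun r => (r.1 : ℤ) * r.2.rc p q k0 k2 nb kb cb).sum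

/-- the final number of a state -/
def LeafD.fin (L : LeafD) (R A pm gn : ℤ) (σ : StN) : ℤ :=
  L.al * (R - A) + L.nu + (L.rows.map fun r => (r.1 : ℤ) * r.2.rs R A pm gn σ).sum - L.ln.stt σ

section MidL

variable {R : ℕ} {P : Finset ℕ} {A d hn h : ℕ}
  {B p x q mf mh mhb mha mc mcb mcn mcv kf kh khb kha kc kca kcb kcr sg en nn : ℕ → ℕ}

/-- the totals of a row -/
def stN (P : Finset ℕ) (d hn h : ℕ) (p x q kf kh kc kca : ℕ → ℕ) : StN :=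
  ⟨d, hn, h, ∑ y ∈ P, (p y : ℤ), ∑ y ∈ P, (x y : ℤ), ∑ y ∈ P, (q y : ℤ), ∑ y ∈ P, (kf y : ℤ),
    ∑ y ∈ P, (kh y : ℤ), ∑ y ∈ P, (kc y : ℤ), ∑ y ∈ P, (kca y : ℤ)⟩

/-- **the tests with all halves used, as state part + cell parts** -/
theorem RowV.tKu (V : RowV R P A d hn h B p x q mf mh mhb mha mc mcb mcn mcv kf kh khb kha kc kca
    kcb kcr sg en nn) {pm : ℕ} (hpm : ∀ l ∈ P, p l ≤ pm) {nb : ℕ → ℤ}
    (hnb : ∀ y ∈ P, (nn y : ℤ) ≤ nb y) (κ : TKd) (hth : κ.th ≤ 1) (huq : κ.uq ≤ 1)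
    (huf : κ.uf ≤ 1) (hc : κ.c ≤ 1) {gn : ℤ} (hgn : gn ≤ (hn : ℤ) * (hn - 1)) {G : ℤ}
    (hG : G = d + (1 - (κ.th : ℤ)) * hn) :
    (κ.xy ≤ 2 → 0 ≤ κ.stu R A pm gn G h (∑ l ∈ P, (p l : ℤ)) (∑ l ∈ P, (x l : ℤ))
        (∑ y ∈ P, (q y : ℤ)) (∑ y ∈ P, (kf y : ℤ)) (∑ y ∈ P, (kh y : ℤ)) (∑ y ∈ P, (kc y : ℤ))
        (∑ y ∈ P, (kca y : ℤ))
      + ∑ y ∈ P, κ.ceu (p y) (q y) (kf y) (kh y) (nb y) (khb y) (kcb y)) ∧
    (κ.xy ≤ 1 → 2 * (κ.th * h + κ.pcs (∑ l ∈ P, (p l : ℤ)) (∑ l ∈ P, (x l : ℤ))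
        + (κ.uq * ∑ y ∈ P, (q y : ℤ) + κ.uf * ∑ y ∈ P, (kf y : ℤ) + ∑ y ∈ P, (kh y : ℤ)
        + κ.c * ∑ y ∈ P, (kc y : ℤ))) ≤ R →
      0 ≤ κ.snu R A G h (∑ l ∈ P, (p l : ℤ)) (∑ l ∈ P, (x l : ℤ)) (∑ y ∈ P, (q y : ℤ))
        (∑ y ∈ P, (kf y : ℤ)) (∑ y ∈ P, (kh y : ℤ)) (∑ y ∈ P, (kc y : ℤ))
      + ∑ y ∈ P, ((khb y : ℤ) + κ.c * kcb y)) := by
  obtain ⟨b', hb, hT, hT2, hN, hN2, -⟩ := V.row (fun y => κ.uq * q y) (fun y => κ.uf * kf y) kh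
    (fun _ => κ.c) fun y _ => ⟨by
      show κ.uq * q y ≤ q y
      nlinarith, by
      show κ.uf * kf y ≤ kf y
      nlinarith, le_rfl, hc⟩
  have hbs : ∑ y ∈ P, b' y ≤ ∑ y ∈ P, (khb y : ℤ) := sum_le_sum fun y hy => (hb y hy).2.1
  have e1 : ∑ y ∈ P, (((κ.uq * q y : ℕ) : ℤ) + (((κ.uf * kf y : ℕ) : ℤ) + kh y
      + (κ.c : ℤ) * kc y)) = κ.uq * ∑ y ∈ P, (q y : ℤ) + κ.uf * ∑ y ∈ P, (kf y : ℤ)
        + ∑ y ∈ P, (kh y : ℤ) + κ.c * ∑ y ∈ P, (kc y : ℤ) := by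
    rw [mul_sum, mul_sum, mul_sum, ← sum_add_distrib, ← sum_add_distrib, ← sum_add_distrib]
    exact sum_congr rfl fun y _ => by push_cast; ring
  have e2 : ∑ y ∈ P, (((κ.uq * q y : ℕ) : ℤ) + (((κ.uf * kf y : ℕ) : ℤ) + kh y
      + (κ.c : ℤ) * kca y)) = κ.uq * ∑ y ∈ P, (q y : ℤ) + κ.uf * ∑ y ∈ P, (kf y : ℤ)
        + ∑ y ∈ P, (kh y : ℤ) + κ.c * ∑ y ∈ P, (kca y : ℤ) := by
    rw [mul_sum, mul_sum, mul_sum, ← sum_add_distrib, ← sum_add_distrib, ← sum_add_distrib]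
    exact sum_congr rfl fun y _ => by push_cast; ring
  have e3 : ∑ y ∈ P, (b' y + (κ.c : ℤ) * kcb y) = ∑ y ∈ P, b' y + κ.c * ∑ y ∈ P, (kcb y : ℤ) := by
    rw [mul_sum, ← sum_add_distrib]
  have e4 : ∑ y ∈ P, ((khb y : ℤ) + κ.c * kcb y)
      = ∑ y ∈ P, (khb y : ℤ) + κ.c * ∑ y ∈ P, (kcb y : ℤ) := by
    rw [mul_sum, ← sum_add_distrib]
  constructor
  · intro hxy
    obtain ⟨X, Y, hX, hY, hXY⟩ := xy_sets κ.xy P
    obtain ⟨hNN, hm⟩ := V.xy_N hpm hnb hxy hth ⟨rfl, rfl, rfl, rfl⟩ hXY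
    have hcase := Nat.le_one_iff_eq_zero_or_eq_one.1 hth
    have key : TesC R A (d + (1 - (κ.th : ℤ)) * hn)
        (κ.th * h + ∑ l ∈ P \ X, (x l : ℤ) + ∑ l ∈ P \ Y, (p l : ℤ))
        (κ.uq * ∑ y ∈ P, (q y : ℤ) + κ.uf * ∑ y ∈ P, (kf y : ℤ) + ∑ y ∈ P, (kh y : ℤ)
          + κ.c * ∑ y ∈ P, (kc y : ℤ))
        (κ.uq * ∑ y ∈ P, (q y : ℤ) + κ.uf * ∑ y ∈ P, (kf y : ℤ) + ∑ y ∈ P, (kh y : ℤ)
          + κ.c * ∑ y ∈ P, (kca y : ℤ))
        (∑ y ∈ P, b' y + κ.c * ∑ y ∈ P, (kcb y : ℤ))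
        (∑ y ∈ P, ((((κ.uq * q y : ℕ) : ℤ) + (((κ.uf * kf y : ℕ) : ℤ) + kh y))
            * ((((κ.uq * q y : ℕ) : ℤ) + (((κ.uf * kf y : ℕ) : ℤ) + kh y)) - 1)
          + (((κ.uf * kf y : ℕ) : ℤ) + kh y) * ((((κ.uf * kf y : ℕ) : ℤ) + kh y) - 1))
          + κ.th * ((hn : ℤ) * (hn - 1)))
        (blkE (fun l => (p l : ℤ)) (fun l => (sg l : ℤ)) (fun l => (κ.th : ℤ) * en l) X Y
          + ∑ l ∈ P \ X, (nn l : ℤ)) := by
      rcases hcase with h7 | h7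
      · have m1 := hT2 X hX Y hY
        rw [e1, e2, e3] at m1
        rw [h7]
        have z1 : ((d : ℤ) + (1 - ((0 : ℕ) : ℤ)) * hn) = d + hn := by push_cast; ring
        have z2 : (((0 : ℕ) : ℤ) * h + ∑ l ∈ P \ X, (x l : ℤ) + ∑ l ∈ P \ Y, (p l : ℤ))
            = ∑ l ∈ P \ X, (x l : ℤ) + ∑ l ∈ P \ Y, (p l : ℤ) := by push_cast; ring
        have z3 : (fun l => ((0 : ℕ) : ℤ) * (en l : ℤ)) = fun _ => 0 := by
          ext l
          simp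
        have z4 : ((0 : ℕ) : ℤ) * ((hn : ℤ) * (hn - 1)) = 0 := by simp
        rw [z1, z2, z3, z4]
        exact m1
      · have m1 := hT X hX Y hY
        rw [e1, e2, e3] at m1
        rw [h7]
        have z1 : ((d : ℤ) + (1 - ((1 : ℕ) : ℤ)) * hn) = d := by push_cast; ring
        have z2 : (((1 : ℕ) : ℤ) * (h : ℤ)) = h := by simp
        have z3 : (fun l => ((1 : ℕ) : ℤ) * (en l : ℤ)) = fun l => (en l : ℤ) := by
          ext l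
          simp
        have z4 : ((1 : ℕ) : ℤ) * ((hn : ℤ) * (hn - 1)) = (hn : ℤ) * (hn - 1) := by simp
        rw [z1, z2, z3, z4]
        exact m1
    have e2' : (if κ.xy = 0 then ∑ l ∈ P, (x l : ℤ) + ∑ l ∈ P, (p l : ℤ)
        else if κ.xy = 1 then ∑ l ∈ P, (p l : ℤ) else 0)
      = κ.pcs (∑ l ∈ P, (p l : ℤ)) (∑ l ∈ P, (x l : ℤ)) := rfl
    rw [hm, e2'] at key
    have hth0 : (0 : ℤ) ≤ κ.th := Nat.cast_nonneg _
    have hg := mul_le_mul_of_nonneg_left hgn hth0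
    have e5 : ∑ y ∈ P, κ.ceu (p y) (q y) (kf y) (kh y) (nb y) (khb y) (kcb y)
        = ∑ y ∈ P, (if κ.xy = 0 then nb y else if κ.xy = 1 then (p y : ℤ) * (p y + 1) else 0)
          + 2 * (κ.c * ∑ y ∈ P, (kcb y : ℤ)) + 2 * ∑ y ∈ P, (khb y : ℤ)
          - ∑ y ∈ P, ((((κ.uq * q y : ℕ) : ℤ) + (((κ.uf * kf y : ℕ) : ℤ) + kh y))
            * ((((κ.uq * q y : ℕ) : ℤ) + (((κ.uf * kf y : ℕ) : ℤ) + kh y)) - 1)
          + (((κ.uf * kf y : ℕ) : ℤ) + kh y) * ((((κ.uf * kf y : ℕ) : ℤ) + kh y) - 1)) := by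
      unfold TKd.ceu
      simp only [mul_sum, ← sum_add_distrib, ← sum_sub_distrib]
      refine sum_congr rfl fun y _ => ?_
      push_cast
      ring
    rw [e5]
    unfold TKd.stu TesD
    unfold TesC at key
    rw [hG]
    linarith
  · intro hxy h2e
    obtain ⟨xx, hx1, hx2⟩ := pcs_xx (P := P) (p := p) (x := x) κ hxy
    obtain ⟨e, he⟩ : ∃ e : ℤ, e = κ.th * h + κ.pcs (∑ l ∈ P, (p l : ℤ)) (∑ l ∈ P, (x l : ℤ))
        + (κ.uq * ∑ y ∈ P, (q y : ℤ) + κ.uf * ∑ y ∈ P, (kf y : ℤ) + ∑ y ∈ P, (kh y : ℤ)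
        + κ.c * ∑ y ∈ P, (kc y : ℤ)) := ⟨_, rfl⟩
    rw [e4]
    unfold TKd.snu
    rw [hG, ← he]
    rw [← he] at h2e
    rcases Nat.le_one_iff_eq_zero_or_eq_one.1 hth with h7 | h7
    · have m1 := hN2 xx hx1 e (by
        rw [e1, he, ← hx2, h7]
        push_cast
        ring) h2e
      rw [e3] at m1
      rw [h7]
      push_cast
      linarith
    · have m1 := hN xx hx1 e (by
        rw [e1, he, ← hx2, h7]
        push_cast
        ring) h2e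
      rw [e3] at m1
      rw [h7]
      push_cast
      linarith

/-- **every test as state part + cell parts** -/
theorem RowV.rkd (V : RowV R P A d hn h B p x q mf mh mhb mha mc mcb mcn mcv kf kh khb kha kc kca
    kcb kcr sg en nn) {pm : ℕ} (hpm : ∀ l ∈ P, p l ≤ pm) {nb : ℕ → ℤ}
    (hnb : ∀ y ∈ P, (nn y : ℤ) ≤ nb y) {gn : ℤ} (hgn : gn ≤ (hn : ℤ) * (hn - 1)) (r : RKd)
    (hr : r.ok R (stN P d hn h p x q kf kh kc kca)) :
    0 ≤ r.rs R A pm gn (stN P d hn h p x q kf kh kc kca)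
      + ∑ y ∈ P, r.rc (p y) (q y) (kf y) (kh y) (nb y) (khb y) (kcb y) := by
  obtain ⟨hth, huq, huf, hc, c0, c1, c2, c4, c5, c3⟩ := hr
  unfold stN at c0 c1 c2 c3 c5
  unfold RKd.rs RKd.rc stN RKd.gg
  have e3 : ((∑ y ∈ P, (q y + kf y + kh y) : ℕ) : ℤ)
      = ∑ y ∈ P, (q y : ℤ) + ∑ y ∈ P, (kf y : ℤ) + ∑ y ∈ P, (kh y : ℤ) := by
    push_cast
    rw [sum_add_distrib, sum_add_distrib]
  have e4 : ((∑ y ∈ P, kh y : ℕ) : ℤ) = ∑ y ∈ P, (kh y : ℤ) := by push_cast; rfl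
  by_cases t0 : r.ty = 0
  · obtain ⟨a1, a2, a3, a4⟩ := c0 t0
    simp only [t0, if_true]
    refine V.tKd hpm hnb r.κ a1 hth huq huf hc (a2.imp_right fun h => ⟨h.1, ?_⟩) ?_ a4 hgn rfl
    · have h9 : (r.κ.k0 : ℤ) ≤ ∑ y ∈ P, (kh y : ℤ) := h.2
      rw [← e4] at h9
      exact_mod_cast h9
    · have h9 : ∑ y ∈ P, (kh y : ℤ) ≤ r.κ.k1 := a3
      rw [← e4] at h9
      exact_mod_cast h9
  by_cases t1 : r.ty = 1
  · obtain ⟨a1, a2, a3⟩ := c1 t1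
    have z1 : ¬ ((1 : ℕ) = 0) := by norm_num
    have z2 : ¬ ((1 : ℕ) = 2) := by norm_num
    simp only [t1, if_true, if_neg z1, if_neg z2]
    refine V.nKd r.κ a1 hth huq huf hc (a2.imp_right fun h => ⟨h.1, ?_⟩) rfl ?_
    · have h9 : (r.κ.k0 : ℤ) ≤ ∑ y ∈ P, (kh y : ℤ) := h.2
      rw [← e4] at h9
      exact_mod_cast h9
    · unfold RKd.ee at a3
      rw [if_pos t1] at a3
      dsimp only at a3
      linarith
  by_cases t2 : r.ty = 2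
  · obtain ⟨a1, a2, a3, a4, a5⟩ := c2 t2
    have z1 : ¬ ((2 : ℕ) = 0) := by norm_num
    have z2 : ¬ ((2 : ℕ) = 1) := by norm_num
    simp only [t2, if_true, if_neg z1, if_neg z2]
    refine V.tKa hpm hnb r.κ a1 hth hc a2 ?_ ?_ a5 hgn rfl
    · have h9 : (r.κ.k0 : ℤ) ≤ ∑ y ∈ P, (q y : ℤ) + ∑ y ∈ P, (kf y : ℤ) + ∑ y ∈ P, (kh y : ℤ) := a3
      rw [← e3] at h9
      exact_mod_cast h9
    · have h9 : ∑ y ∈ P, (q y : ℤ) + ∑ y ∈ P, (kf y : ℤ) + ∑ y ∈ P, (kh y : ℤ) ≤ r.κ.k1 := a4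
      rw [← e3] at h9
      exact_mod_cast h9
  by_cases t4 : r.ty = 4
  · have z0 : ¬ ((4 : ℕ) = 0) := by norm_num
    have z1 : ¬ ((4 : ℕ) = 1) := by norm_num
    have z2 : ¬ ((4 : ℕ) = 2) := by norm_num
    simp only [t4, if_true, if_neg z0, if_neg z1, if_neg z2]
    exact (V.tKu hpm hnb r.κ hth huq huf hc hgn rfl).1 (c4 t4)
  by_cases t5 : r.ty = 5
  · obtain ⟨a1, a2⟩ := c5 t5
    have z0 : ¬ ((5 : ℕ) = 0) := by norm_num
    have z1 : ¬ ((5 : ℕ) = 1) := by norm_num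
    have z2 : ¬ ((5 : ℕ) = 2) := by norm_num
    have z4 : ¬ ((5 : ℕ) = 4) := by norm_num
    simp only [t5, if_true, if_neg z0, if_neg z1, if_neg z2, if_neg z4]
    refine (V.tKu hpm hnb r.κ hth huq huf hc hgn rfl).2 a1 ?_
    unfold RKd.ee at a2
    rw [if_neg t1, if_pos t5] at a2
    dsimp only at a2
    linarith
  · obtain ⟨a1, a2, a3, a4⟩ := c3 t0 t1 t2 t4 t5
    rw [if_neg t0, if_neg t1, if_neg t2, if_neg t4, if_neg t5]
    have e5 : ∑ y ∈ P, (if r.ty = 0 then r.κ.ce (p y) (q y) (kf y) (kh y) (nb y) (khb y) (kcb y)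
        else if r.ty = 2 then r.κ.cea (p y) (q y) (kf y) (kh y) (nb y) (khb y) (kcb y)
        else if r.ty = 4 then r.κ.ceu (p y) (q y) (kf y) (kh y) (nb y) (khb y) (kcb y)
        else if r.ty = 5 then (khb y : ℤ) + r.κ.c * (kcb y : ℤ)
        else r.κ.cn (khb y) (kcb y)) = ∑ y ∈ P, r.κ.cn (khb y) (kcb y) :=
      sum_congr rfl fun y _ => by rw [if_neg t0, if_neg t2, if_neg t4, if_neg t5]
    rw [e5]
    refine V.nKa r.κ a1 hth hc a2 ?_ rfl ?_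
    · have h9 : (r.κ.k0 : ℤ) ≤ ∑ y ∈ P, (q y : ℤ) + ∑ y ∈ P, (kf y : ℤ) + ∑ y ∈ P, (kh y : ℤ) := a3
      rw [← e3] at h9
      exact_mod_cast h9
    · unfold RKd.ee at a4
      rw [if_neg t1, if_neg t5] at a4
      dsimp only at a4
      linarith

/-- **THE BARRIER**: PC pairs and full served units together stay below the first size `e + 1` at which tzN without
misses fails -/
theorem RowV.bar (V : RowV R P A d hn h B p x q mf mh mhb mha mc mcb mcn mcv kf kh khb kha kc kca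
    kcb kcr sg en nn) {e : ℕ} (h1 : h + ∑ y ∈ P, p y ≤ e) (h2 : 2 * (e + 1) ≤ R)
    (h3 : A * (e + 1) + (R - 2 * (e + 1)) * d < (R - 2 * (e + 1)) * (e + 1)) :
    h + ∑ y ∈ P, p y + ∑ y ∈ P, x y + ∑ y ∈ P, (q y + kf y) ≤ e := by
  by_contra hcon
  push Not at hcon
  -- the sub-family of size exactly `e + 1`
  obtain ⟨xx, k', hxx, hk', hsum⟩ : ∃ xx k' : ℕ, xx ≤ ∑ y ∈ P, x y ∧ k' ≤ ∑ y ∈ P, (q y + kf y) ∧
      h + ∑ y ∈ P, p y + (∑ y ∈ P, x y - xx) + k' = e + 1 := by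
    rcases Nat.lt_or_ge (∑ y ∈ P, (q y + kf y)) (e + 1 - (h + ∑ y ∈ P, p y)) with h4 | h4
    · exact ⟨∑ y ∈ P, x y - (e + 1 - (h + ∑ y ∈ P, p y) - ∑ y ∈ P, (q y + kf y)),
        ∑ y ∈ P, (q y + kf y), by omega, le_rfl, by omega⟩
    · exact ⟨∑ y ∈ P, x y, e + 1 - (h + ∑ y ∈ P, p y), le_rfl, h4, by omega⟩
  have hk2 : k' ≤ ∑ y ∈ P, (q y + kf y + (fun _ => 0) y) := by simpa using hk'
  obtain ⟨q', kf', kh', hle, hs2, -⟩ := sub_cellsG (P := P) q kf (fun _ => 0) (fun _ => 0)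
    (fun _ => 0) (fun _ => 0) 0 k' hk2
  obtain ⟨b', hb, -, -, hN, -, -⟩ := V.row q' kf' (fun _ => 0) (fun _ => 0) fun y hy => by
    obtain ⟨a1, a2, -⟩ := hle y hy
    exact ⟨a1, a2, Nat.zero_le _, Nat.zero_le _⟩
  have hkh : ∀ y ∈ P, kh' y = 0 := fun y hy => Nat.le_zero.1 (hle y hy).2.2
  have hs3 : ∑ y ∈ P, (q' y + kf' y) = k' := by
    rw [← hs2]
    exact sum_congr rfl fun y hy => by rw [hkh y hy]; rfl
  have hb0 : ∑ y ∈ P, b' y ≤ 0 := sum_nonpos fun y hy => by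
    obtain ⟨-, a2, a3⟩ := hb y hy
    rcases Nat.eq_zero_or_pos (kh y) with h6 | h6
    · rw [V.khb0 hy h6] at a2
      exact_mod_cast a2
    · have h7 : (kh y : ℤ) * b' y ≤ 0 := by simpa using a3
      by_contra h9
      have h10 : (0 : ℤ) < (kh y : ℤ) * b' y := mul_pos (by exact_mod_cast h6) (by omega)
      omega
  have m1 := hN xx hxx ((e : ℤ) + 1) (by
    have z1 : ((h + ∑ y ∈ P, p y + (∑ y ∈ P, x y - xx) + k' : ℕ) : ℤ) = ((e + 1 : ℕ) : ℤ) := by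
      rw [hsum]
    have z2 : ((∑ y ∈ P, x y - xx : ℕ) : ℤ) = ∑ y ∈ P, (x y : ℤ) - xx := by
      rw [Nat.cast_sub hxx]
      push_cast
      rfl
    have z3 : ∑ y ∈ P, ((q' y : ℤ) + ((kf' y : ℤ) + ((0 : ℕ) : ℤ) + ((0 : ℕ) : ℤ) * kc y)) = k' := by
      rw [← hs3]
      push_cast
      exact sum_congr rfl fun y _ => by ring
    rw [z3, sum_add_distrib]
    push_cast at z1
    rw [Nat.cast_sub hxx] at z1
    push_cast at z1
    linarith) (by exact_mod_cast h2)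
  have m2 : ∑ y ∈ P, (b' y + ((0 : ℕ) : ℤ) * kcb y) = ∑ y ∈ P, b' y :=
    sum_congr rfl fun y _ => by simp
  rw [m2] at m1
  have h2' : 2 * (e + 1) ≤ R := h2
  have m3 : ((A * (e + 1) + (R - 2 * (e + 1)) * d : ℕ) : ℤ) < (((R - 2 * (e + 1)) * (e + 1) : ℕ) : ℤ) := by
    exact_mod_cast h3
  push_cast [Nat.cast_sub h2'] at m3
  linarith

/-- **THE LEAF in integers**: a vector of multipliers bounds the sum of the cell numbers `sn` -/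
theorem RowV.leafZ (V : RowV R P A d hn h B p x q mf mh mhb mha mc mcb mcn mcv kf kh khb kha kc kca
    kcb kcr sg en nn) {pm : ℕ} (hpm : ∀ l ∈ P, p l ≤ pm) {nb : ℕ → ℤ}
    (hnb : ∀ y ∈ P, (nn y : ℤ) ≤ nb y) {gn : ℤ} (hgn : gn ≤ (hn : ℤ) * (hn - 1)) (L : LeafD)
    (hr : ∀ r ∈ L.rows, r.2.ok R (stN P d hn h p x q kf kh kc kca)) (hal : 0 ≤ L.al)
    (han : 0 ≤ L.ln.an) {cls : ℕ → ℤ} (hcls : ∑ y ∈ P, cls y ≤ L.nu) {sn : ℕ → ℤ}
    (hC : ∀ y ∈ P, sn y + L.cel (p y) (q y) (kf y) (kh y) (nb y) (khb y) (kcb y)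
      + L.ln.cel (p y) (x y) (q y) (mf y) (mh y) (mc y) (kf y) (kh y) (kc y) (kca y)
        ≤ L.al * B y + cls y) :
    ∑ y ∈ P, sn y ≤ L.fin R A pm gn (stN P d hn h p x q kf kh kc kca) := by
  have m1 := sum_le_sum hC
  rw [sum_add_distrib, sum_add_distrib, sum_add_distrib, ← mul_sum] at m1
  -- the tests
  have m2 : ∀ rows : List (ℕ × RKd), (∀ r ∈ rows, r.2.ok R (stN P d hn h p x q kf kh kc kca)) →
      0 ≤ (rows.map fun r => (r.1 : ℤ) * r.2.rs R A pm gn (stN P d hn h p x q kf kh kc kca)).sum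
        + ∑ y ∈ P, (rows.map fun r => (r.1 : ℤ)
          * r.2.rc (p y) (q y) (kf y) (kh y) (nb y) (khb y) (kcb y)).sum := by
    intro rows
    induction rows with
    | nil => intro _; simp
    | cons a rows ih =>
      intro ha
      have i1 := ih fun r hr => ha r (List.mem_cons_of_mem _ hr)
      have i2 := V.rkd hpm hnb hgn a.2 (ha a List.mem_cons_self)
      have i3 := mul_nonneg (Nat.cast_nonneg (α := ℤ) a.1) i2
      rw [mul_add, mul_sum] at i3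
      simp only [List.map_cons, List.sum_cons, sum_add_distrib]
      linarith
  have m3 := m2 L.rows hr
  -- the masses
  have m4 : ∑ y ∈ P, (B y : ℤ) ≤ R - A := by
    have : ((A + ∑ y ∈ P, B y : ℕ) : ℤ) ≤ R := by exact_mod_cast V.mass
    push_cast at this
    linarith
  have m5 := mul_le_mul_of_nonneg_left m4 hal
  -- the totals
  have m6 : L.ln.stt (stN P d hn h p x q kf kh kc kca) ≤ ∑ y ∈ P,
      L.ln.cel (p y) (x y) (q y) (mf y) (mh y) (mc y) (kf y) (kh y) (kc y) (kca y) := by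
    have a1 : (h : ℤ) = ∑ y ∈ P, ((mf y : ℤ) + mh y + mc y) := by
      have := V.hS
      rw [this]
      push_cast
      rfl
    have a2 : ∑ y ∈ P, ((mf y : ℤ) + mh y) ≤ hn := by exact_mod_cast V.hn1
    have a3 := mul_le_mul_of_nonneg_left a2 han
    have a4 : ∑ y ∈ P, L.ln.cel (p y) (x y) (q y) (mf y) (mh y) (mc y) (kf y) (kh y) (kc y) (kca y)
        = L.ln.ah * ∑ y ∈ P, ((mf y : ℤ) + mh y + mc y) - L.ln.an * ∑ y ∈ P, ((mf y : ℤ) + mh y)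
          + L.ln.ap * ∑ y ∈ P, (p y : ℤ) + L.ln.ax * ∑ y ∈ P, (x y : ℤ)
          + L.ln.aq * ∑ y ∈ P, (q y : ℤ) + L.ln.a0 * ∑ y ∈ P, (kf y : ℤ)
          + L.ln.a2 * ∑ y ∈ P, (kh y : ℤ) + L.ln.ac * ∑ y ∈ P, (kc y : ℤ)
          + L.ln.aca * ∑ y ∈ P, (kca y : ℤ) := by
      simp only [mul_sum, ← sum_add_distrib, ← sum_sub_distrib]
      exact sum_congr rfl fun y _ => rfl
    rw [a4]
    unfold LnM.stt stN
    rw [← a1]
    linarith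
  unfold LeafD.fin
  unfold LeafD.cel at m1
  linarith

/-- **THE LEAF**: a vector of multipliers bounds the share sum -/
theorem RowV.leaf (V : RowV R P A d hn h B p x q mf mh mhb mha mc mcb mcn mcv kf kh khb kha kc kca
    kcb kcr sg en nn) {pm : ℕ} (hpm : ∀ l ∈ P, p l ≤ pm) {nb : ℕ → ℤ}
    (hnb : ∀ y ∈ P, (nn y : ℤ) ≤ nb y) {gn : ℤ} (hgn : gn ≤ (hn : ℤ) * (hn - 1)) (L : LeafD)
    (hr : ∀ r ∈ L.rows, r.2.ok R (stN P d hn h p x q kf kh kc kca)) (hal : 0 ≤ L.al)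
    (han : 0 ≤ L.ln.an) {cls : ℕ → ℤ} (hcls : ∑ y ∈ P, cls y ≤ L.nu) {D : ℤ} {sh : ℕ → ℝ}
    {sn : ℕ → ℤ} (hsh : ∀ y ∈ P, (D : ℝ) * sh y ≤ sn y)
    (hC : ∀ y ∈ P, sn y + L.cel (p y) (q y) (kf y) (kh y) (nb y) (khb y) (kcb y)
      + L.ln.cel (p y) (x y) (q y) (mf y) (mh y) (mc y) (kf y) (kh y) (kc y) (kca y)
        ≤ L.al * B y + cls y) :
    (D : ℝ) * ∑ y ∈ P, sh y ≤ (L.fin R A pm gn (stN P d hn h p x q kf kh kc kca) : ℤ) := by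
  have h1 : (D : ℝ) * ∑ y ∈ P, sh y ≤ ((∑ y ∈ P, sn y : ℤ) : ℝ) := by
    rw [mul_sum]
    push_cast
    exact sum_le_sum hsh
  refine h1.trans ?_
  exact_mod_cast V.leafZ hpm hnb hgn L hr hal han hcls hC

/-- **the row inequality of `LevC.close_GW`** from a leaf: `sn = E * (numerator of the share)` at every cell and
`N * fin ≤ E * (D * (N * d + V))` at the state -/
theorem leaf_close {Q : Finset ℕ} {pay : ℕ → ℤ} {E N D V dd fin : ℤ} (hE : 0 < E) (hN : 0 ≤ N)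
    (h1 : ∑ y ∈ Q, E * pay y ≤ fin) (h2 : N * fin ≤ E * (D * (N * dd + V))) :
    N * ∑ y ∈ Q, pay y ≤ D * (N * dd + V) := by
  rw [← mul_sum] at h1
  have h3 := mul_le_mul_of_nonneg_left h1 hN
  have h4 : E * (N * ∑ y ∈ Q, pay y) ≤ E * (D * (N * dd + V)) := by linarith
  exact le_of_mul_le_mul_left h4 hE

/-! ### boxes of states -/

/-- the values at the ends of the intervals of the ten letters -/
def StN.Box (σ0 σ1 σ : StN) : Prop :=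
  (σ0.d ≤ σ.d ∧ σ.d ≤ σ1.d) ∧ (σ0.hn ≤ σ.hn ∧ σ.hn ≤ σ1.hn) ∧ (σ0.h ≤ σ.h ∧ σ.h ≤ σ1.h) ∧
  (σ0.P ≤ σ.P ∧ σ.P ≤ σ1.P) ∧ (σ0.X ≤ σ.X ∧ σ.X ≤ σ1.X) ∧ (σ0.K ≤ σ.K ∧ σ.K ≤ σ1.K) ∧
  (σ0.F ≤ σ.F ∧ σ.F ≤ σ1.F) ∧ (σ0.K2 ≤ σ.K2 ∧ σ.K2 ≤ σ1.K2) ∧ (σ0.C ≤ σ.C ∧ σ.C ≤ σ1.C) ∧
  (σ0.Ca ≤ σ.Ca ∧ σ.Ca ≤ σ1.Ca)

/-- the state part of the row test with all halves used is convex in every letter -/
theorem stu_cvx (κ : TKd) (R A pm gn G h P X K F K2 C Ca : ℤ) :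
    Cvx (fun G => κ.stu R A pm gn G h P X K F K2 C Ca) ∧
    Cvx (fun h => κ.stu R A pm gn G h P X K F K2 C Ca) ∧
    Cvx (fun P => κ.stu R A pm gn G h P X K F K2 C Ca) ∧
    Cvx (fun X => κ.stu R A pm gn G h P X K F K2 C Ca) ∧
    Cvx (fun K => κ.stu R A pm gn G h P X K F K2 C Ca) ∧
    Cvx (fun F => κ.stu R A pm gn G h P X K F K2 C Ca) ∧
    Cvx (fun K2 => κ.stu R A pm gn G h P X K F K2 C Ca) ∧
    Cvx (fun C => κ.stu R A pm gn G h P X K F K2 C Ca) ∧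
    Cvx (fun Ca => κ.stu R A pm gn G h P X K F K2 C Ca) := by
  have lin : ∀ f : ℤ → ℤ, (∃ a b : ℤ, ∀ x, f x = a * x + b) → Cvx f := fun f ⟨a, b, h⟩ =>
    (Cvx.lin a b).congr h
  unfold TKd.stu
  refine ⟨?_, ?_, ?_, ?_, ?_, ?_, ?_, ?_, ?_⟩
  · refine (TesD_cvx_G _ _ _ _ _ _ _ _).add (lin _ ?_)
    by_cases h2 : κ.xy = 2
    · exact ⟨-(2 * pm), 2 * (pm * (A + κ.th * h)), fun x => by rw [if_pos h2]; ring⟩
    · exact ⟨0, 0, fun x => by rw [if_neg h2]; ring⟩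
  · refine Cvx.add (((TesD_cvx_m R A G (κ.uq * K + κ.uf * F + K2 + κ.c * C)
      (κ.uq * K + κ.uf * F + K2 + κ.c * Ca) 0 (κ.th * gn) 0).comp (κ.pcs P X) κ.th).congr
      fun x => by rw [add_comm]) (lin _ ?_)
    by_cases h2 : κ.xy = 2
    · exact ⟨2 * (pm * κ.th), 2 * (pm * (A - G)), fun x => by rw [if_pos h2]; ring⟩
    · exact ⟨0, 0, fun x => by rw [if_neg h2]; ring⟩
  · refine Cvx.add (((TesD_cvx_m R A G (κ.uq * K + κ.uf * F + K2 + κ.c * C)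
      (κ.uq * K + κ.uf * F + K2 + κ.c * Ca) 0 (κ.th * gn) 0).comp
      (κ.th * h + (if κ.xy = 0 then 1 else 0) * X)
      (if κ.xy = 0 then 1 else if κ.xy = 1 then 1 else 0)).congr
      fun x => by rw [pcs_eq]; congr 1; ring) (Cvx.const _)
  · refine Cvx.add (((TesD_cvx_m R A G (κ.uq * K + κ.uf * F + K2 + κ.c * C)
      (κ.uq * K + κ.uf * F + K2 + κ.c * Ca) 0 (κ.th * gn) 0).comp
      (κ.th * h + (if κ.xy = 0 then 1 else if κ.xy = 1 then 1 else 0) * P)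
      (if κ.xy = 0 then 1 else 0)).congr
      fun x => by rw [pcs_eq]; congr 1; ring) (Cvx.const _)
  · refine Cvx.add (((TesD_cvx_kk R A G (κ.th * h + κ.pcs P X) (κ.uf * F + K2 + κ.c * C)
      (κ.uf * F + K2 + κ.c * Ca) 0 (κ.th * gn) 0).comp 0 κ.uq).congr
      fun x => by congr 1 <;> ring) (Cvx.const _)
  · refine Cvx.add (((TesD_cvx_kk R A G (κ.th * h + κ.pcs P X) (κ.uq * K + K2 + κ.c * C)
      (κ.uq * K + K2 + κ.c * Ca) 0 (κ.th * gn) 0).comp 0 κ.uf).congr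
      fun x => by congr 1 <;> ring) (Cvx.const _)
  · refine Cvx.add (((TesD_cvx_kk R A G (κ.th * h + κ.pcs P X) (κ.uq * K + κ.uf * F + κ.c * C)
      (κ.uq * K + κ.uf * F + κ.c * Ca) 0 (κ.th * gn) 0).comp 0 1).congr
      fun x => by congr 1 <;> ring) (Cvx.const _)
  · refine Cvx.add (((TesD_cvx_k R A G (κ.th * h + κ.pcs P X)
      (κ.uq * K + κ.uf * F + K2 + κ.c * Ca) 0 (κ.th * gn) 0).comp
      (κ.uq * K + κ.uf * F + K2) κ.c).congr fun x => rfl) (Cvx.const _)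
  · refine Cvx.add (((TesD_cvx_ka R A G (κ.th * h + κ.pcs P X)
      (κ.uq * K + κ.uf * F + K2 + κ.c * C) 0 (κ.th * gn) 0).comp
      (κ.uq * K + κ.uf * F + K2) κ.c).congr fun x => rfl) (Cvx.const _)

/-- the state part of tzN with all halves used is convex in every letter -/
theorem snu_cvx (κ : TKd) (R A G h P X K F K2 C : ℤ) :
    Cvx (fun G => κ.snu R A G h P X K F K2 C) ∧ Cvx (fun h => κ.snu R A G h P X K F K2 C) ∧
    Cvx (fun P => κ.snu R A G h P X K F K2 C) ∧ Cvx (fun X => κ.snu R A G h P X K F K2 C) ∧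
    Cvx (fun K => κ.snu R A G h P X K F K2 C) ∧ Cvx (fun F => κ.snu R A G h P X K F K2 C) ∧
    Cvx (fun K2 => κ.snu R A G h P X K F K2 C) ∧ Cvx (fun C => κ.snu R A G h P X K F K2 C) := by
  obtain ⟨a, ha⟩ : ∃ a : ℤ, a = (if κ.xy = 0 then 1 else if κ.xy = 1 then 1 else 0) := ⟨_, rfl⟩
  obtain ⟨b, hb⟩ : ∃ b : ℤ, b = (if κ.xy = 0 then 1 else 0) := ⟨_, rfl⟩
  have hp : ∀ P X : ℤ, κ.pcs P X = a * P + b * X := fun P X => by rw [pcs_eq, ha, hb]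
  unfold TKd.snu
  simp only [hp]
  refine ⟨?_, ?_, ?_, ?_, ?_, ?_, ?_, ?_⟩
  · refine ⟨0, (R - 2 * (κ.th * h + (a * P + b * X) + (κ.uq * K + κ.uf * F + K2 + κ.c * C))),
      -((R - 2 * (κ.th * h + (a * P + b * X) + (κ.uq * K + κ.uf * F + K2 + κ.c * C)))
      * (κ.th * h + (a * P + b * X) + (κ.uq * K + κ.uf * F + K2 + κ.c * C))
      - A * (κ.th * h + (a * P + b * X) + (κ.uq * K + κ.uf * F + K2 + κ.c * C))), le_rfl,
      fun x => by ring⟩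
  · exact ((tzN_cvx R A G).comp ((a * P + b * X) + (κ.uq * K + κ.uf * F + K2 + κ.c * C))
      κ.th).congr fun x => by ring
  · exact ((tzN_cvx R A G).comp (κ.th * h + b * X + (κ.uq * K + κ.uf * F + K2 + κ.c * C))
      a).congr fun x => by ring
  · exact ((tzN_cvx R A G).comp (κ.th * h + a * P + (κ.uq * K + κ.uf * F + K2 + κ.c * C))
      b).congr fun x => by ring
  · exact ((tzN_cvx R A G).comp (κ.th * h + (a * P + b * X) + (κ.uf * F + K2 + κ.c * C))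
      κ.uq).congr fun x => by ring
  · exact ((tzN_cvx R A G).comp (κ.th * h + (a * P + b * X) + (κ.uq * K + K2 + κ.c * C))
      κ.uf).congr fun x => by ring
  · exact ((tzN_cvx R A G).comp (κ.th * h + (a * P + b * X) + (κ.uq * K + κ.uf * F + κ.c * C))
      1).congr fun x => by ring
  · exact ((tzN_cvx R A G).comp (κ.th * h + (a * P + b * X) + (κ.uq * K + κ.uf * F + K2))
      κ.c).congr fun x => by ring

/-- the state part of a test, convex in every letter -/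
theorem rs_cvx (r : RKd) (R A pm gn d hn h P X K F K2 C Ca : ℤ) :
    Cvx (fun d => r.rs R A pm gn ⟨d, hn, h, P, X, K, F, K2, C, Ca⟩) ∧
    Cvx (fun hn => r.rs R A pm gn ⟨d, hn, h, P, X, K, F, K2, C, Ca⟩) ∧
    Cvx (fun h => r.rs R A pm gn ⟨d, hn, h, P, X, K, F, K2, C, Ca⟩) ∧
    Cvx (fun P => r.rs R A pm gn ⟨d, hn, h, P, X, K, F, K2, C, Ca⟩) ∧
    Cvx (fun X => r.rs R A pm gn ⟨d, hn, h, P, X, K, F, K2, C, Ca⟩) ∧
    Cvx (fun K => r.rs R A pm gn ⟨d, hn, h, P, X, K, F, K2, C, Ca⟩) ∧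
    Cvx (fun F => r.rs R A pm gn ⟨d, hn, h, P, X, K, F, K2, C, Ca⟩) ∧
    Cvx (fun K2 => r.rs R A pm gn ⟨d, hn, h, P, X, K, F, K2, C, Ca⟩) ∧
    Cvx (fun C => r.rs R A pm gn ⟨d, hn, h, P, X, K, F, K2, C, Ca⟩) ∧
    Cvx (fun Ca => r.rs R A pm gn ⟨d, hn, h, P, X, K, F, K2, C, Ca⟩) := by
  unfold RKd.rs RKd.gg
  have g1 : ∀ f : ℤ → ℤ, Cvx f → Cvx fun d => f (d + (1 - (r.κ.th : ℤ)) * hn) := fun f hf =>
    (hf.comp ((1 - (r.κ.th : ℤ)) * hn) 1).congr fun x => by congr 1; ring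
  have g2 : ∀ f : ℤ → ℤ, Cvx f → Cvx fun hn => f (d + (1 - (r.κ.th : ℤ)) * hn) := fun f hf =>
    hf.comp d (1 - (r.κ.th : ℤ))
  by_cases t0 : r.ty = 0
  · simp only [if_pos t0]
    obtain ⟨a1, a2, a3, a4, a5, a6, a7, a8⟩ := st_cvx r.κ R A pm gn (d + (1 - (r.κ.th : ℤ)) * hn)
      h P X K F C Ca
    exact ⟨g1 _ a1, g2 _ a1, a2, a3, a4, a5, a6, Cvx.const _, a7, a8⟩
  by_cases t1 : r.ty = 1
  · simp only [if_neg t0, if_pos t1]
    obtain ⟨a1, a2, a3, a4, a5, a6, a7⟩ := sn_cvx r.κ R A (d + (1 - (r.κ.th : ℤ)) * hn)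
      h P X K F C
    exact ⟨g1 _ a1, g2 _ a1, a2, a3, a4, a5, a6, Cvx.const _, a7, Cvx.const _⟩
  by_cases t2 : r.ty = 2
  · simp only [if_neg t0, if_neg t1, if_pos t2]
    unfold TKd.sta
    obtain ⟨a1, a2, a3, a4, a5, a6, a7, a8⟩ := st_cvx r.κ R A pm gn (d + (1 - (r.κ.th : ℤ)) * hn)
      h P X 0 0 C Ca
    exact ⟨g1 _ a1, g2 _ a1, a2, a3, a4, Cvx.const _, Cvx.const _, Cvx.const _, a7, a8⟩
  by_cases t4 : r.ty = 4
  · simp only [if_neg t0, if_neg t1, if_neg t2, if_pos t4]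
    obtain ⟨a1, a2, a3, a4, a5, a6, a7, a8, a9⟩ := stu_cvx r.κ R A pm gn
      (d + (1 - (r.κ.th : ℤ)) * hn) h P X K F K2 C Ca
    exact ⟨g1 _ a1, g2 _ a1, a2, a3, a4, a5, a6, a7, a8, a9⟩
  by_cases t5 : r.ty = 5
  · simp only [if_neg t0, if_neg t1, if_neg t2, if_neg t4, if_pos t5]
    obtain ⟨a1, a2, a3, a4, a5, a6, a7, a8⟩ := snu_cvx r.κ R A (d + (1 - (r.κ.th : ℤ)) * hn)
      h P X K F K2 C
    exact ⟨g1 _ a1, g2 _ a1, a2, a3, a4, a5, a6, a7, a8, Cvx.const _⟩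
  · simp only [if_neg t0, if_neg t1, if_neg t2, if_neg t4, if_neg t5]
    obtain ⟨a1, a2, a3, a4, a5, a6, a7⟩ := sn_cvx r.κ R A (d + (1 - (r.κ.th : ℤ)) * hn)
      h P X 0 0 C
    exact ⟨g1 _ a1, g2 _ a1, a2, a3, a4, Cvx.const _, Cvx.const _, Cvx.const _, a7, Cvx.const _⟩

/-! ### short form of the state parts -/

/-- the row test in the letters `s = m + k`, `e = m + k + ka` -/
lemma TesD_sq (R A G m k ka gain : ℤ) : TesD R A G m k ka 0 gain 0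
    = (m + k + ka) * (m + k + ka + 1) - 2 * ((m + k + ka) * G) + 2 * (R * G)
      - 2 * ((R + 1 - A) * (m + k)) - gain := by
  unfold TesD
  ring

/-- tzN in the letter `e` -/
lemma tzN_sq (R A G e : ℤ) : -((R - 2 * e) * (e - G) - A * e)
    = 2 * (e * e) - 2 * (e * G) + R * G - (R - A) * e := by ring

end MidL

end Pool.Agent.Lib.MP_f04ccf_co
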