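import Pool.Agent.Lib.MP_f04ccf_co.M.MidF

/-!
MP_f04ccf_co, TEXT D, middle range: **the normalisation of a box of states in the kernel**.

Letters `d hn hx P X K F K2 C Ca pm M1 M2` (lists `lo`, `hi`, further entries are kept).

* `StFa R A σ`: the facts of a state: `d + hn ≤ A`, `pm ≤ P`, `pm = 0 → P = 0`, `M2 ≤ M1`,
  `A + M1 + M2 + 2 ≤ R`, `hn + hx + P + X + K + F + K2 + C ≤ d + 1 + (R - A)`, `Ca ≤ C ≤ 2 Ca`;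
* `MN.norm R A lo hi k`: the normalised box is handed to `k`; true if the box is empty;
* **`MN.norm_sound`**: if it is true and the state is in the box, then `k lo' hi' = true` for a box `lo' hi'` which
  contains the state.
-/

set_option autoImplicit false

namespace Pool.Agent.Lib.MP_f04ccf_co

/-- facts of a state -/
structure StFa (R A : ℕ) (σ : ℕ → ℕ) : Prop where
  f1 : σ 0 + σ 1 ≤ A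
  f2 : σ 10 ≤ σ 3
  f3 : σ 10 = 0 → σ 3 = 0
  f4 : A + σ 11 + σ 12 + 2 ≤ R
  f5 : σ 12 ≤ σ 11
  f6 : σ 1 + σ 2 + σ 3 + σ 4 + σ 5 + σ 6 + σ 7 + σ 8 ≤ σ 0 + 1 + (R - A)
  f7 : σ 9 ≤ σ 8
  f8 : σ 8 ≤ 2 * σ 9

namespace MN

open MF

/-- true if `b` -/
noncomputable def em (b y : Bool) : Bool := Bool.rec (motive := fun _ => Bool) y true b

lemma em_lt {a b : ℕ} {y : Bool} (h : em (Nat.ble (Nat.succ a) b) y = true) (hab : b ≤ a) :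
    y = true := by
  unfold em at h
  rcases hc : Nat.ble (Nat.succ a) b with _ | _
  · rw [hc] at h
    exact h
  · have := Nat.le_of_ble_eq_true hc
    omega

/-- maximum -/
noncomputable def mx' (a b : ℕ) : ℕ := Nat.add a (Nat.sub b a)

lemma mx'_le {a b c : ℕ} (h1 : a ≤ c) (h2 : b ≤ c) : mx' a b ≤ c := by
  unfold mx'
  show a + (b - a) ≤ c
  omega

lemma le_mn' {a b c : ℕ} (h1 : c ≤ a) (h2 : c ≤ b) : c ≤ mn' a b := by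
  unfold mn'
  show c ≤ a - (a - b)
  omega

/-- `d + hn ≤ A` -/
noncomputable def nA (A d0 d1 n0 n1 : ℕ) (k : ℕ → ℕ → Bool) : Bool :=
  fr (Nat.add d0 n0) fun t => em (Nat.ble (Nat.succ A) t)
  (fr (Nat.sub A t) fun s => fr (mn' d1 (Nat.add d0 s)) fun d1' => fr (mn' n1 (Nat.add n0 s)) fun n1' =>
    k d1' n1')

lemma nA_sound {A d0 d1 n0 n1 : ℕ} {k : ℕ → ℕ → Bool}
    (h : nA A d0 d1 n0 n1 k = true) {d n : ℕ} (hd : d0 ≤ d ∧ d ≤ d1) (hn : n0 ≤ n ∧ n ≤ n1)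
    (hf : d + n ≤ A) : ∃ d1' n1' : ℕ, k d1' n1' = true ∧ d ≤ d1' ∧ n ≤ n1' := by
  unfold nA at h
  simp only [fr_eq] at h
  have h1 := em_lt h (by show d0 + n0 ≤ A; omega)
  refine ⟨_, _, h1, le_mn' hd.2 ?_, le_mn' hn.2 ?_⟩
  · show d ≤ d0 + (A - (d0 + n0))
    omega
  · show n ≤ n0 + (A - (d0 + n0))
    omega

/-- `Ca ≤ C ≤ 2 Ca` -/
noncomputable def nC (C0 C1 A0 A1 : ℕ) (k : ℕ → ℕ → ℕ → ℕ → Bool) : Bool :=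
  fr (mx' C0 A0) fun C0' => fr (mn' C1 (Nat.mul 2 A1)) fun C1' =>
  fr (mx' A0 (Nat.div (Nat.succ C0') 2)) fun A0' => fr (mn' A1 C1') fun A1' =>
  em (Nat.ble (Nat.succ C1') C0') (em (Nat.ble (Nat.succ A1') A0') (k C0' C1' A0' A1'))

lemma nC_sound {C0 C1 A0 A1 : ℕ} {k : ℕ → ℕ → ℕ → ℕ → Bool} (h : nC C0 C1 A0 A1 k = true) {C Ca : ℕ}
    (hC : C0 ≤ C ∧ C ≤ C1) (hA : A0 ≤ Ca ∧ Ca ≤ A1) (h2 : Ca ≤ C) (h3 : C ≤ 2 * Ca) :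
    ∃ C0' C1' A0' A1' : ℕ, k C0' C1' A0' A1' = true ∧ (C0' ≤ C ∧ C ≤ C1') ∧
      (A0' ≤ Ca ∧ Ca ≤ A1') := by
  unfold nC at h
  simp only [fr_eq] at h
  have a1 : mx' C0 A0 ≤ C := mx'_le hC.1 (hA.1.trans h2)
  have a2 : C ≤ mn' C1 (Nat.mul 2 A1) := le_mn' hC.2 (by show C ≤ 2 * A1; omega)
  have a3 : mx' A0 (Nat.div (Nat.succ (mx' C0 A0)) 2) ≤ Ca := mx'_le hA.1 (by
    show (mx' C0 A0 + 1) / 2 ≤ Ca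
    omega)
  have a4 : Ca ≤ mn' A1 (mn' C1 (Nat.mul 2 A1)) := le_mn' hA.2 (h2.trans a2)
  have h6 := em_lt h (a1.trans a2)
  have h7 := em_lt h6 (a3.trans a4)
  exact ⟨_, _, _, _, h7, ⟨a1, a2⟩, a3, a4⟩

/-- `pm ≤ P`, `pm = 0 → P = 0` -/
noncomputable def nP (P0 P1 m0 m1 : ℕ) (k : ℕ → ℕ → ℕ → ℕ → Bool) : Bool :=
  fr (mn' m1 P1) fun m1' => fr (Nat.rec (motive := fun _ => ℕ) 0 (fun _ _ => P1) m1') fun P1' =>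
  fr (mx' P0 m0) fun P0' => fr (mx' m0 (mn' 1 P0')) fun m0' =>
  em (Nat.ble (Nat.succ P1') P0') (em (Nat.ble (Nat.succ m1') m0') (k P0' P1' m0' m1'))

lemma nP_sound {P0 P1 m0 m1 : ℕ} {k : ℕ → ℕ → ℕ → ℕ → Bool} (h : nP P0 P1 m0 m1 k = true) {P m : ℕ}
    (hP : P0 ≤ P ∧ P ≤ P1) (hm : m0 ≤ m ∧ m ≤ m1) (h2 : m ≤ P) (h3 : m = 0 → P = 0) :
    ∃ P0' P1' m0' m1' : ℕ, k P0' P1' m0' m1' = true ∧ (P0' ≤ P ∧ P ≤ P1') ∧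
      (m0' ≤ m ∧ m ≤ m1') := by
  unfold nP at h
  simp only [fr_eq] at h
  have a1 : m ≤ mn' m1 P1 := le_mn' hm.2 (h2.trans hP.2)
  have a2 : P ≤ Nat.rec (motive := fun _ => ℕ) 0 (fun _ _ => P1) (mn' m1 P1) := by
    rcases hc : mn' m1 P1 with _ | t
    · rw [hc] at a1
      have := h3 (Nat.le_zero.1 a1)
      show P ≤ 0
      omega
    · exact hP.2
  have a3 : mx' P0 m0 ≤ P := mx'_le hP.1 (hm.1.trans h2)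
  have a4 : mx' m0 (mn' 1 (mx' P0 m0)) ≤ m := by
    refine mx'_le hm.1 ?_
    rcases Nat.eq_zero_or_pos m with hz | hz
    · have h4 := h3 hz
      have h5 := (mn'_le 1 (mx' P0 m0)).2
      omega
    · exact (mn'_le _ _).1.trans hz
  have h6 := em_lt h (a3.trans a2)
  have h7 := em_lt h6 (a4.trans a1)
  exact ⟨_, _, _, _, h7, ⟨a3, a2⟩, a4, a1⟩

/-- `M2 ≤ M1`, `M1 + M2 ≤ Q` -/
noncomputable def nM (Q a0 a1 b0 b1 : ℕ) (k : ℕ → ℕ → ℕ → ℕ → Bool) : Bool :=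
  fr (mx' a0 b0) fun a0' => fr (mn' b1 a1) fun b1' => fr (Nat.add a0' b0) fun t =>
  em (Nat.ble (Nat.succ Q) t) (fr (Nat.sub Q t) fun s => fr (mn' a1 (Nat.add a0' s)) fun a1' =>
    fr (mn' b1' (Nat.add b0 s)) fun b1'' =>
    em (Nat.ble (Nat.succ a1') a0') (em (Nat.ble (Nat.succ b1'') b0) (k a0' a1' b0 b1'')))

lemma nM_sound {Q a0 a1 b0 b1 : ℕ} {k : ℕ → ℕ → ℕ → ℕ → Bool} (h : nM Q a0 a1 b0 b1 k = true)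
    {a b : ℕ} (ha : a0 ≤ a ∧ a ≤ a1) (hb : b0 ≤ b ∧ b ≤ b1) (h2 : b ≤ a) (h3 : a + b ≤ Q) :
    ∃ a0' a1' b0' b1' : ℕ, k a0' a1' b0' b1' = true ∧ (a0' ≤ a ∧ a ≤ a1') ∧
      (b0' ≤ b ∧ b ≤ b1') := by
  unfold nM at h
  simp only [fr_eq] at h
  have c1 : mx' a0 b0 ≤ a := mx'_le ha.1 (hb.1.trans h2)
  have c2 : b ≤ mn' b1 a1 := le_mn' hb.2 (h2.trans ha.2)
  obtain ⟨x, hx⟩ : ∃ x : ℕ, x = mx' a0 b0 := ⟨_, rfl⟩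
  obtain ⟨y, hy⟩ : ∃ y : ℕ, y = mn' b1 a1 := ⟨_, rfl⟩
  rw [← hx] at c1 h
  rw [← hy] at c2 h
  have h4 := em_lt h (by show x + b0 ≤ Q; omega)
  have c3 : a ≤ mn' a1 (Nat.add x (Nat.sub Q (Nat.add x b0))) := le_mn' ha.2 (by
    show a ≤ x + (Q - (x + b0))
    omega)
  have c4 : b ≤ mn' y (Nat.add b0 (Nat.sub Q (Nat.add x b0))) := le_mn' c2 (by
    show b ≤ b0 + (Q - (x + b0))
    omega)
  have h5 := em_lt h4 (c1.trans c3)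
  have h6 := em_lt h5 (hb.1.trans c4)
  exact ⟨_, _, _, _, h6, ⟨c1, c3⟩, hb.1, c4⟩

/-- `hn + hx + P + X + K + F + K2 + C ≤ d + c` -/
noncomputable def nG (c d0 d1 n0 n1 x0 x1 P0 P1 X0 X1 K0 K1 F0 F1 S0 S1 C0 C1 : ℕ)
    (k : ℕ → ℕ → ℕ → ℕ → ℕ → ℕ → ℕ → ℕ → ℕ → Bool) : Bool :=
  fr (Nat.add n0 (Nat.add x0 (Nat.add P0 (Nat.add X0 (Nat.add K0 (Nat.add F0 (Nat.add S0 C0)))))))
    fun t => fr (Nat.add d1 c) fun u => em (Nat.ble (Nat.succ u) t)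
  (fr (Nat.sub u t) fun s => fr (mx' d0 (Nat.sub t c)) fun d0' =>
    fr (mn' n1 (Nat.add n0 s)) fun n1' => fr (mn' x1 (Nat.add x0 s)) fun x1' =>
    fr (mn' P1 (Nat.add P0 s)) fun P1' => fr (mn' X1 (Nat.add X0 s)) fun X1' =>
    fr (mn' K1 (Nat.add K0 s)) fun K1' => fr (mn' F1 (Nat.add F0 s)) fun F1' =>
    fr (mn' S1 (Nat.add S0 s)) fun S1' => fr (mn' C1 (Nat.add C0 s)) fun C1' =>
    k d0' n1' x1' P1' X1' K1' F1' S1' C1')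

lemma nG_sound {c d0 d1 n0 n1 x0 x1 P0 P1 X0 X1 K0 K1 F0 F1 S0 S1 C0 C1 : ℕ}
    {k : ℕ → ℕ → ℕ → ℕ → ℕ → ℕ → ℕ → ℕ → ℕ → Bool}
    (h : nG c d0 d1 n0 n1 x0 x1 P0 P1 X0 X1 K0 K1 F0 F1 S0 S1 C0 C1 k = true)
    {d n x P X K F S C : ℕ}
    (hd : d0 ≤ d ∧ d ≤ d1) (hn : n0 ≤ n ∧ n ≤ n1) (hx : x0 ≤ x ∧ x ≤ x1) (hP : P0 ≤ P ∧ P ≤ P1)
    (hX : X0 ≤ X ∧ X ≤ X1) (hK : K0 ≤ K ∧ K ≤ K1) (hF : F0 ≤ F ∧ F ≤ F1) (hS : S0 ≤ S ∧ S ≤ S1)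
    (hC : C0 ≤ C ∧ C ≤ C1) (hf : n + x + P + X + K + F + S + C ≤ d + c) :
    ∃ d0' n1' x1' P1' X1' K1' F1' S1' C1' : ℕ, k d0' n1' x1' P1' X1' K1' F1' S1' C1' = true ∧
      d0' ≤ d ∧ n ≤ n1' ∧ x ≤ x1' ∧ P ≤ P1' ∧ X ≤ X1' ∧ K ≤ K1' ∧ F ≤ F1' ∧ S ≤ S1' ∧ C ≤ C1' := by
  unfold nG at h
  simp only [fr_eq] at h
  obtain ⟨t, ht⟩ : ∃ t : ℕ, t = n0 + (x0 + (P0 + (X0 + (K0 + (F0 + (S0 + C0)))))) := ⟨_, rfl⟩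
  have ht2 : Nat.add n0 (Nat.add x0 (Nat.add P0 (Nat.add X0 (Nat.add K0 (Nat.add F0
    (Nat.add S0 C0)))))) = t := ht.symm
  rw [ht2] at h
  have h1 := em_lt h (by show t ≤ d1 + c; omega)
  refine ⟨_, _, _, _, _, _, _, _, _, h1, mx'_le hd.1 ?_, le_mn' hn.2 ?_, le_mn' hx.2 ?_,
    le_mn' hP.2 ?_, le_mn' hX.2 ?_, le_mn' hK.2 ?_, le_mn' hF.2 ?_, le_mn' hS.2 ?_, le_mn' hC.2 ?_⟩
  · show t - c ≤ d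
    omega
  · show n ≤ n0 + (d1 + c - t)
    omega
  · show x ≤ x0 + (d1 + c - t)
    omega
  · show P ≤ P0 + (d1 + c - t)
    omega
  · show X ≤ X0 + (d1 + c - t)
    omega
  · show K ≤ K0 + (d1 + c - t)
    omega
  · show F ≤ F0 + (d1 + c - t)
    omega
  · show S ≤ S0 + (d1 + c - t)
    omega
  · show C ≤ C0 + (d1 + c - t)
    omega

/-- the passes (`n` of them), then the lists -/
noncomputable def pass (A c Q : ℕ) (rl rh : List ℕ) (k : List ℕ → List ℕ → Bool)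
    (n : ℕ) : ℕ → ℕ → ℕ → ℕ → ℕ → ℕ → ℕ → ℕ → ℕ → ℕ → ℕ → ℕ → ℕ → ℕ → ℕ → ℕ → ℕ → ℕ → ℕ → ℕ →
      ℕ → ℕ → ℕ → ℕ → ℕ → ℕ → Bool :=
  Nat.rec (motive := fun _ => ℕ → ℕ → ℕ → ℕ → ℕ → ℕ → ℕ → ℕ → ℕ → ℕ → ℕ → ℕ → ℕ → ℕ → ℕ → ℕ → ℕ →
      ℕ → ℕ → ℕ → ℕ → ℕ → ℕ → ℕ → ℕ → ℕ → Bool)
    (fun d0 d1 n0 n1 x0 x1 P0 P1 X0 X1 K0 K1 F0 F1 S0 S1 C0 C1 A0 A1 m0 m1 a0 a1 b0 b1 =>
      k (d0 :: n0 :: x0 :: P0 :: X0 :: K0 :: F0 :: S0 :: C0 :: A0 :: m0 :: a0 :: b0 :: rl)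
        (d1 :: n1 :: x1 :: P1 :: X1 :: K1 :: F1 :: S1 :: C1 :: A1 :: m1 :: a1 :: b1 :: rh))
    (fun _ ih d0 d1 n0 n1 x0 x1 P0 P1 X0 X1 K0 K1 F0 F1 S0 S1 C0 C1 A0 A1 m0 m1 a0 a1 b0 b1 =>
      nA A d0 d1 n0 n1 fun d1 n1 => nP P0 P1 m0 m1 fun P0 P1 m0 m1 =>
      nC C0 C1 A0 A1 fun C0 C1 A0 A1 =>
      nG c d0 d1 n0 n1 x0 x1 P0 P1 X0 X1 K0 K1 F0 F1 S0 S1 C0 C1 fun d0 n1 x1 P1 X1 K1 F1 S1 C1 =>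
      nM Q a0 a1 b0 b1 fun a0 a1 b0 b1 =>
      ih d0 d1 n0 n1 x0 x1 P0 P1 X0 X1 K0 K1 F0 F1 S0 S1 C0 C1 A0 A1 m0 m1 a0 a1 b0 b1) n

lemma pass_sound {R A : ℕ} {rl rh : List ℕ} {k : List ℕ → List ℕ → Bool}
    {σ : ℕ → ℕ} (H : StFa R A σ) : ∀ {n d0 d1 n0 n1 x0 x1 P0 P1 X0 X1 K0 K1 F0 F1 S0 S1 C0 C1 A0 A1
      m0 m1 a0 a1 b0 b1 : ℕ},
    pass A (1 + (R - A)) (R - A - 2) rl rh k n d0 d1 n0 n1 x0 x1 P0 P1 X0 X1 K0 K1 F0 F1 S0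
      S1 C0 C1 A0 A1 m0 m1 a0 a1 b0 b1 = true → (d0 ≤ σ 0 ∧ σ 0 ≤ d1) → (n0 ≤ σ 1 ∧ σ 1 ≤ n1) →
      (x0 ≤ σ 2 ∧ σ 2 ≤ x1) → (P0 ≤ σ 3 ∧ σ 3 ≤ P1) → (X0 ≤ σ 4 ∧ σ 4 ≤ X1) →
      (K0 ≤ σ 5 ∧ σ 5 ≤ K1) → (F0 ≤ σ 6 ∧ σ 6 ≤ F1) → (S0 ≤ σ 7 ∧ σ 7 ≤ S1) →
      (C0 ≤ σ 8 ∧ σ 8 ≤ C1) → (A0 ≤ σ 9 ∧ σ 9 ≤ A1) →
      (m0 ≤ σ 10 ∧ σ 10 ≤ m1) → (a0 ≤ σ 11 ∧ σ 11 ≤ a1) → (b0 ≤ σ 12 ∧ σ 12 ≤ b1) →
      ∃ d0 d1 n0 n1 x0 x1 P0 P1 X0 X1 K0 K1 F0 F1 S0 S1 C0 C1 A0 A1 m0 m1 a0 a1 b0 b1 : ℕ,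
      k (d0 :: n0 :: x0 :: P0 :: X0 :: K0 :: F0 :: S0 :: C0 :: A0 :: m0 :: a0 :: b0 :: rl)
        (d1 :: n1 :: x1 :: P1 :: X1 :: K1 :: F1 :: S1 :: C1 :: A1 :: m1 :: a1 :: b1 :: rh) = true ∧
      (d0 ≤ σ 0 ∧ σ 0 ≤ d1) ∧ (n0 ≤ σ 1 ∧ σ 1 ≤ n1) ∧ (x0 ≤ σ 2 ∧ σ 2 ≤ x1) ∧
      (P0 ≤ σ 3 ∧ σ 3 ≤ P1) ∧ (X0 ≤ σ 4 ∧ σ 4 ≤ X1) ∧ (K0 ≤ σ 5 ∧ σ 5 ≤ K1) ∧
      (F0 ≤ σ 6 ∧ σ 6 ≤ F1) ∧ (S0 ≤ σ 7 ∧ σ 7 ≤ S1) ∧ (C0 ≤ σ 8 ∧ σ 8 ≤ C1) ∧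
      (A0 ≤ σ 9 ∧ σ 9 ≤ A1) ∧ (m0 ≤ σ 10 ∧ σ 10 ≤ m1) ∧
      (a0 ≤ σ 11 ∧ σ 11 ≤ a1) ∧ (b0 ≤ σ 12 ∧ σ 12 ≤ b1) := by
  intro n
  induction n with
  | zero =>
    intro d0 d1 n0 n1 x0 x1 P0 P1 X0 X1 K0 K1 F0 F1 S0 S1 C0 C1 A0 A1 m0 m1 a0 a1 b0 b1 h q0 q1 q2 q3
      q4 q5 q6 q7 qC qA q8 q9 q10
    exact ⟨d0, d1, n0, n1, x0, x1, P0, P1, X0, X1, K0, K1, F0, F1, S0, S1, C0, C1, A0, A1, m0, m1, a0,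
      a1, b0, b1, h, q0, q1, q2, q3, q4, q5, q6, q7, qC, qA, q8, q9, q10⟩
  | succ n ih =>
    intro d0 d1 n0 n1 x0 x1 P0 P1 X0 X1 K0 K1 F0 F1 S0 S1 C0 C1 A0 A1 m0 m1 a0 a1 b0 b1 h q0 q1 q2 q3
      q4 q5 q6 q7 qC qA q8 q9 q10
    obtain ⟨d1', n1', h1, c1, c2⟩ := nA_sound h q0 q1 H.f1
    obtain ⟨P0', P1', m0', m1', h2, c4, c5⟩ := nP_sound h1 q3 q8 H.f2 H.f3
    obtain ⟨C0', C1', A0', A1', hC, cC, cA⟩ := nC_sound h2 qC qA H.f7 H.f8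
    obtain ⟨d0', n1', x1', P1', X1', K1', F1', S1', C1', h3, c6, c7, c8, c9, c10, c11, c12, c13,
      c13'⟩ :=
      nG_sound hC ⟨q0.1, c1⟩ ⟨q1.1, c2⟩ q2 c4 q4 q5 q6 q7 cC (by
        have := H.f6
        omega)
    obtain ⟨a0', a1', b0', b1', h4, c14, c15⟩ := nM_sound h3 q9 q10 H.f5 (by
      have := H.f4
      omega)
    exact ih h4 ⟨c6, c1⟩ ⟨q1.1, c7⟩ ⟨q2.1, c8⟩ ⟨c4.1, c9⟩ ⟨q4.1, c10⟩ ⟨q5.1, c11⟩ ⟨q6.1, c12⟩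
      ⟨q7.1, c13⟩ ⟨cC.1, c13'⟩ cA c5 c14 c15

/-- **the normalised box** (`n` passes) -/
noncomputable def norm (n R A : ℕ) (lo hi : List ℕ) (k : List ℕ → List ℕ → Bool) : Bool :=
  un lo fun d0 a => un a fun n0 a => un a fun x0 a => un a fun P0 a =>
  un a fun X0 a => un a fun K0 a => un a fun F0 a => un a fun S0 a =>
  un a fun C0 a => un a fun A0 a => un a fun m0 a => un a fun a0 a => un a fun b0 rl =>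
  un hi fun d1 a => un a fun n1 a => un a fun x1 a => un a fun P1 a =>
  un a fun X1 a => un a fun K1 a => un a fun F1 a => un a fun S1 a =>
  un a fun C1 a => un a fun A1 a => un a fun m1 a => un a fun a1 a => un a fun b1 rh =>
  pass A (Nat.add 1 (Nat.sub R A)) (Nat.sub (Nat.sub R A) 2) rl rh k n
    d0 d1 n0 n1 x0 x1 P0 P1 X0 X1 K0 K1 F0 F1 S0 S1 C0 C1 A0 A1 m0 m1 a0 a1 b0 b1

lemma Lo_cons {σ : ℕ → ℕ} {l : List ℕ} {a : ℕ} (n : ℕ) :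
    (∀ i, i < (a :: l).length → (a :: l).getD i 0 ≤ σ (n + i)) ↔
      a ≤ σ n ∧ ∀ i, i < l.length → l.getD i 0 ≤ σ (n + 1 + i) := by
  constructor
  · intro h
    refine ⟨h 0 (by simp), fun i hi => ?_⟩
    have := h (i + 1) (by simp; omega)
    rw [show n + 1 + i = n + (i + 1) by ring]
    simpa using this
  · rintro ⟨h1, h2⟩ i hi
    cases i with
    | zero => simpa using h1
    | succ i =>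
      have := h2 i (by simp at hi; omega)
      rw [show n + 1 + i = n + (i + 1) by ring] at this
      simpa using this

lemma Hi_cons {σ : ℕ → ℕ} {l : List ℕ} {a : ℕ} (n : ℕ) :
    (∀ i, i < (a :: l).length → σ (n + i) ≤ (a :: l).getD i 0) ↔
      σ n ≤ a ∧ ∀ i, i < l.length → σ (n + 1 + i) ≤ l.getD i 0 := by
  constructor
  · intro h
    refine ⟨h 0 (by simp), fun i hi => ?_⟩
    have := h (i + 1) (by simp; omega)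
    rw [show n + 1 + i = n + (i + 1) by ring]
    simpa using this
  · rintro ⟨h1, h2⟩ i hi
    cases i with
    | zero => simpa using h1
    | succ i =>
      have := h2 i (by simp at hi; omega)
      rw [show n + 1 + i = n + (i + 1) by ring] at this
      simpa using this

theorem norm_sound {n R A : ℕ} {lo hi : List ℕ} {k : List ℕ → List ℕ → Bool}
    (h : norm n R A lo hi k = true) {σ : ℕ → ℕ} (H : StFa R A σ) (hl : KdT.Lo σ lo)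
    (hh : KdT.Hi σ hi) : ∃ lo' hi', k lo' hi' = true ∧ KdT.Lo σ lo' ∧ KdT.Hi σ hi' := by
  unfold norm at h
  obtain ⟨d0, l1, rfl, g1⟩ := un_eq h
  obtain ⟨n0, l2, rfl, g2⟩ := un_eq g1
  obtain ⟨x0, l3, rfl, g3⟩ := un_eq g2
  obtain ⟨P0, l4, rfl, g4⟩ := un_eq g3
  obtain ⟨X0, l5, rfl, g5⟩ := un_eq g4
  obtain ⟨K0, l6, rfl, g6⟩ := un_eq g5
  obtain ⟨F0, l7, rfl, g7⟩ := un_eq g6
  obtain ⟨S0, l8, rfl, g8⟩ := un_eq g7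
  obtain ⟨C0, l9, rfl, g9⟩ := un_eq g8
  obtain ⟨A0, l10, rfl, g10⟩ := un_eq g9
  obtain ⟨m0, l11, rfl, g11⟩ := un_eq g10
  obtain ⟨a0, l12, rfl, g12⟩ := un_eq g11
  obtain ⟨b0, rl, rfl, g13⟩ := un_eq g12
  obtain ⟨d1, u1, rfl, f1⟩ := un_eq g13
  obtain ⟨n1, u2, rfl, f2⟩ := un_eq f1
  obtain ⟨x1, u3, rfl, f3⟩ := un_eq f2
  obtain ⟨P1, u4, rfl, f4⟩ := un_eq f3
  obtain ⟨X1, u5, rfl, f5⟩ := un_eq f4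
  obtain ⟨K1, u6, rfl, f6⟩ := un_eq f5
  obtain ⟨F1, u7, rfl, f7⟩ := un_eq f6
  obtain ⟨S1, u8, rfl, f8⟩ := un_eq f7
  obtain ⟨C1, u9, rfl, f9⟩ := un_eq f8
  obtain ⟨A1, u10, rfl, f10⟩ := un_eq f9
  obtain ⟨m1, u11, rfl, f11⟩ := un_eq f10
  obtain ⟨a1, u12, rfl, f12⟩ := un_eq f11
  obtain ⟨b1, rh, rfl, f13⟩ := un_eq f12
  have hl0 : ∀ i, i < (d0 :: n0 :: x0 :: P0 :: X0 :: K0 :: F0 :: S0 :: C0 :: A0 :: m0 :: a0 :: b0 ::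
      rl).length → (d0 :: n0 :: x0 :: P0 :: X0 :: K0 :: F0 :: S0 :: C0 :: A0 :: m0 :: a0 :: b0 ::
      rl).getD i 0 ≤ σ (0 + i) := fun i hi => by rw [Nat.zero_add]; exact hl i hi
  have hh0 : ∀ i, i < (d1 :: n1 :: x1 :: P1 :: X1 :: K1 :: F1 :: S1 :: C1 :: A1 :: m1 :: a1 :: b1 ::
      rh).length → σ (0 + i) ≤ (d1 :: n1 :: x1 :: P1 :: X1 :: K1 :: F1 :: S1 :: C1 :: A1 :: m1 :: a1
      :: b1 :: rh).getD i 0 := fun i hi => by rw [Nat.zero_add]; exact hh i hi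
  simp only [Lo_cons, Nat.reduceAdd] at hl0
  simp only [Hi_cons, Nat.reduceAdd] at hh0
  obtain ⟨p0, p1, p2, p3, p4, p5, p6, p7, p8, p9, p10, p11, p12, p13⟩ := hl0
  obtain ⟨r0, r1, r2, r3, r4, r5, r6, r7, r8, r9, r10, r11, r12, r13⟩ := hh0
  obtain ⟨e0, e1, e2, e3, e4, e5, e6, e7, e8, e9, e10, e11, e12, e13, e14, e15, C0', C1', A0', A1', e16,
    e17, e18, e19, e20, e21, h0, t0, t1, t2, t3, t4, t5, t6, t7, tC, tA, t8, t9, t10⟩ :=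
    pass_sound H f13 ⟨p0, r0⟩ ⟨p1, r1⟩ ⟨p2, r2⟩ ⟨p3, r3⟩ ⟨p4, r4⟩ ⟨p5, r5⟩ ⟨p6, r6⟩ ⟨p7, r7⟩
    ⟨p8, r8⟩ ⟨p9, r9⟩ ⟨p10, r10⟩ ⟨p11, r11⟩ ⟨p12, r12⟩
  refine ⟨_, _, h0, ?_, ?_⟩
  · have : ∀ i, i < (e0 :: e2 :: e4 :: e6 :: e8 :: e10 :: e12 :: e14 :: C0' :: A0' :: e16 :: e18 :: e20
        :: rl).length → (e0 :: e2 :: e4 :: e6 :: e8 :: e10 :: e12 :: e14 :: C0' :: A0' :: e16 :: e18 ::
        e20 :: rl).getD i 0 ≤ σ (0 + i) := by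
      simp only [Lo_cons, Nat.reduceAdd]
      exact ⟨t0.1, t1.1, t2.1, t3.1, t4.1, t5.1, t6.1, t7.1, tC.1, tA.1, t8.1, t9.1, t10.1, p13⟩
    intro i hi
    have h7 := this i hi
    rwa [Nat.zero_add] at h7
  · have : ∀ i, i < (e1 :: e3 :: e5 :: e7 :: e9 :: e11 :: e13 :: e15 :: C1' :: A1' :: e17 :: e19 :: e21
        :: rh).length → σ (0 + i) ≤ (e1 :: e3 :: e5 :: e7 :: e9 :: e11 :: e13 :: e15 :: C1' :: A1' ::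
        e17 :: e19 :: e21 :: rh).getD i 0 := by
      simp only [Hi_cons, Nat.reduceAdd]
      exact ⟨t0.2, t1.2, t2.2, t3.2, t4.2, t5.2, t6.2, t7.2, tC.2, tA.2, t8.2, t9.2, t10.2, r13⟩
    intro i hi
    have h7 := this i hi
    rwa [Nat.zero_add] at h7

section test

/-- a small test -/
example : norm 3 24 9 [0, 0, 0, 0, 0, 0, 0, 0, 0, 0, 0, 1, 1] [9, 9, 0, 24, 24, 24, 24, 24, 0, 0, 24, 24, 24]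
    (fun _ hi => Nat.ble (hi.getD 11 0) 12) = true := by
  decide +kernel

end test

end MN

end Pool.Agent.Lib.MP_f04ccf_co
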