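import Pool.Agent.Lib.MP_f04ccf_co.M.MidX

/-!
MP_f04ccf_co, TEXT D, middle range: **the row test and tzN with only the units of one cell used**, as filters of the
content of this cell (note 19133 (1)): `CelO`, `RowV.celO`.
-/

set_option autoImplicit false

namespace Pool.Agent.Lib.MP_f04ccf_co

open Finset

attribute [local instance] Classical.propDecidable

/-- tzN, right side minus left side: `e` used and kept units, misses `b` -/
def tzDv (R A G e b : ℤ) : ℤ := A * e + b - (R - 2 * e) * (e - G)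

/-- the saving of the units of one cell -/
def svO (q k1 : ℤ) : ℤ := (q + k1) * (q + k1 - 1) + k1 * (k1 - 1)

/-- **the tests with only this cell used**: misses `kb` of the halves, `cb` of the cliques -/
structure CelO (R A : ℕ) (β : BoxM) (c : Cnt) (kb cb : ℕ) : Prop where
  tHK : ∃ d h P : ℤ, End β.d0 β.d1 d ∧ End β.h0 β.h1 h ∧ End β.P0 β.P1 P ∧
    0 ≤ TesD R A d (h + P) ((c.q : ℤ) + (c.k0 + c.k2 + c.c)) ((c.q : ℤ) + (c.k0 + c.k2 + c.ca))
      ((kb : ℤ) + cb) (svO c.q ((c.k0 : ℤ) + c.k2) + β.n0 * ((β.n0 : ℤ) - 1)) (P * (β.p1 + 1))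
  tHO : ∃ d h : ℤ, End β.d0 β.d1 d ∧ End β.h0 β.h1 h ∧
    0 ≤ TesD R A d h ((c.q : ℤ) + (c.k0 + c.k2 + c.c)) ((c.q : ℤ) + (c.k0 + c.k2 + c.ca))
      ((kb : ℤ) + cb) (svO c.q ((c.k0 : ℤ) + c.k2) + β.n0 * ((β.n0 : ℤ) - 1))
      (2 * (β.p1 * (A - d + h)))
  tDK : ∃ D P : ℤ, End ((β.d0 : ℤ) + β.n0) (min ((β.d1 : ℤ) + β.n1) A) D ∧ End β.P0 β.P1 P ∧
    0 ≤ TesD R A D P ((c.q : ℤ) + (c.k0 + c.k2 + c.c)) ((c.q : ℤ) + (c.k0 + c.k2 + c.ca))
      ((kb : ℤ) + cb) (svO c.q ((c.k0 : ℤ) + c.k2)) (P * (β.p1 + 1))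
  tDO : ∃ D : ℤ, End ((β.d0 : ℤ) + β.n0) (min ((β.d1 : ℤ) + β.n1) A) D ∧
    0 ≤ TesD R A D 0 ((c.q : ℤ) + (c.k0 + c.k2 + c.c)) ((c.q : ℤ) + (c.k0 + c.k2 + c.ca))
      ((kb : ℤ) + cb) (svO c.q ((c.k0 : ℤ) + c.k2)) (2 * (β.p1 * (A - D)))
  nH : ∀ j : ℕ, j ≤ β.X0 → 2 * (β.h1 + β.P1 + j + (c.q + (c.k0 + c.k2 + c.c))) ≤ R →
    ∃ d h P : ℤ, End β.d0 β.d1 d ∧ End β.h0 β.h1 h ∧ End β.P0 β.P1 P ∧
      0 ≤ tzDv R A d (h + P + j + ((c.q : ℤ) + (c.k0 + c.k2 + c.c))) ((kb : ℤ) + cb)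
  nD : ∀ j : ℕ, j ≤ β.X0 → 2 * (β.P1 + j + (c.q + (c.k0 + c.k2 + c.c))) ≤ R →
    ∃ D P : ℤ, End ((β.d0 : ℤ) + β.n0) (min ((β.d1 : ℤ) + β.n1) A) D ∧ End β.P0 β.P1 P ∧
      0 ≤ tzDv R A D (P + j + ((c.q : ℤ) + (c.k0 + c.k2 + c.c))) ((kb : ℤ) + cb)

section MidO

variable {R : ℕ} {P : Finset ℕ} {A d hn h : ℕ}
  {B p x q mf mh mhb mha mc mcb mcn mcv kf kh khb kha kc kca kcb kcr sg en nn : ℕ → ℕ}

/-- a test with a large gain and a small block price is weaker -/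
lemma TesC.toD {R A G m k ka b b1 sv sv1 N N1 : ℤ} (h : TesC R A G m k ka b sv N) (hb : b ≤ b1)
    (hs : sv1 ≤ sv) (hN : N ≤ N1) : 0 ≤ TesD R A G m k ka b1 sv1 N1 := by
  unfold TesC at h
  unfold TesD
  linarith

lemma TesD_cvx (R A k ka b sv : ℤ) (a0 a1 : ℤ) :
    (∀ m N, Cvx fun G => TesD R A G m k ka b sv (N + a0 * G)) ∧
    (∀ G c, Cvx fun m => TesD R A G (m + c) k ka b sv (a1 * m + a0)) := by
  refine ⟨fun m N => ⟨0, TesD R A 1 m k ka b sv (N + a0) - TesD R A 0 m k ka b sv N,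
    TesD R A 0 m k ka b sv N, le_rfl, fun x => ?_⟩, fun G c => ⟨1,
    TesD R A G (1 + c) k ka b sv (a1 + a0) - TesD R A G c k ka b sv a0 - 1,
    TesD R A G c k ka b sv a0, by norm_num, fun x => ?_⟩⟩
  · unfold TesD
    ring
  · unfold TesD
    ring

lemma tzDv_cvx (R A b : ℤ) :
    (∀ e, Cvx fun G => tzDv R A G e b) ∧ (∀ G c, Cvx fun e => tzDv R A G (e + c) b) := by
  refine ⟨fun e => ⟨0, tzDv R A 1 e b - tzDv R A 0 e b, tzDv R A 0 e b, le_rfl, fun x => ?_⟩,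
    fun G c => ⟨2, tzDv R A G (1 + c) b - tzDv R A G c b - 2, tzDv R A G c b, by norm_num,
      fun x => ?_⟩⟩
  · unfold tzDv
    ring
  · unfold tzDv
    ring

/-- **THE TESTS WITH ONLY THIS CELL USED** -/
theorem RowV.celO (V : RowV R P A d hn h B p x q mf mh mhb mha mc mcb mcn mcv kf kh khb kha kc kca
    kcb kcr sg en nn) {y : ℕ} (hy : y ∈ P) {β : BoxM} (hβ : β.In P d hn h p x q kf kh kc kca)
    {m1 m2 md : ℕ} :
    CelO R A β ⟨B y, p y, x y, q y, m1, m2, mc y, md, kf y, kh y, kc y, kca y⟩ (khb y) (kcb y) := by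
  have sgl : ∀ f : ℕ → ℤ, ∑ l ∈ P, (if l = y then f l else 0) = f y := fun f => by
    rw [sum_ite_eq' P y f, if_pos hy]
  obtain ⟨b', hb, hT, hD, hN, hM, -⟩ := V.row (fun l => if l = y then q l else 0)
    (fun l => if l = y then kf l else 0) (fun l => if l = y then kh l else 0)
    (fun l => if l = y then 1 else 0) fun l _ => by
      by_cases hl : l = y
      · simp [hl]
      · simp [hl]
  -- the sums
  have e1 : ∑ l ∈ P, (((if l = y then q l else 0 : ℕ) : ℤ) + (((if l = y then kf l else 0 : ℕ) : ℤ)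
      + ((if l = y then kh l else 0 : ℕ) : ℤ) + ((if l = y then 1 else 0 : ℕ) : ℤ) * kc l))
      = (q y : ℤ) + (kf y + kh y + kc y) := by
    rw [← sgl fun l => (q l : ℤ) + (kf l + kh l + kc l)]
    refine sum_congr rfl fun l _ => ?_
    by_cases hl : l = y
    · simp [hl]
    · simp [hl]
  have e2 : ∑ l ∈ P, (((if l = y then q l else 0 : ℕ) : ℤ) + (((if l = y then kf l else 0 : ℕ) : ℤ)
      + ((if l = y then kh l else 0 : ℕ) : ℤ) + ((if l = y then 1 else 0 : ℕ) : ℤ) * kca l))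
      = (q y : ℤ) + (kf y + kh y + kca y) := by
    rw [← sgl fun l => (q l : ℤ) + (kf l + kh l + kca l)]
    refine sum_congr rfl fun l _ => ?_
    by_cases hl : l = y
    · simp [hl]
    · simp [hl]
  have e3 : ∑ l ∈ P, (b' l + ((if l = y then 1 else 0 : ℕ) : ℤ) * kcb l)
      ≤ (khb y : ℤ) + kcb y := by
    rw [← sgl fun l => (khb l : ℤ) + kcb l]
    refine sum_le_sum fun l hl => ?_
    obtain ⟨c1, c2, c3⟩ := hb l hl
    by_cases hly : l = y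
    · simp only [hly, if_true]
      rw [hly] at c2
      push_cast
      linarith
    · simp only [hly, if_false]
      simp only [hly, if_false, Nat.cast_zero, zero_mul] at c3
      push_cast
      rw [zero_mul, add_zero]
      by_cases h0 : kh l = 0
      · obtain ⟨h1, -⟩ := V.kh0 hl h0
        rw [h1] at c2
        exact_mod_cast c2
      · have h1 : (0 : ℤ) < kh l := by exact_mod_cast Nat.pos_of_ne_zero h0
        by_contra h2
        push Not at h2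
        have := mul_pos h1 h2
        linarith
  have e4 : ∑ l ∈ P, ((((if l = y then q l else 0 : ℕ) : ℤ) + (((if l = y then kf l else 0 : ℕ) : ℤ)
        + ((if l = y then kh l else 0 : ℕ) : ℤ))) * (((if l = y then q l else 0 : ℕ) : ℤ)
        + (((if l = y then kf l else 0 : ℕ) : ℤ) + ((if l = y then kh l else 0 : ℕ) : ℤ)) - 1)
        + (((if l = y then kf l else 0 : ℕ) : ℤ) + ((if l = y then kh l else 0 : ℕ) : ℤ))
          * (((if l = y then kf l else 0 : ℕ) : ℤ) + ((if l = y then kh l else 0 : ℕ) : ℤ) - 1))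
      = svO (q y) ((kf y : ℤ) + kh y) := by
    unfold svO
    rw [← sgl fun l => ((q l : ℤ) + (kf l + kh l)) * ((q l : ℤ) + (kf l + kh l) - 1)
      + ((kf l : ℤ) + kh l) * ((kf l : ℤ) + kh l - 1)]
    refine sum_congr rfl fun l _ => ?_
    by_cases hl : l = y
    · simp [hl]
    · simp [hl]
  -- the state
  have hsg : ∑ l ∈ P, (sg l : ℤ) ≤ (A : ℤ) - (d + hn) := by
    have h2 : ((∑ y ∈ P, sg y + hn + d : ℕ) : ℤ) ≤ A := by exact_mod_cast V.sgs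
    push_cast at h2
    linarith
  have hen : ∑ l ∈ P, (en l : ℤ) ≤ (h : ℤ) + hn := by
    have h3 : ((∑ y ∈ P, (en y + mf y) : ℕ) : ℤ) ≤ ((h + hn : ℕ) : ℤ) := by exact_mod_cast V.ens
    push_cast at h3
    refine le_trans (sum_le_sum fun l _ => ?_) h3
    have : (0 : ℤ) ≤ mf l := Nat.cast_nonneg _
    linarith
  have hsg0 : (0 : ℤ) ≤ ∑ l ∈ P, (sg l : ℤ) := sum_nonneg fun _ _ => Nat.cast_nonneg _
  have hen0 : (0 : ℤ) ≤ ∑ l ∈ P, (en l : ℤ) := sum_nonneg fun _ _ => Nat.cast_nonneg _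
  have hp : ∀ l ∈ P, (p l : ℤ) ≤ β.p1 := fun l hl => by exact_mod_cast hβ.pm l hl
  have hp0 : (0 : ℤ) ≤ β.p1 := Nat.cast_nonneg _
  have f1 : ∑ l ∈ P, (p l : ℤ) * (p l + 1) ≤ (∑ l ∈ P, (p l : ℤ)) * (β.p1 + 1) := by
    rw [sum_mul]
    exact sum_le_sum fun l hl => mul_le_mul_of_nonneg_left (by linarith [hp l hl])
      (Nat.cast_nonneg _)
  have f2 : ∑ l ∈ P, (p l : ℤ) * (sg l + en l) ≤ β.p1 * (A - d + h) := by
    have h1 : ∑ l ∈ P, (p l : ℤ) * ((sg l : ℤ) + en l) ≤ ∑ l ∈ P, (β.p1 : ℤ) * ((sg l : ℤ) + en l) :=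
      sum_le_sum fun l hl => mul_le_mul_of_nonneg_right (hp l hl) (by positivity)
    rw [← mul_sum, sum_add_distrib] at h1
    have h2 := mul_le_mul_of_nonneg_left (add_le_add hsg hen) hp0
    linarith
  have f3 : ∑ l ∈ P, (p l : ℤ) * sg l ≤ β.p1 * (A - (d + hn)) := by
    have h1 : ∑ l ∈ P, (p l : ℤ) * (sg l : ℤ) ≤ ∑ l ∈ P, (β.p1 : ℤ) * (sg l : ℤ) :=
      sum_le_sum fun l hl => mul_le_mul_of_nonneg_right (hp l hl) (Nat.cast_nonneg _)
    rw [← mul_sum] at h1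
    have h2 := mul_le_mul_of_nonneg_left hsg hp0
    linarith
  have hgn : (β.n0 : ℤ) * ((β.n0 : ℤ) - 1) ≤ (hn : ℤ) * (hn - 1) := by
    have h1 : (β.n0 : ℤ) ≤ hn := by exact_mod_cast hβ.n.1
    rcases Nat.eq_zero_or_pos β.n0 with h2 | h2
    · rw [h2]
      have h3 : (0 : ℤ) ≤ (hn : ℤ) * (hn - 1) := by
        rcases Nat.eq_zero_or_pos hn with h4 | h4
        · rw [h4]; norm_num
        · have : (1 : ℤ) ≤ hn := by exact_mod_cast h4
          exact mul_nonneg (by linarith) (by linarith)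
      simpa using h3
    · have h3 : (1 : ℤ) ≤ β.n0 := by exact_mod_cast h2
      nlinarith
  have hd0 : (β.d0 : ℤ) ≤ d := by exact_mod_cast hβ.d.1
  have hd1 : (d : ℤ) ≤ β.d1 := by exact_mod_cast hβ.d.2
  have hh0 : (β.h0 : ℤ) ≤ h := by exact_mod_cast hβ.h.1
  have hh1 : (h : ℤ) ≤ β.h1 := by exact_mod_cast hβ.h.2
  have hP0 : (β.P0 : ℤ) ≤ ∑ l ∈ P, (p l : ℤ) := by exact_mod_cast hβ.P.1
  have hP1 : ∑ l ∈ P, (p l : ℤ) ≤ β.P1 := by exact_mod_cast hβ.P.2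
  have hD0 : (β.d0 : ℤ) + β.n0 ≤ (d : ℤ) + hn := by
    have h2 : (β.n0 : ℤ) ≤ hn := by exact_mod_cast hβ.n.1
    linarith
  have hD1 : (d : ℤ) + hn ≤ min ((β.d1 : ℤ) + β.n1) A := le_min (by
    have h2 : (hn : ℤ) ≤ β.n1 := by exact_mod_cast hβ.n.2
    linarith) (by linarith)
  have ePx : ∑ l ∈ P, ((p l : ℤ) + x l) = ∑ l ∈ P, (p l : ℤ) + ∑ l ∈ P, (x l : ℤ) :=
    sum_add_distrib
  constructor
  · -- tHK
    have h1 := hT P (Subset.refl _) ∅ (empty_subset _)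
    rw [e1, e2, e4] at h1
    simp only [Finset.sdiff_self, sum_empty, sdiff_empty, add_zero] at h1
    have h2 : 0 ≤ TesD R A d ((h : ℤ) + ∑ l ∈ P, (p l : ℤ)) ((q y : ℤ) + (kf y + kh y + kc y))
        ((q y : ℤ) + (kf y + kh y + kca y)) ((khb y : ℤ) + kcb y)
        (svO (q y) ((kf y : ℤ) + kh y) + β.n0 * ((β.n0 : ℤ) - 1))
        ((∑ l ∈ P, (p l : ℤ)) * (β.p1 + 1)) := by
      refine h1.toD e3 (by linarith) ?_
      unfold blkE
      rw [sdiff_empty, sum_empty, mul_zero, add_zero]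
      exact f1
    obtain ⟨c1, -⟩ := TesD_cvx R A ((q y : ℤ) + (kf y + kh y + kc y))
      ((q y : ℤ) + (kf y + kh y + kca y)) ((khb y : ℤ) + kcb y)
      (svO (q y) ((kf y : ℤ) + kh y) + β.n0 * ((β.n0 : ℤ) - 1)) 0 0
    have c2 := c1 ((h : ℤ) + ∑ l ∈ P, (p l : ℤ)) ((∑ l ∈ P, (p l : ℤ)) * (β.p1 + 1))
    simp only [zero_mul, add_zero] at c2
    obtain ⟨d', k1, k2⟩ := c2.pick hd0 hd1 h2
    obtain ⟨-, c3⟩ := TesD_cvx R A ((q y : ℤ) + (kf y + kh y + kc y))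
      ((q y : ℤ) + (kf y + kh y + kca y)) ((khb y : ℤ) + kcb y)
      (svO (q y) ((kf y : ℤ) + kh y) + β.n0 * ((β.n0 : ℤ) - 1))
      ((∑ l ∈ P, (p l : ℤ)) * (β.p1 + 1)) 0
    have c4 := c3 d' (∑ l ∈ P, (p l : ℤ))
    simp only [zero_mul, zero_add] at c4
    obtain ⟨h', k3, k4⟩ := c4.pick hh0 hh1 k2
    obtain ⟨-, c5⟩ := TesD_cvx R A ((q y : ℤ) + (kf y + kh y + kc y))
      ((q y : ℤ) + (kf y + kh y + kca y)) ((khb y : ℤ) + kcb y)
      (svO (q y) ((kf y : ℤ) + kh y) + β.n0 * ((β.n0 : ℤ) - 1)) 0 (β.p1 + 1)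
    have c6 := (c5 d' h').congr (g := fun P : ℤ => TesD R A d' (h' + P)
      ((q y : ℤ) + (kf y + kh y + kc y)) ((q y : ℤ) + (kf y + kh y + kca y)) ((khb y : ℤ) + kcb y)
      (svO (q y) ((kf y : ℤ) + kh y) + β.n0 * ((β.n0 : ℤ) - 1)) (P * (β.p1 + 1)))
      fun P => by rw [add_zero, add_comm P h', mul_comm P]
    obtain ⟨P', k5, k6⟩ := c6.pick hP0 hP1 k4
    exact ⟨d', h', P', k1, k3, k5, k6⟩
  · -- tHO
    have h1 := hT P (Subset.refl _) P (Subset.refl _)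
    rw [e1, e2, e4] at h1
    simp only [Finset.sdiff_self, sum_empty, add_zero] at h1
    have h2 : 0 ≤ TesD R A d h ((q y : ℤ) + (kf y + kh y + kc y))
        ((q y : ℤ) + (kf y + kh y + kca y)) ((khb y : ℤ) + kcb y)
        (svO (q y) ((kf y : ℤ) + kh y) + β.n0 * ((β.n0 : ℤ) - 1)) (2 * (β.p1 * (A - d + h))) := by
      refine h1.toD e3 (by linarith) ?_
      unfold blkE
      rw [Finset.sdiff_self, sum_empty, zero_add]
      linarith
    obtain ⟨c1, -⟩ := TesD_cvx R A ((q y : ℤ) + (kf y + kh y + kc y))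
      ((q y : ℤ) + (kf y + kh y + kca y)) ((khb y : ℤ) + kcb y)
      (svO (q y) ((kf y : ℤ) + kh y) + β.n0 * ((β.n0 : ℤ) - 1)) (-(2 * β.p1)) 0
    have c2 := (c1 h (2 * (β.p1 * (A + h)))).congr (g := fun d : ℤ => TesD R A d h
      ((q y : ℤ) + (kf y + kh y + kc y)) ((q y : ℤ) + (kf y + kh y + kca y)) ((khb y : ℤ) + kcb y)
      (svO (q y) ((kf y : ℤ) + kh y) + β.n0 * ((β.n0 : ℤ) - 1)) (2 * (β.p1 * (A - d + h))))
      fun d => by congr 1; ring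
    obtain ⟨d', k1, k2⟩ := c2.pick hd0 hd1 h2
    obtain ⟨-, c3⟩ := TesD_cvx R A ((q y : ℤ) + (kf y + kh y + kc y))
      ((q y : ℤ) + (kf y + kh y + kca y)) ((khb y : ℤ) + kcb y)
      (svO (q y) ((kf y : ℤ) + kh y) + β.n0 * ((β.n0 : ℤ) - 1)) (2 * (β.p1 * (A - d'))) (2 * β.p1)
    have c4 := (c3 d' 0).congr (g := fun h : ℤ => TesD R A d' h
      ((q y : ℤ) + (kf y + kh y + kc y)) ((q y : ℤ) + (kf y + kh y + kca y)) ((khb y : ℤ) + kcb y)
      (svO (q y) ((kf y : ℤ) + kh y) + β.n0 * ((β.n0 : ℤ) - 1)) (2 * (β.p1 * (A - d' + h))))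
      fun h => by rw [add_zero]; congr 1; ring
    obtain ⟨h', k3, k4⟩ := c4.pick hh0 hh1 k2
    exact ⟨d', h', k1, k3, k4⟩
  · -- tDK
    have h1 := hD P (Subset.refl _) ∅ (empty_subset _)
    rw [e1, e2, e4] at h1
    simp only [Finset.sdiff_self, sum_empty, sdiff_empty, add_zero, zero_add] at h1
    have h2 : 0 ≤ TesD R A ((d : ℤ) + hn) (∑ l ∈ P, (p l : ℤ))
        ((q y : ℤ) + (kf y + kh y + kc y)) ((q y : ℤ) + (kf y + kh y + kca y))
        ((khb y : ℤ) + kcb y) (svO (q y) ((kf y : ℤ) + kh y))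
        ((∑ l ∈ P, (p l : ℤ)) * (β.p1 + 1)) := by
      refine h1.toD e3 le_rfl ?_
      unfold blkE
      rw [sdiff_empty, sum_empty, mul_zero, add_zero]
      exact f1
    obtain ⟨c1, -⟩ := TesD_cvx R A ((q y : ℤ) + (kf y + kh y + kc y))
      ((q y : ℤ) + (kf y + kh y + kca y)) ((khb y : ℤ) + kcb y) (svO (q y) ((kf y : ℤ) + kh y)) 0 0
    have c2 := c1 (∑ l ∈ P, (p l : ℤ)) ((∑ l ∈ P, (p l : ℤ)) * (β.p1 + 1))
    simp only [zero_mul, add_zero] at c2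
    obtain ⟨D', k1, k2⟩ := c2.pick hD0 hD1 h2
    obtain ⟨-, c5⟩ := TesD_cvx R A ((q y : ℤ) + (kf y + kh y + kc y))
      ((q y : ℤ) + (kf y + kh y + kca y)) ((khb y : ℤ) + kcb y) (svO (q y) ((kf y : ℤ) + kh y)) 0
      (β.p1 + 1)
    have c6 := (c5 D' 0).congr (g := fun P : ℤ => TesD R A D' P
      ((q y : ℤ) + (kf y + kh y + kc y)) ((q y : ℤ) + (kf y + kh y + kca y)) ((khb y : ℤ) + kcb y)
      (svO (q y) ((kf y : ℤ) + kh y)) (P * (β.p1 + 1)))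
      fun P => by rw [add_zero, add_zero, mul_comm P]
    obtain ⟨P', k5, k6⟩ := c6.pick hP0 hP1 k2
    exact ⟨D', P', k1, k5, k6⟩
  · -- tDO
    have h1 := hD P (Subset.refl _) P (Subset.refl _)
    rw [e1, e2, e4] at h1
    simp only [Finset.sdiff_self, sum_empty, add_zero] at h1
    have h2 : 0 ≤ TesD R A ((d : ℤ) + hn) 0
        ((q y : ℤ) + (kf y + kh y + kc y)) ((q y : ℤ) + (kf y + kh y + kca y))
        ((khb y : ℤ) + kcb y) (svO (q y) ((kf y : ℤ) + kh y))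
        (2 * (β.p1 * (A - ((d : ℤ) + hn)))) := by
      refine h1.toD e3 le_rfl ?_
      unfold blkE
      rw [Finset.sdiff_self, sum_empty, zero_add]
      simp only [add_zero]
      linarith
    obtain ⟨c1, -⟩ := TesD_cvx R A ((q y : ℤ) + (kf y + kh y + kc y))
      ((q y : ℤ) + (kf y + kh y + kca y)) ((khb y : ℤ) + kcb y) (svO (q y) ((kf y : ℤ) + kh y))
      (-(2 * β.p1)) 0
    have c2 := (c1 0 (2 * (β.p1 * A))).congr (g := fun D : ℤ => TesD R A D 0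
      ((q y : ℤ) + (kf y + kh y + kc y)) ((q y : ℤ) + (kf y + kh y + kca y)) ((khb y : ℤ) + kcb y)
      (svO (q y) ((kf y : ℤ) + kh y)) (2 * (β.p1 * (A - D))))
      fun D => by congr 1; ring
    obtain ⟨D', k1, k2⟩ := c2.pick hD0 hD1 h2
    exact ⟨D', k1, k2⟩
  · -- nH
    intro j hj h2e
    dsimp only at h2e ⊢
    have hx1 : j ≤ ∑ l ∈ P, x l := hj.trans hβ.X.1
    have h1 := hN (∑ l ∈ P, x l - j) (Nat.sub_le _ _) _ rfl ?_
    · have h2 : 0 ≤ tzDv R A d ((h : ℤ) + ∑ l ∈ P, (p l : ℤ) + j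
          + ((q y : ℤ) + (kf y + kh y + kc y))) ((khb y : ℤ) + kcb y) := by
        replace h1 := h1.trans (add_le_add_right e3 _)
        rw [e1, ePx, Nat.cast_sub hx1] at h1
        push_cast at h1
        have e9 : (h : ℤ) + (∑ l ∈ P, (p l : ℤ) + ∑ l ∈ P, (x l : ℤ)) - (∑ l ∈ P, (x l : ℤ) - j)
            + ((q y : ℤ) + (kf y + kh y + kc y))
            = (h : ℤ) + ∑ l ∈ P, (p l : ℤ) + j + ((q y : ℤ) + (kf y + kh y + kc y)) := by ring
        rw [e9] at h1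
        unfold tzDv
        linarith
      obtain ⟨c1, c2⟩ := tzDv_cvx R A ((khb y : ℤ) + kcb y)
      obtain ⟨d', k1, k2⟩ := (c1 _).pick hd0 hd1 h2
      have c3 := (c2 d' (∑ l ∈ P, (p l : ℤ) + j + ((q y : ℤ) + (kf y + kh y + kc y)))).congr
        (g := fun h : ℤ => tzDv R A d' (h + ∑ l ∈ P, (p l : ℤ) + j
          + ((q y : ℤ) + (kf y + kh y + kc y))) ((khb y : ℤ) + kcb y))
        fun h => by congr 1; ring
      obtain ⟨h', k3, k4⟩ := c3.pick hh0 hh1 k2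
      have c4 := (c2 d' (h' + j + ((q y : ℤ) + (kf y + kh y + kc y)))).congr
        (g := fun P : ℤ => tzDv R A d' (h' + P + j
          + ((q y : ℤ) + (kf y + kh y + kc y))) ((khb y : ℤ) + kcb y))
        fun P => by congr 1; ring
      obtain ⟨P', k5, k6⟩ := c4.pick hP0 hP1 k4
      exact ⟨d', h', P', k1, k3, k5, k6⟩
    · rw [e1, ePx, Nat.cast_sub hx1]
      have h4 : (2 : ℤ) * (β.h1 + β.P1 + j + (q y + (kf y + kh y + kc y))) ≤ R := by
        exact_mod_cast h2e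
      push_cast
      linarith
  · -- nD
    intro j hj h2e
    dsimp only at h2e ⊢
    have hx1 : j ≤ ∑ l ∈ P, x l := hj.trans hβ.X.1
    have h1 := hM (∑ l ∈ P, x l - j) (Nat.sub_le _ _) _ rfl ?_
    · have h2 : 0 ≤ tzDv R A ((d : ℤ) + hn) (∑ l ∈ P, (p l : ℤ) + j
          + ((q y : ℤ) + (kf y + kh y + kc y))) ((khb y : ℤ) + kcb y) := by
        replace h1 := h1.trans (add_le_add_right e3 _)
        rw [e1, ePx, Nat.cast_sub hx1] at h1
        push_cast at h1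
        have e9 : (∑ l ∈ P, (p l : ℤ) + ∑ l ∈ P, (x l : ℤ)) - (∑ l ∈ P, (x l : ℤ) - j)
            + ((q y : ℤ) + (kf y + kh y + kc y))
            = ∑ l ∈ P, (p l : ℤ) + j + ((q y : ℤ) + (kf y + kh y + kc y)) := by ring
        rw [e9] at h1
        unfold tzDv
        linarith
      obtain ⟨c1, c2⟩ := tzDv_cvx R A ((khb y : ℤ) + kcb y)
      obtain ⟨D', k1, k2⟩ := (c1 _).pick hD0 hD1 h2
      have c4 := (c2 D' (j + ((q y : ℤ) + (kf y + kh y + kc y)))).congr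
        (g := fun P : ℤ => tzDv R A D' (P + j
          + ((q y : ℤ) + (kf y + kh y + kc y))) ((khb y : ℤ) + kcb y))
        fun P => by congr 1; ring
      obtain ⟨P', k5, k6⟩ := c4.pick hP0 hP1 k2
      exact ⟨D', P', k1, k5, k6⟩
    · rw [e1, ePx, Nat.cast_sub hx1]
      have h4 : (2 : ℤ) * (β.P1 + j + (q y + (kf y + kh y + kc y))) ≤ R := by
        exact_mod_cast h2e
      push_cast
      linarith

end MidO

end Pool.Agent.Lib.MP_f04ccf_co
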