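import Pool.Agent.Lib.MP_f04ccf_co.M.MidE
import Pool.Agent.Lib.MP_f04ccf_co.M.MidX
import Pool.Agent.Lib.MP_f04ccf_co.M.MidG

/-!
MP_f04ccf_co, TEXT D, middle range: **the state of a row and the abstract leaf** (frame of `rowMid_of_tree`).

* `stK`: the state `d hn hx P X K F K2 C Ca pm M1 M2` of a row (`hx = h - hn`, `pm` the largest block, `M1 M2` the two
  largest other rows); `RowT.stFac`: what every state satisfies (`d + hn ≤ A`, the global bound, ..);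
* `clsR`: the class of a cell (`y1`: `u1p - u1m`, `y2`: `u2p - u2m`, else `-u3`) minus the mark;
* **`RowT.leafR`**: `LfD.finOk` at a box which contains the state, and (C) at every cell ⇒ the claim of the row.
-/

set_option autoImplicit false

namespace Pool.Agent.Lib.MP_f04ccf_co

open Finset

attribute [local instance] Classical.propDecidable

/-- **the state of a row** in the order of the trees -/
def stK (P : Finset ℕ) (y1 y2 d hn h : ℕ) (B p x q kf kh kc kca : ℕ → ℕ) (i : ℕ) : ℕ :=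
  [d, hn, h - hn, ∑ y ∈ P, p y, ∑ y ∈ P, x y, ∑ y ∈ P, q y, ∑ y ∈ P, kf y, ∑ y ∈ P, kh y,
    ∑ y ∈ P, kc y, ∑ y ∈ P, kca y, P.sup p, B y1, B y2].getD i 0

/-- the class of a cell minus the mark -/
def clsR (L : LfD) (y1 y2 pm : ℕ) (p : ℕ → ℕ) (y : ℕ) : ℤ :=
  (if y = y1 then (L.u1p : ℤ) - L.u1m else if y = y2 then (L.u2p : ℤ) - L.u2m else -(L.u3 : ℤ))
    - (if pm ≤ p y then (L.mkd : ℤ) else 0)

/-- **what every state satisfies** -/
structure StFac (R A : ℕ) (σ : ℕ → ℕ) : Prop where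
  A1 : 1 ≤ A
  hnA : σ 0 + σ 1 ≤ A
  pmP : σ 10 ≤ σ 3
  Ppm : 0 < σ 3 → 0 < σ 10
  pmA : σ 10 ≤ A
  pmM : σ 10 ≤ σ 11
  M21 : σ 12 ≤ σ 11
  M2 : 1 ≤ σ 12
  size : A + σ 11 + σ 12 + 2 ≤ R
  glob : σ 1 + σ 2 + σ 3 + σ 4 + σ 5 + σ 6 + σ 7 + σ 8 + A ≤ σ 0 + 1 + R
  nl : σ 0 + 1 ≤ σ 1 + σ 2 + σ 3 + σ 4 + σ 5 + σ 6 + σ 7 + σ 8
  caC : σ 9 ≤ σ 8 ∧ σ 8 ≤ 2 * σ 9
  bar : ∀ e : ℕ, σ 1 + σ 2 + σ 3 ≤ e → 2 * (e + 1) ≤ R →
    A * (e + 1) + (R - 2 * (e + 1)) * σ 0 < (R - 2 * (e + 1)) * (e + 1) →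
    σ 1 + σ 2 + σ 3 + σ 4 + (σ 5 + σ 6) ≤ e

section MidR

variable {R : ℕ} {P : Finset ℕ} {y1 y2 A d hn h : ℕ}
  {B p x q mf mh mhb mha mc mcb mcn mcv kf kh khb kha kc kca kcb kcr sg en nn kcw : ℕ → ℕ}

/-- the totals in the form of the tests -/
lemma RowV.stD_eq (V : RowV R P A d hn h B p x q mf mh mhb mha mc mcb mcn mcv kf kh khb kha kc kca
    kcb kcr sg en nn) (y1 y2 : ℕ) {σ : ℕ → ℕ} (hσ : σ = stK P y1 y2 d hn h B p x q kf kh kc kca) :
    MF.stD (σ 0) (σ 1) (σ 2) (σ 3) (σ 4) (σ 5) (σ 6) (σ 7) (σ 8) (σ 9)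
      = stN P d hn h p x q kf kh kc kca := by
  have h1 : ((h - hn : ℕ) : ℤ) = h - hn := by rw [Nat.cast_sub V.hn2]
  have e : ∀ i, σ i = [d, hn, h - hn, ∑ y ∈ P, p y, ∑ y ∈ P, x y, ∑ y ∈ P, q y, ∑ y ∈ P, kf y,
    ∑ y ∈ P, kh y, ∑ y ∈ P, kc y, ∑ y ∈ P, kca y, P.sup p, B y1, B y2].getD i 0 := fun i => by
      rw [hσ]; rfl
  unfold MF.stD stN
  simp only [e, List.getD_cons_zero, List.getD_cons_succ]
  push_cast
  rw [h1]
  congr 1
  ring

/-- **what every state satisfies** -/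
theorem RowT.stFac (T : RowT R P y1 y2 A d hn h B p x q mf mh mhb mha mc mcb mcn mcv kf kh khb kha
    kc kca kcb kcr sg en nn) : StFac R A (stK P y1 y2 d hn h B p x q kf kh kc kca) := by
  have hc2 := T.hn2
  have hsg := T.sgs
  have hP4 := T.P4
  have hle1 : ∀ y ∈ P, p y ≤ B y1 ∧ p y ≤ A := fun y hy => by
    have h1 := T.bqB y hy
    have h2 := T.mx1 y hy
    omega
  have hmax : ∀ y ∈ P, p y ≤ ∑ l ∈ P, p l := fun y hy =>
    single_le_sum (f := p) (fun _ _ => Nat.zero_le _) hy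
  have hmass : A + B y1 + B y2 + 2 ≤ R := by
    have h1 := T.mass
    have h2 : ({y1, y2} : Finset ℕ) ⊆ P := by
      intro i hi
      rcases mem_insert.1 hi with rfl | hi
      · exact T.y1P
      · rw [mem_singleton.1 hi]; exact T.y2P
    have h3 := sum_sdiff (f := B) h2
    have h4 : (P \ {y1, y2}).card ≤ ∑ l ∈ P \ {y1, y2}, B l := by
      rw [card_eq_sum_ones]
      exact sum_le_sum fun l hl => T.B1 l (mem_sdiff.1 hl).1
    rw [card_sdiff_of_subset h2, card_pair (Ne.symm T.y12)] at h4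
    rw [sum_pair (Ne.symm T.y12)] at h3
    omega
  obtain ⟨b', hb, -, -, -, -, hg⟩ := T.row q kf kh (fun _ => 1) fun y _ =>
    ⟨le_rfl, le_rfl, le_rfl, le_rfl⟩
  have hg1 : h + ∑ l ∈ P, p l + ∑ l ∈ P, x l + ∑ l ∈ P, q l + ∑ l ∈ P, kf l + ∑ l ∈ P, kh l
      + ∑ l ∈ P, kc l + A ≤ d + 1 + R := by
    have h2 : ∑ y ∈ P, ((q y : ℤ) + (kf y + kh y + (1 : ℕ) * kc y))
        = ∑ l ∈ P, (q l : ℤ) + ∑ l ∈ P, (kf l : ℤ) + ∑ l ∈ P, (kh l : ℤ) + ∑ l ∈ P, (kc l : ℤ) := by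
      rw [← sum_add_distrib, ← sum_add_distrib, ← sum_add_distrib]
      exact sum_congr rfl fun _ _ => by push_cast; ring
    rw [h2, sum_add_distrib] at hg
    have h3 : ((h + ∑ l ∈ P, p l + ∑ l ∈ P, x l + ∑ l ∈ P, q l + ∑ l ∈ P, kf l + ∑ l ∈ P, kh l
      + ∑ l ∈ P, kc l + A : ℕ) : ℤ) ≤ ((d + 1 + R : ℕ) : ℤ) := by
      push_cast
      linarith
    exact_mod_cast h3
  have hnl : d + 1 ≤ ∑ l ∈ P, p l + ∑ l ∈ P, x l + ∑ l ∈ P, q l + h + ∑ l ∈ P, kf l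
      + ∑ l ∈ P, kh l + ∑ l ∈ P, kc l := by
    have h1 := T.nl
    simp only [sum_add_distrib] at h1
    have h2 := T.hS
    simp only [sum_add_distrib] at h2
    omega
  have hca : ∑ l ∈ P, kca l ≤ ∑ l ∈ P, kc l ∧ ∑ l ∈ P, kc l ≤ 2 * ∑ l ∈ P, kca l := by
    refine ⟨sum_le_sum fun y hy => (T.kca1 y hy).1, ?_⟩
    rw [mul_sum]
    exact sum_le_sum fun y hy => (T.kca1 y hy).2
  refine ⟨T.A1, ?_, ?_, ?_, ?_, ?_, ?_, ?_, ?_, ?_, ?_, ?_, fun e => ?_⟩ <;>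
    simp only [stK, List.getD_cons_zero, List.getD_cons_succ]
  · omega
  · exact Finset.sup_le fun y hy => hmax y hy
  · intro h1
    by_contra h2
    have h3 : P.sup p = 0 := by omega
    have h4 : ∑ l ∈ P, p l = 0 := sum_eq_zero fun y hy => by
      have := Finset.le_sup (f := p) hy
      omega
    omega
  · exact Finset.sup_le fun y hy => (hle1 y hy).2
  · exact Finset.sup_le fun y hy => (hle1 y hy).1
  · exact T.mx1 y2 T.y2P
  · exact T.B1 y2 T.y2P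
  · exact hmass
  · omega
  · omega
  · exact hca
  · intro h1 h2 h3
    have h4 := T.toRowV.bar (e := e) (by omega) h2 h3
    rw [sum_add_distrib] at h4
    omega

/-- the sum of the classes -/
lemma RowT.cls_sum (T : RowT R P y1 y2 A d hn h B p x q mf mh mhb mha mc mcb mcn mcv kf kh khb kha
    kc kca kcb kcr sg en nn) (L : LfD) {pm : ℕ} (hpm : pm ≤ P.sup p) :
    ∑ y ∈ P, clsR L y1 y2 pm p y ≤ L.toD.nu := by
  have hne : P.Nonempty := ⟨y1, T.y1P⟩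
  obtain ⟨ys, hys, hmax⟩ := Finset.exists_mem_eq_sup P hne p
  unfold clsR
  rw [sum_sub_distrib]
  have h1 : (L.mkd : ℤ) ≤ ∑ y ∈ P, (if pm ≤ p y then (L.mkd : ℤ) else 0) := by
    have h2 := single_le_sum (f := fun y => if pm ≤ p y then (L.mkd : ℤ) else 0)
      (fun y _ => by split_ifs <;> positivity) hys
    rw [if_pos (by rw [← hmax]; exact hpm)] at h2
    exact h2
  have h2 : ({y1, y2} : Finset ℕ) ⊆ P := by
    intro i hi
    rcases mem_insert.1 hi with rfl | hi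
    · exact T.y1P
    · rw [mem_singleton.1 hi]; exact T.y2P
  have h3 : ∑ y ∈ P, (if y = y1 then (L.u1p : ℤ) - L.u1m else if y = y2 then (L.u2p : ℤ) - L.u2m
      else -(L.u3 : ℤ)) ≤ (L.u1p : ℤ) - L.u1m + ((L.u2p : ℤ) - L.u2m) - 2 * L.u3 := by
    rw [← sum_sdiff h2, sum_pair (Ne.symm T.y12), if_pos rfl, if_neg T.y12, if_pos rfl]
    have h4 : ∑ y ∈ P \ {y1, y2}, (if y = y1 then (L.u1p : ℤ) - L.u1m else if y = y2 then
        (L.u2p : ℤ) - L.u2m else -(L.u3 : ℤ)) = -((P \ {y1, y2}).card * (L.u3 : ℤ)) := by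
      rw [sum_congr rfl (g := fun _ => -(L.u3 : ℤ)) fun y hy => ?_, sum_const, nsmul_eq_mul]
      · ring
      · have h5 := (mem_sdiff.1 hy).2
        rw [if_neg (fun h6 => h5 (by rw [h6]; exact mem_insert_self _ _)),
          if_neg (fun h6 => h5 (by rw [h6]; exact mem_insert_of_mem (mem_singleton_self _)))]
    rw [h4]
    have h5 : 2 ≤ (P \ {y1, y2}).card := by
      rw [card_sdiff_of_subset h2, card_pair (Ne.symm T.y12)]
      have := T.P4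
      omega
    have h6 : (2 : ℤ) ≤ (P \ {y1, y2}).card := by exact_mod_cast h5
    have h7 : (0 : ℤ) ≤ L.u3 := Nat.cast_nonneg _
    nlinarith
  unfold LfD.toD
  dsimp only
  push_cast
  linarith

/-- **THE ABSTRACT LEAF**: the final number of the box and (C) at every cell give the claim of the row -/
theorem RowT.leafR (T : RowT R P y1 y2 A d hn h B p x q mf mh mhb mha mc mcb mcn mcv kf kh khb kha
    kc kca kcb kcr sg en nn) (M : RowMc P hn h q mf mh mc mcn kca kcr kcw) {N D v : ℕ} {L : LfD}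
    {lo hi : List ℕ} (hE : 0 < L.E) (hf : L.finOk R A N D v lo hi = true)
    (hlen : 10 < lo.length ∧ 10 < hi.length)
    {σ : ℕ → ℕ} (hσ : σ = stK P y1 y2 d hn h B p x q kf kh kc kca) (hl : KdT.Lo σ lo)
    (hh : KdT.Hi σ hi) {nb : ℕ → ℤ} (hnb : ∀ y ∈ P, (nn y : ℤ) ≤ nb y) {pay : ℕ → ℤ}
    (hC : ∀ y ∈ P, (L.E : ℤ) * pay y + (L.toD.cel (p y) (q y) (kf y) (kh y) (nb y) (khb y) (kcb y)
      + L.toD.ln.cel (p y) (x y) (q y) (mf y) (mh y) (mc y) (kf y) (kh y) (kc y) (kca y)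
        - L.toD.ln.an * ((mc y - mcn y : ℕ) : ℤ))
      ≤ L.al * B y + clsR L y1 y2 (lo.getD 10 0) p y) :
    (N : ℤ) * ∑ y ∈ P, pay y ≤ (D : ℤ) * ((N : ℤ) * d + v) := by
  have hA : A ≤ R := by
    have := T.mass
    omega
  obtain ⟨g1, g2⟩ := LfD.finOk_sound hf hA hl hh
  have e1 := T.toRowV.stD_eq y1 y2 hσ
  rw [e1] at g1 g2
  have s10 : σ 10 = P.sup p := by rw [hσ]; rfl
  have s1 : σ 1 = hn := by rw [hσ]; rfl
  have s0 : σ 0 = d := by rw [hσ]; rfl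
  have hpm : ∀ l ∈ P, p l ≤ hi.getD 10 0 := fun l hl' => by
    have h1 := hh 10 hlen.2
    have h2 := Finset.le_sup (f := p) hl'
    omega
  have hcls := T.cls_sum L (pm := lo.getD 10 0) (by rw [← s10]; exact hl 10 hlen.1)
  have key := T.toRowV.leafY M hpm hnb (gn := (hn : ℤ) * (hn - 1)) le_rfl L.toD g1
    (show (0 : ℤ) ≤ L.toD.al from Nat.cast_nonneg L.al)
    (show (0 : ℤ) ≤ L.toD.ln.an from Nat.cast_nonneg L.an) hcls
    (sn := fun y => (L.E : ℤ) * pay y) fun y hy => by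
      have h1 := hC y hy
      have h2 : L.toD.al = (L.al : ℤ) := rfl
      rw [h2]
      linarith
  rw [s0, s1] at g2
  rw [← mul_sum] at key
  have hE' : (0 : ℤ) < L.E := by exact_mod_cast hE
  have h3 := mul_le_mul_of_nonneg_left key (Nat.cast_nonneg (α := ℤ) N)
  have h4 : (L.E : ℤ) * ((N : ℤ) * ∑ y ∈ P, pay y) ≤ L.E * ((D : ℤ) * ((N : ℤ) * d + v)) := by
    have e5 : (L.E : ℤ) * ((N : ℤ) * ∑ y ∈ P, pay y) = N * (L.E * ∑ y ∈ P, pay y) := by ring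
    rw [e5]
    exact h3.trans g2
  exact le_of_mul_le_mul_left h4 hE'

end MidR

end Pool.Agent.Lib.MP_f04ccf_co
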