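import Mathlib

/-!
MP_f04ccf_co, TEXT D, middle range: **sub-families of the used units chosen by an average**.

* `avg_subset`: for a family `s` of `k` units with misses `f` and pair weights `w`, and every `k' ≤ k`, some
  sub-family of size `k'` has `2 (misses) - (pairs)` at most the average over all of them;
* `sum_offDiag_key`: pairs with the same key;
* `sub_cells`: the same for units given by numbers per cell (`q` PC pairs, `kf` full, `kh` halves with `khb` misses);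
* `sub_cellsG`: on top of fixed used units, savings with a factor.
-/

set_option autoImplicit false

namespace Pool.Agent.Lib.MP_f04ccf_co

open Finset

section SubAv

variable {α : Type*} [DecidableEq α]

lemma sum_erase_sum (s : Finset α) (f : α → ℝ) :
    ∑ x ∈ s, ∑ y ∈ s.erase x, f y = ((s.card : ℝ) - 1) * ∑ x ∈ s, f x := by
  have h1 : ∀ x ∈ s, ∑ y ∈ s.erase x, f y = ∑ y ∈ s, f y - f x := fun x hx => by
    rw [← add_sum_erase s f hx]
    ring
  rw [sum_congr rfl h1, sum_sub_distrib, sum_const, nsmul_eq_mul]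
  ring

lemma sum_erase_offDiag (s : Finset α) (w : α × α → ℝ) :
    ∑ x ∈ s, ∑ e ∈ (s.erase x).offDiag, w e = ((s.card : ℝ) - 2) * ∑ e ∈ s.offDiag, w e := by
  have h1 : ∀ x ∈ s, ∑ e ∈ (s.erase x).offDiag, w e
      = ∑ e ∈ s.offDiag, if e.1 ≠ x ∧ e.2 ≠ x then w e else 0 := fun x _ => by
    rw [← sum_filter]
    refine sum_congr ?_ fun _ _ => rfl
    ext e
    simp only [mem_offDiag, mem_erase, mem_filter]
    tauto
  rw [sum_congr rfl h1, sum_comm]
  have h2 : ∀ e ∈ s.offDiag, (∑ x ∈ s, if e.1 ≠ x ∧ e.2 ≠ x then w e else 0)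
      = ((s.card : ℝ) - 2) * w e := fun e he => by
    obtain ⟨h3, h4, h5⟩ := mem_offDiag.1 he
    rw [← sum_filter, sum_const, nsmul_eq_mul]
    have h6 : s.filter (fun x => e.1 ≠ x ∧ e.2 ≠ x) = (s.erase e.1).erase e.2 := by
      ext x
      simp only [mem_filter, mem_erase]
      constructor
      · rintro ⟨h7, h8, h9⟩
        exact ⟨fun h => h9 h.symm, fun h => h8 h.symm, h7⟩
      · rintro ⟨h7, h8, h9⟩
        exact ⟨h9, fun h => h8 h.symm, fun h => h7 h.symm⟩
    have h7 : ((s.filter fun x => e.1 ≠ x ∧ e.2 ≠ x).card : ℝ) = (s.card : ℝ) - 2 := by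
      rw [h6]
      have h8 : e.2 ∈ s.erase e.1 := mem_erase.2 ⟨fun h => h5 h.symm, h4⟩
      have h9 := card_erase_add_one h8
      have h10 := card_erase_add_one h3
      have h11 : ((s.erase e.1).erase e.2).card + 2 = s.card := by omega
      rw [← h11]
      push_cast
      ring
    rw [h7]
  rw [sum_congr rfl h2, ← mul_sum]

/-- **averaging over the sub-families of size `k'`** -/
theorem avg_subset (f : α → ℝ) (w : α × α → ℝ) (k' : ℕ) : ∀ (m : ℕ) (s : Finset α),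
    s.card = m → k' ≤ m → ∃ t ⊆ s, t.card = k' ∧
      2 * ∑ x ∈ t, f x - ∑ e ∈ t.offDiag, w e
        ≤ 2 * ((k' : ℝ) / m) * ∑ x ∈ s, f x
          - ((k' : ℝ) * (k' - 1) / (m * ((m : ℝ) - 1))) * ∑ e ∈ s.offDiag, w e := by
  intro m
  induction m with
  | zero =>
    intro s hs hk
    obtain rfl : k' = 0 := by omega
    refine ⟨∅, empty_subset _, rfl, ?_⟩
    simp
  | succ m ih =>
    intro s hs hk
    rcases Nat.eq_zero_or_pos k' with h0 | h0
    · subst h0
      refine ⟨∅, empty_subset _, rfl, ?_⟩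
      simp
    rcases Nat.lt_or_ge m k' with h1 | h1
    · obtain rfl : k' = m + 1 := by omega
      refine ⟨s, Subset.refl _, hs, ?_⟩
      have h2 : (((m + 1 : ℕ)) : ℝ) ≠ 0 := by
        have : (0 : ℝ) < ((m + 1 : ℕ) : ℝ) := by exact_mod_cast Nat.succ_pos m
        exact this.ne'
      rcases Nat.eq_zero_or_pos m with h3 | h3
      · subst h3
        have h4 : s.offDiag = ∅ := by
          rw [← card_eq_zero, offDiag_card, hs]
        rw [h4]
        simp
      · have h4 : ((m + 1 : ℕ) : ℝ) - 1 ≠ 0 := by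
          have : (0 : ℝ) < (m : ℝ) := by exact_mod_cast h3
          push_cast
          rw [add_sub_cancel_right]
          exact this.ne'
        rw [div_self h2, div_self (mul_ne_zero h2 h4)]
        linarith
    · have hm : (0 : ℝ) < m := by
        have : 0 < m := by omega
        exact_mod_cast this
      have hne : s.Nonempty := by
        rw [← card_pos, hs]
        omega
      obtain ⟨X, hX⟩ : ∃ X : ℝ, X = 2 * ((k' : ℝ) / (m + 1 : ℕ)) * ∑ x ∈ s, f x := ⟨_, rfl⟩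
      obtain ⟨Y, hY⟩ : ∃ Y : ℝ, Y = ((k' : ℝ) * (k' - 1) / (((m + 1 : ℕ) : ℝ)
        * (((m + 1 : ℕ) : ℝ) - 1))) * ∑ e ∈ s.offDiag, w e := ⟨_, rfl⟩
      rw [← hX, ← hY]
      have h2 : ∑ x ∈ s, (2 * ((k' : ℝ) / m) * ∑ y ∈ s.erase x, f y
          - ((k' : ℝ) * (k' - 1) / (m * ((m : ℝ) - 1))) * ∑ e ∈ (s.erase x).offDiag, w e)
          ≤ ∑ _x ∈ s, (X - Y) := by
        have e1 : 2 * ((k' : ℝ) / m) * ((((m + 1 : ℕ) : ℝ) - 1) * ∑ x ∈ s, f x)
            = 2 * k' * ∑ x ∈ s, f x := by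
          push_cast
          field_simp
          ring
        have e2 : ((m + 1 : ℕ) : ℝ) * X = 2 * k' * ∑ x ∈ s, f x := by
          rw [hX]
          push_cast
          field_simp
        have e3 : ((k' : ℝ) * (k' - 1) / (m * ((m : ℝ) - 1)))
            * ((((m + 1 : ℕ) : ℝ) - 2) * ∑ e ∈ s.offDiag, w e)
            = ((k' : ℝ) * (k' - 1) / m) * ∑ e ∈ s.offDiag, w e := by
          rcases Nat.lt_or_ge k' 2 with h3 | h3
          · have h4 : k' = 1 := by omega
            subst h4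
            simp
          · have h4 : ((m : ℝ) - 1) ≠ 0 := by
              have : (2 : ℝ) ≤ m := by
                have : 2 ≤ m := by omega
                exact_mod_cast this
              linarith
            push_cast
            field_simp
            ring
        have e4 : ((m + 1 : ℕ) : ℝ) * Y
            = ((k' : ℝ) * (k' - 1) / m) * ∑ e ∈ s.offDiag, w e := by
          have h4 : ((m + 1 : ℕ) : ℝ) - 1 = m := by
            push_cast
            ring
          rw [hY, h4]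
          push_cast
          field_simp
        rw [sum_sub_distrib, ← mul_sum, ← mul_sum, sum_erase_sum, sum_erase_offDiag, sum_const,
          nsmul_eq_mul, hs, e1, e3]
        linarith
      obtain ⟨x, hx, h3⟩ := exists_le_of_sum_le hne h2
      have h4 : (s.erase x).card = m := by
        have := card_erase_add_one hx
        omega
      obtain ⟨t, ht, h5, h6⟩ := ih (s.erase x) h4 h1
      exact ⟨t, ht.trans (erase_subset _ _), h5, h6.trans h3⟩

omit [DecidableEq α] in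
/-- pairs of elements with the same key and the property `p` -/
lemma sum_offDiag_key (t : Finset α) (P : Finset ℕ) (κ : α → ℕ) (hκ : ∀ x ∈ t, κ x ∈ P)
    (p : α → Prop) [DecidablePred p] :
    (∑ e ∈ t.offDiag, if κ e.1 = κ e.2 ∧ p e.1 ∧ p e.2 then (1 : ℝ) else 0)
      = ∑ y ∈ P, ((t.filter fun x => κ x = y ∧ p x).card : ℝ)
          * (((t.filter fun x => κ x = y ∧ p x).card : ℝ) - 1) := by
  rw [← sum_filter, sum_const, nsmul_eq_mul, mul_one]
  have h1 : ∀ e ∈ t.offDiag.filter (fun e => κ e.1 = κ e.2 ∧ p e.1 ∧ p e.2), κ e.1 ∈ P :=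
    fun e he => hκ _ (mem_offDiag.1 (mem_filter.1 he).1).1
  rw [card_eq_sum_card_fiberwise h1, Nat.cast_sum]
  refine sum_congr rfl fun y _ => ?_
  have h2 : (t.offDiag.filter (fun e => κ e.1 = κ e.2 ∧ p e.1 ∧ p e.2)).filter
      (fun e => κ e.1 = y) = (t.filter fun x => κ x = y ∧ p x).offDiag := by
    ext e
    simp only [mem_filter, mem_offDiag]
    constructor
    · rintro ⟨⟨⟨h3, h4, h5⟩, h6, h7, h8⟩, h9⟩
      exact ⟨⟨h3, h9, h7⟩, ⟨h4, h6 ▸ h9, h8⟩, h5⟩
    · rintro ⟨⟨h3, h4, h5⟩, ⟨h6, h7, h8⟩, h9⟩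
      exact ⟨⟨⟨h3, h6, h9⟩, h4.trans h7.symm, h5, h8⟩, h4⟩
  rw [h2, offDiag_card]
  generalize (t.filter fun x => κ x = y ∧ p x).card = c
  rcases Nat.eq_zero_or_pos c with h3 | h3
  · subst h3
    simp
  · have h4 : c ≤ c * c := Nat.le_mul_of_pos_left _ h3
    rw [Nat.cast_sub h4]
    push_cast
    ring

end SubAv

/-! ### numbers per cell -/

section SubCells

variable {P : Finset ℕ} (q kf kh khb : ℕ → ℕ)

/-- the units of all cells -/
private def uS (P : Finset ℕ) (q kf kh : ℕ → ℕ) : Finset (Σ _ : ℕ, ℕ) :=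
  P.sigma fun y => range (q y + kf y + kh y)

private lemma uS_card : (uS P q kf kh).card = ∑ y ∈ P, (q y + kf y + kh y) := by
  unfold uS
  rw [card_sigma]
  exact sum_congr rfl fun y _ => card_range _

private lemma mem_uS {x : Σ _ : ℕ, ℕ} : x ∈ uS P q kf kh ↔ x.1 ∈ P ∧ x.2 < q x.1 + kf x.1 + kh x.1 := by
  unfold uS
  rw [mem_sigma, mem_range]

private lemma uS_cnt (y a b : ℕ) {t : Finset (Σ _ : ℕ, ℕ)} :
    (t.filter fun x => x.1 = y ∧ a ≤ x.2 ∧ x.2 < b).card ≤ b - a := by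
  have h1 : (t.filter fun x => x.1 = y ∧ a ≤ x.2 ∧ x.2 < b).card ≤ (Ico a b).card := by
    refine card_le_card_of_injOn (fun x => x.2) (fun x hx => ?_) fun x hx x' hx' h => ?_
    · obtain ⟨-, -, h2, h3⟩ := mem_filter.1 hx
      exact mem_coe.2 (mem_Ico.2 ⟨h2, h3⟩)
    · obtain ⟨-, h2, -⟩ := mem_filter.1 (mem_coe.1 hx)
      obtain ⟨-, h3, -⟩ := mem_filter.1 (mem_coe.1 hx')
      exact Sigma.ext (h2.trans h3.symm) (heq_of_eq h)
  rwa [Nat.card_Ico] at h1

private lemma uS_cntS {y a b : ℕ} (hy : y ∈ P) (hb : b ≤ q y + kf y + kh y) :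
    ((uS P q kf kh).filter fun x => x.1 = y ∧ a ≤ x.2 ∧ x.2 < b).card = b - a := by
  have h1 : (Ico a b).card ≤ ((uS P q kf kh).filter fun x => x.1 = y ∧ a ≤ x.2 ∧ x.2 < b).card := by
    refine card_le_card_of_injOn (fun i => (⟨y, i⟩ : Σ _ : ℕ, ℕ)) (fun i hi => ?_) fun i _ j _ h => ?_
    · obtain ⟨h2, h3⟩ := mem_Ico.1 (mem_coe.1 hi)
      exact mem_coe.2 (mem_filter.2 ⟨(mem_uS q kf kh).2 ⟨hy, lt_of_lt_of_le h3 hb⟩, rfl, h2, h3⟩)
    · exact eq_of_heq (Sigma.mk.inj h).2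
  rw [Nat.card_Ico] at h1
  exact le_antisymm (uS_cnt y a b) h1

/-- **a sub-family of `k'` of the served units**, numbers per cell: `q` PC pairs, `kf` full, `kh` halves with `khb`
misses; twice the misses minus the savings are at most the average -/
theorem sub_cells (k' : ℕ) (hk : k' ≤ ∑ y ∈ P, (q y + kf y + kh y)) :
    ∃ q' kf' kh' : ℕ → ℕ, (∀ y ∈ P, q' y ≤ q y ∧ kf' y ≤ kf y ∧ kh' y ≤ kh y) ∧
      ∑ y ∈ P, (q' y + kf' y + kh' y) = k' ∧
      ∀ b' : ℕ → ℝ, (∀ y ∈ P, (kh y : ℝ) * b' y ≤ kh' y * khb y ∧ (kh' y = 0 → b' y ≤ 0)) →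
        2 * ∑ y ∈ P, b' y - ∑ y ∈ P, (((q' y + kf' y + kh' y : ℕ) : ℝ)
            * (((q' y + kf' y + kh' y : ℕ) : ℝ) - 1)
            + ((kf' y + kh' y : ℕ) : ℝ) * (((kf' y + kh' y : ℕ) : ℝ) - 1))
          ≤ 2 * ((k' : ℝ) / (∑ y ∈ P, (q y + kf y + kh y) : ℕ)) * ∑ y ∈ P, (khb y : ℝ)
            - ((k' : ℝ) * (k' - 1) / (((∑ y ∈ P, (q y + kf y + kh y) : ℕ) : ℝ)
              * (((∑ y ∈ P, (q y + kf y + kh y) : ℕ) : ℝ) - 1)))
              * ∑ y ∈ P, (((q y + kf y + kh y : ℕ) : ℝ) * (((q y + kf y + kh y : ℕ) : ℝ) - 1)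
                + ((kf y + kh y : ℕ) : ℝ) * (((kf y + kh y : ℕ) : ℝ) - 1)) := by
  classical
  set k := ∑ y ∈ P, (q y + kf y + kh y) with hkdef
  obtain ⟨t, ht, htc, hav⟩ := avg_subset
    (fun x : Σ _ : ℕ, ℕ => if q x.1 + kf x.1 ≤ x.2 then (khb x.1 : ℝ) / kh x.1 else 0)
    (fun e => (if e.1.1 = e.2.1 ∧ True ∧ True then (1 : ℝ) else 0)
      + if e.1.1 = e.2.1 ∧ q e.1.1 ≤ e.1.2 ∧ q e.2.1 ≤ e.2.2 then (1 : ℝ) else 0) k' k
    (uS P q kf kh) (uS_card q kf kh) hk
  have htP : ∀ x ∈ t, x.1 ∈ P := fun x hx => ((mem_uS q kf kh).1 (ht hx)).1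
  have htn : ∀ x ∈ t, x.2 < q x.1 + kf x.1 + kh x.1 := fun x hx => ((mem_uS q kf kh).1 (ht hx)).2
  -- the counts
  set c1 : ℕ → ℕ := fun y => (t.filter fun x => x.1 = y ∧ 0 ≤ x.2 ∧ x.2 < q y).card with hc1
  set c2 : ℕ → ℕ := fun y => (t.filter fun x => x.1 = y ∧ q y ≤ x.2 ∧ x.2 < q y + kf y).card
    with hc2
  set c3 : ℕ → ℕ := fun y => (t.filter fun x => x.1 = y ∧ q y + kf y ≤ x.2
    ∧ x.2 < q y + kf y + kh y).card with hc3
  have e23 : ∀ y, (t.filter fun x => x.1 = y ∧ q x.1 ≤ x.2).card = c2 y + c3 y := fun y => by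
    rw [hc2, hc3]
    show _ = (t.filter fun x => x.1 = y ∧ q y ≤ x.2 ∧ x.2 < q y + kf y).card
      + (t.filter fun x => x.1 = y ∧ q y + kf y ≤ x.2 ∧ x.2 < q y + kf y + kh y).card
    rw [← card_union_of_disjoint, ← filter_or]
    · refine congrArg card (filter_congr fun x hx => ?_)
      constructor
      · rintro ⟨rfl, h2⟩
        rcases Nat.lt_or_ge x.2 (q x.1 + kf x.1) with h3 | h3
        · exact Or.inl ⟨rfl, h2, h3⟩
        · exact Or.inr ⟨rfl, h3, htn x hx⟩
      · rintro (⟨rfl, h2, -⟩ | ⟨rfl, h2, -⟩)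
        · exact ⟨rfl, h2⟩
        · exact ⟨rfl, (Nat.le_add_right _ _).trans h2⟩
    · exact disjoint_filter.2 fun x _ h1 h2 => by omega
  have e123 : ∀ y, (t.filter fun x => x.1 = y ∧ True).card = c1 y + c2 y + c3 y := fun y => by
    rw [add_assoc, ← e23 y, hc1]
    show _ = (t.filter fun x => x.1 = y ∧ 0 ≤ x.2 ∧ x.2 < q y).card
      + (t.filter fun x => x.1 = y ∧ q x.1 ≤ x.2).card
    rw [← card_union_of_disjoint, ← filter_or]
    · refine congrArg card (filter_congr fun x hx => ?_)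
      constructor
      · rintro ⟨rfl, -⟩
        rcases Nat.lt_or_ge x.2 (q x.1) with h3 | h3
        · exact Or.inl ⟨rfl, Nat.zero_le _, h3⟩
        · exact Or.inr ⟨rfl, h3⟩
      · rintro (⟨rfl, -⟩ | ⟨rfl, -⟩) <;> exact ⟨rfl, trivial⟩
    · refine disjoint_filter.2 fun x _ h1 h2 => ?_
      obtain ⟨rfl, -, h3⟩ := h1
      omega
  have s23 : ∀ y ∈ P, ((uS P q kf kh).filter fun x => x.1 = y ∧ q x.1 ≤ x.2).card = kf y + kh y :=
    fun y hy => by
      have h1 := uS_cntS q kf kh (a := q y) (b := q y + kf y + kh y) hy le_rfl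
      have h2 : (uS P q kf kh).filter (fun x => x.1 = y ∧ q x.1 ≤ x.2)
          = (uS P q kf kh).filter (fun x => x.1 = y ∧ q y ≤ x.2 ∧ x.2 < q y + kf y + kh y) :=
        filter_congr fun x hx => by
          constructor
          · rintro ⟨rfl, h3⟩
            exact ⟨rfl, h3, ((mem_uS q kf kh).1 hx).2⟩
          · rintro ⟨rfl, h3, -⟩
            exact ⟨rfl, h3⟩
      rw [h2, h1]
      omega
  have s123 : ∀ y ∈ P, ((uS P q kf kh).filter fun x => x.1 = y ∧ True).card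
      = q y + kf y + kh y := fun y hy => by
    have h1 := uS_cntS q kf kh (a := 0) (b := q y + kf y + kh y) hy le_rfl
    have h2 : (uS P q kf kh).filter (fun x => x.1 = y ∧ True)
        = (uS P q kf kh).filter (fun x => x.1 = y ∧ 0 ≤ x.2 ∧ x.2 < q y + kf y + kh y) :=
      filter_congr fun x hx => by
        constructor
        · rintro ⟨rfl, -⟩
          exact ⟨rfl, Nat.zero_le _, ((mem_uS q kf kh).1 hx).2⟩
        · rintro ⟨rfl, -⟩
          exact ⟨rfl, trivial⟩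
    rw [h2, h1]
    omega
  refine ⟨c1, c2, c3, fun y _ => ⟨?_, ?_, ?_⟩, ?_, fun b' hb => ?_⟩
  · have := uS_cnt y 0 (q y) (t := t)
    rw [hc1]
    omega
  · have := uS_cnt y (q y) (q y + kf y) (t := t)
    rw [hc2]
    show (t.filter fun x => x.1 = y ∧ q y ≤ x.2 ∧ x.2 < q y + kf y).card ≤ kf y
    omega
  · have := uS_cnt y (q y + kf y) (q y + kf y + kh y) (t := t)
    rw [hc3]
    show (t.filter fun x => x.1 = y ∧ q y + kf y ≤ x.2 ∧ x.2 < q y + kf y + kh y).card ≤ kh y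
    omega
  · rw [← htc, card_eq_sum_card_fiberwise (f := fun x => x.1) (t := P) fun x hx =>
      mem_coe.2 (htP x (mem_coe.1 hx))]
    refine sum_congr rfl fun y _ => ?_
    rw [← e123 y]
    exact congrArg card (filter_congr fun x _ => by simp)
  · -- the misses of `t`
    have m1 : ∑ x ∈ t, (if q x.1 + kf x.1 ≤ x.2 then (khb x.1 : ℝ) / kh x.1 else 0)
        = ∑ y ∈ P, (c3 y : ℝ) * ((khb y : ℝ) / kh y) := by
      rw [← sum_fiberwise_of_maps_to htP]
      refine sum_congr rfl fun y _ => ?_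
      rw [← sum_filter, filter_filter]
      have h1 : t.filter (fun x => x.1 = y ∧ q x.1 + kf x.1 ≤ x.2)
          = t.filter (fun x => x.1 = y ∧ q y + kf y ≤ x.2 ∧ x.2 < q y + kf y + kh y) :=
        filter_congr fun x hx => by
          constructor
          · rintro ⟨rfl, h3⟩
            exact ⟨rfl, h3, htn x hx⟩
          · rintro ⟨rfl, h3, -⟩
            exact ⟨rfl, h3⟩
      rw [h1, sum_congr rfl (g := fun _ => (khb y : ℝ) / kh y) fun x hx => by
        rw [(mem_filter.1 hx).2.1], sum_const, nsmul_eq_mul]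
    have m2 : ∑ x ∈ uS P q kf kh, (if q x.1 + kf x.1 ≤ x.2 then (khb x.1 : ℝ) / kh x.1 else 0)
        ≤ ∑ y ∈ P, (khb y : ℝ) := by
      rw [← sum_fiberwise_of_maps_to (g := fun x => x.1) fun x hx => ((mem_uS q kf kh).1 hx).1]
      refine sum_le_sum fun y hy => ?_
      rw [← sum_filter, filter_filter]
      have h1 : (uS P q kf kh).filter (fun x => x.1 = y ∧ q x.1 + kf x.1 ≤ x.2)
          = (uS P q kf kh).filter (fun x => x.1 = y ∧ q y + kf y ≤ x.2
            ∧ x.2 < q y + kf y + kh y) :=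
        filter_congr fun x hx => by
          constructor
          · rintro ⟨rfl, h3⟩
            exact ⟨rfl, h3, ((mem_uS q kf kh).1 hx).2⟩
          · rintro ⟨rfl, h3, -⟩
            exact ⟨rfl, h3⟩
      rw [h1, sum_congr rfl (g := fun _ => (khb y : ℝ) / kh y) fun x hx => by
        rw [(mem_filter.1 hx).2.1], sum_const, nsmul_eq_mul,
        uS_cntS q kf kh hy le_rfl]
      have h2 : q y + kf y + kh y - (q y + kf y) = kh y := by omega
      rw [h2]
      rcases Nat.eq_zero_or_pos (kh y) with h3 | h3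
      · rw [h3]
        simp
      · have h4 : (kh y : ℝ) ≠ 0 := by
          have : (0 : ℝ) < kh y := by exact_mod_cast h3
          exact this.ne'
        rw [mul_div_cancel₀ _ h4]
    have m3 : ∑ y ∈ P, b' y ≤ ∑ y ∈ P, (c3 y : ℝ) * ((khb y : ℝ) / kh y) := by
      refine sum_le_sum fun y hy => ?_
      obtain ⟨h1, h2⟩ := hb y hy
      rcases Nat.eq_zero_or_pos (c3 y) with h3 | h3
      · have h4 := h2 h3
        rw [h3]
        simpa using h4
      · have h4 : 0 < kh y := by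
          have := uS_cnt y (q y + kf y) (q y + kf y + kh y) (t := t)
          have h5 : c3 y ≤ kh y := by
            rw [hc3]
            show (t.filter fun x => x.1 = y ∧ q y + kf y ≤ x.2
              ∧ x.2 < q y + kf y + kh y).card ≤ kh y
            omega
          omega
        have h5 : (0 : ℝ) < kh y := by exact_mod_cast h4
        rw [← mul_div_assoc, le_div_iff₀ h5]
        linarith
    -- the pairs
    have p1 : ∑ e ∈ t.offDiag, ((if e.1.1 = e.2.1 ∧ True ∧ True then (1 : ℝ) else 0)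
        + if e.1.1 = e.2.1 ∧ q e.1.1 ≤ e.1.2 ∧ q e.2.1 ≤ e.2.2 then (1 : ℝ) else 0)
        = ∑ y ∈ P, (((c1 y + c2 y + c3 y : ℕ) : ℝ) * (((c1 y + c2 y + c3 y : ℕ) : ℝ) - 1)
          + ((c2 y + c3 y : ℕ) : ℝ) * (((c2 y + c3 y : ℕ) : ℝ) - 1)) := by
      rw [sum_add_distrib, sum_offDiag_key t P (fun x => x.1) htP (fun _ => True),
        sum_offDiag_key t P (fun x => x.1) htP (fun x => q x.1 ≤ x.2), ← sum_add_distrib]
      refine sum_congr rfl fun y _ => ?_
      rw [e123 y, e23 y]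
    have p2 : ∑ e ∈ (uS P q kf kh).offDiag,
        ((if e.1.1 = e.2.1 ∧ True ∧ True then (1 : ℝ) else 0)
        + if e.1.1 = e.2.1 ∧ q e.1.1 ≤ e.1.2 ∧ q e.2.1 ≤ e.2.2 then (1 : ℝ) else 0)
        = ∑ y ∈ P, (((q y + kf y + kh y : ℕ) : ℝ) * (((q y + kf y + kh y : ℕ) : ℝ) - 1)
          + ((kf y + kh y : ℕ) : ℝ) * (((kf y + kh y : ℕ) : ℝ) - 1)) := by
      have hsP : ∀ x ∈ uS P q kf kh, x.1 ∈ P := fun x hx => ((mem_uS q kf kh).1 hx).1
      rw [sum_add_distrib, sum_offDiag_key (uS P q kf kh) P (fun x => x.1) hsP (fun _ => True),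
        sum_offDiag_key (uS P q kf kh) P (fun x => x.1) hsP (fun x => q x.1 ≤ x.2),
        ← sum_add_distrib]
      refine sum_congr rfl fun y hy => ?_
      rw [s123 y hy, s23 y hy]
    rw [p1, p2, m1] at hav
    have h1 : 0 ≤ 2 * ((k' : ℝ) / (k : ℕ)) := by positivity
    have h2 := mul_le_mul_of_nonneg_left m2 h1
    linarith

/-- **a sub-family of `k'` of the served units on top of the fixed used ones** (`q0` PC pairs, `f0` plain), numbers
per cell; savings with the factor `ρ` (`ρ = 0` for the misses alone) -/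
theorem sub_cellsG (q0 f0 : ℕ → ℕ) (ρ : ℝ) (k' : ℕ) (hk : k' ≤ ∑ y ∈ P, (q y + kf y + kh y)) :
    ∃ q' kf' kh' : ℕ → ℕ, (∀ y ∈ P, q' y ≤ q y ∧ kf' y ≤ kf y ∧ kh' y ≤ kh y) ∧
      ∑ y ∈ P, (q' y + kf' y + kh' y) = k' ∧
      ∀ b' : ℕ → ℝ, (∀ y ∈ P, (kh y : ℝ) * b' y ≤ kh' y * khb y ∧ (kh' y = 0 → b' y ≤ 0)) →
        2 * ∑ y ∈ P, b' y - ρ * ∑ y ∈ P, (((q0 y + q' y : ℝ) + (f0 y + kf' y + kh' y))
            * ((q0 y + q' y : ℝ) + (f0 y + kf' y + kh' y) - 1)
            + (f0 y + kf' y + kh' y : ℝ) * ((f0 y + kf' y + kh' y : ℝ) - 1))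
          ≤ 2 * ((k' : ℝ) / (∑ y ∈ P, (q y + kf y + kh y) : ℕ)) * ∑ y ∈ P, (khb y : ℝ)
            - ρ * (∑ y ∈ P, (((q0 y : ℝ) + f0 y) * ((q0 y : ℝ) + f0 y - 1) + (f0 y : ℝ) * (f0 y - 1))
              + ((k' : ℝ) / (∑ y ∈ P, (q y + kf y + kh y) : ℕ)) * ∑ y ∈ P,
                (2 * ((q0 y : ℝ) + f0 y) * ((q y + kf y + kh y : ℕ) : ℝ)
                  + 2 * f0 y * ((kf y + kh y : ℕ) : ℝ))
              + ((k' : ℝ) * (k' - 1) / (((∑ y ∈ P, (q y + kf y + kh y) : ℕ) : ℝ)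
                * (((∑ y ∈ P, (q y + kf y + kh y) : ℕ) : ℝ) - 1)))
                * ∑ y ∈ P, (((q y + kf y + kh y : ℕ) : ℝ) * (((q y + kf y + kh y : ℕ) : ℝ) - 1)
                  + ((kf y + kh y : ℕ) : ℝ) * (((kf y + kh y : ℕ) : ℝ) - 1))) := by
  classical
  set k := ∑ y ∈ P, (q y + kf y + kh y) with hkdef
  obtain ⟨t, ht, htc, hav⟩ := avg_subset
    (fun x : Σ _ : ℕ, ℕ => (if q x.1 + kf x.1 ≤ x.2 then (khb x.1 : ℝ) / kh x.1 else 0)
      - ρ * (((q0 x.1 : ℝ) + f0 x.1) + if q x.1 ≤ x.2 then (f0 x.1 : ℝ) else 0))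
    (fun e => ρ * ((if e.1.1 = e.2.1 ∧ True ∧ True then (1 : ℝ) else 0)
      + if e.1.1 = e.2.1 ∧ q e.1.1 ≤ e.1.2 ∧ q e.2.1 ≤ e.2.2 then (1 : ℝ) else 0)) k' k
    (uS P q kf kh) (uS_card q kf kh) hk
  have htP : ∀ x ∈ t, x.1 ∈ P := fun x hx => ((mem_uS q kf kh).1 (ht hx)).1
  have htn : ∀ x ∈ t, x.2 < q x.1 + kf x.1 + kh x.1 := fun x hx => ((mem_uS q kf kh).1 (ht hx)).2
  -- the counts
  set c1 : ℕ → ℕ := fun y => (t.filter fun x => x.1 = y ∧ 0 ≤ x.2 ∧ x.2 < q y).card with hc1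
  set c2 : ℕ → ℕ := fun y => (t.filter fun x => x.1 = y ∧ q y ≤ x.2 ∧ x.2 < q y + kf y).card
    with hc2
  set c3 : ℕ → ℕ := fun y => (t.filter fun x => x.1 = y ∧ q y + kf y ≤ x.2
    ∧ x.2 < q y + kf y + kh y).card with hc3
  have e23 : ∀ y, (t.filter fun x => x.1 = y ∧ q x.1 ≤ x.2).card = c2 y + c3 y := fun y => by
    rw [hc2, hc3]
    show _ = (t.filter fun x => x.1 = y ∧ q y ≤ x.2 ∧ x.2 < q y + kf y).card
      + (t.filter fun x => x.1 = y ∧ q y + kf y ≤ x.2 ∧ x.2 < q y + kf y + kh y).card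
    rw [← card_union_of_disjoint, ← filter_or]
    · refine congrArg card (filter_congr fun x hx => ?_)
      constructor
      · rintro ⟨rfl, h2⟩
        rcases Nat.lt_or_ge x.2 (q x.1 + kf x.1) with h3 | h3
        · exact Or.inl ⟨rfl, h2, h3⟩
        · exact Or.inr ⟨rfl, h3, htn x hx⟩
      · rintro (⟨rfl, h2, -⟩ | ⟨rfl, h2, -⟩)
        · exact ⟨rfl, h2⟩
        · exact ⟨rfl, (Nat.le_add_right _ _).trans h2⟩
    · exact disjoint_filter.2 fun x _ h1 h2 => by omega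
  have e123 : ∀ y, (t.filter fun x => x.1 = y ∧ True).card = c1 y + c2 y + c3 y := fun y => by
    rw [add_assoc, ← e23 y, hc1]
    show _ = (t.filter fun x => x.1 = y ∧ 0 ≤ x.2 ∧ x.2 < q y).card
      + (t.filter fun x => x.1 = y ∧ q x.1 ≤ x.2).card
    rw [← card_union_of_disjoint, ← filter_or]
    · refine congrArg card (filter_congr fun x hx => ?_)
      constructor
      · rintro ⟨rfl, -⟩
        rcases Nat.lt_or_ge x.2 (q x.1) with h3 | h3
        · exact Or.inl ⟨rfl, Nat.zero_le _, h3⟩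
        · exact Or.inr ⟨rfl, h3⟩
      · rintro (⟨rfl, -⟩ | ⟨rfl, -⟩) <;> exact ⟨rfl, trivial⟩
    · refine disjoint_filter.2 fun x _ h1 h2 => ?_
      obtain ⟨rfl, -, h3⟩ := h1
      omega
  have s23 : ∀ y ∈ P, ((uS P q kf kh).filter fun x => x.1 = y ∧ q x.1 ≤ x.2).card = kf y + kh y :=
    fun y hy => by
      have h1 := uS_cntS q kf kh (a := q y) (b := q y + kf y + kh y) hy le_rfl
      have h2 : (uS P q kf kh).filter (fun x => x.1 = y ∧ q x.1 ≤ x.2)
          = (uS P q kf kh).filter (fun x => x.1 = y ∧ q y ≤ x.2 ∧ x.2 < q y + kf y + kh y) :=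
        filter_congr fun x hx => by
          constructor
          · rintro ⟨rfl, h3⟩
            exact ⟨rfl, h3, ((mem_uS q kf kh).1 hx).2⟩
          · rintro ⟨rfl, h3, -⟩
            exact ⟨rfl, h3⟩
      rw [h2, h1]
      omega
  have s123 : ∀ y ∈ P, ((uS P q kf kh).filter fun x => x.1 = y ∧ True).card
      = q y + kf y + kh y := fun y hy => by
    have h1 := uS_cntS q kf kh (a := 0) (b := q y + kf y + kh y) hy le_rfl
    have h2 : (uS P q kf kh).filter (fun x => x.1 = y ∧ True)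
        = (uS P q kf kh).filter (fun x => x.1 = y ∧ 0 ≤ x.2 ∧ x.2 < q y + kf y + kh y) :=
      filter_congr fun x hx => by
        constructor
        · rintro ⟨rfl, -⟩
          exact ⟨rfl, Nat.zero_le _, ((mem_uS q kf kh).1 hx).2⟩
        · rintro ⟨rfl, -⟩
          exact ⟨rfl, trivial⟩
    rw [h2, h1]
    omega
  refine ⟨c1, c2, c3, fun y _ => ⟨?_, ?_, ?_⟩, ?_, fun b' hb => ?_⟩
  · have := uS_cnt y 0 (q y) (t := t)
    rw [hc1]
    omega
  · have := uS_cnt y (q y) (q y + kf y) (t := t)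
    rw [hc2]
    show (t.filter fun x => x.1 = y ∧ q y ≤ x.2 ∧ x.2 < q y + kf y).card ≤ kf y
    omega
  · have := uS_cnt y (q y + kf y) (q y + kf y + kh y) (t := t)
    rw [hc3]
    show (t.filter fun x => x.1 = y ∧ q y + kf y ≤ x.2 ∧ x.2 < q y + kf y + kh y).card ≤ kh y
    omega
  · rw [← htc, card_eq_sum_card_fiberwise (f := fun x => x.1) (t := P) fun x hx =>
      mem_coe.2 (htP x (mem_coe.1 hx))]
    refine sum_congr rfl fun y _ => ?_
    rw [← e123 y]
    exact congrArg card (filter_congr fun x _ => by simp)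
  · -- the misses of `t`
    have m1 : ∑ x ∈ t, (if q x.1 + kf x.1 ≤ x.2 then (khb x.1 : ℝ) / kh x.1 else 0)
        = ∑ y ∈ P, (c3 y : ℝ) * ((khb y : ℝ) / kh y) := by
      rw [← sum_fiberwise_of_maps_to htP]
      refine sum_congr rfl fun y _ => ?_
      rw [← sum_filter, filter_filter]
      have h1 : t.filter (fun x => x.1 = y ∧ q x.1 + kf x.1 ≤ x.2)
          = t.filter (fun x => x.1 = y ∧ q y + kf y ≤ x.2 ∧ x.2 < q y + kf y + kh y) :=
        filter_congr fun x hx => by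
          constructor
          · rintro ⟨rfl, h3⟩
            exact ⟨rfl, h3, htn x hx⟩
          · rintro ⟨rfl, h3, -⟩
            exact ⟨rfl, h3⟩
      rw [h1, sum_congr rfl (g := fun _ => (khb y : ℝ) / kh y) fun x hx => by
        rw [(mem_filter.1 hx).2.1], sum_const, nsmul_eq_mul]
    have m2 : ∑ x ∈ uS P q kf kh, (if q x.1 + kf x.1 ≤ x.2 then (khb x.1 : ℝ) / kh x.1 else 0)
        ≤ ∑ y ∈ P, (khb y : ℝ) := by
      rw [← sum_fiberwise_of_maps_to (g := fun x => x.1) fun x hx => ((mem_uS q kf kh).1 hx).1]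
      refine sum_le_sum fun y hy => ?_
      rw [← sum_filter, filter_filter]
      have h1 : (uS P q kf kh).filter (fun x => x.1 = y ∧ q x.1 + kf x.1 ≤ x.2)
          = (uS P q kf kh).filter (fun x => x.1 = y ∧ q y + kf y ≤ x.2
            ∧ x.2 < q y + kf y + kh y) :=
        filter_congr fun x hx => by
          constructor
          · rintro ⟨rfl, h3⟩
            exact ⟨rfl, h3, ((mem_uS q kf kh).1 hx).2⟩
          · rintro ⟨rfl, h3, -⟩
            exact ⟨rfl, h3⟩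
      rw [h1, sum_congr rfl (g := fun _ => (khb y : ℝ) / kh y) fun x hx => by
        rw [(mem_filter.1 hx).2.1], sum_const, nsmul_eq_mul,
        uS_cntS q kf kh hy le_rfl]
      have h2 : q y + kf y + kh y - (q y + kf y) = kh y := by omega
      rw [h2]
      rcases Nat.eq_zero_or_pos (kh y) with h3 | h3
      · rw [h3]
        simp
      · have h4 : (kh y : ℝ) ≠ 0 := by
          have : (0 : ℝ) < kh y := by exact_mod_cast h3
          exact this.ne'
        rw [mul_div_cancel₀ _ h4]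
    have m3 : ∑ y ∈ P, b' y ≤ ∑ y ∈ P, (c3 y : ℝ) * ((khb y : ℝ) / kh y) := by
      refine sum_le_sum fun y hy => ?_
      obtain ⟨h1, h2⟩ := hb y hy
      rcases Nat.eq_zero_or_pos (c3 y) with h3 | h3
      · have h4 := h2 h3
        rw [h3]
        simpa using h4
      · have h4 : 0 < kh y := by
          have := uS_cnt y (q y + kf y) (q y + kf y + kh y) (t := t)
          have h5 : c3 y ≤ kh y := by
            rw [hc3]
            show (t.filter fun x => x.1 = y ∧ q y + kf y ≤ x.2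
              ∧ x.2 < q y + kf y + kh y).card ≤ kh y
            omega
          omega
        have h5 : (0 : ℝ) < kh y := by exact_mod_cast h4
        rw [← mul_div_assoc, le_div_iff₀ h5]
        linarith
    -- the pairs
    have p1 : ∑ e ∈ t.offDiag, ((if e.1.1 = e.2.1 ∧ True ∧ True then (1 : ℝ) else 0)
        + if e.1.1 = e.2.1 ∧ q e.1.1 ≤ e.1.2 ∧ q e.2.1 ≤ e.2.2 then (1 : ℝ) else 0)
        = ∑ y ∈ P, (((c1 y + c2 y + c3 y : ℕ) : ℝ) * (((c1 y + c2 y + c3 y : ℕ) : ℝ) - 1)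
          + ((c2 y + c3 y : ℕ) : ℝ) * (((c2 y + c3 y : ℕ) : ℝ) - 1)) := by
      rw [sum_add_distrib, sum_offDiag_key t P (fun x => x.1) htP (fun _ => True),
        sum_offDiag_key t P (fun x => x.1) htP (fun x => q x.1 ≤ x.2), ← sum_add_distrib]
      refine sum_congr rfl fun y _ => ?_
      rw [e123 y, e23 y]
    have p2 : ∑ e ∈ (uS P q kf kh).offDiag,
        ((if e.1.1 = e.2.1 ∧ True ∧ True then (1 : ℝ) else 0)
        + if e.1.1 = e.2.1 ∧ q e.1.1 ≤ e.1.2 ∧ q e.2.1 ≤ e.2.2 then (1 : ℝ) else 0)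
        = ∑ y ∈ P, (((q y + kf y + kh y : ℕ) : ℝ) * (((q y + kf y + kh y : ℕ) : ℝ) - 1)
          + ((kf y + kh y : ℕ) : ℝ) * (((kf y + kh y : ℕ) : ℝ) - 1)) := by
      have hsP : ∀ x ∈ uS P q kf kh, x.1 ∈ P := fun x hx => ((mem_uS q kf kh).1 hx).1
      rw [sum_add_distrib, sum_offDiag_key (uS P q kf kh) P (fun x => x.1) hsP (fun _ => True),
        sum_offDiag_key (uS P q kf kh) P (fun x => x.1) hsP (fun x => q x.1 ≤ x.2),
        ← sum_add_distrib]
      refine sum_congr rfl fun y hy => ?_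
      rw [s123 y hy, s23 y hy]
    -- the linear part
    have l1 : ∑ x ∈ t, (((q0 x.1 : ℝ) + f0 x.1) + if q x.1 ≤ x.2 then (f0 x.1 : ℝ) else 0)
        = ∑ y ∈ P, (((c1 y + c2 y + c3 y : ℕ) : ℝ) * ((q0 y : ℝ) + f0 y)
          + ((c2 y + c3 y : ℕ) : ℝ) * f0 y) := by
      rw [← sum_fiberwise_of_maps_to htP]
      refine sum_congr rfl fun y _ => ?_
      rw [sum_add_distrib]
      congr 1
      · rw [sum_congr rfl (g := fun _ => ((q0 y : ℝ) + f0 y)) fun x hx => by
          rw [(mem_filter.1 hx).2], sum_const, nsmul_eq_mul, ← e123 y]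
        simp
      · rw [← sum_filter, filter_filter, sum_congr rfl (g := fun _ => (f0 y : ℝ)) fun x hx => by
          rw [(mem_filter.1 hx).2.1], sum_const, nsmul_eq_mul, ← e23 y]
    have l2 : ∑ x ∈ uS P q kf kh, (((q0 x.1 : ℝ) + f0 x.1)
          + if q x.1 ≤ x.2 then (f0 x.1 : ℝ) else 0)
        = ∑ y ∈ P, (((q y + kf y + kh y : ℕ) : ℝ) * ((q0 y : ℝ) + f0 y)
          + ((kf y + kh y : ℕ) : ℝ) * f0 y) := by
      rw [← sum_fiberwise_of_maps_to (g := fun x => x.1) fun x hx => ((mem_uS q kf kh).1 hx).1]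
      refine sum_congr rfl fun y hy => ?_
      rw [sum_add_distrib]
      congr 1
      · rw [sum_congr rfl (g := fun _ => ((q0 y : ℝ) + f0 y)) fun x hx => by
          rw [(mem_filter.1 hx).2], sum_const, nsmul_eq_mul, ← s123 y hy]
        simp
      · rw [← sum_filter, filter_filter, sum_congr rfl (g := fun _ => (f0 y : ℝ)) fun x hx => by
          rw [(mem_filter.1 hx).2.1], sum_const, nsmul_eq_mul, ← s23 y hy]
    have r1 : ∑ y ∈ P, (((q0 y + c1 y : ℝ) + (f0 y + c2 y + c3 y))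
            * ((q0 y + c1 y : ℝ) + (f0 y + c2 y + c3 y) - 1)
            + (f0 y + c2 y + c3 y : ℝ) * ((f0 y + c2 y + c3 y : ℝ) - 1))
        = ∑ y ∈ P, (((q0 y : ℝ) + f0 y) * ((q0 y : ℝ) + f0 y - 1) + (f0 y : ℝ) * (f0 y - 1))
          + 2 * ∑ y ∈ P, (((c1 y + c2 y + c3 y : ℕ) : ℝ) * ((q0 y : ℝ) + f0 y)
            + ((c2 y + c3 y : ℕ) : ℝ) * f0 y)
          + ∑ y ∈ P, (((c1 y + c2 y + c3 y : ℕ) : ℝ) * (((c1 y + c2 y + c3 y : ℕ) : ℝ) - 1)
            + ((c2 y + c3 y : ℕ) : ℝ) * (((c2 y + c3 y : ℕ) : ℝ) - 1)) := by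
      rw [mul_sum, ← sum_add_distrib, ← sum_add_distrib]
      refine sum_congr rfl fun y _ => ?_
      push_cast
      ring
    have r2 : ∑ y ∈ P, (2 * ((q0 y : ℝ) + f0 y) * ((q y + kf y + kh y : ℕ) : ℝ)
            + 2 * f0 y * ((kf y + kh y : ℕ) : ℝ))
        = 2 * ∑ y ∈ P, (((q y + kf y + kh y : ℕ) : ℝ) * ((q0 y : ℝ) + f0 y)
          + ((kf y + kh y : ℕ) : ℝ) * f0 y) := by
      rw [mul_sum]
      refine sum_congr rfl fun y _ => ?_
      ring
    rw [r1, r2]
    rw [sum_sub_distrib, sum_sub_distrib, ← mul_sum, ← mul_sum, ← mul_sum, ← mul_sum, l1, l2, p1, p2,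
      m1] at hav
    have h1 : 0 ≤ 2 * ((k' : ℝ) / (k : ℕ)) := by positivity
    have h2 := mul_le_mul_of_nonneg_left m2 h1
    linarith

end SubCells

end Pool.Agent.Lib.MP_f04ccf_co
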