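import Pool.Agent.Lib.MP_f04ccf_co.M.RowV
import Pool.Agent.Lib.MP_f04ccf_co.M.SubAv

/-!
MP_f04ccf_co, TEXT D, middle range: **the row tests with a sub-family of the used units chosen by an average**, in
the numbers of `RowV`.

* `TesD`: the row test without the misses and savings of the used value-one units (right side minus left side);
* `avW ρ`: twice the misses minus `ρ` times the savings of the average sub-family of size `k'` of the random units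
  (`q1` PC pairs, `f1` full, all `kh` halves) on top of the fixed ones (`q0`, `f0`);
* `RowV.subG`: the row tests and tzN at such a sub-family;
* `RowV.subT`, `RowV.subN`: the numbers over `ℝ`; `RowV.tAll`, `RowV.tHlf`, `RowV.nAll`, `RowV.nHlf`: integers, for
  boxes of numbers of units (all units random | halves random, the others used).
-/

set_option autoImplicit false

namespace Pool.Agent.Lib.MP_f04ccf_co

open Finset

/-- the row test without the misses and the savings of the used units of value one (right side minus left side):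
`m` the kept hosted value, `k` used pieces of `ka` items, `b` other misses, `gain`, excess `N` -/
def TesD (R A G m k ka b gain N : ℤ) : ℤ :=
  2 * (A * (m + k) + b) + N
    - (2 * ((R - (m + k + ka)) * (m + k - G)) + (m + k - ka) * (m + k + ka + 1) + gain)

/-- twice the misses minus `ρ` times the savings, average over the sub-families of size `k'` -/
noncomputable def avW (P : Finset ℕ) (ρ : ℝ) (q0 f0 q f1 kh khb : ℕ → ℕ) (k' : ℕ) : ℝ :=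
  2 * ((k' : ℝ) / (∑ y ∈ P, (q y + f1 y + kh y) : ℕ)) * ∑ y ∈ P, (khb y : ℝ)
    - ρ * (∑ y ∈ P, (((q0 y : ℝ) + f0 y) * ((q0 y : ℝ) + f0 y - 1) + (f0 y : ℝ) * (f0 y - 1))
      + ((k' : ℝ) / (∑ y ∈ P, (q y + f1 y + kh y) : ℕ)) * ∑ y ∈ P,
        (2 * ((q0 y : ℝ) + f0 y) * ((q y + f1 y + kh y : ℕ) : ℝ)
          + 2 * f0 y * ((f1 y + kh y : ℕ) : ℝ))
      + ((k' : ℝ) * (k' - 1) / (((∑ y ∈ P, (q y + f1 y + kh y) : ℕ) : ℝ)
        * (((∑ y ∈ P, (q y + f1 y + kh y) : ℕ) : ℝ) - 1)))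
        * ∑ y ∈ P, (((q y + f1 y + kh y : ℕ) : ℝ) * (((q y + f1 y + kh y : ℕ) : ℝ) - 1)
          + ((f1 y + kh y : ℕ) : ℝ) * (((f1 y + kh y : ℕ) : ℝ) - 1)))

section SubRow

variable {R : ℕ} {P : Finset ℕ} {A d hn h : ℕ}
  {B p x q mf mh mhb mha mc mcb mcn mcv kf kh khb kha kc kca kcb kcr sg en nn : ℕ → ℕ}

/-- no halves, no misses -/
lemma RowV.khb0 (H : RowV R P A d hn h B p x q mf mh mhb mha mc mcb mcn mcv kf kh khb kha kc kca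
    kcb kcr sg en nn) {y : ℕ} (hy : y ∈ P) (h0 : kh y = 0) : khb y = 0 := by
  have h1 := H.khbM y hy R fun w _ _ b b' hS _ => by
    have := hS.2.2.1
    omega
  rw [h0, zero_mul] at h1
  omega

/-- **the tests of the row at the best sub-family of size `k'`** -/
theorem RowV.subG (H : RowV R P A d hn h B p x q mf mh mhb mha mc mcb mcn mcv kf kh khb kha kc kca
    kcb kcr sg en nn) (q0 f0 q1 f1 : ℕ → ℕ)
    (hu : ∀ y ∈ P, q0 y + q1 y ≤ q y ∧ f0 y + f1 y ≤ kf y) (ρ : ℝ) {k' : ℕ}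
    (hk : k' ≤ ∑ y ∈ P, (q1 y + f1 y + kh y)) {c : ℕ} (hc : c ≤ 1) :
    ∃ b sv : ℤ, 2 * (b : ℝ) - ρ * sv ≤ avW P ρ q0 f0 q1 f1 kh khb k' ∧
      (∀ X ⊆ P, ∀ Y ⊆ X, TesC R A d
        ((h : ℤ) + ∑ l ∈ P \ X, (x l : ℤ) + ∑ l ∈ P \ Y, (p l : ℤ))
        (∑ y ∈ P, ((q0 y : ℤ) + f0 y) + k' + c * ∑ y ∈ P, (kc y : ℤ))
        (∑ y ∈ P, ((q0 y : ℤ) + f0 y) + k' + c * ∑ y ∈ P, (kca y : ℤ))
        (b + c * ∑ y ∈ P, (kcb y : ℤ)) (sv + (hn : ℤ) * (hn - 1))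
        (blkE (fun l => (p l : ℤ)) (fun l => (sg l : ℤ)) (fun l => (en l : ℤ)) X Y
          + ∑ l ∈ P \ X, (nn l : ℤ))) ∧
      (∀ X ⊆ P, ∀ Y ⊆ X, TesC R A ((d : ℤ) + hn)
        (∑ l ∈ P \ X, (x l : ℤ) + ∑ l ∈ P \ Y, (p l : ℤ))
        (∑ y ∈ P, ((q0 y : ℤ) + f0 y) + k' + c * ∑ y ∈ P, (kc y : ℤ))
        (∑ y ∈ P, ((q0 y : ℤ) + f0 y) + k' + c * ∑ y ∈ P, (kca y : ℤ))
        (b + c * ∑ y ∈ P, (kcb y : ℤ)) (sv + 0)
        (blkE (fun l => (p l : ℤ)) (fun l => (sg l : ℤ)) (fun _ => 0) X Y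
          + ∑ l ∈ P \ X, (nn l : ℤ))) ∧
      (∀ xx : ℕ, xx ≤ ∑ l ∈ P, x l → ∀ e : ℤ,
        e = (h : ℤ) + ∑ l ∈ P, ((p l : ℤ) + x l) - xx
          + (∑ y ∈ P, ((q0 y : ℤ) + f0 y) + k' + c * ∑ y ∈ P, (kc y : ℤ)) → 2 * e ≤ R →
        (R - 2 * e) * (e - d) ≤ A * e + (b + c * ∑ y ∈ P, (kcb y : ℤ))) ∧
      (∀ xx : ℕ, xx ≤ ∑ l ∈ P, x l → ∀ e : ℤ,
        e = ∑ l ∈ P, ((p l : ℤ) + x l) - xx
          + (∑ y ∈ P, ((q0 y : ℤ) + f0 y) + k' + c * ∑ y ∈ P, (kc y : ℤ)) → 2 * e ≤ R →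
        (R - 2 * e) * (e - ((d : ℤ) + hn)) ≤ A * e + (b + c * ∑ y ∈ P, (kcb y : ℤ))) := by
  obtain ⟨q', kf', kh', hle, hsum, hav⟩ := sub_cellsG q1 f1 kh khb q0 f0 ρ k' hk
  obtain ⟨b', hb, hT, hT2, hN, hN2, -⟩ := H.row (fun y => q0 y + q' y) (fun y => f0 y + kf' y) kh'
    (fun _ => c) fun y hy => by
      obtain ⟨h1, h2, h3⟩ := hle y hy
      obtain ⟨h4, h5⟩ := hu y hy
      refine ⟨?_, ?_, h3, hc⟩
      · show q0 y + q' y ≤ q y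
        omega
      · show f0 y + kf' y ≤ kf y
        omega
  have hS : (∑ y ∈ P, ((q' y : ℤ) + kf' y + kh' y)) = k' := by
    rw [← hsum]
    push_cast
    rfl
  have e1 : ∑ y ∈ P, (((q0 y + q' y : ℕ) : ℤ) + (((f0 y + kf' y : ℕ) : ℤ) + kh' y + (c : ℤ) * kc y))
      = ∑ y ∈ P, ((q0 y : ℤ) + f0 y) + k' + c * ∑ y ∈ P, (kc y : ℤ) := by
    rw [← hS, mul_sum, ← sum_add_distrib, ← sum_add_distrib]
    refine sum_congr rfl fun y _ => ?_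
    push_cast
    ring
  have e2 : ∑ y ∈ P, (((q0 y + q' y : ℕ) : ℤ) + (((f0 y + kf' y : ℕ) : ℤ) + kh' y + (c : ℤ) * kca y))
      = ∑ y ∈ P, ((q0 y : ℤ) + f0 y) + k' + c * ∑ y ∈ P, (kca y : ℤ) := by
    rw [← hS, mul_sum, ← sum_add_distrib, ← sum_add_distrib]
    refine sum_congr rfl fun y _ => ?_
    push_cast
    ring
  have e3 : ∑ y ∈ P, (b' y + (c : ℤ) * kcb y) = ∑ y ∈ P, b' y + c * ∑ y ∈ P, (kcb y : ℤ) := by
    rw [mul_sum, ← sum_add_distrib]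
  refine ⟨∑ y ∈ P, b' y, ∑ y ∈ P, ((((q0 y + q' y : ℕ) : ℤ) + (((f0 y + kf' y : ℕ) : ℤ) + kh' y))
      * ((((q0 y + q' y : ℕ) : ℤ) + (((f0 y + kf' y : ℕ) : ℤ) + kh' y)) - 1)
      + (((f0 y + kf' y : ℕ) : ℤ) + kh' y) * ((((f0 y + kf' y : ℕ) : ℤ) + kh' y) - 1)), ?_, ?_, ?_,
      ?_, ?_⟩
  · have h1 := hav (fun y => (b' y : ℝ)) fun y hy => by
      obtain ⟨h2, h3, h4⟩ := hb y hy
      refine ⟨by exact_mod_cast h4, fun h5 => ?_⟩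
      rcases Nat.eq_zero_or_pos (kh y) with h6 | h6
      · have h7 := H.khb0 hy h6
        rw [h7] at h3
        exact_mod_cast h3
      · rw [h5] at h4
        have h7 : (kh y : ℤ) * b' y ≤ 0 := by simpa using h4
        have h8 : b' y ≤ 0 := by
          by_contra h9
          have h10 : (0 : ℤ) < (kh y : ℤ) * b' y :=
            mul_pos (by exact_mod_cast h6) (by omega)
          omega
        exact_mod_cast h8
    refine le_trans (le_of_eq ?_) h1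
    push_cast
    ring
  · intro X hX Y hY
    have h1 := hT X hX Y hY
    rw [e1, e2, e3] at h1
    exact h1
  · intro X hX Y hY
    have h1 := hT2 X hX Y hY
    rw [e1, e2, e3] at h1
    exact h1
  · intro xx hxx e he h2e
    have h1 := hN xx hxx e (by rw [e1]; exact he) h2e
    rw [e3] at h1
    exact h1
  · intro xx hxx e he h2e
    have h1 := hN2 xx hxx e (by rw [e1]; exact he) h2e
    rw [e3] at h1
    exact h1

/-! ### everything kept | nothing kept, in one form -/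

/-- the plain hosted items kept (all) or out (all): excess `G`, kept value `m`, gain, ends -/
def KepV (d hn h : ℕ) (en : ℕ → ℕ) (G m gain : ℤ) (en' : ℕ → ℤ) : Prop :=
  (G = d ∧ m = h ∧ gain = (hn : ℤ) * (hn - 1) ∧ en' = fun l => (en l : ℤ)) ∨
    (G = (d : ℤ) + hn ∧ m = 0 ∧ gain = 0 ∧ en' = fun _ => 0)

/-- the row test at the average sub-family, real numbers -/
theorem RowV.subT (H : RowV R P A d hn h B p x q mf mh mhb mha mc mcb mcn mcv kf kh khb kha kc kca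
    kcb kcr sg en nn) {q0 f0 q1 f1 : ℕ → ℕ}
    (hu : ∀ y ∈ P, q0 y + q1 y ≤ q y ∧ f0 y + f1 y ≤ kf y) {k' : ℕ}
    (hk : k' ≤ ∑ y ∈ P, (q1 y + f1 y + kh y)) {c : ℕ} (hc : c ≤ 1) {X Y : Finset ℕ} (hX : X ⊆ P)
    (hY : Y ⊆ X) {G m gain : ℤ} {en' : ℕ → ℤ} (hK : KepV d hn h en G m gain en') :
    0 ≤ (TesD R A G (m + ∑ l ∈ P \ X, (x l : ℤ) + ∑ l ∈ P \ Y, (p l : ℤ))
        (∑ y ∈ P, ((q0 y : ℤ) + f0 y) + k' + c * ∑ y ∈ P, (kc y : ℤ))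
        (∑ y ∈ P, ((q0 y : ℤ) + f0 y) + k' + c * ∑ y ∈ P, (kca y : ℤ))
        (c * ∑ y ∈ P, (kcb y : ℤ)) gain
        (blkE (fun l => (p l : ℤ)) (fun l => (sg l : ℤ)) en' X Y + ∑ l ∈ P \ X, (nn l : ℤ)) : ℝ)
      + avW P 1 q0 f0 q1 f1 kh khb k' := by
  obtain ⟨b, sv, hw, hT, hT2, -, -⟩ := H.subG q0 f0 q1 f1 hu 1 hk hc
  rw [one_mul] at hw
  rcases hK with ⟨rfl, rfl, rfl, rfl⟩ | ⟨rfl, rfl, rfl, rfl⟩
  · have h1 := hT X hX Y hY
    unfold TesC at h1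
    refine le_trans ?_ (add_le_add_right hw _)
    have h2 : (0 : ℤ) ≤ TesD R A d ((h : ℤ) + ∑ l ∈ P \ X, (x l : ℤ) + ∑ l ∈ P \ Y, (p l : ℤ))
        (∑ y ∈ P, ((q0 y : ℤ) + f0 y) + k' + c * ∑ y ∈ P, (kc y : ℤ))
        (∑ y ∈ P, ((q0 y : ℤ) + f0 y) + k' + c * ∑ y ∈ P, (kca y : ℤ))
        (c * ∑ y ∈ P, (kcb y : ℤ)) ((hn : ℤ) * (hn - 1))
        (blkE (fun l => (p l : ℤ)) (fun l => (sg l : ℤ)) (fun l => (en l : ℤ)) X Y
          + ∑ l ∈ P \ X, (nn l : ℤ)) + (2 * b - sv) := by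
      unfold TesD
      linarith
    exact_mod_cast h2
  · have h1 := hT2 X hX Y hY
    unfold TesC at h1
    refine le_trans ?_ (add_le_add_right hw _)
    have h2 : (0 : ℤ) ≤ TesD R A ((d : ℤ) + hn)
        (0 + ∑ l ∈ P \ X, (x l : ℤ) + ∑ l ∈ P \ Y, (p l : ℤ))
        (∑ y ∈ P, ((q0 y : ℤ) + f0 y) + k' + c * ∑ y ∈ P, (kc y : ℤ))
        (∑ y ∈ P, ((q0 y : ℤ) + f0 y) + k' + c * ∑ y ∈ P, (kca y : ℤ))
        (c * ∑ y ∈ P, (kcb y : ℤ)) 0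
        (blkE (fun l => (p l : ℤ)) (fun l => (sg l : ℤ)) (fun _ => 0) X Y
          + ∑ l ∈ P \ X, (nn l : ℤ)) + (2 * b - sv) := by
      unfold TesD
      rw [zero_add]
      linarith
    exact_mod_cast h2

/-- tzN at the average sub-family, real numbers -/
theorem RowV.subN (H : RowV R P A d hn h B p x q mf mh mhb mha mc mcb mcn mcv kf kh khb kha kc kca
    kcb kcr sg en nn) {q0 f0 q1 f1 : ℕ → ℕ}
    (hu : ∀ y ∈ P, q0 y + q1 y ≤ q y ∧ f0 y + f1 y ≤ kf y) {k' : ℕ}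
    (hk : k' ≤ ∑ y ∈ P, (q1 y + f1 y + kh y)) {c : ℕ} (hc : c ≤ 1) {G m gain : ℤ}
    {en' : ℕ → ℤ} (hK : KepV d hn h en G m gain en') {xx : ℕ} (hx : xx ≤ ∑ l ∈ P, x l) {e : ℤ}
    (he : e = m + ∑ l ∈ P, ((p l : ℤ) + x l) - xx
      + (∑ y ∈ P, ((q0 y : ℤ) + f0 y) + k' + c * ∑ y ∈ P, (kc y : ℤ))) (h2e : 2 * e ≤ R) :
    (((R - 2 * e) * (e - G) - A * e - c * ∑ y ∈ P, (kcb y : ℤ) : ℤ) : ℝ)
      ≤ ((k' : ℝ) / (∑ y ∈ P, (q1 y + f1 y + kh y) : ℕ)) * ∑ y ∈ P, (khb y : ℝ) := by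
  obtain ⟨b, sv, hw, -, -, hN, hN2⟩ := H.subG q0 f0 q1 f1 hu 0 hk hc
  have h0 : (b : ℝ) ≤ ((k' : ℝ) / (∑ y ∈ P, (q1 y + f1 y + kh y) : ℕ)) * ∑ y ∈ P, (khb y : ℝ) := by
    unfold avW at hw
    rw [zero_mul, zero_mul] at hw
    linarith
  refine le_trans ?_ h0
  rcases hK with ⟨rfl, rfl, rfl, rfl⟩ | ⟨rfl, rfl, rfl, rfl⟩
  · have h1 := hN xx hx e he h2e
    have h2 : (R - 2 * e) * (e - d) - A * e - c * ∑ y ∈ P, (kcb y : ℤ) ≤ b := by linarith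
    exact_mod_cast h2
  · have h1 := hN2 xx hx e (by rw [he, zero_add]) h2e
    have h2 : (R - 2 * e) * (e - ((d : ℤ) + hn)) - A * e - c * ∑ y ∈ P, (kcb y : ℤ) ≤ b := by
      linarith
    exact_mod_cast h2

/-! ### boxes of numbers of units -/

/-- from the average at `k` to constants which hold for every `k` in `[k0, k1]` -/
lemma avg_box {k' k0 k k1 : ℕ} (h1 : k' ≤ k0) (h2 : k0 ≤ k) (h3 : k ≤ k1) (h4 : 2 ≤ k1)
    {T S L V : ℝ} (hS : 0 ≤ S) (hL : 0 ≤ L) (hV : 0 ≤ V) (hV0 : k ≤ 1 → V = 0)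
    (h : 0 ≤ T + (2 * ((k' : ℝ) / k) * S - (((k' : ℝ) / k) * L
      + ((k' : ℝ) * (k' - 1) / ((k : ℝ) * ((k : ℝ) - 1))) * V))) :
    0 ≤ ((k0 : ℝ) * (k1 * ((k1 : ℝ) - 1))) * T + 2 * k' * (k1 * ((k1 : ℝ) - 1)) * S
      - k0 * k' * ((k1 : ℝ) - 1) * L - k0 * ((k' : ℝ) * (k' - 1)) * V := by
  rcases Nat.eq_zero_or_pos k with hk | hk
  · have e1 : k0 = 0 := by omega
    have e2 : k' = 0 := by omega
    rw [e1, e2]
    simp
  have hk1 : (2 : ℝ) ≤ k1 := by exact_mod_cast h4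
  have hkp : (0 : ℝ) < k := by exact_mod_cast hk
  have hk01 : (k0 : ℝ) ≤ k := by exact_mod_cast h2
  have hkk1 : (k : ℝ) ≤ k1 := by exact_mod_cast h3
  have hk0 : (0 : ℝ) ≤ k0 := Nat.cast_nonneg _
  have hk' : (0 : ℝ) ≤ k' := Nat.cast_nonneg _
  have hD : 0 ≤ (k0 : ℝ) * (k1 * ((k1 : ℝ) - 1)) := mul_nonneg hk0 (mul_nonneg (by linarith) (by linarith))
  have m1 := mul_nonneg hD h
  have a1 : (k0 : ℝ) * ((k' : ℝ) / k) ≤ k' := by
    rw [mul_div_assoc', div_le_iff₀ hkp]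
    nlinarith
  have a2 : (k' : ℝ) ≤ k1 * ((k' : ℝ) / k) := by
    rw [mul_div_assoc', le_div_iff₀ hkp]
    nlinarith
  have b1 : (k0 : ℝ) * (k1 * ((k1 : ℝ) - 1)) * (2 * ((k' : ℝ) / k) * S)
      ≤ 2 * k' * (k1 * ((k1 : ℝ) - 1)) * S := by
    have e1 : (k0 : ℝ) * (k1 * ((k1 : ℝ) - 1)) * (2 * ((k' : ℝ) / k) * S)
        = (k0 * ((k' : ℝ) / k)) * (2 * (k1 * ((k1 : ℝ) - 1)) * S) := by ring
    have e2 : 2 * k' * (k1 * ((k1 : ℝ) - 1)) * S = k' * (2 * (k1 * ((k1 : ℝ) - 1)) * S) := by ring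
    rw [e1, e2]
    refine mul_le_mul_of_nonneg_right a1 (mul_nonneg (mul_nonneg (by norm_num) (mul_nonneg ?_ ?_)) hS)
    · linarith
    · linarith
  have b2 : k0 * k' * ((k1 : ℝ) - 1) * L
      ≤ (k0 : ℝ) * (k1 * ((k1 : ℝ) - 1)) * (((k' : ℝ) / k) * L) := by
    have e1 : (k0 : ℝ) * (k1 * ((k1 : ℝ) - 1)) * (((k' : ℝ) / k) * L)
        = (k1 * ((k' : ℝ) / k)) * (k0 * ((k1 : ℝ) - 1) * L) := by ring
    have e2 : k0 * k' * ((k1 : ℝ) - 1) * L = k' * (k0 * ((k1 : ℝ) - 1) * L) := by ring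
    rw [e1, e2]
    exact mul_le_mul_of_nonneg_right a2 (mul_nonneg (mul_nonneg hk0 (by linarith)) hL)
  have b3 : k0 * ((k' : ℝ) * (k' - 1)) * V
      ≤ (k0 : ℝ) * (k1 * ((k1 : ℝ) - 1)) * (((k' : ℝ) * (k' - 1) / ((k : ℝ) * ((k : ℝ) - 1))) * V) := by
    rcases Nat.lt_or_ge k 2 with h5 | h5
    · rw [hV0 (by omega)]
      simp
    · have h6 : (2 : ℝ) ≤ k := by exact_mod_cast h5
      have hq : 0 < (k : ℝ) * ((k : ℝ) - 1) := mul_pos hkp (by linarith)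
      have hkk : 0 ≤ (k' : ℝ) * (k' - 1) := by
        rcases Nat.eq_zero_or_pos k' with h7 | h7
        · rw [h7]
          simp
        · have h8 : (1 : ℝ) ≤ k' := by exact_mod_cast h7
          exact mul_nonneg hk' (by linarith)
      have e1 : (k0 : ℝ) * (k1 * ((k1 : ℝ) - 1))
          * (((k' : ℝ) * (k' - 1) / ((k : ℝ) * ((k : ℝ) - 1))) * V)
          = (k1 * ((k1 : ℝ) - 1) / ((k : ℝ) * ((k : ℝ) - 1))) * (k0 * ((k' : ℝ) * (k' - 1)) * V) := by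
        ring
      have h9 : (1 : ℝ) ≤ k1 * ((k1 : ℝ) - 1) / ((k : ℝ) * ((k : ℝ) - 1)) := by
        rw [le_div_iff₀ hq, one_mul]
        nlinarith
      rw [e1]
      exact le_mul_of_one_le_left (mul_nonneg (mul_nonneg hk0 hkk) hV) h9
  have e9 : (k0 : ℝ) * (k1 * ((k1 : ℝ) - 1)) * (T + (2 * ((k' : ℝ) / k) * S - (((k' : ℝ) / k) * L
      + ((k' : ℝ) * (k' - 1) / ((k : ℝ) * ((k : ℝ) - 1))) * V)))
      = (k0 : ℝ) * (k1 * ((k1 : ℝ) - 1)) * T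
        + (k0 : ℝ) * (k1 * ((k1 : ℝ) - 1)) * (2 * ((k' : ℝ) / k) * S)
        - (k0 : ℝ) * (k1 * ((k1 : ℝ) - 1)) * (((k' : ℝ) / k) * L)
        - (k0 : ℝ) * (k1 * ((k1 : ℝ) - 1))
          * (((k' : ℝ) * (k' - 1) / ((k : ℝ) * ((k : ℝ) - 1))) * V) := by ring
  rw [e9] at m1
  linarith

/-- the misses, from the average at `k` to the constant `k'/k0` -/
lemma avg_boxN {k' k0 k : ℕ} (h1 : k' ≤ k0) (h2 : k0 ≤ k) {N S : ℤ} (hS : 0 ≤ S)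
    (h : (N : ℝ) ≤ ((k' : ℝ) / k) * S) : (k0 : ℤ) * N ≤ k' * S := by
  rcases Nat.eq_zero_or_pos k with hk | hk
  · have e1 : k0 = 0 := by omega
    have e2 : k' = 0 := by omega
    rw [e1, e2]
    simp
  have hkp : (0 : ℝ) < k := by exact_mod_cast hk
  have hk01 : (k0 : ℝ) ≤ k := by exact_mod_cast h2
  have hk0 : (0 : ℝ) ≤ k0 := Nat.cast_nonneg _
  have hk' : (0 : ℝ) ≤ k' := Nat.cast_nonneg _
  have hS' : (0 : ℝ) ≤ S := by exact_mod_cast hS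
  have a1 : (k0 : ℝ) * ((k' : ℝ) / k) ≤ k' := by
    rw [mul_div_assoc', div_le_iff₀ hkp]
    nlinarith
  have h3 : (k0 : ℝ) * N ≤ k' * S := by
    have m1 := mul_le_mul_of_nonneg_left h hk0
    have m2 := mul_le_mul_of_nonneg_right a1 hS'
    linarith [mul_assoc (k0 : ℝ) ((k' : ℝ) / k) (S : ℝ)]
  exact_mod_cast h3

/-- `n (n - 1)` for natural numbers -/
lemma nn1_nonneg (n : ℕ) : (0 : ℤ) ≤ (n : ℤ) * (n - 1) := by
  rcases Nat.eq_zero_or_pos n with h | h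
  · rw [h]
    simp
  · have : (1 : ℤ) ≤ n := by exact_mod_cast h
    exact mul_nonneg (Int.natCast_nonneg n) (by linarith)

lemma nn1_zero {n : ℕ} (h : n ≤ 1) : (n : ℤ) * (n - 1) = 0 := by
  interval_cases n <;> simp

/-- **(TT) the row test with `k'` of all the served units of value one used** (`q + kf + kh` of every cell) -/
theorem RowV.tAll (H : RowV R P A d hn h B p x q mf mh mhb mha mc mcb mcn mcv kf kh khb kha kc kca
    kcb kcr sg en nn) {k' k0 k1 : ℕ} (h1 : k' ≤ k0) (h2 : k0 ≤ ∑ y ∈ P, (q y + kf y + kh y))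
    (h3 : ∑ y ∈ P, (q y + kf y + kh y) ≤ k1) (h4 : 2 ≤ k1) {c : ℕ} (hc : c ≤ 1)
    {X Y : Finset ℕ} (hX : X ⊆ P) (hY : Y ⊆ X) {G m gain : ℤ} {en' : ℕ → ℤ}
    (hK : KepV d hn h en G m gain en') :
    0 ≤ ((k0 : ℤ) * (k1 * ((k1 : ℤ) - 1))) * TesD R A G
        (m + ∑ l ∈ P \ X, (x l : ℤ) + ∑ l ∈ P \ Y, (p l : ℤ))
        (k' + c * ∑ y ∈ P, (kc y : ℤ)) (k' + c * ∑ y ∈ P, (kca y : ℤ))
        (c * ∑ y ∈ P, (kcb y : ℤ)) gain
        (blkE (fun l => (p l : ℤ)) (fun l => (sg l : ℤ)) en' X Y + ∑ l ∈ P \ X, (nn l : ℤ))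
      + 2 * k' * (k1 * ((k1 : ℤ) - 1)) * ∑ y ∈ P, (khb y : ℤ)
      - k0 * ((k' : ℤ) * (k' - 1)) * ∑ y ∈ P, (((q y + kf y + kh y : ℕ) : ℤ)
          * (((q y + kf y + kh y : ℕ) : ℤ) - 1)
        + ((kf y + kh y : ℕ) : ℤ) * (((kf y + kh y : ℕ) : ℤ) - 1)) := by
  have m1 := H.subT (q0 := fun _ => 0) (f0 := fun _ => 0) (q1 := q) (f1 := kf)
    (fun y _ => ⟨by simp, by simp⟩) (h1.trans h2) hc hX hY hK
  have m2 := avg_box (L := 0) (V := ∑ y ∈ P, (((q y + kf y + kh y : ℕ) : ℝ)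
          * (((q y + kf y + kh y : ℕ) : ℝ) - 1)
        + ((kf y + kh y : ℕ) : ℝ) * (((kf y + kh y : ℕ) : ℝ) - 1)))
    (S := ∑ y ∈ P, (khb y : ℝ)) h1 h2 h3 h4 (sum_nonneg fun y _ => Nat.cast_nonneg _) le_rfl
    (sum_nonneg fun y _ => by
      have a1 := nn1_nonneg (q y + kf y + kh y)
      have a2 := nn1_nonneg (kf y + kh y)
      exact add_nonneg (by exact_mod_cast a1) (by exact_mod_cast a2))
    (fun hk => sum_eq_zero fun y hy => by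
      have a0 : q y + kf y + kh y ≤ 1 :=
        (single_le_sum (f := fun y => q y + kf y + kh y) (fun _ _ => Nat.zero_le _) hy).trans hk
      have a1 := nn1_zero a0
      have a2 := nn1_zero (n := kf y + kh y) (by omega)
      have a3 : ((q y + kf y + kh y : ℕ) : ℝ) * (((q y + kf y + kh y : ℕ) : ℝ) - 1) = 0 := by
        exact_mod_cast a1
      have a4 : ((kf y + kh y : ℕ) : ℝ) * (((kf y + kh y : ℕ) : ℝ) - 1) = 0 := by
        exact_mod_cast a2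
      rw [a3, a4, add_zero])
    (T := (TesD R A G (m + ∑ l ∈ P \ X, (x l : ℤ) + ∑ l ∈ P \ Y, (p l : ℤ))
        (k' + c * ∑ y ∈ P, (kc y : ℤ)) (k' + c * ∑ y ∈ P, (kca y : ℤ))
        (c * ∑ y ∈ P, (kcb y : ℤ)) gain
        (blkE (fun l => (p l : ℤ)) (fun l => (sg l : ℤ)) en' X Y
          + ∑ l ∈ P \ X, (nn l : ℤ)) : ℝ)) (by
      refine le_trans m1 (le_of_eq ?_)
      unfold avW
      simp only [Nat.cast_zero, add_zero, zero_add, mul_zero, zero_mul, zero_sub, sum_const_zero,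
        one_mul])
  rw [mul_zero, sub_zero] at m2
  have m3 := m2
  exact_mod_cast m3

/-- **(TT) the row test with `j` of the served halves used on top of `q0` PC pairs and `f0` full ones** -/
theorem RowV.tHlf (H : RowV R P A d hn h B p x q mf mh mhb mha mc mcb mcn mcv kf kh khb kha kc kca
    kcb kcr sg en nn) {q0 f0 : ℕ → ℕ} (hu : ∀ y ∈ P, q0 y ≤ q y ∧ f0 y ≤ kf y) {j k0 k1 : ℕ}
    (h1 : j ≤ k0) (h2 : k0 ≤ ∑ y ∈ P, kh y) (h3 : ∑ y ∈ P, kh y ≤ k1) (h4 : 2 ≤ k1) {c : ℕ}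
    (hc : c ≤ 1) {X Y : Finset ℕ} (hX : X ⊆ P) (hY : Y ⊆ X) {G m gain : ℤ} {en' : ℕ → ℤ}
    (hK : KepV d hn h en G m gain en') :
    0 ≤ ((k0 : ℤ) * (k1 * ((k1 : ℤ) - 1))) * (TesD R A G
        (m + ∑ l ∈ P \ X, (x l : ℤ) + ∑ l ∈ P \ Y, (p l : ℤ))
        (∑ y ∈ P, ((q0 y : ℤ) + f0 y) + j + c * ∑ y ∈ P, (kc y : ℤ))
        (∑ y ∈ P, ((q0 y : ℤ) + f0 y) + j + c * ∑ y ∈ P, (kca y : ℤ))
        (c * ∑ y ∈ P, (kcb y : ℤ)) gain
        (blkE (fun l => (p l : ℤ)) (fun l => (sg l : ℤ)) en' X Y + ∑ l ∈ P \ X, (nn l : ℤ))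
        - ∑ y ∈ P, (((q0 y : ℤ) + f0 y) * ((q0 y : ℤ) + f0 y - 1) + (f0 y : ℤ) * (f0 y - 1)))
      + 2 * j * (k1 * ((k1 : ℤ) - 1)) * ∑ y ∈ P, (khb y : ℤ)
      - k0 * j * ((k1 : ℤ) - 1) * ∑ y ∈ P, (2 * ((q0 y : ℤ) + f0 y) * kh y + 2 * f0 y * kh y)
      - k0 * ((j : ℤ) * (j - 1)) * ∑ y ∈ P, (2 * ((kh y : ℤ) * (kh y - 1))) := by
  have e0 : ∑ y ∈ P, (0 + 0 + kh y) = ∑ y ∈ P, kh y := sum_congr rfl fun y _ => by omega
  have m1 := H.subT (q0 := q0) (f0 := f0) (q1 := fun _ => 0) (f1 := fun _ => 0)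
    (fun y hy => by simpa using hu y hy) (k' := j) (by rw [e0]; exact h1.trans h2) hc hX hY hK
  have m2 := avg_box (L := ∑ y ∈ P, (2 * ((q0 y : ℝ) + f0 y) * kh y + 2 * f0 y * kh y))
    (V := ∑ y ∈ P, (2 * ((kh y : ℝ) * (kh y - 1))))
    (S := ∑ y ∈ P, (khb y : ℝ)) h1 h2 h3 h4 (sum_nonneg fun y _ => Nat.cast_nonneg _)
    (sum_nonneg fun y _ => by positivity)
    (sum_nonneg fun y _ => by
      have a1 := nn1_nonneg (kh y)
      have a2 : (0 : ℝ) ≤ (kh y : ℝ) * (kh y - 1) := by exact_mod_cast a1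
      linarith)
    (fun hk => sum_eq_zero fun y hy => by
      have a0 : kh y ≤ 1 :=
        (single_le_sum (f := fun y => kh y) (fun _ _ => Nat.zero_le _) hy).trans hk
      have a1 := nn1_zero a0
      have a3 : (kh y : ℝ) * ((kh y : ℝ) - 1) = 0 := by exact_mod_cast a1
      rw [a3, mul_zero])
    (T := ((TesD R A G (m + ∑ l ∈ P \ X, (x l : ℤ) + ∑ l ∈ P \ Y, (p l : ℤ))
        (∑ y ∈ P, ((q0 y : ℤ) + f0 y) + j + c * ∑ y ∈ P, (kc y : ℤ))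
        (∑ y ∈ P, ((q0 y : ℤ) + f0 y) + j + c * ∑ y ∈ P, (kca y : ℤ))
        (c * ∑ y ∈ P, (kcb y : ℤ)) gain
        (blkE (fun l => (p l : ℤ)) (fun l => (sg l : ℤ)) en' X Y
          + ∑ l ∈ P \ X, (nn l : ℤ)) : ℤ) : ℝ)
        - ∑ y ∈ P, (((q0 y : ℝ) + f0 y) * ((q0 y : ℝ) + f0 y - 1) + (f0 y : ℝ) * (f0 y - 1))) (by
      refine le_trans m1 (le_of_eq ?_)
      unfold avW
      have e1 : ∑ y ∈ P, (((0 + 0 + kh y : ℕ) : ℝ) * (((0 + 0 + kh y : ℕ) : ℝ) - 1)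
          + ((0 + kh y : ℕ) : ℝ) * (((0 + kh y : ℕ) : ℝ) - 1))
          = ∑ y ∈ P, (2 * ((kh y : ℝ) * (kh y - 1))) := sum_congr rfl fun y _ => by
        rw [zero_add, zero_add]
        ring
      have e2 : ∑ y ∈ P, (2 * ((q0 y : ℝ) + f0 y) * ((0 + 0 + kh y : ℕ) : ℝ)
          + 2 * f0 y * ((0 + kh y : ℕ) : ℝ))
          = ∑ y ∈ P, (2 * ((q0 y : ℝ) + f0 y) * kh y + 2 * f0 y * kh y) :=
        sum_congr rfl fun y _ => by rw [zero_add, zero_add]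
      simp only [e0, e1, e2]
      ring)
  have m3 := m2
  exact_mod_cast m3

/-- **(TN) tzN with `k'` of all the served units of value one used** -/
theorem RowV.nAll (H : RowV R P A d hn h B p x q mf mh mhb mha mc mcb mcn mcv kf kh khb kha kc kca
    kcb kcr sg en nn) {k' k0 : ℕ} (h1 : k' ≤ k0) (h2 : k0 ≤ ∑ y ∈ P, (q y + kf y + kh y))
    {c : ℕ} (hc : c ≤ 1) {G m gain : ℤ} {en' : ℕ → ℤ} (hK : KepV d hn h en G m gain en')
    {xx : ℕ} (hx : xx ≤ ∑ l ∈ P, x l) {e : ℤ}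
    (he : e = m + ∑ l ∈ P, ((p l : ℤ) + x l) - xx + (k' + c * ∑ y ∈ P, (kc y : ℤ)))
    (h2e : 2 * e ≤ R) :
    (k0 : ℤ) * ((R - 2 * e) * (e - G) - A * e - c * ∑ y ∈ P, (kcb y : ℤ))
      ≤ k' * ∑ y ∈ P, (khb y : ℤ) := by
  have m1 := H.subN (q0 := fun _ => 0) (f0 := fun _ => 0) (q1 := q) (f1 := kf)
    (fun y _ => ⟨by simp, by simp⟩) (h1.trans h2) hc hK hx (e := e) (by
      rw [he]
      simp) h2e
  refine avg_boxN h1 h2 (sum_nonneg fun y _ => Int.natCast_nonneg _) (m1.trans (le_of_eq ?_))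
  push_cast
  rfl

/-- **(TN) tzN with `j` of the served halves used on top of `q0` PC pairs and `f0` full ones** -/
theorem RowV.nHlf (H : RowV R P A d hn h B p x q mf mh mhb mha mc mcb mcn mcv kf kh khb kha kc kca
    kcb kcr sg en nn) {q0 f0 : ℕ → ℕ} (hu : ∀ y ∈ P, q0 y ≤ q y ∧ f0 y ≤ kf y) {j k0 : ℕ}
    (h1 : j ≤ k0) (h2 : k0 ≤ ∑ y ∈ P, kh y)
    {c : ℕ} (hc : c ≤ 1) {G m gain : ℤ} {en' : ℕ → ℤ} (hK : KepV d hn h en G m gain en')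
    {xx : ℕ} (hx : xx ≤ ∑ l ∈ P, x l) {e : ℤ}
    (he : e = m + ∑ l ∈ P, ((p l : ℤ) + x l) - xx
      + (∑ y ∈ P, ((q0 y : ℤ) + f0 y) + j + c * ∑ y ∈ P, (kc y : ℤ)))
    (h2e : 2 * e ≤ R) :
    (k0 : ℤ) * ((R - 2 * e) * (e - G) - A * e - c * ∑ y ∈ P, (kcb y : ℤ))
      ≤ j * ∑ y ∈ P, (khb y : ℤ) := by
  have e0 : ∑ y ∈ P, (0 + 0 + kh y) = ∑ y ∈ P, kh y := sum_congr rfl fun y _ => by omega
  have m1 := H.subN (q0 := q0) (f0 := f0) (q1 := fun _ => 0) (f1 := fun _ => 0)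
    (fun y hy => by simpa using hu y hy) (k' := j) (by rw [e0]; exact h1.trans h2) hc hK hx he h2e
  refine avg_boxN h1 h2 (sum_nonneg fun y _ => Int.natCast_nonneg _) (m1.trans (le_of_eq ?_))
  rw [e0]
  push_cast
  rfl

end SubRow

end Pool.Agent.Lib.MP_f04ccf_co
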