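import Pool.Agent.Lib.MP_f04ccf_co.M.MidC
import Pool.Agent.Lib.MP_f04ccf_co.M.SubRow

/-!
MP_f04ccf_co, TEXT D, middle range: **the row tests and tzN of a row as (state part) + (sum of cell parts)**, for
boxes of states; sub-families of the served halves (or of all served units of value one) by the average.

* `TKd`: which test: `xy` = 0 all PC pairs kept | 1 Konig pairs out, block pairs kept | 2 all PC pairs out; `th` = 1
  the hosted plain items kept | 0 out; `uq`, `uf` = 1 all served PC pairs, full units used; `c` = 1 all clique ends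
  used; `j` served halves used, `k0 ≤ number of the halves ≤ k1`;
* `TKd.st`, `TKd.ce`, **`RowV.tKd`**: `0 ≤ st (state) + ∑ ce (content)`;
* `TKd.sn`, `TKd.cn`, **`RowV.nKd`**: the same for tzN; `RowV.tKa`, `RowV.nKa`: `j` of ALL the served units;
* `st_cvx`, `sn_cvx`: the state parts are convex in every letter; `Cvx.le_ends`: the largest value is at an end.
-/

set_option autoImplicit false

namespace Pool.Agent.Lib.MP_f04ccf_co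

open Finset

/-- a kind of row test -/
structure TKd where
  (xy th uq uf c j k0 k1 : ℕ)

namespace TKd

/-- the scale -/
def sc (κ : TKd) : ℤ := (κ.k0 : ℤ) * (κ.k1 * ((κ.k1 : ℤ) - 1))

/-- the kept PC pairs -/
def pcs (κ : TKd) (P X : ℤ) : ℤ := if κ.xy = 0 then X + P else if κ.xy = 1 then P else 0

/-- the row test without contents: state `G` (`d` | `d + hn`), `h`, `P`, `X`, `K`, `F` (full served), `C`, `Ca` -/
def st (κ : TKd) (R A pm gn G h P X K F C Ca : ℤ) : ℤ :=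
  κ.sc * (TesD R A G (κ.th * h + κ.pcs P X) (κ.uq * K + κ.uf * F + κ.j + κ.c * C)
    (κ.uq * K + κ.uf * F + κ.j + κ.c * Ca) 0 (κ.th * gn) 0
    + if κ.xy = 2 then 2 * (pm * (A - G + κ.th * h)) else 0)

/-- the part of a cell: `nb` bound of the excess of its PC pairs, `kb` misses of the served halves, `cb` misses of
the served clique ends -/
def ce (κ : TKd) (p q k0 k2 nb kb cb : ℤ) : ℤ :=
  κ.sc * ((if κ.xy = 0 then nb else if κ.xy = 1 then p * (p + 1) else 0) + 2 * (κ.c * cb)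
    - ((κ.uq * q + κ.uf * k0) * (κ.uq * q + κ.uf * k0 - 1) + (κ.uf * k0) * (κ.uf * k0 - 1)))
  + 2 * κ.j * (κ.k1 * ((κ.k1 : ℤ) - 1)) * kb
  - κ.k0 * κ.j * ((κ.k1 : ℤ) - 1) * (2 * (κ.uq * q + κ.uf * k0) * k2 + 2 * (κ.uf * k0) * k2)
  - κ.k0 * ((κ.j : ℤ) * (κ.j - 1)) * (2 * (k2 * (k2 - 1)))

/-- tzN without contents -/
def sn (κ : TKd) (R A G h P X K F C : ℤ) : ℤ :=
  -((κ.k0 : ℤ) * ((R - 2 * (κ.th * h + κ.pcs P X + (κ.uq * K + κ.uf * F + κ.j + κ.c * C)))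
      * (κ.th * h + κ.pcs P X + (κ.uq * K + κ.uf * F + κ.j + κ.c * C) - G)
    - A * (κ.th * h + κ.pcs P X + (κ.uq * K + κ.uf * F + κ.j + κ.c * C))))

/-- tzN, the part of a cell -/
def cn (κ : TKd) (kb cb : ℤ) : ℤ := κ.j * kb + κ.k0 * (κ.c * cb)

/-- `j` of all the served units of value one: the row test without contents, state `G`, `h`, `P`, `X`, `C`, `Ca` -/
def sta (κ : TKd) (R A pm gn G h P X C Ca : ℤ) : ℤ := κ.st R A pm gn G h P X 0 0 C Ca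

/-- `j` of all the served units of value one: the part of a cell -/
def cea (κ : TKd) (p q k0 k2 nb kb cb : ℤ) : ℤ :=
  κ.sc * ((if κ.xy = 0 then nb else if κ.xy = 1 then p * (p + 1) else 0) + 2 * (κ.c * cb))
  + 2 * κ.j * (κ.k1 * ((κ.k1 : ℤ) - 1)) * kb
  - κ.k0 * ((κ.j : ℤ) * (κ.j - 1))
    * ((q + k0 + k2) * (q + k0 + k2 - 1) + (k0 + k2) * (k0 + k2 - 1))

end TKd

section MidT

variable {R : ℕ} {P : Finset ℕ} {A d hn h : ℕ}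
  {B p x q mf mh mhb mha mc mcb mcn mcv kf kh khb kha kc kca kcb kcr sg en nn : ℕ → ℕ}

/-- the sets of the PC pairs out -/
lemma xy_sets (xy : ℕ) (P : Finset ℕ) : ∃ X Y : Finset ℕ, X ⊆ P ∧ Y ⊆ X ∧
    ((xy = 0 ∧ X = ∅ ∧ Y = ∅) ∨ (xy = 1 ∧ X = P ∧ Y = ∅) ∨ (xy ≠ 0 ∧ xy ≠ 1 ∧ X = P ∧ Y = P)) := by
  rcases Nat.eq_zero_or_pos xy with h | h
  · exact ⟨∅, ∅, empty_subset _, empty_subset _, Or.inl ⟨h, rfl, rfl⟩⟩
  · by_cases h1 : xy = 1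
    · exact ⟨P, ∅, Subset.refl _, empty_subset _, Or.inr (Or.inl ⟨h1, rfl, rfl⟩)⟩
    · exact ⟨P, P, Subset.refl _, Subset.refl _, Or.inr (Or.inr ⟨by omega, h1, rfl, rfl⟩)⟩

/-- the excess of the PC pairs of a kind of row test -/
lemma RowV.xy_N (V : RowV R P A d hn h B p x q mf mh mhb mha mc mcb mcn mcv kf kh khb kha kc kca
    kcb kcr sg en nn) {pm : ℕ} (hpm : ∀ l ∈ P, p l ≤ pm) {nb : ℕ → ℤ}
    (hnb : ∀ y ∈ P, (nn y : ℤ) ≤ nb y) {xy th : ℕ} (hxy : xy ≤ 2) (hth : th ≤ 1) {G m gain : ℤ}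
    {en' : ℕ → ℤ} (hm : G = d + (1 - (th : ℤ)) * hn ∧ m = th * h ∧ gain = th * ((hn : ℤ) * (hn - 1)) ∧
      en' = fun l => (th : ℤ) * en l) {X Y : Finset ℕ}
    (hXY : (xy = 0 ∧ X = ∅ ∧ Y = ∅) ∨ (xy = 1 ∧ X = P ∧ Y = ∅) ∨
      (xy ≠ 0 ∧ xy ≠ 1 ∧ X = P ∧ Y = P)) :
    blkE (fun l => (p l : ℤ)) (fun l => (sg l : ℤ)) en' X Y + ∑ l ∈ P \ X, (nn l : ℤ)
      ≤ (if xy = 2 then 2 * ((pm : ℤ) * (A - G + th * h)) else 0)
        + ∑ y ∈ P, (if xy = 0 then nb y else if xy = 1 then (p y : ℤ) * (p y + 1) else 0) ∧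
    m + ∑ l ∈ P \ X, (x l : ℤ) + ∑ l ∈ P \ Y, (p l : ℤ)
      = th * h + (if xy = 0 then ∑ l ∈ P, (x l : ℤ) + ∑ l ∈ P, (p l : ℤ)
        else if xy = 1 then ∑ l ∈ P, (p l : ℤ) else 0) := by
  obtain ⟨hG, hm1, hg, he⟩ := hm
  rcases hXY with ⟨h0, rfl, rfl⟩ | ⟨h1, rfl, rfl⟩ | ⟨h2, h3, rfl, rfl⟩
  · subst h0
    have h2 : ¬ ((0 : ℕ) = 2) := by norm_num
    unfold blkE
    rw [if_neg h2, sdiff_empty, sdiff_empty]
    simp only [sum_empty, if_true, mul_zero, add_zero, zero_add]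
    refine ⟨sum_le_sum hnb, ?_⟩
    rw [hm1]
    ring
  · subst h1
    have h2 : ¬ ((1 : ℕ) = 2) := by norm_num
    have h3 : ¬ ((1 : ℕ) = 0) := by norm_num
    unfold blkE
    rw [if_neg h2, sdiff_empty, Finset.sdiff_self]
    simp only [sum_empty, if_neg h3, if_true, mul_zero, add_zero, zero_add]
    refine ⟨le_rfl, ?_⟩
    rw [hm1]
  · have h4 : xy = 2 := by omega
    subst h4
    have h5 : ¬ ((2 : ℕ) = 0) := by norm_num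
    have h6 : ¬ ((2 : ℕ) = 1) := by norm_num
    unfold blkE
    rw [Finset.sdiff_self]
    simp only [sum_empty, if_neg h5, if_neg h6, if_true, sum_const_zero, add_zero, zero_add]
    refine ⟨?_, by rw [hm1]⟩
    have g1 : ∑ l ∈ Y, (p l : ℤ) * ((sg l : ℤ) + en' l)
        ≤ ∑ l ∈ Y, (pm : ℤ) * ((sg l : ℤ) + en' l) := by
      refine sum_le_sum fun l hl => mul_le_mul_of_nonneg_right (by exact_mod_cast hpm l hl) ?_
      rw [he]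
      positivity
    rw [← mul_sum] at g1
    have g2 : ∑ l ∈ Y, ((sg l : ℤ) + en' l) ≤ A - G + th * h := by
      have a1 : ((∑ y ∈ Y, sg y + hn + d : ℕ) : ℤ) ≤ A := by exact_mod_cast V.sgs
      have a2 : ((∑ y ∈ Y, (en y + mf y) : ℕ) : ℤ) ≤ ((h + hn : ℕ) : ℤ) := by exact_mod_cast V.ens
      push_cast at a1 a2
      rw [sum_add_distrib] at a2
      have a3 : (0 : ℤ) ≤ ∑ y ∈ Y, (mf y : ℤ) := sum_nonneg fun _ _ => Nat.cast_nonneg _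
      rw [he, sum_add_distrib, ← mul_sum, hG]
      rcases Nat.le_one_iff_eq_zero_or_eq_one.1 hth with h7 | h7
      · rw [h7]
        push_cast
        linarith
      · rw [h7]
        push_cast
        linarith
    have g3 := mul_le_mul_of_nonneg_left g2 (Nat.cast_nonneg (α := ℤ) pm)
    linarith

lemma kepV_of {d hn h th : ℕ} {en : ℕ → ℕ} (hth : th ≤ 1) :
    KepV d hn h en (d + (1 - (th : ℤ)) * hn) (th * h) (th * ((hn : ℤ) * (hn - 1)))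
      (fun l => (th : ℤ) * en l) := by
  rcases Nat.le_one_iff_eq_zero_or_eq_one.1 hth with h7 | h7
  · rw [h7]
    right
    refine ⟨by push_cast; ring, by simp, by simp, ?_⟩
    ext l
    simp
  · rw [h7]
    left
    refine ⟨by push_cast; ring, by simp, by simp, ?_⟩
    ext l
    simp

lemma TesD_mono {R A G m k ka b gain N gain' N' : ℤ} (h1 : gain' ≤ gain) (h2 : N ≤ N') :
    TesD R A G m k ka b gain N ≤ TesD R A G m k ka b gain' N' := by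
  unfold TesD
  linarith

lemma TesD_N {R A G m k ka b gain N : ℤ} :
    TesD R A G m k ka b gain N = TesD R A G m k ka 0 gain 0 + 2 * b + N := by
  unfold TesD
  ring

/-- **THE ROW TEST as state part + cell parts**, `j` of the served halves used by average -/
theorem RowV.tKd (V : RowV R P A d hn h B p x q mf mh mhb mha mc mcb mcn mcv kf kh khb kha kc kca
    kcb kcr sg en nn) {pm : ℕ} (hpm : ∀ l ∈ P, p l ≤ pm) {nb : ℕ → ℤ}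
    (hnb : ∀ y ∈ P, (nn y : ℤ) ≤ nb y) (κ : TKd) (hxy : κ.xy ≤ 2) (hth : κ.th ≤ 1)
    (huq : κ.uq ≤ 1) (huf : κ.uf ≤ 1) (hc : κ.c ≤ 1)
    (h1 : κ.j = 0 ∨ (κ.j ≤ κ.k0 ∧ κ.k0 ≤ ∑ y ∈ P, kh y)) (h3 : ∑ y ∈ P, kh y ≤ κ.k1)
    (h4 : 2 ≤ κ.k1) {gn : ℤ} (hgn : gn ≤ (hn : ℤ) * (hn - 1)) {G : ℤ}
    (hG : G = d + (1 - (κ.th : ℤ)) * hn) :
    0 ≤ κ.st R A pm gn G h (∑ l ∈ P, (p l : ℤ)) (∑ l ∈ P, (x l : ℤ)) (∑ y ∈ P, (q y : ℤ))
        (∑ y ∈ P, (kf y : ℤ)) (∑ y ∈ P, (kc y : ℤ)) (∑ y ∈ P, (kca y : ℤ))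
      + ∑ y ∈ P, κ.ce (p y) (q y) (kf y) (kh y) (nb y) (khb y) (kcb y) := by
  obtain ⟨X, Y, hX, hY, hXY⟩ := xy_sets κ.xy P
  obtain ⟨hN, hm⟩ := V.xy_N hpm hnb hxy hth ⟨rfl, rfl, rfl, rfl⟩ hXY
  have hK := kepV_of (d := d) (hn := hn) (h := h) (en := en) hth
  have hu : ∀ y ∈ P, κ.uq * q y ≤ q y ∧ κ.uf * kf y ≤ kf y := fun y _ =>
    ⟨by nlinarith, by nlinarith⟩
  have e1 : ∑ y ∈ P, (((κ.uq * q y : ℕ) : ℤ) + (κ.uf * kf y : ℕ))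
      = κ.uq * ∑ y ∈ P, (q y : ℤ) + κ.uf * ∑ y ∈ P, (kf y : ℤ) := by
    rw [mul_sum, mul_sum, ← sum_add_distrib]
    exact sum_congr rfl fun y _ => by push_cast; ring
  have hsc : 0 ≤ κ.sc := by
    unfold TKd.sc
    have : (2 : ℤ) ≤ κ.k1 := by exact_mod_cast h4
    exact mul_nonneg (Nat.cast_nonneg _) (mul_nonneg (by linarith) (by linarith))
  -- the row test in one inequality
  have key : 0 ≤ κ.sc * (TesD R A (d + (1 - (κ.th : ℤ)) * hn)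
        (κ.th * h + ∑ l ∈ P \ X, (x l : ℤ) + ∑ l ∈ P \ Y, (p l : ℤ))
        (κ.uq * ∑ y ∈ P, (q y : ℤ) + κ.uf * ∑ y ∈ P, (kf y : ℤ) + κ.j + κ.c * ∑ y ∈ P, (kc y : ℤ))
        (κ.uq * ∑ y ∈ P, (q y : ℤ) + κ.uf * ∑ y ∈ P, (kf y : ℤ) + κ.j + κ.c * ∑ y ∈ P, (kca y : ℤ))
        (κ.c * ∑ y ∈ P, (kcb y : ℤ)) (κ.th * ((hn : ℤ) * (hn - 1)))
        (blkE (fun l => (p l : ℤ)) (fun l => (sg l : ℤ)) (fun l => (κ.th : ℤ) * en l) X Y
          + ∑ l ∈ P \ X, (nn l : ℤ))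
        - ∑ y ∈ P, ((((κ.uq * q y : ℕ) : ℤ) + (κ.uf * kf y : ℕ))
            * ((((κ.uq * q y : ℕ) : ℤ) + (κ.uf * kf y : ℕ)) - 1)
          + ((κ.uf * kf y : ℕ) : ℤ) * (((κ.uf * kf y : ℕ) : ℤ) - 1)))
      + 2 * κ.j * (κ.k1 * ((κ.k1 : ℤ) - 1)) * ∑ y ∈ P, (khb y : ℤ)
      - κ.k0 * κ.j * ((κ.k1 : ℤ) - 1) * ∑ y ∈ P, (2 * (((κ.uq * q y : ℕ) : ℤ) + (κ.uf * kf y : ℕ))
          * kh y + 2 * (κ.uf * kf y : ℕ) * kh y)
      - κ.k0 * ((κ.j : ℤ) * (κ.j - 1)) * ∑ y ∈ P, (2 * ((kh y : ℤ) * (kh y - 1))) := by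
    rcases h1 with h1 | ⟨h1, h2⟩
    · -- `j = 0`
      have m1 := V.subT (q0 := fun y => κ.uq * q y) (f0 := fun y => κ.uf * kf y) (q1 := fun _ => 0)
        (f1 := fun _ => 0) (fun y hy => by simpa using hu y hy) (k' := 0) (Nat.zero_le _) hc hX hY hK
      unfold avW at m1
      rw [e1] at m1
      simp only [Nat.cast_zero, zero_div, mul_zero, zero_mul, add_zero, zero_sub, one_mul] at m1
      have m2 : (0 : ℤ) ≤ TesD R A (d + (1 - (κ.th : ℤ)) * hn)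
        (κ.th * h + ∑ l ∈ P \ X, (x l : ℤ) + ∑ l ∈ P \ Y, (p l : ℤ))
        (κ.uq * ∑ y ∈ P, (q y : ℤ) + κ.uf * ∑ y ∈ P, (kf y : ℤ) + κ.c * ∑ y ∈ P, (kc y : ℤ))
        (κ.uq * ∑ y ∈ P, (q y : ℤ) + κ.uf * ∑ y ∈ P, (kf y : ℤ) + κ.c * ∑ y ∈ P, (kca y : ℤ))
        (κ.c * ∑ y ∈ P, (kcb y : ℤ)) (κ.th * ((hn : ℤ) * (hn - 1)))
        (blkE (fun l => (p l : ℤ)) (fun l => (sg l : ℤ)) (fun l => (κ.th : ℤ) * en l) X Y
          + ∑ l ∈ P \ X, (nn l : ℤ))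
        + -∑ y ∈ P, ((((κ.uq * q y : ℕ) : ℤ) + (κ.uf * kf y : ℕ))
            * ((((κ.uq * q y : ℕ) : ℤ) + (κ.uf * kf y : ℕ)) - 1)
          + ((κ.uf * kf y : ℕ) : ℤ) * (((κ.uf * kf y : ℕ) : ℤ) - 1)) := by
        have m3 := m1
        exact_mod_cast m3
      rw [h1]
      simp only [Nat.cast_zero, mul_zero, zero_mul, add_zero, sub_zero]
      refine mul_nonneg hsc ?_
      linarith
    · have m1 := V.tHlf (q0 := fun y => κ.uq * q y) (f0 := fun y => κ.uf * kf y) hu h1 h2 h3 h4 hc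
        hX hY hK
      rw [e1] at m1
      unfold TKd.sc
      exact m1
  rw [TesD_N, hm] at key
  unfold TKd.st TKd.ce
  rw [hG]
  have e2 : (if κ.xy = 0 then ∑ l ∈ P, (x l : ℤ) + ∑ l ∈ P, (p l : ℤ)
        else if κ.xy = 1 then ∑ l ∈ P, (p l : ℤ) else 0)
      = κ.pcs (∑ l ∈ P, (p l : ℤ)) (∑ l ∈ P, (x l : ℤ)) := rfl
  rw [e2] at key
  have k1 : TesD R A (d + (1 - (κ.th : ℤ)) * hn)
        (κ.th * h + κ.pcs (∑ l ∈ P, (p l : ℤ)) (∑ l ∈ P, (x l : ℤ)))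
        (κ.uq * ∑ y ∈ P, (q y : ℤ) + κ.uf * ∑ y ∈ P, (kf y : ℤ) + κ.j + κ.c * ∑ y ∈ P, (kc y : ℤ))
        (κ.uq * ∑ y ∈ P, (q y : ℤ) + κ.uf * ∑ y ∈ P, (kf y : ℤ) + κ.j + κ.c * ∑ y ∈ P, (kca y : ℤ))
        0 (κ.th * ((hn : ℤ) * (hn - 1))) 0
      ≤ TesD R A (d + (1 - (κ.th : ℤ)) * hn)
        (κ.th * h + κ.pcs (∑ l ∈ P, (p l : ℤ)) (∑ l ∈ P, (x l : ℤ)))
        (κ.uq * ∑ y ∈ P, (q y : ℤ) + κ.uf * ∑ y ∈ P, (kf y : ℤ) + κ.j + κ.c * ∑ y ∈ P, (kc y : ℤ))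
        (κ.uq * ∑ y ∈ P, (q y : ℤ) + κ.uf * ∑ y ∈ P, (kf y : ℤ) + κ.j + κ.c * ∑ y ∈ P, (kca y : ℤ))
        0 (κ.th * gn) 0 :=
    TesD_mono (mul_le_mul_of_nonneg_left hgn (Nat.cast_nonneg _)) le_rfl
  have k2 := mul_le_mul_of_nonneg_left (add_le_add k1 hN) hsc
  have e3 : ∑ y ∈ P, (κ.sc * ((if κ.xy = 0 then nb y else if κ.xy = 1 then (p y : ℤ) * (p y + 1)
        else 0) + 2 * (κ.c * (kcb y : ℤ))
        - ((κ.uq * (q y : ℤ) + κ.uf * (kf y : ℤ)) * (κ.uq * (q y : ℤ) + κ.uf * (kf y : ℤ) - 1)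
          + (κ.uf * (kf y : ℤ)) * (κ.uf * (kf y : ℤ) - 1)))
      + 2 * κ.j * (κ.k1 * ((κ.k1 : ℤ) - 1)) * (khb y : ℤ)
      - κ.k0 * κ.j * ((κ.k1 : ℤ) - 1) * (2 * (κ.uq * (q y : ℤ) + κ.uf * (kf y : ℤ)) * (kh y : ℤ)
          + 2 * (κ.uf * (kf y : ℤ)) * (kh y : ℤ))
      - κ.k0 * ((κ.j : ℤ) * (κ.j - 1)) * (2 * ((kh y : ℤ) * ((kh y : ℤ) - 1))))
      = κ.sc * (∑ y ∈ P, (if κ.xy = 0 then nb y else if κ.xy = 1 then (p y : ℤ) * (p y + 1) else 0)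
          + 2 * (κ.c * ∑ y ∈ P, (kcb y : ℤ))
          - ∑ y ∈ P, ((((κ.uq * q y : ℕ) : ℤ) + (κ.uf * kf y : ℕ))
            * ((((κ.uq * q y : ℕ) : ℤ) + (κ.uf * kf y : ℕ)) - 1)
          + ((κ.uf * kf y : ℕ) : ℤ) * (((κ.uf * kf y : ℕ) : ℤ) - 1)))
      + 2 * κ.j * (κ.k1 * ((κ.k1 : ℤ) - 1)) * ∑ y ∈ P, (khb y : ℤ)
      - κ.k0 * κ.j * ((κ.k1 : ℤ) - 1) * ∑ y ∈ P, (2 * (((κ.uq * q y : ℕ) : ℤ) + (κ.uf * kf y : ℕ))
          * kh y + 2 * (κ.uf * kf y : ℕ) * kh y)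
      - κ.k0 * ((κ.j : ℤ) * (κ.j - 1)) * ∑ y ∈ P, (2 * ((kh y : ℤ) * (kh y - 1))) := by
    simp only [mul_sum, ← sum_add_distrib, ← sum_sub_distrib]
    refine sum_congr rfl fun y _ => ?_
    push_cast
    ring
  rw [e3]
  linarith

/-- **THE ROW TEST as state part + cell parts**, `j` of ALL the served units of value one used by average (`uq`, `uf`
of the kind not used) -/
theorem RowV.tKa (V : RowV R P A d hn h B p x q mf mh mhb mha mc mcb mcn mcv kf kh khb kha kc kca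
    kcb kcr sg en nn) {pm : ℕ} (hpm : ∀ l ∈ P, p l ≤ pm) {nb : ℕ → ℤ}
    (hnb : ∀ y ∈ P, (nn y : ℤ) ≤ nb y) (κ : TKd) (hxy : κ.xy ≤ 2) (hth : κ.th ≤ 1)
    (hc : κ.c ≤ 1) (h1 : κ.j ≤ κ.k0) (h2 : κ.k0 ≤ ∑ y ∈ P, (q y + kf y + kh y))
    (h3 : ∑ y ∈ P, (q y + kf y + kh y) ≤ κ.k1) (h4 : 2 ≤ κ.k1) {gn : ℤ}
    (hgn : gn ≤ (hn : ℤ) * (hn - 1)) {G : ℤ} (hG : G = d + (1 - (κ.th : ℤ)) * hn) :
    0 ≤ κ.sta R A pm gn G h (∑ l ∈ P, (p l : ℤ)) (∑ l ∈ P, (x l : ℤ)) (∑ y ∈ P, (kc y : ℤ))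
        (∑ y ∈ P, (kca y : ℤ))
      + ∑ y ∈ P, κ.cea (p y) (q y) (kf y) (kh y) (nb y) (khb y) (kcb y) := by
  obtain ⟨X, Y, hX, hY, hXY⟩ := xy_sets κ.xy P
  obtain ⟨hN, hm⟩ := V.xy_N hpm hnb hxy hth ⟨rfl, rfl, rfl, rfl⟩ hXY
  have hK := kepV_of (d := d) (hn := hn) (h := h) (en := en) hth
  have hsc : 0 ≤ κ.sc := by
    unfold TKd.sc
    have : (2 : ℤ) ≤ κ.k1 := by exact_mod_cast h4
    exact mul_nonneg (Nat.cast_nonneg _) (mul_nonneg (by linarith) (by linarith))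
  have key := V.tAll h1 h2 h3 h4 hc hX hY hK
  rw [TesD_N, hm] at key
  unfold TKd.sta TKd.st TKd.cea
  rw [hG]
  have e2 : (if κ.xy = 0 then ∑ l ∈ P, (x l : ℤ) + ∑ l ∈ P, (p l : ℤ)
        else if κ.xy = 1 then ∑ l ∈ P, (p l : ℤ) else 0)
      = κ.pcs (∑ l ∈ P, (p l : ℤ)) (∑ l ∈ P, (x l : ℤ)) := rfl
  rw [e2] at key
  have z1 : ∀ t : ℤ, (κ.uq : ℤ) * 0 + κ.uf * 0 + κ.j + t = κ.j + t := fun t => by ring
  rw [z1, z1]
  have e4 : ((κ.k0 : ℤ) * (κ.k1 * ((κ.k1 : ℤ) - 1))) = κ.sc := rfl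
  rw [e4] at key
  have k1 : TesD R A (d + (1 - (κ.th : ℤ)) * hn)
        (κ.th * h + κ.pcs (∑ l ∈ P, (p l : ℤ)) (∑ l ∈ P, (x l : ℤ)))
        (κ.j + κ.c * ∑ y ∈ P, (kc y : ℤ)) (κ.j + κ.c * ∑ y ∈ P, (kca y : ℤ))
        0 (κ.th * ((hn : ℤ) * (hn - 1))) 0
      ≤ TesD R A (d + (1 - (κ.th : ℤ)) * hn)
        (κ.th * h + κ.pcs (∑ l ∈ P, (p l : ℤ)) (∑ l ∈ P, (x l : ℤ)))
        (κ.j + κ.c * ∑ y ∈ P, (kc y : ℤ)) (κ.j + κ.c * ∑ y ∈ P, (kca y : ℤ))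
        0 (κ.th * gn) 0 :=
    TesD_mono (mul_le_mul_of_nonneg_left hgn (Nat.cast_nonneg _)) le_rfl
  have k2 := mul_le_mul_of_nonneg_left (add_le_add k1 hN) hsc
  have e3 : ∑ y ∈ P, (κ.sc * ((if κ.xy = 0 then nb y else if κ.xy = 1 then (p y : ℤ) * (p y + 1)
        else 0) + 2 * (κ.c * (kcb y : ℤ)))
      + 2 * κ.j * (κ.k1 * ((κ.k1 : ℤ) - 1)) * (khb y : ℤ)
      - κ.k0 * ((κ.j : ℤ) * (κ.j - 1)) * (((q y : ℤ) + kf y + kh y) * ((q y : ℤ) + kf y + kh y - 1)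
        + ((kf y : ℤ) + kh y) * ((kf y : ℤ) + kh y - 1)))
      = κ.sc * (∑ y ∈ P, (if κ.xy = 0 then nb y else if κ.xy = 1 then (p y : ℤ) * (p y + 1) else 0)
          + 2 * (κ.c * ∑ y ∈ P, (kcb y : ℤ)))
      + 2 * κ.j * (κ.k1 * ((κ.k1 : ℤ) - 1)) * ∑ y ∈ P, (khb y : ℤ)
      - κ.k0 * ((κ.j : ℤ) * (κ.j - 1)) * ∑ y ∈ P, (((q y + kf y + kh y : ℕ) : ℤ)
          * (((q y + kf y + kh y : ℕ) : ℤ) - 1)
        + ((kf y + kh y : ℕ) : ℤ) * (((kf y + kh y : ℕ) : ℤ) - 1)) := by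
    simp only [mul_sum, ← sum_add_distrib, ← sum_sub_distrib]
    refine sum_congr rfl fun y _ => ?_
    push_cast
    ring
  rw [e3]
  linarith

/-- the PC pairs of a kind of tzN -/
lemma pcs_xx (κ : TKd) (hxy : κ.xy ≤ 1) : ∃ xx : ℕ, xx ≤ ∑ l ∈ P, x l ∧
    (∑ l ∈ P, ((p l : ℤ) + x l) - xx : ℤ)
      = κ.pcs (∑ l ∈ P, (p l : ℤ)) (∑ l ∈ P, (x l : ℤ)) := by
  rcases Nat.le_one_iff_eq_zero_or_eq_one.1 hxy with h | h
  · refine ⟨0, Nat.zero_le _, ?_⟩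
    unfold TKd.pcs
    rw [if_pos h, sum_add_distrib]
    push_cast
    ring
  · refine ⟨∑ l ∈ P, x l, le_rfl, ?_⟩
    have h0 : κ.xy ≠ 0 := by omega
    unfold TKd.pcs
    rw [if_neg h0, if_pos h, sum_add_distrib]
    push_cast
    ring

/-- **tzN as state part + cell parts**, `j` of the served halves used by average (`xy ≤ 1`) -/
theorem RowV.nKd (V : RowV R P A d hn h B p x q mf mh mhb mha mc mcb mcn mcv kf kh khb kha kc kca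
    kcb kcr sg en nn) (κ : TKd) (hxy : κ.xy ≤ 1) (hth : κ.th ≤ 1)
    (huq : κ.uq ≤ 1) (huf : κ.uf ≤ 1) (hc : κ.c ≤ 1)
    (h1 : κ.j = 0 ∨ (κ.j ≤ κ.k0 ∧ κ.k0 ≤ ∑ y ∈ P, kh y)) {G : ℤ}
    (hG : G = d + (1 - (κ.th : ℤ)) * hn)
    (h2e : 2 * (κ.th * h + κ.pcs (∑ l ∈ P, (p l : ℤ)) (∑ l ∈ P, (x l : ℤ))
      + (κ.uq * ∑ y ∈ P, (q y : ℤ) + κ.uf * ∑ y ∈ P, (kf y : ℤ) + κ.j
        + κ.c * ∑ y ∈ P, (kc y : ℤ))) ≤ R) :
    0 ≤ κ.sn R A G h (∑ l ∈ P, (p l : ℤ)) (∑ l ∈ P, (x l : ℤ)) (∑ y ∈ P, (q y : ℤ))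
        (∑ y ∈ P, (kf y : ℤ)) (∑ y ∈ P, (kc y : ℤ))
      + ∑ y ∈ P, κ.cn (khb y) (kcb y) := by
  obtain ⟨xx, hx1, hx2⟩ := pcs_xx (P := P) (p := p) (x := x) κ hxy
  have hK := kepV_of (d := d) (hn := hn) (h := h) (en := en) hth
  have hu : ∀ y ∈ P, κ.uq * q y ≤ q y ∧ κ.uf * kf y ≤ kf y := fun y _ =>
    ⟨by nlinarith, by nlinarith⟩
  have e1 : ∑ y ∈ P, (((κ.uq * q y : ℕ) : ℤ) + (κ.uf * kf y : ℕ))
      = κ.uq * ∑ y ∈ P, (q y : ℤ) + κ.uf * ∑ y ∈ P, (kf y : ℤ) := by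
    rw [mul_sum, mul_sum, ← sum_add_distrib]
    exact sum_congr rfl fun y _ => by push_cast; ring
  obtain ⟨e, he⟩ : ∃ e : ℤ, e = κ.th * h + κ.pcs (∑ l ∈ P, (p l : ℤ)) (∑ l ∈ P, (x l : ℤ))
      + (κ.uq * ∑ y ∈ P, (q y : ℤ) + κ.uf * ∑ y ∈ P, (kf y : ℤ) + κ.j
        + κ.c * ∑ y ∈ P, (kc y : ℤ)) := ⟨_, rfl⟩
  have key : (κ.k0 : ℤ) * ((R - 2 * e) * (e - (d + (1 - (κ.th : ℤ)) * hn)) - A * e
      - κ.c * ∑ y ∈ P, (kcb y : ℤ)) ≤ κ.j * ∑ y ∈ P, (khb y : ℤ) := by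
    rcases h1 with h1 | ⟨h1, h2⟩
    · have m1 := V.subN (q0 := fun y => κ.uq * q y) (f0 := fun y => κ.uf * kf y)
        (q1 := fun _ => 0) (f1 := fun _ => 0) (fun y hy => by simpa using hu y hy) (k' := 0)
        (Nat.zero_le _) hc hK hx1 (e := e) (by
          rw [he, e1, ← hx2, h1]
          push_cast
          ring) (by rw [he]; exact h2e)
      simp only [Nat.cast_zero, zero_div, zero_mul] at m1
      have m2 : ((R - 2 * e) * (e - (d + (1 - (κ.th : ℤ)) * hn)) - A * e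
        - κ.c * ∑ y ∈ P, (kcb y : ℤ) : ℤ) ≤ 0 := by exact_mod_cast m1
      rw [h1]
      push_cast
      rw [zero_mul]
      exact mul_nonpos_of_nonneg_of_nonpos (Nat.cast_nonneg _) m2
    · exact V.nHlf (q0 := fun y => κ.uq * q y) (f0 := fun y => κ.uf * kf y) hu h1 h2 hc hK hx1
        (e := e) (by
          rw [he, e1, ← hx2]
          ring) (by rw [he]; exact h2e)
  unfold TKd.sn TKd.cn
  rw [hG, ← he, sum_add_distrib, ← mul_sum]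
  have e5 : ∑ y ∈ P, (κ.k0 : ℤ) * (κ.c * (kcb y : ℤ)) = κ.k0 * (κ.c * ∑ y ∈ P, (kcb y : ℤ)) := by
    simp only [mul_sum]
  rw [e5]
  linarith

/-- **tzN as state part + cell parts**, `j` of ALL the served units of value one used by average -/
theorem RowV.nKa (V : RowV R P A d hn h B p x q mf mh mhb mha mc mcb mcn mcv kf kh khb kha kc kca
    kcb kcr sg en nn) (κ : TKd) (hxy : κ.xy ≤ 1) (hth : κ.th ≤ 1) (hc : κ.c ≤ 1)
    (h1 : κ.j ≤ κ.k0) (h2 : κ.k0 ≤ ∑ y ∈ P, (q y + kf y + kh y)) {G : ℤ}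
    (hG : G = d + (1 - (κ.th : ℤ)) * hn)
    (h2e : 2 * (κ.th * h + κ.pcs (∑ l ∈ P, (p l : ℤ)) (∑ l ∈ P, (x l : ℤ))
      + (κ.j + κ.c * ∑ y ∈ P, (kc y : ℤ))) ≤ R) :
    0 ≤ κ.sn R A G h (∑ l ∈ P, (p l : ℤ)) (∑ l ∈ P, (x l : ℤ)) 0 0 (∑ y ∈ P, (kc y : ℤ))
      + ∑ y ∈ P, κ.cn (khb y) (kcb y) := by
  obtain ⟨xx, hx1, hx2⟩ := pcs_xx (P := P) (p := p) (x := x) κ hxy
  have hK := kepV_of (d := d) (hn := hn) (h := h) (en := en) hth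
  obtain ⟨e, he⟩ : ∃ e : ℤ, e = κ.th * h + κ.pcs (∑ l ∈ P, (p l : ℤ)) (∑ l ∈ P, (x l : ℤ))
      + (κ.j + κ.c * ∑ y ∈ P, (kc y : ℤ)) := ⟨_, rfl⟩
  have key := V.nAll h1 h2 hc hK hx1 (e := e) (by
    rw [he, ← hx2]
    ring) (by rw [he]; exact h2e)
  have z1 : (κ.th * h + κ.pcs (∑ l ∈ P, (p l : ℤ)) (∑ l ∈ P, (x l : ℤ))
      + ((κ.uq : ℤ) * 0 + κ.uf * 0 + κ.j + κ.c * ∑ y ∈ P, (kc y : ℤ)) : ℤ) = e := by
    rw [he]
    ring
  unfold TKd.sn TKd.cn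
  rw [hG, z1, sum_add_distrib, ← mul_sum]
  have e5 : ∑ y ∈ P, (κ.k0 : ℤ) * (κ.c * (kcb y : ℤ)) = κ.k0 * (κ.c * ∑ y ∈ P, (kcb y : ℤ)) := by
    simp only [mul_sum]
  rw [e5]
  linarith

/-! ### the state parts are convex in every letter -/

lemma Cvx.congr {f g : ℤ → ℤ} (hf : Cvx f) (h : ∀ x, g x = f x) : Cvx g := by
  obtain ⟨a, b, c, ha, hf⟩ := hf
  exact ⟨a, b, c, ha, fun x => by rw [h, hf]⟩

lemma Cvx.add {f g : ℤ → ℤ} (hf : Cvx f) (hg : Cvx g) : Cvx fun x => f x + g x := by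
  obtain ⟨a, b, c, ha, hf⟩ := hf
  obtain ⟨a', b', c', ha', hg⟩ := hg
  exact ⟨a + a', b + b', c + c', add_nonneg ha ha', fun x => by beta_reduce; rw [hf, hg]; ring⟩

lemma Cvx.smul {f : ℤ → ℤ} (hf : Cvx f) {s : ℤ} (hs : 0 ≤ s) : Cvx fun x => s * f x := by
  obtain ⟨a, b, c, ha, hf⟩ := hf
  exact ⟨s * a, s * b, s * c, mul_nonneg hs ha, fun x => by beta_reduce; rw [hf]; ring⟩

lemma Cvx.lin (a b : ℤ) : Cvx fun x => a * x + b := ⟨0, a, b, le_rfl, fun x => by ring⟩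

lemma Cvx.const (b : ℤ) : Cvx fun _ => b := ⟨0, 0, b, le_rfl, fun x => by ring⟩

/-- affine change of the letter -/
lemma Cvx.comp {f : ℤ → ℤ} (hf : Cvx f) (m s : ℤ) : Cvx fun x => f (m + s * x) := by
  obtain ⟨a, b, c, ha, hf⟩ := hf
  exact ⟨a * s ^ 2, 2 * a * m * s + b * s, a * m ^ 2 + b * m + c, mul_nonneg ha (sq_nonneg s),
    fun x => by beta_reduce; rw [hf]; ring⟩

/-- the largest value on an interval is at an end -/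
lemma Cvx.le_ends {f : ℤ → ℤ} (hf : Cvx f) {x0 x1 x b : ℤ} (h0 : x0 ≤ x) (h1 : x ≤ x1)
    (e0 : f x0 ≤ b) (e1 : f x1 ≤ b) : f x ≤ b := by
  by_contra hcon
  push Not at hcon
  have h2 : Cvx fun y => f y + (-b - 1) := hf.add (Cvx.const _)
  obtain ⟨v, h3, h4⟩ := h2.pick h0 h1 (by linarith)
  rcases h3 with rfl | rfl <;> linarith

lemma TesD_cvx_G (R A m k ka b g N : ℤ) : Cvx fun G => TesD R A G m k ka b g N :=
  ⟨0, 2 * (R - (m + k + ka)), TesD R A 0 m k ka b g N, le_rfl, fun x => by unfold TesD; ring⟩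

lemma TesD_cvx_m (R A G k ka b g N : ℤ) : Cvx fun m => TesD R A G m k ka b g N :=
  ⟨1, TesD R A G 1 k ka b g N - TesD R A G 0 k ka b g N - 1, TesD R A G 0 k ka b g N, by norm_num,
    fun x => by unfold TesD; ring⟩

lemma TesD_cvx_k (R A G m ka b g N : ℤ) : Cvx fun k => TesD R A G m k ka b g N :=
  ⟨1, TesD R A G m 1 ka b g N - TesD R A G m 0 ka b g N - 1, TesD R A G m 0 ka b g N, by norm_num,
    fun x => by unfold TesD; ring⟩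

lemma TesD_cvx_ka (R A G m k b g N : ℤ) : Cvx fun ka => TesD R A G m k ka b g N :=
  ⟨1, TesD R A G m k 1 b g N - TesD R A G m k 0 b g N - 1, TesD R A G m k 0 b g N, by norm_num,
    fun x => by unfold TesD; ring⟩

lemma TesD_cvx_kk (R A G m k ka b g N : ℤ) : Cvx fun x => TesD R A G m (k + x) (ka + x) b g N :=
  ⟨4, TesD R A G m (k + 1) (ka + 1) b g N - TesD R A G m k ka b g N - 4,
    TesD R A G m k ka b g N, by norm_num, fun x => by unfold TesD; ring⟩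

lemma pcs_eq (κ : TKd) (P X : ℤ) : κ.pcs P X
    = (if κ.xy = 0 then 1 else if κ.xy = 1 then 1 else 0) * P + (if κ.xy = 0 then 1 else 0) * X := by
  unfold TKd.pcs
  by_cases h0 : κ.xy = 0
  · rw [if_pos h0, if_pos h0, if_pos h0]
    ring
  · rw [if_neg h0, if_neg h0, if_neg h0]
    by_cases h1 : κ.xy = 1
    · rw [if_pos h1, if_pos h1]
      ring
    · rw [if_neg h1, if_neg h1]
      ring

lemma sc_nonneg (κ : TKd) : 0 ≤ κ.sc := by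
  unfold TKd.sc
  exact mul_nonneg (Nat.cast_nonneg _) (nn1_nonneg κ.k1)

/-- **the state part of the row test is convex in every letter** -/
theorem st_cvx (κ : TKd) (R A pm gn G h P X K F C Ca : ℤ) :
    Cvx (fun G => κ.st R A pm gn G h P X K F C Ca) ∧ Cvx (fun h => κ.st R A pm gn G h P X K F C Ca) ∧
    Cvx (fun P => κ.st R A pm gn G h P X K F C Ca) ∧ Cvx (fun X => κ.st R A pm gn G h P X K F C Ca) ∧
    Cvx (fun K => κ.st R A pm gn G h P X K F C Ca) ∧ Cvx (fun F => κ.st R A pm gn G h P X K F C Ca) ∧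
    Cvx (fun C => κ.st R A pm gn G h P X K F C Ca) ∧
    Cvx (fun Ca => κ.st R A pm gn G h P X K F C Ca) := by
  have hs := sc_nonneg κ
  have lin : ∀ f : ℤ → ℤ, (∃ a b : ℤ, ∀ x, f x = a * x + b) → Cvx f := fun f ⟨a, b, h⟩ =>
    (Cvx.lin a b).congr h
  unfold TKd.st
  refine ⟨?_, ?_, ?_, ?_, ?_, ?_, ?_, ?_⟩
  · refine ((TesD_cvx_G _ _ _ _ _ _ _ _).add (lin _ ?_)).smul hs
    by_cases h2 : κ.xy = 2
    · exact ⟨-(2 * pm), 2 * (pm * (A + κ.th * h)), fun x => by rw [if_pos h2]; ring⟩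
    · exact ⟨0, 0, fun x => by rw [if_neg h2]; ring⟩
  · refine (Cvx.add (((TesD_cvx_m R A G (κ.uq * K + κ.uf * F + κ.j + κ.c * C)
      (κ.uq * K + κ.uf * F + κ.j + κ.c * Ca) 0 (κ.th * gn) 0).comp (κ.pcs P X) κ.th).congr
      fun x => by rw [add_comm]) (lin _ ?_)).smul hs
    by_cases h2 : κ.xy = 2
    · exact ⟨2 * (pm * κ.th), 2 * (pm * (A - G)), fun x => by rw [if_pos h2]; ring⟩
    · exact ⟨0, 0, fun x => by rw [if_neg h2]; ring⟩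
  · refine (Cvx.add (((TesD_cvx_m R A G (κ.uq * K + κ.uf * F + κ.j + κ.c * C)
      (κ.uq * K + κ.uf * F + κ.j + κ.c * Ca) 0 (κ.th * gn) 0).comp
      (κ.th * h + (if κ.xy = 0 then 1 else 0) * X)
      (if κ.xy = 0 then 1 else if κ.xy = 1 then 1 else 0)).congr
      fun x => by rw [pcs_eq]; congr 1; ring) (Cvx.const _)).smul hs
  · refine (Cvx.add (((TesD_cvx_m R A G (κ.uq * K + κ.uf * F + κ.j + κ.c * C)
      (κ.uq * K + κ.uf * F + κ.j + κ.c * Ca) 0 (κ.th * gn) 0).comp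
      (κ.th * h + (if κ.xy = 0 then 1 else if κ.xy = 1 then 1 else 0) * P)
      (if κ.xy = 0 then 1 else 0)).congr
      fun x => by rw [pcs_eq]; congr 1; ring) (Cvx.const _)).smul hs
  · refine (Cvx.add (((TesD_cvx_kk R A G (κ.th * h + κ.pcs P X) (κ.uf * F + κ.j + κ.c * C)
      (κ.uf * F + κ.j + κ.c * Ca) 0 (κ.th * gn) 0).comp 0 κ.uq).congr
      fun x => by congr 1 <;> ring) (Cvx.const _)).smul hs
  · refine (Cvx.add (((TesD_cvx_kk R A G (κ.th * h + κ.pcs P X) (κ.uq * K + κ.j + κ.c * C)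
      (κ.uq * K + κ.j + κ.c * Ca) 0 (κ.th * gn) 0).comp 0 κ.uf).congr
      fun x => by congr 1 <;> ring) (Cvx.const _)).smul hs
  · refine (Cvx.add (((TesD_cvx_k R A G (κ.th * h + κ.pcs P X)
      (κ.uq * K + κ.uf * F + κ.j + κ.c * Ca) 0 (κ.th * gn) 0).comp
      (κ.uq * K + κ.uf * F + κ.j) κ.c).congr fun x => rfl) (Cvx.const _)).smul hs
  · refine (Cvx.add (((TesD_cvx_ka R A G (κ.th * h + κ.pcs P X)
      (κ.uq * K + κ.uf * F + κ.j + κ.c * C) 0 (κ.th * gn) 0).comp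
      (κ.uq * K + κ.uf * F + κ.j) κ.c).congr fun x => rfl) (Cvx.const _)).smul hs

/-- tzN as a function of the total number -/
lemma tzN_cvx (R A G : ℤ) : Cvx fun e => -((R - 2 * e) * (e - G) - A * e) :=
  ⟨2, A - R - 2 * G, R * G, by norm_num, fun x => by ring⟩

/-- **the state part of tzN is convex in every letter** -/
theorem sn_cvx (κ : TKd) (R A G h P X K F C : ℤ) :
    Cvx (fun G => κ.sn R A G h P X K F C) ∧ Cvx (fun h => κ.sn R A G h P X K F C) ∧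
    Cvx (fun P => κ.sn R A G h P X K F C) ∧ Cvx (fun X => κ.sn R A G h P X K F C) ∧
    Cvx (fun K => κ.sn R A G h P X K F C) ∧ Cvx (fun F => κ.sn R A G h P X K F C) ∧
    Cvx (fun C => κ.sn R A G h P X K F C) := by
  have hs : (0 : ℤ) ≤ κ.k0 := Nat.cast_nonneg _
  obtain ⟨a, ha⟩ : ∃ a : ℤ, a = (if κ.xy = 0 then 1 else if κ.xy = 1 then 1 else 0) := ⟨_, rfl⟩
  obtain ⟨b, hb⟩ : ∃ b : ℤ, b = (if κ.xy = 0 then 1 else 0) := ⟨_, rfl⟩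
  have hp : ∀ P X : ℤ, κ.pcs P X = a * P + b * X := fun P X => by rw [pcs_eq, ha, hb]
  unfold TKd.sn
  simp only [hp]
  refine ⟨?_, ?_, ?_, ?_, ?_, ?_, ?_⟩
  · refine ⟨0, κ.k0 * (R - 2 * (κ.th * h + (a * P + b * X)
      + (κ.uq * K + κ.uf * F + κ.j + κ.c * C))), -(κ.k0 * ((R - 2 * (κ.th * h + (a * P + b * X)
      + (κ.uq * K + κ.uf * F + κ.j + κ.c * C))) * (κ.th * h + (a * P + b * X)
      + (κ.uq * K + κ.uf * F + κ.j + κ.c * C)) - A * (κ.th * h + (a * P + b * X)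
      + (κ.uq * K + κ.uf * F + κ.j + κ.c * C)))), le_rfl, fun x => by ring⟩
  · exact (((tzN_cvx R A G).comp ((a * P + b * X) + (κ.uq * K + κ.uf * F + κ.j + κ.c * C))
      κ.th).smul hs).congr fun x => by ring
  · exact (((tzN_cvx R A G).comp (κ.th * h + b * X + (κ.uq * K + κ.uf * F + κ.j + κ.c * C))
      a).smul hs).congr fun x => by ring
  · exact (((tzN_cvx R A G).comp (κ.th * h + a * P + (κ.uq * K + κ.uf * F + κ.j + κ.c * C))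
      b).smul hs).congr fun x => by ring
  · exact (((tzN_cvx R A G).comp (κ.th * h + (a * P + b * X) + (κ.uf * F + κ.j + κ.c * C))
      κ.uq).smul hs).congr fun x => by ring
  · exact (((tzN_cvx R A G).comp (κ.th * h + (a * P + b * X) + (κ.uq * K + κ.j + κ.c * C))
      κ.uf).smul hs).congr fun x => by ring
  · exact (((tzN_cvx R A G).comp (κ.th * h + (a * P + b * X) + (κ.uq * K + κ.uf * F + κ.j))
      κ.c).smul hs).congr fun x => by ring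

end MidT

end Pool.Agent.Lib.MP_f04ccf_co
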