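import Pool.Agent.Lib.MP_f04ccf_co.M.Top

/-!
MP_f04ccf_co: the set `MIN-U` (note 14627): a set `U` with `k r + 1` vertices, independence number at
most `k` in colour `i`, and few edges of colour `i`, with `k` minimal.
-/

set_option autoImplicit false

namespace Pool.Agent.Lib.MP_f04ccf_co.Mn

open Finset

attribute [local instance] Classical.propDecidable

variable {V : Type*} {r : ℕ} {c : V → V → Fin r} (hc : ∀ x y, c x y = c y x)

/-- `k r + 1` vertices, `α ≤ k`, few edges -/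
def BadSet (i : Fin r) (k : ℕ) (U : Finset V) : Prop :=
  U.card = k * r + 1 ∧ AlphaLe (col c hc i) U k ∧
    E (col c hc i) U ≤ k * (r * (r - 1)) + r * (r + 1)

/-- `k` is minimal for bad subsets of `U0` -/
def MinLev (U0 : Finset V) (k : ℕ) : Prop :=
  ∀ i : Fin r, ∀ l : ℕ, ∀ W ⊆ U0, BadSet hc i l W → k ≤ l

variable {hc}

lemma clq_of_alpha_one' {G : SimpleGraph V} {S : Finset V} (h : AlphaLe G S 1) : Clq G S := by
  intro x hx y hy hxy
  by_contra hadj
  have h1 := h {x, y} (by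
    intro z hz
    simp only [mem_insert, mem_singleton] at hz
    rcases hz with rfl | rfl
    · exact hx
    · exact hy) (by
    intro a ha b hb hab
    simp only [mem_insert, mem_singleton] at ha hb
    rcases ha with rfl | rfl <;> rcases hb with rfl | rfl
    · exact hab.ne rfl
    · exact hadj hab
    · exact hadj hab.symm
    · exact hab.ne rfl)
  rw [card_insert_of_notMem (by rwa [mem_singleton]), card_singleton] at h1
  omega

lemma no_lev1 (hs : Sees c) (hr : 2 ≤ r) (i : Fin r) {W : Finset V} (hW : r + 1 ≤ W.card) :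
    ¬ AlphaLe (col c hc i) W 1 := by
  intro h
  have := clq_card_le hc hs hr i (clq_of_alpha_one' h)
  omega

lemma bad_two_le (hs : Sees c) (hr : 2 ≤ r) {i : Fin r} {k : ℕ} {U : Finset V}
    (hB : BadSet hc i k U) : 2 ≤ k := by
  by_contra hlt
  rcases (show k = 0 ∨ k = 1 by omega) with rfl | rfl
  · have h1 := hB.2.1.zero
    have h2 := hB.1
    rw [h1] at h2
    simp at h2
  · refine no_lev1 (hc := hc) hs hr i ?_ hB.2.1
    have := hB.1
    omega

/-- minimum degree `≥ r` -/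
lemma bad_deg (hs : Sees c) (hr : 2 ≤ r) {U0 : Finset V} {i : Fin r} {k : ℕ} {U : Finset V}
    (hU : U ⊆ U0) (hB : BadSet hc i k U) (hm : MinLev hc U0 k) :
    ∀ v ∈ U, r ≤ dg (col c hc i) U v := by
  set G := col c hc i with hG
  have hk := bad_two_le hs hr hB
  obtain ⟨hUc, hα, hE⟩ := hB
  rw [← hG] at hα hE
  by_contra hcon
  push Not at hcon
  obtain ⟨w, hw, hwd⟩ := hcon
  obtain ⟨v, hv, hmin⟩ := exists_min_image U (fun z => dg G U z) ⟨w, hw⟩
  set D := dg G U v with hD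
  have hDr : D < r := lt_of_le_of_lt (hmin w hw) hwd
  have h1 := E_del_nb hv hD.symm hmin
  have h2 : (nb G U v).card = D + 1 := nb_card G hv
  have h3 := card_sdiff_add_card_eq_card (nb_sub G U v)
  obtain ⟨k', rfl⟩ : ∃ k', k = k' + 1 := ⟨k - 1, by omega⟩
  have h4 : AlphaLe G (U \ nb G U v) k' := AlphaLe.sdiff_nb G hv hα
  have hcard : (U \ nb G U v).card = k' * r + 1 + (r - 1 - D) := by
    have : (k' + 1) * r = k' * r + r := by ring
    omega
  by_cases hk1 : k' = 1
  · subst hk1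
    exact no_lev1 (hc := hc) hs hr i (by omega) h4
  obtain ⟨Y, hY, hYc, hYE⟩ := shrink G r k' (by omega) (r - 1 - D) _ hcard h4
  have hbad : BadSet hc i k' Y := by
    refine ⟨hYc, h4.mono G hY, ?_⟩
    have e1 : (E G Y : ℤ) + 2 * r * ((r - 1 - D : ℕ) : ℤ) ≤ E G (U \ nb G U v) := by
      exact_mod_cast hYE
    have e2 : ((r - 1 - D : ℕ) : ℤ) = r - 1 - D := by omega
    have e4 : (E G (U \ nb G U v) : ℤ) + (D + 1) * D ≤ E G U := by exact_mod_cast h1
    have e5 : (E G U : ℤ) ≤ (k' + 1) * (r * ((r - 1 : ℕ) : ℤ)) + r * (r + 1) := by exact_mod_cast hE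
    have e3 : ((r - 1 : ℕ) : ℤ) = r - 1 := by omega
    rw [e2] at e1
    rw [e3] at e5
    have e6 : (0 : ℤ) ≤ (r - D) * (r - D - 1) := by
      have : (D : ℤ) + 1 ≤ r := by exact_mod_cast hDr
      exact mul_nonneg (by linarith) (by linarith)
    have e7 : (E G Y : ℤ) ≤ k' * (r * (r - 1)) + r * (r + 1) := by nlinarith
    have e8 : (E G Y : ℤ) ≤ ((k' * (r * (r - 1)) + r * (r + 1) : ℕ) : ℤ) := by
      push_cast
      rw [e3]
      exact e7
    exact_mod_cast e8
  have := hm i k' Y (hY.trans (sdiff_subset.trans hU)) hbad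
  omega

/-- hereditary property -/
lemma bad_her (hs : Sees c) (hr : 2 ≤ r) {U0 : Finset V} {i : Fin r} {k : ℕ} {U : Finset V}
    (hU : U ⊆ U0) (hB : BadSet hc i k U) (hm : MinLev hc U0 k) : Her (col c hc i) r k U := by
  intro W hW l hl hWc hα
  have hdeg := bad_deg hs hr hU hB hm
  obtain ⟨hUc, _, hE⟩ := hB
  set G := col c hc i with hG
  obtain ⟨Y, hY, hYc⟩ := exists_subset_card_eq hWc
  have hYU : Y ⊆ U := hY.trans hW
  have h1 := E_sdiff G (sdiff_subset : U \ Y ⊆ U)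
  rw [Finset.sdiff_sdiff_eq_self hYU] at h1
  have h2 : E G (U \ Y) ≤ ∑ v ∈ U \ Y, dg G U v :=
    sum_le_sum fun v _ => dg_mono G sdiff_subset v
  have h3 : (U \ Y).card * r ≤ ∑ v ∈ U \ Y, dg G U v := by
    have := card_nsmul_le_sum (U \ Y) (fun v => dg G U v) r (fun v hv => hdeg v (mem_sdiff.1 hv).1)
    simpa using this
  have h4 := card_sdiff_add_card_eq_card hYU
  have hbad : BadSet hc i l Y := by
    refine ⟨hYc, hα.mono G hY, ?_⟩
    obtain ⟨q, hq⟩ : ∃ q, k = l + q := ⟨k - l, by omega⟩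
    subst hq
    have h5 : (U \ Y).card = q * r := by
      have : (l + q) * r = l * r + q * r := by ring
      omega
    rw [h5] at h3
    have h6 : q * (r * (r - 1)) ≤ q * r * r := by
      calc q * (r * (r - 1)) = q * r * (r - 1) := by ring
        _ ≤ q * r * r := Nat.mul_le_mul_left _ (by omega)
    have h7 : (l + q) * (r * (r - 1)) = l * (r * (r - 1)) + q * (r * (r - 1)) := by ring
    have h8 : E G Y + ∑ v ∈ U \ Y, dg G U v ≤ E G U := by omega
    change E G Y ≤ _
    rw [h7] at hE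
    omega
  have := hm i l Y (hYU.trans hU) hbad
  omega

/-- no `K_r` -/
lemma bad_free (hs : Sees c) (hr : 2 ≤ r) {U0 : Finset V} {i : Fin r} {k : ℕ} {U : Finset V}
    (hU : U ⊆ U0) (hB : BadSet hc i k U) (hm : MinLev hc U0 k) (hkr : k < r) :
    ∀ K ⊆ U, Clq (col c hc i) K → K.card ≤ r - 1 := by
  intro K hK hKq
  by_contra hlt
  obtain ⟨K', hK', hKc'⟩ := exists_subset_card_eq (show r ≤ K.card by omega)
  have hq : Clq (col c hc i) K' := fun x hx y hy => hKq x (hK' hx) y (hK' hy)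
  have hk := bad_two_le hs hr hB
  obtain ⟨k', rfl⟩ : ∃ k', k = k' + 1 := ⟨k - 1, by omega⟩
  have hp := peel hc hs hr i (t := k') hq hKc' (hK'.trans hK) hkr hB.2.1
  have hcd := card_sdiff_add_card_eq_card (hK'.trans hK)
  refine bad_her hs hr hU hB hm (U \ K') sdiff_subset k' (by omega) ?_ hp
  have h1 := hB.1
  have : (k' + 1) * r = k' * r + r := by ring
  omega

lemma exists_bad (hs : Sees c) (hr : 1 ≤ r) {U0 : Finset V} (hU0 : U0.card = r ^ 2 + 1) :
    ∃ i : Fin r, BadSet hc i r U0 ∧ ∀ j : Fin r, E (col c hc i) U0 ≤ E (col c hc j) U0 := by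
  obtain ⟨i, _, hi⟩ := exists_min_image (univ : Finset (Fin r)) (fun k => E (col c hc k) U0)
    ⟨⟨0, by omega⟩, mem_univ _⟩
  refine ⟨i, ⟨by rw [hU0]; ring, alpha_le hc hs i U0, ?_⟩, fun j => hi j (mem_univ _)⟩
  have hsum := sum_E hc U0
  rw [hU0, Nat.add_sub_cancel] at hsum
  have h1 : r * E (col c hc i) U0 ≤ (r ^ 2 + 1) * r ^ 2 := by
    rw [← hsum]
    have := card_nsmul_le_sum (univ : Finset (Fin r)) (fun k => E (col c hc k) U0) _ hi
    simpa using this
  have h2 : r * E (col c hc i) U0 ≤ r * (r * (r * (r - 1)) + r * (r + 1)) := by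
    refine h1.trans (le_of_eq ?_)
    obtain ⟨q, rfl⟩ : ∃ q, r = q + 1 := ⟨r - 1, by omega⟩
    simp only [Nat.add_sub_cancel]
    ring
  exact Nat.le_of_mul_le_mul_left h2 (by omega)

/-- `r` is not the minimal level -/
lemma not_minLev_r (hs : Sees c) (hr : 3 ≤ r) {U0 : Finset V} (hU0 : U0.card = r ^ 2 + 1) :
    ¬ MinLev hc U0 r := by
  intro hm
  obtain ⟨i, hB, hi⟩ := exists_bad (hc := hc) hs (by omega) hU0
  have hdi := bad_deg hs (by omega) (Subset.refl _) hB hm
  have h4 : r * (r ^ 2 + 1) ≤ E (col c hc i) U0 := by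
    have := card_nsmul_le_sum U0 (fun v => dg (col c hc i) U0 v) r hdi
    rw [hU0] at this
    simp only [smul_eq_mul] at this
    unfold E
    calc r * (r ^ 2 + 1) = (r ^ 2 + 1) * r := by ring
      _ ≤ _ := this
  have hsum := sum_E hc U0
  rw [hU0, Nat.add_sub_cancel] at hsum
  have h5 : ∀ k : Fin r, E (col c hc k) U0 = r * (r ^ 2 + 1) := by
    intro k
    have e1 : ∀ j ∈ (univ : Finset (Fin r)), r * (r ^ 2 + 1) ≤ E (col c hc j) U0 :=
      fun j _ => h4.trans (hi j)
    have e2 : ∑ j : Fin r, r * (r ^ 2 + 1) = ∑ j : Fin r, E (col c hc j) U0 := by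
      rw [hsum]; simp; ring
    exact ((sum_eq_sum_iff_of_le e1).1 e2 k (mem_univ k)).symm
  have hbad : ∀ j : Fin r, BadSet hc j r U0 := by
    intro j
    refine ⟨by rw [hU0]; ring, alpha_le hc hs j U0, ?_⟩
    rw [h5 j]
    refine le_of_eq ?_
    obtain ⟨q, rfl⟩ : ∃ q, r = q + 1 := ⟨r - 1, by omega⟩
    simp only [Nat.add_sub_cancel]
    ring
  have hdeg : ∀ j : Fin r, ∀ v ∈ U0, r ≤ dg (col c hc j) U0 v :=
    fun j => bad_deg hs (by omega) (Subset.refl _) (hbad j) hm
  refine top (hc := hc) (U := U0) ⟨hs, hr, hU0, fun k v hv => ?_, fun k =>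
    bad_her hs (by omega) (Subset.refl _) (hbad k) hm⟩
  have e1 : ∀ j ∈ (univ : Finset (Fin r)), r ≤ dg (col c hc j) U0 v :=
    fun j _ => hdeg j v hv
  have e2 : ∑ j : Fin r, r = ∑ j : Fin r, dg (col c hc j) U0 v := by
    rw [sum_dg hc U0 hv, hU0]; simp; ring
  exact ((sum_eq_sum_iff_of_le e1).1 e2 k (mem_univ k)).symm

variable (hc) in
/-- the set `MIN-U` with all its properties -/
structure MinU (U0 : Finset V) (i : Fin r) (k : ℕ) (U : Finset V) : Prop where
  sub : U ⊆ U0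
  card : U.card = k * r + 1
  alpha : AlphaLe (col c hc i) U k
  k2 : 2 ≤ k
  kr : k + 1 ≤ r
  deg : ∀ v ∈ U, r ≤ dg (col c hc i) U v
  free : ∀ K ⊆ U, Clq (col c hc i) K → K.card ≤ r - 1
  her : Her (col c hc i) r k U
  bud : E (col c hc i) U ≤ k * (r * (r - 1)) + r * (r + 1)
  min : MinLev hc U0 k

theorem exists_minU (hs : Sees c) (hr : 3 ≤ r) {U0 : Finset V} (hU0 : U0.card = r ^ 2 + 1) :
    ∃ (i : Fin r) (k : ℕ) (U : Finset V), MinU hc U0 i k U := by
  have hex : ∃ k : ℕ, ∃ (i : Fin r) (U : Finset V), U ⊆ U0 ∧ BadSet hc i k U := by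
    obtain ⟨i, hB, -⟩ := exists_bad (hc := hc) hs (by omega) hU0
    exact ⟨r, i, U0, Subset.refl _, hB⟩
  obtain ⟨i, U, hU, hB⟩ := Nat.find_spec hex
  set k := Nat.find hex with hk
  have hm : MinLev hc U0 k := fun j l W hW hWB => Nat.find_min' hex ⟨j, W, hW, hWB⟩
  have hkr : k < r := by
    have h1 : k ≤ r := by
      obtain ⟨i, hB, -⟩ := exists_bad (hc := hc) hs (by omega) hU0
      exact hm i r U0 (Subset.refl _) hB
    rcases h1.lt_or_eq with h | h
    · exact h
    · exfalso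
      rw [h] at hm
      exact not_minLev_r hs hr hU0 hm
  exact ⟨i, k, U, hU, hB.1, hB.2.1, bad_two_le hs (by omega) hB, hkr,
    bad_deg hs (by omega) hU hB hm, bad_free hs (by omega) hU hB hm hkr,
    bad_her hs (by omega) hU hB hm, hB.2.2, hm⟩

end Pool.Agent.Lib.MP_f04ccf_co.Mn
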