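import Pool.Agent.Lib.MP_f04ccf_co.S2Top

/-!
MP_f04ccf_co: closed systems with two rows do not exist.  Everything about such a system is: a set `S`
with `2 r + 1` points, no clique of size `r`, and a set `C` of at least `r + 1` points of `S` such
that the non-neighbours in `S` of every point of `C` form a clique.  The proof is Mantel's theorem for
the missing graph, with a set `C` of vertices in no missing triangle, and property (P) twice.
-/

set_option autoImplicit false

namespace Pool.Agent.Lib.MP_f04ccf_co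

open Finset

attribute [local instance] Classical.propDecidable

section Mantel

variable {V : Type*} {G : SimpleGraph V}

/-- Mantel: at most two pairwise missing points -/
lemma NE_mantel {W : Finset V} (h : AlphaLe G W 2) :
    2 * (NE G W : ℤ) ≤ (W.card : ℤ) * W.card := by
  have h1 := E_add_NE (G := G) W
  rcases Nat.even_or_odd' W.card with ⟨k, hk | hk⟩
  · have h2 := E_lower_q G ((k : ℤ) - 1) 2 W h
    rw [hk] at h1 h2 ⊢
    push_cast at h1 h2 ⊢
    nlinarith
  · have h2 := E_lower_q G (k : ℤ) 2 W h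
    rw [hk] at h1 h2 ⊢
    push_cast at h1 h2 ⊢
    nlinarith

/-- the points of `C` lie in no missing triangle of `W` -/
def GoodPts (G : SimpleGraph V) (W C : Finset V) : Prop :=
  ∀ c ∈ C, ∀ x ∈ W, ∀ y ∈ W, x ≠ c → y ≠ c → x ≠ y → ¬ G.Adj c x → ¬ G.Adj c y → G.Adj x y

lemma GoodPts.mono {W W' C C' : Finset V} (h : GoodPts G W C) (hW : W' ⊆ W) (hC : C' ⊆ C) :
    GoodPts G W' C' :=
  fun c hc x hx y hy => h c (hC hc) x (hW hx) y (hW hy)

lemma exists_max_ind (G : SimpleGraph V) (W : Finset V) :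
    ∃ K, K ⊆ W ∧ Ind G K ∧ AlphaLe G W K.card := by
  have hne : (W.powerset.filter (fun I => Ind G I)).Nonempty :=
    ⟨∅, mem_filter.2 ⟨mem_powerset.2 (empty_subset _), fun x hx => absurd hx (notMem_empty x)⟩⟩
  obtain ⟨K, hK, hmax⟩ := exists_max_image _ (fun I : Finset V => I.card) hne
  rw [mem_filter, mem_powerset] at hK
  refine ⟨K, hK.1, hK.2, fun I hI hi => ?_⟩
  exact hmax I (mem_filter.2 ⟨mem_powerset.2 hI, hi⟩)

/-- the count of missing pairs at a largest independent set -/
lemma NE_peel {W C K : Finset V} (hC : C ⊆ W) (hg : GoodPts G W C) (hK : K ⊆ W) (hi : Ind G K)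
    (hα : AlphaLe G W K.card) (h3 : 3 ≤ K.card) :
    C ⊆ W \ K ∧ (NE G W : ℤ) = NE G (W \ K) + NE G K + 2 * ∑ x ∈ W \ K, (nd G K x : ℤ) ∧
      (∑ x ∈ W \ K, (nd G K x : ℤ)) ≤
        C.card + ((W.card : ℤ) - C.card - K.card) * (K.card - 1) := by
  have hCK : ∀ c ∈ C, c ∉ K := by
    intro c hc hcK
    have h4 : 2 ≤ (K.erase c).card := by rw [card_erase_of_mem hcK]; omega
    obtain ⟨x, hx, y, hy, hxy⟩ := one_lt_card.1 (show 1 < (K.erase c).card by omega)
    rw [mem_erase] at hx hy
    exact hi x hx.2 y hy.2 (hg c hc x (hK hx.2) y (hK hy.2) hx.1 hy.1 hxy (hi c hcK x hx.2)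
      (hi c hcK y hy.2))
  have hCW : C ⊆ W \ K := fun c hc => mem_sdiff.2 ⟨hC hc, hCK c hc⟩
  refine ⟨hCW, ?_, ?_⟩
  · have h4 := NE_union (G := G) (disjoint_sdiff : Disjoint K (W \ K))
    rw [union_sdiff_of_subset hK] at h4
    have h5 : (NE G W : ℤ) = NE G K + NE G (W \ K) + 2 * ∑ x ∈ W \ K, (nd G K x : ℤ) := by
      exact_mod_cast h4
    linarith
  · have h4 : ∀ x ∈ C, (nd G K x : ℤ) ≤ 1 := by
      intro c hc
      have h5 : nd G K c ≤ 1 := by
        unfold nd
        rw [card_le_one]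
        intro x hx y hy
        rw [mem_filter] at hx hy
        by_contra hxy
        exact hi x hx.1 y hy.1 (hg c hc x (hK hx.1) y (hK hy.1) hx.2.1 hy.2.1 hxy hx.2.2 hy.2.2)
      exact_mod_cast h5
    have h5 : ∀ x ∈ (W \ K) \ C, (nd G K x : ℤ) ≤ (K.card : ℤ) - 1 := by
      intro x hx
      rw [mem_sdiff, mem_sdiff] at hx
      have h6 := nd_of_notMem (G := G) hx.1.2
      have h7 : 1 ≤ dg G K x := by
        by_contra h0
        have h8 : ∀ y ∈ K, ¬ G.Adj x y := by
          intro y hy hxy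
          apply h0
          exact card_pos.2 ⟨y, mem_filter.2 ⟨hy, hxy⟩⟩
        have h9 := hα (insert x K) (insert_subset hx.1.1 hK) (Ind.insert_of G hi h8)
        rw [card_insert_of_notMem hx.1.2] at h9
        omega
      omega
    have h6 := sum_sdiff hCW (f := fun x => (nd G K x : ℤ))
    have h7 := sum_le_sum h4
    have h8 := sum_le_sum h5
    rw [sum_const, nsmul_eq_mul] at h7 h8
    have h9 : (((W \ K) \ C).card : ℤ) = W.card - C.card - K.card := by
      have e1 := card_sdiff_add_card_eq_card hCW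
      have e2 := card_sdiff_add_card_eq_card hK
      omega
    rw [h9] at h8
    linarith

/-- **Mantel with good points**: half of the points lie in no missing triangle. -/
lemma NE_good : ∀ n : ℕ, ∀ W C : Finset V, W.card = n → C ⊆ W → GoodPts G W C →
    W.card ≤ 2 * C.card → 2 * (NE G W : ℤ) ≤ (W.card : ℤ) * W.card := by
  intro n
  induction n using Nat.strong_induction_on with
  | _ n ih =>
    intro W C hn hC hg h2
    obtain ⟨K, hK, hi, hα⟩ := exists_max_ind G W
    rcases Nat.lt_or_ge 2 K.card with h3 | h3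
    · obtain ⟨h4, h5, h6⟩ := NE_peel hC hg hK hi hα h3
      have h7 := card_sdiff_add_card_eq_card hK
      have h8 := ih (W \ K).card (by omega) (W \ K) C rfl h4 (hg.mono sdiff_subset subset_rfl)
        (by omega)
      have h9 := NE_le (G := G) K
      have h9' : (NE G K : ℤ) ≤ K.card * (K.card - 1) := by
        have : ((NE G K : ℕ) : ℤ) ≤ ((K.card * (K.card - 1) : ℕ) : ℤ) := by exact_mod_cast h9
        push_cast [show 1 ≤ K.card by omega] at this
        exact this
      have e1 : ((W \ K).card : ℤ) = W.card - K.card := by omega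
      rw [e1] at h8
      have e2 : (0 : ℤ) ≤ ((K.card : ℤ) - 2) * (4 * C.card - 2 * W.card + K.card) := by
        apply mul_nonneg <;> omega
      nlinarith
    · exact NE_mantel (hα.le G h3)

/-- the sharp form when there is a missing triangle -/
lemma NE_good' {W C K : Finset V} (hC : C ⊆ W) (hg : GoodPts G W C) (h2 : W.card ≤ 2 * C.card)
    (hK : K ⊆ W) (hi : Ind G K) (hα : AlphaLe G W K.card) (h3 : 3 ≤ K.card) :
    2 * (NE G W : ℤ) ≤ (W.card : ℤ) * W.card
      - ((K.card : ℤ) - 2) * (4 * C.card - 2 * W.card + K.card) := by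
  obtain ⟨h4, h5, h6⟩ := NE_peel hC hg hK hi hα h3
  have h7 := card_sdiff_add_card_eq_card hK
  have h8 := NE_good (G := G) (W \ K).card (W \ K) C rfl h4 (hg.mono sdiff_subset subset_rfl)
    (by omega)
  have h9 := NE_le (G := G) K
  have h9' : (NE G K : ℤ) ≤ K.card * (K.card - 1) := by
    have : ((NE G K : ℕ) : ℤ) ≤ ((K.card * (K.card - 1) : ℕ) : ℤ) := by exact_mod_cast h9
    push_cast [show 1 ≤ K.card by omega] at this
    exact this
  have e1 : ((W \ K).card : ℤ) = W.card - K.card := by omega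
  rw [e1] at h8
  nlinarith

/-- the non-neighbours of a point form a clique when `alpha ≤ 2` -/
lemma nd_le_of_alpha {W : Finset V} {R : ℕ} (hα : AlphaLe G W 2)
    (hω : ∀ K : Finset V, K ⊆ W → Clq G K → K.card ≤ R) {v : V} (hv : v ∈ W) :
    Clq G (W.filter (fun y => y ≠ v ∧ ¬ G.Adj v y)) ∧ nd G W v ≤ R := by
  have h1 : Clq G (W.filter (fun y => y ≠ v ∧ ¬ G.Adj v y)) := by
    intro x hx y hy hxy
    rw [mem_filter] at hx hy
    by_contra hn
    have h2 := hα {v, x, y} (by
      intro z hz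
      simp only [mem_insert, mem_singleton] at hz
      rcases hz with rfl | rfl | rfl
      · exact hv
      · exact hx.1
      · exact hy.1) (by
      intro a ha b hb
      simp only [mem_insert, mem_singleton] at ha hb
      rcases ha with rfl | rfl | rfl <;> rcases hb with rfl | rfl | rfl
      · exact G.loopless.irrefl _
      · exact hx.2.2
      · exact hy.2.2
      · exact fun h => hx.2.2 h.symm
      · exact G.loopless.irrefl _
      · exact hn
      · exact fun h => hy.2.2 h.symm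
      · exact fun h => hn h.symm
      · exact G.loopless.irrefl _)
    rw [card_insert_of_notMem (by simp [Ne.symm hx.2.1, Ne.symm hy.2.1]), card_pair hxy] at h2
    omega
  exact ⟨h1, hω _ (filter_subset _ _) h1⟩

/-- **No closed system with two rows.** -/
theorem PG.no_two {r : ℕ} (hr : 6 ≤ r) (hP : PG G r) {S C : Finset V} (hS : S.card = 2 * r + 1)
    (hω : ∀ K : Finset V, K ⊆ S → Clq G K → K.card ≤ r - 1) (hC : C ⊆ S) (hCc : r + 1 ≤ C.card)
    (hc : ∀ c ∈ C, Clq G (S.filter (fun v => v ≠ c ∧ ¬ G.Adj c v))) : False := by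
  obtain ⟨C', hC', hC'c⟩ := exists_subset_card_eq hCc
  have hCS : C' ⊆ S := hC'.trans hC
  have hg : GoodPts G S C' := by
    intro c hcc x hx y hy hxc hyc hxy h1 h2
    exact hc c (hC' hcc) x (mem_filter.2 ⟨hx, hxc, h1⟩) y (mem_filter.2 ⟨hy, hyc, h2⟩) hxy
  have hSz : (S.card : ℤ) = 2 * r + 1 := by exact_mod_cast hS
  have hCz : (C'.card : ℤ) = r + 1 := by exact_mod_cast hC'c
  have hrz : (6 : ℤ) ≤ r := by exact_mod_cast hr
  have hp : 2 * ((r : ℤ) - 1) * (r + 2) ≤ NE G S := by
    have h1 := hP.ne S 2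
    rw [hSz] at h1
    nlinarith
  obtain ⟨K, hK, hi, hα⟩ := exists_max_ind G S
  -- no missing triangle: all missing degrees are at most `r - 1`
  rcases Nat.lt_or_ge 2 K.card with h3 | h3
  swap
  · have h1 : ∀ v ∈ S, (nd G S v : ℤ) ≤ r - 1 := by
      intro v hv
      have := (nd_le_of_alpha (hα.le G h3) hω hv).2
      omega
    have h2 := sum_le_sum h1
    rw [sum_const, nsmul_eq_mul, hSz] at h2
    have h4 : (NE G S : ℤ) = ∑ v ∈ S, (nd G S v : ℤ) := by unfold NE; push_cast; rfl
    rw [← h4] at h2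
    nlinarith
  have h4 := NE_good' hCS hg (by omega) hK hi hα h3
  rw [hSz, hCz] at h4
  have hK3 : K.card = 3 := by
    by_contra hne
    have h5 : (4 : ℤ) ≤ K.card := by
      have : 4 ≤ K.card := by omega
      exact_mod_cast this
    nlinarith
  obtain ⟨hCW, h5, h6⟩ := NE_peel hCS hg hK hi hα h3
  have h7 := card_sdiff_add_card_eq_card hK
  set W := S \ K with hW
  have hWc : W.card = 2 * r - 2 := by omega
  have hWz : (W.card : ℤ) = 2 * r - 2 := by omega
  have hK3z : (K.card : ℤ) = 3 := by exact_mod_cast hK3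
  have hNK : (NE G K : ℤ) ≤ 6 := by
    have h8 := NE_le (G := G) K
    rw [hK3] at h8
    exact_mod_cast h8
  rw [hSz, hCz, hK3z] at h6
  have hNW : 2 * (r : ℤ) * (r - 2) ≤ NE G W := by nlinarith
  -- `W` has no missing triangle
  have hWS : W ⊆ S := sdiff_subset
  have hαW : AlphaLe G W 2 := by
    obtain ⟨K', hK', hi', hα'⟩ := exists_max_ind G W
    rcases Nat.lt_or_ge 2 K'.card with h8 | h8
    swap
    · exact hα'.le G h8
    exfalso
    have h9 := NE_good' hCW (hg.mono hWS subset_rfl) (by omega) hK' hi' hα' h8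
    rw [hWz, hCz] at h9
    have h10 : (3 : ℤ) ≤ K'.card := by exact_mod_cast h8
    nlinarith
  have hωW : ∀ K : Finset V, K ⊆ W → Clq G K → K.card ≤ r - 1 := fun K hK' => hω K (hK'.trans hWS)
  -- a point with `r - 1` non-neighbours in `W`
  have hdeg : ∀ v ∈ W, (nd G W v : ℤ) ≤ r - 1 := by
    intro v hv
    have := (nd_le_of_alpha hαW hωW hv).2
    omega
  have hNWs : (NE G W : ℤ) = ∑ v ∈ W, (nd G W v : ℤ) := by unfold NE; push_cast; rfl
  obtain ⟨v, hv, hvd⟩ : ∃ v ∈ W, nd G W v = r - 1 := by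
    by_contra hcon
    push Not at hcon
    have h8 : ∀ v ∈ W, (nd G W v : ℤ) ≤ r - 2 := by
      intro v hv
      have h9 := hdeg v hv
      have h10 := hcon v hv
      omega
    have h9 := sum_le_sum h8
    rw [sum_const, nsmul_eq_mul, hWz, ← hNWs] at h9
    nlinarith
  obtain ⟨hXc, -⟩ := nd_le_of_alpha hαW hωW hv
  set X := W.filter (fun y => y ≠ v ∧ ¬ G.Adj v y) with hX
  have hXW : X ⊆ W := filter_subset _ _
  have hXcard : X.card = r - 1 := hvd
  have h8 := card_sdiff_add_card_eq_card hXW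
  set Y := W \ X with hY
  have hYW : Y ⊆ W := sdiff_subset
  have hYcard : Y.card = r - 1 := by omega
  have hYz : (Y.card : ℤ) = r - 1 := by omega
  have hXz : (X.card : ℤ) = r - 1 := by omega
  have hdis : Disjoint X Y := disjoint_sdiff
  have hun : X ∪ Y = W := union_sdiff_of_subset hXW
  have h9 : (NE G W : ℤ) = NE G Y + 2 * ∑ y ∈ Y, (nd G X y : ℤ) := by
    have h10 := NE_union (G := G) hdis
    rw [hun, NE_clq hXc] at h10
    push_cast [h10]
    ring
  have h10 : ∀ y ∈ Y, (nd G X y : ℤ) + nd G Y y ≤ r - 1 := by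
    intro y hy
    have h11 := nd_union (G := G) hdis y
    rw [hun] at h11
    have h12 := hdeg y (hYW hy)
    omega
  have hNYs : (NE G Y : ℤ) = ∑ y ∈ Y, (nd G Y y : ℤ) := by unfold NE; push_cast; rfl
  have h11 := sum_le_sum h10
  rw [sum_add_distrib, sum_const, nsmul_eq_mul, hYz, ← hNYs] at h11
  have hNY : (NE G Y : ℤ) ≤ 2 := by nlinarith
  have hYc : Clq G Y := by
    intro y₁ hy₁ y₂ hy₂ hne
    by_contra hn
    have h12 : (nd G X y₁ : ℤ) + nd G X y₂ ≤ r - 1 := by
      have h13 : Disjoint (X.filter (fun y => y ≠ y₁ ∧ ¬ G.Adj y₁ y))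
          (X.filter (fun y => y ≠ y₂ ∧ ¬ G.Adj y₂ y)) := by
        rw [disjoint_left]
        intro x hx hx'
        rw [mem_filter] at hx hx'
        have h14 := (nd_le_of_alpha hαW hωW (hYW hy₁)).1 x
          (mem_filter.2 ⟨hXW hx.1, hx.2⟩) y₂
          (mem_filter.2 ⟨hYW hy₂, hne.symm, hn⟩) hx'.2.1
        exact hx'.2.2 h14.symm
      have h14 := card_le_card (union_subset (filter_subset (fun y => y ≠ y₁ ∧ ¬ G.Adj y₁ y) X)
        (filter_subset (fun y => y ≠ y₂ ∧ ¬ G.Adj y₂ y) X))
      rw [card_union_of_disjoint h13] at h14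
      unfold nd
      omega
    have h13 : ∀ y ∈ (Y.erase y₁).erase y₂, (nd G X y : ℤ) ≤ r - 1 := by
      intro y hy
      have := h10 y (mem_of_mem_erase (mem_of_mem_erase hy))
      omega
    have h14 := sum_le_sum h13
    rw [sum_const, nsmul_eq_mul] at h14
    have h15 := add_sum_erase Y (fun y => (nd G X y : ℤ)) hy₁
    have h16 := add_sum_erase (Y.erase y₁) (fun y => (nd G X y : ℤ)) (mem_erase.2 ⟨hne.symm, hy₂⟩)
    have h17 : (((Y.erase y₁).erase y₂).card : ℤ) = r - 3 := by
      rw [card_erase_of_mem (mem_erase.2 ⟨hne.symm, hy₂⟩), card_erase_of_mem hy₁]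
      omega
    rw [h17] at h14
    nlinarith
  -- property (P), slope one, on `X ∪ K` and `Y ∪ K`
  have key : ∀ Q : Finset V, Q ⊆ W → Clq G Q → Q.card = r - 1 →
      2 * (r : ℤ) - 5 ≤ ∑ x ∈ Q, (nd G K x : ℤ) := by
    intro Q hQ hQc hQn
    have hd : Disjoint K Q := disjoint_of_subset_right hQ disjoint_sdiff
    have e1 := hP.ne1 (K ∪ Q)
    have e2 := NE_union (G := G) hd
    rw [NE_clq hQc] at e2
    have e3 : ((K ∪ Q).card : ℤ) = r + 2 := by
      rw [card_union_of_disjoint hd]; omega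
    rw [e3] at e1
    have e4 : (NE G (K ∪ Q) : ℤ) = NE G K + 2 * ∑ x ∈ Q, (nd G K x : ℤ) := by
      rw [e2]; push_cast; ring
    linarith
  have k1 := key X hXW hXc hXcard
  have k2 := key Y hYW hYc hYcard
  have k3 : ∑ x ∈ W, (nd G K x : ℤ) = ∑ x ∈ X, (nd G K x : ℤ) + ∑ x ∈ Y, (nd G K x : ℤ) := by
    rw [← hun, sum_union hdis]
  rw [k3] at h6
  linarith

end Mantel

end Pool.Agent.Lib.MP_f04ccf_co

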