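import Pool.Agent.Lib.MP_f04ccf_co.M.NuI

/-!
MP_f04ccf_co, PLAN W, version [B]: the rectangles of N-types (members of PC pairs and N-ends) in the
tests over the items, the joint cell test.

* `Fam.cellG`: the cell test with any free class edges; `WCoreK.cellF`: with the rectangle of one N-type.
* `Fam.rowE_rectX`: T+ with a rectangle of class edges; `WCoreK.rowR`: of any item; `WCoreK.rowF`: of an
  N-type of the row `y` with tail `x`.
* `WCoreK.nu_one`, `WCoreK.nu_sq`: `(a - 1) b ≤ t t' + a`, `a (a - 2) ≤ t t'` for `a ≤ nu + pc`.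
* `WCoreK.joint2`: the joint cell test for items of value one of both homes.
-/

set_option autoImplicit false

namespace Pool.Agent.Lib.MP_f04ccf_co

open Finset

attribute [local instance] Classical.propDecidable

section Gen

variable {V : Type*} {G : SimpleGraph V}

/-- a rectangle of adjacent pairs inside two sets -/
lemma rect_dg {D D' X Y : Finset V} (hX : X ⊆ D) (hY : Y ⊆ D')
    (hXY : ∀ a ∈ X, ∀ c ∈ Y, G.Adj a c) :
    (X.card : ℤ) * Y.card ≤ ∑ c ∈ D', (dg G D c : ℤ) := by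
  have c1 : ∀ c ∈ Y, (X.card : ℤ) ≤ (dg G D c : ℤ) := by
    intro c hc
    have : X.card ≤ dg G D c := card_le_card fun a ha =>
      mem_filter.2 ⟨hX ha, (hXY a ha c hc).symm⟩
    exact_mod_cast this
  have c2 := (sum_le_sum c1).trans
    (sum_le_sum_of_subset_of_nonneg hY fun c _ _ => Nat.cast_nonneg (dg G D c))
  rw [sum_const, nsmul_eq_mul] at c2
  linarith

lemma card_sdiff_ge (D K : Finset V) {q : ℤ} (hq : (K.card : ℤ) ≤ q) :
    max 0 ((D.card : ℤ) - q) ≤ ((D \ K).card : ℤ) := by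
  refine max_le (Nat.cast_nonneg _) ?_
  have h2 : D.card ≤ (D \ K).card + K.card := card_le_card_sdiff_add_card
  have h3 : (D.card : ℤ) ≤ (D \ K).card + K.card := by exact_mod_cast h2
  linarith

end Gen

section CellG

variable {V : Type*} {G : SimpleGraph V} {Z T : Finset V} {hm : V → V} {r m t : ℕ}
  {A : Finset V} {S : V → Finset V} {U : V → Finset (Itm V)}

/-- **(CELL) over the basic integers, the missing pairs kept, any free class edges** -/
theorem Fam.cellG {S : Finset V} (hF : PFrame G r m t Z T) (hP : PG G r)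
    (hC : CSys G Z T hm A fun x => S.filter fun v => hm v = x)
    (hW : WSysT G (co G) A (CP G Z T fun x => S.filter fun v => hm v = x)
      (HP G Z T fun x => S.filter fun v => hm v = x) (tlo G T hm)) {U : V → Finset (Itm V)}
    (h : ∀ x ∈ A, Fam (co G) (CP G Z T fun x => S.filter fun v => hm v = x)
      (HP G Z T fun x => S.filter fun v => hm v = x) (tlo G T hm) x (U x))
    {x z : V} (hx : x ∈ A) (hz : z ∈ A) (hxz : x ≠ z) {K K' : Finset (Itm V)}
    (hK : K ⊆ U x) (hK' : K' ⊆ U z) (hk : ∀ u ∈ K, ikp (tlo G T hm) z u ≠ 0)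
    (hk' : ∀ u ∈ K', ikp (tlo G T hm) x u ≠ 0) {EX : ℤ}
    (hE : EX ≤ ∑ c ∈ CP G Z T (fun x => S.filter fun v => hm v = x) z
          \ (CP G Z T (fun x => S.filter fun v => hm v = x) z
            ∩ K'.biUnion (rpts (tlo G T hm) (fun Q => one1 (oth (tlo G T hm) x Q)) x)),
        (dg G (CP G Z T (fun x => S.filter fun v => hm v = x) x
          \ (CP G Z T (fun x => S.filter fun v => hm v = x) x
            ∩ K.biUnion (rpts (tlo G T hm) (fun Q => one1 (oth (tlo G T hm) z Q)) z))) c : ℤ)) :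
    2 * ∑ u ∈ K, (((r : ℤ) - 1) * ikp (tlo G T hm) z u + (1 - ipc u) * tI G Z T hm r S z
          - rmr G (CP G Z T fun x => S.filter fun v => hm v = x) (tlo G T hm) z u
          - iar G (CP G Z T (fun x => S.filter fun v => hm v = x) x) u)
      + 2 * ∑ u ∈ K', (((r : ℤ) - 1) * ikp (tlo G T hm) x u + (1 - ipc u) * tI G Z T hm r S x
          - rmr G (CP G Z T fun x => S.filter fun v => hm v = x) (tlo G T hm) x u
          - iar G (CP G Z T (fun x => S.filter fun v => hm v = x) z) u)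
      + 2 * EX
      ≤ 2 * ((r : ℤ) - 1 + tI G Z T hm r S x * tI G Z T hm r S z)
        + NE G (cpt (CP G Z T fun x => S.filter fun v => hm v = x) (tlo G T hm) K x z
            ∪ cpt (CP G Z T fun x => S.filter fun v => hm v = x) (tlo G T hm) K' z x)
        + 2 * (∑ u ∈ K, (ipc u : ℤ)) * ∑ u ∈ K', (ipc u : ℤ) := by
  set C := CP G Z T fun x => S.filter fun v => hm v = x with hCdef
  set tl := tlo G T hm with htl
  have hcard : ∀ x, ((C x).card : ℤ) = (r : ℤ) - 1 - tI G Z T hm r S x := fun x => card_CP_eq S x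
  have h1 := Fam.cell_k hF hP hC hW h hx hz hxz hK hK' hk hk'
    (X := fun Q => one1 (oth tl z Q)) (X' := fun Q => one1 (oth tl x Q))
    (fun Q => one1_sub _) (fun Q => one1_sub _)
  obtain ⟨a1, a2, a3⟩ := Fam.own_sums hW h hx hK hk
  obtain ⟨b1, b2, b3⟩ := Fam.own_sums hW h hz hK' hk'
  rw [a1, b1] at h1
  have h4 : ((C x ∩ K.biUnion (rpts tl (fun Q => one1 (oth tl z Q)) z)).card : ℤ)
      * (C z ∩ K'.biUnion (rpts tl (fun Q => one1 (oth tl x Q)) x)).card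
      ≤ (∑ u ∈ K, (ipc u : ℤ)) * ∑ u ∈ K', (ipc u : ℤ) :=
    mul_le_mul a3 b3 (Nat.cast_nonneg _) (sum_nonneg fun u _ => Nat.cast_nonneg _)
  have e1 : ∑ u ∈ K, (((r : ℤ) - 1) * ikp tl z u + (1 - ipc u) * tI G Z T hm r S z
          - rmr G C tl z u - iar G (C x) u)
      = ∑ u ∈ K, (((C z).card : ℤ) * ikp tl z u
          - (rcl G C tl (fun Q => one1 (oth tl z Q)) z u).card)
        + (∑ u ∈ K, ((ikp tl z u : ℤ) + 1 - ipc u)) * ((r : ℤ) - 1 - (C z).card)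
        - ∑ u ∈ K, (iar G (C x) u : ℤ) := by
    rw [sum_mul, ← sum_add_distrib, ← sum_sub_distrib]
    refine sum_congr rfl fun u _ => ?_
    rw [hcard]
    unfold rmr
    ring
  have e2 : ∑ u ∈ K', (((r : ℤ) - 1) * ikp tl x u + (1 - ipc u) * tI G Z T hm r S x
          - rmr G C tl x u - iar G (C z) u)
      = ∑ u ∈ K', (((C x).card : ℤ) * ikp tl x u
          - (rcl G C tl (fun Q => one1 (oth tl x Q)) x u).card)
        + (∑ u ∈ K', ((ikp tl x u : ℤ) + 1 - ipc u)) * ((r : ℤ) - 1 - (C x).card)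
        - ∑ u ∈ K', (iar G (C z) u : ℤ) := by
    rw [sum_mul, ← sum_add_distrib, ← sum_sub_distrib]
    refine sum_congr rfl fun u _ => ?_
    rw [hcard]
    unfold rmr
    ring
  have e3 : (r : ℤ) - 1 - (C x).card = tI G Z T hm r S x := by
    rw [hcard]
    ring
  have e4 : (r : ℤ) - 1 - (C z).card = tI G Z T hm r S z := by
    rw [hcard]
    ring
  rw [e1, e2]
  rw [e3, e4] at h1
  rw [e3, e4]
  have h6 : (NE G (cpt C tl K x z ∪ cpt C tl K' z x) : ℤ)
      = NE G (K.biUnion (rpts tl (fun Q => one1 (oth tl z Q)) z) \ C x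
            ∪ K'.biUnion (rpts tl (fun Q => one1 (oth tl x Q)) x) \ C z) := rfl
  rw [h6]
  linarith

/-- the class points among the used points are partners of PC pairs with this tail -/
lemma Fam.cls_pt (hW : WSysT G (co G) A (CP G Z T S) (HP G Z T S) (tlo G T hm))
    (h : ∀ x ∈ A, Fam (co G) (CP G Z T S) (HP G Z T S) (tlo G T hm) x (U x))
    {x y z : V} (hx : x ∈ A) (hy : y ∈ A) {u : Itm V} (hu : u ∈ U x)
    (hk : ikp (tlo G T hm) z u ≠ 0) {X : Finset V → Finset V}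
    (hX : ∀ Q, X Q ⊆ oth (tlo G T hm) z Q) {a : V} (ha : a ∈ rpts (tlo G T hm) X z u)
    (haC : a ∈ CP G Z T S y) :
    ∃ e, u = Sum.inr e ∧ e.2 = a ∧ tlo G T hm e.1 = z ∧ x = y := by
  have hf := h x hx
  rcases u with Q | e
  · exact absurd haC fun h1 => disjoint_left.1 (hW.dHC x hx y hy)
      (hf.sub Q hu (hf.rpts_sub hX ha)) h1
  · have h3 : tlo G T hm e.1 = z := by
      by_contra h4
      exact hk (by simp [ikp, h4])
    simp only [rpts] at ha
    rcases mem_insert.1 ha with h8 | h8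
    · exact absurd haC fun h9 => disjoint_left.1 (hW.dHC x hx y hy) (hf.pcH e hu) (h8 ▸ h9)
    · have h5 := mem_singleton.1 h8
      refine ⟨e, rfl, h5.symm, h3, ?_⟩
      by_contra hxy
      exact disjoint_left.1 (hW.dCC x hx y hy hxy) (hf.pcC e hu) (h5 ▸ haC)

/-- the number of the class points among the used points -/
lemma Fam.card_colpts (hW : WSysT G (co G) A (CP G Z T S) (HP G Z T S) (tlo G T hm))
    (h : ∀ x ∈ A, Fam (co G) (CP G Z T S) (HP G Z T S) (tlo G T hm) x (U x))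
    {y z : V} (hy : y ∈ A) {K : Finset (Itm V)}
    (hK : K ⊆ (A.erase z).biUnion U) (hk : ∀ u ∈ K, ikp (tlo G T hm) z u ≠ 0)
    {X : Finset V → Finset V} (hX : ∀ Q, X Q ⊆ oth (tlo G T hm) z Q) :
    ((CP G Z T S y ∩ K.biUnion (rpts (tlo G T hm) X z)).card : ℤ)
      ≤ ∑ u ∈ K, (if u ∈ U y then (ipc u : ℤ) else 0) := by
  have h2 : CP G Z T S y ∩ K.biUnion (rpts (tlo G T hm) X z)
      ⊆ K.biUnion fun u => CP G Z T S y ∩ rpts (tlo G T hm) X z u := by
    intro v hv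
    obtain ⟨h3, h4⟩ := mem_inter.1 hv
    obtain ⟨u, hu, h5⟩ := mem_biUnion.1 h4
    exact mem_biUnion.2 ⟨u, hu, mem_inter.2 ⟨h3, h5⟩⟩
  have h3 := (card_le_card h2).trans card_biUnion_le
  have h4 : ((CP G Z T S y ∩ K.biUnion (rpts (tlo G T hm) X z)).card : ℤ)
      ≤ ∑ u ∈ K, ((CP G Z T S y ∩ rpts (tlo G T hm) X z u).card : ℤ) := by exact_mod_cast h3
  refine h4.trans (sum_le_sum fun u hu => ?_)
  obtain ⟨x, hx, hux⟩ := mem_biUnion.1 (hK hu)
  have hxA := mem_of_mem_erase hx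
  by_cases h5 : (CP G Z T S y ∩ rpts (tlo G T hm) X z u).Nonempty
  · obtain ⟨a, ha⟩ := h5
    obtain ⟨a1, a2⟩ := mem_inter.1 ha
    obtain ⟨e, rfl, -, -, hxy⟩ := Fam.cls_pt hW h hxA hy hux (hk u hu) hX a2 a1
    rw [if_pos (hxy ▸ hux)]
    have h6 : CP G Z T S y ∩ rpts (tlo G T hm) X z (Sum.inr e) ⊆ {e.2} := by
      intro b hb
      obtain ⟨b1, b2⟩ := mem_inter.1 hb
      obtain ⟨e', he', h7, -, -⟩ := Fam.cls_pt hW h hxA hy hux (hk _ hu) hX b2 b1
      rw [mem_singleton, ← h7, Sum.inr.inj he']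
    have h7 := card_le_card h6
    rw [card_singleton] at h7
    simp only [ipc]
    exact_mod_cast h7
  · rw [not_nonempty_iff_eq_empty] at h5
    rw [h5, card_empty]
    split_ifs
    · exact Nat.cast_nonneg _
    · exact le_rfl

/-- **T+ with a rectangle of class edges** -/
theorem Fam.rowE_rectX (hF : PFrame G r m t Z T) (hP : PG G r) (hC : CSys G Z T hm A S)
    (hW : WSysT G (co G) A (CP G Z T S) (HP G Z T S) (tlo G T hm))
    (h : ∀ x ∈ A, Fam (co G) (CP G Z T S) (HP G Z T S) (tlo G T hm) x (U x))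
    {z y : V} (hz : z ∈ A) (hy : y ∈ A) (hzy : z ≠ y) {K : Finset (Itm V)}
    (hK : K ⊆ (A.erase z).biUnion U) (hk : ∀ u ∈ K, ikp (tlo G T hm) z u ≠ 0)
    {X : Finset V → Finset V} (hX : ∀ Q, X Q ⊆ oth (tlo G T hm) z Q)
    {X1 Y1 : Finset V} (hX1 : X1 ⊆ CP G Z T S z) (hX2 : ∀ e ∈ pcz (tlo G T hm) y (U z), e.2 ∉ X1)
    (hY1 : Y1 ⊆ CP G Z T S y \ K.biUnion (rpts (tlo G T hm) X z))
    (hXY : ∀ a ∈ X1, ∀ c ∈ Y1, G.Adj a c) :
    RowE G Z T hm r S U K X z y (2 * ((X1.card : ℤ) * Y1.card)) := by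
  refine (Fam.rowE_of hF hP hC hW h hz hy hzy hK hk hX hX1 hX2).anti ?_
  have h1 := rect_dg (G := G) (D := X1) subset_rfl hY1 hXY
  have h2 : (0 : ℤ) ≤ ∑ v ∈ K.biUnion (rpts (tlo G T hm) X z) \ CP G Z T S y,
      (dg G (HP G Z T S z) v : ℤ) := sum_nonneg fun _ _ => Nat.cast_nonneg _
  linarith

end CellG

section NuW

variable {V : Type*} {G : SimpleGraph V} {Z T : Finset V} {hm : V → V} {r m n p : ℕ}
  {B : V → Finset (V × V)} {Ps : V → Finset (Finset V)}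

/-- the missed class points of a member, `msd` and `msC` -/
lemma WCoreK.mem_msd (h : WCoreK G Z T r m n p hm) {x y v a : V} (hx : x ∈ T) (hy : y ∈ T)
    (hv : v ∈ hz G Z T hm x) :
    a ∈ msd G (cz G Z T hm y) v ↔ a ∈ cz G Z T hm y ∧ ¬ G.Adj v a := by
  unfold msd
  rw [mem_filter]
  refine ⟨fun h1 => ⟨h1.1, h1.2.2⟩, fun h1 => ⟨h1.1, fun h2 => ?_, h1.2⟩⟩
  exact disjoint_left.1 (h.wsysT.dHC x hx y hy) hv (h2 ▸ h1.1)

/-- **a representative of an item of value one**: a member with tail `y` with all free arcs towards `y`;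
it misses `nu + pc` class points at home -/
theorem WCoreK.rep (h : WCoreK G Z T r m n p hm) {x y : V} (hx : x ∈ T)
    (hpk : Pk G (cz G Z T hm x) (hz G Z T hm x) (tlo G T hm) (B x) (Ps x))
    (hmin : ∀ B' Ps', Pk G (cz G Z T hm x) (hz G Z T hm x) (tlo G T hm) B' Ps' →
      (Ps x).card ≤ Ps'.card) {u : Itm V} (hu : u ∈ pkf (B x) (Ps x)) (h1 : ivl u = 1)
    (hk : ikp (tlo G T hm) y u ≠ 0) :
    ∃ v ∈ imem u, v ∈ hz G Z T hm x ∧ tlo G T hm v = y ∧
      nui G (cz G Z T hm x) (tlo G T hm) (B x) y u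
        = (frC G (cz G Z T hm x) (tlo G T hm) (B x) v).card ∧
      nui G (cz G Z T hm x) (tlo G T hm) (B x) y u + ipc u
        ≤ (msd G (cz G Z T hm x) v).card := by
  have h32 := h.csys.h32 h.F.toPFrame h.hh h.toWHom.ht hx
  obtain ⟨v, hv, hvy, hnu⟩ := hpk.nui_one hmin h32 hu h1 hk
  have hfam := hpk.fam (h.csys.dCH hx hx).symm
  have hvH := hfam.imem_sub hu hv
  refine ⟨v, hv, hvH, hvy, hnu, ?_⟩
  rw [hnu]
  rcases u with P | e
  · have : frC G (cz G Z T hm x) (tlo G T hm) (B x) v ⊆ msd G (cz G Z T hm x) v := by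
      intro a ha
      obtain ⟨h2, h3, -⟩ := mem_frC.1 ha
      exact (h.mem_msd hx hx hvH).2 ⟨h2, h3⟩
    simpa [ipc] using card_le_card this
  · have he := inr_mem_pkf.1 hu
    have hve : v = e.1 := mem_singleton.1 hv
    have h2 : e.2 ∉ frC G (cz G Z T hm x) (tlo G T hm) (B x) v := fun h3 =>
      (mem_frC.1 h3).2.2 e he rfl (by rw [hve])
    have h3 : insert e.2 (frC G (cz G Z T hm x) (tlo G T hm) (B x) v)
        ⊆ msd G (cz G Z T hm x) v := by
      intro a ha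
      rcases mem_insert.1 ha with h4 | h4
      · rw [h4]
        refine (h.mem_msd hx hx hvH).2 ⟨hpk.bC e he, ?_⟩
        rw [hve]
        exact hpk.bN e he
      · obtain ⟨h5, h6, -⟩ := mem_frC.1 h4
        exact (h.mem_msd hx hx hvH).2 ⟨h5, h6⟩
    have h4 := card_le_card h3
    rw [card_insert_of_notMem h2] at h4
    simpa [ipc] using h4

/-- **one member**: `(a - 1) b ≤ t t' + a`, `a` own misses and `b` misses at the tail, or fewer -/
theorem WCoreK.one_le (hp : 2 * r ≤ p) (h : WCoreK G Z T r m n p hm) {x y v : V} (hx : x ∈ T)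
    (hv : v ∈ hz G Z T hm x) (hy : tlo G T hm v = y) {a b : ℕ}
    (ha : a ≤ (msd G (cz G Z T hm x) v).card) (hb : b ≤ (msd G (cz G Z T hm y) v).card) :
    ((a : ℤ) - 1) * b ≤ tI G Z T hm r Z x * tI G Z T hm r Z y + a := by
  have h0 := h.toWHom.ht x hx v hv
  rw [hy] at h0
  obtain ⟨hyx, hyT⟩ := mem_erase.1 h0
  have ht : ∀ z ∈ T, 0 ≤ tI G Z T hm r Z z := fun z hz' => h.hsys.tI_nonneg h.F h.ok hz'
  have hF := h.F.toPFrame
  have hcell := h.csys.cellD hF hx hyT hyx.symm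
  have hvD := h.csys.mem_Dbl_of_tlo h.hh hx hv hy
  have h8 : ((r : ℤ) - 1 - (cz G Z T hm x).card) * ((r : ℤ) - 1 - (cz G Z T hm y).card)
      = tI G Z T hm r Z x * tI G Z T hm r Z y := by
    unfold tI
    ring
  have h9 := mul_nonneg (ht x hx) (ht y hyT)
  rcases Nat.eq_zero_or_pos a with h1 | h1
  · rw [h1]
    push_cast
    have : (0 : ℤ) ≤ b := Nat.cast_nonneg _
    linarith
  · obtain ⟨c, hc⟩ := card_pos.1 (h1.trans_le ha)
    have h2 := hcell.one h.gp.P (h.csys.CP_clq hF hx) (h.csys.CP_clq hF hyT)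
      (h.wsysT.dCC x hx y hyT hyx.symm) hvD hc
    rw [h8] at h2
    have h3 : (a : ℤ) ≤ ((msd G (cz G Z T hm x) v).card : ℤ) := by exact_mod_cast ha
    have h4 : (b : ℤ) ≤ ((msd G (cz G Z T hm y) v).card : ℤ) := by exact_mod_cast hb
    have h5 : (1 : ℤ) ≤ a := by exact_mod_cast h1
    have h6 : ((msd G (cz G Z T hm x) v).card : ℤ) ≤ (msd G (cz G Z T hm y) v).card := by
      exact_mod_cast h.msd_le hp hx hv hy
    nlinarith

/-- the squares: `a (a - 2) ≤ t t'` -/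
theorem WCoreK.sq_le (hp : 2 * r ≤ p) (h : WCoreK G Z T r m n p hm) {x y v : V} (hx : x ∈ T)
    (hv : v ∈ hz G Z T hm x) (hy : tlo G T hm v = y) {a : ℕ}
    (ha : a ≤ (msd G (cz G Z T hm x) v).card) :
    (a : ℤ) * (a - 2) ≤ tI G Z T hm r Z x * tI G Z T hm r Z y := by
  have h1 := h.one_le hp hx hv hy ha (ha.trans (h.msd_le hp hx hv hy))
  nlinarith

/-- **the joint cell test**: `j` members of both homes with at least `q ≥ j` own misses -/
theorem WCoreK.jointW (hp : 2 * r ≤ p) (h : WCoreK G Z T r m n p hm) {x y : V} (hx : x ∈ T)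
    (hy : y ∈ T) (hxy : x ≠ y) {W W' : Finset V} (hW : ∀ v ∈ W, v ∈ hz G Z T hm x)
    (hWt : ∀ v ∈ W, tlo G T hm v = y) (hW' : ∀ v ∈ W', v ∈ hz G Z T hm y)
    (hWt' : ∀ v ∈ W', tlo G T hm v = x) {q : ℕ} (hq : ∀ v ∈ W, q ≤ (msd G (cz G Z T hm x) v).card)
    (hq' : ∀ v ∈ W', q ≤ (msd G (cz G Z T hm y) v).card) (hj : W.card + W'.card ≤ q)
    (hj1 : 1 ≤ W.card + W'.card) :
    4 * (((W.card : ℤ) + W'.card - 1) * ((r : ℤ) - 1))
        + 4 * ((q : ℤ) * (q - 2 * ((W.card : ℤ) + W'.card)))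
      ≤ 4 * (tI G Z T hm r Z x * tI G Z T hm r Z y) + ((W.card : ℤ) + W'.card) ^ 2 := by
  have hF := h.F.toPFrame
  have hcell := h.csys.cellD hF hx hy hxy
  have hdis : Disjoint W W' := disjoint_left.2 fun v hv hv' =>
    disjoint_left.1 (h.wsysT.dHH x hx y hy hxy) (hW v hv) (hW' v hv')
  have hcard : (W ∪ W').card = W.card + W'.card := card_union_of_disjoint hdis
  have hsub : W ∪ W' ⊆ Dbl G Z T x y := by
    intro v hv
    rcases mem_union.1 hv with hv | hv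
    · exact h.csys.mem_Dbl_of_tlo h.hh hx (hW v hv) (hWt v hv)
    · rw [Dbl_comm]
      exact h.csys.mem_Dbl_of_tlo h.hh hy (hW' v hv) (hWt' v hv)
  have h1 := hcell.joint h.gp.P (h.csys.CP_clq hF hx) (h.csys.CP_clq hF hy)
    (h.wsysT.dCC x hx y hy hxy) hsub (card_pos.1 (by omega)) (m := q) (by omega)
    (fun v hv => by
      rcases mem_union.1 hv with hv | hv
      · exact hq v hv
      · exact (hq' v hv).trans (h.msd_le hp hy (hW' v hv) (hWt' v hv)))
    (fun v hv => by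
      rcases mem_union.1 hv with hv | hv
      · exact (hq v hv).trans (h.msd_le hp hx (hW v hv) (hWt v hv))
      · exact hq' v hv)
  have h2 := hF.ne_cell hx hy hsub
  have h8 : ((r : ℤ) - 1 - (cz G Z T hm x).card) * ((r : ℤ) - 1 - (cz G Z T hm y).card)
      = tI G Z T hm r Z x * tI G Z T hm r Z y := by
    unfold tI
    ring
  rw [hcard] at h1 h2
  push_cast at h1 h2
  have h3 : 2 * (((W.card : ℤ) + W'.card - 1) * ((r : ℤ) - 1))
        + 2 * ((q : ℤ) * (q - 2 * ((W.card : ℤ) + W'.card)))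
      ≤ 2 * (tI G Z T hm r Z x * tI G Z T hm r Z y) + NE G (W ∪ W') := by
    rw [← h8]
    exact h1
  linarith

/-- representatives of items of value one -/
theorem WCoreK.reps (h : WCoreK G Z T r m n p hm) {x y : V} (hx : x ∈ T)
    (hpk : Pk G (cz G Z T hm x) (hz G Z T hm x) (tlo G T hm) (B x) (Ps x))
    (hmin : ∀ B' Ps', Pk G (cz G Z T hm x) (hz G Z T hm x) (tlo G T hm) B' Ps' →
      (Ps x).card ≤ Ps'.card) {K : Finset (Itm V)} (hK : K ⊆ pkf (B x) (Ps x))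
    (h1 : ∀ u ∈ K, ivl u = 1) (hk : ∀ u ∈ K, ikp (tlo G T hm) y u ≠ 0) {q : ℕ}
    (hq : ∀ u ∈ K, q ≤ nui G (cz G Z T hm x) (tlo G T hm) (B x) y u + ipc u) :
    ∃ W : Finset V, W.card = K.card ∧ (∀ v ∈ W, v ∈ hz G Z T hm x) ∧
      (∀ v ∈ W, tlo G T hm v = y) ∧ ∀ v ∈ W, q ≤ (msd G (cz G Z T hm x) v).card := by
  have hfam := hpk.fam (h.csys.dCH hx hx).symm
  have h2 : ∀ u ∈ K, ∃ v, v ∈ imem u ∧ v ∈ hz G Z T hm x ∧ tlo G T hm v = y ∧
      nui G (cz G Z T hm x) (tlo G T hm) (B x) y u + ipc u ≤ (msd G (cz G Z T hm x) v).card := by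
    intro u hu
    obtain ⟨v, hv, hvH, hvy, -, h3⟩ := h.rep hx hpk hmin (hK hu) (h1 u hu) (hk u hu)
    exact ⟨v, hv, hvH, hvy, h3⟩
  by_cases hne : K.Nonempty
  · obtain ⟨u0, hu0⟩ := hne
    obtain ⟨v0, -⟩ := h2 u0 hu0
    have : ∀ u, ∃ v, u ∈ K → v ∈ imem u ∧ v ∈ hz G Z T hm x ∧ tlo G T hm v = y ∧
        nui G (cz G Z T hm x) (tlo G T hm) (B x) y u + ipc u
          ≤ (msd G (cz G Z T hm x) v).card := by
      intro u
      by_cases hu : u ∈ K
      · obtain ⟨v, hv⟩ := h2 u hu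
        exact ⟨v, fun _ => hv⟩
      · exact ⟨v0, fun h3 => absurd h3 hu⟩
    choose f hf using this
    refine ⟨K.image f, card_image_of_injOn ?_, ?_, ?_, ?_⟩
    · intro u hu v hv huv
      by_contra hne
      exact disjoint_left.1 (hfam.dis u (hK hu) v (hK hv) hne) (hf u hu).1
        (huv ▸ (hf v hv).1)
    · intro v hv
      obtain ⟨u, hu, rfl⟩ := mem_image.1 hv
      exact (hf u hu).2.1
    · intro v hv
      obtain ⟨u, hu, rfl⟩ := mem_image.1 hv
      exact (hf u hu).2.2.1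
    · intro v hv
      obtain ⟨u, hu, rfl⟩ := mem_image.1 hv
      exact (hq u hu).trans (hf u hu).2.2.2
  · rw [not_nonempty_iff_eq_empty] at hne
    exact ⟨∅, by rw [hne, card_empty, card_empty], fun v hv => absurd hv (notMem_empty _),
      fun v hv => absurd hv (notMem_empty _), fun v hv => absurd hv (notMem_empty _)⟩

/-- **the joint cell test over the items** of value one of both homes -/
theorem WCoreK.joint2 (hp : 2 * r ≤ p) (h : WCoreK G Z T r m n p hm)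
    (hpk : ∀ x ∈ T, Pk G (cz G Z T hm x) (hz G Z T hm x) (tlo G T hm) (B x) (Ps x))
    (hmin : ∀ x ∈ T, ∀ B' Ps', Pk G (cz G Z T hm x) (hz G Z T hm x) (tlo G T hm) B' Ps' →
      (Ps x).card ≤ Ps'.card) {x y : V} (hx : x ∈ T)
    (hy : y ∈ T) (hxy : x ≠ y) {K K' : Finset (Itm V)} (hK : K ⊆ pkf (B x) (Ps x))
    (hK' : K' ⊆ pkf (B y) (Ps y))
    (h1 : ∀ u ∈ K, ivl u = 1) (hk : ∀ u ∈ K, ikp (tlo G T hm) y u ≠ 0)
    (h1' : ∀ u ∈ K', ivl u = 1) (hk' : ∀ u ∈ K', ikp (tlo G T hm) x u ≠ 0) {q : ℕ}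
    (hq : ∀ u ∈ K, q ≤ nui G (cz G Z T hm x) (tlo G T hm) (B x) y u + ipc u)
    (hq' : ∀ u ∈ K', q ≤ nui G (cz G Z T hm y) (tlo G T hm) (B y) x u + ipc u)
    (hj : K.card + K'.card ≤ q) (hj1 : 1 ≤ K.card + K'.card) :
    4 * (((K.card : ℤ) + K'.card - 1) * ((r : ℤ) - 1))
        + 4 * ((q : ℤ) * (q - 2 * ((K.card : ℤ) + K'.card)))
      ≤ 4 * (tI G Z T hm r Z x * tI G Z T hm r Z y) + ((K.card : ℤ) + K'.card) ^ 2 := by
  obtain ⟨W, hW, a1, a2, a3⟩ := h.reps hx (hpk x hx) (hmin x hx) hK h1 hk hq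
  obtain ⟨W', hW', b1, b2, b3⟩ := h.reps hy (hpk y hy) (hmin y hy) hK' h1' hk' hq'
  have h2 := h.jointW hp hx hy hxy a1 a2 b1 b2 a3 b3 (by omega) (by omega)
  rw [hW, hW'] at h2
  exact h2

/-- **one item of value one**: `(a - 1) b ≤ t t' + a`, `a = nu + pc` and `b = ms` -/
theorem WCoreK.nu_ms (hp : 2 * r ≤ p) (h : WCoreK G Z T r m n p hm) {x y : V} (hx : x ∈ T)
    (hpk : Pk G (cz G Z T hm x) (hz G Z T hm x) (tlo G T hm) (B x) (Ps x))
    (hmin : ∀ B' Ps', Pk G (cz G Z T hm x) (hz G Z T hm x) (tlo G T hm) B' Ps' →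
      (Ps x).card ≤ Ps'.card) {u : Itm V} (hu : u ∈ pkf (B x) (Ps x)) (h1 : ivl u = 1)
    (hk : ikp (tlo G T hm) y u ≠ 0) :
    ((nui G (cz G Z T hm x) (tlo G T hm) (B x) y u : ℤ) + ipc u - 1)
        * ims G (cz G Z T hm) (tlo G T hm) y u
      ≤ tI G Z T hm r Z x * tI G Z T hm r Z y
        + (nui G (cz G Z T hm x) (tlo G T hm) (B x) y u + ipc u) := by
  obtain ⟨v, hv, hvH, hvy, hnu, h3⟩ := h.rep hx hpk hmin hu h1 hk
  have hyT : y ∈ T := mem_of_mem_erase (hvy ▸ h.toWHom.ht x hx v hvH)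
  have h4 : ims G (cz G Z T hm) (tlo G T hm) y u ≤ (msd G (cz G Z T hm y) v).card := by
    rcases u with P | e
    · unfold ims icl
      simp only [rcl]
      split_ifs with h5
      · rw [card_empty]
        exact Nat.zero_le _
      · refine card_le_card fun c hc => ?_
        obtain ⟨h6, ⟨w, hw, hwy, hcw⟩, h7⟩ := mem_filter.1 hc
        refine (h.mem_msd hx hyT hvH).2 ⟨h6, fun h8 => ?_⟩
        by_cases hvw : w = v
        · exact hcw (hvw ▸ h8.symm)
        · -- then the part has two members with tail `y`, so all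
          apply h5
          have hc2 : P.card = 2 := by
            simp only [ivl] at h1
            have := (inl_mem_pkf.1 hu).2
            omega
          have h9 : ({w, v} : Finset V) = P := by
            refine eq_of_subset_of_card_le ?_ ?_
            · intro a ha
              rcases mem_insert.1 ha with rfl | ha
              · exact hw
              · rw [mem_singleton.1 ha]
                exact hv
            · rw [hc2, card_pair hvw]
          unfold tlp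
          rw [filter_eq_self, ← h9]
          intro a ha
          rcases mem_insert.1 ha with rfl | ha
          · exact hwy
          · rw [mem_singleton.1 ha]
            exact hvy
    · unfold ims icl
      simp [rcl]
  have h5 := h.one_le hp hx hvH hvy h3 h4
  push_cast at h5
  exact h5

/-- `a (a - 2) ≤ t t'` for `a = nu + pc` -/
theorem WCoreK.nu_sq (hp : 2 * r ≤ p) (h : WCoreK G Z T r m n p hm) {x y : V} (hx : x ∈ T)
    (hpk : Pk G (cz G Z T hm x) (hz G Z T hm x) (tlo G T hm) (B x) (Ps x))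
    (hmin : ∀ B' Ps', Pk G (cz G Z T hm x) (hz G Z T hm x) (tlo G T hm) B' Ps' →
      (Ps x).card ≤ Ps'.card) {u : Itm V} (hu : u ∈ pkf (B x) (Ps x)) (h1 : ivl u = 1)
    (hk : ikp (tlo G T hm) y u ≠ 0) :
    ((nui G (cz G Z T hm x) (tlo G T hm) (B x) y u : ℤ) + ipc u)
        * ((nui G (cz G Z T hm x) (tlo G T hm) (B x) y u : ℤ) + ipc u - 2)
      ≤ tI G Z T hm r Z x * tI G Z T hm r Z y := by
  obtain ⟨v, hv, hvH, hvy, hnu, h3⟩ := h.rep hx hpk hmin hu h1 hk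
  have h5 := h.sq_le hp hx hvH hvy h3
  push_cast at h5
  exact h5

/-- **the cell test with the rectangle of one N-type** `w` of the home `x`: its free arcs at `x`, at
least `nu + pc` missed points at `z` -/
theorem WCoreK.cellF (hp : 2 * r ≤ p) (h : WCoreK G Z T r m n p hm)
    (hpk : ∀ x ∈ T, Pk G (cz G Z T hm x) (hz G Z T hm x) (tlo G T hm) (B x) (Ps x))
    (hmin : ∀ x ∈ T, ∀ B' Ps', Pk G (cz G Z T hm x) (hz G Z T hm x) (tlo G T hm) B' Ps' →
      (Ps x).card ≤ Ps'.card) {x z : V} (hx : x ∈ T) (hz' : z ∈ T) (hxz : x ≠ z)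
    {K K' : Finset (Itm V)}
    (hK : K ⊆ pkf (B x) (Ps x)) (hK' : K' ⊆ pkf (B z) (Ps z))
    (hk : ∀ u ∈ K, ikp (tlo G T hm) z u ≠ 0)
    (hk' : ∀ u ∈ K', ikp (tlo G T hm) x u ≠ 0) {w : Itm V} (hw : w ∈ pkf (B x) (Ps x))
    (hw1 : ivl w = 1) (hwk : ikp (tlo G T hm) z w ≠ 0) :
    2 * ∑ u ∈ K, (((r : ℤ) - 1) * ikp (tlo G T hm) z u + (1 - ipc u) * tI G Z T hm r Z z
          - rmr G (cz G Z T hm) (tlo G T hm) z u - iar G (cz G Z T hm x) u)
      + 2 * ∑ u ∈ K', (((r : ℤ) - 1) * ikp (tlo G T hm) x u + (1 - ipc u) * tI G Z T hm r Z x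
          - rmr G (cz G Z T hm) (tlo G T hm) x u - iar G (cz G Z T hm z) u)
      + 2 * ((nui G (cz G Z T hm x) (tlo G T hm) (B x) z w : ℤ)
        * max 0 ((nui G (cz G Z T hm x) (tlo G T hm) (B x) z w : ℤ) + ipc w
          - ∑ u ∈ K', (ipc u : ℤ)))
      ≤ 2 * ((r : ℤ) - 1 + tI G Z T hm r Z x * tI G Z T hm r Z z)
        + NE G (cpt (cz G Z T hm) (tlo G T hm) K x z ∪ cpt (cz G Z T hm) (tlo G T hm) K' z x)
        + 2 * (∑ u ∈ K, (ipc u : ℤ)) * ∑ u ∈ K', (ipc u : ℤ) := by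
  have hF := h.F.toPFrame
  have hfam : ∀ x ∈ T, Fam (co G) (cz G Z T hm) (hz G Z T hm) (tlo G T hm) x
      (pkf (B x) (Ps x)) := fun x hx => (hpk x hx).fam (h.csys.dCH hx hx).symm
  obtain ⟨v, hv, hvH, hvz, hnu, h3⟩ := h.rep hx (hpk x hx) (hmin x hx) hw hw1 hwk
  refine Fam.cellG hF h.gp.P h.csys h.wsysT hfam hx hz' hxz hK hK' hk hk' ?_
  set P := cz G Z T hm x
    ∩ K.biUnion (rpts (tlo G T hm) (fun Q => one1 (oth (tlo G T hm) z Q)) z) with hP'
  set P' := cz G Z T hm z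
    ∩ K'.biUnion (rpts (tlo G T hm) (fun Q => one1 (oth (tlo G T hm) x Q)) x) with hP''
  obtain ⟨b1, b2, b3⟩ := Fam.own_sums h.wsysT hfam hz' hK' hk'
  have c1 : frC G (cz G Z T hm x) (tlo G T hm) (B x) v ⊆ cz G Z T hm x \ P := by
    intro a ha
    obtain ⟨a1, a2, a3⟩ := mem_frC.1 ha
    refine mem_sdiff.2 ⟨a1, fun h4 => ?_⟩
    obtain ⟨h5, h6⟩ := mem_inter.1 h4
    obtain ⟨u, hu, h7⟩ := mem_biUnion.1 h6
    obtain ⟨e, rfl, h8, h9, -⟩ := Fam.cls_pt h.wsysT hfam hx hx (hK hu) (hk u hu)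
      (fun Q => one1_sub _) h7 h5
    exact a3 e (inr_mem_pkf.1 (hK hu)) h8 (h9.trans hvz.symm)
  have c2 := card_sdiff_ge (msd G (cz G Z T hm z) v) P' b3
  have c3 := rect_dg (G := G) (D := cz G Z T hm x \ P) (D' := cz G Z T hm z \ P')
    (X := frC G (cz G Z T hm x) (tlo G T hm) (B x) v) (Y := msd G (cz G Z T hm z) v \ P') c1
    (sdiff_subset_sdiff (fun a ha => ((h.mem_msd hx hz' hvH).1 ha).1) subset_rfl)
    (fun a ha c hc => by
      have hcell := h.csys.cellD hF hx hz' hxz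
      have hvD := h.csys.mem_Dbl_of_tlo h.hh hx hvH hvz
      obtain ⟨a1, a2, -⟩ := mem_frC.1 ha
      obtain ⟨a3, a4⟩ := (h.mem_msd hx hz' hvH).1 (mem_sdiff.1 hc).1
      exact hcell.rect v hvD a a1 c a3 a2 a4)
  have c4 : ((nui G (cz G Z T hm x) (tlo G T hm) (B x) z w : ℤ) + ipc w)
      ≤ ((msd G (cz G Z T hm z) v).card : ℤ) := by
    have := h3.trans (h.msd_le hp hx hvH hvz)
    exact_mod_cast this
  rw [← hnu] at c3
  refine le_trans ?_ c3
  refine mul_le_mul_of_nonneg_left ?_ (Nat.cast_nonneg _)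
  refine le_trans (max_le_max le_rfl ?_) c2
  linarith

/-- **T+ with the rectangle of any item** -/
theorem WCoreK.rowR (h : WCoreK G Z T r m n p hm)
    (hpk : ∀ x ∈ T, Pk G (cz G Z T hm x) (hz G Z T hm x) (tlo G T hm) (B x) (Ps x))
    {x y : V} (hx : x ∈ T) (hy : y ∈ T) (hxy : x ≠ y) {K : Finset (Itm V)}
    (hK : K ⊆ (T.erase x).biUnion fun x => pkf (B x) (Ps x))
    (h0 : 0 ≤ sI hm r Z x + ∑ u ∈ K, (ikp (tlo G T hm) x u : ℤ)) {w : Itm V} {x' : V}
    (hx' : x' ∈ T) (hw : w ∈ pkf (B x') (Ps x')) :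
    2 * ((r : ℤ) - 1) * sI hm r Z x
      + 2 * ∑ u ∈ K, ((ikp (tlo G T hm) x u : ℤ) * ((r : ℤ) - 1 - tI G Z T hm r Z x)
          - rmr G (cz G Z T hm) (tlo G T hm) x u)
      + 2 * ∑ u ∈ pkf (B x) (Ps x), ((ikp (tlo G T hm) y u : ℤ)
          * ((r : ℤ) - 1 - tI G Z T hm r Z y) - ims G (cz G Z T hm) (tlo G T hm) y u)
      + 2 * (max 0 ((ims G (cz G Z T hm) (tlo G T hm) x w : ℤ) - pcn (tlo G T hm) B x y)
        * max 0 ((ims G (cz G Z T hm) (tlo G T hm) y w : ℤ)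
          - ∑ u ∈ K, (if u ∈ pkf (B y) (Ps y) then (ipc u : ℤ) * ikp (tlo G T hm) x u else 0)))
      ≤ 2 * eI G hm Z x
        + 2 * (∑ u ∈ K, (2 * (ikp (tlo G T hm) x u : ℤ)
              - if u ∈ pkf (B y) (Ps y) then (ipc u : ℤ) * ikp (tlo G T hm) x u else 0)
            + ((r : ℤ) - 1 - tI G Z T hm r Z y)) * (sI hm r Z x + 1)
        + (∑ u ∈ K, (2 * (ikp (tlo G T hm) x u : ℤ)
              - if u ∈ pkf (B y) (Ps y) then (ipc u : ℤ) * ikp (tlo G T hm) x u else 0))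
          * (∑ u ∈ K, (2 * (ikp (tlo G T hm) x u : ℤ)
              - if u ∈ pkf (B y) (Ps y) then (ipc u : ℤ) * ikp (tlo G T hm) x u else 0) - 1)
        + 2 * ∑ u ∈ K, (if u ∈ pkf (B y) (Ps y) then (iar G (cz G Z T hm y) u : ℤ)
            else 2 * ((r : ℤ) - 1 - tI G Z T hm r Z y) * ikp (tlo G T hm) x u)
        + 2 * (∑ u ∈ K, (if u ∈ pkf (B y) (Ps y) then (ipc u : ℤ) * ikp (tlo G T hm) x u else 0))
          * (∑ u ∈ pkf (B x) (Ps x), (ipc u : ℤ) * ikp (tlo G T hm) y u) := by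
  have hF := h.F.toPFrame
  have hfam : ∀ x ∈ T, Fam (co G) (cz G Z T hm) (hz G Z T hm) (tlo G T hm) x
      (pkf (B x) (Ps x)) := fun x hx => (hpk x hx).fam (h.csys.dCH hx hx).symm
  have hpcz : pcz (tlo G T hm) y (pkf (B x) (Ps x)) = pcs (tlo G T hm) (B x) y := by
    ext e
    rw [mem_pcz, inr_mem_pkf, mem_pcs]
  set K0 := K.filter fun u => ikp (tlo G T hm) x u ≠ 0 with hK0
  set Wp := K0.biUnion (rpts (tlo G T hm) (fun Q => one1 (oth (tlo G T hm) x Q)) x) with hWp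
  have hK0s : K0 ⊆ (T.erase x).biUnion fun x => pkf (B x) (Ps x) := (filter_subset _ _).trans hK
  have hk0 : ∀ u ∈ K0, ikp (tlo G T hm) x u ≠ 0 := fun u hu => (mem_filter.1 hu).2
  have h1 := Fam.card_colpts h.wsysT hfam hy hK0s hk0
    (X := fun Q => one1 (oth (tlo G T hm) x Q)) (fun Q => one1_sub _)
  have h2 : ∑ u ∈ K0, (if u ∈ pkf (B y) (Ps y) then (ipc u : ℤ) else 0)
      ≤ ∑ u ∈ K, (if u ∈ pkf (B y) (Ps y) then (ipc u : ℤ) * ikp (tlo G T hm) x u else 0) := by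
    refine le_trans (sum_le_sum (g := fun u => if u ∈ pkf (B y) (Ps y) then
      (ipc u : ℤ) * ikp (tlo G T hm) x u else 0) fun u hu => ?_)
      (sum_le_sum_of_subset_of_nonneg (filter_subset _ _) fun u _ _ => ?_)
    · split_ifs
      · have h3 : 1 ≤ ikp (tlo G T hm) x u := Nat.one_le_iff_ne_zero.2 (hk0 u hu)
        have h4 : (1 : ℤ) ≤ ikp (tlo G T hm) x u := by exact_mod_cast h3
        have h5 : (0 : ℤ) ≤ ipc u := Nat.cast_nonneg _
        nlinarith
      · exact le_rfl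
    · split_ifs
      · exact mul_nonneg (Nat.cast_nonneg _) (Nat.cast_nonneg _)
      · exact le_rfl
  have hE := Fam.rowE_rectX hF h.gp.P h.csys h.wsysT hfam hx hy hxy hK0s hk0
    (X := fun Q => one1 (oth (tlo G T hm) x Q)) (fun Q => one1_sub _)
    (X1 := icl G (cz G Z T hm) (tlo G T hm) x w \ (pcs (tlo G T hm) (B x) y).image Prod.snd)
    (Y1 := icl G (cz G Z T hm) (tlo G T hm) y w \ Wp)
    (fun a ha => rcl_sub (mem_sdiff.1 ha).1)
    (fun e he h3 => (mem_sdiff.1 h3).2 (mem_image_of_mem _ (hpcz ▸ he)))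
    (sdiff_subset_sdiff rcl_sub subset_rfl)
    (fun a ha c hc => (hfam x' hx').icl_complete h.wsysT hx' hx hy hxy hw a (mem_sdiff.1 ha).1
      c (mem_sdiff.1 hc).1)
  refine Fam.rowcI_of h.csys h.wsysT hfam hx hy hxy hK h0 (hE.anti ?_)
  have a1 := card_sdiff_ge (icl G (cz G Z T hm) (tlo G T hm) x w)
    ((pcs (tlo G T hm) (B x) y).image Prod.snd) (q := pcn (tlo G T hm) B x y) (by
      unfold pcn
      exact_mod_cast card_image_le)
  have a2 : max 0 (((icl G (cz G Z T hm) (tlo G T hm) y w).card : ℤ)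
      - ∑ u ∈ K, (if u ∈ pkf (B y) (Ps y) then (ipc u : ℤ) * ikp (tlo G T hm) x u else 0))
      ≤ ((icl G (cz G Z T hm) (tlo G T hm) y w \ Wp).card : ℤ) := by
    have h3 : icl G (cz G Z T hm) (tlo G T hm) y w \ Wp
        = icl G (cz G Z T hm) (tlo G T hm) y w \ (cz G Z T hm y ∩ Wp) := by
      ext a
      rw [mem_sdiff, mem_sdiff, mem_inter]
      constructor
      · rintro ⟨h4, h5⟩
        exact ⟨h4, fun h6 => h5 h6.2⟩
      · rintro ⟨h4, h5⟩
        exact ⟨h4, fun h6 => h5 ⟨rcl_sub h4, h6⟩⟩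
    rw [h3]
    exact card_sdiff_ge _ _ (h1.trans h2)
  have a3 := mul_le_mul a1 a2 (le_max_left _ _) (Nat.cast_nonneg _)
  have e5 : ∀ v, (ims G (cz G Z T hm) (tlo G T hm) v w : ℤ)
      = ((icl G (cz G Z T hm) (tlo G T hm) v w).card : ℤ) := fun _ => rfl
  rw [e5, e5]
  linarith

/-- **T+ with the rectangle of an N-type of the row `y` with tail `x`** -/
theorem WCoreK.rowF (hp : 2 * r ≤ p) (h : WCoreK G Z T r m n p hm)
    (hpk : ∀ x ∈ T, Pk G (cz G Z T hm x) (hz G Z T hm x) (tlo G T hm) (B x) (Ps x))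
    (hmin : ∀ x ∈ T, ∀ B' Ps', Pk G (cz G Z T hm x) (hz G Z T hm x) (tlo G T hm) B' Ps' →
      (Ps x).card ≤ Ps'.card)
    {x y : V} (hx : x ∈ T) (hy : y ∈ T) (hxy : x ≠ y) {K : Finset (Itm V)}
    (hK : K ⊆ (T.erase x).biUnion fun x => pkf (B x) (Ps x))
    (h0 : 0 ≤ sI hm r Z x + ∑ u ∈ K, (ikp (tlo G T hm) x u : ℤ)) {w : Itm V}
    (hw : w ∈ pkf (B y) (Ps y)) (hw1 : ivl w = 1) (hwk : ikp (tlo G T hm) x w ≠ 0) :
    2 * ((r : ℤ) - 1) * sI hm r Z x
      + 2 * ∑ u ∈ K, ((ikp (tlo G T hm) x u : ℤ) * ((r : ℤ) - 1 - tI G Z T hm r Z x)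
          - rmr G (cz G Z T hm) (tlo G T hm) x u)
      + 2 * ∑ u ∈ pkf (B x) (Ps x), ((ikp (tlo G T hm) y u : ℤ)
          * ((r : ℤ) - 1 - tI G Z T hm r Z y) - ims G (cz G Z T hm) (tlo G T hm) y u)
      + 2 * (max 0 ((nui G (cz G Z T hm y) (tlo G T hm) (B y) x w : ℤ) + ipc w
          - pcn (tlo G T hm) B x y)
        * nui G (cz G Z T hm y) (tlo G T hm) (B y) x w)
      ≤ 2 * eI G hm Z x
        + 2 * (∑ u ∈ K, (2 * (ikp (tlo G T hm) x u : ℤ)
              - if u ∈ pkf (B y) (Ps y) then (ipc u : ℤ) * ikp (tlo G T hm) x u else 0)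
            + ((r : ℤ) - 1 - tI G Z T hm r Z y)) * (sI hm r Z x + 1)
        + (∑ u ∈ K, (2 * (ikp (tlo G T hm) x u : ℤ)
              - if u ∈ pkf (B y) (Ps y) then (ipc u : ℤ) * ikp (tlo G T hm) x u else 0))
          * (∑ u ∈ K, (2 * (ikp (tlo G T hm) x u : ℤ)
              - if u ∈ pkf (B y) (Ps y) then (ipc u : ℤ) * ikp (tlo G T hm) x u else 0) - 1)
        + 2 * ∑ u ∈ K, (if u ∈ pkf (B y) (Ps y) then (iar G (cz G Z T hm y) u : ℤ)
            else 2 * ((r : ℤ) - 1 - tI G Z T hm r Z y) * ikp (tlo G T hm) x u)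
        + 2 * (∑ u ∈ K, (if u ∈ pkf (B y) (Ps y) then (ipc u : ℤ) * ikp (tlo G T hm) x u else 0))
          * (∑ u ∈ pkf (B x) (Ps x), (ipc u : ℤ) * ikp (tlo G T hm) y u) := by
  have hF := h.F.toPFrame
  have hfam : ∀ x ∈ T, Fam (co G) (cz G Z T hm) (hz G Z T hm) (tlo G T hm) x
      (pkf (B x) (Ps x)) := fun x hx => (hpk x hx).fam (h.csys.dCH hx hx).symm
  have hpcz : pcz (tlo G T hm) y (pkf (B x) (Ps x)) = pcs (tlo G T hm) (B x) y := by
    ext e
    rw [mem_pcz, inr_mem_pkf, mem_pcs]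
  obtain ⟨v, hv, hvH, hvx, hnu, h3⟩ := h.rep hy (hpk y hy) (hmin y hy) hw hw1 hwk
  set K0 := K.filter fun u => ikp (tlo G T hm) x u ≠ 0 with hK0
  set Wp := K0.biUnion (rpts (tlo G T hm) (fun Q => one1 (oth (tlo G T hm) x Q)) x) with hWp
  have hK0s : K0 ⊆ (T.erase x).biUnion fun x => pkf (B x) (Ps x) := (filter_subset _ _).trans hK
  have hk0 : ∀ u ∈ K0, ikp (tlo G T hm) x u ≠ 0 := fun u hu => (mem_filter.1 hu).2
  have c1 : frC G (cz G Z T hm y) (tlo G T hm) (B y) v ⊆ cz G Z T hm y \ Wp := by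
    intro a ha
    obtain ⟨a1, a2, a3⟩ := mem_frC.1 ha
    refine mem_sdiff.2 ⟨a1, fun h4 => ?_⟩
    obtain ⟨u, hu, h7⟩ := mem_biUnion.1 h4
    obtain ⟨x', hx', hux'⟩ := mem_biUnion.1 (hK0s hu)
    obtain ⟨e, rfl, h8, h9, h10⟩ := Fam.cls_pt h.wsysT hfam (mem_of_mem_erase hx') hy hux'
      (hk0 u hu) (fun Q => one1_sub _) h7 a1
    exact a3 e (inr_mem_pkf.1 (h10 ▸ hux')) h8 (h9.trans hvx.symm)
  have hcell := h.csys.cellD hF hy hx hxy.symm
  have hvD := h.csys.mem_Dbl_of_tlo h.hh hy hvH hvx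
  have hE := Fam.rowE_rectX hF h.gp.P h.csys h.wsysT hfam hx hy hxy hK0s hk0
    (X := fun Q => one1 (oth (tlo G T hm) x Q)) (fun Q => one1_sub _)
    (X1 := msd G (cz G Z T hm x) v \ (pcs (tlo G T hm) (B x) y).image Prod.snd)
    (Y1 := frC G (cz G Z T hm y) (tlo G T hm) (B y) v)
    (fun a ha => ((h.mem_msd hy hx hvH).1 (mem_sdiff.1 ha).1).1)
    (fun e he h4 => (mem_sdiff.1 h4).2 (mem_image_of_mem _ (hpcz ▸ he)))
    c1
    (fun a ha c hc => by
      obtain ⟨a1, a2⟩ := (h.mem_msd hy hx hvH).1 (mem_sdiff.1 ha).1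
      obtain ⟨a3, a4, -⟩ := mem_frC.1 hc
      exact (hcell.rect v hvD c a3 a a1 a4 a2).symm)
  refine Fam.rowcI_of h.csys h.wsysT hfam hx hy hxy hK h0 (hE.anti ?_)
  have a1 := card_sdiff_ge (msd G (cz G Z T hm x) v)
    ((pcs (tlo G T hm) (B x) y).image Prod.snd) (q := pcn (tlo G T hm) B x y) (by
      unfold pcn
      exact_mod_cast card_image_le)
  have a2 : ((nui G (cz G Z T hm y) (tlo G T hm) (B y) x w : ℤ) + ipc w)
      ≤ ((msd G (cz G Z T hm x) v).card : ℤ) := by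
    have := h3.trans (h.msd_le hp hy hvH hvx)
    exact_mod_cast this
  rw [hnu] at a2 ⊢
  have a3 : max 0 (((frC G (cz G Z T hm y) (tlo G T hm) (B y) v).card : ℤ) + ipc w
      - pcn (tlo G T hm) B x y)
      ≤ ((msd G (cz G Z T hm x) v \ (pcs (tlo G T hm) (B x) y).image Prod.snd).card : ℤ) :=
    le_trans (max_le_max le_rfl (by linarith)) a1
  have a4 := mul_le_mul_of_nonneg_right a3
    (Nat.cast_nonneg (α := ℤ) (frC G (cz G Z T hm y) (tlo G T hm) (B y) v).card)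
  linarith

end NuW

end Pool.Agent.Lib.MP_f04ccf_co
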