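import Mathlib

/-!
The numeric lemma for three rows (T-form). All numbers are integers.

For the row `z`: `c = R - t` is the size of the class, `t + s + 1` the size of the home, `T` the cover number, `e` the number of
missing pairs, `m = 1 - s`. `E` is the number of edges between the slots.

* `Host t s T e`: the host bound (LEMMA F).
* `N3`: three rows `t3 ≤ t2 ≤ t1` of mass `≤ R - 4`, the host bounds and (P) with slope `1` for the rows with `0 < s`.
* `LO`: the edges from the layers, `UP`: twice the edges which (P) allows.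
* `N3.caseA`: all fronts exist. `N3.caseB` .. `N3.caseE`: fronts of the rows `2`, `3` are missing, `E` is larger.
* `num3`: the combined lemma with the loads `i` and the kills `k`.
-/

namespace NumT

/-- The host bound (T-form): `e ≤ T t + C(s + 1, 2) + 1` for `0 ≤ s`, `e ≤ T h` for `s < 0`. -/
structure Host (t s T e : ℤ) : Prop where
  pos : 0 ≤ s → 2 * e ≤ 2 * (T * t) + s * (s + 1) + 2
  neg : s < 0 → e ≤ T * (t + s + 1)

/-- The twofold slack of the host bound. -/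
theorem Host.slack {t s T e : ℤ} (h : Host t s T e) (hT : 0 ≤ T) :
    -s - 2 ≤ 2 * (T * t) - 2 * e + s * s := by
  rcases le_or_gt 0 s with hs | hs
  · have := h.pos hs
    nlinarith
  · have := h.neg hs
    have h1 : 0 ≤ T * (-s - 1) := mul_nonneg hT (by omega)
    have h2 : 0 ≤ (-s) * (-s - 1) := mul_nonneg (by omega) (by omega)
    nlinarith

theorem Host.slack_neg {t s T e : ℤ} (h : Host t s T e) (hs : s < 0) :
    s * s + 2 * (T * (-s - 1)) ≤ 2 * (T * t) - 2 * e + s * s := by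
  have := h.neg hs
  nlinarith

/-- The tie inequality. -/
theorem tie {R a b t2 t3 L2 L3 : ℤ} (h2 : R - L2 ≤ a * t2) (h3 : R - L3 ≤ b * t3) :
    R * (a * a + b * b) - b * b * L2 - a * a * L3 ≤ a * b * (b * t2 + a * t3) := by
  have e1 := mul_le_mul_of_nonneg_left h2 (mul_self_nonneg b)
  have e2 := mul_le_mul_of_nonneg_left h3 (mul_self_nonneg a)
  nlinarith

/-- Three rows. -/
structure N3 (R t1 t2 t3 s1 s2 s3 T1 T2 T3 e1 e2 e3 : ℤ) : Prop where
  hR : 7 ≤ R
  t21 : t2 ≤ t1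
  t32 : t3 ≤ t2
  t30 : 0 ≤ t3
  mass : t1 + t2 + t3 ≤ R - 4
  sum : s1 + s2 + s3 = 1
  hT1 : 0 ≤ T1
  hT2 : 0 ≤ T2
  hT3 : 0 ≤ T3
  sT1 : s1 + 1 ≤ T1
  sT2 : s2 + 1 ≤ T2
  sT3 : s3 + 1 ≤ T3
  h30 : 0 ≤ t3 + s3 + 1
  h2R : t2 + s2 ≤ R
  h3R : t3 + s3 ≤ R
  H1 : Host t1 s1 T1 e1
  H2 : Host t2 s2 T2 e2
  H3 : Host t3 s3 T3 e3
  P1 : 0 < s1 → R * s1 ≤ e1
  P2 : 0 < s2 → R * s2 ≤ e2
  P3 : 0 < s3 → R * s3 ≤ e3

/-- The edges between the slots which (P) allows, twice. -/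
def UP (R s1 s2 s3 e1 e2 e3 : ℤ) : ℤ :=
  2 * (e1 + e2 + e3) + 4 * R + 11 - (s1 * s1 + s2 * s2 + s3 * s3)

/-- The edges between the slots from the layers. -/
def LO (R t1 t2 t3 s3 T1 T2 T3 : ℤ) : ℤ :=
  (R - t1) * (T1 + T2 + T3) + (t1 - t2) * T1 + (t2 - t3) * (1 - s3)

/-- The test of a row with `0 < s`. -/
theorem row_P {R t s T e : ℤ} (hs : 0 < s) (hH : Host t s T e)
    (hP : R * s ≤ e) (ht : 2 * t + s + 2 ≤ 2 * R) : R - 2 ≤ (1 - s + T) * t := by
  have h1 := hH.pos hs.le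
  have h2 : 0 ≤ (s - 1) * (2 * R - 2 * t - (s + 2)) := mul_nonneg (by omega) (by omega)
  nlinarith

theorem row_Z {R t s T e l : ℤ} (hs : s = 0) (hH : Host t s T e)
    (hP : R ≤ (1 - s) * t + e + l) : R - (l + 1) ≤ (1 - s + T) * t := by
  subst hs
  have h1 := hH.pos le_rfl
  nlinarith

theorem row_S {R t s T e l : ℤ} (hs : s < 0) (hH : Host t s T e)
    (hP : R ≤ (1 - s) * t + e + l) : R - (l - T * (-s - 1)) ≤ (1 - s + T) * t := by
  have h1 := hH.neg hs
  nlinarith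

variable {R t1 t2 t3 s1 s2 s3 T1 T2 T3 e1 e2 e3 : ℤ}

namespace N3

/-- The basic inequality: `2 (LO - UP / 2)` from the slacks `x`. -/
theorem base (h : N3 R t1 t2 t3 s1 s2 s3 T1 T2 T3 e1 e2 e3) {x2 x3 : ℤ}
    (h2 : x2 ≤ 2 * (T2 * t2) - 2 * e2 + s2 * s2) (h3 : x3 ≤ 2 * (T3 * t3) - 2 * e3 + s3 * s3) :
    8 * ((1 - s2 + T2) + (1 - s3 + T3)) + 2 * ((1 - s3 + T3) * t2 + (1 - s2 + T2) * t3)
      + (T1 - s1 - 1) * (8 + 2 * t3) - 4 * R - 11 - s1 - 2 + x2 + x3 ≤
      2 * LO R t1 t2 t3 s3 T1 T2 T3 - UP R s1 s2 s3 e1 e2 e3 := by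
  have h1 := h.H1.slack h.hT1
  have a0 : 0 ≤ T1 + T2 + T3 := by
    have := h.hT1
    have := h.hT2
    have := h.hT3
    omega
  have h4 : 0 ≤ (R - 4 - t1 - t2 - t3) * (T1 + T2 + T3) :=
    mul_nonneg (by have := h.mass; omega) a0
  have hs : s1 = 1 - s2 - s3 := by have := h.sum; omega
  subst hs
  unfold LO UP
  nlinarith

/-- The product form of the tie. -/
theorem fin {R a b t2 t3 L2 L3 K V : ℤ} (h2 : R - L2 ≤ a * t2) (h3 : R - L3 ≤ b * t3)
    (ha : 0 < a) (hb : 0 < b) (hV : 8 * (a + b) + 2 * (b * t2 + a * t3) - 4 * R - K ≤ V)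
    (hf : 0 < a * b * (8 * (a + b) - K) + 2 * (R * ((a - b) * (a - b))) - 2 * (b * b * L2)
      - 2 * (a * a * L3)) : 0 < V := by
  have h4 := tie h2 h3
  have h5 : 0 < a * b := mul_pos ha hb
  have h6 := mul_le_mul_of_nonneg_left hV h5.le
  by_contra hV0
  have h7 : a * b * V ≤ 0 := mul_nonpos_of_nonneg_of_nonpos h5.le (not_lt.1 hV0)
  nlinarith

theorem sq_neg {s : ℤ} (hs : s < 0) : -s ≤ s * s := by
  have : 0 ≤ (-s) * (-s - 1) := mul_nonneg (by omega) (by omega)
  nlinarith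

theorem u_nonneg (h : N3 R t1 t2 t3 s1 s2 s3 T1 T2 T3 e1 e2 e3) :
    0 ≤ (T1 - s1 - 1) * (8 + 2 * t3) :=
  mul_nonneg (by have := h.sT1; omega) (by have := h.t30; omega)

/-- Both rows are spare. -/
theorem caseSS (h : N3 R t1 t2 t3 s1 s2 s3 T1 T2 T3 e1 e2 e3) (hs2 : s2 < 0) (hs3 : s3 < 0)
    (f2 : R ≤ (1 - s2) * t2 + e2 + 3 * (1 - s2)) (f3 : R ≤ (1 - s3) * t3 + e3 + 3 * (1 - s3)) :
    0 < 2 * LO R t1 t2 t3 s3 T1 T2 T3 - UP R s1 s2 s3 e1 e2 e3 := by
  have r2 := row_S hs2 h.H2 f2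
  have r3 := row_S hs3 h.H3 f3
  have x2 := h.H2.slack_neg hs2
  have x3 := h.H3.slack_neg hs3
  have hb := h.base x2 x3
  have hu := h.u_nonneg
  have hsum := h.sum
  have q2 := sq_neg hs2
  have q3 := sq_neg hs3
  have p2 : 0 ≤ T2 * (-s2 - 1) := mul_nonneg h.hT2 (by omega)
  have p3 : 0 ≤ T3 * (-s3 - 1) := mul_nonneg h.hT3 (by omega)
  have hT2 := h.hT2
  have hT3 := h.hT3
  have hR := h.hR
  by_cases hab : 7 ≤ (1 - s2 + T2) + (1 - s3 + T3)
  · generalize ha : 1 - s2 + T2 = a at *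
    generalize hb' : 1 - s3 + T3 = b at *
    have ha2 : 2 ≤ a := by omega
    have hb2 : 2 ≤ b := by omega
    have r2' : R - 3 * a ≤ a * t2 := by nlinarith
    have r3' : R - 3 * b ≤ b * t3 := by nlinarith
    refine fin r2' r3' (by omega) (by omega) (K := 14) ?_ ?_
    · nlinarith
    · have h5 : 0 < a * b := mul_pos (by omega) (by omega)
      rcases eq_or_ne a b with he | he
      · subst he
        have : 0 < a * a * (4 * a - 14) := mul_pos h5 (by omega)
        nlinarith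
      · have h6 : 1 ≤ (a - b) * (a - b) := by
          rcases lt_or_gt_of_ne he with h7 | h7
          · nlinarith
          · nlinarith
        have h8 : 0 ≤ a * b * (2 * (a + b) - 14) := mul_nonneg h5.le (by omega)
        have h9 : R * 1 ≤ R * ((a - b) * (a - b)) := mul_le_mul_of_nonneg_left h6 (by omega)
        nlinarith
  · have b2 : -3 ≤ s2 := by omega
    have b3 : -3 ≤ s3 := by omega
    have c2 : T2 ≤ 2 := by omega
    have c3 : T3 ≤ 2 := by omega
    have ht30 := h.t30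
    have ht32 := h.t32
    have ht21 := h.t21
    have hmass := h.mass
    by_cases h22 : s2 = -1 ∧ s3 = -1 ∧ T2 = 0 ∧ T3 = 0
    · obtain ⟨rfl, rfl, rfl, rfl⟩ := h22
      have hs1 : s1 = 3 := by omega
      subst hs1
      have hP := h.P1 (by omega)
      have hH := h.H1.pos (by omega)
      have hR10 : R ≤ 10 := by omega
      have hsT := h.sT1
      have k1 : t1 ≤ 2 := by omega
      have k2 : 1 ≤ t3 := by omega
      have k3 : t1 = 1 ∨ t1 = 2 := by omega
      rcases k3 with rfl | rfl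
      · nlinarith
      · nlinarith
    · interval_cases s2 <;> interval_cases s3 <;> interval_cases T2 <;> interval_cases T3 <;> omega

/-- The test of a row with `0 ≤ s`. -/
theorem row_N {R t s T e : ℤ} (hs : 0 ≤ s) (hH : Host t s T e) (ht : t + s ≤ R)
    (ht2 : t + 2 ≤ R) (hP : 0 < s → R * s ≤ e) (hf : s ≤ 0 → R ≤ (1 - s) * t + e + 3 * (1 - s)) :
    R - 4 ≤ (1 - s + T) * t := by
  rcases hs.eq_or_lt with h0 | h0
  · have h2 := hf h0.symm.le
    have h1 := row_Z h0.symm hH (l := 3 * (1 - s)) h2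
    have h3 : R - 4 = R - (3 * (1 - s) + 1) := by omega
    rw [h3]
    exact h1
  · have h1 := row_P h0 hH (hP h0) (by omega)
    omega

/-- All fronts exist. -/
theorem caseA (h : N3 R t1 t2 t3 s1 s2 s3 T1 T2 T3 e1 e2 e3)
    (f2 : s2 ≤ 0 → R ≤ (1 - s2) * t2 + e2 + 3 * (1 - s2))
    (f3 : s3 ≤ 0 → R ≤ (1 - s3) * t3 + e3 + 3 * (1 - s3)) :
    0 < 2 * LO R t1 t2 t3 s3 T1 T2 T3 - UP R s1 s2 s3 e1 e2 e3 := by
  have hu := h.u_nonneg
  have hsum := h.sum
  have hT2 := h.hT2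
  have hT3 := h.hT3
  have sT2 := h.sT2
  have sT3 := h.sT3
  have hR := h.hR
  have ht30 := h.t30
  have ht32 := h.t32
  have ht21 := h.t21
  have hmass := h.mass
  rcases lt_or_ge s2 0 with hs2 | hs2 <;> rcases lt_or_ge s3 0 with hs3 | hs3
  · exact h.caseSS hs2 hs3 (f2 hs2.le) (f3 hs3.le)
  · have r2 := row_S hs2 h.H2 (f2 hs2.le)
    have r3 := row_N hs3 h.H3 h.h3R (by omega) h.P3 f3
    have x2 := h.H2.slack_neg hs2
    have x3 := h.H3.slack h.hT3
    have hb := h.base x2 x3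
    have q2 := sq_neg hs2
    have p2 : 0 ≤ T2 * (-s2 - 1) := mul_nonneg h.hT2 (by omega)
    generalize ha : 1 - s2 + T2 = a at *
    generalize hb' : 1 - s3 + T3 = b at *
    have ha2 : 2 ≤ a := by omega
    have hb3 : 3 ≤ b := by
      by_contra hc
      have : b = 2 := by omega
      subst this
      omega
    have r2' : R - 3 * a ≤ a * t2 := by nlinarith
    refine fin r2' r3 (by omega) (by omega) (K := 16) ?_ ?_
    · nlinarith
    · have h6 : 0 ≤ R * ((a - b) * (a - b)) := mul_nonneg (by omega) (mul_self_nonneg _)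
      have h7 : 0 ≤ a * ((a - 2) * (b - 1)) :=
        mul_nonneg (by omega) (mul_nonneg (by omega) (by omega))
      have h8 : 0 < a * (2 * (b * b) - 16) := mul_pos (by omega) (by nlinarith)
      nlinarith
  · have r2 := row_N hs2 h.H2 h.h2R (by omega) h.P2 f2
    have r3 := row_S hs3 h.H3 (f3 hs3.le)
    have x2 := h.H2.slack h.hT2
    have x3 := h.H3.slack_neg hs3
    have hb := h.base x2 x3
    have q3 := sq_neg hs3
    have p3 : 0 ≤ T3 * (-s3 - 1) := mul_nonneg h.hT3 (by omega)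
    have f3' := f3 hs3.le
    have n3 := h.H3.neg hs3
    have h30 := h.h30
    generalize ha : 1 - s2 + T2 = a at *
    have ha3 : 3 ≤ a := by
      by_contra hc
      have : a = 2 := by omega
      subst this
      have h0 : t3 = 0 := by omega
      subst h0
      have : s3 = -1 := by omega
      subst this
      simp at n3 f3'
      omega
    generalize hb' : 1 - s3 + T3 = b at *
    have hb2 : 2 ≤ b := by omega
    have r3' : R - 3 * b ≤ b * t3 := by nlinarith
    refine fin r2 r3' (by omega) (by omega) (K := 16) ?_ ?_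
    · nlinarith
    · have h6 : 0 ≤ R * ((a - b) * (a - b)) := mul_nonneg (by omega) (mul_self_nonneg _)
      have h7 : 0 ≤ b * ((b - 2) * (a - 1)) :=
        mul_nonneg (by omega) (mul_nonneg (by omega) (by omega))
      have h8 : 0 < b * (2 * (a * a) - 16) := mul_pos (by omega) (by nlinarith)
      nlinarith
  · have r2 := row_N hs2 h.H2 h.h2R (by omega) h.P2 f2
    have r3 := row_N hs3 h.H3 h.h3R (by omega) h.P3 f3
    have x2 := h.H2.slack h.hT2
    have x3 := h.H3.slack h.hT3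
    have hb := h.base x2 x3
    generalize ha : 1 - s2 + T2 = a at *
    generalize hb' : 1 - s3 + T3 = b at *
    have ha3 : 3 ≤ a := by
      by_contra hc
      have : a = 2 := by omega
      subst this
      have h0 : t3 = 0 := by omega
      subst h0
      omega
    have hb3 : 3 ≤ b := by
      by_contra hc
      have : b = 2 := by omega
      subst this
      omega
    refine fin r2 r3 (by omega) (by omega) (K := 18) ?_ ?_
    · nlinarith
    · have h6 : 0 ≤ R * ((a - b) * (a - b)) := mul_nonneg (by omega) (mul_self_nonneg _)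
      have h7 : 0 ≤ a * a * (b - 3) := mul_nonneg (mul_self_nonneg _) (by omega)
      have h8 : 0 ≤ b * b * (a - 3) := mul_nonneg (mul_self_nonneg _) (by omega)
      have h9 : 0 < a * b := mul_pos (by omega) (by omega)
      have h10 : 0 ≤ (a - b) * (a - b) := mul_self_nonneg _
      nlinarith

/-- At the row `3` one kill is missing: a front of `2 m + 1` points. -/
theorem caseB (h : N3 R t1 t2 t3 s1 s2 s3 T1 T2 T3 e1 e2 e3) (hs3 : s3 ≤ 0)
    (f2 : s2 ≤ 0 → R ≤ (1 - s2) * t2 + e2 + 3 * (1 - s2))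
    (f3 : R ≤ (1 - s3) * t3 + e3 + (4 * (1 - s3) + 2)) :
    0 < 2 * (LO R t1 t2 t3 s3 T1 T2 T3 + (R - t2)) - UP R s1 s2 s3 e1 e2 e3 := by
  have hu := h.u_nonneg
  have hsum := h.sum
  have hT2 := h.hT2
  have hT3 := h.hT3
  have sT2 := h.sT2
  have sT3 := h.sT3
  have hR := h.hR
  have ht30 := h.t30
  have ht32 := h.t32
  have ht21 := h.t21
  have hmass := h.mass
  have x2' := h.H2.slack h.hT2
  have x3' := h.H3.slack h.hT3
  -- the test of the row 2
  have r2 : R - 3 * (1 - s2 + T2) ≤ (1 - s2 + T2) * t2 := by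
    rcases lt_or_ge s2 0 with hs2 | hs2
    · have r2 := row_S hs2 h.H2 (f2 hs2.le)
      have p2 : 0 ≤ T2 * (-s2 - 1) := mul_nonneg h.hT2 (by omega)
      nlinarith
    · have r2 := row_N hs2 h.H2 h.h2R (by omega) h.P2 f2
      omega
  rcases le_or_gt (1 - s3 + T3) (1 - s2 + T2) with hab | hab
  · rcases hs3.eq_or_lt with h0 | hs3
    · have r3 := row_Z h0 h.H3 f3
      have hb := h.base x2' x3'
      have m1 : (1 - s3 + T3) * t3 ≤ (1 - s2 + T2) * t3 := mul_le_mul_of_nonneg_right hab ht30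
      have r3' : R - 7 ≤ (1 - s3 + T3) * t3 := by
        have : R - 7 = R - (4 * (1 - s3) + 2 + 1) := by omega
        rw [this]
        exact r3
      by_cases h5 : 5 ≤ (1 - s2 + T2) + (1 - s3 + T3)
      · have m2 : 0 ≤ (1 - s3 + T3 - 1) * t2 := mul_nonneg (by omega) (by omega)
        nlinarith
      · have e2 : 1 - s2 + T2 = 2 := by omega
        have e3' : 1 - s3 + T3 = 2 := by omega
        rw [e2] at r2 hb
        rw [e3'] at hb r3'
        omega
    · have r3 := row_S hs3 h.H3 f3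
      have p3 : 0 ≤ T3 * (-s3 - 1) := mul_nonneg h.hT3 (by omega)
      have x3 := h.H3.slack_neg hs3
      have q3 := sq_neg hs3
      have r3' : R - (4 * (1 - s3 + T3) + 2) ≤ (1 - s3 + T3) * t3 := by nlinarith
      have m1 : (1 - s3 + T3) * t3 ≤ (1 - s2 + T2) * t3 := mul_le_mul_of_nonneg_right hab ht30
      by_cases h5 : 3 ≤ 1 - s2 + T2
      · have hb := h.base x2' x3
        have m2 : 0 ≤ (1 - s3 + T3 - 1) * t2 := mul_nonneg (by omega) (by omega)
        nlinarith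
      · have e2 : 1 - s2 + T2 = 2 := by omega
        have e3' : 1 - s3 + T3 = 2 := by omega
        rcases lt_or_ge s2 0 with hs2 | hs2
        · have x2 := h.H2.slack_neg hs2
          have q2 := sq_neg hs2
          have p2 : 0 ≤ T2 * (-s2 - 1) := mul_nonneg h.hT2 (by omega)
          have hb := h.base x2 x3
          rw [e2] at r2 hb
          rw [e3'] at hb r3'
          omega
        · have r2' := row_N hs2 h.H2 h.h2R (by omega) h.P2 f2
          have hb := h.base x2' x3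
          rw [e2] at r2' hb
          rw [e3'] at hb r3'
          omega
  · have hb := h.base x2' x3'
    have m1 : (1 - s2 + T2) * t2 ≤ (1 - s3 + T3 - 1) * t2 :=
      mul_le_mul_of_nonneg_right (by omega) (by omega)
    have m2 : 0 ≤ (1 - s2 + T2) * t3 := mul_nonneg (by omega) ht30
    nlinarith

/-- At the row `3` two kills are missing. -/
theorem caseC (h : N3 R t1 t2 t3 s1 s2 s3 T1 T2 T3 e1 e2 e3) (hs3 : s3 < 0) :
    0 < 2 * (LO R t1 t2 t3 s3 T1 T2 T3 + 2 * (R - t2)) - UP R s1 s2 s3 e1 e2 e3 := by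
  have hu := h.u_nonneg
  have hsum := h.sum
  have hT2 := h.hT2
  have hT3 := h.hT3
  have sT2 := h.sT2
  have sT3 := h.sT3
  have ht30 := h.t30
  have ht32 := h.t32
  have x2 := h.H2.slack h.hT2
  have x3 := h.H3.slack_neg hs3
  have p3 : 0 ≤ T3 * (-s3 - 1) := mul_nonneg h.hT3 (by omega)
  have q3 := sq_neg hs3
  have hb := h.base x2 x3
  have m1 : 0 ≤ (1 - s3 + T3 - 2) * t2 := mul_nonneg (by omega) (by omega)
  have m2 : 0 ≤ (1 - s2 + T2) * t3 := mul_nonneg (by omega) ht30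
  nlinarith

/-- At the row `2` kills are missing. -/
theorem caseD (h : N3 R t1 t2 t3 s1 s2 s3 T1 T2 T3 e1 e2 e3)
    (f3 : s3 ≤ 0 → R ≤ (1 - s3) * t3 + e3 + 3 * (1 - s3)) :
    0 < 2 * (LO R t1 t2 t3 s3 T1 T2 T3 + (R - t3)) - UP R s1 s2 s3 e1 e2 e3 := by
  have hu := h.u_nonneg
  have hsum := h.sum
  have hT2 := h.hT2
  have hT3 := h.hT3
  have sT2 := h.sT2
  have sT3 := h.sT3
  have hR := h.hR
  have ht30 := h.t30
  have ht32 := h.t32
  have ht21 := h.t21
  have hmass := h.mass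
  have x2 := h.H2.slack h.hT2
  have m1 : 0 ≤ (1 - s2 + T2 - 1) * t3 := mul_nonneg (by omega) ht30
  have m2 : (1 - s3 + T3) * t3 ≤ (1 - s3 + T3) * t2 :=
    mul_le_mul_of_nonneg_left ht32 (by omega)
  rcases lt_or_ge s3 0 with hs3 | hs3
  · have x3 := h.H3.slack_neg hs3
    have p3 : 0 ≤ T3 * (-s3 - 1) := mul_nonneg h.hT3 (by omega)
    have q3 := sq_neg hs3
    have hb := h.base x2 x3
    have r3 := row_S hs3 h.H3 (f3 hs3.le)
    have r3' : R - 3 * (1 - s3 + T3) ≤ (1 - s3 + T3) * t3 := by nlinarith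
    nlinarith
  · have x3 := h.H3.slack h.hT3
    have hb := h.base x2 x3
    have r3 := row_N hs3 h.H3 h.h3R (by omega) h.P3 f3
    nlinarith

/-- At both rows kills are missing. -/
theorem caseE (h : N3 R t1 t2 t3 s1 s2 s3 T1 T2 T3 e1 e2 e3) :
    0 < 2 * (LO R t1 t2 t3 s3 T1 T2 T3 + (R - t2) + (R - t3)) - UP R s1 s2 s3 e1 e2 e3 := by
  have hu := h.u_nonneg
  have hsum := h.sum
  have hT2 := h.hT2
  have hT3 := h.hT3
  have sT2 := h.sT2
  have sT3 := h.sT3
  have ht30 := h.t30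
  have ht32 := h.t32
  have x2 := h.H2.slack h.hT2
  have x3 := h.H3.slack h.hT3
  have hb := h.base x2 x3
  have m1 : 0 ≤ (1 - s3 + T3 - 1) * t2 := mul_nonneg (by omega) (by omega)
  have m2 : 0 ≤ (1 - s2 + T2 - 1) * t3 := mul_nonneg (by omega) ht30
  nlinarith

end N3

/-- The loads `i x y` (host `x`, row `y`), the kills `k x y`. -/
structure Kl (s2 s3 T1 T2 T3 i12 i13 i21 i23 i31 i32 k12 k13 k21 k23 k31 k32 : ℤ) : Prop where
  hk12 : 0 ≤ k12
  hk13 : 0 ≤ k13
  hk21 : 0 ≤ k21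
  hk23 : 0 ≤ k23
  hk31 : 0 ≤ k31
  hk32 : 0 ≤ k32
  hi12 : k12 ≤ i12
  hi13 : k13 ≤ i13
  hi21 : k21 ≤ i21
  hi23 : k23 ≤ i23
  hi31 : k31 ≤ i31
  hi32 : k32 ≤ i32
  hj12 : T1 - k13 ≤ i12
  hj13 : T1 - k12 ≤ i13
  hj21 : T2 - k23 ≤ i21
  hj23 : T2 - k21 ≤ i23
  hj31 : T3 - k32 ≤ i31
  hj32 : T3 - k31 ≤ i32
  hm2 : 1 - s2 ≤ i12 + i32
  hm3 : 1 - s3 ≤ i13 + i23

/-- **The numeric lemma for three rows.** -/
theorem num3 (h : N3 R t1 t2 t3 s1 s2 s3 T1 T2 T3 e1 e2 e3)
    {i12 i13 i21 i23 i31 i32 k12 k13 k21 k23 k31 k32 E : ℤ}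
    (hk : Kl s2 s3 T1 T2 T3 i12 i13 i21 i23 i31 i32 k12 k13 k21 k23 k31 k32)
    (hE : (R - t1) * (i21 + i31) + (R - t2) * (i12 + i32) + (R - t3) * (i13 + i23) ≤ E)
    (f2 : s2 ≤ 0 → 1 - s2 ≤ k12 + k32 → R ≤ (1 - s2) * t2 + e2 + 3 * (1 - s2))
    (f3 : s3 ≤ 0 → 1 - s3 ≤ k13 + k23 → R ≤ (1 - s3) * t3 + e3 + 3 * (1 - s3))
    (g3 : s3 ≤ 0 → -s3 ≤ k13 + k23 → R ≤ (1 - s3) * t3 + e3 + (4 * (1 - s3) + 2)) :
    UP R s1 s2 s3 e1 e2 e3 < 2 * E := by
  obtain ⟨a1, a2, a3, a4, a5, a6, b1, b2, b3, b4, b5, b6, c1, c2, c3, c4, c5, c6, m2, m3⟩ := hk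
  have ht30 := h.t30
  have ht32 := h.t32
  have ht21 := h.t21
  have hmass := h.mass
  have hsum := h.sum
  have hsT1 := h.sT1
  have p1 : 0 ≤ R - t1 := by omega
  have p2 : 0 ≤ t1 - t2 := by omega
  have p3 : 0 ≤ t2 - t3 := by omega
  by_cases hk3 : 1 - s3 ≤ k13 + k23
  · by_cases hk2 : 1 - s2 ≤ k12 + k32
    · have hA := h.caseA (fun hs => f2 hs hk2) (fun hs => f3 hs hk3)
      have hL : LO R t1 t2 t3 s3 T1 T2 T3 ≤ E := by
        have y1 : 0 ≤ (R - t1) * (i21 + i31 + i12 + i32 + i13 + i23 - (T1 + T2 + T3)) :=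
          mul_nonneg p1 (by omega)
        have y2 : 0 ≤ (t1 - t2) * (i12 + i32 + i13 + i23 - T1) := mul_nonneg p2 (by omega)
        have y3 : 0 ≤ (t2 - t3) * (i13 + i23 - (1 - s3)) := mul_nonneg p3 (by omega)
        unfold LO
        nlinarith
      omega
    · by_cases hs2 : s2 ≤ 0
      · have hD := h.caseD (fun hs => f3 hs hk3)
        have hL : LO R t1 t2 t3 s3 T1 T2 T3 + (R - t3) ≤ E := by
          -- the rows 1, 2, 3 in terms of `R - t1`, `t1 - t2`, `t2 - t3`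
          have y1 : 0 ≤ (R - t1) * (i21 + i31 + i12 + i32 + i13 + i23 - (T1 + T2 + T3 + 1)) :=
            mul_nonneg p1 (by omega)
          have y2 : 0 ≤ (t1 - t2) * (i12 + i32 + i13 + i23 - (T1 + 1)) := mul_nonneg p2 (by omega)
          have y3 : 0 ≤ (t2 - t3) * (i13 + i23 - (1 - s3 + 1)) := mul_nonneg p3 (by omega)
          unfold LO
          nlinarith
        omega
      · exfalso
        omega
  · by_cases hk2 : 1 - s2 ≤ k12 + k32
    · by_cases hs3 : s3 ≤ 0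
      · by_cases hs3' : -s3 ≤ k13 + k23
        · have hB := h.caseB hs3 (fun hs => f2 hs hk2) (g3 hs3 hs3')
          have hL : LO R t1 t2 t3 s3 T1 T2 T3 + (R - t2) ≤ E := by
            have y1 : 0 ≤ (R - t1) * (i21 + i31 + i12 + i32 + i13 + i23 - (T1 + T2 + T3 + 1)) :=
              mul_nonneg p1 (by omega)
            have y2 : 0 ≤ (t1 - t2) * (i12 + i32 + i13 + i23 - (T1 + 1)) :=
              mul_nonneg p2 (by omega)
            have y3 : 0 ≤ (t2 - t3) * (i13 + i23 - (1 - s3)) := mul_nonneg p3 (by omega)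
            unfold LO
            nlinarith
          omega
        · have hC := h.caseC (by omega)
          have hL : LO R t1 t2 t3 s3 T1 T2 T3 + 2 * (R - t2) ≤ E := by
            have y1 : 0 ≤ (R - t1) * (i21 + i31 + i12 + i32 + i13 + i23 - (T1 + T2 + T3 + 2)) :=
              mul_nonneg p1 (by omega)
            have y2 : 0 ≤ (t1 - t2) * (i12 + i32 + i13 + i23 - (T1 + 2)) :=
              mul_nonneg p2 (by omega)
            have y3 : 0 ≤ (t2 - t3) * (i13 + i23 - (1 - s3)) := mul_nonneg p3 (by omega)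
            unfold LO
            nlinarith
          omega
      · exfalso
        omega
    · have hE' := h.caseE
      have hL : LO R t1 t2 t3 s3 T1 T2 T3 + (R - t2) + (R - t3) ≤ E := by
        have y1 : 0 ≤ (R - t1) * (i21 + i31 + i12 + i32 + i13 + i23 - (T1 + T2 + T3 + 2)) :=
          mul_nonneg p1 (by omega)
        have y2 : 0 ≤ (t1 - t2) * (i12 + i32 + i13 + i23 - (T1 + 2)) := mul_nonneg p2 (by omega)
        have y3 : 0 ≤ (t2 - t3) * (i13 + i23 - (1 - s3 + 1)) := mul_nonneg p3 (by omega)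
        unfold LO
        nlinarith
      omega

end NumT
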