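import Pool.Agent.Lib.MP_f04ccf_co.M.NumR
import Mathlib

/-!
MP_f04ccf_co, (E6): AM - GM for the numeric lemma (note 15869 (2)), all `n ≥ 4`, any lower bounds `a i ≤ t i * ν i`.
-/

set_option autoImplicit false

namespace Pool.Agent.Lib.MP_f04ccf_co

open Finset

/-- `Σ_(j ≠ k) t j ν k ≥ Σ_(j ≠ k) √(a j a k)` -/
theorem num_amgm {ι : Type*} [DecidableEq ι] (I : Finset ι) (t ν a : ι → ℝ)
    (ht : ∀ i ∈ I, 0 ≤ t i) (hν : ∀ i ∈ I, 0 ≤ ν i) (ha : ∀ i ∈ I, 0 ≤ a i)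
    (h : ∀ i ∈ I, a i ≤ t i * ν i) :
    (∑ i ∈ I, √(a i)) ^ 2 - ∑ i ∈ I, a i ≤ (∑ i ∈ I, t i) * (∑ i ∈ I, ν i) - ∑ i ∈ I, t i * ν i := by
  induction I using Finset.induction_on with
  | empty => simp
  | insert b I hb ih =>
    have ih' := ih (fun i hi => ht i (mem_insert_of_mem hi)) (fun i hi => hν i (mem_insert_of_mem hi))
      (fun i hi => ha i (mem_insert_of_mem hi)) (fun i hi => h i (mem_insert_of_mem hi))
    rw [sum_insert hb, sum_insert hb, sum_insert hb, sum_insert hb, sum_insert hb]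
    have h0 := Real.sq_sqrt (ha b (mem_insert_self b I))
    have hx : 2 * (√(a b) * ∑ i ∈ I, √(a i)) ≤ ν b * ∑ i ∈ I, t i + t b * ∑ i ∈ I, ν i := by
      rw [mul_sum, mul_sum, mul_sum, mul_sum, ← sum_add_distrib]
      refine sum_le_sum fun i hi => ?_
      have hi' := mem_insert_of_mem hi (b := b)
      have h1 : √(a b) * √(a i) ≤ √(t b * ν b) * √(t i * ν i) :=
        mul_le_mul (Real.sqrt_le_sqrt (h b (mem_insert_self b I))) (Real.sqrt_le_sqrt (h i hi'))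
          (Real.sqrt_nonneg _) (Real.sqrt_nonneg _)
      have h2 : √(t b * ν b) * √(t i * ν i) = √(t b * ν i) * √(t i * ν b) := by
        rw [← Real.sqrt_mul (mul_nonneg (ht b (mem_insert_self b I)) (hν b (mem_insert_self b I))),
          ← Real.sqrt_mul (mul_nonneg (ht b (mem_insert_self b I)) (hν i hi'))]
        congr 1
        ring
      have h3 := Real.sq_sqrt (mul_nonneg (ht b (mem_insert_self b I)) (hν i hi'))
      have h4 := Real.sq_sqrt (mul_nonneg (ht i hi') (hν b (mem_insert_self b I)))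
      have h5 := sq_nonneg (√(t b * ν i) - √(t i * ν b))
      nlinarith
    nlinarith

/-- `U V ≥ (Σ √a)²` -/
theorem num_cs {ι : Type*} [DecidableEq ι] (I : Finset ι) (t ν a : ι → ℝ)
    (ht : ∀ i ∈ I, 0 ≤ t i) (hν : ∀ i ∈ I, 0 ≤ ν i) (ha : ∀ i ∈ I, 0 ≤ a i)
    (h : ∀ i ∈ I, a i ≤ t i * ν i) :
    (∑ i ∈ I, √(a i)) ^ 2 ≤ (∑ i ∈ I, t i) * (∑ i ∈ I, ν i) := by
  have h1 := num_amgm I t ν a ht hν ha h
  have h2 : ∑ i ∈ I, a i ≤ ∑ i ∈ I, t i * ν i := sum_le_sum h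
  linarith

/-- the sorted cone: `U ≤ N M / (N + 1)` (`N = n - 1`) -/
theorem num_U {n : ℕ} (hn : 1 ≤ n) (t : ℕ → ℤ) (hs : ∀ i j, i ≤ j → j < n → t j ≤ t i) :
    (n : ℤ) * ∑ i ∈ Ico 1 n, t i ≤ (n - 1) * ∑ i ∈ range n, t i := by
  have h1 : ∑ i ∈ range n, t i = t 0 + ∑ i ∈ Ico 1 n, t i := by
    rw [range_eq_Ico, sum_eq_sum_Ico_succ_bot (by omega : 0 < n)]
  have h2 : ∑ i ∈ Ico 1 n, t i ≤ ∑ i ∈ Ico 1 n, t 0 :=
    sum_le_sum fun i hi => hs 0 i (by omega) (mem_Ico.1 hi).2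
  rw [sum_const, Nat.card_Ico, nsmul_eq_mul, Nat.cast_sub hn, Nat.cast_one] at h2
  rw [h1]
  nlinarith

/-- the sorted cone: the linear term (note 15869 (2)) -/
theorem num_W {n : ℕ} (hn : 4 ≤ n) (t : ℕ → ℤ) (ht : ∀ i, i < n → 0 ≤ t i)
    (hs : ∀ i j, i ≤ j → j < n → t j ≤ t i) :
    (n : ℤ) * ((n - 3) * ∑ i ∈ Ico 1 n, t i - (∑ i ∈ Ico 1 n, t i - t 1 - t (n - 1)))
      ≤ (n - 2) * (n - 3) * ∑ i ∈ range n, t i := by
  have h1 : ∑ i ∈ range n, t i = t 0 + ∑ i ∈ Ico 1 n, t i := by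
    rw [range_eq_Ico, sum_eq_sum_Ico_succ_bot (by omega : 0 < n)]
  have e1 : ∑ i ∈ Ico 1 n, t i = t 1 + ∑ i ∈ Ico 2 n, t i :=
    sum_eq_sum_Ico_succ_bot (by omega : 1 < n) t
  obtain ⟨k, rfl⟩ : ∃ k, n = k + 4 := ⟨n - 4, by omega⟩
  have e2 : ∑ i ∈ Ico 2 (k + 4), t i = ∑ i ∈ Ico 2 (k + 3), t i + t (k + 3) :=
    sum_Ico_succ_top (by omega : 2 ≤ k + 3) t
  have h2 : ∑ i ∈ Ico 2 (k + 3), t i ≤ (k + 1) * t 1 := by
    have h : ∑ i ∈ Ico 2 (k + 3), t i ≤ ∑ i ∈ Ico 2 (k + 3), t 1 :=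
      sum_le_sum fun i hi => hs 1 i (by have := (mem_Ico.1 hi).1; omega)
        (by have := (mem_Ico.1 hi).2; omega)
    rw [sum_const, Nat.card_Ico, nsmul_eq_mul] at h
    have h' : ((k + 3 - 2 : ℕ) : ℤ) = k + 1 := by omega
    rwa [h'] at h
  have h3 : (k + 1) * t (k + 3) ≤ ∑ i ∈ Ico 2 (k + 3), t i := by
    have h : ∑ i ∈ Ico 2 (k + 3), t (k + 3) ≤ ∑ i ∈ Ico 2 (k + 3), t i :=
      sum_le_sum fun i hi => hs i (k + 3) (by have := (mem_Ico.1 hi).2; omega) (by omega)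
    rw [sum_const, Nat.card_Ico, nsmul_eq_mul] at h
    have h' : ((k + 3 - 2 : ℕ) : ℤ) = k + 1 := by omega
    rwa [h'] at h
  have h4 := hs 0 1 (by omega) (by omega)
  have h5 := hs 1 (k + 3) (by omega) (by omega)
  have h6 := ht 1 (by omega)
  have h7 : k + 4 - 1 = k + 3 := by omega
  rw [h7, h1, e1, e2]
  push_cast
  set X := ∑ i ∈ Ico 2 (k + 3), t i
  have hk : (0 : ℤ) ≤ k := by omega
  have h8 : 0 ≤ (k + 2 : ℤ) * (k + 1) * (t 0 - t 1) :=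
    mul_nonneg (by positivity) (by linarith)
  rcases le_or_gt 2 k with hk2 | hk2
  · have hk2' : (2 : ℤ) ≤ k := by exact_mod_cast hk2
    have h9 : 0 ≤ (k - 2 : ℤ) * ((k + 1) * t 1 - X) := mul_nonneg (by linarith) (by linarith)
    have h10 : 0 ≤ (k + 1 : ℤ) * (t 1 - t (k + 3)) := mul_nonneg (by positivity) (by linarith)
    nlinarith
  · interval_cases k
    · norm_num at *
      nlinarith
    · norm_num at *
      nlinarith

end Pool.Agent.Lib.MP_f04ccf_co
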