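import Mathlib

/-!
MP_f04ccf_co, (E6): the sum of the tests of all rows (note 16304, (I)).  `A` is the set of the rows,
`s`, `t` the surplus and the mass, `k z` kills of the host `z`, `w z` located points at the row `z`,
`p z = s z + w z`.  The test of a row with `1 ≤ p z` uses all its located points, the test of a row with
`-2 ≤ p z ≤ 0` (residual front of `l = 1 - p z` units) one unit; a row with `p z ≤ -3` is not tested.
-/

set_option autoImplicit false

namespace Pool.Agent.Lib.MP_f04ccf_co

open Finset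

section NumI

variable {ι : Type*}

/-- the tests of the rows; `v z` is the right side beyond `Y t` -/
structure RowSum (A : Finset ι) (R K : ℤ) (s t k w v : ι → ℤ) : Prop where
  s_sum : ∑ z ∈ A, s z = 1
  w_sum : ∑ z ∈ A, w z = K
  mass : ∑ z ∈ A, t z ≤ R - A.card
  t0 : ∀ z ∈ A, 0 ≤ t z
  k0 : ∀ z ∈ A, 0 ≤ k z
  w0 : ∀ z ∈ A, 0 ≤ w z
  kw : ∀ z ∈ A, k z + w z ≤ K
  ovr : ∀ z ∈ A, 1 ≤ s z + w z → R * (s z + w z) ≤ (k z + w z) * t z + v z
  res : ∀ z ∈ A, s z + w z ≤ 0 → -2 ≤ s z + w z → R ≤ (k z + 1 - s z) * t z + v z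

/-- **the sum of all row tests** -/
theorem RowSum.main {A : Finset ι} {R K : ℤ} {s t k w v : ι → ℤ} (h : RowSum A R K s t k w v) :
    R + ∑ z ∈ A with s z + w z ≤ 0 ∧ -2 ≤ s z + w z, (1 - s z - w z) * (R - t z)
      + ∑ z ∈ A with s z + w z < -2, (-s z - w z) * R + A.card * K
      + ∑ z ∈ A, (K - k z - w z) * t z
      ≤ ∑ z ∈ A with -2 ≤ s z + w z, v z := by
  -- row by row
  have key : ∀ z ∈ A, R * (s z + w z)
      + (if s z + w z ≤ 0 ∧ -2 ≤ s z + w z then (1 - s z - w z) * (R - t z) else 0)
      + (if s z + w z < -2 then (-s z - w z) * R else 0)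
      ≤ (k z + w z) * t z + (if -2 ≤ s z + w z then v z else 0) := by
    intro z hz
    rcases lt_trichotomy (s z + w z) (-2) with h1 | h1 | h1
    · rw [if_neg (by omega), if_pos h1, if_neg (by omega)]
      have h2 : 0 ≤ (k z + w z) * t z :=
        mul_nonneg (add_nonneg (h.k0 z hz) (h.w0 z hz)) (h.t0 z hz)
      nlinarith
    · rw [if_pos (by omega), if_neg (by omega), if_pos (by omega)]
      have h2 := h.res z hz (by omega) (by omega)
      nlinarith
    · rcases Int.lt_or_le 0 (s z + w z) with h3 | h3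
      · rw [if_neg (by omega), if_neg (by omega), if_pos (by omega)]
        have h2 := h.ovr z hz (by omega)
        linarith
      · rw [if_pos (by omega), if_neg (by omega), if_pos (by omega)]
        have h2 := h.res z hz (by omega) (by omega)
        nlinarith
  have h1 := sum_le_sum key
  simp only [sum_add_distrib] at h1
  rw [← mul_sum, sum_add_distrib, h.s_sum, h.w_sum, ← sum_filter, ← sum_filter,
    ← sum_filter] at h1
  have e1 : ∑ z ∈ A, (K - k z - w z) * t z + ∑ z ∈ A, (k z + w z) * t z = K * ∑ z ∈ A, t z := by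
    rw [← sum_add_distrib, mul_sum]
    exact sum_congr rfl fun z _ => by ring
  have hK : 0 ≤ K := by
    rw [← h.w_sum]
    exact sum_nonneg h.w0
  have e2 : K * ∑ z ∈ A, t z ≤ K * (R - A.card) := mul_le_mul_of_nonneg_left h.mass hK
  nlinarith

end NumI

end Pool.Agent.Lib.MP_f04ccf_co
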