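import Pool.Agent.Lib.MP_f04ccf_co.M.EnumU

/-!
MP_f04ccf_co, (E6): the exact reduction of the numeric lemma (notes 15794, 15869), all `n ≥ 3`.

Rows `0, .., n - 1` with `t 0 ≥ t 1 ≥ ..` (`BI`, `BT` of M/Enum, M/EnumU), `ν i = τ i + 1 - s i`, `U`, `V` the sums of
`t i`, `ν i` over `1 ≤ i < n`, `u = τ 0 - s 0 - 1`.  `X i = 2 e i - 2 τ i t i - s i (s i + 1)` is the excess of the row
over the leading term; `K` is everything the star brings beyond (*_L), minus the losses, doubled.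
-/

set_option autoImplicit false

namespace Pool.Agent.Lib.MP_f04ccf_co

open Finset

/-- Abel summation of the layers -/
theorem num_layers (t s : ℕ → ℤ) (n : ℕ) (hn : 2 ≤ n) :
    ∑ j ∈ Ico 2 n, (t (j - 1) - t j) * ∑ i ∈ range j, s i
      = t 1 * s 0 + ∑ j ∈ Ico 1 n, t j * s j - t (n - 1) * ∑ i ∈ range n, s i := by
  induction n, hn using Nat.le_induction with
  | base =>
    simp only [Ico_self, sum_empty]
    have h1 : Ico 1 2 = ({1} : Finset ℕ) := rfl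
    rw [h1, sum_singleton, sum_range_succ, sum_range_one]
    norm_num
    ring
  | succ n hn ih =>
    rw [sum_Ico_succ_top hn, ih, sum_Ico_succ_top (by omega : 1 ≤ n), sum_range_succ]
    have h1 : n + 1 - 1 = n := by omega
    rw [h1]
    ring

/-- the left side of (*_L) minus the leading terms of the slots -/
theorem num_star {R : ℤ} {n : ℕ} {t s τ : ℕ → ℤ} (hn : 2 ≤ n) (hs : ∑ i ∈ range n, s i = 1)
    (ht : ∑ i ∈ range n, t i ≤ R - n) (hO : 0 ≤ ∑ i ∈ range n, τ i) :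
    (∑ i ∈ Ico 1 n, t i) * (∑ i ∈ Ico 1 n, (τ i + 1 - s i)) - ∑ i ∈ Ico 1 n, t i * (τ i + 1 - s i)
        - (n - 3) * ∑ i ∈ Ico 1 n, t i + (∑ i ∈ Ico 1 n, t i - t 1 - t (n - 1))
        + (τ 0 - s 0 - 1) * (∑ i ∈ Ico 1 n, t i - t 1)
        + n * (∑ i ∈ Ico 1 n, (τ i + 1 - s i) + 3 - n + (τ 0 - s 0 - 1))
      ≤ (R - t 0) * ∑ i ∈ range n, τ i + (t 0 - t 1) * τ 0
        + ∑ j ∈ Ico 2 n, (t (j - 1) - t j) * ∑ i ∈ range j, s i - ∑ i ∈ range n, τ i * t i := by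
  rw [num_layers t s n hn, hs]
  have e0 : ∀ f : ℕ → ℤ, ∑ i ∈ range n, f i = f 0 + ∑ i ∈ Ico 1 n, f i := by
    intro f
    rw [range_eq_Ico, sum_eq_sum_Ico_succ_bot (by omega : 0 < n)]
  have e1 : ∑ i ∈ Ico 1 n, (τ i + 1 - s i)
      = ∑ i ∈ Ico 1 n, τ i - ∑ i ∈ Ico 1 n, s i + (n - 1) := by
    rw [sum_sub_distrib, sum_add_distrib, sum_const, Nat.card_Ico, nsmul_eq_mul, mul_one,
      Nat.cast_sub (by omega : 1 ≤ n)]
    push_cast
    ring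
  have e2 : ∑ i ∈ Ico 1 n, t i * (τ i + 1 - s i)
      = ∑ i ∈ Ico 1 n, τ i * t i + ∑ i ∈ Ico 1 n, t i - ∑ i ∈ Ico 1 n, t i * s i := by
    rw [← sum_add_distrib, ← sum_sub_distrib]
    exact sum_congr rfl fun i _ => by ring
  rw [e0 s] at hs
  rw [e0 t] at ht
  rw [e0 τ] at hO
  rw [e0 τ, e0 (fun i => τ i * t i), e1, e2]
  set U := ∑ i ∈ Ico 1 n, t i
  set T := ∑ i ∈ Ico 1 n, τ i
  set S := ∑ i ∈ Ico 1 n, s i
  have h1 : 0 ≤ (R - n - t 0 - U) * (τ 0 + T) := mul_nonneg (by linarith) hO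
  have h2 : S = 1 - s 0 := by linarith
  rw [h2]
  nlinarith [h1]

/-- **THE REDUCTION.** `X i` the excess of the rows, `K` the gains minus the losses of the star (doubled). -/
theorem num_red {R K : ℤ} {n : ℕ} {t s h e τ : ℕ → ℤ} {E : ℕ → ℕ → ℤ} (H : BI R n t s h e E)
    (hO : 0 ≤ ∑ i ∈ range n, τ i)
    (hL : 2 * ((R - t 0) * ∑ i ∈ range n, τ i + (t 0 - t 1) * τ 0
        + ∑ j ∈ Ico 2 n, (t (j - 1) - t j) * ∑ i ∈ range j, s i) + K
      ≤ ∑ i ∈ range n, ∑ j ∈ (range n).erase i, E i j) :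
    2 * ((∑ i ∈ Ico 1 n, t i) * (∑ i ∈ Ico 1 n, (τ i + 1 - s i))
        - ∑ i ∈ Ico 1 n, t i * (τ i + 1 - s i)
        - (n - 3) * ∑ i ∈ Ico 1 n, t i + (∑ i ∈ Ico 1 n, t i - t 1 - t (n - 1))
        + (τ 0 - s 0 - 1) * (∑ i ∈ Ico 1 n, t i - t 1)
        + n * (∑ i ∈ Ico 1 n, (τ i + 1 - s i) + 3 - n + (τ 0 - s 0 - 1))) + K
      ≤ ((n : ℤ) ^ 2 - n - 2) * R + n ^ 2 + n
        + ∑ i ∈ range n, (2 * e i - 2 * τ i * t i - s i * (s i + 1)) := by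
  have h1 := num_star (R := R) (t := t) (s := s) (τ := τ) H.two H.ss H.st hO
  have h2 := H.PA
  have h3 : ∑ i ∈ range n, (2 * e i - 2 * τ i * t i - s i * (s i + 1))
      = 2 * ∑ i ∈ range n, e i - 2 * ∑ i ∈ range n, τ i * t i - ∑ i ∈ range n, s i ^ 2
        - ∑ i ∈ range n, s i := by
    rw [mul_sum, mul_sum, ← sum_sub_distrib, ← sum_sub_distrib, ← sum_sub_distrib]
    exact sum_congr rfl fun i _ => by ring
  rw [h3, H.ss]
  linarith

/-- the excess of a row (true N-excess `N`) -/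
theorem BT.X {R : ℤ} {n : ℕ} {t s h e τ a N W : ℕ → ℤ} {E : ℕ → ℕ → ℤ}
    (H : BT R n t s h e E τ a N W) {i : ℕ} (hi : i < n) :
    2 * e i - 2 * τ i * t i - s i * (s i + 1) ≤ 2 + 2 * N i := by
  have := H.eT i hi
  linarith

theorem BT.Xneg {R : ℤ} {n : ℕ} {t s h e τ a N W : ℕ → ℤ} {E : ℕ → ℕ → ℤ}
    (H : BT R n t s h e E τ a N W) {i : ℕ} (hi : i < n) :
    2 * e i - 2 * τ i * t i - s i * (s i + 1)
      ≤ - (s i * (s i + 1)) + 2 * τ i * (s i + 1) + 2 * N i - a i * (a i + 1) := by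
  have := H.eH i hi
  linarith

theorem BT.O0 {R : ℤ} {n : ℕ} {t s h e τ a N W : ℕ → ℤ} {E : ℕ → ℕ → ℤ}
    (H : BT R n t s h e E τ a N W) : 0 ≤ ∑ i ∈ range n, τ i :=
  sum_nonneg fun i hi => (H.a0 i (mem_range.1 hi)).trans (H.aτ i (mem_range.1 hi))

end Pool.Agent.Lib.MP_f04ccf_co
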