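import Pool.Agent.Lib.MP_f04ccf_co.M.FilU

/-!
MP_f04ccf_co, TEXT D, middle range: **the row in numbers** over `PCon`.

Row `z`, `A = t z + 1`, `d = mu z - s z`, `h` the number of its plain hosted items, `G = d + h`; partner `y`,
`c = R - t y`, `q = be y z` the served PC pairs.

* `PCon.numF`: **the own-cell filter**: `P` any set of plain items of value one hosted at `z` with an end `y`
  (`m` of them, misses `hb` at `y`), `K` any set of plain items of value one of the host `y` with an end `z`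
  (`k` of them, misses `kb` at `z`), all PC pairs of the cell, all other hosted plain items out, all PC pairs of
  other tails out.
-/

set_option autoImplicit false

namespace Pool.Agent.Lib.MP_f04ccf_co

open Finset

attribute [local instance] Classical.propDecidable

section NumZ

variable {ι : Type*} {R : ℤ} {n : ℕ} {t s mu : ℕ → ℤ} {U : Finset ι} {ho : ι → ℕ} {vl : ι → ℤ}
  {kp mn : ℕ → ι → ℤ} {pc ar : ι → ℤ} {be kq NN sg : ℕ → ℕ → ℤ} {nu : ℕ → ι → ℤ} {z y : ℕ}

/-- an item of value one with an end `y`: one piece -/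
lemma PCon.kp_one (H : PCon R n t s mu U ho vl kp mn pc ar be kq NN sg nu) {u : ι} (hu : u ∈ U)
    (h1 : vl u = 1) (hy : y < n) (h2 : kp y u ≠ 0) : kp y u = 1 := by
  have h3 := H.kv u hu y hy
  have h4 := H.k0 u hu y hy
  omega

/-- the PC pairs of the host `y` with the tail `z` -/
lemma PCon.pc_cell (H : PCon R n t s mu U ho vl kp mn pc ar be kq NN sg nu) (hz : z < n)
    (hy : y < n) :
    ((U.filter fun u => ho u = y ∧ pc u = 1 ∧ kp z u ≠ 0).card : ℤ) = be y z := by
  rw [← H.pcb y hy z hz, card_filter]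
  push_cast
  rw [sum_filter]
  refine sum_congr rfl fun u hu => ?_
  by_cases h1 : ho u = y
  · rcases H.pc01 u hu with h2 | h2
    · rw [if_neg (fun h => by rw [h2] at h; exact absurd h.2.1 (by norm_num)), if_pos h1, h2,
        zero_mul]
    · by_cases h3 : kp z u = 0
      · rw [if_neg (fun h => h.2.2 h3), if_pos h1, h3, mul_zero]
      · rw [if_pos ⟨h1, h2, h3⟩, if_pos h1, h2,
          H.kp_one hu (H.pcv u hu (by rw [h2]; norm_num)) hz h3, mul_one]
  · rw [if_neg (fun h => h1 h.1), if_neg h1]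

/-- **THE OWN-CELL FILTER IN NUMBERS** -/
theorem PCon.numF (H : PCon R n t s mu U ho vl kp mn pc ar be kq NN sg nu) (hz : z < n)
    (hy : y < n) (hyz : y ≠ z) {P : Finset ι} (hP : P ⊆ U)
    (hPz : ∀ u ∈ P, ho u = z ∧ pc u = 0 ∧ vl u = 1 ∧ kp y u ≠ 0) {K : Finset ι} (hK : K ⊆ U)
    (hKy : ∀ u ∈ K, ho u = y ∧ pc u = 0 ∧ vl u = 1 ∧ kp z u ≠ 0) {m k M E W h : ℤ}
    (hm : m = (P.card : ℤ)) (hk : k = (K.card : ℤ)) (hM : M = be z y + be y z)
    (hE : E = m + M + k) (hW : W = m + M + 2 * k)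
    (hh : h = ((U.filter fun u => ho u = z ∧ pc u = 0).card : ℤ)) :
    2 * ((R - t y - (t z + 1)) * E - ∑ u ∈ P, mn y u - ∑ u ∈ K, mn z u) - 2 * (R - t y)
      + m * (W + 1) + M * (m + 2 * k) + k * (k - 1)
      - 2 * ∑ u ∈ K.filter (fun u => ∃ l < n, l ≠ z ∧ kp l u ≠ 0),
        ∑ l ∈ ((range n).erase y).filter (fun l => kp l u ≠ 0), be y l
      - 2 * ∑ l ∈ ((range n).erase z).erase y, (be z l - kq z l) * (sg z l
        + ((P.filter fun u => kp l u ≠ 0).card : ℤ))
      ≤ 2 * ((t y - W) * (mu z - s z + h - m - E)) := by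
  set D : Finset ι := U.filter fun u => ho u = z ∧ pc u = 0 ∧ u ∉ P with hD
  have hDz : ∀ u ∈ D, ho u = z ∧ pc u = 0 := fun u hu => by
    obtain ⟨-, h1, h2, -⟩ := mem_filter.1 hu
    exact ⟨h1, h2⟩
  have eP : (U.filter fun u => ho u = z ∧ u ∉ D ∧ pc u = 0) = P := by
    ext u
    simp only [mem_filter, hD, not_and, not_not]
    constructor
    · rintro ⟨h1, h2, h3, h4⟩
      exact h3 h1 h2 h4
    · intro h1
      obtain ⟨h2, h3, -⟩ := hPz u h1
      exact ⟨hP h1, h2, fun _ _ _ => h1, h3⟩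
  have eD : (D.card : ℤ) = h - m := by
    have h1 : D.card + P.card = (U.filter fun u => ho u = z ∧ pc u = 0).card := by
      rw [← card_union_of_disjoint]
      · congr 1
        ext u
        simp only [mem_union, mem_filter, hD]
        constructor
        · rintro (⟨h1, h2, h3, -⟩ | h1)
          · exact ⟨h1, h2, h3⟩
          · exact ⟨hP h1, (hPz u h1).1, (hPz u h1).2.1⟩
        · rintro ⟨h1, h2, h3⟩
          by_cases h4 : u ∈ P
          · exact Or.inr h4
          · exact Or.inl ⟨h1, h2, h3, h4⟩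
      · rw [disjoint_left]
        intro u h1 h2
        exact (mem_filter.1 h1).2.2.2 h2
    rw [hh, hm, ← h1]
    push_cast
    ring
  set Q : Finset ι := U.filter fun u => ho u = y ∧ pc u = 1 ∧ kp z u ≠ 0 with hQ
  have hQK : Disjoint Q K := by
    rw [disjoint_left]
    intro u h1 h2
    have h3 := (mem_filter.1 h1).2.2.1
    rw [(hKy u h2).2.1] at h3
    exact absurd h3 (by norm_num)
  have hQc : (Q.card : ℤ) = be y z := H.pc_cell hz hy
  have hQU : Q ⊆ U := filter_subset _ _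
  have hv1 : ∀ u ∈ Q ∪ K, u ∈ U ∧ ho u = y ∧ vl u = 1 ∧ kp z u = 1 := by
    intro u hu
    rcases mem_union.1 hu with h1 | h1
    · obtain ⟨h2, h3, h4, h5⟩ := mem_filter.1 h1
      have h6 := H.pcv u h2 (by rw [h4]; norm_num)
      exact ⟨h2, h3, h6, H.kp_one h2 h6 hz h5⟩
    · obtain ⟨h2, h3, h4, h5⟩ := hKy u h1
      exact ⟨hK h1, h2, h4, H.kp_one (hK h1) h4 hz h5⟩
  have hKU : Q ∪ K ⊆ U := union_subset hQU hK
  -- the numbers
  have e1 : ∑ u ∈ Q ∪ K, pc u = be y z := by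
    rw [sum_union hQK, sum_congr rfl fun u hu => (mem_filter.1 hu).2.2.1,
      sum_congr (s₁ := K) rfl fun u hu => (hKy u hu).2.1, sum_const, sum_const_zero, nsmul_eq_mul,
      mul_one, add_zero]
    exact hQc
  have e2 : ((Q ∪ K).card : ℤ) = be y z + k := by
    rw [card_union_of_disjoint hQK, hk, ← hQc]
    push_cast
    rfl
  have e3 : ∑ u ∈ Q ∪ K, msP kp mn z (fun _ => 1) u = ∑ u ∈ K, mn z u := by
    rw [sum_union hQK]
    have h1 : ∑ u ∈ Q, msP kp mn z (fun _ => 1) u = 0 := sum_eq_zero fun u hu => by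
      obtain ⟨h2, h3, h4, h5⟩ := mem_filter.1 hu
      unfold msP
      rw [(H.pc_fact h2 (by rw [h4]; norm_num)).2.2.1 z hz, ite_self]
    have h2 : ∑ u ∈ K, msP kp mn z (fun _ => 1) u = ∑ u ∈ K, mn z u := by
      refine sum_congr rfl fun u hu => ?_
      unfold msP
      rw [(hv1 u (mem_union_right _ hu)).2.2.2]
      exact if_pos (by norm_num)
    rw [h1, h2, zero_add]
  have e4 : ((Q ∪ K).filter fun u => pc u = 0 ∧ (((fun _ => 1 : ι → ℕ) u : ℕ) : ℤ) = vl u) = K := by
    ext u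
    simp only [mem_filter, mem_union]
    constructor
    · rintro ⟨h1 | h1, h2, -⟩
      · have h3 := (mem_filter.1 h1).2.2.1
        rw [h2] at h3
        exact absurd h3 (by norm_num)
      · exact h1
    · intro h1
      refine ⟨Or.inr h1, (hKy u h1).2.1, ?_⟩
      rw [(hKy u h1).2.2.1]
      norm_num
  have h0 := H.filK hz hy hyz (filter_subset _ _) hDz hKU (fun u hu => (hv1 u hu).2.1)
    (g := fun _ => 1) (fun _ _ => le_rfl) (fun u hu => by
      rw [(hv1 u hu).2.2.2]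
      norm_num) (q := be y z) (k := k) (κ' := k) (m := m) (M := M) (n1 := k)
    (f := ((((Q ∪ K).filter fun u => pc u = 0 ∧ ∀ l < n, l ≠ z → kp l u = 0).card : ℕ) : ℤ))
    e1.symm
    (by
      have h1 : ∑ u ∈ Q ∪ K, (((fun _ => 1 : ι → ℕ) u : ℕ) : ℤ) = ((Q ∪ K).card : ℤ) := by
        simp
      rw [h1, e2]
      ring)
    (by rw [e2]; ring)
    (by
      rw [eP, hm]
      rw [sum_congr rfl fun u hu => (hPz u hu).2.2.1, sum_const, nsmul_eq_mul, mul_one])
    hM (by rw [e4]; exact hk) rfl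
  rw [eP, eD, e3] at h0
  -- the hits of the kept items
  have e5 : ∑ u ∈ P, (kp y u * (R - t y) - mn y u) = m * (R - t y) - ∑ u ∈ P, mn y u := by
    rw [sum_sub_distrib, sum_congr rfl fun u hu => by
      rw [H.kp_one (hP hu) (hPz u hu).2.2.1 hy (hPz u hu).2.2.2, one_mul], sum_const, nsmul_eq_mul,
      hm]
  -- the block pairs
  have e6 : ∀ l, (U.filter fun u => ho u = z ∧ u ∉ D ∧ pc u = 0 ∧ kp l u ≠ 0)
      = P.filter fun u => kp l u ≠ 0 := by
    intro l
    rw [← eP, filter_filter]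
    refine filter_congr fun u _ => ?_
    tauto
  -- the arcs
  have e7 : ∑ u ∈ Q ∪ K, (1 - pc u) * ar u = ∑ u ∈ K, ar u := by
    rw [sum_union hQK]
    have h1 : ∑ u ∈ Q, (1 - pc u) * ar u = 0 := sum_eq_zero fun u hu => by
      rw [(mem_filter.1 hu).2.2.1]
      ring
    have h2 : ∑ u ∈ K, (1 - pc u) * ar u = ∑ u ∈ K, ar u := sum_congr rfl fun u hu => by
      rw [(hKy u hu).2.1]
      ring
    rw [h1, h2, zero_add]
  have e8 : ((Q ∪ K).filter fun u => pc u = 0 ∧ ∀ l < n, l ≠ z → kp l u = 0)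
      = K.filter fun u => ¬ ∃ l < n, l ≠ z ∧ kp l u ≠ 0 := by
    ext u
    simp only [mem_filter, mem_union, not_exists, not_and, not_not]
    constructor
    · rintro ⟨h1 | h1, h2, h3⟩
      · have h4 := (mem_filter.1 h1).2.2.1
        rw [h2] at h4
        exact absurd h4 (by norm_num)
      · exact ⟨h1, fun l hl hlz => h3 l hl hlz⟩
    · rintro ⟨h1, h2⟩
      exact ⟨Or.inr h1, (hKy u h1).2.1, fun l hl hlz => h2 l hl hlz⟩
  have e9 : ∑ u ∈ K, ar u ≤ be y z * ((K.filter fun u => ¬ ∃ l < n, l ≠ z ∧ kp l u ≠ 0).card : ℤ)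
      + ∑ u ∈ K.filter (fun u => ∃ l < n, l ≠ z ∧ kp l u ≠ 0),
        ∑ l ∈ ((range n).erase y).filter (fun l => kp l u ≠ 0), be y l := by
    rw [← sum_filter_add_sum_filter_not K (fun u => ∃ l < n, l ≠ z ∧ kp l u ≠ 0), add_comm]
    refine add_le_add ?_ (sum_le_sum fun u hu => ?_)
    · rw [mul_comm, ← nsmul_eq_mul, ← sum_const]
      refine sum_le_sum fun u hu => ?_
      obtain ⟨h1, h2⟩ := mem_filter.1 hu
      have h3 := H.ar_in (hK h1) (hKy u h1).2.1 (L := {z}) (by
        intro l hl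
        rw [mem_singleton.1 hl]
        exact mem_range.2 hz) (fun l hl h4 => by
          by_contra h5
          exact h2 ⟨l, hl, fun h6 => h5 (mem_singleton.2 h6), h4⟩)
      rw [sum_singleton, (hKy u h1).1] at h3
      exact h3
    · have h1 := (mem_filter.1 hu).1
      have h3 := H.ar_le (hK h1) (hKy u h1).2.1
      rw [(hKy u h1).1] at h3
      exact h3
  have e12 : ∑ l ∈ ((range n).erase z).erase y, (be z l - kq z l) * (sg z l
        + ((U.filter fun u => ho u = z ∧ u ∉ D ∧ pc u = 0 ∧ kp l u ≠ 0).card : ℤ))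
      = ∑ l ∈ ((range n).erase z).erase y, (be z l - kq z l) * (sg z l
        + ((P.filter fun u => kp l u ≠ 0).card : ℤ)) :=
    sum_congr rfl fun l _ => by rw [e6 l]
  rw [e5, e7, e8, e12] at h0
  rw [hE, hW]
  have e10 : m + M + k + k = m + M + 2 * k := by ring
  have e11 : m + k + k = m + 2 * k := by ring
  rw [e10, e11] at h0
  nlinarith [h0, e9]

/-- **THE OWN-CELL FILTER IN NUMBERS, any plain used items at levels**: `k` pieces of `κ'` items, `n1` of them
of value one -/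
theorem PCon.numG (H : PCon R n t s mu U ho vl kp mn pc ar be kq NN sg nu) (hz : z < n)
    (hy : y < n) (hyz : y ≠ z) {P : Finset ι} (hP : P ⊆ U)
    (hPz : ∀ u ∈ P, ho u = z ∧ pc u = 0 ∧ vl u = 1 ∧ kp y u ≠ 0) {K : Finset ι} (hK : K ⊆ U)
    (hKy : ∀ u ∈ K, ho u = y ∧ pc u = 0) {g : ι → ℕ} (hg : ∀ u ∈ K, 1 ≤ g u)
    (hg' : ∀ u ∈ K, (g u : ℤ) ≤ kp z u) {m k κ' n1 M E W h : ℤ}
    (hm : m = (P.card : ℤ)) (hk : k = ∑ u ∈ K, (g u : ℤ)) (hκ : κ' = (K.card : ℤ))
    (hn : n1 = ((K.filter fun u => vl u = 1).card : ℤ)) (hM : M = be z y + be y z)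
    (hE : E = m + M + k) (hW : W = m + M + k + κ')
    (hh : h = ((U.filter fun u => ho u = z ∧ pc u = 0).card : ℤ)) :
    2 * ((R - t y - (t z + 1)) * E - ∑ u ∈ P, mn y u - ∑ u ∈ K, msP kp mn z g u) - 2 * (R - t y)
      + m * (W + 1) + M * (m + k + κ') + (k - κ') * (W + 1) + n1 * (n1 - 1)
      - 2 * ∑ u ∈ K.filter (fun u => ∃ l < n, l ≠ z ∧ kp l u ≠ 0),
        ∑ l ∈ ((range n).erase y).filter (fun l => kp l u ≠ 0), be y l
      - 2 * ∑ l ∈ ((range n).erase z).erase y, (be z l - kq z l) * (sg z l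
        + ((P.filter fun u => kp l u ≠ 0).card : ℤ))
      ≤ 2 * ((t y - W) * (mu z - s z + h - m - E)) := by
  set D : Finset ι := U.filter fun u => ho u = z ∧ pc u = 0 ∧ u ∉ P with hD
  have hDz : ∀ u ∈ D, ho u = z ∧ pc u = 0 := fun u hu => by
    obtain ⟨-, h1, h2, -⟩ := mem_filter.1 hu
    exact ⟨h1, h2⟩
  have eP : (U.filter fun u => ho u = z ∧ u ∉ D ∧ pc u = 0) = P := by
    ext u
    simp only [mem_filter, hD, not_and, not_not]
    constructor
    · rintro ⟨h1, h2, h3, h4⟩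
      exact h3 h1 h2 h4
    · intro h1
      obtain ⟨h2, h3, -⟩ := hPz u h1
      exact ⟨hP h1, h2, fun _ _ _ => h1, h3⟩
  have eD : (D.card : ℤ) = h - m := by
    have h1 : D.card + P.card = (U.filter fun u => ho u = z ∧ pc u = 0).card := by
      rw [← card_union_of_disjoint]
      · congr 1
        ext u
        simp only [mem_union, mem_filter, hD]
        constructor
        · rintro (⟨h1, h2, h3, -⟩ | h1)
          · exact ⟨h1, h2, h3⟩
          · exact ⟨hP h1, (hPz u h1).1, (hPz u h1).2.1⟩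
        · rintro ⟨h1, h2, h3⟩
          by_cases h4 : u ∈ P
          · exact Or.inr h4
          · exact Or.inl ⟨h1, h2, h3, h4⟩
      · rw [disjoint_left]
        intro u h1 h2
        exact (mem_filter.1 h1).2.2.2 h2
    rw [hh, hm, ← h1]
    push_cast
    ring
  set Q : Finset ι := U.filter fun u => ho u = y ∧ pc u = 1 ∧ kp z u ≠ 0 with hQ
  have hQ0 : ∀ u ∈ Q, u ∈ U ∧ ho u = y ∧ pc u = 1 ∧ kp z u = 1 ∧ mn z u = 0 := by
    intro u hu
    obtain ⟨h2, h3, h4, h5⟩ := mem_filter.1 hu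
    have h6 := H.pc_fact h2 (by rw [h4]; norm_num)
    exact ⟨h2, h3, h4, H.kp_one h2 h6.2.1 hz h5, h6.2.2.1 z hz⟩
  have hQK : Disjoint Q K := by
    rw [disjoint_left]
    intro u h1 h2
    have h3 := (hQ0 u h1).2.2.1
    rw [(hKy u h2).2] at h3
    exact absurd h3 (by norm_num)
  have hQc : (Q.card : ℤ) = be y z := H.pc_cell hz hy
  have hQU : Q ⊆ U := filter_subset _ _
  have hKU : Q ∪ K ⊆ U := union_subset hQU hK
  -- the levels
  set g1 : ι → ℕ := fun u => if u ∈ K then g u else 1 with hg1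
  have hgK : ∀ u ∈ K, g1 u = g u := fun u hu => if_pos hu
  have hgQ : ∀ u ∈ Q, g1 u = 1 := fun u hu => if_neg fun h => disjoint_left.1 hQK hu h
  -- the numbers
  have e1 : ∑ u ∈ Q ∪ K, pc u = be y z := by
    rw [sum_union hQK, sum_congr rfl fun u hu => (hQ0 u hu).2.2.1,
      sum_congr (s₁ := K) rfl fun u hu => (hKy u hu).2, sum_const, sum_const_zero, nsmul_eq_mul,
      mul_one, add_zero]
    exact hQc
  have e2 : ((Q ∪ K).card : ℤ) = be y z + κ' := by
    rw [card_union_of_disjoint hQK, hκ, ← hQc]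
    push_cast
    rfl
  have e2' : ∑ u ∈ Q ∪ K, (g1 u : ℤ) = be y z + k := by
    rw [sum_union hQK, sum_congr rfl fun u hu => by rw [hgQ u hu],
      sum_congr (s₁ := K) rfl fun u hu => by rw [hgK u hu], sum_const, nsmul_eq_mul, hk, hQc]
    push_cast
    ring
  have e3 : ∑ u ∈ Q ∪ K, msP kp mn z g1 u = ∑ u ∈ K, msP kp mn z g u := by
    rw [sum_union hQK]
    have h1 : ∑ u ∈ Q, msP kp mn z g1 u = 0 := sum_eq_zero fun u hu => by
      unfold msP
      rw [(hQ0 u hu).2.2.2.2, ite_self]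
    have h2 : ∑ u ∈ K, msP kp mn z g1 u = ∑ u ∈ K, msP kp mn z g u := by
      refine sum_congr rfl fun u hu => ?_
      unfold msP
      rw [hgK u hu]
    rw [h1, h2, zero_add]
  have e4 : n1 * (n1 - 1) ≤ (((Q ∪ K).filter fun u => pc u = 0 ∧ (g1 u : ℤ) = vl u).card : ℤ)
      * ((((Q ∪ K).filter fun u => pc u = 0 ∧ (g1 u : ℤ) = vl u).card : ℤ) - 1) := by
    rw [hn]
    refine tri_mono (card_le_card fun u hu => ?_)
    obtain ⟨h1, h2⟩ := mem_filter.1 hu
    have h3 := hg u h1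
    have h4 := hg' u h1
    have h5 := H.kv u (hK h1) z hz
    refine mem_filter.2 ⟨mem_union_right _ h1, (hKy u h1).2, ?_⟩
    rw [hgK u h1, h2]
    rw [h2] at h5
    have h6 : (1 : ℤ) ≤ (g u : ℤ) := by exact_mod_cast h3
    linarith
  have h0 := H.filK hz hy hyz (filter_subset _ _) hDz hKU (fun u hu => by
      rcases mem_union.1 hu with h1 | h1
      · exact (hQ0 u h1).2.1
      · exact (hKy u h1).1)
    (g := g1) (fun u hu => by
      rcases mem_union.1 hu with h1 | h1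
      · rw [hgQ u h1]
      · rw [hgK u h1]
        exact hg u h1) (fun u hu => by
      rcases mem_union.1 hu with h1 | h1
      · rw [hgQ u h1, (hQ0 u h1).2.2.2.1]
        norm_num
      · rw [hgK u h1]
        exact hg' u h1) (q := be y z) (k := k) (κ' := κ') (m := m) (M := M)
    (n1 := ((((Q ∪ K).filter fun u => pc u = 0 ∧ (g1 u : ℤ) = vl u).card : ℕ) : ℤ))
    (f := ((((Q ∪ K).filter fun u => pc u = 0 ∧ ∀ l < n, l ≠ z → kp l u = 0).card : ℕ) : ℤ))
    e1.symm (by rw [e2']; ring) (by rw [e2]; ring)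
    (by
      rw [eP, hm]
      rw [sum_congr rfl fun u hu => (hPz u hu).2.2.1, sum_const, nsmul_eq_mul, mul_one])
    hM rfl rfl
  rw [eP, eD, e3] at h0
  -- the hits of the kept items
  have e5 : ∑ u ∈ P, (kp y u * (R - t y) - mn y u) = m * (R - t y) - ∑ u ∈ P, mn y u := by
    rw [sum_sub_distrib, sum_congr rfl fun u hu => by
      rw [H.kp_one (hP hu) (hPz u hu).2.2.1 hy (hPz u hu).2.2.2, one_mul], sum_const, nsmul_eq_mul,
      hm]
  -- the block pairs
  have e6 : ∀ l, (U.filter fun u => ho u = z ∧ u ∉ D ∧ pc u = 0 ∧ kp l u ≠ 0)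
      = P.filter fun u => kp l u ≠ 0 := by
    intro l
    rw [← eP, filter_filter]
    refine filter_congr fun u _ => ?_
    tauto
  -- the arcs
  have e7 : ∑ u ∈ Q ∪ K, (1 - pc u) * ar u = ∑ u ∈ K, ar u := by
    rw [sum_union hQK]
    have h1 : ∑ u ∈ Q, (1 - pc u) * ar u = 0 := sum_eq_zero fun u hu => by
      rw [(hQ0 u hu).2.2.1]
      ring
    have h2 : ∑ u ∈ K, (1 - pc u) * ar u = ∑ u ∈ K, ar u := sum_congr rfl fun u hu => by
      rw [(hKy u hu).2]
      ring
    rw [h1, h2, zero_add]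
  have e8 : ((Q ∪ K).filter fun u => pc u = 0 ∧ ∀ l < n, l ≠ z → kp l u = 0)
      = K.filter fun u => ¬ ∃ l < n, l ≠ z ∧ kp l u ≠ 0 := by
    ext u
    simp only [mem_filter, mem_union, not_exists, not_and, not_not]
    constructor
    · rintro ⟨h1 | h1, h2, h3⟩
      · have h4 := (hQ0 u h1).2.2.1
        rw [h2] at h4
        exact absurd h4 (by norm_num)
      · exact ⟨h1, fun l hl hlz => h3 l hl hlz⟩
    · rintro ⟨h1, h2⟩
      exact ⟨Or.inr h1, (hKy u h1).2, fun l hl hlz => h2 l hl hlz⟩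
  have e9 : ∑ u ∈ K, ar u ≤ be y z * ((K.filter fun u => ¬ ∃ l < n, l ≠ z ∧ kp l u ≠ 0).card : ℤ)
      + ∑ u ∈ K.filter (fun u => ∃ l < n, l ≠ z ∧ kp l u ≠ 0),
        ∑ l ∈ ((range n).erase y).filter (fun l => kp l u ≠ 0), be y l := by
    rw [← sum_filter_add_sum_filter_not K (fun u => ∃ l < n, l ≠ z ∧ kp l u ≠ 0), add_comm]
    refine add_le_add ?_ (sum_le_sum fun u hu => ?_)
    · rw [mul_comm, ← nsmul_eq_mul, ← sum_const]
      refine sum_le_sum fun u hu => ?_
      obtain ⟨h1, h2⟩ := mem_filter.1 hu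
      have h3 := H.ar_in (hK h1) (hKy u h1).2 (L := {z}) (by
        intro l hl
        rw [mem_singleton.1 hl]
        exact mem_range.2 hz) (fun l hl h4 => by
          by_contra h5
          exact h2 ⟨l, hl, fun h6 => h5 (mem_singleton.2 h6), h4⟩)
      rw [sum_singleton, (hKy u h1).1] at h3
      exact h3
    · have h1 := (mem_filter.1 hu).1
      have h3 := H.ar_le (hK h1) (hKy u h1).2
      rw [(hKy u h1).1] at h3
      exact h3
  have e12 : ∑ l ∈ ((range n).erase z).erase y, (be z l - kq z l) * (sg z l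
        + ((U.filter fun u => ho u = z ∧ u ∉ D ∧ pc u = 0 ∧ kp l u ≠ 0).card : ℤ))
      = ∑ l ∈ ((range n).erase z).erase y, (be z l - kq z l) * (sg z l
        + ((P.filter fun u => kp l u ≠ 0).card : ℤ)) :=
    sum_congr rfl fun l _ => by rw [e6 l]
  rw [e5, e7, e8, e12] at h0
  rw [hE, hW]
  nlinarith [h0, e9, e4]

end NumZ

end Pool.Agent.Lib.MP_f04ccf_co
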