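import Pool.Agent.Lib.MP_f04ccf_co.M.CStar

/-!
MP_f04ccf_co, notes 16810, 16860: the PC pairs of the two cells between two rows, homes by minimal
three-sided covers (`Cell3`).  The class edges pay the misses of the members at the other class and the
free arcs of both cells, so property (P), slope 1, on two classes and members has no free arcs:

* `misses_le`: misses of the members of PC pairs at the other class, and further class edges.
* `PG.pc2`: the inequality for `W`, `W'` (members of the two cells) with the PC pairs `B`, `B'`.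
* `WSys.pc2_cell`, `HSys.pc2`: for maximal PC pairs and `Cell3`, in the frame.
-/

set_option autoImplicit false

namespace Pool.Agent.Lib.MP_f04ccf_co

open Finset

attribute [local instance] Classical.propDecidable

section Pure

variable {V : Type*} {G : SimpleGraph V} {r : ℕ}

/-- pairs (PC pair, class point missed by its member) as class edges -/
lemma card_missE {D : Finset V} {B : Finset (V × V)}
    (i2 : ∀ e ∈ B, ∀ f ∈ B, e.2 = f.2 → e = f) :
    (((B ×ˢ D).filter fun q => q.2 ≠ q.1.1 ∧ ¬ G.Adj q.1.1 q.2).image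
      fun q => (q.1.2, q.2)).card = ∑ e ∈ B, nd G D e.1 := by
  rw [card_image_of_injOn]
  · rw [card_filter, sum_product]
    refine sum_congr rfl fun e _ => ?_
    unfold nd
    rw [card_filter]
  · rintro ⟨e, c⟩ h1 ⟨f, d⟩ h2 h3
    have h4 : e ∈ B := (mem_product.1 (mem_filter.1 (by exact_mod_cast h1 :
      (e, c) ∈ (B ×ˢ D).filter _)).1).1
    have h5 : f ∈ B := (mem_product.1 (mem_filter.1 (by exact_mod_cast h2 :
      (f, d) ∈ (B ×ˢ D).filter _)).1).1
    simp only [Prod.mk.injEq] at h3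
    obtain ⟨h6, rfl⟩ := h3
    rw [i2 e h4 f h5 h6]

/-- **the misses of the members of PC pairs at the other class and further class edges** -/
theorem misses_le {C D : Finset V} {B B' : Finset (V × V)} (k2 : ∀ e ∈ B, e.2 ∈ C)
    (k2' : ∀ e ∈ B', e.2 ∈ D) (i1 : ∀ e ∈ B, ∀ f ∈ B, e.1 = f.1 → e = f)
    (i2 : ∀ e ∈ B, ∀ f ∈ B, e.2 = f.2 → e = f)
    (i1' : ∀ e ∈ B', ∀ f ∈ B', e.1 = f.1 → e = f) (i2' : ∀ e ∈ B', ∀ f ∈ B', e.2 = f.2 → e = f)
    (hs : ∀ e ∈ B, ∀ c ∈ D, G.Adj c e.1 ∨ G.Adj c e.2)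
    (hs' : ∀ e ∈ B', ∀ c ∈ C, G.Adj c e.1 ∨ G.Adj c e.2)
    (h3 : ∀ e ∈ B, ∀ f ∈ B', ¬ G.Adj e.1 f.2 → G.Adj e.1 f.1)
    {X3 : Finset (V × V)} (hX3 : X3 ⊆ eds G C D) (h31 : ∀ f ∈ X3, ∀ e ∈ B, e.2 ≠ f.1)
    (h32 : ∀ f ∈ X3, ∀ e ∈ B', e.2 ≠ f.2) :
    ∑ e ∈ B, nd G D e.1 + ∑ e ∈ B', nd G C e.1 + X3.card
      ≤ (eds G C D).card + (eds G (B.image Prod.fst) (B'.image Prod.fst)).card := by
  set X1 : Finset (V × V) := ((B ×ˢ D).filter fun q => q.2 ≠ q.1.1 ∧ ¬ G.Adj q.1.1 q.2).image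
    fun q => (q.1.2, q.2) with hX1
  set X2' : Finset (V × V) := ((B' ×ˢ C).filter fun q => q.2 ≠ q.1.1 ∧ ¬ G.Adj q.1.1 q.2).image
    fun q => (q.1.2, q.2) with hX2'
  set X2 : Finset (V × V) := X2'.image Prod.swap with hX2
  have c1 : X1.card = ∑ e ∈ B, nd G D e.1 := card_missE i2
  have c2 : X2.card = ∑ e ∈ B', nd G C e.1 := by
    rw [hX2, card_image_of_injective _ Prod.swap_injective]
    exact card_missE i2'
  have hm1 : ∀ e ∈ X1, e.2 ∈ D ∧ ∃ u ∈ B, u.2 = e.1 ∧ ¬ G.Adj u.1 e.2 := by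
    intro e he
    obtain ⟨⟨u, c⟩, h5, rfl⟩ := mem_image.1 he
    obtain ⟨h6, -, h8⟩ := mem_filter.1 h5
    obtain ⟨h9, h10⟩ := mem_product.1 h6
    exact ⟨h10, u, h9, rfl, h8⟩
  have hm2 : ∀ e ∈ X2, e.1 ∈ C ∧ ∃ u ∈ B', u.2 = e.2 ∧ ¬ G.Adj u.1 e.1 := by
    intro e he
    obtain ⟨e', he', rfl⟩ := mem_image.1 he
    obtain ⟨⟨u, c⟩, h5, rfl⟩ := mem_image.1 he'
    obtain ⟨h6, -, h8⟩ := mem_filter.1 h5
    obtain ⟨h9, h10⟩ := mem_product.1 h6
    exact ⟨h10, u, h9, rfl, h8⟩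
  have hs1 : X1 ⊆ eds G C D := by
    intro e he
    obtain ⟨a1, u, a2, a3, a4⟩ := hm1 e he
    refine mem_filter.2 ⟨mem_product.2 ⟨a3 ▸ k2 u a2, a1⟩, ?_⟩
    rw [← a3]
    exact ((hs u a2 e.2 a1).resolve_left fun h => a4 h.symm).symm
  have hs2 : X2 ⊆ eds G C D := by
    intro e he
    obtain ⟨a1, u, a2, a3, a4⟩ := hm2 e he
    refine mem_filter.2 ⟨mem_product.2 ⟨a1, a3 ▸ k2' u a2⟩, ?_⟩
    rw [← a3]
    exact (hs' u a2 e.1 a1).resolve_left fun h => a4 h.symm
  have hint : (X1 ∩ X2).card ≤ (eds G (B.image Prod.fst) (B'.image Prod.fst)).card := by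
    have hw : ∀ e ∈ X1 ∩ X2, ∃ f : V × V, f ∈ eds G (B.image Prod.fst) (B'.image Prod.fst) ∧
        (∃ u ∈ B, u.2 = e.1 ∧ u.1 = f.1) ∧ (∃ u ∈ B', u.2 = e.2 ∧ u.1 = f.2) := by
      intro e he
      obtain ⟨he1, he2⟩ := mem_inter.1 he
      obtain ⟨a1, u, a2, a3, a4⟩ := hm1 e he1
      obtain ⟨b1, v, b2, b3, b4⟩ := hm2 e he2
      refine ⟨(u.1, v.1), ?_, ⟨u, a2, a3, rfl⟩, ⟨v, b2, b3, rfl⟩⟩
      exact mem_filter.2 ⟨mem_product.2 ⟨mem_image.2 ⟨u, a2, rfl⟩, mem_image.2 ⟨v, b2, rfl⟩⟩,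
        h3 u a2 v b2 (by rw [b3]; exact a4)⟩
    choose! f hf1 hf2 hf3 using hw
    refine card_le_card_of_injOn f (fun e he => ?_) ?_
    · have := hf1 e (by exact_mod_cast he)
      exact_mod_cast this
    · intro e he e' he' hee
      obtain ⟨u, hu, hu1, hu2⟩ := hf2 e (by exact_mod_cast he)
      obtain ⟨u', hu', hu1', hu2'⟩ := hf2 e' (by exact_mod_cast he')
      obtain ⟨v, hv, hv1, hv2⟩ := hf3 e (by exact_mod_cast he)
      obtain ⟨v', hv', hv1', hv2'⟩ := hf3 e' (by exact_mod_cast he')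
      have a1 : u = u' := i1 u hu u' hu' (by rw [hu2, hu2', hee])
      have a2 : v = v' := i1' v hv v' hv' (by rw [hv2, hv2', hee])
      refine Prod.ext ?_ ?_
      · rw [← hu1, ← hu1', a1]
      · rw [← hv1, ← hv1', a2]
  have hd3 : Disjoint (X1 ∪ X2) X3 := by
    rw [disjoint_left]
    intro f hf hf3
    rcases mem_union.1 hf with h5 | h5
    · obtain ⟨-, u, h6, h7, -⟩ := hm1 f h5
      exact h31 f hf3 u h6 h7
    · obtain ⟨-, u, h6, h7, -⟩ := hm2 f h5
      exact h32 f hf3 u h6 h7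
  have h5 := card_union_add_card_inter X1 X2
  have h6 := card_le_card (union_subset (union_subset hs1 hs2) hX3)
  rw [card_union_of_disjoint hd3] at h6
  omega

/-- the points seen by members of PC pairs at the other class -/
lemma sum_dg_fst {D : Finset V} {B : Finset (V × V)}
    (i1 : ∀ e ∈ B, ∀ f ∈ B, e.1 = f.1 → e = f) (hD : ∀ e ∈ B, e.1 ∉ D) :
    ∑ c ∈ D, (dg G (B.image Prod.fst) c : ℤ)
      = (B.card : ℤ) * D.card - ∑ e ∈ B, (nd G D e.1 : ℤ) := by
  have h1 : ∑ c ∈ D, (dg G (B.image Prod.fst) c : ℤ)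
      = ∑ w ∈ B.image Prod.fst, (dg G D w : ℤ) := by
    exact_mod_cast (dg_comm G (B.image Prod.fst) D).symm
  have h2 : ∀ e ∈ B, (dg G D e.1 : ℤ) = (D.card : ℤ) - nd G D e.1 := by
    intro e he
    have := nd_of_notMem (G := G) (A := D) (x := e.1) (hD e he)
    omega
  rw [h1, sum_image fun e he f hf hef => i1 e he f hf hef, sum_congr rfl h2, sum_sub_distrib,
    sum_const, nsmul_eq_mul]

/-- **property (P), slope 1, on two classes and members of both cells, without free arcs** -/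
theorem PG.pc2 (hP : PG G r) {C D W W' : Finset V} (hC : Clq G C) (hD : Clq G D)
    (dCD : Disjoint C D) (dCW : Disjoint C W) (dCW' : Disjoint C W') (dDW : Disjoint D W)
    (dDW' : Disjoint D W') (dWW : Disjoint W W') {B B' : Finset (V × V)}
    (k1 : ∀ e ∈ B, e.1 ∈ W) (k2 : ∀ e ∈ B, e.2 ∈ C)
    (i1 : ∀ e ∈ B, ∀ f ∈ B, e.1 = f.1 → e = f) (i2 : ∀ e ∈ B, ∀ f ∈ B, e.2 = f.2 → e = f)
    (k1' : ∀ e ∈ B', e.1 ∈ W') (k2' : ∀ e ∈ B', e.2 ∈ D)
    (i1' : ∀ e ∈ B', ∀ f ∈ B', e.1 = f.1 → e = f) (i2' : ∀ e ∈ B', ∀ f ∈ B', e.2 = f.2 → e = f)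
    (hs : ∀ e ∈ B, ∀ c ∈ D, G.Adj c e.1 ∨ G.Adj c e.2)
    (hs' : ∀ e ∈ B', ∀ c ∈ C, G.Adj c e.1 ∨ G.Adj c e.2)
    (h3 : ∀ e ∈ B, ∀ f ∈ B', ¬ G.Adj e.1 f.2 → G.Adj e.1 f.1)
    (hn : ∀ e ∈ B, ∀ v ∈ W, v ≠ e.1 → G.Adj v e.1 ∨ G.Adj v e.2)
    (hn' : ∀ e ∈ B', ∀ v ∈ W', v ≠ e.1 → G.Adj v e.1 ∨ G.Adj v e.2)
    (fr : ∀ w ∈ W, w ∉ B.image Prod.fst → nd G (C \ B.image Prod.snd) w = 0)
    (fr' : ∀ w ∈ W', w ∉ B'.image Prod.fst → nd G (D \ B'.image Prod.snd) w = 0)
    {X3 : Finset (V × V)} (hX3 : X3 ⊆ eds G C D) (h31 : ∀ f ∈ X3, ∀ e ∈ B, e.2 ≠ f.1)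
    (h32 : ∀ f ∈ X3, ∀ e ∈ B', e.2 ≠ f.2)
    (hX : ∑ e ∈ B, nd G (C \ B.image Prod.snd) e.1
      + ∑ e ∈ B', nd G (D \ B'.image Prod.snd) e.1 ≤ X3.card) :
    2 * (((r : ℤ) - 1) * (B.card + B'.card))
      + 2 * (((W \ B.image Prod.fst).card : ℤ) * ((r : ℤ) - 1 - D.card)
        + ∑ c ∈ D, (dg G (W \ B.image Prod.fst) c : ℤ))
      + 2 * (((W' \ B'.image Prod.fst).card : ℤ) * ((r : ℤ) - 1 - C.card)
        + ∑ c ∈ C, (dg G (W' \ B'.image Prod.fst) c : ℤ))
      + NE G (B.image Prod.fst) + NE G (B'.image Prod.fst)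
      ≤ 2 * ((r : ℤ) - 1 + ((r : ℤ) - 1 - C.card) * ((r : ℤ) - 1 - D.card))
        + 2 * ((B.card : ℤ) * W.card + (B'.card : ℤ) * W'.card + (W.card : ℤ) * W'.card)
        + NE G (W \ B.image Prod.fst) + NE G (W' \ B'.image Prod.fst) := by
  have h1 := hP.s1_ne (W := W ∪ W') hC hD dCD (disjoint_union_right.2 ⟨dCW, dCW'⟩)
    (disjoint_union_right.2 ⟨dDW, dDW'⟩)
  have e1 := misses_le (G := G) k2 k2' i1 i2 i1' i2' hs hs' h3 hX3 h31 h32
  have e2 := used_add_ne (G := G) k1 hn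
  have e3 := used_add_ne (G := G) k1' hn'
  have hPW : B.image Prod.fst ⊆ W := by
    intro v hv
    obtain ⟨e, he, rfl⟩ := mem_image.1 hv
    exact k1 e he
  have hPW' : B'.image Prod.fst ⊆ W' := by
    intro v hv
    obtain ⟨e, he, rfl⟩ := mem_image.1 hv
    exact k1' e he
  have hcP : (B.image Prod.fst).card = B.card :=
    card_image_of_injOn fun e he f hf hef => i1 e (by exact_mod_cast he) f (by exact_mod_cast hf) hef
  have hcP' : (B'.image Prod.fst).card = B'.card :=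
    card_image_of_injOn fun e he f hf hef =>
      i1' e (by exact_mod_cast he) f (by exact_mod_cast hf) hef
  -- the class edges
  have e4 : ((eds G C D).card : ℤ) = ∑ c ∈ D, (dg G C c : ℤ) := by
    rw [card_eds_eq]
    exact_mod_cast dg_comm G C D
  -- splitting the points seen in `W`
  have hsplit : ∀ (U P X : Finset V), P ⊆ U → ∑ c ∈ X, (dg G U c : ℤ)
      = ∑ c ∈ X, (dg G P c : ℤ) + ∑ c ∈ X, (dg G (U \ P) c : ℤ) := by
    intro U P X hPU
    rw [← sum_add_distrib]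
    refine sum_congr rfl fun c _ => ?_
    have : dg G U c = dg G P c + dg G (U \ P) c := by
      unfold dg
      rw [← card_union_of_disjoint (disjoint_filter_filter disjoint_sdiff), ← filter_union,
        union_sdiff_of_subset hPU]
    exact_mod_cast this
  have e5 := hsplit W (B.image Prod.fst) D hPW
  have e6 := sum_dg_fst (G := G) (D := D) i1 fun e he h => disjoint_left.1 dDW h (k1 e he)
  have e7 := hsplit W' (B'.image Prod.fst) C hPW'
  have e8 := sum_dg_fst (G := G) (D := C) i1' fun e he h => disjoint_left.1 dCW' h (k1' e he)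
  -- the misses at the own class
  have own : ∀ (X U : Finset V) (K : Finset (V × V)), (∀ e ∈ K, e.2 ∈ X) → (∀ e ∈ K, e.1 ∈ U) →
      (∀ e ∈ K, ∀ f ∈ K, e.1 = f.1 → e = f) →
      (∀ w ∈ U, w ∉ K.image Prod.fst → nd G (X \ K.image Prod.snd) w = 0) →
      ∑ w ∈ U, (nd G X w : ℤ) = ∑ e ∈ K, (nd G (X \ K.image Prod.snd) e.1 : ℤ)
        + ∑ w ∈ U, (nd G (K.image Prod.snd) w : ℤ) := by
    intro X U K a1 a2 a3 a4
    have hsub : K.image Prod.snd ⊆ X := by
      intro a ha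
      obtain ⟨e, he, rfl⟩ := mem_image.1 ha
      exact a1 e he
    have b1 : ∀ w ∈ U, (nd G X w : ℤ)
        = (nd G (X \ K.image Prod.snd) w : ℤ) + nd G (K.image Prod.snd) w := by
      intro w _
      have c1 := nd_union (G := G) (A := X \ K.image Prod.snd) (B := K.image Prod.snd)
        sdiff_disjoint w
      rw [sdiff_union_of_subset hsub] at c1
      exact_mod_cast c1
    rw [sum_congr rfl b1, sum_add_distrib]
    congr 1
    have hKU : K.image Prod.fst ⊆ U := by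
      intro v hv
      obtain ⟨e, he, rfl⟩ := mem_image.1 hv
      exact a2 e he
    rw [← sum_subset hKU fun w hw hwK => by rw [a4 w hw hwK]; rfl]
    rw [sum_image fun e he f hf hef => a3 e he f hf hef]
  have e9 := own C W B k2 k1 i1 fr
  have e10 := own D W' B' k2' k1' i1' fr'
  -- the other sums
  have e11 : ∑ c ∈ D, (dg G W' c : ℤ) = (W'.card : ℤ) * D.card - ∑ w ∈ W', (nd G D w : ℤ) := by
    have a1 : ∑ c ∈ D, (dg G W' c : ℤ) = ∑ w ∈ W', (dg G D w : ℤ) := by
      exact_mod_cast (dg_comm G W' D).symm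
    have a2 : ∀ w ∈ W', (dg G D w : ℤ) = (D.card : ℤ) - nd G D w := by
      intro w hw
      have := nd_of_notMem (G := G) (A := D) (x := w) fun h => disjoint_left.1 dDW' h hw
      omega
    rw [a1, sum_congr rfl a2, sum_sub_distrib, sum_const, nsmul_eq_mul]
  have e12 : ∑ w ∈ W', (nd G C w : ℤ) = (W'.card : ℤ) * C.card - ∑ c ∈ C, (dg G W' c : ℤ) := by
    have a1 : ∑ c ∈ C, (dg G W' c : ℤ) = ∑ w ∈ W', (dg G C w : ℤ) := by
      exact_mod_cast (dg_comm G W' C).symm
    have a2 : ∀ w ∈ W', (nd G C w : ℤ) = (C.card : ℤ) - dg G C w := by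
      intro w hw
      have := nd_of_notMem (G := G) (A := C) (x := w) fun h => disjoint_left.1 dCW' h hw
      omega
    rw [sum_congr rfl a2, sum_sub_distrib, sum_const, nsmul_eq_mul, a1]
  have e13 : ∑ c ∈ D, (dg G (W ∪ W') c : ℤ) = ∑ c ∈ D, (dg G W c : ℤ) + ∑ c ∈ D, (dg G W' c : ℤ) := by
    rw [← sum_add_distrib]
    refine sum_congr rfl fun c _ => ?_
    have : dg G (W ∪ W') c = dg G W c + dg G W' c := by
      unfold dg
      rw [filter_union, card_union_of_disjoint (disjoint_filter_filter dWW)]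
    exact_mod_cast this
  have e14 : ((W ∪ W').card : ℤ) = W.card + W'.card := by
    rw [card_union_of_disjoint dWW]
    push_cast
    ring
  have e15 : ∑ w ∈ W ∪ W', (nd G C w : ℤ) = ∑ w ∈ W, (nd G C w : ℤ) + ∑ w ∈ W', (nd G C w : ℤ) :=
    sum_union dWW
  have e16 := NE_union (G := G) dWW
  -- pairs between `W` and `W'`
  have e17 : ∑ x ∈ W', nd G W x + (eds G (B.image Prod.fst) (B'.image Prod.fst)).card
      ≤ W.card * W'.card := by
    have a1 : ∑ x ∈ W', nd G W x + ∑ x ∈ W', dg G W x = W'.card * W.card := by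
      rw [← sum_add_distrib, ← smul_eq_mul, ← sum_const]
      refine sum_congr rfl fun x hx => ?_
      have := nd_of_notMem (G := G) (A := W) (x := x) fun h => disjoint_left.1 dWW h hx
      omega
    have a2 : (eds G (B.image Prod.fst) (B'.image Prod.fst)).card ≤ ∑ x ∈ W', dg G W x := by
      have b1 : (eds G (B.image Prod.fst) (B'.image Prod.fst)).card ≤ (eds G W W').card :=
        card_le_card (filter_subset_filter _ (product_subset_product hPW hPW'))
      have b2 : ((eds G W W').card : ℤ) = ∑ x ∈ W', (dg G W x : ℤ) := by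
        rw [card_eds_eq]
        exact_mod_cast dg_comm G W W'
      have b3 : (eds G W W').card = ∑ x ∈ W', dg G W x := by exact_mod_cast b2
      omega
    have a3 : W'.card * W.card = W.card * W'.card := Nat.mul_comm _ _
    omega
  have hu : ((W \ B.image Prod.fst).card : ℤ) = W.card - B.card := by
    have := card_sdiff_add_card_eq_card hPW
    omega
  have hu' : ((W' \ B'.image Prod.fst).card : ℤ) = W'.card - B'.card := by
    have := card_sdiff_add_card_eq_card hPW'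
    omega
  have f1 : ((∑ e ∈ B, nd G D e.1 + ∑ e ∈ B', nd G C e.1 + X3.card : ℕ) : ℤ)
      ≤ ((eds G C D).card + (eds G (B.image Prod.fst) (B'.image Prod.fst)).card : ℕ) := by
    exact_mod_cast e1
  have f2 : ((2 * ∑ w ∈ W, nd G (B.image Prod.snd) w + NE G W + NE G (B.image Prod.fst) : ℕ) : ℤ)
      ≤ ((2 * (B.card * W.card) + NE G (W \ B.image Prod.fst) : ℕ) : ℤ) := by exact_mod_cast e2
  have f3 : ((2 * ∑ w ∈ W', nd G (B'.image Prod.snd) w + NE G W'
      + NE G (B'.image Prod.fst) : ℕ) : ℤ)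
      ≤ ((2 * (B'.card * W'.card) + NE G (W' \ B'.image Prod.fst) : ℕ) : ℤ) := by
    exact_mod_cast e3
  have f4 : ((∑ x ∈ W', nd G W x + (eds G (B.image Prod.fst) (B'.image Prod.fst)).card : ℕ) : ℤ)
      ≤ ((W.card * W'.card : ℕ) : ℤ) := by exact_mod_cast e17
  have f5 : ((∑ e ∈ B, nd G (C \ B.image Prod.snd) e.1
      + ∑ e ∈ B', nd G (D \ B'.image Prod.snd) e.1 : ℕ) : ℤ) ≤ (X3.card : ℤ) := by
    exact_mod_cast hX
  have f6 : (NE G (W ∪ W') : ℤ) = NE G W + NE G W' + 2 * ∑ x ∈ W', (nd G W x : ℤ) := by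
    rw [e16]
    push_cast
    ring
  push_cast at f1 f2 f3 f4 f5
  rw [e13, e14, e15, f6, e5, e6, e11, e12, e7, e8, e9, e10, ← e4] at h1
  rw [hu, hu']
  nlinarith [h1, f1, f2, f3, f4, f5]

end Pure

section Frame

variable {V : Type*} {G : SimpleGraph V} {Z T : Finset V} {hm : V → V} {r m t : ℕ}
  {A S : Finset V}

/-- **members and maximal PC pairs of the two cells between two rows**, homes by minimal three-sided
covers: no free arcs -/
theorem HSys.pc2 (hF : PFrame G r m t Z T) (hP : PG G r) (hh : Homes G Z T hm)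
    (h : HSys G Z T A S) (hr : ∀ v ∈ S, hm v ∈ A ∧ hm v ∈ rws G T v) (h3 : Hom3 G Z T A S hm)
    {x z : V} (hx : x ∈ A) (hz : z ∈ A) (hxz : x ≠ z) {B B' : Finset (V × V)}
    (hB : PCx ((HP G Z T (fun x => S.filter fun v => hm v = x) x).filter
      fun v => tlo G T hm v = z) (msd G (CP G Z T (fun x => S.filter fun v => hm v = x) x)) B)
    (hB' : PCx ((HP G Z T (fun x => S.filter fun v => hm v = x) z).filter
      fun v => tlo G T hm v = x) (msd G (CP G Z T (fun x => S.filter fun v => hm v = x) z)) B')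
    {W W' : Finset V} (hW1 : W ⊆ (HP G Z T (fun x => S.filter fun v => hm v = x) x).filter
      fun v => tlo G T hm v = z) (hW1' : W' ⊆ (HP G Z T (fun x => S.filter fun v => hm v = x)
      z).filter fun v => tlo G T hm v = x) (hBW : B.image Prod.fst ⊆ W)
    (hBW' : B'.image Prod.fst ⊆ W') :
    2 * (((r : ℤ) - 1) * (B.card + B'.card))
      + 2 * (((W \ B.image Prod.fst).card : ℤ)
          * ((r : ℤ) - 1 - (CP G Z T (fun x => S.filter fun v => hm v = x) z).card)
        + ∑ c ∈ CP G Z T (fun x => S.filter fun v => hm v = x) z,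
          (dg G (W \ B.image Prod.fst) c : ℤ))
      + 2 * (((W' \ B'.image Prod.fst).card : ℤ)
          * ((r : ℤ) - 1 - (CP G Z T (fun x => S.filter fun v => hm v = x) x).card)
        + ∑ c ∈ CP G Z T (fun x => S.filter fun v => hm v = x) x,
          (dg G (W' \ B'.image Prod.fst) c : ℤ))
      + NE G (B.image Prod.fst) + NE G (B'.image Prod.fst)
      ≤ 2 * ((r : ℤ) - 1
          + ((r : ℤ) - 1 - (CP G Z T (fun x => S.filter fun v => hm v = x) x).card)
            * ((r : ℤ) - 1 - (CP G Z T (fun x => S.filter fun v => hm v = x) z).card))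
        + 2 * ((B.card : ℤ) * W.card + (B'.card : ℤ) * W'.card + (W.card : ℤ) * W'.card)
        + NE G (W \ B.image Prod.fst) + NE G (W' \ B'.image Prod.fst) := by
  have hC := h.csys hF hr
  have hW : WSys G (co G) A (CP G Z T fun x => S.filter fun v => hm v = x)
      (HP G Z T fun x => S.filter fun v => hm v = x) (tlo G T hm) :=
    hC.wsys hF hh fun y hy => mem_filter.2 ⟨h.ctr hy, by
      have h1 := (hr y (h.ctr hy)).2
      rw [rws_of_mem (h.sub hy)] at h1
      exact mem_singleton.1 h1⟩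
  have key : ∀ x ∈ A, ∀ z ∈ A, x ≠ z → ∀ (B B' : Finset (V × V)),
      PCx ((HP G Z T (fun x => S.filter fun v => hm v = x) x).filter
        fun v => tlo G T hm v = z)
        (msd G (CP G Z T (fun x => S.filter fun v => hm v = x) x)) B →
      PCx ((HP G Z T (fun x => S.filter fun v => hm v = x) z).filter
        fun v => tlo G T hm v = x)
        (msd G (CP G Z T (fun x => S.filter fun v => hm v = x) z)) B' →
      ∀ W W' : Finset V,
      W ⊆ (HP G Z T (fun x => S.filter fun v => hm v = x) x).filter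
        (fun v => tlo G T hm v = z) →
      W' ⊆ (HP G Z T (fun x => S.filter fun v => hm v = x) z).filter
        (fun v => tlo G T hm v = x) →
      B.image Prod.fst ⊆ W → B'.image Prod.fst ⊆ W' → ∀ K L M : Finset V,
      Cell3 (msd G (S.filter fun v => v ∈ Cl G Z T x)) (msd G (S.filter fun v => v ∈ Cl G Z T z))
        (S.filter fun v => v ∈ Dbl G Z T x z)
        ((S.filter fun v => v ∈ Dbl G Z T x z).filter fun v => hm v = x) K L M →
      2 * (((r : ℤ) - 1) * (B.card + B'.card))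
      + 2 * (((W \ B.image Prod.fst).card : ℤ)
          * ((r : ℤ) - 1 - (CP G Z T (fun x => S.filter fun v => hm v = x) z).card)
        + ∑ c ∈ CP G Z T (fun x => S.filter fun v => hm v = x) z,
          (dg G (W \ B.image Prod.fst) c : ℤ))
      + 2 * (((W' \ B'.image Prod.fst).card : ℤ)
          * ((r : ℤ) - 1 - (CP G Z T (fun x => S.filter fun v => hm v = x) x).card)
        + ∑ c ∈ CP G Z T (fun x => S.filter fun v => hm v = x) x,
          (dg G (W' \ B'.image Prod.fst) c : ℤ))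
      + NE G (B.image Prod.fst) + NE G (B'.image Prod.fst)
      ≤ 2 * ((r : ℤ) - 1
          + ((r : ℤ) - 1 - (CP G Z T (fun x => S.filter fun v => hm v = x) x).card)
            * ((r : ℤ) - 1 - (CP G Z T (fun x => S.filter fun v => hm v = x) z).card))
        + 2 * ((B.card : ℤ) * W.card + (B'.card : ℤ) * W'.card + (W.card : ℤ) * W'.card)
        + NE G (W \ B.image Prod.fst) + NE G (W' \ B'.image Prod.fst) := by
    intro x hx z hz hxz B B' hB hB' W W' hW1 hW1' hBW hBW' K L M hc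
    have hWx : W ⊆ HP G Z T (fun x => S.filter fun v => hm v = x) x :=
      hW1.trans (filter_subset _ _)
    have hWz : W' ⊆ HP G Z T (fun x => S.filter fun v => hm v = x) z :=
      hW1'.trans (filter_subset _ _)
    have p1 : ∀ e ∈ B, e.1 ∈ HP G Z T (fun x => S.filter fun v => hm v = x) x ∧
        tlo G T hm e.1 = z ∧ e.2 ∈ CP G Z T (fun x => S.filter fun v => hm v = x) x ∧
        (co G).Adj e.1 e.2 := by
      intro e he
      obtain ⟨a1, a2⟩ := mem_filter.1 (hB.mem e he)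
      obtain ⟨a3, a4, a5⟩ := mem_filter.1 (hB.arc e he)
      exact ⟨a1, a2, a3, co_adj.2 ⟨fun h5 => a4 h5.symm, a5⟩⟩
    have p2 : ∀ e ∈ B', e.1 ∈ HP G Z T (fun x => S.filter fun v => hm v = x) z ∧
        tlo G T hm e.1 = x ∧ e.2 ∈ CP G Z T (fun x => S.filter fun v => hm v = x) z ∧
        (co G).Adj e.1 e.2 := by
      intro e he
      obtain ⟨a1, a2⟩ := mem_filter.1 (hB'.mem e he)
      obtain ⟨a3, a4, a5⟩ := mem_filter.1 (hB'.arc e he)
      exact ⟨a1, a2, a3, co_adj.2 ⟨fun h5 => a4 h5.symm, a5⟩⟩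
    have hrect : ∀ w ∈ S.filter fun v => v ∈ Dbl G Z T x z,
        ∀ a ∈ msd G (S.filter fun v => v ∈ Cl G Z T x) w,
        ∀ c ∈ msd G (S.filter fun v => v ∈ Cl G Z T z) w, G.Adj a c := by
      intro w hw a ha c hc'
      obtain ⟨a1, a2, a3⟩ := mem_filter.1 ha
      obtain ⟨c1, c2, c3⟩ := mem_filter.1 hc'
      exact (hF.cellD (h.sub hx) (h.sub hz) hxz).rect w (mem_filter.1 hw).2 a
        (mem_filter.1 a1).2 c (mem_filter.1 c1).2 a3 c3
    have hI : (S.filter fun v => v ∈ Dbl G Z T x z)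
          \ ((S.filter fun v => v ∈ Dbl G Z T x z).filter fun v => hm v = x)
        = (HP G Z T (fun x => S.filter fun v => hm v = x) z).filter
          fun v => tlo G T hm v = x := by
      rw [h.HP_eq hF hh hr hz hxz.symm]
      ext v
      simp only [mem_sdiff, mem_filter]
      constructor
      · rintro ⟨⟨h1, h2⟩, h4⟩
        refine ⟨⟨h1, by rwa [Dbl_comm]⟩, ?_⟩
        obtain ⟨h5, h6⟩ := mem_Dbl.1 h2
        have h7 := hh v h5
        rw [h6] at h7
        rcases mem_insert.1 h7 with h8 | h8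
        · exact absurd ⟨⟨h1, h2⟩, h8⟩ h4
        · exact mem_singleton.1 h8
      · rintro ⟨⟨h1, h2⟩, h4⟩
        refine ⟨⟨h1, by rwa [Dbl_comm]⟩, fun h5 => hxz ?_⟩
        rw [← h5.2, h4]
    have q1 : PCx ((S.filter fun v => v ∈ Dbl G Z T x z).filter fun v => hm v = x)
        (msd G (S.filter fun v => v ∈ Cl G Z T x)) B := by
      have := hB
      rwa [h.HP_eq hF hh hr hx hxz, h.CP_eq hr hx] at this
    have q2 : PCx ((S.filter fun v => v ∈ Dbl G Z T x z)
          \ ((S.filter fun v => v ∈ Dbl G Z T x z).filter fun v => hm v = x))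
        (msd G (S.filter fun v => v ∈ Cl G Z T z)) B' := by
      have := hB'
      rw [hI]
      rwa [h.CP_eq hr hz] at this
    have f1 := hc.pay hrect q1
    obtain ⟨f2, -, f3⟩ := hc.none q2
    have farB : farc G (S.filter fun v => v ∈ Cl G Z T x)
        ((S.filter fun v => v ∈ Dbl G Z T x z).filter fun v => hm v = x) B
        = ∑ e ∈ B, nd G ((S.filter fun v => v ∈ Cl G Z T x) \ B.image Prod.snd) e.1 := by
      rw [q1.farc_eq]
      exact sum_congr rfl fun e _ => msd_card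
    have farB' : farc G (S.filter fun v => v ∈ Cl G Z T z)
        ((S.filter fun v => v ∈ Dbl G Z T x z)
          \ ((S.filter fun v => v ∈ Dbl G Z T x z).filter fun v => hm v = x)) B'
        = ∑ e ∈ B', nd G ((S.filter fun v => v ∈ Cl G Z T z) \ B'.image Prod.snd) e.1 := by
      rw [q2.farc_eq]
      exact sum_congr rfl fun e _ => msd_card
    rw [farB] at f1
    rw [farB'] at f2
    have noar : ∀ {X Y : Finset V} {K : Finset (V × V)}, PCx X (msd G Y) K → ∀ w ∈ X,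
        w ∉ K.image Prod.fst → nd G (Y \ K.image Prod.snd) w = 0 := by
      intro X Y K hK w hw hwK
      unfold nd
      rw [card_eq_zero, filter_eq_empty_iff]
      rintro a ha ⟨e3, e4⟩
      obtain ⟨ha1, ha2⟩ := mem_sdiff.1 ha
      exact ha2 (hK.free hw hwK (mem_filter.2 ⟨ha1, e3, e4⟩))
    refine hP.pc2 (hC.CP_clq hF hx) (hC.CP_clq hF hz) (hW.dCC x hx z hz hxz)
      ((hW.dHC x hx x hx).symm.mono_right hWx) ((hW.dHC z hz x hx).symm.mono_right hWz)
      ((hW.dHC x hx z hz).symm.mono_right hWx) ((hW.dHC z hz z hz).symm.mono_right hWz)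
      ((hW.dHH x hx z hz hxz).mono hWx hWz) (B := B) (B' := B')
      (fun e he => hBW (mem_image.2 ⟨e, he, rfl⟩)) (fun e he => (p1 e he).2.2.1) hB.i1 hB.i2
      (fun e he => hBW' (mem_image.2 ⟨e, he, rfl⟩)) (fun e he => (p2 e he).2.2.1) hB'.i1 hB'.i2
      ?_ ?_ ?_ ?_ ?_ (fun w hw => noar hB w (hW1 hw)) (fun w hw => noar hB' w (hW1' hw))
      (X3 := frE G (CP G Z T (fun x => S.filter fun v => hm v = x) x)
        (CP G Z T (fun x => S.filter fun v => hm v = x) z) M B) ?_ ?_ ?_ ?_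
    · intro e he c hc'
      obtain ⟨a1, a2, a3, a4⟩ := p1 e he
      exact (hW.pc x hx e.1 a1 e.2 a3 a4).2 c (a2 ▸ hc')
    · intro e he c hc'
      obtain ⟨a1, a2, a3, a4⟩ := p2 e he
      exact (hW.pc z hz e.1 a1 e.2 a3 a4).2 c (a2 ▸ hc')
    · intro e he f hf hn
      obtain ⟨a1, a2, a3, a4⟩ := p1 e he
      obtain ⟨b1, b2, b3, b4⟩ := p2 f hf
      exact (hW.three x hx z hz hxz e.1 a1 a2 f.1 b1 b2 f.2 b3 (fun h5 => hn h5.symm)
        (fun h5 => (co_adj.1 b4).2 h5.symm)).symm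
    · intro e he v hv hve
      by_contra hcon
      push Not at hcon
      obtain ⟨a1, a2, a3, a4⟩ := p1 e he
      obtain ⟨hv1, hv2⟩ := mem_filter.1 (hW1 hv)
      exact hcon.1 ((hC.cellD hF hx hz hxz).comC v (hC.mem_Dbl_of_tlo hh hx hv1 hv2) e.1
        (hC.mem_Dbl_of_tlo hh hx a1 a2) hve e.2 a3 hcon.2 (co_adj.1 a4).2)
    · intro e he v hv hve
      by_contra hcon
      push Not at hcon
      obtain ⟨a1, a2, a3, a4⟩ := p2 e he
      obtain ⟨hv1, hv2⟩ := mem_filter.1 (hW1' hv)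
      exact hcon.1 ((hC.cellD hF hz hx hxz.symm).comC v (hC.mem_Dbl_of_tlo hh hz hv1 hv2) e.1
        (hC.mem_Dbl_of_tlo hh hz a1 a2) hve e.2 a3 hcon.2 (co_adj.1 a4).2)
    · intro f hf
      obtain ⟨a1, a2⟩ := mem_filter.1 hf
      obtain ⟨a3, a4⟩ := mem_product.1 a1
      exact mem_filter.2 ⟨mem_product.2 ⟨(mem_sdiff.1 a3).1, (mem_sdiff.1 a4).1⟩, a2⟩
    · intro f hf e he h5
      obtain ⟨a1, a2⟩ := mem_filter.1 hf
      obtain ⟨a3, a4⟩ := mem_product.1 a1
      exact (mem_sdiff.1 a3).2 (mem_image.2 ⟨e, he, h5⟩)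
    · intro f hf e he h5
      obtain ⟨a1, a2⟩ := mem_filter.1 hf
      obtain ⟨a3, a4⟩ := mem_product.1 a1
      exact (mem_sdiff.1 a4).2 (h5 ▸ f3 e he)
    · rw [h.CP_eq hr hx, h.CP_eq hr hz]
      omega
  obtain ⟨K, L, M, hc | hc⟩ := h3 x hx z hz hxz
  · exact key x hx z hz hxz B B' hB hB' W W' hW1 hW1' hBW hBW' K L M hc
  · have h1 := key z hz x hx hxz.symm B' B hB' hB W' W hW1' hW1 hBW' hBW K L M hc
    linarith [mul_comm ((r : ℤ) - 1 - (CP G Z T (fun x => S.filter fun v => hm v = x) x).card)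
      ((r : ℤ) - 1 - (CP G Z T (fun x => S.filter fun v => hm v = x) z).card),
      mul_comm (W.card : ℤ) W'.card]

/-- **the number of PC pairs of two rows**: `R (k + k') ≤ R + tx tz + k ^ 2 + k k' + k' ^ 2` -/
theorem HSys.pc2_card (hF : PFrame G r m t Z T) (hP : PG G r) (hh : Homes G Z T hm)
    (h : HSys G Z T A S) (hr : ∀ v ∈ S, hm v ∈ A ∧ hm v ∈ rws G T v) (h3 : Hom3 G Z T A S hm)
    {x z : V} (hx : x ∈ A) (hz : z ∈ A) (hxz : x ≠ z) {B B' : Finset (V × V)}
    (hB : PCx ((HP G Z T (fun x => S.filter fun v => hm v = x) x).filter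
      fun v => tlo G T hm v = z) (msd G (CP G Z T (fun x => S.filter fun v => hm v = x) x)) B)
    (hB' : PCx ((HP G Z T (fun x => S.filter fun v => hm v = x) z).filter
      fun v => tlo G T hm v = x) (msd G (CP G Z T (fun x => S.filter fun v => hm v = x) z)) B') :
    2 * (((r : ℤ) - 1) * (B.card + B'.card))
      + NE G (B.image Prod.fst) + NE G (B'.image Prod.fst)
      ≤ 2 * ((r : ℤ) - 1
          + ((r : ℤ) - 1 - (CP G Z T (fun x => S.filter fun v => hm v = x) x).card)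
            * ((r : ℤ) - 1 - (CP G Z T (fun x => S.filter fun v => hm v = x) z).card))
        + 2 * ((B.card : ℤ) ^ 2 + (B'.card : ℤ) ^ 2 + (B.card : ℤ) * B'.card) := by
  have i1 : (B.image Prod.fst).card = B.card := hB.toPCm.card_fst
  have i2 : (B'.image Prod.fst).card = B'.card := hB'.toPCm.card_fst
  have h1 := h.pc2 hF hP hh hr h3 hx hz hxz hB hB' (W := B.image Prod.fst)
    (W' := B'.image Prod.fst) (by
      intro v hv
      obtain ⟨e, he, rfl⟩ := mem_image.1 hv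
      exact hB.mem e he) (by
      intro v hv
      obtain ⟨e, he, rfl⟩ := mem_image.1 hv
      exact hB'.mem e he) (Subset.refl _) (Subset.refl _)
  have e3 : ∀ X : Finset V, X \ X = ∅ := fun X => by
    ext v
    simp
  rw [e3, e3, i1, i2] at h1
  have e0 : NE G (∅ : Finset V) = 0 := rfl
  have e1 : ∀ c, dg G (∅ : Finset V) c = 0 := fun c => rfl
  simp only [card_empty, e0, e1, Nat.cast_zero, sum_const_zero, zero_mul, mul_zero,
    add_zero] at h1
  linarith [sq (B.card : ℤ), sq (B'.card : ℤ)]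

/-- the arithmetic: with `q = k + k'`, `(q - 1) (R - q) ≤ tx tz + q` -/
lemma pc2_int {R tx tz k k' : ℤ}
    (h : R * (k + k') ≤ R + tx * tz + k ^ 2 + k' ^ 2 + k * k') :
    (k + k' - 1) * (R - (k + k')) + k * k' ≤ tx * tz + (k + k') := by
  nlinarith

end Frame

end Pool.Agent.Lib.MP_f04ccf_co
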