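import Pool.Agent.Lib.MP_f04ccf_co.M.PCap

/-!
MP_f04ccf_co: the partial colour cap in `2`-closed systems (note 16056 of helper9).
A least bad set of a `2`-closed system all of whose doubles have the row `x` consists of three
doubles of the row `x`, pairwise non-adjacent, one with a row outside `A`, the others with the
second row `y` (`TriAt`); every class point of `y` is adjacent to at least two of the three
(`TriAt.hit`).  So there is none if the class of `y` has `r - 1` points (`TriAt.none`), and at most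
one (up to two common points) if it has `r - 2` points (`TriAt.one`).
The colours without the full cap are counted by the missing pairs at doubles without `x` and by
these triangles (`JSys.pcap2`).
-/

set_option autoImplicit false

namespace Pool.Agent.Lib.MP_f04ccf_co

open Finset

attribute [local instance] Classical.propDecidable

section PCap2

variable {V : Type*} {G : SimpleGraph V} {Z T : Finset V} {r m t j : ℕ}

/-- **a least bad set**, all the structure that is used -/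
theorem JSys.exists_least (hF : PFrame G r m t Z T) {A S : Finset V} (h : JSys G Z T j A S)
    {K : Finset V} (hK : K ⊆ S) (hi : Ind G K) (hcK : A.card < K.card) :
    ∃ I ⊆ K, j + 1 ≤ (I ∩ BB G Z T).card ∧ I.card = (rwsU G T I ∩ A).card + 1 ∧
      (∃ e ∈ I, ¬ rws G T e ⊆ A) ∧
      (∀ x ∈ rwsU G T I ∩ A, 2 ≤ (I.filter fun v => x ∈ rws G T v).card) ∧
      ∑ y ∈ rwsU G T I ∩ A, (I.filter fun v => y ∈ rws G T v).card
        = ∑ v ∈ I, (rws G T v ∩ A).card := by
  have hne : (K.powerset.filter fun I => (rwsU G T I ∩ A).card < I.card).Nonempty :=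
    ⟨K, mem_filter.2 ⟨mem_powerset.2 (Subset.refl K),
      (card_le_card inter_subset_right).trans_lt hcK⟩⟩
  obtain ⟨I, hI, hmin⟩ := exists_min_image _ (fun I : Finset V => I.card) hne
  obtain ⟨hIK, hbad⟩ := mem_filter.1 hI
  rw [mem_powerset] at hIK
  have hIi : Ind G I := fun x hx y hy => hi x (hIK hx) y (hIK hy)
  -- the parts with one point less are good
  have hgood : ∀ v ∈ I, (rwsU G T (I.erase v) ∩ A) = rwsU G T I ∩ A ∧
      I.card = (rwsU G T I ∩ A).card + 1 := by
    intro v hv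
    have h1 : ¬ (rwsU G T (I.erase v) ∩ A).card < (I.erase v).card := by
      intro hb
      have h2 := hmin (I.erase v) (mem_filter.2 ⟨mem_powerset.2 ((erase_subset _ _).trans hIK), hb⟩)
      have h3 := card_erase_lt_of_mem hv
      omega
    have h4 := card_erase_of_mem hv
    have h5 : rwsU G T (I.erase v) ∩ A ⊆ rwsU G T I ∩ A :=
      inter_subset_inter (rwsU_mono (erase_subset _ _)) (Subset.refl _)
    have h6 := card_le_card h5
    have h7 : 0 < I.card := card_pos.2 ⟨v, hv⟩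
    exact ⟨eq_of_subset_of_card_le h5 (by omega), by omega⟩
  have hB : j + 1 ≤ (I ∩ BB G Z T).card := by
    by_contra hcon
    have h1 := h.ind I (hIK.trans hK) hIi (by omega)
    omega
  have hIne : I.Nonempty := by
    rw [nonempty_iff_ne_empty]
    rintro rfl
    simp at hbad
  obtain ⟨u, hu⟩ := hIne
  have hcard := (hgood u hu).2
  refine ⟨I, hIK, hB, hcard, ?_, ?_, ?_⟩
  · by_contra hcon
    push Not at hcon
    have h1 : rwsU G T I ∩ A = rwsU G T I := inter_eq_left.2 fun y hy => by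
      obtain ⟨v, hv, h2⟩ := mem_rwsU.1 hy
      exact hcon v hv h2
    have h2 := (hF.jsys I.card).ind_card ((hIK.trans hK).trans h.subZ) hIi (le_refl _)
    have h3 := card_le_card (inter_subset_left (s₁ := rwsU G T I) (s₂ := T))
    rw [h1] at hcard
    omega
  · intro y hyU
    obtain ⟨v, hv, hyv⟩ := mem_rwsU.1 (mem_inter.1 hyU).1
    have h2 : y ∈ rwsU G T (I.erase v) ∩ A := by
      rw [(hgood v hv).1]
      exact hyU
    obtain ⟨w, hw, hyw⟩ := mem_rwsU.1 (mem_inter.1 h2).1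
    have h3 : ({v, w} : Finset V) ⊆ I.filter fun v => y ∈ rws G T v := by
      intro z hz
      rw [mem_insert, mem_singleton] at hz
      rcases hz with rfl | rfl
      · exact mem_filter.2 ⟨hv, hyv⟩
      · exact mem_filter.2 ⟨mem_of_mem_erase hw, hyw⟩
    have h4 := card_le_card h3
    rw [card_pair (ne_of_mem_erase hw).symm] at h4
    exact h4
  · have h1 := Finset.sum_card_bipartiteAbove_eq_sum_card_bipartiteBelow
      (s := rwsU G T I ∩ A) (t := I) (fun y v => y ∈ rws G T v)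
    have h2 : ∀ v ∈ I, ((rwsU G T I ∩ A).bipartiteBelow (fun y v => y ∈ rws G T v) v)
        = rws G T v ∩ A := by
      intro v hv
      ext y
      rw [mem_bipartiteBelow, mem_inter, mem_inter]
      constructor
      · rintro ⟨⟨-, a⟩, b⟩
        exact ⟨b, a⟩
      · rintro ⟨a, b⟩
        exact ⟨⟨mem_rwsU.2 ⟨v, hv, a⟩, b⟩, a⟩
    exact h1.trans (sum_congr rfl fun v hv => by rw [h2 v hv])

variable (G Z T) in
/-- a triangle of missing pairs: three doubles with the row `x`, all rows in `A` among `x`, `y` -/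
structure TriAt (A S : Finset V) (x y : V) (I : Finset V) : Prop where
  sub : I ⊆ S
  ind : Ind G I
  card3 : I.card = 3
  dbl : I ⊆ BB G Z T
  row : ∀ v ∈ I, x ∈ rws G T v
  rws2 : ∀ v ∈ I, rws G T v ∩ A ⊆ {x, y}

/-- **a bad set of a `2`-closed system without a double which misses the row `x` is a triangle** -/
theorem JSys.exists_tri (hF : PFrame G r m t Z T) {A S : Finset V} (h : JSys G Z T j A S)
    (hj : 2 ≤ j) {K : Finset V} (hK : K ⊆ S) (hi : Ind G K) (hcK : A.card < K.card) {x : V}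
    (hx : x ∈ A) :
    (∃ I ⊆ K, 3 ≤ (I ∩ BB G Z T).card ∧ ∃ w ∈ I ∩ BB G Z T, x ∉ rws G T w) ∨
      ∃ I ⊆ K, ∃ y ∈ A.erase x, TriAt G Z T A S x y I := by
  obtain ⟨I, hIK, hB, hcard, ⟨e, he, heA⟩, hmul, hsum⟩ := h.exists_least hF hK hi hcK
  by_cases hw : ∃ w ∈ I ∩ BB G Z T, x ∉ rws G T w
  · exact Or.inl ⟨I, hIK, by omega, hw⟩
  right
  push Not at hw
  have hIS : I ⊆ S := hIK.trans hK
  -- the row `x`
  have h1 : I ∩ BB G Z T ⊆ I.filter fun v => x ∈ rws G T v := fun v hv =>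
    mem_filter.2 ⟨(mem_inter.1 hv).1, hw v hv⟩
  have h2 := card_le_card h1
  have hxU : x ∈ rwsU G T I ∩ A := by
    have h3 : (I ∩ BB G Z T).Nonempty := card_pos.1 (by omega)
    obtain ⟨v, hv⟩ := h3
    exact mem_inter.2 ⟨mem_rwsU.2 ⟨v, (mem_inter.1 hv).1, hw v hv⟩, hx⟩
  have hr2 : ∀ v ∈ I, (rws G T v ∩ A).card ≤ 2 := fun v hv =>
    (card_le_card inter_subset_left).trans (hF.rws_card (h.subZ (hIS hv)))
  have he1 : (rws G T e ∩ A).card ≤ 1 := by
    obtain ⟨y, hy, hyA⟩ := not_subset.1 heA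
    have h3 : rws G T e ∩ A ⊆ (rws G T e).erase y := by
      intro w hw'
      obtain ⟨h4, h5⟩ := mem_inter.1 hw'
      exact mem_erase.2 ⟨fun he' => hyA (he' ▸ h5), h4⟩
    have h4 := card_le_card h3
    rw [card_erase_of_mem hy] at h4
    have h5 := hF.rws_card (h.subZ (hIS he))
    omega
  have hlo : (I.filter fun v => x ∈ rws G T v).card + 2 * ((rwsU G T I ∩ A).card - 1)
      ≤ ∑ y ∈ rwsU G T I ∩ A, (I.filter fun v => y ∈ rws G T v).card := by
    rw [← add_sum_erase _ _ hxU]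
    have h3 : ∑ _y ∈ (rwsU G T I ∩ A).erase x, 2
        ≤ ∑ y ∈ (rwsU G T I ∩ A).erase x, (I.filter fun v => y ∈ rws G T v).card :=
      sum_le_sum fun y hy => hmul y (mem_of_mem_erase hy)
    rw [sum_const, smul_eq_mul, card_erase_of_mem hxU] at h3
    omega
  have hf0 : 0 < (rwsU G T I ∩ A).card := card_pos.2 ⟨x, hxU⟩
  -- all other points have two rows in `A`
  have htwo : ∀ v ∈ I, v ≠ e → (rws G T v ∩ A).card = 2 := by
    intro v hv hve
    by_contra hne
    have h3 : (rws G T v ∩ A).card ≤ 1 := by have := hr2 v hv; omega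
    have hv' : v ∈ I.erase e := mem_erase.2 ⟨hve, hv⟩
    have h4 : ∑ u ∈ I, (rws G T u ∩ A).card + 2 ≤ 2 * I.card := by
      rw [← add_sum_erase _ _ he, ← add_sum_erase _ _ hv']
      have h5 : ∑ u ∈ (I.erase e).erase v, (rws G T u ∩ A).card
          ≤ ∑ _u ∈ (I.erase e).erase v, 2 :=
        sum_le_sum fun u hu => hr2 u (mem_of_mem_erase (mem_of_mem_erase hu))
      rw [sum_const, smul_eq_mul, card_erase_of_mem hv', card_erase_of_mem he] at h5
      have h6 : 2 ≤ I.card := by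
        have h7 := card_pos.2 ⟨v, hv'⟩
        rw [card_erase_of_mem he] at h7
        omega
      omega
    omega
  have hsz : ∑ u ∈ I, (rws G T u ∩ A).card + 1 ≤ 2 * I.card := by
    rw [← add_sum_erase _ _ he]
    have h5 : ∑ u ∈ I.erase e, (rws G T u ∩ A).card ≤ ∑ _u ∈ I.erase e, 2 :=
      sum_le_sum fun u hu => hr2 u (mem_of_mem_erase hu)
    rw [sum_const, smul_eq_mul, card_erase_of_mem he] at h5
    have h6 := card_pos.2 ⟨e, he⟩
    omega
  -- all points are double
  have hdbl : I ⊆ BB G Z T := by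
    intro v hv
    obtain ⟨y, hyA, hyv⟩ := h.row v (hIS hv)
    rcases hF.rws_cases (h.subZ (hIS hv)) hyv with h3 | ⟨h3, -⟩
    · exfalso
      by_cases hve : v = e
      · rw [hve] at h3
        exact heA (h3 ▸ singleton_subset_iff.2 hyA)
      · have h4 := htwo v hv hve
        rw [h3] at h4
        have h5 := card_le_card (inter_subset_left (s₁ := ({y} : Finset V)) (s₂ := A))
        rw [card_singleton] at h5
        omega
    · exact h3
  have hIB : I ∩ BB G Z T = I := inter_eq_left.2 hdbl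
  rw [hIB] at hB h2 hw
  have hc3 : I.card = 3 := by omega
  have hf2 : (rwsU G T I ∩ A).card = 2 := by omega
  have h3 : ((rwsU G T I ∩ A).erase x).card = 1 := by
    rw [card_erase_of_mem hxU]
    omega
  obtain ⟨y, hy⟩ := card_eq_one.1 h3
  have hyU : y ∈ (rwsU G T I ∩ A).erase x := hy ▸ mem_singleton_self y
  refine ⟨I, hIK, y, mem_erase.2 ⟨ne_of_mem_erase hyU, (mem_inter.1 (mem_of_mem_erase hyU)).2⟩,
    hIS, fun a ha b hb => hi a (hIK ha) b (hIK hb), hc3, hdbl, hw, ?_⟩
  intro v hv z hz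
  obtain ⟨h4, h5⟩ := mem_inter.1 hz
  rw [mem_insert, mem_singleton]
  by_cases hzx : z = x
  · exact Or.inl hzx
  right
  have h6 : z ∈ (rwsU G T I ∩ A).erase x :=
    mem_erase.2 ⟨hzx, mem_inter.2 ⟨mem_rwsU.2 ⟨v, hv, h4⟩, h5⟩⟩
  rw [hy, mem_singleton] at h6
  exact h6

/-- **every class point of `y` is adjacent to two of the three points** -/
theorem TriAt.hit {A S : Finset V} (h : JSys G Z T j A S)
    (hj : 2 ≤ j) {x y : V} (hy : y ∈ A) {I : Finset V} (hI : TriAt G Z T A S x y I) {p q c : V}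
    (hp : p ∈ I) (hq : q ∈ I) (hpq : p ≠ q) (hc : c ∈ S) (hcy : c ∈ Cl G Z T y) :
    G.Adj c p ∨ G.Adj c q := by
  by_contra hcon
  push Not at hcon
  have hyT := h.sub hy
  have hcB := Cl_notMem_BB hyT hcy
  have hpB := hI.dbl hp
  have hqB := hI.dbl hq
  have hpc : p ≠ c := fun h' => hcB (h' ▸ hpB)
  have hqc : q ≠ c := fun h' => hcB (h' ▸ hqB)
  have h1 := h.ind {p, q, c} (by
      intro v hv
      simp only [mem_insert, mem_singleton] at hv
      rcases hv with rfl | rfl | rfl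
      · exact hI.sub hp
      · exact hI.sub hq
      · exact hc) (Ind.triple (hI.ind p hp q hq) (fun h' => hcon.1 h'.symm)
        (fun h' => hcon.2 h'.symm)) (by
      refine (card_le_card (t := {p, q}) ?_).trans ((card_le_two).trans hj)
      intro v hv
      obtain ⟨h2, h3⟩ := mem_inter.1 hv
      simp only [mem_insert, mem_singleton] at h2 ⊢
      rcases h2 with rfl | rfl | rfl
      · exact Or.inl rfl
      · exact Or.inr rfl
      · exact absurd h3 hcB)
  rw [card_triple hpq hpc hqc] at h1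
  have h2 : rwsU G T {p, q, c} ∩ A ⊆ {x, y} := by
    intro z hz
    obtain ⟨h3, h4⟩ := mem_inter.1 hz
    obtain ⟨v, hv, hzv⟩ := mem_rwsU.1 h3
    simp only [mem_insert, mem_singleton] at hv
    rcases hv with rfl | rfl | rfl
    · exact hI.rws2 v hp (mem_inter.2 ⟨hzv, h4⟩)
    · exact hI.rws2 v hq (mem_inter.2 ⟨hzv, h4⟩)
    · rw [rws_Cl hyT hcy, mem_singleton] at hzv
      rw [hzv]
      exact mem_insert_of_mem (mem_singleton_self y)
  have h3 := (card_le_card h2).trans card_le_two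
  omega

/-- a class point misses at most one point of a triangle -/
theorem TriAt.nd_le {A S : Finset V} (h : JSys G Z T j A S)
    (hj : 2 ≤ j) {x y : V} (hy : y ∈ A) {I : Finset V} (hI : TriAt G Z T A S x y I) {c : V}
    (hc : c ∈ S) (hcy : c ∈ Cl G Z T y) : nd G I c ≤ 1 := by
  by_contra hcon
  push Not at hcon
  unfold nd at hcon
  obtain ⟨p, hp, q, hq, hpq⟩ := one_lt_card.1 hcon
  rw [mem_filter] at hp hq
  rcases hI.hit h hj hy hp.1 hq.1 hpq hc hcy with h1 | h1
  · exact hp.2.2 h1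
  · exact hq.2.2 h1

/-- slope one on a clique and a front -/
lemma front_slope (hP : PG G r) {C W : Finset V} (hC : Clq G C) (hd : Disjoint C W) {μ : ℕ}
    (hμ : ∀ c ∈ C, nd G W c ≤ μ) :
    2 * ((r : ℤ) - 1) * ((C.card : ℤ) + W.card - r)
      ≤ (W.card : ℤ) * (W.card - 1) + 2 * (μ * C.card) := by
  have h1 := hP.ne1 (C ∪ W)
  rw [card_union_of_disjoint hd, NE_union hd, NE_clq hC, nd_comm W C] at h1
  have h2 : (NE G W : ℤ) ≤ (W.card : ℤ) * (W.card - 1) := by
    have h3 := NE_le (G := G) W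
    rcases Nat.eq_zero_or_pos W.card with h0 | h0
    · have h4 : NE G W = 0 := by
        rw [h0] at h3
        simpa using h3
      rw [h4, h0]
      norm_num
    · have h4 : (NE G W : ℤ) ≤ ((W.card * (W.card - 1) : ℕ) : ℤ) := by exact_mod_cast h3
      rw [Nat.cast_mul, Nat.cast_sub h0] at h4
      simpa using h4
  have h5 : (∑ c ∈ C, (nd G W c : ℤ)) ≤ μ * C.card := by
    have h6 : ∑ c ∈ C, (nd G W c : ℤ) ≤ ∑ _c ∈ C, (μ : ℤ) :=
      sum_le_sum fun c hc => by exact_mod_cast hμ c hc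
    rw [sum_const, nsmul_eq_mul] at h6
    linarith [mul_comm (μ : ℤ) (C.card : ℤ)]
  push_cast at h1
  linarith

/-- the class points of a row in `S` -/
lemma JSys.cl_disj {A S : Finset V} (h : JSys G Z T j A S) {y : V} (hy : y ∈ A) {W : Finset V}
    (hW : W ⊆ BB G Z T) : Disjoint (S ∩ Cl G Z T y) W := by
  rw [disjoint_left]
  intro v hv hv'
  exact Cl_notMem_BB (h.sub hy) (mem_inter.1 hv).2 (hW hv')

/-- **no triangle at a row with `r - 1` class points** -/
theorem TriAt.none (hr : 5 ≤ r) (hP : PG G r) (hF : PFrame G r m t Z T) {A S : Finset V}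
    (h : JSys G Z T j A S) (hj : 2 ≤ j) {x y : V} (hy : y ∈ A)
    (hc : r ≤ (S ∩ Cl G Z T y).card + 1) {I : Finset V} : ¬ TriAt G Z T A S x y I := by
  intro hI
  have h1 := front_slope hP ((hF.Cl_clq (h.sub hy)).mono inter_subset_right)
    (h.cl_disj hy hI.dbl) (fun c hc => hI.nd_le h hj hy (mem_inter.1 hc).1 (mem_inter.1 hc).2)
  rw [hI.card3] at h1
  have h2 : (r : ℤ) - 1 ≤ (S ∩ Cl G Z T y).card := by omega
  have h3 : (5 : ℤ) ≤ r := by exact_mod_cast hr
  push_cast at h1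
  nlinarith

/-- **at a row with `r - 2` class points two triangles have two common points** -/
theorem TriAt.one (hr : 10 ≤ r) (hP : PG G r) (hF : PFrame G r m t Z T) {A S : Finset V}
    (h : JSys G Z T j A S) (hj : 2 ≤ j) {x y : V} (hy : y ∈ A)
    (hc : r ≤ (S ∩ Cl G Z T y).card + 2) {I J : Finset V} (hI : TriAt G Z T A S x y I)
    (hJ : TriAt G Z T A S x y J) : 2 ≤ (I ∩ J).card := by
  by_contra hcon
  have h0 : (I ∪ J).card + (I ∩ J).card = 6 := by
    rw [card_union_add_card_inter, hI.card3, hJ.card3]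
  have hμ : ∀ c ∈ S ∩ Cl G Z T y, nd G (I ∪ J) c ≤ 2 := by
    intro c hc'
    obtain ⟨h1, h2⟩ := mem_inter.1 hc'
    have h3 := hI.nd_le h hj hy h1 h2
    have h4 := hJ.nd_le h hj hy h1 h2
    have h5 : nd G (I ∪ J) c ≤ nd G I c + nd G J c := by
      unfold nd
      rw [filter_union]
      exact card_union_le _ _
    omega
  have h1 := front_slope hP ((hF.Cl_clq (h.sub hy)).mono inter_subset_right)
    (h.cl_disj hy (union_subset hI.dbl hJ.dbl)) hμ
  have h2 : (r : ℤ) - 2 ≤ (S ∩ Cl G Z T y).card := by omega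
  have h3 : (10 : ℤ) ≤ r := by exact_mod_cast hr
  set a := (S ∩ Cl G Z T y).card with ha
  have h4 : (I ∪ J).card = 5 ∨ (I ∪ J).card = 6 := by omega
  rcases h4 with h4 | h4
  · rw [h4] at h1
    push_cast at h1
    nlinarith
  · rw [h4] at h1
    push_cast at h1
    nlinarith

/-- **the number of exceptional colours in a `2`-closed system**: `b y` bounds the number of
triangles at the row `y`, two of which have at most one common point -/
theorem JSys.kap_le2 (hF : PFrame G r m t Z T) {A S : Finset V} (h : JSys G Z T j A S)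
    (hj : 2 ≤ j) {x : V} (hx : x ∈ A) {b : V → ℕ}
    (hb : ∀ y ∈ A.erase x, ∀ F : Finset (Finset V), (∀ I ∈ F, TriAt G Z T A S x y I) →
      (∀ I ∈ F, ∀ J ∈ F, I ≠ J → (I ∩ J).card ≤ 1) → F.card ≤ b y)
    {F : Finset (Finset V)} (h1 : ∀ K ∈ F, K ⊆ S ∧ Ind G K ∧ A.card < K.card)
    (h2 : ∀ K ∈ F, ∀ L ∈ F, K ≠ L → (K ∩ L).card ≤ 1) :
    ∃ κ₀ κ₁ : ℕ, F.card = κ₀ + κ₁ ∧ 2 * κ₀ ≤ ∑ w ∈ (S ∩ BB G Z T).filter
      (fun w => x ∉ rws G T w), nd G (S ∩ BB G Z T) w ∧ κ₁ ≤ ∑ y ∈ A.erase x, b y := by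
  set N := (S ∩ BB G Z T).filter (fun w => x ∉ rws G T w) with hNdef
  set Q : Finset V → Prop := fun K => ∃ I ⊆ K, 3 ≤ (I ∩ BB G Z T).card ∧
    ∃ w ∈ I ∩ BB G Z T, x ∉ rws G T w with hQ
  refine ⟨(F.filter Q).card, (F.filter fun K => ¬ Q K).card,
    (card_filter_add_card_filter_not Q).symm, ?_, ?_⟩
  · have hex : ∀ K : Finset V, ∃ p : Finset V × V, K ∈ F.filter Q → p.1 ⊆ K ∧
        3 ≤ (p.1 ∩ BB G Z T).card ∧ p.2 ∈ p.1 ∩ BB G Z T ∧ x ∉ rws G T p.2 := by
      intro K
      by_cases hK : K ∈ F.filter Q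
      · obtain ⟨I, hIK, b1, w, hw, hxw⟩ := (mem_filter.1 hK).2
        exact ⟨(I, w), fun _ => ⟨hIK, b1, hw, hxw⟩⟩
      · exact ⟨(∅, x), fun hK' => absurd hK' hK⟩
    choose p hp using hex
    set P : Finset V → Finset (Σ _ : V, V) := fun K =>
      (((p K).1 ∩ BB G Z T).erase (p K).2).image fun w => (⟨(p K).2, w⟩ : Σ _ : V, V) with hPdef
    have hPc : ∀ K ∈ F.filter Q, 2 ≤ (P K).card := by
      intro K hK
      obtain ⟨a1, a2, a3, a4⟩ := hp K hK
      have e1 : (P K).card = (((p K).1 ∩ BB G Z T).erase (p K).2).card := by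
        refine card_image_of_injective _ fun w w' hww => ?_
        have := Sigma.mk.inj hww
        exact eq_of_heq this.2
      rw [e1, card_erase_of_mem a3]
      omega
    have hdis : ∀ K ∈ F.filter Q, ∀ L ∈ F.filter Q, K ≠ L → Disjoint (P K) (P L) := by
      intro K hK L hL hKL
      rw [disjoint_left]
      intro q hq hq'
      obtain ⟨w, hw, rfl⟩ := mem_image.1 hq
      obtain ⟨w', hw', he⟩ := mem_image.1 hq'
      have he1 : (p L).2 = (p K).2 := congrArg Sigma.fst he
      have he2 : w' = w := eq_of_heq (Sigma.mk.inj he).2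
      rw [he2] at hw'
      obtain ⟨a1, a2, a3, a4⟩ := hp K hK
      obtain ⟨b1, b2, b3, b4⟩ := hp L hL
      have h3 : ({(p K).2, w} : Finset V) ⊆ K ∩ L := by
        intro z hz
        rw [mem_insert, mem_singleton] at hz
        rcases hz with rfl | rfl
        · refine mem_inter.2 ⟨a1 (mem_inter.1 a3).1, ?_⟩
          rw [← he1]
          exact b1 (mem_inter.1 b3).1
        · exact mem_inter.2 ⟨a1 (mem_inter.1 (mem_of_mem_erase hw)).1,
            b1 (mem_inter.1 (mem_of_mem_erase hw')).1⟩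
      have h4 := card_le_card h3
      rw [card_pair (ne_of_mem_erase hw).symm] at h4
      have h5 := h2 K (mem_filter.1 hK).1 L (mem_filter.1 hL).1 hKL
      omega
    have hsub : (F.filter Q).biUnion P ⊆ N.sigma fun w =>
        (S ∩ BB G Z T).filter (fun y => y ≠ w ∧ ¬ G.Adj w y) := by
      intro q hq
      obtain ⟨K, hK, hq⟩ := mem_biUnion.1 hq
      obtain ⟨w, hw, rfl⟩ := mem_image.1 hq
      obtain ⟨a1, a2, a3, a4⟩ := hp K hK
      obtain ⟨c1, c2, -⟩ := h1 K (mem_filter.1 hK).1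
      have hwI := mem_inter.1 (mem_of_mem_erase hw)
      have h3I := mem_inter.1 a3
      refine mem_sigma.2 ⟨mem_filter.2 ⟨mem_inter.2 ⟨c1 (a1 h3I.1), h3I.2⟩, a4⟩,
        mem_filter.2 ⟨mem_inter.2 ⟨c1 (a1 hwI.1), hwI.2⟩, ne_of_mem_erase hw, ?_⟩⟩
      exact c2 _ (a1 h3I.1) _ (a1 hwI.1)
    have h3 := card_le_card hsub
    rw [card_biUnion hdis, card_sigma] at h3
    have h4 : 2 * (F.filter Q).card ≤ ∑ K ∈ F.filter Q, (P K).card := by
      have := card_nsmul_le_sum (F.filter Q) (fun K => (P K).card) 2 hPc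
      rw [smul_eq_mul] at this
      rw [mul_comm]
      exact this
    exact h4.trans h3
  · -- the triangles
    have hex : ∀ K : Finset V, ∃ p : Finset V × V, K ∈ F.filter (fun K => ¬ Q K) → p.1 ⊆ K ∧
        p.2 ∈ A.erase x ∧ TriAt G Z T A S x p.2 p.1 := by
      intro K
      by_cases hK : K ∈ F.filter (fun K => ¬ Q K)
      · obtain ⟨hKF, hKQ⟩ := mem_filter.1 hK
        obtain ⟨a1, a2, a3⟩ := h1 K hKF
        rcases h.exists_tri hF hj a1 a2 a3 hx with hq | ⟨I, hIK, y, hy, hI⟩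
        · exact absurd hq hKQ
        · exact ⟨(I, y), fun _ => ⟨hIK, hy, hI⟩⟩
      · exact ⟨(∅, x), fun hK' => absurd hK' hK⟩
    choose p hp using hex
    have hsum : (F.filter fun K => ¬ Q K).card
        = ∑ y ∈ A.erase x, ((F.filter fun K => ¬ Q K).filter fun K => (p K).2 = y).card :=
      card_eq_sum_card_fiberwise fun K hK => (hp K hK).2.1
    rw [hsum]
    refine sum_le_sum fun y hy => ?_
    set F' := (F.filter fun K => ¬ Q K).filter fun K => (p K).2 = y with hF'
    have hinj : ∀ K ∈ F', ∀ L ∈ F', (p K).1 = (p L).1 → K = L := by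
      intro K hK L hL hKL
      by_contra hne
      obtain ⟨a1, a2⟩ := mem_filter.1 hK
      obtain ⟨b1, b2⟩ := mem_filter.1 hL
      obtain ⟨c1, c2, c3⟩ := hp K a1
      obtain ⟨d1, d2, d3⟩ := hp L b1
      have h3 : (p K).1 ⊆ K ∩ L := fun v hv => mem_inter.2 ⟨c1 hv, d1 (hKL ▸ hv)⟩
      have h4 := card_le_card h3
      rw [c3.card3] at h4
      have h5 := h2 K (mem_filter.1 a1).1 L (mem_filter.1 b1).1 hne
      omega
    have hcard : (F'.image fun K => (p K).1).card = F'.card :=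
      card_image_of_injOn fun K hK L hL hKL => hinj K hK L hL hKL
    rw [← hcard]
    refine hb y hy _ ?_ ?_
    · intro I hI
      obtain ⟨K, hK, rfl⟩ := mem_image.1 hI
      obtain ⟨a1, a2⟩ := mem_filter.1 hK
      have := (hp K a1).2.2
      rwa [a2] at this
    · intro I hI J hJ hIJ
      obtain ⟨K, hK, rfl⟩ := mem_image.1 hI
      obtain ⟨L, hL, rfl⟩ := mem_image.1 hJ
      have hne : K ≠ L := fun h' => hIJ (by rw [h'])
      obtain ⟨a1, a2⟩ := mem_filter.1 hK
      obtain ⟨b1, b2⟩ := mem_filter.1 hL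
      exact (card_le_card (inter_subset_inter (hp K a1).1 (hp L b1).1)).trans
        (h2 K (mem_filter.1 a1).1 L (mem_filter.1 b1).1 hne)

/-- **the partial cap in a `2`-closed system** -/
theorem JSys.pcap2 (hF : PFrame G r m t Z T) (hC : PCAP G r) {A S : Finset V}
    (h : JSys G Z T j A S) (hj : 2 ≤ j) (hcard : S.card = A.card * r + 1) {x : V} (hx : x ∈ A)
    {b : V → ℕ}
    (hb : ∀ y ∈ A.erase x, ∀ F : Finset (Finset V), (∀ I ∈ F, TriAt G Z T A S x y I) →
      (∀ I ∈ F, ∀ J ∈ F, I ≠ J → (I ∩ J).card ≤ 1) → F.card ≤ b y) :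
    ∃ κ₀ κ₁ : ℕ, κ₀ + κ₁ + 1 ≤ r ∧ 2 * κ₀ ≤ ∑ w ∈ (S ∩ BB G Z T).filter
      (fun w => x ∉ rws G T w), nd G (S ∩ BB G Z T) w ∧ κ₁ ≤ ∑ y ∈ A.erase x, b y ∧
      ((r : ℤ) - 1) * (r * A.card * (A.card - 1) + 4 * A.card - 2)
        - 2 * (A.card - 1) * (κ₀ + κ₁) ≤ NE G S := by
  obtain ⟨F, h1, h2, h3, h4⟩ := hC A.card S (card_pos.2 ⟨x, hx⟩) hcard
  obtain ⟨κ₀, κ₁, h5, h6, h7⟩ := h.kap_le2 hF hj hx hb (fun K hK => ⟨(h1 K hK).1, (h1 K hK).2.1, by
    rw [(h1 K hK).2.2]; omega⟩) h2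
  refine ⟨κ₀, κ₁, by omega, h6, h7, ?_⟩
  rw [h5] at h4
  push_cast at h4
  exact h4

/-- the number of triangles at rows with `r - 1` or `r - 2` class points -/
theorem JSys.tri_card_le (hr : 10 ≤ r) (hP : PG G r) (hF : PFrame G r m t Z T) {A S : Finset V}
    (h : JSys G Z T j A S) (hj : 2 ≤ j) {x y : V} (hy : y ∈ A)
    (hc : r ≤ (S ∩ Cl G Z T y).card + 2) {F : Finset (Finset V)}
    (h1 : ∀ I ∈ F, TriAt G Z T A S x y I)
    (h2 : ∀ I ∈ F, ∀ J ∈ F, I ≠ J → (I ∩ J).card ≤ 1) :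
    F.card + (S ∩ Cl G Z T y).card + 1 ≤ r ∨ F.card = 0 := by
  rcases F.eq_empty_or_nonempty with rfl | ⟨I, hI⟩
  · exact Or.inr card_empty
  left
  have h3 : (S ∩ Cl G Z T y).card + 2 ≤ r := by
    by_contra hcon
    exact TriAt.none (by omega) hP hF h hj hy (by omega) (h1 I hI)
  have h4 : F.card ≤ 1 := by
    refine card_le_one.2 fun I hI J hJ => ?_
    by_contra hne
    have h5 := TriAt.one hr hP hF h hj hy hc (h1 I hI) (h1 J hJ)
    have h6 := h2 I hI J hJ hne
    omega
  omega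

/-- **all doubles at one row `x`, all other rows with at least `r - 2` class points**: at most one
exceptional colour for every row with `r - 2` class points, none for the others -/
theorem JSys.cap_hub2 (hr : 10 ≤ r) (hP : PG G r) (hF : PFrame G r m t Z T) (hC : PCAP G r)
    {A S : Finset V} (h : JSys G Z T j A S) (hj : 2 ≤ j) (hcard : S.card = A.card * r + 1) {x : V}
    (hx : x ∈ A) (hN : ∀ v ∈ S, v ∈ BB G Z T → x ∈ rws G T v)
    (hc : ∀ y ∈ A.erase x, r ≤ (S ∩ Cl G Z T y).card + 2) :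
    ∃ κ ≤ ∑ y ∈ A.erase x, (r - 1 - (S ∩ Cl G Z T y).card),
      ((r : ℤ) - 1) * (r * A.card * (A.card - 1) + 4 * A.card - 2)
        - 2 * (A.card - 1) * κ ≤ NE G S := by
  obtain ⟨κ₀, κ₁, -, h2, h3, h4⟩ := h.pcap2 hF hC hj hcard hx
    (b := fun y => r - 1 - (S ∩ Cl G Z T y).card) (by
      intro y hy F h1 h2
      rcases h.tri_card_le hr hP hF hj (mem_of_mem_erase hy) (hc y hy) h1 h2 with h3 | h3
      · omega
      · omega)
  have h5 : (S ∩ BB G Z T).filter (fun w => x ∉ rws G T w) = ∅ :=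
    filter_eq_empty_iff.2 fun v hv hxv => hxv (hN v (mem_inter.1 hv).1 (mem_inter.1 hv).2)
  rw [h5, sum_empty] at h2
  have h6 : κ₀ = 0 := by omega
  subst h6
  refine ⟨κ₁, h3, ?_⟩
  push_cast at h4
  rw [zero_add] at h4
  exact h4

/-- **the full cap**: all doubles at one row, all other rows with `r - 1` class points -/
theorem JSys.cap_hub2' (hr : 10 ≤ r) (hP : PG G r) (hF : PFrame G r m t Z T) (hC : PCAP G r)
    {A S : Finset V} (h : JSys G Z T j A S) (hj : 2 ≤ j) (hcard : S.card = A.card * r + 1) {x : V}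
    (hx : x ∈ A) (hN : ∀ v ∈ S, v ∈ BB G Z T → x ∈ rws G T v)
    (hc : ∀ y ∈ A.erase x, r ≤ (S ∩ Cl G Z T y).card + 1) :
    ((r : ℤ) - 1) * (r * A.card * (A.card - 1) + 4 * A.card - 2) ≤ NE G S := by
  obtain ⟨κ, h1, h2⟩ := h.cap_hub2 hr hP hF hC hj hcard hx hN
    (fun y hy => (hc y hy).trans (by omega))
  have h3 : ∑ y ∈ A.erase x, (r - 1 - (S ∩ Cl G Z T y).card) = 0 :=
    sum_eq_zero fun y hy => by
      have := hc y hy
      omega
  have h4 : κ = 0 := by omega
  subst h4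
  push_cast at h2
  linarith

end PCap2

end Pool.Agent.Lib.MP_f04ccf_co
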