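import Pool.Agent.Lib.MP_f04ccf_co.M.PCap2
import Pool.Agent.Lib.MP_f04ccf_co.M.AC
import Pool.Agent.Lib.MP_f04ccf_co.M.Tau

/-!
MP_f04ccf_co: the partial cap of `j`-closed systems (`2 ≤ j`) in the basic integers (notes 16056,
16072, 16107).  The exceptional colours are counted by the missing pairs at doubles which are not
homed at the hub and by the triangles homed at the hub; a row `y` with the second row of `b + 1`
triangles has a front of at most `3 (b + 1)` points of which every class point misses at most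
`b + 1`, and one with more than `(k - 1) (k - 2) / 2` triangles has a front of at most `2 k` points of
which every class point sees `k` (helper60, note 16212) (`TriOK`, `tri_row`).  `BIP`: the basic
integers with the partial cap, `JSys.bip`.
-/

set_option autoImplicit false

namespace Pool.Agent.Lib.MP_f04ccf_co

open Finset

attribute [local instance] Classical.propDecidable

section PCapS

variable {V : Type*} {G : SimpleGraph V} {Z T : Finset V} {hm : V → V} {r m t j : ℕ}

/-- the count of a family of independent sets, two of which have at most one common point -/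
theorem kap_split {S B A' : Finset V} {q : V → Prop} {Tr : V → Finset V → Prop} {b : V → ℕ}
    (hT3 : ∀ y I, Tr y I → I.card = 3) {F : Finset (Finset V)}
    (hb : ∀ y ∈ A', ∀ F' : Finset (Finset V), F'.card ≤ F.card → (∀ I ∈ F', Tr y I) →
      (∀ I ∈ F', ∀ J ∈ F', I ≠ J → (I ∩ J).card ≤ 1) → F'.card ≤ b y)
    (h1 : ∀ K ∈ F, K ⊆ S ∧ Ind G K)
    (h2 : ∀ K ∈ F, ∀ L ∈ F, K ≠ L → (K ∩ L).card ≤ 1)
    (h3 : ∀ K ∈ F, (∃ I ⊆ K, 3 ≤ (I ∩ B).card ∧ ∃ w ∈ I ∩ B, q w) ∨
      ∃ I ⊆ K, ∃ y ∈ A', Tr y I) :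
    ∃ κ₀ κ₁ : ℕ, F.card = κ₀ + κ₁ ∧ 2 * κ₀ ≤ ∑ w ∈ (S ∩ B).filter q, nd G (S ∩ B) w ∧
      κ₁ ≤ ∑ y ∈ A', b y := by
  rcases F.eq_empty_or_nonempty with rfl | ⟨K₀, hK₀⟩
  · exact ⟨0, 0, by simp, Nat.zero_le _, Nat.zero_le _⟩
  have hV : Nonempty V := by
    rcases h3 K₀ hK₀ with ⟨I, -, -, w, -, -⟩ | ⟨I, -, y, -, -⟩
    · exact ⟨w⟩
    · exact ⟨y⟩
  obtain ⟨x₀⟩ := hV
  set Q : Finset V → Prop := fun K => ∃ I ⊆ K, 3 ≤ (I ∩ B).card ∧ ∃ w ∈ I ∩ B, q w with hQ
  refine ⟨(F.filter Q).card, (F.filter fun K => ¬ Q K).card,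
    (card_filter_add_card_filter_not Q).symm, ?_, ?_⟩
  · have hex : ∀ K : Finset V, ∃ p : Finset V × V, K ∈ F.filter Q → p.1 ⊆ K ∧
        3 ≤ (p.1 ∩ B).card ∧ p.2 ∈ p.1 ∩ B ∧ q p.2 := by
      intro K
      by_cases hK : K ∈ F.filter Q
      · obtain ⟨I, hIK, b1, w, hw, hxw⟩ := (mem_filter.1 hK).2
        exact ⟨(I, w), fun _ => ⟨hIK, b1, hw, hxw⟩⟩
      · exact ⟨(∅, x₀), fun hK' => absurd hK' hK⟩
    choose p hp using hex
    set P : Finset V → Finset (Σ _ : V, V) := fun K =>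
      (((p K).1 ∩ B).erase (p K).2).image fun w => (⟨(p K).2, w⟩ : Σ _ : V, V) with hPdef
    have hPc : ∀ K ∈ F.filter Q, 2 ≤ (P K).card := by
      intro K hK
      obtain ⟨a1, a2, a3, a4⟩ := hp K hK
      have e1 : (P K).card = (((p K).1 ∩ B).erase (p K).2).card := by
        refine card_image_of_injective _ fun w w' hww => ?_
        have := Sigma.mk.inj hww
        exact eq_of_heq this.2
      rw [e1, card_erase_of_mem a3]
      omega
    have hdis : ∀ K ∈ F.filter Q, ∀ L ∈ F.filter Q, K ≠ L → Disjoint (P K) (P L) := by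
      intro K hK L hL hKL
      rw [disjoint_left]
      intro q hq hq'
      obtain ⟨w, hw, rfl⟩ := mem_image.1 hq
      obtain ⟨w', hw', he⟩ := mem_image.1 hq'
      have he1 : (p L).2 = (p K).2 := congrArg Sigma.fst he
      have he2 : w' = w := eq_of_heq (Sigma.mk.inj he).2
      rw [he2] at hw'
      obtain ⟨a1, a2, a3, a4⟩ := hp K hK
      obtain ⟨b1, b2, b3, b4⟩ := hp L hL
      have h3 : ({(p K).2, w} : Finset V) ⊆ K ∩ L := by
        intro z hz
        rw [mem_insert, mem_singleton] at hz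
        rcases hz with rfl | rfl
        · refine mem_inter.2 ⟨a1 (mem_inter.1 a3).1, ?_⟩
          rw [← he1]
          exact b1 (mem_inter.1 b3).1
        · exact mem_inter.2 ⟨a1 (mem_inter.1 (mem_of_mem_erase hw)).1,
            b1 (mem_inter.1 (mem_of_mem_erase hw')).1⟩
      have h4 := card_le_card h3
      rw [card_pair (ne_of_mem_erase hw).symm] at h4
      have h5 := h2 K (mem_filter.1 hK).1 L (mem_filter.1 hL).1 hKL
      omega
    have hsub : (F.filter Q).biUnion P ⊆ ((S ∩ B).filter q).sigma fun w =>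
        (S ∩ B).filter (fun y => y ≠ w ∧ ¬ G.Adj w y) := by
      intro z hz
      obtain ⟨K, hK, hz⟩ := mem_biUnion.1 hz
      obtain ⟨w, hw, rfl⟩ := mem_image.1 hz
      obtain ⟨a1, a2, a3, a4⟩ := hp K hK
      obtain ⟨c1, c2⟩ := h1 K (mem_filter.1 hK).1
      have hwI := mem_inter.1 (mem_of_mem_erase hw)
      have h3I := mem_inter.1 a3
      refine mem_sigma.2 ⟨mem_filter.2 ⟨mem_inter.2 ⟨c1 (a1 h3I.1), h3I.2⟩, a4⟩,
        mem_filter.2 ⟨mem_inter.2 ⟨c1 (a1 hwI.1), hwI.2⟩, ne_of_mem_erase hw, ?_⟩⟩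
      exact c2 _ (a1 h3I.1) _ (a1 hwI.1)
    have h3 := card_le_card hsub
    rw [card_biUnion hdis, card_sigma] at h3
    have h4 : 2 * (F.filter Q).card ≤ ∑ K ∈ F.filter Q, (P K).card := by
      have := card_nsmul_le_sum (F.filter Q) (fun K => (P K).card) 2 hPc
      rw [smul_eq_mul] at this
      rw [mul_comm]
      exact this
    exact h4.trans h3
  · have hex : ∀ K : Finset V, ∃ p : Finset V × V, K ∈ F.filter (fun K => ¬ Q K) → p.1 ⊆ K ∧
        p.2 ∈ A' ∧ Tr p.2 p.1 := by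
      intro K
      by_cases hK : K ∈ F.filter (fun K => ¬ Q K)
      · obtain ⟨hKF, hKQ⟩ := mem_filter.1 hK
        rcases h3 K hKF with hq | ⟨I, hIK, y, hy, hI⟩
        · exact absurd hq hKQ
        · exact ⟨(I, y), fun _ => ⟨hIK, hy, hI⟩⟩
      · exact ⟨(∅, x₀), fun hK' => absurd hK' hK⟩
    choose p hp using hex
    have hsum : (F.filter fun K => ¬ Q K).card
        = ∑ y ∈ A', ((F.filter fun K => ¬ Q K).filter fun K => (p K).2 = y).card :=
      card_eq_sum_card_fiberwise fun K hK => (hp K hK).2.1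
    rw [hsum]
    refine sum_le_sum fun y hy => ?_
    set F' := (F.filter fun K => ¬ Q K).filter fun K => (p K).2 = y with hF'
    have hinj : ∀ K ∈ F', ∀ L ∈ F', (p K).1 = (p L).1 → K = L := by
      intro K hK L hL hKL
      by_contra hne
      obtain ⟨a1, a2⟩ := mem_filter.1 hK
      obtain ⟨b1, b2⟩ := mem_filter.1 hL
      obtain ⟨c1, c2, c3⟩ := hp K a1
      obtain ⟨d1, d2, d3⟩ := hp L b1
      have h3 : (p K).1 ⊆ K ∩ L := fun v hv => mem_inter.2 ⟨c1 hv, d1 (hKL ▸ hv)⟩
      have h4 := card_le_card h3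
      rw [hT3 _ _ c3] at h4
      have h5 := h2 K (mem_filter.1 a1).1 L (mem_filter.1 b1).1 hne
      omega
    have hcard : (F'.image fun K => (p K).1).card = F'.card :=
      card_image_of_injOn fun K hK L hL hKL => hinj K hK L hL hKL
    rw [← hcard]
    refine hb y hy _ ?_ ?_ ?_
    · rw [hcard]
      exact card_le_card ((filter_subset _ _).trans (filter_subset _ _))
    · intro I hI
      obtain ⟨K, hK, rfl⟩ := mem_image.1 hI
      obtain ⟨a1, a2⟩ := mem_filter.1 hK
      have := (hp K a1).2.2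
      rwa [a2] at this
    · intro I hI J hJ hIJ
      obtain ⟨K, hK, rfl⟩ := mem_image.1 hI
      obtain ⟨L, hL, rfl⟩ := mem_image.1 hJ
      have hne : K ≠ L := fun h' => hIJ (by rw [h'])
      obtain ⟨a1, a2⟩ := mem_filter.1 hK
      obtain ⟨b1, b2⟩ := mem_filter.1 hL
      exact (card_le_card (inter_subset_inter (hp K a1).1 (hp L b1).1)).trans
        (h2 K (mem_filter.1 a1).1 L (mem_filter.1 b1).1 hne)

lemma sum_filter_le_of {S B : Finset V} {q : V → Prop} (f : V → ℕ)
    (hq : ∀ w ∈ S, q w → hm w ∈ B) :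
    ∑ w ∈ S.filter q, f w ≤ ∑ w ∈ S.filter (fun w => hm w ∈ B), f w := by
  refine sum_le_sum_of_subset fun w hw => ?_
  obtain ⟨a1, a2⟩ := mem_filter.1 hw
  exact mem_filter.2 ⟨a1, hq w a1 a2⟩

/-- **a bad set has a double homed off the hub, or it is a triangle homed at the hub** -/
theorem JSys.exists_tri_hm (hF : PFrame G r m t Z T) {A S : Finset V} (h : JSys G Z T j A S)
    (hj : 2 ≤ j) (hh : ∀ v ∈ S, hm v ∈ A ∧ hm v ∈ rws G T v) {K : Finset V} (hK : K ⊆ S)
    (hi : Ind G K) (hcK : A.card < K.card) {x : V} (hx : x ∈ A) :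
    (∃ I ⊆ K, 3 ≤ (I ∩ BB G Z T).card ∧ ∃ w ∈ I ∩ BB G Z T, hm w ≠ x) ∨
      ∃ I ⊆ K, ∃ y ∈ A.erase x, TriAt G Z T A S x y I ∧ ∀ v ∈ I, hm v = x := by
  rcases h.exists_tri hF hj hK hi hcK hx with ⟨I, hIK, h1, w, hw, hxw⟩ | ⟨I, hIK, y, hy, hI⟩
  · refine Or.inl ⟨I, hIK, h1, w, hw, fun he => hxw ?_⟩
    rw [← he]
    exact (hh w (hK (hIK (mem_inter.1 hw).1))).2
  · by_cases h2 : ∀ v ∈ I, hm v = x
    · exact Or.inr ⟨I, hIK, y, hy, hI, h2⟩
    · push Not at h2
      obtain ⟨v, hv, hvx⟩ := h2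
      have h3 : I ∩ BB G Z T = I := inter_eq_left.2 hI.dbl
      exact Or.inl ⟨I, hIK, by rw [h3, hI.card3], v, by rw [h3]; exact hv, hvx⟩

/-- triangles with at most one common point in pairs: Johnson's bound -/
lemma tri_cover {F : Finset (Finset V)} (h3 : ∀ I ∈ F, I.card = 3)
    (h2 : ∀ I ∈ F, ∀ J ∈ F, I ≠ J → (I ∩ J).card ≤ 1) :
    3 * F.card ≤ (F.biUnion id).card * (((F.biUnion id).card - 1) / 2) ∧
      (F.biUnion id).card ≤ 3 * F.card ∧ (3 ≤ F.card → 6 ≤ (F.biUnion id).card) := by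
  set W := F.biUnion id with hW
  have hsub : ∀ I ∈ F, I ⊆ W := fun I hI v hv => mem_biUnion.2 ⟨I, hI, hv⟩
  refine ⟨?_, ?_, ?_⟩
  · have h4 : ∀ v ∈ W, (F.filter fun I => v ∈ I).card ≤ (W.card - 1) / 2 := by
      intro v hv
      have h5 : (F.filter fun I => v ∈ I).biUnion (fun I => I.erase v) ⊆ W.erase v := by
        intro u hu
        obtain ⟨I, hI, huI⟩ := mem_biUnion.1 hu
        exact mem_erase.2 ⟨ne_of_mem_erase huI,
          hsub I (mem_filter.1 hI).1 (mem_of_mem_erase huI)⟩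
      have h6 := card_le_card h5
      rw [card_erase_of_mem hv, card_biUnion] at h6
      · have h7 : ∑ I ∈ F.filter (fun I => v ∈ I), (I.erase v).card
            = ∑ _I ∈ F.filter (fun I => v ∈ I), 2 := sum_congr rfl fun I hI => by
          obtain ⟨a1, a2⟩ := mem_filter.1 hI
          rw [card_erase_of_mem a2, h3 I a1]
        rw [h7, sum_const, smul_eq_mul] at h6
        omega
      · intro I hI J hJ hIJ
        change Disjoint (I.erase v) (J.erase v)
        rw [disjoint_left]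
        intro u hu hu'
        obtain ⟨a1, a2⟩ := mem_filter.1 hI
        obtain ⟨b1, b2⟩ := mem_filter.1 hJ
        have h8 : ({v, u} : Finset V) ⊆ I ∩ J := by
          intro z hz
          rw [mem_insert, mem_singleton] at hz
          rcases hz with rfl | rfl
          · exact mem_inter.2 ⟨a2, b2⟩
          · exact mem_inter.2 ⟨mem_of_mem_erase hu, mem_of_mem_erase hu'⟩
        have h9 := card_le_card h8
        rw [card_pair (ne_of_mem_erase hu).symm] at h9
        have h10 := h2 I a1 J b1 hIJ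
        omega
    have h5 := sum_card_inter_le (s := W) (B := F) h4
    have h6 : ∑ I ∈ F, (W ∩ I).card = ∑ _I ∈ F, 3 := sum_congr rfl fun I hI => by
      rw [inter_eq_right.2 (hsub I hI), h3 I hI]
    rw [h6, sum_const, smul_eq_mul, mul_comm] at h5
    exact h5
  · have e1 : W.card ≤ ∑ I ∈ F, (id I).card := card_biUnion_le
    have e2 : ∑ I ∈ F, (id I).card = ∑ _I ∈ F, 3 := sum_congr rfl fun I hI => h3 I hI
    rw [e2, sum_const, smul_eq_mul] at e1
    omega
  · intro h4
    obtain ⟨I, hI, J, hJ, K, hK, hIJ, hIK, hJK⟩ := two_lt_card.1 (show 2 < F.card by omega)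
    have h5 : I ∪ J ∪ K ⊆ W := union_subset (union_subset (hsub I hI) (hsub J hJ)) (hsub K hK)
    have h6 := card_le_card h5
    have h7 := card_union_add_card_inter (I ∪ J) K
    have h8 := card_union_add_card_inter I J
    have h9 : ((I ∪ J) ∩ K).card ≤ (I ∩ K).card + (J ∩ K).card := by
      rw [union_inter_distrib_right]
      exact card_union_le _ _
    have h10 := h2 I hI J hJ hIJ
    have h11 := h2 I hI K hK hIK
    have h12 := h2 J hJ K hK hJK
    rw [h3 I hI, h3 J hJ] at h8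
    rw [h3 K hK] at h7
    omega

/-- triangles with at most one common point in pairs: more than `(k - 1) (k - 2) / 2` of them have a
set of at most `2 k` points of which every cover contains `k` -/
lemma tri_tau {F : Finset (Finset V)} (h3 : ∀ I ∈ F, I.card = 3)
    (h2 : ∀ I ∈ F, ∀ J ∈ F, I ≠ J → (I ∩ J).card ≤ 1) {k : ℕ}
    (hk : (k - 1) * (k - 2) / 2 < F.card) :
    ∃ W ⊆ F.biUnion id, W.card ≤ 2 * k ∧ k ≤ W.card ∧
      ∀ X : Finset V, (∀ I ∈ F, 2 ≤ (I ∩ X).card) → k ≤ (X ∩ W).card := by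
  have hcov : ∀ X : Finset V, Tau.CovE (F.biUnion fun I => I.offDiag) X →
      ∀ I ∈ F, 2 ≤ (I ∩ X).card := by
    intro X hX I hI
    by_contra hcon
    have h4 := card_sdiff_add_card_inter I X
    rw [h3 I hI] at h4
    obtain ⟨u, hu, v, hv, huv⟩ := one_lt_card.1 (show 1 < (I \ X).card by omega)
    have h5 := hX (u, v) (mem_biUnion.2 ⟨I, hI, mem_offDiag.2
      ⟨(mem_sdiff.1 hu).1, (mem_sdiff.1 hv).1, huv⟩⟩)
    rcases h5 with h5 | h5
    · exact (mem_sdiff.1 hu).2 h5
    · exact (mem_sdiff.1 hv).2 h5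
  obtain ⟨W, hW, hW2, hWk⟩ := Tau.front_set (F.biUnion fun I => I.offDiag) k (by
    intro X hX
    by_contra hcon
    push Not at hcon
    have h4 : F.biUnion (fun I => (I ∩ X).offDiag) ⊆ X.offDiag := by
      intro p hp
      obtain ⟨I, hI, hpI⟩ := mem_biUnion.1 hp
      rw [mem_offDiag] at hpI ⊢
      exact ⟨(mem_inter.1 hpI.1).2, (mem_inter.1 hpI.2.1).2, hpI.2.2⟩
    have h5 := card_le_card h4
    rw [card_biUnion, offDiag_card] at h5
    · have h6 : 2 * F.card ≤ ∑ I ∈ F, (I ∩ X).offDiag.card := by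
        have h7 := card_nsmul_le_sum F (fun I => (I ∩ X).offDiag.card) 2 fun I hI => by
          have h8 := hcov X hX I hI
          rw [offDiag_card]
          have h9 : (I ∩ X).card * 2 ≤ (I ∩ X).card * (I ∩ X).card :=
            Nat.mul_le_mul_left _ h8
          omega
        rw [smul_eq_mul, mul_comm] at h7
        exact h7
      have h7 : X.card * X.card - X.card ≤ (k - 1) * (k - 2) := by
        rw [← Nat.mul_sub_one]
        exact Nat.mul_le_mul (by omega) (by omega)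
      omega
    · intro I hI J hJ hIJ
      change Disjoint (I ∩ X).offDiag (J ∩ X).offDiag
      rw [disjoint_left]
      intro p hp hp'
      rw [mem_offDiag] at hp hp'
      have h6 : ({p.1, p.2} : Finset V) ⊆ I ∩ J := by
        intro z hz
        rw [mem_insert, mem_singleton] at hz
        rcases hz with rfl | rfl
        · exact mem_inter.2 ⟨(mem_inter.1 hp.1).1, (mem_inter.1 hp'.1).1⟩
        · exact mem_inter.2 ⟨(mem_inter.1 hp.2.1).1, (mem_inter.1 hp'.2.1).1⟩
      have h7 := card_le_card h6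
      rw [card_pair hp.2.2] at h7
      have h8 := h2 I hI J hJ hIJ
      omega)
  have hkey : ∀ X : Finset V, (∀ I ∈ F, 2 ≤ (I ∩ X).card) → k ≤ (X ∩ W).card := by
    intro X hX
    refine hWk X fun e he => ?_
    obtain ⟨I, hI, heI⟩ := mem_biUnion.1 he
    rw [mem_offDiag] at heI
    by_contra hcon
    push Not at hcon
    have h4 : ({e.1, e.2} : Finset V) ⊆ I \ X := by
      intro z hz
      rw [mem_insert, mem_singleton] at hz
      rcases hz with rfl | rfl
      · exact mem_sdiff.2 ⟨heI.1, hcon.1⟩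
      · exact mem_sdiff.2 ⟨heI.2.1, hcon.2⟩
    have h5 := card_le_card h4
    rw [card_pair heI.2.2] at h5
    have h6 := card_sdiff_add_card_inter I X
    have h7 := hX I hI
    rw [h3 I hI] at h6
    omega
  refine ⟨W, ?_, hW2, ?_, hkey⟩
  · intro v hv
    obtain ⟨e, he, hev⟩ := hW v hv
    obtain ⟨I, hI, heI⟩ := mem_biUnion.1 he
    rw [mem_offDiag] at heI
    rcases hev with rfl | rfl
    · exact mem_biUnion.2 ⟨I, hI, heI.1⟩
    · exact mem_biUnion.2 ⟨I, hI, heI.2.1⟩
  · refine (hkey (F.biUnion id) fun I hI => ?_).trans (card_le_card inter_subset_right)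
    rw [inter_eq_left.2 (show I ⊆ F.biUnion id from fun v hv => mem_biUnion.2 ⟨I, hI, hv⟩),
      h3 I hI]
    norm_num

/-- the test for at most `b` triangles at a row: `b + 1` triangles have a front of `w` points of which
every class point misses at most `b + 1`; more than `(k - 1) (k - 2) / 2` triangles have a front of
`w ≤ 2 k` points of which every class point sees `k` -/
def TriOK (R t s h e : ℤ) (b : ℕ) : Prop :=
  (∀ w : ℕ, 3 * (b + 1) ≤ w * ((w - 1) / 2) → w ≤ 3 * (b + 1) → (2 ≤ b → 6 ≤ w) →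
    2 * e + (w : ℤ) * (w - 1) + 2 * (b + 1) * (R - t) + 2 * w * h < 2 * R * (s + w)) ∨
  ∃ k : ℕ, (k - 1) * (k - 2) / 2 ≤ b ∧ ∀ w : ℕ, k ≤ w → w ≤ 2 * k →
    2 * e + (w : ℤ) * (w - 1) + 2 * ((w : ℤ) - k) * (R - t) + 2 * w * h < 2 * R * (s + w)

/-- a front off the slot of which every class point misses at most `a` points -/
lemma row_front (hP : PG G r) {S : Finset V} {y : V} {W : Finset V} {a : ℕ}
    (hdis : Disjoint (S.filter fun v => hm v = y) W)
    (hmiss : ∀ c ∈ CP G Z T (fun x => S.filter fun v => hm v = x) y, nd G W c ≤ a) :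
    2 * ((r : ℤ) - 1) * (sI hm r S y + W.card)
      ≤ 2 * eI G hm S y + (W.card : ℤ) * (W.card - 1)
        + 2 * a * ((r : ℤ) - 1 - tI G Z T hm r S y) + 2 * W.card * hI G Z T hm S y := by
  have h3 := hP.ne1 ((S.filter fun v => hm v = y) ∪ W)
  rw [card_union_of_disjoint hdis, NE_union hdis, nd_comm W] at h3
  have h4 : (NE G W : ℤ) ≤ (W.card : ℤ) * (W.card - 1) := by
    have h5 := NE_le (G := G) W
    rcases Nat.eq_zero_or_pos W.card with h0 | h0
    · have h6 : NE G W = 0 := by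
        rw [h0] at h5
        simpa using h5
      rw [h6, h0]
      norm_num
    · have h6 : (NE G W : ℤ) ≤ ((W.card * (W.card - 1) : ℕ) : ℤ) := by exact_mod_cast h5
      rw [Nat.cast_mul, Nat.cast_sub h0] at h6
      simpa using h6
  have h5 : (∑ u ∈ S.filter fun v => hm v = y, (nd G W u : ℤ))
      ≤ a * (CP G Z T (fun x => S.filter fun v => hm v = x) y).card
        + W.card * (HP G Z T (fun x => S.filter fun v => hm v = x) y).card := by
    have e1 : (S.filter fun v => hm v = y)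
        = CP G Z T (fun x => S.filter fun v => hm v = x) y
          ∪ HP G Z T (fun x => S.filter fun v => hm v = x) y :=
      (CP_union_HP (G := G) (Z := Z) (T := T) (S := fun x => S.filter fun v => hm v = x)).symm
    rw [e1, sum_union CP_HP_disjoint]
    refine add_le_add ?_ ?_
    · have h6 : ∑ c ∈ CP G Z T (fun x => S.filter fun v => hm v = x) y, (nd G W c : ℤ)
          ≤ ∑ _c ∈ CP G Z T (fun x => S.filter fun v => hm v = x) y, (a : ℤ) :=
        sum_le_sum fun c hc => by exact_mod_cast hmiss c hc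
      rw [sum_const, nsmul_eq_mul] at h6
      linarith
    · have h6 : ∑ c ∈ HP G Z T (fun x => S.filter fun v => hm v = x) y, (nd G W c : ℤ)
          ≤ ∑ _c ∈ HP G Z T (fun x => S.filter fun v => hm v = x) y, (W.card : ℤ) :=
        sum_le_sum fun c _ => by exact_mod_cast card_filter_le _ _
      rw [sum_const, nsmul_eq_mul] at h6
      linarith
  have h7 := two_eI (G := G) (hm := hm) S y
  have h8 := card_slot_eq (hm := hm) (r := r) S y
  have h9 := card_CP_eq (G := G) (Z := Z) (T := T) (hm := hm) (r := r) S y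
  have h10 : hI G Z T hm S y = (HP G Z T (fun x => S.filter fun v => hm v = x) y).card := rfl
  rw [h9, ← h10] at h5
  push_cast at h3
  rw [h8, ← h7] at h3
  nlinarith

/-- **the triangles at a row**: at most `b` of them are homed at the hub -/
theorem tri_row (hP : PG G r) {A S : Finset V} (h : JSys G Z T j A S)
    (hj : 2 ≤ j) {x y : V} (hy : y ∈ A) (hxy : y ≠ x)
    {F : Finset (Finset V)} (h1 : ∀ I ∈ F, TriAt G Z T A S x y I ∧ ∀ v ∈ I, hm v = x)
    (h2 : ∀ I ∈ F, ∀ J ∈ F, I ≠ J → (I ∩ J).card ≤ 1) {b : ℕ}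
    (hb : TriOK ((r : ℤ) - 1) (tI G Z T hm r S y) (sI hm r S y) (hI G Z T hm S y)
      (eI G hm S y) b) :
    F.card ≤ b := by
  by_contra hcon
  obtain ⟨F', hF', hF'c⟩ := exists_subset_card_eq (show b + 1 ≤ F.card by omega)
  have hC : ∀ c ∈ CP G Z T (fun x => S.filter fun v => hm v = x) y, c ∈ S ∧ c ∈ Cl G Z T y :=
    fun c hc => ⟨(mem_filter.1 (mem_CP.1 hc).1).1, (mem_CP.1 hc).2⟩
  have hdis : ∀ W ⊆ F'.biUnion id, Disjoint (S.filter fun v => hm v = y) W := by
    intro W hW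
    rw [disjoint_left]
    intro v hv hv'
    obtain ⟨I, hI, hvI⟩ := mem_biUnion.1 (hW hv')
    exact hxy ((mem_filter.1 hv).2.symm.trans ((h1 I (hF' hI)).2 v hvI))
  rcases hb with hb | ⟨k, hk, hb⟩
  · obtain ⟨hw2, hw1, hw3⟩ := tri_cover (F := F') (fun I hI => (h1 I (hF' hI)).1.card3)
      fun I hI J hJ => h2 I (hF' hI) J (hF' hJ)
    set W := F'.biUnion id with hW
    rw [hF'c] at hw1 hw2 hw3
    -- every class point misses at most `b + 1` points
    have hmiss : ∀ c ∈ CP G Z T (fun x => S.filter fun v => hm v = x) y, nd G W c ≤ b + 1 := by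
      intro c hc
      obtain ⟨h5, h4⟩ := hC c hc
      have h6 : nd G W c ≤ ∑ I ∈ F', nd G I c := by
        unfold nd
        rw [hW, filter_biUnion]
        exact card_biUnion_le
      refine h6.trans ?_
      rw [← hF'c, card_eq_sum_ones]
      exact sum_le_sum fun I hI => (h1 I (hF' hI)).1.nd_le h hj hy h5 h4
    have h3 := row_front (G := G) (Z := Z) (T := T) (hm := hm) hP
      (hdis W (Subset.refl _)) hmiss
    have h4 := hb W.card hw2 hw1 fun h' => hw3 (by omega)
    push_cast at h3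
    linarith
  · obtain ⟨W, hW, hW2, hW3, hWk⟩ := tri_tau (F := F') (fun I hI => (h1 I (hF' hI)).1.card3)
      (fun I hI J hJ => h2 I (hF' hI) J (hF' hJ)) (k := k) (by omega)
    have hmiss : ∀ c ∈ CP G Z T (fun x => S.filter fun v => hm v = x) y,
        nd G W c ≤ W.card - k := by
      intro c hc
      obtain ⟨h5, h4⟩ := hC c hc
      have h6 := hWk ((F'.biUnion id).filter fun v => G.Adj c v) (by
        intro I hI
        have h7 := (h1 I (hF' hI)).1.nd_le h hj hy h5 h4
        have h8 := card_sdiff_add_card_inter I ((F'.biUnion id).filter fun v => G.Adj c v)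
        rw [(h1 I (hF' hI)).1.card3] at h8
        have h9 : I \ ((F'.biUnion id).filter fun v => G.Adj c v)
            ⊆ I.filter (fun y => y ≠ c ∧ ¬ G.Adj c y) := by
          intro v hv
          obtain ⟨a1, a2⟩ := mem_sdiff.1 hv
          refine mem_filter.2 ⟨a1, fun he => ?_, fun ha => a2 (mem_filter.2
            ⟨mem_biUnion.2 ⟨I, hI, a1⟩, ha⟩)⟩
          exact Cl_notMem_BB (h.sub hy) h4 (he ▸ (h1 I (hF' hI)).1.dbl a1)
        have h10 := card_le_card h9
        unfold nd at h7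
        omega)
      have h7 : Disjoint (((F'.biUnion id).filter fun v => G.Adj c v) ∩ W)
          (W.filter fun y => y ≠ c ∧ ¬ G.Adj c y) := by
        rw [disjoint_left]
        intro v hv hv'
        exact (mem_filter.1 hv').2.2 (mem_filter.1 (mem_inter.1 hv).1).2
      have h8 : (((F'.biUnion id).filter fun v => G.Adj c v) ∩ W)
          ∪ (W.filter fun y => y ≠ c ∧ ¬ G.Adj c y) ⊆ W :=
        union_subset inter_subset_right (filter_subset _ _)
      have h9 := card_le_card h8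
      rw [card_union_of_disjoint h7] at h9
      unfold nd
      omega
    have h3 := row_front (G := G) (Z := Z) (T := T) (hm := hm) hP (hdis W hW) hmiss
    have h4 := hb W.card hW3 hW2
    rw [Nat.cast_sub hW3] at h3
    linarith

/-- the doubles of a system with homes, by homes -/
lemma HSys.card_dbl (hF : PFrame G r m t Z T) {A S : Finset V} (h : HSys G Z T A S)
    (hh : ∀ v ∈ S, hm v ∈ A ∧ hm v ∈ rws G T v) {B : Finset V} (hB : B ⊆ A) :
    (((S ∩ BB G Z T).filter fun v => hm v ∈ B).card : ℤ) = ∑ x ∈ B, hI G Z T hm S x := by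
  have h1 : ∀ x ∈ B, hI G Z T hm S x
      = ((((S ∩ BB G Z T).filter fun v => hm v ∈ B).filter fun v => hm v = x).card : ℤ) := by
    intro x hx
    have h2 := card_CP_HP (G := G) (Z := Z) (T := T)
      (S := fun x => S.filter fun v => hm v = x) (x := x)
    have h3 := h.card_slot hF hh (hB hx)
    have h4 := congrArg Finset.card (h.CP_eq hh (hB hx))
    have h5 : (CP G Z T (fun x => S.filter fun v => hm v = x) x).card
      + (HP G Z T (fun x => S.filter fun v => hm v = x) x).card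
      = (S.filter fun v => hm v = x).card := h2
    have h6 : ((S ∩ BB G Z T).filter fun v => hm v ∈ B).filter (fun v => hm v = x)
        = S.filter fun v => v ∈ BB G Z T ∧ hm v = x := by
      ext v
      simp only [mem_filter, mem_inter]
      constructor
      · rintro ⟨⟨⟨a1, a2⟩, -⟩, a3⟩
        exact ⟨a1, a2, a3⟩
      · rintro ⟨a1, a2, a3⟩
        exact ⟨⟨⟨a1, a2⟩, a3 ▸ hx⟩, a3⟩
    rw [h6]
    unfold hI
    have h7 : (HP G Z T (fun x => S.filter fun v => hm v = x) x).card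
        = (S.filter fun v => v ∈ BB G Z T ∧ hm v = x).card := by omega
    rw [h7]
  rw [sum_congr rfl h1]
  have h2 := card_eq_sum_card_fiberwise (s := (S ∩ BB G Z T).filter fun v => hm v ∈ B) (t := B)
    (f := hm) fun v hv => (mem_filter.1 hv).2
  rw [h2]
  push_cast
  rfl

/-- the star of a system with homes from a lower bound for the missing pairs -/
theorem HSys.slots_ne {A S : Finset V} (hF : PFrame G r m t Z T)
    (h : HSys G Z T A S) (hv : S.card = A.card * r + 1)
    (hh : ∀ v ∈ S, hm v ∈ A ∧ hm v ∈ rws G T v) {κ : ℤ}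
    (h2 : ((r : ℤ) - 1) * (r * A.card * (A.card - 1) + 4 * A.card - 2)
      - 2 * (A.card - 1) * κ ≤ NE G S) :
    ∑ x ∈ A, ∑ y ∈ A.erase x, EI G hm S x y + ∑ x ∈ A, sI hm r S x ^ 2
      + 2 * ((A.card : ℤ) - 1) * ((r : ℤ) - 1 - κ)
      ≤ 2 * ∑ x ∈ A, eI G hm S x + ((A.card : ℤ) ^ 2 - A.card - 2) * r + 2 * A.card + 1 := by
  have h1 := (h.csys hF hh).NE_slots_eq
  have h3 : (A.biUnion fun x => S.filter fun v => hm v = x) = S := by
    ext v
    rw [mem_biUnion]
    constructor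
    · rintro ⟨x, -, hx⟩
      exact (mem_filter.1 hx).1
    · intro hv'
      exact ⟨hm v, (hh v hv').1, mem_filter.2 ⟨hv', rfl⟩⟩
  have h4 : ∑ x ∈ A, sI hm r S x = 1 := by
    rw [HSys.sum_sI (G := G) (T := T) hh, hv]
    push_cast
    ring
  have h5 : ∑ x ∈ A, (((S.filter fun v => hm v = x).card : ℕ) : ℤ)
      = ∑ x ∈ A, sI hm r S x + A.card * r := by
    rw [sum_congr rfl fun x _ => card_slot_eq (hm := hm) (r := r) S x, sum_add_distrib, sum_const,
      nsmul_eq_mul]
    ring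
  have h6 : ∑ x ∈ A, (((S.filter fun v => hm v = x).card : ℕ) : ℤ) ^ 2
      = ∑ x ∈ A, sI hm r S x ^ 2 + 2 * r * ∑ x ∈ A, sI hm r S x + A.card * r ^ 2 := by
    rw [sum_congr rfl fun x _ => show (((S.filter fun v => hm v = x).card : ℕ) : ℤ) ^ 2
      = sI hm r S x ^ 2 + 2 * r * sI hm r S x + (r : ℤ) ^ 2 by
        rw [card_slot_eq (hm := hm) (r := r) S x]
        ring]
    rw [sum_add_distrib, sum_add_distrib, ← mul_sum, sum_const, nsmul_eq_mul]
  have h7 : ∑ x ∈ A, (NE G (S.filter fun v => hm v = x) : ℤ) = 2 * ∑ x ∈ A, eI G hm S x := by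
    rw [mul_sum]
    exact sum_congr rfl fun x _ => (two_eI S x).symm
  have h8 : ∑ x ∈ A, ∑ y ∈ A.erase x, ∑ v ∈ S.filter fun v => hm v = y,
      (dg G (S.filter fun v => hm v = x) v : ℤ) = ∑ x ∈ A, ∑ y ∈ A.erase x, EI G hm S x y := rfl
  rw [h3, h5, h6, h7, h8, h4] at h1
  generalize ∑ x ∈ A, ∑ y ∈ A.erase x, EI G hm S x y = a1 at *
  generalize ∑ x ∈ A, sI hm r S x ^ 2 = a2 at *
  generalize ∑ x ∈ A, eI G hm S x = a3 at *
  nlinarith

/-- **the partial cap in the slots**, hub row `x` -/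
theorem JSys.slots_pcap (hP : PG G r) (hF : PFrame G r m t Z T) (hC : PCAP G r) {A S : Finset V}
    (h : JSys G Z T j A S) (hj : 2 ≤ j) (hv : S.card = A.card * r + 1)
    (hh : ∀ v ∈ S, hm v ∈ A ∧ hm v ∈ rws G T v) {x : V} (hx : x ∈ A) {b : V → ℕ}
    (hb : ∀ y ∈ A.erase x, b y + 1 < r → TriOK ((r : ℤ) - 1) (tI G Z T hm r S y)
      (sI hm r S y) (hI G Z T hm S y) (eI G hm S y) (b y)) :
    ∃ κ : ℤ, 0 ≤ κ ∧ κ ≤ (r : ℤ) - 1 ∧
      2 * κ ≤ 2 * ∑ y ∈ A.erase x, (b y : ℤ)
        + (∑ y ∈ A.erase x, hI G Z T hm S y) * (∑ y ∈ A, hI G Z T hm S y - 1) ∧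
      ∑ x ∈ A, ∑ y ∈ A.erase x, EI G hm S x y + ∑ x ∈ A, sI hm r S x ^ 2
        + 2 * ((A.card : ℤ) - 1) * ((r : ℤ) - 1 - κ)
        ≤ 2 * ∑ x ∈ A, eI G hm S x + ((A.card : ℤ) ^ 2 - A.card - 2) * r + 2 * A.card + 1 := by
  have hH := h.hsys hF hj
  obtain ⟨F, h1, h2, h3, h4⟩ := hC A.card S (card_pos.2 ⟨x, hx⟩) hv
  obtain ⟨κ₀, κ₁, h5, h6, h7⟩ := kap_split (G := G) (S := S) (B := BB G Z T) (A' := A.erase x)
    (q := fun w => hm w ≠ x) (Tr := fun y I => TriAt G Z T A S x y I ∧ ∀ v ∈ I, hm v = x) (b := b)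
    (fun y I hI => hI.1.card3) (F := F) (fun y hy F' hF'c hF1 hF2 => by
      by_cases hby : b y + 1 < r
      · exact tri_row hP h hj (mem_of_mem_erase hy) (ne_of_mem_erase hy) hF1 hF2
          (hb y hy hby)
      · omega) (fun K hK => ⟨(h1 K hK).1, (h1 K hK).2.1⟩) h2 (fun K hK =>
      h.exists_tri_hm hF hj hh (h1 K hK).1 (h1 K hK).2.1 (by rw [(h1 K hK).2.2]; omega) hx)
  refine ⟨F.card, Nat.cast_nonneg _, by omega, ?_, ?_⟩
  · have h8 : ∑ w ∈ (S ∩ BB G Z T).filter (fun w => hm w ∈ A.erase x), nd G (S ∩ BB G Z T) w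
        ≤ ((S ∩ BB G Z T).filter (fun w => hm w ∈ A.erase x)).card
          * ((S ∩ BB G Z T).card - 1) := by
      refine (sum_le_card_nsmul _ _ ((S ∩ BB G Z T).card - 1) fun w hw => ?_).trans
        (by rw [smul_eq_mul])
      have h9 := dg_add_nd (G := G) (mem_filter.1 hw).1
      omega
    have h9 : 2 * κ₀ ≤ ∑ w ∈ (S ∩ BB G Z T).filter (fun w => hm w ∈ A.erase x),
        nd G (S ∩ BB G Z T) w := by
      exact h6.trans (sum_filter_le_of _ fun w hw hwx =>
        mem_erase.2 ⟨hwx, (hh w (mem_inter.1 hw).1).1⟩)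
    have h10 : (S ∩ BB G Z T) = (S ∩ BB G Z T).filter (fun w => hm w ∈ A) :=
      (filter_true_of_mem fun w hw => (hh w (mem_inter.1 hw).1).1).symm
    have h11 := hH.card_dbl hF hh (erase_subset x A)
    have h12 := hH.card_dbl hF hh (Subset.refl A)
    rw [← h10] at h12
    have h13 : (κ₁ : ℤ) ≤ ∑ y ∈ A.erase x, (b y : ℤ) := by exact_mod_cast h7
    have h14 : 2 * (κ₀ : ℤ) ≤ (∑ y ∈ A.erase x, hI G Z T hm S y)
        * (∑ y ∈ A, hI G Z T hm S y - 1) := by
      rw [← h11, ← h12]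
      rcases Nat.eq_zero_or_pos (S ∩ BB G Z T).card with h0 | h0
      · have h15 : S ∩ BB G Z T = ∅ := card_eq_zero.1 h0
        rw [h15] at h6 ⊢
        simp only [filter_empty, sum_empty, card_empty] at h6 ⊢
        omega
      · have h15 : (2 * κ₀ : ℕ) ≤ ((S ∩ BB G Z T).filter (fun w => hm w ∈ A.erase x)).card
            * ((S ∩ BB G Z T).card - 1) := h9.trans h8
        have h16 : ((2 * κ₀ : ℕ) : ℤ) ≤ ((((S ∩ BB G Z T).filter
            (fun w => hm w ∈ A.erase x)).card * ((S ∩ BB G Z T).card - 1) : ℕ) : ℤ) := by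
          exact_mod_cast h15
        rw [Nat.cast_mul, Nat.cast_mul, Nat.cast_sub h0] at h16
        push_cast at h16
        exact h16
    rw [h5]
    push_cast
    linarith
  · exact hH.slots_ne hF hv hh h4

end PCapS

section Ints

/-- **the basic integers with the partial cap**: for every hub row `i₀` and bounds `b i` of the
triangles at the other rows -/
structure BIP (R : ℤ) (n : ℕ) (t s h e : ℕ → ℤ) (E : ℕ → ℕ → ℤ) : Prop extends
    BI R n t s h e E where
  K : ∀ i₀ < n, ∀ b : ℕ → ℕ,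
    (∀ i < n, i ≠ i₀ → (b i : ℤ) < R → TriOK R (t i) (s i) (h i) (e i) (b i)) →
    ∃ κ : ℤ, 0 ≤ κ ∧ κ ≤ R ∧
      2 * κ ≤ 2 * ∑ i ∈ (range n).erase i₀, (b i : ℤ)
        + (∑ i ∈ (range n).erase i₀, h i) * (∑ i ∈ range n, h i - 1) ∧
      ∑ i ∈ range n, ∑ j ∈ (range n).erase i, E i j + ∑ i ∈ range n, s i ^ 2
        + 2 * ((n : ℤ) - 1) * (R - κ)
        ≤ 2 * ∑ i ∈ range n, e i + ((n : ℤ) ^ 2 - n - 2) * (R + 1) + 2 * n + 1

/-- no triangle -/
lemma TriOK.zero {R t s h e : ℤ} (hh : h = t + s + 1)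
    (h0 : e + 2 * t + 3 * s + 6 < R * (s + 2)) : TriOK R t s h e 0 := by
  left
  intro w h1 h2 _
  have h3 : w = 3 := by
    interval_cases w <;> simp_all
  subst h3
  push_cast
  nlinarith

/-- at most one triangle -/
lemma TriOK.one {R t s h e : ℤ}
    (h5 : e + 10 + 2 * (R - t) + 5 * h < R * (s + 5))
    (h6 : e + 15 + 2 * (R - t) + 6 * h < R * (s + 6)) : TriOK R t s h e 1 := by
  left
  intro w h1 h2 _
  have h3 : w = 5 ∨ w = 6 := by
    interval_cases w <;> simp_all
  rcases h3 with rfl | rfl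
  · push_cast
    nlinarith
  · push_cast
    nlinarith

/-- **at most `(m - 1) (m - 2) / 2` triangles at a row with `r + 1 - m` points**, if
`e + m (t + 3) < R` (helper60, note 16212) -/
lemma TriOK.tau {R t s h e : ℤ} (hh : h = t + s + 1) {m : ℕ} (hm : s = 1 - m)
    (h0 : e + m * (t + 3) < R) : TriOK R t s h e ((m - 1) * (m - 2) / 2) := by
  refine Or.inr ⟨m, le_refl _, fun w h1 h2 => ?_⟩
  have h3 : (m : ℤ) ≤ w := by exact_mod_cast h1
  have h4 : (w : ℤ) ≤ 2 * m := by exact_mod_cast h2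
  have h5 : 0 ≤ (2 * (m : ℤ) - w) * (w + 3) := by
    refine mul_nonneg (by linarith) (by positivity)
  subst hh hm
  nlinarith

end Ints

section BIPS

variable {V : Type*} {G : SimpleGraph V} {Z T : Finset V} {hm : V → V} {r m t j p : ℕ}

/-- **the basic integers of a `j`-closed system with the partial cap** -/
theorem JSys.bip (hF : S2 G r m t Z T) (hPG : PG G r) (hPM : PM G r) (hC : PCAP G r)
    (hb : m ≤ r) {A S : Finset V} (h : JSys G Z T j A S) (hj : 2 ≤ j) (h2 : 2 ≤ A.card)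
    (hv : S.card = A.card * r + 1) (hh : ∀ v ∈ S, hm v ∈ A ∧ hm v ∈ rws G T v) :
    ∃ (ρ : V → ℕ) (σ : ℕ → V), Rank A (tI G Z T hm r S) ρ σ ∧
      BIP ((r : ℤ) - 1) A.card (fun i => tI G Z T hm r S (σ i)) (fun i => sI hm r S (σ i))
        (fun i => hI G Z T hm S (σ i)) (fun i => eI G hm S (σ i))
        (fun i j => EI G hm S (σ i) (σ j)) := by
  obtain ⟨ρ, σ, hσ, hB⟩ := (h.hsys hF.toPFrame hj).bi hF hPG hPM hb h2 hv hh
  refine ⟨ρ, σ, hσ, hB, ?_⟩
  intro i₀ hi₀ b hb'
  have hx := hσ.mem i₀ hi₀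
  have h1 := h.slots_pcap hPG hF.toPFrame hC hj hv hh hx (b := fun y => b (ρ y)) (by
    intro y hy hby
    have hyA := mem_of_mem_erase hy
    have h3 := hb' (ρ y) (hσ.lt y hyA) (fun he => ne_of_mem_erase hy (by
      rw [← hσ.left y hyA, he])) (by
        have : ((b (ρ y) + 1 : ℕ) : ℤ) < r := by exact_mod_cast hby
        push_cast at this
        linarith)
    rw [hσ.left y hyA] at h3
    exact h3)
  have e1 : (range A.card).image σ = A := by
    refine eq_of_subset_of_card_le (hσ.image_sub (Subset.refl _)) ?_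
    rw [hσ.card_image (Subset.refl _), card_range]
  have e2 := hσ.sum2_im (Subset.refl (range A.card)) (EI G hm S)
  have e3 : ((range A.card).erase i₀).image σ = A.erase (σ i₀) := by
    ext x
    rw [mem_image, mem_erase]
    constructor
    · rintro ⟨i, hi, rfl⟩
      obtain ⟨a1, a2⟩ := mem_erase.1 hi
      exact ⟨fun he => a1 (hσ.sinj (mem_range.1 a2) hi₀ he), hσ.mem i (mem_range.1 a2)⟩
    · rintro ⟨a1, a2⟩
      refine ⟨ρ x, mem_erase.2 ⟨fun he => a1 ?_, mem_range.2 (hσ.lt x a2)⟩, hσ.left x a2⟩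
      rw [← hσ.left x a2, he]
  have e4 := hσ.sum_im (erase_subset i₀ (range A.card)) (hI G Z T hm S)
  have e5 := hσ.sum_im (erase_subset i₀ (range A.card)) (fun y => (b (ρ y) : ℤ))
  have e6 : ∑ i ∈ (range A.card).erase i₀, (b (ρ (σ i)) : ℤ)
      = ∑ i ∈ (range A.card).erase i₀, (b i : ℤ) := sum_congr rfl fun i hi => by
    rw [hσ.right i (mem_range.1 (mem_of_mem_erase hi))]
  rw [e1] at e2
  rw [e3] at e4 e5
  rw [e6] at e5
  rw [e2, e4, e5, hσ.sum (eI G hm S), hσ.sum (hI G Z T hm S),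
    hσ.sum fun x => sI hm r S x ^ 2] at h1
  have er : (r : ℤ) - 1 + 1 = r := by ring
  rw [er]
  exact h1

/-- **the basic integers with the partial cap of the last step** -/
theorem Core.bip {A S : Finset V} (h : Core G Z T r m t j p A S hm) :
    ∃ (ρ : V → ℕ) (σ : ℕ → V), Rank A (tI G Z T hm r S) ρ σ ∧
      BIP ((r : ℤ) - 1) A.card (fun i => tI G Z T hm r S (σ i)) (fun i => sI hm r S (σ i))
        (fun i => hI G Z T hm S (σ i)) (fun i => eI G hm S (σ i))
        (fun i j => EI G hm S (σ i) (σ j)) :=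
  h.jsys.bip h.F h.gp.P h.gp.M h.gp.pcap h.hmr h.hj h.Q.two h.Q.val h.H.ok

end BIPS

end Pool.Agent.Lib.MP_f04ccf_co
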