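import Pool.Agent.Lib.MP_f04ccf_co.M.PCon
import Pool.Agent.Lib.MP_f04ccf_co.M.FalU

/-!
MP_f04ccf_co, TEXT D (assembly): **the contract `PCon` from all facts `ItCU`** (version [C]).

* `SvC.savK`: the savings of `PCon.cap` are savings of `TsX.cll`;
* `ItCU.pcon`: `PCon` from `ItCU` and the four tests over the same letters.
-/

set_option autoImplicit false

namespace Pool.Agent.Lib.MP_f04ccf_co

open Finset

attribute [local instance] Classical.propDecidable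

section PConU

variable {ι : Type*}

/-- the savings of the contract are savings of the fields -/
lemma SvC.savK {n : ℕ} {vl : ι → ℤ} {kp : ℕ → ι → ℤ} {pc : ι → ℤ} {i j : ℕ} {g g' : ι → ℕ}
    {K K' : Finset ι} {sv : ℤ} (h : SvC n vl kp pc i j g g' K K' sv) :
    SavK n vl kp pc i j g g' K K' sv := by
  rcases h with h | ⟨I, hI, hi, hj, h1, h2, q, h3⟩ | h
  · exact SavK.zero h
  · exact SavK.tur hI hi hj h1 h2 q h3
  · exact SavK.prs h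

variable {R : ℤ} {n : ℕ} {t s h e : ℕ → ℤ} {E : ℕ → ℕ → ℤ} {U : Finset ι} {ho : ι → ℕ}
  {vl : ι → ℤ} {kp ms mr mn : ℕ → ι → ℤ} {mu Nb : ℕ → ℤ} {be : ℕ → ℕ → ℤ} {ls : ℕ → ℤ → ℤ}
  {pc ar : ι → ℤ} {aT : ℕ → ℤ} {NN FF pw : ℕ → ℕ → ℤ} {nu : ℕ → ι → ℤ}

/-- the mass -/
lemma BI.tsum (H : BI R n t s h e E) : ∑ i ∈ range n, (t i + 1) ≤ R := by
  have h1 : ∑ i ∈ range n, h i = ∑ i ∈ range n, (t i + 1) + ∑ i ∈ range n, s i := by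
    rw [← sum_add_distrib]
    exact sum_congr rfl fun i hi => by rw [H.hh i (mem_range.1 hi)]; ring
  have h2 := H.sh
  have h3 := H.ss
  linarith

/-- the misses `mn` vanish without a piece -/
lemma ItCU.mnk (H : ItCU R n t s h e E U ho vl kp ms mr mn mu Nb be ls pc ar aT NN FF pw nu)
    {u : ι} (hu : u ∈ U) {i : ℕ} (hi : i < n) : mn i u ≤ kp i u * (R - t i) :=
  (H.lv.mnr u hu i hi).trans (H.c.mrk u hu i hi)

lemma ItCU.mn0 (H : ItCU R n t s h e E U ho vl kp ms mr mn mu Nb be ls pc ar aT NN FF pw nu)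
    {u : ι} (hu : u ∈ U) {i : ℕ} (hi : i < n) : 0 ≤ mn i u :=
  (H.c.m0 u hu i hi).trans (H.lv.msn u hu i hi)

/-- **the contract from the fields** -/
theorem ItCU.pcon (H : ItCU R n t s h e E U ho vl kp ms mr mn mu Nb be ls pc ar aT NN FF pw nu)
    {kq sg : ℕ → ℕ → ℤ}
    (hq0 : ∀ i < n, ∀ j < n, 0 ≤ kq i j) (hqb : ∀ i < n, ∀ j < n, kq i j ≤ be i j)
    (hg0 : ∀ i < n, ∀ j < n, 0 ≤ sg i j)
    (hgs : ∀ i < n, ∑ l ∈ (range n).erase i, sg i l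
      + ((U.filter fun u => ho u = i ∧ pc u = 0).card : ℤ) ≤ t i + 1 - (mu i - s i))
    (hM : ∀ i < n, ∀ j < n, i ≠ j →
      ∀ K ⊆ U, (∀ u ∈ K, ho u = i ∧ pc u = 0) → ∀ K' ⊆ U, (∀ u ∈ K', ho u = j ∧ pc u = 0) →
      ∀ g g' : ι → ℕ, (∀ u ∈ K, 1 ≤ g u) →
      (∀ u ∈ K, (g u : ℤ) ≤ kp j u) → (∀ u ∈ K', 1 ≤ g' u) → (∀ u ∈ K', (g' u : ℤ) ≤ kp i u) →
      ∀ sv : ℤ, SvC n vl kp pc i j g g' K K' sv →
      2 * ((be i j + be j i - 1) * R)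
        + 2 * ∑ u ∈ K, (R * g u + t j - msP kp mn j g u
          - ∑ l ∈ ((range n).erase i).erase j, kp l u * be i l)
        + 2 * ∑ u ∈ K', (R * g' u + t i - msP kp mn i g' u
          - ∑ l ∈ ((range n).erase i).erase j, kp l u * be j l)
        + sv
        ≤ 2 * (t i * t j) + 2 * (be i j + be j i) ^ 2
          + 2 * (be i j + be j i) * (∑ u ∈ K, ((g u : ℤ) + 1) + ∑ u ∈ K', ((g' u : ℤ) + 1))
          + (∑ u ∈ K, ((g u : ℤ) + 1) + ∑ u ∈ K', ((g' u : ℤ) + 1))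
            * (∑ u ∈ K, ((g u : ℤ) + 1) + ∑ u ∈ K', ((g' u : ℤ) + 1) - 1))
    (hN : ∀ z < n, ∀ K ⊆ U, (∀ u ∈ K, ho u ≠ z) → ∀ g : ι → ℕ, (∀ u ∈ K, 1 ≤ g u) →
      (∀ u ∈ K, (g u : ℤ) ≤ kp z u) → 2 * (mu z + ∑ u ∈ K, (g u : ℤ)) ≤ R →
      (R - 2 * (mu z + ∑ u ∈ K, (g u : ℤ))) * (s z + ∑ u ∈ K, (g u : ℤ))
        ≤ (t z + 1) * (mu z + ∑ u ∈ K, (g u : ℤ)) + ∑ u ∈ K, msP kp mn z g u)
    (hK : ∀ z < n, ∀ q : ℤ, 0 ≤ q → q ≤ ∑ l ∈ range n, kq z l →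
      ∀ D ⊆ U, (∀ u ∈ D, ho u = z ∧ pc u = 0) →
      ∀ K ⊆ U, (∀ u ∈ K, ho u ≠ z) → ∀ g : ι → ℕ, (∀ u ∈ K, 1 ≤ g u) →
      (∀ u ∈ K, (g u : ℤ) ≤ kp z u) →
      2 * (mu z - q - ∑ u ∈ D, vl u + ∑ u ∈ K, (g u : ℤ)) ≤ R →
      (R - 2 * (mu z - q - ∑ u ∈ D, vl u + ∑ u ∈ K, (g u : ℤ)))
          * (s z - q - ∑ u ∈ D, (vl u + 1) + ∑ u ∈ K, (g u : ℤ))
        ≤ (t z + 1) * (mu z - q - ∑ u ∈ D, vl u + ∑ u ∈ K, (g u : ℤ)) + ∑ u ∈ K, msP kp mn z g u)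
    (hT : ∀ z < n, ∀ X ⊆ range n, ∀ Y ⊆ X, ∀ D ⊆ U, (∀ u ∈ D, ho u = z ∧ pc u = 0) →
      ∀ K ⊆ U, (∀ u ∈ K, ho u ≠ z) → ∀ g : ι → ℕ, (∀ u ∈ K, 1 ≤ g u) →
      (∀ u ∈ K, (g u : ℤ) ≤ kp z u) → ∀ sv : ℤ, SvT n ho vl kp g K sv →
      TstP R 0 (t z + 1) (s z) (∑ u ∈ K, (g u : ℤ)) (∑ u ∈ K, ((g u : ℤ) + 1))
        (∑ u ∈ K, msP kp mn z g u)
        (mu z - ∑ l ∈ X, kq z l - ∑ l ∈ Y, (be z l - kq z l) - ∑ u ∈ D, vl u)
        (∑ l ∈ X, kq z l + ∑ l ∈ Y, (be z l - kq z l) + ∑ u ∈ D, (vl u + 1))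
        0 sv (NP n U ho kp pc be kq NN sg z ((range n).erase z) X Y D) 0)
    (hP : ∀ z < n, ∀ j < n, j ≠ z → ∀ X ⊆ range n, j ∉ X → ∀ Y ⊆ X, ∀ D ⊆ U,
      (∀ u ∈ D, ho u = z ∧ pc u = 0) →
      ∀ K ⊆ U, (∀ u ∈ K, ho u ≠ z) → ∀ g : ι → ℕ, (∀ u ∈ K, 1 ≤ g u) →
      (∀ u ∈ K, (g u : ℤ) ≤ kp z u) →
      ∀ sv : ℤ, SvT n ho vl kp g (K.filter fun u => ho u = j → pc u = 0) sv →
      TstP R (R - t j) (t z + 1) (s z) (∑ u ∈ K, (g u : ℤ))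
        (∑ u ∈ K, ((g u : ℤ) + 1 - if ho u = j then pc u else 0))
        (∑ u ∈ K, msP kp mn z g u)
        (mu z - ∑ l ∈ X, kq z l - ∑ l ∈ Y, (be z l - kq z l) - ∑ u ∈ D, vl u)
        (∑ l ∈ X, kq z l + ∑ l ∈ Y, (be z l - kq z l) + ∑ u ∈ D, (vl u + 1))
        (∑ u ∈ U.filter (fun u => ho u = z ∧ u ∉ D), (kp j u * (R - t j) - mn j u))
        (sv + 2 * ((∑ u ∈ K, if ho u = j then pc u else 0)
            * ((K.filter fun u => ho u = j ∧ pc u = 0 ∧ ∀ l < n, l ≠ z → kp l u = 0).card : ℤ)))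
        (NP n U ho kp pc be kq NN sg z (((range n).erase z).erase j) X Y D)
        ((be z j + ∑ u ∈ K, if ho u = j then pc u else 0)
            * (be z j + (∑ u ∈ K, if ho u = j then pc u else 0) + 1)
          + 2 * ∑ u ∈ K, if ho u = j then (1 - pc u) * ar u else ((g u : ℤ) + 1) * (R - t j)))
    (hX : ∀ z < n, ∀ j < n, j ≠ z → ∀ X ⊆ range n, j ∉ X → ∀ Y ⊆ X, ∀ D ⊆ U,
      (∀ u ∈ D, ho u = z ∧ pc u = 0) →
      ∀ K ⊆ U, (∀ u ∈ K, ho u ≠ z) → ∀ g : ι → ℕ, (∀ u ∈ K, 1 ≤ g u) →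
      (∀ u ∈ K, (g u : ℤ) ≤ kp z u) →
      ∀ EX : ℤ, RcC U vl mn z j (be z j) (∑ u ∈ K, if ho u = j then pc u else 0) EX →
      ∀ sv : ℤ, SvT n ho vl kp g (K.filter fun u => ho u = j → pc u = 0) sv →
      TstP R (R - t j) (t z + 1) (s z) (∑ u ∈ K, (g u : ℤ))
        (∑ u ∈ K, ((g u : ℤ) + 1 - if ho u = j then pc u else 0))
        (∑ u ∈ K, msP kp mn z g u)
        (mu z - ∑ l ∈ X, kq z l - ∑ l ∈ Y, (be z l - kq z l) - ∑ u ∈ D, vl u)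
        (∑ l ∈ X, kq z l + ∑ l ∈ Y, (be z l - kq z l) + ∑ u ∈ D, (vl u + 1))
        (∑ u ∈ U.filter (fun u => ho u = z ∧ u ∉ D), (kp j u * (R - t j) - mn j u))
        (sv + 2 * ((∑ u ∈ K, if ho u = j then pc u else 0)
            * ((K.filter fun u => ho u = j ∧ pc u = 0 ∧ ∀ l < n, l ≠ z → kp l u = 0).card : ℤ))
          + 2 * EX)
        (NP n U ho kp pc be kq NN sg z ((range n).erase z) X Y D)
        (2 * ((∑ u ∈ K, if ho u = j then pc u else 0) * be z j)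
          + 2 * ∑ u ∈ K, if ho u = j then ar u else ((g u : ℤ) + 1) * (R - t j))) :
    PCon R n t s mu U ho vl kp mn pc ar be kq NN sg nu where
  n5 := H.c.n5
  anti := H.c.anti
  t0 := H.c.t0
  tsum := H.c.toBI.tsum
  ss := H.c.ss
  hmu := H.c.hmu
  dt := fun i hi => H.c.toItE.dt hi
  mup := H.c.mup
  hlt := H.c.hlt
  v1 := H.c.v1
  k0 := H.c.k0
  kh := H.c.kh
  kv := H.c.kv
  k2 := H.lv.k2
  k21 := H.lv.k21
  one := H.lv.one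
  m0 := fun u hu i hi => H.mn0 hu hi
  mnc := H.lv.mnc
  mnk := fun u hu i hi => H.mnk hu hi
  mnz := fun u hu i hi h0 => by
    have h1 := H.mnk hu hi
    have h2 := H.mn0 hu hi
    rw [h0, zero_mul] at h1
    linarith
  mpr := H.lv.mpr
  m1 := fun u hu h1 => by
    rw [sum_congr rfl fun i hi => H.lv.mn1 u hu h1 i (mem_range.1 hi)]
    exact H.c.msum u hu
  pc01 := H.c.pcf
  pcv := H.c.pcv
  pcb := H.c.pcb
  be0 := H.c.be0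
  kq0 := hq0
  kqb := hqb
  sg0 := hg0
  sgs := hgs
  nn0 := H.c.NN0
  nnz := H.c.NNz
  nnb := H.c.NNb
  nu0 := H.c.nu0
  nup := H.c.nup
  nuz := H.c.nuz
  nuq := H.c.nuq
  jsub := H.c.jsub
  jntp := H.c.jntp
  ar0 := H.c.ar0
  arU := H.c.arU
  cap := by
    intro i hi j hj hij K hK hKi K' hK' hKj g g' h1 h2 h3 h4 EX hEX sv hsv
    refine H.tx.cll i hi j hj hij K hK hKi K' hK' hKj g g' h1 h2 h3 h4 EX ?_ sv hsv.savK
    rcases hEX with h5 | ⟨w, hw, h5, h6⟩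
    · exact Or.inl h5
    · refine Or.inr (Or.inl ⟨w, hw, ?_⟩)
      rw [H.lv.mn1 w hw h5 i hi, H.lv.mn1 w hw h5 j hj] at h6
      exact h6
  capM := hM
  tN := hN
  tK := hK
  tTg := hT
  tPg := hP
  tXg := hX

end PConU

end Pool.Agent.Lib.MP_f04ccf_co
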