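import Pool.Agent.Lib.MP_f04ccf_co.M.ItXT

/-!
MP_f04ccf_co, PLAN W, TEXT P (notes 16848, 16857, 16927, 16934): the algebra layer of the pair certificate
over `ItX`, in real loads.  `rld i j` is the real load of the items of `i` at the row `j`: hits over
`R - t j`.  `pair_id`: the identity of the pair test (any numbers `oi`, `oj`).  `ItX.cplus`: the pair test
with both degree gains.  `ItX.rowK`, `ItX.rowKa`: the row test in real loads for any selection.
`ItX.massD`: `n ≤ D = R - ∑ t`.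
-/

set_option autoImplicit false

namespace Pool.Agent.Lib.MP_f04ccf_co

open Finset

attribute [local instance] Classical.propDecidable

/-- **the identity of the pair test**: `X = mi + mj`, `S = si + sj`, `d = m - s`, `a` the real load of the
first host at the second row, `b` the other way, `oi`, `oj` any numbers, `sur = load - mu` -/
lemma pair_id {R Q ti tj mi mj si sj a b oi oj : ℝ} (hQ : Q = R - ti - tj) :
    (R - 1) * (si + sj) + ((R - tj) * a + (R - ti) * b)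
      + ((mi - si) * (mi - si - 1) + (mj - sj) * (mj - sj - 1)) / 2
      - (ti * mi + tj * mj + (si + sj + (si + sj) ^ 2) / 2 + (R + 1))
    = Q * (a + b + (oi + oj)) + ti * (oj + (a + oi - mi)) + tj * (oi + (b + oj - mj))
      + (R - (mi + mj) - 1) * (si + sj - 1 - (oi + oj))
      + ((mi + mj) ^ 2 - 3 * (mi + mj) - 4) / 2 - (mi + mj + 1) * (oi + oj)
      - (mi - si) * (mj - sj) := by
  rw [hQ]
  ring

section PCore

variable {ι : Type*} {R : ℤ} {n : ℕ} {t s h e : ℕ → ℤ} {E : ℕ → ℕ → ℤ} {U : Finset ι} {ho : ι → ℕ}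
  {vl : ι → ℤ} {kp ms mr : ℕ → ι → ℤ} {mu Nb : ℕ → ℤ} {Nx : ℕ → ℕ → ℤ} {be : ℕ → ℕ → ℤ}
  {ls : ℕ → ℤ → ℤ}

/-- the real load of the items of `i` at the row `j` -/
noncomputable def rld (R : ℤ) (t : ℕ → ℤ) (U : Finset ι) (ho : ι → ℕ) (kp ms : ℕ → ι → ℤ)
    (i j : ℕ) : ℝ :=
  (hitx R t U ho kp ms i j : ℝ) / ((R : ℝ) - t j)

namespace ItX

/-- the class part of a row is not empty -/
lemma cpos (H : ItX R n t s h e E U ho vl kp ms mr mu Nb Nx be ls) {j : ℕ} (hj : j < n) :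
    (0 : ℝ) < (R : ℝ) - t j := by
  have h1 := H.tR j hj
  have h2 : ((t j : ℝ)) + 1 ≤ (R : ℝ) := by exact_mod_cast h1
  linarith

/-- the hits of the items of `i` at `j` are not negative -/
lemma hitx_nonneg (H : ItX R n t s h e E U ho vl kp ms mr mu Nb Nx be ls) (i : ℕ) {j : ℕ}
    (hj : j < n) : 0 ≤ hitx R t U ho kp ms i j := by
  rw [← sum_hitx]
  refine sum_nonneg fun u hu => ?_
  have h1 := H.msr u (mem_filter.1 hu).1 j hj
  have h2 := H.mrk u (mem_filter.1 hu).1 j hj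
  linarith

lemma rld_nonneg (H : ItX R n t s h e E U ho vl kp ms mr mu Nb Nx be ls) (i : ℕ) {j : ℕ}
    (hj : j < n) : 0 ≤ rld R t U ho kp ms i j := by
  refine div_nonneg ?_ (H.cpos hj).le
  exact_mod_cast H.hitx_nonneg i hj

/-- hits = real load times the size of the class part -/
lemma hit_rld (H : ItX R n t s h e E U ho vl kp ms mr mu Nb Nx be ls) (i : ℕ) {j : ℕ}
    (hj : j < n) : (hitx R t U ho kp ms i j : ℝ) = ((R : ℝ) - t j) * rld R t U ho kp ms i j := by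
  unfold rld
  rw [mul_div_cancel₀ _ (H.cpos hj).ne']

/-- the real load is at most the count -/
lemma rld_le (H : ItX R n t s h e E U ho vl kp ms mr mu Nb Nx be ls) (i : ℕ) {j : ℕ}
    (hj : j < n) : rld R t U ho kp ms i j ≤ (lod U ho kp i j : ℝ) := by
  unfold rld
  rw [div_le_iff₀ (H.cpos hj)]
  have h1 : 0 ≤ lod U ho ms i j := sum_nonneg fun u hu => H.m0 u (mem_filter.1 hu).1 j hj
  have h2 : hitx R t U ho kp ms i j ≤ lod U ho kp i j * (R - t j) := by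
    unfold hitx
    linarith
  have h3 : ((hitx R t U ho kp ms i j : ℤ) : ℝ) ≤ ((lod U ho kp i j * (R - t j) : ℤ) : ℝ) := by
    exact_mod_cast h2
  push_cast at h3
  exact h3

/-- **the mass**: `n ≤ D = R - ∑ t` -/
lemma massD (H : ItX R n t s h e E U ho vl kp ms mr mu Nb Nx be ls) :
    (n : ℝ) ≤ (R : ℝ) - ∑ i ∈ range n, (t i : ℝ) := by
  have h1 := H.sh
  rw [sum_congr rfl fun i hi => H.hh i (mem_range.1 hi), sum_add_distrib, sum_add_distrib,
    H.ss, sum_const, card_range, nsmul_eq_mul, mul_one] at h1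
  have h2 : ((∑ i ∈ range n, t i + 1 + n : ℤ) : ℝ) ≤ ((R + 1 : ℤ) : ℝ) := by exact_mod_cast h1
  push_cast at h2
  linarith

/-- the members of one row: `d ≤ t + 1` -/
lemma dtR (H : ItX R n t s h e E U ho vl kp ms mr mu Nb Nx be ls) {i : ℕ} (hi : i < n) :
    ((mu i : ℝ)) - s i - 1 ≤ t i := by
  have h1 := H.dt hi
  exact_mod_cast h1

/-- the degree gain in real loads, one side -/
lemma gai_rld (H : ItX R n t s h e E U ho vl kp ms mr mu Nb Nx be ls) (i : ℕ) {j : ℕ}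
    (hj : j < n) (w : ℤ) :
    ((R : ℝ) - t j) * max 0 (rld R t U ho kp ms i j - w)
      - max 0 ((ls j (lod U ho kp i j - w) : ℤ) : ℝ)
      ≤ (gai R t U ho kp ms ls i j w : ℝ) := by
  have h0 : (0 : ℝ) ≤ (gai R t U ho kp ms ls i j w : ℝ) := by
    exact_mod_cast gai_nonneg R t U ho kp ms ls i j w
  have h1 := le_gai R t U ho kp ms ls i j w
  have h2 : ((hitx R t U ho kp ms i j - (R - t j) * w - ls j (lod U ho kp i j - w) : ℤ) : ℝ)
      ≤ (gai R t U ho kp ms ls i j w : ℝ) := by exact_mod_cast h1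
  push_cast at h2
  rw [H.hit_rld i hj] at h2
  have h3 := H.cpos hj
  have h4 := le_max_left (0 : ℝ) ((ls j (lod U ho kp i j - w) : ℤ) : ℝ)
  have h5 := le_max_right (0 : ℝ) ((ls j (lod U ho kp i j - w) : ℤ) : ℝ)
  rcases le_total (rld R t U ho kp ms i j - (w : ℝ)) 0 with h6 | h6
  · rw [max_eq_left h6, mul_zero]
    linarith
  · rw [max_eq_right h6]
    linarith

/-- **the pair certificate `c+`** (22's and 78's form, `∑ s = 1`): `a = rld i j`, `b = rld j i`, `oi`, `oj`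
any numbers (the real loads outside the pair), `Q = D + T' = R - t i - t j`, `X = mu i + mu j`,
`sur_i = a + oi - mu i`, `si + sj - 1 - (oi + oj) = r - P'`; the gains are
`g_i = max 0 (b - s j - 1)`, `g_j = max 0 (a - s i - 1)` -/
theorem cplus (H : ItX R n t s h e E U ho vl kp ms mr mu Nb Nx be ls) {i j : ℕ} (hi : i < n)
    (hj : j < n) (hij : i ≠ j) {a b oi oj Q si sj mi mj ti tj r : ℝ}
    (ea : a = rld R t U ho kp ms i j) (eb : b = rld R t U ho kp ms j i)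
    (er : r = R) (eti : ti = t i) (etj : tj = t j) (esi : si = s i) (esj : sj = s j)
    (emi : mi = mu i) (emj : mj = mu j) (hQ : Q = r - ti - tj) :
    Q * (a + b + (oi + oj)) + ti * (oj + (a + oi - mi)) + tj * (oi + (b + oj - mj))
      + (r - (mi + mj) - 1) * (si + sj - 1 - (oi + oj))
      + ((mi + mj) ^ 2 - 3 * (mi + mj) - 4) / 2 - (mi + mj + 1) * (oi + oj)
      - (mi - si) * (mj - sj)
      + (r - ti) * max 0 (b - sj - 1) + (r - tj) * max 0 (a - si - 1)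
    ≤ max 0 ((ls i (lod U ho kp j i - (1 + s j)) : ℤ) : ℝ)
      + max 0 ((ls j (lod U ho kp i j - (1 + s i)) : ℤ) : ℝ)
      + ((Nb i : ℝ) + Nb j) / 2
      + (∑ x ∈ (range n).erase i, (Nx i x : ℝ) - Nx i j)
      + (∑ x ∈ (range n).erase j, (Nx j x : ℝ) - Nx j i) := by
  have h1 := H.pairL hi hj hij
  have h2 : ((2 * (R - 1) * (s i + s j)
        + 2 * (hitx R t U ho kp ms i j + hitx R t U ho kp ms j i)
        + 2 * gai R t U ho kp ms ls j i (1 + s j) + 2 * gai R t U ho kp ms ls i j (1 + s i)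
        + (mu i - s i) * (mu i - s i - 1) + (mu j - s j) * (mu j - s j - 1) : ℤ) : ℝ)
      ≤ ((2 * (t i * mu i) + 2 * (t j * mu j) + s i + s j + (s i + s j) ^ 2 + 2 * (R + 1)
        + Nb i + Nb j
        + 2 * (∑ x ∈ (range n).erase i, Nx i x - Nx i j)
        + 2 * (∑ x ∈ (range n).erase j, Nx j x - Nx j i) : ℤ) : ℝ) := by exact_mod_cast h1
  push_cast at h2
  rw [H.hit_rld i hj, H.hit_rld j hi, ← ea, ← eb] at h2
  have h3 := H.gai_rld j hi (1 + s j)
  have h4 := H.gai_rld i hj (1 + s i)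
  rw [← eb] at h3
  rw [← ea] at h4
  push_cast at h3 h4
  have e3 : b - (1 + (s j : ℝ)) = b - sj - 1 := by rw [esj]; ring
  have e4 : a - (1 + (s i : ℝ)) = a - si - 1 := by rw [esi]; ring
  rw [e3] at h3
  rw [e4] at h4
  rw [← er, ← eti] at h3
  rw [← er, ← etj] at h4
  rw [← er, ← eti, ← etj, ← esi, ← esj, ← emi, ← emj] at h2
  have h5 := pair_id (a := a) (b := b) (oi := oi) (oj := oj) (mi := mi) (mj := mj) (si := si)
    (sj := sj) hQ
  linarith

/-- **the row test in real loads** for a selection `K`: `k` the count, `lam` the real load (misses of the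
row test `mr`): `R (s + lam) ≤ t (mu + lam) + (v (v + 1) - d (d - 1)) / 2 + N / 2`, `v = s + 2 k` -/
theorem rowK (H : ItX R n t s h e E U ho vl kp ms mr mu Nb Nx be ls) {z : ℕ} (hz : z < n)
    {K : Finset ι} (hK : K ⊆ U) (hKh : ∀ u ∈ K, ho u ≠ z) {k lam : ℝ}
    (ek : k = ((∑ u ∈ K, kp z u : ℤ) : ℝ))
    (el : lam = k - ((∑ u ∈ K, mr z u : ℤ) : ℝ) / ((R : ℝ) - t z)) :
    (R : ℝ) * (s z + lam) + ((mu z : ℝ) - s z) * ((mu z : ℝ) - s z - 1) / 2
      ≤ t z * (mu z + lam) + ((s z : ℝ) + 2 * k) * ((s z : ℝ) + 2 * k + 1) / 2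
        + (Nb z : ℝ) / 2 + ∑ x ∈ (range n).erase z, (Nx z x : ℝ) := by
  have h1 := H.tz hz hK hKh
  have h2 : ((2 * (R * (s z + ∑ u ∈ K, kp z u)) + (mu z - s z) * (mu z - s z - 1) : ℤ) : ℝ)
      ≤ ((2 * (t z * (mu z + ∑ u ∈ K, kp z u))
        + (s z + 2 * ∑ u ∈ K, kp z u) * (s z + 2 * ∑ u ∈ K, kp z u + 1)
        + Nb z + 2 * ∑ j ∈ (range n).erase z, Nx z j + 2 * ∑ u ∈ K, mr z u : ℤ) : ℝ) := by
    exact_mod_cast h1
  rw [Int.cast_add, Int.cast_mul, Int.cast_mul, Int.cast_add (s z)] at h2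
  have ek' : ((∑ u ∈ K, kp z u : ℤ) : ℝ) = k := ek.symm
  set m : ℝ := ((∑ u ∈ K, mr z u : ℤ) : ℝ) with hm
  rw [ek'] at h2
  have h3 : ((2 * (t z * (mu z + ∑ u ∈ K, kp z u))
        + (s z + 2 * ∑ u ∈ K, kp z u) * (s z + 2 * ∑ u ∈ K, kp z u + 1)
        + Nb z + 2 * ∑ j ∈ (range n).erase z, Nx z j + 2 * ∑ u ∈ K, mr z u : ℤ) : ℝ)
      = 2 * (t z * (mu z + k)) + ((s z : ℝ) + 2 * k) * ((s z : ℝ) + 2 * k + 1) + Nb z
        + 2 * ∑ x ∈ (range n).erase z, (Nx z x : ℝ) + 2 * m := by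
    rw [hm, ← ek']
    push_cast
    ring
  rw [h3] at h2
  have h4 := H.cpos hz
  have h5 : ((R : ℝ) - t z) * lam = ((R : ℝ) - t z) * k - m := by
    rw [el, mul_sub, mul_div_cancel₀ _ h4.ne']
  push_cast at h2
  nlinarith

/-- **the row test in real loads with all points** (`w = ∑ (vl + 1)`, misses `ms`) -/
theorem rowKa (H : ItX R n t s h e E U ho vl kp ms mr mu Nb Nx be ls) {z : ℕ} (hz : z < n)
    {K : Finset ι} (hK : K ⊆ U) (hKh : ∀ u ∈ K, ho u ≠ z) (hk : ∀ u ∈ K, kp z u ≠ 0)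
    {k lam w : ℝ} (ek : k = ((∑ u ∈ K, kp z u : ℤ) : ℝ))
    (ew : w = ((∑ u ∈ K, (vl u + 1) : ℤ) : ℝ))
    (el : lam = k - ((∑ u ∈ K, ms z u : ℤ) : ℝ) / ((R : ℝ) - t z)) :
    (R : ℝ) * (s z + lam) + ((mu z : ℝ) - s z) * ((mu z : ℝ) - s z - 1) / 2
      ≤ t z * (mu z + lam) + ((s z : ℝ) + w) * ((s z : ℝ) + w + 1) / 2
        + (Nb z : ℝ) / 2 + ∑ x ∈ (range n).erase z, (Nx z x : ℝ) := by
  have h1 := H.tza hz hK hKh hk
  have h2 : ((2 * (R * (s z + ∑ u ∈ K, kp z u)) + (mu z - s z) * (mu z - s z - 1) : ℤ) : ℝ)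
      ≤ ((2 * (t z * (mu z + ∑ u ∈ K, kp z u))
        + (s z + ∑ u ∈ K, (vl u + 1)) * (s z + ∑ u ∈ K, (vl u + 1) + 1)
        + Nb z + 2 * ∑ j ∈ (range n).erase z, Nx z j + 2 * ∑ u ∈ K, ms z u : ℤ) : ℝ) := by
    exact_mod_cast h1
  rw [Int.cast_add, Int.cast_mul, Int.cast_mul, Int.cast_add (s z)] at h2
  have ek' : ((∑ u ∈ K, kp z u : ℤ) : ℝ) = k := ek.symm
  set m : ℝ := ((∑ u ∈ K, ms z u : ℤ) : ℝ) with hm
  rw [ek'] at h2
  have h3 : ((2 * (t z * (mu z + ∑ u ∈ K, kp z u))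
        + (s z + ∑ u ∈ K, (vl u + 1)) * (s z + ∑ u ∈ K, (vl u + 1) + 1)
        + Nb z + 2 * ∑ j ∈ (range n).erase z, Nx z j + 2 * ∑ u ∈ K, ms z u : ℤ) : ℝ)
      = 2 * (t z * (mu z + k)) + ((s z : ℝ) + w) * ((s z : ℝ) + w + 1) + Nb z
        + 2 * ∑ x ∈ (range n).erase z, (Nx z x : ℝ) + 2 * m := by
    rw [hm, ← ek', ew]
    push_cast
    ring
  rw [h3] at h2
  have h4 := H.cpos hz
  have h5 : ((R : ℝ) - t z) * lam = ((R : ℝ) - t z) * k - m := by
    rw [el, mul_sub, mul_div_cancel₀ _ h4.ne']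
  push_cast at h2
  nlinarith

end ItX

end PCore

end Pool.Agent.Lib.MP_f04ccf_co
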