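import Pool.Agent.Lib.MP_f04ccf_co.M.PCore
import Pool.Agent.Lib.MP_f04ccf_co.M.ItY

/-!
MP_f04ccf_co, PLAN W, TEXT T / P (notes 16899, 16934, 16947): T+ (the row test with the columns of another
row) in real loads over `ItY`.  `i` the row, `j` the other row, `K` items hosted at `j`, `k` their count
at `i`, `lam` their real load, `p = s + lam`, `d = mu - s`, `u = mu - (real load of i at j)`.
`ItY.tpR`: `R p + c_j (d - 1 - u) + d (d - 1) / 2 ≤ t (p + d) + v (v + 1) / 2 + losses`.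
`ItY.tpM`: `R p + max 0 (d - 1 - u) Q + d (d - 1) / 2 ≤ t (p + min d (1 + u)) + v (v + 1) / 2 + losses`,
`Q = R - t_i - t_j`.
-/

set_option autoImplicit false

namespace Pool.Agent.Lib.MP_f04ccf_co

open Finset

attribute [local instance] Classical.propDecidable

section PCoreT

variable {ι : Type*} {R : ℤ} {n : ℕ} {t s h e : ℕ → ℤ} {E : ℕ → ℕ → ℤ} {U : Finset ι} {ho : ι → ℕ}
  {vl : ι → ℤ} {kp ms mr : ℕ → ι → ℤ} {mu Nb : ℕ → ℤ} {Nx : ℕ → ℕ → ℤ} {be : ℕ → ℕ → ℤ}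
  {ls : ℕ → ℤ → ℤ} {pc ar : ι → ℤ} {aT : ℕ → ℤ}

namespace ItY

/-- **T+ in real loads**, items of the row `j` -/
theorem tpR (H : ItY R n t s h e E U ho vl kp ms mr mu Nb Nx be ls pc ar aT) {i j : ℕ}
    (hi : i < n) (hj : j < n) (hij : i ≠ j) {K : Finset ι} (hK : K ⊆ U)
    (hKh : ∀ u ∈ K, ho u = j) {k q lam p d u v : ℝ} (h0 : 0 ≤ s i + ∑ u ∈ K, kp i u)
    (ek : k = ((∑ u ∈ K, kp i u : ℤ) : ℝ)) (eq : q = ((∑ u ∈ K, pc u * kp i u : ℤ) : ℝ))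
    (el : lam = k - ((∑ u ∈ K, mr i u : ℤ) : ℝ) / ((R : ℝ) - t i))
    (ep : p = s i + lam) (ed : d = (mu i : ℝ) - s i)
    (eu : u = (mu i : ℝ) - rld R t U ho kp ms i j) (ev : v = s i + 2 * k - q) :
    (R : ℝ) * p + ((R : ℝ) - t j) * (d - 1 - u) + d * (d - 1) / 2
      ≤ t i * (p + d) + v * (v + 1) / 2 + (Nb i : ℝ) / 2
        + ∑ x ∈ (range n).erase i, (Nx i x : ℝ) + ((∑ u ∈ K, ar u : ℤ) : ℝ) + q * be i j := by
  have h1 := H.tplusH hi hj hij hK hKh rfl rfl h0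
  set kk : ℤ := ∑ u ∈ K, kp i u with hkk
  set qq : ℤ := ∑ u ∈ K, pc u * kp i u with hqq
  set mm : ℤ := ∑ u ∈ K, mr i u with hmm
  set aa : ℤ := ∑ u ∈ K, ar u with haa
  have h2 : ((2 * (R * (s i + kk)) + 2 * ((R - t j) * (lod U ho kp i j - s i - 1))
        + (mu i - s i) * (mu i - s i - 1) : ℤ) : ℝ)
      ≤ ((2 * (t i * (mu i + kk)) + (s i + (2 * kk - qq)) * (s i + (2 * kk - qq) + 1)
        + Nb i + 2 * ∑ x ∈ (range n).erase i, Nx i x
        + 2 * mm + 2 * lod U ho ms i j + 2 * aa + 2 * (qq * be i j) : ℤ) : ℝ) := by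
    exact_mod_cast h1
  push_cast at h2
  have h3 := H.cpos hi
  have h4 := H.hit_rld i hj
  have h5 : (hitx R t U ho kp ms i j : ℝ)
      = (lod U ho kp i j : ℝ) * ((R : ℝ) - t j) - (lod U ho ms i j : ℝ) := by
    unfold hitx
    push_cast
    ring
  have h6 : ((R : ℝ) - t i) * lam = ((R : ℝ) - t i) * k - mm := by
    rw [el, mul_sub, mul_div_cancel₀ _ h3.ne']
  have e1 : (kk : ℝ) = k := ek.symm
  have e2 : (qq : ℝ) = q := eq.symm
  rw [e1, e2] at h2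
  have h7 : ((R : ℝ) - t j) * (d - 1 - u)
      = (lod U ho kp i j : ℝ) * ((R : ℝ) - t j) - (lod U ho ms i j : ℝ)
        - ((R : ℝ) - t j) * (s i + 1) := by
    rw [← h5, h4, ed, eu]
    ring
  rw [h7, ep, ed, ev]
  nlinarith

/-- **T and T+ together in real loads** -/
theorem tpM (H : ItY R n t s h e E U ho vl kp ms mr mu Nb Nx be ls pc ar aT) {i j : ℕ}
    (hi : i < n) (hj : j < n) (hij : i ≠ j) {K : Finset ι} (hK : K ⊆ U)
    (hKh : ∀ u ∈ K, ho u = j) {k q lam p d u v : ℝ} (h0 : 0 ≤ s i + ∑ u ∈ K, kp i u)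
    (ek : k = ((∑ u ∈ K, kp i u : ℤ) : ℝ)) (eq : q = ((∑ u ∈ K, pc u * kp i u : ℤ) : ℝ))
    (el : lam = k - ((∑ u ∈ K, mr i u : ℤ) : ℝ) / ((R : ℝ) - t i))
    (ep : p = s i + lam) (ed : d = (mu i : ℝ) - s i)
    (eu : u = (mu i : ℝ) - rld R t U ho kp ms i j) (ev : v = s i + 2 * k) :
    (R : ℝ) * p + max 0 (d - 1 - u) * ((R : ℝ) - t i - t j) + d * (d - 1) / 2
      ≤ t i * (p + min d (1 + u)) + v * (v + 1) / 2 + (Nb i : ℝ) / 2
        + ∑ x ∈ (range n).erase i, (Nx i x : ℝ) + ((∑ u ∈ K, ar u : ℤ) : ℝ) + q * be i j := by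
  have hq0 : 0 ≤ q := by
    rw [eq]
    have h1 : 0 ≤ ∑ u ∈ K, pc u * kp i u :=
      sum_nonneg fun w hw => mul_nonneg (H.pc0 w (hK hw)) (H.k0 w (hK hw) i hi)
    exact_mod_cast h1
  have hqk : q ≤ k := by
    rw [eq, ek]
    have h1 : ∑ u ∈ K, pc u * kp i u ≤ ∑ u ∈ K, kp i u :=
      sum_le_sum fun w hw => by
        have h2 := H.pc1 w (hK hw)
        have h3 := H.k0 w (hK hw) i hi
        nlinarith
    exact_mod_cast h1
  have ha0 : (0 : ℝ) ≤ ((∑ u ∈ K, ar u : ℤ) : ℝ) := by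
    have h1 : 0 ≤ ∑ u ∈ K, ar u := sum_nonneg fun w hw => H.ar0 w (hK hw)
    exact_mod_cast h1
  have hb0 : (0 : ℝ) ≤ (be i j : ℝ) := by
    exact_mod_cast H.be0 i hi j hj
  have hsk : (0 : ℝ) ≤ s i + k := by
    rw [ek]
    exact_mod_cast h0
  rcases le_total (d - 1 - u) 0 with h | h
  · have h1 := H.rowK hi hK (fun w hw h2 => hij (h2.symm.trans (hKh w hw))) ek el
    rw [max_eq_left h, min_eq_left (by linarith : d ≤ 1 + u), zero_mul, add_zero, ep, ed, ev]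
    have h2 : 0 ≤ q * be i j := mul_nonneg hq0 hb0
    have e1 : (t i : ℝ) * (s i + lam + ((mu i : ℝ) - s i)) = t i * (mu i + lam) := by ring
    rw [e1]
    linarith
  · have h1 := H.tpR hi hj hij hK hKh h0 ek eq el ep ed eu (v := s i + 2 * k - q) rfl
    rw [max_eq_right h, min_eq_right (by linarith : 1 + u ≤ d), ev]
    have h2 : (s i + 2 * k - q) * (s i + 2 * k - q + 1)
        ≤ (s i + 2 * k) * (s i + 2 * k + 1) := by
      nlinarith [mul_nonneg hq0 (by linarith : (0 : ℝ) ≤ 2 * ((s i : ℝ) + 2 * k) - q + 1)]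
    nlinarith

end ItY

end PCoreT

end Pool.Agent.Lib.MP_f04ccf_co
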