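import Pool.Agent.Lib.MP_f04ccf_co.M.LvI

/-!
MP_f04ccf_co, TEXT D (assembly), the `p`-form.  `p i = s i + k i`, `k i` the number of pieces which the row
`i` uses; `D = A` (hosted piece) or `A + b` (used piece, `b` misses) is the deficit of a piece in the row,
`A = t + 1`, `e = mu + k`:

* `BI.p_false`: the closing.  `co i u` the complement of the share of the row `i` in the item `u`:
  `∑_i co i u ≤ ∑_i g i u`, `s i + ∑_u g i u ≤ ∑_u co i u + δ i`, `∑ δ < 1` is impossible;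
* `pN`: tzN, `(R - 2 e) p ≤ A e + B`; `pT`: the exact row test,
  `2 (R - W) p ≤ 2 (A e + B) - m (W + 1) - sv + N`, `W = m + w`;
* `pC`: the row test with the columns of `y`, `2 (ty - W) p ≤ 2 (A e + B) - 2 c (E - 1) - m (W + 1) - sv + N`;
* `pN_row`: a row in which every piece has `κ (R - 2 e) ≥ 1` has `p ≤ ∑ κ D`.
-/

set_option autoImplicit false

namespace Pool.Agent.Lib.MP_f04ccf_co

open Finset

attribute [local instance] Classical.propDecidable

section PForm

variable {ι : Type*}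

/-- **the closing in `p`-form** -/
theorem BI.p_false {R : ℤ} {n : ℕ} {t s h e : ℕ → ℤ} {E : ℕ → ℕ → ℤ} (H : BI R n t s h e E)
    {U : Finset ι} {g : ℕ → ι → ℤ} {co : ℕ → ι → ℝ} {δ : ℕ → ℝ}
    (h1 : ∀ u ∈ U, ∑ i ∈ range n, co i u ≤ ∑ i ∈ range n, (g i u : ℝ))
    (h2 : ∀ i < n, (s i : ℝ) + ∑ u ∈ U, (g i u : ℝ) ≤ ∑ u ∈ U, co i u + δ i)
    (h3 : ∑ i ∈ range n, δ i < 1) : False := by
  have e1 : ∑ i ∈ range n, (s i : ℝ) = 1 := by
    have h4 := H.ss
    have h5 : ((∑ i ∈ range n, s i : ℤ) : ℝ) = 1 := by rw [h4]; norm_num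
    push_cast at h5
    exact h5
  have h4 := sum_le_sum fun i hi => h2 i (mem_range.1 hi)
  have h5 := sum_le_sum h1
  rw [sum_add_distrib, sum_add_distrib, e1, sum_comm, sum_comm (s := range n) (t := U)] at h4
  linarith

/-- tzN in `p`-form, both signs of `p` -/
theorem pN {R t s mu k B : ℤ} (ht : 0 ≤ t) (hB : 0 ≤ B) (he0 : 0 ≤ mu + k)
    (he : 2 * (mu + k) ≤ R)
    (h : 0 ≤ s + k → R * (s + k) ≤ (mu + k) * (t + 2 * (s + k) + 1) + B) :
    (R - 2 * (mu + k)) * (s + k) ≤ (t + 1) * (mu + k) + B := by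
  rcases le_or_gt 0 (s + k) with h0 | h0
  · have h1 := h h0
    nlinarith
  · have h3 := mul_nonneg (show (0 : ℤ) ≤ R - 2 * (mu + k) by linarith) (show (0 : ℤ) ≤ -(s + k) by linarith)
    have h4 : 0 ≤ (t + 1) * (mu + k) := mul_nonneg (by linarith) he0
    nlinarith

/-- **the raw row test (`c = 0`) and the row test with columns (`c = R - t_y`) in `p`-form**: `k` pieces with
`w` points, `k (R - t) - B` their hits, `SA` the hits of the hosted items in the columns, `W = mu + w` -/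
theorem pForm {R c s mu h t e k w B SA sv N co : ℤ}
    (hT : 2 * (R * s) + 2 * (k * (R - t) - B) + 2 * SA + sv
      ≤ 2 * e + 2 * ((w + c) * (s + 1)) + w * (w - 1) + co)
    (he : 2 * e + mu * (mu + 1) ≤ 2 * (mu * h) + N) (hh : h = t + s + 1) :
    2 * ((R - c - (mu + w)) * (s + k))
      ≤ 2 * ((t + 1) * (mu + k) + B) - 2 * (c * (k - 1)) - 2 * SA
        - (mu + 2 * k - w) * (mu + w + 1) - sv + N + co := by
  rw [hh] at he
  nlinarith

/-- the same for the sub-slot: `gv` the value and `q` the points of the dropped parts -/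
theorem pForm_sub {R c s mu h t e k w B SA sv N co gv q : ℤ}
    (hT : 2 * (R * (s - q)) + 2 * (k * (R - t) - B) + 2 * SA + sv
      ≤ 2 * e + 2 * ((w + c) * (s - q + 1)) + w * (w - 1) + co)
    (he : 2 * e + (mu - gv) * (mu - gv + 1) ≤ 2 * ((mu - gv) * (h - q)) + N) (hh : h = t + s + 1) :
    2 * ((R - c - (mu - gv + w)) * (s - q + k))
      ≤ 2 * ((t + 1) * (mu - gv + k) + B) - 2 * (c * (k - 1)) - 2 * SA
        - (mu - gv + 2 * k - w) * (mu - gv + w + 1) - sv + N + co :=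
  pForm (t := t) hT he (by rw [hh]; ring)

/-- **tzN for a table**: pieces with deficits `D` and `κ (R - 2 e) ≥ 1` on the average -/
theorem pN_row {R e p : ℝ} (he : 2 * e < R) {Q : Finset ι} {D κ : ι → ℝ}
    (h : (R - 2 * e) * p ≤ ∑ u ∈ Q, D u)
    (h1 : 0 ≤ ∑ u ∈ Q, D u * (κ u * (R - 2 * e) - 1)) : p ≤ ∑ u ∈ Q, κ u * D u := by
  have h2 : ∑ u ∈ Q, D u ≤ (R - 2 * e) * ∑ u ∈ Q, κ u * D u := by
    have h3 : ∑ u ∈ Q, D u * (κ u * (R - 2 * e) - 1)
        = (R - 2 * e) * ∑ u ∈ Q, κ u * D u - ∑ u ∈ Q, D u := by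
      rw [mul_sum, ← sum_sub_distrib]
      exact sum_congr rfl fun u _ => by ring
    linarith
  exact le_of_mul_le_mul_left (h.trans h2) (by linarith)

end PForm

end Pool.Agent.Lib.MP_f04ccf_co
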