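import Pool.Agent.Lib.MP_f04ccf_co.M.PW
import Pool.Agent.Lib.MP_f04ccf_co.M.ExcN

/-!
MP_f04ccf_co: property (P) with multiplicities (note 15647).  In every colour `j ≠ k` a vertex `v` may
be replaced by a clique with `w v` points; the inequality of Caro and Wei for the blow-up and
`1 / (d + 1) ≥ (2 n - d) / (n (n + 1))`.
-/

set_option autoImplicit false

namespace Pool.Agent.Lib.MP_f04ccf_co

open Finset

attribute [local instance] Classical.propDecidable

section WCaro

variable {V : Type*} (G : SimpleGraph V)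

/-- total weight of the neighbours in `A` -/
noncomputable def wdg (w : V → ℕ) (A : Finset V) (v : V) : ℕ :=
  ∑ u ∈ A.filter (fun u => G.Adj v u), w u

/-- total weight of the other non-neighbours in `A` -/
noncomputable def wnd (w : V → ℕ) (A : Finset V) (v : V) : ℕ :=
  ∑ u ∈ A.filter (fun u => u ≠ v ∧ ¬ G.Adj v u), w u

/-- Caro - Wei with weights -/
lemma caro_wei_w (w : V → ℕ) : ∀ s : ℕ, ∀ A : Finset V, A.card = s → (∀ v ∈ A, 1 ≤ w v) →
    ∃ I ⊆ A, Ind G I ∧ ∑ v ∈ A, (w v : ℚ) / (wdg G w A v + w v) ≤ I.card := by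
  intro s
  induction s using Nat.strong_induction_on with
  | _ s ih =>
    intro A hA hw
    rcases A.eq_empty_or_nonempty with rfl | hne
    · exact ⟨∅, Subset.refl _, fun x hx => absurd hx (notMem_empty _), by simp⟩
    · obtain ⟨v, hv, hmin⟩ := exists_min_image A (fun u => wdg G w A u + w u) hne
      set B := A.filter (fun u => u ≠ v ∧ ¬ G.Adj v u) with hB
      set N := A.filter (fun u => ¬ (u ≠ v ∧ ¬ G.Adj v u)) with hN
      have hBA : B ⊆ A := filter_subset _ _
      have hlt : B.card < s := by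
        rw [← hA]
        refine card_lt_card ⟨hBA, fun h => ?_⟩
        exact (mem_filter.1 (h hv)).2.1 rfl
      obtain ⟨I, hI, hInd, hsum⟩ := ih B.card hlt B rfl (fun u hu => hw u (hBA hu))
      have hvI : v ∉ I := fun h => (mem_filter.1 (hI h)).2.1 rfl
      have hpos : ∀ u ∈ A, ∀ X : Finset V, (0 : ℚ) < (wdg G w X u : ℚ) + w u := by
        intro u hu X
        have h1 : (1 : ℚ) ≤ w u := by exact_mod_cast hw u hu
        have h2 : (0 : ℚ) ≤ wdg G w X u := by positivity
        linarith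
      refine ⟨insert v I, insert_subset hv (hI.trans hBA), ?_, ?_⟩
      · intro x hx y hy
        rcases mem_insert.1 hx with hx | hx <;> rcases mem_insert.1 hy with hy | hy
        · rw [hx, hy]
          exact G.loopless.irrefl _
        · rw [hx]
          exact (mem_filter.1 (hI hy)).2.2
        · rw [hy]
          exact fun h => (mem_filter.1 (hI hx)).2.2 h.symm
        · exact hInd x hx y hy
      · rw [card_insert_of_notMem hvI]
        have h1 : ∑ u ∈ B, (w u : ℚ) / (wdg G w A u + w u)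
            ≤ ∑ u ∈ B, (w u : ℚ) / (wdg G w B u + w u) := by
          refine sum_le_sum fun u hu => ?_
          have h2 : (wdg G w B u : ℚ) ≤ wdg G w A u := by
            have h3 : wdg G w B u ≤ wdg G w A u :=
              sum_le_sum_of_subset (filter_subset_filter _ hBA)
            exact_mod_cast h3
          exact div_le_div_of_nonneg_left (by positivity) (hpos u (hBA hu) B) (by linarith)
        have h3 : ∑ u ∈ N, w u = wdg G w A v + w v := by
          have h4 : N = insert v (A.filter (fun u => G.Adj v u)) := by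
            ext u
            rw [hN, mem_filter, mem_insert, mem_filter]
            constructor
            · rintro ⟨a, b⟩
              by_cases huv : u = v
              · exact Or.inl huv
              · right
                refine ⟨a, ?_⟩
                by_contra hn
                exact b ⟨huv, hn⟩
            · rintro (rfl | ⟨a, b⟩)
              · exact ⟨hv, fun h => h.1 rfl⟩
              · exact ⟨a, fun h => h.2 b⟩
          rw [h4, sum_insert (fun h => G.loopless.irrefl _ (mem_filter.1 h).2), add_comm]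
          rfl
        have h5 : ∑ u ∈ N, (w u : ℚ) / (wdg G w A u + w u) ≤ 1 := by
          have h6 : ∀ u ∈ N, (w u : ℚ) / (wdg G w A u + w u)
              ≤ (w u : ℚ) / (wdg G w A v + w v) := by
            intro u hu
            have h7 : (wdg G w A v : ℚ) + w v ≤ (wdg G w A u : ℚ) + w u := by
              exact_mod_cast hmin u (mem_filter.1 hu).1
            exact div_le_div_of_nonneg_left (by positivity) (hpos v hv A) h7
          refine (sum_le_sum h6).trans (le_of_eq ?_)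
          rw [← sum_div]
          have h8 : (∑ u ∈ N, (w u : ℚ)) = (wdg G w A v : ℚ) + w v := by exact_mod_cast h3
          rw [h8]
          exact div_self (hpos v hv A).ne'
        have h8 : ∑ u ∈ A, (w u : ℚ) / (wdg G w A u + w u)
            = ∑ u ∈ B, (w u : ℚ) / (wdg G w A u + w u)
            + ∑ u ∈ N, (w u : ℚ) / (wdg G w A u + w u) :=
          (sum_filter_add_sum_filter_not A _ _).symm
        rw [h8]
        push_cast
        linarith

variable {G}

lemma caro_wei_w' {A : Finset V} {r : ℕ} (h : AlphaLe G A r) {w : V → ℕ}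
    (hw : ∀ v ∈ A, 1 ≤ w v) : ∑ v ∈ A, (w v : ℚ) / (wdg G w A v + w v) ≤ r := by
  obtain ⟨I, hI, hInd, hsum⟩ := caro_wei_w G w A.card A rfl hw
  have : (I.card : ℚ) ≤ r := by exact_mod_cast h I hI hInd
  linarith

end WCaro

section PM

variable {V : Type*} {G H : SimpleGraph V} {r : ℕ}

/-- **property (P) with multiplicities `w` and slopes `n`** -/
def PM (G : SimpleGraph V) (r : ℕ) : Prop := ∀ (A : Finset V) (w n : V → ℕ),
  (∀ v ∈ A, 1 ≤ w v) → (∀ v ∈ A, 1 ≤ n v) →
  ∑ v ∈ A, (w v : ℚ) * (2 * (n v : ℚ) * ((r : ℚ) - 1) - ((r : ℚ) - 1) * ((w v : ℚ) - 1)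
    - wnd G w A v) / (n v * (n v + 1)) ≤ r * ((r : ℚ) - 1)

lemma wnd_le_of_le (h : H ≤ G) (w : V → ℕ) (A : Finset V) (v : V) :
    wnd G w A v ≤ wnd H w A v := by
  unfold wnd
  refine sum_le_sum_of_subset fun u hu => ?_
  obtain ⟨a, b, c⟩ := mem_filter.1 hu
  exact mem_filter.2 ⟨a, b, fun h' => c (h h')⟩

lemma PM.mono (hP : PM G r) (h : H ≤ G) : PM H r := by
  intro A w n hw hn
  refine (sum_le_sum fun v hv => ?_).trans (hP A w n hw hn)
  have h1 : (wnd G w A v : ℚ) ≤ wnd H w A v := by exact_mod_cast wnd_le_of_le h w A v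
  refine div_le_div_of_nonneg_right ?_ (by positivity)
  exact mul_le_mul_of_nonneg_left (by linarith) (by positivity)

lemma wnd_one (A : Finset V) (v : V) : wnd G (fun _ => 1) A v = nd G A v := by
  unfold wnd nd
  rw [sum_const, smul_eq_mul, mul_one]

/-- (PM) implies (PW) -/
lemma PM.pw (hP : PM G r) : PW G r := by
  intro A n hn
  have h1 := hP A (fun _ => 1) n (fun _ _ => le_refl _) hn
  refine (le_of_eq ?_).trans h1
  refine sum_congr rfl fun v _ => ?_
  rw [wnd_one]
  push_cast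
  congr 1
  ring

/-- constant slope -/
theorem PM.const (hP : PM G r) (A : Finset V) (w : V → ℕ) (hw : ∀ v ∈ A, 1 ≤ w v) (q : ℕ)
    (hq : 1 ≤ q) :
    ((r : ℤ) - 1) * (2 * q * ∑ v ∈ A, (w v : ℤ) - r * q * (q + 1))
      ≤ ∑ v ∈ A, (w v : ℤ) * wnd G w A v + ((r : ℤ) - 1) * ∑ v ∈ A, (w v : ℤ) * ((w v : ℤ) - 1) := by
  have h1 := hP A w (fun _ => q) hw (fun _ _ => hq)
  have hq0 : (0 : ℚ) < q * (q + 1) := by
    have : (1 : ℚ) ≤ q := by exact_mod_cast hq
    positivity
  rw [← sum_div, div_le_iff₀ hq0] at h1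
  have h2 : ∑ v ∈ A, (w v : ℚ) * (2 * (q : ℚ) * ((r : ℚ) - 1) - ((r : ℚ) - 1) * ((w v : ℚ) - 1)
      - wnd G w A v) = ((r : ℚ) - 1) * (2 * q * ∑ v ∈ A, (w v : ℚ))
        - ((r : ℚ) - 1) * ∑ v ∈ A, (w v : ℚ) * ((w v : ℚ) - 1)
        - ∑ v ∈ A, (w v : ℚ) * wnd G w A v := by
    rw [mul_sum, mul_sum, mul_sum, ← sum_sub_distrib, ← sum_sub_distrib]
    exact sum_congr rfl fun v _ => by ring
  rw [h2] at h1
  have h3 : ((r : ℚ) - 1) * (2 * q * ∑ v ∈ A, (w v : ℚ) - r * q * (q + 1))
      ≤ ∑ v ∈ A, (w v : ℚ) * wnd G w A v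
        + ((r : ℚ) - 1) * ∑ v ∈ A, (w v : ℚ) * ((w v : ℚ) - 1) := by
    nlinarith [h1]
  exact_mod_cast h3

/-- the missing weight for the weight `1 + 1_W` -/
lemma wnd_double (A W : Finset V) (hW : W ⊆ A) (v : V) :
    wnd G (fun u => if u ∈ W then 2 else 1) A v = nd G A v + nd G W v := by
  unfold wnd nd
  have h1 : W.filter (fun y => y ≠ v ∧ ¬ G.Adj v y)
      = (A.filter (fun y => y ≠ v ∧ ¬ G.Adj v y)).filter (fun y => y ∈ W) := by
    ext y
    simp only [mem_filter]
    constructor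
    · rintro ⟨a, b⟩
      exact ⟨⟨hW a, b⟩, a⟩
    · rintro ⟨⟨_, b⟩, a⟩
      exact ⟨a, b⟩
  rw [h1, card_eq_sum_ones, card_eq_sum_ones, sum_filter (fun y => y ∈ W), ← sum_add_distrib]
  refine sum_congr rfl fun u _ => ?_
  by_cases h : u ∈ W
  · simp only [if_pos h]
  · simp only [if_neg h, add_zero]

lemma nd_comm_sum (A W : Finset V) : ∑ v ∈ A, nd G W v = ∑ v ∈ W, nd G A v := by
  unfold nd
  have h := Finset.sum_card_bipartiteAbove_eq_sum_card_bipartiteBelow (s := A) (t := W)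
    (fun a b => b ≠ a ∧ ¬ G.Adj a b)
  have e1 : ∑ v ∈ A, (W.filter (fun y => y ≠ v ∧ ¬ G.Adj v y)).card
      = ∑ a ∈ A, (bipartiteAbove (fun a b => b ≠ a ∧ ¬ G.Adj a b) W a).card := rfl
  have e2 : ∑ v ∈ W, (A.filter (fun y => y ≠ v ∧ ¬ G.Adj v y)).card
      = ∑ b ∈ W, (bipartiteBelow (fun a b => b ≠ a ∧ ¬ G.Adj a b) A b).card := by
    refine sum_congr rfl fun v _ => ?_
    congr 1
    ext y
    simp only [mem_filter, mem_bipartiteBelow]
    constructor
    · rintro ⟨a, b, c⟩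
      exact ⟨a, b.symm, fun h' => c h'.symm⟩
    · rintro ⟨a, b, c⟩
      exact ⟨a, b.symm, fun h' => c h'.symm⟩
  rw [e1, e2, h]

/-- **servers twice**: the points of `W` are counted twice -/
theorem PM.double (hP : PM G r) (A W : Finset V) (hW : W ⊆ A) (q : ℕ) (hq : 1 ≤ q) :
    ((r : ℤ) - 1) * (2 * q * A.card - r * q * (q + 1))
      + 2 * ∑ v ∈ W, (((q : ℤ) - 1) * ((r : ℤ) - 1) - nd G A v)
      ≤ NE G A + NE G W := by
  have h1 := hP.const A (fun u => if u ∈ W then 2 else 1) (fun v _ => by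
    split_ifs <;> omega) q hq
  have e0 : ∀ f : V → ℤ, ∑ v ∈ A, (if v ∈ W then f v else 0) = ∑ v ∈ W, f v := by
    intro f
    rw [← sum_filter, filter_mem_eq_inter, inter_eq_right.2 hW]
  have e1 : ∑ v ∈ A, (((if v ∈ W then 2 else 1 : ℕ)) : ℤ) = (A.card : ℤ) + W.card := by
    have h2 : ∀ v ∈ A, (((if v ∈ W then 2 else 1 : ℕ)) : ℤ) = 1 + (if v ∈ W then (1 : ℤ) else 0) := by
      intro v _
      split_ifs <;> norm_num
    rw [sum_congr rfl h2, sum_add_distrib, e0 (fun _ => 1), sum_const, sum_const]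
    simp
  have e2 : ∑ v ∈ A, (((if v ∈ W then 2 else 1 : ℕ)) : ℤ)
      * ((((if v ∈ W then 2 else 1 : ℕ)) : ℤ) - 1) = 2 * W.card := by
    have h2 : ∀ v ∈ A, (((if v ∈ W then 2 else 1 : ℕ)) : ℤ)
        * ((((if v ∈ W then 2 else 1 : ℕ)) : ℤ) - 1) = (if v ∈ W then (2 : ℤ) else 0) := by
      intro v _
      split_ifs <;> norm_num
    rw [sum_congr rfl h2, e0 (fun _ => 2), sum_const]
    simp only [nsmul_eq_mul]
    ring
  have e3 : ∑ v ∈ A, (((if v ∈ W then 2 else 1 : ℕ)) : ℤ)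
      * (wnd G (fun u => if u ∈ W then 2 else 1) A v : ℤ)
      = NE G A + 2 * ∑ v ∈ W, (nd G A v : ℤ) + NE G W := by
    have h2 : ∀ v ∈ A, (((if v ∈ W then 2 else 1 : ℕ)) : ℤ)
        * (wnd G (fun u => if u ∈ W then 2 else 1) A v : ℤ)
        = ((nd G A v : ℤ) + nd G W v) + (if v ∈ W then ((nd G A v : ℤ) + nd G W v) else 0) := by
      intro v _
      rw [wnd_double A W hW]
      push_cast
      split_ifs <;> ring
    rw [sum_congr rfl h2, sum_add_distrib, e0 (fun v => (nd G A v : ℤ) + nd G W v),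
      sum_add_distrib, sum_add_distrib]
    have h3 : (∑ v ∈ A, (nd G W v : ℤ)) = ∑ v ∈ W, (nd G A v : ℤ) := by
      exact_mod_cast nd_comm_sum A W
    rw [h3]
    unfold NE
    push_cast
    ring
  rw [e1, e2, e3] at h1
  rw [sum_sub_distrib, sum_const, nsmul_eq_mul]
  nlinarith [h1]

/-- **rows with multiplicities**: the slot `S x` has the weight `ω x` -/
theorem PM.rows (hP : PM G r) {A : Finset V} {S : V → Finset V}
    (hd : ∀ x ∈ A, ∀ y ∈ A, x ≠ y → Disjoint (S x) (S y)) (ω : V → ℕ) (hω : ∀ x ∈ A, 1 ≤ ω x)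
    (q : ℕ) (hq : 1 ≤ q) :
    ((r : ℤ) - 1) * (2 * q * ∑ x ∈ A, (ω x : ℤ) * (S x).card - r * q * (q + 1))
      ≤ ∑ x ∈ A, (ω x : ℤ) ^ 2 * NE G (S x)
        + ∑ x ∈ A, ∑ y ∈ A.erase x, (ω x : ℤ) * ω y * ∑ v ∈ S x, (nd G (S y) v : ℤ)
        + ((r : ℤ) - 1) * ∑ x ∈ A, (ω x : ℤ) * ((ω x : ℤ) - 1) * (S x).card := by
  -- the weight of a vertex
  set f : V → V := fun v => if h : ∃ x ∈ A, v ∈ S x then h.choose else v with hf
  have hf1 : ∀ x ∈ A, ∀ v ∈ S x, f v = x := by
    intro x hx v hv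
    have hex : ∃ y ∈ A, v ∈ S y := ⟨x, hx, hv⟩
    have h1 : f v = hex.choose := by
      rw [hf]
      exact dif_pos hex
    rw [h1]
    by_contra hne
    exact disjoint_left.1 (hd _ hex.choose_spec.1 x hx hne) hex.choose_spec.2 hv
  set w : V → ℕ := fun v => ω (f v) with hwdef
  have hw1 : ∀ x ∈ A, ∀ v ∈ S x, w v = ω x := by
    intro x hx v hv
    rw [hwdef]
    change ω (f v) = ω x
    rw [hf1 x hx v hv]
  have h1 := hP.const (A.biUnion S) w (fun v hv => by
    obtain ⟨x, hx, hvx⟩ := mem_biUnion.1 hv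
    rw [hw1 x hx v hvx]
    exact hω x hx) q hq
  have hpd : (A : Set V).PairwiseDisjoint S := fun x hx y hy hxy => hd x hx y hy hxy
  have e1 : ∑ v ∈ A.biUnion S, (w v : ℤ) = ∑ x ∈ A, (ω x : ℤ) * (S x).card := by
    rw [sum_biUnion hpd]
    refine sum_congr rfl fun x hx => ?_
    rw [sum_congr rfl (fun v hv => by rw [hw1 x hx v hv]), sum_const, nsmul_eq_mul, mul_comm]
  have e2 : ∑ v ∈ A.biUnion S, (w v : ℤ) * ((w v : ℤ) - 1)
      = ∑ x ∈ A, (ω x : ℤ) * ((ω x : ℤ) - 1) * (S x).card := by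
    rw [sum_biUnion hpd]
    refine sum_congr rfl fun x hx => ?_
    rw [sum_congr rfl (fun v hv => by rw [hw1 x hx v hv]), sum_const, nsmul_eq_mul, mul_comm]
  have e4 : ∀ v, (wnd G w (A.biUnion S) v : ℤ) = ∑ y ∈ A, (ω y : ℤ) * nd G (S y) v := by
    intro v
    unfold wnd
    rw [filter_biUnion, sum_biUnion (fun x hx y hy hxy =>
      disjoint_filter_filter (hd x hx y hy hxy))]
    push_cast
    refine sum_congr rfl fun y hy => ?_
    rw [sum_congr rfl (fun u hu => by rw [hw1 y hy u (mem_filter.1 hu).1]), sum_const,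
      nsmul_eq_mul, mul_comm]
    rfl
  have e3 : ∑ v ∈ A.biUnion S, (w v : ℤ) * wnd G w (A.biUnion S) v
      = ∑ x ∈ A, (ω x : ℤ) ^ 2 * NE G (S x)
        + ∑ x ∈ A, ∑ y ∈ A.erase x, (ω x : ℤ) * ω y * ∑ v ∈ S x, (nd G (S y) v : ℤ) := by
    rw [sum_biUnion hpd, ← sum_add_distrib]
    refine sum_congr rfl fun x hx => ?_
    have g1 : ∀ v ∈ S x, (w v : ℤ) * wnd G w (A.biUnion S) v
        = ∑ y ∈ A, (ω x : ℤ) * ω y * nd G (S y) v := by
      intro v hv
      rw [hw1 x hx v hv, e4, mul_sum]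
      exact sum_congr rfl fun y _ => by ring
    rw [sum_congr rfl g1, sum_comm, ← add_sum_erase A _ hx]
    have g2 : ∑ v ∈ S x, (ω x : ℤ) * ω x * nd G (S x) v = (ω x : ℤ) ^ 2 * NE G (S x) := by
      rw [← mul_sum]
      unfold NE
      push_cast
      ring
    rw [g2]
    congr 1
    exact sum_congr rfl fun y _ => (mul_sum _ _ _).symm
  rw [e1, e2, e3] at h1
  exact h1

end PM

section Colour

variable {V : Type*} {r : ℕ} {c : V → V → Fin r} (hc : ∀ x y, c x y = c y x)

/-- the missing weight is the sum of the weighted degrees in the other colours -/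
lemma wnd_col (k : Fin r) (w : V → ℕ) (A : Finset V) (v : V) :
    wnd (col c hc k) w A v = ∑ j ∈ univ.erase k, wdg (col c hc j) w A v := by
  unfold wnd wdg
  have h1 : ∀ j, ∑ u ∈ A.filter (fun u => (col c hc j).Adj v u), w u
      = ∑ u ∈ A, (if (col c hc j).Adj v u then w u else 0) := fun j => sum_filter _ _
  rw [sum_congr rfl (fun j _ => h1 j), sum_comm, sum_filter]
  refine sum_congr rfl fun u _ => ?_
  by_cases huv : u = v
  · subst huv
    rw [if_neg (fun h => h.1 rfl)]
    symm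
    refine sum_eq_zero fun j _ => ?_
    rw [if_neg ((col c hc j).loopless.irrefl u)]
  · by_cases hk : (col c hc k).Adj v u
    · rw [if_neg (fun h => h.2 hk)]
      symm
      refine sum_eq_zero fun j hj => ?_
      rw [if_neg]
      intro hj'
      have h2 : c v u = j := hj'.2
      have h3 : c v u = k := hk.2
      exact (mem_erase.1 hj).1 (h2.symm.trans h3)
    · rw [if_pos ⟨huv, hk⟩]
      have h2 : c v u ∈ univ.erase k := mem_erase.2 ⟨fun h => hk ⟨fun h' => huv h'.symm, h⟩, mem_univ _⟩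
      rw [sum_eq_single (c v u)]
      · rw [if_pos ⟨fun h' => huv h'.symm, rfl⟩]
      · intro j _ hj
        rw [if_neg]
        intro h
        exact hj (Eq.symm h.2)
      · intro h
        exact absurd h2 h

/-- **(PM) holds for every colour** -/
theorem PM_col (hs : Sees c) (k : Fin r) : PM (col c hc k) r := by
  intro A w n hw hn
  have hr : 1 ≤ r := by
    have := k.2
    omega
  have h1 : ∀ j ∈ univ.erase k, ∑ v ∈ A, (w v : ℚ) * (2 * (n v : ℚ)
      - ((w v : ℚ) - 1 + wdg (col c hc j) w A v)) / (n v * (n v + 1)) ≤ r := by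
    intro j _
    refine (sum_le_sum fun v hv => ?_).trans (caro_wei_w' (alpha_le hc hs j A) hw)
    have h2 := tangent_le (w v - 1 + wdg (col c hc j) w A v) (n v) (hn v hv)
    have h3 : ((w v - 1 + wdg (col c hc j) w A v : ℕ) : ℚ)
        = (w v : ℚ) - 1 + wdg (col c hc j) w A v := by
      rw [Nat.cast_add, Nat.cast_sub (hw v hv)]
      push_cast
      ring
    rw [h3] at h2
    have h4 := mul_le_mul_of_nonneg_left h2 (show (0 : ℚ) ≤ w v by positivity)
    rw [mul_div_assoc]
    refine h4.trans (le_of_eq ?_)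
    rw [mul_one_div]
    congr 1
    ring
  have h2 := sum_le_sum h1
  rw [sum_const, card_erase_of_mem (mem_univ k), card_univ, Fintype.card_fin, nsmul_eq_mul,
    sum_comm, Nat.cast_sub hr] at h2
  have h3 : ∀ v ∈ A, (w v : ℚ) * (2 * (n v : ℚ) * ((r : ℚ) - 1)
      - ((r : ℚ) - 1) * ((w v : ℚ) - 1) - wnd (col c hc k) w A v) / (n v * (n v + 1))
      = ∑ j ∈ univ.erase k, (w v : ℚ) * (2 * (n v : ℚ)
      - ((w v : ℚ) - 1 + wdg (col c hc j) w A v)) / (n v * (n v + 1)) := by
    intro v _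
    rw [← sum_div, ← mul_sum, sum_sub_distrib, sum_const, card_erase_of_mem (mem_univ k),
      card_univ, Fintype.card_fin, nsmul_eq_mul, Nat.cast_sub hr, sum_add_distrib, sum_const,
      card_erase_of_mem (mem_univ k), card_univ, Fintype.card_fin, nsmul_eq_mul,
      Nat.cast_sub hr, wnd_col hc k w A v]
    push_cast
    congr 2
    ring
  rw [sum_congr rfl h3]
  refine h2.trans (le_of_eq ?_)
  push_cast
  ring

end Colour

/-- final form for `r ≥ 7` with (PM), hence also (PW) by `PM.pw` -/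
theorem good_of_S2_mtn_pm (r : ℕ) (hr : 7 ≤ r)
    (hS : ∀ (G : SimpleGraph (Fin (r ^ 2 + 1))) (m t : ℕ) (Z T : Finset (Fin (r ^ 2 + 1))),
      PM G r → PG G r → AlphaLe G univ r → m ≤ r → m + 4 ≤ r + t → ¬ S2 G r m t Z T) :
    Good r (r ^ 2 + 1) := by
  intro c hc
  by_contra hcon
  push Not at hcon
  have hs : Sees c := fun S hS k => by
    obtain ⟨x, hx, y, hy, hxy, hk⟩ := hcon S hS k
    exact ⟨x, hx, y, hy, hxy, hk⟩
  obtain ⟨j, m, t, Z, T, h0, h1, h2⟩ := exists_S2_mtn (hc := hc) hs hr (by simp)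
  exact hS _ m t Z T (PM_col hc hs j) (PG_col hc hs j) (alpha_le hc hs j univ) h0 h1 h2

end Pool.Agent.Lib.MP_f04ccf_co
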