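import Pool.Agent.Lib.MP_f04ccf_co.M.CapV

/-!
MP_f04ccf_co, TEXT D: **the capacity of a pair of cells, additive form** (`PConC`).

For two cells `y ≠ w` (neither is the row `z`) the PC pairs of `{y, w}` and the halves `z`-`w` hosted by `y` and `z`-`y`
hosted by `w` share one cap. With `tot ≤ T` it is additive:

* `PConC.pairU`: `Uv y w + Uv w y ≤ R + t y * t w`,
  `Uv y w = (R - T) (be y w + k) + Σ_K (t w - mn w u - be y z) - k ^ 2` (`pUv`);
* `PConC.pairQ`, `PConC.tot_lt`, `PConC.pairU1`: one host: the exact cap, `tot < T` for every `T` above the low root,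
  and the linear form;
* `pairSym`: a symmetrised sum over pairs; `PConC.pairU_sum`: the row term of the one cell form costs nothing.
-/

set_option autoImplicit false

namespace Pool.Agent.Lib.MP_f04ccf_co

open Finset

attribute [local instance] Classical.propDecidable

section PairU

variable {ι : Type*} {R : ℤ} {n : ℕ} {t s mu : ℕ → ℤ} {U : Finset ι} {ho : ι → ℕ} {vl : ι → ℤ}
  {kp mn : ℕ → ι → ℤ} {pc ar : ι → ℤ} {be kq NN sg : ℕ → ℕ → ℤ} {nu : ℕ → ι → ℤ}

/-- the halves `z`-`w` of value one hosted by `y` -/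
def hzw (n : ℕ) (U : Finset ι) (ho : ι → ℕ) (vl : ι → ℤ) (kp : ℕ → ι → ℤ) (pc : ι → ℤ)
    (z y w : ℕ) (u : ι) : Prop :=
  u ∈ U ∧ ho u = y ∧ pc u = 0 ∧ vl u = 1 ∧ kp z u ≠ 0 ∧ kp w u ≠ 0

/-- the part of the cap of `{y, w}` used by the host `y` -/
def pUv (R T : ℤ) (t : ℕ → ℤ) (mn : ℕ → ι → ℤ) (be : ℕ → ℕ → ℤ) (z y w : ℕ) (K : Finset ι) : ℤ :=
  (R - T) * (be y w + (K.card : ℤ)) + ∑ u ∈ K, (t w - mn w u - be y z) - (K.card : ℤ) ^ 2

/-- the ends of a half `z`-`w` are `z` and `w` only -/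
lemma PConC.hzw_ends (H : PConC R n t s mu U ho vl kp mn pc ar be kq NN sg nu) {z y w : ℕ}
    (hz : z < n) (hw : w < n) (hzw' : z ≠ w) (hyz : y ≠ z) (hyw : y ≠ w) {u : ι}
    (hu : hzw n U ho vl kp pc z y w u) :
    ∑ l ∈ ((range n).erase y).erase w, kp l u * be y l = be y z := by
  obtain ⟨h1, h2, h3, h4, h5, h6⟩ := hu
  have hkz : kp z u = 1 := H.kp_one h1 h4 hz h5
  have hkw : kp w u = 1 := H.kp_one h1 h4 hw h6
  have hsum : ∑ i ∈ range n, kp i u = 2 := by
    rcases H.one u h1 with ⟨i, hi, -, -, -, h⟩ | ⟨-, h⟩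
    · exfalso
      by_cases hiz : i = z
      · exact h6 (h w hw fun e => hzw' (hiz ▸ e.symm))
      · exact h5 (h z hz fun e => hiz e.symm)
    · rw [h, h4]; norm_num
  have hz' : z ∈ ((range n).erase y).erase w :=
    mem_erase.2 ⟨hzw', mem_erase.2 ⟨hyz.symm, mem_range.2 hz⟩⟩
  have hzr : z ∈ (range n).erase w := mem_erase.2 ⟨hzw', mem_range.2 hz⟩
  have h0 : ∀ l ∈ ((range n).erase w).erase z, kp l u = 0 := by
    have e1 : ∑ l ∈ (range n).erase w, kp l u = 1 := by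
      have := add_sum_erase (range n) (fun l => kp l u) (mem_range.2 hw)
      rw [hkw, hsum] at this
      linarith
    have e2 : ∑ l ∈ ((range n).erase w).erase z, kp l u = 0 := by
      have := add_sum_erase ((range n).erase w) (fun l => kp l u) hzr
      rw [hkz, e1] at this
      linarith
    intro l hl
    exact (sum_eq_zero_iff_of_nonneg fun l hl =>
      H.k0 u h1 l (mem_range.1 (mem_of_mem_erase (mem_of_mem_erase hl)))).1 e2 l hl
  rw [← add_sum_erase _ _ hz', hkz, one_mul]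
  have e3 : ∑ l ∈ (((range n).erase y).erase w).erase z, kp l u * be y l = 0 := by
    refine sum_eq_zero fun l hl => ?_
    rw [h0 l, zero_mul]
    obtain ⟨a1, a2⟩ := mem_erase.1 hl
    obtain ⟨a3, a4⟩ := mem_erase.1 a2
    exact mem_erase.2 ⟨a1, mem_erase.2 ⟨a3, (mem_erase.1 a4).2⟩⟩
  rw [e3, add_zero]

/-- **the capacity of a pair of cells, additive form** -/
theorem PConC.pairU (H : PConC R n t s mu U ho vl kp mn pc ar be kq NN sg nu) {z y w : ℕ}
    (hz : z < n) (hy : y < n) (hw : w < n) (hyz : y ≠ z) (hwz : w ≠ z) (hyw : y ≠ w)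
    {K K' : Finset ι} (hK : ∀ u ∈ K, hzw n U ho vl kp pc z y w u)
    (hK' : ∀ u ∈ K', hzw n U ho vl kp pc z w y u) {T : ℤ}
    (hT : be y w + be w y + (K.card : ℤ) + (K'.card : ℤ) ≤ T) :
    pUv R T t mn be z y w K + pUv R T t mn be z w y K' ≤ R + t y * t w := by
  have hK0 : K ⊆ U := fun u hu => (hK u hu).1
  have hK0' : K' ⊆ U := fun u hu => (hK' u hu).1
  have hs := svc_two (n := n) (kp := kp) (i := y) (j := w) (vl := vl) (pc := pc) (K := K)
    (K' := K') (fun u hu => ⟨(hK u hu).2.2.1, (hK u hu).2.2.2.1⟩)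
    (fun u hu => ⟨(hK' u hu).2.2.1, (hK' u hu).2.2.2.1⟩) (N := (K.card : ℤ))
    (N' := (K'.card : ℤ)) rfl rfl
  have h0 := H.cap2MS hy hw hyw hK0 hK0'
    (fun u hu => ⟨(hK u hu).2.1, (hK u hu).2.2.1, (hK u hu).2.2.2.1, (hK u hu).2.2.2.2.2⟩)
    (fun u hu => ⟨(hK' u hu).2.1, (hK' u hu).2.2.1, (hK' u hu).2.2.2.1, (hK' u hu).2.2.2.2.2⟩)
    (N := (K.card : ℤ)) (N' := (K'.card : ℤ)) (β := be y w + be w y) rfl rfl rfl hs
  have e1 : ∑ u ∈ K, (R + t w - mn w u - ∑ l ∈ ((range n).erase y).erase w, kp l u * be y l)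
      = R * (K.card : ℤ) + ∑ u ∈ K, (t w - mn w u - be y z) := by
    rw [mul_comm, ← nsmul_eq_mul, ← sum_const, ← sum_add_distrib]
    refine sum_congr rfl fun u hu => ?_
    rw [H.hzw_ends hz hw hwz.symm hyz hyw (hK u hu)]
    ring
  have e2 : ∑ u ∈ K', (R + t y - mn y u - ∑ l ∈ ((range n).erase y).erase w, kp l u * be w l)
      = R * (K'.card : ℤ) + ∑ u ∈ K', (t y - mn y u - be w z) := by
    rw [mul_comm, ← nsmul_eq_mul, ← sum_const, ← sum_add_distrib]
    refine sum_congr rfl fun u hu => ?_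
    have := H.hzw_ends hz hy hyz.symm hwz hyw.symm (hK' u hu)
    rw [erase_right_comm] at this
    rw [this]
    ring
  rw [e1, e2] at h0
  unfold pUv
  obtain ⟨k, hk⟩ : ∃ k : ℤ, k = (K.card : ℤ) := ⟨_, rfl⟩
  obtain ⟨k', hk'⟩ : ∃ k' : ℤ, k' = (K'.card : ℤ) := ⟨_, rfl⟩
  have hk0 : 0 ≤ k := by rw [hk]; positivity
  have hk0' : 0 ≤ k' := by rw [hk']; positivity
  have hb1 := H.be0 y hy w hw
  have hb2 := H.be0 w hw y hy
  rw [← hk, ← hk'] at h0 hT ⊢
  nlinarith [mul_nonneg (show (0 : ℤ) ≤ be y w + be w y + k + k' by linarith) (sub_nonneg.2 hT),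
    sq_nonneg (k - k')]

/-- the cap of `{y, w}` with the PC pairs and a family `K` of halves `z`-`w` hosted by `y`, written out -/
theorem PConC.pairQ (H : PConC R n t s mu U ho vl kp mn pc ar be kq NN sg nu) {z y w : ℕ}
    (hz : z < n) (hy : y < n) (hw : w < n) (hyz : y ≠ z) (hwz : w ≠ z) (hyw : y ≠ w)
    {K : Finset ι} (hK : ∀ u ∈ K, hzw n U ho vl kp pc z y w u) :
    (be y w + be w y + (K.card : ℤ)) * (R - (be y w + be w y + (K.card : ℤ)))
      + ∑ u ∈ K, (t w - mn w u - be y z) ≤ R + t y * t w := by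
  have hK0 : K ⊆ U := fun u hu => (hK u hu).1
  have hs := svc_two (n := n) (kp := kp) (i := y) (j := w) (vl := vl) (pc := pc) (K := K)
    (K' := (∅ : Finset ι)) (fun u hu => ⟨(hK u hu).2.2.1, (hK u hu).2.2.2.1⟩)
    (fun u hu => absurd hu (notMem_empty u)) (N := (K.card : ℤ))
    (N' := ((∅ : Finset ι).card : ℤ)) rfl rfl
  have h0 := H.cap2MS hy hw hyw hK0 (empty_subset U)
    (fun u hu => ⟨(hK u hu).2.1, (hK u hu).2.2.1, (hK u hu).2.2.2.1, (hK u hu).2.2.2.2.2⟩)
    (fun u hu => absurd hu (notMem_empty u))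
    (N := (K.card : ℤ)) (N' := ((∅ : Finset ι).card : ℤ)) (β := be y w + be w y) rfl rfl rfl hs
  have e1 : ∑ u ∈ K, (R + t w - mn w u - ∑ l ∈ ((range n).erase y).erase w, kp l u * be y l)
      = R * (K.card : ℤ) + ∑ u ∈ K, (t w - mn w u - be y z) := by
    rw [mul_comm, ← nsmul_eq_mul, ← sum_const, ← sum_add_distrib]
    refine sum_congr rfl fun u hu => ?_
    rw [H.hzw_ends hz hw hwz.symm hyz hyw (hK u hu)]
    ring
  rw [e1] at h0
  simp only [card_empty, sum_empty, Nat.cast_zero, add_zero, mul_zero, zero_mul] at h0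
  nlinarith

/-- **the PC pairs of `{y, w}` and the halves `z`-`w` of the host `y` lie below every `T` above the low root**
(`L` bounds the negative parts of `t w - mn w u - be y z`; `L = 0` if `mn w u + be y z ≤ t w`) -/
theorem PConC.tot_lt (H : PConC R n t s mu U ho vl kp mn pc ar be kq NN sg nu) {z y w : ℕ}
    (hz : z < n) (hy : y < n) (hw : w < n) (hyz : y ≠ z) (hwz : w ≠ z) (hyw : y ≠ w)
    {K : Finset ι} (hK : ∀ u ∈ K, hzw n U ho vl kp pc z y w u) {T L : ℤ}
    (hL : ∀ K₀ ⊆ K, - L ≤ ∑ u ∈ K₀, (t w - mn w u - be y z)) (hT0 : 0 ≤ T)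
    (hT : R + t y * t w + L < T * (R - T)) :
    be y w + be w y + (K.card : ℤ) < T := by
  by_contra hc
  push Not at hc
  have hL0 : 0 ≤ L := by
    have := hL ∅ (empty_subset K)
    simp only [sum_empty] at this
    linarith
  rcases le_or_gt T (be y w + be w y) with h1 | h1
  · have h2 := H.jsub y hy w hw hyw T.toNat (by rw [Int.toNat_of_nonneg hT0]; exact h1)
    rw [Int.toNat_of_nonneg hT0] at h2
    nlinarith
  · obtain ⟨m, hm⟩ := Int.eq_ofNat_of_zero_le (show (0 : ℤ) ≤ T - (be y w + be w y) by linarith)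
    have hmK : m ≤ K.card := by
      have : (m : ℤ) ≤ (K.card : ℤ) := by
        have hm' : ((m : ℕ) : ℤ) = T - (be y w + be w y) := hm.symm
        rw [hm']
        linarith
      exact_mod_cast this
    obtain ⟨K₀, hK₀, hc₀⟩ := exists_subset_card_eq hmK
    have h2 := H.pairQ hz hy hw hyz hwz hyw (K := K₀) (fun u hu => hK u (hK₀ hu))
    have h3 := hL K₀ hK₀
    have h4 : be y w + be w y + (K₀.card : ℤ) = T := by
      rw [hc₀]
      have hm' : ((m : ℕ) : ℤ) = T - (be y w + be w y) := hm.symm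
      rw [hm']
      ring
    rw [h4] at h2
    linarith

/-- **one host, linear form** (82's (f5)) -/
theorem PConC.pairU1 (H : PConC R n t s mu U ho vl kp mn pc ar be kq NN sg nu) {z y w : ℕ}
    (hz : z < n) (hy : y < n) (hw : w < n) (hyz : y ≠ z) (hwz : w ≠ z) (hyw : y ≠ w)
    {K : Finset ι} (hK : ∀ u ∈ K, hzw n U ho vl kp pc z y w u) {T : ℤ}
    (hT : be y w + be w y + (K.card : ℤ) ≤ T) :
    (R - T) * (be y w + be w y + (K.card : ℤ)) + ∑ u ∈ K, (t w - mn w u - be y z)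
      ≤ R + t y * t w := by
  have h1 := H.pairQ hz hy hw hyz hwz hyw hK
  have hb1 := H.be0 y hy w hw
  have hb2 := H.be0 w hw y hy
  have hk0 : (0 : ℤ) ≤ (K.card : ℤ) := by positivity
  nlinarith [mul_nonneg (show (0 : ℤ) ≤ be y w + be w y + (K.card : ℤ) by linarith)
    (sub_nonneg.2 hT)]

/-- a symmetrised sum over ordered pairs -/
lemma pairSym {J : Finset ℕ} {f : ℕ → ℕ → ℤ}
    (hf : ∀ y ∈ J, ∀ w ∈ J, y ≠ w → f y w + f w y ≤ 0) :
    ∑ y ∈ J, ∑ w ∈ J.erase y, f y w ≤ 0 := by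
  have h1 : ∑ y ∈ J, ∑ w ∈ J.erase y, f y w = ∑ y ∈ J, ∑ w ∈ J.erase y, f w y := by
    rw [sum_sigma', sum_sigma']
    refine sum_nbij' (fun p => ⟨p.2, p.1⟩) (fun p => ⟨p.2, p.1⟩) ?_ ?_ ?_ ?_ ?_
    · rintro ⟨a, b⟩ h
      simp only [mem_sigma, mem_erase] at h ⊢
      exact ⟨h.2.2, fun e => h.2.1 e.symm, h.1⟩
    · rintro ⟨a, b⟩ h
      simp only [mem_sigma, mem_erase] at h ⊢
      exact ⟨h.2.2, fun e => h.2.1 e.symm, h.1⟩
    · intro _ _; rfl
    · intro _ _; rfl
    · intro _ _; rfl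
  have h2 : ∑ y ∈ J, ∑ w ∈ J.erase y, f y w + ∑ y ∈ J, ∑ w ∈ J.erase y, f w y ≤ 0 := by
    rw [← sum_add_distrib]
    refine sum_nonpos fun y hy => ?_
    rw [← sum_add_distrib]
    exact sum_nonpos fun w hw =>
      hf y hy w (mem_of_mem_erase hw) fun e => (mem_erase.1 hw).1 e.symm
  linarith

/-- **the row term of the one cell form costs nothing**: `P y` the other ends of the served halves of the cell `y` which
are counted, `K y w` any family of them -/
theorem PConC.pairU_sum (H : PConC R n t s mu U ho vl kp mn pc ar be kq NN sg nu) {z : ℕ}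
    (hz : z < n) {J : Finset ℕ} (hJ : J ⊆ (range n).erase z) {P : ℕ → Finset ℕ}
    (hP : ∀ y ∈ J, P y ⊆ J.erase y) {K : ℕ → ℕ → Finset ι}
    (hK : ∀ y ∈ J, ∀ w ∈ P y, ∀ u ∈ K y w, hzw n U ho vl kp pc z y w u) {T : ℤ}
    (hT : ∀ y ∈ J, ∀ w ∈ P y, be y w + be w y + ((K y w).card : ℤ)
      + (if y ∈ P w then ((K w y).card : ℤ) else 0) ≤ T) (hTR : T ≤ R) :
    ∑ y ∈ J, (2 * ∑ w ∈ P y, (pUv R T t mn be z y w (K y w) - R)
      - t y * ∑ w ∈ J.erase y, t w) ≤ 0 := by
  have hJn : ∀ y ∈ J, y < n ∧ y ≠ z := fun y hy =>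
    ⟨mem_range.1 (mem_of_mem_erase (hJ hy)), (mem_erase.1 (hJ hy)).1⟩
  have hR : 0 ≤ R := by
    have h1 := H.tsum
    have h2 : 0 ≤ ∑ i ∈ range n, (t i + 1) := sum_nonneg fun i hi => by
      have := H.t0 i (mem_range.1 hi)
      linarith
    linarith
  have e1 : ∀ y ∈ J, (2 * ∑ w ∈ P y, (pUv R T t mn be z y w (K y w) - R)
      - t y * ∑ w ∈ J.erase y, t w)
      = ∑ w ∈ J.erase y, ((if w ∈ P y then 2 * (pUv R T t mn be z y w (K y w) - R) else 0)
        - t y * t w) := by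
    intro y hy
    have a1 : ∑ w ∈ J.erase y, ((if w ∈ P y then 2 * (pUv R T t mn be z y w (K y w) - R) else 0)
        - t y * t w) = ∑ w ∈ J.erase y, (if w ∈ P y then 2 * (pUv R T t mn be z y w (K y w) - R)
          else 0) - t y * ∑ w ∈ J.erase y, t w := by
      rw [sum_sub_distrib, mul_sum]
    have a2 : ∑ w ∈ J.erase y, (if w ∈ P y then 2 * (pUv R T t mn be z y w (K y w) - R) else 0)
        = 2 * ∑ w ∈ P y, (pUv R T t mn be z y w (K y w) - R) := by
      rw [← sum_filter, mul_sum]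
      refine sum_congr ?_ fun _ _ => rfl
      ext w
      simp only [mem_filter]
      exact ⟨fun h => h.2, fun h => ⟨hP y hy h, h⟩⟩
    rw [a1, a2]
  rw [sum_congr rfl e1]
  refine pairSym fun y hy w hw hyw => ?_
  obtain ⟨hyn, hyz⟩ := hJn y hy
  obtain ⟨hwn, hwz⟩ := hJn w hw
  have hty := H.t0 y hyn
  have htw := H.t0 w hwn
  have htt : 0 ≤ t y * t w := mul_nonneg hty htw
  have hzero : ∀ a b : ℕ, a < n → b < n → 0 ≤ pUv R T t mn be z a b (∅ : Finset ι) := by
    intro a b ha hb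
    unfold pUv
    have := mul_nonneg (sub_nonneg.2 hTR) (H.be0 a ha b hb)
    simp only [card_empty, Nat.cast_zero, add_zero, sum_empty]
    nlinarith
  by_cases h1 : w ∈ P y <;> by_cases h2 : y ∈ P w
  · rw [if_pos h1, if_pos h2]
    have h3 := H.pairU hz hyn hwn hyz hwz hyw (K := K y w) (K' := K w y) (hK y hy w h1)
      (hK w hw y h2) (T := T) (by
        have := hT y hy w h1
        rw [if_pos h2] at this
        exact this)
    nlinarith
  · rw [if_pos h1, if_neg h2]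
    have h3 := H.pairU hz hyn hwn hyz hwz hyw (K := K y w) (K' := ∅) (hK y hy w h1)
      (fun u hu => absurd hu (notMem_empty u)) (T := T) (by
        have := hT y hy w h1
        rw [if_neg h2] at this
        simpa using this)
    have h4 := hzero w y hwn hyn
    nlinarith
  · rw [if_neg h1, if_pos h2]
    have h3 := H.pairU hz hwn hyn hwz hyz hyw.symm (K := K w y) (K' := ∅) (hK w hw y h2)
      (fun u hu => absurd hu (notMem_empty u)) (T := T) (by
        have := hT w hw y h2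
        rw [if_neg h1] at this
        simpa using this)
    have h4 := hzero y w hyn hwn
    nlinarith
  · rw [if_neg h1, if_neg h2]
    nlinarith

end PairU

end Pool.Agent.Lib.MP_f04ccf_co
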