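import Pool.Agent.Lib.MP_f04ccf_co.M.CapM

/-!
MP_f04ccf_co, finite part: **the value of the ends of one host at a row**, two levels.
`LvI.rowT` the row test for plain ends of a host with `Q` ends of PC pairs in front (no condition on the
number of ends), `pd` the PC items of the host which are in front; `LvI.hostV` the values `D`, `D - 1`, `0`
with one threshold `m` for the first level and any thresholds `a2 z` for the second one.
-/

set_option autoImplicit false

namespace Pool.Agent.Lib.MP_f04ccf_co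

open Finset

attribute [local instance] Classical.propDecidable

namespace LvI

open Lv CapM

variable {ι : Type*} {R : ℤ} {n : ℕ} {t s h e : ℕ → ℤ} {U : Finset ι} {ho : ι → ℕ} {vl : ι → ℤ}
  {kp ms mr mn : ℕ → ι → ℤ} {mu : ℕ → ℤ} {be : ℕ → ℕ → ℤ} {pc ar : ι → ℤ}

/-- the row test is true for few ends -/
lemma few {R s t e k H : ℤ} (h1 : 0 ≤ t + s + 1) (h2 : t + 1 ≤ R) (he : 0 ≤ e) (hk : 0 ≤ k)
    (hs : s + k < 0) (hH : H ≤ k * (R - t)) :
    R * s + H ≤ e + 2 * k * (s + 1) + k * (2 * k - 1) := by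
  have h3 : R * s + k * (R - t) ≤ 2 * k * (s + 1) + k * (2 * k - 1) := by
    rcases le_or_gt (2 * k) R with h4 | h4
    · nlinarith [mul_nonneg (sub_nonneg.2 h4) (show 0 ≤ -s - k - 1 by linarith),
        mul_nonneg hk (show 0 ≤ t - k by linarith)]
    · nlinarith [mul_nonneg (show 0 ≤ 2 * k - R by linarith) h1,
        mul_nonneg (show 0 ≤ R - k by linarith) (show 0 ≤ t + 1 by linarith),
        mul_nonneg hk (show 0 ≤ 2 * k - R by linarith)]
  linarith

/-- **the row test for plain ends of one host**, with `Q` ends of PC pairs in front -/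
theorem rowT (L : LvI R n t s h e U ho vl kp ms mr mn mu be pc ar)
    (m0 : ∀ u ∈ U, ∀ i < n, 0 ≤ ms i u)
    (hmk : ∀ u ∈ U, ∀ i < n, mr i u ≤ kp i u * (R - t i)) (hkh : ∀ u ∈ U, kp (ho u) u = 0)
    (hp : ∀ u ∈ U, pc u = 0 ∨ pc u = 1) {pd : ι → ℤ}
    (hpd : ∀ u ∈ U, pd u = 0 ∨ pd u = 1 ∧ pc u = 1) {x z : ℕ} (hz : z < n) (hzx : z ≠ x) {Q : ℕ}
    (hh : h z = t z + s z + 1) (h0 : 0 ≤ h z) (tR : t z + 1 ≤ R) (e0 : 0 ≤ e z)
    (hQ : (Q : ℤ) ≤ ∑ u ∈ U, (if ho u = x then pd u else pc u) * kp z u)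
    {K : Finset (ι × ℕ)} (hK : K ⊆ plE U ho kp pd x z) :
    R * s z + Q * (R - t z) + ∑ a ∈ K, (R - t z - bm kp mn z a)
      ≤ e z + 2 * (K.card + Q) * (s z + 1) + (K.card + Q) * (2 * (K.card + Q) - 1) := by
  set PE := (U.filter fun u => (if ho u = x then pd u else pc u) = 1 ∧ kp z u = 1).image
    fun u => (u, 0) with hPE
  have hpcd : ∀ u ∈ U, (if ho u = x then pd u else pc u) = 0 ∨
      (if ho u = x then pd u else pc u) = 1 ∧ pc u = 1 := by
    intro u hu
    split_ifs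
    · exact hpd u hu
    · rcases hp u hu with h1 | h1
      · exact Or.inl h1
      · exact Or.inr ⟨h1, h1⟩
  have hPc : (PE.card : ℤ) = ∑ u ∈ U, (if ho u = x then pd u else pc u) * kp z u := by
    rw [hPE, card_image_of_injective _ (fun a b hab => (Prod.ext_iff.1 hab).1),
      card_eq_sum_ones, sum_filter]
    push_cast
    refine sum_congr rfl fun u hu => ?_
    rcases hpcd u hu with h1 | ⟨h1, h1'⟩
    · rw [h1]
      norm_num
    · rcases (L.pc_data m0 hmk hu h1' hz).2 with h2 | h2 <;> rw [h1, h2] <;> norm_num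
  have hqc : Q ≤ PE.card := by
    have h1 : (Q : ℤ) ≤ PE.card := by linarith
    exact_mod_cast h1
  obtain ⟨K', hK', hKq⟩ := exists_subset_card_eq hqc
  have hd : Disjoint K K' := by
    rw [disjoint_left]
    intro a ha ha'
    obtain ⟨u, hu, rfl⟩ := mem_image.1 (hK' ha')
    obtain ⟨-, h1, h2, -⟩ := mem_plE.1 (hK ha)
    have h3 := (mem_filter.1 hu).2.1
    dsimp only at h1 h2
    rw [if_pos h1, h2] at h3
    norm_num at h3
  have hKK : K ∪ K' ⊆ ens U ho kp z := by
    refine union_subset (hK.trans (plE_sub hzx)) fun a ha => ?_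
    obtain ⟨u, hu, rfl⟩ := mem_image.1 (hK' ha)
    obtain ⟨hu1, hu2, hu3⟩ := mem_filter.1 hu
    refine mem_ens.2 ⟨hu1, fun h1 => ?_, by norm_num, by dsimp only; rw [hu3]; norm_num⟩
    have h2 := hkh u hu1
    dsimp only at h1
    rw [h1, hu3] at h2
    norm_num at h2
  have hcd : ((K ∪ K').card : ℤ) = K.card + Q := by
    rw [card_union_of_disjoint hd, hKq]
    push_cast
    rfl
  have h2 : ∑ a ∈ K', (R - t z - bm kp mn z a) = Q * (R - t z) := by
    rw [← hKq, ← nsmul_eq_mul, ← sum_const]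
    refine sum_congr rfl fun a ha => ?_
    obtain ⟨u, hu, rfl⟩ := mem_image.1 (hK' ha)
    obtain ⟨hu1, hu2, hu3⟩ := mem_filter.1 hu
    have hpu : pc u = 1 := by
      rcases hpcd u hu1 with h4 | h4
      · rw [h4] at hu2
        norm_num at hu2
      · exact h4.2
    unfold bm
    rw [if_pos (by dsimp only; rw [hu3]; norm_num)]
    dsimp only
    rw [(L.pc_data m0 hmk hu1 hpu hz).1]
    ring
  by_cases h5 : 0 ≤ s z + ((K ∪ K').card : ℤ)
  · have h1 := L.tE m0 hz hKK h5
    rw [sum_union hd, h2, hcd] at h1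
    linarith
  · rw [hcd] at h5
    have hb : ∀ a ∈ K, R - t z - bm kp mn z a ≤ R - t z := by
      intro a ha
      have h6 := (mem_plE.1 (hK ha)).1
      have h7 : 0 ≤ bm kp mn z a := by
        unfold bm
        split_ifs
        · exact (m0 _ h6 z hz).trans (L.msn _ h6 z hz)
        · exact le_rfl
      linarith
    have h6 := sum_le_sum hb
    rw [sum_const, nsmul_eq_mul] at h6
    have h7 := few (R := R) (s := s z) (t := t z) (e := e z) (k := (K.card : ℤ) + Q)
      (H := Q * (R - t z) + ∑ a ∈ K, (R - t z - bm kp mn z a)) (by rw [← hh]; exact h0 |>.trans (by linarith)) tR e0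
      (by positivity) (by linarith) (by linarith)
    linarith

/-- the number of plain ends with at most `m` misses -/
noncomputable def nE (U : Finset ι) (ho : ι → ℕ) (kp mn : ℕ → ι → ℤ) (pd : ι → ℤ) (x z : ℕ)
    (m : ℤ) : ℕ := ((plE U ho kp pd x z).filter fun a => bm kp mn z a ≤ m).card

/-- the value of an end with two levels -/
noncomputable def w2 (D m a b : ℤ) : ℤ := if b ≤ m then D else if b ≤ a then D - 1 else 0

/-- the value of the plain ends of a host at a row -/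
lemma sum_w2 {D m a : ℤ} (hma : m ≤ a) {pd : ι → ℤ} {x z : ℕ} :
    ∑ v ∈ plE U ho kp pd x z, w2 D m a (bm kp mn z v)
      = (D - 1) * nE U ho kp mn pd x z a + nE U ho kp mn pd x z m := by
  have h1 : ∀ v ∈ plE U ho kp pd x z, w2 D m a (bm kp mn z v)
      = (D - 1) * (if bm kp mn z v ≤ a then 1 else 0) + (if bm kp mn z v ≤ m then 1 else 0) := by
    intro v _
    unfold w2
    by_cases h2 : bm kp mn z v ≤ m
    · rw [if_pos h2, if_pos h2, if_pos (h2.trans hma)]
      ring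
    · rw [if_neg h2, if_neg h2]
      split_ifs <;> ring
  rw [sum_congr rfl h1, sum_add_distrib, ← mul_sum]
  unfold nE
  rw [card_filter, card_filter]
  push_cast
  rfl

/-- **the test of one host, two levels**: first threshold `m` for all rows, second thresholds `a2 z` -/
theorem hostV (L : LvI R n t s h e U ho vl kp ms mr mn mu be pc ar)
    (m0 : ∀ u ∈ U, ∀ i < n, 0 ≤ ms i u) (hk0 : ∀ u ∈ U, ∀ i < n, 0 ≤ kp i u)
    (hmk : ∀ u ∈ U, ∀ i < n, mr i u ≤ kp i u * (R - t i)) (hkh : ∀ u ∈ U, kp (ho u) u = 0)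
    {x : ℕ} (hx : x < n) (hmu : mu x = ∑ u ∈ U.filter (fun u => ho u = x), vl u)
    {m : ℤ} (hm : 0 ≤ m) {a2 : ℕ → ℤ} (ha : ∀ z, m ≤ a2 z)
    (hV : ∀ y < n, ∀ z < n, y ≠ z → y ≠ x → z ≠ x → R + t y * t z < (m + 1) * (a2 z + 1))
    {pd : ℕ → ι → ℤ} (hpd : ∀ z < n, ∀ u ∈ U, pd z u = 0 ∨ pd z u = 1 ∧ pc u = 1) :
    ((n : ℤ) - 1) * mu x ≤ ∑ z ∈ (range n).erase x, (((n : ℤ) - 1)
      * ∑ u ∈ U.filter (fun u => ho u = x), pd z u * kp z u
      + ((((n : ℤ) - 1) - 1) * nE U ho kp mn (pd z) x z (a2 z) + nE U ho kp mn (pd z) x z m)) := by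
  set D : ℤ := (n : ℤ) - 1 with hD
  have hn1 : (1 : ℤ) ≤ n := by
    have : 1 ≤ n := by omega
    exact_mod_cast this
  have hD0 : 0 ≤ D := by linarith
  have w0 : ∀ z, w2 D m (a2 z) 0 = D := fun z => by
    unfold w2
    rw [if_pos hm]
  have h1 : ∀ u ∈ U.filter (fun u => ho u = x),
      D * vl u ≤ ∑ i ∈ range n, (D * kp i u - (D - w2 D m (a2 i) (mn i u))) := by
    intro u hu
    obtain ⟨hu1, hu2⟩ := mem_filter.1 hu
    have hkx : kp x u = 0 := by
      rw [← hu2]
      exact hkh u hu1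
    refine L.pot m0 hmk (δ := fun i b => D - w2 D m (a2 i) b) (fun i _ => by
      rw [w0]
      ring) hu1 fun b hb hbc hbz hbb => ?_
    have hbx := hbz x hx hkx
    by_cases hex : ∃ i < n, i ≠ x ∧ a2 i < b i
    · obtain ⟨i, hi, hix, hib⟩ := hex
      rw [← add_sum_erase _ _ (mem_range.2 hi), sum_eq_zero, add_zero]
      · unfold w2
        rw [if_neg (not_le.2 ((ha i).trans_lt hib)), if_neg (not_le.2 hib)]
        linarith
      · intro j hj
        have hjn := mem_range.1 (mem_of_mem_erase hj)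
        have hji := ne_of_mem_erase hj
        by_cases hjx : j = x
        · rw [hjx, hbx, w0]
          ring
        · have hjm : b j ≤ m := by
            by_contra h2
            push Not at h2
            have h3 := hbb j hjn i hi hji
            have h4 := hV j hjn i hi hji hjx hix
            have h5 : (m + 1) * (a2 i + 1) ≤ b j * b i :=
              mul_le_mul (by linarith) (by linarith) (by linarith [ha i]) (hb j hjn)
            linarith
          unfold w2
          rw [if_pos hjm]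
          ring
    · push Not at hex
      rw [← add_sum_erase _ _ (mem_range.2 hx), hbx, w0, sub_self, zero_add]
      have h2 : ∀ i ∈ (range n).erase x, D - w2 D m (a2 i) (b i) ≤ 1 := by
        intro i hi
        have h3 := hex i (mem_range.1 (mem_of_mem_erase hi)) (ne_of_mem_erase hi)
        unfold w2
        split_ifs
        · linarith
        · linarith
      have h3 := sum_le_sum h2
      rw [sum_const, card_erase_of_mem (mem_range.2 hx), card_range, nsmul_eq_mul, mul_one] at h3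
      have h4 : ((n - 1 : ℕ) : ℤ) = D := by
        rw [Nat.cast_sub (by omega), hD]
        norm_num
      rw [h4] at h3
      exact h3
  have h2 : D * mu x ≤ ∑ z ∈ range n, ∑ u ∈ U.filter (fun u => ho u = x),
      (D * kp z u - (D - w2 D m (a2 z) (mn z u))) := by
    rw [sum_comm, hmu, mul_sum]
    exact sum_le_sum h1
  rw [← add_sum_erase _ _ (mem_range.2 hx)] at h2
  have h3 : ∑ u ∈ U.filter (fun u => ho u = x), (D * kp x u - (D - w2 D m (a2 x) (mn x u))) = 0 := by
    refine sum_eq_zero fun u hu => ?_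
    obtain ⟨hu1, hu2⟩ := mem_filter.1 hu
    have h4 := hkh u hu1
    rw [hu2] at h4
    rw [L.mn_zero m0 hmk hu1 hx h4, h4, w0]
    ring
  rw [h3, zero_add] at h2
  refine h2.trans (sum_le_sum fun z hz => le_of_eq ?_)
  have hzn := mem_range.1 (mem_of_mem_erase hz)
  have hk0z : ∀ u ∈ U, 0 ≤ kp z u := fun u hu => hk0 u hu z hzn
  have hk2z : ∀ u ∈ U, kp z u ≤ 2 := fun u hu => L.k2 u hu z hzn
  rw [← sum_w2 (ha z), ← sum_filter_add_sum_filter_not _ (fun u => pd z u = 0), add_comm]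
  congr 1
  · rw [mul_sum, sum_filter]
    refine sum_congr rfl fun u hu => ?_
    have hu' := (mem_filter.1 hu).1
    rcases hpd z hzn u hu' with h7 | ⟨h7, h8⟩
    · rw [h7]
      norm_num
    · rw [(L.pc_data m0 hmk hu' h8 hzn).1, h7, w0]
      norm_num
  · rw [sum_plE hk0z hk2z fun b => w2 D m (a2 z) b]
    refine sum_congr rfl fun u hu => ?_
    have hu' := (mem_filter.1 (mem_filter.1 hu).1).1
    have h5 := hk0z u hu'
    have h6 := hk2z u hu'
    rcases (by omega : kp z u = 0 ∨ kp z u = 1 ∨ kp z u = 2) with h7 | h7 | h7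
    · rw [if_pos h7, L.mn_zero m0 hmk hu' hzn h7, h7, w0]
      ring
    · rw [h7, if_neg (by norm_num), if_pos rfl]
      ring
    · rw [h7, if_neg (by norm_num), if_neg (by norm_num), w0]
      ring

/-- the hits of the plain ends -/
lemma hits_plE (L : LvI R n t s h e U ho vl kp ms mr mn mu be pc ar)
    (m0 : ∀ u ∈ U, ∀ i < n, 0 ≤ ms i u) (hk0 : ∀ u ∈ U, ∀ i < n, 0 ≤ kp i u)
    (hmk : ∀ u ∈ U, ∀ i < n, mr i u ≤ kp i u * (R - t i)) {pd : ι → ℤ}
    (hpd : ∀ u ∈ U, pd u = 0 ∨ pd u = 1 ∧ pc u = 1) {x z : ℕ} (hz : z < n) :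
    ∑ a ∈ plE U ho kp pd x z, (R - t z - bm kp mn z a)
      ≤ ∑ u ∈ U.filter (fun u => ho u = x), (1 - pd u) * (kp z u * (R - t z) - ms z u) := by
  rw [sum_plE (fun u hu => hk0 u hu z hz) (fun u hu => L.k2 u hu z hz) fun b => R - t z - b]
  rw [sum_filter]
  refine sum_le_sum fun u hu => ?_
  have hu' := (mem_filter.1 hu).1
  have h1 := L.msn u hu' z hz
  rcases hpd u hu' with h2 | ⟨h2, -⟩
  · rw [h2, if_pos rfl]
    simp only [sub_zero, one_mul]
    have h3 := hk0 u hu' z hz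
    have h4 := L.k2 u hu' z hz
    rcases (by omega : kp z u = 0 ∨ kp z u = 1 ∨ kp z u = 2) with h5 | h5 | h5
    · have h6 := L.mn_zero m0 hmk hu' hz h5
      rw [if_pos h5, h5]
      linarith
    · rw [h5]
      norm_num
      linarith
    · rw [h5]
      norm_num
      linarith
  · rw [h2]
    norm_num

/-- the number of ends by the hits -/
lemma nE_hits (L : LvI R n t s h e U ho vl kp ms mr mn mu be pc ar)
    (m0 : ∀ u ∈ U, ∀ i < n, 0 ≤ ms i u) (hk0 : ∀ u ∈ U, ∀ i < n, 0 ≤ kp i u)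
    (hmk : ∀ u ∈ U, ∀ i < n, mr i u ≤ kp i u * (R - t i)) {pd : ι → ℤ}
    (hpd : ∀ u ∈ U, pd u = 0 ∨ pd u = 1 ∧ pc u = 1) {x z : ℕ} (hz : z < n) {m : ℤ}
    (hc : 0 ≤ R - t z) :
    (nE U ho kp mn pd x z m : ℤ) * (R - t z - m)
      ≤ ∑ u ∈ U.filter (fun u => ho u = x), (1 - pd u) * (kp z u * (R - t z) - ms z u) := by
  refine le_trans ?_ (L.hits_plE m0 hk0 hmk hpd hz)
  have hbm : ∀ a ∈ plE U ho kp pd x z, 0 ≤ R - t z - bm kp mn z a := by
    intro a ha
    have h1 := (mem_plE.1 ha).1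
    unfold bm
    split_ifs
    · linarith [L.mnc _ h1 z hz]
    · linarith
  refine le_trans ?_ (sum_le_sum_of_subset_of_nonneg (filter_subset (fun a => bm kp mn z a ≤ m)
    (plE U ho kp pd x z)) fun a ha _ => hbm a ha)
  unfold nE
  rw [← nsmul_eq_mul, ← sum_const]
  refine sum_le_sum fun a ha => ?_
  have := (mem_filter.1 ha).2
  linarith

/-- the number of ends by the size of the home -/
lemma nE_host (L : LvI R n t s h e U ho vl kp ms mr mn mu be pc ar)
    (hk0 : ∀ u ∈ U, ∀ i < n, 0 ≤ kp i u) (hp : ∀ u ∈ U, pc u = 0 ∨ pc u = 1) {pd : ι → ℤ}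
    (hpd : ∀ u ∈ U, pd u = 0 ∨ pd u = 1 ∧ pc u = 1) {x z : ℕ} (hx : x < n) (hz : z < n) {m : ℤ} :
    (nE U ho kp mn pd x z m : ℤ) ≤ h x := by
  have h1 : nE U ho kp mn pd x z m ≤ (plE U ho kp pd x z).card := card_filter_le _ _
  have h2 : (nE U ho kp mn pd x z m : ℤ) ≤ (plE U ho kp pd x z).card := by exact_mod_cast h1
  refine h2.trans ?_
  rw [card_plE (fun u hu => hk0 u hu z hz) (fun u hu => L.k2 u hu z hz)]
  refine le_trans ?_ (L.prv x hx)
  rw [sum_filter]
  refine sum_le_sum fun u hu => ?_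
  have hu' := (mem_filter.1 hu).1
  have h8 : kp z u ≤ ∑ i ∈ range n, kp i u :=
    single_le_sum (f := fun i => kp i u) (fun i hi => hk0 u hu' i (mem_range.1 hi))
      (mem_range.2 hz)
  rcases L.one u hu' with ⟨j, hj, h9, h10, h11, h12⟩ | ⟨h9, h10⟩
  · have h13 : ∑ i ∈ range n, kp i u = 1 := by
      rw [← add_sum_erase _ _ (mem_range.2 hj), h9,
        sum_eq_zero fun i hi => h12 i (mem_range.1 (mem_of_mem_erase hi)) (ne_of_mem_erase hi)]
      ring
    rcases hp u hu' with h14 | h14 <;> rw [h14, h10] <;> split_ifs <;> linarith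
  · rcases hpd u hu' with h11 | ⟨h11, h12⟩
    · rw [h9, if_pos h11]
      linarith
    · rw [h9] at h12
      norm_num at h12

/-- the number of ends by the row test -/
lemma nE_row (L : LvI R n t s h e U ho vl kp ms mr mn mu be pc ar)
    (m0 : ∀ u ∈ U, ∀ i < n, 0 ≤ ms i u)
    (hmk : ∀ u ∈ U, ∀ i < n, mr i u ≤ kp i u * (R - t i)) (hkh : ∀ u ∈ U, kp (ho u) u = 0)
    (hp : ∀ u ∈ U, pc u = 0 ∨ pc u = 1) {pd : ι → ℤ}
    (hpd : ∀ u ∈ U, pd u = 0 ∨ pd u = 1 ∧ pc u = 1) {x z : ℕ} (hz : z < n) (hzx : z ≠ x) {Q : ℕ}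
    (hh : h z = t z + s z + 1) (h0 : 0 ≤ h z) (tR : t z + 1 ≤ R) (e0 : 0 ≤ e z)
    (hQ : (Q : ℤ) ≤ ∑ u ∈ U, (if ho u = x then pd u else pc u) * kp z u) {m : ℤ} {j : ℕ}
    (hj : j ≤ nE U ho kp mn pd x z m) :
    R * s z + Q * (R - t z) + j * (R - t z - m)
      ≤ e z + 2 * (j + Q) * (s z + 1) + (j + Q) * (2 * (j + Q) - 1) := by
  unfold nE at hj
  obtain ⟨K, hK, hKc⟩ := exists_subset_card_eq hj
  have h1 := L.rowT m0 hmk hkh hp hpd hz hzx hh h0 tR e0 hQ (hK.trans (filter_subset _ _))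
  rw [hKc] at h1
  have h2 : (j : ℤ) * (R - t z - m) ≤ ∑ a ∈ K, (R - t z - bm kp mn z a) := by
    rw [← hKc, ← nsmul_eq_mul, ← sum_const]
    refine sum_le_sum fun a ha => ?_
    have := (mem_filter.1 (hK ha)).2
    linarith
  linarith

end LvI

end Pool.Agent.Lib.MP_f04ccf_co
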