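import Pool.Agent.Lib.MP_f04ccf_co.M.RowCG

/-!
MP_f04ccf_co: the cell pays in the row test of `z` with the columns of `y`.

* `Fam.cell_half`: the free class edges of the columns outside the used points `W` and the edges from the used
  members to the members of `z` pay the free arcs of the PC members of `z` with tail `y` above the adjacent pairs
  and all free arcs of the N-ends with tail `y`;
* `Fam.rowE_cell`: the row test with this payment.
-/

set_option autoImplicit false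

namespace Pool.Agent.Lib.MP_f04ccf_co

open Finset

attribute [local instance] Classical.propDecidable

section PayC

variable {V : Type*} {G : SimpleGraph V} {Z T : Finset V} {hm : V → V} {r m t : ℕ}
  {A : Finset V} {S : V → Finset V} {U : V → Finset (Itm V)}

lemma mem_msC {C : Finset V} {w a : V} : a ∈ msC G C w ↔ a ∈ C ∧ ¬ G.Adj w a := by
  unfold msC
  exact mem_filter

/-- **the cell pays, with used class points** -/
theorem Fam.cell_half (hF : PFrame G r m t Z T) (hh : Homes G Z T hm) (hC : CSys G Z T hm A S)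
    (hW : WSysT G (co G) A (CP G Z T S) (HP G Z T S) (tlo G T hm))
    (h : ∀ x ∈ A, Fam (co G) (CP G Z T S) (HP G Z T S) (tlo G T hm) x (U x))
    {z y : V} (hz : z ∈ A) (hy : y ∈ A) (hzy : z ≠ y) {K : Finset (Itm V)}
    (hK : K ⊆ (A.erase z).biUnion U) (hk : ∀ u ∈ K, ikp (tlo G T hm) z u ≠ 0)
    {X : Finset V → Finset V} (hX : ∀ Q, X Q ⊆ oth (tlo G T hm) z Q)
    {N : Finset V} (hN : N ⊆ HP G Z T S z) (hNt : ∀ v ∈ N, tlo G T hm v = y)
    (hNU : ∀ v ∈ N, ∀ e, Sum.inr e ∈ U z → e.1 ≠ v)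
    (hkap : ∀ v ∈ (pcz (tlo G T hm) y (U z)).image Prod.fst ∪ N,
      (msC G (CP G Z T S z) v).card ≤ (msC G (CP G Z T S y) v).card) :
    2 * ∑ v ∈ (pcz (tlo G T hm) y (U z)).image Prod.fst, ((msC G (CP G Z T S z) v).card - 1
        - dg G ((pcz (tlo G T hm) y (U z)).image Prod.fst) v)
      + 2 * ∑ v ∈ N, (msC G (CP G Z T S z \ (pcz (tlo G T hm) y (U z)).image Prod.snd) v).card
      ≤ 2 * ∑ c ∈ CP G Z T S y \ K.biUnion (rpts (tlo G T hm) X z),
          dg G (CP G Z T S z \ (pcz (tlo G T hm) y (U z)).image Prod.snd) c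
        + 2 * ∑ v ∈ K.biUnion (rpts (tlo G T hm) X z) \ CP G Z T S y, dg G (HP G Z T S z) v
        + E G N := by
  have hV : Nonempty V := ⟨z⟩
  obtain ⟨L, hL⟩ : ∃ L, L = pcz (tlo G T hm) y (U z) := ⟨_, rfl⟩
  obtain ⟨Wp, hWp⟩ : ∃ Wp, Wp = K.biUnion (rpts (tlo G T hm) X z) := ⟨_, rfl⟩
  have hLm : ∀ e ∈ L, Sum.inr e ∈ U z ∧ tlo G T hm e.1 = y := fun e he => mem_pcz.1 (hL ▸ he)
  have hLi : ∀ e ∈ L, ∀ f ∈ L, e.1 = f.1 → e = f := by
    rw [hL]
    exact (h z hz).pcz_inj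
  rw [← hL] at hkap ⊢
  rw [← hWp]
  obtain ⟨W, hWd⟩ : ∃ W, W = L.image Prod.fst := ⟨_, rfl⟩
  rw [← hWd] at hkap ⊢
  have hown : ∀ v ∈ W, ∃ a, (v, a) ∈ L := by
    intro v hv
    rw [hWd] at hv
    obtain ⟨e, he, rfl⟩ := mem_image.1 hv
    exact ⟨e.2, he⟩
  choose! a ha using hown
  have hWa : W.image a = L.image Prod.snd := by
    ext b
    rw [mem_image, mem_image]
    constructor
    · rintro ⟨v, hv, rfl⟩
      exact ⟨_, ha v hv, rfl⟩
    · rintro ⟨e, he, rfl⟩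
      have h1 : e.1 ∈ W := hWd ▸ mem_image_of_mem _ he
      refine ⟨e.1, h1, ?_⟩
      have h2 := hLi _ (ha _ h1) _ he rfl
      exact congrArg Prod.snd h2
  have hWH : ∀ v ∈ W ∪ N, v ∈ HP G Z T S z ∧ tlo G T hm v = y := by
    intro v hv
    rcases mem_union.1 hv with h1 | h1
    · have h2 := hLm _ (ha v h1)
      exact ⟨(h z hz).pcH _ h2.1, h2.2⟩
    · exact ⟨hN h1, hNt v h1⟩
  have hD := hC.cellD hF hz hy hzy
  have hdb : ∀ v ∈ W ∪ N, v ∈ Dbl G Z T z y := fun v hv =>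
    hC.mem_Dbl_of_tlo hh hz (hWH v hv).1 (hWH v hv).2
  have hWN : Disjoint W N := by
    refine disjoint_left.2 fun v hv hv' => ?_
    exact hNU v hv' _ (hLm _ (ha v hv)).1 rfl
  have h1 := CellN.pay_half W N (msC G (CP G Z T S z)) (msC G (CP G Z T S y)) a
    (CP G Z T S y ∩ Wp)
    (fun i hi => mem_msC.2 ⟨(h z hz).pcC _ (hLm _ (ha i hi)).1, by
      have h2 := (h z hz).pcF _ (hLm _ (ha i hi)).1
      exact (co_adj.1 h2).2⟩) hkap
    (fun w w' => G.Adj w w') (fun _ _ h0 => h0.symm)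
    (fun u hu v hv huv hn => ⟨disjoint_left.2 fun b hb hb' => by
      rw [mem_msC] at hb hb'
      exact hn (hD.comC u (hdb u hu) v (hdb v hv) huv b hb.1 hb.2 hb'.2),
      disjoint_left.2 fun b hb hb' => by
      rw [mem_msC] at hb hb'
      exact hn (hD.comD u (hdb u hu) v (hdb v hv) huv b hb.1 hb.2 hb'.2)⟩)
  rw [hWa] at h1
  have hdg : ∀ (D : Finset V) (w : V), (D.filter (fun w' => w ≠ w' ∧ G.Adj w w')).card = dg G D w := by
    intro D w
    unfold dg
    refine congrArg card ?_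
    ext w'
    rw [mem_filter, mem_filter]
    exact ⟨fun h => ⟨h.1, h.2.2⟩, fun h => ⟨h.1, h.2.ne, h.2⟩⟩
  -- the class edges
  have h2 : ((W ∪ N).biUnion fun v => (msC G (CP G Z T S z) v \ L.image Prod.snd) ×ˢ
      (msC G (CP G Z T S y) v \ (CP G Z T S y ∩ Wp))).card
      ≤ ∑ c ∈ CP G Z T S y \ Wp, dg G (CP G Z T S z \ L.image Prod.snd) c := by
    have e1 : ((W ∪ N).biUnion fun v => (msC G (CP G Z T S z) v \ L.image Prod.snd) ×ˢ
        (msC G (CP G Z T S y) v \ (CP G Z T S y ∩ Wp))).card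
        ≤ (eds G (CP G Z T S y \ Wp) (CP G Z T S z \ L.image Prod.snd)).card := by
      refine card_le_card_of_injOn Prod.swap (fun p hp => ?_) (Prod.swap_injective.injOn)
      have hp' : p ∈ (W ∪ N).biUnion fun v => (msC G (CP G Z T S z) v \ L.image Prod.snd) ×ˢ
        (msC G (CP G Z T S y) v \ (CP G Z T S y ∩ Wp)) := by exact_mod_cast hp
      obtain ⟨v, hv, hq⟩ := mem_biUnion.1 hp'
      rw [mem_product, mem_sdiff, mem_sdiff, mem_msC, mem_msC, mem_inter] at hq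
      obtain ⟨⟨⟨q1, q2⟩, q3⟩, ⟨q4, q5⟩, q6⟩ := hq
      have q7 : p.2 ∉ Wp := fun h0 => q6 ⟨q4, h0⟩
      have : p.swap ∈ eds G (CP G Z T S y \ Wp) (CP G Z T S z \ L.image Prod.snd) :=
        mem_filter.2 ⟨mem_product.2 ⟨mem_sdiff.2 ⟨q4, q7⟩, mem_sdiff.2 ⟨q1, q3⟩⟩,
          (hD.rect v (hdb v hv) _ q1 _ q4 q2 q5).symm⟩
      exact_mod_cast this
    have e2 : (eds G (CP G Z T S y \ Wp) (CP G Z T S z \ L.image Prod.snd)).card
        = ∑ c ∈ CP G Z T S y \ Wp, dg G (CP G Z T S z \ L.image Prod.snd) c := by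
      have := card_eds_eq (G := G) (CP G Z T S y \ Wp) (CP G Z T S z \ L.image Prod.snd)
      exact_mod_cast this
    rw [← e2]
    exact e1
  -- the used class points
  have h3 : ∀ c ∈ CP G Z T S y ∩ Wp, ∃ w, Sum.inr (w, c) ∈ K ∧ Sum.inr (w, c) ∈ U y ∧
      tlo G T hm w = z := by
    intro c hc
    obtain ⟨hc1, hc2⟩ := mem_inter.1 hc
    rw [hWp] at hc2
    obtain ⟨u, hu, hcu⟩ := mem_biUnion.1 hc2
    obtain ⟨x, hx, hux⟩ := mem_biUnion.1 (hK hu)
    have hxA := mem_of_mem_erase hx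
    have hf := h x hxA
    rcases u with Q | e
    · exact absurd hc1 (disjoint_left.1 (hW.dHC x hxA y hy) (hf.sub Q hux (hf.rpts_sub hX hcu)))
    · simp only [rpts] at hcu
      rcases mem_insert.1 hcu with h4 | h4
      · exact absurd hc1 (disjoint_left.1 (hW.dHC x hxA y hy) (h4 ▸ hf.pcH e hux))
      · rw [mem_singleton] at h4
        have hxy : x = y := by
          by_contra hne
          exact disjoint_left.1 (hW.dCC x hxA y hy hne) (hf.pcC e hux) (h4 ▸ hc1)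
        have h5 : tlo G T hm e.1 = z := by
          by_contra h6
          refine hk _ hu ?_
          simp only [ikp, if_neg h6]
        refine ⟨e.1, ?_, ?_, h5⟩
        · rw [h4]
          exact hu
        · rw [h4]
          exact hxy ▸ hux
  choose! g hg using h3
  have hgH : ∀ c ∈ CP G Z T S y ∩ Wp, g c ∈ HP G Z T S y := fun c hc =>
    (h y hy).pcH _ (hg c hc).2.1
  have hgi : ∀ c ∈ CP G Z T S y ∩ Wp, ∀ c' ∈ CP G Z T S y ∩ Wp, g c = g c' → c = c' := by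
    intro c hc c' hc' hcc
    have e1 : (g c, c) ∈ pcz (tlo G T hm) z (U y) := mem_pcz.2 ⟨(hg c hc).2.1, (hg c hc).2.2⟩
    have e2 : (g c', c') ∈ pcz (tlo G T hm) z (U y) := mem_pcz.2 ⟨(hg c' hc').2.1, (hg c' hc').2.2⟩
    have e3 := (h y hy).pcz_inj _ e1 _ e2 hcc
    exact congrArg Prod.snd e3
  have h4 : ∑ v ∈ W, (msC G (CP G Z T S y) v ∩ (CP G Z T S y ∩ Wp)).card
      + ∑ v ∈ N, (msC G (CP G Z T S y) v ∩ (CP G Z T S y ∩ Wp)).card
      ≤ ∑ v ∈ Wp \ CP G Z T S y, dg G (HP G Z T S z) v := by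
    rw [← sum_union hWN]
    have e1 : ∀ v, msC G (CP G Z T S y) v ∩ (CP G Z T S y ∩ Wp)
        = (CP G Z T S y ∩ Wp).filter fun c => ¬ G.Adj v c := by
      intro v
      ext c
      rw [mem_inter, mem_msC, mem_filter, mem_inter]
      constructor
      · rintro ⟨⟨q1, q2⟩, q3⟩
        exact ⟨q3, q2⟩
      · rintro ⟨q3, q2⟩
        exact ⟨⟨q3.1, q2⟩, q3⟩
    simp only [e1, card_filter]
    rw [sum_comm]
    have e2 : ∀ c ∈ CP G Z T S y ∩ Wp, (∑ v ∈ W ∪ N, if ¬ G.Adj v c then 1 else 0)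
        ≤ dg G (HP G Z T S z) (g c) := by
      intro c hc
      rw [← card_filter]
      unfold dg
      refine card_le_card fun v hv => ?_
      obtain ⟨q1, q2⟩ := mem_filter.1 hv
      refine mem_filter.2 ⟨(hWH v q1).1, ?_⟩
      have q3 : g c ∈ Dbl G Z T z y := by
        have q4 := hC.mem_Dbl_of_tlo hh hy (hgH c hc) (hg c hc).2.2
        rwa [Dbl_comm] at q4
      have q4 : v ≠ g c := fun h0 =>
        disjoint_left.1 (hC.dHP hz hy hzy) (hWH v q1).1 (h0 ▸ hgH c hc)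
      have q5 := (h y hy).pcF _ (hg c hc).2.1
      exact (hD.comD v (hdb v q1) (g c) q3 q4 c (mem_inter.1 hc).1 q2 (co_adj.1 q5).2).symm
    refine (sum_le_sum e2).trans ?_
    rw [← sum_image (f := fun w => dg G (HP G Z T S z) w) (s := CP G Z T S y ∩ Wp) (g := g)
      (fun c hc c' hc' hcc => hgi c hc c' hc' hcc)]
    refine sum_le_sum_of_subset ?_
    intro w hw
    obtain ⟨c, hc, rfl⟩ := mem_image.1 hw
    refine mem_sdiff.2 ⟨?_, fun h0 => disjoint_left.1 (hW.dHC y hy y hy) (hgH c hc) h0⟩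
    rw [hWp]
    exact mem_biUnion.2 ⟨_, (hg c hc).1, by simp only [rpts]; exact mem_insert_self _ _⟩
  have h5 : ∑ v ∈ N, (N.filter (fun w' => v ≠ w' ∧ G.Adj v w')).card = E G N := by
    unfold E
    exact sum_congr rfl fun v _ => hdg N v
  have h6 : ∑ w ∈ W, ((msC G (CP G Z T S z) w).card - 1
        - (W.filter (fun w' => w ≠ w' ∧ G.Adj w w')).card)
      = ∑ w ∈ W, ((msC G (CP G Z T S z) w).card - 1 - dg G W w) :=
    sum_congr rfl fun w _ => by rw [hdg]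
  have h7 : ∑ v ∈ N, (msC G (CP G Z T S z) v \ L.image Prod.snd).card
      = ∑ v ∈ N, (msC G (CP G Z T S z \ L.image Prod.snd) v).card := by
    refine sum_congr rfl fun v _ => congrArg card ?_
    ext b
    rw [mem_sdiff, mem_msC, mem_msC, mem_sdiff]
    exact ⟨fun h => ⟨⟨h.1.1, h.2⟩, h.1.2⟩, fun h => ⟨⟨h.1.1, h.2⟩, h.1.2⟩⟩
  have h8 : 2 * ∑ w ∈ W, ((msC G (CP G Z T S z) w).card - 1
        - (W.filter (fun w' => w ≠ w' ∧ G.Adj w w')).card)
      + 2 * ∑ v ∈ N, (msC G (CP G Z T S z) v \ L.image Prod.snd).card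
      ≤ 2 * ((W ∪ N).biUnion fun v => (msC G (CP G Z T S z) v \ L.image Prod.snd) ×ˢ
          (msC G (CP G Z T S y) v \ (CP G Z T S y ∩ Wp))).card
        + 2 * (∑ v ∈ W, (msC G (CP G Z T S y) v ∩ (CP G Z T S y ∩ Wp)).card
          + ∑ v ∈ N, (msC G (CP G Z T S y) v ∩ (CP G Z T S y ∩ Wp)).card)
        + ∑ v ∈ N, (N.filter (fun w' => v ≠ w' ∧ G.Adj v w')).card := h1
  rw [h5, h6, h7] at h8
  omega

/-- **the row test of `z` with the columns of `y`, the cell paid** -/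
theorem Fam.rowE_cell (hF : PFrame G r m t Z T) (hP : PG G r) (hh : Homes G Z T hm)
    (hC : CSys G Z T hm A S)
    (hW : WSysT G (co G) A (CP G Z T S) (HP G Z T S) (tlo G T hm))
    (h : ∀ x ∈ A, Fam (co G) (CP G Z T S) (HP G Z T S) (tlo G T hm) x (U x))
    {z y : V} (hz : z ∈ A) (hy : y ∈ A) (hzy : z ≠ y) {K : Finset (Itm V)}
    (hK : K ⊆ (A.erase z).biUnion U) (hk : ∀ u ∈ K, ikp (tlo G T hm) z u ≠ 0)
    {X : Finset V → Finset V} (hX : ∀ Q, X Q ⊆ oth (tlo G T hm) z Q)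
    {N : Finset V} (hN : N ⊆ HP G Z T S z) (hNt : ∀ v ∈ N, tlo G T hm v = y)
    (hNU : ∀ v ∈ N, ∀ e, Sum.inr e ∈ U z → e.1 ≠ v)
    (hkap : ∀ v ∈ (pcz (tlo G T hm) y (U z)).image Prod.fst ∪ N,
      (msC G (CP G Z T S z) v).card ≤ (msC G (CP G Z T S y) v).card) :
    RowE G Z T hm r S U K X z y
      (2 * ∑ v ∈ (pcz (tlo G T hm) y (U z)).image Prod.fst,
          (((msC G (CP G Z T S z) v).card - 1
            - dg G ((pcz (tlo G T hm) y (U z)).image Prod.fst) v : ℕ) : ℤ)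
        + 2 * ∑ v ∈ N, ((msC G (CP G Z T S z \ (pcz (tlo G T hm) y (U z)).image Prod.snd) v).card : ℤ)
        - E G N) := by
  have h1 := Fam.rowE_of hF hP hC hW h hz hy hzy hK hk hX
    (F := CP G Z T S z \ (pcz (tlo G T hm) y (U z)).image Prod.snd) sdiff_subset
    (fun e he h0 => (mem_sdiff.1 h0).2 (mem_image_of_mem _ he))
  have h2 := Fam.cell_half hF hh hC hW h hz hy hzy hK hk hX hN hNt hNU hkap
  have h3 : 2 * ∑ v ∈ (pcz (tlo G T hm) y (U z)).image Prod.fst,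
          (((msC G (CP G Z T S z) v).card - 1
            - dg G ((pcz (tlo G T hm) y (U z)).image Prod.fst) v : ℕ) : ℤ)
        + 2 * ∑ v ∈ N, ((msC G (CP G Z T S z \ (pcz (tlo G T hm) y (U z)).image Prod.snd) v).card : ℤ)
      ≤ 2 * ∑ c ∈ CP G Z T S y \ K.biUnion (rpts (tlo G T hm) X z),
          (dg G (CP G Z T S z \ (pcz (tlo G T hm) y (U z)).image Prod.snd) c : ℤ)
        + 2 * ∑ v ∈ K.biUnion (rpts (tlo G T hm) X z) \ CP G Z T S y, (dg G (HP G Z T S z) v : ℤ)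
        + E G N := by exact_mod_cast h2
  unfold RowE at h1 ⊢
  linarith

end PayC

end Pool.Agent.Lib.MP_f04ccf_co
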