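import Mathlib
import Pool.Agent.Lib.MP_f04ccf_co.M.CellN

/-!
MP_f04ccf_co: the joint payment of the free arcs of the PC members and of the N-ends in one cell
(question (3) of helper35).

* `CellN.pay_joint`: `W` (members with own copies `a i ∈ A i`), `N` (any other members), `|A v| ≤ |B v|`,
  non-adjacent members have disjoint `A` and disjoint `B`:
  `2 ∑_W (|A i| - 1 - adj_W i)⁺ + 2 ∑_N |A v \ a(W)| ≤ 2 |⋃ (A v \ a(W)) ×ˢ B v| + #(ordered adjacent pairs of N)`;
* `CellN.pay_gen`: the same with weaker hypotheses;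
* `CellN.pay_half`: in the columns `Y` every member counts its own cells;
* `CellN.pay_joint_full`: the same with the used cells;
* `payj_graph`, `payj_graph_full`: in a graph.
-/

set_option autoImplicit false

namespace Pool.Agent.Lib.MP_f04ccf_co

open Finset

namespace CellN

variable {ι α β γ : Type*} [DecidableEq ι] [DecidableEq α] [DecidableEq β] [DecidableEq γ]

/-- a greedy maximal independent subset, largest `e` first -/
theorem greedy (adj : ι → ι → Prop) [DecidableRel adj] (hs : ∀ i j, adj i j → adj j i) (e : ι → ℕ)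
    (P : Finset ι) : ∃ I ⊆ P, (∀ i ∈ I, ∀ j ∈ I, i ≠ j → ¬ adj i j) ∧
      ∀ j ∈ P, ∃ i ∈ I, (j = i ∨ adj i j) ∧ e j ≤ e i := by
  induction P using Finset.strongInduction with
  | H P ih =>
    rcases P.eq_empty_or_nonempty with h0 | h0
    · subst h0
      exact ⟨∅, Subset.refl _, fun i hi => absurd hi (notMem_empty i), fun j hj => absurd hj (notMem_empty j)⟩
    · obtain ⟨i, hi, hmax⟩ := exists_max_image P e h0
      obtain ⟨J, hJ, hJi, hJd⟩ := ih (P.filter (fun j => ¬ (j = i ∨ adj i j)))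
        (filter_ssubset.2 ⟨i, hi, fun h => h (Or.inl rfl)⟩)
      have hJP : ∀ j ∈ J, j ∈ P ∧ ¬ (j = i ∨ adj i j) := fun j hj => mem_filter.1 (hJ hj)
      refine ⟨insert i J, ?_, ?_, ?_⟩
      · intro j hj
        rcases mem_insert.1 hj with h | h
        · exact h ▸ hi
        · exact (hJP j h).1
      · intro j hj k hk hjk
        rcases mem_insert.1 hj with h | h
        · rcases mem_insert.1 hk with h' | h'
          · exact absurd (h.trans h'.symm) hjk
          · rw [h]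
            exact fun h3 => (hJP k h').2 (Or.inr h3)
        · rcases mem_insert.1 hk with h' | h'
          · rw [h']
            exact fun h3 => (hJP j h).2 (Or.inr (hs _ _ h3))
          · exact hJi j h k h' hjk
      · intro j hj
        by_cases hji : j = i ∨ adj i j
        · exact ⟨i, mem_insert_self i J, hji, hmax j hj⟩
        · obtain ⟨k, hk, hk2⟩ := hJd j (mem_filter.2 ⟨hj, hji⟩)
          exact ⟨k, mem_insert_of_mem hk, hk2⟩

/-- the members of the greedy set carry the whole sum -/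
theorem greedy_sum (adj : ι → ι → Prop) [DecidableRel adj] (e : ι → ℕ) {P I : Finset ι}
    (h : ∀ j ∈ P, ∃ i ∈ I, (j = i ∨ adj i j) ∧ e j ≤ e i) :
    ∑ j ∈ P, e j ≤ ∑ i ∈ I, (1 + (P.filter (fun j => i ≠ j ∧ adj i j)).card) * e i := by
  have h1 : ∀ j ∈ P, e j ≤ ∑ i ∈ I, if j = i ∨ adj i j then e i else 0 := by
    intro j hj
    obtain ⟨i, hi, hij, hle⟩ := h j hj
    refine hle.trans ?_
    have h2 := single_le_sum (f := fun i => if j = i ∨ adj i j then e i else 0)
      (fun k _ => Nat.zero_le _) hi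
    simpa only [if_pos hij] using h2
  refine (sum_le_sum h1).trans ?_
  rw [sum_comm]
  refine sum_le_sum fun i _ => ?_
  rw [← sum_filter, sum_const, smul_eq_mul]
  refine Nat.mul_le_mul_right _ ?_
  have h2 : P.filter (fun j => j = i ∨ adj i j) ⊆ insert i (P.filter (fun j => i ≠ j ∧ adj i j)) := by
    intro j hj
    rw [mem_filter] at hj
    rw [mem_insert, mem_filter]
    by_cases hji : j = i
    · exact Or.inl hji
    · exact Or.inr ⟨hj.1, fun h0 => hji h0.symm, hj.2.resolve_left hji⟩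
  have h3 := (card_le_card h2).trans (card_insert_le _ _)
  omega

private theorem ar1 {s φ e d b : ℕ} (h1 : s + φ = 1 + d + e) (hs1 : 1 ≤ s) (hs2 : s ≤ 1 + d)
    (hb : s + φ ≤ b) : (((1 + d) * e : ℕ) : ℚ) + (φ : ℚ) * (φ + 1) / 2 ≤ (φ : ℚ) * b := by
  obtain ⟨k, hk⟩ : ∃ k, φ = e + k := ⟨φ - e, by omega⟩
  subst hk
  have h2 : 1 + d = s + k := by omega
  rw [h2]
  have hs' : (1 : ℚ) ≤ s := by exact_mod_cast hs1
  have hb' : (s : ℚ) + (e + k) ≤ b := by exact_mod_cast hb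
  have he : (e : ℚ) ≤ (e : ℚ) * e := by exact_mod_cast Nat.le_mul_self e
  have hk : (k : ℚ) ≤ (k : ℚ) * k := by exact_mod_cast Nat.le_mul_self k
  have he0 : (0 : ℚ) ≤ e := by positivity
  have hk0 : (0 : ℚ) ≤ k := by positivity
  have h3 : ((e : ℚ) + k) * ((s : ℚ) + (e + k)) ≤ ((e : ℚ) + k) * b :=
    mul_le_mul_of_nonneg_left hb' (by positivity)
  have h4 : (0 : ℚ) ≤ (k : ℚ) * s := by positivity
  push_cast
  nlinarith [h3, h4, he, hk]

private theorem ar3 {o f b : ℕ} (h1 : o ≤ f) (h2 : f ≤ b) :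
    (o : ℚ) * b ≤ (f : ℚ) * b - (f : ℚ) * (f + 1) / 2 + (o : ℚ) * (o + 1) / 2 := by
  rcases eq_or_lt_of_le h1 with h0 | h0
  · subst h0
    linarith
  · have h3 : (o : ℚ) + 1 ≤ f := by exact_mod_cast h0
    have h4 : (f : ℚ) ≤ b := by exact_mod_cast h2
    have h5 : (0 : ℚ) ≤ ((f : ℚ) - o) * (2 * b - f - o - 1) :=
      mul_nonneg (by linarith) (by linarith)
    nlinarith [h5]

private theorem ar4 {f b : ℕ} (h2 : f ≤ b) : (0 : ℚ) ≤ (f : ℚ) * b - (f : ℚ) * (f + 1) / 2 := by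
  have h := ar3 (o := 0) (Nat.zero_le f) h2
  simpa using h

/-- the loss in one rectangle -/
private theorem ar5 {κ : Type*} (I : Finset κ) (ρ o : κ → ℕ) {f b : ℕ} (hρ : ∑ i ∈ I, ρ i ≤ b)
    (ho : ∀ i ∈ I, o i ≤ f) (hf : f ≤ b) :
    (f : ℚ) * (f + 1) / 2 + ∑ i ∈ I, (ρ i : ℚ) * o i ≤
      (f : ℚ) * b + ∑ i ∈ I, (ρ i : ℚ) / b * ((o i : ℚ) * (o i + 1) / 2) := by
  rcases Nat.eq_zero_or_pos b with h0 | h0
  · subst h0
    have hf0 : f = 0 := Nat.le_zero.1 hf
    subst hf0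
    have h1 : ∀ i ∈ I, (ρ i : ℚ) * o i = 0 := fun i hi => by
      rw [Nat.le_zero.1 (ho i hi)]
      simp
    rw [sum_eq_zero h1]
    simp
  · have hb : (0 : ℚ) < b := by exact_mod_cast h0
    have h1 : ∀ i ∈ I, (ρ i : ℚ) * o i ≤
        (ρ i : ℚ) / b * ((f : ℚ) * b - (f : ℚ) * (f + 1) / 2) +
          (ρ i : ℚ) / b * ((o i : ℚ) * (o i + 1) / 2) := by
      intro i hi
      have h2 := ar3 (ho i hi) hf
      have h3 : (0 : ℚ) ≤ (ρ i : ℚ) / b := by positivity
      have h4 := mul_le_mul_of_nonneg_left h2 h3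
      have h5 : (ρ i : ℚ) / b * ((o i : ℚ) * b) = (ρ i : ℚ) * o i := by
        field_simp
      rw [h5, mul_add] at h4
      exact h4
    have h2 := sum_le_sum h1
    rw [sum_add_distrib, ← sum_mul, ← sum_div] at h2
    have h3 : (∑ i ∈ I, (ρ i : ℚ)) / b ≤ 1 := by
      rw [div_le_one hb]
      exact_mod_cast hρ
    have h4 := mul_le_mul_of_nonneg_right h3 (ar4 hf)
    linarith

private theorem ar6 {f d : ℕ} : (f : ℚ) ≤ ((f : ℚ) * (f + 1) / 2) / ((d + 1 : ℕ) : ℚ) + (d : ℚ) / 2 := by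
  have hd : (0 : ℚ) < ((d + 1 : ℕ) : ℚ) := by positivity
  rw [← sub_le_iff_le_add, le_div_iff₀ hd]
  push_cast
  rcases le_or_gt f d with h0 | h0
  · have h1 : (f : ℚ) ≤ d := by exact_mod_cast h0
    nlinarith [mul_nonneg (sub_nonneg.2 h1) (by linarith : (0 : ℚ) ≤ (d : ℚ) - f + 1)]
  · have h1 : (d : ℚ) + 1 ≤ f := by exact_mod_cast h0
    nlinarith [mul_nonneg (by linarith : (0 : ℚ) ≤ (f : ℚ) - d) (by linarith : (0 : ℚ) ≤ (f : ℚ) - d - 1)]

/-- **The joint payment**: PC members `W` with own copies `a i`, other members `N`; `|A i| ≤ |B i|` is needed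
only for the members of `W` with something to pay, and `|A v \ a(W)| ≤ |B v|` for the others. -/
theorem pay_gen (W N : Finset ι) (A : ι → Finset α) (B : ι → Finset β) (a : ι → α)
    (ha : ∀ i ∈ W, a i ∈ A i)
    (adj : ι → ι → Prop) [DecidableRel adj] (hs : ∀ i j, adj i j → adj j i)
    (hAW : ∀ i ∈ W, 1 + (W.filter (fun j => i ≠ j ∧ adj i j)).card < (A i).card →
      (A i).card ≤ (B i).card)
    (hAN : ∀ v ∈ N, (A v \ W.image a).card ≤ (B v).card)
    (h : ∀ u ∈ W ∪ N, ∀ v ∈ W ∪ N, u ≠ v → ¬ adj u v → Disjoint (A u) (A v) ∧ Disjoint (B u) (B v)) :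
    2 * ∑ i ∈ W, ((A i).card - 1 - (W.filter (fun j => i ≠ j ∧ adj i j)).card) +
        2 * ∑ v ∈ N, (A v \ W.image a).card ≤
      2 * ((W ∪ N).biUnion fun v => (A v \ W.image a) ×ˢ B v).card +
        ∑ v ∈ N, (N.filter (fun u => v ≠ u ∧ adj v u)).card := by
  obtain ⟨Z, hZ⟩ : ∃ Z, Z = W.image a := ⟨_, rfl⟩
  obtain ⟨dW, hdW⟩ : ∃ dd : ι → ℕ, ∀ i, dd i = (W.filter (fun j => i ≠ j ∧ adj i j)).card :=
    ⟨_, fun _ => rfl⟩
  obtain ⟨dN, hdN⟩ : ∃ dd : ι → ℕ, ∀ i, dd i = (N.filter (fun j => i ≠ j ∧ adj i j)).card :=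
    ⟨_, fun _ => rfl⟩
  obtain ⟨e, he⟩ : ∃ e : ι → ℕ, ∀ i, e i = (A i).card - 1 - dW i := ⟨_, fun _ => rfl⟩
  obtain ⟨f, hf⟩ : ∃ f : ι → ℕ, ∀ i, f i = (A i \ Z).card := ⟨_, fun _ => rfl⟩
  have hWe : ∑ i ∈ W, ((A i).card - 1 - (W.filter (fun j => i ≠ j ∧ adj i j)).card) = ∑ i ∈ W, e i :=
    sum_congr rfl fun i _ => by rw [he, hdW]
  have hNf : ∑ v ∈ N, (A v \ W.image a).card = ∑ v ∈ N, f v :=
    sum_congr rfl fun i _ => by rw [hf, hZ]
  have hNd : ∑ v ∈ N, (N.filter (fun u => v ≠ u ∧ adj v u)).card = ∑ v ∈ N, dN v :=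
    sum_congr rfl fun i _ => by rw [hdN]
  rw [hWe, hNf, hNd, ← hZ]
  obtain ⟨I, hIP, hIi, hId⟩ := greedy adj hs e (W.filter (fun i => 0 < e i))
  have hIW : ∀ i ∈ I, i ∈ W ∧ 0 < e i := fun i hi => mem_filter.1 (hIP hi)
  -- the greedy sum
  have hsum1 : ∑ i ∈ W, e i ≤ ∑ i ∈ I, (1 + dW i) * e i := by
    have h1 : ∑ i ∈ W, e i = ∑ i ∈ W.filter (fun i => 0 < e i), e i := by
      rw [sum_filter]
      refine sum_congr rfl fun i _ => ?_
      by_cases h0 : 0 < e i
      · rw [if_pos h0]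
      · rw [if_neg h0]
        omega
    rw [h1]
    refine (greedy_sum adj e hId).trans (sum_le_sum fun i _ => Nat.mul_le_mul_right _ ?_)
    rw [hdW]
    exact Nat.add_le_add_left (card_le_card (filter_subset_filter _ (filter_subset _ _))) 1
  -- one member of the greedy set
  have hone : ∀ i ∈ I, (((1 + dW i) * e i : ℕ) : ℚ) + (f i : ℚ) * (f i + 1) / 2 ≤
      (f i : ℚ) * (B i).card := by
    intro i hi
    obtain ⟨hiW, hie⟩ := hIW i hi
    have h1 := card_sdiff_add_card_inter (A i) Z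
    rw [← hf] at h1
    have h2 : 0 < (A i ∩ Z).card :=
      card_pos.2 ⟨a i, mem_inter.2 ⟨ha i hiW, hZ ▸ mem_image_of_mem a hiW⟩⟩
    have h3 : A i ∩ Z ⊆ (insert i (W.filter (fun j => i ≠ j ∧ adj i j))).image a := by
      intro x hx
      rw [mem_inter, hZ, mem_image] at hx
      obtain ⟨hx1, j, hj, rfl⟩ := hx
      refine mem_image_of_mem a ?_
      rw [mem_insert, mem_filter]
      by_cases hji : j = i
      · exact Or.inl hji
      · refine Or.inr ⟨hj, fun h0 => hji h0.symm, ?_⟩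
        by_contra hadj
        exact disjoint_left.1 (h i (mem_union_left _ hiW) j (mem_union_left _ hj)
          (fun h0 => hji h0.symm) hadj).1 hx1 (ha j hj)
    have h4 := (card_le_card h3).trans (card_image_le.trans (card_insert_le _ _))
    rw [← hdW] at h4
    have h5 := he i
    have h6 := hAW i hiW (by rw [← hdW]; omega)
    exact ar1 (s := (A i ∩ Z).card) (by omega) (by omega) (by omega) (by omega)
  -- the rectangles
  obtain ⟨Rc, hRc⟩ : ∃ Rc : ι → Finset (α × β), ∀ v, Rc v = (A v \ Z) ×ˢ B v := ⟨_, fun _ => rfl⟩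
  have hU : ((W ∪ N).biUnion fun v => (A v \ Z) ×ˢ B v) = (W ∪ N).biUnion Rc :=
    biUnion_congr rfl fun v _ => (hRc v).symm
  rw [hU]
  have hcI : (I.biUnion Rc).card = ∑ i ∈ I, (Rc i).card := by
    refine card_biUnion ?_
    intro i hi j hj hij
    refine disjoint_left.2 fun p hp hp' => ?_
    rw [hRc, mem_product, mem_sdiff] at hp hp'
    exact disjoint_left.1 (h i (mem_union_left _ (hIW i hi).1) j (mem_union_left _ (hIW j hj).1) hij
      (hIi i hi j hj hij)).1 hp.1.1 hp'.1.1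
  have hsp : (I.biUnion Rc).card + (N.biUnion fun v => Rc v \ I.biUnion Rc).card ≤
      ((W ∪ N).biUnion Rc).card := by
    rw [← card_union_of_disjoint]
    · refine card_le_card (union_subset ?_ ?_)
      · exact biUnion_subset_biUnion_of_subset_left _ fun i hi => mem_union_left _ (hIW i hi).1
      · intro p hp
        obtain ⟨v, hv, hp⟩ := mem_biUnion.1 hp
        exact mem_biUnion.2 ⟨v, mem_union_right _ hv, (mem_sdiff.1 hp).1⟩
    · refine disjoint_left.2 fun p hp hp' => ?_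
      obtain ⟨v, _, hp'⟩ := mem_biUnion.1 hp'
      exact (mem_sdiff.1 hp').2 hp
  -- members of `N` through one row are pairwise adjacent
  have hcl : ∀ v ∈ N, ∀ x ∈ A v, ∀ D : Finset ι, (∀ u ∈ D, u ∈ N ∧ x ∈ A u) → D.card ≤ dN v + 1 := by
    intro v hv x hx D hD
    have h2 : D ⊆ insert v (N.filter (fun j => v ≠ j ∧ adj v j)) := by
      intro j hj
      rw [mem_insert, mem_filter]
      by_cases hij : j = v
      · exact Or.inl hij
      · refine Or.inr ⟨(hD j hj).1, fun h0 => hij h0.symm, ?_⟩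
        by_contra hadj
        exact disjoint_left.1 (h v (mem_union_right _ hv) j (mem_union_right _ (hD j hj).1)
          (fun h0 => hij h0.symm) hadj).1 hx (hD j hj).2
    have h3 := (card_le_card h2).trans (card_insert_le _ _)
    rw [← hdN v] at h3
    exact h3
  have hshN := share N (fun v => Rc v \ I.biUnion Rc) (fun v => dN v + 1) (by
    intro v hv p hp
    have hp1 := (mem_sdiff.1 hp).1
    rw [hRc, mem_product, mem_sdiff] at hp1
    refine hcl v hv p.1 hp1.1.1 _ fun u hu => ?_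
    obtain ⟨hu1, hu2⟩ := mem_filter.1 hu
    have hu3 := (mem_sdiff.1 hu2).1
    rw [hRc, mem_product, mem_sdiff] at hu3
    exact ⟨hu1, hu3.1.1⟩)
  -- the overlap numbers
  obtain ⟨o, ho⟩ : ∃ o : ι → ι → ℕ, ∀ v i, o v i = ((A v \ Z) ∩ (A i \ Z)).card := ⟨_, fun _ _ => rfl⟩
  obtain ⟨ρ, hρ⟩ : ∃ ρ : ι → ι → ℕ, ∀ v i, ρ v i = (B v ∩ B i).card := ⟨_, fun _ _ => rfl⟩
  have hinter : ∀ v i, (Rc v ∩ Rc i).card = ρ v i * o v i := by
    intro v i
    rw [hRc, hRc, product_inter_product, card_product, hρ, ho, Nat.mul_comm]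
  have hrow : ∀ i ∈ I, ∑ v ∈ N, (o v i : ℚ) / ((dN v + 1 : ℕ) : ℚ) ≤ (f i : ℚ) := by
    intro i _
    have h1 := share N (fun v => (A v \ Z) ∩ (A i \ Z)) (fun v => dN v + 1) (by
      intro v hv p hp
      refine hcl v hv p (mem_sdiff.1 (mem_inter.1 hp).1).1 _ fun u hu => ?_
      obtain ⟨hu1, hu2⟩ := mem_filter.1 hu
      exact ⟨hu1, (mem_sdiff.1 (mem_inter.1 hu2).1).1⟩)
    have h2 : (N.biUnion fun v => (A v \ Z) ∩ (A i \ Z)).card ≤ f i := by
      rw [hf]
      refine card_le_card fun p hp => ?_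
      obtain ⟨v, _, hp⟩ := mem_biUnion.1 hp
      exact (mem_inter.1 hp).2
    refine le_trans (le_of_eq (sum_congr rfl fun v _ => ?_)) (h1.trans (by exact_mod_cast h2))
    rw [ho]
  have hof : ∀ v i, o v i ≤ f v := fun v i => by
    rw [ho, hf]
    exact card_le_card inter_subset_left
  have hof' : ∀ v i, o v i ≤ f i := fun v i => by
    rw [ho, hf]
    exact card_le_card inter_subset_right
  have hρs : ∀ v, ∑ i ∈ I, ρ v i ≤ (B v).card := by
    intro v
    have h1 : ∑ i ∈ I, ρ v i = (I.biUnion fun i => B v ∩ B i).card := by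
      rw [card_biUnion]
      · exact sum_congr rfl fun i _ => hρ v i
      · intro i hi j hj hij
        refine disjoint_left.2 fun p hp hp' => ?_
        exact disjoint_left.1 (h i (mem_union_left _ (hIW i hi).1) j (mem_union_left _ (hIW j hj).1) hij
          (hIi i hi j hj hij)).2 (mem_inter.1 hp).2 (mem_inter.1 hp').2
    rw [h1]
    refine card_le_card fun p hp => ?_
    obtain ⟨i, _, hp⟩ := mem_biUnion.1 hp
    exact (mem_inter.1 hp).1
  -- one member of `N`
  have hv1 : ∀ v ∈ N, (f v : ℚ) * (f v + 1) / 2 ≤ ((Rc v \ I.biUnion Rc).card : ℚ) +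
      ∑ i ∈ I, (ρ v i : ℚ) / (B v).card * ((o v i : ℚ) * (o v i + 1) / 2) := by
    intro v hv
    have h1 : (Rc v).card ≤ (Rc v \ I.biUnion Rc).card + ∑ i ∈ I, (Rc v ∩ Rc i).card := by
      have h2 := card_sdiff_add_card_inter (Rc v) (I.biUnion Rc)
      have h3 : (Rc v ∩ I.biUnion Rc).card ≤ ∑ i ∈ I, (Rc v ∩ Rc i).card := by
        have h4 : Rc v ∩ I.biUnion Rc = I.biUnion fun i => Rc v ∩ Rc i := by
          ext p
          rw [mem_inter, mem_biUnion, mem_biUnion]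
          constructor
          · rintro ⟨hp, i, hi, hp'⟩
            exact ⟨i, hi, mem_inter.2 ⟨hp, hp'⟩⟩
          · rintro ⟨i, hi, hp⟩
            exact ⟨(mem_inter.1 hp).1, i, hi, (mem_inter.1 hp).2⟩
        rw [h4]
        exact card_biUnion_le
      omega
    have h2 : (Rc v).card = f v * (B v).card := by rw [hRc, card_product, ← hf]
    have h3 : f v ≤ (B v).card := by
      rw [hf, hZ]
      exact hAN v hv
    have h4 := ar5 I (ρ v) (o v) (hρs v) (fun i _ => hof v i) h3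
    have h5 : ∑ i ∈ I, (Rc v ∩ Rc i).card = ∑ i ∈ I, ρ v i * o v i := sum_congr rfl fun i _ => hinter v i
    rw [h2, h5] at h1
    have h6 : (f v : ℚ) * (B v).card ≤ ((Rc v \ I.biUnion Rc).card : ℚ) + ∑ i ∈ I, (ρ v i : ℚ) * o v i := by
      exact_mod_cast h1
    linarith
  -- summing up over `N`
  have hv2 : ∀ v ∈ N, (f v : ℚ) ≤ ((Rc v \ I.biUnion Rc).card : ℚ) / ((dN v + 1 : ℕ) : ℚ) +
      ∑ i ∈ I, (o v i : ℚ) / ((dN v + 1 : ℕ) : ℚ) * (((f i : ℚ) + 1) / 2) + (dN v : ℚ) / 2 := by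
    intro v hv
    have hd : (0 : ℚ) < ((dN v + 1 : ℕ) : ℚ) := by positivity
    have h1 := ar6 (f := f v) (d := dN v)
    have h2 := div_le_div_of_nonneg_right (hv1 v hv) hd.le
    rw [add_div, sum_div] at h2
    have h3 : ∑ i ∈ I, (ρ v i : ℚ) / (B v).card * ((o v i : ℚ) * (o v i + 1) / 2) / ((dN v + 1 : ℕ) : ℚ) ≤
        ∑ i ∈ I, (o v i : ℚ) / ((dN v + 1 : ℕ) : ℚ) * (((f i : ℚ) + 1) / 2) := by
      refine sum_le_sum fun i hi => ?_
      have h4 : (ρ v i : ℚ) / (B v).card ≤ 1 := by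
        refine div_le_one_of_le₀ ?_ (by positivity)
        have h5 : ρ v i ≤ (B v).card := by
          rw [hρ]
          exact card_le_card inter_subset_left
        exact_mod_cast h5
      have h5 : (o v i : ℚ) ≤ f i := by exact_mod_cast hof' v i
      have h6 : (ρ v i : ℚ) / (B v).card * ((o v i : ℚ) * (o v i + 1) / 2) ≤
          1 * ((o v i : ℚ) * ((f i : ℚ) + 1) / 2) := by
        refine mul_le_mul h4 ?_ (by positivity) zero_le_one
        have h7 : (o v i : ℚ) * (o v i + 1) ≤ (o v i : ℚ) * ((f i : ℚ) + 1) :=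
          mul_le_mul_of_nonneg_left (by linarith) (by positivity)
        linarith
      have h7 := div_le_div_of_nonneg_right h6 hd.le
      refine h7.trans (le_of_eq ?_)
      field_simp
    linarith
  have hv3 := sum_le_sum hv2
  rw [sum_add_distrib, sum_add_distrib, ← sum_div, sum_comm] at hv3
  have hv4 : ∑ i ∈ I, ∑ v ∈ N, (o v i : ℚ) / ((dN v + 1 : ℕ) : ℚ) * (((f i : ℚ) + 1) / 2) ≤
      ∑ i ∈ I, (f i : ℚ) * ((f i : ℚ) + 1) / 2 := by
    refine sum_le_sum fun i hi => ?_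
    rw [← sum_mul, mul_div_assoc]
    exact mul_le_mul_of_nonneg_right (hrow i hi) (by positivity)
  have hI1 := sum_le_sum hone
  rw [sum_add_distrib] at hI1
  have hI2 : ∑ i ∈ I, (f i : ℚ) * (B i).card = ((I.biUnion Rc).card : ℚ) := by
    rw [hcI, Nat.cast_sum]
    refine sum_congr rfl fun i _ => ?_
    rw [hRc, card_product, ← hf, Nat.cast_mul]
  have hI3 : (∑ i ∈ W, (e i : ℚ)) ≤ ∑ i ∈ I, (((1 + dW i) * e i : ℕ) : ℚ) := by exact_mod_cast hsum1
  have hsp' : ((I.biUnion Rc).card : ℚ) + ((N.biUnion fun v => Rc v \ I.biUnion Rc).card : ℚ) ≤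
      (((W ∪ N).biUnion Rc).card : ℚ) := by exact_mod_cast hsp
  have hfin : 2 * ∑ i ∈ W, (e i : ℚ) + 2 * ∑ v ∈ N, (f v : ℚ) ≤
      2 * (((W ∪ N).biUnion Rc).card : ℚ) + ∑ v ∈ N, (dN v : ℚ) := by
    rw [hI2] at hI1
    have h1 := hshN
    linarith
  exact_mod_cast hfin

/-- **The joint payment**: PC members `W` with own copies `a i`, other members `N`. -/
theorem pay_joint (W N : Finset ι) (A : ι → Finset α) (B : ι → Finset β) (a : ι → α)
    (ha : ∀ i ∈ W, a i ∈ A i) (hAB : ∀ v ∈ W ∪ N, (A v).card ≤ (B v).card)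
    (adj : ι → ι → Prop) [DecidableRel adj] (hs : ∀ i j, adj i j → adj j i)
    (h : ∀ u ∈ W ∪ N, ∀ v ∈ W ∪ N, u ≠ v → ¬ adj u v → Disjoint (A u) (A v) ∧ Disjoint (B u) (B v)) :
    2 * ∑ i ∈ W, ((A i).card - 1 - (W.filter (fun j => i ≠ j ∧ adj i j)).card) +
        2 * ∑ v ∈ N, (A v \ W.image a).card ≤
      2 * ((W ∪ N).biUnion fun v => (A v \ W.image a) ×ˢ B v).card +
        ∑ v ∈ N, (N.filter (fun u => v ≠ u ∧ adj v u)).card :=
  pay_gen W N A B a ha adj hs (fun i hi _ => hAB i (mem_union_left _ hi))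
    (fun v hv => (card_le_card sdiff_subset).trans (hAB v (mem_union_right _ hv))) h

/-- **The joint payment with one-sided columns**: in the columns `Y` every member counts its own cells. -/
theorem pay_half (W N : Finset ι) (A : ι → Finset α) (B : ι → Finset β) (a : ι → α) (Y : Finset β)
    (ha : ∀ i ∈ W, a i ∈ A i) (hAB : ∀ v ∈ W ∪ N, (A v).card ≤ (B v).card)
    (adj : ι → ι → Prop) [DecidableRel adj] (hs : ∀ i j, adj i j → adj j i)
    (h : ∀ u ∈ W ∪ N, ∀ v ∈ W ∪ N, u ≠ v → ¬ adj u v → Disjoint (A u) (A v) ∧ Disjoint (B u) (B v)) :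
    2 * ∑ i ∈ W, ((A i).card - 1 - (W.filter (fun j => i ≠ j ∧ adj i j)).card) +
        2 * ∑ v ∈ N, (A v \ W.image a).card ≤
      2 * ((W ∪ N).biUnion fun v => (A v \ W.image a) ×ˢ (B v \ Y)).card +
        2 * (∑ v ∈ W, (B v ∩ Y).card + ∑ v ∈ N, (B v ∩ Y).card) +
        ∑ v ∈ N, (N.filter (fun u => v ≠ u ∧ adj v u)).card := by
  obtain ⟨Z, hZ⟩ : ∃ Z, Z = W.image a := ⟨_, rfl⟩
  rw [← hZ]
  have hex : ∀ v, ∃ D ⊆ A v \ Z, D.card = min (B v ∩ Y).card (A v \ Z).card := fun v =>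
    exists_subset_card_eq (min_le_right _ _)
  choose D hD hDc using hex
  have hDZ : ∀ v, ∀ x ∈ D v, x ∉ Z := fun v x hx => (mem_sdiff.1 (hD v hx)).2
  have hfr : ∀ v, (A v \ D v) \ Z = (A v \ Z) \ D v := fun v => by
    ext x
    simp only [mem_sdiff]
    tauto
  have hfc : ∀ v, ((A v \ D v) \ Z).card = (A v \ Z).card - (B v ∩ Y).card := by
    intro v
    rw [hfr, card_sdiff_of_subset (hD v), hDc]
    omega
  have hDA : ∀ v, D v ⊆ A v := fun v => (hD v).trans sdiff_subset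
  have hAc : ∀ v, (A v \ D v).card + min (B v ∩ Y).card (A v \ Z).card = (A v).card := by
    intro v
    have h1 := card_sdiff_add_card_eq_card (hDA v)
    rw [hDc] at h1
    exact h1
  have hBc : ∀ v, (B v \ Y).card + (B v ∩ Y).card = (B v).card := fun v =>
    card_sdiff_add_card_inter _ _
  have hss : ∀ i ∈ W, (A i ∩ Z).card ≤ 1 + (W.filter (fun j => i ≠ j ∧ adj i j)).card := by
    intro i hi
    have h3 : A i ∩ Z ⊆ (insert i (W.filter (fun j => i ≠ j ∧ adj i j))).image a := by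
      intro x hx
      rw [mem_inter, hZ, mem_image] at hx
      obtain ⟨hx1, j, hj, rfl⟩ := hx
      refine mem_image_of_mem a ?_
      rw [mem_insert, mem_filter]
      by_cases hji : j = i
      · exact Or.inl hji
      · refine Or.inr ⟨hj, fun h0 => hji h0.symm, ?_⟩
        by_contra hadj
        exact disjoint_left.1 (h i (mem_union_left _ hi) j (mem_union_left _ hj)
          (fun h0 => hji h0.symm) hadj).1 hx1 (ha j hj)
    have h4 := (card_le_card h3).trans (card_image_le.trans (card_insert_le _ _))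
    omega
  have h1 := pay_gen W N (fun v => A v \ D v) (fun v => B v \ Y) a
    (fun i hi => mem_sdiff.2 ⟨ha i hi, fun h0 => hDZ i _ h0 (hZ ▸ mem_image_of_mem a hi)⟩) adj hs
    (fun i hi hlt => by
      have e1 := hss i hi
      have e2 := card_sdiff_add_card_inter (A i) Z
      have e3 := hAc i
      have e4 := hBc i
      have e5 := hAB i (mem_union_left _ hi)
      change 1 + _ < (A i \ D i).card at hlt
      change (A i \ D i).card ≤ (B i \ Y).card
      omega)
    (fun v hv => by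
      have e1 := hfc v
      have e2 := card_sdiff_add_card_inter (A v) Z
      have e4 := hBc v
      have e5 := hAB v (mem_union_right _ hv)
      change ((A v \ D v) \ W.image a).card ≤ (B v \ Y).card
      rw [← hZ]
      omega)
    (fun u hu v hv huv hn => ⟨((h u hu v hv huv hn).1.mono sdiff_subset sdiff_subset),
      ((h u hu v hv huv hn).2.mono sdiff_subset sdiff_subset)⟩)
  rw [← hZ] at h1
  have h2 : ((W ∪ N).biUnion fun v => ((A v \ D v) \ Z) ×ˢ (B v \ Y)).card ≤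
      ((W ∪ N).biUnion fun v => (A v \ Z) ×ˢ (B v \ Y)).card := by
    refine card_le_card (biUnion_mono fun v _ => product_subset_product ?_ (Subset.refl _))
    exact sdiff_subset_sdiff sdiff_subset (Subset.refl _)
  have h3 : ∑ i ∈ W, ((A i).card - 1 - (W.filter (fun j => i ≠ j ∧ adj i j)).card) ≤
      ∑ i ∈ W, ((A i \ D i).card - 1 - (W.filter (fun j => i ≠ j ∧ adj i j)).card) +
        ∑ i ∈ W, (B i ∩ Y).card := by
    rw [← sum_add_distrib]
    refine sum_le_sum fun i _ => ?_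
    have e3 := hAc i
    omega
  have h4 : ∑ v ∈ N, (A v \ Z).card ≤ ∑ v ∈ N, ((A v \ D v) \ Z).card + ∑ v ∈ N, (B v ∩ Y).card := by
    rw [← sum_add_distrib]
    refine sum_le_sum fun v _ => ?_
    have e1 := hfc v
    omega
  have h5 : 2 * ∑ i ∈ W, ((A i \ D i).card - 1 - (W.filter (fun j => i ≠ j ∧ adj i j)).card) +
        2 * ∑ v ∈ N, ((A v \ D v) \ Z).card ≤
      2 * ((W ∪ N).biUnion fun v => ((A v \ D v) \ Z) ×ˢ (B v \ Y)).card +
        ∑ v ∈ N, (N.filter (fun u => v ≠ u ∧ adj v u)).card := h1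
  omega

/-- **The joint payment with the used cells.** -/
theorem pay_joint_full (W N : Finset ι) (A : ι → Finset α) (B : ι → Finset β) (a : ι → α)
    (ha : ∀ i ∈ W, a i ∈ A i) (hinj : ∀ i ∈ W, ∀ j ∈ W, a i = a j → i = j)
    (hAB : ∀ v ∈ W ∪ N, (A v).card ≤ (B v).card)
    (adj : ι → ι → Prop) [DecidableRel adj] (hs : ∀ i j, adj i j → adj j i)
    (h : ∀ u ∈ W ∪ N, ∀ v ∈ W ∪ N, u ≠ v → ¬ adj u v → Disjoint (A u) (A v) ∧ Disjoint (B u) (B v)) :
    2 * ∑ i ∈ W, (((A i).card - 1 - (W.filter (fun j => i ≠ j ∧ adj i j)).card) + (B i).card) +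
        2 * ∑ v ∈ N, (A v \ W.image a).card ≤
      2 * ((W ∪ N).biUnion fun v => A v ×ˢ B v).card +
        ∑ v ∈ N, (N.filter (fun u => v ≠ u ∧ adj v u)).card := by
  have h1 := pay_joint W N A B a ha hAB adj hs h
  have h2 : (W.biUnion fun i => ({a i} : Finset α) ×ˢ B i).card = ∑ i ∈ W, (B i).card := by
    rw [card_biUnion]
    · refine sum_congr rfl fun i _ => ?_
      rw [card_product, card_singleton, Nat.one_mul]
    · intro i hi j hj hij
      refine disjoint_left.2 fun p hp hp' => ?_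
      rw [mem_product, mem_singleton] at hp hp'
      exact hij (hinj i hi j hj (hp.1.symm.trans hp'.1))
  have h3 : (W.biUnion fun i => ({a i} : Finset α) ×ˢ B i).card +
      ((W ∪ N).biUnion fun v => (A v \ W.image a) ×ˢ B v).card ≤
      ((W ∪ N).biUnion fun v => A v ×ˢ B v).card := by
    rw [← card_union_of_disjoint]
    · refine card_le_card (union_subset ?_ ?_)
      · intro p hp
        obtain ⟨i, hi, hp⟩ := mem_biUnion.1 hp
        rw [mem_product, mem_singleton] at hp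
        exact mem_biUnion.2 ⟨i, mem_union_left _ hi, mem_product.2 ⟨hp.1 ▸ ha i hi, hp.2⟩⟩
      · intro p hp
        obtain ⟨i, hi, hp⟩ := mem_biUnion.1 hp
        rw [mem_product, mem_sdiff] at hp
        exact mem_biUnion.2 ⟨i, hi, mem_product.2 ⟨hp.1.1, hp.2⟩⟩
    · refine disjoint_left.2 fun p hp hp' => ?_
      obtain ⟨i, hi, hp⟩ := mem_biUnion.1 hp
      obtain ⟨j, _, hp'⟩ := mem_biUnion.1 hp'
      rw [mem_product, mem_singleton] at hp
      rw [mem_product, mem_sdiff] at hp'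
      exact hp'.1.2 (hp.1 ▸ mem_image_of_mem a hi)
  rw [sum_add_distrib]
  omega

end CellN

attribute [local instance] Classical.propDecidable

section graph

variable {V : Type*} {G : SimpleGraph V}

/-- **The joint payment in a graph**: `W` members with own copies `a w` in `Cx`, `N` any other members. -/
theorem payj_graph {W N Cx Cy : Finset V} {a : V → V}
    (h32 : ∀ w ∈ W ∪ N, ∀ w' ∈ W ∪ N, w ≠ w' → ¬ G.Adj w w' → ∀ b ∈ Cx ∪ Cy, G.Adj w b ∨ G.Adj w' b)
    (hr : ∀ w ∈ W ∪ N, ∀ b ∈ Cx, ∀ c ∈ Cy, ¬ G.Adj w b → ¬ G.Adj w c → G.Adj b c)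
    (ha : ∀ w ∈ W, a w ∈ Cx ∧ ¬ G.Adj w (a w))
    (hxy : ∀ w ∈ W ∪ N, (msC G Cx w).card ≤ (msC G Cy w).card) :
    2 * ∑ w ∈ W, ((msC G Cx w).card - 1 - dg G W w) +
        2 * ∑ v ∈ N, (msC G (Cx \ W.image a) v).card ≤
      2 * (mcells G (W ∪ N) (Cx \ W.image a) Cy).card + E G N := by
  have h1 := CellN.pay_joint W N (msC G Cx) (msC G Cy) a
    (fun w hw => mem_filter.2 (ha w hw)) hxy (fun w w' => G.Adj w w') (fun _ _ h0 => h0.symm)
    (fun w hw w' hw' hne hn => ⟨disjoint_left.2 fun b hb hb' => by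
      rw [msC, mem_filter] at hb hb'
      exact (h32 w hw w' hw' hne hn b (mem_union_left _ hb.1)).elim hb.2 hb'.2,
      disjoint_left.2 fun b hb hb' => by
      rw [msC, mem_filter] at hb hb'
      exact (h32 w hw w' hw' hne hn b (mem_union_right _ hb.1)).elim hb.2 hb'.2⟩)
  have hdg : ∀ (D : Finset V) (w : V), (D.filter (fun w' => w ≠ w' ∧ G.Adj w w')).card = dg G D w := by
    intro D w
    unfold dg
    refine congrArg card ?_
    ext w'
    rw [mem_filter, mem_filter]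
    exact ⟨fun h => ⟨h.1, h.2.2⟩, fun h => ⟨h.1, h.2.ne, h.2⟩⟩
  have h2 : (((W ∪ N).biUnion fun w => (msC G Cx w \ W.image a) ×ˢ msC G Cy w).card) ≤
      (mcells G (W ∪ N) (Cx \ W.image a) Cy).card := by
    refine card_le_card fun p hp => ?_
    rw [mem_biUnion] at hp
    obtain ⟨w, hw, hp⟩ := hp
    rw [mem_product, mem_sdiff, msC, msC, mem_filter, mem_filter] at hp
    rw [mcells, mem_filter, mem_product, mem_sdiff]
    exact ⟨⟨⟨hp.1.1.1, hp.1.2⟩, hp.2.1⟩, hr w hw _ hp.1.1.1 _ hp.2.1 hp.1.1.2 hp.2.2, w, hw,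
      hp.1.1.2, hp.2.2⟩
  have h3 : ∑ v ∈ N, (N.filter (fun w' => v ≠ w' ∧ G.Adj v w')).card = E G N := by
    unfold E
    exact sum_congr rfl fun v _ => hdg N v
  have h4 : ∑ w ∈ W, ((msC G Cx w).card - 1 - (W.filter (fun w' => w ≠ w' ∧ G.Adj w w')).card) =
      ∑ w ∈ W, ((msC G Cx w).card - 1 - dg G W w) := sum_congr rfl fun w _ => by rw [hdg]
  have h5 : ∑ v ∈ N, (msC G Cx v \ W.image a).card = ∑ v ∈ N, (msC G (Cx \ W.image a) v).card := by
    refine sum_congr rfl fun v _ => congrArg card ?_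
    ext b
    rw [mem_sdiff, msC, msC, mem_filter, mem_filter, mem_sdiff]
    exact ⟨fun h => ⟨⟨h.1.1, h.2⟩, h.1.2⟩, fun h => ⟨⟨h.1.1, h.2⟩, h.1.2⟩⟩
  have h6 : 2 * ∑ w ∈ W, ((msC G Cx w).card - 1 - (W.filter (fun w' => w ≠ w' ∧ G.Adj w w')).card) +
      2 * ∑ v ∈ N, (msC G Cx v \ W.image a).card ≤
      2 * ((W ∪ N).biUnion fun w => (msC G Cx w \ W.image a) ×ˢ msC G Cy w).card +
        ∑ v ∈ N, (N.filter (fun w' => v ≠ w' ∧ G.Adj v w')).card := h1
  rw [h3, h4, h5] at h6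
  omega

/-- **The joint payment in a graph, with the used cells.** -/
theorem payj_graph_full {W N Cx Cy : Finset V} {a : V → V}
    (h32 : ∀ w ∈ W ∪ N, ∀ w' ∈ W ∪ N, w ≠ w' → ¬ G.Adj w w' → ∀ b ∈ Cx ∪ Cy, G.Adj w b ∨ G.Adj w' b)
    (hr : ∀ w ∈ W ∪ N, ∀ b ∈ Cx, ∀ c ∈ Cy, ¬ G.Adj w b → ¬ G.Adj w c → G.Adj b c)
    (ha : ∀ w ∈ W, a w ∈ Cx ∧ ¬ G.Adj w (a w)) (hinj : ∀ w ∈ W, ∀ w' ∈ W, a w = a w' → w = w')
    (hxy : ∀ w ∈ W ∪ N, (msC G Cx w).card ≤ (msC G Cy w).card) :
    2 * ∑ w ∈ W, (((msC G Cx w).card - 1 - dg G W w) + (msC G Cy w).card) +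
        2 * ∑ v ∈ N, (msC G (Cx \ W.image a) v).card ≤
      2 * (mcells G (W ∪ N) Cx Cy).card + E G N := by
  have h1 := payj_graph h32 hr ha hxy
  have h2 : (W.biUnion fun i => ({a i} : Finset V) ×ˢ msC G Cy i).card = ∑ i ∈ W, (msC G Cy i).card := by
    rw [card_biUnion]
    · refine sum_congr rfl fun i _ => ?_
      rw [card_product, card_singleton, Nat.one_mul]
    · intro i hi j hj hij
      refine disjoint_left.2 fun p hp hp' => ?_
      rw [mem_product, mem_singleton] at hp hp'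
      exact hij (hinj i hi j hj (hp.1.symm.trans hp'.1))
  have h3 : (W.biUnion fun i => ({a i} : Finset V) ×ˢ msC G Cy i).card +
      (mcells G (W ∪ N) (Cx \ W.image a) Cy).card ≤ (mcells G (W ∪ N) Cx Cy).card := by
    rw [← card_union_of_disjoint]
    · refine card_le_card (union_subset ?_ ?_)
      · intro p hp
        obtain ⟨i, hi, hp⟩ := mem_biUnion.1 hp
        rw [mem_product, mem_singleton, msC, mem_filter] at hp
        obtain ⟨ha1, ha2⟩ := ha i hi
        rw [mcells, mem_filter, mem_product, hp.1]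
        exact ⟨⟨ha1, hp.2.1⟩, hr i (mem_union_left _ hi) _ ha1 _ hp.2.1 ha2 hp.2.2, i,
          mem_union_left _ hi, ha2, hp.2.2⟩
      · intro p hp
        rw [mcells, mem_filter, mem_product, mem_sdiff] at hp
        rw [mcells, mem_filter, mem_product]
        exact ⟨⟨hp.1.1.1, hp.1.2⟩, hp.2⟩
    · refine disjoint_left.2 fun p hp hp' => ?_
      obtain ⟨i, hi, hp⟩ := mem_biUnion.1 hp
      rw [mem_product, mem_singleton] at hp
      rw [mcells, mem_filter, mem_product, mem_sdiff] at hp'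
      exact hp'.1.1.2 (hp.1 ▸ mem_image_of_mem a hi)
  rw [sum_add_distrib]
  omega

end graph

end Pool.Agent.Lib.MP_f04ccf_co
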