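import Pool.Agent.Lib.MP_f04ccf_co.M.RowCol
import Pool.Agent.Lib.MP_f04ccf_co.M.PayJ

/-!
MP_f04ccf_co, the test of the row `z` with the columns of another row `y`, the cell paid.

* `Fam.row_colE`: `Fam.row_col` with the free class edges of the columns outside the used points and with the
  edges from the used members to the members of `z`;
* `Fam.cell_half`: these edges pay the free arcs of the PC members with tail `y` and the N-ends with tail `y`;
* `Fam.row_colP`: both together.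
-/

set_option autoImplicit false

namespace Pool.Agent.Lib.MP_f04ccf_co

open Finset

attribute [local instance] Classical.propDecidable

section PayH

variable {V : Type*} {G : SimpleGraph V} {Z T : Finset V} {hm : V → V} {r m t : ℕ}
  {A : Finset V} {S : V → Finset V} {U : V → Finset (Itm V)}

/-- **the row test of `z` with items `K` and columns `Y` of the row `y`, all edges kept**: `F` class points
of `z` outside the partners of the PC pairs of `z` with tail `y` -/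
theorem Fam.row_colE (hF : PFrame G r m t Z T) (hP : PG G r) (hC : CSys G Z T hm A S)
    (hW : WSysT G (co G) A (CP G Z T S) (HP G Z T S) (tlo G T hm))
    (h : ∀ x ∈ A, Fam (co G) (CP G Z T S) (HP G Z T S) (tlo G T hm) x (U x))
    {z y : V} (hz : z ∈ A) (hy : y ∈ A) (hzy : z ≠ y) {K : Finset (Itm V)}
    (hK : K ⊆ (A.erase z).biUnion U) (hk : ∀ u ∈ K, ikp (tlo G T hm) z u ≠ 0)
    {X : Finset V → Finset V} (hX : ∀ Q, X Q ⊆ oth (tlo G T hm) z Q)
    {Y : Finset V} (hY : Y ⊆ CP G Z T S y) {F : Finset V} (hF1 : F ⊆ CP G Z T S z)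
    (hF2 : ∀ e ∈ pcz (tlo G T hm) y (U z), e.2 ∉ F) :
    2 * ((r : ℤ) - 1) * (((S z).card : ℤ) - r)
      + 2 * ∑ u ∈ K, (((CP G Z T S z).card : ℤ) * ikp (tlo G T hm) z u
          - (rcl G (CP G Z T S) (tlo G T hm) X z u).card)
      + 2 * ∑ u ∈ U z, ((Y.card : ℤ) * ikp (tlo G T hm) y u
          - (Y ∩ icl G (CP G Z T S) (tlo G T hm) y u).card)
      + 2 * ∑ c ∈ Y \ K.biUnion (rpts (tlo G T hm) X z), (dg G F c : ℤ)
      + 2 * ∑ v ∈ K.biUnion (rpts (tlo G T hm) X z) \ Y, (dg G (HP G Z T S z) v : ℤ)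
      ≤ NE G (S z)
        + 2 * ((K.biUnion (rpts (tlo G T hm) X z) \ Y).card + Y.card : ℤ)
          * (((S z).card : ℤ) - r + 1)
        + ((K.biUnion (rpts (tlo G T hm) X z) \ Y).card : ℤ)
          * ((K.biUnion (rpts (tlo G T hm) X z) \ Y).card - 1)
        + 2 * ∑ v ∈ K.biUnion (rpts (tlo G T hm) X z) \ Y, (nd G Y v : ℤ)
        + 2 * ((Y ∩ K.biUnion (rpts (tlo G T hm) X z)).card : ℤ)
          * (pcz (tlo G T hm) y (U z)).card := by
  obtain ⟨W, hWd⟩ : ∃ W, W = K.biUnion (rpts (tlo G T hm) X z) := ⟨_, rfl⟩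
  rw [← hWd]
  have hK' : K ⊆ (A \ {z}).biUnion U := by
    rwa [sdiff_singleton_eq_erase]
  have hfil : (K.filter fun u => ikp (tlo G T hm) z u ≠ 0) = K := filter_true_of_mem hk
  have hg := Fam.grp hW h (D := A.erase z) (erase_subset _ _) hK (z := z) hX
  rw [hfil] at hg
  have hsb : ({z} : Finset V) ⊆ A := by
    simpa using hz
  have hWS : Disjoint (S z) W := by
    have h2 := Fam.disj_pts hC h hsb hK' (mem_singleton_self z)
    rw [hWd]
    refine h2.mono_right (biUnion_mono fun u hu => ?_)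
    obtain ⟨x, hx, hux⟩ := mem_biUnion.1 (hK hu)
    exact (h x (mem_of_mem_erase hx)).rpts_sub hX
  have hYS : Disjoint (S z) Y := (hC.disj hz hy hzy).mono_right fun v hv => (mem_CP.1 (hY hv)).1
  have hD : Disjoint (S z) (Y ∪ W \ Y) := by
    rw [disjoint_union_right]
    exact ⟨hYS, hWS.mono_right sdiff_subset⟩
  have h1 := hC.tst hP (B := {z}) hsb (W := Y ∪ W \ Y) (fun x hx => by
    rw [mem_singleton.1 hx]
    exact hD)
  have hYW : Disjoint Y (W \ Y) := disjoint_sdiff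
  have hcl : Clq G Y := fun u hu v hv huv => hC.CP_clq hF hy u (hY hu) v (hY hv) huv
  have h2 : (NE G (Y ∪ W \ Y) : ℤ) = NE G (W \ Y) + 2 * ∑ v ∈ W \ Y, (nd G Y v : ℤ) := by
    rw [NE_union hYW, NE_clq hcl]
    push_cast
    ring
  have h3 : ((Y ∪ W \ Y).card : ℤ) = Y.card + (W \ Y).card := by
    rw [card_union_of_disjoint hYW]
    push_cast
    ring
  have h4 := NE_le_self (G := G) (W \ Y)
  -- the hits
  have h5 : ∑ u ∈ K, (((CP G Z T S z).card : ℤ) * ikp (tlo G T hm) z u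
      - (rcl G (CP G Z T S) (tlo G T hm) X z u).card)
      ≤ ∑ v ∈ W, (dg G (CP G Z T S z) v : ℤ) := by
    have h6 := hg.sum_le (W := W) (by rw [hWd])
    have h7 : ∑ c ∈ CP G Z T S z, (dg G W c : ℤ) = ∑ v ∈ W, (dg G (CP G Z T S z) v : ℤ) := by
      have := dg_comm G (CP G Z T S z) W
      exact_mod_cast this
    rw [h7] at h6
    refine le_trans (le_of_eq ?_) h6
    refine sum_congr rfl fun u _ => ?_
    rw [sum_rcl]
  have h6 : ∀ v, (dg G (S z) v : ℤ) = dg G (CP G Z T S z) v + dg G (HP G Z T S z) v := by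
    intro v
    have h7 : dg G (S z) v = dg G (CP G Z T S z) v + dg G (HP G Z T S z) v := by
      conv_lhs => rw [← CP_union_HP (G := G) (Z := Z) (T := T) (S := S) (x := z)]
      unfold dg
      rw [filter_union, card_union_of_disjoint (disjoint_filter_filter CP_HP_disjoint)]
    exact_mod_cast h7
  have h7 : ∑ u ∈ U z, ((Y.card : ℤ) * ikp (tlo G T hm) y u
          - (Y ∩ icl G (CP G Z T S) (tlo G T hm) y u).card) + ∑ c ∈ Y \ W, (dg G F c : ℤ)
      ≤ ∑ v ∈ Y \ W, (dg G (S z) v : ℤ)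
        + ∑ v ∈ Y ∩ W, ((dg G (HP G Z T S z) v : ℤ) + (pcz (tlo G T hm) y (U z)).card) := by
    rw [← sum_cols, ← sum_sdiff (s₁ := Y ∩ W) (s₂ := Y) inter_subset_left, sdiff_inter_self_left]
    have h8 : ∑ c ∈ Y \ W, (∑ u ∈ U z, ((ikp (tlo G T hm) y u : ℤ)
          - if c ∈ icl G (CP G Z T S) (tlo G T hm) y u then 1 else 0)) + ∑ c ∈ Y \ W, (dg G F c : ℤ)
        ≤ ∑ v ∈ Y \ W, (dg G (S z) v : ℤ) := by
      rw [← sum_add_distrib]
      refine sum_le_sum fun c hc => ?_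
      have h8 := Fam.col_see hW h hz (z := y) (W := ∅) (F := F) (empty_subset _)
        (fun v hv => absurd hv (notMem_empty _)) hF1 hF2 (hY (mem_sdiff.1 hc).1)
      have h9 : (0 : ℤ) ≤ dg G (∅ : Finset V) c := by positivity
      linarith
    have h9 : ∑ c ∈ Y ∩ W, (∑ u ∈ U z, ((ikp (tlo G T hm) y u : ℤ)
          - if c ∈ icl G (CP G Z T S) (tlo G T hm) y u then 1 else 0))
        ≤ ∑ v ∈ Y ∩ W, ((dg G (HP G Z T S z) v : ℤ) + (pcz (tlo G T hm) y (U z)).card) :=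
      sum_le_sum fun c hc => Fam.hp_see hW h hz (hY (mem_inter.1 hc).1)
    linarith
  have h8 : ∑ v ∈ Y ∪ W \ Y, (dg G (S z) v : ℤ)
      = ∑ v ∈ Y \ W, (dg G (S z) v : ℤ) + ∑ v ∈ Y ∩ W, (dg G (S z) v : ℤ)
        + ∑ v ∈ W \ Y, (dg G (S z) v : ℤ) := by
    rw [sum_union hYW]
    congr 1
    rw [← sum_sdiff (s₁ := Y ∩ W) (s₂ := Y) inter_subset_left, sdiff_inter_self_left]
  have h9 : ∑ v ∈ W, (dg G (CP G Z T S z) v : ℤ) + ∑ v ∈ W \ Y, (dg G (HP G Z T S z) v : ℤ)
      = ∑ v ∈ Y ∩ W, (dg G (CP G Z T S z) v : ℤ) + ∑ v ∈ W \ Y, (dg G (S z) v : ℤ) := by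
    rw [← sum_sdiff (s₁ := Y ∩ W) (s₂ := W) inter_subset_right, sdiff_inter_self_right]
    have h10 : ∑ v ∈ W \ Y, (dg G (S z) v : ℤ)
        = ∑ v ∈ W \ Y, (dg G (CP G Z T S z) v : ℤ) + ∑ v ∈ W \ Y, (dg G (HP G Z T S z) v : ℤ) := by
      rw [← sum_add_distrib]
      exact sum_congr rfl fun v _ => h6 v
    rw [h10]
    ring
  have h10 : ∑ v ∈ Y ∩ W, (dg G (S z) v : ℤ)
      = ∑ v ∈ Y ∩ W, (dg G (CP G Z T S z) v : ℤ) + ∑ v ∈ Y ∩ W, (dg G (HP G Z T S z) v : ℤ) := by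
    rw [← sum_add_distrib]
    exact sum_congr rfl fun v _ => h6 v
  have h11 : ∑ v ∈ Y ∩ W, ((dg G (HP G Z T S z) v : ℤ) + (pcz (tlo G T hm) y (U z)).card)
      = ∑ v ∈ Y ∩ W, (dg G (HP G Z T S z) v : ℤ)
        + ((Y ∩ W).card : ℤ) * (pcz (tlo G T hm) y (U z)).card := by
    rw [sum_add_distrib, sum_const, nsmul_eq_mul]
  simp only [sum_singleton, card_singleton, erase_singleton, sum_empty, Nat.cast_one, sub_self,
    mul_zero, zero_mul, add_zero] at h1
  rw [h2, h3] at h1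
  rw [h11] at h7
  rw [h10] at h8
  linarith

end PayH

end Pool.Agent.Lib.MP_f04ccf_co
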