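import Pool.Agent.Lib.MP_f04ccf_co.M.PayI

/-!
MP_f04ccf_co, version [B]: the payment of the cell alone, for the packings of a `WCoreK`.

* `WCoreK.cellP`: the free class edges of the columns of `y` outside the used points `W` and the edges from the
  used members to the members of `z` are at least `nxk z y + pfw z y` (to be added to any form of the row test
  with columns in which these two sums are kept, `Fam.row_colE`).
-/

set_option autoImplicit false

namespace Pool.Agent.Lib.MP_f04ccf_co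

open Finset

attribute [local instance] Classical.propDecidable

section PayK

variable {V : Type*} {G : SimpleGraph V} {Z T : Finset V} {hm : V → V} {r m n p : ℕ}
  {B : V → Finset (V × V)} {Ps : V → Finset (Finset V)}

/-- **the payment of the cell**, version [B]: `K` any set of items of hosts `≠ z` with load at `z` -/
theorem WCoreK.cellP (hp : 2 * r ≤ p) (h : WCoreK G Z T r m n p hm)
    (hB : ∀ x ∈ T, Pk G (cz G Z T hm x) (hz G Z T hm x) (tlo G T hm) (B x) (Ps x))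
    {z y : V} (hz' : z ∈ T) (hy : y ∈ T) (hzy : z ≠ y) {K : Finset (Itm V)}
    (hK : K ⊆ (T.erase z).biUnion fun x => pkf (B x) (Ps x))
    (hk : ∀ u ∈ K, ikp (tlo G T hm) z u ≠ 0)
    {X : Finset V → Finset V} (hX : ∀ Q, X Q ⊆ oth (tlo G T hm) z Q) :
    2 * (nxk G (cz G Z T hm z) (hz G Z T hm z) (tlo G T hm) (B z) y
        + pfw G (cz G Z T hm z) (tlo G T hm) (B z) y)
      ≤ 2 * ∑ c ∈ cz G Z T hm y \ K.biUnion (rpts (tlo G T hm) X z),
          (dg G (cz G Z T hm z \ (pcz (tlo G T hm) y (pkf (B z) (Ps z))).image Prod.snd) c : ℤ)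
        + 2 * ∑ v ∈ K.biUnion (rpts (tlo G T hm) X z) \ cz G Z T hm y,
          (dg G (hz G Z T hm z) v : ℤ) := by
  have hfam : ∀ x ∈ T, Fam (co G) (cz G Z T hm) (hz G Z T hm) (tlo G T hm) x
      (pkf (B x) (Ps x)) := fun x hx => (hB x hx).fam (h.csys.dCH hx hx).symm
  have hdis : Disjoint (hz G Z T hm z) (cz G Z T hm z) := (h.csys.dCH hz' hz').symm
  have hpcz : pcz (tlo G T hm) y (pkf (B z) (Ps z)) = pcs (tlo G T hm) (B z) y := by
    ext e
    rw [mem_pcz, inr_mem_pkf, mem_pcs]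
  have hNH : ∀ v ∈ nez G (cz G Z T hm z) (hz G Z T hm z) (tlo G T hm) (B z) y,
      v ∈ hz G Z T hm z ∧ tlo G T hm v = y ∧ v ∉ (B z).image Prod.fst := by
    intro v hv
    obtain ⟨hv1, hv2⟩ := mem_filter.1 hv
    obtain ⟨hv3, -⟩ := mem_Nend.1 hv1
    obtain ⟨hv4, hv5⟩ := mem_sdiff.1 hv3
    exact ⟨hv4, hv2, hv5⟩
  have hmsC : ∀ x ∈ T, ∀ v ∈ hz G Z T hm z, msC G (cz G Z T hm x) v = msd G (cz G Z T hm x) v := by
    intro x hx v hv
    ext a
    rw [mem_msC]
    unfold msd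
    rw [mem_filter]
    refine ⟨fun q => ⟨q.1, fun q2 => ?_, q.2⟩, fun q => ⟨q.1, q.2.2⟩⟩
    exact disjoint_left.1 (h.wsysT.dHC z hz' x hx) hv (q2 ▸ q.1)
  have h1 := Fam.cell_half h.F.toPFrame h.hh h.csys h.wsysT hfam hz' hy hzy (K := K) hK hk
    (X := X) hX
    (N := nez G (cz G Z T hm z) (hz G Z T hm z) (tlo G T hm) (B z) y)
    (fun v hv => (hNH v hv).1) (fun v hv => (hNH v hv).2.1)
    (fun v hv e he h2 => (hNH v hv).2.2 (h2 ▸ mem_image_of_mem _ (inr_mem_pkf.1 he)))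
    (fun v hv => by
      have h2 : v ∈ hz G Z T hm z ∧ tlo G T hm v = y := by
        rcases mem_union.1 hv with h3 | h3
        · obtain ⟨e, he, rfl⟩ := mem_image.1 h3
          obtain ⟨h4, h5⟩ := mem_pcz.1 he
          exact ⟨(hfam z hz').pcH e h4, h5⟩
        · exact ⟨(hNH v h3).1, (hNH v h3).2.1⟩
      have h3 := h.msd_le hp hz' h2.1 h2.2
      rw [← hmsC z hz' v h2.1, ← hmsC y hy v h2.1] at h3
      exact h3)
  have h3 : ∑ v ∈ (pcz (tlo G T hm) y (pkf (B z) (Ps z))).image Prod.fst,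
      (((msC G (cz G Z T hm z) v).card - 1
        - dg G ((pcz (tlo G T hm) y (pkf (B z) (Ps z))).image Prod.fst) v : ℕ) : ℤ)
      = pfw G (cz G Z T hm z) (tlo G T hm) (B z) y := by
    rw [hpcz]
    rfl
  have h4 : ∑ v ∈ nez G (cz G Z T hm z) (hz G Z T hm z) (tlo G T hm) (B z) y,
      ((msC G (cz G Z T hm z \ (pcz (tlo G T hm) y (pkf (B z) (Ps z))).image Prod.snd) v).card : ℤ)
      = ∑ v ∈ nez G (cz G Z T hm z) (hz G Z T hm z) (tlo G T hm) (B z) y,
        ((frC G (cz G Z T hm z) (tlo G T hm) (B z) v).card : ℤ) := by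
    refine sum_congr rfl fun v hv => ?_
    have e1 := frC_eq (G := G) (B := B z) (tl := tlo G T hm)
      (fun h1 => disjoint_left.1 hdis (hNH v hv).1 h1 : v ∉ cz G Z T hm z)
    rw [(hNH v hv).2.1] at e1
    have e2 : msC G (cz G Z T hm z \ (pcs (tlo G T hm) (B z) y).image Prod.snd) v
        = frC G (cz G Z T hm z) (tlo G T hm) (B z) v := by
      rw [e1]
      ext a
      rw [mem_msC]
      unfold msd pcs
      rw [mem_filter]
      refine ⟨fun q => ⟨q.1, fun q2 => ?_, q.2⟩, fun q => ⟨q.1, q.2.2⟩⟩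
      exact disjoint_left.1 hdis (hNH v hv).1 (q2 ▸ (mem_sdiff.1 q.1).1)
    rw [hpcz, e2]
  have h5 := two_nxk (G := G) (cz G Z T hm z) (hz G Z T hm z) (tlo G T hm) (B z) y
  have h6 : (2 : ℤ) * ∑ v ∈ (pcz (tlo G T hm) y (pkf (B z) (Ps z))).image Prod.fst,
          (((msC G (cz G Z T hm z) v).card - 1
            - dg G ((pcz (tlo G T hm) y (pkf (B z) (Ps z))).image Prod.fst) v : ℕ) : ℤ)
        + 2 * ∑ v ∈ nez G (cz G Z T hm z) (hz G Z T hm z) (tlo G T hm) (B z) y,
          ((msC G (cz G Z T hm z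
            \ (pcz (tlo G T hm) y (pkf (B z) (Ps z))).image Prod.snd) v).card : ℤ)
      ≤ 2 * ∑ c ∈ cz G Z T hm y \ K.biUnion (rpts (tlo G T hm) X z),
          (dg G (cz G Z T hm z \ (pcz (tlo G T hm) y (pkf (B z) (Ps z))).image Prod.snd) c : ℤ)
        + 2 * ∑ v ∈ K.biUnion (rpts (tlo G T hm) X z) \ cz G Z T hm y, (dg G (hz G Z T hm z) v : ℤ)
        + E G (nez G (cz G Z T hm z) (hz G Z T hm z) (tlo G T hm) (B z) y) := by exact_mod_cast h1
  linarith

end PayK

end Pool.Agent.Lib.MP_f04ccf_co
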