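import Pool.Agent.Lib.MP_f04ccf_co.M.CStar

/-!
MP_f04ccf_co, notes 16810 and later: PROPOSITION PAY and the inequality (CU).

`pay_sum`: a finite set `P` with sets `A v`, `B v`, `|A v| ≤ |B v|`, different own points `own v ∈ A v`,
and any two members with a common point of the `B`s adjacent.  Then
`∑ (|A v| + |B v|) ≤ ∑_c |⋃_(v : c ∈ B v) A v| + ∑ (1 + deg_P v)`.

`PG.cu`: two classes `Cx`, `Cy`, a set `W` of members of the cell, a set `K` of missing pairs
(member of `W`, point of `Cx`), injective in both places; the members outside `K` form a clique and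
miss only partners of `K`; `y0 ∈ Cy` sees `W`.  With `R = r - 1`, `tx = R - |Cx|`, `ty = R - |Cy|`,
`w = |W|`, `k = |K|`:  `ty (w - tx) + k (R - ty - w) + (w - k) ≤ R`, without any term of free arcs.
-/

set_option autoImplicit false

namespace Pool.Agent.Lib.MP_f04ccf_co

open Finset

attribute [local instance] Classical.propDecidable

section Pay

variable {V α β : Type*} {G : SimpleGraph V}

/-- a maximal independent subset dominates -/
lemma exists_dom (S : Finset V) : ∃ I ⊆ S, Ind G I ∧ ∀ v ∈ S, v ∉ I → ∃ u ∈ I, G.Adj u v := by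
  obtain ⟨I, hI, hmax⟩ := exists_max_image (S.powerset.filter fun I => Ind G I)
    (fun I => I.card) ⟨∅, mem_filter.2 ⟨empty_mem_powerset _, fun x hx => absurd hx (notMem_empty x)⟩⟩
  obtain ⟨h1, h2⟩ := mem_filter.1 hI
  refine ⟨I, mem_powerset.1 h1, h2, fun v hv hvI => ?_⟩
  by_contra hcon
  push Not at hcon
  have h3 : Ind G (insert v I) := by
    intro x hx y hy
    rcases mem_insert.1 hx with hx | hx <;> rcases mem_insert.1 hy with hy | hy
    · rw [hx, hy]
      exact G.irrefl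
    · rw [hx]
      exact fun h => hcon y hy h.symm
    · rw [hy]
      exact hcon x hx
    · exact h2 x hx y hy
  have h4 := hmax (insert v I) (mem_filter.2 ⟨mem_powerset.2
    (insert_subset hv (mem_powerset.1 h1)), h3⟩)
  rw [card_insert_of_notMem hvI] at h4
  omega

/-- **PROPOSITION PAY** -/
theorem pay_sum {P : Finset V} {A : V → Finset α} {B : V → Finset β} {own : V → α} {Y : Finset β}
    (hown : ∀ v ∈ P, own v ∈ A v) (hinj : ∀ u ∈ P, ∀ v ∈ P, own u = own v → u = v)
    (hB : ∀ u ∈ P, ∀ v ∈ P, u ≠ v → ∀ c ∈ B u, c ∈ B v → G.Adj u v)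
    (hY : ∀ v ∈ P, B v ⊆ Y) (hle : ∀ v ∈ P, (A v).card ≤ (B v).card) :
    ∑ v ∈ P, (A v).card + ∑ v ∈ P, (B v).card
      ≤ ∑ c ∈ Y, ((P.filter fun v => c ∈ B v).biUnion A).card + ∑ v ∈ P, (1 + dg G P v) := by
  set M : β → Finset V := fun c => P.filter fun v => c ∈ B v with hM
  set e : V → ℕ := fun v => (A v).card - (1 + dg G P v) with he
  have h1 : ∀ c, (M c).card ≤ ((M c).biUnion A).card := by
    intro c
    refine card_le_card_of_injOn own (fun v hv => ?_) (fun u hu v hv huv => ?_)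
    · have hv' : v ∈ M c := by exact_mod_cast hv
      exact mem_biUnion.2 ⟨v, hv', hown v (mem_filter.1 hv').1⟩
    · have hu' : u ∈ M c := by exact_mod_cast hu
      have hv' : v ∈ M c := by exact_mod_cast hv
      exact hinj u (mem_filter.1 hu').1 v (mem_filter.1 hv').1 huv
  have h2 : ∀ c, ∀ v ∈ M c, (M c).card ≤ 1 + dg G P v := by
    intro c v hv
    obtain ⟨hvP, hvc⟩ := mem_filter.1 hv
    have h3 : M c ⊆ insert v (P.filter fun w => G.Adj v w) := by
      intro u hu
      obtain ⟨huP, huc⟩ := mem_filter.1 hu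
      by_cases huv : v = u
      · rw [huv]
        exact mem_insert_self _ _
      · exact mem_insert_of_mem (mem_filter.2 ⟨huP, hB v hvP u huP huv c hvc huc⟩)
    refine (card_le_card h3).trans ((card_insert_le _ _).trans ?_)
    unfold dg
    omega
  have h3 : ∀ c, ∀ v ∈ M c, e v + (M c).card ≤ ((M c).biUnion A).card := by
    intro c v hv
    have h4 := h1 c
    have h5 := h2 c v hv
    have h6 : (A v).card ≤ ((M c).biUnion A).card :=
      card_le_card (subset_biUnion_of_mem A hv)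
    simp only [he]
    omega
  obtain ⟨N, hN⟩ : ∃ N : ℕ, ∀ v ∈ P, e v ≤ N := ⟨∑ v ∈ P, e v, fun v hv =>
    single_le_sum (f := e) (fun _ _ => Nat.zero_le _) hv⟩
  have h4 : ∑ v ∈ P, e v = ∑ θ ∈ range N, (P.filter fun v => θ < e v).card := by
    have e1 : ∀ v ∈ P, e v = ∑ θ ∈ range N, if θ < e v then 1 else 0 := by
      intro v hv
      rw [← card_filter]
      have e2 : (range N).filter (fun θ => θ < e v) = range (e v) := by
        ext θ
        rw [mem_filter, mem_range, mem_range]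
        have := hN v hv
        omega
      rw [e2, card_range]
    rw [sum_congr rfl e1, sum_comm]
    exact sum_congr rfl fun θ _ => (card_filter _ _).symm
  have h5 : ∀ θ ∈ range N, (P.filter fun v => θ < e v).card
      ≤ (Y.filter fun c => ∃ v ∈ M c, θ < e v).card := by
    intro θ _
    set S := P.filter fun v => θ < e v with hS
    obtain ⟨I, hIS, hI, hdom⟩ := exists_dom (G := G) S
    have hSP : S ⊆ P := filter_subset _ _
    have h6 : S ⊆ I.biUnion fun u => insert u (P.filter fun w => G.Adj u w) := by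
      intro v hv
      by_cases hvI : v ∈ I
      · exact mem_biUnion.2 ⟨v, hvI, mem_insert_self _ _⟩
      · obtain ⟨u, hu, huv⟩ := hdom v hv hvI
        exact mem_biUnion.2 ⟨u, hu, mem_insert_of_mem (mem_filter.2 ⟨hSP hv, huv⟩)⟩
    have h7 : S.card ≤ ∑ u ∈ I, (B u).card := by
      refine (card_le_card h6).trans (card_biUnion_le.trans (sum_le_sum fun u hu => ?_))
      have h8 := card_insert_le u (P.filter fun w => G.Adj u w)
      have h9 := (mem_filter.1 (hIS hu)).2
      have h10 := hle u (hSP (hIS hu))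
      simp only [he] at h9
      unfold dg at h9
      omega
    have h8 : (I.biUnion B).card = ∑ u ∈ I, (B u).card := by
      refine card_biUnion fun u hu v hv huv => ?_
      have hu' : u ∈ I := by exact_mod_cast hu
      have hv' : v ∈ I := by exact_mod_cast hv
      change Disjoint (B u) (B v)
      rw [disjoint_left]
      intro c hc hc'
      exact hI u hu' v hv' (hB u (hSP (hIS hu')) v (hSP (hIS hv')) huv c hc hc')
    rw [← h8] at h7
    refine h7.trans (card_le_card fun c hc => ?_)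
    obtain ⟨u, hu, hcu⟩ := mem_biUnion.1 hc
    have h9 := hSP (hIS hu)
    exact mem_filter.2 ⟨hY u h9 hcu, u, mem_filter.2 ⟨h9, hcu⟩, (mem_filter.1 (hIS hu)).2⟩
  have h6 : ∑ θ ∈ range N, (Y.filter fun c => ∃ v ∈ M c, θ < e v).card
      = ∑ c ∈ Y, ((range N).filter fun θ => ∃ v ∈ M c, θ < e v).card := by
    have h7 := sum_card_bipartiteAbove_eq_sum_card_bipartiteBelow (s := range N) (t := Y)
      (fun θ c => ∃ v ∈ M c, θ < e v)
    simpa only [bipartiteAbove, bipartiteBelow] using h7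
  have h7 : ∀ c ∈ Y, ((range N).filter fun θ => ∃ v ∈ M c, θ < e v).card + (M c).card
      ≤ ((M c).biUnion A).card := by
    intro c _
    have h8 : ((range N).filter fun θ => ∃ v ∈ M c, θ < e v)
        ⊆ range (((M c).biUnion A).card - (M c).card) := by
      intro θ hθ
      obtain ⟨-, v, hv, h9⟩ := mem_filter.1 hθ
      have h10 := h3 c v hv
      rw [mem_range]
      omega
    have h9 := card_le_card h8
    rw [card_range] at h9
    have h10 := h1 c
    omega
  have h8 : ∑ v ∈ P, (B v).card = ∑ c ∈ Y, (M c).card := by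
    have h9 := sum_card_bipartiteAbove_eq_sum_card_bipartiteBelow (s := P) (t := Y)
      (fun v c => c ∈ B v)
    simp only [bipartiteAbove, bipartiteBelow] at h9
    rw [← h9]
    refine sum_congr rfl fun v hv => ?_
    congr 1
    ext c
    rw [mem_filter]
    exact ⟨fun h => ⟨hY v hv h, h⟩, fun h => h.2⟩
  have h9 : ∑ v ∈ P, (A v).card ≤ ∑ v ∈ P, e v + ∑ v ∈ P, (1 + dg G P v) := by
    rw [← sum_add_distrib]
    refine sum_le_sum fun v _ => ?_
    simp only [he]
    omega
  have h10 : ∑ c ∈ Y, ((range N).filter fun θ => ∃ v ∈ M c, θ < e v).card + ∑ c ∈ Y, (M c).card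
      ≤ ∑ c ∈ Y, ((M c).biUnion A).card := by
    rw [← sum_add_distrib]
    exact sum_le_sum h7
  have h11 : ∑ v ∈ P, e v ≤ ∑ c ∈ Y, ((range N).filter fun θ => ∃ v ∈ M c, θ < e v).card := by
    rw [h4, ← h6]
    exact sum_le_sum h5
  have h12 : ∑ c ∈ Y, ((P.filter fun v => c ∈ B v).biUnion A).card
      = ∑ c ∈ Y, ((M c).biUnion A).card := rfl
  rw [h8, h12]
  omega

end Pay

section CU

variable {V : Type*} {G : SimpleGraph V} {r : ℕ}

/-- a class point and the missing pairs of a member: `v` misses the partner or is not adjacent to the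
member of the pair, not both -/
lemma used_le {K : Finset (V × V)} {v : V} {Av : Finset V}
    (hA : ∀ a ∈ Av, ∃ e ∈ K, e.2 = a) (hAv : ∀ a ∈ Av, ¬ G.Adj v a)
    (h32 : ∀ e ∈ K, ¬ G.Adj v e.2 → G.Adj v e.1) :
    Av.card + nd G (K.image Prod.fst) v ≤ K.card := by
  have h1 : Av ⊆ (K.filter fun e => ¬ G.Adj v e.2).image Prod.snd := by
    intro a ha
    obtain ⟨e, he, h2⟩ := hA a ha
    exact mem_image.2 ⟨e, mem_filter.2 ⟨he, by rw [h2]; exact hAv a ha⟩, h2⟩
  have h2 : nd G (K.image Prod.fst) v ≤ (K.filter fun e => ¬ G.Adj v e.1).card := by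
    unfold nd
    refine le_trans (card_le_card ?_) (card_image_le (f := Prod.fst))
    intro w hw
    obtain ⟨h3, h4, h5⟩ := mem_filter.1 hw
    obtain ⟨e, he, rfl⟩ := mem_image.1 h3
    exact mem_image.2 ⟨e, mem_filter.2 ⟨he, h5⟩, rfl⟩
  have h3 : Disjoint (K.filter fun e => ¬ G.Adj v e.2) (K.filter fun e => ¬ G.Adj v e.1) := by
    rw [disjoint_left]
    intro e he he'
    exact (mem_filter.1 he').2 (h32 e (mem_filter.1 he).1 (mem_filter.1 he).2)
  have h4 := card_union_of_disjoint h3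
  have h5 : ((K.filter fun e => ¬ G.Adj v e.2) ∪ (K.filter fun e => ¬ G.Adj v e.1)).card
      ≤ K.card := card_le_card (union_subset (filter_subset _ _) (filter_subset _ _))
  have h6 := (card_le_card h1).trans card_image_le
  omega

/-- **(CU)**: property (P), slope 1, on two classes and a set `W` of members of the cell, with the class
edges which pay the free arcs -/
theorem PG.cu (hP : PG G r) {Cx Cy W : Finset V} (hx : Clq G Cx) (hy : Clq G Cy)
    (dxy : Disjoint Cx Cy) (dxW : Disjoint Cx W) (dyW : Disjoint Cy W) {K : Finset (V × V)}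
    (k1 : ∀ e ∈ K, e.1 ∈ W) (k2 : ∀ e ∈ K, e.2 ∈ Cx) (k3 : ∀ e ∈ K, ¬ G.Adj e.1 e.2)
    (i1 : ∀ e ∈ K, ∀ f ∈ K, e.1 = f.1 → e = f) (i2 : ∀ e ∈ K, ∀ f ∈ K, e.2 = f.2 → e = f)
    (hr : ∀ w ∈ W, ∀ a ∈ Cx, ∀ c ∈ Cy, ¬ G.Adj w a → ¬ G.Adj w c → G.Adj a c)
    (hcx : ∀ w ∈ W, ∀ w' ∈ W, w ≠ w' → ∀ a ∈ Cx, ¬ G.Adj w a → ¬ G.Adj w' a → G.Adj w w')
    (hcy : ∀ w ∈ W, ∀ w' ∈ W, w ≠ w' → ∀ c ∈ Cy, ¬ G.Adj w c → ¬ G.Adj w' c → G.Adj w w')
    (hle : ∀ e ∈ K, (msC G Cx e.1).card ≤ (msC G Cy e.1).card)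
    (hU : Clq G (W \ K.image Prod.fst))
    (hUf : ∀ v ∈ W \ K.image Prod.fst, ∀ a ∈ Cx, ¬ G.Adj v a → ∃ e ∈ K, e.2 = a)
    {y0 : V} (hy0 : y0 ∈ Cy) (hyW : ∀ w ∈ W, G.Adj y0 w) :
    ((r : ℤ) - 1 - Cy.card) * ((W.card : ℤ) - ((r : ℤ) - 1 - Cx.card))
      + (K.card : ℤ) * ((Cy.card : ℤ) - W.card) + ((W.card : ℤ) - K.card) ≤ (r : ℤ) - 1 := by
  set P : Finset V := K.image Prod.fst with hPd
  set U : Finset V := W \ P with hUd
  have hPW : P ⊆ W := by
    intro v hv
    obtain ⟨e, he, rfl⟩ := mem_image.1 hv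
    exact k1 e he
  have hPc : P.card = K.card := card_image_of_injOn fun e he f hf hef =>
    i1 e (by exact_mod_cast he) f (by exact_mod_cast hf) hef
  have hdUP : Disjoint U P := sdiff_disjoint
  have hUPW : U ∪ P = W := sdiff_union_of_subset hPW
  have hWc : U.card + P.card = W.card := by rw [← card_union_of_disjoint hdUP, hUPW]
  -- own copies
  have hown : ∀ v ∈ P, ∃ a, (v, a) ∈ K := by
    intro v hv
    obtain ⟨e, he, rfl⟩ := mem_image.1 hv
    exact ⟨e.2, he⟩
  have hV : Nonempty V := ⟨y0⟩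
  choose! own hown using hown
  have hnx : ∀ v ∈ W, v ∉ Cx := fun v hv h => disjoint_left.1 dxW h hv
  have hny : ∀ v ∈ W, v ∉ Cy := fun v hv h => disjoint_left.1 dyW h hv
  have h1 := pay_sum (G := G) (P := P) (A := msC G Cx) (B := msC G Cy) (own := own) (Y := Cy)
    (fun v hv => mem_filter.2 ⟨k2 _ (hown v hv), k3 _ (hown v hv)⟩)
    (fun u hu v hv huv => by
      have e1 := i2 _ (hown u hu) _ (hown v hv) huv
      exact congrArg Prod.fst e1)
    (fun u hu v hv huv c hc hc' => hcy u (hPW hu) v (hPW hv) huv c (mem_filter.1 hc).1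
      (mem_filter.1 hc).2 (mem_filter.1 hc').2)
    (fun v _ => filter_subset _ _)
    (fun v hv => by
      obtain ⟨e, he, rfl⟩ := mem_image.1 hv
      exact hle e he)
  -- the edges of the class points of `y`
  have h2 : ∀ c ∈ Cy, ((P.filter fun v => c ∈ msC G Cy v).biUnion (msC G Cx)).card
      + P.card + (if c = y0 then U.card else 0)
      ≤ dg G Cx c + dg G W c + (P.filter fun v => c ∈ msC G Cy v).card := by
    intro c hc
    have e1 : ((P.filter fun v => c ∈ msC G Cy v).biUnion (msC G Cx)).card ≤ dg G Cx c := by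
      refine card_le_card fun a ha => ?_
      obtain ⟨v, hv, hav⟩ := mem_biUnion.1 ha
      obtain ⟨hv1, hv2⟩ := mem_filter.1 hv
      obtain ⟨ha1, ha2⟩ := mem_filter.1 hav
      exact mem_filter.2 ⟨ha1, (hr v (hPW hv1) a ha1 c hc ha2 (mem_filter.1 hv2).2).symm⟩
    have e2 : dg G W c = dg G U c + dg G P c := by
      rw [← hUPW]
      unfold dg
      rw [filter_union, card_union_of_disjoint (disjoint_filter_filter hdUP)]
    have e3 : P.card ≤ dg G P c + (P.filter fun v => c ∈ msC G Cy v).card := by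
      have e4 : P ⊆ (P.filter fun w => G.Adj c w) ∪ (P.filter fun v => c ∈ msC G Cy v) := by
        intro v hv
        by_cases h : G.Adj c v
        · exact mem_union_left _ (mem_filter.2 ⟨hv, h⟩)
        · exact mem_union_right _ (mem_filter.2 ⟨hv, mem_filter.2 ⟨hc, fun h' => h h'.symm⟩⟩)
      exact (card_le_card e4).trans (card_union_le _ _)
    have e4 : (if c = y0 then U.card else 0) ≤ dg G U c := by
      split_ifs with h
      · rw [h]
        refine card_le_card fun w hw => mem_filter.2 ⟨hw, hyW w (mem_sdiff.1 hw).1⟩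
      · exact Nat.zero_le _
    omega
  have h3 := sum_le_sum h2
  rw [sum_add_distrib, sum_add_distrib, sum_add_distrib, sum_add_distrib, sum_ite_eq' Cy y0,
    if_pos hy0, sum_const, smul_eq_mul] at h3
  have h4 : ∑ c ∈ Cy, (P.filter fun v => c ∈ msC G Cy v).card = ∑ v ∈ P, (msC G Cy v).card := by
    have h9 := sum_card_bipartiteAbove_eq_sum_card_bipartiteBelow (s := P) (t := Cy)
      (fun v c => c ∈ msC G Cy v)
    simp only [bipartiteAbove, bipartiteBelow] at h9
    rw [← h9]
    refine sum_congr rfl fun v hv => ?_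
    congr 1
    ext c
    rw [mem_filter]
    exact ⟨fun h => h.2, fun h => ⟨(mem_filter.1 h).1, h⟩⟩
  -- the arcs
  have h5 : ∀ v ∈ W, nd G Cx v = (msC G Cx v).card := by
    intro v hv
    unfold nd msC
    congr 1
    ext a
    rw [mem_filter, mem_filter]
    refine ⟨fun h => ⟨h.1, h.2.2⟩, fun h => ⟨h.1, fun h' => hnx v hv (h' ▸ h.1), h.2⟩⟩
  have h6 : ∑ w ∈ W, nd G Cx w = ∑ v ∈ U, (msC G Cx v).card + ∑ v ∈ P, (msC G Cx v).card := by
    rw [sum_congr rfl h5, ← hUPW, sum_union hdUP]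
  have h7 : ∑ v ∈ U, ((msC G Cx v).card + nd G P v) ≤ U.card * K.card := by
    have e1 : ∀ v ∈ U, (msC G Cx v).card + nd G P v ≤ K.card := by
      intro v hv
      have hvW := (mem_sdiff.1 hv).1
      refine used_le (fun a ha => hUf v hv a (mem_filter.1 ha).1 (mem_filter.1 ha).2)
        (fun a ha => (mem_filter.1 ha).2) fun e he hve => ?_
      refine hcx v hvW e.1 (k1 e he) (fun h => ?_) e.2 (k2 e he) hve (k3 e he)
      exact (mem_sdiff.1 hv).2 (h ▸ mem_image_of_mem _ he)
    have := sum_le_card_nsmul U _ _ e1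
    rwa [smul_eq_mul] at this
  rw [sum_add_distrib] at h7
  have h8 : NE G W = 2 * ∑ v ∈ U, nd G P v + NE G P := by
    have e1 := NE_union (G := G) hdUP.symm
    rw [union_comm, hUPW, NE_clq hU] at e1
    omega
  have h9 := E_add_NE (G := G) P
  have h10 : ∑ v ∈ P, (1 + dg G P v) = P.card + E G P := by
    rw [sum_add_distrib, sum_const, smul_eq_mul, mul_one]
    rfl
  have h11 := hP.s1_ne hx hy dxy dxW dyW
  rw [h10, ← h4] at h1
  have h12 : (∑ c ∈ Cy, (dg G Cx c : ℤ) + ∑ c ∈ Cy, (dg G W c : ℤ))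
      = ((∑ c ∈ Cy, dg G Cx c + ∑ c ∈ Cy, dg G W c : ℕ) : ℤ) := by push_cast; rfl
  have h13 : ∑ w ∈ W, (nd G Cx w : ℤ) = ((∑ w ∈ W, nd G Cx w : ℕ) : ℤ) := by push_cast; rfl
  rw [h12, h13, h6, h8] at h11
  have g1 : (U.card : ℤ) + K.card = W.card := by exact_mod_cast (hPc ▸ hWc)
  have g2 : (NE G P : ℤ) ≥ 0 := Int.natCast_nonneg _
  rw [hPc] at h9 h3 h1
  zify at h1 h3 h7
  push_cast at h11
  nlinarith [g1, g2, h1, h3, h7, h9, h11]

end CU

end Pool.Agent.Lib.MP_f04ccf_co
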