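import Mathlib.Data.Real.Basic
import Mathlib.Tactic.Linarith
import Mathlib.Tactic.Ring
import Mathlib.Tactic.Positivity
import Mathlib.Tactic.NormNum
import Mathlib.Tactic.IntervalCases

/-!
Branch and bound for polynomial inequalities on boxes, evaluated by the kernel.

A polynomial in `n` variables with natural coefficients is a nested list (outermost variable
first).  A real inequality is a pair `(P, Q)`, meaning `0 < P - Q`.  The variables run over
`[0, w i]`.  `run` walks through a list of boxes; every box is either split (the right half is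
translated to the corner) or closed by one pair `(P, Q)` of the list, whose least value is
bounded below by `P(0) - Q(0)` minus all negative monomials at the upper corner.
-/

namespace PolyBB

/-- nested lists of naturals -/
def Pol : Nat → Type
  | 0 => Nat
  | n + 1 => List (Pol n)

/-- value at a real point -/
noncomputable def ev : (n : Nat) → Pol n → (Nat → ℝ) → ℝ
  | 0, c, _ => ((show Nat from c : Nat) : ℝ)
  | n + 1, l, x =>
      List.foldr (fun c acc => ev n c (fun i => x (i + 1)) + x 0 * acc) 0 (show List (Pol n) from l)

/-- zero polynomial -/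
def zro : (n : Nat) → Pol n
  | 0 => (0 : Nat)
  | _ + 1 => ([] : List _)

/-- map, written with the recursor (fast in the kernel) -/
noncomputable def mapL {α β : Type} (f : α → β) (l : List α) : List β :=
  List.rec (motive := fun _ => List β) [] (fun a _ ih => f a :: ih) l

/-- zip with tails kept -/
noncomputable def addL {α : Type} (f : α → α → α) (l : List α) : List α → List α :=
  List.rec (motive := fun _ => List α → List α) (fun m => m)
    (fun a l ih m => List.rec (motive := fun _ => List α) (a :: l) (fun b m' _ => f a b :: ih m') m) l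

/-- sum -/
noncomputable def add (n : Nat) : Pol n → Pol n → Pol n :=
  Nat.rec (motive := fun n => Pol n → Pol n → Pol n) Nat.add (fun _ ih => addL ih) n

/-- multiple -/
noncomputable def smul (n : Nat) (k : Nat) : Pol n → Pol n :=
  Nat.rec (motive := fun n => Pol n → Pol n) (Nat.mul k) (fun _ ih => mapL ih) n

/-- zip with tails kept, the second list is multiplied -/
noncomputable def addM {α : Type} (g : α → α) (f : α → α → α) (l : List α) : List α → List α :=
  List.rec (motive := fun _ => List α → List α) (fun m => mapL g m)
    (fun a l ih m => List.rec (motive := fun _ => List α) (a :: l) (fun b m' _ => f a b :: ih m') m) l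

/-- `a + v b` -/
noncomputable def addv (n v : Nat) : Pol n → Pol n → Pol n :=
  Nat.rec (motive := fun n => Pol n → Pol n → Pol n) (fun a b => Nat.add a (Nat.mul v b))
    (fun n ih => addM (smul n v) ih) n

/-- translation of the outermost variable by `v` -/
noncomputable def shL (n v : Nat) (l : List (Pol n)) : List (Pol n) :=
  List.rec (motive := fun _ => List (Pol n)) []
    (fun c _ ih => addM (smul n v) (addv n v) (c :: ih) ih) l

/-- translation of variable `i` by `v` -/
noncomputable def sh (n i v : Nat) : Pol n → Pol n :=
  Nat.rec (motive := fun n => Nat → Pol n → Pol n) (fun _ p => p)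
    (fun n ih i => Nat.rec (motive := fun _ => List (Pol n) → List (Pol n)) (fun l => shL n v l)
      (fun i _ l => mapL (ih i) l) i) n i

@[simp] lemma mapL_nil {α β : Type} (f : α → β) : mapL f [] = [] := rfl
@[simp] lemma mapL_cons {α β : Type} (f : α → β) (a : α) (l : List α) :
    mapL f (a :: l) = f a :: mapL f l := rfl
lemma mapL_eq {α β : Type} (f : α → β) (l : List α) : mapL f l = List.map f l := by
  induction l with
  | nil => rfl
  | cons a l ih => rw [mapL_cons, ih, List.map_cons]
@[simp] lemma addL_nil {α : Type} (f : α → α → α) (m : List α) : addL f [] m = m := rfl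
@[simp] lemma addL_cons_nil {α : Type} (f : α → α → α) (a : α) (l : List α) :
    addL f (a :: l) [] = a :: l := rfl
@[simp] lemma addL_cons_cons {α : Type} (f : α → α → α) (a b : α) (l m : List α) :
    addL f (a :: l) (b :: m) = f a b :: addL f l m := rfl
@[simp] lemma shL_nil (n v : Nat) : shL n v [] = [] := rfl
@[simp] lemma shL_cons (n v : Nat) (c : Pol n) (l : List (Pol n)) :
    shL n v (c :: l) = addM (smul n v) (addv n v) (c :: shL n v l) (shL n v l) := rfl
@[simp] lemma addM_nil {α : Type} (g : α → α) (f : α → α → α) (m : List α) :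
    addM g f [] m = mapL g m := rfl
@[simp] lemma addM_cons_nil {α : Type} (g : α → α) (f : α → α → α) (a : α) (l : List α) :
    addM g f (a :: l) [] = a :: l := rfl
@[simp] lemma addM_cons_cons {α : Type} (g : α → α) (f : α → α → α) (a b : α) (l m : List α) :
    addM g f (a :: l) (b :: m) = f a b :: addM g f l m := rfl

/-- constant coefficient -/
noncomputable def c0 (n : Nat) : Pol n → Nat :=
  Nat.rec (motive := fun n => Pol n → Nat) (fun a => a)
    (fun n ih l => List.rec (motive := fun _ => Nat) 0 (fun (a : Pol n) _ _ => ih a)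
      (show List (Pol n) from l)) n

/-- negative part of `P - Q` at the upper corner, one list level (recursion on `Q`) -/
noncomputable def negL {α : Type} (z : α) (f : α → α → Nat) (w : Nat) (P Q : List α) : Nat :=
  List.rec (motive := fun _ => List α → Nat) (fun _ => 0)
    (fun b _ ih P => List.rec (motive := fun _ => Nat) (Nat.add (f z b) (Nat.mul w (ih [])))
      (fun a l _ => Nat.add (f a b) (Nat.mul w (ih l))) P) Q P

@[simp] lemma negL_nil {α : Type} (z : α) (f : α → α → Nat) (w : Nat) (P : List α) :
    negL z f w P [] = 0 := rfl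
@[simp] lemma negL_nil_cons {α : Type} (z : α) (f : α → α → Nat) (w : Nat) (b : α) (m : List α) :
    negL z f w [] (b :: m) = f z b + w * negL z f w [] m := rfl
@[simp] lemma negL_cons_cons {α : Type} (z : α) (f : α → α → Nat) (w : Nat) (a b : α)
    (l m : List α) : negL z f w (a :: l) (b :: m) = f a b + w * negL z f w l m := rfl

/-- negative part of `P - Q` at the upper corner -/
noncomputable def neg (n : Nat) : List Nat → Pol n → Pol n → Nat :=
  Nat.rec (motive := fun n => List Nat → Pol n → Pol n → Nat) (fun _ p q => Nat.sub q p)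
    (fun n ih ws P Q => negL (zro n) (ih ws.tail) ws.headI P Q) n

@[simp] lemma ev_nil (n : Nat) (x : Nat → ℝ) : ev (n + 1) ([] : List (Pol n)) x = 0 := rfl

@[simp] lemma ev_cons (n : Nat) (c : Pol n) (l : List (Pol n)) (x : Nat → ℝ) :
    ev (n + 1) (c :: l : List (Pol n)) x =
      ev n c (fun i => x (i + 1)) + x 0 * ev (n + 1) (l : List (Pol n)) x := rfl

@[simp] lemma ev_zero (c : Nat) (x : Nat → ℝ) : ev 0 (c : Nat) x = (c : ℝ) := rfl

lemma ev_zro (n : Nat) (x : Nat → ℝ) : ev n (zro n) x = 0 := by
  cases n with
  | zero => simp [zro, ev]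
  | succ n => rfl

lemma ev_nonneg : (n : Nat) → (p : Pol n) → (x : Nat → ℝ) → (∀ i, 0 ≤ x i) → 0 ≤ ev n p x
  | 0, c, _, _ => by
      show (0 : ℝ) ≤ ((show Nat from c : Nat) : ℝ)
      positivity
  | n + 1, l, x, h => by
      induction (show List (Pol n) from l) with
      | nil => exact le_refl _
      | cons c l ih =>
          show 0 ≤ ev n c (fun i => x (i + 1)) + x 0 * ev (n + 1) (l : List (Pol n)) x
          have h1 := ev_nonneg n c (fun i => x (i + 1)) (fun i => h (i + 1))
          have h2 := mul_nonneg (h 0) ih
          linarith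

lemma ev_addL (n : Nat) (f : Pol n → Pol n → Pol n) (x : Nat → ℝ)
    (hf : ∀ a b, ev n (f a b) (fun i => x (i + 1)) =
      ev n a (fun i => x (i + 1)) + ev n b (fun i => x (i + 1))) :
    ∀ l m : List (Pol n), ev (n + 1) (addL f l m : List (Pol n)) x =
      ev (n + 1) (l : List (Pol n)) x + ev (n + 1) (m : List (Pol n)) x
  | [], m => by simp
  | a :: l, [] => by simp
  | a :: l, b :: m => by
      have ih := ev_addL n f x hf l m
      simp only [addL_cons_cons, ev_cons, ih, hf]
      ring

lemma ev_add : (n : Nat) → (a b : Pol n) → (x : Nat → ℝ) →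
    ev n (add n a b) x = ev n a x + ev n b x
  | 0, a, b, _ => by
      show ((Nat.add a b : Nat) : ℝ) = ((show Nat from a : Nat) : ℝ) + ((show Nat from b : Nat) : ℝ)
      exact Nat.cast_add _ _
  | n + 1, a, b, x => ev_addL n (add n) x (fun a b => ev_add n a b _) a b

lemma ev_mapsmul (n : Nat) (k : Nat) (f : Pol n → Pol n) (x : Nat → ℝ)
    (hf : ∀ a, ev n (f a) (fun i => x (i + 1)) = (k : ℝ) * ev n a (fun i => x (i + 1))) :
    ∀ l : List (Pol n), ev (n + 1) (mapL f l : List (Pol n)) x =
      (k : ℝ) * ev (n + 1) (l : List (Pol n)) x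
  | [] => by simp
  | a :: l => by
      have ih := ev_mapsmul n k f x hf l
      simp only [mapL_cons, ev_cons, ih, hf]
      ring

lemma ev_smul : (n : Nat) → (k : Nat) → (a : Pol n) → (x : Nat → ℝ) →
    ev n (smul n k a) x = (k : ℝ) * ev n a x
  | 0, k, a, _ => by
      show ((Nat.mul k a : Nat) : ℝ) = (k : ℝ) * ((show Nat from a : Nat) : ℝ)
      exact Nat.cast_mul _ _
  | n + 1, k, a, x => ev_mapsmul n k (smul n k) x (fun a => ev_smul n k a _) a

lemma ev_addM (n v : Nat) (g : Pol n → Pol n) (f : Pol n → Pol n → Pol n) (x : Nat → ℝ)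
    (hg : ∀ a, ev n (g a) (fun i => x (i + 1)) = (v : ℝ) * ev n a (fun i => x (i + 1)))
    (hf : ∀ a b, ev n (f a b) (fun i => x (i + 1)) =
      ev n a (fun i => x (i + 1)) + (v : ℝ) * ev n b (fun i => x (i + 1))) :
    ∀ l m : List (Pol n), ev (n + 1) (addM g f l m : List (Pol n)) x =
      ev (n + 1) (l : List (Pol n)) x + (v : ℝ) * ev (n + 1) (m : List (Pol n)) x
  | [], m => by
      have := ev_mapsmul n v g x hg m
      simp only [addM_nil, this, ev_nil]
      ring
  | a :: l, [] => by simp
  | a :: l, b :: m => by
      have ih := ev_addM n v g f x hg hf l m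
      simp only [addM_cons_cons, ev_cons, ih, hf]
      ring

lemma ev_addv (v : Nat) : (n : Nat) → (a b : Pol n) → (x : Nat → ℝ) →
    ev n (addv n v a b) x = ev n a x + (v : ℝ) * ev n b x
  | 0, a, b, _ => by
      show ((Nat.add a (Nat.mul v b) : Nat) : ℝ) =
        ((show Nat from a : Nat) : ℝ) + (v : ℝ) * ((show Nat from b : Nat) : ℝ)
      have h1 : ((Nat.add a (Nat.mul v b) : Nat) : ℝ) =
        ((show Nat from a : Nat) : ℝ) + ((Nat.mul v b : Nat) : ℝ) := Nat.cast_add _ _
      have h2 : ((Nat.mul v b : Nat) : ℝ) = (v : ℝ) * ((show Nat from b : Nat) : ℝ) :=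
        Nat.cast_mul _ _
      rw [h1, h2]
  | n + 1, a, b, x => ev_addM n v (smul n v) (addv n v) x (fun a => ev_smul n v a _)
      (fun a b => ev_addv v n a b _) a b

lemma ev_shL (n v : Nat) (x : Nat → ℝ) : ∀ l : List (Pol n),
    ev (n + 1) (shL n v l : List (Pol n)) x =
      ev (n + 1) (l : List (Pol n)) (fun i => if i = 0 then x 0 + (v : ℝ) else x i)
  | [] => by simp
  | c :: l => by
      have ih := ev_shL n v x l
      have h1 := ev_addM n v (smul n v) (addv n v) x (fun a => ev_smul n v a _)
        (fun a b => ev_addv v n a b _) (c :: shL n v l) (shL n v l)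
      simp only [shL_cons, h1, ev_cons, ih]
      simp only [Nat.add_eq_zero_iff, one_ne_zero, and_false, if_false, if_true]
      ring

lemma ev_sh : (n i v : Nat) → (p : Pol n) → (x : Nat → ℝ) → i < n →
    ev n (sh n i v p) x = ev n p (fun j => if j = i then x j + (v : ℝ) else x j)
  | 0, i, v, p, x, h => absurd h (Nat.not_lt_zero i)
  | n + 1, 0, v, l, x, _ => by
      have := ev_shL n v x l
      show ev (n + 1) (shL n v l : List (Pol n)) x = _
      rw [this]
      congr 1
      funext j
      by_cases hj : j = 0
      · subst hj; simp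
      · simp [hj]
  | n + 1, i + 1, v, l, x, h => by
      show ev (n + 1) (mapL (sh n i v) l : List (Pol n)) x = _
      induction (show List (Pol n) from l) with
      | nil => simp
      | cons c l ih =>
          have h1 := ev_sh n i v c (fun j => x (j + 1)) (Nat.lt_of_succ_lt_succ h)
          simp only [mapL_cons, ev_cons, ih, h1]
          have e1 : (fun j => if j = i then x (j + 1) + (v : ℝ) else x (j + 1)) =
              (fun j => (fun j => if j = i + 1 then x j + (v : ℝ) else x j) (j + 1)) := by
            funext j
            by_cases hj : j = i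
            · subst hj; simp
            · simp [hj]
          rw [e1]
          simp

lemma negL_low (n : Nat) (w : Nat) (f : Pol n → Pol n → Nat) (x : Nat → ℝ)
    (h0 : 0 ≤ x 0) (hw : x 0 ≤ (w : ℝ)) (hx : ∀ i, 0 ≤ x i)
    (hf : ∀ a b, ((c0 n a - c0 n b : Nat) : ℝ) - (f a b : ℝ) ≤
      ev n a (fun i => x (i + 1)) - ev n b (fun i => x (i + 1))) :
    ∀ P Q : List (Pol n), ((c0 (n + 1) P - c0 (n + 1) Q : Nat) : ℝ) -
      (negL (zro n) f w P Q : ℝ) ≤ ev (n + 1) (P : List (Pol n)) x - ev (n + 1) (Q : List (Pol n)) x
  | P, [] => by
      cases P with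
      | nil =>
          show ((0 - 0 : Nat) : ℝ) - ((0 : Nat) : ℝ) ≤ _
          simp
      | cons a l =>
          have h1 := hf a (zro n)
          have hz : c0 n (zro n) = 0 := by cases n <;> rfl
          have h2 := ev_nonneg (n + 1) (l : List (Pol n)) x hx
          have h3 := ev_nonneg n a (fun i => x (i + 1)) (fun i => hx (i + 1))
          have h4 : ((c0 n a : Nat) : ℝ) ≤ ev n a (fun i => x (i + 1)) := c0_le n a _ (fun i => hx (i + 1))
          simp only [negL_nil, negL_nil_cons, ev_cons, ev_nil]
          show (((c0 n a) - 0 : Nat) : ℝ) - ((0 : Nat) : ℝ) ≤ _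
          simp only [Nat.sub_zero, Nat.cast_zero]
          nlinarith [mul_nonneg h0 h2]
  | [], b :: m => by
      have ih := negL_low n w f x h0 hw hx hf [] m
      have h1 := hf (zro n) b
      have hz : c0 n (zro n) = 0 := by cases n <;> rfl
      rw [ev_zro, hz] at h1
      simp only [negL_nil, negL_nil_cons, ev_cons, ev_nil]
      show ((0 - c0 n b : Nat) : ℝ) - ((f (zro n) b + w * negL (zro n) f w [] m : Nat) : ℝ) ≤ _
      simp only [ev_nil] at ih
      have ih' : -(negL (zro n) f w [] m : ℝ) ≤ 0 - ev (n + 1) (m : List (Pol n)) x := by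
        have h5 : ((c0 (n + 1) ([] : List (Pol n)) - c0 (n + 1) m : Nat) : ℝ) = 0 := by
          have : c0 (n + 1) ([] : List (Pol n)) = 0 := rfl
          rw [this]; simp
        rw [h5] at ih
        linarith
      push_cast
      have h6 : x 0 * ev (n + 1) (m : List (Pol n)) x ≤ x 0 * (negL (zro n) f w [] m : ℝ) :=
        mul_le_mul_of_nonneg_left (by linarith) h0
      have h7 : x 0 * (negL (zro n) f w [] m : ℝ) ≤ (w : ℝ) * (negL (zro n) f w [] m : ℝ) :=
        mul_le_mul_of_nonneg_right hw (Nat.cast_nonneg _)
      simp only [zero_tsub, Nat.cast_zero] at h1 ⊢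
      linarith
  | a :: l, b :: m => by
      have ih := negL_low n w f x h0 hw hx hf l m
      have h1 := hf a b
      simp only [negL_cons_cons, ev_cons]
      show ((c0 n a - c0 n b : Nat) : ℝ) - ((f a b + w * negL (zro n) f w l m : Nat) : ℝ) ≤ _
      have ih' : -(negL (zro n) f w l m : ℝ) ≤
          ev (n + 1) (l : List (Pol n)) x - ev (n + 1) (m : List (Pol n)) x := by
        have : (0 : ℝ) ≤ ((c0 (n + 1) l - c0 (n + 1) m : Nat) : ℝ) := Nat.cast_nonneg _
        linarith
      push_cast
      have h6 : x 0 * (-(negL (zro n) f w l m : ℝ)) ≤ x 0 *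
          (ev (n + 1) (l : List (Pol n)) x - ev (n + 1) (m : List (Pol n)) x) :=
        mul_le_mul_of_nonneg_left ih' h0
      have h7 : x 0 * (negL (zro n) f w l m : ℝ) ≤ (w : ℝ) * (negL (zro n) f w l m : ℝ) :=
        mul_le_mul_of_nonneg_right hw (Nat.cast_nonneg _)
      linarith
where
  c0_le : (n : Nat) → (a : Pol n) → (x : Nat → ℝ) → (∀ i, 0 ≤ x i) → ((c0 n a : Nat) : ℝ) ≤ ev n a x
    | 0, _, _, _ => le_refl _
    | n + 1, l, x, h => by
        cases l with
        | nil => show ((0 : Nat) : ℝ) ≤ 0; simp
        | cons a l =>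
            have h1 := c0_le n a (fun i => x (i + 1)) (fun i => h (i + 1))
            have h2 := ev_nonneg (n + 1) (l : List (Pol n)) x h
            show ((c0 n a : Nat) : ℝ) ≤ ev n a (fun i => x (i + 1)) + x 0 * ev (n + 1) (l : List (Pol n)) x
            nlinarith [mul_nonneg (h 0) h2]

/-- lower bound of `P - Q` on the box -/
lemma low : (n : Nat) → (ws : List Nat) → (P Q : Pol n) → (x : Nat → ℝ) → (∀ i, 0 ≤ x i) →
    (∀ i, i < n → x i ≤ ((ws.getD i 0 : Nat) : ℝ)) →
    ((c0 n P - c0 n Q : Nat) : ℝ) - (neg n ws P Q : ℝ) ≤ ev n P x - ev n Q x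
  | 0, ws, P, Q, x, _, _ => by
      show (((show Nat from P) - (show Nat from Q) : Nat) : ℝ) -
        (((show Nat from Q) - (show Nat from P) : Nat) : ℝ) ≤
        ((show Nat from P : Nat) : ℝ) - ((show Nat from Q : Nat) : ℝ)
      generalize (show Nat from P) = p
      generalize (show Nat from Q) = q
      rcases le_total p q with h | h
      · rw [Nat.sub_eq_zero_of_le h, Nat.cast_sub h]
        push_cast
        linarith
      · rw [Nat.sub_eq_zero_of_le h, Nat.cast_sub h]
        push_cast
        linarith
  | n + 1, ws, P, Q, x, h, hw => by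
      have hw0 : x 0 ≤ ((ws.headI : Nat) : ℝ) := by
        have := hw 0 (Nat.succ_pos n)
        cases ws with
        | nil => simpa using this
        | cons a l => simpa using this
      have hf : ∀ a b, ((c0 n a - c0 n b : Nat) : ℝ) - (neg n ws.tail a b : ℝ) ≤
          ev n a (fun i => x (i + 1)) - ev n b (fun i => x (i + 1)) := by
        intro a b
        refine low n ws.tail a b _ (fun i => h (i + 1)) (fun i hi => ?_)
        have := hw (i + 1) (Nat.succ_lt_succ hi)
        cases ws with
        | nil => simpa using this
        | cons a l => simpa using this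
      exact negL_low n ws.headI (neg n ws.tail) x (h 0) hw0 h hf P Q

/-- force a natural number -/
noncomputable def forceN (a : Nat) (k : Nat → Bool) : Bool :=
  Nat.rec (motive := fun _ => Bool) (k 0) (fun m _ => k (Nat.succ m)) a

lemma forceN_eq (a : Nat) (k : Nat → Bool) : forceN a k = k a := by cases a <;> rfl

/-- translate a pair -/
noncomputable def shP (n i v : Nat) (a : Pol n × Pol n) : Pol n × Pol n := (sh n i v a.1, sh n i v a.2)

/-- the inequality `a` holds on the box `[0, ws]` -/
noncomputable def okP (n : Nat) (ws : List Nat) (a : Pol n × Pol n) : Bool :=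
  Nat.ble (Nat.succ (neg n ws a.1 a.2)) (Nat.sub (c0 n a.1) (c0 n a.2))

/-- list entry -/
def getP {α : Type} : List α → Nat → Option α
  | [], _ => none
  | a :: _, 0 => some a
  | _ :: l, j + 1 => getP l j

lemma getP_mem {α : Type} : ∀ (l : List α) (j : Nat) (a : α), getP l j = some a → a ∈ l
  | [], _, _, h => by simp [getP] at h
  | b :: l, 0, a, h => by simp [getP] at h; simp [h]
  | b :: l, j + 1, a, h => by
      have := getP_mem l j a (by simpa [getP] using h)
      exact List.mem_cons_of_mem _ this

/-- branch and bound: opcode `2 j` closes the top box by the pair `j`, opcode `2 i + 1` splits it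
along variable `i` -/
noncomputable def run (n : Nat) : List Nat → List (List Nat × List (Pol n × Pol n)) → Bool
  | _, [] => true
  | [], _ :: _ => false
  | c :: cs, (ws, ps) :: st =>
      cond (Nat.beq (Nat.mod c 2) 0)
        (match getP ps (Nat.div c 2) with
          | none => false
          | some a => cond (okP n ws a) (run n cs st) false)
        (cond (Nat.ble (Nat.succ (Nat.div c 2)) n)
          (forceN (Nat.div (ws.getD (Nat.div c 2) 0) 2) (fun v =>
            run n cs ((ws.set (Nat.div c 2) v, ps) ::
              (ws.set (Nat.div c 2) (Nat.sub (ws.getD (Nat.div c 2) 0) v),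
                mapL (shP n (Nat.div c 2) v) ps) :: st)))
          false)

/-- one box is fine -/
def good (n : Nat) (b : List Nat × List (Pol n × Pol n)) : Prop :=
  ∀ x : Nat → ℝ, (∀ i, 0 ≤ x i) → (∀ i, i < n → x i ≤ ((b.1.getD i 0 : Nat) : ℝ)) →
    ∃ a ∈ b.2, ev n a.2 x < ev n a.1 x

lemma okP_good (n : Nat) (ws : List Nat) (ps : List (Pol n × Pol n)) (a : Pol n × Pol n)
    (ha : a ∈ ps) (h : okP n ws a = true) : good n (ws, ps) := by
  intro x hx hw
  refine ⟨a, ha, ?_⟩
  have h1 := low n ws a.1 a.2 x hx hw
  have h2 : neg n ws a.1 a.2 + 1 ≤ c0 n a.1 - c0 n a.2 := Nat.le_of_ble_eq_true h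
  have h3 : ((neg n ws a.1 a.2 : Nat) : ℝ) + 1 ≤ ((c0 n a.1 - c0 n a.2 : Nat) : ℝ) := by
    exact_mod_cast h2
  linarith

lemma split_good (n : Nat) (ws : List Nat) (ps : List (Pol n × Pol n)) (i v : Nat) (hi : i < n)
    (h1 : good n (ws.set i v, ps))
    (h2 : good n (ws.set i (ws.getD i 0 - v), mapL (shP n i v) ps)) : good n (ws, ps) := by
  intro x hx hw
  by_cases hl : i < ws.length
  · by_cases hv : x i ≤ (v : ℝ)
    · refine h1 x hx (fun j hj => ?_)
      by_cases hji : j = i
      · subst hji
        simpa [List.getD, hl] using hv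
      · have := hw j hj
        simpa [List.getD, List.getElem?_set, Ne.symm hji] using this
    · push Not at hv
      have hle : (v : ℝ) ≤ ((ws.getD i 0 : Nat) : ℝ) := le_trans hv.le (hw i hi)
      have hle' : v ≤ ws.getD i 0 := by exact_mod_cast hle
      obtain ⟨a, ha, hlt⟩ := h2 (fun j => if j = i then x j - (v : ℝ) else x j) (fun j => by
          by_cases hji : j = i
          · simp only [hji, if_true]; linarith
          · simp only [hji, if_false]; exact hx j) (fun j hj => by
          by_cases hji : j = i
          · subst hji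
            have h3 := hw j hj
            have h4 : (((ws.set j (ws.getD j 0 - v)).getD j 0 : Nat) : ℝ) =
                ((ws.getD j 0 : Nat) : ℝ) - (v : ℝ) := by
              have : (ws.set j (ws.getD j 0 - v)).getD j 0 = ws.getD j 0 - v := by
                simp [List.getD, hl]
              rw [this, Nat.cast_sub hle']
            rw [h4]
            simp only [if_true]
            linarith
          · have := hw j hj
            simpa [List.getD, List.getElem?_set, Ne.symm hji, hji] using this)
      change a ∈ mapL (shP n i v) ps at ha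
      rw [mapL_eq, List.mem_map] at ha
      obtain ⟨b, hb, rfl⟩ := ha
      refine ⟨b, hb, ?_⟩
      have e : (fun j => if j = i then (fun j => if j = i then x j - (v : ℝ) else x j) j + (v : ℝ)
          else (fun j => if j = i then x j - (v : ℝ) else x j) j) = x := by
        funext j
        by_cases hji : j = i
        · simp [hji]
        · simp [hji]
      simp only [shP, ev_sh n i v _ _ hi] at hlt
      rw [e] at hlt
      exact hlt
  · have hz : ws.getD i 0 = 0 := by
      simp [List.getD, List.getElem?_eq_none (not_lt.mp hl)]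
    have hset : ws.set i v = ws := List.set_eq_of_length_le (not_lt.mp hl)
    rw [hset] at h1
    exact h1 x hx hw

theorem run_good (n : Nat) : ∀ (cs : List Nat) (st : List (List Nat × List (Pol n × Pol n))),
    run n cs st = true → ∀ b ∈ st, good n b
  | cs, [], _ => by simp
  | [], b :: st, h => by simp [run] at h
  | c :: cs, (ws, ps) :: st, h => by
      unfold run at h
      cases hc : Nat.beq (Nat.mod c 2) 0 with
      | true =>
          rw [hc] at h
          simp only [cond_true] at h
          cases hg : getP ps (Nat.div c 2) with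
          | none => rw [hg] at h; simp at h
          | some a =>
              rw [hg] at h
              simp only at h
              cases ho : okP n ws a with
              | false => rw [ho] at h; simp at h
              | true =>
                  rw [ho] at h
                  simp only [cond_true] at h
                  have ih := run_good n cs st h
                  intro b hb
                  rcases List.mem_cons.mp hb with rfl | hb
                  · exact okP_good n ws ps a (getP_mem _ _ _ hg) ho
                  · exact ih b hb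
      | false =>
          rw [hc] at h
          simp only [cond_false] at h
          cases hn : Nat.ble (Nat.succ (Nat.div c 2)) n with
          | false => rw [hn] at h; simp at h
          | true =>
              rw [hn] at h
              simp only [cond_true] at h
              rw [forceN_eq] at h
              have ih := run_good n cs _ h
              have hi : Nat.div c 2 < n := Nat.le_of_ble_eq_true hn
              intro b hb
              rcases List.mem_cons.mp hb with rfl | hb
              · exact split_good n ws ps _ _ hi (ih _ (List.mem_cons_self ..))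
                  (ih _ (List.mem_cons_of_mem _ (List.mem_cons_self ..)))
              · exact ih b (List.mem_cons_of_mem _ (List.mem_cons_of_mem _ hb))

/-- the theorem for applications -/
theorem main (n : Nat) (cs ws : List Nat) (ps : List (Pol n × Pol n))
    (h : run n cs [(ws, ps)] = true) (x : Nat → ℝ) (hx : ∀ i, 0 ≤ x i)
    (hw : ∀ i, i < n → x i ≤ ((ws.getD i 0 : Nat) : ℝ)) :
    ∃ a ∈ ps, ev n a.2 x < ev n a.1 x :=
  run_good n cs _ h _ (List.mem_cons_self ..) x hx hw

/-- the same with the point given as a list -/
theorem mainL (n : Nat) (cs ws : List Nat) (ps : List (Pol n × Pol n))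
    (h : run n cs [(ws, ps)] = true) (xs : List ℝ)
    (hx : List.Forall₂ (fun (x : ℝ) (w : Nat) => 0 ≤ x ∧ x ≤ (w : ℝ)) xs ws) :
    ∃ a ∈ ps, ev n a.2 (fun i => xs.getD i 0) < ev n a.1 (fun i => xs.getD i 0) := by
  have key : ∀ (xs : List ℝ) (ws : List Nat),
      List.Forall₂ (fun (x : ℝ) (w : Nat) => 0 ≤ x ∧ x ≤ (w : ℝ)) xs ws →
      ∀ i, 0 ≤ xs.getD i 0 ∧ xs.getD i 0 ≤ ((ws.getD i 0 : Nat) : ℝ) := by
    intro xs ws hf
    induction hf with
    | nil => intro i; simp
    | cons h1 _ ih =>
        intro i
        cases i with
        | zero => simpa using h1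
        | succ i => simpa using ih i
  exact main n cs ws ps h _ (fun i => (key xs ws hx i).1) (fun i _ => (key xs ws hx i).2)

end PolyBB
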