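import Pool.Agent.Lib.MP_f04ccf_co.S2Homes

/-!
MP_f04ccf_co: the cover inequality (note 15208).  For every set `A` of doubles the number of
nonadjacent pairs with the same home, different tails and no point in `A` is large.
-/

set_option autoImplicit false

namespace Pool.Agent.Lib.MP_f04ccf_co

open Finset

attribute [local instance] Classical.propDecidable

section Qp

variable {V : Type*} {G : SimpleGraph V} {r m t : ℕ} {Z T : Finset V} {hm : V → V}

variable (G Z T) in
/-- the number of missed points in the two classes of the ends -/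
noncomputable def KK (z : V) : ℕ := ∑ v ∈ ends G T z, kap G Z T v z

variable (G T hm) in
/-- twice the weight of a nonadjacent pair which is not seen by the blocks of the ends of `z` -/
noncomputable def dw (z y : V) : ℤ :=
  if hm y ∈ ends G T z then 0
  else if ∃ v ∈ ends G T z, v ≠ hm z ∧ v ∈ ends G T y then 1 else 2

variable (G T hm) in
/-- the free part of a pair -/
noncomputable def sQ (z y : V) : ℤ := if (co G).Adj z y then dw G T hm z y else 2

variable (G T hm) in
/-- the nonadjacent pairs with the same home and different tails -/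
def dfG : SimpleGraph V where
  Adj x y := (co G).Adj x y ∧ hm x = hm y ∧ ends G T x ≠ ends G T y
  symm := ⟨fun _ _ h => ⟨h.1.symm, h.2.1.symm, h.2.2.symm⟩⟩
  loopless := ⟨fun x h => (co G).loopless.irrefl x h.1⟩

lemma dg_dfG (z : V) : dg (dfG G T hm) (BB G Z T) z = diffH G Z T hm z := by
  unfold dg diffH
  congr 1
  refine filter_congr fun y _ => Iff.rfl

lemma dw_nonneg (z y : V) : 0 ≤ dw G T hm z y := by
  unfold dw
  split_ifs <;> norm_num

lemma sQ_nonneg (z y : V) : 0 ≤ sQ G T hm z y := by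
  unfold sQ
  split_ifs
  · exact dw_nonneg z y
  · norm_num

/-- the ends of a tail -/
private lemma qp_ends (hh : Homes G Z T hm) {w z : V} (hz : z ∈ tails G Z T hm w) :
    ends G T z = {hm z, w} ∧ hm z ≠ w ∧ z ∈ BB G Z T := by
  obtain ⟨h1, h2, h3⟩ := mem_tails.1 hz
  exact ⟨ends_eq_pair h1 (hh z h1) h2 h3, h3, h1⟩

/-- the account of one point -/
private lemma qp_point (hh : Homes G Z T hm) {w z : V} (hz : z ∈ tails G Z T hm w) {y : V}
    (hy : y ∈ BB G Z T) :
    2 * (if (co G).Adj z y ∧ hm y = w then (1 : ℤ) else 0)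
      + (if (co G).Adj z y ∧ hm z = hm y ∧ w ∈ ends G T y ∧ hm y ≠ w then (1 : ℤ) else 0)
      + (if (co G).Adj z y ∧ w ∈ ends G T y ∧ hm y ≠ w then (1 : ℤ) else 0)
      + 2 * (if (co G).Adj z y ∧ hm z = hm y ∧ ends G T z ≠ ends G T y then (1 : ℤ) else 0)
      = 2 - sQ G T hm z y := by
  obtain ⟨h1, h2, h3⟩ := qp_ends hh hz
  have hyh := hh y hy
  unfold sQ
  by_cases hadj : (co G).Adj z y
  · rw [if_pos hadj]
    unfold dw
    by_cases hyw : hm y = w
    · have e1 : hm y ∈ ends G T z := by rw [h1, hyw]; simp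
      have p2 : ¬ ((co G).Adj z y ∧ hm z = hm y ∧ w ∈ ends G T y ∧ hm y ≠ w) :=
        fun h => h.2.2.2 hyw
      have p3 : ¬ ((co G).Adj z y ∧ w ∈ ends G T y ∧ hm y ≠ w) := fun h => h.2.2 hyw
      have p4 : ¬ ((co G).Adj z y ∧ hm z = hm y ∧ ends G T z ≠ ends G T y) :=
        fun h => h2 (h.2.1.trans hyw)
      rw [if_pos e1, if_pos ⟨hadj, hyw⟩, if_neg p2, if_neg p3, if_neg p4]
      norm_num
    · have p1 : ¬ ((co G).Adj z y ∧ hm y = w) := fun h => hyw h.2
      rw [if_neg p1]
      by_cases hyz : hm z = hm y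
      · have e1 : hm y ∈ ends G T z := by rw [h1, ← hyz]; simp
        rw [if_pos e1]
        by_cases hwy : w ∈ ends G T y
        · have e2 : ends G T y = {hm y, w} := ends_eq_pair hy hyh hwy hyw
          have e3 : ends G T z = ends G T y := by rw [h1, e2, hyz]
          have p2 : ((co G).Adj z y ∧ hm z = hm y ∧ w ∈ ends G T y ∧ hm y ≠ w) :=
            ⟨hadj, hyz, hwy, hyw⟩
          have p3 : ((co G).Adj z y ∧ w ∈ ends G T y ∧ hm y ≠ w) := ⟨hadj, hwy, hyw⟩
          have p4 : ¬ ((co G).Adj z y ∧ hm z = hm y ∧ ends G T z ≠ ends G T y) :=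
            fun h => h.2.2 e3
          rw [if_pos p2, if_pos p3, if_neg p4]
          norm_num
        · have e3 : ends G T z ≠ ends G T y := by
            intro h
            apply hwy
            rw [← h, h1]
            simp
          have p2 : ¬ ((co G).Adj z y ∧ hm z = hm y ∧ w ∈ ends G T y ∧ hm y ≠ w) :=
            fun h => hwy h.2.2.1
          have p3 : ¬ ((co G).Adj z y ∧ w ∈ ends G T y ∧ hm y ≠ w) := fun h => hwy h.2.1
          have p4 : ((co G).Adj z y ∧ hm z = hm y ∧ ends G T z ≠ ends G T y) :=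
            ⟨hadj, hyz, e3⟩
          rw [if_neg p2, if_neg p3, if_pos p4]
          norm_num
      · have e1 : hm y ∉ ends G T z := by
          rw [h1, mem_insert, mem_singleton]
          rintro (h | h)
          · exact hyz h.symm
          · exact hyw h
        have p2 : ¬ ((co G).Adj z y ∧ hm z = hm y ∧ w ∈ ends G T y ∧ hm y ≠ w) :=
          fun h => hyz h.2.1
        have p4 : ¬ ((co G).Adj z y ∧ hm z = hm y ∧ ends G T z ≠ ends G T y) :=
          fun h => hyz h.2.1
        rw [if_neg e1, if_neg p2, if_neg p4]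
        by_cases hwy : w ∈ ends G T y
        · have p3 : ((co G).Adj z y ∧ w ∈ ends G T y ∧ hm y ≠ w) := ⟨hadj, hwy, hyw⟩
          have p5 : ∃ v ∈ ends G T z, v ≠ hm z ∧ v ∈ ends G T y :=
            ⟨w, by rw [h1]; simp, h2.symm, hwy⟩
          rw [if_pos p3, if_pos p5]
          norm_num
        · have p3 : ¬ ((co G).Adj z y ∧ w ∈ ends G T y ∧ hm y ≠ w) := fun h => hwy h.2.1
          have p5 : ¬ ∃ v ∈ ends G T z, v ≠ hm z ∧ v ∈ ends G T y := by
            rintro ⟨v, hv1, hv2, hv3⟩
            rw [h1, mem_insert, mem_singleton] at hv1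
            rcases hv1 with hv1 | hv1
            · exact hv2 hv1
            · exact hwy (hv1 ▸ hv3)
          rw [if_neg p3, if_neg p5]
          norm_num
  · have p1 : ¬ ((co G).Adj z y ∧ hm y = w) := fun h => hadj h.1
    have p2 : ¬ ((co G).Adj z y ∧ hm z = hm y ∧ w ∈ ends G T y ∧ hm y ≠ w) := fun h => hadj h.1
    have p3 : ¬ ((co G).Adj z y ∧ w ∈ ends G T y ∧ hm y ≠ w) := fun h => hadj h.1
    have p4 : ¬ ((co G).Adj z y ∧ hm z = hm y ∧ ends G T z ≠ ends G T y) := fun h => hadj h.1
    rw [if_neg hadj, if_neg p1, if_neg p2, if_neg p3, if_neg p4]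
    norm_num

private lemma qp_card {B : Finset V} {z : V} {p : V → Prop} [DecidablePred p] {S : Finset V}
    (hS : S = (B.erase z).filter p) :
    ((S.card : ℕ) : ℤ) = ∑ y ∈ B.erase z, if p y then (1 : ℤ) else 0 := by
  rw [hS, card_filter]
  push_cast
  rfl

private lemma qp_dg_union {A B : Finset V} (h : Disjoint A B) (H : SimpleGraph V) (z : V) :
    dg H (A ∪ B) z = dg H A z + dg H B z := by
  unfold dg
  rw [filter_union, card_union_of_disjoint]
  exact disjoint_filter_filter h

/-- the net of a tail, all points of `B` counted -/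
lemma net2_eq (hh : Homes G Z T hm) {w z : V} (hw : w ∈ T) (hz : z ∈ tails G Z T hm w) :
    net2 G r (MM G Z T hm w) (tails G Z T hm w) (hmG G hm) (kk G Z T hm) z
      = 2 * ((r : ℤ) - 1) - 2 * KK G Z T z - 2 * ((BB G Z T).card - 1)
        + ∑ y ∈ (BB G Z T).erase z, sQ G T hm z y + 2 * diffH G Z T hm z := by
  obtain ⟨h1, h2, h3⟩ := qp_ends hh hz
  have hK : (KK G Z T z : ℤ) = dg (co G) (Cl G Z T w) z + kk G Z T hm z := by
    unfold KK kk
    rw [h1, sum_pair h2]
    unfold kap
    push_cast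
    ring
  have hM : (dg (co G) (MM G Z T hm w) z : ℤ)
      = dg (co G) (Cl G Z T w) z + dg (co G) (Ph G Z T hm w) z := by
    unfold MM
    rw [qp_dg_union (MM_disj hw)]
    push_cast
    rfl
  have hne : ∀ y, (co G).Adj z y → y ≠ z := fun y h h' => (co G).loopless.irrefl z (h' ▸ h)
  have c1 : (dg (co G) (Ph G Z T hm w) z : ℤ)
      = ∑ y ∈ (BB G Z T).erase z, if (co G).Adj z y ∧ hm y = w then (1 : ℤ) else 0 := by
    unfold dg
    refine qp_card ?_
    ext y
    simp only [mem_filter, mem_erase, mem_Ph]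
    constructor
    · rintro ⟨⟨a, b⟩, c⟩
      exact ⟨⟨hne y c, a⟩, c, b⟩
    · rintro ⟨⟨_, a⟩, c, b⟩
      exact ⟨⟨a, b⟩, c⟩
  have c2 : (dg (hmG G hm) (tails G Z T hm w) z : ℤ)
      = ∑ y ∈ (BB G Z T).erase z,
        if (co G).Adj z y ∧ hm z = hm y ∧ w ∈ ends G T y ∧ hm y ≠ w then (1 : ℤ) else 0 := by
    unfold dg
    refine qp_card ?_
    ext y
    simp only [mem_filter, mem_erase, mem_tails]
    constructor
    · rintro ⟨⟨a, b, c⟩, d⟩
      exact ⟨⟨hne y d.1, a⟩, d.1, d.2, b, c⟩
    · rintro ⟨⟨_, a⟩, c, d, e, f⟩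
      exact ⟨⟨a, e, f⟩, c, d⟩
  have c3 : (dg (co G) (tails G Z T hm w) z : ℤ)
      = ∑ y ∈ (BB G Z T).erase z,
        if (co G).Adj z y ∧ w ∈ ends G T y ∧ hm y ≠ w then (1 : ℤ) else 0 := by
    unfold dg
    refine qp_card ?_
    ext y
    simp only [mem_filter, mem_erase, mem_tails]
    constructor
    · rintro ⟨⟨a, b, c⟩, d⟩
      exact ⟨⟨hne y d, a⟩, d, b, c⟩
    · rintro ⟨⟨_, a⟩, c, d, e⟩
      exact ⟨⟨a, d, e⟩, c⟩
  have c4 : (diffH G Z T hm z : ℤ)
      = ∑ y ∈ (BB G Z T).erase z,
        if (co G).Adj z y ∧ hm z = hm y ∧ ends G T z ≠ ends G T y then (1 : ℤ) else 0 := by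
    unfold diffH
    refine qp_card ?_
    ext y
    simp only [mem_filter, mem_erase]
    constructor
    · rintro ⟨a, b⟩
      exact ⟨⟨hne y b.1, a⟩, b⟩
    · rintro ⟨⟨_, a⟩, b⟩
      exact ⟨a, b⟩
  have hsum : 2 * (dg (co G) (Ph G Z T hm w) z : ℤ) + dg (hmG G hm) (tails G Z T hm w) z
      + dg (co G) (tails G Z T hm w) z + 2 * diffH G Z T hm z
      = 2 * ((BB G Z T).card - 1) - ∑ y ∈ (BB G Z T).erase z, sQ G T hm z y := by
    rw [c1, c2, c3, c4, mul_sum, mul_sum, ← sum_add_distrib, ← sum_add_distrib,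
      ← sum_add_distrib, sum_congr rfl (fun y hy => qp_point hh hz (mem_erase.1 hy).2),
      sum_sub_distrib, sum_const, nsmul_eq_mul, card_erase_of_mem h3]
    have : 1 ≤ (BB G Z T).card := card_pos.2 ⟨z, h3⟩
    push_cast [this]
    ring
  unfold net2
  rw [hM, hK]
  linarith

/-- the symmetric estimate -/
private lemma qp_sym (hh : Homes G Z T hm) {z y : V} (hz : z ∈ BB G Z T) (hy : y ∈ BB G Z T)
    (hzy : z ≠ y) :
    2 + (if ends G T y = ends G T z then (2 : ℤ) else 0)
        - 4 * (if (co G).Adj z y ∧ ends G T y = ends G T z then (1 : ℤ) else 0)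
      ≤ (sQ G T hm z y + if (dfG G T hm).Adj z y then 1 else 0)
        + (sQ G T hm y z + if (dfG G T hm).Adj y z then 1 else 0) := by
  have hs : (co G).Adj z y ↔ (co G).Adj y z := ⟨fun h => h.symm, fun h => h.symm⟩
  have hz2 : (ends G T z).card = 2 := by rw [card_ends]; exact (mem_BB.1 hz).2
  have hy2 : (ends G T y).card = 2 := by rw [card_ends]; exact (mem_BB.1 hy).2
  by_cases hadj : (co G).Adj z y
  · by_cases he : ends G T y = ends G T z
    · rw [if_pos he, if_pos ⟨hadj, he⟩]
      have h1 := sQ_nonneg (G := G) (T := T) (hm := hm) z y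
      have h2 := sQ_nonneg (G := G) (T := T) (hm := hm) y z
      have h3 : (0 : ℤ) ≤ if (dfG G T hm).Adj z y then 1 else 0 := by split_ifs <;> norm_num
      have h4 : (0 : ℤ) ≤ if (dfG G T hm).Adj y z then 1 else 0 := by split_ifs <;> norm_num
      linarith
    · rw [if_neg he, if_neg (fun h => he h.2)]
      have h3 : (0 : ℤ) ≤ if (dfG G T hm).Adj z y then 1 else 0 := by split_ifs <;> norm_num
      have h4 : (0 : ℤ) ≤ if (dfG G T hm).Adj y z then 1 else 0 := by split_ifs <;> norm_num
      by_cases hh1 : hm z = hm y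
      · rw [if_pos (show (dfG G T hm).Adj z y from ⟨hadj, hh1, fun h => he h.symm⟩),
          if_pos (show (dfG G T hm).Adj y z from ⟨hs.1 hadj, hh1.symm, he⟩)]
        have h1 := sQ_nonneg (G := G) (T := T) (hm := hm) z y
        have h2 := sQ_nonneg (G := G) (T := T) (hm := hm) y z
        linarith
      · unfold sQ
        rw [if_pos hadj, if_pos (hs.1 hadj)]
        by_cases a1 : hm y ∈ ends G T z
        · -- then the home of `z` is not an end of `y`
          have a2 : hm z ∉ ends G T y := by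
            intro a2
            apply he
            have b1 : ends G T z = {hm z, hm y} := ends_eq_pair hz (hh z hz) a1 hh1
            have b2 : ends G T y = {hm z, hm y} := ends_eq_pair hy a2 (hh y hy) hh1
            rw [b1, b2]
          have b3 : dw G T hm y z = 2 := by
            unfold dw
            rw [if_neg a2, if_neg]
            rintro ⟨v, v1, v2, v3⟩
            -- `v` is an end of both, different from the home of `y`
            have b1 : ends G T z = {hm z, hm y} := ends_eq_pair hz (hh z hz) a1 hh1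
            rw [b1, mem_insert, mem_singleton] at v3
            rcases v3 with v3 | v3
            · exact a2 (v3 ▸ v1)
            · exact v2 v3
          have b4 := dw_nonneg (G := G) (T := T) (hm := hm) z y
          linarith
        · by_cases a2 : hm z ∈ ends G T y
          · have b3 : dw G T hm z y = 2 := by
              unfold dw
              rw [if_neg a1, if_neg]
              rintro ⟨v, v1, v2, v3⟩
              have b1 : ends G T y = {hm y, hm z} :=
                ends_eq_pair hy (hh y hy) a2 (fun h => hh1 h.symm)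
              rw [b1, mem_insert, mem_singleton] at v3
              rcases v3 with v3 | v3
              · exact a1 (v3 ▸ v1)
              · exact v2 v3
            have b4 := dw_nonneg (G := G) (T := T) (hm := hm) y z
            linarith
          · have b1 : 1 ≤ dw G T hm z y := by
              unfold dw
              rw [if_neg a1]
              split_ifs <;> norm_num
            have b2 : 1 ≤ dw G T hm y z := by
              unfold dw
              rw [if_neg a2]
              split_ifs <;> norm_num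
            linarith
  · have e1 : sQ G T hm z y = 2 := by unfold sQ; rw [if_neg hadj]
    have e2 : sQ G T hm y z = 2 := by unfold sQ; rw [if_neg (fun h => hadj (hs.2 h))]
    have h3 : (0 : ℤ) ≤ if (dfG G T hm).Adj z y then 1 else 0 := by split_ifs <;> norm_num
    have h4 : (0 : ℤ) ≤ if (dfG G T hm).Adj y z then 1 else 0 := by split_ifs <;> norm_num
    rw [e1, e2, if_neg (fun h : (co G).Adj z y ∧ ends G T y = ends G T z => hadj h.1)]
    split_ifs at * <;> linarith

/-- the pairs inside `A` -/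
private lemma qp_inside (h : PFrame G r m t Z T) (hh : Homes G Z T hm) {A : Finset V}
    (hA : A ⊆ BB G Z T) :
    (A.card : ℤ) * (A.card - 2)
      ≤ ∑ z ∈ A, ∑ y ∈ A.erase z, sQ G T hm z y + E (dfG G T hm) A := by
  obtain ⟨Q, hQ⟩ : ∃ Q : V → V → ℤ, Q = fun z y => if z = y then 0 else
    sQ G T hm z y + if (dfG G T hm).Adj z y then 1 else 0 := ⟨_, rfl⟩
  obtain ⟨P, hPd⟩ : ∃ P : V → V → ℤ, P = fun z y => if z = y then 0 else
    2 + (if ends G T y = ends G T z then (2 : ℤ) else 0)
        - 4 * (if (co G).Adj z y ∧ ends G T y = ends G T z then (1 : ℤ) else 0) := ⟨_, rfl⟩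
  have h1 : ∀ z ∈ A, ∀ y ∈ A, P z y ≤ Q z y + Q y z := by
    intro z hz y hy
    rw [hQ, hPd]
    simp only
    by_cases hzy : z = y
    · rw [if_pos hzy, if_pos hzy, if_pos hzy.symm]
      norm_num
    · have hyz : ¬ y = z := fun h => hzy h.symm
      rw [if_neg hzy, if_neg hzy, if_neg hyz]
      exact qp_sym hh (hA hz) (hA hy) hzy
  have h2 : ∑ z ∈ A, ∑ y ∈ A, P z y ≤ 2 * ∑ z ∈ A, ∑ y ∈ A, Q z y := by
    have e1 : ∑ z ∈ A, ∑ y ∈ A, Q y z = ∑ z ∈ A, ∑ y ∈ A, Q z y := sum_comm
    calc ∑ z ∈ A, ∑ y ∈ A, P z y ≤ ∑ z ∈ A, ∑ y ∈ A, (Q z y + Q y z) :=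
          sum_le_sum fun z hz => sum_le_sum fun y hy => h1 z hz y hy
      _ = 2 * ∑ z ∈ A, ∑ y ∈ A, Q z y := by
          rw [sum_congr rfl (fun z _ => sum_add_distrib), sum_add_distrib, e1]
          ring
  -- the right side
  have h3 : ∑ z ∈ A, ∑ y ∈ A, Q z y
      = ∑ z ∈ A, ∑ y ∈ A.erase z, sQ G T hm z y + E (dfG G T hm) A := by
    unfold E
    push_cast
    rw [← sum_add_distrib]
    refine sum_congr rfl fun z hz => ?_
    rw [← add_sum_erase A (fun y => Q z y) hz]
    have e1 : Q z z = 0 := by rw [hQ]; simp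
    have e2 : (dg (dfG G T hm) A z : ℤ)
        = ∑ y ∈ A.erase z, if (dfG G T hm).Adj z y then (1 : ℤ) else 0 := by
      unfold dg
      refine qp_card ?_
      ext y
      simp only [mem_filter, mem_erase]
      constructor
      · rintro ⟨a, b⟩
        exact ⟨⟨fun hh' => (dfG G T hm).loopless.irrefl z (hh' ▸ b), a⟩, b⟩
      · rintro ⟨⟨_, a⟩, b⟩
        exact ⟨a, b⟩
    rw [e1, e2, zero_add, ← sum_add_distrib]
    refine sum_congr rfl fun y hy => ?_
    rw [hQ]
    simp only
    rw [if_neg (fun h => (mem_erase.1 hy).1 h.symm)]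
  -- the left side
  have h4 : ∀ z ∈ A, ∑ y ∈ A, P z y = 2 * ((A.card : ℤ) - 1)
      + 2 * (((A.filter (fun y => ends G T y = ends G T z)).card : ℤ) - 1)
      - 4 * dg (co G) (A.filter (fun y => ends G T y = ends G T z)) z := by
    intro z hz
    rw [← add_sum_erase A (fun y => P z y) hz]
    have e1 : P z z = 0 := by rw [hPd]; simp
    have e2 : ∑ y ∈ A.erase z, P z y = ∑ y ∈ A.erase z,
        (2 + (if ends G T y = ends G T z then (2 : ℤ) else 0)
        - 4 * (if (co G).Adj z y ∧ ends G T y = ends G T z then (1 : ℤ) else 0)) := by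
      refine sum_congr rfl fun y hy => ?_
      rw [hPd]
      simp only
      rw [if_neg (fun h => (mem_erase.1 hy).1 h.symm)]
    have e3 : ∑ y ∈ A.erase z, (if ends G T y = ends G T z then (2 : ℤ) else 0)
        = 2 * (((A.filter (fun y => ends G T y = ends G T z)).card : ℤ) - 1) := by
      have f1 : (((A.filter (fun y => ends G T y = ends G T z)).erase z).card : ℤ)
          = ∑ y ∈ A.erase z, if ends G T y = ends G T z then (1 : ℤ) else 0 := by
        refine qp_card ?_
        ext y
        simp only [mem_filter, mem_erase]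
        tauto
      have f2 : z ∈ A.filter (fun y => ends G T y = ends G T z) := mem_filter.2 ⟨hz, rfl⟩
      have f3 : 1 ≤ (A.filter (fun y => ends G T y = ends G T z)).card := card_pos.2 ⟨z, f2⟩
      rw [card_erase_of_mem f2] at f1
      push_cast [f3] at f1
      rw [f1, mul_sum]
      refine sum_congr rfl fun y _ => ?_
      split_ifs <;> norm_num
    have e4 : ∑ y ∈ A.erase z, (if (co G).Adj z y ∧ ends G T y = ends G T z then (1 : ℤ) else 0)
        = dg (co G) (A.filter (fun y => ends G T y = ends G T z)) z := by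
      symm
      unfold dg
      refine qp_card ?_
      ext y
      simp only [mem_filter, mem_erase]
      constructor
      · rintro ⟨⟨a, b⟩, c⟩
        exact ⟨⟨fun hh' => (co G).loopless.irrefl z (hh' ▸ c), a⟩, c, b⟩
      · rintro ⟨⟨_, a⟩, b, c⟩
        exact ⟨⟨a, c⟩, b⟩
    rw [e1, e2, zero_add, sum_sub_distrib, sum_add_distrib, ← mul_sum, e3, e4, sum_const,
      nsmul_eq_mul, card_erase_of_mem hz]
    have : 1 ≤ A.card := card_pos.2 ⟨z, hz⟩
    push_cast [this]
    ring
  -- the classes of points with the same ends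
  have h5 : -(A.card : ℤ) ≤ ∑ z ∈ A,
      ((((A.filter (fun y => ends G T y = ends G T z)).card : ℤ) - 1)
      - 2 * dg (co G) (A.filter (fun y => ends G T y = ends G T z)) z) := by
    have e0 : ∀ z ∈ A, ends G T z ∈ A.image (ends G T) := fun z hz => mem_image_of_mem _ hz
    rw [← sum_fiberwise_of_maps_to e0]
    have e1 : (A.card : ℤ) = ∑ I ∈ A.image (ends G T), ((A.filter (fun y => ends G T y = I)).card : ℤ) := by
      rw [card_eq_sum_card_fiberwise (t := A.image (ends G T)) (fun z hz => e0 z hz)]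
      push_cast
      rfl
    rw [e1, ← sum_neg_distrib]
    refine sum_le_sum fun I hI => ?_
    obtain ⟨z0, hz0, rfl⟩ := mem_image.1 hI
    have e2 : ∑ z ∈ A.filter (fun y => ends G T y = ends G T z0),
        ((((A.filter (fun y => ends G T y = ends G T z)).card : ℤ) - 1)
        - 2 * dg (co G) (A.filter (fun y => ends G T y = ends G T z)) z)
        = ∑ z ∈ A.filter (fun y => ends G T y = ends G T z0),
        ((((A.filter (fun y => ends G T y = ends G T z0)).card : ℤ) - 1)
        - 2 * dg (co G) (A.filter (fun y => ends G T y = ends G T z0)) z) := by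
      refine sum_congr rfl fun z hz => ?_
      rw [(mem_filter.1 hz).2]
    rw [e2, sum_sub_distrib, sum_const, nsmul_eq_mul, ← mul_sum]
    have hal : AlphaLe G (A.filter (fun y => ends G T y = ends G T z0)) 2 := by
      have hz2 : (ends G T z0).card = 2 := by rw [card_ends]; exact (mem_BB.1 (hA hz0)).2
      have := h.alpha_ZI (I := ends G T z0) (filter_subset _ _)
      rw [hz2] at this
      intro J hJ hi
      refine this J (fun x hx => ?_) hi
      obtain ⟨x1, x2⟩ := mem_filter.1 (hJ hx)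
      have x3 := mem_BB.1 (hA x1)
      exact mem_ZI.2 ⟨x3.1.1, fun hxT => absurd hxT x3.1.2, by rw [x2]⟩
    have hma := mantel hal
    have e3 : (∑ z ∈ A.filter (fun y => ends G T y = ends G T z0),
        (dg (co G) (A.filter (fun y => ends G T y = ends G T z0)) z : ℤ))
        = E (co G) (A.filter (fun y => ends G T y = ends G T z0)) := by
      unfold E
      push_cast
      rfl
    rw [e3]
    nlinarith
  rw [sum_congr rfl h4] at h2
  have h6 : ∑ z ∈ A, (2 * ((A.card : ℤ) - 1)
      + 2 * (((A.filter (fun y => ends G T y = ends G T z)).card : ℤ) - 1)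
      - 4 * dg (co G) (A.filter (fun y => ends G T y = ends G T z)) z)
      = 2 * (A.card * ((A.card : ℤ) - 1)) + 2 * ∑ z ∈ A,
      ((((A.filter (fun y => ends G T y = ends G T z)).card : ℤ) - 1)
      - 2 * dg (co G) (A.filter (fun y => ends G T y = ends G T z)) z) := by
    rw [mul_sum]
    have : (2 : ℤ) * (A.card * ((A.card : ℤ) - 1)) = ∑ z ∈ A, 2 * ((A.card : ℤ) - 1) := by
      rw [sum_const, nsmul_eq_mul]; ring
    rw [this, ← sum_add_distrib]
    refine sum_congr rfl fun z _ => ?_
    ring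
  rw [h6] at h2
  rw [← h3]
  nlinarith

/-- **the cover inequality**, general homes -/
theorem PFrame.cover_of_total (h : PFrame G r m t Z T) (hh : Homes G Z T hm)
    (htot : 2 * ((r : ℤ) - 1) + ∑ w ∈ T, ∑ z ∈ tails G Z T hm w,
        max (net2 G r (MM G Z T hm w) (tails G Z T hm w) (hmG G hm) (kk G Z T hm) z) 0
      ≤ ∑ z ∈ BB G Z T, (diffH G Z T hm z : ℤ)) {A : Finset V} (hA : A ⊆ BB G Z T) :
    2 * ((r : ℤ) - 1) + 2 * A.card * ((r : ℤ) - (BB G Z T).card) + A.card * ((A.card : ℤ) - 2)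
        + ∑ z ∈ A, ∑ y ∈ BB G Z T \ A, sQ G T hm z y
      ≤ E (dfG G T hm) (BB G Z T \ A) + 2 * ∑ z ∈ A, (KK G Z T z : ℤ) := by
  obtain ⟨F, hF⟩ : ∃ F : V → ℤ, F = fun z => 2 * ((r : ℤ) - 1) - 2 * KK G Z T z
    - 2 * ((BB G Z T).card - 1) + ∑ y ∈ (BB G Z T).erase z, sQ G T hm z y
    + 2 * diffH G Z T hm z := ⟨_, rfl⟩
  have h1 : ∑ z ∈ A, F z ≤ ∑ w ∈ T, ∑ z ∈ tails G Z T hm w,
        max (net2 G r (MM G Z T hm w) (tails G Z T hm w) (hmG G hm) (kk G Z T hm) z) 0 := by
    have e1 : ∑ z ∈ A, F z = ∑ z ∈ BB G Z T, if z ∈ A then F z else 0 := by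
      rw [← sum_filter]
      congr 1
      ext z
      rw [mem_filter]
      exact ⟨fun hz => ⟨hA hz, hz⟩, fun hz => hz.2⟩
    rw [e1, ← PFrame.sum_tails hh]
    refine sum_le_sum fun w hw => sum_le_sum fun z hz => ?_
    rw [net2_eq hh hw hz]
    split_ifs with hzA
    · rw [hF]
      exact le_max_left _ _
    · exact le_max_right _ _
  have h2 : ∑ z ∈ BB G Z T, (diffH G Z T hm z : ℤ) = E (dfG G T hm) (BB G Z T) := by
    unfold E
    push_cast
    exact sum_congr rfl fun z _ => by rw [dg_dfG]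
  have h3 := E_sdiff (dfG G T hm) hA
  have h3' : (E (dfG G T hm) (BB G Z T) : ℤ) + E (dfG G T hm) A
      = E (dfG G T hm) (BB G Z T \ A) + 2 * ∑ z ∈ A, (diffH G Z T hm z : ℤ) := by
    have e1 : ∑ v ∈ A, dg (dfG G T hm) (BB G Z T) v = ∑ v ∈ A, diffH G Z T hm v :=
      sum_congr rfl fun v _ => dg_dfG v
    rw [e1] at h3
    exact_mod_cast h3
  have h4 := qp_inside h hh hA
  have h5 : ∑ z ∈ A, ∑ y ∈ (BB G Z T).erase z, sQ G T hm z y
      = ∑ z ∈ A, ∑ y ∈ BB G Z T \ A, sQ G T hm z y
        + ∑ z ∈ A, ∑ y ∈ A.erase z, sQ G T hm z y := by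
    rw [← sum_add_distrib]
    refine sum_congr rfl fun z hz => ?_
    rw [← sum_union]
    · congr 1
      ext y
      simp only [mem_erase, mem_union, mem_sdiff]
      constructor
      · rintro ⟨a, b⟩
        by_cases hy : y ∈ A
        · exact Or.inr ⟨a, hy⟩
        · exact Or.inl ⟨b, hy⟩
      · rintro (⟨a, b⟩ | ⟨a, b⟩)
        · exact ⟨fun hh' => b (hh' ▸ hz), a⟩
        · exact ⟨a, hA b⟩
    · rw [disjoint_left]
      intro y hy hy'
      exact (mem_sdiff.1 hy).2 (mem_erase.1 hy').2
  have h6 : ∑ z ∈ A, F z = A.card * (2 * ((r : ℤ) - 1) - 2 * ((BB G Z T).card - 1))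
      - 2 * ∑ z ∈ A, (KK G Z T z : ℤ) + ∑ z ∈ A, ∑ y ∈ (BB G Z T).erase z, sQ G T hm z y
      + 2 * ∑ z ∈ A, (diffH G Z T hm z : ℤ) := by
    have e1 : (A.card : ℤ) * (2 * ((r : ℤ) - 1) - 2 * ((BB G Z T).card - 1))
        = ∑ z ∈ A, (2 * ((r : ℤ) - 1) - 2 * (((BB G Z T).card : ℤ) - 1)) := by
      rw [sum_const, nsmul_eq_mul]
    rw [e1, mul_sum, mul_sum, ← sum_sub_distrib, ← sum_add_distrib, ← sum_add_distrib, hF]
    refine sum_congr rfl fun z _ => ?_
    ring
  rw [h2] at htot
  rw [h6, h5] at h1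
  linarith

/-- **the cover inequality (Q')** of note 15208 for the homes of note 2803 -/
theorem S2.cover_ineq (h : S2 G r m t Z T) (hr : 8 ≤ r) (hP : PG G r)
    (hb : (BB G Z T).card + 1 ≤ r) {A : Finset V} (hA : A ⊆ BB G Z T) :
    2 * ((r : ℤ) - 1) + 2 * A.card * ((r : ℤ) - (BB G Z T).card) + A.card * ((A.card : ℤ) - 2)
        + ∑ z ∈ A, ∑ y ∈ BB G Z T \ A, sQ G T (hmR G r Z T) z y
      ≤ E (dfG G T (hmR G r Z T)) (BB G Z T \ A) + 2 * ∑ z ∈ A, (KK G Z T z : ℤ) :=
  h.toPFrame.cover_of_total hmR_homes (h.serv_total hr hP hb) hA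

end Qp

end Pool.Agent.Lib.MP_f04ccf_co
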