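import Pool.Agent.Lib.MP_f04ccf_co.M.Code

/-!
MP_f04ccf_co: the quadratic neighbourhood inequality (note 14919). For every vertex `z` of `MIN-U`
with excess `x`: `2 e(N(z)) + (r - 3) x + X ≥ r (r - 1) - (k - 1) + 2 X(N(z))`, and the same for the
closed neighbourhood of an independent set `J`. Here `E = 2 e` and `X(A)` is the sum of the excesses
`dg - r` over `A`.
-/

set_option autoImplicit false

namespace Pool.Agent.Lib.MP_f04ccf_co.Mn

open Finset

attribute [local instance] Classical.propDecidable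

section Gen

variable {V : Type*} {G : SimpleGraph V}

/-- the general form: `N ⊆ U`, and `U \ N` has independence number at most `s`; no clique of `U \ N`
has more than `w` vertices. -/
lemma quad_gen {U N : Finset V} {w s : ℕ} (hN : N ⊆ U) (hα : AlphaLe G (U \ N) s)
    (hω : ∀ K ⊆ U \ N, Clq G K → K.card ≤ w) :
    (w : ℤ) * (3 * ((U \ N).card : ℤ) - (2 * w + 1) * s) + 2 * ∑ v ∈ N, (dg G U v : ℤ) ≤
      (E G U : ℤ) + E G N := by
  have h1 := mprime G w _ (U \ N) rfl s hα hω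
  have h2 := E_sdiff G hN
  have h3 : (E G U : ℤ) + E G N = E G (U \ N) + 2 * ∑ v ∈ N, (dg G U v : ℤ) := by
    exact_mod_cast h2
  linarith

/-- independence number outside the closed neighbourhood of an independent set -/
lemma alpha_NJ {U J : Finset V} {k : ℕ} (hα : AlphaLe G U k) (hJ : J ⊆ U) (hi : Ind G J) :
    AlphaLe G (U \ NJ G U J) (k - J.card) := by
  intro I hI hIi
  have hdisj : Disjoint I J := by
    rw [disjoint_left]
    intro x hx hxJ
    exact (mem_sdiff.1 (hI hx)).2 (mem_NJ.2 ⟨hJ hxJ, Or.inl hxJ⟩)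
  have h4 : Ind G (I ∪ J) := by
    intro x hx y hy hxy
    rw [mem_union] at hx hy
    rcases hx with hx | hx <;> rcases hy with hy | hy
    · exact hIi x hx y hy hxy
    · exact (mem_sdiff.1 (hI hx)).2 (mem_NJ.2 ⟨(mem_sdiff.1 (hI hx)).1, Or.inr ⟨y, hy, hxy.symm⟩⟩)
    · exact (mem_sdiff.1 (hI hy)).2 (mem_NJ.2 ⟨(mem_sdiff.1 (hI hy)).1, Or.inr ⟨x, hx, hxy⟩⟩)
    · exact hi x hx y hy hxy
  have h5 := hα (I ∪ J) (union_subset (hI.trans sdiff_subset) hJ) h4
  rw [card_union_of_disjoint hdisj] at h5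
  omega

lemma NJ_sub (U J : Finset V) : NJ G U J ⊆ U := filter_subset _ _

/-- the open neighbourhood inside `U` -/
noncomputable def op (G : SimpleGraph V) (U : Finset V) (z : V) : Finset V :=
  U.filter (fun v => G.Adj z v)

lemma mem_op {U : Finset V} {z v : V} : v ∈ op G U z ↔ v ∈ U ∧ G.Adj z v := mem_filter

lemma op_card (U : Finset V) (z : V) : (op G U z).card = dg G U z := rfl

lemma NJ_single {U : Finset V} {z : V} (hz : z ∈ U) : NJ G U {z} = insert z (op G U z) := by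
  ext v
  simp only [mem_NJ, mem_insert, mem_singleton, mem_op]
  constructor
  · rintro ⟨h1, h2 | ⟨u, rfl, h2⟩⟩
    · exact Or.inl h2
    · exact Or.inr ⟨h1, h2⟩
  · rintro (rfl | ⟨h1, h2⟩)
    · exact ⟨hz, Or.inl rfl⟩
    · exact ⟨h1, Or.inr ⟨z, rfl, h2⟩⟩

lemma notMem_op {U : Finset V} {z : V} : z ∉ op G U z := fun h => G.loopless.irrefl z (mem_op.1 h).2

/-- `2 e(N[z]) = 2 e(N(z)) + 2 deg z` -/
lemma E_insert_op {U : Finset V} {z : V} :
    E G (insert z (op G U z)) = E G (op G U z) + 2 * dg G U z := by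
  have h1 := E_erase G (mem_insert_self z (op G U z))
  rw [erase_insert notMem_op] at h1
  have h2 : dg G (insert z (op G U z)) z = dg G U z := by
    unfold dg op
    congr 1
    ext v
    simp only [mem_filter, mem_insert]
    constructor
    · rintro ⟨h3 | h3, h4⟩
      · rw [h3] at h4; exact absurd h4 (G.loopless.irrefl z)
      · exact ⟨h3.1, h4⟩
    · rintro ⟨h3, h4⟩
      exact ⟨Or.inr ⟨h3, h4⟩, h4⟩
  rw [h2] at h1
  exact h1

end Gen

variable {V : Type*} {r : ℕ} {c : V → V → Fin r} {hc : ∀ x y, c x y = c y x}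
  {U0 U : Finset V} {i : Fin r} {k : ℕ}

/-- the excess of a set of vertices -/
noncomputable def XS (hc : ∀ x y, c x y = c y x) (i : Fin r) (U A : Finset V) : ℤ :=
  ∑ v ∈ A, ((dg (col c hc i) U v : ℤ) - r)

lemma XS_eq (A : Finset V) :
    XS hc i U A = ∑ v ∈ A, (dg (col c hc i) U v : ℤ) - r * A.card := by
  unfold XS
  rw [sum_sub_distrib, sum_const, nsmul_eq_mul]
  ring

lemma XS_self : XS hc i U U = XX hc i U := rfl

lemma MinU.XS_nonneg (h : MinU hc U0 i k U) {A : Finset V} (hA : A ⊆ U) : 0 ≤ XS hc i U A :=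
  sum_nonneg fun _ hv => h.eps_nonneg (hA hv)

/-- the `J` form: `E(N[J]) + X ≥ 2 X(N[J]) + r (j r + 1) - (k - j) - (r - 3) δ(J)`,
`δ(J) = |N[J]| - j r - 1` -/
lemma MinU.quadJ (h : MinU hc U0 i k U) {J : Finset V} (hJ : J ⊆ U) (hi : Ind (col c hc i) J) :
    2 * XS hc i U (NJ (col c hc i) U J) + r * (J.card * r + 1) - (k - J.card)
      - (r - 3) * (((NJ (col c hc i) U J).card : ℤ) - J.card * r - 1) ≤
      (E (col c hc i) (NJ (col c hc i) U J) : ℤ) + XX hc i U := by
  set G := col c hc i with hG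
  have hNU : NJ G U J ⊆ U := NJ_sub U J
  have h1 := quad_gen (w := r - 1) hNU (alpha_NJ h.alpha hJ hi)
    (fun K hK hq => h.free K (hK.trans sdiff_subset) hq)
  have hJk : J.card ≤ k := h.alpha J hJ hi
  have e1 : ((r - 1 : ℕ) : ℤ) = r - 1 := by have := h.kr; omega
  have e2 : ((k - J.card : ℕ) : ℤ) = k - J.card := by omega
  have e3 := card_sdiff_add_card_eq_card hNU
  have e4 : ((U \ NJ G U J).card : ℤ) = k * r + 1 - (NJ G U J).card := by
    have e5 : ((U \ NJ G U J).card : ℤ) + (NJ G U J).card = U.card := by exact_mod_cast e3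
    rw [h.card] at e5
    push_cast at e5
    linarith
  rw [e1, e2, e4] at h1
  rw [XS_eq, XX_eq, h.card, ← hG]
  push_cast
  linarith

/-- **(N)**: `2 e(N(z)) + (r - 3) x(z) + X ≥ r (r - 1) - (k - 1) + 2 X(N(z))` -/
theorem MinU.quadN (h : MinU hc U0 i k U) {z : V} (hz : z ∈ U) :
    (r : ℤ) * (r - 1) - (k - 1) + 2 * XS hc i U (op (col c hc i) U z) ≤
      (E (col c hc i) (op (col c hc i) U z) : ℤ) + (r - 3) * ((dg (col c hc i) U z : ℤ) - r)
        + XX hc i U := by
  set G := col c hc i with hG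
  have hi : Ind G {z} := by
    intro a ha b hb
    rw [mem_singleton] at ha hb
    rw [ha, hb]
    exact G.loopless.irrefl z
  have h1 := h.quadJ (J := {z}) (singleton_subset_iff.2 hz) hi
  rw [← hG, NJ_single hz, E_insert_op, card_insert_of_notMem notMem_op, op_card] at h1
  have h2 : XS hc i U (insert z (op G U z)) = ((dg G U z : ℤ) - r) + XS hc i U (op G U z) := by
    unfold XS
    rw [sum_insert notMem_op, ← hG]
  rw [h2, card_singleton] at h1
  push_cast at h1
  linarith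

/-- (N) with the cap `X ≤ r (r - k)` -/
theorem MinU.quadN_cap (h : MinU hc U0 i k U) {z : V} (hz : z ∈ U) :
    ((k : ℤ) - 1) * (r - 1) + 2 * XS hc i U (op (col c hc i) U z) ≤
      (E (col c hc i) (op (col c hc i) U z) : ℤ) + (r - 3) * ((dg (col c hc i) U z : ℤ) - r) := by
  have h1 := h.quadN hz
  have h2 := h.X_le
  linarith

/-- the number of edges between `N[J]` and the rest, `J` form -/
theorem MinU.quadJ_out (h : MinU hc U0 i k U) {J : Finset V} (hJ : J ⊆ U)
    (hi : Ind (col c hc i) J) :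
    XS hc i U (NJ (col c hc i) U J)
      + ((∑ v ∈ NJ (col c hc i) U J, dg (col c hc i) (U \ NJ (col c hc i) U J) v : ℕ) : ℤ)
      - (k - J.card) - (2 * r - 3) * (((NJ (col c hc i) U J).card : ℤ) - J.card * r - 1) ≤
      XX hc i U := by
  set G := col c hc i with hG
  have h1 := h.quadJ hJ hi
  rw [← hG] at h1
  have h2 : ∑ v ∈ NJ G U J, dg G U v = ∑ v ∈ NJ G U J, dg G (U \ NJ G U J) v + E G (NJ G U J) := by
    unfold E
    rw [← sum_add_distrib]
    exact sum_congr rfl fun v _ => dg_sdiff G (NJ_sub U J) v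
  have h3 : ((∑ v ∈ NJ G U J, dg G (U \ NJ G U J) v : ℕ) : ℤ)
      = ∑ v ∈ NJ G U J, (dg G U v : ℤ) - E G (NJ G U J) := by
    have : ((∑ v ∈ NJ G U J, dg G U v : ℕ) : ℤ)
      = ((∑ v ∈ NJ G U J, dg G (U \ NJ G U J) v : ℕ) : ℤ) + E G (NJ G U J) := by exact_mod_cast h2
    push_cast at this ⊢
    linarith
  have h4 : XS hc i U (NJ G U J) = ∑ v ∈ NJ G U J, (dg G U v : ℤ) - r * (NJ G U J).card := XS_eq _
  rw [h3]
  linarith

end Pool.Agent.Lib.MP_f04ccf_co.Mn
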