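import Pool.Agent.Lib.MP_f04ccf_co.M.Lev3

/-!
MP_f04ccf_co: rows with `a = 1` (`|Cl y| = r - 1`), and the frames at `r = 7`.

Row tools (`a_y = 1`, every `r`): (P) on `Cl y` and outside points says `sum dg ≤ r - 1 + #missing`.
`v` is heavy at `y` if `r < 2 dg(Cl y, v)`: at most one point is heavy at `y`.  A double that is heavy
at no such row misses at most one point of the class of its other end.

The frames at `r = 7` are excluded in `M/R7b.lean`.
-/

set_option autoImplicit false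

namespace Pool.Agent.Lib.MP_f04ccf_co

open Finset

attribute [local instance] Classical.propDecidable

section Gen7

variable {V : Type*} (G : SimpleGraph V)

/-- one if the pair is missing -/
noncomputable def ms (p q : V) : ℕ := if G.Adj p q then 0 else 1

variable {G}

lemma ms_le (p q : V) : ms G p q ≤ 1 := by unfold ms; split_ifs <;> omega

lemma ms_adj {p q : V} (h : G.Adj p q) : ms G p q = 0 := if_pos h

lemma ms_not {p q : V} (h : ¬ G.Adj p q) : ms G p q = 1 := if_neg h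

lemma nd_insert7 {Y : Finset V} {q p : V} (hq : q ∉ Y) (hpq : q ≠ p) :
    nd G (insert q Y) p = nd G Y p + ms G p q := by
  unfold nd ms
  rw [filter_insert]
  split_ifs with h1 h2 h2
  · exact absurd h2 h1.2
  · rw [card_insert_of_notMem (fun h => hq (mem_filter.1 h).1)]
  · rfl
  · exact absurd ⟨hpq, h2⟩ h1

lemma nd_sing7 {q p : V} (hpq : q ≠ p) : nd G {q} p = ms G p q := by
  have := nd_insert7 (G := G) (notMem_empty q) hpq
  simpa [nd] using this

lemma NE_insert7 {Y : Finset V} {p : V} (hp : p ∉ Y) :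
    NE G (insert p Y) = NE G Y + 2 * nd G Y p := by
  have h := NE_union (G := G) (A := Y) (B := {p}) (disjoint_singleton_right.2 hp)
  rw [sum_singleton] at h
  have h2 : NE G ({p} : Finset V) = 0 := by simp [NE, nd]
  rw [h2] at h
  rw [insert_eq, union_comm]
  omega

lemma NE_two7 {p q : V} (h : p ≠ q) : NE G {p, q} = 2 * ms G p q := by
  rw [NE_insert7 (by simpa using h), nd_sing7 h.symm]
  simp [NE, nd]

lemma NE_three7 {p q s : V} (h1 : p ≠ q) (h2 : p ≠ s) (h3 : q ≠ s) :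
    NE G {p, q, s} = 2 * (ms G p q + ms G p s + ms G q s) := by
  rw [NE_insert7 (by simp [h1, h2]), NE_two7 h3, nd_insert7 (by simpa using h3) h1.symm,
    nd_sing7 h2.symm]
  ring

lemma NE_four7 {p q s u : V} (h1 : p ≠ q) (h2 : p ≠ s) (h3 : p ≠ u) (h4 : q ≠ s) (h5 : q ≠ u)
    (h6 : s ≠ u) :
    NE G {p, q, s, u} = 2 * (ms G p q + ms G p s + ms G p u + ms G q s + ms G q u + ms G s u) := by
  rw [NE_insert7 (by simp [h1, h2, h3]), NE_three7 h4 h5 h6,
    nd_insert7 (by simp [h4, h5]) h1.symm, nd_insert7 (by simpa using h6) h2.symm, nd_sing7 h3.symm]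
  ring

lemma nd_le_card (Y : Finset V) (p : V) : nd G Y p ≤ Y.card := card_filter_le _ _

lemma NE_union_le {A B : Finset V} (h : Disjoint A B) :
    NE G (A ∪ B) ≤ NE G A + NE G B + 2 * (A.card * B.card) := by
  rw [NE_union h]
  have h1 : ∑ x ∈ B, nd G A x ≤ ∑ x ∈ B, A.card := sum_le_sum fun x _ => nd_le_card A x
  rw [sum_const, smul_eq_mul, mul_comm] at h1
  omega

/-- two points that cover a class -/
lemma card_le_dg_add {C : Finset V} {p q : V} (h : ∀ c ∈ C, G.Adj p c ∨ G.Adj q c) :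
    C.card ≤ dg G C p + dg G C q := by
  unfold dg
  refine (card_le_card ?_).trans (card_union_le _ _)
  intro c hc
  rw [mem_union, mem_filter, mem_filter]
  rcases h c hc with h1 | h1
  · exact Or.inl ⟨hc, h1⟩
  · exact Or.inr ⟨hc, h1⟩

/-- the missed points of two points that cover a class are disjoint; a point seen by both is spare -/
lemma nd_add_le {C : Finset V} {p q x : V} (h : ∀ c ∈ C, G.Adj p c ∨ G.Adj q c) (hx : x ∈ C)
    (hp : G.Adj p x) (hq : G.Adj q x) : nd G C p + nd G C q + 1 ≤ C.card := by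
  unfold nd
  rw [← card_union_of_disjoint, ← card_erase_add_one hx]
  · refine Nat.add_le_add_right (card_le_card ?_) 1
    intro c hc
    rw [mem_union, mem_filter, mem_filter] at hc
    rw [mem_erase]
    rcases hc with ⟨h1, h2, h3⟩ | ⟨h1, h2, h3⟩
    · exact ⟨fun h' => h3 (h' ▸ hp), h1⟩
    · exact ⟨fun h' => h3 (h' ▸ hq), h1⟩
  · rw [disjoint_left]
    intro c hc hc'
    obtain ⟨h1, -, h3⟩ := mem_filter.1 hc
    obtain ⟨-, -, h4⟩ := mem_filter.1 hc'
    rcases h c h1 with h5 | h5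
    · exact h3 h5
    · exact h4 h5

end Gen7

section Row

variable {V : Type*} {G : SimpleGraph V} {r m t : ℕ} {Z T : Finset V}

/-- `v` is heavy at the row `y` -/
def Hvy (G : SimpleGraph V) (r : ℕ) (Z T : Finset V) (y v : V) : Prop :=
  r < 2 * dg G (Cl G Z T y) v

/-- the doubles that are heavy at no row with `a = 1` -/
noncomputable def WW (G : SimpleGraph V) (r : ℕ) (Z T : Finset V) : Finset V :=
  (BB G Z T).filter (fun w => ∀ y ∈ T, S2.a G r Z T y = 1 → ¬ Hvy G r Z T y w)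

/-- the rows with `a = 1` that are occupied by a heavy double -/
noncomputable def OO (G : SimpleGraph V) (r : ℕ) (Z T : Finset V) : Finset V :=
  T.filter (fun y => S2.a G r Z T y = 1 ∧ ∃ w ∈ BB G Z T, Hvy G r Z T y w)

lemma mem_WW {w : V} : w ∈ WW G r Z T ↔
    w ∈ BB G Z T ∧ ∀ y ∈ T, S2.a G r Z T y = 1 → ¬ Hvy G r Z T y w := mem_filter

lemma mem_OO {y : V} : y ∈ OO G r Z T ↔
    y ∈ T ∧ S2.a G r Z T y = 1 ∧ ∃ w ∈ BB G Z T, Hvy G r Z T y w := mem_filter

namespace S2

/-- (P) on a class and outside points -/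
lemma val7 (hP : PG G r) (h : S2 G r m t Z T) {y : V} (hy : y ∈ T) {Y : Finset V}
    (hd : Disjoint (Cl G Z T y) Y) :
    2 * ∑ v ∈ Y, (((r : ℤ) - 1) - nd G (Cl G Z T y) v) - NE G Y
      ≤ 2 * ((r : ℤ) - 1) * a G r Z T y := by
  have h1 := hP.val (h.toPFrame.Cl_clq hy) hd
  have h2 := h.a_add hy
  have h3 : ((a G r Z T y : ℕ) : ℤ) = r - (Cl G Z T y).card := by
    have h4 : ((a G r Z T y : ℕ) : ℤ) + (Cl G Z T y).card = r := by exact_mod_cast h2
    linarith
  rw [h3]
  exact h1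

lemma card_one (h : S2 G r m t Z T) {y : V} (hy : y ∈ T) (ha : a G r Z T y = 1) :
    (Cl G Z T y).card + 1 = r := by
  have := h.a_add hy
  omega

lemma dg_nd_one (h : S2 G r m t Z T) {y v : V} (hy : y ∈ T) (ha : a G r Z T y = 1)
    (hv : v ∉ Cl G Z T y) : dg G (Cl G Z T y) v + nd G (Cl G Z T y) v + 1 = r := by
  have h1 := h.card_one hy ha
  have h2 := nd_of_notMem (G := G) hv
  omega

/-- two outside points at a row with `a = 1` -/
lemma row_two (hP : PG G r) (h : S2 G r m t Z T) {y p q : V} (hy : y ∈ T)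
    (ha : a G r Z T y = 1) (hp : p ∉ Cl G Z T y) (hq : q ∉ Cl G Z T y) (hpq : p ≠ q) :
    dg G (Cl G Z T y) p + dg G (Cl G Z T y) q + 1 ≤ r + ms G p q := by
  have hd : Disjoint (Cl G Z T y) {p, q} := by
    rw [disjoint_right]
    intro x hx
    simp only [mem_insert, mem_singleton] at hx
    rcases hx with rfl | rfl <;> assumption
  have h1 := h.val7 hP hy hd
  rw [NE_two7 hpq, ha, sum_pair hpq] at h1
  have h2 := h.dg_nd_one hy ha hp
  have h3 := h.dg_nd_one hy ha hq
  push_cast at h1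
  omega

/-- three outside points at a row with `a = 1` -/
lemma row_three (hP : PG G r) (h : S2 G r m t Z T) {y p q s : V} (hy : y ∈ T)
    (ha : a G r Z T y = 1) (hp : p ∉ Cl G Z T y) (hq : q ∉ Cl G Z T y) (hs : s ∉ Cl G Z T y)
    (hpq : p ≠ q) (hps : p ≠ s) (hqs : q ≠ s) :
    dg G (Cl G Z T y) p + dg G (Cl G Z T y) q + dg G (Cl G Z T y) s + 1
      ≤ r + (ms G p q + ms G p s + ms G q s) := by
  have hd : Disjoint (Cl G Z T y) {p, q, s} := by
    rw [disjoint_right]
    intro x hx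
    simp only [mem_insert, mem_singleton] at hx
    rcases hx with rfl | rfl | rfl <;> assumption
  have h1 := h.val7 hP hy hd
  rw [NE_three7 hpq hps hqs, ha, sum_insert (by simp [hpq, hps]), sum_pair hqs] at h1
  have h2 := h.dg_nd_one hy ha hp
  have h3 := h.dg_nd_one hy ha hq
  have h4 := h.dg_nd_one hy ha hs
  push_cast at h1
  omega

lemma BB_notMem {y w : V} (hy : y ∈ T) (hw : w ∈ BB G Z T) : w ∉ Cl G Z T y :=
  fun h => disjoint_left.1 (PFrame.BB_disjoint_Cl hy) h hw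

lemma Cl_notMem {x y c : V} (hx : x ∈ T) (hy : y ∈ T) (hxy : x ≠ y) (hc : c ∈ Cl G Z T x) :
    c ∉ Cl G Z T y :=
  fun h => disjoint_left.1 (PFrame.Cl_disjoint hx hy hxy) hc h

/-- at most one double is heavy at a row with `a = 1` -/
lemma heavy_unique (hP : PG G r) (h : S2 G r m t Z T) {y p q : V} (hy : y ∈ T)
    (ha : a G r Z T y = 1) (hp : p ∈ BB G Z T) (hq : q ∈ BB G Z T) (h1 : Hvy G r Z T y p)
    (h2 : Hvy G r Z T y q) : p = q := by
  by_contra hpq
  have h3 := h.row_two hP hy ha (BB_notMem hy hp) (BB_notMem hy hq) hpq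
  have h4 := ms_le (G := G) p q
  unfold Hvy at h1 h2
  omega

/-- every heavy double takes its own row -/
lemma card_WW (hP : PG G r) (h : S2 G r m t Z T) :
    (BB G Z T).card ≤ (WW G r Z T).card + (OO G r Z T).card := by
  have h1 : ∀ w ∈ BB G Z T \ WW G r Z T, ∃ y ∈ T, S2.a G r Z T y = 1 ∧ Hvy G r Z T y w := by
    intro w hw
    obtain ⟨h1, h2⟩ := mem_sdiff.1 hw
    by_contra hcon
    push Not at hcon
    exact h2 (mem_WW.2 ⟨h1, hcon⟩)
  choose! f hf1 hf2 hf3 using h1
  have h2 : (BB G Z T \ WW G r Z T).card ≤ (OO G r Z T).card := by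
    apply card_le_card_of_injOn f
    · intro w hw
      exact mem_OO.2 ⟨hf1 w hw, hf2 w hw, w, (mem_sdiff.1 hw).1, hf3 w hw⟩
    · intro w hw w' hw' he
      refine h.heavy_unique hP (hf1 w hw) (hf2 w hw) (mem_sdiff.1 hw).1 (mem_sdiff.1 hw').1
        (hf3 w hw) ?_
      have := hf3 w' hw'
      rwa [← he] at this
  have h3 := card_sdiff_add_card_eq_card (show WW G r Z T ⊆ BB G Z T from filter_subset _ _)
  omega

/-- a double that is not heavy at its end `y` (`a_y = 1`) misses at most one point at the other -/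
lemma kap_le_one (hP : PG G r) (h : S2 G r m t Z T) (hr : 7 ≤ r) {x y w : V}
    (hw : w ∈ BB G Z T) (he : ends G T w = {x, y}) (hxy : x ≠ y) (ha : a G r Z T y = 1)
    (hn : ¬ Hvy G r Z T y w) : nd G (Cl G Z T x) w ≤ 1 := by
  have hy : y ∈ T := (mem_ends.1 (by rw [he]; simp)).1
  have hx : x ∈ T := (mem_ends.1 (by rw [he]; simp)).1
  have h1 := h.toPFrame.kappa_mul hP hw he hxy
  have h2 := h.dg_nd_one hy ha (BB_notMem hy hw)
  have h3 := h.card_one hy ha
  have h4 := h.a_add hx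
  unfold Hvy at hn
  have h5 : 3 ≤ nd G (Cl G Z T y) w := by omega
  by_contra hcon
  have h6 : (2 : ℤ) ≤ nd G (Cl G Z T x) w := by exact_mod_cast (by omega)
  have h7 : (3 : ℤ) ≤ nd G (Cl G Z T y) w := by exact_mod_cast h5
  have h8 : ((r : ℤ) - (Cl G Z T y).card - 1) = 0 := by
    have : ((Cl G Z T y).card : ℤ) + 1 = r := by exact_mod_cast h3
    linarith
  rw [h8] at h1
  nlinarith

/-- a missed class point serves with `w` the class of the other end -/
lemma cov_PC (h : S2 G r m t Z T) {x y w p : V} (hw : w ∈ BB G Z T)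
    (he : ends G T w = {x, y}) (hxy : x ≠ y) (hp : p ∈ Cl G Z T x) (hn : ¬ G.Adj w p) :
    ∀ c ∈ Cl G Z T y, G.Adj w c ∨ G.Adj p c := by
  intro c hc
  by_contra hcon
  push Not at hcon
  exact hcon.2 (h.toPFrame.Q_adj hw he hxy hp hc hn hcon.1)

/-- a missing pair of doubles with the same ends covers both classes -/
lemma cov_PP (h : S2 G r m t Z T) {x y w w' : V} (hw : w ∈ BB G Z T) (hw' : w' ∈ BB G Z T)
    (he : ends G T w = {x, y}) (he' : ends G T w' = {x, y}) (hxy : x ≠ y) (hne : w' ≠ w)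
    (hn : ¬ G.Adj w w') : ∀ c ∈ Cl G Z T y, G.Adj w c ∨ G.Adj w' c := by
  have hy : y ∈ T := (mem_ends.1 (by rw [he]; simp)).1
  have hx : x ∈ T := (mem_ends.1 (by rw [he]; simp)).1
  intro c hc
  by_contra hcon
  push Not at hcon
  have h1 := h.toPFrame.pair_clq hx hy hxy (PFrame.mem_ZI_of_BB hw he.subset)
  have hcw : ∀ v ∈ BB G Z T, c ≠ v := fun v hv hcv => BB_notMem hy hv (hcv ▸ hc)
  refine hcon.2 (h1 w' ?_ c ?_ (hcw w' hw').symm)
  · exact mem_filter.2 ⟨PFrame.mem_ZI_of_BB hw' he'.subset, hne, hn⟩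
  · exact mem_filter.2 ⟨h.toPFrame.Cl_sub_ZI' hy (by simp) hc, hcw w hw, hcon.1⟩

/-- three points with all ends in two rows are never independent -/
lemma no_three (h : S2 G r m t Z T) {x y p q s : V} (hx : x ∈ T) (hy : y ∈ T) (hxy : x ≠ y)
    (hp : p ∈ ZI G Z T {x, y}) (hq : q ∈ ZI G Z T {x, y}) (hs : s ∈ ZI G Z T {x, y})
    (h1 : q ≠ p) (h2 : s ≠ p) (h3 : q ≠ s) (n1 : ¬ G.Adj p q) (n2 : ¬ G.Adj p s) : G.Adj q s :=
  h.toPFrame.pair_clq hx hy hxy hp q (mem_filter.2 ⟨hq, h1, n1⟩) s (mem_filter.2 ⟨hs, h2, n2⟩) h3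

/-- the doubles of `WW` with ends `x, y` -/
lemma nonheavy_dg {y w : V} (hy : y ∈ T) (ha : a G r Z T y = 1)
    (hw : w ∈ WW G r Z T) : 2 * dg G (Cl G Z T y) w ≤ r := by
  have := (mem_WW.1 hw).2 y hy ha
  unfold Hvy at this
  omega

/-- (H2): if the row `y` is occupied then a pair of points, one of them in `WW` with the end `y`,
which covers `Cl y`, is an edge -/
lemma occ_adj (hP : PG G r) (h : S2 G r m t Z T) (hr : 7 ≤ r) {y w q : V}
    (hy : y ∈ OO G r Z T) (hw : w ∈ WW G r Z T) (hq : q ∉ Cl G Z T y)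
    (hqh : q ∈ BB G Z T → ¬ Hvy G r Z T y q) (hwq : w ≠ q)
    (hc : ∀ c ∈ Cl G Z T y, G.Adj w c ∨ G.Adj q c) : G.Adj w q := by
  obtain ⟨hyT, ha, u, hu, hu2⟩ := mem_OO.1 hy
  have hwB := (mem_WW.1 hw).1
  have huw : w ≠ u := by
    rintro rfl
    exact (mem_WW.1 hw).2 y hyT ha hu2
  have huq : q ≠ u := by
    rintro rfl
    exact hqh hu hu2
  have h1 := h.row_three hP hyT ha (BB_notMem hyT hwB) hq (BB_notMem hyT hu) hwq huw huq
  have h2 := card_le_dg_add hc
  have h3 := h.card_one hyT ha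
  by_contra hn
  have h4 := ms_le (G := G) w q
  have h5 := ms_le (G := G) w u
  have h6 := ms_le (G := G) q u
  unfold Hvy at hu2
  omega

/-- the class bound at a row with `a = 1`: `2 kappa_x(v) + nd(v) ≤ 2` for doubles with the same tail,
and `= 0` if the row is occupied -/
lemma class_bound (hP : PG G r) (h : S2 G r m t Z T) (hr : 7 ≤ r) {x y : V} (hx : x ∈ T)
    (hy : y ∈ T) (hxy : x ≠ y) (ha : a G r Z T y = 1) {U : Finset V} (hU : U ⊆ WW G r Z T)
    (hE : ∀ w ∈ U, ends G T w = {x, y}) {v : V} (hv : v ∈ U) :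
    2 * nd G (Cl G Z T x) v + nd G U v ≤ if y ∈ OO G r Z T then 0 else 2 := by
  have hvW := hU hv
  have hvB := (mem_WW.1 hvW).1
  have hcB : ∀ c ∈ Cl G Z T x, ∀ w ∈ BB G Z T, c ≠ w := fun c hc w hw hcw =>
    BB_notMem hx hw (hcw ▸ hc)
  split_ifs with ho
  · -- occupied row
    have h1 : nd G (Cl G Z T x) v = 0 := by
      unfold nd
      rw [card_eq_zero, filter_eq_empty_iff]
      rintro p hp ⟨hp1, hp2⟩
      refine hp2 (h.occ_adj hP hr ho hvW (Cl_notMem hx hy hxy hp) ?_ hp1.symm ?_)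
      · exact fun hpB => absurd rfl (hcB p hp p hpB)
      · exact h.cov_PC hvB (hE v hv) hxy hp hp2
    have h2 : nd G U v = 0 := by
      unfold nd
      rw [card_eq_zero, filter_eq_empty_iff]
      rintro w hw ⟨hw1, hw2⟩
      have hwW := hU hw
      have hwB := (mem_WW.1 hwW).1
      refine hw2 (h.occ_adj hP hr ho hvW (BB_notMem hy hwB) ?_ hw1.symm ?_)
      · exact fun _ => (mem_WW.1 hwW).2 y hy ha
      · exact h.cov_PP hvB hwB (hE v hv) (hE w hw) hxy hw1 hw2
    omega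
  · have hk := h.kap_le_one hP hr hvB (hE v hv) hxy ha ((mem_WW.1 hvW).2 y hy ha)
    have hvd := nonheavy_dg hy ha hvW
    have hcard := h.card_one hy ha
    have hvZ : v ∈ ZI G Z T {x, y} := PFrame.mem_ZI_of_BB hvB (hE v hv).subset
    by_cases h0 : nd G U v = 0
    · omega
    -- a missing partner
    obtain ⟨w, hw⟩ : ∃ w, w ∈ U.filter (fun z => z ≠ v ∧ ¬ G.Adj v z) := by
      rw [← nonempty_def, ← card_pos]
      exact Nat.pos_of_ne_zero h0
    obtain ⟨hwU, hw1, hw2⟩ := mem_filter.1 hw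
    have hwW := hU hwU
    have hwB := (mem_WW.1 hwW).1
    have hwd := nonheavy_dg hy ha hwW
    have hwZ : w ∈ ZI G Z T {x, y} := PFrame.mem_ZI_of_BB hwB (hE w hwU).subset
    have hcw := card_le_dg_add (h.cov_PP hvB hwB (hE v hv) (hE w hwU) hxy hw1 hw2)
    have h1 : nd G (Cl G Z T x) v = 0 := by
      unfold nd
      rw [card_eq_zero, filter_eq_empty_iff]
      rintro p hp ⟨hp1, hp2⟩
      have hpZ : p ∈ ZI G Z T {x, y} := h.toPFrame.Cl_sub_ZI' hx (by simp) hp
      have hcp := card_le_dg_add (h.cov_PC hvB (hE v hv) hxy hp hp2)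
      have hpw := h.no_three hx hy hxy hvZ hwZ hpZ hw1 hp1 (hcB p hp w hwB).symm hw2 hp2
      have h3 := h.row_three hP hy ha (BB_notMem hy hvB) (BB_notMem hy hwB)
        (Cl_notMem hx hy hxy hp) hw1.symm hp1.symm (hcB p hp w hwB).symm
      rw [ms_not hw2, ms_not hp2, ms_adj hpw] at h3
      omega
    have h2 : nd G U v ≤ 1 := by
      unfold nd
      rw [card_le_one]
      intro p hp q hq
      by_contra hpq
      obtain ⟨hp1, hp2, hp3⟩ := mem_filter.1 hp
      obtain ⟨hq1, hq2, hq3⟩ := mem_filter.1 hq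
      have hpB := (mem_WW.1 (hU hp1)).1
      have hqB := (mem_WW.1 (hU hq1)).1
      have hpZ : p ∈ ZI G Z T {x, y} := PFrame.mem_ZI_of_BB hpB (hE p hp1).subset
      have hqZ : q ∈ ZI G Z T {x, y} := PFrame.mem_ZI_of_BB hqB (hE q hq1).subset
      have h3 := h.no_three hx hy hxy hvZ hpZ hqZ hp2 hq2 hpq hp3 hq3
      have h4 := card_le_dg_add (h.cov_PP hvB hpB (hE v hv) (hE p hp1) hxy hp2 hp3)
      have h5 := card_le_dg_add (h.cov_PP hvB hqB (hE v hv) (hE q hq1) hxy hq2 hq3)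
      have h6 := h.row_three hP hy ha (BB_notMem hy hvB) (BB_notMem hy hpB) (BB_notMem hy hqB)
        hp2.symm hq2.symm hpq
      rw [ms_not hp3, ms_not hq3, ms_adj h3] at h6
      omega
    omega

end S2

end Row

end Pool.Agent.Lib.MP_f04ccf_co
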