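import Pool.Agent.Lib.MP_f04ccf_co.M.R7q

/-!
MP_f04ccf_co: there are no frames at `r = 7` with `m ≤ 7` (hence with `m = r`).
-/

set_option autoImplicit false

namespace Pool.Agent.Lib.MP_f04ccf_co

open Finset

attribute [local instance] Classical.propDecidable

variable {V : Type*} {G : SimpleGraph V} {r m t : ℕ} {Z T : Finset V}

lemma nd_lt_of_adj {C : Finset V} {v x : V} (hx : x ∈ C) (h : G.Adj v x) :
    nd G C v + 1 ≤ C.card := by
  unfold nd
  rw [← card_erase_add_one hx]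
  refine Nat.add_le_add_right (card_le_card ?_) 1
  intro c hc
  obtain ⟨h1, h2, h3⟩ := mem_filter.1 hc
  exact mem_erase.2 ⟨fun h' => h3 (h' ▸ h), h1⟩

lemma kap_prod {a b : ℕ} (h1 : a ≤ 4) (h2 : b ≤ 4) (h : ((a : ℤ) - 1) * ((b : ℤ) - 1) ≤ 2) :
    a + b ≤ 5 := by
  interval_cases a <;> interval_cases b <;> first | omega | (norm_num at h)

/-- the class sum -/
lemma sum_class {C U : Finset V} {k : ℕ} (h : ∀ v ∈ U, 2 * nd G C v + nd G U v ≤ k) :
    2 * ∑ v ∈ U, nd G C v + NE G U ≤ U.card * k := by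
  unfold NE
  rw [mul_sum, ← sum_add_distrib]
  have := sum_le_sum h
  rwa [sum_const, smul_eq_mul] at this

lemma arith_three {n1 n2 n3 f1 f2 f3 : ℕ} (h1 : f1 ≤ 1) (h2 : f2 ≤ 1) (h3 : f3 ≤ 1)
    (hw : 4 + f1 + f2 + f3 ≤ n1 + n2 + n3) (hw' : n1 + n2 + n3 ≤ 7)
    (h : 12 * (n1 + n2 + n3) ≤ 36 + (n1 * (2 * f1) + n2 * (2 * f2) + n3 * (2 * f3))
      + 2 * (n1 * n2 + n1 * n3 + n2 * n3)) : False := by
  have g1 : n1 ≤ 7 := by omega
  have g2 : n2 ≤ 7 := by omega
  interval_cases f1 <;> interval_cases f2 <;> interval_cases f3 <;> interval_cases n1 <;>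
    interval_cases n2 <;> omega

namespace S2

/-- (P) on a class and outside points in natural numbers -/
lemma A_nat (hP : PG G 7) (h : S2 G 7 m t Z T) {y : V} (hy : y ∈ T) {Y : Finset V}
    (hd : Y ⊆ BB G Z T) :
    12 * Y.card ≤ 12 * a G 7 Z T y + 2 * ∑ v ∈ Y, nd G (Cl G Z T y) v + NE G Y := by
  have h1 := h.val7 hP hy ((PFrame.BB_disjoint_Cl hy).mono_right hd)
  rw [sum_sub_distrib, sum_const, nsmul_eq_mul] at h1
  have h2 : (12 * Y.card : ℤ) ≤ 12 * (a G 7 Z T y : ℤ) + 2 * ∑ v ∈ Y, (nd G (Cl G Z T y) v : ℤ)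
      + NE G Y := by
    push_cast at h1
    linarith
  exact_mod_cast h2

/-- the edges between two classes contain the rectangles of two doubles which cover one class -/
lemma rect_two (h : S2 G r m t Z T) {x y v w : V} (hv : v ∈ BB G Z T) (hw : w ∈ BB G Z T)
    (ev : ends G T v = {x, y}) (ew : ends G T w = {x, y}) (hxy : x ≠ y)
    (hc : ∀ c ∈ Cl G Z T y, G.Adj v c ∨ G.Adj w c) :
    nd G (Cl G Z T x) v * nd G (Cl G Z T y) v + nd G (Cl G Z T x) w * nd G (Cl G Z T y) w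
      ≤ ∑ c ∈ Cl G Z T y, dg G (Cl G Z T x) c := by
  have key : ∀ v ∈ BB G Z T, ends G T v = {x, y} →
      ∀ c ∈ (Cl G Z T y).filter (fun z => z ≠ v ∧ ¬ G.Adj v z),
        nd G (Cl G Z T x) v ≤ dg G (Cl G Z T x) c := by
    intro v hv ev c hc
    obtain ⟨h1, h2, h3⟩ := mem_filter.1 hc
    refine card_le_card fun p hp => ?_
    obtain ⟨hp1, hp2, hp3⟩ := mem_filter.1 hp
    exact mem_filter.2 ⟨hp1, (h.toPFrame.Q_adj hv ev hxy hp1 h1 hp3 h3).symm⟩
  set Qv := (Cl G Z T y).filter (fun z => z ≠ v ∧ ¬ G.Adj v z) with hQv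
  set Qw := (Cl G Z T y).filter (fun z => z ≠ w ∧ ¬ G.Adj w z) with hQw
  have hdis : Disjoint Qv Qw := by
    rw [disjoint_left]
    intro c h1 h2
    obtain ⟨h3, -, h4⟩ := mem_filter.1 h1
    obtain ⟨-, -, h5⟩ := mem_filter.1 h2
    rcases hc c h3 with h6 | h6
    · exact h4 h6
    · exact h5 h6
  have h1 : ∑ c ∈ Qv, nd G (Cl G Z T x) v ≤ ∑ c ∈ Qv, dg G (Cl G Z T x) c :=
    sum_le_sum (key v hv ev)
  have h2 : ∑ c ∈ Qw, nd G (Cl G Z T x) w ≤ ∑ c ∈ Qw, dg G (Cl G Z T x) c :=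
    sum_le_sum (key w hw ew)
  rw [sum_const, smul_eq_mul, mul_comm] at h1 h2
  have h3 : ∑ c ∈ Qv ∪ Qw, dg G (Cl G Z T x) c ≤ ∑ c ∈ Cl G Z T y, dg G (Cl G Z T x) c :=
    sum_le_sum_of_subset (union_subset (filter_subset _ _) (filter_subset _ _))
  rw [sum_union hdis] at h3
  have h4 : nd G (Cl G Z T y) v = Qv.card := rfl
  have h5 : nd G (Cl G Z T y) w = Qw.card := rfl
  rw [h4, h5]
  omega

/-- the doubles between two rows with `a = 2` at `r = 7` -/
lemma qh (hP : PG G 7) (h : S2 G 7 m t Z T) {x y : V} (hx : x ∈ T) (hy : y ∈ T) (hxy : x ≠ y)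
    (hax : a G 7 Z T x = 2) (hay : a G 7 Z T y = 2) {Q : Finset V} (hQ : Q ⊆ BB G Z T)
    (hE : ∀ v ∈ Q, ends G T v = {x, y}) :
    QH G (nd G (Cl G Z T x)) (nd G (Cl G Z T y)) (∑ c ∈ Cl G Z T y, dg G (Cl G Z T x) c) Q := by
  have hcx : (Cl G Z T x).card = 5 := by have := h.a_add hx; omega
  have hcy : (Cl G Z T y).card = 5 := by have := h.a_add hy; omega
  have hax' : ∀ v ∈ Q, G.Adj v x := fun v hv => (mem_ends.1 (by rw [hE v hv]; simp)).2
  have hay' : ∀ v ∈ Q, G.Adj v y := fun v hv => (mem_ends.1 (by rw [hE v hv]; simp)).2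
  have hE' : ∀ v ∈ Q, ends G T v = {y, x} := fun v hv => by rw [hE v hv, pair_comm]
  have k1 : ∀ v ∈ Q, nd G (Cl G Z T x) v ≤ 4 := fun v hv => by
    have := nd_lt_of_adj (h.toPFrame.self_mem_Cl hx) (hax' v hv); omega
  have k2 : ∀ v ∈ Q, nd G (Cl G Z T y) v ≤ 4 := fun v hv => by
    have := nd_lt_of_adj (h.toPFrame.self_mem_Cl hy) (hay' v hv); omega
  have clq : ∀ z ∈ T, (Cl G Z T z).card = 5 → ∀ v ∈ Q, ∀ w ∈ Q, v ≠ w → G.Adj v w →
      1 ≤ nd G (Cl G Z T z) v + nd G (Cl G Z T z) w := by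
    intro z hz hcz v hv w hw hvw hvw'
    by_contra hcon
    have h1 : nd G (Cl G Z T z) v = 0 := by omega
    have h2 : nd G (Cl G Z T z) w = 0 := by omega
    have full : ∀ u ∈ Q, nd G (Cl G Z T z) u = 0 → ∀ c ∈ Cl G Z T z, G.Adj u c := by
      intro u hu h0 c hc
      unfold nd at h0
      rw [card_eq_zero, filter_eq_empty_iff] at h0
      by_contra hn
      exact h0 hc ⟨fun h' => BB_notMem hz (hQ hu) (h' ▸ hc), hn⟩
    have hvn := BB_notMem hz (hQ hv)
    have hwn := BB_notMem hz (hQ hw)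
    have h3 : Clq G (insert v (insert w (Cl G Z T z))) := by
      intro p hp q hq hpq
      rw [mem_insert, mem_insert] at hp hq
      rcases hp with rfl | rfl | hp <;> rcases hq with rfl | rfl | hq
      · exact absurd rfl hpq
      · exact hvw'
      · exact full _ hv h1 q hq
      · exact hvw'.symm
      · exact absurd rfl hpq
      · exact full _ hw h2 q hq
      · exact (full _ hv h1 p hp).symm
      · exact (full _ hw h2 p hp).symm
      · exact h.toPFrame.Cl_clq hz p hp q hq hpq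
    have h4 := h.omega _ (by
      intro p hp
      rw [mem_insert, mem_insert] at hp
      rcases hp with rfl | rfl | hp
      · exact (mem_BB.1 (hQ hv)).1.1
      · exact (mem_BB.1 (hQ hw)).1.1
      · exact (mem_Cl.1 hp).1) h3
    rw [card_insert_of_notMem (by simp [hvw, hvn]), card_insert_of_notMem hwn, hcz] at h4
    omega
  exact {
    k1 := k1
    k2 := k2
    k3 := fun v hv => by
      have h1 := h.toPFrame.kappa_mul hP (hQ hv) (hE v hv) hxy
      rw [hcx, hcy] at h1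
      exact kap_prod (k1 v hv) (k2 v hv) (by push_cast at h1; linarith)
    m1 := fun v hv w hw hvw hn => by
      have h1 := nd_add_le (h.cov_PP (hQ hv) (hQ hw) (hE' v hv) (hE' w hw) hxy.symm hvw.symm hn)
        (h.toPFrame.self_mem_Cl hx) (hax' v hv) (hax' w hw)
      omega
    m2 := fun v hv w hw hvw hn => by
      have h1 := nd_add_le (h.cov_PP (hQ hv) (hQ hw) (hE v hv) (hE w hw) hxy hvw.symm hn)
        (h.toPFrame.self_mem_Cl hy) (hay' v hv) (hay' w hw)
      omega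
    m3 := fun v hv w hw hvw hn =>
      h.rect_two (hQ hv) (hQ hw) (hE v hv) (hE w hw) hxy
        (h.cov_PP (hQ hv) (hQ hw) (hE v hv) (hE w hw) hxy hvw.symm hn)
    c1 := clq x hx hcx
    c2 := clq y hy hcy
    tri := fun v hv w hw z hz h1 h2 h3 n1 n2 =>
      h.no_three hx hy hxy (PFrame.mem_ZI_of_BB (hQ hv) (hE v hv).subset)
        (PFrame.mem_ZI_of_BB (hQ hw) (hE w hw).subset)
        (PFrame.mem_ZI_of_BB (hQ hz) (hE z hz).subset) h1.symm h2.symm h3 n1 n2
    A := fun Y hY => by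
      have := h.A_nat hP hx (hY.trans hQ)
      rw [hax] at this
      omega
    A' := fun Y hY => by
      have := h.A_nat hP hy (hY.trans hQ)
      rw [hay] at this
      omega
    B := fun Y hY => by
      have h1 := hP.pair (Y := Y) (h.toPFrame.Cl_clq hx) (h.toPFrame.Cl_clq hy)
        (PFrame.Cl_disjoint hx hy hxy) ((PFrame.BB_disjoint_Cl hx).mono_right (hY.trans hQ))
        ((PFrame.BB_disjoint_Cl hy).mono_right (hY.trans hQ))
      rw [sum_sub_distrib, sum_sub_distrib, sum_const, nsmul_eq_mul, hcx, hcy] at h1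
      have h2 : (2 * (∑ c ∈ Cl G Z T y, dg G (Cl G Z T x) c : ℕ) + 12 * Y.card : ℤ) ≤
          14 + 2 * (∑ v ∈ Y, nd G (Cl G Z T x) v : ℕ) + 2 * (∑ v ∈ Y, nd G (Cl G Z T y) v : ℕ)
            + NE G Y := by
        push_cast at h1 ⊢
        linarith
      exact_mod_cast h2 }

/-- the two ends of a double -/
lemma ends_two {w : V} (hw : w ∈ BB G Z T) : ∃ u ∈ T, ∃ v ∈ T, u ≠ v ∧ ends G T w = {u, v} := by
  have h1 := (mem_BB.1 hw).2
  rw [← card_ends, card_eq_two] at h1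
  obtain ⟨u, v, huv, he⟩ := h1
  exact ⟨u, (mem_ends.1 (by rw [he]; simp)).1, v, (mem_ends.1 (by rw [he]; simp)).1, huv, he⟩

/-- a double of `WW` has at most one end with `a = 1` -/
lemma WW_ends (hP : PG G r) (h : S2 G r m t Z T) (hr : 7 ≤ r) {u v w : V} (hw : w ∈ WW G r Z T)
    (he : ends G T w = {u, v}) (huv : u ≠ v) (hu : a G r Z T u = 1) (hv : a G r Z T v = 1) :
    False := by
  have hwB := (mem_WW.1 hw).1
  have huT : u ∈ T := (mem_ends.1 (by rw [he]; simp)).1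
  have hvT : v ∈ T := (mem_ends.1 (by rw [he]; simp)).1
  have h1 := h.kap_le_one hP hr hwB he huv hv ((mem_WW.1 hw).2 v hvT hv)
  have h2 := h.dg_nd_one huT hu (BB_notMem huT hwB)
  have h3 := (mem_WW.1 hw).2 u huT hu
  unfold Hvy at h3
  omega

lemma OO_sub (y : V) (hy : a G r Z T y ≠ 1) : OO G r Z T ⊆ T.erase y := by
  intro z hz
  obtain ⟨h1, h2, -⟩ := mem_OO.1 hz
  exact mem_erase.2 ⟨fun h' => hy (h' ▸ h2), h1⟩

/-- one hub: every double of `WW` has the hub as an end -/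
lemma hub_ends (hP : PG G r) (h : S2 G r m t Z T) (hr : 7 ≤ r) {x : V}
    (ho : ∀ y ∈ T, y ≠ x → a G r Z T y = 1) {w : V} (hw : w ∈ WW G r Z T) :
    ∃ y ∈ T, y ≠ x ∧ ends G T w = {x, y} := by
  obtain ⟨u, hu, v, hv, huv, he⟩ := ends_two (mem_WW.1 hw).1
  by_cases hux : u = x
  · exact ⟨v, hv, fun h' => huv (hux.trans h'.symm), by rw [he, hux]⟩
  by_cases hvx : v = x
  · exact ⟨u, hu, hux, by rw [he, hvx, pair_comm]⟩
  exact absurd (h.WW_ends hP hr hw he huv (ho u hu hux) (ho v hv hvx)) id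

/-- the vector `(2, 1, .., 1)` -/
lemma no_two (hP : PG G 7) (h : S2 G 7 m t Z T) {x : V} (hx : x ∈ T) (ha : a G 7 Z T x = 2)
    (ho : ∀ y ∈ T, y ≠ x → a G 7 Z T y = 1) : False := by
  have hb := h.b_eq
  have hs : ∑ v ∈ T, a G 7 Z T v = 2 + (T.erase x).card := by
    rw [← add_sum_erase T _ hx, ha, card_eq_sum_ones]
    congr 1
    exact sum_congr rfl fun y hy => ho y (mem_erase.1 hy).2 (mem_erase.1 hy).1
  have hcW := h.card_WW hP
  have hOO := card_le_card (OO_sub (G := G) (r := 7) (Z := Z) (T := T) x (by omega))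
  have hk : ∀ w ∈ WW G 7 Z T, nd G (Cl G Z T x) w ≤ 1 := by
    intro w hw
    obtain ⟨y, hy, hyx, he⟩ := h.hub_ends hP le_rfl ho hw
    exact h.kap_le_one hP le_rfl (mem_WW.1 hw).1 he hyx.symm (ho y hy hyx)
      ((mem_WW.1 hw).2 y hy (ho y hy hyx))
  by_cases h4 : 4 ≤ (WW G 7 Z T).card
  · obtain ⟨Y, hY, hYc⟩ := exists_subset_card_eq h4
    have h1 := h.A_nat hP hx (hY.trans (filter_subset _ _))
    have h2 := NE_le (G := G) Y
    have h3 : ∑ v ∈ Y, nd G (Cl G Z T x) v ≤ ∑ v ∈ Y, 1 := sum_le_sum fun v hv => hk v (hY hv)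
    rw [← card_eq_sum_ones] at h3
    rw [hYc, ha] at h1
    rw [hYc] at h2 h3
    omega
  · have h3 : (WW G 7 Z T).card = 3 := by omega
    have hOe : OO G 7 Z T = T.erase x := eq_of_subset_of_card_le (OO_sub x (by omega)) (by omega)
    have h1 := h.A_nat hP hx (Y := WW G 7 Z T) (filter_subset _ _)
    have h2 := NE_le (G := G) (WW G 7 Z T)
    have h5 : ∑ v ∈ WW G 7 Z T, nd G (Cl G Z T x) v = 0 := by
      refine sum_eq_zero fun w hw => ?_
      obtain ⟨y, hy, hyx, he⟩ := h.hub_ends hP le_rfl ho hw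
      have h6 := h.class_bound hP le_rfl hx hy hyx.symm (ho y hy hyx) (U := {w})
        (singleton_subset_iff.2 hw) (by
          intro w' hw'
          rw [mem_singleton.1 hw']
          exact he) (mem_singleton_self w)
      rw [if_pos (by rw [hOe]; exact mem_erase.2 ⟨hyx, hy⟩)] at h6
      omega
    rw [h3, ha, h5] at h1
    rw [h3] at h2
    omega

/-- the doubles of `WW` with ends `x, y` -/
noncomputable def U2 (G : SimpleGraph V) (r : ℕ) (Z T : Finset V) (x y : V) : Finset V :=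
  (WW G r Z T).filter (fun w => ends G T w = {x, y})

lemma mem_U2 {x y w : V} : w ∈ U2 G r Z T x y ↔ w ∈ WW G r Z T ∧ ends G T w = {x, y} := mem_filter

lemma U2_disjoint {x y u v : V} (h : ({x, y} : Finset V) ≠ {u, v}) :
    Disjoint (U2 G r Z T x y) (U2 G r Z T u v) := by
  rw [disjoint_left]
  intro w h1 h2
  exact h ((mem_U2.1 h1).2.symm.trans (mem_U2.1 h2).2)

/-- the free indicator of a row -/
noncomputable def fr (G : SimpleGraph V) (r : ℕ) (Z T : Finset V) (y : V) : ℕ :=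
  if y ∈ OO G r Z T then 0 else 1

lemma fr_le (y : V) : fr G r Z T y ≤ 1 := by unfold fr; split_ifs <;> omega

lemma U2_bound (hP : PG G r) (h : S2 G r m t Z T) (hr : 7 ≤ r) {x y : V} (hx : x ∈ T)
    (hy : y ∈ T) (hxy : x ≠ y) (ha : a G r Z T y = 1) :
    2 * ∑ v ∈ U2 G r Z T x y, nd G (Cl G Z T x) v + NE G (U2 G r Z T x y)
      ≤ (U2 G r Z T x y).card * (2 * fr G r Z T y) := by
  apply sum_class
  intro v hv
  have := h.class_bound hP hr hx hy hxy ha (U := U2 G r Z T x y) (filter_subset _ _)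
    (fun w hw => (mem_U2.1 hw).2) hv
  unfold fr
  split_ifs at this ⊢ <;> omega

lemma pair_ne {x y z : V} (hxy : x ≠ y) (hyz : y ≠ z) : ({x, y} : Finset V) ≠ {x, z} := by
  intro h
  have : y ∈ ({x, z} : Finset V) := by rw [← h]; simp
  simp only [mem_insert, mem_singleton] at this
  rcases this with h1 | h1
  · exact hxy h1.symm
  · exact hyz h1

/-- the vector `(3, 1, 1, 1)` -/
lemma no_three_one (hP : PG G 7) (h : S2 G 7 m 4 Z T) {x : V} (hx : x ∈ T)
    (ha : a G 7 Z T x = 3) (ho : ∀ y ∈ T, y ≠ x → a G 7 Z T y = 1) : False := by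
  have hb := h.b_eq
  have hcard : (T.erase x).card = 3 := by rw [card_erase_of_mem hx, h.cardT]
  have hs : ∑ v ∈ T, a G 7 Z T v = 3 + (T.erase x).card := by
    rw [← add_sum_erase T _ hx, ha, card_eq_sum_ones]
    congr 1
    exact sum_congr rfl fun y hy => ho y (mem_erase.1 hy).2 (mem_erase.1 hy).1
  have hcW := h.card_WW hP
  obtain ⟨y1, y2, y3, d12, d13, d23, hT⟩ := card_eq_three.1 hcard
  have mem : ∀ y ∈ T.erase x, y ∈ T ∧ y ≠ x := fun y hy => ⟨(mem_erase.1 hy).2, (mem_erase.1 hy).1⟩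
  obtain ⟨m1, n1⟩ := mem y1 (by rw [hT]; simp)
  obtain ⟨m2, n2⟩ := mem y2 (by rw [hT]; simp)
  obtain ⟨m3, n3⟩ := mem y3 (by rw [hT]; simp)
  have hOO : (OO G 7 Z T).card + (fr G 7 Z T y1 + fr G 7 Z T y2 + fr G 7 Z T y3) ≤ 3 := by
    have h1 : OO G 7 Z T ⊆ ({y1, y2, y3} : Finset V).filter (fun y => y ∈ OO G 7 Z T) := by
      intro y hy
      have := OO_sub (G := G) (r := 7) (Z := Z) (T := T) x (by omega) hy
      rw [hT] at this
      exact mem_filter.2 ⟨this, hy⟩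
    have h2 := card_le_card h1
    rw [card_filter, sum_insert (by simp [d12, d13]), sum_pair d23] at h2
    unfold fr
    split_ifs at h2 ⊢ <;> omega
  have hW : WW G 7 Z T = U2 G 7 Z T x y1 ∪ (U2 G 7 Z T x y2 ∪ U2 G 7 Z T x y3) := by
    ext w
    simp only [mem_union, mem_U2]
    constructor
    · intro hw
      obtain ⟨y, hy, hyx, he⟩ := h.hub_ends hP le_rfl ho hw
      have : y ∈ T.erase x := mem_erase.2 ⟨hyx, hy⟩
      rw [hT] at this
      simp only [mem_insert, mem_singleton] at this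
      rcases this with rfl | rfl | rfl
      · exact Or.inl ⟨hw, he⟩
      · exact Or.inr (Or.inl ⟨hw, he⟩)
      · exact Or.inr (Or.inr ⟨hw, he⟩)
    · rintro (hw | hw | hw) <;> exact hw.1
  have dis2 : Disjoint (U2 G 7 Z T x y2) (U2 G 7 Z T x y3) := U2_disjoint (pair_ne n2.symm d23)
  have dis1 : Disjoint (U2 G 7 Z T x y1) (U2 G 7 Z T x y2 ∪ U2 G 7 Z T x y3) :=
    disjoint_union_right.2 ⟨U2_disjoint (pair_ne n1.symm d12), U2_disjoint (pair_ne n1.symm d13)⟩
  have hA := h.A_nat hP hx (Y := WW G 7 Z T) (filter_subset _ _)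
  have hle : (WW G 7 Z T).card ≤ (BB G Z T).card := card_le_card (filter_subset _ _)
  have b1 := h.U2_bound hP le_rfl hx m1 n1.symm (ho y1 m1 n1)
  have b2 := h.U2_bound hP le_rfl hx m2 n2.symm (ho y2 m2 n2)
  have b3 := h.U2_bound hP le_rfl hx m3 n3.symm (ho y3 m3 n3)
  have c1 := NE_union_le (G := G) dis1
  have c2 := NE_union_le (G := G) dis2
  have c3 : (U2 G 7 Z T x y2 ∪ U2 G 7 Z T x y3).card
      = (U2 G 7 Z T x y2).card + (U2 G 7 Z T x y3).card := card_union_of_disjoint dis2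
  have c4 : (WW G 7 Z T).card = (U2 G 7 Z T x y1).card
      + ((U2 G 7 Z T x y2).card + (U2 G 7 Z T x y3).card) := by
    rw [hW, card_union_of_disjoint dis1, c3]
  rw [hb, hs, hcard] at hcW hle
  rw [ha, c4, hW, sum_union dis1, sum_union dis2] at hA
  rw [c3] at c1
  refine arith_three (n1 := (U2 G 7 Z T x y1).card) (n2 := (U2 G 7 Z T x y2).card)
    (n3 := (U2 G 7 Z T x y3).card) (f1 := fr G 7 Z T y1) (f2 := fr G 7 Z T y2)
    (f3 := fr G 7 Z T y3) (fr_le y1) (fr_le y2) (fr_le y3) (by omega) (by omega) ?_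
  have e1 : (U2 G 7 Z T x y1).card * ((U2 G 7 Z T x y2).card + (U2 G 7 Z T x y3).card)
      = (U2 G 7 Z T x y1).card * (U2 G 7 Z T x y2).card
        + (U2 G 7 Z T x y1).card * (U2 G 7 Z T x y3).card := by ring
  rw [e1] at c1
  omega

end S2

end Pool.Agent.Lib.MP_f04ccf_co
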