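import Pool.Agent.Lib.MP_f04ccf_co.M.R7b

/-!
MP_f04ccf_co: the vector `(2, 2, 1, 1)` at `r = 7`, and the conclusion: there is no frame with
`r = 7`, `m ≤ 7`.
-/

set_option autoImplicit false

namespace Pool.Agent.Lib.MP_f04ccf_co

open Finset

attribute [local instance] Classical.propDecidable

variable {V : Type*} {G : SimpleGraph V} {r m t : ℕ} {Z T : Finset V}

/-- one side: `n1 + n2` doubles with the hub as an end, `q` doubles between the hubs -/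
lemma arith_side {n1 n2 f1 f2 : ℕ} (h1 : f1 ≤ 1) (h2 : f2 ≤ 1)
    (h : 12 * (n1 + n2) ≤ 24 + (n1 * (2 * f1) + n2 * (2 * f2)) + 2 * (n1 * n2))
    (hn : n1 + n2 ≤ 7) : n1 + n2 ≤ 2 := by
  have g1 : n1 ≤ 7 := by omega
  interval_cases f1 <;> interval_cases f2 <;> interval_cases n1 <;> omega

lemma arith_gamma {n1 n2 f1 f2 : ℕ} (h1 : f1 ≤ 1) (h2 : f2 ≤ 1) (hn : n1 + n2 ≤ 2) :
    ∃ γ, n1 * (2 * f1) + n2 * (2 * f2) + 2 * (n1 * n2) ≤ 2 * γ ∧ γ ≤ 1 + (f1 + f2) ∧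
      (n1 + n2 ≤ 1 → γ ≤ 1 ∧ γ ≤ f1 + f2) := by
  refine ⟨n1 * f1 + n2 * f2 + n1 * n2, ?_, ?_⟩
  · apply le_of_eq; ring
  · have g1 : n1 ≤ 2 := by omega
    interval_cases f1 <;> interval_cases f2 <;> interval_cases n1 <;>
      (refine ⟨?_, ?_⟩ <;> omega)

lemma arith_final {p p' q γ γ' F K K' N : ℕ} (hp : p ≤ 2) (hp' : p' ≤ 2) (hq : q ≤ 3)
    (hF : F ≤ 2) (hw : 5 + F ≤ p + p' + q) (g1 : γ ≤ 1 + F) (g2 : γ' ≤ 1 + F)
    (g3 : p ≤ 1 → γ ≤ 1 ∧ γ ≤ F) (g4 : p' ≤ 1 → γ' ≤ 1 ∧ γ' ≤ F)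
    (hA : 12 * (p + q) ≤ 24 + 2 * γ + 2 * K + N + 2 * (p * q))
    (hA' : 12 * (p' + q) ≤ 24 + 2 * γ' + 2 * K' + N + 2 * (p' * q))
    (q0 : q = 0 → K = 0 ∧ K' = 0 ∧ N = 0) (q1 : q = 1 → K + K' + N ≤ 5)
    (q2 : q = 2 → K + K' + N ≤ 10)
    (q3 : q = 3 → K + K' + N ≤ 17 ∧ ¬ (22 ≤ 2 * K + N ∧ 12 ≤ 2 * K' + N) ∧
      ¬ (12 ≤ 2 * K + N ∧ 22 ≤ 2 * K' + N)) : False := by
  interval_cases q <;> interval_cases p <;> interval_cases p' <;> omega

namespace S2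

lemma pair_ne' {x x' y z : V} (h1 : x ≠ x') (h2 : x ≠ z) : ({x, y} : Finset V) ≠ {x', z} := by
  intro h
  have : x ∈ ({x', z} : Finset V) := by rw [← h]; simp
  simp only [mem_insert, mem_singleton] at this
  rcases this with h3 | h3
  · exact h1 h3
  · exact h2 h3

/-- one hub of the vector `(2, 2, 1, 1)` -/
lemma side (hP : PG G 7) (h : S2 G 7 m t Z T) {x x' y1 y2 : V} (hx : x ∈ T)
    (hy1 : y1 ∈ T) (hy2 : y2 ∈ T) (d1 : x ≠ x') (e1 : x ≠ y1) (e2 : x ≠ y2)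
    (e3 : x' ≠ y1) (e4 : x' ≠ y2) (e5 : y1 ≠ y2) (ha : a G 7 Z T x = 2)
    (b1 : a G 7 Z T y1 = 1) (b2 : a G 7 Z T y2 = 1) {Q : Finset V} (hQ : Q ⊆ WW G 7 Z T)
    (hE : ∀ w ∈ Q, ends G T w = {x, x'}) (hW : (WW G 7 Z T).card ≤ 7) :
    ∃ p γ, p = (U2 G 7 Z T x y1).card + (U2 G 7 Z T x y2).card ∧ p ≤ 2 ∧
      γ ≤ 1 + (fr G 7 Z T y1 + fr G 7 Z T y2) ∧
      (p ≤ 1 → γ ≤ 1 ∧ γ ≤ fr G 7 Z T y1 + fr G 7 Z T y2) ∧
      12 * (p + Q.card) ≤ 24 + 2 * γ + 2 * ∑ v ∈ Q, nd G (Cl G Z T x) v + NE G Q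
        + 2 * (p * Q.card) := by
  set A1 := U2 G 7 Z T x y1 with hA1
  set A2 := U2 G 7 Z T x y2 with hA2
  have dA : Disjoint A1 A2 := U2_disjoint (pair_ne e1 e5)
  have s1 : A1 ⊆ WW G 7 Z T := filter_subset _ _
  have s2 : A2 ⊆ WW G 7 Z T := filter_subset _ _
  have dQ : Disjoint (A1 ∪ A2) Q := by
    rw [disjoint_left]
    intro w hw hwQ
    have h1 := hE w hwQ
    rcases mem_union.1 hw with h2 | h2
    · exact pair_ne e1 e3.symm ((mem_U2.1 h2).2.symm.trans h1)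
    · exact pair_ne e2 e4.symm ((mem_U2.1 h2).2.symm.trans h1)
  have hAc : (A1 ∪ A2).card = A1.card + A2.card := card_union_of_disjoint dA
  have g1 := h.U2_bound hP le_rfl hx hy1 e1 b1
  have g2 := h.U2_bound hP le_rfl hx hy2 e2 b2
  rw [← hA1] at g1
  rw [← hA2] at g2
  have c1 := NE_union_le (G := G) dA
  have hWle : (A1 ∪ A2).card ≤ 7 := (card_le_card (union_subset s1 s2)).trans hW
  have v1 := h.A_nat hP hx (Y := A1 ∪ A2) ((union_subset s1 s2).trans (filter_subset _ _))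
  rw [sum_union dA, hAc, ha] at v1
  rw [hAc] at hWle
  have hp2 : A1.card + A2.card ≤ 2 := arith_side (f1 := fr G 7 Z T y1) (f2 := fr G 7 Z T y2)
    (fr_le y1) (fr_le y2) (by omega) hWle
  obtain ⟨γ, k1, k2, k3⟩ := arith_gamma (n1 := A1.card) (n2 := A2.card) (fr_le (G := G) (r := 7)
    (Z := Z) (T := T) y1) (fr_le (G := G) (r := 7) (Z := Z) (T := T) y2) hp2
  refine ⟨A1.card + A2.card, γ, rfl, hp2, k2, k3, ?_⟩
  have v2 := h.A_nat hP hx (Y := (A1 ∪ A2) ∪ Q)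
    ((union_subset (union_subset s1 s2) hQ).trans (filter_subset _ _))
  have c2 := NE_union_le (G := G) dQ
  rw [sum_union dQ, sum_union dA, card_union_of_disjoint dQ, hAc, ha] at v2
  rw [hAc] at c2
  omega

/-- the vector `(2, 2, 1, 1)` -/
lemma no_two_two (hP : PG G 7) (h : S2 G 7 m 4 Z T) {x x' : V} (hx : x ∈ T) (hx' : x' ∈ T)
    (hxx : x ≠ x') (ha : a G 7 Z T x = 2) (ha' : a G 7 Z T x' = 2)
    (ho : ∀ y ∈ T, y ≠ x → y ≠ x' → a G 7 Z T y = 1) : False := by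
  have hb := h.b_eq
  have hx'e : x' ∈ T.erase x := mem_erase.2 ⟨hxx.symm, hx'⟩
  have hcard : ((T.erase x).erase x').card = 2 := by
    rw [card_erase_of_mem hx'e, card_erase_of_mem hx, h.cardT]
  have hs : ∑ v ∈ T, a G 7 Z T v = 6 := by
    rw [← add_sum_erase T _ hx, ← add_sum_erase (T.erase x) _ hx'e, ha, ha']
    have : ∑ y ∈ (T.erase x).erase x', a G 7 Z T y = ((T.erase x).erase x').card := by
      rw [card_eq_sum_ones]
      refine sum_congr rfl fun y hy => ?_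
      obtain ⟨h1, h2⟩ := mem_erase.1 hy
      exact ho y (mem_erase.1 h2).2 (mem_erase.1 h2).1 h1
    rw [this, hcard]
    norm_num
  have hcW := h.card_WW hP
  have hle : (WW G 7 Z T).card ≤ (BB G Z T).card := card_le_card (filter_subset _ _)
  obtain ⟨y1, y2, d12, hT⟩ := card_eq_two.1 hcard
  have mem : ∀ y ∈ (T.erase x).erase x', y ∈ T ∧ y ≠ x ∧ y ≠ x' := fun y hy => by
    obtain ⟨h1, h2⟩ := mem_erase.1 hy
    exact ⟨(mem_erase.1 h2).2, (mem_erase.1 h2).1, h1⟩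
  obtain ⟨m1, n1, n1'⟩ := mem y1 (by rw [hT]; simp)
  obtain ⟨m2, n2, n2'⟩ := mem y2 (by rw [hT]; simp)
  have a1 := ho y1 m1 n1 n1'
  have a2 := ho y2 m2 n2 n2'
  have inT : ∀ y ∈ T, y ≠ x → y ≠ x' → y = y1 ∨ y = y2 := by
    intro y hy h1 h2
    have : y ∈ (T.erase x).erase x' := mem_erase.2 ⟨h2, mem_erase.2 ⟨h1, hy⟩⟩
    rw [hT] at this
    simpa using this
  have hOO : (OO G 7 Z T).card + (fr G 7 Z T y1 + fr G 7 Z T y2) ≤ 2 := by
    have h1 : OO G 7 Z T ⊆ ({y1, y2} : Finset V).filter (fun y => y ∈ OO G 7 Z T) := by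
      intro y hy
      obtain ⟨h1, h2, -⟩ := mem_OO.1 hy
      have h3 := inT y h1 (by rintro rfl; omega) (by rintro rfl; omega)
      exact mem_filter.2 ⟨by simpa using h3, hy⟩
    have h2 := card_le_card h1
    rw [card_filter, sum_pair d12] at h2
    unfold fr
    split_ifs at h2 ⊢ <;> omega
  set Q := (WW G 7 Z T).filter (fun w => ends G T w = {x, x'}) with hQ
  have hQs : Q ⊆ WW G 7 Z T := filter_subset _ _
  have hQE : ∀ w ∈ Q, ends G T w = {x, x'} := fun w hw => (mem_filter.1 hw).2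
  have hQE' : ∀ w ∈ Q, ends G T w = {x', x} := fun w hw => by rw [hQE w hw, pair_comm]
  have hW7 : (WW G 7 Z T).card ≤ 7 := by omega
  obtain ⟨p, γ, p1, p2, p3, p4, p5⟩ := h.side hP hx m1 m2 hxx n1.symm n2.symm n1'.symm n2'.symm
    d12 ha a1 a2 hQs hQE hW7
  obtain ⟨p', γ', r1, r2, r3, r4, r5⟩ := h.side hP hx' m1 m2 hxx.symm n1'.symm n2'.symm n1.symm
    n2.symm d12 ha' a1 a2 hQs hQE' hW7
  have qh := h.qh hP hx hx' hxx ha ha' (hQs.trans (filter_subset _ _)) hQE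
  have hq3 := qh.card_le
  obtain ⟨t0, t1, t2, t3⟩ := qh.totals
  -- the doubles of `WW`
  have hWsub : WW G 7 Z T ⊆ ((U2 G 7 Z T x y1 ∪ U2 G 7 Z T x y2) ∪
      (U2 G 7 Z T x' y1 ∪ U2 G 7 Z T x' y2)) ∪ Q := by
    intro w hw
    obtain ⟨u, hu, v, hv, huv, he⟩ := ends_two (mem_WW.1 hw).1
    have key : ∀ u ∈ T, ∀ v ∈ T, u ≠ v → ends G T w = {u, v} → u = x ∨ u = x' →
        w ∈ ((U2 G 7 Z T x y1 ∪ U2 G 7 Z T x y2) ∪
          (U2 G 7 Z T x' y1 ∪ U2 G 7 Z T x' y2)) ∪ Q := by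
      intro u hu v hv huv he hux
      simp only [mem_union, mem_U2, hQ, mem_filter]
      rcases hux with rfl | rfl
      · by_cases hv' : v = x'
        · subst hv'
          exact Or.inr ⟨hw, he⟩
        · rcases inT v hv huv.symm hv' with rfl | rfl
          · exact Or.inl (Or.inl (Or.inl ⟨hw, he⟩))
          · exact Or.inl (Or.inl (Or.inr ⟨hw, he⟩))
      · by_cases hv' : v = x
        · subst hv'
          exact Or.inr ⟨hw, by rw [he, pair_comm]⟩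
        · rcases inT v hv hv' huv.symm with rfl | rfl
          · exact Or.inl (Or.inr (Or.inl ⟨hw, he⟩))
          · exact Or.inl (Or.inr (Or.inr ⟨hw, he⟩))
    by_cases hu' : u = x ∨ u = x'
    · exact key u hu v hv huv he hu'
    by_cases hv' : v = x ∨ v = x'
    · exact key v hv u hu huv.symm (by rw [he, pair_comm]) hv'
    push Not at hu' hv'
    exact absurd (h.WW_ends hP le_rfl hw he huv (ho u hu hu'.1 hu'.2) (ho v hv hv'.1 hv'.2)) id
  have hWc : (WW G 7 Z T).card ≤ p + p' + Q.card := by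
    have c1 := card_le_card hWsub
    have c2 := card_union_le ((U2 G 7 Z T x y1 ∪ U2 G 7 Z T x y2) ∪
      (U2 G 7 Z T x' y1 ∪ U2 G 7 Z T x' y2)) Q
    have c3 := card_union_le (U2 G 7 Z T x y1 ∪ U2 G 7 Z T x y2)
      (U2 G 7 Z T x' y1 ∪ U2 G 7 Z T x' y2)
    have c4 := card_union_le (U2 G 7 Z T x y1) (U2 G 7 Z T x y2)
    have c5 := card_union_le (U2 G 7 Z T x' y1) (U2 G 7 Z T x' y2)
    omega
  exact arith_final (F := fr G 7 Z T y1 + fr G 7 Z T y2) p2 r2 hq3 (by omega) (by omega) p3 r3 p4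
    r4 p5 r5 t0 t1 t2 t3

/-- **there is no frame with `r = 7`, `m ≤ 7`** -/
theorem not_seven (hP : PG G 7) (h : S2 G 7 m t Z T) (hm : m ≤ 7) : False := by
  have ht := h.four_le le_rfl hP
  have hb := h.b_eq
  have hbm := h.b
  have hcT := h.cardT
  have hpos : ∀ y ∈ T, 1 ≤ a G 7 Z T y := fun y hy => h.a_pos hy
  have hsum : ∀ S ⊆ T, S.card ≤ ∑ y ∈ S, a G 7 Z T y := by
    intro S hS
    rw [card_eq_sum_ones]
    exact sum_le_sum fun y hy => hpos y (hS hy)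
  by_cases hall : ∀ y ∈ T, a G 7 Z T y = 1
  · -- all rows have `a = 1`
    have h1 : WW G 7 Z T = ∅ := by
      rw [eq_empty_iff_forall_notMem]
      intro w hw
      obtain ⟨u, hu, v, hv, huv, he⟩ := ends_two (mem_WW.1 hw).1
      exact h.WW_ends hP le_rfl hw he huv (hall u hu) (hall v hv)
    have h2 := h.card_WW hP
    have h3 : (OO G 7 Z T).card ≤ T.card := card_le_card (filter_subset _ _)
    have h4 := hsum T (Subset.refl T)
    rw [h1, card_empty] at h2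
    omega
  push Not at hall
  obtain ⟨x, hx, hax⟩ := hall
  have hx1 := hpos x hx
  have hex : ∑ y ∈ T, a G 7 Z T y = a G 7 Z T x + ∑ y ∈ T.erase x, a G 7 Z T y :=
    (add_sum_erase T _ hx).symm
  have hec : (T.erase x).card + 1 = T.card := card_erase_add_one hx
  by_cases ho : ∀ y ∈ T, y ≠ x → a G 7 Z T y = 1
  · have h1 := hsum (T.erase x) (erase_subset _ _)
    by_cases h2 : a G 7 Z T x = 2
    · exact h.no_two hP hx h2 ho
    · have h3 : t = 4 := by omega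
      subst h3
      exact h.no_three_one hP hx (by omega) ho
  · push Not at ho
    obtain ⟨x', hx', hxx, hax'⟩ := ho
    have hx'e : x' ∈ T.erase x := mem_erase.2 ⟨hxx, hx'⟩
    have hx2 := hpos x' hx'
    have h1 : ∑ y ∈ T.erase x, a G 7 Z T y
        = a G 7 Z T x' + ∑ y ∈ (T.erase x).erase x', a G 7 Z T y := (add_sum_erase _ _ hx'e).symm
    have h2 : ((T.erase x).erase x').card + 1 = (T.erase x).card := card_erase_add_one hx'e
    have h3 := hsum ((T.erase x).erase x') ((erase_subset _ _).trans (erase_subset _ _))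
    have h4 : t = 4 := by omega
    subst h4
    refine h.no_two_two hP hx hx' hxx.symm (by omega) (by omega) ?_
    intro y hy hyx hyx'
    have hye : y ∈ (T.erase x).erase x' := mem_erase.2 ⟨hyx', mem_erase.2 ⟨hyx, hy⟩⟩
    have h5 : ∑ z ∈ (T.erase x).erase x', a G 7 Z T z
        = a G 7 Z T y + ∑ z ∈ ((T.erase x).erase x').erase y, a G 7 Z T z :=
      (add_sum_erase _ _ hye).symm
    have h6 : (((T.erase x).erase x').erase y).card + 1 = ((T.erase x).erase x').card :=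
      card_erase_add_one hye
    have h7 := hsum (((T.erase x).erase x').erase y)
      ((erase_subset _ _).trans ((erase_subset _ _).trans (erase_subset _ _)))
    have h8 := hpos y hy
    omega

end S2

end Pool.Agent.Lib.MP_f04ccf_co
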