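import Pool.Agent.Lib.MP_f04ccf_co.M.R7q

/-!
MP_f04ccf_co: the doubles between two rows with `a = 2`, every `r`: there are at most three of them.
Abstract form with `M = r - 3`: `a, b` = number of missed points in the two classes (`M + 1` points
each), `e` = number of edges between the two classes.
-/

set_option autoImplicit false

namespace Pool.Agent.Lib.MP_f04ccf_co

open Finset

attribute [local instance] Classical.propDecidable

variable {V : Type*} {G : SimpleGraph V}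

/-- the doubles between two rows with `M + 1` points each -/
structure QM (G : SimpleGraph V) (M : ℕ) (a b : V → ℕ) (e : ℕ) (Q : Finset V) : Prop where
  k1 : ∀ v ∈ Q, a v ≤ M
  k2 : ∀ v ∈ Q, b v ≤ M
  k3 : ∀ v ∈ Q, a v + b v ≤ M + 1
  m1 : ∀ v ∈ Q, ∀ w ∈ Q, v ≠ w → ¬ G.Adj v w → a v + a w ≤ M
  m2 : ∀ v ∈ Q, ∀ w ∈ Q, v ≠ w → ¬ G.Adj v w → b v + b w ≤ M
  m3 : ∀ v ∈ Q, ∀ w ∈ Q, v ≠ w → ¬ G.Adj v w → a v * b v + a w * b w ≤ e
  c1 : ∀ v ∈ Q, ∀ w ∈ Q, v ≠ w → G.Adj v w → 1 ≤ a v + a w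
  c2 : ∀ v ∈ Q, ∀ w ∈ Q, v ≠ w → G.Adj v w → 1 ≤ b v + b w
  tri : ∀ v ∈ Q, ∀ w ∈ Q, ∀ z ∈ Q, v ≠ w → v ≠ z → w ≠ z → ¬ G.Adj v w → ¬ G.Adj v z → G.Adj w z
  A : ∀ Y ⊆ Q, 2 * (M + 2) * Y.card ≤ 4 * (M + 2) + 2 * ∑ v ∈ Y, a v + NE G Y
  A' : ∀ Y ⊆ Q, 2 * (M + 2) * Y.card ≤ 4 * (M + 2) + 2 * ∑ v ∈ Y, b v + NE G Y
  B : ∀ Y ⊆ Q, 2 * e + 2 * (M + 2) * Y.card ≤ 2 * (M + 2) + 2 + 2 * ∑ v ∈ Y, a v + 2 * ∑ v ∈ Y, b v + NE G Y

lemma QM.mono {M : ℕ} {a b : V → ℕ} {e : ℕ} {Q Q' : Finset V} (h : QM G M a b e Q) (hs : Q' ⊆ Q) :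
    QM G M a b e Q' where
  k1 v hv := h.k1 v (hs hv)
  k2 v hv := h.k2 v (hs hv)
  k3 v hv := h.k3 v (hs hv)
  m1 v hv w hw := h.m1 v (hs hv) w (hs hw)
  m2 v hv w hw := h.m2 v (hs hv) w (hs hw)
  m3 v hv w hw := h.m3 v (hs hv) w (hs hw)
  c1 v hv w hw := h.c1 v (hs hv) w (hs hw)
  c2 v hv w hw := h.c2 v (hs hv) w (hs hw)
  tri v hv w hw z hz := h.tri v (hs hv) w (hs hw) z (hs hz)
  A Y hY := h.A Y (hY.trans hs)
  A' Y hY := h.A' Y (hY.trans hs)
  B Y hY := h.B Y (hY.trans hs)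

/-- two numbers at most `M` with sum `M + 1` and product at most `M` -/
lemma qm_arith {M a b : ℕ} (h1 : a ≤ M) (h2 : b ≤ M) (h3 : a + b = M + 1) (h4 : a * b ≤ M) :
    a = M ∨ b = M := by
  by_contra hcon
  push Not at hcon
  have h5 : 2 ≤ a := by omega
  have h6 : 2 ≤ b := by omega
  nlinarith [Nat.mul_le_mul h5 h6, mul_le_mul_of_nonneg_left h6 (show 0 ≤ a by omega)]

/-- two numbers between `1` and `M - 1` -/
lemma qm_arith2 {M x y : ℕ} (h1 : 1 ≤ x) (h2 : 1 ≤ y) (h3 : x + 1 ≤ M) (h4 : y + 1 ≤ M)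
    (h : x * y + (M - x) * (M - y) + 1 ≤ M) : False := by
  obtain ⟨x', hx⟩ : ∃ x', M = x + x' := ⟨M - x, by omega⟩
  obtain ⟨y', hy⟩ : ∃ y', M = y + y' := ⟨M - y, by omega⟩
  have e1 : M - x = x' := by omega
  have e2 : M - y = y' := by omega
  rw [e1, e2] at h
  have h5 : 1 ≤ x' := by omega
  have h6 : 1 ≤ y' := by omega
  have h7 : x + y ≤ x * y + 1 := by nlinarith
  have h8 : x' + y' ≤ x' * y' + 1 := by nlinarith
  omega

variable {M : ℕ} {a b : V → ℕ} {e : ℕ} {Q : Finset V}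

/-- the star -/
lemma QM.star (hM : 5 ≤ M) (h : QM G M a b e Q) {p q s u : V} (hp : p ∈ Q) (hq : q ∈ Q) (hs : s ∈ Q)
    (hu : u ∈ Q) (d1 : p ≠ q) (d2 : p ≠ s) (d3 : p ≠ u) (d4 : q ≠ s) (d5 : q ≠ u) (d6 : s ≠ u)
    (n1 : ¬ G.Adj p q) (n2 : ¬ G.Adj p s) (n3 : ¬ G.Adj p u) : False := by
  have hY : ({p, q, s, u} : Finset V) ⊆ Q := by
    intro x hx
    simp only [mem_insert, mem_singleton] at hx
    rcases hx with rfl | rfl | rfl | rfl <;> assumption
  have e1 := h.tri p hp q hq s hs d1 d2 d4 n1 n2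
  have e2 := h.tri p hp q hq u hu d1 d3 d5 n1 n3
  have e3 := h.tri p hp s hs u hu d2 d3 d6 n2 n3
  have hc : ({p, q, s, u} : Finset V).card = 4 := by
    rw [card_insert_of_notMem (by simp [d1, d2, d3]), card_insert_of_notMem (by simp [d4, d5]),
      card_pair d6]
  have hsum : ∀ f : V → ℕ, ∑ v ∈ ({p, q, s, u} : Finset V), f v = f p + (f q + (f s + f u)) := by
    intro f
    rw [sum_insert (by simp [d1, d2, d3]), sum_insert (by simp [d4, d5]), sum_pair d6]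
  have hN := NE_four7 (G := G) d1 d2 d3 d4 d5 d6
  rw [ms_not n1, ms_not n2, ms_not n3, ms_adj e1, ms_adj e2, ms_adj e3] at hN
  have hA := h.A _ hY
  have hA' := h.A' _ hY
  have hB := h.B _ hY
  rw [hc, hsum, hN] at hA hA'
  rw [hc, hsum, hsum, hN] at hB
  have q1 := h.m1 p hp q hq d1 n1
  have q2 := h.m2 p hp q hq d1 n1
  have q3 := h.m3 p hp q hq d1 n1
  have s1 := h.m1 p hp s hs d2 n2
  have s2 := h.m2 p hp s hs d2 n2
  have s3 := h.m3 p hp s hs d2 n2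
  have u1 := h.m1 p hp u hu d3 n3
  have u2 := h.m2 p hp u hu d3 n3
  have u3 := h.m3 p hp u hu d3 n3
  have kq := h.k3 q hq
  have ks := h.k3 s hs
  have ku := h.k3 u hu
  have f1 : a q + b q = M + 1 := by omega
  have f2 : a s + b s = M + 1 := by omega
  have f3 : a u + b u = M + 1 := by omega
  have he : e ≤ M := by omega
  have g1 := qm_arith (h.k1 q hq) (h.k2 q hq) f1 (by omega)
  have g2 := qm_arith (h.k1 s hs) (h.k2 s hs) f2 (by omega)
  have g3 := qm_arith (h.k1 u hu) (h.k2 u hu) f3 (by omega)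
  rcases g1 with g1 | g1 <;> rcases g2 with g2 | g2 <;> rcases g3 with g3 | g3 <;> omega

/-- the four-cycle -/
lemma QM.cyc (hM : 5 ≤ M) (h : QM G M a b e Q) {p q s u : V} (hp : p ∈ Q) (hq : q ∈ Q) (hs : s ∈ Q)
    (hu : u ∈ Q) (d1 : p ≠ q) (d2 : p ≠ s) (d3 : p ≠ u) (d4 : q ≠ s) (d5 : q ≠ u) (d6 : s ≠ u)
    (n1 : ¬ G.Adj p q) (n2 : ¬ G.Adj q s) (n3 : ¬ G.Adj s u) (n4 : ¬ G.Adj p u) : False := by
  have hY : ({p, q, s, u} : Finset V) ⊆ Q := by
    intro x hx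
    simp only [mem_insert, mem_singleton] at hx
    rcases hx with rfl | rfl | rfl | rfl <;> assumption
  have e1 := h.tri q hq p hp s hs d1.symm d4 d2 (fun h' => n1 h'.symm) n2
  have e2 := h.tri p hp q hq u hu d1 d3 d5 n1 n4
  have hc : ({p, q, s, u} : Finset V).card = 4 := by
    rw [card_insert_of_notMem (by simp [d1, d2, d3]), card_insert_of_notMem (by simp [d4, d5]),
      card_pair d6]
  have hsum : ∀ f : V → ℕ, ∑ v ∈ ({p, q, s, u} : Finset V), f v = f p + (f q + (f s + f u)) := by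
    intro f
    rw [sum_insert (by simp [d1, d2, d3]), sum_insert (by simp [d4, d5]), sum_pair d6]
  have hN := NE_four7 (G := G) d1 d2 d3 d4 d5 d6
  rw [ms_not n1, ms_not n2, ms_not n3, ms_not n4, ms_adj e1, ms_adj e2] at hN
  have hA := h.A _ hY
  have hA' := h.A' _ hY
  have hB := h.B _ hY
  rw [hc, hsum, hN] at hA hA'
  rw [hc, hsum, hsum, hN] at hB
  have q1 := h.m1 p hp q hq d1 n1
  have q2 := h.m2 p hp q hq d1 n1
  have q3 := h.m3 p hp q hq d1 n1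
  have s1 := h.m1 q hq s hs d4 n2
  have s2 := h.m2 q hq s hs d4 n2
  have u1 := h.m1 s hs u hu d6 n3
  have u2 := h.m2 s hs u hu d6 n3
  have w1 := h.m1 p hp u hu d3 n4
  have w2 := h.m2 p hp u hu d3 n4
  have c1 := h.c1 p hp s hs d2 e1
  have c2 := h.c2 p hp s hs d2 e1
  have c3 := h.c1 q hq u hu d5 e2
  have c4 := h.c2 q hq u hu d5 e2
  have kp1 := h.k1 p hp
  have kp2 := h.k2 p hp
  have he : e + 1 ≤ M := by omega
  have f1 : a q = M - a p := by omega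
  have f2 : b q = M - b p := by omega
  have f3 : a s = a p := by omega
  have f4 : b s = b p := by omega
  have f5 : a u = a q := by omega
  have f6 : b u = b q := by omega
  rw [f1, f2] at q3
  have g1 : 1 ≤ a p := by omega
  have g2 : 1 ≤ b p := by omega
  have g3 : a p + 1 ≤ M := by omega
  have g4 : b p + 1 ≤ M := by omega
  exact qm_arith2 g1 g2 g3 g4 (by omega)

/-- at most three doubles between two rows with `a = 2` -/
theorem QM.card_le (hM : 5 ≤ M) (h : QM G M a b e Q) : Q.card ≤ 3 := by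
  by_contra hcon
  obtain ⟨Y, hYQ, hYc⟩ := exists_subset_card_eq (show 4 ≤ Q.card by omega)
  obtain ⟨p, q, s, u, d1, d2, d3, d4, d5, d6, rfl⟩ := card_eq_four.1 hYc
  have hp : p ∈ Q := hYQ (by simp)
  have hq : q ∈ Q := hYQ (by simp)
  have hs : s ∈ Q := hYQ (by simp)
  have hu : u ∈ Q := hYQ (by simp)
  have hsum : ∀ f : V → ℕ, ∑ v ∈ ({p, q, s, u} : Finset V), f v = f p + (f q + (f s + f u)) := by
    intro f
    rw [sum_insert (by simp [d1, d2, d3]), sum_insert (by simp [d4, d5]), sum_pair d6]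
  have hN := NE_four7 (G := G) d1 d2 d3 d4 d5 d6
  have hA := h.A _ hYQ
  have hA' := h.A' _ hYQ
  rw [hYc, hsum, hN] at hA hA'
  have key : ∀ v ∈ Q, ∀ w ∈ Q, v ≠ w →
      ms G v w = 0 ∨ (ms G v w = 1 ∧ a v + a w ≤ M ∧ b v + b w ≤ M) := by
    intro v hv w hw hvw
    by_cases hA : G.Adj v w
    · exact Or.inl (ms_adj hA)
    · exact Or.inr ⟨ms_not hA, h.m1 v hv w hw hvw hA, h.m2 v hv w hw hvw hA⟩
  have tri : ∀ v ∈ Q, ∀ w ∈ Q, ∀ z ∈ Q, v ≠ w → v ≠ z → w ≠ z →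
      ms G v w + ms G v z + ms G w z ≤ 2 := by
    intro v hv w hw z hz h1 h2 h3
    by_contra hcon
    have l1 := ms_le (G := G) v w
    have l2 := ms_le (G := G) v z
    have l3 := ms_le (G := G) w z
    have := h.tri v hv w hw z hz h1 h2 h3 (not_of_ms (by omega)) (not_of_ms (by omega))
    rw [ms_adj this] at hcon
    omega
  have t1 := tri p hp q hq s hs d1 d2 d4
  have t2 := tri p hp q hq u hu d1 d3 d5
  have t3 := tri p hp s hs u hu d2 d3 d6
  have t4 := tri q hq s hs u hu d4 d5 d6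
  have kp := h.k3 p hp
  have kq := h.k3 q hq
  have ks := h.k3 s hs
  have ku := h.k3 u hu
  have k1 := key p hp q hq d1
  have k2 := key p hp s hs d2
  have k3 := key p hp u hu d3
  have k4 := key q hq s hs d4
  have k5 := key q hq u hu d5
  have k6 := key s hs u hu d6
  clear key tri hN hsum hYc hcon
  rcases k1 with k1 | ⟨k1, k1a, k1b⟩ <;> rcases k2 with k2 | ⟨k2, k2a, k2b⟩ <;>
    rcases k3 with k3 | ⟨k3, k3a, k3b⟩ <;> rcases k4 with k4 | ⟨k4, k4a, k4b⟩ <;>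
    rcases k5 with k5 | ⟨k5, k5a, k5b⟩ <;> rcases k6 with k6 | ⟨k6, k6a, k6b⟩ <;>
    first
    | omega
    | exact h.star hM hp hq hs hu d1 d2 d3 d4 d5 d6 (not_of_ms k1) (not_of_ms k2) (not_of_ms k3)
    | exact h.star hM hq hp hs hu d1.symm d4 d5 d2 d3 d6 (not_of_ms ((ms_comm q p).trans k1))
        (not_of_ms k4) (not_of_ms k5)
    | exact h.star hM hs hp hq hu d2.symm d4.symm d6 d1 d3 d5 (not_of_ms ((ms_comm s p).trans k2))
        (not_of_ms ((ms_comm s q).trans k4)) (not_of_ms k6)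
    | exact h.star hM hu hp hq hs d3.symm d5.symm d6.symm d1 d2 d4
        (not_of_ms ((ms_comm u p).trans k3)) (not_of_ms ((ms_comm u q).trans k5))
        (not_of_ms ((ms_comm u s).trans k6))
    | exact h.cyc hM hp hq hs hu d1 d2 d3 d4 d5 d6 (not_of_ms k1) (not_of_ms k4) (not_of_ms k6)
        (not_of_ms k3)
    | exact h.cyc hM hp hq hu hs d1 d3 d2 d5 d4 d6.symm (not_of_ms k1) (not_of_ms k5)
        (not_of_ms ((ms_comm u s).trans k6)) (not_of_ms k2)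
    | exact h.cyc hM hp hs hq hu d2 d1 d3 d4.symm d6 d5 (not_of_ms k2)
        (not_of_ms ((ms_comm s q).trans k4)) (not_of_ms k5) (not_of_ms k3)

/-- the totals for one, two and three doubles -/
theorem QM.totals (hM : 5 ≤ M) (h : QM G M a b e Q) :
    (Q.card = 0 → ∑ v ∈ Q, a v = 0 ∧ ∑ v ∈ Q, b v = 0 ∧ NE G Q = 0) ∧
    (Q.card = 1 → ∑ v ∈ Q, a v + ∑ v ∈ Q, b v + NE G Q ≤ M + 1) ∧
    (Q.card = 2 → ∑ v ∈ Q, a v + ∑ v ∈ Q, b v + NE G Q ≤ 2 * M + 2) ∧
    (Q.card = 3 → ∑ v ∈ Q, a v + ∑ v ∈ Q, b v + NE G Q ≤ 3 * M + 5) := by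
  refine ⟨fun hc => ?_, fun hc => ?_, fun hc => ?_, fun hc => ?_⟩
  · rw [card_eq_zero] at hc
    subst hc
    simp [NE]
  · obtain ⟨p, rfl⟩ := card_eq_one.1 hc
    have := h.k3 p (by simp)
    simp only [sum_singleton]
    have h2 : NE G ({p} : Finset V) = 0 := by simp [NE, nd]
    omega
  · obtain ⟨p, q, d1, rfl⟩ := card_eq_two.1 hc
    have kp := h.k3 p (by simp)
    have kq := h.k3 q (by simp)
    rw [sum_pair d1, sum_pair d1, NE_two7 d1]
    by_cases hA : G.Adj p q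
    · rw [ms_adj hA]; omega
    · have h1 := h.m1 p (by simp) q (by simp) d1 hA
      have h2 := h.m2 p (by simp) q (by simp) d1 hA
      rw [ms_not hA]; omega
  · obtain ⟨p, q, s, d1, d2, d4, rfl⟩ := card_eq_three.1 hc
    have hp : p ∈ ({p, q, s} : Finset V) := by simp
    have hq : q ∈ ({p, q, s} : Finset V) := by simp
    have hs : s ∈ ({p, q, s} : Finset V) := by simp
    have kp := h.k3 p hp
    have kq := h.k3 q hq
    have ks := h.k3 s hs
    have kp1 := h.k1 p hp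
    have kq1 := h.k1 q hq
    have ks1 := h.k1 s hs
    have kp2 := h.k2 p hp
    have kq2 := h.k2 q hq
    have ks2 := h.k2 s hs
    have hsum : ∀ f : V → ℕ, ∑ v ∈ ({p, q, s} : Finset V), f v = f p + (f q + f s) := by
      intro f
      rw [sum_insert (by simp [d1, d2]), sum_pair d4]
    rw [hsum, hsum, NE_three7 d1 d2 d4]
    have key : ∀ v ∈ ({p, q, s} : Finset V), ∀ w ∈ ({p, q, s} : Finset V), v ≠ w →
        ms G v w = 0 ∨ (ms G v w = 1 ∧ a v + a w ≤ M ∧ b v + b w ≤ M) := by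
      intro v hv w hw hvw
      by_cases hA : G.Adj v w
      · exact Or.inl (ms_adj hA)
      · exact Or.inr ⟨ms_not hA, h.m1 v hv w hw hvw hA, h.m2 v hv w hw hvw hA⟩
    have t1 : ms G p q + ms G p s + ms G q s ≤ 2 := by
      by_contra hcon
      have l1 := ms_le (G := G) p q
      have l2 := ms_le (G := G) p s
      have l3 := ms_le (G := G) q s
      have := h.tri p hp q hq s hs d1 d2 d4 (not_of_ms (by omega)) (not_of_ms (by omega))
      rw [ms_adj this] at hcon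
      omega
    have k1 := key p hp q hq d1
    have k2 := key p hp s hs d2
    have k4 := key q hq s hs d4
    clear key hsum
    rcases k1 with k1 | ⟨k1, k1a, k1b⟩ <;> rcases k2 with k2 | ⟨k2, k2a, k2b⟩ <;>
      rcases k4 with k4 | ⟨k4, k4a, k4b⟩ <;> omega

end Pool.Agent.Lib.MP_f04ccf_co
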