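import Pool.Agent.Lib.MP_f04ccf_co.M.R8q
import Pool.Agent.Lib.MP_f04ccf_co.M.Lev4

/-!
MP_f04ccf_co: there are no frames with `t + 3` doubles (`8 ≤ r`): the vectors `(3, 1, .., 1)` and
`(2, 2, 1, .., 1)`, any number of rows.
-/

set_option autoImplicit false

namespace Pool.Agent.Lib.MP_f04ccf_co

open Finset

attribute [local instance] Classical.propDecidable

variable {V : Type*} {G : SimpleGraph V} {r R m t : ℕ} {Z T : Finset V}

lemma nd_le_add {Y U : Finset V} (hU : U ⊆ Y) (v : V) :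
    nd G Y v + U.card ≤ nd G U v + Y.card := by
  unfold nd
  have h1 : (Y.filter (fun y => y ≠ v ∧ ¬ G.Adj v y)) ⊆
      U.filter (fun y => y ≠ v ∧ ¬ G.Adj v y) ∪ (Y \ U) := by
    intro z hz
    obtain ⟨h2, h3⟩ := mem_filter.1 hz
    rw [mem_union]
    by_cases h4 : z ∈ U
    · exact Or.inl (mem_filter.2 ⟨h4, h3⟩)
    · exact Or.inr (mem_sdiff.2 ⟨h2, h4⟩)
  have h2 := (card_le_card h1).trans (card_union_le _ _)
  have h3 := card_sdiff_add_card_eq_card hU
  omega

lemma fr_arith {f n : ℕ} (hf : f ≤ 1) : n * (2 * f) + n ≤ n * n + f * (1 + n) := by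
  interval_cases f
  · nlinarith [Nat.zero_le n, Nat.le_mul_self n]
  · rcases Nat.eq_zero_or_pos n with rfl | h
    · simp
    · obtain ⟨k, rfl⟩ : ∃ k, n = k + 1 := ⟨n - 1, by omega⟩
      nlinarith [Nat.zero_le (k * k)]

namespace S2

/-- (P) on a class and doubles, every `r` -/
lemma A_gen (hR : r = R + 1) (hP : PG G r) (h : S2 G r m t Z T) {y : V} (hy : y ∈ T)
    {Y : Finset V} (hd : Y ⊆ BB G Z T) :
    2 * R * Y.card ≤ 2 * R * a G r Z T y + 2 * ∑ v ∈ Y, nd G (Cl G Z T y) v + NE G Y := by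
  have h1 := h.val7 hP hy ((PFrame.BB_disjoint_Cl hy).mono_right hd)
  rw [sum_sub_distrib, sum_const, nsmul_eq_mul] at h1
  have h3 : (r : ℤ) = R + 1 := by exact_mod_cast hR
  rw [h3] at h1
  have h2 : (2 * R * Y.card : ℤ) ≤ 2 * R * (a G r Z T y : ℤ)
      + 2 * ∑ v ∈ Y, (nd G (Cl G Z T y) v : ℤ) + NE G Y := by
    push_cast at h1
    linarith
  exact_mod_cast h2

/-- the bound for the doubles at a row whose other ends have `a = 1` -/
lemma hub_bound (hP : PG G r) (h : S2 G r m t Z T) (hr : 7 ≤ r) {x : V} (hx : x ∈ T)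
    {A : Finset V} (hA : ∀ y ∈ A, y ∈ T ∧ y ≠ x ∧ a G r Z T y = 1) {Y : Finset V}
    (hY : Y ⊆ WW G r Z T) (hE : ∀ w ∈ Y, ∃ y ∈ A, ends G T w = {x, y}) :
    2 * ∑ v ∈ Y, nd G (Cl G Z T x) v + NE G Y + Y.card ≤ Y.card * Y.card
      + ∑ y ∈ A, fr G r Z T y * (1 + (Y.filter (fun w => ends G T w = {x, y})).card) := by
  choose! tl htA hte using hE
  have hfil : ∀ y ∈ A, Y.filter (fun w => tl w = y) = Y.filter (fun w => ends G T w = {x, y}) := by
    intro y hy
    apply filter_congr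
    intro w hw
    constructor
    · rintro rfl
      exact hte w hw
    · intro he
      by_contra hne
      exact pair_ne (x := x) (hA (tl w) (htA w hw)).2.1.symm hne ((hte w hw).symm.trans he)
  have hfib : ∀ g : V → ℕ, ∑ v ∈ Y, g v
      = ∑ y ∈ A, ∑ v ∈ Y.filter (fun w => ends G T w = {x, y}), g v := by
    intro g
    rw [← sum_fiberwise_of_maps_to htA g]
    exact sum_congr rfl fun y hy => by rw [hfil y hy]
  have hv : ∀ y ∈ A, ∀ v ∈ Y.filter (fun w => ends G T w = {x, y}),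
      (2 * nd G (Cl G Z T x) v + nd G Y v)
        + (Y.filter (fun w => ends G T w = {x, y})).card ≤ 2 * fr G r Z T y + Y.card := by
    intro y hy v hv
    have h1 := h.class_bound hP hr hx (hA y hy).1 (hA y hy).2.1.symm (hA y hy).2.2
      (U := Y.filter (fun w => ends G T w = {x, y})) ((filter_subset _ _).trans hY)
      (fun w hw => (mem_filter.1 hw).2) hv
    have h2 := nd_le_add (G := G) (filter_subset (fun w => ends G T w = {x, y}) Y) v
    unfold fr
    split_ifs at h1 ⊢ <;> omega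
  have hc : Y.card = ∑ y ∈ A, (Y.filter (fun w => ends G T w = {x, y})).card := by
    have := hfib (fun _ => 1)
    simpa using this
  have h3 : ∀ y ∈ A, ∑ v ∈ Y.filter (fun w => ends G T w = {x, y}),
      (2 * nd G (Cl G Z T x) v + nd G Y v) + (Y.filter (fun w => ends G T w = {x, y})).card
      ≤ (Y.filter (fun w => ends G T w = {x, y})).card * Y.card
        + fr G r Z T y * (1 + (Y.filter (fun w => ends G T w = {x, y})).card) := by
    intro y hy
    have h4 := sum_le_sum (hv y hy)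
    rw [sum_add_distrib, sum_const, sum_const, smul_eq_mul, smul_eq_mul] at h4
    have h5 := fr_arith (n := (Y.filter (fun w => ends G T w = {x, y})).card)
      (fr_le (G := G) (r := r) (Z := Z) (T := T) y)
    nlinarith
  have h4 := sum_le_sum h3
  rw [sum_add_distrib, sum_add_distrib, ← hc, ← hfib, ← sum_mul, ← hc, sum_add_distrib,
    ← mul_sum] at h4
  exact h4

/-- the number of free rows -/
noncomputable def frs (G : SimpleGraph V) (r : ℕ) (Z T A : Finset V) : ℕ :=
  ∑ y ∈ A, fr G r Z T y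

lemma hub_bound' (hP : PG G r) (h : S2 G r m t Z T) (hr : 7 ≤ r) {x : V} (hx : x ∈ T)
    {A : Finset V} (hA : ∀ y ∈ A, y ∈ T ∧ y ≠ x ∧ a G r Z T y = 1) {Y : Finset V}
    (hY : Y ⊆ WW G r Z T) (hE : ∀ w ∈ Y, ∃ y ∈ A, ends G T w = {x, y}) :
    2 * ∑ v ∈ Y, nd G (Cl G Z T x) v + NE G Y ≤ Y.card * Y.card + frs G r Z T A ∧
    (frs G r Z T A = 0 → 2 * ∑ v ∈ Y, nd G (Cl G Z T x) v + NE G Y + Y.card ≤ Y.card * Y.card) := by
  have h1 := h.hub_bound hP hr hx hA hY hE
  have h2 : ∑ y ∈ A, fr G r Z T y * (1 + (Y.filter (fun w => ends G T w = {x, y})).card)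
      ≤ frs G r Z T A + Y.card := by
    have h3 : ∀ y ∈ A, fr G r Z T y * (1 + (Y.filter (fun w => ends G T w = {x, y})).card)
        ≤ fr G r Z T y + (Y.filter (fun w => ends G T w = {x, y})).card := by
      intro y _
      have := fr_le (G := G) (r := r) (Z := Z) (T := T) y
      nlinarith
    have h4 := sum_le_sum h3
    rw [sum_add_distrib] at h4
    have h5 : ∑ y ∈ A, (Y.filter (fun w => ends G T w = {x, y})).card ≤ Y.card := by
      rw [← card_biUnion]
      · exact card_le_card (biUnion_subset.2 fun y _ => filter_subset _ _)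
      · intro y hy z hz hyz
        change Disjoint _ _
        rw [disjoint_left]
        intro w hw hw'
        exact pair_ne (x := x) (hA y hy).2.1.symm hyz
          ((mem_filter.1 hw).2.symm.trans (mem_filter.1 hw').2)
    unfold frs
    omega
  refine ⟨by omega, fun h0 => ?_⟩
  have h3 : ∑ y ∈ A, fr G r Z T y * (1 + (Y.filter (fun w => ends G T w = {x, y})).card) = 0 := by
    unfold frs at h0
    rw [sum_eq_zero_iff] at h0
    exact sum_eq_zero fun y hy => by rw [h0 y hy, Nat.zero_mul]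
  rw [h3] at h1
  omega

/-- occupied rows and free rows -/
lemma OO_frs {A : Finset V} (hA : OO G r Z T ⊆ A) :
    (OO G r Z T).card + frs G r Z T A = A.card := by
  have h1 : frs G r Z T A + ∑ y ∈ A, (if y ∈ OO G r Z T then 1 else 0) = A.card := by
    unfold frs fr
    rw [← sum_add_distrib, card_eq_sum_ones]
    refine sum_congr rfl fun y _ => ?_
    split_ifs <;> rfl
  rw [← card_filter, filter_mem_eq_inter, inter_eq_right.2 hA] at h1
  omega

/-- the vector `(3, 1, .., 1)` -/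
lemma no_three_gen (hr : 8 ≤ r) (hP : PG G r) (h : S2 G r m t Z T) (hbr : (BB G Z T).card ≤ r)
    {x : V} (hx : x ∈ T) (ha : a G r Z T x = 3) (ho : ∀ y ∈ T, y ≠ x → a G r Z T y = 1) :
    False := by
  obtain ⟨R, hR⟩ : ∃ R, r = R + 1 := ⟨r - 1, by omega⟩
  have hb := h.b_eq
  have hs : ∑ v ∈ T, a G r Z T v = 3 + (T.erase x).card := by
    rw [← add_sum_erase T _ hx, ha, card_eq_sum_ones]
    congr 1
    exact sum_congr rfl fun y hy => ho y (mem_erase.1 hy).2 (mem_erase.1 hy).1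
  have hcW := h.card_WW hP
  have hOO := OO_frs (G := G) (r := r) (Z := Z) (T := T) (A := T.erase x)
    (OO_sub x (by omega))
  obtain ⟨f, hf⟩ : ∃ f, f = frs G r Z T (T.erase x) := ⟨_, rfl⟩
  obtain ⟨Y, hY, hYc⟩ := exists_subset_card_eq (show 4 + f ≤ (WW G r Z T).card by omega)
  obtain ⟨h1, h2⟩ := h.hub_bound' hP (by omega) hx (A := T.erase x)
    (fun y hy => ⟨(mem_erase.1 hy).2, (mem_erase.1 hy).1, ho y (mem_erase.1 hy).2
      (mem_erase.1 hy).1⟩) hY (fun w hw => by
      obtain ⟨y, hy, hyx, he⟩ := h.hub_ends hP (by omega) ho (hY hw)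
      exact ⟨y, mem_erase.2 ⟨hyx, hy⟩, he⟩)
  have h3 := h.A_gen hR hP hx (hY.trans (filter_subset _ _))
  rw [← hf] at h1 h2 hOO
  rw [hYc] at h1 h2 h3
  rw [ha] at h3
  have hfR : f + 4 ≤ R + 1 := by omega
  have hR7 : 7 ≤ R := by omega
  rcases Nat.eq_zero_or_pos f with rfl | hf1
  · have := h2 rfl
    omega
  have h4 : 2 * R * (1 + f) ≤ (4 + f) * (4 + f) + f := by nlinarith
  rcases Nat.lt_or_ge f 4 with h5 | h5
  · interval_cases f <;> omega
  · obtain ⟨k, rfl⟩ : ∃ k, f = k + 4 := ⟨f - 4, by omega⟩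
    have h6 : (k + 7) * (1 + (k + 4)) ≤ R * (1 + (k + 4)) :=
      Nat.mul_le_mul_right _ (by omega)
    nlinarith

end S2

end Pool.Agent.Lib.MP_f04ccf_co
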