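import Pool.Agent.Lib.MP_f04ccf_co.M.R8v

/-!
MP_f04ccf_co: there are no frames with `t + 3` doubles (`8 ≤ r`), the vector `(2, 2, 1, .., 1)`, and
the final form.
-/

set_option autoImplicit false

namespace Pool.Agent.Lib.MP_f04ccf_co

open Finset

attribute [local instance] Classical.propDecidable

variable {V : Type*} {G : SimpleGraph V} {r R M m t : ℕ} {Z T : Finset V}

lemma kap_prod_gen {M a b : ℕ} (hM : 5 ≤ M) (h1 : a ≤ M) (h2 : b ≤ M)
    (h : ((a : ℤ) - 1) * ((b : ℤ) - 1) ≤ 2) : a + b ≤ M + 1 := by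
  rcases Nat.lt_or_ge a 2 with h3 | h3
  · omega
  rcases Nat.lt_or_ge b 2 with h4 | h4
  · omega
  have h5 : (2 : ℤ) ≤ a := by exact_mod_cast h3
  have h6 : (2 : ℤ) ≤ b := by exact_mod_cast h4
  have h7 : (a : ℤ) + b ≤ 5 := by nlinarith
  have : a + b ≤ 5 := by exact_mod_cast h7
  omega

namespace S2

/-- the doubles between two rows with `a = 2` -/
lemma qm (hM : 5 ≤ M) (hr : r = M + 3) (hP : PG G r) (h : S2 G r m t Z T) {x y : V} (hx : x ∈ T)
    (hy : y ∈ T) (hxy : x ≠ y) (hax : a G r Z T x = 2) (hay : a G r Z T y = 2) {Q : Finset V}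
    (hQ : Q ⊆ BB G Z T) (hE : ∀ v ∈ Q, ends G T v = {x, y}) :
    QM G M (nd G (Cl G Z T x)) (nd G (Cl G Z T y)) (∑ c ∈ Cl G Z T y, dg G (Cl G Z T x) c) Q := by
  have hcx : (Cl G Z T x).card = M + 1 := by have := h.a_add hx; omega
  have hcy : (Cl G Z T y).card = M + 1 := by have := h.a_add hy; omega
  have hax' : ∀ v ∈ Q, G.Adj v x := fun v hv => (mem_ends.1 (by rw [hE v hv]; simp)).2
  have hay' : ∀ v ∈ Q, G.Adj v y := fun v hv => (mem_ends.1 (by rw [hE v hv]; simp)).2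
  have hE' : ∀ v ∈ Q, ends G T v = {y, x} := fun v hv => by rw [hE v hv, pair_comm]
  have hrz : (r : ℤ) = M + 3 := by exact_mod_cast hr
  have k1 : ∀ v ∈ Q, nd G (Cl G Z T x) v ≤ M := fun v hv => by
    have := nd_lt_of_adj (h.toPFrame.self_mem_Cl hx) (hax' v hv); omega
  have k2 : ∀ v ∈ Q, nd G (Cl G Z T y) v ≤ M := fun v hv => by
    have := nd_lt_of_adj (h.toPFrame.self_mem_Cl hy) (hay' v hv); omega
  have clq : ∀ z ∈ T, (Cl G Z T z).card = M + 1 → ∀ v ∈ Q, ∀ w ∈ Q, v ≠ w → G.Adj v w →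
      1 ≤ nd G (Cl G Z T z) v + nd G (Cl G Z T z) w := by
    intro z hz hcz v hv w hw hvw hvw'
    by_contra hcon
    have h1 : nd G (Cl G Z T z) v = 0 := by omega
    have h2 : nd G (Cl G Z T z) w = 0 := by omega
    have full : ∀ u ∈ Q, nd G (Cl G Z T z) u = 0 → ∀ c ∈ Cl G Z T z, G.Adj u c := by
      intro u hu h0 c hc
      unfold nd at h0
      rw [card_eq_zero, filter_eq_empty_iff] at h0
      by_contra hn
      exact h0 hc ⟨fun h' => BB_notMem hz (hQ hu) (h' ▸ hc), hn⟩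
    have hvn := BB_notMem hz (hQ hv)
    have hwn := BB_notMem hz (hQ hw)
    have h3 : Clq G (insert v (insert w (Cl G Z T z))) := by
      intro p hp q hq hpq
      rw [mem_insert, mem_insert] at hp hq
      rcases hp with rfl | rfl | hp <;> rcases hq with rfl | rfl | hq
      · exact absurd rfl hpq
      · exact hvw'
      · exact full _ hv h1 q hq
      · exact hvw'.symm
      · exact absurd rfl hpq
      · exact full _ hw h2 q hq
      · exact (full _ hv h1 p hp).symm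
      · exact (full _ hw h2 p hp).symm
      · exact h.toPFrame.Cl_clq hz p hp q hq hpq
    have h4 := h.omega _ (by
      intro p hp
      rw [mem_insert, mem_insert] at hp
      rcases hp with rfl | rfl | hp
      · exact (mem_BB.1 (hQ hv)).1.1
      · exact (mem_BB.1 (hQ hw)).1.1
      · exact (mem_Cl.1 hp).1) h3
    rw [card_insert_of_notMem (by simp [hvw, hvn]), card_insert_of_notMem hwn, hcz] at h4
    omega
  exact {
    k1 := k1
    k2 := k2
    k3 := fun v hv => by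
      have h1 := h.toPFrame.kappa_mul hP (hQ hv) (hE v hv) hxy
      rw [hcx, hcy, hrz] at h1
      exact kap_prod_gen hM (k1 v hv) (k2 v hv) (by push_cast at h1; linarith)
    m1 := fun v hv w hw hvw hn => by
      have h1 := nd_add_le (h.cov_PP (hQ hv) (hQ hw) (hE' v hv) (hE' w hw) hxy.symm hvw.symm hn)
        (h.toPFrame.self_mem_Cl hx) (hax' v hv) (hax' w hw)
      omega
    m2 := fun v hv w hw hvw hn => by
      have h1 := nd_add_le (h.cov_PP (hQ hv) (hQ hw) (hE v hv) (hE w hw) hxy hvw.symm hn)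
        (h.toPFrame.self_mem_Cl hy) (hay' v hv) (hay' w hw)
      omega
    m3 := fun v hv w hw hvw hn =>
      h.rect_two (hQ hv) (hQ hw) (hE v hv) (hE w hw) hxy
        (h.cov_PP (hQ hv) (hQ hw) (hE v hv) (hE w hw) hxy hvw.symm hn)
    c1 := clq x hx hcx
    c2 := clq y hy hcy
    tri := fun v hv w hw z hz h1 h2 h3 n1 n2 =>
      h.no_three hx hy hxy (PFrame.mem_ZI_of_BB (hQ hv) (hE v hv).subset)
        (PFrame.mem_ZI_of_BB (hQ hw) (hE w hw).subset)
        (PFrame.mem_ZI_of_BB (hQ hz) (hE z hz).subset) h1.symm h2.symm h3 n1 n2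
    A := fun Y hY => by
      have := h.A_gen (R := M + 2) (by omega) hP hx (hY.trans hQ)
      rw [hax] at this
      omega
    A' := fun Y hY => by
      have := h.A_gen (R := M + 2) (by omega) hP hy (hY.trans hQ)
      rw [hay] at this
      omega
    B := fun Y hY => by
      have h1 := hP.pair (Y := Y) (h.toPFrame.Cl_clq hx) (h.toPFrame.Cl_clq hy)
        (PFrame.Cl_disjoint hx hy hxy) ((PFrame.BB_disjoint_Cl hx).mono_right (hY.trans hQ))
        ((PFrame.BB_disjoint_Cl hy).mono_right (hY.trans hQ))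
      rw [sum_sub_distrib, sum_sub_distrib, sum_const, nsmul_eq_mul, hcx, hcy, hrz] at h1
      have h2 : (2 * (∑ c ∈ Cl G Z T y, dg G (Cl G Z T x) c : ℕ) + 2 * (M + 2) * Y.card : ℤ) ≤
          2 * (M + 2) + 2 + 2 * (∑ v ∈ Y, nd G (Cl G Z T x) v : ℕ)
            + 2 * (∑ v ∈ Y, nd G (Cl G Z T y) v : ℕ) + NE G Y := by
        push_cast at h1 ⊢
        linarith
      exact_mod_cast h2 }

/-- at most `a` doubles at a hub with `a = 2` have their other end at a row with `a = 1` -/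
lemma side_le_two (hr : 8 ≤ r) (hP : PG G r) (h : S2 G r m t Z T) {x : V} (hx : x ∈ T)
    (ha : a G r Z T x = 2) {A : Finset V} (hA : ∀ y ∈ A, y ∈ T ∧ y ≠ x ∧ a G r Z T y = 1)
    {U : Finset V} (hU : U ⊆ WW G r Z T) (hE : ∀ w ∈ U, ∃ y ∈ A, ends G T w = {x, y}) :
    U.card ≤ 2 := by
  by_contra hcon
  obtain ⟨R, hR⟩ : ∃ R, r = R + 1 := ⟨r - 1, by omega⟩
  obtain ⟨Y, hY, hYc⟩ := exists_subset_card_eq (show 3 ≤ U.card by omega)
  have hk : ∀ w ∈ Y, nd G (Cl G Z T x) w ≤ 1 := by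
    intro w hw
    obtain ⟨y, hy, he⟩ := hE w (hY hw)
    obtain ⟨h1, h2, h3⟩ := hA y hy
    exact h.kap_le_one hP (by omega) (mem_WW.1 (hU (hY hw))).1 he h2.symm h3
      ((mem_WW.1 (hU (hY hw))).2 y h1 h3)
  have h3 := h.A_gen hR hP hx (hY.trans (hU.trans (filter_subset _ _)))
  have h4 := NE_le (G := G) Y
  have h5 : ∑ v ∈ Y, nd G (Cl G Z T x) v ≤ ∑ v ∈ Y, 1 := sum_le_sum fun v hv => hk v hv
  rw [← card_eq_sum_ones, hYc] at h5
  rw [hYc, ha] at h3
  rw [hYc] at h4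
  omega

end S2

/-- the final arithmetic for `(2, 2, 1, .., 1)` -/
lemma arith_two_two {R n₁ n₂ n₃ f s₁ s₂ qa qb qn : ℕ} (hR : 7 ≤ R) (h1 : n₁ ≤ 2) (h2 : n₂ ≤ 2)
    (h3 : n₃ ≤ 3) (hn : 5 + f ≤ n₁ + n₂ + n₃)
    (hs1 : s₁ ≤ n₁ * n₁ + f) (hs2 : s₂ ≤ n₂ * n₂ + f)
    (hs1' : f = 0 → s₁ + n₁ ≤ n₁ * n₁) (hs2' : f = 0 → s₂ + n₂ ≤ n₂ * n₂)
    (t1 : n₃ = 1 → qa + qb + qn ≤ R - 2 + 1) (t2 : n₃ = 2 → qa + qb + qn ≤ 2 * (R - 2) + 2)
    (t3 : n₃ = 3 → qa + qb + qn ≤ 3 * (R - 2) + 5)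
    (hA : 2 * R * (n₁ + n₃) ≤ 4 * R + s₁ + 2 * qa + qn + 2 * (n₁ * n₃))
    (hB : 2 * R * (n₂ + n₃) ≤ 4 * R + s₂ + 2 * qb + qn + 2 * (n₂ * n₃)) : False := by
  have hf : f ≤ 2 := by omega
  interval_cases n₁ <;> interval_cases n₂ <;> interval_cases n₃ <;> interval_cases f <;> omega

namespace S2

/-- the vector `(2, 2, 1, .., 1)` -/
lemma no_two_two_gen (hr : 8 ≤ r) (hP : PG G r) (h : S2 G r m t Z T) {x x' : V} (hx : x ∈ T)
    (hx' : x' ∈ T) (hxx : x ≠ x') (ha : a G r Z T x = 2) (ha' : a G r Z T x' = 2)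
    (ho : ∀ y ∈ T, y ≠ x → y ≠ x' → a G r Z T y = 1) : False := by
  obtain ⟨R, hR⟩ : ∃ R, r = R + 1 := ⟨r - 1, by omega⟩
  obtain ⟨A, hAd⟩ : ∃ A, A = (T.erase x).erase x' := ⟨_, rfl⟩
  have memA : ∀ y ∈ A, y ∈ T ∧ y ≠ x ∧ y ≠ x' ∧ a G r Z T y = 1 := by
    intro y hy
    rw [hAd, mem_erase, mem_erase] at hy
    exact ⟨hy.2.2, hy.2.1, hy.1, ho y hy.2.2 hy.2.1 hy.1⟩
  have inA : ∀ y ∈ T, y ≠ x → y ≠ x' → y ∈ A := by
    intro y hy h1 h2
    rw [hAd, mem_erase, mem_erase]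
    exact ⟨h2, h1, hy⟩
  have hx'e : x' ∈ T.erase x := mem_erase.2 ⟨hxx.symm, hx'⟩
  have hb := h.b_eq
  have hs : ∑ v ∈ T, a G r Z T v = 2 + (2 + A.card) := by
    rw [← add_sum_erase T _ hx, ← add_sum_erase (T.erase x) _ hx'e, ha, ha', ← hAd,
      card_eq_sum_ones]
    congr 2
    exact sum_congr rfl fun y hy => (memA y hy).2.2.2
  have hcW := h.card_WW hP
  have hOO := OO_frs (G := G) (r := r) (Z := Z) (T := T) (A := A) (by
    intro z hz
    obtain ⟨h1, h2, -⟩ := mem_OO.1 hz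
    exact inA z h1 (fun h' => by rw [h', ha] at h2; omega) fun h' => by rw [h', ha'] at h2; omega)
  -- the three parts of `WW`
  obtain ⟨U, hUd⟩ : ∃ U, U = (WW G r Z T).filter (fun w => ∃ y ∈ A, ends G T w = {x, y}) :=
    ⟨_, rfl⟩
  obtain ⟨U', hUd'⟩ : ∃ U, U = (WW G r Z T).filter (fun w => ∃ y ∈ A, ends G T w = {x', y}) :=
    ⟨_, rfl⟩
  obtain ⟨Q, hQd⟩ : ∃ Q, Q = (WW G r Z T).filter (fun w => ends G T w = {x, x'}) := ⟨_, rfl⟩
  have hU : ∀ w, w ∈ U ↔ w ∈ WW G r Z T ∧ ∃ y ∈ A, ends G T w = {x, y} := fun w => by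
    rw [hUd, mem_filter]
  have hU' : ∀ w, w ∈ U' ↔ w ∈ WW G r Z T ∧ ∃ y ∈ A, ends G T w = {x', y} := fun w => by
    rw [hUd', mem_filter]
  have hQ : ∀ w, w ∈ Q ↔ w ∈ WW G r Z T ∧ ends G T w = {x, x'} := fun w => by
    rw [hQd, mem_filter]
  have hWsub : WW G r Z T ⊆ (U ∪ U') ∪ Q := by
    intro w hw
    obtain ⟨u, hu, v, hv, huv, he⟩ := ends_two (mem_WW.1 hw).1
    have key : ∀ u ∈ T, ∀ v ∈ T, u ≠ v → ends G T w = {u, v} → u = x ∨ u = x' →
        w ∈ (U ∪ U') ∪ Q := by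
      intro u hu v hv huv he hux
      rw [mem_union, mem_union, hU, hU', hQ]
      rcases hux with rfl | rfl
      · by_cases hv' : v = x'
        · subst hv'
          exact Or.inr ⟨hw, he⟩
        · exact Or.inl (Or.inl ⟨hw, v, inA v hv huv.symm hv', he⟩)
      · by_cases hv' : v = x
        · subst hv'
          exact Or.inr ⟨hw, by rw [he, pair_comm]⟩
        · exact Or.inl (Or.inr ⟨hw, v, inA v hv hv' huv.symm, he⟩)
    by_cases hu' : u = x ∨ u = x'
    · exact key u hu v hv huv he hu'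
    by_cases hv' : v = x ∨ v = x'
    · exact key v hv u hu huv.symm (by rw [he, pair_comm]) hv'
    push Not at hu' hv'
    exact absurd (h.WW_ends hP (by omega) hw he huv (ho u hu hu'.1 hu'.2) (ho v hv hv'.1 hv'.2)) id
  have hWc : (WW G r Z T).card ≤ U.card + U'.card + Q.card := by
    have c1 := card_le_card hWsub
    have c2 := card_union_le (U ∪ U') Q
    have c3 := card_union_le U U'
    omega
  have sU : U ⊆ WW G r Z T := fun w hw => ((hU w).1 hw).1
  have sU' : U' ⊆ WW G r Z T := fun w hw => ((hU' w).1 hw).1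
  have sQ : Q ⊆ WW G r Z T := fun w hw => ((hQ w).1 hw).1
  have sB : WW G r Z T ⊆ BB G Z T := filter_subset _ _
  have eU := fun w hw => ((hU w).1 hw).2
  have eU' := fun w hw => ((hU' w).1 hw).2
  have eQ := fun w hw => ((hQ w).1 hw).2
  have mA : ∀ y ∈ A, y ∈ T ∧ y ≠ x ∧ a G r Z T y = 1 := fun y hy =>
    ⟨(memA y hy).1, (memA y hy).2.1, (memA y hy).2.2.2⟩
  have mA' : ∀ y ∈ A, y ∈ T ∧ y ≠ x' ∧ a G r Z T y = 1 := fun y hy =>
    ⟨(memA y hy).1, (memA y hy).2.2.1, (memA y hy).2.2.2⟩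
  have nU := h.side_le_two hr hP hx ha mA sU eU
  have nU' := h.side_le_two hr hP hx' ha' mA' sU' eU'
  obtain ⟨b1, b1'⟩ := h.hub_bound' hP (by omega) hx mA sU eU
  obtain ⟨b2, b2'⟩ := h.hub_bound' hP (by omega) hx' mA' sU' eU'
  have qm := h.qm (M := r - 3) (by omega) (by omega) hP hx hx' hxx ha ha' (sQ.trans sB) eQ
  have hq3 := qm.card_le (by omega)
  obtain ⟨-, t1, t2, t3⟩ := qm.totals (by omega)
  have dU : Disjoint U Q := by
    rw [disjoint_left]
    intro w hw hw'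
    obtain ⟨y, hy, he⟩ := eU w hw
    exact pair_ne (x := x) (memA y hy).2.1.symm (memA y hy).2.2.1 (he.symm.trans (eQ w hw'))
  have dU' : Disjoint U' Q := by
    rw [disjoint_left]
    intro w hw hw'
    obtain ⟨y, hy, he⟩ := eU' w hw
    exact pair_ne (x := x') (memA y hy).2.2.1.symm (memA y hy).2.1
      (he.symm.trans ((eQ w hw').trans (pair_comm _ _)))
  have A1 := h.A_gen hR hP hx (union_subset (sU.trans sB) (sQ.trans sB))
  have A2 := h.A_gen hR hP hx' (union_subset (sU'.trans sB) (sQ.trans sB))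
  have N1 := NE_union_le (G := G) dU
  have N2 := NE_union_le (G := G) dU'
  rw [card_union_of_disjoint dU, sum_union dU, ha] at A1
  rw [card_union_of_disjoint dU', sum_union dU', ha'] at A2
  have e3 : r - 3 = R - 2 := by omega
  rw [e3] at t1 t2 t3
  exact arith_two_two (R := R) (f := frs G r Z T A) (by omega) nU nU' hq3 (by omega) b1 b2 b1' b2'
    t1 t2 t3 (by linarith) (by linarith)

/-- frames with at most `t + 3` doubles do not exist (`8 ≤ r`) -/
theorem dead_three (hr : 8 ≤ r) (hP : PG G r) (h : S2 G r m t Z T) (hbr : (BB G Z T).card ≤ r)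
    (hb : (BB G Z T).card ≤ t + 3) : False := by
  rcases Nat.lt_or_ge (BB G Z T).card (t + 3) with hlt | hge
  · exact h.dead_one_two hr hP (by omega)
  have hbe := h.b_eq
  have hcT := h.cardT
  have hpos : ∀ y ∈ T, 1 ≤ a G r Z T y := fun y hy => h.a_pos hy
  have hsum : ∀ S ⊆ T, S.card ≤ ∑ y ∈ S, a G r Z T y := by
    intro S hS
    rw [card_eq_sum_ones]
    exact sum_le_sum fun y hy => hpos y (hS hy)
  have hall : ¬ ∀ y ∈ T, a G r Z T y = 1 := by
    intro hall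
    rw [sum_congr rfl hall, ← card_eq_sum_ones] at hbe
    omega
  push Not at hall
  obtain ⟨x, hx, hax⟩ := hall
  have hx1 := hpos x hx
  have hex : ∑ y ∈ T, a G r Z T y = a G r Z T x + ∑ y ∈ T.erase x, a G r Z T y :=
    (add_sum_erase T _ hx).symm
  have hec : (T.erase x).card + 1 = T.card := card_erase_add_one hx
  have h1 := hsum (T.erase x) (erase_subset _ _)
  by_cases ho : ∀ y ∈ T, y ≠ x → a G r Z T y = 1
  · have h2 : ∑ y ∈ T.erase x, a G r Z T y = (T.erase x).card := by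
      rw [card_eq_sum_ones]
      exact sum_congr rfl fun y hy => ho y (mem_erase.1 hy).2 (mem_erase.1 hy).1
    exact h.no_three_gen hr hP hbr hx (by omega) ho
  · push Not at ho
    obtain ⟨x', hx', hxx, hax'⟩ := ho
    have hx'e : x' ∈ T.erase x := mem_erase.2 ⟨hxx, hx'⟩
    have hx2 := hpos x' hx'
    have h1 : ∑ y ∈ T.erase x, a G r Z T y
        = a G r Z T x' + ∑ y ∈ (T.erase x).erase x', a G r Z T y := (add_sum_erase _ _ hx'e).symm
    have h2 : ((T.erase x).erase x').card + 1 = (T.erase x).card := card_erase_add_one hx'e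
    have h3 := hsum ((T.erase x).erase x') ((erase_subset _ _).trans (erase_subset _ _))
    refine h.no_two_two_gen hr hP hx hx' hxx.symm (by omega) (by omega) ?_
    intro y hy hyx hyx'
    have hye : y ∈ (T.erase x).erase x' := mem_erase.2 ⟨hyx', mem_erase.2 ⟨hyx, hy⟩⟩
    have h5 : ∑ z ∈ (T.erase x).erase x', a G r Z T z
        = a G r Z T y + ∑ z ∈ ((T.erase x).erase x').erase y, a G r Z T z :=
      (add_sum_erase _ _ hye).symm
    have h6 : (((T.erase x).erase x').erase y).card + 1 = ((T.erase x).erase x').card :=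
      card_erase_add_one hye
    have h7 := hsum (((T.erase x).erase x').erase y)
      ((erase_subset _ _).trans ((erase_subset _ _).trans (erase_subset _ _)))
    have h8 := hpos y hy
    omega

end S2

end Pool.Agent.Lib.MP_f04ccf_co
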