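import Pool.Agent.Lib.MP_f04ccf_co.M.R8w

/-!
MP_f04ccf_co: tools for the frames with `t + 4` doubles (`9 ≤ r`).  `HH x` = the doubles of `WW` which
miss at most one point of `Cl x`, `DD` = the balanced doubles (they miss at least two points at both
ends), and the pairs of doubles with the same ends.
-/

set_option autoImplicit false

namespace Pool.Agent.Lib.MP_f04ccf_co

open Finset

attribute [local instance] Classical.propDecidable

variable {V : Type*} {G : SimpleGraph V} {r R m t : ℕ} {Z T : Finset V}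

/-- a clique inside a set saves its pairs -/
lemma NE_clq_sub {Y K : Finset V} (hK : K ⊆ Y) (hc : Clq G K) :
    NE G Y + K.card * K.card + Y.card ≤ Y.card * Y.card + K.card := by
  have h1 : ∀ v ∈ K, nd G Y v + K.card ≤ Y.card := by
    intro v hv
    have h2 : nd G Y v ≤ (Y \ K).card := by
      refine card_le_card fun z hz => ?_
      obtain ⟨hz1, hz2, hz3⟩ := mem_filter.1 hz
      exact mem_sdiff.2 ⟨hz1, fun hzK => hz3 (hc v hv z hzK hz2.symm)⟩
    have h3 := card_sdiff_add_card_eq_card hK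
    omega
  have h2 : ∀ v ∈ Y \ K, nd G Y v + 1 ≤ Y.card := by
    intro v hv
    have := dg_add_nd (G := G) (mem_sdiff.1 hv).1
    omega
  have h3 := sum_le_sum h1
  have h4 := sum_le_sum h2
  rw [sum_add_distrib, sum_const, sum_const, smul_eq_mul, smul_eq_mul] at h3 h4
  have h5 : NE G Y = ∑ v ∈ K, nd G Y v + ∑ v ∈ Y \ K, nd G Y v := by
    unfold NE
    rw [add_comm, sum_sdiff hK]
  have h6 := card_sdiff_add_card_eq_card hK
  obtain ⟨k, hk⟩ : ∃ k, k = K.card := ⟨_, rfl⟩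
  obtain ⟨s, hs⟩ : ∃ s, s = (Y \ K).card := ⟨_, rfl⟩
  have hY : Y.card = s + k := by omega
  rw [← hk, hY] at h3
  rw [← hs, hY] at h4
  rw [h5, ← hk, hY]
  nlinarith

namespace S2

/-- the doubles of `WW` with the end `x` that miss at most one point of `Cl x` -/
noncomputable def HH (G : SimpleGraph V) (r : ℕ) (Z T : Finset V) (x : V) : Finset V :=
  (WW G r Z T).filter (fun w => x ∈ ends G T w ∧ nd G (Cl G Z T x) w ≤ 1)

/-- the balanced doubles -/
noncomputable def DD (G : SimpleGraph V) (r : ℕ) (Z T : Finset V) : Finset V :=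
  (WW G r Z T).filter (fun w => ∀ x ∈ ends G T w, 2 ≤ nd G (Cl G Z T x) w)

lemma mem_HH {x w : V} : w ∈ HH G r Z T x ↔
    w ∈ WW G r Z T ∧ x ∈ ends G T w ∧ nd G (Cl G Z T x) w ≤ 1 := mem_filter

lemma mem_DD {w : V} : w ∈ DD G r Z T ↔
    w ∈ WW G r Z T ∧ ∀ x ∈ ends G T w, 2 ≤ nd G (Cl G Z T x) w := mem_filter

lemma WW_sub : WW G r Z T ⊆ BB G Z T := filter_subset _ _

lemma HH_sub {x : V} : HH G r Z T x ⊆ WW G r Z T := filter_subset _ _

lemma DD_sub : DD G r Z T ⊆ WW G r Z T := filter_subset _ _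

lemma HH_DD_ne {x v w : V} (hv : v ∈ HH G r Z T x) (hw : w ∈ DD G r Z T) : v ≠ w := by
  rintro rfl
  have h1 := (mem_DD.1 hw).2 x (mem_HH.1 hv).2.1
  have h2 := (mem_HH.1 hv).2.2
  omega

/-- a double of `WW` misses at least three points of the class of an end with `a = 1` -/
lemma WW_three (h : S2 G r m t Z T) (hr : 7 ≤ r) {y w : V} (hw : w ∈ WW G r Z T) (hy : y ∈ T)
    (ha : a G r Z T y = 1) : 3 ≤ nd G (Cl G Z T y) w := by
  have h1 := nonheavy_dg hy ha hw
  have h2 := h.dg_nd_one hy ha (BB_notMem hy (mem_WW.1 hw).1)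
  omega

/-- every double of `WW` is balanced or belongs to a row with `a ≥ 2` -/
lemma WW_cover (h : S2 G r m t Z T) (hr : 7 ≤ r) {w : V} (hw : w ∈ WW G r Z T) :
    w ∈ DD G r Z T ∨ ∃ x ∈ T, 2 ≤ a G r Z T x ∧ w ∈ HH G r Z T x := by
  by_cases hD : w ∈ DD G r Z T
  · exact Or.inl hD
  right
  rw [mem_DD] at hD
  push Not at hD
  obtain ⟨x, hx, hx2⟩ := hD hw
  have hxT := (mem_ends.1 hx).1
  refine ⟨x, hxT, ?_, mem_HH.2 ⟨hw, hx, by omega⟩⟩
  have h1 := h.a_pos hxT
  by_contra hcon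
  have := h.WW_three hr hw hxT (by omega)
  omega

/-- the ends of a balanced double have `a ≥ 2` -/
lemma DD_ends (hP : PG G r) (h : S2 G r m t Z T) (hr : 7 ≤ r) {w : V} (hw : w ∈ DD G r Z T) :
    ∃ x ∈ T, ∃ y ∈ T, x ≠ y ∧ ends G T w = {x, y} ∧ 2 ≤ a G r Z T x ∧ 2 ≤ a G r Z T y := by
  obtain ⟨hwW, hw2⟩ := mem_DD.1 hw
  have hwB := WW_sub hwW
  obtain ⟨x, hx, y, hy, hxy, he⟩ := ends_two hwB
  have key : ∀ x ∈ T, ∀ y ∈ T, x ≠ y → ends G T w = {x, y} → 2 ≤ a G r Z T y := by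
    intro x hx y hy hxy he
    have h1 := h.a_pos hy
    by_contra hcon
    have h2 := h.kap_le_one hP hr hwB he hxy (by omega) ((mem_WW.1 hwW).2 y hy (by omega))
    have h3 := hw2 x (by rw [he]; simp)
    omega
  exact ⟨x, hx, y, hy, hxy, he, key y hy x hx hxy.symm (by rw [he, pair_comm]), key x hx y hy hxy he⟩

/-- at an occupied row the other end is fully served -/
lemma occ_zero (hP : PG G r) (h : S2 G r m t Z T) (hr : 7 ≤ r) {x y w : V} (hx : x ∈ T)
    (hxy : x ≠ y) (hw : w ∈ WW G r Z T) (he : ends G T w = {x, y}) (hy : y ∈ OO G r Z T) :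
    nd G (Cl G Z T x) w = 0 := by
  obtain ⟨hyT, ha, -⟩ := mem_OO.1 hy
  have h1 := h.class_bound hP hr hx hyT hxy ha (U := {w}) (singleton_subset_iff.2 hw)
    (fun w' hw' => by rw [mem_singleton.1 hw']; exact he) (mem_singleton_self w)
  rw [if_pos hy] at h1
  omega

/-- two doubles of a class at a row with `a = 1`: adjacent if one of them misses a point -/
lemma free_adj (hP : PG G r) (h : S2 G r m t Z T) (hr : 7 ≤ r) {x y v w : V} (hx : x ∈ T)
    (hy : y ∈ T) (hxy : x ≠ y) (ha : a G r Z T y = 1) (hv : v ∈ WW G r Z T)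
    (hw : w ∈ WW G r Z T) (ev : ends G T v = {x, y}) (ew : ends G T w = {x, y}) (hvw : v ≠ w)
    (h1 : 1 ≤ nd G (Cl G Z T x) v) : G.Adj v w := by
  have h2 := h.class_bound hP hr hx hy hxy ha (U := {v, w}) (by
    intro z hz
    simp only [mem_insert, mem_singleton] at hz
    rcases hz with rfl | rfl <;> assumption) (by
    intro z hz
    simp only [mem_insert, mem_singleton] at hz
    rcases hz with rfl | rfl <;> assumption) (v := v) (by simp)
  by_contra hn
  have h3 : 1 ≤ nd G ({v, w} : Finset V) v := by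
    refine card_pos.2 ⟨w, ?_⟩
    exact mem_filter.2 ⟨by simp, hvw.symm, hn⟩
  split_ifs at h2 <;> omega

/-- (P) on the class of a row and doubles with a bound for the missed points -/
lemma A_set (hR : r = R + 1) (hP : PG G r) (h : S2 G r m t Z T) {x : V} (hx : x ∈ T)
    {Y : Finset V} (hY : Y ⊆ BB G Z T) {k e : ℕ} (hk : ∑ v ∈ Y, nd G (Cl G Z T x) v ≤ k)
    (he : NE G Y ≤ e) : 2 * R * Y.card ≤ 2 * R * a G r Z T x + 2 * k + e := by
  have := h.A_gen hR hP hx hY
  omega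

/-- the rectangle of one double -/
lemma rect_one (h : S2 G r m t Z T) {x y v : V} (hv : v ∈ BB G Z T)
    (ev : ends G T v = {x, y}) (hxy : x ≠ y) :
    nd G (Cl G Z T x) v * nd G (Cl G Z T y) v ≤ ∑ c ∈ Cl G Z T y, dg G (Cl G Z T x) c := by
  have key : ∀ c ∈ (Cl G Z T y).filter (fun z => z ≠ v ∧ ¬ G.Adj v z),
      nd G (Cl G Z T x) v ≤ dg G (Cl G Z T x) c := by
    intro c hc
    obtain ⟨h1, h2, h3⟩ := mem_filter.1 hc
    refine card_le_card fun p hp => ?_
    obtain ⟨hp1, hp2, hp3⟩ := mem_filter.1 hp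
    exact mem_filter.2 ⟨hp1, (h.toPFrame.Q_adj hv ev hxy hp1 h1 hp3 h3).symm⟩
  have h1 := sum_le_sum key
  rw [sum_const, smul_eq_mul, mul_comm] at h1
  exact h1.trans (sum_le_sum_of_subset (filter_subset _ _))

/-- (P) for the classes of the two common ends of two doubles -/
lemma pair_e (hR : r = R + 1) (hP : PG G r) (h : S2 G r m t Z T) {x y v w : V} (hx : x ∈ T)
    (hy : y ∈ T) (hxy : x ≠ y) (hv : v ∈ BB G Z T) (hw : w ∈ BB G Z T) (hvw : v ≠ w) :
    ∑ c ∈ Cl G Z T y, dg G (Cl G Z T x) c + R ≤ (a G r Z T x - 1) * (a G r Z T y - 1)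
      + (nd G (Cl G Z T x) v + nd G (Cl G Z T y) v)
      + (nd G (Cl G Z T x) w + nd G (Cl G Z T y) w) + ms G v w := by
  have hYB : ({v, w} : Finset V) ⊆ BB G Z T := by
    intro z hz
    simp only [mem_insert, mem_singleton] at hz
    rcases hz with rfl | rfl <;> assumption
  have h1 := hP.pair (Y := {v, w}) (h.toPFrame.Cl_clq hx) (h.toPFrame.Cl_clq hy)
    (PFrame.Cl_disjoint hx hy hxy) ((PFrame.BB_disjoint_Cl hx).mono_right hYB)
    ((PFrame.BB_disjoint_Cl hy).mono_right hYB)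
  rw [sum_pair hvw, NE_two7 hvw] at h1
  have e1 := h.a_add hx
  have e2 := h.a_add hy
  have p1 := h.a_pos hx
  have p2 := h.a_pos hy
  have hrz : (r : ℤ) = R + 1 := by exact_mod_cast hR
  have e3 : ((a G r Z T x : ℕ) : ℤ) + (Cl G Z T x).card = r := by exact_mod_cast e1
  have e4 : ((a G r Z T y : ℕ) : ℤ) + (Cl G Z T y).card = r := by exact_mod_cast e2
  have e5 : (r : ℤ) - (Cl G Z T x).card - 1 = ((a G r Z T x - 1 : ℕ) : ℤ) := by
    rw [Nat.cast_sub p1]; push_cast; linarith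
  have e6 : (r : ℤ) - (Cl G Z T y).card - 1 = ((a G r Z T y - 1 : ℕ) : ℤ) := by
    rw [Nat.cast_sub p2]; push_cast; linarith
  rw [e5, e6, hrz] at h1
  have h2 : ((∑ c ∈ Cl G Z T y, dg G (Cl G Z T x) c : ℕ) : ℤ) + R
      ≤ ((a G r Z T x - 1 : ℕ) : ℤ) * ((a G r Z T y - 1 : ℕ) : ℤ)
      + (nd G (Cl G Z T x) v + nd G (Cl G Z T y) v)
      + (nd G (Cl G Z T x) w + nd G (Cl G Z T y) w) + ms G v w := by
    push_cast at h1 ⊢
    linarith
  exact_mod_cast h2

/-- the product form of `kappa_mul` with `a` -/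
lemma kmul (hP : PG G r) (h : S2 G r m t Z T) {x y v : V} (hv : v ∈ BB G Z T)
    (ev : ends G T v = {x, y}) (hxy : x ≠ y) :
    ((nd G (Cl G Z T x) v : ℤ) - 1) * ((nd G (Cl G Z T y) v : ℤ) - 1)
      ≤ ((a G r Z T x : ℤ) - 1) * ((a G r Z T y : ℤ) - 1) + 1 := by
  have hx : x ∈ T := (mem_ends.1 (by rw [ev]; simp)).1
  have hy : y ∈ T := (mem_ends.1 (by rw [ev]; simp)).1
  have h1 := h.toPFrame.kappa_mul hP hv ev hxy
  have e1 := h.a_add hx
  have e2 := h.a_add hy
  have e3 : ((a G r Z T x : ℕ) : ℤ) + (Cl G Z T x).card = r := by exact_mod_cast e1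
  have e4 : ((a G r Z T y : ℕ) : ℤ) + (Cl G Z T y).card = r := by exact_mod_cast e2
  have e5 : (r : ℤ) - (Cl G Z T x).card = a G r Z T x := by linarith
  have e6 : (r : ℤ) - (Cl G Z T y).card = a G r Z T y := by linarith
  rw [e5, e6] at h1
  exact h1

/-- a missing pair of doubles with the same ends -/
lemma pair_mis (hR : r = R + 1) (hP : PG G r) (h : S2 G r m t Z T) {x y v w : V} (hx : x ∈ T)
    (hy : y ∈ T) (hxy : x ≠ y) (hv : v ∈ BB G Z T) (hw : w ∈ BB G Z T)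
    (ev : ends G T v = {x, y}) (ew : ends G T w = {x, y}) (hvw : v ≠ w) (hn : ¬ G.Adj v w) :
    nd G (Cl G Z T x) v * nd G (Cl G Z T y) v + nd G (Cl G Z T x) w * nd G (Cl G Z T y) w + R
      ≤ (a G r Z T x - 1) * (a G r Z T y - 1)
      + (nd G (Cl G Z T x) v + nd G (Cl G Z T y) v)
      + (nd G (Cl G Z T x) w + nd G (Cl G Z T y) w) + 1 := by
  have h1 := h.pair_e hR hP hx hy hxy hv hw hvw
  have h2 := h.rect_two hv hw ev ew hxy (h.cov_PP hv hw ev ew hxy hvw.symm hn)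
  rw [ms_not hn] at h1
  omega

/-- an adjacent pair of doubles with the same ends -/
lemma pair_adj (hR : r = R + 1) (hP : PG G r) (h : S2 G r m t Z T) {x y v w : V} (hx : x ∈ T)
    (hy : y ∈ T) (hxy : x ≠ y) (hv : v ∈ BB G Z T) (hw : w ∈ BB G Z T)
    (ev : ends G T v = {x, y}) (hvw : v ≠ w) (hn : G.Adj v w) :
    nd G (Cl G Z T x) v * nd G (Cl G Z T y) v + R
      ≤ (a G r Z T x - 1) * (a G r Z T y - 1)
      + (nd G (Cl G Z T x) v + nd G (Cl G Z T y) v)
      + (nd G (Cl G Z T x) w + nd G (Cl G Z T y) w) := by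
  have h1 := h.pair_e hR hP hx hy hxy hv hw hvw
  have h2 := h.rect_one hv ev hxy
  rw [ms_adj hn] at h1
  omega

end S2

end Pool.Agent.Lib.MP_f04ccf_co
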