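import Pool.Agent.Lib.MP_f04ccf_co.M.R9a

/-!
MP_f04ccf_co: the frames with `t + 4` doubles (`9 ≤ r`), the vector `(2, 2, 2, 1, .., 1)`.
-/

set_option autoImplicit false

namespace Pool.Agent.Lib.MP_f04ccf_co

open Finset

attribute [local instance] Classical.propDecidable

variable {V : Type*} {G : SimpleGraph V} {r R m t : ℕ} {Z T : Finset V}

lemma bal_le {a b : ℕ} (h1 : 2 ≤ a) (h2 : 2 ≤ b) (h : ((a : ℤ) - 1) * ((b : ℤ) - 1) ≤ 2) :
    a + b ≤ 5 ∧ a ≤ 3 ∧ b ≤ 3 ∧ (3 ≤ a → b = 2) ∧ (3 ≤ b → a = 2) := by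
  have h5 : (2 : ℤ) ≤ a := by exact_mod_cast h1
  have h6 : (2 : ℤ) ≤ b := by exact_mod_cast h2
  have h7 : (a : ℤ) ≤ 3 := by nlinarith
  have h8 : (b : ℤ) ≤ 3 := by nlinarith
  have h9 : a ≤ 3 := by exact_mod_cast h7
  have h10 : b ≤ 3 := by exact_mod_cast h8
  interval_cases a <;> interval_cases b <;> first | omega | (norm_num at h)

namespace S2

/-- two rows with `a = 2`: a balanced double is the only double between them -/
lemma bal_single (hr : 9 ≤ r) (hP : PG G r) (h : S2 G r m t Z T) {x y v w : V} (hx : x ∈ T)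
    (hy : y ∈ T) (hxy : x ≠ y) (hax : a G r Z T x = 2) (hay : a G r Z T y = 2)
    (hv : v ∈ BB G Z T) (hw : w ∈ BB G Z T) (ev : ends G T v = {x, y})
    (ew : ends G T w = {x, y}) (hvw : v ≠ w) (h1 : 2 ≤ nd G (Cl G Z T x) v)
    (h2 : 2 ≤ nd G (Cl G Z T y) v) : False := by
  obtain ⟨R, hR⟩ : ∃ R, r = R + 1 := ⟨r - 1, by omega⟩
  have k1 := h.kmul hP hv ev hxy
  have k2 := h.kmul hP hw ew hxy
  rw [hax, hay] at k1 k2
  obtain ⟨b1, b2, b3, b4, b5⟩ := bal_le h1 h2 (by push_cast at k1; linarith)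
  have cx := h.a_add hx
  have cy := h.a_add hy
  have wx : G.Adj w x := (mem_ends.1 (by rw [ew]; simp)).2
  have wy : G.Adj w y := (mem_ends.1 (by rw [ew]; simp)).2
  have vx : G.Adj v x := (mem_ends.1 (by rw [ev]; simp)).2
  have vy : G.Adj v y := (mem_ends.1 (by rw [ev]; simp)).2
  have m1 := nd_lt_of_adj (h.toPFrame.self_mem_Cl hx) wx
  have m2 := nd_lt_of_adj (h.toPFrame.self_mem_Cl hy) wy
  obtain ⟨α, hα⟩ : ∃ α, α = nd G (Cl G Z T x) v := ⟨_, rfl⟩
  obtain ⟨β, hβ⟩ : ∃ β, β = nd G (Cl G Z T y) v := ⟨_, rfl⟩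
  obtain ⟨p, hp⟩ : ∃ p, p = nd G (Cl G Z T x) w := ⟨_, rfl⟩
  obtain ⟨q, hq⟩ : ∃ q, q = nd G (Cl G Z T y) w := ⟨_, rfl⟩
  have hpq : p + q ≤ (R - 2) + 1 := kap_prod_gen (M := R - 2) (by omega) (by omega) (by omega)
    (by rw [hp, hq]; push_cast at k2; linarith)
  by_cases hn : G.Adj v w
  · have h3 := h.pair_adj hR hP hx hy hxy hv hw ev hvw hn
    have h4 := h.pair_adj hR hP hx hy hxy hw hv ew hvw.symm hn.symm
    rw [hax, hay, ← hα, ← hβ, ← hp, ← hq] at h3 h4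
    rw [← hα] at h1 b1 b2 b4 b5
    rw [← hβ] at h2 b1 b3 b4 b5
    have h5 : α = 2 ∧ β = 2 := by
      interval_cases α <;> interval_cases β <;> first | omega | simp
    obtain ⟨rfl, rfl⟩ := h5
    have h6 : p + q = R - 1 := by omega
    have h7 : p * q ≤ 4 := by omega
    have h8 : 1 ≤ p := by omega
    have h9 : 1 ≤ q := by omega
    have h10 : p + q ≤ p * q + 1 := by nlinarith
    omega
  · have h3 := h.pair_mis hR hP hx hy hxy hv hw ev ew hvw hn
    have ev' : ends G T v = {y, x} := by rw [ev, pair_comm]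
    have ew' : ends G T w = {y, x} := by rw [ew, pair_comm]
    have m3 := nd_add_le (h.cov_PP hv hw ev' ew' hxy.symm hvw.symm hn)
      (h.toPFrame.self_mem_Cl hx) vx wx
    have m4 := nd_add_le (h.cov_PP hv hw ev ew hxy hvw.symm hn)
      (h.toPFrame.self_mem_Cl hy) vy wy
    rw [hax, hay, ← hα, ← hβ, ← hp, ← hq] at h3
    rw [← hα, ← hp] at m3
    rw [← hβ, ← hq] at m4
    rw [← hα] at h1 b1 b2 b4 b5
    rw [← hβ] at h2 b1 b3 b4 b5
    rcases Nat.eq_zero_or_pos p with rfl | hp0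
    · interval_cases α <;> interval_cases β <;> omega
    rcases Nat.eq_zero_or_pos q with rfl | hq0
    · interval_cases α <;> interval_cases β <;> omega
    have h10 : p + q ≤ p * q + 1 := by nlinarith
    interval_cases α <;> interval_cases β <;> omega

lemma sum_HH {x : V} {Y : Finset V} (hY : Y ⊆ HH G r Z T x) :
    ∑ v ∈ Y, nd G (Cl G Z T x) v ≤ Y.card := by
  rw [card_eq_sum_ones]
  exact sum_le_sum fun v hv => (mem_HH.1 (hY hv)).2.2

/-- a row with `a = 2` has at most two doubles which miss at most one point -/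
lemma HH_two (hr : 8 ≤ r) (hP : PG G r) (h : S2 G r m t Z T) {x : V} (hx : x ∈ T)
    (ha : a G r Z T x = 2) : (HH G r Z T x).card ≤ 2 := by
  by_contra hcon
  obtain ⟨R, hR⟩ : ∃ R, r = R + 1 := ⟨r - 1, by omega⟩
  obtain ⟨Y, hY, hYc⟩ := exists_subset_card_eq (show 3 ≤ (HH G r Z T x).card by omega)
  have h1 := h.A_set hR hP hx (hY.trans (HH_sub.trans WW_sub)) (sum_HH hY) (NE_le Y)
  rw [hYc, ha] at h1
  omega

/-- one balanced double at a full row with `a = 2` -/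
lemma HH_DD_one (hr : 9 ≤ r) (hP : PG G r) (h : S2 G r m t Z T) {x v : V} (hx : x ∈ T)
    (ha : a G r Z T x = 2) (hv : v ∈ DD G r Z T) (hc : (HH G r Z T x).card = 2) :
    3 ≤ nd G (Cl G Z T x) v := by
  obtain ⟨R, hR⟩ : ∃ R, r = R + 1 := ⟨r - 1, by omega⟩
  have hd : v ∉ HH G r Z T x := fun hv' => HH_DD_ne hv' hv rfl
  have h1 := h.A_gen hR hP hx (Y := insert v (HH G r Z T x)) (by
    intro z hz
    rcases mem_insert.1 hz with rfl | hz
    · exact WW_sub (DD_sub hv)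
    · exact WW_sub (HH_sub hz))
  have h2 := NE_le (G := G) (insert v (HH G r Z T x))
  have h3 := sum_HH (Subset.refl (HH G r Z T x))
  rw [sum_insert hd, card_insert_of_notMem hd, hc, ha] at h1
  rw [card_insert_of_notMem hd, hc] at h2
  omega

/-- two balanced doubles at a full row with `a = 2` -/
lemma HH_DD_two (hr : 9 ≤ r) (hP : PG G r) (h : S2 G r m t Z T) {x v w : V} (hx : x ∈ T)
    (ha : a G r Z T x = 2) (hv : v ∈ DD G r Z T) (hw : w ∈ DD G r Z T) (hvw : v ≠ w)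
    (kv : nd G (Cl G Z T x) v ≤ 3) (kw : nd G (Cl G Z T x) w ≤ 3) :
    (HH G r Z T x).card ≤ 1 := by
  obtain ⟨R, hR⟩ : ∃ R, r = R + 1 := ⟨r - 1, by omega⟩
  have h0 := h.HH_two (by omega) hP hx ha
  by_contra hcon
  have hc : (HH G r Z T x).card = 2 := by omega
  have hd : w ∉ HH G r Z T x := fun hv' => HH_DD_ne hv' hw rfl
  have hd' : v ∉ insert w (HH G r Z T x) := by
    rw [mem_insert]
    push Not
    exact ⟨hvw, fun hv' => HH_DD_ne hv' hv rfl⟩
  have h1 := h.A_gen hR hP hx (Y := insert v (insert w (HH G r Z T x))) (by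
    intro z hz
    rcases mem_insert.1 hz with rfl | hz
    · exact WW_sub (DD_sub hv)
    rcases mem_insert.1 hz with rfl | hz
    · exact WW_sub (DD_sub hw)
    · exact WW_sub (HH_sub hz))
  have h2 := NE_le (G := G) (insert v (insert w (HH G r Z T x)))
  have h3 := sum_HH (Subset.refl (HH G r Z T x))
  rw [sum_insert hd', sum_insert hd, card_insert_of_notMem hd', card_insert_of_notMem hd, hc, ha]
    at h1
  rw [card_insert_of_notMem hd', card_insert_of_notMem hd, hc] at h2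
  omega

/-- the bounds for a balanced double between two rows with `a = 2` -/
lemma DD_bal (hP : PG G r) (h : S2 G r m t Z T) {x y v : V} (hxy : x ≠ y)
    (hax : a G r Z T x = 2) (hay : a G r Z T y = 2) (hv : v ∈ DD G r Z T)
    (ev : ends G T v = {x, y}) :
    2 ≤ nd G (Cl G Z T x) v ∧ 2 ≤ nd G (Cl G Z T y) v ∧ nd G (Cl G Z T x) v ≤ 3 ∧
      nd G (Cl G Z T y) v ≤ 3 ∧ (3 ≤ nd G (Cl G Z T y) v → nd G (Cl G Z T x) v = 2) := by
  have k1 := h.kmul hP (WW_sub (DD_sub hv)) ev hxy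
  rw [hax, hay] at k1
  have h1 := (mem_DD.1 hv).2 x (by rw [ev]; simp)
  have h2 := (mem_DD.1 hv).2 y (by rw [ev]; simp)
  obtain ⟨b1, b2, b3, b4, b5⟩ := bal_le h1 h2 (by push_cast at k1; linarith)
  exact ⟨h1, h2, b2, b3, b5⟩

/-- a balanced double: one of the two rows is not full -/
lemma full_two (hr : 9 ≤ r) (hP : PG G r) (h : S2 G r m t Z T) {x y v : V} (hx : x ∈ T)
    (hy : y ∈ T) (hxy : x ≠ y) (hax : a G r Z T x = 2) (hay : a G r Z T y = 2)
    (hv : v ∈ DD G r Z T) (ev : ends G T v = {x, y}) :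
    (HH G r Z T x).card + (HH G r Z T y).card ≤ 3 := by
  have h1 := h.HH_two (by omega) hP hx hax
  have h2 := h.HH_two (by omega) hP hy hay
  obtain ⟨b1, b2, b3, b4, b5⟩ := h.DD_bal hP hxy hax hay hv ev
  by_contra hcon
  have h3 := h.HH_DD_one hr hP hx hax hv (by omega)
  have h4 := h.HH_DD_one hr hP hy hay hv (by omega)
  have := b5 h4
  omega

/-- two balanced doubles at the row `x` -/
lemma full_three (hr : 9 ≤ r) (hP : PG G r) (h : S2 G r m t Z T) {x y z v w : V} (hx : x ∈ T)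
    (hy : y ∈ T) (hz : z ∈ T) (hxy : x ≠ y) (hxz : x ≠ z) (hyz : y ≠ z)
    (hax : a G r Z T x = 2) (hay : a G r Z T y = 2) (haz : a G r Z T z = 2)
    (ho : ∀ s ∈ T, s ≠ x → s ≠ y → s ≠ z → a G r Z T s = 1)
    (hv : v ∈ DD G r Z T) (hw : w ∈ DD G r Z T) (ev : ends G T v = {x, y})
    (ew : ends G T w = {x, z}) :
    (HH G r Z T x).card ≤ 1 ∧ ((∀ s ∈ T, a G r Z T s = 1 → s ∈ OO G r Z T) →
      ¬ ((HH G r Z T x).card = 1 ∧ (HH G r Z T y).card = 2 ∧ (HH G r Z T z).card = 2)) := by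
  have hvw : v ≠ w := by
    rintro rfl
    exact pair_ne (x := x) hxy hyz (ev.symm.trans ew)
  obtain ⟨b1, b2, b3, b4, b5⟩ := h.DD_bal hP hxy hax hay hv ev
  obtain ⟨c1, c2, c3, c4, c5⟩ := h.DD_bal hP hxz hax haz hw ew
  refine ⟨h.HH_DD_two hr hP hx hax hv hw hvw b3 c3, ?_⟩
  rintro hocc ⟨e1, e2, e3⟩
  have d1 := b5 (h.HH_DD_one hr hP hy hay hv e2)
  have d2 := c5 (h.HH_DD_one hr hP hz haz hw e3)
  obtain ⟨R, hR⟩ : ∃ R, r = R + 1 := ⟨r - 1, by omega⟩
  obtain ⟨p, hp⟩ := card_eq_one.1 e1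
  have hpH : p ∈ HH G r Z T x := by rw [hp]; simp
  obtain ⟨hpW, hpx, hp1⟩ := mem_HH.1 hpH
  have hpv : v ≠ p := fun h' => HH_DD_ne hpH hv h'.symm
  have hpw : w ≠ p := fun h' => HH_DD_ne hpH hw h'.symm
  have h1 := h.A_gen hR hP hx (Y := {v, w, p}) (by
    intro s hs
    simp only [mem_insert, mem_singleton] at hs
    rcases hs with rfl | rfl | rfl
    · exact WW_sub (DD_sub hv)
    · exact WW_sub (DD_sub hw)
    · exact WW_sub hpW)
  have h2 := NE_le (G := G) ({v, w, p} : Finset V)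
  have hc : ({v, w, p} : Finset V).card = 3 := card_eq_three.2 ⟨v, w, p, hvw, hpv, hpw, rfl⟩
  rw [sum_insert (by simp [hvw, hpv]), sum_pair hpw, hc, hax] at h1
  rw [hc] at h2
  have h3 : nd G (Cl G Z T x) p = 1 := by omega
  -- the other end of `p`
  obtain ⟨u, hu, s, hs, hus, he⟩ := ends_two (WW_sub hpW)
  have key : ∀ s ∈ T, s ≠ x → ends G T p = {x, s} → False := by
    intro s hs hsx he
    by_cases h4 : s = y
    · subst h4
      exact h.bal_single hr hP hx hy hxy hax hay (WW_sub (DD_sub hv)) (WW_sub hpW) ev he hpv b1 b2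
    by_cases h5 : s = z
    · subst h5
      exact h.bal_single hr hP hx hz hxz hax haz (WW_sub (DD_sub hw)) (WW_sub hpW) ew he hpw c1 c2
    have h6 := h.occ_zero hP (by omega) hx hsx.symm hpW he (hocc s hs (ho s hs hsx h4 h5))
    omega
  rw [he] at hpx
  simp only [mem_insert, mem_singleton] at hpx
  rcases hpx with rfl | rfl
  · exact key s hs hus.symm he
  · exact key u hu hus (by rw [he, pair_comm])

/-- the vector `(2, 2, 2, 1, .., 1)` -/
lemma no_222 (hr : 9 ≤ r) (hP : PG G r) (h : S2 G r m t Z T) {x y z : V} (hx : x ∈ T)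
    (hy : y ∈ T) (hz : z ∈ T) (hxy : x ≠ y) (hxz : x ≠ z) (hyz : y ≠ z)
    (hax : a G r Z T x = 2) (hay : a G r Z T y = 2) (haz : a G r Z T z = 2)
    (ho : ∀ s ∈ T, s ≠ x → s ≠ y → s ≠ z → a G r Z T s = 1) : False := by
  obtain ⟨A, hAd⟩ : ∃ A, A = ((T.erase x).erase y).erase z := ⟨_, rfl⟩
  have memA : ∀ s, s ∈ A ↔ s ∈ T ∧ s ≠ x ∧ s ≠ y ∧ s ≠ z := by
    intro s
    rw [hAd, mem_erase, mem_erase, mem_erase]
    tauto
  have oneA : ∀ s ∈ A, a G r Z T s = 1 := fun s hs => by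
    obtain ⟨h1, h2, h3, h4⟩ := (memA s).1 hs
    exact ho s h1 h2 h3 h4
  have hye : y ∈ T.erase x := mem_erase.2 ⟨hxy.symm, hy⟩
  have hze : z ∈ (T.erase x).erase y := mem_erase.2 ⟨hyz.symm, mem_erase.2 ⟨hxz.symm, hz⟩⟩
  have hb := h.b_eq
  have hs : ∑ v ∈ T, a G r Z T v = 2 + (2 + (2 + A.card)) := by
    rw [← add_sum_erase T _ hx, ← add_sum_erase (T.erase x) _ hye,
      ← add_sum_erase ((T.erase x).erase y) _ hze, hax, hay, haz, ← hAd, card_eq_sum_ones]
    congr 3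
    exact sum_congr rfl fun s hs => oneA s hs
  have hcW := h.card_WW hP
  have hOO := OO_frs (G := G) (r := r) (Z := Z) (T := T) (A := A) (by
    intro s hs
    obtain ⟨h1, h2, -⟩ := mem_OO.1 hs
    exact (memA s).2 ⟨h1, fun h' => by rw [h', hax] at h2; omega,
      fun h' => by rw [h', hay] at h2; omega, fun h' => by rw [h', haz] at h2; omega⟩)
  -- if no row is free then all rows with `a = 1` are occupied
  have hocc : frs G r Z T A = 0 → ∀ s ∈ T, a G r Z T s = 1 → s ∈ OO G r Z T := by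
    intro h0 s hs h1
    have hsA : s ∈ A := (memA s).2 ⟨hs, fun h' => by rw [h', hax] at h1; omega,
      fun h' => by rw [h', hay] at h1; omega, fun h' => by rw [h', haz] at h1; omega⟩
    unfold frs at h0
    have h2 := (sum_eq_zero_iff.1 h0) s hsA
    unfold fr at h2
    by_contra hn
    rw [if_neg hn] at h2
    omega
  -- the balanced doubles of the three pairs
  obtain ⟨D1, hD1⟩ : ∃ D, D = (DD G r Z T).filter (fun w => ends G T w = {x, y}) := ⟨_, rfl⟩
  obtain ⟨D2, hD2⟩ : ∃ D, D = (DD G r Z T).filter (fun w => ends G T w = {x, z}) := ⟨_, rfl⟩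
  obtain ⟨D3, hD3⟩ : ∃ D, D = (DD G r Z T).filter (fun w => ends G T w = {y, z}) := ⟨_, rfl⟩
  have one : ∀ p ∈ T, ∀ q ∈ T, p ≠ q → a G r Z T p = 2 → a G r Z T q = 2 →
      ((DD G r Z T).filter (fun w => ends G T w = {p, q})).card ≤ 1 := by
    intro p hp q hq hpq h1 h2
    rw [card_le_one]
    intro v hv w hw
    by_contra hvw
    obtain ⟨hv1, hv2⟩ := mem_filter.1 hv
    obtain ⟨hw1, hw2⟩ := mem_filter.1 hw
    obtain ⟨c1, c2, -⟩ := h.DD_bal hP hpq h1 h2 hv1 hv2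
    exact h.bal_single hr hP hp hq hpq h1 h2 (WW_sub (DD_sub hv1)) (WW_sub (DD_sub hw1)) hv2 hw2
      hvw c1 c2
  have n1 := one x hx y hy hxy hax hay
  have n2 := one x hx z hz hxz hax haz
  have n3 := one y hy z hz hyz hay haz
  rw [← hD1] at n1
  rw [← hD2] at n2
  rw [← hD3] at n3
  have hub : ∀ s ∈ T, 2 ≤ a G r Z T s → s = x ∨ s = y ∨ s = z := by
    intro s hs h1
    by_contra hcon
    push Not at hcon
    have := ho s hs hcon.1 hcon.2.1 hcon.2.2
    omega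
  have hsub : WW G r Z T ⊆ ((HH G r Z T x ∪ HH G r Z T y) ∪ HH G r Z T z) ∪ ((D1 ∪ D2) ∪ D3) := by
    intro w hw
    rcases h.WW_cover (by omega) hw with h1 | ⟨s, hs, h1, h2⟩
    · refine mem_union_right _ ?_
      obtain ⟨p, hp, q, hq, hpq, he, a1, a2⟩ := h.DD_ends hP (by omega) h1
      rw [hD1, hD2, hD3, mem_union, mem_union, mem_filter, mem_filter, mem_filter]
      rcases hub p hp a1 with rfl | rfl | rfl <;> rcases hub q hq a2 with rfl | rfl | rfl
      · exact absurd rfl hpq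
      · exact Or.inl (Or.inl ⟨h1, he⟩)
      · exact Or.inl (Or.inr ⟨h1, he⟩)
      · exact Or.inl (Or.inl ⟨h1, by rw [he, pair_comm]⟩)
      · exact absurd rfl hpq
      · exact Or.inr ⟨h1, he⟩
      · exact Or.inl (Or.inr ⟨h1, by rw [he, pair_comm]⟩)
      · exact Or.inr ⟨h1, by rw [he, pair_comm]⟩
      · exact absurd rfl hpq
    · refine mem_union_left _ ?_
      rw [mem_union, mem_union]
      rcases hub s hs h1 with rfl | rfl | rfl
      · exact Or.inl (Or.inl h2)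
      · exact Or.inl (Or.inr h2)
      · exact Or.inr h2
  have hWc : (WW G r Z T).card ≤ ((HH G r Z T x).card + (HH G r Z T y).card
      + (HH G r Z T z).card) + (D1.card + D2.card + D3.card) := by
    have c1 := card_le_card hsub
    have c2 := card_union_le ((HH G r Z T x ∪ HH G r Z T y) ∪ HH G r Z T z) ((D1 ∪ D2) ∪ D3)
    have c3 := card_union_le (HH G r Z T x ∪ HH G r Z T y) (HH G r Z T z)
    have c4 := card_union_le (HH G r Z T x) (HH G r Z T y)
    have c5 := card_union_le (D1 ∪ D2) D3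
    have c6 := card_union_le D1 D2
    omega
  have ex : ∀ D p q, D = (DD G r Z T).filter (fun w => ends G T w = {p, q}) → 1 ≤ D.card →
      ∃ v ∈ DD G r Z T, ends G T v = {p, q} := by
    intro D p q hD h1
    obtain ⟨v, hv⟩ := card_pos.1 h1
    rw [hD] at hv
    exact ⟨v, (mem_filter.1 hv).1, (mem_filter.1 hv).2⟩
  have g1 := h.HH_two (by omega) hP hx hax
  have g2 := h.HH_two (by omega) hP hy hay
  have g3 := h.HH_two (by omega) hP hz haz
  have f1 : 1 ≤ D1.card → (HH G r Z T x).card + (HH G r Z T y).card ≤ 3 := fun h1 => by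
    obtain ⟨v, hv, ev⟩ := ex _ _ _ hD1 h1
    exact h.full_two hr hP hx hy hxy hax hay hv ev
  have f2 : 1 ≤ D2.card → (HH G r Z T x).card + (HH G r Z T z).card ≤ 3 := fun h1 => by
    obtain ⟨v, hv, ev⟩ := ex _ _ _ hD2 h1
    exact h.full_two hr hP hx hz hxz hax haz hv ev
  have f3 : 1 ≤ D3.card → (HH G r Z T y).card + (HH G r Z T z).card ≤ 3 := fun h1 => by
    obtain ⟨v, hv, ev⟩ := ex _ _ _ hD3 h1
    exact h.full_two hr hP hy hz hyz hay haz hv ev
  have k1 : 1 ≤ D1.card → 1 ≤ D2.card → (HH G r Z T x).card ≤ 1 ∧ (frs G r Z T A = 0 →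
      ¬ ((HH G r Z T x).card = 1 ∧ (HH G r Z T y).card = 2 ∧ (HH G r Z T z).card = 2)) := by
    intro h1 h2
    obtain ⟨v, hv, ev⟩ := ex _ _ _ hD1 h1
    obtain ⟨w, hw, ew⟩ := ex _ _ _ hD2 h2
    obtain ⟨c1, c2⟩ := h.full_three hr hP hx hy hz hxy hxz hyz hax hay haz ho hv hw ev ew
    exact ⟨c1, fun h0 => c2 (hocc h0)⟩
  have k2 : 1 ≤ D1.card → 1 ≤ D3.card → (HH G r Z T y).card ≤ 1 ∧ (frs G r Z T A = 0 →
      ¬ ((HH G r Z T y).card = 1 ∧ (HH G r Z T x).card = 2 ∧ (HH G r Z T z).card = 2)) := by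
    intro h1 h2
    obtain ⟨v, hv, ev⟩ := ex _ _ _ hD1 h1
    obtain ⟨w, hw, ew⟩ := ex _ _ _ hD3 h2
    obtain ⟨c1, c2⟩ := h.full_three hr hP hy hx hz hxy.symm hyz hxz hay hax haz
      (fun s hs h1 h2 h3 => ho s hs h2 h1 h3) hv hw (by rw [ev, pair_comm]) ew
    exact ⟨c1, fun h0 => c2 (hocc h0)⟩
  have k3 : 1 ≤ D2.card → 1 ≤ D3.card → (HH G r Z T z).card ≤ 1 ∧ (frs G r Z T A = 0 →
      ¬ ((HH G r Z T z).card = 1 ∧ (HH G r Z T x).card = 2 ∧ (HH G r Z T y).card = 2)) := by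
    intro h1 h2
    obtain ⟨v, hv, ev⟩ := ex _ _ _ hD2 h1
    obtain ⟨w, hw, ew⟩ := ex _ _ _ hD3 h2
    obtain ⟨c1, c2⟩ := h.full_three hr hP hz hx hy hxz.symm hyz.symm hxy haz hax hay
      (fun s hs h1 h2 h3 => ho s hs h2 h3 h1) hv hw (by rw [ev, pair_comm]) (by rw [ew, pair_comm])
    exact ⟨c1, fun h0 => c2 (hocc h0)⟩
  clear ex hsub hub memA oneA hocc ho hD1 hD2 hD3 one
  generalize (HH G r Z T x).card = u1 at *
  generalize (HH G r Z T y).card = u2 at *
  generalize (HH G r Z T z).card = u3 at *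
  generalize D1.card = d1 at *
  generalize D2.card = d2 at *
  generalize D3.card = d3 at *
  interval_cases d1 <;> interval_cases d2 <;> interval_cases d3 <;> simp at f1 f2 f3 k1 k2 k3 <;>
    omega

end S2

end Pool.Agent.Lib.MP_f04ccf_co
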