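import Pool.Agent.Lib.MP_f04ccf_co.M.R9b

/-!
MP_f04ccf_co: the frames with `t + 4` doubles (`9 ≤ r`), the vector `(3, 2, 1, .., 1)`.
-/

set_option autoImplicit false

namespace Pool.Agent.Lib.MP_f04ccf_co

open Finset

attribute [local instance] Classical.propDecidable

variable {V : Type*} {G : SimpleGraph V} {r R m t : ℕ} {Z T : Finset V}

lemma bal_le_three {a b : ℕ} (h1 : 2 ≤ a) (h2 : 2 ≤ b)
    (h : ((a : ℤ) - 1) * ((b : ℤ) - 1) ≤ 3) : a ≤ 4 ∧ b ≤ 4 ∧ (3 ≤ b → a ≤ 2) := by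
  have h5 : (2 : ℤ) ≤ a := by exact_mod_cast h1
  have h6 : (2 : ℤ) ≤ b := by exact_mod_cast h2
  have h7 : (a : ℤ) ≤ 4 := by nlinarith
  have h8 : (b : ℤ) ≤ 4 := by nlinarith
  refine ⟨by exact_mod_cast h7, by exact_mod_cast h8, fun h3 => ?_⟩
  by_contra hcon
  have h9 : (3 : ℤ) ≤ a := by exact_mod_cast (show 3 ≤ a by omega)
  have h10 : (3 : ℤ) ≤ b := by exact_mod_cast h3
  nlinarith

namespace S2

/-- two balanced doubles between rows with `(a_x - 1)(a_y - 1) ≤ 2` do not exist -/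
lemma bal_unique (hr : 9 ≤ r) (hP : PG G r) (h : S2 G r m t Z T) {x y v w : V} (hx : x ∈ T)
    (hy : y ∈ T) (hxy : x ≠ y) (hL : (a G r Z T x - 1) * (a G r Z T y - 1) ≤ 2)
    (hv : v ∈ DD G r Z T) (hw : w ∈ DD G r Z T) (ev : ends G T v = {x, y})
    (ew : ends G T w = {x, y}) : v = w := by
  by_contra hvw
  obtain ⟨R, hR⟩ : ∃ R, r = R + 1 := ⟨r - 1, by omega⟩
  have a1 := (mem_DD.1 hv).2 x (by rw [ev]; simp)
  have a2 := (mem_DD.1 hv).2 y (by rw [ev]; simp)
  have a3 := (mem_DD.1 hw).2 x (by rw [ew]; simp)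
  have a4 := (mem_DD.1 hw).2 y (by rw [ew]; simp)
  have hvB := WW_sub (DD_sub hv)
  have hwB := WW_sub (DD_sub hw)
  by_cases hn : G.Adj v w
  · have h3 := h.pair_adj hR hP hx hy hxy hvB hwB ev hvw hn
    have h4 := h.pair_adj hR hP hx hy hxy hwB hvB ew (Ne.symm hvw) hn.symm
    nlinarith
  · have h3 := h.pair_mis hR hP hx hy hxy hvB hwB ev ew hvw hn
    nlinarith

/-- a pair of doubles with the same ends, both with `(kappa_x - 1)(kappa_y - 1) ≥ 0`, is an edge -/
lemma mp_adj (hr : 9 ≤ r) (hP : PG G r) (h : S2 G r m t Z T) {x y v w : V} (hx : x ∈ T)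
    (hy : y ∈ T) (hxy : x ≠ y) (hL : (a G r Z T x - 1) * (a G r Z T y - 1) ≤ 2)
    (hv : v ∈ BB G Z T) (hw : w ∈ BB G Z T) (ev : ends G T v = {x, y})
    (ew : ends G T w = {x, y}) (hvw : v ≠ w)
    (h1 : nd G (Cl G Z T x) v + nd G (Cl G Z T y) v
      ≤ nd G (Cl G Z T x) v * nd G (Cl G Z T y) v + 1)
    (h2 : nd G (Cl G Z T x) w + nd G (Cl G Z T y) w
      ≤ nd G (Cl G Z T x) w * nd G (Cl G Z T y) w + 1) : G.Adj v w := by
  obtain ⟨R, hR⟩ : ∃ R, r = R + 1 := ⟨r - 1, by omega⟩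
  by_contra hn
  have h3 := h.pair_mis hR hP hx hy hxy hv hw ev ew hvw hn
  omega

/-- a double of `HH x` that misses a point has the other hub as an end if all rows are occupied -/
lemma HH_one_ends (hP : PG G r) (h : S2 G r m t Z T) (hr : 7 ≤ r) {x y w : V} (hx : x ∈ T)
    (hocc : ∀ s ∈ T, s ≠ x → s ≠ y → s ∈ OO G r Z T)
    (hw : w ∈ HH G r Z T x) (h1 : nd G (Cl G Z T x) w = 1) : ends G T w = {x, y} := by
  obtain ⟨hwW, hwx, -⟩ := mem_HH.1 hw
  obtain ⟨u, hu, s, hs, hus, he⟩ := ends_two (WW_sub hwW)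
  have key : ∀ s ∈ T, x ≠ s → ends G T w = {x, s} → ends G T w = {x, y} := by
    intro s hs hxs he
    by_cases hsy : s = y
    · rw [he, hsy]
    · have := h.occ_zero hP hr hx hxs hwW he (hocc s hs hxs.symm hsy)
      omega
  rw [he] at hwx
  simp only [mem_insert, mem_singleton] at hwx
  rcases hwx with rfl | rfl
  · exact key s hs hus he
  · exact key u hu hus.symm (by rw [he, pair_comm])

/-- the set of the doubles of `HH x` that miss a point is a clique -/
lemma K1_clq (hr : 9 ≤ r) (hP : PG G r) (h : S2 G r m t Z T) {x y : V} (hx : x ∈ T)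
    (hy : y ∈ T) (hxy : x ≠ y) (hL : (a G r Z T x - 1) * (a G r Z T y - 1) ≤ 2)
    (hocc : ∀ s ∈ T, s ≠ x → s ≠ y → s ∈ OO G r Z T) {Y : Finset V}
    (hY : Y ⊆ HH G r Z T x) : Clq G (Y.filter (fun w => nd G (Cl G Z T x) w = 1)) := by
  intro v hv w hw hvw
  obtain ⟨hv1, hv2⟩ := mem_filter.1 hv
  obtain ⟨hw1, hw2⟩ := mem_filter.1 hw
  refine h.mp_adj hr hP hx hy hxy hL (WW_sub (HH_sub (hY hv1))) (WW_sub (HH_sub (hY hw1)))
    (h.HH_one_ends hP (by omega) hx hocc (hY hv1) hv2)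
    (h.HH_one_ends hP (by omega) hx hocc (hY hw1) hw2) hvw ?_ ?_
  · rw [hv2]; omega
  · rw [hw2]; omega

lemma sum_K1 {x : V} {Y : Finset V} (hY : Y ⊆ HH G r Z T x) :
    ∑ v ∈ Y, nd G (Cl G Z T x) v = (Y.filter (fun w => nd G (Cl G Z T x) w = 1)).card := by
  rw [card_filter]
  refine sum_congr rfl fun v hv => ?_
  have := (mem_HH.1 (hY hv)).2.2
  split_ifs <;> omega

/-- the row inequality without balanced doubles -/
lemma row_bound (hR : r = R + 1) (hr : 9 ≤ r) (hP : PG G r) (h : S2 G r m t Z T) {x y : V}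
    (hx : x ∈ T) (hy : y ∈ T) (hxy : x ≠ y) (hL : (a G r Z T x - 1) * (a G r Z T y - 1) ≤ 2)
    (hocc : ∀ s ∈ T, s ≠ x → s ≠ y → s ∈ OO G r Z T) {Y : Finset V}
    (hY : Y ⊆ HH G r Z T x) :
    2 * R * Y.card + Y.card ≤ 2 * R * a G r Z T x + Y.card * Y.card + 2 := by
  have h1 := h.A_gen hR hP hx (hY.trans (HH_sub.trans WW_sub))
  have h2 := NE_clq_sub (G := G) (filter_subset _ _) (h.K1_clq hr hP hx hy hxy hL hocc hY)
  rw [sum_K1 hY] at h1
  generalize (Y.filter (fun w => nd G (Cl G Z T x) w = 1)).card = k at h1 h2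
  have h3 : 3 * k ≤ k * k + 2 := by
    rcases Nat.lt_or_ge k 3 with h4 | h4
    · interval_cases k <;> omega
    · nlinarith
  omega

/-- the row inequality with one balanced double -/
lemma row_boundD (hR : r = R + 1) (hr : 9 ≤ r) (hP : PG G r) (h : S2 G r m t Z T) {x y v : V}
    (hx : x ∈ T) (hy : y ∈ T) (hxy : x ≠ y) (hL : (a G r Z T x - 1) * (a G r Z T y - 1) ≤ 2)
    (hocc : ∀ s ∈ T, s ≠ x → s ≠ y → s ∈ OO G r Z T) (hv : v ∈ DD G r Z T)
    (ev : ends G T v = {x, y}) {Y : Finset V} (hY : Y ⊆ HH G r Z T x) :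
    2 * R * (Y.card + 1) ≤ 2 * R * a G r Z T x + 2 * nd G (Cl G Z T x) v
      + (Y.card + 1) * Y.card := by
  have hvY : v ∉ Y := fun h' => HH_DD_ne (hY h') hv rfl
  have hK := h.K1_clq hr hP hx hy hxy hL hocc hY
  have b1 := (mem_DD.1 hv).2 x (by rw [ev]; simp)
  have b2 := (mem_DD.1 hv).2 y (by rw [ev]; simp)
  have hadj : ∀ w ∈ Y.filter (fun w => nd G (Cl G Z T x) w = 1), G.Adj v w := by
    intro w hw
    obtain ⟨hw1, hw2⟩ := mem_filter.1 hw
    refine h.mp_adj hr hP hx hy hxy hL (WW_sub (DD_sub hv)) (WW_sub (HH_sub (hY hw1))) ev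
      (h.HH_one_ends hP (by omega) hx hocc (hY hw1) hw2) (fun h' => hvY (h' ▸ hw1)) ?_ ?_
    · nlinarith
    · rw [hw2]; omega
  have hK2 : Clq G (insert v (Y.filter (fun w => nd G (Cl G Z T x) w = 1))) := by
    intro p hp q hq hpq
    rw [mem_insert] at hp hq
    rcases hp with rfl | hp <;> rcases hq with rfl | hq
    · exact absurd rfl hpq
    · exact hadj q hq
    · exact (hadj p hp).symm
    · exact hK p hp q hq hpq
  have hvK : v ∉ Y.filter (fun w => nd G (Cl G Z T x) w = 1) := fun h' => hvY (mem_filter.1 h').1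
  have h1 := h.A_gen hR hP hx (Y := insert v Y) (by
    intro z hz
    rcases mem_insert.1 hz with rfl | hz
    · exact WW_sub (DD_sub hv)
    · exact WW_sub (HH_sub (hY hz)))
  have h2 := NE_clq_sub (G := G) (insert_subset_insert v (filter_subset _ _)) hK2
  rw [sum_insert hvY, sum_K1 hY, card_insert_of_notMem hvY] at h1
  rw [card_insert_of_notMem hvY, card_insert_of_notMem hvK] at h2
  generalize (Y.filter (fun w => nd G (Cl G Z T x) w = 1)).card = k at h1 h2
  have h3 : k ≤ k * k := Nat.le_mul_self k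
  nlinarith

/-- a row with `a = 3` has at most four doubles which miss at most one point -/
lemma HH_four (hr : 9 ≤ r) (hP : PG G r) (h : S2 G r m t Z T) {x : V} (hx : x ∈ T)
    (ha : a G r Z T x = 3) : (HH G r Z T x).card ≤ 4 := by
  by_contra hcon
  obtain ⟨R, hR⟩ : ∃ R, r = R + 1 := ⟨r - 1, by omega⟩
  obtain ⟨Y, hY, hYc⟩ := exists_subset_card_eq (show 5 ≤ (HH G r Z T x).card by omega)
  have h1 := h.A_set hR hP hx (hY.trans (HH_sub.trans WW_sub)) (sum_HH hY) (NE_le Y)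
  rw [hYc, ha] at h1
  omega

/-- the vector `(3, 2, 1, .., 1)` with one free row -/
lemma no_32_free (hR : r = R + 1) (hr : 9 ≤ r) (hP : PG G r) (h : S2 G r m t Z T) {x y v : V}
    (hx : x ∈ T) (hy : y ∈ T) (hxy : x ≠ y) (hax : a G r Z T x = 3) (hay : a G r Z T y = 2)
    (ho : ∀ s ∈ T, s ≠ x → s ≠ y → a G r Z T s = 1)
    (hfree : ∀ s ∈ T, ∀ s' ∈ T, a G r Z T s = 1 → a G r Z T s' = 1 → s ∉ OO G r Z T →
      s' ∉ OO G r Z T → s = s')
    (hv : v ∈ DD G r Z T) (ev : ends G T v = {x, y}) (c1 : (HH G r Z T x).card = 4)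
    (c2 : (HH G r Z T y).card = 2) : False := by
  have b1 := (mem_DD.1 hv).2 x (by rw [ev]; simp)
  have b2 := (mem_DD.1 hv).2 y (by rw [ev]; simp)
  have k1 := h.kmul hP (WW_sub (DD_sub hv)) ev hxy
  rw [hax, hay] at k1
  obtain ⟨b3, b4, b5⟩ := bal_le_three b1 b2 (by push_cast at k1; linarith)
  have hL : (a G r Z T x - 1) * (a G r Z T y - 1) ≤ 2 := by rw [hax, hay]
  -- the row `y`
  have hvy : v ∉ HH G r Z T y := fun h' => HH_DD_ne h' hv rfl
  have h1 := h.A_gen hR hP hy (Y := insert v (HH G r Z T y)) (by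
    intro z hz
    rcases mem_insert.1 hz with rfl | hz
    · exact WW_sub (DD_sub hv)
    · exact WW_sub (HH_sub hz))
  have h2 := NE_le (G := G) (insert v (HH G r Z T y))
  have h3 := sum_HH (Subset.refl (HH G r Z T y))
  rw [sum_insert hvy, card_insert_of_notMem hvy, c2, hay] at h1
  rw [card_insert_of_notMem hvy, c2] at h2
  have hk2 : nd G (Cl G Z T x) v ≤ 2 := b5 (by omega)
  -- the row `x`
  have hvx : v ∉ HH G r Z T x := fun h' => HH_DD_ne h' hv rfl
  have h4 := h.A_gen hR hP hx (Y := insert v (HH G r Z T x)) (by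
    intro z hz
    rcases mem_insert.1 hz with rfl | hz
    · exact WW_sub (DD_sub hv)
    · exact WW_sub (HH_sub hz))
  have h5 := NE_le (G := G) (insert v (HH G r Z T x))
  have h6 := sum_HH (Subset.refl (HH G r Z T x))
  rw [sum_insert hvx, card_insert_of_notMem hvx, c1, hax] at h4
  rw [card_insert_of_notMem hvx, c1] at h5
  have h7 : ∑ w ∈ HH G r Z T x, nd G (Cl G Z T x) w = 4 := by omega
  have hall : ∀ w ∈ HH G r Z T x, nd G (Cl G Z T x) w = 1 := by
    intro w hw
    have h8 := sum_erase_add _ (fun w => nd G (Cl G Z T x) w) hw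
    have h9 := sum_HH (r := r) (Z := Z) (T := T) (x := x) (erase_subset w (HH G r Z T x))
    have h10 := card_erase_add_one hw
    have h11 := (mem_HH.1 hw).2.2
    omega
  -- two adjacent points
  have hadj : ∀ p ∈ HH G r Z T x, ∀ q ∈ HH G r Z T x, p ≠ q →
      (ends G T p = {x, y} ↔ ends G T q = {x, y}) → G.Adj p q := by
    intro p hp q hq hpq hiff
    have oth : ∀ w ∈ HH G r Z T x, ends G T w ≠ {x, y} → ∃ s ∈ T, s ≠ x ∧
        a G r Z T s = 1 ∧ s ∉ OO G r Z T ∧ ends G T w = {x, s} := by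
      intro w hw hne
      obtain ⟨hwW, hwx, -⟩ := mem_HH.1 hw
      obtain ⟨u, hu, s, hs, hus, he⟩ := ends_two (WW_sub hwW)
      have key : ∀ s ∈ T, x ≠ s → ends G T w = {x, s} → ∃ s ∈ T, s ≠ x ∧
        a G r Z T s = 1 ∧ s ∉ OO G r Z T ∧ ends G T w = {x, s} := by
        intro s hs hxs he
        have hsy : s ≠ y := fun h' => hne (by rw [he, h'])
        refine ⟨s, hs, hxs.symm, ho s hs hxs.symm hsy, fun hO => ?_, he⟩
        have := h.occ_zero hP (by omega) hx hxs hwW he hO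
        have := hall w hw
        omega
      rw [he] at hwx
      simp only [mem_insert, mem_singleton] at hwx
      rcases hwx with rfl | rfl
      · exact key s hs hus he
      · exact key u hu hus.symm (by rw [he, pair_comm])
    by_cases hpe : ends G T p = {x, y}
    · refine h.mp_adj hr hP hx hy hxy hL (WW_sub (HH_sub hp)) (WW_sub (HH_sub hq)) hpe
        (hiff.1 hpe) hpq ?_ ?_
      · rw [hall p hp]; omega
      · rw [hall q hq]; omega
    · obtain ⟨s, hs, hsx, hs1, hsO, hse⟩ := oth p hp hpe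
      obtain ⟨s', hs', hsx', hs1', hsO', hse'⟩ := oth q hq (fun h' => hpe (hiff.2 h'))
      have : s = s' := hfree s hs s' hs' hs1 hs1' hsO hsO'
      subst this
      exact h.free_adj hP (by omega) hx hs hsx.symm hs1 (HH_sub hp) (HH_sub hq) hse hse' hpq
        (by rw [hall p hp])
  obtain ⟨p, q, s, u, d1, d2, d3, d4, d5, d6, hH⟩ := card_eq_four.1 c1
  have mp : p ∈ HH G r Z T x := by rw [hH]; simp
  have mq : q ∈ HH G r Z T x := by rw [hH]; simp
  have ms' : s ∈ HH G r Z T x := by rw [hH]; simp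
  have hex : ∃ p ∈ HH G r Z T x, ∃ q ∈ HH G r Z T x, p ≠ q ∧ G.Adj p q := by
    by_cases e1 : ends G T p = {x, y} ↔ ends G T q = {x, y}
    · exact ⟨p, mp, q, mq, d1, hadj p mp q mq d1 e1⟩
    by_cases e2 : ends G T p = {x, y} ↔ ends G T s = {x, y}
    · exact ⟨p, mp, s, ms', d2, hadj p mp s ms' d2 e2⟩
    · exact ⟨q, mq, s, ms', d4, hadj q mq s ms' d4 (by tauto)⟩
  obtain ⟨p, hp, q, hq, hpq, hA⟩ := hex
  have h8 := NE_clq_sub (G := G) (Y := insert v (HH G r Z T x)) (K := {p, q}) (by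
    intro z hz
    simp only [mem_insert, mem_singleton] at hz
    rcases hz with rfl | rfl
    · exact mem_insert_of_mem hp
    · exact mem_insert_of_mem hq) (by
    intro z hz w hw hzw
    simp only [mem_insert, mem_singleton] at hz hw
    rcases hz with rfl | rfl <;> rcases hw with rfl | rfl
    · exact absurd rfl hzw
    · exact hA
    · exact hA.symm
    · exact absurd rfl hzw)
  rw [card_insert_of_notMem hvx, c1, card_pair hpq] at h8
  omega

/-- the vector `(3, 2, 1, .., 1)` -/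
lemma no_32 (hr : 9 ≤ r) (hP : PG G r) (h : S2 G r m t Z T) {x y : V} (hx : x ∈ T)
    (hy : y ∈ T) (hxy : x ≠ y) (hax : a G r Z T x = 3) (hay : a G r Z T y = 2)
    (ho : ∀ s ∈ T, s ≠ x → s ≠ y → a G r Z T s = 1) : False := by
  obtain ⟨R, hR⟩ : ∃ R, r = R + 1 := ⟨r - 1, by omega⟩
  have hL : (a G r Z T x - 1) * (a G r Z T y - 1) ≤ 2 := by rw [hax, hay]
  have hL' : (a G r Z T y - 1) * (a G r Z T x - 1) ≤ 2 := by rw [hax, hay]
  obtain ⟨A, hAd⟩ : ∃ A, A = (T.erase x).erase y := ⟨_, rfl⟩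
  have memA : ∀ s, s ∈ A ↔ s ∈ T ∧ s ≠ x ∧ s ≠ y := by
    intro s
    rw [hAd, mem_erase, mem_erase]
    tauto
  have oneA : ∀ s ∈ A, a G r Z T s = 1 := fun s hs => by
    obtain ⟨h1, h2, h3⟩ := (memA s).1 hs
    exact ho s h1 h2 h3
  have hye : y ∈ T.erase x := mem_erase.2 ⟨hxy.symm, hy⟩
  have hb := h.b_eq
  have hs : ∑ v ∈ T, a G r Z T v = 3 + (2 + A.card) := by
    rw [← add_sum_erase T _ hx, ← add_sum_erase (T.erase x) _ hye, hax, hay, ← hAd,
      card_eq_sum_ones]
    congr 2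
    exact sum_congr rfl fun s hs => oneA s hs
  have hcW := h.card_WW hP
  have hOO := OO_frs (G := G) (r := r) (Z := Z) (T := T) (A := A) (by
    intro s hs
    obtain ⟨h1, h2, -⟩ := mem_OO.1 hs
    exact (memA s).2 ⟨h1, fun h' => by rw [h', hax] at h2; omega,
      fun h' => by rw [h', hay] at h2; omega⟩)
  have hocc : frs G r Z T A = 0 → ∀ s ∈ T, s ≠ x → s ≠ y → s ∈ OO G r Z T := by
    intro h0 s hs h1 h2
    have hsA : s ∈ A := (memA s).2 ⟨hs, h1, h2⟩
    unfold frs at h0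
    have h3 := (sum_eq_zero_iff.1 h0) s hsA
    unfold fr at h3
    by_contra hn
    rw [if_neg hn] at h3
    omega
  have hfree : frs G r Z T A = 1 → ∀ s ∈ T, ∀ s' ∈ T, a G r Z T s = 1 → a G r Z T s' = 1 →
      s ∉ OO G r Z T → s' ∉ OO G r Z T → s = s' := by
    intro h0 s hs s' hs' h1 h1' h2 h2'
    by_contra hne
    have inA : ∀ s ∈ T, a G r Z T s = 1 → s ∈ A := fun s hs h1 =>
      (memA s).2 ⟨hs, fun h' => by rw [h', hax] at h1; omega,
        fun h' => by rw [h', hay] at h1; omega⟩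
    have h3 : ∑ y ∈ ({s, s'} : Finset V), fr G r Z T y ≤ frs G r Z T A := by
      unfold frs
      refine sum_le_sum_of_subset fun z hz => ?_
      simp only [mem_insert, mem_singleton] at hz
      rcases hz with rfl | rfl
      · exact inA _ hs h1
      · exact inA _ hs' h1'
    rw [sum_pair hne] at h3
    unfold fr at h3
    rw [if_neg h2, if_neg h2'] at h3
    omega
  have hub : ∀ s ∈ T, 2 ≤ a G r Z T s → s = x ∨ s = y := by
    intro s hs h1
    by_contra hcon
    push Not at hcon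
    have := ho s hs hcon.1 hcon.2
    omega
  have hDe : ∀ w ∈ DD G r Z T, ends G T w = {x, y} := by
    intro w hw
    obtain ⟨p, hp, q, hq, hpq, he, a1, a2⟩ := h.DD_ends hP (by omega) hw
    rcases hub p hp a1 with rfl | rfl <;> rcases hub q hq a2 with rfl | rfl
    · exact absurd rfl hpq
    · exact he
    · rw [he, pair_comm]
    · exact absurd rfl hpq
  have hD1 : (DD G r Z T).card ≤ 1 := by
    rw [card_le_one]
    intro v hv w hw
    exact h.bal_unique hr hP hx hy hxy hL hv hw (hDe v hv) (hDe w hw)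
  have hsub : WW G r Z T ⊆ (HH G r Z T x ∪ HH G r Z T y) ∪ DD G r Z T := by
    intro w hw
    rcases h.WW_cover (by omega) hw with h1 | ⟨s, hs, h1, h2⟩
    · exact mem_union_right _ h1
    · refine mem_union_left _ ?_
      rw [mem_union]
      rcases hub s hs h1 with rfl | rfl
      · exact Or.inl h2
      · exact Or.inr h2
  have hWc : (WW G r Z T).card ≤ (HH G r Z T x).card + (HH G r Z T y).card
      + (DD G r Z T).card := by
    have c1 := card_le_card hsub
    have c2 := card_union_le (HH G r Z T x ∪ HH G r Z T y) (DD G r Z T)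
    have c3 := card_union_le (HH G r Z T x) (HH G r Z T y)
    omega
  have g1 := h.HH_four hr hP hx hax
  have g2 := h.HH_two (by omega) hP hy hay
  rcases Nat.eq_zero_or_pos (DD G r Z T).card with h0 | h0
  · have hf0 : frs G r Z T A = 0 := by omega
    have h1 := h.row_bound hR hr hP hx hy hxy hL (hocc hf0) (Subset.refl (HH G r Z T x))
    have h2 : (HH G r Z T x).card = 4 := by omega
    rw [h2, hax] at h1
    omega
  · obtain ⟨v, hv⟩ := card_pos.1 h0
    have ev := hDe v hv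
    have b1 := (mem_DD.1 hv).2 x (by rw [ev]; simp)
    have b2 := (mem_DD.1 hv).2 y (by rw [ev]; simp)
    have k1 := h.kmul hP (WW_sub (DD_sub hv)) ev hxy
    rw [hax, hay] at k1
    obtain ⟨b3, b4, b5⟩ := bal_le_three b1 b2 (by push_cast at k1; linarith)
    rcases Nat.eq_zero_or_pos (frs G r Z T A) with hf0 | hf0
    · have h1 := h.row_boundD hR hr hP hx hy hxy hL (hocc hf0) hv ev
        (Subset.refl (HH G r Z T x))
      have h2 := h.row_boundD hR hr hP hy hx hxy.symm hL'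
        (fun s hs h1 h2 => hocc hf0 s hs h2 h1) hv (by rw [ev, pair_comm])
        (Subset.refl (HH G r Z T y))
      rw [hax] at h1
      rw [hay] at h2
      have h3 : (HH G r Z T y).card ≤ 1 := by
        by_contra hcon
        have h4 : (HH G r Z T y).card = 2 := by omega
        rw [h4] at h2
        omega
      have h4 : (HH G r Z T x).card = 4 := by omega
      rw [h4] at h1
      omega
    · exact h.no_32_free hR hr hP hx hy hxy hax hay ho (hfree (by omega)) hv ev (by omega)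
        (by omega)

end S2

end Pool.Agent.Lib.MP_f04ccf_co
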