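import Pool.Agent.Lib.MP_f04ccf_co.M.R9c

/-!
MP_f04ccf_co: the frames with `t + 4` doubles (`9 ≤ r`), the vector `(4, 1, .., 1)`.
-/

set_option autoImplicit false

namespace Pool.Agent.Lib.MP_f04ccf_co

open Finset

attribute [local instance] Classical.propDecidable

variable {V : Type*} {G : SimpleGraph V} {r R m t : ℕ} {Z T : Finset V}

lemma sq_arith {f n : ℕ} (hf : f ≤ 1) : n * (2 * f) + 3 * n ≤ n * n + 2 + 4 * f := by
  have h1 : 3 * n ≤ n * n + 2 := by
    rcases Nat.lt_or_ge n 3 with h4 | h4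
    · interval_cases n <;> omega
    · nlinarith
  have h2 : 5 * n ≤ n * n + 6 := by
    rcases Nat.lt_or_ge n 5 with h4 | h4
    · interval_cases n <;> omega
    · nlinarith
  interval_cases f <;> omega

lemma four_arith {a b : ℕ} (h1 : 2 ≤ a)
    (h : ((a : ℤ) - 1) * ((b : ℤ) - 1) ≤ (((4 : ℕ) : ℤ) - 1) * (((1 : ℕ) : ℤ) - 1) + 1) :
    b ≤ 2 := by
  by_contra hc
  have h2 : (2 : ℤ) ≤ a := by exact_mod_cast h1
  have h3 : (3 : ℤ) ≤ b := by exact_mod_cast (show 3 ≤ b by omega)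
  push_cast at h
  nlinarith

/-- three points that cover a class -/
lemma card_le_dg_three {C : Finset V} {p q s : V}
    (h : ∀ c ∈ C, G.Adj p c ∨ G.Adj q c ∨ G.Adj s c) :
    C.card ≤ dg G C p + dg G C q + dg G C s := by
  unfold dg
  refine (card_le_card (t := (C.filter (fun w => G.Adj p w) ∪ C.filter (fun w => G.Adj q w))
    ∪ C.filter (fun w => G.Adj s w)) ?_).trans ((card_union_le _ _).trans
    (Nat.add_le_add_right (card_union_le _ _) _))
  intro c hc
  rw [mem_union, mem_union, mem_filter, mem_filter, mem_filter]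
  rcases h c hc with h1 | h1 | h1
  · exact Or.inl (Or.inl ⟨hc, h1⟩)
  · exact Or.inl (Or.inr ⟨hc, h1⟩)
  · exact Or.inr ⟨hc, h1⟩

namespace S2

/-- four outside points at a row with `a = 1` -/
lemma row_four (hP : PG G r) (h : S2 G r m t Z T) {y p q s u : V} (hy : y ∈ T)
    (ha : a G r Z T y = 1) (hp : p ∉ Cl G Z T y) (hq : q ∉ Cl G Z T y) (hs : s ∉ Cl G Z T y)
    (hu : u ∉ Cl G Z T y) (d1 : p ≠ q) (d2 : p ≠ s) (d3 : p ≠ u) (d4 : q ≠ s) (d5 : q ≠ u)
    (d6 : s ≠ u) :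
    dg G (Cl G Z T y) p + dg G (Cl G Z T y) q + dg G (Cl G Z T y) s + dg G (Cl G Z T y) u + 1
      ≤ r + (ms G p q + ms G p s + ms G p u + ms G q s + ms G q u + ms G s u) := by
  have hd : Disjoint (Cl G Z T y) {p, q, s, u} := by
    rw [disjoint_right]
    intro x hx
    simp only [mem_insert, mem_singleton] at hx
    rcases hx with rfl | rfl | rfl | rfl <;> assumption
  have h1 := h.val7 hP hy hd
  rw [NE_four7 d1 d2 d3 d4 d5 d6, ha, sum_insert (by simp [d1, d2, d3]),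
    sum_insert (by simp [d4, d5]), sum_pair d6] at h1
  have h2 := h.dg_nd_one hy ha hp
  have h3 := h.dg_nd_one hy ha hq
  have h4 := h.dg_nd_one hy ha hs
  have h5 := h.dg_nd_one hy ha hu
  push_cast at h1
  omega

/-- the square bound for the doubles at a row whose other ends have `a = 1` -/
lemma hub_sq (hP : PG G r) (h : S2 G r m t Z T) (hr : 7 ≤ r) {x : V} (hx : x ∈ T)
    {A : Finset V} (hA : ∀ y ∈ A, y ∈ T ∧ y ≠ x ∧ a G r Z T y = 1) {Y : Finset V}
    (hY : Y ⊆ WW G r Z T) (hE : ∀ w ∈ Y, ∃ y ∈ A, ends G T w = {x, y}) :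
    2 * ∑ v ∈ Y, nd G (Cl G Z T x) v + NE G Y + 3 * Y.card ≤ Y.card * Y.card
      + 2 * A.card + 4 * frs G r Z T A := by
  choose! tl htA hte using hE
  have hfil : ∀ y ∈ A, Y.filter (fun w => tl w = y) = Y.filter (fun w => ends G T w = {x, y}) := by
    intro y hy
    apply filter_congr
    intro w hw
    constructor
    · rintro rfl
      exact hte w hw
    · intro he
      by_contra hne
      exact pair_ne (x := x) (hA (tl w) (htA w hw)).2.1.symm hne ((hte w hw).symm.trans he)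
  have hfib : ∀ g : V → ℕ, ∑ v ∈ Y, g v
      = ∑ y ∈ A, ∑ v ∈ Y.filter (fun w => ends G T w = {x, y}), g v := by
    intro g
    rw [← sum_fiberwise_of_maps_to htA g]
    exact sum_congr rfl fun y hy => by rw [hfil y hy]
  have hv : ∀ y ∈ A, ∀ v ∈ Y.filter (fun w => ends G T w = {x, y}),
      (2 * nd G (Cl G Z T x) v + nd G Y v)
        + (Y.filter (fun w => ends G T w = {x, y})).card ≤ 2 * fr G r Z T y + Y.card := by
    intro y hy v hv
    have h1 := h.class_bound hP hr hx (hA y hy).1 (hA y hy).2.1.symm (hA y hy).2.2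
      (U := Y.filter (fun w => ends G T w = {x, y})) ((filter_subset _ _).trans hY)
      (fun w hw => (mem_filter.1 hw).2) hv
    have h2 := nd_le_add (G := G) (filter_subset (fun w => ends G T w = {x, y}) Y) v
    unfold fr
    split_ifs at h1 ⊢ <;> omega
  have hc : Y.card = ∑ y ∈ A, (Y.filter (fun w => ends G T w = {x, y})).card := by
    have := hfib (fun _ => 1)
    simpa using this
  have h3 : ∀ y ∈ A, ∑ v ∈ Y.filter (fun w => ends G T w = {x, y}),
      (2 * nd G (Cl G Z T x) v + nd G Y v) + 3 * (Y.filter (fun w => ends G T w = {x, y})).card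
      ≤ (Y.filter (fun w => ends G T w = {x, y})).card * Y.card
        + (2 + 4 * fr G r Z T y) := by
    intro y hy
    have h4 := sum_le_sum (hv y hy)
    rw [sum_add_distrib, sum_const, sum_const, smul_eq_mul, smul_eq_mul] at h4
    have h5 := sq_arith (n := (Y.filter (fun w => ends G T w = {x, y})).card)
      (fr_le (G := G) (r := r) (Z := Z) (T := T) y)
    nlinarith
  have h4 := sum_le_sum h3
  rw [sum_add_distrib, sum_add_distrib, ← mul_sum, ← hc, ← hfib, ← sum_mul, ← hc,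
    sum_add_distrib, ← mul_sum, sum_add_distrib, ← mul_sum, sum_const, smul_eq_mul] at h4
  have e : NE G Y = ∑ v ∈ Y, nd G Y v := rfl
  rw [e]
  unfold frs
  omega

/-- a double is heavy at one row only if the heavy doubles fill all rows -/
lemma heavy_once (hP : PG G r) (h : S2 G r m t Z T) {A : Finset V} (hA : OO G r Z T ⊆ A)
    (hc : (WW G r Z T).card + A.card ≤ (BB G Z T).card) {y s w : V} (hy : y ∈ T) (hs : s ∈ T)
    (hys : y ≠ s) (hay : a G r Z T y = 1) (has : a G r Z T s = 1) (hw : w ∈ BB G Z T)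
    (h1 : Hvy G r Z T y w) : ¬ Hvy G r Z T s w := by
  intro h2
  have g1 : ∀ u ∈ BB G Z T \ WW G r Z T, ∃ y ∈ T, a G r Z T y = 1 ∧ Hvy G r Z T y u ∧ y ≠ s := by
    intro u hu
    obtain ⟨hu1, hu2⟩ := mem_sdiff.1 hu
    by_cases huw : u = w
    · subst huw
      exact ⟨y, hy, hay, h1, hys⟩
    by_contra hcon
    push Not at hcon
    refine hu2 (mem_WW.2 ⟨hu1, fun z hz hz1 hz2 => ?_⟩)
    have := hcon z hz hz1 hz2
    subst this
    exact huw (h.heavy_unique hP hz hz1 hu1 hw hz2 h2)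
  choose! f hf1 hf2 hf3 hf4 using g1
  have g2 : (BB G Z T \ WW G r Z T).card ≤ ((OO G r Z T).erase s).card := by
    apply card_le_card_of_injOn f
    · intro u hu
      exact mem_erase.2 ⟨hf4 u hu, mem_OO.2 ⟨hf1 u hu, hf2 u hu, u, (mem_sdiff.1 hu).1,
        hf3 u hu⟩⟩
    · intro u hu u' hu' he
      refine h.heavy_unique hP (hf1 u hu) (hf2 u hu) (mem_sdiff.1 hu).1 (mem_sdiff.1 hu').1
        (hf3 u hu) ?_
      have := hf3 u' hu'
      rwa [← he] at this
  have g3 := card_sdiff_add_card_eq_card (show WW G r Z T ⊆ BB G Z T from filter_subset _ _)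
  have g4 : s ∈ OO G r Z T := mem_OO.2 ⟨hs, has, w, hw, h2⟩
  have g5 := card_erase_add_one g4
  have g6 := card_le_card hA
  omega

/-- a missing pair at the hub: some heavy double misses at most one point of the class of the
hub -/
lemma mis_heavy (hr : 9 ≤ r) (hP : PG G r) (h : S2 G r m t Z T) {x y z v v' : V} (hx : x ∈ T)
    (hax : a G r Z T x = 4) (ho : ∀ s ∈ T, s ≠ x → a G r Z T s = 1)
    (hocc : ∀ s ∈ T, s ≠ x → s ∈ OO G r Z T)
    (hone : ∀ w ∈ BB G Z T, ∀ y ∈ T, ∀ s ∈ T, y ≠ s → a G r Z T y = 1 → a G r Z T s = 1 →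
      Hvy G r Z T y w → ¬ Hvy G r Z T s w)
    (hy : y ∈ T) (hz : z ∈ T) (hyx : y ≠ x) (hzx : z ≠ x) (hyz : y ≠ z)
    (hv : v ∈ WW G r Z T) (hv' : v' ∈ WW G r Z T) (ev : ends G T v = {x, y})
    (ev' : ends G T v' = {x, z}) (hvv : v ≠ v') (hn : ¬ G.Adj v v') :
    ∃ u ∈ BB G Z T, u ∉ WW G r Z T ∧ nd G (Cl G Z T x) u ≤ 1 := by
  have hay := ho y hy hyx
  have haz := ho z hz hzx
  have hvB := WW_sub hv
  have hvB' := WW_sub hv'
  -- the point `p`
  have hpex : ∃ p ∈ Cl G Z T z, ¬ G.Adj v p ∧ ¬ G.Adj v' p := by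
    by_contra hcon
    push Not at hcon
    refine hn (h.occ_adj hP (by omega) (hocc z hz hzx) hv' (q := v) (BB_notMem hz hvB)
      (fun _ => (mem_WW.1 hv).2 z hz haz) hvv.symm ?_).symm
    intro c hc
    by_cases h1 : G.Adj v c
    · exact Or.inr h1
    · exact Or.inl (hcon c hc h1)
  obtain ⟨p, hp, hp1, hp2⟩ := hpex
  have hI : ({x, y, z} : Finset V) ⊆ T := by
    intro s hs
    simp only [mem_insert, mem_singleton] at hs
    rcases hs with rfl | rfl | rfl <;> assumption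
  have hI3 : ({x, y, z} : Finset V).card = 3 :=
    card_eq_three.2 ⟨x, y, z, hyx.symm, hzx.symm, hyz, rfl⟩
  have mv : v ∈ ZI G Z T {x, y, z} := PFrame.mem_ZI_of_BB hvB (by
    rw [ev]; intro s hs; simp only [mem_insert, mem_singleton] at hs ⊢; tauto)
  have mv' : v' ∈ ZI G Z T {x, y, z} := PFrame.mem_ZI_of_BB hvB' (by
    rw [ev']; intro s hs; simp only [mem_insert, mem_singleton] at hs ⊢; tauto)
  have mp : p ∈ ZI G Z T {x, y, z} := h.toPFrame.Cl_sub_ZI' hz (by simp) hp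
  have hclq := h.toPFrame.triple_clq hI hI3 mv mv' hvv hn
  have cB : ∀ c s, s ∈ T → c ∈ Cl G Z T s → ∀ w ∈ BB G Z T, c ≠ w := fun c s hs hc w hw hcw =>
    BB_notMem hs hw (hcw ▸ hc)
  have hpI : p ∈ (ZI G Z T {x, y, z}).filter
      (fun c => (c ≠ v ∧ ¬ G.Adj v c) ∧ (c ≠ v' ∧ ¬ G.Adj v' c)) := mem_filter.2 ⟨mp, ⟨cB p z hz hp v hvB, hp1⟩, cB p z hz hp v' hvB', hp2⟩
  -- the cover of `Cl y`
  have hcov : ∀ c ∈ Cl G Z T y, G.Adj v c ∨ G.Adj v' c ∨ G.Adj p c := by
    intro c hc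
    by_contra hcon
    push Not at hcon
    obtain ⟨h1, h2, h3⟩ := hcon
    have mc : c ∈ ZI G Z T {x, y, z} := h.toPFrame.Cl_sub_ZI' hy (by simp) hc
    refine h3 (hclq p hpI c (mem_filter.2 ⟨mc, ⟨cB c y hy hc v hvB, h1⟩,
      cB c y hy hc v' hvB', h2⟩) ?_)
    rintro rfl
    exact Cl_notMem hz hy hyz.symm hp hc
  have hcc := card_le_dg_three hcov
  have hcy := h.card_one hy hay
  -- the heavy double
  obtain ⟨-, -, u, hu, huh⟩ := mem_OO.1 (hocc y hy hyx)
  have huv : u ≠ v := by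
    rintro rfl
    exact (mem_WW.1 hv).2 y hy hay huh
  have huv' : u ≠ v' := by
    rintro rfl
    exact (mem_WW.1 hv').2 y hy hay huh
  have hup : u ≠ p := (cB p z hz hp u hu).symm
  have hvp : v ≠ p := (cB p z hz hp v hvB).symm
  have hvp' : v' ≠ p := (cB p z hz hp v' hvB').symm
  have h4 := h.row_four hP hy hay (BB_notMem hy hu) (BB_notMem hy hvB) (BB_notMem hy hvB')
    (Cl_notMem hz hy hyz.symm hp) huv huv' hup hvv hvp hvp'
  have l1 := ms_le (G := G) u v
  have l2 := ms_le (G := G) u v'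
  have l3 := ms_le (G := G) u p
  have l4 := ms_le (G := G) v v'
  have l5 := ms_le (G := G) v p
  have l6 := ms_le (G := G) v' p
  have hdn := h.dg_nd_one hy hay (BB_notMem hy hu)
  have huW : u ∉ WW G r Z T := fun h' => (mem_WW.1 h').2 y hy hay huh
  refine ⟨u, hu, huW, ?_⟩
  -- the ends of `u`
  have small : ∀ s ∈ T, s ≠ x → s ≠ y → 2 ≤ nd G (Cl G Z T s) u := by
    intro s hs hsx hsy
    by_contra hcon
    have h5 := h.dg_nd_one hs (ho s hs hsx) (BB_notMem hs hu)
    refine hone u hu y hy s hs hsy.symm hay (ho s hs hsx) huh ?_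
    unfold Hvy
    omega
  have two : 2 ≤ nd G (Cl G Z T y) u := by omega
  obtain ⟨e1, he1, e2, he2, he12, he⟩ := ends_two hu
  have key : ∀ s ∈ T, s ≠ x → ends G T u = {x, s} → nd G (Cl G Z T x) u ≤ 1 := by
    intro s hs hsx he
    by_cases hsy : s = y
    · subst hsy
      by_contra hcon
      have k1 := h.kmul hP hu he hsx.symm
      rw [hax, hay] at k1
      have g3 := four_arith (by omega) k1
      have e3 : ms G u p = 1 := by omega
      have e4 : ms G u v = 1 := by omega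
      have e5 : ms G u v' = 1 := by omega
      have mu : u ∈ ZI G Z T {x, s, z} := PFrame.mem_ZI_of_BB hu (by
        rw [he]; intro q hq; simp only [mem_insert, mem_singleton] at hq ⊢; tauto)
      have := hclq u (mem_filter.2 ⟨mu, ⟨huv, fun h' => not_of_ms e4 h'.symm⟩, huv',
        fun h' => not_of_ms e5 h'.symm⟩) p hpI hup
      exact not_of_ms e3 this
    · exact h.kap_le_one hP (by omega) hu he hsx.symm (ho s hs hsx)
        (hone u hu y hy s hs (Ne.symm hsy) hay (ho s hs hsx) huh)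
  by_cases h1 : e1 = x
  · subst h1
    exact key e2 he2 he12.symm he
  by_cases h2 : e2 = x
  · subst h2
    exact key e1 he1 he12 (by rw [he, pair_comm])
  exfalso
  have fin : ∀ s ∈ T, ∀ s' ∈ T, s ≠ s' → s ≠ x → s' ≠ x → s ≠ y → ends G T u = {s', s} →
      False := by
    intro s hs s' hs' hss hsx hsx' hsy he
    have h5 := h.kap_le_one hP (by omega) hu he hss.symm (ho s hs hsx)
      (hone u hu y hy s hs (Ne.symm hsy) hay (ho s hs hsx) huh)
    by_cases hsy' : s' = y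
    · rw [hsy'] at h5
      omega
    · have := small s' hs' hsx' hsy'
      omega
  by_cases h3 : e1 = y
  · exact fin e2 he2 e1 he1 he12.symm h2 h1 (fun h' => he12 (h3.trans h'.symm)) he
  · exact fin e1 he1 e2 he2 he12 h1 h2 h3 (by rw [he, pair_comm])

/-- the vector `(4, 1, .., 1)` -/
lemma no_4 (hr : 9 ≤ r) (hP : PG G r) (h : S2 G r m t Z T) (hbr : (BB G Z T).card ≤ r) {x : V}
    (hx : x ∈ T) (hax : a G r Z T x = 4) (ho : ∀ s ∈ T, s ≠ x → a G r Z T s = 1) : False := by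
  obtain ⟨R, hR⟩ : ∃ R, r = R + 1 := ⟨r - 1, by omega⟩
  obtain ⟨A, hAd⟩ : ∃ A, A = T.erase x := ⟨_, rfl⟩
  have mA : ∀ y ∈ A, y ∈ T ∧ y ≠ x ∧ a G r Z T y = 1 := fun y hy => by
    rw [hAd] at hy
    exact ⟨(mem_erase.1 hy).2, (mem_erase.1 hy).1, ho y (mem_erase.1 hy).2 (mem_erase.1 hy).1⟩
  have hb := h.b_eq
  have hs : ∑ v ∈ T, a G r Z T v = 4 + A.card := by
    rw [← add_sum_erase T _ hx, hax, ← hAd, card_eq_sum_ones]
    congr 1
    exact sum_congr rfl fun y hy => (mA y hy).2.2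
  have hcW := h.card_WW hP
  have hOA : OO G r Z T ⊆ A := by
    rw [hAd]
    exact OO_sub x (by omega)
  have hOO := OO_frs (G := G) (r := r) (Z := Z) (T := T) hOA
  have hE : ∀ w ∈ WW G r Z T, ∃ y ∈ A, ends G T w = {x, y} := by
    intro w hw
    obtain ⟨y, hy, hyx, he⟩ := h.hub_ends hP (by omega) ho hw
    exact ⟨y, by rw [hAd]; exact mem_erase.2 ⟨hyx, hy⟩, he⟩
  have main : ∀ Y ⊆ WW G r Z T, 2 * R * Y.card + 3 * Y.card ≤ 8 * R + Y.card * Y.card
      + 2 * A.card + 4 * frs G r Z T A := by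
    intro Y hY
    have h1 := h.hub_sq hP (by omega) hx mA hY fun w hw => hE w (hY hw)
    have h2 := h.A_gen hR hP hx (hY.trans WW_sub)
    rw [hax] at h2
    omega
  rcases Nat.eq_zero_or_pos (frs G r Z T A) with hf0 | hf0
  · -- all rows are occupied
    have h5 : (WW G r Z T).card = 5 := by
      by_contra hcon
      obtain ⟨Y, hY, hYc⟩ := exists_subset_card_eq (show 6 ≤ (WW G r Z T).card by omega)
      have := main Y hY
      rw [hYc, hf0] at this
      omega
    have hocc : ∀ s ∈ T, s ≠ x → s ∈ OO G r Z T := by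
      intro s hs hsx
      have hsA : s ∈ A := by rw [hAd]; exact mem_erase.2 ⟨hsx, hs⟩
      have h3 := hf0
      unfold frs at h3
      have h4 := (sum_eq_zero_iff.1 h3) s hsA
      unfold fr at h4
      by_contra hn
      rw [if_neg hn] at h4
      omega
    have hk0 : ∀ w ∈ WW G r Z T, nd G (Cl G Z T x) w = 0 := by
      intro w hw
      obtain ⟨y, hy, he⟩ := hE w hw
      obtain ⟨h1, h2, h3⟩ := mA y hy
      exact h.occ_zero hP (by omega) hx h2.symm hw he (hocc y h1 h2)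
    have hsq := h.hub_sq hP (by omega) hx mA (Subset.refl (WW G r Z T)) hE
    have hAg := h.A_gen hR hP hx (Subset.refl _ |>.trans (WW_sub (G := G) (r := r) (Z := Z)
      (T := T)))
    rw [sum_eq_zero hk0, h5, hf0] at hsq
    rw [sum_eq_zero hk0, h5, hax] at hAg
    -- a missing pair
    have hex : ∃ v ∈ WW G r Z T, nd G (WW G r Z T) v ≠ 0 := by
      by_contra hcon
      push Not at hcon
      have : NE G (WW G r Z T) = 0 := sum_eq_zero hcon
      omega
    obtain ⟨v, hv, hnd⟩ := hex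
    obtain ⟨v', hv'⟩ : ∃ w, w ∈ (WW G r Z T).filter (fun z => z ≠ v ∧ ¬ G.Adj v z) := by
      rw [← nonempty_def, ← card_pos]
      exact Nat.pos_of_ne_zero hnd
    obtain ⟨hv'W, hne, hn⟩ := mem_filter.1 hv'
    obtain ⟨y, hy, ev⟩ := hE v hv
    obtain ⟨z, hz, ev'⟩ := hE v' hv'W
    obtain ⟨hyT, hyx, hay⟩ := mA y hy
    obtain ⟨hzT, hzx, haz⟩ := mA z hz
    have hyz : y ≠ z := by
      rintro rfl
      have h6 := h.class_bound hP (by omega) hx hyT hyx.symm hay (U := {v, v'}) (by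
        intro s hs
        simp only [mem_insert, mem_singleton] at hs
        rcases hs with rfl | rfl <;> assumption) (by
        intro s hs
        simp only [mem_insert, mem_singleton] at hs
        rcases hs with rfl | rfl <;> assumption) (v := v) (by simp)
      rw [if_pos (hocc y hyT hyx)] at h6
      have h7 : 1 ≤ nd G ({v, v'} : Finset V) v :=
        card_pos.2 ⟨v', mem_filter.2 ⟨by simp, hne, hn⟩⟩
      omega
    obtain ⟨u, hu, huW, hk⟩ := h.mis_heavy hr hP hx hax ho hocc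
      (fun w hw y hy s hs hys h1 h2 h3 => h.heavy_once hP hOA (by omega) hy hs hys h1 h2 hw h3)
      hyT hzT hyx hzx hyz hv hv'W ev ev' hne.symm hn
    have hA2 := h.A_gen hR hP hx (Y := insert u (WW G r Z T)) (by
      intro s hs
      rcases mem_insert.1 hs with rfl | hs
      · exact hu
      · exact WW_sub hs)
    have hN := NE_insert7 (G := G) huW
    have hN2 := nd_le_card (G := G) (WW G r Z T) u
    rw [sum_insert huW, sum_eq_zero hk0, card_insert_of_notMem huW, h5, hax, hN] at hA2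
    omega
  · -- a free row
    obtain ⟨f, hf⟩ : ∃ f, f = frs G r Z T A := ⟨_, rfl⟩
    obtain ⟨Y, hY, hYc⟩ := exists_subset_card_eq (show 5 + f ≤ (WW G r Z T).card by omega)
    have h1 := main Y hY
    rw [hYc, ← hf] at h1
    rw [← hf] at hf0
    have hfA : f ≤ A.card := by omega
    have hAR : A.card + 4 ≤ R := by omega
    obtain ⟨k, hk⟩ : ∃ k, R = f + 4 + k := ⟨R - (f + 4), by omega⟩
    subst hk
    have h2 : 2 * (f + 4 + k) * (5 + f) + 3 * (5 + f) ≤ 8 * (f + 4 + k) + (5 + f) * (5 + f)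
        + 2 * (f + k) + 4 * f := by omega
    have h3 : f * f + 2 * k * f ≤ 3 * f + 2 := by nlinarith
    rcases Nat.lt_or_ge f 4 with h4 | h4
    · have h5 : 4 ≤ f + k := by omega
      interval_cases f <;> omega
    · nlinarith

/-- **frames with at most `t + 4` doubles do not exist (`9 ≤ r`)** -/
theorem dead_four (hr : 9 ≤ r) (hP : PG G r) (h : S2 G r m t Z T) (hbr : (BB G Z T).card ≤ r)
    (hb : (BB G Z T).card ≤ t + 4) : False := by
  rcases Nat.lt_or_ge (BB G Z T).card (t + 4) with hlt | hge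
  · exact h.dead_three (by omega) hP hbr (by omega)
  have hbe := h.b_eq
  have hcT := h.cardT
  have hpos : ∀ y ∈ T, 1 ≤ a G r Z T y := fun y hy => h.a_pos hy
  have hsum : ∀ S ⊆ T, S.card ≤ ∑ y ∈ S, a G r Z T y := by
    intro S hS
    rw [card_eq_sum_ones]
    exact sum_le_sum fun y hy => hpos y (hS hy)
  have er : ∀ S ⊆ T, ∀ y ∈ S, ∑ z ∈ S, a G r Z T z = a G r Z T y + ∑ z ∈ S.erase y, a G r Z T z ∧
      (S.erase y).card + 1 = S.card ∧ (S.erase y).card ≤ ∑ z ∈ S.erase y, a G r Z T z :=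
    fun S hS y hy => ⟨(add_sum_erase _ _ hy).symm, card_erase_add_one hy,
      hsum _ ((erase_subset _ _).trans hS)⟩
  have all1 : ∀ S ⊆ T, (∑ z ∈ S, a G r Z T z ≤ S.card) → ∀ y ∈ S, a G r Z T y = 1 := by
    intro S hS h1 y hy
    obtain ⟨h2, h3, h4⟩ := er S hS y hy
    have := hpos y (hS hy)
    omega
  have ex2 : ∀ S ⊆ T, S.card + 1 ≤ ∑ z ∈ S, a G r Z T z → ∃ y ∈ S, 2 ≤ a G r Z T y := by
    intro S hS h1
    by_contra hcon
    push Not at hcon
    have h2 : ∑ z ∈ S, a G r Z T z ≤ ∑ z ∈ S, 1 :=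
      sum_le_sum fun z hz => by have := hcon z hz; omega
    rw [← card_eq_sum_ones] at h2
    omega
  -- the first row
  obtain ⟨x, hx, hx2⟩ := ex2 T (Subset.refl _) (by omega)
  obtain ⟨s1, s2, s3⟩ := er T (Subset.refl _) x hx
  have sx : T.erase x ⊆ T := erase_subset _ _
  by_cases c1 : a G r Z T x = 4
  · exact h.no_4 hr hP hbr hx c1 fun s hs hsx => all1 _ sx (by omega) s (mem_erase.2 ⟨hsx, hs⟩)
  obtain ⟨y, hy, hy2⟩ := ex2 (T.erase x) sx (by omega)
  obtain ⟨hyx, hyT⟩ := mem_erase.1 hy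
  obtain ⟨t1, t2, t3⟩ := er (T.erase x) sx y hy
  have sy : (T.erase x).erase y ⊆ T := (erase_subset _ _).trans sx
  by_cases c2 : a G r Z T x + a G r Z T y = 5
  · have ho : ∀ s ∈ T, s ≠ x → s ≠ y → a G r Z T s = 1 := fun s hs hsx hsy =>
      all1 _ sy (by omega) s (mem_erase.2 ⟨hsy, mem_erase.2 ⟨hsx, hs⟩⟩)
    have c3 : (a G r Z T x = 3 ∧ a G r Z T y = 2) ∨ (a G r Z T x = 2 ∧ a G r Z T y = 3) := by
      omega
    rcases c3 with ⟨c3, c4⟩ | ⟨c3, c4⟩
    · exact h.no_32 hr hP hx hyT hyx.symm c3 c4 ho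
    · exact h.no_32 hr hP hyT hx hyx c4 c3 fun s hs h1 h2 => ho s hs h2 h1
  obtain ⟨z, hz, hz2⟩ := ex2 ((T.erase x).erase y) sy (by omega)
  obtain ⟨hzy, hz'⟩ := mem_erase.1 hz
  obtain ⟨hzx, hzT⟩ := mem_erase.1 hz'
  obtain ⟨u1, u2, u3⟩ := er ((T.erase x).erase y) sy z hz
  have sz : ((T.erase x).erase y).erase z ⊆ T := (erase_subset _ _).trans sy
  refine h.no_222 hr hP hx hyT hzT hyx.symm hzx.symm hzy.symm (by omega) (by omega) (by omega) ?_
  intro s hs h1 h2 h3
  exact all1 _ sz (by omega) s (mem_erase.2 ⟨h3, mem_erase.2 ⟨h2, mem_erase.2 ⟨h1, hs⟩⟩⟩)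

end S2

end Pool.Agent.Lib.MP_f04ccf_co
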