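import Mathlib

/-!
MP_f04ccf_co, PLAN W, closed form (note 16785): the part of the certificate with the factor `R`.
`rp_row`: the supporting plane of `O p / y`, `y = p + d`.  `rp_sum`: with `1 ≤ p`, `0 ≤ d`, `y ≤ O`,
`∑ p = O + pi`, `∑ d = O - sig`, `sig ≥ pi ≥ 1`:
`∑ O p / y ≥ O + pi + (b - 1) (b - 2) - (b - 1) (b - 2)² / O`.
`rp_cs`: the sum of `(y₁ - y) / y` by Cauchy.
-/

set_option autoImplicit false

namespace Pool.Agent.Lib.MP_f04ccf_co

open Finset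

section RPart

/-- `p / (p + d)` is concave in `p`: the chord from `1` to `q` -/
lemma rp_chord {p d q : ℝ} (h1 : 1 ≤ p) (hd : 0 ≤ d) (hq : p ≤ q) :
    (q - p) * (1 / (1 + d)) + (p - 1) * (q / (q + d)) ≤ (q - 1) * (p / (p + d)) := by
  have hy : 0 < p + d := by linarith
  have h0 : 0 < 1 + d := by linarith
  have hQ : 0 < q + d := by linarith
  have e : (q - 1) * (p / (p + d)) - ((q - p) * (1 / (1 + d)) + (p - 1) * (q / (q + d)))
      = (q - 1) * (d * (p - 1) * (q - p)) / ((p + d) * (1 + d) * (q + d)) := by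
    field_simp
    ring
  have h2 : 0 ≤ (q - 1) * (d * (p - 1) * (q - p)) / ((p + d) * (1 + d) * (q + d)) := by
    refine div_nonneg (mul_nonneg (by linarith) (mul_nonneg (mul_nonneg hd (by linarith))
      (by linarith))) (by positivity)
  linarith

/-- **the supporting plane** of `O p / (p + d)` (any real `b`) -/
theorem rp_row {p d O b : ℝ} (h1 : 1 ≤ p) (hd : 0 ≤ d) (hO : p + d ≤ O) :
    p - (2 * b - 3) * p / O - (b - 1) ^ 2 * d / O + (2 * b - 3) - (b - 2) ^ 2 / O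
      ≤ O * p / (p + d) := by
  have hO0 : 0 < O := by linarith
  have hy : 0 < p + d := by linarith
  have h0 : 0 < 1 + d := by linarith
  have hOne : O ≠ 0 := hO0.ne'
  -- the end `p = 1`
  have g1 : 1 - (2 * b - 3) * 1 / O - (b - 1) ^ 2 * d / O + (2 * b - 3) - (b - 2) ^ 2 / O
      ≤ O * (1 / (1 + d)) := by
    have e : O * (1 / (1 + d)) - (1 - (2 * b - 3) * 1 / O - (b - 1) ^ 2 * d / O + (2 * b - 3)
        - (b - 2) ^ 2 / O) = (O - (b - 1) * (1 + d)) ^ 2 / (O * (1 + d)) := by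
      field_simp
      ring
    have h2 : 0 ≤ (O - (b - 1) * (1 + d)) ^ 2 / (O * (1 + d)) := by positivity
    linarith
  -- the end `p = O - d`
  have g2 : (O - d) - (2 * b - 3) * (O - d) / O - (b - 1) ^ 2 * d / O + (2 * b - 3)
      - (b - 2) ^ 2 / O ≤ O * ((O - d) / ((O - d) + d)) := by
    have e : O * ((O - d) / ((O - d) + d)) - ((O - d) - (2 * b - 3) * (O - d) / O
        - (b - 1) ^ 2 * d / O + (2 * b - 3) - (b - 2) ^ 2 / O) = (b - 2) ^ 2 * (d + 1) / O := by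
      have e1 : (O - d) + d = O := by ring
      rw [e1]
      field_simp
      ring
    have h2 : 0 ≤ (b - 2) ^ 2 * (d + 1) / O := by positivity
    linarith
  set q := O - d with hqd
  have hq : p ≤ q := by linarith
  rcases eq_or_lt_of_le (h1.trans hq) with h3 | h3
  · -- `q = 1`
    have h4 : p = 1 := by linarith
    rw [h4, mul_div_assoc O 1 (1 + d)]
    exact g1
  · have h5 := rp_chord h1 hd hq
    have h6 : 0 < q - 1 := by linarith
    have h7 : (q - 1) * (p - (2 * b - 3) * p / O - (b - 1) ^ 2 * d / O + (2 * b - 3)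
        - (b - 2) ^ 2 / O) ≤ (q - 1) * (O * (p / (p + d))) := by
      have h8 := mul_le_mul_of_nonneg_left g1 (by linarith : 0 ≤ q - p)
      have h9 := mul_le_mul_of_nonneg_left g2 (by linarith : 0 ≤ p - 1)
      have h10 := mul_le_mul_of_nonneg_left h5 hO0.le
      have e : (q - 1) * (p - (2 * b - 3) * p / O - (b - 1) ^ 2 * d / O + (2 * b - 3)
          - (b - 2) ^ 2 / O)
          = (q - p) * (1 - (2 * b - 3) * 1 / O - (b - 1) ^ 2 * d / O + (2 * b - 3)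
            - (b - 2) ^ 2 / O)
          + (p - 1) * (q - (2 * b - 3) * q / O - (b - 1) ^ 2 * d / O + (2 * b - 3)
            - (b - 2) ^ 2 / O) := by
        ring
      rw [e]
      calc _ ≤ (q - p) * (O * (1 / (1 + d))) + (p - 1) * (O * (q / (q + d))) := add_le_add h8 h9
        _ = O * ((q - p) * (1 / (1 + d)) + (p - 1) * (q / (q + d))) := by ring
        _ ≤ O * ((q - 1) * (p / (p + d))) := h10
        _ = _ := by ring
    have h8 := le_of_mul_le_mul_left h7 h6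
    rw [mul_div_assoc O p (p + d)]
    exact h8

variable {ι : Type*} {V : Finset ι}

/-- **the R-part** -/
theorem rp_sum {p d : ι → ℝ} {O π σ : ℝ} (h1 : ∀ z ∈ V, 1 ≤ p z) (hd : ∀ z ∈ V, 0 ≤ d z)
    (hO : ∀ z ∈ V, p z + d z ≤ O) (hp : ∑ z ∈ V, p z = O + π) (hds : ∑ z ∈ V, d z = O - σ)
    (hπ : 1 ≤ π) (hσ : π ≤ σ) (hV : 0 < V.card) :
    O + π + ((V.card : ℝ) - 1) * (V.card - 2)
        - ((V.card : ℝ) - 1) * ((V.card : ℝ) - 2) ^ 2 / O
      ≤ ∑ z ∈ V, O * p z / (p z + d z) := by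
  obtain ⟨z₀, hz₀⟩ := card_pos.1 hV
  have hO0 : 0 < O := by
    have a1 := h1 z₀ hz₀
    have a2 := hd z₀ hz₀
    have a3 := hO z₀ hz₀
    linarith
  set b : ℝ := (V.card : ℝ) with hb
  have h2 : ∑ z ∈ V, (p z - (2 * b - 3) * p z / O - (b - 1) ^ 2 * d z / O + (2 * b - 3)
      - (b - 2) ^ 2 / O) ≤ ∑ z ∈ V, O * p z / (p z + d z) :=
    sum_le_sum fun z hz => rp_row (h1 z hz) (hd z hz) (hO z hz)
  have h3 : ∑ z ∈ V, (p z - (2 * b - 3) * p z / O - (b - 1) ^ 2 * d z / O + (2 * b - 3)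
      - (b - 2) ^ 2 / O) = (O + π) - (2 * b - 3) * (O + π) / O - (b - 1) ^ 2 * (O - σ) / O
        + b * (2 * b - 3) - b * ((b - 2) ^ 2 / O) := by
    rw [sum_sub_distrib, sum_add_distrib, sum_sub_distrib, sum_sub_distrib, sum_const, sum_const,
      ← sum_div, ← sum_div, ← mul_sum, ← mul_sum, hp, hds, nsmul_eq_mul, nsmul_eq_mul]
  have h4 : (O + π) - (2 * b - 3) * (O + π) / O - (b - 1) ^ 2 * (O - σ) / O
        + b * (2 * b - 3) - b * ((b - 2) ^ 2 / O)
      - (O + π + (b - 1) * (b - 2) - (b - 1) * (b - 2) ^ 2 / O)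
      = ((b - 2) ^ 2 * (π - 1) + (b - 1) ^ 2 * (σ - π)) / O := by
    field_simp
    ring
  have h5 : 0 ≤ ((b - 2) ^ 2 * (π - 1) + (b - 1) ^ 2 * (σ - π)) / O := by
    refine div_nonneg ?_ hO0.le
    have a1 : 0 ≤ (b - 2) ^ 2 * (π - 1) := mul_nonneg (sq_nonneg _) (by linarith)
    have a2 : 0 ≤ (b - 1) ^ 2 * (σ - π) := mul_nonneg (sq_nonneg _) (by linarith)
    linarith
  linarith

/-- **Cauchy for the rows besides the hub**: `∑ (y₁ - y) / y ≥ m² y₁ / ∑ y - m` -/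
theorem rp_cs {y : ι → ℝ} {y₁ : ℝ} (hy : ∀ z ∈ V, 0 < y z) (h1 : 0 ≤ y₁) (hV : 0 < V.card) :
    (V.card : ℝ) ^ 2 * y₁ / ∑ z ∈ V, y z - V.card ≤ ∑ z ∈ V, (y₁ - y z) / y z := by
  have hY : 0 < ∑ z ∈ V, y z := sum_pos hy (card_pos.1 hV)
  have e : ∑ z ∈ V, (y₁ - y z) / y z = y₁ * ∑ z ∈ V, (1 / y z) - V.card := by
    rw [mul_sum, ← nsmul_one, ← sum_const, ← sum_sub_distrib]
    refine sum_congr rfl fun z hz => ?_
    have := (hy z hz).ne'
    field_simp
  rw [e]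
  have h2 : (V.card : ℝ) ^ 2 / ∑ z ∈ V, y z ≤ ∑ z ∈ V, (1 / y z) := by
    have h3 := sq_sum_div_le_sum_sq_div V (fun _ => (1 : ℝ)) hy
    simpa using h3
  have h3 := mul_le_mul_of_nonneg_left h2 h1
  have e2 : (V.card : ℝ) ^ 2 * y₁ / ∑ z ∈ V, y z = y₁ * ((V.card : ℝ) ^ 2 / ∑ z ∈ V, y z) := by
    ring
  rw [e2]
  linarith

end RPart

end Pool.Agent.Lib.MP_f04ccf_co
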