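import Mathlib.Tactic

/-!
MP_f04ccf_co, note 15928 (T4): the tests of one row in the form used by the numeric lemma.  `R = r - 1`,
`s = |S z| - r`, `m = 1 - s`, `t = R - |C z|`, `τ` the split cover number, `E2` twice the number of
missing pairs of the slot, `N2` twice the excess caused by the members with missing class points in
the cover, `x2 = q (q + 3)` the price of the residual front, `v2` twice the violation of the test.
-/

set_option autoImplicit false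

namespace Pool.Agent.Lib.MP_f04ccf_co

/-- a row with `s ≥ 1`: P slope 1 on the slot -/
theorem row_nu_pos {R s t τ N2 E2 : ℤ} (hs : 1 ≤ s) (hst : s ≤ R - t) (h1 : 2 * R * s ≤ E2)
    (h2 : E2 ≤ 2 * τ * t + s * (s + 1) + 2 + N2) :
    2 * R ≤ 2 * t * (τ + 1 - s) + 4 + N2 := by
  have h3 : 0 ≤ (s - 1) * (R - t - s) := mul_nonneg (by linarith) (by linarith)
  have h4 : 0 ≤ (s - 1) * (s - 2) := by
    rcases le_or_gt s 1 with h | h
    · have : s = 1 := le_antisymm h hs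
      subst this
      norm_num
    · exact mul_nonneg (by linarith) (by linarith)
  nlinarith

/-- sharper form: what is left over -/
theorem row_nu_pos' {R s t τ N2 E2 : ℤ} (h1 : 2 * R * s ≤ E2)
    (h2 : E2 ≤ 2 * τ * t + s * (s + 1) + 2 + N2) :
    2 * R + 2 * (s - 1) * (R - t - s) + (s - 1) * (s - 2) ≤ 2 * t * (τ + 1 - s) + 4 + N2 := by
  nlinarith

/-- a row with `s = 0` -/
theorem row_nu_zero {R t τ N2 E2 x2 v2 : ℤ} (h1 : 2 * R ≤ 2 * t + E2 + 2 + x2 + v2)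
    (h2 : E2 ≤ 2 * τ * t + 2 + N2) : 2 * R ≤ 2 * t * (τ + 1) + 4 + x2 + v2 + N2 := by
  nlinarith

/-- a row with `s ≤ -1`, `m = 1 - s ≥ 2` -/
theorem row_nu_neg {R m t τ N2 E2 x2 v2 : ℤ}
    (h1 : 2 * R ≤ 2 * m * t + E2 + m * (3 - m) + x2 + v2)
    (h2 : E2 ≤ 2 * τ * (t + 2 - m) + N2) :
    2 * R ≤ 2 * t * (τ + m) + m * (3 - m) - 2 * τ * (m - 2) + x2 + v2 + N2 := by
  nlinarith

/-- uniform form of `row_nu_neg` -/
theorem row_nu_neg' {R m t τ N2 E2 x2 v2 : ℤ} (hm : 2 ≤ m) (hτ : 0 ≤ τ)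
    (h1 : 2 * R ≤ 2 * m * t + E2 + m * (3 - m) + x2 + v2)
    (h2 : E2 ≤ 2 * τ * (t + 2 - m) + N2) :
    2 * R ≤ 2 * t * (τ + m) + 2 + x2 + v2 + N2 := by
  have h3 := row_nu_neg h1 h2
  have h4 : 0 ≤ τ * (m - 2) := mul_nonneg hτ (by linarith)
  have h5 : 0 ≤ (m - 1) * (m - 2) := mul_nonneg (by linarith) (by linarith)
  nlinarith

/-- **every row**: `L = 2 + x + v + N` -/
theorem row_nu {R s t τ N2 E2 x2 v2 : ℤ} (hst : s ≤ R - t) (hτ : 0 ≤ τ) (hx : 0 ≤ x2)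
    (hv : 0 ≤ v2) (hP : 0 < s → 2 * R * s ≤ E2)
    (hr : s ≤ 0 → 2 * R ≤ 2 * (1 - s) * t + E2 + (1 - s) * (3 - (1 - s)) + x2 + v2)
    (h2 : 0 ≤ s → E2 ≤ 2 * τ * t + s * (s + 1) + 2 + N2)
    (h2' : s < 0 → E2 ≤ 2 * τ * (t + s + 1) + N2) :
    2 * R ≤ 2 * t * (τ + 1 - s) + 4 + x2 + v2 + N2 := by
  rcases lt_trichotomy s 0 with h | h | h
  · have h3 := row_nu_neg' (m := 1 - s) (by linarith) hτ (hr h.le) (by
      have := h2' h
      have h4 : t + 2 - (1 - s) = t + s + 1 := by ring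
      rw [h4]
      exact this)
    have h5 : τ + (1 - s) = τ + 1 - s := by ring
    rw [h5] at h3
    linarith
  · subst h
    have h3 := row_nu_zero (R := R) (t := t) (τ := τ) (N2 := N2) (E2 := E2) (x2 := x2) (v2 := v2)
      (by linarith [hr le_rfl]) (by
      linarith [h2 le_rfl] : E2 ≤ 2 * τ * t + 2 + N2)
    linarith
  · have h3 := row_nu_pos (by linarith) hst (hP h) (h2 h.le)
    linarith

/-- an overfull row: `w` located points, `w = m + o`, front `W` only.  `h1` is `CSys.row_loc0` with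
`NE W ≤ w (w - 1)`, `h = t + s + 1 = t + 2 - m` -/
theorem row_over {R s t τ w N2 E2 v2 : ℤ}
    (h1 : 2 * R * (s + w) ≤ 2 * w * (t + s + 1) + E2 + w * (w - 1) + v2)
    (h2 : E2 ≤ 2 * τ * t + s * (s + 1) + 2 + N2) :
    2 * R * (s + w) ≤ 2 * (τ + w) * t + (s + w) * (s + w + 1) + 2 + N2 + v2 := by
  nlinarith

/-- the same with `s < 0` -/
theorem row_over' {R s t τ w N2 E2 v2 : ℤ}
    (h1 : 2 * R * (s + w) ≤ 2 * w * (t + s + 1) + E2 + w * (w - 1) + v2)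
    (h2 : E2 ≤ 2 * τ * (t + s + 1) + N2) :
    2 * R * (s + w) ≤ 2 * (τ + w) * t + 2 * (τ + w) * (s + 1) + w * (w - 1) + N2 + v2 := by
  nlinarith

end Pool.Agent.Lib.MP_f04ccf_co
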