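import Pool.Agent.Lib.MP_f04ccf_co.M.EnumU
import Pool.Agent.Lib.MP_f04ccf_co.M.LemFE
import Pool.Agent.Lib.MP_f04ccf_co.M.RowNu

/-!
MP_f04ccf_co: the raw host bound in closed form (piece (N1) of STATE 6, note 16276).  The T-form of
LEMMA F (`2 e ≤ 2 τ t + s (s + 1) + 2 + ..`) has no term in `a`, the number of members in the cover;
members with missing class points in the cover are counted by `a`, so this term matters.  `arcs_T`: the
arcs have at most `(τ - a) t + (g - a)^+` missing pairs.  `pen a s` is the term.  `BR` extends 94's `BT`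
with the exact excess `ε` (46's `eps2`, doubled) and the bound of the arcs; `BR.raw`, `BR.raw'` are the
two bounds for the number of missing pairs, `raw_nu` is the test of a row, `raw_over` the test of an
overfull row.  In every place where the T-form is used for a row with `s ≥ 0` one may replace the
excess `2 N` by `ε - 2 - pen a s`.
-/

set_option autoImplicit false

namespace Pool.Agent.Lib.MP_f04ccf_co

open Finset

attribute [local instance] Classical.propDecidable

section Arith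

variable {ι : Type*}

/-- **the arcs of a row**: `Σ w b ≤ (Σ b) t + (g - a)^+ + Σ b ex` -/
theorem arcs_T (B : Finset ι) (b w ex : ι → ℕ) {a h t : ℕ} {g : ℤ} (hh : (h : ℤ) = t + g)
    (hw : a + ∑ z ∈ B, w z ≤ h) (hC : ∀ z ∈ B, 2 ≤ b z → w z ≤ t + ex z) :
    ∑ z ∈ B, (w z : ℤ) * b z
      ≤ (∑ z ∈ B, (b z : ℤ)) * t + max 0 (g - a) + ∑ z ∈ B, (b z : ℤ) * ex z := by
  set B1 : Finset ι := B.filter (fun z => b z = 1) with hB1
  have h1 : ∀ z ∈ B, (w z : ℤ) * b z ≤ (b z : ℤ) * t + b z * ex z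
      + (if b z = 1 then (w z : ℤ) - t else 0) := by
    intro z hz
    by_cases hb1 : b z = 1
    · rw [if_pos hb1, hb1]
      push_cast
      have : (0 : ℤ) ≤ ex z := by positivity
      linarith
    · rw [if_neg hb1]
      rcases Nat.eq_zero_or_pos (b z) with h0 | h0
      · rw [h0]
        simp
      · have h2 : w z ≤ t + ex z := hC z hz (by omega)
        have h3 : (w z : ℤ) ≤ t + ex z := by exact_mod_cast h2
        have h4 : (0 : ℤ) ≤ b z := by positivity
        nlinarith
  have h2 := sum_le_sum h1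
  rw [sum_add_distrib, sum_add_distrib, ← sum_mul, ← sum_filter, ← hB1, sum_sub_distrib,
    sum_const, nsmul_eq_mul] at h2
  have h3 : (a : ℤ) + ∑ z ∈ B1, (w z : ℤ) ≤ h := by
    have h4 : ∑ z ∈ B1, w z ≤ ∑ z ∈ B, w z := sum_le_sum_of_subset (filter_subset _ _)
    have h5 : a + ∑ z ∈ B1, w z ≤ h := by omega
    exact_mod_cast h5
  have h6 : (0 : ℤ) ≤ t := by positivity
  have h9 := le_max_left (0 : ℤ) (g - a)
  have h10 := le_max_right (0 : ℤ) (g - a)
  rcases B1.eq_empty_or_nonempty with h7 | h7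
  · rw [h7, sum_empty, card_empty] at h2
    push_cast at h2
    linarith
  · have h8 : (1 : ℤ) ≤ B1.card := by exact_mod_cast card_pos.2 h7
    have h11 : (t : ℤ) ≤ B1.card * t := by nlinarith
    rw [hh] at h3
    linarith

/-- the term in the number `a` of members of the cover, doubled (`≥ -2`) -/
def pen (a s : ℤ) : ℤ := if s < a then (a - s) * (a - s - 1) else (s - a) * (s - a - 1) - 2

lemma pen_of_lt {a s : ℤ} (h : s < a) : pen a s = (a - s) * (a - s - 1) := if_pos h

lemma pen_of_le {a s : ℤ} (h : a ≤ s) : pen a s = (s - a) * (s - a - 1) - 2 :=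
  if_neg (not_lt.2 h)

lemma pen_ge (a s : ℤ) : -2 ≤ pen a s := by
  rcases lt_or_ge s a with h | h
  · rw [pen_of_lt h]
    have : 0 ≤ (a - s) * (a - s - 1) := mul_nonneg (by omega) (by omega)
    linarith
  · rw [pen_of_le h]
    rcases eq_or_lt_of_le h with h1 | h1
    · rw [h1]
      norm_num
    · have : 0 ≤ (s - a) * (s - a - 1) := mul_nonneg (by omega) (by omega)
      linarith

lemma pen_nonneg {a s : ℤ} (h : s < a) : 0 ≤ pen a s := by
  rw [pen_of_lt h]
  exact mul_nonneg (by omega) (by omega)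

/-- `2 a g - a (a + 1) + 2 (g - a)^+ = s (s + 1) - pen a s` with `g = s + 1` -/
lemma pen_eq (a s : ℤ) :
    2 * a * (s + 1) - a * (a + 1) + 2 * max 0 (s + 1 - a) = s * (s + 1) - pen a s := by
  rcases lt_or_ge s a with h | h
  · rw [pen_of_lt h, max_eq_left (by omega)]
    ring
  · rw [pen_of_le h, max_eq_right (by omega)]
    ring

/-- **the raw host bound** from the raw form and the bound of the arcs, with the term `pen` -/
theorem raw_T {s t τ a h W E2 ε : ℤ} (hh : h = t + s + 1)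
    (h1 : E2 + a * (a + 1) ≤ 2 * a * h + 2 * W + ε)
    (h2 : W ≤ (τ - a) * t + max 0 (s + 1 - a)) :
    E2 ≤ 2 * τ * t + s * (s + 1) - pen a s + ε := by
  have h3 := pen_eq a s
  subst hh
  nlinarith

/-- **the raw host bound**, thin rows: the arcs see at most `h - a` members -/
theorem raw_H {τ a h W E2 ε : ℤ} (h1 : E2 + a * (a + 1) ≤ 2 * a * h + 2 * W + ε)
    (h2 : W ≤ (τ - a) * (h - a)) :
    E2 ≤ 2 * τ * h - 2 * a * τ + a * (a - 1) + ε := by
  nlinarith

/-- **the test of every row in the raw form**: `L = 1 + x + v + (ε - pen) / 2` -/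
theorem raw_nu {R s t τ a ε E2 x2 v2 : ℤ} (hst : s ≤ R - t) (hx : 0 ≤ x2) (hv : 0 ≤ v2)
    (hP : 0 < s → 2 * R * s ≤ E2)
    (hr : s ≤ 0 → 2 * R ≤ 2 * (1 - s) * t + E2 + (1 - s) * (3 - (1 - s)) + x2 + v2)
    (h2 : E2 ≤ 2 * τ * t + s * (s + 1) - pen a s + ε) :
    2 * R + pen a s ≤ 2 * t * (τ + 1 - s) + 2 + x2 + v2 + ε := by
  rcases lt_or_ge 0 s with h | h
  · have h3 := hP h
    have h4 : 0 ≤ (s - 1) * (R - t - s) := mul_nonneg (by omega) (by linarith)
    have h5 : 0 ≤ (s - 1) * (s - 2) := by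
      rcases eq_or_lt_of_le (show 1 ≤ s by omega) with h6 | h6
      · rw [← h6]
        norm_num
      · exact mul_nonneg (by omega) (by omega)
    nlinarith
  · have h3 := hr h
    nlinarith

/-- the same row, members of the cover more than `s` -/
theorem raw_nu_lt {R s t τ a ε E2 x2 v2 : ℤ} (hst : s ≤ R - t) (hx : 0 ≤ x2) (hv : 0 ≤ v2)
    (hP : 0 < s → 2 * R * s ≤ E2)
    (hr : s ≤ 0 → 2 * R ≤ 2 * (1 - s) * t + E2 + (1 - s) * (3 - (1 - s)) + x2 + v2)
    (ha : s < a) (h2 : E2 ≤ 2 * τ * t + s * (s + 1) - pen a s + ε) :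
    2 * R + (a - s) * (a - s - 1) ≤ 2 * t * (τ + 1 - s) + 2 + x2 + v2 + ε := by
  have h3 := raw_nu hst hx hv hP hr h2
  rwa [pen_of_lt ha] at h3

/-- **an overfull row** (`w` located points): as `row_over` with the term `pen` -/
theorem raw_over {R s t τ a w ε E2 v2 : ℤ}
    (h1 : 2 * R * (s + w) ≤ 2 * w * (t + s + 1) + E2 + w * (w - 1) + v2)
    (h2 : E2 ≤ 2 * τ * t + s * (s + 1) - pen a s + ε) :
    2 * R * (s + w) + pen a s ≤ 2 * (τ + w) * t + (s + w) * (s + w + 1) + ε + v2 := by
  nlinarith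

/-- **the price of the members with missing class points, test side**: `q ≤ a` of them.  With
`ε ≤ 2 K` the excess over the T-form without them is at most `2 K - (q - s) (q - s - 1)` -/
theorem pen_mono {a q s : ℤ} (h1 : s < q) (h2 : q ≤ a) : (q - s) * (q - s - 1) ≤ pen a s := by
  rw [pen_of_lt (by omega)]
  nlinarith

/-- **the trade-off of one group** of `k` equal members with `κ` missing class points, weights `n` for
the tests and `ω` for the over-coverage: `2 n κ - 2 ω κ ^ 2 ≤ n ^ 2 / (2 ω)` -/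
theorem trade_one {n κ ω : ℚ} (hω : 0 < ω) : 2 * n * κ - 2 * ω * κ ^ 2 ≤ n ^ 2 / (2 * ω) := by
  rw [le_div_iff₀ (by linarith)]
  nlinarith [sq_nonneg (n - 2 * ω * κ)]

end Arith

section Slot

variable {V : Type*} {G : SimpleGraph V} {Z T : Finset V} {hm : V → V} {r m t : ℕ}
  {A : Finset V} {S : V → Finset V} {x : V} {X : Finset V} {Y : V → Finset V}

/-- **the arcs of a minimum split cover**: `W ≤ (τ - a) t + (s + 1 - a)^+` -/
theorem CSys.arcs_le (hr : 6 ≤ r) (hP : PG G r) (hF : S2 G r m t Z T) (hh : Homes G Z T hm)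
    (h : CSys G Z T hm A S) (hctr : ∀ y ∈ A, y ∈ S y) (hx : x ∈ A)
    (hM : MinSp G Z T hm A S x X Y)
    (hD : ∀ z ∈ A.erase x, r - 1 + 4 ≤ (CP G Z T S x).card + (CP G Z T S z).card) :
    ∑ z ∈ A.erase x, ((WN (co G) (tlo G T hm) (HP G Z T S x) (CP G Z T S x) X z).card : ℤ)
        * (Y z).card
      ≤ ((tcv G Z T hm A S x : ℤ) - X.card) * ((r : ℤ) - 1 - (CP G Z T S x).card)
        + max 0 (((S x).card : ℤ) - r + 1 - X.card) := by
  have h0 := h.CP_le hF hx
  have h1 := arcs_T (A.erase x) (fun z => (Y z).card)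
    (fun z => (WN (co G) (tlo G T hm) (HP G Z T S x) (CP G Z T S x) X z).card) (fun _ => 0)
    (a := X.card) (h := (HP G Z T S x).card) (t := r - 1 - (CP G Z T S x).card)
    (g := ((S x).card : ℤ) - r + 1) (by
      have := card_CP_HP (G := G) (Z := Z) (T := T) (S := S) (x := x)
      omega) hM.WN_sum (fun z hz hb => by
      have h2 := ((h.arc_lemC hr hP hF hh hctr hx hM.subY hM.cov hM.card hz (by omega)
        (hD z hz)).2.1 hb).2
      omega)
  have h2 := hM.card
  have h3 : ∑ z ∈ A.erase x, ((Y z).card : ℤ) = (tcv G Z T hm A S x : ℤ) - X.card := by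
    rw [← h2]
    push_cast
    ring
  have h4 : ((r - 1 - (CP G Z T S x).card : ℕ) : ℤ) = (r : ℤ) - 1 - (CP G Z T S x).card := by omega
  rw [h3, h4] at h1
  have h5 : ∑ z ∈ A.erase x, ((Y z).card : ℤ) * (((fun _ => 0 : V → ℕ) z : ℕ) : ℤ) = 0 := by
    refine sum_eq_zero fun z _ => ?_
    push_cast
    ring
  rw [h5] at h1
  linarith

/-- **raw LEMMA F with the exact excess for a slot** -/
theorem CSys.NE_raw_eps (hF : PFrame G r m t Z T) (hh : Homes G Z T hm)
    (h : CSys G Z T hm A S) (hctr : ∀ y ∈ A, y ∈ S y) (hx : x ∈ A)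
    (hM : MinSp G Z T hm A S x X Y) :
    (NE G (S x) : ℤ) + (X.card : ℤ) * (X.card + 1) ≤ 2 * (X.card : ℤ) * (HP G Z T S x).card
      + 2 * ∑ z ∈ A.erase x, ((WN (co G) (tlo G T hm) (HP G Z T S x) (CP G Z T S x) X z).card : ℤ)
        * (Y z).card
      + eps2 (co G) (HP G Z T S x) (CP G Z T S x) X := by
  have h1 := lemFE_raw (F := co G) (tl := tlo G T hm) (B := A.erase x)
    CP_HP_disjoint.symm (h.CP_co hF hx) hM.sub hM.cov
    (fun v hv a ha hva => (h.pc_tail hF hh hctr hx hv ha hva).1)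
  have h3 : HP G Z T S x ∪ CP G Z T S x = S x := by
    rw [union_comm]
    exact CP_union_HP
  rw [h3, ← NE_eq_E] at h1
  linarith

/-- **LEMMA F with the exact excess and the term in `a`** -/
theorem CSys.NE_pen (hr : 6 ≤ r) (hP : PG G r) (hF : S2 G r m t Z T) (hh : Homes G Z T hm)
    (h : CSys G Z T hm A S) (hctr : ∀ y ∈ A, y ∈ S y) (hx : x ∈ A)
    (hM : MinSp G Z T hm A S x X Y)
    (hD : ∀ z ∈ A.erase x, r - 1 + 4 ≤ (CP G Z T S x).card + (CP G Z T S z).card) :
    (NE G (S x) : ℤ) ≤ 2 * (tcv G Z T hm A S x : ℤ) * ((r : ℤ) - 1 - (CP G Z T S x).card)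
      + (((S x).card : ℤ) - r) * (((S x).card : ℤ) - r + 1)
      - pen X.card (((S x).card : ℤ) - r) + eps2 (co G) (HP G Z T S x) (CP G Z T S x) X :=
  raw_T (h := ((HP G Z T S x).card : ℤ)) card_HP_int
    (h.NE_raw_eps hF.toPFrame hh hctr hx hM) (h.arcs_le hr hP hF hh hctr hx hM hD)

end Slot

section Enum

variable {V : Type*} {G : SimpleGraph V} {Z T : Finset V} {hm : V → V} {r m t : ℕ}

variable (G Z T hm) in
/-- twice the true excess of the slot -/
noncomputable def epI (S : Finset V) (X : V → Finset V) (x : V) : ℤ :=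
  eps2 (co G) (HP G Z T (fun x => S.filter fun v => hm v = x) x)
    (CP G Z T (fun x => S.filter fun v => hm v = x) x) (X x)

variable (G Z T hm) in
/-- the number of members of the cover with missing class points -/
noncomputable def qI (S : Finset V) (X : V → Finset V) (x : V) : ℤ :=
  ((NX (co G) (CP G Z T (fun x => S.filter fun v => hm v = x) x) (X x)).card : ℤ)

/-- **the basic integers with covers in the raw form**: `ε i` twice the true excess, `q i` the number
of members of the cover with missing class points -/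
structure BR (R : ℤ) (n : ℕ) (t s h e : ℕ → ℤ) (E : ℕ → ℕ → ℤ) (τ a N W ε q : ℕ → ℤ) : Prop
    extends BT R n t s h e E τ a N W where
  q0 : ∀ i, i < n → 0 ≤ q i
  qa : ∀ i, i < n → q i ≤ a i
  εN : ∀ i, i < n → ε i ≤ 2 * N i
  ε0 : ∀ i, i < n → q i = 0 → ε i = 0
  eR : ∀ i, i < n → 2 * e i + a i * (a i + 1) ≤ 2 * a i * h i + 2 * W i + ε i
  WC : ∀ i, i < n → W i ≤ (τ i - a i) * t i + max 0 (s i + 1 - a i)

namespace BR

variable {R : ℤ} {n : ℕ} {t s h e : ℕ → ℤ} {E : ℕ → ℕ → ℤ} {τ a N W ε q : ℕ → ℤ}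

/-- **the T-form minus the term in `a`** -/
theorem raw (H : BR R n t s h e E τ a N W ε q) {i : ℕ} (hi : i < n) :
    2 * e i ≤ 2 * τ i * t i + s i * (s i + 1) - pen (a i) (s i) + ε i :=
  raw_T (H.hh i hi) (H.eR i hi) (H.WC i hi)

/-- **the bound for thin rows** -/
theorem raw' (H : BR R n t s h e E τ a N W ε q) {i : ℕ} (hi : i < n) :
    2 * e i ≤ 2 * τ i * h i - 2 * a i * τ i + a i * (a i - 1) + ε i :=
  raw_H (H.eR i hi) (H.WL i hi)

/-- rows with `s < 0`, uniform: `2 e ≤ 2 τ (t + s + 1) - a (a + 1) + ε` -/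
theorem raw_neg (H : BR R n t s h e E τ a N W ε q) {i : ℕ} (hi : i < n) :
    2 * e i + a i * (a i + 1) ≤ 2 * τ i * (t i + s i + 1) + ε i := by
  have h1 := H.raw' hi
  have h2 := H.hh i hi
  have h3 := H.aτ i hi
  have h4 := H.a0 i hi
  rw [← h2]
  nlinarith

end BR

variable {A S : Finset V} {X : V → Finset V} {Y : V → V → Finset V}

/-- **the integers of at least four rows in the raw form**, from 94's `BT` -/
theorem HSys.br (hr : 6 ≤ r) (hF : S2 G r m t Z T) (hPG : PG G r) (hm' : Homes G Z T hm)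
    (h : HSys G Z T A S) (h4 : 4 ≤ A.card)
    (hh : ∀ v ∈ S, hm v ∈ A ∧ hm v ∈ rws G T v)
    (hM : ∀ x ∈ A, MinSp G Z T hm A (fun x => S.filter fun v => hm v = x) x (X x) (Y x))
    {ρ : V → ℕ} {σ : ℕ → V} (hσ : Rank A (tI G Z T hm r S) ρ σ)
    (hB : BI ((r : ℤ) - 1) A.card (fun i => tI G Z T hm r S (σ i)) (fun i => sI hm r S (σ i))
        (fun i => hI G Z T hm S (σ i)) (fun i => eI G hm S (σ i))
        (fun i j => EI G hm S (σ i) (σ j))) :
    BR ((r : ℤ) - 1) A.card (fun i => tI G Z T hm r S (σ i)) (fun i => sI hm r S (σ i))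
        (fun i => hI G Z T hm S (σ i)) (fun i => eI G hm S (σ i))
        (fun i j => EI G hm S (σ i) (σ j)) (fun i => tauI G Z T hm A S (σ i))
        (fun i => aI X (σ i)) (fun i => nI G Z T hm S X (σ i))
        (fun i => wI G Z T hm A S X Y (σ i)) (fun i => epI G Z T hm S X (σ i))
        (fun i => qI G Z T hm S X (σ i)) := by
  have hFP := hF.toPFrame
  have hC := h.csys hFP hh
  have hctr := h.ctr_slot hFP hh
  have hD : ∀ x ∈ A, ∀ z ∈ A.erase x,
      r - 1 + 4 ≤ (CP G Z T (fun x => S.filter fun v => hm v = x) x).card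
        + (CP G Z T (fun x => S.filter fun v => hm v = x) z).card := by
    intro x hx z hz
    have h1 := hB.st
    rw [← hσ.sum (tI G Z T hm r S)] at h1
    obtain ⟨hzx, hzA⟩ := mem_erase.1 hz
    have h2 : tI G Z T hm r S x + tI G Z T hm r S z ≤ ∑ y ∈ A, tI G Z T hm r S y := by
      rw [← add_sum_erase A _ hx, ← add_sum_erase (A.erase x) _ hz]
      have h3 : 0 ≤ ∑ y ∈ (A.erase x).erase z, tI G Z T hm r S y :=
        sum_nonneg fun y hy => h.tI_nonneg hF hh (mem_of_mem_erase (mem_of_mem_erase hy))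
      linarith
    have h3 := card_CP_eq (G := G) (Z := Z) (T := T) (hm := hm) (r := r) S x
    have h5 := card_CP_eq (G := G) (Z := Z) (T := T) (hm := hm) (r := r) S z
    have h6 : (4 : ℤ) ≤ A.card := by exact_mod_cast h4
    have h7 : ((r : ℤ) - 1) + 4 ≤ ((CP G Z T (fun x => S.filter fun v => hm v = x) x).card : ℤ)
        + (CP G Z T (fun x => S.filter fun v => hm v = x) z).card := by
      rw [h3, h5]
      linarith
    omega
  have hxA : ∀ i, i < A.card → σ i ∈ A := fun i hi => hσ.mem i hi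
  refine { h.bt hr hF hPG hm' h4 hh hM hσ hB with
    q0 := fun i _ => Nat.cast_nonneg _
    qa := fun i _ => ?_
    εN := fun i hi => ?_
    ε0 := fun i _ hq => ?_
    eR := fun i hi => ?_
    WC := fun i hi => ?_ }
  · unfold qI aI
    exact_mod_cast card_le_card (filter_subset _ _)
  · have h1 := eps2_le (F := co G) (P := CP G Z T (fun x => S.filter fun v => hm v = x) (σ i))
      (hM _ (hxA i hi)).sub
    have h2 : ∑ v ∈ NX (co G) (CP G Z T (fun x => S.filter fun v => hm v = x) (σ i)) (X (σ i)),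
        (dg (co G) (CP G Z T (fun x => S.filter fun v => hm v = x) (σ i)) v : ℤ)
        ≤ nI G Z T hm S X (σ i) := by
      unfold nI
      refine (sum_le_sum_of_subset_of_nonneg (filter_subset _ _)
        fun _ _ _ => Nat.cast_nonneg _).trans (sum_le_sum fun v hv => ?_)
      have h9 : dg (co G) (CP G Z T (fun x => S.filter fun v => hm v = x) (σ i)) v
          ≤ nd G (CP G Z T (fun x => S.filter fun v => hm v = x) (σ i)) v := by
        unfold dg nd
        refine card_le_card fun u hu => ?_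
        obtain ⟨h10, h11⟩ := mem_filter.1 hu
        exact mem_filter.2 ⟨h10, (co_adj.1 h11).1.symm, (co_adj.1 h11).2⟩
      exact_mod_cast h9
    unfold epI
    linarith
  · have h1 : NX (co G) (CP G Z T (fun x => S.filter fun v => hm v = x) (σ i)) (X (σ i)) = ∅ := by
      unfold qI at hq
      rw [← card_eq_zero]
      exact_mod_cast hq
    change eps2 (co G) _ _ (X (σ i)) = 0
    unfold eps2
    rw [h1, sum_empty]
  · have h1 := hC.NE_raw_eps hFP hm' hctr (hxA i hi) (hM _ (hxA i hi))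
    have h2 := two_eI (G := G) (hm := hm) S (σ i)
    change 2 * eI G hm S (σ i) + aI X (σ i) * (aI X (σ i) + 1)
      ≤ 2 * aI X (σ i) * hI G Z T hm S (σ i) + 2 * wI G Z T hm A S X Y (σ i)
        + epI G Z T hm S X (σ i)
    rw [h2]
    exact h1
  · have h1 := hC.arcs_le hr hPG hF hm' hctr (hxA i hi) (hM _ (hxA i hi)) (hD _ (hxA i hi))
    exact h1

end Enum

end Pool.Agent.Lib.MP_f04ccf_co
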