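import Pool.Agent.Lib.MP_f04ccf_co.M.RowA

/-!
MP_f04ccf_co, PLAN W: the row test with partial columns (RA, `M/RowA`), transports.
`WCoreK.rowA_homeP`, `WCoreK.rowA_tailP`: the rectangle of a PC pair with all its missed points.
`WHom.upt_same`: the same-host saving in the form of the hypothesis of (RA).
`WItK.rowa`: over the row index.
-/

set_option autoImplicit false

namespace Pool.Agent.Lib.MP_f04ccf_co

open Finset

attribute [local instance] Classical.propDecidable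

section RowAP

variable {V : Type*} {G : SimpleGraph V} {Z T : Finset V} {hm : V → V} {r m n p : ℕ}
  {B : V → Finset (V × V)} {Ps : V → Finset (Finset V)}

/-- the arcs of a PC pair -/
lemma WCoreK.iar_inr (h : WCoreK G Z T r m n p hm) {x : V} (hx : x ∈ T)
    (hpk : Pk G (cz G Z T hm x) (hz G Z T hm x) (tlo G T hm) (B x) (Ps x)) {e : V × V}
    (he : e ∈ B x) :
    iar G (cz G Z T hm x) (Sum.inr e) = (msd G (cz G Z T hm x) e.1).card := by
  unfold iar imem
  rw [sum_singleton]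
  rfl

/-- **(RA) with a PC pair of the host `x` with tail `y`**: all its missed points at home without the PC
class points, or its free arcs; all its missed points at the tail -/
theorem WCoreK.rowA_homeP (hp : 2 * r ≤ p) (h : WCoreK G Z T r m n p hm)
    (hpk : ∀ x ∈ T, Pk G (cz G Z T hm x) (hz G Z T hm x) (tlo G T hm) (B x) (Ps x))
    {x y : V} (hx : x ∈ T) (hy : y ∈ T) (hxy : x ≠ y) {K : Finset (Itm V)}
    (hK : K ⊆ (T.erase x).biUnion fun x => pkf (B x) (Ps x))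
    (h0 : 0 ≤ sI hm r Z x + 1 + ∑ u ∈ K, (ikp (tlo G T hm) x u : ℤ)) {e : V × V}
    (he : e ∈ B x) (hey : tlo G T hm e.1 = y) {sv : ℤ}
    (hsv : (NE G (upt G T hm K x) : ℤ) + sv + (upt G T hm K x).card
      ≤ ((upt G T hm K x).card : ℤ) * (upt G T hm K x).card)
    {a b : ℕ} (ha : (a : ℤ) ≤ nui G (cz G Z T hm x) (tlo G T hm) (B x) y (Sum.inr e)
      ∨ (a : ℤ) ≤ (iar G (cz G Z T hm x) (Sum.inr e) : ℤ) - pcn (tlo G T hm) B x y)
    (hb : (b : ℤ) ≤ (iar G (cz G Z T hm x) (Sum.inr e) : ℤ)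
      - ∑ u ∈ K, (if u ∈ pkf (B y) (Ps y) then (ipc u : ℤ) * ikp (tlo G T hm) x u else 0)) :
    RowAI G Z T hm r B Ps K x y a b sv := by
  have hF := h.F.toPFrame
  have hvH := (hpk x hx).bH e he
  have hcell := h.csys.cellD hF hx hy hxy
  have hvD := h.csys.mem_Dbl_of_tlo h.hh hx hvH hey
  have h1 := h.iar_inr hx (hpk x hx) he
  have h4 := h.msd_le hp hx hvH hey
  have h5 : msd G (cz G Z T hm y) e.1 \ upt G T hm K x
      = msd G (cz G Z T hm y) e.1 \ (cz G Z T hm y ∩ upt G T hm K x) := by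
    ext a
    rw [mem_sdiff, mem_sdiff, mem_inter]
    constructor
    · rintro ⟨h4, h5⟩
      exact ⟨h4, fun h6 => h5 h6.2⟩
    · rintro ⟨h4, h5⟩
      exact ⟨h4, fun h6 => h5 ⟨((h.mem_msd hx hy hvH).1 h4).1, h6⟩⟩
  have a2 := card_sdiff_ge (msd G (cz G Z T hm y) e.1)
    (cz G Z T hm y ∩ upt G T hm K x) (h.upt_cols hpk hy hK)
  rw [← h5] at a2
  have hbb : b ≤ (msd G (cz G Z T hm y) e.1 \ upt G T hm K x).card := by
    rw [h1] at hb
    have h6 : ((msd G (cz G Z T hm x) e.1).card : ℤ) ≤ ((msd G (cz G Z T hm y) e.1).card : ℤ) := by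
      exact_mod_cast h4
    have h7 : (b : ℤ) ≤ ((msd G (cz G Z T hm y) e.1).card : ℤ)
        - ∑ u ∈ K, (if u ∈ pkf (B y) (Ps y) then (ipc u : ℤ) * ikp (tlo G T hm) x u else 0) := by
      linarith
    have : (b : ℤ) ≤ _ := h7.trans ((le_max_right _ _).trans a2)
    exact_mod_cast this
  rcases ha with ha | ha
  · refine h.rowA_num hpk hx hy hxy hK h0
      (X1 := frC G (cz G Z T hm x) (tlo G T hm) (B x) e.1) (Y1 := msd G (cz G Z T hm y) e.1)
      (fun a ha => (mem_frC.1 ha).1)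
      (fun f hf h6 => ?_) (fun a ha => ((h.mem_msd hx hy hvH).1 ha).1)
      (fun a ha c hc => ?_) hsv ?_ hbb
    · obtain ⟨h7, h8⟩ := mem_pcs.1 hf
      exact (mem_frC.1 h6).2.2 f h7 rfl (h8.trans hey.symm)
    · obtain ⟨a1, a2, -⟩ := mem_frC.1 ha
      obtain ⟨a3, a4⟩ := (h.mem_msd hx hy hvH).1 hc
      exact hcell.rect e.1 hvD a a1 c a3 a2 a4
    · rw [nui_inr, if_pos hey] at ha
      exact_mod_cast ha
  · have a1 := card_sdiff_ge (msd G (cz G Z T hm x) e.1)
      ((pcs (tlo G T hm) (B x) y).image Prod.snd) (q := pcn (tlo G T hm) B x y) (by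
        unfold pcn
        exact_mod_cast card_image_le)
    refine h.rowA_num hpk hx hy hxy hK h0
      (X1 := msd G (cz G Z T hm x) e.1 \ (pcs (tlo G T hm) (B x) y).image Prod.snd)
      (Y1 := msd G (cz G Z T hm y) e.1)
      (fun a ha => ((h.mem_msd hx hx hvH).1 (mem_sdiff.1 ha).1).1)
      (fun f hf h6 => (mem_sdiff.1 h6).2 (mem_image_of_mem _ hf))
      (fun a ha => ((h.mem_msd hx hy hvH).1 ha).1)
      (fun a ha c hc => ?_) hsv ?_ hbb
    · obtain ⟨a1, a2⟩ := (h.mem_msd hx hx hvH).1 (mem_sdiff.1 ha).1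
      obtain ⟨a3, a4⟩ := (h.mem_msd hx hy hvH).1 hc
      exact hcell.rect e.1 hvD a a1 c a3 a2 a4
    · rw [h1] at ha
      have : (a : ℤ) ≤ _ := ha.trans ((le_max_right _ _).trans a1)
      exact_mod_cast this

/-- **(RA) with a PC pair of the host `y` with tail `x`**: all its missed points at the tail without the
PC class points; its free arcs, or all its missed points at home off the used class points -/
theorem WCoreK.rowA_tailP (hp : 2 * r ≤ p) (h : WCoreK G Z T r m n p hm)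
    (hpk : ∀ x ∈ T, Pk G (cz G Z T hm x) (hz G Z T hm x) (tlo G T hm) (B x) (Ps x))
    {x y : V} (hx : x ∈ T) (hy : y ∈ T) (hxy : x ≠ y) {K : Finset (Itm V)}
    (hK : K ⊆ (T.erase x).biUnion fun x => pkf (B x) (Ps x))
    (h0 : 0 ≤ sI hm r Z x + 1 + ∑ u ∈ K, (ikp (tlo G T hm) x u : ℤ)) {e : V × V}
    (he : e ∈ B y) (hex : tlo G T hm e.1 = x) {sv : ℤ}
    (hsv : (NE G (upt G T hm K x) : ℤ) + sv + (upt G T hm K x).card
      ≤ ((upt G T hm K x).card : ℤ) * (upt G T hm K x).card)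
    {a b : ℕ} (ha : (a : ℤ) ≤ (iar G (cz G Z T hm y) (Sum.inr e) : ℤ)
      - pcn (tlo G T hm) B x y)
    (hb : (b : ℤ) ≤ nui G (cz G Z T hm y) (tlo G T hm) (B y) x (Sum.inr e)
      ∨ (b : ℤ) ≤ (iar G (cz G Z T hm y) (Sum.inr e) : ℤ)
      - ∑ u ∈ K, (if u ∈ pkf (B y) (Ps y) then (ipc u : ℤ) * ikp (tlo G T hm) x u else 0)) :
    RowAI G Z T hm r B Ps K x y a b sv := by
  have hF := h.F.toPFrame
  have hfam : ∀ x ∈ T, Fam (co G) (cz G Z T hm) (hz G Z T hm) (tlo G T hm) x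
      (pkf (B x) (Ps x)) := fun x hx => (hpk x hx).fam (h.csys.dCH hx hx).symm
  have hvH := (hpk y hy).bH e he
  have hcell := h.csys.cellD hF hy hx hxy.symm
  have hvD := h.csys.mem_Dbl_of_tlo h.hh hy hvH hex
  have h1 := h.iar_inr hy (hpk y hy) he
  have h4 := h.msd_le hp hy hvH hex
  have a1 := card_sdiff_ge (msd G (cz G Z T hm x) e.1)
    ((pcs (tlo G T hm) (B x) y).image Prod.snd) (q := pcn (tlo G T hm) B x y) (by
      unfold pcn
      exact_mod_cast card_image_le)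
  have haa : a ≤ (msd G (cz G Z T hm x) e.1
      \ (pcs (tlo G T hm) (B x) y).image Prod.snd).card := by
    rw [h1] at ha
    have h6 : ((msd G (cz G Z T hm y) e.1).card : ℤ) ≤ ((msd G (cz G Z T hm x) e.1).card : ℤ) := by
      exact_mod_cast h4
    have h7 : (a : ℤ) ≤ ((msd G (cz G Z T hm x) e.1).card : ℤ) - pcn (tlo G T hm) B x y := by
      linarith
    have : (a : ℤ) ≤ _ := h7.trans ((le_max_right _ _).trans a1)
    exact_mod_cast this
  rcases hb with hb | hb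
  · have c1 : frC G (cz G Z T hm y) (tlo G T hm) (B y) e.1 \ upt G T hm K x
        = frC G (cz G Z T hm y) (tlo G T hm) (B y) e.1 := by
      refine sdiff_eq_self_of_disjoint (disjoint_left.2 fun a ha h4 => ?_)
      obtain ⟨a1, a2, a3⟩ := mem_frC.1 ha
      obtain ⟨u, hu, h7⟩ := mem_biUnion.1 h4
      obtain ⟨hu1, hu2⟩ := mem_filter.1 hu
      obtain ⟨x', hx', hux'⟩ := mem_biUnion.1 (hK hu1)
      obtain ⟨f, rfl, h8, h9, h10⟩ := Fam.cls_pt h.wsysT hfam (mem_of_mem_erase hx') hy hux'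
        hu2 (fun Q => one1_sub _) h7 a1
      exact a3 f (inr_mem_pkf.1 (h10 ▸ hux')) h8 (h9.trans hex.symm)
    refine h.rowA_num hpk hx hy hxy hK h0
      (X1 := msd G (cz G Z T hm x) e.1 \ (pcs (tlo G T hm) (B x) y).image Prod.snd)
      (Y1 := frC G (cz G Z T hm y) (tlo G T hm) (B y) e.1)
      (fun a ha => ((h.mem_msd hy hx hvH).1 (mem_sdiff.1 ha).1).1)
      (fun f hf h6 => (mem_sdiff.1 h6).2 (mem_image_of_mem _ hf))
      (fun a ha => (mem_frC.1 ha).1) (fun a ha c hc => ?_) hsv haa ?_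
    · obtain ⟨a1, a2⟩ := (h.mem_msd hy hx hvH).1 (mem_sdiff.1 ha).1
      obtain ⟨a3, a4, -⟩ := mem_frC.1 hc
      exact (hcell.rect e.1 hvD c a3 a a1 a4 a2).symm
    · rw [c1]
      rw [nui_inr, if_pos hex] at hb
      exact_mod_cast hb
  · have h5 : msd G (cz G Z T hm y) e.1 \ upt G T hm K x
        = msd G (cz G Z T hm y) e.1 \ (cz G Z T hm y ∩ upt G T hm K x) := by
      ext a
      rw [mem_sdiff, mem_sdiff, mem_inter]
      constructor
      · rintro ⟨h4, h5⟩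
        exact ⟨h4, fun h6 => h5 h6.2⟩
      · rintro ⟨h4, h5⟩
        exact ⟨h4, fun h6 => h5 ⟨((h.mem_msd hy hy hvH).1 h4).1, h6⟩⟩
    have a2 := card_sdiff_ge (msd G (cz G Z T hm y) e.1)
      (cz G Z T hm y ∩ upt G T hm K x) (h.upt_cols hpk hy hK)
    rw [← h5] at a2
    refine h.rowA_num hpk hx hy hxy hK h0
      (X1 := msd G (cz G Z T hm x) e.1 \ (pcs (tlo G T hm) (B x) y).image Prod.snd)
      (Y1 := msd G (cz G Z T hm y) e.1)
      (fun a ha => ((h.mem_msd hy hx hvH).1 (mem_sdiff.1 ha).1).1)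
      (fun f hf h6 => (mem_sdiff.1 h6).2 (mem_image_of_mem _ hf))
      (fun a ha => ((h.mem_msd hy hy hvH).1 ha).1) (fun a ha c hc => ?_) hsv haa ?_
    · obtain ⟨a1, a2⟩ := (h.mem_msd hy hx hvH).1 (mem_sdiff.1 ha).1
      obtain ⟨a3, a4⟩ := (h.mem_msd hy hy hvH).1 hc
      exact (hcell.rect e.1 hvD c a3 a a1 a4 a2).symm
    · rw [h1] at hb
      have : (b : ℤ) ≤ _ := hb.trans ((le_max_right _ _).trans a2)
      exact_mod_cast this

/-- **the same-host saving as a hypothesis of (RA)** -/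
theorem WHom.upt_same (h : WHom G Z T r m n hm)
    {host : Itm V → V} {ρ : V → ℕ} {σ : ℕ → V}
    (hpk : ∀ x ∈ T, Pk G (cz G Z T hm x) (hz G Z T hm x) (tlo G T hm) (B x) (Ps x))
    (min : ∀ x ∈ T, ∀ B' Ps', Pk G (cz G Z T hm x) (hz G Z T hm x) (tlo G T hm) B' Ps' →
      (Ps x).card ≤ Ps'.card)
    (hst : ∀ x ∈ T, ∀ u ∈ pkf (B x) (Ps x), host u = x)
    (rk : Rank T (tI G Z T hm r Z) ρ σ) {z : V} (hz' : z ∈ T) {K : Finset (Itm V)}
    (hK : K ⊆ (T.erase z).biUnion fun x => pkf (B x) (Ps x)) :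
    (NE G (upt G T hm K z) : ℤ)
      + ∑ x ∈ range n, ((K.filter fun u => ρ (host u) = x
            ∧ (ikp (tlo G T hm) z u : ℤ) = (ivl u : ℤ)).card : ℤ)
          * (((K.filter fun u => ρ (host u) = x
            ∧ (ikp (tlo G T hm) z u : ℤ) = (ivl u : ℤ)).card : ℤ) - 1)
      + (upt G T hm K z).card
      ≤ ((upt G T hm K z).card : ℤ) * (upt G T hm K z).card := by
  have hcard := h.cardT
  have hfam : ∀ x ∈ T, Fam (co G) (cz G Z T hm) (hz G Z T hm) (tlo G T hm) x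
      (pkf (B x) (Ps x)) := fun x hx => (hpk x hx).fam (h.csys.dCH hx hx).symm
  obtain ⟨K', hK'⟩ : ∃ K', K' = K.filter fun u => ikp (tlo G T hm) z u ≠ 0 := ⟨_, rfl⟩
  have hKK : K' ⊆ K := by
    rw [hK']
    exact filter_subset _ _
  have hk : ∀ u ∈ K', ikp (tlo G T hm) z u ≠ 0 := by
    intro u hu
    rw [hK'] at hu
    exact (mem_filter.1 hu).2
  obtain ⟨F, hF⟩ : ∃ F, F = K'.filter fun u => (ikp (tlo G T hm) z u : ℤ) = (ivl u : ℤ) := ⟨_, rfl⟩
  have hFK : F ⊆ K' := by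
    rw [hF]
    exact filter_subset _ _
  have hmemU : ∀ u ∈ K, ∃ x ∈ T, u ∈ pkf (B x) (Ps x) ∧ host u = x := by
    intro u hu
    obtain ⟨x, hx, hux⟩ := mem_biUnion.1 (hK hu)
    exact ⟨x, mem_of_mem_erase hx, hux, hst x (mem_of_mem_erase hx) u hux⟩
  have e3 : ∀ j, (K.filter fun u => ρ (host u) = j
        ∧ (ikp (tlo G T hm) z u : ℤ) = (ivl u : ℤ))
      = F.filter fun u => ρ (host u) = j := by
    intro j
    ext u
    simp only [hF, hK', mem_filter]
    constructor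
    · rintro ⟨h1, h2, h3⟩
      refine ⟨⟨⟨h1, ?_⟩, h3⟩, h2⟩
      obtain ⟨x, hx, hux, -⟩ := hmemU u h1
      have h4 := (hfam x hx).ivl_pos hux
      intro h5
      rw [h5] at h3
      have h6 : ivl u = 0 := by exact_mod_cast h3.symm
      omega
    · rintro ⟨⟨⟨h1, -⟩, h3⟩, h2⟩
      exact ⟨h1, h2, h3⟩
  obtain ⟨D, hDd⟩ : ∃ D, D = (F ×ˢ F).filter fun e => e.1 ≠ e.2 ∧ ρ (host e.1) = ρ (host e.2) :=
    ⟨_, rfl⟩
  have e4 : (D.card : ℤ) = ∑ j ∈ range n, ((F.filter fun u => ρ (host u) = j).card : ℤ)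
      * (((F.filter fun u => ρ (host u) = j).card : ℤ) - 1) := by
    rw [← card_same F (fun u => ρ (host u)) (range n) fun u hu => by
      obtain ⟨x, hx, -, h1⟩ := hmemU u (hKK (hFK hu))
      show ρ (host u) ∈ range n
      rw [h1]
      have := rk.lt x hx
      rw [hcard] at this
      exact mem_range.2 this]
    have e9 : ∀ s s' : Finset (Itm V × Itm V), (∀ e, e ∈ s ↔ e ∈ s') →
        (s.card : ℤ) = (s'.card : ℤ) := fun s s' h => by rw [Finset.ext h]
    exact e9 _ _ fun e => by simp only [hDd, mem_filter]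
  simp only [e3]
  rw [← e4]
  have hX2 : ∀ Q, (oth (tlo G T hm) z Q).Nonempty → 1 ≤ (one1 (oth (tlo G T hm) z Q)).card := by
    intro Q hQ
    unfold one1
    rw [dif_pos hQ, card_singleton]
  have hg := Fam.grp h.wsysT hfam (D := T.erase z) (erase_subset _ _)
    (hKK.trans hK) (z := z) (X := fun Q => one1 (oth (tlo G T hm) z Q)) (fun Q => one1_sub _)
  have hfil : (K'.filter fun u => ikp (tlo G T hm) z u ≠ 0) = K' := filter_true_of_mem hk
  rw [hfil] at hg
  have hne := NE_grp_le (G := G) (K := K')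
    (P := rpts (tlo G T hm) (fun Q => one1 (oth (tlo G T hm) z Q)) z)
    (fun u hu v hv huv => hg.dis u hu v hv huv) (D := D) (by
      intro e he
      rw [hDd] at he
      obtain ⟨h7, h8, h9⟩ := mem_filter.1 he
      obtain ⟨ha, hb⟩ := mem_product.1 h7
      have haK := hFK ha
      have hbK := hFK hb
      rw [hF] at ha hb
      have ha2 := (mem_filter.1 ha).2
      have hb2 := (mem_filter.1 hb).2
      obtain ⟨x, hx, hux, hxx⟩ := hmemU e.1 (hKK haK)
      obtain ⟨y, hy, huy, hyy⟩ := hmemU e.2 (hKK hbK)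
      have hxy : x = y := by
        rw [hxx, hyy] at h9
        have h10 := rk.left x hx
        rw [h9, rk.left y hy] at h10
        exact h10.symm
      subst hxy
      refine ⟨haK, hbK, ?_⟩
      obtain ⟨p, hp, q, hq, hpq⟩ := Pk.adj_full h.F.toPFrame h.hh h.csys h.ht hx (hpk x hx)
        (min x hx) hux huy h8 (by exact_mod_cast ha2) (by exact_mod_cast hb2)
      rw [rpts_full (fun Q => one1_sub _) hX2 (fun Q hQ => (hfam x hx).two Q (hQ ▸ hux))
          (by exact_mod_cast ha2),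
        rpts_full (fun Q => one1_sub _) hX2 (fun Q hQ => (hfam x hx).two Q (hQ ▸ huy))
          (by exact_mod_cast hb2)]
      exact ⟨p, hp, q, hq, hpq⟩)
  have h10 : upt G T hm K z
      = K'.biUnion (rpts (tlo G T hm) (fun Q => one1 (oth (tlo G T hm) z Q)) z) := by
    rw [hK']
    rfl
  rw [h10]
  exact_mod_cast hne

end RowAP

section RowAX

variable {V : Type*} {G : SimpleGraph V} {Z T : Finset V} {hm : V → V} {r m n p : ℕ}
  {φ : Finset (V × V) → Finset (Finset V) → ℕ} {B : V → Finset (V × V)}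
  {Ps : V → Finset (Finset V)} {host : Itm V → V} {ρ : V → ℕ} {σ : ℕ → V}

/-- **(RA) over the row index**, the form of a field: `w` any item whose missed points are the rectangle
`a × b`, with the same-host saving -/
theorem WItK.rowa (hp : 2 * r ≤ p) (h : WCoreK G Z T r m n p hm)
    (H : WItK G Z T hm r n φ B Ps host ρ σ) {i j : ℕ} (hi : i < n) (hj : j < n) (hij : i ≠ j)
    {K : Finset (Itm V)} (hK : K ⊆ T.biUnion fun x => pkf (B x) (Ps x))
    (hKh : ∀ u ∈ K, ρ (host u) ≠ i)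
    (h0 : 0 ≤ sI hm r Z (σ i) + 1 + ∑ u ∈ K, (ikp (tlo G T hm) (σ i) u : ℤ)) {w : Itm V}
    (hw : w ∈ T.biUnion fun x => pkf (B x) (Ps x)) {a b P : ℤ} (ha : 0 ≤ a) (hb : 0 ≤ b)
    (hP : ∑ u ∈ K, (if ρ (host u) = j then (ipc u : ℤ) * ikp (tlo G T hm) (σ i) u else 0) ≤ P)
    (hab : (a ≤ (ims G (cz G Z T hm) (tlo G T hm) (σ i) w : ℤ)
          - pcn (tlo G T hm) B (σ i) (σ j)
        ∧ b ≤ (ims G (cz G Z T hm) (tlo G T hm) (σ j) w : ℤ) - P)
      ∨ (ρ (host w) = i ∧ (ivl w : ℤ) = 1 ∧ (ikp (tlo G T hm) (σ j) w : ℤ) ≠ 0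
        ∧ ((a ≤ (nui G (cz G Z T hm (host w)) (tlo G T hm) (B (host w)) (σ j) w : ℤ)
            ∧ b ≤ (nui G (cz G Z T hm (host w)) (tlo G T hm) (B (host w)) (σ j) w : ℤ)
              + (ipc w : ℤ) - P)
          ∨ ((ipc w : ℤ) = 1
            ∧ (a ≤ (nui G (cz G Z T hm (host w)) (tlo G T hm) (B (host w)) (σ j) w : ℤ)
              ∨ a ≤ (iar G (cz G Z T hm (host w)) w : ℤ) - pcn (tlo G T hm) B (σ i) (σ j))
            ∧ b ≤ (iar G (cz G Z T hm (host w)) w : ℤ) - P)))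
      ∨ (ρ (host w) = j ∧ (ivl w : ℤ) = 1 ∧ (ikp (tlo G T hm) (σ i) w : ℤ) ≠ 0
        ∧ ((a ≤ (nui G (cz G Z T hm (host w)) (tlo G T hm) (B (host w)) (σ i) w : ℤ)
              + (ipc w : ℤ) - pcn (tlo G T hm) B (σ i) (σ j)
            ∧ b ≤ (nui G (cz G Z T hm (host w)) (tlo G T hm) (B (host w)) (σ i) w : ℤ))
          ∨ ((ipc w : ℤ) = 1
            ∧ a ≤ (iar G (cz G Z T hm (host w)) w : ℤ) - pcn (tlo G T hm) B (σ i) (σ j)
            ∧ (b ≤ (nui G (cz G Z T hm (host w)) (tlo G T hm) (B (host w)) (σ i) w : ℤ)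
              ∨ b ≤ (iar G (cz G Z T hm (host w)) w : ℤ) - P))))) :
    2 * (((r : ℤ) - 1) * sI hm r Z (σ i))
      + 2 * ∑ u ∈ K, ((ikp (tlo G T hm) (σ i) u : ℤ) * ((r : ℤ) - 1 - tI G Z T hm r Z (σ i))
          - rmr G (cz G Z T hm) (tlo G T hm) (σ i) u)
      + 2 * ∑ u ∈ (T.biUnion fun x => pkf (B x) (Ps x)).filter (fun u => ρ (host u) = i),
        (b * ikp (tlo G T hm) (σ j) u
          - min b (ims G (cz G Z T hm) (tlo G T hm) (σ j) u : ℤ))
      + 2 * (a * b)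
      + ∑ x ∈ range n, ((K.filter fun u => ρ (host u) = x
            ∧ (ikp (tlo G T hm) (σ i) u : ℤ) = (ivl u : ℤ)).card : ℤ)
          * (((K.filter fun u => ρ (host u) = x
            ∧ (ikp (tlo G T hm) (σ i) u : ℤ) = (ivl u : ℤ)).card : ℤ) - 1)
      ≤ 2 * eI G hm Z (σ i)
        + 2 * (2 * (∑ u ∈ K, (ikp (tlo G T hm) (σ i) u : ℤ)) + b) * (sI hm r Z (σ i) + 1)
        + 2 * (∑ u ∈ K, (ikp (tlo G T hm) (σ i) u : ℤ))
          * (2 * (∑ u ∈ K, (ikp (tlo G T hm) (σ i) u : ℤ)) - 1)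
        + 2 * ∑ u ∈ K, (if ρ (host u) = j
            then min (iar G (cz G Z T hm (host u)) u : ℤ) (2 * b * ikp (tlo G T hm) (σ i) u)
            else 2 * b * ikp (tlo G T hm) (σ i) u) := by
  have hcard := h.cardT
  have hmem : ∀ i < n, σ i ∈ T := fun i hi => H.rk.mem i (by rw [hcard]; exact hi)
  have hx := hmem i hi
  have hy := hmem j hj
  have hne : σ i ≠ σ j := fun h1 =>
    hij (H.rk.sinj (by rw [hcard]; exact hi) (by rw [hcard]; exact hj) h1)
  have hpk := fun x hx => (H.pk x hx).toPk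
  have hmin := fun x hx => (H.pk x hx).min
  have hfil : ∀ i < n, (T.biUnion fun x => pkf (B x) (Ps x)).filter (fun u => ρ (host u) = i)
      = pkf (B (σ i)) (Ps (σ i)) := fun i hi => fil_host H.hst H.rk (by rw [hcard]; exact hi)
  have hmemU : ∀ u ∈ T.biUnion fun x => pkf (B x) (Ps x), ∀ j < n,
      (ρ (host u) = j ↔ u ∈ pkf (B (σ j)) (Ps (σ j))) := by
    intro u hu j hj
    rw [← hfil j hj, mem_filter]
    exact ⟨fun h1 => ⟨hu, h1⟩, fun h1 => h1.2⟩
  have hK' : K ⊆ (T.erase (σ i)).biUnion fun x => pkf (B x) (Ps x) := by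
    intro u hu
    obtain ⟨x, hx, hux⟩ := mem_biUnion.1 (hK hu)
    refine mem_biUnion.2 ⟨x, mem_erase.2 ⟨fun h1 => hKh u hu ?_, hx⟩, hux⟩
    show ρ (host u) = i
    rw [H.hst x hx u hux, h1]
    exact H.rk.right i (by rw [hcard]; exact hi)
  obtain ⟨a', rfl⟩ := Int.eq_ofNat_of_zero_le ha
  obtain ⟨b', rfl⟩ := Int.eq_ofNat_of_zero_le hb
  have e1 : ∀ f : Itm V → ℤ, ∑ u ∈ K, (if u ∈ pkf (B (σ j)) (Ps (σ j)) then f u else 0)
      = ∑ u ∈ K, (if ρ (host u) = j then f u else 0) := by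
    intro f
    refine sum_congr rfl fun u hu => ?_
    by_cases h2 : ρ (host u) = j
    · rw [if_pos h2, if_pos ((hmemU u (hK hu) j hj).1 h2)]
    · rw [if_neg h2, if_neg fun h3 => h2 ((hmemU u (hK hu) j hj).2 h3)]
  have hP' : ∑ u ∈ K, (if u ∈ pkf (B (σ j)) (Ps (σ j)) then
      (ipc u : ℤ) * ikp (tlo G T hm) (σ i) u else 0) ≤ P := by
    rw [e1]
    exact hP
  have hsv := h.toWHom.upt_same hpk hmin H.hst H.rk hx hK'
  obtain ⟨x', hx', hwx'⟩ := mem_biUnion.1 hw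
  have hkey : RowAI G Z T hm r B Ps K (σ i) (σ j) a' b' (∑ x ∈ range n,
        ((K.filter fun u => ρ (host u) = x
            ∧ (ikp (tlo G T hm) (σ i) u : ℤ) = (ivl u : ℤ)).card : ℤ)
          * (((K.filter fun u => ρ (host u) = x
            ∧ (ikp (tlo G T hm) (σ i) u : ℤ) = (ivl u : ℤ)).card : ℤ) - 1)) := by
    rcases hab with ⟨q1, q2⟩ | ⟨q1, q2, q3, q4⟩ | ⟨q1, q2, q3, q4⟩
    · exact h.rowA_itm hpk hx hy hne hK' h0 hx' hwx' hsv q1 (by
        show (b' : ℤ) ≤ _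
        have : (b' : ℤ) ≤ _ := q2
        linarith)
    · have hwi := (hmemU w hw i hi).1 q1
      have hhw : host w = σ i := H.hst _ hx w hwi
      rw [hhw] at q4
      have hv1 : ivl w = 1 := by exact_mod_cast q2
      have hk1 : ikp (tlo G T hm) (σ j) w ≠ 0 := fun h1 => q3 (by rw [h1]; rfl)
      rcases q4 with ⟨q5, q6⟩ | ⟨q5, q6, q7⟩
      · exact h.rowA_home hp hpk hmin hx hy hne hK' h0 hwi hv1 hk1 hsv q5 (by
          have : (b' : ℤ) ≤ _ := q6
          linarith)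
      · rcases w with Q | e
        · simp [ipc] at q5
        · have he := inr_mem_pkf.1 hwi
          have hey : tlo G T hm e.1 = σ j := by
            by_contra h1
            exact hk1 (by simp only [ikp, h1, if_false])
          exact h.rowA_homeP hp hpk hx hy hne hK' h0 he hey hsv q6 (by
            have : (b' : ℤ) ≤ _ := q7
            linarith)
    · have hwj := (hmemU w hw j hj).1 q1
      have hhw : host w = σ j := H.hst _ hy w hwj
      rw [hhw] at q4
      have hv1 : ivl w = 1 := by exact_mod_cast q2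
      have hk1 : ikp (tlo G T hm) (σ i) w ≠ 0 := fun h1 => q3 (by rw [h1]; rfl)
      rcases q4 with ⟨q5, q6⟩ | ⟨q5, q6, q7⟩
      · exact h.rowA_tail hp hpk hmin hx hy hne hK' h0 hwj hv1 hk1 hsv q5 q6
      · rcases w with Q | e
        · simp [ipc] at q5
        · have he := inr_mem_pkf.1 hwj
          have hex : tlo G T hm e.1 = σ i := by
            by_contra h1
            exact hk1 (by simp only [ikp, h1, if_false])
          refine h.rowA_tailP hp hpk hx hy hne hK' h0 he hex hsv q6 ?_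
          rcases q7 with q8 | q8
          · exact Or.inl q8
          · right
            have : (b' : ℤ) ≤ _ := q8
            linarith
  unfold RowAI at hkey
  have e2 : ∑ u ∈ K, (if ρ (host u) = j
        then min (iar G (cz G Z T hm (host u)) u : ℤ) (2 * (b' : ℤ) * ikp (tlo G T hm) (σ i) u)
        else 2 * (b' : ℤ) * ikp (tlo G T hm) (σ i) u)
      = ∑ u ∈ K, (if u ∈ pkf (B (σ j)) (Ps (σ j))
        then min (iar G (cz G Z T hm (σ j)) u : ℤ) (2 * (b' : ℤ) * ikp (tlo G T hm) (σ i) u)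
        else 2 * (b' : ℤ) * ikp (tlo G T hm) (σ i) u) := by
    refine sum_congr rfl fun u hu => ?_
    by_cases h2 : ρ (host u) = j
    · have h3 := (hmemU u (hK hu) j hj).1 h2
      rw [if_pos h2, if_pos h3, H.hst _ hy u h3]
    · rw [if_neg h2, if_neg fun h3 => h2 ((hmemU u (hK hu) j hj).2 h3)]
  rw [hfil i hi]
  show _ ≤ 2 * eI G hm Z (σ i) + _ + _ + 2 * ∑ u ∈ K, (if ρ (host u) = j
        then min (iar G (cz G Z T hm (host u)) u : ℤ) (2 * (b' : ℤ) * ikp (tlo G T hm) (σ i) u)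
        else 2 * (b' : ℤ) * ikp (tlo G T hm) (σ i) u)
  rw [e2]
  refine le_trans (le_of_eq ?_) (hkey.trans (le_of_eq ?_))
  · show 2 * (((r : ℤ) - 1) * sI hm r Z (σ i)) + _ + _ + _ + _ = _
    ring
  · ring

end RowAX

end Pool.Agent.Lib.MP_f04ccf_co
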