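import Pool.Agent.Lib.MP_f04ccf_co.M.SavX
import Pool.Agent.Lib.MP_f04ccf_co.M.RowAT

/-!
MP_f04ccf_co, PLAN W: rectangles of class edges in the row tests at any levels.

* `RecF W z y a b`: a rectangle of class edges off the PC partners of `z` with tail `y` and off the set `W`,
  with sides at least `a` (class of `z`), `b` (class of `y`);
* `WCoreK.recF_item` (misses of any item), `WCoreK.recF_home`, `WCoreK.recF_tail` (a representative of an
  item of value one of either home, in particular of a PC pair with all its missed points);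
* `WCoreK.payC_rec`: the payment of the cell; `Fam.rowAL_of`, `WHom.rowALI`: the row test with partial
  columns (RA) at levels, exact number of points, any saving, no sign condition.
-/

set_option autoImplicit false

namespace Pool.Agent.Lib.MP_f04ccf_co

open Finset

attribute [local instance] Classical.propDecidable

section RecF

variable {V : Type*} {G : SimpleGraph V} {Z T : Finset V} {hm : V → V} {r m n p : ℕ}
  {B : V → Finset (V × V)} {Ps : V → Finset (Finset V)}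

variable (G Z T hm B) in
/-- a rectangle of class edges off the PC partners of `z` with tail `y` and off the set `W`, the sides are at
least `a` and `b` -/
def RecF (W : Finset V) (z y : V) (a b : ℤ) : Prop :=
  ∃ X1 Y1 : Finset V, X1 ⊆ cz G Z T hm z ∧ (∀ e ∈ pcs (tlo G T hm) (B z) y, e.2 ∉ X1) ∧
    Y1 ⊆ cz G Z T hm y ∧ Disjoint Y1 W ∧ (∀ a ∈ X1, ∀ c ∈ Y1, G.Adj a c) ∧
    a ≤ X1.card ∧ b ≤ Y1.card

/-- the payment of the cell by a rectangle -/
theorem WCoreK.payC_rec {z j : V} {K : Finset (Itm V)} {X : Finset V → Finset V} {a b : ℤ}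
    (hb : 0 ≤ b)
    (h : RecF G Z T hm B (K.biUnion (rpts (tlo G T hm) X z)) z j a b) :
    PayC G Z T hm B Ps K X z j (a * b) := by
  obtain ⟨X1, Y1, h1, h2, h3, h4, h5, h6, h7⟩ := h
  have hpcz : pcz (tlo G T hm) j (pkf (B z) (Ps z)) = pcs (tlo G T hm) (B z) j := by
    ext e
    rw [mem_pcz, inr_mem_pkf, mem_pcs]
  refine (WCoreK.payC_rect (Ps := Ps) h1 (fun e he => h2 e (hpcz ▸ he))
    (fun c hc => mem_sdiff.2 ⟨h3 hc, fun hc' => disjoint_left.1 h4 hc hc'⟩) h5).mono ?_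
  exact mul_le_mul h6 h7 hb (Nat.cast_nonneg _)

/-- class points outside the used points -/
lemma WCoreK.outX (h : WCoreK G Z T r m n p hm)
    (hB : ∀ x ∈ T, Pk G (cz G Z T hm x) (hz G Z T hm x) (tlo G T hm) (B x) (Ps x))
    {z j : V} (hj : j ∈ T) {K : Finset (Itm V)}
    (hK : K ⊆ (T.erase z).biUnion fun x => pkf (B x) (Ps x))
    (hk : ∀ u ∈ K, ikp (tlo G T hm) z u ≠ 0) {X : Finset V → Finset V}
    (hX : ∀ Q, X Q ⊆ oth (tlo G T hm) z Q) {D : Finset V} (hD : D ⊆ cz G Z T hm j) :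
    (D.card : ℤ) - ∑ u ∈ K, (if u ∈ pkf (B j) (Ps j) then (ipc u : ℤ) else 0)
      ≤ ((D \ K.biUnion (rpts (tlo G T hm) X z)).card : ℤ) := by
  have hfam : ∀ x ∈ T, Fam (co G) (cz G Z T hm) (hz G Z T hm) (tlo G T hm) x
      (pkf (B x) (Ps x)) := fun x hx => (hB x hx).fam (h.csys.dCH hx hx).symm
  have h1 := Fam.card_colpts h.wsysT hfam hj hK hk hX
  have h3 : D \ K.biUnion (rpts (tlo G T hm) X z)
      = D \ (cz G Z T hm j ∩ K.biUnion (rpts (tlo G T hm) X z)) := by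
    ext a
    rw [mem_sdiff, mem_sdiff, mem_inter]
    constructor
    · rintro ⟨h4, h5⟩
      exact ⟨h4, fun h6 => h5 h6.2⟩
    · rintro ⟨h4, h5⟩
      exact ⟨h4, fun h6 => h5 ⟨hD h4, h6⟩⟩
  rw [h3]
  exact (le_max_right _ _).trans (card_sdiff_ge _ _ h1)

lemma RecF.mono {W : Finset V} {z y : V} {a b a' b' : ℤ} (h : RecF G Z T hm B W z y a b)
    (ha : a' ≤ a) (hb : b' ≤ b) : RecF G Z T hm B W z y a' b' := by
  obtain ⟨X1, Y1, h1, h2, h3, h4, h5, h6, h7⟩ := h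
  exact ⟨X1, Y1, h1, h2, h3, h4, h5, ha.trans h6, hb.trans h7⟩

/-- **the rectangle of any item** -/
theorem WCoreK.recF_item (h : WCoreK G Z T r m n p hm)
    (hB : ∀ x ∈ T, Pk G (cz G Z T hm x) (hz G Z T hm x) (tlo G T hm) (B x) (Ps x))
    {z j : V} (hz' : z ∈ T) (hj : j ∈ T) (hzj : z ≠ j) {K : Finset (Itm V)}
    (hK : K ⊆ (T.erase z).biUnion fun x => pkf (B x) (Ps x))
    (hk : ∀ u ∈ K, ikp (tlo G T hm) z u ≠ 0) {X : Finset V → Finset V}
    (hX : ∀ Q, X Q ⊆ oth (tlo G T hm) z Q)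
    {w : Itm V} {x' : V} (hx' : x' ∈ T) (hw : w ∈ pkf (B x') (Ps x')) :
    RecF G Z T hm B (K.biUnion (rpts (tlo G T hm) X z)) z j
      ((ims G (cz G Z T hm) (tlo G T hm) z w : ℤ) - pcn (tlo G T hm) B z j)
      ((ims G (cz G Z T hm) (tlo G T hm) j w : ℤ)
          - ∑ u ∈ K, (if u ∈ pkf (B j) (Ps j) then (ipc u : ℤ) else 0)) := by
  have hfam : ∀ x ∈ T, Fam (co G) (cz G Z T hm) (hz G Z T hm) (tlo G T hm) x
      (pkf (B x) (Ps x)) := fun x hx => (hB x hx).fam (h.csys.dCH hx hx).symm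
  refine ⟨icl G (cz G Z T hm) (tlo G T hm) z w \ (pcs (tlo G T hm) (B z) j).image Prod.snd,
    icl G (cz G Z T hm) (tlo G T hm) j w \ K.biUnion (rpts (tlo G T hm) X z),
    fun a ha => rcl_sub (mem_sdiff.1 ha).1,
    fun e he h3 => (mem_sdiff.1 h3).2 (mem_image_of_mem _ he),
    fun a ha => rcl_sub (mem_sdiff.1 ha).1, sdiff_disjoint,
    fun a ha c hc => (hfam x' hx').icl_complete h.wsysT hx' hz' hj hzj hw a (mem_sdiff.1 ha).1
      c (mem_sdiff.1 hc).1, ?_, ?_⟩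
  · have a1 := card_sdiff_ge (icl G (cz G Z T hm) (tlo G T hm) z w)
      ((pcs (tlo G T hm) (B z) j).image Prod.snd) (q := pcn (tlo G T hm) B z j) (by
        unfold pcn
        exact_mod_cast card_image_le)
    exact (le_max_right _ _).trans a1
  · exact h.outX hB hj hK hk hX rcl_sub

/-- a representative, also for a PC pair with all its missed points -/
theorem WCoreK.repP (hp : 2 * r ≤ p) (h : WCoreK G Z T r m n p hm) {x y : V} (hx : x ∈ T)
    (hpk : Pk G (cz G Z T hm x) (hz G Z T hm x) (tlo G T hm) (B x) (Ps x))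
    (hmin : ∀ B' Ps', Pk G (cz G Z T hm x) (hz G Z T hm x) (tlo G T hm) B' Ps' →
      (Ps x).card ≤ Ps'.card) {u : Itm V} (hu : u ∈ pkf (B x) (Ps x)) (h1 : ivl u = 1)
    (hk : ikp (tlo G T hm) y u ≠ 0) :
    ∃ v ∈ imem u, v ∈ hz G Z T hm x ∧ tlo G T hm v = y ∧
      nui G (cz G Z T hm x) (tlo G T hm) (B x) y u
        = (frC G (cz G Z T hm x) (tlo G T hm) (B x) v).card ∧
      (ipc u = 1 → iar G (cz G Z T hm x) u = (msd G (cz G Z T hm x) v).card) ∧
      (msd G (cz G Z T hm x) v).card ≤ (msd G (cz G Z T hm y) v).card ∧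
      max ((nui G (cz G Z T hm x) (tlo G T hm) (B x) y u : ℤ) + ipc u)
        (ims G (cz G Z T hm) (tlo G T hm) y u) ≤ ((msd G (cz G Z T hm y) v).card : ℤ) := by
  obtain ⟨v, hv, hvH, hvy, hnu, -, h4⟩ := h.rep2 hp hx hpk hmin hu h1 hk
  refine ⟨v, hv, hvH, hvy, hnu, fun h5 => ?_, h.msd_le hp hx hvH hvy, h4⟩
  rcases u with Q | e
  · simp [ipc] at h5
  · simp only [imem, mem_singleton] at hv
    rw [hv]
    exact h.iar_inr hx hpk (inr_mem_pkf.1 hu)

/-- **the rectangle of an item of value one of the home `z` with tail `j`** -/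
theorem WCoreK.recF_home (hp : 2 * r ≤ p) (h : WCoreK G Z T r m n p hm)
    (hB : ∀ x ∈ T, Pk G (cz G Z T hm x) (hz G Z T hm x) (tlo G T hm) (B x) (Ps x))
    (hmin : ∀ x ∈ T, ∀ B' Ps', Pk G (cz G Z T hm x) (hz G Z T hm x) (tlo G T hm) B' Ps' →
      (Ps x).card ≤ Ps'.card)
    {z j : V} (hz' : z ∈ T) (hj : j ∈ T) (hzj : z ≠ j) {K : Finset (Itm V)}
    (hK : K ⊆ (T.erase z).biUnion fun x => pkf (B x) (Ps x))
    (hk : ∀ u ∈ K, ikp (tlo G T hm) z u ≠ 0) {X : Finset V → Finset V}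
    (hX : ∀ Q, X Q ⊆ oth (tlo G T hm) z Q)
    {w : Itm V} (hw : w ∈ pkf (B z) (Ps z)) (hw1 : ivl w = 1) (hwk : ikp (tlo G T hm) j w ≠ 0)
    {b : ℤ}
    (hb : b ≤ (nui G (cz G Z T hm z) (tlo G T hm) (B z) j w : ℤ) + ipc w
        - ∑ u ∈ K, (if u ∈ pkf (B j) (Ps j) then (ipc u : ℤ) else 0)
      ∨ b ≤ (ims G (cz G Z T hm) (tlo G T hm) j w : ℤ)
        - ∑ u ∈ K, (if u ∈ pkf (B j) (Ps j) then (ipc u : ℤ) else 0)
      ∨ ipc w = 1 ∧ b ≤ (iar G (cz G Z T hm z) w : ℤ)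
        - ∑ u ∈ K, (if u ∈ pkf (B j) (Ps j) then (ipc u : ℤ) else 0)) :
    RecF G Z T hm B (K.biUnion (rpts (tlo G T hm) X z)) z j
      (nui G (cz G Z T hm z) (tlo G T hm) (B z) j w) b := by
  obtain ⟨v, hv, hvH, hvj, hnu, har, hle, h3⟩ := h.repP hp hz' (hB z hz') (hmin z hz') hw hw1 hwk
  have hcell := h.csys.cellD h.F.toPFrame hz' hj hzj
  have hvD := h.csys.mem_Dbl_of_tlo h.hh hz' hvH hvj
  have h4 := h.outX hB hj hK hk hX (D := msd G (cz G Z T hm j) v)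
    (fun a ha => ((h.mem_msd hz' hj hvH).1 ha).1)
  refine ⟨frC G (cz G Z T hm z) (tlo G T hm) (B z) v,
    msd G (cz G Z T hm j) v \ K.biUnion (rpts (tlo G T hm) X z),
    fun a ha => (mem_frC.1 ha).1, fun e he h4 => ?_,
    fun a ha => ((h.mem_msd hz' hj hvH).1 (mem_sdiff.1 ha).1).1, sdiff_disjoint,
    fun a ha c hc => ?_, ?_, ?_⟩
  · obtain ⟨h5, h6⟩ := mem_pcs.1 he
    obtain ⟨-, -, h7⟩ := mem_frC.1 h4
    exact h7 e h5 rfl (h6.trans hvj.symm)
  · obtain ⟨a1, a2⟩ := (h.mem_msd hz' hj hvH).1 (mem_sdiff.1 hc).1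
    obtain ⟨a3, a4, -⟩ := mem_frC.1 ha
    exact hcell.rect v hvD a a3 c a1 a4 a2
  · rw [hnu]
  · have h5 : ((msd G (cz G Z T hm z) v).card : ℤ) ≤ ((msd G (cz G Z T hm j) v).card : ℤ) := by
      exact_mod_cast hle
    have h6 := (le_max_left _ _).trans h3
    have h7 := (le_max_right _ _).trans h3
    rcases hb with hb | hb | ⟨hb1, hb⟩
    · linarith
    · linarith
    · rw [har hb1] at hb
      linarith

/-- **the rectangle of an item of value one of the home `j` with tail `z`** -/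
theorem WCoreK.recF_tail (hp : 2 * r ≤ p) (h : WCoreK G Z T r m n p hm)
    (hB : ∀ x ∈ T, Pk G (cz G Z T hm x) (hz G Z T hm x) (tlo G T hm) (B x) (Ps x))
    (hmin : ∀ x ∈ T, ∀ B' Ps', Pk G (cz G Z T hm x) (hz G Z T hm x) (tlo G T hm) B' Ps' →
      (Ps x).card ≤ Ps'.card)
    {z j : V} (hz' : z ∈ T) (hj : j ∈ T) (hzj : z ≠ j) {K : Finset (Itm V)}
    (hK : K ⊆ (T.erase z).biUnion fun x => pkf (B x) (Ps x))
    (hk : ∀ u ∈ K, ikp (tlo G T hm) z u ≠ 0) {X : Finset V → Finset V}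
    (hX : ∀ Q, X Q ⊆ oth (tlo G T hm) z Q)
    {w : Itm V} (hw : w ∈ pkf (B j) (Ps j)) (hw1 : ivl w = 1) (hwk : ikp (tlo G T hm) z w ≠ 0)
    {a b : ℤ}
    (ha : a ≤ (nui G (cz G Z T hm j) (tlo G T hm) (B j) z w : ℤ) + ipc w
        - pcn (tlo G T hm) B z j
      ∨ a ≤ (ims G (cz G Z T hm) (tlo G T hm) z w : ℤ) - pcn (tlo G T hm) B z j
      ∨ ipc w = 1 ∧ a ≤ (iar G (cz G Z T hm j) w : ℤ) - pcn (tlo G T hm) B z j)
    (hb : b ≤ (nui G (cz G Z T hm j) (tlo G T hm) (B j) z w : ℤ)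
      ∨ ipc w = 1 ∧ b ≤ (iar G (cz G Z T hm j) w : ℤ)
        - ∑ u ∈ K, (if u ∈ pkf (B j) (Ps j) then (ipc u : ℤ) else 0)) :
    RecF G Z T hm B (K.biUnion (rpts (tlo G T hm) X z)) z j a b := by
  have hfam : ∀ x ∈ T, Fam (co G) (cz G Z T hm) (hz G Z T hm) (tlo G T hm) x
      (pkf (B x) (Ps x)) := fun x hx => (hB x hx).fam (h.csys.dCH hx hx).symm
  obtain ⟨v, hv, hvH, hvz, hnu, har, hle, h3⟩ := h.repP hp hj (hB j hj) (hmin j hj) hw hw1 hwk
  have hcell := h.csys.cellD h.F.toPFrame hj hz' hzj.symm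
  have hvD := h.csys.mem_Dbl_of_tlo h.hh hj hvH hvz
  have haX : a ≤ ((msd G (cz G Z T hm z) v
      \ (pcs (tlo G T hm) (B z) j).image Prod.snd).card : ℤ) := by
    have a1 := card_sdiff_ge (msd G (cz G Z T hm z) v)
      ((pcs (tlo G T hm) (B z) j).image Prod.snd) (q := pcn (tlo G T hm) B z j) (by
        unfold pcn
        exact_mod_cast card_image_le)
    have a2 := (le_max_right _ _).trans a1
    have h5 : ((msd G (cz G Z T hm j) v).card : ℤ) ≤ ((msd G (cz G Z T hm z) v).card : ℤ) := by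
      exact_mod_cast hle
    have h6 := (le_max_left _ _).trans h3
    have h7 := (le_max_right _ _).trans h3
    rcases ha with ha | ha | ⟨ha1, ha⟩
    · linarith
    · linarith
    · rw [har ha1] at ha
      linarith
  -- the two choices of columns
  have key : ∀ Y1 : Finset V, Y1 ⊆ msd G (cz G Z T hm j) v →
      Disjoint Y1 (K.biUnion (rpts (tlo G T hm) X z)) → b ≤ Y1.card →
      RecF G Z T hm B (K.biUnion (rpts (tlo G T hm) X z)) z j a b := by
    intro Y1 hY hYd hYb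
    refine ⟨msd G (cz G Z T hm z) v \ (pcs (tlo G T hm) (B z) j).image Prod.snd, Y1,
      fun a ha => ((h.mem_msd hj hz' hvH).1 (mem_sdiff.1 ha).1).1,
      fun e he h4 => (mem_sdiff.1 h4).2 (mem_image_of_mem _ he),
      fun a ha => ((h.mem_msd hj hj hvH).1 (hY ha)).1, hYd, fun a ha c hc => ?_, haX, hYb⟩
    obtain ⟨a1, a2⟩ := (h.mem_msd hj hz' hvH).1 (mem_sdiff.1 ha).1
    obtain ⟨a3, a4⟩ := (h.mem_msd hj hj hvH).1 (hY hc)
    exact (hcell.rect v hvD c a3 a a1 a4 a2).symm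
  rcases hb with hb | ⟨hb1, hb⟩
  · refine key (frC G (cz G Z T hm j) (tlo G T hm) (B j) v) (fun a ha => ?_) ?_ (by
      rw [← hnu]
      exact hb)
    · obtain ⟨a3, a4, -⟩ := mem_frC.1 ha
      exact (h.mem_msd hj hj hvH).2 ⟨a3, a4⟩
    · rw [disjoint_left]
      intro a ha h4
      obtain ⟨a1, a2, a3⟩ := mem_frC.1 ha
      obtain ⟨u, hu, h7⟩ := mem_biUnion.1 h4
      obtain ⟨x', hx', hux'⟩ := mem_biUnion.1 (hK hu)
      obtain ⟨e, rfl, h8, h9, h10⟩ := Fam.cls_pt h.wsysT hfam (mem_of_mem_erase hx') hj hux'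
        (hk _ hu) hX h7 a1
      exact a3 e (inr_mem_pkf.1 (h10 ▸ hux')) h8 (h9.trans hvz.symm)
  · refine key (msd G (cz G Z T hm j) v \ K.biUnion (rpts (tlo G T hm) X z)) sdiff_subset
      sdiff_disjoint ?_
    have h4 := h.outX hB hj hK hk hX (D := msd G (cz G Z T hm j) v)
      (fun a ha => ((h.mem_msd hj hj hvH).1 ha).1)
    rw [har hb1] at hb
    exact hb.trans h4

end RecF

section RowAL

variable {V : Type*} {G : SimpleGraph V} {Z T : Finset V} {hm : V → V} {r m t : ℕ}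
  {A : Finset V} {S : V → Finset V} {U : V → Finset (Itm V)}

/-- **(RA) at levels**, exact number of points, any saving, no sign condition -/
theorem Fam.rowAL_of (hF : PFrame G r m t Z T) (hP : PG G r) (hh : Homes G Z T hm)
    (hC : CSys G Z T hm A S)
    (hW : WSysT G (co G) A (CP G Z T S) (HP G Z T S) (tlo G T hm))
    (h : ∀ x ∈ A, Fam (co G) (CP G Z T S) (HP G Z T S) (tlo G T hm) x (U x))
    {z y : V} (hz : z ∈ A) (hy : y ∈ A) (hzy : z ≠ y) {K : Finset (Itm V)}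
    (hK : K ⊆ (A.erase z).biUnion U) {g : Itm V → ℕ}
    (hg1 : ∀ u ∈ K, 1 ≤ g u) (hg2 : ∀ u ∈ K, g u ≤ ikp (tlo G T hm) z u)
    {Y : Finset V} (hY : Y ⊆ CP G Z T S y)
    (hYK : Disjoint Y (K.biUnion (rpts (tlo G T hm) (xlv G (CP G Z T S) (tlo G T hm) z g) z)))
    {F : Finset V} (hF1 : F ⊆ CP G Z T S z) (hF2 : ∀ e ∈ pcz (tlo G T hm) y (U z), e.2 ∉ F)
    (hYF : ∀ c ∈ Y, ∀ a ∈ F, G.Adj c a) {sv : ℤ}
    (hsv : (NE G (K.biUnion (rpts (tlo G T hm) (xlv G (CP G Z T S) (tlo G T hm) z g) z)) : ℤ) + sv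
      + (K.biUnion (rpts (tlo G T hm) (xlv G (CP G Z T S) (tlo G T hm) z g) z)).card
      ≤ ((K.biUnion (rpts (tlo G T hm) (xlv G (CP G Z T S) (tlo G T hm) z g) z)).card : ℤ)
        * (K.biUnion (rpts (tlo G T hm) (xlv G (CP G Z T S) (tlo G T hm) z g) z)).card) :
    2 * ((r : ℤ) - 1) * (((S z).card : ℤ) - r)
      + 2 * ∑ u ∈ K, (((CP G Z T S z).card : ℤ) * g u
          - ilm G (CP G Z T S) (tlo G T hm) z g u)
      + 2 * ∑ u ∈ U z, ((Y.card : ℤ) * ikp (tlo G T hm) y u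
          - (Y ∩ icl G (CP G Z T S) (tlo G T hm) y u).card)
      + 2 * ((Y.card : ℤ) * F.card) + sv
      ≤ NE G (S z)
        + 2 * (∑ u ∈ K, ((g u : ℤ) + 1) + Y.card : ℤ) * (((S z).card : ℤ) - r + 1)
        + (∑ u ∈ K, ((g u : ℤ) + 1)) * (∑ u ∈ K, ((g u : ℤ) + 1) - 1)
        + 2 * ∑ u ∈ K, (if u ∈ U y
            then min (iar G (CP G Z T S y) u : ℤ) (Y.card * ((g u : ℤ) + 1))
            else Y.card * ((g u : ℤ) + 1)) := by
  obtain ⟨X, hXd⟩ : ∃ X, X = xlv G (CP G Z T S) (tlo G T hm) z g := ⟨_, rfl⟩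
  rw [← hXd] at hYK hsv
  have hX : ∀ Q, X Q ⊆ oth (tlo G T hm) z Q := by
    intro Q
    rw [hXd]
    exact xlv_sub
  have hk : ∀ u ∈ K, ikp (tlo G T hm) z u ≠ 0 := fun u hu h3 => by
    have := hg1 u hu
    have := hg2 u hu
    omega
  have h1 := Fam.rowA_of hF hP hC hW h hz hy hzy hK hk hX hY hYK hF1 hF2 hYF
  have hdis : ∀ u ∈ K, ∀ v ∈ K, u ≠ v → Disjoint (rpts (tlo G T hm) X z u)
      (rpts (tlo G T hm) X z v) := by
    intro u hu v hv huv
    obtain ⟨x, hx, hux⟩ := mem_biUnion.1 (hK hu)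
    obtain ⟨x', hx', hvx⟩ := mem_biUnion.1 (hK hv)
    exact (Fam.dis_row hW h (mem_of_mem_erase hx) (mem_of_mem_erase hx') hux hvx huv (hk u hu)
      (hk v hv)).mono ((h x (mem_of_mem_erase hx)).rpts_sub hX)
      ((h x' (mem_of_mem_erase hx')).rpts_sub hX)
  have h2 : ∀ u ∈ K, (rpts (tlo G T hm) X z u).card = g u + 1 := by
    intro u hu
    obtain ⟨x, hx, hux⟩ := mem_biUnion.1 (hK hu)
    rw [hXd]
    exact ((h x (mem_of_mem_erase hx)).lev hF hh hC (mem_of_mem_erase hx) hux (hg1 u hu)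
      (hg2 u hu)).1
  have hhit := sum_le_sum fun u hu => by
    obtain ⟨x, hx, hux⟩ := mem_biUnion.1 (hK hu)
    exact ((h x (mem_of_mem_erase hx)).lev hF hh hC (mem_of_mem_erase hx) hux (hg1 u hu)
      (hg2 u hu)).2
  rw [← hXd] at hhit
  obtain ⟨W, hWd⟩ : ∃ W, W = K.biUnion (rpts (tlo G T hm) X z) := ⟨_, rfl⟩
  have hcW : (W.card : ℤ) = ∑ u ∈ K, ((g u : ℤ) + 1) := by
    rw [hWd, card_biUnion hdis]
    push_cast
    exact sum_congr rfl fun u hu => by
      rw [h2 u hu]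
      push_cast
      ring
  have h6 : ∑ v ∈ W, (nd G Y v : ℤ) ≤ ∑ u ∈ K, (if u ∈ U y
            then min (iar G (CP G Z T S y) u : ℤ) (Y.card * ((g u : ℤ) + 1))
            else Y.card * ((g u : ℤ) + 1)) := by
    rw [hWd, sum_biUnion hdis]
    refine sum_le_sum fun u hu => ?_
    have e1 : ∑ v ∈ rpts (tlo G T hm) X z u, (nd G Y v : ℤ) ≤ Y.card * ((g u : ℤ) + 1) := by
      have e2 : ∑ v ∈ rpts (tlo G T hm) X z u, (nd G Y v : ℤ)
          ≤ ∑ v ∈ rpts (tlo G T hm) X z u, (Y.card : ℤ) :=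
        sum_le_sum fun v _ => by exact_mod_cast card_filter_le _ _
      rw [sum_const, nsmul_eq_mul, h2 u hu] at e2
      push_cast at e2
      linarith
    by_cases huy : u ∈ U y
    · rw [if_pos huy]
      refine le_min ?_ e1
      have e2 : ∑ v ∈ rpts (tlo G T hm) X z u, nd G Y v
          ≤ ∑ v ∈ rpts (tlo G T hm) X z u \ CP G Z T S y, nd G (CP G Z T S y) v := by
        rw [← sum_sdiff (s₁ := rpts (tlo G T hm) X z u ∩ CP G Z T S y)
          (s₂ := rpts (tlo G T hm) X z u) inter_subset_left, sdiff_inter_self_left]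
        have e3 : ∑ v ∈ rpts (tlo G T hm) X z u ∩ CP G Z T S y, nd G Y v = 0 := by
          refine sum_eq_zero fun v hv => ?_
          obtain ⟨hv1, hv2⟩ := mem_inter.1 hv
          unfold nd
          rw [card_eq_zero, filter_eq_empty_iff]
          intro w hw hvw
          have hvY : v ≠ w := fun e5 => disjoint_left.1 hYK hw
            (mem_biUnion.2 ⟨u, hu, e5 ▸ hv1⟩)
          have e6 := hC.CP_clq hF hy v hv2 w (hY hw) hvY
          exact hvw.2 e6
        rw [e3, add_zero]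
        refine sum_le_sum fun v _ => ?_
        unfold nd
        exact card_le_card (filter_subset_filter _ hY)
      have e3 := e2.trans (Fam.nd_own h hy huy hX)
      exact_mod_cast e3
    · rw [if_neg huy]
      exact e1
  rw [← hWd] at h1 hsv
  have hhit2 := mul_le_mul_of_nonneg_left hhit (by norm_num : (0 : ℤ) ≤ 2)
  push_cast at h1
  rw [hcW] at h1 hsv
  generalize (∑ u ∈ K, ((g u : ℤ) + 1)) = w at *
  nlinarith

end RowAL

section RowALI

variable {V : Type*} {G : SimpleGraph V} {Z T : Finset V} {hm : V → V} {r m n p : ℕ}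
  {B : V → Finset (V × V)} {Ps : V → Finset (Finset V)}

/-- **(RA) over the basic integers**, levels `g`, `b` columns of `y`, each with `a` more neighbours in the
class of `x`, any saving -/
theorem WCoreK.rowALI (h : WCoreK G Z T r m n p hm)
    (hpk : ∀ x ∈ T, Pk G (cz G Z T hm x) (hz G Z T hm x) (tlo G T hm) (B x) (Ps x))
    {x y : V} (hx : x ∈ T) (hy : y ∈ T) (hxy : x ≠ y) {K : Finset (Itm V)}
    (hK : K ⊆ (T.erase x).biUnion fun x => pkf (B x) (Ps x)) {g : Itm V → ℕ}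
    (hg1 : ∀ u ∈ K, 1 ≤ g u) (hg2 : ∀ u ∈ K, g u ≤ ikp (tlo G T hm) x u) {a b : ℤ}
    (ha : 0 ≤ a) (hb : 0 ≤ b)
    (hR : RecF G Z T hm B (K.biUnion (rpts (tlo G T hm) (xlv G (cz G Z T hm) (tlo G T hm) x g) x))
      x y a b) {sv : ℤ}
    (hsv : (NE G (K.biUnion (rpts (tlo G T hm) (xlv G (cz G Z T hm) (tlo G T hm) x g) x)) : ℤ) + sv
      + (K.biUnion (rpts (tlo G T hm) (xlv G (cz G Z T hm) (tlo G T hm) x g) x)).card
      ≤ ((K.biUnion (rpts (tlo G T hm) (xlv G (cz G Z T hm) (tlo G T hm) x g) x)).card : ℤ)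
        * (K.biUnion (rpts (tlo G T hm) (xlv G (cz G Z T hm) (tlo G T hm) x g) x)).card) :
    2 * ((r : ℤ) - 1) * sI hm r Z x
      + 2 * ∑ u ∈ K, ((g u : ℤ) * ((r : ℤ) - 1 - tI G Z T hm r Z x)
          - ilm G (cz G Z T hm) (tlo G T hm) x g u)
      + 2 * ∑ u ∈ pkf (B x) (Ps x), (b * ikp (tlo G T hm) y u
          - min b (ims G (cz G Z T hm) (tlo G T hm) y u : ℤ))
      + 2 * (a * b) + sv
      ≤ 2 * eI G hm Z x
        + 2 * (∑ u ∈ K, ((g u : ℤ) + 1) + b) * (sI hm r Z x + 1)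
        + (∑ u ∈ K, ((g u : ℤ) + 1)) * (∑ u ∈ K, ((g u : ℤ) + 1) - 1)
        + 2 * ∑ u ∈ K, (if u ∈ pkf (B y) (Ps y)
            then min (iar G (cz G Z T hm y) u : ℤ) (b * ((g u : ℤ) + 1))
            else b * ((g u : ℤ) + 1)) := by
  have hfam : ∀ x ∈ T, Fam (co G) (cz G Z T hm) (hz G Z T hm) (tlo G T hm) x
      (pkf (B x) (Ps x)) := fun x hx => (hpk x hx).fam (h.csys.dCH hx hx).symm
  have hpcz : pcz (tlo G T hm) y (pkf (B x) (Ps x)) = pcs (tlo G T hm) (B x) y := by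
    ext e
    rw [mem_pcz, inr_mem_pkf, mem_pcs]
  obtain ⟨X1, Y1, h1, h2, h3, h4, h5, h6, h7⟩ := hR
  -- smaller sides
  have ha' : a.toNat ≤ X1.card := by omega
  have hb' : b.toNat ≤ Y1.card := by omega
  obtain ⟨X2, hX2, hXc⟩ := exists_subset_card_eq ha'
  obtain ⟨Y2, hY2, hYc⟩ := exists_subset_card_eq hb'
  have hXc' : (X2.card : ℤ) = a := by
    rw [hXc]
    exact Int.toNat_of_nonneg ha
  have hYc' : (Y2.card : ℤ) = b := by
    rw [hYc]
    exact Int.toNat_of_nonneg hb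
  have hct : ((cz G Z T hm x).card : ℤ) = (r : ℤ) - 1 - tI G Z T hm r Z x := by
    unfold tI
    ring
  have h8 := Fam.rowAL_of h.F.toPFrame h.gp.P h.hh h.csys h.wsysT hfam hx hy hxy hK hg1 hg2
    (hY2.trans h3) (h4.mono_left hY2) (hX2.trans h1)
    (fun e he h9 => h2 e (hpcz ▸ he) (hX2 h9))
    (fun c hc a ha => (h5 a (hX2 ha) c (hY2 hc)).symm) hsv
  have e4 : ∑ u ∈ pkf (B x) (Ps x), ((Y2.card : ℤ) * ikp (tlo G T hm) y u
        - min (Y2.card : ℤ) (ims G (cz G Z T hm) (tlo G T hm) y u : ℤ))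
      ≤ ∑ u ∈ pkf (B x) (Ps x), ((Y2.card : ℤ) * ikp (tlo G T hm) y u
          - (Y2 ∩ icl G (cz G Z T hm) (tlo G T hm) y u).card) := by
    refine sum_le_sum fun u _ => ?_
    have h2 : ((Y2 ∩ icl G (cz G Z T hm) (tlo G T hm) y u).card : ℤ) ≤ Y2.card := by
      exact_mod_cast card_le_card inter_subset_left
    have h3 : ((Y2 ∩ icl G (cz G Z T hm) (tlo G T hm) y u).card : ℤ)
        ≤ (ims G (cz G Z T hm) (tlo G T hm) y u : ℤ) := by
      exact_mod_cast card_le_card inter_subset_right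
    have := le_min h2 h3
    linarith
  have h9 := two_eI (G := G) (hm := hm) Z x
  have h10 : (((Z.filter fun v => hm v = x).card : ℤ) - r) = sI hm r Z x := rfl
  have e7 : CP G Z T (fun x => Z.filter fun v => hm v = x) = cz G Z T hm := rfl
  have e1 : ∑ u ∈ K, ((g u : ℤ) * ((r : ℤ) - 1 - tI G Z T hm r Z x)
        - ilm G (cz G Z T hm) (tlo G T hm) x g u)
      = ∑ u ∈ K, (((cz G Z T hm x).card : ℤ) * g u
          - ilm G (cz G Z T hm) (tlo G T hm) x g u) := by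
    refine sum_congr rfl fun u _ => ?_
    rw [← hct]
    ring
  rw [h10, ← h9, e7] at h8
  rw [e1, ← hXc', ← hYc']
  have e8 : ((X2.card : ℤ) * Y2.card) = Y2.card * X2.card := mul_comm _ _
  rw [e8]
  linarith

end RowALI

end Pool.Agent.Lib.MP_f04ccf_co
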