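import Pool.Agent.Lib.MP_f04ccf_co.M.PayU
import Pool.Agent.Lib.MP_f04ccf_co.M.NuW

/-!
MP_f04ccf_co: the rectangles with ALL missed class points of a missing pair.

The member of a missing pair `u` hosted at `x` with tail `y` misses `iar u` class points at home (the
partners of the other missing pairs included) and at least as many at the tail; the two sets are
completely joined.
* `aha x y u` = `max (nu + pc) (pc * ar)`: home misses of a representative of an item of value one;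
* `WCoreK.rep3`: the representative with these misses;
* `WCoreK.arq`: `a (a - 2) ≤ t t'` for `a = aha`;
* `WCoreK.payC_outA`, `WCoreK.payC_inA`: the rectangle in the row test with columns;
* `WCoreK.cellFA`: the rectangle in the cell test; `WCoreK.rectFA`: in the pair.
-/

set_option autoImplicit false

namespace Pool.Agent.Lib.MP_f04ccf_co

open Finset

attribute [local instance] Classical.propDecidable

section RectA

variable {V : Type*} {G : SimpleGraph V} {Z T : Finset V} {hm : V → V} {r m n p : ℕ}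
  {B : V → Finset (V × V)} {Ps : V → Finset (Finset V)}

variable (G Z T hm B) in
/-- the home misses of a representative of the item `u` of the row `x` with tail `y` -/
noncomputable def aha (x y : V) (u : Itm V) : ℤ :=
  max ((nui G (cz G Z T hm x) (tlo G T hm) (B x) y u : ℤ) + ipc u)
    ((ipc u : ℤ) * iar G (cz G Z T hm x) u)

lemma aha_nonneg (x y : V) (u : Itm V) : 0 ≤ aha G Z T hm B x y u :=
  le_trans (mul_nonneg (Nat.cast_nonneg _) (Nat.cast_nonneg _)) (le_max_right _ _)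

/-- **a representative of an item of value one**, with all arcs for a missing pair -/
theorem WCoreK.rep3 (hp : 2 * r ≤ p) (h : WCoreK G Z T r m n p hm) {x y : V} (hx : x ∈ T)
    (hpk : Pk G (cz G Z T hm x) (hz G Z T hm x) (tlo G T hm) (B x) (Ps x))
    (hmin : ∀ B' Ps', Pk G (cz G Z T hm x) (hz G Z T hm x) (tlo G T hm) B' Ps' →
      (Ps x).card ≤ Ps'.card) {u : Itm V} (hu : u ∈ pkf (B x) (Ps x)) (h1 : ivl u = 1)
    (hk : ikp (tlo G T hm) y u ≠ 0) :
    ∃ v ∈ imem u, v ∈ hz G Z T hm x ∧ tlo G T hm v = y ∧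
      nui G (cz G Z T hm x) (tlo G T hm) (B x) y u
        = (frC G (cz G Z T hm x) (tlo G T hm) (B x) v).card ∧
      frC G (cz G Z T hm x) (tlo G T hm) (B x) v ⊆ msd G (cz G Z T hm x) v ∧
      aha G Z T hm B x y u ≤ ((msd G (cz G Z T hm x) v).card : ℤ) ∧
      max (aha G Z T hm B x y u) (ims G (cz G Z T hm) (tlo G T hm) y u)
        ≤ ((msd G (cz G Z T hm y) v).card : ℤ) := by
  obtain ⟨v, hv, hvH, hvy, hnu, h3, h4⟩ := h.rep2 hp hx hpk hmin hu h1 hk
  have h5 : aha G Z T hm B x y u ≤ ((msd G (cz G Z T hm x) v).card : ℤ) := by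
    refine max_le (by exact_mod_cast h3) ?_
    rcases u with P | e
    · have : ((ipc (Sum.inl P : Itm V) : ℤ) * iar G (cz G Z T hm x) (Sum.inl P)) = 0 := by
        simp [ipc]
      rw [this]
      exact Nat.cast_nonneg _
    · have hve : v = e.1 := mem_singleton.1 hv
      have e1 : iar G (cz G Z T hm x) (Sum.inr e : Itm V) = nd G (cz G Z T hm x) e.1 := by
        unfold iar imem
        exact sum_singleton _ _
      have e2 : (ipc (Sum.inr e : Itm V) : ℤ) = 1 := by simp [ipc]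
      rw [e1, e2, one_mul, hve, msd_card]
  have h6 : ((msd G (cz G Z T hm x) v).card : ℤ) ≤ (msd G (cz G Z T hm y) v).card := by
    exact_mod_cast h.msd_le hp hx hvH hvy
  refine ⟨v, hv, hvH, hvy, hnu, fun a ha => ?_, h5, max_le (h5.trans h6)
    ((le_max_right _ _).trans h4)⟩
  obtain ⟨a1, a2, -⟩ := mem_frC.1 ha
  exact (h.mem_msd hx hx hvH).2 ⟨a1, a2⟩

/-- **the squares**: `a (a - 2) ≤ t t'`, all arcs of a missing pair -/
theorem WCoreK.arq (hp : 2 * r ≤ p) (h : WCoreK G Z T r m n p hm) {x y : V} (hx : x ∈ T)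
    (hpk : Pk G (cz G Z T hm x) (hz G Z T hm x) (tlo G T hm) (B x) (Ps x))
    (hmin : ∀ B' Ps', Pk G (cz G Z T hm x) (hz G Z T hm x) (tlo G T hm) B' Ps' →
      (Ps x).card ≤ Ps'.card) {u : Itm V} (hu : u ∈ pkf (B x) (Ps x)) (h1 : ivl u = 1)
    (hk : ikp (tlo G T hm) y u ≠ 0) :
    aha G Z T hm B x y u * (aha G Z T hm B x y u - 2)
      ≤ tI G Z T hm r Z x * tI G Z T hm r Z y := by
  obtain ⟨v, hv, hvH, hvy, hnu, h2, h3, h4⟩ := h.rep3 hp hx hpk hmin hu h1 hk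
  obtain ⟨a, ha⟩ : ∃ a : ℕ, aha G Z T hm B x y u = a :=
    ⟨(aha G Z T hm B x y u).toNat, (Int.toNat_of_nonneg (aha_nonneg x y u)).symm⟩
  rw [ha] at h3 ⊢
  exact h.sq_le hp hx hvH hvy (by exact_mod_cast h3)

/-- **T+: the rectangle of an item of the column row `j` with tail `z`**, all arcs -/
theorem WCoreK.payC_outA (hp : 2 * r ≤ p) (h : WCoreK G Z T r m n p hm)
    (hB : ∀ x ∈ T, Pk G (cz G Z T hm x) (hz G Z T hm x) (tlo G T hm) (B x) (Ps x))
    (hmin : ∀ x ∈ T, ∀ B' Ps', Pk G (cz G Z T hm x) (hz G Z T hm x) (tlo G T hm) B' Ps' →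
      (Ps x).card ≤ Ps'.card)
    {z j : V} (hz' : z ∈ T) (hj : j ∈ T) (hzj : z ≠ j) {K : Finset (Itm V)}
    (hK : K ⊆ (T.erase z).biUnion fun x => pkf (B x) (Ps x))
    {w : Itm V} (hw : w ∈ pkf (B j) (Ps j)) (hw1 : ivl w = 1) (hwk : ikp (tlo G T hm) z w ≠ 0) :
    PayC G Z T hm B Ps (K.filter fun u => ikp (tlo G T hm) z u ≠ 0)
      (fun Q => one1 (oth (tlo G T hm) z Q)) z j
      (max 0 (max (aha G Z T hm B j z w) (ims G (cz G Z T hm) (tlo G T hm) z w)
          - pcn (tlo G T hm) B z j)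
        * max (nui G (cz G Z T hm j) (tlo G T hm) (B j) z w : ℤ) (aha G Z T hm B j z w
          - ∑ u ∈ K, (if u ∈ pkf (B j) (Ps j) then (ipc u : ℤ) * ikp (tlo G T hm) z u
            else 0))) := by
  have hfam : ∀ x ∈ T, Fam (co G) (cz G Z T hm) (hz G Z T hm) (tlo G T hm) x
      (pkf (B x) (Ps x)) := fun x hx => (hB x hx).fam (h.csys.dCH hx hx).symm
  have hpcz : pcz (tlo G T hm) j (pkf (B z) (Ps z)) = pcs (tlo G T hm) (B z) j := by
    ext e
    rw [mem_pcz, inr_mem_pkf, mem_pcs]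
  obtain ⟨v, hv, hvH, hvz, hnu, hfr, h2, h3⟩ := h.rep3 hp hj (hB j hj) (hmin j hj) hw hw1 hwk
  have hcell := h.csys.cellD h.F.toPFrame hj hz' hzj.symm
  have hvD := h.csys.mem_Dbl_of_tlo h.hh hj hvH hvz
  obtain ⟨Wp, hWp⟩ : ∃ Wp, Wp = (K.filter fun u => ikp (tlo G T hm) z u ≠ 0).biUnion
      (rpts (tlo G T hm) (fun Q => one1 (oth (tlo G T hm) z Q)) z) := ⟨_, rfl⟩
  have hE := WCoreK.payC_rect (G := G) (Z := Z) (T := T) (hm := hm) (B := B) (Ps := Ps)
    (z := z) (j := j) (K := K.filter fun u => ikp (tlo G T hm) z u ≠ 0)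
    (X := fun Q => one1 (oth (tlo G T hm) z Q))
    (X1 := msd G (cz G Z T hm z) v \ (pcs (tlo G T hm) (B z) j).image Prod.snd)
    (Y1 := msd G (cz G Z T hm j) v \ Wp)
    (fun a ha => ((h.mem_msd hj hz' hvH).1 (mem_sdiff.1 ha).1).1)
    (fun e he h4 => (mem_sdiff.1 h4).2 (mem_image_of_mem _ (hpcz ▸ he)))
    (hWp ▸ sdiff_subset_sdiff (fun a ha => ((h.mem_msd hj hj hvH).1 ha).1) subset_rfl)
    (fun a ha c hc => by
      obtain ⟨a1, a2⟩ := (h.mem_msd hj hz' hvH).1 (mem_sdiff.1 ha).1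
      obtain ⟨a3, a4⟩ := (h.mem_msd hj hj hvH).1 (mem_sdiff.1 hc).1
      exact (hcell.rect v hvD c a3 a a1 a4 a2).symm)
  refine hE.mono ?_
  have a1 := card_sdiff_ge (msd G (cz G Z T hm z) v)
    ((pcs (tlo G T hm) (B z) j).image Prod.snd) (q := pcn (tlo G T hm) B z j) (by
      unfold pcn
      exact_mod_cast card_image_le)
  have a2 := h.out_ge hB hj hK (D := msd G (cz G Z T hm j) v)
    (fun a ha => ((h.mem_msd hj hj hvH).1 ha).1)
  rw [← hWp] at a2
  have a3 : (nui G (cz G Z T hm j) (tlo G T hm) (B j) z w : ℤ)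
      ≤ ((msd G (cz G Z T hm j) v \ Wp).card : ℤ) := by
    rw [hnu]
    have : frC G (cz G Z T hm j) (tlo G T hm) (B j) v ⊆ msd G (cz G Z T hm j) v \ Wp := by
      intro a ha
      obtain ⟨b1, b2, b3⟩ := mem_frC.1 ha
      refine mem_sdiff.2 ⟨hfr ha, fun h4 => ?_⟩
      rw [hWp] at h4
      obtain ⟨u, hu, h7⟩ := mem_biUnion.1 h4
      obtain ⟨hu1, hu2⟩ := mem_filter.1 hu
      obtain ⟨x', hx', hux'⟩ := mem_biUnion.1 (hK hu1)
      obtain ⟨e, rfl, h8, h9, h10⟩ := Fam.cls_pt h.wsysT hfam (mem_of_mem_erase hx') hj hux'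
        hu2 (fun Q => one1_sub _) h7 b1
      exact b3 e (inr_mem_pkf.1 (h10 ▸ hux')) h8 (h9.trans hvz.symm)
    exact_mod_cast card_le_card this
  refine mul_le_mul (le_trans (max_le_max le_rfl (by linarith)) a1)
    (max_le a3 ((by linarith : _ ≤ _).trans ((le_max_right _ _).trans a2)))
    (le_trans (Nat.cast_nonneg _) (le_max_left _ _)) (Nat.cast_nonneg _)

/-- **T+: the rectangle of an item of the row `z` with tail `j`**, all arcs -/
theorem WCoreK.payC_inA (hp : 2 * r ≤ p) (h : WCoreK G Z T r m n p hm)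
    (hB : ∀ x ∈ T, Pk G (cz G Z T hm x) (hz G Z T hm x) (tlo G T hm) (B x) (Ps x))
    (hmin : ∀ x ∈ T, ∀ B' Ps', Pk G (cz G Z T hm x) (hz G Z T hm x) (tlo G T hm) B' Ps' →
      (Ps x).card ≤ Ps'.card)
    {z j : V} (hz' : z ∈ T) (hj : j ∈ T) (hzj : z ≠ j) {K : Finset (Itm V)}
    (hK : K ⊆ (T.erase z).biUnion fun x => pkf (B x) (Ps x))
    {w : Itm V} (hw : w ∈ pkf (B z) (Ps z)) (hw1 : ivl w = 1) (hwk : ikp (tlo G T hm) j w ≠ 0) :
    PayC G Z T hm B Ps (K.filter fun u => ikp (tlo G T hm) z u ≠ 0)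
      (fun Q => one1 (oth (tlo G T hm) z Q)) z j
      (max (nui G (cz G Z T hm z) (tlo G T hm) (B z) j w : ℤ) (aha G Z T hm B z j w
          - pcn (tlo G T hm) B z j)
        * max 0 (max (aha G Z T hm B z j w) (ims G (cz G Z T hm) (tlo G T hm) j w)
          - ∑ u ∈ K, (if u ∈ pkf (B j) (Ps j) then (ipc u : ℤ) * ikp (tlo G T hm) z u
            else 0))) := by
  have hpcz : pcz (tlo G T hm) j (pkf (B z) (Ps z)) = pcs (tlo G T hm) (B z) j := by
    ext e
    rw [mem_pcz, inr_mem_pkf, mem_pcs]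
  obtain ⟨v, hv, hvH, hvj, hnu, hfr, h2, h3⟩ := h.rep3 hp hz' (hB z hz') (hmin z hz') hw hw1 hwk
  have hcell := h.csys.cellD h.F.toPFrame hz' hj hzj
  have hvD := h.csys.mem_Dbl_of_tlo h.hh hz' hvH hvj
  have hE := WCoreK.payC_rect (G := G) (Z := Z) (T := T) (hm := hm) (B := B) (Ps := Ps)
    (z := z) (j := j) (K := K.filter fun u => ikp (tlo G T hm) z u ≠ 0)
    (X := fun Q => one1 (oth (tlo G T hm) z Q))
    (X1 := msd G (cz G Z T hm z) v \ (pcs (tlo G T hm) (B z) j).image Prod.snd)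
    (Y1 := msd G (cz G Z T hm j) v \ (K.filter fun u => ikp (tlo G T hm) z u ≠ 0).biUnion
        (rpts (tlo G T hm) (fun Q => one1 (oth (tlo G T hm) z Q)) z))
    (fun a ha => ((h.mem_msd hz' hz' hvH).1 (mem_sdiff.1 ha).1).1)
    (fun e he h4 => (mem_sdiff.1 h4).2 (mem_image_of_mem _ (hpcz ▸ he)))
    (sdiff_subset_sdiff (fun a ha => ((h.mem_msd hz' hj hvH).1 ha).1) subset_rfl)
    (fun a ha c hc => by
      obtain ⟨a1, a2⟩ := (h.mem_msd hz' hj hvH).1 (mem_sdiff.1 hc).1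
      obtain ⟨a3, a4⟩ := (h.mem_msd hz' hz' hvH).1 (mem_sdiff.1 ha).1
      exact hcell.rect v hvD a a3 c a1 a4 a2)
  refine hE.mono ?_
  have a1 := card_sdiff_ge (msd G (cz G Z T hm z) v)
    ((pcs (tlo G T hm) (B z) j).image Prod.snd) (q := pcn (tlo G T hm) B z j) (by
      unfold pcn
      exact_mod_cast card_image_le)
  have a2 := h.out_ge hB hj hK (D := msd G (cz G Z T hm j) v)
    (fun a ha => ((h.mem_msd hz' hj hvH).1 ha).1)
  have a3 : (nui G (cz G Z T hm z) (tlo G T hm) (B z) j w : ℤ)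
      ≤ ((msd G (cz G Z T hm z) v \ (pcs (tlo G T hm) (B z) j).image Prod.snd).card : ℤ) := by
    rw [hnu]
    have : frC G (cz G Z T hm z) (tlo G T hm) (B z) v
        ⊆ msd G (cz G Z T hm z) v \ (pcs (tlo G T hm) (B z) j).image Prod.snd := by
      intro a ha
      obtain ⟨b1, b2, b3⟩ := mem_frC.1 ha
      refine mem_sdiff.2 ⟨hfr ha, fun h4 => ?_⟩
      obtain ⟨e, he, hea⟩ := mem_image.1 h4
      obtain ⟨h9, h10⟩ := mem_pcs.1 he
      exact b3 e h9 hea (h10.trans hvj.symm)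
    exact_mod_cast card_le_card this
  refine mul_le_mul (max_le a3 ((by linarith : _ ≤ _).trans ((le_max_right _ _).trans a1)))
    (le_trans (max_le_max le_rfl (by linarith)) a2) (le_max_left _ _) (Nat.cast_nonneg _)

/-- **(CELL): the rectangle of an item of the row `x` with tail `z`**, all arcs -/
theorem WCoreK.cellFA (hp : 2 * r ≤ p) (h : WCoreK G Z T r m n p hm)
    (hpk : ∀ x ∈ T, Pk G (cz G Z T hm x) (hz G Z T hm x) (tlo G T hm) (B x) (Ps x))
    (hmin : ∀ x ∈ T, ∀ B' Ps', Pk G (cz G Z T hm x) (hz G Z T hm x) (tlo G T hm) B' Ps' →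
      (Ps x).card ≤ Ps'.card) {x z : V} (hx : x ∈ T) (hz' : z ∈ T) (hxz : x ≠ z)
    {K K' : Finset (Itm V)}
    (hK : K ⊆ pkf (B x) (Ps x)) (hK' : K' ⊆ pkf (B z) (Ps z))
    (hk : ∀ u ∈ K, ikp (tlo G T hm) z u ≠ 0)
    (hk' : ∀ u ∈ K', ikp (tlo G T hm) x u ≠ 0) {w : Itm V} (hw : w ∈ pkf (B x) (Ps x))
    (hw1 : ivl w = 1) (hwk : ikp (tlo G T hm) z w ≠ 0) :
    2 * ∑ u ∈ K, (((r : ℤ) - 1) * ikp (tlo G T hm) z u + (1 - ipc u) * tI G Z T hm r Z z
          - rmr G (cz G Z T hm) (tlo G T hm) z u - iar G (cz G Z T hm x) u)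
      + 2 * ∑ u ∈ K', (((r : ℤ) - 1) * ikp (tlo G T hm) x u + (1 - ipc u) * tI G Z T hm r Z x
          - rmr G (cz G Z T hm) (tlo G T hm) x u - iar G (cz G Z T hm z) u)
      + 2 * (max (nui G (cz G Z T hm x) (tlo G T hm) (B x) z w : ℤ)
          (aha G Z T hm B x z w - ∑ u ∈ K, (ipc u : ℤ))
        * max 0 (max (aha G Z T hm B x z w) (ims G (cz G Z T hm) (tlo G T hm) z w)
          - ∑ u ∈ K', (ipc u : ℤ)))
      ≤ 2 * ((r : ℤ) - 1 + tI G Z T hm r Z x * tI G Z T hm r Z z)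
        + NE G (cpt (cz G Z T hm) (tlo G T hm) K x z ∪ cpt (cz G Z T hm) (tlo G T hm) K' z x)
        + 2 * (∑ u ∈ K, (ipc u : ℤ)) * ∑ u ∈ K', (ipc u : ℤ) := by
  have hF := h.F.toPFrame
  have hfam : ∀ x ∈ T, Fam (co G) (cz G Z T hm) (hz G Z T hm) (tlo G T hm) x
      (pkf (B x) (Ps x)) := fun x hx => (hpk x hx).fam (h.csys.dCH hx hx).symm
  obtain ⟨v, hv, hvH, hvz, hnu, hfr, h2, h3⟩ := h.rep3 hp hx (hpk x hx) (hmin x hx) hw hw1 hwk
  refine Fam.cellG hF h.gp.P h.csys h.wsysT hfam hx hz' hxz hK hK' hk hk' ?_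
  set P := cz G Z T hm x
    ∩ K.biUnion (rpts (tlo G T hm) (fun Q => one1 (oth (tlo G T hm) z Q)) z) with hP'
  set P' := cz G Z T hm z
    ∩ K'.biUnion (rpts (tlo G T hm) (fun Q => one1 (oth (tlo G T hm) x Q)) x) with hP''
  obtain ⟨-, -, b3⟩ := Fam.own_sums h.wsysT hfam hx hK hk
  obtain ⟨-, -, b3'⟩ := Fam.own_sums h.wsysT hfam hz' hK' hk'
  have c1 : frC G (cz G Z T hm x) (tlo G T hm) (B x) v ⊆ msd G (cz G Z T hm x) v \ P := by
    intro a ha
    obtain ⟨a1, a2, a3⟩ := mem_frC.1 ha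
    refine mem_sdiff.2 ⟨hfr ha, fun h4 => ?_⟩
    obtain ⟨h5, h6⟩ := mem_inter.1 h4
    obtain ⟨u, hu, h7⟩ := mem_biUnion.1 h6
    obtain ⟨e, rfl, h8, h9, -⟩ := Fam.cls_pt h.wsysT hfam hx hx (hK hu) (hk u hu)
      (fun Q => one1_sub _) h7 h5
    exact a3 e (inr_mem_pkf.1 (hK hu)) h8 (h9.trans hvz.symm)
  have c2 := card_sdiff_ge (msd G (cz G Z T hm z) v) P' b3'
  have c4 := card_sdiff_ge (msd G (cz G Z T hm x) v) P b3
  have c3 := rect_dg (G := G) (D := cz G Z T hm x \ P) (D' := cz G Z T hm z \ P')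
    (X := msd G (cz G Z T hm x) v \ P) (Y := msd G (cz G Z T hm z) v \ P')
    (sdiff_subset_sdiff (fun a ha => ((h.mem_msd hx hx hvH).1 ha).1) subset_rfl)
    (sdiff_subset_sdiff (fun a ha => ((h.mem_msd hx hz' hvH).1 ha).1) subset_rfl)
    (fun a ha c hc => by
      have hcell := h.csys.cellD hF hx hz' hxz
      have hvD := h.csys.mem_Dbl_of_tlo h.hh hx hvH hvz
      obtain ⟨a1, a2⟩ := (h.mem_msd hx hx hvH).1 (mem_sdiff.1 ha).1
      obtain ⟨a3, a4⟩ := (h.mem_msd hx hz' hvH).1 (mem_sdiff.1 hc).1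
      exact hcell.rect v hvD a a1 c a3 a2 a4)
  refine le_trans ?_ c3
  have c5 : (nui G (cz G Z T hm x) (tlo G T hm) (B x) z w : ℤ)
      ≤ ((msd G (cz G Z T hm x) v \ P).card : ℤ) := by
    rw [hnu]
    exact_mod_cast card_le_card c1
  exact mul_le_mul (max_le c5 ((by linarith : _ ≤ _).trans ((le_max_right _ _).trans c4)))
    (le_trans (max_le_max le_rfl (by linarith)) c2) (le_max_left _ _) (Nat.cast_nonneg _)

/-- **the pair: the rectangle of an item of the row `x` with tail `z`**, all arcs -/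
theorem WCoreK.rectFA (hp : 2 * r ≤ p) (h : WCoreK G Z T r m n p hm)
    (hB : ∀ x ∈ T, Pk G (cz G Z T hm x) (hz G Z T hm x) (tlo G T hm) (B x) (Ps x))
    (hmin : ∀ x ∈ T, ∀ B' Ps', Pk G (cz G Z T hm x) (hz G Z T hm x) (tlo G T hm) B' Ps' →
      (Ps x).card ≤ Ps'.card)
    {x z : V} (hx : x ∈ T) (hz' : z ∈ T) (hxz : x ≠ z) {w : Itm V}
    (hw : w ∈ pkf (B x) (Ps x)) (hw1 : ivl w = 1) (hwk : ikp (tlo G T hm) z w ≠ 0) :
    ∑ u ∈ pkf (B x) (Ps x), iht G (cz G Z T hm) (tlo G T hm) z u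
      + ∑ u ∈ pkf (B z) (Ps z), iht G (cz G Z T hm) (tlo G T hm) x u
      + max (nui G (cz G Z T hm x) (tlo G T hm) (B x) z w : ℤ)
          (aha G Z T hm B x z w - pcn (tlo G T hm) B x z)
        * max 0 (max (aha G Z T hm B x z w) (ims G (cz G Z T hm) (tlo G T hm) z w)
          - pcn (tlo G T hm) B z x) ≤ EI G hm Z x z := by
  have hfam : ∀ x ∈ T, Fam (co G) (cz G Z T hm) (hz G Z T hm) (tlo G T hm) x
      (pkf (B x) (Ps x)) := fun x hx => (hB x hx).fam (h.csys.dCH hx hx).symm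
  obtain ⟨v, hv, hvH, hvz, hnu, hfr, h2, h3⟩ := h.rep3 hp hx (hB x hx) (hmin x hx) hw hw1 hwk
  have h1 := Fam.pairK h.wsysT hfam hx hz' hxz (Wx := ∅) (Wz := ∅) (empty_subset _)
    (empty_subset _) (fun v hv => absurd hv (notMem_empty _))
    (fun v hv => absurd hv (notMem_empty _))
  rw [sum_empty, sum_empty] at h1
  have hpcz : ∀ x y, pcz (tlo G T hm) y (pkf (B x) (Ps x)) = pcs (tlo G T hm) (B x) y := by
    intro x y
    ext e
    rw [mem_pcz, inr_mem_pkf, mem_pcs]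
  have hcell := h.csys.cellD h.F.toPFrame hx hz' hxz
  have hvD := h.csys.mem_Dbl_of_tlo h.hh hx hvH hvz
  have h4 : (msd G (cz G Z T hm x) v \ (pcs (tlo G T hm) (B x) z).image Prod.snd)
      ×ˢ (msd G (cz G Z T hm z) v \ (pcs (tlo G T hm) (B z) x).image Prod.snd)
      ⊆ KE G (cz G Z T hm) (tlo G T hm) (fun x => pkf (B x) (Ps x)) x z := by
    intro q hq
    obtain ⟨h4, h5⟩ := mem_product.1 hq
    obtain ⟨h6, h7⟩ := mem_sdiff.1 h5
    obtain ⟨h8, h9⟩ := mem_sdiff.1 h4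
    obtain ⟨a1, a2⟩ := (h.mem_msd hx hx hvH).1 h8
    obtain ⟨b1, b2⟩ := (h.mem_msd hx hz' hvH).1 h6
    unfold KE
    rw [hpcz, hpcz]
    exact mem_filter.2 ⟨mem_product.2 ⟨mem_sdiff.2 ⟨a1, h9⟩, mem_sdiff.2 ⟨b1, h7⟩⟩,
      hcell.rect v hvD _ a1 _ b1 a2 b2⟩
  have h5 := card_le_card h4
  rw [card_product] at h5
  have a1 := card_sdiff_ge (msd G (cz G Z T hm z) v)
    ((pcs (tlo G T hm) (B z) x).image Prod.snd) (q := pcn (tlo G T hm) B z x) (by
      unfold pcn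
      exact_mod_cast card_image_le)
  have a2 := card_sdiff_ge (msd G (cz G Z T hm x) v)
    ((pcs (tlo G T hm) (B x) z).image Prod.snd) (q := pcn (tlo G T hm) B x z) (by
      unfold pcn
      exact_mod_cast card_image_le)
  have a3 : (nui G (cz G Z T hm x) (tlo G T hm) (B x) z w : ℤ)
      ≤ ((msd G (cz G Z T hm x) v \ (pcs (tlo G T hm) (B x) z).image Prod.snd).card : ℤ) := by
    rw [hnu]
    have : frC G (cz G Z T hm x) (tlo G T hm) (B x) v
        ⊆ msd G (cz G Z T hm x) v \ (pcs (tlo G T hm) (B x) z).image Prod.snd := by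
      intro a ha
      obtain ⟨b1, b2, b3⟩ := mem_frC.1 ha
      refine mem_sdiff.2 ⟨hfr ha, fun h4 => ?_⟩
      obtain ⟨e, he, hea⟩ := mem_image.1 h4
      obtain ⟨h9, h10⟩ := mem_pcs.1 he
      exact b3 e h9 hea (h10.trans hvz.symm)
    exact_mod_cast card_le_card this
  have a4 := mul_le_mul (max_le a3 ((by linarith : aha G Z T hm B x z w
      - pcn (tlo G T hm) B x z ≤ _).trans ((le_max_right _ _).trans a2)))
    (le_trans (max_le_max le_rfl (by linarith : max (aha G Z T hm B x z w)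
      (ims G (cz G Z T hm) (tlo G T hm) z w : ℤ) - pcn (tlo G T hm) B z x ≤ _)) a1)
    (le_max_left _ _) (Nat.cast_nonneg _)
  have h6 : EI G hm Z x z = ∑ v ∈ Z.filter (fun v => hm v = z),
      (dg G (Z.filter fun v => hm v = x) v : ℤ) := rfl
  have h7 : (((msd G (cz G Z T hm x) v \ (pcs (tlo G T hm) (B x) z).image Prod.snd).card
      * (msd G (cz G Z T hm z) v \ (pcs (tlo G T hm) (B z) x).image Prod.snd).card : ℕ) : ℤ)
      ≤ (KE G (cz G Z T hm) (tlo G T hm) (fun x => pkf (B x) (Ps x)) x z).card := by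
    exact_mod_cast h5
  push_cast at h7
  rw [h6]
  linarith

end RectA

end Pool.Agent.Lib.MP_f04ccf_co
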