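import Pool.Agent.Lib.MP_f04ccf_co.M.CelX
import Pool.Agent.Lib.MP_f04ccf_co.M.NumZ
import Pool.Agent.Lib.MP_f04ccf_co.M.UnitL

/-!
MP_f04ccf_co, TEXT D, table M2 (main end = the end with fewer misses): **the misses at the main end**.

Levels `LevC` for the order `φ u i = mn i u` (the cut end is the end with the most misses):
* `LevC.mn_cut`: `mn i u ≤ mn (f u) u`; `LevC.mn_sq`: `(mn i u)² ≤ mn i u * mn (f u) u ≤ R + t i * t (f u)`;
  `LevC.unb_cutM`, `LevC.unb_sqM`: the same for the misses of a unit;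
* `PCon.rectN`: the rectangle of an item of value one in numbers: `M = be z j`, all plain hosted items out (`G` of
  them), all Konig pairs of the other tails out, the block pairs of the tails `Y` out, the others kept (`b` of them);
* `LevC.rect_sq`: for an item of value one with the cut end `j`: `(x - M)⁺ x` with `x = mn z w` instead of the
  product.
-/

set_option autoImplicit false

namespace Pool.Agent.Lib.MP_f04ccf_co

open Finset

attribute [local instance] Classical.propDecidable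

section RectM

variable {ι : Type*} {R : ℤ} {n : ℕ} {t s mu : ℕ → ℤ} {U : Finset ι} {ho : ι → ℕ} {vl : ι → ℤ}
  {kp mn : ℕ → ι → ℤ} {pc ar : ι → ℤ} {be kq NN sg : ℕ → ℕ → ℤ} {nu : ℕ → ι → ℤ}
  {g : ℕ → ι → ℕ} {f : ι → ℕ}

/-- **the cut end has the most misses** -/
lemma LevC.mn_cut (C : LevC n U ho vl kp mn pc (fun u i => mn i u) g f)
    (H : PCon R n t s mu U ho vl kp mn pc ar be kq NN sg nu) {u : ι} (hu : u ∈ U) {i : ℕ}
    (hi : i < n) : mn i u ≤ mn (f u) u := by
  by_cases h1 : i = f u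
  · rw [h1]
  by_cases h2 : kp i u = 0
  · rw [H.mnz u hu i hi h2]
    exact H.m0 u hu _ (C.fn u hu)
  · rcases C.typ u hu with ⟨-, -, -, -, h3⟩ | ⟨-, -, -, h3⟩
    · exact absurd (h3 i hi h1) h2
    · exact h3 i hi h2

/-- **the misses at an end which is not cut** -/
lemma LevC.mn_sq (C : LevC n U ho vl kp mn pc (fun u i => mn i u) g f)
    (H : PCon R n t s mu U ho vl kp mn pc ar be kq NN sg nu) {u : ι} (hu : u ∈ U) {i : ℕ}
    (hi : i < n) (hif : i ≠ f u) :
    mn i u * mn i u ≤ mn i u * mn (f u) u ∧ mn i u * mn (f u) u ≤ R + t i * t (f u) :=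
  ⟨mul_le_mul_of_nonneg_left (C.mn_cut H hu hi) (H.m0 u hu i hi), H.mpr u hu i hi _ (C.fn u hu) hif⟩

/-- the misses of a unit: not more than at the cut end of its item, and zero when its main end is cut -/
lemma LevC.unb_cutM (C : LevC n U ho vl kp mn pc (fun u i => mn i u) g f)
    (H : PCon R n t s mu U ho vl kp mn pc ar be kq NN sg nu) {v : ι × ℕ × ℕ} (hv : v ∈ unV n U g) :
    0 ≤ unb kp mn g v ∧ unb kp mn g v ≤ mn (f v.1) v.1 ∧ (v.2.1 = f v.1 → unb kp mn g v = 0) := by
  have hu : v.1 ∈ U ∧ v.2.1 < n := by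
    unfold unV at hv
    simp only [mem_filter, mem_product, mem_range] at hv
    exact ⟨hv.1.1, hv.1.2.1⟩
  have h1 := H.m0 _ hu.1 _ hu.2
  have h2 := C.mn_cut H hu.1 hu.2
  have h3 := H.m0 _ hu.1 _ (C.fn _ hu.1)
  unfold unb
  split_ifs with h4
  · refine ⟨h1, h2, fun h5 => ?_⟩
    rcases C.typ _ hu.1 with ⟨-, -, -, h6, -⟩ | ⟨-, h6, -⟩
    · rw [h5]
      exact h6
    · exfalso
      obtain ⟨h7, -⟩ := h4
      rw [h5] at h7
      omega
  · exact ⟨le_rfl, h3, fun _ => rfl⟩

/-- **the misses of a unit**: the square is below the product, `R + t t'` -/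
lemma LevC.unb_sqM (C : LevC n U ho vl kp mn pc (fun u i => mn i u) g f)
    (H : PCon R n t s mu U ho vl kp mn pc ar be kq NN sg nu) {v : ι × ℕ × ℕ} (hv : v ∈ unV n U g) :
    unb kp mn g v * unb kp mn g v ≤ R + t v.2.1 * t (f v.1) := by
  have hu : v.1 ∈ U ∧ v.2.1 < n := by
    unfold unV at hv
    simp only [mem_filter, mem_product, mem_range] at hv
    exact ⟨hv.1.1, hv.1.2.1⟩
  obtain ⟨h1, h2, h3⟩ := C.unb_cutM H hv
  have h0 : 0 ≤ R + t v.2.1 * t (f v.1) := by
    have h4 : 0 ≤ R := by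
      have h5 := H.tsum
      have h6 : 0 ≤ ∑ i ∈ range n, (t i + 1) := sum_nonneg fun i hi => by
        have := H.t0 i (mem_range.1 hi)
        linarith
      linarith
    have h5 := mul_nonneg (H.t0 _ hu.2) (H.t0 _ (C.fn _ hu.1))
    linarith
  by_cases h4 : v.2.1 = f v.1
  · rw [h3 h4]
    linarith
  · have h5 := C.mn_sq H hu.1 hu.2 h4
    by_cases h6 : kp v.2.1 v.1 ≤ (g v.2.1 v.1 : ℤ) ∧ v.2.2 + 1 = g v.2.1 v.1
    · have h7 : unb kp mn g v = mn v.2.1 v.1 := if_pos h6
      rw [h7]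
      linarith [h5.1, h5.2]
    · have h7 : unb kp mn g v = 0 := if_neg h6
      rw [h7]
      linarith

/-- **THE RECTANGLE IN NUMBERS**: `M` PC pairs of the host `z` with the tail `j`, all `G` plain hosted items out, all
Konig pairs of the other tails out, the block pairs of the tails `Y` out, `b` other ones kept -/
theorem PCon.rectN (H : PCon R n t s mu U ho vl kp mn pc ar be kq NN sg nu) {z j : ℕ} (hz : z < n)
    (hj : j < n) (hjz : j ≠ z) {Y : Finset ℕ} (hY : Y ⊆ ((range n).erase z).erase j) {w : ι}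
    (hw : w ∈ U) (hw1 : vl w = 1) {M b G : ℤ} (hM : M = be z j)
    (hb : b = ∑ l ∈ ((range n).erase z).erase j \ Y, (be z l - kq z l))
    (hG : G = ((U.filter fun u => ho u = z ∧ pc u = 0).card : ℤ)) :
    2 * (max 0 (mn z w - M) * mn j w) + 2 * (M * (R - t j)) + (M + b) * (M + b + 1)
      ≤ 2 * (R - t j) + 2 * ((t z + 1) * (M + b))
        + 2 * ((t j - (M + b)) * (mu z - s z + G - (M + b)))
        + (∑ l ∈ ((range n).erase z).erase j \ Y, (be z l - kq z l) * (be z l - kq z l + 1)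
          + NN z j + 2 * ∑ l ∈ Y, (be z l - kq z l) * sg z l) := by
  obtain ⟨X, hX⟩ : ∃ X, X = ((range n).erase z).erase j := ⟨_, rfl⟩
  obtain ⟨D, hD⟩ : ∃ D, D = U.filter fun u => ho u = z ∧ pc u = 0 := ⟨_, rfl⟩
  have hDz : ∀ u ∈ D, ho u = z ∧ pc u = 0 := fun u hu => by
    rw [hD] at hu
    exact (mem_filter.1 hu).2
  have hDU : D ⊆ U := by
    rw [hD]
    exact filter_subset _ _
  have hXr : X ⊆ range n := by
    rw [hX]
    exact (erase_subset _ _).trans (erase_subset _ _)
  have hjX : j ∉ X := by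
    rw [hX]
    exact notMem_erase _ _
  have hYX : Y ⊆ X := by
    rw [hX]
    exact hY
  -- the kept value
  have h1 : mu z - ∑ l ∈ X, kq z l - ∑ l ∈ Y, (be z l - kq z l) - ∑ u ∈ D, vl u = M + b := by
    have e1 := H.split_pc (z := z) (D := ∅) (fun u hu => absurd hu (notMem_empty u)) vl
    have e2 : ∑ u ∈ U.filter (fun u => ho u = z), pc u * vl u
        = ∑ u ∈ U.filter (fun u => ho u = z), pc u := by
      refine sum_congr rfl fun u hu => ?_
      by_cases h4 : pc u = 0
      · rw [h4, zero_mul]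
      · rw [(H.pc_fact (mem_filter.1 hu).1 h4).2.1, mul_one]
    simp only [notMem_empty, not_false_eq_true, and_true, true_and] at e1
    rw [← H.hmu z hz, e2, H.pc_tails hz, ← hD] at e1
    have e3 := add_sum_erase ((range n).erase z) (fun l => be z l)
      (mem_erase.2 ⟨hjz, mem_range.2 hj⟩)
    beta_reduce at e3
    rw [← hX, ← hM] at e3
    have e4 : ∑ l ∈ X, (be z l - kq z l) = b + ∑ l ∈ Y, (be z l - kq z l) := by
      rw [hb, ← hX, sum_sdiff hYX]
    rw [sum_sub_distrib] at e4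
    linarith
  -- the hits
  have h2 : ∑ u ∈ U.filter (fun u => ho u = z ∧ u ∉ D), (kp j u * (R - t j) - mn j u)
      = M * (R - t j) := by
    have e1 : (U.filter fun u => ho u = z ∧ u ∉ D ∧ pc u = 0) = ∅ := by
      rw [eq_empty_iff_forall_notMem]
      intro u hu
      obtain ⟨a, b', c, d⟩ := mem_filter.1 hu
      exact c (hD ▸ mem_filter.2 ⟨a, b', d⟩)
    rw [H.split_pc hDz, e1, sum_empty, add_zero, hM, ← H.pcb z hz j hj, sum_mul]
    refine sum_congr rfl fun u hu => ?_
    by_cases h4 : pc u = 0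
    · rw [h4]
      ring
    · rw [(H.pc_fact (mem_filter.1 hu).1 h4).2.2.1 j hj]
      ring
  have h3 := PCon.exD H.tpx hz hj hjz hXr hjX hYX hDU hDz hw hw1 (d := mu z - s z)
    (m := M + b) rfl h1.symm (g := (D.card : ℤ)) rfl
  have h4 : (range n).erase z \ X = {j} := by
    rw [hX]
    ext l
    simp only [mem_sdiff, mem_erase, mem_range, mem_singleton, not_and]
    constructor
    · rintro ⟨⟨h4, h5⟩, h6⟩
      by_contra h7
      exact h6 h7 h4 h5
    · rintro rfl
      exact ⟨⟨hjz, hj⟩, fun h5 => absurd rfl h5⟩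
  have h5 : ∀ l ∈ Y, (be z l - kq z l) * (sg z l
      + ((U.filter fun u => ho u = z ∧ u ∉ D ∧ pc u = 0 ∧ kp l u ≠ 0).card : ℤ))
      = (be z l - kq z l) * sg z l := by
    intro l _
    have e1 : (U.filter fun u => ho u = z ∧ u ∉ D ∧ pc u = 0 ∧ kp l u ≠ 0) = ∅ := by
      rw [eq_empty_iff_forall_notMem]
      intro u hu
      obtain ⟨a, b', c, d, -⟩ := mem_filter.1 hu
      exact c (hD ▸ mem_filter.2 ⟨a, b', d⟩)
    rw [e1, card_empty, Nat.cast_zero, add_zero]
  rw [h2, h4, sum_singleton, sum_congr rfl h5, ← hM, max_eq_right (H.m0 w hw j hj)] at h3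
  rw [hG, ← hD, ← hX]
  linarith

/-- **the square of the misses at the main end**, an item of value one with the cut end `j` -/
theorem LevC.rect_sq (C : LevC n U ho vl kp mn pc (fun u i => mn i u) g f)
    (H : PCon R n t s mu U ho vl kp mn pc ar be kq NN sg nu) {z j : ℕ} (hz : z < n)
    (hjz : j ≠ z) {Y : Finset ℕ} (hY : Y ⊆ ((range n).erase z).erase j) {w : ι}
    (hw : w ∈ U) (hw1 : vl w = 1) (hwj : f w = j) {M b G : ℤ} (hM : M = be z j)
    (hb : b = ∑ l ∈ ((range n).erase z).erase j \ Y, (be z l - kq z l))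
    (hG : G = ((U.filter fun u => ho u = z ∧ pc u = 0).card : ℤ)) :
    2 * (max 0 (mn z w - M) * mn z w) + 2 * (M * (R - t j)) + (M + b) * (M + b + 1)
      ≤ 2 * (R - t j) + 2 * ((t z + 1) * (M + b))
        + 2 * ((t j - (M + b)) * (mu z - s z + G - (M + b)))
        + (∑ l ∈ ((range n).erase z).erase j \ Y, (be z l - kq z l) * (be z l - kq z l + 1)
          + NN z j + 2 * ∑ l ∈ Y, (be z l - kq z l) * sg z l) := by
  have hj : j < n := hwj ▸ C.fn w hw
  have h1 := H.rectN hz hj hjz hY hw hw1 hM hb hG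
  have h2 := C.mn_cut H hw hz
  rw [hwj] at h2
  have h3 := mul_le_mul_of_nonneg_left h2 (le_max_left 0 (mn z w - M))
  linarith

end RectM

end Pool.Agent.Lib.MP_f04ccf_co
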