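import Pool.Agent.Lib.MP_f04ccf_co.M.RigS

/-!
MP_f04ccf_co: rigidity with a small factor.  If every clique with `n + 1` points of a graph with
independence number at most `k` has at most `d ≤ n` points in `C`, then the degrees of the points of
`C` exceed `n - 1` in total by at most `l` times the Turan excess plus `d (|S| - n k)`, for every
`l` with `d ≤ l`, `n - d + 3 ≤ l` (`rigl`).  `RigU G r`: the inequality for the missing degrees, for
every set `S` and every slope `n` (`rigU_col`).  For `j`-closed systems `l = max (j + 3) (n - j)`: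
`JSys.rgu`, `JSys.rgu_dg`, on the slots `JSys.rgus`, in the basic integers `RGU`, `JSys.rgui`.
-/

set_option autoImplicit false

namespace Pool.Agent.Lib.MP_f04ccf_co

open Finset

attribute [local instance] Classical.propDecidable

section RigLam

variable {V : Type*}

/-- **rigidity with defect and a small factor** -/
theorem rigl (G : SimpleGraph V) (n d l : ℕ) (hd : d ≤ n) (hl : d ≤ l) (hl3 : n + 3 ≤ l + d) :
    ∀ (k : ℕ) (S C : Finset V), AlphaLe G S k → C ⊆ S →
    (∀ K : Finset V, K ⊆ S → Clq G K → K.card = n + 1 → (K ∩ C).card ≤ d) →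
    2 * ∑ c ∈ C, ((dg G S c : ℤ) - (n - 1)) ≤
      (l : ℤ) * (E G S - 2 * n * S.card + k * (n * (n + 1))) +
        2 * d * ((S.card : ℤ) - n * k) := by
  intro k
  induction k with
  | zero =>
    intro S C hS hC _
    have h1 := hS.zero
    subst h1
    have h2 := subset_empty.1 hC
    subst h2
    simp [E]
  | succ k ih =>
    intro S C hS hC hK
    have hn0 : (0 : ℤ) ≤ n := Int.natCast_nonneg _
    have hk0 : (0 : ℤ) ≤ k := Int.natCast_nonneg _
    have hd0 : (0 : ℤ) ≤ d := Int.natCast_nonneg _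
    have hdn : (d : ℤ) ≤ n := by exact_mod_cast hd
    have hdl : (d : ℤ) ≤ l := by exact_mod_cast hl
    have hnl : (n : ℤ) + 3 ≤ l + d := by exact_mod_cast hl3
    have hl2 : (2 : ℤ) ≤ l := by linarith
    by_cases hS0 : S = ∅
    · subst hS0
      have h2 := subset_empty.1 hC
      subst h2
      have h3 : (0 : ℤ) ≤ ((k : ℤ) + 1) * (l * ((n : ℤ) * (n - 1)) + 2 * (n * (l - d))) := by
        refine mul_nonneg (by omega) (add_nonneg (mul_nonneg (by omega) (consec_nonneg _)) ?_)
        exact mul_nonneg (by norm_num) (mul_nonneg hn0 (by omega))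
      simp only [E, sum_empty, card_empty, Nat.cast_zero, mul_zero, sub_zero, zero_sub]
      push_cast
      linear_combination h3
    obtain ⟨v, hv, hmin⟩ := exists_min_image S (fun w => dg G S w) (nonempty_iff_ne_empty.2 hS0)
    have hNS := nb_sub G S v
    have hvN : v ∈ nb G S v := mem_filter.2 ⟨hv, Or.inl rfl⟩
    have hq := nb_card G hv
    have h1 := ih (S \ nb G S v) (C \ nb G S v) (hS.sdiff_nb G hv) (sdiff_subset_sdiff hC le_rfl)
      (fun K hKS hKq hKc => (card_le_card (inter_subset_inter_left sdiff_subset)).trans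
        (hK K (hKS.trans sdiff_subset) hKq hKc))
    have h2 := E_sdiff G hNS
    set N : Finset V := nb G S v with hN
    set P : ℕ := ∑ z ∈ N, dg G S z with hP
    -- degrees in `N`
    have hPq : (N.card : ℤ) * (N.card - 1) ≤ P := by
      have h3 := card_nsmul_le_sum N (fun z => dg G S z) (dg G S v) (fun z hz => hmin z (hNS hz))
      rw [smul_eq_mul] at h3
      have h4 : (N.card : ℤ) - 1 = dg G S v := by rw [hq]; push_cast; ring
      rw [h4]
      exact_mod_cast h3
    have hEN : (E G N : ℤ) ≤ (N.card : ℤ) * (N.card - 1) := by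
      have h3 := E_add_NE (G := G) N
      have h4 : (0 : ℤ) ≤ NE G N := Int.natCast_nonneg _
      omega
    -- the outer points of `C`
    have hout : ∑ c ∈ C \ N, ((dg G S c : ℤ) - (n - 1)) + E G N ≤
        ∑ c ∈ C \ N, ((dg G (S \ N) c : ℤ) - (n - 1)) + P := by
      have h3 : ∑ c ∈ C \ N, ((dg G S c : ℤ) - (n - 1)) =
          ∑ c ∈ C \ N, ((dg G (S \ N) c : ℤ) - (n - 1)) + ((∑ c ∈ C \ N, dg G N c : ℕ) : ℤ) := by
        push_cast
        rw [← sum_add_distrib]
        refine sum_congr rfl fun c _ => ?_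
        rw [dg_sdiff G hNS c]
        push_cast
        ring
      have h4 : ∑ c ∈ C \ N, dg G N c ≤ ∑ c ∈ S \ N, dg G N c :=
        sum_le_sum_of_subset (sdiff_subset_sdiff hC le_rfl)
      have h5 := dg_comm G (S \ N) N
      have h6 : P = ∑ z ∈ N, dg G (S \ N) z + E G N := by
        rw [hP]
        unfold E
        rw [← sum_add_distrib]
        exact sum_congr rfl fun z _ => dg_sdiff G hNS z
      rw [h3]
      omega
    have hsum : ∑ c ∈ C, ((dg G S c : ℤ) - (n - 1)) =
        ∑ c ∈ C ∩ N, ((dg G S c : ℤ) - (n - 1)) + ∑ c ∈ C \ N, ((dg G S c : ℤ) - (n - 1)) := by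
      have h3 := sum_sdiff (f := fun c => (dg G S c : ℤ) - (n - 1))
        (inter_subset_left : C ∩ N ⊆ C)
      rw [sdiff_inter_self_left] at h3
      rw [← h3, add_comm]
    -- the local inequality
    have hloc : 2 * ∑ c ∈ C ∩ N, ((dg G S c : ℤ) - (n - 1)) ≤
        l * (2 * P - E G N - 2 * n * N.card + n * (n + 1)) - 2 * P + 2 * E G N
          + 2 * d * (N.card - n) := by
      have hdeg : ∀ z ∈ N, (N.card : ℤ) - 1 ≤ dg G S z := fun z hz => by
        have h3 := hmin z (hNS hz)
        omega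
      have e1 : 0 ≤ ((l : ℤ) - 2) * (2 * P - E G N - (N.card : ℤ) * (N.card - 1)) :=
        mul_nonneg (by omega) (by omega)
      have e2 : 0 ≤ (l : ℤ) * (((N.card : ℤ) - n) * ((N.card : ℤ) - n - 1)) :=
        mul_nonneg (by omega) (consec_nonneg _)
      -- sums over parts of `N`
      have hsub : ∀ s : ℤ, s ≤ N.card - 1 → ∑ c ∈ C ∩ N, ((dg G S c : ℤ) - s) ≤
          P - (N.card : ℤ) * s := by
        intro s hs
        have h4 : ∑ c ∈ C ∩ N, ((dg G S c : ℤ) - s) ≤ ∑ c ∈ N, ((dg G S c : ℤ) - s) := by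
          refine sum_le_sum_of_subset_of_nonneg inter_subset_right fun c hc _ => ?_
          have := hdeg c hc
          linarith
        have h5 : ∑ c ∈ N, ((dg G S c : ℤ) - s) = P - (N.card : ℤ) * s := by
          rw [sum_sub_distrib, sum_const, nsmul_eq_mul, hP]
          push_cast
          ring
        linarith
      by_cases hqn : N.card ≤ n
      · have hqn' : (N.card : ℤ) ≤ n := by exact_mod_cast hqn
        have hD : ∑ c ∈ C ∩ N, ((dg G S c : ℤ) - (n - 1)) ≤ P - (N.card : ℤ) * (N.card - 1) := by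
          have h3 : ∑ c ∈ C ∩ N, ((dg G S c : ℤ) - (n - 1)) ≤
              ∑ c ∈ C ∩ N, ((dg G S c : ℤ) - (N.card - 1)) :=
            sum_le_sum fun c _ => by linarith
          exact h3.trans (hsub _ le_rfl)
        have e5 : 0 ≤ ((n : ℤ) - N.card) * (l - d) := mul_nonneg (by omega) (by omega)
        have e6 : 0 ≤ (l : ℤ) * (((n : ℤ) - N.card) * ((n : ℤ) - N.card - 1)) :=
          mul_nonneg (by omega) (consec_nonneg _)
        linear_combination 2 * hD + e1 + 2 * e5 + e6
      · have hqn' : (n : ℤ) + 1 ≤ N.card := by exact_mod_cast not_le.1 hqn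
        by_cases hcl : Clq G N
        · -- `N` is a clique
          have hg : (C ∩ N).card ≤ d := by
            by_contra hlt
            obtain ⟨Y, hY, hYc⟩ := exists_subset_card_eq (show d + 1 ≤ (C ∩ N).card by omega)
            obtain ⟨K, hK1, hK2, hK3⟩ := exists_subsuperset_card_eq (hY.trans inter_subset_right)
              (show Y.card ≤ n + 1 by omega) (show n + 1 ≤ N.card by omega)
            have h3 := hK K (hK2.trans hNS)
              (fun x hx y hy hxy => hcl x (hK2 hx) y (hK2 hy) hxy) hK3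
            have h4 : Y ⊆ K ∩ C := fun y hy =>
              mem_inter.2 ⟨hK1 hy, (mem_inter.1 (hY hy)).1⟩
            have h5 := card_le_card h4
            omega
          have hg' : ((C ∩ N).card : ℤ) ≤ d := by exact_mod_cast hg
          have hD : ∑ c ∈ C ∩ N, ((dg G S c : ℤ) - (n - 1)) ≤
              P - (N.card : ℤ) * (N.card - 1) + d * (N.card - n) := by
            have h3 : ∑ c ∈ C ∩ N, ((dg G S c : ℤ) - (n - 1)) =
                ∑ c ∈ C ∩ N, ((dg G S c : ℤ) - (N.card - 1)) +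
                  (C ∩ N).card * ((N.card : ℤ) - n) := by
              rw [← nsmul_eq_mul, ← sum_const, ← sum_add_distrib]
              exact sum_congr rfl fun c _ => by ring
            have h4 := hsub _ (le_refl ((N.card : ℤ) - 1))
            have h5 : ((C ∩ N).card : ℤ) * ((N.card : ℤ) - n) ≤ d * (N.card - n) :=
              mul_le_mul_of_nonneg_right hg' (by omega)
            linarith
          linear_combination 2 * hD + e1 + e2
        · have h3 := E_add_two_le G hcl
          have hD := hsub ((n : ℤ) - 1) (by omega)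
          -- `i = |N| - n`, `l = n - d + 3 + m`
          have e5 : 0 ≤ ((l : ℤ) - 2) * (2 * P - E G N - (N.card : ℤ) * (N.card - 1) - 2) :=
            mul_nonneg (by omega) (by omega)
          have e7 : 0 ≤ ((n : ℤ) - d + 1) * (((N.card : ℤ) - n - 1) * ((N.card : ℤ) - n - 1 - 1)) :=
            mul_nonneg (by omega) (consec_nonneg _)
          have e8 : 0 ≤ ((l : ℤ) + d - n - 3) * (2 + ((N.card : ℤ) - n) * ((N.card : ℤ) - n - 1)) :=
            mul_nonneg (by omega) (add_nonneg (by norm_num) (consec_nonneg _))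
          linear_combination 2 * hD + e5 + e7 + e8
    have hcard : ((S \ N).card : ℤ) = S.card - N.card := by
      have := card_sdiff_add_card_eq_card hNS
      omega
    have h2' : (E G (S \ N) : ℤ) = E G S + E G N - 2 * P := by
      omega
    rw [hcard, h2'] at h1
    rw [hsum]
    push_cast
    linear_combination 2 * hout + h1 + hloc

/-- the rigidity inequality for the missing degrees, every set and every slope -/
def RigU (G : SimpleGraph V) (r : ℕ) : Prop :=
  ∀ (n d l : ℕ) (S C : Finset V), d ≤ n → d ≤ l → n + 3 ≤ l + d → C ⊆ S →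
    (∀ I : Finset V, I ⊆ S → Ind G I → I.card = n + 1 → (I ∩ C).card ≤ d) →
    2 * ∑ x ∈ C, (nd G S x : ℤ) ≤ 2 * ((n : ℤ) - 1) * (r - 1) * C.card +
      l * (NE G S - (r - 1) * (2 * n * S.card - r * (n * (n + 1)))) +
        2 * d * (r - 1) * ((S.card : ℤ) - n * r)

/-- the colour classes have the rigidity property -/
theorem rigU_col {r : ℕ} {c : V → V → Fin r} {hc : ∀ x y, c x y = c y x} (hs : Sees c)
    (k : Fin r) : RigU (col c hc k) r := by
  intro n d l S C hd hl hl3 hCS hI
  have hr1 : (((univ.erase k : Finset (Fin r)).card : ℕ) : ℤ) = r - 1 := by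
    rw [card_erase_of_mem (mem_univ k), card_univ, Fintype.card_fin]
    have : 0 < r := k.pos
    omega
  have h1 : ∀ j ∈ (univ.erase k : Finset (Fin r)),
      2 * ∑ x ∈ C, ((dg (col c hc j) S x : ℤ) - (n - 1)) ≤
      (l : ℤ) * (E (col c hc j) S - 2 * n * S.card + r * (n * (n + 1))) +
        2 * d * ((S.card : ℤ) - n * r) := fun j hj =>
    rigl (col c hc j) n d l hd hl hl3 r S C (alpha_le hc hs j S) hCS
      (fun K hK hKq hKc => hI K hK (clq_ind hc (ne_of_mem_erase hj).symm hKq) hKc)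
  have h2 := sum_le_sum h1
  rw [← mul_sum, sum_comm] at h2
  have h3 : ∀ x ∈ C, ∑ j ∈ (univ.erase k : Finset (Fin r)),
      ((dg (col c hc j) S x : ℤ) - (n - 1)) = nd (col c hc k) S x - (r - 1) * (n - 1) := by
    intro x hx
    have h4 := sum_dg hc S (hCS hx)
    have h5 := dg_add_nd (G := col c hc k) (hCS hx)
    rw [← add_sum_erase univ _ (mem_univ k)] at h4
    rw [sum_sub_distrib, sum_const, nsmul_eq_mul, hr1]
    have h6 : ((∑ j ∈ univ.erase k, dg (col c hc j) S x : ℕ) : ℤ) = nd (col c hc k) S x := by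
      omega
    rw [← h6]
    push_cast
    ring
  rw [sum_congr rfl h3, sum_sub_distrib, sum_const, nsmul_eq_mul] at h2
  have h4 : ∑ j ∈ (univ.erase k : Finset (Fin r)),
      ((l : ℤ) * ((E (col c hc j) S : ℤ) - 2 * n * S.card + r * (n * (n + 1))) +
        2 * d * ((S.card : ℤ) - n * r)) =
      l * (NE (col c hc k) S - (r - 1) * (2 * n * S.card - r * (n * (n + 1)))) +
        2 * d * (r - 1) * ((S.card : ℤ) - n * r) := by
    have h5 := sum_E_int hc S
    rw [← add_sum_erase univ _ (mem_univ k)] at h5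
    have h6 := E_add_NE (G := col c hc k) S
    rw [sum_add_distrib, ← mul_sum, sum_add_distrib, sum_sub_distrib, sum_const, sum_const,
      sum_const, nsmul_eq_mul, nsmul_eq_mul, nsmul_eq_mul, hr1]
    have h7 : ∑ j ∈ univ.erase k, (E (col c hc j) S : ℤ) = NE (col c hc k) S := by linarith
    rw [h7]
    ring
  rw [h4] at h2
  linarith

end RigLam

section JRigU

variable {V : Type*} {G : SimpleGraph V} {r j : ℕ} {Z T A S : Finset V}

/-- **(RG) with the small factor** for a `j`-closed system with `n = |A|` rows, `d = n - j` or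
larger -/
theorem JSys.rgu (hR : RigU G r) (h : JSys G Z T j A S) (hS : S.card = A.card * r + 1) {d l : ℕ}
    (hd : A.card ≤ d + j) (hdn : d ≤ A.card) (hl : d ≤ l) (hl3 : A.card + 3 ≤ l + d)
    {C : Finset V} (hC : C ⊆ S) (hCB : ∀ x ∈ C, x ∉ BB G Z T) :
    2 * ∑ x ∈ C, (nd G S x : ℤ) ≤ 2 * ((A.card : ℤ) - 1) * (r - 1) * C.card +
      l * (NE G S - (r - 1) * (r * A.card * (A.card - 1) + 2 * A.card)) + 2 * d * (r - 1) := by
  have h1 := hR A.card d l S C hdn hl hl3 hC fun I hI hIi hIc => h.ind_class hd hCB hI hIi hIc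
  rw [hS] at h1
  push_cast at h1
  linear_combination h1

/-- the same in terms of the degrees -/
theorem JSys.rgu_dg (hR : RigU G r) (h : JSys G Z T j A S) (hS : S.card = A.card * r + 1)
    {d l : ℕ} (hd : A.card ≤ d + j) (hdn : d ≤ A.card) (hl : d ≤ l)
    (hl3 : A.card + 3 ≤ l + d) {C : Finset V} (hC : C ⊆ S) (hCB : ∀ x ∈ C, x ∉ BB G Z T) :
    2 * ∑ x ∈ C, ((r : ℤ) + A.card - 1 - dg G S x) ≤
      l * (NE G S - (r - 1) * (r * A.card * (A.card - 1) + 2 * A.card)) + 2 * d * (r - 1) := by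
  have h4 := h.rgu hR hS hd hdn hl hl3 hC hCB
  have h5 : ∑ x ∈ C, ((r : ℤ) + A.card - 1 - dg G S x) =
      ∑ x ∈ C, (nd G S x : ℤ) - ((A.card : ℤ) - 1) * (r - 1) * C.card := by
    have h6 : ∀ x ∈ C, ((r : ℤ) + A.card - 1 - dg G S x) =
        nd G S x - ((A.card : ℤ) - 1) * (r - 1) := by
      intro x hx
      have h7 := dg_add_nd (G := G) (hC hx)
      have h8 : (dg G S x : ℤ) + nd G S x + 1 = A.card * r + 1 := by
        rw [hS] at h7
        exact_mod_cast h7
      linear_combination -h8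
    rw [sum_congr rfl h6, sum_sub_distrib, sum_const, nsmul_eq_mul]
    ring
  rw [h5]
  linarith

end JRigU

section RigUSlot

variable {V : Type*} {G : SimpleGraph V} {Z T : Finset V} {hm : V → V} {r m t j : ℕ}
  {A S : Finset V}

/-- **(RG) with the small factor, on the slots**, for every set `B` of rows -/
theorem JSys.rgus (hF : PFrame G r m t Z T) (hR : RigU G r) (h : JSys G Z T j A S)
    (hs : HSys G Z T A S) (hv : S.card = A.card * r + 1)
    (hh : ∀ v ∈ S, hm v ∈ A ∧ hm v ∈ rws G T v) {d l : ℕ} (hd : A.card ≤ d + j)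
    (hdn : d ≤ A.card) (hl : d ≤ l) (hl3 : A.card + 3 ≤ l + d) {B : Finset V} (hB : B ⊆ A) :
    2 * ∑ x ∈ B, (((r : ℤ) - 1 - tI G Z T hm r S x) * (A.card - sI hm r S x)
        + mI G Z T hm S x - ∑ y ∈ A.erase x, oI G Z T hm S x y)
      ≤ l * (2 * ∑ x ∈ A, eI G hm S x + ((A.card : ℤ) ^ 2 - A.card - 2) * r
          + 2 * A.card + 1 - ∑ x ∈ A, sI hm r S x ^ 2
          - ∑ x ∈ A, ∑ y ∈ A.erase x, EI G hm S x y) + 2 * d * (r - 1) := by
  have hC := hs.csys hF hh
  have h4 := h.rgu_dg hR hv hd hdn hl hl3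
    (C := B.biUnion (CP G Z T fun x => S.filter fun v => hm v = x)) (by
      intro v hv'
      obtain ⟨x, -, h5⟩ := mem_biUnion.1 hv'
      exact (mem_filter.1 (CP_sub h5)).1) (by
      intro v hv' hvB
      obtain ⟨x, hx, h5⟩ := mem_biUnion.1 hv'
      exact disjoint_left.1 (Cl_BB_disjoint (h.sub (hB hx))) (mem_CP.1 h5).2 hvB)
  rw [hs.excess hF hh hv, sum_biUnion fun x hx y hy hxy => hC.dCP (hB hx) (hB hy) hxy,
    sum_congr rfl fun x hx => hs.sum_class hF hh (hB hx)] at h4
  exact h4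

/-- **the rigidity inequalities for the basic integers, small factor**: all `d ≥ n - j` and
`l ≥ max d (n - d + 3)` -/
structure RGU (R : ℤ) (n j : ℕ) (t s e m : ℕ → ℤ) (E o : ℕ → ℕ → ℤ) : Prop where
  m0 : ∀ i, i < n → 0 ≤ m i
  me : ∀ i, i < n → m i ≤ e i
  o0 : ∀ i k, 0 ≤ o i k
  oE : ∀ i k, o i k ≤ E i k
  rg : ∀ d l : ℕ, n ≤ d + j → d ≤ n → d ≤ l → n + 3 ≤ l + d → ∀ B : Finset ℕ, B ⊆ range n →
    2 * ∑ i ∈ B, ((R - t i) * (n - s i) + m i - ∑ k ∈ (range n).erase i, o i k)
      ≤ l * (2 * ∑ i ∈ range n, e i + ((n : ℤ) ^ 2 - n - 2) * (R + 1) + 2 * n + 1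
          - ∑ i ∈ range n, s i ^ 2 - ∑ i ∈ range n, ∑ k ∈ (range n).erase i, E i k) + 2 * d * R

/-- (RG) without the `o i k` -/
theorem RGU.crude {R : ℤ} {n j : ℕ} {t s e m : ℕ → ℤ} {E o : ℕ → ℕ → ℤ}
    (h : RGU R n j t s e m E o) {d l : ℕ} (hd : n ≤ d + j) (hdn : d ≤ n) (hl : d ≤ l)
    (hl3 : n + 3 ≤ l + d) :
    ((l : ℤ) - 2) * ∑ i ∈ range n, ∑ k ∈ (range n).erase i, E i k
      + 2 * ∑ i ∈ range n, (R - t i) * (n - s i) + 2 * ∑ i ∈ range n, m i
      ≤ l * (2 * ∑ i ∈ range n, e i + ((n : ℤ) ^ 2 - n - 2) * (R + 1) + 2 * n + 1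
          - ∑ i ∈ range n, s i ^ 2) + 2 * d * R := by
  have h1 := h.rg d l hd hdn hl hl3 (range n) (Subset.refl _)
  rw [sum_sub_distrib, sum_add_distrib] at h1
  have h2 : ∑ i ∈ range n, ∑ k ∈ (range n).erase i, o i k
      ≤ ∑ i ∈ range n, ∑ k ∈ (range n).erase i, E i k :=
    sum_le_sum fun i _ => sum_le_sum fun k _ => h.oE i k
  linarith

/-- **every `j`-closed system with homes gives the rigidity inequalities** -/
theorem JSys.rgui (hF : PFrame G r m t Z T) (hR : RigU G r) (h : JSys G Z T j A S)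
    (hs : HSys G Z T A S) (hv : S.card = A.card * r + 1)
    (hh : ∀ v ∈ S, hm v ∈ A ∧ hm v ∈ rws G T v) {f : V → ℤ} {ρ : V → ℕ} {σ : ℕ → V}
    (hσ : Rank A f ρ σ) :
    RGU ((r : ℤ) - 1) A.card j (fun i => tI G Z T hm r S (σ i))
      (fun i => sI hm r S (σ i)) (fun i => eI G hm S (σ i)) (fun i => mI G Z T hm S (σ i))
      (fun i k => EI G hm S (σ i) (σ k)) (fun i k => oI G Z T hm S (σ i) (σ k)) := by
  have er : (r : ℤ) - 1 + 1 = r := by ring
  have hA : (range A.card).image σ = A := by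
    refine eq_of_subset_of_card_le (hσ.image_sub (Subset.refl _)) ?_
    rw [hσ.card_image (Subset.refl _), card_range]
  have e1 := hσ.sum_im (Subset.refl (range A.card)) (fun x => eI G hm S x)
  have e2 := hσ.sum_im (Subset.refl (range A.card)) (fun x => sI hm r S x ^ 2)
  have e3 := hσ.sum2_im (Subset.refl (range A.card)) (EI G hm S)
  rw [hA] at e1 e2 e3
  refine ⟨fun i _ => mI_nonneg S _, fun i hi => hs.mI_le hF hh (hσ.mem i hi),
    fun _ _ => oI_nonneg S _ _, fun _ _ => oI_le S _ _, fun d l hd hdn hl hl3 B hB => ?_⟩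
  have h4 := h.rgus hF hR hs hv hh hd hdn hl hl3 (hσ.image_sub hB)
  rw [e1, e2, e3, hσ.sum_im hB fun x => ((r : ℤ) - 1 - tI G Z T hm r S x)
    * (A.card - sI hm r S x) + mI G Z T hm S x - ∑ y ∈ A.erase x, oI G Z T hm S x y] at h4
  have e4 : ∀ i ∈ B, ∑ y ∈ A.erase (σ i), oI G Z T hm S (σ i) y
      = ∑ k ∈ (range A.card).erase i, oI G Z T hm S (σ i) (σ k) := by
    intro i hi
    have e5 : A.erase (σ i) = ((range A.card).erase i).image σ := by
      conv_lhs => rw [← hA]
      ext x
      rw [mem_erase, mem_image, mem_image]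
      constructor
      · rintro ⟨h5, k, hk, rfl⟩
        exact ⟨k, mem_erase.2 ⟨fun h6 => h5 (by rw [h6]), hk⟩, rfl⟩
      · rintro ⟨k, hk, rfl⟩
        obtain ⟨h5, h6⟩ := mem_erase.1 hk
        exact ⟨fun h7 => h5 (hσ.injOn (Subset.refl _) h6 (hB hi) h7), k, h6, rfl⟩
    rw [e5, hσ.sum_im (erase_subset _ _)]
  rw [er]
  have e6 : ∑ i ∈ B, (((r : ℤ) - 1 - tI G Z T hm r S (σ i)) * (A.card - sI hm r S (σ i))
        + mI G Z T hm S (σ i) - ∑ y ∈ A.erase (σ i), oI G Z T hm S (σ i) y)
      = ∑ i ∈ B, (((r : ℤ) - 1 - tI G Z T hm r S (σ i)) * (A.card - sI hm r S (σ i))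
        + mI G Z T hm S (σ i) - ∑ k ∈ (range A.card).erase i, oI G Z T hm S (σ i) (σ k)) :=
    sum_congr rfl fun i hi => by rw [e4 i hi]
  rw [e6] at h4
  exact h4

end RigUSlot

end Pool.Agent.Lib.MP_f04ccf_co
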