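import Pool.Agent.Lib.MP_f04ccf_co.M.RigD
import Pool.Agent.Lib.MP_f04ccf_co.M.Enum

/-!
MP_f04ccf_co: the rigidity inequality (RG) on the slots of a `j`-closed system with homes, in the
basic integers.  `mI x` = missing pairs between the class part and the doubles of the slot `x`,
`oI x y` = adjacent pairs between the class part of the row `x` and the slot `y`.  `HSys.excess`: the
Turan excess of `S` in terms of the slots; `HSys.sum_class`: the degrees of the class part;
`JSys.rgs`: for every `B ⊆ A`,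
`2 sum_B ((R - t_x)(n - s_x) + m_x - o_x) <= (n + 3) X + 2 (n - j) kappa`.  `RGI`: the same on
`range n`; `RGI.crude`: the form without the `o_x`; `JSys.rgi`: every system gives the integers.
-/

set_option autoImplicit false

namespace Pool.Agent.Lib.MP_f04ccf_co

open Finset

attribute [local instance] Classical.propDecidable

section RigSlot

variable {V : Type*} {G : SimpleGraph V} {Z T : Finset V} {hm : V → V} {r m t j : ℕ}

variable (G Z T hm) in
/-- the number of missing pairs between the class part and the doubles of the slot `x` -/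
noncomputable def mI (S : Finset V) (x : V) : ℤ :=
  ∑ c ∈ CP G Z T (fun x => S.filter fun v => hm v = x) x,
    (nd G (HP G Z T (fun x => S.filter fun v => hm v = x) x) c : ℤ)

variable (G Z T hm) in
/-- the number of adjacent pairs between the class part of the row `x` and the slot `y` -/
noncomputable def oI (S : Finset V) (x y : V) : ℤ :=
  ∑ c ∈ CP G Z T (fun x => S.filter fun v => hm v = x) x,
    (dg G (S.filter fun v => hm v = y) c : ℤ)

lemma mI_nonneg (S : Finset V) (x : V) : 0 ≤ mI G Z T hm S x :=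
  sum_nonneg fun _ _ => Nat.cast_nonneg _

lemma oI_nonneg (S : Finset V) (x y : V) : 0 ≤ oI G Z T hm S x y :=
  sum_nonneg fun _ _ => Nat.cast_nonneg _

lemma oI_le (S : Finset V) (x y : V) : oI G Z T hm S x y ≤ EI G hm S x y := by
  rw [EI_comm]
  unfold oI EI
  exact sum_le_sum_of_subset_of_nonneg CP_sub fun _ _ _ => Nat.cast_nonneg _

/-- missing pairs of a slot part: those of the class part and the doubles, and those inside the
doubles -/
lemma CSys.NE_slot_rig (hF : PFrame G r m t Z T) {A : Finset V} {S : V → Finset V}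
    (h : CSys G Z T hm A S) {x : V} (hx : x ∈ A) :
    NE G (S x) = 2 * ∑ c ∈ CP G Z T S x, nd G (HP G Z T S x) c + NE G (HP G Z T S x) := by
  have h1 := NE_union (G := G) (CP_HP_disjoint (G := G) (Z := Z) (T := T) (S := S) (x := x))
  have h2 := nd_comm (G := G) (CP G Z T S x) (HP G Z T S x)
  have h3 : NE G (CP G Z T S x) = 0 := by
    unfold NE
    refine sum_eq_zero fun c hc => ?_
    unfold nd
    rw [card_eq_zero, filter_eq_empty_iff]
    rintro y hy ⟨h4, h5⟩
    exact h5 (h.CP_clq hF hx c hc y hy h4.symm)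
  rw [CP_union_HP, h3] at h1
  rw [h1]
  omega

variable {A S : Finset V}

lemma HSys.mI_le (hF : PFrame G r m t Z T) (h : HSys G Z T A S)
    (hh : ∀ v ∈ S, hm v ∈ A ∧ hm v ∈ rws G T v) {x : V} (hx : x ∈ A) :
    mI G Z T hm S x ≤ eI G hm S x := by
  have h1 := (h.csys hF hh).NE_slot_rig hF hx
  have h2 := two_eI (G := G) (hm := hm) S x
  have h3 : (NE G (S.filter fun v => hm v = x) : ℤ) = 2 * mI G Z T hm S x
      + NE G (HP G Z T (fun x => S.filter fun v => hm v = x) x) := by
    have h4 : NE G (S.filter fun v => hm v = x)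
        = 2 * ∑ c ∈ CP G Z T (fun x => S.filter fun v => hm v = x) x,
            nd G (HP G Z T (fun x => S.filter fun v => hm v = x) x) c
          + NE G (HP G Z T (fun x => S.filter fun v => hm v = x) x) := h1
    rw [h4]
    unfold mI
    push_cast
    ring
  have h5 : (0 : ℤ) ≤ NE G (HP G Z T (fun x => S.filter fun v => hm v = x) x) := Nat.cast_nonneg _
  linarith

/-- **the Turan excess in terms of the slots** -/
theorem HSys.excess (hF : PFrame G r m t Z T) (h : HSys G Z T A S)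
    (hh : ∀ v ∈ S, hm v ∈ A ∧ hm v ∈ rws G T v) (hv : S.card = A.card * r + 1) :
    (NE G S : ℤ) - (r - 1) * (r * A.card * (A.card - 1) + 2 * A.card)
      = 2 * ∑ x ∈ A, eI G hm S x + ((A.card : ℤ) ^ 2 - A.card - 2) * r + 2 * A.card + 1
        - ∑ x ∈ A, sI hm r S x ^ 2 - ∑ x ∈ A, ∑ y ∈ A.erase x, EI G hm S x y := by
  have hC := h.csys hF hh
  have hd : ∀ x ∈ A, ∀ y ∈ A, x ≠ y →
      Disjoint (S.filter fun v => hm v = x) (S.filter fun v => hm v = y) := fun x hx y hy hxy =>
    hC.disj hx hy hxy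
  have hU : A.biUnion (fun x => S.filter fun v => hm v = x) = S := by
    ext v
    rw [mem_biUnion]
    constructor
    · rintro ⟨x, -, h1⟩
      exact (mem_filter.1 h1).1
    · intro h1
      exact ⟨hm v, (hh v h1).1, mem_filter.2 ⟨h1, rfl⟩⟩
  have hNE := NE_biUnion (G := G) A (fun x => S.filter fun v => hm v = x) ∅ hd
    (fun _ _ => disjoint_empty_right _)
  have e0 : (NE G (∅ : Finset V) : ℤ) = 0 := by
    have : NE G (∅ : Finset V) = 0 := rfl
    rw [this]
    rfl
  rw [empty_union, e0, hU] at hNE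
  simp only [sum_empty, sum_const_zero, mul_zero, add_zero, zero_add] at hNE
  have h4 := hC.nd_cross (Subset.refl A) fun _ => 1
  simp only [one_mul] at h4
  rw [h4] at hNE
  have h5 : ∑ x ∈ A, (NE G (S.filter fun v => hm v = x) : ℤ) = 2 * ∑ x ∈ A, eI G hm S x := by
    rw [mul_sum]
    exact sum_congr rfl fun x _ => (two_eI S x).symm
  have h6 : ∑ x ∈ A, ∑ y ∈ A.erase x, (((S.filter fun v => hm v = x).card : ℤ)
      * (S.filter fun v => hm v = y).card)
      = (S.card : ℤ) ^ 2 - ∑ x ∈ A, ((S.filter fun v => hm v = x).card : ℤ) ^ 2 := by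
    rw [sum_offdiag A fun x y => ((S.filter fun v => hm v = x).card : ℤ)
      * (S.filter fun v => hm v = y).card]
    have h7 := sum_slots (hm := hm) (A := A) (S := S) fun v hv => (hh v hv).1
    rw [← h7]
    push_cast
    rw [sq (∑ x ∈ A, _), sum_mul_sum]
    congr 1
    exact sum_congr rfl fun x _ => by ring
  have h7 : ∑ x ∈ A, ((S.filter fun v => hm v = x).card : ℤ) ^ 2
      = ∑ x ∈ A, sI hm r S x ^ 2 + 2 * r * ∑ x ∈ A, sI hm r S x + A.card * r ^ 2 := by
    have h8 : ∀ x ∈ A, ((S.filter fun v => hm v = x).card : ℤ) ^ 2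
        = sI hm r S x ^ 2 + 2 * r * sI hm r S x + (r : ℤ) ^ 2 := fun x _ => by
      rw [card_slot_eq (hm := hm) (r := r) S x]
      ring
    rw [sum_congr rfl h8, sum_add_distrib, sum_add_distrib, ← mul_sum, sum_const, nsmul_eq_mul]
  have h8 := HSys.sum_sI (G := G) (T := T) (r := r) hh
  have h9 : (S.card : ℤ) = A.card * r + 1 := by
    rw [hv]
    push_cast
    ring
  rw [h9] at h8 h6
  have h10 : ∑ x ∈ A, sI hm r S x = 1 := by linarith
  have h11 : ∑ x ∈ A, ∑ y ∈ A.erase x, EI G hm S x y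
      = ∑ x ∈ A, ∑ y ∈ A.erase x, ∑ v ∈ S.filter (fun v => hm v = y),
        (dg G (S.filter fun v => hm v = x) v : ℤ) := rfl
  rw [h11, hNE, h5, h6, h7, h10]
  ring

/-- **the degrees of the class part of a row** -/
theorem HSys.sum_class (hF : PFrame G r m t Z T) (h : HSys G Z T A S)
    (hh : ∀ v ∈ S, hm v ∈ A ∧ hm v ∈ rws G T v) {x : V} (hx : x ∈ A) :
    ∑ c ∈ CP G Z T (fun x => S.filter fun v => hm v = x) x,
        ((r : ℤ) + A.card - 1 - dg G S c)
      = ((r : ℤ) - 1 - tI G Z T hm r S x) * (A.card - sI hm r S x) + mI G Z T hm S x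
        - ∑ y ∈ A.erase x, oI G Z T hm S x y := by
  have hC := h.csys hF hh
  have hU : A.biUnion (fun x => S.filter fun v => hm v = x) = S := by
    ext v
    rw [mem_biUnion]
    constructor
    · rintro ⟨x, -, h1⟩
      exact (mem_filter.1 h1).1
    · intro h1
      exact ⟨hm v, (hh v h1).1, mem_filter.2 ⟨h1, rfl⟩⟩
  set P := CP G Z T (fun x => S.filter fun v => hm v = x) x with hP
  set H := HP G Z T (fun x => S.filter fun v => hm v = x) x with hH
  have h1 : ∀ c, (dg G S c : ℤ) = ∑ y ∈ A.erase x, (dg G (S.filter fun v => hm v = y) c : ℤ)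
      + dg G (S.filter fun v => hm v = x) c := by
    intro c
    have h2 : dg G S c = ∑ y ∈ A, dg G (S.filter fun v => hm v = y) c := by
      conv_lhs => rw [← hU]
      unfold dg
      rw [filter_biUnion, card_biUnion]
      intro y hy z hz hyz
      exact (hC.disj hy hz hyz).mono (filter_subset _ _) (filter_subset _ _)
    rw [h2, ← sum_erase_add A _ hx]
    push_cast
    rfl
  have h2 : ∀ c ∈ P, ((r : ℤ) + A.card - 1 - dg G S c)
      = (r : ℤ) + A.card - P.card - H.card + nd G H c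
        - ∑ y ∈ A.erase x, (dg G (S.filter fun v => hm v = y) c : ℤ) := by
    intro c hc
    rw [h1 c]
    have h3 : dg G (S.filter fun v => hm v = x) c = dg G P c + dg G H c :=
      dg_CP_HP (G := G) (Z := Z) (T := T) (S := fun x => S.filter fun v => hm v = x) (x := x)
    have h4 : dg G P c + nd G P c + 1 = P.card := dg_add_nd hc
    have h5 : nd G P c = 0 := by
      unfold nd
      rw [card_eq_zero, filter_eq_empty_iff]
      rintro y hy ⟨h6, h7⟩
      exact h7 (hC.CP_clq hF hx c hc y hy h6.symm)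
    have h6 : c ∉ H := fun h7 => disjoint_left.1
      (CP_HP_disjoint (G := G) (Z := Z) (T := T) (S := fun x => S.filter fun v => hm v = x)
        (x := x)) hc h7
    have h7 := nd_of_notMem (G := G) h6
    have h8 : (dg G (S.filter fun v => hm v = x) c : ℤ) = dg G P c + dg G H c := by
      exact_mod_cast h3
    have h9 : (dg G P c : ℤ) + 1 = P.card := by
      have : dg G P c + 1 = P.card := by omega
      exact_mod_cast this
    have h10 : (dg G H c : ℤ) + nd G H c = H.card := by exact_mod_cast h7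
    rw [h8]
    linear_combination -h9 - h10
  rw [sum_congr rfl h2, sum_sub_distrib, sum_add_distrib, sum_const, nsmul_eq_mul, sum_comm]
  have h3 : (P.card : ℤ) = (r : ℤ) - 1 - tI G Z T hm r S x := card_CP_eq S x
  have h4 : (H.card : ℤ) = tI G Z T hm r S x + sI hm r S x + 1 := hI_eq (r := r) S x
  have h5 : ∑ c ∈ P, (nd G H c : ℤ) = mI G Z T hm S x := rfl
  have h6 : ∑ y ∈ A.erase x, ∑ c ∈ P, (dg G (S.filter fun v => hm v = y) c : ℤ)
      = ∑ y ∈ A.erase x, oI G Z T hm S x y := rfl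
  rw [h5, h6, h3, h4]
  ring

/-- **(RG) on the slots**, for every set `B` of rows -/
theorem JSys.rgs (hF : PFrame G r m t Z T) (hR : RigD G r) (h : JSys G Z T j A S)
    (hs : HSys G Z T A S) (hn : 1 ≤ A.card) (hv : S.card = A.card * r + 1)
    (hh : ∀ v ∈ S, hm v ∈ A ∧ hm v ∈ rws G T v) {d : ℕ} (hd : A.card ≤ d + j)
    (hdn : d ≤ A.card) :
    ∃ κ : ℕ, κ + 1 ≤ r ∧
      2 * ((A.card : ℤ) - 1) * ((r : ℤ) - 1 - κ)
        ≤ 2 * ∑ x ∈ A, eI G hm S x + ((A.card : ℤ) ^ 2 - A.card - 2) * r + 2 * A.card + 1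
          - ∑ x ∈ A, sI hm r S x ^ 2 - ∑ x ∈ A, ∑ y ∈ A.erase x, EI G hm S x y ∧
      ∀ B : Finset V, B ⊆ A →
        2 * ∑ x ∈ B, (((r : ℤ) - 1 - tI G Z T hm r S x) * (A.card - sI hm r S x)
            + mI G Z T hm S x - ∑ y ∈ A.erase x, oI G Z T hm S x y)
          ≤ (A.card + 3) * (2 * ∑ x ∈ A, eI G hm S x + ((A.card : ℤ) ^ 2 - A.card - 2) * r
              + 2 * A.card + 1 - ∑ x ∈ A, sI hm r S x ^ 2
              - ∑ x ∈ A, ∑ y ∈ A.erase x, EI G hm S x y) + 2 * d * κ := by
  obtain ⟨κ, h1, h2, h3⟩ := h.rg_dg hR hn hv hd hdn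
  have hX := hs.excess hF hh hv
  have hC := hs.csys hF hh
  refine ⟨κ, h1, ?_, fun B hB => ?_⟩
  · rw [← hX]
    linarith
  · have h4 := h3 (B.biUnion (CP G Z T fun x => S.filter fun v => hm v = x)) (by
      intro v hv'
      obtain ⟨x, -, h5⟩ := mem_biUnion.1 hv'
      exact (mem_filter.1 (CP_sub h5)).1) (by
      intro v hv' hvB
      obtain ⟨x, hx, h5⟩ := mem_biUnion.1 hv'
      exact disjoint_left.1 (Cl_BB_disjoint (h.sub (hB hx))) (mem_CP.1 h5).2 hvB)
    rw [hX, sum_biUnion fun x hx y hy hxy => hC.dCP (hB hx) (hB hy) hxy,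
      sum_congr rfl fun x hx => hs.sum_class hF hh (hB hx)] at h4
    exact h4

/-- **the rigidity inequalities for the basic integers**: `d = n - j`, `m i` = missing pairs between
`C_i` and `H_i`, `o i k` = adjacent pairs between `C_i` and the slot `k` -/
structure RGI (R : ℤ) (n : ℕ) (d κ : ℤ) (t s e m : ℕ → ℤ) (E o : ℕ → ℕ → ℤ) : Prop where
  k0 : 0 ≤ κ
  kR : κ ≤ R
  m0 : ∀ i, i < n → 0 ≤ m i
  me : ∀ i, i < n → m i ≤ e i
  o0 : ∀ i k, 0 ≤ o i k
  oE : ∀ i k, o i k ≤ E i k
  cap : ∑ i ∈ range n, ∑ k ∈ (range n).erase i, E i k + ∑ i ∈ range n, s i ^ 2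
      + 2 * ((n : ℤ) - 1) * (R - κ)
    ≤ 2 * ∑ i ∈ range n, e i + ((n : ℤ) ^ 2 - n - 2) * (R + 1) + 2 * n + 1
  rg : ∀ B : Finset ℕ, B ⊆ range n →
    2 * ∑ i ∈ B, ((R - t i) * (n - s i) + m i - ∑ k ∈ (range n).erase i, o i k)
      ≤ (n + 3) * (2 * ∑ i ∈ range n, e i + ((n : ℤ) ^ 2 - n - 2) * (R + 1) + 2 * n + 1
          - ∑ i ∈ range n, s i ^ 2 - ∑ i ∈ range n, ∑ k ∈ (range n).erase i, E i k) + 2 * d * κ

/-- (RG) without the `o i k` -/
theorem RGI.crude {R : ℤ} {n : ℕ} {d κ : ℤ} {t s e m : ℕ → ℤ} {E o : ℕ → ℕ → ℤ}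
    (h : RGI R n d κ t s e m E o) :
    (n + 1) * ∑ i ∈ range n, ∑ k ∈ (range n).erase i, E i k
      + 2 * ∑ i ∈ range n, (R - t i) * (n - s i) + 2 * ∑ i ∈ range n, m i
      ≤ (n + 3) * (2 * ∑ i ∈ range n, e i + ((n : ℤ) ^ 2 - n - 2) * (R + 1) + 2 * n + 1
          - ∑ i ∈ range n, s i ^ 2) + 2 * d * κ := by
  have h1 := h.rg (range n) (Subset.refl _)
  rw [sum_sub_distrib, sum_add_distrib] at h1
  have h2 : ∑ i ∈ range n, ∑ k ∈ (range n).erase i, o i k
      ≤ ∑ i ∈ range n, ∑ k ∈ (range n).erase i, E i k :=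
    sum_le_sum fun i _ => sum_le_sum fun k _ => h.oE i k
  linarith

/-- **every `j`-closed system with homes gives the rigidity inequalities** -/
theorem JSys.rgi (hF : PFrame G r m t Z T) (hR : RigD G r) (h : JSys G Z T j A S)
    (hs : HSys G Z T A S) (hn : 1 ≤ A.card) (hv : S.card = A.card * r + 1)
    (hh : ∀ v ∈ S, hm v ∈ A ∧ hm v ∈ rws G T v) {d : ℕ} (hd : A.card ≤ d + j)
    (hdn : d ≤ A.card) {f : V → ℤ} {ρ : V → ℕ} {σ : ℕ → V} (hσ : Rank A f ρ σ) :
    ∃ κ : ℤ, RGI ((r : ℤ) - 1) A.card d κ (fun i => tI G Z T hm r S (σ i))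
      (fun i => sI hm r S (σ i)) (fun i => eI G hm S (σ i)) (fun i => mI G Z T hm S (σ i))
      (fun i k => EI G hm S (σ i) (σ k)) (fun i k => oI G Z T hm S (σ i) (σ k)) := by
  obtain ⟨κ, h1, h2, h3⟩ := h.rgs hF hR hs hn hv hh hd hdn
  have er : (r : ℤ) - 1 + 1 = r := by ring
  have hA : (range A.card).image σ = A := by
    refine eq_of_subset_of_card_le (hσ.image_sub (Subset.refl _)) ?_
    rw [hσ.card_image (Subset.refl _), card_range]
  have e1 := hσ.sum_im (Subset.refl (range A.card)) (fun x => eI G hm S x)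
  have e2 := hσ.sum_im (Subset.refl (range A.card)) (fun x => sI hm r S x ^ 2)
  have e3 := hσ.sum2_im (Subset.refl (range A.card)) (EI G hm S)
  rw [hA] at e1 e2 e3
  rw [e1, e2, e3] at h2
  refine ⟨κ, Nat.cast_nonneg _, ?_, fun i _ => mI_nonneg S _,
    fun i hi => hs.mI_le hF hh (hσ.mem i hi), fun _ _ => oI_nonneg S _ _,
    fun _ _ => oI_le S _ _, ?_, fun B hB => ?_⟩
  · have : ((κ + 1 : ℕ) : ℤ) ≤ (r : ℤ) := by exact_mod_cast h1
    push_cast at this
    linarith
  · rw [er]
    linarith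
  · have h4 := h3 (B.image σ) (hσ.image_sub hB)
    rw [e1, e2, e3, hσ.sum_im hB fun x => ((r : ℤ) - 1 - tI G Z T hm r S x)
      * (A.card - sI hm r S x) + mI G Z T hm S x - ∑ y ∈ A.erase x, oI G Z T hm S x y] at h4
    have e4 : ∀ i ∈ B, ∑ y ∈ A.erase (σ i), oI G Z T hm S (σ i) y
        = ∑ k ∈ (range A.card).erase i, oI G Z T hm S (σ i) (σ k) := by
      intro i hi
      have e5 : A.erase (σ i) = ((range A.card).erase i).image σ := by
        conv_lhs => rw [← hA]
        ext x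
        rw [mem_erase, mem_image, mem_image]
        constructor
        · rintro ⟨h5, k, hk, rfl⟩
          exact ⟨k, mem_erase.2 ⟨fun h6 => h5 (by rw [h6]), hk⟩, rfl⟩
        · rintro ⟨k, hk, rfl⟩
          obtain ⟨h5, h6⟩ := mem_erase.1 hk
          exact ⟨fun h7 => h5 (hσ.injOn (Subset.refl _) h6 (hB hi) h7), k, h6, rfl⟩
      rw [e5, hσ.sum_im (erase_subset _ _)]
    rw [er]
    have e6 : ∑ i ∈ B, (((r : ℤ) - 1 - tI G Z T hm r S (σ i)) * (A.card - sI hm r S (σ i))
          + mI G Z T hm S (σ i) - ∑ y ∈ A.erase (σ i), oI G Z T hm S (σ i) y)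
        = ∑ i ∈ B, (((r : ℤ) - 1 - tI G Z T hm r S (σ i)) * (A.card - sI hm r S (σ i))
          + mI G Z T hm S (σ i) - ∑ k ∈ (range A.card).erase i, oI G Z T hm S (σ i) (σ k)) :=
      sum_congr rfl fun i hi => by rw [e4 i hi]
    rw [e6] at h4
    exact h4

end RigSlot

end Pool.Agent.Lib.MP_f04ccf_co
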