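import Pool.Agent.Lib.MP_f04ccf_co.M.JFront
import Pool.Agent.Lib.MP_f04ccf_co.M.TB

/-!
MP_f04ccf_co: rows of the type `(t, h, m) = (0, 0, 2)` (the slot is a clique with `r - 1` points of the
class) in minimal `j`-closed systems, notes 15825 (2) of helper40, 16026 of helper66, 16060 of helper26.
`R02.dg_le`: no point has more than `(j + 1)(j + 2) / 2` neighbours in such a class part.
`R02.le`: `r` is small.  `R02.full_unique`: at most one pair is fully served there.
`PG.no_two_half`, `R02.star`: the pairs of one host which are half served by two such rows form a star.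
`MQSys.no_hub02`: the rows are not all but one of this type.
-/

set_option autoImplicit false

namespace Pool.Agent.Lib.MP_f04ccf_co

open Finset

attribute [local instance] Classical.propDecidable

section Abs

variable {V : Type*} {G : SimpleGraph V} {r : ℕ}

lemma nd_eq_of_notMem {A : Finset V} {x : V} (hx : x ∉ A) :
    (nd G A x : ℤ) = A.card - dg G A x := by
  have h := nd_of_notMem (G := G) hx
  omega

lemma sum_nd_eq {A B : Finset V} (hd : Disjoint A B) :
    ∑ x ∈ B, (nd G A x : ℤ) = (B.card : ℤ) * A.card - ∑ u ∈ B, (dg G A u : ℤ) := by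
  rw [sum_congr rfl fun x hx => nd_eq_of_notMem (G := G)
    (fun h' => disjoint_left.1 hd h' hx), sum_sub_distrib, sum_const, nsmul_eq_mul]

/-- the load on a clique with `r - 1` points -/
lemma PG.load02 (hP : PG G r) {C U : Finset V} (hC : Clq G C) (hc : C.card + 1 = r)
    (hd : Disjoint C U) :
    2 * ∑ u ∈ U, (dg G C u : ℤ) ≤ 2 * ((r : ℤ) - 1) + NE G U := by
  have h1 := hP.ne1 (C ∪ U)
  rw [NE_union hd, NE_clq hC, card_union_of_disjoint hd] at h1
  push_cast at h1
  rw [sum_nd_eq hd] at h1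
  have h3 : (C.card : ℤ) = r - 1 := by
    have : (r : ℤ) = C.card + 1 := by exact_mod_cast hc.symm
    omega
  rw [h3] at h1
  linarith

/-- the load on two cliques with `r - 1` points each, slope `2` -/
lemma PG.load02_two (hP : PG G r) {C D U : Finset V} (hC : Clq G C) (hD : Clq G D)
    (hc : C.card + 1 = r) (hc' : D.card + 1 = r) (hCD : Disjoint C D) (hd : Disjoint C U)
    (hd' : Disjoint D U) :
    2 * ∑ v ∈ D, (dg G C v : ℤ) + 2 * ∑ u ∈ U, (dg G C u : ℤ) + 2 * ∑ u ∈ U, (dg G D u : ℤ)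
      ≤ 6 * ((r : ℤ) - 1) + NE G U := by
  have h0 : Disjoint (C ∪ D) U := disjoint_union_left.2 ⟨hd, hd'⟩
  have h1 := hP.ne ((C ∪ D) ∪ U) 2
  rw [NE_union h0, NE_union hCD, NE_clq hC, NE_clq hD, card_union_of_disjoint h0,
    card_union_of_disjoint hCD] at h1
  push_cast at h1
  have h2 : ∑ x ∈ U, (nd G (C ∪ D) x : ℤ) = ∑ x ∈ U, (nd G C x : ℤ) + ∑ x ∈ U, (nd G D x : ℤ) := by
    rw [← sum_add_distrib]
    exact sum_congr rfl fun x _ => by rw [nd_union hCD]; push_cast; rfl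
  rw [h2, sum_nd_eq hd, sum_nd_eq hd', sum_nd_eq hCD] at h1
  have h3 : (C.card : ℤ) = r - 1 := by
    have : (r : ℤ) = C.card + 1 := by exact_mod_cast hc.symm
    omega
  have h4 : (D.card : ℤ) = r - 1 := by
    have : (r : ℤ) = D.card + 1 := by exact_mod_cast hc'.symm
    omega
  rw [h3, h4] at h1
  linarith

variable (G) in
/-- the points of `C` which miss `p` and `q` -/
noncomputable def rest2 (C : Finset V) (p q : V) : Finset V :=
  C.filter fun c => ¬ G.Adj p c ∧ ¬ G.Adj q c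

lemma mem_rest2 {C : Finset V} {p q c : V} :
    c ∈ rest2 G C p q ↔ c ∈ C ∧ ¬ G.Adj p c ∧ ¬ G.Adj q c := mem_filter

lemma card_le_rest2 (C : Finset V) (p q : V) :
    C.card ≤ dg G C p + dg G C q + (rest2 G C p q).card := by
  have h1 : C ⊆ (C.filter fun c => G.Adj p c) ∪ (C.filter fun c => G.Adj q c)
      ∪ rest2 G C p q := by
    intro c hc
    by_cases h1 : G.Adj p c
    · exact mem_union_left _ (mem_union_left _ (mem_filter.2 ⟨hc, h1⟩))
    by_cases h2 : G.Adj q c
    · exact mem_union_left _ (mem_union_right _ (mem_filter.2 ⟨hc, h2⟩))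
    · exact mem_union_right _ (mem_rest2.2 ⟨hc, h1, h2⟩)
  have h2 := (card_le_card h1).trans (card_union_le _ _)
  have h3 := card_union_le (C.filter fun c => G.Adj p c) (C.filter fun c => G.Adj q c)
  unfold dg
  omega

/-- two rectangles of adjacent pairs -/
lemma card_rect {C D : Finset V} {B1 B1' B2 B2' : Finset V} (h1 : B1 ⊆ C) (h1' : B1' ⊆ C)
    (h2 : B2 ⊆ D) (h2' : B2' ⊆ D) (ha : ∀ c ∈ B1, ∀ d ∈ B2, G.Adj c d)
    (ha' : ∀ c ∈ B1', ∀ d ∈ B2', G.Adj c d) :
    B1.card * B2.card + B1'.card * B2'.card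
      ≤ ∑ v ∈ D, dg G C v + (B1 ∩ B1').card * (B2 ∩ B2').card := by
  have h3 : ∑ v ∈ D, dg G C v = ((D ×ˢ C).filter fun x => G.Adj x.1 x.2).card := by
    simp only [dg, card_filter, sum_product]
  have h4 : (B2 ×ˢ B1) ∪ (B2' ×ˢ B1') ⊆ (D ×ˢ C).filter fun x => G.Adj x.1 x.2 := by
    intro x hx
    rcases mem_union.1 hx with h | h
    · obtain ⟨h5, h6⟩ := mem_product.1 h
      exact mem_filter.2 ⟨mem_product.2 ⟨h2 h5, h1 h6⟩, (ha _ h6 _ h5).symm⟩
    · obtain ⟨h5, h6⟩ := mem_product.1 h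
      exact mem_filter.2 ⟨mem_product.2 ⟨h2' h5, h1' h6⟩, (ha' _ h6 _ h5).symm⟩
  have h5 := card_le_card h4
  have h6 := card_union_add_card_inter (B2 ×ˢ B1) (B2' ×ˢ B1')
  rw [← h3] at h5
  have h7 : (B2 ×ˢ B1) ∩ (B2' ×ˢ B1') = (B2 ∩ B2') ×ˢ (B1 ∩ B1') := by
    ext x
    simp only [mem_inter, mem_product]
    tauto
  rw [h7, card_product, card_product, card_product] at h6
  nlinarith

/-- the arithmetic of two overlapping rectangles -/
lemma rect_arith {a a' b b' o1 o2 : ℕ} (h1 : 1 ≤ a) (h2 : 1 ≤ b) (h1' : 1 ≤ a') (h2' : 1 ≤ b')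
    (ha : o1 ≤ a) (ha' : o1 ≤ a') (hb : o2 ≤ b) (hb' : o2 ≤ b') (h5 : 5 ≤ a + a')
    (h6 : 5 ≤ b + b') : a + a' + b + b' + o1 * o2 ≤ a * b + a' * b' + 4 := by
  wlog haa : a ≤ a' generalizing a a' b b'
  · have := this h1' h2' h1 h2 ha' ha hb' hb (by omega) (by omega) (by omega)
    omega
  have h7 : 3 ≤ a' := by omega
  rcases le_total b b' with h8 | h8
  · have h9 : 3 ≤ b' := by omega
    have h10 : o1 * o2 ≤ a * b := Nat.mul_le_mul ha hb
    obtain ⟨x, rfl⟩ := Nat.exists_eq_add_of_le h7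
    obtain ⟨y, rfl⟩ := Nat.exists_eq_add_of_le h9
    nlinarith
  · have h9 : 3 ≤ b := by omega
    have h10 : o1 * o2 ≤ a * b' := Nat.mul_le_mul ha hb'
    obtain ⟨x, rfl⟩ := Nat.exists_eq_add_of_le haa
    obtain ⟨y, rfl⟩ := Nat.exists_eq_add_of_le h8
    rcases Nat.lt_or_ge a 2 with h11 | h11
    · have h12 : a = 1 := by omega
      subst h12
      obtain ⟨z, rfl⟩ : ∃ z, x = z + 2 := ⟨x - 2, by omega⟩
      nlinarith
    rcases Nat.lt_or_ge b' 2 with h13 | h13
    · have h12 : b' = 1 := by omega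
      subst h12
      obtain ⟨z, rfl⟩ : ∃ z, y = z + 2 := ⟨y - 2, by omega⟩
      nlinarith
    obtain ⟨u, rfl⟩ := Nat.exists_eq_add_of_le h11
    obtain ⟨v, rfl⟩ := Nat.exists_eq_add_of_le h13
    nlinarith [Nat.zero_le (u * v), Nat.zero_le (x * v), Nat.zero_le (u * y)]

/-- **two disjoint pairs which are half served by two classes of `r - 1` points** -/
theorem PG.no_two_half (hP : PG G r) (hr : 10 ≤ r) {C D : Finset V} (hC : Clq G C) (hD : Clq G D)
    (hc : C.card + 1 = r) (hc' : D.card + 1 = r) (hCD : Disjoint C D) {p q p' q' : V}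
    (hpC : ∀ x ∈ ({p, q, p', q'} : Finset V), x ∉ C ∧ x ∉ D)
    (hpq : p ≠ q) (hpp : p ≠ p') (hpq' : p ≠ q') (hqp' : q ≠ p') (hqq : q ≠ q') (hpq2 : p' ≠ q')
    (e1 : ∀ c ∈ rest2 G C p q, ∀ d ∈ rest2 G D p q, G.Adj c d)
    (e2 : ∀ c ∈ rest2 G C p' q', ∀ d ∈ rest2 G D p' q', G.Adj c d)
    (n1 : (rest2 G C p q).Nonempty) (n2 : (rest2 G D p q).Nonempty)
    (n3 : (rest2 G C p' q').Nonempty) (n4 : (rest2 G D p' q').Nonempty)
    (hp : ∀ c ∈ C, ¬ G.Adj p c → ¬ G.Adj p' c → G.Adj p p')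
    (hq : ∀ d ∈ D, ¬ G.Adj q d → ¬ G.Adj q' d → G.Adj q q') : False := by
  set U : Finset V := {p, q, p', q'} with hU
  have hUc : U.card = 4 := by
    rw [hU, card_insert_of_notMem, card_insert_of_notMem, card_pair hpq2]
    · simp [hqp', hqq]
    · simp [hpq, hpp, hpq']
  have hdC : Disjoint C U := disjoint_right.2 fun x hx => (hpC x hx).1
  have hdD : Disjoint D U := disjoint_right.2 fun x hx => (hpC x hx).2
  have hs : ∀ f : V → ℤ, ∑ u ∈ U, f u = f p + (f q + (f p' + f q')) := by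
    intro f
    rw [hU, sum_insert (by simp [hpq, hpp, hpq']), sum_insert (by simp [hqp', hqq]),
      sum_pair hpq2]
  have l1 := hP.load02 hC hc hdC
  have l2 := hP.load02 hD hc' hdD
  have l3 := hP.load02_two hC hD hc hc' hCD hdC hdD
  rw [hs] at l1 l2
  rw [hs (fun u => (dg G C u : ℤ)), hs (fun u => (dg G D u : ℤ))] at l3
  have c1 := card_le_rest2 (G := G) C p q
  have c2 := card_le_rest2 (G := G) C p' q'
  have c3 := card_le_rest2 (G := G) D p q
  have c4 := card_le_rest2 (G := G) D p' q'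
  have hrect := card_rect (G := G) (C := C) (D := D) (B1 := rest2 G C p q)
    (B1' := rest2 G C p' q') (B2 := rest2 G D p q) (B2' := rest2 G D p' q')
    (filter_subset _ _) (filter_subset _ _) (filter_subset _ _) (filter_subset _ _) e1 e2
  have hNE : NE G U ≤ 12 := by
    have := NE_le (G := G) U
    rw [hUc] at this
    exact this
  have hNE' : (NE G U : ℤ) ≤ 12 := by exact_mod_cast hNE
  have a1 := card_pos.2 n1
  have a2 := card_pos.2 n2
  have a3 := card_pos.2 n3
  have a4 := card_pos.2 n4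
  have hrect' : (((rest2 G C p q).card : ℤ) * (rest2 G D p q).card
      + (rest2 G C p' q').card * (rest2 G D p' q').card
      ≤ ∑ v ∈ D, (dg G C v : ℤ) + ((rest2 G C p q ∩ rest2 G C p' q').card : ℤ)
        * (rest2 G D p q ∩ rest2 G D p' q').card) := by exact_mod_cast hrect
  by_cases ho : (rest2 G C p q ∩ rest2 G C p' q').card = 0
    ∨ (rest2 G D p q ∩ rest2 G D p' q').card = 0
  · have h0 : ((rest2 G C p q ∩ rest2 G C p' q').card : ℤ)
        * (rest2 G D p q ∩ rest2 G D p' q').card = 0 := by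
      rcases ho with h | h <;> rw [h] <;> simp
    rw [h0] at hrect'
    have b1 : (1 : ℤ) ≤ (rest2 G C p q).card := by exact_mod_cast a1
    have b2 : (1 : ℤ) ≤ (rest2 G D p q).card := by exact_mod_cast a2
    have b3 : (1 : ℤ) ≤ (rest2 G C p' q').card := by exact_mod_cast a3
    have b4 : (1 : ℤ) ≤ (rest2 G D p' q').card := by exact_mod_cast a4
    have p1 : 0 ≤ (((rest2 G C p q).card : ℤ) - 1) * ((rest2 G D p q).card - 1) :=
      mul_nonneg (by linarith) (by linarith)
    have p2 : 0 ≤ (((rest2 G C p' q').card : ℤ) - 1) * ((rest2 G D p' q').card - 1) :=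
      mul_nonneg (by linarith) (by linarith)
    have c1' : (C.card : ℤ) ≤ dg G C p + dg G C q + (rest2 G C p q).card := by exact_mod_cast c1
    have c2' : (C.card : ℤ) ≤ dg G C p' + dg G C q' + (rest2 G C p' q').card := by
      exact_mod_cast c2
    have c3' : (D.card : ℤ) ≤ dg G D p + dg G D q + (rest2 G D p q).card := by exact_mod_cast c3
    have c4' : (D.card : ℤ) ≤ dg G D p' + dg G D q' + (rest2 G D p' q').card := by
      exact_mod_cast c4
    have hcz : (C.card : ℤ) + 1 = r := by exact_mod_cast hc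
    have hcz' : (D.card : ℤ) + 1 = r := by exact_mod_cast hc'
    have hrz : (10 : ℤ) ≤ r := by exact_mod_cast hr
    nlinarith
  · push Not at ho
    obtain ⟨o1, o2⟩ := ho
    obtain ⟨c, hcm⟩ := card_pos.1 (Nat.pos_of_ne_zero o1)
    obtain ⟨d, hdm⟩ := card_pos.1 (Nat.pos_of_ne_zero o2)
    obtain ⟨m1, m2⟩ := mem_inter.1 hcm
    obtain ⟨m3, m4⟩ := mem_inter.1 hdm
    have app : G.Adj p p' := hp c (mem_rest2.1 m1).1 (mem_rest2.1 m1).2.1 (mem_rest2.1 m2).2.1
    have aqq : G.Adj q q' := hq d (mem_rest2.1 m3).1 (mem_rest2.1 m3).2.2 (mem_rest2.1 m4).2.2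
    have hnd : ∀ u ∈ U, nd G U u ≤ 2 := by
      intro u hu
      have h1 := dg_add_nd (G := G) hu
      rw [hUc] at h1
      have h2 : 1 ≤ dg G U u := by
        have hu' := hu
        simp only [hU, mem_insert, mem_singleton] at hu'
        rcases hu' with rfl | rfl | rfl | rfl
        · exact card_pos.2 ⟨p', mem_filter.2 ⟨by simp [hU], app⟩⟩
        · exact card_pos.2 ⟨q', mem_filter.2 ⟨by simp [hU], aqq⟩⟩
        · exact card_pos.2 ⟨p, mem_filter.2 ⟨by simp [hU], app.symm⟩⟩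
        · exact card_pos.2 ⟨q, mem_filter.2 ⟨by simp [hU], aqq.symm⟩⟩
      omega
    have hNE8 : NE G U ≤ 8 := by
      unfold NE
      refine (sum_le_sum hnd).trans ?_
      rw [sum_const, hUc]
      norm_num
    have hNE8' : (NE G U : ℤ) ≤ 8 := by exact_mod_cast hNE8
    have i1 := card_le_card (inter_subset_left (s₁ := rest2 G C p q) (s₂ := rest2 G C p' q'))
    have i2 := card_le_card (inter_subset_right (s₁ := rest2 G C p q) (s₂ := rest2 G C p' q'))
    have i3 := card_le_card (inter_subset_left (s₁ := rest2 G D p q) (s₂ := rest2 G D p' q'))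
    have i4 := card_le_card (inter_subset_right (s₁ := rest2 G D p q) (s₂ := rest2 G D p' q'))
    have key := rect_arith a1 a2 a3 a4 i1 i2 i3 i4 (by omega) (by omega)
    have key' : (((rest2 G C p q).card : ℤ) + (rest2 G C p' q').card + (rest2 G D p q).card
        + (rest2 G D p' q').card + (rest2 G C p q ∩ rest2 G C p' q').card
          * (rest2 G D p q ∩ rest2 G D p' q').card
        ≤ (rest2 G C p q).card * (rest2 G D p q).card
          + (rest2 G C p' q').card * (rest2 G D p' q').card + 4) := by exact_mod_cast key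
    omega

/-- a set of pairs any two of which agree in a coordinate -/
lemma card_star {M : Finset (V × V)} {P Q : Finset V} (hM : M ⊆ P ×ˢ Q)
    (h : ∀ e ∈ M, ∀ f ∈ M, e.1 = f.1 ∨ e.2 = f.2) : M.card ≤ max P.card Q.card := by
  rcases M.eq_empty_or_nonempty with rfl | ⟨e, he⟩
  · simp
  by_cases h1 : ∀ f ∈ M, e.1 = f.1
  · refine (card_le_card_of_injOn Prod.snd (fun f hf => (mem_product.1 (hM hf)).2) ?_).trans
      (le_max_right _ _)
    intro f hf g hg hfg
    exact Prod.ext ((h1 f hf).symm.trans (h1 g hg)) hfg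
  · push Not at h1
    obtain ⟨f, hf, hef⟩ := h1
    have h2 : ∀ g ∈ M, e.2 = g.2 := by
      intro g hg
      by_contra h3
      have h4 := (h e he g hg).resolve_right h3
      rcases h f hf g hg with h5 | h5
      · exact hef (h4.trans h5.symm)
      · exact h3 (((h e he f hf).resolve_left hef).trans h5)
    refine (card_le_card_of_injOn Prod.fst (fun f hf => (mem_product.1 (hM hf)).1) ?_).trans
      (le_max_left _ _)
    intro f hf g hg hfg
    exact Prod.ext hfg ((h2 f hf).symm.trans (h2 g hg))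

end Abs

section Row02

variable {V : Type*} {G : SimpleGraph V} {Z T : Finset V} {hm : V → V} {r m t j : ℕ}
  {A S : Finset V}

variable (G Z T hm r) in
/-- the row `z` has the type `(t, h, m) = (0, 0, 2)` -/
def R02 (S : Finset V) (z : V) : Prop :=
  (S.filter fun v => hm v = z).card + 1 = r ∧ (S.filter fun v => v ∈ Cl G Z T z).card + 1 = r

/-- every point of `C` sees `a` or `b` -/
def Full2 (G : SimpleGraph V) (C : Finset V) (a b : V) : Prop := ∀ c ∈ C, G.Adj a c ∨ G.Adj b c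

lemma R02.slot_eq (hs : HSys G Z T A S) (hh : ∀ v ∈ S, hm v ∈ A ∧ hm v ∈ rws G T v) {z : V}
    (hz : z ∈ A) (h0 : R02 G Z T hm r S z) :
    (S.filter fun v => v ∈ Cl G Z T z) = S.filter fun v => hm v = z := by
  refine eq_of_subset_of_card_le (fun v hv => ?_) (by have := h0.1; have := h0.2; omega)
  obtain ⟨h1, h2⟩ := mem_filter.1 hv
  exact mem_filter.2 ⟨h1, hs.cl_slot hh hz h1 h2⟩

lemma R02.clq (hF : PFrame G r m t Z T) (hs : HSys G Z T A S) {z : V} (hz : z ∈ A) :
    Clq G (S.filter fun v => v ∈ Cl G Z T z) :=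
  (hF.Cl_clq (hs.sub hz)).mono fun _ hv => (mem_filter.1 hv).2

/-- no point has more than `(j + 1)(j + 2) / 2` neighbours in the class part -/
theorem R02.dg_le (hF : PFrame G r m t Z T) (hP : PG G r) (hj : 2 ≤ j)
    (h : MQSys r (JSys G Z T j) A S) (hh : ∀ v ∈ S, hm v ∈ A ∧ hm v ∈ rws G T v) {z : V}
    (hz : z ∈ A) (h0 : R02 G Z T hm r S z) {v : V} (hv : v ∉ S.filter fun v => v ∈ Cl G Z T z) :
    2 * dg G (S.filter fun v => v ∈ Cl G Z T z) v ≤ (j + 1) * (j + 2) := by
  have hs := h.q.hsys hF hj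
  obtain ⟨e, he1, he2, -, he3⟩ := (h.blkn hF hh hz).one (W := {v}) (by
    rw [card_singleton]
    have := h0.1
    omega)
  have hve : v ∉ e := fun h' => (mem_sdiff.1 (he1 h')).2 (mem_singleton_self v)
  have hd : Disjoint (S.filter fun v => v ∈ Cl G Z T z) (insert v e) := by
    rw [disjoint_right]
    intro w hw hwC
    rcases mem_insert.1 hw with rfl | hw
    · exact hv hwC
    · obtain ⟨h1, h2⟩ := mem_filter.1 hwC
      exact (mem_filter.1 (mem_sdiff.1 (he1 hw)).1).2.1 (hs.cl_slot hh hz h1 h2)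
  have h1 := hP.load02 (R02.clq hF hs hz) h0.2 hd
  rw [sum_insert hve] at h1
  have h2 : (S.filter fun v => v ∈ Cl G Z T z).card
      ≤ ∑ u ∈ e, dg G (S.filter fun v => v ∈ Cl G Z T z) u := by
    rw [dg_comm, card_eq_sum_ones]
    exact sum_le_sum he3
  have h3 := NE_le (G := G) (insert v e)
  rw [card_insert_of_notMem hve] at h3
  have h4 : (e.card + 1) * (e.card + 1 - 1) ≤ (j + 2) * (j + 1) :=
    Nat.mul_le_mul (by omega) (by omega)
  have h5 : (NE G (insert v e) : ℤ) ≤ (j + 2) * (j + 1) := by exact_mod_cast h3.trans h4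
  have h6 : ((S.filter fun v => v ∈ Cl G Z T z).card : ℤ)
      ≤ ∑ u ∈ e, (dg G (S.filter fun v => v ∈ Cl G Z T z) u : ℤ) := by exact_mod_cast h2
  have h7 : ((S.filter fun v => v ∈ Cl G Z T z).card : ℤ) + 1 = r := by exact_mod_cast h0.2
  have h8 : 2 * (dg G (S.filter fun v => v ∈ Cl G Z T z) v : ℤ) ≤ (j + 1) * (j + 2) := by
    linarith
  exact_mod_cast h8

/-- such a row exists only for small `r` -/
theorem R02.le (hF : PFrame G r m t Z T) (hP : PG G r) (hj : 2 ≤ j)
    (h : MQSys r (JSys G Z T j) A S) (hh : ∀ v ∈ S, hm v ∈ A ∧ hm v ∈ rws G T v) {z : V}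
    (hz : z ∈ A) (h0 : R02 G Z T hm r S z) :
    2 * (r - 1) ≤ (j + 3) ^ 2 / 4 * ((j + 3) ^ 2 / 4 - 1) := by
  have hs := h.q.hsys hF hj
  obtain ⟨P, hP1, hP2, hP3⟩ := (h.blkn hF hh hz).two (W := ∅) (by
    rw [card_empty]
    have := h0.1
    omega)
  have hd : Disjoint (S.filter fun v => v ∈ Cl G Z T z) P := by
    rw [disjoint_right]
    intro w hw hwC
    obtain ⟨h1, h2⟩ := mem_filter.1 hwC
    exact (mem_filter.1 (mem_sdiff.1 (hP1 hw)).1).2.1 (hs.cl_slot hh hz h1 h2)
  have h1 := hP.load02 (R02.clq hF hs hz) h0.2 hd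
  have h2 : 2 * (S.filter fun v => v ∈ Cl G Z T z).card
      ≤ ∑ u ∈ P, dg G (S.filter fun v => v ∈ Cl G Z T z) u := by
    rw [dg_comm, card_eq_sum_ones, mul_sum]
    exact sum_le_sum fun c hc => by simpa using hP3 c hc
  have h3 := NE_le (G := G) P
  have h4 : P.card * (P.card - 1) ≤ (j + 1 + 2) ^ 2 / 4 * ((j + 1 + 2) ^ 2 / 4 - 1) :=
    Nat.mul_le_mul hP2 (by omega)
  have h5 := h0.2
  have h6 : 2 * ∑ u ∈ P, dg G (S.filter fun v => v ∈ Cl G Z T z) u ≤ 2 * (r - 1) + NE G P := by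
    zify [show 1 ≤ r by omega]
    exact h1
  have h7 : (j + 1 + 2) ^ 2 / 4 = (j + 3) ^ 2 / 4 := rfl
  rw [h7] at h4
  omega

/-- a fully served pair makes all other degrees small -/
theorem R02.other_le (hF : PFrame G r m t Z T) (hP : PG G r)
    (hs : HSys G Z T A S) {z : V}
    (hz : z ∈ A) (h0 : R02 G Z T hm r S z) {a b v : V}
    (hab : a ≠ b) (ha : a ∉ S.filter fun v => v ∈ Cl G Z T z)
    (hb : b ∉ S.filter fun v => v ∈ Cl G Z T z)
    (hv : v ∉ S.filter fun v => v ∈ Cl G Z T z)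
    (hf : Full2 G (S.filter fun v => v ∈ Cl G Z T z) a b) (hva : v ≠ a) (hvb : v ≠ b) :
    dg G (S.filter fun v => v ∈ Cl G Z T z) v ≤ 3 := by
  have hd : Disjoint (S.filter fun v => v ∈ Cl G Z T z) ({v, a, b} : Finset V) := by
    rw [disjoint_right]
    intro w hw
    simp only [mem_insert, mem_singleton] at hw
    rcases hw with rfl | rfl | rfl <;> assumption
  have h1 := hP.load02 (R02.clq hF hs hz) h0.2 hd
  rw [sum_insert (by simp [hva, hvb]), sum_pair hab] at h1
  have h2 := NE_le (G := G) ({v, a, b} : Finset V)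
  rw [card_insert_of_notMem (by simp [hva, hvb]), card_pair hab] at h2
  have h3 := card_le_rest2 (G := G) (S.filter fun v => v ∈ Cl G Z T z) a b
  have h4 : rest2 G (S.filter fun v => v ∈ Cl G Z T z) a b = ∅ := by
    rw [rest2, filter_eq_empty_iff]
    intro c hc h5
    rcases hf c hc with h6 | h6
    · exact h5.1 h6
    · exact h5.2 h6
  rw [h4, card_empty] at h3
  have h5 := h0.2
  have h6 : (NE G ({v, a, b} : Finset V) : ℤ) ≤ 6 := by exact_mod_cast h2
  omega

/-- **at most one pair is fully served** -/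
theorem R02.full_unique (hF : PFrame G r m t Z T) (hP : PG G r) (hj : 2 ≤ j)
    (h : MQSys r (JSys G Z T j) A S) (hh : ∀ v ∈ S, hm v ∈ A ∧ hm v ∈ rws G T v)
    (hr : (j + 1) * (j + 2) + 10 ≤ 2 * r) {z : V}
    (hz : z ∈ A) (h0 : R02 G Z T hm r S z) {a b a' b' : V}
    (hab : a ≠ b) (ha : a ∉ S.filter fun v => v ∈ Cl G Z T z)
    (hb : b ∉ S.filter fun v => v ∈ Cl G Z T z)
    (hf : Full2 G (S.filter fun v => v ∈ Cl G Z T z) a b)
    (hab' : a' ≠ b') (ha' : a' ∉ S.filter fun v => v ∈ Cl G Z T z)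
    (hb' : b' ∉ S.filter fun v => v ∈ Cl G Z T z)
    (hf' : Full2 G (S.filter fun v => v ∈ Cl G Z T z) a' b') :
    (a = a' ∨ a = b') ∧ (b = a' ∨ b = b') := by
  have hs := h.q.hsys hF hj
  have key : ∀ x y : V, x ≠ y → x ∉ (S.filter fun v => v ∈ Cl G Z T z) →
      y ∉ (S.filter fun v => v ∈ Cl G Z T z) →
      Full2 G (S.filter fun v => v ∈ Cl G Z T z) x y → x = a' ∨ x = b' := by
    intro x y hxy hx hy hfx
    by_contra hcon
    push Not at hcon
    have h1 := R02.other_le hF hP hs hz h0 hab' ha' hb' hx hf' hcon.1 hcon.2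
    have h2 := R02.dg_le hF hP hj h hh hz h0 hy
    have h3 := card_le_rest2 (G := G) (S.filter fun v => v ∈ Cl G Z T z) x y
    have h4 : rest2 G (S.filter fun v => v ∈ Cl G Z T z) x y = ∅ := by
      rw [rest2, filter_eq_empty_iff]
      intro c hc h5
      rcases hfx c hc with h6 | h6
      · exact h5.1 h6
      · exact h5.2 h6
    rw [h4, card_empty] at h3
    have h5 := h0.2
    omega
  refine ⟨key a b hab ha hb hf, key b a hab.symm hb ha fun c hc => (hf c hc).symm⟩

/-- the missing pairs of the slot `x`, ordered -/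
noncomputable def MPs (G : SimpleGraph V) (X : Finset V) : Finset (V × V) :=
  (X ×ˢ X).filter fun e => e.2 ≠ e.1 ∧ ¬ G.Adj e.1 e.2

lemma card_MPs (X : Finset V) : (MPs G X).card = NE G X := by
  unfold MPs NE nd
  simp only [card_filter, sum_product]

/-- **the pairs of a slot which are half served by two such rows form a star** -/
theorem R02.star (hF : PFrame G r m t Z T) (hP : PG G r) (hr : 10 ≤ r)
    (hs : HSys G Z T A S) (hh : ∀ v ∈ S, hm v ∈ A ∧ hm v ∈ rws G T v) {x y z : V}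
    (hx : x ∈ A) (hy : y ∈ A) (hz : z ∈ A) (hxy : y ≠ x) (hxz : z ≠ x) (hyz : y ≠ z)
    (h0 : R02 G Z T hm r S y) (h1 : R02 G Z T hm r S z) :
    ((MPs G (S.filter fun v => hm v = x)).filter fun e => ends G T e.1 = {x, y} ∧
      ends G T e.2 = {x, z} ∧ ¬ Full2 G (S.filter fun v => v ∈ Cl G Z T y) e.1 e.2 ∧
      ¬ Full2 G (S.filter fun v => v ∈ Cl G Z T z) e.1 e.2).card
      ≤ max (S.filter fun v => hm v = x ∧ ends G T v = {x, y}).card
        (S.filter fun v => hm v = x ∧ ends G T v = {x, z}).card := by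
  have hxT := hs.sub hx
  have hyT := hs.sub hy
  have hzT := hs.sub hz
  have hBB : ∀ v ∈ S, ∀ w, w ≠ x → ends G T v = {x, w} → v ∈ BB G Z T := by
    intro v hv w hw he
    have hvT : v ∉ T := by
      intro hT
      rw [hF.ends_T hT] at he
      have h3 : x ∈ (∅ : Finset V) := by rw [he]; simp
      simp at h3
    refine mem_BB.2 ⟨⟨hs.subZ hv, hvT⟩, ?_⟩
    rw [← card_ends, he, card_pair hw.symm]
  have hout : ∀ v ∈ S, hm v = x → ∀ w ∈ A, w ≠ x → v ∉ S.filter fun v => v ∈ Cl G Z T w := by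
    intro v hv hvx w hw hwx h2
    have h3 := hs.cl_slot hh hw hv (mem_filter.1 h2).2
    exact hwx (h3.symm.trans hvx)
  refine card_star (fun e he => ?_) (fun e he f hf => ?_)
  · obtain ⟨h2, h3, h4, -, -⟩ := mem_filter.1 he
    obtain ⟨h5, h6⟩ := mem_product.1 (mem_filter.1 h2).1
    obtain ⟨h7, h8⟩ := mem_filter.1 h5
    obtain ⟨h9, h10⟩ := mem_filter.1 h6
    exact mem_product.2 ⟨mem_filter.2 ⟨h7, h8, h3⟩, mem_filter.2 ⟨h9, h10, h4⟩⟩
  · obtain ⟨a1, a2, a3, a4, a5⟩ := mem_filter.1 he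
    obtain ⟨b1, b2, b3, b4, b5⟩ := mem_filter.1 hf
    obtain ⟨a6, a7, a8⟩ := mem_filter.1 a1
    obtain ⟨b6, b7, b8⟩ := mem_filter.1 b1
    obtain ⟨a9, a10⟩ := mem_product.1 a6
    obtain ⟨b9, b10⟩ := mem_product.1 b6
    obtain ⟨c1, c2⟩ := mem_filter.1 a9
    obtain ⟨c3, c4⟩ := mem_filter.1 a10
    obtain ⟨d1, d2⟩ := mem_filter.1 b9
    obtain ⟨d3, d4⟩ := mem_filter.1 b10
    by_contra hcon
    push Not at hcon
    have B1 := hBB _ c1 y hxy a2
    have B2 := hBB _ c3 z hxz a3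
    have B3 := hBB _ d1 y hxy b2
    have B4 := hBB _ d3 z hxz b3
    have hne : ∀ u v, ends G T u = {x, y} → ends G T v = {x, z} → u ≠ v := by
      intro u v hu hv huv
      rw [huv, hv] at hu
      have h3 : y ∈ ({x, z} : Finset V) := by rw [hu]; simp
      rcases mem_insert.1 h3 with h4 | h4
      · exact hxy h4
      · exact hyz (mem_singleton.1 h4)
    have hrest : ∀ (p q w : V), ¬ Full2 G (S.filter fun v => v ∈ Cl G Z T w) p q →
        (rest2 G (S.filter fun v => v ∈ Cl G Z T w) p q).Nonempty := by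
      intro p q w hn
      unfold Full2 at hn
      push Not at hn
      obtain ⟨c, hc, h3, h4⟩ := hn
      exact ⟨c, mem_rest2.2 ⟨hc, h3, h4⟩⟩
    refine hP.no_two_half hr (R02.clq hF hs hy) (R02.clq hF hs hz) h0.2 h1.2
      (p := e.1) (q := e.2) (p' := f.1) (q' := f.2) ?_ ?_ a7.symm hcon.1 (hne _ _ a2 b3)
      (hne _ _ b2 a3).symm hcon.2 b7.symm ?_ ?_ (hrest _ _ _ a4) (hrest _ _ _ a5)
      (hrest _ _ _ b4) (hrest _ _ _ b5) ?_ ?_
    · rw [disjoint_left]
      intro v hv hv'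
      exact disjoint_left.1 (Cl_Cl_disjoint hyT hzT hyz) (mem_filter.1 hv).2 (mem_filter.1 hv').2
    · intro v hv
      simp only [mem_insert, mem_singleton] at hv
      rcases hv with rfl | rfl | rfl | rfl
      · exact ⟨hout _ c1 c2 y hy hxy, hout _ c1 c2 z hz hxz⟩
      · exact ⟨hout _ c3 c4 y hy hxy, hout _ c3 c4 z hz hxz⟩
      · exact ⟨hout _ d1 d2 y hy hxy, hout _ d1 d2 z hz hxz⟩
      · exact ⟨hout _ d3 d4 y hy hxy, hout _ d3 d4 z hz hxz⟩
    · intro c hc d hd
      obtain ⟨u1, u2, u3⟩ := mem_rest2.1 hc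
      obtain ⟨w1, w2, w3⟩ := mem_rest2.1 hd
      exact hF.half hyT hzT hyz hxT B1 a2 B2 a3 a7.symm a8 (mem_filter.1 u1).2
        (mem_filter.1 w1).2 u2 u3 w2 w3
    · intro c hc d hd
      obtain ⟨u1, u2, u3⟩ := mem_rest2.1 hc
      obtain ⟨w1, w2, w3⟩ := mem_rest2.1 hd
      exact hF.half hyT hzT hyz hxT B3 b2 B4 b3 b7.symm b8 (mem_filter.1 u1).2
        (mem_filter.1 w1).2 u2 u3 w2 w3
    · intro c hc h3 h4
      by_contra h5
      rcases hF.srv_PP hyT B1 a2 B3 b2 hcon.1 h5 (mem_filter.1 hc).2 with h6 | h6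
      · exact h3 h6
      · exact h4 h6
    · intro c hc h3 h4
      by_contra h5
      rcases hF.srv_PP hzT B2 a3 B4 b3 hcon.2 h5 (mem_filter.1 hc).2 with h6 | h6
      · exact h3 h6
      · exact h4 h6

/-- a set of ordered pairs with one underlying pair -/
lemma card_le_two_of {M : Finset (V × V)} {a b : V}
    (h : ∀ e ∈ M, e.1 ≠ e.2 ∧ (e.1 = a ∨ e.1 = b) ∧ (e.2 = a ∨ e.2 = b)) : M.card ≤ 2 := by
  have h1 : M ⊆ {(a, b), (b, a)} := by
    intro e he
    obtain ⟨h2, h3, h4⟩ := h e he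
    rw [mem_insert, mem_singleton]
    rcases h3 with h3 | h3 <;> rcases h4 with h4 | h4
    · exact absurd (h3.trans h4.symm) h2
    · exact Or.inl (Prod.ext h3 h4)
    · exact Or.inr (Prod.ext h3 h4)
    · exact absurd (h3.trans h4.symm) h2
  exact (card_le_card h1).trans card_le_two

/-- the tails of a slot -/
lemma sum_tails_le (hF : PFrame G r m t Z T) (hs : HSys G Z T A S) {x : V} :
    ∑ y ∈ A.erase x, (S.filter fun v => hm v = x ∧ ends G T v = {x, y}).card
      ≤ (S.filter fun v => v ∈ BB G Z T ∧ hm v = x).card := by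
  rw [← card_biUnion]
  · refine card_le_card fun v hv => ?_
    obtain ⟨y, hy, h1⟩ := mem_biUnion.1 hv
    obtain ⟨h2, h3, h4⟩ := mem_filter.1 h1
    refine mem_filter.2 ⟨h2, ?_, h3⟩
    have hvT : v ∉ T := by
      intro hT
      rw [hF.ends_T hT] at h4
      have h5 : x ∈ (∅ : Finset V) := by rw [h4]; simp
      simp at h5
    refine mem_BB.2 ⟨⟨hs.subZ h2, hvT⟩, ?_⟩
    rw [← card_ends, h4, card_pair (ne_of_mem_erase hy).symm]
  · intro y hy z hz hyz
    change Disjoint _ _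
    rw [disjoint_left]
    intro v hv hv'
    have h1 := (mem_filter.1 hv).2.2
    rw [(mem_filter.1 hv').2.2] at h1
    have h2 : z ∈ ({x, y} : Finset V) := by rw [← h1]; simp
    rcases mem_insert.1 h2 with h3 | h3
    · exact ne_of_mem_erase (mem_coe.1 hz) h3
    · exact hyz (mem_singleton.1 h3).symm

/-- the ordered pairs of different elements -/
lemma sum_offDiag_add (B : Finset V) (f : V → ℕ) :
    ∑ e ∈ B.offDiag, (f e.1 + f e.2) = 2 * ((B.card - 1) * ∑ y ∈ B, f y) := by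
  have h1 : ∀ g : V → ℕ, ∑ e ∈ B.offDiag, g e.1 = (B.card - 1) * ∑ y ∈ B, g y := by
    intro g
    have h2 : ∑ e ∈ B.offDiag, g e.1 = ∑ y ∈ B, ∑ e ∈ B.offDiag.filter (fun e => e.1 = y), g e.1 :=
      (sum_fiberwise_of_maps_to (fun e he => (mem_offDiag.1 he).1) _).symm
    rw [h2, mul_sum]
    refine sum_congr rfl fun y hy => ?_
    have h3 : ∀ e ∈ B.offDiag.filter (fun e => e.1 = y), g e.1 = g y := fun e he => by
      rw [(mem_filter.1 he).2]
    rw [sum_congr rfl h3, sum_const, smul_eq_mul]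
    congr 1
    have h4 : (B.offDiag.filter (fun e => e.1 = y)).card = (B.erase y).card := by
      refine card_bij (fun e _ => e.2) (fun e he => ?_) (fun e he f hf hef => ?_)
        (fun z hz => ⟨(y, z), ?_, rfl⟩)
      · obtain ⟨h5, h6⟩ := mem_filter.1 he
        obtain ⟨-, h7, h8⟩ := mem_offDiag.1 h5
        exact mem_erase.2 ⟨fun h' => h8 (h6.trans h'.symm), h7⟩
      · exact Prod.ext ((mem_filter.1 he).2.trans (mem_filter.1 hf).2.symm) hef
      · obtain ⟨h5, h6⟩ := mem_erase.1 hz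
        exact mem_filter.2 ⟨mem_offDiag.2 ⟨hy, h6, fun h' => h5 h'.symm⟩, rfl⟩
    rw [h4, card_erase_of_mem hy]
  have h5 : ∑ e ∈ B.offDiag, f e.2 = (B.card - 1) * ∑ y ∈ B, f y := by
    rw [← h1 f]
    refine sum_nbij' Prod.swap Prod.swap ?_ ?_ ?_ ?_ ?_
    · intro e he
      obtain ⟨h6, h7, h8⟩ := mem_offDiag.1 he
      exact mem_offDiag.2 ⟨h7, h6, h8.symm⟩
    · intro e he
      obtain ⟨h6, h7, h8⟩ := mem_offDiag.1 he
      exact mem_offDiag.2 ⟨h7, h6, h8.symm⟩
    · intro e _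
      exact Prod.swap_swap e
    · intro e _
      exact Prod.swap_swap e
    · intro e _
      rfl
  rw [sum_add_distrib, h1 f, h5]
  ring

/-- **the missing pairs of a host all of whose far rows have the type `(0, 0, 2)`** -/
theorem R02.host_le (hF : PFrame G r m t Z T) (hP : PG G r) (hj : 2 ≤ j) (hr : 10 ≤ r)
    (h : MQSys r (JSys G Z T j) A S) (hh : ∀ v ∈ S, hm v ∈ A ∧ hm v ∈ rws G T v)
    (hr' : (j + 1) * (j + 2) + 10 ≤ 2 * r) {x : V} (hx : x ∈ A)
    (h0 : ∀ z ∈ A.erase x, R02 G Z T hm r S z) :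
    NE G (S.filter fun v => hm v = x) ≤ 2 * (A.card - 1)
      + 2 * ((A.card - 2) * (S.filter fun v => v ∈ BB G Z T ∧ hm v = x).card) := by
  have hs := h.q.hsys hF hj
  set M := MPs G (S.filter fun v => hm v = x) with hM
  set d : V → ℕ := fun y => (S.filter fun v => hm v = x ∧ ends G T v = {x, y}).card with hd
  have hout : ∀ v ∈ S, hm v = x → ∀ w ∈ A.erase x, v ∉ S.filter fun v => v ∈ Cl G Z T w := by
    intro v hv hvx w hw h2
    have h3 := hs.cl_slot hh (mem_of_mem_erase hw) hv (mem_filter.1 h2).2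
    exact ne_of_mem_erase hw (h3.symm.trans hvx)
  have h1 : M ⊆ ((A.erase x).biUnion fun y =>
        M.filter fun e => Full2 G (S.filter fun v => v ∈ Cl G Z T y) e.1 e.2)
      ∪ ((A.erase x).offDiag.biUnion fun w => M.filter fun e => ends G T e.1 = {x, w.1} ∧
        ends G T e.2 = {x, w.2} ∧ ¬ Full2 G (S.filter fun v => v ∈ Cl G Z T w.1) e.1 e.2 ∧
        ¬ Full2 G (S.filter fun v => v ∈ Cl G Z T w.2) e.1 e.2) := by
    intro e he
    by_cases hf : ∃ y ∈ A.erase x, Full2 G (S.filter fun v => v ∈ Cl G Z T y) e.1 e.2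
    · obtain ⟨y, hy, hf⟩ := hf
      exact mem_union_left _ (mem_biUnion.2 ⟨y, hy, mem_filter.2 ⟨he, hf⟩⟩)
    · push Not at hf
      obtain ⟨a6, a7, a8⟩ := mem_filter.1 he
      obtain ⟨a9, a10⟩ := mem_product.1 a6
      obtain ⟨c1, c2⟩ := mem_filter.1 a9
      obtain ⟨c3, c4⟩ := mem_filter.1 a10
      have hr1 := (hh _ c1).2
      have hr2 := (hh _ c3).2
      rw [c2] at hr1
      rw [c4] at hr2
      rcases hs.closed x hx e.1 c1 e.2 c3 hr1 hr2 (co_adj.2 ⟨a7.symm, a8⟩) with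
        ⟨y, hy, h5⟩ | ⟨y, hy, z, hz, hyz, h5, h6⟩
      · exact absurd (fun c hc => h5 c (mem_filter.1 hc).1 (mem_filter.1 hc).2) (hf y hy)
      · exact mem_union_right _ (mem_biUnion.2 ⟨(y, z), mem_offDiag.2 ⟨hy, hz, hyz⟩,
          mem_filter.2 ⟨he, h5, h6, hf y hy, hf z hz⟩⟩)
  have h2 := (card_le_card h1).trans (card_union_le _ _)
  have h3 : ((A.erase x).biUnion fun y =>
      M.filter fun e => Full2 G (S.filter fun v => v ∈ Cl G Z T y) e.1 e.2).card
      ≤ (A.erase x).card * 2 := by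
    refine card_biUnion_le.trans ?_
    rw [← smul_eq_mul, ← sum_const]
    refine sum_le_sum fun y hy => ?_
    have hin : ∀ e ∈ M.filter fun e => Full2 G (S.filter fun v => v ∈ Cl G Z T y) e.1 e.2,
        e.1 ≠ e.2 ∧ e.1 ∉ (S.filter fun v => v ∈ Cl G Z T y) ∧
          e.2 ∉ (S.filter fun v => v ∈ Cl G Z T y) ∧
          Full2 G (S.filter fun v => v ∈ Cl G Z T y) e.1 e.2 := by
      intro e he
      obtain ⟨h5, h6⟩ := mem_filter.1 he
      obtain ⟨a6, a7, a8⟩ := mem_filter.1 h5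
      obtain ⟨a9, a10⟩ := mem_product.1 a6
      obtain ⟨c1, c2⟩ := mem_filter.1 a9
      obtain ⟨c3, c4⟩ := mem_filter.1 a10
      exact ⟨a7.symm, hout _ c1 c2 y hy, hout _ c3 c4 y hy, h6⟩
    rcases (M.filter fun e => Full2 G (S.filter fun v => v ∈ Cl G Z T y) e.1 e.2).eq_empty_or_nonempty
      with h4 | ⟨f, hf⟩
    · rw [h4, card_empty]
      norm_num
    · obtain ⟨f1, f2, f3, f4⟩ := hin f hf
      refine card_le_two_of (a := f.1) (b := f.2) fun e he => ?_
      obtain ⟨e1, e2, e3, e4⟩ := hin e he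
      obtain ⟨u1, u2⟩ := R02.full_unique hF hP hj h hh hr' (mem_of_mem_erase hy) (h0 y hy) e1 e2 e3
        e4 f1 f2 f3 f4
      exact ⟨e1, u1, u2⟩
  have h4 : ((A.erase x).offDiag.biUnion fun w => M.filter fun e => ends G T e.1 = {x, w.1} ∧
        ends G T e.2 = {x, w.2} ∧ ¬ Full2 G (S.filter fun v => v ∈ Cl G Z T w.1) e.1 e.2 ∧
        ¬ Full2 G (S.filter fun v => v ∈ Cl G Z T w.2) e.1 e.2).card
      ≤ ∑ w ∈ (A.erase x).offDiag, (d w.1 + d w.2) := by
    refine card_biUnion_le.trans (sum_le_sum fun w hw => ?_)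
    obtain ⟨h5, h6, h7⟩ := mem_offDiag.1 hw
    have h8 := R02.star hF hP hr hs hh hx (mem_of_mem_erase h5) (mem_of_mem_erase h6)
      (ne_of_mem_erase h5) (ne_of_mem_erase h6) h7 (h0 _ h5) (h0 _ h6)
    refine h8.trans ?_
    exact max_le (Nat.le_add_right _ _) (Nat.le_add_left _ _)
  rw [sum_offDiag_add] at h4
  have h5 := sum_tails_le (hm := hm) hF hs (x := x)
  have hc : M.card = NE G (S.filter fun v => hm v = x) := card_MPs _
  have h6 : (A.erase x).card = A.card - 1 := card_erase_of_mem hx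
  rw [h6] at h3 h4
  have h7 : (A.card - 1 - 1) * ∑ y ∈ A.erase x, d y
      ≤ (A.card - 2) * (S.filter fun v => v ∈ BB G Z T ∧ hm v = x).card :=
    Nat.mul_le_mul (by omega) h5
  omega

/-- **the rows of a minimal system are not all but one of the type `(0, 0, 2)`** -/
theorem MQSys.no_hub02 (hF : S2 G r m t Z T) (hP : PG G r) (hm' : m ≤ r) (hj : 2 ≤ j)
    (h : MQSys r (JSys G Z T j) A S) (hh : ∀ v ∈ S, hm v ∈ A ∧ hm v ∈ rws G T v)
    (hr : 10 ≤ r) (hr' : (j + 1) * (j + 2) + 10 ≤ 2 * r) {x : V} (hx : x ∈ A)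
    (h0 : ∀ z ∈ A.erase x, R02 G Z T hm r S z) : False := by
  have hs := h.q.hsys hF.toPFrame hj
  have h1 := R02.host_le hF.toPFrame hP hj hr h hh hr' hx h0
  have h2 := hP.ne1 (S.filter fun v => hm v = x)
  have h3 := sum_slots (hm := hm) (A := A) (S := S) fun v hv => (hh v hv).1
  rw [h.val, ← add_sum_erase A (fun x => (S.filter fun v => hm v = x).card) hx] at h3
  have h4 : ∑ z ∈ A.erase x, (S.filter fun v => hm v = z).card + (A.erase x).card
      = (A.erase x).card * r := by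
    rw [card_eq_sum_ones, ← sum_add_distrib, ← card_eq_sum_ones, ← smul_eq_mul, ← sum_const]
    exact sum_congr rfl fun z hz => (h0 z hz).1
  have h5 := card_erase_add_one hx
  have h6 := hs.card_slot hF.toPFrame hh hx
  have h7 := hs.card_cl hF hx
  have h8 : (S.filter fun v => v ∈ BB G Z T ∧ hm v = x).card ≤ r :=
    ((card_le_card fun v hv => (mem_filter.1 hv).2.1).trans hF.b).trans hm'
  have h9 := h.two
  obtain ⟨n, hn⟩ : ∃ n, A.card = n + 2 := ⟨A.card - 2, by omega⟩
  have h10 : (A.erase x).card = n + 1 := by omega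
  rw [h10] at h4
  rw [hn] at h1 h3
  have h11 : (S.filter fun v => hm v = x).card = r + n + 2 := by
    have : (n + 2) * r = (n + 1) * r + r := by ring
    omega
  rw [h11] at h2 h6
  have h12 : n + 2 - 1 = n + 1 := by omega
  have h13 : n + 2 - 2 = n := by omega
  rw [h12, h13] at h1
  have h14 : n + 3 ≤ r := by omega
  have h15 : n * (S.filter fun v => v ∈ BB G Z T ∧ hm v = x).card ≤ n * r :=
    Nat.mul_le_mul_left _ h8
  have h16 : (NE G (S.filter fun v => hm v = x) : ℤ) ≤ 2 * (n + 1) + 2 * (n * r) := by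
    have : NE G (S.filter fun v => hm v = x) ≤ 2 * (n + 1) + 2 * (n * r) := by omega
    exact_mod_cast this
  have h17 : (n : ℤ) + 3 ≤ r := by exact_mod_cast h14
  push_cast at h2
  nlinarith

end Row02

end Pool.Agent.Lib.MP_f04ccf_co
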