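import Pool.Agent.Lib.MP_f04ccf_co.M.MatI

/-!
MP_f04ccf_co, notes 16792 (3), 16946 (e), 17039 (2): the row test with third points.  `Fam.row3`: at the
row `z` the items `K`, and for some of them (`K3`) one more point `q u`, a column of another row which
misses the whole item: it sees all columns of `z` which miss the item (`Fam.icl_complete`), so these
items have no misses at `z`.  The third points are different and are no partners of PC pairs of `K`.
-/

set_option autoImplicit false

namespace Pool.Agent.Lib.MP_f04ccf_co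

open Finset

attribute [local instance] Classical.propDecidable

section Row3

variable {V : Type*} {G : SimpleGraph V} {Z T : Finset V} {hm : V → V} {r m t : ℕ}
  {A : Finset V} {S : V → Finset V} {U : V → Finset (Itm V)}

/-- **(row) with third points** -/
theorem Fam.row3 (hP : PG G r) (hC : CSys G Z T hm A S)
    (hW : WSysT G (co G) A (CP G Z T S) (HP G Z T S) (tlo G T hm))
    (h : ∀ x ∈ A, Fam (co G) (CP G Z T S) (HP G Z T S) (tlo G T hm) x (U x))
    {z : V} (hz : z ∈ A) {K K3 : Finset (Itm V)} (hK : K ⊆ (A.erase z).biUnion U)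
    (hk : ∀ u ∈ K, ikp (tlo G T hm) z u ≠ 0) (hK3 : K3 ⊆ K)
    {X : Finset V → Finset V} (hX : ∀ Q, X Q ⊆ oth (tlo G T hm) z Q)
    (hX3 : ∀ Q, Sum.inl Q ∈ K3 → X Q = oth (tlo G T hm) z Q)
    {q y : Itm V → V} (hy : ∀ u ∈ K3, y u ∈ A.erase z)
    (hq : ∀ u ∈ K3, q u ∈ icl G (CP G Z T S) (tlo G T hm) (y u) u)
    (hinj : ∀ u ∈ K3, ∀ v ∈ K3, q u = q v → u = v)
    (hpc : ∀ u ∈ K3, ∀ e, Sum.inr e ∈ K → q u ≠ e.2) :
    2 * ((r : ℤ) - 1) * (((S z).card : ℤ) - r)
      + 2 * (∑ u ∈ K, ((CP G Z T S z).card : ℤ) * ikp (tlo G T hm) z u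
          - ∑ u ∈ K \ K3, ((rcl G (CP G Z T S) (tlo G T hm) X z u).card : ℤ))
      ≤ NE G (S z)
        + 2 * (∑ u ∈ K, ((rpts (tlo G T hm) X z u).card : ℤ) + K3.card)
          * (((S z).card : ℤ) - r + 1)
        + (∑ u ∈ K, ((rpts (tlo G T hm) X z u).card : ℤ) + K3.card)
          * (∑ u ∈ K, ((rpts (tlo G T hm) X z u).card : ℤ) + K3.card - 1) := by
  set tl := tlo G T hm with htl
  set C := CP G Z T S with hCd
  have hK' : K ⊆ (A \ {z}).biUnion U := by
    rwa [sdiff_singleton_eq_erase]
  have hfil : (K.filter fun u => ikp tl z u ≠ 0) = K := filter_true_of_mem hk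
  have hg := Fam.grp hW h (D := A.erase z) (erase_subset _ _) hK (z := z) hX
  rw [hfil] at hg
  have hsb : ({z} : Finset V) ⊆ A := by
    simpa using hz
  -- the host of an item
  have key : ∀ u ∈ K, ∃ x ∈ A, u ∈ U x := fun u hu => by
    obtain ⟨x, hx, hux⟩ := mem_biUnion.1 (hK hu)
    exact ⟨x, mem_of_mem_erase hx, hux⟩
  have hqC : ∀ u ∈ K3, q u ∈ C (y u) := fun u hu => rcl_sub (hq u hu)
  -- the third points are outside the points of the items
  have hqr : ∀ u ∈ K3, ∀ v ∈ K, q u ∉ rpts tl X z v := by
    intro u hu v hv hmem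
    obtain ⟨x, hx, hvx⟩ := key v hv
    have h1 := hqC u hu
    have h2 := mem_of_mem_erase (hy u hu)
    rcases v with Q | e
    · simp only [rpts] at hmem
      have h3 : q u ∈ Q := by
        rcases mem_union.1 hmem with h4 | h4
        · exact tlp_sub h4
        · exact (mem_oth.1 (hX Q h4)).1
      exact disjoint_left.1 (hW.dHC x hx _ h2) ((h x hx).sub Q hvx h3) h1
    · simp only [rpts] at hmem
      rcases mem_insert.1 hmem with h4 | h4
      · exact disjoint_left.1 (hW.dHC x hx _ h2) (h4 ▸ (h x hx).pcH e hvx) h1
      · exact hpc u hu e hv (mem_singleton.1 h4)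
  -- the groups
  have hG3 : Grp G (C z) K
      (fun u => rpts tl X z u ∪ if u ∈ K3 then {q u} else ∅) (fun u => (ikp tl z u : ℤ))
      (fun u c => if u ∈ K3 then 0 else if c ∈ rcl G C tl X z u then 1 else 0) := by
    refine ⟨fun u hu v hv huv => ?_, fun u hu c hc => ?_⟩
    · have h1 := hg.dis u hu v hv huv
      rw [disjoint_left]
      intro w hw hw'
      rcases mem_union.1 hw with h2 | h2 <;> rcases mem_union.1 hw' with h3 | h3
      · exact disjoint_left.1 h1 h2 h3
      · by_cases h4 : v ∈ K3
        · rw [if_pos h4, mem_singleton] at h3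
          exact hqr v h4 u hu (h3 ▸ h2)
        · rw [if_neg h4] at h3
          exact notMem_empty _ h3
      · by_cases h4 : u ∈ K3
        · rw [if_pos h4, mem_singleton] at h2
          exact hqr u h4 v hv (h2 ▸ h3)
        · rw [if_neg h4] at h2
          exact notMem_empty _ h2
      · by_cases h4 : u ∈ K3
        · by_cases h5 : v ∈ K3
          · rw [if_pos h4, mem_singleton] at h2
            rw [if_pos h5, mem_singleton] at h3
            exact huv (hinj u h4 v h5 (h2.symm.trans h3))
          · rw [if_neg h5] at h3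
            exact notMem_empty _ h3
        · rw [if_neg h4] at h2
          exact notMem_empty _ h2
    · have h1 := hg.see u hu c hc
      by_cases h4 : u ∈ K3
      · simp only [if_pos h4]
        have h5 : dg G (rpts tl X z u ∪ {q u}) c = dg G (rpts tl X z u) c + dg G {q u} c := by
          have h6 : Disjoint (rpts tl X z u) {q u} := by
            rw [disjoint_singleton_right]
            exact hqr u h4 u hu
          unfold dg
          rw [filter_union, card_union_of_disjoint (disjoint_filter_filter h6)]
        rw [h5]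
        by_cases h6 : c ∈ rcl G C tl X z u
        · rw [if_pos h6] at h1
          have h7 : c ∈ icl G C tl z u := by
            rcases u with Q | e
            · unfold icl
              simp only [rcl] at h6 ⊢
              rw [hX3 Q h4] at h6
              exact h6
            · exact absurd h6 (by simp [rcl])
          obtain ⟨x, hx, hux⟩ := key u hu
          have h8 := (h x hx).icl_complete hW hx hz (mem_of_mem_erase (hy u h4))
            (ne_of_mem_erase (hy u h4)).symm hux c h7 (q u) (hq u h4)
          have h9 : dg G {q u} c = 1 := by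
            unfold dg
            rw [card_eq_one]
            refine ⟨q u, ?_⟩
            ext w
            simp only [mem_filter, mem_singleton]
            constructor
            · rintro ⟨h10, -⟩
              exact h10
            · rintro rfl
              exact ⟨rfl, h8⟩
          rw [h9]
          push_cast
          linarith
        · rw [if_neg h6] at h1
          have : (0 : ℤ) ≤ dg G {q u} c := Int.natCast_nonneg _
          push_cast
          linarith
      · simp only [if_neg h4, union_empty]
        exact h1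
  -- the test
  set W : Finset V := K.biUnion fun u => rpts tl X z u ∪ if u ∈ K3 then {q u} else ∅ with hWd
  have hdS : ∀ x ∈ ({z} : Finset V), Disjoint (S x) W := by
    intro x hx
    rw [mem_singleton.1 hx, hWd, disjoint_biUnion_right]
    intro u hu
    rw [disjoint_union_right]
    have h2 := Fam.disj_pts hC h hsb hK' (mem_singleton_self z)
    refine ⟨h2.mono_right ?_, ?_⟩
    · obtain ⟨x, hx, hux⟩ := key u hu
      exact ((h x hx).rpts_sub hX).trans (subset_biUnion_of_mem ipts hu)
    · by_cases h4 : u ∈ K3
      · rw [if_pos h4, disjoint_singleton_right]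
        intro h5
        have h6 := hC.disj hz (mem_of_mem_erase (hy u h4)) (ne_of_mem_erase (hy u h4)).symm
        exact disjoint_left.1 h6 h5 (mem_CP.1 (hqC u h4)).1
      · rw [if_neg h4]
        exact disjoint_empty_right _
  have h1 := hC.tst_grp hP (B := {z}) hsb (W := W) hdS (I := fun _ => K)
    (P := fun _ u => rpts tl X z u ∪ if u ∈ K3 then {q u} else ∅)
    (k := fun _ u => (ikp tl z u : ℤ))
    (df := fun _ u c => if u ∈ K3 then 0 else if c ∈ rcl G C tl X z u then 1 else 0)
    (fun x hx => by
      rw [mem_singleton.1 hx]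
      exact hG3) (fun x _ => subset_rfl)
  have h2 := NE_le_self (G := G) W
  have h3 : (W.card : ℤ) = ∑ u ∈ K, ((rpts tl X z u).card : ℤ) + K3.card := by
    have e1 : W.card = ∑ u ∈ K, (rpts tl X z u ∪ if u ∈ K3 then {q u} else ∅).card :=
      card_biUnion hG3.dis
    have e2 : ∀ u ∈ K, (rpts tl X z u ∪ if u ∈ K3 then {q u} else ∅).card
        = (rpts tl X z u).card + if u ∈ K3 then 1 else 0 := by
      intro u hu
      by_cases h4 : u ∈ K3
      · rw [if_pos h4, if_pos h4, card_union_of_disjoint, card_singleton]
        rw [disjoint_singleton_right]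
        exact hqr u h4 u hu
      · rw [if_neg h4, if_neg h4, union_empty, Nat.add_zero]
    have e3 : (∑ u ∈ K, if u ∈ K3 then 1 else 0) = K3.card := by
      rw [← sum_filter, filter_mem_eq_inter, inter_eq_right.2 hK3, card_eq_sum_ones]
    rw [e1, sum_congr rfl e2, sum_add_distrib, e3]
    push_cast
    rfl
  have h4 : ∑ u ∈ K, (((C z).card : ℤ) * ikp tl z u
      - ∑ c ∈ C z, if u ∈ K3 then (0 : ℤ) else if c ∈ rcl G C tl X z u then 1 else 0)
      = ∑ u ∈ K, ((C z).card : ℤ) * ikp tl z u
        - ∑ u ∈ K \ K3, ((rcl G C tl X z u).card : ℤ) := by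
    rw [sum_sub_distrib]
    congr 1
    rw [← sum_sdiff hK3]
    have e1 : ∑ u ∈ K3, ∑ c ∈ C z,
        (if u ∈ K3 then (0 : ℤ) else if c ∈ rcl G C tl X z u then 1 else 0) = 0 := by
      refine sum_eq_zero fun u hu => sum_eq_zero fun c _ => ?_
      rw [if_pos hu]
    rw [e1, add_zero]
    refine sum_congr rfl fun u hu => ?_
    rw [← sum_rcl (G := G) (C := C) (tl := tl) (X := X) (z := z) u]
    refine sum_congr rfl fun c _ => ?_
    rw [if_neg (mem_sdiff.1 hu).2]
  rw [h3] at h1 h2
  simp only [sum_singleton, card_singleton, erase_singleton, sum_empty, Nat.cast_one, sub_self,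
    mul_zero, zero_mul, add_zero] at h1
  rw [h4] at h1
  linarith

end Row3

end Pool.Agent.Lib.MP_f04ccf_co
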