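import Pool.Agent.Lib.MP_f04ccf_co.M.NuW
import Pool.Agent.Lib.MP_f04ccf_co.M.SameT

/-!
MP_f04ccf_co, PLAN W, notes 17350, 17362: the row test with PARTIAL COLUMNS (RA).
`Fam.rowA_of`: slope `1` on the slot `S z`, the points of any items `K` loaded at `z` and class points `Y` of
`y` all joined to `F`, class points of `z`.
`Fam.rowA_K`: with the counts of the items and any saving.
`WCoreK.rowA`: over the basic integers, for a completely joined pair of sets of class points.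
`WCoreK.rowA_itm`: the missed class points of an item of any host; `WCoreK.rowA_home`, `WCoreK.rowA_tail`:
of an N-type of the host `x` with tail `y`, of the host `y` with tail `x`.
-/

set_option autoImplicit false

namespace Pool.Agent.Lib.MP_f04ccf_co

open Finset

attribute [local instance] Classical.propDecidable

section RowA

variable {V : Type*} {G : SimpleGraph V} {Z T : Finset V} {hm : V → V} {r m t : ℕ}
  {A : Finset V} {S : V → Finset V} {U : V → Finset (Itm V)}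

/-- **the row test with partial columns**: `Y` off the used points, all joined to `F` -/
theorem Fam.rowA_of (hF : PFrame G r m t Z T) (hP : PG G r) (hC : CSys G Z T hm A S)
    (hW : WSysT G (co G) A (CP G Z T S) (HP G Z T S) (tlo G T hm))
    (h : ∀ x ∈ A, Fam (co G) (CP G Z T S) (HP G Z T S) (tlo G T hm) x (U x))
    {z y : V} (hz : z ∈ A) (hy : y ∈ A) (hzy : z ≠ y) {K : Finset (Itm V)}
    (hK : K ⊆ (A.erase z).biUnion U) (hk : ∀ u ∈ K, ikp (tlo G T hm) z u ≠ 0)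
    {X : Finset V → Finset V} (hX : ∀ Q, X Q ⊆ oth (tlo G T hm) z Q)
    {Y : Finset V} (hY : Y ⊆ CP G Z T S y)
    (hYK : Disjoint Y (K.biUnion (rpts (tlo G T hm) X z)))
    {F : Finset V} (hF1 : F ⊆ CP G Z T S z) (hF2 : ∀ e ∈ pcz (tlo G T hm) y (U z), e.2 ∉ F)
    (hYF : ∀ c ∈ Y, ∀ a ∈ F, G.Adj c a) :
    2 * ((r : ℤ) - 1) * (((S z).card : ℤ) - r)
      + 2 * ∑ u ∈ K, (((CP G Z T S z).card : ℤ) * ikp (tlo G T hm) z u
          - (rcl G (CP G Z T S) (tlo G T hm) X z u).card)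
      + 2 * ∑ u ∈ U z, ((Y.card : ℤ) * ikp (tlo G T hm) y u
          - (Y ∩ icl G (CP G Z T S) (tlo G T hm) y u).card)
      + 2 * ((Y.card : ℤ) * F.card)
      ≤ NE G (S z)
        + 2 * ((K.biUnion (rpts (tlo G T hm) X z)).card + Y.card : ℤ)
          * (((S z).card : ℤ) - r + 1)
        + NE G (K.biUnion (rpts (tlo G T hm) X z))
        + 2 * ∑ v ∈ K.biUnion (rpts (tlo G T hm) X z), (nd G Y v : ℤ) := by
  obtain ⟨W, hWd⟩ : ∃ W, W = K.biUnion (rpts (tlo G T hm) X z) := ⟨_, rfl⟩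
  rw [← hWd] at hYK ⊢
  have hK' : K ⊆ (A \ {z}).biUnion U := by
    rwa [sdiff_singleton_eq_erase]
  have hfil : (K.filter fun u => ikp (tlo G T hm) z u ≠ 0) = K := filter_true_of_mem hk
  have hg := Fam.grp hW h (D := A.erase z) (erase_subset _ _) hK (z := z) hX
  rw [hfil] at hg
  have hsb : ({z} : Finset V) ⊆ A := by
    simpa using hz
  have hWS : Disjoint (S z) W := by
    have h2 := Fam.disj_pts hC h hsb hK' (mem_singleton_self z)
    rw [hWd]
    refine h2.mono_right (biUnion_mono fun u hu => ?_)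
    obtain ⟨x, hx, hux⟩ := mem_biUnion.1 (hK hu)
    exact (h x (mem_of_mem_erase hx)).rpts_sub hX
  have hYS : Disjoint (S z) Y := (hC.disj hz hy hzy).mono_right fun v hv => (mem_CP.1 (hY hv)).1
  have hD : Disjoint (S z) (Y ∪ W) := by
    rw [disjoint_union_right]
    exact ⟨hYS, hWS⟩
  have h1 := hC.tst hP (B := {z}) hsb (W := Y ∪ W) (fun x hx => by
    rw [mem_singleton.1 hx]
    exact hD)
  have hcl : Clq G Y := fun u hu v hv huv => hC.CP_clq hF hy u (hY hu) v (hY hv) huv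
  have h2 : (NE G (Y ∪ W) : ℤ) = NE G W + 2 * ∑ v ∈ W, (nd G Y v : ℤ) := by
    rw [NE_union hYK, NE_clq hcl]
    push_cast
    ring
  have h3 : ((Y ∪ W).card : ℤ) = Y.card + W.card := by
    rw [card_union_of_disjoint hYK]
    push_cast
    ring
  -- the hits
  have h5 : ∑ u ∈ K, (((CP G Z T S z).card : ℤ) * ikp (tlo G T hm) z u
      - (rcl G (CP G Z T S) (tlo G T hm) X z u).card)
      ≤ ∑ v ∈ W, (dg G (CP G Z T S z) v : ℤ) := by
    have h6 := hg.sum_le (W := W) (by rw [hWd])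
    have h7 : ∑ c ∈ CP G Z T S z, (dg G W c : ℤ) = ∑ v ∈ W, (dg G (CP G Z T S z) v : ℤ) := by
      have := dg_comm G (CP G Z T S z) W
      exact_mod_cast this
    rw [h7] at h6
    refine le_trans (le_of_eq ?_) h6
    refine sum_congr rfl fun u _ => ?_
    rw [sum_rcl]
  have h7 : ∑ u ∈ U z, ((Y.card : ℤ) * ikp (tlo G T hm) y u
          - (Y ∩ icl G (CP G Z T S) (tlo G T hm) y u).card) + (Y.card : ℤ) * F.card
      ≤ ∑ v ∈ Y, (dg G (S z) v : ℤ) := by
    rw [← sum_cols]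
    have h8 : ∑ c ∈ Y, (∑ u ∈ U z, ((ikp (tlo G T hm) y u : ℤ)
          - if c ∈ icl G (CP G Z T S) (tlo G T hm) y u then 1 else 0)) + ∑ c ∈ Y, (dg G F c : ℤ)
        ≤ ∑ v ∈ Y, (dg G (S z) v : ℤ) := by
      rw [← sum_add_distrib]
      refine sum_le_sum fun c hc => ?_
      have h8 := Fam.col_see hW h hz (z := y) (W := ∅) (F := F) (empty_subset _)
        (fun v hv => absurd hv (notMem_empty _)) hF1 hF2 (hY hc)
      have h9 : (0 : ℤ) ≤ dg G (∅ : Finset V) c := by positivity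
      linarith
    have h9 : ∀ c ∈ Y, (dg G F c : ℤ) = F.card := by
      intro c hc
      unfold dg
      rw [filter_true_of_mem fun a ha => hYF c hc a ha]
    rw [sum_congr rfl h9, sum_const, nsmul_eq_mul] at h8
    exact h8
  have h8 : ∑ v ∈ Y ∪ W, (dg G (S z) v : ℤ)
      = ∑ v ∈ Y, (dg G (S z) v : ℤ) + ∑ v ∈ W, (dg G (S z) v : ℤ) := sum_union hYK
  have h9 : ∑ v ∈ W, (dg G (CP G Z T S z) v : ℤ) ≤ ∑ v ∈ W, (dg G (S z) v : ℤ) := by
    refine sum_le_sum fun v _ => ?_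
    have h7 : dg G (CP G Z T S z) v ≤ dg G (S z) v := dg_mono (G := G) (fun w hw =>
      (mem_CP.1 hw).1) v
    exact_mod_cast h7
  simp only [sum_singleton, card_singleton, erase_singleton, sum_empty, Nat.cast_one, sub_self,
    mul_zero, zero_mul, add_zero] at h1
  rw [h2, h3] at h1
  rw [h8] at h1
  linarith

/-- **the same with the counts of the items**: `sv` any saving among the used points -/
theorem Fam.rowA_K (hF : PFrame G r m t Z T) (hP : PG G r) (hC : CSys G Z T hm A S)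
    (hW : WSysT G (co G) A (CP G Z T S) (HP G Z T S) (tlo G T hm))
    (h : ∀ x ∈ A, Fam (co G) (CP G Z T S) (HP G Z T S) (tlo G T hm) x (U x))
    {z y : V} (hz : z ∈ A) (hy : y ∈ A) (hzy : z ≠ y) {K : Finset (Itm V)}
    (hK : K ⊆ (A.erase z).biUnion U) (hk : ∀ u ∈ K, ikp (tlo G T hm) z u ≠ 0)
    {X : Finset V → Finset V} (hX : ∀ Q, X Q ⊆ oth (tlo G T hm) z Q) (hX1 : ∀ Q, (X Q).card ≤ 1)
    (h0 : 0 ≤ ((S z).card : ℤ) - r + 1 + ∑ u ∈ K, (ikp (tlo G T hm) z u : ℤ))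
    {Y : Finset V} (hY : Y ⊆ CP G Z T S y)
    (hYK : Disjoint Y (K.biUnion (rpts (tlo G T hm) X z)))
    {F : Finset V} (hF1 : F ⊆ CP G Z T S z) (hF2 : ∀ e ∈ pcz (tlo G T hm) y (U z), e.2 ∉ F)
    (hYF : ∀ c ∈ Y, ∀ a ∈ F, G.Adj c a) {sv : ℤ}
    (hsv : (NE G (K.biUnion (rpts (tlo G T hm) X z)) : ℤ) + sv
      + (K.biUnion (rpts (tlo G T hm) X z)).card
      ≤ ((K.biUnion (rpts (tlo G T hm) X z)).card : ℤ)
        * (K.biUnion (rpts (tlo G T hm) X z)).card) :
    2 * ((r : ℤ) - 1) * (((S z).card : ℤ) - r)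
      + 2 * ∑ u ∈ K, (((CP G Z T S z).card : ℤ) * ikp (tlo G T hm) z u
          - (rcl G (CP G Z T S) (tlo G T hm) X z u).card)
      + 2 * ∑ u ∈ U z, ((Y.card : ℤ) * ikp (tlo G T hm) y u
          - (Y ∩ icl G (CP G Z T S) (tlo G T hm) y u).card)
      + 2 * ((Y.card : ℤ) * F.card) + sv
      ≤ NE G (S z)
        + 2 * (2 * (∑ u ∈ K, (ikp (tlo G T hm) z u : ℤ)) + Y.card : ℤ)
          * (((S z).card : ℤ) - r + 1)
        + 2 * (∑ u ∈ K, (ikp (tlo G T hm) z u : ℤ))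
          * (2 * (∑ u ∈ K, (ikp (tlo G T hm) z u : ℤ)) - 1)
        + 2 * ∑ u ∈ K, (if u ∈ U y
            then min (iar G (CP G Z T S y) u : ℤ) (2 * Y.card * ikp (tlo G T hm) z u)
            else 2 * Y.card * ikp (tlo G T hm) z u) := by
  have h1 := Fam.rowA_of hF hP hC hW h hz hy hzy hK hk hX hY hYK hF1 hF2 hYF
  have hdis : ∀ u ∈ K, ∀ v ∈ K, u ≠ v → Disjoint (rpts (tlo G T hm) X z u)
      (rpts (tlo G T hm) X z v) := by
    intro u hu v hv huv
    obtain ⟨x, hx, hux⟩ := mem_biUnion.1 (hK hu)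
    obtain ⟨x', hx', hvx⟩ := mem_biUnion.1 (hK hv)
    exact (Fam.dis_row hW h (mem_of_mem_erase hx) (mem_of_mem_erase hx') hux hvx huv (hk u hu)
      (hk v hv)).mono ((h x (mem_of_mem_erase hx)).rpts_sub hX)
      ((h x' (mem_of_mem_erase hx')).rpts_sub hX)
  have h2 : ∀ u ∈ K, 1 ≤ (rpts (tlo G T hm) X z u).card ∧
      (rpts (tlo G T hm) X z u).card ≤ 2 * ikp (tlo G T hm) z u := by
    intro u hu
    obtain ⟨x, hx, hux⟩ := mem_biUnion.1 (hK hu)
    have hf := h x (mem_of_mem_erase hx)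
    have hku := hk u hu
    rcases u with Q | e
    · have h2 := hf.two Q hux
      have h3 : (rpts (tlo G T hm) X z (Sum.inl Q)).card
          ≤ (tlp (tlo G T hm) Q z).card + (X Q).card := card_union_le _ _
      have h4 : (tlp (tlo G T hm) Q z).card ≤ (rpts (tlo G T hm) X z (Sum.inl Q)).card :=
        card_le_card subset_union_left
      have h5 := hX1 Q
      by_cases hone : tlp (tlo G T hm) Q z = Q
      · have h6 : X Q = ∅ := by
          have h7 : oth (tlo G T hm) z Q = ∅ := by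
            unfold oth
            rw [hone, sdiff_self]
            rfl
          have := hX Q
          rw [h7] at this
          exact subset_empty.1 this
        have h7 : ikp (tlo G T hm) z (Sum.inl Q) = Q.card - 1 := by
          simp only [ikp, hone, if_true]
        rw [h7]
        rw [h6, card_empty, hone] at h3
        rw [hone] at h4
        omega
      · have h7 : ikp (tlo G T hm) z (Sum.inl Q) = (tlp (tlo G T hm) Q z).card := by
          simp only [ikp, hone, if_false]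
        rw [h7] at hku ⊢
        omega
    · have h3 : ikp (tlo G T hm) z (Sum.inr e) = 1 := by
        by_cases h4 : tlo G T hm e.1 = z
        · simp only [ikp, h4, if_true]
        · exact absurd (by simp only [ikp, h4, if_false]) hku
      rw [h3]
      simp only [rpts]
      exact ⟨card_pos.2 ⟨e.1, mem_insert_self _ _⟩, card_le_two⟩
  obtain ⟨W, hWd⟩ : ∃ W, W = K.biUnion (rpts (tlo G T hm) X z) := ⟨_, rfl⟩
  have hcW : (W.card : ℤ) = ∑ u ∈ K, ((rpts (tlo G T hm) X z u).card : ℤ) := by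
    rw [hWd, card_biUnion hdis]
    push_cast
    rfl
  have h3 : (W.card : ℤ) ≤ 2 * ∑ u ∈ K, (ikp (tlo G T hm) z u : ℤ) := by
    rw [hcW, mul_sum]
    exact sum_le_sum fun u hu => by exact_mod_cast (h2 u hu).2
  have h4 : (K.card : ℤ) ≤ W.card := by
    rw [hcW, card_eq_sum_ones]
    push_cast
    exact sum_le_sum fun u hu => by exact_mod_cast (h2 u hu).1
  have h6 : ∑ v ∈ W, (nd G Y v : ℤ) ≤ ∑ u ∈ K, (if u ∈ U y
            then min (iar G (CP G Z T S y) u : ℤ) (2 * Y.card * ikp (tlo G T hm) z u)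
            else 2 * Y.card * ikp (tlo G T hm) z u) := by
    rw [hWd, sum_biUnion hdis]
    refine sum_le_sum fun u hu => ?_
    have e1 : ∑ v ∈ rpts (tlo G T hm) X z u, (nd G Y v : ℤ)
        ≤ 2 * Y.card * ikp (tlo G T hm) z u := by
      have e2 : ∑ v ∈ rpts (tlo G T hm) X z u, (nd G Y v : ℤ)
          ≤ ∑ v ∈ rpts (tlo G T hm) X z u, (Y.card : ℤ) :=
        sum_le_sum fun v _ => by exact_mod_cast card_filter_le _ _
      rw [sum_const, nsmul_eq_mul] at e2
      have e3 : ((rpts (tlo G T hm) X z u).card : ℤ) ≤ 2 * ikp (tlo G T hm) z u := by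
        exact_mod_cast (h2 u hu).2
      have e4 : (0 : ℤ) ≤ Y.card := Nat.cast_nonneg _
      nlinarith
    by_cases huy : u ∈ U y
    · rw [if_pos huy]
      refine le_min ?_ e1
      have e2 : ∑ v ∈ rpts (tlo G T hm) X z u, nd G Y v
          ≤ ∑ v ∈ rpts (tlo G T hm) X z u \ CP G Z T S y, nd G (CP G Z T S y) v := by
        rw [← sum_sdiff (s₁ := rpts (tlo G T hm) X z u ∩ CP G Z T S y)
          (s₂ := rpts (tlo G T hm) X z u) inter_subset_left, sdiff_inter_self_left]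
        have e3 : ∑ v ∈ rpts (tlo G T hm) X z u ∩ CP G Z T S y, nd G Y v = 0 := by
          refine sum_eq_zero fun v hv => ?_
          obtain ⟨hv1, hv2⟩ := mem_inter.1 hv
          unfold nd
          rw [card_eq_zero, filter_eq_empty_iff]
          intro w hw hvw
          have hvY : v ≠ w := fun e5 => disjoint_left.1 hYK hw
            (mem_biUnion.2 ⟨u, hu, e5 ▸ hv1⟩)
          have e6 := hC.CP_clq hF hy v hv2 w (hY hw) hvY
          exact hvw.2 e6
        rw [e3, add_zero]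
        refine sum_le_sum fun v _ => ?_
        unfold nd
        exact card_le_card (filter_subset_filter _ hY)
      have e3 := e2.trans (Fam.nd_own h hy huy hX)
      exact_mod_cast e3
    · rw [if_neg huy]
      exact e1
  rw [← hWd] at h1 hsv
  set w : ℤ := (W.card : ℤ) with hw
  set v : ℤ := ∑ u ∈ K, (ikp (tlo G T hm) z u : ℤ) with hv
  have h5 : 0 ≤ (2 * v - w) * (2 * (((S z).card : ℤ) - r + 1) + 2 * v + w - 1) := by
    rcases K.eq_empty_or_nonempty with hK0 | hK0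
    · have e1 : w = 0 := by
        rw [hw, hWd, hK0]
        simp
      have e2 : v = 0 := by
        rw [hv, hK0]
        simp
      rw [e1, e2]
      simp
    · have e1 : (1 : ℤ) ≤ K.card := by exact_mod_cast card_pos.2 hK0
      exact mul_nonneg (by linarith) (by linarith)
  nlinarith

end RowA

section RowAW

variable {V : Type*} {G : SimpleGraph V} {Z T : Finset V} {hm : V → V} {r m n p : ℕ}
  {B : V → Finset (V × V)} {Ps : V → Finset (Finset V)}

variable (G Z T hm B Ps) in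
/-- the used points of the items `K` at the row `x` -/
noncomputable def upt (K : Finset (Itm V)) (x : V) : Finset V :=
  (K.filter fun u => ikp (tlo G T hm) x u ≠ 0).biUnion
    (rpts (tlo G T hm) (fun Q => one1 (oth (tlo G T hm) x Q)) x)

variable (G Z T hm r B Ps) in
/-- **the row test with partial columns over the basic integers**: `b` columns of `y`, each with `a` more
neighbours in the class of `x`, saving `sv` -/
def RowAI (K : Finset (Itm V)) (x y : V) (a b sv : ℤ) : Prop :=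
  2 * ((r : ℤ) - 1) * sI hm r Z x
      + 2 * ∑ u ∈ K, ((ikp (tlo G T hm) x u : ℤ) * ((r : ℤ) - 1 - tI G Z T hm r Z x)
          - rmr G (cz G Z T hm) (tlo G T hm) x u)
      + 2 * ∑ u ∈ pkf (B x) (Ps x), (b * ikp (tlo G T hm) y u
          - min b (ims G (cz G Z T hm) (tlo G T hm) y u : ℤ))
      + 2 * (a * b) + sv
      ≤ 2 * eI G hm Z x
        + 2 * (2 * (∑ u ∈ K, (ikp (tlo G T hm) x u : ℤ)) + b) * (sI hm r Z x + 1)
        + 2 * (∑ u ∈ K, (ikp (tlo G T hm) x u : ℤ))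
          * (2 * (∑ u ∈ K, (ikp (tlo G T hm) x u : ℤ)) - 1)
        + 2 * ∑ u ∈ K, (if u ∈ pkf (B y) (Ps y)
            then min (iar G (cz G Z T hm y) u : ℤ) (2 * b * ikp (tlo G T hm) x u)
            else 2 * b * ikp (tlo G T hm) x u)

/-- **(RA)** for a completely joined pair `X1`, `Y1` of sets of class points -/
theorem WCoreK.rowA (h : WCoreK G Z T r m n p hm)
    (hpk : ∀ x ∈ T, Pk G (cz G Z T hm x) (hz G Z T hm x) (tlo G T hm) (B x) (Ps x))
    {x y : V} (hx : x ∈ T) (hy : y ∈ T) (hxy : x ≠ y) {K : Finset (Itm V)}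
    (hK : K ⊆ (T.erase x).biUnion fun x => pkf (B x) (Ps x))
    (h0 : 0 ≤ sI hm r Z x + 1 + ∑ u ∈ K, (ikp (tlo G T hm) x u : ℤ))
    {X1 Y1 : Finset V} (hX1 : X1 ⊆ cz G Z T hm x)
    (hX2 : ∀ e ∈ pcs (tlo G T hm) (B x) y, e.2 ∉ X1) (hY1 : Y1 ⊆ cz G Z T hm y)
    (hY2 : Disjoint Y1 (upt G T hm K x)) (hXY : ∀ a ∈ X1, ∀ c ∈ Y1, G.Adj a c) {sv : ℤ}
    (hsv : (NE G (upt G T hm K x) : ℤ) + sv + (upt G T hm K x).card
      ≤ ((upt G T hm K x).card : ℤ) * (upt G T hm K x).card) :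
    RowAI G Z T hm r B Ps K x y X1.card Y1.card sv := by
  have hF := h.F.toPFrame
  have hfam : ∀ x ∈ T, Fam (co G) (cz G Z T hm) (hz G Z T hm) (tlo G T hm) x
      (pkf (B x) (Ps x)) := fun x hx => (hpk x hx).fam (h.csys.dCH hx hx).symm
  have hpcz : pcz (tlo G T hm) y (pkf (B x) (Ps x)) = pcs (tlo G T hm) (B x) y := by
    ext e
    rw [mem_pcz, inr_mem_pkf, mem_pcs]
  obtain ⟨K0, hK0⟩ : ∃ K0, K0 = K.filter fun u => ikp (tlo G T hm) x u ≠ 0 := ⟨_, rfl⟩
  have hK0s : K0 ⊆ (T.erase x).biUnion fun x => pkf (B x) (Ps x) := by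
    rw [hK0]
    exact (filter_subset _ _).trans hK
  have hk0 : ∀ u ∈ K0, ikp (tlo G T hm) x u ≠ 0 := by
    intro u hu
    rw [hK0] at hu
    exact (mem_filter.1 hu).2
  have hz0 : ∀ u ∈ K, ikp (tlo G T hm) x u = 0 → rmr G (cz G Z T hm) (tlo G T hm) x u = 0 := by
    intro u _ hu
    have h1 := rcl_card_le (G := G) (C := cz G Z T hm) (tl := tlo G T hm)
      (X := fun Q => one1 (oth (tlo G T hm) x Q)) (z := x) (u := u)
    rw [hu, Nat.zero_mul] at h1
    exact Nat.le_zero.1 h1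
  have hct : ((cz G Z T hm x).card : ℤ) = (r : ℤ) - 1 - tI G Z T hm r Z x := by
    unfold tI
    ring
  have e1 : ∑ u ∈ K, ((ikp (tlo G T hm) x u : ℤ) * ((r : ℤ) - 1 - tI G Z T hm r Z x)
        - rmr G (cz G Z T hm) (tlo G T hm) x u)
      = ∑ u ∈ K0, (((cz G Z T hm x).card : ℤ) * ikp (tlo G T hm) x u
          - (rcl G (cz G Z T hm) (tlo G T hm)
            (fun Q => one1 (oth (tlo G T hm) x Q)) x u).card) := by
    rw [hK0, sum_filter]
    refine sum_congr rfl fun u hu => ?_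
    by_cases h1 : ikp (tlo G T hm) x u = 0
    · rw [hz0 u hu h1, h1]
      simp
    · simp only [ne_eq, h1, not_false_iff, if_true]
      rw [← hct]
      unfold rmr
      ring
  have e2 : ∑ u ∈ K, (ikp (tlo G T hm) x u : ℤ) = ∑ u ∈ K0, (ikp (tlo G T hm) x u : ℤ) := by
    rw [hK0, sum_filter]
    refine sum_congr rfl fun u _ => ?_
    by_cases h1 : ikp (tlo G T hm) x u = 0
    · rw [h1]
      simp
    · simp only [ne_eq, h1, not_false_iff, if_true]
  have e3 : ∑ u ∈ K0, (if u ∈ pkf (B y) (Ps y)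
        then min (iar G (cz G Z T hm y) u : ℤ) (2 * Y1.card * ikp (tlo G T hm) x u)
        else 2 * Y1.card * ikp (tlo G T hm) x u)
      ≤ ∑ u ∈ K, (if u ∈ pkf (B y) (Ps y)
        then min (iar G (cz G Z T hm y) u : ℤ) (2 * Y1.card * ikp (tlo G T hm) x u)
        else 2 * Y1.card * ikp (tlo G T hm) x u) := by
    refine sum_le_sum_of_subset_of_nonneg (by rw [hK0]; exact filter_subset _ _) fun u _ _ => ?_
    split_ifs
    · exact le_min (Nat.cast_nonneg _) (by positivity)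
    · positivity
  have hu : upt G T hm K x
      = K0.biUnion (rpts (tlo G T hm) (fun Q => one1 (oth (tlo G T hm) x Q)) x) := by
    rw [hK0]
    rfl
  rw [hu] at hY2 hsv
  have h1 := Fam.rowA_K hF h.gp.P h.csys h.wsysT hfam hx hy hxy hK0s hk0
    (X := fun Q => one1 (oth (tlo G T hm) x Q)) (fun Q => one1_sub _) (fun Q => card_one1 _)
    (by
      rw [← e2]
      show 0 ≤ sI hm r Z x + 1 + _
      exact h0)
    hY1 hY2 hX1 (fun e he => hX2 e (hpcz ▸ he)) (fun c hc a ha => (hXY a ha c hc).symm) hsv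
  have e4 : ∑ u ∈ pkf (B x) (Ps x), ((Y1.card : ℤ) * ikp (tlo G T hm) y u
        - min (Y1.card : ℤ) (ims G (cz G Z T hm) (tlo G T hm) y u : ℤ))
      ≤ ∑ u ∈ pkf (B x) (Ps x), ((Y1.card : ℤ) * ikp (tlo G T hm) y u
          - (Y1 ∩ icl G (cz G Z T hm) (tlo G T hm) y u).card) := by
    refine sum_le_sum fun u _ => ?_
    have h2 : ((Y1 ∩ icl G (cz G Z T hm) (tlo G T hm) y u).card : ℤ) ≤ Y1.card := by
      exact_mod_cast card_le_card inter_subset_left
    have h3 : ((Y1 ∩ icl G (cz G Z T hm) (tlo G T hm) y u).card : ℤ)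
        ≤ (ims G (cz G Z T hm) (tlo G T hm) y u : ℤ) := by
      exact_mod_cast card_le_card inter_subset_right
    have := le_min h2 h3
    linarith
  have h5 := two_eI (G := G) (hm := hm) Z x
  have h6 : (((Z.filter fun v => hm v = x).card : ℤ) - r) = sI hm r Z x := rfl
  have e7 : CP G Z T (fun x => Z.filter fun v => hm v = x) = cz G Z T hm := rfl
  rw [h6, ← h5, e7] at h1
  unfold RowAI
  rw [e1, e2]
  have e8 : ((X1.card : ℤ) * Y1.card) = Y1.card * X1.card := mul_comm _ _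
  rw [e8]
  linarith

/-- no saving -/
lemma upt_zero (K : Finset (Itm V)) (x : V) :
    (NE G (upt G T hm K x) : ℤ) + 0 + (upt G T hm K x).card
      ≤ ((upt G T hm K x).card : ℤ) * (upt G T hm K x).card := by
  have h1 := NE_grp_le (G := G) (K := {()}) (P := fun _ => upt G T hm K x)
    (fun u _ v _ huv => absurd (Subsingleton.elim u v) huv) (D := ∅)
    (fun e he => absurd he (notMem_empty _))
  rw [singleton_biUnion, card_empty] at h1
  have h2 : ((NE G (upt G T hm K x) + 0 + (upt G T hm K x).card : ℕ) : ℤ)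
      ≤ (((upt G T hm K x).card * (upt G T hm K x).card : ℕ) : ℤ) := by exact_mod_cast h1
  push_cast at h2
  exact h2

/-- the used class points of `y` -/
lemma WCoreK.upt_cols (h : WCoreK G Z T r m n p hm)
    (hpk : ∀ x ∈ T, Pk G (cz G Z T hm x) (hz G Z T hm x) (tlo G T hm) (B x) (Ps x))
    {x y : V} (hy : y ∈ T) {K : Finset (Itm V)}
    (hK : K ⊆ (T.erase x).biUnion fun x => pkf (B x) (Ps x)) :
    ((cz G Z T hm y ∩ upt G T hm K x).card : ℤ)
      ≤ ∑ u ∈ K, (if u ∈ pkf (B y) (Ps y) then (ipc u : ℤ) * ikp (tlo G T hm) x u else 0) := by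
  have hfam : ∀ x ∈ T, Fam (co G) (cz G Z T hm) (hz G Z T hm) (tlo G T hm) x
      (pkf (B x) (Ps x)) := fun x hx => (hpk x hx).fam (h.csys.dCH hx hx).symm
  have h1 := Fam.card_colpts h.wsysT hfam hy
    (K := K.filter fun u => ikp (tlo G T hm) x u ≠ 0) ((filter_subset _ _).trans hK)
    (fun u hu => (mem_filter.1 hu).2)
    (X := fun Q => one1 (oth (tlo G T hm) x Q)) (fun Q => one1_sub _)
  refine h1.trans ?_
  refine le_trans (sum_le_sum (g := fun u => if u ∈ pkf (B y) (Ps y) then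
    (ipc u : ℤ) * ikp (tlo G T hm) x u else 0) fun u hu => ?_)
    (sum_le_sum_of_subset_of_nonneg (filter_subset _ _) fun u _ _ => ?_)
  · split_ifs
    · have h3 : 1 ≤ ikp (tlo G T hm) x u := Nat.one_le_iff_ne_zero.2 (mem_filter.1 hu).2
      have h4 : (1 : ℤ) ≤ ikp (tlo G T hm) x u := by exact_mod_cast h3
      have h5 : (0 : ℤ) ≤ ipc u := Nat.cast_nonneg _
      nlinarith
    · exact le_rfl
  · split_ifs
    · exact mul_nonneg (Nat.cast_nonneg _) (Nat.cast_nonneg _)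
    · exact le_rfl

/-- **(RA) with smaller sides**: `a ≤ |X1|`, `b` at most `|Y1|` without the used class points -/
theorem WCoreK.rowA_num (h : WCoreK G Z T r m n p hm)
    (hpk : ∀ x ∈ T, Pk G (cz G Z T hm x) (hz G Z T hm x) (tlo G T hm) (B x) (Ps x))
    {x y : V} (hx : x ∈ T) (hy : y ∈ T) (hxy : x ≠ y) {K : Finset (Itm V)}
    (hK : K ⊆ (T.erase x).biUnion fun x => pkf (B x) (Ps x))
    (h0 : 0 ≤ sI hm r Z x + 1 + ∑ u ∈ K, (ikp (tlo G T hm) x u : ℤ))
    {X1 Y1 : Finset V} (hX1 : X1 ⊆ cz G Z T hm x)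
    (hX2 : ∀ e ∈ pcs (tlo G T hm) (B x) y, e.2 ∉ X1) (hY1 : Y1 ⊆ cz G Z T hm y)
    (hXY : ∀ a ∈ X1, ∀ c ∈ Y1, G.Adj a c) {sv : ℤ}
    (hsv : (NE G (upt G T hm K x) : ℤ) + sv + (upt G T hm K x).card
      ≤ ((upt G T hm K x).card : ℤ) * (upt G T hm K x).card)
    {a b : ℕ} (ha : a ≤ X1.card) (hb : b ≤ (Y1 \ upt G T hm K x).card) :
    RowAI G Z T hm r B Ps K x y a b sv := by
  obtain ⟨X2, h1, h2⟩ := exists_subset_card_eq ha
  obtain ⟨Y2, h3, h4⟩ := exists_subset_card_eq hb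
  have h5 := h.rowA hpk hx hy hxy hK h0 (h1.trans hX1) (fun e he h6 => hX2 e he (h1 h6))
    ((h3.trans sdiff_subset).trans hY1)
    (disjoint_left.2 fun v hv hv' => (mem_sdiff.1 (h3 hv)).2 hv')
    (fun a ha c hc => hXY a (h1 ha) c (mem_sdiff.1 (h3 hc)).1) hsv
  rw [h2, h4] at h5
  exact h5

/-- **(RA) with the missed class points of any item `w`** -/
theorem WCoreK.rowA_itm (h : WCoreK G Z T r m n p hm)
    (hpk : ∀ x ∈ T, Pk G (cz G Z T hm x) (hz G Z T hm x) (tlo G T hm) (B x) (Ps x))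
    {x y : V} (hx : x ∈ T) (hy : y ∈ T) (hxy : x ≠ y) {K : Finset (Itm V)}
    (hK : K ⊆ (T.erase x).biUnion fun x => pkf (B x) (Ps x))
    (h0 : 0 ≤ sI hm r Z x + 1 + ∑ u ∈ K, (ikp (tlo G T hm) x u : ℤ)) {w : Itm V} {x' : V}
    (hx' : x' ∈ T) (hw : w ∈ pkf (B x') (Ps x')) {sv : ℤ}
    (hsv : (NE G (upt G T hm K x) : ℤ) + sv + (upt G T hm K x).card
      ≤ ((upt G T hm K x).card : ℤ) * (upt G T hm K x).card)
    {a b : ℕ} (ha : (a : ℤ) ≤ (ims G (cz G Z T hm) (tlo G T hm) x w : ℤ)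
      - pcn (tlo G T hm) B x y)
    (hb : (b : ℤ) ≤ (ims G (cz G Z T hm) (tlo G T hm) y w : ℤ)
      - ∑ u ∈ K, (if u ∈ pkf (B y) (Ps y) then (ipc u : ℤ) * ikp (tlo G T hm) x u else 0)) :
    RowAI G Z T hm r B Ps K x y a b sv := by
  have hfam : ∀ x ∈ T, Fam (co G) (cz G Z T hm) (hz G Z T hm) (tlo G T hm) x
      (pkf (B x) (Ps x)) := fun x hx => (hpk x hx).fam (h.csys.dCH hx hx).symm
  have a1 := card_sdiff_ge (icl G (cz G Z T hm) (tlo G T hm) x w)
    ((pcs (tlo G T hm) (B x) y).image Prod.snd) (q := pcn (tlo G T hm) B x y) (by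
      unfold pcn
      exact_mod_cast card_image_le)
  have h3 : icl G (cz G Z T hm) (tlo G T hm) y w \ upt G T hm K x
      = icl G (cz G Z T hm) (tlo G T hm) y w \ (cz G Z T hm y ∩ upt G T hm K x) := by
    ext a
    rw [mem_sdiff, mem_sdiff, mem_inter]
    constructor
    · rintro ⟨h4, h5⟩
      exact ⟨h4, fun h6 => h5 h6.2⟩
    · rintro ⟨h4, h5⟩
      exact ⟨h4, fun h6 => h5 ⟨rcl_sub h4, h6⟩⟩
  have a2 := card_sdiff_ge (icl G (cz G Z T hm) (tlo G T hm) y w)
    (cz G Z T hm y ∩ upt G T hm K x) (h.upt_cols hpk hy hK)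
  rw [← h3] at a2
  refine h.rowA_num hpk hx hy hxy hK h0
    (X1 := icl G (cz G Z T hm) (tlo G T hm) x w \ (pcs (tlo G T hm) (B x) y).image Prod.snd)
    (Y1 := icl G (cz G Z T hm) (tlo G T hm) y w)
    (fun a ha => rcl_sub (mem_sdiff.1 ha).1)
    (fun e he h3 => (mem_sdiff.1 h3).2 (mem_image_of_mem _ he)) rcl_sub
    (fun a ha c hc => (hfam x' hx').icl_complete h.wsysT hx' hx hy hxy hw a (mem_sdiff.1 ha).1
      c hc) hsv ?_ ?_
  · have : (a : ℤ) ≤ _ := ha.trans ((le_max_right _ _).trans a1)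
    exact_mod_cast this
  · have : (b : ℤ) ≤ _ := hb.trans ((le_max_right _ _).trans a2)
    exact_mod_cast this

/-- **(RA) with an N-type of the host `x` with tail `y`**: its free arcs, its missed points at the tail -/
theorem WCoreK.rowA_home (hp : 2 * r ≤ p) (h : WCoreK G Z T r m n p hm)
    (hpk : ∀ x ∈ T, Pk G (cz G Z T hm x) (hz G Z T hm x) (tlo G T hm) (B x) (Ps x))
    (hmin : ∀ x ∈ T, ∀ B' Ps', Pk G (cz G Z T hm x) (hz G Z T hm x) (tlo G T hm) B' Ps' →
      (Ps x).card ≤ Ps'.card)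
    {x y : V} (hx : x ∈ T) (hy : y ∈ T) (hxy : x ≠ y) {K : Finset (Itm V)}
    (hK : K ⊆ (T.erase x).biUnion fun x => pkf (B x) (Ps x))
    (h0 : 0 ≤ sI hm r Z x + 1 + ∑ u ∈ K, (ikp (tlo G T hm) x u : ℤ)) {w : Itm V}
    (hw : w ∈ pkf (B x) (Ps x)) (hw1 : ivl w = 1) (hwk : ikp (tlo G T hm) y w ≠ 0) {sv : ℤ}
    (hsv : (NE G (upt G T hm K x) : ℤ) + sv + (upt G T hm K x).card
      ≤ ((upt G T hm K x).card : ℤ) * (upt G T hm K x).card)
    {a b : ℕ} (ha : (a : ℤ) ≤ nui G (cz G Z T hm x) (tlo G T hm) (B x) y w)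
    (hb : (b : ℤ) ≤ (nui G (cz G Z T hm x) (tlo G T hm) (B x) y w : ℤ) + ipc w
      - ∑ u ∈ K, (if u ∈ pkf (B y) (Ps y) then (ipc u : ℤ) * ikp (tlo G T hm) x u else 0)) :
    RowAI G Z T hm r B Ps K x y a b sv := by
  have hF := h.F.toPFrame
  obtain ⟨v, hv, hvH, hvy, hnu, h3⟩ := h.rep hx (hpk x hx) (hmin x hx) hw hw1 hwk
  have hcell := h.csys.cellD hF hx hy hxy
  have hvD := h.csys.mem_Dbl_of_tlo h.hh hx hvH hvy
  have h4 : ((nui G (cz G Z T hm x) (tlo G T hm) (B x) y w : ℤ) + ipc w)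
      ≤ ((msd G (cz G Z T hm y) v).card : ℤ) := by
    have := h3.trans (h.msd_le hp hx hvH hvy)
    exact_mod_cast this
  have h5 : msd G (cz G Z T hm y) v \ upt G T hm K x
      = msd G (cz G Z T hm y) v \ (cz G Z T hm y ∩ upt G T hm K x) := by
    ext a
    rw [mem_sdiff, mem_sdiff, mem_inter]
    constructor
    · rintro ⟨h4, h5⟩
      exact ⟨h4, fun h6 => h5 h6.2⟩
    · rintro ⟨h4, h5⟩
      exact ⟨h4, fun h6 => h5 ⟨((h.mem_msd hx hy hvH).1 h4).1, h6⟩⟩
  have a2 := card_sdiff_ge (msd G (cz G Z T hm y) v)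
    (cz G Z T hm y ∩ upt G T hm K x) (h.upt_cols hpk hy hK)
  rw [← h5] at a2
  refine h.rowA_num hpk hx hy hxy hK h0
    (X1 := frC G (cz G Z T hm x) (tlo G T hm) (B x) v) (Y1 := msd G (cz G Z T hm y) v)
    (fun a ha => (mem_frC.1 ha).1)
    (fun e he h6 => ?_) (fun a ha => ((h.mem_msd hx hy hvH).1 ha).1)
    (fun a ha c hc => ?_) hsv ?_ ?_
  · obtain ⟨h7, h8⟩ := mem_pcs.1 he
    exact (mem_frC.1 h6).2.2 e h7 rfl (h8.trans hvy.symm)
  · obtain ⟨a1, a2, -⟩ := mem_frC.1 ha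
    obtain ⟨a3, a4⟩ := (h.mem_msd hx hy hvH).1 hc
    exact hcell.rect v hvD a a1 c a3 a2 a4
  · rw [hnu] at ha
    exact_mod_cast ha
  · have h7 : (b : ℤ) ≤ ((msd G (cz G Z T hm y) v).card : ℤ)
        - ∑ u ∈ K, (if u ∈ pkf (B y) (Ps y) then (ipc u : ℤ) * ikp (tlo G T hm) x u else 0) := by
      linarith
    have : (b : ℤ) ≤ _ := h7.trans ((le_max_right _ _).trans a2)
    exact_mod_cast this

/-- **(RA) with an N-type of the host `y` with tail `x`**: its free arcs are the columns -/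
theorem WCoreK.rowA_tail (hp : 2 * r ≤ p) (h : WCoreK G Z T r m n p hm)
    (hpk : ∀ x ∈ T, Pk G (cz G Z T hm x) (hz G Z T hm x) (tlo G T hm) (B x) (Ps x))
    (hmin : ∀ x ∈ T, ∀ B' Ps', Pk G (cz G Z T hm x) (hz G Z T hm x) (tlo G T hm) B' Ps' →
      (Ps x).card ≤ Ps'.card)
    {x y : V} (hx : x ∈ T) (hy : y ∈ T) (hxy : x ≠ y) {K : Finset (Itm V)}
    (hK : K ⊆ (T.erase x).biUnion fun x => pkf (B x) (Ps x))
    (h0 : 0 ≤ sI hm r Z x + 1 + ∑ u ∈ K, (ikp (tlo G T hm) x u : ℤ)) {w : Itm V}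
    (hw : w ∈ pkf (B y) (Ps y)) (hw1 : ivl w = 1) (hwk : ikp (tlo G T hm) x w ≠ 0) {sv : ℤ}
    (hsv : (NE G (upt G T hm K x) : ℤ) + sv + (upt G T hm K x).card
      ≤ ((upt G T hm K x).card : ℤ) * (upt G T hm K x).card)
    {a b : ℕ} (ha : (a : ℤ) ≤ (nui G (cz G Z T hm y) (tlo G T hm) (B y) x w : ℤ) + ipc w
      - pcn (tlo G T hm) B x y)
    (hb : (b : ℤ) ≤ nui G (cz G Z T hm y) (tlo G T hm) (B y) x w) :
    RowAI G Z T hm r B Ps K x y a b sv := by
  have hF := h.F.toPFrame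
  have hfam : ∀ x ∈ T, Fam (co G) (cz G Z T hm) (hz G Z T hm) (tlo G T hm) x
      (pkf (B x) (Ps x)) := fun x hx => (hpk x hx).fam (h.csys.dCH hx hx).symm
  obtain ⟨v, hv, hvH, hvx, hnu, h3⟩ := h.rep hy (hpk y hy) (hmin y hy) hw hw1 hwk
  have hcell := h.csys.cellD hF hy hx hxy.symm
  have hvD := h.csys.mem_Dbl_of_tlo h.hh hy hvH hvx
  have c1 : frC G (cz G Z T hm y) (tlo G T hm) (B y) v \ upt G T hm K x
      = frC G (cz G Z T hm y) (tlo G T hm) (B y) v := by
    refine sdiff_eq_self_of_disjoint (disjoint_left.2 fun a ha h4 => ?_)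
    obtain ⟨a1, a2, a3⟩ := mem_frC.1 ha
    obtain ⟨u, hu, h7⟩ := mem_biUnion.1 h4
    obtain ⟨hu1, hu2⟩ := mem_filter.1 hu
    obtain ⟨x', hx', hux'⟩ := mem_biUnion.1 (hK hu1)
    obtain ⟨e, rfl, h8, h9, h10⟩ := Fam.cls_pt h.wsysT hfam (mem_of_mem_erase hx') hy hux'
      hu2 (fun Q => one1_sub _) h7 a1
    exact a3 e (inr_mem_pkf.1 (h10 ▸ hux')) h8 (h9.trans hvx.symm)
  have a1 := card_sdiff_ge (msd G (cz G Z T hm x) v)
    ((pcs (tlo G T hm) (B x) y).image Prod.snd) (q := pcn (tlo G T hm) B x y) (by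
      unfold pcn
      exact_mod_cast card_image_le)
  have a2 : ((nui G (cz G Z T hm y) (tlo G T hm) (B y) x w : ℤ) + ipc w)
      ≤ ((msd G (cz G Z T hm x) v).card : ℤ) := by
    have := h3.trans (h.msd_le hp hy hvH hvx)
    exact_mod_cast this
  refine h.rowA_num hpk hx hy hxy hK h0
    (X1 := msd G (cz G Z T hm x) v \ (pcs (tlo G T hm) (B x) y).image Prod.snd)
    (Y1 := frC G (cz G Z T hm y) (tlo G T hm) (B y) v)
    (fun a ha => ((h.mem_msd hy hx hvH).1 (mem_sdiff.1 ha).1).1)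
    (fun e he h4 => (mem_sdiff.1 h4).2 (mem_image_of_mem _ he))
    (fun a ha => (mem_frC.1 ha).1) (fun a ha c hc => ?_) hsv ?_ ?_
  · obtain ⟨a1, a2⟩ := (h.mem_msd hy hx hvH).1 (mem_sdiff.1 ha).1
    obtain ⟨a3, a4, -⟩ := mem_frC.1 hc
    exact (hcell.rect v hvD c a3 a a1 a4 a2).symm
  · have h7 : (a : ℤ) ≤ ((msd G (cz G Z T hm x) v).card : ℤ) - pcn (tlo G T hm) B x y := by
      linarith
    have : (a : ℤ) ≤ _ := h7.trans ((le_max_right _ _).trans a1)
    exact_mod_cast this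
  · rw [c1]
    rw [hnu] at hb
    exact_mod_cast hb

end RowAW

end Pool.Agent.Lib.MP_f04ccf_co
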