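import Pool.Agent.Lib.MP_f04ccf_co.M.PayH

/-!
MP_f04ccf_co: the passage of helper92's row test with columns to the basic integers with an arbitrary extra
term `EX` on the left (`RowE`); `Fam.rowE_of`: `Fam.row_colE` in this form.
`Fam.row_colC_of`, `Fam.rowcI_of` are the proofs of `Fam.row_colC`, `Fam.rowcI` in `M/RowCol.lean` (helper92)
with the term `EX` carried along.
-/

set_option autoImplicit false

namespace Pool.Agent.Lib.MP_f04ccf_co

open Finset

attribute [local instance] Classical.propDecidable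

section RowCG

variable {V : Type*} {G : SimpleGraph V} {Z T : Finset V} {hm : V → V} {r m t : ℕ}
  {A : Finset V} {S : V → Finset V} {U : V → Finset (Itm V)}

variable (G Z T hm S U r) in
/-- the row test of `z` with the points of the items `K` and the columns of `y`, with the extra term `EX` on
the left -/
def RowE (K : Finset (Itm V)) (X : Finset V → Finset V) (z y : V) (EX : ℤ) : Prop :=
  2 * ((r : ℤ) - 1) * (((S z).card : ℤ) - r)
      + 2 * ∑ u ∈ K, (((CP G Z T S z).card : ℤ) * ikp (tlo G T hm) z u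
          - (rcl G (CP G Z T S) (tlo G T hm) X z u).card)
      + 2 * ∑ u ∈ U z, (((CP G Z T S y).card : ℤ) * ikp (tlo G T hm) y u
          - (CP G Z T S y ∩ icl G (CP G Z T S) (tlo G T hm) y u).card)
      + EX
      ≤ NE G (S z)
        + 2 * ((K.biUnion (rpts (tlo G T hm) X z) \ CP G Z T S y).card + (CP G Z T S y).card : ℤ)
          * (((S z).card : ℤ) - r + 1)
        + ((K.biUnion (rpts (tlo G T hm) X z) \ CP G Z T S y).card : ℤ)
          * ((K.biUnion (rpts (tlo G T hm) X z) \ CP G Z T S y).card - 1)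
        + 2 * ∑ v ∈ K.biUnion (rpts (tlo G T hm) X z) \ CP G Z T S y, (nd G (CP G Z T S y) v : ℤ)
        + 2 * ((CP G Z T S y ∩ K.biUnion (rpts (tlo G T hm) X z)).card : ℤ)
          * (pcz (tlo G T hm) y (U z)).card

/-- `Fam.row_colE` in the form `RowE` -/
theorem Fam.rowE_of (hF : PFrame G r m t Z T) (hP : PG G r) (hC : CSys G Z T hm A S)
    (hW : WSysT G (co G) A (CP G Z T S) (HP G Z T S) (tlo G T hm))
    (h : ∀ x ∈ A, Fam (co G) (CP G Z T S) (HP G Z T S) (tlo G T hm) x (U x))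
    {z y : V} (hz : z ∈ A) (hy : y ∈ A) (hzy : z ≠ y) {K : Finset (Itm V)}
    (hK : K ⊆ (A.erase z).biUnion U) (hk : ∀ u ∈ K, ikp (tlo G T hm) z u ≠ 0)
    {X : Finset V → Finset V} (hX : ∀ Q, X Q ⊆ oth (tlo G T hm) z Q)
    {F : Finset V} (hF1 : F ⊆ CP G Z T S z) (hF2 : ∀ e ∈ pcz (tlo G T hm) y (U z), e.2 ∉ F) :
    RowE G Z T hm r S U K X z y
      (2 * ∑ c ∈ CP G Z T S y \ K.biUnion (rpts (tlo G T hm) X z), (dg G F c : ℤ)
        + 2 * ∑ v ∈ K.biUnion (rpts (tlo G T hm) X z) \ CP G Z T S y,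
          (dg G (HP G Z T S z) v : ℤ)) := by
  have h1 := Fam.row_colE hF hP hC hW h hz hy hzy hK hk hX (Y := CP G Z T S y) subset_rfl hF1 hF2
  unfold RowE
  linarith

/-- **(ROWC) with all columns of `y` and an extra term**: `κ` the load of the items at `z`, `κ'` the load of the items of
hosts `≠ y`, `q` the PC pairs of the host `y` among them, `q'` the PC pairs of the host `z` with tail `y` -/
theorem Fam.row_colC_of (hC : CSys G Z T hm A S)
    (hW : WSysT G (co G) A (CP G Z T S) (HP G Z T S) (tlo G T hm))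
    (h : ∀ x ∈ A, Fam (co G) (CP G Z T S) (HP G Z T S) (tlo G T hm) x (U x))
    {z y : V} (hz : z ∈ A) (hy : y ∈ A) (hzy : z ≠ y) {K : Finset (Itm V)}
    (hK : K ⊆ (A.erase z).biUnion U) (hk : ∀ u ∈ K, ikp (tlo G T hm) z u ≠ 0)
    {X : Finset V → Finset V} (hX : ∀ Q, X Q ⊆ oth (tlo G T hm) z Q) (hX1 : ∀ Q, (X Q).card ≤ 1)
    (h0 : 0 ≤ ((S z).card : ℤ) - r + ∑ u ∈ K, (ikp (tlo G T hm) z u : ℤ)) {EX : ℤ}
    (hE : RowE G Z T hm r S U K X z y EX) :
    2 * ((r : ℤ) - 1) * (((S z).card : ℤ) - r)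
      + 2 * ∑ u ∈ K, (((CP G Z T S z).card : ℤ) * ikp (tlo G T hm) z u
          - (rcl G (CP G Z T S) (tlo G T hm) X z u).card)
      + 2 * ∑ u ∈ U z, iht G (CP G Z T S) (tlo G T hm) y u + EX
      ≤ NE G (S z)
        + 2 * (∑ u ∈ K, (2 * (ikp (tlo G T hm) z u : ℤ) - if u ∈ U y then (ipc u : ℤ) else 0)
            + (CP G Z T S y).card) * (((S z).card : ℤ) - r + 1)
        + (∑ u ∈ K, (2 * (ikp (tlo G T hm) z u : ℤ) - if u ∈ U y then (ipc u : ℤ) else 0))
          * (∑ u ∈ K, (2 * (ikp (tlo G T hm) z u : ℤ) - if u ∈ U y then (ipc u : ℤ) else 0) - 1)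
        + 2 * ∑ u ∈ K, (if u ∈ U y then (iar G (CP G Z T S y) u : ℤ)
            else 2 * (CP G Z T S y).card * ikp (tlo G T hm) z u)
        + 2 * (∑ u ∈ K, (if u ∈ U y then (ipc u : ℤ) else 0))
          * (∑ u ∈ U z, (ipc u : ℤ) * ikp (tlo G T hm) y u) := by
  have h1 := hE
  unfold RowE at h1
  have hdis : ∀ u ∈ K, ∀ v ∈ K, u ≠ v → Disjoint (rpts (tlo G T hm) X z u)
      (rpts (tlo G T hm) X z v) := by
    intro u hu v hv huv
    obtain ⟨x, hx, hux⟩ := mem_biUnion.1 (hK hu)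
    obtain ⟨x', hx', hvx⟩ := mem_biUnion.1 (hK hv)
    exact (Fam.dis_row hW h (mem_of_mem_erase hx) (mem_of_mem_erase hx') hux hvx huv (hk u hu)
      (hk v hv)).mono ((h x (mem_of_mem_erase hx)).rpts_sub hX)
      ((h x' (mem_of_mem_erase hx')).rpts_sub hX)
  have hsd : K.biUnion (rpts (tlo G T hm) X z) \ CP G Z T S y
      = K.biUnion fun u => rpts (tlo G T hm) X z u \ CP G Z T S y := by
    ext v
    simp only [mem_sdiff, mem_biUnion]
    constructor
    · rintro ⟨⟨u, hu, hv⟩, hv'⟩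
      exact ⟨u, hu, hv, hv'⟩
    · rintro ⟨u, hu, hv, hv'⟩
      exact ⟨⟨u, hu, hv⟩, hv'⟩
  have hdis' : ∀ u ∈ K, ∀ v ∈ K, u ≠ v → Disjoint (rpts (tlo G T hm) X z u \ CP G Z T S y)
      (rpts (tlo G T hm) X z v \ CP G Z T S y) := fun u hu v hv huv =>
    (hdis u hu v hv huv).mono sdiff_subset sdiff_subset
  -- the host of an item
  have hown : ∀ u ∈ K, ∃ x ∈ A, u ∈ U x ∧ (x = y ↔ u ∈ U y) := by
    intro u hu
    obtain ⟨x, hx, hux⟩ := mem_biUnion.1 (hK hu)
    refine ⟨x, mem_of_mem_erase hx, hux, fun h2 => h2 ▸ hux, fun huy => ?_⟩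
    by_contra hxy
    obtain ⟨v, hv⟩ := (h y hy).imem_ne huy
    exact disjoint_left.1 (hC.dHP (mem_of_mem_erase hx) hy hxy)
      ((h x (mem_of_mem_erase hx)).imem_sub hux hv) ((h y hy).imem_sub huy hv)
  have hw1 : ∀ u ∈ K, ((rpts (tlo G T hm) X z u \ CP G Z T S y).card : ℤ)
      ≤ 2 * (ikp (tlo G T hm) z u : ℤ) - if u ∈ U y then (ipc u : ℤ) else 0 := by
    intro u hu
    obtain ⟨x, hx, hux, hxy⟩ := hown u hu
    have h2 := Fam.rpts_out (y := y) h hx hux (hk u hu) hX hX1
    by_cases h3 : u ∈ U y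
    · rw [if_pos (hxy.2 h3)] at h2
      rw [if_pos h3]
      have : ((rpts (tlo G T hm) X z u \ CP G Z T S y).card : ℤ) + ipc u
        ≤ 2 * (ikp (tlo G T hm) z u : ℤ) := by exact_mod_cast h2
      linarith
    · rw [if_neg fun h4 => h3 (hxy.1 h4)] at h2
      rw [if_neg h3]
      have : ((rpts (tlo G T hm) X z u \ CP G Z T S y).card : ℤ)
        ≤ 2 * (ikp (tlo G T hm) z u : ℤ) := by exact_mod_cast h2
      linarith
  have hpc1 : ∀ u ∈ K, ∀ e, u = Sum.inr e → ikp (tlo G T hm) z u = 1 := by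
    rintro u hu e rfl
    by_cases h4 : tlo G T hm e.1 = z
    · simp only [ikp, h4, if_true]
    · exact absurd (by simp only [ikp, h4, if_false]) (hk _ hu)
  have hw2 : ∀ u ∈ K, 1 ≤ (rpts (tlo G T hm) X z u \ CP G Z T S y).card := by
    intro u hu
    obtain ⟨x, hx, hux, hxy⟩ := hown u hu
    have hf := h x hx
    rcases u with Q | e
    · have h2 : (tlp (tlo G T hm) Q z).Nonempty := by
        rw [nonempty_iff_ne_empty]
        intro h3
        have h4 := hf.two Q hux
        have h5 : tlp (tlo G T hm) Q z ≠ Q := by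
          rw [h3]
          rintro rfl
          simp at h4
        refine hk _ hu ?_
        have h6 : ikp (tlo G T hm) z (Sum.inl Q) = (tlp (tlo G T hm) Q z).card := by
          simp only [ikp, h5, if_false]
        rw [h6, h3, card_empty]
      obtain ⟨v, hv⟩ := h2
      refine card_pos.2 ⟨v, mem_sdiff.2 ⟨mem_union_left _ hv, fun h3 => ?_⟩⟩
      exact disjoint_left.1 (hW.dHC x hx y hy) (hf.sub Q hux (tlp_sub hv)) h3
    · refine card_pos.2 ⟨e.1, mem_sdiff.2 ⟨mem_insert_self _ _, fun h3 => ?_⟩⟩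
      exact disjoint_left.1 (hW.dHC x hx y hy) (hf.pcH e hux) h3
  have hw3 : ((K.biUnion (rpts (tlo G T hm) X z) \ CP G Z T S y).card : ℤ)
      = ∑ u ∈ K, ((rpts (tlo G T hm) X z u \ CP G Z T S y).card : ℤ) := by
    rw [hsd, card_biUnion hdis']
    push_cast
    rfl
  have hnd : ∑ v ∈ K.biUnion (rpts (tlo G T hm) X z) \ CP G Z T S y,
        (nd G (CP G Z T S y) v : ℤ)
      ≤ ∑ u ∈ K, (if u ∈ U y then (iar G (CP G Z T S y) u : ℤ)
            else 2 * (CP G Z T S y).card * ikp (tlo G T hm) z u) := by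
    rw [hsd, sum_biUnion (fun u hu v hv huv => hdis' u hu v hv huv)]
    refine sum_le_sum fun u hu => ?_
    by_cases h3 : u ∈ U y
    · rw [if_pos h3]
      have h4 := Fam.nd_own (z := z) h hy h3 hX
      exact_mod_cast h4
    · rw [if_neg h3]
      have h4 : ∑ v ∈ rpts (tlo G T hm) X z u \ CP G Z T S y, (nd G (CP G Z T S y) v : ℤ)
          ≤ ∑ v ∈ rpts (tlo G T hm) X z u \ CP G Z T S y, ((CP G Z T S y).card : ℤ) :=
        sum_le_sum fun v _ => by
          have : nd G (CP G Z T S y) v ≤ (CP G Z T S y).card := card_filter_le _ _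
          exact_mod_cast this
      rw [sum_const, nsmul_eq_mul] at h4
      have h5 := hw1 u hu
      rw [if_neg h3, sub_zero] at h5
      have h6 : (0 : ℤ) ≤ (CP G Z T S y).card := Nat.cast_nonneg _
      nlinarith
  have hq : ((CP G Z T S y ∩ K.biUnion (rpts (tlo G T hm) X z)).card : ℤ)
      ≤ ∑ u ∈ K, (if u ∈ U y then (ipc u : ℤ) else 0) := by
    have h2 : CP G Z T S y ∩ K.biUnion (rpts (tlo G T hm) X z)
        ⊆ K.biUnion fun u => CP G Z T S y ∩ rpts (tlo G T hm) X z u := by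
      intro v hv
      obtain ⟨h3, h4⟩ := mem_inter.1 hv
      obtain ⟨u, hu, h5⟩ := mem_biUnion.1 h4
      exact mem_biUnion.2 ⟨u, hu, mem_inter.2 ⟨h3, h5⟩⟩
    have h3 := (card_le_card h2).trans card_biUnion_le
    have h4 : ((CP G Z T S y ∩ K.biUnion (rpts (tlo G T hm) X z)).card : ℤ)
        ≤ ∑ u ∈ K, ((CP G Z T S y ∩ rpts (tlo G T hm) X z u).card : ℤ) := by exact_mod_cast h3
    refine h4.trans (sum_le_sum fun u hu => ?_)
    obtain ⟨x, hx, hux, hxy⟩ := hown u hu
    have hf := h x hx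
    rcases u with Q | e
    · have h5 : CP G Z T S y ∩ rpts (tlo G T hm) X z (Sum.inl Q) = ∅ := by
        rw [← disjoint_iff_inter_eq_empty, disjoint_left]
        intro v hv hv'
        exact disjoint_left.1 (hW.dHC x hx y hy) (hf.sub Q hux (hf.rpts_sub hX hv')) hv
      rw [h5]
      split_ifs <;> simp [ipc]
    · by_cases h3 : Sum.inr e ∈ U y
      · rw [if_pos h3]
        have h5 : CP G Z T S y ∩ rpts (tlo G T hm) X z (Sum.inr e) ⊆ {e.2} := by
          intro v hv
          obtain ⟨h6, h7⟩ := mem_inter.1 hv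
          simp only [rpts] at h7
          rcases mem_insert.1 h7 with h8 | h8
          · exact absurd h6 (fun h9 => disjoint_left.1 (hW.dHC x hx y hy) (hf.pcH e hux)
              (h8 ▸ h9))
          · exact h8
        have h6 := card_le_card h5
        rw [card_singleton] at h6
        simp only [ipc]
        exact_mod_cast h6
      · rw [if_neg h3]
        have h5 : CP G Z T S y ∩ rpts (tlo G T hm) X z (Sum.inr e) = ∅ := by
          rw [← disjoint_iff_inter_eq_empty, disjoint_left]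
          intro v hv hv'
          simp only [rpts] at hv'
          rcases mem_insert.1 hv' with h8 | h8
          · exact disjoint_left.1 (hW.dHC x hx y hy) (hf.pcH e hux) (h8 ▸ hv)
          · rw [mem_singleton] at h8
            have hxy' : x ≠ y := fun h9 => h3 (h9 ▸ hux)
            exact disjoint_left.1 (hW.dCC x hx y hy hxy') (hf.pcC e hux) (h8 ▸ hv)
        rw [h5]
        simp
  have hq' : ((pcz (tlo G T hm) y (U z)).card : ℤ)
      ≤ ∑ u ∈ U z, (ipc u : ℤ) * ikp (tlo G T hm) y u := by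
    have h2 : (pcz (tlo G T hm) y (U z)).card
        = ((pcz (tlo G T hm) y (U z)).image (Sum.inr : V × V → Itm V)).card :=
      (card_image_of_injective _ Sum.inr_injective).symm
    have h3 : (pcz (tlo G T hm) y (U z)).image (Sum.inr : V × V → Itm V) ⊆ U z := by
      intro u hu
      obtain ⟨e, he, rfl⟩ := mem_image.1 hu
      exact (mem_pcz.1 he).1
    rw [h2, card_eq_sum_ones]
    push_cast
    refine le_trans (sum_le_sum fun u hu => ?_)
      (sum_le_sum_of_subset_of_nonneg h3 fun u _ _ => by positivity)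
    obtain ⟨e, he, rfl⟩ := mem_image.1 hu
    have h4 := (mem_pcz.1 he).2
    simp only [ipc, ikp, h4, if_true]
    norm_num
  have hih : ∑ u ∈ U z, (((CP G Z T S y).card : ℤ) * ikp (tlo G T hm) y u
        - (CP G Z T S y ∩ icl G (CP G Z T S) (tlo G T hm) y u).card)
      = ∑ u ∈ U z, iht G (CP G Z T S) (tlo G T hm) y u := by
    refine sum_congr rfl fun u _ => ?_
    have h2 : CP G Z T S y ∩ icl G (CP G Z T S) (tlo G T hm) y u
        = icl G (CP G Z T S) (tlo G T hm) y u := inter_eq_right.2 rcl_sub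
    rw [h2]
    rfl
  rw [hih, hw3] at h1
  have hw4 := sum_le_sum hw1
  have hw5 : (K.card : ℤ) ≤ ∑ u ∈ K, ((rpts (tlo G T hm) X z u \ CP G Z T S y).card : ℤ) := by
    rw [card_eq_sum_ones]
    push_cast
    exact sum_le_sum fun u hu => by exact_mod_cast hw2 u hu
  have hqK : ∑ u ∈ K, (if u ∈ U y then (ipc u : ℤ) else 0) ≤ (K.card : ℤ) := by
    rw [card_eq_sum_ones]
    push_cast
    refine sum_le_sum fun u _ => ?_
    rcases u with Q | e
    · split_ifs <;> simp [ipc]
    · split_ifs <;> simp [ipc]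
  have hq0 : 0 ≤ ∑ u ∈ K, (if u ∈ U y then (ipc u : ℤ) else 0) :=
    sum_nonneg fun u _ => by split_ifs <;> positivity
  have hsum : ∑ u ∈ K, (2 * (ikp (tlo G T hm) z u : ℤ) - if u ∈ U y then (ipc u : ℤ) else 0)
      = 2 * ∑ u ∈ K, (ikp (tlo G T hm) z u : ℤ) - ∑ u ∈ K, (if u ∈ U y then (ipc u : ℤ) else 0) := by
    rw [sum_sub_distrib, mul_sum]
  rw [hsum] at hw4 ⊢
  generalize (∑ u ∈ K, ((rpts (tlo G T hm) X z u \ CP G Z T S y).card : ℤ)) = w at *
  generalize (∑ u ∈ K, (ikp (tlo G T hm) z u : ℤ)) = κ at *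
  generalize (∑ u ∈ K, (if u ∈ U y then (ipc u : ℤ) else 0)) = q at *
  have h5 : 0 ≤ (2 * κ - q - w) * (2 * (((S z).card : ℤ) - r + 1) + (2 * κ - q) + w - 1) := by
    rcases K.eq_empty_or_nonempty with hK0 | hK0
    · have e1 : (K.card : ℤ) = 0 := by
        rw [hK0]
        simp
      nlinarith
    · have e1 : (1 : ℤ) ≤ K.card := by exact_mod_cast card_pos.2 hK0
      exact mul_nonneg (by linarith) (by linarith)
  have h6 : ((CP G Z T S y ∩ K.biUnion (rpts (tlo G T hm) X z)).card : ℤ)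
      * (pcz (tlo G T hm) y (U z)).card ≤ q * ∑ u ∈ U z, (ipc u : ℤ) * ikp (tlo G T hm) y u :=
    mul_le_mul hq hq' (Nat.cast_nonneg _) hq0
  nlinarith

/-- **(ROWC) over the basic integers with an extra term**: `row` plus the hits of the items of `z` at `y`, the right side
plus `c (s + 1)`, the arcs of the used items of `y`, `2 c` for the load of other hosts and `q q'` -/
theorem Fam.rowcI_of {S : Finset V}
    (hC : CSys G Z T hm A fun x => S.filter fun v => hm v = x)
    (hW : WSysT G (co G) A (CP G Z T fun x => S.filter fun v => hm v = x)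
      (HP G Z T fun x => S.filter fun v => hm v = x) (tlo G T hm)) {U : V → Finset (Itm V)}
    (h : ∀ x ∈ A, Fam (co G) (CP G Z T fun x => S.filter fun v => hm v = x)
      (HP G Z T fun x => S.filter fun v => hm v = x) (tlo G T hm) x (U x))
    {z y : V} (hz : z ∈ A) (hy : y ∈ A) (hzy : z ≠ y) {K : Finset (Itm V)}
    (hK : K ⊆ (A.erase z).biUnion U)
    (h0 : 0 ≤ sI hm r S z + ∑ u ∈ K, (ikp (tlo G T hm) z u : ℤ)) {EX : ℤ}
    (hE : RowE G Z T hm r (fun x => S.filter fun v => hm v = x) U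
      (K.filter fun u => ikp (tlo G T hm) z u ≠ 0) (fun Q => one1 (oth (tlo G T hm) z Q)) z y EX) :
    2 * ((r : ℤ) - 1) * sI hm r S z
      + 2 * ∑ u ∈ K, ((ikp (tlo G T hm) z u : ℤ) * ((r : ℤ) - 1 - tI G Z T hm r S z)
          - rmr G (CP G Z T fun x => S.filter fun v => hm v = x) (tlo G T hm) z u)
      + 2 * ∑ u ∈ U z, ((ikp (tlo G T hm) y u : ℤ) * ((r : ℤ) - 1 - tI G Z T hm r S y)
          - ims G (CP G Z T fun x => S.filter fun v => hm v = x) (tlo G T hm) y u) + EX
      ≤ 2 * eI G hm S z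
        + 2 * (∑ u ∈ K, (2 * (ikp (tlo G T hm) z u : ℤ)
              - if u ∈ U y then (ipc u : ℤ) * ikp (tlo G T hm) z u else 0)
            + ((r : ℤ) - 1 - tI G Z T hm r S y)) * (sI hm r S z + 1)
        + (∑ u ∈ K, (2 * (ikp (tlo G T hm) z u : ℤ)
              - if u ∈ U y then (ipc u : ℤ) * ikp (tlo G T hm) z u else 0))
          * (∑ u ∈ K, (2 * (ikp (tlo G T hm) z u : ℤ)
              - if u ∈ U y then (ipc u : ℤ) * ikp (tlo G T hm) z u else 0) - 1)
        + 2 * ∑ u ∈ K, (if u ∈ U y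
            then (iar G (CP G Z T (fun x => S.filter fun v => hm v = x) y) u : ℤ)
            else 2 * ((r : ℤ) - 1 - tI G Z T hm r S y) * ikp (tlo G T hm) z u)
        + 2 * (∑ u ∈ K, (if u ∈ U y then (ipc u : ℤ) * ikp (tlo G T hm) z u else 0))
          * (∑ u ∈ U z, (ipc u : ℤ) * ikp (tlo G T hm) y u) := by
  set C := CP G Z T fun x => S.filter fun v => hm v = x with hCdef
  set tl := tlo G T hm with htl
  have hcard : ∀ x, ((C x).card : ℤ) = (r : ℤ) - 1 - tI G Z T hm r S x := fun x => card_CP_eq S x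
  have hz0 : ∀ u ∈ K, ikp tl z u = 0 → rmr G C tl z u = 0 := by
    intro u _ hu
    have h1 := rcl_card_le (G := G) (C := C) (tl := tl) (X := fun Q => one1 (oth tl z Q)) (z := z)
      (u := u)
    rw [hu, Nat.zero_mul] at h1
    exact Nat.le_zero.1 h1
  -- sums over the loaded items
  have hsf : ∀ f g : Itm V → ℤ, (∀ u ∈ K, ikp tl z u ≠ 0 → f u = g u) →
      (∀ u ∈ K, ikp tl z u = 0 → f u = 0) →
      ∑ u ∈ K, f u = ∑ u ∈ K.filter (fun u => ikp tl z u ≠ 0), g u := by
    intro f g h1 h2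
    rw [sum_filter]
    refine sum_congr rfl fun u hu => ?_
    by_cases h3 : ikp tl z u = 0
    · rw [h2 u hu h3]
      simp [h3]
    · simp only [ne_eq, h3, not_false_iff, if_true]
      exact h1 u hu h3
  have hpc : ∀ u, ikp tl z u ≠ 0 → (ipc u : ℤ) * ikp tl z u = ipc u := by
    intro u hu
    rcases u with Q | e
    · simp [ipc]
    · have h3 : ikp tl z (Sum.inr e) = 1 := by
        by_cases h4 : tl e.1 = z
        · simp only [ikp, h4, if_true]
        · exact absurd (by simp only [ikp, h4, if_false]) hu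
      rw [h3]
      simp
  have e1 := hsf (fun u => (ikp tl z u : ℤ) * ((r : ℤ) - 1 - tI G Z T hm r S z) - rmr G C tl z u)
    (fun u => ((C z).card : ℤ) * ikp tl z u - (rcl G C tl (fun Q => one1 (oth tl z Q)) z u).card)
    (fun u _ _ => by
      rw [← hcard]
      unfold rmr
      ring)
    (fun u hu h1 => by
      rw [hz0 u hu h1, h1]
      simp)
  have e2 := hsf (fun u => (ikp tl z u : ℤ)) (fun u => (ikp tl z u : ℤ)) (fun _ _ _ => rfl)
    (fun u _ h1 => by rw [h1]; simp)
  have e3 := hsf (fun u => 2 * (ikp tl z u : ℤ)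
      - if u ∈ U y then (ipc u : ℤ) * ikp tl z u else 0)
    (fun u => 2 * (ikp tl z u : ℤ) - if u ∈ U y then (ipc u : ℤ) else 0)
    (fun u _ h1 => by rw [hpc u h1])
    (fun u _ h1 => by rw [h1]; simp)
  have e4 := hsf (fun u => if u ∈ U y then (ipc u : ℤ) * ikp tl z u else 0)
    (fun u => if u ∈ U y then (ipc u : ℤ) else 0)
    (fun u _ h1 => by rw [hpc u h1])
    (fun u _ h1 => by rw [h1]; simp)
  have e5 : ∑ u ∈ K.filter (fun u => ikp tl z u ≠ 0), (if u ∈ U y
        then (iar G (C y) u : ℤ) else 2 * (C y).card * ikp tl z u)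
      ≤ ∑ u ∈ K, (if u ∈ U y then (iar G (C y) u : ℤ)
        else 2 * ((r : ℤ) - 1 - tI G Z T hm r S y) * ikp tl z u) := by
    rw [← hcard]
    refine sum_le_sum_of_subset_of_nonneg (filter_subset _ _) fun u _ _ => ?_
    split_ifs <;> positivity
  have e6 : ∑ u ∈ U z, iht G C tl y u
      = ∑ u ∈ U z, ((ikp tl y u : ℤ) * ((r : ℤ) - 1 - tI G Z T hm r S y) - ims G C tl y u) := by
    refine sum_congr rfl fun u _ => ?_
    unfold iht
    rw [hcard]
    ring
  have h5 := two_eI (G := G) (hm := hm) S z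
  have h6 : (((S.filter fun v => hm v = z).card : ℤ) - r) = sI hm r S z := rfl
  rw [e2] at h0
  have h1 := Fam.row_colC_of hC hW h hz hy hzy ((filter_subset _ _).trans hK)
    (fun u hu => (mem_filter.1 hu).2) (X := fun Q => one1 (oth tl z Q))
    (fun Q => one1_sub _) (fun Q => card_one1 _) (by rw [h6]; exact h0) hE
  rw [h6, ← h5, e6] at h1
  rw [e1, e3, e4]
  rw [← hcard y]
  have h7 : ((C y).card : ℤ) = (r : ℤ) - 1 - tI G Z T hm r S y := hcard y
  rw [← h7] at e5 h1
  linarith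

end RowCG

end Pool.Agent.Lib.MP_f04ccf_co
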