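import Pool.Agent.Lib.MP_f04ccf_co.M.MidC
import Pool.Agent.Lib.MP_f04ccf_co.M.BudW
import Pool.Agent.Lib.MP_f04ccf_co.M.FalPC

/-!
MP_f04ccf_co, TEXT D, middle range: **`PureNoC R` from a claim about natural numbers** (TABLE F, world budgets).

* `RowT`: `RowV` with the two largest other rows `y1`, `y2` and the row is not light;
* `sUp`, `sDn`: `N b / (a + b)` rounded up | down; `payT`: the payment of a cell times `N q R`, rounded up;
* `pureNoC_of_rows`: if every `RowT` satisfies `∑ payT ≤ q R (N d + V A (B y1) (B y2))` and the world knapsack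
  `Kern.wchk V R N` holds, then `PureNoC R`.
-/

set_option autoImplicit false

namespace Pool.Agent.Lib.MP_f04ccf_co

open Finset

attribute [local instance] Classical.propDecidable

/-- `N b / (a + b)` rounded up -/
def sUp (N a b : ℕ) : ℕ := (N * b + (a + b) - 1) / (a + b)

/-- `N b / (a + b)` rounded down -/
def sDn (N a b : ℕ) : ℕ := N * b / (a + b)

lemma sUp_spec {N a b : ℕ} (hb : 0 < b) : N * b ≤ sUp N a b * (a + b) := by
  unfold sUp
  have h1 : 0 < a + b := by omega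
  have h2 := Nat.div_add_mod (N * b + (a + b) - 1) (a + b)
  have h3 := Nat.mod_lt (N * b + (a + b) - 1) h1
  rw [mul_comm ((N * b + (a + b) - 1) / (a + b)) (a + b)]
  omega

lemma sDn_spec {N a b : ℕ} : sDn N a b * (a + b) ≤ N * b := Nat.div_mul_le_self _ _

/-- the payment of a cell times `N q R`: row `A`, partner `B`, `E` units, misses `hb` of the hosted units at `B`, `sb` of
the served ones at `A`; weights `wt`, factor `p / q` -/
def payT (R N p q : ℕ) (wt : ℕ → ℕ) (A B E hb sb : ℕ) : ℤ :=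
  (q : ℤ) * R * (sUp N (wt A) (wt B) * E)
    + p * ((sUp N (wt B) (wt A) : ℤ) * hb - (sDn N (wt A) (wt B) : ℤ) * sb)

/-- **a row with its two largest other rows**, not light -/
structure RowT (R : ℕ) (P : Finset ℕ) (y1 y2 A d hn h : ℕ)
    (B p x q mf mh mhb mha mc mcb mcn mcv kf kh khb kha kc kca kcb kcr sg en nn : ℕ → ℕ) : Prop
    extends RowV R P A d hn h B p x q mf mh mhb mha mc mcb mcn mcv kf kh khb kha kc kca kcb kcr sg
      en nn where
  y1P : y1 ∈ P
  y2P : y2 ∈ P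
  y12 : y2 ≠ y1
  mx1 : ∀ y ∈ P, B y ≤ B y1
  mx2 : ∀ y ∈ P, y ≠ y1 → B y ≤ B y2
  nl : d + 1 ≤ ∑ y ∈ P, (p y + x y + q y + (mf y + mh y + mc y) + (kf y + kh y + kc y))

section RowCl

variable {ι : Type*} {R : ℕ} {n : ℕ} {t s mu : ℕ → ℤ} {U : Finset ι} {ho : ι → ℕ} {vl : ι → ℤ}
  {kp mn : ℕ → ι → ℤ} {pc ar : ι → ℤ} {be kq NN sg : ℕ → ℕ → ℤ} {nu : ℕ → ι → ℤ} {z y : ℕ}
  {g : ℕ → ι → ℕ} {f : ι → ℕ}

/-- the served halves with main end `z` -/
noncomputable def sHz (U : Finset ι) (ho : ι → ℕ) (vl : ι → ℤ) (kp : ℕ → ι → ℤ) (pc : ι → ℤ)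
    (g : ℕ → ι → ℕ) (f : ι → ℕ) (z y : ℕ) : Finset ι :=
  (vSH U ho vl kp pc g f z y).filter fun u => g z u = 1

lemma sHz_sub (y : ℕ) : sHz U ho vl kp pc g f z y ⊆ vSH U ho vl kp pc g f z y := filter_subset _ _

/-- the served items with main level at `z` by types -/
lemma LevC.rnK_typS {φ : ι → ℕ → ℤ} (Lv : LevC n U ho vl kp mn pc φ g f)
    (H : PCon (R : ℤ) n t s mu U ho vl kp mn pc ar be kq NN sg nu) (hz : z < n) (y : ℕ) :
    rnK U ho pc g z y = (vSF U ho vl kp pc g f z y ∪ sHz U ho vl kp pc g f z y)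
      ∪ vSC U ho vl pc g z y := by
  ext u
  simp only [rnK, vSF, sHz, vSH, vSC, mem_union, mem_filter]
  constructor
  · rintro ⟨h1, h2, h3, h4⟩
    by_cases h5 : vl u = 1
    · have h6 : kp z u ≠ 0 := by
        intro h7
        have := Lv.le u h1 z hz
        rw [h7] at this
        omega
      have h8 : g z u = 1 := (Lv.lev01 H h1 h5 hz).resolve_left h4
      by_cases h7 : twoE vl kp g f u
      · exact Or.inl (Or.inr ⟨⟨h1, h2, h3, h5, h6, h7⟩, h8⟩)
      · exact Or.inl (Or.inl ⟨h1, h2, h3, h5, h6, h7⟩)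
    · exact Or.inr ⟨h1, h2, h3, h5, h4⟩
  · rintro ((⟨h1, h2, h3, h4, h5, h6⟩ | ⟨⟨h1, h2, h3, h4, h5, h6⟩, h7⟩) | ⟨h1, h2, h3, h4, h5⟩)
    · refine ⟨h1, h2, h3, ?_⟩
      rw [(Lv.full_at h1 h4 h6 hz h5).2.2.2]
      norm_num
    · refine ⟨h1, h2, h3, ?_⟩
      rw [h7]
      norm_num
    · exact ⟨h1, h2, h3, h5⟩

/-- sums over the served items with main level at `z` -/
lemma LevC.rnK_sumS {φ : ι → ℕ → ℤ} (Lv : LevC n U ho vl kp mn pc φ g f)
    (H : PCon (R : ℤ) n t s mu U ho vl kp mn pc ar be kq NN sg nu) (hz : z < n) (y : ℕ)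
    (G : ι → ℤ) :
    ∑ u ∈ rnK U ho pc g z y, G u = ∑ u ∈ vSF U ho vl kp pc g f z y, G u
      + ∑ u ∈ sHz U ho vl kp pc g f z y, G u + ∑ u ∈ vSC U ho vl pc g z y, G u := by
  obtain ⟨d1, d2⟩ := vS_disj U ho vl kp pc g f z y
  rw [Lv.rnK_typS H hz, sum_union, sum_union]
  · exact disjoint_of_subset_right (sHz_sub y) d1
  · exact disjoint_of_subset_left (union_subset_union (Subset.refl _) (sHz_sub y)) d2

/-- **the units of a cell** -/
lemma LevC.rnE_nums (Lv : LevC n U ho vl kp mn pc (fun u i => mn i u) g f)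
    (H : PConC (R : ℤ) n t s mu U ho vl kp mn pc ar be kq NN sg nu) (hz : z < n) (hy : y < n) :
    rnE U ho vl pc be g z y
      = ((nP be kq z y + nX kq z y + nQ be z y
          + ((vHF U ho vl kp pc g f z y).card + (vHH U ho vl kp pc g f z y).card
            + nMc U ho vl pc g z y)
          + ((vSF U ho vl kp pc g f z y).card + (sHz U ho vl kp pc g f z y).card
            + nKc U ho vl pc g z y) : ℕ) : ℤ) := by
  obtain ⟨-, a2, a3, a4, -⟩ := H.nums hz
  have hSU : ∀ y, sHz U ho vl kp pc g f z y ⊆ U := fun y =>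
    (sHz_sub y).trans (filter_subset _ _)
  obtain ⟨-, e2, -, -, -, -, e7, -, -⟩ := H.nums2 (g := g) (f := f) hz hy hSU
  have h1 : ((rnM U ho vl pc g z y).card : ℤ) = ((vHF U ho vl kp pc g f z y).card : ℤ)
      + ((vHH U ho vl kp pc g f z y).card : ℤ) := by
    rw [← Nat.cast_add, ← card_union_of_disjoint (vH_disj U ho vl kp pc g f z y).1]
    congr 2
    ext u
    simp only [rnM, vHF, vHH, mem_union, mem_filter]
    tauto
  have h2 : ∑ u ∈ rnC U ho vl pc z, (g y u : ℤ) = ((nMc U ho vl pc g z y : ℕ) : ℤ) := by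
    rw [e2]
    have h3 : vHC U ho vl pc g z y ⊆ rnC U ho vl pc z := by
      intro u hu
      obtain ⟨h4, h5, h6, h7, -⟩ := mem_filter.1 hu
      exact mem_filter.2 ⟨h4, h5, h6, h7⟩
    refine (sum_subset h3 fun u hu hu' => ?_).symm
    obtain ⟨h4, h5, h6, h7⟩ := mem_filter.1 hu
    by_contra h8
    refine hu' (mem_filter.2 ⟨h4, h5, h6, h7, fun h9 => h8 ?_⟩)
    rw [h9]
    rfl
  have h3 : ∑ u ∈ rnK U ho pc g z y, (g z u : ℤ) = ((vSF U ho vl kp pc g f z y).card : ℤ)
      + ((sHz U ho vl kp pc g f z y).card : ℤ) + ((nKc U ho vl pc g z y : ℕ) : ℤ) := by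
    rw [Lv.rnK_sumS H.toPCon hz y fun u => (g z u : ℤ), e7]
    congr 1
    congr 1
    · rw [sum_congr rfl fun u hu => by
        obtain ⟨h4, h5, h6, h7, h8, h9⟩ := mem_filter.1 hu
        rw [(Lv.full_at h4 h7 h9 hz h8).2.2.2]]
      simp
    · rw [sum_congr rfl fun u hu => by rw [(mem_filter.1 hu).2]]
      simp
  unfold rnE
  rw [h1, h2, h3]
  push_cast
  have := a2 y hy
  have := a3 y hy
  have := a4 y hy
  linarith

/-- the misses of the hosted units of a cell -/
lemma LevC.rnHb_nums (Lv : LevC n U ho vl kp mn pc (fun u i => mn i u) g f)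
    (H : PConC (R : ℤ) n t s mu U ho vl kp mn pc ar be kq NN sg nu) (hz : z < n) (hy : y < n) :
    rnHb U ho vl kp mn pc g z y
      = ((nMhb U ho vl kp mn pc g f z y + nMcb U ho vl kp mn pc g z y : ℕ) : ℤ) := by
  have hSU : ∀ y, sHz U ho vl kp pc g f z y ⊆ U := fun y =>
    (sHz_sub y).trans (filter_subset _ _)
  obtain ⟨e1, -, e3, -⟩ := H.nums2 (g := g) (f := f) hz hy hSU
  unfold rnHb
  have h1 : rnM U ho vl pc g z y = vHF U ho vl kp pc g f z y ∪ vHH U ho vl kp pc g f z y := by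
    ext u
    simp only [rnM, vHF, vHH, mem_union, mem_filter]
    tauto
  have h2 : (rnC U ho vl pc z).filter (fun u => g y u ≠ 0) = vHC U ho vl pc g z y := by
    ext u
    simp only [rnC, vHC, mem_filter]
    tauto
  rw [h1, h2, sum_union (vH_disj U ho vl kp pc g f z y).1,
    sum_eq_zero fun u hu => (Lv.hf_fact hy hu).2.2.1, Nat.cast_add, e1, e3, zero_add]

/-- the misses of the served units of a cell -/
lemma LevC.rnSb_nums (Lv : LevC n U ho vl kp mn pc (fun u i => mn i u) g f)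
    (H : PConC (R : ℤ) n t s mu U ho vl kp mn pc ar be kq NN sg nu) (hz : z < n) (hy : y < n) :
    rnSb U ho kp mn pc g z y
      = ((nKhb mn (sHz U ho vl kp pc g f z) z y + nKcb U ho vl kp mn pc g z y : ℕ) : ℤ) := by
  have hSU : ∀ y, sHz U ho vl kp pc g f z y ⊆ U := fun y =>
    (sHz_sub y).trans (filter_subset _ _)
  obtain ⟨-, -, -, -, e5, -, -, e8, -⟩ := H.nums2 (g := g) (f := f) hz hy hSU
  unfold rnSb
  rw [Lv.rnK_sumS H.toPCon hz y fun u => msP kp mn z (g z) u, Nat.cast_add, e5, e8]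
  congr 1
  rw [sum_eq_zero fun u hu => ?_, zero_add]
  · refine sum_congr rfl fun u hu => ?_
    obtain ⟨h1, h2⟩ := mem_filter.1 hu
    obtain ⟨h4, h5, h6, h7, h8, h9⟩ := mem_filter.1 h1
    unfold msP
    rw [h2, H.kp_one h4 h7 hz h8, if_pos (by norm_num)]
  · obtain ⟨h4, h5, h6, h7, h8, h9⟩ := mem_filter.1 hu
    unfold msP
    rw [(Lv.full_at h4 h7 h9 hz h8).2.1, ite_self]

/-- the payment of a cell, rounded up -/
lemma payF_le_payT {N p q : ℕ} {wt : ℕ → ℕ} (hwt : ∀ A, 0 < wt A) (hR : 0 < R) (hq : 0 < q)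
    {W : ℕ → ℝ} {A B E hb sb : ℕ} (hz : W z = wt A) (hy : W y = wt B)
    (hE : rnE U ho vl pc be g z y = E) (hhb : rnHb U ho vl kp mn pc g z y = hb)
    (hsb : rnSb U ho kp mn pc g z y = sb) :
    payF p q W (R : ℤ) U ho vl kp mn pc be g z y * ((N : ℝ) * (q * R))
      ≤ ((payT R N p q wt A B E hb sb : ℤ) : ℝ) := by
  have a0 : (0 : ℝ) < wt A := by exact_mod_cast hwt A
  have b0 : (0 : ℝ) < wt B := by exact_mod_cast hwt B
  have q0 : (0 : ℝ) < q := by exact_mod_cast hq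
  have r0 : (0 : ℝ) < R := by exact_mod_cast hR
  have s1 : (N : ℝ) * wt B ≤ sUp N (wt A) (wt B) * (wt A + wt B) := by
    exact_mod_cast sUp_spec (N := N) (a := wt A) (hwt B)
  have s2 : (N : ℝ) * wt A ≤ sUp N (wt B) (wt A) * (wt B + wt A) := by
    exact_mod_cast sUp_spec (N := N) (a := wt B) (hwt A)
  have s3 : (sDn N (wt A) (wt B) : ℝ) * (wt A + wt B) ≤ (N : ℝ) * wt B := by
    exact_mod_cast sDn_spec (N := N) (a := wt A) (b := wt B)
  have e : payF p q W (R : ℤ) U ho vl kp mn pc be g z y * ((N : ℝ) * (q * R))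
      = (N : ℝ) * ((wt B : ℝ) * (q * R) * E + p * (wt A * hb - wt B * sb)) / (wt A + wt B) := by
    unfold payF
    rw [hE, hhb, hsb, hz, hy]
    push_cast
    field_simp
  rw [e, div_le_iff₀ (by positivity)]
  unfold payT
  push_cast
  have t1 : (N : ℝ) * wt B * ((q : ℝ) * R * E) ≤ sUp N (wt A) (wt B) * (wt A + wt B) * (q * R * E) :=
    mul_le_mul_of_nonneg_right s1 (by positivity)
  have t2 : (N : ℝ) * wt A * ((p : ℝ) * hb) ≤ sUp N (wt B) (wt A) * (wt B + wt A) * (p * hb) :=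
    mul_le_mul_of_nonneg_right s2 (by positivity)
  have t3 : (sDn N (wt A) (wt B) : ℝ) * (wt A + wt B) * ((p : ℝ) * sb) ≤ (N : ℝ) * wt B * (p * sb) :=
    mul_le_mul_of_nonneg_right s3 (by positivity)
  nlinarith [t1, t2, t3]

/-- **`RowT` of a row** -/
theorem LevC.rowT (Lv : LevC n U ho vl kp mn pc (fun u i => mn i u) g f)
    (H : PConC (R : ℤ) n t s mu U ho vl kp mn pc ar be kq NN sg nu) (hz : z < n)
    (hnl : mu z - s z + 1 ≤ ∑ y ∈ (range n).erase z, rnE U ho vl pc be g z y) :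
    RowT R ((range n).erase z) (y1W z) (y2W z) (rA t z) (nD s mu z) (vP0 U ho pc z).card
      (nH U ho vl pc z)
      (rA t) (nP be kq z) (nX kq z) (nQ be z)
      (fun y => (vHF U ho vl kp pc g f z y).card) (fun y => (vHH U ho vl kp pc g f z y).card)
      (nMhb U ho vl kp mn pc g f z) (nMha n U ho vl kp pc be g f z) (nMc U ho vl pc g z)
      (nMcb U ho vl kp mn pc g z) (fun y => (vHC U ho vl pc g z y).card) (nMcv U ho vl pc g z)
      (fun y => (vSF U ho vl kp pc g f z y).card)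
      (fun y => (sHz U ho vl kp pc g f z y).card)
      (nKhb mn (sHz U ho vl kp pc g f z) z) (nKha n kp be (sHz U ho vl kp pc g f z) z)
      (nKc U ho vl pc g z)
      (fun y => (vSC U ho vl pc g z y).card) (nKcb U ho vl kp mn pc g z)
      (nKcr n U ho vl kp pc be g z)
      (fun y => (sg z y).toNat) (nE U ho kp pc z) (fun y => (NN z y).toNat) := by
  obtain ⟨a1, a2, a3⟩ := H.toPCon.y1_facts (z := z)
  obtain ⟨b1, b2, b3, b4⟩ := H.toPCon.y2_facts (z := z)
  have hmono : ∀ y < n, ∀ w < n, t y ≤ t w → rA t y ≤ rA t w := by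
    intro y hy w hw h
    have h1 : ((rA t y : ℕ) : ℤ) ≤ rA t w := by
      rw [(H.rA_eq hy).1, (H.rA_eq hw).1]
      linarith
    exact_mod_cast h1
  refine { Lv.rowV H hz (fun y => sHz_sub y) (fun y u hu => (mem_filter.1 hu).2) with
    y1P := mem_erase.2 ⟨a2, mem_range.2 a1⟩
    y2P := mem_erase.2 ⟨b2, mem_range.2 b1⟩
    y12 := b3
    mx1 := fun y hy => hmono y (mem_range.1 (mem_of_mem_erase hy)) _ a1
      (a3 y (mem_range.1 (mem_of_mem_erase hy)) (ne_of_mem_erase hy))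
    mx2 := fun y hy hy1 => hmono y (mem_range.1 (mem_of_mem_erase hy)) _ b1
      (b4 y (mem_range.1 (mem_of_mem_erase hy)) (ne_of_mem_erase hy) hy1)
    nl := ?_ }
  have h1 : ∑ y ∈ (range n).erase z, rnE U ho vl pc be g z y
      = ((∑ y ∈ (range n).erase z, (nP be kq z y + nX kq z y + nQ be z y
          + ((vHF U ho vl kp pc g f z y).card + (vHH U ho vl kp pc g f z y).card
            + nMc U ho vl pc g z y)
          + ((vSF U ho vl kp pc g f z y).card + (sHz U ho vl kp pc g f z y).card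
            + nKc U ho vl pc g z y)) : ℕ) : ℤ) := by
    rw [Nat.cast_sum]
    exact sum_congr rfl fun y hy => Lv.rnE_nums H hz (mem_range.1 (mem_of_mem_erase hy))
  rw [h1, ← (H.nums hz).1] at hnl
  exact_mod_cast hnl

/-- **`PureNoC R` from the claim about the numbers of a row** -/
theorem pureNoC_of_rows {N p q : ℕ} {wt : ℕ → ℕ} {V : ℕ → ℕ → ℕ → ℕ} (hwt : ∀ A, 0 < wt A)
    (hN : 0 < N) (hq : 0 < q) (hpq : p ≤ 2 * q) (hk : Kern.wchk V R N = true)
    (hrow : ∀ (P : Finset ℕ) (y1 y2 A d hn h : ℕ)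
      (B p' x q' mf mh mhb mha mc mcb mcn mcv kf kh khb kha kc kca kcb kcr sg en nn : ℕ → ℕ),
      RowT R P y1 y2 A d hn h B p' x q' mf mh mhb mha mc mcb mcn mcv kf kh khb kha kc kca kcb kcr
        sg en nn →
      ∑ y ∈ P, payT R N p q wt A (B y)
        (p' y + x y + q' y + (mf y + mh y + mc y) + (kf y + kh y + kc y))
        (mhb y + mcb y) (khb y + kcb y) ≤ (q : ℤ) * R * (N * d + V A (B y1) (B y2))) :
    PureNoC (R : ℤ) := by
  intro ι n t s mu U ho vl kp mn pc ar be kq NN sg nu H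
  obtain ⟨g, f, Lv⟩ := H.toPCon.exists_lev fun u i => mn i u
  have hR5 := H.toPCon.five_le
  have hR : 0 < R := by
    by_contra h
    have : R = 0 := by omega
    rw [this] at hR5
    norm_num at hR5
  refine Lv.close_FW' H rfl hk (W := fun i => (wt (rA t i) : ℝ)) (fun i _ => by
    exact_mod_cast hwt (rA t i)) hq hpq fun z hz hnl => ?_
  have h1 := hrow _ _ _ _ _ _ _ _ _ _ _ _ _ _ _ _ _ _ _ _ _ _ _ _ _ _ _ _ _ _
    (Lv.rowT H hz hnl)
  have n0 : (0 : ℝ) < N := by exact_mod_cast hN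
  have q0 : (0 : ℝ) < q := by exact_mod_cast hq
  have r0 : (0 : ℝ) < R := by exact_mod_cast hR
  have h2 : ∑ y ∈ (range n).erase z, payF p q (fun i => (wt (rA t i) : ℝ)) (R : ℤ) U ho vl kp mn pc
      be g z y * ((N : ℝ) * (q * R))
      ≤ ((∑ y ∈ (range n).erase z, payT R N p q wt (rA t z) (rA t y)
        (nP be kq z y + nX kq z y + nQ be z y
          + ((vHF U ho vl kp pc g f z y).card + (vHH U ho vl kp pc g f z y).card
            + nMc U ho vl pc g z y)
          + ((vSF U ho vl kp pc g f z y).card + (sHz U ho vl kp pc g f z y).card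
            + nKc U ho vl pc g z y))
        (nMhb U ho vl kp mn pc g f z y + nMcb U ho vl kp mn pc g z y)
        (nKhb mn (sHz U ho vl kp pc g f z) z y + nKcb U ho vl kp mn pc g z y) : ℤ) : ℝ) := by
    rw [Int.cast_sum]
    refine sum_le_sum fun y hy => ?_
    have hyn := mem_range.1 (mem_of_mem_erase hy)
    exact payF_le_payT hwt hR hq rfl rfl (Lv.rnE_nums H hz hyn) (Lv.rnHb_nums H hz hyn)
      (Lv.rnSb_nums H hz hyn)
  have h3 : ((∑ y ∈ (range n).erase z, payT R N p q wt (rA t z) (rA t y)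
        (nP be kq z y + nX kq z y + nQ be z y
          + ((vHF U ho vl kp pc g f z y).card + (vHH U ho vl kp pc g f z y).card
            + nMc U ho vl pc g z y)
          + ((vSF U ho vl kp pc g f z y).card + (sHz U ho vl kp pc g f z y).card
            + nKc U ho vl pc g z y))
        (nMhb U ho vl kp mn pc g f z y + nMcb U ho vl kp mn pc g z y)
        (nKhb mn (sHz U ho vl kp pc g f z) z y + nKcb U ho vl kp mn pc g z y) : ℤ) : ℝ)
      ≤ (((q : ℤ) * R * (N * (nD s mu z : ℕ) + V (rA t z) (rA t (y1W z)) (rA t (y2W z))) : ℤ) : ℝ) := by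
    exact_mod_cast h1
  have h4 : ((nD s mu z : ℕ) : ℝ) = (mu z : ℝ) - s z := by
    have := (H.nums hz).1
    have h5 : (((nD s mu z : ℕ) : ℤ) : ℝ) = ((mu z - s z : ℤ) : ℝ) := by rw [this]
    push_cast at h5
    exact h5
  rw [← sum_mul] at h2
  have h5 := h2.trans h3
  push_cast at h5
  have h6 : (mu z : ℝ) - s z + ((V (t z + 1).toNat (t (y1W z) + 1).toNat (t (y2W z) + 1).toNat : ℕ) : ℝ) / N
      = ((q : ℝ) * R * (N * (nD s mu z : ℕ) + (V (rA t z) (rA t (y1W z)) (rA t (y2W z)) : ℕ)))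
        / ((N : ℝ) * (q * R)) := by
    rw [h4, eq_div_iff (by positivity)]
    unfold rA
    field_simp
  rw [h6, le_div_iff₀ (by positivity)]
  exact h5

end RowCl

end Pool.Agent.Lib.MP_f04ccf_co
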