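import Pool.Agent.Lib.MP_f04ccf_co.M.ShPhi

/-!
MP_f04ccf_co, TEXT D, part (i): the N-free row test in `d`-form against a table of shares.
`A = t + 1` of the row, `y u = t + 1` of the partner row of the item `u`, `c u` its number of pieces in the
row, `e = ∑ c` the content, `m` the misses.

* `tzD`: `e (R - t - 1 - 2 e) - m ≤ (R - 2 e) d`, integers, both signs of `s + k`;
* `rowD_tab` (any table), `rowD_p0` (shares `(R + y - A) / (2 R)`), `rowD_p1` (shares `y / (A + y)`);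
* `D_false`: the closing of a row by row share system over the reals.
-/

set_option autoImplicit false

namespace Pool.Agent.Lib.MP_f04ccf_co

open Finset

attribute [local instance] Classical.propDecidable

section RowD

variable {ι : Type*}

/-- **the N-free test in `d`-form**, `d = mu - s`, `e = mu + k`, both signs of `s + k` -/
theorem tzD {R t s mu k m : ℤ} (ht : 0 ≤ t) (hm : 0 ≤ m) (he0 : 0 ≤ mu + k)
    (he : 2 * (mu + k) ≤ R)
    (h : 0 ≤ s + k → R * (s + k) ≤ (mu + k) * (t + 2 * (s + k) + 1) + m) :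
    (mu + k) * (R - t - 1 - 2 * (mu + k)) - m ≤ (R - 2 * (mu + k)) * (mu - s) := by
  rcases le_or_gt 0 (s + k) with h0 | h0
  · have h1 := h h0
    nlinarith
  · have h2 : mu + k ≤ mu - s := by linarith
    have h3 := mul_le_mul_of_nonneg_left h2 (show (0 : ℤ) ≤ R - 2 * (mu + k) by linarith)
    have h4 : 0 ≤ (mu + k) * t := mul_nonneg he0 ht
    nlinarith

/-- the same over the reals -/
theorem tzDR {R t s mu k m : ℤ} (ht : 0 ≤ t) (hm : 0 ≤ m) (he0 : 0 ≤ mu + k)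
    (he : 2 * (mu + k) ≤ R)
    (h : 0 ≤ s + k → R * (s + k) ≤ (mu + k) * (t + 2 * (s + k) + 1) + m) :
    ((mu : ℝ) + k) * ((R : ℝ) - (t + 1) - 2 * (mu + k)) - m
      ≤ ((R : ℝ) - 2 * (mu + k)) * ((mu : ℝ) - s) := by
  have h1 := tzD ht hm he0 he h
  have h2 : (((mu + k) * (R - t - 1 - 2 * (mu + k)) - m : ℤ) : ℝ)
      ≤ (((R - 2 * (mu + k)) * (mu - s) : ℤ) : ℝ) := by exact_mod_cast h1
  push_cast at h2
  linarith

/-- **any table of shares** `f u` per piece: enough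
`m + (R - 2 e) ∑ c f ≤ e (R - A - 2 e)` -/
theorem rowD_tab {R A e m d : ℝ} (he : 2 * e < R) (h : e * (R - A - 2 * e) - m ≤ (R - 2 * e) * d)
    {K : Finset ι} {c f : ι → ℝ}
    (hg : m + (R - 2 * e) * ∑ u ∈ K, c u * f u ≤ e * (R - A - 2 * e)) :
    ∑ u ∈ K, c u * f u ≤ d := by
  have h1 : (R - 2 * e) * ∑ u ∈ K, c u * f u ≤ (R - 2 * e) * d := by linarith
  exact le_of_mul_le_mul_left h1 (by linarith)

/-- **the table `p = 0`**: shares `(R + y - A) / (2 R)` -/
theorem rowD_p0 {R A e m d : ℝ} (hR : 0 < R) (he : 2 * e < R)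
    (h : e * (R - A - 2 * e) - m ≤ (R - 2 * e) * d) {K : Finset ι} {c y : ι → ℝ}
    (hc : ∑ u ∈ K, c u = e)
    (hg : 2 * R * m ≤ ∑ u ∈ K, c u * ((R - 2 * e) * (R - A - y u) - 4 * A * e)) :
    ∑ u ∈ K, c u * ((R + y u - A) / (2 * R)) ≤ d := by
  refine rowD_tab he h ?_
  have h1 : 2 * R * ((R - 2 * e) * ∑ u ∈ K, c u * ((R + y u - A) / (2 * R)))
      + ∑ u ∈ K, c u * ((R - 2 * e) * (R - A - y u) - 4 * A * e)
      = 2 * R * (e * (R - A - 2 * e)) := by
    rw [mul_sum, mul_sum, ← sum_add_distrib]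
    have h2 : 2 * R * (e * (R - A - 2 * e)) = ∑ u ∈ K, c u * (2 * R * (R - A - 2 * e)) := by
      rw [← sum_mul, hc]
      ring
    rw [h2]
    refine sum_congr rfl fun u _ => ?_
    field_simp
    ring
  nlinarith

/-- **the table `p = 1`**: shares `y / (A + y)` -/
theorem rowD_p1 {R A e m d : ℝ} (he : 2 * e < R)
    (h : e * (R - A - 2 * e) - m ≤ (R - 2 * e) * d) {K : Finset ι} {c y : ι → ℝ}
    (hc : ∑ u ∈ K, c u = e) (hy : ∀ u ∈ K, 0 < A + y u)
    (hg : m ≤ ∑ u ∈ K, c u * (A / (A + y u)) * (R - A - y u - 2 * e)) :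
    ∑ u ∈ K, c u * (y u / (A + y u)) ≤ d := by
  refine rowD_tab he h ?_
  have h1 : (R - 2 * e) * ∑ u ∈ K, c u * (y u / (A + y u))
      + ∑ u ∈ K, c u * (A / (A + y u)) * (R - A - y u - 2 * e)
      = e * (R - A - 2 * e) := by
    rw [mul_sum, ← sum_add_distrib]
    have h2 : e * (R - A - 2 * e) = ∑ u ∈ K, c u * (R - A - 2 * e) := by
      rw [← sum_mul, hc]
    rw [h2]
    refine sum_congr rfl fun u hu => ?_
    have h3 := hy u hu
    field_simp
    ring
  linarith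

/-- one piece under `p = 0`: no misses, one condition per partner row -/
lemma p0_gain {R A y e : ℝ} (h : 4 * A * e ≤ (R - A - y) * (R - 2 * e)) :
    0 ≤ (R - 2 * e) * (R - A - y) - 4 * A * e := by
  nlinarith

variable {R : ℤ} {n : ℕ} {t s h e : ℕ → ℤ} {E : ℕ → ℕ → ℤ} {U : Finset ι} {ho : ι → ℕ}
  {vl : ι → ℤ} {kp ms mr : ℕ → ι → ℤ} {mu Nb : ℕ → ℤ} {Nx : ℕ → ℕ → ℤ}

/-- **closing of a row by row share system**: `al u` the share of the host of `u`, `w i u` the share of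
the row `i`, `δ i` the deficit of the row `i` -/
theorem ItE.D_false (H : ItE R n t s h e E U ho vl kp ms mr mu Nb Nx) {al : ι → ℝ}
    {w : ℕ → ι → ℝ} {δ : ℕ → ℝ}
    (h1 : ∀ u ∈ U, (vl u : ℝ) ≤ al u + ∑ i ∈ (range n).erase (ho u), w i u)
    (h2 : ∀ i < n, ∑ u ∈ U.filter (fun u => ho u = i), al u
      + ∑ u ∈ U.filter (fun u => ho u ≠ i), w i u - δ i ≤ (mu i : ℝ) - s i)
    (h3 : ∑ i ∈ range n, δ i < 1) : False := by
  have e1 : ∑ i ∈ range n, ∑ u ∈ U.filter (fun u => ho u = i), al u = ∑ u ∈ U, al u :=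
    sum_fiberwise_of_maps_to (fun u hu => mem_range.2 (H.hlt u hu)) al
  have e2 : ∑ i ∈ range n, ∑ u ∈ U.filter (fun u => ho u ≠ i), w i u
      = ∑ u ∈ U, ∑ i ∈ (range n).erase (ho u), w i u := by
    simp only [sum_filter]
    rw [sum_comm]
    refine sum_congr rfl fun u hu => ?_
    rw [← sum_erase_add _ _ (mem_range.2 (H.hlt u hu)), if_neg (fun h3 => h3 rfl), add_zero]
    exact sum_congr rfl fun z hz => if_pos (Ne.symm (mem_erase.1 hz).1)
  have h4 := sum_le_sum fun i hi => h2 i (mem_range.1 hi)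
  have h5 := sum_le_sum h1
  have h6 := H.sum_dR
  rw [sum_sub_distrib, sum_add_distrib, e1, e2, h6] at h4
  rw [sum_add_distrib] at h5
  linarith

end RowD

end Pool.Agent.Lib.MP_f04ccf_co
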