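import Pool.Agent.Lib.MP_f04ccf_co.M.RowS

/-!
MP_f04ccf_co, TEXT D: **the mass of the light rows, and the row claim from one multiplier per row** (82's (F1), (F2)).

`z` a row outside the light rows `L`, `#touch` the touching units hosted at `z`, `A = t z + 1`, `d = mu z - s z`.

* `touch_le`: `#touch ≤ ∑_{l ∈ L} #{v : l ∈ C v}`;
* `PCon.light_mass`: `#touch + ∑_{l ∈ L} mu l ≤ ∑_{l ∈ L} (t l + 1)`;
* `PCon.heavy_mass`: `∑_{y ∈ P} (t y + 1) + #touch ≤ R - A` (`P` rows outside `L`, `z ∉ P`);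
* `PCon.row_F1`: **(F1)**: every cell has `sh y ≤ α (B y - u y) + ζ u y` and
  `α (R - A - G) + ζ G ≤ d + δ`, `G = ∑ u y + #touch`;
* `PCon.row_asg`: shares assigned to several cells;
* `PCon.row_F2`: **(F2)**: every cell has `sh y ≤ σ (E y)`, `σ (∑ E y) ≤ d + δ`.
-/

set_option autoImplicit false

namespace Pool.Agent.Lib.MP_f04ccf_co

open Finset

attribute [local instance] Classical.propDecidable

section RowF

variable {ι κ : Type*} {R : ℤ} {n : ℕ} {t s mu : ℕ → ℤ} {U : Finset ι} {ho : ι → ℕ} {vl : ι → ℤ}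
  {kp mn : ℕ → ι → ℤ} {pc ar : ι → ℤ} {be kq NN sg : ℕ → ℕ → ℤ} {nu : ℕ → ι → ℤ}
  {V : Finset κ} {it : κ → ι} {C C' : κ → Finset ℕ} {bt ht : κ → ℕ → ℤ}

/-- every touching unit of a host outside `L` has a counted row in `L` -/
lemma touch_le {h : κ → ℕ} {L : Finset ℕ} {z : ℕ} (hzL : z ∉ L) :
    ((touchU V h C L).filter fun v => h v = z).card
      ≤ ∑ l ∈ L, (V.filter fun v => l ∈ C v ∧ h v = z).card := by
  have h1 : (touchU V h C L).filter (fun v => h v = z)
      ⊆ L.biUnion fun l => V.filter fun v => l ∈ C v ∧ h v = z := by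
    intro v hv
    obtain ⟨c1, c2⟩ := mem_filter.1 hv
    obtain ⟨c3, c4⟩ := mem_filter.1 c1
    have c5 : ¬ Disjoint (C v) L := fun c6 => c4 ⟨by rw [c2]; exact hzL, c6⟩
    obtain ⟨l, c6, c7⟩ := not_disjoint_iff.1 c5
    exact mem_biUnion.2 ⟨l, c7, mem_filter.2 ⟨c3, c6, c2⟩⟩
  exact (card_le_card h1).trans card_biUnion_le

/-- the hosted value is not negative -/
lemma PCon.mu_nonneg (H : PCon R n t s mu U ho vl kp mn pc ar be kq NN sg nu) {i : ℕ}
    (hi : i < n) : 0 ≤ mu i := by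
  rw [H.hmu i hi]
  exact sum_nonneg fun u hu => le_trans zero_le_one (H.v1 u (mem_filter.1 hu).1)

/-- **the mass of the light rows** -/
theorem PCon.light_mass (H : PCon R n t s mu U ho vl kp mn pc ar be kq NN sg nu) {h : κ → ℕ}
    {L : Finset ℕ} (hL : ∀ i ∈ L, i < n ∧ s i + ((V.filter fun v => i ∈ C v).card : ℤ) ≤ 0)
    {z : ℕ} (hzL : z ∉ L) :
    (((touchU V h C L).filter fun v => h v = z).card : ℤ) + ∑ l ∈ L, mu l
      ≤ ∑ l ∈ L, (t l + 1) := by
  have h1 : (((touchU V h C L).filter fun v => h v = z).card : ℤ)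
      ≤ ∑ l ∈ L, ((V.filter fun v => l ∈ C v ∧ h v = z).card : ℤ) := by
    exact_mod_cast touch_le hzL
  have h2 : ∑ l ∈ L, ((V.filter fun v => l ∈ C v ∧ h v = z).card : ℤ) + ∑ l ∈ L, mu l
      ≤ ∑ l ∈ L, (t l + 1) := by
    rw [← sum_add_distrib]
    refine sum_le_sum fun l hl => ?_
    obtain ⟨a1, a2⟩ := hL l hl
    have a3 := H.dt l a1
    have a4 : ((V.filter fun v => l ∈ C v ∧ h v = z).card : ℤ)
        ≤ ((V.filter fun v => l ∈ C v).card : ℤ) := by
      exact_mod_cast card_le_card fun v hv => by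
        obtain ⟨b1, b2, -⟩ := mem_filter.1 hv
        exact mem_filter.2 ⟨b1, b2⟩
    linarith
  linarith

/-- **the mass of the heavy partners** -/
theorem PCon.heavy_mass (H : PCon R n t s mu U ho vl kp mn pc ar be kq NN sg nu) {h : κ → ℕ}
    {L : Finset ℕ} (hL : ∀ i ∈ L, i < n ∧ s i + ((V.filter fun v => i ∈ C v).card : ℤ) ≤ 0)
    {z : ℕ} (hz : z < n) (hzL : z ∉ L) {P : Finset ℕ} (hP : ∀ y ∈ P, y < n ∧ y ∉ L ∧ y ≠ z) :
    ∑ y ∈ P, (t y + 1) + (((touchU V h C L).filter fun v => h v = z).card : ℤ)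
      ≤ R - (t z + 1) := by
  have h1 := H.light_mass (h := h) (C := C) hL hzL
  have h2 : 0 ≤ ∑ l ∈ L, mu l := sum_nonneg fun l hl => H.mu_nonneg (hL l hl).1
  have h3 : Disjoint P L := disjoint_left.2 fun y hy => (hP y hy).2.1
  have h4 : z ∉ P ∪ L := by
    rw [mem_union]
    rintro (c | c)
    · exact (hP z c).2.2 rfl
    · exact hzL c
  have h5 : insert z (P ∪ L) ⊆ range n := by
    intro y hy
    rw [mem_insert, mem_union] at hy
    rcases hy with rfl | hy | hy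
    · exact mem_range.2 hz
    · exact mem_range.2 (hP y hy).1
    · exact mem_range.2 (hL y hy).1
  have h6 : ∑ y ∈ insert z (P ∪ L), (t y + 1) ≤ ∑ y ∈ range n, (t y + 1) :=
    sum_le_sum_of_subset_of_nonneg h5 fun y hy _ => by
      have := H.t0 y (mem_range.1 hy)
      linarith
  rw [sum_insert h4, sum_union h3] at h6
  have h7 := H.tsum
  linarith

/-- **(F1)**: one multiplier per row -/
theorem PCon.row_F1 (H : PCon R n t s mu U ho vl kp mn pc ar be kq NN sg nu)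
    (hV : UnP R n t U ho vl kp mn V it C' bt ht) {z : ℕ} (hz : z < n) {L : Finset ℕ}
    (hL : ∀ i ∈ L, i < n ∧ s i + ((V.filter fun v => i ∈ C v).card : ℤ) ≤ 0) (hzL : z ∉ L)
    {co : ℕ → κ → ℝ} {δ α ζ G : ℝ} {pr : κ → ℕ} {P : Finset ℕ} {u : ℕ → ℝ}
    (hα : 0 ≤ α) (hζ : 0 ≤ ζ) (hPP : ∀ y ∈ P, y < n ∧ y ∉ L ∧ y ≠ z)
    (hP : ∀ v ∈ freeU V (fun v => ho (it v)) C L, ho (it v) = z ∨ z ∈ C v → pr v ∈ P)
    (hc : ∀ y ∈ P,
      ∑ v ∈ (freeU V (fun v => ho (it v)) C L).filter (fun v => ho (it v) = z ∧ pr v = y),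
          (1 - co z v)
        + ∑ v ∈ (freeU V (fun v => ho (it v)) C L).filter (fun v => z ∈ C v ∧ pr v = y),
          (1 - co z v) ≤ α * (((t y + 1 : ℤ) : ℝ) - u y) + ζ * u y)
    (hG : ∑ y ∈ P, u y
      + (((touchU V (fun v => ho (it v)) C L).filter fun v => ho (it v) = z).card : ℝ) = G)
    (hb : α * (((R - (t z + 1) : ℤ) : ℝ) - G) + ζ * G ≤ ((mu z : ℝ) - s z) + δ) :
    (s z : ℝ) + (((freeU V (fun v => ho (it v)) C L).filter fun v => z ∈ C v).card : ℝ)
      ≤ ∑ v ∈ (freeU V (fun v => ho (it v)) C L).filter (fun v => ho (it v) = z), co z v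
        + ∑ v ∈ (freeU V (fun v => ho (it v)) C L).filter (fun v => z ∈ C v), co z v
        + (((touchU V (fun v => ho (it v)) C L).filter fun v => ho (it v) = z).card : ℝ) + δ := by
  refine H.row_cells hV hz hP hc ?_
  have h1 := H.heavy_mass (h := fun v => ho (it v)) hL hz hzL hPP
  have h2 : (∑ y ∈ P, (((t y + 1 : ℤ)) : ℝ))
      + (((touchU V (fun v => ho (it v)) C L).filter fun v => ho (it v) = z).card : ℝ)
      ≤ ((R - (t z + 1) : ℤ) : ℝ) := by
    exact_mod_cast h1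
  have h3 : (0 : ℝ)
      ≤ (((touchU V (fun v => ho (it v)) C L).filter fun v => ho (it v) = z).card : ℝ) :=
    Nat.cast_nonneg _
  rw [sum_add_distrib, ← mul_sum, ← mul_sum, sum_sub_distrib]
  have h4 : α * (∑ y ∈ P, (((t y + 1 : ℤ)) : ℝ) - ∑ y ∈ P, u y)
      ≤ α * (((R - (t z + 1) : ℤ) : ℝ) - G) := by
    refine mul_le_mul_of_nonneg_left ?_ hα
    linarith
  have h5 : ζ * ∑ y ∈ P, u y ≤ ζ * G := mul_le_mul_of_nonneg_left (by linarith) hζ
  linarith

/-- **the row claim by cells with assigned shares**: a unit may be paid by several cells -/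
theorem PCon.row_asg (H : PCon R n t s mu U ho vl kp mn pc ar be kq NN sg nu)
    (hV : UnP R n t U ho vl kp mn V it C' bt ht) {z : ℕ} (hz : z < n) {L : Finset ℕ}
    {co : ℕ → κ → ℝ} {δ : ℝ} {P : Finset ℕ} {as : κ → ℕ → ℝ} {β : ℕ → ℝ}
    (hP : ∀ v ∈ freeU V (fun v => ho (it v)) C L, ho (it v) = z ∨ z ∈ C v →
      1 - co z v ≤ ∑ y ∈ P, as v y)
    (hc : ∀ y ∈ P,
      ∑ v ∈ (freeU V (fun v => ho (it v)) C L).filter (fun v => ho (it v) = z), as v y
        + ∑ v ∈ (freeU V (fun v => ho (it v)) C L).filter (fun v => z ∈ C v), as v y ≤ β y)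
    (hb : ∑ y ∈ P, β y ≤ ((mu z : ℝ) - s z) + δ) :
    (s z : ℝ) + (((freeU V (fun v => ho (it v)) C L).filter fun v => z ∈ C v).card : ℝ)
      ≤ ∑ v ∈ (freeU V (fun v => ho (it v)) C L).filter (fun v => ho (it v) = z), co z v
        + ∑ v ∈ (freeU V (fun v => ho (it v)) C L).filter (fun v => z ∈ C v), co z v
        + (((touchU V (fun v => ho (it v)) C L).filter fun v => ho (it v) = z).card : ℝ) + δ := by
  refine H.row_share hV hz ?_
  have e1 : ∑ v ∈ (freeU V (fun v => ho (it v)) C L).filter (fun v => ho (it v) = z), (1 - co z v)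
      ≤ ∑ y ∈ P, ∑ v ∈ (freeU V (fun v => ho (it v)) C L).filter (fun v => ho (it v) = z),
        as v y := by
    rw [sum_comm]
    exact sum_le_sum fun v hv => hP v (mem_filter.1 hv).1 (Or.inl (mem_filter.1 hv).2)
  have e2 : ∑ v ∈ (freeU V (fun v => ho (it v)) C L).filter (fun v => z ∈ C v), (1 - co z v)
      ≤ ∑ y ∈ P, ∑ v ∈ (freeU V (fun v => ho (it v)) C L).filter (fun v => z ∈ C v),
        as v y := by
    rw [sum_comm]
    exact sum_le_sum fun v hv => hP v (mem_filter.1 hv).1 (Or.inr (mem_filter.1 hv).2)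
  refine (add_le_add e1 e2).trans (le_trans ?_ hb)
  rw [← sum_add_distrib]
  exact sum_le_sum hc

/-- **(F2)**: one multiplier for the number of the units of the row -/
theorem PCon.row_F2 (H : PCon R n t s mu U ho vl kp mn pc ar be kq NN sg nu)
    (hV : UnP R n t U ho vl kp mn V it C' bt ht) {z : ℕ} (hz : z < n) {L : Finset ℕ}
    {co : ℕ → κ → ℝ} {δ σ : ℝ}
    (hc : ∀ v ∈ freeU V (fun v => ho (it v)) C L, ho (it v) = z ∨ z ∈ C v → 1 - co z v ≤ σ)
    (hb : σ * ((((freeU V (fun v => ho (it v)) C L).filter fun v => ho (it v) = z).card : ℝ)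
        + (((freeU V (fun v => ho (it v)) C L).filter fun v => z ∈ C v).card : ℝ))
      ≤ ((mu z : ℝ) - s z) + δ) :
    (s z : ℝ) + (((freeU V (fun v => ho (it v)) C L).filter fun v => z ∈ C v).card : ℝ)
      ≤ ∑ v ∈ (freeU V (fun v => ho (it v)) C L).filter (fun v => ho (it v) = z), co z v
        + ∑ v ∈ (freeU V (fun v => ho (it v)) C L).filter (fun v => z ∈ C v), co z v
        + (((touchU V (fun v => ho (it v)) C L).filter fun v => ho (it v) = z).card : ℝ) + δ := by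
  refine H.row_share hV hz (le_trans ?_ hb)
  rw [mul_add]
  refine add_le_add ?_ ?_
  · rw [mul_comm, ← nsmul_eq_mul, ← sum_const]
    exact sum_le_sum fun v hv => hc v (mem_filter.1 hv).1 (Or.inl (mem_filter.1 hv).2)
  · rw [mul_comm, ← nsmul_eq_mul, ← sum_const]
    exact sum_le_sum fun v hv => hc v (mem_filter.1 hv).1 (Or.inr (mem_filter.1 hv).2)

end RowF

end Pool.Agent.Lib.MP_f04ccf_co
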