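import Pool.Agent.Lib.MP_f04ccf_co.M.RowSmD
import Pool.Agent.Lib.MP_f04ccf_co.M.TenAv
import Pool.Agent.Lib.MP_f04ccf_co.M.AsmL

/-!
MP_f04ccf_co, TEXT D, regime L: **the strip of small `d` of the rows `50 A ≤ 7 R`, all types** (`tzN` at every size with
the average misses, one share `R / (R + 2 A)` for all units; no columns, no rectangle, no arcs, no cells).

* `PCon.kept_d`, `kept_num`: the hosted non-Konig value is at most `(R + 2 A) d / R`;
* `host_num2`, `LevC.host_F2`: the host pays at most `R / (R + 2 A)`;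
* `F2ok a D e fr`: the inequality which is needed (scaled by `R`); `F2ok_of`: how to get it;
* `LevC.rowF2`: the row claim, factors of the served units at least `fr`.
-/

set_option autoImplicit false

namespace Pool.Agent.Lib.MP_f04ccf_co

open Finset

attribute [local instance] Classical.propDecidable

section RowF2

variable {ι : Type*} {R : ℤ} {n : ℕ} {t s mu : ℕ → ℤ} {U : Finset ι} {ho : ι → ℕ} {vl : ι → ℤ}
  {kp mn : ℕ → ι → ℤ} {pc ar : ι → ℤ} {be kq NN sg : ℕ → ℕ → ℤ} {nu : ℕ → ι → ℤ} {z y : ℕ}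
  {g : ℕ → ι → ℕ} {f : ι → ℕ}

/-- **the hosted non-Konig value** `M`: the row test -/
theorem PCon.kept_d (H : PCon R n t s mu U ho vl kp mn pc ar be kq NN sg nu) (hz : z < n)
    (hA : 4 * (t z + 1) ≤ R) (hR : 24 ≤ R) {M : ℤ} (hM : M = mu z - ∑ l ∈ range n, kq z l) :
    0 ≤ M ∧ M ≤ R ∧ 2 * ((R - M) * (M - (mu z - s z))) ≤ M * (3 * (t z + 1) - M) := by
  have ht0 := H.t0 z hz
  have h1 := H.tT z hz (range n) (Subset.refl _) ∅ (empty_subset _) ∅ (empty_subset _)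
    (fun u hu => absurd hu (notMem_empty u)) ∅ (empty_subset _)
    (fun u hu => absurd hu (notMem_empty u)) (fun _ => 0) (fun u hu => absurd hu (notMem_empty u))
    (fun u hu => absurd hu (notMem_empty u))
  have e1 : (range n).erase z \ range n = ∅ := sdiff_eq_empty_iff_subset.2 (erase_subset _ _)
  have e2 : svP n ho vl (∅ : Finset ι) (fun _ => 0) = 0 := by
    unfold svP
    simp
  simp only [sum_empty, sdiff_empty, e1, e2, mul_zero, add_zero, sub_zero] at h1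
  have hbe : ∀ l ∈ range n, 0 ≤ be z l - kq z l ∧ be z l - kq z l ≤ t z + 1 := by
    intro l hl
    have hl' := mem_range.1 hl
    have h2 := H.kqb z hz l hl'
    have h3 := H.kq0 z hz l hl'
    by_cases h4 : l = z
    · subst h4
      have h5 := H.be_self hz
      rw [h5] at h2 ⊢
      constructor <;> linarith
    · have h5 := H.be_le hl' hz h4
      have h6 := H.be0 l hl' z hz
      constructor <;> linarith
  have hsum : ∑ l ∈ range n, (be z l - kq z l) ≤ M := by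
    have h2 := H.pc_tails hz
    have h3 : ∑ l ∈ range n, be z l = ∑ l ∈ (range n).erase z, be z l := by
      have := add_sum_erase (range n) (fun l => be z l) (mem_range.2 hz)
      beta_reduce at this
      rw [H.be_self hz] at this
      linarith
    have h4 : ∑ u ∈ U.filter (fun u => ho u = z), pc u ≤ mu z := by
      rw [H.hmu z hz]
      refine sum_le_sum fun u hu => ?_
      have h5 := (mem_filter.1 hu).1
      have h6 := H.v1 u h5
      rcases H.pc01 u h5 with h7 | h7 <;> rw [h7] <;> linarith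
    rw [sum_sub_distrib, h3, ← h2, hM]
    linarith
  have hN : ∑ l ∈ range n, (be z l - kq z l) * (be z l - kq z l + 1) ≤ (t z + 2) * M := by
    calc ∑ l ∈ range n, (be z l - kq z l) * (be z l - kq z l + 1)
        ≤ ∑ l ∈ range n, (be z l - kq z l) * (t z + 2) :=
          sum_le_sum fun l hl => mul_le_mul_of_nonneg_left (by linarith [(hbe l hl).2]) (hbe l hl).1
      _ = (t z + 2) * ∑ l ∈ range n, (be z l - kq z l) := by rw [← sum_mul, mul_comm]
      _ ≤ (t z + 2) * M := mul_le_mul_of_nonneg_left hsum (by linarith)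
  have hM0 : 0 ≤ M := (sum_nonneg fun l hl => (hbe l hl).1).trans hsum
  have hd0 := H.d_nonneg hz
  have hdA := H.dt z hz
  have hglob := H.glob1 hz
  have hk0 : 0 ≤ ∑ l ∈ range n, kq z l :=
    sum_nonneg fun l hl => H.kq0 z hz l (mem_range.1 hl)
  unfold TstP at h1
  rw [← hM] at h1
  have e3 : s z - ∑ l ∈ range n, kq z l = M - (mu z - s z) := by rw [hM]; ring
  rw [e3] at h1
  have h2 : 2 * ((R - M) * (M - (mu z - s z))) ≤ M * (3 * (t z + 1) - M) := by
    nlinarith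
  have hMR : M ≤ R + 1 := by linarith
  have hMR' : M ≤ R := by
    by_contra hc
    push Not at hc
    have h3 : M = R + 1 := by omega
    rw [h3] at h2
    nlinarith
  exact ⟨hM0, hMR', h2⟩

/-- numbers: the hosted non-Konig value is at most `(R + 2 A) d / R` -/
lemma kept_num {R A d M T : ℝ} (hR : 0 < R) (hA1 : 0 < A) (hA : 6 * A ≤ R) (hM0 : 0 ≤ M)
    (hMR : M ≤ R) (hM : 2 * ((R - M) * (M - d)) ≤ M * (3 * A - M)) (hT : d ≤ T) :
    M * R ≤ (R + 2 * A) * T := by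
  by_contra hc
  push Not at hc
  have h1 : (R + 2 * A) * d ≤ (R + 2 * A) * T := mul_le_mul_of_nonneg_left hT (by linarith)
  have hMpos : 0 < M := by
    rcases hM0.eq_or_lt with h2 | h2
    · exfalso
      rw [← h2] at hc hM
      nlinarith
    · exact h2
  have h3 : 0 ≤ (R - M) * (M * R - (R + 2 * A) * d) := mul_nonneg (by linarith) (by linarith)
  have h4 := mul_le_mul_of_nonneg_left hM (by linarith : (0 : ℝ) ≤ R + 2 * A)
  have h5 : M * (A * (R - 6 * A) + M * (R - 2 * A)) ≤ 0 := by nlinarith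
  have h6 : 0 < M * (R - 2 * A) := mul_pos hMpos (by linarith)
  have h7 : 0 ≤ A * (R - 6 * A) := mul_nonneg hA1.le (by linarith)
  nlinarith [mul_pos hMpos h6, mul_nonneg hMpos.le h7]

/-- **numbers**: `9 b (R + 2 A) ≤ 5 R²` for `50 A ≤ 7 R` -/
lemma host_num2 {R A B W b : ℤ} (hR : 65 ≤ R) (hA : 1 ≤ A) (hA2 : 50 * A ≤ 7 * R) (hB : 1 ≤ B)
    (hW : 1 ≤ W) (hs : A + B + W ≤ R) (_hb0 : 0 ≤ b) (hb : b ^ 2 ≤ R + (B - 1) * (W - 1)) :
    9 * (b * (R + 2 * A)) ≤ 5 * R ^ 2 := by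
  have h1 := geo_num hA hB hW hs hb
  have hR0 : 0 ≤ R := by linarith
  obtain ⟨P, hP⟩ : ∃ P : ℤ, P = (R - A) * (R + 2 * A) := ⟨_, rfl⟩
  have hP0 : 0 ≤ P := by
    rw [hP]
    exact mul_nonneg (by linarith) (by linarith)
  have h2 : 10000 * P ≤ 11008 * R ^ 2 := by
    rw [hP]
    nlinarith [mul_nonneg (by linarith : (0 : ℤ) ≤ 7 * R - 50 * A)
      (by linarith : (0 : ℤ) ≤ 144 * R - 400 * A)]
  have h3 : (10000 * P) ^ 2 ≤ (11008 * R ^ 2) ^ 2 := pow_le_pow_left₀ (by linarith) h2 2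
  have h4 : (25 * (R + 2 * A)) ^ 2 ≤ (32 * R) ^ 2 :=
    pow_le_pow_left₀ (by linarith) (by linarith) 2
  have h5 : 6 * (A + 1) ≤ R := by omega
  have h6 : (6 * (A + 1)) * (25 * (R + 2 * A)) ^ 2 ≤ R * (32 * R) ^ 2 :=
    mul_le_mul h5 h4 (sq_nonneg _) hR0
  have h7 : 4 * (b * (R + 2 * A)) ^ 2 ≤ P ^ 2 + 4 * (A + 1) * (R + 2 * A) ^ 2 := by
    have := mul_le_mul_of_nonneg_right h1 (sq_nonneg (R + 2 * A))
    rw [hP]
    nlinarith
  have h8 : R ^ 3 * 65 ≤ R ^ 4 := by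
    have := mul_le_mul_of_nonneg_left hR (pow_nonneg hR0 3)
    nlinarith
  have h9 : (9 * (b * (R + 2 * A))) ^ 2 ≤ (5 * R ^ 2) ^ 2 := by
    nlinarith
  exact (abs_le_of_sq_le_sq' h9 (by positivity)).2

/-- **the host pays at most `R / (R + 2 A)`** in a row `50 A ≤ 7 R` -/
lemma LevC.host_F2 (Lv : LevC n U ho vl kp mn pc (fun u i => mn i u) g f)
    (H : PCon R n t s mu U ho vl kp mn pc ar be kq NN sg nu) (hR : 65 ≤ R)
    (h2 : ∀ i < n, 2 * (t i + 1) ≤ R) {v : ι × ℕ × ℕ} (hv : v ∈ unV n U g)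
    (hz : 50 * (t (ho v.1) + 1) ≤ 7 * R) {F : ℝ} (_hF0 : 0 ≤ F) (hF : FacF R (t v.2.1 + 1) F) :
    2 * ((t (ho v.1) : ℝ) + 1) / ((R : ℝ) + 2 * ((t (ho v.1) : ℝ) + 1))
      ≤ ((t (ho v.1) : ℝ) + 1) / ((t (ho v.1) : ℝ) + 1 + ((t v.2.1 : ℝ) + 1))
        * (1 - F / (R : ℝ) * (unb kp mn g v : ℝ)) := by
  have hR' : (65 : ℝ) ≤ R := by exact_mod_cast hR
  obtain ⟨h7, h8, -⟩ := LevC.mem_unV hv
  have hb0 := LevC.unb_nonneg H hv
  have hg := Lv.unb_geo H hv
  have htm := H.t0 _ h8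
  have htf := H.t0 _ (Lv.fn _ h7)
  have htz := H.t0 _ (H.hlt _ h7)
  have h9 := h2 _ (Lv.fn _ h7)
  have h10 := h2 _ h8
  generalize unb kp mn g v = b at *
  obtain ⟨B, hB⟩ : ∃ B, B = t v.2.1 + 1 := ⟨_, rfl⟩
  obtain ⟨A, hA⟩ : ∃ A, A = t (ho v.1) + 1 := ⟨_, rfl⟩
  obtain ⟨W, hW⟩ : ∃ W, W = t (f v.1) + 1 := ⟨_, rfl⟩
  have eB : (t v.2.1 : ℝ) + 1 = B := by rw [hB]; push_cast; ring
  have eA : (t (ho v.1) : ℝ) + 1 = A := by rw [hA]; push_cast; ring
  have hB1 : 1 ≤ B := by linarith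
  have hA1 : 1 ≤ A := by linarith
  have hW1 : 1 ≤ W := by linarith
  have hA' : (1 : ℝ) ≤ A := by exact_mod_cast hA1
  have hB' : (1 : ℝ) ≤ B := by exact_mod_cast hB1
  rw [← hB] at hF h10
  rw [← hA] at hz
  rw [← hW] at h9
  have hz' : (50 : ℝ) * A ≤ 7 * R := by exact_mod_cast hz
  have hB2 : (2 : ℝ) * B ≤ R := by exact_mod_cast h10
  have hb0' : (0 : ℝ) ≤ b := by exact_mod_cast hb0
  rw [eA, eB]
  have key : F * b * (R + 2 * A) ≤ R * (R - 2 * B) := by
    rcases hg with h1 | ⟨h1, h3⟩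
    · rw [h1]
      push_cast
      nlinarith
    · have h1' : b ^ 2 ≤ R + (B - 1) * (W - 1) := by
        rw [hB, hW, add_sub_cancel_right, add_sub_cancel_right]
        exact h1
      have h3' : A + B + W ≤ R := by
        rw [hA, hB, hW]
        exact h3
      rcases hF with ⟨h4, h5⟩ | h5
      · have h6 := third_num hR hB1 h4 hW1 h9 h1'
        have h6' : (3 : ℝ) * b ≤ R := by exact_mod_cast h6
        have h4' : (8 : ℝ) * B ≤ R := by exact_mod_cast h4
        have h11 : F * b ≤ 3 / 2 * b := mul_le_mul_of_nonneg_right h5 hb0'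
        have h12 : F * b ≤ R / 2 := by linarith
        have h13 : F * b * (R + 2 * A) ≤ R / 2 * (R + 2 * A) :=
          mul_le_mul_of_nonneg_right h12 (by linarith)
        nlinarith
      · have h6 := host_num2 hR hA1 hz hB1 hW1 h3' hb0 h1'
        have h6' : (9 : ℝ) * (b * (R + 2 * A)) ≤ 5 * (R : ℝ) ^ 2 := by exact_mod_cast h6
        have h11 : F * (b * (R + 2 * A))
            ≤ 9 / 5 * (1 - 2 * (B : ℝ) / (R : ℝ)) * (b * (R + 2 * A)) :=
          mul_le_mul_of_nonneg_right h5 (mul_nonneg hb0' (by linarith))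
        have h12 : (0 : ℝ) ≤ 1 - 2 * (B : ℝ) / (R : ℝ) := by
          rw [sub_nonneg, div_le_one (by linarith)]
          exact hB2
        have h13 : (1 - 2 * (B : ℝ) / (R : ℝ)) * (9 * (b * (R + 2 * A)))
            ≤ (1 - 2 * (B : ℝ) / (R : ℝ)) * (5 * (R : ℝ) ^ 2) :=
          mul_le_mul_of_nonneg_left h6' h12
        have h14 : (1 - 2 * (B : ℝ) / (R : ℝ)) * (5 * (R : ℝ) ^ 2) = 5 * (R * (R - 2 * B)) := by
          field_simp
        nlinarith
  rw [div_mul_eq_mul_div, div_le_div_iff₀ (by linarith) (by linarith)]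
  have h16 : 1 - F / (R : ℝ) * (b : ℝ) = (R - F * b) / R := by
    field_simp
  rw [h16, mul_div_assoc', div_mul_eq_mul_div, le_div_iff₀ (by linarith)]
  nlinarith [mul_nonneg (by linarith : (0 : ℝ) ≤ (A : ℝ)) (sub_nonneg.2 key)]

/-- **the inequality of the strip**, scaled by `R`: `a = A / R`, `D = d / R`, `e = 1 / R`, `b` the average misses,
`N = (1 + 2 a) (D + a e / (1 + e))`, `x = 1 - fr b`, `q = N / x` -/
def F2ok (a D e fr : ℝ) : Prop :=
  ∀ b x N : ℝ, 0 ≤ b → 2 * b ^ 2 ≤ a + e + 2 * e ^ 2 - 2 * a * e → x = 1 - fr * b →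
    N * (1 + e) = (1 + 2 * a) * (D * (1 + e) + a * e) →
    0 < x ∧ 2 * N + 2 * e * x ≤ x ∧
      (a + b) * N * x + e ^ 2 * x ^ 2 / 2 < (x - 2 * N) * (N - D * x)

/-- how to get the inequality of the strip: two polynomial inequalities, `K = x (1 - a - b) - 2 D (2 (1 + 2 a) - x)` -/
lemma F2ok_of {a D e fr lam : ℝ} (he : 0 < e) (he1 : 65 * e ≤ 1) (ha0 : 0 ≤ a) (ha : 50 * a ≤ 7)
    (hD0 : 0 ≤ D) (hD : 10 * D ≤ 1) (hf : fr ≤ 3 / 2)
    (h1 : ∀ b : ℝ, 0 ≤ b → 100 * b ≤ 29 → 2 * b ^ 2 ≤ a + e + 2 * e ^ 2 - 2 * a * e →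
      2 * (1 + 2 * a) * D * (2 * a + fr * b) - lam * e
        ≤ (1 - fr * b) * (a * (1 - 2 * a) + b * (fr - (1 + 2 * a))))
    (h2 : ∀ b : ℝ, 0 ≤ b → 100 * b ≤ 29 → 2 * b ^ 2 ≤ a + e + 2 * e ^ 2 - 2 * a * e →
      e * (1 + e) ^ 2 * (1 - fr * b) ^ 2 / 2 + lam * D * (1 + e) ^ 2
        < (1 + 2 * a) * a * (((1 - fr * b) * (1 - a - b)
          - 2 * D * (2 * (1 + 2 * a) - (1 - fr * b))) * (1 + e) - 2 * (1 + 2 * a) * a * e)) :
    F2ok a D e fr := by
  intro b x N hb hb2 hx hN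
  have hb29 : 100 * b ≤ 29 := by
    by_contra hc
    push Not at hc
    nlinarith
  have k1 := h1 b hb hb29 hb2
  have k2 := h2 b hb hb29 hb2
  rw [← hx] at k1 k2
  have hx1 : 50 * x ≥ 28 := by
    rw [hx]
    nlinarith
  have he2 : 0 < 1 + e := by linarith
  have hN2 : (x - 2 * N - 2 * e * x) * (1 + e)
      = x * (1 + e) * (1 - 2 * e) - 2 * ((1 + 2 * a) * (D * (1 + e) + a * e)) := by
    rw [← hN]
    ring
  have hpos : 0 ≤ (x - 2 * N - 2 * e * x) * (1 + e) := by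
    rw [hN2]
    have h3 : (1 + 2 * a) * (D * (1 + e) + a * e) ≤ 32 / 25 * (1 / 10 * (1 + e) + 7 / 50 * e) :=
      mul_le_mul (by linarith) (by nlinarith) (by positivity) (by norm_num)
    have h4 : 28 / 50 * (1 * (1 - 2 / 65)) ≤ x * ((1 + e) * (1 - 2 * e)) :=
      mul_le_mul (by linarith) (by nlinarith) (by norm_num) (by linarith)
    nlinarith
  refine ⟨by linarith, ?_, ?_⟩
  · have := nonneg_of_mul_nonneg_left hpos he2
    linarith
  · have key : 0 < ((x - 2 * N) * (N - D * x) - ((a + b) * N * x + e ^ 2 * x ^ 2 / 2))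
        * (1 + e) ^ 2 := by
      have h3 : ((x - 2 * N) * (N - D * x) - ((a + b) * N * x + e ^ 2 * x ^ 2 / 2)) * (1 + e) ^ 2
          = (x * (1 + e) - 2 * (N * (1 + e))) * (N * (1 + e) - D * x * (1 + e))
            - ((a + b) * (N * (1 + e)) * x * (1 + e) + e ^ 2 * x ^ 2 / 2 * (1 + e) ^ 2) := by
        ring
      rw [h3, hN]
      have h4 : (x * (1 + e) - 2 * ((1 + 2 * a) * (D * (1 + e) + a * e)))
            * ((1 + 2 * a) * (D * (1 + e) + a * e) - D * x * (1 + e))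
            - ((a + b) * ((1 + 2 * a) * (D * (1 + e) + a * e)) * x * (1 + e)
              + e ^ 2 * x ^ 2 / 2 * (1 + e) ^ 2)
          = D * (1 + e) ^ 2 * ((x - 2 * (1 + 2 * a) * D) * ((1 + 2 * a) - x)
              - (a + b) * (1 + 2 * a) * x)
            + e * ((1 + 2 * a) * a * ((x * (1 - a - b) - 2 * D * (2 * (1 + 2 * a) - x)) * (1 + e)
              - 2 * (1 + 2 * a) * a * e) - e * (1 + e) ^ 2 * x ^ 2 / 2) := by
        ring
      rw [h4]
      have h5 : (x - 2 * (1 + 2 * a) * D) * ((1 + 2 * a) - x) - (a + b) * (1 + 2 * a) * x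
          = x * (a * (1 - 2 * a) + b * (fr - (1 + 2 * a)))
            - 2 * (1 + 2 * a) * D * (2 * a + fr * b) := by
        rw [hx]
        ring
      rw [h5]
      have h6 := mul_le_mul_of_nonneg_left k1 (by positivity : 0 ≤ D * (1 + e) ^ 2)
      have h7 := mul_lt_mul_of_pos_left k2 he
      linarith
    have := pos_of_mul_pos_left key (by positivity)
    linarith

/-- **the row claim in the strip of small `d`**, all types: `50 A ≤ 7 R`, the factors of the served units at least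
`fr` -/
theorem LevC.rowF2 (Lv : LevC n U ho vl kp mn pc (fun u i => mn i u) g f)
    (H : PCon R n t s mu U ho vl kp mn pc ar be kq NN sg nu) (hR : 65 ≤ R)
    (h2 : ∀ i < n, 2 * (t i + 1) ≤ R) (hz : z < n) (hA : 50 * (t z + 1) ≤ 7 * R)
    {F : ℕ → ι → ℝ} (hF0 : ∀ m < n, ∀ u ∈ U, 0 ≤ F m u)
    (hF : ∀ m < n, ∀ u ∈ U, FacF R (t m + 1) (F m u)) {fr : ℝ} (hfr : 0 ≤ fr)
    (hFz : ∀ v ∈ unV n U g, v.2.1 = z → fr ≤ F z v.1)
    (hok : F2ok (((t z : ℝ) + 1) / R) (((mu z : ℝ) - s z) / R) (1 / (R : ℝ)) fr) :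
    ∑ y ∈ (range n).erase z,
        (((t y : ℝ) + 1) / ((t z : ℝ) + 1 + ((t y : ℝ) + 1)) * (rnE U ho vl pc be g z y : ℝ)
        + ((1 - ((t y : ℝ) + 1) / ((t z : ℝ) + 1 + ((t y : ℝ) + 1)))
            * rnHl n U ho g (fun v => 1 - F v.2.1 v.1 / (R : ℝ) * (unb kp mn g v : ℝ)) z y
          - ((t y : ℝ) + 1) / ((t z : ℝ) + 1 + ((t y : ℝ) + 1))
            * rnSl n U ho g (fun v => 1 - F v.2.1 v.1 / (R : ℝ) * (unb kp mn g v : ℝ)) z y))
      ≤ (mu z : ℝ) - s z + ((t z : ℝ) + 1) / ((R : ℝ) + 1) := by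
  have hR' : (65 : ℝ) ≤ R := by exact_mod_cast hR
  have hR0' : (0 : ℝ) < R := by linarith
  have htz0 := H.t0 z hz
  have htz : (0 : ℝ) ≤ t z := by exact_mod_cast htz0
  have hd0 := H.d_nonneg hz
  have hd0' : (0 : ℝ) ≤ (mu z : ℝ) - s z := by exact_mod_cast hd0
  have hub : ∀ v ∈ unV n U g, (0 : ℝ) ≤ unb kp mn g v := fun v hv => by
    exact_mod_cast LevC.unb_nonneg H hv
  have hA' : (50 : ℝ) * ((t z : ℝ) + 1) ≤ 7 * R := by exact_mod_cast hA
  have h1 := Lv.row_s0 H hz h2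
    (θ := fun v => 1 - F v.2.1 v.1 / (R : ℝ) * (unb kp mn g v : ℝ)) (fun v hv => by
      obtain ⟨h7, h8, -⟩ := LevC.mem_unV hv
      have h9 := Lv.fac_F H hR h2 hv (hF0 _ h8 _ h7) (hF _ h8 _ h7)
      linarith) (fr := fr)
    (fun v hv hvz => by
      have k7 := hFz v hv hvz
      rw [hvz]
      have k8 : fr / (R : ℝ) * (unb kp mn g v : ℝ) ≤ F z v.1 / (R : ℝ) * (unb kp mn g v : ℝ) :=
        mul_le_mul_of_nonneg_right ((div_le_div_iff_of_pos_right hR0').2 k7) (hub v hv)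
      linarith)
    (fun v hv hvz => by
      obtain ⟨h7, h8, -⟩ := LevC.mem_unV hv
      have k1 := Lv.host_F2 H hR h2 hv (by rw [hvz]; exact hA) (hF0 _ h8 _ h7) (hF _ h8 _ h7)
      rw [hvz] at k1
      refine k1.trans (le_of_eq ?_)
      have htm : (0 : ℝ) ≤ t v.2.1 := by exact_mod_cast H.t0 _ h8
      have k2 : (t z : ℝ) + 1 + ((t v.2.1 : ℝ) + 1) ≠ 0 := by positivity
      have k3 : 1 - ((t v.2.1 : ℝ) + 1) / ((t z : ℝ) + 1 + ((t v.2.1 : ℝ) + 1))
          = ((t z : ℝ) + 1) / ((t z : ℝ) + 1 + ((t v.2.1 : ℝ) + 1)) := by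
        field_simp
        ring
      rw [k3])
  refine h1.trans ?_
  obtain ⟨A, hAd⟩ : ∃ A : ℝ, A = (t z : ℝ) + 1 := ⟨_, rfl⟩
  obtain ⟨d, hd⟩ : ∃ d : ℝ, d = (mu z : ℝ) - s z := ⟨_, rfl⟩
  have hAe : (1 : ℝ) ≤ A := by rw [hAd]; linarith
  rw [← hAd, ← hd] at hok
  rw [← hAd] at hA'
  have hde : 0 ≤ d := by rw [hd]; exact hd0'
  obtain ⟨T, hT⟩ : ∃ T : ℝ, T = d + A / ((R : ℝ) + 1) := ⟨_, rfl⟩
  have hTd : d ≤ T := by
    rw [hT]
    have : 0 ≤ A / ((R : ℝ) + 1) := by positivity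
    linarith
  obtain ⟨N, hN⟩ : ∃ N : ℝ, N = ((R : ℝ) + 2 * A) * T / R := ⟨_, rfl⟩
  have hN0 : 0 ≤ N := by
    rw [hN]
    exact div_nonneg (mul_nonneg (by linarith) (hde.trans hTd)) hR0'.le
  obtain ⟨q1, q2, q3⟩ := H.kept_d hz (by linarith) (by linarith)
    (M := mu z - ∑ l ∈ range n, kq z l) rfl
  have q3' : (2 : ℝ) * (((R : ℝ) - ((mu z - ∑ l ∈ range n, kq z l : ℤ) : ℝ))
      * (((mu z - ∑ l ∈ range n, kq z l : ℤ) : ℝ) - ((mu z : ℝ) - s z)))
      ≤ ((mu z - ∑ l ∈ range n, kq z l : ℤ) : ℝ)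
        * (3 * ((t z : ℝ) + 1) - ((mu z - ∑ l ∈ range n, kq z l : ℤ) : ℝ)) := by
    exact_mod_cast q3
  have q1' : (0 : ℝ) ≤ ((mu z - ∑ l ∈ range n, kq z l : ℤ) : ℝ) := by exact_mod_cast q1
  have q2' : ((mu z - ∑ l ∈ range n, kq z l : ℤ) : ℝ) ≤ R := by exact_mod_cast q2
  rw [← hAd, ← hd] at q3'
  have hNk : ((mu z - ∑ l ∈ range n, kq z l : ℤ) : ℝ) ≤ N := by
    rw [hN, le_div_iff₀ hR0']
    exact kept_num hR0' (by linarith) (by linarith) q1' q2' q3' hTd
  have hρ : (0 : ℝ) ≤ fr / R := div_nonneg hfr hR0'.le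
  have hC0 : (0 : ℝ) ≤ R + (A - 1) * ((R : ℝ) - 2) / 2 := by
    have : 0 ≤ (A - 1) * ((R : ℝ) - 2) := mul_nonneg (by linarith) (by linarith)
    linarith
  have hrow := Lv.n_row H hz rfl rfl (ρ := fr / R) (N := N)
    (βm := Real.sqrt (R + (A - 1) * ((R : ℝ) - 2) / 2)) hρ (Real.sqrt_nonneg _) hN0 hNk
    (fun v hv hvz => by
      have k1 := Lv.unb_sq H hv
      have k2 := h2 _ (Lv.fn _ (LevC.mem_unV hv).1)
      rw [hvz] at k1
      have k1' : ((unb kp mn g v : ℝ)) ^ 2 ≤ (R : ℝ) + (t z : ℝ) * (t (f v.1) : ℝ) := by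
        exact_mod_cast k1
      have k2' : (2 : ℝ) * ((t (f v.1) : ℝ) + 1) ≤ R := by exact_mod_cast k2
      refine Real.le_sqrt_of_sq_le (k1'.trans ?_)
      have k3 : (t z : ℝ) = A - 1 := by rw [hAd]; ring
      rw [k3]
      have k4 : (A - 1) * (t (f v.1) : ℝ) ≤ (A - 1) * (((R : ℝ) - 2) / 2) :=
        mul_le_mul_of_nonneg_left (by linarith) (by linarith)
      linarith)
    (fun β x hβ hβm hx hx0 => by
      have k1 : β ^ 2 ≤ R + (A - 1) * ((R : ℝ) - 2) / 2 := by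
        have := pow_le_pow_left₀ hβ hβm 2
        rwa [Real.sq_sqrt hC0] at this
      obtain ⟨Ns, hNs⟩ : ∃ Ns : ℝ, Ns = N / R := ⟨_, rfl⟩
      have hNR : N = R * Ns := by rw [hNs]; field_simp
      obtain ⟨r, hr⟩ : ∃ r : ℝ, r = 1 / (R : ℝ) := ⟨_, rfl⟩
      have hr1 : r * R = 1 := by rw [hr]; field_simp
      have hdiv : ∀ u : ℝ, u / R = u * r := fun u => by rw [hr]; ring
      have k2 := hok (β / R) x Ns (div_nonneg hβ hR0'.le) (by
          rw [← hr, hdiv, hdiv]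
          have k3 := mul_le_mul_of_nonneg_left k1 (sq_nonneg r)
          have k4 : r ^ 2 * (R + (A - 1) * ((R : ℝ) - 2) / 2)
              = r * (r * R) + (A * r - r) * ((r * R) - 2 * r) / 2 := by ring
          rw [k4, hr1] at k3
          have k5 : (β * r) ^ 2 = r ^ 2 * β ^ 2 := by ring
          rw [k5]
          linarith) (by
          rw [hx]
          ring) (by
          rw [hNs, hN, hT]
          have k3 : (R : ℝ) + 1 ≠ 0 := by positivity
          field_simp)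
      obtain ⟨k3, k4, k5⟩ := k2
      rw [← hr, hdiv A, hdiv β, hdiv d] at k5
      rw [← hr] at k4
      have e1 : (t z : ℝ) + 1 = A := hAd.symm
      have e2 : (mu z : ℝ) - s z = d := hd.symm
      rw [e1, e2]
      obtain ⟨q, hq⟩ : ∃ q : ℝ, q = N / x := ⟨_, rfl⟩
      have hqx : q * x = R * Ns := by rw [hq, div_mul_cancel₀ _ k3.ne', hNR]
      rw [← hq]
      have hRr : (R : ℝ) * r = 1 := by rw [mul_comm]; exact hr1
      constructor
      · have k6 : 0 ≤ (x - 2 * r * x - 2 * Ns) * R := mul_nonneg (by linarith) hR0'.le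
        have k7 : (x - 2 * r * x - 2 * Ns) * R = (R - 2 - 2 * q) * x := by
          have k8 : (x - 2 * r * x - 2 * Ns) * R
              = x * R - 2 * x * (r * R) - 2 * (R * Ns) := by ring
          rw [k8, hr1, ← hqx]
          ring
        rw [k7] at k6
        have := nonneg_of_mul_nonneg_left k6 k3
        linarith
      · have k6 : 0 < ((x - 2 * Ns) * (Ns - d * r * x)
            - ((A * r + β * r) * Ns * x + r ^ 2 * x ^ 2 / 2)) * (R : ℝ) ^ 2 :=
          mul_pos (by linarith) (by positivity)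
        have k7 : ((x - 2 * Ns) * (Ns - d * r * x)
            - ((A * r + β * r) * Ns * x + r ^ 2 * x ^ 2 / 2)) * (R : ℝ) ^ 2
            = ((R - 2 * q) * (q - d) - ((A + β) * q + 1 / 2)) * x ^ 2 := by
          have k8 : ((x - 2 * Ns) * (Ns - d * r * x)
              - ((A * r + β * r) * Ns * x + r ^ 2 * x ^ 2 / 2)) * (R : ℝ) ^ 2
              = (R * x - 2 * (R * Ns)) * ((R * Ns) - d * x * (r * R))
              - ((A + β) * (r * R) * (R * Ns) * x + (r * R) ^ 2 * x ^ 2 / 2) := by ring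
          rw [k8, hr1, ← hqx]
          ring
        rw [k7] at k6
        have := pos_of_mul_pos_left k6 (by positivity)
        linarith)
  rw [← hAd]
  have hgoal : (R : ℝ) / ((R : ℝ) + 2 * A) * N = T := by
    rw [hN]
    have : (R : ℝ) + 2 * A ≠ 0 := by positivity
    field_simp
  rw [← hd, ← hT, ← hgoal]
  exact mul_le_mul_of_nonneg_left hrow (by positivity)

end RowF2

end Pool.Agent.Lib.MP_f04ccf_co
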