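import Pool.Agent.Lib.MP_f04ccf_co.M.BernL
import Pool.Agent.Lib.MP_f04ccf_co.M.RowF2

/-!
MP_f04ccf_co, TEXT D, regime L: **the rows `3 R < 40 A`, `1320 A + 1000 d ≤ 182 R`, `200 A ≤ 27 R`, all types, factors
at least `2 (1 - 4 A / R)`** (this includes table L8: value one and cliques), every `R ≥ 65`.  For `A ≤ 0.0784 R` these
are all rows; at `A = R / 10` the rows with `d ≤ R / 20`.

* `F2ok_ramp`: the inequality of the strip for the ramp `2 - 8 a` (two kernel checks);
* `LevC.row_stripg`: the row claim of `RowCLg`; `LevC.row_strip8`: for table L8.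
-/

set_option autoImplicit false
set_option maxRecDepth 100000

namespace Pool.Agent.Lib.MP_f04ccf_co

open Finset

attribute [local instance] Classical.propDecidable

namespace StripF

open BernK BernK.Ex BernL BernL.Tr

namespace P1

def f : Ex := (sub (con 2) (mul (con 8) (var 0)))
def x : Ex := (sub (con 1) (mul f (var 3)))
def s : Ex := (add (con 1) (mul (con 2) (var 0)))
def F1 : Ex := (sub (mul (mul (mul (con 2) s) (var 1)) (add (mul (con 2) (var 0)) (mul f (var
      3)))) (mul x (add (mul (var 0) (sub (con 1) (mul (con 2) (var 0)))) (mul (var 3) (sub f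
      s)))))
def gb : Ex := (sub (add (add (var 0) (var 2)) (mul (con 2) (mul (var 2) (var 2)))) (add (mul
      (con 2) (mul (var 0) (var 2))) (mul (con 2) (mul (var 3) (var 3)))))
def gr : Ex := (sub (con 182) (add (mul (con 1320) (var 0)) (mul (con 1000) (var 1))))
def g1 : Ex := (sub (mul (con 100) F1) (mul (con 20) (var 2)))
def mo : Ex := (mul (mul (mul (mul (mul (mul (mul (var 0) (var 0)) (var 0)) (var 1)) (var 2))
      (var 2)) (var 3)) (var 3))

def tr : BernL.Tr := (split 3 (lin [0, 1, 16]) (split 0 (split 3 (split 1 (neg 2) (split 1 (lin [512, 3, 31]) (split 0 (lin [4096, 17, 172]) (lin [2048, 9, 80])))) (split 1 (lin [16, 0, 1]) (split 0 (lin [16384, 51, 488]) (split 1 (lin [8192, 27, 246]) (lin [256, 1, 8]))))) (split 3 (lin [0, 15, 128]) (split 1 (split 0 (lin [2048, 10, 85]) (split 1 (split 1 (lin [2048, 11, 86]) (lin [4096, 21, 158])) (lin [512, 3, 22]))) (lin [2048, 13, 91])))))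

def bx : List (ℕ × ℕ × ℕ) := [(75, 135, 1000), (0, 8, 100), (0, 1, 65), (0, 29, 100)]

def gs : List (Ex × ℕ) := [((add gb (mul (con 0) mo)), 728195000000000000), ((add gr (mul (con 0) mo)), 1090895000000000000000), ((add g1 (mul (con 0) mo)), 600823798900000000000)]

theorem run_ok : BernL.run 100 4 bx gs tr = true := by
  decide +kernel

theorem no (a D e b : ℝ) (h_a : 75 / 1000 ≤ a) (h_a' : a ≤ 135 / 1000) (h_D : 0 / 100 ≤ D) (h_D'
    : D ≤ 8 / 100) (h_e : 0 / 65 ≤ e) (h_e' : e ≤ 1 / 65) (h_b : 0 / 100 ≤ b) (h_b' : b ≤ 29 /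
    100)
(k0 : 0 ≤ a + e + 2 * (e * e) - (2 * (a * e) + 2 * (b * b)))
(k1 : 0 ≤ 182 - (1320 * a + 1000 * D))
(k2 : 0 ≤ 100 * (2 * (1 + 2 * a) * D * (2 * a + (2 - 8 * a) * b) - (1 - (2 - 8 * a) * b) * (a *
      (1 - 2 * a) + b * (2 - 8 * a - (1 + 2 * a)))) - 20 * e) : False := by
  refine BernL.no_point run_ok (fun i => ([a, D, e, b] : List ℝ).getD i 0) ?_ ?_
  · intro i hi
    interval_cases i <;> norm_num [bx] <;> constructor <;> linarith
  · intro g hg
    simp only [gs, List.mem_cons, List.not_mem_nil, or_false] at hg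
    rcases hg with rfl | rfl | rfl <;>
simp only [f, x, s, F1, gb, gr, g1, mo, Ex.ev, List.getD_cons_zero, List.getD_cons_succ,
        Nat.cast_ofNat, Nat.cast_one, Nat.cast_zero] <;>
      linarith [k0, k1, k2]

end P1

namespace P2

def f : Ex := (sub (con 2) (mul (con 8) (var 0)))
def x : Ex := (sub (con 1) (mul f (var 3)))
def s : Ex := (add (con 1) (mul (con 2) (var 0)))
def K0 : Ex := (sub (mul x (sub (sub (con 1) (var 0)) (var 3))) (mul (mul (con 2) (var 1)) (sub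
      (mul (con 2) s) x)))
def gb : Ex := (sub (add (add (var 0) (var 2)) (mul (con 2) (mul (var 2) (var 2)))) (add (mul
      (con 2) (mul (var 0) (var 2))) (mul (con 2) (mul (var 3) (var 3)))))
def gr : Ex := (sub (con 182) (add (mul (con 1320) (var 0)) (mul (con 1000) (var 1))))
def g2 : Ex := (sub (add (mul (mul (mul (mul (mul (con 50) (var 2)) (add (con 1) (var 2))) (add
      (con 1) (var 2))) x) x) (mul (mul (mul (con 20) (var 1)) (add (con 1) (var 2))) (add (con
      1) (var 2)))) (mul (mul (mul (con 100) s) (var 0)) (sub (mul K0 (add (con 1) (var 2)))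
      (mul (mul (mul (con 2) s) (var 0)) (var 2)))))
def mo : Ex := (mul (mul (mul (mul (mul (mul (mul (mul (mul (var 0) (var 0)) (var 0)) (var 0))
      (var 1)) (var 2)) (var 2)) (var 2)) (var 3)) (var 3))

def tr : BernL.Tr := (split 2 (lin [32, 0, 3]) (split 1 (neg 2) (split 0 (split 2 (lin [128, 0, 11]) (split 1 (lin [8, 0, 1]) (split 0 (split 3 (neg 2) (split 3 (neg 2) (lin [16, 0, 1]))) (lin [64, 0, 5])))) (lin [0, 1, 4]))))

def bx : List (ℕ × ℕ × ℕ) := [(75, 135, 1000), (0, 8, 100), (0, 1, 65), (0, 29, 100)]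

def gs : List (Ex × ℕ) := [((add gb (mul (con 0) mo)), 47332675000000000000000), ((add gr (mul (con 0) mo)), 70908175000000000000000000), (g2, 8793041900049000000000000)]

theorem run_ok : BernL.run 116 4 bx gs tr = true := by
  decide +kernel

theorem no (a D e b : ℝ) (h_a : 75 / 1000 ≤ a) (h_a' : a ≤ 135 / 1000) (h_D : 0 / 100 ≤ D) (h_D'
    : D ≤ 8 / 100) (h_e : 0 / 65 ≤ e) (h_e' : e ≤ 1 / 65) (h_b : 0 / 100 ≤ b) (h_b' : b ≤ 29 /
    100)
(k0 : 0 ≤ a + e + 2 * (e * e) - (2 * (a * e) + 2 * (b * b)))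
(k1 : 0 ≤ 182 - (1320 * a + 1000 * D))
(k2 : 0 ≤ 50 * e * (1 + e) * (1 + e) * (1 - (2 - 8 * a) * b) * (1 - (2 - 8 * a) * b) + 20 * D *
      (1 + e) * (1 + e) - 100 * (1 + 2 * a) * a * (((1 - (2 - 8 * a) * b) * (1 - a - b) - 2 * D
      * (2 * (1 + 2 * a) - (1 - (2 - 8 * a) * b))) * (1 + e) - 2 * (1 + 2 * a) * a * e)) : False := by
  refine BernL.no_point run_ok (fun i => ([a, D, e, b] : List ℝ).getD i 0) ?_ ?_
  · intro i hi
    interval_cases i <;> norm_num [bx] <;> constructor <;> linarith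
  · intro g hg
    simp only [gs, List.mem_cons, List.not_mem_nil, or_false] at hg
    rcases hg with rfl | rfl | rfl <;>
simp only [f, x, s, K0, gb, gr, g2, mo, Ex.ev, List.getD_cons_zero, List.getD_cons_succ,
        Nat.cast_ofNat, Nat.cast_one, Nat.cast_zero] <;>
      linarith [k0, k1, k2]

end P2

end StripF

/-- **the inequality of the strip for the ramp** -/
theorem F2ok_ramp {a D e : ℝ} (he : 0 < e) (he1 : 65 * e ≤ 1) (ha : 3 ≤ 40 * a) (ha1 : 200 * a ≤ 27)
    (hD0 : 0 ≤ D) (hDa : D ≤ a) (hr : 1320 * a + 1000 * D ≤ 182) : F2ok a D e (2 - 8 * a) := by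
  have hD : D ≤ 8 / 100 := by
    by_contra h
    push Not at h
    linarith
  refine F2ok_of (lam := 1 / 5) he he1 (by linarith) (by linarith) hD0 (by linarith) (by linarith)
    (fun b hb hb29 hb2 => ?_) fun b hb hb29 hb2 => ?_
  · by_contra hc
    push Not at hc
    exact StripF.P1.no a D e b (by linarith) (by linarith) (by linarith) hD (by linarith)
      (by linarith) (by linarith) (by linarith) (by nlinarith) (by linarith) (by nlinarith)
  · by_contra hc
    push Not at hc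
    exact StripF.P2.no a D e b (by linarith) (by linarith) (by linarith) hD (by linarith)
      (by linarith) (by linarith) (by linarith) (by nlinarith) (by linarith) (by nlinarith)

section RowF2A

variable {ι : Type*} {R : ℤ} {n : ℕ} {t s mu : ℕ → ℤ} {U : Finset ι} {ho : ι → ℕ} {vl : ι → ℤ}
  {kp mn : ℕ → ι → ℤ} {pc ar : ι → ℤ} {be kq NN sg : ℕ → ℕ → ℤ} {nu : ℕ → ι → ℤ} {z y : ℕ}
  {g : ℕ → ι → ℕ} {f : ι → ℕ} {fr fc : ℤ → ℝ}

/-- **the rows `3 R < 40 A`, `1320 A + 1000 d ≤ 182 R`, `200 A ≤ 27 R`**, any factor functions at least the ramp -/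
theorem LevC.row_stripg (Lv : LevC n U ho vl kp mn pc (fun u i => mn i u) g f)
    (H : PCon R n t s mu U ho vl kp mn pc ar be kq NN sg nu) (hR : 65 ≤ R)
    (hA : ∀ i < n, 2 * (t i + 1) ≤ R) (hF : FacOK R fr fc) (hz : z < n)
    (h40 : 3 * R < 40 * (t z + 1)) (h135 : 200 * (t z + 1) ≤ 27 * R)
    (hreg : 1320 * (t z + 1) + 1000 * (mu z - s z) ≤ 182 * R)
    (hr : 2 - 8 * ((t z : ℝ) + 1) / (R : ℝ) ≤ fr (t z + 1))
    (hc : 2 - 8 * ((t z : ℝ) + 1) / (R : ℝ) ≤ fc (t z + 1)) {L : Finset ℕ} :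
    ∑ y ∈ ((range n).erase z).filter (fun y => y ∉ L),
        (((t y : ℝ) + 1) / ((t z : ℝ) + 1 + ((t y : ℝ) + 1)) * (rnE U ho vl pc be g z y : ℝ)
        + ((1 - ((t y : ℝ) + 1) / ((t z : ℝ) + 1 + ((t y : ℝ) + 1)))
            * rnHl n U ho g (thLg R t vl kp mn g fr fc) z y
          - ((t y : ℝ) + 1) / ((t z : ℝ) + 1 + ((t y : ℝ) + 1))
            * rnSl n U ho g (thLg R t vl kp mn g fr fc) z y))
      ≤ (mu z : ℝ) - s z + ((t z : ℝ) + 1) / ((R : ℝ) + 1) := by
  have hR' : (65 : ℝ) ≤ R := by exact_mod_cast hR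
  have hR0' : (0 : ℝ) < R := by linarith
  have htz : (0 : ℝ) ≤ t z := by exact_mod_cast H.t0 z hz
  have hd0' : (0 : ℝ) ≤ (mu z : ℝ) - s z := by exact_mod_cast H.d_nonneg hz
  have h40' : (3 : ℝ) * R < 40 * ((t z : ℝ) + 1) := by exact_mod_cast h40
  have h135' : (200 : ℝ) * ((t z : ℝ) + 1) ≤ 27 * R := by exact_mod_cast h135
  have hreg' : (1320 : ℝ) * ((t z : ℝ) + 1) + 1000 * ((mu z : ℝ) - s z) ≤ 182 * R := by
    exact_mod_cast hreg
  have e0 : thLg R t vl kp mn g fr fc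
      = fun v : ι × ℕ × ℕ => 1 - fLg t vl fr fc v.2.1 v.1 / (R : ℝ) * (unb kp mn g v : ℝ) :=
    funext fun v => by
      rw [thLg_eq]
      rfl
  obtain ⟨a, ha⟩ : ∃ a : ℝ, a = ((t z : ℝ) + 1) / R := ⟨_, rfl⟩
  obtain ⟨D, hD⟩ : ∃ D : ℝ, D = ((mu z : ℝ) - s z) / R := ⟨_, rfl⟩
  have haR : a * R = (t z : ℝ) + 1 := by rw [ha, div_mul_cancel₀ _ hR0'.ne']
  have hDR : D * R = (mu z : ℝ) - s z := by rw [hD, div_mul_cancel₀ _ hR0'.ne']
  rw [← haR] at h40' h135' hreg'
  rw [← hDR] at hreg'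
  have ha8 : 8 * ((t z : ℝ) + 1) / (R : ℝ) = 8 * a := by rw [ha]; ring
  rw [ha8] at hr hc
  have hok : F2ok a D (1 / (R : ℝ)) (2 - 8 * a) := by
    refine F2ok_ramp (by positivity) ?_ ?_ ?_ ?_ ?_ ?_
    · rw [mul_one_div, div_le_one hR0']
      exact hR'
    · have : 0 ≤ (40 * a - 3) * R := by linarith
      have := nonneg_of_mul_nonneg_left this hR0'
      linarith
    · have : 0 ≤ (27 - 200 * a) * R := by linarith
      have := nonneg_of_mul_nonneg_left this hR0'
      linarith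
    · rw [hD]
      exact div_nonneg hd0' hR0'.le
    · have h9 : (mu z : ℝ) - s z ≤ (t z : ℝ) + 1 := by
        have h8 : mu z - s z ≤ t z + 1 := by linarith [H.dt z hz]
        exact_mod_cast h8
      rw [hD, ha]
      exact div_le_div_of_nonneg_right h9 hR0'.le
    · have : 0 ≤ (182 - (1320 * a + 1000 * D)) * R := by linarith
      have := nonneg_of_mul_nonneg_left this hR0'
      linarith
  have ha1 : 200 * a ≤ 27 := by
    have : 0 ≤ (27 - 200 * a) * R := by linarith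
    have := nonneg_of_mul_nonneg_left this hR0'
    linarith
  rw [ha, hD] at hok
  have h1 := Lv.rowF2 H hR hA hz (by linarith) (F := fLg t vl fr fc)
    (fun m _ u _ => hF.nonneg (t := t) (vl := vl) m u)
    (fun m hm u _ => hF.fac (vl := vl) (by linarith [H.t0 _ hm]) (hA _ hm) u)
    (fr := 2 - 8 * (((t z : ℝ) + 1) / R)) (by rw [← ha]; linarith)
    (fun v _ _ => by
      rw [← ha]
      unfold fLg
      split_ifs
      · exact hr
      · exact hc) hok
  rw [e0]
  refine le_trans (sum_le_sum_of_subset_of_nonneg (filter_subset _ _) fun y hy _ => ?_) h1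
  have hyn := mem_range.1 (mem_of_mem_erase hy)
  have hty : (0 : ℝ) ≤ t y := by exact_mod_cast H.t0 y hyn
  refine Lv.cell_nonneg H hz hyn (fun v hv => ?_) (by positivity) ?_
  · have := Lv.thLg_ok H hR hA hF hv
    rw [e0] at this
    exact this
  · rw [div_le_one (by positivity)]
    linarith

/-- **the rows `3 R < 40 A`, `1320 A + 1000 d ≤ 182 R`, `200 A ≤ 27 R` of table L8** -/
theorem LevC.row_strip8 (Lv : LevC n U ho vl kp mn pc (fun u i => mn i u) g f)
    (H : PCon R n t s mu U ho vl kp mn pc ar be kq NN sg nu) (hR : 65 ≤ R)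
    (hA : ∀ i < n, 2 * (t i + 1) ≤ R) (hz : z < n)
    (h40 : 3 * R < 40 * (t z + 1)) (h135 : 200 * (t z + 1) ≤ 27 * R)
    (hreg : 1320 * (t z + 1) + 1000 * (mu z - s z) ≤ 182 * R) {L : Finset ℕ} :
    ∑ y ∈ ((range n).erase z).filter (fun y => y ∉ L),
        (((t y : ℝ) + 1) / ((t z : ℝ) + 1 + ((t y : ℝ) + 1)) * (rnE U ho vl pc be g z y : ℝ)
        + ((1 - ((t y : ℝ) + 1) / ((t z : ℝ) + 1 + ((t y : ℝ) + 1)))
            * rnHl n U ho g (thLg R t vl kp mn g (fL8 R) (fLc R)) z y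
          - ((t y : ℝ) + 1) / ((t z : ℝ) + 1 + ((t y : ℝ) + 1))
            * rnSl n U ho g (thLg R t vl kp mn g (fL8 R) (fLc R)) z y))
      ≤ (mu z : ℝ) - s z + ((t z : ℝ) + 1) / ((R : ℝ) + 1) := by
  have hR' : (65 : ℝ) ≤ R := by exact_mod_cast hR
  have hR0' : (0 : ℝ) < R := by linarith
  have h5 : 5 ≤ t z + 1 := by linarith
  have h3 : ¬ 2 * (t z + 1) ^ 3 < R := by
    rw [not_lt]
    have h6 : (25 : ℤ) ≤ (t z + 1) ^ 2 := by nlinarith
    nlinarith
  have hcast : (((t z + 1 : ℤ)) : ℝ) = (t z : ℝ) + 1 := by push_cast; ring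
  obtain ⟨a, ha⟩ : ∃ a : ℝ, a = ((t z : ℝ) + 1) / R := ⟨_, rfl⟩
  have haR : a * R = (t z : ℝ) + 1 := by rw [ha, div_mul_cancel₀ _ hR0'.ne']
  have h40' : (3 : ℝ) * R < 40 * ((t z : ℝ) + 1) := by exact_mod_cast h40
  rw [← haR] at h40'
  have ha0 : 3 ≤ 40 * a := by
    have : 0 ≤ (40 * a - 3) * R := by linarith
    have := nonneg_of_mul_nonneg_left this hR0'
    linarith
  have e8 : 8 * ((t z : ℝ) + 1) / (R : ℝ) = 8 * a := by rw [ha]; ring
  have e4 : 4 * ((t z : ℝ) + 1) / (R : ℝ) = 4 * a := by rw [ha]; ring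
  have e2 : 2 * ((t z : ℝ) + 1) / (R : ℝ) = 2 * a := by rw [ha]; ring
  refine Lv.row_stripg H hR hA (facOK_L8 (by linarith)) hz h40 h135 hreg ?_ ?_
  · rw [e8]
    unfold fL8
    rw [if_neg h3]
    split_ifs with h7 h8
    · linarith
    · rw [hcast, e2]
      linarith
    · exact absurd (hA z hz) h8
  · rw [e8]
    unfold fLc
    rw [if_neg h3]
    split_ifs with h7
    · rw [hcast, e4]
      exact le_min (by linarith) (by linarith)
    · exfalso
      linarith

end RowF2A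

end Pool.Agent.Lib.MP_f04ccf_co
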