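import Pool.Agent.Lib.MP_f04ccf_co.M.RowF

/-!
MP_f04ccf_co, TEXT D, regime H: **the row claim from a hub cell and one multiplier per row for the thirds**
(18's (F1-H), (F2-H) and 69's (F3-H) in one statement).

`z` a row outside the light rows `L`, the hub `b` a heavy row, `P` the other heavy partners (the thirds),
`#touch` the touching units hosted at `z`, `d = mu z - s z`.

* `PCon.heavy_massH`: `∑_{y ∈ P} (t y + 1) + #touch ≤ R - A z - A b`;
* `PCon.row_F3H`: the hub cell has share sum `≤ E₁`, every third cell has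
  `sh y ≤ α (B y - u y) + ζ u y + γ e y`, and
  `E₁ + α (R - A z - A b - G) + ζ G + γ e ≤ d + δ`, `G = ∑ u y + #touch`, `∑ e y ≤ e`;
* `PCon.cells_card`: the numbers of the units of the cells sum to the number of the units of the row;
* `PCon.row_F3`: the same without a hub (regime L, and regime H when the hub is light).
-/

set_option autoImplicit false

namespace Pool.Agent.Lib.MP_f04ccf_co

open Finset

attribute [local instance] Classical.propDecidable

section RowF3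

variable {ι κ : Type*} {R : ℤ} {n : ℕ} {t s mu : ℕ → ℤ} {U : Finset ι} {ho : ι → ℕ} {vl : ι → ℤ}
  {kp mn : ℕ → ι → ℤ} {pc ar : ι → ℤ} {be kq NN sg : ℕ → ℕ → ℤ} {nu : ℕ → ι → ℤ}
  {V : Finset κ} {it : κ → ι} {C C' : κ → Finset ℕ} {bt ht : κ → ℕ → ℤ}

/-- **the mass of the thirds** -/
theorem PCon.heavy_massH (H : PCon R n t s mu U ho vl kp mn pc ar be kq NN sg nu) {h : κ → ℕ}
    {L : Finset ℕ} (hL : ∀ i ∈ L, i < n ∧ s i + ((V.filter fun v => i ∈ C v).card : ℤ) ≤ 0)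
    {z b : ℕ} (hz : z < n) (hzL : z ∉ L) (hb : b < n) (hbL : b ∉ L) (hbz : b ≠ z) {P : Finset ℕ}
    (hP : ∀ y ∈ P, y < n ∧ y ∉ L ∧ y ≠ z ∧ y ≠ b) :
    ∑ y ∈ P, (t y + 1) + (((touchU V h C L).filter fun v => h v = z).card : ℤ)
      ≤ R - (t z + 1) - (t b + 1) := by
  have h1 : b ∉ P := fun h => (hP b h).2.2.2 rfl
  have h2 := H.heavy_mass (h := h) (C := C) hL hz hzL (P := insert b P) fun y hy => by
    rcases mem_insert.1 hy with rfl | hy
    · exact ⟨hb, hbL, hbz⟩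
    · exact ⟨(hP y hy).1, (hP y hy).2.1, (hP y hy).2.2.1⟩
  rw [sum_insert h1] at h2
  linarith

/-- **(F3-H)** -/
theorem PCon.row_F3H (H : PCon R n t s mu U ho vl kp mn pc ar be kq NN sg nu)
    (hV : UnP R n t U ho vl kp mn V it C' bt ht) {z b : ℕ} (hz : z < n) (hbn : b < n)
    (hbz : b ≠ z) {L : Finset ℕ}
    (hL : ∀ i ∈ L, i < n ∧ s i + ((V.filter fun v => i ∈ C v).card : ℤ) ≤ 0) (hzL : z ∉ L)
    (hbL : b ∉ L) {co : ℕ → κ → ℝ} {δ α ζ γ G E₁ e : ℝ} {pr : κ → ℕ} {P : Finset ℕ}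
    {u e' : ℕ → ℝ} (hα : 0 ≤ α) (hγ : 0 ≤ γ)
    (hPP : ∀ y ∈ P, y < n ∧ y ∉ L ∧ y ≠ z ∧ y ≠ b)
    (hP : ∀ v ∈ freeU V (fun v => ho (it v)) C L, ho (it v) = z ∨ z ∈ C v → pr v = b ∨ pr v ∈ P)
    (hc0 :
      ∑ v ∈ (freeU V (fun v => ho (it v)) C L).filter (fun v => ho (it v) = z ∧ pr v = b),
          (1 - co z v)
        + ∑ v ∈ (freeU V (fun v => ho (it v)) C L).filter (fun v => z ∈ C v ∧ pr v = b),
          (1 - co z v) ≤ E₁)
    (hc : ∀ y ∈ P,
      ∑ v ∈ (freeU V (fun v => ho (it v)) C L).filter (fun v => ho (it v) = z ∧ pr v = y),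
          (1 - co z v)
        + ∑ v ∈ (freeU V (fun v => ho (it v)) C L).filter (fun v => z ∈ C v ∧ pr v = y),
          (1 - co z v) ≤ α * (((t y + 1 : ℤ) : ℝ) - u y) + ζ * u y + γ * e' y)
    (hG : ∑ y ∈ P, u y
      + (((touchU V (fun v => ho (it v)) C L).filter fun v => ho (it v) = z).card : ℝ) = G)
    (hζ : 0 ≤ ζ) (he : ∑ y ∈ P, e' y ≤ e)
    (hb : E₁ + α * (((R - (t z + 1) - (t b + 1) : ℤ) : ℝ) - G) + ζ * G + γ * e
      ≤ ((mu z : ℝ) - s z) + δ) :
    (s z : ℝ) + (((freeU V (fun v => ho (it v)) C L).filter fun v => z ∈ C v).card : ℝ)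
      ≤ ∑ v ∈ (freeU V (fun v => ho (it v)) C L).filter (fun v => ho (it v) = z), co z v
        + ∑ v ∈ (freeU V (fun v => ho (it v)) C L).filter (fun v => z ∈ C v), co z v
        + (((touchU V (fun v => ho (it v)) C L).filter fun v => ho (it v) = z).card : ℝ) + δ := by
  have hbP : b ∉ P := fun h => (hPP b h).2.2.2 rfl
  refine H.row_cells hV hz (P := insert b P) (pr := pr)
    (β := fun y => if y = b then E₁
      else α * (((t y + 1 : ℤ) : ℝ) - u y) + ζ * u y + γ * e' y)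
    (fun v h1 h2 => mem_insert.2 (hP v h1 h2)) (fun y hy => ?_) ?_
  · rcases mem_insert.1 hy with rfl | hy
    · rw [if_pos rfl]
      exact hc0
    · rw [if_neg fun h : y = b => hbP (h ▸ hy)]
      exact hc y hy
  · rw [sum_insert hbP, if_pos rfl]
    have e1 : ∑ y ∈ P, (if y = b then E₁
        else α * (((t y + 1 : ℤ) : ℝ) - u y) + ζ * u y + γ * e' y)
        = ∑ y ∈ P, (α * (((t y + 1 : ℤ) : ℝ) - u y) + ζ * u y + γ * e' y) :=
      sum_congr rfl fun y hy => if_neg fun h : y = b => hbP (h ▸ hy)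
    rw [e1, sum_add_distrib, sum_add_distrib, ← mul_sum, ← mul_sum, ← mul_sum, sum_sub_distrib]
    have h1 := H.heavy_massH (h := fun v => ho (it v)) hL hz hzL hbn hbL hbz hPP
    have h2 : (∑ y ∈ P, (((t y + 1 : ℤ)) : ℝ))
        + (((touchU V (fun v => ho (it v)) C L).filter fun v => ho (it v) = z).card : ℝ)
        ≤ ((R - (t z + 1) - (t b + 1) : ℤ) : ℝ) := by
      exact_mod_cast h1
    have h3 : (0 : ℝ)
        ≤ (((touchU V (fun v => ho (it v)) C L).filter fun v => ho (it v) = z).card : ℝ) :=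
      Nat.cast_nonneg _
    have h4 : α * (∑ y ∈ P, (((t y + 1 : ℤ)) : ℝ) - ∑ y ∈ P, u y)
        ≤ α * (((R - (t z + 1) - (t b + 1) : ℤ) : ℝ) - G) := by
      refine mul_le_mul_of_nonneg_left ?_ hα
      linarith
    have h5 : ζ * ∑ y ∈ P, u y ≤ ζ * G := mul_le_mul_of_nonneg_left (by linarith) hζ
    have h6 : γ * ∑ y ∈ P, e' y ≤ γ * e := mul_le_mul_of_nonneg_left he hγ
    linarith

/-- **(F3)** without a hub -/
theorem PCon.row_F3 (H : PCon R n t s mu U ho vl kp mn pc ar be kq NN sg nu)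
    (hV : UnP R n t U ho vl kp mn V it C' bt ht) {z : ℕ} (hz : z < n) {L : Finset ℕ}
    (hL : ∀ i ∈ L, i < n ∧ s i + ((V.filter fun v => i ∈ C v).card : ℤ) ≤ 0) (hzL : z ∉ L)
    {co : ℕ → κ → ℝ} {δ α ζ γ G e : ℝ} {pr : κ → ℕ} {P : Finset ℕ} {u e' : ℕ → ℝ}
    (hα : 0 ≤ α) (hζ : 0 ≤ ζ) (hγ : 0 ≤ γ) (hPP : ∀ y ∈ P, y < n ∧ y ∉ L ∧ y ≠ z)
    (hP : ∀ v ∈ freeU V (fun v => ho (it v)) C L, ho (it v) = z ∨ z ∈ C v → pr v ∈ P)
    (hc : ∀ y ∈ P,
      ∑ v ∈ (freeU V (fun v => ho (it v)) C L).filter (fun v => ho (it v) = z ∧ pr v = y),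
          (1 - co z v)
        + ∑ v ∈ (freeU V (fun v => ho (it v)) C L).filter (fun v => z ∈ C v ∧ pr v = y),
          (1 - co z v) ≤ α * (((t y + 1 : ℤ) : ℝ) - u y) + ζ * u y + γ * e' y)
    (hG : ∑ y ∈ P, u y
      + (((touchU V (fun v => ho (it v)) C L).filter fun v => ho (it v) = z).card : ℝ) = G)
    (he : ∑ y ∈ P, e' y ≤ e)
    (hb : α * (((R - (t z + 1) : ℤ) : ℝ) - G) + ζ * G + γ * e ≤ ((mu z : ℝ) - s z) + δ) :
    (s z : ℝ) + (((freeU V (fun v => ho (it v)) C L).filter fun v => z ∈ C v).card : ℝ)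
      ≤ ∑ v ∈ (freeU V (fun v => ho (it v)) C L).filter (fun v => ho (it v) = z), co z v
        + ∑ v ∈ (freeU V (fun v => ho (it v)) C L).filter (fun v => z ∈ C v), co z v
        + (((touchU V (fun v => ho (it v)) C L).filter fun v => ho (it v) = z).card : ℝ) + δ := by
  refine H.row_cells hV hz hP hc ?_
  have h1 := H.heavy_mass (h := fun v => ho (it v)) hL hz hzL hPP
  have h2 : (∑ y ∈ P, (((t y + 1 : ℤ)) : ℝ))
      + (((touchU V (fun v => ho (it v)) C L).filter fun v => ho (it v) = z).card : ℝ)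
      ≤ ((R - (t z + 1) : ℤ) : ℝ) := by
    exact_mod_cast h1
  have h3 : (0 : ℝ)
      ≤ (((touchU V (fun v => ho (it v)) C L).filter fun v => ho (it v) = z).card : ℝ) :=
    Nat.cast_nonneg _
  rw [sum_add_distrib, sum_add_distrib, ← mul_sum, ← mul_sum, ← mul_sum, sum_sub_distrib]
  have h4 : α * (∑ y ∈ P, (((t y + 1 : ℤ)) : ℝ) - ∑ y ∈ P, u y)
      ≤ α * (((R - (t z + 1) : ℤ) : ℝ) - G) := by
    refine mul_le_mul_of_nonneg_left ?_ hα
    linarith
  have h5 : ζ * ∑ y ∈ P, u y ≤ ζ * G := mul_le_mul_of_nonneg_left (by linarith) hζ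
  have h6 : γ * ∑ y ∈ P, e' y ≤ γ * e := mul_le_mul_of_nonneg_left he hγ
  linarith

/-- the units of the row, cell by cell -/
theorem cells_card {F : Finset κ} {h : κ → ℕ} {z : ℕ} {pr : κ → ℕ} {P : Finset ℕ}
    (hP : ∀ v ∈ F, h v = z ∨ z ∈ C v → pr v ∈ P) :
    ∑ y ∈ P, ((F.filter fun v => h v = z ∧ pr v = y).card
        + (F.filter fun v => z ∈ C v ∧ pr v = y).card)
      = (F.filter fun v => h v = z).card + (F.filter fun v => z ∈ C v).card := by
  rw [sum_add_distrib]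
  congr 1
  · rw [card_eq_sum_card_fiberwise (f := pr) (t := P) fun v hv => ?_]
    · exact sum_congr rfl fun y _ => by rw [filter_filter]
    · obtain ⟨h1, h2⟩ := mem_filter.1 (mem_coe.1 hv)
      exact mem_coe.2 (hP v h1 (Or.inl h2))
  · rw [card_eq_sum_card_fiberwise (f := pr) (t := P) fun v hv => ?_]
    · exact sum_congr rfl fun y _ => by rw [filter_filter]
    · obtain ⟨h1, h2⟩ := mem_filter.1 (mem_coe.1 hv)
      exact mem_coe.2 (hP v h1 (Or.inr h2))

end RowF3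

end Pool.Agent.Lib.MP_f04ccf_co
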