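import Pool.Agent.Lib.MP_f04ccf_co.M.SameT

/-!
MP_f04ccf_co, note 17272 (helper59): the row test with the columns of a SET `J` of rows and slope `q`.

* `RowM`: the test of `z`, columns of the rows of `J`, points of the items `K`, slope `q`, extra term `EX`;
* `Fam.rowM_of`: it holds with the free class edges of the columns outside the used points `W` and the edges from
  the used members outside the columns to the members of `z` as extra term.
-/

set_option autoImplicit false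

namespace Pool.Agent.Lib.MP_f04ccf_co

open Finset

attribute [local instance] Classical.propDecidable

section RowMul

variable {V : Type*} {G : SimpleGraph V} {Z T : Finset V} {hm : V → V} {r m t : ℕ}
  {A : Finset V} {S : V → Finset V} {U : V → Finset (Itm V)}

variable (G Z T hm S U r) in
/-- the test of `z` with the points of the items `K` and the columns of the rows of `J`, slope `q`, with the
extra term `EX` on the left and the missing pairs of the points outside the columns kept -/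
def RowM (q : ℤ) (K : Finset (Itm V)) (X : Finset V → Finset V) (z : V) (J : Finset V) (EX : ℤ) : Prop :=
  ((r : ℤ) - 1) * (2 * q * (((S z).card : ℤ) + ∑ j ∈ J, ((CP G Z T S j).card : ℤ)
        + (K.biUnion (rpts (tlo G T hm) X z) \ J.biUnion (CP G Z T S)).card) - r * q * (q + 1))
      + 2 * ∑ u ∈ K, (((CP G Z T S z).card : ℤ) * ikp (tlo G T hm) z u
          - (rcl G (CP G Z T S) (tlo G T hm) X z u).card)
      + 2 * ∑ j ∈ J, ∑ u ∈ U z, (((CP G Z T S j).card : ℤ) * ikp (tlo G T hm) j u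
          - (CP G Z T S j ∩ icl G (CP G Z T S) (tlo G T hm) j u).card)
      + ∑ j ∈ J, ∑ i ∈ J.erase j, ∑ v ∈ CP G Z T S i, (dg G (CP G Z T S j) v : ℤ)
      + EX
      ≤ NE G (S z)
        + NE G (K.biUnion (rpts (tlo G T hm) X z) \ J.biUnion (CP G Z T S))
        + 2 * ((K.biUnion (rpts (tlo G T hm) X z) \ J.biUnion (CP G Z T S)).card : ℤ) * (S z).card
        + 2 * (∑ j ∈ J, ((CP G Z T S j).card : ℤ)) * (S z).card
        + ∑ j ∈ J, ∑ i ∈ J.erase j, ((CP G Z T S i).card : ℤ) * (CP G Z T S j).card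
        + 2 * ∑ j ∈ J, ∑ v ∈ K.biUnion (rpts (tlo G T hm) X z) \ J.biUnion (CP G Z T S),
            (nd G (CP G Z T S j) v : ℤ)
        + 2 * ∑ j ∈ J, ((CP G Z T S j ∩ K.biUnion (rpts (tlo G T hm) X z)).card : ℤ)
          * (pcz (tlo G T hm) j (U z)).card

lemma RowM.mono {q : ℤ} {K : Finset (Itm V)} {X : Finset V → Finset V} {z : V} {J : Finset V} {EX EX' : ℤ}
    (h : RowM G Z T hm r S U q K X z J EX) (h' : EX' ≤ EX) : RowM G Z T hm r S U q K X z J EX' := by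
  unfold RowM at h ⊢
  linarith

/-- **the row test with the columns of a set of rows** -/
theorem Fam.rowM_of (hF : PFrame G r m t Z T) (hP : PG G r) (hC : CSys G Z T hm A S)
    (hW : WSysT G (co G) A (CP G Z T S) (HP G Z T S) (tlo G T hm))
    (h : ∀ x ∈ A, Fam (co G) (CP G Z T S) (HP G Z T S) (tlo G T hm) x (U x)) (q : ℤ)
    {z : V} (hz : z ∈ A) {J : Finset V} (hJ : J ⊆ A) (hzJ : z ∉ J) {K : Finset (Itm V)}
    (hK : K ⊆ (A.erase z).biUnion U) (hk : ∀ u ∈ K, ikp (tlo G T hm) z u ≠ 0)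
    {X : Finset V → Finset V} (hX : ∀ Q, X Q ⊆ oth (tlo G T hm) z Q)
    {F : V → Finset V} (hF1 : ∀ j ∈ J, F j ⊆ CP G Z T S z)
    (hF2 : ∀ j ∈ J, ∀ e ∈ pcz (tlo G T hm) j (U z), e.2 ∉ F j) :
    RowM G Z T hm r S U q K X z J
      (2 * ∑ j ∈ J, ∑ c ∈ CP G Z T S j \ K.biUnion (rpts (tlo G T hm) X z), (dg G (F j) c : ℤ)
        + 2 * ∑ v ∈ K.biUnion (rpts (tlo G T hm) X z) \ J.biUnion (CP G Z T S),
          (dg G (HP G Z T S z) v : ℤ)) := by
  unfold RowM
  obtain ⟨Y, hYd⟩ : ∃ Y, Y = J.biUnion (CP G Z T S) := ⟨_, rfl⟩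
  obtain ⟨W, hWd⟩ : ∃ W, W = K.biUnion (rpts (tlo G T hm) X z) := ⟨_, rfl⟩
  rw [← hWd, ← hYd]
  have hK' : K ⊆ (A \ {z}).biUnion U := by
    rwa [sdiff_singleton_eq_erase]
  have hfil : (K.filter fun u => ikp (tlo G T hm) z u ≠ 0) = K := filter_true_of_mem hk
  have hg := Fam.grp hW h (D := A.erase z) (erase_subset _ _) hK (z := z) hX
  rw [hfil] at hg
  have hsb : ({z} : Finset V) ⊆ A := by
    simpa using hz
  have hWS : Disjoint (S z) W := by
    have h2 := Fam.disj_pts hC h hsb hK' (mem_singleton_self z)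
    rw [hWd]
    refine h2.mono_right (biUnion_mono fun u hu => ?_)
    obtain ⟨x, hx, hux⟩ := mem_biUnion.1 (hK hu)
    exact (h x (mem_of_mem_erase hx)).rpts_sub hX
  have hne : ∀ j ∈ J, z ≠ j := fun j hj h0 => hzJ (h0 ▸ hj)
  have hYS : ∀ j ∈ J, Disjoint (CP G Z T S j) (S z) := fun j hj =>
    ((hC.disj hz (hJ hj) (hne j hj)).mono_right fun v hv => (mem_CP.1 hv).1).symm
  have hCC : ∀ i ∈ J, ∀ j ∈ J, i ≠ j → Disjoint (CP G Z T S i) (CP G Z T S j) := fun i hi j hj hij =>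
    (hC.disj (hJ hi) (hJ hj) hij).mono (fun v hv => (mem_CP.1 hv).1) fun v hv => (mem_CP.1 hv).1
  have hD : ∀ j ∈ J, Disjoint (CP G Z T S j) (S z ∪ W \ Y) := by
    intro j hj
    rw [disjoint_union_right]
    refine ⟨hYS j hj, disjoint_left.2 fun v hv hv' => (mem_sdiff.1 hv').2 ?_⟩
    rw [hYd]
    exact mem_biUnion.2 ⟨j, hj, hv⟩
  have hSW : Disjoint (S z) (W \ Y) := hWS.mono_right sdiff_subset
  have h1 := hP ((S z ∪ W \ Y) ∪ J.biUnion (CP G Z T S)) q
  have h2 := E_add_NE (G := G) ((S z ∪ W \ Y) ∪ J.biUnion (CP G Z T S))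
  have h3 := NE_biUnion (G := G) J (CP G Z T S) (S z ∪ W \ Y) hCC hD
  have h4 : (((S z ∪ W \ Y) ∪ J.biUnion (CP G Z T S)).card : ℤ)
      = (S z).card + (W \ Y).card + ∑ j ∈ J, ((CP G Z T S j).card : ℤ) := by
    rw [card_union_of_disjoint ((disjoint_biUnion_right _ _ _).2 fun j hj => (hD j hj).symm),
      card_union_of_disjoint hSW, card_biUnion hCC]
    push_cast
    rfl
  have h5 : ∑ j ∈ J, (NE G (CP G Z T S j) : ℤ) = 0 :=
    sum_eq_zero fun j hj => by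
      have := NE_clq (hC.CP_clq hF (hJ hj))
      rw [this]
      rfl
  have h6 : (NE G (S z ∪ W \ Y) : ℤ) = NE G (S z) + NE G (W \ Y)
      + 2 * ((W \ Y).card * (S z).card - ∑ v ∈ W \ Y, (dg G (S z) v : ℤ)) := by
    rw [NE_union hSW, ← sum_dg_nd hSW]
    push_cast
    ring
  -- the columns
  have h7 : ∀ j ∈ J, ∑ v ∈ S z ∪ W \ Y, (nd G (CP G Z T S j) v : ℤ)
      = (S z).card * (CP G Z T S j).card - ∑ c ∈ CP G Z T S j, (dg G (S z) c : ℤ)
        + ∑ v ∈ W \ Y, (nd G (CP G Z T S j) v : ℤ) := by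
    intro j hj
    rw [sum_union hSW, sum_dg_nd (hYS j hj)]
    have h8 : ∑ v ∈ S z, (dg G (CP G Z T S j) v : ℤ) = ∑ c ∈ CP G Z T S j, (dg G (S z) c : ℤ) := by
      have := dg_comm G (S z) (CP G Z T S j)
      exact_mod_cast this
    rw [h8]
  have h8 : ∑ j ∈ J, ∑ v ∈ S z ∪ W \ Y, (nd G (CP G Z T S j) v : ℤ)
      = (∑ j ∈ J, ((CP G Z T S j).card : ℤ)) * (S z).card
        - ∑ j ∈ J, ∑ c ∈ CP G Z T S j, (dg G (S z) c : ℤ)
        + ∑ j ∈ J, ∑ v ∈ W \ Y, (nd G (CP G Z T S j) v : ℤ) := by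
    rw [sum_congr rfl h7, sum_add_distrib, sum_sub_distrib, sum_mul]
    congr 2
    exact sum_congr rfl fun j _ => mul_comm _ _
  have h9 : ∑ j ∈ J, ∑ i ∈ J.erase j, ∑ v ∈ CP G Z T S i, (nd G (CP G Z T S j) v : ℤ)
      = ∑ j ∈ J, ∑ i ∈ J.erase j, ((CP G Z T S i).card : ℤ) * (CP G Z T S j).card
        - ∑ j ∈ J, ∑ i ∈ J.erase j, ∑ v ∈ CP G Z T S i, (dg G (CP G Z T S j) v : ℤ) := by
    rw [← sum_sub_distrib]
    refine sum_congr rfl fun j hj => ?_
    rw [← sum_sub_distrib]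
    refine sum_congr rfl fun i hi => ?_
    rw [sum_dg_nd (hCC j hj i (mem_of_mem_erase hi) (ne_of_mem_erase hi).symm)]
  rw [h5, h6, h8, h9] at h3
  rw [h4] at h1 h2
  -- the hits of the used items
  have h10 : ∑ u ∈ K, (((CP G Z T S z).card : ℤ) * ikp (tlo G T hm) z u
      - (rcl G (CP G Z T S) (tlo G T hm) X z u).card)
      ≤ ∑ v ∈ W, (dg G (CP G Z T S z) v : ℤ) := by
    have h6 := hg.sum_le (W := W) (by rw [hWd])
    have h7 : ∑ c ∈ CP G Z T S z, (dg G W c : ℤ) = ∑ v ∈ W, (dg G (CP G Z T S z) v : ℤ) := by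
      have := dg_comm G (CP G Z T S z) W
      exact_mod_cast this
    rw [h7] at h6
    refine le_trans (le_of_eq ?_) h6
    refine sum_congr rfl fun u _ => ?_
    rw [sum_rcl]
  have h11 : ∀ v, (dg G (S z) v : ℤ) = dg G (CP G Z T S z) v + dg G (HP G Z T S z) v := by
    intro v
    have h7 : dg G (S z) v = dg G (CP G Z T S z) v + dg G (HP G Z T S z) v := by
      conv_lhs => rw [← CP_union_HP (G := G) (Z := Z) (T := T) (S := S) (x := z)]
      unfold dg
      rw [filter_union, card_union_of_disjoint (disjoint_filter_filter CP_HP_disjoint)]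
    exact_mod_cast h7
  -- the hits of the items of `z` at the columns
  have h12 : ∀ j ∈ J, ∑ u ∈ U z, (((CP G Z T S j).card : ℤ) * ikp (tlo G T hm) j u
          - (CP G Z T S j ∩ icl G (CP G Z T S) (tlo G T hm) j u).card)
        + ∑ c ∈ CP G Z T S j \ W, (dg G (F j) c : ℤ)
      ≤ ∑ v ∈ CP G Z T S j \ W, (dg G (S z) v : ℤ)
        + ∑ v ∈ CP G Z T S j ∩ W, ((dg G (HP G Z T S z) v : ℤ) + (pcz (tlo G T hm) j (U z)).card) := by
    intro j hj
    rw [← sum_cols, ← sum_sdiff (s₁ := CP G Z T S j ∩ W) (s₂ := CP G Z T S j) inter_subset_left,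
      sdiff_inter_self_left]
    have h8 : ∑ c ∈ CP G Z T S j \ W, (∑ u ∈ U z, ((ikp (tlo G T hm) j u : ℤ)
          - if c ∈ icl G (CP G Z T S) (tlo G T hm) j u then 1 else 0))
          + ∑ c ∈ CP G Z T S j \ W, (dg G (F j) c : ℤ)
        ≤ ∑ v ∈ CP G Z T S j \ W, (dg G (S z) v : ℤ) := by
      rw [← sum_add_distrib]
      refine sum_le_sum fun c hc => ?_
      have h8 := Fam.col_see hW h hz (z := j) (W := ∅) (F := F j) (empty_subset _)
        (fun v hv => absurd hv (notMem_empty _)) (hF1 j hj) (hF2 j hj) (mem_sdiff.1 hc).1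
      have h9 : (0 : ℤ) ≤ dg G (∅ : Finset V) c := by positivity
      linarith
    have h9 : ∑ c ∈ CP G Z T S j ∩ W, (∑ u ∈ U z, ((ikp (tlo G T hm) j u : ℤ)
          - if c ∈ icl G (CP G Z T S) (tlo G T hm) j u then 1 else 0))
        ≤ ∑ v ∈ CP G Z T S j ∩ W, ((dg G (HP G Z T S z) v : ℤ) + (pcz (tlo G T hm) j (U z)).card) :=
      sum_le_sum fun c hc => Fam.hp_see hW h hz (mem_inter.1 hc).1
    linarith
  have h13 := sum_le_sum h12
  rw [sum_add_distrib, sum_add_distrib] at h13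
  have h14 : ∑ j ∈ J, ∑ v ∈ CP G Z T S j ∩ W,
        ((dg G (HP G Z T S z) v : ℤ) + (pcz (tlo G T hm) j (U z)).card)
      = ∑ j ∈ J, ∑ v ∈ CP G Z T S j ∩ W, (dg G (HP G Z T S z) v : ℤ)
        + ∑ j ∈ J, ((CP G Z T S j ∩ W).card : ℤ) * (pcz (tlo G T hm) j (U z)).card := by
    rw [← sum_add_distrib]
    refine sum_congr rfl fun j _ => ?_
    rw [sum_add_distrib, sum_const, nsmul_eq_mul]
  rw [h14] at h13
  have h15 : ∑ j ∈ J, ∑ c ∈ CP G Z T S j, (dg G (S z) c : ℤ)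
      = ∑ j ∈ J, ∑ v ∈ CP G Z T S j \ W, (dg G (S z) v : ℤ)
        + ∑ j ∈ J, ∑ v ∈ CP G Z T S j ∩ W, (dg G (S z) v : ℤ) := by
    rw [← sum_add_distrib]
    refine sum_congr rfl fun j _ => ?_
    rw [← sum_sdiff (s₁ := CP G Z T S j ∩ W) (s₂ := CP G Z T S j) inter_subset_left,
      sdiff_inter_self_left]
  have h16 : ∀ f : V → ℤ, ∑ v ∈ Y ∩ W, f v = ∑ j ∈ J, ∑ v ∈ CP G Z T S j ∩ W, f v := by
    intro f
    have e1 : Y ∩ W = J.biUnion fun j => CP G Z T S j ∩ W := by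
      ext v
      rw [hYd]
      simp only [mem_inter, mem_biUnion]
      constructor
      · rintro ⟨⟨j, hj, hv⟩, hv'⟩
        exact ⟨j, hj, hv, hv'⟩
      · rintro ⟨j, hj, hv, hv'⟩
        exact ⟨⟨j, hj, hv⟩, hv'⟩
    rw [e1, sum_biUnion]
    exact fun i hi j hj hij => (hCC i hi j hj hij).mono inter_subset_left inter_subset_left
  have h17 : ∑ v ∈ W, (dg G (CP G Z T S z) v : ℤ)
      = ∑ j ∈ J, ∑ v ∈ CP G Z T S j ∩ W, (dg G (CP G Z T S z) v : ℤ)
        + ∑ v ∈ W \ Y, (dg G (CP G Z T S z) v : ℤ) := by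
    rw [← h16, ← sum_sdiff (s₁ := Y ∩ W) (s₂ := W) inter_subset_right, sdiff_inter_self_right]
    ring
  have h18 : ∑ j ∈ J, ∑ v ∈ CP G Z T S j ∩ W, (dg G (S z) v : ℤ)
      = ∑ j ∈ J, ∑ v ∈ CP G Z T S j ∩ W, (dg G (CP G Z T S z) v : ℤ)
        + ∑ j ∈ J, ∑ v ∈ CP G Z T S j ∩ W, (dg G (HP G Z T S z) v : ℤ) := by
    rw [← h16, ← h16, ← h16, ← sum_add_distrib]
    exact sum_congr rfl fun v _ => h11 v
  have h19 : ∑ v ∈ W \ Y, (dg G (S z) v : ℤ)
      = ∑ v ∈ W \ Y, (dg G (CP G Z T S z) v : ℤ) + ∑ v ∈ W \ Y, (dg G (HP G Z T S z) v : ℤ) := by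
    rw [← sum_add_distrib]
    exact sum_congr rfl fun v _ => h11 v
  generalize ∑ j ∈ J, ((CP G Z T S j).card : ℤ) = c at *
  generalize (NE G (S z ∪ W \ Y ∪ J.biUnion (CP G Z T S)) : ℤ) = n1 at *
  generalize (E G (S z ∪ W \ Y ∪ J.biUnion (CP G Z T S)) : ℤ) = n2 at *
  generalize ∑ j ∈ J, ∑ i ∈ J.erase j, ((CP G Z T S i).card : ℤ) * (CP G Z T S j).card = c2 at *
  nlinarith

end RowMul

end Pool.Agent.Lib.MP_f04ccf_co
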