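import Pool.Agent.Lib.MP_f04ccf_co.M.PayTwo
import Pool.Agent.Lib.MP_f04ccf_co.M.RowMul

/-!
MP_f04ccf_co, note 17535 (helper39): the row test of `z` with the columns of `y`, the PC pairs of BOTH homes
of the cell in joint form (helper35's `pay_two` inside T+).

* `CellD.edgB`: the misses of missing pairs of both kinds are paid by the class edges.
* `upc`: the used PC pairs of `y` with tail `z`.
* `Fam.rowM_joint`: `RowM` for `J = {y}`, `q = 1` with the extra term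
  `2 ∑_(W_z) |X_v| + 2 ∑_(W_y) |Y_v| + 2 a b - 2 (a + b) - E (W_z ∪ W_y) - E W_z - E W_y`.
-/

set_option autoImplicit false

namespace Pool.Agent.Lib.MP_f04ccf_co

open Finset

attribute [local instance] Classical.propDecidable

section Gen

variable {V : Type*} {G : SimpleGraph V} {C D I : Finset V}

/-- **the misses of missing pairs of both kinds are paid by the class edges** -/
theorem CellD.edgB (hI : CellD G C D I) {K K' : Finset (V × V)} (k1 : ∀ e ∈ K, e.1 ∈ I)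
    (k2 : ∀ e ∈ K, e.2 ∈ C) (k3 : ∀ e ∈ K, ¬ G.Adj e.1 e.2)
    (i2 : ∀ e ∈ K, ∀ f ∈ K, e.2 = f.2 → e = f) (k1' : ∀ e ∈ K', e.1 ∈ I)
    (k2' : ∀ e ∈ K', e.2 ∈ D) (k3' : ∀ e ∈ K', ¬ G.Adj e.1 e.2)
    (i2' : ∀ e ∈ K', ∀ f ∈ K', e.2 = f.2 → e = f)
    (hd : ∀ e ∈ K, ∀ f ∈ K', e.1 ≠ f.1)
    (l1 : ∀ e ∈ K, (msC G C e.1).card ≤ (msC G D e.1).card)
    (l2 : ∀ e ∈ K', (msC G D e.1).card ≤ (msC G C e.1).card) :
    ∑ w ∈ K.image Prod.fst ∪ K'.image Prod.fst, ((nd G C w : ℤ) + nd G D w)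
      ≤ ∑ c ∈ D, (dg G C c : ℤ) + (K.image Prod.fst ∪ K'.image Prod.fst).card
        + E G (K.image Prod.fst ∪ K'.image Prod.fst) := by
  obtain ⟨W1, hW1⟩ : ∃ W, W = K.image Prod.fst := ⟨_, rfl⟩
  obtain ⟨W2, hW2⟩ : ∃ W, W = K'.image Prod.fst := ⟨_, rfl⟩
  rw [← hW1, ← hW2]
  have m1 : ∀ v ∈ W1, ∃ e ∈ K, e.1 = v := fun v hv => mem_image.1 (hW1 ▸ hv)
  have m2 : ∀ v ∈ W2, ∃ e ∈ K', e.1 = v := fun v hv => mem_image.1 (hW2 ▸ hv)
  have hdis : Disjoint W1 W2 := by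
    rw [disjoint_left]
    intro v hv hv'
    obtain ⟨e, he, h1⟩ := m1 v hv
    obtain ⟨f, hf, h2⟩ := m2 v hv'
    exact hd e he f hf (h1.trans h2.symm)
  have hWI : W1 ∪ W2 ⊆ I := by
    intro v hv
    rcases mem_union.1 hv with hv | hv
    · obtain ⟨e, he, rfl⟩ := m1 v hv
      exact k1 e he
    · obtain ⟨e, he, rfl⟩ := m2 v hv
      exact k1' e he
  have own1 : ∀ v, ∃ a, v ∈ W1 → (v, a) ∈ K := by
    intro v
    by_cases h : v ∈ W1
    · obtain ⟨e, he, rfl⟩ := m1 v h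
      exact ⟨e.2, fun _ => he⟩
    · exact ⟨v, fun h' => absurd h' h⟩
  have own2 : ∀ v, ∃ a, v ∈ W2 → (v, a) ∈ K' := by
    intro v
    by_cases h : v ∈ W2
    · obtain ⟨e, he, rfl⟩ := m2 v h
      exact ⟨e.2, fun _ => he⟩
    · exact ⟨v, fun h' => absurd h' h⟩
  choose o1 ho1 using own1
  choose o2 ho2 using own2
  have h1 := pay_two (G := G) hdis (X := msC G C) (Y := msC G D) (o1 := o1) (o2 := o2)
    (fun v hv => mem_filter.2 ⟨k2 _ (ho1 v hv), k3 _ (ho1 v hv)⟩)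
    (fun u hu v hv huv => congrArg Prod.fst (i2 _ (ho1 u hu) _ (ho1 v hv) huv))
    (fun v hv => mem_filter.2 ⟨k2' _ (ho2 v hv), k3' _ (ho2 v hv)⟩)
    (fun u hu v hv huv => congrArg Prod.fst (i2' _ (ho2 u hu) _ (ho2 v hv) huv))
    (fun u hu v hv huv a ha ha' => hI.comC u (hWI hu) v (hWI hv) huv a (mem_filter.1 ha).1
      (mem_filter.1 ha).2 (mem_filter.1 ha').2)
    (fun u hu v hv huv a ha ha' => hI.comD u (hWI hu) v (hWI hv) huv a (mem_filter.1 ha).1
      (mem_filter.1 ha).2 (mem_filter.1 ha').2)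
    (fun v hv => by
      obtain ⟨e, he, rfl⟩ := m1 v hv
      exact l1 e he)
    (fun v hv => by
      obtain ⟨e, he, rfl⟩ := m2 v hv
      exact l2 e he)
  have h2 : ((W1 ∪ W2).biUnion fun v => msC G C v ×ˢ msC G D v).card ≤ (eds G C D).card := by
    refine card_le_card (biUnion_subset.2 fun v hv q hq => ?_)
    obtain ⟨h3, h4⟩ := mem_product.1 hq
    obtain ⟨h5, h6⟩ := mem_filter.1 h3
    obtain ⟨h7, h8⟩ := mem_filter.1 h4
    exact mem_filter.2 ⟨mem_product.2 ⟨h5, h7⟩, hI.rect v (hWI hv) _ h5 _ h7 h6 h8⟩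
  have h4 : ∑ w ∈ W1 ∪ W2, ((nd G C w : ℤ) + nd G D w)
      = ((∑ v ∈ W1 ∪ W2, ((msC G C v).card + (msC G D v).card) : ℕ) : ℤ) := by
    push_cast
    refine sum_congr rfl fun v hv => ?_
    have e1 : ∀ E : Finset V, v ∉ E → nd G E v = (msC G E v).card := by
      intro E hE
      unfold nd msC
      congr 1
      ext a
      rw [mem_filter, mem_filter]
      exact ⟨fun h => ⟨h.1, h.2.2⟩, fun h => ⟨h.1, fun h' => hE (h' ▸ h.1), h.2⟩⟩
    rw [e1 C (hI.nC v (hWI hv)), e1 D (hI.nD v (hWI hv))]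
  have h5 : ∑ v ∈ W1 ∪ W2, (1 + dg G (W1 ∪ W2) v) = (W1 ∪ W2).card + E G (W1 ∪ W2) := by
    rw [sum_add_distrib, sum_const, smul_eq_mul, mul_one]
    rfl
  have h9 : ∑ c ∈ D, (dg G C c : ℤ) = (eds G C D).card := by
    rw [card_eds_eq]
    exact_mod_cast (dg_comm G C D).symm
  rw [h5] at h1
  have h8 := h1.trans (Nat.add_le_add_right h2 _)
  rw [h4, h9]
  have h10 : ((∑ v ∈ W1 ∪ W2, ((msC G C v).card + (msC G D v).card) : ℕ) : ℤ)
      ≤ (((eds G C D).card + ((W1 ∪ W2).card + E G (W1 ∪ W2)) : ℕ) : ℤ) := by exact_mod_cast h8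
  push_cast at h10 ⊢
  linarith

end Gen

section RowG

variable {V : Type*} {G : SimpleGraph V} {Z T : Finset V} {hm : V → V} {r m t : ℕ}
  {A : Finset V} {S : V → Finset V} {U : V → Finset (Itm V)}

/-- the used PC pairs among `U` with tail `z` -/
noncomputable def upc {ι : Type*} (tl : V → ι) (z : ι) (U K : Finset (Itm V)) : Finset (V × V) :=
  U.toRight.filter fun e => tl e.1 = z ∧ Sum.inr e ∈ K

lemma mem_upc {ι : Type*} {tl : V → ι} {z : ι} {U K : Finset (Itm V)} {e : V × V} :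
    e ∈ upc tl z U K ↔ Sum.inr e ∈ U ∧ tl e.1 = z ∧ Sum.inr e ∈ K := by
  unfold upc
  rw [mem_filter, mem_toRight]

/-- **what a column sees among the members, PC members with this tail counted** -/
theorem Fam.hp_seeG (hW : WSysT G (co G) A (CP G Z T S) (HP G Z T S) (tlo G T hm))
    (h : ∀ x ∈ A, Fam (co G) (CP G Z T S) (HP G Z T S) (tlo G T hm) x (U x))
    {x z : V} (hx : x ∈ A) {c : V} (hc : c ∈ CP G Z T S z) :
    ∑ u ∈ U x, ((ikp (tlo G T hm) z u : ℤ)
        - if c ∈ icl G (CP G Z T S) (tlo G T hm) z u then 1 else 0)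
      + dg G ((pcz (tlo G T hm) z (U x)).image Prod.fst) c
      ≤ (dg G (HP G Z T S x) c : ℤ) + (pcz (tlo G T hm) z (U x)).card := by
  have hf := h x hx
  have hsp : ∀ f : Itm V → ℤ, ∑ u ∈ U x, f u
      = ∑ Q ∈ (U x).toLeft, f (Sum.inl Q) + ∑ e ∈ (U x).toRight, f (Sum.inr e) := by
    intro f
    rw [← sum_disjSum, toLeft_disjSum_toRight]
  rw [hsp]
  have h1 : dg G ((U x).toLeft.biUnion id) c = ∑ Q ∈ (U x).toLeft, dg G Q c := by
    unfold dg
    rw [filter_biUnion, card_biUnion]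
    · rfl
    · intro Q hQ Q' hQ' hne
      exact disjoint_filter_filter (hf.dis _ (mem_toLeft.1 hQ) _ (mem_toLeft.1 hQ')
        fun h3 => hne (Sum.inl_injective h3))
  have hd : Disjoint ((U x).toLeft.biUnion id) ((pcz (tlo G T hm) z (U x)).image Prod.fst) := by
    rw [disjoint_left]
    intro v hv hv'
    obtain ⟨Q, hQ, hvQ⟩ := mem_biUnion.1 hv
    obtain ⟨e, he, rfl⟩ := mem_image.1 hv'
    have h3 := hf.dis _ (mem_toLeft.1 hQ) _ (mem_pcz.1 he).1 (fun h4 => by cases h4)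
    exact disjoint_left.1 h3 hvQ (mem_singleton_self _)
  have h2 : (U x).toLeft.biUnion id ∪ (pcz (tlo G T hm) z (U x)).image Prod.fst
      ⊆ HP G Z T S x := by
    intro v hv
    rcases mem_union.1 hv with hv | hv
    · obtain ⟨Q, hQ, hvQ⟩ := mem_biUnion.1 hv
      exact hf.sub Q (mem_toLeft.1 hQ) hvQ
    · obtain ⟨e, he, rfl⟩ := mem_image.1 hv
      exact hf.pcH e (mem_pcz.1 he).1
  have h3 := dg_mono (G := G) h2 c
  have h3' : dg G ((U x).toLeft.biUnion id ∪ (pcz (tlo G T hm) z (U x)).image Prod.fst) c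
      = dg G ((U x).toLeft.biUnion id) c + dg G ((pcz (tlo G T hm) z (U x)).image Prod.fst) c := by
    unfold dg
    rw [filter_union, card_union_of_disjoint (disjoint_filter_filter hd)]
  rw [h3', h1] at h3
  have h4 : (∑ Q ∈ (U x).toLeft, (dg G Q c : ℤ))
      + dg G ((pcz (tlo G T hm) z (U x)).image Prod.fst) c ≤ dg G (HP G Z T S x) c := by
    exact_mod_cast h3
  have h5 : ∑ Q ∈ (U x).toLeft, ((ikp (tlo G T hm) z (Sum.inl Q) : ℤ)
        - if c ∈ icl G (CP G Z T S) (tlo G T hm) z (Sum.inl Q) then 1 else 0)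
      ≤ ∑ Q ∈ (U x).toLeft, (dg G Q c : ℤ) := by
    refine sum_le_sum fun Q hQ => ?_
    have h5 := hf.see hW hx (z := z) (X := oth (tlo G T hm) z) (fun _ => subset_rfl)
      (mem_toLeft.1 hQ) hc
    rw [rpts_oth] at h5
    have h6 : icl G (CP G Z T S) (tlo G T hm) z (Sum.inl Q)
      = rcl G (CP G Z T S) (tlo G T hm) (oth (tlo G T hm) z) z (Sum.inl Q) := rfl
    rw [h6]
    simp only [ipts] at h5
    linarith
  have h6 : ∑ e ∈ (U x).toRight, ((ikp (tlo G T hm) z (Sum.inr e) : ℤ)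
        - if c ∈ icl G (CP G Z T S) (tlo G T hm) z (Sum.inr e) then 1 else 0)
      ≤ (pcz (tlo G T hm) z (U x)).card := by
    have h1 : pcz (tlo G T hm) z (U x) = (U x).toRight.filter fun e => tlo G T hm e.1 = z := by
      ext e
      rw [mem_pcz, mem_filter, mem_toRight]
    rw [h1, card_filter]
    push_cast
    refine sum_le_sum fun e _ => ?_
    unfold icl
    simp only [ikp, rcl, notMem_empty, if_false, sub_zero]
    split_ifs <;> simp
  linarith

/-- **the row test with the columns of `y`, the PC pairs of both homes of the cell in joint form** -/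
theorem Fam.rowM_joint (hF : PFrame G r m t Z T) (hP : PG G r) (hh : Homes G Z T hm)
    (hC : CSys G Z T hm A S)
    (hW : WSysT G (co G) A (CP G Z T S) (HP G Z T S) (tlo G T hm))
    (h : ∀ x ∈ A, Fam (co G) (CP G Z T S) (HP G Z T S) (tlo G T hm) x (U x))
    {z y : V} (hz : z ∈ A) (hy : y ∈ A) (hzy : z ≠ y) {K : Finset (Itm V)}
    (hK : K ⊆ (A.erase z).biUnion U) (hk : ∀ u ∈ K, ikp (tlo G T hm) z u ≠ 0)
    {X : Finset V → Finset V} (hX : ∀ Q, X Q ⊆ oth (tlo G T hm) z Q)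
    (l1 : ∀ e ∈ pcz (tlo G T hm) y (U z),
      (msC G (CP G Z T S z) e.1).card ≤ (msC G (CP G Z T S y) e.1).card)
    (l2 : ∀ e ∈ pcz (tlo G T hm) z (U y),
      (msC G (CP G Z T S y) e.1).card ≤ (msC G (CP G Z T S z) e.1).card) :
    RowM G Z T hm r S U 1 K X z {y}
      (2 * ∑ v ∈ (pcz (tlo G T hm) y (U z)).image Prod.fst, (nd G (CP G Z T S z) v : ℤ)
        + 2 * ∑ v ∈ (upc (tlo G T hm) z (U y) K).image Prod.fst, (nd G (CP G Z T S y) v : ℤ)
        + 2 * ((upc (tlo G T hm) z (U y) K).card * (pcz (tlo G T hm) y (U z)).card)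
        - 2 * ((pcz (tlo G T hm) y (U z)).card + (upc (tlo G T hm) z (U y) K).card)
        - (E G ((pcz (tlo G T hm) y (U z)).image Prod.fst
              ∪ (upc (tlo G T hm) z (U y) K).image Prod.fst)
            + E G ((pcz (tlo G T hm) y (U z)).image Prod.fst)
            + E G ((upc (tlo G T hm) z (U y) K).image Prod.fst))) := by
  obtain ⟨P1, hP1⟩ : ∃ P, P = pcz (tlo G T hm) y (U z) := ⟨_, rfl⟩
  obtain ⟨P2, hP2⟩ : ∃ P, P = upc (tlo G T hm) z (U y) K := ⟨_, rfl⟩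
  rw [← hP1, ← hP2]
  obtain ⟨M1, hM1⟩ : ∃ M, M = P1.image Prod.fst := ⟨_, rfl⟩
  obtain ⟨M2, hM2⟩ : ∃ M, M = P2.image Prod.fst := ⟨_, rfl⟩
  rw [← hM1, ← hM2]
  have fz := h z hz
  have fy := h y hy
  have mP1 : ∀ e ∈ P1, Sum.inr e ∈ U z ∧ tlo G T hm e.1 = y := fun e he => mem_pcz.1 (hP1 ▸ he)
  have mP2 : ∀ e ∈ P2, Sum.inr e ∈ U y ∧ tlo G T hm e.1 = z ∧ Sum.inr e ∈ K := fun e he =>
    mem_upc.1 (hP2 ▸ he)
  have hM1H : M1 ⊆ HP G Z T S z := by
    intro v hv
    rw [hM1] at hv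
    obtain ⟨e, he, rfl⟩ := mem_image.1 hv
    exact fz.pcH e (mP1 e he).1
  have hM2H : M2 ⊆ HP G Z T S y := by
    intro v hv
    rw [hM2] at hv
    obtain ⟨e, he, rfl⟩ := mem_image.1 hv
    exact fy.pcH e (mP2 e he).1
  have hSS : Disjoint (S z) (S y) := hC.disj hz hy hzy
  have hHS : ∀ x, HP G Z T S x ⊆ S x := fun x v hv => (mem_HP.1 hv).1
  have hCS : ∀ x, CP G Z T S x ⊆ S x := fun x v hv => (mem_CP.1 hv).1
  have hM12 : Disjoint M1 M2 :=
    hSS.mono (hM1H.trans (hHS z)) (hM2H.trans (hHS y))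
  have j1 : ∀ e ∈ P1, ∀ f ∈ P1, e.1 = f.1 → e = f := by
    rw [hP1]
    exact fz.pcz_inj
  have j2 : ∀ e ∈ P2, ∀ f ∈ P2, e.1 = f.1 → e = f := fun e he f hf hef =>
    fy.pcz_inj e (mem_pcz.2 ⟨(mP2 e he).1, (mP2 e he).2.1⟩) f
      (mem_pcz.2 ⟨(mP2 f hf).1, (mP2 f hf).2.1⟩) hef
  have s1 : ∀ e ∈ P1, ∀ f ∈ P1, e.2 = f.2 → e = f := by
    intro e he f hf hef
    by_contra hne
    exact fz.cop e (mP1 e he).1 f (mP1 f hf).1 hef hne ((mP1 e he).2.trans (mP1 f hf).2.symm)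
  have s2 : ∀ e ∈ P2, ∀ f ∈ P2, e.2 = f.2 → e = f := by
    intro e he f hf hef
    by_contra hne
    exact fy.cop e (mP2 e he).1 f (mP2 f hf).1 hef hne ((mP2 e he).2.1.trans (mP2 f hf).2.1.symm)
  have c1 : M1.card = P1.card := by
    rw [hM1]
    exact card_image_of_injOn fun e he f hf hef =>
      j1 e (by exact_mod_cast he) f (by exact_mod_cast hf) hef
  have c2 : M2.card = P2.card := by
    rw [hM2]
    exact card_image_of_injOn fun e he f hf hef =>
      j2 e (by exact_mod_cast he) f (by exact_mod_cast hf) hef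
  -- the class edges
  have hcell := hC.cellD hF hz hy hzy
  have hedg := hcell.edgB (K := P1) (K' := P2)
    (fun e he => hC.mem_Dbl_of_tlo hh hz (fz.pcH e (mP1 e he).1) (mP1 e he).2)
    (fun e he => fz.pcC e (mP1 e he).1)
    (fun e he => (co_adj.1 (fz.pcF e (mP1 e he).1)).2) s1
    (fun e he => by
      rw [Dbl_comm]
      exact hC.mem_Dbl_of_tlo hh hy (fy.pcH e (mP2 e he).1) (mP2 e he).2.1)
    (fun e he => fy.pcC e (mP2 e he).1)
    (fun e he => (co_adj.1 (fy.pcF e (mP2 e he).1)).2) s2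
    (fun e he f hf hef => disjoint_left.1 hSS (hHS z (fz.pcH e (mP1 e he).1))
      (hef ▸ hHS y (fy.pcH f (mP2 f hf).1)))
    (fun e he => l1 e (hP1 ▸ he))
    (fun e he => l2 e (mem_pcz.2 ⟨(mP2 e he).1, (mP2 e he).2.1⟩))
  rw [← hM1, ← hM2] at hedg
  -- the points
  obtain ⟨Y, hYd⟩ : ∃ Y, Y = CP G Z T S y := ⟨_, rfl⟩
  obtain ⟨W, hWd⟩ : ∃ W, W = K.biUnion (rpts (tlo G T hm) X z) := ⟨_, rfl⟩
  obtain ⟨K0, hK0⟩ : ∃ K0, K0 = K \ P2.image Sum.inr := ⟨_, rfl⟩
  obtain ⟨W0, hW0⟩ : ∃ W0, W0 = K0.biUnion (rpts (tlo G T hm) X z) := ⟨_, rfl⟩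
  have hK0K : K0 ⊆ K := hK0 ▸ sdiff_subset
  have hP2K : P2.image Sum.inr ⊆ K := by
    intro u hu
    obtain ⟨e, he, rfl⟩ := mem_image.1 hu
    exact (mP2 e he).2.2
  have hown : ∀ u ∈ K, ∃ x ∈ A.erase z, u ∈ U x := fun u hu => by
    obtain ⟨x, hx, hux⟩ := mem_biUnion.1 (hK hu)
    exact ⟨x, hx, hux⟩
  have hYS : Y ⊆ S y := hYd ▸ hCS y
  -- the other items have no points among the columns
  have hW0Y : Disjoint W0 Y := by
    rw [disjoint_left]
    intro v hv hv'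
    rw [hW0] at hv
    obtain ⟨u, hu, hvu⟩ := mem_biUnion.1 hv
    obtain ⟨x, hx, hux⟩ := hown u (hK0K hu)
    have hxA := mem_of_mem_erase hx
    have h1 : v ∈ HP G Z T S x ∪ CP G Z T S x :=
      (h x hxA).ipts_sub hux ((h x hxA).rpts_sub hX hvu)
    have h2 : v ∈ S x := by
      rcases mem_union.1 h1 with h3 | h3
      · exact hHS x h3
      · exact hCS x h3
    by_cases hxy : x = y
    · subst hxy
      rcases u with Q | e
      · have h3 : v ∈ Q := (h x hxA).rpts_sub hX hvu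
        have h4 := (h x hxA).sub Q hux h3
        exact disjoint_left.1 (CP_HP_disjoint (G := G) (Z := Z) (T := T) (S := S) (x := x))
          (hYd ▸ hv') h4
      · have h3 : tlo G T hm e.1 = z := by
          by_contra h4
          exact hk _ (hK0K hu) (by simp only [ikp, h4, if_false])
        have h4 : e ∈ P2 := hP2 ▸ mem_upc.2 ⟨hux, h3, hK0K hu⟩
        rw [hK0] at hu
        exact (mem_sdiff.1 hu).2 (mem_image_of_mem _ h4)
    · exact disjoint_left.1 (hC.disj hxA hy hxy) h2 (hYS hv')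
  have hM2Y : Disjoint M2 Y := by
    rw [hYd]
    exact (CP_HP_disjoint (G := G) (Z := Z) (T := T) (S := S) (x := y)).symm.mono_left hM2H
  have hWY : W \ Y = M2 ∪ W0 := by
    ext v
    rw [mem_sdiff, mem_union, hWd, hW0, mem_biUnion, mem_biUnion]
    constructor
    · rintro ⟨⟨u, hu, hvu⟩, hvY⟩
      by_cases hu2 : u ∈ P2.image Sum.inr
      · obtain ⟨e, he, rfl⟩ := mem_image.1 hu2
        left
        rcases mem_insert.1 hvu with h3 | h3
        · rw [h3, hM2]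
          exact mem_image_of_mem _ he
        · rw [mem_singleton.1 h3] at hvY
          exact absurd (hYd ▸ fy.pcC e (mP2 e he).1) hvY
      · right
        exact ⟨u, hK0 ▸ mem_sdiff.2 ⟨hu, hu2⟩, hvu⟩
    · rintro (hv | ⟨u, hu, hvu⟩)
      · refine ⟨?_, fun h3 => disjoint_left.1 hM2Y hv h3⟩
        rw [hM2] at hv
        obtain ⟨e, he, rfl⟩ := mem_image.1 hv
        exact ⟨Sum.inr e, (mP2 e he).2.2, mem_insert_self _ _⟩
      · refine ⟨⟨u, hK0K hu, hvu⟩, fun h3 => disjoint_left.1 hW0Y ?_ h3⟩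
        rw [hW0]
        exact mem_biUnion.2 ⟨u, hu, hvu⟩
  have hM2W0 : Disjoint M2 W0 := by
    rw [disjoint_left]
    intro v hv hv'
    rw [hM2] at hv
    obtain ⟨e, he, rfl⟩ := mem_image.1 hv
    rw [hW0] at hv'
    obtain ⟨u, hu, hvu⟩ := mem_biUnion.1 hv'
    obtain ⟨x, hx, hux⟩ := hown u (hK0K hu)
    have hne : Sum.inr e ≠ u := by
      rintro rfl
      rw [hK0] at hu
      exact (mem_sdiff.1 hu).2 (mem_image_of_mem _ he)
    have h3 := Fam.dis_row hW h hy (mem_of_mem_erase hx) (mP2 e he).1 hux hne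
      (hk _ (mP2 e he).2.2) (hk u (hK0K hu))
    exact disjoint_left.1 h3 (mem_insert_self _ _)
      ((h x (mem_of_mem_erase hx)).rpts_sub hX hvu)
  -- the number of the used class points
  have hcolb : P2.card ≤ (Y ∩ W).card := by
    have h1 : (P2.image Prod.snd).card = P2.card :=
      card_image_of_injOn fun e he f hf hef =>
        s2 e (by exact_mod_cast he) f (by exact_mod_cast hf) hef
    rw [← h1]
    refine card_le_card fun v hv => ?_
    obtain ⟨e, he, rfl⟩ := mem_image.1 hv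
    refine mem_inter.2 ⟨hYd ▸ fy.pcC e (mP2 e he).1, ?_⟩
    rw [hWd]
    exact mem_biUnion.2 ⟨Sum.inr e, (mP2 e he).2.2,
      mem_insert_of_mem (mem_singleton_self _)⟩
  -- the test
  have hK' : K ⊆ (A \ {z}).biUnion U := by
    rwa [sdiff_singleton_eq_erase]
  have hsb : ({z} : Finset V) ⊆ A := by
    simpa using hz
  have hWS : Disjoint (S z) W := by
    have h2 := Fam.disj_pts hC h hsb hK' (mem_singleton_self z)
    rw [hWd]
    refine h2.mono_right (biUnion_mono fun u hu => ?_)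
    obtain ⟨x, hx, hux⟩ := mem_biUnion.1 (hK hu)
    exact (h x (mem_of_mem_erase hx)).rpts_sub hX
  have hYSz : Disjoint (S z) Y := hSS.mono_right hYS
  have hD : Disjoint (S z) (Y ∪ W \ Y) := by
    rw [disjoint_union_right]
    exact ⟨hYSz, hWS.mono_right sdiff_subset⟩
  have t1 := hC.tst hP (B := {z}) hsb (W := Y ∪ W \ Y) (fun x hx => by
    rw [mem_singleton.1 hx]
    exact hD)
  have hYW : Disjoint Y (W \ Y) := disjoint_sdiff
  have hcl : Clq G Y := hYd ▸ hC.CP_clq hF hy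
  have t2 : (NE G (Y ∪ W \ Y) : ℤ) = NE G (W \ Y) + 2 * ∑ v ∈ W \ Y, (nd G Y v : ℤ) := by
    rw [NE_union hYW, NE_clq hcl]
    push_cast
    ring
  have t3 : ((Y ∪ W \ Y).card : ℤ) = Y.card + (W \ Y).card := by
    rw [card_union_of_disjoint hYW]
    push_cast
    ring
  simp only [sum_singleton, card_singleton, erase_singleton, sum_empty, Nat.cast_one, sub_self,
    mul_zero, zero_mul, add_zero] at t1
  rw [t2, t3, sum_union hYW] at t1
  -- the adjacencies of the columns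
  have a1 : ∀ v, (dg G (S z) v : ℤ) = dg G (CP G Z T S z) v + dg G (HP G Z T S z) v := by
    intro v
    have h7 : dg G (S z) v = dg G (CP G Z T S z) v + dg G (HP G Z T S z) v := by
      conv_lhs => rw [← CP_union_HP (G := G) (Z := Z) (T := T) (S := S) (x := z)]
      unfold dg
      rw [filter_union, card_union_of_disjoint (disjoint_filter_filter CP_HP_disjoint)]
    exact_mod_cast h7
  have a2 : ∑ v ∈ Y, (dg G (S z) v : ℤ)
      = ∑ v ∈ Y, (dg G (CP G Z T S z) v : ℤ) + ∑ v ∈ Y, (dg G (HP G Z T S z) v : ℤ) := by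
    rw [← sum_add_distrib]
    exact sum_congr rfl fun v _ => a1 v
  have ndsum : ∀ (C M : Finset V), Disjoint C M →
      ∑ v ∈ M, (dg G C v : ℤ) = (M.card : ℤ) * C.card - ∑ v ∈ M, (nd G C v : ℤ) := by
    intro C M hCM
    have := sum_dg_nd (G := G) (C := C) (Z := M) hCM
    linarith
  have a3 : ∑ u ∈ U z, ((Y.card : ℤ) * ikp (tlo G T hm) y u
        - (Y ∩ icl G (CP G Z T S) (tlo G T hm) y u).card)
      ≤ ∑ v ∈ Y, (dg G (HP G Z T S z) v : ℤ) + ∑ v ∈ M1, (nd G Y v : ℤ) := by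
    rw [← sum_cols]
    have b1 : ∀ c ∈ Y, ∑ u ∈ U z, ((ikp (tlo G T hm) y u : ℤ)
          - if c ∈ icl G (CP G Z T S) (tlo G T hm) y u then 1 else 0)
        ≤ (dg G (HP G Z T S z) c : ℤ) + P1.card - dg G M1 c := by
      intro c hc
      have := Fam.hp_seeG hW h hz (z := y) (c := c) (hYd ▸ hc)
      rw [← hP1, ← hM1] at this
      linarith
    have b2 := sum_le_sum b1
    rw [sum_sub_distrib, sum_add_distrib, sum_const, nsmul_eq_mul] at b2
    have b3 : ∑ c ∈ Y, (dg G M1 c : ℤ) = ∑ v ∈ M1, (dg G Y v : ℤ) := by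
      exact_mod_cast dg_comm G Y M1
    have b4 := ndsum Y M1 (hYSz.symm.mono_right (hM1H.trans (hHS z)))
    rw [b3, b4, c1] at b2
    linarith
  -- the adjacencies of the used points
  have a4 : ∑ v ∈ M2, ((dg G (CP G Z T S z) v : ℤ) + dg G M1 v) ≤ ∑ v ∈ M2, (dg G (S z) v : ℤ) := by
    refine sum_le_sum fun v _ => ?_
    rw [a1]
    have : dg G M1 v ≤ dg G (HP G Z T S z) v := dg_mono (G := G) hM1H v
    have : (dg G M1 v : ℤ) ≤ dg G (HP G Z T S z) v := by exact_mod_cast this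
    linarith
  have a5 : ∑ v ∈ M2, (dg G (CP G Z T S z) v : ℤ)
      = (M2.card : ℤ) * (CP G Z T S z).card - ∑ v ∈ M2, (nd G (CP G Z T S z) v : ℤ) :=
    ndsum _ _ ((hSS.mono (hCS z) (hM2H.trans (hHS y))))
  have a6 : ∑ u ∈ K0, (((CP G Z T S z).card : ℤ) * ikp (tlo G T hm) z u
      - (rcl G (CP G Z T S) (tlo G T hm) X z u).card)
      ≤ ∑ v ∈ W0, (dg G (S z) v : ℤ) := by
    have hg := Fam.grp hW h (D := A.erase z) (erase_subset _ _) (hK0K.trans hK) (z := z) hX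
    have hfil : (K0.filter fun u => ikp (tlo G T hm) z u ≠ 0) = K0 :=
      filter_true_of_mem fun u hu => hk u (hK0K hu)
    rw [hfil] at hg
    have h6 := hg.sum_le (W := W0) (by rw [hW0])
    have h7 : ∑ c ∈ CP G Z T S z, (dg G W0 c : ℤ) = ∑ v ∈ W0, (dg G (CP G Z T S z) v : ℤ) := by
      have := dg_comm G (CP G Z T S z) W0
      exact_mod_cast this
    rw [h7] at h6
    refine le_trans (le_trans (le_of_eq ?_) h6) (sum_le_sum fun v _ => ?_)
    · refine sum_congr rfl fun u _ => ?_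
      rw [sum_rcl]
    · rw [a1]
      have : (0 : ℤ) ≤ dg G (HP G Z T S z) v := by positivity
      linarith
  have a7 : ∑ u ∈ K, (((CP G Z T S z).card : ℤ) * ikp (tlo G T hm) z u
        - (rcl G (CP G Z T S) (tlo G T hm) X z u).card)
      = ∑ u ∈ K0, (((CP G Z T S z).card : ℤ) * ikp (tlo G T hm) z u
        - (rcl G (CP G Z T S) (tlo G T hm) X z u).card) + (P2.card : ℤ) * (CP G Z T S z).card := by
    rw [hK0, ← sum_sdiff hP2K]
    congr 1
    rw [sum_image (fun e _ f _ hef => Sum.inr_injective hef)]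
    have b1 : ∀ e ∈ P2, ((CP G Z T S z).card : ℤ) * ikp (tlo G T hm) z (Sum.inr e)
        - (rcl G (CP G Z T S) (tlo G T hm) X z (Sum.inr e)).card = (CP G Z T S z).card := by
      intro e he
      simp only [ikp, rcl, (mP2 e he).2.1, if_true, card_empty, Nat.cast_one, mul_one,
        Nat.cast_zero, sub_zero]
    rw [sum_congr rfl b1, sum_const, nsmul_eq_mul]
  have a8 : ∑ v ∈ W \ Y, (dg G (S z) v : ℤ)
      = ∑ v ∈ M2, (dg G (S z) v : ℤ) + ∑ v ∈ W0, (dg G (S z) v : ℤ) := by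
    rw [hWY, sum_union hM2W0]
  -- the edges between the PC members
  have a9 : (E G (M1 ∪ M2) : ℤ) = E G M1 + 2 * ∑ v ∈ M2, (dg G M1 v : ℤ) + E G M2 := by
    have := E_union (G := G) hM12
    exact_mod_cast this
  have a10 : ((M1 ∪ M2).card : ℤ) = M1.card + M2.card := by
    rw [card_union_of_disjoint hM12]
    push_cast
    rfl
  rw [sum_union hM12, a10, sum_add_distrib, sum_add_distrib] at hedg
  rw [sum_add_distrib] at a4
  have c1' : (M1.card : ℤ) = P1.card := by exact_mod_cast c1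
  have c2' : (M2.card : ℤ) = P2.card := by exact_mod_cast c2
  have a11 : (P2.card : ℤ) * P1.card ≤ (Y ∩ W).card * P1.card := by
    exact_mod_cast Nat.mul_le_mul_right _ hcolb
  unfold RowM
  simp only [sum_singleton, singleton_biUnion, erase_singleton, sum_empty]
  rw [← hWd, ← hP1, ← hYd]
  rw [← hYd] at hedg
  rw [c1', c2'] at hedg
  rw [c2'] at a5
  linarith

end RowG

end Pool.Agent.Lib.MP_f04ccf_co
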