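import Pool.Agent.Lib.MP_f04ccf_co.M.RowGI

/-!
MP_f04ccf_co, STATE 10 (L2): the row test of `z` with the columns of `y`, the PC pairs of BOTH homes of the cell in
joint form, for ARBITRARY systems of slots and items (so in particular for a slot without the points of the
dropped items).

* `Fam.rowM_G`: `Fam.rowM_joint` with the energy of the slot inserted;
* `Fam.rowG_of`: over the items, exact number of points, no sign condition.
-/

set_option autoImplicit false

namespace Pool.Agent.Lib.MP_f04ccf_co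

open Finset

attribute [local instance] Classical.propDecidable

section RowGD

variable {V : Type*} {G : SimpleGraph V} {Z T : Finset V} {hm : V → V} {r m t : ℕ}
  {A : Finset V} {S : V → Finset V} {U : V → Finset (Itm V)}

/-- adjacent pairs of the union of two sets of given sizes -/
lemma E_union_le (M N : Finset V) :
    (E G (M ∪ N) : ℤ)
      ≤ ((M.card : ℤ) + N.card) * ((M.card : ℤ) + N.card) - ((M.card : ℤ) + N.card) := by
  have h3 := E_add_NE (G := G) (M ∪ N)
  have h4 : ((M ∪ N).card : ℤ) ≤ M.card + N.card := by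
    have := card_union_le M N
    exact_mod_cast this
  have h5 : (0 : ℤ) ≤ NE G (M ∪ N) := Nat.cast_nonneg _
  have h6 : (0 : ℤ) ≤ (M ∪ N).card := Nat.cast_nonneg _
  obtain ⟨w, hw⟩ : ∃ w : ℤ, w = (M ∪ N).card := ⟨_, rfl⟩
  rw [← hw] at h3 h4 h6
  have h8 : w * (w - 1) ≤ ((M.card : ℤ) + N.card) * (((M.card : ℤ) + N.card) - 1) := by
    rcases eq_or_lt_of_le h6 with h9 | h9
    · rw [← h9]
      rw [zero_mul]
      rcases Nat.eq_zero_or_pos (M.card + N.card) with h10 | h10
      · have : (M.card : ℤ) + N.card = 0 := by exact_mod_cast h10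
        rw [this]
        norm_num
      · have : (1 : ℤ) ≤ (M.card : ℤ) + N.card := by exact_mod_cast h10
        exact mul_nonneg (by linarith) (by linarith)
    · nlinarith
  linarith

/-- **the row test with the PC pairs of both homes in joint form, the energy of the slot inserted**: any system -/
theorem Fam.rowM_G (hF : PFrame G r m t Z T) (hP : PG G r) (hh : Homes G Z T hm)
    (hC : CSys G Z T hm A S)
    (hW : WSysT G (co G) A (CP G Z T S) (HP G Z T S) (tlo G T hm))
    (h : ∀ x ∈ A, Fam (co G) (CP G Z T S) (HP G Z T S) (tlo G T hm) x (U x)) {host : Itm V → V}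
    {z y : V} (hz : z ∈ A) (hy : y ∈ A) (hzy : z ≠ y) {K : Finset (Itm V)}
    (hK : K ⊆ (A.erase z).biUnion U) (hk : ∀ u ∈ K, ikp (tlo G T hm) z u ≠ 0)
    (hst : ∀ u ∈ K, (host u = y ↔ u ∈ U y))
    {X : Finset V → Finset V} (hX : ∀ Q, X Q ⊆ oth (tlo G T hm) z Q)
    (l1 : ∀ e ∈ pcz (tlo G T hm) y (U z),
      (msC G (CP G Z T S z) e.1).card ≤ (msC G (CP G Z T S y) e.1).card)
    (l2 : ∀ e ∈ pcz (tlo G T hm) z (U y),
      (msC G (CP G Z T S y) e.1).card ≤ (msC G (CP G Z T S z) e.1).card) {En : ℤ}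
    (EN : (NE G (S z) : ℤ) + E G ((pcz (tlo G T hm) y (U z)).image Prod.fst)
      ≤ En + 2 * ∑ e ∈ pcz (tlo G T hm) y (U z), (nd G (CP G Z T S z) e.1 : ℤ)) :
    RowM G Z T hm r S U 1 K X z {y}
      (NE G (S z) - En
        - (((pcz (tlo G T hm) y (U z)).card : ℤ)
            + ∑ u ∈ K, (if host u = y then (ipc u : ℤ) else 0))
          * (((pcz (tlo G T hm) y (U z)).card : ℤ)
            + ∑ u ∈ K, (if host u = y then (ipc u : ℤ) else 0) + 1)
        + 2 * (∑ u ∈ K, (if host u = y then (ipc u : ℤ) else 0))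
          * ((pcz (tlo G T hm) y (U z)).card : ℤ)
        + 2 * ∑ u ∈ K, (if host u = y then (ipc u : ℤ) * (iar G (CP G Z T S y) u : ℤ) else 0)
        - E G ((upc (tlo G T hm) z (U y) K).image Prod.fst)) := by
  have fz := h z hz
  have fy := h y hy
  have h1 := Fam.rowM_joint hF hP hh hC hW h hz hy hzy hK hk hX l1 l2
  refine h1.mono ?_
  obtain ⟨tl, htl⟩ : ∃ tl, tl = tlo G T hm := ⟨_, rfl⟩
  rw [← htl] at EN hk fz fy ⊢
  obtain ⟨P1, hP1⟩ : ∃ P, P = pcz tl y (U z) := ⟨_, rfl⟩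
  obtain ⟨P2, hP2⟩ : ∃ P, P = upc tl z (U y) K := ⟨_, rfl⟩
  have g2 : ∑ u ∈ K, (if host u = y then (ipc u : ℤ) else 0) = (P2.card : ℤ) := by
    have h2 := sum_upc (U := U y) (host := host) hk hst fun _ => 1
    rw [← hP2, sum_const, nsmul_eq_mul, mul_one] at h2
    rw [h2]
    refine sum_congr rfl fun u _ => ?_
    rcases u with Q | e
    · simp [ipc]
    · simp [ipc]
  have g3 : ∑ u ∈ K, (if host u = y then (ipc u : ℤ) * (iar G (CP G Z T S y) u : ℤ) else 0)
      = ∑ e ∈ P2, (nd G (CP G Z T S y) e.1 : ℤ) := by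
    rw [hP2, sum_upc (U := U y) (host := host) hk hst]
    refine sum_congr rfl fun u _ => ?_
    rcases u with Q | e
    · simp [ipc]
    · simp only [ipc, Sum.elim_inr, iar_inr, Nat.cast_one, one_mul]
  rw [← hP1] at EN
  rw [g2, g3, ← hP1, ← hP2]
  have j1 : ∀ e ∈ P1, ∀ f ∈ P1, e.1 = f.1 → e = f := by
    rw [hP1]
    exact fz.pcz_inj
  have mP2 : ∀ e ∈ P2, Sum.inr e ∈ U y ∧ tl e.1 = z ∧ Sum.inr e ∈ K := fun e he =>
    mem_upc.1 (hP2 ▸ he)
  have j2 : ∀ e ∈ P2, ∀ f ∈ P2, e.1 = f.1 → e = f := fun e he f hf hef =>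
    fy.pcz_inj e (mem_pcz.2 ⟨(mP2 e he).1, (mP2 e he).2.1⟩) f
      (mem_pcz.2 ⟨(mP2 f hf).1, (mP2 f hf).2.1⟩) hef
  have s1 : ∀ (C : Finset V), ∑ v ∈ P1.image Prod.fst, (nd G C v : ℤ)
      = ∑ e ∈ P1, (nd G C e.1 : ℤ) := fun C =>
    sum_image fun e he f hf hef => j1 e he f hf hef
  have s2 : ∀ (C : Finset V), ∑ v ∈ P2.image Prod.fst, (nd G C v : ℤ)
      = ∑ e ∈ P2, (nd G C e.1 : ℤ) := fun C =>
    sum_image fun e he f hf hef => j2 e he f hf hef
  have c1 : (P1.image Prod.fst).card = P1.card :=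
    card_image_of_injOn fun e he f hf hef =>
      j1 e (by exact_mod_cast he) f (by exact_mod_cast hf) hef
  have c2 : (P2.image Prod.fst).card = P2.card :=
    card_image_of_injOn fun e he f hf hef =>
      j2 e (by exact_mod_cast he) f (by exact_mod_cast hf) hef
  have h7 := E_union_le (G := G) (P1.image Prod.fst) (P2.image Prod.fst)
  rw [c1, c2] at h7
  rw [s1, s2]
  linarith

/-- **T+ of `z` with the columns of `y`, the PC pairs of both homes in joint form, over the items**: any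
system, any energy `En`, any saving `sv`, exact number of points, no sign condition -/
theorem Fam.rowG_of (hF : PFrame G r m t Z T) (hP : PG G r) (hh : Homes G Z T hm)
    (hC : CSys G Z T hm A S)
    (hW : WSysT G (co G) A (CP G Z T S) (HP G Z T S) (tlo G T hm))
    (h : ∀ x ∈ A, Fam (co G) (CP G Z T S) (HP G Z T S) (tlo G T hm) x (U x))
    {ho : Itm V → V} (hho : ∀ x ∈ A, ∀ u ∈ U x, ho u = x)
    {z y : V} (hz : z ∈ A) (hy : y ∈ A) (hzy : z ≠ y) {K : Finset (Itm V)}
    (hK : K ⊆ (A.erase z).biUnion U) (hk : ∀ u ∈ K, ikp (tlo G T hm) z u ≠ 0)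
    {X : Finset V → Finset V} (hX : ∀ Q, X Q ⊆ oth (tlo G T hm) z Q)
    (hX1 : ∀ u ∈ K, (rpts (tlo G T hm) X z u).card = ikp (tlo G T hm) z u + 1)
    (l1 : ∀ e ∈ pcz (tlo G T hm) y (U z),
      (msC G (CP G Z T S z) e.1).card ≤ (msC G (CP G Z T S y) e.1).card)
    (l2 : ∀ e ∈ pcz (tlo G T hm) z (U y),
      (msC G (CP G Z T S y) e.1).card ≤ (msC G (CP G Z T S z) e.1).card) {En : ℤ}
    (EN : (NE G (S z) : ℤ) + E G ((pcz (tlo G T hm) y (U z)).image Prod.fst)
      ≤ En + 2 * ∑ e ∈ pcz (tlo G T hm) y (U z), (nd G (CP G Z T S z) e.1 : ℤ)) {sv : ℤ}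
    (hsv : (NE G (K.biUnion (rpts (tlo G T hm) X z) \ CP G Z T S y) : ℤ)
        + (sv + E G ((upc (tlo G T hm) z (U y) K).image Prod.fst))
        + (K.biUnion (rpts (tlo G T hm) X z) \ CP G Z T S y).card
      ≤ ((K.biUnion (rpts (tlo G T hm) X z) \ CP G Z T S y).card : ℤ)
        * (K.biUnion (rpts (tlo G T hm) X z) \ CP G Z T S y).card) :
    2 * ((r : ℤ) - 1) * (((S z).card : ℤ) - r)
      + 2 * ∑ u ∈ K, (((CP G Z T S z).card : ℤ) * ikp (tlo G T hm) z u
          - (rcl G (CP G Z T S) (tlo G T hm) X z u).card)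
      + 2 * ∑ u ∈ U z, iht G (CP G Z T S) (tlo G T hm) y u
      + sv
      ≤ En
        + (((pcz (tlo G T hm) y (U z)).card : ℤ) + ∑ u ∈ K, (if ho u = y then (ipc u : ℤ) else 0))
          * (((pcz (tlo G T hm) y (U z)).card : ℤ)
            + ∑ u ∈ K, (if ho u = y then (ipc u : ℤ) else 0) + 1)
        + 2 * (∑ u ∈ K, ((ikp (tlo G T hm) z u : ℤ) + 1 - if ho u = y then (ipc u : ℤ) else 0)
            + (CP G Z T S y).card) * (((S z).card : ℤ) - r + 1)
        + (∑ u ∈ K, ((ikp (tlo G T hm) z u : ℤ) + 1 - if ho u = y then (ipc u : ℤ) else 0))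
          * (∑ u ∈ K, ((ikp (tlo G T hm) z u : ℤ) + 1
            - if ho u = y then (ipc u : ℤ) else 0) - 1)
        + 2 * ∑ u ∈ K, (if ho u = y then (1 - (ipc u : ℤ)) * (iar G (CP G Z T S y) u : ℤ)
            else ((ikp (tlo G T hm) z u : ℤ) + 1) * (CP G Z T S y).card) := by
  have hsty : ∀ u ∈ K, (ho u = y ↔ u ∈ U y) := by
    intro u hu
    obtain ⟨x, hx, hux⟩ := mem_biUnion.1 (hK hu)
    constructor
    · intro h1
      rw [hho x (mem_of_mem_erase hx) u hux] at h1
      exact h1 ▸ hux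
    · exact hho y hy u
  have h1 := Fam.rowM_G hF hP hh hC hW h hz hy hzy hK hk hsty hX l1 l2 EN
  have hJ : ({y} : Finset V) ⊆ A := singleton_subset_iff.2 hy
  have h2 := Fam.rowMX_of hW hC h hho hJ hK hk hX hX1
    (EX := NE G (S z) - En
        - (((pcz (tlo G T hm) y (U z)).card : ℤ)
            + ∑ u ∈ K, (if ho u = y then (ipc u : ℤ) else 0))
          * (((pcz (tlo G T hm) y (U z)).card : ℤ)
            + ∑ u ∈ K, (if ho u = y then (ipc u : ℤ) else 0) + 1)
        + 2 * (∑ u ∈ K, (if ho u = y then (ipc u : ℤ) else 0))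
          * ((pcz (tlo G T hm) y (U z)).card : ℤ)
        + 2 * ∑ u ∈ K, (if ho u = y then (ipc u : ℤ) * (iar G (CP G Z T S y) u : ℤ) else 0)
        - E G ((upc (tlo G T hm) z (U y) K).image Prod.fst))
    (by
      rw [card_singleton, Nat.cast_one]
      exact h1)
    (sv := sv + E G ((upc (tlo G T hm) z (U y) K).image Prod.fst))
    (by
      rw [singleton_biUnion]
      exact hsv)
  simp only [sum_singleton, card_singleton, mem_singleton, Nat.cast_one, erase_singleton,
    sum_empty, sub_self, zero_mul, sub_zero, add_zero] at h2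
  have h3 : ∑ u ∈ K, (if ho u = y then (iar G (CP G Z T S (ho u)) u : ℤ)
              + ((ikp (tlo G T hm) z u : ℤ) + 1 - ipc u) * (∑ l ∈ ({y} : Finset V).erase (ho u),
                ((CP G Z T S l).card : ℤ))
            else ((ikp (tlo G T hm) z u : ℤ) + 1) * ((CP G Z T S y).card : ℤ))
      = ∑ u ∈ K, (if ho u = y then (1 - (ipc u : ℤ)) * (iar G (CP G Z T S y) u : ℤ)
            else ((ikp (tlo G T hm) z u : ℤ) + 1) * (CP G Z T S y).card)
        + ∑ u ∈ K, (if ho u = y then (ipc u : ℤ) * (iar G (CP G Z T S y) u : ℤ) else 0) := by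
    rw [← sum_add_distrib]
    refine sum_congr rfl fun u hu => ?_
    by_cases h5 : ho u = y
    · rw [if_pos h5, if_pos h5, if_pos h5, h5, erase_singleton, sum_empty]
      ring
    · rw [if_neg h5, if_neg h5, if_neg h5, add_zero]
  have h4 : ∑ u ∈ U z, (ipc u : ℤ) * ikp (tlo G T hm) y u
      = ((pcz (tlo G T hm) y (U z)).card : ℤ) := by
    have h5 : ∀ f : Itm V → ℤ, ∑ u ∈ U z, f u
        = ∑ Q ∈ (U z).toLeft, f (Sum.inl Q) + ∑ e ∈ (U z).toRight, f (Sum.inr e) := by
      intro f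
      rw [← sum_disjSum, toLeft_disjSum_toRight]
    rw [h5]
    have h6 : pcz (tlo G T hm) y (U z) = (U z).toRight.filter fun e => tlo G T hm e.1 = y := by
      ext e
      rw [mem_pcz, mem_filter, mem_toRight]
    rw [h6, card_filter]
    simp only [ipc, Nat.cast_zero, zero_mul, sum_const_zero, zero_add, Nat.cast_one, one_mul, ikp]
    push_cast
    rfl
  rw [h3, h4] at h2
  clear h1 hsv EN h3
  linarith

end RowGD

end Pool.Agent.Lib.MP_f04ccf_co
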