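import Pool.Agent.Lib.MP_f04ccf_co.M.RowG
import Pool.Agent.Lib.MP_f04ccf_co.M.RowX

/-!
MP_f04ccf_co, note 17535 (helper39): the row test of the row `i` with the columns of `j`, the PC pairs of BOTH
homes of the cell in joint form, over the row indices.  The energy of `i` is a hypothesis (`EN`), so the test
serves both versions of the packings.

* `WCoreK.rowM_G`: `Fam.rowM_joint` with the energy inserted;
* `WCoreK.savG`: savings of missing pairs among the other used points;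
* `WCoreK.rowG`: over the row indices.
-/

set_option autoImplicit false

namespace Pool.Agent.Lib.MP_f04ccf_co

open Finset

attribute [local instance] Classical.propDecidable

section RowGI

variable {V : Type*} {G : SimpleGraph V} {Z T : Finset V} {hm : V → V} {r m n p : ℕ}
  {B : V → Finset (V × V)} {Ps : V → Finset (Finset V)}

lemma iar_inr {C : Finset V} {e : V × V} : iar G C (Sum.inr e) = nd G C e.1 := by
  unfold iar
  simp only [imem, sum_singleton]

/-- the used PC pairs of `y` with tail `z`: sums over the used items of host `y` -/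
lemma sum_upc {tl : V → V} {z y : V} {U K : Finset (Itm V)} {host : Itm V → V}
    (hk : ∀ u ∈ K, ikp tl z u ≠ 0) (hst : ∀ u ∈ K, (host u = y ↔ u ∈ U)) (f : V × V → ℤ) :
    ∑ e ∈ upc tl z U K, f e
      = ∑ u ∈ K, (if host u = y then Sum.elim (fun _ => 0) f u else 0) := by
  have h1 : (upc tl z U K).image Sum.inr ⊆ K := by
    intro u hu
    obtain ⟨e, he, rfl⟩ := mem_image.1 hu
    exact (mem_upc.1 he).2.2
  rw [← sum_subset h1]
  · rw [sum_image fun e _ f _ hef => Sum.inr_injective hef]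
    refine sum_congr rfl fun e he => ?_
    obtain ⟨h2, -, h3⟩ := mem_upc.1 he
    rw [if_pos ((hst _ h3).2 h2)]
    rfl
  · intro u hu hu'
    by_cases h2 : host u = y
    · rw [if_pos h2]
      rcases u with Q | e
      · rfl
      · exfalso
        refine hu' (mem_image_of_mem _ (mem_upc.2 ⟨(hst _ hu).1 h2, ?_, hu⟩))
        by_contra h3
        exact hk _ hu (by simp only [ikp, h3, if_false])
    · rw [if_neg h2]

/-- **the row test with the PC pairs of both homes in joint form, the energy inserted** -/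
theorem WCoreK.rowM_G (hp : 2 * r ≤ p) (h : WCoreK G Z T r m n p hm) {host : Itm V → V}
    (hpk : ∀ x ∈ T, Pk G (cz G Z T hm x) (hz G Z T hm x) (tlo G T hm) (B x) (Ps x))
    (hst : ∀ x ∈ T, ∀ u ∈ pkf (B x) (Ps x), host u = x)
    {z y : V} (hz1 : z ∈ T) (hy : y ∈ T) (hzy : z ≠ y) {K : Finset (Itm V)}
    (hK : K ⊆ (T.erase z).biUnion fun x => pkf (B x) (Ps x))
    (hk : ∀ u ∈ K, ikp (tlo G T hm) z u ≠ 0)
    {X : Finset V → Finset V} (hX : ∀ Q, X Q ⊆ oth (tlo G T hm) z Q) {En : ℤ}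
    (EN : 2 * eI G hm Z z + E G ((pcs (tlo G T hm) (B z) y).image Prod.fst)
      ≤ En + 2 * ∑ e ∈ pcs (tlo G T hm) (B z) y, (nd G (cz G Z T hm z) e.1 : ℤ)) :
    RowM G Z T hm r (fun x => Z.filter fun v => hm v = x) (fun x => pkf (B x) (Ps x)) 1 K X z {y}
      (2 * eI G hm Z z - En
        - (pcn (tlo G T hm) B z y + ∑ u ∈ K, (if host u = y then (ipc u : ℤ) else 0))
          * (pcn (tlo G T hm) B z y + ∑ u ∈ K, (if host u = y then (ipc u : ℤ) else 0) + 1)
        + 2 * (∑ u ∈ K, (if host u = y then (ipc u : ℤ) else 0)) * pcn (tlo G T hm) B z y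
        + 2 * ∑ u ∈ K, (if host u = y then (ipc u : ℤ) * (iar G (cz G Z T hm y) u : ℤ) else 0)
        - E G ((upc (tlo G T hm) z (pkf (B y) (Ps y)) K).image Prod.fst)) := by
  have hfam : ∀ x ∈ T, Fam (co G) (cz G Z T hm) (hz G Z T hm) (tlo G T hm) x
      (pkf (B x) (Ps x)) := fun x hx => (hpk x hx).fam (h.csys.dCH hx hx).symm
  have fz := hfam z hz1
  have fy := hfam y hy
  have hpcz : ∀ x w, pcz (tlo G T hm) w (pkf (B x) (Ps x)) = pcs (tlo G T hm) (B x) w := by
    intro x w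
    ext e
    rw [mem_pcz, mem_pcs, inr_mem_pkf]
  have hsty : ∀ u ∈ K, (host u = y ↔ u ∈ pkf (B y) (Ps y)) := by
    intro u hu
    obtain ⟨x, hx, hux⟩ := mem_biUnion.1 (hK hu)
    constructor
    · intro h1
      rw [hst x (mem_of_mem_erase hx) u hux] at h1
      exact h1 ▸ hux
    · exact hst y hy u
  have h1 := Fam.rowM_joint h.F.toPFrame h.gp.P h.hh h.csys h.wsysT hfam hz1 hy hzy hK hk hX
    (fun e he => by
      rw [hpcz, mem_pcs] at he
      exact h.ms_le hp hz1 hy hzy ((hpk z hz1).bH e he.1) he.2)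
    (fun e he => by
      rw [hpcz, mem_pcs] at he
      exact h.ms_le hp hy hz1 hzy.symm ((hpk y hy).bH e he.1) he.2)
  rw [hpcz] at h1
  refine h1.mono ?_
  set tl := tlo G T hm with htl
  obtain ⟨P1, hP1⟩ : ∃ P, P = pcs tl (B z) y := ⟨_, rfl⟩
  obtain ⟨P2, hP2⟩ : ∃ P, P = upc tl z (pkf (B y) (Ps y)) K := ⟨_, rfl⟩
  have g1 : pcn tl B z y = (P1.card : ℤ) := by rw [hP1]; rfl
  have g2 : ∑ u ∈ K, (if host u = y then (ipc u : ℤ) else 0) = (P2.card : ℤ) := by
    have h2 := sum_upc (U := pkf (B y) (Ps y)) (host := host) hk hsty fun _ => 1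
    rw [← hP2, sum_const, nsmul_eq_mul, mul_one] at h2
    rw [h2]
    refine sum_congr rfl fun u _ => ?_
    rcases u with Q | e
    · simp [ipc]
    · simp [ipc]
  have g3 : ∑ u ∈ K, (if host u = y then (ipc u : ℤ) * (iar G (cz G Z T hm y) u : ℤ) else 0)
      = ∑ e ∈ P2, (nd G (cz G Z T hm y) e.1 : ℤ) := by
    rw [hP2, sum_upc (U := pkf (B y) (Ps y)) (host := host) hk hsty]
    refine sum_congr rfl fun u _ => ?_
    rcases u with Q | e
    · simp [ipc]
    · simp only [ipc, Sum.elim_inr, iar_inr, Nat.cast_one, one_mul]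
  rw [← hP1] at EN
  rw [g1, g2, g3, ← hP1, ← hP2]
  have j1 : ∀ e ∈ P1, ∀ f ∈ P1, e.1 = f.1 → e = f := by
    rw [hP1, ← hpcz]
    exact fz.pcz_inj
  have mP2 : ∀ e ∈ P2, Sum.inr e ∈ pkf (B y) (Ps y) ∧ tl e.1 = z ∧ Sum.inr e ∈ K := fun e he =>
    mem_upc.1 (hP2 ▸ he)
  have j2 : ∀ e ∈ P2, ∀ f ∈ P2, e.1 = f.1 → e = f := fun e he f hf hef =>
    fy.pcz_inj e (mem_pcz.2 ⟨(mP2 e he).1, (mP2 e he).2.1⟩) f
      (mem_pcz.2 ⟨(mP2 f hf).1, (mP2 f hf).2.1⟩) hef
  have s1 : ∀ (C : Finset V), ∑ v ∈ P1.image Prod.fst, (nd G C v : ℤ)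
      = ∑ e ∈ P1, (nd G C e.1 : ℤ) := fun C =>
    sum_image fun e he f hf hef => j1 e he f hf hef
  have s2 : ∀ (C : Finset V), ∑ v ∈ P2.image Prod.fst, (nd G C v : ℤ)
      = ∑ e ∈ P2, (nd G C e.1 : ℤ) := fun C =>
    sum_image fun e he f hf hef => j2 e he f hf hef
  have c1 : (P1.image Prod.fst).card = P1.card :=
    card_image_of_injOn fun e he f hf hef =>
      j1 e (by exact_mod_cast he) f (by exact_mod_cast hf) hef
  have c2 : (P2.image Prod.fst).card = P2.card :=
    card_image_of_injOn fun e he f hf hef =>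
      j2 e (by exact_mod_cast he) f (by exact_mod_cast hf) hef
  have h3 := E_add_NE (G := G) (P1.image Prod.fst ∪ P2.image Prod.fst)
  have h4 : ((P1.image Prod.fst ∪ P2.image Prod.fst).card : ℤ) ≤ P1.card + P2.card := by
    have := card_union_le (P1.image Prod.fst) (P2.image Prod.fst)
    rw [c1, c2] at this
    exact_mod_cast this
  rw [s1, s2]
  have h5 : (0 : ℤ) ≤ NE G (P1.image Prod.fst ∪ P2.image Prod.fst) := Nat.cast_nonneg _
  have h6 : (0 : ℤ) ≤ (P1.image Prod.fst ∪ P2.image Prod.fst).card := Nat.cast_nonneg _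
  have h7 : (E G (P1.image Prod.fst ∪ P2.image Prod.fst) : ℤ)
      ≤ ((P1.card : ℤ) + P2.card) * ((P1.card : ℤ) + P2.card) - ((P1.card : ℤ) + P2.card) := by
    obtain ⟨w, hw⟩ : ∃ w : ℤ, w = (P1.image Prod.fst ∪ P2.image Prod.fst).card := ⟨_, rfl⟩
    rw [← hw] at h3 h4 h6
    have h8 : w * (w - 1) ≤ ((P1.card : ℤ) + P2.card) * (((P1.card : ℤ) + P2.card) - 1) := by
      rcases eq_or_lt_of_le h6 with h9 | h9
      · rw [← h9]
        rw [zero_mul]
        rcases Nat.eq_zero_or_pos (P1.card + P2.card) with h10 | h10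
        · have : (P1.card : ℤ) + P2.card = 0 := by exact_mod_cast h10
          rw [this]
          norm_num
        · have : (1 : ℤ) ≤ (P1.card : ℤ) + P2.card := by exact_mod_cast h10
          exact mul_nonneg (by linarith) (by linarith)
      · nlinarith
    linarith
  have h8 : ∀ x, CP G Z T (fun x => Z.filter fun v => hm v = x) x = cz G Z T hm x := fun _ => rfl
  rw [h8, h8]
  linarith

/-- **T+ of the row `i` with the columns of `j` over the row indices, the PC pairs of both homes of the cell in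
joint form**: `M = be i j + q`, `q` the number of used PC pairs of the host `j`; any energy `En`, any saving
`sv`, no sign condition, exact number of used points -/
theorem WCoreK.rowG (hp : 2 * r ≤ p) (h : WCoreK G Z T r m n p hm)
    {host : Itm V → V} {ρ : V → ℕ} {σ : ℕ → V}
    (hpk : ∀ x ∈ T, Pk G (cz G Z T hm x) (hz G Z T hm x) (tlo G T hm) (B x) (Ps x))
    (hst : ∀ x ∈ T, ∀ u ∈ pkf (B x) (Ps x), host u = x)
    (rk : Rank T (tI G Z T hm r Z) ρ σ) {i j : ℕ} (hi : i < n) (hj : j < n) (hij : i ≠ j)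
    {K : Finset (Itm V)}
    (hK : K ⊆ T.biUnion fun x => pkf (B x) (Ps x)) (hKh : ∀ u ∈ K, ρ (host u) ≠ i)
    (hk : ∀ u ∈ K, ikp (tlo G T hm) (σ i) u ≠ 0) {En : ℤ}
    (EN : 2 * eI G hm Z (σ i) + E G ((pcs (tlo G T hm) (B (σ i)) (σ j)).image Prod.fst)
      ≤ En + 2 * ∑ e ∈ pcs (tlo G T hm) (B (σ i)) (σ j), (nd G (cz G Z T hm (σ i)) e.1 : ℤ))
    {sv : ℤ}
    (hsv : (NE G (K.biUnion (rpts (tlo G T hm) (fun Q => one1 (oth (tlo G T hm) (σ i) Q)) (σ i))
          \ cz G Z T hm (σ j)) : ℤ)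
        + (sv + E G ((upc (tlo G T hm) (σ i) (pkf (B (σ j)) (Ps (σ j))) K).image Prod.fst))
        + (K.biUnion (rpts (tlo G T hm) (fun Q => one1 (oth (tlo G T hm) (σ i) Q)) (σ i))
          \ cz G Z T hm (σ j)).card
      ≤ ((K.biUnion (rpts (tlo G T hm) (fun Q => one1 (oth (tlo G T hm) (σ i) Q)) (σ i))
          \ cz G Z T hm (σ j)).card : ℤ)
        * (K.biUnion (rpts (tlo G T hm) (fun Q => one1 (oth (tlo G T hm) (σ i) Q)) (σ i))
          \ cz G Z T hm (σ j)).card) :
    2 * ((r : ℤ) - 1) * sI hm r Z (σ i)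
      + 2 * ∑ u ∈ K, ((ikp (tlo G T hm) (σ i) u : ℤ) * ((r : ℤ) - 1 - tI G Z T hm r Z (σ i))
        - (rmr G (cz G Z T hm) (tlo G T hm) (σ i) u : ℤ))
      + 2 * ∑ u ∈ (T.biUnion fun x => pkf (B x) (Ps x)).filter (fun u => ρ (host u) = i),
        ((ikp (tlo G T hm) (σ j) u : ℤ) * ((r : ℤ) - 1 - tI G Z T hm r Z (σ j))
          - (ims G (cz G Z T hm) (tlo G T hm) (σ j) u : ℤ))
      + sv
      ≤ En
        + (pcn (tlo G T hm) B (σ i) (σ j) + ∑ u ∈ K, (if ρ (host u) = j then (ipc u : ℤ) else 0))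
          * (pcn (tlo G T hm) B (σ i) (σ j)
            + ∑ u ∈ K, (if ρ (host u) = j then (ipc u : ℤ) else 0) + 1)
        + 2 * (∑ u ∈ K, ((ikp (tlo G T hm) (σ i) u : ℤ) + 1
            - if ρ (host u) = j then (ipc u : ℤ) else 0)
            + ((r : ℤ) - 1 - tI G Z T hm r Z (σ j))) * (sI hm r Z (σ i) + 1)
        + (∑ u ∈ K, ((ikp (tlo G T hm) (σ i) u : ℤ) + 1
            - if ρ (host u) = j then (ipc u : ℤ) else 0))
          * (∑ u ∈ K, ((ikp (tlo G T hm) (σ i) u : ℤ) + 1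
            - if ρ (host u) = j then (ipc u : ℤ) else 0) - 1)
        + 2 * ∑ u ∈ K, (if ρ (host u) = j
            then (1 - (ipc u : ℤ)) * (iar G (cz G Z T hm (host u)) u : ℤ)
            else ((ikp (tlo G T hm) (σ i) u : ℤ) + 1)
              * ((r : ℤ) - 1 - tI G Z T hm r Z (σ j))) := by
  have hcard := h.toWHom.cardT
  have hmem : ∀ i < n, σ i ∈ T := fun i hi => rk.mem i (by rw [hcard]; exact hi)
  have hne : σ i ≠ σ j := fun h1 =>
    hij (rk.sinj (by rw [hcard]; exact hi) (by rw [hcard]; exact hj) h1)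
  have hmK : ∀ u ∈ K, ∃ x ∈ T, u ∈ pkf (B x) (Ps x) ∧ host u = x := by
    intro u hu
    obtain ⟨x, hx, hux⟩ := mem_biUnion.1 (hK hu)
    exact ⟨x, hx, hux, hst x hx u hux⟩
  have hK' : K ⊆ (T.erase (σ i)).biUnion fun x => pkf (B x) (Ps x) := by
    intro u hu
    obtain ⟨x, hx, hux⟩ := mem_biUnion.1 (hK hu)
    refine mem_biUnion.2 ⟨x, mem_erase.2 ⟨fun h1 => hKh u hu ?_, hx⟩, hux⟩
    show ρ (host u) = i
    rw [hst x hx u hux, h1]
    exact rk.right i (by rw [hcard]; exact hi)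
  have hho : ∀ u ∈ K, (host u = σ j ↔ ρ (host u) = j) := by
    intro u hu
    obtain ⟨x, hx, -, hxx⟩ := hmK u hu
    rw [hxx]
    constructor
    · rintro rfl
      exact rk.right j (by rw [hcard]; exact hj)
    · rintro rfl
      exact (rk.left x hx).symm
  have h1 := h.rowM_G hp hpk hst (hmem i hi) (hmem j hj) hne hK' hk
    (X := fun Q => one1 (oth (tlo G T hm) (σ i) Q)) (fun Q => one1_sub _) EN
  have h2 : ∀ f : Itm V → ℤ, ∑ u ∈ K, (if host u = σ j then f u else 0)
      = ∑ u ∈ K, (if ρ (host u) = j then f u else 0) := by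
    intro f
    refine sum_congr rfl fun u hu => ?_
    by_cases h3 : ρ (host u) = j
    · rw [if_pos h3, if_pos ((hho u hu).2 h3)]
    · rw [if_neg h3, if_neg fun h4 => h3 ((hho u hu).1 h4)]
  rw [h2, h2] at h1
  have h3 := h.toWHom.rowX hpk hst rk hi (J := {j}) (fun l hl => by
    rw [mem_singleton.1 hl]
    exact hj) (fun hl => hij (mem_singleton.1 hl)) hK hKh hk
    (EX := 2 * eI G hm Z (σ i) - En
        - (pcn (tlo G T hm) B (σ i) (σ j) + ∑ u ∈ K, (if ρ (host u) = j then (ipc u : ℤ) else 0))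
          * (pcn (tlo G T hm) B (σ i) (σ j)
            + ∑ u ∈ K, (if ρ (host u) = j then (ipc u : ℤ) else 0) + 1)
        + 2 * (∑ u ∈ K, (if ρ (host u) = j then (ipc u : ℤ) else 0))
          * pcn (tlo G T hm) B (σ i) (σ j)
        + 2 * ∑ u ∈ K, (if ρ (host u) = j
          then (ipc u : ℤ) * (iar G (cz G Z T hm (σ j)) u : ℤ) else 0)
        - E G ((upc (tlo G T hm) (σ i) (pkf (B (σ j)) (Ps (σ j))) K).image Prod.fst))
    (by
      rw [image_singleton, card_singleton, Nat.cast_one]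
      exact h1)
    (sv := sv + E G ((upc (tlo G T hm) (σ i) (pkf (B (σ j)) (Ps (σ j))) K).image Prod.fst))
    (by
      rw [image_singleton, singleton_biUnion]
      exact hsv)
  simp only [sum_singleton, card_singleton, mem_singleton, Nat.cast_one] at h3
  have h4 : ∑ u ∈ K, (if ρ (host u) = j
            then (iar G (cz G Z T hm (host u)) u : ℤ)
              - ((ikp (tlo G T hm) (σ i) u : ℤ) + 1 - ipc u)
                * (tI G Z T hm r Z (σ j) - tI G Z T hm r Z (host u))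
            else ((ikp (tlo G T hm) (σ i) u : ℤ) + 1)
              * ((r : ℤ) - 1 - tI G Z T hm r Z (σ j)))
      = ∑ u ∈ K, (if ρ (host u) = j
            then (1 - (ipc u : ℤ)) * (iar G (cz G Z T hm (host u)) u : ℤ)
            else ((ikp (tlo G T hm) (σ i) u : ℤ) + 1)
              * ((r : ℤ) - 1 - tI G Z T hm r Z (σ j)))
        + ∑ u ∈ K, (if ρ (host u) = j
          then (ipc u : ℤ) * (iar G (cz G Z T hm (σ j)) u : ℤ) else 0) := by
    rw [← sum_add_distrib]
    refine sum_congr rfl fun u hu => ?_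
    by_cases h5 : ρ (host u) = j
    · rw [if_pos h5, if_pos h5, if_pos h5, (hho u hu).2 h5]
      ring
    · rw [if_neg h5, if_neg h5, if_neg h5, add_zero]
  rw [h4] at h3
  clear h1 hsv EN h4
  linarith

end RowGI

end Pool.Agent.Lib.MP_f04ccf_co
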