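import Pool.Agent.Lib.MP_f04ccf_co.M.RulH
import Pool.Agent.Lib.MP_f04ccf_co.M.RowF3
import Pool.Agent.Lib.MP_f04ccf_co.M.CelX

/-!
MP_f04ccf_co, TEXT D, regime H, table Y+: **the row claim of `LevC.close_H3` from the cells**.

Row `z ≠ 0`, `A = t z + 1`, `C = R - (t 0 + 1)`, `c = R - A`, `d = mu z - s z`, `L` the light rows, `F` the free units.

* `clTW F T W z y`, `shHN F z y`: the shares of the row `z` in the units with host and main end in `{z, y}`;
* `LevC.cells_sum`: the row sum is the sum of the cells of the heavy partners (any shares);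
* `LevC.rowT_num`, `LevC.rowH_num`: hub cell `≤ E₁`, thirds `≤ X y`, `E₁ + ∑ X y ≤ d + δ` give the row claim
  (any shares `T`, `W`; table Y+);
* `rowH_mass`: the mass of the heavy thirds (with the touching units, if the hub is heavy);
* `LevC.rowT_lin`: the same as `rowT_num` with `X y = α (B - u) + ζ u + γ e`;
* `LevC.TuH_*`: the shares by type; `LevC.shHN_hub`, `LevC.shHN_host`, `LevC.shHN_served`: the cells by type.
-/

set_option autoImplicit false

namespace Pool.Agent.Lib.MP_f04ccf_co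

open Finset

attribute [local instance] Classical.propDecidable

section RowHN

variable {ι : Type*} {R : ℤ} {n : ℕ} {t s mu : ℕ → ℤ} {U : Finset ι} {ho : ι → ℕ} {vl : ι → ℤ}
  {kp mn : ℕ → ι → ℤ} {pc ar : ι → ℤ} {be kq NN sg : ℕ → ℕ → ℤ} {nu : ℕ → ι → ℤ}
  {φ ψ : ι → ℕ → ℤ} {g : ℕ → ι → ℕ} {f : ι → ℕ}

/-- the shares of the row `z` in the cell `{z, y}` -/
noncomputable def shHN (R : ℤ) (t : ℕ → ℤ) (ho : ι → ℕ) (vl : ι → ℤ) (kp mn : ℕ → ι → ℤ)
    (g : ℕ → ι → ℕ) (f : ι → ℕ) (F : Finset (ι × ℕ × ℕ)) (z y : ℕ) : ℝ :=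
  ∑ v ∈ F.filter (fun v => ho v.1 = z ∧ v.2.1 = y), (1 - TuH R t ho vl kp mn g f v)
    + ∑ v ∈ F.filter (fun v => ho v.1 = y ∧ v.2.1 = z),
      (1 - wuH R t ho vl kp mn g f v) * TuH R t ho vl kp mn g f v

/-- the main end of a unit is counted -/
lemma main_unC {P : ι → Prop} (v : ι × ℕ × ℕ) : v.2.1 ∈ unC P f v := by
  unfold unC
  split_ifs
  · exact mem_insert_self _ _
  · exact mem_singleton_self _

/-- a free unit: host and main end are heavy rows -/
lemma free_ends {P : ι → Prop} {L : Finset ℕ} {v : ι × ℕ × ℕ}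
    (hv : v ∈ freeU (unV n U g) (fun v => ho v.1) (unC P f) L) :
    v ∈ unV n U g ∧ ho v.1 ∉ L ∧ v.2.1 ∉ L := by
  obtain ⟨h1, h2, h3⟩ := mem_filter.1 hv
  exact ⟨h1, h2, fun h4 => (disjoint_left.1 h3) (main_unC v) h4⟩

/-- **the row sum is the sum of the cells of the heavy partners** -/
theorem LevC.cells_sum (Lv : LevC n U ho vl kp mn pc φ g f)
    (H : PCon R n t s mu U ho vl kp mn pc ar be kq NN sg nu) {P : ι → Prop} {L : Finset ℕ}
    {F : Finset (ι × ℕ × ℕ)} (hF : F = freeU (unV n U g) (fun v => ho v.1) (unC P f) L) (z : ℕ)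
    (T W : ι × ℕ × ℕ → ℝ) :
    ∑ v ∈ F.filter (fun v => ho v.1 = z), T v + ∑ v ∈ F.filter (fun v => v.2.1 = z), W v
      = ∑ y ∈ (range n).erase z \ L, (∑ v ∈ F.filter (fun v => ho v.1 = z ∧ v.2.1 = y), T v
        + ∑ v ∈ F.filter (fun v => ho v.1 = y ∧ v.2.1 = z), W v) := by
  rw [sum_add_distrib]
  congr 1
  · rw [← sum_fiberwise_of_maps_to (s := F.filter fun v => ho v.1 = z)
      (t := (range n).erase z \ L) (g := fun v => v.2.1) fun v hv => ?_]
    · exact sum_congr rfl fun y _ => by rw [filter_filter]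
    · obtain ⟨h1, h2⟩ := mem_filter.1 hv
      rw [hF] at h1
      obtain ⟨h3, -, h4⟩ := free_ends h1
      have h5 := Lv.main_ne h3
      rw [h2] at h5
      exact mem_sdiff.2 ⟨mem_erase.2 ⟨h5, mem_range.2 (LevC.mem_unV h3).2.1⟩, h4⟩
  · rw [← sum_fiberwise_of_maps_to (s := F.filter fun v => v.2.1 = z)
      (t := (range n).erase z \ L) (g := fun v => ho v.1) fun v hv => ?_]
    · refine sum_congr rfl fun y _ => ?_
      rw [filter_filter]
      refine sum_congr (filter_congr fun v _ => ?_) fun _ _ => rfl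
      exact and_comm
    · obtain ⟨h1, h2⟩ := mem_filter.1 hv
      rw [hF] at h1
      obtain ⟨h3, h4, -⟩ := free_ends h1
      have h5 := Lv.main_ne h3
      rw [h2] at h5
      exact mem_sdiff.2 ⟨mem_erase.2 ⟨h5.symm, mem_range.2 (H.hlt _ (LevC.mem_unV h3).1)⟩, h4⟩

/-- the shares of the row `z` in the cell `{z, y}`: `T` at the hosted units, `W` at the served ones -/
noncomputable def clTW (ho : ι → ℕ) (F : Finset (ι × ℕ × ℕ)) (T W : ι × ℕ × ℕ → ℝ) (z y : ℕ) : ℝ :=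
  ∑ v ∈ F.filter (fun v => ho v.1 = z ∧ v.2.1 = y), T v
    + ∑ v ∈ F.filter (fun v => ho v.1 = y ∧ v.2.1 = z), W v

/-- **the row claim from the cells, any shares**: a hub cell and the thirds -/
theorem LevC.rowT_num (Lv : LevC n U ho vl kp mn pc φ g f)
    (H : PCon R n t s mu U ho vl kp mn pc ar be kq NN sg nu) {P : ι → Prop} {L : Finset ℕ}
    {F : Finset (ι × ℕ × ℕ)} (hF : F = freeU (unV n U g) (fun v => ho v.1) (unC P f) L) {z : ℕ}
    (hz0 : z ≠ 0) {T W : ι × ℕ × ℕ → ℝ} {X : ℕ → ℝ} {E₁ D : ℝ}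
    (h0 : 0 ∉ L → clTW ho F T W z 0 ≤ E₁) (hE : 0 ≤ E₁)
    (hX : ∀ y < n, y ≠ z → y ≠ 0 → y ∉ L → clTW ho F T W z y ≤ X y)
    (hb : E₁ + ∑ y ∈ ((range n).erase z).erase 0 \ L, X y ≤ D) :
    ∑ v ∈ F.filter (fun v => ho v.1 = z), T v + ∑ v ∈ F.filter (fun v => v.2.1 = z), W v ≤ D := by
  rw [Lv.cells_sum H hF z T W]
  refine le_trans ?_ hb
  have h1 : ∑ y ∈ ((range n).erase z).erase 0 \ L, clTW ho F T W z y
      ≤ ∑ y ∈ ((range n).erase z).erase 0 \ L, X y := by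
    refine sum_le_sum fun y hy => ?_
    obtain ⟨h2, h3⟩ := mem_sdiff.1 hy
    obtain ⟨h4, h5⟩ := mem_erase.1 h2
    obtain ⟨h6, h7⟩ := mem_erase.1 h5
    exact hX y (mem_range.1 h7) h6 h4 h3
  have hn : 0 < n := by have := H.n5; omega
  have h8 : ∀ S : Finset ℕ, ∑ y ∈ S, (∑ v ∈ F.filter (fun v => ho v.1 = z ∧ v.2.1 = y), T v
      + ∑ v ∈ F.filter (fun v => ho v.1 = y ∧ v.2.1 = z), W v)
      = ∑ y ∈ S, clTW ho F T W z y := fun S => rfl
  rw [h8]
  by_cases hL0 : 0 ∈ L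
  · have h2 : (range n).erase z \ L = ((range n).erase z).erase 0 \ L := by
      ext y
      simp only [mem_sdiff, mem_erase]
      constructor
      · rintro ⟨h3, h4⟩
        exact ⟨⟨fun h5 => h4 (h5 ▸ hL0), h3⟩, h4⟩
      · rintro ⟨⟨-, h3⟩, h4⟩
        exact ⟨h3, h4⟩
    rw [h2]
    linarith
  · have h2 : (range n).erase z \ L = insert 0 (((range n).erase z).erase 0 \ L) := by
      ext y
      simp only [mem_sdiff, mem_erase, mem_insert, mem_range]
      constructor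
      · rintro ⟨h3, h4⟩
        by_cases h5 : y = 0
        · exact Or.inl h5
        · exact Or.inr ⟨⟨h5, h3⟩, h4⟩
      · rintro (h3 | ⟨⟨-, h3⟩, h4⟩)
        · rw [h3]
          exact ⟨⟨Ne.symm hz0, hn⟩, hL0⟩
        · exact ⟨h3, h4⟩
    rw [h2, sum_insert (by simp)]
    have h4 := h0 hL0
    linarith

/-- **the row claim of regime H from the cells** (table Y+) -/
theorem LevC.rowH_num (Lv : LevC n U ho vl kp mn pc φ g f)
    (H : PCon R n t s mu U ho vl kp mn pc ar be kq NN sg nu) {L : Finset ℕ}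
    {F : Finset (ι × ℕ × ℕ)}
    (hF : F = freeU (unV n U g) (fun v => ho v.1) (unC (hubC ho vl kp g f) f) L) {z : ℕ}
    (hz0 : z ≠ 0) {X : ℕ → ℝ} {E₁ δ : ℝ}
    (h0 : 0 ∉ L → shHN R t ho vl kp mn g f F z 0 ≤ E₁) (hE : 0 ≤ E₁)
    (hX : ∀ y < n, y ≠ z → y ≠ 0 → y ∉ L → shHN R t ho vl kp mn g f F z y ≤ X y)
    (hb : E₁ + ∑ y ∈ ((range n).erase z).erase 0 \ L, X y ≤ (mu z : ℝ) - s z + δ) :
    ∑ v ∈ F.filter (fun v => ho v.1 = z), (1 - TuH R t ho vl kp mn g f v)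
        + ∑ v ∈ F.filter (fun v => v.2.1 = z),
          (1 - wuH R t ho vl kp mn g f v) * TuH R t ho vl kp mn g f v
      ≤ (mu z : ℝ) - s z + δ :=
  Lv.rowT_num H hF hz0 (T := fun v => 1 - TuH R t ho vl kp mn g f v)
    (W := fun v => (1 - wuH R t ho vl kp mn g f v) * TuH R t ho vl kp mn g f v) h0 hE hX hb

/-- **the mass of the heavy thirds**: with the touching units of the row `z`, if the hub is heavy -/
theorem rowH_mass (H : PCon R n t s mu U ho vl kp mn pc ar be kq NN sg nu) {P : ι → Prop} {L : Finset ℕ}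
    (hL : L = lightU n s (unV n U g) (unC P f)) {z : ℕ} (hz : z < n) (hz0 : z ≠ 0) (hzL : z ∉ L) :
    ∑ y ∈ ((range n).erase z).erase 0 \ L, (t y + 1)
      + (if 0 ∈ L then 0
          else (((touchU (unV n U g) (fun v => ho v.1) (unC P f) L).filter
            fun v => ho v.1 = z).card : ℤ))
      ≤ R - (t z + 1) - (t 0 + 1) := by
  have hn : 0 < n := by have := H.n5; omega
  by_cases h0 : 0 ∈ L
  · rw [if_pos h0, add_zero]
    have h1 := H.tsum
    rw [← add_sum_erase (range n) _ (mem_range.2 hz),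
      ← add_sum_erase ((range n).erase z) _ (mem_erase.2 ⟨Ne.symm hz0, mem_range.2 hn⟩)] at h1
    have h2 : ∑ y ∈ ((range n).erase z).erase 0 \ L, (t y + 1)
        ≤ ∑ y ∈ ((range n).erase z).erase 0, (t y + 1) := by
      refine sum_le_sum_of_subset_of_nonneg sdiff_subset fun y hy _ => ?_
      have h3 := H.t0 y (mem_range.1 (mem_of_mem_erase (mem_of_mem_erase hy)))
      linarith
    linarith
  · rw [if_neg h0]
    refine H.heavy_massH (h := fun v : ι × ℕ × ℕ => ho v.1) (C := unC P f) (fun i hi => ?_) hz hzL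
      hn h0 (Ne.symm hz0) (fun y hy => ?_)
    · rw [hL] at hi
      exact mem_lightU.1 hi
    · obtain ⟨h2, h3⟩ := mem_sdiff.1 hy
      obtain ⟨h4, h5⟩ := mem_erase.1 h2
      obtain ⟨h6, h7⟩ := mem_erase.1 h5
      exact ⟨mem_range.1 h7, h3, h6, h4⟩

/-- **the row claim from linear cell bounds, any shares** -/
theorem LevC.rowT_lin (Lv : LevC n U ho vl kp mn pc φ g f)
    (H : PCon R n t s mu U ho vl kp mn pc ar be kq NN sg nu) {P : ι → Prop} {L : Finset ℕ}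
    (hL : L = lightU n s (unV n U g) (unC P f))
    {F : Finset (ι × ℕ × ℕ)}
    (hF : F = freeU (unV n U g) (fun v => ho v.1) (unC P f) L) {z : ℕ}
    (hz : z < n) (hz0 : z ≠ 0) (hzL : z ∉ L) {T W : ι × ℕ × ℕ → ℝ} {α ζ γ G E₁ e D : ℝ}
    {u e' : ℕ → ℝ} (hα : 0 ≤ α) (hγ : 0 ≤ γ) (hζ : 0 ≤ ζ)
    (h0 : 0 ∉ L → clTW ho F T W z 0 ≤ E₁) (hE : 0 ≤ E₁)
    (hX : ∀ y < n, y ≠ z → y ≠ 0 → y ∉ L → clTW ho F T W z y
      ≤ α * (((t y : ℝ) + 1) - u y) + ζ * u y + γ * e' y)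
    (hG : ∑ y ∈ ((range n).erase z).erase 0 \ L, u y
      + (if 0 ∈ L then 0
          else (((touchU (unV n U g) (fun v => ho v.1) (unC P f) L).filter
            fun v => ho v.1 = z).card : ℝ)) = G)
    (he : ∑ y ∈ ((range n).erase z).erase 0 \ L, e' y ≤ e)
    (hb : E₁ + α * (((R : ℝ) - (t z + 1) - (t 0 + 1)) - G) + ζ * G + γ * e ≤ D) :
    ∑ v ∈ F.filter (fun v => ho v.1 = z), T v + ∑ v ∈ F.filter (fun v => v.2.1 = z), W v
      ≤ D := by
  refine Lv.rowT_num H hF hz0 h0 hE hX ?_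
  refine le_trans ?_ hb
  rw [sum_add_distrib, sum_add_distrib, ← mul_sum, ← mul_sum, ← mul_sum, sum_sub_distrib]
  have h1 := rowH_mass H hL hz hz0 hzL
  have h2 : ∑ y ∈ ((range n).erase z).erase 0 \ L, ((t y : ℝ) + 1)
      + (if 0 ∈ L then 0
          else (((touchU (unV n U g) (fun v => ho v.1) (unC P f) L).filter
            fun v => ho v.1 = z).card : ℝ))
      ≤ (R : ℝ) - (t z + 1) - (t 0 + 1) := by
    have h3 : (((∑ y ∈ ((range n).erase z).erase 0 \ L, (t y + 1)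
      + (if 0 ∈ L then 0
          else (((touchU (unV n U g) (fun v => ho v.1) (unC P f) L).filter
            fun v => ho v.1 = z).card : ℤ)) : ℤ)) : ℝ) ≤ ((R - (t z + 1) - (t 0 + 1) : ℤ) : ℝ) := by
      exact_mod_cast h1
    push_cast at h3
    exact h3
  have h3 : (0 : ℝ) ≤ (if 0 ∈ L then 0
          else (((touchU (unV n U g) (fun v => ho v.1) (unC P f) L).filter
            fun v => ho v.1 = z).card : ℝ)) := by
    split_ifs
    · exact le_rfl
    · exact Nat.cast_nonneg _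
  have h4 : α * (∑ y ∈ ((range n).erase z).erase 0 \ L, ((t y : ℝ) + 1)
      - ∑ y ∈ ((range n).erase z).erase 0 \ L, u y)
      ≤ α * (((R : ℝ) - (t z + 1) - (t 0 + 1)) - G) := by
    refine mul_le_mul_of_nonneg_left ?_ hα
    linarith
  have h5 : ζ * ∑ y ∈ ((range n).erase z).erase 0 \ L, u y ≤ ζ * G :=
    mul_le_mul_of_nonneg_left (by linarith) hζ
  have h6 : γ * ∑ y ∈ ((range n).erase z).erase 0 \ L, e' y ≤ γ * e :=
    mul_le_mul_of_nonneg_left he hγ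
  linarith

/-! ### the shares by type -/

lemma TuH_hub {v : ι × ℕ × ℕ} (h : ho v.1 = 0) : TuH R t ho vl kp mn g f v
    = if cutE kp g f v.1 then
        1 - (unb kp mn g v : ℝ) / ((R : ℝ) - (t v.2.1 + 1)) - ((R : ℝ) - (t 0 + 1)) / (4 * R)
      else 1 := by
  unfold TuH
  rw [if_pos h]

lemma TuH_main0 {v : ι × ℕ × ℕ} (h : ho v.1 ≠ 0) (h0 : v.2.1 = 0) :
    TuH R t ho vl kp mn g f v = 0 := by
  unfold TuH
  rw [if_neg h, if_pos h0]

lemma TuH_hubC {v : ι × ℕ × ℕ} (hp : hubC ho vl kp g f v.1) (h0 : v.2.1 ≠ 0) :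
    TuH R t ho vl kp mn g f v
      = ((t (ho v.1) : ℝ) + 1) * mn 0 v.1
        / (((R : ℝ) - (t 0 + 1)) * ((R : ℝ) - (t (ho v.1) + 1))) := by
  unfold TuH
  rw [if_neg hp.2.1, if_neg h0, if_pos hp]

lemma TuH_one {v : ι × ℕ × ℕ} (h : ho v.1 ≠ 0) (h0 : v.2.1 ≠ 0)
    (hp : ¬ hubC ho vl kp g f v.1) (h1 : vl v.1 = 1) :
    TuH R t ho vl kp mn g f v
      = ((t (ho v.1) : ℝ) + 1)
        / ((t (ho v.1) : ℝ) + 1 + ((t v.2.1 : ℝ) + 1 + unb kp mn g v)) := by
  unfold TuH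
  rw [if_neg h, if_neg h0, if_neg hp, if_pos h1]

lemma wuH_zero {v : ι × ℕ × ℕ} (hp : ¬ hubC ho vl kp g f v.1) :
    wuH R t ho vl kp mn g f v = 0 := by
  unfold wuH
  exact if_neg hp

lemma wuH_hubC {v : ι × ℕ × ℕ} (hp : hubC ho vl kp g f v.1) :
    wuH R t ho vl kp mn g f v = (unb kp mn g v : ℝ) / ((R : ℝ) - (t v.2.1 + 1)) := by
  unfold wuH
  exact if_pos hp

/-- **the hub cell**: hosted units with main end at the hub count `1`, served ones `1`, with a cut end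
`1 - b/c - C/(4 R)` -/
theorem shHN_hub {F : Finset (ι × ℕ × ℕ)} {z : ℕ} (hz0 : z ≠ 0) :
    shHN R t ho vl kp mn g f F z 0
      = ((F.filter fun v => ho v.1 = z ∧ v.2.1 = 0).card : ℝ)
        + ∑ v ∈ F.filter (fun v => ho v.1 = 0 ∧ v.2.1 = z),
          (if cutE kp g f v.1 then 1 - (unb kp mn g v : ℝ) / ((R : ℝ) - (t z + 1))
            - ((R : ℝ) - (t 0 + 1)) / (4 * R) else 1) := by
  unfold shHN
  congr 1
  · rw [card_eq_sum_ones, Nat.cast_sum]
    refine sum_congr rfl fun v hv => ?_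
    obtain ⟨-, h1, h2⟩ := mem_filter.1 hv
    rw [TuH_main0 (by rw [h1]; exact hz0) h2]
    simp
  · refine sum_congr rfl fun v hv => ?_
    obtain ⟨-, h1, h2⟩ := mem_filter.1 hv
    rw [wuH_zero fun h => h.2.1 h1, TuH_hub h1, h2]
    ring

/-- the hub cell, no hub-hosted item with a cut end: the number of its units -/
theorem shHN_hub_le {F : Finset (ι × ℕ × ℕ)} {z : ℕ} (hz0 : z ≠ 0)
    (h : ∀ v ∈ F, ho v.1 = 0 → v.2.1 = z → ¬ cutE kp g f v.1) :
    shHN R t ho vl kp mn g f F z 0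
      = ((F.filter fun v => ho v.1 = z ∧ v.2.1 = 0).card : ℝ)
        + ((F.filter fun v => ho v.1 = 0 ∧ v.2.1 = z).card : ℝ) := by
  rw [shHN_hub hz0]
  congr 1
  rw [card_eq_sum_ones, Nat.cast_sum]
  refine sum_congr rfl fun v hv => ?_
  obtain ⟨h0, h1, h2⟩ := mem_filter.1 hv
  rw [if_neg (h v h0 h1 h2)]
  simp

/-- the hosted part of a third cell -/
theorem shHN_host {F : Finset (ι × ℕ × ℕ)} {z y : ℕ} (hz0 : z ≠ 0) (hy0 : y ≠ 0) :
    ∑ v ∈ F.filter (fun v => ho v.1 = z ∧ v.2.1 = y), (1 - TuH R t ho vl kp mn g f v)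
      = ∑ v ∈ F.filter (fun v => (ho v.1 = z ∧ v.2.1 = y) ∧ hubC ho vl kp g f v.1),
          (1 - ((t z : ℝ) + 1) * mn 0 v.1
            / (((R : ℝ) - (t 0 + 1)) * ((R : ℝ) - (t z + 1))))
        + ∑ v ∈ F.filter (fun v => (ho v.1 = z ∧ v.2.1 = y)
            ∧ (¬ hubC ho vl kp g f v.1 ∧ vl v.1 = 1)),
          (1 - ((t z : ℝ) + 1) / ((t z : ℝ) + 1 + ((t y : ℝ) + 1 + unb kp mn g v)))
        + ∑ v ∈ F.filter (fun v => (ho v.1 = z ∧ v.2.1 = y)
            ∧ (¬ hubC ho vl kp g f v.1 ∧ vl v.1 ≠ 1)), (1 - TuH R t ho vl kp mn g f v) := by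
  rw [← sum_filter_add_sum_filter_not (F.filter fun v => ho v.1 = z ∧ v.2.1 = y)
    (fun v => hubC ho vl kp g f v.1), add_assoc]
  rw [← sum_filter_add_sum_filter_not ((F.filter fun v => ho v.1 = z ∧ v.2.1 = y).filter
    fun v => ¬ hubC ho vl kp g f v.1) (fun v => vl v.1 = 1)]
  simp only [filter_filter]
  congr 1
  · refine sum_congr rfl fun v hv => ?_
    obtain ⟨-, ⟨h1, h2⟩, h3⟩ := mem_filter.1 hv
    rw [TuH_hubC h3 (by rw [h2]; exact hy0), h1]
  congr 1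
  · refine sum_congr ?_ fun v hv => ?_
    · refine filter_congr fun v _ => ?_
      rw [and_assoc]
    · obtain ⟨-, ⟨h1, h2⟩, h3, h4⟩ := mem_filter.1 hv
      rw [TuH_one (by rw [h1]; exact hz0) (by rw [h2]; exact hy0) h3 h4, h1, h2]
  · refine sum_congr ?_ fun _ _ => rfl
    refine filter_congr fun v _ => ?_
    rw [and_assoc]

/-- the served part of a third cell -/
theorem shHN_served {F : Finset (ι × ℕ × ℕ)} {z y : ℕ} (hz0 : z ≠ 0) (hy0 : y ≠ 0) :
    ∑ v ∈ F.filter (fun v => ho v.1 = y ∧ v.2.1 = z),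
        (1 - wuH R t ho vl kp mn g f v) * TuH R t ho vl kp mn g f v
      = ∑ v ∈ F.filter (fun v => (ho v.1 = y ∧ v.2.1 = z) ∧ hubC ho vl kp g f v.1),
          (1 - (unb kp mn g v : ℝ) / ((R : ℝ) - (t z + 1)))
            * (((t y : ℝ) + 1) * mn 0 v.1
              / (((R : ℝ) - (t 0 + 1)) * ((R : ℝ) - (t y + 1))))
        + ∑ v ∈ F.filter (fun v => (ho v.1 = y ∧ v.2.1 = z)
            ∧ (¬ hubC ho vl kp g f v.1 ∧ vl v.1 = 1)),
          ((t y : ℝ) + 1) / ((t y : ℝ) + 1 + ((t z : ℝ) + 1 + unb kp mn g v))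
        + ∑ v ∈ F.filter (fun v => (ho v.1 = y ∧ v.2.1 = z)
            ∧ (¬ hubC ho vl kp g f v.1 ∧ vl v.1 ≠ 1)), TuH R t ho vl kp mn g f v := by
  rw [← sum_filter_add_sum_filter_not (F.filter fun v => ho v.1 = y ∧ v.2.1 = z)
    (fun v => hubC ho vl kp g f v.1), add_assoc]
  rw [← sum_filter_add_sum_filter_not ((F.filter fun v => ho v.1 = y ∧ v.2.1 = z).filter
    fun v => ¬ hubC ho vl kp g f v.1) (fun v => vl v.1 = 1)]
  simp only [filter_filter]
  congr 1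
  · refine sum_congr rfl fun v hv => ?_
    obtain ⟨-, ⟨h1, h2⟩, h3⟩ := mem_filter.1 hv
    rw [TuH_hubC h3 (by rw [h2]; exact hz0), wuH_hubC h3, h1, h2]
  congr 1
  · refine sum_congr ?_ fun v hv => ?_
    · refine filter_congr fun v _ => ?_
      rw [and_assoc]
    · obtain ⟨-, ⟨h1, h2⟩, h3, h4⟩ := mem_filter.1 hv
      rw [wuH_zero h3, TuH_one (by rw [h1]; exact hy0) (by rw [h2]; exact hz0) h3 h4, h1, h2]
      ring
  · refine sum_congr ?_ fun v hv => ?_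
    · refine filter_congr fun v _ => ?_
      rw [and_assoc]
    · obtain ⟨-, ⟨h1, h2⟩, h3, h4⟩ := mem_filter.1 hv
      rw [wuH_zero h3]
      ring

end RowHN

end Pool.Agent.Lib.MP_f04ccf_co
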