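import Mathlib

/-!
MP_f04ccf_co, TEXT D, regime H, rows `z ≥ 1`: **the case `p = 1` of 18's row lemma (18348), pure reals**.

Letters: `A1` the hub, `A` the row, `s` the mass of the thirds and the dust, `R = A1 + A + s`, `C = A + s`,
`E` the units of the row with the hub (share 1), `y = d - E`, `n = y + 1` the units with thirds and dust
(`p = 1`: all units together are `d + 1`).

* `(h1)` is tzN at `d + 1` units, `(hK)` the test with the columns of the hub, `(hd)` `d ≤ A`;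
* `p1_two`: the budget `2 A/(C + 1)`: one line `S ≤ E + (s/C) n`;
* `p1_loss2`: two nonempty third cells: the budget `A/(C + 1)`;
* `p1_corner`: one nonempty third cell, `R ≥ 100`: the budget `A/(C + 1)`, or the two own-cell tests contradict
  each other (`(2 E + 1) y + 3 E ≤ 2 A + 3` is their sum).
-/

set_option autoImplicit false

namespace Pool.Agent.Lib.MP_f04ccf_co

namespace RowHP

/-- `E + y > 1` -/
lemma q_pos {R A1 A s E y : ℝ} (hR : R = A1 + A + s) (hA1 : A + s ≤ A1) (hs : 3 ≤ s) (hA : 0 < A)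
    (h1 : R ≤ (A + 2) * (E + y + 1)) : 1 < E + y := by
  by_contra h
  push Not at h
  have h2 : (A + 2) * (E + y + 1) ≤ (A + 2) * 2 := mul_le_mul_of_nonneg_left (by linarith) (by linarith)
  nlinarith

/-- **`p = 1`, budget `2 A/(C + 1)`** -/
theorem p1_two {R A1 A s E y : ℝ} (hR : R = A1 + A + s) (h24 : 24 ≤ R) (hA1 : A + s ≤ A1)
    (hs : 3 ≤ s) (hA : 0 < A) (hE : 0 ≤ E) (hy : 0 ≤ y) (hd : E + y ≤ A)
    (h1 : R ≤ (A + 2) * (E + y + 1)) (hK : (s + 1) * (E + y - 1) - A ≤ y * (A1 + s - E)) :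
    (A + s) * (s + 1 - A) ≤ (A + s + 1) * (A * (y + 1)) := by
  have hq := q_pos hR hA1 hs hA h1
  by_contra h
  push Not at h
  -- `A (y + 2) < s + 1`
  have ha : A * (y + 2) < s + 1 := by
    have h2 : 0 ≤ A * (y + 1) := by positivity
    have h3 : 0 < s + 1 - A := by
      by_contra h4
      push Not at h4
      have h5 : (A + s) * (s + 1 - A) ≤ 0 := by nlinarith
      have h6 : 0 ≤ (A + s + 1) * (A * (y + 1)) := by positivity
      linarith
    have h4 : (A + s + 1) * (A * (y + 1)) < (A + s + 1) * (s + 1 - A) := by nlinarith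
    have h5 : A * (y + 1) < s + 1 - A := lt_of_mul_lt_mul_left h4 (by linarith)
    linarith
  -- `A ≥ 3.4`
  have hA4 : 34 / 10 ≤ A := by
    by_contra h2
    push Not at h2
    have h3 : (A + 2) * (E + y + 1) ≤ (A + 2) * (A + 1) :=
      mul_le_mul_of_nonneg_left (by linarith) (by linarith)
    nlinarith
  -- the hub test and tzN together
  have hb : A * (y + 2 * E - 3) ≤ y * (E + 2 * y + 2) := by
    have h2 : A * (y + 2) * (E + y - 1) ≤ (s + 1) * (E + y - 1) :=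
      mul_le_mul_of_nonneg_right ha.le (by linarith)
    have h3 : y * (A1 + s - E) ≤ y * ((A + 2) * (E + y + 1) - A - E) :=
      mul_le_mul_of_nonneg_left (by linarith) hy
    nlinarith
  -- `E ≥ y + 1.8`
  have hc : y + 18 / 10 ≤ E := by
    have h2 : A * y + 5 * A < (A + 2) * E + 2 * y + 4 := by nlinarith
    have h3 : 3 * A - 4 < A * (E - y) := by nlinarith
    by_contra h4
    push Not at h4
    have h5 : A * (E - y) ≤ A * (18 / 10) := mul_le_mul_of_nonneg_left (by linarith) hA.le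
    linarith
  have h2 : (E + y) * (y + 2 * E - 3) ≤ A * (y + 2 * E - 3) :=
    mul_le_mul_of_nonneg_right hd (by linarith)
  obtain ⟨v, hv⟩ : ∃ v : ℝ, E = y + v := ⟨E - y, by ring⟩
  have hv1 : 18 / 10 ≤ v := by linarith
  subst hv
  nlinarith [mul_nonneg hy (sub_nonneg.2 hv1), mul_nonneg (sub_nonneg.2 hv1) (sub_nonneg.2 hv1), mul_nonneg hy hy]

/-- two groups of third units lose more -/
lemma loss_two {A B1 B2 n1 n2 s : ℝ} (hA : 0 < A) (hB1 : 0 ≤ B1) (hB2 : 0 ≤ B2)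
    (hB : B1 + B2 ≤ s) (h1 : 1 ≤ n1) (h2 : 1 ≤ n2) :
    (n1 + n2 + 2) / (2 * A + s) ≤ n1 / (A + B1) + n2 / (A + B2) := by
  have hX : 0 < A + B1 := by linarith
  have hY : 0 < A + B2 := by linarith
  have h3 : (n1 + n2 + 2) / (2 * A + s) ≤ (n1 + n2 + 2) / ((A + B1) + (A + B2)) :=
    div_le_div_of_nonneg_left (by linarith) (by linarith) (by linarith)
  refine h3.trans ?_
  rw [div_add_div _ _ hX.ne' hY.ne', div_le_div_iff₀ (by linarith) (by positivity)]
  set X := A + B1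
  set Y := A + B2
  have h4 : 0 ≤ (n1 - 1) * Y ^ 2 := mul_nonneg (by linarith) (sq_nonneg _)
  have h5 : 0 ≤ (n2 - 1) * X ^ 2 := mul_nonneg (by linarith) (sq_nonneg _)
  nlinarith [sq_nonneg (X - Y)]

/-- **`p = 1`, two nonempty third cells, budget `A/(C + 1)`** -/
theorem p1_loss2 {R A1 A s E y : ℝ} (hR : R = A1 + A + s) (h24 : 24 ≤ R) (hA1 : A + s ≤ A1)
    (hs : 3 ≤ s) (hA : 0 < A) (hE : 0 ≤ E) (hy : 0 ≤ y) (hd : E + y ≤ A)
    (h1 : R ≤ (A + 2) * (E + y + 1)) (hK : (s + 1) * (E + y - 1) - A ≤ y * (A1 + s - E)) :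
    (2 * A + s) * (s + 1) ≤ (A + s + 1) * (A * (y + 3)) := by
  have h := p1_two hR h24 hA1 hs hA hE hy hd h1 hK
  nlinarith

/-- the last step of the corner, two variables, `y ≤ 2` -/
lemma corner_small {A y δ : ℝ} (hy : 0 ≤ y) (hy2 : y ≤ 2) (hδ0 : 0 < δ) (hδ1 : δ < y + 1)
    (h3 : A * δ < 4 * y + 10 - 2 * δ) (h2 : A * (y + 1 - δ) ≤ y * (3 * y + 5 - δ))
    (h4 : 100 ≤ (A + 2) * (2 * y + 4 - δ)) : False := by
  have hD : 0 < 2 * y + 4 - δ := by linarith
  -- the upper bound of `δ`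
  have h6 : 100 * δ < (4 * y + 10) * (2 * y + 4 - δ) := by
    have h5 : 100 * δ ≤ (A + 2) * (2 * y + 4 - δ) * δ := mul_le_mul_of_nonneg_right h4 hδ0.le
    have h7 : (A + 2) * δ < 4 * y + 10 := by linarith
    have h8 : (A + 2) * δ * (2 * y + 4 - δ) < (4 * y + 10) * (2 * y + 4 - δ) :=
      mul_lt_mul_of_pos_right h7 hD
    nlinarith
  have h7 : δ < 37 / 100 + 43 / 100 * y := by
    by_contra h8
    push Not at h8
    nlinarith [mul_nonneg hy (sub_nonneg.2 hy2), mul_nonneg (mul_nonneg hy (sub_nonneg.2 hy2)) hy]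
  -- the lower bound of `δ`
  have h8 : 100 * (y + 1 - δ) ≤ (3 * y ^ 2 + 7 * y + 2 - (y + 2) * δ) * (2 * y + 4 - δ) := by
    have h9 : (A + 2) * (y + 1 - δ) ≤ 3 * y ^ 2 + 7 * y + 2 - (y + 2) * δ := by nlinarith
    have h10 : (A + 2) * (y + 1 - δ) * (2 * y + 4 - δ)
        ≤ (3 * y ^ 2 + 7 * y + 2 - (y + 2) * δ) * (2 * y + 4 - δ) :=
      mul_le_mul_of_nonneg_right h9 hD.le
    have h11 : 100 * (y + 1 - δ) ≤ (A + 2) * (2 * y + 4 - δ) * (y + 1 - δ) :=
      mul_le_mul_of_nonneg_right h4 (by linarith)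
    nlinarith
  obtain ⟨w, hw⟩ : ∃ w : ℝ, δ = 37 / 100 + 43 / 100 * y - w := ⟨37 / 100 + 43 / 100 * y - δ, by ring⟩
  have hw0 : 0 < w := by linarith
  subst hw
  nlinarith [mul_nonneg hy (sub_nonneg.2 hy2), mul_nonneg (mul_nonneg hy (sub_nonneg.2 hy2)) hy,
    mul_nonneg hw0.le hy, mul_nonneg hw0.le (sub_nonneg.2 hy2), mul_nonneg hw0.le hδ0.le,
    mul_nonneg (mul_nonneg hw0.le hy) (sub_nonneg.2 hy2)]

/-- the last step of the corner, two variables, `2 ≤ y` -/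
lemma corner_big {A y δ : ℝ} (hy2 : 2 ≤ y) (hδ0 : 0 < δ) (hδ1 : δ < y + 1)
    (h3 : A * δ < 4 * y + 10 - 2 * δ) (h2 : A * (y + 1 - δ) ≤ y * (3 * y + 5 - δ))
    (h1 : 2 * y ^ 2 + 10 * y + 6 - (2 * y + 3) * δ ≤ 2 * A) : False := by
  -- the lower bound of `δ`
  have h9 : (2 * y ^ 2 + 10 * y + 6 - (2 * y + 3) * δ) * (y + 1 - δ) ≤ 2 * (y * (3 * y + 5 - δ)) := by
    have h4 : (2 * y ^ 2 + 10 * y + 6 - (2 * y + 3) * δ) * (y + 1 - δ) ≤ 2 * A * (y + 1 - δ) :=
      mul_le_mul_of_nonneg_right h1 (by linarith)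
    nlinarith
  have h7 : (2 * y ^ 2 + 10 * y + 6 - (2 * y + 3) * δ) * δ < 8 * y + 20 - 4 * δ := by
    have h4 : (2 * y ^ 2 + 10 * y + 6 - (2 * y + 3) * δ) * δ ≤ 2 * A * δ :=
      mul_le_mul_of_nonneg_right h1 hδ0.le
    nlinarith
  have h8 : 15 / 100 + 6 / 10 * y < δ := by
    by_contra h10
    push Not at h10
    obtain ⟨w, hw⟩ : ∃ w : ℝ, δ = 15 / 100 + 6 / 10 * y - w := ⟨15 / 100 + 6 / 10 * y - δ, by ring⟩
    have hw0 : 0 ≤ w := by linarith
    subst hw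
    obtain ⟨x, hx⟩ : ∃ x : ℝ, y = 2 + x := ⟨y - 2, by ring⟩
    have hx0 : 0 ≤ x := by linarith
    subst hx
    nlinarith [mul_nonneg hw0 hx0, mul_nonneg hx0 hx0, mul_nonneg (mul_nonneg hx0 hx0) hx0,
      mul_nonneg hw0 hw0, mul_nonneg (mul_nonneg hw0 hx0) hx0, mul_nonneg (mul_nonneg hw0 hw0) hx0,
      mul_nonneg hx0 (sq_nonneg (x - 1))]
  -- concavity between the two ends
  obtain ⟨x, hx⟩ : ∃ x : ℝ, y = 2 + x := ⟨y - 2, by ring⟩
  have hx0 : 0 ≤ x := by linarith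
  obtain ⟨w, hw⟩ : ∃ w : ℝ, δ = 15 / 100 + 6 / 10 * y + w := ⟨δ - (15 / 100 + 6 / 10 * y), by ring⟩
  have hw0 : 0 < w := by linarith
  obtain ⟨v, hv⟩ : ∃ v : ℝ, v = y + 1 - δ := ⟨_, rfl⟩
  have hv0 : 0 < v := by linarith
  subst hx
  subst hw
  nlinarith [mul_nonneg hw0.le hx0, mul_nonneg hx0 hx0, mul_nonneg (mul_nonneg hx0 hx0) hx0,
    mul_nonneg hw0.le hv0.le, mul_nonneg (mul_nonneg hw0.le hv0.le) hx0,
    mul_nonneg (mul_nonneg hw0.le hx0) hx0]

/-- the corner: if `A (y + 1) < s + 1` then the two own-cell tests contradict each other -/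
lemma corner_core {R A1 A s E y : ℝ} (hR : R = A1 + A + s) (h100 : 100 ≤ R) (hA1 : A + s ≤ A1)
    (hs : 3 ≤ s) (hA : 0 < A) (hE : 0 ≤ E) (hy : 0 ≤ y) (hd : E + y ≤ A)
    (h1 : R ≤ (A + 2) * (E + y + 1)) (hK : (s + 1) * (E + y - 1) - A ≤ y * (A1 + s - E))
    (ha : A * (y + 1) < s + 1) : 2 * A + 3 < (2 * E + 1) * y + 3 * E := by
  by_contra hC
  push Not at hC
  have hq := q_pos hR hA1 hs hA h1
  have h2 : A * (E - 2) ≤ y * (E + 2 * y + 2) := by
    have h5 : A * (y + 1) * (E + y - 1) ≤ (s + 1) * (E + y - 1) :=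
      mul_le_mul_of_nonneg_right ha.le (by linarith)
    have h3 : y * (A1 + s - E) ≤ y * ((A + 2) * (E + y + 1) - A - E) :=
      mul_le_mul_of_nonneg_left (by linarith) hy
    nlinarith
  have h3 : A * (y + 3 - E) < 2 * E + 2 * y + 4 := by nlinarith
  have h4 : 100 ≤ (A + 2) * (E + y + 1) := h100.trans h1
  by_cases hE2 : E ≤ 2
  · have h5 : A * (y + 1) < 2 * y + 8 := by nlinarith
    have h6 : A < 8 := by
      by_contra h7
      push Not at h7
      nlinarith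
    have h7 : (A + 2) * (E + y + 1) ≤ (A + 2) * (y + 3) :=
      mul_le_mul_of_nonneg_left (by linarith) (by linarith)
    nlinarith
  · push Not at hE2
    by_cases hE3 : y + 3 ≤ E
    · obtain ⟨v, hv⟩ : ∃ v : ℝ, E = y + 3 + v := ⟨E - y - 3, by ring⟩
      have hv0 : 0 ≤ v := by linarith
      have h5 : ((2 * E + 1) * y + 3 * E - 3) * (E - 2) ≤ 2 * A * (E - 2) :=
        mul_le_mul_of_nonneg_right (by linarith) (by linarith)
      subst hv
      nlinarith [mul_nonneg hv0 hy, mul_nonneg hv0 hv0, mul_nonneg hy hy,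
        mul_nonneg (mul_nonneg hy hy) hy, mul_nonneg (mul_nonneg hy hy) hv0,
        mul_nonneg (mul_nonneg hv0 hv0) hy]
    · push Not at hE3
      obtain ⟨δ, hδ⟩ : ∃ δ : ℝ, E = y + 3 - δ := ⟨y + 3 - E, by ring⟩
      subst hδ
      have hδ0 : 0 < δ := by linarith
      have hδ1 : δ < y + 1 := by linarith
      have e2 : A * (y + 1 - δ) ≤ y * (3 * y + 5 - δ) := by
        have e1 : A * (y + 3 - δ - 2) = A * (y + 1 - δ) := by ring
        have e3 : y * (y + 3 - δ + 2 * y + 2) = y * (3 * y + 5 - δ) := by ring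
        rw [e1, e3] at h2
        exact h2
      have e3 : A * δ < 4 * y + 10 - 2 * δ := by
        have e1 : A * (y + 3 - (y + 3 - δ)) = A * δ := by ring
        rw [e1] at h3
        linarith
      have e4 : 100 ≤ (A + 2) * (2 * y + 4 - δ) := by
        have e1 : (A + 2) * (y + 3 - δ + y + 1) = (A + 2) * (2 * y + 4 - δ) := by ring
        rw [e1] at h4
        exact h4
      have e5 : 2 * y ^ 2 + 10 * y + 6 - (2 * y + 3) * δ ≤ 2 * A := by
        have e1 : (2 * (y + 3 - δ) + 1) * y + 3 * (y + 3 - δ)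
            = 2 * y ^ 2 + 10 * y + 6 - (2 * y + 3) * δ + 3 := by ring
        rw [e1] at hC
        linarith
      by_cases hy2 : y ≤ 2
      · exact corner_small (A := A) hy hy2 hδ0 hδ1 e3 e2 e4
      · push Not at hy2
        exact corner_big (A := A) hy2.le hδ0 hδ1 e3 e2 e5

/-- **`p = 1`, one nonempty third cell, `R ≥ 100`, budget `A/(C + 1)`** -/
theorem p1_corner {R A1 A s E y : ℝ} (hR : R = A1 + A + s) (h100 : 100 ≤ R) (hA1 : A + s ≤ A1)
    (hs : 3 ≤ s) (hA : 0 < A) (hE : 0 ≤ E) (hy : 0 ≤ y) (hd : E + y ≤ A)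
    (h1 : R ≤ (A + 2) * (E + y + 1)) (hK : (s + 1) * (E + y - 1) - A ≤ y * (A1 + s - E)) :
    (A + s) * (s + 1) ≤ (A + s + 1) * (A * (y + 1)) ∨ 2 * A + 3 < (2 * E + 1) * y + 3 * E := by
  by_contra hno
  push Not at hno
  obtain ⟨h, hC⟩ := hno
  have ha : A * (y + 1) < s + 1 := by
    have h4 : (A + s + 1) * (A * (y + 1)) < (A + s + 1) * (s + 1) := by nlinarith
    exact lt_of_mul_lt_mul_left h4 (by linarith)
  exact absurd (corner_core hR h100 hA1 hs hA hE hy hd h1 hK ha) (not_lt.2 hC)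

/-- **`p = 1`, one nonempty third cell, `R ≥ 100`, budget `A/(C + 3)`** (the budget of `close_H3`) -/
theorem p1_corner3 {R A1 A s E y : ℝ} (hR : R = A1 + A + s) (h100 : 100 ≤ R) (hA1 : A + s ≤ A1)
    (hs : 3 ≤ s) (hA : 0 < A) (hE : 0 ≤ E) (hy : y = 0 ∨ 1 ≤ y) (hd : E + y ≤ A)
    (h1 : R ≤ (A + 2) * (E + y + 1)) (hK : (s + 1) * (E + y - 1) - A ≤ y * (A1 + s - E)) :
    (A + s) * (s + 3) ≤ (A + s + 3) * (A * (y + 1)) ∨ 2 * A + 3 < (2 * E + 1) * y + 3 * E := by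
  by_contra hno
  push Not at hno
  obtain ⟨h, hC⟩ := hno
  rcases hy with hy | hy
  · subst hy
    -- `A < s + 2`
    have ha : A < s + 3 := by
      have h4 : (A + s + 3) * A < (A + s + 3) * (s + 3) := by nlinarith
      exact lt_of_mul_lt_mul_left h4 (by linarith)
    have h5 : (s + 1) * (E - 1) ≤ A := by nlinarith
    have h6 : (s + 1) * (E - 1) < (s + 1) + 2 := by linarith
    have h7 : E < 5 / 2 := by
      by_contra h8
      push Not at h8
      nlinarith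
    have h8 : (A + 2) * (E + 0 + 1) ≤ (A + 2) * (7 / 2) :=
      mul_le_mul_of_nonneg_left (by linarith) (by linarith)
    -- `R ≥ 2 (A + s) ≥ 4 A - 6`
    have h9 : A ≤ 26 := by linarith
    linarith
  · have ha : A * (y + 1) < s + 1 := by
      by_contra h3
      push Not at h3
      -- `2 A ≤ A (y + 1) < s + 3`
      have h4 : A * (y + 1) < s + 3 := by
        have h5 : (A + s + 3) * (A * (y + 1)) < (A + s + 3) * (s + 3) := by nlinarith
        exact lt_of_mul_lt_mul_left h5 (by linarith)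
      have h5 : 2 * A ≤ A * (y + 1) := by nlinarith
      have h6 : (A + s + 3) * (s + 1) ≤ (A + s + 3) * (A * (y + 1)) :=
        mul_le_mul_of_nonneg_left h3 (by linarith)
      nlinarith
    exact absurd (corner_core hR h100 hA1 hs hA hE (by linarith) hd h1 hK ha) (not_lt.2 hC)

/-- **`p = 1`, two nonempty third cells, budget `A/(C + 3)`** -/
theorem p1_loss3 {R A1 A s E y : ℝ} (hR : R = A1 + A + s) (h24 : 24 ≤ R) (hA1 : A + s ≤ A1)
    (hs : 3 ≤ s) (hA : 1 ≤ A) (hE : 0 ≤ E) (hy : 0 ≤ y) (hd : E + y ≤ A)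
    (h1 : R ≤ (A + 2) * (E + y + 1)) (hK : (s + 1) * (E + y - 1) - A ≤ y * (A1 + s - E)) :
    (2 * A + s) * (s + 3) ≤ (A + s + 3) * (A * (y + 3)) := by
  have h := p1_two hR h24 hA1 hs (by linarith) hE hy hd h1 hK
  -- `A (y + 2) ≥ s + 2 A/(C + 1)`
  have h2 : (A + s + 1) * s + 2 * A ≤ (A + s + 1) * (A * (y + 2)) := by nlinarith
  have h3 : s < A * (y + 2) := by
    have h4 : (A + s + 1) * s < (A + s + 1) * (A * (y + 2)) := by linarith
    exact lt_of_mul_lt_mul_left h4 (by linarith)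
  -- `(C + 3) A (y + 2) ≥ (C + 3) s + 2 A`
  have h5 : (A + s + 3) * s + 2 * A ≤ (A + s + 3) * (A * (y + 2)) := by nlinarith
  nlinarith

end RowHP

end Pool.Agent.Lib.MP_f04ccf_co
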