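import Pool.Agent.Lib.MP_f04ccf_co.M.RowHPB

/-!
MP_f04ccf_co, TEXT D, regime H, rows `z ≥ 1`: **the case `p ≥ 2` of 18's row lemma (18348), pure reals, budget
`A/(C + 3)`**.

Letters: `A1` the hub, `A` the row, `s` the mass of the thirds and the dust, `R = A1 + A + s`, `C = A + s`,
`d = E1 + y`, `E1` the units of the row with the hub (share 1), `h` the plain hosted units of the row which are not
in the hub cell, `H ≤ E1 + h` all plain hosted units, `x` the mass of a third row, `E` the units of its cell.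

* `(hK)` the column of the hub, `(hD)` the column of the third with the hosted units out, `(hM)` the mean of this
  and of the column with the hosted units kept (no credit for own hosted units: 82's 18477), `(hT)` the row test;
* `f1_cell` (`R ≥ 80`): `p ≥ 3` (tzN at `d + 3`), or `p = 2` (tzN at `d + 2`) and F2 fails and `y ≥ 2`: the share
  of every third cell is at most `(x/s) (y + A/(C + 3))`;
* `two_y2` (`R ≥ 100`): `p = 2`: F2 holds for `y = 0, 1`;
* `cell_le_d`: the units of a third cell are at most `d`.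
-/

set_option autoImplicit false

namespace Pool.Agent.Lib.MP_f04ccf_co

namespace RowHP

/-- the scaled letters -/
lemma scale {R A C s d : ℝ} (hR : 0 < R) (hA : 0 < A) (hd : 0 < d) (hC : 0 < C) (hCs : C = A + s) :
    C / R * (A / C) = A / R ∧ C / R * (A / C) * (d / A) = d / R ∧
    C / R * (A / C) * (R / (A * d)) = 1 / d ∧
    C / R * (A / C) * (d / A) * (R / (A * d)) = 1 / A ∧ C / R * (1 - A / C) = s / R ∧
    1 - A / C = s / C := by
  subst hCs
  refine ⟨?_, ?_, ?_, ?_, ?_, ?_⟩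
  all_goals field_simp
  all_goals ring

/-- the ranges of the scaled letters -/
lemma ranges {R A1 A s d y : ℝ} (hR : R = A1 + A + s) (hA1 : A + s ≤ A1) (hs : 0 ≤ s) (hA : 0 < A)
    (hy : 0 ≤ y) (hyd : y ≤ d) (hd : d ≤ A) (hd0 : 0 < d) (ho : R ≤ 2 * (A * d)) :
    0 ≤ (A + s) / R ∧ (A + s) / R ≤ 1 / 2 ∧ 0 ≤ A / (A + s) ∧ A / (A + s) ≤ 1 ∧ 0 ≤ d / A ∧
    d / A ≤ 1 ∧ 0 ≤ R / (A * d) ∧ R / (A * d) ≤ 2 ∧ 0 ≤ y / d ∧ y / d ≤ 1 := by
  have hR0 : 0 < R := by linarith
  have hC : 0 < A + s := by linarith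
  refine ⟨by positivity, ?_, by positivity, ?_, by positivity, ?_, by positivity, ?_,
    by positivity, ?_⟩
  · rw [div_le_div_iff₀ hR0 (by norm_num)]
    linarith
  · rw [div_le_one hC]
    linarith
  · rw [div_le_one hA]
    exact hd
  · rw [div_le_iff₀ (by positivity)]
    linarith
  · rw [div_le_one hd0]
    exact hyd

/-- **`p ≥ 3`, the middle of the range of the cells, `s ≥ A/2`** -/
theorem c46_3 {R A1 A s d y : ℝ} (hR : R = A1 + A + s) (h80 : 80 ≤ R) (hA1 : A + s ≤ A1)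
    (hs : 3 ≤ s) (hA : 0 < A) (hy : 0 ≤ y) (hyd : y ≤ d) (hd : d ≤ A) (hd3 : 3 ≤ d)
    (h3 : 3 * R ≤ (A + 6) * (d + 3)) (hK : (s + 1) * (d - 1) - A ≤ y * (R - A - d + y))
    (hsA : A ≤ 2 * s) :
    (A + s + 3) * (s * (2 * (R - (A + 1) * (d - 1)) + (A - 3) * (d - y)))
      < 3 * (A * ((A + s + 3) * (d - 1 + y * (d - y)) + A * (A1 - A - 3))) := by
  by_contra hno
  push Not at hno
  have hR0 : 0 < R := by linarith
  have hC : 0 < A + s := by linarith
  have hd0 : 0 < d := by linarith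
  have hA11 : 11 ≤ A := by
    by_contra h
    push Not at h
    nlinarith
  have ho : R ≤ 2 * (A * d) := by nlinarith
  obtain ⟨r1, r2, r3, r4, r5, r6, r7, r8, r9, r10⟩ := ranges hR hA1 (by linarith) hA hy hyd hd hd0 ho
  obtain ⟨ea, eD, ew, ef, es, eS⟩ := scale (s := s) hR0 hA hd0 hC rfl
  refine RowHPB.P3.no _ _ _ _ _ r1 r2 r3 r4 r5 r6 r7 r8 r9 r10 ?_ ?_ ?_ ?_ ?_ ?_
  · rw [ef, ew, eD, es, ea, eS]
    have e : 2 * ((1 + 3 * (A / (A + s) * (1 / A))) * (s / (A + s)) *
        (R / (A * d) - (1 + 1 / A) * (1 - 1 / d))) + (1 + 3 * (A / (A + s) * (1 / A))) * (s / (A + s))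
        * ((1 - y / d) * (1 - 3 * (1 / A))) - 3 * (A / (A + s) * ((1 + 3 * (A / (A + s) * (1 / A))) *
        ((d / R - A / R * (1 / A)) * (R / (A * d)) + y / d * (1 - y / d) * (d / A)) + A / (A + s) *
        (R / (A * d)) * (1 - 2 * (A / R) - s / R - 3 * (A / R * (1 / A)))))
      = ((A + s + 3) * (s * (2 * (R - (A + 1) * (d - 1)) + (A - 3) * (d - y)))
        - 3 * (A * ((A + s + 3) * (d - 1 + y * (d - y)) + A * (R - 2 * A - s - 3))))
        / ((A + s) ^ 2 * (A * d)) := by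
      field_simp
    rw [e]
    refine div_nonneg ?_ (by positivity)
    have e2 : R - 2 * A - s - 3 = A1 - A - 3 := by linarith
    rw [e2]
    linarith
  · rw [ef, ew]
    have e : (1 + 6 * (1 / A)) * (1 + 3 * (1 / d)) - 3 * (R / (A * d))
        = ((A + 6) * (d + 3) - 3 * R) / (A * d) := by
      field_simp
    rw [e]
    exact div_nonneg (by linarith) (by positivity)
  · rw [ef, ew, eD, es, ea]
    have e : y / d * (1 - A / R - d / R * (1 - y / d)) + A / R * (1 / d) - (s / R + A / R * (1 / A))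
        * (1 - 1 / d) = (y * (R - A - d + y) + A - (s + 1) * (d - 1)) / (R * d) := by
      field_simp
      try ring
    rw [e]
    exact div_nonneg (by linarith) (by positivity)
  · rw [ef, eS]
    have e : s / (A + s) - 3 * (A / (A + s) * (1 / A)) = (s - 3) / (A + s) := by
      field_simp
    rw [e]
    exact div_nonneg (by linarith) hC.le
  · rw [ef, ea]
    have e : 1 - 80 * (A / R * (1 / A)) = (R - 80) / R := by
      field_simp
    rw [e]
    exact div_nonneg (by linarith) hR0.le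
  · rw [eS]
    have e : 2 * (s / (A + s)) - A / (A + s) = (2 * s - A) / (A + s) := by
      field_simp
    rw [e]
    exact div_nonneg (by linarith) hC.le

/-- `p = 2`, F2 fails, `y ≥ 2`: the thirds are heavy -/
lemma two_sA {A s y : ℝ} (hs : 3 ≤ s) (hA : 0 < A) (hy : 2 ≤ y)
    (hF : A * y * (A + s + 3) + A * (A + s) ≤ 2 * s * (A + s + 3)) : A ≤ 2 * s := by
  by_contra h
  push Not at h
  nlinarith [mul_pos hA (by linarith : 0 < A + s), mul_nonneg hA.le (by linarith : 0 ≤ y - 2)]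

/-- `p = 2`, F2 fails: the hub test and tzN together -/
lemma two_Z {R A s d y : ℝ} (hA : 0 < A) (hs : 3 ≤ s) (hy : 2 ≤ y) (hyd : y ≤ d)
    (h2 : 2 * R ≤ (A + 4) * (d + 2)) (hK : (s + 1) * (d - 1) - A ≤ y * (R - A - d + y))
    (hF : A * y * (A + s + 3) + A * (A + s) ≤ 2 * s * (A + s + 3)) :
    0 ≤ (A + s + 3) * (2 * y * (d + y + 4) - 2 * (d - 1) - A * (d - y - 3)) + 3 * (A * (d - 1)) := by
  have h3 : (A + s + 3) * (2 * ((s + 1) * (d - 1) - A))
      ≤ (A + s + 3) * (y * ((A + 4) * (d + 2) - 2 * A - 2 * d + 2 * y)) := by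
    refine mul_le_mul_of_nonneg_left ?_ (by linarith)
    nlinarith
  have h4 : (A * y * (A + s + 3) + A * (A + s)) * (d - 1) ≤ 2 * s * (A + s + 3) * (d - 1) :=
    mul_le_mul_of_nonneg_right hF (by linarith)
  nlinarith

/-- `p = 2`, F2 fails: the hub is heavier than the rest -/
lemma two_Z1 {R A1 A s d y : ℝ} (hR : R = A1 + A + s) (hA1 : A + s ≤ A1)
    (hs : 3 ≤ s) (hA : 0 < A)
    (h2 : 2 * R ≤ (A + 4) * (d + 2))
    (hF : A * y * (A + s + 3) + A * (A + s) ≤ 2 * s * (A + s + 3)) :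
    0 ≤ (A + s + 3) * (A * (d - 2 * y - 4) + 4 * (d + 2)) + 6 * A := by
  have h3 : (A + s + 3) * (4 * (A + s)) ≤ (A + s + 3) * ((A + 4) * (d + 2)) :=
    mul_le_mul_of_nonneg_left (by linarith) (by linarith)
  nlinarith

/-- **`p = 2`, F2 fails, `y ≥ 2`: the middle of the range of the cells** -/
theorem c46_2 {R A1 A s d y : ℝ} (hR : R = A1 + A + s) (h80 : 80 ≤ R) (hA1 : A + s ≤ A1)
    (hs : 3 ≤ s) (hA : 0 < A) (hy : 2 ≤ y) (hyd : y ≤ d) (hd : d ≤ A)
    (h2 : 2 * R ≤ (A + 4) * (d + 2)) (hK : (s + 1) * (d - 1) - A ≤ y * (R - A - d + y))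
    (hF : A * y * (A + s + 3) + A * (A + s) ≤ 2 * s * (A + s + 3)) :
    (A + s + 3) * (s * (2 * (R - (A + 1) * (d - 1)) + (A - 4) * (d - y)))
      < 3 * (A * ((A + s + 3) * (d - 1 + y * (d - y)) + A * (A1 - A - 3))) := by
  by_contra hno
  push Not at hno
  have hR0 : 0 < R := by linarith
  have hC : 0 < A + s := by linarith
  have hd0 : 0 < d := by linarith
  have hA9 : 9 ≤ A := by
    by_contra h
    push Not at h
    nlinarith
  have ho : R ≤ 2 * (A * d) := by nlinarith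
  have hsA : A ≤ 2 * s := two_sA hs hA hy hF
  have hZ := two_Z hA hs hy hyd h2 hK hF
  have hZ1 := two_Z1 hR hA1 hs hA h2 hF
  obtain ⟨r1, r2, r3, r4, r5, r6, r7, r8, r9, r10⟩ :=
    ranges hR hA1 (by linarith) hA (by linarith) hyd hd hd0 ho
  obtain ⟨ea, eD, ew, ef, es, eS⟩ := scale (s := s) hR0 hA hd0 hC rfl
  refine RowHPB.P2.no _ _ _ _ _ r1 r2 r3 r4 r5 r6 r7 r8 r9 r10 ?_ ?_ ?_ ?_ ?_ ?_ ?_ ?_ ?_ ?_
  · rw [ef, ew, eD, es, ea, eS]
    have e : 2 * ((1 + 3 * (A / (A + s) * (1 / A))) * (s / (A + s)) *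
        (R / (A * d) - (1 + 1 / A) * (1 - 1 / d))) + (1 + 3 * (A / (A + s) * (1 / A))) * (s / (A + s))
        * ((1 - y / d) * (1 - 4 * (1 / A))) - 3 * (A / (A + s) * ((1 + 3 * (A / (A + s) * (1 / A))) * ((d / R - A / R * (1 / A)) * (R / (A * d)) + y / d * (1 - y / d) * (d / A)) + A / (A + s) * (R / (A * d)) * (1 - 2 * (A / R) - s / R - 3 * (A / R * (1 / A)))))
      = ((A + s + 3) * (s * (2 * (R - (A + 1) * (d - 1)) + (A - 4) * (d - y)))
        - 3 * (A * ((A + s + 3) * (d - 1 + y * (d - y)) + A * (R - 2 * A - s - 3))))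
        / ((A + s) ^ 2 * (A * d)) := by
      field_simp
    rw [e]
    refine div_nonneg ?_ (by positivity)
    have e2 : R - 2 * A - s - 3 = A1 - A - 3 := by linarith
    rw [e2]
    linarith
  · rw [ef, ew]
    have e : (1 + 4 * (1 / A)) * (1 + 2 * (1 / d)) - 2 * (R / (A * d))
        = ((A + 4) * (d + 2) - 2 * R) / (A * d) := by
      field_simp
    rw [e]
    exact div_nonneg (by linarith) (by positivity)
  · rw [ef, ew, eD, es, ea]
    have e : y / d * (1 - A / R - d / R * (1 - y / d)) + A / R * (1 / d) - (s / R + A / R * (1 / A))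
        * (1 - 1 / d) = (y * (R - A - d + y) + A - (s + 1) * (d - 1)) / (R * d) := by
      field_simp
      try ring
    rw [e]
    exact div_nonneg (by linarith) (by positivity)
  · rw [ef, eS]
    have e : s / (A + s) - 3 * (A / (A + s) * (1 / A)) = (s - 3) / (A + s) := by
      field_simp
    rw [e]
    exact div_nonneg (by linarith) hC.le
  · rw [ef, ea]
    have e : 1 - 80 * (A / R * (1 / A)) = (R - 80) / R := by
      field_simp
    rw [e]
    exact div_nonneg (by linarith) hR0.le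
  · rw [eS]
    have e : 2 * (s / (A + s)) - A / (A + s) = (2 * s - A) / (A + s) := by
      field_simp
    rw [e]
    exact div_nonneg (by linarith) hC.le
  · rw [ef, ew, eS]
    have e : 2 * (s / (A + s) * ((1 + 3 * (A / (A + s) * (1 / A))) * (1 / d)))
        - A / (A + s) * (y / d * (1 + 3 * (A / (A + s) * (1 / A)))) - 1 / d * (A / (A + s))
        = (2 * s * (A + s + 3) - (A * y * (A + s + 3) + A * (A + s))) / ((A + s) ^ 2 * d) := by
      field_simp
      try ring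
    rw [e]
    exact div_nonneg (by linarith) (by positivity)
  · rw [ew]
    have e : y / d - 2 * (1 / d) = (y - 2) / d := by
      field_simp
    rw [e]
    exact div_nonneg (by linarith) hd0.le
  · rw [ef, ew]
    have e : 2 * (y / d * (d / A * ((1 + 3 * (A / (A + s) * (1 / A))) * (1 + y / d + 4 * (1 / d)))))
        + 3 * ((1 - 1 / d) * (A / (A + s) * (1 / A)))
        - 2 * ((1 - 1 / d) * (1 / A * (1 + 3 * (A / (A + s) * (1 / A)))))
        - (1 - y / d - 3 * (1 / d)) * (1 + 3 * (A / (A + s) * (1 / A)))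
        = ((A + s + 3) * (2 * y * (d + y + 4) - 2 * (d - 1) - A * (d - y - 3)) + 3 * (A * (d - 1)))
        / (A * d * (A + s)) := by
      field_simp
      try ring
    rw [e]
    exact div_nonneg (by linarith) (by positivity)
  · rw [ef, ew]
    have e : (1 - 2 * (y / d) - 4 * (1 / d)) * (1 + 3 * (A / (A + s) * (1 / A)))
        + 4 * (1 / A * ((1 + 3 * (A / (A + s) * (1 / A))) * (1 + 2 * (1 / d))))
        + 6 * (1 / d * (A / (A + s) * (1 / A)))
        = ((A + s + 3) * (A * (d - 2 * y - 4) + 4 * (d + 2)) + 6 * A) / (A * d * (A + s)) := by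
      field_simp
      try ring
    rw [e]
    exact div_nonneg (by linarith) (by positivity)

/-- **`p = 2`, F2 fails, `y ≥ 2`: the light end of the range of the cells** -/
theorem c0_2 {R A1 A s d y : ℝ} (hR : R = A1 + A + s) (h80 : 80 ≤ R) (hA1 : A + s ≤ A1)
    (hs : 3 ≤ s) (hA : 0 < A) (hy : 2 ≤ y) (hyd : y ≤ d) (hd : d ≤ A)
    (h2 : 2 * R ≤ (A + 4) * (d + 2)) (hK : (s + 1) * (d - 1) - A ≤ y * (R - A - d + y))
    (hF : A * y * (A + s + 3) + A * (A + s) ≤ 2 * s * (A + s + 3)) :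
    (A + s + 3) * (s * (R - (A + 1) * (d - 1)))
      < (A + 2) * ((A + s + 3) * (d - 1 + y * (d - y)) + A * (A1 - A - 3)) := by
  by_contra hno
  push Not at hno
  have hR0 : 0 < R := by linarith
  have hC : 0 < A + s := by linarith
  have hd0 : 0 < d := by linarith
  have hA9 : 9 ≤ A := by
    by_contra h
    push Not at h
    nlinarith
  have ho : R ≤ 2 * (A * d) := by nlinarith
  have hZ := two_Z hA hs hy hyd h2 hK hF
  have hZ1 := two_Z1 hR hA1 hs hA h2 hF
  obtain ⟨r1, r2, r3, r4, r5, r6, r7, r8, r9, r10⟩ :=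
    ranges hR hA1 (by linarith) hA (by linarith) hyd hd hd0 ho
  obtain ⟨ea, eD, ew, ef, es, eS⟩ := scale (s := s) hR0 hA hd0 hC rfl
  refine RowHPB.Z2.no _ _ _ _ _ r1 r2 r3 r4 r5 r6 r7 r8 r9 r10 ?_ ?_ ?_ ?_ ?_ ?_ ?_ ?_ ?_
  · rw [ef, ew, eD, es, ea, eS]
    have e : (1 + 3 * (A / (A + s) * (1 / A))) * (s / (A + s)) * (R / (A * d) - (1 + 1 / A) * (1 - 1 / d))
        - (A / (A + s) + 2 * (A / (A + s) * (1 / A))) * ((1 + 3 * (A / (A + s) * (1 / A))) * ((d / R - A / R * (1 / A)) * (R / (A * d)) + y / d * (1 - y / d) * (d / A)) + A / (A + s) * (R / (A * d)) * (1 - 2 * (A / R) - s / R - 3 * (A / R * (1 / A))))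
      = ((A + s + 3) * (s * (R - (A + 1) * (d - 1)))
        - (A + 2) * ((A + s + 3) * (d - 1 + y * (d - y)) + A * (R - 2 * A - s - 3)))
        / ((A + s) ^ 2 * (A * d)) := by
      field_simp
    rw [e]
    refine div_nonneg ?_ (by positivity)
    have e2 : R - 2 * A - s - 3 = A1 - A - 3 := by linarith
    rw [e2]
    linarith
  · rw [ef, ew]
    have e : (1 + 4 * (1 / A)) * (1 + 2 * (1 / d)) - 2 * (R / (A * d))
        = ((A + 4) * (d + 2) - 2 * R) / (A * d) := by
      field_simp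
    rw [e]
    exact div_nonneg (by linarith) (by positivity)
  · rw [ef, ew, eD, es, ea]
    have e : y / d * (1 - A / R - d / R * (1 - y / d)) + A / R * (1 / d) - (s / R + A / R * (1 / A))
        * (1 - 1 / d) = (y * (R - A - d + y) + A - (s + 1) * (d - 1)) / (R * d) := by
      field_simp
      try ring
    rw [e]
    exact div_nonneg (by linarith) (by positivity)
  · rw [ef, eS]
    have e : s / (A + s) - 3 * (A / (A + s) * (1 / A)) = (s - 3) / (A + s) := by
      field_simp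
    rw [e]
    exact div_nonneg (by linarith) hC.le
  · rw [ef, ea]
    have e : 1 - 80 * (A / R * (1 / A)) = (R - 80) / R := by
      field_simp
    rw [e]
    exact div_nonneg (by linarith) hR0.le
  · rw [ef, ew, eS]
    have e : 2 * (s / (A + s) * ((1 + 3 * (A / (A + s) * (1 / A))) * (1 / d)))
        - A / (A + s) * (y / d * (1 + 3 * (A / (A + s) * (1 / A)))) - 1 / d * (A / (A + s))
        = (2 * s * (A + s + 3) - (A * y * (A + s + 3) + A * (A + s))) / ((A + s) ^ 2 * d) := by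
      field_simp
      try ring
    rw [e]
    exact div_nonneg (by linarith) (by positivity)
  · rw [ew]
    have e : y / d - 2 * (1 / d) = (y - 2) / d := by
      field_simp
    rw [e]
    exact div_nonneg (by linarith) hd0.le
  · rw [ef, ew]
    have e : 2 * (y / d * (d / A * ((1 + 3 * (A / (A + s) * (1 / A))) * (1 + y / d + 4 * (1 / d)))))
        + 3 * ((1 - 1 / d) * (A / (A + s) * (1 / A)))
        - 2 * ((1 - 1 / d) * (1 / A * (1 + 3 * (A / (A + s) * (1 / A)))))
        - (1 - y / d - 3 * (1 / d)) * (1 + 3 * (A / (A + s) * (1 / A)))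
        = ((A + s + 3) * (2 * y * (d + y + 4) - 2 * (d - 1) - A * (d - y - 3)) + 3 * (A * (d - 1)))
        / (A * d * (A + s)) := by
      field_simp
      try ring
    rw [e]
    exact div_nonneg (by linarith) (by positivity)
  · rw [ef, ew]
    have e : (1 - 2 * (y / d) - 4 * (1 / d)) * (1 + 3 * (A / (A + s) * (1 / A)))
        + 4 * (1 / A * ((1 + 3 * (A / (A + s) * (1 / A))) * (1 + 2 * (1 / d))))
        + 6 * (1 / d * (A / (A + s) * (1 / A)))
        = ((A + s + 3) * (A * (d - 2 * y - 4) + 4 * (d + 2)) + 6 * A) / (A * d * (A + s)) := by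
      field_simp
      try ring
    rw [e]
    exact div_nonneg (by linarith) (by positivity)

/-- **`p = 2`, F2 fails, `y ≥ 2`: one unit in a cell** -/
theorem c1_2 {R A1 A s d y : ℝ} (hR : R = A1 + A + s) (h80 : 80 ≤ R) (hA1 : A + s ≤ A1)
    (hs : 3 ≤ s) (hA : 0 < A) (hy : 2 ≤ y) (hyd : y ≤ d) (hd : d ≤ A)
    (h2 : 2 * R ≤ (A + 4) * (d + 2)) (hK : (s + 1) * (d - 1) - A ≤ y * (R - A - d + y))
    (hF : A * y * (A + s + 3) + A * (A + s) ≤ 2 * s * (A + s + 3)) :
    (A + s + 3) * (s * (R - A - (A + 1) * (d - 1)))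
      < (A + 1) * ((A + s + 3) * (d - 1 + y * (d - y)) + A * (A1 - A - 3)) := by
  by_contra hno
  push Not at hno
  have hR0 : 0 < R := by linarith
  have hC : 0 < A + s := by linarith
  have hd0 : 0 < d := by linarith
  have hA9 : 9 ≤ A := by
    by_contra h
    push Not at h
    nlinarith
  have ho : R ≤ 2 * (A * d) := by nlinarith
  have hZ := two_Z hA hs hy hyd h2 hK hF
  have hZ1 := two_Z1 hR hA1 hs hA h2 hF
  obtain ⟨r1, r2, r3, r4, r5, r6, r7, r8, r9, r10⟩ :=
    ranges hR hA1 (by linarith) hA (by linarith) hyd hd hd0 ho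
  obtain ⟨ea, eD, ew, ef, es, eS⟩ := scale (s := s) hR0 hA hd0 hC rfl
  refine RowHPB.O2.no _ _ _ _ _ r1 r2 r3 r4 r5 r6 r7 r8 r9 r10 ?_ ?_ ?_ ?_ ?_ ?_ ?_ ?_ ?_
  · rw [ef, ew, eD, es, ea, eS]
    have e : (1 + 3 * (A / (A + s) * (1 / A))) * (s / (A + s)) * ((R / (A * d) - (1 + 1 / A) * (1 - 1 / d)) - 1 / d)
        - (A / (A + s) + A / (A + s) * (1 / A)) * ((1 + 3 * (A / (A + s) * (1 / A))) * ((d / R - A / R * (1 / A)) * (R / (A * d)) + y / d * (1 - y / d) * (d / A)) + A / (A + s) * (R / (A * d)) * (1 - 2 * (A / R) - s / R - 3 * (A / R * (1 / A))))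
      = ((A + s + 3) * (s * (R - A - (A + 1) * (d - 1)))
        - (A + 1) * ((A + s + 3) * (d - 1 + y * (d - y)) + A * (R - 2 * A - s - 3)))
        / ((A + s) ^ 2 * (A * d)) := by
      field_simp
      try ring
    rw [e]
    refine div_nonneg ?_ (by positivity)
    have e2 : R - 2 * A - s - 3 = A1 - A - 3 := by linarith
    rw [e2]
    linarith
  · rw [ef, ew]
    have e : (1 + 4 * (1 / A)) * (1 + 2 * (1 / d)) - 2 * (R / (A * d))
        = ((A + 4) * (d + 2) - 2 * R) / (A * d) := by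
      field_simp
    rw [e]
    exact div_nonneg (by linarith) (by positivity)
  · rw [ef, ew, eD, es, ea]
    have e : y / d * (1 - A / R - d / R * (1 - y / d)) + A / R * (1 / d) - (s / R + A / R * (1 / A))
        * (1 - 1 / d) = (y * (R - A - d + y) + A - (s + 1) * (d - 1)) / (R * d) := by
      field_simp
      try ring
    rw [e]
    exact div_nonneg (by linarith) (by positivity)
  · rw [ef, eS]
    have e : s / (A + s) - 3 * (A / (A + s) * (1 / A)) = (s - 3) / (A + s) := by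
      field_simp
    rw [e]
    exact div_nonneg (by linarith) hC.le
  · rw [ef, ea]
    have e : 1 - 80 * (A / R * (1 / A)) = (R - 80) / R := by
      field_simp
    rw [e]
    exact div_nonneg (by linarith) hR0.le
  · rw [ef, ew, eS]
    have e : 2 * (s / (A + s) * ((1 + 3 * (A / (A + s) * (1 / A))) * (1 / d)))
        - A / (A + s) * (y / d * (1 + 3 * (A / (A + s) * (1 / A)))) - 1 / d * (A / (A + s))
        = (2 * s * (A + s + 3) - (A * y * (A + s + 3) + A * (A + s))) / ((A + s) ^ 2 * d) := by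
      field_simp
      try ring
    rw [e]
    exact div_nonneg (by linarith) (by positivity)
  · rw [ew]
    have e : y / d - 2 * (1 / d) = (y - 2) / d := by
      field_simp
    rw [e]
    exact div_nonneg (by linarith) hd0.le
  · rw [ef, ew]
    have e : 2 * (y / d * (d / A * ((1 + 3 * (A / (A + s) * (1 / A))) * (1 + y / d + 4 * (1 / d)))))
        + 3 * ((1 - 1 / d) * (A / (A + s) * (1 / A)))
        - 2 * ((1 - 1 / d) * (1 / A * (1 + 3 * (A / (A + s) * (1 / A)))))
        - (1 - y / d - 3 * (1 / d)) * (1 + 3 * (A / (A + s) * (1 / A)))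
        = ((A + s + 3) * (2 * y * (d + y + 4) - 2 * (d - 1) - A * (d - y - 3)) + 3 * (A * (d - 1)))
        / (A * d * (A + s)) := by
      field_simp
      try ring
    rw [e]
    exact div_nonneg (by linarith) (by positivity)
  · rw [ef, ew]
    have e : (1 - 2 * (y / d) - 4 * (1 / d)) * (1 + 3 * (A / (A + s) * (1 / A)))
        + 4 * (1 / A * ((1 + 3 * (A / (A + s) * (1 / A))) * (1 + 2 * (1 / d))))
        + 6 * (1 / d * (A / (A + s) * (1 / A)))
        = ((A + s + 3) * (A * (d - 2 * y - 4) + 4 * (d + 2)) + 6 * A) / (A * d * (A + s)) := by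
      field_simp
      try ring
    rw [e]
    exact div_nonneg (by linarith) (by positivity)

/-- **`p ≥ 3`, the heavy end of the range of the cells, `s ≤ A/2`** -/
theorem c3_3 {R A1 A s d y : ℝ} (hR : R = A1 + A + s) (h80 : 80 ≤ R) (hA1 : A + s ≤ A1)
    (hs : 3 ≤ s) (hA : 0 < A) (hy : 0 ≤ y) (hyd : y ≤ d) (hd : d ≤ A) (hd3 : 3 ≤ d)
    (h3 : 3 * R ≤ (A + 6) * (d + 3)) (hK : (s + 1) * (d - 1) - A ≤ y * (R - A - d + y))
    (hsA : 2 * s ≤ A) :
    (A + s + 3) * (s * (R - (A + 1) * (d - 1) + (s - 3) * (d - y)))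
      < (A + s) * ((A + s + 3) * (d - 1 + y * (d - y)) + A * (A1 - A - 3)) := by
  by_contra hno
  push Not at hno
  have hR0 : 0 < R := by linarith
  have hC : 0 < A + s := by linarith
  have hd0 : 0 < d := by linarith
  have hs0 : 0 < s := by linarith
  have hA11 : 11 ≤ A := by
    by_contra h
    push Not at h
    nlinarith
  have ho : R ≤ 2 * (A * d) := by nlinarith
  have hyy : 0 ≤ y * (d - y) := mul_nonneg hy (by linarith)
  -- the violation without the slack of the hub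
  have h5 : (A + s) * ((A + s + 3) * (d - 1 + y * (d - y)) + A * (s - 3))
      ≤ (A + s + 3) * (s * (R - (A + 1) * (d - 1) + (s - 3) * (d - y))) := by
    refine le_trans (mul_le_mul_of_nonneg_left ?_ hC.le) hno
    have h6 : A * (s - 3) ≤ A * (A1 - A - 3) := mul_le_mul_of_nonneg_left (by linarith) hA.le
    linarith
  have h6 : (A + s) * ((A + s + 3) * (d - 1) + A * (s - 3))
      ≤ (A + s + 3) * (s * (R - (A + 1) * (d - 1) + (s - 3) * (d - y))) := by
    refine le_trans (mul_le_mul_of_nonneg_left ?_ hC.le) h5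
    have h7 : (A + s + 3) * (d - 1) ≤ (A + s + 3) * (d - 1 + y * (d - y)) :=
      mul_le_mul_of_nonneg_left (by linarith) (by linarith)
    linarith
  have e1 : s / A * (1 / s) = 1 / A := by
    field_simp
  have e2 : A / R * (R / (A * d)) = 1 / d := by
    field_simp
  have e3 : A / R * (s / A) = s / R := by
    field_simp
  refine RowHPB.T3.no (A / R) (s / A) (1 / s) (R / (A * d)) (y / d) (by positivity) ?_
    (by positivity) ?_ (by positivity) ?_ (by positivity) ?_ (by positivity) ?_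
    ?_ ?_ ?_ ?_ ?_ ?_ ?_
  · rw [div_le_div_iff₀ hR0 (by norm_num)]
    linarith
  · rw [div_le_div_iff₀ hA (by norm_num)]
    linarith
  · rw [div_le_div_iff₀ hs0 (by norm_num)]
    linarith
  · rw [div_le_iff₀ (by positivity)]
    linarith
  · rw [div_le_one hd0]
    exact hyd
  · rw [e1, e2]
    have e : 1 / d * ((1 + s / A + 3 * (1 / A)) * (R / (A * d) - (1 + 1 / A) * (1 - 1 / d)
        + (1 - y / d) * (s / A) * (1 - 3 * (1 / s)))) - (1 + s / A) * (1 / d * ((1 + s / A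
        + 3 * (1 / A)) * (1 / s) * (1 - 1 / d) + 1 / d * (1 - 3 * (1 / s))) + (1 + s / A
        + 3 * (1 / A)) * (y / d * (1 - y / d) * (1 / s)))
        = ((A + s + 3) * (s * (R - (A + 1) * (d - 1) + (s - 3) * (d - y)))
          - (A + s) * ((A + s + 3) * (d - 1 + y * (d - y)) + A * (s - 3)))
        / (A ^ 2 * d ^ 2 * s) := by
      field_simp
      try ring
    rw [e]
    exact div_nonneg (by linarith) (by positivity)
  · rw [e1, e2]
    have e : (1 + s / A + 3 * (1 / A)) * (R / (A * d) - (1 + 1 / A) * (1 - 1 / d)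
        + (1 - y / d) * (s / A) * (1 - 3 * (1 / s))) - (1 + s / A) * ((1 + s / A
        + 3 * (1 / A)) * (1 / s) * (1 - 1 / d) + 1 / d * (1 - 3 * (1 / s)))
        = ((A + s + 3) * (s * (R - (A + 1) * (d - 1) + (s - 3) * (d - y)))
          - (A + s) * ((A + s + 3) * (d - 1) + A * (s - 3)))
        / (A ^ 2 * d * s) := by
      field_simp
      try ring
    rw [e]
    exact div_nonneg (by linarith) (by positivity)
  · rw [e1, e2]
    have e : (1 + 6 * (1 / A)) * (1 + 3 * (1 / d)) - 3 * (R / (A * d))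
        = ((A + 6) * (d + 3) - 3 * R) / (A * d) := by
      field_simp
    rw [e]
    exact div_nonneg (by linarith) (by positivity)
  · rw [e1, e2, e3]
    have e : y / d * (R / (A * d) * (1 - A / R) - 1 / A * (1 - y / d)) + R / (A * d) * (A / R
        * (1 / d)) - R / (A * d) * ((s / R + A / R * (1 / A)) * (1 - 1 / d))
        = (y * (R - A - d + y) + A - (s + 1) * (d - 1)) / (A * d ^ 2) := by
      field_simp
      try ring
    rw [e]
    exact div_nonneg (by linarith) (by positivity)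
  · rw [e3]
    have e : 1 - 2 * (A / R) - 2 * (s / R) = (R - 2 * A - 2 * s) / R := by
      field_simp
      try ring
    rw [e]
    exact div_nonneg (by linarith) hR0.le
  · rw [e1]
    have e : 1 - 80 * (A / R * (1 / A)) = (R - 80) / R := by
      field_simp
    rw [e]
    exact div_nonneg (by linarith) hR0.le
  · rw [e1, e2, sub_nonneg, div_le_div_iff₀ hA hd0]
    linarith

/-- **`p ≥ 3`, the light end of the range of the cells** -/
theorem c0_3 {R A1 A s d y : ℝ} (hR : R = A1 + A + s) (h80 : 80 ≤ R) (hA1 : A + s ≤ A1)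
    (hs : 3 ≤ s) (hA : 0 < A) (hy : 0 ≤ y) (hyd : y ≤ d) (hd : d ≤ A) (hd3 : 3 ≤ d)
    (h3 : 3 * R ≤ (A + 6) * (d + 3)) :
    (A + s + 3) * (s * (R - (A + 1) * (d - 1)))
      < (A + 2) * ((A + s + 3) * (d - 1 + y * (d - y)) + A * (A1 - A - 3)) := by
  have hA11 : 11 ≤ A := by
    by_contra h
    push Not at h
    nlinarith
  have hyy : 0 ≤ y * (d - y) := mul_nonneg hy (by linarith)
  have hB : 3 * (R - (A + 1) * (d - 1)) ≤ 30 - (2 * A - 3) * (d - 3) := by nlinarith
  have hs6 : 6 * s ≤ 36 + (A + 6) * (d - 3) := by nlinarith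
  have h1 : s * (R - (A + 1) * (d - 1)) < (A + 2) * (d - 1) := by
    rcases le_or_gt (R - (A + 1) * (d - 1)) 0 with h | h
    · have h2 : s * (R - (A + 1) * (d - 1)) ≤ 0 := mul_nonpos_of_nonneg_of_nonpos (by linarith) h
      have h3 : 0 < (A + 2) * (d - 1) := mul_pos (by linarith) (by linarith)
      linarith
    · obtain ⟨x, hx⟩ : ∃ x : ℝ, d = 3 + x := ⟨d - 3, by ring⟩
      subst hx
      have hx0 : 0 ≤ x := by linarith
      have h2 : 18 * (s * (R - (A + 1) * (3 + x - 1))) ≤ (36 + (A + 6) * x) * (30 - (2 * A - 3) * x) := by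
        have h4 : 6 * s * (3 * (R - (A + 1) * (3 + x - 1)))
            ≤ (36 + (A + 6) * x) * (3 * (R - (A + 1) * (3 + x - 1))) :=
          mul_le_mul_of_nonneg_right (by linarith) (by linarith)
        have h5 : (36 + (A + 6) * x) * (3 * (R - (A + 1) * (3 + x - 1)))
            ≤ (36 + (A + 6) * x) * (30 - (2 * A - 3) * x) :=
          mul_le_mul_of_nonneg_left (by linarith) (by nlinarith)
        linarith
      have h6 : 240 ≤ (A + 6) * (6 + x) := by linarith
      nlinarith [mul_nonneg hx0 (by linarith : 0 ≤ A - 11), mul_nonneg hx0 hx0,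
        mul_nonneg (mul_nonneg hx0 hx0) (by linarith : 0 ≤ A - 11)]
  have h2 : 0 ≤ A * (A1 - A - 3) := mul_nonneg hA.le (by linarith)
  have h3' : (A + 2) * ((A + s + 3) * (d - 1))
      ≤ (A + 2) * ((A + s + 3) * (d - 1 + y * (d - y)) + A * (A1 - A - 3)) := by
    refine mul_le_mul_of_nonneg_left ?_ (by linarith)
    have h4 : 0 ≤ (A + s + 3) * (y * (d - y)) := mul_nonneg (by linarith) hyy
    linarith
  have h4 : (A + s + 3) * (s * (R - (A + 1) * (d - 1))) < (A + s + 3) * ((A + 2) * (d - 1)) :=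
    mul_lt_mul_of_pos_left h1 (by linarith)
  linarith

/-- **`p ≥ 3`, one unit in a cell** -/
theorem c1_3 {R A1 A s d y : ℝ} (hR : R = A1 + A + s) (h80 : 80 ≤ R) (hA1 : A + s ≤ A1)
    (hs : 3 ≤ s) (hA : 0 < A) (hy : 0 ≤ y) (hyd : y ≤ d) (hd : d ≤ A) (hd3 : 3 ≤ d)
    (h3 : 3 * R ≤ (A + 6) * (d + 3)) :
    (A + s + 3) * (s * (R - A - (A + 1) * (d - 1)))
      < (A + 1) * ((A + s + 3) * (d - 1 + y * (d - y)) + A * (A1 - A - 3)) := by
  have hA11 : 11 ≤ A := by
    by_contra h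
    push Not at h
    nlinarith
  have hyy : 0 ≤ y * (d - y) := mul_nonneg hy (by linarith)
  have hB : 3 * (R - (A + 1) * (d - 1)) ≤ 30 - (2 * A - 3) * (d - 3) := by nlinarith
  have hB2 : R - A - (A + 1) * (d - 1) ≤ 0 := by nlinarith
  have h1 : (A + s + 3) * (s * (R - A - (A + 1) * (d - 1))) ≤ 0 :=
    mul_nonpos_of_nonneg_of_nonpos (by linarith) (mul_nonpos_of_nonneg_of_nonpos (by linarith) hB2)
  have h2 : 0 ≤ A * (A1 - A - 3) := mul_nonneg hA.le (by linarith)
  have h4 : 0 < (A + s + 3) * (d - 1 + y * (d - y)) := mul_pos (by linarith) (by linarith)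
  have h5 : 0 < (A + 1) * ((A + s + 3) * (d - 1 + y * (d - y)) + A * (A1 - A - 3)) :=
    mul_pos (by linarith) (by linarith)
  linarith

/-- the units of a third cell are at most `d` -/
theorem cell_le_d {R A1 A s d x E H : ℝ} (hR : R = A1 + A + s) (hA1 : A + s ≤ A1) (hs : 0 ≤ s)
    (hA : 1 ≤ A) (hd2 : 2 ≤ d) (hx : x ≤ s) (hE : E ≤ x) (hEd : d + 1 ≤ E) (hH : 0 ≤ H)
    (hD : (R - A) * E + E * (d + H - E) ≤ (x - 1) * (d + H) + R - x + 1)
    (hT : (R - A) * H ≤ (R - H) * d) : False := by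
  have h1 : 0 ≤ (E - (d + 1)) * (R - A + H - E - 1) :=
    mul_nonneg (by linarith) (by linarith)
  have h2 : (d + 1) * (R - A + H - 1) ≤ (x - 1) * (d + H) + R - x + 1 := by nlinarith
  -- `N ≤ H (x - 2 - d)`
  have h3 : (d - 1) * (R - A - x + 1) + (R - A) - d - 1 - A ≤ H * (x - 2 - d) := by nlinarith
  have h4 : 0 < (d - 1) * (R - A - x + 1) + (R - A) - d - 1 - A := by nlinarith
  have h5 : 0 < x - 2 - d := by
    by_contra h
    push Not at h
    have : H * (x - 2 - d) ≤ 0 := mul_nonpos_of_nonneg_of_nonpos hH h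
    linarith
  have h6 : H * (R - A + d) ≤ R * d := by nlinarith
  have h7 : ((d - 1) * (R - A - x + 1) + (R - A) - d - 1 - A) * (R - A + d) ≤ R * d * (x - 2 - d) := by
    have h8 := mul_le_mul_of_nonneg_right h3 (by linarith : 0 ≤ R - A + d)
    have h9 := mul_le_mul_of_nonneg_right h6 h5.le
    nlinarith
  obtain ⟨z, hz⟩ : ∃ z : ℝ, s = x + z := ⟨s - x, by ring⟩
  obtain ⟨g, hg⟩ : ∃ g : ℝ, A1 = A + s + g := ⟨A1 - A - s, by ring⟩
  obtain ⟨v, hv⟩ : ∃ v : ℝ, d = 2 + v := ⟨d - 2, by ring⟩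
  have hz0 : 0 ≤ z := by linarith
  have hg0 : 0 ≤ g := by linarith
  have hv0 : 0 ≤ v := by linarith
  have hx0 : 0 ≤ x := by linarith
  subst hR
  subst hv
  subst hg
  subst hz
  have hA0 : 0 ≤ A := by linarith
  have key : 0 < ((2 + v - 1) * (A + (x + z) + g + A + (x + z) - A - x + 1)
      + (A + (x + z) + g + A + (x + z) - A) - (2 + v) - 1 - A)
      * (A + (x + z) + g + A + (x + z) - A + (2 + v))
      - (A + (x + z) + g + A + (x + z)) * (2 + v) * (x - 2 - (2 + v)) := by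
    have e : ((2 + v - 1) * (A + (x + z) + g + A + (x + z) - A - x + 1)
      + (A + (x + z) + g + A + (x + z) - A) - (2 + v) - 1 - A)
      * (A + (x + z) + g + A + (x + z) - A + (2 + v))
      - (A + (x + z) + g + A + (x + z)) * (2 + v) * (x - 2 - (2 + v))
      = 2*g*v^2 + g^2*v + 4*z*v^2 + 4*z*g*v + 4*z^2*v + 3*x*v^2 + 2*x*g*v + 4*x*z*v + 3*A*v^2
        + 2*A*g*v + 4*A*z*v + A*x*v + A^2*v + 10*g*v + 2*g^2 + 20*z*v + 8*z*g + 8*z^2 + 17*x*v
        + 5*x*g + 10*x*z + 2*x^2 + 13*A*v + 2*(A-1)*v + 3*A*g + 6*A*z + A*x + A^2 + 10*g + 20*z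
        + 18*x + 12*A + 4*(A-1) := by ring
    rw [e]
    have hA' : 0 ≤ A - 1 := by linarith
    positivity
  linarith

/-- the violation of a cell, the units of the cell bounded by a test with the slope `κ` in the hosted ones -/
lemma f1_core {R A1 A s d y h x E H κ : ℝ} (hR : R = A1 + A + s) (hA1 : A + s ≤ A1)
    (hs : 3 ≤ s) (hA : 0 < A) (hy : 0 ≤ y) (hh : 0 ≤ h)
    (hK : (s + 1) * (d - 1) - A + h * (A1 - 1 - A + y) ≤ y * (R - A - d + y)) (hx : 0 ≤ x)
    (hH : H ≤ d - y + h) (hκ : 0 ≤ κ) (hκs : κ * s ≤ (A + x) * (s - 1))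
    (hE : (R - A) * E ≤ (x - 1) * (d - 1) + R + κ * H)
    (hV : (A + x) * (y * (A + s + 3) + A) < s * E * (A + s + 3)) :
    (A + x) * ((A + s + 3) * (d - 1 + y * (d - y)) + A * (A1 - A - 3))
      < (A + s + 3) * (s * (R - (A + 1) * (d - 1) + κ * (d - y))) := by
  have hc : 0 < R - A := by linarith
  have hC3 : 0 < A + s + 3 := by linarith
  have hAx : 0 < A + x := by linarith
  have h1 : (R - A) * ((A + x) * (y * (A + s + 3) + A)) < (R - A) * (s * E * (A + s + 3)) :=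
    mul_lt_mul_of_pos_left hV hc
  have h2 : (A + s + 3) * s * ((R - A) * E)
      ≤ (A + s + 3) * s * ((x - 1) * (d - 1) + R + κ * (d - y + h)) := by
    refine mul_le_mul_of_nonneg_left ?_ (by positivity)
    have h3 : κ * H ≤ κ * (d - y + h) := mul_le_mul_of_nonneg_left hH hκ
    linarith
  have h3 : (A + x) * (A + s + 3) * ((s + 1) * (d - 1) - A + h * (A1 - 1 - A + y) + y * (d - y))
      ≤ (A + x) * (A + s + 3) * (y * (R - A)) :=
    mul_le_mul_of_nonneg_left (by linarith) (by positivity)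
  have h4 : κ * s * h ≤ (A + x) * (s - 1) * h := mul_le_mul_of_nonneg_right hκs hh
  have h5 : (A + x) * (s - 1) * h ≤ (A + x) * (h * (A1 - 1 - A + y)) := by
    have h6 : (s - 1) * h ≤ h * (A1 - 1 - A + y) := by nlinarith
    have h7 := mul_le_mul_of_nonneg_left h6 hAx.le
    linarith
  have h6 : (A + s + 3) * (κ * s * h) ≤ (A + s + 3) * ((A + x) * (h * (A1 - 1 - A + y))) :=
    mul_le_mul_of_nonneg_left (h4.trans h5) hC3.le
  have e1 : (R - A) * ((A + x) * (y * (A + s + 3) + A))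
      = (A + x) * (A + s + 3) * (y * (R - A)) + (A + x) * (A * (A + s + 3) + A * (A1 - A - 3)) := by
    subst hR
    ring
  have e2 : (R - A) * (s * E * (A + s + 3)) = (A + s + 3) * s * ((R - A) * E) := by ring
  rw [e1, e2] at h1
  linarith

/-- the range of the cells: an affine function which is negative at both ends -/
lemma aff_neg {a b x l m : ℝ} (hl : a + b * l < 0) (hm : a + b * m < 0) (h1 : l ≤ x) (h2 : x ≤ m) :
    a + b * x < 0 := by
  rcases le_or_gt 0 b with h | h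
  · have := mul_le_mul_of_nonneg_left h2 h
    linarith
  · have := mul_le_mul_of_nonpos_left h1 h.le
    linarith

/-- `p ≥ 3`, or `p = 2` and F2 fails -/
def PP (R A s d y : ℝ) : Prop :=
  (3 ≤ d ∧ 3 * R ≤ (A + 6) * (d + 3)) ∨ (2 ≤ y ∧ 2 * R ≤ (A + 4) * (d + 2) ∧
    A * y * (A + s + 3) + A * (A + s) ≤ 2 * s * (A + s + 3))

/-- one unit in a cell -/
lemma c1_all {R A1 A s d y : ℝ} (hR : R = A1 + A + s) (h80 : 80 ≤ R) (hA1 : A + s ≤ A1)
    (hs : 3 ≤ s) (hA : 0 < A) (hy : 0 ≤ y) (hyd : y ≤ d) (hd : d ≤ A) (hp : PP R A s d y)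
    (hK : (s + 1) * (d - 1) - A ≤ y * (R - A - d + y)) :
    (A + s + 3) * (s * (R - A - (A + 1) * (d - 1)))
      < (A + 1) * ((A + s + 3) * (d - 1 + y * (d - y)) + A * (A1 - A - 3)) := by
  rcases hp with ⟨hd3, h3⟩ | ⟨hy2, h2, hF⟩
  · exact c1_3 hR h80 hA1 hs hA hy hyd hd hd3 h3
  · exact c1_2 hR h80 hA1 hs hA hy2 hyd hd h2 hK hF

/-- the light end -/
lemma c0_all {R A1 A s d y : ℝ} (hR : R = A1 + A + s) (h80 : 80 ≤ R) (hA1 : A + s ≤ A1)
    (hs : 3 ≤ s) (hA : 0 < A) (hy : 0 ≤ y) (hyd : y ≤ d) (hd : d ≤ A) (hp : PP R A s d y)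
    (hK : (s + 1) * (d - 1) - A ≤ y * (R - A - d + y)) :
    (A + s + 3) * (s * (R - (A + 1) * (d - 1)))
      < (A + 2) * ((A + s + 3) * (d - 1 + y * (d - y)) + A * (A1 - A - 3)) := by
  rcases hp with ⟨hd3, h3⟩ | ⟨hy2, h2, hF⟩
  · exact c0_3 hR h80 hA1 hs hA hy hyd hd hd3 h3
  · exact c0_2 hR h80 hA1 hs hA hy2 hyd hd h2 hK hF

/-- `p = 2`, F2 fails, `y ≥ 2`: `d ≥ 4` -/
lemma two_d4 {R A1 A s d y : ℝ} (hR : R = A1 + A + s) (h80 : 80 ≤ R) (hA1 : A + s ≤ A1)
    (hs : 3 ≤ s) (hA : 0 < A) (hy2 : 2 ≤ y) (h2 : 2 * R ≤ (A + 4) * (d + 2))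
    (hF : A * y * (A + s + 3) + A * (A + s) ≤ 2 * s * (A + s + 3)) : 4 ≤ d := by
  by_contra h4
  push Not at h4
  have h5 : A ≤ s := by
    by_contra h6
    push Not at h6
    nlinarith [mul_pos hA (by linarith : 0 < A + s), mul_nonneg hA.le (by linarith : 0 ≤ y - 2)]
  have h6 : (A + 4) * (d + 2) ≤ (A + 4) * 6 := mul_le_mul_of_nonneg_left (by linarith) (by linarith)
  linarith

/-- the middle -/
lemma c46_all {R A1 A s d y : ℝ} (hR : R = A1 + A + s) (h80 : 80 ≤ R) (hA1 : A + s ≤ A1)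
    (hs : 3 ≤ s) (hA : 0 < A) (hy : 0 ≤ y) (hyd : y ≤ d) (hd : d ≤ A) (hp : PP R A s d y)
    (hK : (s + 1) * (d - 1) - A ≤ y * (R - A - d + y)) (hsA : A ≤ 2 * s) {k : ℝ}
    (hk : k = d ∨ k = 6) :
    (A + s + 3) * (s * (2 * (R - (A + 1) * (d - 1)) + (A - k) * (d - y)))
      < 3 * (A * ((A + s + 3) * (d - 1 + y * (d - y)) + A * (A1 - A - 3))) := by
  have hdy : 0 ≤ d - y := by linarith
  have hC3 : 0 ≤ A + s + 3 := by linarith
  rcases hp with ⟨hd3, h3⟩ | ⟨hy2, h2, hF⟩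
  · refine lt_of_le_of_lt ?_ (c46_3 hR h80 hA1 hs hA hy hyd hd hd3 h3 hK hsA)
    have hk3 : 3 ≤ k := by rcases hk with rfl | rfl <;> linarith
    refine mul_le_mul_of_nonneg_left (mul_le_mul_of_nonneg_left ?_ (by linarith)) hC3
    have := mul_le_mul_of_nonneg_right (by linarith : A - k ≤ A - 3) hdy
    linarith
  · refine lt_of_le_of_lt ?_ (c46_2 hR h80 hA1 hs hA hy2 hyd hd h2 hK hF)
    have hd4 := two_d4 hR h80 hA1 hs hA hy2 h2 hF
    have hk4 : 4 ≤ k := by rcases hk with rfl | rfl <;> linarith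
    refine mul_le_mul_of_nonneg_left (mul_le_mul_of_nonneg_left ?_ (by linarith)) hC3
    have := mul_le_mul_of_nonneg_right (by linarith : A - k ≤ A - 4) hdy
    linarith

/-- the right side is positive -/
lemma Q_pos {A1 A s d y : ℝ} (hA1 : A + s ≤ A1) (hs : 3 ≤ s) (hA : 0 < A) (hy : 0 ≤ y)
    (hyd : y ≤ d) (hd2 : 2 ≤ d) :
    0 < (A + s + 3) * (d - 1 + y * (d - y)) + A * (A1 - A - 3) := by
  have h1 : 0 ≤ A * (A1 - A - 3) := mul_nonneg hA.le (by linarith)
  have h2 : 0 ≤ y * (d - y) := mul_nonneg hy (by linarith)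
  have h3 : 0 < (A + s + 3) * (d - 1 + y * (d - y)) := mul_pos (by linarith) (by linarith)
  linarith

/-- at most one unit in the cell -/
lemma f1_one {R A1 A s d y x E : ℝ} (hR : R = A1 + A + s) (hA1 : A + s ≤ A1)
    (hs : 3 ≤ s) (hA : 0 < A) (hy : 0 ≤ y)
    (hK : (s + 1) * (d - 1) - A ≤ y * (R - A - d + y)) (hx1 : 1 ≤ x) (hE1 : E ≤ 1)
    (c1 : (A + s + 3) * (s * (R - A - (A + 1) * (d - 1)))
      < (A + 1) * ((A + s + 3) * (d - 1 + y * (d - y)) + A * (A1 - A - 3))) :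
    s * E * (A + s + 3) ≤ (A + x) * (y * (A + s + 3) + A) := by
  have hC3 : 0 < A + s + 3 := by linarith
  have hc : 0 < R - A := by linarith
  have h2 : (A + 1) * (y * (A + s + 3) + A) ≤ (A + x) * (y * (A + s + 3) + A) :=
    mul_le_mul_of_nonneg_right (by linarith) (by positivity)
  have h3 : s * E * (A + s + 3) ≤ s * 1 * (A + s + 3) :=
    mul_le_mul_of_nonneg_right (mul_le_mul_of_nonneg_left hE1 (by linarith)) hC3.le
  refine h3.trans (le_trans ?_ h2)
  by_contra h1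
  push Not at h1
  have h4 : (R - A) * ((A + 1) * (y * (A + s + 3) + A)) < (R - A) * (s * 1 * (A + s + 3)) :=
    mul_lt_mul_of_pos_left h1 hc
  have h5 : (A + 1) * (A + s + 3) * ((s + 1) * (d - 1) - A + y * (d - y))
      ≤ (A + 1) * (A + s + 3) * (y * (R - A)) :=
    mul_le_mul_of_nonneg_left (by linarith) (by positivity)
  have e1 : (R - A) * ((A + 1) * (y * (A + s + 3) + A))
      = (A + 1) * (A + s + 3) * (y * (R - A)) + (A + 1) * (A * (A + s + 3) + A * (A1 - A - 3)) := by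
    rw [hR]
    ring
  rw [e1] at h4
  linarith

/-- the heavy cells: the mean of the two tests -/
lemma f1_mid {R A1 A s d y h x E H : ℝ} (hR : R = A1 + A + s) (hA1 : A + s ≤ A1)
    (hs : 3 ≤ s) (hA : 0 < A) (hy : 0 ≤ y) (hyd : y ≤ d) (hd : d ≤ A) (hd2 : 2 ≤ d) (hh : 0 ≤ h)
    (hK : (s + 1) * (d - 1) - A + h * (A1 - 1 - A + y) ≤ y * (R - A - d + y))
    (h2x : A ≤ 2 * x) (hE2 : 2 ≤ E) (hEd : E ≤ d) (hH : H ≤ d - y + h)
    (hM : (R - A) * E + E * (d - E) ≤ (x - 1) * d + R - x + 1 + H * (A - d) / 2)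
    (c46 : (A + s + 3) * (s * (2 * (R - (A + 1) * (d - 1)) + (A - d) * (d - y)))
      < 3 * (A * ((A + s + 3) * (d - 1 + y * (d - y)) + A * (A1 - A - 3)))) :
    s * E * (A + s + 3) ≤ (A + x) * (y * (A + s + 3) + A) := by
  by_contra hV
  push Not at hV
  have hx0 : 0 ≤ x := by linarith
  have hE : (R - A) * E ≤ (x - 1) * (d - 1) + R + (A - d) / 2 * H := by
    have : 0 ≤ E * (d - E) := mul_nonneg (by linarith) (by linarith)
    linarith
  have h0 : (A - d) / 2 * s ≤ (A + x) * (s - 1) := by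
    have h1 : (A - d) / 2 * s ≤ A / 2 * s := mul_le_mul_of_nonneg_right (by linarith) (by linarith)
    have h2 : 0 ≤ A * (s - 2) := mul_nonneg hA.le (by linarith)
    have h3 : 0 ≤ x * (s - 1) := mul_nonneg hx0 (by linarith)
    linarith
  have h1 := f1_core hR hA1 hs hA hy hh hK hx0 hH (by linarith : 0 ≤ (A - d) / 2) h0 hE hV
  have hQ := Q_pos hA1 hs hA hy hyd hd2
  have h4 := mul_le_mul_of_nonneg_right (by linarith : 3 * A ≤ 2 * (A + x)) hQ.le
  linarith

/-- the light cells: the hosted units out -/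
lemma f1_low {R A1 A s d y h x E H : ℝ} (hR : R = A1 + A + s) (hA1 : A + s ≤ A1)
    (hs : 3 ≤ s) (hA : 0 < A) (hy : 0 ≤ y) (hyd : y ≤ d) (hd2 : 2 ≤ d) (hh : 0 ≤ h)
    (hK : (s + 1) * (d - 1) - A + h * (A1 - 1 - A + y) ≤ y * (R - A - d + y))
    (hxs : x ≤ s) (hE2 : 2 ≤ E) (hEx : E ≤ x) (hEd : E ≤ d)
    (hH0 : 0 ≤ H) (hH : H ≤ d - y + h)
    (hD : (R - A) * E + E * (d + H - E) ≤ (x - 1) * (d + H) + R - x + 1)
    (c0 : (A + s + 3) * (s * (R - (A + 1) * (d - 1)))
      < (A + 2) * ((A + s + 3) * (d - 1 + y * (d - y)) + A * (A1 - A - 3)))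
    {m : ℝ} (hxm : x ≤ m)
    (cm : (A + s + 3) * (s * (R - (A + 1) * (d - 1) + (m - 3) * (d - y)))
      < (A + m) * ((A + s + 3) * (d - 1 + y * (d - y)) + A * (A1 - A - 3))) :
    s * E * (A + s + 3) ≤ (A + x) * (y * (A + s + 3) + A) := by
  by_contra hV
  push Not at hV
  have hx0 : 0 ≤ x := by linarith
  have hQ := Q_pos hA1 hs hA hy hyd hd2
  have hE0 : (R - A) * E ≤ (x - 1) * (d - 1) + R + (x - 3) * H := by
    have h4 : 0 ≤ (E - 2) * H := mul_nonneg (by linarith) hH0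
    have h5 : 0 ≤ E * (d - E) := mul_nonneg (by linarith) (by linarith)
    linarith
  rcases le_or_gt x 3 with hx3 | hx3
  · have hE : (R - A) * E ≤ (x - 1) * (d - 1) + R + 0 * H := by
      have : (x - 3) * H ≤ 0 := mul_nonpos_of_nonpos_of_nonneg (by linarith) hH0
      linarith
    have h1 := f1_core hR hA1 hs hA hy hh hK hx0 hH le_rfl
      (by rw [zero_mul]; exact mul_nonneg (by linarith) (by linarith)) hE hV
    have h4 := mul_le_mul_of_nonneg_right (by linarith : A + 2 ≤ A + x) hQ.le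
    linarith
  · have h0 : (x - 3) * s ≤ (A + x) * (s - 1) := by
      have h2 : 0 ≤ A * (s - 1) := mul_nonneg hA.le (by linarith)
      linarith
    have h1 := f1_core hR hA1 hs hA hy hh hK hx0 hH (by linarith : 0 ≤ x - 3) h0 hE0 hV
    generalize (A + s + 3) * (d - 1 + y * (d - y)) + A * (A1 - A - 3) = Q at *
    -- affine in `x`
    obtain ⟨a, ha⟩ : ∃ a : ℝ, a = (A + s + 3) * (s * (R - (A + 1) * (d - 1) - 3 * (d - y))) - A * Q :=
      ⟨_, rfl⟩
    obtain ⟨b, hb⟩ : ∃ b : ℝ, b = (A + s + 3) * (s * (d - y)) - Q := ⟨_, rfl⟩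
    have f3 : a + b * 3 < 0 := by
      rw [ha, hb]
      linarith
    have fx : 0 < a + b * x := by
      rw [ha, hb]
      linarith
    have fm : a + b * m < 0 := by
      rw [ha, hb]
      linarith
    have := aff_neg f3 fm hx3.le hxm
    linarith

/-- **the one cell claim for `p ≥ 2`, `R ≥ 80`, budget `A/(C + 3)`**: `p ≥ 3`, or `p = 2` and F2 fails -/
theorem f1_cell {R A1 A s d y h x E H : ℝ} (hR : R = A1 + A + s) (h80 : 80 ≤ R) (hA1 : A + s ≤ A1)
    (hs : 3 ≤ s) (hA : 1 ≤ A) (hy : 0 ≤ y) (hyd : y ≤ d) (hd : d ≤ A) (hd2 : 2 ≤ d)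
    (hp : PP R A s d y) (hh : 0 ≤ h)
    (hK : (s + 1) * (d - 1) - A + h * (A1 - 1 - A + y) ≤ y * (R - A - d + y))
    (hx1 : 1 ≤ x) (hxs : x ≤ s) (hEx : E ≤ x) (hEi : E ≤ 1 ∨ 2 ≤ E) (hEd : E ≤ d ∨ d + 1 ≤ E)
    (hH0 : 0 ≤ H) (hH : H ≤ d - y + h)
    (hD : (R - A) * E + E * (d + H - E) ≤ (x - 1) * (d + H) + R - x + 1)
    (hM : (R - A) * E + E * (d - E) ≤ (x - 1) * d + R - x + 1 + H * (A - d) / 2)
    (hT : (R - A) * H ≤ (R - H) * d) :
    s * E * (A + s + 3) ≤ (A + x) * (y * (A + s + 3) + A) := by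
  have hA0 : 0 < A := by linarith
  have hK0 : (s + 1) * (d - 1) - A ≤ y * (R - A - d + y) := by
    have : 0 ≤ h * (A1 - 1 - A + y) := mul_nonneg hh (by linarith)
    linarith
  rcases hEi with hE1 | hE2
  · exact f1_one hR hA1 hs hA0 hy hK0 hx1 hE1 (c1_all hR h80 hA1 hs hA0 hy hyd hd hp hK0)
  have hEd' : E ≤ d := by
    rcases hEd with h1 | h1
    · exact h1
    · exact (cell_le_d hR hA1 (by linarith) hA hd2 hxs hEx h1 hH0 hD hT).elim
  rcases le_or_gt A (2 * x) with h2x | h2x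
  · exact f1_mid hR hA1 hs hA0 hy hyd hd hd2 hh hK h2x hE2 hEd' hH hM
      (c46_all hR h80 hA1 hs hA0 hy hyd hd hp hK0 (by linarith) (Or.inl rfl))
  have c0 := c0_all hR h80 hA1 hs hA0 hy hyd hd hp hK0
  rcases le_or_gt A (2 * s) with h2s | h2s
  · refine f1_low hR hA1 hs hA0 hy hyd hd2 hh hK hxs hE2 hEx hEd' hH0 hH hD c0 (m := A / 2)
      (by linarith) ?_
    have := c46_all hR h80 hA1 hs hA0 hy hyd hd hp hK0 h2s (Or.inr rfl)
    linarith
  · refine f1_low hR hA1 hs hA0 hy hyd hd2 hh hK hxs hE2 hEx hEd' hH0 hH hD c0 (m := s)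
      hxs ?_
    rcases hp with ⟨hd3, h3⟩ | ⟨hy2, h2, hF⟩
    · exact c3_3 hR h80 hA1 hs hA0 hy hyd hd hd3 h3 hK0 h2s.le
    · exact absurd (two_sA hs hA0 hy2 hF) (not_le.2 h2s)

/-- `p = 2`, `R ≥ 100`: F2 holds for `y = 0` and `y = 1` -/
theorem two_y2 {R A1 A s d y : ℝ} (hR : R = A1 + A + s) (h100 : 100 ≤ R) (hA1 : A + s ≤ A1)
    (hs : 3 ≤ s) (hA : 1 ≤ A) (hyd : y ≤ d) (hy : y = 0 ∨ y = 1 ∨ 2 ≤ y)
    (h2 : 2 * R ≤ (A + 4) * (d + 2)) (hK : (s + 1) * (d - 1) - A ≤ y * (R - A - d + y))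
    (hF : A * y * (A + s + 3) + A * (A + s) < 2 * s * (A + s + 3)) : 2 ≤ y := by
  rcases hy with h0 | h0 | h0
  · exfalso
    subst h0
    have h3 : A - 3 < 2 * s := by
      by_contra h
      push Not at h
      nlinarith [mul_nonneg (by linarith : 0 ≤ A - 3 - 2 * s) (by linarith : 0 ≤ A + s + 3)]
    have h4 : A - 2 < 2 * s := by
      by_contra h
      push Not at h
      nlinarith [mul_nonneg (by linarith : 0 ≤ A - 2 - 2 * s) (by linarith : 0 ≤ A + s + 3)]
    have h5 : d < 3 := by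
      by_contra h
      push Not at h
      nlinarith [mul_nonneg (by linarith : 0 ≤ s + 1) (by linarith : 0 ≤ d - 3)]
    have h6 : (A + 4) * (d + 2) ≤ (A + 4) * 5 := mul_le_mul_of_nonneg_left (by linarith) (by linarith)
    linarith
  · exfalso
    subst h0
    have h3 : 2 * A - 3 < 2 * s := by
      by_contra h
      push Not at h
      nlinarith [mul_nonneg (by linarith : 0 ≤ 2 * A - 3 - 2 * s) (by linarith : 0 ≤ A + s + 3)]
    have h4 : A - 3 / 4 < s := by
      by_contra h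
      push Not at h
      nlinarith [mul_nonneg (by linarith : 0 ≤ A - 3 / 4 - s) (by linarith : 0 ≤ A + s + 3)]
    have h5 : 2 * ((A + 5 / 4) * (d - 1)) ≤ (A + 4) * (d + 2) := by
      have h6 : (A + 5 / 4) * (d - 1) ≤ (s + 2) * (d - 1) :=
        mul_le_mul_of_nonneg_right (by linarith) (by linarith)
      linarith
    have h6 : 8 * A - 3 < (A + 4) * (d + 2) := by linarith
    have h7 : 200 ≤ (A + 4) * (d + 2) := by linarith
    rcases le_or_gt 24 A with h8 | h8
    · nlinarith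
    · nlinarith
  · exact h0

end RowHP

end Pool.Agent.Lib.MP_f04ccf_co
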