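import Pool.Agent.Lib.MP_f04ccf_co.M.BernL

/-!
MP_f04ccf_co, TEXT D, regime H: **the boxes of the one cell claim for rows with `e ≥ d + 2`** (M/RowHP2).

Letters: `u = C/R`, `r = A/C`, `p = d/A`, `o = R/(A d)`, `v = y/d` (`C = A + s`); `T3`: `u = A/R`, `r = s/A`,
`p = 1/s`, `o = R/(A d)`, `v = y/d`.
-/

set_option autoImplicit false
set_option maxRecDepth 100000

namespace Pool.Agent.Lib.MP_f04ccf_co.RowHPB

open BernK BernK.Ex BernL BernL.Tr

namespace P3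

def a : Ex := (mul (var 0) (var 1))
def S_ : Ex := (sub (con 1) (var 1))
def sg : Ex := (mul (var 0) S_)
def f : Ex := (mul (mul a (var 2)) (var 3))
def e : Ex := (mul a f)
def eu : Ex := (mul (var 1) f)
def q : Ex := (add (con 1) (mul (con 3) eu))
def w : Ex := (mul a (var 3))
def D : Ex := (mul a (var 2))
def vv : Ex := (mul (var 4) (sub (con 1) (var 4)))
def Qp : Ex := (add (mul q (add (mul (sub D e) (var 3)) (mul vv (var 2)))) (mul (mul (var 1) (var 3)) (sub (sub (sub (con 1) (mul (con 2) a)) sg) (mul (con 3) e))))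
def br : Ex := (sub (var 3) (mul (add (con 1) f) (sub (con 1) w)))
def gP : Ex := (sub (add (mul (con 2) (mul (mul q S_) br)) (mul (mul q S_) (mul (sub (con 1) (var 4)) (sub (con 1) (mul (con 3) f))))) (mul (con 3) (mul (var 1) Qp)))
def gp : Ex := (sub (mul (add (con 1) (mul (con 6) f)) (add (con 1) (mul (con 3) w))) (mul (con 3) (var 3)))
def gK : Ex := (sub (add (mul (var 4) (sub (sub (con 1) a) (mul D (sub (con 1) (var 4))))) (mul a w)) (mul (add sg e) (sub (con 1) w)))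
def g3 : Ex := (sub (sub (con 1) (mul (con 2) a)) (mul (con 2) sg))
def g4 : Ex := (sub S_ (mul (con 3) eu))
def g5 : Ex := (sub (con 1) (mul (con 80) e))
def g6 : Ex := (sub (mul (con 2) S_) (var 1))
def mo : Ex := (mul (mul (mul (mul (mul (mul (mul (mul (mul (mul (mul (mul (mul (mul (var 0) (var 0)) (var 0)) (var 1)) (var 1)) (var 1)) (var 1)) (var 1)) (var 2)) (var 2)) (var 3)) (var 3)) (var 3)) (var 4)) (var 4))

def tr : BernL.Tr := (split 4 (split 3 (split 3 (split 1 (lin [8, 2, 5]) (split 1 (lin [16, 3, 5]) (neg 6))) (split 1 (split 2 (lin [16, 14, 11, 0, 0, 3]) (lin [16, 11, 16, 0, 0, 3])) (split 0 (lin [8, 7]) (split 0 (lin [8, 4, 0, 0, 0, 1]) (split 1 (split 3 (split 4 (split 2 (split 2 (split 2 (lin [16, 9, 13, 0, 0, 0, 5]) (split 1 (lin [8, 4, 7, 0, 0, 1]) (split 4 (split 2 (split 3 (lin [8, 0, 7, 0, 0, 0, 1]) (split 1 (split 3 (lin [115, 40, 128, 0, 0, 0, 31]) (split 4 (lin [0, 1, 8, 0,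 0, 0, 2]) (lin [121, 79, 128, 0, 0, 14, 41]))) (neg 6))) (lin [4, 1, 8, 0, 0, 2])) (lin [16, 7, 0, 0, 0, 1, 2])))) (lin [5, 3, 8, 0, 0, 2])) (lin [5, 0, 8])) (lin [64, 21, 0, 0, 0, 3])) (lin [8, 16, 3, 0, 0, 6, 3])) (neg 6)))))) (lin [0, 8, 0, 0, 0, 5, 2])) (split 3 (split 1 (lin [8, 4, 0, 0, 0, 1]) (split 3 (lin [8, 0, 0, 0, 0, 0, 1]) (split 1 (lin [512, 242, 0, 0, 0, 83, 116]) (neg 6)))) (lin [0, 8, 0, 0, 0, 5, 2])))

def bx : List (ℕ × ℕ × ℕ) := [(0, 1, 2), (0, 1, 1), (0, 1, 1), (0, 2, 1), (0, 1, 1)]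

def gs : List (Ex × ℕ) := [(gP, 904), ((add gp (mul (con 0) mo)), 176), ((add gK (mul (con 0) mo)), 20), ((add g3 (mul (con 0) mo)), 16), ((add g4 (mul (con 0) mo)), 32), ((add g5 (mul (con 0) mo)), 320), ((add g6 (mul (con 0) mo)), 24)]

theorem run_ok : BernL.run 92 5 bx gs tr = true := by
  decide +kernel

theorem no (u r p o v : ℝ) (hu : 0 ≤ u) (hu' : u ≤ 1 / 2) (hr : 0 ≤ r) (hr' : r ≤ 1)
    (hp : 0 ≤ p) (hp' : p ≤ 1) (ho : 0 ≤ o) (ho' : o ≤ 2) (hv : 0 ≤ v) (hv' : v ≤ 1)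
    (h1 : 0 ≤ 2 * ((1 + 3 * (r * (u * r * p * o))) * (1 - r) * (o - (1 + (u * r * p * o)) * (1 - (u * r * o)))) + (1 + 3 * (r * (u * r * p * o))) * (1 - r) * ((1 - v) * (1 - 3 * (u * r * p * o))) - 3 * (r * ((1 + 3 * (r * (u * r * p * o))) * (((u * r * p) - (u * r * (u * r * p * o))) * o + v * (1 - v) * p) + r * o * (1 - 2 * (u * r) - (u * (1 - r)) - 3 * (u * r * (u * r * p * o))))))
    (h2 : 0 ≤ (1 + 6 * (u * r * p * o)) * (1 + 3 * (u * r * o)) - 3 * o)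
    (h3 : 0 ≤ v * (1 - (u * r) - (u * r * p) * (1 - v)) + (u * r) * (u * r * o) - ((u * (1 - r)) + (u * r * (u * r * p * o))) * (1 - (u * r * o)))
    (h4 : 0 ≤ (1 - r) - 3 * (r * (u * r * p * o)))
    (h5 : 0 ≤ 1 - 80 * (u * r * (u * r * p * o)))
    (h6 : 0 ≤ 2 * (1 - r) - r) : False := by
  refine BernL.no_point run_ok (fun i => ([u, r, p, o, v] : List ℝ).getD i 0) ?_ ?_
  · intro i hi
    interval_cases i <;> norm_num [bx] <;> constructor <;> linarith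
  · intro g hg
    simp only [gs, List.mem_cons, List.not_mem_nil, or_false] at hg
    rcases hg with rfl | rfl | rfl | rfl | rfl | rfl | rfl <;>
      simp only [a, S_, sg, f, e, eu, q, w, D, vv, Qp, br, gP, gp, gK, g3, g4, g5, g6, mo, Ex.ev,
        List.getD_cons_zero, List.getD_cons_succ, Nat.cast_ofNat, Nat.cast_one, Nat.cast_zero] <;>
      linarith [h1, h2, h3, h4, h5, h6, hu']

end P3

namespace P2

def a : Ex := (mul (var 0) (var 1))
def S_ : Ex := (sub (con 1) (var 1))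
def sg : Ex := (mul (var 0) S_)
def f : Ex := (mul (mul a (var 2)) (var 3))
def e : Ex := (mul a f)
def eu : Ex := (mul (var 1) f)
def q : Ex := (add (con 1) (mul (con 3) eu))
def w : Ex := (mul a (var 3))
def D : Ex := (mul a (var 2))
def vv : Ex := (mul (var 4) (sub (con 1) (var 4)))
def Qp : Ex := (add (mul q (add (mul (sub D e) (var 3)) (mul vv (var 2)))) (mul (mul (var 1) (var 3)) (sub (sub (sub (con 1) (mul (con 2) a)) sg) (mul (con 3) e))))
def br : Ex := (sub (var 3) (mul (add (con 1) f) (sub (con 1) w)))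
def gP : Ex := (sub (add (mul (con 2) (mul (mul q S_) br)) (mul (mul q S_) (mul (sub (con 1) (var 4)) (sub (con 1) (mul (con 4) f))))) (mul (con 3) (mul (var 1) Qp)))
def gp : Ex := (sub (mul (add (con 1) (mul (con 4) f)) (add (con 1) (mul (con 2) w))) (mul (con 2) (var 3)))
def gK : Ex := (sub (add (mul (var 4) (sub (sub (con 1) a) (mul D (sub (con 1) (var 4))))) (mul a w)) (mul (add sg e) (sub (con 1) w)))
def g3 : Ex := (sub (sub (con 1) (mul (con 2) a)) (mul (con 2) sg))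
def g4 : Ex := (sub S_ (mul (con 3) eu))
def g5 : Ex := (sub (con 1) (mul (con 80) e))
def g6 : Ex := (sub (mul (con 2) S_) (var 1))
def gF : Ex := (sub (sub (mul (con 2) (mul S_ (mul q w))) (mul (var 1) (mul (var 4) q))) (mul w (var 1)))
def gy : Ex := (sub (var 4) (mul (con 2) w))
def gZ : Ex := (sub (sub (add (mul (con 2) (mul (var 4) (mul (var 2) (mul q (add (add (con 1) (var 4)) (mul (con 4) w)))))) (mul (con 3) (mul (sub (con 1) w) eu))) (mul (con 2) (mul (sub (con 1) w) (mul f q)))) (mul (sub (sub (con 1) (var 4)) (mul (con 3) w)) q))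
def gZ1 : Ex := (add (add (mul (sub (sub (con 1) (mul (con 2) (var 4))) (mul (con 4) w)) q) (mul (con 4) (mul f (mul q (add (con 1) (mul (con 2) w)))))) (mul (con 6) (mul w eu)))
def mo : Ex := (mul (mul (mul (mul (mul (mul (mul (mul (mul (mul (mul (mul (mul (mul (var 0) (var 0)) (var 0)) (var 1)) (var 1)) (var 1)) (var 1)) (var 1)) (var 2)) (var 2)) (var 3)) (var 3)) (var 3)) (var 4)) (var 4))

def tr : BernL.Tr := (split 4 (split 4 (split 0 (split 1 (lin [16, 15, 0, 0, 0, 0, 0, 0, 0, 9]) (lin [6, 1, 0, 0, 0, 0, 0, 32, 26, 2])) (split 3 (split 3 (lin [6, 0, 5, 0, 0, 0, 0, 8, 0, 5]) (split 0 (lin [32, 28, 9, 0, 0, 3, 0, 16, 3, 12]) (split 1 (lin [31, 26, 128, 0, 0, 0, 0, 59, 74, 12]) (lin [1, 0, 0, 0, 0, 0, 0, 14, 16, 2])))) (lin [0, 7, 0, 0, 0, 2, 0, 0, 8]))) (split 0 (lin [13, 15, 0, 0, 0, 0, 0, 64, 0, 3]) (split 3 (split 3 (lin [8, 0, 1, 0, 0, 0, 0, 2, 0, 2]) (split 0 (lin [8, 8, 0, 0, 0, 0, 0, 7,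 0, 1]) (split 2 (split 1 (split 1 (lin [1, 1]) (split 3 (split 2 (split 4 (split 1 (lin [4, 4, 0, 0, 0, 0, 0, 0, 0, 1]) (split 2 (lin [0, 0, 0, 0, 0, 0, 0, 0, 0, 3, 4]) (split 4 (split 1 (split 2 (lin [0, 0, 0, 0, 0, 0, 0, 7, 0, 6, 8]) (split 0 (lin [0, 0, 0, 0, 0, 0, 0, 8, 0, 1]) (split 1 (split 4 (neg 9) (split 3 (neg 0) (split 2 (lin [0, 0, 0, 0, 0, 0, 0, 6, 0, 5, 8]) (lin [128, 117, 43, 0, 0, 0, 0, 104, 71, 11])))) (lin [0, 0, 0, 0, 0, 0, 0, 32, 13])))) (lin [1, 0, 0, 0, 0, 0, 0, 8, 6, 2])) (lin [16, 11, 0, 0, 0, 0, 0, 0, 0, 0, 5])))) (lin [1, 0, 0, 0, 0, 0, 0, 0, 0, 2, 4])) (split 4 (split 1 (lin [8, 7, 8]) (lin [128, 96, 52, 0, 0, 0, 0, 40, 59])) (lin [8, 5]))) (split 2 (split 4 (lin [354, 512, 0, 0, 0, 0, 0, 159, 420, 0, 59]) (lin [0, 1, 0, 0, 0, 0, 0, 8])) (split 2 (split 4 (split 1 (lin [7, 8, 6]) (lin [64, 60, 10, 0, 0, 0, 0, 21, 43])) (lin [9, 10, 0, 0, 0, 0, 0, 16])) (lin [256, 242, 64,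 0, 0, 14, 0, 76, 137]))))) (lin [0, 0, 0, 0, 0, 0, 0, 4, 1])) (split 1 (lin [16, 15, 14, 0, 0, 3]) (neg 0))))) (split 1 (lin [0, 16, 0, 0, 0, 5]) (lin [12, 32, 0, 0, 0, 9, 0, 29, 26]))))) (split 3 (lin [64, 57, 0, 0, 0, 6, 0, 128, 0, 0, 31]) (lin [5, 16, 0, 0, 0, 5, 0, 6])))

def bx : List (ℕ × ℕ × ℕ) := [(0, 1, 2), (0, 1, 1), (0, 1, 1), (0, 2, 1), (0, 1, 1)]

def gs : List (Ex × ℕ) := [(gP, 968), ((add gp (mul (con 0) mo)), 88), ((add gK (mul (con 0) mo)), 20), ((add g3 (mul (con 0) mo)), 16), ((add g4 (mul (con 0) mo)), 32), ((add g5 (mul (con 0) mo)), 320), ((add g6 (mul (con 0) mo)), 24), ((add gF (mul (con 0) mo)), 104), ((add gy (mul (con 0) mo)), 16), ((add gZ (mul (con 0) mo)), 480), ((add gZ1 (mul (con 0) mo)), 336)]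

theorem run_ok : BernL.run 101 5 bx gs tr = true := by
  decide +kernel

theorem no (u r p o v : ℝ) (hu : 0 ≤ u) (hu' : u ≤ 1 / 2) (hr : 0 ≤ r) (hr' : r ≤ 1)
    (hp : 0 ≤ p) (hp' : p ≤ 1) (ho : 0 ≤ o) (ho' : o ≤ 2) (hv : 0 ≤ v) (hv' : v ≤ 1)
    (h1 : 0 ≤ 2 * ((1 + 3 * (r * (u * r * p * o))) * (1 - r) * (o - (1 + (u * r * p * o)) * (1 - (u * r * o)))) + (1 + 3 * (r * (u * r * p * o))) * (1 - r) * ((1 - v) * (1 - 4 * (u * r * p * o))) - 3 * (r * ((1 + 3 * (r * (u * r * p * o))) * (((u * r * p) - (u * r * (u * r * p * o))) * o + v * (1 - v) * p) + r * o * (1 - 2 * (u * r) - (u * (1 - r)) - 3 * (u * r * (u * r * p * o))))))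
    (h2 : 0 ≤ (1 + 4 * (u * r * p * o)) * (1 + 2 * (u * r * o)) - 2 * o)
    (h3 : 0 ≤ v * (1 - (u * r) - (u * r * p) * (1 - v)) + (u * r) * (u * r * o) - ((u * (1 - r)) + (u * r * (u * r * p * o))) * (1 - (u * r * o)))
    (h4 : 0 ≤ (1 - r) - 3 * (r * (u * r * p * o)))
    (h5 : 0 ≤ 1 - 80 * (u * r * (u * r * p * o)))
    (h6 : 0 ≤ 2 * (1 - r) - r)
    (h7 : 0 ≤ 2 * ((1 - r) * ((1 + 3 * (r * (u * r * p * o))) * (u * r * o))) - r * (v * (1 + 3 * (r * (u * r * p * o)))) - (u * r * o) * r)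
    (h8 : 0 ≤ v - 2 * (u * r * o))
    (h9 : 0 ≤ 2 * (v * (p * ((1 + 3 * (r * (u * r * p * o))) * (1 + v + 4 * (u * r * o))))) + 3 * ((1 - (u * r * o)) * (r * (u * r * p * o))) - 2 * ((1 - (u * r * o)) * ((u * r * p * o) * (1 + 3 * (r * (u * r * p * o))))) - (1 - v - 3 * (u * r * o)) * (1 + 3 * (r * (u * r * p * o))))
    (h10 : 0 ≤ (1 - 2 * v - 4 * (u * r * o)) * (1 + 3 * (r * (u * r * p * o))) + 4 * ((u * r * p * o) * ((1 + 3 * (r * (u * r * p * o))) * (1 + 2 * (u * r * o)))) + 6 * ((u * r * o) * (r * (u * r * p * o)))) : False := by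
  refine BernL.no_point run_ok (fun i => ([u, r, p, o, v] : List ℝ).getD i 0) ?_ ?_
  · intro i hi
    interval_cases i <;> norm_num [bx] <;> constructor <;> linarith
  · intro g hg
    simp only [gs, List.mem_cons, List.not_mem_nil, or_false] at hg
    rcases hg with rfl | rfl | rfl | rfl | rfl | rfl | rfl | rfl | rfl | rfl | rfl <;>
      simp only [a, S_, sg, f, e, eu, q, w, D, vv, Qp, br, gP, gp, gK, g3, g4, g5, g6, gF, gy, gZ, gZ1, mo, Ex.ev,
        List.getD_cons_zero, List.getD_cons_succ, Nat.cast_ofNat, Nat.cast_one, Nat.cast_zero] <;>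
      linarith [h1, h2, h3, h4, h5, h6, h7, h8, h9, h10, hu']

end P2

namespace Z2

def a : Ex := (mul (var 0) (var 1))
def S_ : Ex := (sub (con 1) (var 1))
def sg : Ex := (mul (var 0) S_)
def f : Ex := (mul (mul a (var 2)) (var 3))
def e : Ex := (mul a f)
def eu : Ex := (mul (var 1) f)
def q : Ex := (add (con 1) (mul (con 3) eu))
def w : Ex := (mul a (var 3))
def D : Ex := (mul a (var 2))
def vv : Ex := (mul (var 4) (sub (con 1) (var 4)))
def Qp : Ex := (add (mul q (add (mul (sub D e) (var 3)) (mul vv (var 2)))) (mul (mul (var 1) (var 3)) (sub (sub (sub (con 1) (mul (con 2) a)) sg) (mul (con 3) e))))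
def br : Ex := (sub (var 3) (mul (add (con 1) f) (sub (con 1) w)))
def gP : Ex := (sub (mul (mul q S_) br) (mul (add (var 1) (mul (con 2) eu)) Qp))
def gp : Ex := (sub (mul (add (con 1) (mul (con 4) f)) (add (con 1) (mul (con 2) w))) (mul (con 2) (var 3)))
def gK : Ex := (sub (add (mul (var 4) (sub (sub (con 1) a) (mul D (sub (con 1) (var 4))))) (mul a w)) (mul (add sg e) (sub (con 1) w)))
def g3 : Ex := (sub (sub (con 1) (mul (con 2) a)) (mul (con 2) sg))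
def g4 : Ex := (sub S_ (mul (con 3) eu))
def g5 : Ex := (sub (con 1) (mul (con 80) e))
def gF : Ex := (sub (sub (mul (con 2) (mul S_ (mul q w))) (mul (var 1) (mul (var 4) q))) (mul w (var 1)))
def gy : Ex := (sub (var 4) (mul (con 2) w))
def gZ : Ex := (sub (sub (add (mul (con 2) (mul (var 4) (mul (var 2) (mul q (add (add (con 1) (var 4)) (mul (con 4) w)))))) (mul (con 3) (mul (sub (con 1) w) eu))) (mul (con 2) (mul (sub (con 1) w) (mul f q)))) (mul (sub (sub (con 1) (var 4)) (mul (con 3) w)) q))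
def gZ1 : Ex := (add (add (mul (sub (sub (con 1) (mul (con 2) (var 4))) (mul (con 4) w)) q) (mul (con 4) (mul f (mul q (add (con 1) (mul (con 2) w)))))) (mul (con 6) (mul w eu)))
def mo : Ex := (mul (mul (mul (mul (mul (mul (mul (mul (mul (mul (mul (mul (mul (mul (mul (mul (mul (mul (var 0) (var 0)) (var 0)) (var 0)) (var 1)) (var 1)) (var 1)) (var 1)) (var 1)) (var 1)) (var 2)) (var 2)) (var 2)) (var 3)) (var 3)) (var 3)) (var 3)) (var 4)) (var 4))

def tr : BernL.Tr := (split 4 (split 3 (split 1 (lin [4, 1, 0, 0, 0, 0, 0, 1]) (lin [6, 0, 0, 0, 0, 0, 16, 6, 1])) (lin [18, 32, 0, 0, 0, 13, 12, 8])) (split 3 (lin [32, 7, 0, 0, 0, 0, 16]) (lin [23, 32, 0, 0, 0, 13, 15])))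

def bx : List (ℕ × ℕ × ℕ) := [(0, 1, 2), (0, 1, 1), (0, 1, 1), (0, 2, 1), (0, 1, 1)]

def gs : List (Ex × ℕ) := [(gP, 912), ((add gp (mul (con 0) mo)), 176), ((add gK (mul (con 0) mo)), 40), ((add g3 (mul (con 0) mo)), 32), ((add g4 (mul (con 0) mo)), 64), ((add g5 (mul (con 0) mo)), 640), ((add gF (mul (con 0) mo)), 208), ((add gy (mul (con 0) mo)), 32), ((add gZ (mul (con 0) mo)), 960), ((add gZ1 (mul (con 0) mo)), 672)]

theorem run_ok : BernL.run 47 5 bx gs tr = true := by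
  decide +kernel

theorem no (u r p o v : ℝ) (hu : 0 ≤ u) (hu' : u ≤ 1 / 2) (hr : 0 ≤ r) (hr' : r ≤ 1)
    (hp : 0 ≤ p) (hp' : p ≤ 1) (ho : 0 ≤ o) (ho' : o ≤ 2) (hv : 0 ≤ v) (hv' : v ≤ 1)
    (h1 : 0 ≤ (1 + 3 * (r * (u * r * p * o))) * (1 - r) * (o - (1 + (u * r * p * o)) * (1 - (u * r * o))) - (r + 2 * (r * (u * r * p * o))) * ((1 + 3 * (r * (u * r * p * o))) * (((u * r * p) - (u * r * (u * r * p * o))) * o + v * (1 - v) * p) + r * o * (1 - 2 * (u * r) - (u * (1 - r)) - 3 * (u * r * (u * r * p * o)))))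
    (h2 : 0 ≤ (1 + 4 * (u * r * p * o)) * (1 + 2 * (u * r * o)) - 2 * o)
    (h3 : 0 ≤ v * (1 - (u * r) - (u * r * p) * (1 - v)) + (u * r) * (u * r * o) - ((u * (1 - r)) + (u * r * (u * r * p * o))) * (1 - (u * r * o)))
    (h4 : 0 ≤ (1 - r) - 3 * (r * (u * r * p * o)))
    (h5 : 0 ≤ 1 - 80 * (u * r * (u * r * p * o)))
    (h6 : 0 ≤ 2 * ((1 - r) * ((1 + 3 * (r * (u * r * p * o))) * (u * r * o))) - r * (v * (1 + 3 * (r * (u * r * p * o)))) - (u * r * o) * r)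
    (h7 : 0 ≤ v - 2 * (u * r * o))
    (h8 : 0 ≤ 2 * (v * (p * ((1 + 3 * (r * (u * r * p * o))) * (1 + v + 4 * (u * r * o))))) + 3 * ((1 - (u * r * o)) * (r * (u * r * p * o))) - 2 * ((1 - (u * r * o)) * ((u * r * p * o) * (1 + 3 * (r * (u * r * p * o))))) - (1 - v - 3 * (u * r * o)) * (1 + 3 * (r * (u * r * p * o))))
    (h9 : 0 ≤ (1 - 2 * v - 4 * (u * r * o)) * (1 + 3 * (r * (u * r * p * o))) + 4 * ((u * r * p * o) * ((1 + 3 * (r * (u * r * p * o))) * (1 + 2 * (u * r * o)))) + 6 * ((u * r * o) * (r * (u * r * p * o)))) : False := by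
  refine BernL.no_point run_ok (fun i => ([u, r, p, o, v] : List ℝ).getD i 0) ?_ ?_
  · intro i hi
    interval_cases i <;> norm_num [bx] <;> constructor <;> linarith
  · intro g hg
    simp only [gs, List.mem_cons, List.not_mem_nil, or_false] at hg
    rcases hg with rfl | rfl | rfl | rfl | rfl | rfl | rfl | rfl | rfl | rfl <;>
      simp only [a, S_, sg, f, e, eu, q, w, D, vv, Qp, br, gP, gp, gK, g3, g4, g5, gF, gy, gZ, gZ1, mo, Ex.ev,
        List.getD_cons_zero, List.getD_cons_succ, Nat.cast_ofNat, Nat.cast_one, Nat.cast_zero] <;>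
      linarith [h1, h2, h3, h4, h5, h6, h7, h8, h9, hu']

end Z2

namespace O2

def a : Ex := (mul (var 0) (var 1))
def S_ : Ex := (sub (con 1) (var 1))
def sg : Ex := (mul (var 0) S_)
def f : Ex := (mul (mul a (var 2)) (var 3))
def e : Ex := (mul a f)
def eu : Ex := (mul (var 1) f)
def q : Ex := (add (con 1) (mul (con 3) eu))
def w : Ex := (mul a (var 3))
def D : Ex := (mul a (var 2))
def vv : Ex := (mul (var 4) (sub (con 1) (var 4)))
def Qp : Ex := (add (mul q (add (mul (sub D e) (var 3)) (mul vv (var 2)))) (mul (mul (var 1) (var 3)) (sub (sub (sub (con 1) (mul (con 2) a)) sg) (mul (con 3) e))))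
def br : Ex := (sub (var 3) (mul (add (con 1) f) (sub (con 1) w)))
def gP : Ex := (sub (mul (mul q S_) (sub br w)) (mul (add (var 1) eu) Qp))
def gp : Ex := (sub (mul (add (con 1) (mul (con 4) f)) (add (con 1) (mul (con 2) w))) (mul (con 2) (var 3)))
def gK : Ex := (sub (add (mul (var 4) (sub (sub (con 1) a) (mul D (sub (con 1) (var 4))))) (mul a w)) (mul (add sg e) (sub (con 1) w)))
def g3 : Ex := (sub (sub (con 1) (mul (con 2) a)) (mul (con 2) sg))
def g4 : Ex := (sub S_ (mul (con 3) eu))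
def g5 : Ex := (sub (con 1) (mul (con 80) e))
def gF : Ex := (sub (sub (mul (con 2) (mul S_ (mul q w))) (mul (var 1) (mul (var 4) q))) (mul w (var 1)))
def gy : Ex := (sub (var 4) (mul (con 2) w))
def gZ : Ex := (sub (sub (add (mul (con 2) (mul (var 4) (mul (var 2) (mul q (add (add (con 1) (var 4)) (mul (con 4) w)))))) (mul (con 3) (mul (sub (con 1) w) eu))) (mul (con 2) (mul (sub (con 1) w) (mul f q)))) (mul (sub (sub (con 1) (var 4)) (mul (con 3) w)) q))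
def gZ1 : Ex := (add (add (mul (sub (sub (con 1) (mul (con 2) (var 4))) (mul (con 4) w)) q) (mul (con 4) (mul f (mul q (add (con 1) (mul (con 2) w)))))) (mul (con 6) (mul w eu)))
def mo : Ex := (mul (mul (mul (mul (mul (mul (mul (mul (mul (mul (mul (mul (mul (mul (mul (mul (mul (mul (var 0) (var 0)) (var 0)) (var 0)) (var 1)) (var 1)) (var 1)) (var 1)) (var 1)) (var 1)) (var 2)) (var 2)) (var 2)) (var 3)) (var 3)) (var 3)) (var 3)) (var 4)) (var 4))

def tr : BernL.Tr := (split 3 (split 1 (lin [16, 4, 0, 0, 0, 0, 0, 1]) (lin [64, 0, 0, 0, 0, 0, 37, 6, 3])) (lin [32, 30, 0, 0, 0, 13, 22, 4]))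

def bx : List (ℕ × ℕ × ℕ) := [(0, 1, 2), (0, 1, 1), (0, 1, 1), (0, 2, 1), (0, 1, 1)]

def gs : List (Ex × ℕ) := [(gP, 800), ((add gp (mul (con 0) mo)), 176), ((add gK (mul (con 0) mo)), 40), ((add g3 (mul (con 0) mo)), 32), ((add g4 (mul (con 0) mo)), 64), ((add g5 (mul (con 0) mo)), 640), ((add gF (mul (con 0) mo)), 208), ((add gy (mul (con 0) mo)), 32), ((add gZ (mul (con 0) mo)), 960), ((add gZ1 (mul (con 0) mo)), 672)]

theorem run_ok : BernL.run 47 5 bx gs tr = true := by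
  decide +kernel

theorem no (u r p o v : ℝ) (hu : 0 ≤ u) (hu' : u ≤ 1 / 2) (hr : 0 ≤ r) (hr' : r ≤ 1)
    (hp : 0 ≤ p) (hp' : p ≤ 1) (ho : 0 ≤ o) (ho' : o ≤ 2) (hv : 0 ≤ v) (hv' : v ≤ 1)
    (h1 : 0 ≤ (1 + 3 * (r * (u * r * p * o))) * (1 - r) * ((o - (1 + (u * r * p * o)) * (1 - (u * r * o))) - (u * r * o)) - (r + (r * (u * r * p * o))) * ((1 + 3 * (r * (u * r * p * o))) * (((u * r * p) - (u * r * (u * r * p * o))) * o + v * (1 - v) * p) + r * o * (1 - 2 * (u * r) - (u * (1 - r)) - 3 * (u * r * (u * r * p * o)))))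
    (h2 : 0 ≤ (1 + 4 * (u * r * p * o)) * (1 + 2 * (u * r * o)) - 2 * o)
    (h3 : 0 ≤ v * (1 - (u * r) - (u * r * p) * (1 - v)) + (u * r) * (u * r * o) - ((u * (1 - r)) + (u * r * (u * r * p * o))) * (1 - (u * r * o)))
    (h4 : 0 ≤ (1 - r) - 3 * (r * (u * r * p * o)))
    (h5 : 0 ≤ 1 - 80 * (u * r * (u * r * p * o)))
    (h6 : 0 ≤ 2 * ((1 - r) * ((1 + 3 * (r * (u * r * p * o))) * (u * r * o))) - r * (v * (1 + 3 * (r * (u * r * p * o)))) - (u * r * o) * r)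
    (h7 : 0 ≤ v - 2 * (u * r * o))
    (h8 : 0 ≤ 2 * (v * (p * ((1 + 3 * (r * (u * r * p * o))) * (1 + v + 4 * (u * r * o))))) + 3 * ((1 - (u * r * o)) * (r * (u * r * p * o))) - 2 * ((1 - (u * r * o)) * ((u * r * p * o) * (1 + 3 * (r * (u * r * p * o))))) - (1 - v - 3 * (u * r * o)) * (1 + 3 * (r * (u * r * p * o))))
    (h9 : 0 ≤ (1 - 2 * v - 4 * (u * r * o)) * (1 + 3 * (r * (u * r * p * o))) + 4 * ((u * r * p * o) * ((1 + 3 * (r * (u * r * p * o))) * (1 + 2 * (u * r * o)))) + 6 * ((u * r * o) * (r * (u * r * p * o)))) : False := by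
  refine BernL.no_point run_ok (fun i => ([u, r, p, o, v] : List ℝ).getD i 0) ?_ ?_
  · intro i hi
    interval_cases i <;> norm_num [bx] <;> constructor <;> linarith
  · intro g hg
    simp only [gs, List.mem_cons, List.not_mem_nil, or_false] at hg
    rcases hg with rfl | rfl | rfl | rfl | rfl | rfl | rfl | rfl | rfl | rfl <;>
      simp only [a, S_, sg, f, e, eu, q, w, D, vv, Qp, br, gP, gp, gK, g3, g4, g5, gF, gy, gZ, gZ1, mo, Ex.ev,
        List.getD_cons_zero, List.getD_cons_succ, Nat.cast_ofNat, Nat.cast_one, Nat.cast_zero] <;>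
      linarith [h1, h2, h3, h4, h5, h6, h7, h8, h9, hu']

end O2

namespace T3

def f : Ex := (mul (var 1) (var 2))
def e : Ex := (mul (var 0) f)
def w : Ex := (mul (var 0) (var 3))
def sg : Ex := (mul (var 0) (var 1))
def q : Ex := (add (add (con 1) (var 1)) (mul (con 3) f))
def br : Ex := (sub (var 3) (mul (add (con 1) f) (sub (con 1) w)))
def vv : Ex := (mul (var 4) (sub (con 1) (var 4)))
def gP : Ex := (sub (mul w (mul q (add br (mul (mul (sub (con 1) (var 4)) (var 1)) (sub (con 1) (mul (con 3) (var 2))))))) (mul (add (con 1) (var 1)) (add (mul w (add (mul (mul q (var 2)) (sub (con 1) w)) (mul w (sub (con 1) (mul (con 3) (var 2)))))) (mul q (mul vv (var 2))))))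
def gP0 : Ex := (sub (mul q (add br (mul (mul (sub (con 1) (var 4)) (var 1)) (sub (con 1) (mul (con 3) (var 2)))))) (mul (add (con 1) (var 1)) (add (mul (mul q (var 2)) (sub (con 1) w)) (mul w (sub (con 1) (mul (con 3) (var 2)))))))
def gp : Ex := (sub (mul (add (con 1) (mul (con 6) f)) (add (con 1) (mul (con 3) w))) (mul (con 3) (var 3)))
def gK : Ex := (sub (add (mul (var 4) (sub (mul (var 3) (sub (con 1) (var 0))) (mul f (sub (con 1) (var 4))))) (mul (var 3) (mul (var 0) w))) (mul (var 3) (mul (add sg e) (sub (con 1) w))))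
def g3 : Ex := (sub (sub (con 1) (mul (con 2) (var 0))) (mul (con 2) sg))
def g5 : Ex := (sub (con 1) (mul (con 80) e))
def gd : Ex := (sub w f)
def mo : Ex := (mul (mul (mul (mul (mul (mul (mul (mul (mul (var 0) (var 0)) (var 1)) (var 1)) (var 2)) (var 2)) (var 3)) (var 3)) (var 4)) (var 4))

def tr : BernL.Tr := (split 3 (split 0 (split 2 (lin [0, 16, 11, 9]) (lin [0, 8, 4, 0, 0, 3])) (split 3 (lin [0, 7, 0, 8]) (split 3 (split 0 (split 4 (split 1 (lin [0, 8, 7]) (split 0 (lin [44, 34, 33, 64, 0, 3]) (split 1 (lin [0, 32, 22, 25, 20, 3]) (split 2 (split 2 (split 4 (split 1 (lin [0, 12, 11, 9, 16]) (lin [256, 54, 103, 224, 142])) (lin [8, 0, 1, 0, 1])) (lin [0, 8, 7, 7, 6, 4])) (neg 0))))) (lin [0, 8, 3])) (split 1 (lin [0, 8, 3, 0, 6]) (lin [0, 9, 6, 0, 16, 1]))) (split 0 (lin [0, 2, 16, 0, 3, 6]) (split 3 (split 2 (lin [0, 19, 23, 0, 32, 5]) (split 0 (lin [0, 13, 12, 0, 16, 3]) (split 2 (lin [0,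 22, 22, 0, 32, 5]) (split 0 (split 2 (lin [0, 19, 19, 0, 32, 4]) (split 3 (neg 0) (split 1 (split 1 (lin [0, 56, 84, 0, 128, 17]) (neg 5)) (neg 4)))) (lin [0, 6, 7, 0, 32]))))) (lin [0, 0, 49, 0, 64, 15])))))) (lin [0, 0, 8, 0, 4, 3]))

def bx : List (ℕ × ℕ × ℕ) := [(0, 1, 2), (0, 1, 2), (0, 1, 3), (0, 2, 1), (0, 1, 1)]

def gs : List (Ex × ℕ) := [(gP, 1128), ((add gP0 (mul (con 0) mo)), 984), ((add gp (mul (con 0) mo)), 864), ((add gK (mul (con 0) mo)), 288), ((add g3 (mul (con 0) mo)), 216), ((add g5 (mul (con 0) mo)), 960), ((add gd (mul (con 0) mo)), 144)]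

theorem run_ok : BernL.run 58 5 bx gs tr = true := by
  decide +kernel

theorem no (u r p o v : ℝ) (hu : 0 ≤ u) (hu' : u ≤ 1 / 2) (hr : 0 ≤ r) (hr' : r ≤ 1 / 2)
    (hp : 0 ≤ p) (hp' : p ≤ 1 / 3) (ho : 0 ≤ o) (ho' : o ≤ 2) (hv : 0 ≤ v) (hv' : v ≤ 1)
    (h1 : 0 ≤ (u * o) * ((1 + r + 3 * (r * p)) * ((o - (1 + (r * p)) * (1 - (u * o))) + (1 - v) * r * (1 - 3 * p))) - (1 + r) * ((u * o) * ((1 + r + 3 * (r * p)) * p * (1 - (u * o)) + (u * o) * (1 - 3 * p)) + (1 + r + 3 * (r * p)) * (v * (1 - v) * p)))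
    (h2 : 0 ≤ (1 + r + 3 * (r * p)) * ((o - (1 + (r * p)) * (1 - (u * o))) + (1 - v) * r * (1 - 3 * p)) - (1 + r) * ((1 + r + 3 * (r * p)) * p * (1 - (u * o)) + (u * o) * (1 - 3 * p)))
    (h3 : 0 ≤ (1 + 6 * (r * p)) * (1 + 3 * (u * o)) - 3 * o)
    (h4 : 0 ≤ v * (o * (1 - u) - (r * p) * (1 - v)) + o * (u * (u * o)) - o * (((u * r) + (u * (r * p))) * (1 - (u * o))))
    (h5 : 0 ≤ 1 - 2 * u - 2 * (u * r))
    (h6 : 0 ≤ 1 - 80 * (u * (r * p)))
    (h7 : 0 ≤ (u * o) - (r * p)) : False := by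
  refine BernL.no_point run_ok (fun i => ([u, r, p, o, v] : List ℝ).getD i 0) ?_ ?_
  · intro i hi
    interval_cases i <;> norm_num [bx] <;> constructor <;> linarith
  · intro g hg
    simp only [gs, List.mem_cons, List.not_mem_nil, or_false] at hg
    rcases hg with rfl | rfl | rfl | rfl | rfl | rfl | rfl <;>
      simp only [f, e, w, sg, q, br, vv, gP, gP0, gp, gK, g3, g5, gd, mo, Ex.ev,
        List.getD_cons_zero, List.getD_cons_succ, Nat.cast_ofNat, Nat.cast_one, Nat.cast_zero] <;>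
      linarith [h1, h2, h3, h4, h5, h6, h7]

end T3

end Pool.Agent.Lib.MP_f04ccf_co.RowHPB
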