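import Pool.Agent.Lib.MP_f04ccf_co.M.HubG

/-!
MP_f04ccf_co, TEXT D: **the row test and the columns with any weights, everything kept, unit form** (concentrated
packings).

Letters: `A = t z + 1`, `m = mu z`, `d = mu z - s z`; `S` used units, `k y`, `q y`, `f y`, `g y` the used units of host `y`
(all, PC, full plain, plain of value one).

* `PConC.colP2`: the column `y` of `z`, everything kept, used units of the host `y`;
* `qTJ`, `qPJ`: the second order parts; `PConC.linT`, `PConC.linP`: the tests in linear form;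
* `PConC.rowJ`: weights `ν` on the row test, `π y` on the columns `y ∈ J`: sums;
* `PConC.rowJ_gen`: the same from one inequality per unit (`X` hosted, `Y` served).
-/

set_option autoImplicit false

namespace Pool.Agent.Lib.MP_f04ccf_co

open Finset

attribute [local instance] Classical.propDecidable

section RowJ

variable {ι κ : Type*} {R : ℤ} {n : ℕ} {t s mu : ℕ → ℤ} {U : Finset ι} {ho : ι → ℕ} {vl : ι → ℤ}
  {kp mn : ℕ → ι → ℤ} {pc ar : ι → ℤ} {be kq NN sg : ℕ → ℕ → ℤ} {nu : ℕ → ι → ℤ}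
  {V : Finset κ} {it : κ → ι} {C : κ → Finset ℕ} {bt ht : κ → ℕ → ℤ} {z y : ℕ}
  {S : Finset κ}

/-- **the column `y` of `z`, everything kept, the units `S` of `y` used** -/
theorem PConC.colP2 (H : PConC R n t s mu U ho vl kp mn pc ar be kq NN sg nu)
    (hV : UnP R n t U ho vl kp mn V it C bt ht) (hz : z < n) (hy : y < n) (hyz : y ≠ z)
    (hS : S ⊆ V.filter fun v => z ∈ C v) (hS0 : ∀ v ∈ S, ho (it v) = y) {q f g : ℤ}
    (hq : q = ∑ v ∈ S, pc (it v))
    (hf : f = ((S.filter fun v => pc (it v) = 0 ∧ ∀ l < n, l ≠ z → kp l (it v) = 0).card : ℤ))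
    (hg : g = ((S.filter fun v => vl (it v) = 1 ∧ pc (it v) = 0).card : ℤ))
    (hp : 0 ≤ s z + (S.card : ℤ)) :
    2 * ((t y - (mu z + 2 * (S.card : ℤ) - q)) * (s z + (S.card : ℤ)))
      ≤ 2 * ((t z + 1) * (mu z + (S.card : ℤ)) + ∑ v ∈ S, bt v z)
        - 2 * ((R - t y) * ((S.card : ℤ) - 1))
        - 2 * ∑ v ∈ V.filter (fun v => ho (it v) = z), ht v y
        - (mu z + q) * (mu z + 2 * (S.card : ℤ) - q + 1)
        - (2 * (g * (g - 1)) + 2 * (q * f)) + ∑ l ∈ ((range n).erase z).erase y, NN z l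
        - minP U ho vl pc z ∅
        + (be z y + q) * (be z y + q + 1)
        + 2 * ∑ u ∈ S.image it, (1 - pc u) * ar u := by
  have h := H.unP2 hV hz hy hyz hS (X := ∅) (Y := ∅) (empty_subset _) (notMem_empty _)
    (empty_subset _) (D := ∅) (empty_subset _) (fun u hu => absurd hu (notMem_empty u))
    (q := q) (f := f) (by
      rw [hq]
      exact sum_congr rfl fun v hv => by rw [if_pos (hS0 v hv)])
    (by
      rw [hf]
      congr 2
      exact filter_congr fun v hv => by simp [hS0 v hv]) (by simpa using hp)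
  have e1 : ((S.image it).filter fun u => ho u = y) = S.image it :=
    filter_true_of_mem fun u hu => by
      obtain ⟨v, hv, rfl⟩ := mem_image.1 hu
      exact hS0 v hv
  have e2 : (S.filter fun v => ho (it v) ≠ y) = ∅ :=
    filter_eq_empty_iff.2 fun v hv h1 => h1 (hS0 v hv)
  have e3 : (S.filter fun v => ho (it v) = y → pc (it v) = 0) = S.filter fun v => pc (it v) = 0 :=
    filter_congr fun v hv => by simp [hS0 v hv]
  have e4 : (V.filter fun v => ho (it v) = z ∧ it v ∉ (∅ : Finset ι))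
      = V.filter fun v => ho (it v) = z :=
    filter_congr fun v _ => by simp
  have e5 : svU n ho vl it (S.filter fun v => pc (it v) = 0) = g * (g - 1) := by
    rw [svU_host hy fun v hv => hS0 v (mem_filter.1 hv).1, filter_filter, hg]
    have e6 : (S.filter fun v => pc (it v) = 0 ∧ vl (it v) = 1)
        = S.filter fun v => vl (it v) = 1 ∧ pc (it v) = 0 :=
      filter_congr fun v _ => by rw [and_comm]
    rw [e6]
  rw [e1, e2, e3, e4, e5] at h
  unfold TstP at h
  simp only [sum_empty, sdiff_self, bot_eq_empty, sub_zero, add_zero, zero_mul, mul_zero, zero_add,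
    sdiff_empty, card_empty, Nat.cast_zero] at h
  have e7 : mu z + 2 * (S.card : ℤ) - (2 * (S.card : ℤ) - q) = mu z + q := by ring
  have e8 : R - (R - t y) - (mu z + (2 * (S.card : ℤ) - q))
      = t y - (mu z + 2 * (S.card : ℤ) - q) := by ring
  have e9 : mu z + (2 * (S.card : ℤ) - q) + 1 = mu z + 2 * (S.card : ℤ) - q + 1 := by ring
  rw [e7, e8, e9] at h
  linarith

/-- **the second order part of the row test**, everything kept, `S` used -/
noncomputable def qTJ (n : ℕ) (U : Finset ι) (ho : ι → ℕ) (vl pc : ι → ℤ) (NN : ℕ → ℕ → ℤ)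
    (it : κ → ι) (z : ℕ) (m d : ℤ) (S : Finset κ) : ℤ :=
  2 * ((m + 2 * (S.card : ℤ)) * (m + (S.card : ℤ) - d)) - m * (m + 2 * (S.card : ℤ) + 1)
    - (svU n ho vl it S + svU n ho vl it (S.filter fun v => pc (it v) = 0))
    + ∑ l ∈ (range n).erase z, NN z l - minP U ho vl pc z ∅

/-- **the second order part of the column `y`**, everything kept, `S` used (all of host `y`) -/
noncomputable def qPJ (n : ℕ) (U : Finset ι) (ho : ι → ℕ) (vl : ι → ℤ) (kp : ℕ → ι → ℤ)
    (pc : ι → ℤ) (be NN : ℕ → ℕ → ℤ) (it : κ → ι) (z y : ℕ) (m d : ℤ) (S : Finset κ) : ℤ :=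
  2 * ((m + 2 * (S.card : ℤ) - ∑ v ∈ S, pc (it v)) * (m + (S.card : ℤ) - d))
    - (m + ∑ v ∈ S, pc (it v)) * (m + 2 * (S.card : ℤ) - ∑ v ∈ S, pc (it v) + 1)
    - (2 * (((S.filter fun v => vl (it v) = 1 ∧ pc (it v) = 0).card : ℤ)
        * (((S.filter fun v => vl (it v) = 1 ∧ pc (it v) = 0).card : ℤ) - 1))
      + 2 * ((∑ v ∈ S, pc (it v))
        * ((S.filter fun v => pc (it v) = 0 ∧ ∀ l < n, l ≠ z → kp l (it v) = 0).card : ℤ)))
    + ∑ l ∈ ((range n).erase z).erase y, NN z l - minP U ho vl pc z ∅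
    + (be z y + ∑ v ∈ S, pc (it v)) * (be z y + ∑ v ∈ S, pc (it v) + 1)

/-- **the row test in linear form** -/
theorem PConC.linT (H : PConC R n t s mu U ho vl kp mn pc ar be kq NN sg nu)
    (hV : UnP R n t U ho vl kp mn V it C bt ht) (hz : z < n)
    (hS : S ⊆ V.filter fun v => z ∈ C v) {A m d : ℤ} (hA : A = t z + 1) (hm : m = mu z)
    (hd : d = mu z - s z) (hp : 0 ≤ m - d + (S.card : ℤ)) :
    2 * ((R - A) * m) + 2 * ∑ v ∈ S, ((R - A) - bt v z)
      ≤ 2 * (R * d) + qTJ n U ho vl pc NN it z m d S := by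
  have h := H.hubT2 hV hz hS (by
    have e1 : s z + (S.card : ℤ) = m - d + (S.card : ℤ) := by rw [hm, hd]; ring
    rw [e1]
    exact hp)
  have e1 : s z + (S.card : ℤ) = m - d + (S.card : ℤ) := by rw [hm, hd]; ring
  rw [e1, ← hm, ← hA] at h
  unfold qTJ
  rw [sum_sub_distrib, sum_const, nsmul_eq_mul]
  linarith

/-- **the column in linear form** -/
theorem PConC.linP (H : PConC R n t s mu U ho vl kp mn pc ar be kq NN sg nu)
    (hV : UnP R n t U ho vl kp mn V it C bt ht) (hz : z < n) (hy : y < n) (hyz : y ≠ z)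
    (hS : S ⊆ V.filter fun v => z ∈ C v) (hS0 : ∀ v ∈ S, ho (it v) = y) {A m d : ℤ}
    (hA : A = t z + 1) (hm : m = mu z)
    (hd : d = mu z - s z) (hp : 0 ≤ m - d + (S.card : ℤ)) :
    2 * ∑ v ∈ V.filter (fun v => ho (it v) = z), (ht v y + (t y - A))
        + 2 * ∑ v ∈ S, ((R - A) - bt v z) - 2 * ∑ u ∈ S.image it, (1 - pc u) * ar u
      ≤ 2 * (t y * d) + 2 * (R - t y) + qPJ n U ho vl kp pc be NN it z y m d S := by
  have e1 : s z + (S.card : ℤ) = m - d + (S.card : ℤ) := by rw [hm, hd]; ring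
  have h := H.colP2 hV hz hy hyz hS hS0 rfl rfl rfl (by rw [e1]; exact hp)
  have e2 : ((V.filter fun v => ho (it v) = z).card : ℤ) = m := by
    rw [hm]
    exact (H.mu_units hV hz).symm
  rw [e1, ← hm, ← hA] at h
  unfold qPJ
  rw [sum_add_distrib, sum_const, nsmul_eq_mul, sum_sub_distrib, sum_const, nsmul_eq_mul, e2]
  linarith

/-- **the row test and the columns with any weights**: `ν` on the row test (used units `S`), `π y` on the column `y`
(used units `Sc y`) -/
theorem PConC.rowJ (H : PConC R n t s mu U ho vl kp mn pc ar be kq NN sg nu)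
    (hV : UnP R n t U ho vl kp mn V it C bt ht) (hz : z < n) {J : Finset ℕ}
    (hJ : J ⊆ (range n).erase z) (hS : S ⊆ V.filter fun v => z ∈ C v) {Sc : ℕ → Finset κ}
    (hSc : ∀ y ∈ J, Sc y ⊆ V.filter fun v => z ∈ C v) (hSh : ∀ y ∈ J, ∀ v ∈ Sc y, ho (it v) = y)
    {A m d : ℤ} (hA : A = t z + 1) (hm : m = mu z) (hd : d = mu z - s z)
    (hp : 0 ≤ m - d + (S.card : ℤ)) (hpc : ∀ y ∈ J, 0 ≤ m - d + ((Sc y).card : ℤ)) {ν : ℝ}
    {π : ℕ → ℝ} (hν : 0 ≤ ν) (hπ : ∀ y ∈ J, 0 ≤ π y) :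
    ∑ v ∈ V.filter (fun v => ho (it v) = z),
        (ν * ((R : ℝ) - A) + ∑ y ∈ J, π y * ((ht v y : ℝ) + ((t y : ℝ) - A)))
      + (ν * ∑ v ∈ S, (((R : ℝ) - A) - bt v z)
        + ∑ y ∈ J, π y * (∑ v ∈ Sc y, (((R : ℝ) - A) - bt v z)
          - ∑ u ∈ (Sc y).image it, (1 - (pc u : ℝ)) * ar u))
      ≤ (ν * R + ∑ y ∈ J, π y * t y) * d + ∑ y ∈ J, π y * ((R : ℝ) - t y)
        + (1 / 2) * (ν * (qTJ n U ho vl pc NN it z m d S : ℝ)
          + ∑ y ∈ J, π y * (qPJ n U ho vl kp pc be NN it z y m d (Sc y) : ℝ)) := by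
  have e2 : ((V.filter fun v => ho (it v) = z).card : ℝ) = m := by
    have h3 := H.mu_units hV hz
    rw [hm, h3]
    push_cast
    rfl
  have h1 := H.linT hV hz hS hA hm hd hp
  have h1' : 2 * (((R : ℝ) - A) * m) + 2 * ∑ v ∈ S, (((R : ℝ) - A) - bt v z)
      ≤ 2 * (R * d) + (qTJ n U ho vl pc NN it z m d S : ℝ) := by exact_mod_cast h1
  have h2 := mul_le_mul_of_nonneg_left h1' hν
  have h3 : ∀ y ∈ J, π y * (2 * ∑ v ∈ V.filter (fun v => ho (it v) = z),
        ((ht v y : ℝ) + ((t y : ℝ) - A))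
        + 2 * ∑ v ∈ Sc y, (((R : ℝ) - A) - bt v z)
        - 2 * ∑ u ∈ (Sc y).image it, (1 - (pc u : ℝ)) * ar u)
      ≤ π y * (2 * ((t y : ℝ) * d) + 2 * ((R : ℝ) - t y)
        + (qPJ n U ho vl kp pc be NN it z y m d (Sc y) : ℝ)) := by
    intro y hy
    refine mul_le_mul_of_nonneg_left ?_ (hπ y hy)
    have h4 := H.linP hV hz (mem_range.1 (mem_of_mem_erase (hJ hy))) (ne_of_mem_erase (hJ hy))
      (hSc y hy) (hSh y hy) hA hm hd (hpc y hy)
    exact_mod_cast h4
  have h5 := sum_le_sum h3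
  have e3 : ∑ v ∈ V.filter (fun v => ho (it v) = z),
        (ν * ((R : ℝ) - A) + ∑ y ∈ J, π y * ((ht v y : ℝ) + ((t y : ℝ) - A)))
      = ν * (((R : ℝ) - A) * m) + ∑ y ∈ J, π y * ∑ v ∈ V.filter (fun v => ho (it v) = z),
        ((ht v y : ℝ) + ((t y : ℝ) - A)) := by
    rw [sum_add_distrib, sum_const, nsmul_eq_mul, e2, sum_comm]
    congr 1
    · ring
    · exact sum_congr rfl fun y _ => by rw [mul_sum]
  have e4 : ∑ y ∈ J, π y * (2 * ∑ v ∈ V.filter (fun v => ho (it v) = z),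
        ((ht v y : ℝ) + ((t y : ℝ) - A))
        + 2 * ∑ v ∈ Sc y, (((R : ℝ) - A) - bt v z)
        - 2 * ∑ u ∈ (Sc y).image it, (1 - (pc u : ℝ)) * ar u)
      = 2 * ∑ y ∈ J, π y * ∑ v ∈ V.filter (fun v => ho (it v) = z),
        ((ht v y : ℝ) + ((t y : ℝ) - A))
        + 2 * ∑ y ∈ J, π y * (∑ v ∈ Sc y, (((R : ℝ) - A) - bt v z)
          - ∑ u ∈ (Sc y).image it, (1 - (pc u : ℝ)) * ar u) := by
    rw [mul_sum, mul_sum, ← sum_add_distrib]
    exact sum_congr rfl fun y _ => by ring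
  have e5 : ∑ y ∈ J, π y * (2 * ((t y : ℝ) * d) + 2 * ((R : ℝ) - t y)
        + (qPJ n U ho vl kp pc be NN it z y m d (Sc y) : ℝ))
      = 2 * ((∑ y ∈ J, π y * t y) * d) + 2 * ∑ y ∈ J, π y * ((R : ℝ) - t y)
        + ∑ y ∈ J, π y * (qPJ n U ho vl kp pc be NN it z y m d (Sc y) : ℝ) := by
    rw [sum_mul, mul_sum, mul_sum, ← sum_add_distrib, ← sum_add_distrib]
    exact sum_congr rfl fun y _ => by ring
  rw [e4, e5] at h5
  rw [e3]
  linarith [h2, h5]

/-- **the row test and the columns with any weights, one inequality per unit**: `X` what `z` pays for a hosted unit, `Y`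
what it pays for a used unit; the columns in `J` use the units of `S` of their row -/
theorem PConC.rowJ_gen (H : PConC R n t s mu U ho vl kp mn pc ar be kq NN sg nu)
    (hV : UnP R n t U ho vl kp mn V it C bt ht) (hz : z < n) {J : Finset ℕ}
    (hJ : J ⊆ (range n).erase z) (hS : S ⊆ V.filter fun v => z ∈ C v)
    {A m d : ℤ} (hA : A = t z + 1) (hm : m = mu z) (hd : d = mu z - s z)
    (hp : 0 ≤ m - d + (S.card : ℤ))
    (hpc : ∀ y ∈ J, 0 ≤ m - d + ((S.filter fun v => ho (it v) = y).card : ℤ)) {ν : ℝ}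
    {π : ℕ → ℝ} (hν : 0 ≤ ν) (hπ : ∀ y ∈ J, 0 ≤ π y) {X Y : κ → ℝ}
    (hX : ∀ v ∈ V, ho (it v) = z →
      X v ≤ ν * ((R : ℝ) - A) + ∑ y ∈ J, π y * ((ht v y : ℝ) + ((t y : ℝ) - A)))
    (hY : ∀ v ∈ S, Y v ≤ ν * (((R : ℝ) - A) - bt v z)
      + (if ho (it v) ∈ J then π (ho (it v)) * ((((R : ℝ) - A) - bt v z)
        - (1 - (pc (it v) : ℝ)) * ar (it v)) else 0)) :
    ∑ v ∈ V.filter (fun v => ho (it v) = z), X v + ∑ v ∈ S, Y v
      ≤ (ν * R + ∑ y ∈ J, π y * t y) * d + ∑ y ∈ J, π y * ((R : ℝ) - t y)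
        + (1 / 2) * (ν * (qTJ n U ho vl pc NN it z m d S : ℝ)
          + ∑ y ∈ J, π y * (qPJ n U ho vl kp pc be NN it z y m d
            (S.filter fun v => ho (it v) = y) : ℝ)) := by
  have h1 := H.rowJ hV hz hJ hS (Sc := fun y => S.filter fun v => ho (it v) = y)
    (fun y _ => (filter_subset _ _).trans hS) (fun y _ v hv => (mem_filter.1 hv).2) hA hm hd hp hpc
    hν hπ
  refine le_trans ?_ h1
  refine add_le_add ?_ ?_
  · exact sum_le_sum fun v hv => hX v (mem_filter.1 hv).1 (mem_filter.1 hv).2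
  · refine (sum_le_sum hY).trans ?_
    rw [sum_add_distrib, ← mul_sum]
    refine add_le_add le_rfl ?_
    have e1 : ∑ v ∈ S, (if ho (it v) ∈ J then π (ho (it v)) * ((((R : ℝ) - A) - bt v z)
        - (1 - (pc (it v) : ℝ)) * ar (it v)) else 0)
        = ∑ y ∈ J, ∑ v ∈ S.filter (fun v => ho (it v) = y), π y * ((((R : ℝ) - A) - bt v z)
        - (1 - (pc (it v) : ℝ)) * ar (it v)) := by
      rw [← sum_filter]
      rw [← sum_fiberwise_of_maps_to (s := S.filter fun v => ho (it v) ∈ J) (t := J)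
        (g := fun v => ho (it v)) (fun v hv => (mem_filter.1 hv).2)]
      refine sum_congr rfl fun y hy => ?_
      rw [filter_filter]
      refine sum_congr (filter_congr fun v _ => ⟨fun h => h.2, fun h => ⟨h ▸ hy, h⟩⟩) fun v hv => ?_
      rw [(mem_filter.1 hv).2]
    rw [e1]
    refine sum_le_sum fun y hy => ?_
    rw [← mul_sum, sum_sub_distrib]
    refine mul_le_mul_of_nonneg_left ?_ (hπ y hy)
    have a1 : ∑ u ∈ (S.filter fun v => ho (it v) = y).image it, (1 - pc u) * ar u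
        ≤ ∑ v ∈ S.filter (fun v => ho (it v) = y), (1 - pc (it v)) * ar (it v) := by
      rw [← sum_unU (it := it) (S := S.filter fun v => ho (it v) = y)
        fun v => (1 - pc (it v)) * ar (it v)]
      refine sum_le_sum fun u hu => ?_
      obtain ⟨v, hv, rfl⟩ := mem_image.1 hu
      have h1 : ∀ w ∈ (S.filter fun v => ho (it v) = y).filter (fun w => it w = it v),
          0 ≤ (1 - pc (it w)) * ar (it w) := by
        intro w hw
        have h2 := hV.mem w (mem_filter.1 (hS (mem_filter.1 (mem_filter.1 hw).1).1)).1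
        have h3 := H.ar0 (it w) h2
        rcases H.pc01 (it w) h2 with h4 | h4
        · rw [h4]
          linarith
        · rw [h4]
          simp
      exact single_le_sum h1 (mem_filter.2 ⟨hv, rfl⟩)
    have a2 : ∑ u ∈ (S.filter fun v => ho (it v) = y).image it, (1 - (pc u : ℝ)) * ar u
        ≤ ∑ v ∈ S.filter (fun v => ho (it v) = y), (1 - (pc (it v) : ℝ)) * ar (it v) := by
      exact_mod_cast a1
    linarith

end RowJ

end Pool.Agent.Lib.MP_f04ccf_co
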