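import Pool.Agent.Lib.MP_f04ccf_co.M.RowV
import Pool.Agent.Lib.MP_f04ccf_co.M.BndF

/-!
MP_f04ccf_co, TEXT D, middle range: **the further facts of one row in the letters of `RowV`** (TABLE F, note 18906).

* `CapJ`: the joint cap of one item of value one with two ends; `RecJ`, `RecB`: the rectangle, `j` plain hosted items
  of value one kept, the block pairs of the other tails out | kept;
* `WSv`: everything known of one served half of the cell of `y` (main end `z`): other end `w`, misses `b ≤ b'`, `m` PC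
  pairs of the host with the other end; `WHo`: the same for a hosted half (main end `y`, cut end `w`, `m` arcs);
* `RowW`: `khI`, `mhI`: every relation of (number, misses, arcs) which is closed under one more unit holds for the sums;
  `host`: the host count; `RowW.khW`, `RowW.mhW`: linear inequalities;
* `LevC.rowW`: the same hypotheses as `LevC.rowV`.
-/

set_option autoImplicit false

namespace Pool.Agent.Lib.MP_f04ccf_co

open Finset

attribute [local instance] Classical.propDecidable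

/-- the joint cap of one item with two ends in the cell `(B, B')`: `m` PC pairs of the cell, `b'` misses at the tail
`B'`, `q` PC pairs of the host with the other end -/
def CapJ (R B B' m q b' : ℕ) : Prop :=
  ((m : ℤ) - 1) * R + (R + ((B' : ℤ) - 1) - q)
    ≤ ((B : ℤ) - 1) * ((B' : ℤ) - 1) + ((m : ℤ) + 1) ^ 2 + b'

/-- the rectangle of an item with `b` misses at the row `A` and `b'` at the row `B'` (`bt` PC pairs of the row `A` with
the tail `B'`, excess `nw`), the block pairs of the other tails (at most `pm` each) out -/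
def RecJ (R A d hn B' bt nw pm j b b' : ℕ) : Prop :=
  2 * (max 0 ((b : ℤ) - bt) * b') + 2 * (((R : ℤ) + 1 - B') * ((bt : ℤ) - 1))
      + ((j : ℤ) + bt) * (j + bt + 1) + (j : ℤ) * (j - 1)
    ≤ 2 * ((A : ℤ) * (j + bt))
      + 2 * (((B' : ℤ) - 1 - (j + bt)) * ((d : ℤ) + (hn - j) - (j + bt))) + nw
      + 2 * ((pm : ℤ) * (((A : ℤ) - d - hn) + 2 * j))

/-- the rectangle, the `c` block pairs of the other tails (at most `pm` each) kept -/
def RecB (R A d hn B' bt nw pm c j b b' : ℕ) : Prop :=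
  2 * (max 0 ((b : ℤ) - bt) * b') + 2 * (((R : ℤ) + 1 - B') * ((bt : ℤ) - 1))
      + ((j : ℤ) + c + bt) * (j + c + bt + 1) + (j : ℤ) * (j - 1)
    ≤ 2 * ((A : ℤ) * (j + c + bt))
      + 2 * (((B' : ℤ) - 1 - (j + c + bt)) * ((d : ℤ) + (hn - j) - (j + c + bt))) + nw
      + (c : ℤ) * (pm + 1)

/-- **one served half of the cell of `y`** (main end `z`): other end `w`, `b` misses at `z`, `b'` at `w`, `m` PC pairs
of the host with `w` -/
structure WSv (R : ℕ) (P : Finset ℕ) (A d hn : ℕ) (B p x q mf mh nn : ℕ → ℕ) (y w b b' m : ℕ) :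
    Prop where
  ok : SOk R A (B y) b (B w) b'
  le : b ≤ b'
  j : JOk R (B y) (B w) m
  cap : ∀ m' : ℕ, m' ≤ m → CapJ R (B y) (B w) m' (q y) b'
  own : CapJ R (B y) A (p y + x y + q y) m b
  recJ : ∀ pm : ℕ, (∀ l ∈ P, l ≠ w → p l ≤ pm) → ∀ j : ℕ, j ≤ ∑ l ∈ P, (mf l + mh l) →
    RecJ R A d hn (B w) (p w + x w) (nn w) pm j b b'
  recB : ∀ pm : ℕ, (∀ l ∈ P, l ≠ w → p l ≤ pm) → ∀ j : ℕ, j ≤ ∑ l ∈ P, (mf l + mh l) →
    RecB R A d hn (B w) (p w + x w) (nn w) pm (∑ l ∈ P.erase w, p l) j b b'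

/-- **one hosted half of the cell of `y`** (main end `y`): cut end `w`, `b` misses at `y`, `b'` at `w`, `m` PC pairs of
the row with `w` -/
structure WHo (R : ℕ) (A : ℕ) (B p x q : ℕ → ℕ) (y w b b' m : ℕ) : Prop where
  ok : HOk R A (B y) b (B w) b'
  arc : m = p w + x w
  j : JOk R A (B w) (p w + x w + q w)
  capw : ∀ m' : ℕ, m' ≤ p w + x w + q w → CapJ R A (B w) m' (p y + x y) b'
  capy : ∀ m' : ℕ, m' ≤ p y + x y + q y → CapJ R A (B y) m' (p w + x w) b

/-- **the further facts of one row** -/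
structure RowW (R : ℕ) (P : Finset ℕ) (A d hn : ℕ)
    (B p x q mf mh mhb mha kf kh khb kha nn : ℕ → ℕ) : Prop where
  khI : ∀ y ∈ P, ∀ T : ℕ → ℕ → ℕ → Prop, T 0 0 0 → (∀ w ∈ P, w ≠ y → ∀ b b' m : ℕ,
    WSv R P A d hn B p x q mf mh nn y w b b' m → ∀ k s r : ℕ, T k s r →
      T (k + 1) (s + b) (r + m)) → T (kh y) (khb y) (kha y)
  mhI : ∀ y ∈ P, ∀ T : ℕ → ℕ → ℕ → Prop, T 0 0 0 → (∀ w ∈ P, w ≠ y → ∀ b b' m : ℕ,
    WHo R A B p x q y w b b' m → ∀ k s r : ℕ, T k s r →
      T (k + 1) (s + b) (r + m)) → T (mh y) (mhb y) (mha y)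
  host : ∀ y ∈ P, ∀ kf' kh' : ℕ, kf' ≤ kf y → kh' ≤ kh y → 2 * (kf' + kh') ≤ R →
    ∃ a' : ℤ, 0 ≤ a' ∧ a' ≤ kha y ∧ (kh y : ℤ) * a' ≤ kh' * (kha y : ℤ) ∧
      ((R : ℤ) - (kf' + kh')) * (2 * (kf' + kh') - B y) + ((kf' : ℤ) + kh') ^ 2
        ≤ B y * ((kf' : ℤ) + kh') + ((kf' : ℤ) + kh') * q y + a'

section RowWL

variable {R : ℕ} {P : Finset ℕ} {A d hn : ℕ} {B p x q mf mh mhb mha kf kh khb kha nn : ℕ → ℕ}

/-- **every linear inequality of the served halves** -/
theorem RowW.khW (V : RowW R P A d hn B p x q mf mh mhb mha kf kh khb kha nn) {y : ℕ} (hy : y ∈ P)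
    {al be ga : ℤ} (h : ∀ w ∈ P, w ≠ y → ∀ b b' m : ℕ,
      WSv R P A d hn B p x q mf mh nn y w b b' m → 0 ≤ al + be * b + ga * m) :
    0 ≤ al * kh y + be * khb y + ga * kha y := by
  refine V.khI y hy (fun k s r => 0 ≤ al * k + be * s + ga * r) (by simp)
    fun w hw hwy b b' m h1 k s r h2 => ?_
  have h3 := h w hw hwy b b' m h1
  push_cast
  linarith

/-- **every linear inequality of the hosted halves** -/
theorem RowW.mhW (V : RowW R P A d hn B p x q mf mh mhb mha kf kh khb kha nn) {y : ℕ} (hy : y ∈ P)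
    {al be ga : ℤ} (h : ∀ w ∈ P, w ≠ y → ∀ b b' m : ℕ,
      WHo R A B p x q y w b b' m → 0 ≤ al + be * b + ga * m) :
    0 ≤ al * mh y + be * mhb y + ga * mha y := by
  refine V.mhI y hy (fun k s r => 0 ≤ al * k + be * s + ga * r) (by simp)
    fun w hw hwy b b' m h1 k s r h2 => ?_
  have h3 := h w hw hwy b b' m h1
  push_cast
  linarith

end RowWL

section RowWS

variable {ι : Type*} {R : ℕ} {n : ℕ} {t s mu : ℕ → ℤ} {U : Finset ι} {ho : ι → ℕ} {vl : ι → ℤ}
  {kp mn : ℕ → ι → ℤ} {pc ar : ι → ℤ} {be kq NN sg : ℕ → ℕ → ℤ} {nu : ℕ → ι → ℤ} {z : ℕ}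
  {g : ℕ → ι → ℕ} {f : ι → ℕ}

/-- **no cell has `R / 2` PC pairs** -/
lemma PCon.two_bes {R : ℤ} (H : PCon R n t s mu U ho vl kp mn pc ar be kq NN sg nu) {i j : ℕ}
    (hi : i < n) (hj : j < n) (hij : i ≠ j) : 2 * (be i j + be j i) < R := by
  have h5 := H.five_le
  have h1 := H.two_t hi hj hij
  have h2 := H.t0 i hi
  have h3 := H.t0 j hj
  have h4 := H.be0 i hi j hj
  have h4' := H.be0 j hj i hi
  by_contra hcon
  push Not at hcon
  obtain ⟨m, hm⟩ : ∃ m : ℕ, (m : ℤ) = (R + 1) / 2 := ⟨((R + 1) / 2).toNat, by omega⟩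
  have h6 := H.jsub i hi j hj hij m (by omega)
  have h7 : R ≤ 2 * (m : ℤ) := by omega
  have h8 : 2 * (m : ℤ) ≤ R + 1 := by omega
  have h9 : 4 * (t i * t j) ≤ (R - 5) ^ 2 := by
    nlinarith [sq_nonneg (t i - t j), mul_nonneg h2 h3]
  have h10 : 4 * (m : ℤ) ^ 2 ≤ 2 * (m : ℤ) * (R + 1) := by nlinarith
  nlinarith

/-- **the joint cap of one item**, any number of the PC pairs of the cell -/
lemma PConC.grpJ (H : PConC (R : ℤ) n t s mu U ho vl kp mn pc ar be kq NN sg nu) {z y w : ℕ}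
    (hz : z < n) (hy : y < n) (hw : w < n) (hzw : z ≠ w) (hzy : z ≠ y) (hwy : w ≠ y) {u : ι}
    (hu : u ∈ U) (h1 : ho u = y) (h2 : pc u = 0) (h3 : vl u = 1) (h4 : kp z u ≠ 0)
    (h5 : kp w u ≠ 0) {m' : ℕ} (hm : (m' : ℤ) ≤ be y w + be w y) {q : ℕ} (hq : (q : ℤ) = be y z) :
    CapJ R (rA t y) (rA t w) m' q (rb mn w u) := by
  have h6 := H.grpCap hz hy hw hzw hzy hwy (K := {u}) (singleton_subset_iff.2 hu)
    (fun v hv => by
      rw [mem_singleton.1 hv]
      exact ⟨h1, h2, h3, h4, h5⟩) (k := 1) (β := be y w + be w y) (by simp) rfl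
  rw [sum_singleton, one_mul] at h6
  have h7 := H.two_bes hy hw hwy.symm
  obtain ⟨eB, -⟩ := H.rA_eq hy
  obtain ⟨eW, -⟩ := H.rA_eq hw
  have eb := H.rb_eq hu hw
  unfold CapJ
  rw [eB, eW, eb, hq]
  obtain ⟨β, hβ⟩ : ∃ β : ℤ, β = be y w + be w y := ⟨_, rfl⟩
  rw [← hβ] at h6 h7 hm
  have h8 : 0 ≤ (β - m') * ((R : ℤ) - β - m' - 2) := by
    rcases hm.eq_or_lt with h9 | h9
    · rw [h9]
      simp
    · exact mul_nonneg (by linarith) (by linarith)
  nlinarith [h6, h8]

/-- the number of the plain hosted items of value one -/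
lemma LevC.hone_card {φ : ι → ℕ → ℤ} (Lv : LevC n U ho vl kp mn pc φ g f) :
    ∑ y ∈ (range n).erase z, ((vHF U ho vl kp pc g f z y).card
      + (vHH U ho vl kp pc g f z y).card) ≤ ((vP0 U ho pc z).filter fun u => vl u = 1).card := by
  have h1 : ∀ y ∈ (range n).erase z, (vHF U ho vl kp pc g f z y).card
      + (vHH U ho vl kp pc g f z y).card
      = ((vP0 U ho pc z).filter fun u => vl u = 1 ∧ g y u = 1).card := by
    intro y _
    rw [← card_union_of_disjoint (vH_disj U ho vl kp pc g f z y).1]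
    congr 1
    ext u
    simp only [vHF, vHH, vP0, mem_union, mem_filter]
    tauto
  rw [sum_congr rfl h1, ← card_biUnion]
  · refine card_le_card fun u hu => ?_
    obtain ⟨y, -, h2⟩ := mem_biUnion.1 hu
    obtain ⟨h3, h4, -⟩ := mem_filter.1 h2
    exact mem_filter.2 ⟨h3, h4⟩
  · intro a ha b hb hab
    rw [Function.onFun, disjoint_left]
    intro u h2 h3
    obtain ⟨h4, h5, h6⟩ := mem_filter.1 h2
    obtain ⟨-, -, h7⟩ := mem_filter.1 h3
    have h8 := (mem_filter.1 h4).1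
    have h9 := Lv.sum u h8
    have h10 : (2 : ℤ) ≤ ∑ i ∈ range n, (g i u : ℤ) := by
      have h11 := add_sum_erase (range n) (fun i => (g i u : ℤ)) (mem_of_mem_erase ha)
      have h12 := add_sum_erase ((range n).erase a) (fun i => (g i u : ℤ))
        (mem_erase.2 ⟨fun h => hab h.symm, mem_of_mem_erase hb⟩)
      have h13 : (0 : ℤ) ≤ ∑ i ∈ ((range n).erase a).erase b, (g i u : ℤ) :=
        sum_nonneg fun i _ => Nat.cast_nonneg _
      beta_reduce at h11 h12
      rw [h6] at h11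
      rw [h7] at h12
      push_cast at h11 h12
      linarith
    rw [h9, h5] at h10
    norm_num at h10

/-- adding the units one by one -/
lemma sum_ind {S : Finset ι} {b m : ι → ℕ} {T : ℕ → ℕ → ℕ → Prop} (h0 : T 0 0 0)
    (h1 : ∀ u ∈ S, ∀ k s r : ℕ, T k s r → T (k + 1) (s + b u) (r + m u)) :
    T S.card (∑ u ∈ S, b u) (∑ u ∈ S, m u) := by
  induction S using Finset.induction_on with
  | empty => simpa using h0
  | insert a S ha ih =>
    rw [card_insert_of_notMem ha, sum_insert ha, sum_insert ha, add_comm (b a), add_comm (m a)]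
    exact h1 a (mem_insert_self _ _) _ _ _ (ih fun u hu => h1 u (mem_insert_of_mem hu))

/-- the natural part of a sum of nonnegative numbers -/
lemma toNat_sum {S : Finset ι} {a : ι → ℤ} (h : ∀ u ∈ S, 0 ≤ a u) :
    (∑ u ∈ S, a u).toNat = ∑ u ∈ S, (a u).toNat := by
  have h1 : (((∑ u ∈ S, a u).toNat : ℕ) : ℤ) = ((∑ u ∈ S, (a u).toNat : ℕ) : ℤ) := by
    rw [Int.toNat_of_nonneg (sum_nonneg h)]
    rw [Nat.cast_sum]
    exact sum_congr rfl fun u hu => (Int.toNat_of_nonneg (h u hu)).symm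
  exact_mod_cast h1

/-- **THE FURTHER FACTS OF THE ROW** -/
theorem LevC.rowW (Lv : LevC n U ho vl kp mn pc (fun u i => mn i u) g f)
    (H : PConC (R : ℤ) n t s mu U ho vl kp mn pc ar be kq NN sg nu) (hz : z < n)
    {S : ℕ → Finset ι} (hS : ∀ y, S y ⊆ vSH U ho vl kp pc g f z y)
    (hSz : ∀ y, ∀ u ∈ S y, g z u = 1) :
    RowW R ((range n).erase z) (rA t z) (nD s mu z) (vP0 U ho pc z).card
      (rA t) (nP be kq z) (nX kq z) (nQ be z)
      (fun y => (vHF U ho vl kp pc g f z y).card) (fun y => (vHH U ho vl kp pc g f z y).card)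
      (nMhb U ho vl kp mn pc g f z) (nMha n U ho vl kp pc be g f z)
      (fun y => (vSF U ho vl kp pc g f z y).card) (fun y => (S y).card)
      (nKhb mn S z) (nKha n kp be S z) (fun y => (NN z y).toNat) := by
  have hP : ∀ y ∈ (range n).erase z, y < n ∧ y ≠ z := fun y hy =>
    ⟨mem_range.1 (mem_of_mem_erase hy), ne_of_mem_erase hy⟩
  have hSU : ∀ y, S y ⊆ U := fun y => (hS y).trans (filter_subset _ _)
  obtain ⟨a1, a2, a3, a4, a5⟩ := H.nums hz
  obtain ⟨eA, gA⟩ := H.rA_eq hz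
  have eM : ∀ y ∈ (range n).erase z,
      ((nP be kq z y : ℕ) : ℤ) + (nX kq z y : ℕ) = be z y := fun y hy => by
    rw [a2 y (hP y hy).1, a3 y (hP y hy).1]
    ring
  have enn : ∀ y ∈ (range n).erase z, (((NN z y).toNat : ℕ) : ℤ) = NN z y := fun y hy =>
    Int.toNat_of_nonneg (H.nn0 z hz y (hP y hy).1)
  have h5R : (5 : ℤ) ≤ R := H.five_le
  refine ⟨fun y hy T hT0 hT => ?_, fun y hy T hT0 hT => ?_,
    fun y hy kf' kh' h1 h2 h3 => ?_⟩
  · -- khI
    obtain ⟨hyn, hyz⟩ := hP y hy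
    have e0 : nKha n kp be S z y = ∑ u ∈ S y, (arW n kp be z y u).toNat :=
      toNat_sum fun u hu => H.arW0 hyn (hSU y hu)
    rw [e0]
    unfold nKhb
    refine sum_ind hT0 fun u hu k s r hk => ?_
    obtain ⟨h1, h2, h3, h4⟩ := Lv.sh_ok (be := be) H.toPCon hz hy (hS y hu)
    obtain ⟨k1, k2, k3, k4, k5, k6⟩ := mem_filter.1 (hS y hu)
    obtain ⟨hwn, hwz⟩ := hP _ h1
    have hle : rb mn z u ≤ rb mn (oE n kp z u) u := by
      rcases h4 with ⟨-, -, -, h5⟩ | ⟨h5, -, -⟩
      · exact h5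
      · exfalso
        have h6 := hSz y u hu
        rcases (Lv.half_at H.toPCon k1 k6 hz k5).2 with h8 | h8
        · exact h8.1 h5
        · rw [h8.2] at h6
          norm_num at h6
    have hkw : kp (oE n kp z u) u ≠ 0 :=
      (oE_spec ((Lv.use_fact (be := be) H.toPCon hz y).2.1 u (hS y hu)).2.2.2).2.2
    rw [Lv.arW_eq H hz hyz (hS y hu)]
    have hb0 := H.be0 y hyn _ hwn
    have hm : (((be y (oE n kp z u)).toNat : ℕ) : ℤ) = be y (oE n kp z u) :=
      Int.toNat_of_nonneg hb0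
    have hb0' := H.be0 _ hwn y hyn
    have e1 := H.rb_eq k1 hz
    have e2 := H.rb_eq k1 hwn
    obtain ⟨eW, gW⟩ := H.rA_eq hwn
    refine hT _ h1 h2 _ (rb mn (oE n kp z u) u) _ ⟨h3, hle, H.jOk hyn hwn h2.symm,
      fun m' hm' => ?_, ?_, fun pm hpm j hj => ?_, fun pm hpm j hj => ?_⟩ k s r hk
    · refine H.grpJ hz hyn hwn hwz.symm hyz.symm h2 k1 k2 k3 k4 k5 hkw ?_ (a4 y hyn)
      have : (m' : ℤ) ≤ ((be y (oE n kp z u)).toNat : ℕ) := by exact_mod_cast hm'
      linarith
    · refine H.grpJ hwn hyn hz hwz h2 hyz.symm k1 k2 k3 k4 hkw k5 ?_ hm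
      push_cast
      rw [a4 y hyn, eM y hy]
      linarith
    · obtain ⟨J, hJ, hJc⟩ := exists_subset_card_eq (hj.trans Lv.hone_card)
      have h6 := H.rectJ hz hwn hwz k1 (P := J)
        (fun v hv => (mem_filter.1 (mem_filter.1 (hJ hv)).1).1)
        (fun v hv => ⟨(mem_filter.1 (mem_filter.1 (hJ hv)).1).2.1,
          (mem_filter.1 (mem_filter.1 (hJ hv)).1).2.2, (mem_filter.1 (hJ hv)).2⟩)
        (j := j) (β := be z (oE n kp z u)) (h := ((vP0 U ho pc z).card : ℤ)) (pm := pm)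
        (by rw [hJc]) rfl rfl (fun l hl hlz hlw => by
          rw [← a2 l hl]
          exact_mod_cast hpm l (mem_erase.2 ⟨hlz, mem_range.2 hl⟩) hlw) (Nat.cast_nonneg _)
      unfold RecJ
      push_cast
      rw [eM _ h1, e1, e2, eW, eA, a1, enn _ h1]
      have e7 : (R : ℤ) + 1 - (t (oE n kp z u) + 1) = R - t (oE n kp z u) := by ring
      have e8 : t (oE n kp z u) + 1 - 1 = t (oE n kp z u) := by ring
      rw [e7, e8]
      linarith [h6]
    · obtain ⟨J, hJ, hJc⟩ := exists_subset_card_eq (hj.trans Lv.hone_card)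
      have h6 := H.rectB hz hwn hwz k1 (P := J)
        (fun v hv => (mem_filter.1 (mem_filter.1 (hJ hv)).1).1)
        (fun v hv => ⟨(mem_filter.1 (mem_filter.1 (hJ hv)).1).2.1,
          (mem_filter.1 (mem_filter.1 (hJ hv)).1).2.2, (mem_filter.1 (hJ hv)).2⟩)
        (j := j) (β := be z (oE n kp z u)) (h := ((vP0 U ho pc z).card : ℤ)) (pm := pm)
        (b := ((∑ l ∈ ((range n).erase z).erase (oE n kp z u), nP be kq z l : ℕ) : ℤ))
        (by rw [hJc]) rfl rfl (by
          push_cast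
          exact sum_congr rfl fun l hl => a2 l (hP l (mem_of_mem_erase hl)).1)
        (fun l hl hlz hlw => by
          rw [← a2 l hl]
          exact_mod_cast hpm l (mem_erase.2 ⟨hlz, mem_range.2 hl⟩) hlw)
      unfold RecB
      obtain ⟨c, hc⟩ : ∃ c : ℕ, c = ∑ l ∈ ((range n).erase z).erase (oE n kp z u), nP be kq z l :=
        ⟨_, rfl⟩
      rw [← hc] at h6 ⊢
      push_cast
      rw [eM _ h1, e1, e2, eW, eA, a1, enn _ h1]
      have e7 : (R : ℤ) + 1 - (t (oE n kp z u) + 1) = R - t (oE n kp z u) := by ring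
      have e8 : t (oE n kp z u) + 1 - 1 = t (oE n kp z u) := by ring
      rw [e7, e8]
      linarith [h6]
  · -- mhI
    obtain ⟨hyn, hyz⟩ := hP y hy
    have e0 : nMha n U ho vl kp pc be g f z y = ∑ u ∈ vHH U ho vl kp pc g f z y,
        (∑ l ∈ ((range n).erase z).erase y, kp l u * be z l).toNat :=
      toNat_sum fun u hu => sum_nonneg fun l hl => by
        have hl' : l < n := mem_range.1 (mem_of_mem_erase (mem_of_mem_erase hl))
        exact mul_nonneg (H.k0 u (mem_filter.1 hu).1 l hl') (H.be0 z hz l hl')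
    rw [e0]
    unfold nMhb
    refine sum_ind hT0 fun u hu k s r hk => ?_
    obtain ⟨h1, h2, h3⟩ := Lv.hh_ok H.toPCon hz hy hu
    obtain ⟨k1, k2, k3, k4, -⟩ := mem_filter.1 hu
    obtain ⟨-, j2, j3, -, -⟩ := Lv.hh_fact H.toPCon hyn hu
    obtain ⟨hwn, hwz⟩ := hP _ h1
    have hky : kp y u ≠ 0 := by
      rw [j2]
      norm_num
    have hkw : kp (f u) u ≠ 0 := by
      have := Lv.f1 u k1
      omega
    rw [Lv.arH_eq H hy hu]
    have e6 := eM _ h1
    have e7 : (be z (f u)).toNat = nP be kq z (f u) + nX kq z (f u) := by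
      rw [← e6]
      omega
    rw [e7]
    have eN : ((nP be kq z (f u) + nX kq z (f u) + nQ be z (f u) : ℕ) : ℤ)
        = be z (f u) + be (f u) z := by
      push_cast
      rw [e6, a4 _ hwn]
    have eNy : ((nP be kq z y + nX kq z y + nQ be z y : ℕ) : ℤ) = be z y + be y z := by
      push_cast
      rw [eM y hy, a4 _ hyn]
    refine hT _ h1 h2 _ (rb mn (f u) u) _ ⟨h3, rfl, ?_, fun m' hm' => ?_, fun m' hm' => ?_⟩ k s r
      hk
    · have g1 := H.be_le hz hwn hwz.symm
      have g2 := H.be_le hwn hz hwz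
      refine ⟨?_, ?_, fun m' hm' => ?_⟩
      · have : ((nP be kq z (f u) + nX kq z (f u) + nQ be z (f u) : ℕ) : ℤ) ≤ rA t z := by
          rw [eN, eA]
          linarith
        exact_mod_cast this
      · have : ((nP be kq z (f u) + nX kq z (f u) + nQ be z (f u) : ℕ) : ℤ) ≤ rA t (f u) := by
          rw [eN, (H.rA_eq hwn).1]
          linarith
        exact_mod_cast this
      · have g3 : (m' : ℤ) ≤ ((nP be kq z (f u) + nX kq z (f u) + nQ be z (f u) : ℕ) : ℤ) := by
          exact_mod_cast hm'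
        rw [eN] at g3
        have g4 := H.jsub z hz _ hwn hwz.symm m' g3
        rw [eA, (H.rA_eq hwn).1]
        linarith
    · refine H.grpJ hyn hz hwn h2.symm hyz hwz k1 k2 k3 k4 hky hkw ?_ ?_
      · have g3 : (m' : ℤ) ≤ ((nP be kq z (f u) + nX kq z (f u) + nQ be z (f u) : ℕ) : ℤ) := by
          exact_mod_cast hm'
        rw [eN] at g3
        exact g3
      · push_cast
        exact eM y hy
    · refine H.grpJ hwn hz hyn h2 hwz hyz k1 k2 k3 k4 hkw hky ?_ ?_
      · have g3 : (m' : ℤ) ≤ ((nP be kq z y + nX kq z y + nQ be z y : ℕ) : ℤ) := by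
          exact_mod_cast hm'
        rw [eNy] at g3
        exact g3
      · push_cast
        exact e6
  · -- host
    obtain ⟨hyn, hyz⟩ := hP y hy
    obtain ⟨-, -, -, -, -, e6, -⟩ := H.nums2 (g := g) (f := f) hz hyn hSU
    obtain ⟨F, hF, hFc⟩ := exists_subset_card_eq h1
    obtain ⟨L, hL, hLc, hLs⟩ := exists_lowN (fun u => arW n kp be z y u) kh' _ (S y) rfl h2
    have dFL : Disjoint F L := disjoint_of_subset_left hF
      (disjoint_of_subset_right (hL.trans (hS y)) (vS_disj U ho vl kp pc g f z y).1)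
    have cFL : ((F ∪ L).card : ℤ) = kf' + kh' := by
      rw [card_union_of_disjoint dFL, hFc, hLc]
      push_cast
      rfl
    have h4 := H.hostT hyn (K := F ∪ L)
      (fun u hu => by
        rcases mem_union.1 hu with h | h
        · exact (mem_filter.1 (hF h)).1
        · exact hSU y (hL h))
      (fun u hu => by
        rcases mem_union.1 hu with h | h
        · obtain ⟨-, g2, g3, g4, -⟩ := mem_filter.1 (hF h)
          exact ⟨g2, g3, g4⟩
        · obtain ⟨-, g2, g3, g4, -⟩ := mem_filter.1 (hS y (hL h))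
          exact ⟨g2, g3, g4⟩) (k := kf' + kh') (B := t y + 1) cFL.symm rfl
      (by exact_mod_cast h3)
    have hkq : ∀ l ∈ (range n).erase y, be y l - kq y l ≤ be y l := fun l hl => by
      have := H.kq0 y hyn l (mem_range.1 (mem_of_mem_erase hl))
      linarith
    have s1 : ∀ u ∈ F, ∑ l ∈ ((range n).erase y).filter (fun l => kp l u ≠ 0),
        (be y l - kq y l) ≤ be y z := by
      intro u hu
      obtain ⟨g4, g5, g6, g7, g8, g9⟩ := mem_filter.1 (hF hu)
      obtain ⟨g10, -, -⟩ := Lv.full_at g4 g7 g9 hz g8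
      have g11 := (Lv.full_fact g4 g7 g9).2.2.2
      rw [← g10] at g11
      have g12 : ((range n).erase y).filter (fun l => kp l u ≠ 0) ⊆ {z} := by
        intro l hl
        obtain ⟨g13, g14⟩ := mem_filter.1 hl
        rw [mem_singleton]
        by_contra g15
        exact g14 (g11 l (mem_range.1 (mem_of_mem_erase g13)) g15)
      calc ∑ l ∈ ((range n).erase y).filter (fun l => kp l u ≠ 0), (be y l - kq y l)
          ≤ ∑ l ∈ ((range n).erase y).filter (fun l => kp l u ≠ 0), be y l :=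
            sum_le_sum fun l hl => hkq l (mem_filter.1 hl).1
        _ ≤ ∑ l ∈ {z}, be y l := sum_le_sum_of_subset_of_nonneg g12 fun l hl _ => by
            rw [mem_singleton.1 hl]
            exact H.be0 y hyn z hz
        _ = be y z := sum_singleton _ _
    have s2 : ∀ u ∈ L, ∑ l ∈ ((range n).erase y).filter (fun l => kp l u ≠ 0),
        (be y l - kq y l) ≤ be y z + arW n kp be z y u := by
      intro u hu
      have g1 := Lv.rnA_half H hz hyz (hS y (hL hu))
      have g0 := ((Lv.use_fact (be := be) H.toPCon hz y).2.1 u (hS y (hL hu))).2.2.2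
      rw [← g1]
      unfold rnA
      rw [if_pos g0]
      exact sum_le_sum fun l hl => hkq l (mem_filter.1 hl).1
    have s3 : ∑ u ∈ F ∪ L, ∑ l ∈ ((range n).erase y).filter (fun l => kp l u ≠ 0),
        (be y l - kq y l) ≤ ((kf' : ℤ) + kh') * (nQ be z y : ℤ) + ∑ u ∈ L, arW n kp be z y u := by
      rw [sum_union dFL, a4 y hyn]
      have g1 : ∑ u ∈ F, ∑ l ∈ ((range n).erase y).filter (fun l => kp l u ≠ 0),
          (be y l - kq y l) ≤ kf' * be y z := by
        rw [← hFc, ← nsmul_eq_mul, ← sum_const]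
        exact sum_le_sum s1
      have g2 : ∑ u ∈ L, ∑ l ∈ ((range n).erase y).filter (fun l => kp l u ≠ 0),
          (be y l - kq y l) ≤ kh' * be y z + ∑ u ∈ L, arW n kp be z y u := by
        rw [← hLc, ← nsmul_eq_mul, ← sum_const, ← sum_add_distrib]
        exact sum_le_sum s2
      linarith
    refine ⟨∑ u ∈ L, arW n kp be z y u, sum_nonneg fun u hu => H.arW0 hyn (hSU y (hL hu)),
      ?_, ?_, ?_⟩
    · rw [e6]
      exact sum_le_sum_of_subset_of_nonneg hL fun u hu _ => H.arW0 hyn (hSU y hu)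
    · rw [e6]
      exact hLs
    · rw [(H.rA_eq hyn).1]
      linarith [h4, s3]

end RowWS

end Pool.Agent.Lib.MP_f04ccf_co
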