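import Pool.Agent.Lib.MP_f04ccf_co.M.CapUn
import Pool.Agent.Lib.MP_f04ccf_co.M.MidL
import Pool.Agent.Lib.MP_f04ccf_co.M.RowWF

/-!
MP_f04ccf_co, TEXT D, middle range: **the clique letters of a row** (note 19287), same hypotheses as `LevC.rowV`.

* `RowMc`: `mc2` (at most two units of one clique in a cell), `hnd` (a clique has two units in at most one cell:
  `∑ (m + doubled) ≤ hn`), `hny` (items in a cell), `mcX` (`mcn ≤ h - hn`), `kcrq` (`kcr ≤ kca q + kcw`);
* `LevC.rowMc`; **`RowV.leafY`**: the leaf with the multiplier `an` of `m1 + m2 + doubled`.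
-/

set_option autoImplicit false

namespace Pool.Agent.Lib.MP_f04ccf_co

open Finset

attribute [local instance] Classical.propDecidable

/-- **the clique letters of a row** -/
structure RowMc (P : Finset ℕ) (hn h : ℕ) (q mf mh mc mcn kca kcr kcw : ℕ → ℕ) : Prop where
  mc2 : ∀ y ∈ P, mc y ≤ 2 * mcn y
  hnd : ∑ y ∈ P, (mf y + mh y + (mc y - mcn y)) ≤ hn
  hny : ∀ y ∈ P, mf y + mh y + mcn y ≤ hn
  mcX : ∀ y ∈ P, mcn y + hn ≤ h
  kcrq : ∀ y ∈ P, kcr y ≤ kca y * q y + kcw y

section RowMS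

variable {ι : Type*} {R : ℕ} {n : ℕ} {t s mu : ℕ → ℤ} {U : Finset ι} {ho : ι → ℕ} {vl : ι → ℤ}
  {kp mn : ℕ → ι → ℤ} {pc ar : ι → ℤ} {be kq NN sg : ℕ → ℕ → ℤ} {nu : ℕ → ι → ℤ} {z : ℕ}
  {g : ℕ → ι → ℕ} {f : ι → ℕ}

/-- a clique has two units in at most one cell -/
lemma LevC.dbl_one {φ : ι → ℕ → ℤ} (Lv : LevC n U ho vl kp mn pc φ g f)
    (H : PConC (R : ℤ) n t s mu U ho vl kp mn pc ar be kq NN sg nu) {u : ι} (hu : u ∈ U)
    {P : Finset ℕ} (hP : P ⊆ range n) : ∑ y ∈ P, (g y u - 1) ≤ 1 := by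
  by_cases h : ∃ y ∈ P, g y u = 2
  · obtain ⟨y, hy, h2⟩ := h
    have hyn := mem_range.1 (hP hy)
    have h3 : kp y u = 2 := by
      have h4 := Lv.le u hu y hyn
      have h5 := H.k2 u hu y hyn
      omega
    have h6 : ∑ l ∈ P.erase y, (g l u - 1) = 0 := sum_eq_zero fun l hl => by
      have hln := mem_range.1 (hP (mem_of_mem_erase hl))
      have h4 := H.k21 u hu y hyn l hln (ne_of_mem_erase hl).symm h3
      have h5 := Lv.le u hu l hln
      omega
    rw [← add_sum_erase P _ hy, h2, h6]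
  · push Not at h
    have h6 : ∑ l ∈ P, (g l u - 1) = 0 := sum_eq_zero fun l hl => by
      have h4 := Lv.two H.toPCon u hu l (mem_range.1 (hP hl))
      have h5 := h l hl
      omega
    rw [h6]
    exact Nat.zero_le _

/-- **the clique letters** -/
theorem LevC.rowMc (Lv : LevC n U ho vl kp mn pc (fun u i => mn i u) g f)
    (H : PConC (R : ℤ) n t s mu U ho vl kp mn pc ar be kq NN sg nu) (hz : z < n) :
    RowMc ((range n).erase z) (vP0 U ho pc z).card (nH U ho vl pc z) (nQ be z)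
      (fun y => (vHF U ho vl kp pc g f z y).card) (fun y => (vHH U ho vl kp pc g f z y).card)
      (nMc U ho vl pc g z) (fun y => (vHC U ho vl pc g z y).card)
      (fun y => (vSC U ho vl pc g z y).card) (nKcr n U ho vl kp pc be g z)
      (nKcw n U ho vl kp pc be g z) := by
  have hP : ∀ y ∈ (range n).erase z, y < n ∧ y ≠ z := fun y hy =>
    ⟨mem_range.1 (mem_of_mem_erase hy), ne_of_mem_erase hy⟩
  obtain ⟨a1, a2, a3, a4, a5⟩ := H.nums hz
  have hcn : ∀ y ∈ (range n).erase z, nMc U ho vl pc g z y - (vHC U ho vl pc g z y).card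
      = ∑ u ∈ (vP0 U ho pc z).filter (fun u => vl u ≠ 1), (g y u - 1) := by
    intro y hy
    have e1 : vHC U ho vl pc g z y
        = ((vP0 U ho pc z).filter fun u => vl u ≠ 1).filter fun u => g y u ≠ 0 := by
      ext u
      simp only [vHC, vP0, mem_filter]
      tauto
    have e2 : ∑ u ∈ (vP0 U ho pc z).filter (fun u => vl u ≠ 1), (g y u - 1)
        = ∑ u ∈ vHC U ho vl pc g z y, (g y u - 1) := by
      rw [e1, sum_filter (p := fun u => g y u ≠ 0)]
      refine sum_congr rfl fun u _ => ?_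
      split_ifs with h
      · rfl
      · push Not at h
        rw [h]
        rfl
    rw [e2]
    unfold nMc
    have e3 : ∑ u ∈ vHC U ho vl pc g z y, g y u
        = (vHC U ho vl pc g z y).card + ∑ u ∈ vHC U ho vl pc g z y, (g y u - 1) := by
      rw [card_eq_sum_ones, ← sum_add_distrib]
      refine sum_congr rfl fun u hu => ?_
      have := (mem_filter.1 hu).2.2.2.2
      omega
    rw [e3]
    omega
  refine ⟨fun y hy => ?_, ?_, fun y hy => ?_, fun y hy => ?_, fun y hy => ?_⟩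
  · unfold nMc
    rw [card_eq_sum_ones, mul_sum]
    refine sum_le_sum fun u hu => ?_
    have := Lv.two H.toPCon u (mem_filter.1 hu).1 y (hP y hy).1
    omega
  · -- hnd
    have h1 := Lv.hone_card (z := z)
    rw [sum_add_distrib]
    have h2 : ∑ y ∈ (range n).erase z, (nMc U ho vl pc g z y - (vHC U ho vl pc g z y).card)
        ≤ ((vP0 U ho pc z).filter fun u => vl u ≠ 1).card := by
      rw [sum_congr rfl hcn, sum_comm, card_eq_sum_ones]
      exact sum_le_sum fun u hu => Lv.dbl_one H (mem_filter.1 (mem_filter.1 hu).1).1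
        (erase_subset _ _)
    have h3 : ((vP0 U ho pc z).filter fun u => vl u = 1).card
        + ((vP0 U ho pc z).filter fun u => vl u ≠ 1).card = (vP0 U ho pc z).card :=
      card_filter_add_card_filter_not _
    omega
  · -- hny
    obtain ⟨d1, d2⟩ := vH_disj U ho vl kp pc g f z y
    rw [← card_union_of_disjoint d1, ← card_union_of_disjoint d2]
    refine card_le_card fun u hu => ?_
    rcases mem_union.1 hu with h | h
    · rcases mem_union.1 h with h | h
      · obtain ⟨h1, h2, h3, -⟩ := mem_filter.1 h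
        exact mem_filter.2 ⟨h1, h2, h3⟩
      · obtain ⟨h1, h2, h3, -⟩ := mem_filter.1 h
        exact mem_filter.2 ⟨h1, h2, h3⟩
    · obtain ⟨h1, h2, h3, -⟩ := mem_filter.1 h
      exact mem_filter.2 ⟨h1, h2, h3⟩
  · -- mcX
    have h1 : (((vHC U ho vl pc g z y).card : ℕ) : ℤ) + ((vP0 U ho pc z).card : ℕ)
        ≤ (nH U ho vl pc z : ℕ) := by
      rw [a5]
      have h2 : ((vP0 U ho pc z).card : ℤ) = ∑ u ∈ vP0 U ho pc z, (1 : ℤ) := by simp
      have h3 : (((vHC U ho vl pc g z y).card : ℕ) : ℤ)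
          ≤ ∑ u ∈ vP0 U ho pc z, (vl u - 1) := by
        have h4 : vHC U ho vl pc g z y ⊆ vP0 U ho pc z := fun u hu => by
          obtain ⟨k1, k2, k3, -⟩ := mem_filter.1 hu
          exact mem_filter.2 ⟨k1, k2, k3⟩
        refine le_trans ?_ (sum_le_sum_of_subset_of_nonneg h4 fun u hu _ => by
          have := H.v1 u (mem_filter.1 hu).1
          linarith)
        rw [card_eq_sum_ones, Nat.cast_sum]
        refine sum_le_sum fun u hu => ?_
        obtain ⟨k1, -, -, k4, -⟩ := mem_filter.1 hu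
        have := H.v1 u k1
        push_cast
        omega
      rw [sum_sub_distrib] at h3
      rw [h2]
      linarith
    exact_mod_cast h1
  · -- kcrq
    have hyn := (hP y hy).1
    have hyz := (hP y hy).2
    have e1 : ((nKcr n U ho vl kp pc be g z y : ℕ) : ℤ)
        = ∑ u ∈ vSC U ho vl pc g z y, rnA n kp be z y u :=
      Int.toNat_of_nonneg (sum_nonneg fun u _ => H.rnA0 hyn u)
    have e2 : ((nKcw n U ho vl kp pc be g z y : ℕ) : ℤ)
        = ∑ u ∈ vSC U ho vl pc g z y, arW n kp be z y u :=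
      Int.toNat_of_nonneg (sum_nonneg fun u hu => H.arW0 hyn (mem_filter.1 hu).1)
    have h1 : ((nKcr n U ho vl kp pc be g z y : ℕ) : ℤ)
        ≤ (((vSC U ho vl pc g z y).card * nQ be z y + nKcw n U ho vl kp pc be g z y : ℕ) : ℤ) := by
      push_cast
      rw [e1, e2, a4 y hyn, ← nsmul_eq_mul, ← sum_const, ← sum_add_distrib]
      refine sum_le_sum fun u hu => ?_
      have hu' := (mem_filter.1 hu).1
      have h0 : 0 ≤ arW n kp be z y u := H.arW0 hyn hu'
      have hb := H.be0 y hyn z hz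
      unfold rnA
      split_ifs with hc
      · unfold arW
        rw [sum_filter, ← add_sum_erase ((range n).erase y) _
          (mem_erase.2 ⟨hyz.symm, mem_range.2 hz⟩), erase_right_comm]
        refine add_le_add ?_ (sum_le_sum fun l hl => ?_)
        · split_ifs
          · exact le_rfl
          · exact hb
        · have hl' : l < n := mem_range.1 (mem_of_mem_erase (mem_of_mem_erase hl))
          have h5 := H.k0 u hu' l hl'
          have h6 := H.be0 y hyn l hl'
          split_ifs with h7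
          · have h8 : 1 ≤ kp l u := by omega
            nlinarith
          · exact mul_nonneg h5 h6
      · linarith
    exact_mod_cast h1

end RowMS

section RowML

variable {R : ℕ} {P : Finset ℕ} {A d hn h : ℕ}
  {B p x q mf mh mhb mha mc mcb mcn mcv kf kh khb kha kc kca kcb kcr kcw sg en nn : ℕ → ℕ}

/-- **THE LEAF, multiplier `an` of `m1 + m2 + doubled`** -/
theorem RowV.leafY (V : RowV R P A d hn h B p x q mf mh mhb mha mc mcb mcn mcv kf kh khb kha kc kca
    kcb kcr sg en nn) (W : RowMc P hn h q mf mh mc mcn kca kcr kcw) {pm : ℕ} (hpm : ∀ l ∈ P, p l ≤ pm)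
    {nb : ℕ → ℤ} (hnb : ∀ y ∈ P, (nn y : ℤ) ≤ nb y) {gn : ℤ} (hgn : gn ≤ (hn : ℤ) * (hn - 1))
    (L : LeafD) (hr : ∀ r ∈ L.rows, r.2.ok R (stN P d hn h p x q kf kh kc kca)) (hal : 0 ≤ L.al)
    (han : 0 ≤ L.ln.an) {cls : ℕ → ℤ} (hcls : ∑ y ∈ P, cls y ≤ L.nu) {sn : ℕ → ℤ}
    (hC : ∀ y ∈ P, sn y + L.cel (p y) (q y) (kf y) (kh y) (nb y) (khb y) (kcb y)
      + (L.ln.cel (p y) (x y) (q y) (mf y) (mh y) (mc y) (kf y) (kh y) (kc y) (kca y)
        - L.ln.an * ((mc y - mcn y : ℕ) : ℤ)) ≤ L.al * B y + cls y) :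
    ∑ y ∈ P, sn y ≤ L.fin R A pm gn (stN P d hn h p x q kf kh kc kca) := by
  have m1 := sum_le_sum hC
  rw [sum_add_distrib, sum_add_distrib, sum_add_distrib, ← mul_sum, sum_sub_distrib, ← mul_sum] at m1
  -- the tests
  have m2 : ∀ rows : List (ℕ × RKd), (∀ r ∈ rows, r.2.ok R (stN P d hn h p x q kf kh kc kca)) →
      0 ≤ (rows.map fun r => (r.1 : ℤ) * r.2.rs R A pm gn (stN P d hn h p x q kf kh kc kca)).sum
        + ∑ y ∈ P, (rows.map fun r => (r.1 : ℤ)
          * r.2.rc (p y) (q y) (kf y) (kh y) (nb y) (khb y) (kcb y)).sum := by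
    intro rows
    induction rows with
    | nil => intro _; simp
    | cons a rows ih =>
      intro ha
      have i1 := ih fun r hr => ha r (List.mem_cons_of_mem _ hr)
      have i2 := V.rkd hpm hnb hgn a.2 (ha a List.mem_cons_self)
      have i3 := mul_nonneg (Nat.cast_nonneg (α := ℤ) a.1) i2
      rw [mul_add, mul_sum] at i3
      simp only [List.map_cons, List.sum_cons, sum_add_distrib]
      linarith
  have m3 := m2 L.rows hr
  -- the masses
  have m4 : ∑ y ∈ P, (B y : ℤ) ≤ R - A := by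
    have : ((A + ∑ y ∈ P, B y : ℕ) : ℤ) ≤ R := by exact_mod_cast V.mass
    push_cast at this
    linarith
  have m5 := mul_le_mul_of_nonneg_left m4 hal
  -- the totals
  have m6 : L.ln.stt (stN P d hn h p x q kf kh kc kca) ≤ ∑ y ∈ P,
      L.ln.cel (p y) (x y) (q y) (mf y) (mh y) (mc y) (kf y) (kh y) (kc y) (kca y)
        - L.ln.an * ∑ y ∈ P, ((mc y - mcn y : ℕ) : ℤ) := by
    have a1 : (h : ℤ) = ∑ y ∈ P, ((mf y : ℤ) + mh y + mc y) := by
      have := V.hS
      rw [this]
      push_cast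
      rfl
    have a2 : ∑ y ∈ P, ((mf y : ℤ) + mh y) + ∑ y ∈ P, ((mc y - mcn y : ℕ) : ℤ) ≤ hn := by
      rw [← sum_add_distrib]
      exact_mod_cast W.hnd
    have a3 := mul_le_mul_of_nonneg_left a2 han
    rw [mul_add] at a3
    have a4 : ∑ y ∈ P, L.ln.cel (p y) (x y) (q y) (mf y) (mh y) (mc y) (kf y) (kh y) (kc y) (kca y)
        = L.ln.ah * ∑ y ∈ P, ((mf y : ℤ) + mh y + mc y) - L.ln.an * ∑ y ∈ P, ((mf y : ℤ) + mh y)
          + L.ln.ap * ∑ y ∈ P, (p y : ℤ) + L.ln.ax * ∑ y ∈ P, (x y : ℤ)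
          + L.ln.aq * ∑ y ∈ P, (q y : ℤ) + L.ln.a0 * ∑ y ∈ P, (kf y : ℤ)
          + L.ln.a2 * ∑ y ∈ P, (kh y : ℤ) + L.ln.ac * ∑ y ∈ P, (kc y : ℤ)
          + L.ln.aca * ∑ y ∈ P, (kca y : ℤ) := by
      simp only [mul_sum, ← sum_add_distrib, ← sum_sub_distrib]
      exact sum_congr rfl fun y _ => rfl
    rw [a4]
    unfold LnM.stt stN
    rw [← a1]
    linarith
  unfold LeafD.fin
  unfold LeafD.cel at m1
  linarith

end RowML

end Pool.Agent.Lib.MP_f04ccf_co
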