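import Pool.Agent.Lib.MP_f04ccf_co.M.Row02
import Pool.Agent.Lib.MP_f04ccf_co.M.Enum

/-!
MP_f04ccf_co: rows with `r - 1` points in the slot and any class part in minimal `j`-closed systems
(the mixed form of M/Row02.lean), notes 15825 (2) and 16280 of helper40, 16026 of helper66.

* `PG.load_one`, `PG.load_two`: the load on one and on two sets of at most `r` points, slopes 1, 2.
* `RowM2.dg_le`: a point outside has at most `k + e + (j + 1)(j + 2) / 2` neighbours in the class
  part (`k = R - |C|`, `e` missing pairs of the slot); `RowM2.full_unique`, `RowM2.full_inter`: the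
  pairs which the whole class part serves.
* `PG.no_two_halfM`, `RowM2.star`: the pairs of one host which are half served by two such rows form
  a star.
* `FullP`, `HalfP`, `host_count`: the missing pairs of a host.
* `MQSys.hostM2`: the missing pairs of a host whose far rows are of this kind.
-/

set_option autoImplicit false

namespace Pool.Agent.Lib.MP_f04ccf_co

open Finset

attribute [local instance] Classical.propDecidable

section Abs

variable {V : Type*} {G : SimpleGraph V} {r : ℕ}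

/-- the load on a set, slope `1` -/
lemma PG.load_one (hP : PG G r) {X U : Finset V} {m : ℤ} (hc : (X.card : ℤ) + m = r + 1)
    (hd : Disjoint X U) :
    2 * ∑ u ∈ U, (dg G X u : ℤ) ≤ 2 * ((r : ℤ) - 1) * (m - 1) + 2 * U.card * (2 - m)
      + NE G X + NE G U := by
  have h1 := hP.ne1 (X ∪ U)
  rw [NE_union hd, card_union_of_disjoint hd] at h1
  push_cast at h1
  rw [sum_nd_eq hd] at h1
  have h3 : (X.card : ℤ) = r + 1 - m := by linarith
  rw [h3] at h1
  linarith

/-- the load on two sets, slope `2` -/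
lemma PG.load_two (hP : PG G r) {X Y U : Finset V} {m m' : ℤ} (hc : (X.card : ℤ) + m = r + 1)
    (hc' : (Y.card : ℤ) + m' = r + 1) (hXY : Disjoint X Y) (hd : Disjoint X U)
    (hd' : Disjoint Y U) :
    2 * ∑ v ∈ Y, (dg G X v : ℤ) + 2 * ∑ u ∈ U, (dg G X u : ℤ) + 2 * ∑ u ∈ U, (dg G Y u : ℤ)
      ≤ 2 * ((r : ℤ) - 1) * (m + m' - 1) + 2 * (2 - m) * (2 - m') + 2 * U.card * (4 - m - m')
        + NE G X + NE G Y + NE G U := by
  have h0 : Disjoint (X ∪ Y) U := disjoint_union_left.2 ⟨hd, hd'⟩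
  have h1 := hP.ne ((X ∪ Y) ∪ U) 2
  rw [NE_union h0, NE_union hXY, card_union_of_disjoint h0, card_union_of_disjoint hXY] at h1
  push_cast at h1
  have h2 : ∑ x ∈ U, (nd G (X ∪ Y) x : ℤ) = ∑ x ∈ U, (nd G X x : ℤ) + ∑ x ∈ U, (nd G Y x : ℤ) := by
    rw [← sum_add_distrib]
    exact sum_congr rfl fun x _ => by rw [nd_union hXY]; push_cast; rfl
  rw [h2, sum_nd_eq hd, sum_nd_eq hd', sum_nd_eq hXY] at h1
  have h3 : (X.card : ℤ) = r + 1 - m := by linarith
  have h4 : (Y.card : ℤ) = r + 1 - m' := by linarith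
  rw [h3, h4] at h1
  nlinarith

lemma sum_dg_mono {C X U : Finset V} (h : C ⊆ X) :
    ∑ u ∈ U, (dg G C u : ℤ) ≤ ∑ u ∈ U, (dg G X u : ℤ) :=
  sum_le_sum fun u _ => by exact_mod_cast dg_mono G h u

/-- **two disjoint pairs which are half served by two rows of `r - 1` points** -/
theorem PG.no_two_halfM (hP : PG G r) {X Y C D : Finset V} {k l : ℕ} (hCX : C ⊆ X) (hDY : D ⊆ Y)
    (hX : X.card + 1 = r) (hY : Y.card + 1 = r) (hc : C.card + 1 + k = r)
    (hc' : D.card + 1 + l = r) (hXY : Disjoint X Y)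
    (hr : 4 * (k + l) + NE G X + NE G Y + 20 ≤ 2 * r) {p q p' q' : V}
    (hpC : ∀ x ∈ ({p, q, p', q'} : Finset V), x ∉ X ∧ x ∉ Y)
    (hpq : p ≠ q) (hpp : p ≠ p') (hpq' : p ≠ q') (hqp' : q ≠ p') (hqq : q ≠ q') (hpq2 : p' ≠ q')
    (e1 : ∀ c ∈ rest2 G C p q, ∀ d ∈ rest2 G D p q, G.Adj c d)
    (e2 : ∀ c ∈ rest2 G C p' q', ∀ d ∈ rest2 G D p' q', G.Adj c d)
    (n1 : (rest2 G C p q).Nonempty) (n2 : (rest2 G D p q).Nonempty)
    (n3 : (rest2 G C p' q').Nonempty) (n4 : (rest2 G D p' q').Nonempty)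
    (hp : ∀ c ∈ C, ¬ G.Adj p c → ¬ G.Adj p' c → G.Adj p p')
    (hq : ∀ d ∈ D, ¬ G.Adj q d → ¬ G.Adj q' d → G.Adj q q') : False := by
  set U : Finset V := {p, q, p', q'} with hU
  have hUc : U.card = 4 := by
    rw [hU, card_insert_of_notMem, card_insert_of_notMem, card_pair hpq2]
    · simp [hqp', hqq]
    · simp [hpq, hpp, hpq']
  have hdC : Disjoint X U := disjoint_right.2 fun x hx => (hpC x hx).1
  have hdD : Disjoint Y U := disjoint_right.2 fun x hx => (hpC x hx).2
  have hs : ∀ f : V → ℤ, ∑ u ∈ U, f u = f p + (f q + (f p' + f q')) := by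
    intro f
    rw [hU, sum_insert (by simp [hpq, hpp, hpq']), sum_insert (by simp [hqp', hqq]),
      sum_pair hpq2]
  have hXz : (X.card : ℤ) + 2 = r + 1 := by
    have : (X.card : ℤ) + 1 = r := by exact_mod_cast hX
    linarith
  have hYz : (Y.card : ℤ) + 2 = r + 1 := by
    have : (Y.card : ℤ) + 1 = r := by exact_mod_cast hY
    linarith
  have l1 := hP.load_one hXz hdC
  have l2 := hP.load_one hYz hdD
  have l3 := hP.load_two hXz hYz hXY hdC hdD
  have s1 := sum_dg_mono (G := G) (U := U) hCX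
  have s2 := sum_dg_mono (G := G) (U := U) hDY
  have s3 : ∑ v ∈ D, (dg G C v : ℤ) ≤ ∑ v ∈ Y, (dg G X v : ℤ) := by
    refine (sum_dg_mono (G := G) (U := D) hCX).trans ?_
    exact sum_le_sum_of_subset_of_nonneg hDY fun _ _ _ => Nat.cast_nonneg _
  rw [hs (fun u => (dg G C u : ℤ))] at s1
  rw [hs (fun u => (dg G D u : ℤ))] at s2
  have c1 := card_le_rest2 (G := G) C p q
  have c2 := card_le_rest2 (G := G) C p' q'
  have c3 := card_le_rest2 (G := G) D p q
  have c4 := card_le_rest2 (G := G) D p' q'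
  have hrect := card_rect (G := G) (C := C) (D := D) (B1 := rest2 G C p q)
    (B1' := rest2 G C p' q') (B2 := rest2 G D p q) (B2' := rest2 G D p' q')
    (filter_subset _ _) (filter_subset _ _) (filter_subset _ _) (filter_subset _ _) e1 e2
  have hNE : NE G U ≤ 12 := by
    have := NE_le (G := G) U
    rw [hUc] at this
    exact this
  have hNE' : (NE G U : ℤ) ≤ 12 := by exact_mod_cast hNE
  have a1 := card_pos.2 n1
  have a2 := card_pos.2 n2
  have a3 := card_pos.2 n3
  have a4 := card_pos.2 n4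
  have hrect' : (((rest2 G C p q).card : ℤ) * (rest2 G D p q).card
      + (rest2 G C p' q').card * (rest2 G D p' q').card
      ≤ ∑ v ∈ D, (dg G C v : ℤ) + ((rest2 G C p q ∩ rest2 G C p' q').card : ℤ)
        * (rest2 G D p q ∩ rest2 G D p' q').card) := by exact_mod_cast hrect
  have c1' : (C.card : ℤ) ≤ dg G C p + dg G C q + (rest2 G C p q).card := by exact_mod_cast c1
  have c2' : (C.card : ℤ) ≤ dg G C p' + dg G C q' + (rest2 G C p' q').card := by
    exact_mod_cast c2
  have c3' : (D.card : ℤ) ≤ dg G D p + dg G D q + (rest2 G D p q).card := by exact_mod_cast c3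
  have c4' : (D.card : ℤ) ≤ dg G D p' + dg G D q' + (rest2 G D p' q').card := by
    exact_mod_cast c4
  have hcz : (C.card : ℤ) + 1 + k = r := by exact_mod_cast hc
  have hcz' : (D.card : ℤ) + 1 + l = r := by exact_mod_cast hc'
  have hrz : (4 : ℤ) * (k + l) + NE G X + NE G Y + 20 ≤ 2 * r := by exact_mod_cast hr
  have k0 : (0 : ℤ) ≤ k := Nat.cast_nonneg _
  have l0 : (0 : ℤ) ≤ l := Nat.cast_nonneg _
  have x0 : (0 : ℤ) ≤ NE G X := Nat.cast_nonneg _
  have y0 : (0 : ℤ) ≤ NE G Y := Nat.cast_nonneg _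
  by_cases ho : (rest2 G C p q ∩ rest2 G C p' q').card = 0
    ∨ (rest2 G D p q ∩ rest2 G D p' q').card = 0
  · have h0 : ((rest2 G C p q ∩ rest2 G C p' q').card : ℤ)
        * (rest2 G D p q ∩ rest2 G D p' q').card = 0 := by
      rcases ho with h | h <;> rw [h] <;> simp
    rw [h0] at hrect'
    have b1 : (1 : ℤ) ≤ (rest2 G C p q).card := by exact_mod_cast a1
    have b2 : (1 : ℤ) ≤ (rest2 G D p q).card := by exact_mod_cast a2
    have b3 : (1 : ℤ) ≤ (rest2 G C p' q').card := by exact_mod_cast a3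
    have b4 : (1 : ℤ) ≤ (rest2 G D p' q').card := by exact_mod_cast a4
    have p1 : 0 ≤ (((rest2 G C p q).card : ℤ) - 1) * ((rest2 G D p q).card - 1) :=
      mul_nonneg (by linarith) (by linarith)
    have p2 : 0 ≤ (((rest2 G C p' q').card : ℤ) - 1) * ((rest2 G D p' q').card - 1) :=
      mul_nonneg (by linarith) (by linarith)
    nlinarith
  · push Not at ho
    obtain ⟨o1, o2⟩ := ho
    obtain ⟨c, hcm⟩ := card_pos.1 (Nat.pos_of_ne_zero o1)
    obtain ⟨d, hdm⟩ := card_pos.1 (Nat.pos_of_ne_zero o2)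
    obtain ⟨m1, m2⟩ := mem_inter.1 hcm
    obtain ⟨m3, m4⟩ := mem_inter.1 hdm
    have app : G.Adj p p' := hp c (mem_rest2.1 m1).1 (mem_rest2.1 m1).2.1 (mem_rest2.1 m2).2.1
    have aqq : G.Adj q q' := hq d (mem_rest2.1 m3).1 (mem_rest2.1 m3).2.2 (mem_rest2.1 m4).2.2
    have hnd : ∀ u ∈ U, nd G U u ≤ 2 := by
      intro u hu
      have h1 := dg_add_nd (G := G) hu
      rw [hUc] at h1
      have h2 : 1 ≤ dg G U u := by
        have hu' := hu
        simp only [hU, mem_insert, mem_singleton] at hu'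
        rcases hu' with rfl | rfl | rfl | rfl
        · exact card_pos.2 ⟨p', mem_filter.2 ⟨by simp [hU], app⟩⟩
        · exact card_pos.2 ⟨q', mem_filter.2 ⟨by simp [hU], aqq⟩⟩
        · exact card_pos.2 ⟨p, mem_filter.2 ⟨by simp [hU], app.symm⟩⟩
        · exact card_pos.2 ⟨q, mem_filter.2 ⟨by simp [hU], aqq.symm⟩⟩
      omega
    have hNE8 : NE G U ≤ 8 := by
      unfold NE
      refine (sum_le_sum hnd).trans ?_
      rw [sum_const, hUc]
      norm_num
    have hNE8' : (NE G U : ℤ) ≤ 8 := by exact_mod_cast hNE8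
    have i1 := card_le_card (inter_subset_left (s₁ := rest2 G C p q) (s₂ := rest2 G C p' q'))
    have i2 := card_le_card (inter_subset_right (s₁ := rest2 G C p q) (s₂ := rest2 G C p' q'))
    have i3 := card_le_card (inter_subset_left (s₁ := rest2 G D p q) (s₂ := rest2 G D p' q'))
    have i4 := card_le_card (inter_subset_right (s₁ := rest2 G D p q) (s₂ := rest2 G D p' q'))
    have j1 : 5 ≤ (rest2 G C p q).card + (rest2 G C p' q').card := by
      have : (5 : ℤ) ≤ (rest2 G C p q).card + (rest2 G C p' q').card := by linarith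
      exact_mod_cast this
    have j2 : 5 ≤ (rest2 G D p q).card + (rest2 G D p' q').card := by
      have : (5 : ℤ) ≤ (rest2 G D p q).card + (rest2 G D p' q').card := by linarith
      exact_mod_cast this
    have key := rect_arith a1 a2 a3 a4 i1 i2 i3 i4 j1 j2
    have key' : (((rest2 G C p q).card : ℤ) + (rest2 G C p' q').card + (rest2 G D p q).card
        + (rest2 G D p' q').card + (rest2 G C p q ∩ rest2 G C p' q').card
          * (rest2 G D p q ∩ rest2 G D p' q').card
        ≤ (rest2 G C p q).card * (rest2 G D p q).card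
          + (rest2 G C p' q').card * (rest2 G D p' q').card + 4) := by exact_mod_cast key
    linarith

lemma three_pts {V : Type*} {e1 e2 c a b : V} (h12 : e1 ≠ e2) (h1c : e1 ≠ c) (h2c : e2 ≠ c)
    (h1 : (a = e1 ∨ a = e2) ∨ (b = e1 ∨ b = e2)) (h2 : (a = e2 ∨ a = c) ∨ (b = e2 ∨ b = c))
    (h3 : (a = e1 ∨ a = c) ∨ (b = e1 ∨ b = c)) : a = e1 ∨ a = e2 ∨ a = c := by
  by_contra hcon
  push Not at hcon
  obtain ⟨n1, n2, n3⟩ := hcon
  rcases h1 with (h1 | h1) | (h1 | h1)
  · exact n1 h1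
  · exact n2 h1
  · rcases h2 with (h2 | h2) | (h2 | h2)
    · exact n2 h2
    · exact n3 h2
    · exact h12 (h1.symm.trans h2)
    · exact h1c (h1.symm.trans h2)
  · rcases h3 with (h3 | h3) | (h3 | h3)
    · exact n1 h3
    · exact n3 h3
    · exact h12 (h3.symm.trans h1)
    · exact h2c (h1.symm.trans h3)

/-- an intersecting family of pairs of a set, ordered -/
lemma card_inter_le {V : Type*} {M : Finset (V × V)} {P : Finset V} (hM : M ⊆ P.offDiag)
    (h : ∀ e ∈ M, ∀ f ∈ M, (f.1 = e.1 ∨ f.1 = e.2) ∨ (f.2 = e.1 ∨ f.2 = e.2))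
    (hP : 4 ≤ P.card) : M.card ≤ 2 * (P.card - 1) := by
  have hstar : ∀ a : V, a ∈ P → (∀ f ∈ M, f.1 = a ∨ f.2 = a) → M.card ≤ 2 * (P.card - 1) := by
    intro a ha hf
    have h1 : M ⊆ (P.erase a).image (fun v => (a, v)) ∪ (P.erase a).image (fun v => (v, a)) := by
      intro f hf'
      obtain ⟨h2, h3, h4⟩ := mem_offDiag.1 (hM hf')
      rcases hf f hf' with h5 | h5
      · refine mem_union_left _ (mem_image.2 ⟨f.2, mem_erase.2 ⟨fun h6 => h4 ?_, h3⟩, ?_⟩)
        · rw [h5, h6]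
        · exact Prod.ext h5.symm rfl
      · refine mem_union_right _ (mem_image.2 ⟨f.1, mem_erase.2 ⟨fun h6 => h4 ?_, h2⟩, ?_⟩)
        · rw [h5, h6]
        · exact Prod.ext rfl h5.symm
    have h2 := (card_le_card h1).trans (card_union_le _ _)
    have h3 : ((P.erase a).image (fun v => (a, v))).card ≤ (P.erase a).card := card_image_le
    have h4 : ((P.erase a).image (fun v => (v, a))).card ≤ (P.erase a).card := card_image_le
    have h5 := card_erase_of_mem ha
    omega
  rcases M.eq_empty_or_nonempty with rfl | ⟨e, he⟩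
  · simp
  obtain ⟨h2, h3, h4⟩ := mem_offDiag.1 (hM he)
  by_cases hA : ∀ f ∈ M, f.1 = e.1 ∨ f.2 = e.1
  · exact hstar _ h2 hA
  by_cases hB : ∀ f ∈ M, f.1 = e.2 ∨ f.2 = e.2
  · exact hstar _ h3 hB
  push Not at hA hB
  obtain ⟨f, hf, f1, f2⟩ := hA
  obtain ⟨g, hg, g1, g2⟩ := hB
  have key : ∀ c : V, e.1 ≠ c → e.2 ≠ c → (f.1 = e.2 ∧ f.2 = c ∨ f.1 = c ∧ f.2 = e.2) →
      (g.1 = e.1 ∧ g.2 = c ∨ g.1 = c ∧ g.2 = e.1) → M.card ≤ 2 * (P.card - 1) := by
    intro c c1 c2 hfc hgc
    have h9 : M ⊆ ({e.1, e.2, c} : Finset V).offDiag := by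
      intro u hu
      obtain ⟨-, -, hu4⟩ := mem_offDiag.1 (hM hu)
      have h5 := h e he u hu
      have h6 := h f hf u hu
      have h7 := h g hg u hu
      have h6' : (u.1 = e.2 ∨ u.1 = c) ∨ (u.2 = e.2 ∨ u.2 = c) := by
        rcases hfc with ⟨a1, a2⟩ | ⟨a1, a2⟩
        · rw [a1, a2] at h6
          exact h6
        · rw [a1, a2] at h6
          rcases h6 with (h | h) | (h | h)
          · exact Or.inl (Or.inr h)
          · exact Or.inl (Or.inl h)
          · exact Or.inr (Or.inr h)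
          · exact Or.inr (Or.inl h)
      have h7' : (u.1 = e.1 ∨ u.1 = c) ∨ (u.2 = e.1 ∨ u.2 = c) := by
        rcases hgc with ⟨a1, a2⟩ | ⟨a1, a2⟩
        · rw [a1, a2] at h7
          exact h7
        · rw [a1, a2] at h7
          rcases h7 with (h | h) | (h | h)
          · exact Or.inl (Or.inr h)
          · exact Or.inl (Or.inl h)
          · exact Or.inr (Or.inr h)
          · exact Or.inr (Or.inl h)
      have u1 := three_pts h4 c1 c2 h5 h6' h7'
      have u2 := three_pts h4 c1 c2 h5.symm h6'.symm h7'.symm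
      exact mem_offDiag.2 ⟨by simpa using u1, by simpa using u2, hu4⟩
    have h10 := card_le_card h9
    have h12 : ({e.1, e.2, c} : Finset V).card ≤ 3 := card_le_three
    have h11 : (({e.1, e.2, c} : Finset V).offDiag).card ≤ 6 := by
      rw [offDiag_card]
      generalize ({e.1, e.2, c} : Finset V).card = q at h12
      interval_cases q <;> norm_num
    omega
  obtain ⟨-, -, hf4⟩ := mem_offDiag.1 (hM hf)
  obtain ⟨-, -, hg4⟩ := mem_offDiag.1 (hM hg)
  have hfg := h f hf g hg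
  rcases h e he f hf with (hfe | hfe) | (hfe | hfe)
  · exact absurd hfe f1
  · rcases h e he g hg with (hge | hge) | (hge | hge)
    · refine key f.2 (Ne.symm f2) (by rw [← hfe]; exact hf4) (Or.inl ⟨hfe, rfl⟩)
        (Or.inl ⟨hge, ?_⟩)
      rcases hfg with (h5 | h5) | (h5 | h5)
      · exact absurd (h5.trans hfe) g1
      · exact absurd (h5.symm.trans hge) f2
      · exact absurd (h5.trans hfe) g2
      · exact h5
    · exact absurd hge g1
    · refine key f.2 (Ne.symm f2) (by rw [← hfe]; exact hf4) (Or.inl ⟨hfe, rfl⟩)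
        (Or.inr ⟨?_, hge⟩)
      rcases hfg with (h5 | h5) | (h5 | h5)
      · exact absurd (h5.trans hfe) g1
      · exact h5
      · exact absurd (h5.trans hfe) g2
      · exact absurd (h5.symm.trans hge) f2
    · exact absurd hge g2
  · exact absurd hfe f2
  · rcases h e he g hg with (hge | hge) | (hge | hge)
    · refine key f.1 (Ne.symm f1) (by rw [← hfe]; exact hf4.symm) (Or.inr ⟨rfl, hfe⟩)
        (Or.inl ⟨hge, ?_⟩)
      rcases hfg with (h5 | h5) | (h5 | h5)
      · exact absurd (h5.symm.trans hge) f1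
      · exact absurd (h5.trans hfe) g1
      · exact h5
      · exact absurd (h5.trans hfe) g2
    · exact absurd hge g1
    · refine key f.1 (Ne.symm f1) (by rw [← hfe]; exact hf4.symm) (Or.inr ⟨rfl, hfe⟩)
        (Or.inr ⟨?_, hge⟩)
      rcases hfg with (h5 | h5) | (h5 | h5)
      · exact h5
      · exact absurd (h5.trans hfe) g1
      · exact absurd (h5.symm.trans hge) f1
      · exact absurd (h5.trans hfe) g2
    · exact absurd hge g2

end Abs

section RowM2

variable {V : Type*} {G : SimpleGraph V} {Z T : Finset V} {hm : V → V} {r m t j k l : ℕ}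
  {A S : Finset V}

variable (G Z T hm r) in
/-- the row `z` has `r - 1` points in its slot, `r - 1 - k` of them in the class part -/
def RowM2 (S : Finset V) (k : ℕ) (z : V) : Prop :=
  (S.filter fun v => hm v = z).card + 1 = r ∧ (S.filter fun v => v ∈ Cl G Z T z).card + 1 + k = r

lemma cl_sub_slot (hs : HSys G Z T A S) (hh : ∀ v ∈ S, hm v ∈ A ∧ hm v ∈ rws G T v) {z : V}
    (hz : z ∈ A) : (S.filter fun v => v ∈ Cl G Z T z) ⊆ S.filter fun v => hm v = z := fun _ hv =>
  mem_filter.2 ⟨(mem_filter.1 hv).1, hs.cl_slot hh hz (mem_filter.1 hv).1 (mem_filter.1 hv).2⟩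

/-- the load on the class part of a row with any number of points, slope `1` -/
lemma row_load (hP : PG G r) (hs : HSys G Z T A S) (hh : ∀ v ∈ S, hm v ∈ A ∧ hm v ∈ rws G T v)
    {z : V} (hz : z ∈ A) {μ : ℤ} (hμ : ((S.filter fun v => hm v = z).card : ℤ) + μ = r + 1)
    {U : Finset V} (hU : ∀ v ∈ U, v ∉ S.filter fun v => hm v = z) :
    2 * ∑ u ∈ U, (dg G (S.filter fun v => v ∈ Cl G Z T z) u : ℤ)
      ≤ 2 * ((r : ℤ) - 1) * (μ - 1) + 2 * U.card * (2 - μ)
        + NE G (S.filter fun v => hm v = z) + NE G U := by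
  have h1 := hP.load_one hμ (disjoint_right.2 hU)
  have h2 := sum_dg_mono (G := G) (U := U) (cl_sub_slot hs hh hz)
  linarith

lemma RowM2.load (hP : PG G r) (hs : HSys G Z T A S)
    (hh : ∀ v ∈ S, hm v ∈ A ∧ hm v ∈ rws G T v) {z : V} (hz : z ∈ A)
    (h0 : RowM2 G Z T hm r S k z) {U : Finset V} (hU : ∀ v ∈ U, v ∉ S.filter fun v => hm v = z) :
    2 * ∑ u ∈ U, (dg G (S.filter fun v => v ∈ Cl G Z T z) u : ℤ)
      ≤ 2 * ((r : ℤ) - 1) + NE G (S.filter fun v => hm v = z) + NE G U := by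
  have h1 : ((S.filter fun v => hm v = z).card : ℤ) + 2 = r + 1 := by
    have : ((S.filter fun v => hm v = z).card : ℤ) + 1 = r := by exact_mod_cast h0.1
    linarith
  have h2 := row_load hP hs hh hz h1 hU
  linarith

/-- a pair served by all points of `C` -/
lemma Full2.card_le {C : Finset V} {a b : V} (h : Full2 G C a b) :
    C.card ≤ dg G C a + dg G C b := by
  have h3 := card_le_rest2 (G := G) C a b
  have h4 : rest2 G C a b = ∅ := by
    rw [rest2, filter_eq_empty_iff]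
    intro c hc h5
    rcases h c hc with h6 | h6
    · exact h5.1 h6
    · exact h5.2 h6
  rw [h4, card_empty] at h3
  omega

/-- **a point outside has few neighbours in the class part** -/
theorem RowM2.dg_le (hF : PFrame G r m t Z T) (hP : PG G r) (hj : 2 ≤ j)
    (h : MQSys r (JSys G Z T j) A S) (hh : ∀ v ∈ S, hm v ∈ A ∧ hm v ∈ rws G T v) {z : V}
    (hz : z ∈ A) (h0 : RowM2 G Z T hm r S k z) {v : V} (hv : v ∉ S.filter fun v => hm v = z) :
    2 * dg G (S.filter fun v => v ∈ Cl G Z T z) v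
      ≤ 2 * k + NE G (S.filter fun v => hm v = z) + (j + 1) * (j + 2) := by
  have hs := h.q.hsys hF hj
  obtain ⟨e, he1, he2, -, he3⟩ := (h.blkn hF hh hz).one (W := {v}) (by
    rw [card_singleton]
    have := h0.1
    omega)
  have hve : v ∉ e := fun h' => (mem_sdiff.1 (he1 h')).2 (mem_singleton_self v)
  have h1 := h0.load hP hs hh hz (U := insert v e) (by
    intro w hw
    rcases mem_insert.1 hw with rfl | hw
    · exact hv
    · intro h1
      exact (mem_filter.1 (mem_sdiff.1 (he1 hw)).1).2.1 (mem_filter.1 h1).2)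
  rw [sum_insert hve] at h1
  have h2 : (S.filter fun v => v ∈ Cl G Z T z).card
      ≤ ∑ u ∈ e, dg G (S.filter fun v => v ∈ Cl G Z T z) u := by
    rw [dg_comm, card_eq_sum_ones]
    exact sum_le_sum he3
  have h3 := NE_le (G := G) (insert v e)
  rw [card_insert_of_notMem hve] at h3
  have h4 : (e.card + 1) * (e.card + 1 - 1) ≤ (j + 2) * (j + 1) :=
    Nat.mul_le_mul (by omega) (by omega)
  have h5 : (NE G (insert v e) : ℤ) ≤ (j + 2) * (j + 1) := by exact_mod_cast h3.trans h4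
  have h6 : ((S.filter fun v => v ∈ Cl G Z T z).card : ℤ)
      ≤ ∑ u ∈ e, (dg G (S.filter fun v => v ∈ Cl G Z T z) u : ℤ) := by exact_mod_cast h2
  have h7 : ((S.filter fun v => v ∈ Cl G Z T z).card : ℤ) + 1 + k = r := by exact_mod_cast h0.2
  have h8 : 2 * (dg G (S.filter fun v => v ∈ Cl G Z T z) v : ℤ)
      ≤ 2 * k + NE G (S.filter fun v => hm v = z) + (j + 1) * (j + 2) := by
    linarith
  exact_mod_cast h8

/-- a fully served pair makes all other degrees small -/
theorem RowM2.other_le (hP : PG G r) (hs : HSys G Z T A S)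
    (hh : ∀ v ∈ S, hm v ∈ A ∧ hm v ∈ rws G T v) {z : V} (hz : z ∈ A)
    (h0 : RowM2 G Z T hm r S k z) {a b v : V} (hab : a ≠ b)
    (ha : a ∉ S.filter fun v => hm v = z) (hb : b ∉ S.filter fun v => hm v = z)
    (hv : v ∉ S.filter fun v => hm v = z)
    (hf : Full2 G (S.filter fun v => v ∈ Cl G Z T z) a b) (hva : v ≠ a) (hvb : v ≠ b) :
    2 * dg G (S.filter fun v => v ∈ Cl G Z T z) v
      ≤ 2 * k + NE G (S.filter fun v => hm v = z) + 6 := by
  have h1 := h0.load hP hs hh hz (U := {v, a, b}) (by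
    intro w hw
    simp only [mem_insert, mem_singleton] at hw
    rcases hw with rfl | rfl | rfl <;> assumption)
  rw [sum_insert (by simp [hva, hvb]), sum_pair hab] at h1
  have h2 := NE_le (G := G) ({v, a, b} : Finset V)
  rw [card_insert_of_notMem (by simp [hva, hvb]), card_pair hab] at h2
  have h3 := hf.card_le
  have h5 := h0.2
  have h6 : (NE G ({v, a, b} : Finset V) : ℤ) ≤ 6 := by exact_mod_cast h2
  omega

/-- **at most one pair is fully served** -/
theorem RowM2.full_unique (hF : PFrame G r m t Z T) (hP : PG G r) (hj : 2 ≤ j)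
    (h : MQSys r (JSys G Z T j) A S) (hh : ∀ v ∈ S, hm v ∈ A ∧ hm v ∈ rws G T v) {z : V}
    (hz : z ∈ A) (h0 : RowM2 G Z T hm r S k z)
    (hr : 6 * k + 2 * NE G (S.filter fun v => hm v = z) + (j + 1) * (j + 2) + 9 ≤ 2 * r)
    {a b a' b' : V} (hab : a ≠ b) (ha : a ∉ S.filter fun v => hm v = z)
    (hb : b ∉ S.filter fun v => hm v = z)
    (hf : Full2 G (S.filter fun v => v ∈ Cl G Z T z) a b)
    (hab' : a' ≠ b') (ha' : a' ∉ S.filter fun v => hm v = z)
    (hb' : b' ∉ S.filter fun v => hm v = z)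
    (hf' : Full2 G (S.filter fun v => v ∈ Cl G Z T z) a' b') :
    (a = a' ∨ a = b') ∧ (b = a' ∨ b = b') := by
  have hs := h.q.hsys hF hj
  have key : ∀ x y : V, x ≠ y → x ∉ (S.filter fun v => hm v = z) →
      y ∉ (S.filter fun v => hm v = z) →
      Full2 G (S.filter fun v => v ∈ Cl G Z T z) x y → x = a' ∨ x = b' := by
    intro x y hxy hx hy hfx
    by_contra hcon
    push Not at hcon
    have h1 := RowM2.other_le hP hs hh hz h0 hab' ha' hb' hx hf' hcon.1 hcon.2
    have h2 := RowM2.dg_le hF hP hj h hh hz h0 hy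
    have h3 := hfx.card_le
    have h5 := h0.2
    omega
  refine ⟨key a b hab ha hb hf, key b a hab.symm hb ha fun c hc => (hf c hc).symm⟩

/-- **two fully served pairs have a common point** -/
theorem RowM2.full_inter (hP : PG G r) (hs : HSys G Z T A S)
    (hh : ∀ v ∈ S, hm v ∈ A ∧ hm v ∈ rws G T v) {z : V} (hz : z ∈ A)
    (h0 : RowM2 G Z T hm r S k z)
    (hr : 4 * k + NE G (S.filter fun v => hm v = z) + 16 ≤ 2 * r)
    {a b a' b' : V} (hab : a ≠ b) (ha : a ∉ S.filter fun v => hm v = z)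
    (hb : b ∉ S.filter fun v => hm v = z)
    (hf : Full2 G (S.filter fun v => v ∈ Cl G Z T z) a b)
    (hab' : a' ≠ b') (ha' : a' ∉ S.filter fun v => hm v = z)
    (hb' : b' ∉ S.filter fun v => hm v = z)
    (hf' : Full2 G (S.filter fun v => v ∈ Cl G Z T z) a' b') :
    (a' = a ∨ a' = b) ∨ (b' = a ∨ b' = b) := by
  by_contra hcon
  push Not at hcon
  obtain ⟨⟨n1, n2⟩, n3, n4⟩ := hcon
  have h1 := h0.load hP hs hh hz (U := {a', b', a, b}) (by
    intro w hw
    simp only [mem_insert, mem_singleton] at hw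
    rcases hw with rfl | rfl | rfl | rfl <;> assumption)
  rw [sum_insert (by simp [hab', n1, n2]), sum_insert (by simp [n3, n4]), sum_pair hab] at h1
  have h2 := NE_le (G := G) ({a', b', a, b} : Finset V)
  rw [card_insert_of_notMem (by simp [hab', n1, n2]), card_insert_of_notMem (by simp [n3, n4]),
    card_pair hab] at h2
  have h3 := hf.card_le
  have h4 := hf'.card_le
  have h5 := h0.2
  have h6 : (NE G ({a', b', a, b} : Finset V) : ℤ) ≤ 12 := by exact_mod_cast h2
  omega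

variable (G Z T hm) in
/-- the missing pairs of the slot `x` served by the whole class part of `z`, ordered -/
noncomputable def FullP (S : Finset V) (x z : V) : Finset (V × V) :=
  (MPs G (S.filter fun v => hm v = x)).filter fun e =>
    Full2 G (S.filter fun v => v ∈ Cl G Z T z) e.1 e.2

variable (G Z T hm) in
/-- the missing pairs of the slot `x` with the tails `y` and `z`, fully served at neither -/
noncomputable def HalfP (S : Finset V) (x y z : V) : Finset (V × V) :=
  (MPs G (S.filter fun v => hm v = x)).filter fun e => ends G T e.1 = {x, y} ∧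
    ends G T e.2 = {x, z} ∧ ¬ Full2 G (S.filter fun v => v ∈ Cl G Z T y) e.1 e.2 ∧
    ¬ Full2 G (S.filter fun v => v ∈ Cl G Z T z) e.1 e.2

lemma mem_FullP {x z : V} {e : V × V} : e ∈ FullP G Z T hm S x z ↔
    (((e.1 ∈ S ∧ hm e.1 = x) ∧ (e.2 ∈ S ∧ hm e.2 = x)) ∧ e.2 ≠ e.1 ∧ ¬ G.Adj e.1 e.2) ∧
      Full2 G (S.filter fun v => v ∈ Cl G Z T z) e.1 e.2 := by
  unfold FullP MPs
  simp only [mem_filter, mem_product]

/-- **the missing pairs of a host** -/
theorem host_count (hs : HSys G Z T A S) (hh : ∀ v ∈ S, hm v ∈ A ∧ hm v ∈ rws G T v) {x : V}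
    (hx : x ∈ A) :
    NE G (S.filter fun v => hm v = x) ≤ ∑ z ∈ A.erase x, (FullP G Z T hm S x z).card
      + ∑ w ∈ (A.erase x).offDiag, (HalfP G Z T hm S x w.1 w.2).card := by
  have h1 : MPs G (S.filter fun v => hm v = x) ⊆ ((A.erase x).biUnion fun y =>
        FullP G Z T hm S x y)
      ∪ ((A.erase x).offDiag.biUnion fun w => HalfP G Z T hm S x w.1 w.2) := by
    intro e he
    by_cases hf : ∃ y ∈ A.erase x, Full2 G (S.filter fun v => v ∈ Cl G Z T y) e.1 e.2
    · obtain ⟨y, hy, hf⟩ := hf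
      exact mem_union_left _ (mem_biUnion.2 ⟨y, hy, mem_filter.2 ⟨he, hf⟩⟩)
    · push Not at hf
      obtain ⟨a6, a7, a8⟩ := mem_filter.1 he
      obtain ⟨a9, a10⟩ := mem_product.1 a6
      obtain ⟨c1, c2⟩ := mem_filter.1 a9
      obtain ⟨c3, c4⟩ := mem_filter.1 a10
      have hr1 := (hh _ c1).2
      have hr2 := (hh _ c3).2
      rw [c2] at hr1
      rw [c4] at hr2
      rcases hs.closed x hx e.1 c1 e.2 c3 hr1 hr2 (co_adj.2 ⟨a7.symm, a8⟩) with
        ⟨y, hy, h5⟩ | ⟨y, hy, z, hz, hyz, h5, h6⟩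
      · exact absurd (fun c hc => h5 c (mem_filter.1 hc).1 (mem_filter.1 hc).2) (hf y hy)
      · exact mem_union_right _ (mem_biUnion.2 ⟨(y, z), mem_offDiag.2 ⟨hy, hz, hyz⟩,
          mem_filter.2 ⟨he, h5, h6, hf y hy, hf z hz⟩⟩)
  have h2 := (card_le_card h1).trans (card_union_le _ _)
  have h3 : ((A.erase x).biUnion fun y => FullP G Z T hm S x y).card
      ≤ ∑ z ∈ A.erase x, (FullP G Z T hm S x z).card := card_biUnion_le
  have h4 : ((A.erase x).offDiag.biUnion fun w => HalfP G Z T hm S x w.1 w.2).card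
      ≤ ∑ w ∈ (A.erase x).offDiag, (HalfP G Z T hm S x w.1 w.2).card := card_biUnion_le
  rw [card_MPs] at h2
  omega

lemma FullP_out {x z : V} (hxz : z ≠ x) {e : V × V}
    (he : e ∈ FullP G Z T hm S x z) : e.1 ∉ (S.filter fun v => hm v = z) ∧
      e.2 ∉ (S.filter fun v => hm v = z) := by
  obtain ⟨⟨⟨⟨-, h1⟩, -, h2⟩, -⟩, -⟩ := mem_FullP.1 he
  exact ⟨fun h => hxz ((mem_filter.1 h).2.symm.trans h1), fun h =>
    hxz ((mem_filter.1 h).2.symm.trans h2)⟩

/-- at most one pair of a host is fully served by a row of this kind with few missing pairs -/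
theorem RowM2.fullP_le_two (hF : PFrame G r m t Z T) (hP : PG G r) (hj : 2 ≤ j)
    (h : MQSys r (JSys G Z T j) A S) (hh : ∀ v ∈ S, hm v ∈ A ∧ hm v ∈ rws G T v) {x z : V}
    (hz : z ∈ A) (hxz : z ≠ x) (h0 : RowM2 G Z T hm r S k z)
    (hr : 6 * k + 2 * NE G (S.filter fun v => hm v = z) + (j + 1) * (j + 2) + 9 ≤ 2 * r) :
    (FullP G Z T hm S x z).card ≤ 2 := by
  rcases (FullP G Z T hm S x z).eq_empty_or_nonempty with h4 | ⟨f, hf⟩
  · rw [h4, card_empty]
    norm_num
  · have f1 := FullP_out hxz hf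
    have f2 := mem_FullP.1 hf
    refine card_le_two_of (a := f.1) (b := f.2) fun e he => ?_
    have e1 := FullP_out hxz he
    have e2 := mem_FullP.1 he
    obtain ⟨u1, u2⟩ := RowM2.full_unique hF hP hj h hh hz h0 hr e2.1.2.1.symm e1.1 e1.2 e2.2
      f2.1.2.1.symm f1.1 f1.2 f2.2
    exact ⟨e2.1.2.1.symm, u1, u2⟩

/-- the pairs of a host fully served by a row of this kind form a star or a triangle -/
theorem RowM2.fullP_le (hP : PG G r) (hs : HSys G Z T A S)
    (hh : ∀ v ∈ S, hm v ∈ A ∧ hm v ∈ rws G T v) {x z : V} (hz : z ∈ A) (hxz : z ≠ x)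
    (h0 : RowM2 G Z T hm r S k z)
    (hr : 4 * k + NE G (S.filter fun v => hm v = z) + 16 ≤ 2 * r)
    (h4 : 4 ≤ (S.filter fun v => hm v = x).card) :
    (FullP G Z T hm S x z).card ≤ 2 * ((S.filter fun v => hm v = x).card - 1) := by
  refine card_inter_le (fun e he => ?_) (fun e he f hf => ?_) h4
  · obtain ⟨⟨⟨⟨a1, a2⟩, a3, a4⟩, a5, -⟩, -⟩ := mem_FullP.1 he
    exact mem_offDiag.2 ⟨mem_filter.2 ⟨a1, a2⟩, mem_filter.2 ⟨a3, a4⟩, a5.symm⟩
  · have f1 := FullP_out hxz hf
    have f2 := mem_FullP.1 hf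
    have e1 := FullP_out hxz he
    have e2 := mem_FullP.1 he
    exact RowM2.full_inter hP hs hh hz h0 hr e2.1.2.1.symm e1.1 e1.2 e2.2
      f2.1.2.1.symm f1.1 f1.2 f2.2

/-- **the pairs of a host half served by two rows of this kind form a star** -/
theorem RowM2.halfP_le (hF : PFrame G r m t Z T) (hP : PG G r)
    (hs : HSys G Z T A S) (hh : ∀ v ∈ S, hm v ∈ A ∧ hm v ∈ rws G T v) {x y z : V}
    (hx : x ∈ A) (hy : y ∈ A) (hz : z ∈ A) (hxy : y ≠ x) (hxz : z ≠ x) (hyz : y ≠ z)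
    (h0 : RowM2 G Z T hm r S k y) (h1 : RowM2 G Z T hm r S l z)
    (hr : 4 * (k + l) + NE G (S.filter fun v => hm v = y) + NE G (S.filter fun v => hm v = z) + 20
      ≤ 2 * r) :
    (HalfP G Z T hm S x y z).card
      ≤ max (S.filter fun v => hm v = x ∧ ends G T v = {x, y}).card
        (S.filter fun v => hm v = x ∧ ends G T v = {x, z}).card := by
  have hxT := hs.sub hx
  have hyT := hs.sub hy
  have hzT := hs.sub hz
  have hBB : ∀ v ∈ S, ∀ w, w ≠ x → ends G T v = {x, w} → v ∈ BB G Z T := by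
    intro v hv w hw he
    have hvT : v ∉ T := by
      intro hT
      rw [hF.ends_T hT] at he
      have h3 : x ∈ (∅ : Finset V) := by rw [he]; simp
      simp at h3
    refine mem_BB.2 ⟨⟨hs.subZ hv, hvT⟩, ?_⟩
    rw [← card_ends, he, card_pair hw.symm]
  have hout : ∀ v ∈ S, hm v = x → ∀ w, w ≠ x → v ∉ S.filter fun u => hm u = w := by
    intro v _ hvx w hwx h2
    exact hwx ((mem_filter.1 h2).2.symm.trans hvx)
  refine card_star (fun e he => ?_) (fun e he f hf => ?_)
  · obtain ⟨h2, h3, h4, -, -⟩ := mem_filter.1 he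
    obtain ⟨h5, h6⟩ := mem_product.1 (mem_filter.1 h2).1
    obtain ⟨h7, h8⟩ := mem_filter.1 h5
    obtain ⟨h9, h10⟩ := mem_filter.1 h6
    exact mem_product.2 ⟨mem_filter.2 ⟨h7, h8, h3⟩, mem_filter.2 ⟨h9, h10, h4⟩⟩
  · obtain ⟨a1, a2, a3, a4, a5⟩ := mem_filter.1 he
    obtain ⟨b1, b2, b3, b4, b5⟩ := mem_filter.1 hf
    obtain ⟨a6, a7, a8⟩ := mem_filter.1 a1
    obtain ⟨b6, b7, b8⟩ := mem_filter.1 b1
    obtain ⟨a9, a10⟩ := mem_product.1 a6
    obtain ⟨b9, b10⟩ := mem_product.1 b6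
    obtain ⟨c1, c2⟩ := mem_filter.1 a9
    obtain ⟨c3, c4⟩ := mem_filter.1 a10
    obtain ⟨d1, d2⟩ := mem_filter.1 b9
    obtain ⟨d3, d4⟩ := mem_filter.1 b10
    by_contra hcon
    push Not at hcon
    have B1 := hBB _ c1 y hxy a2
    have B2 := hBB _ c3 z hxz a3
    have B3 := hBB _ d1 y hxy b2
    have B4 := hBB _ d3 z hxz b3
    have hne : ∀ u v, ends G T u = {x, y} → ends G T v = {x, z} → u ≠ v := by
      intro u v hu hv huv
      rw [huv, hv] at hu
      have h3 : y ∈ ({x, z} : Finset V) := by rw [hu]; simp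
      rcases mem_insert.1 h3 with h4 | h4
      · exact hxy h4
      · exact hyz (mem_singleton.1 h4)
    have hrest : ∀ (p q w : V), ¬ Full2 G (S.filter fun v => v ∈ Cl G Z T w) p q →
        (rest2 G (S.filter fun v => v ∈ Cl G Z T w) p q).Nonempty := by
      intro p q w hn
      unfold Full2 at hn
      push Not at hn
      obtain ⟨c, hc, h3, h4⟩ := hn
      exact ⟨c, mem_rest2.2 ⟨hc, h3, h4⟩⟩
    refine hP.no_two_halfM (cl_sub_slot hs hh hy) (cl_sub_slot hs hh hz) h0.1 h1.1 h0.2 h1.2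
      (by
        rw [disjoint_left]
        intro v hv hv'
        exact hyz ((mem_filter.1 hv).2.symm.trans (mem_filter.1 hv').2)) hr
      (p := e.1) (q := e.2) (p' := f.1) (q' := f.2) ?_ a7.symm hcon.1 (hne _ _ a2 b3)
      (hne _ _ b2 a3).symm hcon.2 b7.symm ?_ ?_ (hrest _ _ _ a4) (hrest _ _ _ a5)
      (hrest _ _ _ b4) (hrest _ _ _ b5) ?_ ?_
    · intro v hv
      simp only [mem_insert, mem_singleton] at hv
      rcases hv with rfl | rfl | rfl | rfl
      · exact ⟨hout _ c1 c2 y hxy, hout _ c1 c2 z hxz⟩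
      · exact ⟨hout _ c3 c4 y hxy, hout _ c3 c4 z hxz⟩
      · exact ⟨hout _ d1 d2 y hxy, hout _ d1 d2 z hxz⟩
      · exact ⟨hout _ d3 d4 y hxy, hout _ d3 d4 z hxz⟩
    · intro c hc d hd
      obtain ⟨u1, u2, u3⟩ := mem_rest2.1 hc
      obtain ⟨w1, w2, w3⟩ := mem_rest2.1 hd
      exact hF.half hyT hzT hyz hxT B1 a2 B2 a3 a7.symm a8 (mem_filter.1 u1).2
        (mem_filter.1 w1).2 u2 u3 w2 w3
    · intro c hc d hd
      obtain ⟨u1, u2, u3⟩ := mem_rest2.1 hc
      obtain ⟨w1, w2, w3⟩ := mem_rest2.1 hd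
      exact hF.half hyT hzT hyz hxT B3 b2 B4 b3 b7.symm b8 (mem_filter.1 u1).2
        (mem_filter.1 w1).2 u2 u3 w2 w3
    · intro c hc h3 h4
      by_contra h5
      rcases hF.srv_PP hyT B1 a2 B3 b2 hcon.1 h5 (mem_filter.1 hc).2 with h6 | h6
      · exact h3 h6
      · exact h4 h6
    · intro c hc h3 h4
      by_contra h5
      rcases hF.srv_PP hzT B2 a3 B4 b3 hcon.2 h5 (mem_filter.1 hc).2 with h6 | h6
      · exact h3 h6
      · exact h4 h6

/-- **the missing pairs of a host all of whose far rows are of this kind** -/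
theorem MQSys.hostM2 (hF : PFrame G r m t Z T) (hP : PG G r) (hs : HSys G Z T A S)
    (hh : ∀ v ∈ S, hm v ∈ A ∧ hm v ∈ rws G T v) {x : V} (hx : x ∈ A) (κ φ : V → ℕ)
    (h0 : ∀ z ∈ A.erase x, RowM2 G Z T hm r S (κ z) z)
    (h2 : ∀ y ∈ A.erase x, ∀ z ∈ A.erase x, y ≠ z →
      4 * (κ y + κ z) + NE G (S.filter fun v => hm v = y) + NE G (S.filter fun v => hm v = z) + 20
        ≤ 2 * r)
    (hφ : ∀ z ∈ A.erase x, (FullP G Z T hm S x z).card ≤ φ z) :
    NE G (S.filter fun v => hm v = x) ≤ ∑ z ∈ A.erase x, φ z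
      + 2 * ((A.card - 2) * (S.filter fun v => v ∈ BB G Z T ∧ hm v = x).card) := by
  have h1 := host_count hs hh hx
  have h3 := sum_le_sum hφ
  have h4 : ∑ w ∈ (A.erase x).offDiag, (HalfP G Z T hm S x w.1 w.2).card
      ≤ ∑ w ∈ (A.erase x).offDiag,
        ((S.filter fun v => hm v = x ∧ ends G T v = {x, w.1}).card
          + (S.filter fun v => hm v = x ∧ ends G T v = {x, w.2}).card) := by
    refine sum_le_sum fun w hw => ?_
    obtain ⟨h5, h6, h7⟩ := mem_offDiag.1 hw
    refine (RowM2.halfP_le hF hP hs hh hx (mem_of_mem_erase h5) (mem_of_mem_erase h6)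
      (ne_of_mem_erase h5) (ne_of_mem_erase h6) h7 (h0 _ h5) (h0 _ h6) (h2 _ h5 _ h6 h7)).trans ?_
    exact max_le (Nat.le_add_right _ _) (Nat.le_add_left _ _)
  rw [sum_offDiag_add (A.erase x) fun y => (S.filter fun v => hm v = x ∧ ends G T v = {x, y}).card,
    card_erase_of_mem hx] at h4
  have h5 := sum_tails_le (hm := hm) hF hs (x := x)
  have h7 : (A.card - 1 - 1) * ∑ y ∈ A.erase x,
        (S.filter fun v => hm v = x ∧ ends G T v = {x, y}).card
      ≤ (A.card - 2) * (S.filter fun v => v ∈ BB G Z T ∧ hm v = x).card :=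
    Nat.mul_le_mul (by omega) h5
  omega

/-- **not all rows but one are of this kind**: `φ z = 2` is `RowM2.fullP_le_two`,
`φ z = 2 (|S_x| - 1)` is `RowM2.fullP_le` -/
theorem MQSys.no_hubM2 (hF : PFrame G r m t Z T) (hP : PG G r) (hj : 2 ≤ j)
    (h : MQSys r (JSys G Z T j) A S) (hh : ∀ v ∈ S, hm v ∈ A ∧ hm v ∈ rws G T v)
    (hr : 1 ≤ r) {x : V} (hx : x ∈ A) (κ φ : V → ℕ)
    (h0 : ∀ z ∈ A.erase x, RowM2 G Z T hm r S (κ z) z)
    (h2 : ∀ y ∈ A.erase x, ∀ z ∈ A.erase x, y ≠ z →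
      4 * (κ y + κ z) + NE G (S.filter fun v => hm v = y) + NE G (S.filter fun v => hm v = z) + 20
        ≤ 2 * r)
    (hφ : ∀ z ∈ A.erase x, (FullP G Z T hm S x z).card ≤ φ z)
    (hlt : ∑ z ∈ A.erase x, φ z
      + 2 * ((A.card - 2) * (S.filter fun v => v ∈ BB G Z T ∧ hm v = x).card)
        < 2 * ((r - 1) * A.card)) : False := by
  have h1 := MQSys.hostM2 hF hP (h.q.hsys hF hj) hh hx κ φ h0 h2 hφ
  have h3 := sum_slots (hm := hm) (A := A) (S := S) fun v hv => (hh v hv).1
  rw [h.val, ← add_sum_erase A (fun x => (S.filter fun v => hm v = x).card) hx] at h3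
  have h4 : ∑ z ∈ A.erase x, (S.filter fun v => hm v = z).card + (A.erase x).card
      = (A.erase x).card * r := by
    rw [card_eq_sum_ones, ← sum_add_distrib, ← card_eq_sum_ones, ← smul_eq_mul, ← sum_const]
    exact sum_congr rfl fun z hz => (h0 z hz).1
  have h5 := card_erase_add_one hx
  have h6 : (S.filter fun v => hm v = x).card = r + A.card := by
    rw [← h5] at h3 ⊢
    have : ((A.erase x).card + 1) * r = (A.erase x).card * r + r := by ring
    omega
  have h7 := hP.ne1 (S.filter fun v => hm v = x)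
  rw [h6] at h7
  have h8 : 2 * (((r : ℤ) - 1) * A.card) ≤ NE G (S.filter fun v => hm v = x) := by
    push_cast at h7
    linarith
  have h9 : ((r - 1 : ℕ) : ℤ) = (r : ℤ) - 1 := by
    push_cast [hr]
    ring
  rw [← h9] at h8
  have h10 : 2 * ((r - 1) * A.card) ≤ NE G (S.filter fun v => hm v = x) := by exact_mod_cast h8
  omega

end RowM2

end Pool.Agent.Lib.MP_f04ccf_co
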