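import Pool.Agent.Lib.MP_f04ccf_co.M.RowJ

/-!
MP_f04ccf_co, PLAN W: the row test with the columns of a set `J` of rows, any extra term, any saving `sv` of
missing pairs among the points used (helper94's `rowMC_of`, `rowMI` with a number in place of saved pairs).

* `Fam.rowMS_of`, `WHom.rowMSI`.
-/

set_option autoImplicit false

namespace Pool.Agent.Lib.MP_f04ccf_co

open Finset

attribute [local instance] Classical.propDecidable

section RowMS

variable {V : Type*} {G : SimpleGraph V} {Z T : Finset V} {hm : V → V} {r m t : ℕ}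
  {A : Finset V} {S : V → Finset V} {U : V → Finset (Itm V)}

/-- **the row test with the columns of `J`, slope `|J|`, over the items**: any saving `sv` -/
theorem Fam.rowMS_of
    (hW : WSysT G (co G) A (CP G Z T S) (HP G Z T S) (tlo G T hm)) (hC : CSys G Z T hm A S)
    (h : ∀ x ∈ A, Fam (co G) (CP G Z T S) (HP G Z T S) (tlo G T hm) x (U x))
    {ho : Itm V → V} (hho : ∀ x ∈ A, ∀ u ∈ U x, ho u = x)
    {z : V} {J : Finset V} (hJ : J ⊆ A) {K : Finset (Itm V)}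
    (hK : K ⊆ (A.erase z).biUnion U) (hk : ∀ u ∈ K, ikp (tlo G T hm) z u ≠ 0)
    {X : Finset V → Finset V} (hX : ∀ Q, X Q ⊆ oth (tlo G T hm) z Q) (hX1 : ∀ Q, (X Q).card ≤ 1)
    (h0 : 0 ≤ ((S z).card : ℤ) - r + ∑ u ∈ K, (ikp (tlo G T hm) z u : ℤ))
    (hc : ((J.card : ℤ) - 1) * ((r : ℤ) - 1) ≤ ∑ j ∈ J, ((CP G Z T S j).card : ℤ))
    (hcr : ∀ j ∈ J, ((CP G Z T S j).card : ℤ) ≤ (r : ℤ) - 1) {EX : ℤ}
    (hE : RowM G Z T hm r S U J.card K X z J EX) {sv : ℤ}
    (hsv : (NE G (K.biUnion (rpts (tlo G T hm) X z) \ J.biUnion (CP G Z T S)) : ℤ) + sv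
      + (K.biUnion (rpts (tlo G T hm) X z) \ J.biUnion (CP G Z T S)).card
      ≤ ((K.biUnion (rpts (tlo G T hm) X z) \ J.biUnion (CP G Z T S)).card : ℤ)
        * (K.biUnion (rpts (tlo G T hm) X z) \ J.biUnion (CP G Z T S)).card) :
    ((r : ℤ) - 1) * (2 * J.card * (((S z).card : ℤ) + ∑ j ∈ J, ((CP G Z T S j).card : ℤ))
        - r * J.card * (J.card + 1))
      + 2 * ∑ u ∈ K, (((CP G Z T S z).card : ℤ) * ikp (tlo G T hm) z u
          - (rcl G (CP G Z T S) (tlo G T hm) X z u).card)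
      + 2 * ∑ j ∈ J, ∑ u ∈ U z, iht G (CP G Z T S) (tlo G T hm) j u
      + ∑ j ∈ J, ∑ i ∈ J.erase j, ∑ v ∈ CP G Z T S i, (dg G (CP G Z T S j) v : ℤ)
      + EX + sv
      ≤ NE G (S z)
        + 2 * (∑ j ∈ J, ((CP G Z T S j).card : ℤ)) * (S z).card
        + ∑ j ∈ J, ∑ i ∈ J.erase j, ((CP G Z T S i).card : ℤ) * (CP G Z T S j).card
        + 2 * (∑ u ∈ K, (2 * (ikp (tlo G T hm) z u : ℤ) - if ho u ∈ J then (ipc u : ℤ) else 0))
          * (((S z).card : ℤ) - r + 1)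
        + (∑ u ∈ K, (2 * (ikp (tlo G T hm) z u : ℤ) - if ho u ∈ J then (ipc u : ℤ) else 0))
          * (∑ u ∈ K, (2 * (ikp (tlo G T hm) z u : ℤ) - if ho u ∈ J then (ipc u : ℤ) else 0) - 1)
        + 2 * ∑ u ∈ K, (if ho u ∈ J then (iar G (CP G Z T S (ho u)) u : ℤ)
              + (ikp (tlo G T hm) z u : ℤ) * (∑ l ∈ J.erase (ho u), ((CP G Z T S l).card : ℤ)
                - ((J.card : ℤ) - 1) * ((r : ℤ) - 1))
            else 2 * (ikp (tlo G T hm) z u : ℤ) * (∑ j ∈ J, ((CP G Z T S j).card : ℤ)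
                - ((J.card : ℤ) - 1) * ((r : ℤ) - 1)))
        + 2 * ∑ j ∈ J, (∑ u ∈ K, (if ho u = j then (ipc u : ℤ) else 0))
          * (∑ u ∈ U z, (ipc u : ℤ) * ikp (tlo G T hm) j u) := by
  have h1 := hE
  unfold RowM at h1
  have hown : ∀ u ∈ K, ∃ x ∈ A, u ∈ U x ∧ ho u = x := by
    intro u hu
    obtain ⟨x, hx, hux⟩ := mem_biUnion.1 (hK hu)
    exact ⟨x, mem_of_mem_erase hx, hux, hho x (mem_of_mem_erase hx) u hux⟩
  have hdis : ∀ u ∈ K, ∀ v ∈ K, u ≠ v → Disjoint (rpts (tlo G T hm) X z u \ J.biUnion (CP G Z T S))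
      (rpts (tlo G T hm) X z v \ J.biUnion (CP G Z T S)) := by
    intro u hu v hv huv
    obtain ⟨x, hx, hux⟩ := mem_biUnion.1 (hK hu)
    obtain ⟨x', hx', hvx⟩ := mem_biUnion.1 (hK hv)
    exact ((Fam.dis_row hW h (mem_of_mem_erase hx) (mem_of_mem_erase hx') hux hvx huv (hk u hu)
      (hk v hv)).mono ((h x (mem_of_mem_erase hx)).rpts_sub hX)
      ((h x' (mem_of_mem_erase hx')).rpts_sub hX)).mono sdiff_subset sdiff_subset
  have hsd : K.biUnion (rpts (tlo G T hm) X z) \ J.biUnion (CP G Z T S)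
      = K.biUnion fun u => rpts (tlo G T hm) X z u \ J.biUnion (CP G Z T S) := by
    ext v
    simp only [mem_sdiff, mem_biUnion]
    constructor
    · rintro ⟨⟨u, hu, hv⟩, hv'⟩
      exact ⟨u, hu, hv, hv'⟩
    · rintro ⟨u, hu, hv, hv'⟩
      exact ⟨⟨u, hu, hv⟩, hv'⟩
  have hne' := hsv
  have hw3 : ((K.biUnion (rpts (tlo G T hm) X z) \ J.biUnion (CP G Z T S)).card : ℤ)
      = ∑ u ∈ K, ((rpts (tlo G T hm) X z u \ J.biUnion (CP G Z T S)).card : ℤ) := by
    rw [hsd, card_biUnion hdis]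
    push_cast
    rfl
  have hw1 : ∀ u ∈ K, ((rpts (tlo G T hm) X z u \ J.biUnion (CP G Z T S)).card : ℤ)
      ≤ 2 * (ikp (tlo G T hm) z u : ℤ) - if ho u ∈ J then (ipc u : ℤ) else 0 := by
    intro u hu
    obtain ⟨x, hx, hux, hxo⟩ := hown u hu
    have h2 := Fam.pts_le (J := J) h hx hux (hk u hu) hX hX1
    rw [hxo]
    by_cases h3 : x ∈ J
    · rw [if_pos h3] at h2 ⊢
      have : ((rpts (tlo G T hm) X z u \ J.biUnion (CP G Z T S)).card : ℤ) + ipc u
        ≤ 2 * (ikp (tlo G T hm) z u : ℤ) := by exact_mod_cast h2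
      linarith
    · rw [if_neg h3] at h2 ⊢
      have : ((rpts (tlo G T hm) X z u \ J.biUnion (CP G Z T S)).card : ℤ)
        ≤ 2 * (ikp (tlo G T hm) z u : ℤ) := by exact_mod_cast h2
      linarith
  have hw2 : ∀ u ∈ K, (ikp (tlo G T hm) z u : ℤ)
      ≤ ((rpts (tlo G T hm) X z u \ J.biUnion (CP G Z T S)).card : ℤ) := by
    intro u hu
    obtain ⟨x, hx, hux, -⟩ := hown u hu
    exact_mod_cast Fam.ikp_le_pts (X := X) hW h hx hux hJ z
  have hk1 : ∀ u ∈ K, (1 : ℤ) ≤ (ikp (tlo G T hm) z u : ℤ) := fun u hu => by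
    exact_mod_cast Nat.one_le_iff_ne_zero.2 (hk u hu)
  -- the missed class points
  have hnd : ∑ j ∈ J, ∑ v ∈ K.biUnion (rpts (tlo G T hm) X z) \ J.biUnion (CP G Z T S),
        (nd G (CP G Z T S j) v : ℤ)
      = ∑ u ∈ K, ∑ j ∈ J, ∑ v ∈ rpts (tlo G T hm) X z u \ J.biUnion (CP G Z T S),
        (nd G (CP G Z T S j) v : ℤ) := by
    have e1 : ∀ j ∈ J, ∑ v ∈ K.biUnion (rpts (tlo G T hm) X z) \ J.biUnion (CP G Z T S),
        (nd G (CP G Z T S j) v : ℤ)
        = ∑ u ∈ K, ∑ v ∈ rpts (tlo G T hm) X z u \ J.biUnion (CP G Z T S),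
          (nd G (CP G Z T S j) v : ℤ) := fun j _ => by
      rw [hsd, sum_biUnion hdis]
    rw [sum_congr rfl e1, sum_comm]
  have hcost : ∀ u ∈ K, ∑ j ∈ J, ∑ v ∈ rpts (tlo G T hm) X z u \ J.biUnion (CP G Z T S),
        (nd G (CP G Z T S j) v : ℤ)
        - ((J.card : ℤ) - 1) * ((r : ℤ) - 1)
          * ((rpts (tlo G T hm) X z u \ J.biUnion (CP G Z T S)).card : ℤ)
      ≤ if ho u ∈ J then (iar G (CP G Z T S (ho u)) u : ℤ)
              + (ikp (tlo G T hm) z u : ℤ) * (∑ l ∈ J.erase (ho u), ((CP G Z T S l).card : ℤ)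
                - ((J.card : ℤ) - 1) * ((r : ℤ) - 1))
            else 2 * (ikp (tlo G T hm) z u : ℤ) * (∑ j ∈ J, ((CP G Z T S j).card : ℤ)
                - ((J.card : ℤ) - 1) * ((r : ℤ) - 1)) := by
    intro u hu
    obtain ⟨x, hx, hux, hxo⟩ := hown u hu
    rw [hxo]
    have hall : ∀ j, ∑ v ∈ rpts (tlo G T hm) X z u \ J.biUnion (CP G Z T S),
        (nd G (CP G Z T S j) v : ℤ)
        ≤ ((rpts (tlo G T hm) X z u \ J.biUnion (CP G Z T S)).card : ℤ) * (CP G Z T S j).card := by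
      intro j
      have h4 : ∑ v ∈ rpts (tlo G T hm) X z u \ J.biUnion (CP G Z T S), (nd G (CP G Z T S j) v : ℤ)
          ≤ ∑ _v ∈ rpts (tlo G T hm) X z u \ J.biUnion (CP G Z T S), ((CP G Z T S j).card : ℤ) :=
        sum_le_sum fun v _ => by
          have : nd G (CP G Z T S j) v ≤ (CP G Z T S j).card := card_filter_le _ _
          exact_mod_cast this
      rw [sum_const, nsmul_eq_mul] at h4
      exact h4
    have hP := hw1 u hu
    have hP2 := hw2 u hu
    rw [hxo] at hP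
    generalize hp : ((rpts (tlo G T hm) X z u \ J.biUnion (CP G Z T S)).card : ℤ) = P at *
    by_cases h3 : x ∈ J
    · rw [if_pos h3]
      have h4 : ∑ v ∈ rpts (tlo G T hm) X z u \ J.biUnion (CP G Z T S),
          (nd G (CP G Z T S x) v : ℤ) ≤ iar G (CP G Z T S x) u := by
        have h5 := Fam.nd_own (z := z) (X := X) h hx hux hX
        have h6 : ∑ v ∈ rpts (tlo G T hm) X z u \ J.biUnion (CP G Z T S), nd G (CP G Z T S x) v
            ≤ ∑ v ∈ rpts (tlo G T hm) X z u \ CP G Z T S x, nd G (CP G Z T S x) v :=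
          sum_le_sum_of_subset (sdiff_subset_sdiff (Subset.refl _)
            (subset_biUnion_of_mem (CP G Z T S) h3))
        exact_mod_cast h6.trans h5
      rw [← add_sum_erase J _ h3]
      have h5 : ∑ l ∈ J.erase x, ∑ v ∈ rpts (tlo G T hm) X z u \ J.biUnion (CP G Z T S),
          (nd G (CP G Z T S l) v : ℤ) ≤ P * ∑ l ∈ J.erase x, ((CP G Z T S l).card : ℤ) := by
        rw [mul_sum]
        exact sum_le_sum fun l _ => hall l
      have h6 : ∑ l ∈ J.erase x, ((CP G Z T S l).card : ℤ) ≤ ((J.card : ℤ) - 1) * ((r : ℤ) - 1) := by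
        have h7 : ((J.erase x).card : ℤ) = (J.card : ℤ) - 1 := by
          have := card_erase_add_one h3
          have : ((J.erase x).card : ℤ) + 1 = J.card := by exact_mod_cast this
          linarith
        have h8 : ∑ l ∈ J.erase x, ((CP G Z T S l).card : ℤ) ≤ ∑ _l ∈ J.erase x, ((r : ℤ) - 1) :=
          sum_le_sum fun l hl => hcr l (mem_of_mem_erase hl)
        rw [sum_const, nsmul_eq_mul, h7] at h8
        exact h8
      nlinarith
    · rw [if_neg h3] at hP ⊢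
      have h5 : ∑ j ∈ J, ∑ v ∈ rpts (tlo G T hm) X z u \ J.biUnion (CP G Z T S),
          (nd G (CP G Z T S j) v : ℤ) ≤ P * ∑ j ∈ J, ((CP G Z T S j).card : ℤ) := by
        rw [mul_sum]
        exact sum_le_sum fun l _ => hall l
      nlinarith
  have hcost' := sum_le_sum hcost
  rw [sum_sub_distrib, ← mul_sum, ← hw3, ← hnd] at hcost'
  -- the used class points
  have hq : ∀ j ∈ J, ((CP G Z T S j ∩ K.biUnion (rpts (tlo G T hm) X z)).card : ℤ)
        * (pcz (tlo G T hm) j (U z)).card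
      ≤ (∑ u ∈ K, (if ho u = j then (ipc u : ℤ) else 0))
          * (∑ u ∈ U z, (ipc u : ℤ) * ikp (tlo G T hm) j u) := by
    intro j hj
    have h2 := Fam.card_colW (z := z) (X := X) hC hW h (hJ hj) hK hX
    have h3 : ∑ u ∈ K, (if u ∈ U j then (ipc u : ℤ) else 0)
        ≤ ∑ u ∈ K, (if ho u = j then (ipc u : ℤ) else 0) := by
      refine sum_le_sum fun u hu => ?_
      by_cases h4 : u ∈ U j
      · rw [if_pos h4, if_pos (hho j (hJ hj) u h4)]
      · rw [if_neg h4]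
        split_ifs <;> positivity
    refine mul_le_mul (h2.trans h3) card_pcz_le (Nat.cast_nonneg _) ?_
    exact sum_nonneg fun u _ => by split_ifs <;> positivity
  have hq' := sum_le_sum hq
  have hih : ∀ j, ∑ u ∈ U z, (((CP G Z T S j).card : ℤ) * ikp (tlo G T hm) j u
        - (CP G Z T S j ∩ icl G (CP G Z T S) (tlo G T hm) j u).card)
      = ∑ u ∈ U z, iht G (CP G Z T S) (tlo G T hm) j u := by
    intro j
    refine sum_congr rfl fun u _ => ?_
    have h2 : CP G Z T S j ∩ icl G (CP G Z T S) (tlo G T hm) j u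
        = icl G (CP G Z T S) (tlo G T hm) j u := inter_eq_right.2 rcl_sub
    rw [h2]
    rfl
  simp only [hih] at h1
  have hw4 := sum_le_sum hw1
  have hw5 := sum_le_sum hw2
  rw [← hw3] at hw4 hw5
  have hqK : ∑ u ∈ K, (if ho u ∈ J then (ipc u : ℤ) else 0) ≤ ∑ u ∈ K, (ikp (tlo G T hm) z u : ℤ) := by
    refine sum_le_sum fun u hu => ?_
    have h2 := hk1 u hu
    rcases u with Q | e
    · split_ifs <;> simp [ipc] <;> omega
    · split_ifs
      · simpa [ipc] using h2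
      · linarith
  have hsum : ∑ u ∈ K, (2 * (ikp (tlo G T hm) z u : ℤ) - if ho u ∈ J then (ipc u : ℤ) else 0)
      = 2 * ∑ u ∈ K, (ikp (tlo G T hm) z u : ℤ) - ∑ u ∈ K, (if ho u ∈ J then (ipc u : ℤ) else 0) := by
    rw [sum_sub_distrib, mul_sum]
  have hKe : K = ∅ → ∑ u ∈ K, (ikp (tlo G T hm) z u : ℤ) = 0 := fun h2 => by rw [h2]; rfl
  have hKn : K.Nonempty → 1 ≤ ∑ u ∈ K, (ikp (tlo G T hm) z u : ℤ) := by
    rintro ⟨u, hu⟩
    have h2 : (ikp (tlo G T hm) z u : ℤ) ≤ ∑ u ∈ K, (ikp (tlo G T hm) z u : ℤ) :=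
      single_le_sum (f := fun u => (ikp (tlo G T hm) z u : ℤ)) (fun _ _ => Nat.cast_nonneg _) hu
    linarith [hk1 u hu]
  have hq0 : 0 ≤ ∑ u ∈ K, (if ho u ∈ J then (ipc u : ℤ) else 0) :=
    sum_nonneg fun u _ => by split_ifs <;> positivity
  rw [hsum] at hw4 ⊢
  generalize ((K.biUnion (rpts (tlo G T hm) X z) \ J.biUnion (CP G Z T S)).card : ℤ) = w at *
  generalize (∑ u ∈ K, (ikp (tlo G T hm) z u : ℤ)) = κ at *
  generalize (∑ u ∈ K, (if ho u ∈ J then (ipc u : ℤ) else 0)) = q at *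
  have h5 : 0 ≤ (2 * κ - q - w) * (2 * (((S z).card : ℤ) - r + 1) + (2 * κ - q) + w - 1) := by
    exact mul_nonneg (by linarith) (by linarith)
  nlinarith

end RowMS

section RowMSI

variable {V : Type*} {G : SimpleGraph V} {Z T : Finset V} {hm : V → V} {r m n p : ℕ}
  {B : V → Finset (V × V)} {Ps : V → Finset (Finset V)}

/-- **T++ over the basic integers**, any extra term, any saving -/
theorem WHom.rowMSI (h : WHom G Z T r m n hm) {host : Itm V → V}
    (hpk : ∀ x ∈ T, Pk G (cz G Z T hm x) (hz G Z T hm x) (tlo G T hm) (B x) (Ps x))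
    (hst : ∀ x ∈ T, ∀ u ∈ pkf (B x) (Ps x), host u = x)
    {z : V} {J : Finset V} (hJ : J ⊆ T) {K : Finset (Itm V)}
    (hK : K ⊆ (T.erase z).biUnion fun x => pkf (B x) (Ps x))
    (h0 : 0 ≤ sI hm r Z z + ∑ u ∈ K, (ikp (tlo G T hm) z u : ℤ))
    (ht0 : ∀ j ∈ J, 0 ≤ tI G Z T hm r Z j) (hts : ∑ j ∈ J, tI G Z T hm r Z j ≤ (r : ℤ) - 1) {EX : ℤ}
    (hE : RowM G Z T hm r (fun x => Z.filter fun v => hm v = x) (fun x => pkf (B x) (Ps x)) J.card
      (K.filter fun u => ikp (tlo G T hm) z u ≠ 0) (fun Q => one1 (oth (tlo G T hm) z Q)) z J EX)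
    {sv : ℤ}
    (hsv : (NE G ((K.filter fun u => ikp (tlo G T hm) z u ≠ 0).biUnion
        (rpts (tlo G T hm) (fun Q => one1 (oth (tlo G T hm) z Q)) z)
        \ J.biUnion (CP G Z T fun x => Z.filter fun v => hm v = x)) : ℤ) + sv
      + ((K.filter fun u => ikp (tlo G T hm) z u ≠ 0).biUnion
        (rpts (tlo G T hm) (fun Q => one1 (oth (tlo G T hm) z Q)) z)
        \ J.biUnion (CP G Z T fun x => Z.filter fun v => hm v = x)).card
      ≤ (((K.filter fun u => ikp (tlo G T hm) z u ≠ 0).biUnion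
        (rpts (tlo G T hm) (fun Q => one1 (oth (tlo G T hm) z Q)) z)
        \ J.biUnion (CP G Z T fun x => Z.filter fun v => hm v = x)).card : ℤ)
        * ((K.filter fun u => ikp (tlo G T hm) z u ≠ 0).biUnion
        (rpts (tlo G T hm) (fun Q => one1 (oth (tlo G T hm) z Q)) z)
        \ J.biUnion (CP G Z T fun x => Z.filter fun v => hm v = x)).card) :
    2 * ((r : ℤ) - 1) * J.card * sI hm r Z z - (J.card : ℤ) * (J.card - 1) * ((r : ℤ) - 1)
      - ((∑ j ∈ J, tI G Z T hm r Z j) ^ 2 - ∑ j ∈ J, tI G Z T hm r Z j ^ 2)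
      + 2 * ∑ u ∈ K, ((ikp (tlo G T hm) z u : ℤ) * ((r : ℤ) - 1 - tI G Z T hm r Z z)
          - rmr G (cz G Z T hm) (tlo G T hm) z u)
      + 2 * ∑ j ∈ J, ∑ u ∈ pkf (B z) (Ps z), ((ikp (tlo G T hm) j u : ℤ)
          * ((r : ℤ) - 1 - tI G Z T hm r Z j) - ims G (cz G Z T hm) (tlo G T hm) j u)
      + EX + sv
      ≤ 2 * eI G hm Z z
        + 2 * (∑ u ∈ K, (2 * (ikp (tlo G T hm) z u : ℤ)
              - if host u ∈ J then (ipc u : ℤ) * ikp (tlo G T hm) z u else 0)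
            + ((J.card : ℤ) * ((r : ℤ) - 1) - ∑ j ∈ J, tI G Z T hm r Z j)) * (sI hm r Z z + 1)
        + (∑ u ∈ K, (2 * (ikp (tlo G T hm) z u : ℤ)
              - if host u ∈ J then (ipc u : ℤ) * ikp (tlo G T hm) z u else 0))
          * (∑ u ∈ K, (2 * (ikp (tlo G T hm) z u : ℤ)
              - if host u ∈ J then (ipc u : ℤ) * ikp (tlo G T hm) z u else 0) - 1)
        + 2 * ∑ u ∈ K, (if host u ∈ J
            then (iar G (cz G Z T hm (host u)) u : ℤ) - (ikp (tlo G T hm) z u : ℤ)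
              * (∑ j ∈ J, tI G Z T hm r Z j - tI G Z T hm r Z (host u))
            else 2 * (ikp (tlo G T hm) z u : ℤ)
              * ((r : ℤ) - 1 - ∑ j ∈ J, tI G Z T hm r Z j))
        + 2 * ∑ j ∈ J, (∑ u ∈ K, (if host u = j then (ipc u : ℤ) * ikp (tlo G T hm) z u else 0))
          * (∑ u ∈ pkf (B z) (Ps z), (ipc u : ℤ) * ikp (tlo G T hm) j u) := by
  have hfam : ∀ x ∈ T, Fam (co G) (cz G Z T hm) (hz G Z T hm) (tlo G T hm) x
      (pkf (B x) (Ps x)) := fun x hx => (hpk x hx).fam (h.csys.dCH hx hx).symm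
  set C := cz G Z T hm with hCdef
  set tl := tlo G T hm with htl
  have hcard : ∀ x, ((C x).card : ℤ) = (r : ℤ) - 1 - tI G Z T hm r Z x := fun x => card_CP_eq Z x
  have hz0 : ∀ u ∈ K, ikp tl z u = 0 → rmr G C tl z u = 0 := by
    intro u _ hu
    have h1 := rcl_card_le (G := G) (C := C) (tl := tl) (X := fun Q => one1 (oth tl z Q)) (z := z)
      (u := u)
    rw [hu, Nat.zero_mul] at h1
    exact Nat.le_zero.1 h1
  have hsf : ∀ f g : Itm V → ℤ, (∀ u ∈ K, ikp tl z u ≠ 0 → f u = g u) →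
      (∀ u ∈ K, ikp tl z u = 0 → f u = 0) →
      ∑ u ∈ K, f u = ∑ u ∈ K.filter (fun u => ikp tl z u ≠ 0), g u := by
    intro f g h1 h2
    rw [sum_filter]
    refine sum_congr rfl fun u hu => ?_
    by_cases h3 : ikp tl z u = 0
    · rw [h2 u hu h3]
      simp [h3]
    · simp only [ne_eq, h3, not_false_iff, if_true]
      exact h1 u hu h3
  have hpc : ∀ u, ikp tl z u ≠ 0 → (ipc u : ℤ) * ikp tl z u = ipc u := by
    intro u hu
    rcases u with Q | e
    · simp [ipc]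
    · have h3 : ikp tl z (Sum.inr e) = 1 := by
        by_cases h4 : tl e.1 = z
        · simp only [ikp, h4, if_true]
        · exact absurd (by simp only [ikp, h4, if_false]) hu
      rw [h3]
      simp
  have e1 := hsf (fun u => (ikp tl z u : ℤ) * ((r : ℤ) - 1 - tI G Z T hm r Z z) - rmr G C tl z u)
    (fun u => ((C z).card : ℤ) * ikp tl z u - (rcl G C tl (fun Q => one1 (oth tl z Q)) z u).card)
    (fun u _ _ => by
      rw [← hcard]
      unfold rmr
      ring)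
    (fun u hu h1 => by
      rw [hz0 u hu h1, h1]
      simp)
  have e2 := hsf (fun u => (ikp tl z u : ℤ)) (fun u => (ikp tl z u : ℤ)) (fun _ _ _ => rfl)
    (fun u _ h1 => by rw [h1]; simp)
  have e3 := hsf (fun u => 2 * (ikp tl z u : ℤ)
      - if host u ∈ J then (ipc u : ℤ) * ikp tl z u else 0)
    (fun u => 2 * (ikp tl z u : ℤ) - if host u ∈ J then (ipc u : ℤ) else 0)
    (fun u _ h1 => by rw [hpc u h1])
    (fun u _ h1 => by rw [h1]; simp)
  have e4 : ∀ j, ∑ u ∈ K, (if host u = j then (ipc u : ℤ) * ikp tl z u else 0)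
      = ∑ u ∈ K.filter (fun u => ikp tl z u ≠ 0), (if host u = j then (ipc u : ℤ) else 0) :=
    fun j => hsf (fun u => if host u = j then (ipc u : ℤ) * ikp tl z u else 0)
      (fun u => if host u = j then (ipc u : ℤ) else 0)
      (fun u _ h1 => by rw [hpc u h1])
      (fun u _ h1 => by rw [h1]; simp)
  have hq0 : ∀ j ∈ J, ((J.card : ℤ) - 1) * ((r : ℤ) - 1) = ∑ l ∈ J.erase j, ((r : ℤ) - 1) := by
    intro j hj
    have h1 : ((J.erase j).card : ℤ) + 1 = J.card := by exact_mod_cast card_erase_add_one hj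
    rw [sum_const, nsmul_eq_mul]
    have h2 : ((J.erase j).card : ℤ) = (J.card : ℤ) - 1 := by linarith
    rw [h2]
  have hsc : ∑ j ∈ J, ((C j).card : ℤ)
      = (J.card : ℤ) * ((r : ℤ) - 1) - ∑ j ∈ J, tI G Z T hm r Z j := by
    rw [sum_congr rfl fun j _ => hcard j, sum_sub_distrib, sum_const, nsmul_eq_mul]
  have e5 : ∑ u ∈ K.filter (fun u => ikp tl z u ≠ 0), (if host u ∈ J
        then (iar G (C (host u)) u : ℤ) + (ikp tl z u : ℤ) * (∑ l ∈ J.erase (host u), ((C l).card : ℤ)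
          - ((J.card : ℤ) - 1) * ((r : ℤ) - 1))
        else 2 * (ikp tl z u : ℤ) * (∑ j ∈ J, ((C j).card : ℤ) - ((J.card : ℤ) - 1) * ((r : ℤ) - 1)))
      ≤ ∑ u ∈ K, (if host u ∈ J
        then (iar G (C (host u)) u : ℤ) - (ikp tl z u : ℤ)
          * (∑ j ∈ J, tI G Z T hm r Z j - tI G Z T hm r Z (host u))
        else 2 * (ikp tl z u : ℤ) * ((r : ℤ) - 1 - ∑ j ∈ J, tI G Z T hm r Z j)) := by
    rw [sum_filter]
    refine sum_le_sum fun u _ => ?_
    by_cases h3 : ikp tl z u = 0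
    · simp only [ne_eq, h3, not_true_eq_false, if_false, Nat.cast_zero, zero_mul, sub_zero, mul_zero]
      split_ifs <;> positivity
    · simp only [ne_eq, h3, not_false_iff, if_true]
      by_cases h4 : host u ∈ J
      · rw [if_pos h4, if_pos h4, hq0 _ h4, ← sum_sub_distrib]
        have h5 : ∑ l ∈ J.erase (host u), (((C l).card : ℤ) - ((r : ℤ) - 1))
            = - (∑ j ∈ J, tI G Z T hm r Z j - tI G Z T hm r Z (host u)) := by
          rw [← add_sum_erase J _ h4, add_sub_cancel_left, ← sum_neg_distrib]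
          refine sum_congr rfl fun l _ => ?_
          rw [hcard]
          ring
        rw [h5]
        linarith
      · rw [if_neg h4, if_neg h4, hsc]
        have h5 : (J.card : ℤ) * ((r : ℤ) - 1) - ∑ j ∈ J, tI G Z T hm r Z j
            - ((J.card : ℤ) - 1) * ((r : ℤ) - 1) = (r : ℤ) - 1 - ∑ j ∈ J, tI G Z T hm r Z j := by
          ring
        rw [h5]
  have e6 : ∀ j, ∑ u ∈ pkf (B z) (Ps z), iht G C tl j u
      = ∑ u ∈ pkf (B z) (Ps z), ((ikp tl j u : ℤ) * ((r : ℤ) - 1 - tI G Z T hm r Z j)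
        - ims G C tl j u) := by
    intro j
    refine sum_congr rfl fun u _ => ?_
    unfold iht
    rw [hcard]
    ring
  have h5 := two_eI (G := G) (hm := hm) Z z
  have h6 : (((Z.filter fun v => hm v = z).card : ℤ) - r) = sI hm r Z z := rfl
  rw [e2] at h0
  have h1 := Fam.rowMS_of h.wsysT h.csys hfam hst hJ ((filter_subset _ _).trans hK)
    (fun u hu => (mem_filter.1 hu).2) (X := fun Q => one1 (oth tl z Q))
    (fun Q => one1_sub _) (fun Q => card_one1 _) (by rw [h6]; exact h0)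
    (by
      have h7 : ∑ j ∈ J, ((CP G Z T (fun x => Z.filter fun v => hm v = x) j).card : ℤ)
        = (J.card : ℤ) * ((r : ℤ) - 1) - ∑ j ∈ J, tI G Z T hm r Z j := hsc
      rw [h7]
      linarith)
    (fun j hj => by
      have h7 : ((CP G Z T (fun x => Z.filter fun v => hm v = x) j).card : ℤ)
        = (r : ℤ) - 1 - tI G Z T hm r Z j := hcard j
      rw [h7]
      linarith [ht0 j hj]) hE hsv
  have hdg : (0 : ℤ) ≤ ∑ j ∈ J, ∑ i ∈ J.erase j, ∑ v ∈ C i, (dg G (C j) v : ℤ) :=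
    sum_nonneg fun _ _ => sum_nonneg fun _ _ => sum_nonneg fun _ _ => Nat.cast_nonneg _
  have hcc : ∑ j ∈ J, ∑ i ∈ J.erase j, ((C i).card : ℤ) * (C j).card
      = (J.card : ℤ) * (J.card - 1) * ((r : ℤ) - 1) ^ 2
        - 2 * ((J.card : ℤ) - 1) * ((r : ℤ) - 1) * ∑ j ∈ J, tI G Z T hm r Z j
        + ((∑ j ∈ J, tI G Z T hm r Z j) ^ 2 - ∑ j ∈ J, tI G Z T hm r Z j ^ 2) := by
    rw [sum_offdiag J fun j i => ((C i).card : ℤ) * (C j).card]
    have h7 : ∑ j ∈ J, ∑ i ∈ J, ((C i).card : ℤ) * (C j).card = (∑ j ∈ J, ((C j).card : ℤ)) ^ 2 := by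
      rw [sq, sum_mul_sum, sum_comm]
    have h8 : ∑ j ∈ J, ((C j).card : ℤ) * (C j).card
        = (J.card : ℤ) * ((r : ℤ) - 1) ^ 2 - 2 * ((r : ℤ) - 1) * ∑ j ∈ J, tI G Z T hm r Z j
          + ∑ j ∈ J, tI G Z T hm r Z j ^ 2 := by
      have h9 : ∀ j ∈ J, ((C j).card : ℤ) * (C j).card
          = ((r : ℤ) - 1) ^ 2 - 2 * ((r : ℤ) - 1) * tI G Z T hm r Z j + tI G Z T hm r Z j ^ 2 :=
        fun j _ => by rw [hcard]; ring
      rw [sum_congr rfl h9, sum_add_distrib, sum_sub_distrib, sum_const, nsmul_eq_mul, ← mul_sum]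
    rw [h7, h8, hsc]
    ring
  have hzc : ((Z.filter fun v => hm v = z).card : ℤ) = sI hm r Z z + r := by
    rw [← h6]
    ring
  have h2 : ((r : ℤ) - 1) * (2 * J.card * (((Z.filter fun v => hm v = z).card : ℤ)
        + ∑ j ∈ J, ((C j).card : ℤ)) - r * J.card * (J.card + 1))
      + 2 * ∑ u ∈ K.filter (fun u => ikp tl z u ≠ 0), (((C z).card : ℤ) * ikp tl z u
          - (rcl G C tl (fun Q => one1 (oth tl z Q)) z u).card)
      + 2 * ∑ j ∈ J, ∑ u ∈ pkf (B z) (Ps z), iht G C tl j u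
      + ∑ j ∈ J, ∑ i ∈ J.erase j, ∑ v ∈ C i, (dg G (C j) v : ℤ)
      + EX + sv
      ≤ NE G (Z.filter fun v => hm v = z)
        + 2 * (∑ j ∈ J, ((C j).card : ℤ)) * (Z.filter fun v => hm v = z).card
        + ∑ j ∈ J, ∑ i ∈ J.erase j, ((C i).card : ℤ) * (C j).card
        + 2 * (∑ u ∈ K.filter (fun u => ikp tl z u ≠ 0),
            (2 * (ikp tl z u : ℤ) - if host u ∈ J then (ipc u : ℤ) else 0))
          * (((Z.filter fun v => hm v = z).card : ℤ) - r + 1)
        + (∑ u ∈ K.filter (fun u => ikp tl z u ≠ 0),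
            (2 * (ikp tl z u : ℤ) - if host u ∈ J then (ipc u : ℤ) else 0))
          * (∑ u ∈ K.filter (fun u => ikp tl z u ≠ 0),
            (2 * (ikp tl z u : ℤ) - if host u ∈ J then (ipc u : ℤ) else 0) - 1)
        + 2 * ∑ u ∈ K.filter (fun u => ikp tl z u ≠ 0), (if host u ∈ J
            then (iar G (C (host u)) u : ℤ) + (ikp tl z u : ℤ) * (∑ l ∈ J.erase (host u),
              ((C l).card : ℤ) - ((J.card : ℤ) - 1) * ((r : ℤ) - 1))
            else 2 * (ikp tl z u : ℤ) * (∑ j ∈ J, ((C j).card : ℤ)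
                - ((J.card : ℤ) - 1) * ((r : ℤ) - 1)))
        + 2 * ∑ j ∈ J, (∑ u ∈ K.filter (fun u => ikp tl z u ≠ 0),
            (if host u = j then (ipc u : ℤ) else 0))
          * (∑ u ∈ pkf (B z) (Ps z), (ipc u : ℤ) * ikp tl j u) := h1
  replace h2 := h2.trans (add_le_add (add_le_add le_rfl
    (mul_le_mul_of_nonneg_left e5 (by norm_num : (0 : ℤ) ≤ 2))) le_rfl)
  rw [h6, ← h5, hcc, hsc, hzc] at h2
  simp only [e6] at h2
  rw [e1, e3]
  simp only [e4]
  generalize ∑ u ∈ K.filter (fun u => ikp tl z u ≠ 0),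
    (2 * (ikp tl z u : ℤ) - if host u ∈ J then (ipc u : ℤ) else 0) = w at *
  generalize ∑ j ∈ J, tI G Z T hm r Z j = τ at *
  generalize ∑ j ∈ J, tI G Z T hm r Z j ^ 2 = τ2 at *
  clear h1 e5
  linarith

end RowMSI

end Pool.Agent.Lib.MP_f04ccf_co
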