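import Pool.Agent.Lib.MP_f04ccf_co.M.RowMul
import Pool.Agent.Lib.MP_f04ccf_co.M.RowR

/-!
MP_f04ccf_co, note 17294: the row test with the columns of a set `J` of rows, slope `|J|`, over the items.

* `Fam.ikp_le_pts`, `Fam.pts_le`: the used points of an item outside the columns of `J`;
* `Fam.rowMC_of`: `RowM` with slope `|J|` and saved pairs `D` in sums over the items;
* `Fam.rowMI_of`: over the basic integers.
-/

set_option autoImplicit false

namespace Pool.Agent.Lib.MP_f04ccf_co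

open Finset

attribute [local instance] Classical.propDecidable

section RowMulI

variable {V : Type*} {G : SimpleGraph V} {Z T : Finset V} {hm : V → V} {r m t : ℕ}
  {A : Finset V} {S : V → Finset V} {U : V → Finset (Itm V)}

/-- the load is at most the number of the used points outside the columns -/
lemma Fam.ikp_le_pts (hW : WSysT G (co G) A (CP G Z T S) (HP G Z T S) (tlo G T hm))
    (h : ∀ x ∈ A, Fam (co G) (CP G Z T S) (HP G Z T S) (tlo G T hm) x (U x))
    {x : V} (hx : x ∈ A) {u : Itm V} (hu : u ∈ U x) {J : Finset V} (hJ : J ⊆ A)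
    {X : Finset V → Finset V} (z : V) :
    ikp (tlo G T hm) z u ≤ (rpts (tlo G T hm) X z u \ J.biUnion (CP G Z T S)).card := by
  have hf := h x hx
  have hout : ∀ v ∈ HP G Z T S x, v ∉ J.biUnion (CP G Z T S) := by
    intro v hv hv'
    obtain ⟨j, hj, hv2⟩ := mem_biUnion.1 hv'
    exact disjoint_left.1 (hW.dHC x hx j (hJ hj)) hv hv2
  rcases u with Q | e
  · have h2 : tlp (tlo G T hm) Q z ⊆ rpts (tlo G T hm) X z (Sum.inl Q) \ J.biUnion (CP G Z T S) := by
      intro v hv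
      exact mem_sdiff.2 ⟨mem_union_left _ hv, hout v (hf.sub Q hu (tlp_sub hv))⟩
    refine le_trans ?_ (card_le_card h2)
    by_cases h3 : tlp (tlo G T hm) Q z = Q
    · simp only [ikp, h3, if_true]
      exact Nat.sub_le _ _
    · simp only [ikp, h3, if_false]
      exact le_refl _
  · have h2 : e.1 ∈ rpts (tlo G T hm) X z (Sum.inr e) \ J.biUnion (CP G Z T S) :=
      mem_sdiff.2 ⟨mem_insert_self _ _, hout e.1 (hf.pcH e hu)⟩
    have h3 := card_pos.2 ⟨_, h2⟩
    refine le_trans ?_ h3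
    simp only [ikp]
    split_ifs <;> omega

/-- the used points outside the columns -/
lemma Fam.pts_le (h : ∀ x ∈ A, Fam (co G) (CP G Z T S) (HP G Z T S) (tlo G T hm) x (U x))
    {z x : V} (hx : x ∈ A) {u : Itm V} (hu : u ∈ U x) {J : Finset V}
    (hk : ikp (tlo G T hm) z u ≠ 0) {X : Finset V → Finset V}
    (hX : ∀ Q, X Q ⊆ oth (tlo G T hm) z Q) (hX1 : ∀ Q, (X Q).card ≤ 1) :
    (rpts (tlo G T hm) X z u \ J.biUnion (CP G Z T S)).card + (if x ∈ J then ipc u else 0)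
      ≤ 2 * ikp (tlo G T hm) z u := by
  by_cases hxJ : x ∈ J
  · have h1 := Fam.rpts_out (y := x) h hx hu hk hX hX1
    rw [if_pos rfl] at h1
    rw [if_pos hxJ]
    have h2 : (rpts (tlo G T hm) X z u \ J.biUnion (CP G Z T S)).card
        ≤ (rpts (tlo G T hm) X z u \ CP G Z T S x).card :=
      card_le_card (sdiff_subset_sdiff (Subset.refl _) (subset_biUnion_of_mem (CP G Z T S) hxJ))
    omega
  · rw [if_neg hxJ, add_zero]
    rcases u with Q | e
    · have h2 := (h x hx).two Q hu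
      have h3 : (rpts (tlo G T hm) X z (Sum.inl Q)).card
          ≤ (tlp (tlo G T hm) Q z).card + (X Q).card := card_union_le _ _
      have h5 := hX1 Q
      have h6 : (rpts (tlo G T hm) X z (Sum.inl Q) \ J.biUnion (CP G Z T S)).card
          ≤ (rpts (tlo G T hm) X z (Sum.inl Q)).card := card_le_card sdiff_subset
      by_cases h7 : tlp (tlo G T hm) Q z = Q
      · have h8 : ikp (tlo G T hm) z (Sum.inl Q) = Q.card - 1 := by
          simp only [ikp, h7, if_true]
        have h9 : X Q = ∅ := by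
          have := hX Q
          unfold oth at this
          rw [h7, sdiff_self] at this
          exact subset_empty.1 this
        rw [h9, card_empty, h7] at h3
        rw [h8]
        omega
      · have h8 : ikp (tlo G T hm) z (Sum.inl Q) = (tlp (tlo G T hm) Q z).card := by
          simp only [ikp, h7, if_false]
        rw [h8] at hk ⊢
        omega
    · have h2 : (rpts (tlo G T hm) X z (Sum.inr e) \ J.biUnion (CP G Z T S)).card
          ≤ (rpts (tlo G T hm) X z (Sum.inr e)).card := card_le_card sdiff_subset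
      have h3 : (rpts (tlo G T hm) X z (Sum.inr e)).card ≤ 2 := card_le_two
      have h4 : 1 ≤ ikp (tlo G T hm) z (Sum.inr e) := Nat.one_le_iff_ne_zero.2 hk
      omega

/-- **saved pairs**: `D` ordered pairs of items with adjacent used points outside the columns -/
theorem Fam.savM (hW : WSysT G (co G) A (CP G Z T S) (HP G Z T S) (tlo G T hm))
    (h : ∀ x ∈ A, Fam (co G) (CP G Z T S) (HP G Z T S) (tlo G T hm) x (U x))
    {z : V} {J : Finset V} {K : Finset (Itm V)}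
    (hK : K ⊆ (A.erase z).biUnion U) (hk : ∀ u ∈ K, ikp (tlo G T hm) z u ≠ 0)
    {X : Finset V → Finset V} (hX : ∀ Q, X Q ⊆ oth (tlo G T hm) z Q) {D : Finset (Itm V × Itm V)}
    (hD : ∀ e ∈ D, e.1 ∈ K ∧ e.2 ∈ K ∧
      ∃ p ∈ rpts (tlo G T hm) X z e.1 \ J.biUnion (CP G Z T S),
      ∃ q ∈ rpts (tlo G T hm) X z e.2 \ J.biUnion (CP G Z T S), G.Adj p q) :
    (NE G (K.biUnion (rpts (tlo G T hm) X z) \ J.biUnion (CP G Z T S)) : ℤ) + D.card
      + (K.biUnion (rpts (tlo G T hm) X z) \ J.biUnion (CP G Z T S)).card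
      ≤ ((K.biUnion (rpts (tlo G T hm) X z) \ J.biUnion (CP G Z T S)).card : ℤ)
        * (K.biUnion (rpts (tlo G T hm) X z) \ J.biUnion (CP G Z T S)).card := by
  have hdis : ∀ u ∈ K, ∀ v ∈ K, u ≠ v → Disjoint (rpts (tlo G T hm) X z u \ J.biUnion (CP G Z T S))
      (rpts (tlo G T hm) X z v \ J.biUnion (CP G Z T S)) := by
    intro u hu v hv huv
    obtain ⟨x, hx, hux⟩ := mem_biUnion.1 (hK hu)
    obtain ⟨x', hx', hvx⟩ := mem_biUnion.1 (hK hv)
    exact ((Fam.dis_row hW h (mem_of_mem_erase hx) (mem_of_mem_erase hx') hux hvx huv (hk u hu)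
      (hk v hv)).mono ((h x (mem_of_mem_erase hx)).rpts_sub hX)
      ((h x' (mem_of_mem_erase hx')).rpts_sub hX)).mono sdiff_subset sdiff_subset
  have hsd : K.biUnion (rpts (tlo G T hm) X z) \ J.biUnion (CP G Z T S)
      = K.biUnion fun u => rpts (tlo G T hm) X z u \ J.biUnion (CP G Z T S) := by
    ext v
    simp only [mem_sdiff, mem_biUnion]
    constructor
    · rintro ⟨⟨u, hu, hv⟩, hv'⟩
      exact ⟨u, hu, hv, hv'⟩
    · rintro ⟨u, hu, hv, hv'⟩
      exact ⟨⟨u, hu, hv⟩, hv'⟩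
  have hne := NE_grp_le (G := G) (K := K)
    (P := fun u => rpts (tlo G T hm) X z u \ J.biUnion (CP G Z T S)) hdis hD
  rw [← hsd] at hne
  exact_mod_cast hne

/-- **the row test with the columns of `J`, slope `|J|`, over the items**: any saving `sv` in the missing pairs
of the used points outside the columns -/
theorem Fam.rowMC_of
    (hW : WSysT G (co G) A (CP G Z T S) (HP G Z T S) (tlo G T hm)) (hC : CSys G Z T hm A S)
    (h : ∀ x ∈ A, Fam (co G) (CP G Z T S) (HP G Z T S) (tlo G T hm) x (U x))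
    {ho : Itm V → V} (hho : ∀ x ∈ A, ∀ u ∈ U x, ho u = x)
    {z : V} {J : Finset V} (hJ : J ⊆ A) {K : Finset (Itm V)}
    (hK : K ⊆ (A.erase z).biUnion U) (hk : ∀ u ∈ K, ikp (tlo G T hm) z u ≠ 0)
    {X : Finset V → Finset V} (hX : ∀ Q, X Q ⊆ oth (tlo G T hm) z Q) (hX1 : ∀ Q, (X Q).card ≤ 1)
    (h0 : 0 ≤ ((S z).card : ℤ) - r + ∑ u ∈ K, (ikp (tlo G T hm) z u : ℤ))
    (hc : ((J.card : ℤ) - 1) * ((r : ℤ) - 1) ≤ ∑ j ∈ J, ((CP G Z T S j).card : ℤ))
    (hcr : ∀ j ∈ J, ((CP G Z T S j).card : ℤ) ≤ (r : ℤ) - 1) {EX : ℤ}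
    (hE : RowM G Z T hm r S U J.card K X z J EX) {sv : ℤ}
    (hsv : (NE G (K.biUnion (rpts (tlo G T hm) X z) \ J.biUnion (CP G Z T S)) : ℤ) + sv
      + (K.biUnion (rpts (tlo G T hm) X z) \ J.biUnion (CP G Z T S)).card
      ≤ ((K.biUnion (rpts (tlo G T hm) X z) \ J.biUnion (CP G Z T S)).card : ℤ)
        * (K.biUnion (rpts (tlo G T hm) X z) \ J.biUnion (CP G Z T S)).card) :
    ((r : ℤ) - 1) * (2 * J.card * (((S z).card : ℤ) + ∑ j ∈ J, ((CP G Z T S j).card : ℤ))
        - r * J.card * (J.card + 1))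
      + 2 * ∑ u ∈ K, (((CP G Z T S z).card : ℤ) * ikp (tlo G T hm) z u
          - (rcl G (CP G Z T S) (tlo G T hm) X z u).card)
      + 2 * ∑ j ∈ J, ∑ u ∈ U z, iht G (CP G Z T S) (tlo G T hm) j u
      + ∑ j ∈ J, ∑ i ∈ J.erase j, ∑ v ∈ CP G Z T S i, (dg G (CP G Z T S j) v : ℤ)
      + EX + sv
      ≤ NE G (S z)
        + 2 * (∑ j ∈ J, ((CP G Z T S j).card : ℤ)) * (S z).card
        + ∑ j ∈ J, ∑ i ∈ J.erase j, ((CP G Z T S i).card : ℤ) * (CP G Z T S j).card
        + 2 * (∑ u ∈ K, (2 * (ikp (tlo G T hm) z u : ℤ) - if ho u ∈ J then (ipc u : ℤ) else 0))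
          * (((S z).card : ℤ) - r + 1)
        + (∑ u ∈ K, (2 * (ikp (tlo G T hm) z u : ℤ) - if ho u ∈ J then (ipc u : ℤ) else 0))
          * (∑ u ∈ K, (2 * (ikp (tlo G T hm) z u : ℤ) - if ho u ∈ J then (ipc u : ℤ) else 0) - 1)
        + 2 * ∑ u ∈ K, (if ho u ∈ J then (iar G (CP G Z T S (ho u)) u : ℤ)
              + (ikp (tlo G T hm) z u : ℤ) * (∑ l ∈ J.erase (ho u), ((CP G Z T S l).card : ℤ)
                - ((J.card : ℤ) - 1) * ((r : ℤ) - 1))
            else 2 * (ikp (tlo G T hm) z u : ℤ) * (∑ j ∈ J, ((CP G Z T S j).card : ℤ)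
                - ((J.card : ℤ) - 1) * ((r : ℤ) - 1)))
        + 2 * ∑ j ∈ J, (∑ u ∈ K, (if ho u = j then (ipc u : ℤ) else 0))
          * (∑ u ∈ U z, (ipc u : ℤ) * ikp (tlo G T hm) j u) := by
  have h1 := hE
  unfold RowM at h1
  have hown : ∀ u ∈ K, ∃ x ∈ A, u ∈ U x ∧ ho u = x := by
    intro u hu
    obtain ⟨x, hx, hux⟩ := mem_biUnion.1 (hK hu)
    exact ⟨x, mem_of_mem_erase hx, hux, hho x (mem_of_mem_erase hx) u hux⟩
  have hdis : ∀ u ∈ K, ∀ v ∈ K, u ≠ v → Disjoint (rpts (tlo G T hm) X z u \ J.biUnion (CP G Z T S))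
      (rpts (tlo G T hm) X z v \ J.biUnion (CP G Z T S)) := by
    intro u hu v hv huv
    obtain ⟨x, hx, hux⟩ := mem_biUnion.1 (hK hu)
    obtain ⟨x', hx', hvx⟩ := mem_biUnion.1 (hK hv)
    exact ((Fam.dis_row hW h (mem_of_mem_erase hx) (mem_of_mem_erase hx') hux hvx huv (hk u hu)
      (hk v hv)).mono ((h x (mem_of_mem_erase hx)).rpts_sub hX)
      ((h x' (mem_of_mem_erase hx')).rpts_sub hX)).mono sdiff_subset sdiff_subset
  have hsd : K.biUnion (rpts (tlo G T hm) X z) \ J.biUnion (CP G Z T S)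
      = K.biUnion fun u => rpts (tlo G T hm) X z u \ J.biUnion (CP G Z T S) := by
    ext v
    simp only [mem_sdiff, mem_biUnion]
    constructor
    · rintro ⟨⟨u, hu, hv⟩, hv'⟩
      exact ⟨u, hu, hv, hv'⟩
    · rintro ⟨u, hu, hv, hv'⟩
      exact ⟨⟨u, hu, hv⟩, hv'⟩
  have hw3 : ((K.biUnion (rpts (tlo G T hm) X z) \ J.biUnion (CP G Z T S)).card : ℤ)
      = ∑ u ∈ K, ((rpts (tlo G T hm) X z u \ J.biUnion (CP G Z T S)).card : ℤ) := by
    rw [hsd, card_biUnion hdis]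
    push_cast
    rfl
  have hw1 : ∀ u ∈ K, ((rpts (tlo G T hm) X z u \ J.biUnion (CP G Z T S)).card : ℤ)
      ≤ 2 * (ikp (tlo G T hm) z u : ℤ) - if ho u ∈ J then (ipc u : ℤ) else 0 := by
    intro u hu
    obtain ⟨x, hx, hux, hxo⟩ := hown u hu
    have h2 := Fam.pts_le (J := J) h hx hux (hk u hu) hX hX1
    rw [hxo]
    by_cases h3 : x ∈ J
    · rw [if_pos h3] at h2 ⊢
      have : ((rpts (tlo G T hm) X z u \ J.biUnion (CP G Z T S)).card : ℤ) + ipc u
        ≤ 2 * (ikp (tlo G T hm) z u : ℤ) := by exact_mod_cast h2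
      linarith
    · rw [if_neg h3] at h2 ⊢
      have : ((rpts (tlo G T hm) X z u \ J.biUnion (CP G Z T S)).card : ℤ)
        ≤ 2 * (ikp (tlo G T hm) z u : ℤ) := by exact_mod_cast h2
      linarith
  have hw2 : ∀ u ∈ K, (ikp (tlo G T hm) z u : ℤ)
      ≤ ((rpts (tlo G T hm) X z u \ J.biUnion (CP G Z T S)).card : ℤ) := by
    intro u hu
    obtain ⟨x, hx, hux, -⟩ := hown u hu
    exact_mod_cast Fam.ikp_le_pts (X := X) hW h hx hux hJ z
  have hk1 : ∀ u ∈ K, (1 : ℤ) ≤ (ikp (tlo G T hm) z u : ℤ) := fun u hu => by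
    exact_mod_cast Nat.one_le_iff_ne_zero.2 (hk u hu)
  -- the missed class points
  have hnd : ∑ j ∈ J, ∑ v ∈ K.biUnion (rpts (tlo G T hm) X z) \ J.biUnion (CP G Z T S),
        (nd G (CP G Z T S j) v : ℤ)
      = ∑ u ∈ K, ∑ j ∈ J, ∑ v ∈ rpts (tlo G T hm) X z u \ J.biUnion (CP G Z T S),
        (nd G (CP G Z T S j) v : ℤ) := by
    have e1 : ∀ j ∈ J, ∑ v ∈ K.biUnion (rpts (tlo G T hm) X z) \ J.biUnion (CP G Z T S),
        (nd G (CP G Z T S j) v : ℤ)
        = ∑ u ∈ K, ∑ v ∈ rpts (tlo G T hm) X z u \ J.biUnion (CP G Z T S),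
          (nd G (CP G Z T S j) v : ℤ) := fun j _ => by
      rw [hsd, sum_biUnion hdis]
    rw [sum_congr rfl e1, sum_comm]
  have hcost : ∀ u ∈ K, ∑ j ∈ J, ∑ v ∈ rpts (tlo G T hm) X z u \ J.biUnion (CP G Z T S),
        (nd G (CP G Z T S j) v : ℤ)
        - ((J.card : ℤ) - 1) * ((r : ℤ) - 1)
          * ((rpts (tlo G T hm) X z u \ J.biUnion (CP G Z T S)).card : ℤ)
      ≤ if ho u ∈ J then (iar G (CP G Z T S (ho u)) u : ℤ)
              + (ikp (tlo G T hm) z u : ℤ) * (∑ l ∈ J.erase (ho u), ((CP G Z T S l).card : ℤ)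
                - ((J.card : ℤ) - 1) * ((r : ℤ) - 1))
            else 2 * (ikp (tlo G T hm) z u : ℤ) * (∑ j ∈ J, ((CP G Z T S j).card : ℤ)
                - ((J.card : ℤ) - 1) * ((r : ℤ) - 1)) := by
    intro u hu
    obtain ⟨x, hx, hux, hxo⟩ := hown u hu
    rw [hxo]
    have hall : ∀ j, ∑ v ∈ rpts (tlo G T hm) X z u \ J.biUnion (CP G Z T S),
        (nd G (CP G Z T S j) v : ℤ)
        ≤ ((rpts (tlo G T hm) X z u \ J.biUnion (CP G Z T S)).card : ℤ) * (CP G Z T S j).card := by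
      intro j
      have h4 : ∑ v ∈ rpts (tlo G T hm) X z u \ J.biUnion (CP G Z T S), (nd G (CP G Z T S j) v : ℤ)
          ≤ ∑ _v ∈ rpts (tlo G T hm) X z u \ J.biUnion (CP G Z T S), ((CP G Z T S j).card : ℤ) :=
        sum_le_sum fun v _ => by
          have : nd G (CP G Z T S j) v ≤ (CP G Z T S j).card := card_filter_le _ _
          exact_mod_cast this
      rw [sum_const, nsmul_eq_mul] at h4
      exact h4
    have hP := hw1 u hu
    have hP2 := hw2 u hu
    rw [hxo] at hP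
    generalize hp : ((rpts (tlo G T hm) X z u \ J.biUnion (CP G Z T S)).card : ℤ) = P at *
    by_cases h3 : x ∈ J
    · rw [if_pos h3]
      have h4 : ∑ v ∈ rpts (tlo G T hm) X z u \ J.biUnion (CP G Z T S),
          (nd G (CP G Z T S x) v : ℤ) ≤ iar G (CP G Z T S x) u := by
        have h5 := Fam.nd_own (z := z) (X := X) h hx hux hX
        have h6 : ∑ v ∈ rpts (tlo G T hm) X z u \ J.biUnion (CP G Z T S), nd G (CP G Z T S x) v
            ≤ ∑ v ∈ rpts (tlo G T hm) X z u \ CP G Z T S x, nd G (CP G Z T S x) v :=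
          sum_le_sum_of_subset (sdiff_subset_sdiff (Subset.refl _)
            (subset_biUnion_of_mem (CP G Z T S) h3))
        exact_mod_cast h6.trans h5
      rw [← add_sum_erase J _ h3]
      have h5 : ∑ l ∈ J.erase x, ∑ v ∈ rpts (tlo G T hm) X z u \ J.biUnion (CP G Z T S),
          (nd G (CP G Z T S l) v : ℤ) ≤ P * ∑ l ∈ J.erase x, ((CP G Z T S l).card : ℤ) := by
        rw [mul_sum]
        exact sum_le_sum fun l _ => hall l
      have h6 : ∑ l ∈ J.erase x, ((CP G Z T S l).card : ℤ) ≤ ((J.card : ℤ) - 1) * ((r : ℤ) - 1) := by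
        have h7 : ((J.erase x).card : ℤ) = (J.card : ℤ) - 1 := by
          have := card_erase_add_one h3
          have : ((J.erase x).card : ℤ) + 1 = J.card := by exact_mod_cast this
          linarith
        have h8 : ∑ l ∈ J.erase x, ((CP G Z T S l).card : ℤ) ≤ ∑ _l ∈ J.erase x, ((r : ℤ) - 1) :=
          sum_le_sum fun l hl => hcr l (mem_of_mem_erase hl)
        rw [sum_const, nsmul_eq_mul, h7] at h8
        exact h8
      nlinarith
    · rw [if_neg h3] at hP ⊢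
      have h5 : ∑ j ∈ J, ∑ v ∈ rpts (tlo G T hm) X z u \ J.biUnion (CP G Z T S),
          (nd G (CP G Z T S j) v : ℤ) ≤ P * ∑ j ∈ J, ((CP G Z T S j).card : ℤ) := by
        rw [mul_sum]
        exact sum_le_sum fun l _ => hall l
      nlinarith
  have hcost' := sum_le_sum hcost
  rw [sum_sub_distrib, ← mul_sum, ← hw3, ← hnd] at hcost'
  -- the used class points
  have hq : ∀ j ∈ J, ((CP G Z T S j ∩ K.biUnion (rpts (tlo G T hm) X z)).card : ℤ)
        * (pcz (tlo G T hm) j (U z)).card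
      ≤ (∑ u ∈ K, (if ho u = j then (ipc u : ℤ) else 0))
          * (∑ u ∈ U z, (ipc u : ℤ) * ikp (tlo G T hm) j u) := by
    intro j hj
    have h2 := Fam.card_colW (z := z) (X := X) hC hW h (hJ hj) hK hX
    have h3 : ∑ u ∈ K, (if u ∈ U j then (ipc u : ℤ) else 0)
        ≤ ∑ u ∈ K, (if ho u = j then (ipc u : ℤ) else 0) := by
      refine sum_le_sum fun u hu => ?_
      by_cases h4 : u ∈ U j
      · rw [if_pos h4, if_pos (hho j (hJ hj) u h4)]
      · rw [if_neg h4]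
        split_ifs <;> positivity
    refine mul_le_mul (h2.trans h3) card_pcz_le (Nat.cast_nonneg _) ?_
    exact sum_nonneg fun u _ => by split_ifs <;> positivity
  have hq' := sum_le_sum hq
  have hih : ∀ j, ∑ u ∈ U z, (((CP G Z T S j).card : ℤ) * ikp (tlo G T hm) j u
        - (CP G Z T S j ∩ icl G (CP G Z T S) (tlo G T hm) j u).card)
      = ∑ u ∈ U z, iht G (CP G Z T S) (tlo G T hm) j u := by
    intro j
    refine sum_congr rfl fun u _ => ?_
    have h2 : CP G Z T S j ∩ icl G (CP G Z T S) (tlo G T hm) j u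
        = icl G (CP G Z T S) (tlo G T hm) j u := inter_eq_right.2 rcl_sub
    rw [h2]
    rfl
  simp only [hih] at h1
  have hw4 := sum_le_sum hw1
  have hw5 := sum_le_sum hw2
  rw [← hw3] at hw4 hw5
  have hqK : ∑ u ∈ K, (if ho u ∈ J then (ipc u : ℤ) else 0) ≤ ∑ u ∈ K, (ikp (tlo G T hm) z u : ℤ) := by
    refine sum_le_sum fun u hu => ?_
    have h2 := hk1 u hu
    rcases u with Q | e
    · split_ifs <;> simp [ipc] <;> omega
    · split_ifs
      · simpa [ipc] using h2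
      · linarith
  have hsum : ∑ u ∈ K, (2 * (ikp (tlo G T hm) z u : ℤ) - if ho u ∈ J then (ipc u : ℤ) else 0)
      = 2 * ∑ u ∈ K, (ikp (tlo G T hm) z u : ℤ) - ∑ u ∈ K, (if ho u ∈ J then (ipc u : ℤ) else 0) := by
    rw [sum_sub_distrib, mul_sum]
  have hKe : K = ∅ → ∑ u ∈ K, (ikp (tlo G T hm) z u : ℤ) = 0 := fun h2 => by rw [h2]; rfl
  have hKn : K.Nonempty → 1 ≤ ∑ u ∈ K, (ikp (tlo G T hm) z u : ℤ) := by
    rintro ⟨u, hu⟩
    have h2 : (ikp (tlo G T hm) z u : ℤ) ≤ ∑ u ∈ K, (ikp (tlo G T hm) z u : ℤ) :=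
      single_le_sum (f := fun u => (ikp (tlo G T hm) z u : ℤ)) (fun _ _ => Nat.cast_nonneg _) hu
    linarith [hk1 u hu]
  have hq0 : 0 ≤ ∑ u ∈ K, (if ho u ∈ J then (ipc u : ℤ) else 0) :=
    sum_nonneg fun u _ => by split_ifs <;> positivity
  rw [hsum] at hw4 ⊢
  generalize ((K.biUnion (rpts (tlo G T hm) X z) \ J.biUnion (CP G Z T S)).card : ℤ) = w at *
  generalize (∑ u ∈ K, (ikp (tlo G T hm) z u : ℤ)) = κ at *
  generalize (∑ u ∈ K, (if ho u ∈ J then (ipc u : ℤ) else 0)) = q at *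
  have h5 : 0 ≤ (2 * κ - q - w) * (2 * (((S z).card : ℤ) - r + 1) + (2 * κ - q) + w - 1) := by
    exact mul_nonneg (by linarith) (by linarith)
  nlinarith

end RowMulI

end Pool.Agent.Lib.MP_f04ccf_co
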