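import Pool.Agent.Lib.MP_f04ccf_co.M.NumZ
import Pool.Agent.Lib.MP_f04ccf_co.M.UnI
import Pool.Agent.Lib.MP_f04ccf_co.M.HubD

/-!
MP_f04ccf_co, TEXT D, middle range: **one row as numbers** (`RowZ`), for the kernel loops.

Row `z`, `A = t z + 1`, `d = mu z - s z`; for every other row `y` the numbers

* `B = t y + 1`; `be`, `bk` the PC pairs hosted at `z` with tail `y` and the Konig ones; `q` the PC pairs of the
  host `y` with tail `z`;
* `m`, `mb`, `mh` the plain items of value one hosted at `z` with main end `y`, their misses at `y`, the number of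
  those with another end; `c` the units of the other plain hosted items (cliques) with main end `y`;
* `k`, `kb`, `ka`, `k1` the plain pieces of the host `y` with main end `z`, their misses at `z`, their items, the
  items of value one; `ar` their arcs (items with another end than `z`);
* `sg`: the single parts; `hc` the number of hosted cliques; `nn` the excess of the PC pairs.

`LevC.rowZ`: every row of `PCon` with levels satisfies `RowZ`.
-/

set_option autoImplicit false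

namespace Pool.Agent.Lib.MP_f04ccf_co

open Finset

attribute [local instance] Classical.propDecidable

/-- the own-cell filter: `m` hosted kept (misses `mb`), `M` PC pairs, `k` used pieces (misses and arcs `w`) of
`ka` items, `k1` of value one, block arcs `X` -/
def FilN (R A B G m mb M k w ka k1 X : ℤ) : Prop :=
  2 * ((R + 1 - B - A) * (m + M + k) - mb - w) - 2 * (R + 1 - B) + m * (m + M + k + ka + 1)
    + M * (m + k + ka) + (k - ka) * (m + M + k + ka + 1) + k1 * (k1 - 1) - 2 * X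
    ≤ 2 * ((B - 1 - (m + M + k + ka)) * (G - m - (m + M + k)))

/-- the exact row test: `m` the kept hosted value, `k` used pieces of `ka` items, misses `b`, `N` the energy -/
def TesN (R A d m k ka b sv N : ℤ) : Prop :=
  2 * ((R - (m + k + ka)) * (m + k - d)) + (m + k - ka) * (m + k + ka + 1) + sv
    ≤ 2 * (A * (m + k) + b) + N

section RowZ

variable {ι : Type*} {R : ℤ} {n : ℕ} {t s mu : ℕ → ℤ} {U : Finset ι} {ho : ι → ℕ} {vl : ι → ℤ}
  {kp mn : ℕ → ι → ℤ} {pc ar : ι → ℤ} {be kq NN sg : ℕ → ℕ → ℤ} {nu : ℕ → ι → ℤ} {z y : ℕ}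

/-- **the exact row test in numbers**: the Konig pairs of the tails in `X` out, any used items at levels -/
theorem PCon.rowTs (H : PCon R n t s mu U ho vl kp mn pc ar be kq NN sg nu) (hz : z < n)
    {X : Finset ℕ} (hX : X ⊆ (range n).erase z) {K : Finset ι} (hK : K ⊆ U)
    (hKz : ∀ u ∈ K, ho u ≠ z) {g : ι → ℕ} (hg : ∀ u ∈ K, 1 ≤ g u)
    (hg' : ∀ u ∈ K, (g u : ℤ) ≤ kp z u) {sv : ℤ}
    (hs : sv ≤ ∑ x ∈ (range n).erase z, ((K.filter fun u => ho u = x ∧ vl u = 1).card : ℤ)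
      * (((K.filter fun u => ho u = x ∧ vl u = 1).card : ℤ) - 1)) :
    TesN R (t z + 1) (mu z - s z) (mu z - ∑ l ∈ X, kq z l) (∑ u ∈ K, (g u : ℤ)) (K.card : ℤ)
      (∑ u ∈ K, msP kp mn z g u) sv
      (∑ l ∈ X, (be z l - kq z l) * (be z l - kq z l + 1)
        + ∑ l ∈ (range n).erase z \ X, NN z l) := by
  have h1 := H.tT z hz X (hX.trans (erase_subset _ _)) ∅ (empty_subset _) ∅ (empty_subset _)
    (fun u hu => absurd hu (notMem_empty u)) K hK hKz g hg hg'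
  have h2 : sv ≤ svP n ho vl K g := by
    refine hs.trans ?_
    unfold svP
    refine le_trans ?_ (sum_le_sum_of_subset_of_nonneg (erase_subset z (range n)) fun x _ _ => ?_)
    · refine sum_le_sum fun x _ => tri_mono (card_le_card fun u hu => ?_)
      obtain ⟨h3, h4, h5⟩ := mem_filter.1 hu
      refine mem_filter.2 ⟨h3, h4, ?_⟩
      have h6 := hg u h3
      have h7 := hg' u h3
      have h8 := H.kv u (hK h3) z hz
      rw [h5] at h8 ⊢
      have h9 : (1 : ℤ) ≤ (g u : ℤ) := by exact_mod_cast h6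
      linarith
    · have := tri_mono (Nat.zero_le (K.filter fun u => ho u = x ∧ (g u : ℤ) = vl u).card)
      simpa using this
  have h3 : ∑ u ∈ K, ((g u : ℤ) + 1) = ∑ u ∈ K, (g u : ℤ) + (K.card : ℤ) := by
    rw [sum_add_distrib, sum_const, nsmul_eq_mul, mul_one]
  rw [h3] at h1
  simp only [sum_empty, sdiff_empty, mul_zero, add_zero, sub_zero] at h1
  unfold TstP at h1
  unfold TesN
  linarith

/-- **tzN in numbers** -/
theorem PCon.rowTn (H : PCon R n t s mu U ho vl kp mn pc ar be kq NN sg nu) (hz : z < n)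
    {K : Finset ι} (hK : K ⊆ U) (hKz : ∀ u ∈ K, ho u ≠ z) {g : ι → ℕ} (hg : ∀ u ∈ K, 1 ≤ g u)
    (hg' : ∀ u ∈ K, (g u : ℤ) ≤ kp z u) {e : ℤ} (he : e = mu z + ∑ u ∈ K, (g u : ℤ))
    (h2 : 2 * e ≤ R) :
    (R - 2 * e) * (e - (mu z - s z)) ≤ (t z + 1) * e + ∑ u ∈ K, msP kp mn z g u := by
  subst he
  have h3 := H.tN z hz K hK hKz g hg hg' h2
  linarith

/-- a subset of given size with at most the average -/
lemma exists_lowN {α : Type*} (f : α → ℤ) (k : ℕ) : ∀ (N : ℕ) (K : Finset α), K.card = N → k ≤ N →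
    ∃ K' ⊆ K, K'.card = k ∧ (K.card : ℤ) * ∑ u ∈ K', f u ≤ (k : ℤ) * ∑ u ∈ K, f u := by
  intro N
  induction N with
  | zero =>
    intro K hK hk
    exact ⟨K, Subset.refl _, by omega, by
      have : k = 0 := by omega
      subst this
      rw [hK]⟩
  | succ N ih =>
    intro K hK hk
    rcases Nat.lt_or_ge N k with h1 | h1
    · exact ⟨K, Subset.refl _, by omega, by
        have : k = N + 1 := by omega
        rw [hK, this]⟩
    · have hne : K.Nonempty := card_pos.1 (by omega)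
      obtain ⟨a, ha, hmax⟩ := exists_max_image K f hne
      have hc : (K.erase a).card = N := by rw [card_erase_of_mem ha]; omega
      obtain ⟨K', h2, h3, h4⟩ := ih (K.erase a) hc h1
      refine ⟨K', h2.trans (erase_subset _ _), h3, ?_⟩
      have h5 := add_sum_erase K f ha
      have h6 : ∑ u ∈ K, f u ≤ (K.card : ℤ) * f a := by
        rw [← nsmul_eq_mul]
        exact sum_le_card_nsmul K f (f a) hmax
      rw [hc] at h4
      rw [hK] at h6 ⊢
      push_cast at h6 ⊢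
      rcases Nat.eq_zero_or_pos N with h7 | h7
      · have h8 : k = 0 := by omega
        have h9 : K' = ∅ := card_eq_zero.1 (by omega)
        rw [h9, h8, sum_empty]
        simp
      · have h8 : (0 : ℤ) < N := by exact_mod_cast h7
        have h9 : (0 : ℤ) ≤ k := Nat.cast_nonneg _
        -- (N+1) S(erase) ≤ N S(K)
        have h10 : ((N : ℤ) + 1) * ∑ u ∈ K.erase a, f u ≤ N * ∑ u ∈ K, f u := by
          have h5' : ∑ u ∈ K.erase a, f u = ∑ u ∈ K, f u - f a := by linarith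
          rw [h5']
          have : ((N : ℤ) + 1) * (∑ u ∈ K, f u - f a)
              = N * ∑ u ∈ K, f u + (∑ u ∈ K, f u - (N + 1) * f a) := by ring
          rw [this]
          linarith
        have h11 := mul_le_mul_of_nonneg_left h10 h9
        have h12 := mul_le_mul_of_nonneg_left h4 (by linarith : (0 : ℤ) ≤ (N : ℤ) + 1)
        have h13 : (N : ℤ) * (((N : ℤ) + 1) * ∑ u ∈ K', f u) ≤ N * (k * ∑ u ∈ K, f u) := by
          linarith
        exact le_of_mul_le_mul_left h13 h8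

/-- **one row in numbers** -/
structure RowZ (R : ℤ) (P : Finset ℕ) (A d mu hc : ℤ)
    (B be bk q m mb mh c k kb ka k1 k1b k1w ar sg nn : ℕ → ℤ) : Prop where
  A1 : 1 ≤ A
  B1 : ∀ y ∈ P, 1 ≤ B y
  P4 : 4 ≤ P.card
  mass : A + ∑ y ∈ P, B y ≤ R
  d0 : 0 ≤ d
  dA : d ≤ A
  bk0 : ∀ y ∈ P, 0 ≤ bk y
  bkb : ∀ y ∈ P, bk y ≤ be y
  q0 : ∀ y ∈ P, 0 ≤ q y
  bq : ∀ y ∈ P, be y + q y ≤ B y
  m0 : ∀ y ∈ P, 0 ≤ m y
  mb0 : ∀ y ∈ P, 0 ≤ mb y ∧ mb y ≤ m y * (R - (B y - 1))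
  mh0 : ∀ y ∈ P, 0 ≤ mh y ∧ mh y ≤ m y
  c0 : ∀ y ∈ P, 0 ≤ c y
  k0 : ∀ y ∈ P, 0 ≤ k1 y ∧ k1 y ≤ ka y ∧ ka y ≤ k y
  kb0 : ∀ y ∈ P, 0 ≤ k1b y ∧ k1b y ≤ k1w y ∧ k1b y ≤ kb y ∧ k1w y ≤ kb y + ar y
  kbc : ∀ y ∈ P, k1b y ≤ k1 y * (R - (A - 1)) ∧ kb y ≤ ka y * (R - (A - 1))
  sg0 : ∀ y ∈ P, 0 ≤ sg y
  muS : mu = ∑ y ∈ P, (be y + m y + c y)
  hc0 : 0 ≤ hc
  hc2 : 2 * hc ≤ ∑ y ∈ P, c y
  sgs : ∑ y ∈ P, sg y + (∑ y ∈ P, m y + hc) ≤ A - d
  nn0 : ∀ y ∈ P, 0 ≤ nn y
  nnz : ∀ y ∈ P, be y = 0 → nn y = 0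
  nnb : ∀ y ∈ P, ∀ v : ℤ, 0 ≤ v → 1 + (A - 1) * (B y - 1) < (v + 1) ^ 2 →
    nn y ≤ be y * (be y + 1) + 2 * (be y * v)
  /- the own-cell filter, everything kept and used -/
  fil : ∀ y ∈ P, ∀ p : ℤ, 0 ≤ p → (∀ l ∈ P, l ≠ y → be l - bk l ≤ p) →
    FilN R A (B y) (d + (∑ y ∈ P, m y + hc)) (m y) (mb y) (be y + q y) (k y) (kb y + ar y) (ka y)
      (k1 y) (∑ l ∈ P.erase y, (be l - bk l) * sg l + mh y * p)
  /- the own-cell filter, `m'` hosted and `k'` used value-one items -/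
  filp : ∀ y ∈ P, ∀ m' k' : ℕ, (m' : ℤ) ≤ m y → (k' : ℤ) ≤ k1 y → ∀ p : ℤ, 0 ≤ p →
    (∀ l ∈ P, l ≠ y → be l - bk l ≤ p) → ∃ mb' w' : ℤ, 0 ≤ mb' ∧ 0 ≤ w' ∧
      m y * mb' ≤ m' * mb y ∧ k1 y * w' ≤ k' * k1w y ∧
      FilN R A (B y) (d + (∑ y ∈ P, m y + hc)) m' mb' (be y + q y) k' w' k' k'
        (∑ l ∈ P.erase y, (be l - bk l) * sg l + m' * p)
  /- the exact row test, Konig pairs of `X` out, all served of the hosts in `J` used -/
  tes : ∀ X ⊆ P, ∀ J ⊆ P, TesN R A d (mu - ∑ l ∈ X, bk l) (∑ y ∈ J, (q y + k y))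
    (∑ y ∈ J, (q y + ka y)) (∑ y ∈ J, kb y) (∑ y ∈ J, (q y + k1 y) * (q y + k1 y - 1))
    (∑ l ∈ X, (be l - bk l) * (be l - bk l + 1) + ∑ l ∈ P \ X, nn l)
  /- the same, `q'` and `k'` of the value-one ones -/
  tesp : ∀ X ⊆ P, ∀ q' k' : ℕ → ℕ, (∀ y ∈ P, (q' y : ℤ) ≤ q y ∧ (k' y : ℤ) ≤ k1 y) →
    ∃ b' : ℕ → ℤ, (∀ y ∈ P, 0 ≤ b' y ∧ k1 y * b' y ≤ k' y * k1b y) ∧
      TesN R A d (mu - ∑ l ∈ X, bk l) (∑ y ∈ P, ((q' y : ℤ) + k' y)) (∑ y ∈ P, ((q' y : ℤ) + k' y))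
        (∑ y ∈ P, b' y) (∑ y ∈ P, ((q' y : ℤ) + k' y) * ((q' y : ℤ) + k' y - 1))
        (∑ l ∈ X, (be l - bk l) * (be l - bk l + 1) + ∑ l ∈ P \ X, nn l)
  /- the global bound -/
  glo : ∀ J ⊆ P, mu + ∑ y ∈ J, (q y + k y) - 1 - (R - A) ≤ d
  /- tzN -/
  ten : ∀ J ⊆ P, ∀ e : ℤ, e = mu + ∑ y ∈ J, (q y + k y) → 2 * e ≤ R →
    (R - 2 * e) * (e - d) ≤ A * e + ∑ y ∈ J, kb y
  tenp : ∀ q' k' : ℕ → ℕ, (∀ y ∈ P, (q' y : ℤ) ≤ q y ∧ (k' y : ℤ) ≤ k1 y) →
    ∃ b' : ℕ → ℤ, (∀ y ∈ P, 0 ≤ b' y ∧ k1 y * b' y ≤ k' y * k1b y) ∧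
      ∀ e : ℤ, e = mu + ∑ y ∈ P, ((q' y : ℤ) + k' y) → 2 * e ≤ R →
      (R - 2 * e) * (e - d) ≤ A * e + ∑ y ∈ P, b' y

/-! ### the numbers of a row -/

/-- the plain items of value one hosted at `z` with main end `y` -/
noncomputable def rnM (U : Finset ι) (ho : ι → ℕ) (vl pc : ι → ℤ) (g : ℕ → ι → ℕ) (z y : ℕ) :
    Finset ι := U.filter fun u => ho u = z ∧ pc u = 0 ∧ vl u = 1 ∧ g y u = 1

/-- the cliques hosted at `z` -/
noncomputable def rnC (U : Finset ι) (ho : ι → ℕ) (vl pc : ι → ℤ) (z : ℕ) : Finset ι :=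
  U.filter fun u => ho u = z ∧ pc u = 0 ∧ vl u ≠ 1

/-- the plain items of the host `y` with main level at `z` -/
noncomputable def rnK (U : Finset ι) (ho : ι → ℕ) (pc : ι → ℤ) (g : ℕ → ι → ℕ) (z y : ℕ) :
    Finset ι := U.filter fun u => ho u = y ∧ pc u = 0 ∧ g z u ≠ 0

/-- the PC items of the host `y` with tail `z` -/
noncomputable def rnQ (U : Finset ι) (ho : ι → ℕ) (kp : ℕ → ι → ℤ) (pc : ι → ℤ) (z y : ℕ) :
    Finset ι := U.filter fun u => ho u = y ∧ pc u = 1 ∧ kp z u ≠ 0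

/-- the arcs of an item of the host `y` used at `z` -/
noncomputable def rnA (n : ℕ) (kp : ℕ → ι → ℤ) (be : ℕ → ℕ → ℤ) (z y : ℕ) (u : ι) : ℤ :=
  if ∃ l < n, l ≠ z ∧ kp l u ≠ 0 then
    ∑ l ∈ ((range n).erase y).filter (fun l => kp l u ≠ 0), be y l else 0

variable {φ : ι → ℕ → ℤ} {g : ℕ → ι → ℕ} {f : ι → ℕ}

/-- the value of a hosted item by the levels -/
lemma LevC.vl_sum (C : LevC n U ho vl kp mn pc φ g f) {u : ι} (hu : u ∈ U) (hz : z < n)
    (h : ho u = z) : vl u = ∑ i ∈ (range n).erase z, (g i u : ℤ) := by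
  have h1 := add_sum_erase (range n) (fun i => (g i u : ℤ)) (mem_range.2 hz)
  have h2 := C.home u hu
  rw [h] at h2
  rw [← C.sum u hu, ← h1, h2]
  simp

/-- an item of value one has level zero or one -/
lemma LevC.lev01 (C : LevC n U ho vl kp mn pc φ g f)
    (H : PCon R n t s mu U ho vl kp mn pc ar be kq NN sg nu) {u : ι} (hu : u ∈ U) (h : vl u = 1)
    {i : ℕ} (hi : i < n) : g i u = 0 ∨ g i u = 1 := by
  have h1 := C.le u hu i hi
  have h2 := H.kv u hu i hi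
  omega

/-- the levels of a PC item -/
lemma LevC.lev_pc (C : LevC n U ho vl kp mn pc φ g f)
    (H : PCon R n t s mu U ho vl kp mn pc ar be kq NN sg nu) {u : ι} (hu : u ∈ U) (h : pc u ≠ 0)
    {i : ℕ} (hi : i < n) : (g i u : ℤ) = kp i u := by
  rcases C.typ u hu with ⟨-, h1, h2, -, h3⟩ | ⟨h1, -⟩
  · by_cases h4 : i = f u
    · rw [h4, h1, h2]
      rfl
    · have h5 := C.le u hu i hi
      rw [h3 i hi h4] at h5 ⊢
      have h6 : (0 : ℤ) ≤ (g i u : ℤ) := Nat.cast_nonneg _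
      linarith
  · exact absurd h1 h

lemma LevC.rnM_sum (C : LevC n U ho vl kp mn pc φ g f)
    (H : PCon R n t s mu U ho vl kp mn pc ar be kq NN sg nu) (hz : z < n) :
    ((U.filter fun u => ho u = z ∧ pc u = 0 ∧ vl u = 1).card : ℤ)
      = ∑ y ∈ (range n).erase z, ((rnM U ho vl pc g z y).card : ℤ) := by
  have h1 : ∀ y ∈ (range n).erase z, ((rnM U ho vl pc g z y).card : ℤ)
      = ∑ u ∈ U.filter (fun u => ho u = z ∧ pc u = 0 ∧ vl u = 1), (g y u : ℤ) := by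
    intro y hy
    have h2 : rnM U ho vl pc g z y
        = (U.filter fun u => ho u = z ∧ pc u = 0 ∧ vl u = 1).filter fun u => g y u = 1 := by
      unfold rnM
      rw [filter_filter]
      refine filter_congr fun u _ => ?_
      tauto
    rw [h2, card_filter]
    push_cast
    refine sum_congr rfl fun u hu => ?_
    obtain ⟨h3, h4, h5, h6⟩ := mem_filter.1 hu
    rcases C.lev01 H h3 h6 (mem_range.1 (mem_of_mem_erase hy)) with h7 | h7
    · rw [h7, if_neg (by norm_num)]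
      rfl
    · rw [h7, if_pos rfl]
      rfl
  rw [sum_congr rfl h1, sum_comm, card_eq_sum_ones]
  push_cast
  refine sum_congr rfl fun u hu => ?_
  obtain ⟨h3, h4, h5, h6⟩ := mem_filter.1 hu
  rw [← C.vl_sum h3 hz h4, h6]

/-- **the hosted value** -/
lemma LevC.rn_mu (C : LevC n U ho vl kp mn pc φ g f)
    (H : PCon R n t s mu U ho vl kp mn pc ar be kq NN sg nu) (hz : z < n) :
    mu z = ∑ y ∈ (range n).erase z, (be z y + ((rnM U ho vl pc g z y).card : ℤ)
      + ∑ u ∈ rnC U ho vl pc z, (g y u : ℤ)) := by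
  have h1 := H.split_pc (z := z) (D := ∅) (fun u hu => absurd hu (notMem_empty u)) vl
  have h2 : (U.filter fun u => ho u = z ∧ u ∉ (∅ : Finset ι)) = U.filter fun u => ho u = z :=
    filter_congr fun u _ => ⟨fun h => h.1, fun h => ⟨h, notMem_empty u⟩⟩
  have h3 : ∑ u ∈ U.filter (fun u => ho u = z), pc u * vl u
      = ∑ u ∈ U.filter (fun u => ho u = z), pc u := by
    refine sum_congr rfl fun u hu => ?_
    by_cases h4 : pc u = 0
    · rw [h4, zero_mul]
    · rw [(H.pc_fact (mem_filter.1 hu).1 h4).2.1, mul_one]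
  have h4 : ∑ u ∈ U.filter (fun u => ho u = z ∧ u ∉ (∅ : Finset ι) ∧ pc u = 0), vl u
      = ((U.filter fun u => ho u = z ∧ pc u = 0 ∧ vl u = 1).card : ℤ)
        + ∑ u ∈ rnC U ho vl pc z, vl u := by
    have h5 : (U.filter fun u => ho u = z ∧ u ∉ (∅ : Finset ι) ∧ pc u = 0)
        = U.filter fun u => ho u = z ∧ pc u = 0 :=
      filter_congr fun u _ => ⟨fun h => ⟨h.1, h.2.2⟩, fun h => ⟨h.1, notMem_empty u, h.2⟩⟩
    rw [h5, ← sum_filter_add_sum_filter_not (U.filter fun u => ho u = z ∧ pc u = 0)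
      (fun u => vl u = 1), filter_filter, filter_filter]
    congr 1
    · rw [card_eq_sum_ones]
      push_cast
      refine sum_congr ?_ fun u hu => (mem_filter.1 hu).2.2.2
      refine filter_congr fun u _ => ?_
      tauto
    · refine sum_congr ?_ fun _ _ => rfl
      unfold rnC
      refine filter_congr fun u _ => ?_
      tauto
  rw [h2, ← H.hmu z hz, h3, H.pc_tails hz, h4, C.rnM_sum H hz] at h1
  rw [h1, sum_add_distrib, sum_add_distrib, sum_comm (s := (range n).erase z)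
    (t := rnC U ho vl pc z)]
  have h6 : ∑ u ∈ rnC U ho vl pc z, vl u
      = ∑ u ∈ rnC U ho vl pc z, ∑ y ∈ (range n).erase z, (g y u : ℤ) :=
    sum_congr rfl fun u hu => by
      obtain ⟨h7, h8, -⟩ := mem_filter.1 hu
      exact C.vl_sum h7 hz h8
  rw [h6]
  ring

/-- **the number of plain hosted items** -/
lemma LevC.rn_h (C : LevC n U ho vl kp mn pc φ g f)
    (H : PCon R n t s mu U ho vl kp mn pc ar be kq NN sg nu) (hz : z < n) :
    ((U.filter fun u => ho u = z ∧ pc u = 0).card : ℤ)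
      = ∑ y ∈ (range n).erase z, ((rnM U ho vl pc g z y).card : ℤ)
        + ((rnC U ho vl pc z).card : ℤ) := by
  rw [← C.rnM_sum H hz]
  have h1 := card_filter_add_card_filter_not (s := U.filter fun u => ho u = z ∧ pc u = 0)
    (fun u => vl u = 1)
  rw [filter_filter, filter_filter] at h1
  have h2 : (U.filter fun u => (ho u = z ∧ pc u = 0) ∧ vl u = 1)
      = U.filter fun u => ho u = z ∧ pc u = 0 ∧ vl u = 1 := filter_congr fun u _ => by tauto
  have h3 : (U.filter fun u => (ho u = z ∧ pc u = 0) ∧ ¬ vl u = 1) = rnC U ho vl pc z :=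
    filter_congr fun u _ => by tauto
  rw [h2, h3] at h1
  rw [← h1]
  push_cast
  rfl

/-- a clique has at least two units -/
lemma LevC.rn_c2 (C : LevC n U ho vl kp mn pc φ g f)
    (H : PCon R n t s mu U ho vl kp mn pc ar be kq NN sg nu) (hz : z < n) :
    2 * ((rnC U ho vl pc z).card : ℤ)
      ≤ ∑ y ∈ (range n).erase z, ∑ u ∈ rnC U ho vl pc z, (g y u : ℤ) := by
  rw [sum_comm, mul_comm, ← nsmul_eq_mul, ← sum_const]
  refine sum_le_sum fun u hu => ?_
  obtain ⟨h7, h8, -, h9⟩ := mem_filter.1 hu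
  rw [← C.vl_sum h7 hz h8]
  have h10 := H.v1 u h7
  omega

/-! ### families of used items -/

lemma fam_disj {J : Finset ℕ} {S : ℕ → Finset ι} (hS : ∀ y ∈ J, ∀ u ∈ S y, ho u = y) :
    (J : Set ℕ).PairwiseDisjoint S := by
  intro x hx y hy hxy
  rw [Function.onFun, disjoint_left]
  intro u h1 h2
  exact hxy ((hS x hx u h1).symm.trans (hS y hy u h2))

lemma fam_sum {J : Finset ℕ} {S : ℕ → Finset ι} (hS : ∀ y ∈ J, ∀ u ∈ S y, ho u = y)
    (F : ι → ℤ) : ∑ u ∈ J.biUnion S, F u = ∑ y ∈ J, ∑ u ∈ S y, F u :=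
  sum_biUnion (fam_disj hS)

lemma fam_card {J : Finset ℕ} {S : ℕ → Finset ι} (hS : ∀ y ∈ J, ∀ u ∈ S y, ho u = y) :
    ((J.biUnion S).card : ℤ) = ∑ y ∈ J, ((S y).card : ℤ) := by
  rw [card_biUnion (fam_disj hS)]
  push_cast
  rfl

lemma fam_host {J : Finset ℕ} {S : ℕ → Finset ι} (hS : ∀ y ∈ J, ∀ u ∈ S y, ho u = y) {x : ℕ}
    (hx : x ∈ J) : ((J.biUnion S).filter fun u => ho u = x ∧ vl u = 1)
      = (S x).filter fun u => vl u = 1 := by
  ext u
  simp only [mem_filter, mem_biUnion]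
  constructor
  · rintro ⟨⟨y, h1, h2⟩, h3, h4⟩
    have h5 := hS y h1 u h2
    rw [h3] at h5
    subst h5
    exact ⟨h2, h4⟩
  · rintro ⟨h1, h2⟩
    exact ⟨⟨x, hx, h1⟩, hS x hx u h1, h2⟩

lemma fam_host0 {J : Finset ℕ} {S : ℕ → Finset ι} (hS : ∀ y ∈ J, ∀ u ∈ S y, ho u = y) {x : ℕ}
    (hx : x ∉ J) : ((J.biUnion S).filter fun u => ho u = x ∧ vl u = 1) = ∅ := by
  rw [filter_eq_empty_iff]
  intro u hu h1
  obtain ⟨y, h2, h3⟩ := mem_biUnion.1 hu
  have h5 := hS y h2 u h3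
  rw [h1.1] at h5
  subst h5
  exact hx h2

/-- the facts of a PC item used at `z` -/
lemma LevC.rnQ_fact (C : LevC n U ho vl kp mn pc φ g f)
    (H : PCon R n t s mu U ho vl kp mn pc ar be kq NN sg nu) (hz : z < n) {u : ι}
    (hu : u ∈ rnQ U ho kp pc z y) : u ∈ U ∧ ho u = y ∧ pc u = 1 ∧ vl u = 1 ∧ g z u = 1 ∧
      msP kp mn z (g z) u = 0 := by
  obtain ⟨h1, h2, h3, h4⟩ := mem_filter.1 hu
  have h0 : pc u ≠ 0 := by rw [h3]; norm_num
  have h5 := H.pc_fact h1 h0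
  have h6 := C.lev_pc H h1 h0 hz
  rw [H.kp_one h1 h5.2.1 hz h4] at h6
  refine ⟨h1, h2, h3, h5.2.1, by exact_mod_cast h6, ?_⟩
  unfold msP
  rw [h5.2.2.1 z hz, ite_self]

/-- **a family of used items**: the four numbers -/
lemma LevC.famQK (C : LevC n U ho vl kp mn pc φ g f)
    (H : PCon R n t s mu U ho vl kp mn pc ar be kq NN sg nu) (hz : z < n) {Q K : Finset ι}
    (hQ : Q ⊆ rnQ U ho kp pc z y) (hK : K ⊆ rnK U ho pc g z y) :
    ∑ u ∈ Q ∪ K, (g z u : ℤ) = (Q.card : ℤ) + ∑ u ∈ K, (g z u : ℤ) ∧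
    ((Q ∪ K).card : ℤ) = (Q.card : ℤ) + (K.card : ℤ) ∧
    ∑ u ∈ Q ∪ K, msP kp mn z (g z) u = ∑ u ∈ K, msP kp mn z (g z) u ∧
    (((Q ∪ K).filter fun u => vl u = 1).card : ℤ)
      = (Q.card : ℤ) + ((K.filter fun u => vl u = 1).card : ℤ) := by
  have h0 : Disjoint Q K := by
    rw [disjoint_left]
    intro u h1 h2
    have h3 := (C.rnQ_fact H hz (hQ h1)).2.2.1
    rw [(mem_filter.1 (hK h2)).2.2.1] at h3
    exact absurd h3 (by norm_num)
  refine ⟨?_, ?_, ?_, ?_⟩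
  · rw [sum_union h0]
    congr 1
    rw [sum_congr rfl fun u hu => by rw [(C.rnQ_fact H hz (hQ hu)).2.2.2.2.1], sum_const,
      nsmul_eq_mul]
    simp
  · rw [card_union_of_disjoint h0]
    push_cast
    rfl
  · rw [sum_union h0, sum_eq_zero fun u hu => (C.rnQ_fact H hz (hQ hu)).2.2.2.2.2, zero_add]
  · have h1 : ((Q ∪ K).filter fun u => vl u = 1) = Q ∪ (K.filter fun u => vl u = 1) := by
      ext u
      simp only [mem_filter, mem_union]
      constructor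
      · rintro ⟨h1 | h1, h2⟩
        · exact Or.inl h1
        · exact Or.inr ⟨h1, h2⟩
      · rintro (h1 | ⟨h1, h2⟩)
        · exact ⟨Or.inl h1, (C.rnQ_fact H hz (hQ h1)).2.2.2.1⟩
        · exact ⟨Or.inr h1, h2⟩
    rw [h1, card_union_of_disjoint (disjoint_of_subset_right (filter_subset _ _) h0)]
    push_cast
    rfl

lemma LevC.fam_ok (C : LevC n U ho vl kp mn pc φ g f)
    (H : PCon R n t s mu U ho vl kp mn pc ar be kq NN sg nu) (hz : z < n) {J : Finset ℕ}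
    (hJ : J ⊆ (range n).erase z) {Q K : ℕ → Finset ι}
    (hQ : ∀ y ∈ J, Q y ⊆ rnQ U ho kp pc z y) (hK : ∀ y ∈ J, K y ⊆ rnK U ho pc g z y) :
    (∀ y ∈ J, ∀ u ∈ Q y ∪ K y, ho u = y) ∧ J.biUnion (fun y => Q y ∪ K y) ⊆ U ∧
      ∀ u ∈ J.biUnion (fun y => Q y ∪ K y), ho u ≠ z ∧ 1 ≤ g z u ∧ (g z u : ℤ) ≤ kp z u := by
  have h0 : ∀ y ∈ J, ∀ u ∈ Q y ∪ K y, u ∈ U ∧ ho u = y ∧ 1 ≤ g z u := by
    intro y hy u hu
    rcases mem_union.1 hu with h1 | h1
    · have h2 := C.rnQ_fact H hz (hQ y hy h1)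
      exact ⟨h2.1, h2.2.1, h2.2.2.2.2.1.ge⟩
    · obtain ⟨h2, h3, -, h4⟩ := mem_filter.1 (hK y hy h1)
      exact ⟨h2, h3, Nat.one_le_iff_ne_zero.2 h4⟩
  refine ⟨fun y hy u hu => (h0 y hy u hu).2.1, fun u hu => ?_, fun u hu => ?_⟩
  · obtain ⟨y, h1, h2⟩ := mem_biUnion.1 hu
    exact (h0 y h1 u h2).1
  · obtain ⟨y, h1, h2⟩ := mem_biUnion.1 hu
    obtain ⟨h3, h4, h5⟩ := h0 y h1 u h2
    refine ⟨?_, h5, C.le u h3 z hz⟩
    rw [h4]
    exact ne_of_mem_erase (hJ h1)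

/-- **the exact row test, families of used items** -/
theorem LevC.tesF (C : LevC n U ho vl kp mn pc φ g f)
    (H : PCon R n t s mu U ho vl kp mn pc ar be kq NN sg nu) (hz : z < n) {J X : Finset ℕ}
    (hJ : J ⊆ (range n).erase z) (hX : X ⊆ (range n).erase z) {Q K : ℕ → Finset ι}
    (hQ : ∀ y ∈ J, Q y ⊆ rnQ U ho kp pc z y) (hK : ∀ y ∈ J, K y ⊆ rnK U ho pc g z y) :
    TesN R (t z + 1) (mu z - s z) (mu z - ∑ l ∈ X, kq z l)
      (∑ y ∈ J, (((Q y).card : ℤ) + ∑ u ∈ K y, (g z u : ℤ)))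
      (∑ y ∈ J, (((Q y).card : ℤ) + ((K y).card : ℤ)))
      (∑ y ∈ J, ∑ u ∈ K y, msP kp mn z (g z) u)
      (∑ y ∈ J, (((Q y).card : ℤ) + (((K y).filter fun u => vl u = 1).card : ℤ))
        * (((Q y).card : ℤ) + (((K y).filter fun u => vl u = 1).card : ℤ) - 1))
      (∑ l ∈ X, (be z l - kq z l) * (be z l - kq z l + 1)
        + ∑ l ∈ (range n).erase z \ X, NN z l) := by
  obtain ⟨h1, h2, h3⟩ := C.fam_ok H hz hJ hQ hK
  have h4 := H.rowTs hz hX h2 (fun u hu => (h3 u hu).1) (g := g z) (fun u hu => (h3 u hu).2.1)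
    (fun u hu => (h3 u hu).2.2)
    (sv := ∑ y ∈ J, (((Q y).card : ℤ) + (((K y).filter fun u => vl u = 1).card : ℤ))
        * (((Q y).card : ℤ) + (((K y).filter fun u => vl u = 1).card : ℤ) - 1)) (by
      have h5 : ∑ x ∈ (range n).erase z \ J,
          (((J.biUnion fun y => Q y ∪ K y).filter fun u => ho u = x ∧ vl u = 1).card : ℤ)
            * ((((J.biUnion fun y => Q y ∪ K y).filter fun u => ho u = x ∧ vl u = 1).card : ℤ) - 1)
          = 0 := sum_eq_zero fun x hx => by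
        rw [fam_host0 h1 (mem_sdiff.1 hx).2]
        simp
      rw [← sum_sdiff hJ, h5, zero_add]
      refine (sum_congr rfl fun y hy => ?_).le
      rw [fam_host h1 hy, (C.famQK H hz (hQ y hy) (hK y hy)).2.2.2])
  rw [fam_sum h1, fam_card h1, fam_sum h1,
    sum_congr rfl fun y hy => (C.famQK H hz (hQ y hy) (hK y hy)).1,
    sum_congr (s₁ := J) rfl fun y hy => (C.famQK H hz (hQ y hy) (hK y hy)).2.1,
    sum_congr (s₁ := J) rfl fun y hy => (C.famQK H hz (hQ y hy) (hK y hy)).2.2.1] at h4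
  exact h4

/-- **tzN, families of used items** -/
theorem LevC.tenF (C : LevC n U ho vl kp mn pc φ g f)
    (H : PCon R n t s mu U ho vl kp mn pc ar be kq NN sg nu) (hz : z < n) {J : Finset ℕ}
    (hJ : J ⊆ (range n).erase z) {Q K : ℕ → Finset ι}
    (hQ : ∀ y ∈ J, Q y ⊆ rnQ U ho kp pc z y) (hK : ∀ y ∈ J, K y ⊆ rnK U ho pc g z y) {e : ℤ}
    (he : e = mu z + ∑ y ∈ J, (((Q y).card : ℤ) + ∑ u ∈ K y, (g z u : ℤ))) (he2 : 2 * e ≤ R) :
    (R - 2 * e) * (e - (mu z - s z)) ≤ (t z + 1) * e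
      + ∑ y ∈ J, ∑ u ∈ K y, msP kp mn z (g z) u := by
  obtain ⟨h1, h2, h3⟩ := C.fam_ok H hz hJ hQ hK
  have h4 := H.rowTn hz h2 (fun u hu => (h3 u hu).1) (g := g z) (fun u hu => (h3 u hu).2.1)
    (fun u hu => (h3 u hu).2.2) (e := e) (by
      rw [fam_sum h1, sum_congr rfl fun y hy => (C.famQK H hz (hQ y hy) (hK y hy)).1]
      exact he) he2
  rw [fam_sum h1,
    sum_congr (s₁ := J) rfl fun y hy => (C.famQK H hz (hQ y hy) (hK y hy)).2.2.1] at h4
  exact h4

/-! ### the row -/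

/-- the plain items of value one of the host `y` with main end `z` -/
noncomputable def rnK1 (U : Finset ι) (ho : ι → ℕ) (vl pc : ι → ℤ) (g : ℕ → ι → ℕ) (z y : ℕ) :
    Finset ι := (rnK U ho pc g z y).filter fun u => vl u = 1

lemma LevC.rnK1_fact (C : LevC n U ho vl kp mn pc φ g f)
    (H : PCon R n t s mu U ho vl kp mn pc ar be kq NN sg nu) (hz : z < n) {u : ι}
    (hu : u ∈ rnK1 U ho vl pc g z y) : u ∈ U ∧ ho u = y ∧ pc u = 0 ∧ vl u = 1 ∧ g z u = 1 ∧
      kp z u = 1 ∧ msP kp mn z (g z) u = mn z u := by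
  obtain ⟨h1, h2⟩ := mem_filter.1 hu
  obtain ⟨h3, h4, h5, h6⟩ := mem_filter.1 h1
  have h7 : g z u = 1 := (C.lev01 H h3 h2 hz).resolve_left h6
  have h8 := C.le u h3 z hz
  have h9 := H.kv u h3 z hz
  rw [h7] at h8
  have h10 : kp z u = 1 := by
    push_cast at h8
    omega
  refine ⟨h3, h4, h5, h2, h7, h10, ?_⟩
  unfold msP
  rw [h7, h10]
  exact if_pos (by norm_num)

lemma LevC.rnM_fact (C : LevC n U ho vl kp mn pc φ g f) (hy : y < n) {u : ι}
    (hu : u ∈ rnM U ho vl pc g z y) : u ∈ U ∧ ho u = z ∧ pc u = 0 ∧ vl u = 1 ∧ kp y u ≠ 0 := by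
  obtain ⟨h1, h2, h3, h4, h5⟩ := mem_filter.1 hu
  have h6 := C.le u h1 y hy
  rw [h5] at h6
  refine ⟨h1, h2, h3, h4, ?_⟩
  intro h7
  rw [h7] at h6
  norm_num at h6

/-- the pieces of an item of value one: at most two -/
lemma PCon.kp_two (H : PCon R n t s mu U ho vl kp mn pc ar be kq NN sg nu) {u : ι} (hu : u ∈ U)
    (h1 : vl u = 1) : ∑ i ∈ range n, kp i u ≤ 2 := by
  rcases H.one u hu with ⟨i, hi, h2, h3, -, h4⟩ | ⟨-, h2⟩
  · rw [sum_eq_single i (fun j hj hji => h4 j (mem_range.1 hj) hji)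
      (fun h => absurd (mem_range.2 hi) h), h2]
    norm_num
  · rw [h2, h1]
    norm_num

/-- the other ends of a set of hosted items of value one with an end `y` -/
lemma PCon.other_ends (H : PCon R n t s mu U ho vl kp mn pc ar be kq NN sg nu) (hy : y < n)
    (z : ℕ) {S : Finset ι} (hS : ∀ u ∈ S, u ∈ U ∧ vl u = 1 ∧ kp y u ≠ 0) :
    ∑ l ∈ ((range n).erase z).erase y, ((S.filter fun u => kp l u ≠ 0).card : ℤ)
      ≤ ((S.filter fun u => ∃ l < n, l ≠ y ∧ kp l u ≠ 0).card : ℤ) := by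
  have h1 : ∀ l ∈ ((range n).erase z).erase y, ((S.filter fun u => kp l u ≠ 0).card : ℤ)
      ≤ ∑ u ∈ S.filter (fun u => ∃ l < n, l ≠ y ∧ kp l u ≠ 0), kp l u := by
    intro l hl
    have hln : l < n := mem_range.1 (mem_of_mem_erase (mem_of_mem_erase hl))
    have hly : l ≠ y := ne_of_mem_erase hl
    have h2 : ((S.filter fun u => kp l u ≠ 0).card : ℤ)
        ≤ ∑ u ∈ S.filter (fun u => kp l u ≠ 0), kp l u := by
      rw [card_eq_sum_ones]
      push_cast
      refine sum_le_sum fun u hu => ?_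
      obtain ⟨h3, h4⟩ := mem_filter.1 hu
      have h5 := H.k0 u (hS u h3).1 l hln
      omega
    refine h2.trans (sum_le_sum_of_subset_of_nonneg (fun u hu => ?_) fun u hu _ => ?_)
    · obtain ⟨h3, h4⟩ := mem_filter.1 hu
      exact mem_filter.2 ⟨h3, l, hln, hly, h4⟩
    · exact H.k0 u (hS u (mem_filter.1 hu).1).1 l hln
  refine (sum_le_sum h1).trans ?_
  rw [sum_comm, card_eq_sum_ones]
  push_cast
  refine sum_le_sum fun u hu => ?_
  obtain ⟨h3, h4, h5⟩ := hS u (mem_filter.1 hu).1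
  have h6 := H.kp_two h3 h4
  have h7 := add_sum_erase (range n) (fun i => kp i u) (mem_range.2 hy)
  beta_reduce at h7
  have h8 := H.kp_one h3 h4 hy h5
  have h9 : ∑ l ∈ ((range n).erase z).erase y, kp l u ≤ ∑ l ∈ (range n).erase y, kp l u := by
    refine sum_le_sum_of_subset_of_nonneg (fun l hl => ?_) fun l hl _ =>
      H.k0 u h3 l (mem_range.1 (mem_of_mem_erase hl))
    exact mem_erase.2 ⟨ne_of_mem_erase hl, mem_of_mem_erase (mem_of_mem_erase hl)⟩
  linarith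

/-- the block pairs: `p` bounds them in the other columns -/
lemma blk_sum {P : Finset ℕ} {b sg' c : ℕ → ℤ} {p N : ℤ} (hp : ∀ l ∈ P, b l ≤ p)
    (hc : ∀ l ∈ P, 0 ≤ c l) (hp0 : 0 ≤ p) (hN : ∑ l ∈ P, c l ≤ N) :
    ∑ l ∈ P, b l * (sg' l + c l) ≤ ∑ l ∈ P, b l * sg' l + N * p := by
  have h1 : ∑ l ∈ P, b l * c l ≤ ∑ l ∈ P, p * c l :=
    sum_le_sum fun l hl => mul_le_mul_of_nonneg_right (hp l hl) (hc l hl)
  rw [← mul_sum] at h1
  have h2 : ∑ l ∈ P, b l * (sg' l + c l) = ∑ l ∈ P, b l * sg' l + ∑ l ∈ P, b l * c l := by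
    rw [← sum_add_distrib]
    exact sum_congr rfl fun l _ => by ring
  have h3 := mul_le_mul_of_nonneg_left hN hp0
  rw [h2]
  nlinarith

/-- the own-cell filter in `FilN` form -/
lemma LevC.fil_full (C : LevC n U ho vl kp mn pc φ g f)
    (H : PCon R n t s mu U ho vl kp mn pc ar be kq NN sg nu) (hz : z < n)
    (hy : y ∈ (range n).erase z) {p : ℤ} (hp0 : 0 ≤ p)
    (hp : ∀ l ∈ (range n).erase z, l ≠ y → be z l - kq z l ≤ p) :
    FilN R (t z + 1) (t y + 1) (mu z - s z + (∑ y ∈ (range n).erase z,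
        ((rnM U ho vl pc g z y).card : ℤ) + ((rnC U ho vl pc z).card : ℤ)))
      ((rnM U ho vl pc g z y).card : ℤ) (∑ u ∈ rnM U ho vl pc g z y, mn y u)
      (be z y + be y z) (∑ u ∈ rnK U ho pc g z y, (g z u : ℤ))
      (∑ u ∈ rnK U ho pc g z y, msP kp mn z (g z) u
        + ∑ u ∈ rnK U ho pc g z y, rnA n kp be z y u)
      ((rnK U ho pc g z y).card : ℤ) ((rnK1 U ho vl pc g z y).card : ℤ)
      (∑ l ∈ ((range n).erase z).erase y, (be z l - kq z l) * sg z l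
        + (((rnM U ho vl pc g z y).filter fun u => ∃ l < n, l ≠ y ∧ kp l u ≠ 0).card : ℤ) * p) := by
  have hyn : y < n := mem_range.1 (mem_of_mem_erase hy)
  have hyz : y ≠ z := ne_of_mem_erase hy
  have h1 := H.numG hz hyn hyz (P := rnM U ho vl pc g z y) (filter_subset _ _)
    (fun u hu => (C.rnM_fact hyn hu).2) (K := rnK U ho pc g z y) (filter_subset _ _)
    (fun u hu => ⟨(mem_filter.1 hu).2.1, (mem_filter.1 hu).2.2.1⟩) (g := g z)
    (fun u hu => Nat.one_le_iff_ne_zero.2 (mem_filter.1 hu).2.2.2)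
    (fun u hu => C.le u (mem_filter.1 hu).1 z hz) rfl rfl rfl rfl rfl rfl rfl rfl
  rw [C.rn_h H hz] at h1
  have h2 := blk_sum (P := ((range n).erase z).erase y) (b := fun l => be z l - kq z l)
    (sg' := sg z) (c := fun l => (((rnM U ho vl pc g z y).filter fun u => kp l u ≠ 0).card : ℤ))
    (p := p) (fun l hl => hp l (mem_of_mem_erase hl) (ne_of_mem_erase hl))
    (fun l _ => Nat.cast_nonneg _) hp0
    (H.other_ends hyn z (fun u hu => by
      obtain ⟨h3, h4, h5, h6, h7⟩ := C.rnM_fact hyn hu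
      exact ⟨h3, h6, h7⟩))
  have h3 : ∑ u ∈ (rnK U ho pc g z y).filter (fun u => ∃ l < n, l ≠ z ∧ kp l u ≠ 0),
        ∑ l ∈ ((range n).erase y).filter (fun l => kp l u ≠ 0), be y l
      = ∑ u ∈ rnK U ho pc g z y, rnA n kp be z y u := by
    rw [sum_filter]
    refine sum_congr rfl fun u _ => ?_
    unfold rnA
    rfl
  rw [h3] at h1
  unfold rnK1
  unfold FilN
  linarith

/-- the own-cell filter for sets of items of value one -/
lemma LevC.fil_part (C : LevC n U ho vl kp mn pc φ g f)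
    (H : PCon R n t s mu U ho vl kp mn pc ar be kq NN sg nu) (hz : z < n)
    (hy : y ∈ (range n).erase z) {p : ℤ} (hp0 : 0 ≤ p)
    (hp : ∀ l ∈ (range n).erase z, l ≠ y → be z l - kq z l ≤ p) {S K : Finset ι}
    (hS : S ⊆ rnM U ho vl pc g z y) (hK : K ⊆ rnK1 U ho vl pc g z y) {m' k' : ℤ}
    (hm : (S.card : ℤ) = m') (hk : (K.card : ℤ) = k') :
    FilN R (t z + 1) (t y + 1) (mu z - s z + (∑ y ∈ (range n).erase z,
        ((rnM U ho vl pc g z y).card : ℤ) + ((rnC U ho vl pc z).card : ℤ)))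
      m' (∑ u ∈ S, mn y u) (be z y + be y z) k' (∑ u ∈ K, (mn z u + rnA n kp be z y u)) k' k'
      (∑ l ∈ ((range n).erase z).erase y, (be z l - kq z l) * sg z l + m' * p) := by
  have hyn : y < n := mem_range.1 (mem_of_mem_erase hy)
  have hyz : y ≠ z := ne_of_mem_erase hy
  have h1 := H.numF hz hyn hyz (P := S) (hS.trans (filter_subset _ _))
    (fun u hu => (C.rnM_fact hyn (hS hu)).2) (K := K)
    (hK.trans ((filter_subset _ _).trans (filter_subset _ _)))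
    (fun u hu => by
      obtain ⟨h2, h3, h4, h5, h6, h7, h8⟩ := C.rnK1_fact H hz (hK hu)
      exact ⟨h3, h4, h5, by rw [h7]; norm_num⟩) hm.symm hk.symm rfl rfl rfl rfl
  rw [C.rn_h H hz] at h1
  have h0 : ∑ l ∈ ((range n).erase z).erase y, ((S.filter fun u => kp l u ≠ 0).card : ℤ) ≤ m' := by
    refine (H.other_ends hyn z (fun u hu => ?_)).trans ?_
    · obtain ⟨h3, h4, h5, h6, h7⟩ := C.rnM_fact hyn (hS hu)
      exact ⟨h3, h6, h7⟩
    · rw [← hm]
      exact_mod_cast card_le_card (filter_subset _ _)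
  have h2 := blk_sum (P := ((range n).erase z).erase y) (b := fun l => be z l - kq z l)
    (sg' := sg z) (c := fun l => ((S.filter fun u => kp l u ≠ 0).card : ℤ))
    (p := p) (fun l hl => hp l (mem_of_mem_erase hl) (ne_of_mem_erase hl))
    (fun l _ => Nat.cast_nonneg _) hp0 h0
  have h3 : ∑ u ∈ K.filter (fun u => ∃ l < n, l ≠ z ∧ kp l u ≠ 0),
        ∑ l ∈ ((range n).erase y).filter (fun l => kp l u ≠ 0), be y l
      = ∑ u ∈ K, rnA n kp be z y u := by
    rw [sum_filter]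
    refine sum_congr rfl fun u _ => ?_
    unfold rnA
    rfl
  rw [h3] at h1
  rw [sum_add_distrib]
  unfold FilN
  nlinarith [h1, h2]

/-- subsets of given size of two sets, the second with at most the average -/
lemma LevC.pick (C : LevC n U ho vl kp mn pc φ g f)
    (H : PCon R n t s mu U ho vl kp mn pc ar be kq NN sg nu) (hz : z < n)
    {q' k' : ℕ → ℕ} (h : ∀ y ∈ (range n).erase z, (q' y : ℤ) ≤ be y z ∧
      (k' y : ℤ) ≤ ((rnK1 U ho vl pc g z y).card : ℤ)) :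
    ∃ Q K : ℕ → Finset ι, ∀ y ∈ (range n).erase z, Q y ⊆ rnQ U ho kp pc z y ∧
      K y ⊆ rnK U ho pc g z y ∧ ((Q y).card : ℤ) = q' y ∧ ∑ u ∈ K y, (g z u : ℤ) = k' y ∧
      ((K y).card : ℤ) = k' y ∧ (((K y).filter fun u => vl u = 1).card : ℤ) = k' y ∧
      0 ≤ ∑ u ∈ K y, msP kp mn z (g z) u ∧
      ((rnK1 U ho vl pc g z y).card : ℤ) * ∑ u ∈ K y, msP kp mn z (g z) u
        ≤ k' y * ∑ u ∈ rnK1 U ho vl pc g z y, mn z u := by
  have h1 : ∀ y, ∃ Q K : Finset ι, y ∈ (range n).erase z → Q ⊆ rnQ U ho kp pc z y ∧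
      K ⊆ rnK U ho pc g z y ∧ (Q.card : ℤ) = q' y ∧ ∑ u ∈ K, (g z u : ℤ) = k' y ∧
      (K.card : ℤ) = k' y ∧ ((K.filter fun u => vl u = 1).card : ℤ) = k' y ∧
      0 ≤ ∑ u ∈ K, msP kp mn z (g z) u ∧
      ((rnK1 U ho vl pc g z y).card : ℤ) * ∑ u ∈ K, msP kp mn z (g z) u
        ≤ k' y * ∑ u ∈ rnK1 U ho vl pc g z y, mn z u := by
    intro y
    by_cases hy : y ∈ (range n).erase z
    · obtain ⟨h2, h3⟩ := h y hy
      have hyn : y < n := mem_range.1 (mem_of_mem_erase hy)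
      have h4 : q' y ≤ (rnQ U ho kp pc z y).card := by
        have h5 : ((rnQ U ho kp pc z y).card : ℤ) = be y z := H.pc_cell hz hyn
        rw [← h5] at h2
        exact_mod_cast h2
      obtain ⟨Q, hQ, hQc⟩ := exists_subset_card_eq h4
      obtain ⟨K, hK, hKc, hKs⟩ := exists_lowN (fun u => mn z u) (k' y) _
        (rnK1 U ho vl pc g z y) rfl (by exact_mod_cast h3)
      have e1 : ∀ u ∈ K, g z u = 1 := fun u hu => (C.rnK1_fact H hz (hK hu)).2.2.2.2.1
      have e2 : ∑ u ∈ K, msP kp mn z (g z) u = ∑ u ∈ K, mn z u :=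
        sum_congr rfl fun u hu => (C.rnK1_fact H hz (hK hu)).2.2.2.2.2.2
      refine ⟨Q, K, fun _ => ⟨hQ, hK.trans (filter_subset _ _), by exact_mod_cast hQc, ?_,
        by exact_mod_cast hKc, ?_, ?_, ?_⟩⟩
      · rw [sum_congr rfl fun u hu => by rw [e1 u hu], sum_const, hKc, nsmul_eq_mul]
        simp
      · rw [filter_true_of_mem fun u hu => (C.rnK1_fact H hz (hK hu)).2.2.2.1]
        exact_mod_cast hKc
      · rw [e2]
        exact sum_nonneg fun u hu => H.m0 u (C.rnK1_fact H hz (hK hu)).1 z hz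
      · rw [e2]
        exact hKs
    · exact ⟨∅, ∅, fun h0 => absurd h0 hy⟩
  choose Q K h2 using h1
  exact ⟨Q, K, h2⟩

/-- **THE ROW IN NUMBERS** -/
theorem LevC.rowZ (C : LevC n U ho vl kp mn pc φ g f)
    (H : PCon R n t s mu U ho vl kp mn pc ar be kq NN sg nu) (hz : z < n) :
    RowZ R ((range n).erase z) (t z + 1) (mu z - s z) (mu z) ((rnC U ho vl pc z).card : ℤ)
      (fun y => t y + 1) (be z) (kq z) (fun y => be y z)
      (fun y => ((rnM U ho vl pc g z y).card : ℤ))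
      (fun y => ∑ u ∈ rnM U ho vl pc g z y, mn y u)
      (fun y => (((rnM U ho vl pc g z y).filter fun u => ∃ l < n, l ≠ y ∧ kp l u ≠ 0).card : ℤ))
      (fun y => ∑ u ∈ rnC U ho vl pc z, (g y u : ℤ))
      (fun y => ∑ u ∈ rnK U ho pc g z y, (g z u : ℤ))
      (fun y => ∑ u ∈ rnK U ho pc g z y, msP kp mn z (g z) u)
      (fun y => ((rnK U ho pc g z y).card : ℤ))
      (fun y => ((rnK1 U ho vl pc g z y).card : ℤ))
      (fun y => ∑ u ∈ rnK1 U ho vl pc g z y, mn z u)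
      (fun y => ∑ u ∈ rnK1 U ho vl pc g z y, (mn z u + rnA n kp be z y u))
      (fun y => ∑ u ∈ rnK U ho pc g z y, rnA n kp be z y u)
      (sg z) (NN z) := by
  have hP : ∀ y ∈ (range n).erase z, y < n ∧ y ≠ z := fun y hy =>
    ⟨mem_range.1 (mem_of_mem_erase hy), ne_of_mem_erase hy⟩
  have hrA : ∀ y ∈ (range n).erase z, ∀ u : ι, 0 ≤ rnA n kp be z y u := by
    intro y hy u
    unfold rnA
    split_ifs
    · exact sum_nonneg fun l hl => H.be0 y (hP y hy).1 l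
        (mem_range.1 (mem_of_mem_erase (mem_filter.1 hl).1))
    · exact le_rfl
  have hmsK : ∀ y ∈ (range n).erase z, ∀ u ∈ rnK U ho pc g z y, 0 ≤ msP kp mn z (g z) u := by
    intro y hy u hu
    unfold msP
    split_ifs
    · exact H.m0 u (mem_filter.1 hu).1 z hz
    · exact le_rfl
  have hk1b : ∀ y ∈ (range n).erase z, ∑ u ∈ rnK1 U ho vl pc g z y, mn z u
      ≤ ∑ u ∈ rnK U ho pc g z y, msP kp mn z (g z) u := by
    intro y hy
    rw [sum_congr (s₁ := rnK1 U ho vl pc g z y) rfl fun u hu =>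
      ((C.rnK1_fact H hz hu).2.2.2.2.2.2).symm]
    exact sum_le_sum_of_subset_of_nonneg (filter_subset _ _) fun u hu _ => hmsK y hy u hu
  have hk1a : ∀ y ∈ (range n).erase z, ∑ u ∈ rnK1 U ho vl pc g z y, rnA n kp be z y u
      ≤ ∑ u ∈ rnK U ho pc g z y, rnA n kp be z y u := fun y hy =>
    sum_le_sum_of_subset_of_nonneg (filter_subset _ _) fun u _ _ => hrA y hy u
  refine ⟨?_, ?_, ?_, ?_, H.d_nonneg hz, ?_, ?_, ?_, ?_, ?_, ?_, ?_, ?_, ?_, ?_, ?_, ?_, ?_, ?_, ?_,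
    ?_, ?_, ?_, ?_, ?_, ?_, ?_, ?_, ?_, ?_, ?_, ?_⟩
  · -- A1
    have := H.t0 z hz
    linarith
  · intro y hy
    have := H.t0 y (hP y hy).1
    linarith
  · -- P4
    rw [card_erase_of_mem (mem_range.2 hz), card_range]
    have := H.n5
    omega
  · -- mass
    have h1 := add_sum_erase (range n) (fun i => t i + 1) (mem_range.2 hz)
    have h2 := H.tsum
    beta_reduce at h1
    linarith
  · -- dA
    have := H.dt z hz
    linarith
  · exact fun y hy => H.kq0 z hz y (hP y hy).1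
  · exact fun y hy => H.kqb z hz y (hP y hy).1
  · exact fun y hy => H.be0 y (hP y hy).1 z hz
  · exact fun y hy => H.be_le hz (hP y hy).1 (Ne.symm (hP y hy).2)
  · exact fun y hy => Nat.cast_nonneg _
  · -- mb0
    intro y hy
    refine ⟨sum_nonneg fun u hu => H.m0 u (mem_filter.1 hu).1 y (hP y hy).1, ?_⟩
    rw [← nsmul_eq_mul]
    refine sum_le_card_nsmul _ _ _ fun u hu => ?_
    have h1 := H.mnc u (mem_filter.1 hu).1 y (hP y hy).1
    linarith
  · exact fun y hy => ⟨Nat.cast_nonneg _, by exact_mod_cast card_le_card (filter_subset _ _)⟩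
  · exact fun y hy => sum_nonneg fun u hu => Nat.cast_nonneg _
  · -- k0
    intro y hy
    refine ⟨Nat.cast_nonneg _, by exact_mod_cast card_le_card (filter_subset _ _), ?_⟩
    rw [card_eq_sum_ones]
    push_cast
    refine sum_le_sum fun u hu => ?_
    have := Nat.one_le_iff_ne_zero.2 (mem_filter.1 hu).2.2.2
    exact_mod_cast this
  · -- kb0
    intro y hy
    have h1 : 0 ≤ ∑ u ∈ rnK1 U ho vl pc g z y, mn z u :=
      sum_nonneg fun u hu => H.m0 u (C.rnK1_fact H hz hu).1 z hz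
    have h2 : 0 ≤ ∑ u ∈ rnK1 U ho vl pc g z y, rnA n kp be z y u :=
      sum_nonneg fun u _ => hrA y hy u
    have h3 := hk1b y hy
    have h4 := hk1a y hy
    rw [sum_add_distrib]
    exact ⟨h1, by linarith, h3, by linarith⟩
  · -- kbc
    intro y hy
    refine ⟨?_, ?_⟩
    · rw [← nsmul_eq_mul]
      refine sum_le_card_nsmul _ _ _ fun u hu => ?_
      have h1 := H.mnc u (C.rnK1_fact H hz hu).1 z hz
      linarith
    · rw [← nsmul_eq_mul]
      refine sum_le_card_nsmul _ _ _ fun u hu => ?_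
      have h1 := H.mnc u (mem_filter.1 hu).1 z hz
      have h2 := H.t0 z hz
      have h3 := H.m0 u (mem_filter.1 hu).1 z hz
      unfold msP
      split_ifs
      · linarith
      · linarith
  · exact fun y hy => H.sg0 z hz y (hP y hy).1
  · exact C.rn_mu H hz
  · exact Nat.cast_nonneg _
  · exact C.rn_c2 H hz
  · -- sgs
    have h1 := H.sgs z hz
    rw [C.rn_h H hz] at h1
    linarith
  · exact fun y hy => H.nn0 z hz y (hP y hy).1
  · exact fun y hy => H.nnz z hz y (hP y hy).1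
  · -- nnb
    intro y hy v hv hvv
    have h1 := H.nnb z hz y (hP y hy).1
    have h2 : ∑ u ∈ U.filter (fun u => ho u = z), nu y u
        ≤ ∑ u ∈ U.filter (fun u => ho u = z), pc u * kp y u * v := by
      refine sum_le_sum fun u hu => ?_
      obtain ⟨h3, h4⟩ := mem_filter.1 hu
      by_cases h5 : kp y u = 0
      · rw [H.nuz u h3 y (hP y hy).1 h5, h5]
        simp
      · rcases H.pc01 u h3 with h6 | h6
        · rw [H.nup u h3 h6 y (hP y hy).1, h6]
          simp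
        · have h7 := H.pcv u h3 (by rw [h6]; norm_num)
          have h8 := H.nuq u h3 h7 y (hP y hy).1 h5
          rw [h6, h4] at h8
          rw [h6, H.kp_one h3 h7 (hP y hy).1 h5]
          have h9 := H.nu0 u h3 y (hP y hy).1
          have h10 : t z + 1 - 1 = t z := by ring
          have h11 : t y + 1 - 1 = t y := by ring
          rw [h10, h11] at hvv
          by_contra hcon
          push Not at hcon
          nlinarith
    rw [← sum_mul, H.pcb z hz y (hP y hy).1] at h2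
    linarith
  · -- fil
    intro y hy p hp0 hp
    exact C.fil_full H hz hy hp0 hp
  · -- filp
    intro y hy m' k' hm' hk' p hp0 hp
    obtain ⟨S, hS, hSc, hSs⟩ := exists_lowN (fun u => mn y u) m' _ (rnM U ho vl pc g z y) rfl
      (by exact_mod_cast hm')
    obtain ⟨K, hK, hKc, hKs⟩ := exists_lowN (fun u => mn z u + rnA n kp be z y u) k' _
      (rnK1 U ho vl pc g z y) rfl (by exact_mod_cast hk')
    refine ⟨∑ u ∈ S, mn y u, ∑ u ∈ K, (mn z u + rnA n kp be z y u), ?_, ?_, hSs, hKs, ?_⟩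
    · exact sum_nonneg fun u hu => H.m0 u (mem_filter.1 (hS hu)).1 y (hP y hy).1
    · exact sum_nonneg fun u hu => add_nonneg (H.m0 u (C.rnK1_fact H hz (hK hu)).1 z hz)
        (hrA y hy u)
    · exact C.fil_part H hz hy hp0 hp hS hK (by exact_mod_cast hSc) (by exact_mod_cast hKc)
  · -- tes
    intro X hX J hJ
    have h1 := C.tesF H hz hJ hX (Q := rnQ U ho kp pc z) (K := rnK U ho pc g z)
      (fun y _ => Subset.refl _) (fun y _ => Subset.refl _)
    have h2 : ∀ y ∈ J, ((rnQ U ho kp pc z y).card : ℤ) = be y z := fun y hy =>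
      H.pc_cell hz (hP y (hJ hy)).1
    have e1 : ∑ y ∈ J, (((rnQ U ho kp pc z y).card : ℤ) + ∑ u ∈ rnK U ho pc g z y, (g z u : ℤ))
        = ∑ y ∈ J, (be y z + ∑ u ∈ rnK U ho pc g z y, (g z u : ℤ)) :=
      sum_congr rfl fun y hy => by rw [h2 y hy]
    have e2 : ∑ y ∈ J, (((rnQ U ho kp pc z y).card : ℤ) + ((rnK U ho pc g z y).card : ℤ))
        = ∑ y ∈ J, (be y z + ((rnK U ho pc g z y).card : ℤ)) :=
      sum_congr rfl fun y hy => by rw [h2 y hy]
    have e3 : ∑ y ∈ J, (((rnQ U ho kp pc z y).card : ℤ)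
          + (((rnK U ho pc g z y).filter fun u => vl u = 1).card : ℤ))
        * (((rnQ U ho kp pc z y).card : ℤ)
          + (((rnK U ho pc g z y).filter fun u => vl u = 1).card : ℤ) - 1)
        = ∑ y ∈ J, (be y z + ((rnK1 U ho vl pc g z y).card : ℤ))
          * (be y z + ((rnK1 U ho vl pc g z y).card : ℤ) - 1) :=
      sum_congr rfl fun y hy => by
        rw [h2 y hy]
        rfl
    rw [e1, e2, e3] at h1
    exact h1
  · -- tesp
    intro X hX q' k' hqk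
    obtain ⟨Q, K, h1⟩ := C.pick H hz hqk
    have h2 := C.tesF H hz (Subset.refl _) hX (Q := Q) (K := K)
      (fun y hy => (h1 y hy).1) (fun y hy => (h1 y hy).2.1)
    refine ⟨fun y => ∑ u ∈ K y, msP kp mn z (g z) u, fun y hy =>
      ⟨(h1 y hy).2.2.2.2.2.2.1, (h1 y hy).2.2.2.2.2.2.2⟩, ?_⟩
    have e1 : ∑ y ∈ (range n).erase z, (((Q y).card : ℤ) + ∑ u ∈ K y, (g z u : ℤ))
        = ∑ y ∈ (range n).erase z, ((q' y : ℤ) + k' y) :=
      sum_congr rfl fun y hy => by rw [(h1 y hy).2.2.1, (h1 y hy).2.2.2.1]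
    have e2 : ∑ y ∈ (range n).erase z, (((Q y).card : ℤ) + ((K y).card : ℤ))
        = ∑ y ∈ (range n).erase z, ((q' y : ℤ) + k' y) :=
      sum_congr rfl fun y hy => by rw [(h1 y hy).2.2.1, (h1 y hy).2.2.2.2.1]
    have e3 : ∑ y ∈ (range n).erase z, (((Q y).card : ℤ)
          + (((K y).filter fun u => vl u = 1).card : ℤ))
        * (((Q y).card : ℤ) + (((K y).filter fun u => vl u = 1).card : ℤ) - 1)
        = ∑ y ∈ (range n).erase z, ((q' y : ℤ) + k' y) * ((q' y : ℤ) + k' y - 1) :=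
      sum_congr rfl fun y hy => by rw [(h1 y hy).2.2.1, (h1 y hy).2.2.2.2.2.1]
    rw [e1, e2, e3] at h2
    exact h2
  · -- glo
    intro J hJ
    obtain ⟨h1, h2, h3⟩ := C.fam_ok H hz hJ (Q := rnQ U ho kp pc z) (K := rnK U ho pc g z)
      (fun y _ => Subset.refl _) (fun y _ => Subset.refl _)
    have h4 := H.glob_use hz h2 (fun u hu => (h3 u hu).1) (g := g z)
      (fun u hu => (h3 u hu).2.2)
    rw [fam_sum h1, sum_congr rfl fun y hy => (C.famQK H hz (Subset.refl _) (Subset.refl _)).1] at h4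
    have h5 : ∑ y ∈ J, (((rnQ U ho kp pc z y).card : ℤ) + ∑ u ∈ rnK U ho pc g z y, (g z u : ℤ))
        = ∑ y ∈ J, (be y z + ∑ u ∈ rnK U ho pc g z y, (g z u : ℤ)) :=
      sum_congr rfl fun y hy => by
        rw [show ((rnQ U ho kp pc z y).card : ℤ) = be y z from H.pc_cell hz (hP y (hJ hy)).1]
    rw [h5] at h4
    exact h4
  · -- ten
    intro J hJ e he he2
    have h2 : ∀ y ∈ J, ((rnQ U ho kp pc z y).card : ℤ) = be y z := fun y hy =>
      H.pc_cell hz (hP y (hJ hy)).1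
    exact C.tenF H hz hJ (Q := rnQ U ho kp pc z) (K := rnK U ho pc g z)
      (fun y _ => Subset.refl _) (fun y _ => Subset.refl _) (by
        rw [he]
        congr 1
        exact sum_congr rfl fun y hy => by rw [h2 y hy]) he2
  · -- tenp
    intro q' k' hqk
    obtain ⟨Q, K, h1⟩ := C.pick H hz hqk
    refine ⟨fun y => ∑ u ∈ K y, msP kp mn z (g z) u, fun y hy =>
      ⟨(h1 y hy).2.2.2.2.2.2.1, (h1 y hy).2.2.2.2.2.2.2⟩, fun e he he2 => ?_⟩
    exact C.tenF H hz (Subset.refl _) (Q := Q) (K := K)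
      (fun y hy => (h1 y hy).1) (fun y hy => (h1 y hy).2.1) (by
        rw [he]
        congr 1
        exact sum_congr rfl fun y hy => by rw [(h1 y hy).2.2.1, (h1 y hy).2.2.2.1]) he2

end RowZ

end Pool.Agent.Lib.MP_f04ccf_co
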