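import Pool.Agent.Lib.MP_f04ccf_co.M.MatC
import Pool.Agent.Lib.MP_f04ccf_co.M.EnN
import Pool.Agent.Lib.MP_f04ccf_co.M.UnitE

/-!
MP_f04ccf_co, note 16759: the front of a row test with PC pairs.  Two PC pairs of one host and one tail
have a missing pair or at most two arcs, so their points have many adjacent pairs.

* `both2 G B`: ordered pairs of PC pairs with both arcs.
* `E_pc`: `3 m² + 2 m u ≤ E (points) + 3 m + both2` for `m` PC pairs and `u` other members of one tail.
* `Fam.row_pc`: the row test of 95's items with this front.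
-/

set_option autoImplicit false

namespace Pool.Agent.Lib.MP_f04ccf_co

open Finset

attribute [local instance] Classical.propDecidable

section PC

variable {V : Type*} {G : SimpleGraph V}

variable (G) in
/-- ordered pairs of PC pairs with both arcs -/
noncomputable def both2 (B : Finset (V × V)) : ℕ :=
  ((B ×ˢ B).filter fun q => q.1.1 ≠ q.2.1 ∧ ¬ G.Adj q.1.1 q.2.2 ∧ ¬ G.Adj q.2.1 q.1.2).card

/-- **PC pairs of one tail and other members of this tail** -/
theorem E_pc {C H U : Finset V} {B : Finset (V × V)} (hH : ∀ e ∈ B, e.1 ∈ H)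
    (hC : ∀ e ∈ B, e.2 ∈ C) (hN : ∀ e ∈ B, ¬ G.Adj e.1 e.2)
    (i1 : ∀ e ∈ B, ∀ f ∈ B, e.1 = f.1 → e = f) (i2 : ∀ e ∈ B, ∀ f ∈ B, e.2 = f.2 → e = f)
    (hHC : Disjoint H C) (hCC : Clq G C) (hU : U ⊆ H) (hUB : ∀ e ∈ B, e.1 ∉ U)
    (h32 : ∀ v ∈ H, ∀ w ∈ H, ∀ a ∈ C, v ≠ w → ¬ G.Adj v a → ¬ G.Adj w a → G.Adj v w) :
    3 * (B.card * B.card) + 2 * (B.card * U.card)
      ≤ E G ((B.image Prod.fst ∪ B.image Prod.snd) ∪ U) + 3 * B.card + both2 G B := by
  have hI1 : Set.InjOn Prod.fst (B : Set (V × V)) := fun e he f hf hef =>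
    i1 e (by exact_mod_cast he) f (by exact_mod_cast hf) hef
  have hI2 : Set.InjOn Prod.snd (B : Set (V × V)) := fun e he f hf hef =>
    i2 e (by exact_mod_cast he) f (by exact_mod_cast hf) hef
  have hYH : B.image Prod.fst ⊆ H := by
    intro v hv
    obtain ⟨e, he, rfl⟩ := mem_image.1 hv
    exact hH e he
  have hAC : B.image Prod.snd ⊆ C := by
    intro v hv
    obtain ⟨e, he, rfl⟩ := mem_image.1 hv
    exact hC e he
  have hYA : Disjoint (B.image Prod.fst) (B.image Prod.snd) := hHC.mono hYH hAC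
  have hYU : Disjoint (B.image Prod.fst ∪ B.image Prod.snd) U := by
    rw [disjoint_union_left]
    refine ⟨?_, (hHC.mono hU hAC).symm⟩
    rw [disjoint_left]
    intro v hv
    obtain ⟨e, he, rfl⟩ := mem_image.1 hv
    exact hUB e he
  have hcA : (B.image Prod.snd).card = B.card := card_image_of_injOn hI2
  have h1 := E_union G hYU
  have h2 := E_union G hYA
  -- the class points
  have h3 : E G (B.image Prod.snd) + B.card = B.card * B.card := by
    have h4 := E_add_NE (G := G) (B.image Prod.snd)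
    rw [NE_clq (fun a ha b hb hab => hCC a (hAC ha) b (hAC hb) hab), hcA] at h4
    have h5 : ((E G (B.image Prod.snd) : ℤ) + B.card) = B.card * B.card := by
      push_cast at h4
      linarith
    exact_mod_cast h5
  -- the other members
  have h4 : B.card * U.card ≤ ∑ u ∈ U, dg G (B.image Prod.fst ∪ B.image Prod.snd) u := by
    rw [mul_comm, ← smul_eq_mul]
    refine card_nsmul_le_sum _ _ _ fun u hu => ?_
    unfold dg
    refine card_le_card_of_injOn (fun e => if G.Adj u e.1 then e.1 else e.2) ?_ ?_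
    · intro e he
      have he' : e ∈ B := by exact_mod_cast he
      by_cases h5 : G.Adj u e.1
      · have : e.1 ∈ (B.image Prod.fst ∪ B.image Prod.snd).filter fun w => G.Adj u w :=
          mem_filter.2 ⟨mem_union_left _ (mem_image_of_mem _ he'), h5⟩
        simp only [h5, if_true]
        exact_mod_cast this
      · have h6 : G.Adj u e.2 := by
          by_contra h6
          exact h5 (h32 u (hU hu) e.1 (hH e he') e.2 (hC e he')
            (fun h7 => hUB e he' (h7 ▸ hu)) h6 (hN e he'))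
        have : e.2 ∈ (B.image Prod.fst ∪ B.image Prod.snd).filter fun w => G.Adj u w :=
          mem_filter.2 ⟨mem_union_right _ (mem_image_of_mem _ he'), h6⟩
        simp only [h5, if_false]
        exact_mod_cast this
    · intro e he f hf hef
      have he' : e ∈ B := by exact_mod_cast he
      have hf' : f ∈ B := by exact_mod_cast hf
      simp only at hef
      by_cases h5 : G.Adj u e.1 <;> by_cases h6 : G.Adj u f.1
      · simp only [h5, h6, if_true] at hef
        exact i1 e he' f hf' hef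
      · simp only [h5, h6, if_true, if_false] at hef
        exact absurd (hef ▸ hC f hf' : e.1 ∈ C) (disjoint_left.1 hHC (hH e he'))
      · simp only [h5, h6, if_true, if_false] at hef
        exact absurd (hef ▸ hC e he' : f.1 ∈ C) (disjoint_left.1 hHC (hH f hf'))
      · simp only [h5, h6, if_false] at hef
        exact i2 e he' f hf' hef
  -- the PC pairs
  have h5 : 2 * (B.card * B.card) ≤ 2 * ∑ a ∈ B.image Prod.snd, dg G (B.image Prod.fst) a
      + E G (B.image Prod.fst) + both2 G B + 2 * B.card := by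
    have e1 : ∑ a ∈ B.image Prod.snd, dg G (B.image Prod.fst) a
        = ∑ e ∈ B, ∑ f ∈ B, if G.Adj e.2 f.1 then 1 else 0 := by
      rw [sum_image fun e he f hf hef => i2 e he f hf hef]
      refine sum_congr rfl fun e _ => ?_
      unfold dg
      rw [filter_image, card_image_of_injOn (hI1.mono (by
        intro f hf
        have : f ∈ B.filter fun f => G.Adj e.2 f.1 := by exact_mod_cast hf
        exact_mod_cast (mem_filter.1 this).1)), card_filter]
    have e2 : ∑ e ∈ B, ∑ f ∈ B, (if G.Adj e.2 f.1 then 1 else 0)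
        = ∑ e ∈ B, ∑ f ∈ B, if G.Adj f.2 e.1 then 1 else 0 := sum_comm
    have e3 : E G (B.image Prod.fst) = ∑ e ∈ B, ∑ f ∈ B, if G.Adj e.1 f.1 then 1 else 0 := by
      unfold E
      rw [sum_image fun e he f hf hef => i1 e he f hf hef]
      refine sum_congr rfl fun e _ => ?_
      unfold dg
      rw [filter_image, card_image_of_injOn (hI1.mono (by
        intro f hf
        have : f ∈ B.filter fun f => G.Adj e.1 f.1 := by exact_mod_cast hf
        exact_mod_cast (mem_filter.1 this).1)), card_filter]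
    have e4 : both2 G B = ∑ e ∈ B, ∑ f ∈ B,
        if e.1 ≠ f.1 ∧ ¬ G.Adj e.1 f.2 ∧ ¬ G.Adj f.1 e.2 then 1 else 0 := by
      unfold both2
      rw [card_filter, sum_product]
    have e5 : 2 * B.card = ∑ e ∈ B, ∑ f ∈ B, if e = f then 2 else 0 := by
      have : ∀ e ∈ B, ∑ f ∈ B, (if e = f then 2 else 0) = 2 := fun e he => by
        rw [sum_ite_eq B e, if_pos he]
      rw [sum_congr rfl this, sum_const, smul_eq_mul, mul_comm]
    have e6 : 2 * (B.card * B.card) = ∑ e ∈ B, ∑ _f ∈ B, 2 := by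
      simp only [sum_const, smul_eq_mul]
      ring
    have e7 : 2 * ∑ a ∈ B.image Prod.snd, dg G (B.image Prod.fst) a
        = ∑ e ∈ B, ∑ f ∈ B, ((if G.Adj e.2 f.1 then 1 else 0)
          + if G.Adj f.2 e.1 then 1 else 0) := by
      simp only [sum_add_distrib]
      rw [← e2, ← e1]
      ring
    rw [e7, e3, e4, e5, e6]
    simp only [← sum_add_distrib]
    refine sum_le_sum fun e he => sum_le_sum fun f hf => ?_
    by_cases hef : e = f
    · rw [if_pos hef]
      exact Nat.le_add_left _ _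
    · have hne : e.1 ≠ f.1 := fun h6 => hef (i1 e he f hf h6)
      rw [if_neg hef]
      by_cases b1 : G.Adj e.1 f.2
      · have b1' : G.Adj f.2 e.1 := b1.symm
        by_cases b2 : G.Adj f.1 e.2
        · have b2' : G.Adj e.2 f.1 := b2.symm
          simp only [b1', b2', if_true]
          omega
        · have b3 : G.Adj e.1 f.1 := (h32 f.1 (hH f hf) e.1 (hH e he) e.2 (hC e he) hne.symm b2
            (hN e he)).symm
          simp only [b1', b3, if_true]
          omega
      · have b3 : G.Adj e.1 f.1 := h32 e.1 (hH e he) f.1 (hH f hf) f.2 (hC f hf) hne b1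
          (hN f hf)
        by_cases b2 : G.Adj f.1 e.2
        · have b2' : G.Adj e.2 f.1 := b2.symm
          simp only [b2', b3, if_true]
          omega
        · simp only [b3, if_true, hne, b1, b2, ne_eq, not_false_iff, and_self]
          omega
  have h6 : E G ((B.image Prod.fst ∪ B.image Prod.snd) ∪ U)
      = E G (B.image Prod.fst) + 2 * ∑ y ∈ B.image Prod.snd, dg G (B.image Prod.fst) y
        + E G (B.image Prod.snd)
        + 2 * ∑ y ∈ U, dg G (B.image Prod.fst ∪ B.image Prod.snd) y + E G U := by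
    rw [h1, h2]
  rw [h6]
  omega

/-- disjoint parts -/
lemma E_parts_le {ι : Type*} {D : Finset ι} {P : ι → Finset V}
    (hd : ∀ x ∈ D, ∀ y ∈ D, x ≠ y → Disjoint (P x) (P y)) {W : Finset V}
    (hW : ∀ x ∈ D, P x ⊆ W) : ∑ x ∈ D, E G (P x) ≤ E G W := by
  have h1 : D.biUnion P ⊆ W := biUnion_subset.2 hW
  calc ∑ x ∈ D, E G (P x) ≤ ∑ x ∈ D, ∑ v ∈ P x, dg G W v := by
        refine sum_le_sum fun x hx => ?_
        unfold E
        exact sum_le_sum fun v _ => card_le_card (filter_subset_filter _ (hW x hx))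
    _ = ∑ v ∈ D.biUnion P, dg G W v := (sum_biUnion fun x hx y hy hxy =>
        hd x (by exact_mod_cast hx) y (by exact_mod_cast hy) hxy).symm
    _ ≤ ∑ v ∈ W, dg G W v := sum_le_sum_of_subset h1
    _ = E G W := rfl

end PC

section Items

variable {V : Type*} {G : SimpleGraph V} {Z T : Finset V} {hm : V → V} {r m t : ℕ}
  {A : Finset V} {S : V → Finset V} {U : V → Finset (Itm V)}

/-- the PC pairs among the items `K` of the host with the items `Ux` -/
noncomputable def pcK (K Ux : Finset (Itm V)) : Finset (V × V) :=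
  (K.filter fun u => u ∈ Ux).toRight

/-- the members with tail `z` of the cliques among the items `K` of the host with the items `Ux` -/
noncomputable def mbK (tl : V → V) (z : V) (K Ux : Finset (Itm V)) : Finset V :=
  (K.filter fun u => u ∈ Ux).toLeft.biUnion fun Q => tlp tl Q z

lemma mem_pcK {K Ux : Finset (Itm V)} {e : V × V} :
    e ∈ pcK K Ux ↔ Sum.inr e ∈ K ∧ Sum.inr e ∈ Ux := by
  rw [pcK, mem_toRight, mem_filter]

lemma mem_mbK {tl : V → V} {z : V} {K Ux : Finset (Itm V)} {v : V} :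
    v ∈ mbK tl z K Ux ↔ ∃ Q : Finset V, Sum.inl Q ∈ K ∧ Sum.inl Q ∈ Ux ∧ v ∈ Q ∧ tl v = z := by
  simp only [mbK, mem_biUnion, mem_toLeft, mem_filter, mem_tlp, and_assoc]

/-- **the front of the items at one row**: `3 m (m - 1) + 2 m n - both` less for every host with `m` PC
pairs and `n` other members with this tail -/
theorem Fam.NE_pc (hF : PFrame G r m t Z T) (hh : Homes G Z T hm) (hC : CSys G Z T hm A S)
    (hW : WSysT G (co G) A (CP G Z T S) (HP G Z T S) (tlo G T hm))
    (h : ∀ x ∈ A, Fam (co G) (CP G Z T S) (HP G Z T S) (tlo G T hm) x (U x))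
    {z : V} (hz : z ∈ A) {K : Finset (Itm V)} (hK : K ⊆ (A.erase z).biUnion U)
    (hk : ∀ u ∈ K, ikp (tlo G T hm) z u ≠ 0)
    {X : Finset V → Finset V} (hX : ∀ Q, X Q ⊆ oth (tlo G T hm) z Q) :
    (NE G (K.biUnion (rpts (tlo G T hm) X z)) : ℤ)
      + ∑ x ∈ A.erase z, (3 * ((pcK K (U x)).card : ℤ) * ((pcK K (U x)).card - 1)
        + 2 * (pcK K (U x)).card * (mbK (tlo G T hm) z K (U x)).card - both2 G (pcK K (U x)))
      ≤ (∑ u ∈ K, ((rpts (tlo G T hm) X z u).card : ℤ))
          * ((∑ u ∈ K, ((rpts (tlo G T hm) X z u).card : ℤ)) - 1) := by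
  have hfil : (K.filter fun u => ikp (tlo G T hm) z u ≠ 0) = K := filter_true_of_mem hk
  have hg := Fam.grp hW h (D := A.erase z) (erase_subset _ _) hK (z := z) hX
  rw [hfil] at hg
  have h3 : (K.biUnion (rpts (tlo G T hm) X z)).card
      = ∑ u ∈ K, (rpts (tlo G T hm) X z u).card := card_biUnion hg.dis
  have h4 : ((K.biUnion (rpts (tlo G T hm) X z)).card : ℤ)
      = ∑ u ∈ K, ((rpts (tlo G T hm) X z u).card : ℤ) := by
    rw [h3]
    push_cast
    rfl
  have h5 := E_add_NE (G := G) (K.biUnion (rpts (tlo G T hm) X z))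
  rw [h4] at h5
  -- tails of the PC pairs
  have htl : ∀ e : V × V, Sum.inr e ∈ K → tlo G T hm e.1 = z := by
    intro e he
    by_contra h6
    exact hk _ he (by simp only [ikp, h6, if_false])
  -- the points of one host
  have hP : ∀ x ∈ A.erase z, 3 * ((pcK K (U x)).card * (pcK K (U x)).card)
      + 2 * ((pcK K (U x)).card * (mbK (tlo G T hm) z K (U x)).card)
      ≤ E G (((pcK K (U x)).image Prod.fst ∪ (pcK K (U x)).image Prod.snd)
        ∪ mbK (tlo G T hm) z K (U x)) + 3 * (pcK K (U x)).card + both2 G (pcK K (U x)) := by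
    intro x hx
    have hxA := mem_of_mem_erase hx
    have hxz := ne_of_mem_erase hx
    have hf := h x hxA
    refine E_pc (C := CP G Z T S x)
      (H := (HP G Z T S x).filter fun v => tlo G T hm v = z) ?_ ?_ ?_ ?_ ?_ ?_ ?_ ?_ ?_ ?_
    · intro e he
      obtain ⟨h6, h7⟩ := mem_pcK.1 he
      exact mem_filter.2 ⟨hf.pcH e h7, htl e h6⟩
    · intro e he
      exact hf.pcC e (mem_pcK.1 he).2
    · intro e he
      exact (co_adj.1 (hf.pcF e (mem_pcK.1 he).2)).2
    · intro e he f hf' hef
      by_contra hne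
      have h6 := hf.dis _ (mem_pcK.1 he).2 _ (mem_pcK.1 hf').2
        fun h7 => hne (Sum.inr_injective h7)
      have h7 : e.1 ∈ imem (Sum.inr e : Itm V) := by simp [imem]
      have h8 : e.1 ∈ imem (Sum.inr f : Itm V) := by simp [imem, hef]
      exact disjoint_left.1 h6 h7 h8
    · intro e he f hf' hef
      by_contra hne
      exact hf.cop e (mem_pcK.1 he).2 f (mem_pcK.1 hf').2 hef hne
        ((htl e (mem_pcK.1 he).1).trans (htl f (mem_pcK.1 hf').1).symm)
    · exact (CP_HP_disjoint (G := G) (Z := Z) (T := T) (S := S) (x := x)).symm.mono_left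
        (filter_subset _ _)
    · exact hC.CP_clq hF hxA
    · intro v hv
      obtain ⟨Q, h6, h7, h8, h9⟩ := mem_mbK.1 hv
      exact mem_filter.2 ⟨hf.sub Q h7 h8, h9⟩
    · intro e he h6
      obtain ⟨Q, h7, h8, h9, h10⟩ := mem_mbK.1 h6
      have h11 := hf.dis _ (mem_pcK.1 he).2 _ h8 (by simp)
      have h12 : e.1 ∈ imem (Sum.inr e : Itm V) := by simp [imem]
      have h13 : e.1 ∈ imem (Sum.inl Q : Itm V) := by simpa [imem] using h9
      exact disjoint_left.1 h11 h12 h13
    · intro v hv w hw a ha hne n1 n2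
      obtain ⟨hv1, hv2⟩ := mem_filter.1 hv
      obtain ⟨hw1, hw2⟩ := mem_filter.1 hw
      exact (hC.cellD hF hxA hz hxz).comC v (hC.mem_Dbl_of_tlo hh hxA hv1 hv2) w
        (hC.mem_Dbl_of_tlo hh hxA hw1 hw2) hne a ha n1 n2
  have hsubHC : ∀ x ∈ A.erase z, ((pcK K (U x)).image Prod.fst ∪ (pcK K (U x)).image Prod.snd)
      ∪ mbK (tlo G T hm) z K (U x) ⊆ HP G Z T S x ∪ CP G Z T S x := by
    intro x hx v hv
    have hf := h x (mem_of_mem_erase hx)
    rcases mem_union.1 hv with hv | hv
    · rcases mem_union.1 hv with hv | hv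
      · obtain ⟨e, he, rfl⟩ := mem_image.1 hv
        exact mem_union_left _ (hf.pcH e (mem_pcK.1 he).2)
      · obtain ⟨e, he, rfl⟩ := mem_image.1 hv
        exact mem_union_right _ (hf.pcC e (mem_pcK.1 he).2)
    · obtain ⟨Q, h6, h7, h8, h9⟩ := mem_mbK.1 hv
      exact mem_union_left _ (hf.sub Q h7 h8)
  have h6 := E_parts_le (G := G) (D := A.erase z)
    (P := fun x => ((pcK K (U x)).image Prod.fst ∪ (pcK K (U x)).image Prod.snd)
      ∪ mbK (tlo G T hm) z K (U x)) (W := K.biUnion (rpts (tlo G T hm) X z)) (by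
      intro x hx y hy hxy
      refine Disjoint.mono (hsubHC x hx) (hsubHC y hy) ?_
      have hxA := mem_of_mem_erase hx
      have hyA := mem_of_mem_erase hy
      rw [disjoint_union_left, disjoint_union_right, disjoint_union_right]
      exact ⟨⟨hW.dHH x hxA y hyA hxy, hW.dHC x hxA y hyA⟩, (hW.dHC y hyA x hxA).symm,
        hW.dCC x hxA y hyA hxy⟩) (by
      intro x hx v hv
      rcases mem_union.1 hv with hv | hv
      · rcases mem_union.1 hv with hv | hv
        · obtain ⟨e, he, rfl⟩ := mem_image.1 hv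
          exact mem_biUnion.2 ⟨Sum.inr e, (mem_pcK.1 he).1, mem_insert_self _ _⟩
        · obtain ⟨e, he, rfl⟩ := mem_image.1 hv
          exact mem_biUnion.2 ⟨Sum.inr e, (mem_pcK.1 he).1,
            mem_insert_of_mem (mem_singleton_self _)⟩
      · obtain ⟨Q, h6, h7, h8, h9⟩ := mem_mbK.1 hv
        exact mem_biUnion.2 ⟨Sum.inl Q, h6, mem_union_left _ (mem_tlp.2 ⟨h8, h9⟩)⟩)
  have h7 : ∑ x ∈ A.erase z, (3 * ((pcK K (U x)).card : ℤ) * ((pcK K (U x)).card - 1)
        + 2 * (pcK K (U x)).card * (mbK (tlo G T hm) z K (U x)).card - both2 G (pcK K (U x)))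
      ≤ ∑ x ∈ A.erase z, (E G (((pcK K (U x)).image Prod.fst ∪ (pcK K (U x)).image Prod.snd)
        ∪ mbK (tlo G T hm) z K (U x)) : ℤ) := by
    refine sum_le_sum fun x hx => ?_
    have h8 : (3 * (((pcK K (U x)).card : ℤ) * (pcK K (U x)).card)
        + 2 * ((pcK K (U x)).card * (mbK (tlo G T hm) z K (U x)).card))
        ≤ E G (((pcK K (U x)).image Prod.fst ∪ (pcK K (U x)).image Prod.snd)
          ∪ mbK (tlo G T hm) z K (U x)) + 3 * (pcK K (U x)).card + both2 G (pcK K (U x)) := by
      exact_mod_cast hP x hx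
    linarith
  have h8 : (∑ x ∈ A.erase z, (E G (((pcK K (U x)).image Prod.fst
      ∪ (pcK K (U x)).image Prod.snd) ∪ mbK (tlo G T hm) z K (U x)) : ℤ))
      ≤ E G (K.biUnion (rpts (tlo G T hm) X z)) := by exact_mod_cast h6
  linarith

/-- **(row) with the front of the PC pairs** -/
theorem Fam.row_pc (hF : PFrame G r m t Z T) (hh : Homes G Z T hm) (hPG : PG G r)
    (hC : CSys G Z T hm A S)
    (hW : WSysT G (co G) A (CP G Z T S) (HP G Z T S) (tlo G T hm))
    (h : ∀ x ∈ A, Fam (co G) (CP G Z T S) (HP G Z T S) (tlo G T hm) x (U x))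
    {z : V} (hz : z ∈ A) {K : Finset (Itm V)} (hK : K ⊆ (A.erase z).biUnion U)
    (hk : ∀ u ∈ K, ikp (tlo G T hm) z u ≠ 0)
    {X : Finset V → Finset V} (hX : ∀ Q, X Q ⊆ oth (tlo G T hm) z Q) :
    2 * ((r : ℤ) - 1) * (((S z).card : ℤ) - r)
      + 2 * ∑ u ∈ K, (((CP G Z T S z).card : ℤ) * ikp (tlo G T hm) z u
          - (rcl G (CP G Z T S) (tlo G T hm) X z u).card)
      + ∑ x ∈ A.erase z, (3 * ((pcK K (U x)).card : ℤ) * ((pcK K (U x)).card - 1)
        + 2 * (pcK K (U x)).card * (mbK (tlo G T hm) z K (U x)).card - both2 G (pcK K (U x)))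
      ≤ NE G (S z) + 2 * (∑ u ∈ K, ((rpts (tlo G T hm) X z u).card : ℤ))
          * (((S z).card : ℤ) - r + 1)
        + (∑ u ∈ K, ((rpts (tlo G T hm) X z u).card : ℤ))
          * ((∑ u ∈ K, ((rpts (tlo G T hm) X z u).card : ℤ)) - 1) := by
  have hK' : K ⊆ (A \ {z}).biUnion U := by
    rwa [sdiff_singleton_eq_erase]
  have hfil : (K.filter fun u => ikp (tlo G T hm) z u ≠ 0) = K := filter_true_of_mem hk
  have hg := Fam.grp hW h (D := A.erase z) (erase_subset _ _) hK (z := z) hX
  rw [hfil] at hg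
  have hsb : ({z} : Finset V) ⊆ A := by
    simpa using hz
  have h1 := hC.tst_grp hPG (B := {z}) hsb
    (W := K.biUnion (rpts (tlo G T hm) X z)) (fun x hx => by
      have h2 := Fam.disj_pts hC h hsb hK' hx
      refine h2.mono_right (biUnion_mono fun u hu => ?_)
      obtain ⟨y, hy, huy⟩ := mem_biUnion.1 (hK hu)
      exact (h y (mem_of_mem_erase hy)).rpts_sub hX)
    (I := fun _ => K) (P := fun _ => rpts (tlo G T hm) X z)
    (k := fun _ u => (ikp (tlo G T hm) z u : ℤ))
    (df := fun _ u c => if c ∈ rcl G (CP G Z T S) (tlo G T hm) X z u then 1 else 0)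
    (fun x hx => by
      rw [mem_singleton.1 hx]
      exact hg) (fun x _ => subset_rfl)
  have h2 := Fam.NE_pc hF hh hC hW h hz hK hk hX
  have h3 : (K.biUnion (rpts (tlo G T hm) X z)).card
      = ∑ u ∈ K, (rpts (tlo G T hm) X z u).card := card_biUnion hg.dis
  have h4 : ((K.biUnion (rpts (tlo G T hm) X z)).card : ℤ)
      = ∑ u ∈ K, ((rpts (tlo G T hm) X z u).card : ℤ) := by
    rw [h3]
    push_cast
    rfl
  rw [h4] at h1
  simp only [sum_singleton, card_singleton, erase_singleton, sum_empty, Nat.cast_one, sub_self,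
    mul_zero, zero_mul, add_zero, sum_rcl] at h1
  linarith

end Items

end Pool.Agent.Lib.MP_f04ccf_co
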