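import Pool.Agent.Lib.MP_f04ccf_co.M.PayC
import Pool.Agent.Lib.MP_f04ccf_co.M.RowCG
import Pool.Agent.Lib.MP_f04ccf_co.M.ItZ

/-!
MP_f04ccf_co, PLAN W, version [B]: the row test of `x` with the columns of `y` (T+), the cell paid, over
the basic integers: `+ 2 nxk x y + 2 (f - g (g - 1))⁺` on the left, `g` the PC pairs of `x` with tail `y`,
`f` their free arcs (`WCoreK.rowp`).
-/

set_option autoImplicit false

namespace Pool.Agent.Lib.MP_f04ccf_co

open Finset

attribute [local instance] Classical.propDecidable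

section RowQ

variable {V : Type*} {G : SimpleGraph V} {Z T : Finset V} {hm : V → V} {r m t n p : ℕ}
  {A : Finset V} {S : V → Finset V} {U : V → Finset (Itm V)}

lemma RowE.anti {K : Finset (Itm V)} {X : Finset V → Finset V} {z y : V} {EX EX' : ℤ}
    (h : RowE G Z T hm r S U K X z y EX) (h' : EX' ≤ EX) :
    RowE G Z T hm r S U K X z y EX' := by
  unfold RowE at h ⊢
  linarith

variable (G Z T hm) in
/-- the free arcs of the PC pairs of `x` with tail `y` -/
noncomputable def fjk (B : V → Finset (V × V)) (x y : V) : ℤ :=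
  ∑ e ∈ pcs (tlo G T hm) (B x) y, ((frC G (cz G Z T hm x) (tlo G T hm) (B x) e.1).card : ℤ)

lemma fjk_nonneg (B : V → Finset (V × V)) (x y : V) : 0 ≤ fjk G Z T hm B x y :=
  sum_nonneg fun _ _ => Nat.cast_nonneg _

/-- **T+ with the cell paid, version [B]** -/
theorem WCoreK.rowp (hp : 2 * r ≤ p) (h : WCoreK G Z T r m n p hm) {B : V → Finset (V × V)}
    {Ps : V → Finset (Finset V)}
    (hB : ∀ x ∈ T, Pk G (cz G Z T hm x) (hz G Z T hm x) (tlo G T hm) (B x) (Ps x))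
    {x y : V} (hx : x ∈ T) (hy : y ∈ T) (hxy : x ≠ y) {K : Finset (Itm V)}
    (hK : K ⊆ (T.erase x).biUnion fun x => pkf (B x) (Ps x))
    (h0 : 0 ≤ sI hm r Z x + ∑ u ∈ K, (ikp (tlo G T hm) x u : ℤ)) :
    2 * ((r : ℤ) - 1) * sI hm r Z x
      + 2 * ∑ u ∈ K, ((ikp (tlo G T hm) x u : ℤ) * ((r : ℤ) - 1 - tI G Z T hm r Z x)
          - rmr G (cz G Z T hm) (tlo G T hm) x u)
      + 2 * ∑ u ∈ pkf (B x) (Ps x), ((ikp (tlo G T hm) y u : ℤ)
          * ((r : ℤ) - 1 - tI G Z T hm r Z y) - ims G (cz G Z T hm) (tlo G T hm) y u)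
      + (2 * nxk G (cz G Z T hm x) (hz G Z T hm x) (tlo G T hm) (B x) y
        + 2 * max 0 (fjk G Z T hm B x y
          - pcn (tlo G T hm) B x y * (pcn (tlo G T hm) B x y - 1)))
      ≤ 2 * eI G hm Z x
        + 2 * (∑ u ∈ K, (2 * (ikp (tlo G T hm) x u : ℤ)
              - if u ∈ pkf (B y) (Ps y) then (ipc u : ℤ) * ikp (tlo G T hm) x u else 0)
            + ((r : ℤ) - 1 - tI G Z T hm r Z y)) * (sI hm r Z x + 1)
        + (∑ u ∈ K, (2 * (ikp (tlo G T hm) x u : ℤ)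
              - if u ∈ pkf (B y) (Ps y) then (ipc u : ℤ) * ikp (tlo G T hm) x u else 0))
          * (∑ u ∈ K, (2 * (ikp (tlo G T hm) x u : ℤ)
              - if u ∈ pkf (B y) (Ps y) then (ipc u : ℤ) * ikp (tlo G T hm) x u else 0) - 1)
        + 2 * ∑ u ∈ K, (if u ∈ pkf (B y) (Ps y) then (iar G (cz G Z T hm y) u : ℤ)
            else 2 * ((r : ℤ) - 1 - tI G Z T hm r Z y) * ikp (tlo G T hm) x u)
        + 2 * (∑ u ∈ K, (if u ∈ pkf (B y) (Ps y) then (ipc u : ℤ) * ikp (tlo G T hm) x u else 0))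
          * (∑ u ∈ pkf (B x) (Ps x), (ipc u : ℤ) * ikp (tlo G T hm) y u) := by
  have hF := h.F.toPFrame
  have hfam : ∀ x ∈ T, Fam (co G) (cz G Z T hm) (hz G Z T hm) (tlo G T hm) x
      (pkf (B x) (Ps x)) := fun x hx => (hB x hx).fam (h.csys.dCH hx hx).symm
  have hpcz : pcz (tlo G T hm) y (pkf (B x) (Ps x)) = pcs (tlo G T hm) (B x) y := by
    ext e
    rw [mem_pcz, inr_mem_pkf, mem_pcs]
  set N := nez G (cz G Z T hm x) (hz G Z T hm x) (tlo G T hm) (B x) y with hN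
  have hNm : ∀ v ∈ N, v ∈ hz G Z T hm x ∧ v ∉ (B x).image Prod.fst ∧ tlo G T hm v = y := by
    intro v hv
    obtain ⟨h1, h2⟩ := mem_filter.1 hv
    obtain ⟨h3, h4⟩ := mem_sdiff.1 (mem_Nend.1 h1).1
    exact ⟨h3, h4, h2⟩
  have hmsC : ∀ D : Finset V, ∀ v, v ∉ D → msC G D v = msd G D v := by
    intro D v hv
    unfold msC msd
    ext a
    rw [mem_filter, mem_filter]
    exact ⟨fun h => ⟨h.1, fun h' => hv (h' ▸ h.1), h.2⟩, fun h => ⟨h.1, h.2.2⟩⟩
  have hkap : ∀ v ∈ (pcz (tlo G T hm) y (pkf (B x) (Ps x))).image Prod.fst ∪ N,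
      (msC G (cz G Z T hm x) v).card ≤ (msC G (cz G Z T hm y) v).card := by
    intro v hv
    have h1 : v ∈ hz G Z T hm x ∧ tlo G T hm v = y := by
      rcases mem_union.1 hv with h1 | h1
      · obtain ⟨e, he, rfl⟩ := mem_image.1 h1
        rw [hpcz] at he
        obtain ⟨h2, h3⟩ := mem_pcs.1 he
        exact ⟨(hB x hx).bH e h2, h3⟩
      · exact ⟨(hNm v h1).1, (hNm v h1).2.2⟩
    rw [hmsC _ _ fun h2 => disjoint_left.1 (h.csys.dCH hx hx) h2 h1.1,
      hmsC _ _ fun h2 => disjoint_left.1 (h.csys.dCH hy hx) h2 h1.1]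
    exact h.msd_le hp hx h1.1 h1.2
  have hE := Fam.rowE_cell hF h.gp.P h.hh h.csys h.wsysT hfam hx hy hxy
    (K := K.filter fun u => ikp (tlo G T hm) x u ≠ 0)
    ((filter_subset _ _).trans hK) (fun u hu => (mem_filter.1 hu).2)
    (X := fun Q => one1 (oth (tlo G T hm) x Q)) (fun Q => one1_sub _) (N := N)
    (fun v hv => (hNm v hv).1) (fun v hv => (hNm v hv).2.2)
    (fun v hv e he h1 => (hNm v hv).2.1 (mem_image.2 ⟨e, inr_mem_pkf.1 he, h1⟩)) hkap
  refine Fam.rowcI_of h.csys h.wsysT hfam hx hy hxy hK h0 (hE.anti ?_)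
  -- the payment
  rw [hpcz]
  have hinj : Set.InjOn Prod.fst (pcs (tlo G T hm) (B x) y : Set (V × V)) := fun e he f hf hef =>
    (hB x hx).b1 e (mem_pcs.1 (mem_coe.1 he)).1 f (mem_pcs.1 (mem_coe.1 hf)).1 hef
  have e1 : ∑ v ∈ N, ((msC G (cz G Z T hm x \ (pcs (tlo G T hm) (B x) y).image Prod.snd) v).card : ℤ)
      = ∑ v ∈ N, ((frC G (cz G Z T hm x) (tlo G T hm) (B x) v).card : ℤ) := by
    refine sum_congr rfl fun v hv => ?_
    have h1 : msC G (cz G Z T hm x \ (pcs (tlo G T hm) (B x) y).image Prod.snd) v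
        = frC G (cz G Z T hm x) (tlo G T hm) (B x) v := by
      ext a
      rw [mem_msC, mem_frC, mem_sdiff, (hNm v hv).2.2]
      constructor
      · rintro ⟨⟨h1, h2⟩, h3⟩
        exact ⟨h1, h3, fun e he hea het => h2 (mem_image.2 ⟨e, mem_pcs.2 ⟨he, het⟩, hea⟩)⟩
      · rintro ⟨h1, h2, h3⟩
        refine ⟨⟨h1, fun h4 => ?_⟩, h2⟩
        obtain ⟨e, he, hea⟩ := mem_image.1 h4
        exact h3 e (mem_pcs.1 he).1 hea (mem_pcs.1 he).2
    rw [h1]
  have e2 := two_nxk (G := G) (cz G Z T hm x) (hz G Z T hm x) (tlo G T hm) (B x) y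
  have e3 : max 0 (fjk G Z T hm B x y - pcn (tlo G T hm) B x y * (pcn (tlo G T hm) B x y - 1))
      ≤ ∑ v ∈ (pcs (tlo G T hm) (B x) y).image Prod.fst,
        (((msC G (cz G Z T hm x) v).card - 1
          - dg G ((pcs (tlo G T hm) (B x) y).image Prod.fst) v : ℕ) : ℤ) := by
    refine max_le (sum_nonneg fun _ _ => Nat.cast_nonneg _) ?_
    rw [sum_image fun e he f hf hef => hinj he hf hef]
    have h1 : ∀ e ∈ pcs (tlo G T hm) (B x) y,
        ((frC G (cz G Z T hm x) (tlo G T hm) (B x) e.1).card : ℤ)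
          - (pcn (tlo G T hm) B x y - 1)
        ≤ (((msC G (cz G Z T hm x) e.1).card - 1
          - dg G ((pcs (tlo G T hm) (B x) y).image Prod.fst) e.1 : ℕ) : ℤ) := by
      intro e he
      obtain ⟨he1, he2⟩ := mem_pcs.1 he
      have h2 : (frC G (cz G Z T hm x) (tlo G T hm) (B x) e.1).card + 1
          ≤ (msC G (cz G Z T hm x) e.1).card := by
        have h3 : e.2 ∉ frC G (cz G Z T hm x) (tlo G T hm) (B x) e.1 := fun h4 =>
          (mem_frC.1 h4).2.2 e he1 rfl rfl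
        rw [← card_insert_of_notMem h3]
        refine card_le_card fun a ha => ?_
        rcases mem_insert.1 ha with h4 | h4
        · rw [h4]
          exact mem_msC.2 ⟨(hB x hx).bC e he1, (hB x hx).bN e he1⟩
        · obtain ⟨h5, h6, -⟩ := mem_frC.1 h4
          exact mem_msC.2 ⟨h5, h6⟩
      have h3 : dg G ((pcs (tlo G T hm) (B x) y).image Prod.fst) e.1 + 1
          ≤ (pcs (tlo G T hm) (B x) y).card := by
        have h4 : ((pcs (tlo G T hm) (B x) y).image Prod.fst).filter (fun w => G.Adj e.1 w)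
            ⊆ ((pcs (tlo G T hm) (B x) y).image Prod.fst).erase e.1 := fun w hw =>
          mem_erase.2 ⟨fun h5 => G.irrefl (h5 ▸ (mem_filter.1 hw).2), (mem_filter.1 hw).1⟩
        have h5 := card_le_card h4
        have h6 := card_erase_add_one (mem_image_of_mem Prod.fst he)
        have h7 := card_image_of_injOn hinj
        unfold dg
        omega
      have h4 : pcn (tlo G T hm) B x y = ((pcs (tlo G T hm) (B x) y).card : ℤ) := rfl
      rw [h4]
      omega
    have h2 := sum_le_sum h1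
    rw [sum_sub_distrib, sum_const, nsmul_eq_mul] at h2
    have h4 : pcn (tlo G T hm) B x y = ((pcs (tlo G T hm) (B x) y).card : ℤ) := rfl
    have h5 : fjk G Z T hm B x y = ∑ e ∈ pcs (tlo G T hm) (B x) y,
        ((frC G (cz G Z T hm x) (tlo G T hm) (B x) e.1).card : ℤ) := rfl
    rw [h5]
    rw [h4] at h2 ⊢
    exact h2
  have e4 : ∑ v ∈ N, ((msC G ((CP G Z T (fun x => Z.filter fun v => hm v = x) x)
        \ (pcs (tlo G T hm) (B x) y).image Prod.snd) v).card : ℤ)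
      = ∑ v ∈ N, ((frC G (cz G Z T hm x) (tlo G T hm) (B x) v).card : ℤ) := e1
  rw [e4]
  have e5 : max 0 (fjk G Z T hm B x y - pcn (tlo G T hm) B x y * (pcn (tlo G T hm) B x y - 1))
      ≤ ∑ v ∈ (pcs (tlo G T hm) (B x) y).image Prod.fst,
        (((msC G (CP G Z T (fun x => Z.filter fun v => hm v = x) x) v).card - 1
          - dg G ((pcs (tlo G T hm) (B x) y).image Prod.fst) v : ℕ) : ℤ) := e3
  rw [e2]
  linarith

end RowQ

end Pool.Agent.Lib.MP_f04ccf_co
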