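import Pool.Agent.Lib.MP_f04ccf_co.M.ColC
import Pool.Agent.Lib.MP_f04ccf_co.M.RowNum

/-!
MP_f04ccf_co, TEXT D: **the tests of one row in numbers over `PConC`, for any way of using and keeping** (kernel loops
of the middle range, RULE Q).

Row `z`, another row `y`; `lv u` the level at which a served item is used at `z`, `a y u` the units of a hosted item
which are booked in the cell of `y`.

* `UseC`: a set of used items of the host `y` as numbers: `q` PC pairs, `k` pieces of `ka` plain items, `k1` of value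
  one, misses `b`, misses and arcs `w`, `f` plain items without another end; `use_all`, `use_b` (average misses),
  `use_w` (average misses and arcs);
* `KepC`: a set of kept plain hosted items as numbers: value `m`, hits `hit` in the columns of `y`, `g` items out,
  gain, ends `en l`; `kep_all`, `kep_own` (booked at `y`, value one, average misses), `kep_none`;
* `PConC.colU` (column test, form `ColN`), `PConC.rowU` (exact row test, form `TesC`), `PConC.tenU` (tzN, Konig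
  pairs out), `PConC.gloU`.
-/

set_option autoImplicit false

namespace Pool.Agent.Lib.MP_f04ccf_co

open Finset

attribute [local instance] Classical.propDecidable

/-- the column test of a cell: `m` kept plain value with `hit` hits, `b` block pairs of the other tails, `M` PC pairs,
`k` used pieces of `ka` items, `k1` of value one, `w` misses and arcs -/
def ColN (R A B G m b hit M k ka k1 w gain blk X : ℤ) : Prop :=
  2 * ((R + 1 - B) * (M + k - 1) + hit) + (m + b) * (m + b + M + k + ka + 1)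
    + M * (m + b + k + ka) + (k - ka) * (m + b + M + k + ka + 1) + 2 * (k1 * (k1 - 1)) + gain
    ≤ 2 * (A * (m + b + M + k) + w)
      + 2 * ((B - 1 - (m + b + M + k + ka)) * (G - (m + b + M + k))) + blk + 2 * X

/-- the exact row test: `m` the kept hosted value, `k` used pieces of `ka` items, misses `b`, saving and gain `sv`,
the excess `N` -/
def TesC (R A G m k ka b sv N : ℤ) : Prop :=
  2 * ((R - (m + k + ka)) * (m + k - G)) + (m + k - ka) * (m + k + ka + 1) + sv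
    ≤ 2 * (A * (m + k) + b) + N

section RowQC

variable {ι : Type*} {R : ℤ} {n : ℕ} {t s mu : ℕ → ℤ} {U : Finset ι} {ho : ι → ℕ} {vl : ι → ℤ}
  {kp mn : ℕ → ι → ℤ} {pc ar : ι → ℤ} {be kq NN sg : ℕ → ℕ → ℤ} {nu : ℕ → ι → ℤ} {z y : ℕ}

/-- **used items of the host `y` as numbers** -/
def UseC (n : ℕ) (U : Finset ι) (ho : ι → ℕ) (vl : ι → ℤ) (kp mn : ℕ → ι → ℤ) (pc : ι → ℤ)
    (be : ℕ → ℕ → ℤ) (lv : ι → ℕ) (z y : ℕ) (q k ka k1 b w f : ℤ) : Prop :=
  ∃ Q K : Finset ι, Q ⊆ rnQ U ho kp pc z y ∧ K ⊆ rnK U ho pc (fun _ => lv) z y ∧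
    (Q.card : ℤ) = q ∧ ∑ u ∈ K, (lv u : ℤ) = k ∧ (K.card : ℤ) = ka ∧
    ((K.filter fun u => vl u = 1).card : ℤ) = k1 ∧
    ∑ u ∈ K, msP kp mn z lv u ≤ b ∧
    ∑ u ∈ K, (msP kp mn z lv u + rnA n kp be z y u) ≤ w ∧
    ((K.filter fun u => ¬ ∃ l < n, l ≠ z ∧ kp l u ≠ 0).card : ℤ) ≤ f

/-- **kept plain hosted items as numbers** -/
def KepC (R : ℤ) (n : ℕ) (t : ℕ → ℤ) (U : Finset ι) (ho : ι → ℕ) (vl : ι → ℤ) (kp mn : ℕ → ι → ℤ)
    (pc : ι → ℤ) (z y : ℕ) (m hit g gain : ℤ) (en : ℕ → ℤ) : Prop :=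
  ∃ P ⊆ U.filter (fun u => ho u = z ∧ pc u = 0), ∑ u ∈ P, vl u = m ∧
    hit ≤ ∑ u ∈ P, (kp y u * (R - t y) - mn y u) ∧
    ((U.filter fun u => ho u = z ∧ pc u = 0).card : ℤ) - (P.card : ℤ) = g ∧
    gain ≤ ∑ e ∈ P.offDiag, min (vl e.1) (vl e.2) ∧
    ∀ l < n, l ≠ z → l ≠ y → ((P.filter fun u => kp l u ≠ 0).card : ℤ) ≤ en l

/-- the kept block pairs of the tails in `S \ Y`, those of the tails in `Y` out -/
noncomputable def blkE (p sg en : ℕ → ℤ) (S Y : Finset ℕ) : ℤ :=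
  ∑ l ∈ S \ Y, p l * (p l + 1) + 2 * ∑ l ∈ Y, p l * (sg l + en l)

/-- **THE COLUMN TEST of the cell of `y`** -/
theorem PConC.colU (H : PConC R n t s mu U ho vl kp mn pc ar be kq NN sg nu) (hz : z < n)
    (hy : y ∈ (range n).erase z) {lv : ι → ℕ} (hlv : ∀ u ∈ U, (lv u : ℤ) ≤ kp z u)
    {q k ka k1 b w f : ℤ} (hu : UseC n U ho vl kp mn pc be lv z y q k ka k1 b w f)
    {m hit g gain : ℤ} {en : ℕ → ℤ} (hk : KepC R n t U ho vl kp mn pc z y m hit g gain en)
    {Y : Finset ℕ} (hY : Y ⊆ ((range n).erase z).erase y) :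
    ColN R (t z + 1) (t y + 1) (mu z - s z + g) m
      (∑ l ∈ ((range n).erase z).erase y \ Y, (be z l - kq z l)) hit (be z y + q) k ka k1 w gain
      (blkE (fun l => be z l - kq z l) (sg z) en (((range n).erase z).erase y) Y)
      ((be y z - q) * f) := by
  have hyn : y < n := mem_range.1 (mem_of_mem_erase hy)
  have hyz : y ≠ z := ne_of_mem_erase hy
  obtain ⟨Q, K, hQ, hK, e1, e2, e3, e4, e5, e6, e7⟩ := hu
  obtain ⟨P, hP, f1, f2, f3, f4, f5⟩ := hk
  have h1 := H.colC hz hyn hyz (P := P) (hP.trans (filter_subset _ _))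
    (fun u hu => (mem_filter.1 (hP hu)).2) (K := K) (hK.trans (filter_subset _ _))
    (fun u hu => ⟨(mem_filter.1 (hK hu)).2.1, (mem_filter.1 (hK hu)).2.2.1⟩) (lv := lv)
    (fun u hu => Nat.one_le_iff_ne_zero.2 (mem_filter.1 (hK hu)).2.2.2)
    (fun u hu => hlv u (mem_filter.1 (hK hu)).1) (Q := Q) (hQ.trans (filter_subset _ _))
    (fun u hu => (mem_filter.1 (hQ hu)).2) hY f1.symm e2.symm e3.symm e4.symm e1.symm rfl rfl rfl
    rfl rfl f3.symm
  have h3 : ∑ u ∈ K.filter (fun u => ∃ l < n, l ≠ z ∧ kp l u ≠ 0),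
        ∑ l ∈ ((range n).erase y).filter (fun l => kp l u ≠ 0), be y l
      = ∑ u ∈ K, rnA n kp be z y u := by
    rw [sum_filter]
    refine sum_congr rfl fun u _ => ?_
    unfold rnA
    rfl
  have h4 : ∑ l ∈ Y, (be z l - kq z l) * (sg z l + ((P.filter fun u => kp l u ≠ 0).card : ℤ))
      ≤ ∑ l ∈ Y, (be z l - kq z l) * (sg z l + en l) := by
    refine sum_le_sum fun l hl => ?_
    have h5 := mem_erase.1 (hY hl)
    have h6 := mem_erase.1 h5.2
    have h7 := mem_range.1 h6.2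
    have h8 := f5 l h7 h6.1 h5.1
    have h9 := H.kqb z hz l h7
    exact mul_le_mul_of_nonneg_left (by linarith) (by linarith)
  have h5 : q ≤ be y z := by
    rw [← e1, ← H.pc_cell hz hyn]
    exact_mod_cast card_le_card hQ
  have h6 := mul_le_mul_of_nonneg_left e7 (show 0 ≤ be y z - q by linarith)
  have h7 : t y + 1 - 1 = t y := by ring
  have h8 : R + 1 - (t y + 1) = R - t y := by ring
  rw [h3] at h1
  rw [sum_add_distrib] at e6
  unfold ColN blkE
  rw [h7, h8]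
  linarith [h1, h4, h6, e6, f2, f4]

/-! ### the row tests -/

/-- a family of used items of all hosts -/
lemma PConC.famU (H : PConC R n t s mu U ho vl kp mn pc ar be kq NN sg nu) (hz : z < n)
    {lv : ι → ℕ} (hlv : ∀ u ∈ U, (lv u : ℤ) ≤ kp z u) {q k ka k1 b w f : ℕ → ℤ}
    (hu : ∀ y ∈ (range n).erase z,
      UseC n U ho vl kp mn pc be lv z y (q y) (k y) (ka y) (k1 y) (b y) (w y) (f y)) :
    ∃ (K : Finset ι) (v : ι → ℕ), K ⊆ U ∧ (∀ u ∈ K, ho u ≠ z) ∧ (∀ u ∈ K, 1 ≤ v u) ∧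
      (∀ u ∈ K, (v u : ℤ) ≤ kp z u) ∧
      ∑ u ∈ K, (v u : ℤ) = ∑ y ∈ (range n).erase z, (q y + k y) ∧
      (K.card : ℤ) = ∑ y ∈ (range n).erase z, (q y + ka y) ∧
      ∑ u ∈ K, msP kp mn z v u ≤ ∑ y ∈ (range n).erase z, b y ∧
      ∑ y ∈ (range n).erase z, ((q y + k1 y) * (q y + k1 y - 1) + k1 y * (k1 y - 1))
        ≤ svP n ho vl K v + svP n ho vl (K.filter fun u => pc u = 0) v := by
  choose! Q K hQ hK e1 e2 e3 e4 e5 e6 e7 using hu
  set v : ι → ℕ := fun u => if pc u = 1 then 1 else lv u with hv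
  set F : Finset ι := ((range n).erase z).biUnion fun y => Q y ∪ K y with hF
  have hvK : ∀ y ∈ (range n).erase z, ∀ u ∈ K y, v u = lv u := fun y hy u hu => by
    rw [hv]
    simp only
    rw [if_neg]
    rw [(mem_filter.1 (hK y hy hu)).2.2.1]
    norm_num
  have hvQ : ∀ y ∈ (range n).erase z, ∀ u ∈ Q y, v u = 1 := fun y hy u hu => by
    rw [hv]
    simp only
    rw [if_pos (mem_filter.1 (hQ y hy hu)).2.2.1]
  have hQf : ∀ y ∈ (range n).erase z, ∀ u ∈ Q y, u ∈ U ∧ ho u = y ∧ pc u = 1 ∧ vl u = 1 ∧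
      kp z u = 1 ∧ mn z u = 0 := by
    intro y hy u hu
    obtain ⟨h1, h2, h3, h4⟩ := mem_filter.1 (hQ y hy hu)
    have h5 : pc u ≠ 0 := by rw [h3]; norm_num
    have h6 := H.pc_fact h1 h5
    exact ⟨h1, h2, h3, h6.2.1, H.kp_one h1 h6.2.1 hz h4, h6.2.2.1 z hz⟩
  have hKf : ∀ y ∈ (range n).erase z, ∀ u ∈ K y, u ∈ U ∧ ho u = y ∧ pc u = 0 ∧ 1 ≤ lv u := by
    intro y hy u hu
    obtain ⟨h1, h2, h3, h4⟩ := mem_filter.1 (hK y hy hu)
    exact ⟨h1, h2, h3, Nat.one_le_iff_ne_zero.2 h4⟩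
  have hdis : ∀ y ∈ (range n).erase z, Disjoint (Q y) (K y) := by
    intro y hy
    rw [disjoint_left]
    intro u h1 h2
    have h3 := (hQf y hy u h1).2.2.1
    rw [(hKf y hy u h2).2.2.1] at h3
    exact absurd h3 (by norm_num)
  have hho : ∀ y ∈ (range n).erase z, ∀ u ∈ Q y ∪ K y, ho u = y := by
    intro y hy u hu
    rcases mem_union.1 hu with h1 | h1
    · exact (hQf y hy u h1).2.1
    · exact (hKf y hy u h1).2.1
  have hmem : ∀ u ∈ F, ∃ y ∈ (range n).erase z, u ∈ Q y ∪ K y := fun u hu => mem_biUnion.1 hu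
  have g1 : ∀ y ∈ (range n).erase z, ∑ u ∈ Q y ∪ K y, (v u : ℤ) = q y + k y := by
    intro y hy
    rw [sum_union (hdis y hy), sum_congr rfl fun u hu => by rw [hvQ y hy u hu],
      sum_congr (s₁ := K y) rfl fun u hu => by rw [hvK y hy u hu], e2 y hy, ← e1 y hy]
    simp
  have g2 : ∀ y ∈ (range n).erase z, ((Q y ∪ K y).card : ℤ) = q y + ka y := by
    intro y hy
    rw [card_union_of_disjoint (hdis y hy), ← e1 y hy, ← e3 y hy]
    push_cast
    rfl
  have g3 : ∀ y ∈ (range n).erase z, ∑ u ∈ Q y ∪ K y, msP kp mn z v u ≤ b y := by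
    intro y hy
    have h1 : ∑ u ∈ Q y, msP kp mn z v u = 0 := sum_eq_zero fun u hu => by
      unfold msP
      rw [(hQf y hy u hu).2.2.2.2.2, ite_self]
    have h2 : ∑ u ∈ K y, msP kp mn z v u = ∑ u ∈ K y, msP kp mn z lv u := by
      refine sum_congr rfl fun u hu => ?_
      unfold msP
      rw [hvK y hy u hu]
    rw [sum_union (hdis y hy), h1, h2, zero_add]
    exact e5 y hy
  have g4 : ∀ y ∈ (range n).erase z, ∀ u ∈ Q y ∪ K y, vl u = 1 → ((v u : ℕ) : ℤ) = vl u := by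
    intro y hy u hu h1
    rcases mem_union.1 hu with h2 | h2
    · rw [hvQ y hy u h2, h1]
      rfl
    · obtain ⟨h3, h4, h5, h6⟩ := hKf y hy u h2
      have h7 := hlv u h3
      have h8 := H.kv u h3 z hz
      rw [hvK y hy u h2, h1]
      rw [h1] at h8
      have h9 : (1 : ℤ) ≤ (lv u : ℤ) := by exact_mod_cast h6
      linarith
  refine ⟨F, v, ?_, ?_, ?_, ?_, ?_, ?_, ?_, ?_⟩
  · intro u hu
    obtain ⟨y, hy, h1⟩ := hmem u hu
    rcases mem_union.1 h1 with h2 | h2
    · exact (hQf y hy u h2).1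
    · exact (hKf y hy u h2).1
  · intro u hu
    obtain ⟨y, hy, h1⟩ := hmem u hu
    rw [hho y hy u h1]
    exact ne_of_mem_erase hy
  · intro u hu
    obtain ⟨y, hy, h1⟩ := hmem u hu
    rcases mem_union.1 h1 with h2 | h2
    · rw [hvQ y hy u h2]
    · rw [hvK y hy u h2]
      exact (hKf y hy u h2).2.2.2
  · intro u hu
    obtain ⟨y, hy, h1⟩ := hmem u hu
    rcases mem_union.1 h1 with h2 | h2
    · rw [hvQ y hy u h2, (hQf y hy u h2).2.2.2.2.1]
      norm_num
    · rw [hvK y hy u h2]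
      exact hlv u (hKf y hy u h2).1
  · rw [hF, fam_sum hho]
    exact sum_congr rfl g1
  · rw [hF, fam_card hho]
    exact sum_congr rfl g2
  · rw [hF, fam_sum hho]
    exact sum_le_sum g3
  · rw [sum_add_distrib]
    refine add_le_add ?_ ?_
    · unfold svP
      refine le_trans ?_ (sum_le_sum_of_subset_of_nonneg (erase_subset z (range n))
        fun x _ _ => tri_nonneg' _)
      refine sum_le_sum fun x hx => ?_
      have h1 : q x + k1 x = (((Q x ∪ K x).filter fun u => vl u = 1).card : ℤ) := by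
        rw [filter_union, filter_true_of_mem fun u hu => (hQf x hx u hu).2.2.2.1,
          card_union_of_disjoint (disjoint_of_subset_right (filter_subset _ _) (hdis x hx)),
          ← e1 x hx, ← e4 x hx]
        push_cast
        rfl
      rw [h1]
      refine tri_mono (card_le_card fun u hu => ?_)
      obtain ⟨h2, h3⟩ := mem_filter.1 hu
      exact mem_filter.2 ⟨mem_biUnion.2 ⟨x, hx, h2⟩, hho x hx u h2, g4 x hx u h2 h3⟩
    · unfold svP
      refine le_trans ?_ (sum_le_sum_of_subset_of_nonneg (erase_subset z (range n))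
        fun x _ _ => tri_nonneg' _)
      refine sum_le_sum fun x hx => ?_
      rw [← e4 x hx]
      refine tri_mono (card_le_card fun u hu => ?_)
      obtain ⟨h2, h3⟩ := mem_filter.1 hu
      have h4 : u ∈ Q x ∪ K x := mem_union_right _ h2
      exact mem_filter.2 ⟨mem_filter.2 ⟨mem_biUnion.2 ⟨x, hx, h4⟩, (hKf x hx u h2).2.2.1⟩,
        hho x hx u h4, g4 x hx u h4 h3⟩

/-- **THE EXACT ROW TEST**: the Konig pairs of the tails in `X` and the block pairs of the tails in `Y` out, any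
kept plain hosted items, any used items of all hosts -/
theorem PConC.rowU (H : PConC R n t s mu U ho vl kp mn pc ar be kq NN sg nu) (hz : z < n)
    {lv : ι → ℕ} (hlv : ∀ u ∈ U, (lv u : ℤ) ≤ kp z u) {q k ka k1 b w f : ℕ → ℤ}
    (hu : ∀ y ∈ (range n).erase z,
      UseC n U ho vl kp mn pc be lv z y (q y) (k y) (ka y) (k1 y) (b y) (w y) (f y))
    {m hit g gain : ℤ} {en : ℕ → ℤ} (hk : KepC R n t U ho vl kp mn pc z z m hit g gain en)
    {X Y : Finset ℕ} (hX : X ⊆ (range n).erase z) (hY : Y ⊆ X) :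
    TesC R (t z + 1) (mu z - s z + g)
      (mu z - ∑ l ∈ X, kq z l - ∑ l ∈ Y, (be z l - kq z l)
        - (∑ u ∈ U.filter (fun u => ho u = z ∧ pc u = 0), vl u - m))
      (∑ y ∈ (range n).erase z, (q y + k y)) (∑ y ∈ (range n).erase z, (q y + ka y))
      (∑ y ∈ (range n).erase z, b y)
      (∑ y ∈ (range n).erase z, ((q y + k1 y) * (q y + k1 y - 1) + k1 y * (k1 y - 1)) + gain)
      (blkE (fun l => be z l - kq z l) (sg z) en X Y + ∑ l ∈ (range n).erase z \ X, NN z l) := by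
  obtain ⟨K, v, hK, hKz, hv, hv', h1, h2, h3, h4⟩ := H.famU hz hlv hu
  obtain ⟨P, hP, f1, f2, f3, f4, f5⟩ := hk
  have h5 := H.rowC hz (P := P) (hP.trans (filter_subset _ _))
    (fun u hu => (mem_filter.1 (hP hu)).2) hX hY hK hKz (lv := v) hv hv' h4 rfl h1.symm h2.symm
    rfl rfl f3.symm
  rw [f1] at h5
  have h6 : ∑ l ∈ Y, (be z l - kq z l) * (sg z l + ((P.filter fun u => kp l u ≠ 0).card : ℤ))
      ≤ ∑ l ∈ Y, (be z l - kq z l) * (sg z l + en l) := by
    refine sum_le_sum fun l hl => ?_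
    have h6 := mem_erase.1 (hX (hY hl))
    have h7 := mem_range.1 h6.2
    have h8 := f5 l h7 h6.1 h6.1
    have h9 := H.kqb z hz l h7
    exact mul_le_mul_of_nonneg_left (by linarith) (by linarith)
  unfold TesC blkE
  linarith [h5, h6, h3, f4]

/-- **tzN**, `x` Konig pairs out, all plain hosted items kept -/
theorem PConC.tenU (H : PConC R n t s mu U ho vl kp mn pc ar be kq NN sg nu) (hz : z < n)
    {lv : ι → ℕ} (hlv : ∀ u ∈ U, (lv u : ℤ) ≤ kp z u) {q k ka k1 b w f : ℕ → ℤ}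
    (hu : ∀ y ∈ (range n).erase z,
      UseC n U ho vl kp mn pc be lv z y (q y) (k y) (ka y) (k1 y) (b y) (w y) (f y)) {x : ℤ}
    (hx : 0 ≤ x) (hx' : x ≤ ∑ l ∈ (range n).erase z, kq z l) {e : ℤ}
    (he : e = mu z - x + ∑ y ∈ (range n).erase z, (q y + k y)) (he2 : 2 * e ≤ R) :
    (R - 2 * e) * (e - (mu z - s z)) ≤ (t z + 1) * e + ∑ y ∈ (range n).erase z, b y := by
  obtain ⟨K, v, hK, hKz, hv, hv', h1, h2, h3, h4⟩ := H.famU hz hlv hu
  have h5 : ∑ l ∈ (range n).erase z, kq z l ≤ ∑ l ∈ range n, kq z l :=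
    sum_le_sum_of_subset_of_nonneg (erase_subset _ _) fun l hl _ => H.kq0 z hz l (mem_range.1 hl)
  have h6 := H.tK z hz x hx (hx'.trans h5) ∅ (empty_subset _)
    (fun u hu => absurd hu (notMem_empty u)) K hK hKz v hv hv'
  simp only [sum_empty, sub_zero] at h6
  rw [h1] at h6
  have h7 := h6 (by linarith)
  subst he
  linarith [h7, h3]

/-- **tzN**, `x` Konig pairs and all plain hosted items out -/
theorem PConC.tenU0 (H : PConC R n t s mu U ho vl kp mn pc ar be kq NN sg nu) (hz : z < n)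
    {lv : ι → ℕ} (hlv : ∀ u ∈ U, (lv u : ℤ) ≤ kp z u) {q k ka k1 b w f : ℕ → ℤ}
    (hu : ∀ y ∈ (range n).erase z,
      UseC n U ho vl kp mn pc be lv z y (q y) (k y) (ka y) (k1 y) (b y) (w y) (f y)) {x : ℤ}
    (hx : 0 ≤ x) (hx' : x ≤ ∑ l ∈ (range n).erase z, kq z l) {e : ℤ}
    (he : e = mu z - x - ∑ u ∈ U.filter (fun u => ho u = z ∧ pc u = 0), vl u
      + ∑ y ∈ (range n).erase z, (q y + k y)) (he2 : 2 * e ≤ R) :
    (R - 2 * e) * (e - (mu z - s z + ((U.filter fun u => ho u = z ∧ pc u = 0).card : ℤ)))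
      ≤ (t z + 1) * e + ∑ y ∈ (range n).erase z, b y := by
  obtain ⟨K, v, hK, hKz, hv, hv', h1, h2, h3, h4⟩ := H.famU hz hlv hu
  have h5 : ∑ l ∈ (range n).erase z, kq z l ≤ ∑ l ∈ range n, kq z l :=
    sum_le_sum_of_subset_of_nonneg (erase_subset _ _) fun l hl _ => H.kq0 z hz l (mem_range.1 hl)
  have h6 := H.tK z hz x hx (hx'.trans h5) (U.filter fun u => ho u = z ∧ pc u = 0)
    (filter_subset _ _) (fun u hu => (mem_filter.1 hu).2) K hK hKz v hv hv'
  have h8 : ∑ u ∈ U.filter (fun u => ho u = z ∧ pc u = 0), (vl u + 1)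
      = ∑ u ∈ U.filter (fun u => ho u = z ∧ pc u = 0), vl u
        + ((U.filter fun u => ho u = z ∧ pc u = 0).card : ℤ) := by
    rw [sum_add_distrib, sum_const, nsmul_eq_mul, mul_one]
  rw [h1, h8] at h6
  have h7 := h6 (by linarith)
  subst he
  have e1 : s z - x - (∑ u ∈ U.filter (fun u => ho u = z ∧ pc u = 0), vl u
        + ((U.filter fun u => ho u = z ∧ pc u = 0).card : ℤ))
        + ∑ y ∈ (range n).erase z, (q y + k y)
      = mu z - x - ∑ u ∈ U.filter (fun u => ho u = z ∧ pc u = 0), vl u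
        + ∑ y ∈ (range n).erase z, (q y + k y)
        - (mu z - s z + ((U.filter fun u => ho u = z ∧ pc u = 0).card : ℤ)) := by ring
  rw [e1] at h7
  linarith [h7, h3]

/-- **the global bound** -/
theorem PConC.gloU (H : PConC R n t s mu U ho vl kp mn pc ar be kq NN sg nu) (hz : z < n)
    {lv : ι → ℕ} (hlv : ∀ u ∈ U, (lv u : ℤ) ≤ kp z u) {q k ka k1 b w f : ℕ → ℤ}
    (hu : ∀ y ∈ (range n).erase z,
      UseC n U ho vl kp mn pc be lv z y (q y) (k y) (ka y) (k1 y) (b y) (w y) (f y)) :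
    mu z + ∑ y ∈ (range n).erase z, (q y + k y) - 1 - (R - (t z + 1)) ≤ mu z - s z := by
  obtain ⟨K, v, hK, hKz, hv, hv', h1, h2, h3, h4⟩ := H.famU hz hlv hu
  have h5 := H.glob_use hz hK hKz hv'
  rw [h1] at h5
  exact h5

/-! ### ways of using -/

/-- everything of the host `y` -/
lemma PConC.use_all (H : PConC R n t s mu U ho vl kp mn pc ar be kq NN sg nu) (hz : z < n)
    (hy : y < n) (lv : ι → ℕ) :
    UseC n U ho vl kp mn pc be lv z y (be y z)
      (∑ u ∈ rnK U ho pc (fun _ => lv) z y, (lv u : ℤ))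
      ((rnK U ho pc (fun _ => lv) z y).card : ℤ)
      (((rnK U ho pc (fun _ => lv) z y).filter fun u => vl u = 1).card : ℤ)
      (∑ u ∈ rnK U ho pc (fun _ => lv) z y, msP kp mn z lv u)
      (∑ u ∈ rnK U ho pc (fun _ => lv) z y, (msP kp mn z lv u + rnA n kp be z y u))
      (((rnK U ho pc (fun _ => lv) z y).filter fun u => ¬ ∃ l < n, l ≠ z ∧ kp l u ≠ 0).card : ℤ) :=
  ⟨rnQ U ho kp pc z y, rnK U ho pc (fun _ => lv) z y, Subset.refl _, Subset.refl _,
    H.pc_cell hz hy, rfl, rfl, rfl, le_rfl, le_rfl, le_rfl⟩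

/-- nothing of the host `y` -/
lemma use_none (n : ℕ) (U : Finset ι) (ho : ι → ℕ) (vl : ι → ℤ) (kp mn : ℕ → ι → ℤ) (pc : ι → ℤ)
    (be : ℕ → ℕ → ℤ) (lv : ι → ℕ) (z y : ℕ) : UseC n U ho vl kp mn pc be lv z y 0 0 0 0 0 0 0 :=
  ⟨∅, ∅, empty_subset _, empty_subset _, rfl, rfl, rfl, rfl, le_of_eq rfl, le_of_eq rfl,
    le_of_eq rfl⟩

/-- `q` of the PC pairs and a set of `k` items of value one of the host `y`, for any weight `c` the lightest -/
lemma PConC.use_c (H : PConC R n t s mu U ho vl kp mn pc ar be kq NN sg nu) (hz : z < n)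
    (hy : y < n) {lv : ι → ℕ} (hlv : ∀ u ∈ U, (lv u : ℤ) ≤ kp z u) (c : ι → ℤ) {q k : ℕ}
    (hq : (q : ℤ) ≤ be y z)
    (hk : (k : ℤ) ≤ (((rnK U ho pc (fun _ => lv) z y).filter fun u => vl u = 1).card : ℤ)) :
    ∃ K ⊆ (rnK U ho pc (fun _ => lv) z y).filter (fun u => vl u = 1), K.card = k ∧
      (((rnK U ho pc (fun _ => lv) z y).filter fun u => vl u = 1).card : ℤ) * ∑ u ∈ K, c u
        ≤ (k : ℤ) * ∑ u ∈ (rnK U ho pc (fun _ => lv) z y).filter (fun u => vl u = 1), c u ∧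
      UseC n U ho vl kp mn pc be lv z y q k k k (∑ u ∈ K, mn z u)
        (∑ u ∈ K, (mn z u + rnA n kp be z y u)) k := by
  have h4 : q ≤ (rnQ U ho kp pc z y).card := by
    have h5 : ((rnQ U ho kp pc z y).card : ℤ) = be y z := H.pc_cell hz hy
    rw [← h5] at hq
    exact_mod_cast hq
  obtain ⟨Q, hQ, hQc⟩ := exists_subset_card_eq h4
  obtain ⟨K, hK, hKc, hKs⟩ := exists_lowN c k _
    ((rnK U ho pc (fun _ => lv) z y).filter fun u => vl u = 1) rfl (by exact_mod_cast hk)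
  have e0 : ∀ u ∈ K, u ∈ U ∧ vl u = 1 ∧ lv u = 1 ∧ kp z u = 1 := by
    intro u hu
    obtain ⟨h1, h2⟩ := mem_filter.1 (hK hu)
    obtain ⟨h3, h5, h6, h7⟩ := mem_filter.1 h1
    have h8 := hlv u h3
    have h9 := H.kv u h3 z hz
    rw [h2] at h9
    have h10 : (1 : ℤ) ≤ (lv u : ℤ) := by exact_mod_cast Nat.one_le_iff_ne_zero.2 h7
    exact ⟨h3, h2, by exact_mod_cast (show (lv u : ℤ) = 1 by linarith), by linarith⟩
  have e2 : ∀ u ∈ K, msP kp mn z lv u = mn z u := by
    intro u hu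
    unfold msP
    rw [(e0 u hu).2.2.1, (e0 u hu).2.2.2]
    exact if_pos (by norm_num)
  refine ⟨K, hK, hKc, hKs, Q, K, hQ, hK.trans (filter_subset _ _), by exact_mod_cast hQc, ?_,
    by exact_mod_cast hKc, ?_, ?_, ?_, ?_⟩
  · rw [sum_congr rfl fun u hu => by rw [(e0 u hu).2.2.1], sum_const, hKc, nsmul_eq_mul]
    simp
  · rw [filter_true_of_mem fun u hu => (e0 u hu).2.1]
    exact_mod_cast hKc
  · exact (sum_congr rfl e2).le
  · exact (sum_congr rfl fun u hu => by rw [e2 u hu]).le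
  · rw [← hKc]
    exact_mod_cast card_le_card (filter_subset _ _)

/-- `q` PC pairs and `k` items of value one, misses at most the average -/
lemma PConC.use_b (H : PConC R n t s mu U ho vl kp mn pc ar be kq NN sg nu) (hz : z < n)
    (hy : y ∈ (range n).erase z) {lv : ι → ℕ} (hlv : ∀ u ∈ U, (lv u : ℤ) ≤ kp z u) {q k : ℕ}
    (hq : (q : ℤ) ≤ be y z)
    (hk : (k : ℤ) ≤ (((rnK U ho pc (fun _ => lv) z y).filter fun u => vl u = 1).card : ℤ)) :
    ∃ b w : ℤ, 0 ≤ b ∧ b ≤ w ∧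
      (((rnK U ho pc (fun _ => lv) z y).filter fun u => vl u = 1).card : ℤ) * b
        ≤ (k : ℤ) * ∑ u ∈ (rnK U ho pc (fun _ => lv) z y).filter (fun u => vl u = 1), mn z u ∧
      UseC n U ho vl kp mn pc be lv z y q k k k b w k := by
  have hyn : y < n := mem_range.1 (mem_of_mem_erase hy)
  obtain ⟨K, hK, -, h1, h2⟩ := H.use_c hz hyn hlv (fun u => mn z u) hq hk
  have h3 : 0 ≤ ∑ u ∈ K, mn z u := sum_nonneg fun u hu =>
    H.m0 u (mem_filter.1 (mem_filter.1 (hK hu)).1).1 z hz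
  have h4 : 0 ≤ ∑ u ∈ K, rnA n kp be z y u := sum_nonneg fun u _ => by
    unfold rnA
    split_ifs
    · exact sum_nonneg fun l hl => H.be0 y hyn l
        (mem_range.1 (mem_of_mem_erase (mem_filter.1 hl).1))
    · exact le_rfl
  refine ⟨_, _, h3, ?_, h1, h2⟩
  rw [sum_add_distrib]
  linarith

/-- `q` PC pairs and `k` items of value one, misses and arcs at most the average -/
lemma PConC.use_w (H : PConC R n t s mu U ho vl kp mn pc ar be kq NN sg nu) (hz : z < n)
    (hy : y ∈ (range n).erase z) {lv : ι → ℕ} (hlv : ∀ u ∈ U, (lv u : ℤ) ≤ kp z u) {q k : ℕ}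
    (hq : (q : ℤ) ≤ be y z)
    (hk : (k : ℤ) ≤ (((rnK U ho pc (fun _ => lv) z y).filter fun u => vl u = 1).card : ℤ)) :
    ∃ b w : ℤ, 0 ≤ b ∧ b ≤ w ∧
      (((rnK U ho pc (fun _ => lv) z y).filter fun u => vl u = 1).card : ℤ) * w
        ≤ (k : ℤ) * ∑ u ∈ (rnK U ho pc (fun _ => lv) z y).filter (fun u => vl u = 1),
          (mn z u + rnA n kp be z y u) ∧
      UseC n U ho vl kp mn pc be lv z y q k k k b w k := by
  have hyn : y < n := mem_range.1 (mem_of_mem_erase hy)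
  obtain ⟨K, hK, -, h1, h2⟩ := H.use_c hz hyn hlv (fun u => mn z u + rnA n kp be z y u) hq hk
  have h3 : 0 ≤ ∑ u ∈ K, mn z u := sum_nonneg fun u hu =>
    H.m0 u (mem_filter.1 (mem_filter.1 (hK hu)).1).1 z hz
  have h4 : 0 ≤ ∑ u ∈ K, rnA n kp be z y u := sum_nonneg fun u _ => by
    unfold rnA
    split_ifs
    · exact sum_nonneg fun l hl => H.be0 y hyn l
        (mem_range.1 (mem_of_mem_erase (mem_filter.1 hl).1))
    · exact le_rfl
  refine ⟨_, _, h3, ?_, h1, h2⟩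
  rw [sum_add_distrib]
  linarith

/-! ### ways of keeping -/

/-- the sum over ordered pairs is at least their number -/
lemma PCon.off_ge (H : PCon R n t s mu U ho vl kp mn pc ar be kq NN sg nu) {P : Finset ι}
    (hP : P ⊆ U) : (P.card : ℤ) * ((P.card : ℤ) - 1) ≤ ∑ e ∈ P.offDiag, min (vl e.1) (vl e.2) := by
  have h2 : (P.card : ℤ) * ((P.card : ℤ) - 1) = (P.offDiag.card : ℤ) := by
    rw [offDiag_card]
    have h3 : P.card ≤ P.card * P.card := by
      rcases Nat.eq_zero_or_pos P.card with h5 | h5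
      · rw [h5]
      · exact Nat.le_mul_of_pos_left _ h5
    rw [Nat.cast_sub h3]
    push_cast
    ring
  rw [h2, card_eq_sum_ones, Nat.cast_sum]
  refine sum_le_sum fun e he => ?_
  obtain ⟨h3, h4, -⟩ := mem_offDiag.1 he
  rw [Nat.cast_one]
  exact le_min (H.v1 _ (hP h3)) (H.v1 _ (hP h4))

/-- the number of the plain hosted items of `z` with the end `l` -/
noncomputable def rnEl (U : Finset ι) (ho : ι → ℕ) (kp : ℕ → ι → ℤ) (pc : ι → ℤ) (z l : ℕ) : ℤ :=
  ((U.filter fun u => ho u = z ∧ pc u = 0 ∧ kp l u ≠ 0).card : ℤ)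

/-- all plain hosted items are kept; hits by any booked units `a y` -/
lemma PConC.kep_all (H : PConC R n t s mu U ho vl kp mn pc ar be kq NN sg nu) (hy : y < n)
    {a : ι → ℕ} (ha : ∀ u ∈ U, (a u : ℤ) ≤ kp y u) :
    KepC R n t U ho vl kp mn pc z y (∑ u ∈ U.filter (fun u => ho u = z ∧ pc u = 0), vl u)
      ((∑ u ∈ U.filter (fun u => ho u = z ∧ pc u = 0), (a u : ℤ)) * (R - t y)
        - ∑ u ∈ U.filter (fun u => ho u = z ∧ pc u = 0), msP kp mn y a u) 0
      (((U.filter fun u => ho u = z ∧ pc u = 0).card : ℤ)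
        * (((U.filter fun u => ho u = z ∧ pc u = 0).card : ℤ) - 1))
      (rnEl U ho kp pc z) := by
  refine ⟨_, Subset.refl _, rfl, ?_, sub_self _, H.off_ge (filter_subset _ _),
    fun l _ _ _ => ?_⟩
  · rw [sum_mul, ← sum_sub_distrib]
    refine sum_le_sum fun u hu => ?_
    have h1 := (mem_filter.1 hu).1
    have h2 := ha u h1
    have h3 := H.mnc u h1 y hy
    have h4 : 0 ≤ R - t y := by linarith [H.m0 u h1 y hy]
    unfold msP
    split_ifs with h5
    · have h6 : kp y u = (a u : ℤ) := le_antisymm h5 h2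
      rw [h6]
    · have h6 : (a u : ℤ) + 1 ≤ kp y u := by
        push Not at h5
        exact Int.add_one_le_of_lt h5
      have h7 := mul_le_mul_of_nonneg_right h6 h4
      linarith
  · unfold rnEl
    rw [filter_filter]
    refine le_of_eq ?_
    congr 2
    refine filter_congr fun u _ => ?_
    tauto

/-- no plain hosted item is kept -/
lemma kep_none (R : ℤ) (n : ℕ) (t : ℕ → ℤ) (U : Finset ι) (ho : ι → ℕ) (vl : ι → ℤ)
    (kp mn : ℕ → ι → ℤ) (pc : ι → ℤ) (z y : ℕ) :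
    KepC R n t U ho vl kp mn pc z y 0 0 ((U.filter fun u => ho u = z ∧ pc u = 0).card : ℤ) 0
      (fun _ => 0) :=
  ⟨∅, empty_subset _, rfl, le_of_eq rfl, by simp, by simp, fun _ _ _ _ => by simp⟩

/-- `m` items of value one which are booked at `y`, misses at most the average, the others out -/
lemma PConC.kep_own (H : PConC R n t s mu U ho vl kp mn pc ar be kq NN sg nu) (hy : y < n)
    {a : ℕ → ι → ℕ} (ha : ∀ u ∈ U, (a y u : ℤ) ≤ kp y u) {m : ℕ}
    (hm : (m : ℤ) ≤ ((rnM U ho vl pc a z y).card : ℤ)) :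
    ∃ b : ℤ, 0 ≤ b ∧
      ((rnM U ho vl pc a z y).card : ℤ) * b ≤ (m : ℤ) * ∑ u ∈ rnM U ho vl pc a z y, mn y u ∧
      ∃ en : ℕ → ℤ, (∀ l, 0 ≤ en l) ∧ ∑ l ∈ ((range n).erase z).erase y, en l ≤ m ∧
      KepC R n t U ho vl kp mn pc z y m (m * (R - t y) - b)
        (((U.filter fun u => ho u = z ∧ pc u = 0).card : ℤ) - m) (m * (m - 1)) en := by
  obtain ⟨S, hS, hSc, hSs⟩ := exists_lowN (fun u => mn y u) m _ (rnM U ho vl pc a z y) rfl
    (by exact_mod_cast hm)
  have h0 : ∀ u ∈ S, u ∈ U ∧ ho u = z ∧ pc u = 0 ∧ vl u = 1 ∧ kp y u = 1 := by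
    intro u hu
    obtain ⟨h1, h2, h3, h4, h5⟩ := mem_filter.1 (hS hu)
    have h6 := ha u h1
    rw [h5] at h6
    have h7 := H.kv u h1 y hy
    rw [h4] at h7
    push_cast at h6
    exact ⟨h1, h2, h3, h4, le_antisymm h7 h6⟩
  refine ⟨∑ u ∈ S, mn y u, sum_nonneg fun u hu => H.m0 u (h0 u hu).1 y hy, hSs,
    fun l => ((S.filter fun u => kp l u ≠ 0).card : ℤ), fun l => Nat.cast_nonneg _, ?_,
    S, fun u hu => mem_filter.2 ⟨(h0 u hu).1, (h0 u hu).2.1, (h0 u hu).2.2.1⟩, ?_, ?_, ?_, ?_,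
    fun l _ _ _ => le_rfl⟩
  · refine (H.other_ends hy z (fun u hu => ?_)).trans ?_
    · obtain ⟨h1, -, -, h4, h5⟩ := h0 u hu
      exact ⟨h1, h4, by rw [h5]; norm_num⟩
    · rw [← hSc]
      exact_mod_cast card_le_card (filter_subset _ _)
  · rw [sum_congr rfl fun u hu => (h0 u hu).2.2.2.1, sum_const, hSc, nsmul_eq_mul, mul_one]
  · have h1 : ∑ u ∈ S, kp y u * (R - t y) = (m : ℤ) * (R - t y) := by
      rw [← hSc, ← nsmul_eq_mul, ← sum_const]
      exact sum_congr rfl fun u hu => by rw [(h0 u hu).2.2.2.2, one_mul]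
    rw [sum_sub_distrib, h1]
  · rw [hSc]
  · rw [← hSc]
    exact H.off_ge fun u hu => (h0 u hu).1

/-! ### the numbers of the row -/

/-- **the hosted value of the plain items by booked units** -/
lemma PConC.bk_sum (_H : PConC R n t s mu U ho vl kp mn pc ar be kq NN sg nu) (hz : z < n)
    {a : ℕ → ι → ℕ} (hs : ∀ u ∈ U, ∑ i ∈ range n, (a i u : ℤ) = vl u)
    (hh : ∀ u ∈ U, a (ho u) u = 0) :
    ∑ u ∈ U.filter (fun u => ho u = z ∧ pc u = 0), vl u
      = ∑ y ∈ (range n).erase z, ∑ u ∈ U.filter (fun u => ho u = z ∧ pc u = 0), (a y u : ℤ) := by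
  rw [sum_comm]
  refine sum_congr rfl fun u hu => ?_
  obtain ⟨h1, h2, h3⟩ := mem_filter.1 hu
  have h4 := add_sum_erase (range n) (fun i => (a i u : ℤ)) (mem_range.2 hz)
  have h5 := hh u h1
  rw [h2] at h5
  rw [← hs u h1, ← h4, h5]
  simp

/-- **the ends of the plain hosted items** -/
lemma PConC.en_sum (H : PConC R n t s mu U ho vl kp mn pc ar be kq NN sg nu) (z : ℕ) :
    ∑ l ∈ (range n).erase z, rnEl U ho kp pc z l
      ≤ ∑ u ∈ U.filter (fun u => ho u = z ∧ pc u = 0), vl u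
        + ((U.filter fun u => ho u = z ∧ pc u = 0).card : ℤ) := by
  have h1 : ∀ l ∈ (range n).erase z, rnEl U ho kp pc z l
      ≤ ∑ u ∈ U.filter (fun u => ho u = z ∧ pc u = 0), kp l u := by
    intro l hl
    have hln : l < n := mem_range.1 (mem_of_mem_erase hl)
    unfold rnEl
    rw [card_filter]
    push_cast
    rw [sum_filter]
    refine sum_le_sum fun u hu => ?_
    have h2 := H.k0 u hu l hln
    split_ifs with h3 h4 h4
    · omega
    · exact absurd ⟨h3.1, h3.2.1⟩ h4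
    · exact h2
    · exact le_rfl
  refine (sum_le_sum h1).trans ?_
  rw [sum_comm, card_eq_sum_ones]
  push_cast
  rw [← sum_add_distrib]
  refine sum_le_sum fun u hu => ?_
  have h3 := (mem_filter.1 hu).1
  have h4 : ∑ l ∈ (range n).erase z, kp l u ≤ ∑ l ∈ range n, kp l u :=
    sum_le_sum_of_subset_of_nonneg (erase_subset _ _) fun l hl _ => H.k0 u h3 l (mem_range.1 hl)
  rcases H.one u h3 with ⟨i, hi, h5, h6, -, h7⟩ | ⟨-, h5⟩
  · have h8 : ∑ l ∈ range n, kp l u = 1 := by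
      rw [sum_eq_single i (fun j hj hji => h7 j (mem_range.1 hj) hji)
        (fun h => absurd (mem_range.2 hi) h), h5]
    linarith
  · linarith

end RowQC

end Pool.Agent.Lib.MP_f04ccf_co
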