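import Pool.Agent.Lib.MP_f04ccf_co.M.TabL

/-!
MP_f04ccf_co, TEXT D: **the row claim of `TabL` in share form, and row by cells**.

`z` a row, `L` the light rows, `Fh` the free units hosted at `z`, `S` the free units counted at `z`,
`d = mu z - s z`, complements `co z v`, shares `1 - co z v`.

* `PCon.mu_split`: `mu z = #Fh + #(touching units hosted at z)`;
* `PCon.row_share`: the row claim follows from `∑_Fh (1 - co) + ∑_S (1 - co) ≤ d + δ`;
* `PCon.row_cells`: the same from bounds `β y` of the cells, `∑ β ≤ d + δ`;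
* `PCon.row_one`: **82's form**: every cell sum is at most `d B_y / M`, `∑ B_y ≤ M`;
* `PCon.close_share`: the closing in share form.
-/

set_option autoImplicit false

namespace Pool.Agent.Lib.MP_f04ccf_co

open Finset

attribute [local instance] Classical.propDecidable

section RowS

variable {ι κ : Type*} {R : ℤ} {n : ℕ} {t s mu : ℕ → ℤ} {U : Finset ι} {ho : ι → ℕ} {vl : ι → ℤ}
  {kp mn : ℕ → ι → ℤ} {pc ar : ι → ℤ} {be kq NN sg : ℕ → ℕ → ℤ} {nu : ℕ → ι → ℤ}
  {V : Finset κ} {it : κ → ι} {C C' : κ → Finset ℕ} {bt ht : κ → ℕ → ℤ}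

/-- the hosted value: free and touching units -/
lemma PCon.mu_split (H : PCon R n t s mu U ho vl kp mn pc ar be kq NN sg nu)
    (hV : UnP R n t U ho vl kp mn V it C' bt ht) {z : ℕ} (hz : z < n) (L : Finset ℕ) :
    (mu z : ℝ)
      = (((freeU V (fun v => ho (it v)) C L).filter fun v => ho (it v) = z).card : ℝ)
        + (((touchU V (fun v => ho (it v)) C L).filter fun v => ho (it v) = z).card : ℝ) := by
  have b1 := H.mu_units hV hz
  have b2 : (V.filter fun v => ho (it v) = z).card
      = ((freeU V (fun v => ho (it v)) C L).filter fun v => ho (it v) = z).card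
        + ((touchU V (fun v => ho (it v)) C L).filter fun v => ho (it v) = z).card := by
    unfold freeU touchU
    rw [filter_filter, filter_filter]
    have b3 := card_filter_add_card_filter_not
      (s := V.filter fun v => ho (it v) = z) (fun v => ho (it v) ∉ L ∧ Disjoint (C v) L)
    rw [filter_filter, filter_filter] at b3
    rw [← b3]
    congr 2
    · ext v
      simp only [mem_filter]
      tauto
    · ext v
      simp only [mem_filter]
      tauto
  rw [b1, b2]
  push_cast
  rfl

/-- **the row claim in share form** -/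
theorem PCon.row_share (H : PCon R n t s mu U ho vl kp mn pc ar be kq NN sg nu)
    (hV : UnP R n t U ho vl kp mn V it C' bt ht) {z : ℕ} (hz : z < n) {L : Finset ℕ}
    {co : ℕ → κ → ℝ} {δ : ℝ}
    (h : ∑ v ∈ (freeU V (fun v => ho (it v)) C L).filter (fun v => ho (it v) = z), (1 - co z v)
        + ∑ v ∈ (freeU V (fun v => ho (it v)) C L).filter (fun v => z ∈ C v), (1 - co z v)
        ≤ ((mu z : ℝ) - s z) + δ) :
    (s z : ℝ) + (((freeU V (fun v => ho (it v)) C L).filter fun v => z ∈ C v).card : ℝ)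
      ≤ ∑ v ∈ (freeU V (fun v => ho (it v)) C L).filter (fun v => ho (it v) = z), co z v
        + ∑ v ∈ (freeU V (fun v => ho (it v)) C L).filter (fun v => z ∈ C v), co z v
        + (((touchU V (fun v => ho (it v)) C L).filter fun v => ho (it v) = z).card : ℝ) + δ := by
  have h1 := H.mu_split hV hz (C := C) L
  rw [sum_sub_distrib, sum_sub_distrib, sum_const, sum_const, nsmul_eq_mul, nsmul_eq_mul, mul_one,
    mul_one] at h
  linarith

/-- **the row claim by cells** -/
theorem PCon.row_cells (H : PCon R n t s mu U ho vl kp mn pc ar be kq NN sg nu)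
    (hV : UnP R n t U ho vl kp mn V it C' bt ht) {z : ℕ} (hz : z < n) {L : Finset ℕ}
    {co : ℕ → κ → ℝ} {δ : ℝ} {pr : κ → ℕ} {P : Finset ℕ} {β : ℕ → ℝ}
    (hP : ∀ v ∈ freeU V (fun v => ho (it v)) C L, ho (it v) = z ∨ z ∈ C v → pr v ∈ P)
    (hc : ∀ y ∈ P,
      ∑ v ∈ (freeU V (fun v => ho (it v)) C L).filter (fun v => ho (it v) = z ∧ pr v = y),
          (1 - co z v)
        + ∑ v ∈ (freeU V (fun v => ho (it v)) C L).filter (fun v => z ∈ C v ∧ pr v = y),
          (1 - co z v) ≤ β y)
    (hb : ∑ y ∈ P, β y ≤ ((mu z : ℝ) - s z) + δ) :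
    (s z : ℝ) + (((freeU V (fun v => ho (it v)) C L).filter fun v => z ∈ C v).card : ℝ)
      ≤ ∑ v ∈ (freeU V (fun v => ho (it v)) C L).filter (fun v => ho (it v) = z), co z v
        + ∑ v ∈ (freeU V (fun v => ho (it v)) C L).filter (fun v => z ∈ C v), co z v
        + (((touchU V (fun v => ho (it v)) C L).filter fun v => ho (it v) = z).card : ℝ) + δ := by
  refine H.row_share hV hz ?_
  have e1 : ∑ v ∈ (freeU V (fun v => ho (it v)) C L).filter (fun v => ho (it v) = z), (1 - co z v)
      = ∑ y ∈ P, ∑ v ∈ (freeU V (fun v => ho (it v)) C L).filter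
          (fun v => ho (it v) = z ∧ pr v = y), (1 - co z v) := by
    rw [← sum_fiberwise_of_maps_to (t := P) (g := pr) fun v hv => hP v (mem_filter.1 hv).1
      (Or.inl (mem_filter.1 hv).2)]
    exact sum_congr rfl fun y _ => by rw [filter_filter]
  have e2 : ∑ v ∈ (freeU V (fun v => ho (it v)) C L).filter (fun v => z ∈ C v), (1 - co z v)
      = ∑ y ∈ P, ∑ v ∈ (freeU V (fun v => ho (it v)) C L).filter
          (fun v => z ∈ C v ∧ pr v = y), (1 - co z v) := by
    rw [← sum_fiberwise_of_maps_to (t := P) (g := pr) fun v hv => hP v (mem_filter.1 hv).1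
      (Or.inr (mem_filter.1 hv).2)]
    exact sum_congr rfl fun y _ => by rw [filter_filter]
  rw [e1, e2, ← sum_add_distrib]
  exact (sum_le_sum hc).trans hb

/-- **one cell claim**: every cell sum is at most `d B_y / M`, the masses `B` sum to at most `M` -/
theorem PCon.row_one (H : PCon R n t s mu U ho vl kp mn pc ar be kq NN sg nu)
    (hV : UnP R n t U ho vl kp mn V it C' bt ht) {z : ℕ} (hz : z < n) {L : Finset ℕ}
    {co : ℕ → κ → ℝ} {pr : κ → ℕ} {P : Finset ℕ} {B : ℕ → ℝ} {M : ℝ} (hM : 0 < M)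
    (hB : ∑ y ∈ P, B y ≤ M) (hd : 0 ≤ (mu z : ℝ) - s z)
    (hP : ∀ v ∈ freeU V (fun v => ho (it v)) C L, ho (it v) = z ∨ z ∈ C v → pr v ∈ P)
    (hc : ∀ y ∈ P,
      M * (∑ v ∈ (freeU V (fun v => ho (it v)) C L).filter (fun v => ho (it v) = z ∧ pr v = y),
          (1 - co z v)
        + ∑ v ∈ (freeU V (fun v => ho (it v)) C L).filter (fun v => z ∈ C v ∧ pr v = y),
          (1 - co z v)) ≤ ((mu z : ℝ) - s z) * B y) :
    (s z : ℝ) + (((freeU V (fun v => ho (it v)) C L).filter fun v => z ∈ C v).card : ℝ)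
      ≤ ∑ v ∈ (freeU V (fun v => ho (it v)) C L).filter (fun v => ho (it v) = z), co z v
        + ∑ v ∈ (freeU V (fun v => ho (it v)) C L).filter (fun v => z ∈ C v), co z v
        + (((touchU V (fun v => ho (it v)) C L).filter fun v => ho (it v) = z).card : ℝ)
        + 0 := by
  refine H.row_cells hV hz (β := fun y => ((mu z : ℝ) - s z) * B y / M) hP (fun y hy => ?_) ?_
  · rw [le_div_iff₀ hM, mul_comm]
    exact hc y hy
  · rw [← sum_div, ← mul_sum, add_zero, div_le_iff₀ hM]
    exact mul_le_mul_of_nonneg_left hB hd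

/-- **the closing by cells**: complements in sum at most `#(C v)`, every heavy row satisfies its share form -/
theorem PCon.close_share (H : PCon R n t s mu U ho vl kp mn pc ar be kq NN sg nu)
    (hV : UnP R n t U ho vl kp mn V it C' bt ht) (hC : ∀ v ∈ V, ∀ i ∈ C v, i < n)
    {co : ℕ → κ → ℝ} {δ : ℕ → ℝ}
    (h1 : ∀ v ∈ freeU V (fun v => ho (it v)) C (lightU n s V C),
      co (ho (it v)) v + ∑ i ∈ C v, co i v ≤ ((C v).card : ℝ))
    (h2 : ∀ z < n, z ∉ lightU n s V C → 1 ≤ s z + ((V.filter fun v => z ∈ C v).card : ℤ) →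
      ∑ v ∈ (freeU V (fun v => ho (it v)) C (lightU n s V C)).filter (fun v => ho (it v) = z),
          (1 - co z v)
        + ∑ v ∈ (freeU V (fun v => ho (it v)) C (lightU n s V C)).filter (fun v => z ∈ C v),
          (1 - co z v) ≤ ((mu z : ℝ) - s z) + δ z)
    (h3 : ∑ i ∈ (range n).filter (fun i => i ∉ lightU n s V C), δ i < 1) : False :=
  H.close_light (fun v hv => H.hlt _ (hV.mem v hv)) hC h1
    (fun z hz hzL hp => H.row_share hV hz (h2 z hz hzL hp)) h3

end RowS

end Pool.Agent.Lib.MP_f04ccf_co
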