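import Pool.Agent.Lib.MP_f04ccf_co.M.RowSm

/-!
MP_f04ccf_co, TEXT D, regime L: **light rows, all types**, other factors.

* `LevC.row_smG`: any factor `p / q`, the numbers as a hypothesis;
* `LevC.row_sm08`: `25 A ≤ 2 R`, factor `3/2`; `LevC.row_sm11`: `11 A ≤ R`, factor `2`.
-/

set_option autoImplicit false

namespace Pool.Agent.Lib.MP_f04ccf_co

open Finset

attribute [local instance] Classical.propDecidable

section RowSmB

variable {ι : Type*} {R : ℤ} {n : ℕ} {t s mu : ℕ → ℤ} {U : Finset ι} {ho : ι → ℕ} {vl : ι → ℤ}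
  {kp mn : ℕ → ι → ℤ} {pc ar : ι → ℤ} {be kq NN sg : ℕ → ℕ → ℤ} {nu : ℕ → ι → ℤ} {z y : ℕ}
  {g : ℕ → ι → ℕ} {f : ι → ℕ}

/-- **any factor `p / q`** -/
theorem LevC.row_smG (Lv : LevC n U ho vl kp mn pc (fun u i => mn i u) g f)
    (H : PCon R n t s mu U ho vl kp mn pc ar be kq NN sg nu) (hz : z < n)
    (hL : ∀ j < n, 2 * (t j + 1) ≤ R) {θ : ι × ℕ × ℕ → ℝ} (hθ : ∀ v ∈ unV n U g, 0 ≤ θ v) {p q : ℤ}
    (hq : 0 < q) (hs : ∀ v ∈ unV n U g, v.2.1 = z → θ v ≤ 1 - (p : ℝ) / q / R * (unb kp mn g v : ℝ))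
    (hh : ∀ v ∈ unV n U g, ho v.1 = z → 2 * ((t z : ℝ) + 1) / ((R : ℝ) + 2 * ((t z : ℝ) + 1))
      ≤ (1 - ((t v.2.1 : ℝ) + 1) / ((t z : ℝ) + 1 + ((t v.2.1 : ℝ) + 1))) * θ v)
    (hn : q * ((∑ y ∈ (range n).erase z, rnE U ho vl pc be g z y) * R)
        - p * ∑ y ∈ (range n).erase z, rnSb U ho kp mn pc g z y
      ≤ q * ((R + 2 * (t z + 1)) * (mu z - s z))) :
    ∑ y ∈ (range n).erase z,
        (((t y : ℝ) + 1) / ((t z : ℝ) + 1 + ((t y : ℝ) + 1)) * (rnE U ho vl pc be g z y : ℝ)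
        + ((1 - ((t y : ℝ) + 1) / ((t z : ℝ) + 1 + ((t y : ℝ) + 1))) * rnHl n U ho g θ z y
          - ((t y : ℝ) + 1) / ((t z : ℝ) + 1 + ((t y : ℝ) + 1)) * rnSl n U ho g θ z y))
      ≤ (mu z : ℝ) - s z := by
  have hR0 : (0 : ℝ) < R := by exact_mod_cast R_pos H
  have htz := H.t0 z hz
  have htz' : (0 : ℝ) ≤ t z := by exact_mod_cast htz
  have hq' : (0 : ℝ) < q := by exact_mod_cast hq
  refine (Lv.row_s0 H hz hL hθ hs hh).trans ?_
  generalize (∑ y ∈ (range n).erase z, rnE U ho vl pc be g z y) = E at *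
  generalize (∑ y ∈ (range n).erase z, rnSb U ho kp mn pc g z y) = B at *
  have h2 : (q : ℝ) * ((E : ℝ) * R) - p * B
      ≤ q * (((R : ℝ) + 2 * ((t z : ℝ) + 1)) * (mu z - s z)) := by
    exact_mod_cast hn
  have h3 : (R : ℝ) / ((R : ℝ) + 2 * ((t z : ℝ) + 1)) * ((E : ℝ) - (p : ℝ) / q / R * B)
      = (q * ((E : ℝ) * R) - p * B) / (q * ((R : ℝ) + 2 * ((t z : ℝ) + 1))) := by
    field_simp
  rw [h3, div_le_iff₀ (by positivity)]
  linarith

/-- numbers, `25 A ≤ 2 R`, factor `3/2` -/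
lemma sm_num08 {R A d e sb M : ℤ} (hR : 100 ≤ R) (hA1 : 1 ≤ A) (hA : 25 * A ≤ 2 * R) (hd0 : 0 ≤ d)
    (hdA : d ≤ A) (he : d + 1 ≤ e) (hsb : 20 * sb ≤ (25 * A + 2 * R + 25) * e)
    (hM0 : 0 ≤ M) (hMR : M ≤ R) (hM : M * (2 * R - M - A) ≤ 2 * (R * A))
    (hten : 2 * e ≤ R → (R - 2 * e) * (e - d) ≤ A * e + sb)
    (hq : ∀ q : ℤ, 0 ≤ q → M ≤ q → q ≤ e → 2 * q ≤ R →
      20 * ((R - 2 * q) * (q - d)) ≤ (20 * A + (25 * A + 2 * R + 25)) * q) :
    2 * (e * R) - 3 * sb ≤ 2 * ((R + 2 * A) * d) := by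
  have hM8 : 8 * M ≤ R := by
    by_contra hc
    push Not at hc
    have h1 : 0 ≤ (8 * M - R) * (R - M) := mul_nonneg (by linarith) (by linarith)
    nlinarith
  by_cases h1 : 7 * e ≤ R
  · have h2 := hten (by linarith)
    have h3 : (4 * A + 6 * e - R) * (e - d) ≤ A * e := by
      rcases le_or_gt (4 * A + 6 * e - R) 0 with h4 | h4
      · have h5 : (4 * A + 6 * e - R) * (e - d) ≤ 0 :=
          mul_nonpos_of_nonpos_of_nonneg h4 (by linarith)
        have h6 : 0 ≤ A * e := mul_nonneg (by linarith) (by linarith)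
        linarith
      · have h5 : 20 * ((R - 2 * e) * (e - d)) ≤ (45 * A + 2 * R + 25) * e := by nlinarith
        have h6 : 0 ≤ e - d := by linarith
        have h7 : 7 * (4 * A + 6 * e - R) ≤ 28 * A - R := by linarith
        have h8 : 100 * (R * (e - d)) ≤ 7 * ((45 * A + 2 * R + 25) * e) := by
          nlinarith [mul_nonneg (by linarith : (0 : ℤ) ≤ R - 7 * e) h6]
        have h9 : 0 ≤ 28 * A - R := by linarith
        have h10 : 100 * R * ((4 * A + 6 * e - R) * (e - d))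
            ≤ (28 * A - R) * ((45 * A + 2 * R + 25) * e) := by
          have h11 := mul_le_mul_of_nonneg_left h8 h9
          have h12 := mul_le_mul_of_nonneg_right h7
            (mul_nonneg (by linarith : (0 : ℤ) ≤ 100 * R) h6)
          nlinarith
        have h13 : (28 * A - R) * (45 * A + 2 * R + 25) ≤ 100 * (A * R) := by
          nlinarith [mul_nonneg (by linarith : (0 : ℤ) ≤ 2 * R - 25 * A) (by linarith : (0 : ℤ) ≤ A),
            mul_nonneg (by linarith : (0 : ℤ) ≤ 2 * R - 25 * A) (by linarith : (0 : ℤ) ≤ R),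
            mul_nonneg (by linarith : (0 : ℤ) ≤ R - 100) (by linarith : (0 : ℤ) ≤ R)]
        have h14 : 100 * R * ((4 * A + 6 * e - R) * (e - d)) ≤ 100 * R * (A * e) := by
          have h15 := mul_le_mul_of_nonneg_right h13 (by linarith : (0 : ℤ) ≤ e)
          nlinarith
        exact le_of_mul_le_mul_left h14 (by linarith)
    nlinarith
  · exfalso
    push Not at h1
    have h2 := hq (R / 7 + 1) (by omega) (by omega) (by omega) (by omega)
    obtain ⟨v, hv⟩ : ∃ v : ℤ, v = 7 * (R / 7 + 1) - R := ⟨_, rfl⟩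
    have hv1 : 1 ≤ v := by omega
    have hv2 : v ≤ 7 := by omega
    generalize R / 7 + 1 = q at *
    have h3 : 0 ≤ R - 2 * q := by linarith
    have h4 : 20 * ((R - 2 * q) * (q - A)) ≤ (45 * A + 2 * R + 25) * q := by
      nlinarith [mul_le_mul_of_nonneg_left (by linarith : q - A ≤ q - d) h3]
    have h5 : 20 * ((5 * R - 2 * v) * (R + v - 7 * A))
        ≤ 7 * ((45 * A + 2 * R + 25) * (R + v)) := by
      have h6 : R + v = 7 * q := by linarith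
      have h7 : 5 * R - 2 * v = 7 * (R - 2 * q) := by linarith
      rw [h6, h7]
      nlinarith
    nlinarith [mul_nonneg (by linarith : (0 : ℤ) ≤ 2 * R - 25 * A) (by linarith : (0 : ℤ) ≤ R),
      mul_nonneg (by linarith : (0 : ℤ) ≤ v - 1) (by linarith : (0 : ℤ) ≤ R),
      mul_nonneg (by linarith : (0 : ℤ) ≤ v - 1) (by linarith : (0 : ℤ) ≤ 7 - v),
      mul_nonneg (by linarith : (0 : ℤ) ≤ v - 1) (by linarith : (0 : ℤ) ≤ 2 * R - 25 * A),
      mul_nonneg (by linarith : (0 : ℤ) ≤ R - 100) (by linarith : (0 : ℤ) ≤ R)]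

/-- numbers, `11 A ≤ R`, factor `2` -/
lemma sm_num11 {R A d e sb M : ℤ} (hR : 100 ≤ R) (hA1 : 1 ≤ A) (hA : 11 * A ≤ R)
    (hdA : d ≤ A) (he : d + 1 ≤ e)
    (hM0 : 0 ≤ M) (hMR : M ≤ R) (hM : M * (2 * R - M - A) ≤ 2 * (R * A))
    (hten : 2 * e ≤ R → (R - 2 * e) * (e - d) ≤ A * e + sb)
    (hq : ∀ q : ℤ, 0 ≤ q → M ≤ q → q ≤ e → 2 * q ≤ R →
      72 * ((R - 2 * q) * (q - d)) ≤ (72 * A + (81 * A + 8 * R + 81)) * q) :
    e * R - 2 * sb ≤ (R + 2 * A) * d := by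
  have hM8 : 7 * M ≤ R := by
    by_contra hc
    push Not at hc
    have h1 : 0 ≤ (7 * M - R) * (R - M) := mul_nonneg (by linarith) (by linarith)
    nlinarith
  by_cases h1 : 4 * e ≤ R - 2 * A
  · have h2 := hten (by linarith)
    nlinarith [mul_nonneg (by linarith : (0 : ℤ) ≤ R - 2 * A - 4 * e)
      (by linarith : (0 : ℤ) ≤ e - d)]
  · exfalso
    push Not at h1
    have h2 := hq ((R - 2 * A) / 4 + 1) (by omega) (by omega) (by omega) (by omega)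
    obtain ⟨v, hv⟩ : ∃ v : ℤ, v = 4 * ((R - 2 * A) / 4 + 1) - (R - 2 * A) := ⟨_, rfl⟩
    have hv1 : 1 ≤ v := by omega
    have hv2 : v ≤ 4 := by omega
    generalize (R - 2 * A) / 4 + 1 = q at *
    have h3 : 0 ≤ R - 2 * q := by linarith
    have h4 : 72 * ((R - 2 * q) * (q - A)) ≤ (153 * A + 8 * R + 81) * q := by
      nlinarith [mul_le_mul_of_nonneg_left (by linarith : q - A ≤ q - d) h3]
    have h5 : 36 * ((R + 2 * A - v) * (R - 6 * A + v))
        ≤ (153 * A + 8 * R + 81) * (R - 2 * A + v) := by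
      have h6 : R - 2 * A + v = 4 * q := by linarith
      have h7 : R + 2 * A - v = 2 * (R - 2 * q) := by linarith
      have h8 : R - 6 * A + v = 4 * (q - A) := by linarith
      rw [h6, h7, h8]
      nlinarith
    nlinarith [mul_nonneg (by linarith : (0 : ℤ) ≤ R - 11 * A) (by linarith : (0 : ℤ) ≤ R),
      mul_nonneg (by linarith : (0 : ℤ) ≤ R - 11 * A) (by linarith : (0 : ℤ) ≤ A),
      mul_nonneg (by linarith : (0 : ℤ) ≤ v - 1) (by linarith : (0 : ℤ) ≤ R),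
      mul_nonneg (by linarith : (0 : ℤ) ≤ 4 - v) (by linarith : (0 : ℤ) ≤ R),
      mul_nonneg (by linarith : (0 : ℤ) ≤ v - 1) (by linarith : (0 : ℤ) ≤ 4 - v),
      mul_nonneg (by linarith : (0 : ℤ) ≤ v - 1) (by linarith : (0 : ℤ) ≤ A),
      mul_nonneg (by linarith : (0 : ℤ) ≤ R - 100) (by linarith : (0 : ℤ) ≤ R)]

/-- **LIGHT ROWS, `A ≤ 2 R / 25`, all types, factor `3/2`** -/
theorem LevC.row_sm08 (Lv : LevC n U ho vl kp mn pc (fun u i => mn i u) g f)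
    (H : PCon R n t s mu U ho vl kp mn pc ar be kq NN sg nu) (hz : z < n) (hR : 100 ≤ R)
    (hA : 25 * (t z + 1) ≤ 2 * R) (hL : ∀ j < n, 2 * (t j + 1) ≤ R) {θ : ι × ℕ × ℕ → ℝ}
    (hθ : ∀ v ∈ unV n U g, 0 ≤ θ v)
    (hs : ∀ v ∈ unV n U g, v.2.1 = z → θ v ≤ 1 - 3 / 2 / R * (unb kp mn g v : ℝ))
    (hh : ∀ v ∈ unV n U g, ho v.1 = z → 2 * ((t z : ℝ) + 1) / ((R : ℝ) + 2 * ((t z : ℝ) + 1))
      ≤ (1 - ((t v.2.1 : ℝ) + 1) / ((t z : ℝ) + 1 + ((t v.2.1 : ℝ) + 1))) * θ v)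
    (he : mu z - s z + 1 ≤ ∑ y ∈ (range n).erase z, rnE U ho vl pc be g z y) :
    ∑ y ∈ (range n).erase z,
        (((t y : ℝ) + 1) / ((t z : ℝ) + 1 + ((t y : ℝ) + 1)) * (rnE U ho vl pc be g z y : ℝ)
        + ((1 - ((t y : ℝ) + 1) / ((t z : ℝ) + 1 + ((t y : ℝ) + 1))) * rnHl n U ho g θ z y
          - ((t y : ℝ) + 1) / ((t z : ℝ) + 1 + ((t y : ℝ) + 1)) * rnSl n U ho g θ z y))
      ≤ (mu z : ℝ) - s z := by
  have htz := H.t0 z hz
  obtain ⟨-, k2, k3⟩ := Lv.sm_facts H hz (w := 20) (v := 25 * (t z + 1) + 2 * R + 25)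
    (by linarith) fun u hu => Lv.ms20 H hu hz hL
  obtain ⟨m1, m2, m3⟩ := H.kept_q hz (by linarith) (by linarith) rfl
  exact Lv.row_smG H hz hL hθ (p := 3) (q := 2) (by norm_num) (fun v hv hvz => by
      have := hs v hv hvz
      push_cast
      exact this) hh
    (sm_num08 (R := R) (A := t z + 1) (d := mu z - s z) (M := mu z - ∑ l ∈ range n, kq z l) hR
      (by linarith) hA (H.d_nonneg hz) (by have := H.dt z hz; linarith) he k2 m1 m2 m3 k3
      fun q hq0 hq1 hq2 hq3 =>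
        Lv.sub_ten H hz (by norm_num) (by linarith) (fun u hu _ => Lv.ms20 H hu hz hL) hq0 hq1 hq2
          hq3)

/-- **LIGHT ROWS, `A ≤ R / 11`, all types, factor `2`** -/
theorem LevC.row_sm11 (Lv : LevC n U ho vl kp mn pc (fun u i => mn i u) g f)
    (H : PCon R n t s mu U ho vl kp mn pc ar be kq NN sg nu) (hz : z < n) (hR : 100 ≤ R)
    (hA : 11 * (t z + 1) ≤ R) (hL : ∀ j < n, 2 * (t j + 1) ≤ R) {θ : ι × ℕ × ℕ → ℝ}
    (hθ : ∀ v ∈ unV n U g, 0 ≤ θ v)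
    (hs : ∀ v ∈ unV n U g, v.2.1 = z → θ v ≤ 1 - 2 / R * (unb kp mn g v : ℝ))
    (hh : ∀ v ∈ unV n U g, ho v.1 = z → 2 * ((t z : ℝ) + 1) / ((R : ℝ) + 2 * ((t z : ℝ) + 1))
      ≤ (1 - ((t v.2.1 : ℝ) + 1) / ((t z : ℝ) + 1 + ((t v.2.1 : ℝ) + 1))) * θ v)
    (he : mu z - s z + 1 ≤ ∑ y ∈ (range n).erase z, rnE U ho vl pc be g z y) :
    ∑ y ∈ (range n).erase z,
        (((t y : ℝ) + 1) / ((t z : ℝ) + 1 + ((t y : ℝ) + 1)) * (rnE U ho vl pc be g z y : ℝ)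
        + ((1 - ((t y : ℝ) + 1) / ((t z : ℝ) + 1 + ((t y : ℝ) + 1))) * rnHl n U ho g θ z y
          - ((t y : ℝ) + 1) / ((t z : ℝ) + 1 + ((t y : ℝ) + 1)) * rnSl n U ho g θ z y))
      ≤ (mu z : ℝ) - s z := by
  have htz := H.t0 z hz
  obtain ⟨-, -, k3⟩ := Lv.sm_facts H hz (w := 20) (v := 25 * (t z + 1) + 2 * R + 25)
    (by linarith) fun u hu => Lv.ms20 H hu hz hL
  obtain ⟨m1, m2, m3⟩ := H.kept_q hz (by linarith) (by linarith) rfl
  refine Lv.row_smG H hz hL hθ (p := 2) (q := 1) (by norm_num) (fun v hv hvz => ?_) hh ?_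
  · have := hs v hv hvz
    push_cast
    rw [div_one]
    exact this
  · have h1 := sm_num11 (R := R) (A := t z + 1) (d := mu z - s z)
      (M := mu z - ∑ l ∈ range n, kq z l) hR
      (by linarith) hA (by have := H.dt z hz; linarith) he m1 m2 m3 k3
      fun q hq0 hq1 hq2 hq3 =>
        Lv.sub_ten H hz (by norm_num) (by linarith) (fun u hu _ => Lv.ms72 H hu hz hL) hq0 hq1 hq2
          hq3
    linarith

end RowSmB

end Pool.Agent.Lib.MP_f04ccf_co
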