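import Pool.Agent.Lib.MP_f04ccf_co.M.RowSm
import Pool.Agent.Lib.MP_f04ccf_co.M.ClosM6

/-!
MP_f04ccf_co, TEXT D, regime L, **table L6 (cliques with the full ramp): the rows `R ≤ 2 A³`, `40 A ≤ 3 R`**
(`LevC.rowM6_sm`), in the letters of `LevC.close_M6`.
-/

set_option autoImplicit false

namespace Pool.Agent.Lib.MP_f04ccf_co

open Finset

attribute [local instance] Classical.propDecidable

section RowSmC

variable {ι : Type*} {R : ℤ} {n : ℕ} {t s mu : ℕ → ℤ} {U : Finset ι} {ho : ι → ℕ} {vl : ι → ℤ}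
  {kp mn : ℕ → ι → ℤ} {pc ar : ι → ℤ} {be kq NN sg : ℕ → ℕ → ℤ} {nu : ℕ → ι → ℤ} {z y : ℕ}
  {g : ℕ → ι → ℕ} {f : ι → ℕ}

/-- **table L6: the light rows** -/
theorem LevC.rowM6_sm (Lv : LevC n U ho vl kp mn pc (fun u i => mn i u) g f)
    (H : PCon R n t s mu U ho vl kp mn pc ar be kq NN sg nu) (hR : 65 ≤ R)
    (hA : ∀ i < n, 2 * (t i + 1) ≤ R) (hz : z < n) (h3 : R ≤ 2 * (t z + 1) ^ 3)
    (h40 : 40 * (t z + 1) ≤ 3 * R)
    (he : mu z - s z + 1 ≤ ∑ y ∈ (range n).erase z, rnE U ho vl pc be g z y) (P : Finset ℕ)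
    (hP : P ⊆ (range n).erase z) :
    RowM6 R P (t z + 1) (mu z - s z) (fun y => t y + 1) (rnE U ho vl pc be g z)
      (rnHr U ho vl kp mn pc g (rL6c R t vl) z) (rnSr U ho kp mn pc g (rL6c R t vl) z) := by
  have hR0 := R_pos H
  have hR0' : (0 : ℝ) < R := by exact_mod_cast hR0
  have htz : (0 : ℝ) ≤ t z := by exact_mod_cast H.t0 z hz
  have ht2 : ∀ i < n, 2 * t i ≤ R := fun i hi => by
    have := hA i hi
    linarith
  have hub : ∀ v ∈ unV n U g, (0 : ℝ) ≤ unb kp mn g v := fun v hv => by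
    exact_mod_cast LevC.unb_nonneg H hv
  have hθ : ∀ v ∈ unV n U g, 0 ≤ 1 - rL6c R t vl v.2.1 v.1 * (unb kp mn g v : ℝ)
      ∧ 1 - rL6c R t vl v.2.1 v.1 * (unb kp mn g v : ℝ) ≤ 1 := fun v hv => by
    have h6 := rL6c_nonneg (t := t) (vl := vl) hR0 v.2.1 v.1
    exact ⟨by linarith [Lv.rL6c_le H ht2 hv], by nlinarith [mul_nonneg h6 (hub v hv)]⟩
  have h1 := Lv.row_sm75 H hz (by linarith) h40 hA
    (θ := fun v => 1 - rL6c R t vl v.2.1 v.1 * (unb kp mn g v : ℝ)) (fun v hv => (hθ v hv).1)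
    (fun v hv hvz => by
      obtain ⟨F, k1, -, -, -, -, k6⟩ := rL6c_facts (t := t) (vl := vl) hR0 v.2.1 v.1
      rw [hvz] at k1 k6
      have k7 := k6 h3 h40
      rw [hvz, k1]
      have k8 : 7 / 5 / (R : ℝ) * (unb kp mn g v : ℝ) ≤ F / (R : ℝ) * (unb kp mn g v : ℝ) :=
        mul_le_mul_of_nonneg_right ((div_le_div_iff_of_pos_right hR0').2 k7) (hub v hv)
      linarith)
    (fun v hv hvz => by
      have k1 := Lv.rL6c_host H hR hA hv (by rw [hvz]; exact h40)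
      rw [hvz] at k1
      refine k1.trans (le_of_eq ?_)
      have htm : (0 : ℝ) ≤ t v.2.1 := by exact_mod_cast H.t0 _ (LevC.mem_unV hv).2.1
      have k2 : (t z : ℝ) + 1 + ((t v.2.1 : ℝ) + 1) ≠ 0 := by positivity
      have k3 : 1 - ((t v.2.1 : ℝ) + 1) / ((t z : ℝ) + 1 + ((t v.2.1 : ℝ) + 1))
          = ((t z : ℝ) + 1) / ((t z : ℝ) + 1 + ((t v.2.1 : ℝ) + 1)) := by
        field_simp
        ring
      rw [k3]) he
  have h2 : (0 : ℝ) ≤ ((t z : ℝ) + 1) / ((R : ℝ) + 1) := by positivity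
  unfold RowM6
  push_cast
  have h4 : ∀ y ∈ (range n).erase z,
      ((t y : ℝ) + 1) / ((t z : ℝ) + 1 + ((t y : ℝ) + 1)) * (rnE U ho vl pc be g z y : ℝ)
        + ((1 - ((t y : ℝ) + 1) / ((t z : ℝ) + 1 + ((t y : ℝ) + 1)))
            * rnHr U ho vl kp mn pc g (rL6c R t vl) z y
          - ((t y : ℝ) + 1) / ((t z : ℝ) + 1 + ((t y : ℝ) + 1))
            * rnSr U ho kp mn pc g (rL6c R t vl) z y)
      = ((t y : ℝ) + 1) / ((t z : ℝ) + 1 + ((t y : ℝ) + 1)) * (rnE U ho vl pc be g z y : ℝ)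
        + ((1 - ((t y : ℝ) + 1) / ((t z : ℝ) + 1 + ((t y : ℝ) + 1)))
            * rnHl n U ho g (fun v => 1 - rL6c R t vl v.2.1 v.1 * (unb kp mn g v : ℝ)) z y
          - ((t y : ℝ) + 1) / ((t z : ℝ) + 1 + ((t y : ℝ) + 1))
            * rnSl n U ho g (fun v => 1 - rL6c R t vl v.2.1 v.1 * (unb kp mn g v : ℝ)) z y) := by
    intro y hy
    have hyn := mem_range.1 (mem_of_mem_erase hy)
    rw [Lv.rnHl_r H hyn (rL6c R t vl) z, Lv.rnSl_r H hz (rL6c R t vl) y]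
  have h5 : ∑ y ∈ P,
      (((t y : ℝ) + 1) / ((t z : ℝ) + 1 + ((t y : ℝ) + 1)) * (rnE U ho vl pc be g z y : ℝ)
        + ((1 - ((t y : ℝ) + 1) / ((t z : ℝ) + 1 + ((t y : ℝ) + 1)))
            * rnHr U ho vl kp mn pc g (rL6c R t vl) z y
          - ((t y : ℝ) + 1) / ((t z : ℝ) + 1 + ((t y : ℝ) + 1))
            * rnSr U ho kp mn pc g (rL6c R t vl) z y)) ≤ (mu z : ℝ) - s z := by
    refine (sum_le_sum_of_subset_of_nonneg hP fun y hy _ => ?_).trans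
      ((le_of_eq (sum_congr rfl fun y hy => h4 y hy)).trans h1)
    rw [h4 y hy]
    have hyn := mem_range.1 (mem_of_mem_erase hy)
    have hty : (0 : ℝ) ≤ t y := by exact_mod_cast H.t0 y hyn
    refine Lv.cell_nonneg H hz hyn hθ (by positivity) ?_
    rw [div_le_one (by positivity)]
    linarith
  linarith

end RowSmC

end Pool.Agent.Lib.MP_f04ccf_co
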