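import Pool.Agent.Lib.MP_f04ccf_co.M.RowJW

/-!
MP_f04ccf_co, TEXT D: **any row test and any columns with weights, one inequality per unit** (concentrated packings).

* `PConC.linN`: tN in linear form, second order part `4 (m + K) (m + K - d)`;
* `PConC.rowW`: weight `ν` on a row test with the second order part `QT`, weights `π y` on the columns `y ∈ J` with the
  second order parts `QP y`; per unit: `X` hosted, `Y` used, with an allowance `β` for the used units;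
* `rowW_N`, `rowW_T`: with tN | the exact row test and the columns of `M/RowJ.lean`.
-/

set_option autoImplicit false

namespace Pool.Agent.Lib.MP_f04ccf_co

open Finset

attribute [local instance] Classical.propDecidable

section RowW

variable {ι κ : Type*} {R : ℤ} {n : ℕ} {t s mu : ℕ → ℤ} {U : Finset ι} {ho : ι → ℕ} {vl : ι → ℤ}
  {kp mn : ℕ → ι → ℤ} {pc ar : ι → ℤ} {be kq NN sg : ℕ → ℕ → ℤ} {nu : ℕ → ι → ℤ}
  {V : Finset κ} {it : κ → ι} {C : κ → Finset ℕ} {bt ht : κ → ℕ → ℤ} {z y : ℕ}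
  {S : Finset κ}

/-- **tN in linear form** -/
theorem PCon.linN (H : PCon R n t s mu U ho vl kp mn pc ar be kq NN sg nu)
    (hV : UnP R n t U ho vl kp mn V it C bt ht) (hz : z < n)
    (hS : S ⊆ V.filter fun v => z ∈ C v) {A m d : ℤ} (hA : A = t z + 1) (hm : m = mu z)
    (hd : d = mu z - s z) (h2 : 2 * (m + (S.card : ℤ)) ≤ R) :
    2 * ((R - A) * m) + 2 * ∑ v ∈ S, ((R - A) - bt v z)
      ≤ 2 * (R * d) + 4 * ((m + (S.card : ℤ)) * (m + (S.card : ℤ) - d)) := by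
  have h := H.unN hV hz hS (by rw [← hm]; exact h2)
  have e1 : s z + (S.card : ℤ) = m + (S.card : ℤ) - d := by rw [hm, hd]; ring
  rw [e1, ← hm, ← hA] at h
  rw [sum_sub_distrib, sum_const, nsmul_eq_mul]
  linarith

/-- **any row test and any columns with weights** -/
theorem PConC.rowW (H : PConC R n t s mu U ho vl kp mn pc ar be kq NN sg nu)
    (hV : UnP R n t U ho vl kp mn V it C bt ht) (hz : z < n) {J : Finset ℕ}
    (hS : S ⊆ V) {A m d : ℤ} (hm : m = mu z) {ν : ℝ} {π : ℕ → ℝ} (hν : 0 ≤ ν)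
    (hπ : ∀ y ∈ J, 0 ≤ π y) {QT : ℝ} {QP : ℕ → ℝ}
    (hT : 2 * (((R : ℝ) - A) * m) + 2 * ∑ v ∈ S, (((R : ℝ) - A) - bt v z)
      ≤ 2 * ((R : ℝ) * d) + QT)
    (hP : ∀ y ∈ J, 2 * ∑ v ∈ V.filter (fun v => ho (it v) = z), ((ht v y : ℝ) + ((t y : ℝ) - A))
        + 2 * ∑ v ∈ S.filter (fun v => ho (it v) = y), (((R : ℝ) - A) - bt v z)
        - 2 * ∑ u ∈ (S.filter fun v => ho (it v) = y).image it, (1 - (pc u : ℝ)) * ar u
      ≤ 2 * ((t y : ℝ) * d) + 2 * ((R : ℝ) - t y) + QP y)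
    {X Y β : κ → ℝ}
    (hX : ∀ v ∈ V, ho (it v) = z →
      X v ≤ ν * ((R : ℝ) - A) + ∑ y ∈ J, π y * ((ht v y : ℝ) + ((t y : ℝ) - A)))
    (hY : ∀ v ∈ S, Y v ≤ ν * (((R : ℝ) - A) - bt v z)
      + (if ho (it v) ∈ J then π (ho (it v)) * ((((R : ℝ) - A) - bt v z)
        - (1 - (pc (it v) : ℝ)) * ar (it v)) else 0) + β v) :
    ∑ v ∈ V.filter (fun v => ho (it v) = z), X v + ∑ v ∈ S, Y v
      ≤ (ν * R + ∑ y ∈ J, π y * t y) * d + ∑ y ∈ J, π y * ((R : ℝ) - t y)
        + ∑ v ∈ S, β v + (1 / 2) * (ν * QT + ∑ y ∈ J, π y * QP y) := by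
  have e2 : ((V.filter fun v => ho (it v) = z).card : ℝ) = m := by
    have h3 := H.mu_units hV hz
    rw [hm, h3]
    push_cast
    rfl
  have h2 := mul_le_mul_of_nonneg_left hT hν
  have h3 : ∀ y ∈ J, π y * (2 * ∑ v ∈ V.filter (fun v => ho (it v) = z),
        ((ht v y : ℝ) + ((t y : ℝ) - A))
        + 2 * ∑ v ∈ S.filter (fun v => ho (it v) = y), (((R : ℝ) - A) - bt v z)
        - 2 * ∑ u ∈ (S.filter fun v => ho (it v) = y).image it, (1 - (pc u : ℝ)) * ar u)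
      ≤ π y * (2 * ((t y : ℝ) * d) + 2 * ((R : ℝ) - t y) + QP y) := fun y hy =>
    mul_le_mul_of_nonneg_left (hP y hy) (hπ y hy)
  have h5 := sum_le_sum h3
  -- the hosted units
  have h6 : ∑ v ∈ V.filter (fun v => ho (it v) = z), X v
      ≤ ν * (((R : ℝ) - A) * m) + ∑ y ∈ J, π y * ∑ v ∈ V.filter (fun v => ho (it v) = z),
        ((ht v y : ℝ) + ((t y : ℝ) - A)) := by
    have h7 := sum_le_sum fun v (hv : v ∈ V.filter fun v => ho (it v) = z) =>
      hX v (mem_filter.1 hv).1 (mem_filter.1 hv).2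
    rw [sum_add_distrib, sum_const, nsmul_eq_mul, e2, sum_comm] at h7
    have e3 : ∑ y ∈ J, ∑ v ∈ V.filter (fun v => ho (it v) = z),
        π y * ((ht v y : ℝ) + ((t y : ℝ) - A)) = ∑ y ∈ J, π y
        * ∑ v ∈ V.filter (fun v => ho (it v) = z), ((ht v y : ℝ) + ((t y : ℝ) - A)) :=
      sum_congr rfl fun y _ => by rw [mul_sum]
    rw [e3] at h7
    linarith
  -- the used units
  have h8 : ∑ v ∈ S, Y v ≤ ν * ∑ v ∈ S, (((R : ℝ) - A) - bt v z)
      + ∑ y ∈ J, π y * (∑ v ∈ S.filter (fun v => ho (it v) = y), (((R : ℝ) - A) - bt v z)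
        - ∑ u ∈ (S.filter fun v => ho (it v) = y).image it, (1 - (pc u : ℝ)) * ar u)
      + ∑ v ∈ S, β v := by
    refine (sum_le_sum hY).trans ?_
    rw [sum_add_distrib, sum_add_distrib, ← mul_sum]
    refine add_le_add (add_le_add le_rfl ?_) le_rfl
    have e1 : ∑ v ∈ S, (if ho (it v) ∈ J then π (ho (it v)) * ((((R : ℝ) - A) - bt v z)
        - (1 - (pc (it v) : ℝ)) * ar (it v)) else 0)
        = ∑ y ∈ J, ∑ v ∈ S.filter (fun v => ho (it v) = y), π y * ((((R : ℝ) - A) - bt v z)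
        - (1 - (pc (it v) : ℝ)) * ar (it v)) := by
      rw [← sum_filter]
      rw [← sum_fiberwise_of_maps_to (s := S.filter fun v => ho (it v) ∈ J) (t := J)
        (g := fun v => ho (it v)) (fun v hv => (mem_filter.1 hv).2)]
      refine sum_congr rfl fun y hy => ?_
      rw [filter_filter]
      refine sum_congr (filter_congr fun v _ => ⟨fun h => h.2, fun h => ⟨h ▸ hy, h⟩⟩) fun v hv => ?_
      rw [(mem_filter.1 hv).2]
    rw [e1]
    refine sum_le_sum fun y hy => ?_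
    rw [← mul_sum, sum_sub_distrib]
    refine mul_le_mul_of_nonneg_left ?_ (hπ y hy)
    have a1 : ∑ u ∈ (S.filter fun v => ho (it v) = y).image it, (1 - pc u) * ar u
        ≤ ∑ v ∈ S.filter (fun v => ho (it v) = y), (1 - pc (it v)) * ar (it v) := by
      rw [← sum_unU (it := it) (S := S.filter fun v => ho (it v) = y)
        fun v => (1 - pc (it v)) * ar (it v)]
      refine sum_le_sum fun u hu => ?_
      obtain ⟨v, hv, rfl⟩ := mem_image.1 hu
      have h1 : ∀ w ∈ (S.filter fun v => ho (it v) = y).filter (fun w => it w = it v),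
          0 ≤ (1 - pc (it w)) * ar (it w) := by
        intro w hw
        have h2 := hV.mem w (hS (mem_filter.1 (mem_filter.1 hw).1).1)
        have h3 := H.ar0 (it w) h2
        rcases H.pc01 (it w) h2 with h4 | h4
        · rw [h4]
          linarith
        · rw [h4]
          simp
      exact single_le_sum h1 (mem_filter.2 ⟨hv, rfl⟩)
    have a2 : ∑ u ∈ (S.filter fun v => ho (it v) = y).image it, (1 - (pc u : ℝ)) * ar u
        ≤ ∑ v ∈ S.filter (fun v => ho (it v) = y), (1 - (pc (it v) : ℝ)) * ar (it v) := by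
      exact_mod_cast a1
    linarith
  have e4 : ∑ y ∈ J, π y * (2 * ∑ v ∈ V.filter (fun v => ho (it v) = z),
        ((ht v y : ℝ) + ((t y : ℝ) - A))
        + 2 * ∑ v ∈ S.filter (fun v => ho (it v) = y), (((R : ℝ) - A) - bt v z)
        - 2 * ∑ u ∈ (S.filter fun v => ho (it v) = y).image it, (1 - (pc u : ℝ)) * ar u)
      = 2 * ∑ y ∈ J, π y * ∑ v ∈ V.filter (fun v => ho (it v) = z),
        ((ht v y : ℝ) + ((t y : ℝ) - A))
        + 2 * ∑ y ∈ J, π y * (∑ v ∈ S.filter (fun v => ho (it v) = y), (((R : ℝ) - A) - bt v z)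
          - ∑ u ∈ (S.filter fun v => ho (it v) = y).image it, (1 - (pc u : ℝ)) * ar u) := by
    rw [mul_sum, mul_sum, ← sum_add_distrib]
    exact sum_congr rfl fun y _ => by ring
  have e5 : ∑ y ∈ J, π y * (2 * ((t y : ℝ) * d) + 2 * ((R : ℝ) - t y) + QP y)
      = 2 * ((∑ y ∈ J, π y * t y) * d) + 2 * ∑ y ∈ J, π y * ((R : ℝ) - t y)
        + ∑ y ∈ J, π y * QP y := by
    rw [sum_mul, mul_sum, mul_sum, ← sum_add_distrib, ← sum_add_distrib]
    exact sum_congr rfl fun y _ => by ring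
  rw [e4, e5] at h5
  linarith [h2, h5, h6, h8]

/-- **tN and columns with weights** -/
theorem PConC.rowW_N (H : PConC R n t s mu U ho vl kp mn pc ar be kq NN sg nu)
    (hV : UnP R n t U ho vl kp mn V it C bt ht) (hz : z < n) {J : Finset ℕ}
    (hJ : J ⊆ (range n).erase z) (hS : S ⊆ V.filter fun v => z ∈ C v)
    {A m d : ℤ} (hA : A = t z + 1) (hm : m = mu z) (hd : d = mu z - s z)
    (h2 : 2 * (m + (S.card : ℤ)) ≤ R)
    (hpc : ∀ y ∈ J, 0 ≤ m - d + ((S.filter fun v => ho (it v) = y).card : ℤ)) {ν : ℝ}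
    {π : ℕ → ℝ} (hν : 0 ≤ ν) (hπ : ∀ y ∈ J, 0 ≤ π y) {X Y β : κ → ℝ}
    (hX : ∀ v ∈ V, ho (it v) = z →
      X v ≤ ν * ((R : ℝ) - A) + ∑ y ∈ J, π y * ((ht v y : ℝ) + ((t y : ℝ) - A)))
    (hY : ∀ v ∈ S, Y v ≤ ν * (((R : ℝ) - A) - bt v z)
      + (if ho (it v) ∈ J then π (ho (it v)) * ((((R : ℝ) - A) - bt v z)
        - (1 - (pc (it v) : ℝ)) * ar (it v)) else 0) + β v) :
    ∑ v ∈ V.filter (fun v => ho (it v) = z), X v + ∑ v ∈ S, Y v
      ≤ (ν * R + ∑ y ∈ J, π y * t y) * d + ∑ y ∈ J, π y * ((R : ℝ) - t y)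
        + ∑ v ∈ S, β v + (1 / 2) * (ν * (4 * (((m : ℝ) + (S.card : ℤ)) * (m + (S.card : ℤ) - d)))
          + ∑ y ∈ J, π y * (qPJ n U ho vl kp pc be NN it z y m d
            (S.filter fun v => ho (it v) = y) : ℝ)) := by
  refine H.rowW hV hz (hS.trans (filter_subset _ _)) hm hν hπ ?_ ?_ hX hY
  · have h1 := H.toPCon.linN hV hz hS hA hm hd h2
    exact_mod_cast h1
  · intro y hy
    have h4 := H.linP hV hz (mem_range.1 (mem_of_mem_erase (hJ hy))) (ne_of_mem_erase (hJ hy))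
      ((filter_subset _ _).trans hS) (fun v hv => (mem_filter.1 hv).2) hA hm hd (hpc y hy)
    exact_mod_cast h4

/-- **the exact row test and columns with weights** -/
theorem PConC.rowW_T (H : PConC R n t s mu U ho vl kp mn pc ar be kq NN sg nu)
    (hV : UnP R n t U ho vl kp mn V it C bt ht) (hz : z < n) {J : Finset ℕ}
    (hJ : J ⊆ (range n).erase z) (hS : S ⊆ V.filter fun v => z ∈ C v)
    {A m d : ℤ} (hA : A = t z + 1) (hm : m = mu z) (hd : d = mu z - s z)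
    (hp : 0 ≤ m - d + (S.card : ℤ))
    (hpc : ∀ y ∈ J, 0 ≤ m - d + ((S.filter fun v => ho (it v) = y).card : ℤ)) {ν : ℝ}
    {π : ℕ → ℝ} (hν : 0 ≤ ν) (hπ : ∀ y ∈ J, 0 ≤ π y) {X Y β : κ → ℝ}
    (hX : ∀ v ∈ V, ho (it v) = z →
      X v ≤ ν * ((R : ℝ) - A) + ∑ y ∈ J, π y * ((ht v y : ℝ) + ((t y : ℝ) - A)))
    (hY : ∀ v ∈ S, Y v ≤ ν * (((R : ℝ) - A) - bt v z)
      + (if ho (it v) ∈ J then π (ho (it v)) * ((((R : ℝ) - A) - bt v z)
        - (1 - (pc (it v) : ℝ)) * ar (it v)) else 0) + β v) :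
    ∑ v ∈ V.filter (fun v => ho (it v) = z), X v + ∑ v ∈ S, Y v
      ≤ (ν * R + ∑ y ∈ J, π y * t y) * d + ∑ y ∈ J, π y * ((R : ℝ) - t y)
        + ∑ v ∈ S, β v + (1 / 2) * (ν * (qTJ n U ho vl pc NN it z m d S : ℝ)
          + ∑ y ∈ J, π y * (qPJ n U ho vl kp pc be NN it z y m d
            (S.filter fun v => ho (it v) = y) : ℝ)) := by
  refine H.rowW hV hz (hS.trans (filter_subset _ _)) hm hν hπ ?_ ?_ hX hY
  · have h1 := H.linT hV hz hS hA hm hd hp
    exact_mod_cast h1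
  · intro y hy
    have h4 := H.linP hV hz (mem_range.1 (mem_of_mem_erase (hJ hy))) (ne_of_mem_erase (hJ hy))
      ((filter_subset _ _).trans hS) (fun v hv => (mem_filter.1 hv).2) hA hm hd (hpc y hy)
    exact_mod_cast h4

end RowW

end Pool.Agent.Lib.MP_f04ccf_co
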