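import Pool.Agent.Lib.MP_f04ccf_co.M.RowXV
import Pool.Agent.Lib.MP_f04ccf_co.M.CsJX

/-!
MP_f04ccf_co, TEXT D, regime H: **the rows in p-form.**

The load `pY y` of a column and `eT κ` of a row test, in units (`c` misses = one unit); the share of the row is at most
`∑ w y p_y + τ c e_κ +` the losses (any signs); every bound of the loads can be plugged in.

* `LevC.rowP`: any table; `LevC.rowXP`: the table X**, PC pairs discharged;
* `LevC.srvP`: a served item of value one, loss of any sign (hosted items: `LevC.hstV`);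
* `LevC.rowXF`: the family `wF` with the row test `η` (18's certificates `η c = s_1 | s_2 | s_dust | 0`);
* `LevC.pY_col`: `2 c p_y + csRW ≤ 2 t_y d + 2 (R - t_y)`; `LevC.pY_rec`: the same with the rectangle; `LevC.eT_N`,
  `LevC.eT_T`, `LevC.eT_K`: the row tests.
-/

set_option autoImplicit false

namespace Pool.Agent.Lib.MP_f04ccf_co

open Finset

attribute [local instance] Classical.propDecidable

section RowXP

variable {ι : Type*} {R : ℤ} {n : ℕ} {t s mu : ℕ → ℤ} {U : Finset ι} {ho : ι → ℕ} {vl : ι → ℤ}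
  {kp mn : ℕ → ι → ℤ} {pc ar : ι → ℤ} {be kq NN sg : ℕ → ℕ → ℤ} {nu : ℕ → ι → ℤ} {z y : ℕ}
  {φ : ι → ℕ → ℤ} {g : ℕ → ι → ℕ} {f : ι → ℕ}

/-- **the load of the column `y`** in units: PC pairs hosted, used items, credits of the plain hosted items -/
noncomputable def pY (R : ℤ) (n : ℕ) (t : ℕ → ℤ) (U : Finset ι) (ho : ι → ℕ) (vl : ι → ℤ)
    (kp mn : ℕ → ι → ℤ) (pc : ι → ℤ) (be : ℕ → ℕ → ℤ) (g : ℕ → ι → ℕ) (z : ℕ) (P : ℕ → Finset ι)
    (K : Finset ι) (y : ℕ) : ℝ :=
  (be z y : ℝ) + ∑ u ∈ K.filter (fun u => ho u = y), (g z u : ℝ)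
    + (∑ u ∈ hsZ U ho pc z, (crY R t vl kp mn z y (P y) u : ℝ)
      - ∑ u ∈ K.filter (fun u => ho u = y),
        ((msP kp mn z (g z) u : ℝ) + (rnB n kp be z y u : ℝ))) / ((R : ℝ) - ((t z : ℝ) + 1))

/-- **the load of a row test** which keeps the PC pairs hosted by `z` `κ` times -/
noncomputable def eT (R : ℤ) (n : ℕ) (t : ℕ → ℤ) (U : Finset ι) (ho : ι → ℕ) (vl : ι → ℤ)
    (kp mn : ℕ → ι → ℤ) (pc : ι → ℤ) (be : ℕ → ℕ → ℤ) (g : ℕ → ι → ℕ) (z : ℕ)
    (K : Finset ι) (κ : ℝ) : ℝ :=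
  ∑ u ∈ hsZ U ho pc z, (vl u : ℝ) + κ * ∑ y ∈ (range n).erase z, (be z y : ℝ)
    + ∑ u ∈ K, (g z u : ℝ)
    - (∑ u ∈ K, (msP kp mn z (g z) u : ℝ)) / ((R : ℝ) - ((t z : ℝ) + 1))

/-- **THE SHARE OF A ROW FROM THE LOADS**, any table, losses of any sign -/
theorem LevC.rowP (C : LevC n U ho vl kp mn pc φ g f)
    (H : PCon R n t s mu U ho vl kp mn pc ar be kq NN sg nu) (hz : z < n) {P : ℕ → Finset ι}
    {w : ℕ → ℝ} (hw : ∀ y ∈ (range n).erase z, 0 ≤ w y) {c τ κ : ℝ}
    (hc : c = (R : ℝ) - ((t z : ℝ) + 1)) (hc0 : 0 < c) (hτ : 0 ≤ τ)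
    {K : Finset ι} (hK : K ⊆ U.filter fun u => g z u ≠ 0)
    {X Y : ι × ℕ × ℕ → ℝ} (hX : ∀ v ∈ unV n U g, 0 ≤ X v) (hY : ∀ v ∈ unV n U g, 0 ≤ Y v)
    {F : Finset (ι × ℕ × ℕ)} (hF : F ⊆ unV n U g) {lp : ℕ → ℝ} {lh ls : ι → ℝ}
    (hpc : ∀ v ∈ unV n U g, ho v.1 = z → pc v.1 ≠ 0 → X v ≤ w v.2.1 + κ * (τ * c) + lp v.2.1)
    (hB : ∀ u ∈ hsZ U ho pc z, xIt n g X u
      ≤ ∑ y ∈ (range n).erase z, w y / c * (crY R t vl kp mn z y (P y) u : ℝ)
        + τ * (c * (vl u : ℝ)) + lh u)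
    (hS : ∀ u ∈ U, g z u ≠ 0 → yIt g Y z u
      ≤ (if u ∈ K then w (ho u) * (g z u : ℝ)
          - w (ho u) / c * ((msP kp mn z (g z) u : ℝ) + (rnB n kp be z (ho u) u : ℝ))
          + τ * (c * (g z u : ℝ) - (msP kp mn z (g z) u : ℝ)) else 0) + ls u) :
    ∑ v ∈ F.filter (fun v => ho v.1 = z), X v + ∑ v ∈ F.filter (fun v => v.2.1 = z), Y v
      ≤ ∑ y ∈ (range n).erase z, w y * pY R n t U ho vl kp mn pc be g z P K y
        + τ * c * eT R n t U ho vl kp mn pc be g z K κ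
        + (∑ y ∈ (range n).erase z, lp y * (be z y : ℝ) + ∑ u ∈ hsZ U ho pc z, lh u
          + ∑ u ∈ U.filter (fun u => g z u ≠ 0), ls u) := by
  have hhJ : ∀ u ∈ U, g z u ≠ 0 → ho u ∈ (range n).erase z := fun u hu hg =>
    mem_erase.2 ⟨fun h => hg (by rw [← h]; exact C.home u hu), mem_range.2 (H.hlt u hu)⟩
  have key := C.csShareL H hz (J := (range n).erase z) (Subset.refl _) (P := P) (w := w) hw
    (fun y hy hy' => absurd hy hy') hc0 hτ (κ := κ)
    (α := fun y u => (rnB n kp be z y u : ℝ))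
    (V := fun y => K.filter fun u => ho u = y) (fun y _ u hu => by
      obtain ⟨h1, h2⟩ := mem_filter.1 hu
      obtain ⟨h3, h4⟩ := mem_filter.1 (hK h1)
      exact mem_filter.2 ⟨h3, h2, h4⟩)
    (r := fun y => 2 * ((t y : ℝ) * ((mu z : ℝ) - s z)) + 2 * ((R : ℝ) - t y)
      - 2 * (c * pY R n t U ho vl kp mn pc be g z P K y))
    (fun y hy => by
      have e1 : c * pY R n t U ho vl kp mn pc be g z P K y
          = c * ((be z y : ℝ) + ∑ u ∈ K.filter (fun u => ho u = y), (g z u : ℝ))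
            + (∑ u ∈ hsZ U ho pc z, (crY R t vl kp mn z y (P y) u : ℝ)
              - ∑ u ∈ K.filter (fun u => ho u = y),
                ((msP kp mn z (g z) u : ℝ) + (rnB n kp be z y u : ℝ))) := by
        unfold pY
        rw [← hc]
        field_simp
      rw [e1]
      linarith)
    (KT := K) hK (lv := g z)
    (rT := 2 * ((R : ℝ) * ((mu z : ℝ) - s z)) - 2 * (c * eT R n t U ho vl kp mn pc be g z K κ))
    (by
      have e1 : c * eT R n t U ho vl kp mn pc be g z K κ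
          = c * (∑ u ∈ hsZ U ho pc z, (vl u : ℝ) + κ * ∑ y ∈ (range n).erase z, (be z y : ℝ)
            + ∑ u ∈ K, (g z u : ℝ)) - ∑ u ∈ K, (msP kp mn z (g z) u : ℝ) := by
        unfold eT
        rw [← hc]
        field_simp
      rw [e1]
      linarith)
    hX hY hF hpc hB (ls := ls) (fun u hu hg => by
      have hJ := hhJ u hu hg
      refine (hS u hu hg).trans (le_of_eq ?_)
      congr 1
      by_cases h3 : u ∈ K
      · rw [if_pos h3, if_pos h3, if_pos ⟨hJ, mem_filter.2 ⟨h3, rfl⟩⟩]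
      · rw [if_neg h3, if_neg h3, if_neg (fun h => h3 (mem_filter.1 h.2).1)]
        ring)
  have e2 : ∑ y ∈ (range n).erase z, w y / c
        * (2 * ((t y : ℝ) * ((mu z : ℝ) - s z)) + 2 * ((R : ℝ) - t y)
          - 2 * (c * pY R n t U ho vl kp mn pc be g z P K y))
      = 2 * ((∑ y ∈ (range n).erase z, w y / c * (t y : ℝ)) * ((mu z : ℝ) - s z))
        + 2 * ∑ y ∈ (range n).erase z, w y / c * ((R : ℝ) - t y)
        - 2 * ∑ y ∈ (range n).erase z, w y * pY R n t U ho vl kp mn pc be g z P K y := by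
    rw [sum_mul, mul_sum, mul_sum, mul_sum, ← sum_add_distrib, ← sum_sub_distrib]
    refine sum_congr rfl fun y _ => ?_
    field_simp
  rw [e2] at key
  linarith

/-- **THE SHARE OF A ROW FROM THE LOADS, table X**: the PC pairs from `(W1)`, `(W2)` -/
theorem LevC.rowXP (C : LevC n U ho vl kp mn pc (phiX R t ho mn) g f)
    (H : PCon R n t s mu U ho vl kp mn pc ar be kq NN sg nu) (hz : z < n) (hz0 : z ≠ 0)
    {cp : ι × ℕ × ℕ → ℝ} {Z : ℕ → ℝ} {P : ℕ → Finset ι}
    {w : ℕ → ℝ} (hw : ∀ y ∈ (range n).erase z, 0 ≤ w y) {c τ κ : ℝ}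
    (hc : c = (R : ℝ) - ((t z : ℝ) + 1)) (hc0 : 0 < c) (hτ : 0 ≤ τ)
    {K : Finset ι} (hK : K ⊆ U.filter fun u => g z u ≠ 0)
    {F : Finset (ι × ℕ × ℕ)} (hF : F ⊆ unV n U g) {lp : ℕ → ℝ} {lh ls : ι → ℝ}
    (W1 : 1 ≤ w 0 + κ * (τ * c) + lp 0)
    (W2 : ∀ y < n, y ≠ z → y ≠ 0 →
      ((t y : ℝ) + 1) / ((t z : ℝ) + 1 + ((t y : ℝ) + 1)) ≤ w y + κ * (τ * c) + lp y)
    (hB : ∀ u ∈ hsZ U ho pc z,
      xIt n g (fun v => max 0 (sHX Z cp R n t U ho vl kp mn be g f v)) u
        ≤ ∑ y ∈ (range n).erase z, w y / c * (crY R t vl kp mn z y (P y) u : ℝ)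
          + τ * (c * (vl u : ℝ)) + lh u)
    (hS : ∀ u ∈ U, g z u ≠ 0 →
      yIt g (fun v => max 0 (sMX cp R n t U ho vl kp mn be g f v)) z u
        ≤ (if u ∈ K then w (ho u) * (g z u : ℝ)
          - w (ho u) / c * ((msP kp mn z (g z) u : ℝ) + (rnB n kp be z (ho u) u : ℝ))
          + τ * (c * (g z u : ℝ) - (msP kp mn z (g z) u : ℝ)) else 0) + ls u) :
    ∑ v ∈ F.filter (fun v => ho v.1 = z), sHX Z cp R n t U ho vl kp mn be g f v
        + ∑ v ∈ F.filter (fun v => v.2.1 = z), sMX cp R n t U ho vl kp mn be g f v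
      ≤ ∑ y ∈ (range n).erase z, w y * pY R n t U ho vl kp mn pc be g z P K y
        + τ * c * eT R n t U ho vl kp mn pc be g z K κ
        + (∑ y ∈ (range n).erase z, lp y * (be z y : ℝ) + ∑ u ∈ hsZ U ho pc z, lh u
          + ∑ u ∈ U.filter (fun u => g z u ≠ 0), ls u) := by
  refine le_trans (add_le_add (sum_le_sum fun v _ => le_max_right 0 _)
    (sum_le_sum fun v _ => le_max_right 0 _)) (C.rowP H hz hw hc hc0 hτ hK
    (X := fun v => max 0 (sHX Z cp R n t U ho vl kp mn be g f v))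
    (Y := fun v => max 0 (sMX cp R n t U ho vl kp mn be g f v))
    (fun v _ => le_max_left _ _) (fun v _ => le_max_left _ _) hF ?_ hB hS)
  -- PC pairs hosted by `z`
  intro v hv hvz hpc
  obtain ⟨h1, h2, h3⟩ := LevC.mem_unV hv
  have h4 := H.pcv v.1 h1 hpc
  have h5 : ¬ cutE kp g f v.1 := by
    rcases C.typ v.1 h1 with ⟨-, h6, h7, -, -⟩ | ⟨h6, -⟩
    · unfold cutE
      rw [h6, h7]
      norm_num
    · exact absurd h6 hpc
  have hC : ¬ hubC ho vl kp g f v.1 := fun h => h5 h.1.2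
  show max 0 (sHX Z cp R n t U ho vl kp mn be g f v) ≤ w v.2.1 + κ * (τ * c) + lp v.2.1
  unfold sHX
  rw [if_neg hC, sub_zero]
  by_cases h0 : v.2.1 = 0
  · have h6 : sMX cp R n t U ho vl kp mn be g f v = 0 := by
      unfold sMX
      rw [if_neg (by rw [hvz]; exact hz0), if_pos h0]
    rw [h6, sub_zero, h0]
    exact max_le (by linarith) W1
  · have h6 : sMX cp R n t U ho vl kp mn be g f v = sX t ho v := by
      unfold sMX
      rw [if_neg (by rw [hvz]; exact hz0), if_neg h0, if_neg hC, if_pos h4, if_neg h5]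
    have hA : (0 : ℝ) < (t z : ℝ) + 1 := by
      have h9 : (0 : ℝ) ≤ t z := by exact_mod_cast H.t0 z hz
      linarith
    have hAm : (0 : ℝ) < (t v.2.1 : ℝ) + 1 := by
      have h9 : (0 : ℝ) ≤ t v.2.1 := by exact_mod_cast H.t0 _ h2
      linarith
    have h7 : 1 - sX t ho v = ((t v.2.1 : ℝ) + 1) / ((t z : ℝ) + 1 + ((t v.2.1 : ℝ) + 1)) := by
      unfold sX
      rw [hvz]
      field_simp
      ring
    rw [h6, h7]
    have h8 := W2 v.2.1 h2 (fun h => C.main_ne hv (h.trans hvz.symm)) h0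
    have h9 : 0 ≤ ((t v.2.1 : ℝ) + 1) / ((t z : ℝ) + 1 + ((t v.2.1 : ℝ) + 1)) := by positivity
    exact max_le (by linarith) h8

/-- **a served item of value one, loss of any sign**; `b = mn z u`, `e = be (ho u) (f u)` -/
theorem LevC.srvP (C : LevC n U ho vl kp mn pc (phiX R t ho mn) g f)
    (H : PCon R n t s mu U ho vl kp mn pc ar be kq NN sg nu) (hz : z < n) (hz0 : z ≠ 0) {u : ι}
    (hu : u ∈ U) (hg : g z u ≠ 0) (h1 : vl u = 1) {cp : ι × ℕ × ℕ → ℝ} {c w τ lu : ℝ}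
    (hc : c = (R : ℝ) - ((t z : ℝ) + 1)) (hc0 : 0 < c)
    (hf0 : ho u = 0 → ¬ cutE kp g f u → 1 ≤ w + τ * c + lu)
    (hft : ho u ≠ 0 → ¬ cutE kp g f u →
      ((t (ho u) : ℝ) + 1) / ((t (ho u) : ℝ) + 1 + ((t z : ℝ) + 1)) ≤ w + τ * c + lu)
    (hcr : cutE kp g f u →
      0 ≤ (w + τ * c) * (1 - mn z u / c) - w * (be (ho u) (f u) / c) + lu)
    (hh : ho u = 0 → cutE kp g f u →
      1 - cp (u, z, 0) ≤ (w + τ * c) * (1 - mn z u / c) - w * (be (ho u) (f u) / c) + lu)
    (hhc : hubC ho vl kp g f u →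
      qX R t mn u * sX t ho (u, z, 0) * (1 - rS R t ho kp mn be g f (u, z, 0))
        ≤ (w + τ * c) * (1 - mn z u / c) - w * (be (ho u) (f u) / c) + lu)
    (hth : ho u ≠ 0 → cutE kp g f u → f u ≠ 0 →
      sX t ho (u, z, 0) * (1 - rX R t ho kp mn be g f (u, z, 0))
        ≤ (w + τ * c) * (1 - mn z u / c) - w * (be (ho u) (f u) / c) + lu) :
    yIt g (fun v => max 0 (sMX cp R n t U ho vl kp mn be g f v)) z u
      ≤ w * (g z u : ℝ) - w / c * ((msP kp mn z (g z) u : ℝ) + (rnB n kp be z (ho u) u : ℝ))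
        + τ * (c * (g z u : ℝ) - (msP kp mn z (g z) u : ℝ)) + lu := by
  obtain ⟨m, hm, h2, h3, h4, h5, h6, h7, h8⟩ := C.one_unit H hu h1
  have hmz : m = z := by
    by_contra hcon
    exact hg (h5 z hz (Ne.symm hcon))
  subst hmz
  have hy : yIt g (fun v => max 0 (sMX cp R n t U ho vl kp mn be g f v)) m u
      = max 0 (sMX cp R n t U ho vl kp mn be g f (u, m, 0)) := by
    unfold yIt
    rw [h2, sum_range_one]
  have hms : msP kp mn m (g m) u = mn m u := by
    unfold msP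
    refine if_pos ?_
    rw [h2, h3]
    norm_num
  rw [hy, hms, h2]
  push_cast
  rw [mul_one, mul_one]
  rcases h8 with ⟨h9, h10, h11, h12⟩ | ⟨h9, h10, h11, h12, h13, h14⟩
  · -- full
    have hB : rnB n kp be m (ho u) u = 0 := by
      unfold rnB
      refine if_neg ?_
      rintro ⟨l, hl, hlm, hl0⟩
      exact hl0 (h12 l hl hlm)
    have hC : ¬ hubC ho vl kp g f u := fun h => h9 h.1.2
    rw [hB, h11]
    push_cast
    rw [add_zero, mul_zero, sub_zero, sub_zero]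
    unfold sMX
    by_cases h15 : ho u = 0
    · rw [if_pos h15, if_neg h9]
      have := hf0 h15 h9
      exact max_le (by linarith) (by linarith)
    · rw [if_neg h15, if_neg (show ((u, m, 0) : ι × ℕ × ℕ).2.1 ≠ 0 from hz0), if_neg hC, if_pos h1,
        if_neg h9]
      have h16 := hft h15 h9
      have hsx : ∀ {x : ℕ}, x < n → (0 : ℝ) < (t x : ℝ) + 1 := fun {x} hx => by
        have := H.t0 x hx
        have h9 : (0 : ℝ) ≤ t x := by exact_mod_cast this
        linarith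
      have h17 : 0 ≤ ((t (ho u) : ℝ) + 1) / ((t (ho u) : ℝ) + 1 + ((t m : ℝ) + 1)) :=
        div_nonneg (hsx (H.hlt u hu)).le (by linarith [hsx (H.hlt u hu), hsx hm])
      unfold sX
      exact max_le (by linarith) (by linarith)
  · -- a cut end
    have hfn := C.fn u hu
    have hfh := C.fh u hu
    have hB : rnB n kp be m (ho u) u = be (ho u) (f u) := by
      unfold rnB
      rw [if_pos ⟨f u, hfn, Ne.symm h10, by rw [h12]; norm_num⟩]
      have h15 : (((range n).erase (ho u)).erase m).filter (fun l => kp l u ≠ 0) = {f u} := by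
        ext l
        simp only [mem_filter, mem_erase, mem_range, mem_singleton]
        constructor
        · rintro ⟨⟨h16, h17, h18⟩, h19⟩
          by_contra h20
          exact h19 (h14 l h18 h16 h20)
        · rintro rfl
          exact ⟨⟨Ne.symm h10, hfh, hfn⟩, by rw [h12]; norm_num⟩
      rw [h15, sum_singleton]
    rw [hB]
    -- the right side
    have e1 : w - w / c * ((mn m u : ℝ) + be (ho u) (f u)) + τ * (c - mn m u) + lu
        = (w + τ * c) * (1 - mn m u / c) - w * (be (ho u) (f u) / c) + lu := by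
      field_simp
      ring
    rw [e1]
    refine max_le (hcr h9) ?_
    unfold sMX
    by_cases h15 : ho u = 0
    · rw [if_pos h15, if_pos h9]
      exact hh h15 h9
    · rw [if_neg h15, if_neg (show ((u, m, 0) : ι × ℕ × ℕ).2.1 ≠ 0 from hz0)]
      by_cases h16 : hubC ho vl kp g f u
      · rw [if_pos (show hubC ho vl kp g f ((u, m, 0) : ι × ℕ × ℕ).1 from h16)]
        exact hhc h16
      · rw [if_neg (show ¬ hubC ho vl kp g f ((u, m, 0) : ι × ℕ × ℕ).1 from h16), if_pos h1,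
          if_pos h9]
        exact hth h15 h9 fun h => h16 ⟨⟨h1, h9⟩, h15, h⟩

/-- **the family in p-form**: hub column `1 - η c`, third columns `max 0 (s_l - η c)`, `η c` on the row test with all PC
pairs kept -/
theorem LevC.rowXF (C : LevC n U ho vl kp mn pc (phiX R t ho mn) g f)
    (H : PCon R n t s mu U ho vl kp mn pc ar be kq NN sg nu) (hz : z < n) (hz0 : z ≠ 0)
    {cp : ι × ℕ × ℕ → ℝ} {Z : ℕ → ℝ} {P : ℕ → Finset ι} {c η : ℝ}
    (hc : c = (R : ℝ) - ((t z : ℝ) + 1)) (hc0 : 0 < c) (hη : 0 ≤ η) (hη1 : η * c ≤ 1)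
    {K : Finset ι} (hK : K ⊆ U.filter fun u => g z u ≠ 0)
    {F : Finset (ι × ℕ × ℕ)} (hF : F ⊆ unV n U g) {lh ls : ι → ℝ}
    (hB : ∀ u ∈ hsZ U ho pc z,
      xIt n g (fun v => max 0 (sHX Z cp R n t U ho vl kp mn be g f v)) u
        ≤ ∑ y ∈ (range n).erase z, wF t z η c y / c * (crY R t vl kp mn z y (P y) u : ℝ)
          + η * (c * (vl u : ℝ)) + lh u)
    (hS : ∀ u ∈ U, g z u ≠ 0 →
      yIt g (fun v => max 0 (sMX cp R n t U ho vl kp mn be g f v)) z u
        ≤ (if u ∈ K then wF t z η c (ho u) * (g z u : ℝ)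
          - wF t z η c (ho u) / c * ((msP kp mn z (g z) u : ℝ) + (rnB n kp be z (ho u) u : ℝ))
          + η * (c * (g z u : ℝ) - (msP kp mn z (g z) u : ℝ)) else 0) + ls u) :
    ∑ v ∈ F.filter (fun v => ho v.1 = z), sHX Z cp R n t U ho vl kp mn be g f v
        + ∑ v ∈ F.filter (fun v => v.2.1 = z), sMX cp R n t U ho vl kp mn be g f v
      ≤ ∑ y ∈ (range n).erase z, wF t z η c y * pY R n t U ho vl kp mn pc be g z P K y
        + η * c * eT R n t U ho vl kp mn pc be g z K 1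
        + (∑ u ∈ hsZ U ho pc z, lh u + ∑ u ∈ U.filter (fun u => g z u ≠ 0), ls u) := by
  have key := C.rowXP H hz hz0 (cp := cp) (Z := Z) (P := P) (w := wF t z η c) (fun y _ => by
      unfold wF
      split_ifs
      · linarith
      · exact le_max_left _ _) hc hc0 hη (κ := 1) hK hF (lp := fun _ => 0) (lh := lh) (ls := ls)
    (by
      have e1 : wF t z η c 0 = 1 - η * c := if_pos rfl
      rw [e1]
      linarith)
    (fun y hy hyz hy0 => by
      have e1 : wF t z η c y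
          = max 0 (((t y : ℝ) + 1) / ((t z : ℝ) + 1 + ((t y : ℝ) + 1)) - η * c) := if_neg hy0
      rw [e1]
      linarith [le_max_right 0 (((t y : ℝ) + 1) / ((t z : ℝ) + 1 + ((t y : ℝ) + 1)) - η * c)])
    hB hS
  have e2 : ∑ y ∈ (range n).erase z, (0 : ℝ) * (be z y : ℝ) = 0 :=
    sum_eq_zero fun y _ => zero_mul _
  beta_reduce at key
  rw [e2, zero_add] at key
  exact key

/-- **the load of a column against its test**, the Konig pairs of the tails in `X` out -/
theorem LevC.pY_col (C : LevC n U ho vl kp mn pc φ g f)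
    (H : PConC R n t s mu U ho vl kp mn pc ar be kq NN sg nu) (hz : z < n) (hzR : t z + 1 < R)
    (hy : y ∈ (range n).erase z) {P : ℕ → Finset ι} (hP : P y ⊆ hsZ U ho pc z) {X Y : Finset ℕ}
    (hX : X ⊆ ((range n).erase z).erase y) (hY : Y ⊆ X) {K : Finset ι}
    (hK : K ⊆ U.filter fun u => g z u ≠ 0) :
    2 * (((R : ℝ) - ((t z : ℝ) + 1)) * pY R n t U ho vl kp mn pc be g z P K y)
        + (csRW n t U ho vl kp pc be kq NN sg g z y (mu z - s z) (P y) X Y
          (K.filter fun u => ho u = y) : ℝ)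
      ≤ 2 * ((t y : ℝ) * ((mu z : ℝ) - s z)) + 2 * ((R : ℝ) - t y) := by
  have h1 := C.csInW H hz hy hP hX hY (V := K.filter fun u => ho u = y) (by
    intro u hu
    obtain ⟨h1, h2⟩ := mem_filter.1 hu
    obtain ⟨h3, h4⟩ := mem_filter.1 (hK h1)
    exact mem_filter.2 ⟨h3, h2, h4⟩)
  have hc0 : (0 : ℝ) < (R : ℝ) - ((t z : ℝ) + 1) := by
    have : (t z : ℝ) + 1 < R := by exact_mod_cast hzR
    linarith
  unfold pY
  set c : ℝ := (R : ℝ) - ((t z : ℝ) + 1) with hc
  have e1 : ∀ a b e : ℝ, c * (a + b + e / c) = c * (a + b) + e := by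
    intro a b e
    field_simp
  rw [e1]
  linarith

/-- **tN**: the load of the row test with everything kept, `E = mu z +` the used levels -/
theorem LevC.eT_N (C : LevC n U ho vl kp mn pc φ g f)
    (H : PCon R n t s mu U ho vl kp mn pc ar be kq NN sg nu) (hz : z < n) (hzR : t z + 1 < R)
    {K : Finset ι} (hK : K ⊆ U.filter fun u => g z u ≠ 0) {E : ℤ}
    (hE : E = mu z + ∑ u ∈ K, (g z u : ℤ)) (h2 : 2 * E ≤ R) :
    ((R : ℝ) - ((t z : ℝ) + 1)) * eT R n t U ho vl kp mn pc be g z K 1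
      ≤ (R : ℝ) * ((mu z : ℝ) - s z) + 2 * (E * (E - ((mu z : ℝ) - s z))) := by
  have h1 := C.csInN H hz hK hE rfl h2
  have hc0 : (0 : ℝ) < (R : ℝ) - ((t z : ℝ) + 1) := by
    have : (t z : ℝ) + 1 < R := by exact_mod_cast hzR
    linarith
  unfold eT
  set c : ℝ := (R : ℝ) - ((t z : ℝ) + 1) with hc
  have e1 : ∀ a b : ℝ, c * (a - b / c) = c * a - b := by
    intro a b
    field_simp
  rw [e1]
  push_cast at h1
  linarith

/-- **the exact row test, the PC pairs hosted by `z` out** (block pairs kept) -/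
theorem LevC.eT_T (C : LevC n U ho vl kp mn pc φ g f)
    (H : PConC R n t s mu U ho vl kp mn pc ar be kq NN sg nu) (hz : z < n) (hzR : t z + 1 < R)
    {K : Finset ι} (hK : K ⊆ U.filter fun u => g z u ≠ 0) {sv : ℤ}
    (hs : sv ≤ svP n ho vl K (g z) + svP n ho vl (K.filter fun u => pc u = 0) (g z)) :
    2 * (((R : ℝ) - ((t z : ℝ) + 1)) * eT R n t U ho vl kp mn pc be g z K 0)
        + (csRT R n t U ho vl pc be kq z (mu z - s z) K (g z) sv : ℝ)
      ≤ 2 * ((R : ℝ) * ((mu z : ℝ) - s z)) := by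
  have h1 := C.csInT H hz hK (lv := g z) (fun u hu => Nat.one_le_iff_ne_zero.2 (mem_filter.1 (hK hu)).2)
    (fun u hu => C.le u (mem_filter.1 (hK hu)).1 z hz) hs
  have hc0 : (0 : ℝ) < (R : ℝ) - ((t z : ℝ) + 1) := by
    have : (t z : ℝ) + 1 < R := by exact_mod_cast hzR
    linarith
  unfold eT
  set c : ℝ := (R : ℝ) - ((t z : ℝ) + 1) with hc
  have e1 : ∀ a b : ℝ, c * (a - b / c) = c * a - b := by
    intro a b
    field_simp
  rw [e1]
  linarith

/-- **the load of a column against its test with a rectangle** -/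
theorem LevC.pY_rec (C : LevC n U ho vl kp mn pc φ g f)
    (H : PConC R n t s mu U ho vl kp mn pc ar be kq NN sg nu) (hz : z < n) (hzR : t z + 1 < R)
    (hy : y ∈ (range n).erase z) {P : ℕ → Finset ι} (hP : P y ⊆ hsZ U ho pc z) {Y : Finset ℕ}
    (hY : Y ⊆ ((range n).erase z).erase y) {K : Finset ι}
    (hK : K ⊆ U.filter fun u => g z u ≠ 0) {EX : ℤ}
    (hRc : RcW U mn z y (be z y) ((csQ pc (K.filter fun u => ho u = y)).card : ℤ) EX) :
    2 * (((R : ℝ) - ((t z : ℝ) + 1)) * pY R n t U ho vl kp mn pc be g z P K y)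
        + ((csRX n t U ho vl kp pc ar be kq NN sg g z y (mu z - s z) (P y) Y
          (K.filter fun u => ho u = y) EX
          - 2 * (be y z * (((K.filter fun u => ho u = y).filter
            fun u => othE n kp z u).card : ℤ)) : ℤ) : ℝ)
      ≤ 2 * ((t y : ℝ) * ((mu z : ℝ) - s z)) + 2 * ((R : ℝ) - t y) := by
  have hVs : (K.filter fun u => ho u = y) ⊆ U.filter fun u => ho u = y ∧ g z u ≠ 0 := by
    intro u hu
    obtain ⟨h1, h2⟩ := mem_filter.1 hu
    obtain ⟨h3, h4⟩ := mem_filter.1 (hK h1)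
    exact mem_filter.2 ⟨h3, h2, h4⟩
  have h1 := C.csInX H hz hy hP hY (V := K.filter fun u => ho u = y) hVs hRc
  have hyz : y ≠ z := ne_of_mem_erase hy
  have h6 : ∑ u ∈ K.filter (fun u => ho u = y), (rnA n kp be z y u : ℝ)
      = ∑ u ∈ K.filter (fun u => ho u = y), (rnB n kp be z y u : ℝ)
      + be y z * (((K.filter fun u => ho u = y).filter fun u => othE n kp z u).card : ℝ) := by
    have h7 : ∀ u ∈ K.filter (fun u => ho u = y), (rnA n kp be z y u : ℝ) = (rnB n kp be z y u : ℝ)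
        + (if othE n kp z u then (be y z : ℝ) else 0) := by
      intro u hu
      obtain ⟨h8, -, h9⟩ := mem_filter.1 (hVs hu)
      have h10 := C.le u h8 z hz
      rw [rnA_eq_rnB hz hyz (by omega)]
      push_cast
      split_ifs <;> simp
    rw [sum_congr rfl h7, sum_add_distrib, ← sum_filter, sum_const, nsmul_eq_mul]
    ring
  have hc0 : (0 : ℝ) < (R : ℝ) - ((t z : ℝ) + 1) := by
    have : (t z : ℝ) + 1 < R := by exact_mod_cast hzR
    linarith
  rw [sum_add_distrib, h6] at h1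
  unfold pY
  rw [sum_add_distrib (f := fun u => (msP kp mn z (g z) u : ℝ))]
  set c : ℝ := (R : ℝ) - ((t z : ℝ) + 1) with hc
  have e1 : ∀ a b e : ℝ, c * (a + b + e / c) = c * (a + b) + e := by
    intro a b e
    field_simp
  rw [e1]
  push_cast
  linarith

/-- **the exact row test with everything kept** -/
theorem LevC.eT_K (C : LevC n U ho vl kp mn pc φ g f)
    (H : PConC R n t s mu U ho vl kp mn pc ar be kq NN sg nu) (hz : z < n) (hzR : t z + 1 < R)
    {K : Finset ι} (hK : K ⊆ U.filter fun u => g z u ≠ 0) {sv : ℤ}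
    (hs : sv ≤ svP n ho vl K (g z) + svP n ho vl (K.filter fun u => pc u = 0) (g z)) :
    2 * (((R : ℝ) - ((t z : ℝ) + 1)) * eT R n t U ho vl kp mn pc be g z K 1)
        + (csRK n U ho vl pc NN g z (mu z) (mu z - s z) K sv : ℝ)
      ≤ 2 * ((R : ℝ) * ((mu z : ℝ) - s z)) := by
  have h1 := C.csInK H hz hK hs
  have hc0 : (0 : ℝ) < (R : ℝ) - ((t z : ℝ) + 1) := by
    have : (t z : ℝ) + 1 < R := by exact_mod_cast hzR
    linarith
  unfold eT
  set c : ℝ := (R : ℝ) - ((t z : ℝ) + 1) with hc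
  have e1 : ∀ a b : ℝ, c * (a - b / c) = c * a - b := by
    intro a b
    field_simp
  rw [e1]
  linarith

end RowXP

end Pool.Agent.Lib.MP_f04ccf_co
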