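import Pool.Agent.Lib.MP_f04ccf_co.M.RowXW
import Pool.Agent.Lib.MP_f04ccf_co.M.HubC2

/-!
MP_f04ccf_co, TEXT D, regime H: **row tests which keep the PC pairs hosted by `z`, and the N-mix instance of
`LevC.rowX_of_weights`.**

* `LevC.csInN`: tN, remainder `- 4 E (E - d)`; `LevC.csInK`: the exact row test, everything kept;
* `LevC.kd_all`, `LevC.kp_all`: the credits of a hosted item of value one if everything is kept;
* `LevC.rowX_N`: **weights `w 0 = A / (C + 1)`, `τ = (C + 1 - A) / ((C + 1) c)`**: coefficient of `d` exactly one, constant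
  `A / c`.
-/

set_option autoImplicit false

namespace Pool.Agent.Lib.MP_f04ccf_co

open Finset

attribute [local instance] Classical.propDecidable

section RowXT

variable {ι : Type*} {R : ℤ} {n : ℕ} {t s mu : ℕ → ℤ} {U : Finset ι} {ho : ι → ℕ} {vl : ι → ℤ}
  {kp mn : ℕ → ι → ℤ} {pc ar : ι → ℤ} {be kq NN sg : ℕ → ℕ → ℤ} {nu : ℕ → ι → ℤ} {z y : ℕ}
  {φ : ι → ℕ → ℤ} {g : ℕ → ι → ℕ} {f : ι → ℕ}

/-- **tN as a row test with all PC pairs kept** -/
theorem LevC.csInN (C : LevC n U ho vl kp mn pc φ g f)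
    (H : PCon R n t s mu U ho vl kp mn pc ar be kq NN sg nu) (hz : z < n)
    {K : Finset ι} (hK : K ⊆ U.filter fun u => g z u ≠ 0) {E d : ℤ}
    (hE : E = mu z + ∑ u ∈ K, (g z u : ℤ)) (hd : d = mu z - s z) (h2 : 2 * E ≤ R) :
    2 * (((R : ℝ) - ((t z : ℝ) + 1)) * (∑ u ∈ hsZ U ho pc z, (vl u : ℝ)
        + 1 * ∑ y ∈ (range n).erase z, (be z y : ℝ) + ∑ u ∈ K, (g z u : ℝ)))
        + ((-(4 * (E * (E - d))) : ℤ) : ℝ)
      ≤ 2 * ((R : ℝ) * ((mu z : ℝ) - s z)) + 2 * ∑ u ∈ K, (msP kp mn z (g z) u : ℝ) := by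
  have h1 := H.tN z hz K (hK.trans (filter_subset _ _)) (fun u hu h3 =>
    (mem_filter.1 (hK hu)).2 (by rw [← h3]; exact C.home u (mem_filter.1 (hK hu)).1)) (g z)
    (fun u hu => Nat.one_le_iff_ne_zero.2 (mem_filter.1 (hK hu)).2)
    (fun u hu => C.le u (mem_filter.1 (hK hu)).1 z hz) (by rw [← hE]; exact h2)
  have e1 : s z + ∑ u ∈ K, (g z u : ℤ) = E - d := by rw [hE, hd]; ring
  rw [e1, ← hE] at h1
  have e2 := H.mu_plain hz
  have e3 : ∑ u ∈ hsZ U ho pc z, vl u + 1 * ∑ y ∈ (range n).erase z, be z y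
      + ∑ u ∈ K, (g z u : ℤ) = E := by
    unfold hsZ
    rw [hE, e2]
    ring
  have h3 : 2 * ((R - (t z + 1)) * (∑ u ∈ hsZ U ho pc z, vl u
        + 1 * ∑ y ∈ (range n).erase z, be z y + ∑ u ∈ K, (g z u : ℤ)))
        + (-(4 * (E * (E - d)))) ≤ 2 * (R * (mu z - s z)) + 2 * ∑ u ∈ K, msP kp mn z (g z) u := by
    rw [e3, ← hd]
    linarith
  exact_mod_cast h3

/-- the remainder of the exact row test with everything kept -/
noncomputable def csRK (n : ℕ) (U : Finset ι) (ho : ι → ℕ) (vl pc : ι → ℤ) (NN : ℕ → ℕ → ℤ)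
    (g : ℕ → ι → ℕ) (z : ℕ) (m d : ℤ) (K : Finset ι) (sv : ℤ) : ℤ :=
  2 * ((m + ∑ u ∈ K, (g z u : ℤ) + (K.card : ℤ)) * (d - (m + ∑ u ∈ K, (g z u : ℤ))))
    + (m + ∑ u ∈ K, (g z u : ℤ) - (K.card : ℤ)) * (m + ∑ u ∈ K, (g z u : ℤ) + (K.card : ℤ) + 1)
    + sv + ∑ e ∈ (hsZ U ho pc z).offDiag, min (vl e.1) (vl e.2)
    - ∑ l ∈ (range n).erase z, NN z l

/-- **the exact row test with everything kept** -/
theorem LevC.csInK (C : LevC n U ho vl kp mn pc φ g f)
    (H : PConC R n t s mu U ho vl kp mn pc ar be kq NN sg nu) (hz : z < n)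
    {K : Finset ι} (hK : K ⊆ U.filter fun u => g z u ≠ 0) {sv : ℤ}
    (hs : sv ≤ svP n ho vl K (g z) + svP n ho vl (K.filter fun u => pc u = 0) (g z)) :
    2 * (((R : ℝ) - ((t z : ℝ) + 1)) * (∑ u ∈ hsZ U ho pc z, (vl u : ℝ)
        + 1 * ∑ y ∈ (range n).erase z, (be z y : ℝ) + ∑ u ∈ K, (g z u : ℝ)))
        + (csRK n U ho vl pc NN g z (mu z) (mu z - s z) K sv : ℝ)
      ≤ 2 * ((R : ℝ) * ((mu z : ℝ) - s z)) + 2 * ∑ u ∈ K, (msP kp mn z (g z) u : ℝ) := by
  have h0 := H.rowLin hz (P := hsZ U ho pc z) (filter_subset _ _)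
    (fun u hu => (mem_filter.1 hu).2) (X := ∅) (Y := ∅) (empty_subset _)
    (empty_subset _) (K := K) (hK.trans (filter_subset _ _)) (fun u hu h3 =>
    (mem_filter.1 (hK hu)).2 (by rw [← h3]; exact C.home u (mem_filter.1 (hK hu)).1))
    (lv := g z) (fun u hu => Nat.one_le_iff_ne_zero.2 (mem_filter.1 (hK hu)).2)
    (fun u hu => C.le u (mem_filter.1 (hK hu)).1 z hz) hs (m := mu z)
    (k := ∑ u ∈ K, (g z u : ℤ)) (κ' := (K.card : ℤ)) (E := mu z + ∑ u ∈ K, (g z u : ℤ))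
    (W := mu z + ∑ u ∈ K, (g z u : ℤ) + (K.card : ℤ)) (g := 0) (by
      simp only [sum_empty, sub_zero]
      unfold hsZ
      ring) rfl rfl rfl rfl (by
      unfold hsZ
      ring)
  have e2 := H.toPCon.mu_plain hz
  have e3 : ∑ u ∈ hsZ U ho pc z, vl u + 1 * ∑ y ∈ (range n).erase z, be z y
      + ∑ u ∈ K, (g z u : ℤ) = mu z + ∑ u ∈ K, (g z u : ℤ) := by
    unfold hsZ
    rw [e2]
    ring
  rw [sdiff_empty, sum_empty, sum_empty, sdiff_empty] at h0
  have h3 : 2 * ((R - (t z + 1)) * (∑ u ∈ hsZ U ho pc z, vl u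
        + 1 * ∑ y ∈ (range n).erase z, be z y + ∑ u ∈ K, (g z u : ℤ)))
        + csRK n U ho vl pc NN g z (mu z) (mu z - s z) K sv
      ≤ 2 * (R * (mu z - s z)) + 2 * ∑ u ∈ K, msP kp mn z (g z) u := by
    rw [e3]
    unfold csRK
    linarith
  exact_mod_cast h3

/-- the credit of a hosted item of value one, everything kept: at least `t y - A` -/
lemma LevC.kd_all (H : PCon R n t s mu U ho vl kp mn pc ar be kq NN sg nu) (hy : y < n) {u : ι}
    (hu : u ∈ hsZ U ho pc z) (h1 : vl u = 1) :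
    (t y : ℝ) - ((t z : ℝ) + 1) ≤ (crY R t vl kp mn z y (hsZ U ho pc z) u : ℝ) := by
  have huU := (mem_filter.1 hu).1
  have h2 : t y - (t z + 1) ≤ crY R t vl kp mn z y (hsZ U ho pc z) u := by
    unfold crY
    rw [if_pos hu, h1, mul_one]
    by_cases h3 : kp y u = 0
    · have h4 := H.mnz u huU y hy h3
      rw [h3, h4]
      linarith
    · have h4 := H.kp_one huU h1 hy h3
      have h5 := H.mnc u huU y hy
      rw [h4]
      linarith
  exact_mod_cast h2

/-- the credit of a hosted item of value one at its ends, everything kept -/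
lemma LevC.kp_all (H : PCon R n t s mu U ho vl kp mn pc ar be kq NN sg nu) (hy : y < n) {u : ι}
    (hu : u ∈ hsZ U ho pc z) (h1 : vl u = 1) (h3 : kp y u ≠ 0) :
    (R : ℝ) - ((t z : ℝ) + 1) - mn y u ≤ (crY R t vl kp mn z y (hsZ U ho pc z) u : ℝ) := by
  have huU := (mem_filter.1 hu).1
  have h2 : R - (t z + 1) - mn y u ≤ crY R t vl kp mn z y (hsZ U ho pc z) u := by
    unfold crY
    rw [if_pos hu, h1, mul_one, H.kp_one huU h1 hy h3]
    linarith
  exact_mod_cast h2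

/-- **the N-mix instance**: `(C + 1 - A)` times a row test with all PC pairs kept and `A` times the hub column -/
theorem LevC.rowX_N (C : LevC n U ho vl kp mn pc (phiX R t ho mn) g f)
    (H : PConC R n t s mu U ho vl kp mn pc ar be kq NN sg nu) (hR : R ≤ 2 * (t 0 + 1))
    (hR6 : 6 ≤ R) (hz : z < n) (hz0 : z ≠ 0) {cp : ι × ℕ × ℕ → ℝ} {Z : ℕ → ℝ} {c c0 A : ℝ}
    (hA : A = (t z : ℝ) + 1) (hc : c = (R : ℝ) - A) (hc0 : c0 = (R : ℝ) - t 0)
    (hZ : (∃ u ∈ U, ho u = z ∧ hubC ho vl kp g f u) → Z z = A / c) (hZ1 : Z z ≤ A / c)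
    {K : Finset ι} (hK : K ⊆ U.filter fun u => g z u ≠ 0) {Y : Finset ℕ}
    (hY : Y ⊆ ((range n).erase z).erase 0) {rT : ℝ}
    (hT : 2 * (c * (∑ u ∈ hsZ U ho pc z, (vl u : ℝ) + 1 * ∑ y ∈ (range n).erase z, (be z y : ℝ)
        + ∑ u ∈ K, (g z u : ℝ))) + rT
      ≤ 2 * ((R : ℝ) * ((mu z : ℝ) - s z)) + 2 * ∑ u ∈ K, (msP kp mn z (g z) u : ℝ))
    -- the half units with two thin ends
    (hd : ∀ u ∈ hsZ U ho pc z, vl u = 1 → ∀ m < n, g m u ≠ 0 → cutE kp g f u → f u ≠ 0 →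
      A / c ≤ sX t ho (u, m, 0) * (1 - rX R t ho kp mn be g f (u, m, 0)))
    -- the cap
    (hcp : ∀ u ∈ U, g z u ≠ 0 → vl u = 1 → ho u = 0 → cutE kp g f u →
      cp (u, z, 0) < ((mn z u : ℝ) + be 0 (f u)) / c →
      (mn z u : ℝ) + A / c0 * be 0 (f u) ≤ c * cp (u, z, 0))
    (hus : ∀ u ∈ U, g z u ≠ 0 → vl u = 1 → (u ∈ K ↔ usX R t ho kp mn be g f z u))
    -- the cliques
    (hBc : ∀ u ∈ hsZ U ho pc z, vl u ≠ 1 →
      xIt n g (fun v => max 0 (sHX Z cp R n t U ho vl kp mn be g f v)) u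
        ≤ A / (c0 * c) * (crY R t vl kp mn z 0 (hsZ U ho pc z) u : ℝ)
          + (c0 - A) / c0 * (vl u : ℝ))
    (hSc : ∀ u ∈ U, g z u ≠ 0 → vl u ≠ 1 →
      yIt g (fun v => max 0 (sMX cp R n t U ho vl kp mn be g f v)) z u
        ≤ if u ∈ K then (if ho u = 0 then A / c0 * ((g z u : ℝ)
              - ((msP kp mn z (g z) u : ℝ) + (rnB n kp be z 0 u : ℝ)) / c) else 0)
          + (c0 - A) / c0 * ((g z u : ℝ) - (msP kp mn z (g z) u : ℝ) / c) else 0)
    {F : Finset (ι × ℕ × ℕ)} (hF : F ⊆ unV n U g) :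
    ∑ v ∈ F.filter (fun v => ho v.1 = z), sHX Z cp R n t U ho vl kp mn be g f v
        + ∑ v ∈ F.filter (fun v => v.2.1 = z), sMX cp R n t U ho vl kp mn be g f v
        + (1 / 2) * (A / (c0 * c)
            * ((csRJ n t U ho vl kp pc be kq sg g z 0 (mu z - s z) (hsZ U ho pc z) Y
                (K.filter fun u => ho u = 0)
              - 2 * (be 0 z * (((K.filter fun u => ho u = 0).filter
                fun u => othE n kp z u).card : ℤ)) : ℤ) : ℝ)
          + (c0 - A) / (c0 * c) * rT)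
      ≤ (mu z : ℝ) - s z + A / c := by
  have hn : 0 < n := by have := H.n5; omega
  have hm2 := H.toPCon.mass2 hz hz0
  have ht0 := H.t0 0 hn
  have htz := H.t0 z hz
  have hm2' : (t 0 : ℝ) + 1 + ((t z : ℝ) + 1) ≤ R := by exact_mod_cast hm2
  have ht0' : (0 : ℝ) ≤ t 0 := by exact_mod_cast ht0
  have htz' : (0 : ℝ) ≤ t z := by exact_mod_cast htz
  have hA1 : 0 < A := by linarith
  have hcp0 : 0 < c := by linarith
  have hc00 : 0 < c0 := by linarith
  have hcA : 0 ≤ c0 - A := by linarith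
  have h0J : 0 ∈ (range n).erase z := mem_erase.2 ⟨Ne.symm hz0, mem_range.2 hn⟩
  set w : ℕ → ℝ := fun y => if y = 0 then A / c0 else 0 with hw
  set kd : ℕ → ℝ := fun y => (t y : ℝ) - ((t z : ℝ) + 1) with hkd
  set τ : ℝ := (c0 - A) / (c0 * c) with hτ
  have ew0 : w 0 = A / c0 := if_pos rfl
  have ewy : ∀ y, y ≠ 0 → w y = 0 := fun y hy => if_neg hy
  have eτ : τ * c = (c0 - A) / c0 := by
    rw [hτ]
    field_simp
  have ew : ∀ G : ℕ → ℝ, ∑ y ∈ (range n).erase z, w y / c * G y = A / (c0 * c) * G 0 := by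
    intro G
    rw [sum_eq_single_of_mem 0 h0J fun y _ hy => by rw [ewy y hy, zero_div, zero_mul], ew0]
    field_simp
  have hL : (1 - A / c : ℝ) = τ * c + ∑ y ∈ (range n).erase z, w y / c * kd y := by
    rw [ew, eτ, hkd]
    have e1 : (t 0 : ℝ) - ((t z : ℝ) + 1) = c - c0 := by rw [hc, hc0, hA]; ring
    show (1 - A / c : ℝ) = (c0 - A) / c0 + A / (c0 * c) * ((t 0 : ℝ) - ((t z : ℝ) + 1))
    rw [e1]
    field_simp
    ring
  have hAy : ∀ y < n, y ≠ z → y ≠ 0 → 0 < (t y : ℝ) + 1 ∧ A + ((t y : ℝ) + 1) ≤ c0 ∧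
      A + ((t y : ℝ) + 1) ≤ c := by
    intro y hy hyz hy0
    have h1 := H.toPCon.mass3 hn hz hy (Ne.symm hz0) (Ne.symm hy0) (Ne.symm hyz)
    have h2 := H.t0 y hy
    have h3 : (t 0 : ℝ) + 1 + ((t z : ℝ) + 1) + ((t y : ℝ) + 1) ≤ R := by exact_mod_cast h1
    have h4 : (0 : ℝ) ≤ t y := by exact_mod_cast h2
    have h5 : (R : ℝ) ≤ 2 * ((t 0 : ℝ) + 1) := by exact_mod_cast hR
    refine ⟨by linarith, by linarith, by linarith⟩
  have hsy : ∀ (y : ℕ) (k : ℝ), 0 < (t y : ℝ) + 1 → 0 < k → A + ((t y : ℝ) + 1) ≤ k →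
      ((t y : ℝ) + 1) / ((t z : ℝ) + 1 + ((t y : ℝ) + 1)) ≤ 1 - A / k := by
    intro y k h1 h2 h3
    rw [← hA]
    have h4 : ((t y : ℝ) + 1) / (A + ((t y : ℝ) + 1)) = 1 - A / (A + ((t y : ℝ) + 1)) := by
      field_simp
      ring
    rw [h4]
    have h5 : A / k ≤ A / (A + ((t y : ℝ) + 1)) :=
      div_le_div_of_nonneg_left hA1.le (by linarith) h3
    linarith
  have hτc : τ * c = 1 - A / c0 := by
    rw [eτ]
    field_simp
  have key := C.rowX_of_weights H.toPCon hR hR6 hz hz0 (cp := cp) (Z := Z) (c := c) (τ := τ)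
    (κ := 1) (L := 1 - A / c) (w := w) (kd := kd) (by rw [hc, hA])
    (fun y _ => by
      show 0 ≤ if y = 0 then A / c0 else 0
      split_ifs
      · positivity
      · exact le_rfl) (by rw [hτ]; positivity) (by rw [← hA]; exact hZ1) (P := fun _ => hsZ U ho pc z) hK
    (r := fun y => ((csRJ n t U ho vl kp pc be kq sg g z y (mu z - s z) (hsZ U ho pc z)
        (if y = 0 then Y else ∅) (K.filter fun u => ho u = y)
      - 2 * (be y z * (((K.filter fun u => ho u = y).filter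
        fun u => othE n kp z u).card : ℤ)) : ℤ) : ℝ)) (by
      intro y hy
      have h1 := C.csInB H hz hy (P := hsZ U ho pc z) (Subset.refl _)
        (Y := if y = 0 then Y else ∅) (by
          split_ifs with h2
          · rw [h2]; exact hY
          · exact empty_subset _) (V := K.filter fun u => ho u = y) (by
          intro u hu
          obtain ⟨h1, h2⟩ := mem_filter.1 hu
          obtain ⟨h3, h4⟩ := mem_filter.1 (hK h1)
          exact mem_filter.2 ⟨h3, h2, h4⟩)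
      rw [← hA, ← hc] at h1
      exact h1) (rT := rT) hT
    (fun y hy u hu h1 => LevC.kd_all H.toPCon (mem_range.1 (mem_of_mem_erase hy)) hu h1)
    (fun y hy u hu h1 h2 => by
      have := LevC.kp_all H.toPCon (mem_range.1 (mem_of_mem_erase hy)) hu h1 h2
      rw [← hA, ← hc] at this
      exact this) rfl hL
    (by rw [ew0, one_mul, hτc]; linarith) (by rw [ew0, hτc]; linarith)
    (fun y hy hyz hy0 => by
      obtain ⟨h1, h2, h3⟩ := hAy y hy hyz hy0
      rw [ewy y hy0, one_mul, zero_add, hτc]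
      exact hsy y c0 h1 hc00 h2)
    (fun y hy hyz hy0 => by
      obtain ⟨h1, h2, h3⟩ := hAy y hy hyz hy0
      rw [ewy y hy0, zero_add, hτc]
      exact hsy y c0 h1 hc00 h2)
    (by
      rw [ew0, ← hc0]
      have e1 : A / c0 / c * c0 = A / c := by
        field_simp
      rw [e1]
      linarith)
    (fun y hy hyz hy0 => by
      obtain ⟨h1, h2, h3⟩ := hAy y hy hyz hy0
      rw [ewy y hy0, zero_div, zero_mul, add_zero]
      exact hsy y c h1 hcp0 h3)
    (fun h => by rw [hZ h])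
    (fun u hu h1 m hm h2 h3 h4 => by
      have h5 := hd u hu h1 m hm h2 h3 h4
      obtain ⟨huU, hhz, -⟩ := mem_filter.1 hu
      have hm0 : m ≠ 0 := by
        have h6 := C.one_unit H.toPCon huU h1
        obtain ⟨m', hm', h7, -, -, h8, h9, -, -⟩ := h6
        have h10 : m = m' := by
          by_contra hcon
          exact h2 (h8 m hm hcon)
        subst h10
        exact C.two_mainX H.toPCon h9 ⟨h1, h3⟩ (by rw [hhz]; exact hz0)
      rw [ewy m hm0, ewy (f u) h4, zero_div, zero_mul, zero_mul]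
      linarith)
    (fun u hu h1 h2 h3 h4 h5 => by
      have h6 := hcp u hu h1 h2 h3 h4 h5
      rw [ew0, hτc]
      have e1 : A / c0 + (1 - A / c0) = 1 := by ring
      rw [e1]
      linarith) hus
    (fun u hu h1 => by
      have h2 := hBc u hu h1
      rw [ew]
      have e1 : τ * (c * (vl u : ℝ)) = (c0 - A) / c0 * (vl u : ℝ) := by
        rw [← mul_assoc, eτ]
      rw [e1]
      exact h2)
    (fun u hu h1 h2 => by
      have h3 := hSc u hu h1 h2
      by_cases h4 : u ∈ K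
      · rw [if_pos h4] at h3 ⊢
        refine h3.trans (le_of_eq ?_)
        have e1 : τ * (c * (g z u : ℝ) - (msP kp mn z (g z) u : ℝ))
            = (c0 - A) / c0 * ((g z u : ℝ) - (msP kp mn z (g z) u : ℝ) / c) := by
          rw [hτ]
          field_simp
        rw [e1]
        congr 1
        by_cases h5 : ho u = 0
        · rw [if_pos h5, h5, ew0]
          field_simp
        · rw [if_neg h5, ewy _ h5]
          simp
      · rw [if_neg h4] at h3 ⊢
        exact h3) hF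
  rw [ew, ew, ew] at key
  rw [if_pos rfl] at key
  have e1 : A / (c0 * c) * (t 0 : ℝ) + τ * R = 1 := by
    rw [hτ]
    have e2 : (t 0 : ℝ) = R - c0 := by rw [hc0]; ring
    rw [e2]
    have e3 : (R : ℝ) = c + A := by rw [hc]; ring
    rw [e3]
    field_simp
    ring
  have e4 : A / (c0 * c) * ((R : ℝ) - t 0) = A / c := by
    rw [← hc0]
    field_simp
  rw [e1, e4, one_mul] at key
  exact key

end RowXT

end Pool.Agent.Lib.MP_f04ccf_co
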