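import Pool.Agent.Lib.MP_f04ccf_co.M.RowXT

/-!
MP_f04ccf_co, TEXT D, regime H: **row claims of the table X* with losses and the two-parameter family of weights.**

Losses: `lp y` per PC pair hosted by `z` with tail `y`, `lh u` per plain item hosted by `z`, `ls u` per item served at
`z`.

* `LevC.csShareL`: `LevC.csShareA` with losses;
* `LevC.hstV`, `LevC.srvV`: the hosted and the served item of value one;
* `LevC.rowX_loss`: the row claim from weights, every type per unit, with losses;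
* `wF`, `kdF`, `KeepF`: the two-parameter family of weights; `LevC.rowX_fam`: the row claim of the family.
-/

set_option autoImplicit false

namespace Pool.Agent.Lib.MP_f04ccf_co

open Finset

attribute [local instance] Classical.propDecidable

section RowXV

variable {ι : Type*} {R : ℤ} {n : ℕ} {t s mu : ℕ → ℤ} {U : Finset ι} {ho : ι → ℕ} {vl : ι → ℤ}
  {kp mn : ℕ → ι → ℤ} {pc ar : ι → ℤ} {be kq NN sg : ℕ → ℕ → ℤ} {nu : ℕ → ι → ℤ} {z y : ℕ}
  {φ : ι → ℕ → ℤ} {g : ℕ → ι → ℕ} {f : ι → ℕ}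

/-- **the row of any table from the column sum with losses**: `lp y` per PC pair hosted by `z` with tail `y`, `lh u` per
hosted plain item, `ls u` per served item -/
theorem LevC.csShareL (C : LevC n U ho vl kp mn pc φ g f)
    (H : PCon R n t s mu U ho vl kp mn pc ar be kq NN sg nu) (hz : z < n) {J : Finset ℕ}
    (hJ : J ⊆ (range n).erase z) {P : ℕ → Finset ι}
    {w : ℕ → ℝ} (hw : ∀ y ∈ J, 0 ≤ w y)
    (hJ0 : ∀ y ∈ (range n).erase z, y ∉ J → be z y = 0)
    {c : ℝ} (hc0 : 0 < c) {τ : ℝ} (hτ : 0 ≤ τ) {κ : ℝ} {α : ℕ → ι → ℝ}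
    -- the columns
    {V : ℕ → Finset ι} (hV : ∀ y ∈ J, V y ⊆ U.filter fun u => ho u = y ∧ g z u ≠ 0) {r : ℕ → ℝ}
    (hcol : ∀ y ∈ J, 2 * (c * ((be z y : ℝ) + ∑ u ∈ V y, (g z u : ℝ)))
        + 2 * ∑ u ∈ hsZ U ho pc z, (crY R t vl kp mn z y (P y) u : ℝ) + r y
      ≤ 2 * ((t y : ℝ) * ((mu z : ℝ) - s z)) + 2 * ((R : ℝ) - t y)
        + 2 * ∑ u ∈ V y, ((msP kp mn z (g z) u : ℝ) + α y u))
    -- the row test
    {KT : Finset ι} (hKT : KT ⊆ U.filter fun u => g z u ≠ 0) {lv : ι → ℕ} {rT : ℝ}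
    (hT : 2 * (c * (∑ u ∈ hsZ U ho pc z, (vl u : ℝ) + κ * ∑ y ∈ J, (be z y : ℝ)
        + ∑ u ∈ KT, (lv u : ℝ))) + rT
      ≤ 2 * ((R : ℝ) * ((mu z : ℝ) - s z)) + 2 * ∑ u ∈ KT, (msP kp mn z lv u : ℝ))
    -- the shares
    {X Y : ι × ℕ × ℕ → ℝ} (hX : ∀ v ∈ unV n U g, 0 ≤ X v) (hY : ∀ v ∈ unV n U g, 0 ≤ Y v)
    {F : Finset (ι × ℕ × ℕ)} (hF : F ⊆ unV n U g) {lp : ℕ → ℝ} {lh ls : ι → ℝ}
    (hpc : ∀ v ∈ unV n U g, ho v.1 = z → pc v.1 ≠ 0 → X v ≤ w v.2.1 + κ * (τ * c) + lp v.2.1)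
    (hB : ∀ u ∈ hsZ U ho pc z, xIt n g X u
      ≤ ∑ y ∈ J, w y / c * (crY R t vl kp mn z y (P y) u : ℝ) + τ * (c * (vl u : ℝ)) + lh u)
    (hS : ∀ u ∈ U, g z u ≠ 0 → yIt g Y z u
      ≤ (if ho u ∈ J ∧ u ∈ V (ho u) then w (ho u) * (g z u : ℝ)
          - w (ho u) / c * ((msP kp mn z (g z) u : ℝ) + α (ho u) u) else 0)
        + τ * (if u ∈ KT then c * (lv u : ℝ) - (msP kp mn z lv u : ℝ) else 0) + ls u) :
    ∑ v ∈ F.filter (fun v => ho v.1 = z), X v + ∑ v ∈ F.filter (fun v => v.2.1 = z), Y v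
        + (1 / 2) * (∑ y ∈ J, w y / c * r y + τ * rT)
      ≤ (∑ y ∈ J, w y / c * (t y : ℝ) + τ * R) * ((mu z : ℝ) - s z)
        + ∑ y ∈ J, w y / c * ((R : ℝ) - t y)
        + (∑ y ∈ J, lp y * (be z y : ℝ) + ∑ u ∈ hsZ U ho pc z, lh u
          + ∑ u ∈ U.filter (fun u => g z u ≠ 0), ls u) := by
  have hL := C.csLoad H hz hX hY hF
  -- the hosted items
  have h1 : ∑ u ∈ U.filter (fun u => ho u = z), xIt n g X u
      ≤ ∑ u ∈ hsZ U ho pc z, xIt n g X u + ∑ y ∈ J, (w y + κ * (τ * c) + lp y) * (be z y : ℝ) := by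
    rw [← sum_filter_add_sum_filter_not (U.filter fun u => ho u = z) (fun u => pc u = 0),
      filter_filter]
    refine add_le_add (le_of_eq rfl) ?_
    have h2 : ∀ u ∈ (U.filter fun u => ho u = z).filter (fun u => ¬ pc u = 0),
        xIt n g X u ≤ ∑ i ∈ range n, (w i + κ * (τ * c) + lp i) * (g i u : ℝ) := by
      intro u hu
      obtain ⟨h3, h4⟩ := mem_filter.1 hu
      obtain ⟨h5, h6⟩ := mem_filter.1 h3
      unfold xIt
      refine sum_le_sum fun i hi => ?_
      have h7 : ∀ j ∈ range (g i u), X (u, i, j) ≤ w i + κ * (τ * c) + lp i := by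
        intro j hj
        refine hpc (u, i, j) ?_ h6 h4
        have h8 := C.two H u h5 i (mem_range.1 hi)
        have h9 := mem_range.1 hj
        simp only [unV, mem_filter, mem_product, mem_range]
        exact ⟨⟨h5, mem_range.1 hi, by omega⟩, h9⟩
      refine (sum_le_sum h7).trans (le_of_eq ?_)
      rw [sum_const, card_range, nsmul_eq_mul]
      ring
    refine (sum_le_sum h2).trans (le_of_eq ?_)
    rw [sum_comm]
    have h3 : ∀ i ∈ range n, ∑ u ∈ (U.filter fun u => ho u = z).filter (fun u => ¬ pc u = 0),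
        (w i + κ * (τ * c) + lp i) * (g i u : ℝ) = (w i + κ * (τ * c) + lp i) * (be z i : ℝ) := by
      intro i hi
      rw [← mul_sum]
      congr 1
      have h4 : ∑ u ∈ (U.filter fun u => ho u = z).filter (fun u => ¬ pc u = 0), (g i u : ℤ)
          = be z i := by
        rw [← H.pcb z hz i (mem_range.1 hi),
          ← sum_filter_add_sum_filter_not (U.filter fun u => ho u = z)
          (fun u => pc u = 0) (fun u => pc u * kp i u)]
        have e2 : ∑ u ∈ (U.filter fun u => ho u = z).filter (fun u => pc u = 0), pc u * kp i u = 0 :=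
          sum_eq_zero fun u hu => by rw [(mem_filter.1 hu).2, zero_mul]
        rw [e2, zero_add]
        refine sum_congr rfl fun u hu => ?_
        obtain ⟨h5, h6⟩ := mem_filter.1 hu
        have h7 := (mem_filter.1 h5).1
        rw [C.lev_pc H h7 h6 (mem_range.1 hi)]
        rcases H.pc01 u h7 with h8 | h8
        · exact absurd h8 h6
        · rw [h8, one_mul]
      rw [← h4]
      push_cast
      rfl
    rw [sum_congr rfl h3]
    refine (sum_subset (hJ.trans (erase_subset _ _)) fun i hi hi' => ?_).symm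
    by_cases h4 : i = z
    · rw [h4]
      have h5 : be z z = 0 := by
        rw [← H.pcb z hz z hz]
        refine sum_eq_zero fun u hu => ?_
        obtain ⟨h6, h7⟩ := mem_filter.1 hu
        have h8 := H.kh u h6
        rw [h7] at h8
        rw [h8, mul_zero]
      rw [h5]
      norm_num
    · rw [hJ0 i (mem_erase.2 ⟨h4, hi⟩) hi']
      norm_num
  -- the served items
  have h2 : ∑ u ∈ U.filter (fun u => g z u ≠ 0), yIt g Y z u
      ≤ ∑ y ∈ J, ∑ u ∈ V y, (w y * (g z u : ℝ)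
          - w y / c * ((msP kp mn z (g z) u : ℝ) + α y u))
        + τ * ∑ u ∈ KT, (c * (lv u : ℝ) - (msP kp mn z lv u : ℝ))
        + ∑ u ∈ U.filter (fun u => g z u ≠ 0), ls u := by
    refine (sum_le_sum fun u hu => hS u (mem_filter.1 hu).1 (mem_filter.1 hu).2).trans
      (le_of_eq ?_)
    rw [sum_add_distrib, sum_add_distrib, ← mul_sum, ← sum_filter, ← sum_filter]
    have e2 : (U.filter fun u => g z u ≠ 0).filter (fun u => u ∈ KT) = KT := by
      ext u
      simp only [mem_filter]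
      exact ⟨fun h => h.2, fun h => ⟨mem_filter.1 (hKT h), h⟩⟩
    rw [e2]
    congr 2
    rw [← sum_fiberwise_of_maps_to (t := J) (g := fun u => ho u)
      fun u hu => (mem_filter.1 hu).2.1]
    refine sum_congr rfl fun y hy => ?_
    have e3 : ((U.filter fun u => g z u ≠ 0).filter fun u => ho u ∈ J ∧ u ∈ V (ho u)).filter
        (fun u => ho u = y) = V y := by
      ext u
      simp only [mem_filter]
      constructor
      · rintro ⟨⟨-, -, h3⟩, h4⟩
        rw [h4] at h3
        exact h3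
      · intro h3
        obtain ⟨h4, h5, h6⟩ := mem_filter.1 (hV y hy h3)
        refine ⟨⟨⟨h4, h6⟩, ?_, ?_⟩, h5⟩
        · rw [h5]
          exact hy
        · rw [h5]
          exact h3
    rw [e3]
    refine sum_congr rfl fun u hu => ?_
    rw [(mem_filter.1 (hV y hy hu)).2.1]
  -- the hosted plain items
  have h3 := sum_le_sum hB
  rw [sum_add_distrib, sum_add_distrib, sum_comm (s := hsZ U ho pc z) (t := J), ← mul_sum,
    ← mul_sum] at h3
  -- the columns
  have h4 : ∀ y ∈ J, w y * ((be z y : ℝ) + ∑ u ∈ V y, (g z u : ℝ))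
        + ∑ u ∈ hsZ U ho pc z, w y / c * (crY R t vl kp mn z y (P y) u : ℝ)
        + (1 / 2) * (w y / c * r y)
      ≤ w y / c * (t y : ℝ) * ((mu z : ℝ) - s z) + w y / c * ((R : ℝ) - t y)
        + w y / c * ∑ u ∈ V y, ((msP kp mn z (g z) u : ℝ) + α y u) := by
    intro y hy
    have h5 := mul_le_mul_of_nonneg_left (hcol y hy) (div_nonneg (hw y hy) hc0.le)
    have h6 : w y / c * (2 * (c * ((be z y : ℝ) + ∑ u ∈ V y, (g z u : ℝ))))
        = 2 * (w y * ((be z y : ℝ) + ∑ u ∈ V y, (g z u : ℝ))) := by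
      field_simp
    rw [← mul_sum]
    nlinarith [h5, h6]
  have h5 := sum_le_sum h4
  rw [sum_add_distrib, sum_add_distrib, sum_add_distrib, sum_add_distrib, ← sum_mul,
    ← mul_sum] at h5
  have h6 := mul_le_mul_of_nonneg_left hT hτ
  have h7 : ∑ y ∈ J, ∑ u ∈ V y, (w y * (g z u : ℝ)
          - w y / c * ((msP kp mn z (g z) u : ℝ) + α y u))
      = ∑ y ∈ J, w y * ∑ u ∈ V y, (g z u : ℝ)
        - ∑ y ∈ J, w y / c * ∑ u ∈ V y,
          ((msP kp mn z (g z) u : ℝ) + α y u) := by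
    rw [← sum_sub_distrib]
    refine sum_congr rfl fun y _ => ?_
    rw [sum_sub_distrib, ← mul_sum, ← mul_sum]
  have h8 : ∑ y ∈ J, w y * ((be z y : ℝ) + ∑ u ∈ V y, (g z u : ℝ))
      = ∑ y ∈ J, w y * (be z y : ℝ) + ∑ y ∈ J, w y * ∑ u ∈ V y, (g z u : ℝ) := by
    rw [← sum_add_distrib]
    exact sum_congr rfl fun y _ => by ring
  have h9 : ∑ u ∈ KT, (c * (lv u : ℝ) - (msP kp mn z lv u : ℝ))
      = c * ∑ u ∈ KT, (lv u : ℝ) - ∑ u ∈ KT, (msP kp mn z lv u : ℝ) := by
    rw [sum_sub_distrib, ← mul_sum]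
  have h10 : ∑ y ∈ J, (w y + κ * (τ * c) + lp y) * (be z y : ℝ)
      = ∑ y ∈ J, w y * (be z y : ℝ) + κ * (τ * c) * ∑ y ∈ J, (be z y : ℝ)
        + ∑ y ∈ J, lp y * (be z y : ℝ) := by
    rw [mul_sum, ← sum_add_distrib, ← sum_add_distrib]
    exact sum_congr rfl fun y _ => by ring
  rw [h7, h9] at h2
  rw [h8] at h5
  rw [h10] at h1
  nlinarith [hL, h1, h2, h3, h5, h6]

/-- the host's share of a hub-ended half unit is not negative -/
lemma X_nonneg {q s zz r : ℝ} (hq0 : 0 ≤ q) (hq1 : q ≤ 1) (hr0 : 0 ≤ r)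
    (hsz : zz ≤ s) (hs1 : s ≤ 1) : 0 ≤ 1 - q * s * (1 - r) - q * zz * r := by
  have h1 : q * (zz * r) ≤ q * (s * r) :=
    mul_le_mul_of_nonneg_left (mul_le_mul_of_nonneg_right hsz hr0) hq0
  have h4 : q * s ≤ q * 1 := mul_le_mul_of_nonneg_left hs1 hq0
  nlinarith

/-- **a hosted plain item of value one** pays its share of the table X* from the base `L`, its hits and the loss `lu`;
the half units by hypothesis (`hC`: hub-ended, `hd`: two thin ends) -/
theorem LevC.hstV (C : LevC n U ho vl kp mn pc (phiX R t ho mn) g f)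
    (H : PCon R n t s mu U ho vl kp mn pc ar be kq NN sg nu) (hR : R ≤ 2 * (t 0 + 1)) (hz : z < n)
    (hz0 : z ≠ 0) {P : ℕ → Finset ι} {u : ι}
    (hu : u ∈ hsZ U ho pc z) (h1 : vl u = 1) {cp : ι × ℕ × ℕ → ℝ} {Z : ℕ → ℝ} {c τ L lu : ℝ}
    {w kd : ℕ → ℝ}
    (hc : c = (R : ℝ) - ((t z : ℝ) + 1)) (hc0 : 0 < c)
    (hw : ∀ y ∈ (range n).erase z, 0 ≤ w y) (hZ : Z z ≤ ((t z : ℝ) + 1) / c)
    (hkd : ∀ y ∈ (range n).erase z, kd y ≤ (crY R t vl kp mn z y (P y) u : ℝ))
    (hkp : ∀ y ∈ (range n).erase z, kp y u ≠ 0 → c - mn y u ≤ (crY R t vl kp mn z y (P y) u : ℝ))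
    (hkd0 : kd 0 = (t 0 : ℝ) - ((t z : ℝ) + 1))
    (hL : L = τ * c + ∑ y ∈ (range n).erase z, w y / c * kd y)
    (hfh : ¬ cutE kp g f u → f u = 0 → 1 ≤ L + w 0 / c * ((R : ℝ) - t 0) + lu)
    (hft : ¬ cutE kp g f u → f u ≠ 0 →
      ((t (f u) : ℝ) + 1) / ((t z : ℝ) + 1 + ((t (f u) : ℝ) + 1))
        ≤ L + w (f u) / c * (c - kd (f u)) + lu)
    (hC : hubC ho vl kp g f u → ∀ m < n, m ≠ 0 → m ≠ z → g m u ≠ 0 →
      1 - qX R t mn u * sX t ho (u, m, 0) * (1 - rS R t ho kp mn be g f (u, m, 0))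
          - qX R t mn u * Z z * rS R t ho kp mn be g f (u, m, 0)
        ≤ L + w 0 / c * ((R : ℝ) - t 0 - mn 0 u) + w m / c * max 0 (c - mn m u - kd m) + lu)
    (hd : ∀ m < n, m ≠ 0 → m ≠ z → g m u ≠ 0 → cutE kp g f u → f u ≠ 0 →
      1 - sX t ho (u, m, 0) * (1 - rX R t ho kp mn be g f (u, m, 0))
        ≤ L + w m / c * max 0 (c - mn m u - kd m) + w (f u) / c * max 0 (c - mn (f u) u - kd (f u))
          + lu) :
    xIt n g (fun v => max 0 (sHX Z cp R n t U ho vl kp mn be g f v)) u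
      ≤ ∑ y ∈ (range n).erase z, w y / c * (crY R t vl kp mn z y (P y) u : ℝ)
        + τ * (c * (vl u : ℝ)) + lu := by
  obtain ⟨huU, hhz, hpc⟩ := mem_filter.1 hu
  obtain ⟨m, hm, h2, h3, h4, h5, h6, h7, h8⟩ := C.one_unit H huU h1
  rw [C.xIt_one hm h2 h5, h1]
  push_cast
  rw [mul_one]
  have hn : 0 < n := by have := H.n5; omega
  have hmz : m ≠ z := by rw [← hhz]; exact h4
  have h0J : 0 ∈ (range n).erase z := mem_erase.2 ⟨Ne.symm hz0, mem_range.2 hn⟩
  have hmJ : m ∈ (range n).erase z := mem_erase.2 ⟨hmz, mem_range.2 hm⟩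
  have hb0 : (0 : ℝ) ≤ mn m u := by exact_mod_cast H.m0 u huU m hm
  have hA : (0 : ℝ) < (t z : ℝ) + 1 := by
    have h9 : (0 : ℝ) ≤ t z := by exact_mod_cast H.t0 z hz
    linarith
  have hAm : (0 : ℝ) < (t m : ℝ) + 1 := by
    have h9 : (0 : ℝ) ≤ t m := by exact_mod_cast H.t0 m hm
    linarith
  have hm2 : (t 0 : ℝ) + 1 + ((t z : ℝ) + 1) ≤ R := by
    have h10 := H.tsum
    have h11 : ∑ i ∈ ({0, z} : Finset ℕ), (t i + 1) ≤ ∑ i ∈ range n, (t i + 1) :=
      sum_le_sum_of_subset_of_nonneg (fun i hi => by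
        rcases mem_insert.1 hi with h4 | h4
        · rw [h4]
          exact mem_range.2 hn
        · rw [mem_singleton.1 h4]
          exact mem_range.2 hz) fun i hi _ => by
        have := H.t0 i (mem_range.1 hi)
        linarith
    rw [sum_pair (Ne.symm hz0)] at h11
    have h12 : t 0 + 1 + (t z + 1) ≤ R := by linarith
    exact_mod_cast h12
  have hkp1 : ∀ y, y = m → (c - mn y u ≤ (crY R t vl kp mn z y (P y) u : ℝ)) := by
    rintro y rfl
    exact hkp y hmJ (by rw [h3]; norm_num)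
  have hL1 : ∀ y ∈ (range n).erase z, L + w y / c * ((crY R t vl kp mn z y (P y) u : ℝ) - kd y)
      ≤ ∑ y ∈ (range n).erase z, w y / c * (crY R t vl kp mn z y (P y) u : ℝ) + τ * c := by
    intro y hy
    have := cred_ge hc0 hw hkd hL (singleton_subset_iff.2 hy)
    rw [sum_singleton] at this
    exact this
  rcases h8 with ⟨h9, h10, h11, h12⟩ | ⟨h9, h10, h11, h12, h13, h14⟩
  · -- full
    have hC0 : ¬ hubC ho vl kp g f u := fun h => h9 h.1.2
    have hcr : c ≤ (crY R t vl kp mn z m (P m) u : ℝ) := by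
      have := hkp1 m rfl
      rw [h11] at this
      push_cast at this
      linarith
    have hwm : 0 ≤ w m / c := div_nonneg (hw m hmJ) hc0.le
    have h15 := hL1 m hmJ
    have h16 : w m / c * (c - kd m) ≤ w m / c * ((crY R t vl kp mn z m (P m) u : ℝ) - kd m) :=
      mul_le_mul_of_nonneg_left (by linarith) hwm
    unfold sHX
    rw [if_neg (show ¬ hubC ho vl kp g f ((u, m, 0) : ι × ℕ × ℕ).1 from hC0), sub_zero]
    by_cases hm0 : m = 0
    · subst hm0
      have h17 : sMX cp R n t U ho vl kp mn be g f (u, 0, 0) = 0 := by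
        unfold sMX
        rw [if_neg (show ho ((u, 0, 0) : ι × ℕ × ℕ).1 ≠ 0 from by rw [show ho ((u, 0, 0) : ι × ℕ × ℕ).1 = z from hhz]; exact hz0), if_pos rfl]
      rw [h17, sub_zero]
      have e1 : c - kd 0 = (R : ℝ) - t 0 := by rw [hkd0, hc]; ring
      rw [e1] at h16
      have h17 := hfh h9 h10.symm
      exact max_le (by linarith) (by linarith)
    · have h17 : sMX cp R n t U ho vl kp mn be g f (u, m, 0) = sX t ho (u, m, 0) := by
        unfold sMX
        rw [if_neg (show ho ((u, m, 0) : ι × ℕ × ℕ).1 ≠ 0 from by rw [show ho ((u, m, 0) : ι × ℕ × ℕ).1 = z from hhz]; exact hz0), if_neg (show ((u, m, 0) : ι × ℕ × ℕ).2.1 ≠ 0 from hm0),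
          if_neg (show ¬ hubC ho vl kp g f ((u, m, 0) : ι × ℕ × ℕ).1 from hC0), if_pos h1, if_neg h9]
      have h18 : 1 - sX t ho (u, m, 0) = ((t m : ℝ) + 1) / ((t z : ℝ) + 1 + ((t m : ℝ) + 1)) := by
        unfold sX
        show 1 - ((t (ho u) : ℝ) + 1) / ((t (ho u) : ℝ) + 1 + ((t m : ℝ) + 1)) = _
        rw [hhz]
        field_simp
        ring
      rw [h17, h18]
      have h19 := hft h9 (by rw [← h10]; exact hm0)
      rw [← h10] at h19
      have h20 : 0 ≤ ((t m : ℝ) + 1) / ((t z : ℝ) + 1 + ((t m : ℝ) + 1)) := by positivity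
      refine max_le ?_ ?_ <;> linarith
  · -- a cut end
    have hfn := C.fn u huU
    have hfz : f u ≠ z := by rw [← hhz]; exact C.fh u huU
    have hfJ : f u ∈ (range n).erase z := mem_erase.2 ⟨hfz, mem_range.2 hfn⟩
    have hcrm := hkp1 m rfl
    have hcrf : c - mn (f u) u ≤ (crY R t vl kp mn z (f u) (P (f u)) u : ℝ) :=
      hkp (f u) hfJ (by rw [h12]; norm_num)
    have hm0 : m ≠ 0 := by
      have := C.two_mainX H h6 ⟨h1, h9⟩ (by rw [hhz]; exact hz0)
      exact this
    have hs0 : 0 ≤ sX t ho (u, m, 0) ∧ sX t ho (u, m, 0) ≤ 1 := by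
      unfold sX
      show 0 ≤ ((t (ho u) : ℝ) + 1) / ((t (ho u) : ℝ) + 1 + ((t m : ℝ) + 1)) ∧ _
      rw [hhz]
      refine ⟨by positivity, ?_⟩
      show ((t z : ℝ) + 1) / ((t z : ℝ) + 1 + ((t m : ℝ) + 1)) ≤ 1
      rw [div_le_one (by linarith)]
      linarith
    have hr : rX R t ho kp mn be g f (u, m, 0) ≤ 1 := min_le_left _ _
    by_cases hf0 : f u = 0
    · -- the hub is the cut end
      have hC1 : hubC ho vl kp g f u := ⟨⟨h1, h9⟩, by rw [hhz]; exact hz0, hf0⟩
      have hc1 := hC hC1 m hm hm0 hmz (by rw [h2]; norm_num)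
      have hR0 : (0 : ℝ) < R := by
        have := hm2
        have h9 : (0 : ℝ) ≤ t 0 := by exact_mod_cast H.t0 0 hn
        linarith
      have hr0 : 0 ≤ rX R t ho kp mn be g f (u, m, 0) := by
        unfold rX
        refine le_min zero_le_one (div_nonneg ?_ ?_)
        · rw [h7]
          have h22 : (0 : ℝ) ≤ be (ho u) (f u) := by
            exact_mod_cast H.be0 (ho u) (H.hlt u huU) (f u) hfn
          show 0 ≤ (mn m u : ℝ) + be (ho u) (f u)
          linarith
        · have h24 : t m + 1 ≤ R := by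
            have h25 := H.tsum
            have h26 : t m + 1 ≤ ∑ i ∈ range n, (t i + 1) :=
              single_le_sum (f := fun i => t i + 1) (fun i hi => by
                have := H.t0 i (mem_range.1 hi)
                linarith) (mem_range.2 hm)
            linarith
          have h27 : (t m : ℝ) + 1 ≤ R := by exact_mod_cast h24
          show 0 ≤ (R : ℝ) - ((t m : ℝ) + 1)
          linarith
      have hq : 0 ≤ qX R t mn u ∧ qX R t mn u ≤ 1 := by
        have h16 : 0 < R - (t 0 + 1) := by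
          have h17 : ((0 : ℤ) : ℝ) < ((R - (t 0 + 1) : ℤ) : ℝ) := by
            push_cast
            linarith
          exact_mod_cast h17
        have h17 : (0 : ℝ) < (R : ℝ) - ((t 0 : ℝ) + 1) := by exact_mod_cast h16
        have h18 : ((min (mn 0 u) (R - (t 0 + 1)) : ℤ) : ℝ) ≤ (R : ℝ) - ((t 0 : ℝ) + 1) := by
          have : min (mn 0 u) (R - (t 0 + 1)) ≤ R - (t 0 + 1) := min_le_right _ _
          exact_mod_cast this
        have h19 : (0 : ℝ) ≤ ((min (mn 0 u) (R - (t 0 + 1)) : ℤ) : ℝ) := by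
          have : 0 ≤ min (mn 0 u) (R - (t 0 + 1)) := le_min (H.m0 u huU 0 hn) h16.le
          exact_mod_cast this
        unfold qX
        exact ⟨div_nonneg h19 h17.le, div_le_one_of_le₀ h18 h17.le⟩
      have hsz : ((t z : ℝ) + 1) / c ≤ sX t ho (u, m, 0) := by
        unfold sX
        show _ ≤ ((t (ho u) : ℝ) + 1) / ((t (ho u) : ℝ) + 1 + ((t m : ℝ) + 1))
        rw [hhz]
        refine div_le_div_of_nonneg_left hA.le (by linarith) ?_
        have h16 := H.tsum
        have h17 : ∑ i ∈ ({0, z, m} : Finset ℕ), (t i + 1) ≤ ∑ i ∈ range n, (t i + 1) :=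
          sum_le_sum_of_subset_of_nonneg (fun i hi => by
            simp only [mem_insert, mem_singleton] at hi
            rcases hi with rfl | rfl | rfl
            · exact mem_range.2 hn
            · exact mem_range.2 hz
            · exact mem_range.2 hm) fun i hi _ => by
            have := H.t0 i (mem_range.1 hi)
            linarith
        rw [sum_insert (by simp [Ne.symm hz0, Ne.symm hm0]), sum_insert (by simp [Ne.symm hmz]),
          sum_singleton] at h17
        have h18 : 2 * (t z + 1) + (t m + 1) ≤ R := by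
          have := H.t0 m hm
          linarith
        have h19 : 2 * ((t z : ℝ) + 1) + ((t m : ℝ) + 1) ≤ R := by exact_mod_cast h18
        rw [hc]
        linarith
      have hcr0 : (R : ℝ) - t 0 - mn 0 u ≤ (crY R t vl kp mn z 0 (P 0) u : ℝ) - kd 0 := by
        rw [hf0] at hcrf
        rw [hkd0]
        rw [hc] at hcrf
        linarith
      have hw0 : 0 ≤ w 0 / c := div_nonneg (hw 0 h0J) hc0.le
      have h15 := mul_le_mul_of_nonneg_left hcr0 hw0
      have h16 := cred_ge hc0 hw hkd hL (S := {m, 0}) (fun y hy => by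
        rcases mem_insert.1 hy with h17 | h17
        · rw [h17]; exact hmJ
        · rw [mem_singleton.1 h17]; exact h0J)
      rw [sum_pair hm0] at h16
      have hwm : 0 ≤ w m / c := div_nonneg (hw m hmJ) hc0.le
      have h17 : w m / c * max 0 (c - mn m u - kd m)
          ≤ w m / c * ((crY R t vl kp mn z m (P m) u : ℝ) - kd m) :=
        mul_le_mul_of_nonneg_left (max_le (by linarith [hkd m hmJ]) (by linarith)) hwm
      have h17' : 0 ≤ w m / c * max 0 (c - mn m u - kd m) :=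
        mul_nonneg hwm (le_max_left _ _)
      have hX : sHX Z cp R n t U ho vl kp mn be g f (u, m, 0)
          = 1 - qX R t mn u * sX t ho (u, m, 0) * (1 - rS R t ho kp mn be g f (u, m, 0))
            - qX R t mn u * Z z * rS R t ho kp mn be g f (u, m, 0) := by
        unfold sHX
        rw [if_pos (show hubC ho vl kp g f ((u, m, 0) : ι × ℕ × ℕ).1 from hC1)]
        unfold sMX sCX
        rw [if_neg (show ho ((u, m, 0) : ι × ℕ × ℕ).1 ≠ 0 from hC1.2.1),
          if_neg (show ((u, m, 0) : ι × ℕ × ℕ).2.1 ≠ 0 from hm0),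
          if_pos (show hubC ho vl kp g f ((u, m, 0) : ι × ℕ × ℕ).1 from hC1)]
        show _ = 1 - qX R t mn u * sX t ho (u, m, 0) * (1 - rS R t ho kp mn be g f (u, m, 0)) - _
        rw [show Z (ho ((u, m, 0) : ι × ℕ × ℕ).1) = Z z from by
          show Z (ho u) = Z z
          rw [hhz]]
      rw [← hX] at hc1
      have h18 : 0 ≤ sHX Z cp R n t U ho vl kp mn be g f (u, m, 0) := by
        rw [hX]
        exact X_nonneg hq.1 hq.2 (hr0.trans (rX_le_rS _)) (hZ.trans hsz) hs0.2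
      refine max_le ?_ ?_ <;> linarith
    · -- two thin ends
      have hC0 : ¬ hubC ho vl kp g f u := fun h => hf0 h.2.2
      have h15 := hd m hm hm0 hmz (by rw [h2]; norm_num) h9 hf0
      have h16 := cred_ge hc0 hw hkd hL (S := {m, f u}) (fun y hy => by
        rcases mem_insert.1 hy with h17 | h17
        · rw [h17]; exact hmJ
        · rw [mem_singleton.1 h17]; exact hfJ)
      rw [sum_pair h10] at h16
      have hwm : 0 ≤ w m / c := div_nonneg (hw m hmJ) hc0.le
      have hwf : 0 ≤ w (f u) / c := div_nonneg (hw (f u) hfJ) hc0.le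
      have h17 : w m / c * max 0 (c - mn m u - kd m)
          ≤ w m / c * ((crY R t vl kp mn z m (P m) u : ℝ) - kd m) :=
        mul_le_mul_of_nonneg_left (max_le (by linarith [hkd m hmJ]) (by linarith)) hwm
      have h18 : w (f u) / c * max 0 (c - mn (f u) u - kd (f u))
          ≤ w (f u) / c * ((crY R t vl kp mn z (f u) (P (f u)) u : ℝ) - kd (f u)) :=
        mul_le_mul_of_nonneg_left (max_le (by linarith [hkd (f u) hfJ]) (by linarith)) hwf
      have hX : sHX Z cp R n t U ho vl kp mn be g f (u, m, 0)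
          = 1 - sX t ho (u, m, 0) * (1 - rX R t ho kp mn be g f (u, m, 0)) := by
        unfold sHX
        rw [if_neg (show ¬ hubC ho vl kp g f ((u, m, 0) : ι × ℕ × ℕ).1 from hC0), sub_zero]
        unfold sMX
        rw [if_neg (show ho ((u, m, 0) : ι × ℕ × ℕ).1 ≠ 0 from by rw [show ho ((u, m, 0) : ι × ℕ × ℕ).1 = z from hhz]; exact hz0), if_neg (show ((u, m, 0) : ι × ℕ × ℕ).2.1 ≠ 0 from hm0),
          if_neg (show ¬ hubC ho vl kp g f ((u, m, 0) : ι × ℕ × ℕ).1 from hC0), if_pos h1, if_pos h9]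
      have h19 : 0 ≤ 1 - sX t ho (u, m, 0) * (1 - rX R t ho kp mn be g f (u, m, 0)) := by
        have h20 : sX t ho (u, m, 0) * (1 - rX R t ho kp mn be g f (u, m, 0)) ≤ 1 := by
          have h21 : 0 ≤ rX R t ho kp mn be g f (u, m, 0) := by
            unfold rX
            refine le_min zero_le_one (div_nonneg ?_ ?_)
            · rw [h7]
              have h22 : (0 : ℝ) ≤ be (ho u) (f u) := by
                exact_mod_cast H.be0 (ho u) (H.hlt u huU) (f u) hfn
              show 0 ≤ (mn m u : ℝ) + be (ho u) (f u)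
              linarith
            · have h22 := H.mnc u huU m hm
              have h23 := H.m0 u huU m hm
              have h24 : t m + 1 ≤ R := by
                have h25 := H.tsum
                have h26 : t m + 1 ≤ ∑ i ∈ range n, (t i + 1) :=
                  single_le_sum (f := fun i => t i + 1) (fun i hi => by
                    have := H.t0 i (mem_range.1 hi)
                    linarith) (mem_range.2 hm)
                linarith
              have h27 : (t m : ℝ) + 1 ≤ R := by exact_mod_cast h24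
              show 0 ≤ (R : ℝ) - ((t m : ℝ) + 1)
              linarith
          nlinarith [hs0.1, hs0.2, mul_nonneg hs0.1 h21]
        linarith
      rw [hX]
      refine max_le ?_ ?_ <;> linarith

/-- **a served item of value one** pays its share of the table X* from the column of its host, the row test and the loss
`lu` -/
theorem LevC.srvV (C : LevC n U ho vl kp mn pc (phiX R t ho mn) g f)
    (H : PCon R n t s mu U ho vl kp mn pc ar be kq NN sg nu) (hz : z < n) (hz0 : z ≠ 0) {u : ι}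
    (hu : u ∈ U) (hg : g z u ≠ 0) (h1 : vl u = 1) {cp : ι × ℕ × ℕ → ℝ} {c w τ lu : ℝ}
    (hc : c = (R : ℝ) - ((t z : ℝ) + 1)) (hc0 : 0 < c) (hw : 0 ≤ w) (hτ : 0 ≤ τ) (hlu : 0 ≤ lu)
    (hW0 : ho u = 0 → 1 ≤ w + τ * c)
    (hW : ho u ≠ 0 → ((t (ho u) : ℝ) + 1) / ((t (ho u) : ℝ) + 1 + ((t z : ℝ) + 1)) ≤ w + τ * c)
    (hcp : ho u = 0 → cutE kp g f u → cp (u, z, 0) < ((mn z u : ℝ) + be 0 (f u)) / c →
      (w + τ * c) * mn z u + w * be 0 (f u) ≤ c * (w + τ * c - 1 + cp (u, z, 0) + lu))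
    (hus : usX R t ho kp mn be g f z u) :
    yIt g (fun v => max 0 (sMX cp R n t U ho vl kp mn be g f v)) z u
      ≤ w * (g z u : ℝ) - w / c * ((msP kp mn z (g z) u : ℝ) + (rnB n kp be z (ho u) u : ℝ))
        + τ * (c * (g z u : ℝ) - (msP kp mn z (g z) u : ℝ)) + lu := by
  obtain ⟨m, hm, h2, h3, h4, h5, h6, h7, h8⟩ := C.one_unit H hu h1
  have hmz : m = z := by
    by_contra hcon
    exact hg (h5 z hz (Ne.symm hcon))
  subst hmz
  have hy : yIt g (fun v => max 0 (sMX cp R n t U ho vl kp mn be g f v)) m u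
      = max 0 (sMX cp R n t U ho vl kp mn be g f (u, m, 0)) := by
    unfold yIt
    rw [h2, sum_range_one]
  have hms : msP kp mn m (g m) u = mn m u := by
    unfold msP
    refine if_pos ?_
    rw [h2, h3]
    norm_num
  have hb0 : (0 : ℝ) ≤ mn m u := by exact_mod_cast H.m0 u hu m hm
  rw [hy, hms, h2]
  push_cast
  rw [mul_one, mul_one]
  have hx := H.hlt u hu
  have hsx : ∀ {x : ℕ}, x < n → (0 : ℝ) < (t x : ℝ) + 1 := fun {x} hx => by
    have := H.t0 x hx
    have h9 : (0 : ℝ) ≤ t x := by exact_mod_cast this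
    linarith
  have hs0 : 0 ≤ sX t ho (u, m, 0) := by
    unfold sX
    exact div_nonneg (hsx hx).le (by linarith [hsx hx, hsx hm])
  rcases h8 with ⟨h9, h10, h11, h12⟩ | ⟨h9, h10, h11, h12, h13, h14⟩
  · -- full
    have hB : rnB n kp be m (ho u) u = 0 := by
      unfold rnB
      refine if_neg ?_
      rintro ⟨l, hl, hlm, hl0⟩
      exact hl0 (h12 l hl hlm)
    have hC : ¬ hubC ho vl kp g f u := fun h => h9 h.1.2
    rw [hB, h11]
    push_cast
    rw [add_zero, mul_zero, sub_zero, sub_zero]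
    refine max_le (by positivity) (le_add_of_le_of_nonneg ?_ hlu)
    unfold sMX
    by_cases h15 : ho u = 0
    · rw [if_pos h15, if_neg h9]
      have := hW0 h15
      linarith
    · rw [if_neg h15, if_neg (show ((u, m, 0) : ι × ℕ × ℕ).2.1 ≠ 0 from hz0), if_neg hC, if_pos h1,
        if_neg h9]
      unfold sX
      have := hW h15
      linarith
  · -- a cut end
    have hfn := C.fn u hu
    have hfh := C.fh u hu
    have hB : rnB n kp be m (ho u) u = be (ho u) (f u) := by
      unfold rnB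
      rw [if_pos ⟨f u, hfn, Ne.symm h10, by rw [h12]; norm_num⟩]
      have h15 : (((range n).erase (ho u)).erase m).filter (fun l => kp l u ≠ 0) = {f u} := by
        ext l
        simp only [mem_filter, mem_erase, mem_range, mem_singleton]
        constructor
        · rintro ⟨⟨h16, h17, h18⟩, h19⟩
          by_contra h20
          exact h19 (h14 l h18 h16 h20)
        · rintro rfl
          exact ⟨⟨Ne.symm h10, hfh, hfn⟩, by rw [h12]; norm_num⟩
      rw [h15, sum_singleton]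
    rw [hB]
    have hbe : (0 : ℝ) ≤ be (ho u) (f u) := by
      exact_mod_cast H.be0 (ho u) (H.hlt u hu) (f u) hfn
    have husr : (mn m u : ℝ) + be (ho u) (f u) ≤ c := by
      have h15 := hus h9
      rw [hc]
      exact_mod_cast h15
    -- the right side
    have e1 : w - w / c * ((mn m u : ℝ) + be (ho u) (f u)) + τ * (c - mn m u)
        = (w + τ * c) * (1 - mn m u / c) - w * (be (ho u) (f u) / c) := by
      field_simp
      ring
    rw [e1]
    set b : ℝ := mn m u / c with hb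
    set e : ℝ := be (ho u) (f u) / c with he
    have hb1 : 0 ≤ b := div_nonneg hb0 hc0.le
    have he1 : 0 ≤ e := div_nonneg hbe hc0.le
    have hbe1 : b + e ≤ 1 := by
      rw [hb, he, ← add_div, div_le_one hc0]
      exact husr
    have hrx : rX R t ho kp mn be g f (u, m, 0) = b + e := by
      unfold rX
      rw [h7]
      have e2 : ((mn m u : ℝ) + be (ho ((u, m, 0) : ι × ℕ × ℕ).1) (f ((u, m, 0) : ι × ℕ × ℕ).1))
          / ((R : ℝ) - ((t ((u, m, 0) : ι × ℕ × ℕ).2.1 : ℝ) + 1)) = b + e := by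
        show ((mn m u : ℝ) + be (ho u) (f u)) / ((R : ℝ) - ((t m : ℝ) + 1)) = b + e
        rw [← hc, add_div]
      rw [e2]
      exact min_eq_right hbe1
    have hws : 0 ≤ (w + τ * c) * (1 - b) - w * e := by
      have h15 : w * e ≤ (w + τ * c) * e :=
        mul_le_mul_of_nonneg_right (by have := mul_nonneg hτ hc0.le; linarith) he1
      have h16 : (w + τ * c) * e ≤ (w + τ * c) * (1 - b) :=
        mul_le_mul_of_nonneg_left (by linarith) (by have := mul_nonneg hτ hc0.le; linarith)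
      linarith
    -- a share `S (1 - (b + e))` with `0 ≤ S ≤ w + τ c`
    have key : ∀ S : ℝ, 0 ≤ S → S ≤ w + τ * c → S * (1 - (b + e)) ≤ (w + τ * c) * (1 - b) - w * e := by
      intro S hS0 hS
      have h15 : S * (1 - (b + e)) ≤ (w + τ * c) * (1 - (b + e)) :=
        mul_le_mul_of_nonneg_right hS (by linarith)
      have h16 : 0 ≤ τ * c * e := mul_nonneg (mul_nonneg hτ hc0.le) he1
      have e3 : (w + τ * c) * (1 - (b + e)) = (w + τ * c) * (1 - b) - w * e - τ * c * e := by ring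
      linarith
    refine max_le (add_nonneg hws hlu) ?_
    unfold sMX
    by_cases h15 : ho u = 0
    · rw [if_pos h15, if_pos h9]
      rcases le_or_gt (b + e) (cp (u, m, 0)) with h16 | h16
      · have := key 1 zero_le_one (hW0 h15)
        linarith
      · have h17 := hcp h15 h9 (by
          have e4 : ((mn m u : ℝ) + be 0 (f u)) / c = b + e := by
            rw [hb, he, h15, add_div]
          rw [e4]
          exact h16)
        rw [h15] at he
        have h18 : (w + τ * c) * b + w * e ≤ w + τ * c - 1 + cp (u, m, 0) + lu := by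
          have e5 : ((w + τ * c) * mn m u + w * be 0 (f u)) / c = (w + τ * c) * b + w * e := by
            rw [hb, he]
            ring
          rw [← e5, div_le_iff₀ hc0]
          linarith
        linarith
    · rw [if_neg h15, if_neg (show ((u, m, 0) : ι × ℕ × ℕ).2.1 ≠ 0 from hz0)]
      have hS : sX t ho (u, m, 0) ≤ w + τ * c := hW h15
      have hq : qX R t mn u ≤ 1 ∧ 0 ≤ qX R t mn u := by
        have hn : 0 < n := by have := H.n5; omega
        have h16 : 0 ≤ R - (t 0 + 1) := by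
          have h17 := H.tsum
          have h18 : ∑ i ∈ ({0, m} : Finset ℕ), (t i + 1) ≤ ∑ i ∈ range n, (t i + 1) :=
            sum_le_sum_of_subset_of_nonneg (fun i hi => by
              rcases mem_insert.1 hi with h4 | h4
              · rw [h4]
                exact mem_range.2 hn
              · rw [mem_singleton.1 h4]
                exact mem_range.2 hm) fun i hi _ => by
              have := H.t0 i (mem_range.1 hi)
              linarith
          rw [sum_pair (Ne.symm hz0)] at h18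
          have := H.t0 m hm
          linarith
        have h17 : (0 : ℝ) ≤ (R : ℝ) - ((t 0 : ℝ) + 1) := by exact_mod_cast h16
        have h18 : ((min (mn 0 u) (R - (t 0 + 1)) : ℤ) : ℝ) ≤ (R : ℝ) - ((t 0 : ℝ) + 1) := by
          have : min (mn 0 u) (R - (t 0 + 1)) ≤ R - (t 0 + 1) := min_le_right _ _
          exact_mod_cast this
        have h19 : (0 : ℝ) ≤ ((min (mn 0 u) (R - (t 0 + 1)) : ℤ) : ℝ) := by
          have : 0 ≤ min (mn 0 u) (R - (t 0 + 1)) := le_min (H.m0 u hu 0 hn) h16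
          exact_mod_cast this
        unfold qX
        exact ⟨div_le_one_of_le₀ h18 h17, div_nonneg h19 h17⟩
      split_ifs with h16
      · have h20 : qX R t mn u * sX t ho (u, m, 0) ≤ w + τ * c :=
          (mul_le_of_le_one_left hs0 hq.1).trans hS
        have := key _ (mul_nonneg hq.2 hs0) h20
        have h21 := rX_le_rS (R := R) (t := t) (ho := ho) (kp := kp) (mn := mn) (be := be) (g := g)
          (f := f) (u, m, 0)
        rw [hrx] at h21
        exact le_add_of_le_of_nonneg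
          ((mul_le_mul_of_nonneg_left (by linarith) (mul_nonneg hq.2 hs0)).trans this) hlu
      · rw [hrx]
        exact le_add_of_le_of_nonneg (key _ hs0 hS) hlu

/-- **THE ROW CLAIM OF THE TABLE X* FROM WEIGHTS WITH LOSSES**: `w y / c` on the columns, `τ` on a row test which keeps
the PC pairs hosted by `z` `κ` times, used items `K`; `r`, `rT` the remainders; losses `lp y` per PC pair hosted by `z`
with tail `y`, `lh u` per hosted plain item, `ls u` per served item -/
theorem LevC.rowX_loss (C : LevC n U ho vl kp mn pc (phiX R t ho mn) g f)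
    (H : PCon R n t s mu U ho vl kp mn pc ar be kq NN sg nu) (hR : R ≤ 2 * (t 0 + 1))
    (hR6 : 6 ≤ R) (hz : z < n) (hz0 : z ≠ 0) {cp : ι × ℕ × ℕ → ℝ} {Z : ℕ → ℝ} {c τ κ L : ℝ}
    {w kd : ℕ → ℝ}
    (hc : c = (R : ℝ) - ((t z : ℝ) + 1))
    (hw : ∀ y ∈ (range n).erase z, 0 ≤ w y) (hτ : 0 ≤ τ) (hZ : Z z ≤ ((t z : ℝ) + 1) / c)
    {lp : ℕ → ℝ} {lh ls : ι → ℝ} (hls : ∀ u, 0 ≤ ls u)
    {P : ℕ → Finset ι} {K : Finset ι} (hK : K ⊆ U.filter fun u => g z u ≠ 0) {r : ℕ → ℝ}
    (hcol : ∀ y ∈ (range n).erase z,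
      2 * (c * ((be z y : ℝ) + ∑ u ∈ K.filter (fun u => ho u = y), (g z u : ℝ)))
        + 2 * ∑ u ∈ hsZ U ho pc z, (crY R t vl kp mn z y (P y) u : ℝ) + r y
      ≤ 2 * ((t y : ℝ) * ((mu z : ℝ) - s z)) + 2 * ((R : ℝ) - t y)
        + 2 * ∑ u ∈ K.filter (fun u => ho u = y),
          ((msP kp mn z (g z) u : ℝ) + (rnB n kp be z y u : ℝ)))
    {rT : ℝ}
    (hT : 2 * (c * (∑ u ∈ hsZ U ho pc z, (vl u : ℝ) + κ * ∑ y ∈ (range n).erase z, (be z y : ℝ)
        + ∑ u ∈ K, (g z u : ℝ))) + rT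
      ≤ 2 * ((R : ℝ) * ((mu z : ℝ) - s z)) + 2 * ∑ u ∈ K, (msP kp mn z (g z) u : ℝ))
    (hkd : ∀ y ∈ (range n).erase z, ∀ u ∈ hsZ U ho pc z, vl u = 1 →
      kd y ≤ (crY R t vl kp mn z y (P y) u : ℝ))
    (hkp : ∀ y ∈ (range n).erase z, ∀ u ∈ hsZ U ho pc z, vl u = 1 → kp y u ≠ 0 →
      c - mn y u ≤ (crY R t vl kp mn z y (P y) u : ℝ))
    (hkd0 : kd 0 = (t 0 : ℝ) - ((t z : ℝ) + 1))
    (hL : L = τ * c + ∑ y ∈ (range n).erase z, w y / c * kd y)
    -- the weights
    (W1 : 1 ≤ w 0 + κ * (τ * c) + lp 0) (W1' : 1 ≤ w 0 + τ * c)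
    (W2 : ∀ y < n, y ≠ z → y ≠ 0 →
      ((t y : ℝ) + 1) / ((t z : ℝ) + 1 + ((t y : ℝ) + 1)) ≤ w y + κ * (τ * c) + lp y)
    (W2' : ∀ y < n, y ≠ z → y ≠ 0 →
      ((t y : ℝ) + 1) / ((t z : ℝ) + 1 + ((t y : ℝ) + 1)) ≤ w y + τ * c)
    -- the full hosted units
    (hfh : ∀ u ∈ hsZ U ho pc z, vl u = 1 → ¬ cutE kp g f u → f u = 0 →
      1 ≤ L + w 0 / c * ((R : ℝ) - t 0) + lh u)
    (hft : ∀ u ∈ hsZ U ho pc z, vl u = 1 → ¬ cutE kp g f u → f u ≠ 0 →
      ((t (f u) : ℝ) + 1) / ((t z : ℝ) + 1 + ((t (f u) : ℝ) + 1))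
        ≤ L + w (f u) / c * (c - kd (f u)) + lh u)
    -- the hub-ended half units
    (hC : ∀ u ∈ hsZ U ho pc z, vl u = 1 → hubC ho vl kp g f u → ∀ m < n, m ≠ 0 → m ≠ z → g m u ≠ 0 →
      1 - qX R t mn u * sX t ho (u, m, 0) * (1 - rS R t ho kp mn be g f (u, m, 0))
          - qX R t mn u * Z z * rS R t ho kp mn be g f (u, m, 0)
        ≤ L + w 0 / c * ((R : ℝ) - t 0 - mn 0 u) + w m / c * max 0 (c - mn m u - kd m) + lh u)
    -- the half units with two thin ends
    (hd : ∀ u ∈ hsZ U ho pc z, vl u = 1 → ∀ m < n, m ≠ 0 → m ≠ z → g m u ≠ 0 → cutE kp g f u →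
      f u ≠ 0 →
      1 - sX t ho (u, m, 0) * (1 - rX R t ho kp mn be g f (u, m, 0))
        ≤ L + w m / c * max 0 (c - mn m u - kd m) + w (f u) / c * max 0 (c - mn (f u) u - kd (f u))
          + lh u)
    -- the cap
    (hcp : ∀ u ∈ K, g z u ≠ 0 → vl u = 1 → ho u = 0 → cutE kp g f u →
      cp (u, z, 0) < ((mn z u : ℝ) + be 0 (f u)) / c →
      (w 0 + τ * c) * mn z u + w 0 * be 0 (f u) ≤ c * (w 0 + τ * c - 1 + cp (u, z, 0) + ls u))
    -- the used items
    (hus : ∀ u ∈ K, vl u = 1 → usX R t ho kp mn be g f z u)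
    (hnu : ∀ u ∈ U, g z u ≠ 0 → vl u = 1 → u ∉ K → usX R t ho kp mn be g f z u →
      yIt g (fun v => max 0 (sMX cp R n t U ho vl kp mn be g f v)) z u ≤ ls u)
    -- the cliques
    (hBc : ∀ u ∈ hsZ U ho pc z, vl u ≠ 1 →
      xIt n g (fun v => max 0 (sHX Z cp R n t U ho vl kp mn be g f v)) u
        ≤ ∑ y ∈ (range n).erase z, w y / c * (crY R t vl kp mn z y (P y) u : ℝ)
          + τ * (c * (vl u : ℝ)) + lh u)
    (hSc : ∀ u ∈ U, g z u ≠ 0 → vl u ≠ 1 →
      yIt g (fun v => max 0 (sMX cp R n t U ho vl kp mn be g f v)) z u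
        ≤ (if u ∈ K then w (ho u) * (g z u : ℝ)
          - w (ho u) / c * ((msP kp mn z (g z) u : ℝ) + (rnB n kp be z (ho u) u : ℝ))
          + τ * (c * (g z u : ℝ) - (msP kp mn z (g z) u : ℝ)) else 0) + ls u)
    {F : Finset (ι × ℕ × ℕ)} (hF : F ⊆ unV n U g) :
    ∑ v ∈ F.filter (fun v => ho v.1 = z), sHX Z cp R n t U ho vl kp mn be g f v
        + ∑ v ∈ F.filter (fun v => v.2.1 = z), sMX cp R n t U ho vl kp mn be g f v
        + (1 / 2) * (∑ y ∈ (range n).erase z, w y / c * r y + τ * rT)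
      ≤ (∑ y ∈ (range n).erase z, w y / c * (t y : ℝ) + τ * R) * ((mu z : ℝ) - s z)
        + ∑ y ∈ (range n).erase z, w y / c * ((R : ℝ) - t y)
        + (∑ y ∈ (range n).erase z, lp y * (be z y : ℝ) + ∑ u ∈ hsZ U ho pc z, lh u
          + ∑ u ∈ U.filter (fun u => g z u ≠ 0), ls u) := by
  have hn : 0 < n := by have := H.n5; omega
  have hm2 : t 0 + 1 + (t z + 1) ≤ R := by
    have h10 := H.tsum
    have h11 : ∑ i ∈ ({0, z} : Finset ℕ), (t i + 1) ≤ ∑ i ∈ range n, (t i + 1) :=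
      sum_le_sum_of_subset_of_nonneg (fun i hi => by
        rcases mem_insert.1 hi with h4 | h4
        · rw [h4]
          exact mem_range.2 hn
        · rw [mem_singleton.1 h4]
          exact mem_range.2 hz) fun i hi _ => by
        have := H.t0 i (mem_range.1 hi)
        linarith
    rw [sum_pair (Ne.symm hz0)] at h11
    linarith
  have ht0 := H.t0 0 hn
  have htz := H.t0 z hz
  have hc0 : 0 < c := by
    rw [hc]
    have h1 : (t 0 : ℝ) + 1 + ((t z : ℝ) + 1) ≤ R := by exact_mod_cast hm2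
    have h2 : (0 : ℝ) ≤ t 0 := by exact_mod_cast ht0
    linarith
  have h0J : 0 ∈ (range n).erase z := mem_erase.2 ⟨Ne.symm hz0, mem_range.2 hn⟩
  have hhJ : ∀ u ∈ U, g z u ≠ 0 → ho u ∈ (range n).erase z := fun u hu hg =>
    mem_erase.2 ⟨fun h => hg (by rw [← h]; exact C.home u hu), mem_range.2 (H.hlt u hu)⟩
  have key := C.csShareL H hz (J := (range n).erase z) (Subset.refl _) (P := P) (w := w) hw
    (fun y hy hy' => absurd hy hy') hc0 hτ (κ := κ)
    (α := fun y u => (rnB n kp be z y u : ℝ))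
    (V := fun y => K.filter fun u => ho u = y) (fun y _ u hu => by
      obtain ⟨h1, h2⟩ := mem_filter.1 hu
      obtain ⟨h3, h4⟩ := mem_filter.1 (hK h1)
      exact mem_filter.2 ⟨h3, h2, h4⟩) (r := r) hcol (KT := K) hK (lv := g z) (rT := rT) hT
    (X := fun v => max 0 (sHX Z cp R n t U ho vl kp mn be g f v))
    (Y := fun v => max 0 (sMX cp R n t U ho vl kp mn be g f v))
    (fun v _ => le_max_left _ _) (fun v _ => le_max_left _ _) hF (lp := lp) (lh := lh) (ls := ls) ?_ ?_ ?_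
  · refine le_trans (add_le_add (add_le_add ?_ ?_) le_rfl) key
    · exact sum_le_sum fun v _ => le_max_right _ _
    · exact sum_le_sum fun v _ => le_max_right _ _
  · -- PC pairs hosted by `z`
    intro v hv hvz hpc
    obtain ⟨h1, h2, h3⟩ := LevC.mem_unV hv
    have h4 := H.pcv v.1 h1 hpc
    have h5 : ¬ cutE kp g f v.1 := by
      rcases C.typ v.1 h1 with ⟨-, h6, h7, -, -⟩ | ⟨h6, -⟩
      · unfold cutE
        rw [h6, h7]
        norm_num
      · exact absurd h6 hpc
    have hC : ¬ hubC ho vl kp g f v.1 := fun h => h5 h.1.2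
    have hwv : 0 ≤ w v.2.1 := by
      refine hw _ (mem_erase.2 ⟨fun h => ?_, mem_range.2 h2⟩)
      exact C.main_ne hv (h.trans hvz.symm)
    show max 0 (sHX Z cp R n t U ho vl kp mn be g f v) ≤ w v.2.1 + κ * (τ * c) + lp v.2.1
    unfold sHX
    rw [if_neg hC, sub_zero]
    by_cases h0 : v.2.1 = 0
    · have h6 : sMX cp R n t U ho vl kp mn be g f v = 0 := by
        unfold sMX
        rw [if_neg (by rw [hvz]; exact hz0), if_pos h0]
      rw [h6, sub_zero, h0]
      exact max_le (by linarith) W1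
    · have h6 : sMX cp R n t U ho vl kp mn be g f v = sX t ho v := by
        unfold sMX
        rw [if_neg (by rw [hvz]; exact hz0), if_neg h0, if_neg hC, if_pos h4, if_neg h5]
      have hA : (0 : ℝ) < (t z : ℝ) + 1 := by
        have h9 : (0 : ℝ) ≤ t z := by exact_mod_cast htz
        linarith
      have hAm : (0 : ℝ) < (t v.2.1 : ℝ) + 1 := by
        have h9 : (0 : ℝ) ≤ t v.2.1 := by exact_mod_cast H.t0 _ h2
        linarith
      have h7 : 1 - sX t ho v = ((t v.2.1 : ℝ) + 1) / ((t z : ℝ) + 1 + ((t v.2.1 : ℝ) + 1)) := by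
        unfold sX
        rw [hvz]
        field_simp
        ring
      rw [h6, h7]
      have h8 := W2 v.2.1 h2 (fun h => C.main_ne hv (h.trans hvz.symm)) h0
      have h9 : 0 ≤ ((t v.2.1 : ℝ) + 1) / ((t z : ℝ) + 1 + ((t v.2.1 : ℝ) + 1)) := by positivity
      exact max_le (by linarith) h8
  · -- hosted items
    intro u hu
    by_cases h1 : vl u = 1
    · obtain ⟨huU, hhz, -⟩ := mem_filter.1 hu
      exact C.hstV H hR hz hz0 hu h1 hc hc0 hw hZ (fun y hy => hkd y hy u hu h1)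
        (fun y hy => hkp y hy u hu h1) hkd0 hL (hfh u hu h1) (hft u hu h1) (hC u hu h1)
        (hd u hu h1)
    · exact hBc u hu h1
  · -- served items
    intro u hu hg
    have hJ := hhJ u hu hg
    by_cases h1 : vl u = 1
    · by_cases h3 : u ∈ K
      · have h2 := hus u h3 h1
        rw [if_pos ⟨hJ, mem_filter.2 ⟨h3, rfl⟩⟩, if_pos h3]
        refine C.srvV H hz hz0 hu hg h1 hc hc0 (hw _ hJ) hτ (hls u) ?_ ?_ ?_ h2
        · intro h4
          rw [h4]
          exact W1'
        · intro h4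
          have h5 := W2' (ho u) (H.hlt u hu) (ne_of_mem_erase hJ) h4
          have h6 := hw _ hJ
          have hA : (0 : ℝ) < (t z : ℝ) + 1 := by
            have h9 : (0 : ℝ) ≤ t z := by exact_mod_cast htz
            linarith
          rw [add_comm ((t (ho u) : ℝ) + 1) ((t z : ℝ) + 1)]
          exact h5
        · intro h4 h5 h6
          have h7 := hcp u h3 hg h1 h4 h5 h6
          rw [h4]
          exact h7
      · rw [if_neg (fun h => h3 (mem_filter.1 h.2).1), if_neg h3, mul_zero, add_zero, zero_add]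
        by_cases h2 : usX R t ho kp mn be g f z u
        · exact hnu u hu hg h1 h3 h2
        · have h4 : ho u ≠ 0 := fun h => h2 (C.hub_us H hR hR6 hz hz0 hu hg h1 h)
          exact (C.srvX0 H hz hz0 hu hg h1 h4 (by linarith) h2).le.trans (hls u)
    · have h2 := hSc u hu hg h1
      by_cases h3 : u ∈ K
      · rw [if_pos h3] at h2
        rw [if_pos ⟨hJ, mem_filter.2 ⟨h3, rfl⟩⟩, if_pos h3]
        exact h2
      · rw [if_neg h3] at h2
        rw [if_neg (fun h => h3 (mem_filter.1 h.2).1), if_neg h3, mul_zero, add_zero]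
        exact h2

/-- the weights of the family -/
noncomputable def wF (t : ℕ → ℤ) (z : ℕ) (η c : ℝ) (y : ℕ) : ℝ :=
  if y = 0 then 1 - η * c
  else max 0 (((t y : ℝ) + 1) / ((t z : ℝ) + 1 + ((t y : ℝ) + 1)) - η * c)

/-- the base credit of a hosted item of value one: everything kept in the columns `Q`, only the own ends elsewhere -/
noncomputable def kdF (t : ℕ → ℤ) (z : ℕ) (Q : Finset ℕ) (y : ℕ) : ℝ :=
  if y ∈ Q then (t y : ℝ) - ((t z : ℝ) + 1) else - t y

/-- the kept items of value one: all in the columns `Q`, elsewhere the ones with a useful end -/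
def KeepF (R : ℤ) (n : ℕ) (t : ℕ → ℤ) (U : Finset ι) (ho : ι → ℕ) (vl : ι → ℤ) (kp mn : ℕ → ι → ℤ)
    (pc : ι → ℤ) (z : ℕ) (Q : Finset ℕ) (P : ℕ → Finset ι) : Prop :=
  ∀ y ∈ (range n).erase z, P y ⊆ hsZ U ho pc z ∧ ∀ u ∈ hsZ U ho pc z, vl u = 1 →
    (u ∈ P y ↔ y ∈ Q ∨ (kp y u ≠ 0 ∧ mn y u ≤ R - (t z + 1) + t y))

lemma LevC.kd_F (H : PCon R n t s mu U ho vl kp mn pc ar be kq NN sg nu)
    {Q : Finset ℕ} {P : ℕ → Finset ι} (hP : KeepF R n t U ho vl kp mn pc z Q P)
    (hy : y ∈ (range n).erase z) {u : ι} (hu : u ∈ hsZ U ho pc z) (h1 : vl u = 1) :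
    kdF t z Q y ≤ (crY R t vl kp mn z y (P y) u : ℝ) ∧
      (kp y u ≠ 0 → (R : ℝ) - ((t z : ℝ) + 1) - mn y u ≤ (crY R t vl kp mn z y (P y) u : ℝ)) := by
  have hyn := mem_range.1 (mem_of_mem_erase hy)
  have huU := (mem_filter.1 hu).1
  have hP1 := (hP y hy).2 u hu h1
  have hm := H.mnc u huU y hyn
  by_cases h2 : u ∈ P y
  · have h3 : crY R t vl kp mn z y (P y) u = kp y u * (R - t y) - mn y u + (t y - (t z + 1)) := by
      unfold crY
      rw [if_pos h2, h1, mul_one]
    by_cases h4 : kp y u = 0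
    · have h5 : y ∈ Q := by
        rcases hP1.1 h2 with h | h
        · exact h
        · exact absurd h4 h.1
      have h6 := H.mnz u huU y hyn h4
      refine ⟨?_, fun h => absurd h4 h⟩
      unfold kdF
      rw [if_pos h5, h3, h4, h6]
      push_cast
      linarith
    · have h5 := H.kp_one huU h1 hyn h4
      rw [h3, h5]
      have h6 : (mn y u : ℝ) ≤ (R : ℝ) - t y := by exact_mod_cast hm
      refine ⟨?_, fun _ => by push_cast; linarith⟩
      unfold kdF
      split_ifs with h7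
      · push_cast
        linarith
      · rcases hP1.1 h2 with h | h
        · exact absurd h h7
        · have h8 : (mn y u : ℝ) ≤ (R : ℝ) - ((t z : ℝ) + 1) + t y := by exact_mod_cast h.2
          push_cast
          linarith
  · have h3 : crY R t vl kp mn z y (P y) u = - t y := by
      unfold crY
      rw [if_neg h2]
    have h4 : y ∉ Q := fun h => h2 (hP1.2 (Or.inl h))
    rw [h3]
    constructor
    · unfold kdF
      rw [if_neg h4]
      push_cast
      exact le_rfl
    · intro h5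
      have h6 : R - (t z + 1) + t y < mn y u := by
        by_contra hcon
        exact h2 (hP1.2 (Or.inr ⟨h5, not_lt.1 hcon⟩))
      have h7 : (R : ℝ) - ((t z : ℝ) + 1) + t y < mn y u := by exact_mod_cast h6
      push_cast
      linarith

/-- **THE TWO-PARAMETER FAMILY**: hub column `(1 - η c) / c`, third columns `max 0 (s_l - η c) / c`, `η` on a row test
with all PC pairs kept, `ν` on a row test without the PC pairs hosted by `z`. `(η c, ν) = (s, 0)`: the N-mix, `η = 0`:
CS. -/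
theorem LevC.rowX_fam (C : LevC n U ho vl kp mn pc (phiX R t ho mn) g f)
    (H : PConC R n t s mu U ho vl kp mn pc ar be kq NN sg nu) (hR : R ≤ 2 * (t 0 + 1))
    (hR6 : 6 ≤ R) (hz : z < n) (hz0 : z ≠ 0) {cp : ι × ℕ × ℕ → ℝ} {Z : ℕ → ℝ} {c η ν L : ℝ}
    (hc : c = (R : ℝ) - ((t z : ℝ) + 1)) (hη : 0 ≤ η) (hη1 : η * c ≤ 1) (hν : 0 ≤ ν)
    (hZ : Z z ≤ ((t z : ℝ) + 1) / c)
    {lp : ℕ → ℝ} {lh ls : ι → ℝ} (hlp : ∀ y, 0 ≤ lp y) (hlh : ∀ u, 0 ≤ lh u) (hls : ∀ u, 0 ≤ ls u)
    {Q : Finset ℕ} (hQ0 : 0 ∈ Q) {P : ℕ → Finset ι} (hP : KeepF R n t U ho vl kp mn pc z Q P)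
    {Y : ℕ → Finset ℕ} (hY : ∀ y ∈ (range n).erase z, Y y ⊆ ((range n).erase z).erase y)
    {K : Finset ι} (hK : K ⊆ U.filter fun u => g z u ≠ 0) {r0 r1 : ℝ}
    (hT0 : 2 * (c * (∑ u ∈ hsZ U ho pc z, (vl u : ℝ) + ∑ u ∈ K, (g z u : ℝ))) + r0
      ≤ 2 * ((R : ℝ) * ((mu z : ℝ) - s z)) + 2 * ∑ u ∈ K, (msP kp mn z (g z) u : ℝ))
    (hT1 : 2 * (c * (∑ u ∈ hsZ U ho pc z, (vl u : ℝ) + 1 * ∑ y ∈ (range n).erase z, (be z y : ℝ)
        + ∑ u ∈ K, (g z u : ℝ))) + r1
      ≤ 2 * ((R : ℝ) * ((mu z : ℝ) - s z)) + 2 * ∑ u ∈ K, (msP kp mn z (g z) u : ℝ))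
    (hL : L = (η + ν) * c + ∑ y ∈ (range n).erase z, wF t z η c y / c * kdF t z Q y)
    -- the dropped and kept hosted units in the third columns against `ν`
    (hkn : ∀ x ∈ (range n).erase z, (∃ u ∈ hsZ U ho pc z, vl u = 1 ∧ ¬ cutE kp g f u ∧ f u = x) →
      0 ≤ ν * c + ∑ y ∈ (((range n).erase z).erase 0).erase x, wF t z η c y / c * kdF t z Q y)
    -- the hub-ended half units
    (hC : ∀ u ∈ hsZ U ho pc z, vl u = 1 → hubC ho vl kp g f u → ∀ m < n, m ≠ 0 → m ≠ z → g m u ≠ 0 →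
      1 - qX R t mn u * sX t ho (u, m, 0) * (1 - rS R t ho kp mn be g f (u, m, 0))
          - qX R t mn u * Z z * rS R t ho kp mn be g f (u, m, 0)
        ≤ L + (1 - η * c) / c * ((R : ℝ) - t 0 - mn 0 u)
          + wF t z η c m / c * max 0 (c - mn m u - kdF t z Q m) + lh u)
    -- the half units with two thin ends
    (hd : ∀ u ∈ hsZ U ho pc z, vl u = 1 → ∀ m < n, m ≠ 0 → m ≠ z → g m u ≠ 0 → cutE kp g f u →
      f u ≠ 0 →
      1 - sX t ho (u, m, 0) * (1 - rX R t ho kp mn be g f (u, m, 0))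
        ≤ L + wF t z η c m / c * max 0 (c - mn m u - kdF t z Q m)
          + wF t z η c (f u) / c * max 0 (c - mn (f u) u - kdF t z Q (f u)) + lh u)
    -- the cap
    (hcp : ∀ u ∈ K, g z u ≠ 0 → vl u = 1 → ho u = 0 → cutE kp g f u →
      cp (u, z, 0) < ((mn z u : ℝ) + be 0 (f u)) / c →
      (1 + ν * c) * mn z u + (1 - η * c) * be 0 (f u) ≤ c * (ν * c + cp (u, z, 0) + ls u))
    -- the used items
    (hus : ∀ u ∈ K, vl u = 1 → usX R t ho kp mn be g f z u)
    (hnu : ∀ u ∈ U, g z u ≠ 0 → vl u = 1 → u ∉ K → usX R t ho kp mn be g f z u →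
      yIt g (fun v => max 0 (sMX cp R n t U ho vl kp mn be g f v)) z u ≤ ls u)
    -- the cliques
    (hBc : ∀ u ∈ hsZ U ho pc z, vl u ≠ 1 →
      xIt n g (fun v => max 0 (sHX Z cp R n t U ho vl kp mn be g f v)) u
        ≤ ∑ y ∈ (range n).erase z, wF t z η c y / c * (crY R t vl kp mn z y (P y) u : ℝ)
          + (η + ν) * (c * (vl u : ℝ)) + lh u)
    (hSc : ∀ u ∈ U, g z u ≠ 0 → vl u ≠ 1 →
      yIt g (fun v => max 0 (sMX cp R n t U ho vl kp mn be g f v)) z u
        ≤ (if u ∈ K then wF t z η c (ho u) * (g z u : ℝ)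
          - wF t z η c (ho u) / c * ((msP kp mn z (g z) u : ℝ) + (rnB n kp be z (ho u) u : ℝ))
          + (η + ν) * (c * (g z u : ℝ) - (msP kp mn z (g z) u : ℝ)) else 0) + ls u)
    {F : Finset (ι × ℕ × ℕ)} (hF : F ⊆ unV n U g) :
    ∑ v ∈ F.filter (fun v => ho v.1 = z), sHX Z cp R n t U ho vl kp mn be g f v
        + ∑ v ∈ F.filter (fun v => v.2.1 = z), sMX cp R n t U ho vl kp mn be g f v
        + (1 / 2) * (∑ y ∈ (range n).erase z, wF t z η c y / c
            * ((csRJ n t U ho vl kp pc be kq sg g z y (mu z - s z) (P y) (Y y)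
                (K.filter fun u => ho u = y)
              - 2 * (be y z * (((K.filter fun u => ho u = y).filter
                fun u => othE n kp z u).card : ℤ)) : ℤ) : ℝ)
          + (ν * r0 + η * r1))
      ≤ (∑ y ∈ (range n).erase z, wF t z η c y / c * (t y : ℝ) + (η + ν) * R)
          * ((mu z : ℝ) - s z)
        + ∑ y ∈ (range n).erase z, wF t z η c y / c * ((R : ℝ) - t y)
        + (∑ y ∈ (range n).erase z, lp y * (be z y : ℝ) + ∑ u ∈ hsZ U ho pc z, lh u
          + ∑ u ∈ U.filter (fun u => g z u ≠ 0), ls u) := by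
  have hn : 0 < n := by have := H.n5; omega
  have hm2 := H.toPCon.mass2 hz hz0
  have ht0 := H.t0 0 hn
  have htz := H.t0 z hz
  have hm2' : (t 0 : ℝ) + 1 + ((t z : ℝ) + 1) ≤ R := by exact_mod_cast hm2
  have ht0' : (0 : ℝ) ≤ t 0 := by exact_mod_cast ht0
  have htz' : (0 : ℝ) ≤ t z := by exact_mod_cast htz
  have hc0 : 0 < c := by rw [hc]; linarith
  have h0J : 0 ∈ (range n).erase z := mem_erase.2 ⟨Ne.symm hz0, mem_range.2 hn⟩
  have hηc : 0 ≤ η * c := mul_nonneg hη hc0.le
  have ew0 : wF t z η c 0 = 1 - η * c := if_pos rfl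
  have ewy : ∀ y, y ≠ 0 → wF t z η c y
      = max 0 (((t y : ℝ) + 1) / ((t z : ℝ) + 1 + ((t y : ℝ) + 1)) - η * c) := fun y hy => if_neg hy
  have ewg : ∀ y, y ≠ 0 → ((t y : ℝ) + 1) / ((t z : ℝ) + 1 + ((t y : ℝ) + 1))
      ≤ wF t z η c y + η * c := by
    intro y hy
    rw [ewy y hy]
    linarith [le_max_right 0 (((t y : ℝ) + 1) / ((t z : ℝ) + 1 + ((t y : ℝ) + 1)) - η * c)]
  have hw : ∀ y ∈ (range n).erase z, 0 ≤ wF t z η c y := by
    intro y _
    unfold wF
    split_ifs
    · linarith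
    · exact le_max_left _ _
  -- the two row tests
  obtain ⟨κ, rT, hκ1, hκ2, hT⟩ : ∃ κ rT : ℝ, κ * ((η + ν) * c) = η * c ∧
      (η + ν) * rT = ν * r0 + η * r1 ∧
      2 * (c * (∑ u ∈ hsZ U ho pc z, (vl u : ℝ) + κ * ∑ y ∈ (range n).erase z, (be z y : ℝ)
        + ∑ u ∈ K, (g z u : ℝ))) + rT
      ≤ 2 * ((R : ℝ) * ((mu z : ℝ) - s z)) + 2 * ∑ u ∈ K, (msP kp mn z (g z) u : ℝ) := by
    rcases eq_or_lt_of_le (add_nonneg hη hν) with h | h
    · have h1 : η = 0 := by linarith
      have h2 : ν = 0 := by linarith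
      refine ⟨0, r0, by rw [h1]; ring, by rw [h1, h2]; ring, ?_⟩
      rw [zero_mul, add_zero]
      exact hT0
    · refine ⟨η / (η + ν), (ν * r0 + η * r1) / (η + ν), by field_simp, by field_simp, ?_⟩
      have h1 := mul_le_mul_of_nonneg_left hT0 (div_nonneg hν h.le)
      have h2 := mul_le_mul_of_nonneg_left hT1 (div_nonneg hη h.le)
      have e1 : ν / (η + ν) + η / (η + ν) = 1 := by
        rw [← add_div, add_comm]
        exact div_self h.ne'
      have e2 : (ν * r0 + η * r1) / (η + ν) = ν / (η + ν) * r0 + η / (η + ν) * r1 := by ring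
      rw [e2]
      generalize ν / (η + ν) = a at *
      generalize η / (η + ν) = b at *
      have e3 : a = 1 - b := by linarith
      subst e3
      linarith
  have key := C.rowX_loss H.toPCon hR hR6 hz hz0 (cp := cp) (Z := Z) (c := c) (τ := η + ν)
    (κ := κ) (L := L) (w := wF t z η c) (kd := kdF t z Q) hc hw (add_nonneg hη hν) hZ
    (lp := lp) (lh := lh) (ls := ls) hls (P := P) hK
    (r := fun y => ((csRJ n t U ho vl kp pc be kq sg g z y (mu z - s z) (P y) (Y y)
                (K.filter fun u => ho u = y)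
              - 2 * (be y z * (((K.filter fun u => ho u = y).filter
                fun u => othE n kp z u).card : ℤ)) : ℤ) : ℝ)) (by
      intro y hy
      have h1 := C.csInB H hz hy (P := P y) (hP y hy).1 (Y := Y y) (hY y hy)
        (V := K.filter fun u => ho u = y) (by
          intro u hu
          obtain ⟨h1, h2⟩ := mem_filter.1 hu
          obtain ⟨h3, h4⟩ := mem_filter.1 (hK h1)
          exact mem_filter.2 ⟨h3, h2, h4⟩)
      rw [← hc] at h1
      exact h1) (rT := rT) hT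
    (fun y hy u hu h1 => (LevC.kd_F H.toPCon hP hy hu h1).1)
    (fun y hy u hu h1 h2 => by
      have := (LevC.kd_F H.toPCon hP hy hu h1).2 h2
      rw [← hc] at this
      exact this) (by unfold kdF; rw [if_pos hQ0]) hL
    (by rw [ew0, hκ1]; linarith [hlp 0]) (by rw [ew0]; nlinarith [mul_nonneg hν hc0.le])
    (fun y hy hyz hy0 => by
      rw [hκ1]
      linarith [ewg y hy0, hlp y])
    (fun y hy hyz hy0 => by
      have h1 := ewg y hy0
      have h2 := mul_nonneg hν hc0.le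
      have e1 : (η + ν) * c = η * c + ν * c := by ring
      rw [e1]
      linarith)
    ?_ ?_
    (fun u hu h1 h2 m hm hm0 hmz h3 => by
      have := hC u hu h1 h2 m hm hm0 hmz h3
      rw [ew0]
      exact this)
    hd
    (fun u hu h1 h2 h3 h4 h5 => by
      have h6 := hcp u hu h1 h2 h3 h4 h5
      rw [ew0]
      have e1 : 1 - η * c + (η + ν) * c = 1 + ν * c := by ring
      rw [e1]
      have e2 : 1 + ν * c - 1 + cp (u, z, 0) + ls u = ν * c + cp (u, z, 0) + ls u := by ring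
      rw [e2]
      exact h6) hus hnu hBc hSc hF
  · rw [hκ2] at key
    exact key
  · -- a full unit at the hub
    intro u hu h1 h2 h3
    have h4 := hkn 0 h0J ⟨u, hu, h1, h2, h3⟩
    rw [erase_eq_of_notMem (show 0 ∉ ((range n).erase z).erase 0 from notMem_erase _ _)] at h4
    rw [hL, ← add_sum_erase _ _ h0J, ew0]
    have e1 : kdF t z Q 0 = (t 0 : ℝ) - ((t z : ℝ) + 1) := by unfold kdF; rw [if_pos hQ0]
    rw [e1]
    have e2 : (1 - η * c) / c * ((t 0 : ℝ) - ((t z : ℝ) + 1)) + (1 - η * c) / c * ((R : ℝ) - t 0)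
        = 1 - η * c := by
      rw [← mul_add]
      have e3 : (t 0 : ℝ) - ((t z : ℝ) + 1) + ((R : ℝ) - t 0) = c := by rw [hc]; ring
      rw [e3]
      field_simp
    have h5 := hlh u
    linarith
  · -- a full unit at a thin cell
    intro u hu h1 h2 h3
    have huU := (mem_filter.1 hu).1
    have hhz := (mem_filter.1 hu).2.1
    have hfn := C.fn u huU
    have hfz : f u ≠ z := by rw [← hhz]; exact C.fh u huU
    have hfJ : f u ∈ (range n).erase z := mem_erase.2 ⟨hfz, mem_range.2 hfn⟩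
    have hfJ0 : f u ∈ ((range n).erase z).erase 0 := mem_erase.2 ⟨h3, hfJ⟩
    have h4 := hkn (f u) hfJ ⟨u, hu, h1, h2, rfl⟩
    rw [hL, ← add_sum_erase _ _ h0J, ← add_sum_erase _ _ hfJ0, ew0]
    have e1 : kdF t z Q 0 = (t 0 : ℝ) - ((t z : ℝ) + 1) := by unfold kdF; rw [if_pos hQ0]
    rw [e1]
    have h6 : 0 ≤ (t 0 : ℝ) - ((t z : ℝ) + 1) := by
      have h7 := H.toPCon.mass3 hn hz hfn (Ne.symm hz0) (Ne.symm h3) (Ne.symm hfz)
      have h8 := H.t0 _ hfn
      have h9 : t z + 1 ≤ t 0 := by linarith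
      have h10 : (t z : ℝ) + 1 ≤ t 0 := by exact_mod_cast h9
      linarith
    have h7 : 0 ≤ (1 - η * c) / c * ((t 0 : ℝ) - ((t z : ℝ) + 1)) :=
      mul_nonneg (div_nonneg (by linarith) hc0.le) h6
    have h8 := ewg (f u) h3
    have e2 : wF t z η c (f u) / c * (c - kdF t z Q (f u))
        = wF t z η c (f u) - wF t z η c (f u) / c * kdF t z Q (f u) := by
      field_simp
    rw [e2]
    have h5 := hlh u
    linarith

end RowXV

end Pool.Agent.Lib.MP_f04ccf_co
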