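import Mathlib

/-!
MP_f04ccf_co, TEXT D, regime L: **rule 3 in complement form, the inequalities of one unit** (exact, with `R`).

Letters: `X = A_host`, an end has `D = A + misses`, slack `r = R - X - D`.
One counted end: complements `X / (X + D)` (host), `D / (X + D)` (end).  Two counted ends (`D' ≤ X + D`,
`D ≤ X + D'`, `X ≤ D + D'`): `2 X / (X + D + D')`, `2 D / (X + D + D')`, `2 D' / (X + D + D')`.

* `r3_end`, `r3_host`: a complement of a two-ended unit is at least the one-ended complement;
* `r3_one`, `r3_two`: the sums, `r3_le_one`: at most one;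
* `r3_chord`: `D / (X + D) ≥ 1 - (X / R) (1 + r / (A + X))` for `0 ≤ r ≤ R - X - A`;
* `r3_hosted`: `A / (R - r) ≥ (A / R) (1 + r / R)`;
* `r3_prod`: the product of the misses in slack letters.
-/

set_option autoImplicit false

namespace Pool.Agent.Lib.MP_f04ccf_co

section Rul3

/-- the end in a unit with two counted ends -/
lemma r3_end {X D D' : ℝ} (hX : 0 < X) (hD : 0 ≤ D) (hD' : 0 ≤ D') (h : D' ≤ X + D) :
    D / (X + D) ≤ 2 * D / (X + D + D') := by
  rw [div_le_div_iff₀ (by linarith) (by linarith)]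
  nlinarith [mul_nonneg hD (show (0 : ℝ) ≤ X + D - D' by linarith)]

/-- the host in a unit with two counted ends, `D` any end with `D' ≤ X + D` -/
lemma r3_host {X D D' : ℝ} (hX : 0 < X) (hD : 0 ≤ D) (hD' : 0 ≤ D') (h : D' ≤ X + D) :
    X / (X + D) ≤ 2 * X / (X + D + D') := by
  rw [div_le_div_iff₀ (by linarith) (by linarith)]
  nlinarith [mul_nonneg hX.le (show (0 : ℝ) ≤ X + D - D' by linarith)]

/-- one counted end: the sum of the complements -/
lemma r3_one {X D : ℝ} (hX : 0 < X) (hD : 0 ≤ D) : X / (X + D) + D / (X + D) = 1 := by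
  rw [← add_div]
  exact div_self (by linarith)

/-- two counted ends: the sum of the complements -/
lemma r3_two {X D D' : ℝ} (hX : 0 < X) (hD : 0 ≤ D) (hD' : 0 ≤ D') :
    2 * X / (X + D + D') + (2 * D / (X + D + D') + 2 * D' / (X + D + D')) = 2 := by
  rw [← add_div, ← add_div, div_eq_iff (by linarith)]
  ring

/-- a complement is at most one -/
lemma r3_le_one {X D D' : ℝ} (hX : 0 < X) (h : X ≤ D + D') :
    2 * X / (X + D + D') ≤ 1 := by
  rw [div_le_one (by linarith)]
  linarith

/-- **the chord**: a served unit of the host `X` at the row `A` with slack `r` -/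
lemma r3_chord {R X A r D : ℝ} (hR : 0 < R) (hX : 0 ≤ X) (hA : 0 < A) (hr : 0 ≤ r)
    (hr1 : r ≤ R - X - A) (hD : X + D = R - r) :
    1 - X / R * (1 + r / (A + X)) ≤ D / (X + D) := by
  have h1 : 0 < A + X := by linarith
  have h2 : 0 < R - r := by linarith
  have e1 : D / (X + D) = 1 - X / (R - r) := by
    rw [hD, eq_sub_iff_add_eq, ← add_div, div_eq_one_iff_eq h2.ne']
    linarith
  rw [e1]
  have e2 : X / (R - r) ≤ X / R * (1 + r / (A + X)) := by
    rw [div_le_iff₀ h2]
    have e3 : X / R * (1 + r / (A + X)) * (R - r)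
        = X * ((A + X + r) * (R - r) / (R * (A + X))) := by
      field_simp
    rw [e3]
    refine le_mul_of_one_le_right hX ?_
    rw [le_div_iff₀ (mul_pos hR h1)]
    nlinarith [mul_nonneg hr (show (0 : ℝ) ≤ R - X - A - r by linarith)]
  linarith

/-- the end share is at most `X / (R - r)`, also at two counted ends -/
lemma r3_share_end {R X D D' r : ℝ} (hX : 0 < X) (hD : 0 ≤ D) (hD' : 0 ≤ D') (h : D' ≤ X + D)
    (hr : X + D = R - r) : 1 - 2 * D / (X + D + D') ≤ X / (R - r) := by
  have h1 := r3_end hX hD hD' h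
  have h2 := r3_one hX hD
  rw [← hr]
  linarith

/-- **the host**: complement `A / (R - r)` -/
lemma r3_hosted {R A r : ℝ} (hR : 0 < R) (hA : 0 ≤ A) (hr : r < R) :
    A / R * (1 + r / R) ≤ A / (R - r) := by
  have h2 : 0 < R - r := by linarith
  rw [le_div_iff₀ h2]
  have e3 : A / R * (1 + r / R) * (R - r) = A * ((R + r) * (R - r) / (R * R)) := by
    field_simp
  rw [e3]
  refine mul_le_of_le_one_right hA ?_
  rw [div_le_one (mul_pos hR hR)]
  nlinarith [sq_nonneg r]

/-- **the product of the misses in slack letters**, host `X`, ends `y`, `w` (all `A = t + 1`) -/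
lemma r3_prod {R X y w r r' b b' : ℝ} (hb : b = R - X - y - r) (hb' : b' = R - X - w - r')
    (h : b * b' ≤ R + (y - 1) * (w - 1)) :
    (R - X) * (R - X - y - w) + r * r'
      ≤ r * (R - X - w) + r' * (R - X - y) + (R + 1 - y - w) := by
  subst hb hb'
  nlinarith

/-- two usable ends: the masses of the two rows are nearly everything -/
lemma r3_mass {R X y w r r' b b' : ℝ} (hb : b = R - X - y - r) (hb' : b' = R - X - w - r')
    (h : b * b' ≤ R + (y - 1) * (w - 1)) (hr : r' ≤ r) (hr0 : 0 ≤ r') (hw : 1 ≤ w)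
    (hyw : 0 ≤ R - X - y - w) :
    (R - X) * (R - X - y - w) ≤ r * (2 * (R - X) - y - w) + (R + 1 - y - w) := by
  have h1 := r3_prod hb hb' h
  have h2 : r' * (R - X - y) ≤ r * (R - X - y) := mul_le_mul_of_nonneg_right hr (by linarith)
  have h3 : 0 ≤ r * r' := mul_nonneg (by linarith) hr0
  nlinarith

end Rul3

end Pool.Agent.Lib.MP_f04ccf_co
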