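import Pool.Agent.Lib.MP_f04ccf_co.M.RulL

/-!
MP_f04ccf_co, TEXT D, regime H (`R < 2 (t 0 + 1)`, the hub is the row `0`): **the table Y+ and its closing.**

Letters: `A i = t i + 1`, `C = R - A 0`, `x` the host, `m` the main end, `f` the cut end of a unit, `b = unb` the
misses at the main end.

* `phiH`: the order of the ends. Host `0`, value one: the main end has fewer misses (tie: smaller `t`)
  (`LevC.two_few`); for a host `≠ 0` the hub is never the main end of an item of value one with two ends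
  (`LevC.two_main`), and a unit of a thin host with main end `0` has no misses (`LevC.hub_unb`); host and ends
  `≠ 0`, value one: the main end has the smaller `t + misses` (`LevC.two_D`); cliques: `ψ`;
* `cutE`: the item has a cut end (half units, cliques); `hubC`: value one, host `≠ 0`, cut end `0`;
* `TuH`: host `0`: `1 - b/(R - A m) - C/(4 R)` for the items with a cut end, else `1`; host `x ≠ 0`: main end `0`:
  `0`; `hubC`: `A x * mn 0 u / (C (R - A x))`; value one: `A x / (A x + A m + b)`; cliques: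
  `A x / (A x + A m) * (1 - b / (R - A m))`;
* `wuH`: `b / (R - A m)` for `hubC`, else `0`. The host pays `1 - T`, the main end `(1 - w) T`, for `hubC` the
  hub `w T`;
* `LevC.close_H2`: the closing, for every choice of the budgets `δ z` (also the hub) with sum `< 1`;
  `LevC.close_H3`: `δ z = A z / (C + 3)`, hub `(5 / 2) / (C + 3)`; `LevC.close_H`: hub `0`, any `δ z`, `z ≠ 0`;
  `LevC.close_H'`: hub `0`, `δ z = A z / (C + 1)`.
-/

set_option autoImplicit false

namespace Pool.Agent.Lib.MP_f04ccf_co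

open Finset

attribute [local instance] Classical.propDecidable

section RulHS

variable {ι : Type*} {R : ℤ} {n : ℕ} {t s mu : ℕ → ℤ} {U : Finset ι} {ho : ι → ℕ} {vl : ι → ℤ}
  {kp mn : ℕ → ι → ℤ} {pc ar : ι → ℤ} {be kq NN sg : ℕ → ℕ → ℤ} {nu : ℕ → ι → ℤ}
  {ψ : ι → ℕ → ℤ} {g : ℕ → ι → ℕ} {f : ι → ℕ}

/-- the order of the ends in regime H (`ψ` the order for cliques) -/
noncomputable def phiH (R : ℤ) (n : ℕ) (t : ℕ → ℤ) (ho : ι → ℕ) (vl : ι → ℤ) (mn : ℕ → ι → ℤ)
    (ψ : ι → ℕ → ℤ) (u : ι) (i : ℕ) : ℤ :=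
  if ho u ≠ 0 ∧ i = 0 then (R + 1) ^ 2 + 1 + ∑ j ∈ range n, |ψ u j|
  else if vl u = 1 then (if ho u = 0 then mn i u * (R + 1) + t i else t i + mn i u) else ψ u i

/-- the item has a cut end -/
def cutE (kp : ℕ → ι → ℤ) (g : ℕ → ι → ℕ) (f : ι → ℕ) (u : ι) : Prop :=
  (g (f u) u : ℤ) + 1 = kp (f u) u

/-- value one, thin host, the hub is the cut end -/
def hubC (ho : ι → ℕ) (vl : ι → ℤ) (kp : ℕ → ι → ℤ) (g : ℕ → ι → ℕ) (f : ι → ℕ) (u : ι) : Prop :=
  twoE vl kp g f u ∧ ho u ≠ 0 ∧ f u = 0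

/-- **the share which the host does not pay, table Y+** -/
noncomputable def TuH (R : ℤ) (t : ℕ → ℤ) (ho : ι → ℕ) (vl : ι → ℤ) (kp mn : ℕ → ι → ℤ)
    (g : ℕ → ι → ℕ) (f : ι → ℕ) (v : ι × ℕ × ℕ) : ℝ :=
  if ho v.1 = 0 then
    (if cutE kp g f v.1 then
      1 - (unb kp mn g v : ℝ) / ((R : ℝ) - (t v.2.1 + 1)) - ((R : ℝ) - (t 0 + 1)) / (4 * R) else 1)
  else if v.2.1 = 0 then 0
  else if hubC ho vl kp g f v.1 then
    ((t (ho v.1) : ℝ) + 1) * mn 0 v.1 / (((R : ℝ) - (t 0 + 1)) * ((R : ℝ) - (t (ho v.1) + 1)))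
  else if vl v.1 = 1 then
    ((t (ho v.1) : ℝ) + 1) / ((t (ho v.1) : ℝ) + 1 + ((t v.2.1 : ℝ) + 1 + unb kp mn g v))
  else ((t (ho v.1) : ℝ) + 1) / ((t (ho v.1) : ℝ) + 1 + ((t v.2.1 : ℝ) + 1))
    * (1 - (unb kp mn g v : ℝ) / ((R : ℝ) - (t v.2.1 + 1)))

/-- the part of the hub in the share of a unit `hubC` -/
noncomputable def wuH (R : ℤ) (t : ℕ → ℤ) (ho : ι → ℕ) (vl : ι → ℤ) (kp mn : ℕ → ι → ℤ)
    (g : ℕ → ι → ℕ) (f : ι → ℕ) (v : ι × ℕ × ℕ) : ℝ :=
  if hubC ho vl kp g f v.1 then (unb kp mn g v : ℝ) / ((R : ℝ) - (t v.2.1 + 1)) else 0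

/-- the values of the order which are not the big one -/
lemma phiH_lt (H : PCon R n t s mu U ho vl kp mn pc ar be kq NN sg nu) {u : ι} (hu : u ∈ U)
    (hh : ho u ≠ 0) {i : ℕ} (hi : i < n) (h0 : i ≠ 0) :
    phiH R n t ho vl mn ψ u i < phiH R n t ho vl mn ψ u 0 := by
  have h1 := H.t0 i hi
  have h2 := H.mnc u hu i hi
  have h3 := H.m0 u hu i hi
  have hR := R_pos H
  have h4 : ∀ j ∈ range n, (0 : ℤ) ≤ |ψ u j| := fun j _ => abs_nonneg _
  have h5 : |ψ u i| ≤ ∑ j ∈ range n, |ψ u j| := single_le_sum h4 (mem_range.2 hi)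
  have h6 := le_abs_self (ψ u i)
  have h7 : 0 ≤ |ψ u i| := abs_nonneg _
  have e0 : phiH R n t ho vl mn ψ u 0 = (R + 1) ^ 2 + 1 + ∑ j ∈ range n, |ψ u j| := by
    unfold phiH
    exact if_pos ⟨hh, rfl⟩
  have e1 : phiH R n t ho vl mn ψ u i = if vl u = 1 then t i + mn i u else ψ u i := by
    unfold phiH
    rw [if_neg fun h => h0 h.2, if_neg hh]
  rw [e0, e1]
  split_ifs
  · nlinarith [mul_nonneg h3 hR.le, mul_nonneg h1 hR.le]
  · nlinarith

/-- a unit of a thin host with main end at the hub has no misses -/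
lemma LevC.hub_unb (Lv : LevC n U ho vl kp mn pc (phiH R n t ho vl mn ψ) g f)
    (H : PCon R n t s mu U ho vl kp mn pc ar be kq NN sg nu) {v : ι × ℕ × ℕ} (hv : v ∈ unV n U g)
    (hh : ho v.1 ≠ 0) (h0 : v.2.1 = 0) : unb kp mn g v = 0 := by
  obtain ⟨h1, h2, h3⟩ := LevC.mem_unV hv
  have h4 : 1 ≤ g v.2.1 v.1 := by omega
  have h5 := Lv.le v.1 h1 v.2.1 h2
  have h5' : (1 : ℤ) ≤ kp v.2.1 v.1 := by
    have : (1 : ℤ) ≤ (g v.2.1 v.1 : ℤ) := by exact_mod_cast h4
    linarith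
  rcases Lv.typ v.1 h1 with ⟨-, -, -, h6, h7⟩ | ⟨-, h6, -, h8⟩
  · have h8 : v.2.1 = f v.1 := by
      by_contra hcon
      rw [h7 v.2.1 h2 hcon] at h5'
      norm_num at h5'
    unfold unb
    split_ifs
    · rw [h8]
      exact h6
    · rfl
  · have h9 : f v.1 = 0 := by
      by_contra hcon
      have h10 := h8 0 (by omega) (by rw [h0] at h5'; omega)
      exact absurd h10 (not_le.2 (phiH_lt H h1 hh (Lv.fn v.1 h1) hcon))
    unfold unb
    rw [if_neg]
    rintro ⟨h10, -⟩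
    rw [h0] at h10
    rw [h9] at h6
    linarith

/-- an item of value one with two ends of a thin host: the main end is not the hub -/
lemma LevC.two_main (Lv : LevC n U ho vl kp mn pc (phiH R n t ho vl mn ψ) g f)
    (H : PCon R n t s mu U ho vl kp mn pc ar be kq NN sg nu) {v : ι × ℕ × ℕ} (hv : v ∈ unV n U g)
    (hp : twoE vl kp g f v.1) (hh : ho v.1 ≠ 0) : v.2.1 ≠ 0 := by
  obtain ⟨h1, -, -⟩ := LevC.mem_unV hv
  obtain ⟨-, h3, h4, -, -, -, -, -, -, -, h11⟩ := Lv.two_facts H hv hp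
  intro h0
  rw [h0] at h11 h4
  exact absurd h11 (not_le.2 (phiH_lt H h1 hh h3 h4.symm))

/-- host `0`, value one, two ends: the main end has fewer misses -/
lemma LevC.two_few (Lv : LevC n U ho vl kp mn pc (phiH R n t ho vl mn ψ) g f)
    (H : PCon R n t s mu U ho vl kp mn pc ar be kq NN sg nu) {v : ι × ℕ × ℕ} (hv : v ∈ unV n U g)
    (hp : twoE vl kp g f v.1) (hh : ho v.1 = 0) :
    mn v.2.1 v.1 ≤ mn (f v.1) v.1 ∧ (mn v.2.1 v.1 = mn (f v.1) v.1 → t v.2.1 ≤ t (f v.1)) := by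
  obtain ⟨h1, h2, -⟩ := LevC.mem_unV hv
  obtain ⟨-, h3, -, -, -, -, -, -, -, -, h11⟩ := Lv.two_facts H hv hp
  have hR := R_pos H
  have e1 : ∀ i, phiH R n t ho vl mn ψ v.1 i = mn i v.1 * (R + 1) + t i := by
    intro i
    unfold phiH
    rw [if_neg fun h => h.1 hh, if_pos hp.1, if_pos hh]
  rw [e1, e1] at h11
  have h5 := H.t0 _ h2
  have h6 : t (f v.1) ≤ R := by
    have h7 := H.mnc v.1 h1 (f v.1) h3
    have h8 := H.m0 v.1 h1 (f v.1) h3
    linarith
  have h7 : mn v.2.1 v.1 ≤ mn (f v.1) v.1 := by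
    by_contra hcon
    push Not at hcon
    nlinarith
  exact ⟨h7, fun h8 => by rw [h8] at h11; linarith⟩

/-- host and ends thin, value one: the main end has the smaller `t + misses` -/
lemma LevC.two_D (Lv : LevC n U ho vl kp mn pc (phiH R n t ho vl mn ψ) g f)
    (H : PCon R n t s mu U ho vl kp mn pc ar be kq NN sg nu) {v : ι × ℕ × ℕ} (hv : v ∈ unV n U g)
    (hp : twoE vl kp g f v.1) (hh : ho v.1 ≠ 0) (hf : f v.1 ≠ 0) :
    t v.2.1 + mn v.2.1 v.1 ≤ t (f v.1) + mn (f v.1) v.1 := by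
  obtain ⟨-, -, -, -, -, -, -, -, -, -, h11⟩ := Lv.two_facts H hv hp
  have h4 := Lv.two_main H hv hp hh
  have e1 : ∀ i, i ≠ 0 → phiH R n t ho vl mn ψ v.1 i = t i + mn i v.1 := by
    intro i hi
    unfold phiH
    rw [if_neg fun h => hi h.2, if_pos hp.1, if_neg hh]
  rw [e1 _ h4, e1 _ hf] at h11
  exact h11

/-- **the closing of regime H with the table Y+, with a budget for every row (also the hub)** -/
theorem LevC.close_H2 (Lv : LevC n U ho vl kp mn pc (phiH R n t ho vl mn ψ) g f)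
    (H : PCon R n t s mu U ho vl kp mn pc ar be kq NN sg nu)
    {L : Finset ℕ} (hL : L = lightU n s (unV n U g) (unC (hubC ho vl kp g f) f))
    {F : Finset (ι × ℕ × ℕ)}
    (hF : F = freeU (unV n U g) (fun v => ho v.1) (unC (hubC ho vl kp g f) f) L) {δ : ℕ → ℝ}
    (hub : 0 ∉ L →
      1 ≤ s 0 + (((unV n U g).filter fun v => 0 ∈ unC (hubC ho vl kp g f) f v).card : ℤ) →
      ∑ v ∈ F.filter (fun v => ho v.1 = 0 ∧ cutE kp g f v.1),
          ((unb kp mn g v : ℝ) / ((R : ℝ) - (t v.2.1 + 1)) + ((R : ℝ) - (t 0 + 1)) / (4 * R))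
        + ∑ v ∈ F.filter (fun v => hubC ho vl kp g f v.1),
          (unb kp mn g v : ℝ) / ((R : ℝ) - (t v.2.1 + 1))
            * (((t (ho v.1) : ℝ) + 1) * mn 0 v.1
              / (((R : ℝ) - (t 0 + 1)) * ((R : ℝ) - (t (ho v.1) + 1))))
        ≤ (mu 0 : ℝ) - s 0 + δ 0)
    (row : ∀ z < n, z ≠ 0 → z ∉ L →
      1 ≤ s z + (((unV n U g).filter fun v => v.2.1 = z).card : ℤ) →
      ∑ v ∈ F.filter (fun v => ho v.1 = z), (1 - TuH R t ho vl kp mn g f v)
        + ∑ v ∈ F.filter (fun v => v.2.1 = z),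
          (1 - wuH R t ho vl kp mn g f v) * TuH R t ho vl kp mn g f v
        ≤ (mu z : ℝ) - s z + δ z)
    (hδ : ∀ z < n, 0 ≤ δ z) (hδ1 : ∑ z ∈ range n, δ z < 1) : False := by
  have hFV : F ⊆ unV n U g := by
    rw [hF]
    exact filter_subset _ _
  refine Lv.close_TW0 H (P := hubC ho vl kp g f) (fun _ _ h => h.1)
    (T := TuH R t ho vl kp mn g f) (w := wuH R t ho vl kp mn g f)
    (fun v _ h => by unfold wuH; exact if_neg h)
    (δ := δ) hL hF ?_ ?_
  · intro z hz hzL hz1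
    by_cases h0 : z = 0
    · subst h0
      have h2 := hub hzL hz1
      have e2 : ∑ v ∈ F.filter (fun v => ho v.1 = 0), (1 - TuH R t ho vl kp mn g f v)
          = ∑ v ∈ F.filter (fun v => ho v.1 = 0 ∧ cutE kp g f v.1),
          ((unb kp mn g v : ℝ) / ((R : ℝ) - (t v.2.1 + 1))
            + ((R : ℝ) - (t 0 + 1)) / (4 * R)) := by
        rw [← filter_filter, sum_filter (s := F.filter _)]
        refine sum_congr rfl fun v hv => ?_
        have h3 := (mem_filter.1 hv).2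
        unfold TuH
        rw [if_pos h3]
        split_ifs <;> ring
      have e3 : ∑ v ∈ F.filter (fun v => v.2.1 = 0),
          (1 - wuH R t ho vl kp mn g f v) * TuH R t ho vl kp mn g f v = 0 := by
        refine sum_eq_zero fun v hv => ?_
        obtain ⟨h3, h4⟩ := mem_filter.1 hv
        have h5 := Lv.main_ne (hFV h3)
        rw [h4] at h5
        unfold TuH
        rw [if_neg (Ne.symm h5), if_pos h4, mul_zero]
      have e4 : ∑ v ∈ F.filter (fun v => hubC ho vl kp g f v.1 ∧ f v.1 = 0),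
            wuH R t ho vl kp mn g f v * TuH R t ho vl kp mn g f v
          = ∑ v ∈ F.filter (fun v => hubC ho vl kp g f v.1),
          (unb kp mn g v : ℝ) / ((R : ℝ) - (t v.2.1 + 1))
            * (((t (ho v.1) : ℝ) + 1) * mn 0 v.1
              / (((R : ℝ) - (t 0 + 1)) * ((R : ℝ) - (t (ho v.1) + 1)))) := by
        refine sum_congr (filter_congr fun v _ => ⟨fun h => h.1, fun h => ⟨h, h.2.2⟩⟩)
          fun v hv => ?_
        obtain ⟨h3, h4⟩ := mem_filter.1 hv
        have h5 := Lv.two_main H (hFV h3) h4.1 h4.2.1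
        unfold wuH TuH
        rw [if_pos h4, if_neg h4.2.1, if_neg h5, if_pos h4]
      rw [e2, e3, e4, add_zero]
      exact h2
    · have e0 : ∑ v ∈ F.filter (fun v => hubC ho vl kp g f v.1 ∧ f v.1 = z),
          wuH R t ho vl kp mn g f v * TuH R t ho vl kp mn g f v = 0 := by
        refine sum_eq_zero fun v hv => ?_
        obtain ⟨-, h4, h5⟩ := mem_filter.1 hv
        exact absurd (h5.symm.trans h4.2.2) h0
      rw [e0, add_zero]
      refine row z hz h0 hzL ?_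
      have e1 : (unV n U g).filter (fun v => z ∈ unC (hubC ho vl kp g f) f v)
          = (unV n U g).filter fun v => v.2.1 = z := by
        refine filter_congr fun v _ => ?_
        unfold unC
        by_cases h6 : hubC ho vl kp g f v.1
        · rw [if_pos h6, mem_insert, mem_singleton, h6.2.2]
          exact ⟨fun h => h.elim (fun h => h.symm) fun h => absurd h h0, fun h => Or.inl h.symm⟩
        · rw [if_neg h6, mem_singleton]
          exact ⟨fun h => h.symm, fun h => h.symm⟩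
      rw [e1] at hz1
      exact hz1
  · -- the budgets
    have h1 : ∑ i ∈ (range n).filter (fun i => i ∉ L), δ i ≤ ∑ i ∈ range n, δ i :=
      sum_le_sum_of_subset_of_nonneg (filter_subset _ _) fun i hi _ => hδ i (mem_range.1 hi)
    linarith

/-- **the closing of regime H with the table Y+** -/
theorem LevC.close_H (Lv : LevC n U ho vl kp mn pc (phiH R n t ho vl mn ψ) g f)
    (H : PCon R n t s mu U ho vl kp mn pc ar be kq NN sg nu)
    {L : Finset ℕ} (hL : L = lightU n s (unV n U g) (unC (hubC ho vl kp g f) f))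
    {F : Finset (ι × ℕ × ℕ)}
    (hF : F = freeU (unV n U g) (fun v => ho v.1) (unC (hubC ho vl kp g f) f) L) {δ : ℕ → ℝ}
    (hub : 0 ∉ L →
      1 ≤ s 0 + (((unV n U g).filter fun v => 0 ∈ unC (hubC ho vl kp g f) f v).card : ℤ) →
      ∑ v ∈ F.filter (fun v => ho v.1 = 0 ∧ cutE kp g f v.1),
          ((unb kp mn g v : ℝ) / ((R : ℝ) - (t v.2.1 + 1)) + ((R : ℝ) - (t 0 + 1)) / (4 * R))
        + ∑ v ∈ F.filter (fun v => hubC ho vl kp g f v.1),
          (unb kp mn g v : ℝ) / ((R : ℝ) - (t v.2.1 + 1))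
            * (((t (ho v.1) : ℝ) + 1) * mn 0 v.1
              / (((R : ℝ) - (t 0 + 1)) * ((R : ℝ) - (t (ho v.1) + 1))))
        ≤ (mu 0 : ℝ) - s 0)
    (row : ∀ z < n, z ≠ 0 → z ∉ L →
      1 ≤ s z + (((unV n U g).filter fun v => v.2.1 = z).card : ℤ) →
      ∑ v ∈ F.filter (fun v => ho v.1 = z), (1 - TuH R t ho vl kp mn g f v)
        + ∑ v ∈ F.filter (fun v => v.2.1 = z),
          (1 - wuH R t ho vl kp mn g f v) * TuH R t ho vl kp mn g f v
        ≤ (mu z : ℝ) - s z + δ z)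
    (hδ : ∀ z < n, z ≠ 0 → 0 ≤ δ z) (hδ1 : ∑ z ∈ (range n).erase 0, δ z < 1) : False := by
  have hn : 0 < n := by have := H.n5; omega
  refine Lv.close_H2 H hL hF (δ := fun z => if z = 0 then 0 else δ z) ?_ ?_ ?_ ?_
  · intro h1 h2
    rw [if_pos rfl, add_zero]
    exact hub h1 h2
  · intro z hz h0 hzL hz1
    rw [if_neg h0]
    exact row z hz h0 hzL hz1
  · intro z hz
    by_cases h0 : z = 0
    · rw [if_pos h0]
    · rw [if_neg h0]
      exact hδ z hz h0
  · have h2 : ∑ i ∈ range n, (if i = 0 then (0 : ℝ) else δ i) = ∑ i ∈ (range n).erase 0, δ i := by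
      rw [← add_sum_erase (range n) _ (mem_range.2 hn), if_pos rfl, zero_add]
      exact sum_congr rfl fun i hi => if_neg (ne_of_mem_erase hi)
    rw [h2]
    exact hδ1

/-- the budgets `A z / (C + 1)` of regime H -/
lemma sum_budH (H : PCon R n t s mu U ho vl kp mn pc ar be kq NN sg nu) :
    (∀ z < n, z ≠ 0 → 0 ≤ ((t z : ℝ) + 1) / ((R : ℝ) - (t 0 + 1) + 1)) ∧
    ∑ z ∈ (range n).erase 0, ((t z : ℝ) + 1) / ((R : ℝ) - (t 0 + 1) + 1) < 1 := by
  have hn : 0 < n := by have := H.n5; omega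
  have h3 : ∑ i ∈ (range n).erase 0, ((t i : ℝ) + 1) ≤ R - (t 0 + 1) := by
    have h4 := H.tsum
    rw [← add_sum_erase (range n) _ (mem_range.2 hn)] at h4
    have h5 : ∑ i ∈ (range n).erase 0, (t i + 1) ≤ R - (t 0 + 1) := by linarith
    exact_mod_cast h5
  have h4 : 0 ≤ ∑ i ∈ (range n).erase 0, ((t i : ℝ) + 1) := by
    refine sum_nonneg fun i hi => ?_
    have h2 : (0 : ℝ) ≤ t i := by exact_mod_cast H.t0 i (mem_range.1 (mem_of_mem_erase hi))
    linarith
  have h5 : (0 : ℝ) < (R : ℝ) - (t 0 + 1) + 1 := by linarith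
  constructor
  · intro z hz _
    have h2 : (0 : ℝ) ≤ t z := by exact_mod_cast H.t0 z hz
    positivity
  · rw [← sum_div, div_lt_one h5]
    linarith

/-- **the closing of regime H with the budgets `A z / (C + 1)`** -/
theorem LevC.close_H' (Lv : LevC n U ho vl kp mn pc (phiH R n t ho vl mn ψ) g f)
    (H : PCon R n t s mu U ho vl kp mn pc ar be kq NN sg nu)
    {L : Finset ℕ} (hL : L = lightU n s (unV n U g) (unC (hubC ho vl kp g f) f))
    {F : Finset (ι × ℕ × ℕ)}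
    (hF : F = freeU (unV n U g) (fun v => ho v.1) (unC (hubC ho vl kp g f) f) L)
    (hub : 0 ∉ L →
      1 ≤ s 0 + (((unV n U g).filter fun v => 0 ∈ unC (hubC ho vl kp g f) f v).card : ℤ) →
      ∑ v ∈ F.filter (fun v => ho v.1 = 0 ∧ cutE kp g f v.1),
          ((unb kp mn g v : ℝ) / ((R : ℝ) - (t v.2.1 + 1)) + ((R : ℝ) - (t 0 + 1)) / (4 * R))
        + ∑ v ∈ F.filter (fun v => hubC ho vl kp g f v.1),
          (unb kp mn g v : ℝ) / ((R : ℝ) - (t v.2.1 + 1))
            * (((t (ho v.1) : ℝ) + 1) * mn 0 v.1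
              / (((R : ℝ) - (t 0 + 1)) * ((R : ℝ) - (t (ho v.1) + 1))))
        ≤ (mu 0 : ℝ) - s 0)
    (row : ∀ z < n, z ≠ 0 → z ∉ L →
      1 ≤ s z + (((unV n U g).filter fun v => v.2.1 = z).card : ℤ) →
      ∑ v ∈ F.filter (fun v => ho v.1 = z), (1 - TuH R t ho vl kp mn g f v)
        + ∑ v ∈ F.filter (fun v => v.2.1 = z),
          (1 - wuH R t ho vl kp mn g f v) * TuH R t ho vl kp mn g f v
        ≤ (mu z : ℝ) - s z + ((t z : ℝ) + 1) / ((R : ℝ) - (t 0 + 1) + 1)) : False :=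
  Lv.close_H H hL hF hub row (sum_budH H).1 (sum_budH H).2

/-- the budgets `A z / (C + 3)`, hub `(5 / 2) / (C + 3)` of regime H -/
noncomputable def budH (R : ℤ) (t : ℕ → ℤ) (z : ℕ) : ℝ :=
  (if z = 0 then 5 / 2 else (t z : ℝ) + 1) / ((R : ℝ) - (t 0 + 1) + 3)

lemma sum_budH3 (H : PCon R n t s mu U ho vl kp mn pc ar be kq NN sg nu) :
    (∀ z < n, 0 ≤ budH R t z) ∧ ∑ z ∈ range n, budH R t z < 1 := by
  have hn : 0 < n := by have := H.n5; omega
  have h3 : ∑ i ∈ (range n).erase 0, ((t i : ℝ) + 1) ≤ R - (t 0 + 1) := by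
    have h4 := H.tsum
    rw [← add_sum_erase (range n) _ (mem_range.2 hn)] at h4
    have h5 : ∑ i ∈ (range n).erase 0, (t i + 1) ≤ R - (t 0 + 1) := by linarith
    exact_mod_cast h5
  have h4 : 0 ≤ ∑ i ∈ (range n).erase 0, ((t i : ℝ) + 1) := by
    refine sum_nonneg fun i hi => ?_
    have h2 : (0 : ℝ) ≤ t i := by exact_mod_cast H.t0 i (mem_range.1 (mem_of_mem_erase hi))
    linarith
  have h5 : (0 : ℝ) < (R : ℝ) - (t 0 + 1) + 3 := by linarith
  constructor
  · intro z hz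
    have h2 : (0 : ℝ) ≤ t z := by exact_mod_cast H.t0 z hz
    unfold budH
    split_ifs <;> positivity
  · unfold budH
    rw [← sum_div, div_lt_one h5, ← add_sum_erase (range n) _ (mem_range.2 hn), if_pos rfl]
    have h6 : ∑ i ∈ (range n).erase 0, (if i = 0 then (5 / 2 : ℝ) else (t i : ℝ) + 1)
        = ∑ i ∈ (range n).erase 0, ((t i : ℝ) + 1) :=
      sum_congr rfl fun i hi => if_neg (ne_of_mem_erase hi)
    rw [h6]
    linarith

/-- **the closing of regime H with the budgets `A z / (C + 3)`, hub `(5 / 2) / (C + 3)`** -/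
theorem LevC.close_H3 (Lv : LevC n U ho vl kp mn pc (phiH R n t ho vl mn ψ) g f)
    (H : PCon R n t s mu U ho vl kp mn pc ar be kq NN sg nu)
    {L : Finset ℕ} (hL : L = lightU n s (unV n U g) (unC (hubC ho vl kp g f) f))
    {F : Finset (ι × ℕ × ℕ)}
    (hF : F = freeU (unV n U g) (fun v => ho v.1) (unC (hubC ho vl kp g f) f) L)
    (hub : 0 ∉ L →
      1 ≤ s 0 + (((unV n U g).filter fun v => 0 ∈ unC (hubC ho vl kp g f) f v).card : ℤ) →
      ∑ v ∈ F.filter (fun v => ho v.1 = 0 ∧ cutE kp g f v.1),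
          ((unb kp mn g v : ℝ) / ((R : ℝ) - (t v.2.1 + 1)) + ((R : ℝ) - (t 0 + 1)) / (4 * R))
        + ∑ v ∈ F.filter (fun v => hubC ho vl kp g f v.1),
          (unb kp mn g v : ℝ) / ((R : ℝ) - (t v.2.1 + 1))
            * (((t (ho v.1) : ℝ) + 1) * mn 0 v.1
              / (((R : ℝ) - (t 0 + 1)) * ((R : ℝ) - (t (ho v.1) + 1))))
        ≤ (mu 0 : ℝ) - s 0 + (5 / 2) / ((R : ℝ) - (t 0 + 1) + 3))
    (row : ∀ z < n, z ≠ 0 → z ∉ L →
      1 ≤ s z + (((unV n U g).filter fun v => v.2.1 = z).card : ℤ) →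
      ∑ v ∈ F.filter (fun v => ho v.1 = z), (1 - TuH R t ho vl kp mn g f v)
        + ∑ v ∈ F.filter (fun v => v.2.1 = z),
          (1 - wuH R t ho vl kp mn g f v) * TuH R t ho vl kp mn g f v
        ≤ (mu z : ℝ) - s z + ((t z : ℝ) + 1) / ((R : ℝ) - (t 0 + 1) + 3)) : False := by
  refine Lv.close_H2 H hL hF (δ := budH R t) ?_ ?_ (sum_budH3 H).1 (sum_budH3 H).2
  · intro h1 h2
    have h3 := hub h1 h2
    unfold budH
    rw [if_pos rfl]
    exact h3
  · intro z hz h0 hzL hz1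
    have h3 := row z hz h0 hzL hz1
    unfold budH
    rw [if_neg h0]
    exact h3

end RulHS

end Pool.Agent.Lib.MP_f04ccf_co
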