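import Pool.Agent.Lib.MP_f04ccf_co.M.RowS
import Pool.Agent.Lib.MP_f04ccf_co.M.UnI

/-!
MP_f04ccf_co, TEXT D: **the closing in share form (d-form) with light rows**, the tables over the units of
`LevC`, and RULE L (74's 18078).

* `PCon.close_sh`: shares `sh z v` with sum `≥ 1` for every free unit, and for every row `z` which is not
  light `∑_{free, hosted} sh z v + ∑_{free, z ∈ C v} sh z v ≤ (mu z - s z) + δ z`;
* `LevC.close_TW`: a table of the form host `1 - T v`, main end `(1 - w v) T v`, cut end `w v T v` (counted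
  only for the items `P`), and hub units `Hb` (hub = row 0: the hub pays 0, the other row 1); the row claim is
  displayed by the three roles; `LevC.close_TW0`: no hub units;
* RULE L: `TuL`, `twoL`, `woL`, facts `TuL_nonneg`, `TuL_lt_one`, `woL_nonneg`, `woL_le_half`;
  `LevC.close_L`, `LevC.close_LH`.
-/

set_option autoImplicit false

namespace Pool.Agent.Lib.MP_f04ccf_co

open Finset

attribute [local instance] Classical.propDecidable

section ShareC

variable {ι κ : Type*} {R : ℤ} {n : ℕ} {t s mu : ℕ → ℤ} {U : Finset ι} {ho : ι → ℕ} {vl : ι → ℤ}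
  {kp mn : ℕ → ι → ℤ} {pc ar : ι → ℤ} {be kq NN sg : ℕ → ℕ → ℤ} {nu : ℕ → ι → ℤ}
  {V : Finset κ} {it : κ → ι} {C C' : κ → Finset ℕ} {bt ht : κ → ℕ → ℤ}

/-- **the closing in share form**: shares `sh z v` with sum at least one (29's `close_share` with
`co = 1 - sh`) -/
theorem PCon.close_sh (H : PCon R n t s mu U ho vl kp mn pc ar be kq NN sg nu)
    (hV : UnP R n t U ho vl kp mn V it C' bt ht) (hC : ∀ v ∈ V, ∀ i ∈ C v, i < n)
    {sh : ℕ → κ → ℝ} {δ : ℕ → ℝ}
    (h1 : ∀ v ∈ freeU V (fun v => ho (it v)) C (lightU n s V C),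
      1 ≤ sh (ho (it v)) v + ∑ i ∈ C v, sh i v)
    (h2 : ∀ z < n, z ∉ lightU n s V C → 1 ≤ s z + ((V.filter fun v => z ∈ C v).card : ℤ) →
      ∑ v ∈ (freeU V (fun v => ho (it v)) C (lightU n s V C)).filter (fun v => ho (it v) = z),
          sh z v
        + ∑ v ∈ (freeU V (fun v => ho (it v)) C (lightU n s V C)).filter (fun v => z ∈ C v), sh z v
        ≤ (mu z : ℝ) - s z + δ z)
    (h3 : ∑ i ∈ (range n).filter (fun i => i ∉ lightU n s V C), δ i < 1) : False := by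
  refine H.close_share (C := C) (co := fun z v => 1 - sh z v) (δ := δ) hV hC ?_ ?_ h3
  · intro v hv
    have h4 := h1 v hv
    beta_reduce
    rw [sum_sub_distrib, sum_const, nsmul_eq_mul, mul_one]
    linarith
  · intro z hz hzL hz1
    have h4 := h2 z hz hzL hz1
    simp only [sub_sub_cancel]
    exact h4

end ShareC

section TabTW

variable {ι : Type*} {R : ℤ} {n : ℕ} {t s mu : ℕ → ℤ} {U : Finset ι} {ho : ι → ℕ} {vl : ι → ℤ}
  {kp mn : ℕ → ι → ℤ} {pc ar : ι → ℤ} {be kq NN sg : ℕ → ℕ → ℤ} {nu : ℕ → ι → ℤ}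
  {φ : ι → ℕ → ℤ} {g : ℕ → ι → ℕ} {f : ι → ℕ}

/-- the shares of a table with hub units -/
noncomputable def shTW (ho : ι → ℕ) (Hb : ι × ℕ × ℕ → Prop) (T w : ι × ℕ × ℕ → ℝ) (z : ℕ)
    (v : ι × ℕ × ℕ) : ℝ :=
  if Hb v then (if z = 0 then 0 else 1)
  else if z = ho v.1 then 1 - T v else if z = v.2.1 then (1 - w v) * T v else w v * T v

lemma LevC.sum_shTW (Lv : LevC n U ho vl kp mn pc φ g f)
    (H : PCon R n t s mu U ho vl kp mn pc ar be kq NN sg nu) {P : ι → Prop}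
    (hP : ∀ u ∈ U, P u → twoE vl kp g f u) {Hb : ι × ℕ × ℕ → Prop} {T w : ι × ℕ × ℕ → ℝ}
    {v : ι × ℕ × ℕ} (hv : v ∈ unV n U g) (hHb : Hb v → ¬ P v.1 ∧ (ho v.1 = 0 ∨ v.2.1 = 0))
    (hw : ¬ P v.1 → w v = 0) :
    shTW ho Hb T w (ho v.1) v + ∑ i ∈ unC P f v, shTW ho Hb T w i v = 1 := by
  have h1 := Lv.main_ne hv
  obtain ⟨h2, -, -⟩ := LevC.mem_unV hv
  by_cases hh : Hb v
  · obtain ⟨h3, h4⟩ := hHb hh
    have e1 : unC P f v = {v.2.1} := by
      unfold unC
      exact if_neg h3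
    rw [e1, sum_singleton]
    unfold shTW
    rw [if_pos hh, if_pos hh]
    rcases h4 with h4 | h4
    · have h5 : v.2.1 ≠ 0 := fun h => h1 (by rw [h, h4])
      rw [if_pos h4, if_neg h5]
      norm_num
    · have h5 : ho v.1 ≠ 0 := fun h => h1 (by rw [h, h4])
      rw [if_neg h5, if_pos h4]
      norm_num
  · by_cases h3 : P v.1
    · have h4 := hP v.1 h2 h3
      have h5 := Lv.main_cut H hv h4
      have h6 := Lv.fh v.1 h2
      have e1 : unC P f v = {v.2.1, f v.1} := by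
        unfold unC
        exact if_pos h3
      rw [e1, sum_pair h5]
      unfold shTW
      rw [if_neg hh, if_pos rfl, if_neg hh, if_neg h1, if_pos rfl, if_neg hh, if_neg h6,
        if_neg h5.symm]
      ring
    · have e1 : unC P f v = {v.2.1} := by
        unfold unC
        exact if_neg h3
      rw [e1, sum_singleton]
      unfold shTW
      rw [if_neg hh, if_pos rfl, if_neg hh, if_neg h1, if_pos rfl, hw h3]
      ring

/-- the units counted at a row: main end there, or cut end there -/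
lemma LevC.sum_roles (Lv : LevC n U ho vl kp mn pc φ g f)
    (H : PCon R n t s mu U ho vl kp mn pc ar be kq NN sg nu) {P : ι → Prop}
    (hP : ∀ u ∈ U, P u → twoE vl kp g f u) {F : Finset (ι × ℕ × ℕ)} (hF : F ⊆ unV n U g) (z : ℕ)
    (F1 : ι × ℕ × ℕ → ℝ) :
    ∑ v ∈ F.filter (fun v => z ∈ unC P f v), F1 v
      = ∑ v ∈ F.filter (fun v => v.2.1 = z), F1 v
        + ∑ v ∈ F.filter (fun v => P v.1 ∧ f v.1 = z), F1 v := by
  have h1 : F.filter (fun v => z ∈ unC P f v)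
      = F.filter (fun v => v.2.1 = z) ∪ F.filter (fun v => P v.1 ∧ f v.1 = z) := by
    ext v
    simp only [mem_filter, mem_union]
    unfold unC
    by_cases h2 : P v.1
    · rw [if_pos h2, mem_insert, mem_singleton]
      constructor
      · rintro ⟨h3, h4 | h4⟩
        · exact Or.inl ⟨h3, h4.symm⟩
        · exact Or.inr ⟨h3, h2, h4.symm⟩
      · rintro (⟨h3, h4⟩ | ⟨h3, -, h4⟩)
        · exact ⟨h3, Or.inl h4.symm⟩
        · exact ⟨h3, Or.inr h4.symm⟩
    · rw [if_neg h2, mem_singleton]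
      constructor
      · rintro ⟨h3, h4⟩
        exact Or.inl ⟨h3, h4.symm⟩
      · rintro (⟨h3, h4⟩ | ⟨-, h4, -⟩)
        · exact ⟨h3, h4.symm⟩
        · exact absurd h4 h2
  rw [h1, sum_union]
  rw [disjoint_left]
  intro v hv hv'
  obtain ⟨h2, h3⟩ := mem_filter.1 hv
  obtain ⟨-, h4, h5⟩ := mem_filter.1 hv'
  have h6 := hF h2
  exact Lv.main_cut H h6 (hP v.1 (LevC.mem_unV h6).1 h4) (h3.trans h5.symm)

/-- **the closing for a table `T`, `w` with hub units**: the row claim by the three roles -/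
theorem LevC.close_TW (Lv : LevC n U ho vl kp mn pc φ g f)
    (H : PCon R n t s mu U ho vl kp mn pc ar be kq NN sg nu) {P : ι → Prop}
    (hP : ∀ u ∈ U, P u → twoE vl kp g f u) {Hb : ι × ℕ × ℕ → Prop} {T w : ι × ℕ × ℕ → ℝ}
    (hHb : ∀ v ∈ unV n U g, Hb v → ¬ P v.1 ∧ (ho v.1 = 0 ∨ v.2.1 = 0))
    (hw : ∀ v ∈ unV n U g, ¬ P v.1 → w v = 0) {δ : ℕ → ℝ} {L : Finset ℕ}
    (hL : L = lightU n s (unV n U g) (unC P f)) {F : Finset (ι × ℕ × ℕ)}
    (hF : F = freeU (unV n U g) (fun v => ho v.1) (unC P f) L)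
    (h2 : ∀ z < n, z ∉ L →
      1 ≤ s z + (((unV n U g).filter fun v => z ∈ unC P f v).card : ℤ) →
      ∑ v ∈ F.filter (fun v => ho v.1 = z), (if Hb v then (if z = 0 then 0 else 1) else 1 - T v)
        + ∑ v ∈ F.filter (fun v => v.2.1 = z),
          (if Hb v then (if z = 0 then 0 else 1) else (1 - w v) * T v)
        + ∑ v ∈ F.filter (fun v => P v.1 ∧ f v.1 = z), w v * T v
        ≤ (mu z : ℝ) - s z + δ z)
    (h3 : ∑ i ∈ (range n).filter (fun i => i ∉ L), δ i < 1) : False := by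
  have hV := Lv.unp H
  have hFV : F ⊆ unV n U g := by
    rw [hF]
    exact filter_subset _ _
  subst hL
  refine H.close_sh (C := unC P f) (sh := shTW ho Hb T w) (δ := δ) hV
    (fun v hv i hi => (Lv.rows v hv i hi).1) ?_ ?_ h3
  · intro v hv
    have h4 := (mem_filter.1 hv).1
    exact (Lv.sum_shTW H hP h4 (hHb v h4) (hw v h4)).ge
  · intro z hz hzL hz1
    have h4 := h2 z hz hzL hz1
    rw [← hF]
    rw [Lv.sum_roles H hP hFV z]
    have e1 : ∑ v ∈ F.filter (fun v => ho v.1 = z), shTW ho Hb T w z v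
        = ∑ v ∈ F.filter (fun v => ho v.1 = z),
          (if Hb v then (if z = 0 then 0 else 1) else 1 - T v) := by
      refine sum_congr rfl fun v hv => ?_
      obtain ⟨-, h6⟩ := mem_filter.1 hv
      unfold shTW
      by_cases h7 : Hb v
      · rw [if_pos h7, if_pos h7]
      · rw [if_neg h7, if_neg h7, if_pos h6.symm]
    have e2 : ∑ v ∈ F.filter (fun v => v.2.1 = z), shTW ho Hb T w z v
        = ∑ v ∈ F.filter (fun v => v.2.1 = z),
          (if Hb v then (if z = 0 then 0 else 1) else (1 - w v) * T v) := by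
      refine sum_congr rfl fun v hv => ?_
      obtain ⟨h5, h6⟩ := mem_filter.1 hv
      have h8 := Lv.main_ne (hFV h5)
      unfold shTW
      by_cases h7 : Hb v
      · rw [if_pos h7, if_pos h7]
      · rw [if_neg h7, if_neg h7, if_neg, if_pos h6.symm]
        intro h9
        exact h8 (h6.trans h9)
    have e3 : ∑ v ∈ F.filter (fun v => P v.1 ∧ f v.1 = z), shTW ho Hb T w z v
        = ∑ v ∈ F.filter (fun v => P v.1 ∧ f v.1 = z), w v * T v := by
      refine sum_congr rfl fun v hv => ?_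
      obtain ⟨h5, h6, h7⟩ := mem_filter.1 hv
      have h8 := hFV h5
      have h9 := (LevC.mem_unV h8).1
      have h10 : ¬ Hb v := fun h => (hHb v h8 h).1 h6
      unfold shTW
      rw [if_neg h10, if_neg, if_neg]
      · intro h11
        exact Lv.main_cut H h8 (hP v.1 h9 h6) (h11.symm.trans h7.symm)
      · intro h11
        exact Lv.fh v.1 h9 (h7.trans h11)
    rw [e1, e2, e3]
    linarith

/-- the closing for a table `T`, `w` without hub units -/
theorem LevC.close_TW0 (Lv : LevC n U ho vl kp mn pc φ g f)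
    (H : PCon R n t s mu U ho vl kp mn pc ar be kq NN sg nu) {P : ι → Prop}
    (hP : ∀ u ∈ U, P u → twoE vl kp g f u) {T w : ι × ℕ × ℕ → ℝ}
    (hw : ∀ v ∈ unV n U g, ¬ P v.1 → w v = 0) {δ : ℕ → ℝ} {L : Finset ℕ}
    (hL : L = lightU n s (unV n U g) (unC P f)) {F : Finset (ι × ℕ × ℕ)}
    (hF : F = freeU (unV n U g) (fun v => ho v.1) (unC P f) L)
    (h2 : ∀ z < n, z ∉ L →
      1 ≤ s z + (((unV n U g).filter fun v => z ∈ unC P f v).card : ℤ) →
      ∑ v ∈ F.filter (fun v => ho v.1 = z), (1 - T v)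
        + ∑ v ∈ F.filter (fun v => v.2.1 = z), (1 - w v) * T v
        + ∑ v ∈ F.filter (fun v => P v.1 ∧ f v.1 = z), w v * T v
        ≤ (mu z : ℝ) - s z + δ z)
    (h3 : ∑ i ∈ (range n).filter (fun i => i ∉ L), δ i < 1) : False := by
  refine Lv.close_TW H hP (Hb := fun _ => False) (T := T) (w := w) (fun v _ h => h.elim) hw hL hF
    ?_ h3
  intro z hz hzL hz1
  simp only [if_false]
  exact h2 z hz hzL hz1

/-! ### RULE L -/

/-- the complement of the host: `T = A_x / (A_x + A_m) (1 - b_m / R)` -/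
noncomputable def TuL (R : ℤ) (t : ℕ → ℤ) (ho : ι → ℕ) (kp mn : ℕ → ι → ℤ) (g : ℕ → ι → ℕ)
    (v : ι × ℕ × ℕ) : ℝ :=
  ((t (ho v.1) : ℝ) + 1) / ((t (ho v.1) : ℝ) + 1 + ((t v.2.1 : ℝ) + 1))
    * (1 - (unb kp mn g v : ℝ) / (R : ℝ))

/-- the cut end is counted: value one, two ends, `3 h_o > 2 A_x` -/
def twoL (R : ℤ) (t : ℕ → ℤ) (ho : ι → ℕ) (vl : ι → ℤ) (kp mn : ℕ → ι → ℤ) (g : ℕ → ι → ℕ)
    (f : ι → ℕ) (u : ι) : Prop :=
  twoE vl kp g f u ∧ 2 * (t (ho u) + 1) < 3 * (R - (t (f u) + 1) - mn (f u) u)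

/-- `3 h_o - 2 A_x` -/
noncomputable def xoL (R : ℤ) (t : ℕ → ℤ) (ho : ι → ℕ) (mn : ℕ → ι → ℤ) (f : ι → ℕ)
    (v : ι × ℕ × ℕ) : ℝ :=
  ((3 * (R - (t (f v.1) + 1) - mn (f v.1) v.1) - 2 * (t (ho v.1) + 1) : ℤ) : ℝ)

/-- `3 h_m - 2 A_x` -/
noncomputable def xmL (R : ℤ) (t : ℕ → ℤ) (ho : ι → ℕ) (kp mn : ℕ → ι → ℤ) (g : ℕ → ι → ℕ)
    (v : ι × ℕ × ℕ) : ℝ :=
  ((3 * (R - (t v.2.1 + 1) - unb kp mn g v) - 2 * (t (ho v.1) + 1) : ℤ) : ℝ)

/-- the part of the cut end -/
noncomputable def woL (R : ℤ) (t : ℕ → ℤ) (ho : ι → ℕ) (vl : ι → ℤ) (kp mn : ℕ → ι → ℤ)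
    (g : ℕ → ι → ℕ) (f : ι → ℕ) (v : ι × ℕ × ℕ) : ℝ :=
  if twoL R t ho vl kp mn g f v.1
  then xoL R t ho mn f v / (xoL R t ho mn f v + xmL R t ho kp mn g v) else 0

lemma twoL_two {u : ι} (h : twoL R t ho vl kp mn g f u) : twoE vl kp g f u := h.1

lemma woL_zero {v : ι × ℕ × ℕ} (h : ¬ twoL R t ho vl kp mn g f v.1) :
    woL R t ho vl kp mn g f v = 0 := if_neg h

lemma R_pos (H : PCon R n t s mu U ho vl kp mn pc ar be kq NN sg nu) : 0 < R := by
  have h1 := H.tsum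
  have h2 : (n : ℤ) ≤ ∑ i ∈ range n, (t i + 1) := by
    have h3 : (range n).card • (1 : ℤ) ≤ ∑ i ∈ range n, (t i + 1) := by
      refine card_nsmul_le_sum _ _ _ fun l hl => ?_
      have h5 := H.t0 l (mem_range.1 hl)
      linarith
    rw [card_range, nsmul_eq_mul, mul_one] at h3
    exact h3
  have h3 : (5 : ℤ) ≤ n := by exact_mod_cast H.n5
  linarith

lemma TuL_nonneg (H : PCon R n t s mu U ho vl kp mn pc ar be kq NN sg nu) {v : ι × ℕ × ℕ}
    (hv : v ∈ unV n U g) : 0 ≤ TuL R t ho kp mn g v := by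
  obtain ⟨h1, h2, -⟩ := LevC.mem_unV hv
  have h3 : (0 : ℝ) ≤ t (ho v.1) := by exact_mod_cast H.t0 _ (H.hlt v.1 h1)
  have h4 : (0 : ℝ) ≤ t v.2.1 := by exact_mod_cast H.t0 _ h2
  have h5 := LevC.unb_le H hv
  have h6 : (0 : ℝ) < R := by exact_mod_cast R_pos H
  have h7 : (unb kp mn g v : ℝ) ≤ R := by
    have : unb kp mn g v ≤ R := by
      have := H.t0 _ h2
      linarith
    exact_mod_cast this
  unfold TuL
  refine mul_nonneg (by positivity) ?_
  rw [sub_nonneg, div_le_one h6]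
  exact h7

lemma TuL_lt_one (H : PCon R n t s mu U ho vl kp mn pc ar be kq NN sg nu) {v : ι × ℕ × ℕ}
    (hv : v ∈ unV n U g) : TuL R t ho kp mn g v < 1 := by
  obtain ⟨h1, h2, -⟩ := LevC.mem_unV hv
  have h3 : (0 : ℝ) ≤ t (ho v.1) := by exact_mod_cast H.t0 _ (H.hlt v.1 h1)
  have h4 : (0 : ℝ) ≤ t v.2.1 := by exact_mod_cast H.t0 _ h2
  have h5 : (0 : ℝ) ≤ unb kp mn g v := by exact_mod_cast LevC.unb_nonneg H hv
  have h6 : (0 : ℝ) < R := by exact_mod_cast R_pos H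
  have h8 : ((t (ho v.1) : ℝ) + 1) / ((t (ho v.1) : ℝ) + 1 + ((t v.2.1 : ℝ) + 1)) < 1 := by
    rw [div_lt_one (by linarith)]
    linarith
  have h9 : 0 ≤ (unb kp mn g v : ℝ) / (R : ℝ) := div_nonneg h5 h6.le
  have h10 : 0 ≤ ((t (ho v.1) : ℝ) + 1) / ((t (ho v.1) : ℝ) + 1 + ((t v.2.1 : ℝ) + 1)) := by
    positivity
  unfold TuL
  nlinarith

/-- for two counted ends the main end has at least as many hits -/
lemma LevC.xo_le (Lv : LevC n U ho vl kp mn pc (fun u i => t i + mn i u) g f)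
    (H : PCon R n t s mu U ho vl kp mn pc ar be kq NN sg nu) {v : ι × ℕ × ℕ}
    (hv : v ∈ unV n U g) (hp : twoL R t ho vl kp mn g f v.1) :
    0 < xoL R t ho mn f v ∧ xoL R t ho mn f v ≤ xmL R t ho kp mn g v := by
  obtain ⟨h1, h2, h3, h4, h5, h6, h7, h8, h9, h10, h11⟩ := Lv.two_facts H hv hp.1
  beta_reduce at h11
  have h12 : unb kp mn g v = mn v.2.1 v.1 := by
    rw [← h7]
    unfold unt
    rw [if_pos rfl]
  constructor
  · have h13 := hp.2
    unfold xoL
    exact_mod_cast (show 0 < 3 * (R - (t (f v.1) + 1) - mn (f v.1) v.1) - 2 * (t (ho v.1) + 1) by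
      linarith)
  · unfold xoL xmL
    rw [h12]
    exact_mod_cast (show 3 * (R - (t (f v.1) + 1) - mn (f v.1) v.1) - 2 * (t (ho v.1) + 1)
      ≤ 3 * (R - (t v.2.1 + 1) - mn v.2.1 v.1) - 2 * (t (ho v.1) + 1) by linarith)

lemma LevC.woL_nonneg (Lv : LevC n U ho vl kp mn pc (fun u i => t i + mn i u) g f)
    (H : PCon R n t s mu U ho vl kp mn pc ar be kq NN sg nu) {v : ι × ℕ × ℕ}
    (hv : v ∈ unV n U g) : 0 ≤ woL R t ho vl kp mn g f v := by
  unfold woL
  split_ifs with h1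
  · obtain ⟨h2, h3⟩ := Lv.xo_le H hv h1
    exact div_nonneg h2.le (by linarith)
  · exact le_rfl

lemma LevC.woL_le_half (Lv : LevC n U ho vl kp mn pc (fun u i => t i + mn i u) g f)
    (H : PCon R n t s mu U ho vl kp mn pc ar be kq NN sg nu) {v : ι × ℕ × ℕ}
    (hv : v ∈ unV n U g) : woL R t ho vl kp mn g f v ≤ 1 / 2 := by
  unfold woL
  split_ifs with h1
  · obtain ⟨h2, h3⟩ := Lv.xo_le H hv h1
    rw [div_le_iff₀ (by linarith)]
    linarith
  · norm_num

/-- **the closing for RULE L** -/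
theorem LevC.close_L (Lv : LevC n U ho vl kp mn pc φ g f)
    (H : PCon R n t s mu U ho vl kp mn pc ar be kq NN sg nu) {δ : ℕ → ℝ} {L : Finset ℕ}
    (hL : L = lightU n s (unV n U g) (unC (twoL R t ho vl kp mn g f) f))
    {F : Finset (ι × ℕ × ℕ)}
    (hF : F = freeU (unV n U g) (fun v => ho v.1) (unC (twoL R t ho vl kp mn g f) f) L)
    (h2 : ∀ z < n, z ∉ L →
      1 ≤ s z + (((unV n U g).filter fun v => z ∈ unC (twoL R t ho vl kp mn g f) f v).card : ℤ) →
      ∑ v ∈ F.filter (fun v => ho v.1 = z), (1 - TuL R t ho kp mn g v)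
        + ∑ v ∈ F.filter (fun v => v.2.1 = z),
          (1 - woL R t ho vl kp mn g f v) * TuL R t ho kp mn g v
        + ∑ v ∈ F.filter (fun v => twoL R t ho vl kp mn g f v.1 ∧ f v.1 = z),
          woL R t ho vl kp mn g f v * TuL R t ho kp mn g v
        ≤ (mu z : ℝ) - s z + δ z)
    (h3 : ∑ i ∈ (range n).filter (fun i => i ∉ L), δ i < 1) : False :=
  Lv.close_TW0 H (P := twoL R t ho vl kp mn g f) (fun _ _ h => h.1) (fun _ _ h => woL_zero h) hL hF
    h2 h3

/-- **the closing for RULE L with hub units** (`Hb`: one counted end, host or main end the hub `0`) -/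
theorem LevC.close_LH (Lv : LevC n U ho vl kp mn pc φ g f)
    (H : PCon R n t s mu U ho vl kp mn pc ar be kq NN sg nu) {Hb : ι × ℕ × ℕ → Prop}
    (hHb : ∀ v ∈ unV n U g, Hb v →
      ¬ twoL R t ho vl kp mn g f v.1 ∧ (ho v.1 = 0 ∨ v.2.1 = 0)) {δ : ℕ → ℝ} {L : Finset ℕ}
    (hL : L = lightU n s (unV n U g) (unC (twoL R t ho vl kp mn g f) f))
    {F : Finset (ι × ℕ × ℕ)}
    (hF : F = freeU (unV n U g) (fun v => ho v.1) (unC (twoL R t ho vl kp mn g f) f) L)
    (h2 : ∀ z < n, z ∉ L →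
      1 ≤ s z + (((unV n U g).filter fun v => z ∈ unC (twoL R t ho vl kp mn g f) f v).card : ℤ) →
      ∑ v ∈ F.filter (fun v => ho v.1 = z),
          (if Hb v then (if z = 0 then 0 else 1) else 1 - TuL R t ho kp mn g v)
        + ∑ v ∈ F.filter (fun v => v.2.1 = z),
          (if Hb v then (if z = 0 then 0 else 1)
            else (1 - woL R t ho vl kp mn g f v) * TuL R t ho kp mn g v)
        + ∑ v ∈ F.filter (fun v => twoL R t ho vl kp mn g f v.1 ∧ f v.1 = z),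
          woL R t ho vl kp mn g f v * TuL R t ho kp mn g v
        ≤ (mu z : ℝ) - s z + δ z)
    (h3 : ∑ i ∈ (range n).filter (fun i => i ∉ L), δ i < 1) : False :=
  Lv.close_TW H (P := twoL R t ho vl kp mn g f) (Hb := Hb) (fun _ _ h => h.1) hHb
    (fun _ _ h => woL_zero h) hL hF h2 h3

end TabTW

end Pool.Agent.Lib.MP_f04ccf_co
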