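import Pool.Agent.Lib.MP_f04ccf_co.M.RulQ

/-!
MP_f04ccf_co, TEXT D, middle range: **RULE Q with a factor for the clique units** (35's 18598, 71's 18660).

Items of value one: RULE Q (`TQ`, `smQ`, `scQ` of `RulQ`).  The other units (full, PC, clique): the main end pays
`TQt = W x / (W x + W m) * (1 - th b_m / (2 R))+`, `b_m = unb`; `th = 2` is the old factor, `th = 3` is `3 / 2`,
`th = 4` is `2`; for the full and the PC units `b_m = 0`.

* `LevC.close_QX`: the closing for RULE Q on the items of value one and **any** share `Tc` of the main end on the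
  other units; budget `δ` free; `LevC.close_QXC` over `PConC` with `δ z = A z / (R + 1)`;
* `TQt`, `smQt`, `LevC.close_Qt`, `LevC.close_QtC`;
* naturals: `qTt`, `qHt`, `LevC.one_eqt`, `LevC.host_eqt`, `LevC.host_eq2`, `LevC.smQt_two`.
-/

set_option autoImplicit false

namespace Pool.Agent.Lib.MP_f04ccf_co

open Finset

attribute [local instance] Classical.propDecidable

section RulQt

variable {ι : Type*} {R : ℤ} {n : ℕ} {t s mu : ℕ → ℤ} {U : Finset ι} {ho : ι → ℕ} {vl : ι → ℤ}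
  {kp mn : ℕ → ι → ℤ} {pc ar : ι → ℤ} {be kq NN sg : ℕ → ℕ → ℤ} {nu : ℕ → ι → ℤ}
  {φ : ι → ℕ → ℤ} {g : ℕ → ι → ℕ} {f : ι → ℕ} {W : ℕ → ℝ}

/-- **the closing for RULE Q on the items of value one**, any share `Tc` of the main end on the other units -/
theorem LevC.close_QX (Lv : LevC n U ho vl kp mn pc φ g f)
    (H : PCon R n t s mu U ho vl kp mn pc ar be kq NN sg nu) (W : ℕ → ℝ) (Tc : ι × ℕ × ℕ → ℝ)
    {δ : ℕ → ℝ} {L : Finset ℕ}
    (hL : L = lightU n s (unV n U g) (unC (twoE vl kp g f) f)) {F : Finset (ι × ℕ × ℕ)}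
    (hF : F = freeU (unV n U g) (fun v => ho v.1) (unC (twoE vl kp g f) f) L)
    (h2 : ∀ z < n, z ∉ L →
      1 ≤ s z + (((unV n U g).filter fun v => z ∈ unC (twoE vl kp g f) f v).card : ℤ) →
      ∑ v ∈ F.filter (fun v => ho v.1 = z),
          (1 - if twoE vl kp g f v.1 then TQ W R t ho vl kp mn g f v else Tc v)
        + ∑ v ∈ F.filter (fun v => v.2.1 = z),
          (if twoE vl kp g f v.1 then smQ W R t ho vl kp mn g f v else Tc v)
        + ∑ v ∈ F.filter (fun v => twoE vl kp g f v.1 ∧ f v.1 = z), scQ W R t ho vl kp mn g f v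
        ≤ (mu z : ℝ) - s z + δ z)
    (h3 : ∑ i ∈ (range n).filter (fun i => i ∉ L), δ i < 1) : False := by
  refine Lv.close_S3 H (P := twoE vl kp g f) (fun _ _ h => h)
    (sH := fun v => 1 - if twoE vl kp g f v.1 then TQ W R t ho vl kp mn g f v else Tc v)
    (sM := fun v => if twoE vl kp g f v.1 then smQ W R t ho vl kp mn g f v else Tc v)
    (sC := scQ W R t ho vl kp mn g f) hL hF (fun v _ => ?_) h2 h3
  by_cases h4 : twoE vl kp g f v.1
  · have h5 := smQ_add_scQ (W := W) (R := R) (t := t) (ho := ho) (mn := mn) h4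
    rw [if_pos h4, if_pos h4, if_pos h4]
    linarith
  · rw [if_neg h4, if_neg h4, if_neg h4]
    linarith

/-- **the same over `PConC`**, `δ z = A z / (R + 1)` -/
theorem LevC.close_QXC (Lv : LevC n U ho vl kp mn pc φ g f)
    (H : PConC R n t s mu U ho vl kp mn pc ar be kq NN sg nu) (W : ℕ → ℝ) (Tc : ι × ℕ × ℕ → ℝ)
    {L : Finset ℕ}
    (hL : L = lightU n s (unV n U g) (unC (twoE vl kp g f) f)) {F : Finset (ι × ℕ × ℕ)}
    (hF : F = freeU (unV n U g) (fun v => ho v.1) (unC (twoE vl kp g f) f) L)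
    (h2 : ∀ z < n, z ∉ L →
      1 ≤ s z + (((unV n U g).filter fun v => z ∈ unC (twoE vl kp g f) f v).card : ℤ) →
      ∑ v ∈ F.filter (fun v => ho v.1 = z),
          (1 - if twoE vl kp g f v.1 then TQ W R t ho vl kp mn g f v else Tc v)
        + ∑ v ∈ F.filter (fun v => v.2.1 = z),
          (if twoE vl kp g f v.1 then smQ W R t ho vl kp mn g f v else Tc v)
        + ∑ v ∈ F.filter (fun v => twoE vl kp g f v.1 ∧ f v.1 = z), scQ W R t ho vl kp mn g f v
        ≤ (mu z : ℝ) - s z + ((t z : ℝ) + 1) / ((R : ℝ) + 1)) : False :=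
  Lv.close_QX H.toPCon W Tc hL hF h2 (H.toPCon.sum_A_lt L)

/-- **the share which the host does not pay**, the factor `(1 - th b_m / (2 R))+` on the units of full, PC and clique
items -/
noncomputable def TQt (th : ℕ) (W : ℕ → ℝ) (R : ℤ) (t : ℕ → ℤ) (ho : ι → ℕ) (vl : ι → ℤ)
    (kp mn : ℕ → ι → ℤ) (g : ℕ → ι → ℕ) (f : ι → ℕ) (v : ι × ℕ × ℕ) : ℝ :=
  if twoE vl kp g f v.1 then TQ W R t ho vl kp mn g f v
  else W (ho v.1) / (W (ho v.1) + W v.2.1) * max 0 (1 - (th : ℝ) * (unb kp mn g v : ℝ) / (2 * (R : ℝ)))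

/-- **the part of the main end** -/
noncomputable def smQt (th : ℕ) (W : ℕ → ℝ) (R : ℤ) (t : ℕ → ℤ) (ho : ι → ℕ) (vl : ι → ℤ)
    (kp mn : ℕ → ι → ℤ) (g : ℕ → ι → ℕ) (f : ι → ℕ) (v : ι × ℕ × ℕ) : ℝ :=
  if twoE vl kp g f v.1 then smQ W R t ho vl kp mn g f v else TQt th W R t ho vl kp mn g f v

lemma TQt_two {th : ℕ} {v : ι × ℕ × ℕ} (h : twoE vl kp g f v.1) :
    TQt th W R t ho vl kp mn g f v = TQ W R t ho vl kp mn g f v := by
  unfold TQt
  exact if_pos h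

lemma smQt_two {th : ℕ} {v : ι × ℕ × ℕ} (h : twoE vl kp g f v.1) :
    smQt th W R t ho vl kp mn g f v = smQ W R t ho vl kp mn g f v := by
  unfold smQt
  exact if_pos h

lemma smQt_one {th : ℕ} {v : ι × ℕ × ℕ} (h : ¬ twoE vl kp g f v.1) :
    smQt th W R t ho vl kp mn g f v = TQt th W R t ho vl kp mn g f v := by
  unfold smQt
  exact if_neg h

lemma LevC.TQt_nonneg (Lv : LevC n U ho vl kp mn pc φ g f)
    (H : PCon R n t s mu U ho vl kp mn pc ar be kq NN sg nu) (hW : ∀ i < n, 0 < W i) {th : ℕ}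
    {v : ι × ℕ × ℕ} (hv : v ∈ unV n U g) : 0 ≤ TQt th W R t ho vl kp mn g f v := by
  unfold TQt
  split_ifs
  · exact Lv.TQ_nonneg H hW hv
  · obtain ⟨h1, h2, -⟩ := LevC.mem_unV hv
    have h5 := hW _ (H.hlt v.1 h1)
    have h6 := hW _ h2
    exact mul_nonneg (div_nonneg h5.le (by linarith)) (le_max_left _ _)

lemma LevC.smQt_nonneg (Lv : LevC n U ho vl kp mn pc φ g f)
    (H : PCon R n t s mu U ho vl kp mn pc ar be kq NN sg nu) (hW : ∀ i < n, 0 < W i) {th : ℕ}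
    {v : ι × ℕ × ℕ} (hv : v ∈ unV n U g) : 0 ≤ smQt th W R t ho vl kp mn g f v := by
  unfold smQt
  split_ifs
  · exact Lv.smQ_nonneg H hW hv
  · exact Lv.TQt_nonneg H hW hv

/-- **the closing for RULE Q with the clique factor** -/
theorem LevC.close_Qt (Lv : LevC n U ho vl kp mn pc φ g f)
    (H : PCon R n t s mu U ho vl kp mn pc ar be kq NN sg nu) (th : ℕ) (W : ℕ → ℝ)
    {δ : ℕ → ℝ} {L : Finset ℕ}
    (hL : L = lightU n s (unV n U g) (unC (twoE vl kp g f) f)) {F : Finset (ι × ℕ × ℕ)}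
    (hF : F = freeU (unV n U g) (fun v => ho v.1) (unC (twoE vl kp g f) f) L)
    (h2 : ∀ z < n, z ∉ L →
      1 ≤ s z + (((unV n U g).filter fun v => z ∈ unC (twoE vl kp g f) f v).card : ℤ) →
      ∑ v ∈ F.filter (fun v => ho v.1 = z), (1 - TQt th W R t ho vl kp mn g f v)
        + ∑ v ∈ F.filter (fun v => v.2.1 = z), smQt th W R t ho vl kp mn g f v
        + ∑ v ∈ F.filter (fun v => twoE vl kp g f v.1 ∧ f v.1 = z), scQ W R t ho vl kp mn g f v
        ≤ (mu z : ℝ) - s z + δ z)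
    (h3 : ∑ i ∈ (range n).filter (fun i => i ∉ L), δ i < 1) : False := by
  refine Lv.close_S3 H (P := twoE vl kp g f) (fun _ _ h => h)
    (sH := fun v => 1 - TQt th W R t ho vl kp mn g f v)
    (sM := smQt th W R t ho vl kp mn g f) (sC := scQ W R t ho vl kp mn g f) hL hF
    (fun v _ => ?_) h2 h3
  by_cases h4 : twoE vl kp g f v.1
  · have h5 := smQ_add_scQ (W := W) (R := R) (t := t) (ho := ho) (mn := mn) h4
    rw [if_pos h4, TQt_two h4, smQt_two h4]
    linarith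
  · rw [if_neg h4, smQt_one h4]
    linarith

/-- **the same over `PConC`**, `δ z = A z / (R + 1)` -/
theorem LevC.close_QtC (Lv : LevC n U ho vl kp mn pc φ g f)
    (H : PConC R n t s mu U ho vl kp mn pc ar be kq NN sg nu) (th : ℕ) (W : ℕ → ℝ) {L : Finset ℕ}
    (hL : L = lightU n s (unV n U g) (unC (twoE vl kp g f) f)) {F : Finset (ι × ℕ × ℕ)}
    (hF : F = freeU (unV n U g) (fun v => ho v.1) (unC (twoE vl kp g f) f) L)
    (h2 : ∀ z < n, z ∉ L →
      1 ≤ s z + (((unV n U g).filter fun v => z ∈ unC (twoE vl kp g f) f v).card : ℤ) →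
      ∑ v ∈ F.filter (fun v => ho v.1 = z), (1 - TQt th W R t ho vl kp mn g f v)
        + ∑ v ∈ F.filter (fun v => v.2.1 = z), smQt th W R t ho vl kp mn g f v
        + ∑ v ∈ F.filter (fun v => twoE vl kp g f v.1 ∧ f v.1 = z), scQ W R t ho vl kp mn g f v
        ≤ (mu z : ℝ) - s z + ((t z : ℝ) + 1) / ((R : ℝ) + 1)) : False :=
  Lv.close_Qt H.toPCon th W hL hF h2 (H.toPCon.sum_A_lt L)

end RulQt

/-! ### naturals -/

/-- the part of the main end of a full, PC or clique unit: host `X`, main end `(A, b)` -/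
def qTt (wt : ℕ → ℕ) (th R X A b : ℕ) : ℕ × ℕ := (wt X * (2 * R - th * b), (wt X + wt A) * (2 * R))

/-- the part of the host of a full, PC or clique unit -/
def qHt (wt : ℕ → ℕ) (th R X A b : ℕ) : ℕ × ℕ :=
  (wt A * (2 * R) + wt X * min (th * b) (2 * R), (wt X + wt A) * (2 * R))

section RulQtN

variable {ι : Type*} {R : ℤ} {n : ℕ} {t s mu : ℕ → ℤ} {U : Finset ι} {ho : ι → ℕ} {vl : ι → ℤ}
  {kp mn : ℕ → ι → ℤ} {pc ar : ι → ℤ} {be kq NN sg : ℕ → ℕ → ℤ} {nu : ℕ → ι → ℤ}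
  {φ : ι → ℕ → ℤ} {g : ℕ → ι → ℕ} {f : ι → ℕ} {W : ℕ → ℝ} {wt : ℕ → ℕ}

lemma max_sub_real {th Rn b : ℕ} (hR : 0 < Rn) :
    max (0 : ℝ) (1 - (th : ℝ) * (b : ℝ) / (2 * (Rn : ℝ))) = ((2 * Rn - th * b : ℕ) : ℝ) / (2 * (Rn : ℝ)) := by
  have h1 : (0 : ℝ) < 2 * Rn := by
    have : (0 : ℝ) < Rn := by exact_mod_cast hR
    linarith
  rcases Nat.le_total (th * b) (2 * Rn) with h2 | h2
  · have h3 : (th : ℝ) * b ≤ 2 * Rn := by exact_mod_cast h2
    rw [Nat.cast_sub h2, max_eq_right, one_sub_div h1.ne']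
    · push_cast
      ring
    · rw [sub_nonneg, div_le_one h1]
      exact h3
  · have h3 : 2 * (Rn : ℝ) ≤ th * b := by exact_mod_cast h2
    rw [Nat.sub_eq_zero_of_le h2, Nat.cast_zero, zero_div, max_eq_left]
    rw [sub_nonpos, one_le_div h1]
    exact h3

lemma qTt_real {th Rn X A b : ℕ} (hR : 0 < Rn) :
    (wt X : ℝ) / (wt X + wt A) * max 0 (1 - (th : ℝ) * (b : ℝ) / (2 * (Rn : ℝ)))
      = ((qTt wt th Rn X A b).1 : ℝ) / (qTt wt th Rn X A b).2 := by
  unfold qTt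
  show (wt X : ℝ) / (wt X + wt A) * max 0 (1 - (th : ℝ) * (b : ℝ) / (2 * (Rn : ℝ)))
    = ((wt X * (2 * Rn - th * b) : ℕ) : ℝ) / (((wt X + wt A) * (2 * Rn) : ℕ) : ℝ)
  rw [max_sub_real hR, Nat.cast_mul, Nat.cast_mul, Nat.cast_add, div_mul_div_comm, Nat.cast_mul]
  push_cast
  rfl

lemma qHt_real {th Rn X A b : ℕ} (hR : 0 < Rn) (hX : 0 < wt X) :
    1 - (wt X : ℝ) / (wt X + wt A) * max 0 (1 - (th : ℝ) * (b : ℝ) / (2 * (Rn : ℝ)))
      = ((qHt wt th Rn X A b).1 : ℝ) / (qHt wt th Rn X A b).2 := by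
  have h1 : (0 : ℝ) < Rn := by exact_mod_cast hR
  have h2 : (0 : ℝ) < wt X := by exact_mod_cast hX
  have h3 : (0 : ℝ) ≤ wt A := Nat.cast_nonneg _
  have h4 : (wt X : ℝ) + wt A ≠ 0 := by positivity
  rw [max_sub_real hR]
  unfold qHt
  show 1 - (wt X : ℝ) / (wt X + wt A) * (((2 * Rn - th * b : ℕ) : ℝ) / (2 * (Rn : ℝ)))
    = ((wt A * (2 * Rn) + wt X * min (th * b) (2 * Rn) : ℕ) : ℝ) / (((wt X + wt A) * (2 * Rn) : ℕ) : ℝ)
  have h5 : ((2 * Rn - th * b : ℕ) : ℝ) = 2 * Rn - ((min (th * b) (2 * Rn) : ℕ) : ℝ) := by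
    have h6 : 2 * Rn - th * b + min (th * b) (2 * Rn) = 2 * Rn := by omega
    have h7 : ((2 * Rn - th * b : ℕ) : ℝ) + ((min (th * b) (2 * Rn) : ℕ) : ℝ) = 2 * Rn := by
      exact_mod_cast h6
    linarith
  rw [h5]
  obtain ⟨m, hm⟩ : ∃ m : ℕ, m = min (th * b) (2 * Rn) := ⟨_, rfl⟩
  rw [← hm]
  push_cast
  field_simp
  ring

/-- **full, PC and clique units: the part of the main end** -/
theorem LevC.one_eqt (_ : LevC n U ho vl kp mn pc φ g f)
    (H : PCon R n t s mu U ho vl kp mn pc ar be kq NN sg nu)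
    (hW : ∀ i < n, W i = wt (t i + 1).toNat) {th : ℕ} {v : ι × ℕ × ℕ} (hv : v ∈ unV n U g)
    (hp : ¬ twoE vl kp g f v.1) :
    smQt th W R t ho vl kp mn g f v
      = ((qTt wt th R.toNat (t (ho v.1) + 1).toNat (t v.2.1 + 1).toNat (unb kp mn g v).toNat).1 : ℝ)
        / (qTt wt th R.toNat (t (ho v.1) + 1).toNat (t v.2.1 + 1).toNat (unb kp mn g v).toNat).2 := by
  obtain ⟨h1, h2, -⟩ := LevC.mem_unV hv
  have h5 := R_pos H
  rw [smQt_one hp, ← qTt_real (by omega), castN (LevC.unb_nonneg H hv), castN h5.le]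
  unfold TQt
  rw [if_neg hp, hW _ (H.hlt v.1 h1), hW _ h2]

/-- **full, PC and clique units: the part of the host** -/
theorem LevC.host_eqt (_ : LevC n U ho vl kp mn pc φ g f)
    (H : PCon R n t s mu U ho vl kp mn pc ar be kq NN sg nu)
    (hW : ∀ i < n, W i = wt (t i + 1).toNat) (hw0 : ∀ i < n, 0 < wt (t i + 1).toNat) {th : ℕ}
    {v : ι × ℕ × ℕ} (hv : v ∈ unV n U g) (hp : ¬ twoE vl kp g f v.1) :
    1 - TQt th W R t ho vl kp mn g f v
      = ((qHt wt th R.toNat (t (ho v.1) + 1).toNat (t v.2.1 + 1).toNat (unb kp mn g v).toNat).1 : ℝ)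
        / (qHt wt th R.toNat (t (ho v.1) + 1).toNat (t v.2.1 + 1).toNat (unb kp mn g v).toNat).2 := by
  obtain ⟨h1, h2, -⟩ := LevC.mem_unV hv
  have h5 := R_pos H
  have h7 := H.hlt v.1 h1
  rw [← qHt_real (by omega) (hw0 _ h7), castN (LevC.unb_nonneg H hv), castN h5.le]
  unfold TQt
  rw [if_neg hp, hW _ h7, hW _ h2]

end RulQtN

end Pool.Agent.Lib.MP_f04ccf_co
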