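import Pool.Agent.Lib.MP_f04ccf_co.M.RulH

/-!
MP_f04ccf_co, TEXT D, regime H (`R < 2 (t 0 + 1)`, the hub is the row `0`): **the table Z and its closing.**

Letters: `A i = t i + 1`, `C = R - A 0`, `x` the host, `m` the main end, `f` the cut end of a unit, `b = unb` the
misses at the main end; `phiH`, `cutE`, `hubC` as in `RulH`.

* `TzH` = the share which the host does not pay: host `0`: `1 - 3 C / (4 R)` for the items with a cut end (value one
  or clique), else `1`; host `x ≠ 0`: main end `0`: `0`; `hubC`: `A x * mn 0 u / (C (R - A x))`; value one: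
  `A x / (A x + A m + b)`; cliques: `A x / (A x + A m) * (1 - b / (R - A m))`, but for a clique with cut end `0` the
  unit with the most misses (`lastC`) has `A x * min (mn 0 u) C / (C (R - A x)) * (1 - b / (R - A m))`;
* `wzH`: for `hubC` and `s 0 < mu 0` it is `b / (R - A m)`, else `0`. The host pays `1 - T`, the main end `(1 - w) T`,
  for `hubC` the hub `w T`;
* `LevC.close_Z`: the closing for any budgets; `LevC.close_Z3`: budgets `A z / (C + 3)`, hub `(5 / 2) / (C + 3)`.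
-/

set_option autoImplicit false

namespace Pool.Agent.Lib.MP_f04ccf_co

open Finset

attribute [local instance] Classical.propDecidable

section RulZS

variable {ι : Type*} {R : ℤ} {n : ℕ} {t s mu : ℕ → ℤ} {U : Finset ι} {ho : ι → ℕ} {vl : ι → ℤ}
  {kp mn : ℕ → ι → ℤ} {pc ar : ι → ℤ} {be kq NN sg : ℕ → ℕ → ℤ} {nu : ℕ → ι → ℤ}
  {ψ : ι → ℕ → ℤ} {g : ℕ → ι → ℕ} {f : ι → ℕ}

/-- the unit of its item with the most misses (ties: the larger end, the larger piece) -/
def lastC (n : ℕ) (U : Finset ι) (kp mn : ℕ → ι → ℤ) (g : ℕ → ι → ℕ) (v : ι × ℕ × ℕ) : Prop :=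
  ∀ v' ∈ unV n U g, v'.1 = v.1 →
    unb kp mn g v' < unb kp mn g v ∨ (unb kp mn g v' = unb kp mn g v ∧
      (v'.2.1 < v.2.1 ∨ (v'.2.1 = v.2.1 ∧ v'.2.2 ≤ v.2.2)))

/-- **the share which the host does not pay, table Z** -/
noncomputable def TzH (R : ℤ) (n : ℕ) (t : ℕ → ℤ) (U : Finset ι) (ho : ι → ℕ) (vl : ι → ℤ)
    (kp mn : ℕ → ι → ℤ) (g : ℕ → ι → ℕ) (f : ι → ℕ) (v : ι × ℕ × ℕ) : ℝ :=
  if ho v.1 = 0 then
    (if cutE kp g f v.1 then 1 - 3 * ((R : ℝ) - (t 0 + 1)) / (4 * R) else 1)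
  else if v.2.1 = 0 then 0
  else if hubC ho vl kp g f v.1 then
    ((t (ho v.1) : ℝ) + 1) * mn 0 v.1 / (((R : ℝ) - (t 0 + 1)) * ((R : ℝ) - (t (ho v.1) + 1)))
  else if vl v.1 = 1 then
    ((t (ho v.1) : ℝ) + 1) / ((t (ho v.1) : ℝ) + 1 + ((t v.2.1 : ℝ) + 1 + unb kp mn g v))
  else if f v.1 = 0 ∧ cutE kp g f v.1 ∧ lastC n U kp mn g v then
    ((t (ho v.1) : ℝ) + 1) * ((min (mn 0 v.1) (R - (t 0 + 1)) : ℤ) : ℝ)
      / (((R : ℝ) - (t 0 + 1)) * ((R : ℝ) - (t (ho v.1) + 1)))
    * (1 - (unb kp mn g v : ℝ) / ((R : ℝ) - (t v.2.1 + 1)))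
  else ((t (ho v.1) : ℝ) + 1) / ((t (ho v.1) : ℝ) + 1 + ((t v.2.1 : ℝ) + 1))
    * (1 - (unb kp mn g v : ℝ) / ((R : ℝ) - (t v.2.1 + 1)))

/-- the part of the hub in the share of a unit `hubC`, zero if `mu 0 = s 0` -/
noncomputable def wzH (R : ℤ) (t s mu : ℕ → ℤ) (ho : ι → ℕ) (vl : ι → ℤ) (kp mn : ℕ → ι → ℤ)
    (g : ℕ → ι → ℕ) (f : ι → ℕ) (v : ι × ℕ × ℕ) : ℝ :=
  if hubC ho vl kp g f v.1 ∧ s 0 < mu 0 then
    (unb kp mn g v : ℝ) / ((R : ℝ) - (t v.2.1 + 1)) else 0

/-- **the closing of regime H with the table Z, with a budget for every row** -/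
theorem LevC.close_Z (Lv : LevC n U ho vl kp mn pc (phiH R n t ho vl mn ψ) g f)
    (H : PCon R n t s mu U ho vl kp mn pc ar be kq NN sg nu)
    {L : Finset ℕ} (hL : L = lightU n s (unV n U g) (unC (hubC ho vl kp g f) f))
    {F : Finset (ι × ℕ × ℕ)}
    (hF : F = freeU (unV n U g) (fun v => ho v.1) (unC (hubC ho vl kp g f) f) L) {δ : ℕ → ℝ}
    (hub : 0 ∉ L →
      1 ≤ s 0 + (((unV n U g).filter fun v => 0 ∈ unC (hubC ho vl kp g f) f v).card : ℤ) →
      3 * ((R : ℝ) - (t 0 + 1)) / (4 * R)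
          * ((F.filter fun v => ho v.1 = 0 ∧ cutE kp g f v.1).card : ℝ)
        + (if s 0 < mu 0 then ∑ v ∈ F.filter (fun v => hubC ho vl kp g f v.1),
          (unb kp mn g v : ℝ) / ((R : ℝ) - (t v.2.1 + 1))
            * (((t (ho v.1) : ℝ) + 1) * mn 0 v.1
              / (((R : ℝ) - (t 0 + 1)) * ((R : ℝ) - (t (ho v.1) + 1)))) else 0)
        ≤ (mu 0 : ℝ) - s 0 + δ 0)
    (row : ∀ z < n, z ≠ 0 → z ∉ L →
      1 ≤ s z + (((unV n U g).filter fun v => v.2.1 = z).card : ℤ) →
      ∑ v ∈ F.filter (fun v => ho v.1 = z), (1 - TzH R n t U ho vl kp mn g f v)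
        + ∑ v ∈ F.filter (fun v => v.2.1 = z),
          (1 - wzH R t s mu ho vl kp mn g f v) * TzH R n t U ho vl kp mn g f v
        ≤ (mu z : ℝ) - s z + δ z)
    (hδ : ∀ z < n, 0 ≤ δ z) (hδ1 : ∑ z ∈ range n, δ z < 1) : False := by
  have hFV : F ⊆ unV n U g := by
    rw [hF]
    exact filter_subset _ _
  refine Lv.close_TW0 H (P := hubC ho vl kp g f) (fun _ _ h => h.1)
    (T := TzH R n t U ho vl kp mn g f) (w := wzH R t s mu ho vl kp mn g f)
    (fun v _ h => by unfold wzH; exact if_neg fun h' => h h'.1)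
    (δ := δ) hL hF ?_ ?_
  · intro z hz hzL hz1
    by_cases h0 : z = 0
    · subst h0
      have h2 := hub hzL hz1
      have e2 : ∑ v ∈ F.filter (fun v => ho v.1 = 0), (1 - TzH R n t U ho vl kp mn g f v)
          = 3 * ((R : ℝ) - (t 0 + 1)) / (4 * R)
            * ((F.filter fun v => ho v.1 = 0 ∧ cutE kp g f v.1).card : ℝ) := by
        have e3 : ∑ v ∈ F.filter (fun v => ho v.1 = 0 ∧ cutE kp g f v.1),
            3 * ((R : ℝ) - (t 0 + 1)) / (4 * R)
            = 3 * ((R : ℝ) - (t 0 + 1)) / (4 * R)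
              * ((F.filter fun v => ho v.1 = 0 ∧ cutE kp g f v.1).card : ℝ) := by
          rw [sum_const, nsmul_eq_mul]
          ring
        rw [← e3, ← filter_filter, sum_filter (s := F.filter _)]
        refine sum_congr rfl fun v hv => ?_
        have h3 := (mem_filter.1 hv).2
        unfold TzH
        rw [if_pos h3]
        split_ifs <;> ring
      have e3 : ∑ v ∈ F.filter (fun v => v.2.1 = 0),
          (1 - wzH R t s mu ho vl kp mn g f v) * TzH R n t U ho vl kp mn g f v = 0 := by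
        refine sum_eq_zero fun v hv => ?_
        obtain ⟨h3, h4⟩ := mem_filter.1 hv
        have h5 := Lv.main_ne (hFV h3)
        rw [h4] at h5
        unfold TzH
        rw [if_neg (Ne.symm h5), if_pos h4, mul_zero]
      have e4 : ∑ v ∈ F.filter (fun v => hubC ho vl kp g f v.1 ∧ f v.1 = 0),
            wzH R t s mu ho vl kp mn g f v * TzH R n t U ho vl kp mn g f v
          = if s 0 < mu 0 then ∑ v ∈ F.filter (fun v => hubC ho vl kp g f v.1),
          (unb kp mn g v : ℝ) / ((R : ℝ) - (t v.2.1 + 1))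
            * (((t (ho v.1) : ℝ) + 1) * mn 0 v.1
              / (((R : ℝ) - (t 0 + 1)) * ((R : ℝ) - (t (ho v.1) + 1)))) else 0 := by
        by_cases hd : s 0 < mu 0
        · rw [if_pos hd]
          refine sum_congr (filter_congr fun v _ => ⟨fun h => h.1, fun h => ⟨h, h.2.2⟩⟩)
            fun v hv => ?_
          obtain ⟨h3, h4⟩ := mem_filter.1 hv
          have h5 := Lv.two_main H (hFV h3) h4.1 h4.2.1
          unfold wzH TzH
          rw [if_pos ⟨h4, hd⟩, if_neg h4.2.1, if_neg h5, if_pos h4]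
        · rw [if_neg hd]
          refine sum_eq_zero fun v _ => ?_
          unfold wzH
          rw [if_neg fun h => hd h.2, zero_mul]
      rw [e2, e3, e4, add_zero]
      exact h2
    · have e0 : ∑ v ∈ F.filter (fun v => hubC ho vl kp g f v.1 ∧ f v.1 = z),
          wzH R t s mu ho vl kp mn g f v * TzH R n t U ho vl kp mn g f v = 0 := by
        refine sum_eq_zero fun v hv => ?_
        obtain ⟨-, h4, h5⟩ := mem_filter.1 hv
        exact absurd (h5.symm.trans h4.2.2) h0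
      rw [e0, add_zero]
      refine row z hz h0 hzL ?_
      have e1 : (unV n U g).filter (fun v => z ∈ unC (hubC ho vl kp g f) f v)
          = (unV n U g).filter fun v => v.2.1 = z := by
        refine filter_congr fun v _ => ?_
        unfold unC
        by_cases h6 : hubC ho vl kp g f v.1
        · rw [if_pos h6, mem_insert, mem_singleton, h6.2.2]
          exact ⟨fun h => h.elim (fun h => h.symm) fun h => absurd h h0, fun h => Or.inl h.symm⟩
        · rw [if_neg h6, mem_singleton]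
          exact ⟨fun h => h.symm, fun h => h.symm⟩
      rw [e1] at hz1
      exact hz1
  · have h1 : ∑ i ∈ (range n).filter (fun i => i ∉ L), δ i ≤ ∑ i ∈ range n, δ i :=
      sum_le_sum_of_subset_of_nonneg (filter_subset _ _) fun i hi _ => hδ i (mem_range.1 hi)
    linarith

/-- **the closing of regime H with the table Z and the budgets `A z / (C + 3)`, hub `(5 / 2) / (C + 3)`** -/
theorem LevC.close_Z3 (Lv : LevC n U ho vl kp mn pc (phiH R n t ho vl mn ψ) g f)
    (H : PCon R n t s mu U ho vl kp mn pc ar be kq NN sg nu)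
    {L : Finset ℕ} (hL : L = lightU n s (unV n U g) (unC (hubC ho vl kp g f) f))
    {F : Finset (ι × ℕ × ℕ)}
    (hF : F = freeU (unV n U g) (fun v => ho v.1) (unC (hubC ho vl kp g f) f) L)
    (hub : 0 ∉ L →
      1 ≤ s 0 + (((unV n U g).filter fun v => 0 ∈ unC (hubC ho vl kp g f) f v).card : ℤ) →
      3 * ((R : ℝ) - (t 0 + 1)) / (4 * R)
          * ((F.filter fun v => ho v.1 = 0 ∧ cutE kp g f v.1).card : ℝ)
        + (if s 0 < mu 0 then ∑ v ∈ F.filter (fun v => hubC ho vl kp g f v.1),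
          (unb kp mn g v : ℝ) / ((R : ℝ) - (t v.2.1 + 1))
            * (((t (ho v.1) : ℝ) + 1) * mn 0 v.1
              / (((R : ℝ) - (t 0 + 1)) * ((R : ℝ) - (t (ho v.1) + 1)))) else 0)
        ≤ (mu 0 : ℝ) - s 0 + (5 / 2) / ((R : ℝ) - (t 0 + 1) + 3))
    (row : ∀ z < n, z ≠ 0 → z ∉ L →
      1 ≤ s z + (((unV n U g).filter fun v => v.2.1 = z).card : ℤ) →
      ∑ v ∈ F.filter (fun v => ho v.1 = z), (1 - TzH R n t U ho vl kp mn g f v)
        + ∑ v ∈ F.filter (fun v => v.2.1 = z),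
          (1 - wzH R t s mu ho vl kp mn g f v) * TzH R n t U ho vl kp mn g f v
        ≤ (mu z : ℝ) - s z + ((t z : ℝ) + 1) / ((R : ℝ) - (t 0 + 1) + 3)) : False := by
  refine Lv.close_Z H hL hF (δ := budH R t) ?_ ?_ (sum_budH3 H).1 (sum_budH3 H).2
  · intro h1 h2
    have h3 := hub h1 h2
    unfold budH
    rw [if_pos rfl]
    exact h3
  · intro z hz h0 hzL hz1
    have h3 := row z hz h0 hzL hz1
    unfold budH
    rw [if_neg h0]
    exact h3

end RulZS

end Pool.Agent.Lib.MP_f04ccf_co
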