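import Pool.Agent.Lib.MP_f04ccf_co.M.PayK
import Pool.Agent.Lib.MP_f04ccf_co.M.SameT

/-!
MP_f04ccf_co, PLAN W: the row test with columns, cell of the row paid (helper94's `WCoreK.cellP`) AND the
same-host saving (note 17113) together.
`WCoreK.rowN`: the paid row test with the missing pairs of the points kept.
`WCoreK.rowcP_sameI`: over the basic integers.
-/

set_option autoImplicit false

namespace Pool.Agent.Lib.MP_f04ccf_co

open Finset

attribute [local instance] Classical.propDecidable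

section SameP

variable {V : Type*} {G : SimpleGraph V} {Z T : Finset V} {hm : V → V} {r m n p : ℕ}
  {B : V → Finset (V × V)} {Ps : V → Finset (Finset V)}

/-- **the row test with columns, the cell paid, the missing pairs kept** -/
theorem WCoreK.rowN (hp : 2 * r ≤ p) (h : WCoreK G Z T r m n p hm)
    (hB : ∀ x ∈ T, Pk G (cz G Z T hm x) (hz G Z T hm x) (tlo G T hm) (B x) (Ps x))
    {z y : V} (hz' : z ∈ T) (hy : y ∈ T) (hzy : z ≠ y) {K : Finset (Itm V)}
    (hK : K ⊆ (T.erase z).biUnion fun x => pkf (B x) (Ps x))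
    (hk : ∀ u ∈ K, ikp (tlo G T hm) z u ≠ 0)
    {X : Finset V → Finset V} (hX : ∀ Q, X Q ⊆ oth (tlo G T hm) z Q) :
    RowN G Z T hm r (fun x => Z.filter fun v => hm v = x) (fun x => pkf (B x) (Ps x)) K X z y
      (2 * (nxk G (cz G Z T hm z) (hz G Z T hm z) (tlo G T hm) (B z) y
        + pfw G (cz G Z T hm z) (tlo G T hm) (B z) y)) := by
  have hfam : ∀ x ∈ T, Fam (co G) (cz G Z T hm) (hz G Z T hm) (tlo G T hm) x
      (pkf (B x) (Ps x)) := fun x hx => (hB x hx).fam (h.csys.dCH hx hx).symm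
  have h1 := Fam.rowN_of h.F.toPFrame h.gp.P h.csys h.wsysT hfam hz' hy hzy hK hk hX
    (F := cz G Z T hm z \ (pcz (tlo G T hm) y (pkf (B z) (Ps z))).image Prod.snd)
    sdiff_subset (fun e he h2 => (mem_sdiff.1 h2).2 (mem_image_of_mem _ he))
  exact h1.mono (h.cellP hp hB hz' hy hzy hK hk hX)

/-- **T+ with the cell paid and the same-host saving, over the basic integers** (`q x` = number of the used
items of the host `x` whose load is their value, without the PC pairs for `x = j`) -/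
theorem WCoreK.rowcP_sameI (hp : 2 * r ≤ p) (h : WCoreK G Z T r m n p hm)
    {host : Itm V → V} {ρ : V → ℕ} {σ : ℕ → V}
    (hpk : ∀ x ∈ T, Pk G (cz G Z T hm x) (hz G Z T hm x) (tlo G T hm) (B x) (Ps x))
    (min : ∀ x ∈ T, ∀ B' Ps', Pk G (cz G Z T hm x) (hz G Z T hm x) (tlo G T hm) B' Ps' →
      (Ps x).card ≤ Ps'.card)
    (hst : ∀ x ∈ T, ∀ u ∈ pkf (B x) (Ps x), host u = x)
    (rk : Rank T (tI G Z T hm r Z) ρ σ) {i j : ℕ} (hi : i < n) (hj : j < n) (hij : i ≠ j)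
    {K : Finset (Itm V)}
    (hK : K ⊆ T.biUnion fun x => pkf (B x) (Ps x)) (hKh : ∀ u ∈ K, ρ (host u) ≠ i)
    (h0 : 0 ≤ sI hm r Z (σ i) + ∑ u ∈ K, (ikp (tlo G T hm) (σ i) u : ℤ)) :
    2 * ((r : ℤ) - 1) * sI hm r Z (σ i)
      + 2 * ∑ u ∈ K, ((ikp (tlo G T hm) (σ i) u : ℤ) * ((r : ℤ) - 1 - tI G Z T hm r Z (σ i))
        - (rmr G (cz G Z T hm) (tlo G T hm) (σ i) u : ℤ))
      + 2 * ∑ u ∈ (T.biUnion fun x => pkf (B x) (Ps x)).filter (fun u => ρ (host u) = i),
        ((ikp (tlo G T hm) (σ j) u : ℤ) * ((r : ℤ) - 1 - tI G Z T hm r Z (σ j))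
          - (ims G (cz G Z T hm) (tlo G T hm) (σ j) u : ℤ))
      + 2 * (nxk G (cz G Z T hm (σ i)) (hz G Z T hm (σ i)) (tlo G T hm) (B (σ i)) (σ j)
        + pfw G (cz G Z T hm (σ i)) (tlo G T hm) (B (σ i)) (σ j))
      + ∑ x ∈ range n, ((K.filter fun u => ρ (host u) = x
            ∧ (ikp (tlo G T hm) (σ i) u : ℤ) = (ivl u : ℤ) ∧ (x = j → ipc u = 0)).card : ℤ)
          * (((K.filter fun u => ρ (host u) = x
            ∧ (ikp (tlo G T hm) (σ i) u : ℤ) = (ivl u : ℤ) ∧ (x = j → ipc u = 0)).card : ℤ) - 1)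
      ≤ 2 * eI G hm Z (σ i)
        + 2 * (∑ u ∈ K, (2 * (ikp (tlo G T hm) (σ i) u : ℤ)
          - if ρ (host u) = j then (ipc u : ℤ) * (ikp (tlo G T hm) (σ i) u : ℤ) else 0)
          + ((r : ℤ) - 1 - tI G Z T hm r Z (σ j))) * (sI hm r Z (σ i) + 1)
        + (∑ u ∈ K, (2 * (ikp (tlo G T hm) (σ i) u : ℤ)
          - if ρ (host u) = j then (ipc u : ℤ) * (ikp (tlo G T hm) (σ i) u : ℤ) else 0))
          * (∑ u ∈ K, (2 * (ikp (tlo G T hm) (σ i) u : ℤ)
          - if ρ (host u) = j then (ipc u : ℤ) * (ikp (tlo G T hm) (σ i) u : ℤ) else 0) - 1)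
        + 2 * ∑ u ∈ K, (if ρ (host u) = j then (iar G (cz G Z T hm (host u)) u : ℤ)
          else 2 * ((r : ℤ) - 1 - tI G Z T hm r Z (σ j)) * (ikp (tlo G T hm) (σ i) u : ℤ))
        + 2 * (∑ u ∈ K, (if ρ (host u) = j then
          (ipc u : ℤ) * (ikp (tlo G T hm) (σ i) u : ℤ) else 0))
          * pcn (tlo G T hm) B (σ i) (σ j) := by
  have hcard := h.cardT
  have hmem : ∀ i < n, σ i ∈ T := fun i hi => rk.mem i (by rw [hcard]; exact hi)
  have hne : σ i ≠ σ j := fun h1 =>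
    hij (rk.sinj (by rw [hcard]; exact hi) (by rw [hcard]; exact hj) h1)
  have hK' : K ⊆ (T.erase (σ i)).biUnion fun x => pkf (B x) (Ps x) := by
    intro u hu
    obtain ⟨x, hx, hux⟩ := mem_biUnion.1 (hK hu)
    refine mem_biUnion.2 ⟨x, mem_erase.2 ⟨fun h1 => hKh u hu ?_, hx⟩, hux⟩
    show ρ (host u) = i
    rw [hst x hx u hux, h1]
    exact rk.right i (by rw [hcard]; exact hi)
  exact h.toWHom.rowc_sameI hpk min hst rk hi hj hij hK hKh h0
    (h.rowN hp hpk (hmem i hi) (hmem j hj) hne ((filter_subset _ _).trans hK')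
      (fun u hu => (mem_filter.1 hu).2) (fun Q => one1_sub _))

end SameP

end Pool.Agent.Lib.MP_f04ccf_co
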