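import Pool.Agent.Lib.MP_f04ccf_co.M.RowU
import Pool.Agent.Lib.MP_f04ccf_co.M.SvM

/-!
MP_f04ccf_co, PLAN W: closed forms of the savings `SavI` (helper55) of missing pairs.

* `savI_svM`: Mantel's saving `svM` is a saving `SavI` (classes: the items of one host with all loads at
  the row; every other item alone);
* `svM_best`: the best integers `a x`: `2 svM ≥ ∑ (2 q (q - 1) - 2 f (f - 1) + w (w - 2))`;
* `savI_same`, `savI_items`: the simple forms, per host and per item;
* `savI_col`: the form with the PC pairs of the hosts in `J`.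
-/

set_option autoImplicit false

namespace Pool.Agent.Lib.MP_f04ccf_co

open Finset

attribute [local instance] Classical.propDecidable

section SavM

variable {ι : Type*} {n : ℕ} {ho : ι → ℕ} {vl : ι → ℤ} {kp : ℕ → ι → ℤ} {pc : ι → ℤ} {i : ℕ}
  {J : Finset ℕ} {K : Finset ι}

lemma SavI.mono {sv sv' : ℤ} (h : SavI n ho vl kp pc i J K sv) (h' : sv' ≤ sv) :
    SavI n ho vl kp pc i J K sv' := by
  obtain ⟨cl, M, q, I, h1, h2, h3⟩ := h
  exact ⟨cl, M, q, I, h1, h2, h'.trans h3⟩

/-- **Mantel's saving is a saving** -/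
theorem savI_svM (hi : i < n) (hho : ∀ u ∈ K, ho u < n) (hv : ∀ u ∈ K, 1 ≤ vl u) (a : ℕ → ℤ) :
    SavI n ho vl kp pc i J K (svM n K ho vl kp pc J i a) := by
  obtain ⟨g, hg⟩ := Set.countable_iff_exists_injOn.1 K.countable_toSet
  obtain ⟨fl, hfl⟩ : ∃ fl : ι → Prop, ∀ u, fl u ↔ (kp i u = vl u ∧ ∀ l < n, l ≠ i → kp l u = 0) :=
    ⟨_, fun _ => Iff.rfl⟩
  obtain ⟨cl, hcl⟩ : ∃ cl : ι → ℕ, ∀ u, cl u = if fl u then ho u else n + g u :=
    ⟨_, fun _ => rfl⟩
  have hclf : ∀ u, fl u → cl u = ho u := fun u h => by rw [hcl, if_pos h]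
  have hcln : ∀ u, ¬ fl u → cl u = n + g u := fun u h => by rw [hcl, if_neg h]
  refine ⟨cl, n, fun c => if c < n then a c else 0, fun c => if c < n then {c, i} else ∅,
    fun c => ?_, fun u hu hk hq => ?_, ?_⟩
  · dsimp only
    split_ifs with h1
    · intro x hx
      rcases mem_insert.1 hx with h2 | h2
      · rw [h2]
        exact mem_range.2 h1
      · rw [mem_singleton.1 h2]
        exact mem_range.2 hi
    · exact empty_subset _
  · have h1 : cl u < n := by
      by_contra h1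
      exact hq (by simp only [if_neg h1])
    have h2 : fl u := by
      by_contra h2
      rw [hcln u h2] at h1
      omega
    simp only [if_pos h1]
    refine ⟨?_, fun l hl hkl => ?_⟩
    · rw [hclf u h2]
      exact mem_insert_self _ _
    · by_cases h3 : l = i
      · rw [h3]
        exact mem_insert_of_mem (mem_singleton_self _)
      · exact absurd (((hfl u).1 h2).2 l hl h3) hkl
  · obtain ⟨F, hF⟩ : ∃ F, F = K.filter fun u => kp i u = vl u ∧ (ho u ∈ J → pc u = 0) := ⟨_, rfl⟩
    obtain ⟨N, hN⟩ : ∃ N, N = F.filter fun u => fl u := ⟨_, rfl⟩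
    obtain ⟨D1, hD1⟩ : ∃ D1, D1 = (F ×ˢ F).filter fun e => e.1 ≠ e.2 ∧ ho e.1 = ho e.2 :=
      ⟨_, rfl⟩
    obtain ⟨D2, hD2⟩ : ∃ D2, D2 = (N ×ˢ N).filter fun e => e.1 ≠ e.2 ∧ ho e.1 = ho e.2 :=
      ⟨_, rfl⟩
    have hFK : F ⊆ K := by
      rw [hF]
      exact filter_subset _ _
    have hNF : N ⊆ F := by
      rw [hN]
      exact filter_subset _ _
    have e9 : ∀ s s' : Finset (ι × ι), (∀ e, e ∈ s ↔ e ∈ s') →
        (s.card : ℤ) = (s'.card : ℤ) := fun s s' h => by rw [Finset.ext h]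
    have c1 : (D1.card : ℤ) = ∑ x ∈ range n, ((F.filter fun u => ho u = x).card : ℤ)
        * (((F.filter fun u => ho u = x).card : ℤ) - 1) := by
      rw [← card_same F ho (range n) fun u hu => mem_range.2 (hho u (hFK hu))]
      exact e9 _ _ fun e => by simp only [hD1, mem_filter]
    have c2 : (D2.card : ℤ) = ∑ x ∈ range n, ((N.filter fun u => ho u = x).card : ℤ)
        * (((N.filter fun u => ho u = x).card : ℤ) - 1) := by
      rw [← card_same N ho (range n) fun u hu => mem_range.2 (hho u (hFK (hNF hu)))]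
      exact e9 _ _ fun e => by simp only [hD2, mem_filter]
    have c3 : D2 ⊆ D1 := by
      intro e he
      rw [hD2] at he
      rw [hD1]
      obtain ⟨h1, h2⟩ := mem_filter.1 he
      obtain ⟨h3, h4⟩ := mem_product.1 h1
      exact mem_filter.2 ⟨mem_product.2 ⟨hNF h3, hNF h4⟩, h2⟩
    have c4 : ((D1 \ D2).card : ℤ) = (D1.card : ℤ) - D2.card := by
      rw [card_sdiff_of_subset c3, Nat.cast_sub (card_le_card c3)]
    have c5 : D1 \ D2 ⊆ (K ×ˢ K).filter fun e => e.1 ≠ e.2 ∧ ho e.1 = ho e.2 ∧ cl e.1 ≠ cl e.2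
        ∧ kp i e.1 = vl e.1 ∧ kp i e.2 = vl e.2 ∧ (ho e.1 ∈ J → pc e.1 = 0 ∧ pc e.2 = 0) := by
      intro e he
      obtain ⟨he1, he2⟩ := mem_sdiff.1 he
      rw [hD1] at he1
      obtain ⟨h1, h2, h3⟩ := mem_filter.1 he1
      obtain ⟨ha, hb⟩ := mem_product.1 h1
      have ha' := ha
      have hb' := hb
      rw [hF] at ha' hb'
      obtain ⟨a1, a2, a3⟩ := mem_filter.1 ha'
      obtain ⟨b1, b2, b3⟩ := mem_filter.1 hb'
      refine mem_filter.2 ⟨mem_product.2 ⟨a1, b1⟩, h2, h3, fun h4 => ?_, a2, b2,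
        fun h4 => ⟨a3 h4, b3 (h3 ▸ h4)⟩⟩
      by_cases f1 : fl e.1
      · by_cases f2 : fl e.2
        · refine he2 ?_
          rw [hD2, hN]
          exact mem_filter.2 ⟨mem_product.2 ⟨mem_filter.2 ⟨ha, f1⟩, mem_filter.2 ⟨hb, f2⟩⟩, h2, h3⟩
        · rw [hclf _ f1, hcln _ f2] at h4
          have := hho e.1 a1
          omega
      · by_cases f2 : fl e.2
        · rw [hcln _ f1, hclf _ f2] at h4
          have := hho e.2 b1
          omega
        · rw [hcln _ f1, hcln _ f2] at h4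
          exact h2 (hg a1 b1 (by omega))
    have c6 : ((D1 \ D2).card : ℤ) ≤ (((K ×ˢ K).filter fun e => e.1 ≠ e.2 ∧ ho e.1 = ho e.2
        ∧ cl e.1 ≠ cl e.2 ∧ kp i e.1 = vl e.1 ∧ kp i e.2 = vl e.2
        ∧ (ho e.1 ∈ J → pc e.1 = 0 ∧ pc e.2 = 0)).card : ℤ) := by
      exact_mod_cast card_le_card c5
    have f1 : ∀ x, svq K ho vl kp pc J i x = ((F.filter fun u => ho u = x).card : ℤ) := by
      intro x
      unfold svq
      have : (K.filter fun u => ho u = x ∧ kp i u = vl u ∧ (x ∈ J → pc u = 0))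
          = F.filter fun u => ho u = x := by
        ext u
        simp only [hF, mem_filter]
        constructor
        · rintro ⟨h1, h2, h3, h4⟩
          exact ⟨⟨h1, h3, fun h5 => h4 (h2 ▸ h5)⟩, h2⟩
        · rintro ⟨⟨h1, h3, h4⟩, h2⟩
          exact ⟨h1, h2, h3, fun h5 => h4 (h2.symm ▸ h5)⟩
      rw [this]
    have f2 : ∀ x, svf n K ho vl kp pc J i x = ((N.filter fun u => ho u = x).card : ℤ) := by
      intro x
      unfold svf
      have : (K.filter fun u => ho u = x ∧ kp i u = vl u ∧ (x ∈ J → pc u = 0)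
          ∧ ∀ l < n, l ≠ i → kp l u = 0) = N.filter fun u => ho u = x := by
        ext u
        simp only [hF, hN, mem_filter, hfl]
        constructor
        · rintro ⟨h1, h2, h3, h4, h6⟩
          exact ⟨⟨⟨h1, h3, fun h5 => h4 (h2 ▸ h5)⟩, h3, h6⟩, h2⟩
        · rintro ⟨⟨⟨h1, h3, h4⟩, -, h6⟩, h2⟩
          exact ⟨h1, h2, h3, fun h5 => h4 (h2.symm ▸ h5), h6⟩
      rw [this]
    have f3 : ∀ x ∈ range n, svw n K ho vl kp pc J i x
        = ∑ u ∈ K.filter (fun u => kp i u ≠ 0 ∧ cl u = x),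
          (kp i u + 1 - if ho u ∈ J then pc u else 0) := by
      intro x hx
      have hx' := mem_range.1 hx
      unfold svw
      have : (K.filter fun u => ho u = x ∧ kp i u = vl u ∧ ∀ l < n, l ≠ i → kp l u = 0)
          = K.filter (fun u => kp i u ≠ 0 ∧ cl u = x) := by
        ext u
        simp only [mem_filter]
        constructor
        · rintro ⟨h1, h2, h3, h4⟩
          refine ⟨h1, ?_, ?_⟩
          · have := hv u h1
            rw [h3]
            omega
          · rw [hclf u ((hfl u).2 ⟨h3, h4⟩), h2]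
        · rintro ⟨h1, -, h3⟩
          have h4 : fl u := by
            by_contra h4
            rw [hcln u h4] at h3
            omega
          rw [hclf u h4] at h3
          exact ⟨h1, h3, ((hfl u).1 h4).1, ((hfl u).1 h4).2⟩
      rw [this]
      refine sum_congr rfl fun u hu => ?_
      rw [← this] at hu
      obtain ⟨-, h2, h3, -⟩ := mem_filter.1 hu
      rw [h2, h3]
    refine le_trans ?_ (add_le_add le_rfl c6)
    rw [c4, c1, c2, ← sum_sub_distrib, ← sum_add_distrib]
    unfold svM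
    refine sum_le_sum fun x hx => ?_
    have hx' := mem_range.1 hx
    rw [← f1, ← f2, ← f3 x hx]
    simp only [if_pos hx']
    have h1 : ((({x, i} : Finset ℕ).card : ℤ)) ≤ 2 := by exact_mod_cast card_le_two
    have h4 : (0 : ℤ) ≤ a x * (a x + 1) := by
      rcases le_or_gt 0 (a x) with h5 | h5
      · positivity
      · nlinarith
    nlinarith

/-- **the best integers** `a x = ⌊(w - 1) / 2⌋` -/
theorem svM_best :
    ∑ x ∈ range n, (2 * (svq K ho vl kp pc J i x * (svq K ho vl kp pc J i x - 1))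
      - 2 * (svf n K ho vl kp pc J i x * (svf n K ho vl kp pc J i x - 1))
      + svw n K ho vl kp pc J i x * (svw n K ho vl kp pc J i x - 2))
      ≤ 2 * svM n K ho vl kp pc J i fun x => (svw n K ho vl kp pc J i x - 1) / 2 := by
  unfold svM
  rw [mul_sum]
  refine sum_le_sum fun x _ => ?_
  beta_reduce
  generalize svf n K ho vl kp pc J i x = f
  generalize svw n K ho vl kp pc J i x = w
  generalize svq K ho vl kp pc J i x = q
  obtain ⟨c, hc⟩ : ∃ c, c = (w - 1) / 2 := ⟨_, rfl⟩
  rw [← hc]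
  have h1 : w = 2 * c + 1 ∨ w = 2 * c + 2 := by omega
  rcases h1 with h1 | h1
  · subst h1
    nlinarith
  · subst h1
    nlinarith

/-- **twice the pairs**: `q x` the used items of the host `x` whose load is their value, `f x` those with all
loads at the row -/
theorem savI_same (hi : i < n) (hho : ∀ u ∈ K, ho u < n) (hv : ∀ u ∈ K, 1 ≤ vl u)
    (hp : ∀ u ∈ K, 0 ≤ pc u ∧ pc u ≤ 1) :
    SavI n ho vl kp pc i J K
      (∑ x ∈ range n, (svq K ho vl kp pc J i x * (svq K ho vl kp pc J i x - 1)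
        + svf n K ho vl kp pc J i x * (svf n K ho vl kp pc J i x - 1))) :=
  (savI_svM hi hho hv _).mono (svM_same n K ho vl kp pc J i hv hp)

/-- the pairs of the classes as a sum over the items -/
lemma sum_card_items (F : Finset ι) (hF : ∀ u ∈ F, ho u < n) :
    ∑ x ∈ range n, ((F.filter fun u => ho u = x).card : ℤ)
        * (((F.filter fun u => ho u = x).card : ℤ) - 1)
      = ∑ u ∈ F, (((F.filter fun v => ho v = ho u).card : ℤ) - 1) := by
  rw [← sum_fiberwise_of_maps_to (g := ho) (t := range n) fun u hu => mem_range.2 (hF u hu)]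
  refine sum_congr rfl fun x _ => ?_
  rw [← nsmul_eq_mul, ← sum_const]
  refine sum_congr rfl fun u hu => ?_
  rw [(mem_filter.1 hu).2]

/-- **the simple form per item**: every used item with all points (not a PC pair of a host in `J`) saves the
number of the other ones of its host, and once more if all its loads are at the row -/
theorem savI_items (hi : i < n) (hho : ∀ u ∈ K, ho u < n) (hv : ∀ u ∈ K, 1 ≤ vl u)
    (hp : ∀ u ∈ K, 0 ≤ pc u ∧ pc u ≤ 1) :
    SavI n ho vl kp pc i J K
      (∑ u ∈ K.filter (fun u => kp i u = vl u ∧ (ho u ∈ J → pc u = 0)),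
          (svq K ho vl kp pc J i (ho u) - 1)
        + ∑ u ∈ K.filter (fun u => kp i u = vl u ∧ (ho u ∈ J → pc u = 0)
            ∧ ∀ l < n, l ≠ i → kp l u = 0),
          (svf n K ho vl kp pc J i (ho u) - 1)) := by
  have e1 : ∀ x, svq K ho vl kp pc J i x = (((K.filter fun u => kp i u = vl u
      ∧ (ho u ∈ J → pc u = 0)).filter fun u => ho u = x).card : ℤ) := by
    intro x
    unfold svq
    rw [filter_filter]
    have : (K.filter fun u => ho u = x ∧ kp i u = vl u ∧ (x ∈ J → pc u = 0))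
        = K.filter fun u => (kp i u = vl u ∧ (ho u ∈ J → pc u = 0)) ∧ ho u = x := by
      ext u
      simp only [mem_filter]
      constructor
      · rintro ⟨h1, h2, h3, h4⟩
        exact ⟨h1, ⟨h3, fun h5 => h4 (h2 ▸ h5)⟩, h2⟩
      · rintro ⟨h1, ⟨h3, h4⟩, h2⟩
        exact ⟨h1, h2, h3, fun h5 => h4 (h2.symm ▸ h5)⟩
    rw [this]
  have e2 : ∀ x, svf n K ho vl kp pc J i x = (((K.filter fun u => kp i u = vl u
      ∧ (ho u ∈ J → pc u = 0) ∧ ∀ l < n, l ≠ i → kp l u = 0).filter fun u => ho u = x).card : ℤ) := by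
    intro x
    unfold svf
    rw [filter_filter]
    have : (K.filter fun u => ho u = x ∧ kp i u = vl u ∧ (x ∈ J → pc u = 0)
        ∧ ∀ l < n, l ≠ i → kp l u = 0)
        = K.filter fun u => (kp i u = vl u ∧ (ho u ∈ J → pc u = 0)
          ∧ ∀ l < n, l ≠ i → kp l u = 0) ∧ ho u = x := by
      ext u
      simp only [mem_filter]
      constructor
      · rintro ⟨h1, h2, h3, h4, h6⟩
        exact ⟨h1, ⟨h3, fun h5 => h4 (h2 ▸ h5), h6⟩, h2⟩
      · rintro ⟨h1, ⟨h3, h4, h6⟩, h2⟩
        exact ⟨h1, h2, h3, fun h5 => h4 (h2.symm ▸ h5), h6⟩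
    rw [this]
  refine (savI_same hi hho hv hp).mono (le_of_eq ?_)
  rw [sum_add_distrib]
  simp only [e1, e2]
  rw [sum_card_items _ fun u hu => hho u (mem_filter.1 hu).1,
    sum_card_items _ fun u hu => hho u (mem_filter.1 hu).1]

end SavM

end Pool.Agent.Lib.MP_f04ccf_co
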