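import Pool.Agent.Lib.MP_f04ccf_co.M.ShRowP

/-!
MP_f04ccf_co, TEXT S: certificates with any real weights.  `w0 z` the weight of the row test of `z` (used
items `K0 z`), `w z x` the weight of the row test of `z` with the columns of `x`, own cell paid (used
items `K1 z x`), `d = mu - s`, `c = R - t`.

* `ItE.rowG`, `ItE.sumG`: the same with any inequalities of the two kinds (`V`, `W` and losses free: tests
  with savings, without N, with rectangles);
* `ItE.rowAll`: one row, `d`-form: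
  `2 w0 (c mu + hits) + 2 ∑ w (c mu + hits + hits of z at x - cx (mu + 1)) - w0 V (V + 1) - ∑ w W (W + 1)
    ≤ 2 (w0 (R - V) + ∑ w (tx - W)) d + N`;
* `ItE.sumAll`: the sum over all rows if `R w0 z + ∑ t x w z x + p z = C` for every row, item by item.
-/

set_option autoImplicit false

namespace Pool.Agent.Lib.MP_f04ccf_co

open Finset

attribute [local instance] Classical.propDecidable

section ShAll

variable {ι : Type*}

/-- the hits of the used items `K` at the row `z` (misses `mr`) -/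
noncomputable def hu (R : ℤ) (t : ℕ → ℤ) (kp mr : ℕ → ι → ℤ) (K : Finset ι) (z : ℕ) : ℝ :=
  ∑ u ∈ K, ((kp z u : ℝ) * ((R : ℝ) - t z) - mr z u)

/-- all hits of the items hosted at `z` at the row `x` -/
noncomputable def hh (R : ℤ) (t : ℕ → ℤ) (U : Finset ι) (ho : ι → ℕ) (kp ms : ℕ → ι → ℤ)
    (z x : ℕ) : ℝ :=
  ∑ u ∈ U.filter (fun u => ho u = z), ((kp x u : ℝ) * ((R : ℝ) - t x) - ms x u)

/-- the PC items used in a row test with the columns of `x` -/
noncomputable def qu (ho : ι → ℕ) (kp : ℕ → ι → ℤ) (pc : ι → ℤ) (K : Finset ι) (z x : ℕ) : ℝ :=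
  ∑ u ∈ K, (if ho u = x then (pc u : ℝ) * kp z u else 0)

/-- the losses of a row test with the columns of `x`: arcs of the items of `x`, columns seen twice by the
other items, copies -/
noncomputable def lu (R : ℤ) (t : ℕ → ℤ) (ho : ι → ℕ) (kp : ℕ → ι → ℤ) (be : ℕ → ℕ → ℤ)
    (pc ar : ι → ℤ) (K : Finset ι) (z x : ℕ) : ℝ :=
  2 * ∑ u ∈ K, (if ho u = x then (ar u : ℝ) else 2 * ((R : ℝ) - t x) * kp z u)
    + 2 * (qu ho kp pc K z x * be z x)

/-- the value of an item in the certificate with the weights `a`, `w` and the constant `C` -/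
noncomputable def valA (R : ℤ) (n : ℕ) (t : ℕ → ℤ) (ho : ι → ℕ) (vl : ι → ℤ) (kp ms mr : ℕ → ι → ℤ)
    (a : ℕ → ℝ) (w : ℕ → ℕ → ℝ) (C : ℝ) (K : ℕ → Finset ι) (K' : ℕ → ℕ → Finset ι) (u : ι) : ℝ :=
  (vl u : ℝ) * (a (ho u) * ((R : ℝ) - t (ho u))
      + ∑ x ∈ (range n).erase (ho u), w (ho u) x * ((t x : ℝ) - t (ho u)) - C)
    + ∑ x ∈ (range n).erase (ho u), w (ho u) x * ((kp x u : ℝ) * ((R : ℝ) - t x) - ms x u)
    + ∑ z ∈ (range n).erase (ho u), ((if u ∈ K z then a z else 0)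
        + ∑ x ∈ (range n).erase z, if u ∈ K' z x then w z x else 0)
      * ((kp z u : ℝ) * ((R : ℝ) - t z) - mr z u)

/-- a sum over the used items of all rows, item by item -/
lemma sum_used {n : ℕ} {U : Finset ι} {ho : ι → ℕ} {K : ℕ → Finset ι} (hK : ∀ z < n, K z ⊆ U)
    (hKn : ∀ z < n, ∀ u ∈ K z, ho u ≠ z) (g : ℕ → ℝ) (f : ℕ → ι → ℝ) :
    ∑ z ∈ range n, g z * ∑ u ∈ K z, f z u
      = ∑ u ∈ U, ∑ z ∈ (range n).erase (ho u), (if u ∈ K z then g z else 0) * f z u := by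
  have h1 : ∀ z ∈ range n, g z * ∑ u ∈ K z, f z u
      = ∑ u ∈ U, (if u ∈ K z then g z else 0) * f z u := by
    intro z hz
    have h2 : K z = U.filter fun u => u ∈ K z := by
      ext u
      rw [mem_filter]
      exact ⟨fun h3 => ⟨hK z (mem_range.1 hz) h3, h3⟩, fun h3 => h3.2⟩
    calc g z * ∑ u ∈ K z, f z u = ∑ u ∈ K z, g z * f z u := mul_sum _ _ _
      _ = ∑ u ∈ U.filter (fun u => u ∈ K z), g z * f z u := by rw [← h2]
      _ = ∑ u ∈ U, if u ∈ K z then g z * f z u else 0 := sum_filter _ _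
      _ = _ := sum_congr rfl fun u _ => by split_ifs <;> ring
  rw [sum_congr rfl h1, sum_comm]
  refine sum_congr rfl fun u _ => ?_
  refine (sum_subset (erase_subset _ _) fun z hz hz' => ?_).symm
  have h3 : z = ho u := by
    by_contra h4
    exact hz' (mem_erase.2 ⟨h4, hz⟩)
  have h4 : u ∉ K z := fun h5 => hKn z (mem_range.1 hz) u h5 h3.symm
  rw [if_neg h4, zero_mul]

/-- a sum over the hosted items of all rows, item by item -/
lemma sum_host {n : ℕ} {U : Finset ι} {ho : ι → ℕ} (hlt : ∀ u ∈ U, ho u < n) (g : ℕ → ℝ)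
    (f : ℕ → ι → ℝ) :
    ∑ z ∈ range n, g z * ∑ u ∈ U.filter (fun u => ho u = z), f z u
      = ∑ u ∈ U, g (ho u) * f (ho u) u := by
  have h1 : ∀ z ∈ range n, g z * ∑ u ∈ U.filter (fun u => ho u = z), f z u
      = ∑ u ∈ U.filter (fun u => ho u = z), g (ho u) * f (ho u) u := by
    intro z _
    rw [mul_sum]
    refine sum_congr rfl fun u hu => ?_
    rw [(mem_filter.1 hu).2]
  rw [sum_congr rfl h1]
  exact sum_fiberwise_of_maps_to (fun u hu => mem_range.2 (hlt u hu)) fun u => g (ho u) * f (ho u) u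

variable {R : ℤ} {n : ℕ} {t s h e : ℕ → ℤ} {E : ℕ → ℕ → ℤ} {U : Finset ι} {ho : ι → ℕ}
  {vl : ι → ℤ} {kp ms mr : ℕ → ι → ℤ} {mu Nb : ℕ → ℤ} {Nx : ℕ → ℕ → ℤ}
  {be : ℕ → ℕ → ℤ} {pc ar : ι → ℤ} {pw : ℕ → ℕ → ℤ}

namespace ItE

/-- T in `d`-form over the reals -/
theorem shTR (H : ItE R n t s h e E U ho vl kp ms mr mu Nb Nx) {z : ℕ} (hz : z < n) {K : Finset ι}
    (hK : K ⊆ U) (hKn : ∀ u ∈ K, ho u ≠ z) {V : ℝ}
    (hV : V = (mu z : ℝ) + 2 * ∑ u ∈ K, (kp z u : ℝ)) :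
    2 * (((R : ℝ) - t z) * mu z + hu R t kp mr K z) - V * (V + 1)
      ≤ 2 * (((R : ℝ) - V) * ((mu z : ℝ) - s z))
        + ((Nb z : ℝ) + 2 * ∑ x ∈ (range n).erase z, (Nx z x : ℝ)) := by
  have h1 := H.shT hz hK hKn rfl
  have h2 : ((2 * ((R - t z) * mu z + ∑ u ∈ K, (kp z u * (R - t z) - mr z u))
      - (mu z + 2 * ∑ u ∈ K, kp z u) * ((mu z + 2 * ∑ u ∈ K, kp z u) + 1) : ℤ) : ℝ)
      ≤ ((2 * ((R - (mu z + 2 * ∑ u ∈ K, kp z u)) * (mu z - s z))
        + (Nb z + 2 * ∑ x ∈ (range n).erase z, Nx z x) : ℤ) : ℝ) := by exact_mod_cast h1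
  push_cast at h2
  rw [hV]
  unfold hu
  linarith

/-- T+ paid in `d`-form over the reals, any used items -/
theorem shPR (H : ItE R n t s h e E U ho vl kp ms mr mu Nb Nx) {z x : ℕ} (hz : z < n) (hx : x < n)
    (hzx : z ≠ x) {K : Finset ι} {sv : ℤ}
    (hc : ColP R t s e U ho kp ms mr Nx be pc ar pw z x K sv) {W : ℝ}
    (hW : W = (mu z : ℝ) + (2 * ∑ u ∈ K, (kp z u : ℝ) - qu ho kp pc K z x)) :
    2 * (((R : ℝ) - t z) * mu z + hu R t kp mr K z)
      + 2 * (hh R t U ho kp ms z x - ((R : ℝ) - t x) * ((mu z : ℝ) + 1))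
      + 2 * (pw z x : ℝ) + sv - W * (W + 1)
      ≤ 2 * (((t x : ℝ) - W) * ((mu z : ℝ) - s z))
        + ((Nb z : ℝ) + 2 * ∑ y ∈ ((range n).erase z).erase x, (Nx z y : ℝ)
          + lu R t ho kp be pc ar K z x) := by
  have h1 := H.shPP hz hx hzx hc rfl rfl
  have h2 : ((2 * ((R - t z) * mu z + ∑ u ∈ K, (kp z u * (R - t z) - mr z u))
      + 2 * (∑ u ∈ U.filter (fun u => ho u = z), (kp x u * (R - t x) - ms x u)
        - (R - t x) * (mu z + 1)) + 2 * pw z x + sv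
      - (mu z + (2 * ∑ u ∈ K, kp z u - ∑ u ∈ K, (if ho u = x then pc u * kp z u else 0)))
        * ((mu z + (2 * ∑ u ∈ K, kp z u - ∑ u ∈ K, (if ho u = x then pc u * kp z u else 0))) + 1)
      : ℤ) : ℝ)
      ≤ ((2 * ((t x - (mu z + (2 * ∑ u ∈ K, kp z u
          - ∑ u ∈ K, (if ho u = x then pc u * kp z u else 0)))) * (mu z - s z))
        + (Nb z + 2 * ∑ y ∈ ((range n).erase z).erase x, Nx z y
          + 2 * ∑ u ∈ K, (if ho u = x then ar u else 2 * (R - t x) * kp z u)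
          + 2 * ((∑ u ∈ K, (if ho u = x then pc u * kp z u else 0)) * be z x)) : ℤ) : ℝ) := by
    exact_mod_cast h1
  push_cast at h2
  rw [hW]
  unfold hu hh lu qu
  linarith

/-- **one row, any weights, any two kinds of tests**: `a` the weight of the row test (used items `K`,
numbers `V`, losses `Nt`), `w x` the weight of the row test with the columns of `x` (`K' x`, `W x`, `Np x`) -/
theorem rowG (_H : ItE R n t s h e E U ho vl kp ms mr mu Nb Nx) {z : ℕ}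
    {a : ℝ} (ha : 0 ≤ a) {w : ℕ → ℝ} (hw : ∀ x < n, x ≠ z → 0 ≤ w x)
    {K : Finset ι} {K' : ℕ → Finset ι} {V Nt : ℝ} {W Np : ℕ → ℝ}
    (hT : 2 * (((R : ℝ) - t z) * mu z + hu R t kp mr K z) - V * (V + 1)
      ≤ 2 * (((R : ℝ) - V) * ((mu z : ℝ) - s z)) + Nt)
    (hP : ∀ x < n, x ≠ z → 2 * (((R : ℝ) - t z) * mu z + hu R t kp mr (K' x) z)
      + 2 * (hh R t U ho kp ms z x - ((R : ℝ) - t x) * ((mu z : ℝ) + 1)) - W x * (W x + 1)
      ≤ 2 * (((t x : ℝ) - W x) * ((mu z : ℝ) - s z)) + Np x) :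
    2 * a * (((R : ℝ) - t z) * mu z + hu R t kp mr K z)
      + ∑ x ∈ (range n).erase z, w x * (2 * (((R : ℝ) - t z) * mu z + hu R t kp mr (K' x) z)
        + 2 * (hh R t U ho kp ms z x - ((R : ℝ) - t x) * ((mu z : ℝ) + 1)))
      - (a * (V * (V + 1)) + ∑ x ∈ (range n).erase z, w x * (W x * (W x + 1)))
      ≤ 2 * ((a * ((R : ℝ) - V) + ∑ x ∈ (range n).erase z, w x * ((t x : ℝ) - W x))
          * ((mu z : ℝ) - s z))
        + a * Nt + ∑ x ∈ (range n).erase z, w x * Np x := by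
  have h1 := mul_le_mul_of_nonneg_left hT ha
  have h2 : ∑ x ∈ (range n).erase z, w x * (2 * (((R : ℝ) - t z) * mu z + hu R t kp mr (K' x) z)
        + 2 * (hh R t U ho kp ms z x - ((R : ℝ) - t x) * ((mu z : ℝ) + 1)) - W x * (W x + 1))
      ≤ ∑ x ∈ (range n).erase z, w x * (2 * (((t x : ℝ) - W x) * ((mu z : ℝ) - s z)) + Np x) := by
    refine sum_le_sum fun x hx => ?_
    obtain ⟨h3, h4⟩ := mem_erase.1 hx
    exact mul_le_mul_of_nonneg_left (hP x (mem_range.1 h4) h3) (hw x (mem_range.1 h4) h3)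
  have e1 : ∑ x ∈ (range n).erase z, w x * (2 * (((R : ℝ) - t z) * mu z + hu R t kp mr (K' x) z)
        + 2 * (hh R t U ho kp ms z x - ((R : ℝ) - t x) * ((mu z : ℝ) + 1)) - W x * (W x + 1))
      = ∑ x ∈ (range n).erase z, w x * (2 * (((R : ℝ) - t z) * mu z + hu R t kp mr (K' x) z)
        + 2 * (hh R t U ho kp ms z x - ((R : ℝ) - t x) * ((mu z : ℝ) + 1)))
        - ∑ x ∈ (range n).erase z, w x * (W x * (W x + 1)) := by
    rw [← sum_sub_distrib]
    exact sum_congr rfl fun x _ => by ring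
  have e2 : ∑ x ∈ (range n).erase z, w x * (2 * (((t x : ℝ) - W x) * ((mu z : ℝ) - s z)) + Np x)
      = 2 * (∑ x ∈ (range n).erase z, w x * ((t x : ℝ) - W x)) * ((mu z : ℝ) - s z)
        + ∑ x ∈ (range n).erase z, w x * Np x := by
    rw [mul_sum, sum_mul, ← sum_add_distrib]
    exact sum_congr rfl fun x _ => by ring
  rw [e1, e2] at h2
  nlinarith

/-- **the sum over all rows, any weights, any two kinds of tests** (numbers `V z`, `W z x` and losses
`Nt z`, `Np z x` free): if `a z R + ∑ w z x t x + p z = C` for every row -/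
theorem sumG (H : ItE R n t s h e E U ho vl kp ms mr mu Nb Nx)
    {a p : ℕ → ℝ} {w : ℕ → ℕ → ℝ} {C : ℝ} (ha : ∀ z < n, 0 ≤ a z)
    (hw : ∀ z < n, ∀ x < n, x ≠ z → 0 ≤ w z x)
    (hC : ∀ z < n, a z * R + ∑ x ∈ (range n).erase z, w z x * t x + p z = C)
    {K : ℕ → Finset ι} (hK : ∀ z < n, K z ⊆ U) (hKn : ∀ z < n, ∀ u ∈ K z, ho u ≠ z)
    {K' : ℕ → ℕ → Finset ι} (hK' : ∀ z < n, ∀ x < n, x ≠ z → K' z x ⊆ U)
    (hKn' : ∀ z < n, ∀ x < n, x ≠ z → ∀ u ∈ K' z x, ho u ≠ z)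
    {V Nt : ℕ → ℝ} {W Np : ℕ → ℕ → ℝ}
    (hT : ∀ z < n, 2 * (((R : ℝ) - t z) * mu z + hu R t kp mr (K z) z) - V z * (V z + 1)
      ≤ 2 * (((R : ℝ) - V z) * ((mu z : ℝ) - s z)) + Nt z)
    (hP : ∀ z < n, ∀ x < n, x ≠ z →
      2 * (((R : ℝ) - t z) * mu z + hu R t kp mr (K' z x) z)
        + 2 * (hh R t U ho kp ms z x - ((R : ℝ) - t x) * ((mu z : ℝ) + 1)) - W z x * (W z x + 1)
        ≤ 2 * (((t x : ℝ) - W z x) * ((mu z : ℝ) - s z)) + Np z x) :
    2 * C + 2 * ∑ u ∈ U, valA R n t ho vl kp ms mr a w C K K' u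
      + 2 * ∑ z ∈ range n, (p z + a z * V z + ∑ x ∈ (range n).erase z, w z x * W z x)
        * ((mu z : ℝ) - s z)
      ≤ 2 * ∑ z ∈ range n, ∑ x ∈ (range n).erase z, w z x * ((R : ℝ) - t x)
        + ∑ z ∈ range n, (a z * (V z * (V z + 1))
          + ∑ x ∈ (range n).erase z, w z x * (W z x * (W z x + 1)))
        + ∑ z ∈ range n, a z * Nt z + ∑ z ∈ range n, ∑ x ∈ (range n).erase z, w z x * Np z x := by
  -- one row
  have hrow : ∀ z ∈ range n,
      2 * (a z * ((R : ℝ) - t z) + ∑ x ∈ (range n).erase z, w z x * ((t x : ℝ) - t z)) * mu z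
        + 2 * (a z * hu R t kp mr (K z) z)
        + 2 * ∑ x ∈ (range n).erase z, w z x * hu R t kp mr (K' z x) z
        + 2 * ∑ x ∈ (range n).erase z, w z x * hh R t U ho kp ms z x
        + 2 * ((p z + a z * V z + ∑ x ∈ (range n).erase z, w z x * W z x) * ((mu z : ℝ) - s z))
      ≤ 2 * ∑ x ∈ (range n).erase z, w z x * ((R : ℝ) - t x)
        + (a z * (V z * (V z + 1)) + ∑ x ∈ (range n).erase z, w z x * (W z x * (W z x + 1)))
        + a z * Nt z + ∑ x ∈ (range n).erase z, w z x * Np z x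
        + 2 * (C * ((mu z : ℝ) - s z)) := by
    intro z hz
    have hz' := mem_range.1 hz
    have h1 := H.rowG (ha z hz') (hw z hz') (hT z hz') (hP z hz')
    have h2 := hC z hz'
    have e1 : ∑ x ∈ (range n).erase z, w z x * (2 * (((R : ℝ) - t z) * mu z
          + hu R t kp mr (K' z x) z)
        + 2 * (hh R t U ho kp ms z x - ((R : ℝ) - t x) * ((mu z : ℝ) + 1)))
        = 2 * (∑ x ∈ (range n).erase z, w z x * ((t x : ℝ) - t z)) * mu z
          + 2 * ∑ x ∈ (range n).erase z, w z x * hu R t kp mr (K' z x) z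
          + 2 * ∑ x ∈ (range n).erase z, w z x * hh R t U ho kp ms z x
          - 2 * ∑ x ∈ (range n).erase z, w z x * ((R : ℝ) - t x) := by
      rw [mul_sum, sum_mul, mul_sum, mul_sum, mul_sum, ← sum_add_distrib, ← sum_add_distrib,
        ← sum_sub_distrib]
      exact sum_congr rfl fun x _ => by ring
    have e2 : ∑ x ∈ (range n).erase z, w z x * ((t x : ℝ) - W z x)
        = ∑ x ∈ (range n).erase z, w z x * t x - ∑ x ∈ (range n).erase z, w z x * W z x := by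
      rw [← sum_sub_distrib]
      exact sum_congr rfl fun x _ => by ring
    rw [e1, e2] at h1
    have e3 : a z * R + ∑ x ∈ (range n).erase z, w z x * t x = C - p z := by linarith
    have e4 : a z * ((R : ℝ) - V z) + (∑ x ∈ (range n).erase z, w z x * t x
        - ∑ x ∈ (range n).erase z, w z x * W z x)
        = C - (p z + a z * V z + ∑ x ∈ (range n).erase z, w z x * W z x) := by
      linarith
    rw [e4] at h1
    nlinarith
  have h3 := sum_le_sum hrow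
  have hd : ∑ z ∈ range n, ((mu z : ℝ) - s z) = ∑ u ∈ U, (vl u : ℝ) - 1 := by
    have := H.sum_d
    have h4 : ((∑ i ∈ range n, (mu i - s i) : ℤ) : ℝ) = ((∑ u ∈ U, vl u - 1 : ℤ) : ℝ) := by
      rw [this]
    push_cast at h4
    exact h4
  have hmuR : ∀ z ∈ range n, (mu z : ℝ) = ∑ u ∈ U.filter (fun u => ho u = z), (vl u : ℝ) := by
    intro z hz
    rw [H.hmu z (mem_range.1 hz)]
    push_cast
    rfl
  -- the items
  have f1 : ∑ z ∈ range n, 2 * (a z * ((R : ℝ) - t z)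
        + ∑ x ∈ (range n).erase z, w z x * ((t x : ℝ) - t z)) * mu z
      = 2 * ∑ u ∈ U, (a (ho u) * ((R : ℝ) - t (ho u))
        + ∑ x ∈ (range n).erase (ho u), w (ho u) x * ((t x : ℝ) - t (ho u))) * vl u := by
    rw [← sum_host H.hlt (fun z => a z * ((R : ℝ) - t z)
        + ∑ x ∈ (range n).erase z, w z x * ((t x : ℝ) - t z)) fun _ u => (vl u : ℝ), mul_sum]
    refine sum_congr rfl fun z hz => ?_
    rw [← hmuR z hz]
    ring
  have f2 : ∑ z ∈ range n, 2 * (a z * hu R t kp mr (K z) z)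
      = 2 * ∑ u ∈ U, ∑ z ∈ (range n).erase (ho u), (if u ∈ K z then a z else 0)
        * ((kp z u : ℝ) * ((R : ℝ) - t z) - mr z u) := by
    rw [← mul_sum, ← sum_used hK hKn a fun z u => (kp z u : ℝ) * ((R : ℝ) - t z) - mr z u]
    rfl
  have f3 : ∑ z ∈ range n, 2 * ∑ x ∈ (range n).erase z, w z x * hu R t kp mr (K' z x) z
      = 2 * ∑ u ∈ U, ∑ z ∈ (range n).erase (ho u),
        (∑ x ∈ (range n).erase z, if u ∈ K' z x then w z x else 0)
        * ((kp z u : ℝ) * ((R : ℝ) - t z) - mr z u) := by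
    rw [← mul_sum]
    congr 1
    have g1 : ∀ z ∈ range n, ∑ x ∈ (range n).erase z, w z x * hu R t kp mr (K' z x) z
        = ∑ u ∈ U, (∑ x ∈ (range n).erase z, if u ∈ K' z x then w z x else 0)
          * ((kp z u : ℝ) * ((R : ℝ) - t z) - mr z u) := by
      intro z hz
      have g2 : ∀ x ∈ (range n).erase z, w z x * hu R t kp mr (K' z x) z
          = ∑ u ∈ U, (if u ∈ K' z x then w z x else 0)
            * ((kp z u : ℝ) * ((R : ℝ) - t z) - mr z u) := by
        intro x hx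
        obtain ⟨g3, g4⟩ := mem_erase.1 hx
        have g5 : K' z x = U.filter fun u => u ∈ K' z x := by
          ext u
          rw [mem_filter]
          exact ⟨fun g6 => ⟨hK' z (mem_range.1 hz) x (mem_range.1 g4) g3 g6, g6⟩, fun g6 => g6.2⟩
        calc w z x * hu R t kp mr (K' z x) z
            = ∑ u ∈ K' z x, w z x * ((kp z u : ℝ) * ((R : ℝ) - t z) - mr z u) := mul_sum _ _ _
          _ = ∑ u ∈ U.filter (fun u => u ∈ K' z x),
              w z x * ((kp z u : ℝ) * ((R : ℝ) - t z) - mr z u) := by rw [← g5]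
          _ = ∑ u ∈ U, if u ∈ K' z x then w z x * ((kp z u : ℝ) * ((R : ℝ) - t z) - mr z u)
              else 0 := sum_filter _ _
          _ = _ := sum_congr rfl fun u _ => by split_ifs <;> ring
      rw [sum_congr rfl g2, sum_comm]
      exact sum_congr rfl fun u _ => by rw [sum_mul]
    rw [sum_congr rfl g1, sum_comm]
    refine sum_congr rfl fun u _ => ?_
    refine (sum_subset (erase_subset _ _) fun z hz hz' => ?_).symm
    have g3 : z = ho u := by
      by_contra g4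
      exact hz' (mem_erase.2 ⟨g4, hz⟩)
    have g4 : ∑ x ∈ (range n).erase z, (if u ∈ K' z x then w z x else 0) = 0 := by
      refine sum_eq_zero fun x hx => ?_
      obtain ⟨g5, g6⟩ := mem_erase.1 hx
      exact if_neg fun g7 => hKn' z (mem_range.1 hz) x (mem_range.1 g6) g5 u g7 g3.symm
    rw [g4, zero_mul]
  have f4 : ∑ z ∈ range n, 2 * ∑ x ∈ (range n).erase z, w z x * hh R t U ho kp ms z x
      = 2 * ∑ u ∈ U, ∑ x ∈ (range n).erase (ho u),
        w (ho u) x * ((kp x u : ℝ) * ((R : ℝ) - t x) - ms x u) := by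
    rw [← mul_sum]
    congr 1
    rw [← sum_fiberwise_of_maps_to (fun u hu => mem_range.2 (H.hlt u hu))
      fun u => ∑ x ∈ (range n).erase (ho u),
        w (ho u) x * ((kp x u : ℝ) * ((R : ℝ) - t x) - ms x u)]
    refine sum_congr rfl fun z _ => ?_
    have g1 : ∑ u ∈ U.filter (fun u => ho u = z), ∑ x ∈ (range n).erase (ho u),
        w (ho u) x * ((kp x u : ℝ) * ((R : ℝ) - t x) - ms x u)
        = ∑ u ∈ U.filter (fun u => ho u = z), ∑ x ∈ (range n).erase z,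
        w z x * ((kp x u : ℝ) * ((R : ℝ) - t x) - ms x u) :=
      sum_congr rfl fun u hu => by rw [(mem_filter.1 hu).2]
    rw [g1, sum_comm]
    refine sum_congr rfl fun x _ => ?_
    unfold hh
    rw [mul_sum]
  have f5 : 2 * ∑ u ∈ U, valA R n t ho vl kp ms mr a w C K K' u
      = 2 * ∑ u ∈ U, (a (ho u) * ((R : ℝ) - t (ho u))
          + ∑ x ∈ (range n).erase (ho u), w (ho u) x * ((t x : ℝ) - t (ho u))) * vl u
        - 2 * (C * ∑ u ∈ U, (vl u : ℝ))
        + 2 * ∑ u ∈ U, ∑ x ∈ (range n).erase (ho u),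
          w (ho u) x * ((kp x u : ℝ) * ((R : ℝ) - t x) - ms x u)
        + 2 * ∑ u ∈ U, ∑ z ∈ (range n).erase (ho u), (if u ∈ K z then a z else 0)
          * ((kp z u : ℝ) * ((R : ℝ) - t z) - mr z u)
        + 2 * ∑ u ∈ U, ∑ z ∈ (range n).erase (ho u),
          (∑ x ∈ (range n).erase z, if u ∈ K' z x then w z x else 0)
          * ((kp z u : ℝ) * ((R : ℝ) - t z) - mr z u) := by
    simp only [mul_sum]
    rw [← sum_sub_distrib, ← sum_add_distrib, ← sum_add_distrib, ← sum_add_distrib]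
    refine sum_congr rfl fun u _ => ?_
    unfold valA
    have g1 : ∑ z ∈ (range n).erase (ho u), ((if u ∈ K z then a z else 0)
        + ∑ x ∈ (range n).erase z, if u ∈ K' z x then w z x else 0)
        * ((kp z u : ℝ) * ((R : ℝ) - t z) - mr z u)
        = ∑ z ∈ (range n).erase (ho u), (if u ∈ K z then a z else 0)
          * ((kp z u : ℝ) * ((R : ℝ) - t z) - mr z u)
        + ∑ z ∈ (range n).erase (ho u), (∑ x ∈ (range n).erase z, if u ∈ K' z x then w z x else 0)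
          * ((kp z u : ℝ) * ((R : ℝ) - t z) - mr z u) := by
      rw [← sum_add_distrib]
      exact sum_congr rfl fun z _ => by ring
    rw [g1, ← mul_sum, ← mul_sum, ← mul_sum]
    ring
  simp only [sum_add_distrib] at h3
  rw [f1, f2, f3, f4] at h3
  have f6 : ∑ z ∈ range n, 2 * (C * ((mu z : ℝ) - s z)) = 2 * (C * (∑ u ∈ U, (vl u : ℝ) - 1)) := by
    rw [← mul_sum, ← mul_sum, hd]
  have f7 : ∑ z ∈ range n, 2 * ((p z + a z * V z + ∑ x ∈ (range n).erase z, w z x * W z x)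
        * ((mu z : ℝ) - s z))
      = 2 * ∑ z ∈ range n, (p z + a z * V z + ∑ x ∈ (range n).erase z, w z x * W z x)
        * ((mu z : ℝ) - s z) := by
    rw [← mul_sum]
  have f8 : ∑ z ∈ range n, 2 * ∑ x ∈ (range n).erase z, w z x * ((R : ℝ) - t x)
      = 2 * ∑ z ∈ range n, ∑ x ∈ (range n).erase z, w z x * ((R : ℝ) - t x) := by
    rw [← mul_sum]
  rw [f5]
  simp only [sum_add_distrib]
  rw [f6, f7, f8] at h3
  linarith

/-- **one row, T and T+ paid with any weights** -/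
theorem rowAll (H : ItE R n t s h e E U ho vl kp ms mr mu Nb Nx) {z : ℕ} (hz : z < n)
    {a : ℝ} (ha : 0 ≤ a) {w : ℕ → ℝ} (hw : ∀ x < n, x ≠ z → 0 ≤ w x)
    {K : Finset ι} (hK : K ⊆ U) (hKn : ∀ u ∈ K, ho u ≠ z) {K' : ℕ → Finset ι} {sv : ℕ → ℤ}
    (hc : ∀ x < n, x ≠ z → ColP R t s e U ho kp ms mr Nx be pc ar pw z x (K' x) (sv x))
    {V : ℝ} (hV : V = (mu z : ℝ) + 2 * ∑ u ∈ K, (kp z u : ℝ)) {W : ℕ → ℝ}
    (hW : ∀ x, W x = (mu z : ℝ) + (2 * ∑ u ∈ K' x, (kp z u : ℝ) - qu ho kp pc (K' x) z x)) :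
    2 * a * (((R : ℝ) - t z) * mu z + hu R t kp mr K z)
      + ∑ x ∈ (range n).erase z, w x * (2 * (((R : ℝ) - t z) * mu z + hu R t kp mr (K' x) z)
        + 2 * (hh R t U ho kp ms z x - ((R : ℝ) - t x) * ((mu z : ℝ) + 1)))
      - (a * (V * (V + 1)) + ∑ x ∈ (range n).erase z, w x * (W x * (W x + 1)))
      ≤ 2 * ((a * ((R : ℝ) - V) + ∑ x ∈ (range n).erase z, w x * ((t x : ℝ) - W x))
          * ((mu z : ℝ) - s z))
        + a * ((Nb z : ℝ) + 2 * ∑ x ∈ (range n).erase z, (Nx z x : ℝ))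
        + ∑ x ∈ (range n).erase z, w x * ((Nb z : ℝ)
          + 2 * ∑ y ∈ ((range n).erase z).erase x, (Nx z y : ℝ)
          + lu R t ho kp be pc ar (K' x) z x - 2 * (pw z x : ℝ) - sv x) := by
  refine H.rowG ha hw (H.shTR hz hK hKn hV) (fun x hx hxz => ?_)
  have h1 := H.shPR hz hx (Ne.symm hxz) (hc x hx hxz) (hW x)
  linarith

/-- **the sum over all rows, T and T+ paid with any weights** -/
theorem sumAll (H : ItE R n t s h e E U ho vl kp ms mr mu Nb Nx)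
    {a p : ℕ → ℝ} {w : ℕ → ℕ → ℝ} {C : ℝ} (ha : ∀ z < n, 0 ≤ a z)
    (hw : ∀ z < n, ∀ x < n, x ≠ z → 0 ≤ w z x)
    (hC : ∀ z < n, a z * R + ∑ x ∈ (range n).erase z, w z x * t x + p z = C)
    {K : ℕ → Finset ι} (hK : ∀ z < n, K z ⊆ U) (hKn : ∀ z < n, ∀ u ∈ K z, ho u ≠ z)
    {K' : ℕ → ℕ → Finset ι} (hK' : ∀ z < n, ∀ x < n, x ≠ z → K' z x ⊆ U)
    (hKn' : ∀ z < n, ∀ x < n, x ≠ z → ∀ u ∈ K' z x, ho u ≠ z) {sv : ℕ → ℕ → ℤ}
    (hc : ∀ z < n, ∀ x < n, x ≠ z →
      ColP R t s e U ho kp ms mr Nx be pc ar pw z x (K' z x) (sv z x))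
    {V : ℕ → ℝ} (hV : ∀ z, V z = (mu z : ℝ) + 2 * ∑ u ∈ K z, (kp z u : ℝ)) {W : ℕ → ℕ → ℝ}
    (hW : ∀ z x, W z x = (mu z : ℝ)
      + (2 * ∑ u ∈ K' z x, (kp z u : ℝ) - qu ho kp pc (K' z x) z x)) :
    2 * C + 2 * ∑ u ∈ U, valA R n t ho vl kp ms mr a w C K K' u
      + 2 * ∑ z ∈ range n, (p z + a z * V z + ∑ x ∈ (range n).erase z, w z x * W z x)
        * ((mu z : ℝ) - s z)
      ≤ 2 * ∑ z ∈ range n, ∑ x ∈ (range n).erase z, w z x * ((R : ℝ) - t x)
        + ∑ z ∈ range n, (a z * (V z * (V z + 1))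
          + ∑ x ∈ (range n).erase z, w z x * (W z x * (W z x + 1)))
        + ∑ z ∈ range n, a z * ((Nb z : ℝ) + 2 * ∑ x ∈ (range n).erase z, (Nx z x : ℝ))
        + ∑ z ∈ range n, ∑ x ∈ (range n).erase z, w z x * ((Nb z : ℝ)
          + 2 * ∑ y ∈ ((range n).erase z).erase x, (Nx z y : ℝ)
          + lu R t ho kp be pc ar (K' z x) z x - 2 * (pw z x : ℝ) - sv z x) := by
  refine H.sumG ha hw hC hK hKn hK' hKn' (fun z hz => H.shTR hz (hK z hz) (hKn z hz) (hV z))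
    (fun z hz x hx hxz => ?_)
  have h1 := H.shPR hz hx (Ne.symm hxz) (hc z hz x hx hxz) (hW z x)
  linarith

end ItE

end ShAll

end Pool.Agent.Lib.MP_f04ccf_co
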