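import Pool.Agent.Lib.MP_f04ccf_co.M.ItZ
import Pool.Agent.Lib.MP_f04ccf_co.M.ShCapP

/-!
MP_f04ccf_co, text S (notes 17448 (iv), 17561): the closed caps of a cell over the items.

`CMan R a b K K' l l'`: the cell test in Mantel's form for all sub-families of `K` (units `i → j`, losses
`l`) and `K'` (units `j → i`, losses `l'`), `a = t i`, `b = t j`.  `CMan.full`: **`R (q - 1) ≤ t i * t j`**
for `q = |K| + |K'|` units without loss; `CMan.cap`: `R (q - 1) ≤ t i * t j + Σ l + Σ l'` for `q ≤ t`;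
`CMan.card_le`: `q ≤ t` if every loss is at most `l` and `l + 2 ≤ t (R - t' - 1 - l)`.
`COne`, `CTwo`: the same without Mantel's bound (any third ends), one and two directions.
`ItZ.cman`, `ItZ.cone`, `ItZ.ctwo`: the sources; the loss of an item `u` at its end `j` is
`mr j u + ar u + pc u * t j`.
-/

set_option autoImplicit false

namespace Pool.Agent.Lib.MP_f04ccf_co

open Finset

attribute [local instance] Classical.propDecidable

section CapFin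

variable {ι : Type*}

/-- two subsets with `p` elements together -/
lemma exists_sub_two (K K' : Finset ι) {p : ℕ} (hp : p ≤ K.card + K'.card) :
    ∃ L ⊆ K, ∃ L' ⊆ K', L.card + L'.card = p := by
  rcases le_or_gt p K.card with h | h
  · obtain ⟨L, hL, h1⟩ := exists_subset_card_eq h
    exact ⟨L, hL, ∅, empty_subset _, by rw [h1, card_empty, add_zero]⟩
  · obtain ⟨L', hL', h1⟩ := exists_subset_card_eq (s := K') (n := p - K.card) (by omega)
    exact ⟨K, subset_rfl, L', hL', by omega⟩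

/-- the right side of the cell test of value one is largest without PC pairs -/
lemma pc_lower {a b P Q : ℤ} (hP : 0 ≤ P) (hPa : P ≤ a) (hQ : 0 ≤ Q) (hQb : Q ≤ b) :
    (2 * a - P + (2 * b - Q)) * (2 * a - P + (2 * b - Q) - 1) - (a * (a - 1) - P * (P - 1))
      - (b * (b - 1) - Q * (Q - 1)) + 2 * P * Q
      ≤ 3 * a ^ 2 - a + (3 * b ^ 2 - b) + 8 * (a * b) := by
  have h1 : 0 ≤ (P + Q) * (2 * (a + b) - (P + Q)) :=
    mul_nonneg (by linarith) (by linarith)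
  nlinarith

/-- the right side of the Mantel form is at most `2 p²` for a suitable `q` -/
lemma pc_lower_man {a b P Q : ℤ} (hP : 0 ≤ P) (hPa : P ≤ a) (hQ : 0 ≤ Q) (hQb : Q ≤ b) :
    ∃ q : ℤ, (2 * a - P + (2 * b - Q)) * (2 * a - P + (2 * b - Q) - 1)
      - 2 * q * (2 * a - P + (2 * b - Q)) + 2 * (q * (q + 1)) + 2 * P * Q ≤ 2 * (a + b) ^ 2 := by
  obtain ⟨w, hw⟩ : ∃ w : ℤ, w = 2 * a - P + (2 * b - Q) := ⟨_, rfl⟩
  rw [← hw]
  have h1 : 0 ≤ (P + Q) * (2 * (a + b) - (P + Q)) :=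
    mul_nonneg (by linarith) (by linarith)
  have h2 : w ^ 2 + 4 * (P * Q) ≤ 4 * (a + b) ^ 2 := by
    rw [hw]
    nlinarith [sq_nonneg (P - Q)]
  rcases Int.even_or_odd w with ⟨q, hq⟩ | ⟨q, hq⟩
  · refine ⟨q, ?_⟩
    rw [hq] at h2 ⊢
    nlinarith
  · refine ⟨q, ?_⟩
    rw [hq] at h2 ⊢
    nlinarith

/-- **the cell test in Mantel's form for all sub-families** -/
def CMan (R a b : ℤ) (K K' : Finset ι) (l l' : ι → ℤ) : Prop :=
  ∀ L ⊆ K, ∀ L' ⊆ K', 1 ≤ L.card + L'.card →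
    (L.card : ℤ) * (R + b) + (L'.card : ℤ) * (R + a)
      ≤ R + a * b + ((L.card : ℤ) + L'.card) ^ 2 + ∑ u ∈ L, l u + ∑ u ∈ L', l' u

/-- the cell test of one direction for all sub-families, any third ends -/
def COne (R a b : ℤ) (K : Finset ι) (l : ι → ℤ) : Prop :=
  ∀ L ⊆ K, 1 ≤ L.card →
    2 * ((L.card : ℤ) * (R + b)) + (L.card : ℤ)
      ≤ 2 * (R + a * b) + 3 * (L.card : ℤ) ^ 2 + 2 * ∑ u ∈ L, l u

/-- the cell test of both directions for all sub-families, any third ends -/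
def CTwo (R a b : ℤ) (K K' : Finset ι) (l l' : ι → ℤ) : Prop :=
  ∀ L ⊆ K, ∀ L' ⊆ K', 1 ≤ L.card + L'.card →
    2 * ((L.card : ℤ) * (R + b)) + 2 * ((L'.card : ℤ) * (R + a)) + ((L.card : ℤ) + L'.card)
      ≤ 2 * (R + a * b) + 3 * (L.card : ℤ) ^ 2 + 3 * (L'.card : ℤ) ^ 2
        + 8 * ((L.card : ℤ) * L'.card) + 2 * ∑ u ∈ L, l u + 2 * ∑ u ∈ L', l' u

namespace CMan

variable {R a b : ℤ} {K K' : Finset ι} {l l' : ι → ℤ}

lemma symm (h : CMan R a b K K' l l') : CMan R b a K' K l' l := by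
  intro L hL L' hL' hc
  have h1 := h L' hL' L hL (by omega)
  rw [mul_comm b a, add_comm (L.card : ℤ) (L'.card : ℤ)]
  linarith

lemma mono (h : CMan R a b K K' l l') {M M' : Finset ι} (hM : M ⊆ K) (hM' : M' ⊆ K') :
    CMan R a b M M' l l' :=
  fun L hL L' hL' hc => h L (hL.trans hM) L' (hL'.trans hM') hc

/-- every sub-amount, `m ≤ a, b`, every loss at most `x` -/
theorem sub (h : CMan R a b K K' l l') {m x : ℤ} (hm : m ≤ a) (hm' : m ≤ b)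
    (hl : ∀ u ∈ K, l u ≤ x) (hl' : ∀ u ∈ K', l' u ≤ x) {p : ℤ} (hp : 1 ≤ p)
    (hpq : p ≤ (K.card : ℤ) + K'.card) : p * (R + m - x) ≤ R + a * b + p ^ 2 := by
  obtain ⟨p', rfl⟩ := Int.eq_ofNat_of_zero_le (by linarith : 0 ≤ p)
  have hpq' : p' ≤ K.card + K'.card := by exact_mod_cast hpq
  have hp' : 1 ≤ p' := by exact_mod_cast hp
  obtain ⟨L, hL, L', hL', hc⟩ := exists_sub_two K K' hpq'
  have hc' : (L.card : ℤ) + L'.card = (p' : ℤ) := by exact_mod_cast hc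
  have h3 := h L hL L' hL' (by omega)
  have h4 : ∑ u ∈ L, l u ≤ (L.card : ℤ) * x := by
    rw [← nsmul_eq_mul, ← sum_const]
    exact sum_le_sum fun u hu => hl u (hL hu)
  have h5 : ∑ u ∈ L', l' u ≤ (L'.card : ℤ) * x := by
    rw [← nsmul_eq_mul, ← sum_const]
    exact sum_le_sum fun u hu => hl' u (hL' hu)
  have h7 : (L.card : ℤ) * m ≤ (L.card : ℤ) * b :=
    mul_le_mul_of_nonneg_left hm' (Nat.cast_nonneg _)
  have h8 : (L'.card : ℤ) * m ≤ (L'.card : ℤ) * a :=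
    mul_le_mul_of_nonneg_left hm (Nat.cast_nonneg _)
  have h9 : (p' : ℤ) * (R + m - x) = ((L.card : ℤ) + L'.card) * (R + m - x) := by rw [hc']
  change (p' : ℤ) * (R + m - x) ≤ R + a * b + (p' : ℤ) ^ 2
  rw [hc'] at h3
  rw [h9]
  linarith

/-- **the closed cap**: units without loss, both directions -/
theorem full (h : CMan R a b K K' l l') (ha : 0 ≤ a) (hb : 0 ≤ b) (hR : 5 ≤ R)
    (haR : a + 3 ≤ R) (hbR : b + 3 ≤ R) (hl : ∀ u ∈ K, l u ≤ 0) (hl' : ∀ u ∈ K', l' u ≤ 0) :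
    R * ((K.card : ℤ) + K'.card - 1) ≤ a * b := by
  rcases le_total a b with h3 | h3
  · refine ShCap.cap_man (t := a) (t' := b) hR ha hb hbR fun p hp hq => ?_
    have h4 := h.sub (m := a) le_rfl h3 hl hl' hp hq
    rw [sub_zero] at h4
    exact h4
  · have h5 : R * ((K.card : ℤ) + K'.card - 1) ≤ b * a := by
      refine ShCap.cap_man (t := b) (t' := a) hR hb ha haR fun p hp hq => ?_
      have h4 := h.sub (m := b) h3 le_rfl hl hl' hp hq
      rw [sub_zero, mul_comm a] at h4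
      exact h4
    rw [mul_comm a]
    exact h5

/-- **the closed cap with losses**, at most `t` units -/
theorem cap (h : CMan R a b K K' l l') (hq : (K.card : ℤ) + K'.card ≤ a)
    (hq' : (K.card : ℤ) + K'.card ≤ b) (h1 : 1 ≤ K.card + K'.card) :
    R * ((K.card : ℤ) + K'.card - 1) ≤ a * b + ∑ u ∈ K, l u + ∑ u ∈ K', l' u := by
  have h3 := h K subset_rfl K' subset_rfl h1
  have h4 : (K.card : ℤ) * ((K.card : ℤ) + K'.card) ≤ (K.card : ℤ) * b :=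
    mul_le_mul_of_nonneg_left hq' (Nat.cast_nonneg _)
  have h5 : (K'.card : ℤ) * ((K.card : ℤ) + K'.card) ≤ (K'.card : ℤ) * a :=
    mul_le_mul_of_nonneg_left hq (Nat.cast_nonneg _)
  nlinarith

/-- **at most `t` units** -/
theorem card_le (h : CMan R a b K K' l l') {x : ℤ} (hb : 0 ≤ b) (hba : b ≤ a)
    (hl : ∀ u ∈ K, l u ≤ x) (hl' : ∀ u ∈ K', l' u ≤ x) (hx : x + 2 ≤ b * (R - a - 1 - x)) :
    (K.card : ℤ) + K'.card ≤ b := by
  by_contra hq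
  push Not at hq
  have h3 := h.sub (m := b) hba le_rfl hl hl' (p := b + 1) (by linarith) (by linarith)
  nlinarith

/-- the real cap lemma: any `X` with the inequality false at `X` and at `X + 1` -/
theorem le_real (h : CMan R a b K K' l l') {m x : ℤ} (hm : m ≤ a) (hm' : m ≤ b)
    (hl : ∀ u ∈ K, l u ≤ x) (hl' : ∀ u ∈ K', l' u ≤ x) {X : ℝ} (hX : 0 ≤ X)
    (h1 : (R : ℝ) + a * b + X ^ 2 < X * (R + m - x))
    (h2 : (R : ℝ) + a * b + (X + 1) ^ 2 < (X + 1) * (R + m - x)) :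
    (K.card : ℝ) + K'.card ≤ X := by
  have h3 := ShCap.cap_of (q := (K.card : ℤ) + K'.card) (A := (R : ℝ) + m - x)
    (C := (R : ℝ) + a * b) (B := 1) (X := X) (by norm_num) hX (fun p hp hq => by
      have h4 := h.sub hm hm' hl hl' hp hq
      have h5 : (p : ℝ) * ((R : ℝ) + m - x) ≤ (R : ℝ) + a * b + (p : ℝ) ^ 2 := by
        exact_mod_cast h4
      linarith) (by linarith) (by linarith)
  push_cast at h3
  exact h3

end CMan

namespace COne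

variable {R a b : ℤ} {K : Finset ι} {l : ι → ℤ}

/-- every sub-amount, every loss at most `x` -/
theorem sub (h : COne R a b K l) {x : ℤ} (hl : ∀ u ∈ K, l u ≤ x) {p : ℤ} (hp : 1 ≤ p)
    (hpq : p ≤ (K.card : ℤ)) : 2 * (p * (R + b - x)) + p ≤ 2 * (R + a * b) + 3 * p ^ 2 := by
  obtain ⟨p', rfl⟩ := Int.eq_ofNat_of_zero_le (by linarith : 0 ≤ p)
  have hpq' : p' ≤ K.card := by exact_mod_cast hpq
  have hp' : 1 ≤ p' := by exact_mod_cast hp
  obtain ⟨L, hL, hc⟩ := exists_subset_card_eq hpq'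
  have h3 := h L hL (by omega)
  have h4 : ∑ u ∈ L, l u ≤ (L.card : ℤ) * x := by
    rw [← nsmul_eq_mul, ← sum_const]
    exact sum_le_sum fun u hu => hl u (hL hu)
  rw [hc] at h3 h4
  change 2 * ((p' : ℤ) * (R + b - x)) + (p' : ℤ) ≤ 2 * (R + a * b) + 3 * (p' : ℤ) ^ 2
  linarith

/-- `3 q ≤ 2 t + 1` -/
theorem cap (h : COne R a b K l) (hq : 3 * (K.card : ℤ) ≤ 2 * b + 1) (h1 : 1 ≤ K.card) :
    R * ((K.card : ℤ) - 1) ≤ a * b + ∑ u ∈ K, l u := by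
  have h3 := h K subset_rfl h1
  have h4 : (K.card : ℤ) * (3 * (K.card : ℤ)) ≤ (K.card : ℤ) * (2 * b + 1) :=
    mul_le_mul_of_nonneg_left hq (Nat.cast_nonneg _)
  nlinarith

theorem le_real (h : COne R a b K l) {x : ℤ} (hl : ∀ u ∈ K, l u ≤ x) {X : ℝ} (hX : 0 ≤ X)
    (h1 : (R : ℝ) + a * b + 3 / 2 * X ^ 2 < X * (R + b - x + 1 / 2))
    (h2 : (R : ℝ) + a * b + 3 / 2 * (X + 1) ^ 2 < (X + 1) * (R + b - x + 1 / 2)) :
    (K.card : ℝ) ≤ X := by
  have h3 := ShCap.cap_of (q := (K.card : ℤ)) (A := (R : ℝ) + b - x + 1 / 2)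
    (C := (R : ℝ) + a * b) (B := 3 / 2) (X := X) (by norm_num) hX (fun p hp hq => by
      have h4 := h.sub hl hp hq
      have h5 : 2 * ((p : ℝ) * ((R : ℝ) + b - x)) + p
          ≤ 2 * ((R : ℝ) + a * b) + 3 * (p : ℝ) ^ 2 := by
        exact_mod_cast h4
      linarith) h1 h2
  push_cast at h3
  exact h3

end COne

namespace CTwo

variable {R a b : ℤ} {K K' : Finset ι} {l l' : ι → ℤ}

/-- every sub-amount, `m ≤ a, b`, every loss at most `x` -/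
theorem sub (h : CTwo R a b K K' l l') {m x : ℤ} (hm : m ≤ a) (hm' : m ≤ b)
    (hl : ∀ u ∈ K, l u ≤ x) (hl' : ∀ u ∈ K', l' u ≤ x) {p : ℤ} (hp : 1 ≤ p)
    (hpq : p ≤ (K.card : ℤ) + K'.card) :
    4 * (p * (R + m - x)) + 2 * p ≤ 4 * (R + a * b) + 7 * p ^ 2 := by
  obtain ⟨p', rfl⟩ := Int.eq_ofNat_of_zero_le (by linarith : 0 ≤ p)
  have hpq' : p' ≤ K.card + K'.card := by exact_mod_cast hpq
  have hp' : 1 ≤ p' := by exact_mod_cast hp
  obtain ⟨L, hL, L', hL', hc⟩ := exists_sub_two K K' hpq'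
  have hc' : (L.card : ℤ) + L'.card = (p' : ℤ) := by exact_mod_cast hc
  have h3 := h L hL L' hL' (by omega)
  have h4 : ∑ u ∈ L, l u ≤ (L.card : ℤ) * x := by
    rw [← nsmul_eq_mul, ← sum_const]
    exact sum_le_sum fun u hu => hl u (hL hu)
  have h5 : ∑ u ∈ L', l' u ≤ (L'.card : ℤ) * x := by
    rw [← nsmul_eq_mul, ← sum_const]
    exact sum_le_sum fun u hu => hl' u (hL' hu)
  have h7 : (L.card : ℤ) * m ≤ (L.card : ℤ) * b :=
    mul_le_mul_of_nonneg_left hm' (Nat.cast_nonneg _)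
  have h8 : (L'.card : ℤ) * m ≤ (L'.card : ℤ) * a :=
    mul_le_mul_of_nonneg_left hm (Nat.cast_nonneg _)
  change 4 * ((p' : ℤ) * (R + m - x)) + 2 * (p' : ℤ) ≤ 4 * (R + a * b) + 7 * (p' : ℤ) ^ 2
  rw [← hc']
  nlinarith [sq_nonneg ((L.card : ℤ) - L'.card)]

/-- `7 q ≤ 4 t + 2` at both rows -/
theorem cap (h : CTwo R a b K K' l l') (hq : 7 * ((K.card : ℤ) + K'.card) ≤ 4 * a + 2)
    (hq' : 7 * ((K.card : ℤ) + K'.card) ≤ 4 * b + 2) (h1 : 1 ≤ K.card + K'.card) :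
    R * ((K.card : ℤ) + K'.card - 1) ≤ a * b + ∑ u ∈ K, l u + ∑ u ∈ K', l' u := by
  have h3 := h K subset_rfl K' subset_rfl h1
  have h4 : (K.card : ℤ) * (7 * ((K.card : ℤ) + K'.card)) ≤ (K.card : ℤ) * (4 * b + 2) :=
    mul_le_mul_of_nonneg_left hq' (Nat.cast_nonneg _)
  have h5 : (K'.card : ℤ) * (7 * ((K.card : ℤ) + K'.card)) ≤ (K'.card : ℤ) * (4 * a + 2) :=
    mul_le_mul_of_nonneg_left hq (Nat.cast_nonneg _)
  nlinarith [sq_nonneg ((K.card : ℤ) - K'.card)]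

end CTwo

end CapFin

section CapY

variable {ι : Type*} {R : ℤ} {n : ℕ} {t s h e : ℕ → ℤ} {E : ℕ → ℕ → ℤ} {U : Finset ι} {ho : ι → ℕ}
  {vl : ι → ℤ} {kp ms mr : ℕ → ι → ℤ} {mu Nb : ℕ → ℤ} {Nx : ℕ → ℕ → ℤ} {be : ℕ → ℕ → ℤ}
  {ls : ℕ → ℤ → ℤ} {pc ar : ι → ℤ} {aT : ℕ → ℤ}

namespace ItY

/-- a used end of an item of value one has load one -/
lemma kp1 (H : ItY R n t s h e E U ho vl kp ms mr mu Nb Nx be ls pc ar aT)
    {u : ι} (hu : u ∈ U) (hv : vl u = 1) {j : ℕ} (hj : j < n) (hk : kp j u ≠ 0) : kp j u = 1 := by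
  have h1 := H.k0 u hu j hj
  have h2 := H.kv u hu j hj
  rw [hv] at h2
  omega

/-- two rows -/
lemma sum2t (H : ItY R n t s h e E U ho vl kp ms mr mu Nb Nx be ls pc ar aT)
    {i j : ℕ} (hi : i < n) (hj : j < n) (hij : i ≠ j) : t i + t j + 5 ≤ R := by
  have h1 := H.st
  have hn5 : (5 : ℤ) ≤ (n : ℤ) := by exact_mod_cast H.n5
  have hI : ({i, j} : Finset ℕ) ⊆ range n := by
    intro l hl
    rcases mem_insert.1 hl with rfl | hl
    · exact mem_range.2 hi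
    · rw [mem_singleton.1 hl]
      exact mem_range.2 hj
  have h2 : ∑ k ∈ ({i, j} : Finset ℕ), t k ≤ ∑ k ∈ range n, t k :=
    sum_le_sum_of_subset_of_nonneg hI fun k hk _ => H.t0 k (mem_range.1 hk)
  rw [sum_pair hij] at h2
  linarith

lemma sum_kp1 (H : ItY R n t s h e E U ho vl kp ms mr mu Nb Nx be ls pc ar aT)
    {i j : ℕ} (hj : j < n) {K : Finset ι} (hK : K ⊆ U)
    (h1 : ∀ u ∈ K, ho u = i ∧ kp j u ≠ 0 ∧ vl u = 1) :
    ∑ u ∈ K, (kp j u + 1 - pc u) = 2 * (K.card : ℤ) - ∑ u ∈ K, pc u := by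
  have h2 : ∑ u ∈ K, (kp j u + 1 - pc u) = ∑ u ∈ K, (2 - pc u) := by
    refine sum_congr rfl fun u hu => ?_
    obtain ⟨-, h3, h4⟩ := h1 u hu
    rw [H.kp1 (hK hu) h4 hj h3]
    ring
  rw [h2, sum_sub_distrib, sum_const, nsmul_eq_mul]
  ring

lemma sum_ls1 (H : ItY R n t s h e E U ho vl kp ms mr mu Nb Nx be ls pc ar aT)
    {i j : ℕ} (hj : j < n) {K : Finset ι} (hK : K ⊆ U)
    (h1 : ∀ u ∈ K, ho u = i ∧ kp j u ≠ 0 ∧ vl u = 1) :
    ∑ u ∈ K, (R * kp j u + (1 - pc u) * t j - mr j u - ar u)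
      = (K.card : ℤ) * (R + t j) - ∑ u ∈ K, (mr j u + ar u + pc u * t j) := by
  have h2 : ∑ u ∈ K, (R * kp j u + (1 - pc u) * t j - mr j u - ar u)
      = ∑ u ∈ K, (R + t j - (mr j u + ar u + pc u * t j)) := by
    refine sum_congr rfl fun u hu => ?_
    obtain ⟨-, h3, h4⟩ := h1 u hu
    rw [H.kp1 (hK hu) h4 hj h3]
    ring
  rw [h2, sum_sub_distrib, sum_const, nsmul_eq_mul]

lemma sum_pc (H : ItY R n t s h e E U ho vl kp ms mr mu Nb Nx be ls pc ar aT)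
    {K : Finset ι} (hK : K ⊆ U) : 0 ≤ ∑ u ∈ K, pc u ∧ ∑ u ∈ K, pc u ≤ (K.card : ℤ) := by
  constructor
  · exact sum_nonneg fun u hu => H.pc0 u (hK hu)
  · calc ∑ u ∈ K, pc u ≤ ∑ u ∈ K, (1 : ℤ) := sum_le_sum fun u hu => H.pc1 u (hK hu)
      _ = (K.card : ℤ) := by rw [sum_const, nsmul_eq_mul, mul_one]

/-- the closed cap of the full units of the cell from `CMan` -/
theorem full_of (H : ItY R n t s h e E U ho vl kp ms mr mu Nb Nx be ls pc ar aT)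
    {i j : ℕ} (hi : i < n) (hj : j < n) (hij : i ≠ j) {K K' : Finset ι} {l l' : ι → ℤ}
    (hC : CMan R (t i) (t j) K K' l l') (hl : ∀ u ∈ K, l u ≤ 0) (hl' : ∀ u ∈ K', l' u ≤ 0) :
    R * ((K.card : ℤ) + K'.card - 1) ≤ t i * t j := by
  have h1 := H.sum2t hi hj hij
  have h2 := H.t0 i hi
  have h3 := H.t0 j hj
  exact hC.full h2 h3 (by linarith) (by linarith) (by linarith) hl hl'

end ItY

end CapY

section CapZ

variable {ι : Type*} {R : ℤ} {n : ℕ} {t s h e : ℕ → ℤ} {E : ℕ → ℕ → ℤ} {U : Finset ι} {ho : ι → ℕ}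
  {vl : ι → ℤ} {kp ms mr : ℕ → ι → ℤ} {mu Nb : ℕ → ℤ} {Nx : ℕ → ℕ → ℤ} {be : ℕ → ℕ → ℤ}
  {ls : ℕ → ℤ → ℤ} {pc ar : ι → ℤ} {aT : ℕ → ℤ} {fr : ℕ → ℤ} {gn ka : ℕ → ℕ → ℤ}

namespace ItZ

/-- **the cell test, all items of value one of both directions** (`cell2`, PC pairs only lower the
right side) -/
theorem cell_sub (H : ItZ R n t s h e E U ho vl kp ms mr mu Nb Nx be ls pc ar aT fr gn ka)
    {i j : ℕ} (hi : i < n) (hj : j < n) (hij : i ≠ j) {K K' : Finset ι} (hK : K ⊆ U)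
    (hK' : K' ⊆ U) (h1 : ∀ u ∈ K, ho u = i ∧ kp j u ≠ 0 ∧ vl u = 1)
    (h1' : ∀ u ∈ K', ho u = j ∧ kp i u ≠ 0 ∧ vl u = 1) {w : ι} (hw : w ∈ U) :
    2 * ((K.card : ℤ) * (R + t j)) + 2 * ((K'.card : ℤ) * (R + t i))
      + 2 * (max 0 (ms i w - ∑ u ∈ K, pc u) * max 0 (ms j w - ∑ u ∈ K', pc u))
      ≤ 2 * (R + t i * t j) + 3 * (K.card : ℤ) ^ 2 - K.card + (3 * (K'.card : ℤ) ^ 2 - K'.card)
        + 8 * ((K.card : ℤ) * K'.card)
        + 2 * ∑ u ∈ K, (mr j u + ar u + pc u * t j)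
        + 2 * ∑ u ∈ K', (mr i u + ar u + pc u * t i) := by
  have h2 := H.cell2 i hi j hj hij K hK h1 K' hK' h1' w hw
  rw [H.sum_kp1 hj hK h1, H.sum_kp1 hi hK' h1', H.sum_ls1 hj hK h1, H.sum_ls1 hi hK' h1'] at h2
  obtain ⟨h3, h4⟩ := H.sum_pc hK
  obtain ⟨h5, h6⟩ := H.sum_pc hK'
  have h7 := pc_lower h3 h4 h5 h6
  linarith

/-- **the cell test in Mantel's form**: the units of value one with all used ends in the cell -/
theorem cell_man (H : ItZ R n t s h e E U ho vl kp ms mr mu Nb Nx be ls pc ar aT fr gn ka)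
    {i j : ℕ} (hi : i < n) (hj : j < n) (hij : i ≠ j) {K K' : Finset ι} (hK : K ⊆ U)
    (hK' : K' ⊆ U) (h1 : ∀ u ∈ K, ho u = i ∧ kp j u ≠ 0 ∧ vl u = 1)
    (h1' : ∀ u ∈ K', ho u = j ∧ kp i u ≠ 0 ∧ vl u = 1)
    (h2 : ∀ u ∈ K, ∀ l < n, kp l u ≠ 0 → l = j) (h2' : ∀ u ∈ K', ∀ l < n, kp l u ≠ 0 → l = i)
    {w : ι} (hw : w ∈ U) :
    (K.card : ℤ) * (R + t j) + (K'.card : ℤ) * (R + t i)
      + max 0 (ms i w - ∑ u ∈ K, pc u) * max 0 (ms j w - ∑ u ∈ K', pc u)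
      ≤ R + t i * t j + ((K.card : ℤ) + K'.card) ^ 2
        + ∑ u ∈ K, (mr j u + ar u + pc u * t j) + ∑ u ∈ K', (mr i u + ar u + pc u * t i) := by
  obtain ⟨h3, h4⟩ := H.sum_pc hK
  obtain ⟨h5, h6⟩ := H.sum_pc hK'
  obtain ⟨q, hq⟩ := pc_lower_man h3 h4 h5 h6
  have hI : ({i, j} : Finset ℕ) ⊆ range n := by
    intro l hl
    rcases mem_insert.1 hl with rfl | hl
    · exact mem_range.2 hi
    · rw [mem_singleton.1 hl]
      exact mem_range.2 hj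
  have hc : (({i, j} : Finset ℕ).card : ℤ) = 2 := by
    rw [card_pair hij]
    norm_num
  have h7 := H.cellt i hi j hj hij K hK (fun u hu => ⟨(h1 u hu).1, (h1 u hu).2.1⟩) K' hK'
    (fun u hu => ⟨(h1' u hu).1, (h1' u hu).2.1⟩) w hw {i, j} hI (by simp) (by simp)
    (fun u hu l hl hk => by rw [h2 u hu l hl hk]; simp)
    (fun u hu l hl hk => by rw [h2' u hu l hl hk]; simp) q
  rw [H.sum_kp1 hj hK h1, H.sum_kp1 hi hK' h1', H.sum_ls1 hj hK h1, H.sum_ls1 hi hK' h1',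
    hc] at h7
  linarith

/-- an element of two families which are not both empty -/
lemma exists_mem_two {K K' U : Finset ι} (hK : K ⊆ U) (hK' : K' ⊆ U)
    (h : 1 ≤ K.card + K'.card) : ∃ w, w ∈ U := by
  rcases Nat.eq_zero_or_pos K.card with h4 | h4
  · obtain ⟨w, hw⟩ := card_pos.1 (show 0 < K'.card by omega)
    exact ⟨w, hK' hw⟩
  · obtain ⟨w, hw⟩ := card_pos.1 h4
    exact ⟨w, hK hw⟩

/-- **the source of `CMan`** (units with all used ends in the cell) -/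
theorem cman (H : ItZ R n t s h e E U ho vl kp ms mr mu Nb Nx be ls pc ar aT fr gn ka)
    {i j : ℕ} (hi : i < n) (hj : j < n) (hij : i ≠ j) {K K' : Finset ι} (hK : K ⊆ U)
    (hK' : K' ⊆ U) (h1 : ∀ u ∈ K, ho u = i ∧ kp j u ≠ 0 ∧ vl u = 1)
    (h1' : ∀ u ∈ K', ho u = j ∧ kp i u ≠ 0 ∧ vl u = 1)
    (h2 : ∀ u ∈ K, ∀ l < n, kp l u ≠ 0 → l = j) (h2' : ∀ u ∈ K', ∀ l < n, kp l u ≠ 0 → l = i) :
    CMan R (t i) (t j) K K' (fun u => mr j u + ar u + pc u * t j)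
      fun u => mr i u + ar u + pc u * t i := by
  intro L hL L' hL' hc
  obtain ⟨w, hw⟩ := exists_mem_two (hL.trans hK) (hL'.trans hK') hc
  have h3 := H.cell_man hi hj hij (hL.trans hK) (hL'.trans hK') (fun u hu => h1 u (hL hu))
    (fun u hu => h1' u (hL' hu)) (fun u hu => h2 u (hL hu)) (fun u hu => h2' u (hL' hu)) hw
  have h6 : 0 ≤ max 0 (ms i w - ∑ u ∈ L, pc u) * max 0 (ms j w - ∑ u ∈ L', pc u) :=
    mul_nonneg (le_max_left _ _) (le_max_left _ _)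
  linarith

/-- **the source of `COne`** -/
theorem cone (H : ItZ R n t s h e E U ho vl kp ms mr mu Nb Nx be ls pc ar aT fr gn ka)
    {i j : ℕ} (hi : i < n) (hj : j < n) (hij : i ≠ j) {K : Finset ι} (hK : K ⊆ U)
    (h1 : ∀ u ∈ K, ho u = i ∧ kp j u ≠ 0 ∧ vl u = 1) :
    COne R (t i) (t j) K fun u => mr j u + ar u + pc u * t j := by
  intro L hL hc
  obtain ⟨w, hw⟩ := card_pos.1 (show 0 < L.card by omega)
  have h3 := H.cell_sub hi hj hij (hL.trans hK) (empty_subset U) (fun u hu => h1 u (hL hu))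
    (fun u hu => absurd hu (notMem_empty u)) (hK (hL hw))
  have h6 : 0 ≤ max 0 (ms i w - ∑ u ∈ L, pc u) * max 0 (ms j w - ∑ u ∈ (∅ : Finset ι), pc u) :=
    mul_nonneg (le_max_left _ _) (le_max_left _ _)
  simp only [sum_empty, card_empty, Nat.cast_zero] at h3 h6
  linarith

/-- **the source of `CTwo`** -/
theorem ctwo (H : ItZ R n t s h e E U ho vl kp ms mr mu Nb Nx be ls pc ar aT fr gn ka)
    {i j : ℕ} (hi : i < n) (hj : j < n) (hij : i ≠ j) {K K' : Finset ι} (hK : K ⊆ U)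
    (hK' : K' ⊆ U) (h1 : ∀ u ∈ K, ho u = i ∧ kp j u ≠ 0 ∧ vl u = 1)
    (h1' : ∀ u ∈ K', ho u = j ∧ kp i u ≠ 0 ∧ vl u = 1) :
    CTwo R (t i) (t j) K K' (fun u => mr j u + ar u + pc u * t j)
      fun u => mr i u + ar u + pc u * t i := by
  intro L hL L' hL' hc
  obtain ⟨w, hw⟩ := exists_mem_two (hL.trans hK) (hL'.trans hK') hc
  have h3 := H.cell_sub hi hj hij (hL.trans hK) (hL'.trans hK') (fun u hu => h1 u (hL hu))
    (fun u hu => h1' u (hL' hu)) hw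
  have h6 : 0 ≤ max 0 (ms i w - ∑ u ∈ L, pc u) * max 0 (ms j w - ∑ u ∈ L', pc u) :=
    mul_nonneg (le_max_left _ _) (le_max_left _ _)
  linarith

/-- **the closed cap**: the full units of the cell, both directions, without loss -/
theorem cap_full (H : ItZ R n t s h e E U ho vl kp ms mr mu Nb Nx be ls pc ar aT fr gn ka)
    {i j : ℕ} (hi : i < n) (hj : j < n) (hij : i ≠ j) {K K' : Finset ι} (hK : K ⊆ U)
    (hK' : K' ⊆ U) (h1 : ∀ u ∈ K, ho u = i ∧ kp j u ≠ 0 ∧ vl u = 1)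
    (h1' : ∀ u ∈ K', ho u = j ∧ kp i u ≠ 0 ∧ vl u = 1)
    (h2 : ∀ u ∈ K, ∀ l < n, kp l u ≠ 0 → l = j) (h2' : ∀ u ∈ K', ∀ l < n, kp l u ≠ 0 → l = i)
    (hl : ∀ u ∈ K, mr j u + ar u + pc u * t j ≤ 0)
    (hl' : ∀ u ∈ K', mr i u + ar u + pc u * t i ≤ 0) :
    R * ((K.card : ℤ) + K'.card - 1) ≤ t i * t j :=
  H.full_of hi hj hij (H.cman hi hj hij hK hK' h1 h1' h2 h2') hl hl'

end ItZ

end CapZ

end Pool.Agent.Lib.MP_f04ccf_co
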