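import Pool.Agent.Lib.MP_f04ccf_co.M.ItC
import Pool.Agent.Lib.MP_f04ccf_co.M.ShCap

/-!
MP_f04ccf_co, texts S and D: the closed caps of a cell over the items of version [C] (`CMan` of
`ShCap.lean`), with the shared arcs of the PC pairs in the losses.
-/

set_option autoImplicit false

namespace Pool.Agent.Lib.MP_f04ccf_co

open Finset

attribute [local instance] Classical.propDecidable

section CapC

variable {ι : Type*} {R : ℤ} {n : ℕ} {t s h e : ℕ → ℤ} {E : ℕ → ℕ → ℤ} {U : Finset ι} {ho : ι → ℕ}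
  {vl : ι → ℤ} {kp ms mr : ℕ → ι → ℤ} {mu Nb : ℕ → ℤ} {Nx : ℕ → ℕ → ℤ} {be : ℕ → ℕ → ℤ}
  {ls : ℕ → ℤ → ℤ} {pc ar : ι → ℤ} {aT : ℕ → ℤ} {NN FF pw : ℕ → ℕ → ℤ} {nu : ℕ → ι → ℤ}

namespace ItC

/-- **the cell test in Mantel's form**: the units of value one with all used ends in the cell,
rectangle of an item `w` of `i` with an end at `j` -/
theorem cell_man (H : ItC R n t s h e E U ho vl kp ms mr mu Nb Nx be ls pc ar aT NN FF pw nu)
    {i j : ℕ} (hi : i < n) (hj : j < n) (hij : i ≠ j) {K K' : Finset ι} (hK : K ⊆ U)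
    (hK' : K' ⊆ U) (h1 : ∀ u ∈ K, ho u = i ∧ kp j u ≠ 0 ∧ vl u = 1)
    (h1' : ∀ u ∈ K', ho u = j ∧ kp i u ≠ 0 ∧ vl u = 1)
    (h2 : ∀ u ∈ K, ∀ l < n, kp l u ≠ 0 → l = j) (h2' : ∀ u ∈ K', ∀ l < n, kp l u ≠ 0 → l = i)
    {w : ι} (hw : w ∈ U) (hwi : ho w = i) (hwv : vl w = 1) (hwj : kp j w ≠ 0) :
    (K.card : ℤ) * (R + t j) + (K'.card : ℤ) * (R + t i)
      + nu j w * max 0 (nu j w + pc w - ∑ u ∈ K', pc u)
      ≤ R + t i * t j + ((K.card : ℤ) + K'.card) ^ 2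
        + ∑ u ∈ K, (mr j u + ar u + pc u * t j) + ∑ u ∈ K', (mr i u + ar u + pc u * t i) := by
  have HY := H.toItY
  obtain ⟨h3, h4⟩ := HY.sum_pc hK
  obtain ⟨h5, h6⟩ := HY.sum_pc hK'
  obtain ⟨q, hq⟩ := pc_lower_man h3 h4 h5 h6
  have hI : ({i, j} : Finset ℕ) ⊆ range n := by
    intro l hl
    rcases mem_insert.1 hl with rfl | hl
    · exact mem_range.2 hi
    · rw [mem_singleton.1 hl]
      exact mem_range.2 hj
  have hc : (({i, j} : Finset ℕ).card : ℤ) = 2 := by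
    rw [card_pair hij]
    norm_num
  have h7 := H.cellf i hi j hj hij K hK (fun u hu => ⟨(h1 u hu).1, (h1 u hu).2.1⟩) K' hK'
    (fun u hu => ⟨(h1' u hu).1, (h1' u hu).2.1⟩) w hw hwi hwv hwj {i, j} hI (by simp) (by simp)
    (fun u hu l hl hk => by rw [h2 u hu l hl hk]; simp)
    (fun u hu l hl hk => by rw [h2' u hu l hl hk]; simp) q
  rw [HY.sum_kp1 hj hK h1, HY.sum_kp1 hi hK' h1', HY.sum_ls1 hj hK h1, HY.sum_ls1 hi hK' h1',
    hc] at h7
  linarith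

/-- **the source of `CMan`** -/
theorem cman (H : ItC R n t s h e E U ho vl kp ms mr mu Nb Nx be ls pc ar aT NN FF pw nu)
    {i j : ℕ} (hi : i < n) (hj : j < n) (hij : i ≠ j) {K K' : Finset ι} (hK : K ⊆ U)
    (hK' : K' ⊆ U) (h1 : ∀ u ∈ K, ho u = i ∧ kp j u ≠ 0 ∧ vl u = 1)
    (h1' : ∀ u ∈ K', ho u = j ∧ kp i u ≠ 0 ∧ vl u = 1)
    (h2 : ∀ u ∈ K, ∀ l < n, kp l u ≠ 0 → l = j) (h2' : ∀ u ∈ K', ∀ l < n, kp l u ≠ 0 → l = i) :
    CMan R (t i) (t j) K K' (fun u => mr j u + ar u + pc u * t j)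
      fun u => mr i u + ar u + pc u * t i := by
  intro L hL L' hL' hc
  rcases Nat.eq_zero_or_pos L.card with h3 | h3
  · obtain ⟨w, hw⟩ := card_pos.1 (show 0 < L'.card by omega)
    have h4 := H.cell_man hj hi (Ne.symm hij) (hL'.trans hK') (hL.trans hK)
      (fun u hu => h1' u (hL' hu)) (fun u hu => h1 u (hL hu)) (fun u hu => h2' u (hL' hu))
      (fun u hu => h2 u (hL hu)) (hK' (hL' hw)) (h1' w (hL' hw)).1 (h1' w (hL' hw)).2.2
      (h1' w (hL' hw)).2.1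
    have h5 : 0 ≤ nu i w * max 0 (nu i w + pc w - ∑ u ∈ L, pc u) :=
      mul_nonneg (H.nu0 w (hK' (hL' hw)) i hi) (le_max_left _ _)
    have h6 : ((L'.card : ℤ) + L.card) ^ 2 = ((L.card : ℤ) + L'.card) ^ 2 := by ring
    have h7 : t j * t i = t i * t j := by ring
    rw [h6, h7] at h4
    linarith
  · obtain ⟨w, hw⟩ := card_pos.1 h3
    have h4 := H.cell_man hi hj hij (hL.trans hK) (hL'.trans hK') (fun u hu => h1 u (hL hu))
      (fun u hu => h1' u (hL' hu)) (fun u hu => h2 u (hL hu)) (fun u hu => h2' u (hL' hu))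
      (hK (hL hw)) (h1 w (hL hw)).1 (h1 w (hL hw)).2.2 (h1 w (hL hw)).2.1
    have h5 : 0 ≤ nu j w * max 0 (nu j w + pc w - ∑ u ∈ L', pc u) :=
      mul_nonneg (H.nu0 w (hK (hL hw)) j hj) (le_max_left _ _)
    linarith

/-- the arcs of a unit with one used end, not a PC pair: the PC pairs of its host with its tail -/
lemma ar_plain (H : ItC R n t s h e E U ho vl kp ms mr mu Nb Nx be ls pc ar aT NN FF pw nu)
    {u : ι} (hu : u ∈ U) (hp : pc u = 0) {j : ℕ} (hj : j < n) (hjo : j ≠ ho u)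
    (h1 : ∀ l < n, kp l u ≠ 0 → l = j) : ar u ≤ be (ho u) j := by
  have h2 := H.arU u hu
  have h3 : ∑ l ∈ (range n).erase (ho u), (nu l u + if kp l u = 0 then 0 else be (ho u) l - pc u)
      ≤ ∑ l ∈ (range n).erase (ho u), (if l = j then be (ho u) j else 0) := by
    refine sum_le_sum fun l hl => ?_
    have hl' := mem_range.1 (mem_of_mem_erase hl)
    rw [H.nup u hu hp l hl', hp]
    by_cases h4 : kp l u = 0
    · rw [if_pos h4]
      by_cases h5 : l = j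
      · rw [if_pos h5]
        have := H.be0 (ho u) (H.hlt u hu) j hj
        linarith
      · rw [if_neg h5]
        norm_num
    · have h5 := h1 l hl' h4
      rw [if_neg h4, if_pos h5, h5]
      linarith
  have h4 : ∑ l ∈ (range n).erase (ho u), (if l = j then be (ho u) j else 0) = be (ho u) j := by
    rw [sum_ite_eq' ((range n).erase (ho u)) j fun _ => be (ho u) j,
      if_pos (mem_erase.2 ⟨hjo, mem_range.2 hj⟩)]
  linarith

/-- **the closed cap, version [C]**: the full units of a cell without PC pairs, both directions -/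
theorem cap_full (H : ItC R n t s h e E U ho vl kp ms mr mu Nb Nx be ls pc ar aT NN FF pw nu)
    {i j : ℕ} (hi : i < n) (hj : j < n) (hij : i ≠ j) {K K' : Finset ι} (hK : K ⊆ U)
    (hK' : K' ⊆ U) (h1 : ∀ u ∈ K, ho u = i ∧ kp j u ≠ 0 ∧ vl u = 1)
    (h1' : ∀ u ∈ K', ho u = j ∧ kp i u ≠ 0 ∧ vl u = 1)
    (h2 : ∀ u ∈ K, ∀ l < n, kp l u ≠ 0 → l = j) (h2' : ∀ u ∈ K', ∀ l < n, kp l u ≠ 0 → l = i)
    (h3 : ∀ u ∈ K, pc u = 0 ∧ mr j u ≤ 0) (h3' : ∀ u ∈ K', pc u = 0 ∧ mr i u ≤ 0)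
    (h4 : be i j = 0) (h4' : be j i = 0) :
    R * ((K.card : ℤ) + K'.card - 1) ≤ t i * t j := by
  refine H.toItY.full_of hi hj hij (H.cman hi hj hij hK hK' h1 h1' h2 h2') (fun u hu => ?_)
    fun u hu => ?_
  · obtain ⟨h5, h6⟩ := h3 u hu
    have h7 := (h1 u hu).1
    have h8 := H.ar_plain (hK hu) h5 hj (by rw [h7]; exact Ne.symm hij) (h2 u hu)
    rw [h7, h4] at h8
    change mr j u + ar u + pc u * t j ≤ 0
    rw [h5]
    linarith
  · obtain ⟨h5, h6⟩ := h3' u hu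
    have h7 := (h1' u hu).1
    have h8 := H.ar_plain (hK' hu) h5 hi (by rw [h7]; exact hij) (h2' u hu)
    rw [h7, h4'] at h8
    change mr i u + ar u + pc u * t i ≤ 0
    rw [h5]
    linarith

end ItC

end CapC

end Pool.Agent.Lib.MP_f04ccf_co
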