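import Pool.Agent.Lib.MP_f04ccf_co.M.ShCapP

/-!
MP_f04ccf_co, texts S and D: the closed caps in the letters `A = t + 1` (`Σ A ≤ R`), pure part.
`q` units in the cell of the rows `t`, `t'` with total loss `L`, `R (q - 1) ≤ t t' + L`:
**`R q ≤ A A' + (R + 1 - A - A') + L`**, that is `q ≤ R a a' + ρ + 1 / R + L / R`, `ρ = 1 - a - a'`.
-/

set_option autoImplicit false

namespace Pool.Agent.Lib.MP_f04ccf_co

open Finset

namespace ShCap

/-- **the cap with `A = t + 1`** -/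
theorem cap_A {R t t' q L : ℤ} (h : R * (q - 1) ≤ t * t' + L) :
    R * q ≤ (t + 1) * (t' + 1) + (R + 1 - (t + 1) - (t' + 1)) + L := by
  linarith

/-- **the row sum**: `q x` units in the cell of `x`, `J` the cells with content -/
theorem cap_A_sum {R t : ℤ} {t' q L : ℕ → ℤ} {J : Finset ℕ}
    (h : ∀ x ∈ J, R * (q x - 1) ≤ t * t' x + L x) :
    R * ∑ x ∈ J, q x ≤ (t + 1) * ∑ x ∈ J, (t' x + 1)
      + ∑ x ∈ J, (R + 1 - (t + 1) - (t' x + 1)) + ∑ x ∈ J, L x := by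
  rw [mul_sum, mul_sum, ← sum_add_distrib, ← sum_add_distrib]
  exact sum_le_sum fun x hx => cap_A (h x hx)

/-- the row sum with `Σ (t' + 1) ≤ R - (t + 1)` -/
theorem cap_A_row {R t : ℤ} {t' q L : ℕ → ℤ} {J : Finset ℕ} (ht : 0 ≤ t)
    (h : ∀ x ∈ J, R * (q x - 1) ≤ t * t' x + L x) (hs : ∑ x ∈ J, (t' x + 1) ≤ R - (t + 1)) :
    R * ∑ x ∈ J, q x ≤ (t + 1) * (R - (t + 1))
      + ∑ x ∈ J, (R + 1 - (t + 1) - (t' x + 1)) + ∑ x ∈ J, L x := by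
  have h1 := cap_A_sum h
  have h2 : (t + 1) * ∑ x ∈ J, (t' x + 1) ≤ (t + 1) * (R - (t + 1)) :=
    mul_le_mul_of_nonneg_left hs (by linarith)
  linarith

/-- the row sum with the number of the cells: `R Σ q ≤ t Σ t' + |J| R + Σ L` -/
theorem cap_row {R t : ℤ} {t' q L : ℕ → ℤ} {J : Finset ℕ}
    (h : ∀ x ∈ J, R * (q x - 1) ≤ t * t' x + L x) :
    R * ∑ x ∈ J, q x ≤ t * ∑ x ∈ J, t' x + J.card * R + ∑ x ∈ J, L x := by
  have h1 : ∑ x ∈ J, R * (q x - 1) ≤ ∑ x ∈ J, (t * t' x + L x) := sum_le_sum h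
  rw [← mul_sum, sum_sub_distrib, sum_add_distrib, ← mul_sum, sum_const, nsmul_eq_mul,
    mul_one] at h1
  linarith

/-- **the content of a row**: `R (q - 1) ≤ t t' + L` in every cell and at least `K` units in every cell
of `J` give `(K - 1) R Σ q ≤ K (t Σ t' + Σ L)` -/
theorem cap_big_row {R t K : ℤ} {t' q L : ℕ → ℤ} {J : Finset ℕ} (hR : 0 ≤ R) (hK1 : 1 ≤ K)
    (hK : ∀ x ∈ J, K ≤ q x) (h : ∀ x ∈ J, R * (q x - 1) ≤ t * t' x + L x) :
    (K - 1) * (R * ∑ x ∈ J, q x) ≤ K * (t * ∑ x ∈ J, t' x + ∑ x ∈ J, L x) := by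
  have h1 : ∑ x ∈ J, (K - 1) * (R * q x) ≤ ∑ x ∈ J, K * (t * t' x + L x) := by
    refine sum_le_sum fun x hx => ?_
    have h2 : 0 ≤ R * (q x - K) := mul_nonneg hR (by linarith [hK x hx])
    have h3 : K * (R * (q x - 1)) ≤ K * (t * t' x + L x) :=
      mul_le_mul_of_nonneg_left (h x hx) (by linarith)
    nlinarith
  rw [← mul_sum, ← mul_sum, ← mul_sum, sum_add_distrib, ← mul_sum] at h1
  exact h1

/-- **`V ≤ 2 a (1 - a)`**: hosted value `m`, served value `k`, `m + k = Σ q` -/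
theorem cap_V {R t m k : ℤ} {t' q L : ℕ → ℤ} {J : Finset ℕ} (ht : 0 ≤ t) (hm : 0 ≤ m)
    (hR : 0 ≤ R) (he : m + k = ∑ x ∈ J, q x)
    (h : ∀ x ∈ J, R * (q x - 1) ≤ t * t' x + L x) (hs : ∑ x ∈ J, (t' x + 1) ≤ R - (t + 1)) :
    R * (m + 2 * k) + R * m ≤ 2 * ((t + 1) * (R - (t + 1)))
      + 2 * ∑ x ∈ J, (R + 1 - (t + 1) - (t' x + 1)) + 2 * ∑ x ∈ J, L x := by
  have h1 := cap_A_row ht h hs
  rw [← he] at h1
  linarith

end ShCap

end Pool.Agent.Lib.MP_f04ccf_co
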