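import Mathlib.Data.Real.Basic
import Mathlib.Algebra.BigOperators.Ring.Finset
import Mathlib.Algebra.Order.BigOperators.Group.Finset
import Mathlib.Algebra.Order.Field.Basic
import Mathlib.Tactic.Linarith
import Mathlib.Tactic.Ring
import Mathlib.Tactic.FieldSimp
import Mathlib.Tactic.Positivity

/-!
MP_f04ccf_co, TEXT S, block (c): real half units and rectangles in the phi-form, pure.

* `ShH.rect_share`: items `u` in cells `{y u, z u}` with products `r u ≤ rho`: the shares
  `(v y z + v z y) r / N` sum up to at most all rectangles of all tests with the columns of the other row;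
* `ShH.b_le`: the end with more hits of a half unit misses at most `t z` (`z` the other end);
* `ShH.ends_lin`, `ShH.ends_bal`: the loss of a half unit is at most its loss at the ends of the range
  of `b'`;
* `ShH.amgm`: `sur - C k + T k ^ 2 / N ≥ 0` if `C ^ 2 N ≤ 4 T sur`.
-/

set_option autoImplicit false

namespace Pool.Agent.Lib.MP_f04ccf_co

open Finset

namespace ShH

section Share

variable {ι : Type*} {n : ℕ} {H : Finset ι} {y z : ι → ℕ}

/-- the items of the cell `{i, j}` -/
def inC (y z : ι → ℕ) (i j : ℕ) (u : ι) : Prop := (y u = i ∧ z u = j) ∨ (y u = j ∧ z u = i)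

instance (y z : ι → ℕ) (i j : ℕ) (u : ι) : Decidable (inC y z i j u) := by
  unfold inC
  infer_instance

lemma inC_symm {i j : ℕ} {u : ι} : inC y z i j u ↔ inC y z j i u := by
  unfold inC
  tauto

/-- **shares of the rectangles** -/
theorem rect_share (hy : ∀ u ∈ H, y u < n) (hz : ∀ u ∈ H, z u < n) (hne : ∀ u ∈ H, y u ≠ z u)
    {v rho N : ℕ → ℕ → ℝ} (hv : ∀ i < n, ∀ j < n, i ≠ j → 0 ≤ v i j)
    (hrs : ∀ i < n, ∀ j < n, rho i j = rho j i) (hr0 : ∀ i < n, ∀ j < n, i ≠ j → 0 ≤ rho i j)
    (hNs : ∀ i < n, ∀ j < n, N i j = N j i)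
    (hNc : ∀ i < n, ∀ j < n, i ≠ j → ((H.filter (inC y z i j)).card : ℝ) ≤ N i j)
    {r : ι → ℝ} (hr : ∀ u ∈ H, r u ≤ rho (y u) (z u)) :
    ∑ u ∈ H, (v (y u) (z u) + v (z u) (y u)) * r u / N (y u) (z u)
      ≤ ∑ i ∈ range n, ∑ j ∈ (range n).erase i, v i j * rho i j := by
  -- every share is the sum of its two parts
  have hNp : ∀ u ∈ H, 0 < N (y u) (z u) := by
    intro u hu
    have h1 := hNc (y u) (hy u hu) (z u) (hz u hu) (hne u hu)
    have h2 : u ∈ H.filter (inC y z (y u) (z u)) := mem_filter.2 ⟨hu, Or.inl ⟨rfl, rfl⟩⟩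
    have h3 : 0 < (H.filter (inC y z (y u) (z u))).card := card_pos.2 ⟨u, h2⟩
    have h4 : (0 : ℝ) < (H.filter (inC y z (y u) (z u))).card := by exact_mod_cast h3
    linarith
  have h1 : ∑ u ∈ H, (v (y u) (z u) + v (z u) (y u)) * r u / N (y u) (z u)
      ≤ ∑ u ∈ H, ∑ i ∈ range n, ∑ j ∈ (range n).erase i,
        if inC y z i j u then v i j * (rho i j / N i j) else 0 := by
    refine sum_le_sum fun u hu => ?_
    have hyu := hy u hu
    have hzu := hz u hu
    have hn := hne u hu
    have hN := hNp u hu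
    have h2 : ∀ i ∈ range n, ∀ j ∈ (range n).erase i,
        0 ≤ (if inC y z i j u then v i j * (rho i j / N i j) else 0) := by
      intro i hi j hj
      obtain ⟨hj1, hj2⟩ := mem_erase.1 hj
      have hi' := mem_range.1 hi
      have hj' := mem_range.1 hj2
      split_ifs with hc
      · have h3 : 0 < N i j := by
          rcases hc with ⟨h4, h5⟩ | ⟨h4, h5⟩
          · rw [← h4, ← h5]; exact hN
          · rw [hNs i hi' j hj', ← h4, ← h5]; exact hN
        exact mul_nonneg (hv i hi' j hj' (Ne.symm hj1))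
          (div_nonneg (hr0 i hi' j hj' (Ne.symm hj1)) h3.le)
      · exact le_refl 0
    have h3 : (v (y u) (z u) + v (z u) (y u)) * r u / N (y u) (z u)
        ≤ v (y u) (z u) * (rho (y u) (z u) / N (y u) (z u))
          + v (z u) (y u) * (rho (z u) (y u) / N (z u) (y u)) := by
      rw [← hrs (y u) hyu (z u) hzu, ← hNs (y u) hyu (z u) hzu, ← add_mul, mul_div_assoc]
      refine mul_le_mul_of_nonneg_left ?_ (add_nonneg (hv _ hyu _ hzu hn) (hv _ hzu _ hyu hn.symm))
      exact div_le_div_of_nonneg_right (hr u hu) hN.le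
    refine h3.trans ?_
    have hmy : y u ∈ range n := mem_range.2 hyu
    have hmz : z u ∈ (range n).erase (y u) := mem_erase.2 ⟨hn.symm, mem_range.2 hzu⟩
    have hmz' : z u ∈ (range n).erase (y u) := hmz
    have hmy' : y u ∈ (range n).erase (z u) := mem_erase.2 ⟨hn, hmy⟩
    have hzr : z u ∈ (range n).erase (y u) := hmz
    have e1 := add_sum_erase (range n) (fun i => ∑ j ∈ (range n).erase i,
      if inC y z i j u then v i j * (rho i j / N i j) else 0) hmy
    have e2 := add_sum_erase ((range n).erase (y u)) (fun i => ∑ j ∈ (range n).erase i,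
      if inC y z i j u then v i j * (rho i j / N i j) else 0) hzr
    have e3 : 0 ≤ ∑ i ∈ ((range n).erase (y u)).erase (z u), ∑ j ∈ (range n).erase i,
        (if inC y z i j u then v i j * (rho i j / N i j) else 0) :=
      sum_nonneg fun i hi => sum_nonneg fun j hj =>
        h2 i (mem_of_mem_erase (mem_of_mem_erase hi)) j hj
    have e4 : v (y u) (z u) * (rho (y u) (z u) / N (y u) (z u))
        ≤ ∑ j ∈ (range n).erase (y u),
          (if inC y z (y u) j u then v (y u) j * (rho (y u) j / N (y u) j) else 0) := by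
      have h4 := single_le_sum (f := fun j => if inC y z (y u) j u then
        v (y u) j * (rho (y u) j / N (y u) j) else 0) (fun j hj => h2 (y u) hmy j hj) hmz
      have h5 : inC y z (y u) (z u) u := Or.inl ⟨rfl, rfl⟩
      simpa only [if_pos h5] using h4
    have e5 : v (z u) (y u) * (rho (z u) (y u) / N (z u) (y u))
        ≤ ∑ j ∈ (range n).erase (z u),
          (if inC y z (z u) j u then v (z u) j * (rho (z u) j / N (z u) j) else 0) := by
      have h4 := single_le_sum (f := fun j => if inC y z (z u) j u then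
        v (z u) j * (rho (z u) j / N (z u) j) else 0)
        (fun j hj => h2 (z u) (mem_range.2 hzu) j hj) hmy'
      have h5 : inC y z (z u) (y u) u := Or.inr ⟨rfl, rfl⟩
      simpa only [if_pos h5] using h4
    linarith
  refine h1.trans ?_
  rw [sum_comm]
  refine sum_le_sum fun i hi => ?_
  rw [sum_comm]
  refine sum_le_sum fun j hj => ?_
  obtain ⟨hj1, hj2⟩ := mem_erase.1 hj
  have hi' := mem_range.1 hi
  have hj' := mem_range.1 hj2
  rw [← sum_filter, sum_const, nsmul_eq_mul]
  have h2 := hNc i hi' j hj' (Ne.symm hj1)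
  have hv' := hv i hi' j hj' (Ne.symm hj1)
  have hr' := hr0 i hi' j hj' (Ne.symm hj1)
  have h3 : (0 : ℝ) ≤ (H.filter (inC y z i j)).card := Nat.cast_nonneg _
  rcases (h3.trans h2).eq_or_lt with h4 | h4
  · rw [← h4, div_zero, mul_zero, mul_zero]
    exact mul_nonneg hv' hr'
  · have h5 : ((H.filter (inC y z i j)).card : ℝ) * (v i j * (rho i j / N i j))
        ≤ N i j * (v i j * (rho i j / N i j)) :=
      mul_le_mul_of_nonneg_right h2 (mul_nonneg hv' (div_nonneg hr' h4.le))
    have h6 : N i j * (v i j * (rho i j / N i j)) = v i j * rho i j := by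
      field_simp
    linarith

end Share

section Pure

variable {cy cz ty tz b b' al g T N : ℝ}

/-- **the end with more hits misses at most `tz`** (`cy + ty = cz + tz`) -/
theorem b_le (hR : cy + ty = cz + tz) (hty : 0 ≤ ty) (htz : 0 ≤ tz) (hb : 0 ≤ b)
    (hm : cz - b' ≤ cy - b) (hp : b * b' ≤ ty * tz) : b ≤ tz := by
  by_contra h
  push Not at h
  have h1 : b + ty - tz ≤ b' := by linarith
  have h2 : b * (b + ty - tz) ≤ b * b' := mul_le_mul_of_nonneg_left h1 hb
  nlinarith

/-- two blind ends: the hits of the two ends together (`c = R - t`) -/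
theorem hits_two (hb : b ≤ cy) (hb' : b' ≤ cz) (hp : b * b' ≤ ty * tz) :
    cz * b + cy * b' ≤ cy * cz + ty * tz := by
  nlinarith [mul_nonneg (sub_nonneg.2 hb) (sub_nonneg.2 hb')]

/-- for a fixed `b` the display is linear in `b'`: its least value on `[l, m]` is at an end -/
theorem ends_lin {l m : ℝ} (hl : l ≤ b') (hm : b' ≤ m) :
    min (g * (cz - l) - al * b + T * b * l / N) (g * (cz - m) - al * b + T * b * m / N)
      ≤ g * (cz - b') - al * b + T * b * b' / N := by
  have e : ∀ c : ℝ, g * (cz - c) - al * b + T * b * c / N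
      = g * cz - al * b + (T * b / N - g) * c := by
    intro c
    ring
  rw [e, e, e]
  rcases le_total 0 (T * b / N - g) with h | h
  · exact (min_le_left _ _).trans (by nlinarith)
  · exact (min_le_right _ _).trans (by nlinarith)

/-- other end empty (`b' = cz`, `b cz ≤ ty tz`): no loss if `al N ≤ T cz` -/
theorem empty_end (hN : 0 < N) (hb : 0 ≤ b) (h : al * N ≤ T * cz) :
    0 ≤ g * (cz - cz) - al * b + T * b * cz / N := by
  have h1 : al ≤ T * cz / N := (le_div_iff₀ hN).2 h
  have h2 := mul_le_mul_of_nonneg_right h1 hb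
  have h3 : T * cz / N * b = T * b * cz / N := by ring
  linarith

/-- `sur - C k + T k ^ 2 / N ≥ 0` if `C ^ 2 N ≤ 4 T sur` -/
theorem amgm {sur C k : ℝ} (hT : 0 < T) (hN : 0 < N) (h : C ^ 2 * N ≤ 4 * T * sur) :
    0 ≤ sur - C * k + T * k ^ 2 / N := by
  have h1 : 0 ≤ (2 * T * k - C * N) ^ 2 := sq_nonneg _
  have h2 : 0 ≤ 4 * T * (sur * N - C * k * N + T * k ^ 2) := by nlinarith
  have h3 : 0 ≤ sur * N - C * k * N + T * k ^ 2 := by
    by_contra h4
    push Not at h4
    nlinarith [mul_pos hT (neg_pos.2 h4)]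
  have h4 : sur - C * k + T * k ^ 2 / N = (sur * N - C * k * N + T * k ^ 2) / N := by
    field_simp
  rw [h4]
  exact div_nonneg h3 hN.le

/-- two equal rows of ends (`c_z - b' = c_y - b`, i.e. `b' = b + ty - tz`): the display -/
theorem ends_bal {sur : ℝ} (hR : cy + ty = cz + tz) (hT : 0 < T) (hN : 0 < N)
    (h : (al + g - T * (ty - tz) / N) ^ 2 * N ≤ 4 * T * (sur + g * cy)) :
    0 ≤ sur + (g * (cz - (b + ty - tz)) - al * b + T * b * (b + ty - tz) / N) := by
  have h1 := amgm (sur := sur + g * cy) (C := al + g - T * (ty - tz) / N) (k := b) hT hN h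
  have h2 : sur + (g * (cz - (b + ty - tz)) - al * b + T * b * (b + ty - tz) / N)
      = sur + g * cy - (al + g - T * (ty - tz) / N) * b + T * b ^ 2 / N := by
    have : cz = cy + ty - tz := by linarith
    rw [this]
    ring
  rw [h2]
  exact h1

end Pure

end ShH

end Pool.Agent.Lib.MP_f04ccf_co
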