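import Pool.Agent.Lib.MP_f04ccf_co.M.ShRowP
import Pool.Agent.Lib.MP_f04ccf_co.M.ItV

/-!
MP_f04ccf_co, TEXT S (shares): every row test in `d`-form, `d = mu - s`, `c = R - t`, with the REAL excess
`nfx i ≤ Nb i + 2 ∑ Nx i` of the energy of the row, and the general mixture with or without N-excess.

* `RowX .. i K sv`: the row test, used items `K`, saving `sv`; `ColX .. i j K pay`: the row test with the
  columns of the row `j`, payment (own cell or rectangle, and saving) `pay`; `ItE.rowX0`, `ItV.rowXs`,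
  `ColP.colX`, `ItV.colXp`, `ItV.colXr`, `ItV.colXf`: where they come from;
* `RowX.sh`: `2 c mu + 2 hits + sv - V (V + 1) ≤ 2 (R - V) d + nfx`, `V = mu + 2 k`;
* `ColX.sh`: `2 c mu + 2 hits + 2 (hits at j - cj (mu + 1)) + pay - W (W + 1) ≤ 2 (tj - W) d + nfx + arcs`;
* `ItZ.shN`: **N-free**: `2 c mu + 2 hits - V (V + 1) ≤ 2 (R - V) d`, `V = 2 (mu + k) ≤ R`, any sign of `s + k`;
* `ItZ.shS`: the energy against the slack,
  `2 c mu + 2 hits - (2 V' (V' + 1) - V (V + 1)) ≤ 2 (R - (2 V' - V)) d - nfx`, `V' = 2 (mu + k)`;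
* `ItZ.shMixA`: `a0 T + a TN + ∑ b_x T+_x + g slk` for any set of columns: the excess has the coefficient
  `a0 + ∑ b_x - g ≥ 0`; `ItZ.shMixN`: `g = a0 + ∑ b_x`, no excess.
-/

set_option autoImplicit false

namespace Pool.Agent.Lib.MP_f04ccf_co

open Finset

attribute [local instance] Classical.propDecidable

section ShN

variable {ι : Type*}

/-- **the real excess of the energy of the row `i`** (doubled) -/
def nfx (t s e mu : ℕ → ℤ) (i : ℕ) : ℤ :=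
  2 * e i + (mu i - s i) * (mu i - s i - 1) - 2 * (t i * mu i) - s i ^ 2 - s i

/-- **the row test of the row `i`**, used items `K`, saving `sv` (doubled) -/
def RowX (R : ℤ) (t s e : ℕ → ℤ) (kp mr : ℕ → ι → ℤ) (i : ℕ) (K : Finset ι) (sv : ℤ) : Prop :=
  2 * (R * s i) + 2 * ∑ u ∈ K, (kp i u * (R - t i) - mr i u) + sv
    ≤ 2 * e i + 4 * (∑ u ∈ K, kp i u) * (s i + 1)
      + 2 * (∑ u ∈ K, kp i u) * (2 * ∑ u ∈ K, kp i u - 1)

/-- **the row test of the row `i` with the columns of the row `j`**, used items `K`, payment `pay`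
(doubled) -/
def ColX (R : ℤ) (t s e : ℕ → ℤ) (U : Finset ι) (ho : ι → ℕ) (kp ms mr : ℕ → ι → ℤ)
    (be : ℕ → ℕ → ℤ) (pc ar : ι → ℤ) (i j : ℕ) (K : Finset ι) (pay : ℤ) : Prop :=
  2 * R * s i + 2 * ∑ u ∈ K, (kp i u * (R - t i) - mr i u)
      + 2 * ∑ u ∈ U.filter (fun u => ho u = i), (kp j u * (R - t j) - ms j u)
      + pay
      ≤ 2 * e i
        + 2 * (∑ u ∈ K, (2 * kp i u - if ho u = j then pc u * kp i u else 0) + (R - t j))
          * (s i + 1)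
        + (∑ u ∈ K, (2 * kp i u - if ho u = j then pc u * kp i u else 0))
          * (∑ u ∈ K, (2 * kp i u - if ho u = j then pc u * kp i u else 0) - 1)
        + 2 * ∑ u ∈ K, (if ho u = j then ar u else 2 * (R - t j) * kp i u)
        + 2 * (∑ u ∈ K, (if ho u = j then pc u * kp i u else 0)) * be i j

variable {R : ℤ} {n : ℕ} {t s h e : ℕ → ℤ} {E : ℕ → ℕ → ℤ} {U : Finset ι} {ho : ι → ℕ}
  {vl : ι → ℤ} {kp ms mr : ℕ → ι → ℤ} {mu Nb : ℕ → ℤ} {Nx : ℕ → ℕ → ℤ}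
  {be : ℕ → ℕ → ℤ} {ls : ℕ → ℤ → ℤ} {pc ar : ι → ℤ} {aT fr : ℕ → ℤ} {gn ka : ℕ → ℕ → ℤ}
  {fj pw : ℕ → ℕ → ℤ} {nu : ℕ → ι → ℤ} {us : ℕ → ℤ} {nq : ℕ → ℕ → ℕ → ℤ}

/-- **the row test in `d`-form with the real excess**: `V = mu + 2 k` -/
theorem RowX.sh {i : ℕ} {K : Finset ι} {sv : ℤ} (hc : RowX R t s e kp mr i K sv) {V : ℤ}
    (hV : V = mu i + 2 * ∑ u ∈ K, kp i u) :
    2 * ((R - t i) * mu i + ∑ u ∈ K, (kp i u * (R - t i) - mr i u)) + sv - V * (V + 1)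
      ≤ 2 * ((R - V) * (mu i - s i)) + nfx t s e mu i := by
  unfold RowX at hc
  unfold nfx
  generalize ∑ u ∈ K, (kp i u * (R - t i) - mr i u) = M at *
  generalize ∑ u ∈ K, kp i u = k at *
  subst hV
  nlinarith

/-- **the row test with columns in `d`-form with the real excess**: `W = mu + (2 k - q)` -/
theorem ColX.sh {i j : ℕ} {K : Finset ι} {pay : ℤ}
    (hc : ColX R t s e U ho kp ms mr be pc ar i j K pay) {q W : ℤ}
    (hq : q = ∑ u ∈ K, (if ho u = j then pc u * kp i u else 0))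
    (hW : W = mu i + (2 * ∑ u ∈ K, kp i u - q)) :
    2 * ((R - t i) * mu i + ∑ u ∈ K, (kp i u * (R - t i) - mr i u))
      + 2 * (∑ u ∈ U.filter (fun u => ho u = i), (kp j u * (R - t j) - ms j u)
        - (R - t j) * (mu i + 1)) + pay - W * (W + 1)
      ≤ 2 * ((t j - W) * (mu i - s i)) + nfx t s e mu i
        + (2 * ∑ u ∈ K, (if ho u = j then ar u else 2 * (R - t j) * kp i u)
          + 2 * (q * be i j)) := by
  unfold ColX at hc
  have e1 : ∑ u ∈ K, (2 * kp i u - if ho u = j then pc u * kp i u else 0)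
      = 2 * ∑ u ∈ K, kp i u - q := by
    rw [sum_sub_distrib, ← mul_sum, ← hq]
  rw [e1, ← hq] at hc
  unfold nfx
  generalize ∑ u ∈ K, (kp i u * (R - t i) - mr i u) = M at *
  generalize ∑ u ∈ K, kp i u = k at *
  generalize ∑ u ∈ U.filter (fun u => ho u = i), (kp j u * (R - t j) - ms j u) = G at *
  generalize ∑ u ∈ K, (if ho u = j then ar u else 2 * (R - t j) * kp i u) = A at *
  subst hW
  nlinarith

/-- the own cell paid -/
theorem ColP.colX {i j : ℕ} {K : Finset ι} {sv : ℤ}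
    (hc : ColP R t s e U ho kp ms mr Nx be pc ar pw i j K sv) :
    ColX R t s e U ho kp ms mr be pc ar i j K (2 * (Nx i j + pw i j) + sv) := by
  unfold ColP at hc
  unfold ColX
  linarith

namespace ItE

lemma nfx_le (H : ItE R n t s h e E U ho vl kp ms mr mu Nb Nx) {i : ℕ} (hi : i < n) :
    nfx t s e mu i ≤ Nb i + 2 * ∑ j ∈ (range n).erase i, Nx i j := by
  have h1 := H.ef hi
  unfold nfx
  linarith

/-- the row test without saving -/
theorem rowX0 (H : ItE R n t s h e E U ho vl kp ms mr mu Nb Nx) {i : ℕ} (hi : i < n)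
    {K : Finset ι} (hK : K ⊆ U) (hKh : ∀ u ∈ K, ho u ≠ i) : RowX R t s e kp mr i K 0 := by
  have h1 := H.row i hi K hK hKh
  unfold RowX
  linarith

end ItE

namespace ItZ

/-- **the N-free row test in `d`-form**: `V = 2 (mu + k) ≤ R` -/
theorem shN (H : ItZ R n t s h e E U ho vl kp ms mr mu Nb Nx be ls pc ar aT fr gn ka) {i : ℕ}
    (hi : i < n) {K : Finset ι} (hK : K ⊆ U) (hKh : ∀ u ∈ K, ho u ≠ i) {V : ℤ}
    (hV : V = 2 * (mu i + ∑ u ∈ K, kp i u)) (hR : V ≤ R) :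
    2 * ((R - t i) * mu i + ∑ u ∈ K, (kp i u * (R - t i) - mr i u)) - V * (V + 1)
      ≤ 2 * ((R - V) * (mu i - s i)) := by
  have h2 : ∑ u ∈ K, (kp i u * (R - t i) - mr i u)
      = (∑ u ∈ K, kp i u) * (R - t i) - ∑ u ∈ K, mr i u := by
    rw [sum_sub_distrib, ← sum_mul]
  have h3 : 0 ≤ ∑ u ∈ K, kp i u := sum_nonneg fun u hu => H.k0 u (hK hu) i hi
  have h4 : 0 ≤ ∑ u ∈ K, mr i u :=
    sum_nonneg fun u hu => (H.m0 u (hK hu) i hi).trans (H.msr u (hK hu) i hi)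
  have h5 : 0 ≤ mu i := by
    rw [H.hmu i hi]
    exact sum_nonneg fun u hu => by
      have := H.v1 u (mem_filter.1 hu).1
      linarith
  have h6 := H.t0 i hi
  rw [h2]
  rcases le_or_gt 0 (s i + ∑ u ∈ K, kp i u) with h0 | h0
  · have h1 := H.tzN i hi K hK hKh h0
    generalize ∑ u ∈ K, kp i u = k at *
    generalize ∑ u ∈ K, mr i u = M at *
    subst hV
    nlinarith
  · generalize ∑ u ∈ K, kp i u = k at *
    generalize ∑ u ∈ K, mr i u = M at *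
    subst hV
    have h7 : 0 ≤ (mu i + k) * t i := mul_nonneg (by linarith) h6
    have h8 : 0 ≤ (R - 2 * (mu i + k)) * (-(s i + k)) :=
      mul_nonneg (by linarith) (by linarith)
    nlinarith

/-- **the energy against the slack, in `d`-form**: `V = mu + 2 k`, `V' = 2 (mu + k)` -/
theorem shS (H : ItZ R n t s h e E U ho vl kp ms mr mu Nb Nx be ls pc ar aT fr gn ka) {i : ℕ}
    (hi : i < n) {K : Finset ι} (hK : K ⊆ U) (hKh : ∀ u ∈ K, ho u ≠ i) {V V' : ℤ}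
    (hV : V = mu i + 2 * ∑ u ∈ K, kp i u) (hV' : V' = 2 * (mu i + ∑ u ∈ K, kp i u))
    (h0 : 0 ≤ s i + ∑ u ∈ K, kp i u) :
    2 * ((R - t i) * mu i + ∑ u ∈ K, (kp i u * (R - t i) - mr i u))
      - (2 * (V' * (V' + 1)) - V * (V + 1))
      ≤ 2 * ((R - (2 * V' - V)) * (mu i - s i)) - nfx t s e mu i := by
  have h2 : ∑ u ∈ K, (kp i u * (R - t i) - mr i u)
      = (∑ u ∈ K, kp i u) * (R - t i) - ∑ u ∈ K, mr i u := by
    rw [sum_sub_distrib, ← sum_mul]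
  have h1 := H.slk i hi K hK hKh h0
  rw [h2]
  unfold nfx
  generalize ∑ u ∈ K, kp i u = k at *
  generalize ∑ u ∈ K, mr i u = M at *
  subst hV
  subst hV'
  nlinarith

/-- **every mixture** `a0 T + a TN + ∑ b_x T+_x + g slk`, `X` any set of columns -/
theorem shMixA (H : ItZ R n t s h e E U ho vl kp ms mr mu Nb Nx be ls pc ar aT fr gn ka) {i : ℕ}
    (hi : i < n) {a0 a g : ℤ} {b : ℕ → ℤ} {X : Finset ℕ} (ha0 : 0 ≤ a0) (ha : 0 ≤ a) (hg : 0 ≤ g)
    (hb : ∀ x ∈ X, 0 ≤ b x) (hN : g ≤ a0 + ∑ x ∈ X, b x)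
    {K0 K K2 : Finset ι} {K' : ℕ → Finset ι} {sv : ℤ} {pay : ℕ → ℤ}
    (hr : RowX R t s e kp mr i K0 sv) (hK : K ⊆ U) (hKh : ∀ u ∈ K, ho u ≠ i)
    (hK2 : K2 ⊆ U) (hKh2 : ∀ u ∈ K2, ho u ≠ i)
    (hc : ∀ x ∈ X, ColX R t s e U ho kp ms mr be pc ar i x (K' x) (pay x))
    {V0 V V1 V2 : ℤ} {q W : ℕ → ℤ}
    (hV0 : V0 = mu i + 2 * ∑ u ∈ K0, kp i u)
    (hV : V = 2 * (mu i + ∑ u ∈ K, kp i u)) (hR : V ≤ R)
    (hq : ∀ x ∈ X, q x = ∑ u ∈ K' x, (if ho u = x then pc u * kp i u else 0))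
    (hW : ∀ x ∈ X, W x = mu i + (2 * ∑ u ∈ K' x, kp i u - q x))
    (hV1 : V1 = mu i + 2 * ∑ u ∈ K2, kp i u) (hV2 : V2 = 2 * (mu i + ∑ u ∈ K2, kp i u))
    (h0 : 0 ≤ s i + ∑ u ∈ K2, kp i u) :
    2 * ((a0 + a + g + ∑ x ∈ X, b x) * ((R - t i) * mu i))
      + 2 * (a0 * ∑ u ∈ K0, (kp i u * (R - t i) - mr i u)
        + a * ∑ u ∈ K, (kp i u * (R - t i) - mr i u)
        + g * ∑ u ∈ K2, (kp i u * (R - t i) - mr i u)
        + ∑ x ∈ X, b x * ∑ u ∈ K' x, (kp i u * (R - t i) - mr i u))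
      + a0 * sv
      + ∑ x ∈ X, b x * (2 * (∑ u ∈ U.filter (fun u => ho u = i), (kp x u * (R - t x) - ms x u)
        - (R - t x) * (mu i + 1)) + pay x)
      - (a0 * (V0 * (V0 + 1)) + a * (V * (V + 1)) + g * (2 * (V2 * (V2 + 1)) - V1 * (V1 + 1))
        + ∑ x ∈ X, b x * (W x * (W x + 1)))
      ≤ 2 * ((a0 * (R - V0) + a * (R - V) + g * (R - (2 * V2 - V1))
          + ∑ x ∈ X, b x * (t x - W x)) * (mu i - s i))
        + (a0 + ∑ x ∈ X, b x - g) * (Nb i + 2 * ∑ x ∈ (range n).erase i, Nx i x)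
        + ∑ x ∈ X, b x * (2 * ∑ u ∈ K' x, (if ho u = x then ar u else 2 * (R - t x) * kp i u)
          + 2 * (q x * be i x)) := by
  have h1 := mul_le_mul_of_nonneg_left (hr.sh (mu := mu) hV0) ha0
  have h2 := mul_le_mul_of_nonneg_left (H.shN hi hK hKh hV hR) ha
  have h4 := mul_le_mul_of_nonneg_left (H.shS hi hK2 hKh2 hV1 hV2 h0) hg
  have h5 := mul_le_mul_of_nonneg_left (H.toItE.nfx_le hi) (sub_nonneg.2 hN)
  have h3 := sum_le_sum fun x hx =>
    mul_le_mul_of_nonneg_left ((hc x hx).sh (mu := mu) (hq x hx) (hW x hx)) (hb x hx)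
  have e1 : ∑ x ∈ X, b x * (2 * ((R - t i) * mu i
        + ∑ u ∈ K' x, (kp i u * (R - t i) - mr i u))
      + 2 * (∑ u ∈ U.filter (fun u => ho u = i), (kp x u * (R - t x) - ms x u)
        - (R - t x) * (mu i + 1)) + pay x - W x * (W x + 1))
      = 2 * ((∑ x ∈ X, b x) * ((R - t i) * mu i))
        + 2 * ∑ x ∈ X, b x * ∑ u ∈ K' x, (kp i u * (R - t i) - mr i u)
        + ∑ x ∈ X, b x * (2 * (∑ u ∈ U.filter (fun u => ho u = i),
          (kp x u * (R - t x) - ms x u) - (R - t x) * (mu i + 1)) + pay x)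
        - ∑ x ∈ X, b x * (W x * (W x + 1)) := by
    rw [sum_mul, mul_sum, mul_sum (s := X) (a := (2 : ℤ)), ← sum_add_distrib, ← sum_add_distrib,
      ← sum_sub_distrib]
    exact sum_congr rfl fun x _ => by ring
  have e2 : ∑ x ∈ X, b x * (2 * ((t x - W x) * (mu i - s i)) + nfx t s e mu i
      + (2 * ∑ u ∈ K' x, (if ho u = x then ar u else 2 * (R - t x) * kp i u)
        + 2 * (q x * be i x)))
      = 2 * ((∑ x ∈ X, b x * (t x - W x)) * (mu i - s i)) + (∑ x ∈ X, b x) * nfx t s e mu i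
        + ∑ x ∈ X, b x * (2 * ∑ u ∈ K' x, (if ho u = x then ar u else 2 * (R - t x) * kp i u)
          + 2 * (q x * be i x)) := by
    rw [sum_mul, mul_sum, sum_mul, ← sum_add_distrib, ← sum_add_distrib]
    exact sum_congr rfl fun x _ => by ring
  rw [e1, e2] at h3
  generalize ∑ u ∈ K0, (kp i u * (R - t i) - mr i u) = g0 at *
  generalize ∑ u ∈ K, (kp i u * (R - t i) - mr i u) = g1 at *
  generalize ∑ u ∈ K2, (kp i u * (R - t i) - mr i u) = g3 at *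
  generalize ∑ x ∈ X, b x * ∑ u ∈ K' x, (kp i u * (R - t i) - mr i u) = g2 at *
  generalize ∑ x ∈ X, b x * (2 * (∑ u ∈ U.filter (fun u => ho u = i),
    (kp x u * (R - t x) - ms x u) - (R - t x) * (mu i + 1)) + pay x) = G at *
  generalize ∑ x ∈ X, b x * (2 * ∑ u ∈ K' x, (if ho u = x then ar u
    else 2 * (R - t x) * kp i u) + 2 * (q x * be i x)) = A at *
  generalize ∑ x ∈ X, b x * (W x * (W x + 1)) = g4 at *
  generalize ∑ x ∈ X, b x * (t x - W x) = g5 at *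
  generalize ∑ x ∈ X, b x = B at *
  generalize ∑ x ∈ (range n).erase i, Nx i x = N1 at *
  generalize nfx t s e mu i = N0 at *
  linarith

/-- **every mixture without N-excess**: `a0 T + a TN + ∑ b_x T+_x + (a0 + ∑ b_x) slk` -/
theorem shMixN (H : ItZ R n t s h e E U ho vl kp ms mr mu Nb Nx be ls pc ar aT fr gn ka) {i : ℕ}
    (hi : i < n) {a0 a g : ℤ} {b : ℕ → ℤ} {X : Finset ℕ} (ha0 : 0 ≤ a0) (ha : 0 ≤ a)
    (hb : ∀ x ∈ X, 0 ≤ b x) (hg : g = a0 + ∑ x ∈ X, b x)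
    {K0 K K2 : Finset ι} {K' : ℕ → Finset ι} {sv : ℤ} {pay : ℕ → ℤ}
    (hr : RowX R t s e kp mr i K0 sv) (hK : K ⊆ U) (hKh : ∀ u ∈ K, ho u ≠ i)
    (hK2 : K2 ⊆ U) (hKh2 : ∀ u ∈ K2, ho u ≠ i)
    (hc : ∀ x ∈ X, ColX R t s e U ho kp ms mr be pc ar i x (K' x) (pay x))
    {V0 V V1 V2 : ℤ} {q W : ℕ → ℤ}
    (hV0 : V0 = mu i + 2 * ∑ u ∈ K0, kp i u)
    (hV : V = 2 * (mu i + ∑ u ∈ K, kp i u)) (hR : V ≤ R)
    (hq : ∀ x ∈ X, q x = ∑ u ∈ K' x, (if ho u = x then pc u * kp i u else 0))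
    (hW : ∀ x ∈ X, W x = mu i + (2 * ∑ u ∈ K' x, kp i u - q x))
    (hV1 : V1 = mu i + 2 * ∑ u ∈ K2, kp i u) (hV2 : V2 = 2 * (mu i + ∑ u ∈ K2, kp i u))
    (h0 : 0 ≤ s i + ∑ u ∈ K2, kp i u) :
    2 * ((a + 2 * g) * ((R - t i) * mu i))
      + 2 * (a0 * ∑ u ∈ K0, (kp i u * (R - t i) - mr i u)
        + a * ∑ u ∈ K, (kp i u * (R - t i) - mr i u)
        + g * ∑ u ∈ K2, (kp i u * (R - t i) - mr i u)
        + ∑ x ∈ X, b x * ∑ u ∈ K' x, (kp i u * (R - t i) - mr i u))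
      + a0 * sv
      + ∑ x ∈ X, b x * (2 * (∑ u ∈ U.filter (fun u => ho u = i), (kp x u * (R - t x) - ms x u)
        - (R - t x) * (mu i + 1)) + pay x)
      - (a0 * (V0 * (V0 + 1)) + a * (V * (V + 1)) + g * (2 * (V2 * (V2 + 1)) - V1 * (V1 + 1))
        + ∑ x ∈ X, b x * (W x * (W x + 1)))
      ≤ 2 * ((a0 * (R - V0) + a * (R - V) + g * (R - (2 * V2 - V1))
          + ∑ x ∈ X, b x * (t x - W x)) * (mu i - s i))
        + ∑ x ∈ X, b x * (2 * ∑ u ∈ K' x, (if ho u = x then ar u else 2 * (R - t x) * kp i u)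
          + 2 * (q x * be i x)) := by
  have h1 := H.shMixA hi ha0 ha (g := g) (by rw [hg]; exact add_nonneg ha0 (sum_nonneg hb)) hb
    hg.le hr hK hKh hK2 hKh2 hc hV0 hV hR hq hW hV1 hV2 h0
  have e1 : a0 + ∑ x ∈ X, b x - g = 0 := by rw [hg]; ring
  have e2 : a0 + a + g + ∑ x ∈ X, b x = a + 2 * g := by rw [hg]; ring
  rw [e1, e2, zero_mul, add_zero] at h1
  exact h1

end ItZ

namespace ItV

/-- the row test with the same-host saving -/
theorem rowXs (H : ItV R n t s h e E U ho vl kp ms mr mu Nb Nx be ls pc ar aT fr gn ka fj pw nu us nq)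
    {i : ℕ} (hi : i < n) {K : Finset ι} (hK : K ⊆ U) (hKh : ∀ u ∈ K, ho u ≠ i)
    (h0 : 0 ≤ s i + 1 + ∑ u ∈ K, kp i u) :
    RowX R t s e kp mr i K (∑ x ∈ range n,
      ((K.filter fun u => ho u = x ∧ kp i u = vl u).card : ℤ)
        * (((K.filter fun u => ho u = x ∧ kp i u = vl u).card : ℤ) - 1)) :=
  H.rows i hi K hK hKh h0

/-- columns of `j`, own cell paid, saving -/
theorem colXp (H : ItV R n t s h e E U ho vl kp ms mr mu Nb Nx be ls pc ar aT fr gn ka fj pw nu us nq)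
    {i j : ℕ} (hi : i < n) (hj : j < n) (hij : i ≠ j) {K : Finset ι} (hK : K ⊆ U)
    (hKh : ∀ u ∈ K, ho u ≠ i) (h0 : 0 ≤ s i + ∑ u ∈ K, kp i u) :
    ColX R t s e U ho kp ms mr be pc ar i j K (2 * (Nx i j + pw i j) + ∑ x ∈ range n,
      ((K.filter fun u => ho u = x ∧ kp i u = vl u ∧ (x = j → pc u = 0)).card : ℤ)
        * (((K.filter fun u => ho u = x ∧ kp i u = vl u ∧ (x = j → pc u = 0)).card : ℤ) - 1)) := by
  have h1 := H.rowp i hi j hj hij K hK hKh h0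
  unfold ColX
  linarith

/-- columns of `j`, rectangle of the item `w`, saving -/
theorem colXr (H : ItV R n t s h e E U ho vl kp ms mr mu Nb Nx be ls pc ar aT fr gn ka fj pw nu us nq)
    {i j : ℕ} (hi : i < n) (hj : j < n) (hij : i ≠ j) {K : Finset ι} (hK : K ⊆ U)
    (hKh : ∀ u ∈ K, ho u ≠ i) (h0 : 0 ≤ s i + ∑ u ∈ K, kp i u) {w : ι} (hw : w ∈ U) :
    ColX R t s e U ho kp ms mr be pc ar i j K (2 * (max 0 (ms i w - be i j)
        * max 0 (ms j w - ∑ u ∈ K, (if ho u = j then pc u * kp i u else 0))) + ∑ x ∈ range n,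
      ((K.filter fun u => ho u = x ∧ kp i u = vl u ∧ (x = j → pc u = 0)).card : ℤ)
        * (((K.filter fun u => ho u = x ∧ kp i u = vl u ∧ (x = j → pc u = 0)).card : ℤ) - 1)) := by
  have h1 := H.rowr i hi j hj hij K hK hKh h0 w hw
  unfold ColX
  linarith

/-- columns of `j`, rectangle of the N-type `w` of the host `j` with tail `i`, saving -/
theorem colXf (H : ItV R n t s h e E U ho vl kp ms mr mu Nb Nx be ls pc ar aT fr gn ka fj pw nu us nq)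
    {i j : ℕ} (hi : i < n) (hj : j < n) (hij : i ≠ j) {K : Finset ι} (hK : K ⊆ U)
    (hKh : ∀ u ∈ K, ho u ≠ i) (h0 : 0 ≤ s i + ∑ u ∈ K, kp i u) {w : ι} (hw : w ∈ U)
    (hwj : ho w = j) (hv : vl w = 1) (hk : kp i w ≠ 0) :
    ColX R t s e U ho kp ms mr be pc ar i j K (2 * (max 0 (nu i w + pc w - be i j) * nu i w)
      + ∑ x ∈ range n,
      ((K.filter fun u => ho u = x ∧ kp i u = vl u ∧ (x = j → pc u = 0)).card : ℤ)
        * (((K.filter fun u => ho u = x ∧ kp i u = vl u ∧ (x = j → pc u = 0)).card : ℤ) - 1)) := by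
  have h1 := H.rowf i hi j hj hij K hK hKh h0 w hw hwj hv hk
  unfold ColX
  linarith

end ItV

end ShN

end Pool.Agent.Lib.MP_f04ccf_co
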