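import Mathlib.Tactic.Linarith
import Mathlib.Tactic.Ring
import Mathlib.Tactic.FieldSimp
import Mathlib.Tactic.Positivity
import Mathlib.Algebra.BigOperators.Group.Finset.Basic
import Mathlib.Algebra.BigOperators.Ring.Finset
import Mathlib.Analysis.Real.Sqrt

/-!
MP_f04ccf_co, TEXT S (notes 17391, 17429, 17490, 17552), pure real lemmas.

* `n_group`: a group of `g` units with `κ` free arcs each (excess `g κ`) costs at most
  `g ^ 2 (X + Y) ^ 2 / (4 (Y + Z))`: `X` weight of the tests in which nothing is paid, `Y` of those in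
  which the rectangle `κ ^ 2` is used, `Z` a weight in which it is a pure gain;
  `n_group_sub` with the excess `g κ - g ^ 2 / 2`, `n_group_two` two directions with one rectangle.
* `phi_host`, `phi_used`, `phi_unit`: the two shares of a unit from linear inequalities.
* `phi_lin`: the linear form of the unit inequality in the contents of the row which uses the unit.
-/

set_option autoImplicit false

namespace Pool.Agent.Lib.MP_f04ccf_co

open Finset

section ShNN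

/-- **the square** -/
lemma n_group {X Y Z g κ : ℝ} (h : 0 < Y + Z) :
    X * (g * κ) + Y * (g * κ - κ ^ 2) - Z * κ ^ 2 ≤ g ^ 2 * (X + Y) ^ 2 / (4 * (Y + Z)) := by
  rw [le_div_iff₀ (by linarith)]
  nlinarith [sq_nonneg (g * (X + Y) - 2 * (Y + Z) * κ)]

/-- the square with the excess `g κ - g ^ 2 / 2` in the tests without payment -/
lemma n_group_sub {X Y Z g κ : ℝ} (h : 0 < Y + Z) :
    X * (g * κ - g ^ 2 / 2) + Y * (g * κ - κ ^ 2) - Z * κ ^ 2
      ≤ g ^ 2 * ((X + Y) ^ 2 / (4 * (Y + Z)) - X / 2) := by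
  have h1 := n_group (X := X) (g := g) (κ := κ) h
  have h2 : g ^ 2 * ((X + Y) ^ 2 / (4 * (Y + Z)) - X / 2)
      = g ^ 2 * (X + Y) ^ 2 / (4 * (Y + Z)) - X * g ^ 2 / 2 := by ring
  rw [h2]
  linarith

/-- the same with `C g κ - T κ ^ 2`: `C = X + Y`, `T = Y + Z` -/
lemma n_square {C T g κ : ℝ} (h : 0 < T) : C * (g * κ) - T * κ ^ 2 ≤ g ^ 2 * C ^ 2 / (4 * T) := by
  rw [le_div_iff₀ (by linarith)]
  nlinarith [sq_nonneg (g * C - 2 * T * κ)]

/-- **two directions, one rectangle `P`**, shared with the parameter `θ` -/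
lemma n_group_two {C₁ C₂ T g₁ g₂ κ₁ κ₂ P θ : ℝ} (hT : 0 < T) (h0 : 0 < θ) (h1 : θ < 1)
    (hP₁ : κ₁ ^ 2 ≤ P) (hP₂ : κ₂ ^ 2 ≤ P) :
    C₁ * (g₁ * κ₁) + C₂ * (g₂ * κ₂) - T * P
      ≤ g₁ ^ 2 * C₁ ^ 2 / (4 * (θ * T)) + g₂ ^ 2 * C₂ ^ 2 / (4 * ((1 - θ) * T)) := by
  have a1 := n_square (C := C₁) (g := g₁) (κ := κ₁) (mul_pos h0 hT)
  have a2 := n_square (C := C₂) (g := g₂) (κ := κ₂) (mul_pos (sub_pos.2 h1) hT)
  have a3 := mul_le_mul_of_nonneg_left hP₁ (mul_nonneg h0.le hT.le)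
  have a4 := mul_le_mul_of_nonneg_left hP₂ (mul_nonneg (sub_pos.2 h1).le hT.le)
  nlinarith

/-- two directions, the whole rectangle for both: `2 √(ab)` form, `g₁ C₁ κ₁ + g₂ C₂ κ₂ ≤
(g₁ C₁ + g₂ C₂) κ`, `κ` the larger one -/
lemma n_group_sum {C₁ C₂ T g₁ g₂ κ₁ κ₂ P : ℝ} (hT : 0 < T) (hC₁ : 0 ≤ C₁ * g₁) (hC₂ : 0 ≤ C₂ * g₂)
    (hP₁ : κ₁ ^ 2 ≤ P) (hP₂ : κ₂ ^ 2 ≤ P) :
    C₁ * (g₁ * κ₁) + C₂ * (g₂ * κ₂) - T * P ≤ (C₁ * g₁ + C₂ * g₂) ^ 2 / (4 * T) := by
  have hP : 0 ≤ P := le_trans (sq_nonneg _) hP₁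
  have a1 : κ₁ ≤ Real.sqrt P := Real.le_sqrt_of_sq_le hP₁
  have a2 : κ₂ ≤ Real.sqrt P := Real.le_sqrt_of_sq_le hP₂
  have a3 := mul_le_mul_of_nonneg_left a1 hC₁
  have a4 := mul_le_mul_of_nonneg_left a2 hC₂
  have a5 : Real.sqrt P ^ 2 = P := Real.sq_sqrt hP
  have a6 := n_square (C := 1) (T := T) (g := C₁ * g₁ + C₂ * g₂) (κ := Real.sqrt P) hT
  rw [a5] at a6
  have a7 : (C₁ * g₁ + C₂ * g₂) ^ 2 * 1 ^ 2 / (4 * T) = (C₁ * g₁ + C₂ * g₂) ^ 2 / (4 * T) := by ring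
  rw [a7] at a6
  linarith

/-- **the share of a hosted unit**: `H ≤ (A - c L) / (1 - L)` -/
lemma phi_host {A L c H : ℝ} (hL : L < 1) (h : H * (1 - L) ≤ A - c * L) :
    H ≤ (A - c * L) / (1 - L) := by
  rw [le_div_iff₀ (by linarith)]
  exact h

/-- the share of a hosted unit is at least its value at `L = 0` plus `(A - 1/2) L` -/
lemma phi_host_lin {A L : ℝ} (hL : L < 1) (hA : 1 / 2 ≤ A) :
    A + (A - 1 / 2) * L ≤ (A - L / 2) / (1 - L) := by
  rw [le_div_iff₀ (by linarith)]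
  nlinarith [mul_nonneg (sub_nonneg.2 hA) (sq_nonneg L)]

/-- the share of a hosted unit grows in `L` -/
lemma phi_host_mono {A L M : ℝ} (hLM : L ≤ M) (hM : M < 1) (hA : 1 / 2 ≤ A) :
    (A - L / 2) / (1 - L) ≤ (A - M / 2) / (1 - M) := by
  rw [div_le_div_iff₀ (by linarith) (by linarith)]
  nlinarith [mul_nonneg (sub_nonneg.2 hA) (sub_nonneg.2 hLM)]

/-- **the unit inequality**: host share at least `H`, used share `S / (1 - L)` -/
lemma phi_unit {A La Lb S H v : ℝ} (hLa : La < 1) (hLb : Lb < 1)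
    (hH : H * (1 - La) ≤ A - La / 2) (h : (v - H) * (1 - Lb) ≤ S) :
    v ≤ (A - La / 2) / (1 - La) + S / (1 - Lb) := by
  have h1 : H ≤ (A - La / 2) / (1 - La) := by rw [le_div_iff₀ (by linarith)]; exact hH
  have h2 : v - H ≤ S / (1 - Lb) := by rw [le_div_iff₀ (by linarith)]; exact h
  linarith

/-- the unit inequality with the host share `A + (A - 1/2) La` -/
lemma phi_unit_lin {A La Lb S v : ℝ} (hLa : La < 1) (hLb : Lb < 1) (hA : 1 / 2 ≤ A)
    (h : (v - A - (A - 1 / 2) * La) * (1 - Lb) ≤ S) :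
    v ≤ (A - La / 2) / (1 - La) + S / (1 - Lb) := by
  have h1 := phi_host_lin hLa hA
  have h2 : v - A - (A - 1 / 2) * La ≤ S / (1 - Lb) := by
    rw [le_div_iff₀ (by linarith)]; exact h
  linarith

/-- **the linear form** (17490), any weights: `v x` on the column `x`, `w` on the row test, `k x` used
units of `x`, `μ` hosted ones; the unit of `a` has the used share
`be - w (V - k a) - v a (V_a - k a)`, `V = μ + 2 ∑ k`, `V_a = μ + 2 k a` -/
lemma phi_lin {κ : Type*} [DecidableEq κ] {X : Finset κ} {a : κ} (ha : a ∈ X) {v k : κ → ℝ}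
    {w μ be H Lb S : ℝ}
    (hL : Lb = w * (μ + 2 * ∑ x ∈ X, k x) + ∑ x ∈ X, v x * (μ + 2 * k x))
    (hS : S = be - w * (μ + 2 * ∑ x ∈ X, k x - k a) - v a * (μ + k a)) :
    S - (1 - H) * (1 - Lb)
      = be + H - 1 - μ * (w + v a - (1 - H) * (w + ∑ x ∈ X, v x))
        - k a * (w + v a) * (2 * H - 1)
        - ∑ x ∈ X.erase a, 2 * k x * (H * w - (1 - H) * v x) := by
  have e1 : ∑ x ∈ X, v x * (μ + 2 * k x) = μ * ∑ x ∈ X, v x + 2 * ∑ x ∈ X, v x * k x := by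
    rw [mul_sum, mul_sum, ← sum_add_distrib]
    exact sum_congr rfl fun x _ => by ring
  have e2 : ∑ x ∈ X.erase a, 2 * k x * (H * w - (1 - H) * v x)
      = 2 * H * w * ∑ x ∈ X.erase a, k x - 2 * (1 - H) * ∑ x ∈ X.erase a, v x * k x := by
    rw [mul_sum, mul_sum, ← sum_sub_distrib]
    exact sum_congr rfl fun x _ => by ring
  have e3 : ∑ x ∈ X, k x = ∑ x ∈ X.erase a, k x + k a := (sum_erase_add X k ha).symm
  have e4 : ∑ x ∈ X, v x * k x = ∑ x ∈ X.erase a, v x * k x + v a * k a :=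
    (sum_erase_add X (fun x => v x * k x) ha).symm
  rw [hS, hL, e1, e2, e3, e4]
  ring

/-- **unit inequality from the linear form**, host share at least `H` -/
theorem phi_unit_sum {κ : Type*} [DecidableEq κ] {X : Finset κ} {a : κ} (ha : a ∈ X) {v k : κ → ℝ}
    {w μ be A H La Lb S s : ℝ} (hLa : La < 1) (hLb : Lb < 1)
    (hH : H * (1 - La) ≤ A - La / 2)
    (hL : Lb = w * (μ + 2 * ∑ x ∈ X, k x) + ∑ x ∈ X, v x * (μ + 2 * k x))
    (hS : S = be - w * (μ + 2 * ∑ x ∈ X, k x - k a) - v a * (μ + k a))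
    (h : s * (1 - Lb) + μ * (w + v a - (1 - H) * (w + ∑ x ∈ X, v x))
        + k a * (w + v a) * (2 * H - 1)
        + ∑ x ∈ X.erase a, 2 * k x * (H * w - (1 - H) * v x) ≤ be + H - 1) :
    1 + s ≤ (A - La / 2) / (1 - La) + S / (1 - Lb) := by
  refine phi_unit hLa hLb hH ?_
  have h1 := phi_lin (H := H) ha hL hS
  have h2 : (1 + s - H) * (1 - Lb) = s * (1 - Lb) + (1 - H) * (1 - Lb) := by ring
  rw [h2]
  linarith

end ShNN

end Pool.Agent.Lib.MP_f04ccf_co
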