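import Pool.Agent.Lib.MP_f04ccf_co.M.ShAll

/-!
MP_f04ccf_co, TEXT S: the phi-form (notes 17391, 17429, 17448).  A test of the row `z` is
`∑_hosted A u + ∑_K B u - V (V + 1) ≤ 2 (ρ - V) d + N` with `V = ∑_hosted v u + ∑_K v' u` (`Tst`);
`V (V + 1)` is split over the points, so any mixture of tests gives every item its share:

* `rowPhi`: `∑_hosted shH u + ∑_used shU u ≤ 2 D d + loss`, `D = ∑ w (ρ - V)`;
* `sumPhi`, `phi_false`: all rows, item by item, one divisor `D z` for every row;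
* instances: `ItE.tstT` (row test), `ItE.tstP` (row test with the columns of another row, own cell paid),
  `tst0` (`δ ≤ d`), `tstOf`, `Tst.loss` (moving losses to the items).
-/

set_option autoImplicit false

namespace Pool.Agent.Lib.MP_f04ccf_co

open Finset

attribute [local instance] Classical.propDecidable

section ShPhi

variable {ι κ : Type*}

/-- **one test of the row `z`**: hosted items with the left sides `A` and the points `v`, used items `K`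
with the left sides `B` and the points `v'`, all points `V`, slope `ρ`, loss `N` -/
def Tst (U : Finset ι) (ho : ι → ℕ) (z : ℕ) (d : ℝ) (K : Finset ι) (A B v v' : ι → ℝ)
    (V ρ N : ℝ) : Prop :=
  V = ∑ u ∈ U.filter (fun u => ho u = z), v u + ∑ u ∈ K, v' u ∧
  ∑ u ∈ U.filter (fun u => ho u = z), A u + ∑ u ∈ K, B u - V * (V + 1)
    ≤ 2 * ((ρ - V) * d) + N

/-- the share of a hosted item in the mixture `w` of the tests `J` -/
noncomputable def shH (J : Finset κ) (w V : κ → ℝ) (A v : κ → ι → ℝ) (u : ι) : ℝ :=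
  ∑ j ∈ J, w j * (A j u - v j u * (V j + 1))

/-- the share of a used item in the mixture `w` of the tests `J` -/
noncomputable def shU (J : Finset κ) (w V : κ → ℝ) (B v' : κ → ι → ℝ) (K : κ → Finset ι)
    (u : ι) : ℝ :=
  ∑ j ∈ J, if u ∈ K j then w j * (B j u - v' j u * (V j + 1)) else 0

/-- an item used in no test has no share -/
lemma shU_zero {J : Finset κ} {w V : κ → ℝ} {B v' : κ → ι → ℝ} {K : κ → Finset ι} {u : ι}
    (h : ∀ j ∈ J, u ∉ K j) : shU J w V B v' K u = 0 :=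
  sum_eq_zero fun j hj => if_neg (h j hj)

/-- **one row, phi-form** -/
theorem rowPhi {U : Finset ι} {ho : ι → ℕ} {z : ℕ} {d : ℝ} {J : Finset κ} {w : κ → ℝ}
    (hw : ∀ j ∈ J, 0 ≤ w j) {K : κ → Finset ι} (hK : ∀ j ∈ J, K j ⊆ U)
    (hKn : ∀ j ∈ J, ∀ u ∈ K j, ho u ≠ z) {A B v v' : κ → ι → ℝ} {V ρ N : κ → ℝ}
    (hT : ∀ j ∈ J, Tst U ho z d (K j) (A j) (B j) (v j) (v' j) (V j) (ρ j) (N j)) :
    ∑ u ∈ U.filter (fun u => ho u = z), shH J w V A v u
      + ∑ u ∈ U.filter (fun u => ho u ≠ z), shU J w V B v' K u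
      ≤ 2 * ((∑ j ∈ J, w j * (ρ j - V j)) * d) + ∑ j ∈ J, w j * N j := by
  have h1 : ∀ j ∈ J, w j * (∑ u ∈ U.filter (fun u => ho u = z), (A j u - v j u * (V j + 1))
      + ∑ u ∈ U.filter (fun u => ho u ≠ z),
        if u ∈ K j then B j u - v' j u * (V j + 1) else 0)
      ≤ w j * (2 * ((ρ j - V j) * d) + N j) := by
    intro j hj
    refine mul_le_mul_of_nonneg_left ?_ (hw j hj)
    obtain ⟨h2, h3⟩ := hT j hj
    have h4 : ∑ u ∈ U.filter (fun u => ho u ≠ z),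
        (if u ∈ K j then B j u - v' j u * (V j + 1) else 0)
        = ∑ u ∈ K j, (B j u - v' j u * (V j + 1)) := by
      rw [← sum_filter, filter_filter]
      refine sum_congr ?_ fun _ _ => rfl
      ext u
      rw [mem_filter]
      exact ⟨fun h5 => h5.2.2, fun h5 => ⟨hK j hj h5, hKn j hj u h5, h5⟩⟩
    rw [h4, sum_sub_distrib, sum_sub_distrib, ← sum_mul, ← sum_mul]
    have h5 : V j * (V j + 1) = (∑ u ∈ U.filter (fun u => ho u = z), v j u) * (V j + 1)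
        + (∑ u ∈ K j, v' j u) * (V j + 1) := by
      rw [← add_mul, ← h2]
    linarith
  have h2 := sum_le_sum h1
  have e1 : ∑ u ∈ U.filter (fun u => ho u = z), shH J w V A v u
      + ∑ u ∈ U.filter (fun u => ho u ≠ z), shU J w V B v' K u
      = ∑ j ∈ J, w j * (∑ u ∈ U.filter (fun u => ho u = z), (A j u - v j u * (V j + 1))
      + ∑ u ∈ U.filter (fun u => ho u ≠ z),
        if u ∈ K j then B j u - v' j u * (V j + 1) else 0) := by
    unfold shH shU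
    rw [sum_comm, sum_comm (s := U.filter fun u => ho u ≠ z), ← sum_add_distrib]
    refine sum_congr rfl fun j _ => ?_
    rw [mul_add, mul_sum, mul_sum]
    congr 1
    exact sum_congr rfl fun u _ => by split_ifs <;> ring
  have e2 : ∑ j ∈ J, w j * (2 * ((ρ j - V j) * d) + N j)
      = 2 * ((∑ j ∈ J, w j * (ρ j - V j)) * d) + ∑ j ∈ J, w j * N j := by
    rw [sum_mul, mul_sum, ← sum_add_distrib]
    exact sum_congr rfl fun j _ => by ring
  rw [e1, ← e2]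
  exact h2

/-- **all rows, item by item**: `D z = ∑ w (ρ - V)`, `∑ d = O - 1` -/
theorem sumPhi {n : ℕ} {U : Finset ι} {ho : ι → ℕ} (hlt : ∀ u ∈ U, ho u < n) {d : ℕ → ℝ}
    {J : ℕ → Finset κ} {w : ℕ → κ → ℝ} (hw : ∀ z < n, ∀ j ∈ J z, 0 ≤ w z j)
    {K : ℕ → κ → Finset ι} (hK : ∀ z < n, ∀ j ∈ J z, K z j ⊆ U)
    (hKn : ∀ z < n, ∀ j ∈ J z, ∀ u ∈ K z j, ho u ≠ z) {A B v v' : ℕ → κ → ι → ℝ}
    {V ρ N : ℕ → κ → ℝ}
    (hT : ∀ z < n, ∀ j ∈ J z, Tst U ho z (d z) (K z j) (A z j) (B z j) (v z j) (v' z j)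
      (V z j) (ρ z j) (N z j))
    {D : ℕ → ℝ} (hD : ∀ z < n, D z = ∑ j ∈ J z, w z j * (ρ z j - V z j))
    (hD0 : ∀ z < n, 0 < D z) :
    ∑ u ∈ U, (shH (J (ho u)) (w (ho u)) (V (ho u)) (A (ho u)) (v (ho u)) u / (2 * D (ho u))
        + ∑ z ∈ (range n).erase (ho u), shU (J z) (w z) (V z) (B z) (v' z) (K z) u / (2 * D z))
      ≤ ∑ z ∈ range n, d z + ∑ z ∈ range n, (∑ j ∈ J z, w z j * N z j) / (2 * D z) := by
  have h1 : ∀ z ∈ range n,
      (∑ u ∈ U.filter (fun u => ho u = z), shH (J z) (w z) (V z) (A z) (v z) u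
        + ∑ u ∈ U.filter (fun u => ho u ≠ z), shU (J z) (w z) (V z) (B z) (v' z) (K z) u)
        / (2 * D z)
      ≤ d z + (∑ j ∈ J z, w z j * N z j) / (2 * D z) := by
    intro z hz
    have hz' := mem_range.1 hz
    have h2 := rowPhi (hw z hz') (hK z hz') (hKn z hz') (hT z hz')
    rw [← hD z hz'] at h2
    have h3 := hD0 z hz'
    rw [div_le_iff₀ (by linarith)]
    have h4 : (∑ j ∈ J z, w z j * N z j) / (2 * D z) * (2 * D z) = ∑ j ∈ J z, w z j * N z j :=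
      div_mul_cancel₀ _ (by linarith)
    rw [add_mul, h4]
    linarith
  have h2 := sum_le_sum h1
  rw [sum_add_distrib] at h2
  refine le_trans (le_of_eq ?_) h2
  have e1 : ∑ z ∈ range n,
      (∑ u ∈ U.filter (fun u => ho u = z), shH (J z) (w z) (V z) (A z) (v z) u
        + ∑ u ∈ U.filter (fun u => ho u ≠ z), shU (J z) (w z) (V z) (B z) (v' z) (K z) u)
        / (2 * D z)
      = ∑ z ∈ range n, ∑ u ∈ U.filter (fun u => ho u = z),
          shH (J z) (w z) (V z) (A z) (v z) u / (2 * D z)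
        + ∑ z ∈ range n, ∑ u ∈ U.filter (fun u => ho u ≠ z),
          shU (J z) (w z) (V z) (B z) (v' z) (K z) u / (2 * D z) := by
    rw [← sum_add_distrib]
    refine sum_congr rfl fun z _ => ?_
    rw [add_div, sum_div, sum_div]
  have e2 : ∑ z ∈ range n, ∑ u ∈ U.filter (fun u => ho u = z),
        shH (J z) (w z) (V z) (A z) (v z) u / (2 * D z)
      = ∑ u ∈ U, shH (J (ho u)) (w (ho u)) (V (ho u)) (A (ho u)) (v (ho u)) u
        / (2 * D (ho u)) := by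
    rw [← sum_fiberwise_of_maps_to (fun u hu => mem_range.2 (hlt u hu))
      fun u => shH (J (ho u)) (w (ho u)) (V (ho u)) (A (ho u)) (v (ho u)) u / (2 * D (ho u))]
    refine sum_congr rfl fun z _ => sum_congr rfl fun u hu => ?_
    rw [(mem_filter.1 hu).2]
  have e3 : ∑ z ∈ range n, ∑ u ∈ U.filter (fun u => ho u ≠ z),
        shU (J z) (w z) (V z) (B z) (v' z) (K z) u / (2 * D z)
      = ∑ u ∈ U, ∑ z ∈ (range n).erase (ho u),
        shU (J z) (w z) (V z) (B z) (v' z) (K z) u / (2 * D z) := by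
    simp only [sum_filter]
    rw [sum_comm]
    refine sum_congr rfl fun u hu => ?_
    rw [← sum_erase_add _ _ (mem_range.2 (hlt u hu)), if_neg (fun h3 => h3 rfl), add_zero]
    exact sum_congr rfl fun z hz => if_pos (Ne.symm (mem_erase.1 hz).1)
  rw [e1, e2, e3, sum_add_distrib]

/-- **closing**: the values of the items (with a remainder `x u`, which may be summed over cells)
against the losses of the rows -/
theorem phi_false {n : ℕ} {U : Finset ι} {ho : ι → ℕ} (hlt : ∀ u ∈ U, ho u < n) {vl : ι → ℝ}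
    {d : ℕ → ℝ} (hd : ∑ z ∈ range n, d z = ∑ u ∈ U, vl u - 1)
    {J : ℕ → Finset κ} {w : ℕ → κ → ℝ} (hw : ∀ z < n, ∀ j ∈ J z, 0 ≤ w z j)
    {K : ℕ → κ → Finset ι} (hK : ∀ z < n, ∀ j ∈ J z, K z j ⊆ U)
    (hKn : ∀ z < n, ∀ j ∈ J z, ∀ u ∈ K z j, ho u ≠ z) {A B v v' : ℕ → κ → ι → ℝ}
    {V ρ N : ℕ → κ → ℝ}
    (hT : ∀ z < n, ∀ j ∈ J z, Tst U ho z (d z) (K z j) (A z j) (B z j) (v z j) (v' z j)
      (V z j) (ρ z j) (N z j))
    {D : ℕ → ℝ} (hD : ∀ z < n, D z = ∑ j ∈ J z, w z j * (ρ z j - V z j))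
    (hD0 : ∀ z < n, 0 < D z) {x : ι → ℝ} {L : ℕ → ℝ}
    (hx : ∀ u ∈ U, vl u ≤ x u
      + (shH (J (ho u)) (w (ho u)) (V (ho u)) (A (ho u)) (v (ho u)) u / (2 * D (ho u))
        + ∑ z ∈ (range n).erase (ho u), shU (J z) (w z) (V z) (B z) (v' z) (K z) u / (2 * D z)))
    (hL : ∀ z < n, ∑ j ∈ J z, w z j * N z j ≤ 2 * D z * L z)
    (hS : ∑ u ∈ U, x u + ∑ z ∈ range n, L z < 1) : False := by
  have h1 := sumPhi hlt hw hK hKn hT hD hD0
  have h2 := sum_le_sum hx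
  rw [sum_add_distrib] at h2
  have h3 : ∑ z ∈ range n, (∑ j ∈ J z, w z j * N z j) / (2 * D z) ≤ ∑ z ∈ range n, L z := by
    refine sum_le_sum fun z hz => ?_
    have h4 := hD0 z (mem_range.1 hz)
    rw [div_le_iff₀ (by linarith)]
    linarith [hL z (mem_range.1 hz)]
  linarith

/-- **one row, quotient form** -/
theorem rowPhiQ {U : Finset ι} {ho : ι → ℕ} {z : ℕ} {d : ℝ} {J : Finset κ} {w : κ → ℝ}
    (hw : ∀ j ∈ J, 0 ≤ w j) {K : κ → Finset ι} (hK : ∀ j ∈ J, K j ⊆ U)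
    (hKn : ∀ j ∈ J, ∀ u ∈ K j, ho u ≠ z) {A B v v' : κ → ι → ℝ} {V ρ N : κ → ℝ}
    (hT : ∀ j ∈ J, Tst U ho z d (K j) (A j) (B j) (v j) (v' j) (V j) (ρ j) (N j))
    {D : ℝ} (hD : D = ∑ j ∈ J, w j * (ρ j - V j)) (hD0 : 0 < D) :
    (∑ u ∈ U.filter (fun u => ho u = z), shH J w V A v u
      + ∑ u ∈ U.filter (fun u => ho u ≠ z), shU J w V B v' K u - ∑ j ∈ J, w j * N j) / (2 * D)
      ≤ d := by
  have h1 := rowPhi hw hK hKn hT
  rw [← hD] at h1
  rw [div_le_iff₀ (by linarith)]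
  linarith

/-! ### the tests -/

/-- losses of hosted and used items moved to the items -/
lemma Tst.loss {U : Finset ι} {ho : ι → ℕ} {z : ℕ} {d : ℝ} {K : Finset ι} {A B v v' : ι → ℝ}
    {V ρ N N' : ℝ} (h : Tst U ho z d K A B v v' V ρ N) {g l : ι → ℝ}
    (hN : N ≤ N' + ∑ u ∈ U.filter (fun u => ho u = z), g u + ∑ u ∈ K, l u) :
    Tst U ho z d K (fun u => A u - g u) (fun u => B u - l u) v v' V ρ N' := by
  refine ⟨h.1, ?_⟩
  have h2 := h.2
  rw [sum_sub_distrib, sum_sub_distrib]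
  linarith

/-- smaller left sides, larger loss -/
lemma Tst.mono {U : Finset ι} {ho : ι → ℕ} {z : ℕ} {d : ℝ} {K : Finset ι} {A B A' B' v v' : ι → ℝ}
    {V ρ N N' : ℝ} (h : Tst U ho z d K A B v v' V ρ N)
    (hA : ∀ u ∈ U, ho u = z → A' u ≤ A u) (hB : ∀ u ∈ K, B' u ≤ B u) (hN : N ≤ N') :
    Tst U ho z d K A' B' v v' V ρ N' := by
  refine ⟨h.1, ?_⟩
  have h2 := h.2
  have h3 : ∑ u ∈ U.filter (fun u => ho u = z), A' u ≤ ∑ u ∈ U.filter (fun u => ho u = z), A u :=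
    sum_le_sum fun u hu => hA u (mem_filter.1 hu).1 (mem_filter.1 hu).2
  have h4 : ∑ u ∈ K, B' u ≤ ∑ u ∈ K, B u := sum_le_sum hB
  linarith

/-- the trivial test `δ ≤ d` (slope one, no item) -/
lemma tst0 {U : Finset ι} {ho : ι → ℕ} {z : ℕ} {d δ : ℝ} (h : δ ≤ d) :
    Tst U ho z d ∅ (fun _ => 0) (fun _ => 0) (fun _ => 0) (fun _ => 0) 0 1 (-2 * δ) := by
  refine ⟨by simp, ?_⟩
  simp only [sum_const_zero]
  linarith

/-- a test from its numbers: `2 c μ + 2 hits - V (V + 1) ≤ 2 (ρ - V) d + N`, `V = a μ + ∑ v'` -/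
lemma tstOf {U : Finset ι} {ho : ι → ℕ} {z : ℕ} {d : ℝ} {K : Finset ι} {A B v v' : ι → ℝ}
    {V ρ N X Y : ℝ} (hX : ∑ u ∈ U.filter (fun u => ho u = z), A u ≤ X)
    (hY : ∑ u ∈ K, B u ≤ Y)
    (hV : V = ∑ u ∈ U.filter (fun u => ho u = z), v u + ∑ u ∈ K, v' u)
    (h : X + Y - V * (V + 1) ≤ 2 * ((ρ - V) * d) + N) : Tst U ho z d K A B v v' V ρ N :=
  ⟨hV, by linarith⟩

variable {R : ℤ} {n : ℕ} {t s h e : ℕ → ℤ} {E : ℕ → ℕ → ℤ} {U : Finset ι} {ho : ι → ℕ}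
  {vl : ι → ℤ} {kp ms mr : ℕ → ι → ℤ} {mu Nb : ℕ → ℤ} {Nx : ℕ → ℕ → ℤ}
  {be : ℕ → ℕ → ℤ} {pc ar : ι → ℤ} {pw : ℕ → ℕ → ℤ}

namespace ItE

lemma muR (H : ItE R n t s h e E U ho vl kp ms mr mu Nb Nx) {z : ℕ} (hz : z < n) :
    (mu z : ℝ) = ∑ u ∈ U.filter (fun u => ho u = z), (vl u : ℝ) := by
  rw [H.hmu z hz]
  push_cast
  rfl

/-- `∑ d = O - 1` over the reals -/
lemma sum_dR (H : ItE R n t s h e E U ho vl kp ms mr mu Nb Nx) :
    ∑ z ∈ range n, ((mu z : ℝ) - s z) = ∑ u ∈ U, (vl u : ℝ) - 1 := by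
  have h4 : ((∑ i ∈ range n, (mu i - s i) : ℤ) : ℝ) = ((∑ u ∈ U, vl u - 1 : ℤ) : ℝ) := by
    rw [H.sum_d]
  push_cast at h4
  exact h4

/-- **the row test** with the number of points `V = mu + 2 k` -/
theorem tstT (H : ItE R n t s h e E U ho vl kp ms mr mu Nb Nx) {z : ℕ} (hz : z < n)
    {K : Finset ι} (hK : K ⊆ U) (hKn : ∀ u ∈ K, ho u ≠ z) :
    Tst U ho z ((mu z : ℝ) - s z) K (fun u => 2 * ((R : ℝ) - t z) * vl u)
      (fun u => 2 * ((kp z u : ℝ) * ((R : ℝ) - t z) - mr z u)) (fun u => (vl u : ℝ))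
      (fun u => 2 * (kp z u : ℝ)) ((mu z : ℝ) + 2 * ∑ u ∈ K, (kp z u : ℝ)) R
      ((Nb z : ℝ) + 2 * ∑ x ∈ (range n).erase z, (Nx z x : ℝ)) := by
  have h1 := H.shTR hz hK hKn rfl
  refine tstOf (X := 2 * (((R : ℝ) - t z) * mu z)) (Y := 2 * hu R t kp mr K z) ?_ ?_ ?_ ?_
  · rw [← mul_sum, ← H.muR hz]
    linarith
  · unfold hu
    rw [mul_sum]
  · rw [← H.muR hz, mul_sum]
  · linarith

/-- **the row test with the columns of `x`, own cell paid, with a saving `sv`**: `W = mu + (2 k - q)` -/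
theorem tstP (H : ItE R n t s h e E U ho vl kp ms mr mu Nb Nx) {z x : ℕ} (hz : z < n) (hx : x < n)
    (hzx : z ≠ x) {K : Finset ι} {sv : ℤ}
    (hc : ColP R t s e U ho kp ms mr Nx be pc ar pw z x K sv) :
    Tst U ho z ((mu z : ℝ) - s z) K
      (fun u => 2 * ((t x : ℝ) - t z) * vl u + 2 * ((kp x u : ℝ) * ((R : ℝ) - t x) - ms x u))
      (fun u => 2 * ((kp z u : ℝ) * ((R : ℝ) - t z) - mr z u)
        - 2 * (if ho u = x then (ar u : ℝ) else 2 * ((R : ℝ) - t x) * kp z u)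
        - 2 * (if ho u = x then (pc u : ℝ) * kp z u else 0) * be z x)
      (fun u => (vl u : ℝ))
      (fun u => 2 * (kp z u : ℝ) - if ho u = x then (pc u : ℝ) * kp z u else 0)
      ((mu z : ℝ) + (2 * ∑ u ∈ K, (kp z u : ℝ) - qu ho kp pc K z x)) (t x)
      (2 * ((R : ℝ) - t x) + ((Nb z : ℝ) + 2 * ∑ y ∈ ((range n).erase z).erase x, (Nx z y : ℝ))
        - 2 * (pw z x : ℝ) - sv) := by
  have h1 := H.shPR hz hx hzx hc rfl
  refine tstOf (X := 2 * ((t x : ℝ) - t z) * mu z + 2 * hh R t U ho kp ms z x)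
    (Y := 2 * hu R t kp mr K z - lu R t ho kp be pc ar K z x) ?_ ?_ ?_ ?_
  · rw [sum_add_distrib, ← mul_sum, ← H.muR hz]
    unfold hh
    rw [mul_sum]
  · unfold hu lu qu
    rw [sum_sub_distrib, sum_sub_distrib, ← mul_sum, ← mul_sum, ← sum_mul, ← mul_sum]
    linarith
  · rw [← H.muR hz, sum_sub_distrib, ← mul_sum]
    rfl
  · linarith

end ItE

end ShPhi

end Pool.Agent.Lib.MP_f04ccf_co
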