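import Pool.Agent.Lib.MP_f04ccf_co.M.ItE

/-!
MP_f04ccf_co, PLAN W (notes 16457, 16567, 16761, 16792): the algebra layer of the V-route over `ItE`.
`K z` is any selection of the items hosted in `V` at the row `z`; `k z = ∑ kp`, `p = s + k`,
`y = mu + k`, `d = mu - s`.
`ItE.slotS`: the slot test of the rows `V` with the selections `K z` (the other hits are dropped).
`slot_mass`: one `t` eliminated by the mass.  `ItE.slotM`: both together.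
`ItE.rowT`: the row test in the form `2 R p ≤ 2 t y + (2 y - mu) (2 p + 1 - mu) + losses`,
`ItE.rowL`: the linear form `R p ≤ y (t + 2 p + 1) + losses`.
-/

set_option autoImplicit false

namespace Pool.Agent.Lib.MP_f04ccf_co

open Finset

attribute [local instance] Classical.propDecidable

/-- **one `t` eliminated by the mass**: `∑ t y = Y ∑ t - ∑ (Y - y) t ≤ Y (R - D) - ∑ (Y - y) t` -/
lemma slot_mass {V : Finset ℕ} {R D Y A : ℤ} {t y : ℕ → ℤ} (hD : ∑ z ∈ V, t z + D ≤ R)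
    (hY : 0 ≤ Y) (h : A ≤ ∑ z ∈ V, t z * y z) :
    A + Y * D + ∑ z ∈ V, (Y - y z) * t z ≤ Y * R := by
  have h1 : ∑ z ∈ V, (Y - y z) * t z = Y * ∑ z ∈ V, t z - ∑ z ∈ V, t z * y z := by
    rw [mul_sum, ← sum_sub_distrib]
    exact sum_congr rfl fun z _ => by ring
  have h2 := mul_le_mul_of_nonneg_left hD hY
  rw [h1]
  nlinarith

section VCore

variable {ι : Type*}

variable {R : ℤ} {n : ℕ} {t s h e : ℕ → ℤ} {E : ℕ → ℕ → ℤ} {U : Finset ι} {ho : ι → ℕ}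
  {vl : ι → ℤ} {kp ms mr : ℕ → ι → ℤ} {mu Nb : ℕ → ℤ} {Nx : ℕ → ℕ → ℤ}

namespace ItE

/-- the hits of an item at a row are not negative -/
lemma hit0 (H : ItE R n t s h e E U ho vl kp ms mr mu Nb Nx) {u : ι} (hu : u ∈ U) {i : ℕ}
    (hi : i < n) : 0 ≤ kp i u * (R - t i) - ms i u := by
  have h1 := H.msr u hu i hi
  have h2 := H.mrk u hu i hi
  linarith

/-- **the slot test of the rows `V` with a selection `K z` of the items hosted in `V` at each row** -/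
theorem slotS (H : ItE R n t s h e E U ho vl kp ms mr mu Nb Nx) {V : Finset ℕ}
    (hV : V ⊆ range n) {K : ℕ → Finset ι}
    (hK : ∀ z ∈ V, K z ⊆ U.filter (fun u => ho u ∈ V)) :
    2 * (R * ∑ z ∈ V, (s z + ∑ u ∈ K z, kp z u)) + ∑ z ∈ V, (mu z - s z) * (mu z - s z - 1)
      ≤ 2 * ∑ z ∈ V, t z * (mu z + ∑ u ∈ K z, kp z u)
        + V.card * (V.card - 1) * (R + 1) + (∑ z ∈ V, s z) ^ 2
        + (2 * V.card - 1) * ∑ z ∈ V, s z
        + ∑ z ∈ V, Nb z + 2 * ∑ z ∈ V, ∑ j ∈ range n \ V, Nx z j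
        + 2 * ∑ z ∈ V, ∑ u ∈ K z, ms z u := by
  have h1 := H.P V hV
  have h2 := H.pairs hV
  have h3 : ∑ i ∈ V, (2 * e i + (mu i - s i) * (mu i - s i - 1))
      ≤ ∑ i ∈ V, (2 * (t i * mu i) + s i ^ 2 + s i + Nb i + 2 * ∑ j ∈ (range n).erase i, Nx i j) :=
    sum_le_sum fun i hi => H.ef (mem_range.1 (hV hi))
  have h4 : ∀ i ∈ V, ∑ j ∈ (range n).erase i, Nx i j
      = ∑ j ∈ range n \ V, Nx i j + ∑ j ∈ V.erase i, Nx i j := by
    intro i hi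
    rw [← sum_sdiff (erase_subset_erase i hV)]
    congr 1
    refine sum_congr ?_ fun _ _ => rfl
    ext j
    rw [mem_sdiff, mem_sdiff, mem_erase, mem_erase]
    constructor
    · rintro ⟨⟨h5, h6⟩, h7⟩
      exact ⟨h6, fun h8 => h7 ⟨h5, h8⟩⟩
    · rintro ⟨h5, h6⟩
      exact ⟨⟨fun h7 => h6 (h7 ▸ hi), h5⟩, fun h7 => h6 h7.2⟩
  have h5 : ∑ i ∈ V, (2 * (t i * mu i) + s i ^ 2 + s i + Nb i
        + 2 * ∑ j ∈ (range n).erase i, Nx i j)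
      = 2 * ∑ i ∈ V, t i * mu i + ∑ i ∈ V, s i ^ 2 + ∑ i ∈ V, s i + ∑ i ∈ V, Nb i
        + 2 * ∑ i ∈ V, ∑ j ∈ range n \ V, Nx i j + 2 * ∑ i ∈ V, ∑ j ∈ V.erase i, Nx i j := by
    simp only [sum_add_distrib, ← mul_sum]
    rw [sum_congr rfl h4, sum_add_distrib]
    ring
  rw [sum_add_distrib, ← mul_sum, h5] at h3
  -- the selected hits
  have h6 : ∑ z ∈ V, ∑ u ∈ K z, (kp z u * (R - t z) - ms z u)
      ≤ ∑ u ∈ U.filter (fun u => ho u ∈ V), ∑ z ∈ V, (kp z u * (R - t z) - ms z u) := by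
    rw [sum_comm (s := U.filter fun u => ho u ∈ V)]
    refine sum_le_sum fun z hz => sum_le_sum_of_subset_of_nonneg (hK z hz) fun u hu _ => ?_
    exact H.hit0 (mem_filter.1 hu).1 (mem_range.1 (hV hz))
  have h7 : ∑ z ∈ V, ∑ u ∈ K z, (kp z u * (R - t z) - ms z u)
      = R * ∑ z ∈ V, ∑ u ∈ K z, kp z u - ∑ z ∈ V, t z * ∑ u ∈ K z, kp z u
        - ∑ z ∈ V, ∑ u ∈ K z, ms z u := by
    rw [mul_sum, ← sum_sub_distrib, ← sum_sub_distrib]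
    refine sum_congr rfl fun z _ => ?_
    rw [sum_sub_distrib, ← sum_mul]
    ring
  have h8 : ∑ z ∈ V, (s z + ∑ u ∈ K z, kp z u)
      = ∑ z ∈ V, s z + ∑ z ∈ V, ∑ u ∈ K z, kp z u := sum_add_distrib
  have h9 : ∑ z ∈ V, t z * (mu z + ∑ u ∈ K z, kp z u)
      = ∑ z ∈ V, t z * mu z + ∑ z ∈ V, t z * ∑ u ∈ K z, kp z u := by
    rw [← sum_add_distrib]
    exact sum_congr rfl fun z _ => by ring
  rw [h7] at h6
  rw [h8, h9]
  generalize ∑ u ∈ U.filter (fun u => ho u ∈ V), ∑ z ∈ V, (kp z u * (R - t z) - ms z u) = a1 at *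
  generalize ∑ z ∈ V, ∑ u ∈ K z, kp z u = a2 at *
  generalize ∑ z ∈ V, t z * ∑ u ∈ K z, kp z u = a3 at *
  generalize ∑ z ∈ V, ∑ u ∈ K z, ms z u = a4 at *
  generalize ∑ i ∈ V, ∑ j ∈ V.erase i, E i j = a5 at *
  generalize ∑ i ∈ V, ∑ j ∈ V.erase i, Nx i j = a6 at *
  generalize ∑ i ∈ V, s i ^ 2 = a7 at *
  generalize ∑ i ∈ V, s i = σ at *
  linarith

/-- **the slot test with the mass**: `Y ≥ 0` any level, `D` the rest of the mass,
`2 R (∑ p - Y) + 2 Y D + 2 ∑ (Y - y) t + ∑ d (d - 1) ≤ b (b - 1) (R + 1) + σ² + (2 b - 1) σ + ..` -/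
theorem slotM (H : ItE R n t s h e E U ho vl kp ms mr mu Nb Nx) {V : Finset ℕ}
    (hV : V ⊆ range n) {K : ℕ → Finset ι}
    (hK : ∀ z ∈ V, K z ⊆ U.filter (fun u => ho u ∈ V)) {D Y : ℤ}
    (hD : ∑ z ∈ V, t z + D ≤ R) (hY : 0 ≤ Y) :
    2 * (R * (∑ z ∈ V, (s z + ∑ u ∈ K z, kp z u) - Y)) + 2 * (Y * D)
      + 2 * ∑ z ∈ V, (Y - (mu z + ∑ u ∈ K z, kp z u)) * t z
      + ∑ z ∈ V, (mu z - s z) * (mu z - s z - 1)
      ≤ V.card * (V.card - 1) * (R + 1) + (∑ z ∈ V, s z) ^ 2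
        + (2 * V.card - 1) * ∑ z ∈ V, s z
        + ∑ z ∈ V, Nb z + 2 * ∑ z ∈ V, ∑ j ∈ range n \ V, Nx z j
        + 2 * ∑ z ∈ V, ∑ u ∈ K z, ms z u := by
  have h1 := H.slotS hV hK
  have h2 := slot_mass (A := ∑ z ∈ V, t z * (mu z + ∑ u ∈ K z, kp z u)) hD hY le_rfl
  nlinarith

/-- **the row test, factored**: `2 R p ≤ 2 t y + (2 y - mu) (2 p + 1 - mu) + losses` -/
theorem rowT (H : ItE R n t s h e E U ho vl kp ms mr mu Nb Nx) {i : ℕ} (hi : i < n)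
    {K : Finset ι} (hK : K ⊆ U) (hKh : ∀ u ∈ K, ho u ≠ i) :
    2 * (R * (s i + ∑ u ∈ K, kp i u))
      ≤ 2 * (t i * (mu i + ∑ u ∈ K, kp i u))
        + (2 * (mu i + ∑ u ∈ K, kp i u) - mu i) * (2 * (s i + ∑ u ∈ K, kp i u) + 1 - mu i)
        + Nb i + 2 * ∑ j ∈ (range n).erase i, Nx i j + 2 * ∑ u ∈ K, mr i u := by
  have h1 := H.tz hi hK hKh
  generalize ∑ u ∈ K, kp i u = k at *
  nlinarith

/-- **the row test, linear form**: `R p ≤ y (t + 2 p + 1) + losses` for `p ≥ 0` (doubled) -/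
theorem rowL (H : ItE R n t s h e E U ho vl kp ms mr mu Nb Nx) {i : ℕ} (hi : i < n)
    {K : Finset ι} (hK : K ⊆ U) (hKh : ∀ u ∈ K, ho u ≠ i)
    (hp : 0 ≤ s i + ∑ u ∈ K, kp i u) :
    2 * (R * (s i + ∑ u ∈ K, kp i u))
      ≤ 2 * ((mu i + ∑ u ∈ K, kp i u) * (t i + 2 * (s i + ∑ u ∈ K, kp i u) + 1))
        + Nb i + 2 * ∑ j ∈ (range n).erase i, Nx i j + 2 * ∑ u ∈ K, mr i u := by
  have h1 := H.rowT hi hK hKh
  have h2 := H.mu0 hi
  have h3 : 0 ≤ ∑ u ∈ K, kp i u := sum_nonneg fun u hu => H.k0 u (hK hu) i hi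
  generalize ∑ u ∈ K, kp i u = k at *
  generalize s i + k = p at *
  nlinarith [mul_nonneg h2 h2, mul_nonneg h2 h3, mul_nonneg h2 hp]

end ItE

end VCore

end Pool.Agent.Lib.MP_f04ccf_co
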