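import Pool.Agent.Lib.MP_f04ccf_co.M.ItY
import Pool.Agent.Lib.MP_f04ccf_co.M.VCore

/-!
MP_f04ccf_co, TEXT S (shares): the row tests in `d`-form, `d = mu - s`, `c = R - t`, and their combination.

* `ItE.shT`: `2 c mu + 2 hits - V (V + 1) ≤ 2 (R - V) d + N`, `V = mu + 2 k`;
* `ItY.shP`: the row test with the columns of the row `j`, items of `j` only:
  `2 ci mu + 2 hits + 2 (hits of i at j - cj (mu + 1)) - W (W + 1) ≤ 2 (tj - W) d + ..`;
* `ItY.shB`: `D' shT + ti shP`: `(ci cj - L) d ≥ cj (ci - ti) mu + ..`;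
* `shareA`: the shares `c mu` (host) and `T` (server) against `R d` (pure);
* `ItE.share_close`: shares with sum at least the value of every item, and row deficits with sum below one: False.
-/

set_option autoImplicit false

namespace Pool.Agent.Lib.MP_f04ccf_co

open Finset

attribute [local instance] Classical.propDecidable

section ShPure

/-- **shares A, exact**: the full selection against the shares `c mu` and `T` (any number `T`);
`H` the hits of the used items, `N` all losses (doubled) -/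
theorem shareA {R c mu H T V d N : ℤ} (hR : 0 ≤ R)
    (h : 2 * (c * mu + H) - V * (V + 1) ≤ 2 * ((R - V) * d) + N) :
    2 * (R * (H - T)) + 2 * (V * (c * mu + T)) - R * (V * (V + 1)) - R * N
      ≤ 2 * ((R - V) * (R * d - c * mu - T)) := by
  have h1 := mul_le_mul_of_nonneg_left h hR
  nlinarith

/-- **shares B, exact**: `L = t V₊ + D' V`, `Q = t V₊ ^ 2 + D' V ^ 2` -/
theorem shareB {R ci cj ti mu Hp Ht G d Np Nt V W : ℤ} (hD : 0 ≤ cj - ti) (ht : 0 ≤ ti)
    (hc : ci = R - ti)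
    (hT : 2 * (ci * mu + Ht) - V * (V + 1) ≤ 2 * ((R - V) * d) + Nt)
    (hP : 2 * (ci * mu + Hp) + 2 * (G - cj * (mu + 1)) - W * (W + 1)
      ≤ 2 * ((R - cj - W) * d) + Np) :
    2 * (cj * (ci - ti) * mu) + 2 * ((cj - ti) * Ht) + 2 * (ti * (Hp + G)) - 2 * (ti * cj)
      - ((cj - ti) * (V * (V + 1)) + ti * (W * (W + 1)))
      ≤ 2 * ((ci * cj - ((cj - ti) * V + ti * W)) * d) + (cj - ti) * Nt + ti * Np := by
  subst hc
  have h1 := mul_le_mul_of_nonneg_left hT hD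
  have h2 := mul_le_mul_of_nonneg_left hP ht
  nlinarith

end ShPure

section ShIt

variable {ι : Type*} {R : ℤ} {n : ℕ} {t s h e : ℕ → ℤ} {E : ℕ → ℕ → ℤ} {U : Finset ι} {ho : ι → ℕ}
  {vl : ι → ℤ} {kp ms mr : ℕ → ι → ℤ} {mu Nb : ℕ → ℤ} {Nx : ℕ → ℕ → ℤ}
  {be : ℕ → ℕ → ℤ} {ls : ℕ → ℤ → ℤ} {pc ar : ι → ℤ} {aT : ℕ → ℤ}

namespace ItE

/-- **T in `d`-form**: `V = mu + 2 k` -/
theorem shT (H : ItE R n t s h e E U ho vl kp ms mr mu Nb Nx) {i : ℕ} (hi : i < n) {K : Finset ι}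
    (hK : K ⊆ U) (hKh : ∀ u ∈ K, ho u ≠ i) {V : ℤ} (hV : V = mu i + 2 * ∑ u ∈ K, kp i u) :
    2 * ((R - t i) * mu i + ∑ u ∈ K, (kp i u * (R - t i) - mr i u)) - V * (V + 1)
      ≤ 2 * ((R - V) * (mu i - s i)) + (Nb i + 2 * ∑ j ∈ (range n).erase i, Nx i j) := by
  have h1 := H.tz hi hK hKh
  have h2 : ∑ u ∈ K, (kp i u * (R - t i) - mr i u)
      = (∑ u ∈ K, kp i u) * (R - t i) - ∑ u ∈ K, mr i u := by
    rw [sum_sub_distrib, ← sum_mul]
  rw [h2]
  generalize ∑ u ∈ K, kp i u = k at *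
  generalize ∑ u ∈ K, mr i u = M at *
  subst hV
  nlinarith

/-- **T in `d`-form with all points**, `V = mu + ∑ (vl + 1)` (items of value 1: the same, misses `ms`) -/
theorem shTa (H : ItE R n t s h e E U ho vl kp ms mr mu Nb Nx) {i : ℕ} (hi : i < n) {K : Finset ι}
    (hK : K ⊆ U) (hKh : ∀ u ∈ K, ho u ≠ i) (hk : ∀ u ∈ K, kp i u ≠ 0) {V : ℤ}
    (hV : V = mu i + ∑ u ∈ K, (vl u + 1)) :
    2 * ((R - t i) * mu i + ∑ u ∈ K, (kp i u * (R - t i) - ms i u)) - V * (V + 1)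
      ≤ 2 * ((R - V) * (mu i - s i)) + (Nb i + 2 * ∑ j ∈ (range n).erase i, Nx i j) := by
  have h1 := H.tza hi hK hKh hk
  have h2 : ∑ u ∈ K, (kp i u * (R - t i) - ms i u)
      = (∑ u ∈ K, kp i u) * (R - t i) - ∑ u ∈ K, ms i u := by
    rw [sum_sub_distrib, ← sum_mul]
  rw [h2]
  generalize ∑ u ∈ K, kp i u = k at *
  generalize ∑ u ∈ K, (vl u + 1) = w at *
  generalize ∑ u ∈ K, ms i u = M at *
  subst hV
  nlinarith

/-- the sum of `d` is `O - 1` -/
lemma sum_d (H : ItE R n t s h e E U ho vl kp ms mr mu Nb Nx) :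
    ∑ i ∈ range n, (mu i - s i) = ∑ u ∈ U, vl u - 1 := by
  have h1 : ∑ i ∈ range n, mu i = ∑ u ∈ U, vl u := by
    rw [sum_congr rfl fun i hi => H.hmu i (mem_range.1 hi)]
    exact sum_fiberwise_of_maps_to (fun u hu => mem_range.2 (H.hlt u hu)) vl
  rw [sum_sub_distrib, h1, H.ss]

/-- **the conclusion of every share system**: `al u` the share of the host of `u`, `w i u` the share
of the row `i`, `δ i` the deficit of the row `i` -/
theorem share_close (H : ItE R n t s h e E U ho vl kp ms mr mu Nb Nx) {al : ι → ℚ} {w : ℕ → ι → ℚ}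
    {δ : ℕ → ℚ}
    (h1 : ∀ u ∈ U, (vl u : ℚ) ≤ al u + ∑ i ∈ (range n).erase (ho u), w i u)
    (h2 : ∀ i < n, ∑ u ∈ U.filter (fun u => ho u = i), al u
      + ∑ u ∈ U.filter (fun u => ho u ≠ i), w i u - δ i ≤ ((mu i - s i : ℤ) : ℚ))
    (h3 : ∑ i ∈ range n, δ i < 1) : False := by
  have e1 : ∑ i ∈ range n, ∑ u ∈ U.filter (fun u => ho u = i), al u = ∑ u ∈ U, al u :=
    sum_fiberwise_of_maps_to (fun u hu => mem_range.2 (H.hlt u hu)) al
  have e2 : ∑ i ∈ range n, ∑ u ∈ U.filter (fun u => ho u ≠ i), w i u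
      = ∑ u ∈ U, ∑ i ∈ (range n).erase (ho u), w i u := by
    have h4 : ∀ i ∈ range n, ∑ u ∈ U.filter (fun u => ho u ≠ i), w i u
        = ∑ u ∈ U, if ho u ≠ i then w i u else 0 := fun i _ => sum_filter _ _
    rw [sum_congr rfl h4, sum_comm]
    refine sum_congr rfl fun u _ => ?_
    rw [← sum_filter]
    refine sum_congr ?_ fun _ _ => rfl
    ext i
    rw [mem_filter, mem_erase]
    constructor
    · rintro ⟨h5, h6⟩
      exact ⟨fun h7 => h6 h7.symm, h5⟩
    · rintro ⟨h5, h6⟩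
      exact ⟨h6, fun h7 => h5 h7.symm⟩
  have h4 := sum_le_sum fun i hi => h2 i (mem_range.1 hi)
  have h5 := sum_le_sum h1
  have h6 : ∑ i ∈ range n, ((mu i - s i : ℤ) : ℚ) = ∑ u ∈ U, (vl u : ℚ) - 1 := by
    have := H.sum_d
    rw [← Int.cast_sum, this]
    push_cast
    ring
  rw [sum_sub_distrib, sum_add_distrib, e1, e2, h6] at h4
  rw [sum_add_distrib] at h5
  linarith

end ItE

namespace ItY

/-- **T+ in `d`-form**, items of the row `j` only: `W = mu + (2 k - q)`, `q` the PC items used -/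
theorem shP (H : ItY R n t s h e E U ho vl kp ms mr mu Nb Nx be ls pc ar aT) {i j : ℕ}
    (hi : i < n) (hj : j < n) (hij : i ≠ j) {K : Finset ι} (hK : K ⊆ U)
    (hKh : ∀ u ∈ K, ho u = j) {q W : ℤ}
    (hq : q = ∑ u ∈ K, pc u * kp i u) (hW : W = mu i + (2 * ∑ u ∈ K, kp i u - q))
    (h0 : 0 ≤ s i + ∑ u ∈ K, kp i u) :
    2 * ((R - t i) * mu i + ∑ u ∈ K, (kp i u * (R - t i) - mr i u))
      + 2 * (∑ u ∈ U.filter (fun u => ho u = i), (kp j u * (R - t j) - ms j u)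
        - (R - t j) * (mu i + 1)) - W * (W + 1)
      ≤ 2 * ((R - (R - t j) - W) * (mu i - s i))
        + (Nb i + 2 * ∑ x ∈ (range n).erase i, Nx i x + 2 * ∑ u ∈ K, ar u + 2 * (q * be i j)) := by
  have h1 := H.tplusH hi hj hij hK hKh rfl hq h0
  have h2 : ∑ u ∈ K, (kp i u * (R - t i) - mr i u)
      = (∑ u ∈ K, kp i u) * (R - t i) - ∑ u ∈ K, mr i u := by
    rw [sum_sub_distrib, ← sum_mul]
  have h3 : ∑ u ∈ U.filter (fun u => ho u = i), (kp j u * (R - t j) - ms j u)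
      = lod U ho kp i j * (R - t j) - lod U ho ms i j := by
    unfold lod
    rw [sum_sub_distrib, ← sum_mul]
  rw [h2, h3]
  generalize ∑ u ∈ K, kp i u = k at *
  generalize ∑ u ∈ K, mr i u = M at *
  generalize lod U ho kp i j = A at *
  generalize lod U ho ms i j = B at *
  subst hW
  nlinarith

/-- **the combination `D' T + ti T+`**: `K` any items, `K'` items of the row `j` -/
theorem shB (H : ItY R n t s h e E U ho vl kp ms mr mu Nb Nx be ls pc ar aT) {i j : ℕ}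
    (hi : i < n) (hj : j < n) (hij : i ≠ j) (hD : t i ≤ R - t j) {K K' : Finset ι} (hK : K ⊆ U)
    (hKh : ∀ u ∈ K, ho u ≠ i) (hK' : K' ⊆ U) (hKh' : ∀ u ∈ K', ho u = j) {q V W : ℤ}
    (hV : V = mu i + 2 * ∑ u ∈ K, kp i u)
    (hq : q = ∑ u ∈ K', pc u * kp i u) (hW : W = mu i + (2 * ∑ u ∈ K', kp i u - q))
    (h0 : 0 ≤ s i + ∑ u ∈ K', kp i u) :
    2 * ((R - t j) * (R - t i - t i) * mu i)
      + 2 * ((R - t j - t i) * ∑ u ∈ K, (kp i u * (R - t i) - mr i u))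
      + 2 * (t i * (∑ u ∈ K', (kp i u * (R - t i) - mr i u)
        + ∑ u ∈ U.filter (fun u => ho u = i), (kp j u * (R - t j) - ms j u)))
      - 2 * (t i * (R - t j)) - ((R - t j - t i) * (V * (V + 1)) + t i * (W * (W + 1)))
      ≤ 2 * (((R - t i) * (R - t j) - ((R - t j - t i) * V + t i * W)) * (mu i - s i))
        + (R - t j - t i) * (Nb i + 2 * ∑ x ∈ (range n).erase i, Nx i x)
        + t i * (Nb i + 2 * ∑ x ∈ (range n).erase i, Nx i x + 2 * ∑ u ∈ K', ar u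
          + 2 * (q * be i j)) := by
  have h1 := H.toItE.shT hi hK hKh hV
  have h2 := H.shP hi hj hij hK' hKh' hq hW h0
  exact shareB (by linarith) (H.t0 i hi) rfl h1 h2

end ItY

end ShIt

end Pool.Agent.Lib.MP_f04ccf_co
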