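import Pool.Agent.Lib.MP_f04ccf_co.M.ShRow

/-!
MP_f04ccf_co, TEXT S (shares): the row test with the columns of the row `j`, THE OWN CELL PAID, with a
saving, in `T`-form and in `d`-form, `d = mu - s`, `c = R - t`.  `ColP`: the inequality as it comes from
the frame (`WCoreK.rowcP_sameI`, one row, one column row, one set of used items), `pw` the paid free arcs
of the PC pairs, `sv` the (doubled) saving.

* `ItE.tplusP`: T-form;
* `ItE.shPP`: `d`-form, any used items, `W = mu + (2 k - q)`: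
  `2 ci mu + 2 hits + 2 (hits of i at j - cj (mu + 1)) + sv - W (W + 1) ≤ 2 (tj - W) d + ..`, the N-excess
  of the tail `j` does not occur any more;
* `ItE.shPPH`: items of the row `j` only;
* `ItE.shMix`: `a T + b T+` for any weights; `ItE.shBB`: `D' T + ti T+`.
-/

set_option autoImplicit false

namespace Pool.Agent.Lib.MP_f04ccf_co

open Finset

attribute [local instance] Classical.propDecidable

section ShIt

variable {ι : Type*}

/-- **the row test with the columns of `j`, own cell paid, saving `sv`**, one set `K` of used items -/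
def ColP (R : ℤ) (t s e : ℕ → ℤ) (U : Finset ι) (ho : ι → ℕ) (kp ms mr : ℕ → ι → ℤ)
    (Nx be : ℕ → ℕ → ℤ) (pc ar : ι → ℤ) (pw : ℕ → ℕ → ℤ) (i j : ℕ) (K : Finset ι) (sv : ℤ) : Prop :=
  2 * R * s i + 2 * ∑ u ∈ K, (kp i u * (R - t i) - mr i u)
      + 2 * ∑ u ∈ U.filter (fun u => ho u = i), (kp j u * (R - t j) - ms j u)
      + 2 * (Nx i j + pw i j) + sv
      ≤ 2 * e i
        + 2 * (∑ u ∈ K, (2 * kp i u - if ho u = j then pc u * kp i u else 0) + (R - t j))
          * (s i + 1)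
        + (∑ u ∈ K, (2 * kp i u - if ho u = j then pc u * kp i u else 0))
          * (∑ u ∈ K, (2 * kp i u - if ho u = j then pc u * kp i u else 0) - 1)
        + 2 * ∑ u ∈ K, (if ho u = j then ar u else 2 * (R - t j) * kp i u)
        + 2 * (∑ u ∈ K, (if ho u = j then pc u * kp i u else 0)) * be i j

variable {R : ℤ} {n : ℕ} {t s h e : ℕ → ℤ} {E : ℕ → ℕ → ℤ} {U : Finset ι} {ho : ι → ℕ}
  {vl : ι → ℤ} {kp ms mr : ℕ → ι → ℤ} {mu Nb : ℕ → ℤ} {Nx : ℕ → ℕ → ℤ}
  {be : ℕ → ℕ → ℤ} {pc ar : ι → ℤ} {pw : ℕ → ℕ → ℤ}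

namespace ItE

/-- **T+ paid, in T-form**: `N'` is the N-excess outside the cell `i j` -/
theorem tplusP (H : ItE R n t s h e E U ho vl kp ms mr mu Nb Nx) {i j : ℕ}
    (hi : i < n) (hj : j < n) (hij : i ≠ j) {K : Finset ι} {sv : ℤ}
    (hc : ColP R t s e U ho kp ms mr Nx be pc ar pw i j K sv)
    {k q : ℤ} (hk : k = ∑ u ∈ K, kp i u)
    (hq : q = ∑ u ∈ K, (if ho u = j then pc u * kp i u else 0)) :
    2 * (R * (s i + k)) + 2 * ((R - t j) * (lod U ho kp i j - s i - 1))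
      + (mu i - s i) * (mu i - s i - 1) + 2 * pw i j + sv
      ≤ 2 * (t i * (mu i + k)) + (s i + (2 * k - q)) * (s i + (2 * k - q) + 1)
        + Nb i + 2 * ∑ x ∈ ((range n).erase i).erase j, Nx i x
        + 2 * ∑ u ∈ K, mr i u + 2 * lod U ho ms i j
        + 2 * ∑ u ∈ K, (if ho u = j then ar u else 2 * (R - t j) * kp i u)
        + 2 * (q * be i j) := by
  unfold ColP at hc
  have h2 := H.ef hi
  have h3 : Nx i j + ∑ x ∈ ((range n).erase i).erase j, Nx i x = ∑ x ∈ (range n).erase i, Nx i x :=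
    add_sum_erase _ _ (mem_erase.2 ⟨fun h4 => hij h4.symm, mem_range.2 hj⟩)
  have e1 : ∑ u ∈ K, (2 * kp i u - if ho u = j then pc u * kp i u else 0) = 2 * k - q := by
    rw [sum_sub_distrib, ← mul_sum, ← hk, ← hq]
  rw [e1, ← hq, sum_hitx] at hc
  have e2 : ∑ u ∈ K, (kp i u * (R - t i) - mr i u) = k * (R - t i) - ∑ u ∈ K, mr i u := by
    rw [sum_sub_distrib, ← sum_mul, ← hk]
  rw [e2] at hc
  unfold hitx at hc
  nlinarith

/-- **T+ paid, in `d`-form**, any used items: `W = mu + (2 k - q)` -/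
theorem shPP (H : ItE R n t s h e E U ho vl kp ms mr mu Nb Nx) {i j : ℕ}
    (hi : i < n) (hj : j < n) (hij : i ≠ j) {K : Finset ι} {sv : ℤ}
    (hc : ColP R t s e U ho kp ms mr Nx be pc ar pw i j K sv) {q W : ℤ}
    (hq : q = ∑ u ∈ K, (if ho u = j then pc u * kp i u else 0))
    (hW : W = mu i + (2 * ∑ u ∈ K, kp i u - q)) :
    2 * ((R - t i) * mu i + ∑ u ∈ K, (kp i u * (R - t i) - mr i u))
      + 2 * (∑ u ∈ U.filter (fun u => ho u = i), (kp j u * (R - t j) - ms j u)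
        - (R - t j) * (mu i + 1)) + 2 * pw i j + sv - W * (W + 1)
      ≤ 2 * ((t j - W) * (mu i - s i))
        + (Nb i + 2 * ∑ x ∈ ((range n).erase i).erase j, Nx i x
          + 2 * ∑ u ∈ K, (if ho u = j then ar u else 2 * (R - t j) * kp i u)
          + 2 * (q * be i j)) := by
  have h1 := H.tplusP hi hj hij hc rfl hq
  have h2 : ∑ u ∈ K, (kp i u * (R - t i) - mr i u)
      = (∑ u ∈ K, kp i u) * (R - t i) - ∑ u ∈ K, mr i u := by
    rw [sum_sub_distrib, ← sum_mul]
  have h3 : ∑ u ∈ U.filter (fun u => ho u = i), (kp j u * (R - t j) - ms j u)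
      = lod U ho kp i j * (R - t j) - lod U ho ms i j := by
    unfold lod
    rw [sum_sub_distrib, ← sum_mul]
  rw [h2, h3]
  generalize ∑ u ∈ K, kp i u = k at *
  generalize ∑ u ∈ K, mr i u = M at *
  generalize lod U ho kp i j = A at *
  generalize lod U ho ms i j = B at *
  subst hW
  nlinarith

/-- **T+ paid, in `d`-form, items of the row `j` only** -/
theorem shPPH (H : ItE R n t s h e E U ho vl kp ms mr mu Nb Nx) {i j : ℕ}
    (hi : i < n) (hj : j < n) (hij : i ≠ j) {K : Finset ι} (hKh : ∀ u ∈ K, ho u = j) {sv : ℤ}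
    (hc : ColP R t s e U ho kp ms mr Nx be pc ar pw i j K sv) {q W : ℤ}
    (hq : q = ∑ u ∈ K, pc u * kp i u) (hW : W = mu i + (2 * ∑ u ∈ K, kp i u - q)) :
    2 * ((R - t i) * mu i + ∑ u ∈ K, (kp i u * (R - t i) - mr i u))
      + 2 * (∑ u ∈ U.filter (fun u => ho u = i), (kp j u * (R - t j) - ms j u)
        - (R - t j) * (mu i + 1)) + 2 * pw i j + sv - W * (W + 1)
      ≤ 2 * ((t j - W) * (mu i - s i))
        + (Nb i + 2 * ∑ x ∈ ((range n).erase i).erase j, Nx i x + 2 * ∑ u ∈ K, ar u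
          + 2 * (q * be i j)) := by
  have e1 : ∀ f g : ι → ℤ, ∑ u ∈ K, (if ho u = j then f u else g u) = ∑ u ∈ K, f u :=
    fun f g => sum_congr rfl fun u hu => if_pos (hKh u hu)
  have h1 := H.shPP hi hj hij hc (q := q) (W := W) (by rw [e1, hq]) hW
  rw [e1] at h1
  exact h1

/-- **any mixture `a T + b T+`** (different used items in the two tests; T+ with the items of `j` only):
`a, b ≥ 0` -/
theorem shMix (H : ItE R n t s h e E U ho vl kp ms mr mu Nb Nx) {i j : ℕ}
    (hi : i < n) (hj : j < n) (hij : i ≠ j) {a b : ℤ} (ha : 0 ≤ a) (hb : 0 ≤ b)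
    {K K' : Finset ι} (hK : K ⊆ U) (hKn : ∀ u ∈ K, ho u ≠ i) (hKh : ∀ u ∈ K', ho u = j) {sv : ℤ}
    (hc : ColP R t s e U ho kp ms mr Nx be pc ar pw i j K' sv) {q V W : ℤ}
    (hV : V = mu i + 2 * ∑ u ∈ K, kp i u)
    (hq : q = ∑ u ∈ K', pc u * kp i u) (hW : W = mu i + (2 * ∑ u ∈ K', kp i u - q)) :
    2 * ((a + b) * ((R - t i) * mu i)) + 2 * (a * ∑ u ∈ K, (kp i u * (R - t i) - mr i u))
      + 2 * (b * ∑ u ∈ K', (kp i u * (R - t i) - mr i u))
      + 2 * (b * (∑ u ∈ U.filter (fun u => ho u = i), (kp j u * (R - t j) - ms j u)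
        - (R - t j) * (mu i + 1))) + b * (2 * pw i j + sv)
      - (a * (V * (V + 1)) + b * (W * (W + 1)))
      ≤ 2 * ((a * (R - V) + b * (t j - W)) * (mu i - s i))
        + a * (Nb i + 2 * ∑ x ∈ (range n).erase i, Nx i x)
        + b * (Nb i + 2 * ∑ x ∈ ((range n).erase i).erase j, Nx i x + 2 * ∑ u ∈ K', ar u
          + 2 * (q * be i j)) := by
  have h1 := mul_le_mul_of_nonneg_left (H.shT hi hK hKn hV) ha
  have h2 := mul_le_mul_of_nonneg_left (H.shPPH hi hj hij hKh hc hq hW) hb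
  generalize ∑ u ∈ K, (kp i u * (R - t i) - mr i u) = hT at *
  generalize ∑ u ∈ K', (kp i u * (R - t i) - mr i u) = hP at *
  generalize ∑ u ∈ U.filter (fun u => ho u = i), (kp j u * (R - t j) - ms j u) = G at *
  generalize ∑ x ∈ (range n).erase i, Nx i x = N1 at *
  generalize ∑ x ∈ ((range n).erase i).erase j, Nx i x = N2 at *
  generalize ∑ u ∈ K', ar u = A at *
  nlinarith

/-- **the combination `D' T + ti T+` with T+ paid**, `D' = R - t j - t i` -/
theorem shBB (H : ItE R n t s h e E U ho vl kp ms mr mu Nb Nx) {i j : ℕ}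
    (hi : i < n) (hj : j < n) (hij : i ≠ j) (hD : t i ≤ R - t j)
    {K K' : Finset ι} (hK : K ⊆ U) (hKn : ∀ u ∈ K, ho u ≠ i) (hKh : ∀ u ∈ K', ho u = j) {sv : ℤ}
    (hc : ColP R t s e U ho kp ms mr Nx be pc ar pw i j K' sv) {q V W : ℤ}
    (hV : V = mu i + 2 * ∑ u ∈ K, kp i u)
    (hq : q = ∑ u ∈ K', pc u * kp i u) (hW : W = mu i + (2 * ∑ u ∈ K', kp i u - q)) :
    2 * ((R - t j) * (R - t i - t i) * mu i)
      + 2 * ((R - t j - t i) * ∑ u ∈ K, (kp i u * (R - t i) - mr i u))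
      + 2 * (t i * (∑ u ∈ K', (kp i u * (R - t i) - mr i u)
        + ∑ u ∈ U.filter (fun u => ho u = i), (kp j u * (R - t j) - ms j u)))
      - 2 * (t i * (R - t j)) + t i * (2 * pw i j + sv)
      - ((R - t j - t i) * (V * (V + 1)) + t i * (W * (W + 1)))
      ≤ 2 * (((R - t i) * (R - t j) - ((R - t j - t i) * V + t i * W)) * (mu i - s i))
        + (R - t j - t i) * (Nb i + 2 * ∑ x ∈ (range n).erase i, Nx i x)
        + t i * (Nb i + 2 * ∑ x ∈ ((range n).erase i).erase j, Nx i x + 2 * ∑ u ∈ K', ar u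
          + 2 * (q * be i j)) := by
  have h1 := H.shMix hi hj hij (a := R - t j - t i) (b := t i) (by linarith) (H.t0 i hi) hK hKn hKh
    hc hV hq hW
  generalize ∑ u ∈ K, (kp i u * (R - t i) - mr i u) = hT at *
  generalize ∑ u ∈ K', (kp i u * (R - t i) - mr i u) = hP at *
  generalize ∑ u ∈ U.filter (fun u => ho u = i), (kp j u * (R - t j) - ms j u) = G at *
  generalize ∑ x ∈ (range n).erase i, Nx i x = N1 at *
  generalize ∑ x ∈ ((range n).erase i).erase j, Nx i x = N2 at *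
  generalize ∑ u ∈ K', ar u = A at *
  nlinarith

end ItE

end ShIt

end Pool.Agent.Lib.MP_f04ccf_co
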