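import Pool.Agent.Lib.MP_f04ccf_co.M.ShThin
import Pool.Agent.Lib.MP_f04ccf_co.M.ItC

/-!
MP_f04ccf_co, thin rows (`M/ShThin`) over version [C] of the items.
-/

set_option autoImplicit false

namespace Pool.Agent.Lib.MP_f04ccf_co

open Finset

attribute [local instance] Classical.propDecidable

variable {ι : Type*} {R : ℤ} {n : ℕ} {t s h e : ℕ → ℤ} {E : ℕ → ℕ → ℤ} {U : Finset ι} {ho : ι → ℕ}
  {vl : ι → ℤ} {kp ms mr : ℕ → ι → ℤ} {mu Nb : ℕ → ℤ} {Nx : ℕ → ℕ → ℤ}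
  {be : ℕ → ℕ → ℤ} {ls : ℕ → ℤ → ℤ} {pc ar : ι → ℤ} {aT : ℕ → ℤ}
  {NN FF pw : ℕ → ℕ → ℤ} {nu : ℕ → ι → ℤ}

namespace ItC

lemma tzn (H : ItC R n t s h e E U ho vl kp ms mr mu Nb Nx be ls pc ar aT NN FF pw nu)
    {i : ℕ} (hi : i < n) : TzN R t s U ho kp mr mu i := H.tzN i hi

/-- `ItE.s_le_of_thin` -/
theorem s_le_of_thin (H : ItC R n t s h e E U ho vl kp ms mr mu Nb Nx be ls pc ar aT NN FF pw nu)
    {i : ℕ} (hi : i < n) {P : ℤ} (h1 : (t i + 2) * (t i + 3) < R)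
    (h2 : (t i + 1 + P) * (t i + 1 + 2 * P) < R * P) (hs : s i ≤ P) : s i ≤ 0 :=
  H.toItE.s_le_of_thin hi (H.tzn hi) h1 h2 hs

/-- `ItE.thin` -/
theorem thin (H : ItC R n t s h e E U ho vl kp ms mr mu Nb Nx be ls pc ar aT NN FF pw nu)
    {i : ℕ} (hi : i < n) {K : Finset ι} (hK : K ⊆ U) (hKh : ∀ u ∈ K, ho u ≠ i) {B P : ℤ}
    (hB0 : 0 ≤ B) (hB : ∀ u ∈ K, mr i u ≤ B * kp i u) (hP : ∀ u ∈ K, kp i u ≤ P)
    (h1 : (t i + 2) * (t i + 3 + B) < R)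
    (h2 : (t i + 1 + P) * (t i + 1 + 2 * P + B) < R * P) (hs : s i ≤ 0) :
    s i + ∑ u ∈ K, kp i u ≤ 0 :=
  H.toItE.thin hi (H.tzn hi) hK hKh hB0 hB hP h1 h2 hs

/-- `ItE.thin_y` -/
theorem thin_y (H : ItC R n t s h e E U ho vl kp ms mr mu Nb Nx be ls pc ar aT NN FF pw nu)
    {i : ℕ} (hi : i < n) {K : Finset ι} (hK : K ⊆ U) (hKh : ∀ u ∈ K, ho u ≠ i)
    (h1 : (mu i + ∑ u ∈ K, kp i u) * (t i + 1) + ∑ u ∈ K, mr i u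
      < R - 2 * (mu i + ∑ u ∈ K, kp i u)) :
    s i + ∑ u ∈ K, kp i u ≤ 0 :=
  H.toItE.thin_y hi (H.tzn hi) hK hKh h1

end ItC

end Pool.Agent.Lib.MP_f04ccf_co
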