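import Pool.Agent.Lib.MP_f04ccf_co.M.ShPhi
import Pool.Agent.Lib.MP_f04ccf_co.M.ItV

/-!
MP_f04ccf_co, TEXT S: the tests of the phi-form (`Tst`, M/ShPhi) from the fields.

* `tstRaw`: ANY row test `2 R s + 2 ∑_K (kp c - m) + 2 ∑_hosted g + pay
    ≤ 2 e + 2 (w + cc) (s + 1) + w (w - 1) + ∑_K lo`, `w = ∑_K pt` (points and misses free, `cc` the columns),
  with any bound `2 e + d (d - 1) ≤ 2 t μ + s² + s + X` of the energy;
* `savU`: a saving `∑_x q_x (q_x - 1)` as shares of the used items;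
* `ItZ.tstN`: the N-free test `tzN` (every sign, no loss);
* `ItV.tstTs`, `ItV.tstPs`, `ItV.tstPr`, `ItV.tstPf`: the fields `rows`, `rowp`, `rowr`, `rowf`.
-/

set_option autoImplicit false

namespace Pool.Agent.Lib.MP_f04ccf_co

open Finset

attribute [local instance] Classical.propDecidable

section ShTst

variable {ι : Type*}

/-- **any row test as a `Tst`** (integers): `cc` the number of the columns, `pt` the points of the used
items, `X` any bound of the excess of the energy -/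
theorem tstRaw {U : Finset ι} {ho : ι → ℕ} {z : ℕ} {K : Finset ι} {R t s e mu X cc pay : ℤ}
    {vl : ι → ℤ} {g B lo pt : ι → ℤ} (hmu : mu = ∑ u ∈ U.filter (fun u => ho u = z), vl u)
    (he : 2 * e + (mu - s) * (mu - s - 1) ≤ 2 * (t * mu) + s ^ 2 + s + X)
    (hc : 2 * R * s + 2 * ∑ u ∈ K, B u + 2 * ∑ u ∈ U.filter (fun u => ho u = z), g u + pay
      ≤ 2 * e + 2 * (∑ u ∈ K, pt u + cc) * (s + 1) + (∑ u ∈ K, pt u) * (∑ u ∈ K, pt u - 1)
        + ∑ u ∈ K, lo u) :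
    Tst U ho z ((mu : ℝ) - s) K
      (fun u => 2 * ((R : ℝ) - t - cc) * vl u + 2 * (g u : ℝ))
      (fun u => 2 * (B u : ℝ) - lo u) (fun u => (vl u : ℝ)) (fun u => (pt u : ℝ))
      ((mu : ℝ) + ∑ u ∈ K, (pt u : ℝ)) ((R : ℝ) - cc) ((X : ℝ) + 2 * cc - pay) := by
  have hmuR : (mu : ℝ) = ∑ u ∈ U.filter (fun u => ho u = z), (vl u : ℝ) := by
    rw [hmu]
    push_cast
    rfl
  refine ⟨by rw [hmuR], ?_⟩
  have h1 : 2 * ((R - t - cc) * mu) + 2 * ∑ u ∈ U.filter (fun u => ho u = z), g u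
      + (2 * ∑ u ∈ K, B u - ∑ u ∈ K, lo u)
      - (mu + ∑ u ∈ K, pt u) * ((mu + ∑ u ∈ K, pt u) + 1)
      ≤ 2 * ((R - cc - (mu + ∑ u ∈ K, pt u)) * (mu - s)) + (X + 2 * cc - pay) := by
    nlinarith
  have h2 : ((2 * ((R - t - cc) * mu) + 2 * ∑ u ∈ U.filter (fun u => ho u = z), g u
      + (2 * ∑ u ∈ K, B u - ∑ u ∈ K, lo u)
      - (mu + ∑ u ∈ K, pt u) * ((mu + ∑ u ∈ K, pt u) + 1) : ℤ) : ℝ)
      ≤ ((2 * ((R - cc - (mu + ∑ u ∈ K, pt u)) * (mu - s)) + (X + 2 * cc - pay) : ℤ) : ℝ) := by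
    exact_mod_cast h1
  push_cast at h2
  rw [sum_add_distrib, sum_sub_distrib, ← mul_sum, ← mul_sum, ← mul_sum, ← hmuR]
  linarith

lemma lo3 (K : Finset ι) (a b d : ι → ℤ) (c : ℤ) :
    ∑ u ∈ K, (2 * a u + 2 * (b u * c) - d u) = 2 * ∑ u ∈ K, a u + 2 * (∑ u ∈ K, b u) * c
      - ∑ u ∈ K, d u := by
  rw [sum_sub_distrib, sum_add_distrib, ← mul_sum, ← mul_sum, ← sum_mul]
  ring

/-- **a saving as shares of the used items** -/
lemma savU {n : ℕ} {ho : ι → ℕ} {K : Finset ι} (hlt : ∀ u ∈ K, ho u < n) (P : ι → Prop)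
    [DecidablePred P] :
    ∑ x ∈ range n, ((K.filter fun u => ho u = x ∧ P u).card : ℤ)
        * (((K.filter fun u => ho u = x ∧ P u).card : ℤ) - 1)
      = ∑ u ∈ K, (if P u then ((K.filter fun v => ho v = ho u ∧ P v).card : ℤ) - 1 else 0) := by
  rw [← sum_filter]
  rw [← sum_fiberwise_of_maps_to (s := K.filter P) (t := range n) (g := ho)
    (fun u hu => mem_range.2 (hlt u (mem_filter.1 hu).1))
    fun u => ((K.filter fun v => ho v = ho u ∧ P v).card : ℤ) - 1]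
  refine sum_congr rfl fun x _ => ?_
  have h1 : (K.filter P).filter (fun u => ho u = x) = K.filter fun u => ho u = x ∧ P u := by
    rw [filter_filter]
    exact filter_congr fun u _ => ⟨fun h => ⟨h.2, h.1⟩, fun h => ⟨h.2, h.1⟩⟩
  rw [h1]
  have h2 : ∀ u ∈ K.filter (fun u => ho u = x ∧ P u),
      (((K.filter fun v => ho v = ho u ∧ P v).card : ℤ) - 1)
      = ((K.filter fun v => ho v = x ∧ P v).card : ℤ) - 1 := by
    intro u hu
    rw [(mem_filter.1 hu).2.1]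
  rw [sum_congr rfl h2, sum_const, nsmul_eq_mul]

/-- the same with the condition of the columns tests: a PC item of the column row saves nothing -/
lemma savP {n : ℕ} {ho : ι → ℕ} {K : Finset ι} (hlt : ∀ u ∈ K, ho u < n) (P Q : ι → Prop)
    [DecidablePred P] [DecidablePred Q] (j : ℕ) :
    ∑ x ∈ range n, ((K.filter fun u => ho u = x ∧ P u ∧ (x = j → Q u)).card : ℤ)
        * (((K.filter fun u => ho u = x ∧ P u ∧ (x = j → Q u)).card : ℤ) - 1)
      = ∑ u ∈ K, (if P u ∧ (ho u = j → Q u) then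
        ((K.filter fun v => ho v = ho u ∧ P v ∧ (ho v = j → Q v)).card : ℤ) - 1 else 0) := by
  have h1 := savU (n := n) (ho := ho) (K := K) hlt fun u => P u ∧ (ho u = j → Q u)
  rw [← h1]
  refine sum_congr rfl fun x _ => ?_
  have h2 : (K.filter fun u => ho u = x ∧ P u ∧ (x = j → Q u))
      = K.filter fun u => ho u = x ∧ P u ∧ (ho u = j → Q u) := by
    refine filter_congr fun u _ => ?_
    constructor
    · rintro ⟨h3, h4, h5⟩
      exact ⟨h3, h4, fun h6 => h5 (h3 ▸ h6)⟩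
    · rintro ⟨h3, h4, h5⟩
      exact ⟨h3, h4, fun h6 => h5 (h3.trans h6)⟩
  rw [h2]

variable {R : ℤ} {n : ℕ} {t s h e : ℕ → ℤ} {E : ℕ → ℕ → ℤ} {U : Finset ι} {ho : ι → ℕ}
  {vl : ι → ℤ} {kp ms mr : ℕ → ι → ℤ} {mu Nb : ℕ → ℤ} {Nx : ℕ → ℕ → ℤ}
  {be : ℕ → ℕ → ℤ} {ls : ℕ → ℤ → ℤ} {pc ar : ι → ℤ} {aT : ℕ → ℤ} {fr : ℕ → ℤ}
  {gn ka : ℕ → ℕ → ℤ} {fj pw : ℕ → ℕ → ℤ} {nu : ℕ → ι → ℤ} {us : ℕ → ℤ} {nq : ℕ → ℕ → ℕ → ℤ}

/-- **the N-free test `tzN`**: `V = 2 (μ + k) ≤ R`, no loss, no sign condition -/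
theorem ItZ.tstN (H : ItZ R n t s h e E U ho vl kp ms mr mu Nb Nx be ls pc ar aT fr gn ka)
    {z : ℕ} (hz : z < n) {K : Finset ι} (hK : K ⊆ U) (hKn : ∀ u ∈ K, ho u ≠ z)
    (hV : 2 * (mu z + ∑ u ∈ K, kp z u) ≤ R) (ht : 0 ≤ t z) :
    Tst U ho z ((mu z : ℝ) - s z) K (fun u => 2 * ((R : ℝ) - t z) * vl u)
      (fun u => 2 * ((kp z u : ℝ) * ((R : ℝ) - t z) - mr z u)) (fun u => 2 * (vl u : ℝ))
      (fun u => 2 * (kp z u : ℝ)) (2 * ((mu z : ℝ) + ∑ u ∈ K, (kp z u : ℝ))) R 0 := by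
  have hmu := H.toItE.muR hz
  refine ⟨by rw [hmu, mul_add, mul_sum, mul_sum], ?_⟩
  have hm : 0 ≤ ∑ u ∈ K, mr z u := sum_nonneg fun u hu =>
    le_trans (H.m0 u (hK hu) z hz) (H.msr u (hK hu) z hz)
  have hk : 0 ≤ ∑ u ∈ K, kp z u := sum_nonneg fun u hu => H.k0 u (hK hu) z hz
  have hmu0 := H.toItE.mu0 hz
  have h1 : 2 * ((R - t z) * mu z) + 2 * (∑ u ∈ K, kp z u * (R - t z) - ∑ u ∈ K, mr z u)
      - 2 * (mu z + ∑ u ∈ K, kp z u) * (2 * (mu z + ∑ u ∈ K, kp z u) + 1)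
      ≤ 2 * ((R - 2 * (mu z + ∑ u ∈ K, kp z u)) * (mu z - s z)) := by
    rw [← sum_mul]
    rcases le_or_gt 0 (s z + ∑ u ∈ K, kp z u) with h0 | h0
    · have h2 := H.tzN z hz K hK hKn h0
      nlinarith
    · have h2 : mu z + ∑ u ∈ K, kp z u ≤ mu z - s z := by linarith
      have h3 := mul_le_mul_of_nonneg_left h2
        (show (0 : ℤ) ≤ R - 2 * (mu z + ∑ u ∈ K, kp z u) by linarith)
      have h4 : 0 ≤ (mu z + ∑ u ∈ K, kp z u) * t z :=
        mul_nonneg (by linarith) ht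
      nlinarith
  have h2 : ((2 * ((R - t z) * mu z) + 2 * (∑ u ∈ K, kp z u * (R - t z) - ∑ u ∈ K, mr z u)
      - 2 * (mu z + ∑ u ∈ K, kp z u) * (2 * (mu z + ∑ u ∈ K, kp z u) + 1) : ℤ) : ℝ)
      ≤ ((2 * ((R - 2 * (mu z + ∑ u ∈ K, kp z u)) * (mu z - s z)) : ℤ) : ℝ) := by
    exact_mod_cast h1
  push_cast at h2
  rw [← mul_sum, ← mul_sum, sum_sub_distrib, ← hmu]
  linarith

/-- **`rows`**: the row test with the same-host saving, any bound `X` of the excess -/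
theorem ItV.tstTs (H : ItV R n t s h e E U ho vl kp ms mr mu Nb Nx be ls pc ar aT fr gn ka
      fj pw nu us nq) {z : ℕ} (hz : z < n) {K : Finset ι} (hK : K ⊆ U) (hKn : ∀ u ∈ K, ho u ≠ z)
    (h0 : 0 ≤ s z + 1 + ∑ u ∈ K, kp z u) {X : ℤ}
    (he : 2 * e z + (mu z - s z) * (mu z - s z - 1) ≤ 2 * (t z * mu z) + s z ^ 2 + s z + X) :
    Tst U ho z ((mu z : ℝ) - s z) K (fun u => 2 * ((R : ℝ) - t z - (0 : ℤ)) * vl u + 2 * ((0 : ℤ) : ℝ))
      (fun u => 2 * ((kp z u * (R - t z) - mr z u : ℤ) : ℝ)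
        - ((-(if kp z u = vl u then
          ((K.filter fun v => ho v = ho u ∧ kp z v = vl v).card : ℤ) - 1 else 0) : ℤ) : ℝ))
      (fun u => (vl u : ℝ)) (fun u => ((2 * kp z u : ℤ) : ℝ))
      ((mu z : ℝ) + ∑ u ∈ K, ((2 * kp z u : ℤ) : ℝ)) ((R : ℝ) - (0 : ℤ))
      ((X : ℝ) + 2 * (0 : ℤ) - (0 : ℤ)) := by
  have h1 := H.rows z hz K hK hKn h0
  rw [savU (fun u hu => H.hlt u (hK hu)) fun u => kp z u = vl u] at h1
  refine tstRaw (e := e z) (H.hmu z hz) he ?_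
  rw [sum_const_zero, sum_neg_distrib, ← mul_sum]
  linarith

/-- **`rowp`**: the row test with the columns of `x`, own cell paid, same-host saving -/
theorem ItV.tstPs (H : ItV R n t s h e E U ho vl kp ms mr mu Nb Nx be ls pc ar aT fr gn ka
      fj pw nu us nq) {z x : ℕ} (hz : z < n) (hx : x < n) (hzx : z ≠ x) {K : Finset ι}
    (hK : K ⊆ U) (hKn : ∀ u ∈ K, ho u ≠ z) (h0 : 0 ≤ s z + ∑ u ∈ K, kp z u) {X : ℤ}
    (he : 2 * e z + (mu z - s z) * (mu z - s z - 1) ≤ 2 * (t z * mu z) + s z ^ 2 + s z + X) :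
    Tst U ho z ((mu z : ℝ) - s z) K
      (fun u => 2 * ((R : ℝ) - t z - (R - t x : ℤ)) * vl u
        + 2 * ((kp x u * (R - t x) - ms x u : ℤ) : ℝ))
      (fun u => 2 * ((kp z u * (R - t z) - mr z u : ℤ) : ℝ)
        - ((2 * (if ho u = x then ar u else 2 * (R - t x) * kp z u)
          + 2 * ((if ho u = x then pc u * kp z u else 0) * be z x)
          - (if kp z u = vl u ∧ (ho u = x → pc u = 0) then
          ((K.filter fun v => ho v = ho u ∧ kp z v = vl v ∧ (ho v = x → pc v = 0)).card : ℤ) - 1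
            else 0) : ℤ) : ℝ))
      (fun u => (vl u : ℝ))
      (fun u => ((2 * kp z u - if ho u = x then pc u * kp z u else 0 : ℤ) : ℝ))
      ((mu z : ℝ) + ∑ u ∈ K, ((2 * kp z u - if ho u = x then pc u * kp z u else 0 : ℤ) : ℝ))
      ((R : ℝ) - (R - t x : ℤ)) ((X : ℝ) + 2 * (R - t x : ℤ) - (2 * (Nx z x + pw z x) : ℤ)) := by
  have h1 := H.rowp z hz x hx hzx K hK hKn h0
  rw [savP (fun u hu => H.hlt u (hK hu)) (fun u => kp z u = vl u) (fun u => pc u = 0) x] at h1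
  refine tstRaw (e := e z) (H.hmu z hz) he ?_
  rw [lo3]
  linarith

/-- **`rowr`**: the row test with the columns of `x`, with the rectangle of any item `w` -/
theorem ItV.tstPr (H : ItV R n t s h e E U ho vl kp ms mr mu Nb Nx be ls pc ar aT fr gn ka
      fj pw nu us nq) {z x : ℕ} (hz : z < n) (hx : x < n) (hzx : z ≠ x) {K : Finset ι}
    (hK : K ⊆ U) (hKn : ∀ u ∈ K, ho u ≠ z) (h0 : 0 ≤ s z + ∑ u ∈ K, kp z u) {w : ι} (hw : w ∈ U)
    {X : ℤ}
    (he : 2 * e z + (mu z - s z) * (mu z - s z - 1) ≤ 2 * (t z * mu z) + s z ^ 2 + s z + X) :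
    Tst U ho z ((mu z : ℝ) - s z) K
      (fun u => 2 * ((R : ℝ) - t z - (R - t x : ℤ)) * vl u
        + 2 * ((kp x u * (R - t x) - ms x u : ℤ) : ℝ))
      (fun u => 2 * ((kp z u * (R - t z) - mr z u : ℤ) : ℝ)
        - ((2 * (if ho u = x then ar u else 2 * (R - t x) * kp z u)
          + 2 * ((if ho u = x then pc u * kp z u else 0) * be z x)
          - (if kp z u = vl u ∧ (ho u = x → pc u = 0) then
          ((K.filter fun v => ho v = ho u ∧ kp z v = vl v ∧ (ho v = x → pc v = 0)).card : ℤ) - 1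
            else 0) : ℤ) : ℝ))
      (fun u => (vl u : ℝ))
      (fun u => ((2 * kp z u - if ho u = x then pc u * kp z u else 0 : ℤ) : ℝ))
      ((mu z : ℝ) + ∑ u ∈ K, ((2 * kp z u - if ho u = x then pc u * kp z u else 0 : ℤ) : ℝ))
      ((R : ℝ) - (R - t x : ℤ)) ((X : ℝ) + 2 * (R - t x : ℤ)
        - (2 * (max 0 (ms z w - be z x)
          * max 0 (ms x w - ∑ u ∈ K, (if ho u = x then pc u * kp z u else 0))) : ℤ)) := by
  have h1 := H.rowr z hz x hx hzx K hK hKn h0 w hw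
  rw [savP (fun u hu => H.hlt u (hK hu)) (fun u => kp z u = vl u) (fun u => pc u = 0) x] at h1
  refine tstRaw (e := e z) (H.hmu z hz) he ?_
  rw [lo3]
  linarith

/-- **`rowf`**: the row test with the columns of `x`, with the rectangle of an N-type `w` of `x` -/
theorem ItV.tstPf (H : ItV R n t s h e E U ho vl kp ms mr mu Nb Nx be ls pc ar aT fr gn ka
      fj pw nu us nq) {z x : ℕ} (hz : z < n) (hx : x < n) (hzx : z ≠ x) {K : Finset ι}
    (hK : K ⊆ U) (hKn : ∀ u ∈ K, ho u ≠ z) (h0 : 0 ≤ s z + ∑ u ∈ K, kp z u) {w : ι} (hw : w ∈ U)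
    (hwx : ho w = x) (hwv : vl w = 1) (hwk : kp z w ≠ 0) {X : ℤ}
    (he : 2 * e z + (mu z - s z) * (mu z - s z - 1) ≤ 2 * (t z * mu z) + s z ^ 2 + s z + X) :
    Tst U ho z ((mu z : ℝ) - s z) K
      (fun u => 2 * ((R : ℝ) - t z - (R - t x : ℤ)) * vl u
        + 2 * ((kp x u * (R - t x) - ms x u : ℤ) : ℝ))
      (fun u => 2 * ((kp z u * (R - t z) - mr z u : ℤ) : ℝ)
        - ((2 * (if ho u = x then ar u else 2 * (R - t x) * kp z u)
          + 2 * ((if ho u = x then pc u * kp z u else 0) * be z x)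
          - (if kp z u = vl u ∧ (ho u = x → pc u = 0) then
          ((K.filter fun v => ho v = ho u ∧ kp z v = vl v ∧ (ho v = x → pc v = 0)).card : ℤ) - 1
            else 0) : ℤ) : ℝ))
      (fun u => (vl u : ℝ))
      (fun u => ((2 * kp z u - if ho u = x then pc u * kp z u else 0 : ℤ) : ℝ))
      ((mu z : ℝ) + ∑ u ∈ K, ((2 * kp z u - if ho u = x then pc u * kp z u else 0 : ℤ) : ℝ))
      ((R : ℝ) - (R - t x : ℤ)) ((X : ℝ) + 2 * (R - t x : ℤ)
        - (2 * (max 0 (nu z w + pc w - be z x) * nu z w) : ℤ)) := by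
  have h1 := H.rowf z hz x hx hzx K hK hKn h0 w hw hwx hwv hwk
  rw [savP (fun u hu => H.hlt u (hK hu)) (fun u => kp z u = vl u) (fun u => pc u = 0) x] at h1
  refine tstRaw (e := e z) (H.hmu z hz) he ?_
  rw [lo3]
  linarith

end ShTst

end Pool.Agent.Lib.MP_f04ccf_co
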