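import Pool.Agent.Lib.MP_f04ccf_co.Basic

/-!
MP_f04ccf_co: the sharing lemma (note 15429).  Two rows `C`, `C'`; `a c` counts the neighbours of
`c` outside the other row, `dg G C' c` the cross neighbours.  If every `c` in `C` has `m` neighbours in
all, every `c'` in `C'` has `m'`, and nonadjacent `c`, `c'` have together at least `m + m' - 1`
neighbours outside the two rows, then the cross edges, counted once, cost at most `m * m'`.
-/

set_option autoImplicit false

namespace Pool.Agent.Lib.MP_f04ccf_co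

open Finset

attribute [local instance] Classical.propDecidable

section Share

variable {V : Type*} (G : SimpleGraph V)

/-- the arithmetic of the sharing lemma -/
private lemma share_arith {p q m m' : ℤ} (hp : 0 ≤ p) (hm : 0 ≤ m) (hm' : 0 ≤ m') :
    p * q ≤ m * m' + p * max 0 (q - m) + q * max 0 (p - m') := by
  rcases le_total q m with h1 | h1 <;> rcases le_total p m' with h2 | h2
  · rw [max_eq_left (by linarith), max_eq_left (by linarith)]
    nlinarith
  · rw [max_eq_left (by linarith), max_eq_right (by linarith)]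
    nlinarith
  · rw [max_eq_right (by linarith), max_eq_left (by linarith)]
    nlinarith
  · rw [max_eq_right (by linarith), max_eq_right (by linarith)]
    nlinarith [mul_nonneg (sub_nonneg.2 h1) (sub_nonneg.2 h2)]

private lemma shr_dg_comm (A B : Finset V) : ∑ v ∈ A, dg G B v = ∑ v ∈ B, dg G A v := by
  simp only [dg, card_filter]
  rw [sum_comm]
  refine sum_congr rfl fun b _ => sum_congr rfl fun a _ => ?_
  simp only [G.adj_comm a b]

/-- **Sharing lemma.** -/
theorem share {C C' : Finset V} {a a' : V → ℕ} {m m' : ℕ}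
    (h1 : ∀ c ∈ C, m ≤ a c + dg G C' c) (h2 : ∀ c ∈ C', m' ≤ a' c + dg G C c)
    (h3 : ∀ c ∈ C, ∀ c' ∈ C', ¬ G.Adj c c' → m + m' ≤ a c + a' c' + 1) :
    m * C.card + m' * C'.card
      ≤ ∑ c ∈ C, a c + ∑ c ∈ C', a' c + ∑ c ∈ C, dg G C' c + m * m' := by
  classical
  set X := C.filter (fun c => a c < m) with hX
  set X' := C'.filter (fun c => a' c < m') with hX'
  have hXC : X ⊆ C := filter_subset _ _
  have hXC' : X' ⊆ C' := filter_subset _ _
  have hfull : ∀ c ∈ X, ∀ c' ∈ X', G.Adj c c' := by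
    intro c hc c' hc'
    by_contra hn
    have e1 := (mem_filter.1 hc).2
    have e2 := (mem_filter.1 hc').2
    have := h3 c (hXC hc) c' (hXC' hc') hn
    omega
  -- cross degrees of the deficient points
  have hq : ∀ c ∈ X, X'.card ≤ dg G C' c := by
    intro c hc
    unfold dg
    exact card_le_card fun v hv => mem_filter.2 ⟨hXC' hv, hfull c hc v hv⟩
  have hp : ∀ c ∈ X', X.card ≤ dg G C c := by
    intro c hc
    unfold dg
    exact card_le_card fun v hv => mem_filter.2 ⟨hXC hv, (hfull v hv c hc).symm⟩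
  -- the cross edges
  have hE : ∑ c ∈ X, (dg G C' c : ℤ) + ∑ c ∈ X', (dg G C c : ℤ) - (X.card : ℤ) * X'.card
      ≤ ∑ c ∈ C, (dg G C' c : ℤ) := by
    have e1 : ∑ c ∈ C, (dg G C' c : ℤ)
        = ∑ c ∈ X, (dg G C' c : ℤ) + ∑ c ∈ C \ X, (dg G C' c : ℤ) := by
      rw [← sum_sdiff hXC, add_comm]
    have e2 : ∑ c ∈ C \ X, dg G X' c ≤ ∑ c ∈ C \ X, dg G C' c :=
      sum_le_sum fun c _ => by
        unfold dg
        exact card_le_card (filter_subset_filter _ hXC')
    have e3 : ∑ c ∈ C \ X, dg G X' c = ∑ c ∈ X', dg G (C \ X) c := shr_dg_comm G _ _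
    have e4 : ∑ c ∈ X', dg G (C \ X) c + ∑ c ∈ X', dg G X c = ∑ c ∈ X', dg G C c := by
      rw [← sum_add_distrib]
      refine sum_congr rfl fun c _ => ?_
      unfold dg
      rw [← card_union_of_disjoint, ← filter_union, sdiff_union_of_subset hXC]
      exact disjoint_filter_filter sdiff_disjoint
    have e5 : ∑ c ∈ X', dg G X c = X.card * X'.card := by
      rw [sum_congr rfl (g := fun _ => X.card), sum_const, smul_eq_mul, mul_comm]
      intro c hc
      unfold dg
      rw [filter_true_of_mem fun v hv => (hfull v hv c hc).symm]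
    have e6 : (∑ c ∈ X', (dg G C c : ℤ)) - (X.card : ℤ) * X'.card
        ≤ ∑ c ∈ C \ X, (dg G C' c : ℤ) := by
      have h' : ∑ c ∈ X', dg G C c ≤ X.card * X'.card + ∑ c ∈ C \ X, dg G C' c := by omega
      have := (Nat.cast_le (α := ℤ)).2 h'
      push_cast at this
      linarith
    rw [e1]
    linarith
  -- deficits
  have hd : ∑ c ∈ X, ((m : ℤ) - a c) + (X.card : ℤ) * max 0 ((X'.card : ℤ) - m)
      ≤ ∑ c ∈ X, (dg G C' c : ℤ) := by
    rw [← nsmul_eq_mul, ← sum_const, ← sum_add_distrib]
    refine sum_le_sum fun c hc => ?_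
    have e1 := h1 c (hXC hc)
    have e2 := hq c hc
    have e3 : ((m : ℤ) - a c) ≤ dg G C' c := by
      have := (Nat.cast_le (α := ℤ)).2 e1
      push_cast at this
      linarith
    have e4 : (X'.card : ℤ) ≤ dg G C' c := by exact_mod_cast e2
    rcases le_total ((X'.card : ℤ) - m) 0 with h | h
    · rw [max_eq_left h]
      linarith
    · rw [max_eq_right h]
      have : (0 : ℤ) ≤ a c := by positivity
      linarith
  have hd' : ∑ c ∈ X', ((m' : ℤ) - a' c) + (X'.card : ℤ) * max 0 ((X.card : ℤ) - m')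
      ≤ ∑ c ∈ X', (dg G C c : ℤ) := by
    rw [← nsmul_eq_mul, ← sum_const, ← sum_add_distrib]
    refine sum_le_sum fun c hc => ?_
    have e1 := h2 c (hXC' hc)
    have e2 := hp c hc
    have e3 : ((m' : ℤ) - a' c) ≤ dg G C c := by
      have := (Nat.cast_le (α := ℤ)).2 e1
      push_cast at this
      linarith
    have e4 : (X.card : ℤ) ≤ dg G C c := by exact_mod_cast e2
    rcases le_total ((X.card : ℤ) - m') 0 with h | h
    · rw [max_eq_left h]
      linarith
    · rw [max_eq_right h]
      have : (0 : ℤ) ≤ a' c := by positivity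
      linarith
  -- the points without deficit
  have hg : (m : ℤ) * C.card ≤ ∑ c ∈ C, (a c : ℤ) + ∑ c ∈ X, ((m : ℤ) - a c) := by
    rw [← sum_sdiff hXC (f := fun c => (a c : ℤ)), sum_sub_distrib, sum_const, nsmul_eq_mul]
    have e1 : ((C \ X).card : ℤ) * m ≤ ∑ c ∈ C \ X, (a c : ℤ) := by
      rw [← nsmul_eq_mul]
      refine card_nsmul_le_sum _ _ _ fun c hc => ?_
      obtain ⟨h4, h5⟩ := mem_sdiff.1 hc
      have h6 : ¬ a c < m := fun h => h5 (mem_filter.2 ⟨h4, h⟩)
      exact_mod_cast not_lt.1 h6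
    have e2 : ((C \ X).card : ℤ) + X.card = C.card := by
      exact_mod_cast card_sdiff_add_card_eq_card hXC
    nlinarith
  have hg' : (m' : ℤ) * C'.card ≤ ∑ c ∈ C', (a' c : ℤ) + ∑ c ∈ X', ((m' : ℤ) - a' c) := by
    rw [← sum_sdiff hXC' (f := fun c => (a' c : ℤ)), sum_sub_distrib, sum_const, nsmul_eq_mul]
    have e1 : ((C' \ X').card : ℤ) * m' ≤ ∑ c ∈ C' \ X', (a' c : ℤ) := by
      rw [← nsmul_eq_mul]
      refine card_nsmul_le_sum _ _ _ fun c hc => ?_
      obtain ⟨h4, h5⟩ := mem_sdiff.1 hc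
      have h6 : ¬ a' c < m' := fun h => h5 (mem_filter.2 ⟨h4, h⟩)
      exact_mod_cast not_lt.1 h6
    have e2 : ((C' \ X').card : ℤ) + X'.card = C'.card := by
      exact_mod_cast card_sdiff_add_card_eq_card hXC'
    nlinarith
  have hA := share_arith (p := X.card) (q := X'.card) (m := m) (m' := m')
    (by positivity) (by positivity) (by positivity)
  have : (m : ℤ) * C.card + m' * C'.card
      ≤ ∑ c ∈ C, (a c : ℤ) + ∑ c ∈ C', (a' c : ℤ) + ∑ c ∈ C, (dg G C' c : ℤ) + m * m' := by
    linarith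
  exact_mod_cast this

end Share

end Pool.Agent.Lib.MP_f04ccf_co
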