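import Pool.Agent.Lib.MP_f04ccf_co.M.Simd

/-!
MP_f04ccf_co, **vector arithmetic in the kernel over an explicit list of lanes**.

* `Sl.pkL S φ L`: the values of `φ` on the list `L`, packed in base `S = 2^w`; `pkC`: the same by blocks;
* `pkL_add`, `pkL_smul`, `pkL_sub`, `pkL_testBit`, `dot_pkL`;
* `clz M V Xs ls`: the mask `V` cut down by an aligned list of clauses (clause `j` speaks about the basis
  `Xs_j`); `SatZ`; `clz_bit`;
* `ck`: one common clause list, two further ones; **`run` / `run_sound`: no lane satisfies the common clauses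
  and the clauses of the second list, and none the common ones and those of the third.**
-/

set_option autoImplicit false

namespace Pool.Agent.Lib.MP_f04ccf_co

namespace Sl

variable {γ : Type}

/-! ### packing -/

/-- packed values over a list (`S = 2^w`) -/
noncomputable def pkL (S : ℕ) (φ : γ → ℕ) (L : List γ) : ℕ :=
  List.rec (motive := fun _ => ℕ) 0 (fun c _ ih => Nat.add (φ c) (Nat.mul S ih)) L

lemma pkL_nil (S : ℕ) (φ : γ → ℕ) : pkL S φ [] = 0 := rfl

lemma pkL_cons (S : ℕ) (φ : γ → ℕ) (c : γ) (L : List γ) :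
    pkL S φ (c :: L) = φ c + S * pkL S φ L := rfl

lemma pkL_append (S : ℕ) (φ : γ → ℕ) (L L' : List γ) :
    pkL S φ (L ++ L') = pkL S φ L + S ^ L.length * pkL S φ L' := by
  induction L with
  | nil => rw [List.nil_append, pkL_nil, List.length_nil, pow_zero, one_mul, zero_add]
  | cons c L ih =>
    rw [List.cons_append, pkL_cons, pkL_cons, ih, List.length_cons]
    ring

lemma pkL_add (S : ℕ) (f g : γ → ℕ) (L : List γ) :
    pkL S f L + pkL S g L = pkL S (fun c => f c + g c) L := by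
  induction L with
  | nil => rfl
  | cons c L ih =>
    rw [pkL_cons, pkL_cons, pkL_cons, ← ih]
    ring

lemma pkL_smul (S x : ℕ) (f : γ → ℕ) (L : List γ) :
    x * pkL S f L = pkL S (fun c => x * f c) L := by
  induction L with
  | nil => rfl
  | cons c L ih =>
    rw [pkL_cons, pkL_cons, ← ih]
    ring

lemma pkL_zero (S : ℕ) (L : List γ) : pkL S (fun _ => 0) L = 0 := by
  induction L with
  | nil => rfl
  | cons c L ih => rw [pkL_cons, ih, Nat.mul_zero]

lemma pkL_congr {S : ℕ} {f g : γ → ℕ} {L : List γ} (h : ∀ c ∈ L, f c = g c) :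
    pkL S f L = pkL S g L := by
  induction L with
  | nil => rfl
  | cons c L ih =>
    rw [pkL_cons, pkL_cons, h c List.mem_cons_self, ih fun c hc => h c (List.mem_cons_of_mem _ hc)]

lemma pkL_sub {S : ℕ} {f g : γ → ℕ} {L : List γ} (h : ∀ c ∈ L, g c ≤ f c) :
    pkL S f L - pkL S g L = pkL S (fun c => f c - g c) L := by
  have h1 : pkL S (fun c => f c - g c) L + pkL S g L = pkL S f L := by
    rw [pkL_add]
    exact pkL_congr fun c hc => Nat.sub_add_cancel (h c hc)
  omega

/-- the bit of a lane -/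
lemma pkL_testBit {w : ℕ} {f : γ → ℕ} : ∀ {L : List γ}, (∀ c ∈ L, f c < 2 ^ w) → ∀ {i p : ℕ}
    (hi : i < L.length), p < w →
    (pkL (2 ^ w) f L).testBit (w * i + p) = (f L[i]).testBit p := by
  intro L
  induction L with
  | nil => intro _ i p hi; exact absurd hi (Nat.not_lt_zero _)
  | cons c L ih =>
    intro h i p hi hp
    have h0 := h c List.mem_cons_self
    rw [pkL_cons, Nat.add_comm, Nat.testBit_two_pow_mul_add _ h0]
    cases i with
    | zero =>
      rw [Nat.mul_zero, Nat.zero_add, if_pos hp]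
      rfl
    | succ i =>
      have h1 : w * (i + 1) + p = w + (w * i + p) := by ring
      rw [h1, if_neg (by omega), Nat.add_sub_cancel_left,
        ih (fun c hc => h c (List.mem_cons_of_mem _ hc)) (Nat.lt_of_succ_lt_succ hi) hp]
      rfl

lemma dot_pkL (S : ℕ) (L : List γ) (φs : List (γ → ℕ)) : ∀ cs : List ℕ,
    Sd.dot cs (φs.map fun φ => pkL S φ L) = pkL S (fun c => Sd.dot cs (φs.map fun φ => φ c)) L := by
  induction φs with
  | nil =>
    intro cs
    simp only [List.map_nil, Sd.dot_nil']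
    exact (pkL_zero S L).symm
  | cons φ φs ih =>
    intro cs
    cases cs with
    | nil =>
      simp only [Sd.dot_nil]
      exact (pkL_zero S L).symm
    | cons x cs =>
      simp only [List.map_cons, Sd.dot_cons]
      rw [ih cs, pkL_smul, pkL_add]

/-! ### one clause -/

variable {w : ℕ}

lemma cmp_bit {L : List γ} (hw : 0 < w) {φs : List (γ → ℕ)} {ys : List ℕ}
    {q : List ℕ × List ℕ} (hq : Sd.cbd (2 ^ (w - 1)) ys q = true)
    (hy : ∀ c ∈ L, List.Forall₂ (· ≤ ·) (φs.map fun φ => φ c) ys) {i : ℕ} (hi : i < L.length) :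
    (Sd.cmp (pkL (2 ^ w) (fun _ => 2 ^ (w - 1)) L) (φs.map fun φ => pkL (2 ^ w) φ L) q).testBit
      (w * i + (w - 1))
      = decide (Sd.dot q.2 (φs.map fun φ => φ L[i]) ≤ Sd.dot q.1 (φs.map fun φ => φ L[i])) := by
  have h0 : Nat.ble (Nat.succ (Sd.dot q.1 ys)) (2 ^ (w - 1)) = true
      ∧ Nat.ble (Sd.dot q.2 ys) (2 ^ (w - 1)) = true := by
    unfold Sd.cbd at hq
    cases h1 : Nat.ble (Nat.succ (Sd.dot q.1 ys)) (2 ^ (w - 1)) with
    | false => rw [h1] at hq; exact absurd hq Bool.false_ne_true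
    | true =>
      rw [h1] at hq
      exact ⟨rfl, hq⟩
  have h1 : Sd.dot q.1 ys < 2 ^ (w - 1) := Nat.le_of_ble_eq_true h0.1
  have h2 : Sd.dot q.2 ys ≤ 2 ^ (w - 1) := Nat.le_of_ble_eq_true h0.2
  have hT : 2 ^ w = 2 * 2 ^ (w - 1) := by
    rw [← pow_succ']
    congr 1
    omega
  have e1 : Sd.cmp (pkL (2 ^ w) (fun _ => 2 ^ (w - 1)) L) (φs.map fun φ => pkL (2 ^ w) φ L) q
      = pkL (2 ^ w) (fun c => 2 ^ (w - 1) + Sd.dot q.1 (φs.map fun φ => φ c)
        - Sd.dot q.2 (φs.map fun φ => φ c)) L := by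
    have e2 : Sd.cmp (pkL (2 ^ w) (fun _ => 2 ^ (w - 1)) L) (φs.map fun φ => pkL (2 ^ w) φ L) q
        = pkL (2 ^ w) (fun _ => 2 ^ (w - 1)) L + Sd.dot q.1 (φs.map fun φ => pkL (2 ^ w) φ L)
          - Sd.dot q.2 (φs.map fun φ => pkL (2 ^ w) φ L) := rfl
    rw [e2, dot_pkL, dot_pkL, pkL_add]
    exact pkL_sub fun c hc => by
      have h3 := Sd.dot_mono (hy c hc) q.2
      exact (h3.trans h2).trans (Nat.le_add_right _ _)
  have hm : L[i] ∈ L := List.getElem_mem hi
  rw [e1, pkL_testBit _ hi (by omega), Sd.top_bit hw]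
  · have h3 := Sd.dot_mono (hy _ hm) q.2
    congr 1
    apply propext
    constructor
    · intro h4
      by_contra h5
      push Not at h5
      omega
    · intro h4
      omega
  · have h3 := Sd.dot_mono (hy _ hm) q.1
    omega
  · intro c hc
    have h3 := Sd.dot_mono (hy c hc) q.1
    omega

lemma cla_bit {L : List γ} (hw : 0 < w) {φs : List (γ → ℕ)} {ys : List ℕ}
    (hy : ∀ c ∈ L, List.Forall₂ (· ≤ ·) (φs.map fun φ => φ c) ys) {i : ℕ} (hi : i < L.length) :
    ∀ {l : List (List ℕ × List ℕ)}, (∀ q ∈ l, Sd.cbd (2 ^ (w - 1)) ys q = true) →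
      (∃ q ∈ l, Sd.dot q.2 (φs.map fun φ => φ L[i]) ≤ Sd.dot q.1 (φs.map fun φ => φ L[i])) →
      (Sd.cla (pkL (2 ^ w) (fun _ => 2 ^ (w - 1)) L) (φs.map fun φ => pkL (2 ^ w) φ L) l).testBit
        (w * i + (w - 1)) = true := by
  intro l
  induction l with
  | nil => rintro - ⟨q, hq, -⟩; simp at hq
  | cons q l ih =>
    intro h1 h2
    have e1 : Sd.cla (pkL (2 ^ w) (fun _ => 2 ^ (w - 1)) L) (φs.map fun φ => pkL (2 ^ w) φ L)
        (q :: l)
        = Sd.cmp (pkL (2 ^ w) (fun _ => 2 ^ (w - 1)) L) (φs.map fun φ => pkL (2 ^ w) φ L) q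
          ||| Sd.cla (pkL (2 ^ w) (fun _ => 2 ^ (w - 1)) L) (φs.map fun φ => pkL (2 ^ w) φ L) l := rfl
    rw [e1, Nat.testBit_or, cmp_bit hw (h1 q List.mem_cons_self) hy hi]
    obtain ⟨q', h3, h4⟩ := h2
    rcases List.mem_cons.1 h3 with h5 | h5
    · rw [← h5, decide_eq_true h4, Bool.true_or]
    · rw [ih (fun q hq => h1 q (List.mem_cons_of_mem _ hq)) ⟨q', h5, h4⟩, Bool.or_true]

/-! ### aligned clauses -/

/-- a clause: comparisons `dot q.2 x ≤ dot q.1 x`, at least one must hold -/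
abbrev Cl : Type := List (List ℕ × List ℕ)

/-- the mask `V`, cut down by the clauses `ls` (clause `j` speaks about the basis `Xs_j`) -/
noncomputable def clz (M V : ℕ) (ls : List Cl) : List (List ℕ) → ℕ :=
  List.rec (motive := fun _ => List (List ℕ) → ℕ) (fun _ => V)
    (fun l _ ih Xs => List.casesOn (motive := fun _ => ℕ) Xs V
      (fun xs Xs' => Nat.land (Sd.cla M xs l) (ih Xs'))) ls

/-- the bounds -/
noncomputable def okz (T : ℕ) (ls : List Cl) : List (List ℕ) → Bool :=
  List.rec (motive := fun _ => List (List ℕ) → Bool) (fun _ => true)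
    (fun l _ ih Ys => List.casesOn (motive := fun _ => Bool) Ys true
      (fun ys Ys' => Bool.rec (motive := fun _ => Bool) false (ih Ys') (Mid.allL (Sd.cbd T ys) l))) ls

/-- all clauses hold (as far as there are bases) -/
def SatZ : List Cl → List (List ℕ) → Prop
  | [], _ => True
  | _ :: _, [] => True
  | l :: ls, vs :: vss => (∃ q ∈ l, Sd.dot q.2 vs ≤ Sd.dot q.1 vs) ∧ SatZ ls vss

lemma clz_bit {L : List γ} (hw : 0 < w) {V : ℕ} {i : ℕ} (hi : i < L.length)
    (hV : V.testBit (w * i + (w - 1)) = true) : ∀ {ls : List Cl} {Φ : List (List (γ → ℕ))}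
    {Ys : List (List ℕ)},
    List.Forall₂ (fun φs ys => ∀ c ∈ L, List.Forall₂ (· ≤ ·) (φs.map fun φ => φ c) ys) Φ Ys →
    okz (2 ^ (w - 1)) ls Ys = true →
    SatZ ls (Φ.map fun φs => φs.map fun φ => φ L[i]) →
    (clz (pkL (2 ^ w) (fun _ => 2 ^ (w - 1)) L) V ls
      (Φ.map fun φs => φs.map fun φ => pkL (2 ^ w) φ L)).testBit (w * i + (w - 1)) = true := by
  intro ls
  induction ls with
  | nil => intro Φ Ys _ _ _; exact hV
  | cons l ls ih =>
    intro Φ Ys h1 h2 h3
    cases h1 with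
    | nil => exact hV
    | cons h4 h5 =>
      rename_i φs ys Φ' Ys'
      have e2 : okz (2 ^ (w - 1)) (l :: ls) (ys :: Ys')
          = Bool.rec (motive := fun _ => Bool) false (okz (2 ^ (w - 1)) ls Ys')
            (Mid.allL (Sd.cbd (2 ^ (w - 1)) ys) l) := rfl
      rw [e2] at h2
      cases h6 : Mid.allL (Sd.cbd (2 ^ (w - 1)) ys) l with
      | false => rw [h6] at h2; exact absurd h2 Bool.false_ne_true
      | true =>
        rw [h6] at h2
        have e3 : (clz (pkL (2 ^ w) (fun _ => 2 ^ (w - 1)) L) V (l :: ls)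
            ((φs :: Φ').map fun φs => φs.map fun φ => pkL (2 ^ w) φ L))
            = Sd.cla (pkL (2 ^ w) (fun _ => 2 ^ (w - 1)) L) (φs.map fun φ => pkL (2 ^ w) φ L) l
              &&& clz (pkL (2 ^ w) (fun _ => 2 ^ (w - 1)) L) V ls
                (Φ'.map fun φs => φs.map fun φ => pkL (2 ^ w) φ L) := rfl
        have h7 : (∃ q ∈ l, Sd.dot q.2 (φs.map fun φ => φ L[i])
            ≤ Sd.dot q.1 (φs.map fun φ => φ L[i]))
            ∧ SatZ ls (Φ'.map fun φs => φs.map fun φ => φ L[i]) := h3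
        rw [e3, Nat.testBit_and, cla_bit hw h4 hi (fun q hq => Mid.allL_sound h6 q hq) h7.1,
          ih h5 h2 h7.2]
        rfl

/-! ### the check -/

/-- **no lane satisfies the common clauses `l.1` and the clauses `l.2.1`, none `l.1` and `l.2.2`** -/
noncomputable def ck (T M : ℕ) (X1 X2 X3 Y1 Y2 Y3 : List (List ℕ)) (l : List Cl × List Cl × List Cl) :
    Bool :=
  Bool.rec (motive := fun _ => Bool) false
    (Bool.rec (motive := fun _ => Bool) false
      (Bool.rec (motive := fun _ => Bool) false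
        (Mid.frN (clz M M l.1 X1) fun V =>
          Bool.rec (motive := fun _ => Bool) false (Nat.beq (clz M V l.2.2 X3) 0)
            (Nat.beq (clz M V l.2.1 X2) 0))
        (okz T l.2.2 Y3))
      (okz T l.2.1 Y2))
    (okz T l.1 Y1)

lemma bt {b c : Bool} (h : Bool.rec (motive := fun _ => Bool) false c b = true) :
    b = true ∧ c = true := by
  cases b with
  | false => exact absurd h Bool.false_ne_true
  | true => exact ⟨rfl, h⟩

theorem ck_sound {L : List γ} (hw : 0 < w) {Φ1 Φ2 Φ3 : List (List (γ → ℕ))}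
    {Y1 Y2 Y3 : List (List ℕ)}
    (h1 : List.Forall₂ (fun φs ys => ∀ c ∈ L, List.Forall₂ (· ≤ ·) (φs.map fun φ => φ c) ys) Φ1 Y1)
    (h2 : List.Forall₂ (fun φs ys => ∀ c ∈ L, List.Forall₂ (· ≤ ·) (φs.map fun φ => φ c) ys) Φ2 Y2)
    (h3 : List.Forall₂ (fun φs ys => ∀ c ∈ L, List.Forall₂ (· ≤ ·) (φs.map fun φ => φ c) ys) Φ3 Y3)
    {l : List Cl × List Cl × List Cl}
    (h : ck (2 ^ (w - 1)) (pkL (2 ^ w) (fun _ => 2 ^ (w - 1)) L)
      (Φ1.map fun φs => φs.map fun φ => pkL (2 ^ w) φ L)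
      (Φ2.map fun φs => φs.map fun φ => pkL (2 ^ w) φ L)
      (Φ3.map fun φs => φs.map fun φ => pkL (2 ^ w) φ L) Y1 Y2 Y3 l = true) {c : γ} (hc : c ∈ L) :
    ¬ (SatZ l.1 (Φ1.map fun φs => φs.map fun φ => φ c)
        ∧ SatZ l.2.1 (Φ2.map fun φs => φs.map fun φ => φ c))
    ∧ ¬ (SatZ l.1 (Φ1.map fun φs => φs.map fun φ => φ c)
        ∧ SatZ l.2.2 (Φ3.map fun φs => φs.map fun φ => φ c)) := by
  obtain ⟨i, hi, rfl⟩ := List.getElem_of_mem hc
  unfold ck at h
  obtain ⟨a1, h⟩ := bt h
  obtain ⟨a2, h⟩ := bt h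
  obtain ⟨a3, h⟩ := bt h
  rw [Mid.frN_eq] at h
  obtain ⟨a4, a5⟩ := bt h
  have b4 := Nat.eq_of_beq_eq_true a4
  have b5 := Nat.eq_of_beq_eq_true a5
  have hM : (pkL (2 ^ w) (fun _ => 2 ^ (w - 1)) L).testBit (w * i + (w - 1)) = true := by
    have h2 : 2 ^ (w - 1) < 2 ^ w := Nat.pow_lt_pow_right (by norm_num) (by omega)
    rw [pkL_testBit (fun _ _ => h2) hi (by omega), Sd.top_bit hw h2]
    exact decide_eq_true le_rfl
  constructor
  · rintro ⟨c1, c2⟩
    have d1 := clz_bit hw hi (clz_bit hw hi hM h1 a1 c1) h2 a2 c2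
    rw [b4, Nat.zero_testBit] at d1
    exact Bool.false_ne_true d1
  · rintro ⟨c1, c2⟩
    have d1 := clz_bit hw hi (clz_bit hw hi hM h1 a1 c1) h3 a3 c2
    rw [b5, Nat.zero_testBit] at d1
    exact Bool.false_ne_true d1

/-! ### the driver -/

/-- length -/
noncomputable def len (L : List γ) : ℕ :=
  List.rec (motive := fun _ => ℕ) 0 (fun _ _ ih => Nat.succ ih) L

lemma len_eq (L : List γ) : len L = L.length := by
  induction L with
  | nil => rfl
  | cons c L ih =>
    have e1 : len (c :: L) = Nat.succ (len L) := rfl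
    rw [e1, ih]
    rfl

/-- attach the powers `S^length` to the blocks -/
noncomputable def blk {β : Type} (S : ℕ) (Ls : List (List γ)) : (List (ℕ × List γ) → β) → β :=
  List.rec (motive := fun _ => (List (ℕ × List γ) → β) → β) (fun k => k [])
    (fun L _ ih k => Mid.frN (Nat.pow S (len L)) fun p => ih fun Bs => k ((p, L) :: Bs)) Ls

lemma blk_eq {β : Type} (S : ℕ) : ∀ (Ls : List (List γ)) (k : List (ℕ × List γ) → β),
    blk S Ls k = k (Ls.map fun L => (S ^ L.length, L)) := by
  intro Ls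
  induction Ls with
  | nil => intro k; rfl
  | cons L Ls ih =>
    intro k
    have e1 : blk S (L :: Ls) k = Mid.frN (Nat.pow S (len L)) fun p =>
      blk S Ls fun Bs => k ((p, L) :: Bs) := rfl
    rw [e1, Mid.frN_eq, ih, len_eq]
    rfl

/-- packed values, by blocks -/
noncomputable def pkC (S : ℕ) (Bs : List (ℕ × List γ)) (φ : γ → ℕ) : ℕ :=
  List.rec (motive := fun _ => ℕ) 0
    (fun B _ ih => Nat.add (pkL S φ B.2) (Nat.mul B.1 ih)) Bs

lemma pkC_eq (S : ℕ) (φ : γ → ℕ) : ∀ Ls : List (List γ),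
    pkC S (Ls.map fun L => (S ^ L.length, L)) φ = pkL S φ Ls.flatten := by
  intro Ls
  induction Ls with
  | nil => rfl
  | cons L Ls ih =>
    have e1 : pkC S ((L :: Ls).map fun L => (S ^ L.length, L)) φ
        = pkL S φ L + S ^ L.length * pkC S (Ls.map fun L => (S ^ L.length, L)) φ := rfl
    rw [e1, ih, List.flatten_cons, pkL_append]

/-- the largest value on a list -/
noncomputable def mxL (φ : γ → ℕ) (L : List γ) : ℕ :=
  List.rec (motive := fun _ => ℕ) 0 (fun c _ ih => Mid.frN ih fun x => Mid.frN (φ c) fun y =>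
    Bool.rec (motive := fun _ => ℕ) x y (Nat.ble x y)) L

lemma mxL_le {φ : γ → ℕ} {L : List γ} : ∀ c ∈ L, φ c ≤ mxL φ L := by
  induction L with
  | nil => intro c hc; exact absurd hc List.not_mem_nil
  | cons b L ih =>
    have e1 : mxL φ (b :: L) = Mid.frN (mxL φ L) fun x => Mid.frN (φ b) fun y =>
      Bool.rec (motive := fun _ => ℕ) x y (Nat.ble x y) := rfl
    rw [Mid.frN_eq, Mid.frN_eq] at e1
    intro c hc
    cases h : Nat.ble (mxL φ L) (φ b) with
    | false =>
      rw [h] at e1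
      have h1 : ¬ mxL φ L ≤ φ b := fun h2 => by
        rw [Nat.ble_eq_true_of_le h2] at h
        exact Bool.false_ne_true h.symm
      rcases List.mem_cons.1 hc with h3 | h3
      · rw [e1, h3]; exact (not_le.1 h1).le
      · rw [e1]; exact ih c h3
    | true =>
      rw [h] at e1
      have h1 := Nat.le_of_ble_eq_true h
      rcases List.mem_cons.1 hc with h3 | h3
      · rw [e1, h3]
      · rw [e1]; exact (ih c h3).trans h1

/-- the largest value, by blocks -/
noncomputable def mxC (Bs : List (ℕ × List γ)) (φ : γ → ℕ) : ℕ :=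
  List.rec (motive := fun _ => ℕ) 0 (fun B _ ih => Mid.frN ih fun x => Mid.frN (mxL φ B.2) fun y =>
    Bool.rec (motive := fun _ => ℕ) x y (Nat.ble x y)) Bs

lemma mxC_le (S : ℕ) (φ : γ → ℕ) : ∀ Ls : List (List γ), ∀ c ∈ Ls.flatten,
    φ c ≤ mxC (Ls.map fun L => (S ^ L.length, L)) φ := by
  intro Ls
  induction Ls with
  | nil => intro c hc; exact absurd hc List.not_mem_nil
  | cons L Ls ih =>
    have e1 : mxC ((L :: Ls).map fun L => (S ^ L.length, L)) φ
        = Mid.frN (mxC (Ls.map fun L => (S ^ L.length, L)) φ) fun x => Mid.frN (mxL φ L) fun y =>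
          Bool.rec (motive := fun _ => ℕ) x y (Nat.ble x y) := rfl
    rw [Mid.frN_eq, Mid.frN_eq] at e1
    intro c hc
    rw [List.flatten_cons, List.mem_append] at hc
    cases h : Nat.ble (mxC (Ls.map fun L => (S ^ L.length, L)) φ) (mxL φ L) with
    | false =>
      rw [h] at e1
      have h1 : ¬ mxC (Ls.map fun L => (S ^ L.length, L)) φ ≤ mxL φ L := fun h2 => by
        rw [Nat.ble_eq_true_of_le h2] at h
        exact Bool.false_ne_true h.symm
      rcases hc with h3 | h3
      · rw [e1]; exact (mxL_le c h3).trans (not_le.1 h1).le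
      · rw [e1]; exact ih c h3
    | true =>
      rw [h] at e1
      have h1 := Nat.le_of_ble_eq_true h
      rcases hc with h3 | h3
      · rw [e1]; exact mxL_le c h3
      · rw [e1]; exact (ih c h3).trans h1

/-- the entry number `n` (0 outside) -/
noncomputable def nth (xs : List ℕ) : ℕ → ℕ :=
  List.rec (motive := fun _ => ℕ → ℕ) (fun _ => 0)
    (fun x _ ih n => Nat.rec (motive := fun _ => ℕ) x (fun m _ => ih m) n) xs

/-- the basis function number `n` -/
def nthF (fs : List (γ → ℕ)) : ℕ → γ → ℕ :=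
  List.rec (motive := fun _ => ℕ → γ → ℕ) (fun _ _ => 0)
    (fun f _ ih n => Nat.rec (motive := fun _ => γ → ℕ) f (fun m _ => ih m) n) fs

lemma nth_map (g : (γ → ℕ) → ℕ) (hg : g (fun _ => 0) = 0) : ∀ (fs : List (γ → ℕ)) (n : ℕ),
    nth (fs.map g) n = g (nthF fs n) := by
  intro fs
  induction fs with
  | nil => intro n; exact hg.symm
  | cons f fs ih =>
    intro n
    cases n with
    | zero => rfl
    | succ n => exact ih n

/-- choose the entries of `Is` from `xs` -/
noncomputable def selZ {β : Type} (xs : List ℕ) (Is : List (List ℕ)) : (List (List ℕ) → β) → β :=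
  List.rec (motive := fun _ => (List (List ℕ) → β) → β) (fun k => k [])
    (fun is _ ih k => Sd.wth (nth xs) is fun v => ih fun vs => k (v :: vs)) Is

lemma selZ_eq {β : Type} (xs : List ℕ) : ∀ (Is : List (List ℕ)) (k : List (List ℕ) → β),
    selZ xs Is k = k (Is.map fun is => is.map (nth xs)) := by
  intro Is
  induction Is with
  | nil => intro k; rfl
  | cons is Is ih =>
    intro k
    have e1 : selZ xs (is :: Is) k = Sd.wth (nth xs) is fun v => selZ xs Is fun vs => k (v :: vs) := rfl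
    rw [e1, Sd.wth_eq, ih]
    rfl

/-- the values of the bases at a content -/
def valZ (fs : List (γ → ℕ)) (Is : List (List ℕ)) (c : γ) : List (List ℕ) :=
  Is.map fun is => is.map fun i => nthF fs i c

/-- **the driver**: `K` gets the check of one leaf -/
noncomputable def run (w : ℕ) (Ls : List (List γ)) (fs : List (γ → ℕ)) (I1 I2 I3 : List (List ℕ))
    (K : (List Cl × List Cl × List Cl → Bool) → Bool) : Bool :=
  Mid.frN (Nat.pow 2 w) fun S => blk S Ls fun Bs =>
    Sd.wth (pkC S Bs) fs fun xs => Sd.wth (mxC Bs) fs fun ys =>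
      selZ xs I1 fun X1 => selZ xs I2 fun X2 => selZ xs I3 fun X3 =>
        selZ ys I1 fun Y1 => selZ ys I2 fun Y2 => selZ ys I3 fun Y3 =>
          Mid.frN (Nat.pow 2 (Nat.pred w)) fun T => Mid.frN (pkC S Bs fun _ => T) fun M =>
            K (ck T M X1 X2 X3 Y1 Y2 Y3)

/-- **soundness** -/
theorem run_sound (hw : 0 < w) {Ls : List (List γ)} {fs : List (γ → ℕ)} {I1 I2 I3 : List (List ℕ)}
    {K : (List Cl × List Cl × List Cl → Bool) → Bool} (h : run w Ls fs I1 I2 I3 K = true) :
    ∃ C : List Cl × List Cl × List Cl → Bool, K C = true ∧ ∀ l, C l = true → ∀ c ∈ Ls.flatten,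
      ¬ (SatZ l.1 (valZ fs I1 c) ∧ SatZ l.2.1 (valZ fs I2 c))
      ∧ ¬ (SatZ l.1 (valZ fs I1 c) ∧ SatZ l.2.2 (valZ fs I3 c)) := by
  unfold run at h
  rw [Mid.frN_eq, blk_eq, Sd.wth_eq, Sd.wth_eq, selZ_eq, selZ_eq, selZ_eq, selZ_eq, selZ_eq, selZ_eq,
    Mid.frN_eq, Mid.frN_eq] at h
  refine ⟨_, h, fun l hl c hc => ?_⟩
  have e0 : Nat.pow 2 w = 2 ^ w := rfl
  have e1 : Nat.pow 2 (Nat.pred w) = 2 ^ (w - 1) := rfl
  rw [e0, e1, pkC_eq] at hl
  have e2 : ∀ is : List ℕ, is.map (nth (fs.map (pkC (2 ^ w) (Ls.map fun L => ((2 ^ w) ^ L.length, L)))))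
      = (is.map (nthF fs)).map fun φ => pkL (2 ^ w) φ Ls.flatten := by
    intro is
    rw [List.map_map]
    refine List.map_congr_left fun i _ => ?_
    have e3 : (pkC (2 ^ w) (Ls.map fun L => ((2 ^ w) ^ L.length, L)) : (γ → ℕ) → ℕ)
        = fun φ => pkL (2 ^ w) φ Ls.flatten := by
      funext φ
      exact pkC_eq (2 ^ w) φ Ls
    rw [e3, nth_map _ (pkL_zero _ _)]
    rfl
  have e4 : ∀ Is : List (List ℕ), (Is.map fun is => is.map
      (nth (fs.map (pkC (2 ^ w) (Ls.map fun L => ((2 ^ w) ^ L.length, L))))))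
      = (Is.map fun is => is.map (nthF fs)).map fun φs => φs.map fun φ =>
        pkL (2 ^ w) φ Ls.flatten := by
    intro Is
    rw [List.map_map]
    exact List.map_congr_left fun is _ => e2 is
  have hz : mxC (Ls.map fun L => ((2 ^ w) ^ L.length, L)) (fun _ : γ => 0) = 0 := by
    have h1 : ∀ L : List γ, mxL (fun _ : γ => 0) L = 0 := by
      intro L
      induction L with
      | nil => rfl
      | cons b L ih =>
        have e1 : mxL (fun _ : γ => 0) (b :: L) = Mid.frN (mxL (fun _ : γ => 0) L) fun x =>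
          Mid.frN 0 fun y => Bool.rec (motive := fun _ => ℕ) x y (Nat.ble x y) := rfl
        rw [e1, Mid.frN_eq, Mid.frN_eq, ih]
        rfl
    clear h hl hc e2 e4
    induction Ls with
    | nil => rfl
    | cons L Ls ih =>
      have e1 : mxC ((L :: Ls).map fun L => ((2 ^ w) ^ L.length, L)) (fun _ : γ => 0)
          = Mid.frN (mxC (Ls.map fun L => ((2 ^ w) ^ L.length, L)) fun _ : γ => 0) fun x =>
            Mid.frN (mxL (fun _ : γ => 0) L) fun y =>
              Bool.rec (motive := fun _ => ℕ) x y (Nat.ble x y) := rfl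
      rw [e1, Mid.frN_eq, Mid.frN_eq, ih, h1]
      rfl
  have e5 : ∀ Is : List (List ℕ), List.Forall₂ (fun φs ys => ∀ c ∈ Ls.flatten,
      List.Forall₂ (· ≤ ·) (φs.map fun φ => φ c) ys) (Is.map fun is => is.map (nthF fs))
      (Is.map fun is => is.map (nth (fs.map (mxC (Ls.map fun L => ((2 ^ w) ^ L.length, L)))))) := by
    intro Is
    induction Is with
    | nil => exact List.Forall₂.nil
    | cons is Is ih =>
      refine List.Forall₂.cons (fun c hc => ?_) ih
      clear e2 e4 ih hl h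
      induction is with
      | nil => exact List.Forall₂.nil
      | cons i is ih2 =>
        refine List.Forall₂.cons ?_ ih2
        rw [nth_map _ hz]
        exact mxC_le (2 ^ w) _ Ls c hc
  rw [e4, e4, e4] at hl
  have h6 := ck_sound (L := Ls.flatten) hw (e5 I1) (e5 I2) (e5 I3) hl hc
  have e7 : ∀ Is : List (List ℕ), ((Is.map fun is => is.map (nthF fs)).map fun φs => φs.map fun φ =>
      φ c) = valZ fs Is c := by
    intro Is
    unfold valZ
    rw [List.map_map]
    refine List.map_congr_left fun is _ => ?_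
    show (is.map (nthF fs)).map (fun φ => φ c) = _
    rw [List.map_map]
    rfl
  rw [e7, e7, e7] at h6
  exact h6

end Sl

end Pool.Agent.Lib.MP_f04ccf_co
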