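import Pool.Agent.Lib.MP_f04ccf_co.M.SimL

/-!
MP_f04ccf_co, **an API for lane-wise arithmetic in the kernel** (list lanes of `M/SimL.lean`).

A vector is a pair `v = (packed number, bound)`; `Rv w L v f`: if the bound is below `T = 2^(w-1)`, then `v.1`
is the packed `f` and the bound is one. A mask is a pair `m`; `Rm w L m p`: if `m.2 < T`, then `m.1` has the
lane `T` where `p` holds and `0` elsewhere. Operations: `vadd`, `vsm` (scalar times vector), `vdot`, `vmon`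
(truncated difference), `vmax`, `vmin`, `vle` (mask), `vand`, `vor`, `vmsk` (cut a vector by a mask);
**`Rm.empty`: a mask which is 0 holds nowhere.**
-/

set_option autoImplicit false

namespace Pool.Agent.Lib.MP_f04ccf_co

namespace Sl

variable {γ : Type} {w : ℕ} {L : List γ}

/-! ### bits of packed numbers -/

lemma two_pow_split (hw : 0 < w) : 2 ^ w = 2 * 2 ^ (w - 1) := by
  rw [← pow_succ']
  congr 1
  omega

lemma land_split {a b x y : ℕ} (ha : a < 2 ^ w) (hb : b < 2 ^ w) :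
    (a + 2 ^ w * x) &&& (b + 2 ^ w * y) = (a &&& b) + 2 ^ w * (x &&& y) := by
  refine Nat.eq_of_testBit_eq fun j => ?_
  rw [Nat.testBit_and, Nat.add_comm a, Nat.add_comm b, Nat.add_comm (a &&& b),
    Nat.testBit_two_pow_mul_add _ ha, Nat.testBit_two_pow_mul_add _ hb,
    Nat.testBit_two_pow_mul_add _ (Nat.and_lt_two_pow _ hb)]
  by_cases h : j < w
  · rw [if_pos h, if_pos h, if_pos h, Nat.testBit_and]
  · rw [if_neg h, if_neg h, if_neg h, Nat.testBit_and]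

lemma lor_split {a b x y : ℕ} (ha : a < 2 ^ w) (hb : b < 2 ^ w) :
    (a + 2 ^ w * x) ||| (b + 2 ^ w * y) = (a ||| b) + 2 ^ w * (x ||| y) := by
  refine Nat.eq_of_testBit_eq fun j => ?_
  rw [Nat.testBit_or, Nat.add_comm a, Nat.add_comm b, Nat.add_comm (a ||| b),
    Nat.testBit_two_pow_mul_add _ ha, Nat.testBit_two_pow_mul_add _ hb,
    Nat.testBit_two_pow_mul_add _ (Nat.or_lt_two_pow ha hb)]
  by_cases h : j < w
  · rw [if_pos h, if_pos h, if_pos h, Nat.testBit_or]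
  · rw [if_neg h, if_neg h, if_neg h, Nat.testBit_or]

lemma pkL_land {f g : γ → ℕ} (hf : ∀ c ∈ L, f c < 2 ^ w) (hg : ∀ c ∈ L, g c < 2 ^ w) :
    pkL (2 ^ w) f L &&& pkL (2 ^ w) g L = pkL (2 ^ w) (fun c => f c &&& g c) L := by
  induction L with
  | nil => exact Nat.zero_and 0
  | cons c L ih =>
    rw [pkL_cons, pkL_cons, pkL_cons, land_split (hf c List.mem_cons_self)
      (hg c List.mem_cons_self), ih (fun c hc => hf c (List.mem_cons_of_mem _ hc))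
      fun c hc => hg c (List.mem_cons_of_mem _ hc)]

lemma pkL_lor {f g : γ → ℕ} (hf : ∀ c ∈ L, f c < 2 ^ w) (hg : ∀ c ∈ L, g c < 2 ^ w) :
    pkL (2 ^ w) f L ||| pkL (2 ^ w) g L = pkL (2 ^ w) (fun c => f c ||| g c) L := by
  induction L with
  | nil => exact Nat.zero_or 0
  | cons c L ih =>
    rw [pkL_cons, pkL_cons, pkL_cons, lor_split (hf c List.mem_cons_self)
      (hg c List.mem_cons_self), ih (fun c hc => hf c (List.mem_cons_of_mem _ hc))
      fun c hc => hg c (List.mem_cons_of_mem _ hc)]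

/-- a Boolean as a lane -/
def bl (T : ℕ) (b : Bool) : ℕ := bif b then T else 0

lemma land_T (hw : 0 < w) {x : ℕ} (hx : x < 2 ^ w) :
    x &&& 2 ^ (w - 1) = bl (2 ^ (w - 1)) (decide (2 ^ (w - 1) ≤ x)) := by
  rw [Nat.and_two_pow, Sd.top_bit hw hx]
  unfold bl
  cases decide (2 ^ (w - 1) ≤ x) with
  | false => exact Nat.zero_mul _
  | true => exact Nat.one_mul _

/-! ### vectors and masks -/

/-- `v` is the packed `f` with a bound (if the bound is below `T`) -/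
def Rv (w : ℕ) (L : List γ) (v : ℕ × ℕ) (f : γ → ℕ) : Prop :=
  v.2 < 2 ^ (w - 1) → v.1 = pkL (2 ^ w) f L ∧ ∀ c ∈ L, f c ≤ v.2

/-- `m` is the mask of `p` (if `m.2 < T`) -/
def Rm (w : ℕ) (L : List γ) (m : ℕ × ℕ) (p : γ → Bool) : Prop :=
  m.2 < 2 ^ (w - 1) → m.1 = pkL (2 ^ w) (fun c => bl (2 ^ (w - 1)) (p c)) L

/-- sum -/
noncomputable def vadd (a b : ℕ × ℕ) : ℕ × ℕ := (Nat.add a.1 b.1, Nat.add a.2 b.2)
/-- scalar times vector -/
noncomputable def vsm (x : ℕ) (a : ℕ × ℕ) : ℕ × ℕ := (Nat.mul x a.1, Nat.mul x a.2)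

lemma Rv.add {a b : ℕ × ℕ} {f g : γ → ℕ} (ha : Rv w L a f) (hb : Rv w L b g) :
    Rv w L (vadd a b) (fun c => f c + g c) := by
  intro h
  have h1 : a.2 + b.2 < 2 ^ (w - 1) := h
  obtain ⟨a1, a2⟩ := ha (by omega)
  obtain ⟨b1, b2⟩ := hb (by omega)
  refine ⟨?_, fun c hc => Nat.add_le_add (a2 c hc) (b2 c hc)⟩
  have e1 : (vadd a b).1 = a.1 + b.1 := rfl
  rw [e1, a1, b1, pkL_add]

lemma Rv.smul (x : ℕ) {a : ℕ × ℕ} {f : γ → ℕ} (ha : Rv w L a f) :
    Rv w L (vsm x a) (fun c => x * f c) := by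
  intro h
  have h1 : x * a.2 < 2 ^ (w - 1) := h
  have e1 : (vsm x a).1 = x * a.1 := rfl
  rcases Nat.eq_zero_or_pos x with h2 | h2
  · subst h2
    refine ⟨?_, fun c _ => ?_⟩
    · rw [e1, Nat.zero_mul]
      simp only [Nat.zero_mul]
      exact (pkL_zero _ _).symm
    · show 0 * f c ≤ _
      rw [Nat.zero_mul]
      exact Nat.zero_le _
  · obtain ⟨a1, a2⟩ := ha (by nlinarith)
    refine ⟨?_, fun c hc => Nat.mul_le_mul_left _ (a2 c hc)⟩
    rw [e1, a1, pkL_smul]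

/-- linear combination of packed numbers (first or second components) -/
noncomputable def dotp (pr : ℕ × ℕ → ℕ) (cs : List ℕ) : List (ℕ × ℕ) → ℕ :=
  List.rec (motive := fun _ => List (ℕ × ℕ) → ℕ) (fun _ => 0)
    (fun c _ ih xs => List.casesOn (motive := fun _ => ℕ) xs 0
      (fun x xs' => Nat.add (Nat.mul c (pr x)) (ih xs'))) cs

/-- linear combination -/
noncomputable def vdot (cs : List ℕ) (vs : List (ℕ × ℕ)) : ℕ × ℕ :=
  (dotp (fun v => v.1) cs vs, dotp (fun v => v.2) cs vs)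

lemma Rv.dot {vs : List (ℕ × ℕ)} {fs : List (γ → ℕ)} (h : List.Forall₂ (Rv w L) vs fs) :
    ∀ cs : List ℕ, Rv w L (vdot cs vs) (fun c => Sd.dot cs (fs.map fun f => f c)) := by
  induction h with
  | nil =>
    intro cs _
    have e1 : vdot cs [] = (0, 0) := by cases cs <;> rfl
    rw [e1]
    refine ⟨?_, fun c _ => ?_⟩
    · simp only [List.map_nil, Sd.dot_nil']
      exact (pkL_zero _ _).symm
    · show Sd.dot cs [] ≤ 0
      rw [Sd.dot_nil']
  | cons h1 h2 ih =>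
    rename_i v f vs fs
    intro cs
    cases cs with
    | nil =>
      intro _
      refine ⟨?_, fun c _ => ?_⟩
      · simp only [Sd.dot_nil]
        exact (pkL_zero _ _).symm
      · exact le_rfl
    | cons x cs => exact (Rv.smul x h1).add (ih cs)

/-- the full lanes of a mask -/
noncomputable def fm (w1 m : ℕ) : ℕ := Nat.sub (Nat.mul 2 m) (Nat.shiftRight m w1)

lemma fm_eq (hw : 0 < w) (p : γ → Bool) :
    fm (w - 1) (pkL (2 ^ w) (fun c => bl (2 ^ (w - 1)) (p c)) L)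
      = pkL (2 ^ w) (fun c => bl (2 ^ w - 1) (p c)) L := by
  have e1 : pkL (2 ^ w) (fun c => bl (2 ^ (w - 1)) (p c)) L
      = 2 ^ (w - 1) * pkL (2 ^ w) (fun c => bl 1 (p c)) L := by
    rw [pkL_smul]
    refine pkL_congr fun c _ => ?_
    unfold bl
    cases p c <;> simp
  have e2 : Nat.shiftRight (pkL (2 ^ w) (fun c => bl (2 ^ (w - 1)) (p c)) L) (w - 1)
      = pkL (2 ^ w) (fun c => bl 1 (p c)) L := by
    rw [e1]
    have e3 : Nat.shiftRight (2 ^ (w - 1) * pkL (2 ^ w) (fun c => bl 1 (p c)) L) (w - 1)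
        = (2 ^ (w - 1) * pkL (2 ^ w) (fun c => bl 1 (p c)) L) >>> (w - 1) := rfl
    rw [e3, Nat.shiftRight_eq_div_pow, Nat.mul_div_cancel_left _ (Nat.two_pow_pos _)]
  have e4 : fm (w - 1) (pkL (2 ^ w) (fun c => bl (2 ^ (w - 1)) (p c)) L)
      = 2 * pkL (2 ^ w) (fun c => bl (2 ^ (w - 1)) (p c)) L
        - Nat.shiftRight (pkL (2 ^ w) (fun c => bl (2 ^ (w - 1)) (p c)) L) (w - 1) := rfl
  have h2 := two_pow_split hw
  have h3 := Nat.two_pow_pos (w - 1)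
  rw [e4, e2, pkL_smul, pkL_sub]
  · refine pkL_congr fun c _ => ?_
    unfold bl
    cases p c with
    | false => rfl
    | true => show 2 * 2 ^ (w - 1) - 1 = 2 ^ w - 1; rw [h2]
  · intro c _
    unfold bl
    cases p c with
    | false => exact le_rfl
    | true => show 1 ≤ 2 * 2 ^ (w - 1); omega

lemma bl_land {x : ℕ} (b : Bool) (hx : x < 2 ^ w) : bl (2 ^ w - 1) b &&& x = bl x b := by
  unfold bl
  cases b with
  | false => exact Nat.zero_and x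
  | true =>
    show (2 ^ w - 1) &&& x = x
    rw [Nat.and_comm]
    exact Nat.and_two_pow_sub_one_of_lt_two_pow hx

/-- poison -/
noncomputable def psn (T : ℕ) (b : Bool) : ℕ := Bool.rec (motive := fun _ => ℕ) T 0 b

lemma psn_lt {T : ℕ} {b : Bool} {x : ℕ} (h : x + psn T b < T) : b = true ∧ x < T := by
  cases b with
  | false =>
    have h1 : x + T < T := h
    omega
  | true => exact ⟨rfl, h⟩

/-- the sign vector `T + b - a` -/
noncomputable def sgn (M : ℕ) (a b : ℕ × ℕ) : ℕ := Nat.sub (Nat.add M b.1) a.1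

/-- mask: `a ≤ b` -/
noncomputable def vle (T M : ℕ) (a b : ℕ × ℕ) : ℕ × ℕ :=
  (Nat.land (sgn M a b) M,
    Nat.add b.2 (Nat.add (psn T (Nat.ble a.2 T)) (psn T (Nat.ble (Nat.succ b.2) T))))

/-- truncated difference `a - b` -/
noncomputable def vmon (w1 T M : ℕ) (a b : ℕ × ℕ) : ℕ × ℕ :=
  (Mid.frN (sgn M b a) fun z => Mid.frN (Nat.land z M) fun m =>
    Nat.sub (Nat.land (fm w1 m) z) m, Nat.add a.2 (psn T (Nat.ble b.2 T)))

lemma sgn_eq {a b : ℕ × ℕ} {f g : γ → ℕ} (ha : a.1 = pkL (2 ^ w) f L)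
    (hb : b.1 = pkL (2 ^ w) g L) (h2 : ∀ c ∈ L, f c ≤ 2 ^ (w - 1)) :
    sgn (pkL (2 ^ w) (fun _ => 2 ^ (w - 1)) L) a b
      = pkL (2 ^ w) (fun c => 2 ^ (w - 1) + g c - f c) L := by
  have e1 : sgn (pkL (2 ^ w) (fun _ => 2 ^ (w - 1)) L) a b
      = pkL (2 ^ w) (fun _ => 2 ^ (w - 1)) L + b.1 - a.1 := rfl
  rw [e1, ha, hb, pkL_add]
  exact pkL_sub fun c hc => (h2 c hc).trans (Nat.le_add_right _ _)

lemma land_M (hw : 0 < w) {h : γ → ℕ} (hh : ∀ c ∈ L, h c < 2 ^ w) :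
    pkL (2 ^ w) h L &&& pkL (2 ^ w) (fun _ => 2 ^ (w - 1)) L
      = pkL (2 ^ w) (fun c => bl (2 ^ (w - 1)) (decide (2 ^ (w - 1) ≤ h c))) L := by
  have h2 := two_pow_split hw
  have h3 := Nat.two_pow_pos (w - 1)
  rw [pkL_land hh fun _ _ => by omega]
  exact pkL_congr fun c hc => land_T hw (hh c hc)

/-- mask of `a ≤ b` -/
lemma Rm.le' (hw : 0 < w) {a b : ℕ × ℕ} {f g : γ → ℕ} (ha : Rv w L a f) (hb : Rv w L b g) :
    Rm w L (vle (2 ^ (w - 1)) (pkL (2 ^ w) (fun _ => 2 ^ (w - 1)) L) (a.1, Nat.succ a.2) b)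
      (fun c => decide (f c ≤ g c)) := by
  intro h
  have h1 : b.2 + (psn (2 ^ (w - 1)) (Nat.ble (Nat.succ a.2) (2 ^ (w - 1)))
      + psn (2 ^ (w - 1)) (Nat.ble (Nat.succ b.2) (2 ^ (w - 1)))) < 2 ^ (w - 1) := h
  have h2 := two_pow_split hw
  have h3 : b.2 < 2 ^ (w - 1) := by omega
  have h4 : b.2 + psn (2 ^ (w - 1)) (Nat.ble (Nat.succ b.2) (2 ^ (w - 1)))
      + psn (2 ^ (w - 1)) (Nat.ble (Nat.succ a.2) (2 ^ (w - 1))) < 2 ^ (w - 1) := by omega
  have h5 := (psn_lt h4).1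
  have h7 : a.2 < 2 ^ (w - 1) := Nat.le_of_ble_eq_true h5
  obtain ⟨a1, a2⟩ := ha h7
  obtain ⟨b1, b2⟩ := hb h3
  have e1 : (vle (2 ^ (w - 1)) (pkL (2 ^ w) (fun _ => 2 ^ (w - 1)) L) (a.1, Nat.succ a.2) b).1
      = sgn (pkL (2 ^ w) (fun _ => 2 ^ (w - 1)) L) a b
        &&& pkL (2 ^ w) (fun _ => 2 ^ (w - 1)) L := rfl
  rw [e1, sgn_eq a1 b1 fun c hc => (a2 c hc).trans h7.le, land_M hw]
  · refine pkL_congr fun c hc => ?_
    have h8 := a2 c hc
    congr 1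
    have h9 : (2 ^ (w - 1) ≤ 2 ^ (w - 1) + g c - f c) ↔ f c ≤ g c := by omega
    exact decide_eq_decide.2 h9
  · intro c hc
    have h8 := b2 c hc
    omega

lemma Rv.mon (hw : 0 < w) {a b : ℕ × ℕ} {f g : γ → ℕ} (ha : Rv w L a f) (hb : Rv w L b g) :
    Rv w L (vmon (w - 1) (2 ^ (w - 1)) (pkL (2 ^ w) (fun _ => 2 ^ (w - 1)) L) a
      (b.1, Nat.succ b.2)) (fun c => f c - g c) := by
  intro h
  have h1 : a.2 + psn (2 ^ (w - 1)) (Nat.ble (Nat.succ b.2) (2 ^ (w - 1))) < 2 ^ (w - 1) := h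
  have h2 := two_pow_split hw
  obtain ⟨h5, h3⟩ := psn_lt h1
  have h7 : b.2 < 2 ^ (w - 1) := Nat.le_of_ble_eq_true h5
  obtain ⟨a1, a2⟩ := ha h3
  obtain ⟨b1, b2⟩ := hb h7
  have e0 : (vmon (w - 1) (2 ^ (w - 1)) (pkL (2 ^ w) (fun _ => 2 ^ (w - 1)) L) a
      (b.1, Nat.succ b.2)).1 = Mid.frN (sgn (pkL (2 ^ w) (fun _ => 2 ^ (w - 1)) L) b a) fun z =>
        Mid.frN (Nat.land z (pkL (2 ^ w) (fun _ => 2 ^ (w - 1)) L)) fun m =>
          Nat.sub (Nat.land (fm (w - 1) m) z) m := rfl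
  rw [Mid.frN_eq, Mid.frN_eq] at e0
  have e1 := sgn_eq b1 a1 fun c hc => (b2 c hc).trans h7.le
  have hz : ∀ c ∈ L, 2 ^ (w - 1) + f c - g c < 2 ^ w := fun c hc => by
    have := a2 c hc
    omega
  have e2 : Nat.land (pkL (2 ^ w) (fun c => 2 ^ (w - 1) + f c - g c) L)
      (pkL (2 ^ w) (fun _ => 2 ^ (w - 1)) L)
      = pkL (2 ^ w) (fun c => bl (2 ^ (w - 1)) (decide (2 ^ (w - 1) ≤ 2 ^ (w - 1) + f c - g c))) L :=
    land_M hw hz
  rw [e1, e2, fm_eq hw] at e0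
  have hT := Nat.two_pow_pos w
  have e3 : Nat.land (pkL (2 ^ w) (fun c => bl (2 ^ w - 1)
      (decide (2 ^ (w - 1) ≤ 2 ^ (w - 1) + f c - g c))) L)
      (pkL (2 ^ w) (fun c => 2 ^ (w - 1) + f c - g c) L)
      = pkL (2 ^ w) (fun c => bl (2 ^ (w - 1) + f c - g c)
        (decide (2 ^ (w - 1) ≤ 2 ^ (w - 1) + f c - g c))) L := by
    refine (pkL_land (fun c _ => ?_) hz).trans (pkL_congr fun c hc => bl_land _ (hz c hc))
    unfold bl
    cases decide (2 ^ (w - 1) ≤ 2 ^ (w - 1) + f c - g c) with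
    | false => exact hT
    | true => show 2 ^ w - 1 < 2 ^ w; omega
  rw [e3] at e0
  have e4 : Nat.sub (pkL (2 ^ w) (fun c => bl (2 ^ (w - 1) + f c - g c)
      (decide (2 ^ (w - 1) ≤ 2 ^ (w - 1) + f c - g c))) L)
      (pkL (2 ^ w) (fun c => bl (2 ^ (w - 1)) (decide (2 ^ (w - 1) ≤ 2 ^ (w - 1) + f c - g c))) L)
      = pkL (2 ^ w) (fun c => f c - g c) L := by
    refine (pkL_sub fun c _ => ?_).trans (pkL_congr fun c _ => ?_)
    · unfold bl
      cases h8 : decide (2 ^ (w - 1) ≤ 2 ^ (w - 1) + f c - g c) with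
      | false => exact le_rfl
      | true => exact of_decide_eq_true h8
    · unfold bl
      cases h8 : decide (2 ^ (w - 1) ≤ 2 ^ (w - 1) + f c - g c) with
      | false =>
        have h9 := of_decide_eq_false h8
        show 0 - 0 = f c - g c
        omega
      | true =>
        have h9 := of_decide_eq_true h8
        show 2 ^ (w - 1) + f c - g c - 2 ^ (w - 1) = f c - g c
        omega
  refine ⟨e0.trans e4, fun c hc => ?_⟩
  have h8 : f c ≤ a.2 := a2 c hc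
  exact ((Nat.sub_le _ _).trans h8).trans (Nat.le_add_right _ _)

/-- truncated difference -/
noncomputable def vsub (w1 T M : ℕ) (a b : ℕ × ℕ) : ℕ × ℕ := vmon w1 T M a (b.1, Nat.succ b.2)
/-- maximum -/
noncomputable def vmax (w1 T M : ℕ) (a b : ℕ × ℕ) : ℕ × ℕ :=
  (Nat.add b.1 (vsub w1 T M a b).1,
    Mid.frN (vsub w1 T M a b).2 fun x => Bool.rec (motive := fun _ => ℕ) x b.2 (Nat.ble x b.2))
/-- minimum -/
noncomputable def vmin (w1 T M : ℕ) (a b : ℕ × ℕ) : ℕ × ℕ :=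
  (Nat.sub a.1 (vsub w1 T M a b).1, (vsub w1 T M a b).2)
/-- the mask `a ≤ b` -/
noncomputable def vleq (T M : ℕ) (a b : ℕ × ℕ) : ℕ × ℕ := vle T M (a.1, Nat.succ a.2) b

lemma Rv.sub (hw : 0 < w) {a b : ℕ × ℕ} {f g : γ → ℕ} (ha : Rv w L a f) (hb : Rv w L b g) :
    Rv w L (vsub (w - 1) (2 ^ (w - 1)) (pkL (2 ^ w) (fun _ => 2 ^ (w - 1)) L) a b)
      (fun c => f c - g c) := Rv.mon hw ha hb

lemma Rm.leq (hw : 0 < w) {a b : ℕ × ℕ} {f g : γ → ℕ} (ha : Rv w L a f) (hb : Rv w L b g) :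
    Rm w L (vleq (2 ^ (w - 1)) (pkL (2 ^ w) (fun _ => 2 ^ (w - 1)) L) a b)
      (fun c => decide (f c ≤ g c)) := Rm.le' hw ha hb

lemma Rv.max (hw : 0 < w) {a b : ℕ × ℕ} {f g : γ → ℕ} (ha : Rv w L a f) (hb : Rv w L b g) :
    Rv w L (vmax (w - 1) (2 ^ (w - 1)) (pkL (2 ^ w) (fun _ => 2 ^ (w - 1)) L) a b)
      (fun c => Max.max (f c) (g c)) := by
  intro h
  have e2 : (vmax (w - 1) (2 ^ (w - 1)) (pkL (2 ^ w) (fun _ => 2 ^ (w - 1)) L) a b).2
      = Mid.frN (vsub (w - 1) (2 ^ (w - 1)) (pkL (2 ^ w) (fun _ => 2 ^ (w - 1)) L) a b).2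
        fun x => Bool.rec (motive := fun _ => ℕ) x b.2 (Nat.ble x b.2) := rfl
  rw [Mid.frN_eq] at e2
  have h1 : (vsub (w - 1) (2 ^ (w - 1)) (pkL (2 ^ w) (fun _ => 2 ^ (w - 1)) L) a b).2
      ≤ (vmax (w - 1) (2 ^ (w - 1)) (pkL (2 ^ w) (fun _ => 2 ^ (w - 1)) L) a b).2
      ∧ b.2 ≤ (vmax (w - 1) (2 ^ (w - 1)) (pkL (2 ^ w) (fun _ => 2 ^ (w - 1)) L) a b).2 := by
    rw [e2]
    cases h2 : Nat.ble
      (vsub (w - 1) (2 ^ (w - 1)) (pkL (2 ^ w) (fun _ => 2 ^ (w - 1)) L) a b).2 b.2 with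
    | false =>
      refine ⟨le_rfl, ?_⟩
      show b.2 ≤ _
      by_contra h3
      rw [Nat.ble_eq_true_of_le (not_le.1 h3).le] at h2
      exact Bool.false_ne_true h2.symm
    | true => exact ⟨Nat.le_of_ble_eq_true h2, le_rfl⟩
  obtain ⟨s1, s2⟩ := Rv.sub hw ha hb (lt_of_le_of_lt h1.1 h)
  obtain ⟨b1, b2⟩ := hb (lt_of_le_of_lt h1.2 h)
  have h3 : (vsub (w - 1) (2 ^ (w - 1)) (pkL (2 ^ w) (fun _ => 2 ^ (w - 1)) L) a b).2
      = a.2 + psn (2 ^ (w - 1)) (Nat.ble (Nat.succ b.2) (2 ^ (w - 1))) := rfl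
  have h4 := lt_of_le_of_lt h1.1 h
  rw [h3] at h4
  obtain ⟨a1, a2⟩ := ha (psn_lt h4).2
  constructor
  · have e1 : (vmax (w - 1) (2 ^ (w - 1)) (pkL (2 ^ w) (fun _ => 2 ^ (w - 1)) L) a b).1
        = b.1 + (vsub (w - 1) (2 ^ (w - 1)) (pkL (2 ^ w) (fun _ => 2 ^ (w - 1)) L) a b).1 := rfl
    rw [e1, s1, b1, pkL_add]
    exact pkL_congr fun c _ => by omega
  · intro c hc
    refine max_le ?_ ((b2 c hc).trans h1.2)
    have h5 := a2 c hc
    have h6 : a.2 ≤ (vsub (w - 1) (2 ^ (w - 1)) (pkL (2 ^ w) (fun _ => 2 ^ (w - 1)) L) a b).2 := by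
      rw [h3]
      exact Nat.le_add_right _ _
    exact (h5.trans h6).trans h1.1

lemma Rv.min (hw : 0 < w) {a b : ℕ × ℕ} {f g : γ → ℕ} (ha : Rv w L a f) (hb : Rv w L b g) :
    Rv w L (vmin (w - 1) (2 ^ (w - 1)) (pkL (2 ^ w) (fun _ => 2 ^ (w - 1)) L) a b)
      (fun c => Min.min (f c) (g c)) := by
  intro h
  have h3 : (vmin (w - 1) (2 ^ (w - 1)) (pkL (2 ^ w) (fun _ => 2 ^ (w - 1)) L) a b).2
      = a.2 + psn (2 ^ (w - 1)) (Nat.ble (Nat.succ b.2) (2 ^ (w - 1))) := rfl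
  obtain ⟨s1, s2⟩ := Rv.sub hw ha hb h
  have h4 := h
  rw [h3] at h4
  obtain ⟨a1, a2⟩ := ha (psn_lt h4).2
  constructor
  · have e1 : (vmin (w - 1) (2 ^ (w - 1)) (pkL (2 ^ w) (fun _ => 2 ^ (w - 1)) L) a b).1
        = a.1 - (vsub (w - 1) (2 ^ (w - 1)) (pkL (2 ^ w) (fun _ => 2 ^ (w - 1)) L) a b).1 := rfl
    rw [e1, s1, a1, pkL_sub fun c _ => Nat.sub_le _ _]
    exact pkL_congr fun c _ => by omega
  · intro c hc
    rw [h3]
    exact ((min_le_left _ _).trans (a2 c hc)).trans (Nat.le_add_right _ _)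

/-- both masks -/
noncomputable def vand (m n : ℕ × ℕ) : ℕ × ℕ := (Nat.land m.1 n.1, Nat.add m.2 n.2)
/-- one of the masks -/
noncomputable def vor (m n : ℕ × ℕ) : ℕ × ℕ := (Nat.lor m.1 n.1, Nat.add m.2 n.2)

lemma bl_lt (hw : 0 < w) (b : Bool) : bl (2 ^ (w - 1)) b < 2 ^ w := by
  have h2 := two_pow_split hw
  have h3 := Nat.two_pow_pos (w - 1)
  unfold bl
  cases b with
  | false => show 0 < 2 ^ w; omega
  | true => show 2 ^ (w - 1) < 2 ^ w; omega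

lemma Rm.and (hw : 0 < w) {m n : ℕ × ℕ} {p q : γ → Bool} (hm : Rm w L m p) (hn : Rm w L n q) :
    Rm w L (vand m n) (fun c => p c && q c) := by
  intro h
  have h1 : m.2 + n.2 < 2 ^ (w - 1) := h
  have e1 : (vand m n).1 = m.1 &&& n.1 := rfl
  rw [e1, hm (by omega), hn (by omega), pkL_land (fun c _ => bl_lt hw _) fun c _ => bl_lt hw _]
  refine pkL_congr fun c _ => ?_
  show bl (2 ^ (w - 1)) (p c) &&& bl (2 ^ (w - 1)) (q c) = bl (2 ^ (w - 1)) (p c && q c)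
  cases p c <;> cases q c <;> simp [bl]

lemma Rm.or (hw : 0 < w) {m n : ℕ × ℕ} {p q : γ → Bool} (hm : Rm w L m p) (hn : Rm w L n q) :
    Rm w L (vor m n) (fun c => p c || q c) := by
  intro h
  have h1 : m.2 + n.2 < 2 ^ (w - 1) := h
  have e1 : (vor m n).1 = m.1 ||| n.1 := rfl
  rw [e1, hm (by omega), hn (by omega), pkL_lor (fun c _ => bl_lt hw _) fun c _ => bl_lt hw _]
  refine pkL_congr fun c _ => ?_
  show bl (2 ^ (w - 1)) (p c) ||| bl (2 ^ (w - 1)) (q c) = bl (2 ^ (w - 1)) (p c || q c)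
  cases p c <;> cases q c <;> simp [bl]

/-- the vector on the lanes of the mask, 0 elsewhere -/
noncomputable def vmsk (w1 : ℕ) (m a : ℕ × ℕ) : ℕ × ℕ :=
  (Nat.land (fm w1 m.1) a.1, Nat.add m.2 a.2)

lemma Rv.msk (hw : 0 < w) {m a : ℕ × ℕ} {p : γ → Bool} {f : γ → ℕ} (hm : Rm w L m p)
    (ha : Rv w L a f) : Rv w L (vmsk (w - 1) m a) (fun c => bl (f c) (p c)) := by
  intro h
  have h1 : m.2 + a.2 < 2 ^ (w - 1) := h
  have h2 := two_pow_split hw
  have hT := Nat.two_pow_pos w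
  obtain ⟨a1, a2⟩ := ha (by omega)
  have e1 : (vmsk (w - 1) m a).1 = fm (w - 1) m.1 &&& a.1 := rfl
  have hf : ∀ c ∈ L, f c < 2 ^ w := fun c hc => by
    have := a2 c hc
    omega
  constructor
  · rw [e1, hm (by omega), fm_eq hw, a1]
    refine (pkL_land (fun c _ => ?_) hf).trans (pkL_congr fun c hc => bl_land _ (hf c hc))
    unfold bl
    cases p c with
    | false => exact hT
    | true => show 2 ^ w - 1 < 2 ^ w; omega
  · intro c hc
    have h3 := a2 c hc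
    have h4 : (vmsk (w - 1) m a).2 = m.2 + a.2 := rfl
    rw [h4]
    show bl (f c) (p c) ≤ m.2 + a.2
    unfold bl
    cases p c with
    | false => exact Nat.zero_le _
    | true => show f c ≤ m.2 + a.2; omega

/-- nothing is left of the mask -/
noncomputable def vnil (T : ℕ) (m : ℕ × ℕ) : Bool :=
  Bool.rec (motive := fun _ => Bool) false (Nat.beq m.1 0) (Nat.ble (Nat.succ m.2) T)

/-- **a mask which is 0 holds nowhere** -/
theorem Rm.empty (hw : 0 < w) {m : ℕ × ℕ} {p : γ → Bool} (hm : Rm w L m p)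
    (h : vnil (2 ^ (w - 1)) m = true) : ∀ c ∈ L, p c = false := by
  unfold vnil at h
  obtain ⟨h1, h2⟩ := bt h
  have h3 : m.2 < 2 ^ (w - 1) := Nat.le_of_ble_eq_true h1
  have h4 := Nat.eq_of_beq_eq_true h2
  intro c hc
  obtain ⟨i, hi, rfl⟩ := List.getElem_of_mem hc
  have h5 := pkL_testBit (w := w) (f := fun c => bl (2 ^ (w - 1)) (p c)) (L := L)
    (fun c _ => bl_lt hw _) hi (p := w - 1) (by omega)
  rw [← hm h3, h4, Nat.zero_testBit, Sd.top_bit hw (bl_lt hw _)] at h5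
  cases h6 : p L[i] with
  | false => rfl
  | true =>
    rw [h6] at h5
    exact absurd (of_decide_eq_false h5.symm) (by
      show ¬ ¬ 2 ^ (w - 1) ≤ 2 ^ (w - 1)
      exact not_not.2 le_rfl)

/-- force a vector -/
noncomputable def frV {β : Type} (v : ℕ × ℕ) (k : ℕ × ℕ → β) : β :=
  Mid.frN v.1 fun x => Mid.frN v.2 fun y => k (x, y)

lemma frV_eq {β : Type} (v : ℕ × ℕ) (k : ℕ × ℕ → β) : frV v k = k v := by
  unfold frV
  rw [Mid.frN_eq, Mid.frN_eq]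

end Sl

end Pool.Agent.Lib.MP_f04ccf_co
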