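import Pool.Agent.Lib.MP_f04ccf_co.M.SimZ

/-!
MP_f04ccf_co, **vectors of letters in the kernel**: digits of packed codes, products, tables, corners.

* `Gp`, `gp w L`: the numbers `w - 1, T = 2^(w-1), T..T, 1..1` of a list of lanes;
* `dig`: a digit of every lane; `letP`: the letters; `prodP`: products of letters;
* `onesP`: the indicator vectors of the values `1, 2, .., n` of a vector; `mskP`: another vector cut by them;
  `tabv_spec`: the linear combination of the cut vectors by a table = (table at the value) times the vector;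
* `maxL`: the maximum over a list of linear combinations (corners).
-/

set_option autoImplicit false

namespace Pool.Agent.Lib.MP_f04ccf_co

namespace Sl

variable {γ β : Type} {w : ℕ} {L : List γ}

/-- the constants of a list of lanes -/
structure Gp where
  (w1 T M O : ℕ)

/-- the constants -/
noncomputable def gp (w : ℕ) (L : List γ) : Gp :=
  ⟨w - 1, 2 ^ (w - 1), pkL (2 ^ w) (fun _ => 2 ^ (w - 1)) L, pkL (2 ^ w) (fun _ => 1) L⟩

/-! ### digits -/

/-- a digit of every lane -/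
lemma pkL_dig {g : γ → ℕ} (hg : ∀ c ∈ L, g c < 2 ^ w) {s t : ℕ} (hs : s + t ≤ w) :
    Nat.land (Nat.shiftRight (pkL (2 ^ w) g L) s)
      (Nat.mul (Nat.sub (Nat.pow 2 t) 1) (pkL (2 ^ w) (fun _ => 1) L))
      = pkL (2 ^ w) (fun c => g c / 2 ^ s % 2 ^ t) L := by
  have h0 : (2 ^ t - 1) * pkL (2 ^ w) (fun _ => 1) L = pkL (2 ^ w) (fun _ => 2 ^ t - 1) L := by
    rw [pkL_smul]
    exact pkL_congr fun c _ => Nat.mul_one _
  have h1 : Nat.mul (Nat.sub (Nat.pow 2 t) 1) (pkL (2 ^ w) (fun _ => 1) L)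
      = pkL (2 ^ w) (fun _ => 2 ^ t - 1) L := h0
  rw [h1]
  have ht2 : 2 ^ t ≤ 2 ^ w := Nat.pow_le_pow_right (by norm_num) (by omega)
  have htp := Nat.two_pow_pos t
  clear h0 h1
  induction L with
  | nil => exact Nat.and_zero _
  | cons c L ih =>
    have h1 := ih fun c hc => hg c (List.mem_cons_of_mem _ hc)
    have h2 := hg c List.mem_cons_self
    rw [pkL_cons, pkL_cons, pkL_cons, ← h1]
    refine Nat.eq_of_testBit_eq fun i => ?_
    have e1 : Nat.land (Nat.shiftRight (g c + 2 ^ w * pkL (2 ^ w) g L) s)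
        (2 ^ t - 1 + 2 ^ w * pkL (2 ^ w) (fun _ => 2 ^ t - 1) L)
        = ((g c + 2 ^ w * pkL (2 ^ w) g L) >>> s)
          &&& (2 ^ t - 1 + 2 ^ w * pkL (2 ^ w) (fun _ => 2 ^ t - 1) L) := rfl
    have e2 : Nat.land (Nat.shiftRight (pkL (2 ^ w) g L) s) (pkL (2 ^ w) (fun _ => 2 ^ t - 1) L)
        = (pkL (2 ^ w) g L >>> s) &&& pkL (2 ^ w) (fun _ => 2 ^ t - 1) L := rfl
    have h3 : 2 ^ t - 1 < 2 ^ w := by omega
    have h4 : g c / 2 ^ s % 2 ^ t < 2 ^ w := lt_of_lt_of_le (Nat.mod_lt _ htp) ht2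
    rw [e1, e2, Nat.testBit_and, Nat.testBit_shiftRight, Nat.add_comm (g c),
      Nat.add_comm (2 ^ t - 1), Nat.add_comm (g c / 2 ^ s % 2 ^ t),
      Nat.testBit_two_pow_mul_add _ h2, Nat.testBit_two_pow_mul_add _ h3,
      Nat.testBit_two_pow_mul_add _ h4]
    by_cases h5 : i < w
    · rw [if_pos h5, if_pos h5, Nat.testBit_two_pow_sub_one, Nat.testBit_mod_two_pow,
        Nat.testBit_div_two_pow]
      by_cases h6 : i < t
      · rw [if_pos (by omega), Nat.add_comm s i]
        simp [h6]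
      · simp [h6]
    · rw [if_neg h5, if_neg h5, if_neg (by omega), Nat.testBit_and, Nat.testBit_shiftRight]
      congr 2
      omega

/-- the letter at `(s, t)` of a code -/
def lt (s t : ℕ) (c : ℕ) : ℕ := c / 2 ^ s % 2 ^ t

/-- the digit vector -/
noncomputable def digV (O rec s t : ℕ) : ℕ × ℕ :=
  (Nat.land (Nat.shiftRight rec s) (Nat.mul (Nat.sub (Nat.pow 2 t) 1) O), Nat.sub (Nat.pow 2 t) 1)

lemma digV_spec {L : List ℕ} (hL : ∀ c ∈ L, c < 2 ^ w) {s t : ℕ} (hs : s + t ≤ w) :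
    Rv w L (digV (pkL (2 ^ w) (fun _ => 1) L) (pkL (2 ^ w) (fun c => c) L) s t) (lt s t) := by
  intro _
  refine ⟨pkL_dig hL hs, fun c _ => ?_⟩
  have h1 := Nat.mod_lt (c / 2 ^ s) (Nat.two_pow_pos t)
  show c / 2 ^ s % 2 ^ t ≤ 2 ^ t - 1
  omega

/-- the letters -/
noncomputable def letP (O rec : ℕ) (ds : List (ℕ × ℕ)) : (List (ℕ × ℕ) → β) → β :=
  List.rec (motive := fun _ => (List (ℕ × ℕ) → β) → β) (fun k => k [])
    (fun d _ ih k => frV (digV O rec d.1 d.2) fun v => ih fun vs => k (v :: vs)) ds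

lemma letP_spec {L : List ℕ} (hL : ∀ c ∈ L, c < 2 ^ w) : ∀ (ds : List (ℕ × ℕ)),
    (∀ d ∈ ds, d.1 + d.2 ≤ w) → ∃ vs : List (ℕ × ℕ),
      List.Forall₂ (Rv w L) vs (ds.map fun d => lt d.1 d.2) ∧ ∀ k : List (ℕ × ℕ) → β,
        letP (pkL (2 ^ w) (fun _ => 1) L) (pkL (2 ^ w) (fun c => c) L) ds k = k vs := by
  intro ds
  induction ds with
  | nil => intro _; exact ⟨[], List.Forall₂.nil, fun k => rfl⟩
  | cons d ds ih =>
    intro h
    obtain ⟨vs, h1, h2⟩ := ih fun d hd => h d (List.mem_cons_of_mem _ hd)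
    have h3 := h d List.mem_cons_self
    refine ⟨_ :: vs, List.Forall₂.cons (digV_spec hL h3) h1, fun k => ?_⟩
    have e1 : letP (pkL (2 ^ w) (fun _ => 1) L) (pkL (2 ^ w) (fun c => c) L) (d :: ds) k
        = frV (digV (pkL (2 ^ w) (fun _ => 1) L) (pkL (2 ^ w) (fun c => c) L) d.1 d.2) fun v =>
          letP (pkL (2 ^ w) (fun _ => 1) L) (pkL (2 ^ w) (fun c => c) L) ds fun vs => k (v :: vs) := rfl
    rw [e1, frV_eq, h2]

/-! ### products -/

/-- the vector number `n` -/
noncomputable def nthV (xs : List (ℕ × ℕ)) : ℕ → ℕ × ℕ :=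
  List.rec (motive := fun _ => ℕ → ℕ × ℕ) (fun _ => (0, 0))
    (fun x _ ih n => Nat.rec (motive := fun _ => ℕ × ℕ) x (fun m _ => ih m) n) xs

/-- the function number `n` -/
def nthG (fs : List (γ → ℕ)) : ℕ → γ → ℕ :=
  List.rec (motive := fun _ => ℕ → γ → ℕ) (fun _ _ => 0)
    (fun f _ ih n => Nat.rec (motive := fun _ => γ → ℕ) f (fun m _ => ih m) n) fs

lemma nthV_spec {vs : List (ℕ × ℕ)} {fs : List (γ → ℕ)} (h : List.Forall₂ (Rv w L) vs fs) :
    ∀ n, Rv w L (nthV vs n) (nthG fs n) := by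
  induction h with
  | nil => intro n _; exact ⟨(pkL_zero _ _).symm, fun _ _ => le_rfl⟩
  | cons h1 h2 ih =>
    intro n
    cases n with
    | zero => exact h1
    | succ n => exact ih n

/-- products of pairs `(i, j, bits of j)` -/
noncomputable def prodP (g : Gp) (vs : List (ℕ × ℕ)) (ps : List (ℕ × ℕ × ℕ)) :
    (List (ℕ × ℕ) → β) → β :=
  List.rec (motive := fun _ => (List (ℕ × ℕ) → β) → β) (fun k => k [])
    (fun p _ ih k => frV (nthV vs p.1) fun a => frV (nthV vs p.2.1) fun b =>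
      vmulb g.w1 g.T g.O p.2.2 a b fun r => ih fun rs => k (r :: rs)) ps

lemma prodP_spec (hw : 0 < w) {vs : List (ℕ × ℕ)} {fs : List (γ → ℕ)}
    (h : List.Forall₂ (Rv w L) vs fs) : ∀ (ps : List (ℕ × ℕ × ℕ)), ∃ rs : List (ℕ × ℕ),
      List.Forall₂ (Rv w L) rs (ps.map fun p c => nthG fs p.1 c * nthG fs p.2.1 c) ∧
      ∀ k : List (ℕ × ℕ) → β, prodP (gp w L) vs ps k = k rs := by
  intro ps
  induction ps with
  | nil => exact ⟨[], List.Forall₂.nil, fun k => rfl⟩
  | cons p ps ih =>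
    obtain ⟨rs, h1, h2⟩ := ih
    obtain ⟨r, h3, h4⟩ := vmulb_spec (β := β) hw p.2.2 (nthV_spec h p.1) (nthV_spec h p.2.1)
    refine ⟨r :: rs, List.Forall₂.cons h3 h1, fun k => ?_⟩
    have e1 : prodP (gp w L) vs (p :: ps) k = frV (nthV vs p.1) fun a => frV (nthV vs p.2.1) fun b =>
      vmulb (gp w L).w1 (gp w L).T (gp w L).O p.2.2 a b fun r =>
        prodP (gp w L) vs ps fun rs => k (r :: rs) := rfl
    rw [e1, frV_eq, frV_eq]
    have e2 := h4 fun r => prodP (gp w L) vs ps fun rs => k (r :: rs)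
    refine Eq.trans e2 ?_
    rw [h2]

/-! ### tables -/

/-- indicator of a value -/
def ind (f : γ → ℕ) (b : ℕ) (c : γ) : ℕ := bl 1 (decide (f c ≤ b) && decide (b ≤ f c))

/-- the indicator vectors of `b, b - 1, .., 1` in front of `acc` -/
noncomputable def onesP (g : Gp) (v : ℕ × ℕ) (n : ℕ) : List (ℕ × ℕ) → (List (ℕ × ℕ) → β) → β :=
  Nat.rec (motive := fun _ => List (ℕ × ℕ) → (List (ℕ × ℕ) → β) → β) (fun acc k => k acc)
    (fun b ih acc k => frV (Nat.mul (Nat.succ b) g.O, Nat.succ b) fun x =>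
      frV (vleq g.T g.M v x) fun m1 => frV (vleq g.T g.M x v) fun m2 => frV (vand m1 m2) fun m =>
        frV (Nat.shiftRight m.1 g.w1, Nat.succ m.2) fun o => ih (o :: acc) k) n

lemma mask_one {m : ℕ × ℕ} {p : γ → Bool} (hm : Rm w L m p) :
    Rv w L (Nat.shiftRight m.1 (w - 1), Nat.succ m.2) (fun c => bl 1 (p c)) := by
  intro h
  have h1 : m.2 + 1 < 2 ^ (w - 1) := h
  have h2 := hm (by omega)
  have e1 : pkL (2 ^ w) (fun c => bl (2 ^ (w - 1)) (p c)) L
      = 2 ^ (w - 1) * pkL (2 ^ w) (fun c => bl 1 (p c)) L := by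
    rw [pkL_smul]
    refine pkL_congr fun c _ => ?_
    unfold bl
    cases p c <;> simp
  refine ⟨?_, fun c _ => ?_⟩
  · show m.1 >>> (w - 1) = _
    rw [h2, e1, Nat.shiftRight_eq_div_pow, Nat.mul_div_cancel_left _ (Nat.two_pow_pos _)]
  · show bl 1 (p c) ≤ m.2 + 1
    unfold bl
    cases p c
    · exact Nat.zero_le _
    · show 1 ≤ m.2 + 1
      omega

/-- the values `a, a + 1, ..` (`n` of them) -/
def rngF (f : γ → ℕ) : ℕ → ℕ → List (γ → ℕ)
  | 0, _ => []
  | n + 1, a => ind f a :: rngF f n (a + 1)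

lemma rngF_append (f : γ → ℕ) : ∀ (n a : ℕ) (l : List (γ → ℕ)),
    rngF f n a ++ (ind f (a + n) :: l) = rngF f (n + 1) a ++ l := by
  intro n
  induction n with
  | zero => intro a l; rfl
  | succ n ih =>
    intro a l
    have e1 : a + (n + 1) = (a + 1) + n := by ring
    show ind f a :: (rngF f n (a + 1) ++ (ind f (a + (n + 1)) :: l))
      = ind f a :: (rngF f (n + 1) (a + 1) ++ l)
    rw [e1, ih]

lemma onesP_spec (hw : 0 < w) {v : ℕ × ℕ} {f : γ → ℕ} (hv : Rv w L v f) : ∀ (n : ℕ)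
    {acc : List (ℕ × ℕ)} {fs : List (γ → ℕ)}, List.Forall₂ (Rv w L) acc fs →
    ∃ os : List (ℕ × ℕ), List.Forall₂ (Rv w L) os (rngF f n 1 ++ fs) ∧
      ∀ k : List (ℕ × ℕ) → β, onesP (gp w L) v n acc k = k os := by
  intro n
  induction n with
  | zero => intro acc fs h; exact ⟨acc, h, fun k => rfl⟩
  | succ n ih =>
    intro acc fs h
    have h1 : Rv w L (Nat.mul (Nat.succ n) (pkL (2 ^ w) (fun _ => 1) L), Nat.succ n)
      (fun _ => n + 1) := Rv.const _
    have h2 := mask_one (Rm.and hw (Rm.leq hw hv h1) (Rm.leq hw h1 hv))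
    obtain ⟨os, h3, h4⟩ := ih (acc := _ :: acc) (List.Forall₂.cons h2 h)
    refine ⟨os, ?_, fun k => ?_⟩
    · have e1 : 1 + n = n + 1 := Nat.add_comm _ _
      have e2 := rngF_append f n 1 fs
      rw [e1] at e2
      rw [← e2]
      exact h3
    · rw [← h4 k]
      have e1 : onesP (gp w L) v (n + 1) acc k
        = frV (Nat.mul (Nat.succ n) (gp w L).O, Nat.succ n) fun x =>
          frV (vleq (gp w L).T (gp w L).M v x) fun m1 => frV (vleq (gp w L).T (gp w L).M x v) fun m2 =>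
            frV (vand m1 m2) fun m => frV (Nat.shiftRight m.1 (gp w L).w1, Nat.succ m.2) fun o =>
              onesP (gp w L) v n (o :: acc) k := rfl
      rw [e1, frV_eq, frV_eq, frV_eq, frV_eq, frV_eq]
      rfl

/-- a vector cut by the indicator vectors -/
noncomputable def mskP (F : ℕ) (y : ℕ × ℕ) (os : List (ℕ × ℕ)) : (List (ℕ × ℕ) → β) → β :=
  List.rec (motive := fun _ => (List (ℕ × ℕ) → β) → β) (fun k => k [])
    (fun o _ ih k => frV (Nat.land (Nat.mul F o.1) y.1, Nat.add o.2 y.2) fun r =>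
      ih fun rs => k (r :: rs)) os

lemma cut_spec (hw : 0 < w) {o y : ℕ × ℕ} {p : γ → Bool} {f : γ → ℕ}
    (ho : Rv w L o (fun c => bl 1 (p c))) (hy : Rv w L y f) :
    Rv w L (Nat.land (Nat.mul (2 ^ w - 1) o.1) y.1, Nat.add o.2 y.2)
      (fun c => bl 1 (p c) * f c) := by
  intro h
  have h1 : o.2 + y.2 < 2 ^ (w - 1) := h
  have h2 := two_pow_split hw
  obtain ⟨a1, a2⟩ := ho (by omega)
  obtain ⟨b1, b2⟩ := hy (by omega)
  have hf : ∀ c ∈ L, f c < 2 ^ w := fun c hc => by have := b2 c hc; omega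
  have e2 : Nat.mul (2 ^ w - 1) (pkL (2 ^ w) (fun c => bl 1 (p c)) L)
      = pkL (2 ^ w) (fun c => bl (2 ^ w - 1) (p c)) L := by
    refine (pkL_smul _ _ _ _).trans (pkL_congr fun c _ => ?_)
    unfold bl
    cases p c
    · exact Nat.mul_zero _
    · exact Nat.mul_one _
  constructor
  · show Nat.land (Nat.mul (2 ^ w - 1) o.1) y.1 = _
    rw [a1, b1, e2]
    refine (pkL_land (fun c _ => ?_) hf).trans (pkL_congr fun c hc => ?_)
    · unfold bl
      cases p c
      · exact Nat.two_pow_pos w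
      · show 2 ^ w - 1 < 2 ^ w
        have := Nat.two_pow_pos w
        omega
    · rw [bl_land _ (hf c hc)]
      unfold bl
      cases p c
      · exact (Nat.zero_mul _).symm
      · exact (Nat.one_mul _).symm
  · intro c hc
    show bl 1 (p c) * f c ≤ o.2 + y.2
    have := b2 c hc
    unfold bl
    cases p c
    · show 0 * f c ≤ _
      omega
    · show 1 * f c ≤ _
      omega

/-- indicator times another function -/
def rngM (f y : γ → ℕ) (n a : ℕ) : List (γ → ℕ) := (rngF f n a).map fun i c => i c * y c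

lemma mskP_spec (hw : 0 < w) {y : ℕ × ℕ} {g : γ → ℕ} (hy : Rv w L y g) (f : γ → ℕ) :
    ∀ {n a : ℕ} {os : List (ℕ × ℕ)}, List.Forall₂ (Rv w L) os (rngF f n a) →
    ∃ rs : List (ℕ × ℕ), List.Forall₂ (Rv w L) rs (rngM f g n a) ∧
      ∀ k : List (ℕ × ℕ) → β, mskP (2 ^ w - 1) y os k = k rs := by
  intro n
  induction n with
  | zero =>
    intro a os h
    cases h
    exact ⟨[], List.Forall₂.nil, fun k => rfl⟩
  | succ n ih =>
    intro a os h
    cases h with
    | cons h1 h2 =>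
      rename_i o os
      obtain ⟨rs, h3, h4⟩ := ih h2
      refine ⟨_ :: rs, List.Forall₂.cons (cut_spec hw h1 hy) h3, fun k => ?_⟩
      have e1 : mskP (2 ^ w - 1) y (o :: os) k
        = frV (Nat.land (Nat.mul (2 ^ w - 1) o.1) y.1, Nat.add o.2 y.2) fun r =>
          mskP (2 ^ w - 1) y os fun rs => k (r :: rs) := rfl
      rw [e1, frV_eq, h4]

lemma dot_ind (f : γ → ℕ) (y : γ → ℕ) (c : γ) : ∀ (tab : List ℕ) (n a : ℕ),
    Sd.dot tab ((rngM f y n a).map fun i => i c)
      = (if a ≤ f c ∧ f c < a + n then tab.getD (f c - a) 0 else 0) * y c := by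
  intro tab
  induction tab with
  | nil => intro n a; simp [Sd.dot_nil]
  | cons t tab ih =>
    intro n a
    cases n with
    | zero =>
      have e1 : (rngM f y 0 a).map (fun i => i c) = [] := rfl
      rw [e1, Sd.dot_nil', if_neg (by omega), Nat.zero_mul]
    | succ n =>
      have e1 : (rngM f y (n + 1) a).map (fun i => i c)
          = (ind f a c * y c) :: (rngM f y n (a + 1)).map (fun i => i c) := rfl
      rw [e1, Sd.dot_cons, ih]
      unfold ind
      by_cases h1 : f c = a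
      · have h2 : (decide (f c ≤ a) && decide (a ≤ f c)) = true := by simp [h1]
        rw [h2, if_neg (by omega), if_pos (by omega), h1, Nat.sub_self]
        show t * (1 * y c) + 0 * y c = t * y c
        ring
      · have h2 : (decide (f c ≤ a) && decide (a ≤ f c)) = false := by
          rw [Bool.and_eq_false_iff]
          rcases Nat.lt_or_gt_of_ne h1 with h3 | h3
          · right; simp; omega
          · left; simp; omega
        rw [h2]
        show t * (0 * y c) + _ = _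
        rw [Nat.zero_mul, Nat.mul_zero, Nat.zero_add]
        by_cases h3 : a + 1 ≤ f c ∧ f c < a + 1 + n
        · rw [if_pos h3, if_pos (by omega)]
          have e2 : f c - a = (f c - (a + 1)) + 1 := by omega
          rw [e2, List.getD_cons_succ]
        · rw [if_neg h3, if_neg (by omega)]

/-- **a table times a vector** -/
lemma tabv_spec {f y : γ → ℕ} {n : ℕ} {rs : List (ℕ × ℕ)}
    (h : List.Forall₂ (Rv w L) rs (rngM f y n 1)) (tab : List ℕ) :
    Rv w L (vdot tab rs) (fun c => (if 1 ≤ f c ∧ f c < 1 + n then tab.getD (f c - 1) 0 else 0) * y c) :=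
  (Rv.dot h tab).congr fun c _ => dot_ind f y c tab n 1

end Sl

end Pool.Agent.Lib.MP_f04ccf_co
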