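import Pool.Agent.Lib.MP_f04ccf_co.M.SimW

/-!
MP_f04ccf_co, **corners, forms and the final comparison on lanes.**

* `zlinK`: linear combination with integer coefficients, added to an accumulator (zero coefficients are skipped);
* `Cor`: a corner `(s, t, e, cp, cn)` of a form `(F, u, nu, m)` (`nu = - u`): value `F + (s - t) u + e m + cp - cn`;
  `corK`, `maxK`: the maximum over a list of corners; `minK`: minimum with further vectors;
* `Rm.imp`: `land p q = p` means `p → q` on every lane.
-/

set_option autoImplicit false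

namespace Pool.Agent.Lib.MP_f04ccf_co

namespace Sl

variable {γ β : Type} {w : ℕ} {L : List γ}

/-! ### linear combinations -/

/-- linear combination added to `acc` -/
noncomputable def zlinK (O : ℕ) (cs : List ℤ) : List Vz → Vz → (Vz → β) → β :=
  List.rec (motive := fun _ => List Vz → Vz → (Vz → β) → β) (fun _ acc k => k acc)
    (fun c _ ih vs acc k => List.casesOn (motive := fun _ => β) vs (k acc)
      (fun x xs => Int.casesOn (motive := fun _ => β) c
        (fun n => Nat.casesOn (motive := fun _ => β) n (ih xs acc k)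
          (fun m => frZ (zadd acc (zsm (Nat.succ m) x)) fun acc' => ih xs acc' k))
        (fun n => frZ (zadd acc (zsm (Nat.succ n) (zneg O x))) fun acc' => ih xs acc' k))) cs

lemma zlinK_spec {vs : List Vz} {fs : List (γ → ℤ)} (h : List.Forall₂ (Rz w L) vs fs) :
    ∀ (cs : List ℤ) {acc : Vz} {f : γ → ℤ}, Rz w L acc f → ∃ r : Vz,
      Rz w L r (fun c => f c + zdot cs (fs.map fun f => f c)) ∧
      ∀ k : Vz → β, zlinK (pkL (2 ^ w) (fun _ => 1) L) cs vs acc k = k r := by
  induction h with
  | nil =>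
    intro cs acc f ha
    refine ⟨acc, ha.congr fun c _ => ?_, fun k => ?_⟩
    · rw [List.map_nil, zdot_nil', add_zero]
    · cases cs <;> rfl
  | cons h1 h2 ih =>
    rename_i x g xs gs
    intro cs acc f ha
    cases cs with
    | nil => exact ⟨acc, ha.congr fun c _ => by rw [zdot_nil, add_zero], fun k => rfl⟩
    | cons a cs =>
      cases a with
      | ofNat n =>
        cases n with
        | zero =>
          obtain ⟨r, h3, h4⟩ := ih cs ha
          refine ⟨r, h3.congr fun c _ => ?_, fun k => (h4 k)⟩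
          rw [List.map_cons, zdot_cons]
          show f c + _ = f c + ((0 : ℤ) * g c + _)
          ring
        | succ m =>
          have h5 := ha.add (Rz.smul (Nat.succ m) h1)
          obtain ⟨r, h3, h4⟩ := ih cs h5
          refine ⟨r, h3.congr fun c _ => ?_, fun k => ?_⟩
          · rw [List.map_cons, zdot_cons]
            show f c + ((m + 1 : ℕ) : ℤ) * g c + _ = f c + (((m + 1 : ℕ) : ℤ) * g c + _)
            ring
          · have e1 : zlinK (pkL (2 ^ w) (fun _ => 1) L) (Int.ofNat (m + 1) :: cs) (x :: xs) acc k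
              = frZ (zadd acc (zsm (Nat.succ m) x)) fun acc' =>
                zlinK (pkL (2 ^ w) (fun _ => 1) L) cs xs acc' k := rfl
            rw [e1, frZ_eq, h4]
      | negSucc n =>
        have h5 := ha.add (Rz.smul (Nat.succ n) h1.neg)
        obtain ⟨r, h3, h4⟩ := ih cs h5
        refine ⟨r, h3.congr fun c _ => ?_, fun k => ?_⟩
        · rw [List.map_cons, zdot_cons, Int.negSucc_eq]
          push_cast
          ring
        · have e1 : zlinK (pkL (2 ^ w) (fun _ => 1) L) (Int.negSucc n :: cs) (x :: xs) acc k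
            = frZ (zadd acc (zsm (Nat.succ n) (zneg (pkL (2 ^ w) (fun _ => 1) L) x))) fun acc' =>
              zlinK (pkL (2 ^ w) (fun _ => 1) L) cs xs acc' k := rfl
          rw [e1, frZ_eq, h4]

/-! ### corners -/

/-- a corner -/
structure Cor where
  (s t e cp cn : ℕ)

/-- the value of a corner -/
def Cor.val (r : Cor) (F u m : ℤ) : ℤ := F + ((r.s : ℤ) - r.t) * u + r.e * m + r.cp - r.cn

/-- `(s - t) u` -/
noncomputable def zdf (s t : ℕ) (u nu : Vz) : Vz :=
  Bool.rec (motive := fun _ => Vz) (zsm (Nat.sub t s) nu) (zsm (Nat.sub s t) u) (Nat.ble t s)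

lemma zdf_spec {u nu : Vz} {f : γ → ℤ} (hu : Rz w L u f) (hn : Rz w L nu (fun c => - f c))
    (s t : ℕ) : Rz w L (zdf s t u nu) (fun c => ((s : ℤ) - t) * f c) := by
  unfold zdf
  cases h : Nat.ble t s with
  | true =>
    have h1 := Nat.le_of_ble_eq_true h
    refine (Rz.smul (s - t) hu).congr fun c _ => ?_
    push_cast [h1]
    ring
  | false =>
    have h1 : s ≤ t := by
      by_contra h2
      rw [Nat.ble_eq_true_of_le (not_le.1 h2).le] at h
      exact Bool.false_ne_true h.symm
    refine (Rz.smul (t - s) hn).congr fun c _ => ?_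
    push_cast [h1]
    ring

/-- shift a signed vector by `cp - cn` -/
noncomputable def zsf (x : Vz) (cp cn : ℕ) : Vz := ⟨x.v, x.h, Nat.add x.a cp, Nat.add x.b cn⟩

lemma zsf_spec {x : Vz} {f : γ → ℤ} (hx : Rz w L x f) (cp cn : ℕ) :
    Rz w L (zsf x cp cn) (fun c => f c + cp - cn) := by
  obtain ⟨g, h1, h2⟩ := hx
  refine ⟨g, h1, fun h c hc => ?_⟩
  have h3 := h2 h c hc
  show (g c : ℤ) + ((x.a + cp : ℕ) : ℤ) = f c + cp - cn + ((x.b + cn : ℕ) : ℤ)
  push_cast
  linarith

/-- the value at a corner (forced numbers) -/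
noncomputable def corJ (F u nu m : Vz) (r : Cor) (k : Vz → β) : β :=
  frZ (zadd F (zdf r.s r.t u nu)) fun x => Nat.casesOn (motive := fun _ => β) r.e
    (frZ (zsf x r.cp r.cn) k) (fun e => frZ (zsf (zadd x (zsm (Nat.succ e) m)) r.cp r.cn) k)

/-- the value at a corner -/
noncomputable def corK (F u nu m : Vz) (r : Cor) (k : Vz → β) : β :=
  Mid.frN r.s fun s => Mid.frN r.t fun t => Mid.frN r.e fun e => Mid.frN r.cp fun cp =>
    Mid.frN r.cn fun cn => corJ F u nu m ⟨s, t, e, cp, cn⟩ k

lemma corK_eq (F u nu m : Vz) (r : Cor) (k : Vz → β) : corK F u nu m r k = corJ F u nu m r k := by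
  unfold corK
  rw [Mid.frN_eq, Mid.frN_eq, Mid.frN_eq, Mid.frN_eq, Mid.frN_eq]

lemma corK_spec {F u nu m : Vz} {f g h : γ → ℤ} (hF : Rz w L F f) (hu : Rz w L u g)
    (hn : Rz w L nu (fun c => - g c)) (hm : Rz w L m h) (r : Cor) :
    Dz (β := β) w L (corK F u nu m r) (fun c => r.val (f c) (g c) (h c)) := by
  have h1 := hF.add (zdf_spec hu hn r.s r.t)
  obtain ⟨s, t, e, cp, cn⟩ := r
  cases e with
  | zero =>
    refine ⟨_, (zsf_spec h1 cp cn).congr fun c _ => ?_, fun k => ?_⟩
    · unfold Cor.val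
      push_cast
      ring
    · rw [corK_eq]
      unfold corJ
      rw [frZ_eq]
      exact frZ_eq _ _
  | succ e =>
    refine ⟨_, (zsf_spec (h1.add (Rz.smul (Nat.succ e) hm)) cp cn).congr fun c _ => ?_, fun k => ?_⟩
    · unfold Cor.val
      push_cast
      ring
    · rw [corK_eq]
      unfold corJ
      rw [frZ_eq]
      exact frZ_eq _ _

/-- the maximum over corners, started with `a` -/
def corM (F u m : ℤ) : List Cor → ℤ → ℤ
  | [], a => a
  | r :: rs, a => corM F u m rs (max a (r.val F u m))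

/-- the maximum over a list of corners -/
def corX (F u m : ℤ) : List Cor → ℤ
  | [] => 0
  | r :: rs => corM F u m rs (r.val F u m)

lemma corM_start (F u m : ℤ) : ∀ (rs : List Cor) (a : ℤ), a ≤ corM F u m rs a := by
  intro rs
  induction rs with
  | nil => intro a; exact le_rfl
  | cons r rs ih => intro a; exact (le_max_left _ _).trans (ih _)

lemma corM_le (F u m : ℤ) : ∀ (rs : List Cor) (a : ℤ), ∀ r ∈ rs, r.val F u m ≤ corM F u m rs a := by
  intro rs
  induction rs with
  | nil => intro a r hr; exact absurd hr List.not_mem_nil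
  | cons s rs ih =>
    intro a r hr
    rcases List.mem_cons.1 hr with h | h
    · rw [h]
      exact (le_max_right _ _).trans (corM_start F u m rs _)
    · exact ih _ r h

lemma corX_le (F u m : ℤ) (rs : List Cor) : ∀ r ∈ rs, r.val F u m ≤ corX F u m rs := by
  cases rs with
  | nil => intro r hr; exact absurd hr List.not_mem_nil
  | cons s rs =>
    intro r hr
    rcases List.mem_cons.1 hr with h | h
    · rw [h]
      exact corM_start F u m rs _
    · exact corM_le F u m rs _ r h

/-- the maximum, program, started with `a` -/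
noncomputable def maxR (g : Gp) (F u nu m : Vz) (rs : List Cor) : Vz → (Vz → β) → β :=
  List.rec (motive := fun _ => Vz → (Vz → β) → β) (fun a k => k a)
    (fun r _ ih a k => corK F u nu m r fun x => zmax g.w1 g.T g.M g.O a x fun a' => ih a' k) rs

/-- the maximum, program -/
noncomputable def maxK (g : Gp) (F u nu m : Vz) (rs : List Cor) (k : Vz → β) : β :=
  List.casesOn (motive := fun _ => β) rs (k ⟨0, 0, 0, 0⟩)
    (fun r rs' => corK F u nu m r fun x => maxR g F u nu m rs' x k)

lemma maxR_spec (hw : 0 < w) {F u nu m : Vz} {f g h : γ → ℤ} (hF : Rz w L F f) (hu : Rz w L u g)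
    (hn : Rz w L nu (fun c => - g c)) (hm : Rz w L m h) : ∀ (rs : List Cor) {a : Vz} {v : γ → ℤ},
    Rz w L a v → Dz (β := β) w L (maxR (gp w L) F u nu m rs a)
      (fun c => corM (f c) (g c) (h c) rs (v c)) := by
  intro rs
  induction rs with
  | nil => intro a v ha; exact ⟨a, ha, fun k => rfl⟩
  | cons r rs ih =>
    intro a v ha
    obtain ⟨x, h1, h2⟩ := corK_spec (β := β) hF hu hn hm r
    obtain ⟨y, h3, h4⟩ := zmax_spec (β := β) hw ha h1
    obtain ⟨z, h5, h6⟩ := ih h3
    refine ⟨z, h5, fun k => ?_⟩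
    have e1 : maxR (gp w L) F u nu m (r :: rs) a k = corK F u nu m r fun x =>
      zmax (gp w L).w1 (gp w L).T (gp w L).M (gp w L).O a x fun a' =>
        maxR (gp w L) F u nu m rs a' k := rfl
    rw [e1, h2, ← h6 k]
    exact h4 fun a' => maxR (gp w L) F u nu m rs a' k

lemma maxK_spec (hw : 0 < w) {F u nu m : Vz} {f g h : γ → ℤ} (hF : Rz w L F f) (hu : Rz w L u g)
    (hn : Rz w L nu (fun c => - g c)) (hm : Rz w L m h) (rs : List Cor) :
    Dz (β := β) w L (maxK (gp w L) F u nu m rs) (fun c => corX (f c) (g c) (h c) rs) := by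
  cases rs with
  | nil => exact ⟨⟨0, 0, 0, 0⟩, Rz.zero, fun k => rfl⟩
  | cons r rs =>
    obtain ⟨x, h1, h2⟩ := corK_spec (β := β) hF hu hn hm r
    obtain ⟨y, h3, h4⟩ := maxR_spec (β := β) hw hF hu hn hm rs h1
    refine ⟨y, h3, fun k => ?_⟩
    have e1 : maxK (gp w L) F u nu m (r :: rs) k = corK F u nu m r fun x =>
      maxR (gp w L) F u nu m rs x k := rfl
    rw [e1, h2, h4]

/-! ### the end -/

lemma pkL_inj {f g : γ → ℕ} : ∀ {L : List γ}, (∀ c ∈ L, f c < 2 ^ w) → (∀ c ∈ L, g c < 2 ^ w) →
    pkL (2 ^ w) f L = pkL (2 ^ w) g L → ∀ c ∈ L, f c = g c := by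
  intro L
  induction L with
  | nil => intro _ _ _ c hc; exact absurd hc List.not_mem_nil
  | cons b L ih =>
    intro hf hg h c hc
    rw [pkL_cons, pkL_cons] at h
    have h1 := hf b List.mem_cons_self
    have h2 := hg b List.mem_cons_self
    have h3 : f b = g b := by
      have := congrArg (· % 2 ^ w) h
      simp only [Nat.add_mul_mod_self_left, Nat.mod_eq_of_lt h1, Nat.mod_eq_of_lt h2] at this
      exact this
    have h4 : pkL (2 ^ w) f L = pkL (2 ^ w) g L := by
      rw [h3] at h
      exact Nat.eq_of_mul_eq_mul_left (Nat.two_pow_pos w) (Nat.add_left_cancel h)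
    rcases List.mem_cons.1 hc with h5 | h5
    · rw [h5]; exact h3
    · exact ih (fun c hc => hf c (List.mem_cons_of_mem _ hc))
        (fun c hc => hg c (List.mem_cons_of_mem _ hc)) h4 c h5

/-- the lanes of `m` are lanes of `n` -/
noncomputable def vimp (T : ℕ) (m n : ℕ × ℕ) : Bool :=
  Bool.rec (motive := fun _ => Bool) false (Nat.beq (Nat.land m.1 n.1) m.1)
    (Nat.ble (Nat.succ (Nat.add m.2 n.2)) T)

theorem Rm.imp (hw : 0 < w) {m n : ℕ × ℕ} {p q : γ → Bool} (hm : Rm w L m p) (hn : Rm w L n q)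
    (h : vimp (2 ^ (w - 1)) m n = true) : ∀ c ∈ L, p c = true → q c = true := by
  unfold vimp at h
  obtain ⟨h1, h2⟩ := bt h
  have h3 : m.2 + n.2 < 2 ^ (w - 1) := Nat.le_of_ble_eq_true h1
  have h4 : m.1 &&& n.1 = m.1 := Nat.eq_of_beq_eq_true h2
  have h5 := Rm.and hw hm hn h3
  have h6 := hm (by omega)
  have h7 : (vand m n).1 = m.1 &&& n.1 := rfl
  rw [h7, h4, h6] at h5
  intro c hc hp
  have h8 := pkL_inj (fun c _ => bl_lt hw _) (fun c _ => bl_lt hw _) h5 c hc
  rw [hp] at h8
  cases hq : q c with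
  | true => rfl
  | false =>
    rw [hq] at h8
    have h9 : 2 ^ (w - 1) = 0 := h8
    have := Nat.two_pow_pos (w - 1)
    omega

/-- mask of `f ≤ b`, a constant -/
noncomputable def vleC (g : Gp) (v : ℕ × ℕ) (b : ℕ) (k : ℕ × ℕ → β) : β :=
  frV (Nat.mul b g.O, b) fun x => frV (vleq g.T g.M v x) k

lemma vleC_spec (hw : 0 < w) {v : ℕ × ℕ} {f : γ → ℕ} (hv : Rv w L v f) (b : ℕ) :
    Dm (β := β) w L (vleC (gp w L) v b) (fun c => decide (f c ≤ b)) := by
  refine ⟨_, Rm.leq hw hv (Rv.const b), fun k => ?_⟩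
  unfold vleC
  rw [frV_eq, frV_eq]
  rfl

/-- all vectors of a list are below their bounds: added to the mask `m` -/
noncomputable def ltsK (g : Gp) (vs : List (ℕ × ℕ)) : List ℕ → ℕ × ℕ → (ℕ × ℕ → β) → β :=
  List.rec (motive := fun _ => List ℕ → ℕ × ℕ → (ℕ × ℕ → β) → β) (fun _ m k => k m)
    (fun v _ ih bs m k => List.casesOn (motive := fun _ => β) bs (k m)
      (fun b bs' => vleC g v b fun x => frV (vand m x) fun m' => ih bs' m' k)) vs

/-- all values are below their bounds -/
def ltsB (bs : List ℕ) (vals : List ℕ) : Bool :=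
  List.rec (motive := fun _ => List ℕ → Bool) (fun _ => true)
    (fun v _ ih bs => List.casesOn (motive := fun _ => Bool) bs true
      (fun b bs' => decide (v ≤ b) && ih bs')) vals bs

lemma ltsK_spec (hw : 0 < w) {vs : List (ℕ × ℕ)} {fs : List (γ → ℕ)}
    (h : List.Forall₂ (Rv w L) vs fs) : ∀ (bs : List ℕ) {m : ℕ × ℕ} {p : γ → Bool}, Rm w L m p →
    Dm (β := β) w L (ltsK (gp w L) vs bs m) (fun c => p c && ltsB bs (fs.map fun f => f c)) := by
  induction h with
  | nil =>
    intro bs m p hm
    refine ⟨m, ?_, fun k => rfl⟩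
    have e1 : (fun c => p c && ltsB bs (([] : List (γ → ℕ)).map fun f => f c)) = p := by
      funext c
      exact Bool.and_true _
    rw [e1]
    exact hm
  | cons h1 h2 ih =>
    rename_i v f vs fs
    intro bs m p hm
    cases bs with
    | nil =>
      refine ⟨m, ?_, fun k => rfl⟩
      have e1 : (fun c => p c && ltsB [] ((f :: fs).map fun f => f c)) = p := by
        funext c
        exact Bool.and_true _
      rw [e1]
      exact hm
    | cons b bs =>
      obtain ⟨x, h3, h4⟩ := vleC_spec (β := β) hw h1 b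
      obtain ⟨y, h5, h6⟩ := ih bs (Rm.and hw hm h3)
      refine ⟨y, ?_, fun k => ?_⟩
      · have e1 : (fun c => (p c && decide (f c ≤ b)) && ltsB bs (fs.map fun f => f c))
            = fun c => p c && ltsB (b :: bs) ((f :: fs).map fun f => f c) := by
          funext c
          exact Bool.and_assoc _ _ _
        rw [← e1]
        exact h5
      · have e1 : ltsK (gp w L) (v :: vs) (b :: bs) m k = vleC (gp w L) v b fun x =>
          frV (vand m x) fun m' => ltsK (gp w L) vs bs m' k := rfl
        rw [e1, h4, frV_eq, h6]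

end Sl

end Pool.Agent.Lib.MP_f04ccf_co
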