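import Pool.Agent.Lib.MP_f04ccf_co.M.MidD

/-!
MP_f04ccf_co, **vector arithmetic in the kernel**: a polynomial is evaluated at all points of a box by a few
operations on one big natural number (lane = `w` bits).

* `Sd.pk W f n = ∑_{i < n} f i 2^(W i)`; `Sd.P4 w n1 n2 n3 n4 F`: the box `a < n1, b < n2, c < n3, d < n4`;
* `P4_add`, `P4_smul`, `P4_prod` (the basis vectors are products of four small sums);
* `dot`: linear combinations of basis vectors, coefficients and values as lists;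
* `chk`: for a list of clauses (lists of comparisons `dot ds x ≤ dot cs x`): **no point of the box satisfies
  all clauses**; `chk_sound`.
-/

set_option autoImplicit false

namespace Pool.Agent.Lib.MP_f04ccf_co

namespace Sd

/-! ### one dimension -/

/-- packed numbers -/
noncomputable def pk (W : ℕ) (f : ℕ → ℕ) (n : ℕ) : ℕ :=
  Nat.rec (motive := fun _ => ℕ) 0
    (fun i ih => Nat.add (Nat.mul (f i) (Nat.pow 2 (Nat.mul W i))) ih) n

lemma pk_zero (W : ℕ) (f : ℕ → ℕ) : pk W f 0 = 0 := rfl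

lemma pk_succ (W : ℕ) (f : ℕ → ℕ) (n : ℕ) : pk W f (n + 1) = f n * 2 ^ (W * n) + pk W f n := rfl

lemma pk_congr {W : ℕ} {f g : ℕ → ℕ} : ∀ {n : ℕ}, (∀ i < n, f i = g i) → pk W f n = pk W g n := by
  intro n
  induction n with
  | zero => intro _; rfl
  | succ n ih =>
    intro h
    rw [pk_succ, pk_succ, h n (Nat.lt_succ_self n), ih fun i hi => h i (Nat.lt_succ_of_lt hi)]

lemma pk_add (W : ℕ) (f g : ℕ → ℕ) (n : ℕ) :
    pk W f n + pk W g n = pk W (fun i => f i + g i) n := by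
  induction n with
  | zero => rfl
  | succ n ih =>
    rw [pk_succ, pk_succ, pk_succ, ← ih]
    ring

lemma pk_smul (W c : ℕ) (f : ℕ → ℕ) (n : ℕ) : c * pk W f n = pk W (fun i => c * f i) n := by
  induction n with
  | zero => rfl
  | succ n ih =>
    rw [pk_succ, pk_succ, ← ih]
    ring

lemma pk_lt {W : ℕ} {f : ℕ → ℕ} : ∀ {n : ℕ}, (∀ i < n, f i < 2 ^ W) → pk W f n < 2 ^ (W * n) := by
  intro n
  induction n with
  | zero => intro _; rw [pk_zero]; exact Nat.two_pow_pos _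
  | succ n ih =>
    intro h
    have h1 := ih fun i hi => h i (Nat.lt_succ_of_lt hi)
    have h2 := h n (Nat.lt_succ_self n)
    rw [pk_succ]
    calc f n * 2 ^ (W * n) + pk W f n < f n * 2 ^ (W * n) + 2 ^ (W * n) := by omega
      _ = (f n + 1) * 2 ^ (W * n) := by ring
      _ ≤ 2 ^ W * 2 ^ (W * n) := Nat.mul_le_mul_right _ h2
      _ = 2 ^ (W * (n + 1)) := by rw [← pow_add]; congr 1; ring

lemma pk_testBit {W : ℕ} {f : ℕ → ℕ} : ∀ {n : ℕ}, (∀ i < n, f i < 2 ^ W) → ∀ {i p : ℕ}, i < n →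
    p < W → (pk W f n).testBit (W * i + p) = (f i).testBit p := by
  intro n
  induction n with
  | zero => intro _ i p hi; omega
  | succ n ih =>
    intro h i p hi hp
    have h0 : ∀ j < n, f j < 2 ^ W := fun j hj => h j (Nat.lt_succ_of_lt hj)
    rw [pk_succ, Nat.mul_comm, Nat.testBit_two_pow_mul_add _ (pk_lt h0)]
    rcases Nat.lt_succ_iff_lt_or_eq.1 hi with h1 | h1
    · have h2 : W * i + p < W * n := by
        calc W * i + p < W * i + W := by omega
          _ = W * (i + 1) := by ring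
          _ ≤ W * n := Nat.mul_le_mul_left _ h1
      rw [if_pos h2]
      exact ih h0 h1 hp
    · subst h1
      rw [if_neg (by omega)]
      congr 1
      omega

lemma pk_sub {W : ℕ} {f g : ℕ → ℕ} {n : ℕ} (h : ∀ i < n, g i ≤ f i) :
    pk W f n - pk W g n = pk W (fun i => f i - g i) n := by
  have h1 : pk W (fun i => f i - g i) n + pk W g n = pk W f n := by
    rw [pk_add]
    exact pk_congr fun i hi => Nat.sub_add_cancel (h i hi)
  omega

lemma pk_prod (V W : ℕ) (f g : ℕ → ℕ) (n m : ℕ) :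
    pk V f n * pk W g m = pk V (fun i => pk W (fun j => f i * g j) m) n := by
  induction n with
  | zero => rw [pk_zero, pk_zero, Nat.zero_mul]
  | succ n ih =>
    rw [pk_succ, pk_succ, ← ih, ← pk_smul]
    ring

/-! ### four dimensions -/

/-- the packed values of `F` on a box -/
noncomputable def P4 (w n1 n2 n3 n4 : ℕ) (F : ℕ → ℕ → ℕ → ℕ → ℕ) : ℕ :=
  pk (w * n4 * n3 * n2) (fun a => pk (w * n4 * n3) (fun b => pk (w * n4) (fun c =>
    pk w (fun d => F a b c d) n4) n3) n2) n1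

/-- the top bit of a lane -/
def pos (w n2 n3 n4 a b c d : ℕ) : ℕ :=
  w * n4 * n3 * n2 * a + (w * n4 * n3 * b + (w * n4 * c + (w * d + (w - 1))))

variable {w n1 n2 n3 n4 : ℕ}

lemma P4_add (F G : ℕ → ℕ → ℕ → ℕ → ℕ) :
    P4 w n1 n2 n3 n4 F + P4 w n1 n2 n3 n4 G = P4 w n1 n2 n3 n4 fun a b c d => F a b c d + G a b c d := by
  unfold P4
  simp only [pk_add]

lemma P4_smul (x : ℕ) (F : ℕ → ℕ → ℕ → ℕ → ℕ) :
    x * P4 w n1 n2 n3 n4 F = P4 w n1 n2 n3 n4 fun a b c d => x * F a b c d := by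
  unfold P4
  simp only [pk_smul]

lemma P4_zero : P4 w n1 n2 n3 n4 (fun _ _ _ _ => 0) = 0 := by
  have h := P4_smul (w := w) (n1 := n1) (n2 := n2) (n3 := n3) (n4 := n4) 0 fun _ _ _ _ => 0
  simpa using h.symm

lemma P4_congr {F G : ℕ → ℕ → ℕ → ℕ → ℕ}
    (h : ∀ a < n1, ∀ b < n2, ∀ c < n3, ∀ d < n4, F a b c d = G a b c d) :
    P4 w n1 n2 n3 n4 F = P4 w n1 n2 n3 n4 G := by
  unfold P4
  exact pk_congr fun a ha => pk_congr fun b hb => pk_congr fun c hc => pk_congr fun d hd =>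
    h a ha b hb c hc d hd

lemma P4_sub {F G : ℕ → ℕ → ℕ → ℕ → ℕ}
    (h : ∀ a < n1, ∀ b < n2, ∀ c < n3, ∀ d < n4, G a b c d ≤ F a b c d) :
    P4 w n1 n2 n3 n4 F - P4 w n1 n2 n3 n4 G
      = P4 w n1 n2 n3 n4 fun a b c d => F a b c d - G a b c d := by
  have h1 : (P4 w n1 n2 n3 n4 fun a b c d => F a b c d - G a b c d) + P4 w n1 n2 n3 n4 G
      = P4 w n1 n2 n3 n4 F := by
    rw [P4_add]
    exact P4_congr fun a ha b hb c hc d hd => Nat.sub_add_cancel (h a ha b hb c hc d hd)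
  omega

/-- **the basis vectors are products of four small sums** -/
lemma P4_prod (f1 f2 f3 f4 : ℕ → ℕ) :
    pk (w * n4 * n3 * n2) f1 n1 * (pk (w * n4 * n3) f2 n2 * (pk (w * n4) f3 n3 * pk w f4 n4))
      = P4 w n1 n2 n3 n4 fun a b c d => f1 a * (f2 b * (f3 c * f4 d)) := by
  unfold P4
  rw [pk_prod (w * n4) w, pk_prod (w * n4 * n3), pk_prod (w * n4 * n3 * n2)]
  simp only [pk_smul]

lemma P4_testBit {F : ℕ → ℕ → ℕ → ℕ → ℕ} (hw : 0 < w)
    (h : ∀ a < n1, ∀ b < n2, ∀ c < n3, ∀ d < n4, F a b c d < 2 ^ w) {a b c d : ℕ} (ha : a < n1)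
    (hb : b < n2) (hc : c < n3) (hd : d < n4) :
    (P4 w n1 n2 n3 n4 F).testBit (pos w n2 n3 n4 a b c d) = (F a b c d).testBit (w - 1) := by
  have e4 : ∀ a < n1, ∀ b < n2, ∀ c < n3, pk w (fun d => F a b c d) n4 < 2 ^ (w * n4) :=
    fun a ha b hb c hc => pk_lt (h a ha b hb c hc)
  have e3 : ∀ a < n1, ∀ b < n2, pk (w * n4) (fun c => pk w (fun d => F a b c d) n4) n3
      < 2 ^ (w * n4 * n3) := fun a ha b hb => pk_lt (e4 a ha b hb)
  have e2 : ∀ a < n1, pk (w * n4 * n3) (fun b => pk (w * n4) (fun c =>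
      pk w (fun d => F a b c d) n4) n3) n2 < 2 ^ (w * n4 * n3 * n2) := fun a ha => pk_lt (e3 a ha)
  have p4 : w * d + (w - 1) < w * n4 := by
    calc w * d + (w - 1) < w * d + w := by omega
      _ = w * (d + 1) := by ring
      _ ≤ w * n4 := Nat.mul_le_mul_left _ hd
  have p3 : w * n4 * c + (w * d + (w - 1)) < w * n4 * n3 := by
    calc w * n4 * c + (w * d + (w - 1)) < w * n4 * c + w * n4 := by omega
      _ = w * n4 * (c + 1) := by ring
      _ ≤ w * n4 * n3 := Nat.mul_le_mul_left _ hc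
  have p2 : w * n4 * n3 * b + (w * n4 * c + (w * d + (w - 1))) < w * n4 * n3 * n2 := by
    calc w * n4 * n3 * b + (w * n4 * c + (w * d + (w - 1)))
        < w * n4 * n3 * b + w * n4 * n3 := by omega
      _ = w * n4 * n3 * (b + 1) := by ring
      _ ≤ w * n4 * n3 * n2 := Nat.mul_le_mul_left _ hb
  unfold P4 pos
  rw [pk_testBit e2 ha p2, pk_testBit (e3 a ha) hb p3, pk_testBit (e4 a ha b hb) hc p4,
    pk_testBit (h a ha b hb c hc) hd (by omega)]

lemma top_bit {x : ℕ} (hw : 0 < w) (hx : x < 2 ^ w) :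
    x.testBit (w - 1) = decide (2 ^ (w - 1) ≤ x) := by
  have h1 : 2 ^ w = 2 * 2 ^ (w - 1) := by
    rw [← pow_succ']
    congr 1
    omega
  rw [Nat.testBit_eq_decide_div_mod_eq]
  have h2 : 0 < 2 ^ (w - 1) := Nat.two_pow_pos _
  by_cases h3 : 2 ^ (w - 1) ≤ x
  · have h4 : x / 2 ^ (w - 1) = 1 := by
      rw [Nat.div_eq_iff h2]
      omega
    rw [h4]
    simp [h3]
  · rw [Nat.div_eq_of_lt (by omega)]
    simp [h3]

/-! ### linear combinations -/

/-- `∑ c_j x_j` -/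
noncomputable def dot (cs : List ℕ) : List ℕ → ℕ :=
  List.rec (motive := fun _ => List ℕ → ℕ) (fun _ => 0)
    (fun c _ ih xs => List.casesOn (motive := fun _ => ℕ) xs 0
      (fun x xs' => Nat.add (Nat.mul c x) (ih xs'))) cs

lemma dot_nil (xs : List ℕ) : dot [] xs = 0 := rfl
lemma dot_nil' (cs : List ℕ) : dot cs [] = 0 := by cases cs <;> rfl
lemma dot_cons (c x : ℕ) (cs xs : List ℕ) : dot (c :: cs) (x :: xs) = c * x + dot cs xs := rfl

lemma dot_P4 (φs : List (ℕ → ℕ → ℕ → ℕ → ℕ)) : ∀ cs : List ℕ,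
    dot cs (φs.map (P4 w n1 n2 n3 n4))
      = P4 w n1 n2 n3 n4 fun a b c d => dot cs (φs.map fun φ => φ a b c d) := by
  induction φs with
  | nil =>
    intro cs
    simp only [List.map_nil, dot_nil']
    exact P4_zero.symm
  | cons φ φs ih =>
    intro cs
    cases cs with
    | nil =>
      simp only [dot_nil]
      exact P4_zero.symm
    | cons c cs =>
      simp only [List.map_cons, dot_cons]
      rw [ih cs, P4_smul, P4_add]

lemma dot_mono {xs ys : List ℕ} (h : List.Forall₂ (· ≤ ·) xs ys) : ∀ cs : List ℕ,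
    dot cs xs ≤ dot cs ys := by
  induction h with
  | nil => intro cs; rw [dot_nil']
  | cons h1 _ ih =>
    intro cs
    cases cs with
    | nil => exact le_rfl
    | cons c cs =>
      rw [dot_cons, dot_cons]
      exact Nat.add_le_add (Nat.mul_le_mul_left _ h1) (ih cs)

/-! ### the check -/

/-- the comparison `dot q.2 x ≤ dot q.1 x` in every lane (`T = 2^(w-1)`, `M` the vector of `T`) -/
noncomputable def cmp (M : ℕ) (xs : List ℕ) (q : List ℕ × List ℕ) : ℕ :=
  Nat.sub (Nat.add M (dot q.1 xs)) (dot q.2 xs)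

/-- the bounds at the corner -/
noncomputable def cbd (T : ℕ) (ys : List ℕ) (q : List ℕ × List ℕ) : Bool :=
  Bool.rec (motive := fun _ => Bool) false (Nat.ble (dot q.2 ys) T)
    (Nat.ble (Nat.succ (dot q.1 ys)) T)

/-- a clause: at least one comparison holds -/
noncomputable def cla (M : ℕ) (xs : List ℕ) (l : List (List ℕ × List ℕ)) : ℕ :=
  List.rec (motive := fun _ => ℕ) 0 (fun q _ ih => Nat.lor (cmp M xs q) ih) l

/-- all clauses -/
noncomputable def cls (M : ℕ) (xs : List ℕ) (l : List (List (List ℕ × List ℕ))) : ℕ :=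
  List.rec (motive := fun _ => ℕ) M (fun c _ ih => Nat.land (cla M xs c) ih) l

/-- **no point of the box satisfies all clauses** (`xs` the packed basis, `ys` its values at the corner,
`T = 2^(w-1)`, `M` the packed `T`) -/
noncomputable def chk (T M : ℕ) (xs ys : List ℕ) (l : List (List (List ℕ × List ℕ))) : Bool :=
  Bool.rec (motive := fun _ => Bool) false (Nat.beq (cls M xs l) 0)
    (Mid.allL (fun c => Mid.allL (cbd T ys) c) l)

/-- a point satisfies the clauses -/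
def Sat (vs : List ℕ) (l : List (List (List ℕ × List ℕ))) : Prop :=
  ∀ c ∈ l, ∃ q ∈ c, dot q.2 vs ≤ dot q.1 vs

lemma cmp_bit (hw : 0 < w) {φs : List (ℕ → ℕ → ℕ → ℕ → ℕ)} {ys : List ℕ}
    {q : List ℕ × List ℕ} (hq : cbd (2 ^ (w - 1)) ys q = true)
    (hy : ∀ a < n1, ∀ b < n2, ∀ c < n3, ∀ d < n4,
      List.Forall₂ (· ≤ ·) (φs.map fun φ => φ a b c d) ys)
    {a b c d : ℕ} (ha : a < n1) (hb : b < n2) (hc : c < n3) (hd : d < n4) :
    (cmp (P4 w n1 n2 n3 n4 fun _ _ _ _ => 2 ^ (w - 1)) (φs.map (P4 w n1 n2 n3 n4)) q).testBit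
      (pos w n2 n3 n4 a b c d)
      = decide (dot q.2 (φs.map fun φ => φ a b c d) ≤ dot q.1 (φs.map fun φ => φ a b c d)) := by
  have h0 : Nat.ble (Nat.succ (dot q.1 ys)) (2 ^ (w - 1)) = true
      ∧ Nat.ble (dot q.2 ys) (2 ^ (w - 1)) = true := by
    unfold cbd at hq
    cases h1 : Nat.ble (Nat.succ (dot q.1 ys)) (2 ^ (w - 1)) with
    | false => rw [h1] at hq; exact absurd hq Bool.false_ne_true
    | true =>
      rw [h1] at hq
      exact ⟨rfl, hq⟩
  have h1 : dot q.1 ys < 2 ^ (w - 1) := Nat.le_of_ble_eq_true h0.1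
  have h2 : dot q.2 ys ≤ 2 ^ (w - 1) := Nat.le_of_ble_eq_true h0.2
  have hT : 2 ^ w = 2 * 2 ^ (w - 1) := by
    rw [← pow_succ']
    congr 1
    omega
  have e1 : cmp (P4 w n1 n2 n3 n4 fun _ _ _ _ => 2 ^ (w - 1)) (φs.map (P4 w n1 n2 n3 n4)) q
      = P4 w n1 n2 n3 n4 fun a b c d => 2 ^ (w - 1) + dot q.1 (φs.map fun φ => φ a b c d)
        - dot q.2 (φs.map fun φ => φ a b c d) := by
    have e2 : cmp (P4 w n1 n2 n3 n4 fun _ _ _ _ => 2 ^ (w - 1)) (φs.map (P4 w n1 n2 n3 n4)) q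
        = (P4 w n1 n2 n3 n4 fun _ _ _ _ => 2 ^ (w - 1)) + dot q.1 (φs.map (P4 w n1 n2 n3 n4))
          - dot q.2 (φs.map (P4 w n1 n2 n3 n4)) := rfl
    rw [e2, dot_P4, dot_P4, P4_add]
    exact P4_sub fun a ha b hb c hc d hd => by
      have h3 := dot_mono (hy a ha b hb c hc d hd) q.2
      exact (h3.trans h2).trans (Nat.le_add_right _ _)
  rw [e1, P4_testBit hw _ ha hb hc hd, top_bit hw]
  · have h3 := dot_mono (hy a ha b hb c hc d hd) q.2
    congr 1
    apply propext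
    constructor
    · intro h4
      by_contra h5
      push Not at h5
      omega
    · intro h4
      omega
  · have h3 := dot_mono (hy a ha b hb c hc d hd) q.1
    have h4 := dot_mono (hy a ha b hb c hc d hd) q.2
    omega
  · intro a ha b hb c hc d hd
    have h3 := dot_mono (hy a ha b hb c hc d hd) q.1
    omega

lemma cla_bit (hw : 0 < w) {φs : List (ℕ → ℕ → ℕ → ℕ → ℕ)} {ys : List ℕ}
    (hy : ∀ a < n1, ∀ b < n2, ∀ c < n3, ∀ d < n4,
      List.Forall₂ (· ≤ ·) (φs.map fun φ => φ a b c d) ys)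
    {a b c d : ℕ} (ha : a < n1) (hb : b < n2) (hc : c < n3) (hd : d < n4) :
    ∀ {l : List (List ℕ × List ℕ)}, (∀ q ∈ l, cbd (2 ^ (w - 1)) ys q = true) →
      (∃ q ∈ l, dot q.2 (φs.map fun φ => φ a b c d) ≤ dot q.1 (φs.map fun φ => φ a b c d)) →
      (cla (P4 w n1 n2 n3 n4 fun _ _ _ _ => 2 ^ (w - 1)) (φs.map (P4 w n1 n2 n3 n4)) l).testBit
        (pos w n2 n3 n4 a b c d) = true := by
  intro l
  induction l with
  | nil => rintro - ⟨q, hq, -⟩; simp at hq
  | cons q l ih =>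
    intro h1 h2
    have e1 : cla (P4 w n1 n2 n3 n4 fun _ _ _ _ => 2 ^ (w - 1)) (φs.map (P4 w n1 n2 n3 n4)) (q :: l)
        = cmp (P4 w n1 n2 n3 n4 fun _ _ _ _ => 2 ^ (w - 1)) (φs.map (P4 w n1 n2 n3 n4)) q
          ||| cla (P4 w n1 n2 n3 n4 fun _ _ _ _ => 2 ^ (w - 1)) (φs.map (P4 w n1 n2 n3 n4)) l := rfl
    rw [e1, Nat.testBit_or, cmp_bit hw (h1 q List.mem_cons_self) hy ha hb hc hd]
    obtain ⟨q', h3, h4⟩ := h2
    rcases List.mem_cons.1 h3 with h5 | h5
    · rw [← h5, decide_eq_true h4, Bool.true_or]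
    · rw [ih (fun q hq => h1 q (List.mem_cons_of_mem _ hq)) ⟨q', h5, h4⟩, Bool.or_true]

lemma cls_bit (hw : 0 < w) {φs : List (ℕ → ℕ → ℕ → ℕ → ℕ)} {ys : List ℕ}
    (hy : ∀ a < n1, ∀ b < n2, ∀ c < n3, ∀ d < n4,
      List.Forall₂ (· ≤ ·) (φs.map fun φ => φ a b c d) ys)
    {a b c d : ℕ} (ha : a < n1) (hb : b < n2) (hc : c < n3) (hd : d < n4) :
    ∀ {l : List (List (List ℕ × List ℕ))}, (∀ c ∈ l, ∀ q ∈ c, cbd (2 ^ (w - 1)) ys q = true) →
      Sat (φs.map fun φ => φ a b c d) l →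
      (cls (P4 w n1 n2 n3 n4 fun _ _ _ _ => 2 ^ (w - 1)) (φs.map (P4 w n1 n2 n3 n4)) l).testBit
        (pos w n2 n3 n4 a b c d) = true := by
  intro l
  induction l with
  | nil =>
    intro _ _
    have e1 : cls (P4 w n1 n2 n3 n4 fun _ _ _ _ => 2 ^ (w - 1)) (φs.map (P4 w n1 n2 n3 n4)) []
        = P4 w n1 n2 n3 n4 fun _ _ _ _ => 2 ^ (w - 1) := rfl
    have h2 : 2 ^ (w - 1) < 2 ^ w := Nat.pow_lt_pow_right (by norm_num) (by omega)
    rw [e1, P4_testBit hw (fun _ _ _ _ _ _ _ _ => h2) ha hb hc hd, top_bit hw h2]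
    exact decide_eq_true le_rfl
  | cons x l ih =>
    intro h1 h2
    have e1 : cls (P4 w n1 n2 n3 n4 fun _ _ _ _ => 2 ^ (w - 1)) (φs.map (P4 w n1 n2 n3 n4)) (x :: l)
        = cla (P4 w n1 n2 n3 n4 fun _ _ _ _ => 2 ^ (w - 1)) (φs.map (P4 w n1 n2 n3 n4)) x
          &&& cls (P4 w n1 n2 n3 n4 fun _ _ _ _ => 2 ^ (w - 1)) (φs.map (P4 w n1 n2 n3 n4)) l := rfl
    rw [e1, Nat.testBit_and, cla_bit hw hy ha hb hc hd (h1 x List.mem_cons_self)
      (h2 x List.mem_cons_self), ih (fun c hc => h1 c (List.mem_cons_of_mem _ hc))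
      (fun c hc => h2 c (List.mem_cons_of_mem _ hc))]
    rfl

/-- **no point of the box satisfies all clauses** -/
theorem chk_sound (hw : 0 < w) {φs : List (ℕ → ℕ → ℕ → ℕ → ℕ)} {ys : List ℕ}
    (hy : ∀ a < n1, ∀ b < n2, ∀ c < n3, ∀ d < n4,
      List.Forall₂ (· ≤ ·) (φs.map fun φ => φ a b c d) ys)
    {l : List (List (List ℕ × List ℕ))}
    (h : chk (2 ^ (w - 1)) (P4 w n1 n2 n3 n4 fun _ _ _ _ => 2 ^ (w - 1))
      (φs.map (P4 w n1 n2 n3 n4)) ys l = true) :
    ∀ a < n1, ∀ b < n2, ∀ c < n3, ∀ d < n4, ¬ Sat (φs.map fun φ => φ a b c d) l := by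
  intro a ha b hb c hc d hd h1
  unfold chk at h
  cases h2 : Mid.allL (fun c => Mid.allL (cbd (2 ^ (w - 1)) ys) c) l with
  | false => rw [h2] at h; exact absurd h Bool.false_ne_true
  | true =>
    rw [h2] at h
    have h3 : Nat.beq (cls (P4 w n1 n2 n3 n4 fun _ _ _ _ => 2 ^ (w - 1))
      (φs.map (P4 w n1 n2 n3 n4)) l) 0 = true := h
    have h4 := Nat.eq_of_beq_eq_true h3
    have h5 := cls_bit hw hy ha hb hc hd
      (fun c hc q hq => Mid.allL_sound (Mid.allL_sound h2 c hc) q hq) h1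
    rw [h4, Nat.zero_testBit] at h5
    exact Bool.false_ne_true h5

/-! ### the driver -/

/-- a basis function: a product of four functions of one variable -/
abbrev Bf : Type := (ℕ → ℕ) × (ℕ → ℕ) × (ℕ → ℕ) × (ℕ → ℕ)

/-- the value of a basis function -/
def bv (f : Bf) (a b c d : ℕ) : ℕ := f.1 a * (f.2.1 b * (f.2.2.1 c * f.2.2.2 d))

/-- the values of all basis functions at a point -/
def vals (fs : List Bf) (a b c d : ℕ) : List ℕ := fs.map fun f => bv f a b c d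

/-- the packed basis function -/
noncomputable def bas (w n1 n2 n3 n4 : ℕ) (f : Bf) : ℕ :=
  Nat.mul (pk (Nat.mul (Nat.mul (Nat.mul w n4) n3) n2) f.1 n1)
    (Nat.mul (pk (Nat.mul (Nat.mul w n4) n3) f.2.1 n2)
      (Nat.mul (pk (Nat.mul w n4) f.2.2.1 n3) (pk w f.2.2.2 n4)))

lemma bas_eq (f : Bf) : bas w n1 n2 n3 n4 f = P4 w n1 n2 n3 n4 (bv f) :=
  P4_prod f.1 f.2.1 f.2.2.1 f.2.2.2

/-- the largest value below `n` -/
noncomputable def mx (f : ℕ → ℕ) (n : ℕ) : ℕ :=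
  Nat.rec (motive := fun _ => ℕ) 0 (fun i ih => Mid.frN ih fun x => Mid.frN (f i) fun y =>
    Bool.rec (motive := fun _ => ℕ) x y (Nat.ble x y)) n

lemma mx_le {f : ℕ → ℕ} {n : ℕ} : ∀ i < n, f i ≤ mx f n := by
  induction n with
  | zero => intro i hi; omega
  | succ n ih =>
    have e1 : mx f (n + 1) = Mid.frN (mx f n) fun x => Mid.frN (f n) fun y =>
      Bool.rec (motive := fun _ => ℕ) x y (Nat.ble x y) := rfl
    rw [Mid.frN_eq, Mid.frN_eq] at e1
    intro i hi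
    cases h : Nat.ble (mx f n) (f n) with
    | false =>
      rw [h] at e1
      have h1 : ¬ mx f n ≤ f n := fun h2 => by
        rw [Nat.ble_eq_true_of_le h2] at h
        exact Bool.false_ne_true h.symm
      rcases Nat.lt_succ_iff_lt_or_eq.1 hi with h3 | h3
      · rw [e1]; exact ih i h3
      · rw [e1, h3]; exact (not_le.1 h1).le
    | true =>
      rw [h] at e1
      have h1 := Nat.le_of_ble_eq_true h
      rcases Nat.lt_succ_iff_lt_or_eq.1 hi with h3 | h3
      · rw [e1]; exact (ih i h3).trans h1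
      · rw [e1, h3]

/-- the bound of a basis function -/
noncomputable def bbd (n1 n2 n3 n4 : ℕ) (f : Bf) : ℕ :=
  Nat.mul (mx f.1 n1) (Nat.mul (mx f.2.1 n2) (Nat.mul (mx f.2.2.1 n3) (mx f.2.2.2 n4)))

lemma bv_le (f : Bf) {a b c d : ℕ} (ha : a < n1) (hb : b < n2) (hc : c < n3) (hd : d < n4) :
    bv f a b c d ≤ bbd n1 n2 n3 n4 f :=
  Nat.mul_le_mul (mx_le a ha) (Nat.mul_le_mul (mx_le b hb) (Nat.mul_le_mul (mx_le c hc) (mx_le d hd)))

/-- evaluate `g` at all elements and go on with the list -/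
noncomputable def wth {α β : Type} (g : α → ℕ) (fs : List α) : (List ℕ → β) → β :=
  List.rec (motive := fun _ => (List ℕ → β) → β) (fun k => k [])
    (fun f _ ih k => Mid.frN (g f) fun x => ih fun xs => k (x :: xs)) fs

lemma wth_eq {α β : Type} (g : α → ℕ) : ∀ (fs : List α) (k : List ℕ → β),
    wth g fs k = k (fs.map g) := by
  intro fs
  induction fs with
  | nil => intro k; rfl
  | cons f fs ih =>
    intro k
    have e1 : wth g (f :: fs) k = Mid.frN (g f) fun x => wth g fs fun xs => k (x :: xs) := rfl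
    rw [e1, Mid.frN_eq, ih]
    rfl

/-- **the driver**: `K` gets the check of one clause list -/
noncomputable def run (w n1 n2 n3 n4 : ℕ) (fs : List Bf)
    (K : (List (List (List ℕ × List ℕ)) → Bool) → Bool) : Bool :=
  wth (bas w n1 n2 n3 n4) fs fun xs => wth (bbd n1 n2 n3 n4) fs fun ys =>
    Mid.frN (Nat.pow 2 (Nat.pred w)) fun T =>
      Mid.frN (Nat.mul T (bas w n1 n2 n3 n4 (fun _ => 1, fun _ => 1, fun _ => 1, fun _ => 1)))
        fun M => K (chk T M xs ys)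

/-- **soundness**: the check handed to `K` is sound -/
theorem run_sound (hw : 0 < w) {fs : List Bf} {K : (List (List (List ℕ × List ℕ)) → Bool) → Bool}
    (h : run w n1 n2 n3 n4 fs K = true) :
    ∃ C : List (List (List ℕ × List ℕ)) → Bool, K C = true ∧ ∀ l, C l = true →
      ∀ a < n1, ∀ b < n2, ∀ c < n3, ∀ d < n4, ¬ Sat (vals fs a b c d) l := by
  unfold run at h
  rw [wth_eq, wth_eq, Mid.frN_eq, Mid.frN_eq] at h
  refine ⟨_, h, fun l hl => ?_⟩
  have e1 : Nat.pow 2 (Nat.pred w) = 2 ^ (w - 1) := rfl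
  have e2 : Nat.mul (2 ^ (w - 1))
      (bas w n1 n2 n3 n4 (fun _ => 1, fun _ => 1, fun _ => 1, fun _ => 1))
      = P4 w n1 n2 n3 n4 fun _ _ _ _ => 2 ^ (w - 1) := by
    rw [bas_eq]
    refine (P4_smul (2 ^ (w - 1)) _).trans (P4_congr fun a _ b _ c _ d _ => ?_)
    simp [bv]
  rw [e1, e2] at hl
  have e3 : fs.map (bas w n1 n2 n3 n4) = (fs.map bv).map (P4 w n1 n2 n3 n4) := by
    rw [List.map_map]
    exact List.map_congr_left fun f _ => bas_eq f
  rw [e3] at hl
  have e4 : ∀ a b c d : ℕ, ((fs.map bv).map fun φ => φ a b c d) = vals fs a b c d := by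
    intro a b c d
    unfold vals
    rw [List.map_map]
    rfl
  have h1 := chk_sound (n1 := n1) (n2 := n2) (n3 := n3) (n4 := n4) hw (φs := fs.map bv)
    (ys := fs.map (bbd n1 n2 n3 n4)) (fun a ha b hb c hc d hd => by
      rw [List.map_map]
      clear h hl e3 e4
      induction fs with
      | nil => exact List.Forall₂.nil
      | cons f fs ih => exact List.Forall₂.cons (bv_le f ha hb hc hd) ih) hl
  intro a ha b hb c hc d hd
  have h2 := h1 a ha b hb c hc d hd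
  rw [e4] at h2
  exact h2

/-- the fifteen monomials of degree at most two: `1, a, b, c, d, aa, ab, ac, ad, bb, bc, bd, cc, cd, dd` -/
def mon15 : List Bf :=
  [(fun _ => 1, fun _ => 1, fun _ => 1, fun _ => 1), (fun x => x, fun _ => 1, fun _ => 1, fun _ => 1),
   (fun _ => 1, fun x => x, fun _ => 1, fun _ => 1), (fun _ => 1, fun _ => 1, fun x => x, fun _ => 1),
   (fun _ => 1, fun _ => 1, fun _ => 1, fun x => x),
   (fun x => Nat.mul x x, fun _ => 1, fun _ => 1, fun _ => 1),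
   (fun x => x, fun x => x, fun _ => 1, fun _ => 1), (fun x => x, fun _ => 1, fun x => x, fun _ => 1),
   (fun x => x, fun _ => 1, fun _ => 1, fun x => x),
   (fun _ => 1, fun x => Nat.mul x x, fun _ => 1, fun _ => 1),
   (fun _ => 1, fun x => x, fun x => x, fun _ => 1), (fun _ => 1, fun x => x, fun _ => 1, fun x => x),
   (fun _ => 1, fun _ => 1, fun x => Nat.mul x x, fun _ => 1),
   (fun _ => 1, fun _ => 1, fun x => x, fun x => x),
   (fun _ => 1, fun _ => 1, fun _ => 1, fun x => Nat.mul x x)]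

lemma dot15 (c0 c1 c2 c3 c4 c5 c6 c7 c8 c9 c10 c11 c12 c13 c14 a b c d : ℕ) :
    dot [c0, c1, c2, c3, c4, c5, c6, c7, c8, c9, c10, c11, c12, c13, c14] (vals mon15 a b c d)
      = c0 + c1 * a + c2 * b + c3 * c + c4 * d + c5 * (a * a) + c6 * (a * b) + c7 * (a * c)
        + c8 * (a * d) + c9 * (b * b) + c10 * (b * c) + c11 * (b * d) + c12 * (c * c)
        + c13 * (c * d) + c14 * (d * d) := by
  simp only [mon15, vals, bv, List.map_cons, List.map_nil, dot_cons, dot_nil, Nat.mul_eq]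
  ring

end Sd

end Pool.Agent.Lib.MP_f04ccf_co
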