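import Pool.Agent.Lib.MP_f04ccf_co.M.VCore
import Pool.Agent.Lib.MP_f04ccf_co.M.ItXT

/-!
MP_f04ccf_co, PLAN W (notes 17114 (1), 17162 (iii)): the slot test of `V` with located counts.
`sur u = ∑ (R kp - ms) - R vl`: the surplus of an item (all rows).  `ItE.slotW`: the slot test with any
gain `X i j` of the cells.  `ItE.slotK`: with the mass of the loads outside `V` (`FinV.lost`).
`ItE.slotB`: the items of `W` lose one end at the row `w u`; the loss is `t (w u) - sur u`.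
`lam_le`: `(R - t w) (t w - sur u) ≤ ms w u * ∑ (y ≠ w) ms y u`.  `exists_w`: such a row exists off the
hub.  `ItX.slotH`: the losses are paid by the rectangles, up to the PC pairs of the cell.
-/

set_option autoImplicit false

namespace Pool.Agent.Lib.MP_f04ccf_co

open Finset

attribute [local instance] Classical.propDecidable

section SlotH

variable {ι : Type*}

/-- the surplus of an item -/
def sur (R : ℤ) (n : ℕ) (vl : ι → ℤ) (kp ms : ℕ → ι → ℤ) (u : ι) : ℤ :=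
  ∑ i ∈ range n, (R * kp i u - ms i u) - R * vl u

/-- the booked load: the items `u` of `W` lose one end at the row `w u` -/
noncomputable def bkd (kp : ℕ → ι → ℤ) (W : Finset ι) (w : ι → ℕ) (z : ℕ) (u : ι) : ℤ :=
  kp z u - if u ∈ W ∧ w u = z then 1 else 0

lemma swap_erase (B : Finset ℕ) (φ : ℕ → ℕ → ℤ) :
    ∑ x ∈ B, ∑ z ∈ B.erase x, φ x z = ∑ x ∈ B, ∑ z ∈ B.erase x, φ z x := by
  have e1 : ∀ φ : ℕ → ℕ → ℤ, ∑ x ∈ B, ∑ z ∈ B.erase x, φ x z
      = ∑ x ∈ B, ∑ z ∈ B, φ x z - ∑ x ∈ B, φ x x := by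
    intro φ
    rw [← sum_sub_distrib]
    refine sum_congr rfl fun x hx => ?_
    have e2 := add_sum_erase B (fun z => φ x z) hx
    have e3 : φ x x + ∑ z ∈ B.erase x, φ x z = ∑ z ∈ B, φ x z := e2
    linarith
  rw [e1 φ, e1 fun x z => φ z x, sum_comm]

variable {R : ℤ} {n : ℕ} {t s h e : ℕ → ℤ} {E : ℕ → ℕ → ℤ} {U : Finset ι} {ho : ι → ℕ}
  {vl : ι → ℤ} {kp ms mr : ℕ → ι → ℤ} {mu Nb : ℕ → ℤ} {Nx : ℕ → ℕ → ℤ} {be : ℕ → ℕ → ℤ}
  {ls : ℕ → ℤ → ℤ}

lemma ItN.sur0 (H : ItN R n t s h e E U ho vl kp ms mr) {u : ι} (hu : u ∈ U) :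
    0 ≤ sur R n vl kp ms u := by
  have h1 := H.srv' hu
  unfold sur
  linarith

namespace ItE

/-- **the slot test of `V` with any gain `X` of the cells** -/
theorem slotW (H : ItE R n t s h e E U ho vl kp ms mr mu Nb Nx) {V : Finset ℕ}
    (hV : V ⊆ range n) {X : ℕ → ℕ → ℤ}
    (hX : ∀ i ∈ V, ∀ j ∈ V, i ≠ j →
      hitx R t U ho kp ms i j + hitx R t U ho kp ms j i + X i j ≤ E i j) :
    2 * (R * ∑ z ∈ V, s z)
      + 2 * ∑ u ∈ U.filter (fun u => ho u ∈ V), ∑ z ∈ V, (kp z u * (R - t z) - ms z u)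
      + ∑ z ∈ V, (mu z - s z) * (mu z - s z - 1) + ∑ i ∈ V, ∑ j ∈ V.erase i, X i j
      ≤ 2 * ∑ z ∈ V, t z * mu z + V.card * (V.card - 1) * (R + 1) + (∑ z ∈ V, s z) ^ 2
        + (2 * V.card - 1) * ∑ z ∈ V, s z + ∑ z ∈ V, Nb z
        + 2 * ∑ z ∈ V, ∑ j ∈ (range n).erase z, Nx z j := by
  have h1 := H.P V hV
  have h3 : ∑ i ∈ V, (2 * e i + (mu i - s i) * (mu i - s i - 1))
      ≤ ∑ i ∈ V, (2 * (t i * mu i) + s i ^ 2 + s i + Nb i + 2 * ∑ j ∈ (range n).erase i, Nx i j) :=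
    sum_le_sum fun i hi => H.ef (mem_range.1 (hV hi))
  have h5 : ∑ i ∈ V, (2 * (t i * mu i) + s i ^ 2 + s i + Nb i
        + 2 * ∑ j ∈ (range n).erase i, Nx i j)
      = 2 * ∑ i ∈ V, t i * mu i + ∑ i ∈ V, s i ^ 2 + ∑ i ∈ V, s i + ∑ i ∈ V, Nb i
        + 2 * ∑ i ∈ V, ∑ j ∈ (range n).erase i, Nx i j := by
    simp only [sum_add_distrib, ← mul_sum]
  rw [sum_add_distrib, ← mul_sum, h5] at h3
  -- the hits
  have h6 : ∑ x ∈ V, ∑ z ∈ V.erase x, (hitx R t U ho kp ms x z + hitx R t U ho kp ms z x + X x z)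
      ≤ ∑ x ∈ V, ∑ z ∈ V.erase x, E x z := by
    refine sum_le_sum fun x hx => sum_le_sum fun z hz => ?_
    obtain ⟨h6, h7⟩ := mem_erase.1 hz
    exact hX x hx z h7 fun h8 => h6 h8.symm
  have h7 : ∑ x ∈ V, ∑ z ∈ V.erase x, (hitx R t U ho kp ms x z + hitx R t U ho kp ms z x + X x z)
      = ∑ x ∈ V, ∑ z ∈ V.erase x, hitx R t U ho kp ms x z
        + ∑ x ∈ V, ∑ z ∈ V.erase x, hitx R t U ho kp ms z x
        + ∑ x ∈ V, ∑ z ∈ V.erase x, X x z := by
    simp only [sum_add_distrib]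
  rw [h7, ← swap_erase V fun x z => hitx R t U ho kp ms x z] at h6
  have h8 : ∑ u ∈ U.filter (fun u => ho u ∈ V), ∑ z ∈ V, (kp z u * (R - t z) - ms z u)
      ≤ ∑ x ∈ V, ∑ z ∈ V.erase x, hitx R t U ho kp ms x z := by
    rw [← sum_hosts U ho V fun u => ∑ z ∈ V, (kp z u * (R - t z) - ms z u)]
    refine sum_le_sum fun x hx => ?_
    rw [sum_comm, ← add_sum_erase V _ hx]
    have h9 : ∑ u ∈ U.filter (fun u => ho u = x), (kp x u * (R - t x) - ms x u) ≤ 0 := by
      refine sum_nonpos fun u hu => ?_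
      obtain ⟨hu1, rfl⟩ := mem_filter.1 hu
      have h3 := H.kh u hu1
      have h4 := H.m0 u hu1 (ho u) (mem_range.1 (hV hx))
      rw [h3]
      linarith
    have h10 : ∑ z ∈ V.erase x, ∑ u ∈ U.filter (fun u => ho u = x), (kp z u * (R - t z) - ms z u)
        = ∑ z ∈ V.erase x, hitx R t U ho kp ms x z :=
      sum_congr rfl fun z _ => sum_hitx R t U ho kp ms x z
    rw [h10]
    linarith
  generalize ∑ u ∈ U.filter (fun u => ho u ∈ V), ∑ z ∈ V, (kp z u * (R - t z) - ms z u) = a1 at *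
  generalize ∑ x ∈ V, ∑ z ∈ V.erase x, hitx R t U ho kp ms x z = a2 at *
  generalize ∑ x ∈ V, ∑ z ∈ V.erase x, X x z = a3 at *
  generalize ∑ i ∈ V, ∑ j ∈ V.erase i, E i j = a5 at *
  generalize ∑ i ∈ V, ∑ j ∈ (range n).erase i, Nx i j = a6 at *
  generalize ∑ i ∈ V, s i ^ 2 = a7 at *
  generalize ∑ i ∈ V, s i = σ at *
  nlinarith

/-- **the slot test with the loads outside `V`** (`FinV.lost`) -/
theorem slotK (H : ItE R n t s h e E U ho vl kp ms mr mu Nb Nx) {V : Finset ℕ}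
    (hV : V ⊆ range n) {X : ℕ → ℕ → ℤ}
    (hX : ∀ i ∈ V, ∀ j ∈ V, i ≠ j →
      hitx R t U ho kp ms i j + hitx R t U ho kp ms j i + X i j ≤ E i j)
    (hl : R + ∑ u ∈ U.filter (fun u => ho u ∈ V), ∑ z ∈ range n \ V, (R * kp z u - ms z u)
      ≤ R * ∑ z ∈ V, s z) :
    2 * (R * (1 + ∑ z ∈ V, mu z))
      + 2 * ∑ u ∈ U.filter (fun u => ho u ∈ V), sur R n vl kp ms u
      + ∑ z ∈ V, (mu z - s z) * (mu z - s z - 1) + ∑ i ∈ V, ∑ j ∈ V.erase i, X i j
      ≤ 2 * ∑ z ∈ V, t z * (mu z + ∑ u ∈ U.filter (fun u => ho u ∈ V), kp z u)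
        + V.card * (V.card - 1) * (R + 1) + (∑ z ∈ V, s z) ^ 2
        + (2 * V.card - 1) * ∑ z ∈ V, s z + ∑ z ∈ V, Nb z
        + 2 * ∑ z ∈ V, ∑ j ∈ (range n).erase z, Nx z j := by
  have h1 := H.slotW hV hX
  have h2 : ∑ z ∈ V, mu z = ∑ u ∈ U.filter (fun u => ho u ∈ V), vl u := by
    rw [← sum_hosts U ho V vl]
    exact sum_congr rfl fun z hz => H.hmu z (mem_range.1 (hV hz))
  have h3 : ∀ u, ∑ z ∈ V, (kp z u * (R - t z) - ms z u)
      = R * vl u + sur R n vl kp ms u - ∑ z ∈ range n \ V, (R * kp z u - ms z u)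
        - ∑ z ∈ V, t z * kp z u := by
    intro u
    have h4 : ∑ i ∈ range n, (R * kp i u - ms i u)
        = ∑ z ∈ range n \ V, (R * kp z u - ms z u) + ∑ z ∈ V, (R * kp z u - ms z u) :=
      (sum_sdiff hV).symm
    have h5 : ∑ z ∈ V, (kp z u * (R - t z) - ms z u)
        = ∑ z ∈ V, (R * kp z u - ms z u) - ∑ z ∈ V, t z * kp z u := by
      rw [← sum_sub_distrib]
      exact sum_congr rfl fun z _ => by ring
    unfold sur
    rw [h4, h5]
    ring
  have h4 : ∑ u ∈ U.filter (fun u => ho u ∈ V), ∑ z ∈ V, (kp z u * (R - t z) - ms z u)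
      = R * ∑ u ∈ U.filter (fun u => ho u ∈ V), vl u
        + ∑ u ∈ U.filter (fun u => ho u ∈ V), sur R n vl kp ms u
        - ∑ u ∈ U.filter (fun u => ho u ∈ V), ∑ z ∈ range n \ V, (R * kp z u - ms z u)
        - ∑ z ∈ V, t z * ∑ u ∈ U.filter (fun u => ho u ∈ V), kp z u := by
    rw [sum_congr rfl fun u _ => h3 u, sum_sub_distrib, sum_sub_distrib, sum_add_distrib,
      ← mul_sum, sum_comm (t := V)]
    simp only [← mul_sum]
  have h5 : ∑ z ∈ V, t z * (mu z + ∑ u ∈ U.filter (fun u => ho u ∈ V), kp z u)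
      = ∑ z ∈ V, t z * mu z + ∑ z ∈ V, t z * ∑ u ∈ U.filter (fun u => ho u ∈ V), kp z u := by
    rw [← sum_add_distrib]
    exact sum_congr rfl fun z _ => by ring
  rw [h4] at h1
  rw [h2, h5]
  nlinarith

/-- the booked loads -/
lemma sum_bkd {V : Finset ℕ} {W Q : Finset ι} {w : ι → ℕ} (kp : ℕ → ι → ℤ) (t : ℕ → ℤ)
    (hW : W ⊆ Q) (hw : ∀ u ∈ W, w u ∈ V) :
    ∑ z ∈ V, t z * ∑ u ∈ Q, kp z u
      = ∑ z ∈ V, t z * ∑ u ∈ Q, bkd kp W w z u + ∑ u ∈ W, t (w u) := by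
  have h1 : ∀ z ∈ V, t z * ∑ u ∈ Q, kp z u
      = t z * ∑ u ∈ Q, bkd kp W w z u + ∑ u ∈ Q, (if u ∈ W ∧ w u = z then t z else 0) := by
    intro z _
    unfold bkd
    rw [sum_sub_distrib, mul_sub, mul_sum (s := Q) (f := fun u => if u ∈ W ∧ w u = z then (1:ℤ) else 0)]
    have h2 : ∀ u ∈ Q, t z * (if u ∈ W ∧ w u = z then (1 : ℤ) else 0)
        = if u ∈ W ∧ w u = z then t z else 0 := fun u _ => by
      split_ifs <;> ring
    rw [sum_congr rfl h2]
    ring
  rw [sum_congr rfl h1, sum_add_distrib]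
  congr 1
  rw [sum_comm]
  have h3 : ∀ u ∈ Q, ∑ z ∈ V, (if u ∈ W ∧ w u = z then t z else 0)
      = if u ∈ W then t (w u) else 0 := by
    intro u _
    by_cases hu : u ∈ W
    · simp only [hu, true_and, if_true]
      rw [sum_ite_eq, if_pos (hw u hu)]
    · simp only [hu, false_and, if_false, sum_const_zero]
  rw [sum_congr rfl h3, ← sum_filter]
  refine sum_congr ?_ fun _ _ => rfl
  ext u
  rw [mem_filter]
  exact ⟨fun h4 => h4.2, fun h4 => ⟨hW h4, h4⟩⟩

/-- **the slot test with located counts** -/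
theorem slotB (H : ItE R n t s h e E U ho vl kp ms mr mu Nb Nx) {V : Finset ℕ}
    (hV : V ⊆ range n) {X : ℕ → ℕ → ℤ}
    (hX : ∀ i ∈ V, ∀ j ∈ V, i ≠ j →
      hitx R t U ho kp ms i j + hitx R t U ho kp ms j i + X i j ≤ E i j)
    (hl : R + ∑ u ∈ U.filter (fun u => ho u ∈ V), ∑ z ∈ range n \ V, (R * kp z u - ms z u)
      ≤ R * ∑ z ∈ V, s z)
    {W : Finset ι} {w : ι → ℕ} (hW : W ⊆ U.filter (fun u => ho u ∈ V))
    (hw : ∀ u ∈ W, w u ∈ V) :
    2 * (R * (1 + ∑ z ∈ V, mu z))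
      + 2 * ∑ u ∈ U.filter (fun u => ho u ∈ V) \ W, sur R n vl kp ms u
      + ∑ z ∈ V, (mu z - s z) * (mu z - s z - 1) + ∑ i ∈ V, ∑ j ∈ V.erase i, X i j
      ≤ 2 * ∑ z ∈ V, t z * (mu z + ∑ u ∈ U.filter (fun u => ho u ∈ V), bkd kp W w z u)
        + 2 * ∑ u ∈ W, (t (w u) - sur R n vl kp ms u)
        + V.card * (V.card - 1) * (R + 1) + (∑ z ∈ V, s z) ^ 2
        + (2 * V.card - 1) * ∑ z ∈ V, s z + ∑ z ∈ V, Nb z
        + 2 * ∑ z ∈ V, ∑ j ∈ (range n).erase z, Nx z j := by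
  have h1 := H.slotK hV hX hl
  have h2 : ∑ u ∈ U.filter (fun u => ho u ∈ V), sur R n vl kp ms u
      = ∑ u ∈ U.filter (fun u => ho u ∈ V) \ W, sur R n vl kp ms u
        + ∑ u ∈ W, sur R n vl kp ms u := (sum_sdiff hW).symm
  have h3 := sum_bkd kp t hW hw
  have h4 : ∀ g : ℕ → ℤ, ∑ z ∈ V, t z * (mu z + g z)
      = ∑ z ∈ V, t z * mu z + ∑ z ∈ V, t z * g z := by
    intro g
    rw [← sum_add_distrib]
    exact sum_congr rfl fun z _ => by ring
  rw [h4] at h1
  rw [h4, sum_sub_distrib]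
  rw [h2, h3] at h1
  linarith

end ItE

/-- **the loss of an end**: `(R - t w) (t w - sur u) ≤ ms w u * ∑ (y ≠ w) ms y u` -/
lemma lam_le {u : ι} {w : ℕ} (hR : 0 ≤ R) (hk : vl u + 1 ≤ ∑ i ∈ range n, kp i u) (hw : w < n)
    (hc : ms w u ≤ R - t w) (hb : ∑ y ∈ (range n).erase w, ms y u ≤ R - t w)
    (ht : t w ≤ R) :
    (R - t w) * (t w - sur R n vl kp ms u)
      ≤ ms w u * ∑ y ∈ (range n).erase w, ms y u := by
  have h1 : ∑ i ∈ range n, (R * kp i u - ms i u)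
      = R * ∑ i ∈ range n, kp i u - (ms w u + ∑ y ∈ (range n).erase w, ms y u) := by
    rw [sum_sub_distrib, mul_sum]
    have h2 := add_sum_erase (range n) (fun i => ms i u) (mem_range.2 hw)
    have h3 : ms w u + ∑ y ∈ (range n).erase w, ms y u = ∑ i ∈ range n, ms i u := h2
    rw [h3]
  have h2 : R - (ms w u + ∑ y ∈ (range n).erase w, ms y u) ≤ sur R n vl kp ms u := by
    unfold sur
    rw [h1]
    nlinarith [mul_le_mul_of_nonneg_left hk hR]
  generalize ∑ y ∈ (range n).erase w, ms y u = b at *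
  generalize sur R n vl kp ms u = σ at *
  nlinarith [mul_nonneg (by linarith : (0:ℤ) ≤ R - t w - b) (by linarith : (0:ℤ) ≤ R - t w - ms w u),
    mul_le_mul_of_nonneg_left (by linarith : t w - σ ≤ ms w u + b - (R - t w))
      (by linarith : (0:ℤ) ≤ R - t w)]

/-- **an end off the hub `a` which can be unbooked** (`ims` counts columns, so `ms i u ≤ R - t i`) -/
theorem exists_end (H : ItN R n t s h e E U ho vl kp ms mr)
    (hmc : ∀ u ∈ U, ∀ i < n, ms i u ≤ R - t i) {a : ℕ} (ha : ∀ z < n, z ≠ a → 2 * t z ≤ R)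
    (hst : ∑ i ∈ range n, t i ≤ R) {u : ι} (hu : u ∈ U)
    (hk : vl u + 1 ≤ ∑ i ∈ range n, kp i u) :
    ∃ w < n, 1 ≤ kp w u ∧ 2 * t w ≤ R ∧ ∑ y ∈ (range n).erase w, ms y u ≤ R - t w := by
  by_cases h1 : ∃ w < n, 1 ≤ kp w u ∧ 2 * t w ≤ R ∧ t w ≤ ms w u
  · obtain ⟨w, hw, h2, h3, h4⟩ := h1
    refine ⟨w, hw, h2, h3, ?_⟩
    have h5 := H.msum u hu
    have h6 := add_sum_erase (range n) (fun i => ms i u) (mem_range.2 hw)
    have h7 : ms w u + ∑ y ∈ (range n).erase w, ms y u = ∑ i ∈ range n, ms i u := h6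
    linarith
  · push Not at h1
    have h2 : ∀ y < n, ms y u ≤ t y := by
      intro y hy
      by_cases h3 : 1 ≤ kp y u
      · by_cases h4 : 2 * t y ≤ R
        · exact le_of_lt (h1 y hy h3 h4)
        · have h5 := hmc u hu y hy
          linarith
      · have h4 : kp y u = 0 := by
          have := H.k0 u hu y hy
          omega
        have h5 := H.msr u hu y hy
        have h6 := H.mrk u hu y hy
        rw [h4, zero_mul] at h6
        have h7 := H.t0 y hy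
        linarith
    have h3 : 1 ≤ ∑ i ∈ (range n).erase a, kp i u := by
      have h5 := H.v1 u hu
      by_cases h4 : a ∈ range n
      · have h6 := add_sum_erase (range n) (fun i => kp i u) h4
        have h7 : kp a u + ∑ y ∈ (range n).erase a, kp y u = ∑ i ∈ range n, kp i u := h6
        have h8 := H.kv u hu a (mem_range.1 h4)
        linarith
      · rw [erase_eq_of_notMem h4]
        linarith
    obtain ⟨w, hw, h4⟩ : ∃ w ∈ (range n).erase a, 0 < kp w u := by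
      by_contra hcon
      push Not at hcon
      have := sum_nonpos hcon
      linarith
    obtain ⟨h5, h6⟩ := mem_erase.1 hw
    have hwn := mem_range.1 h6
    refine ⟨w, hwn, h4, ha w hwn h5, ?_⟩
    have h7 : ∑ y ∈ (range n).erase w, ms y u ≤ ∑ y ∈ (range n).erase w, t y :=
      sum_le_sum fun y hy => h2 y (mem_range.1 (mem_of_mem_erase hy))
    have h8 := add_sum_erase (range n) t h6
    linarith

/-- a product without the PC pairs of the cell -/
lemma prod_pc {a b g g' : ℤ} (ha : 0 ≤ a) (hb : 0 ≤ b) (hg : 0 ≤ g) (hg' : 0 ≤ g') :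
    a * b ≤ max 0 (a - g) * max 0 (b - g') + g * b + g' * a := by
  rcases le_total a g with h1 | h1
  · have h2 : 0 ≤ max 0 (a - g) * max 0 (b - g') := mul_nonneg (le_max_left _ _) (le_max_left _ _)
    nlinarith [mul_nonneg (sub_nonneg.2 h1) hb, mul_nonneg hg' ha]
  · rcases le_total b g' with h2 | h2
    · have h3 : 0 ≤ max 0 (a - g) * max 0 (b - g') :=
        mul_nonneg (le_max_left _ _) (le_max_left _ _)
      nlinarith [mul_nonneg (sub_nonneg.2 h2) ha, mul_nonneg hg hb]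
    · rw [max_eq_right (sub_nonneg.2 h1), max_eq_right (sub_nonneg.2 h2)]
      nlinarith [mul_nonneg hg hg']

/-- **the loss of one end, paid by the cells**: `Q y ≥` the product of the cell `w y` without its PC
pairs -/
lemma lam_pay {V : Finset ℕ} (hV : V ⊆ range n) {u : ι} {w : ℕ} (hR : 0 ≤ R)
    (hk : vl u + 1 ≤ ∑ i ∈ range n, kp i u) (hw : w ∈ V)
    (hm0 : ∀ i < n, 0 ≤ ms i u) (hc : ms w u ≤ R - t w) (hw2 : 2 * t w ≤ R)
    (hb : ∑ y ∈ (range n).erase w, ms y u ≤ R - t w)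
    (hout : ∀ i < n, i ∉ V → ms i u = 0) (hbe : ∀ i < n, ∀ j < n, 0 ≤ be i j)
    {Q : ℕ → ℤ} (hQ : ∀ y ∈ V.erase w, max 0 (ms w u - be w y) * max 0 (ms y u - be y w) ≤ Q y) :
    R * (t w - sur R n vl kp ms u)
      ≤ ∑ y ∈ V.erase w, (R * be y w + 2 * (be w y * ms y u) + 2 * Q y) := by
  have hwn : w < n := mem_range.1 (hV hw)
  have h1 := lam_le (t := t) hR hk hwn hc hb (by linarith)
  have h2 : ∑ y ∈ (range n).erase w, ms y u = ∑ y ∈ V.erase w, ms y u := by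
    symm
    refine sum_subset (erase_subset_erase w hV) fun i hi hi' => ?_
    obtain ⟨h3, h4⟩ := mem_erase.1 hi
    exact hout i (mem_range.1 h4) fun h5 => hi' (mem_erase.2 ⟨h3, h5⟩)
  rw [h2, mul_sum] at h1
  have h3 : ∀ y ∈ V.erase w, ms w u * ms y u
      ≤ (R - t w) * be y w + (be w y * ms y u + Q y) := by
    intro y hy
    have hyn : y < n := mem_range.1 (hV (mem_of_mem_erase hy))
    have h4 := prod_pc (hm0 w hwn) (hm0 y hyn) (hbe w hwn y hyn) (hbe y hyn w hwn)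
    have h5 := hQ y hy
    have h6 := mul_le_mul_of_nonneg_left hc (hbe y hyn w hwn)
    linarith
  have h4 : ∑ y ∈ V.erase w, ms w u * ms y u
      ≤ (R - t w) * ∑ y ∈ V.erase w, be y w + ∑ y ∈ V.erase w, (be w y * ms y u + Q y) := by
    rw [mul_sum, ← sum_add_distrib]
    exact sum_le_sum h3
  have h5 : 0 ≤ ∑ y ∈ V.erase w, (be w y * ms y u + Q y) := by
    refine sum_nonneg fun y hy => ?_
    have hyn : y < n := mem_range.1 (hV (mem_of_mem_erase hy))
    have h6 := mul_nonneg (hbe w hwn y hyn) (hm0 y hyn)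
    have h7 : 0 ≤ max 0 (ms w u - be w y) * max 0 (ms y u - be y w) :=
      mul_nonneg (le_max_left _ _) (le_max_left _ _)
    have h8 := hQ y hy
    linarith
  have h6 : ∑ y ∈ V.erase w, (R * be y w + 2 * (be w y * ms y u) + 2 * Q y)
      = R * ∑ y ∈ V.erase w, be y w + 2 * ∑ y ∈ V.erase w, (be w y * ms y u + Q y) := by
    rw [mul_sum, mul_sum, ← sum_add_distrib]
    exact sum_congr rfl fun y _ => by ring
  rw [h6]
  generalize ∑ y ∈ V.erase w, (be w y * ms y u + Q y) = q at *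
  generalize ∑ y ∈ V.erase w, be y w = g at *
  generalize sur R n vl kp ms u = σ at *
  -- `c (λ - g) ≤ q`, `R ≤ 2 c`
  have h7 : (R - t w) * (t w - σ - g) ≤ q := by nlinarith
  rcases le_total (t w - σ - g) 0 with h8 | h8
  · nlinarith [mul_nonneg hR (by linarith : (0:ℤ) ≤ -(t w - σ - g))]
  · nlinarith [mul_nonneg (by linarith : (0:ℤ) ≤ 2 * (R - t w) - R) h8]

/-- the number of items of `W` with the unbooked end in the cell `i j` -/
noncomputable def cnW (ms : ℕ → ι → ℤ) (W : Finset ι) (w : ι → ℕ) (i j : ℕ) : ℤ :=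
  ((W.filter fun u => (w u = i ∧ ms j u ≠ 0) ∨ (w u = j ∧ ms i u ≠ 0)).card : ℤ)

lemma cnW_le (ms : ℕ → ι → ℤ) (W : Finset ι) (w : ι → ℕ) (i j : ℕ) : cnW ms W w i j ≤ W.card := by
  unfold cnW
  exact_mod_cast card_le_card (filter_subset _ _)

/-- the cells of the items of `W` -/
lemma sum_cnW {V : Finset ℕ} {W : Finset ι} {w : ι → ℕ} {X : ℕ → ℕ → ℤ} (ms : ℕ → ι → ℤ)
    (hX0 : ∀ i j, 0 ≤ X i j) (hw : ∀ u ∈ W, w u ∈ V) :
    ∑ u ∈ W, ∑ y ∈ V.erase (w u), (if ms y u ≠ 0 then X (w u) y + X y (w u) else 0)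
      ≤ ∑ i ∈ V, ∑ j ∈ V.erase i, cnW ms W w i j * X i j := by
  have h1 : ∀ i j, cnW ms W w i j * X i j
      = ∑ u ∈ W, if (w u = i ∧ ms j u ≠ 0) ∨ (w u = j ∧ ms i u ≠ 0) then X i j else 0 := by
    intro i j
    unfold cnW
    rw [← sum_filter, sum_const, nsmul_eq_mul]
  have h2 : ∑ i ∈ V, ∑ j ∈ V.erase i, cnW ms W w i j * X i j
      = ∑ u ∈ W, ∑ i ∈ V, ∑ j ∈ V.erase i,
        if (w u = i ∧ ms j u ≠ 0) ∨ (w u = j ∧ ms i u ≠ 0) then X i j else 0 := by
    rw [sum_comm (s := W)]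
    refine sum_congr rfl fun i _ => ?_
    rw [sum_comm (s := W)]
    exact sum_congr rfl fun j _ => h1 i j
  rw [h2]
  refine sum_le_sum fun u hu => ?_
  have hwu := hw u hu
  have h0 : ∀ i j, 0 ≤ if (w u = i ∧ ms j u ≠ 0) ∨ (w u = j ∧ ms i u ≠ 0) then X i j else 0 := by
    intro i j
    split_ifs
    · exact hX0 i j
    · exact le_rfl
  rw [← add_sum_erase V _ hwu]
  have h3 : ∑ y ∈ V.erase (w u), (if ms y u ≠ 0 then X (w u) y + X y (w u) else 0)
      = ∑ y ∈ V.erase (w u), (if ms y u ≠ 0 then X (w u) y else 0)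
        + ∑ y ∈ V.erase (w u), (if ms y u ≠ 0 then X y (w u) else 0) := by
    rw [← sum_add_distrib]
    refine sum_congr rfl fun y _ => ?_
    split_ifs <;> ring
  rw [h3]
  refine add_le_add (sum_le_sum fun y _ => ?_) (sum_le_sum fun y hy => ?_)
  · by_cases h4 : ms y u ≠ 0
    · rw [if_pos h4, if_pos (Or.inl ⟨rfl, h4⟩)]
    · rw [if_neg h4]
      exact h0 _ _
  · obtain ⟨h5, h6⟩ := mem_erase.1 hy
    have h7 : w u ∈ V.erase y := mem_erase.2 ⟨fun h8 => h5 h8.symm, hwu⟩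
    refine le_trans ?_ (single_le_sum (f := fun j =>
      if (w u = y ∧ ms j u ≠ 0) ∨ (w u = j ∧ ms y u ≠ 0) then X y j else 0)
      (fun j _ => h0 y j) h7)
    show (if ms y u ≠ 0 then X y (w u) else 0)
      ≤ if (w u = y ∧ ms (w u) u ≠ 0) ∨ (w u = w u ∧ ms y u ≠ 0) then X y (w u) else 0
    by_cases h4 : ms y u ≠ 0
    · rw [if_pos h4, if_pos (Or.inr ⟨rfl, h4⟩)]
    · rw [if_neg h4]
      exact h0 _ _

/-- the cells `D` with the gain `X`, the others with their N-excess -/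
lemma sum_cells {V : Finset ℕ} {D : ℕ → ℕ → Prop} (hD : ∀ i j, D i j → D j i) (X Y : ℕ → ℕ → ℤ) :
    ∑ i ∈ V, ∑ j ∈ V.erase i, (if D i j then X i j else Y i j + Y j i)
      = ∑ i ∈ V, ∑ j ∈ (V.erase i).filter (fun j => D i j), X i j
        + 2 * ∑ i ∈ V, ∑ j ∈ (V.erase i).filter (fun j => ¬ D i j), Y i j := by
  have h1 : ∑ i ∈ V, ∑ j ∈ V.erase i, (if D i j then X i j else Y i j + Y j i)
      = ∑ i ∈ V, ∑ j ∈ V.erase i, (if D i j then X i j else 0)
        + ∑ i ∈ V, ∑ j ∈ V.erase i, (if D i j then 0 else Y i j)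
        + ∑ i ∈ V, ∑ j ∈ V.erase i, (if D i j then 0 else Y j i) := by
    rw [← sum_add_distrib, ← sum_add_distrib]
    refine sum_congr rfl fun i _ => ?_
    rw [← sum_add_distrib, ← sum_add_distrib]
    refine sum_congr rfl fun j _ => ?_
    split_ifs <;> ring
  have h2 : ∑ i ∈ V, ∑ j ∈ V.erase i, (if D i j then 0 else Y j i)
      = ∑ i ∈ V, ∑ j ∈ V.erase i, (if D i j then 0 else Y i j) := by
    rw [swap_erase V fun i j => if D i j then 0 else Y i j]
    refine sum_congr rfl fun i _ => sum_congr rfl fun j _ => ?_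
    by_cases h3 : D i j
    · rw [if_pos h3, if_pos (hD _ _ h3)]
    · rw [if_neg h3, if_neg fun h4 => h3 (hD _ _ h4)]
  have h3 : ∀ i ∈ V, ∑ j ∈ V.erase i, (if D i j then X i j else 0)
      = ∑ j ∈ (V.erase i).filter (fun j => D i j), X i j := fun i _ => by rw [sum_filter]
  have h4 : ∀ i ∈ V, ∑ j ∈ V.erase i, (if D i j then 0 else Y i j)
      = ∑ j ∈ (V.erase i).filter (fun j => ¬ D i j), Y i j := fun i _ => by
    rw [sum_filter]
    exact sum_congr rfl fun j _ => by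
      by_cases h5 : D i j
      · rw [if_pos h5, if_neg (not_not.2 h5)]
      · rw [if_neg h5, if_pos h5]
  rw [h1, h2, sum_congr rfl h3, sum_congr rfl h4]
  ring

/-- **the slot test with located counts, the losses paid by the cells**: `W` the items with an
unbooked end, `D` the cells with a rectangle, `X` the rectangles -/
theorem ItX.slotH (H : ItX R n t s h e E U ho vl kp ms mr mu Nb Nx be ls)
    (hmc : ∀ u ∈ U, ∀ i < n, ms i u ≤ R - t i) {V : Finset ℕ} (hV : V ⊆ range n)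
    (hl : R + ∑ u ∈ U.filter (fun u => ho u ∈ V), ∑ z ∈ range n \ V, (R * kp z u - ms z u)
      ≤ R * ∑ z ∈ V, s z)
    {W : Finset ι} {w : ι → ℕ} (hW : W ⊆ U.filter (fun u => ho u ∈ V))
    (hw : ∀ u ∈ W, w u ∈ V ∧ 2 * t (w u) ≤ R ∧ vl u + 1 ≤ ∑ i ∈ range n, kp i u ∧
      ∑ y ∈ (range n).erase (w u), ms y u ≤ R - t (w u) ∧ ∀ i < n, i ∉ V → ms i u = 0)
    {D : ℕ → ℕ → Prop} {X : ℕ → ℕ → ℤ} (hD : ∀ i j, D i j → D j i)
    (hDW : ∀ u ∈ W, ∀ y ∈ V, y ≠ w u → ms y u ≠ 0 → D (w u) y)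
    (hX0 : ∀ i j, 0 ≤ X i j)
    (hX : ∀ i ∈ V, ∀ j ∈ V, i ≠ j → D i j →
      hitx R t U ho kp ms i j + hitx R t U ho kp ms j i + X i j ≤ E i j)
    (hXP : ∀ i ∈ V, ∀ j ∈ V, i ≠ j → D i j → ∀ u ∈ W,
      max 0 (ms i u - be i j) * max 0 (ms j u - be j i) ≤ X i j) :
    R * (2 * (R * (1 + ∑ z ∈ V, mu z))
        + 2 * ∑ u ∈ U.filter (fun u => ho u ∈ V) \ W, sur R n vl kp ms u
        + ∑ z ∈ V, (mu z - s z) * (mu z - s z - 1))
      + ∑ i ∈ V, ∑ j ∈ (V.erase i).filter (fun j => D i j), (R - 2 * cnW ms W w i j) * X i j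
      ≤ R * (2 * ∑ z ∈ V, t z * (mu z + ∑ u ∈ U.filter (fun u => ho u ∈ V), bkd kp W w z u)
          + V.card * (V.card - 1) * (R + 1) + (∑ z ∈ V, s z) ^ 2
          + (2 * V.card - 1) * ∑ z ∈ V, s z + ∑ z ∈ V, Nb z
          + 2 * ∑ z ∈ V, ∑ j ∈ range n \ V, Nx z j
          + 2 * ∑ z ∈ V, ∑ j ∈ (V.erase z).filter (fun j => D z j), Nx z j)
        + 2 * ∑ u ∈ W, ∑ y ∈ V.erase (w u), (R * be y (w u) + 2 * (be (w u) y * ms y u)) := by
  have hR : 0 ≤ R := by
    have h1 := H.nr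
    have h2 : (0 : ℤ) ≤ (n : ℤ) := Nat.cast_nonneg n
    linarith
  have h1 := H.slotB (X := fun i j => if D i j then X i j else Nx i j + Nx j i) hV
    (fun i hi j hj hij => by
      show hitx R t U ho kp ms i j + hitx R t U ho kp ms j i
        + (if D i j then X i j else Nx i j + Nx j i) ≤ E i j
      by_cases h2 : D i j
      · rw [if_pos h2]
        exact hX i hi j hj hij h2
      · rw [if_neg h2]
        have h3 := H.pairN i (mem_range.1 (hV hi)) j (mem_range.1 (hV hj)) hij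
        rw [sum_hitx, sum_hitx] at h3
        linarith) hl hW fun u hu => (hw u hu).1
  have h2 := sum_cells (V := V) hD X Nx
  -- the losses
  have h3 : ∀ u ∈ W, 2 * (R * (t (w u) - sur R n vl kp ms u))
      ≤ 2 * ∑ y ∈ V.erase (w u), (R * be y (w u) + 2 * (be (w u) y * ms y u))
        + 2 * ∑ y ∈ V.erase (w u), (if ms y u ≠ 0 then X (w u) y + X y (w u) else 0) := by
    intro u hu
    obtain ⟨h4, h5, h6, h7, h8⟩ := hw u hu
    have huU : u ∈ U := (mem_filter.1 (hW hu)).1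
    have hwn : w u < n := mem_range.1 (hV h4)
    have h9 := lam_pay (R := R) (t := t) (be := be) (vl := vl) (kp := kp) hV hR h6 h4
      (fun i hi => H.m0 u huU i hi) (hmc u huU _ hwn) h5 h7 h8 H.be0
      (Q := fun y => if ms y u ≠ 0 then X (w u) y else 0) (fun y hy => by
        obtain ⟨h10, h11⟩ := mem_erase.1 hy
        have hyn : y < n := mem_range.1 (hV h11)
        show max 0 (ms (w u) u - be (w u) y) * max 0 (ms y u - be y (w u))
          ≤ if ms y u ≠ 0 then X (w u) y else 0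
        by_cases h12 : ms y u ≠ 0
        · rw [if_pos h12]
          exact hXP _ h4 y h11 (fun h13 => h10 h13.symm) (hDW u hu y h11 h10 h12) u hu
        · rw [if_neg h12]
          push Not at h12
          have h13 := H.be0 y hyn (w u) hwn
          rw [h12, max_eq_left (by linarith : 0 - be y (w u) ≤ 0), mul_zero])
    have h10 := lam_pay (R := R) (t := t) (be := be) (vl := vl) (kp := kp) hV hR h6 h4
      (fun i hi => H.m0 u huU i hi) (hmc u huU _ hwn) h5 h7 h8 H.be0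
      (Q := fun y => if ms y u ≠ 0 then X y (w u) else 0) (fun y hy => by
        obtain ⟨h10, h11⟩ := mem_erase.1 hy
        have hyn : y < n := mem_range.1 (hV h11)
        show max 0 (ms (w u) u - be (w u) y) * max 0 (ms y u - be y (w u))
          ≤ if ms y u ≠ 0 then X y (w u) else 0
        by_cases h12 : ms y u ≠ 0
        · rw [if_pos h12, mul_comm]
          exact hXP y h11 _ h4 h10 (hD _ _ (hDW u hu y h11 h10 h12)) u hu
        · rw [if_neg h12]
          push Not at h12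
          have h13 := H.be0 y hyn (w u) hwn
          rw [h12, max_eq_left (by linarith : 0 - be y (w u) ≤ 0), mul_zero])
    have h11 : ∀ Q : ℕ → ℤ, ∑ y ∈ V.erase (w u), (R * be y (w u) + 2 * (be (w u) y * ms y u) + 2 * Q y)
        = ∑ y ∈ V.erase (w u), (R * be y (w u) + 2 * (be (w u) y * ms y u))
          + 2 * ∑ y ∈ V.erase (w u), Q y := by
      intro Q
      rw [mul_sum, ← sum_add_distrib]
    have h12 : ∑ y ∈ V.erase (w u), (if ms y u ≠ 0 then X (w u) y + X y (w u) else 0)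
        = ∑ y ∈ V.erase (w u), (if ms y u ≠ 0 then X (w u) y else 0)
          + ∑ y ∈ V.erase (w u), (if ms y u ≠ 0 then X y (w u) else 0) := by
      rw [← sum_add_distrib]
      refine sum_congr rfl fun y _ => ?_
      split_ifs <;> ring
    rw [h11] at h9 h10
    rw [h12]
    linarith
  have h4 := sum_le_sum h3
  have h5 := sum_cnW (V := V) (W := W) (w := w) ms hX0 fun u hu => (hw u hu).1
  have h6 : ∑ u ∈ W, 2 * (R * (t (w u) - sur R n vl kp ms u))
      = 2 * (R * ∑ u ∈ W, (t (w u) - sur R n vl kp ms u)) := by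
    rw [mul_sum, mul_sum]
  have h7 : ∑ u ∈ W, (2 * ∑ y ∈ V.erase (w u), (R * be y (w u) + 2 * (be (w u) y * ms y u))
        + 2 * ∑ y ∈ V.erase (w u), (if ms y u ≠ 0 then X (w u) y + X y (w u) else 0))
      = 2 * ∑ u ∈ W, ∑ y ∈ V.erase (w u), (R * be y (w u) + 2 * (be (w u) y * ms y u))
        + 2 * ∑ u ∈ W, ∑ y ∈ V.erase (w u),
          (if ms y u ≠ 0 then X (w u) y + X y (w u) else 0) := by
    rw [sum_add_distrib, mul_sum, mul_sum]
  rw [h6, h7] at h4
  -- the cells without a rectangle contain no item of `W`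
  have h8 : ∑ i ∈ V, ∑ j ∈ V.erase i, cnW ms W w i j * X i j
      = ∑ i ∈ V, ∑ j ∈ (V.erase i).filter (fun j => D i j), cnW ms W w i j * X i j := by
    refine sum_congr rfl fun i hi => ?_
    rw [sum_filter]
    refine sum_congr rfl fun j hj => ?_
    obtain ⟨h9, h10⟩ := mem_erase.1 hj
    by_cases h11 : D i j
    · rw [if_pos h11]
    · rw [if_neg h11]
      have h12 : cnW ms W w i j = 0 := by
        unfold cnW
        rw [Nat.cast_eq_zero, card_eq_zero, filter_eq_empty_iff]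
        rintro u hu (⟨rfl, h13⟩ | ⟨rfl, h13⟩)
        · exact h11 (hDW u hu j h10 h9 h13)
        · exact h11 (hD _ _ (hDW u hu i hi (fun h14 => h9 h14.symm) h13))
      rw [h12, zero_mul]
  have h9 : ∑ i ∈ V, ∑ j ∈ (V.erase i).filter (fun j => D i j), (R - 2 * cnW ms W w i j) * X i j
      = R * ∑ i ∈ V, ∑ j ∈ (V.erase i).filter (fun j => D i j), X i j
        - 2 * ∑ i ∈ V, ∑ j ∈ (V.erase i).filter (fun j => D i j), cnW ms W w i j * X i j := by
    rw [mul_sum, mul_sum, ← sum_sub_distrib]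
    refine sum_congr rfl fun i _ => ?_
    rw [mul_sum, mul_sum, ← sum_sub_distrib]
    exact sum_congr rfl fun j _ => by ring
  -- the N-excess
  have h10 : ∀ z ∈ V, ∑ j ∈ (range n).erase z, Nx z j
      = ∑ j ∈ range n \ V, Nx z j + ∑ j ∈ (V.erase z).filter (fun j => D z j), Nx z j
        + ∑ j ∈ (V.erase z).filter (fun j => ¬ D z j), Nx z j := by
    intro z hz
    rw [← sum_sdiff (erase_subset_erase z hV), add_assoc, sum_filter_add_sum_filter_not]
    congr 1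
    refine sum_congr ?_ fun _ _ => rfl
    ext j
    rw [mem_sdiff, mem_sdiff, mem_erase, mem_erase]
    constructor
    · rintro ⟨⟨h5, h6⟩, h7⟩
      exact ⟨h6, fun h8 => h7 ⟨h5, h8⟩⟩
    · rintro ⟨h5, h6⟩
      exact ⟨⟨fun h7 => h6 (h7 ▸ hz), h5⟩, fun h7 => h6 h7.2⟩
  rw [sum_congr rfl h10, sum_add_distrib, sum_add_distrib] at h1
  have h11 : ∑ i ∈ V, ∑ j ∈ V.erase i, (fun i j => if D i j then X i j else Nx i j + Nx j i) i j
      = ∑ i ∈ V, ∑ j ∈ (V.erase i).filter (fun j => D i j), X i j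
        + 2 * ∑ i ∈ V, ∑ j ∈ (V.erase i).filter (fun j => ¬ D i j), Nx i j := h2
  rw [h11] at h1
  rw [h9, ← h8]
  have h12 := mul_le_mul_of_nonneg_left h1 hR
  rw [h8] at h5 ⊢
  nlinarith

/-- **the rectangles**: the largest product of a cell -/
theorem ItX.exists_rect (H : ItX R n t s h e E U ho vl kp ms mr mu Nb Nx be ls) :
    ∃ X : ℕ → ℕ → ℤ, (∀ i j, 0 ≤ X i j) ∧
      (∀ i < n, ∀ j < n, i ≠ j →
        hitx R t U ho kp ms i j + hitx R t U ho kp ms j i + X i j ≤ E i j) ∧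
      (∀ i < n, ∀ j < n, i ≠ j → ∀ u ∈ U,
        max 0 (ms i u - be i j) * max 0 (ms j u - be j i) ≤ X i j) := by
  have hP0 : ∀ i j u, 0 ≤ max 0 (ms i u - be i j) * max 0 (ms j u - be j i) := fun i j u =>
    mul_nonneg (le_max_left _ _) (le_max_left _ _)
  rcases U.eq_empty_or_nonempty with hU | hU
  · refine ⟨fun _ _ => 0, fun _ _ => le_rfl, fun i hi j hj hij => ?_, fun i _ j _ _ u hu => ?_⟩
    · have h1 := H.pair i hi j hj hij
      rw [sum_hitx, sum_hitx] at h1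
      linarith
    · rw [hU] at hu
      exact absurd hu (notMem_empty u)
  · have h1 : ∀ i j, ∃ w ∈ U, ∀ u ∈ U, max 0 (ms i u - be i j) * max 0 (ms j u - be j i)
        ≤ max 0 (ms i w - be i j) * max 0 (ms j w - be j i) := fun i j =>
      exists_max_image U (fun u => max 0 (ms i u - be i j) * max 0 (ms j u - be j i)) hU
    choose f hf hf' using h1
    refine ⟨fun i j => max 0 (ms i (f i j) - be i j) * max 0 (ms j (f i j) - be j i),
      fun i j => hP0 i j _, fun i hi j hj hij => ?_, fun i _ j _ _ u hu => hf' i j u hu⟩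
    have h2 := H.rect i hi j hj hij (f i j) (hf i j)
    rw [sum_hitx, sum_hitx] at h2
    exact h2

end SlotH

end Pool.Agent.Lib.MP_f04ccf_co
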