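import Pool.Agent.Lib.MP_f04ccf_co.M.Host
import Pool.Agent.Lib.MP_f04ccf_co.S2Red

/-!
MP_f04ccf_co: the slots `S_x` (note 14780 (b)): `U \ {z0}` is the disjoint union of `k` sets `S x` of size
`r`, `x` complete to `S x`.
-/

set_option autoImplicit false

namespace Pool.Agent.Lib.MP_f04ccf_co.Mn

open Finset

attribute [local instance] Classical.propDecidable

variable {V : Type*} {r : ℕ} {c : V → V → Fin r} {hc : ∀ x y, c x y = c y x}
  {U0 U : Finset V} {i : Fin r} {k : ℕ}

/-- a slot decomposition of `U \ {z0}` -/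
structure Slots (G : SimpleGraph V) (r : ℕ) (U T : Finset V) (z0 : V) (S : V → Finset V) : Prop where
  card : ∀ x ∈ T, (S x).card = r
  pn_sub : ∀ x ∈ T, pn G U T x ⊆ S x
  adj : ∀ x ∈ T, ∀ z ∈ S x, z = x ∨ G.Adj x z
  mem : ∀ x ∈ T, ∀ z ∈ S x, z ∈ pn G U T x ∨ (z ∈ DD G U T ∧ z ≠ z0)
  disj : ∀ x ∈ T, ∀ y ∈ T, x ≠ y → Disjoint (S x) (S y)
  cover : T.biUnion S = U.erase z0

/-- **Slots.** -/
theorem MinU.slots (h : MinU hc U0 i k U) {T : Finset V} (hT : T ⊆ U)
    (hi : Ind (col c hc i) T) (hTc : T.card = k) {z0 : V} (hz0 : z0 ∈ DD (col c hc i) U T) :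
    ∃ S : V → Finset V, Slots (col c hc i) r U T z0 S := by
  set G := col c hc i with hG
  obtain ⟨g, hg, hgr⟩ := h.host hT hi hTc hz0
  rw [← hG] at hg hgr
  set D := (DD G U T).erase z0 with hD
  have hdis : ∀ x ∈ T, ∀ z ∈ D, z ∉ pn G U T x := fun x hx z hz =>
    DD_notMem_pn (mem_erase.1 hz).2 hx
  refine ⟨fun x => pn G U T x ∪ D.filter (fun z => g z = x), ?_, ?_, ?_, ?_, ?_, ?_⟩
  · intro x hx
    rw [card_union_of_disjoint]
    · exact hgr x hx
    · rw [disjoint_left]
      intro z hz hz'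
      exact hdis x hx z (mem_filter.1 hz').1 hz
  · exact fun x _ => subset_union_left
  · intro x hx z hz
    rcases mem_union.1 hz with hz | hz
    · rcases (mem_pn.1 hz).2 with h1 | h1
      · exact Or.inl h1
      · exact Or.inr h1.1.symm
    · have h1 := mem_filter.1 hz
      have h2 := (hg z h1.1).2
      rw [h1.2] at h2
      exact Or.inr h2.symm
  · intro x hx z hz
    rcases mem_union.1 hz with hz | hz
    · exact Or.inl hz
    · have h1 := mem_erase.1 (mem_filter.1 hz).1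
      exact Or.inr ⟨h1.2, h1.1⟩
  · intro x hx y hy hxy
    rw [disjoint_left]
    intro z hz hz'
    rcases mem_union.1 hz with hz | hz <;> rcases mem_union.1 hz' with hz' | hz'
    · exact disjoint_left.1 (pn_disj hi hx hy hxy) hz hz'
    · exact hdis x hx z (mem_filter.1 hz').1 hz
    · exact hdis y hy z (mem_filter.1 hz).1 hz'
    · exact hxy ((mem_filter.1 hz).2.symm.trans (mem_filter.1 hz').2)
  · ext z
    rw [mem_biUnion, mem_erase]
    constructor
    · rintro ⟨x, hx, hz⟩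
      rcases mem_union.1 hz with hz2 | hz2
      · refine ⟨?_, Pool.Agent.Lib.MP_f04ccf_co.pn_sub _ _ _ hz2⟩
        intro h0
        rw [h0] at hz2
        exact DD_notMem_pn hz0 hx hz2
      · have h1 := mem_erase.1 (mem_filter.1 hz2).1
        exact ⟨h1.1, DD_sub _ _ _ h1.2⟩
    · rintro ⟨hz, hzU⟩
      by_cases h1 : z ∈ T.biUnion (pn G U T)
      · obtain ⟨x, hx, h2⟩ := mem_biUnion.1 h1
        exact ⟨x, hx, mem_union_left _ h2⟩
      · have h2 : z ∈ D := mem_erase.2 ⟨hz, mem_sdiff.2 ⟨hzU, h1⟩⟩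
        exact ⟨g z, (hg z h2).1, mem_union_right _ (mem_filter.2 ⟨h2, rfl⟩)⟩

/-- a vertex outside a set with `r` elements and `m` non-edges has at most `1 + m` neighbours in it -/
lemma PG.slot_out {G : SimpleGraph V} (hP : PG G r) {S : Finset V} (hS : S.card = r) {v : V}
    (hv : v ∉ S) : 2 * dg G S v ≤ 2 + NE G S := by
  have h1 := hP.one (insert v S)
  have h2 := E_erase G (mem_insert_self v S)
  rw [erase_insert hv] at h2
  have h3 : dg G (insert v S) v = dg G S v := by
    unfold dg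
    rw [filter_insert, if_neg]
    exact G.loopless.irrefl v
  rw [h3] at h2
  have h4 := E_add_NE (G := G) S
  rw [card_insert_of_notMem hv, hS, h2] at h1
  rw [hS] at h4
  push_cast at h1
  have h5 : (2 * dg G S v : ℤ) ≤ 2 + NE G S := by nlinarith
  exact_mod_cast h5

lemma dg_biUnion {G : SimpleGraph V} {T : Finset V} {S : V → Finset V}
    (hd : ∀ x ∈ T, ∀ y ∈ T, x ≠ y → Disjoint (S x) (S y)) (v : V) :
    dg G (T.biUnion S) v = ∑ x ∈ T, dg G (S x) v := by
  unfold dg
  rw [filter_biUnion, card_biUnion]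
  intro x hx y hy hxy
  exact disjoint_filter_filter (hd x hx y hy hxy)

lemma dg_erase_self (G : SimpleGraph V) (U : Finset V) (v : V) : dg G (U.erase v) v = dg G U v := by
  unfold dg
  congr 1
  ext w
  rw [mem_filter, mem_filter, mem_erase]
  constructor
  · rintro ⟨⟨_, h1⟩, h2⟩; exact ⟨h1, h2⟩
  · rintro ⟨h1, h2⟩
    exact ⟨⟨fun h' => G.loopless.irrefl v (h' ▸ h2), h1⟩, h2⟩

namespace Slots

variable {G : SimpleGraph V} {T : Finset V} {z0 : V} {S : V → Finset V}

lemma z0_notMem (hS : Slots G r U T z0 S) {x : V} (hx : x ∈ T) : z0 ∉ S x := by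
  intro h1
  have h2 : z0 ∈ U.erase z0 := by rw [← hS.cover]; exact mem_biUnion.2 ⟨x, hx, h1⟩
  exact (mem_erase.1 h2).1 rfl

lemma sub (hS : Slots G r U T z0 S) {x : V} (hx : x ∈ T) : S x ⊆ U := by
  intro z hz
  have h2 : z ∈ U.erase z0 := by rw [← hS.cover]; exact mem_biUnion.2 ⟨x, hx, hz⟩
  exact (mem_erase.1 h2).2

/-- `2 (d (z0) - k) ≤ 2 Σ m_x` -/
lemma sum_NE (hS : Slots G r U T z0 S) (hP : PG G r) (hTc : T.card = k) :
    2 * dg G U z0 ≤ 2 * k + ∑ x ∈ T, NE G (S x) := by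
  rw [← dg_erase_self, ← hS.cover, dg_biUnion hS.disj, mul_sum, ← hTc, card_eq_sum_ones, mul_sum,
    ← sum_add_distrib]
  exact sum_le_sum fun x hx => by
    have := PG.slot_out hP (hS.card x hx) (hS.z0_notMem hx)
    omega

end Slots

/-- `φ (u) + φ (v) ≥ r - 1` for every non-edge `u v` inside a set with `r` elements, `φ` the excess plus
the number of non-neighbours inside the set -/
lemma MinU.phi (h : MinU hc U0 i k U) {S : Finset V} (hS : S ⊆ U) (hSc : S.card = r) {u v : V}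
    (hu : u ∈ S) (hv : v ∈ S) (huv : u ≠ v) (hadj : ¬ (col c hc i).Adj u v) :
    (r : ℤ) - 1 ≤ ((dg (col c hc i) U u : ℤ) - r + nd (col c hc i) S u) +
      ((dg (col c hc i) U v : ℤ) - r + nd (col c hc i) S v) := by
  set G := col c hc i with hG
  have h1 := h.codeg (hS hu) (hS hv) huv hadj
  rw [← hG] at h1
  have h2 : r ≤ cdg G U u v + nd G S u + nd G S v := by
    have e1 : S ⊆ (U.filter (fun z => G.Adj u z ∧ G.Adj v z)) ∪
        (S.filter (fun y => y ≠ u ∧ ¬ G.Adj u y) ∪ S.filter (fun y => y ≠ v ∧ ¬ G.Adj v y)) := by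
      intro z hz
      rw [mem_union, mem_union, mem_filter, mem_filter, mem_filter]
      by_cases hzu : z = u
      · subst hzu
        exact Or.inr (Or.inr ⟨hz, huv, fun h' => hadj h'.symm⟩)
      by_cases hzv : z = v
      · subst hzv
        exact Or.inr (Or.inl ⟨hz, hzu, hadj⟩)
      by_cases h3 : G.Adj u z
      · by_cases h4 : G.Adj v z
        · exact Or.inl ⟨hS hz, h3, h4⟩
        · exact Or.inr (Or.inr ⟨hz, hzv, h4⟩)
      · exact Or.inr (Or.inl ⟨hz, hzu, h3⟩)
    have e2 := card_le_card e1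
    rw [hSc] at e2
    have e3 := card_union_le (U.filter (fun z => G.Adj u z ∧ G.Adj v z))
      (S.filter (fun y => y ≠ u ∧ ¬ G.Adj u y) ∪ S.filter (fun y => y ≠ v ∧ ¬ G.Adj v y))
    have e4 := card_union_le (S.filter (fun y => y ≠ u ∧ ¬ G.Adj u y))
      (S.filter (fun y => y ≠ v ∧ ¬ G.Adj v y))
    unfold cdg nd
    omega
  have h3 : (r : ℤ) ≤ cdg G U u v + nd G S u + nd G S v := by exact_mod_cast h2
  linarith

/-- number of neighbours outside the slot: `1 + φ (v)` -/
lemma dg_out_slot {G : SimpleGraph V} {S : Finset V} (hS : S ⊆ U) (hSc : S.card = r) {v : V}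
    (hv : v ∈ S) : (dg G (U \ S) v : ℤ) = 1 + ((dg G U v : ℤ) - r + nd G S v) := by
  have h1 := dg_sdiff G hS v
  have h2 := dg_add_nd (G := G) hv
  have h1' : (dg G U v : ℤ) = dg G (U \ S) v + dg G S v := by
    have : dg G U v = dg G (U \ S) v + dg G S v := by omega
    exact_mod_cast this
  have h2' : (dg G S v : ℤ) + nd G S v + 1 = r := by
    rw [hSc] at h2; exact_mod_cast h2
  linarith

end Pool.Agent.Lib.MP_f04ccf_co.Mn
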