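import Pool.Agent.Lib.MP_f04ccf_co.M.ItXT

/-!
MP_f04ccf_co, PLAN W (63's LEMMA (*), note 16947; note 16997).  Two rows `i`, `j`; real loads
`hits / (R - t)`.  `ItX.pairG`: the pair test with both gains solved for `R = c_i + c_j - G`,
`G = R - t i - t j`.  `ItX.star`: if the mutual real load of two rows is at least `1 + d_i + d_j`,
then `2 G (mu_i + mu_j) + .. ≤ (S + 2) (S + 1) + (N-excess)`; `ItX.star_lt`: with at most two
unpaid edges per hosted unit the mutual real load of any two rows is less than `1 + d_i + d_j`.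
-/

set_option autoImplicit false

namespace Pool.Agent.Lib.MP_f04ccf_co

open Finset

attribute [local instance] Classical.propDecidable

section StarP

variable {ι : Type*} {R : ℤ} {n : ℕ} {t s h e : ℕ → ℤ} {E : ℕ → ℕ → ℤ} {U : Finset ι} {ho : ι → ℕ}
  {vl : ι → ℤ} {kp ms mr : ℕ → ι → ℤ} {mu Nb : ℕ → ℤ} {Nx : ℕ → ℕ → ℤ} {be : ℕ → ℕ → ℤ}
  {ls : ℕ → ℤ → ℤ}

/-- the unpaid N-excess of the two hosts of a pair, doubled -/
def npr (n : ℕ) (Nb : ℕ → ℤ) (Nx : ℕ → ℕ → ℤ) (i j : ℕ) : ℤ :=
  Nb i + Nb j + 2 * (∑ x ∈ (range n).erase i, Nx i x - Nx i j)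
    + 2 * (∑ x ∈ (range n).erase j, Nx j x - Nx j i)

namespace ItE

/-- the load of a host at a row is at most its value -/
lemma lod_le (H : ItE R n t s h e E U ho vl kp ms mr mu Nb Nx) {i j : ℕ} (hi : i < n)
    (hj : j < n) : lod U ho kp i j ≤ mu i := by
  rw [H.hmu i hi]
  exact sum_le_sum fun u hu => H.kv u (mem_filter.1 hu).1 j hj

lemma lod_nonneg (H : ItE R n t s h e E U ho vl kp ms mr mu Nb Nx) {i j : ℕ} (hj : j < n) :
    0 ≤ lod U ho kp i j :=
  sum_nonneg fun u hu => H.k0 u (mem_filter.1 hu).1 j hj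

lemma lods_nonneg (H : ItE R n t s h e E U ho vl kp ms mr mu Nb Nx) {i j : ℕ} (hj : j < n) :
    0 ≤ lod U ho ms i j :=
  sum_nonneg fun u hu => H.m0 u (mem_filter.1 hu).1 j hj

/-- the real load of a host at a row is at most its value -/
lemma hitx_le (H : ItE R n t s h e E U ho vl kp ms mr mu Nb Nx) {i j : ℕ} (hi : i < n)
    (hj : j < n) : hitx R t U ho kp ms i j ≤ (R - t j) * mu i := by
  have h1 := H.lod_le hi hj
  have h2 := H.lods_nonneg (i := i) hj
  have h3 := H.tR j hj
  unfold hitx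
  nlinarith [mul_nonneg (by linarith : (0 : ℤ) ≤ mu i - lod U ho kp i j)
    (by linarith : (0 : ℤ) ≤ R - t j)]

lemma hitx_nonneg (H : ItE R n t s h e E U ho vl kp ms mr mu Nb Nx) {i j : ℕ}
    (hj : j < n) : 0 ≤ hitx R t U ho kp ms i j := by
  rw [← sum_hitx]
  refine sum_nonneg fun u hu => ?_
  have h1 := H.mrk u (mem_filter.1 hu).1 j hj
  have h2 := H.msr u (mem_filter.1 hu).1 j hj
  linarith

/-- the mass: `∑ t ≤ R - n` -/
lemma sum_t (H : ItE R n t s h e E U ho vl kp ms mr mu Nb Nx) :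
    ∑ i ∈ range n, t i ≤ R - n := by
  have h1 := H.sh
  have h2 := H.ss
  rw [sum_congr rfl fun i hi => H.hh i (mem_range.1 hi)] at h1
  rw [sum_add_distrib, sum_add_distrib, h2] at h1
  simp only [sum_const, card_range, nsmul_eq_mul, mul_one] at h1
  linarith

/-- the rows outside a set `B`: `n ≤ R - ∑_B t` -/
lemma gap_n (H : ItE R n t s h e E U ho vl kp ms mr mu Nb Nx) {B : Finset ℕ}
    (hB : B ⊆ range n) : (n : ℤ) + ∑ i ∈ range n \ B, t i ≤ R - ∑ i ∈ B, t i := by
  have h1 := H.sum_t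
  rw [← sum_sdiff hB] at h1
  linarith

/-- the rows outside a set `B` have members: `∑_B s + |B| - 1 ≤ R - ∑_B t` -/
lemma gap_s (H : ItE R n t s h e E U ho vl kp ms mr mu Nb Nx) {B : Finset ℕ}
    (hB : B ⊆ range n) : ∑ i ∈ B, s i + B.card - 1 ≤ R - ∑ i ∈ B, t i := by
  have h1 := H.sh
  rw [← sum_sdiff hB] at h1
  have h2 : 0 ≤ ∑ i ∈ range n \ B, h i :=
    sum_nonneg fun i hi => H.h0 i (mem_range.1 (mem_sdiff.1 hi).1)
  have h3 : ∑ i ∈ B, h i = ∑ i ∈ B, t i + ∑ i ∈ B, s i + B.card := by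
    rw [sum_congr rfl fun i hi => H.hh i (mem_range.1 (hB hi))]
    rw [sum_add_distrib, sum_add_distrib]
    simp only [sum_const, nsmul_eq_mul, mul_one]
  linarith

end ItE

namespace ItX

/-- **the pair test with both gains, solved for** `R = (R - t i) + (R - t j) - G` (16997) -/
theorem pairG (H : ItX R n t s h e E U ho vl kp ms mr mu Nb Nx be ls) {i j : ℕ} (hi : i < n)
    (hj : j < n) (hij : i ≠ j) :
    2 * (1 + (mu i - s i) + (mu j - s j)) * (R - t i - t j)
      + 2 * ((R - t i) * (mu i - 1 - (mu i - s i) - (mu j - s j))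
        + hitx R t U ho kp ms j i)
      + 2 * ((R - t j) * (mu j - 1 - (mu i - s i) - (mu j - s j))
        + hitx R t U ho kp ms i j)
      + 2 * gai R t U ho kp ms ls j i (1 + s j) + 2 * gai R t U ho kp ms ls i j (1 + s i)
      + (mu i - s i) * (mu i - s i - 1) + (mu j - s j) * (mu j - s j - 1)
      ≤ (s i + s j + 2) * (s i + s j + 1) + npr n Nb Nx i j := by
  have h1 := H.pairL hi hj hij
  unfold npr
  nlinarith [h1]

/-- **LEMMA (*)** in general form: a pair with mutual real load `W ≥ 1 + d_i + d_j` -/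
theorem star (H : ItX R n t s h e E U ho vl kp ms mr mu Nb Nx be ls) {i j : ℕ} (hi : i < n)
    (hj : j < n) (hij : i ≠ j)
    (hW : (R - t i) * (R - t j) * (1 + (mu i - s i) + (mu j - s j))
      ≤ (R - t i) * hitx R t U ho kp ms i j + (R - t j) * hitx R t U ho kp ms j i) :
    2 * (R - t i - t j) * (mu i + mu j)
      + (mu i - s i) * (mu i - s i - 1) + (mu j - s j) * (mu j - s j - 1)
      ≤ (s i + s j + 2) * (s i + s j + 1) + npr n Nb Nx i j := by
  have h1 := H.pairG hi hj hij
  have g1 := gai_nonneg R t U ho kp ms ls j i (1 + s j)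
  have g2 := gai_nonneg R t U ho kp ms ls i j (1 + s i)
  have hti := H.t0 i hi
  have htj := H.t0 j hj
  have hRi := H.tR i hi
  have hRj := H.tR j hj
  have a1 := H.toItE.hitx_le hi hj
  have a2 := H.toItE.hitx_le hj hi
  set Hij := hitx R t U ho kp ms i j with eij
  set Hji := hitx R t U ho kp ms j i with eji
  set ci := R - t i with eci
  set cj := R - t j with ecj
  set di := mu i - s i with edi
  set dj := mu j - s j with edj
  have hG : R - t i - t j = ci + cj - R := by rw [eci, ecj]; ring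
  have hci : 0 < ci := by linarith
  have hcj : 0 < cj := by linarith
  have hc : 0 < ci * cj := mul_pos hci hcj
  -- real loads: `x = ci * cj * (o_i - e)`, `y = ci * cj * (o_j - e)`
  have hn := H.toItE.gap_n (B := {i, j}) (by
    intro x hx
    rcases mem_insert.1 hx with h | h
    · exact mem_range.2 (h ▸ hi)
    · exact mem_range.2 ((mem_singleton.1 h) ▸ hj))
  rw [sum_pair hij] at hn
  have hT : 0 ≤ ∑ x ∈ range n \ {i, j}, t x :=
    sum_nonneg fun x hx => H.t0 x (mem_range.1 (mem_sdiff.1 hx).1)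
  have hn0 : (0 : ℤ) ≤ n := by positivity
  have hG0 : 0 ≤ R - t i - t j := by linarith
  set G := R - t i - t j with eG
  -- the bracket of row `i`: `ci * (mu i - 1 - di - dj) + Hji`
  have b1 : 0 ≤ ci * (mu i - 1 - di - dj) + Hji := by
    have q1 : ci * cj * (1 + di + dj) ≤ ci * (cj * mu i) + cj * Hji := by
      refine le_trans hW ?_
      have := mul_le_mul_of_nonneg_left a1 hci.le
      linarith
    have q2 : 0 ≤ cj * (ci * (mu i - 1 - di - dj) + Hji) := by
      have : cj * (ci * (mu i - 1 - di - dj) + Hji)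
          = ci * (cj * mu i) + cj * Hji - ci * cj * (1 + di + dj) := by ring
      rw [this]
      linarith
    exact nonneg_of_mul_nonneg_right q2 hcj
  have b2 : 0 ≤ cj * (mu j - 1 - di - dj) + Hij := by
    have q1 : ci * cj * (1 + di + dj) ≤ cj * (ci * mu j) + ci * Hij := by
      refine le_trans hW ?_
      have := mul_le_mul_of_nonneg_left a2 hcj.le
      linarith
    have q2 : 0 ≤ ci * (cj * (mu j - 1 - di - dj) + Hij) := by
      have : ci * (cj * (mu j - 1 - di - dj) + Hij)
          = cj * (ci * mu j) + ci * Hij - ci * cj * (1 + di + dj) := by ring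
      rw [this]
      linarith
    exact nonneg_of_mul_nonneg_right q2 hci
  -- `ci ≥ G`, `cj ≥ G`: `cj * (bracket i) + ci * (bracket j) ≥ ...`
  have gi : G ≤ ci := by rw [eG, eci]; linarith
  have gj : G ≤ cj := by rw [eG, ecj]; linarith
  -- `G * (cj * b_i + ci * b_j) ≤ ci * cj * (b_i + b_j)`
  have k1 : G * (cj * (ci * (mu i - 1 - di - dj) + Hji)
        + ci * (cj * (mu j - 1 - di - dj) + Hij))
      ≤ ci * cj * ((ci * (mu i - 1 - di - dj) + Hji) + (cj * (mu j - 1 - di - dj) + Hij)) := by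
    have u1 : G * (cj * (ci * (mu i - 1 - di - dj) + Hji))
        ≤ ci * (cj * (ci * (mu i - 1 - di - dj) + Hji)) :=
      mul_le_mul_of_nonneg_right gi (mul_nonneg hcj.le b1)
    have u2 : G * (ci * (cj * (mu j - 1 - di - dj) + Hij))
        ≤ cj * (ci * (cj * (mu j - 1 - di - dj) + Hij)) :=
      mul_le_mul_of_nonneg_right gj (mul_nonneg hci.le b2)
    linarith
  -- `cj * b_i + ci * b_j ≥ ci * cj * (mu i + mu j - 1 - di - dj)`
  have k2 : ci * cj * (mu i + mu j - 1 - di - dj)
      ≤ cj * (ci * (mu i - 1 - di - dj) + Hji) + ci * (cj * (mu j - 1 - di - dj) + Hij) := by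
    linarith
  have k3 : G * (ci * cj * (mu i + mu j - 1 - di - dj))
      ≤ ci * cj * ((ci * (mu i - 1 - di - dj) + Hji) + (cj * (mu j - 1 - di - dj) + Hij)) :=
    le_trans (mul_le_mul_of_nonneg_left k2 hG0) k1
  have k4 : G * (mu i + mu j - 1 - di - dj)
      ≤ (ci * (mu i - 1 - di - dj) + Hji) + (cj * (mu j - 1 - di - dj) + Hij) := by
    have : ci * cj * (G * (mu i + mu j - 1 - di - dj))
        ≤ ci * cj * ((ci * (mu i - 1 - di - dj) + Hji)
          + (cj * (mu j - 1 - di - dj) + Hij)) := by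
      refine le_trans (le_of_eq ?_) k3
      ring
    exact le_of_mul_le_mul_left this hc
  nlinarith [h1, k4, g1, g2]

/-- **LEMMA (*)**: with at most two unpaid edges per hosted unit, `W < 1 + d_i + d_j` for every pair -/
theorem star_lt (H : ItX R n t s h e E U ho vl kp ms mr mu Nb Nx be ls) {i j : ℕ} (hi : i < n)
    (hj : j < n) (hij : i ≠ j) (hd : 2 ≤ (mu i - s i) + (mu j - s j))
    (hN : npr n Nb Nx i j ≤ 4 * (mu i + mu j)) :
    (R - t i) * hitx R t U ho kp ms i j + (R - t j) * hitx R t U ho kp ms j i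
      < (R - t i) * (R - t j) * (1 + (mu i - s i) + (mu j - s j)) := by
  by_contra hW
  push Not at hW
  have h1 := H.star hi hj hij hW
  have hti := H.t0 i hi
  have htj := H.t0 j hj
  have hRi := H.tR i hi
  have hRj := H.tR j hj
  have a1 := H.toItE.hitx_le hi hj
  have a2 := H.toItE.hitx_le hj hi
  have hB : ({i, j} : Finset ℕ) ⊆ range n := by
    intro x hx
    rcases mem_insert.1 hx with h | h
    · exact mem_range.2 (h ▸ hi)
    · exact mem_range.2 ((mem_singleton.1 h) ▸ hj)
  have hn := H.toItE.gap_n hB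
  have hs := H.toItE.gap_s hB
  rw [sum_pair hij] at hn
  rw [sum_pair hij, sum_pair hij, card_pair hij] at hs
  have hT : 0 ≤ ∑ x ∈ range n \ {i, j}, t x :=
    sum_nonneg fun x hx => H.t0 x (mem_range.1 (mem_sdiff.1 hx).1)
  have hn5 : (5 : ℤ) ≤ n := by exact_mod_cast H.n5
  have hci : 0 < R - t i := by linarith
  have hcj : 0 < R - t j := by linarith
  have hc : 0 < (R - t i) * (R - t j) := mul_pos hci hcj
  -- `mu i + mu j ≥ 1 + d_i + d_j`
  have q : 1 + (mu i - s i) + (mu j - s j) ≤ mu i + mu j := by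
    have u1 := mul_le_mul_of_nonneg_left a1 hci.le
    have u2 := mul_le_mul_of_nonneg_left a2 hcj.le
    have u3 : (R - t i) * (R - t j) * (1 + (mu i - s i) + (mu j - s j))
        ≤ (R - t i) * (R - t j) * (mu i + mu j) := by
      refine le_trans hW ?_
      linarith
    exact le_of_mul_le_mul_left u3 hc
  set S := s i + s j with eS
  set m := mu i + mu j with em
  have hS1 : 1 ≤ S := by linarith
  have hm : S + 2 ≤ m := by linarith
  have e1 : 0 ≤ (mu i - s i) * (mu i - s i - 1) := by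
    rcases le_or_gt (mu i - s i) 0 with h | h
    · nlinarith
    · exact mul_nonneg h.le (by linarith)
  have e2 : 0 ≤ (mu j - s j) * (mu j - s j - 1) := by
    rcases le_or_gt (mu j - s j) 0 with h | h
    · nlinarith
    · exact mul_nonneg h.le (by linarith)
  have hG5 : 5 ≤ R - t i - t j := by linarith
  have hGS : S + 1 ≤ R - t i - t j := by
    push_cast at hs
    linarith
  have h2 : 2 * (R - t i - t j) * m ≤ (S + 2) * (S + 1) + 4 * m := by linarith
  rcases le_or_gt S 4 with h | h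
  · have h3 : 2 * 5 * m ≤ 2 * (R - t i - t j) * m := by
      have : (0 : ℤ) ≤ m := by linarith
      nlinarith
    have h4 : 6 * (S + 2) ≤ 6 * m := by linarith
    nlinarith
  · have h3 : 2 * (S + 1) * m ≤ 2 * (R - t i - t j) * m := by
      have : (0 : ℤ) ≤ m := by linarith
      nlinarith
    have h4 : (2 * S - 2) * (S + 2) ≤ (2 * S - 2) * m :=
      mul_le_mul_of_nonneg_left hm (by linarith)
    nlinarith

end ItX

end StarP

end Pool.Agent.Lib.MP_f04ccf_co
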