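import Pool.Agent.Lib.MP_f04ccf_co.M.PCoreT
import Pool.Agent.Lib.MP_f04ccf_co.M.RowP
import Pool.Agent.Lib.MP_f04ccf_co.M.ItZ
import Pool.Agent.Lib.MP_f04ccf_co.M.StarP

/-!
MP_f04ccf_co, PLAN W, large `R` (notes 16997, 17014, 17103): the N-free row tests in real loads and the
mass bound over the items `ItZ`.

* `ItZ.tzR`: `R p ≤ t (mu + lam) + (mu + k) (2 (s + k) + 1)`, `p = s + lam`, `lam` the real load.
* `ItZ.tpNR`: T+ without N (half of the gain), columns of the row `j`, in real loads.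
* `ItZ.mass_py`: the sum over rows of the lower bounds for `t` is at most `R - n`, in counts.
* `ItZ.mass_pyR`: the same in real loads.
-/

set_option autoImplicit false

namespace Pool.Agent.Lib.MP_f04ccf_co

open Finset

attribute [local instance] Classical.propDecidable

section SpR

variable {ι : Type*} {R : ℤ} {n : ℕ} {t s h e : ℕ → ℤ} {E : ℕ → ℕ → ℤ} {U : Finset ι} {ho : ι → ℕ}
  {vl : ι → ℤ} {kp ms mr : ℕ → ι → ℤ} {mu Nb : ℕ → ℤ} {Nx : ℕ → ℕ → ℤ} {be : ℕ → ℕ → ℤ}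
  {ls : ℕ → ℤ → ℤ} {pc ar : ι → ℤ} {aT fr : ℕ → ℤ} {gn ka : ℕ → ℕ → ℤ}

namespace ItZ

/-- **the N-free row test in real loads** -/
theorem tzR (H : ItZ R n t s h e E U ho vl kp ms mr mu Nb Nx be ls pc ar aT fr gn ka) {i : ℕ}
    (hi : i < n) {K : Finset ι} (hK : K ⊆ U) (hKh : ∀ u ∈ K, ho u ≠ i) {k lam : ℝ}
    (h0 : 0 ≤ s i + ∑ u ∈ K, kp i u)
    (ek : k = ((∑ u ∈ K, kp i u : ℤ) : ℝ))
    (el : lam = k - ((∑ u ∈ K, mr i u : ℤ) : ℝ) / ((R : ℝ) - t i)) :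
    (R : ℝ) * (s i + lam)
      ≤ t i * (mu i + lam) + ((mu i : ℝ) + k) * (2 * (s i + k) + 1) := by
  have h1 := H.tzN i hi K hK hKh h0
  have h2 : ((R * (s i + ∑ u ∈ K, kp i u) : ℤ) : ℝ)
      ≤ (((mu i + ∑ u ∈ K, kp i u) * (t i + 2 * (s i + ∑ u ∈ K, kp i u) + 1)
        + ∑ u ∈ K, mr i u : ℤ) : ℝ) := by exact_mod_cast h1
  set m : ℤ := ∑ u ∈ K, mr i u with hm
  set kk : ℤ := ∑ u ∈ K, kp i u with hkk
  push_cast at h2
  rw [← ek] at h2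
  have h4 := H.cpos hi
  have h5 : ((R : ℝ) - t i) * lam = ((R : ℝ) - t i) * k - m := by
    rw [el, mul_sub, mul_div_cancel₀ _ h4.ne']
  nlinarith

/-- **T+ without N-excess in real loads**, columns of the row `j`, items hosted at `j` -/
theorem tpNR (H : ItZ R n t s h e E U ho vl kp ms mr mu Nb Nx be ls pc ar aT fr gn ka) {i j : ℕ}
    (hi : i < n) (hj : j < n) (hij : i ≠ j) {K : Finset ι} (hK : K ⊆ U)
    (hKh : ∀ u ∈ K, ho u = j) {k q lam : ℝ} (h0 : 0 ≤ s i + ∑ u ∈ K, kp i u)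
    (ek : k = ((∑ u ∈ K, kp i u : ℤ) : ℝ)) (eq : q = ((∑ u ∈ K, pc u * kp i u : ℤ) : ℝ))
    (el : lam = k - ((∑ u ∈ K, mr i u : ℤ) : ℝ) / ((R : ℝ) - t i)) :
    2 * ((R : ℝ) * (s i + lam))
        + ((R : ℝ) - t j) * (rld R t U ho kp ms i j - s i - 1)
      ≤ 2 * (t i * (mu i + lam)) + 2 * (((mu i : ℝ) + k) * (2 * (s i + k) + 1))
        + ((∑ u ∈ K, ar u : ℤ) : ℝ) + q * be i j := by
  have h1 := H.toItY.tplusN hi hj hij hK hKh rfl rfl h0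
    (H.slk i hi K hK (fun u hu h2 => hij (h2.symm.trans (hKh u hu))) h0)
  set kk : ℤ := ∑ u ∈ K, kp i u with hkk
  set qq : ℤ := ∑ u ∈ K, pc u * kp i u with hqq
  set mm : ℤ := ∑ u ∈ K, mr i u with hmm
  set aa : ℤ := ∑ u ∈ K, ar u with haa
  have h3 : ∑ u ∈ U.filter (fun u => ho u = i), (kp j u * (R - t j) - ms j u)
      = hitx R t U ho kp ms i j := sum_hitx ..
  rw [h3] at h1
  have h2 : ((2 * (R * (s i + kk)) + (hitx R t U ho kp ms i j - (R - t j) * (s i + 1)) : ℤ) : ℝ)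
      ≤ ((2 * ((mu i + kk) * (t i + 2 * (s i + kk) + 1)) + 2 * mm + aa + qq * be i j : ℤ) : ℝ) := by
    exact_mod_cast h1
  push_cast at h2
  rw [← ek, ← eq, H.hit_rld i hj] at h2
  have h4 := H.cpos hi
  have h5 : ((R : ℝ) - t i) * lam = ((R : ℝ) - t i) * k - mm := by
    rw [el, mul_sub, mul_div_cancel₀ _ h4.ne']
  nlinarith

/-- the mass of a set of rows -/
lemma sum_tR (H : ItZ R n t s h e E U ho vl kp ms mr mu Nb Nx be ls pc ar aT fr gn ka)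
    {X : Finset ℕ} (hX : X ⊆ range n) :
    ∑ i ∈ X, (t i : ℝ) + ∑ i ∈ range n \ X, (t i : ℝ) ≤ (R : ℝ) - n := by
  have h1 := H.massD
  have h2 : ∑ i ∈ X, (t i : ℝ) + ∑ i ∈ range n \ X, (t i : ℝ) = ∑ i ∈ range n, (t i : ℝ) := by
    rw [add_comm]
    exact sum_sdiff hX
  linarith

/-- **the mass bound in real loads**: for selections `K i` of items at the rows `i ∈ X` -/
theorem mass_pyR (H : ItZ R n t s h e E U ho vl kp ms mr mu Nb Nx be ls pc ar aT fr gn ka)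
    {X : Finset ℕ} (hX : X ⊆ range n) (K : ℕ → Finset ι) (hK : ∀ i ∈ X, K i ⊆ U)
    (hKh : ∀ i ∈ X, ∀ u ∈ K i, ho u ≠ i) (h0 : ∀ i ∈ X, 0 ≤ s i + ∑ u ∈ K i, kp i u)
    (k lam : ℕ → ℝ) (ek : ∀ i ∈ X, k i = ((∑ u ∈ K i, kp i u : ℤ) : ℝ))
    (el : ∀ i ∈ X, lam i = k i - ((∑ u ∈ K i, mr i u : ℤ) : ℝ) / ((R : ℝ) - t i))
    (hy : ∀ i ∈ X, 0 < (mu i : ℝ) + lam i) :
    ∑ i ∈ X, ((R : ℝ) * (s i + lam i) - ((mu i : ℝ) + k i) * (2 * (s i + k i) + 1))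
        / (mu i + lam i)
      + ∑ i ∈ range n \ X, (t i : ℝ) ≤ (R : ℝ) - n := by
  have h1 := H.sum_tR hX
  have h2 : ∑ i ∈ X, ((R : ℝ) * (s i + lam i) - ((mu i : ℝ) + k i) * (2 * (s i + k i) + 1))
        / (mu i + lam i) ≤ ∑ i ∈ X, (t i : ℝ) := by
    refine sum_le_sum fun i hi => ?_
    rw [div_le_iff₀ (hy i hi)]
    have h3 := H.tzR (mem_range.1 (hX hi)) (hK i hi) (hKh i hi) (h0 i hi) (ek i hi) (el i hi)
    linarith
  linarith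

/-- **the mass bound in counts** -/
theorem mass_py (H : ItZ R n t s h e E U ho vl kp ms mr mu Nb Nx be ls pc ar aT fr gn ka)
    {X : Finset ℕ} (hX : X ⊆ range n) (K : ℕ → Finset ι) (hK : ∀ i ∈ X, K i ⊆ U)
    (hKh : ∀ i ∈ X, ∀ u ∈ K i, ho u ≠ i) (p y m : ℕ → ℤ)
    (hp : ∀ i ∈ X, p i = s i + ∑ u ∈ K i, kp i u) (hp0 : ∀ i ∈ X, 0 ≤ p i)
    (hy : ∀ i ∈ X, y i = mu i + ∑ u ∈ K i, kp i u) (hy0 : ∀ i ∈ X, 0 < y i)
    (hm : ∀ i ∈ X, m i = ∑ u ∈ K i, mr i u) :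
    ∑ i ∈ X, (((R : ℚ) - 2 * y i) * p i - m i) / y i + ∑ i ∈ range n \ X, (t i : ℚ)
      ≤ (R : ℚ) - n + X.card := by
  have h1 : ∑ i ∈ X, (t i : ℚ) + ∑ i ∈ range n \ X, (t i : ℚ) ≤ (R : ℚ) - n := by
    have h2 : ∑ i ∈ X, t i + ∑ i ∈ range n \ X, t i = ∑ i ∈ range n, t i := by
      rw [add_comm]
      exact sum_sdiff hX
    have h3 := H.toItE.sum_t
    have h4 : ((∑ i ∈ X, t i + ∑ i ∈ range n \ X, t i : ℤ) : ℚ) ≤ ((R - n : ℤ) : ℚ) := by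
      rw [h2]
      exact_mod_cast (by linarith : ∑ i ∈ range n, t i ≤ R - n)
    push_cast at h4
    exact h4
  have h2 : ∀ i ∈ X, (((R : ℚ) - 2 * y i) * p i - m i) / y i ≤ t i + 1 := by
    intro i hi
    have hy1 : (0 : ℚ) < y i := by exact_mod_cast hy0 i hi
    rw [div_le_iff₀ hy1]
    have h3 := H.tzN i (mem_range.1 (hX hi)) (K i) (hK i hi) (hKh i hi)
      (by rw [← hp i hi]; exact hp0 i hi)
    rw [← hp i hi, ← hy i hi, ← hm i hi] at h3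
    have h4 : ((R * p i : ℤ) : ℚ) ≤ ((y i * (t i + 2 * p i + 1) + m i : ℤ) : ℚ) := by
      exact_mod_cast h3
    push_cast at h4
    linarith
  have h3 := sum_le_sum h2
  rw [sum_add_distrib, sum_const, nsmul_eq_mul, mul_one] at h3
  linarith

end ItZ

end SpR

end Pool.Agent.Lib.MP_f04ccf_co
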