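import Pool.Agent.Lib.MP_f04ccf_co.M.RowLA

/-!
MP_f04ccf_co, TEXT D, regime L: **the host shares of the value-one items paid in both columns**.

* `rnT`: the plain value-one items hosted at `z` which touch `y` (main or cut end); `rnM_sub`;
* `LevC.split_two`: shares `F y u` of the items by main ends, each at most the sum of `ω l u` over its ends `l`,
  are at most the sum of `ω y u` over the cells and the items which touch them.
-/

set_option autoImplicit false

namespace Pool.Agent.Lib.MP_f04ccf_co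

open Finset

attribute [local instance] Classical.propDecidable

section Split2

variable {ι : Type*} {R : ℤ} {n : ℕ} {t s mu : ℕ → ℤ} {U : Finset ι} {ho : ι → ℕ} {vl : ι → ℤ}
  {kp mn : ℕ → ι → ℤ} {pc ar : ι → ℤ} {be kq NN sg : ℕ → ℕ → ℤ} {nu : ℕ → ι → ℤ} {z y : ℕ}
  {φ : ι → ℕ → ℤ} {g : ℕ → ι → ℕ} {f : ι → ℕ}

/-- the plain items of value one hosted at `z` which touch `y` -/
noncomputable def rnT (U : Finset ι) (ho : ι → ℕ) (vl : ι → ℤ) (kp : ℕ → ι → ℤ) (pc : ι → ℤ)
    (z y : ℕ) : Finset ι := U.filter fun u => ho u = z ∧ pc u = 0 ∧ vl u = 1 ∧ kp y u ≠ 0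

/-- a main end is an end -/
lemma LevC.rnM_sub (C : LevC n U ho vl kp mn pc φ g f) (hy : y < n) :
    rnM U ho vl pc g z y ⊆ rnT U ho vl kp pc z y := by
  intro u hu
  obtain ⟨h1, h2, h3, h4, h5⟩ := mem_filter.1 hu
  refine mem_filter.2 ⟨h1, h2, h3, h4, fun h6 => ?_⟩
  have h7 := C.le u h1 y hy
  rw [h5, h6] at h7
  norm_num at h7

/-- **the shares by main ends are at most the payments by ends** -/
theorem LevC.split_two (C : LevC n U ho vl kp mn pc φ g f)
    (H : PCon R n t s mu U ho vl kp mn pc ar be kq NN sg nu) (hz : z < n) {F ω : ℕ → ι → ℝ}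
    (h : ∀ y ∈ (range n).erase z, ∀ u ∈ rnM U ho vl pc g z y,
      F y u ≤ ∑ l ∈ ((range n).erase z).filter (fun l => kp l u ≠ 0), ω l u) :
    ∑ y ∈ (range n).erase z, ∑ u ∈ rnM U ho vl pc g z y, F y u
      ≤ ∑ y ∈ (range n).erase z, ∑ u ∈ rnT U ho vl kp pc z y, ω y u := by
  set Z : Finset ι := U.filter fun u => ho u = z ∧ pc u = 0 ∧ vl u = 1 with hZ
  have e1 : ∑ y ∈ (range n).erase z, ∑ u ∈ rnM U ho vl pc g z y, F y u
      ≤ ∑ y ∈ (range n).erase z, ∑ u ∈ rnM U ho vl pc g z y,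
        ∑ l ∈ ((range n).erase z).filter (fun l => kp l u ≠ 0), ω l u :=
    sum_le_sum fun y hy => sum_le_sum fun u hu => h y hy u hu
  have e2 : ∀ G : ι → ℝ, ∑ y ∈ (range n).erase z, ∑ u ∈ rnM U ho vl pc g z y, G u
      = ∑ u ∈ Z, G u := by
    intro G
    have h1 : ∀ y ∈ (range n).erase z, ∑ u ∈ rnM U ho vl pc g z y, G u
        = ∑ u ∈ Z, (g y u : ℝ) * G u := by
      intro y hy
      have h2 : rnM U ho vl pc g z y = Z.filter fun u => g y u = 1 := by
        rw [hZ]
        unfold rnM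
        ext u
        simp only [mem_filter]
        tauto
      rw [h2, sum_filter]
      refine sum_congr rfl fun u hu => ?_
      obtain ⟨h3, h4, h5, h6⟩ := mem_filter.1 hu
      rcases C.lev01 H h3 h6 (mem_range.1 (mem_of_mem_erase hy)) with h7 | h7
      · rw [h7, if_neg (by norm_num)]
        simp
      · rw [h7, if_pos rfl]
        simp
    rw [sum_congr rfl h1, sum_comm]
    refine sum_congr rfl fun u hu => ?_
    obtain ⟨h3, h4, h5, h6⟩ := mem_filter.1 hu
    rw [← sum_mul]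
    have h7 := C.vl_sum h3 hz h4
    rw [h6] at h7
    have h8 : (∑ y ∈ (range n).erase z, (g y u : ℝ)) = 1 := by
      have h9 : ((∑ y ∈ (range n).erase z, (g y u : ℤ) : ℤ) : ℝ) = 1 := by
        rw [← h7]
        norm_num
      push_cast at h9
      exact h9
    rw [h8, one_mul]
  refine e1.trans (le_of_eq ?_)
  rw [e2]
  have h1 : ∀ u ∈ Z, ∑ l ∈ ((range n).erase z).filter (fun l => kp l u ≠ 0), ω l u
      = ∑ l ∈ (range n).erase z, if kp l u ≠ 0 then ω l u else 0 := fun u _ => sum_filter _ _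
  rw [sum_congr rfl h1, sum_comm]
  refine sum_congr rfl fun y _ => ?_
  rw [← sum_filter]
  refine sum_congr ?_ fun _ _ => rfl
  rw [hZ]
  unfold rnT
  ext u
  simp only [mem_filter]
  tauto

end Split2

end Pool.Agent.Lib.MP_f04ccf_co
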