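import Pool.Agent.Lib.MP_f04ccf_co.Basic

/-!
MP_f04ccf_co: Lemma S' of note 3084 (oriented clique removal) with amplification.  `P` is the set of
vertices with one common home, `F` the graph of missing pairs, `tl` the tails.  Every edge `xy` of `F`
is served at one of its two tails `w`: `N ≤ g w x + g w y`.  If `|P| ≤ N`, there are test sets
`Y w ⊆ P` with `(N - 1) e_F(P) ≤ (|P| - 1) ∑ w, (g_w(Y w) - e_F(Y w))`, whatever cliques `F` has.
-/

set_option autoImplicit false

namespace Pool.Agent.Lib.MP_f04ccf_co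

open Finset

attribute [local instance] Classical.propDecidable

section Spr

variable {V W : Type*} {F : SimpleGraph V}

private lemma spr_dg_union {A B : Finset V} (h : Disjoint A B) (v : V) :
    dg F (A ∪ B) v = dg F A v + dg F B v := by
  unfold dg
  rw [filter_union, card_union_of_disjoint (disjoint_filter_filter h)]

private lemma spr_E_union {A B : Finset V} (h : Disjoint A B) :
    E F (A ∪ B) = E F A + E F B + 2 * ∑ z ∈ B, dg F A z := by
  have h1 : E F (A ∪ B) = ∑ v ∈ A, (dg F A v + dg F B v) + ∑ v ∈ B, (dg F A v + dg F B v) := by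
    unfold E
    rw [sum_union h]
    congr 1 <;> exact sum_congr rfl fun v _ => spr_dg_union h v
  have h2 := dg_comm F A B
  rw [h1, sum_add_distrib, sum_add_distrib, h2]
  unfold E
  ring

private lemma spr_dg_lt {A : Finset V} {x : V} (hx : x ∈ A) : dg F A x + 1 ≤ A.card := by
  have h : A.filter (fun w => F.Adj x w) ⊆ A.erase x := by
    intro y hy
    obtain ⟨h1, h2⟩ := mem_filter.1 hy
    exact mem_erase.2 ⟨(F.ne_of_adj h2).symm, h1⟩
  have h1 := card_le_card h
  have h2 := card_erase_add_one hx
  unfold dg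
  omega

/-- the doubled value of a family of test sets -/
noncomputable def vl (F : SimpleGraph V) (Ws : Finset W) (g : W → V → ℤ) (Y : W → Finset V) : ℤ :=
  ∑ w ∈ Ws, (2 * ∑ z ∈ Y w, g w z - E F (Y w))

private lemma spr_vl_union (Ws : Finset W) (g : W → V → ℤ) (A B : W → Finset V)
    (h : ∀ w, Disjoint (A w) (B w)) :
    vl F Ws g (fun w => A w ∪ B w) = vl F Ws g A
      + vl F Ws (fun w z => g w z - dg F (A w) z) B := by
  unfold vl
  rw [← sum_add_distrib]
  refine sum_congr rfl fun w _ => ?_
  rw [sum_union (h w), spr_E_union (h w), sum_sub_distrib]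
  push_cast
  ring

/-- in a maximum clique of the missing graph the pairs with the common neighbours of an edge -/
private lemma spr_load {P J : Finset V} {k : ℕ} (hJP : J ⊆ P) (hJ : Clq F J)
    (hmax : ∀ K ⊆ P, Clq F K → K.card ≤ k) {A : Finset V} (hAJ : A ⊆ J) (hA : A.card ≤ 2)
    {x y : V} (hx : x ∈ P \ J) (hy : y ∈ P \ J) (hxy : F.Adj x y) :
    dg F A x + dg F A y ≤ min 4 k := by
  obtain ⟨hx1, hx2⟩ := mem_sdiff.1 hx
  obtain ⟨hy1, hy2⟩ := mem_sdiff.1 hy
  set I := A.filter (fun u => F.Adj x u ∧ F.Adj y u) with hI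
  have h1 : dg F A x + dg F A y ≤ A.card + I.card := by
    unfold dg
    rw [← card_union_add_card_inter, ← filter_or, ← filter_and]
    exact Nat.add_le_add_right (card_filter_le _ _) _
  have h2 : I.card ≤ A.card := card_filter_le _ _
  have hIJ : I ⊆ J := (filter_subset _ _).trans hAJ
  have hc : Clq F (insert x (insert y I)) := by
    intro a ha b hb hab
    simp only [mem_insert] at ha hb
    have hI1 : ∀ u ∈ I, F.Adj x u ∧ F.Adj y u := fun u hu => (mem_filter.1 hu).2
    rcases ha with rfl | rfl | ha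
    · rcases hb with rfl | rfl | hb
      · exact absurd rfl hab
      · exact hxy
      · exact (hI1 b hb).1
    · rcases hb with rfl | rfl | hb
      · exact hxy.symm
      · exact absurd rfl hab
      · exact (hI1 b hb).2
    · rcases hb with rfl | rfl | hb
      · exact (hI1 a ha).1.symm
      · exact (hI1 a ha).2.symm
      · exact hJ a (hIJ ha) b (hIJ hb) hab
  have hy3 : y ∉ I := fun h => hy2 (hIJ h)
  have hx3 : x ∉ insert y I := by
    rw [mem_insert]
    rintro (h | h)
    · exact (F.ne_of_adj hxy) h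
    · exact hx2 (hIJ h)
  have h3 := hmax _ (by
    intro u hu
    simp only [mem_insert] at hu
    rcases hu with rfl | rfl | hu
    · exact hx1
    · exact hy1
    · exact hJP (hIJ hu)) hc
  rw [card_insert_of_notMem hx3, card_insert_of_notMem hy3] at h3
  rw [le_min_iff]
  constructor <;> omega

/-- **LEMMA S'** (note 3084 (1)), all cliques allowed, with the factor `(N - 1) / (|P| - 1)` -/
theorem clique_removal (Ws : Finset W) (tl : V → W) :
    ∀ (n : ℕ) (P : Finset V) (g : W → V → ℤ) (N : ℤ), P.card = n → (n : ℤ) ≤ N →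
      (∀ x ∈ P, tl x ∈ Ws) → (∀ x ∈ P, ∀ y ∈ P, F.Adj x y → tl x ≠ tl y) →
      (∀ x ∈ P, ∀ y ∈ P, F.Adj x y →
        N ≤ g (tl x) x + g (tl x) y ∨ N ≤ g (tl y) x + g (tl y) y) →
      ∃ Y : W → Finset V, (∀ w, Y w ⊆ P) ∧ 0 ≤ vl F Ws g Y ∧
        (N - 1) * E F P ≤ ((n : ℤ) - 1) * vl F Ws g Y := by
  intro n
  induction n using Nat.strong_induction_on with
  | _ n ih =>
    intro P g N hn hN hW htl hs
    by_cases hE : E F P = 0
    · refine ⟨fun _ => ∅, fun w => empty_subset _, ?_, ?_⟩
      · have : vl F Ws g (fun _ => (∅ : Finset V)) = 0 := by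
          unfold vl E
          simp
        omega
      · have : vl F Ws g (fun _ => (∅ : Finset V)) = 0 := by
          unfold vl E
          simp
        rw [this, hE]
        simp
    -- an edge
    obtain ⟨x0, hx0, y0, hy0, hxy0⟩ : ∃ x ∈ P, ∃ y ∈ P, F.Adj x y := by
      by_contra hcon
      push Not at hcon
      refine hE ?_
      unfold E dg
      refine sum_eq_zero fun v hv => ?_
      rw [card_eq_zero, filter_eq_empty_iff]
      intro u hu
      exact hcon v hv u hu
    -- a maximum clique
    obtain ⟨J, hJm, hJmax⟩ := exists_max_image (P.powerset.filter (fun K => Clq F K)) card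
      ⟨∅, mem_filter.2 ⟨mem_powerset.2 (empty_subset _), by intro a ha; simp at ha⟩⟩
    obtain ⟨hJ1, hJ⟩ := mem_filter.1 hJm
    have hJP : J ⊆ P := mem_powerset.1 hJ1
    have hmax : ∀ K ⊆ P, Clq F K → K.card ≤ J.card := fun K hK hc =>
      hJmax K (mem_filter.2 ⟨mem_powerset.2 hK, hc⟩)
    obtain ⟨k, hk⟩ : ∃ k, J.card = k := ⟨_, rfl⟩
    rw [hk] at hmax
    have hk2 : 2 ≤ k := by
      have h1 := hmax {x0, y0} (by
        intro u hu
        simp only [mem_insert, mem_singleton] at hu
        rcases hu with rfl | rfl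
        · exact hx0
        · exact hy0) (by
        intro a ha b hb hab
        simp only [mem_insert, mem_singleton] at ha hb
        rcases ha with rfl | rfl <;> rcases hb with rfl | rfl
        · exact absurd rfl hab
        · exact hxy0
        · exact hxy0.symm
        · exact absurd rfl hab)
      rwa [card_pair (F.ne_of_adj hxy0)] at h1
    have hkn : k ≤ n := by rw [← hk, ← hn]; exact card_le_card hJP
    -- tails are injective on `J`
    have hinj : ∀ a ∈ J, ∀ b ∈ J, tl a = tl b → a = b := by
      intro a ha b hb hab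
      by_contra hne
      exact htl a (hJP ha) b (hJP hb) (hJ a ha b hb hne) hab
    -- the vertices with an out-neighbour
    set J1 := J.filter (fun y => ∃ x ∈ J, F.Adj y x ∧ N ≤ g (tl y) y + g (tl y) x) with hJ1d
    have hex : ∀ y, ∃ x, y ∈ J1 → (x ∈ J ∧ F.Adj y x ∧ N ≤ g (tl y) y + g (tl y) x) := by
      intro y
      by_cases hy : y ∈ J1
      · obtain ⟨-, x, hx⟩ := mem_filter.1 hy
        exact ⟨x, fun _ => hx⟩
      · exact ⟨y, fun h => absurd h hy⟩
    choose xo hxo using hex
    have hJ1J : J1 ⊆ J := filter_subset _ _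
    have hcard1 : k ≤ J1.card + 1 := by
      have h1 : (J \ J1).card ≤ 1 := by
        rw [card_le_one]
        intro a ha b hb
        by_contra hne
        obtain ⟨ha1, ha2⟩ := mem_sdiff.1 ha
        obtain ⟨hb1, hb2⟩ := mem_sdiff.1 hb
        have hab := hJ a ha1 b hb1 hne
        rcases hs a (hJP ha1) b (hJP hb1) hab with h | h
        · exact ha2 (mem_filter.2 ⟨ha1, b, hb1, hab, h⟩)
        · exact hb2 (mem_filter.2 ⟨hb1, a, ha1, hab.symm, by rw [add_comm]; exact h⟩)
      have h2 := card_sdiff_add_card_eq_card hJ1J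
      omega
    -- the test sets of the clique
    set YJ : W → Finset V := fun w =>
      (J1.filter (fun y => tl y = w)).biUnion (fun y => {y, xo y}) with hYJ
    have hYJJ : ∀ w, YJ w ⊆ J := by
      intro w u hu
      obtain ⟨y, hy, hu⟩ := mem_biUnion.1 hu
      have hy1 := (mem_filter.1 hy).1
      simp only [mem_insert, mem_singleton] at hu
      rcases hu with rfl | rfl
      · exact hJ1J hy1
      · exact (hxo y hy1).1
    have hfil : ∀ y ∈ J1, J1.filter (fun z => tl z = tl y) = {y} := by
      intro y hy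
      ext z
      simp only [mem_filter, mem_singleton]
      constructor
      · rintro ⟨h1, h2⟩
        exact hinj z (hJ1J h1) y (hJ1J hy) h2
      · rintro rfl
        exact ⟨hy, rfl⟩
    have hYJ1 : ∀ y ∈ J1, YJ (tl y) = {y, xo y} := by
      intro y hy
      simp only [hYJ, hfil y hy, singleton_biUnion]
    have hYJ0 : ∀ w, w ∉ J1.image tl → YJ w = ∅ := by
      intro w hw
      simp only [hYJ]
      rw [filter_eq_empty_iff.2, biUnion_empty]
      intro y hy h
      exact hw (mem_image.2 ⟨y, hy, h⟩)
    have hYJc : ∀ w, (YJ w).card ≤ 2 := by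
      intro w
      by_cases hw : w ∈ J1.image tl
      · obtain ⟨y, hy, rfl⟩ := mem_image.1 hw
        rw [hYJ1 y hy]
        exact card_le_two
      · rw [hYJ0 w hw]
        simp
    have hE2 : ∀ y ∈ J1, E F (YJ (tl y)) = 2 := by
      intro y hy
      have hadj := (hxo y hy).2.1
      rw [hYJ1 y hy]
      have e1 : dg F {y, xo y} y = 1 := by
        unfold dg
        rw [card_eq_one]
        refine ⟨xo y, ?_⟩
        ext z
        simp only [mem_filter, mem_insert, mem_singleton]
        constructor
        · rintro ⟨rfl | rfl, h⟩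
          · exact absurd h (F.loopless.irrefl _)
          · rfl
        · rintro rfl
          exact ⟨Or.inr rfl, hadj⟩
      have e2 : dg F {y, xo y} (xo y) = 1 := by
        unfold dg
        rw [card_eq_one]
        refine ⟨y, ?_⟩
        ext z
        simp only [mem_filter, mem_insert, mem_singleton]
        constructor
        · rintro ⟨rfl | rfl, h⟩
          · rfl
          · exact absurd h (F.loopless.irrefl _)
        · rintro rfl
          exact ⟨Or.inl rfl, hadj.symm⟩
      unfold E
      rw [sum_pair (F.ne_of_adj hadj), e1, e2]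
    have hN1 : (0 : ℤ) ≤ N - 1 := by
      have : (2 : ℤ) ≤ n := by exact_mod_cast hk2.trans hkn
      omega
    have hv1 : 2 * (N - 1) * ((k : ℤ) - 1) ≤ vl F Ws g YJ := by
      have h1 : vl F Ws g YJ = ∑ w ∈ J1.image tl, (2 * ∑ z ∈ YJ w, g w z - E F (YJ w)) := by
        unfold vl
        symm
        refine sum_subset ?_ ?_
        · intro w hw
          obtain ⟨y, hy, rfl⟩ := mem_image.1 hw
          exact hW y (hJP (hJ1J hy))
        · intro w _ hw
          rw [hYJ0 w hw]
          unfold E
          simp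
      have h2 : ∑ w ∈ J1.image tl, (2 * ∑ z ∈ YJ w, g w z - E F (YJ w))
          = ∑ y ∈ J1, (2 * ∑ z ∈ YJ (tl y), g (tl y) z - E F (YJ (tl y))) := by
        rw [sum_image]
        intro a ha b hb hab
        exact hinj a (hJ1J ha) b (hJ1J hb) hab
      have h3 : ∑ _y ∈ J1, (2 * (N - 1)) ≤
          ∑ y ∈ J1, (2 * ∑ z ∈ YJ (tl y), g (tl y) z - E F (YJ (tl y))) := by
        refine sum_le_sum fun y hy => ?_
        rw [hE2 y hy, hYJ1 y hy, sum_pair (F.ne_of_adj (hxo y hy).2.1)]
        have := (hxo y hy).2.2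
        push_cast
        linarith
      rw [h1, h2]
      refine le_trans ?_ h3
      rw [sum_const, nsmul_eq_mul]
      have h4 : ((k : ℤ) - 1) ≤ J1.card := by
        have : (k : ℤ) ≤ J1.card + 1 := by exact_mod_cast hcard1
        linarith
      nlinarith
    -- the rest
    obtain ⟨n', hn'⟩ : ∃ n', (P \ J).card = n' := ⟨_, rfl⟩
    have hn'' : n' + k = n := by
      rw [← hn', ← hk, ← hn]
      exact card_sdiff_add_card_eq_card hJP
    obtain ⟨m, hm⟩ : ∃ m, min 4 k = m := ⟨_, rfl⟩
    have hmk : m ≤ k := by rw [← hm]; exact min_le_right _ _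
    have hs' : ∀ x ∈ P \ J, ∀ y ∈ P \ J, F.Adj x y →
        N - m ≤ (g (tl x) x - dg F (YJ (tl x)) x) + (g (tl x) y - dg F (YJ (tl x)) y) ∨
        N - m ≤ (g (tl y) x - dg F (YJ (tl y)) x) + (g (tl y) y - dg F (YJ (tl y)) y) := by
      intro x hx y hy hxy
      have hl := fun w => spr_load hJP hJ hmax (hYJJ w) (hYJc w) hx hy hxy
      rcases hs x (mem_sdiff.1 hx).1 y (mem_sdiff.1 hy).1 hxy with h | h
      · left
        have h1 : ((dg F (YJ (tl x)) x : ℤ) + dg F (YJ (tl x)) y) ≤ m := by
          rw [← hm]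
          exact_mod_cast hl (tl x)
        linarith
      · right
        have h1 : ((dg F (YJ (tl y)) x : ℤ) + dg F (YJ (tl y)) y) ≤ m := by
          rw [← hm]
          exact_mod_cast hl (tl y)
        linarith
    obtain ⟨Y', hY'P, hY'0, hY'⟩ := ih n' (by omega) (P \ J)
      (fun w z => g w z - dg F (YJ w) z) (N - m) hn' (by
        have h1 : (n' : ℤ) + k = n := by exact_mod_cast hn''
        have h2 : (m : ℤ) ≤ k := by exact_mod_cast hmk
        linarith)
      (fun x hx => hW x (mem_sdiff.1 hx).1)
      (fun x hx y hy => htl x (mem_sdiff.1 hx).1 y (mem_sdiff.1 hy).1) hs'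
    have hdis : ∀ w, Disjoint (YJ w) (Y' w) := fun w =>
      disjoint_of_subset_left (hYJJ w) (disjoint_of_subset_right (hY'P w) disjoint_sdiff)
    have hval := spr_vl_union (F := F) Ws g YJ Y' hdis
    refine ⟨fun w => YJ w ∪ Y' w, fun w => union_subset ((hYJJ w).trans hJP)
      ((hY'P w).trans sdiff_subset), ?_, ?_⟩
    · rw [hval]
      have : (0 : ℤ) ≤ 2 * (N - 1) * ((k : ℤ) - 1) := by
        have : (2 : ℤ) ≤ k := by exact_mod_cast hk2
        refine mul_nonneg ?_ ?_ <;> linarith
      linarith
    -- count the edges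
    have hEP : E F P = E F J + E F (P \ J) + 2 * ∑ z ∈ P \ J, dg F J z := by
      rw [← spr_E_union disjoint_sdiff, union_sdiff_of_subset hJP]
    have hEJ : E F J ≤ k * (k - 1) := by
      unfold E
      rw [← hk, ← smul_eq_mul]
      refine sum_le_card_nsmul _ _ _ fun z hz => ?_
      have := spr_dg_lt (F := F) hz
      omega
    have hcr : ∑ z ∈ P \ J, dg F J z ≤ n' * (k - 1) := by
      rw [← hn', ← smul_eq_mul]
      refine sum_le_card_nsmul _ _ _ fun z hz => ?_
      obtain ⟨hz1, hz2⟩ := mem_sdiff.1 hz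
      by_contra hcon
      have h1 : dg F J z ≤ J.card := card_filter_le _ _
      have h2 : J.filter (fun u => F.Adj z u) = J := by
        refine eq_of_subset_of_card_le (filter_subset _ _) ?_
        unfold dg at hcon
        omega
      have h3 := hmax (insert z J) (insert_subset hz1 hJP) (by
        intro a ha b hb hab
        have hzJ : ∀ u ∈ J, F.Adj z u := by
          intro u hu
          rw [← h2] at hu
          exact (mem_filter.1 hu).2
        rw [mem_insert] at ha hb
        rcases ha with rfl | ha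
        · rcases hb with rfl | hb
          · exact absurd rfl hab
          · exact hzJ b hb
        · rcases hb with rfl | hb
          · exact (hzJ a ha).symm
          · exact hJ a ha b hb hab)
      rw [card_insert_of_notMem hz2] at h3
      omega
    rw [hval]
    have hk1 : ((k - 1 : ℕ) : ℤ) = (k : ℤ) - 1 := by
      rw [Nat.cast_sub (by omega)]
      simp
    have hEP' : (E F P : ℤ) ≤ E F (P \ J) + ((k : ℤ) - 1) * (k + 2 * n') := by
      have e1 : (E F J : ℤ) ≤ k * ((k : ℤ) - 1) := by
        rw [← hk1]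
        exact_mod_cast hEJ
      have e2 : ((∑ z ∈ P \ J, dg F J z : ℕ) : ℤ) ≤ n' * ((k : ℤ) - 1) := by
        rw [← hk1]
        exact_mod_cast hcr
      rw [hEP]
      push_cast
      push_cast at e2
      nlinarith
    obtain ⟨E', hE'⟩ : ∃ E', E F (P \ J) = E' := ⟨_, rfl⟩
    rw [hE'] at hEP' hY'
    obtain ⟨v', hv'⟩ : ∃ v', vl F Ws (fun w z => g w z - dg F (YJ w) z) Y' = v' := ⟨_, rfl⟩
    rw [hv'] at hY' hY'0 ⊢
    have hnk : (n' : ℤ) + k = n := by exact_mod_cast hn''
    have hk2' : (2 : ℤ) ≤ k := by exact_mod_cast hk2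
    have hmk' : (m : ℤ) ≤ k := by exact_mod_cast hmk
    have hn0 : (0 : ℤ) ≤ n' := by positivity
    have hm0 : (0 : ℤ) ≤ m := by positivity
    have hmain : (N - 1) * (E' : ℤ) ≤ ((n : ℤ) - 1) * v' := by
      rcases Nat.eq_zero_or_pos E' with h0 | h0
      · rw [h0]
        have : (0 : ℤ) ≤ ((n : ℤ) - 1) * v' := mul_nonneg (by linarith) hY'0
        simpa using this
      · have hn2 : 2 ≤ n' := by
          by_contra hcon
          have hc1 : (P \ J).card ≤ 1 := by omega
          have : E F (P \ J) = 0 := by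
            unfold E dg
            refine sum_eq_zero fun v hv => ?_
            rw [card_eq_zero, filter_eq_empty_iff]
            intro u hu huv
            exact (F.ne_of_adj huv) (card_le_one.1 hc1 v hv u hu)
          omega
        have hn2' : (0 : ℤ) < (n' : ℤ) - 1 := by
          have : (2 : ℤ) ≤ n' := by exact_mod_cast hn2
          linarith
        have hE0 : (0 : ℤ) ≤ E' := by positivity
        have a1 : (N - 1) * ((n' : ℤ) - 1) ≤ (N - m - 1) * ((n : ℤ) - 1) := by
          have : (m : ℤ) * ((n : ℤ) - 1) ≤ k * (N - 1) := by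
            have b1 : (m : ℤ) * ((n : ℤ) - 1) ≤ k * ((n : ℤ) - 1) :=
              mul_le_mul_of_nonneg_right hmk' (by linarith)
            have b2 : (k : ℤ) * ((n : ℤ) - 1) ≤ k * (N - 1) :=
              mul_le_mul_of_nonneg_left (by linarith) (by linarith)
            linarith
          nlinarith
        have a2 : ((N - 1) * (E' : ℤ)) * ((n' : ℤ) - 1) ≤ (((n : ℤ) - 1) * v') * ((n' : ℤ) - 1) := by
          calc ((N - 1) * (E' : ℤ)) * ((n' : ℤ) - 1)
              = ((N - 1) * ((n' : ℤ) - 1)) * E' := by ring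
            _ ≤ ((N - m - 1) * ((n : ℤ) - 1)) * E' := mul_le_mul_of_nonneg_right a1 hE0
            _ = ((n : ℤ) - 1) * ((N - m - 1) * E') := by ring
            _ ≤ ((n : ℤ) - 1) * (((n' : ℤ) - 1) * v') :=
                mul_le_mul_of_nonneg_left hY' (by linarith)
            _ = (((n : ℤ) - 1) * v') * ((n' : ℤ) - 1) := by ring
        exact le_of_mul_le_mul_right a2 hn2'
    have hfirst : (N - 1) * (((k : ℤ) - 1) * (k + 2 * n')) ≤
        ((n : ℤ) - 1) * (2 * (N - 1) * ((k : ℤ) - 1)) := by
      have c1 : (k : ℤ) + 2 * n' ≤ 2 * ((n : ℤ) - 1) := by linarith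
      have c2 : (0 : ℤ) ≤ (N - 1) * ((k : ℤ) - 1) := mul_nonneg hN1 (by linarith)
      nlinarith
    have hsecond : ((n : ℤ) - 1) * (2 * (N - 1) * ((k : ℤ) - 1)) ≤
        ((n : ℤ) - 1) * vl F Ws g YJ :=
      mul_le_mul_of_nonneg_left hv1 (by linarith)
    calc (N - 1) * (E F P : ℤ) ≤ (N - 1) * (E' + ((k : ℤ) - 1) * (k + 2 * n')) :=
          mul_le_mul_of_nonneg_left hEP' hN1
      _ = (N - 1) * E' + (N - 1) * (((k : ℤ) - 1) * (k + 2 * n')) := by ring
      _ ≤ ((n : ℤ) - 1) * v' + ((n : ℤ) - 1) * vl F Ws g YJ := by linarith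
      _ = ((n : ℤ) - 1) * (vl F Ws g YJ + v') := by ring

end Spr

end Pool.Agent.Lib.MP_f04ccf_co
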