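import Pool.Agent.Lib.MP_f04ccf_co.M.Cmb

/-!
MP_f04ccf_co: the gain of a spread point (note 15856 (1)).  A point all of whose rows pay for it with
probability at most `λ / (1 + λ)` brings at least one unit, if the missed point counts
`1 + l ≥ 2 (1 + λ)`, `λ ≥ 1`.
-/

set_option autoImplicit false

namespace Pool.Agent.Lib.MP_f04ccf_co

open Finset

attribute [local instance] Classical.propDecidable

section Spread

variable {ι : Type*}

/-- the function `∑ a + K ∏ (1 - a)` on the box `[0, μ]^B` is at least one of its values at the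
vertices -/
lemma spread_vtx {μ : ℚ} (B : Finset ι) (a : ι → ℚ) (h0 : ∀ y ∈ B, 0 ≤ a y)
    (h1 : ∀ y ∈ B, a y ≤ μ) (K : ℚ) :
    ∃ j : ℕ, j * μ + K * (1 - μ) ^ j ≤ ∑ y ∈ B, a y + K * ∏ y ∈ B, (1 - a y) := by
  induction B using Finset.induction_on generalizing K with
  | empty => exact ⟨0, by simp⟩
  | insert y B hy ih =>
    obtain ⟨j, hj⟩ := ih (fun z hz => h0 z (mem_insert_of_mem hz))
      (fun z hz => h1 z (mem_insert_of_mem hz)) K
    obtain ⟨i, hi⟩ := ih (fun z hz => h0 z (mem_insert_of_mem hz))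
      (fun z hz => h1 z (mem_insert_of_mem hz)) (K * (1 - μ))
    have hy0 := h0 y (mem_insert_self _ _)
    have hy1 := h1 y (mem_insert_self _ _)
    rw [sum_insert hy, prod_insert hy]
    by_contra hc
    push Not at hc
    have c1 := hc j
    have c2 := hc (i + 1)
    rw [pow_succ] at c2
    push_cast at c2
    rcases le_total 1 (K * ∏ z ∈ B, (1 - a z)) with h | h
    · nlinarith [mul_nonneg (sub_nonneg.2 hy1) (sub_nonneg.2 h)]
    · nlinarith [mul_nonneg hy0 (sub_nonneg.2 h)]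

/-- the values at the vertices -/
lemma spread_num {μ K : ℚ} (h1 : 1 ≤ 2 * μ) (h2 : μ ≤ 1) (h3 : 2 ≤ K * (1 - μ)) (j : ℕ) :
    2 ≤ j * μ + K * (1 - μ) ^ j := by
  have h4 : 0 ≤ 1 - μ := by linarith
  have h5 : 0 < K := by
    by_contra hK
    push Not at hK
    nlinarith
  rcases j with _ | _ | _ | _ | j
  · norm_num
    nlinarith
  · norm_num
    linarith
  · have : K * (1 - μ) ^ 2 = K * (1 - μ) * (1 - μ) := by ring
    norm_num
    rw [this]
    nlinarith
  · have e1 : K * (1 - μ) ^ 3 = K * (1 - μ) * (1 - μ) ^ 2 := by ring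
    have e2 : 2 * (1 - μ) ^ 2 ≤ K * (1 - μ) * (1 - μ) ^ 2 :=
      mul_le_mul_of_nonneg_right h3 (by positivity)
    norm_num
    rw [e1]
    nlinarith
  · have e1 : 0 ≤ K * (1 - μ) ^ (j + 1 + 1 + 1 + 1) := mul_nonneg h5.le (pow_nonneg h4 _)
    have e2 : (0 : ℚ) ≤ j := Nat.cast_nonneg j
    push_cast
    nlinarith

/-- **SPREAD POINTS**: a point which no row pays with probability greater than `λ / (1 + λ)` brings
one unit -/
theorem spread_ge {B : Finset ι} {a : ι → ℚ} {lam l : ℚ} (hlam : 1 ≤ lam)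
    (hl : 2 * (1 + lam) ≤ 1 + l) (h0 : ∀ y ∈ B, 0 ≤ a y) (h1 : ∀ y ∈ B, (1 + lam) * a y ≤ lam) :
    1 ≤ gam B a l := by
  have hp : 0 < 1 + lam := by linarith
  have h2 : 1 - lam / (1 + lam) = 1 / (1 + lam) := by
    rw [eq_div_iff hp.ne', sub_mul, div_mul_cancel₀ _ hp.ne']
    ring
  obtain ⟨j, hj⟩ := spread_vtx (μ := lam / (1 + lam)) B a h0
    (fun y hy => by
      rw [le_div_iff₀ hp, mul_comm]
      exact h1 y hy) (1 + l)
  have h3 := spread_num (μ := lam / (1 + lam)) (K := 1 + l)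
    (by rw [← mul_div_assoc, le_div_iff₀ hp]; linarith)
    (by rw [div_le_one hp]; linarith)
    (by rw [h2, mul_one_div, le_div_iff₀ hp]; linarith) j
  unfold gam
  linarith

/-- a point is located (some row pays it with probability at least `λ / (1 + λ)`) or spread -/
lemma loc_or_spread {B : Finset ι} {a : ι → ℚ} {lam l : ℚ} (hlam : 1 ≤ lam)
    (hl : 2 * (1 + lam) ≤ 1 + l) (h0 : ∀ y ∈ B, 0 ≤ a y) :
    (∃ y ∈ B, lam ≤ (1 + lam) * a y) ∨ 1 ≤ gam B a l := by
  by_cases h : ∃ y ∈ B, lam ≤ (1 + lam) * a y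
  · exact Or.inl h
  · push Not at h
    exact Or.inr (spread_ge hlam hl h0 fun y hy => (h y hy).le)

end Spread

end Pool.Agent.Lib.MP_f04ccf_co
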