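import Pool.Agent.Lib.MP_f04ccf_co.M.ColP1

/-!
MP_f04ccf_co, TEXT D, regime H: **the served items of value one in the family, with their gains.**

* `lsF`: the loss of a served item of value one: hub half `(b + (1 - η c) e) / c - cp (u, z, 0)`; `hubC` half with `r ≤ 1 / 2`:
  `- (1 - q) s (1 - r)`; all others `0`;
* `KF`: the used items: all served items but the halves with `b + e > c` and the halves `hubC` with `r > 1 / 2`;
* `LevC.srvF`: the bound of `rowXF` for every served item of value one;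
* **`LevC.row_served`: the share of a row without plain hosted items, all served items of value one.**
-/

set_option autoImplicit false

namespace Pool.Agent.Lib.MP_f04ccf_co

open Finset

attribute [local instance] Classical.propDecidable

section SrvF

variable {ι : Type*} {R : ℤ} {n : ℕ} {t s mu : ℕ → ℤ} {U : Finset ι} {ho : ι → ℕ} {vl : ι → ℤ}
  {kp mn : ℕ → ι → ℤ} {pc ar : ι → ℤ} {be kq NN sg : ℕ → ℕ → ℤ} {nu : ℕ → ι → ℤ} {z y : ℕ}
  {φ : ι → ℕ → ℤ} {g : ℕ → ι → ℕ} {f : ι → ℕ}

/-- the loss (mostly a gain) of a served item of value one -/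
noncomputable def lsF (R : ℤ) (t : ℕ → ℤ) (ho : ι → ℕ) (kp mn : ℕ → ι → ℤ) (be : ℕ → ℕ → ℤ)
    (g : ℕ → ι → ℕ) (f : ι → ℕ) (cp : ι × ℕ × ℕ → ℝ) (η c : ℝ) (z : ℕ) (u : ι) : ℝ :=
  if cutE kp g f u then
    (if ho u = 0 then ((mn z u : ℝ) + (1 - η * c) * be 0 (f u)) / c - cp (u, z, 0)
    else if f u = 0 ∧ rX R t ho kp mn be g f (u, z, 0) ≤ thX then
      -((1 - qX R t mn u) * (sX t ho (u, z, 0) * (1 - rX R t ho kp mn be g f (u, z, 0))))
    else 0)
  else 0

/-- the used served items -/
def UsF (R : ℤ) (t : ℕ → ℤ) (ho : ι → ℕ) (vl : ι → ℤ) (kp mn : ℕ → ι → ℤ) (be : ℕ → ℕ → ℤ)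
    (g : ℕ → ι → ℕ) (f : ι → ℕ) (z : ℕ) (u : ι) : Prop :=
  usX R t ho kp mn be g f z u ∧ (hubC ho vl kp g f u → rX R t ho kp mn be g f (u, z, 0) ≤ thX)

/-- `0 ≤ q ≤ 1` -/
lemma qX_01 (H : PCon R n t s mu U ho vl kp mn pc ar be kq NN sg nu) (hz : z < n) (hz0 : z ≠ 0)
    {u : ι} (hu : u ∈ U) : 0 ≤ qX R t mn u ∧ qX R t mn u ≤ 1 := by
  have hn : 0 < n := by have := H.n5; omega
  have h16 : 0 ≤ R - (t 0 + 1) := by
    have h17 := H.mass2 hz hz0
    have h18 := H.t0 z hz
    linarith
  have h17 : (0 : ℝ) ≤ (R : ℝ) - ((t 0 : ℝ) + 1) := by exact_mod_cast h16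
  have h18 : ((min (mn 0 u) (R - (t 0 + 1)) : ℤ) : ℝ) ≤ (R : ℝ) - ((t 0 : ℝ) + 1) := by
    have : min (mn 0 u) (R - (t 0 + 1)) ≤ R - (t 0 + 1) := min_le_right _ _
    exact_mod_cast this
  have h19 : (0 : ℝ) ≤ ((min (mn 0 u) (R - (t 0 + 1)) : ℤ) : ℝ) := by
    have : 0 ≤ min (mn 0 u) (R - (t 0 + 1)) := le_min (H.m0 u hu 0 hn) h16
    exact_mod_cast this
  unfold qX
  exact ⟨div_nonneg h19 h17, div_le_one_of_le₀ h18 h17⟩

/-- **a served item of value one in the family** -/
theorem LevC.srvF (C : LevC n U ho vl kp mn pc (phiX R t ho mn) g f)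
    (H : PCon R n t s mu U ho vl kp mn pc ar be kq NN sg nu) (hR : R ≤ 2 * (t 0 + 1))
    (hR6 : 6 ≤ R) (hz : z < n) (hz0 : z ≠ 0) {u : ι}
    (hu : u ∈ U) (hg : g z u ≠ 0) (h1 : vl u = 1) {cp : ι × ℕ × ℕ → ℝ} (hcp : cp (u, z, 0) ≤ 1) {c η : ℝ}
    (hc : c = (R : ℝ) - ((t z : ℝ) + 1)) (hc0 : 0 < c) (hη : 0 ≤ η)
    {K : Finset ι} (hKu : u ∈ K ↔ UsF R t ho vl kp mn be g f z u) :
    yIt g (fun v => max 0 (sMX cp R n t U ho vl kp mn be g f v)) z u
      ≤ (if u ∈ K then wF t z η c (ho u) * (g z u : ℝ)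
          - wF t z η c (ho u) / c * ((msP kp mn z (g z) u : ℝ) + (rnB n kp be z (ho u) u : ℝ))
          + η * (c * (g z u : ℝ) - (msP kp mn z (g z) u : ℝ)) else 0)
        + lsF R t ho kp mn be g f cp η c z u := by
  have hhz : ho u ≠ z := fun h => hg (by rw [← h]; exact C.home u hu)
  have hx := H.hlt u hu
  have hηc : 0 ≤ η * c := mul_nonneg hη hc0.le
  have ew0 : wF t z η c 0 = 1 - η * c := if_pos rfl
  have ewy : ∀ y, y ≠ 0 → wF t z η c y
      = max 0 (((t y : ℝ) + 1) / ((t z : ℝ) + 1 + ((t y : ℝ) + 1)) - η * c) := fun y hy => if_neg hy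
  have hsx : ∀ {x : ℕ}, x < n → (0 : ℝ) < (t x : ℝ) + 1 := fun {x} hx => by
    have := H.t0 x hx
    have h9 : (0 : ℝ) ≤ t x := by exact_mod_cast this
    linarith
  have hS : ho u ≠ 0 → ((t (ho u) : ℝ) + 1) / ((t (ho u) : ℝ) + 1 + ((t z : ℝ) + 1))
      ≤ wF t z η c (ho u) + η * c ∧ wF t z η c (ho u)
      ≤ ((t (ho u) : ℝ) + 1) / ((t (ho u) : ℝ) + 1 + ((t z : ℝ) + 1)) := by
    intro h
    rw [ewy _ h, add_comm ((t (ho u) : ℝ) + 1) ((t z : ℝ) + 1)]
    have h2 : 0 ≤ ((t (ho u) : ℝ) + 1) / ((t z : ℝ) + 1 + ((t (ho u) : ℝ) + 1)) :=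
      div_nonneg (hsx hx).le (by linarith [hsx hx, hsx hz])
    exact ⟨by linarith [le_max_right 0 (((t (ho u) : ℝ) + 1)
      / ((t z : ℝ) + 1 + ((t (ho u) : ℝ) + 1)) - η * c)], max_le h2 (by linarith)⟩
  by_cases hK : u ∈ K
  · rw [if_pos hK]
    obtain ⟨hus, hth⟩ := hKu.1 hK
    by_cases hcut : cutE kp g f u
    · by_cases h0 : ho u = 0
      · -- a hub half
        have e1 : lsF R t ho kp mn be g f cp η c z u
            = ((mn z u : ℝ) + (1 - η * c) * be 0 (f u)) / c - cp (u, z, 0) := by
          unfold lsF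
          rw [if_pos hcut, if_pos h0]
        have e2 : (wF t z η c (ho u) + η * c) * (1 - mn z u / c)
            - wF t z η c (ho u) * (be (ho u) (f u) / c)
            + (((mn z u : ℝ) + (1 - η * c) * be 0 (f u)) / c - cp (u, z, 0)) = 1 - cp (u, z, 0) := by
          rw [h0, ew0]
          field_simp
          ring
        rw [e1]
        refine C.srvP H hz hz0 hu hg h1 hc hc0 (fun _ h => absurd hcut h) (fun h => absurd h0 h)
          (fun _ => ?_) (fun _ _ => ?_) (fun h => absurd h0 h.2.1) (fun h => absurd h0 h)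
        · rw [e2]
          linarith
        · rw [e2]
      · by_cases hf0 : f u = 0
        · -- a half `hubC`
          have hC : hubC ho vl kp g f u := ⟨⟨h1, hcut⟩, h0, hf0⟩
          have hr2 := hth hC
          have e1 : lsF R t ho kp mn be g f cp η c z u
              = -((1 - qX R t mn u) * (sX t ho (u, z, 0) * (1 - rX R t ho kp mn be g f (u, z, 0)))) := by
            unfold lsF
            rw [if_pos hcut, if_neg h0, if_pos ⟨hf0, hr2⟩]
          obtain ⟨hS1, hS2⟩ := hS h0
          obtain ⟨m, hm, g2, g3, g4, g5, g6, g7, g8⟩ := C.one_unit H hu h1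
          have hmz : m = z := by
            by_contra hcon
            exact hg (g5 z hz (Ne.symm hcon))
          subst hmz
          have hb0 : (0 : ℝ) ≤ mn m u := by exact_mod_cast H.m0 u hu m hm
          have hbe : (0 : ℝ) ≤ be (ho u) (f u) := by
            exact_mod_cast H.be0 (ho u) (H.hlt u hu) (f u) (C.fn u hu)
          have husr : (mn m u : ℝ) + be (ho u) (f u) ≤ c := by
            have h15 := hus hcut
            rw [hc]
            exact_mod_cast h15
          set b : ℝ := mn m u / c with hb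
          set e : ℝ := be (ho u) (f u) / c with he
          have hb1 : 0 ≤ b := div_nonneg hb0 hc0.le
          have he1 : 0 ≤ e := div_nonneg hbe hc0.le
          have hbe1 : b + e ≤ 1 := by
            rw [hb, he, ← add_div, div_le_one hc0]
            exact husr
          have hrx : rX R t ho kp mn be g f (u, m, 0) = b + e := by
            unfold rX
            rw [g7]
            have e2 : ((mn m u : ℝ) + be (ho ((u, m, 0) : ι × ℕ × ℕ).1)
                (f ((u, m, 0) : ι × ℕ × ℕ).1))
                / ((R : ℝ) - ((t ((u, m, 0) : ι × ℕ × ℕ).2.1 : ℝ) + 1)) = b + e := by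
              show ((mn m u : ℝ) + be (ho u) (f u)) / ((R : ℝ) - ((t m : ℝ) + 1)) = b + e
              rw [← hc, add_div]
            rw [e2]
            exact min_eq_right hbe1
          have hrs : rS R t ho kp mn be g f (u, m, 0) = b + e := by
            unfold rS
            rw [if_pos hr2, hrx]
          have hsX : sX t ho (u, m, 0)
              = ((t (ho u) : ℝ) + 1) / ((t (ho u) : ℝ) + 1 + ((t m : ℝ) + 1)) := rfl
          set S : ℝ := ((t (ho u) : ℝ) + 1) / ((t (ho u) : ℝ) + 1 + ((t m : ℝ) + 1)) with hSd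
          have hS0 : 0 ≤ S := by
            rw [hSd]
            exact div_nonneg (hsx hx).le (by linarith [hsx hx, hsx hm])
          -- the credit is at least `S (1 - r)`
          have key : S * (1 - (b + e)) ≤ (wF t m η c (ho u) + η * c) * (1 - b)
              - wF t m η c (ho u) * e := by
            have k1 : S * (1 - b) ≤ (wF t m η c (ho u) + η * c) * (1 - b) :=
              mul_le_mul_of_nonneg_right hS1 (by linarith)
            have k2 : wF t m η c (ho u) * e ≤ S * e := mul_le_mul_of_nonneg_right hS2 he1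
            nlinarith
          rw [e1]
          refine C.srvP H hz hz0 hu hg h1 hc hc0 (fun h => absurd h h0) (fun _ h => absurd hcut h)
            (fun _ => ?_) (fun h => absurd h h0) (fun _ => ?_) (fun _ _ h => absurd hf0 h)
          · rw [hrx, hsX, ← hb, ← he]
            have hq := qX_01 H hm hz0 hu
            have k3 : 0 ≤ qX R t mn u * (S * (1 - (b + e))) :=
              mul_nonneg hq.1 (mul_nonneg hS0 (by linarith))
            nlinarith
          · rw [hrs, hrx, hsX, ← hb, ← he]
            nlinarith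
        · -- two thin ends
          have e1 : lsF R t ho kp mn be g f cp η c z u = 0 := by
            unfold lsF
            rw [if_pos hcut, if_neg h0, if_neg (fun h => hf0 h.1)]
          rw [e1]
          exact C.srvV H hz hz0 hu hg h1 hc hc0 (by
            rw [ewy _ h0]
            exact le_max_left _ _) hη le_rfl (fun h => absurd h h0) (fun _ => (hS h0).1)
            (fun h => absurd h h0) hus
    · -- full
      have e1 : lsF R t ho kp mn be g f cp η c z u = 0 := by
        unfold lsF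
        rw [if_neg hcut]
      rw [e1]
      refine C.srvP H hz hz0 hu hg h1 hc hc0 (fun h _ => ?_) (fun h _ => ?_)
        (fun h => absurd h hcut) (fun _ h => absurd h hcut) (fun h => absurd h.1.2 hcut)
        (fun _ h => absurd h hcut)
      · rw [h, ew0]
        linarith
      · have := (hS h).1
        linarith
  · rw [if_neg hK, zero_add]
    have hn := fun h => hK (hKu.2 h)
    unfold UsF at hn
    by_cases hus : usX R t ho kp mn be g f z u
    · have hC : hubC ho vl kp g f u ∧ thX < rX R t ho kp mn be g f (u, z, 0) := by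
        by_contra hcon
        push Not at hcon
        exact hn ⟨hus, hcon⟩
      obtain ⟨hC1, hr⟩ := hC
      have e1 : lsF R t ho kp mn be g f cp η c z u = 0 := by
        unfold lsF
        rw [if_pos (show cutE kp g f u from hC1.1.2), if_neg hC1.2.1, if_neg (fun h => absurd h.2 (not_le.2 hr))]
      rw [e1]
      obtain ⟨m, hm, g2, g3, g4, g5, g6, g7, g8⟩ := C.one_unit H hu h1
      have hmz : m = z := by
        by_contra hcon
        exact hg (g5 z hz (Ne.symm hcon))
      subst hmz
      have hy : yIt g (fun v => max 0 (sMX cp R n t U ho vl kp mn be g f v)) m u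
          = max 0 (sMX cp R n t U ho vl kp mn be g f (u, m, 0)) := by
        unfold yIt
        rw [g2, sum_range_one]
      rw [hy]
      refine le_of_eq (max_eq_left ?_)
      have hrs : rS R t ho kp mn be g f (u, m, 0) = 1 := by
        unfold rS
        rw [if_neg (not_le.2 hr)]
      unfold sMX
      rw [if_neg (show ho ((u, m, 0) : ι × ℕ × ℕ).1 ≠ 0 from hC1.2.1),
        if_neg (show ((u, m, 0) : ι × ℕ × ℕ).2.1 ≠ 0 from hz0),
        if_pos (show hubC ho vl kp g f ((u, m, 0) : ι × ℕ × ℕ).1 from hC1), hrs]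
      simp
    · have h4 : ho u ≠ 0 := fun h => hus (C.hub_us H hR hR6 hz hz0 hu hg h1 h)
      have hcut : cutE kp g f u := by
        by_contra hcon
        exact hus fun h => absurd h hcon
      have e1 : lsF R t ho kp mn be g f cp η c z u = 0 := by
        unfold lsF
        rw [if_pos hcut, if_neg h4, if_neg]
        rintro ⟨h5, h6⟩
        -- `r = 1`
        obtain ⟨m, hm, g2, g3, g4, g5, g6, g7, g8⟩ := C.one_unit H hu h1
        have hmz : m = z := by
          by_contra hcon
          exact hg (g5 z hz (Ne.symm hcon))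
        subst hmz
        unfold usX at hus
        push Not at hus
        obtain ⟨-, h10⟩ := hus
        have h12 : ((R - (t m + 1) : ℤ) : ℝ) < ((mn m u + be (ho u) (f u) : ℤ) : ℝ) := by
          exact_mod_cast h10
        push_cast at h12
        have hr : rX R t ho kp mn be g f (u, m, 0) = 1 := by
          unfold rX
          refine min_eq_left ?_
          rw [g7]
          show 1 ≤ ((mn m u : ℝ) + be (ho u) (f u)) / ((R : ℝ) - ((t m : ℝ) + 1))
          rw [le_div_iff₀ (by linarith)]
          linarith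
        rw [hr] at h6
        unfold thX at h6
        norm_num at h6
      rw [e1]
      exact (C.srvX0 H hz hz0 hu hg h1 h4 (by
        have h5 : (0 : ℝ) < (R : ℝ) - ((t z : ℝ) + 1) := by rw [← hc]; exact hc0
        have h6 : ((t z + 1 : ℤ) : ℝ) < (R : ℝ) := by push_cast; linarith
        exact_mod_cast h6) hus).le

/-- **THE SHARE OF A ROW WITHOUT PLAIN HOSTED ITEMS, all served items of value one** -/
theorem LevC.row_served (C : LevC n U ho vl kp mn pc (phiX R t ho mn) g f)
    (H : PCon R n t s mu U ho vl kp mn pc ar be kq NN sg nu) (hR : R ≤ 2 * (t 0 + 1))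
    (hR6 : 6 ≤ R) (hz : z < n) (hz0 : z ≠ 0) {cp : ι × ℕ × ℕ → ℝ} {Z : ℕ → ℝ} (hcp : ∀ v, cp v ≤ 1) {c η : ℝ}
    (hc : c = (R : ℝ) - ((t z : ℝ) + 1)) (hc0 : 0 < c) (hη : 0 ≤ η) (hη1 : η * c ≤ 1)
    (hs0 : hsZ U ho pc z = ∅) (hv1 : ∀ u ∈ U, g z u ≠ 0 → vl u = 1) {K : Finset ι}
    (hK : K = U.filter fun u => g z u ≠ 0 ∧ UsF R t ho vl kp mn be g f z u)
    {F : Finset (ι × ℕ × ℕ)} (hF : F ⊆ unV n U g) :
    ∑ v ∈ F.filter (fun v => ho v.1 = z), sHX Z cp R n t U ho vl kp mn be g f v
        + ∑ v ∈ F.filter (fun v => v.2.1 = z), sMX cp R n t U ho vl kp mn be g f v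
      ≤ ∑ y ∈ (range n).erase z,
          wF t z η c y * pY R n t U ho vl kp mn pc be g z (fun _ => ∅) K y
        + η * c * eT R n t U ho vl kp mn pc be g z K 1
        + ∑ u ∈ U.filter (fun u => g z u ≠ 0), lsF R t ho kp mn be g f cp η c z u := by
  have key := C.rowXF H hz hz0 (cp := cp) (Z := Z) (P := fun _ => ∅) (c := c) (η := η) hc hc0 hη hη1
    (K := K) (by
      rw [hK]
      intro u hu
      obtain ⟨h1, h2, -⟩ := mem_filter.1 hu
      exact mem_filter.2 ⟨h1, h2⟩) hF (lh := fun _ => 0)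
    (ls := fun u => lsF R t ho kp mn be g f cp η c z u)
    (fun u hu => by
      rw [hs0] at hu
      exact absurd hu (notMem_empty u))
    (fun u hu hg => C.srvF H hR hR6 hz hz0 hu hg (hv1 u hu hg) (hcp _) hc hc0 hη (by
      rw [hK]
      simp only [mem_filter]
      exact ⟨fun h => h.2.2, fun h => ⟨hu, hg, h⟩⟩))
  simp only [sum_const_zero, zero_add] at key
  exact key

end SrvF

end Pool.Agent.Lib.MP_f04ccf_co
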