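import Pool.Agent.Lib.MP_f04ccf_co.M.Fal
import Pool.Agent.Lib.MP_f04ccf_co.M.LDeg
import Pool.Agent.Lib.MP_f04ccf_co.M.RigL
import Pool.Agent.Lib.MP_f04ccf_co.M.MatI
import Pool.Agent.Lib.MP_f04ccf_co.M.Cell3

/-!
MP_f04ccf_co, PLAN W (notes 16444, 16616): the data of the whole frame.  `WBase`: a frame of least level
(`A = T`, `S = Z`, at least five rows, at least `n + 5` doubles) in a graph with the properties `GP`,
`LowD`, `LowC`, `RigU`.  `WHom`: together with homes.  `WCore`: the homes come from minimal three-sided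
covers (`Hom3`).  `WCoreK`: the homes have least weight (`WHomes`).
`final_of_wcore`, `final_of_wcoreK`: the frozen statement from the absence of such data at every `r ≥ 10`.
The theorems on `WHom`: `csys`, `wsysT`, `hom`, `bic`, `mqsys`.
-/

set_option autoImplicit false

namespace Pool.Agent.Lib.MP_f04ccf_co

open Finset

attribute [local instance] Classical.propDecidable

section WCore

variable {V : Type*} {G : SimpleGraph V} {Z T : Finset V} {hm : V → V} {r m n t p j : ℕ}

variable (G r) in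
/-- all properties of the graph of one colour -/
structure GPW : Prop extends GP G r where
  ld : LowD G r
  lc : LowC G r
  ru : RigU G r

lemma GPW_col {r : ℕ} {c : V → V → Fin r} {hc : ∀ x y, c x y = c y x} (hs : Sees c)
    (k : Fin r) : GPW (col c hc k) r :=
  ⟨GP_col (hc := hc) hs k, lowD_col (hc := hc) hs k, lowC_col (hc := hc) hs k,
    rigU_col (hc := hc) hs k⟩

variable (G Z T r m n) in
/-- a frame of least level in a graph with all properties -/
structure WBase : Prop extends FCore G Z T r m n where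
  gw : GPW G r
  low : ∀ (n' : ℕ) (Z' T' : Finset V), n' < n → Z' ⊆ Z → T' ⊆ T → ¬ PFrame G r m n' Z' T'

variable (G Z T r m n) in
/-- a frame of least level with homes -/
structure WHom (hm : V → V) : Prop extends WBase G Z T r m n where
  hh : Homes G Z T hm
  ok : ∀ v ∈ Z, hm v ∈ T ∧ hm v ∈ rws G T v

variable (G Z T r m n) in
/-- a frame of least level, homes by minimal three-sided covers -/
structure WCore (hm : V → V) : Prop extends WHom G Z T r m n hm where
  h3 : Hom3 G Z T T Z hm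

variable (G Z T r m n) in
/-- a frame of least level, homes of least weight -/
structure WCoreK (p : ℕ) (hm : V → V) : Prop extends WHom G Z T r m n hm where
  H : WHomes G Z T p 1 T Z hm

lemma WBase.ach (h : WBase G Z T r m n) : ACh G r m n Z T := ⟨h.F, h.low⟩

lemma WBase.hsys (h : WBase G Z T r m n) : HSys G Z T T Z := h.F.toPFrame.hsys

lemma WBase.cardT (h : WBase G Z T r m n) : T.card = n := h.F.cardT

lemma WBase.cardZ (h : WBase G Z T r m n) : Z.card = n * r + 1 := h.F.cardZ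

lemma WBase.five (h : WBase G Z T r m n) : 5 ≤ n := h.toFCore.five_t

/-- the number of doubles -/
lemma WBase.bb (h : WBase G Z T r m n) : n + 5 ≤ (BB G Z T).card ∧ (BB G Z T).card ≤ r :=
  ⟨h.toFCore.five_more, h.F.toPFrame.b.trans h.hmr⟩

/-- every row is in the centres; at least `n + 5` of the points of `Z` are doubles, so `n + 5 ≤ r` -/
lemma WBase.nr (h : WBase G Z T r m n) : n + 5 ≤ r := h.bb.1.trans h.bb.2

/-- a clique in the frame has less than `r` points -/
lemma WBase.hom (h : WBase G Z T r m n) : ∀ K : Finset V, K ⊆ Z → Clq G K → K.card ≤ r - 1 := by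
  intro K hK hK'
  have := h.F.omega K hK hK'
  omega

lemma WBase.mqsys (h : WBase G Z T r m n) (hj : m ≤ j) : MQSys r (JSys G Z T j) T Z :=
  h.ach.mqsys (by have := h.hr; omega) (by have := h.five; omega) hj

/-- **a closed proper part has no more than `|A| r` points** -/
lemma WBase.part (h : WBase G Z T r m n) {A S : Finset V} (hA : A ⊂ T) (hAS : A ⊆ S)
    (hS : S ⊆ Z) (ha : AlphaLe G S A.card) : S.card ≤ A.card * r :=
  h.ach.min_alpha (by have := h.hr; omega) hA hAS hS ha

/-- the slots -/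
lemma WHom.csys (h : WHom G Z T r m n hm) :
    CSys G Z T hm T fun x => Z.filter fun v => hm v = x :=
  h.hsys.csys h.F.toPFrame h.ok

/-- **the whole frame as a system of items** -/
lemma WHom.wsysT (h : WHom G Z T r m n hm) :
    WSysT G (co G) T (CP G Z T fun x => Z.filter fun v => hm v = x)
      (HP G Z T fun x => Z.filter fun v => hm v = x) (tlo G T hm) :=
  h.csys.wsysT h.F.toPFrame h.hh fun y hy => by
    have h1 := (h.ok y (h.F.toPFrame.sub hy)).2
    rw [rws_of_mem hy, mem_singleton] at h1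
    exact mem_filter.2 ⟨h.F.toPFrame.sub hy, h1⟩

/-- **the basic integers with the cap** -/
theorem WHom.bic (h : WHom G Z T r m n hm) :
    ∃ (ρ : V → ℕ) (σ : ℕ → V), Rank T (tI G Z T hm r Z) ρ σ ∧
      BIC ((r : ℤ) - 1) n (fun i => tI G Z T hm r Z (σ i)) (fun i => sI hm r Z (σ i))
        (fun i => hI G Z T hm Z (σ i)) (fun i => eI G hm Z (σ i))
        (fun i j => EI G hm Z (σ i) (σ j)) := by
  have h1 := h.hsys.bic h.F h.gp.P h.gp.M h.gp.cap h.hmr (by
    rw [h.F.cardT]
    have := h.five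
    omega) (by rw [h.F.cardT]; exact h.F.cardZ) (by rw [h.F.cardT]; exact h.F.alpha) h.ok
  rwa [h.F.cardT] at h1

/-- **items over the basic integers**: any families of items of all hosts -/
theorem WHom.isys (h : WHom G Z T r m n hm) {U : V → Finset (Itm V)}
    (hU : ∀ x ∈ T, Fam (co G) (CP G Z T fun x => Z.filter fun v => hm v = x)
      (HP G Z T fun x => Z.filter fun v => hm v = x) (tlo G T hm) x (U x))
    {host : Itm V → V} (hhost : ∀ x ∈ T, ∀ u ∈ U x, host u = x) :
    ISys G Z T hm r T Z (T.biUnion U) host (fun u => (ivl u : ℤ))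
      (fun z u => (ikp (tlo G T hm) z u : ℤ))
      (fun z u => (ims G (CP G Z T fun x => Z.filter fun v => hm v = x) (tlo G T hm) z u : ℤ))
      (fun z u => (rmr G (CP G Z T fun x => Z.filter fun v => hm v = x) (tlo G T hm) z u : ℤ)) :=
  Fam.isys h.F.toPFrame h.gp.P h.csys h.hom h.wsysT hU hhost

end WCore

section Final

/-- a frame in a graph with all properties gives a frame of least level with all properties -/
theorem exists_wbase {V : Type*} {G : SimpleGraph V} {Z T : Finset V} {r m t : ℕ}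
    (hw : GPW G r) (h : FCore G Z T r m t) :
    ∃ n ≤ t, ∃ Z' T', WBase G Z' T' r m n := by
  have hr := h.hr
  have hm := h.hmr
  obtain ⟨n, hn, Z', T', hA⟩ := h.F.exists_ach (by omega) h.gp.P
  have h5 := S2.five_le (by omega) h.gp.P h.gp.cap hA.toS2
  exact ⟨n, hn, Z', T', ⟨hr, h.gp, hA.toS2, h.hmr, by omega⟩, hw, hA.low⟩

/-- **the frozen statement from the whole frame** -/
theorem final_of_wbase
    (hS : ∀ (r : ℕ), 10 ≤ r → ∀ (G : SimpleGraph (Fin (r ^ 2 + 1))) (m n : ℕ)
      (Z T : Finset (Fin (r ^ 2 + 1))), ¬ WBase G Z T r m n) :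
    ∀ r : ℕ, 3 ≤ r → ∀ c : Fin (r ^ 2 + 1) → Fin (r ^ 2 + 1) → Fin r,
      (∀ x y, c x y = c y x) →
      ∃ S : Finset (Fin (r ^ 2 + 1)), S.card = r + 1 ∧
        ∃ k : Fin r, ∀ x ∈ S, ∀ y ∈ S, x ≠ y → c x y ≠ k := by
  refine final_of_frames_col ?_
  intro r hr c hc hs k m t Z T h1 h2 hF
  rcases Nat.lt_or_ge 9 r with h9 | h9
  · have hC : FCore (col c hc k) Z T r m t := ⟨by omega, GP_col hs k, hF, h1, h2⟩
    obtain ⟨n, -, Z', T', hW⟩ := exists_wbase (GPW_col (hc := hc) hs k) hC
    exact hS r h9 _ m n Z' T' hW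
  · rcases Nat.lt_or_ge 8 r with h8 | h8
    · obtain rfl : r = 9 := by omega
      obtain ⟨S, hSc, k, hk⟩ := good_nine c hc
      obtain ⟨x, hx, y, hy, hxy, h⟩ := hs S hSc k
      exact hk x hx y hy hxy h
    · obtain rfl : r = 8 := by omega
      obtain ⟨S, hSc, k, hk⟩ := good_eight c hc
      obtain ⟨x, hx, y, hy, hxy, h⟩ := hs S hSc k
      exact hk x hx y hy hxy h

/-- **the frozen statement from `WCore`** -/
theorem final_of_wcore
    (hS : ∀ (r : ℕ), 10 ≤ r → ∀ (G : SimpleGraph (Fin (r ^ 2 + 1))) (m n : ℕ)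
      (Z T : Finset (Fin (r ^ 2 + 1))) (hm : Fin (r ^ 2 + 1) → Fin (r ^ 2 + 1)),
      ¬ WCore G Z T r m n hm) :
    ∀ r : ℕ, 3 ≤ r → ∀ c : Fin (r ^ 2 + 1) → Fin (r ^ 2 + 1) → Fin r,
      (∀ x y, c x y = c y x) →
      ∃ S : Finset (Fin (r ^ 2 + 1)), S.card = r + 1 ∧
        ∃ k : Fin r, ∀ x ∈ S, ∀ y ∈ S, x ≠ y → c x y ≠ k := by
  refine final_of_wbase fun r hr G m n Z T h => ?_
  obtain ⟨hm, h1, h2, h3⟩ := h.hsys.exists_homes3 h.F.toPFrame
  exact hS r hr G m n Z T hm ⟨⟨h, h1, h2⟩, h3⟩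

/-- **the frozen statement from `WCoreK`**, any weights `p r`; cf. `final_whole` -/
theorem final_of_wcoreK (p : ℕ → ℕ)
    (hS : ∀ (r : ℕ), 10 ≤ r → ∀ (G : SimpleGraph (Fin (r ^ 2 + 1))) (m n : ℕ)
      (Z T : Finset (Fin (r ^ 2 + 1))) (hm : Fin (r ^ 2 + 1) → Fin (r ^ 2 + 1)),
      ¬ WCoreK G Z T r m n (p r) hm) :
    ∀ r : ℕ, 3 ≤ r → ∀ c : Fin (r ^ 2 + 1) → Fin (r ^ 2 + 1) → Fin r,
      (∀ x y, c x y = c y x) →
      ∃ S : Finset (Fin (r ^ 2 + 1)), S.card = r + 1 ∧
        ∃ k : Fin r, ∀ x ∈ S, ∀ y ∈ S, x ≠ y → c x y ≠ k := by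
  refine final_of_wbase fun r hr G m n Z T h => ?_
  obtain ⟨hm, hH⟩ := h.hsys.exists_whomes (p r) 1
  exact hS r hr G m n Z T hm ⟨⟨h, hH.hh, hH.ok⟩, hH⟩

end Final

end Pool.Agent.Lib.MP_f04ccf_co
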