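import Pool.Agent.Lib.MP_f04ccf_co.M.StarS
import Pool.Agent.Lib.MP_f04ccf_co.M.WCore

/-!
MP_f04ccf_co, the star worlds: the facts of the frame.  `x` is a row, all other rows have classes of
`r - 1` points, `S` consists of the class of `x` and of doubles adjacent to `x`.
-/

set_option autoImplicit false

namespace Pool.Agent.Lib.MP_f04ccf_co

open Finset

attribute [local instance] Classical.propDecidable

section StarA

variable {V : Type*} {G : SimpleGraph V} {Z T S : Finset V} {r m n t : ℕ} {x : V}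

lemma three_adj {S : Finset V} (h : AlphaLe G S 2) {a b c : V} (ha : a ∈ S) (hb : b ∈ S)
    (hc : c ∈ S) (hab : a ≠ b) (hac : a ≠ c) (hbc : b ≠ c) :
    G.Adj a b ∨ G.Adj a c ∨ G.Adj b c := by
  by_contra h0
  push Not at h0
  obtain ⟨h1, h2, h3⟩ := h0
  have h4 := h {a, b, c} (by
    intro y hy
    simp only [mem_insert, mem_singleton] at hy
    rcases hy with rfl | rfl | rfl
    · exact ha
    · exact hb
    · exact hc) (by
    intro y hy z hz
    simp only [mem_insert, mem_singleton] at hy hz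
    rcases hy with rfl | rfl | rfl <;> rcases hz with rfl | rfl | rfl <;>
      first
        | exact G.loopless.irrefl _
        | assumption
        | (intro h5; exact absurd h5.symm (by assumption)))
  rw [card_insert_of_notMem (by simp [hab, hac]), card_insert_of_notMem (by simp [hbc]),
    card_singleton] at h4
  omega

lemma four_adj {S : Finset V} (h : AlphaLe G S 3) {a b c d : V} (ha : a ∈ S) (hb : b ∈ S)
    (hc : c ∈ S) (hd : d ∈ S) (hab : a ≠ b) (hac : a ≠ c) (had : a ≠ d) (hbc : b ≠ c)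
    (hbd : b ≠ d) (hcd : c ≠ d) :
    G.Adj a b ∨ G.Adj a c ∨ G.Adj a d ∨ G.Adj b c ∨ G.Adj b d ∨ G.Adj c d := by
  by_contra h0
  push Not at h0
  obtain ⟨h1, h2, h3, h5, h6, h7⟩ := h0
  have h4 := h {a, b, c, d} (by
    intro y hy
    simp only [mem_insert, mem_singleton] at hy
    rcases hy with rfl | rfl | rfl | rfl
    · exact ha
    · exact hb
    · exact hc
    · exact hd) (by
    intro y hy z hz
    simp only [mem_insert, mem_singleton] at hy hz
    rcases hy with rfl | rfl | rfl | rfl <;> rcases hz with rfl | rfl | rfl | rfl <;>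
      first
        | exact G.loopless.irrefl _
        | assumption
        | (intro h5; exact absurd h5.symm (by assumption)))
  rw [card_insert_of_notMem (by simp [hab, hac, had]), card_insert_of_notMem (by simp [hbc, hbd]),
    card_insert_of_notMem (by simp [hcd]), card_singleton] at h4
  omega

variable (G T) in
/-- the other row of a double of the row `x` -/
noncomputable def tlS (x v : V) : V :=
  if h : ∃ z, z ≠ x ∧ ends G T v = {x, z} then h.choose else x

lemma tlS_spec {v : V} (h : ∃ z, z ≠ x ∧ ends G T v = {x, z}) :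
    tlS G T x v ≠ x ∧ ends G T v = {x, tlS G T x v} := by
  unfold tlS
  rw [dif_pos h]
  exact h.choose_spec

/-- all facts about the row `x` -/
structure StX (G : SimpleGraph V) (Z T S : Finset V) (r : ℕ) (x : V) : Prop where
  hx : x ∈ T
  hS : S ⊆ Z
  hC : Cl G Z T x ⊆ S
  hD : ∀ v ∈ S, v ∉ Cl G Z T x → v ∈ BB G Z T ∧ G.Adj v x
  cl : ∀ z ∈ T.erase x, (Cl G Z T z).card + 1 = r

lemma StX.tl (h : StX G Z T S r x) {v : V} (hv : v ∈ S) (hv' : v ∉ Cl G Z T x) :
    tlS G T x v ∈ T.erase x ∧ ends G T v = {x, tlS G T x v} := by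
  obtain ⟨h1, h2⟩ := h.hD v hv hv'
  obtain ⟨y, hyx, hy, he⟩ := ends_other h1 (mem_ends.2 ⟨h.hx, h2⟩)
  have h3 := tlS_spec (G := G) (T := T) (x := x) (v := v) ⟨y, hyx, he⟩
  refine ⟨mem_erase.2 ⟨h3.1, ?_⟩, h3.2⟩
  have h4 : tlS G T x v ∈ ends G T v := by rw [h3.2]; simp
  exact (mem_ends.1 h4).1

lemma StX.zi_double (h : StX G Z T S r x) {v : V} (hv : v ∈ S) (hv' : v ∉ Cl G Z T x)
    {I : Finset V} (hI : {x, tlS G T x v} ⊆ I) : v ∈ ZI G Z T I :=
  PFrame.mem_ZI_of_BB (h.hD v hv hv').1 (by rw [(h.tl hv hv').2]; exact hI)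

lemma zi_Cl {z v : V} {I : Finset V} (hz : z ∈ I) (hv : v ∈ Cl G Z T z) (hT : z ∈ T)
    (hF : PFrame G r m t Z T) : v ∈ ZI G Z T I := by
  have h1 := hF.Cl_sub_ZI hT hv
  exact PFrame.ZI_mono (singleton_subset_iff.2 hz) h1

/-- the non-edges between a set and a class -/
lemma sum_nd_dg {A C : Finset V} (hd : Disjoint A C) :
    ∑ v ∈ C, (nd G A v : ℤ) = (A.card : ℤ) * C.card - ∑ v ∈ A, (dg G C v : ℤ) := by
  have h1 := nd_comm (G := G) A C
  have h2 : ∀ v ∈ A, ((nd G C v : ℤ)) = (C.card : ℤ) - dg G C v := by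
    intro v hv
    have := nd_of_notMem (G := G) (disjoint_left.1 hd hv)
    omega
  have h3 : ∑ v ∈ C, (nd G A v : ℤ) = ∑ v ∈ A, (nd G C v : ℤ) := by
    exact_mod_cast h1.symm
  rw [h3, sum_congr rfl h2, sum_sub_distrib, sum_const, nsmul_eq_mul]

lemma NE_union_clq {A C : Finset V} (hd : Disjoint A C) (hC : Clq G C) :
    (NE G (A ∪ C) : ℤ) = NE G A + 2 * ((A.card : ℤ) * C.card - ∑ v ∈ A, (dg G C v : ℤ)) := by
  rw [← sum_nd_dg hd]
  have h1 := NE_union (G := G) hd
  rw [NE_clq hC] at h1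
  have h2 : (NE G (A ∪ C) : ℤ) = (NE G A : ℤ) + (0 : ℕ) + 2 * ∑ v ∈ C, (nd G A v : ℤ) := by
    exact_mod_cast h1
  rw [h2]
  push_cast
  ring

lemma StX.disj (h : StX G Z T S r x) {z : V} (hz : z ∈ T.erase x) :
    Disjoint S (Cl G Z T z) := by
  rw [mem_erase] at hz
  rw [disjoint_left]
  intro v hv hvz
  by_cases hc : v ∈ Cl G Z T x
  · exact disjoint_left.1 (PFrame.Cl_disjoint h.hx hz.2 hz.1.symm) hc hvz
  · exact disjoint_left.1 (PFrame.BB_disjoint_Cl hz.2) hvz (h.hD v hv hc).1

lemma StX.up1 (h : StX G Z T S r x) (hF : PFrame G r m t Z T) (hP : PG G r) {z : V}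
    (hz : z ∈ T.erase x) {W : Finset V} (hW : W ⊆ S) (q : ℤ) :
    ((r : ℤ) - 1) * (2 * q * ((W.card : ℤ) + (r - 1)) - r * q * (q + 1)) ≤
      NE G W + 2 * ((W.card : ℤ) * (r - 1) - ∑ v ∈ W, (dg G (Cl G Z T z) v : ℤ)) := by
  have hd : Disjoint W (Cl G Z T z) := disjoint_of_subset_left hW (h.disj hz)
  have h1 := hP.ne (W ∪ Cl G Z T z) q
  rw [NE_union_clq hd (hF.Cl_clq (mem_of_mem_erase hz)), card_union_of_disjoint hd] at h1
  have h2 := h.cl z hz
  have h3 : ((Cl G Z T z).card : ℤ) = r - 1 := by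
    have : ((Cl G Z T z).card : ℤ) + 1 = r := by exact_mod_cast h2
    linarith
  push_cast at h1
  rw [h3] at h1
  exact h1

/-- the hits of two missing points of the same tail -/
lemma StX.full (h : StX G Z T S r x) (hF : PFrame G r m t Z T) {z p q : V}
    (hz : z ∈ T.erase x) (hp : p ∈ ZI G Z T {x, z}) (hq : q ∈ ZI G Z T {x, z})
    (hpS : p ∈ S) (hqS : q ∈ S) (hpq : p ≠ q) (hn : ¬ G.Adj p q) :
    r - 1 ≤ dg G (Cl G Z T z) p + dg G (Cl G Z T z) q := by
  have hzT := mem_of_mem_erase hz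
  have hI : ({x, z} : Finset V) ⊆ T := by
    intro y hy
    simp only [mem_insert, mem_singleton] at hy
    rcases hy with rfl | rfl
    · exact h.hx
    · exact hzT
  have ha := hF.alpha_ZI hI
  rw [card_pair (mem_erase.1 hz).1.symm] at ha
  have hc : Cl G Z T z ⊆ ((Cl G Z T z).filter fun w => G.Adj p w) ∪
      (Cl G Z T z).filter fun w => G.Adj q w := by
    intro c hc
    have h1 := zi_Cl (G := G) (z := z) (I := {x, z}) (by simp) hc hzT hF
    have h2 : p ≠ c := fun e => disjoint_left.1 (h.disj hz) hpS (e ▸ hc)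
    have h3 : q ≠ c := fun e => disjoint_left.1 (h.disj hz) hqS (e ▸ hc)
    rcases three_adj ha hp hq h1 hpq h2 h3 with h4 | h4 | h4
    · exact absurd h4 hn
    · exact mem_union.2 (Or.inl (mem_filter.2 ⟨hc, h4⟩))
    · exact mem_union.2 (Or.inr (mem_filter.2 ⟨hc, h4⟩))
  have h1 := (card_le_card hc).trans (card_union_le _ _)
  have h2 := h.cl z hz
  unfold dg
  omega

/-- the edges between two classes of `r - 1` points -/
lemma StX.cc (h : StX G Z T S r x) (hF : PFrame G r m t Z T) (hP : PG G r) {z z' : V}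
    (hz : z ∈ T.erase x) (hz' : z' ∈ T.erase x) (hne : z ≠ z') :
    (∑ v ∈ Cl G Z T z, dg G (Cl G Z T z') v) + 1 ≤ r := by
  have hd := PFrame.Cl_disjoint (G := G) (Z := Z) (mem_of_mem_erase hz) (mem_of_mem_erase hz') hne
  have h1 := hP.ne1 (Cl G Z T z ∪ Cl G Z T z')
  rw [NE_union_clq hd (hF.Cl_clq (mem_of_mem_erase hz')), card_union_of_disjoint hd,
    NE_clq (hF.Cl_clq (mem_of_mem_erase hz))] at h1
  have h3 : ((Cl G Z T z).card : ℤ) = r - 1 := by
    have : ((Cl G Z T z).card : ℤ) + 1 = r := by exact_mod_cast h.cl z hz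
    linarith
  have h4 : ((Cl G Z T z').card : ℤ) = r - 1 := by
    have : ((Cl G Z T z').card : ℤ) + 1 = r := by exact_mod_cast h.cl z' hz'
    linarith
  push_cast at h1
  rw [h3, h4] at h1
  have h5 : (∑ v ∈ Cl G Z T z, (dg G (Cl G Z T z') v : ℤ)) ≤ r - 1 := by nlinarith
  have h6 : ((∑ v ∈ Cl G Z T z, dg G (Cl G Z T z') v : ℕ) : ℤ) + 1 ≤ r := by
    push_cast
    linarith
  exact_mod_cast h6

/-- two missing doubles with different tails -/
lemma StX.cross (h : StX G Z T S r x) (hF : PFrame G r m t Z T) (hP : PG G r) {p q : V}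
    (hp : p ∈ S) (hpC : p ∉ Cl G Z T x) (hq : q ∈ S) (hqC : q ∉ Cl G Z T x)
    (hn : ¬ G.Adj p q) (hne : tlS G T x p ≠ tlS G T x q) :
    (r - 1 - (dg G (Cl G Z T (tlS G T x p)) p + dg G (Cl G Z T (tlS G T x p)) q)) *
      (r - 1 - (dg G (Cl G Z T (tlS G T x q)) p + dg G (Cl G Z T (tlS G T x q)) q)) ≤ r - 1 := by
  have hp' := h.tl hp hpC
  have hq' := h.tl hq hqC
  set z := tlS G T x p with hzd
  set z' := tlS G T x q with hzd'
  have hpq : p ≠ q := by
    intro e
    apply hne
    rw [hzd, hzd', e]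
  have hzx := (mem_erase.1 hp'.1).1
  have hzx' := (mem_erase.1 hq'.1).1
  have hI : ({x, z, z'} : Finset V) ⊆ T := by
    intro y hy
    simp only [mem_insert, mem_singleton] at hy
    rcases hy with rfl | rfl | rfl
    · exact h.hx
    · exact mem_of_mem_erase hp'.1
    · exact mem_of_mem_erase hq'.1
  have ha := hF.alpha_ZI hI
  rw [card_insert_of_notMem (by simp [hzx.symm, hzx'.symm]), card_pair hne] at ha
  have hpI : p ∈ ZI G Z T {x, z, z'} := h.zi_double hp hpC (by
    intro y hy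
    simp only [mem_insert, mem_singleton] at hy ⊢
    tauto)
  have hqI : q ∈ ZI G Z T {x, z, z'} := h.zi_double hq hqC (by
    intro y hy
    simp only [mem_insert, mem_singleton] at hy ⊢
    tauto)
  set A := (Cl G Z T z).filter fun c => ¬ G.Adj p c ∧ ¬ G.Adj q c with hA
  set A' := (Cl G Z T z').filter fun c => ¬ G.Adj p c ∧ ¬ G.Adj q c with hA'
  have key : ∀ c ∈ A, ∀ c' ∈ A', G.Adj c c' := by
    intro c hc c' hc'
    obtain ⟨h1, h2, h3⟩ := mem_filter.1 hc
    obtain ⟨h4, h5, h6⟩ := mem_filter.1 hc'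
    have h7 := zi_Cl (G := G) (z := z) (I := {x, z, z'}) (by simp) h1 (mem_of_mem_erase hp'.1) hF
    have h8 := zi_Cl (G := G) (z := z') (I := {x, z, z'}) (by simp) h4
      (mem_of_mem_erase hq'.1) hF
    have e1 : p ≠ c := fun e => disjoint_left.1 (h.disj hp'.1) hp (e ▸ h1)
    have e2 : q ≠ c := fun e => disjoint_left.1 (h.disj hp'.1) hq (e ▸ h1)
    have e3 : p ≠ c' := fun e => disjoint_left.1 (h.disj hq'.1) hp (e ▸ h4)
    have e4 : q ≠ c' := fun e => disjoint_left.1 (h.disj hq'.1) hq (e ▸ h4)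
    have e5 : c ≠ c' := fun e => disjoint_left.1 (PFrame.Cl_disjoint (G := G) (Z := Z)
      (mem_of_mem_erase hp'.1) (mem_of_mem_erase hq'.1) hne) h1 (e ▸ h4)
    rcases four_adj (a := p) (b := q) (c := c) (d := c') ha hpI hqI h7 h8 hpq e1 e3 e2 e4 e5 with
      h9 | h9 | h9 | h9 | h9 | h9
    · exact absurd h9 hn
    · exact absurd h9 h2
    · exact absurd h9 h5
    · exact absurd h9 h3
    · exact absurd h9 h6
    · exact h9
  have hprod : A.card * A'.card ≤ ∑ v ∈ Cl G Z T z, dg G (Cl G Z T z') v := by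
    calc A.card * A'.card = ∑ _v ∈ A, A'.card := by rw [sum_const, smul_eq_mul]
      _ ≤ ∑ v ∈ A, dg G (Cl G Z T z') v := by
        refine sum_le_sum fun c hc => card_le_card ?_
        intro c' hc'
        exact mem_filter.2 ⟨(mem_filter.1 hc').1, key c hc c' hc'⟩
      _ ≤ _ := sum_le_sum_of_subset (filter_subset _ _)
  have hcc := h.cc hF hP hp'.1 hq'.1 hne
  have hcard : ∀ y ∈ T.erase x, r - 1 - (dg G (Cl G Z T y) p + dg G (Cl G Z T y) q) ≤
      ((Cl G Z T y).filter fun c => ¬ G.Adj p c ∧ ¬ G.Adj q c).card := by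
    intro y hy
    have h1 : Cl G Z T y ⊆ (((Cl G Z T y).filter fun w => G.Adj p w) ∪
        (Cl G Z T y).filter fun w => G.Adj q w) ∪
          (Cl G Z T y).filter fun c => ¬ G.Adj p c ∧ ¬ G.Adj q c := by
      intro c hc
      simp only [mem_union, mem_filter]
      tauto
    have h2 := (card_le_card h1).trans ((card_union_le _ _).trans
      (Nat.add_le_add_right (card_union_le _ _) _))
    have h3 := h.cl y hy
    unfold dg
    omega
  have h1 := Nat.mul_le_mul (hcard z hp'.1) (hcard z' hq'.1)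
  rw [← hA, ← hA'] at h1
  omega

/-- the class of the hub: the points of `Z` are the classes and the doubles -/
lemma StX.cardC (h : StX G Z T S r x) (hF : PFrame G r m 5 Z T) :
    (Cl G Z T x).card + (BB G Z T).card + 4 * (r - 1) = 5 * r + 1 := by
  have h1 := hF.card_split
  rw [hF.cardZ, ← add_sum_erase T _ h.hx] at h1
  have h2 : ∑ z ∈ T.erase x, (Cl G Z T z).card = ∑ _z ∈ T.erase x, (r - 1) :=
    sum_congr rfl fun z hz => by
      have := h.cl z hz
      omega
  rw [h2, sum_const, card_erase_of_mem h.hx, hF.cardT, smul_eq_mul] at h1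
  omega

/-- the doubles with a given tail -/
lemma StX.hl (h : StX G Z T S r x) (hF : S2 G r m 5 Z T) (hb : (BB G Z T).card ≤ r) (hr : 1 ≤ r)
    {z : V} (hz : z ∈ T.erase x) :
    (S.filter fun v => v ∉ Cl G Z T x ∧ tlS G T x v = z).card + 3 ≤ r - 1 := by
  have hzT := mem_of_mem_erase hz
  have hI : ({x, z} : Finset V) ⊂ T := by
    have h1 : ({x, z} : Finset V) ⊆ T := by
      intro y hy
      simp only [mem_insert, mem_singleton] at hy
      rcases hy with rfl | rfl
      · exact h.hx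
      · exact hzT
    refine ⟨h1, fun h2 => ?_⟩
    have h3 := card_le_card h2
    rw [card_pair (mem_erase.1 hz).1.symm, hF.cardT] at h3
    omega
  have h1 := hF.hall _ hI
  rw [card_pair (mem_erase.1 hz).1.symm] at h1
  set F := S.filter fun v => v ∉ Cl G Z T x ∧ tlS G T x v = z with hFd
  have h2 : (Cl G Z T x ∪ Cl G Z T z) ∪ F ⊆ ZI G Z T {x, z} := by
    intro v hv
    rcases mem_union.1 hv with hv | hv
    · rcases mem_union.1 hv with hv | hv
      · exact zi_Cl (G := G) (z := x) (by simp) hv h.hx hF.toPFrame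
      · exact zi_Cl (G := G) (z := z) (by simp) hv hzT hF.toPFrame
    · obtain ⟨h3, h4, h5⟩ := mem_filter.1 hv
      exact h.zi_double h3 h4 (by rw [h5])
  have h3 := card_le_card h2
  have d1 : Disjoint (Cl G Z T x) (Cl G Z T z) :=
    PFrame.Cl_disjoint h.hx hzT (mem_erase.1 hz).1.symm
  have d2 : Disjoint (Cl G Z T x ∪ Cl G Z T z) F := by
    rw [disjoint_union_left]
    constructor
    · rw [disjoint_left]
      intro v hv hv'
      exact (mem_filter.1 hv').2.1 hv
    · exact (disjoint_of_subset_left (filter_subset _ _) (h.disj hz)).symm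
  rw [card_union_of_disjoint d2, card_union_of_disjoint d1] at h3
  have h4 := h.cardC hF.toPFrame
  have h5 := h.cl z hz
  omega

/-- **the system of the hub**, all facts.  For an inactive row a set `Y` with `r` points, at most two
missing pairs, containing the class. -/
theorem StX.starSys (h : StX G Z T S r x) (hF : S2 G r m 5 Z T) (hP : PG G r)
    (hb : (BB G Z T).card ≤ r) (hr : 10 ≤ r) {act : V → Prop}
    (hact : ∀ z ∈ T.erase x, ¬ act z → ∃ Y, Cl G Z T z ⊆ Y ∧ Disjoint S Y ∧ Y.card = r ∧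
      NE G Y ≤ 4) :
    StarSys (r - 1) G S (Cl G Z T x) (T.erase x) act (tlS G T x)
      (fun z v => dg G (Cl G Z T z) v) := by
  have hR : ((r - 1 : ℕ) : ℤ) = (r : ℤ) - 1 := by omega
  constructor
  · exact h.hC
  · exact fun v hv hv' => (h.tl hv hv').1
  · intro W hW
    have h1 := hP.ne1 W
    rw [hR]
    linarith
  · intro z hz _ W hW
    have h1 := h.up1 hF.toPFrame hP hz hW 1
    have h2 : (2 : ℤ) * ∑ v ∈ W, (dg G (Cl G Z T z) v : ℤ) ≤ 2 * (r - 1) + NE G W := by
      nlinarith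
    have h3 : ((2 * ∑ v ∈ W, dg G (Cl G Z T z) v : ℕ) : ℤ) ≤
        ((2 * (r - 1) + NE G W : ℕ) : ℤ) := by
      push_cast
      rw [hR]
      exact h2
    exact_mod_cast h3
  · intro z hz _ W hW
    have h1 := h.up1 hF.toPFrame hP hz hW 2
    rw [hR]
    nlinarith
  · intro z hz hz' p hp q hq hpq
    obtain ⟨Y, hY1, hY2, hY3, hY4⟩ := hact z hz hz'
    have hd : Disjoint ({p, q} : Finset V) Y := by
      refine disjoint_of_subset_left ?_ hY2
      intro y hy
      simp only [mem_insert, mem_singleton] at hy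
      rcases hy with rfl | rfl
      · exact hp
      · exact hq
    have h1 := hP.ne1 ({p, q} ∪ Y)
    have h2 := NE_union (G := G) hd
    have h3 : ((∑ v ∈ Y, nd G {p, q} v : ℕ) : ℤ) = (2 : ℤ) * r - (dg G Y p + dg G Y q) := by
      have h4 := sum_nd_dg (G := G) hd
      rw [card_pair hpq, hY3, sum_pair hpq] at h4
      push_cast at h4 ⊢
      exact h4
    have h4 := NE_le (G := G) ({p, q} : Finset V)
    rw [card_pair hpq] at h4
    have h5 : (({p, q} ∪ Y).card : ℤ) = r + 2 := by
      rw [card_union_of_disjoint hd, card_pair hpq, hY3]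
      push_cast
      ring
    have h6 := dg_mono G hY1 p
    have h7 := dg_mono G hY1 q
    rw [h5] at h1
    have h8 : (NE G ({p, q} ∪ Y) : ℤ) = NE G ({p, q} : Finset V) + NE G Y +
        2 * ((∑ v ∈ Y, nd G {p, q} v : ℕ) : ℤ) := by exact_mod_cast h2
    rw [h3] at h8
    have h9 : (NE G ({p, q} : Finset V) : ℤ) ≤ 2 := by exact_mod_cast h4
    have h10 : (NE G Y : ℤ) ≤ 4 := by exact_mod_cast hY4
    have h11 : (dg G Y p : ℤ) + dg G Y q ≤ 5 := by linarith
    have h12 : dg G Y p + dg G Y q ≤ 5 := by exact_mod_cast h11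
    show dg G (Cl G Z T z) p + dg G (Cl G Z T z) q ≤ 5
    omega
  · intro p hp hpC q hq hqC hpq hn he
    exact h.full hF.toPFrame (h.tl hp hpC).1 (h.zi_double hp hpC (by simp))
      (h.zi_double hq hqC (by rw [he])) hp hq hpq hn
  · intro p hp hpC a ha hn
    refine h.full hF.toPFrame (h.tl hp hpC).1 (h.zi_double hp hpC (by simp))
      (zi_Cl (G := G) (z := x) (by simp) ha h.hx hF.toPFrame) hp (h.hC ha) ?_ hn
    rintro rfl
    exact hpC ha
  · intro p hp hpC q hq hqC hn hne
    exact h.cross hF.toPFrame hP hp hpC hq hqC hn hne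
  · exact hF.toPFrame.Cl_clq h.hx
  · intro p hp hpC q hq hqC hpq he y hy hyp hyq hyc
    have hI : ({x, tlS G T x p} : Finset V) ⊆ T := by
      intro y hy
      simp only [mem_insert, mem_singleton] at hy
      rcases hy with rfl | rfl
      · exact h.hx
      · exact mem_of_mem_erase (h.tl hp hpC).1
    have ha := hF.toPFrame.alpha_ZI hI
    rw [card_pair (mem_erase.1 (h.tl hp hpC).1).1.symm] at ha
    refine three_adj ha (h.zi_double hp hpC (by simp)) (h.zi_double hq hqC (by rw [he])) ?_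
      hpq (Ne.symm hyp) (Ne.symm hyq)
    by_cases hyC : y ∈ Cl G Z T x
    · exact zi_Cl (G := G) (z := x) (by simp) hyC h.hx hF.toPFrame
    · rcases hyc with h1 | h1
      · exact absurd h1 hyC
      · exact h.zi_double hy hyC (by rw [h1])
  · refine ⟨x, hF.toPFrame.self_mem_Cl h.hx, ?_, ?_⟩
    · intro v hv hvx
      by_cases hvC : v ∈ Cl G Z T x
      · exact hF.toPFrame.Cl_clq h.hx x (hF.toPFrame.self_mem_Cl h.hx) v hvC hvx.symm
      · exact (h.hD v hv hvC).2.symm
    · intro z hz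
      show dg G (Cl G Z T z) x = 0
      unfold dg
      rw [card_eq_zero, filter_eq_empty_iff]
      intro c hc hxc
      exact hF.toPFrame.Cl_not_adj (mem_of_mem_erase hz) h.hx (mem_erase.1 hz).1.symm hc hxc.symm
  · intro z hz
    exact h.hl hF hb (by omega) hz
  · exact AlphaLe.mono G hF.toPFrame.alpha h.hS

end StarA

end Pool.Agent.Lib.MP_f04ccf_co
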