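import Pool.Agent.Lib.MP_f04ccf_co.M.StarPW
import Pool.Agent.Lib.MP_f04ccf_co.M.PM

/-!
MP_f04ccf_co: the star inequality of a closed system with MULTIPLICITIES (property (PM) of helper79,
note 15647).  `CSys.cross`: the adjacencies between different slot parts with weights.
`MSys.NE_union_eq`: the missing pairs of the whole system.  `MSys.star_pm`: the points of a set `W`
are counted twice.  `CSys.star_om`: the slot part `S x` is counted `om x` times, any slope `q`.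
-/

set_option autoImplicit false

namespace Pool.Agent.Lib.MP_f04ccf_co

open Finset

attribute [local instance] Classical.propDecidable

section StarPM

variable {V : Type*} {G : SimpleGraph V} {Z T : Finset V} {hm : V → V} {r m t : ℕ}

/-- the adjacencies between two slot parts -/
lemma sum_dg_slots {S : V → Finset V} (x y : V) :
    ∑ v ∈ S y, (dg G (S x) v : ℤ)
      = ∑ c ∈ CP G Z T S y, (dg G (HP G Z T S x) c : ℤ)
        + ∑ c ∈ CP G Z T S x, (dg G (HP G Z T S y) c : ℤ)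
        + ∑ c ∈ CP G Z T S y, (dg G (CP G Z T S x) c : ℤ)
        + ∑ v ∈ HP G Z T S y, (dg G (HP G Z T S x) v : ℤ) := by
  have a2 : ∑ v ∈ S y, (dg G (S x) v : ℤ)
      = ∑ v ∈ S y, ((dg G (CP G Z T S x) v : ℤ) + dg G (HP G Z T S x) v) := by
    refine sum_congr rfl fun v _ => ?_
    rw [dg_CP_HP (G := G) (Z := Z) (T := T) (S := S) (x := x) (v := v)]
    push_cast
    rfl
  have a3 : ∀ f : V → ℤ, ∑ v ∈ S y, f v = ∑ v ∈ CP G Z T S y, f v
      + ∑ v ∈ HP G Z T S y, f v := by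
    intro f
    rw [← sum_union CP_HP_disjoint, CP_union_HP]
  have a4 : ∑ v ∈ HP G Z T S y, (dg G (CP G Z T S x) v : ℤ)
      = ∑ c ∈ CP G Z T S x, (dg G (HP G Z T S y) c : ℤ) := by
    have := dg_comm G (HP G Z T S y) (CP G Z T S x)
    exact_mod_cast this
  rw [a2, a3, sum_add_distrib, sum_add_distrib, a4]
  ring

/-- the weighted adjacencies between different slot parts -/
lemma sum_dg_cross (A : Finset V) {S : V → Finset V} (ω : V → ℤ) :
    ∑ x ∈ A, ∑ y ∈ A.erase x, ω x * ω y * ∑ v ∈ S y, (dg G (S x) v : ℤ)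
      = 2 * ∑ x ∈ A, ∑ y ∈ A.erase x, ω x * ω y
          * ∑ c ∈ CP G Z T S y, (dg G (HP G Z T S x) c : ℤ)
        + ∑ x ∈ A, ∑ y ∈ A.erase x, ω x * ω y
          * ∑ c ∈ CP G Z T S y, (dg G (CP G Z T S x) c : ℤ)
        + ∑ x ∈ A, ∑ y ∈ A.erase x, ω x * ω y
          * ∑ v ∈ HP G Z T S y, (dg G (HP G Z T S x) v : ℤ) := by
  have a5 : ∑ x ∈ A, ∑ y ∈ A.erase x, ω x * ω y
        * ∑ c ∈ CP G Z T S x, (dg G (HP G Z T S y) c : ℤ)
      = ∑ x ∈ A, ∑ y ∈ A.erase x, ω x * ω y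
        * ∑ c ∈ CP G Z T S y, (dg G (HP G Z T S x) c : ℤ) := by
    rw [sum_offdiag A fun x y => ω x * ω y * ∑ c ∈ CP G Z T S x, (dg G (HP G Z T S y) c : ℤ),
      sum_offdiag A fun x y => ω x * ω y * ∑ c ∈ CP G Z T S y, (dg G (HP G Z T S x) c : ℤ),
      sum_comm]
    congr 1
    · refine sum_congr rfl fun x _ => sum_congr rfl fun y _ => ?_
      ring
  have a6 : ∑ x ∈ A, ∑ y ∈ A.erase x, ω x * ω y * ∑ v ∈ S y, (dg G (S x) v : ℤ)
      = ∑ x ∈ A, ∑ y ∈ A.erase x, (ω x * ω y * ∑ c ∈ CP G Z T S y, (dg G (HP G Z T S x) c : ℤ)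
        + ω x * ω y * ∑ c ∈ CP G Z T S x, (dg G (HP G Z T S y) c : ℤ)
        + ω x * ω y * ∑ c ∈ CP G Z T S y, (dg G (CP G Z T S x) c : ℤ)
        + ω x * ω y * ∑ v ∈ HP G Z T S y, (dg G (HP G Z T S x) v : ℤ)) := by
    refine sum_congr rfl fun x _ => sum_congr rfl fun y _ => ?_
    rw [sum_dg_slots (G := G) (Z := Z) (T := T) (S := S) x y]
    ring
  rw [a6]
  simp only [sum_add_distrib]
  rw [a5]
  ring

/-- **the missing pairs of a minimal closed system** -/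
theorem MSys.NE_union_eq {A : Finset V} {S : V → Finset V} (h : MSys G Z T hm r A S) :
    (NE G (A.biUnion S) : ℤ)
      + 2 * ∑ x ∈ A, ∑ y ∈ A.erase x, ∑ c ∈ CP G Z T S y, (dg G (HP G Z T S x) c : ℤ)
      + ∑ x ∈ A, ∑ y ∈ A.erase x, ∑ c ∈ CP G Z T S y, (dg G (CP G Z T S x) c : ℤ)
      + ∑ x ∈ A, ∑ y ∈ A.erase x, ∑ v ∈ HP G Z T S y, (dg G (HP G Z T S x) v : ℤ)
      + ∑ x ∈ A, ((S x).card : ℤ) ^ 2
      = ∑ x ∈ A, (NE G (S x) : ℤ) + ((A.card : ℤ) * r + 1) ^ 2 := by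
  have hd : ∀ x ∈ A, ∀ y ∈ A, x ≠ y → Disjoint (S x) (S y) := fun x hx y hy hxy =>
    h.toCSys.disj hx hy hxy
  have hNE := NE_biUnion (G := G) A S ∅ hd (fun _ _ => disjoint_empty_right _)
  have e0 : (NE G (∅ : Finset V) : ℤ) = 0 := by
    have : NE G (∅ : Finset V) = 0 := rfl
    rw [this]
    rfl
  rw [empty_union, e0] at hNE
  simp only [sum_empty, sum_const_zero, mul_zero, add_zero, zero_add] at hNE
  have hnd : ∑ x ∈ A, ∑ y ∈ A.erase x, ∑ v ∈ S y, (nd G (S x) v : ℤ)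
      = ∑ x ∈ A, ∑ y ∈ A.erase x, ((S x).card : ℤ) * (S y).card
        - ∑ x ∈ A, ∑ y ∈ A.erase x, ∑ v ∈ S y, (dg G (S x) v : ℤ) := by
    rw [← sum_sub_distrib]
    refine sum_congr rfl fun x hx => ?_
    rw [← sum_sub_distrib]
    refine sum_congr rfl fun y hy => ?_
    rw [sum_dg_nd (hd x hx y (mem_of_mem_erase hy) (ne_of_mem_erase hy).symm), mul_comm]
  have hsplit := sum_dg_cross (G := G) (Z := Z) (T := T) A (S := S) (fun _ => 1)
  simp only [one_mul] at hsplit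
  have hs : ∑ x ∈ A, ((S x).card : ℤ) = A.card * r + 1 := by
    have h2 : ((∑ x ∈ A, (S x).card : ℕ) : ℤ) = ((A.card * r + 1 : ℕ) : ℤ) := by rw [h.val]
    push_cast at h2
    exact h2
  have h3 : ∑ x ∈ A, ∑ y ∈ A.erase x, ((S x).card : ℤ) * (S y).card
      = ((A.card : ℤ) * r + 1) ^ 2 - ∑ x ∈ A, ((S x).card : ℤ) ^ 2 := by
    rw [sum_offdiag A fun x y => ((S x).card : ℤ) * (S y).card, ← hs, sq (∑ x ∈ A, _), sum_mul_sum]
    congr 1
    exact sum_congr rfl fun x _ => by ring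
  rw [hnd, h3, hsplit] at hNE
  linarith

/-- `(*_A)` **with multiplicities** in a minimal closed system: the points of `W` are counted twice.
For `W = ∅` this is `MSys.star`. -/
theorem MSys.star_pm (hP : PM G r) {A : Finset V} {S : V → Finset V}
    (h : MSys G Z T hm r A S) {W : Finset V} (hW : W ⊆ A.biUnion S) :
    2 * ((r : ℤ) - 1)
      + 2 * ∑ x ∈ A, ∑ y ∈ A.erase x, ∑ c ∈ CP G Z T S y, (dg G (HP G Z T S x) c : ℤ)
      + ∑ x ∈ A, ∑ y ∈ A.erase x, ∑ c ∈ CP G Z T S y, (dg G (CP G Z T S x) c : ℤ)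
      + ∑ x ∈ A, ∑ y ∈ A.erase x, ∑ v ∈ HP G Z T S y, (dg G (HP G Z T S x) v : ℤ)
      + ∑ x ∈ A, (((S x).card : ℤ) - r + 1) ^ 2
      + 2 * ∑ v ∈ W, ((dg G (A.biUnion S) v : ℤ) - ((r : ℤ) - 1) - A.card)
      ≤ ((r : ℤ) - 1) * (A.card * (A.card - 1)) + ((A.card : ℤ) + 1) ^ 2
        + ∑ x ∈ A, (NE G (S x) : ℤ) + NE G W := by
  have h2 := h.two
  have h1 := hP.double (A.biUnion S) W hW A.card (by omega)
  have hd : ∀ x ∈ A, ∀ y ∈ A, x ≠ y → Disjoint (S x) (S y) := fun x hx y hy hxy =>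
    h.toCSys.disj hx hy hxy
  have hcard : (A.biUnion S).card = A.card * r + 1 := by
    rw [card_biUnion hd]
    exact h.val
  have hs : ∑ x ∈ A, ((S x).card : ℤ) = A.card * r + 1 := by
    have h2 : ((∑ x ∈ A, (S x).card : ℕ) : ℤ) = ((A.card * r + 1 : ℕ) : ℤ) := by rw [h.val]
    push_cast at h2
    exact h2
  have h4 : ∑ x ∈ A, (((S x).card : ℤ) - r + 1) ^ 2 = ∑ x ∈ A, ((S x).card : ℤ) ^ 2
      - 2 * ((r : ℤ) - 1) * (A.card * r + 1) + A.card * ((r : ℤ) - 1) ^ 2 := by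
    have h5 : ∀ x ∈ A, (((S x).card : ℤ) - r + 1) ^ 2 = ((S x).card : ℤ) ^ 2
        - 2 * ((r : ℤ) - 1) * (S x).card + ((r : ℤ) - 1) ^ 2 := fun x _ => by ring
    rw [sum_congr rfl h5, sum_add_distrib, sum_sub_distrib, ← mul_sum, hs, sum_const,
      nsmul_eq_mul]
  have hdeg : ∀ v ∈ W, (((A.card : ℤ) - 1) * ((r : ℤ) - 1) - nd G (A.biUnion S) v)
      = (dg G (A.biUnion S) v : ℤ) - ((r : ℤ) - 1) - A.card := by
    intro v hv
    have h5 := dg_add_nd (G := G) (hW hv)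
    have h6 : ((dg G (A.biUnion S) v : ℤ) + nd G (A.biUnion S) v) + 1 = A.card * r + 1 := by
      have h7 : dg G (A.biUnion S) v + nd G (A.biUnion S) v + 1 = A.card * r + 1 := by
        rw [← hcard]
        have h8 : 1 ≤ (A.biUnion S).card := card_pos.2 ⟨v, hW hv⟩
        omega
      exact_mod_cast h7
    linarith
  have h6 := h.NE_union_eq
  rw [sum_congr rfl hdeg, hcard] at h1
  push_cast at h1
  rw [h4]
  linarith [h1, h6]

/-- **property (PM) on a closed system, the slot part `S x` counted `om x` times, slope `q`** -/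
theorem CSys.star_om (hP : PM G r) {A : Finset V} {S : V → Finset V}
    (h : CSys G Z T hm A S) (ω : V → ℕ) (hω : ∀ x ∈ A, 1 ≤ ω x) (q : ℕ) (hq : 1 ≤ q) :
    ((r : ℤ) - 1) * (2 * q * ∑ x ∈ A, (ω x : ℤ) * (S x).card - r * q * (q + 1))
      + 2 * ∑ x ∈ A, ∑ y ∈ A.erase x, (ω x : ℤ) * ω y
          * ∑ c ∈ CP G Z T S y, (dg G (HP G Z T S x) c : ℤ)
      + ∑ x ∈ A, ∑ y ∈ A.erase x, (ω x : ℤ) * ω y
          * ∑ c ∈ CP G Z T S y, (dg G (CP G Z T S x) c : ℤ)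
      + ∑ x ∈ A, ∑ y ∈ A.erase x, (ω x : ℤ) * ω y
          * ∑ v ∈ HP G Z T S y, (dg G (HP G Z T S x) v : ℤ)
      ≤ ∑ x ∈ A, (ω x : ℤ) ^ 2 * NE G (S x)
        + ∑ x ∈ A, ∑ y ∈ A.erase x, (ω x : ℤ) * ω y * (((S x).card : ℤ) * (S y).card)
        + ((r : ℤ) - 1) * ∑ x ∈ A, (ω x : ℤ) * ((ω x : ℤ) - 1) * (S x).card := by
  have hd : ∀ x ∈ A, ∀ y ∈ A, x ≠ y → Disjoint (S x) (S y) := fun x hx y hy hxy =>
    h.disj hx hy hxy
  have h1 := hP.rows hd ω hω q hq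
  have h2 : ∑ x ∈ A, ∑ y ∈ A.erase x, (ω x : ℤ) * ω y * ∑ v ∈ S x, (nd G (S y) v : ℤ)
      = ∑ x ∈ A, ∑ y ∈ A.erase x, (ω x : ℤ) * ω y * (((S x).card : ℤ) * (S y).card)
        - ∑ x ∈ A, ∑ y ∈ A.erase x, (ω x : ℤ) * ω y * ∑ v ∈ S y, (dg G (S x) v : ℤ) := by
    rw [← sum_sub_distrib]
    refine sum_congr rfl fun x hx => ?_
    rw [← sum_sub_distrib]
    refine sum_congr rfl fun y hy => ?_
    rw [sum_dg_nd (hd y (mem_of_mem_erase hy) x hx (ne_of_mem_erase hy))]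
    have h3 : ∑ v ∈ S x, (dg G (S y) v : ℤ) = ∑ v ∈ S y, (dg G (S x) v : ℤ) := by
      have := dg_comm G (S x) (S y)
      exact_mod_cast this
    rw [h3]
    ring
  have h3 := sum_dg_cross (G := G) (Z := Z) (T := T) A (S := S) (fun x => (ω x : ℤ))
  rw [h2, h3] at h1
  linarith

end StarPM

end Pool.Agent.Lib.MP_f04ccf_co
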