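import Pool.Agent.Lib.MP_f04ccf_co.M.StarX
import Pool.Agent.Lib.MP_f04ccf_co.M.PW
import Pool.Agent.Lib.MP_f04ccf_co.M.Exc7

/-!
MP_f04ccf_co: `(*_A)` with a free slope at every vertex (note 15453) in a minimal closed system
(`MSys.star_pw`): the vertices of an arbitrary set `W` count `n / (n - 1)` times, `n = |A|`.
`good_of_S2_mt_pw`: the reduction to line frames with property (PW).
-/

set_option autoImplicit false

namespace Pool.Agent.Lib.MP_f04ccf_co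

open Finset

attribute [local instance] Classical.propDecidable

section StarPW

variable {V : Type*} {G : SimpleGraph V} {Z T : Finset V} {hm : V → V} {r m t : ℕ}

/-- (PW) with the slopes `q` on `W` and `q + 1` elsewhere, integer form -/
lemma PW.low_int (hP : PW G r) (A W : Finset V) (hW : W ⊆ A) (q : ℕ) (hq : 1 ≤ q) :
    (q : ℤ) * (((r : ℤ) - 1) * (2 * (q + 1) * A.card - r * (q + 1) * (q + 2)))
      + 2 * ∑ v ∈ W, ((q : ℤ) * ((r : ℤ) - 1) - nd G A v) ≤ q * NE G A := by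
  have h1 := hP.gain_low A W hW q hq
  have hq0 : (0 : ℚ) < q := by exact_mod_cast hq
  rw [← sum_div] at h1
  have h2 : (q : ℚ) * (((r : ℚ) - 1) * (2 * (q + 1) * A.card - r * (q + 1) * (q + 2)))
      + 2 * ∑ v ∈ W, ((q : ℚ) * ((r : ℚ) - 1) - nd G A v) ≤ q * NE G A := by
    have h3 := mul_le_mul_of_nonneg_left h1 hq0.le
    have h4 : (q : ℚ) * (2 * ((∑ v ∈ W, ((q : ℚ) * ((r : ℚ) - 1) - nd G A v)) / q))
        = 2 * ∑ v ∈ W, ((q : ℚ) * ((r : ℚ) - 1) - nd G A v) := by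
      field_simp
    rw [mul_add, h4] at h3
    exact h3
  exact_mod_cast h2

/-- `(*_A)` **with free slopes** in a minimal closed system: `W` is any set of its points -/
theorem MSys.star_pw (hP : PW G r) {A : Finset V} {S : V → Finset V}
    (h : MSys G Z T hm r A S) {W : Finset V} (hW : W ⊆ A.biUnion S) :
    ((A.card : ℤ) - 1) * (2 * ((r : ℤ) - 1)
      + 2 * ∑ x ∈ A, ∑ y ∈ A.erase x, ∑ c ∈ CP G Z T S y, (dg G (HP G Z T S x) c : ℤ)
      + ∑ x ∈ A, ∑ y ∈ A.erase x, ∑ c ∈ CP G Z T S y, (dg G (CP G Z T S x) c : ℤ)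
      + ∑ x ∈ A, ∑ y ∈ A.erase x, ∑ v ∈ HP G Z T S y, (dg G (HP G Z T S x) v : ℤ)
      + ∑ x ∈ A, (((S x).card : ℤ) - r + 1) ^ 2)
      + 2 * ∑ v ∈ W, ((dg G (A.biUnion S) v : ℤ) - ((r : ℤ) - 1) - A.card)
      ≤ ((A.card : ℤ) - 1) * (((r : ℤ) - 1) * (A.card * (A.card - 1)) + ((A.card : ℤ) + 1) ^ 2
        + ∑ x ∈ A, (NE G (S x) : ℤ)) := by
  obtain ⟨q, hq⟩ : ∃ q : ℕ, A.card = q + 1 := ⟨A.card - 1, by have := h.two; omega⟩
  have hq1 : 1 ≤ q := by have := h.two; omega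
  have h1 := hP.low_int (A.biUnion S) W hW q hq1
  have hd : ∀ x ∈ A, ∀ y ∈ A, x ≠ y → Disjoint (S x) (S y) := fun x hx y hy hxy =>
    h.toCSys.disj hx hy hxy
  have hcard : (A.biUnion S).card = A.card * r + 1 := by
    rw [card_biUnion hd]
    exact h.val
  -- the missing pairs of the union
  have hNE := NE_biUnion (G := G) A S ∅ hd (fun _ _ => disjoint_empty_right _)
  have e0 : (NE G (∅ : Finset V) : ℤ) = 0 := by
    have : NE G (∅ : Finset V) = 0 := rfl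
    rw [this]
    rfl
  rw [empty_union, e0] at hNE
  simp only [sum_empty, sum_const_zero, mul_zero, add_zero, zero_add] at hNE
  -- the pairs of different slots
  have hnd : ∑ x ∈ A, ∑ y ∈ A.erase x, ∑ v ∈ S y, (nd G (S x) v : ℤ)
      = ∑ x ∈ A, ∑ y ∈ A.erase x, ((S x).card : ℤ) * (S y).card
        - ∑ x ∈ A, ∑ y ∈ A.erase x, ∑ v ∈ S y, (dg G (S x) v : ℤ) := by
    rw [← sum_sub_distrib]
    refine sum_congr rfl fun x hx => ?_
    rw [← sum_sub_distrib]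
    refine sum_congr rfl fun y hy => ?_
    rw [sum_dg_nd (hd x hx y (mem_of_mem_erase hy) (ne_of_mem_erase hy).symm), mul_comm]
  have hsplit : ∑ x ∈ A, ∑ y ∈ A.erase x, ∑ v ∈ S y, (dg G (S x) v : ℤ)
      = 2 * ∑ x ∈ A, ∑ y ∈ A.erase x, ∑ c ∈ CP G Z T S y, (dg G (HP G Z T S x) c : ℤ)
        + ∑ x ∈ A, ∑ y ∈ A.erase x, ∑ c ∈ CP G Z T S y, (dg G (CP G Z T S x) c : ℤ)
        + ∑ x ∈ A, ∑ y ∈ A.erase x, ∑ v ∈ HP G Z T S y, (dg G (HP G Z T S x) v : ℤ) := by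
    have a1 : ∀ x ∈ A, ∀ y ∈ A.erase x, ∑ v ∈ S y, (dg G (S x) v : ℤ)
        = ∑ c ∈ CP G Z T S y, (dg G (HP G Z T S x) c : ℤ)
          + ∑ c ∈ CP G Z T S x, (dg G (HP G Z T S y) c : ℤ)
          + ∑ c ∈ CP G Z T S y, (dg G (CP G Z T S x) c : ℤ)
          + ∑ v ∈ HP G Z T S y, (dg G (HP G Z T S x) v : ℤ) := by
      intro x _ y _
      have a2 : ∑ v ∈ S y, (dg G (S x) v : ℤ)
          = ∑ v ∈ S y, ((dg G (CP G Z T S x) v : ℤ) + dg G (HP G Z T S x) v) := by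
        refine sum_congr rfl fun v _ => ?_
        rw [dg_CP_HP (G := G) (Z := Z) (T := T) (S := S) (x := x) (v := v)]
        push_cast
        rfl
      have a3 : ∀ f : V → ℤ, ∑ v ∈ S y, f v = ∑ v ∈ CP G Z T S y, f v
          + ∑ v ∈ HP G Z T S y, f v := by
        intro f
        rw [← sum_union CP_HP_disjoint, CP_union_HP]
      have a4 : ∑ v ∈ HP G Z T S y, (dg G (CP G Z T S x) v : ℤ)
          = ∑ c ∈ CP G Z T S x, (dg G (HP G Z T S y) c : ℤ) := by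
        have := dg_comm G (HP G Z T S y) (CP G Z T S x)
        exact_mod_cast this
      rw [a2, a3, sum_add_distrib, sum_add_distrib, a4]
      ring
    have a5 : ∑ x ∈ A, ∑ y ∈ A.erase x, ∑ c ∈ CP G Z T S x, (dg G (HP G Z T S y) c : ℤ)
        = ∑ x ∈ A, ∑ y ∈ A.erase x, ∑ c ∈ CP G Z T S y, (dg G (HP G Z T S x) c : ℤ) := by
      rw [sum_offdiag A fun x y => ∑ c ∈ CP G Z T S x, (dg G (HP G Z T S y) c : ℤ),
        sum_offdiag A fun x y => ∑ c ∈ CP G Z T S y, (dg G (HP G Z T S x) c : ℤ), sum_comm]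
    rw [sum_congr rfl fun x hx => sum_congr rfl fun y hy => a1 x hx y hy]
    simp only [sum_add_distrib]
    rw [a5]
    ring
  -- sizes
  have hs : ∑ x ∈ A, ((S x).card : ℤ) = A.card * r + 1 := by
    have h2 : ((∑ x ∈ A, (S x).card : ℕ) : ℤ) = ((A.card * r + 1 : ℕ) : ℤ) := by rw [h.val]
    push_cast at h2
    exact h2
  have h3 : ∑ x ∈ A, ∑ y ∈ A.erase x, ((S x).card : ℤ) * (S y).card
      = ((A.card : ℤ) * r + 1) ^ 2 - ∑ x ∈ A, ((S x).card : ℤ) ^ 2 := by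
    rw [sum_offdiag A fun x y => ((S x).card : ℤ) * (S y).card, ← hs, sq (∑ x ∈ A, _), sum_mul_sum]
    congr 1
    exact sum_congr rfl fun x _ => by ring
  have h4 : ∑ x ∈ A, (((S x).card : ℤ) - r + 1) ^ 2 = ∑ x ∈ A, ((S x).card : ℤ) ^ 2
      - 2 * ((r : ℤ) - 1) * (A.card * r + 1) + A.card * ((r : ℤ) - 1) ^ 2 := by
    have h5 : ∀ x ∈ A, (((S x).card : ℤ) - r + 1) ^ 2 = ((S x).card : ℤ) ^ 2
        - 2 * ((r : ℤ) - 1) * (S x).card + ((r : ℤ) - 1) ^ 2 := fun x _ => by ring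
    rw [sum_congr rfl h5, sum_add_distrib, sum_sub_distrib, ← mul_sum, hs, sum_const,
      nsmul_eq_mul]
  -- degrees of the points of `W`
  have hdeg : ∀ v ∈ W, ((q : ℤ) * ((r : ℤ) - 1) - nd G (A.biUnion S) v)
      = (dg G (A.biUnion S) v : ℤ) - ((r : ℤ) - 1) - A.card := by
    intro v hv
    have h5 := dg_add_nd (G := G) (hW hv)
    have h6 : ((dg G (A.biUnion S) v : ℤ) + nd G (A.biUnion S) v) + 1 = A.card * r + 1 := by
      have h7 : dg G (A.biUnion S) v + nd G (A.biUnion S) v + 1 = A.card * r + 1 := by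
        rw [← hcard]
        have h8 : 1 ≤ (A.biUnion S).card := card_pos.2 ⟨v, hW hv⟩
        omega
      exact_mod_cast h7
    rw [hq] at h6 ⊢
    push_cast at h6 ⊢
    linarith
  rw [sum_congr rfl hdeg, hcard, hNE, hnd, h3, hsplit] at h1
  rw [h4]
  have hq' : (A.card : ℤ) = q + 1 := by exact_mod_cast hq
  rw [hq'] at h1 ⊢
  push_cast [hq] at h1
  set L := ∑ x ∈ A, ∑ y ∈ A.erase x, ∑ c ∈ CP G Z T S y, (dg G (HP G Z T S x) c : ℤ)
  set K := ∑ x ∈ A, ∑ y ∈ A.erase x, ∑ c ∈ CP G Z T S y, (dg G (CP G Z T S x) c : ℤ)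
  set M := ∑ x ∈ A, ∑ y ∈ A.erase x, ∑ v ∈ HP G Z T S y, (dg G (HP G Z T S x) v : ℤ)
  set Q := ∑ x ∈ A, ((S x).card : ℤ) ^ 2
  set N := ∑ x ∈ A, (NE G (S x) : ℤ)
  set D := ∑ v ∈ W, ((dg G (A.biUnion S) v : ℤ) - ((r : ℤ) - 1) - (q + 1))
  have h9 : (q : ℤ) * (((r : ℤ) - 1) * (2 * (q + 1) * ((q + 1) * r + 1)
      - r * (q + 1) * (q + 2))) + 2 * D
      ≤ q * (N + ((((q : ℤ) + 1) * r + 1) ^ 2 - Q - (2 * L + K + M))) := by
    linarith
  linarith [h9]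

/-- the reduction to line frames with property (PW) -/
theorem good_of_S2_mt_pw (r : ℕ) (hr : 7 ≤ r)
    (hS : ∀ (G : SimpleGraph (Fin (r ^ 2 + 1))) (m t : ℕ) (Z T : Finset (Fin (r ^ 2 + 1))),
      PW G r → PG G r → AlphaLe G univ r → m + 4 ≤ r + t → ¬ S2 G r m t Z T) :
    Good r (r ^ 2 + 1) := by
  intro c hc
  by_contra hcon
  push Not at hcon
  have hs : Sees c := fun S hS k => by
    obtain ⟨x, hx, y, hy, hxy, hk⟩ := hcon S hS k
    exact ⟨x, hx, y, hy, hxy, hk⟩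
  obtain ⟨j, m, t, Z, T, h1, h2⟩ := exists_S2_mt7 (hc := hc) hs hr (by simp)
  exact hS _ m t Z T (PW_col hc hs j) (PG_col hc hs j) (alpha_le hc hs j univ) h1 h2

end StarPW

end Pool.Agent.Lib.MP_f04ccf_co
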