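import Mathlib

/-!
MP_f04ccf_co, the star worlds (notes 17871, 17910): the finite check of one row.

Two disjoint finite sets `X`, `Y` of points with values `d`, any at most `km` points have sum at most
`cap`, all points together at most `E`; `w` a weight function which vanishes up to `4`.
`StR.chk` runs through all vectors of numbers of points with value `v >= 3` on the two sides, the points
with small values are estimated linearly.  `StR.cross_le`: the weighted number of pairs is at most `B`.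
-/

set_option autoImplicit false

namespace Pool.Agent.Lib.MP_f04ccf_co

open Finset

namespace StR

/-- the constraints of a set of `c` points with sum `s` -/
def okc (E km : ℕ) (cap : ℕ → ℕ) (s c : ℕ) : Bool :=
  Nat.ble s E && (Nat.ble (km + 1) c || Nat.ble s (cap c))

/-- one level: `i` points of value `v` so far, split in the two sides -/
def loop (v E km : ℕ) (cap : ℕ → ℕ) (f : ℕ → ℕ → ℕ → ℕ → Bool) : ℕ → ℕ → ℕ → ℕ → Bool
  | 0, _, _, _ => false
  | k + 1, i, s, c => ((List.range (i + 1)).all fun n => f n (i - n) s c) &&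
      (!(okc E km cap (s + v) (c + 1)) || loop v E km cap f k (i + 1) (s + v) (c + 1))

/-- sum over the points of the first side -/
def gX (g : ℕ → ℕ) : List (ℕ × ℕ × ℕ) → ℕ
  | [] => 0
  | x :: l => x.2.1 * g x.1 + gX g l

/-- sum over the points of the second side -/
def gY (g : ℕ → ℕ) : List (ℕ × ℕ × ℕ) → ℕ
  | [] => 0
  | x :: l => x.2.2 * g x.1 + gY g l

/-- the largest weight per unit (twice) of a small point -/
def lm (w : ℕ → ℕ) (acc : List (ℕ × ℕ × ℕ)) : ℕ :=
  max (max (2 * gX (fun u => w (u + 1)) acc) (gX (fun u => w (u + 2)) acc))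
    (max (2 * gY (fun u => w (u + 1)) acc) (gY (fun u => w (u + 2)) acc))

/-- the test at the end -/
def leaf (w : ℕ → ℕ) (E B : ℕ) (acc : List (ℕ × ℕ × ℕ)) (s : ℕ) : Bool :=
  Nat.beq (gX (fun u => w u) acc) 0 && (Nat.beq (gY (fun u => w u) acc) 0 &&
    Nat.ble (2 * gX (fun u => gY (fun u' => w (u' + u)) acc) acc + lm w acc * (E - s))
      (2 * B + 1))

/-- the check over all vectors of numbers of points -/
def chk (E km : ℕ) (cap w : ℕ → ℕ) (B : ℕ) : ℕ → List (ℕ × ℕ × ℕ) → ℕ → ℕ → Bool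
  | 0, acc, s, _ => leaf w E B acc s
  | l + 1, acc, s, c =>
      loop (l + 3) E km cap (fun n m s' c' => chk E km cap w B l ((l + 3, n, m) :: acc) s' c')
        (E + 1) 0 s c

lemma loop_sound {v E km : ℕ} {cap : ℕ → ℕ} {f : ℕ → ℕ → ℕ → ℕ → Bool} :
    ∀ (k i s c : ℕ), loop v E km cap f k i s c = true → ∀ j : ℕ,
      (∀ j', 1 ≤ j' → j' ≤ j → okc E km cap (s + j' * v) (c + j') = true) →
      ∀ n m : ℕ, n + m = i + j → f n m (s + j * v) (c + j) = true := by
  intro k
  induction k with
  | zero =>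
    intro i s c h
    simp [loop] at h
  | succ k ih =>
    intro i s c h j hj n m hnm
    rw [loop, Bool.and_eq_true] at h
    obtain ⟨h1, h2⟩ := h
    rcases Nat.eq_zero_or_pos j with h0 | h0
    · subst h0
      have h3 := (List.all_eq_true.1 h1) n (List.mem_range.2 (by omega))
      have h4 : i - n = m := by omega
      rw [h4] at h3
      simpa using h3
    · obtain ⟨j, rfl⟩ : ∃ j', j = j' + 1 := ⟨j - 1, by omega⟩
      have h3 := hj 1 le_rfl (by omega)
      rw [one_mul] at h3
      rw [h3] at h2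
      simp only [Bool.not_true, Bool.false_or] at h2
      have h4 := ih (i + 1) (s + v) (c + 1) h2 j (fun j' h5 h6 => by
        have h7 := hj (j' + 1) (by omega) (by omega)
        have h8 : s + (j' + 1) * v = s + v + j' * v := by ring
        have h9 : c + (j' + 1) = c + 1 + j' := by ring
        rw [h8, h9] at h7
        exact h7) n m (by omega)
      have h8 : s + (j + 1) * v = s + v + j * v := by ring
      have h9 : c + (j + 1) = c + 1 + j := by ring
      rw [h8, h9]
      exact h4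

section Snd

variable {α : Type*} [DecidableEq α]

/-- the state after the levels above `v` -/
structure Good (X Y : Finset α) (d : α → ℕ) (v : ℕ) (acc : List (ℕ × ℕ × ℕ)) (s c : ℕ) :
    Prop where
  hX : ∀ g : ℕ → ℕ, ∑ p ∈ X.filter (fun p => v < d p), g (d p) = gX g acc
  hY : ∀ g : ℕ → ℕ, ∑ p ∈ Y.filter (fun p => v < d p), g (d p) = gY g acc
  hs : ∑ p ∈ (X ∪ Y).filter (fun p => v < d p), d p = s
  hc : ((X ∪ Y).filter fun p => v < d p).card = c

omit [DecidableEq α] in
lemma split_sum (Z : Finset α) (d : α → ℕ) (v : ℕ) (g : α → ℕ) :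
    ∑ p ∈ Z.filter (fun p => v < d p), g p
      = ∑ p ∈ Z.filter (fun p => d p = v + 1), g p
        + ∑ p ∈ Z.filter (fun p => v + 1 < d p), g p := by
  rw [sum_filter, sum_filter, sum_filter, ← sum_add_distrib]
  refine sum_congr rfl fun p _ => ?_
  by_cases h1 : v < d p
  · by_cases h2 : d p = v + 1
    · rw [if_pos h1, if_pos h2, if_neg (by omega), add_zero]
    · rw [if_pos h1, if_neg h2, if_pos (by omega), zero_add]
  · rw [if_neg h1, if_neg (by omega), if_neg (by omega), add_zero]

omit [DecidableEq α] in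
lemma lev_sum (Z : Finset α) (d : α → ℕ) (v : ℕ) (g : ℕ → ℕ) :
    ∑ p ∈ Z.filter (fun p => d p = v), g (d p) = (Z.filter fun p => d p = v).card * g v := by
  rw [card_eq_sum_ones, sum_mul]
  refine sum_congr rfl fun p hp => ?_
  rw [(mem_filter.1 hp).2, one_mul]

lemma card_lev {X Y : Finset α} (hXY : Disjoint X Y) (d : α → ℕ) (v : ℕ) :
    ((X ∪ Y).filter fun p => d p = v).card
      = (X.filter fun p => d p = v).card + (Y.filter fun p => d p = v).card := by
  rw [filter_union, card_union_of_disjoint]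
  exact disjoint_filter_filter hXY

lemma Good.step {X Y : Finset α} (hXY : Disjoint X Y) {d : α → ℕ} {v s c : ℕ}
    {acc : List (ℕ × ℕ × ℕ)} (h : Good X Y d (v + 1) acc s c) :
    Good X Y d v ((v + 1, (X.filter fun p => d p = v + 1).card,
      (Y.filter fun p => d p = v + 1).card) :: acc)
      (s + ((X.filter fun p => d p = v + 1).card + (Y.filter fun p => d p = v + 1).card) * (v + 1))
      (c + ((X.filter fun p => d p = v + 1).card + (Y.filter fun p => d p = v + 1).card)) := by
  refine ⟨fun g => ?_, fun g => ?_, ?_, ?_⟩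
  · rw [split_sum X d v fun p => g (d p), h.hX g, lev_sum, gX]
  · rw [split_sum Y d v fun p => g (d p), h.hY g, lev_sum, gY]
  · rw [split_sum (X ∪ Y) d v fun p => d p, h.hs, lev_sum (X ∪ Y) d (v + 1) fun u => u,
      card_lev hXY]
    ring
  · have h1 := split_sum (X ∪ Y) d v fun _ => 1
    rw [← card_eq_sum_ones, ← card_eq_sum_ones, ← card_eq_sum_ones, h.hc, card_lev hXY] at h1
    rw [h1]
    ring

lemma leaf_sound {X Y : Finset α} {d : α → ℕ} {w : ℕ → ℕ} {E B s c : ℕ}
    {acc : List (ℕ × ℕ × ℕ)} (hXY : Disjoint X Y) (hw : ∀ u ≤ 4, w u = 0)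
    (hE : ∑ p ∈ X ∪ Y, d p ≤ E) (h : Good X Y d 2 acc s c) (hl : leaf w E B acc s = true) :
    ∑ p ∈ X, ∑ q ∈ Y, w (d p + d q) ≤ B := by
  rw [leaf, Bool.and_eq_true, Bool.and_eq_true] at hl
  obtain ⟨h1, h2, h3⟩ := hl
  have h1' := Nat.eq_of_beq_eq_true h1
  have h2' := Nat.eq_of_beq_eq_true h2
  have h3' := Nat.le_of_ble_eq_true h3
  set lam := lm w acc with hlam
  -- the weight of a small point
  have kX : ∀ y, y ≤ 2 → 2 * ∑ p ∈ X.filter (fun p => 2 < d p), w (d p + y) ≤ lam * y := by
    intro y hy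
    have e1 : ∑ p ∈ X.filter (fun p => 2 < d p), w (d p + y) = gX (fun u => w (u + y)) acc :=
      h.hX fun u => w (u + y)
    rw [e1]
    have l1 : 2 * gX (fun u => w (u + 1)) acc ≤ lam := by
      rw [hlam, lm]; exact (le_max_left _ _).trans (le_max_left _ _)
    have l2 : gX (fun u => w (u + 2)) acc ≤ lam := by
      rw [hlam, lm]; exact (le_max_right _ _).trans (le_max_left _ _)
    interval_cases y
    · simp only [add_zero]
      rw [h1']
      omega
    · omega
    · omega
  have kY : ∀ y, y ≤ 2 → 2 * ∑ q ∈ Y.filter (fun q => 2 < d q), w (y + d q) ≤ lam * y := by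
    intro y hy
    have e1 : ∑ q ∈ Y.filter (fun q => 2 < d q), w (y + d q) = gY (fun u => w (u + y)) acc := by
      rw [← h.hY fun u => w (u + y)]
      exact sum_congr rfl fun q _ => by rw [Nat.add_comm]
    rw [e1]
    have l1 : 2 * gY (fun u => w (u + 1)) acc ≤ lam := by
      rw [hlam, lm]; exact (le_max_left _ _).trans (le_max_right _ _)
    have l2 : gY (fun u => w (u + 2)) acc ≤ lam := by
      rw [hlam, lm]; exact (le_max_right _ _).trans (le_max_right _ _)
    interval_cases y
    · simp only [add_zero]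
      rw [h2']
      omega
    · omega
    · omega
  -- the big pairs
  have kB : ∑ p ∈ X.filter (fun p => 2 < d p), ∑ q ∈ Y.filter (fun q => 2 < d q), w (d p + d q)
      = gX (fun u => gY (fun u' => w (u' + u)) acc) acc := by
    rw [← h.hX fun u => gY (fun u' => w (u' + u)) acc]
    refine sum_congr rfl fun p _ => ?_
    rw [← h.hY fun u' => w (u' + d p)]
    exact sum_congr rfl fun q _ => by rw [Nat.add_comm]
  have sp : ∀ (Z : Finset α) (g : α → ℕ), ∑ p ∈ Z, g p
      = ∑ p ∈ Z.filter (fun p => 2 < d p), g p + ∑ p ∈ Z.filter (fun p => ¬ 2 < d p), g p :=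
    fun Z g => (sum_filter_add_sum_filter_not Z _ g).symm
  have t1 : ∑ p ∈ X, ∑ q ∈ Y, w (d p + d q)
      = (∑ p ∈ X.filter (fun p => 2 < d p), ∑ q ∈ Y.filter (fun q => 2 < d q), w (d p + d q)
        + ∑ p ∈ X.filter (fun p => 2 < d p), ∑ q ∈ Y.filter (fun q => ¬ 2 < d q), w (d p + d q))
        + ∑ p ∈ X.filter (fun p => ¬ 2 < d p), ∑ q ∈ Y.filter (fun q => 2 < d q),
            w (d p + d q) := by
    rw [sp X, ← sum_add_distrib]
    refine congrArg₂ _ (sum_congr rfl fun p _ => sp Y _) (sum_congr rfl fun p hp => ?_)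
    rw [sp Y]
    have : ∑ q ∈ Y.filter (fun q => ¬ 2 < d q), w (d p + d q) = 0 := by
      refine sum_eq_zero fun q hq => hw _ ?_
      have h5 := (mem_filter.1 hp).2
      have h6 := (mem_filter.1 hq).2
      omega
    rw [this, add_zero]
  have t2 : 2 * ∑ p ∈ X.filter (fun p => 2 < d p), ∑ q ∈ Y.filter (fun q => ¬ 2 < d q),
      w (d p + d q) ≤ lam * ∑ q ∈ Y.filter (fun q => ¬ 2 < d q), d q := by
    rw [sum_comm, mul_sum, mul_sum]
    exact sum_le_sum fun q hq => kX _ (by have := (mem_filter.1 hq).2; omega)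
  have t3 : 2 * ∑ p ∈ X.filter (fun p => ¬ 2 < d p), ∑ q ∈ Y.filter (fun q => 2 < d q),
      w (d p + d q) ≤ lam * ∑ p ∈ X.filter (fun p => ¬ 2 < d p), d p := by
    rw [mul_sum, mul_sum]
    exact sum_le_sum fun p hp => kY _ (by have := (mem_filter.1 hp).2; omega)
  have t4 : ∑ p ∈ X.filter (fun p => ¬ 2 < d p), d p + ∑ q ∈ Y.filter (fun q => ¬ 2 < d q), d q
      ≤ E - s := by
    have h5 := sp (X ∪ Y) d
    rw [h.hs] at h5
    have h6 : ∑ p ∈ (X ∪ Y).filter (fun p => ¬ 2 < d p), d p
        = ∑ p ∈ X.filter (fun p => ¬ 2 < d p), d p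
          + ∑ q ∈ Y.filter (fun q => ¬ 2 < d q), d q := by
      rw [filter_union, sum_union]
      exact disjoint_filter_filter hXY
    omega
  have t5 : lam * (∑ p ∈ X.filter (fun p => ¬ 2 < d p), d p
      + ∑ q ∈ Y.filter (fun q => ¬ 2 < d q), d q) ≤ lam * (E - s) := Nat.mul_le_mul_left _ t4
  rw [mul_add] at t5
  rw [t1, kB]
  omega

theorem chk_sound {X Y : Finset α} (hXY : Disjoint X Y) {d : α → ℕ} {w cap : ℕ → ℕ}
    {E km B : ℕ} (hw : ∀ u ≤ 4, w u = 0)
    (hcap : ∀ W ⊆ X ∪ Y, W.card ≤ km → ∑ p ∈ W, d p ≤ cap W.card)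
    (hE : ∑ p ∈ X ∪ Y, d p ≤ E) : ∀ (l : ℕ) (acc : List (ℕ × ℕ × ℕ)) (s c : ℕ),
      Good X Y d (l + 2) acc s c → chk E km cap w B l acc s c = true →
      ∑ p ∈ X, ∑ q ∈ Y, w (d p + d q) ≤ B := by
  intro l
  induction l with
  | zero =>
    intro acc s c hG hc
    exact leaf_sound hXY hw hE hG hc
  | succ l ih =>
    intro acc s c hG hc
    rw [chk] at hc
    have h1 := loop_sound _ _ _ _ hc
      ((X.filter fun p => d p = l + 3).card + (Y.filter fun p => d p = l + 3).card)
      (fun j' hj1 hj2 => by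
        rw [← card_lev hXY] at hj2
        obtain ⟨P, hP, hPc⟩ := exists_subset_card_eq hj2
        have hdis : Disjoint ((X ∪ Y).filter fun p => l + 1 + 2 < d p) P := by
          rw [disjoint_left]
          intro p h2 h3
          have h4 := (mem_filter.1 h2).2
          have h5 := (mem_filter.1 (hP h3)).2
          omega
        have hsub : ((X ∪ Y).filter fun p => l + 1 + 2 < d p) ∪ P ⊆ X ∪ Y :=
          union_subset (filter_subset _ _) (hP.trans (filter_subset _ _))
        have hcard : (((X ∪ Y).filter fun p => l + 1 + 2 < d p) ∪ P).card = c + j' := by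
          rw [card_union_of_disjoint hdis, hG.hc, hPc]
        have hsum : ∑ p ∈ ((X ∪ Y).filter fun p => l + 1 + 2 < d p) ∪ P, d p
            = s + j' * (l + 3) := by
          rw [sum_union hdis, hG.hs]
          congr 1
          rw [← hPc, card_eq_sum_ones, sum_mul]
          refine sum_congr rfl fun p hp => ?_
          rw [(mem_filter.1 (hP hp)).2, one_mul]
        rw [okc, Bool.and_eq_true, Bool.or_eq_true]
        refine ⟨Nat.ble_eq_true_of_le ?_, ?_⟩
        · rw [← hsum]
          exact (sum_le_sum_of_subset hsub).trans hE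
        · rcases Nat.lt_or_ge km (c + j') with h2 | h2
          · exact Or.inl (Nat.ble_eq_true_of_le h2)
          · right
            refine Nat.ble_eq_true_of_le ?_
            rw [← hsum, ← hcard]
            exact hcap _ hsub (by rw [hcard]; exact h2))
      _ _ (Nat.zero_add _).symm
    exact ih _ _ _ (hG.step hXY) h1

/-- **the weighted number of pairs of a row** -/
theorem cross_le {X Y : Finset α} (hXY : Disjoint X Y) {d : α → ℕ} {w cap : ℕ → ℕ}
    {L E km B : ℕ} (hw : ∀ u ≤ 4, w u = 0) (hd : ∀ p ∈ X ∪ Y, d p ≤ L + 2)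
    (hcap : ∀ W ⊆ X ∪ Y, W.card ≤ km → ∑ p ∈ W, d p ≤ cap W.card)
    (hE : ∑ p ∈ X ∪ Y, d p ≤ E) (hc : chk E km cap w B L [] 0 0 = true) :
    ∑ p ∈ X, ∑ q ∈ Y, w (d p + d q) ≤ B := by
  have hem : ∀ Z ⊆ X ∪ Y, Z.filter (fun p => L + 2 < d p) = ∅ := by
    intro Z hZ
    refine filter_eq_empty_iff.2 fun p hp => ?_
    have := hd p (hZ hp)
    omega
  refine chk_sound hXY hw hcap hE L [] 0 0 ⟨fun g => ?_, fun g => ?_, ?_, ?_⟩ hc
  · rw [hem X subset_union_left, sum_empty, gX]
  · rw [hem Y subset_union_right, sum_empty, gY]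
  · rw [hem _ subset_rfl, sum_empty]
  · rw [hem _ subset_rfl, card_empty]

end Snd

/-- weights of the missing pairs: `2` for at most two common missed columns, `1` for three
(`2` if there are twelve columns) -/
def wt (R u : ℕ) : ℕ :=
  match Nat.ble R (u + 2), Nat.ble R (u + 3), Nat.ble 12 R with
  | true, _, _ => 2
  | false, true, true => 2
  | false, true, false => 1
  | false, false, _ => 0

/-- the caps of any `k` points -/
def cp (R k : ℕ) : ℕ := R + k * (k - 1) / 2

/-- the caps of any `k` points besides a point of value six, nine columns -/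
def cq (k : ℕ) : ℕ := 3 + (k + 1) * k / 2

lemma wt_val (R u : ℕ) :
    wt R u = if R ≤ u + 2 then 2 else if R ≤ u + 3 then (if 12 ≤ R then 2 else 1) else 0 := by
  have hb : ∀ a b : ℕ, Nat.ble a b = decide (a ≤ b) := fun a b => by
    by_cases h : a ≤ b
    · rw [Nat.ble_eq_true_of_le h]; simp [h]
    · have : Nat.ble a b = false := by
        rw [← Bool.not_eq_true]
        exact fun h' => h (Nat.le_of_ble_eq_true h')
      rw [this]; simp [h]
  unfold wt
  rw [hb, hb, hb]
  by_cases h1 : R ≤ u + 2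
  · simp [h1]
  · by_cases h2 : R ≤ u + 3
    · by_cases h3 : 12 ≤ R <;> simp [h1, h2, h3]
    · simp [h1, h2]

/-- the largest total of a row -/
def tE : ℕ → ℕ → ℕ
  | 9, g => 18 + 2 * g
  | 10, g => 25 + 2 * g
  | 11, g => 33 + 2 * g
  | _, g => 32 + 2 * g

/-- twice the largest weighted number of pairs of a row -/
def tB : ℕ → ℕ → ℕ
  | 9, 0 => 16
  | 9, 1 => 20
  | 9, 2 => 24
  | 9, _ => 28
  | 10, 0 => 21
  | 10, 1 => 24
  | 10, 2 => 27
  | 10, _ => 30
  | 11, 0 => 21
  | 11, 1 => 24
  | 11, 2 => 25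
  | 11, _ => 27
  | _, 0 => 24
  | _, 1 => 28
  | _, 2 => 32
  | _, _ => 32

/-- the excess of a row -/
def tD : ℕ → ℕ → ℕ
  | 9, 0 => 4
  | 9, 1 => 5
  | 9, 2 => 8
  | 9, _ => 12
  | 10, 0 => 3
  | 10, 1 => 6
  | 10, 2 => 9
  | 10, _ => 12
  | 11, 0 => 1
  | 11, 1 => 4
  | 11, 2 => 5
  | 11, _ => 7
  | _, 0 => 2
  | _, 1 => 6
  | _, 2 => 10
  | _, _ => 10

lemma chk9_0 : chk 18 5 (cp 9) (wt 9) 16 3 [] 0 0 = true := by decide +kernel
lemma chk9_1 : chk 20 5 (cp 9) (wt 9) 20 3 [] 0 0 = true := by decide +kernel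
lemma chk9_2 : chk 22 5 (cp 9) (wt 9) 24 3 [] 0 0 = true := by decide +kernel
lemma chk9_3 : chk 24 5 (cp 9) (wt 9) 28 3 [] 0 0 = true := by decide +kernel
lemma chk10_0 : chk 25 5 (cp 10) (wt 10) 21 4 [] 0 0 = true := by decide +kernel
lemma chk10_1 : chk 27 5 (cp 10) (wt 10) 24 4 [] 0 0 = true := by decide +kernel
lemma chk10_2 : chk 29 5 (cp 10) (wt 10) 27 4 [] 0 0 = true := by decide +kernel
lemma chk10_3 : chk 31 5 (cp 10) (wt 10) 30 4 [] 0 0 = true := by decide +kernel
lemma chk11_0 : chk 33 5 (cp 11) (wt 11) 21 4 [] 0 0 = true := by decide +kernel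
lemma chk11_1 : chk 35 5 (cp 11) (wt 11) 24 4 [] 0 0 = true := by decide +kernel
lemma chk11_2 : chk 37 5 (cp 11) (wt 11) 25 4 [] 0 0 = true := by decide +kernel
lemma chk11_3 : chk 39 5 (cp 11) (wt 11) 27 4 [] 0 0 = true := by decide +kernel
lemma chk12_0 : chk 32 5 (cp 12) (wt 12) 24 4 [] 0 0 = true := by decide +kernel
lemma chk12_1 : chk 34 5 (cp 12) (wt 12) 28 4 [] 0 0 = true := by decide +kernel
lemma chk12_2 : chk 36 5 (cp 12) (wt 12) 32 4 [] 0 0 = true := by decide +kernel
lemma chk12_3 : chk 38 5 (cp 12) (wt 12) 32 4 [] 0 0 = true := by decide +kernel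
lemma chkx_0 : chk 12 4 cq (wt 9) 4 2 [] 0 0 = true := by decide +kernel
lemma chkx_1 : chk 14 4 cq (wt 9) 5 2 [] 0 0 = true := by decide +kernel
lemma chkx_2 : chk 16 4 cq (wt 9) 8 2 [] 0 0 = true := by decide +kernel
lemma chkx_3 : chk 18 4 cq (wt 9) 12 2 [] 0 0 = true := by decide +kernel

/-- all checks -/
theorem chk_all {R g : ℕ} (h1 : 9 ≤ R) (h2 : R ≤ 12) (hg : g ≤ 3) :
    chk (tE R g) 5 (cp R) (wt R) (tB R g) (if R = 9 then 3 else 4) [] 0 0 = true ∧
      2 * tB R g + 4 ≤ 4 * R + 2 * tD R g ∧ (4 - g) * tD R g < 2 * R ∧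
      (R = 9 → chk (tE R g - 6) 4 cq (wt R) (tD R g) 2 [] 0 0 = true) := by
  have e1 : (if (9 : ℕ) = 9 then 3 else 4) = 3 := rfl
  have e2 : (if (10 : ℕ) = 9 then 3 else 4) = 4 := rfl
  have e3 : (if (11 : ℕ) = 9 then 3 else 4) = 4 := rfl
  have e4 : (if (12 : ℕ) = 9 then 3 else 4) = 4 := rfl
  interval_cases R
  · rw [e1]
    interval_cases g
    · exact ⟨chk9_0, by decide, by decide, fun _ => chkx_0⟩
    · exact ⟨chk9_1, by decide, by decide, fun _ => chkx_1⟩
    · exact ⟨chk9_2, by decide, by decide, fun _ => chkx_2⟩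
    · exact ⟨chk9_3, by decide, by decide, fun _ => chkx_3⟩
  · rw [e2]
    interval_cases g
    · exact ⟨chk10_0, by decide, by decide, fun h => absurd h (by decide)⟩
    · exact ⟨chk10_1, by decide, by decide, fun h => absurd h (by decide)⟩
    · exact ⟨chk10_2, by decide, by decide, fun h => absurd h (by decide)⟩
    · exact ⟨chk10_3, by decide, by decide, fun h => absurd h (by decide)⟩
  · rw [e3]
    interval_cases g
    · exact ⟨chk11_0, by decide, by decide, fun h => absurd h (by decide)⟩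
    · exact ⟨chk11_1, by decide, by decide, fun h => absurd h (by decide)⟩
    · exact ⟨chk11_2, by decide, by decide, fun h => absurd h (by decide)⟩
    · exact ⟨chk11_3, by decide, by decide, fun h => absurd h (by decide)⟩
  · rw [e4]
    interval_cases g
    · exact ⟨chk12_0, by decide, by decide, fun h => absurd h (by decide)⟩
    · exact ⟨chk12_1, by decide, by decide, fun h => absurd h (by decide)⟩
    · exact ⟨chk12_2, by decide, by decide, fun h => absurd h (by decide)⟩
    · exact ⟨chk12_3, by decide, by decide, fun h => absurd h (by decide)⟩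

end StR

end Pool.Agent.Lib.MP_f04ccf_co
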