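import Pool.Agent.Lib.MP_f04ccf_co.M.RowX
import Pool.Agent.Lib.MP_f04ccf_co.M.PayU

/-!
MP_f04ccf_co, notes 17544 (4), 17601, 17622 (L1), 17633: the row tests on a SUB-SLOT.  From the slot of the
host `z` a set `X` of points is dropped (members and class points, not the centre `z`).

* `CP_sub`, `HP_sub`, `slot_sub`, `WHom.csysD`, `WHom.wsysD`: the system with the smaller slot;
* `WHom.rowMXD`: the row test of the smaller slot over the basic integers (any columns `J`, any payment, any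
  saving, no sign condition), for any families `U` of items of the smaller system;
* `WHom.rowM_subD`: `RowM` of the smaller slot with payments of the cells; `PayS`: these payments;
* `WCoreK.payS_cell`: the own cell; `payS_rect`, `WCoreK.payS_item`, `WCoreK.payS_out`, `WCoreK.payS_in`.
-/

set_option autoImplicit false

namespace Pool.Agent.Lib.MP_f04ccf_co

open Finset

attribute [local instance] Classical.propDecidable

section Sys

variable {V : Type*} {G : SimpleGraph V} {Z T : Finset V} {hm : V → V} {r m n p : ℕ}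

/-- the class parts of the smaller slots -/
lemma CP_sub' (X : Finset V) (x : V) :
    CP G Z T (fun x => (Z \ X).filter fun v => hm v = x) x = cz G Z T hm x \ X := by
  ext v
  rw [mem_CP, mem_sdiff, mem_CP, mem_filter, mem_filter, mem_sdiff]
  tauto

/-- the members of the smaller slots -/
lemma HP_sub' (X : Finset V) (x : V) :
    HP G Z T (fun x => (Z \ X).filter fun v => hm v = x) x = hz G Z T hm x \ X := by
  ext v
  rw [mem_HP, mem_sdiff, mem_HP, mem_filter, mem_filter, mem_sdiff]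
  tauto

/-- only the slot of `z` changes -/
lemma CP_sub_ne {z : V} {X : Finset V} (hX : X ⊆ Z.filter fun v => hm v = z) {x : V} (hxz : x ≠ z) :
    CP G Z T (fun x => (Z \ X).filter fun v => hm v = x) x = cz G Z T hm x := by
  rw [CP_sub']
  refine Finset.sdiff_eq_self_of_disjoint (disjoint_left.2 fun v hv' hv => ?_)
  exact hxz ((mem_filter.1 (mem_CP.1 hv').1).2.symm.trans (mem_filter.1 (hX hv)).2)

lemma HP_sub_ne {z : V} {X : Finset V} (hX : X ⊆ Z.filter fun v => hm v = z) {x : V} (hxz : x ≠ z) :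
    HP G Z T (fun x => (Z \ X).filter fun v => hm v = x) x = hz G Z T hm x := by
  rw [HP_sub']
  refine Finset.sdiff_eq_self_of_disjoint (disjoint_left.2 fun v hv' hv => ?_)
  exact hxz ((mem_filter.1 (mem_HP.1 hv').1).2.symm.trans (mem_filter.1 (hX hv)).2)

/-- the size of the smaller slot -/
lemma slot_sub {z : V} {X : Finset V} (hX : X ⊆ Z.filter fun v => hm v = z) :
    (((Z \ X).filter fun v => hm v = z).card : ℤ)
      = ((Z.filter fun v => hm v = z).card : ℤ) - X.card := by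
  have h1 : (Z \ X).filter (fun v => hm v = z) = (Z.filter fun v => hm v = z) \ X := by
    ext v
    rw [mem_filter, mem_sdiff, mem_sdiff, mem_filter]
    tauto
  have h3 := card_sdiff_add_card_eq_card hX
  rw [h1]
  have h4 : (((Z.filter fun v => hm v = z) \ X).card : ℤ) + X.card
      = (Z.filter fun v => hm v = z).card := by exact_mod_cast h3
  linarith

/-- the number of the class points of the smaller slot -/
lemma card_CP_sub {z : V} (X : Finset V) :
    ((CP G Z T (fun x => (Z \ X).filter fun v => hm v = x) z).card : ℤ)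
      = (r : ℤ) - 1 - tI G Z T hm r Z z - (cz G Z T hm z ∩ X).card := by
  rw [CP_sub']
  have h1 := card_sdiff_add_card_inter (cz G Z T hm z) X
  have h2 : ((cz G Z T hm z \ X).card : ℤ) + (cz G Z T hm z ∩ X).card
      = (cz G Z T hm z).card := by exact_mod_cast h1
  have h3 : ((cz G Z T hm z).card : ℤ) = (r : ℤ) - 1 - tI G Z T hm r Z z := card_CP_eq Z z
  linarith

/-- **the smaller slots are a closed system** -/
lemma WHom.csysD (h : WHom G Z T r m n hm) (X : Finset V) :
    CSys G Z T hm T fun x => (Z \ X).filter fun v => hm v = x :=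
  h.csys.mono fun _ _ => filter_subset_filter _ sdiff_subset

/-- **the smaller slots are a system of items** -/
lemma WHom.wsysD (h : WHom G Z T r m n hm) {z : V} {X : Finset V}
    (hX : X ⊆ Z.filter fun v => hm v = z) (hzX : z ∉ X) :
    WSysT G (co G) T (CP G Z T fun x => (Z \ X).filter fun v => hm v = x)
      (HP G Z T fun x => (Z \ X).filter fun v => hm v = x) (tlo G T hm) :=
  (h.csysD X).wsysT h.F.toPFrame h.hh fun y hy => by
    have h1 := (h.ok y (h.F.toPFrame.sub hy)).2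
    rw [rws_of_mem hy, mem_singleton] at h1
    refine mem_filter.2 ⟨mem_sdiff.2 ⟨h.F.toPFrame.sub hy, fun h2 => hzX ?_⟩, h1⟩
    have h5 := (mem_filter.1 (hX h2)).2
    rw [h1] at h5
    exact h5 ▸ h2

/-- **T, T+, T++ of the smaller slot over the basic integers**, no sign condition, exact number of points, any
extra term, any saving, any families of items of the smaller system -/
theorem WHom.rowMXD (h : WHom G Z T r m n hm) {host : Itm V → V} {z : V} {X : Finset V}
    (hX : X ⊆ Z.filter fun v => hm v = z) (hzX : z ∉ X) {U : V → Finset (Itm V)}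
    (hfam : ∀ x ∈ T, Fam (co G) (CP G Z T fun x => (Z \ X).filter fun v => hm v = x)
      (HP G Z T fun x => (Z \ X).filter fun v => hm v = x) (tlo G T hm) x (U x))
    (hst : ∀ x ∈ T, ∀ u ∈ U x, host u = x)
    {J : Finset V} (hJ : J ⊆ T) (hzJ : z ∉ J) {K : Finset (Itm V)}
    (hK : K ⊆ (T.erase z).biUnion U) (hk : ∀ u ∈ K, ikp (tlo G T hm) z u ≠ 0) {EX : ℤ}
    (hE : RowM G Z T hm r (fun x => (Z \ X).filter fun v => hm v = x) U J.card
      K (fun Q => one1 (oth (tlo G T hm) z Q)) z J EX)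
    {sv : ℤ}
    (hsv : (NE G (K.biUnion (rpts (tlo G T hm) (fun Q => one1 (oth (tlo G T hm) z Q)) z)
          \ J.biUnion (cz G Z T hm)) : ℤ) + sv
      + (K.biUnion (rpts (tlo G T hm) (fun Q => one1 (oth (tlo G T hm) z Q)) z)
          \ J.biUnion (cz G Z T hm)).card
      ≤ ((K.biUnion (rpts (tlo G T hm) (fun Q => one1 (oth (tlo G T hm) z Q)) z)
          \ J.biUnion (cz G Z T hm)).card : ℤ)
        * (K.biUnion (rpts (tlo G T hm) (fun Q => one1 (oth (tlo G T hm) z Q)) z)
          \ J.biUnion (cz G Z T hm)).card) :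
    2 * ((r : ℤ) - 1) * J.card * (sI hm r Z z - X.card) - (J.card : ℤ) * (J.card - 1) * ((r : ℤ) - 1)
      - ((∑ j ∈ J, tI G Z T hm r Z j) ^ 2 - ∑ j ∈ J, tI G Z T hm r Z j ^ 2)
      + 2 * ∑ u ∈ K, ((ikp (tlo G T hm) z u : ℤ) * ((r : ℤ) - 1 - tI G Z T hm r Z z
            - (cz G Z T hm z ∩ X).card)
          - rmr G (cz G Z T hm) (tlo G T hm) z u)
      + 2 * ∑ j ∈ J, ∑ u ∈ U z, ((ikp (tlo G T hm) j u : ℤ)
          * ((r : ℤ) - 1 - tI G Z T hm r Z j) - ims G (cz G Z T hm) (tlo G T hm) j u)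
      + EX + sv
      ≤ 2 * eI G hm (Z \ X) z
        + 2 * (∑ u ∈ K, ((ikp (tlo G T hm) z u : ℤ) + 1 - if host u ∈ J then (ipc u : ℤ) else 0)
            + ((J.card : ℤ) * ((r : ℤ) - 1) - ∑ j ∈ J, tI G Z T hm r Z j))
          * (sI hm r Z z - X.card + 1)
        + (∑ u ∈ K, ((ikp (tlo G T hm) z u : ℤ) + 1 - if host u ∈ J then (ipc u : ℤ) else 0))
          * (∑ u ∈ K, ((ikp (tlo G T hm) z u : ℤ) + 1
              - if host u ∈ J then (ipc u : ℤ) else 0) - 1)
        + 2 * ∑ u ∈ K, (if host u ∈ J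
            then (iar G (cz G Z T hm (host u)) u : ℤ)
              - ((ikp (tlo G T hm) z u : ℤ) + 1 - ipc u)
                * (∑ j ∈ J, tI G Z T hm r Z j - tI G Z T hm r Z (host u))
            else ((ikp (tlo G T hm) z u : ℤ) + 1)
              * ((r : ℤ) - 1 - ∑ j ∈ J, tI G Z T hm r Z j))
        + 2 * ∑ j ∈ J, (∑ u ∈ K, (if host u = j then (ipc u : ℤ) else 0))
          * (∑ u ∈ U z, (ipc u : ℤ) * ikp (tlo G T hm) j u) := by
  obtain ⟨S, hSd⟩ : ∃ S : V → Finset V, S = fun x => (Z \ X).filter fun v => hm v = x := ⟨_, rfl⟩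
  have hCne : ∀ x, x ≠ z → CP G Z T S x = cz G Z T hm x := fun x hx => by
    rw [hSd]
    exact CP_sub_ne hX hx
  have hJz : ∀ j ∈ J, j ≠ z := fun j hj h0 => hzJ (h0 ▸ hj)
  have hCJ : ∀ j ∈ J, CP G Z T S j = cz G Z T hm j := fun j hj => hCne j (hJz j hj)
  have hcard : ∀ j ∈ J, ((CP G Z T S j).card : ℤ) = (r : ℤ) - 1 - tI G Z T hm r Z j := fun j hj => by
    rw [hCJ j hj]
    exact card_CP_eq Z j
  have hcz : ((CP G Z T S z).card : ℤ)
      = (r : ℤ) - 1 - tI G Z T hm r Z z - (cz G Z T hm z ∩ X).card := by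
    rw [hSd]
    exact card_CP_sub X
  have hJb : J.biUnion (CP G Z T S) = J.biUnion (cz G Z T hm) :=
    biUnion_congr rfl fun j hj => hCJ j hj
  have hC := h.csysD X
  have hW := h.wsysD hX hzX
  rw [← hSd] at hfam hE hC hW
  rw [← hJb] at hsv
  have h1 := Fam.rowMX_of hW hC hfam hst hJ hK hk (X := fun Q => one1 (oth (tlo G T hm) z Q))
    (fun Q => one1_sub _) (fun u hu => by
      obtain ⟨x, hx, hux⟩ := mem_biUnion.1 (hK hu)
      exact Fam.rpts_card hfam (mem_of_mem_erase hx) hux (hk u hu) hW) hE hsv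
  clear hE hsv
  set tl := tlo G T hm with htl
  -- the used items
  have e1 : ∑ u ∈ K, ((ikp tl z u : ℤ) * ((r : ℤ) - 1 - tI G Z T hm r Z z
        - (cz G Z T hm z ∩ X).card) - rmr G (cz G Z T hm) tl z u)
      ≤ ∑ u ∈ K, (((CP G Z T S z).card : ℤ) * ikp tl z u
        - (rcl G (CP G Z T S) tl (fun Q => one1 (oth tl z Q)) z u).card) := by
    refine sum_le_sum fun u _ => ?_
    have h2 : rcl G (CP G Z T S) tl (fun Q => one1 (oth tl z Q)) z u
        ⊆ rcl G (cz G Z T hm) tl (fun Q => one1 (oth tl z Q)) z u := by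
      rcases u with Q | e
      · simp only [rcl]
        split_ifs
        · exact subset_rfl
        · refine filter_subset_filter _ ?_
          rw [hSd, CP_sub']
          exact sdiff_subset
      · exact subset_rfl
    have h3 : ((rcl G (CP G Z T S) tl (fun Q => one1 (oth tl z Q)) z u).card : ℤ)
        ≤ rmr G (cz G Z T hm) tl z u := by
      unfold rmr
      exact_mod_cast card_le_card h2
    rw [hcz]
    nlinarith
  have hq0 : ∀ j ∈ J, ((J.card : ℤ) - 1) * ((r : ℤ) - 1) = ∑ l ∈ J.erase j, ((r : ℤ) - 1) := by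
    intro j hj
    have h1 : ((J.erase j).card : ℤ) + 1 = J.card := by exact_mod_cast card_erase_add_one hj
    rw [sum_const, nsmul_eq_mul]
    have h2 : ((J.erase j).card : ℤ) = (J.card : ℤ) - 1 := by linarith
    rw [h2]
  have hsc : ∑ j ∈ J, ((CP G Z T S j).card : ℤ)
      = (J.card : ℤ) * ((r : ℤ) - 1) - ∑ j ∈ J, tI G Z T hm r Z j := by
    rw [sum_congr rfl fun j hj => hcard j hj, sum_sub_distrib, sum_const, nsmul_eq_mul]
  have e5 : ∑ u ∈ K, (if host u ∈ J
        then (iar G (CP G Z T S (host u)) u : ℤ) + ((ikp tl z u : ℤ) + 1 - ipc u)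
          * (∑ l ∈ J.erase (host u), ((CP G Z T S l).card : ℤ) - ((J.card : ℤ) - 1) * ((r : ℤ) - 1))
        else ((ikp tl z u : ℤ) + 1)
          * (∑ j ∈ J, ((CP G Z T S j).card : ℤ) - ((J.card : ℤ) - 1) * ((r : ℤ) - 1)))
      = ∑ u ∈ K, (if host u ∈ J
        then (iar G (cz G Z T hm (host u)) u : ℤ) - ((ikp tl z u : ℤ) + 1 - ipc u)
          * (∑ j ∈ J, tI G Z T hm r Z j - tI G Z T hm r Z (host u))
        else ((ikp tl z u : ℤ) + 1) * ((r : ℤ) - 1 - ∑ j ∈ J, tI G Z T hm r Z j)) := by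
    refine sum_congr rfl fun u _ => ?_
    by_cases h4 : host u ∈ J
    · rw [if_pos h4, if_pos h4, hq0 _ h4, ← sum_sub_distrib, hCJ _ h4]
      have h5 : ∑ l ∈ J.erase (host u), (((CP G Z T S l).card : ℤ) - ((r : ℤ) - 1))
          = - (∑ j ∈ J, tI G Z T hm r Z j - tI G Z T hm r Z (host u)) := by
        rw [← add_sum_erase J _ h4, add_sub_cancel_left, ← sum_neg_distrib]
        refine sum_congr rfl fun l hl => ?_
        rw [hcard l (mem_of_mem_erase hl)]
        ring
      rw [h5]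
      ring
    · rw [if_neg h4, if_neg h4, hsc]
      have h5 : (J.card : ℤ) * ((r : ℤ) - 1) - ∑ j ∈ J, tI G Z T hm r Z j
          - ((J.card : ℤ) - 1) * ((r : ℤ) - 1) = (r : ℤ) - 1 - ∑ j ∈ J, tI G Z T hm r Z j := by
        ring
      rw [h5]
  have e6 : ∑ j ∈ J, ∑ u ∈ U z, iht G (CP G Z T S) tl j u
      = ∑ j ∈ J, ∑ u ∈ U z, ((ikp tl j u : ℤ) * ((r : ℤ) - 1 - tI G Z T hm r Z j)
        - ims G (cz G Z T hm) tl j u) := by
    refine sum_congr rfl fun j hj => sum_congr rfl fun u _ => ?_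
    have h2 : rcl G (CP G Z T S) tl (oth tl j) j u = rcl G (cz G Z T hm) tl (oth tl j) j u := by
      rcases u with Q | e
      · simp only [rcl, hCJ j hj]
      · rfl
    have h3 : ims G (CP G Z T S) tl j u = ims G (cz G Z T hm) tl j u := by
      unfold ims icl
      rw [h2]
    unfold iht
    rw [hcard j hj, h3]
    ring
  have h5 := two_eI (G := G) (hm := hm) (Z \ X) z
  have h6 : (((Z.filter fun v => hm v = z).card : ℤ) - r) = sI hm r Z z := rfl
  have h7 := slot_sub hX
  have hdg : (0 : ℤ) ≤ ∑ j ∈ J, ∑ i ∈ J.erase j, ∑ v ∈ CP G Z T S i, (dg G (CP G Z T S j) v : ℤ) :=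
    sum_nonneg fun _ _ => sum_nonneg fun _ _ => sum_nonneg fun _ _ => Nat.cast_nonneg _
  have hcc : ∑ j ∈ J, ∑ i ∈ J.erase j, ((CP G Z T S i).card : ℤ) * (CP G Z T S j).card
      = (J.card : ℤ) * (J.card - 1) * ((r : ℤ) - 1) ^ 2
        - 2 * ((J.card : ℤ) - 1) * ((r : ℤ) - 1) * ∑ j ∈ J, tI G Z T hm r Z j
        + ((∑ j ∈ J, tI G Z T hm r Z j) ^ 2 - ∑ j ∈ J, tI G Z T hm r Z j ^ 2) := by
    rw [sum_offdiag J fun j i => ((CP G Z T S i).card : ℤ) * (CP G Z T S j).card]
    have h7 : ∑ j ∈ J, ∑ i ∈ J, ((CP G Z T S i).card : ℤ) * (CP G Z T S j).card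
        = (∑ j ∈ J, ((CP G Z T S j).card : ℤ)) ^ 2 := by
      rw [sq, sum_mul_sum, sum_comm]
    have h8 : ∑ j ∈ J, ((CP G Z T S j).card : ℤ) * (CP G Z T S j).card
        = (J.card : ℤ) * ((r : ℤ) - 1) ^ 2 - 2 * ((r : ℤ) - 1) * ∑ j ∈ J, tI G Z T hm r Z j
          + ∑ j ∈ J, tI G Z T hm r Z j ^ 2 := by
      have h9 : ∀ j ∈ J, ((CP G Z T S j).card : ℤ) * (CP G Z T S j).card
          = ((r : ℤ) - 1) ^ 2 - 2 * ((r : ℤ) - 1) * tI G Z T hm r Z j + tI G Z T hm r Z j ^ 2 :=
        fun j hj => by rw [hcard j hj]; ring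
      rw [sum_congr rfl h9, sum_add_distrib, sum_sub_distrib, sum_const, nsmul_eq_mul, ← mul_sum]
    rw [h7, h8, hsc]
    ring
  have hzc : ((S z).card : ℤ) = sI hm r Z z - X.card + r := by
    rw [hSd]
    show (((Z \ X).filter fun v => hm v = z).card : ℤ) = _
    rw [h7, ← h6]
    ring
  have hne : (NE G (S z) : ℤ) = 2 * eI G hm (Z \ X) z := by
    rw [h5, hSd]
  rw [hcc, hsc, hzc, hne, e6] at h1
  rw [hsc] at e5
  rw [e5] at h1
  generalize ∑ u ∈ K, ((ikp tl z u : ℤ) + 1 - if host u ∈ J then (ipc u : ℤ) else 0) = w at *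
  generalize ∑ j ∈ J, tI G Z T hm r Z j = τ at *
  generalize ∑ j ∈ J, tI G Z T hm r Z j ^ 2 = τ2 at *
  generalize (X.card : ℤ) = x at *
  clear e5 hcc hsc
  linarith

end Sys

end Pool.Agent.Lib.MP_f04ccf_co
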