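import Pool.Agent.Lib.MP_f04ccf_co.M.SubDI
import Pool.Agent.Lib.MP_f04ccf_co.M.RectA

/-!
MP_f04ccf_co, note 17622 (L1): the payments of the cells in the row test on a sub-slot (kept PC pairs `B1`, kept
parts `P1`, dropped class points `XC`, see `SubDI`).

* `PayS`: the payment `P` of the cell `{z, j}`; `WHom.rowM_keep`: `RowM` of the sub-slot with these payments;
* `payS_zero`; `WCoreK.payS_cell`: the kept PC pairs and N-ends of the own cell;
* `WHom.payS_sets`: any completely joined pair of sets of class points; `WHom.payS_item`: of any item;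
* `WCoreK.payS_in`, `WCoreK.payS_out`: of a member of the row `z` with tail `j`, of the row `j` with tail `z`.
-/

set_option autoImplicit false

namespace Pool.Agent.Lib.MP_f04ccf_co

open Finset

attribute [local instance] Classical.propDecidable

section PayS

variable {V : Type*} {G : SimpleGraph V} {Z T : Finset V} {hm : V → V} {r m n p : ℕ}
  {B : V → Finset (V × V)} {Ps : V → Finset (Finset V)}
  {B1 : Finset (V × V)} {P1 : Finset (Finset V)} {XC : Finset V}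

variable (G Z T hm B Ps B1 P1 XC) in
/-- the payment `P` of the cell `{z, j}` in the test of the sub-slot of `z` with the column of `j` -/
def PayS (K : Finset (Itm V)) (X : Finset V → Finset V) (z j : V) (P : ℤ) : Prop :=
  P ≤ ∑ c ∈ cz G Z T hm j \ K.biUnion (rpts (tlo G T hm) X z),
        (dg G ((cz G Z T hm z \ XC) \ (pcs (tlo G T hm) B1 j).image Prod.snd) c : ℤ)
      + ∑ v ∈ (K.filter fun u => u ∈ pkf (B j) (Ps j)).biUnion (rpts (tlo G T hm) X z)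
          \ cz G Z T hm j, (dg G (keepH B1 P1) v : ℤ)

lemma PayS.mono {K : Finset (Itm V)} {X : Finset V → Finset V} {z j : V} {P P' : ℤ}
    (h : PayS G Z T hm B Ps B1 P1 XC K X z j P) (h' : P' ≤ P) :
    PayS G Z T hm B Ps B1 P1 XC K X z j P' := by
  unfold PayS at *
  exact h'.trans h

/-- nothing is paid -/
lemma payS_zero {K : Finset (Itm V)} {X : Finset V → Finset V} {z j : V} :
    PayS G Z T hm B Ps B1 P1 XC K X z j 0 := by
  unfold PayS
  exact add_nonneg (sum_nonneg fun _ _ => Nat.cast_nonneg _)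
    (sum_nonneg fun _ _ => Nat.cast_nonneg _)

lemma pcz_keep (tl : V → V) (j : V) : pcz tl j (pkf B1 P1) = pcs tl B1 j := by
  ext e
  rw [mem_pcz, inr_mem_pkf, mem_pcs]

/-- **`RowM` of the sub-slot with a payment of every cell** -/
theorem WHom.rowM_keep (h : WHom G Z T r m n hm)
    (hpk : ∀ x ∈ T, Pk G (cz G Z T hm x) (hz G Z T hm x) (tlo G T hm) (B x) (Ps x)) (q : ℤ)
    {z : V} (hz' : z ∈ T) (hB1 : B1 ⊆ B z) (hP1 : P1 ⊆ Ps z) (hXC : XC ⊆ cz G Z T hm z)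
    (hXB : ∀ e ∈ B1, e.2 ∉ XC) (hzX : z ∉ XC)
    {J : Finset V} (hJ : J ⊆ T) (hzJ : z ∉ J) {K : Finset (Itm V)}
    (hK : K ⊆ (T.erase z).biUnion fun x => pkf (B x) (Ps x))
    (hk : ∀ u ∈ K, ikp (tlo G T hm) z u ≠ 0)
    {X : Finset V → Finset V} (hX : ∀ Q, X Q ⊆ oth (tlo G T hm) z Q) {P : V → ℤ}
    (hP : ∀ j ∈ J, PayS G Z T hm B Ps B1 P1 XC K X z j (P j)) :
    RowM G Z T hm r (fun x => (Z \ keepX G Z T hm z B1 P1 XC).filter fun v => hm v = x)
      (keepU B Ps z B1 P1) q K X z J (2 * ∑ j ∈ J, P j) := by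
  have hfam : ∀ x ∈ T, Fam (co G) (cz G Z T hm) (hz G Z T hm) (tlo G T hm) x
      (pkf (B x) (Ps x)) := fun x hx => (hpk x hx).fam (h.csys.dCH hx hx).symm
  have hfamK := h.famK hpk hz' hB1 hP1 hXC hXB
  have hW := h.wsysT
  have hkH := keepH_sub (hpk z hz') hB1 hP1
  have hXs := keepX_sub (G := G) (Z := Z) (T := T) (hm := hm) (z := z) (B1 := B1) (P1 := P1) hXC
  have hCJ : ∀ j ∈ J, CP G Z T
      (fun x => (Z \ keepX G Z T hm z B1 P1 XC).filter fun v => hm v = x) j = cz G Z T hm j :=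
    fun j hj => CP_sub_ne hXs fun h0 => hzJ (h0 ▸ hj)
  have hJb : J.biUnion (CP G Z T
      (fun x => (Z \ keepX G Z T hm z B1 P1 XC).filter fun v => hm v = x))
      = J.biUnion (cz G Z T hm) := biUnion_congr rfl fun j hj => hCJ j hj
  refine (Fam.rowM_of h.F.toPFrame h.gp.P (h.csysD _)
    (h.wsysD hXs (h.z_notMem_keepX hz' hzX)) hfamK q hz' hJ hzJ (keepU_sub hK) hk hX
    (F := fun j => (cz G Z T hm z \ XC) \ (pcs (tlo G T hm) B1 j).image Prod.snd)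
    (fun j _ => by
      rw [keep_CP]
      exact sdiff_subset)
    (fun j _ e he h0 => by
      rw [keepU_self, pcz_keep] at he
      exact (mem_sdiff.1 h0).2 (mem_image_of_mem _ he))).mono ?_
  rw [hJb, keep_HP hXC hkH]
  obtain ⟨W, hWd⟩ : ∃ W, W = K.biUnion (rpts (tlo G T hm) X z) := ⟨_, rfl⟩
  obtain ⟨Wj, hWj⟩ : ∃ Wj : V → Finset V, Wj = fun j =>
    (K.filter fun u => u ∈ pkf (B j) (Ps j)).biUnion (rpts (tlo G T hm) X z) := ⟨_, rfl⟩
  rw [← hWd]
  have e1 : ∑ j ∈ J, ∑ c ∈ CP G Z T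
        (fun x => (Z \ keepX G Z T hm z B1 P1 XC).filter fun v => hm v = x) j \ W,
        (dg G ((cz G Z T hm z \ XC) \ (pcs (tlo G T hm) B1 j).image Prod.snd) c : ℤ)
      = ∑ j ∈ J, ∑ c ∈ cz G Z T hm j \ W,
        (dg G ((cz G Z T hm z \ XC) \ (pcs (tlo G T hm) B1 j).image Prod.snd) c : ℤ) :=
    sum_congr rfl fun j hj => by rw [hCJ j hj]
  rw [e1]
  have hin : ∀ j ∈ J, ∀ v ∈ Wj j, v ∈ W ∧ v ∈ hz G Z T hm j ∪ cz G Z T hm j := by
    intro j hj v hv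
    rw [hWj] at hv
    obtain ⟨u, hu, hv2⟩ := mem_biUnion.1 hv
    obtain ⟨hu1, hu2⟩ := mem_filter.1 hu
    refine ⟨hWd ▸ mem_biUnion.2 ⟨u, hu1, hv2⟩, ?_⟩
    exact (hfam j (hJ hj)).ipts_sub hu2 ((hfam j (hJ hj)).rpts_sub hX hv2)
  have h1 : ∀ j ∈ J, P j
      ≤ ∑ c ∈ cz G Z T hm j \ W,
          (dg G ((cz G Z T hm z \ XC) \ (pcs (tlo G T hm) B1 j).image Prod.snd) c : ℤ)
        + ∑ v ∈ Wj j \ cz G Z T hm j, (dg G (keepH B1 P1) v : ℤ) := by
    intro j hj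
    have h2 := hP j hj
    unfold PayS at h2
    rw [← hWd] at h2
    rw [hWj]
    exact h2
  have h2 := sum_le_sum h1
  rw [sum_add_distrib] at h2
  have h3 : ∑ j ∈ J, ∑ v ∈ Wj j \ cz G Z T hm j, (dg G (keepH B1 P1) v : ℤ)
      ≤ ∑ v ∈ W \ J.biUnion (cz G Z T hm), (dg G (keepH B1 P1) v : ℤ) := by
    have hH : ∀ j ∈ J, ∀ v ∈ Wj j \ cz G Z T hm j, v ∈ hz G Z T hm j := by
      intro j hj v hv
      obtain ⟨hv1, hv2⟩ := mem_sdiff.1 hv
      rcases mem_union.1 (hin j hj v hv1).2 with h4 | h4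
      · exact h4
      · exact absurd h4 hv2
    rw [← sum_biUnion]
    · refine sum_le_sum_of_subset_of_nonneg (fun v hv => ?_) fun _ _ _ => Nat.cast_nonneg _
      obtain ⟨j, hj, hv2⟩ := mem_biUnion.1 hv
      refine mem_sdiff.2 ⟨(hin j hj v (mem_sdiff.1 hv2).1).1, fun h4 => ?_⟩
      obtain ⟨l, hl, hvl⟩ := mem_biUnion.1 h4
      exact disjoint_left.1 (hW.dHC j (hJ hj) l (hJ hl)) (hH j hj v hv2) hvl
    · intro i hi j hj hij
      show Disjoint _ _
      rw [disjoint_left]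
      intro v hv hv'
      exact disjoint_left.1 (h.csys.dHP (hJ hi) (hJ hj) hij) (hH i hi v hv) (hH j hj v hv')
  linarith

/-- **the own cell paid**: the kept PC pairs of the tail `j` and any kept N-ends `N` of the tail `j` -/
theorem WCoreK.payS_cell (hp : 2 * r ≤ p) (h : WCoreK G Z T r m n p hm)
    (hpk : ∀ x ∈ T, Pk G (cz G Z T hm x) (hz G Z T hm x) (tlo G T hm) (B x) (Ps x))
    {z j : V} (hz' : z ∈ T) (hj : j ∈ T) (hzj : z ≠ j)
    (hB1 : B1 ⊆ B z) (hP1 : P1 ⊆ Ps z) (hXC : XC ⊆ cz G Z T hm z)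
    (hXB : ∀ e ∈ B1, e.2 ∉ XC) (hzX : z ∉ XC) {K : Finset (Itm V)}
    (hK : K ⊆ (T.erase z).biUnion fun x => pkf (B x) (Ps x))
    (hk : ∀ u ∈ K, ikp (tlo G T hm) z u ≠ 0)
    {X : Finset V → Finset V} (hX : ∀ Q, X Q ⊆ oth (tlo G T hm) z Q)
    {N : Finset V} (hN : N ⊆ keepH B1 P1) (hNt : ∀ v ∈ N, tlo G T hm v = j)
    (hNU : ∀ v ∈ N, v ∉ B1.image Prod.fst) {P : ℤ}
    (hP : 2 * P + E G N ≤ 2 * pfw G (cz G Z T hm z \ XC) (tlo G T hm) B1 j
      + 2 * ∑ v ∈ N, ((msC G ((cz G Z T hm z \ XC)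
        \ (pcs (tlo G T hm) B1 j).image Prod.snd) v).card : ℤ)) :
    PayS G Z T hm B Ps B1 P1 XC K X z j P := by
  have hfam : ∀ x ∈ T, Fam (co G) (cz G Z T hm) (hz G Z T hm) (tlo G T hm) x
      (pkf (B x) (Ps x)) := fun x hx => (hpk x hx).fam (h.csys.dCH hx hx).symm
  have hfamK := h.toWHom.famK hpk hz' hB1 hP1 hXC hXB
  have hW := h.wsysT
  have hkH := keepH_sub (hpk z hz') hB1 hP1
  have hXs := keepX_sub (G := G) (Z := Z) (T := T) (hm := hm) (z := z) (B1 := B1) (P1 := P1) hXC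
  have hCj : CP G Z T (fun x => (Z \ keepX G Z T hm z B1 P1 XC).filter fun v => hm v = x) j
      = cz G Z T hm j := CP_sub_ne hXs hzj.symm
  obtain ⟨W, hWd⟩ : ∃ W, W = K.biUnion (rpts (tlo G T hm) X z) := ⟨_, rfl⟩
  obtain ⟨Wj, hWj⟩ : ∃ Wj : Finset V, Wj =
    (K.filter fun u => u ∈ pkf (B j) (Ps j)).biUnion (rpts (tlo G T hm) X z) := ⟨_, rfl⟩
  have hmsC : ∀ x ∈ T, ∀ v ∈ hz G Z T hm z, msC G (cz G Z T hm x) v = msd G (cz G Z T hm x) v := by
    intro x hx v hv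
    ext a
    rw [mem_msC]
    unfold msd
    rw [mem_filter]
    refine ⟨fun q => ⟨q.1, fun q2 => ?_, q.2⟩, fun q => ⟨q.1, q.2.2⟩⟩
    exact disjoint_left.1 (h.wsysT.dHC z hz' x hx) hv (q2 ▸ q.1)
  have h2 := Fam.cell_half h.F.toPFrame h.hh (h.toWHom.csysD (keepX G Z T hm z B1 P1 XC))
    (h.toWHom.wsysD hXs (h.toWHom.z_notMem_keepX hz' hzX)) hfamK hz' hj hzj
    (K := K.filter fun u => u ∈ pkf (B j) (Ps j)) ((filter_subset _ _).trans (keepU_sub hK))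
    (fun u hu => hk u (mem_filter.1 hu).1) hX (N := N)
    (by rw [keep_HP hXC hkH]; exact hN) hNt
    (fun v hv e he h2 => by
      rw [keepU_self, inr_mem_pkf] at he
      exact hNU v hv (h2 ▸ mem_image_of_mem _ he))
    (fun v hv => by
      have h2 : v ∈ hz G Z T hm z ∧ tlo G T hm v = j := by
        rcases mem_union.1 hv with h3 | h3
        · obtain ⟨e, he, rfl⟩ := mem_image.1 h3
          rw [keepU_self, pcz_keep] at he
          obtain ⟨h4, h5⟩ := mem_pcs.1 he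
          exact ⟨(hpk z hz').bH e (hB1 h4), h5⟩
        · exact ⟨hkH (hN h3), hNt v h3⟩
      have h3 := h.msd_le hp hz' h2.1 h2.2
      rw [← hmsC z hz' v h2.1, ← hmsC j hj v h2.1] at h3
      rw [keep_CP, hCj]
      refine le_trans (card_le_card ?_) h3
      intro a ha
      rw [mem_msC] at ha ⊢
      exact ⟨(mem_sdiff.1 ha.1).1, ha.2⟩)
  rw [← hWj, keepU_self, pcz_keep, keep_CP, hCj, keep_HP hXC hkH] at h2
  unfold PayS
  rw [← hWj, ← hWd]
  have h4 : cz G Z T hm j \ Wj ⊆ cz G Z T hm j \ W := by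
    intro c hc
    obtain ⟨hc1, hc2⟩ := mem_sdiff.1 hc
    refine mem_sdiff.2 ⟨hc1, fun hc3 => hc2 ?_⟩
    rw [hWd] at hc3
    obtain ⟨u, hu, hcu⟩ := mem_biUnion.1 hc3
    obtain ⟨x, hx, hux⟩ := mem_biUnion.1 (hK hu)
    have hxT := mem_of_mem_erase hx
    have hf := hfam x hxT
    rw [hWj]
    refine mem_biUnion.2 ⟨u, mem_filter.2 ⟨hu, ?_⟩, hcu⟩
    rcases u with Q | e
    · exact absurd hc1 (disjoint_left.1 (hW.dHC x hxT j hj) (hf.sub Q hux
        (hf.rpts_sub hX hcu)))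
    · simp only [rpts] at hcu
      rcases mem_insert.1 hcu with h8 | h8
      · exact absurd hc1 (disjoint_left.1 (hW.dHC x hxT j hj) (h8 ▸ hf.pcH e hux))
      · rw [mem_singleton] at h8
        have hxj : x = j := by
          by_contra hne
          exact disjoint_left.1 (hW.dCC x hxT j hj hne) (hf.pcC e hux) (h8 ▸ hc1)
        exact hxj ▸ hux
  have h5 : ∑ c ∈ cz G Z T hm j \ Wj,
        (dg G ((cz G Z T hm z \ XC) \ (pcs (tlo G T hm) B1 j).image Prod.snd) c : ℤ)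
      ≤ ∑ c ∈ cz G Z T hm j \ W,
        (dg G ((cz G Z T hm z \ XC) \ (pcs (tlo G T hm) B1 j).image Prod.snd) c : ℤ) :=
    sum_le_sum_of_subset_of_nonneg h4 fun _ _ _ => Nat.cast_nonneg _
  have h6 : (2 : ℤ) * ∑ v ∈ (pcs (tlo G T hm) B1 j).image Prod.fst,
        (((msC G (cz G Z T hm z \ XC) v).card - 1
          - dg G ((pcs (tlo G T hm) B1 j).image Prod.fst) v : ℕ) : ℤ)
      + 2 * ∑ v ∈ N, ((msC G ((cz G Z T hm z \ XC)
        \ (pcs (tlo G T hm) B1 j).image Prod.snd) v).card : ℤ)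
      ≤ 2 * ∑ c ∈ cz G Z T hm j \ Wj,
          (dg G ((cz G Z T hm z \ XC) \ (pcs (tlo G T hm) B1 j).image Prod.snd) c : ℤ)
        + 2 * ∑ v ∈ Wj \ cz G Z T hm j, (dg G (keepH B1 P1) v : ℤ)
        + E G N := by exact_mod_cast h2
  unfold pfw at hP
  linarith

/-- **any rectangle of class edges** -/
theorem payS_rect {z j : V} {K : Finset (Itm V)} {X : Finset V → Finset V}
    {X1 Y1 : Finset V} (hX1 : X1 ⊆ (cz G Z T hm z \ XC) \ (pcs (tlo G T hm) B1 j).image Prod.snd)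
    (hY1 : Y1 ⊆ cz G Z T hm j \ K.biUnion (rpts (tlo G T hm) X z))
    (hXY : ∀ a ∈ X1, ∀ c ∈ Y1, G.Adj a c) :
    PayS G Z T hm B Ps B1 P1 XC K X z j ((X1.card : ℤ) * Y1.card) := by
  unfold PayS
  have h1 := rect_dg (G := G) hX1 hY1 hXY
  have h2 : (0 : ℤ) ≤ ∑ v ∈ (K.filter fun u => u ∈ pkf (B j) (Ps j)).biUnion
      (rpts (tlo G T hm) X z) \ cz G Z T hm j, (dg G (keepH B1 P1) v : ℤ) :=
    sum_nonneg fun _ _ => Nat.cast_nonneg _
  linarith

/-- class points outside the used points -/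
lemma WHom.outS_ge (h : WHom G Z T r m n hm)
    (hpk : ∀ x ∈ T, Pk G (cz G Z T hm x) (hz G Z T hm x) (tlo G T hm) (B x) (Ps x))
    {z j : V} (hj : j ∈ T) {K : Finset (Itm V)}
    (hK : K ⊆ (T.erase z).biUnion fun x => pkf (B x) (Ps x))
    (_hk : ∀ u ∈ K, ikp (tlo G T hm) z u ≠ 0)
    {X : Finset V → Finset V} (hX : ∀ Q, X Q ⊆ oth (tlo G T hm) z Q) {D : Finset V}
    (hD : D ⊆ cz G Z T hm j) :
    max 0 ((D.card : ℤ) - ∑ u ∈ K, (if u ∈ pkf (B j) (Ps j) then (ipc u : ℤ) else 0))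
      ≤ ((D \ K.biUnion (rpts (tlo G T hm) X z)).card : ℤ) := by
  have hfam : ∀ x ∈ T, Fam (co G) (cz G Z T hm) (hz G Z T hm) (tlo G T hm) x
      (pkf (B x) (Ps x)) := fun x hx => (hpk x hx).fam (h.csys.dCH hx hx).symm
  have h3 : D \ K.biUnion (rpts (tlo G T hm) X z)
      = D \ (cz G Z T hm j ∩ K.biUnion (rpts (tlo G T hm) X z)) := by
    ext a
    rw [mem_sdiff, mem_sdiff, mem_inter]
    constructor
    · rintro ⟨h4, h5⟩
      exact ⟨h4, fun h6 => h5 h6.2⟩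
    · rintro ⟨h4, h5⟩
      exact ⟨h4, fun h6 => h5 ⟨hD h4, h6⟩⟩
  rw [h3]
  exact card_sdiff_ge _ _ (Fam.card_colW (z := z) (X := X) h.csys h.wsysT hfam hj hK hX)

/-- **any completely joined pair of sets of class points** -/
theorem WHom.payS_sets (h : WHom G Z T r m n hm)
    (hpk : ∀ x ∈ T, Pk G (cz G Z T hm x) (hz G Z T hm x) (tlo G T hm) (B x) (Ps x))
    {z j : V} (hj : j ∈ T) {K : Finset (Itm V)}
    (hK : K ⊆ (T.erase z).biUnion fun x => pkf (B x) (Ps x))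
    (hk : ∀ u ∈ K, ikp (tlo G T hm) z u ≠ 0)
    {X : Finset V → Finset V} (hX : ∀ Q, X Q ⊆ oth (tlo G T hm) z Q) {A D : Finset V}
    (hA : A ⊆ cz G Z T hm z) (hD : D ⊆ cz G Z T hm j) (hAD : ∀ a ∈ A, ∀ c ∈ D, G.Adj a c) :
    PayS G Z T hm B Ps B1 P1 XC K X z j
      (max 0 ((A.card : ℤ) - (XC.card + (pcs (tlo G T hm) B1 j).card))
        * max 0 ((D.card : ℤ)
          - ∑ u ∈ K, (if u ∈ pkf (B j) (Ps j) then (ipc u : ℤ) else 0))) := by
  have hE := payS_rect (G := G) (Z := Z) (T := T) (hm := hm) (B := B) (Ps := Ps) (B1 := B1)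
    (P1 := P1) (XC := XC) (z := z) (j := j) (K := K) (X := X)
    (X1 := A \ (XC ∪ (pcs (tlo G T hm) B1 j).image Prod.snd))
    (Y1 := D \ K.biUnion (rpts (tlo G T hm) X z))
    (fun a ha => by
      obtain ⟨h1, h2⟩ := mem_sdiff.1 ha
      rw [mem_union, not_or] at h2
      exact mem_sdiff.2 ⟨mem_sdiff.2 ⟨hA h1, h2.1⟩, h2.2⟩)
    (sdiff_subset_sdiff hD subset_rfl)
    (fun a ha c hc => hAD a (mem_sdiff.1 ha).1 c (mem_sdiff.1 hc).1)
  refine hE.mono ?_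
  have a1 := card_sdiff_ge A (XC ∪ (pcs (tlo G T hm) B1 j).image Prod.snd)
    (q := (XC.card : ℤ) + (pcs (tlo G T hm) B1 j).card) (by
      have h1 := card_union_le XC ((pcs (tlo G T hm) B1 j).image Prod.snd)
      have h2 : ((pcs (tlo G T hm) B1 j).image Prod.snd).card ≤ (pcs (tlo G T hm) B1 j).card :=
        card_image_le
      have h3 := h1.trans (Nat.add_le_add_left h2 _)
      exact_mod_cast h3)
  have a2 := h.outS_ge hpk hj hK hk hX hD
  exact mul_le_mul a1 a2 (le_max_left _ _) (Nat.cast_nonneg _)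

/-- **the rectangle of any item** -/
theorem WHom.payS_item (h : WHom G Z T r m n hm)
    (hpk : ∀ x ∈ T, Pk G (cz G Z T hm x) (hz G Z T hm x) (tlo G T hm) (B x) (Ps x))
    {z j : V} (hz' : z ∈ T) (hj : j ∈ T) (hzj : z ≠ j) {K : Finset (Itm V)}
    (hK : K ⊆ (T.erase z).biUnion fun x => pkf (B x) (Ps x))
    (hk : ∀ u ∈ K, ikp (tlo G T hm) z u ≠ 0)
    {X : Finset V → Finset V} (hX : ∀ Q, X Q ⊆ oth (tlo G T hm) z Q)
    {w : Itm V} {x' : V} (hx' : x' ∈ T) (hw : w ∈ pkf (B x') (Ps x')) :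
    PayS G Z T hm B Ps B1 P1 XC K X z j
      (max 0 ((ims G (cz G Z T hm) (tlo G T hm) z w : ℤ)
          - (XC.card + (pcs (tlo G T hm) B1 j).card))
        * max 0 ((ims G (cz G Z T hm) (tlo G T hm) j w : ℤ)
          - ∑ u ∈ K, (if u ∈ pkf (B j) (Ps j) then (ipc u : ℤ) else 0))) := by
  have hfam : ∀ x ∈ T, Fam (co G) (cz G Z T hm) (hz G Z T hm) (tlo G T hm) x
      (pkf (B x) (Ps x)) := fun x hx => (hpk x hx).fam (h.csys.dCH hx hx).symm
  exact h.payS_sets hpk hj hK hk hX (A := icl G (cz G Z T hm) (tlo G T hm) z w)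
    (D := icl G (cz G Z T hm) (tlo G T hm) j w) rcl_sub rcl_sub
    (fun a ha c hc => (hfam x' hx').icl_complete h.wsysT hx' hz' hj hzj hw a ha c hc)

/-- **the rectangle of an item of value one of the row `z` with tail `j`** (kept or dropped), all arcs -/
theorem WCoreK.payS_in (hp : 2 * r ≤ p) (h : WCoreK G Z T r m n p hm)
    (hpk : ∀ x ∈ T, Pk G (cz G Z T hm x) (hz G Z T hm x) (tlo G T hm) (B x) (Ps x))
    (hmin : ∀ x ∈ T, ∀ B' Ps', Pk G (cz G Z T hm x) (hz G Z T hm x) (tlo G T hm) B' Ps' →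
      (Ps x).card ≤ Ps'.card)
    {z j : V} (hz' : z ∈ T) (hj : j ∈ T) (hzj : z ≠ j) (hB1 : B1 ⊆ B z) {K : Finset (Itm V)}
    (hK : K ⊆ (T.erase z).biUnion fun x => pkf (B x) (Ps x))
    (hk : ∀ u ∈ K, ikp (tlo G T hm) z u ≠ 0)
    {X : Finset V → Finset V} (hX : ∀ Q, X Q ⊆ oth (tlo G T hm) z Q)
    {w : Itm V} (hw : w ∈ pkf (B z) (Ps z)) (hw1 : ivl w = 1) (hwk : ikp (tlo G T hm) j w ≠ 0) :
    PayS G Z T hm B Ps B1 P1 XC K X z j
      (max ((nui G (cz G Z T hm z) (tlo G T hm) (B z) j w : ℤ) - XC.card)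
          (max 0 (aha G Z T hm B z j w - (XC.card + (pcs (tlo G T hm) B1 j).card)))
        * max 0 (max (aha G Z T hm B z j w) (ims G (cz G Z T hm) (tlo G T hm) j w)
          - ∑ u ∈ K, (if u ∈ pkf (B j) (Ps j) then (ipc u : ℤ) else 0))) := by
  obtain ⟨v, hv, hvH, hvj, hnu, hfr, h2, h3⟩ := h.rep3 hp hz' (hpk z hz') (hmin z hz') hw hw1 hwk
  have hcell := h.csys.cellD h.F.toPFrame hz' hj hzj
  have hvD := h.csys.mem_Dbl_of_tlo h.hh hz' hvH hvj
  have hE := payS_rect (G := G) (Z := Z) (T := T) (hm := hm) (B := B) (Ps := Ps) (B1 := B1)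
    (P1 := P1) (XC := XC) (z := z) (j := j) (K := K) (X := X)
    (X1 := msd G (cz G Z T hm z) v \ (XC ∪ (pcs (tlo G T hm) B1 j).image Prod.snd))
    (Y1 := msd G (cz G Z T hm j) v \ K.biUnion (rpts (tlo G T hm) X z))
    (fun a ha => by
      obtain ⟨h4, h5⟩ := mem_sdiff.1 ha
      rw [mem_union, not_or] at h5
      exact mem_sdiff.2 ⟨mem_sdiff.2 ⟨((h.mem_msd hz' hz' hvH).1 h4).1, h5.1⟩, h5.2⟩)
    (sdiff_subset_sdiff (fun a ha => ((h.mem_msd hz' hj hvH).1 ha).1) subset_rfl)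
    (fun a ha c hc => by
      obtain ⟨a1, a2⟩ := (h.mem_msd hz' hj hvH).1 (mem_sdiff.1 hc).1
      obtain ⟨a3, a4⟩ := (h.mem_msd hz' hz' hvH).1 (mem_sdiff.1 ha).1
      exact hcell.rect v hvD a a3 c a1 a4 a2)
  refine hE.mono ?_
  have a1 := card_sdiff_ge (msd G (cz G Z T hm z) v)
    (XC ∪ (pcs (tlo G T hm) B1 j).image Prod.snd)
    (q := (XC.card : ℤ) + (pcs (tlo G T hm) B1 j).card) (by
      have h1 := card_union_le XC ((pcs (tlo G T hm) B1 j).image Prod.snd)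
      have h2 : ((pcs (tlo G T hm) B1 j).image Prod.snd).card ≤ (pcs (tlo G T hm) B1 j).card :=
        card_image_le
      have h3 := h1.trans (Nat.add_le_add_left h2 _)
      exact_mod_cast h3)
  have a2 := h.toWHom.outS_ge hpk hj hK hk hX (D := msd G (cz G Z T hm j) v)
    (fun a ha => ((h.mem_msd hz' hj hvH).1 ha).1)
  have a3 : (nui G (cz G Z T hm z) (tlo G T hm) (B z) j w : ℤ) - XC.card
      ≤ ((msd G (cz G Z T hm z) v \ (XC ∪ (pcs (tlo G T hm) B1 j).image Prod.snd)).card : ℤ) := by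
    rw [hnu]
    have e1 : frC G (cz G Z T hm z) (tlo G T hm) (B z) v \ XC
        ⊆ msd G (cz G Z T hm z) v \ (XC ∪ (pcs (tlo G T hm) B1 j).image Prod.snd) := by
      intro a ha
      obtain ⟨ha1, ha2⟩ := mem_sdiff.1 ha
      obtain ⟨b1, b2, b3⟩ := mem_frC.1 ha1
      refine mem_sdiff.2 ⟨hfr ha1, fun h4 => ?_⟩
      rcases mem_union.1 h4 with h5 | h5
      · exact ha2 h5
      · obtain ⟨e, he, hea⟩ := mem_image.1 h5
        obtain ⟨h9, h10⟩ := mem_pcs.1 he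
        exact b3 e (hB1 h9) hea (h10.trans hvj.symm)
    have e2 := card_sdiff_ge (frC G (cz G Z T hm z) (tlo G T hm) (B z) v) XC le_rfl
    have e3 : ((frC G (cz G Z T hm z) (tlo G T hm) (B z) v \ XC).card : ℤ)
        ≤ ((msd G (cz G Z T hm z) v
          \ (XC ∪ (pcs (tlo G T hm) B1 j).image Prod.snd)).card : ℤ) := by
      exact_mod_cast card_le_card e1
    exact ((le_max_right _ _).trans e2).trans e3
  refine mul_le_mul (max_le a3 (le_trans (max_le_max le_rfl (by linarith)) a1))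
    (le_trans (max_le_max le_rfl (by linarith)) a2) (le_max_left _ _) (Nat.cast_nonneg _)

/-- **the rectangle of an item of value one of the row `j` with tail `z`**, all arcs -/
theorem WCoreK.payS_out (hp : 2 * r ≤ p) (h : WCoreK G Z T r m n p hm)
    (hpk : ∀ x ∈ T, Pk G (cz G Z T hm x) (hz G Z T hm x) (tlo G T hm) (B x) (Ps x))
    (hmin : ∀ x ∈ T, ∀ B' Ps', Pk G (cz G Z T hm x) (hz G Z T hm x) (tlo G T hm) B' Ps' →
      (Ps x).card ≤ Ps'.card)
    {z j : V} (hz' : z ∈ T) (hj : j ∈ T) (hzj : z ≠ j) {K : Finset (Itm V)}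
    (hK : K ⊆ (T.erase z).biUnion fun x => pkf (B x) (Ps x))
    (hk : ∀ u ∈ K, ikp (tlo G T hm) z u ≠ 0)
    {X : Finset V → Finset V} (hX : ∀ Q, X Q ⊆ oth (tlo G T hm) z Q)
    {w : Itm V} (hw : w ∈ pkf (B j) (Ps j)) (hw1 : ivl w = 1) (hwk : ikp (tlo G T hm) z w ≠ 0) :
    PayS G Z T hm B Ps B1 P1 XC K X z j
      (max 0 (max (aha G Z T hm B j z w) (ims G (cz G Z T hm) (tlo G T hm) z w)
          - (XC.card + (pcs (tlo G T hm) B1 j).card))
        * max (nui G (cz G Z T hm j) (tlo G T hm) (B j) z w : ℤ) (aha G Z T hm B j z w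
          - ∑ u ∈ K, (if u ∈ pkf (B j) (Ps j) then (ipc u : ℤ) else 0))) := by
  have hfam : ∀ x ∈ T, Fam (co G) (cz G Z T hm) (hz G Z T hm) (tlo G T hm) x
      (pkf (B x) (Ps x)) := fun x hx => (hpk x hx).fam (h.csys.dCH hx hx).symm
  obtain ⟨v, hv, hvH, hvz, hnu, hfr, h2, h3⟩ := h.rep3 hp hj (hpk j hj) (hmin j hj) hw hw1 hwk
  have hcell := h.csys.cellD h.F.toPFrame hj hz' hzj.symm
  have hvD := h.csys.mem_Dbl_of_tlo h.hh hj hvH hvz
  obtain ⟨Wp, hWp⟩ : ∃ Wp, Wp = K.biUnion (rpts (tlo G T hm) X z) := ⟨_, rfl⟩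
  have hE := payS_rect (G := G) (Z := Z) (T := T) (hm := hm) (B := B) (Ps := Ps) (B1 := B1)
    (P1 := P1) (XC := XC) (z := z) (j := j) (K := K) (X := X)
    (X1 := msd G (cz G Z T hm z) v \ (XC ∪ (pcs (tlo G T hm) B1 j).image Prod.snd))
    (Y1 := msd G (cz G Z T hm j) v \ Wp)
    (fun a ha => by
      obtain ⟨h4, h5⟩ := mem_sdiff.1 ha
      rw [mem_union, not_or] at h5
      exact mem_sdiff.2 ⟨mem_sdiff.2 ⟨((h.mem_msd hj hz' hvH).1 h4).1, h5.1⟩, h5.2⟩)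
    (hWp ▸ sdiff_subset_sdiff (fun a ha => ((h.mem_msd hj hj hvH).1 ha).1) subset_rfl)
    (fun a ha c hc => by
      obtain ⟨a1, a2⟩ := (h.mem_msd hj hz' hvH).1 (mem_sdiff.1 ha).1
      obtain ⟨a3, a4⟩ := (h.mem_msd hj hj hvH).1 (mem_sdiff.1 hc).1
      exact (hcell.rect v hvD c a3 a a1 a4 a2).symm)
  refine hE.mono ?_
  have a1 := card_sdiff_ge (msd G (cz G Z T hm z) v)
    (XC ∪ (pcs (tlo G T hm) B1 j).image Prod.snd)
    (q := (XC.card : ℤ) + (pcs (tlo G T hm) B1 j).card) (by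
      have h1 := card_union_le XC ((pcs (tlo G T hm) B1 j).image Prod.snd)
      have h2 : ((pcs (tlo G T hm) B1 j).image Prod.snd).card ≤ (pcs (tlo G T hm) B1 j).card :=
        card_image_le
      have h3 := h1.trans (Nat.add_le_add_left h2 _)
      exact_mod_cast h3)
  have a2 := h.toWHom.outS_ge hpk hj hK hk hX (D := msd G (cz G Z T hm j) v)
    (fun a ha => ((h.mem_msd hj hj hvH).1 ha).1)
  rw [← hWp] at a2
  have a3 : (nui G (cz G Z T hm j) (tlo G T hm) (B j) z w : ℤ)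
      ≤ ((msd G (cz G Z T hm j) v \ Wp).card : ℤ) := by
    rw [hnu]
    have : frC G (cz G Z T hm j) (tlo G T hm) (B j) v ⊆ msd G (cz G Z T hm j) v \ Wp := by
      intro a ha
      obtain ⟨b1, b2, b3⟩ := mem_frC.1 ha
      refine mem_sdiff.2 ⟨hfr ha, fun h4 => ?_⟩
      rw [hWp] at h4
      obtain ⟨u, hu, h7⟩ := mem_biUnion.1 h4
      obtain ⟨x', hx', hux'⟩ := mem_biUnion.1 (hK hu)
      obtain ⟨e, rfl, h8, h9, h10⟩ := Fam.cls_pt h.wsysT hfam (mem_of_mem_erase hx') hj hux'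
        (hk u hu) hX h7 b1
      exact b3 e (inr_mem_pkf.1 (h10 ▸ hux')) h8 (h9.trans hvz.symm)
    exact_mod_cast card_le_card this
  refine mul_le_mul (le_trans (max_le_max le_rfl (by linarith)) a1)
    (max_le a3 ((by linarith : _ ≤ _).trans ((le_max_right _ _).trans a2)))
    (le_trans (Nat.cast_nonneg _) (le_max_left _ _)) (Nat.cast_nonneg _)

end PayS

end Pool.Agent.Lib.MP_f04ccf_co
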