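import Pool.Agent.Lib.MP_f04ccf_co.M.MatU
import Pool.Agent.Lib.MP_f04ccf_co.M.RowCol
import Pool.Agent.Lib.MP_f04ccf_co.M.WNumK

/-!
MP_f04ccf_co, PLAN W (note 17173): the sum of the loads of an item is at most its value plus one (plus
zero for a PC pair), the misses at a row are at most the size of its class.  `Fam.sum_ikp_le`,
`WHom.sumk`, `WHom.msc`: the forms over the basic integers.
-/

set_option autoImplicit false

namespace Pool.Agent.Lib.MP_f04ccf_co

open Finset

attribute [local instance] Classical.propDecidable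

section SumK

variable {V : Type*} {G : SimpleGraph V} {Z T : Finset V} {hm : V → V} {r m n : ℕ}
  {A : Finset V} {S : V → Finset V}

/-- **the loads of an item** -/
theorem Fam.sum_ikp_le {U : Finset (Itm V)}
    (hW : WSysT G (co G) A (CP G Z T S) (HP G Z T S) (tlo G T hm)) {x : V} (hx : x ∈ A)
    (h : Fam (co G) (CP G Z T S) (HP G Z T S) (tlo G T hm) x U) {u : Itm V} (hu : u ∈ U) :
    ∑ z ∈ A, ikp (tlo G T hm) z u + ipc u ≤ ivl u + 1 := by
  rcases u with Q | e
  · have h2 := h.two Q hu
    simp only [ipc, add_zero]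
    by_cases hex : ∃ y ∈ A, tlp (tlo G T hm) Q y = Q
    · obtain ⟨y, hy, hyQ⟩ := hex
      have h3 : ∀ z ∈ A, z ≠ y → ikp (tlo G T hm) z (Sum.inl Q : Itm V) = 0 := by
        intro z _ hzy
        have h4 : tlp (tlo G T hm) Q z = ∅ := by
          rw [eq_empty_iff_forall_notMem]
          intro v hv
          have h5 := mem_tlp.1 hv
          have h6 : v ∈ tlp (tlo G T hm) Q y := by
            rw [hyQ]
            exact h5.1
          exact hzy (h5.2.symm.trans (mem_tlp.1 h6).2)
        have h5 : tlp (tlo G T hm) Q z ≠ Q := by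
          intro h6
          rw [h4] at h6
          rw [← h6, card_empty] at h2
          omega
        show (if tlp (tlo G T hm) Q z = Q then Q.card - 1 else (tlp (tlo G T hm) Q z).card) = 0
        rw [if_neg h5, h4, card_empty]
      rw [sum_eq_single_of_mem y hy h3]
      have h4 : ikp (tlo G T hm) y (Sum.inl Q : Itm V) ≤ ivl (Sum.inl Q : Itm V) := ikp_le_ivl
      omega
    · push Not at hex
      exact le_of_eq (h.sum_ikp hW hx hu hex)
  · simp only [ipc, ivl]
    have h3 : ∑ z ∈ A, ikp (tlo G T hm) z (Sum.inr e : Itm V) ≤ 1 := by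
      have h4 : ∑ z ∈ A, ikp (tlo G T hm) z (Sum.inr e : Itm V)
          = ∑ z ∈ A, if z = tlo G T hm e.1 then 1 else 0 :=
        sum_congr rfl fun z _ => by
          simp only [ikp]
          by_cases h5 : tlo G T hm e.1 = z
          · rw [if_pos h5, if_pos h5.symm]
          · rw [if_neg h5, if_neg fun h6 => h5 h6.symm]
      rw [h4, sum_ite_eq']
      split_ifs <;> omega
    omega

/-- the misses at a row -/
lemma ims_le_card (C : V → Finset V) (tl : V → V) (z : V) (u : Itm V) :
    ims G C tl z u ≤ (C z).card := card_le_card rcl_sub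

/-- **the misses at a row over the basic integers** -/
theorem msc_int (x : V) (u : Itm V) :
    (ims G (cz G Z T hm) (tlo G T hm) x u : ℤ) ≤ (r : ℤ) - 1 - tI G Z T hm r Z x := by
  have h1 : (ims G (cz G Z T hm) (tlo G T hm) x u : ℤ) ≤ ((cz G Z T hm x).card : ℤ) := by
    exact_mod_cast ims_le_card (G := G) (cz G Z T hm) (tlo G T hm) x u
  refine h1.trans (le_of_eq ?_)
  unfold tI
  ring

/-- **the loads of an item over the basic integers** -/
theorem WHom.sumk (h : WHom G Z T r m n hm) {B : V → Finset (V × V)}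
    {Ps : V → Finset (Finset V)} {f : V → ℤ} {ρ : V → ℕ} {σ : ℕ → V}
    (hpk : ∀ x ∈ T, Pk G (cz G Z T hm x) (hz G Z T hm x) (tlo G T hm) (B x) (Ps x))
    (rk : Rank T f ρ σ) (cT : T.card = n) {u : Itm V}
    (hu : u ∈ T.biUnion fun x => pkf (B x) (Ps x)) :
    ∑ i ∈ range n, (ikp (tlo G T hm) (σ i) u : ℤ) ≤ (ivl u : ℤ) + 1 - ipc u := by
  obtain ⟨x, hx, hu'⟩ := mem_biUnion.1 hu
  have h1 := Fam.sum_ikp_le h.wsysT hx ((hpk x hx).fam (h.csys.dCH hx hx).symm) hu'
  have h2 := rk.sum fun z => (ikp (tlo G T hm) z u : ℤ)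
  rw [cT] at h2
  have h3 : ∑ z ∈ T, (ikp (tlo G T hm) z u : ℤ) + ipc u ≤ ivl u + 1 := by exact_mod_cast h1
  linarith

end SumK

end Pool.Agent.Lib.MP_f04ccf_co
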