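import Mathlib.Algebra.BigOperators.Group.Finset.Basic
import Mathlib.Algebra.Order.BigOperators.Group.Finset
import Mathlib.Tactic.Common

/-!
MP_f04ccf_co, TEXT D, middle range: **superadditive mass tables**.  `Kern.supOk f`: the list `f` satisfies
`f[a] + f[b] ≤ f[a + b]`; `Kern.sup_sum`: then `∑ f[B y] ≤ f[c]` for `∑ B y ≤ c`.
-/

set_option autoImplicit false

namespace Pool.Agent.Lib.MP_f04ccf_co

open Finset

attribute [local instance] Classical.propDecidable

namespace Kern

/-- `v + x ≤ y` for the entries at the same place -/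
def srow (v : ℕ) : List ℕ → List ℕ → Bool
  | [], _ => true
  | _ :: _, [] => true
  | x :: xs, y :: ys => Nat.ble (Nat.add v x) y && srow v xs ys

/-- `srow` for all tails -/
def supT (f : List ℕ) : List ℕ → Bool
  | [] => true
  | v :: gs => srow v f (v :: gs) && supT f gs

/-- `f` is superadditive -/
def supOk (f : List ℕ) : Bool := supT f f

lemma srow_spec (v : ℕ) : ∀ (xs ys : List ℕ), srow v xs ys = true → ∀ i, i < xs.length →
    i < ys.length → v + xs.getD i 0 ≤ ys.getD i 0
  | [], _, _, i, h, _ => absurd h (by simp)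
  | _ :: _, [], _, i, _, h => absurd h (by simp)
  | x :: xs, y :: ys, h, i, h1, h2 => by
    have h3 : (Nat.ble (Nat.add v x) y && srow v xs ys) = true := h
    rw [Bool.and_eq_true, Nat.ble_eq] at h3
    cases i with
    | zero => exact h3.1
    | succ i => exact srow_spec v xs ys h3.2 i (by simpa using h1) (by simpa using h2)

lemma supT_spec (f : List ℕ) : ∀ gs : List ℕ, supT f gs = true → ∀ a b, b < f.length →
    a + b < gs.length → gs.getD a 0 + f.getD b 0 ≤ gs.getD (a + b) 0
  | [], _, _, _, _, h => absurd h (by simp)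
  | v :: gs, h, 0, b, hb, hab => by
    have h3 : (srow v f (v :: gs) && supT f gs) = true := h
    rw [Bool.and_eq_true] at h3
    have h4 := srow_spec v f (v :: gs) h3.1 b hb (by rwa [Nat.zero_add] at hab)
    rw [Nat.zero_add]
    exact h4
  | v :: gs, h, a + 1, b, hb, hab => by
    have h3 : (srow v f (v :: gs) && supT f gs) = true := h
    rw [Bool.and_eq_true] at h3
    have h4 := supT_spec f gs h3.2 a b hb (by
      have h5 : (v :: gs).length = gs.length + 1 := rfl
      omega)
    have h5 : (v :: gs).getD (a + 1 + b) 0 = gs.getD (a + b) 0 := by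
      rw [show a + 1 + b = (a + b) + 1 by omega]
      rfl
    rw [h5]
    exact h4

/-- **the mass bound** -/
theorem sup_sum {f : List ℕ} (h : supOk f = true) {α : Type*} {S : Finset α} {B : α → ℕ} {c : ℕ}
    (hc : c < f.length) (hB : ∑ y ∈ S, B y ≤ c) : ∑ y ∈ S, f.getD (B y) 0 ≤ f.getD c 0 := by
  have h1 : ∀ a b, a + b < f.length → f.getD a 0 + f.getD b 0 ≤ f.getD (a + b) 0 :=
    fun a b hab => supT_spec f f h a b (by omega) hab
  have h2 : ∑ y ∈ S, B y < f.length → ∑ y ∈ S, f.getD (B y) 0 ≤ f.getD (∑ y ∈ S, B y) 0 := by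
    clear hB
    induction S using Finset.induction_on with
    | empty =>
      intro _
      rw [sum_empty]
      exact Nat.zero_le _
    | insert z S hz ih =>
      intro hs
      rw [sum_insert hz] at hs ⊢
      rw [sum_insert hz]
      exact (Nat.add_le_add_left (ih (by omega)) _).trans (h1 _ _ hs)
  refine (h2 (by omega)).trans ?_
  have h3 := h1 (∑ y ∈ S, B y) (c - ∑ y ∈ S, B y) (by omega)
  rw [Nat.add_sub_cancel' hB] at h3
  exact (Nat.le_add_right _ _).trans h3

end Kern

end Pool.Agent.Lib.MP_f04ccf_co
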