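import Pool.Agent.Lib.MP_f04ccf_co.M.LagI

/-!
MP_f04ccf_co, PLAN W, track 2 (FORMAT, note 17331): certificates by blocks and a knapsack over `t`.
`Lag.blk_le`: one bound for a block of rows, one for every other row.
`Lag.knap_le`: a table `f m C` bounds the sum of `rho (t i)` over at least `m` rows with
`∑ (t i + 1) ≤ C`.
`Lag.blk_dead`: no data if block and table stay below `D`.
`Lag.pot_thr`: the values of an item with the 0/1 thresholds; `Lag.pot_lin`: the potentials of a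
half unit which are linear in the hits.
-/

set_option autoImplicit false

namespace Pool.Agent.Lib.MP_f04ccf_co

open Finset

attribute [local instance] Classical.propDecidable

namespace Lag

section Block

variable {ι : Type*} {n : ℕ} {s rho : ℕ → ℤ} {U : Finset ι} {ho : ι → ℕ} {g : ℕ → ι → ℤ}
  {q : ι → ℤ} {D : ℤ}

/-- **duality with one block of rows** -/
theorem blk_le (hlt : ∀ u ∈ U, ho u < n) (hs : ∑ i ∈ range n, s i = 1)
    (hq : ∀ u ∈ U, q u ≤ ∑ i ∈ range n, g i u) {B : Finset ℕ} (hB : B ⊆ range n) {rB : ℤ}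
    (hb : ∑ i ∈ B, (D * s i + ∑ u ∈ U, g i u - ∑ u ∈ U.filter (fun u => ho u = i), q u) ≤ rB)
    (hF : ∀ i < n, i ∉ B →
      D * s i + ∑ u ∈ U, g i u - ∑ u ∈ U.filter (fun u => ho u = i), q u ≤ rho i) :
    D ≤ rB + ∑ i ∈ range n \ B, rho i := by
  have h1 := sum_le (D := D) (rho := fun i =>
    D * s i + ∑ u ∈ U, g i u - ∑ u ∈ U.filter (fun u => ho u = i), q u) hlt hs hq
    fun i _ => le_rfl
  rw [← sum_sdiff hB] at h1
  have h2 : ∑ i ∈ range n \ B, (D * s i + ∑ u ∈ U, g i u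
      - ∑ u ∈ U.filter (fun u => ho u = i), q u) ≤ ∑ i ∈ range n \ B, rho i :=
    sum_le_sum fun i hi => hF i (mem_range.1 (mem_sdiff.1 hi).1) (mem_sdiff.1 hi).2
  linarith

end Block

section Knap

variable {t : ℕ → ℤ} {rho : ℤ → ℤ} {f : ℕ → ℤ → ℤ} {T N : ℤ}

/-- **the knapsack**: `f m C` bounds the sum over at least `m` rows of total cost `C` -/
theorem knap_le (h0 : ∀ C, 0 ≤ C → C ≤ N → 0 ≤ f 0 C)
    (h1 : ∀ C x, 0 ≤ x → x ≤ T → x + 1 ≤ C → C ≤ N → rho x + f 0 (C - x - 1) ≤ f 0 C)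
    (h2 : ∀ m C x, 0 ≤ x → x ≤ T → x + 1 ≤ C → C ≤ N →
      rho x + f m (C - x - 1) ≤ f (m + 1) C) (S : Finset ℕ) :
    ∀ m ≤ S.card, ∀ C, (∀ i ∈ S, 0 ≤ t i ∧ t i ≤ T) → ∑ i ∈ S, (t i + 1) ≤ C → C ≤ N →
      ∑ i ∈ S, rho (t i) ≤ f m C := by
  induction S using Finset.induction_on with
  | empty =>
    intro m hm C _ hC hN
    rw [card_empty] at hm
    obtain rfl := Nat.le_zero.1 hm
    rw [sum_empty] at hC ⊢
    exact h0 C hC hN
  | insert a S ha ih =>
    intro m hm C hS hC hN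
    rw [sum_insert ha] at hC ⊢
    obtain ⟨ha0, haT⟩ := hS a (mem_insert_self _ _)
    have hS' : ∀ i ∈ S, 0 ≤ t i ∧ t i ≤ T := fun i hi => hS i (mem_insert_of_mem hi)
    have h3 : 0 ≤ ∑ i ∈ S, (t i + 1) := sum_nonneg fun i hi => by
      have := (hS' i hi).1
      linarith
    rw [card_insert_of_notMem ha] at hm
    rcases Nat.eq_zero_or_pos m with rfl | hm0
    · have h4 := ih 0 (Nat.zero_le _) (C - t a - 1) hS' (by linarith) (by linarith)
      have h5 := h1 C (t a) ha0 haT (by linarith) hN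
      linarith
    · obtain ⟨k, rfl⟩ := Nat.exists_eq_succ_of_ne_zero hm0.ne'
      have h4 := ih k (by omega) (C - t a - 1) hS' (by linarith) (by linarith)
      have h5 := h2 k C (t a) ha0 haT (by linarith) hN
      simp only [Nat.succ_eq_add_one]
      linarith

variable {ι : Type*} {n : ℕ} {s h e : ℕ → ℤ} {E : ℕ → ℕ → ℤ} {R : ℤ} {U : Finset ι} {ho : ι → ℕ}
  {g : ℕ → ι → ℤ} {q : ι → ℤ} {D : ℤ}

/-- **the certificate of the block `{0, 1}`** (the two largest `t`) and a table for the other rows -/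
theorem blk_dead (H : BI R n t s h e E) (h5 : 5 ≤ n) (hlt : ∀ u ∈ U, ho u < n)
    (hq : ∀ u ∈ U, q u ≤ ∑ i ∈ range n, g i u) {rB : ℤ}
    (hb : D * s 0 + ∑ u ∈ U, g 0 u - ∑ u ∈ U.filter (fun u => ho u = 0), q u
      + (D * s 1 + ∑ u ∈ U, g 1 u - ∑ u ∈ U.filter (fun u => ho u = 1), q u) ≤ rB)
    (hF : ∀ i < n, 2 ≤ i →
      D * s i + ∑ u ∈ U, g i u - ∑ u ∈ U.filter (fun u => ho u = i), q u ≤ rho (t i))
    (h0 : ∀ C, 0 ≤ C → C ≤ R - t 0 - t 1 - 2 → 0 ≤ f 0 C)
    (h1 : ∀ C x, 0 ≤ x → x ≤ t 1 → x + 1 ≤ C → C ≤ R - t 0 - t 1 - 2 →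
      rho x + f 0 (C - x - 1) ≤ f 0 C)
    (h2 : ∀ m C x, 0 ≤ x → x ≤ t 1 → x + 1 ≤ C → C ≤ R - t 0 - t 1 - 2 →
      rho x + f m (C - x - 1) ≤ f (m + 1) C)
    (hc : rB + f 3 (R - t 0 - t 1 - 2) < D) : False := by
  have hBn : ({0, 1} : Finset ℕ) ⊆ range n := by
    intro i hi
    rcases mem_insert.1 hi with h3 | h3
    · exact mem_range.2 (by omega)
    · exact mem_range.2 (by rw [mem_singleton.1 h3]; omega)
  have hmem : ∀ i ∈ range n \ {0, 1}, i < n ∧ 2 ≤ i := by
    intro i hi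
    obtain ⟨h3, h4⟩ := mem_sdiff.1 hi
    simp only [mem_insert, mem_singleton, not_or] at h4
    exact ⟨mem_range.1 h3, by omega⟩
  have h3 := blk_le (D := D) (s := s) (g := g) (q := q) (rho := fun i => rho (t i)) hlt H.ss hq
    hBn (rB := rB) (by
      rw [sum_insert (by simp), sum_singleton]
      exact hb) fun i hi hi2 => hF i hi (by
        simp only [mem_insert, mem_singleton, not_or] at hi2
        omega)
  have h4 := sum_t H
  have h6 : ∑ i ∈ range n \ {0, 1}, (t i + 1) ≤ R - t 0 - t 1 - 2 := by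
    have h7 : ∑ i ∈ range n, (t i + 1) = ∑ i ∈ range n, t i + n := by
      rw [sum_add_distrib, sum_const, card_range, nsmul_eq_mul, mul_one]
    have h8 := sum_sdiff (f := fun i => t i + 1) hBn
    rw [sum_insert (by simp : (0 : ℕ) ∉ ({1} : Finset ℕ)), sum_singleton] at h8
    linarith
  have h7 : 3 ≤ (range n \ {0, 1}).card := by
    rw [card_sdiff_of_subset hBn, card_range]
    have : ({0, 1} : Finset ℕ).card = 2 := rfl
    omega
  have h8 := knap_le (t := t) h0 h1 h2 (range n \ {0, 1}) 3 h7 (R - t 0 - t 1 - 2)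
    (fun i hi => ⟨H.t0 i (hmem i hi).1, H.anti 1 i (by have := (hmem i hi).2; omega)
      (hmem i hi).1⟩) h6 le_rfl
  linarith

end Knap

section Pot

/-- **the values of an item with 0/1 thresholds**: at most one row has too many misses -/
theorem pot_thr {n : ℕ} {kp b θ : ℕ → ℤ} {v : ℤ} {K : ℕ → ℕ → ℤ}
    (hk : v ≤ ∑ i ∈ range n, kp i) (hk1 : (∃ i < n, θ i < b i) → v + 1 ≤ ∑ i ∈ range n, kp i)
    (hp : ∀ i < n, ∀ j < n, i ≠ j → b i * b j ≤ K i j) (hθ0 : ∀ i < n, 0 ≤ θ i)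
    (hθ : ∀ i < n, ∀ j < n, i ≠ j → K i j < (θ i + 1) * (θ j + 1)) :
    v ≤ ∑ i ∈ range n, (kp i - if θ i < b i then 1 else 0) := by
  rw [sum_sub_distrib]
  by_cases h : ∃ i < n, θ i < b i
  · obtain ⟨i, hi, hib⟩ := h
    have h1 := hk1 ⟨i, hi, hib⟩
    have h2 : ∑ j ∈ range n, (if θ j < b j then (1 : ℤ) else 0) = 1 := by
      rw [← add_sum_erase _ _ (mem_range.2 hi), if_pos hib, sum_eq_zero, add_zero]
      intro j hj
      obtain ⟨hji, hj⟩ := mem_erase.1 hj
      rw [if_neg]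
      intro hjb
      have h3 := hp i hi j (mem_range.1 hj) (Ne.symm hji)
      have h4 := hθ i hi j (mem_range.1 hj) (Ne.symm hji)
      have h5 := hθ0 i hi
      have h6 := hθ0 j (mem_range.1 hj)
      have h7 : (θ i + 1) * (θ j + 1) ≤ b i * b j :=
        mul_le_mul (by omega) (by omega) (by omega) (by omega)
      linarith
    linarith
  · have h2 : ∑ j ∈ range n, (if θ j < b j then (1 : ℤ) else 0) = 0 :=
      sum_eq_zero fun j hj => if_neg fun h3 => h ⟨j, mem_range.1 hj, h3⟩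
    linarith

/-- the product condition of the host dependent threshold `hits ≥ tx + γ`:
`θ = c - tx - γ` at both rows -/
theorem thr_host {R tx ty tz γ : ℤ}
    (h : R < (R - tx - γ + 1) * (R - tx - ty - tz - γ + 1)) :
    R + ty * tz < (R - ty - tx - γ + 1) * (R - tz - tx - γ + 1) := by
  nlinarith

/-- **the potentials of a half unit, linear in the hits**: `L = c - B`, both blind ends are covered -/
theorem pot_lin {cy cz By Bz b b' K : ℤ} (hby : b ≤ cy) (hbz : b' ≤ cz)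
    (hBy : 0 ≤ By) (hLy : By < cy) (hLz : Bz < cz) (hK : b * b' ≤ K)
    (h1 : K ≤ cy * Bz) (h2 : K ≤ cz * By) :
    (cy - By) * (cz - Bz) ≤ min (cy - By) (cy - b) * (cz - Bz) + min (cz - Bz) (cz - b') * (cy - By) := by
  rcases le_total b By with h3 | h3
  · rw [min_eq_left (by linarith)]
    have : 0 ≤ min (cz - Bz) (cz - b') := le_min (by linarith) (by linarith)
    nlinarith
  rcases le_total b' Bz with h4 | h4
  · rw [min_eq_left (by linarith : cz - Bz ≤ cz - b')]
    have : 0 ≤ min (cy - By) (cy - b) := le_min (by linarith) (by linarith)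
    nlinarith
  rw [min_eq_right (by linarith), min_eq_right (by linarith)]
  by_contra hcon
  push Not at hcon
  -- `β = b - By`, `φ(β) = (By + β)(cz Ly - Lz β) ≥ Ly K` by concavity
  have hβ0 : 0 ≤ b - By := by linarith
  have hβ1 : 0 ≤ cy - b := by linarith
  have hb0 : 0 ≤ b := by linarith
  have e1 : (cy - By) * b' > cz * (cy - By) - (cz - Bz) * (b - By) := by nlinarith
  have e2 : b * (cz * (cy - By) - (cz - Bz) * (b - By))
      = (cy - b) * (By * cz) + (b - By) * (cy * Bz) + (cz - Bz) * (b - By) * (cy - b) := by ring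
  have e3 : 0 ≤ (cz - Bz) * (b - By) * (cy - b) :=
    mul_nonneg (mul_nonneg (by linarith) hβ0) hβ1
  have e4 : (cy - b) * K ≤ (cy - b) * (By * cz) :=
    mul_le_mul_of_nonneg_left (by linarith) hβ1
  have e5 : (b - By) * K ≤ (b - By) * (cy * Bz) := mul_le_mul_of_nonneg_left h1 hβ0
  have e6 : (cy - By) * K ≤ b * (cz * (cy - By) - (cz - Bz) * (b - By)) := by
    rw [e2]
    nlinarith
  rcases hb0.eq_or_lt with h5 | h5
  · -- `b = 0`: then `By = 0`
    have h6 : By = 0 := by linarith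
    subst h6
    rw [← h5] at hcon
    nlinarith
  · have e7 : b * (cz * (cy - By) - (cz - Bz) * (b - By)) < b * ((cy - By) * b') :=
      mul_lt_mul_of_pos_left e1 h5
    have e8 : b * ((cy - By) * b') = (cy - By) * (b * b') := by ring
    have e9 : (cy - By) * (b * b') ≤ (cy - By) * K :=
      mul_le_mul_of_nonneg_left hK (by linarith)
    linarith

end Pot

end Lag

end Pool.Agent.Lib.MP_f04ccf_co
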