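import Mathlib

/-!
MP_f04ccf_co, TEXT D (one share table, row by row), pure part over the reals.  Row `z`: `A = t_z + 1`,
cells `y ∈ Y` with `m y` hosted and `k y` served units, `S = ∑ σ_y (m_y + k_y)` the share of the row for
ANY table `σ`.

* `TabD.tzN_d`: the N-free row test in `d`-form from its integer form, any sign of `s + k`;
* `TabD.shT`: exact T: `(R - V)(d - S) ≥ ∑ e_y ((R - V)(1 - σ_y) - A) + m (V + 1) / 2 - L`, `V = m + 2 k`;
* `TabD.shN`: N-free: `(R - 2 e)(d - S) ≥ ∑ e_y ((R - 2 e)(1 - σ_y) - A) - L`;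
* `TabD.lam_form`: for `σ_y = A_y / (A + A_y)` the bracket is `λ_y (R - A - A_y - V)`, `λ_y = A / (A + A_y)`;
* `TabD.shP`, `TabD.shP_w`: T+ with the columns of `y`, third tails dropped as whole parts:
  `t_y (d + m - m_y) ≥ (R - A) e_y - c_y - L`;
* `TabD.avg`: the average of `shP_w` over all cells with the weights `t_y`.
-/

set_option autoImplicit false

namespace Pool.Agent.Lib.MP_f04ccf_co

open Finset

namespace TabD

/-- **the N-free row test in `d`-form** (integers): `e = mu + k`, `2 e ≤ R` -/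
theorem tzN_d {R t s mu k mr : ℤ} (ht : 0 ≤ t) (hmu : 0 ≤ mu) (hk : 0 ≤ k) (hm : 0 ≤ mr)
    (hR : 2 * (mu + k) ≤ R)
    (h : 0 ≤ s + k → R * (s + k) ≤ (mu + k) * (t + 2 * (s + k) + 1) + mr) :
    (mu + k) * (R - t - 1 - 2 * (mu + k)) - mr ≤ (R - 2 * (mu + k)) * (mu - s) := by
  rcases le_or_gt 0 (s + k) with h0 | h0
  · have h1 := h h0
    nlinarith
  · have h1 : 0 ≤ (mu + k) * t := mul_nonneg (by linarith) ht
    have h2 : 0 ≤ (R - 2 * (mu + k)) * (-(s + k)) := mul_nonneg (by linarith) (by linarith)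
    nlinarith

section Real

variable {ι : Type*} {Y : Finset ι} {m k σ t : ι → ℝ} {R A : ℝ}

/-- **exact T against any table** -/
theorem shT {V d L : ℝ} (hV : V = ∑ y ∈ Y, (m y + 2 * k y))
    (h : (R + 1 - A) * ∑ y ∈ Y, (m y + k y) - V * (V + 1) / 2 - L ≤ (R - V) * d) :
    ∑ y ∈ Y, (m y + k y) * ((R - V) * (1 - σ y) - A) + (∑ y ∈ Y, m y) * (V + 1) / 2 - L
      ≤ (R - V) * (d - ∑ y ∈ Y, σ y * (m y + k y)) := by
  have e1 : ∑ y ∈ Y, (m y + k y) * ((R - V) * (1 - σ y) - A)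
      = (R - V - A) * ∑ y ∈ Y, (m y + k y) - (R - V) * ∑ y ∈ Y, σ y * (m y + k y) := by
    rw [mul_sum, mul_sum, ← sum_sub_distrib]
    exact sum_congr rfl fun y _ => by ring
  have e2 : V = 2 * ∑ y ∈ Y, (m y + k y) - ∑ y ∈ Y, m y := by
    rw [hV, mul_sum, ← sum_sub_distrib]
    exact sum_congr rfl fun y _ => by ring
  rw [e1]
  generalize ∑ y ∈ Y, (m y + k y) = e at *
  generalize ∑ y ∈ Y, m y = M at *
  generalize ∑ y ∈ Y, σ y * (m y + k y) = S at *
  have e3 : V * (V + 1) / 2 = e * (V + 1) - M * (V + 1) / 2 := by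
    have : V * (V + 1) = (2 * e - M) * (V + 1) := by rw [← e2]
    rw [this]
    ring
  rw [e3] at h
  linarith

/-- **N-free test against any table** -/
theorem shN {e d L : ℝ} (he : e = ∑ y ∈ Y, (m y + k y))
    (h : e * (R - A - 2 * e) - L ≤ (R - 2 * e) * d) :
    ∑ y ∈ Y, (m y + k y) * ((R - 2 * e) * (1 - σ y) - A) - L
      ≤ (R - 2 * e) * (d - ∑ y ∈ Y, σ y * (m y + k y)) := by
  have e1 : ∑ y ∈ Y, (m y + k y) * ((R - 2 * e) * (1 - σ y) - A)
      = (R - 2 * e - A) * ∑ y ∈ Y, (m y + k y)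
        - (R - 2 * e) * ∑ y ∈ Y, σ y * (m y + k y) := by
    rw [mul_sum, mul_sum, ← sum_sub_distrib]
    exact sum_congr rfl fun y _ => by ring
  rw [e1, ← he]
  linarith

/-- the bracket of the table `σ_y = A_y / (A + A_y)` -/
theorem lam_form {Ay V : ℝ} (h : A + Ay ≠ 0) :
    (R - V) * (1 - Ay / (A + Ay)) - A = A / (A + Ay) * (R - A - Ay - V) := by
  field_simp
  ring

/-- **T+ with the columns of `y`, third tails dropped**: `W = my + 2 ky`, `e = my + ky`, `g` the dropped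
value; the test against the whole content of the cell -/
theorem shP {ty d g my ky W L : ℝ} (hW : W = my + 2 * ky)
    (h : (R + 1 - A) * (my + ky) - (R - ty) - W * (W + 1) / 2 - L ≤ (ty - W) * (d + g)) :
    (R - A - ty) * (my + ky) + my * (W + 1) / 2 - (R - ty) - L
      ≤ (ty - W) * (d + g - (my + ky)) := by
  have e3 : W * (W + 1) / 2 = (my + ky) * (W + 1) - my * (W + 1) / 2 := by
    have : W * (W + 1) = (2 * (my + ky) - my) * (W + 1) := by rw [hW]; ring
    rw [this]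
    ring
  rw [e3] at h
  nlinarith

/-- the same without second order: `t_y (d + g) ≥ (R - A) e_y - c_y - L`, if the gain is not negative -/
theorem shP_w {ty d g my ky W L : ℝ} (hW : W = my + 2 * ky) (hm : 0 ≤ my) (hk : 0 ≤ ky)
    (hWt : W < ty)
    (hg : R - ty + L ≤ (R - A - ty) * (my + ky) + my * (W + 1) / 2)
    (h : (R + 1 - A) * (my + ky) - (R - ty) - W * (W + 1) / 2 - L ≤ (ty - W) * (d + g)) :
    (R - A) * (my + ky) - (R - ty) - L ≤ ty * (d + g) := by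
  have h1 := shP hW h
  have h2 : 0 ≤ d + g - (my + ky) := by
    by_contra h3
    push Not at h3
    have : (ty - W) * (d + g - (my + ky)) < 0 := mul_neg_of_pos_of_neg (by linarith) h3
    linarith
  have h3 : 0 ≤ W := by rw [hW]; linarith
  have h4 : 0 ≤ W * (d + g - (my + ky)) := mul_nonneg h3 h2
  have h5 : 0 ≤ my * (W + 1) / 2 := by positivity
  nlinarith

/-- **the average over the cells**: weights `t_y`, `∑ (t_y + 1) + A ≤ R` -/
theorem avg {D L : ℝ} (hD : 0 ≤ D) (hm : ∀ y ∈ Y, 0 ≤ m y)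
    (hA : A + ∑ y ∈ Y, (t y + 1) ≤ R)
    (h : ∑ y ∈ Y, ((R - A) * (m y + k y) - (R - t y)) - L
      ≤ ∑ y ∈ Y, t y * (D + (∑ x ∈ Y, m x - m y))) :
    ∑ y ∈ Y, ((1 - σ y) * (R - A) * (m y + k y) - m y * (R - A - t y - Y.card))
        - ∑ y ∈ Y, (R - t y) - L
      ≤ (R - A) * (D - ∑ y ∈ Y, σ y * (m y + k y)) := by
  set M := ∑ x ∈ Y, m x with hM
  have hM0 : 0 ≤ M := sum_nonneg hm
  have e1 : ∑ y ∈ Y, t y * (D + (M - m y)) = (∑ y ∈ Y, t y) * (D + M) - ∑ y ∈ Y, t y * m y := by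
    rw [sum_mul, ← sum_sub_distrib]
    exact sum_congr rfl fun y _ => by ring
  have e2 : ∑ y ∈ Y, ((R - A) * (m y + k y) - (R - t y))
      = (R - A) * ∑ y ∈ Y, (m y + k y) - ∑ y ∈ Y, (R - t y) := by
    rw [sum_sub_distrib, ← mul_sum]
  have e3 : ∑ y ∈ Y, ((1 - σ y) * (R - A) * (m y + k y) - m y * (R - A - t y - Y.card))
      = (R - A) * ∑ y ∈ Y, (m y + k y) - (R - A) * ∑ y ∈ Y, σ y * (m y + k y)
        - (R - A - Y.card) * M + ∑ y ∈ Y, t y * m y := by
    rw [hM, mul_sum, mul_sum, mul_sum, ← sum_sub_distrib, ← sum_sub_distrib, ← sum_add_distrib]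
    exact sum_congr rfl fun y _ => by ring
  have e4 : ∑ y ∈ Y, (t y + 1) = ∑ y ∈ Y, t y + Y.card := by
    rw [sum_add_distrib, sum_const, nsmul_eq_mul, mul_one]
  rw [e1, e2] at h
  rw [e3]
  rw [e4] at hA
  generalize ∑ y ∈ Y, (m y + k y) = e at *
  generalize ∑ y ∈ Y, σ y * (m y + k y) = S at *
  generalize ∑ y ∈ Y, t y * m y = P at *
  generalize ∑ y ∈ Y, t y = T at *
  generalize ∑ y ∈ Y, (R - t y) = C at *
  have hc : (0 : ℝ) ≤ (Y.card : ℝ) := Nat.cast_nonneg _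
  have h5 : 0 ≤ (R - A - T - Y.card) * (D + M) := mul_nonneg (by linarith) (by linarith)
  have h6 : 0 ≤ (Y.card : ℝ) * D := mul_nonneg hc hD
  nlinarith

end Real

end TabD

end Pool.Agent.Lib.MP_f04ccf_co
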