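import Pool.Agent.Lib.MP_f04ccf_co.M.PCon

/-!
MP_f04ccf_co, TEXT D, assembly: **the tests of `PCon` in UNIT form**.

* `UnP`: the units `v ∈ V` of the items: `it v` the item, `C v` the rows where the unit may be used, `bt v i` its
  misses at the row `i ∈ C v`, `ht v j` its hits in the column `j` when it is hosted;
* `PCon.unN`, `PCon.unT`, `PCon.unP`: tzN, T, T+ (columns of `j`) for a set `S` of units used at the row `z`:
  `k = #S`, `w = 2 k` (minus the PC pairs of the cell), misses `∑ bt`, hosted hits `∑ ht`;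
* `PCon.unC`, `PCon.unCM`: the caps of a cell (K2, and with the PC pairs of both homes joint) for sets of units;
  `UnP.svc_one`, `UnP.svc_tur`: the savings.
-/

set_option autoImplicit false

namespace Pool.Agent.Lib.MP_f04ccf_co

open Finset

attribute [local instance] Classical.propDecidable

section UnR

variable {ι κ : Type*}

/-- **the units with their misses and hits** -/
structure UnP (R : ℤ) (n : ℕ) (t : ℕ → ℤ) (U : Finset ι) (ho : ι → ℕ) (vl : ι → ℤ)
    (kp mn : ℕ → ι → ℤ) (V : Finset κ) (it : κ → ι) (C : κ → Finset ℕ) (bt ht : κ → ℕ → ℤ) :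
    Prop where
  mem : ∀ v ∈ V, it v ∈ U
  val : ∀ u ∈ U, ((V.filter fun v => it v = u).card : ℤ) = vl u
  rows : ∀ v ∈ V, ∀ i ∈ C v, i < n ∧ i ≠ ho (it v)
  lev : ∀ u ∈ U, ∀ i < n, ∀ S ⊆ V.filter (fun v => it v = u ∧ i ∈ C v), S.Nonempty →
    (S.card : ℤ) ≤ kp i u ∧ (if kp i u ≤ (S.card : ℤ) then mn i u else 0) ≤ ∑ v ∈ S, bt v i
  hit : ∀ u ∈ U, ∀ j < n, j ≠ ho u →
    ∑ v ∈ V.filter (fun v => it v = u), ht v j ≤ kp j u * (R - t j) - mn j u

/-- the level of an item in a set of units -/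
noncomputable def lvU (it : κ → ι) (S : Finset κ) (u : ι) : ℕ := (S.filter fun v => it v = u).card

/-- the used units of the items of value one, host by host -/
def svU (n : ℕ) (ho : ι → ℕ) (vl : ι → ℤ) (it : κ → ι) (S : Finset κ) : ℤ :=
  ∑ x ∈ range n, ((S.filter fun v => ho (it v) = x ∧ vl (it v) = 1).card : ℤ)
    * (((S.filter fun v => ho (it v) = x ∧ vl (it v) = 1).card : ℤ) - 1)

section Lv

variable {it : κ → ι} {S : Finset κ}

lemma lvU_pos {u : ι} (hu : u ∈ S.image it) : 1 ≤ lvU it S u := by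
  obtain ⟨v, hv, h1⟩ := mem_image.1 hu
  exact card_pos.2 ⟨v, mem_filter.2 ⟨hv, h1⟩⟩

lemma sum_lvU : ∑ u ∈ S.image it, (lvU it S u : ℤ) = (S.card : ℤ) := by
  have h1 := card_eq_sum_card_image it S
  unfold lvU
  exact_mod_cast h1.symm

/-- a sum over the items, by the units -/
lemma sum_unU (f : κ → ℤ) :
    ∑ u ∈ S.image it, ∑ v ∈ S.filter (fun v => it v = u), f v = ∑ v ∈ S, f v :=
  sum_fiberwise_of_maps_to (fun _ hv => mem_image_of_mem it hv) f

lemma sum_lvU_mul (F : ι → ℤ) :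
    ∑ u ∈ S.image it, (lvU it S u : ℤ) * F u = ∑ v ∈ S, F (it v) := by
  rw [← sum_unU (it := it) (S := S) fun v => F (it v)]
  refine sum_congr rfl fun u _ => ?_
  rw [sum_congr rfl fun v hv => by rw [(mem_filter.1 hv).2], sum_const, nsmul_eq_mul]
  rfl

end Lv

/-- `a (a - 1)` grows over the naturals -/
lemma tri_mono {a b : ℕ} (h : a ≤ b) : (a : ℤ) * ((a : ℤ) - 1) ≤ (b : ℤ) * ((b : ℤ) - 1) := by
  have h1 : (a : ℤ) ≤ b := by exact_mod_cast h
  rcases Nat.eq_zero_or_pos a with h2 | h2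
  · subst h2
    rcases Nat.eq_zero_or_pos b with h3 | h3
    · subst h3
      simp
    · have h4 : (1 : ℤ) ≤ b := by exact_mod_cast h3
      have h5 := mul_nonneg (show (0 : ℤ) ≤ b by linarith) (show (0 : ℤ) ≤ (b : ℤ) - 1 by linarith)
      simpa using h5
  · have h4 : (1 : ℤ) ≤ a := by exact_mod_cast h2
    nlinarith

/-- **more points**: a test with `w` points gives the test with `w'` points if `p ≥ 0` -/
lemma TstP.mono {R c A s k w w' B B' m q SA SA' sv sv' N N' co co' : ℤ}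
    (h : TstP R c A s k w B m q SA sv N co) (hw : w ≤ w') (hk : k ≤ w) (hp : 0 ≤ s - q + k)
    (hB : B ≤ B') (hS : SA' ≤ SA) (hv : sv' ≤ sv) (hN : N ≤ N') (hc : co ≤ co') :
    TstP R c A s k w' B' m q SA' sv' N' co' := by
  unfold TstP at *
  have h1 : 0 ≤ (w' - w) * (2 * (s - q + k) + (w' - w) + 1 + 2 * (w - k)) :=
    mul_nonneg (by linarith) (by linarith)
  have h2 : (m + 2 * k - w') * (m + w' + 1) + (w' - w) * (2 * (s - q + k) + (w' - w) + 1
      + 2 * (w - k)) = (m + 2 * k - w) * (m + w + 1) + 2 * (w' - w) * (s - q + k) := by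
    ring
  have h3 : 2 * ((R - c - (m + w')) * (s - q + k)) + 2 * (w' - w) * (s - q + k)
      = 2 * ((R - c - (m + w)) * (s - q + k)) := by
    ring
  linarith

variable {R : ℤ} {n : ℕ} {t s mu : ℕ → ℤ} {U : Finset ι} {ho : ι → ℕ} {vl : ι → ℤ}
  {kp mn : ℕ → ι → ℤ} {pc ar : ι → ℤ} {be kq NN sg : ℕ → ℕ → ℤ} {nu : ℕ → ι → ℤ}
  {V : Finset κ} {it : κ → ι} {C : κ → Finset ℕ} {bt ht : κ → ℕ → ℤ}

namespace UnP

/-- `it` is injective on the items of value one -/
lemma inj (hV : UnP R n t U ho vl kp mn V it C bt ht) {v v' : κ} (hv : v ∈ V) (hv' : v' ∈ V)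
    (h1 : vl (it v) = 1) (h2 : it v = it v') : v = v' := by
  have h3 := hV.val _ (hV.mem v hv)
  rw [h1] at h3
  have h4 : (V.filter fun w => it w = it v).card ≤ 1 := by
    have : (V.filter fun w => it w = it v).card = 1 := by exact_mod_cast h3
    exact this.le
  exact card_le_one.1 h4 v (mem_filter.2 ⟨hv, rfl⟩) v' (mem_filter.2 ⟨hv', h2.symm⟩)

lemma lv_one (hV : UnP R n t U ho vl kp mn V it C bt ht) {S : Finset κ} (hS : S ⊆ V) {u : ι}
    (hu : u ∈ S.image it) (h1 : vl u = 1) : lvU it S u = 1 := by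
  refine le_antisymm ?_ (lvU_pos hu)
  refine card_le_one.2 fun a ha b hb => ?_
  obtain ⟨ha1, ha2⟩ := mem_filter.1 ha
  obtain ⟨hb1, hb2⟩ := mem_filter.1 hb
  exact hV.inj (hS ha1) (hS hb1) (by rw [ha2]; exact h1) (ha2.trans hb2.symm)

/-- the items of a set of units of value one -/
lemma card_one (hV : UnP R n t U ho vl kp mn V it C bt ht) {S : Finset κ} (hS : S ⊆ V)
    (Q : ι → Prop) [DecidablePred Q] (hQ : ∀ u ∈ U, Q u → vl u = 1) :
    (S.filter fun v => Q (it v)).card = ((S.image it).filter Q).card := by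
  have h1 : (S.image it).filter Q = (S.filter fun v => Q (it v)).image it := by
    ext u
    simp only [mem_filter, mem_image]
    constructor
    · rintro ⟨⟨v, hv, rfl⟩, h2⟩
      exact ⟨v, ⟨hv, h2⟩, rfl⟩
    · rintro ⟨v, ⟨hv, h2⟩, rfl⟩
      exact ⟨⟨v, hv, rfl⟩, h2⟩
  rw [h1, card_image_of_injOn]
  intro a ha b hb hab
  obtain ⟨ha1, ha2⟩ := mem_filter.1 (mem_coe.1 ha)
  obtain ⟨hb1, hb2⟩ := mem_filter.1 (mem_coe.1 hb)
  exact hV.inj (hS ha1) (hS hb1) (hQ _ (hV.mem a (hS ha1)) ha2) hab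

/-- a sum over the items of a function which vanishes unless the value is one -/
lemma sum_one (hV : UnP R n t U ho vl kp mn V it C bt ht) {S : Finset κ} (hS : S ⊆ V) {F : ι → ℤ}
    (hF : ∀ u ∈ U, F u ≠ 0 → vl u = 1) : ∑ u ∈ S.image it, F u = ∑ v ∈ S, F (it v) := by
  rw [← sum_lvU_mul (it := it) (S := S) F]
  refine sum_congr rfl fun u hu => ?_
  obtain ⟨v, hv, h1⟩ := mem_image.1 hu
  by_cases h2 : F u = 0
  · rw [h2, mul_zero]
  · rw [hV.lv_one hS hu (hF u (h1 ▸ hV.mem v (hS hv)) h2)]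
    simp

/-- the saving of the units -/
lemma sv_le (hV : UnP R n t U ho vl kp mn V it C bt ht) {S : Finset κ} (hS : S ⊆ V)
    (P : ι → Prop) [DecidablePred P] :
    svU n ho vl it (S.filter fun v => P (it v))
      ≤ svP n ho vl ((S.image it).filter P) fun u => lvU it S u := by
  unfold svU svP
  refine sum_le_sum fun x _ => tri_mono ?_
  have h1 : (S.filter fun v => P (it v)).filter (fun v => ho (it v) = x ∧ vl (it v) = 1)
      = S.filter fun v => P (it v) ∧ ho (it v) = x ∧ vl (it v) = 1 := by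
    rw [filter_filter]
  rw [h1, hV.card_one hS (fun u => P u ∧ ho u = x ∧ vl u = 1) fun u _ h => h.2.2]
  refine card_le_card fun u hu => ?_
  obtain ⟨h2, h3, h4, h5⟩ := mem_filter.1 hu
  refine mem_filter.2 ⟨mem_filter.2 ⟨h2, h3⟩, h4, ?_⟩
  beta_reduce
  rw [hV.lv_one hS h2 h5, h5]
  norm_num

variable {z : ℕ} {S : Finset κ}

/-- the facts on the items of a set of units used at a row -/
lemma use (hV : UnP R n t U ho vl kp mn V it C bt ht) (hz : z < n)
    (hS : S ⊆ V.filter fun v => z ∈ C v) :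
    S.image it ⊆ U ∧ (∀ u ∈ S.image it, ho u ≠ z) ∧ (∀ u ∈ S.image it, 1 ≤ lvU it S u)
      ∧ (∀ u ∈ S.image it, (lvU it S u : ℤ) ≤ kp z u)
      ∧ ∑ u ∈ S.image it, msP kp mn z (fun u => lvU it S u) u ≤ ∑ v ∈ S, bt v z
      ∧ ∑ u ∈ S.image it, ((lvU it S u : ℤ) + 1) ≤ 2 * (S.card : ℤ) := by
  have h0 : S ⊆ V := hS.trans (filter_subset _ _)
  have hu' : ∀ u ∈ S.image it, u ∈ U ∧ (S.filter fun v => it v = u)
      ⊆ V.filter (fun v => it v = u ∧ z ∈ C v) ∧ (S.filter fun v => it v = u).Nonempty := by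
    intro u hu
    obtain ⟨v, hv, rfl⟩ := mem_image.1 hu
    refine ⟨hV.mem v (h0 hv), fun w hw => ?_, v, mem_filter.2 ⟨hv, rfl⟩⟩
    obtain ⟨h1, h2⟩ := mem_filter.1 hw
    obtain ⟨h3, h4⟩ := mem_filter.1 (hS h1)
    exact mem_filter.2 ⟨h3, h2, h4⟩
  refine ⟨fun u hu => (hu' u hu).1, fun u hu => ?_, fun u hu => lvU_pos hu, fun u hu => ?_, ?_,
    ?_⟩
  · obtain ⟨v, hv, rfl⟩ := mem_image.1 hu
    exact fun h1 => (hV.rows v (h0 hv) z (mem_filter.1 (hS hv)).2).2 h1.symm
  · obtain ⟨h1, h2, h3⟩ := hu' u hu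
    exact (hV.lev u h1 z hz _ h2 h3).1
  · rw [← sum_unU (it := it) (S := S) fun v => bt v z]
    refine sum_le_sum fun u hu => ?_
    obtain ⟨h1, h2, h3⟩ := hu' u hu
    exact (hV.lev u h1 z hz _ h2 h3).2
  · rw [sum_add_distrib, sum_lvU, sum_const, nsmul_eq_mul, mul_one]
    have h1 : (S.image it).card ≤ S.card := card_image_le
    have h2 : ((S.image it).card : ℤ) ≤ S.card := by exact_mod_cast h1
    linarith

/-- the hosted hits -/
lemma hosted (hV : UnP R n t U ho vl kp mn V it C bt ht) {j : ℕ} (hj : j < n) (hjz : j ≠ z)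
    (D : Finset ι) :
    ∑ v ∈ V.filter (fun v => ho (it v) = z ∧ it v ∉ D), ht v j
      ≤ ∑ u ∈ U.filter (fun u => ho u = z ∧ u ∉ D), (kp j u * (R - t j) - mn j u) := by
  have h1 : ∑ v ∈ V.filter (fun v => ho (it v) = z ∧ it v ∉ D), ht v j
      = ∑ u ∈ U.filter (fun u => ho u = z ∧ u ∉ D),
        ∑ v ∈ (V.filter (fun v => ho (it v) = z ∧ it v ∉ D)).filter (fun v => it v = u), ht v j := by
    refine (sum_fiberwise_of_maps_to (fun v hv => ?_) _).symm
    obtain ⟨h2, h3⟩ := mem_filter.1 hv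
    exact mem_filter.2 ⟨hV.mem v h2, h3⟩
  rw [h1]
  refine sum_le_sum fun u hu => ?_
  obtain ⟨h2, h3, h4⟩ := mem_filter.1 hu
  refine le_trans (le_of_eq (sum_congr ?_ fun _ _ => rfl)) (hV.hit u h2 j hj (by rw [h3]; exact hjz))
  ext v
  simp only [mem_filter]
  constructor
  · rintro ⟨⟨h5, -⟩, h6⟩
    exact ⟨h5, h6⟩
  · rintro ⟨h5, h6⟩
    exact ⟨⟨h5, by rw [h6]; exact h3, by rw [h6]; exact h4⟩, h6⟩

end UnP

variable {z : ℕ} {S : Finset κ}

/-- **tzN in unit form** -/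
theorem PCon.unN (H : PCon R n t s mu U ho vl kp mn pc ar be kq NN sg nu)
    (hV : UnP R n t U ho vl kp mn V it C bt ht) (hz : z < n)
    (hS : S ⊆ V.filter fun v => z ∈ C v) (h2 : 2 * (mu z + (S.card : ℤ)) ≤ R) :
    (R - 2 * (mu z + (S.card : ℤ))) * (s z + (S.card : ℤ))
      ≤ (t z + 1) * (mu z + (S.card : ℤ)) + ∑ v ∈ S, bt v z := by
  obtain ⟨h3, h4, h5, h6, h7, -⟩ := hV.use hz hS
  have h8 := H.tN z hz _ h3 h4 (fun u => lvU it S u) h5 h6
  rw [sum_lvU] at h8
  linarith [h8 h2]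

/-- **the exact row test in unit form** -/
theorem PCon.unT (H : PCon R n t s mu U ho vl kp mn pc ar be kq NN sg nu)
    (hV : UnP R n t U ho vl kp mn V it C bt ht) (hz : z < n)
    (hS : S ⊆ V.filter fun v => z ∈ C v) {X Y : Finset ℕ} (hX : X ⊆ range n) (hY : Y ⊆ X)
    {D : Finset ι} (hD : D ⊆ U) (hDz : ∀ u ∈ D, ho u = z ∧ pc u = 0)
    (hp : 0 ≤ s z - (∑ l ∈ X, kq z l + ∑ l ∈ Y, (be z l - kq z l) + ∑ u ∈ D, (vl u + 1))
      + (S.card : ℤ)) :
    TstP R 0 (t z + 1) (s z) (S.card : ℤ) (2 * (S.card : ℤ)) (∑ v ∈ S, bt v z)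
      (mu z - ∑ l ∈ X, kq z l - ∑ l ∈ Y, (be z l - kq z l) - ∑ u ∈ D, vl u)
      (∑ l ∈ X, kq z l + ∑ l ∈ Y, (be z l - kq z l) + ∑ u ∈ D, (vl u + 1)) 0
      (svU n ho vl it S)
      (∑ l ∈ X \ Y, (be z l - kq z l) * (be z l - kq z l + 1)
        + ∑ l ∈ (range n).erase z \ X, NN z l
        + 2 * ∑ l ∈ Y, (be z l - kq z l) * (sg z l
          + ((U.filter fun u => ho u = z ∧ u ∉ D ∧ pc u = 0 ∧ kp l u ≠ 0).card : ℤ))) 0 := by
  obtain ⟨h3, h4, h5, h6, h7, h8⟩ := hV.use hz hS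
  have h9 := H.tT z hz X hX Y hY D hD hDz _ h3 h4 (fun u => lvU it S u) h5 h6
  rw [sum_lvU] at h9
  have h10 := hV.sv_le (hS.trans (filter_subset _ _)) fun _ => True
  simp only [filter_true] at h10
  refine h9.mono h8 ?_ hp h7 le_rfl h10 le_rfl le_rfl
  rw [sum_add_distrib, sum_lvU, sum_const, nsmul_eq_mul, mul_one]
  have h11 : (0 : ℤ) ≤ ((S.image it).card : ℤ) := Nat.cast_nonneg _
  linarith

/-- **the row test with the columns of `j` in unit form** -/
theorem PCon.unP (H : PCon R n t s mu U ho vl kp mn pc ar be kq NN sg nu)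
    (hV : UnP R n t U ho vl kp mn V it C bt ht) (hz : z < n) {j : ℕ} (hj : j < n) (hjz : j ≠ z)
    (hS : S ⊆ V.filter fun v => z ∈ C v) {X Y : Finset ℕ} (hX : X ⊆ range n) (hjX : j ∉ X)
    (hY : Y ⊆ X) {D : Finset ι} (hD : D ⊆ U) (hDz : ∀ u ∈ D, ho u = z ∧ pc u = 0) {q f : ℤ}
    (hq : q = ∑ v ∈ S, if ho (it v) = j then pc (it v) else 0)
    (hf : f = ((S.filter fun v => ho (it v) = j ∧ pc (it v) = 0
      ∧ ∀ l < n, l ≠ z → kp l (it v) = 0).card : ℤ))
    (hp : 0 ≤ s z - (∑ l ∈ X, kq z l + ∑ l ∈ Y, (be z l - kq z l) + ∑ u ∈ D, (vl u + 1))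
      + (S.card : ℤ)) :
    TstP R (R - t j) (t z + 1) (s z) (S.card : ℤ) (2 * (S.card : ℤ) - q) (∑ v ∈ S, bt v z)
      (mu z - ∑ l ∈ X, kq z l - ∑ l ∈ Y, (be z l - kq z l) - ∑ u ∈ D, vl u)
      (∑ l ∈ X, kq z l + ∑ l ∈ Y, (be z l - kq z l) + ∑ u ∈ D, (vl u + 1))
      (∑ v ∈ V.filter (fun v => ho (it v) = z ∧ it v ∉ D), ht v j)
      (svU n ho vl it (S.filter fun v => ho (it v) = j → pc (it v) = 0) + 2 * (q * f))
      (∑ l ∈ X \ Y, (be z l - kq z l) * (be z l - kq z l + 1)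
        + ∑ l ∈ ((range n).erase z).erase j \ X, NN z l
        + 2 * ∑ l ∈ Y, (be z l - kq z l) * (sg z l
          + ((U.filter fun u => ho u = z ∧ u ∉ D ∧ pc u = 0 ∧ kp l u ≠ 0).card : ℤ)))
      ((be z j + q) * (be z j + q + 1)
        + 2 * ∑ u ∈ (S.image it).filter (fun u => ho u = j), (1 - pc u) * ar u
        + 4 * (((S.filter fun v => ho (it v) ≠ j).card : ℤ) * (R - t j))) := by
  obtain ⟨h3, h4, h5, h6, h7, h8⟩ := hV.use hz hS
  have h0 : S ⊆ V := hS.trans (filter_subset _ _)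
  have h9 := H.tP z hz j hj hjz X hX hjX Y hY D hD hDz _ h3 h4 (fun u => lvU it S u) h5 h6
  -- the PC pairs of the cell
  have e1 : ∑ u ∈ S.image it, (if ho u = j then pc u else 0) = q := by
    rw [hq]
    refine hV.sum_one h0 fun u hu h10 => H.pcv u hu fun h11 => h10 ?_
    rw [h11, ite_self]
  -- the full items of the cell
  have e2 : (((S.image it).filter fun u => ho u = j ∧ pc u = 0
      ∧ ∀ l < n, l ≠ z → kp l u = 0).card : ℤ) = f := by
    rw [hf, hV.card_one h0 (fun u => ho u = j ∧ pc u = 0 ∧ ∀ l < n, l ≠ z → kp l u = 0)]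
    rintro u hu ⟨h10, h11, h12⟩
    rcases H.one u hu with ⟨i, -, -, h13, -⟩ | ⟨-, h13⟩
    · exact h13
    · exfalso
      have h14 : ∑ i ∈ range n, kp i u = kp z u :=
        sum_eq_single_of_mem z (mem_range.2 hz) fun l hl hlz => h12 l (mem_range.1 hl) hlz
      have h15 := H.kv u hu z hz
      linarith
  -- the points
  have e3 : ∑ u ∈ S.image it, ((lvU it S u : ℤ) + 1 - if ho u = j then pc u else 0)
      = ∑ u ∈ S.image it, ((lvU it S u : ℤ) + 1) - q := by
    rw [sum_sub_distrib, e1]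
  -- the costs
  have htj : 0 ≤ R - t j := by
    have h10 := H.tsum
    have h11 : t j + 1 ≤ ∑ i ∈ range n, (t i + 1) :=
      single_le_sum (f := fun i => t i + 1) (fun i hi => by
        have := H.t0 i (mem_range.1 hi)
        linarith) (mem_range.2 hj)
    linarith
  have e4 : ∑ u ∈ S.image it, (if ho u = j then (1 - pc u) * ar u
      else ((lvU it S u : ℤ) + 1) * (R - t j))
      ≤ ∑ u ∈ (S.image it).filter (fun u => ho u = j), (1 - pc u) * ar u
        + 2 * (((S.filter fun v => ho (it v) ≠ j).card : ℤ) * (R - t j)) := by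
    rw [← sum_filter_add_sum_filter_not (S.image it) (fun u => ho u = j)]
    refine add_le_add (le_of_eq (sum_congr rfl fun u hu => if_pos (mem_filter.1 hu).2)) ?_
    have h10 : ∑ u ∈ (S.image it).filter (fun u => ¬ ho u = j), (if ho u = j
        then (1 - pc u) * ar u else ((lvU it S u : ℤ) + 1) * (R - t j))
        = (∑ u ∈ (S.image it).filter (fun u => ¬ ho u = j), ((lvU it S u : ℤ) + 1))
          * (R - t j) := by
      rw [sum_mul]
      exact sum_congr rfl fun u hu => if_neg (mem_filter.1 hu).2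
    have h11 : (S.image it).filter (fun u => ¬ ho u = j)
        = (S.filter fun v => ho (it v) ≠ j).image it := by
      ext u
      simp only [mem_filter, mem_image]
      constructor
      · rintro ⟨⟨v, hv, rfl⟩, h12⟩
        exact ⟨v, ⟨hv, h12⟩, rfl⟩
      · rintro ⟨v, ⟨hv, h12⟩, rfl⟩
        exact ⟨⟨v, hv, rfl⟩, h12⟩
    have h12 : ∑ u ∈ (S.image it).filter (fun u => ¬ ho u = j), ((lvU it S u : ℤ) + 1)
        ≤ 2 * ((S.filter fun v => ho (it v) ≠ j).card : ℤ) := by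
      have h13 : ∀ u ∈ (S.filter fun v => ho (it v) ≠ j).image it,
          (lvU it S u : ℤ) = (lvU it (S.filter fun v => ho (it v) ≠ j) u : ℤ) := by
        intro u hu
        obtain ⟨v, hv, rfl⟩ := mem_image.1 hu
        have h14 := (mem_filter.1 hv).2
        unfold lvU
        rw [filter_filter]
        congr 2
        ext w
        simp only [mem_filter]
        constructor
        · rintro ⟨h15, h16⟩
          exact ⟨h15, by rw [h16]; exact h14, h16⟩
        · rintro ⟨h15, -, h16⟩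
          exact ⟨h15, h16⟩
      rw [h11, sum_congr rfl fun u hu => by rw [h13 u hu], sum_add_distrib, sum_lvU, sum_const,
        nsmul_eq_mul, mul_one]
      have h14 : ((S.filter fun v => ho (it v) ≠ j).image it).card
          ≤ (S.filter fun v => ho (it v) ≠ j).card := card_image_le
      have h15 : (((S.filter fun v => ho (it v) ≠ j).image it).card : ℤ)
          ≤ ((S.filter fun v => ho (it v) ≠ j).card : ℤ) := by exact_mod_cast h14
      linarith
    rw [h10]
    have h13 := mul_le_mul_of_nonneg_right h12 htj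
    linarith
  have h10 := hV.sv_le h0 fun u => ho u = j → pc u = 0
  have h11 := hV.hosted hj hjz D
  have hqk : q ≤ ((S.image it).card : ℤ) := by
    rw [← e1]
    have h12 : ∑ u ∈ S.image it, (if ho u = j then pc u else 0) ≤ ∑ u ∈ S.image it, (1 : ℤ) := by
      refine sum_le_sum fun u hu => ?_
      split_ifs
      · rcases H.pc01 u (h3 hu) with h13 | h13
        · rw [h13]
          norm_num
        · rw [h13]
      · norm_num
    rw [sum_const, nsmul_eq_mul, mul_one] at h12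
    exact h12
  have hwk : ∑ u ∈ S.image it, ((lvU it S u : ℤ) + 1) = (S.card : ℤ) + ((S.image it).card : ℤ) := by
    rw [sum_add_distrib, sum_lvU, sum_const, nsmul_eq_mul, mul_one]
  rw [sum_lvU, e1, e2, e3] at h9
  refine h9.mono (by linarith) (by linarith) hp h7 h11 (by linarith) le_rfl (by linarith)

/-- the pairs of one host in the cell tests, by the plain units of value one -/
lemma UnP.svc_one (hV : UnP R n t U ho vl kp mn V it C bt ht) {i j : ℕ} {S S' : Finset κ}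
    (hS : S ⊆ V) (hS' : S' ⊆ V) {sv : ℤ}
    (h : sv ≤ ((S.filter fun v => vl (it v) = 1 ∧ pc (it v) = 0).card : ℤ)
        * (((S.filter fun v => vl (it v) = 1 ∧ pc (it v) = 0).card : ℤ) - 1)
      + ((S'.filter fun v => vl (it v) = 1 ∧ pc (it v) = 0).card : ℤ)
        * (((S'.filter fun v => vl (it v) = 1 ∧ pc (it v) = 0).card : ℤ) - 1)) :
    SvC n vl kp pc i j (fun u => lvU it S u) (fun u => lvU it S' u) (S.image it) (S'.image it)
      sv := by
  have key : ∀ T ⊆ V, (T.filter fun v => vl (it v) = 1 ∧ pc (it v) = 0).card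
      ≤ ((T.image it).filter fun u => (((fun u => lvU it T u) u : ℕ) : ℤ) = vl u
        ∧ pc u = 0).card := by
    intro T hT
    rw [hV.card_one hT (fun u => vl u = 1 ∧ pc u = 0) fun u _ h => h.1]
    refine card_le_card fun u hu => ?_
    obtain ⟨h1, h2, h3⟩ := mem_filter.1 hu
    refine mem_filter.2 ⟨h1, ?_, h3⟩
    beta_reduce
    rw [hV.lv_one hT h1 h2, h2]
    norm_num
  exact Or.inr (Or.inr (h.trans (add_le_add (tri_mono (key S hS)) (tri_mono (key S' hS')))))

/-- the points of a set of units which is used at a row -/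
lemma UnP.sum_pts (hV : UnP R n t U ho vl kp mn V it C bt ht)
    (H : PCon R n t s mu U ho vl kp mn pc ar be kq NN sg nu) {T : Finset κ} (hT : T ⊆ V) :
    ∑ u ∈ T.image it, ((lvU it T u : ℤ) + 1 - pc u)
      = (T.card : ℤ) + ((T.image it).card : ℤ) - ∑ v ∈ T, pc (it v) := by
  rw [sum_sub_distrib, sum_add_distrib, sum_lvU, sum_const, nsmul_eq_mul, mul_one,
    hV.sum_one hT fun u hu h10 => H.pcv u hu h10]

/-- Turan over the rows `I` of all ends -/
lemma UnP.svc_tur (hV : UnP R n t U ho vl kp mn V it C bt ht)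
    (H : PCon R n t s mu U ho vl kp mn pc ar be kq NN sg nu) {i j : ℕ} {S S' : Finset κ}
    (hS : S ⊆ V) (hS' : S' ⊆ V) {I : Finset ℕ} (hI : I ⊆ range n) (hi : i ∈ I) (hj : j ∈ I)
    (h1 : ∀ v ∈ S, ∀ l < n, kp l (it v) ≠ 0 → l ∈ I)
    (h2 : ∀ v ∈ S', ∀ l < n, kp l (it v) ≠ 0 → l ∈ I) {q sv : ℤ}
    (h : sv ≤ 2 * q * ((S.card : ℤ) + ((S.image it).card : ℤ) - ∑ v ∈ S, pc (it v)
            + ((S'.card : ℤ) + ((S'.image it).card : ℤ) - ∑ v ∈ S', pc (it v)))
          - I.card * (q * (q + 1))) :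
    SvC n vl kp pc i j (fun u => lvU it S u) (fun u => lvU it S' u) (S.image it) (S'.image it)
      sv := by
  refine Or.inr (Or.inl ⟨I, hI, hi, hj, fun u hu => ?_, fun u hu => ?_, q, ?_⟩)
  · obtain ⟨v, hv, rfl⟩ := mem_image.1 hu
    exact h1 v hv
  · obtain ⟨v, hv, rfl⟩ := mem_image.1 hu
    exact h2 v hv
  · rw [hV.sum_pts H hS, hV.sum_pts H hS']
    exact h

/-- **the cap of a cell in unit form** (K2): the arcs and the free columns item by item -/
theorem PCon.unC (H : PCon R n t s mu U ho vl kp mn pc ar be kq NN sg nu)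
    (hV : UnP R n t U ho vl kp mn V it C bt ht) {i j : ℕ} (hi : i < n) (hj : j < n) (hij : i ≠ j)
    {S S' : Finset κ} (hS : S ⊆ V.filter fun v => j ∈ C v) (hSi : ∀ v ∈ S, ho (it v) = i)
    (hS' : S' ⊆ V.filter fun v => i ∈ C v) (hSj : ∀ v ∈ S', ho (it v) = j) {EX sv : ℤ}
    (hE : RcC U vl mn i j (∑ v ∈ S, pc (it v)) (∑ v ∈ S', pc (it v)) EX)
    (hs : SvC n vl kp pc i j (fun u => lvU it S u) (fun u => lvU it S' u) (S.image it)
      (S'.image it) sv) :
    2 * (R * (S.card : ℤ) + ∑ u ∈ S.image it, ((1 - pc u) * t j - ar u) - ∑ v ∈ S, bt v j)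
      + 2 * (R * (S'.card : ℤ) + ∑ u ∈ S'.image it, ((1 - pc u) * t i - ar u)
        - ∑ v ∈ S', bt v i) + 2 * EX + sv
      ≤ 2 * (R + t i * t j)
        + ((S.card : ℤ) + ((S.image it).card : ℤ) - ∑ v ∈ S, pc (it v)
            + ((S'.card : ℤ) + ((S'.image it).card : ℤ) - ∑ v ∈ S', pc (it v)))
          * ((S.card : ℤ) + ((S.image it).card : ℤ) - ∑ v ∈ S, pc (it v)
            + ((S'.card : ℤ) + ((S'.image it).card : ℤ) - ∑ v ∈ S', pc (it v)) - 1)
        + 2 * (∑ v ∈ S, pc (it v)) * ∑ v ∈ S', pc (it v) := by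
  obtain ⟨h3, -, h5, h6, h7, -⟩ := hV.use hj hS
  obtain ⟨h3', -, h5', h6', h7', -⟩ := hV.use hi hS'
  have hST : S ⊆ V := hS.trans (filter_subset _ _)
  have hST' : S' ⊆ V := hS'.trans (filter_subset _ _)
  have e1 : ∀ T ⊆ V, ∑ u ∈ T.image it, pc u = ∑ v ∈ T, pc (it v) := fun T hT =>
    hV.sum_one hT fun u hu h10 => H.pcv u hu h10
  have h8 := H.cap i hi j hj hij _ h3 (fun u hu => by
      obtain ⟨v, hv, rfl⟩ := mem_image.1 hu
      exact hSi v hv) _ h3' (fun u hu => by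
      obtain ⟨v, hv, rfl⟩ := mem_image.1 hu
      exact hSj v hv) (fun u => lvU it S u) (fun u => lvU it S' u) h5 h6 h5' h6' EX
      (by rw [e1 S hST, e1 S' hST']; exact hE) sv hs
  have e3 : ∀ (T : Finset κ) (x : ℕ), ∑ u ∈ T.image it, (R * (lvU it T u : ℤ) + (1 - pc u) * t x
      - msP kp mn x (fun u => lvU it T u) u - ar u)
      = R * (T.card : ℤ) + ∑ u ∈ T.image it, ((1 - pc u) * t x - ar u)
        - ∑ u ∈ T.image it, msP kp mn x (fun u => lvU it T u) u := by
    intro T x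
    rw [← sum_lvU (it := it) (S := T), mul_sum, ← sum_add_distrib, ← sum_sub_distrib]
    exact sum_congr rfl fun u _ => by ring
  rw [e1 S hST, e1 S' hST', hV.sum_pts H hST, hV.sum_pts H hST', e3, e3] at h8
  linarith

/-- **the cap with the PC pairs of both homes joint in unit form** -/
theorem PCon.unCM (H : PCon R n t s mu U ho vl kp mn pc ar be kq NN sg nu)
    (hV : UnP R n t U ho vl kp mn V it C bt ht) {i j : ℕ} (hi : i < n) (hj : j < n) (hij : i ≠ j)
    {S S' : Finset κ}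
    (hS : S ⊆ V.filter fun v => j ∈ C v) (hSi : ∀ v ∈ S, ho (it v) = i ∧ pc (it v) = 0)
    (hS' : S' ⊆ V.filter fun v => i ∈ C v) (hSj : ∀ v ∈ S', ho (it v) = j ∧ pc (it v) = 0)
    {sv : ℤ} (hs : SvC n vl kp pc i j (fun u => lvU it S u) (fun u => lvU it S' u) (S.image it)
      (S'.image it) sv) :
    2 * ((be i j + be j i - 1) * R)
      + 2 * (R * (S.card : ℤ) + ∑ u ∈ S.image it, (t j
        - ∑ l ∈ ((range n).erase i).erase j, kp l u * be i l) - ∑ v ∈ S, bt v j)
      + 2 * (R * (S'.card : ℤ) + ∑ u ∈ S'.image it, (t i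
        - ∑ l ∈ ((range n).erase i).erase j, kp l u * be j l) - ∑ v ∈ S', bt v i) + sv
      ≤ 2 * (t i * t j) + 2 * (be i j + be j i) ^ 2
        + 2 * (be i j + be j i) * ((S.card : ℤ) + ((S.image it).card : ℤ)
          + ((S'.card : ℤ) + ((S'.image it).card : ℤ)))
        + ((S.card : ℤ) + ((S.image it).card : ℤ) + ((S'.card : ℤ) + ((S'.image it).card : ℤ)))
          * ((S.card : ℤ) + ((S.image it).card : ℤ)
            + ((S'.card : ℤ) + ((S'.image it).card : ℤ)) - 1) := by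
  obtain ⟨h3, -, h5, h6, h7, -⟩ := hV.use hj hS
  obtain ⟨h3', -, h5', h6', h7', -⟩ := hV.use hi hS'
  have h8 := H.capM i hi j hj hij _ h3 (fun u hu => by
      obtain ⟨v, hv, rfl⟩ := mem_image.1 hu
      exact hSi v hv) _ h3' (fun u hu => by
      obtain ⟨v, hv, rfl⟩ := mem_image.1 hu
      exact hSj v hv) (fun u => lvU it S u) (fun u => lvU it S' u) h5 h6 h5' h6' sv hs
  have e2 : ∀ T : Finset κ, ∑ u ∈ T.image it, ((lvU it T u : ℤ) + 1)
      = (T.card : ℤ) + ((T.image it).card : ℤ) := by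
    intro T
    rw [sum_add_distrib, sum_lvU, sum_const, nsmul_eq_mul, mul_one]
  have e3 : ∀ (T : Finset κ) (x y : ℕ), ∑ u ∈ T.image it, (R * (lvU it T u : ℤ) + t x
      - msP kp mn x (fun u => lvU it T u) u - ∑ l ∈ ((range n).erase i).erase j, kp l u * be y l)
      = R * (T.card : ℤ) + ∑ u ∈ T.image it, (t x
        - ∑ l ∈ ((range n).erase i).erase j, kp l u * be y l)
        - ∑ u ∈ T.image it, msP kp mn x (fun u => lvU it T u) u := by
    intro T x y
    rw [← sum_lvU (it := it) (S := T), mul_sum, ← sum_add_distrib, ← sum_sub_distrib]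
    exact sum_congr rfl fun u _ => by ring
  rw [e2, e2, e3, e3] at h8
  linarith

end UnR

end Pool.Agent.Lib.MP_f04ccf_co
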