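import Pool.Agent.Lib.MP_f04ccf_co.M.LightP
import Pool.Agent.Lib.MP_f04ccf_co.M.UnR

/-!
MP_f04ccf_co, TEXT D: **the table of rule 3 over units**, its closing, and (L0).

Units `v ∈ V`, host `h v`, counted rows `C v`, weights `D z v` (`A_z` for the host, `A_z + misses` for a counted
row), `TT v = D (h v) v + ∑_{i ∈ C v} D i v`, complements `coT z v = #(C v) D z v / TT v`.

* `coT_sum`: the complements of a unit sum to `#(C v)`;
* `PCon.close_coT`: the closing: only the heavy rows have to satisfy the row claim for the free units;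
* `PCon.mu_units`: `mu z` is the number of units hosted at `z`;
* `PCon.row_L0`: **(L0)**: a row all of whose free units have `TT v ≤ #(C v) (R - 2 e)` satisfies the row claim
  with `δ = 0`, by tzN alone.
-/

set_option autoImplicit false

namespace Pool.Agent.Lib.MP_f04ccf_co

open Finset

attribute [local instance] Classical.propDecidable

section TabLS

variable {κ : Type*}

/-- the sum of the weights of a unit -/
def TT (h : κ → ℕ) (C : κ → Finset ℕ) (D : ℕ → κ → ℤ) (v : κ) : ℤ := D (h v) v + ∑ i ∈ C v, D i v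

/-- the complements of rule 3 -/
noncomputable def coT (h : κ → ℕ) (C : κ → Finset ℕ) (D : ℕ → κ → ℤ) (z : ℕ) (v : κ) : ℝ :=
  ((C v).card : ℝ) * (D z v : ℝ) / (TT h C D v : ℝ)

variable {h : κ → ℕ} {C : κ → Finset ℕ} {D : ℕ → κ → ℤ} {v : κ}

lemma coT_sum (hT : 0 < TT h C D v) :
    coT h C D (h v) v + ∑ i ∈ C v, coT h C D i v = ((C v).card : ℝ) := by
  have h1 : (TT h C D v : ℝ) ≠ 0 := by
    have : (0 : ℝ) < (TT h C D v : ℝ) := by exact_mod_cast hT
    exact this.ne'
  have h2 : (TT h C D v : ℝ) = (D (h v) v : ℝ) + ∑ i ∈ C v, (D i v : ℝ) := by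
    unfold TT
    push_cast
    rfl
  unfold coT
  rw [← sum_div, ← mul_sum, ← add_div, ← mul_add, ← h2, mul_div_assoc, div_self h1, mul_one]

lemma coT_nonneg {z : ℕ} (hT : 0 < TT h C D v) (hD : 0 ≤ D z v) : 0 ≤ coT h C D z v := by
  have h1 : (0 : ℝ) < (TT h C D v : ℝ) := by exact_mod_cast hT
  have h2 : (0 : ℝ) ≤ (D z v : ℝ) := by exact_mod_cast hD
  unfold coT
  positivity

/-- a unit which is not hard: the weight is at most `c` times the complement -/
lemma le_coT {z : ℕ} {c : ℤ} (hT : 0 < TT h C D v) (hD : 0 ≤ D z v)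
    (hc : TT h C D v ≤ ((C v).card : ℤ) * c) : (D z v : ℝ) ≤ (c : ℝ) * coT h C D z v := by
  have h1 : (0 : ℝ) < (TT h C D v : ℝ) := by exact_mod_cast hT
  have h2 : (0 : ℝ) ≤ (D z v : ℝ) := by exact_mod_cast hD
  have h3 : (TT h C D v : ℝ) ≤ ((C v).card : ℝ) * (c : ℝ) := by exact_mod_cast hc
  unfold coT
  rw [← mul_div_assoc, le_div_iff₀ h1]
  nlinarith [mul_le_mul_of_nonneg_left h3 h2]

end TabLS

section TabLP

variable {ι κ : Type*} {R : ℤ} {n : ℕ} {t s mu : ℕ → ℤ} {U : Finset ι} {ho : ι → ℕ} {vl : ι → ℤ}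
  {kp mn : ℕ → ι → ℤ} {pc ar : ι → ℤ} {be kq NN sg : ℕ → ℕ → ℤ} {nu : ℕ → ι → ℤ}
  {V : Finset κ} {C : κ → Finset ℕ}

/-- **the closing with the complements of rule 3** -/
theorem PCon.close_coT {h : κ → ℕ} {D : ℕ → κ → ℤ}
    (H : PCon R n t s mu U ho vl kp mn pc ar be kq NN sg nu)
    (hh : ∀ v ∈ V, h v < n) (hC : ∀ v ∈ V, ∀ i ∈ C v, i < n)
    (hT : ∀ v ∈ V, 0 < TT h C D v) {δ : ℕ → ℝ}
    (h2 : ∀ z < n, z ∉ lightU n s V C → 1 ≤ s z + ((V.filter fun v => z ∈ C v).card : ℤ) →
      (s z : ℝ) + (((freeU V h C (lightU n s V C)).filter fun v => z ∈ C v).card : ℝ)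
        ≤ ∑ v ∈ (freeU V h C (lightU n s V C)).filter (fun v => h v = z), coT h C D z v
          + ∑ v ∈ (freeU V h C (lightU n s V C)).filter (fun v => z ∈ C v), coT h C D z v
          + (((touchU V h C (lightU n s V C)).filter fun v => h v = z).card : ℝ) + δ z)
    (h3 : ∑ i ∈ (range n).filter (fun i => i ∉ lightU n s V C), δ i < 1) : False :=
  H.close_light hh hC (fun v hv => (coT_sum (hT v (mem_filter.1 hv).1)).le) h2 h3

variable {it : κ → ι} {C' : κ → Finset ℕ} {bt ht : κ → ℕ → ℤ}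

/-- the hosted value is the number of hosted units -/
lemma PCon.mu_units (H : PCon R n t s mu U ho vl kp mn pc ar be kq NN sg nu)
    (hV : UnP R n t U ho vl kp mn V it C' bt ht) {z : ℕ} (hz : z < n) :
    mu z = ((V.filter fun v => ho (it v) = z).card : ℤ) := by
  have h1 : (V.filter fun v => ho (it v) = z).card
      = ∑ u ∈ U.filter (fun u => ho u = z),
        ((V.filter fun v => ho (it v) = z).filter fun v => it v = u).card := by
    refine card_eq_sum_card_fiberwise fun v hv => ?_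
    obtain ⟨h2, h3⟩ := mem_filter.1 (mem_coe.1 hv)
    exact mem_coe.2 (mem_filter.2 ⟨hV.mem v h2, h3⟩)
  rw [H.hmu z hz, h1]
  push_cast
  refine sum_congr rfl fun u hu => ?_
  obtain ⟨hu1, hu2⟩ := mem_filter.1 hu
  rw [← hV.val u hu1]
  have h2 : (V.filter fun v => ho (it v) = z).filter (fun v => it v = u)
      = V.filter fun v => it v = u := by
    ext v
    simp only [mem_filter]
    constructor
    · rintro ⟨⟨c1, -⟩, c2⟩
      exact ⟨c1, c2⟩
    · rintro ⟨c1, c2⟩
      exact ⟨⟨c1, by rw [c2]; exact hu2⟩, c2⟩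
  rw [h2]

/-- **(L0)**: no hard unit, tzN alone -/
theorem PCon.row_L0 {D : ℕ → κ → ℤ} (H : PCon R n t s mu U ho vl kp mn pc ar be kq NN sg nu)
    (hV : UnP R n t U ho vl kp mn V it C' bt ht) (hCC : ∀ v ∈ V, C v ⊆ C' v) {z : ℕ} (hz : z < n)
    {L : Finset ℕ} {S : Finset κ}
    (hS : S = (freeU V (fun v => ho (it v)) C L).filter fun v => z ∈ C v) {e : ℤ}
    (he : e = mu z + (S.card : ℤ)) (h0 : 0 < R - 2 * e)
    (hT : ∀ v ∈ V, 0 < TT (fun v => ho (it v)) C D v)
    (hb : ∀ v ∈ S, 0 ≤ bt v z)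
    (hD1 : ∀ v ∈ freeU V (fun v => ho (it v)) C L, ho (it v) = z → D z v = t z + 1 ∧
      TT (fun v => ho (it v)) C D v ≤ ((C v).card : ℤ) * (R - 2 * e))
    (hD2 : ∀ v ∈ S, D z v = t z + 1 + bt v z ∧
      TT (fun v => ho (it v)) C D v ≤ ((C v).card : ℤ) * (R - 2 * e))
    (hA : t z + 1 ≤ R - 2 * e) :
    (s z : ℝ) + (S.card : ℝ)
      ≤ ∑ v ∈ (freeU V (fun v => ho (it v)) C L).filter (fun v => ho (it v) = z),
          coT (fun v => ho (it v)) C D z v
        + ∑ v ∈ S, coT (fun v => ho (it v)) C D z v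
        + (((touchU V (fun v => ho (it v)) C L).filter fun v => ho (it v) = z).card : ℝ) := by
  have hS' : S ⊆ V.filter fun v => z ∈ C' v := by
    intro v hv
    rw [hS] at hv
    obtain ⟨c1, c2⟩ := mem_filter.1 hv
    have c3 := (mem_filter.1 c1).1
    exact mem_filter.2 ⟨c3, hCC v c3 c2⟩
  have hN := H.unN hV hz hS' (by linarith)
  rw [← he] at hN
  have t0 := H.t0 z hz
  -- the number of hosted units
  have hmu : (mu z : ℝ)
      = (((freeU V (fun v => ho (it v)) C L).filter fun v => ho (it v) = z).card : ℝ)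
        + (((touchU V (fun v => ho (it v)) C L).filter fun v => ho (it v) = z).card : ℝ) := by
    have b1 := H.mu_units hV hz
    have b2 : (V.filter fun v => ho (it v) = z).card
        = ((freeU V (fun v => ho (it v)) C L).filter fun v => ho (it v) = z).card
          + ((touchU V (fun v => ho (it v)) C L).filter fun v => ho (it v) = z).card := by
      unfold freeU touchU
      rw [filter_filter, filter_filter]
      have b3 := card_filter_add_card_filter_not
        (s := V.filter fun v => ho (it v) = z) (fun v => ho (it v) ∉ L ∧ Disjoint (C v) L)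
      rw [filter_filter, filter_filter] at b3
      rw [← b3]
      congr 2
      · ext v
        simp only [mem_filter]
        tauto
      · ext v
        simp only [mem_filter]
        tauto
    rw [b1, b2]
    push_cast
    rfl
  have hc : (0 : ℝ) < ((R - 2 * e : ℤ) : ℝ) := by exact_mod_cast h0
  -- hosted, free
  have c1 : ((((freeU V (fun v => ho (it v)) C L).filter fun v => ho (it v) = z).card : ℝ))
      * ((t z : ℝ) + 1)
      ≤ ((R - 2 * e : ℤ) : ℝ)
        * ∑ v ∈ (freeU V (fun v => ho (it v)) C L).filter (fun v => ho (it v) = z),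
          coT (fun v => ho (it v)) C D z v := by
    rw [mul_sum, ← nsmul_eq_mul, ← sum_const]
    refine sum_le_sum fun v hv => ?_
    obtain ⟨d1, d2⟩ := mem_filter.1 hv
    obtain ⟨d3, d4⟩ := hD1 v d1 d2
    have d5 := le_coT (z := z) (hT v (mem_filter.1 d1).1) (by rw [d3]; linarith) d4
    rw [d3] at d5
    push_cast at d5 ⊢
    exact d5
  -- used, free
  have c2 : (S.card : ℝ) * ((t z : ℝ) + 1) + ((∑ v ∈ S, bt v z : ℤ) : ℝ)
      ≤ ((R - 2 * e : ℤ) : ℝ) * ∑ v ∈ S, coT (fun v => ho (it v)) C D z v := by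
    rw [mul_sum, ← nsmul_eq_mul, ← sum_const]
    push_cast
    rw [← sum_add_distrib]
    refine sum_le_sum fun v hv => ?_
    obtain ⟨d3, d4⟩ := hD2 v hv
    have d6 := hb v hv
    have d7 : v ∈ V := by
      rw [hS] at hv
      exact (mem_filter.1 (mem_filter.1 hv).1).1
    have d5 := le_coT (z := z) (hT v d7) (by rw [d3]; linarith) d4
    rw [d3] at d5
    push_cast at d5 ⊢
    exact d5
  -- hosted, touching
  have c3 : (((touchU V (fun v => ho (it v)) C L).filter fun v => ho (it v) = z).card : ℝ)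
      * ((t z : ℝ) + 1)
      ≤ ((R - 2 * e : ℤ) : ℝ)
        * (((touchU V (fun v => ho (it v)) C L).filter fun v => ho (it v) = z).card : ℝ) := by
    rw [mul_comm]
    refine mul_le_mul_of_nonneg_right ?_ (Nat.cast_nonneg _)
    exact_mod_cast hA
  have hN' : ((R - 2 * e : ℤ) : ℝ) * ((s z : ℝ) + (S.card : ℝ))
      ≤ ((t z : ℝ) + 1) * (e : ℝ) + ((∑ v ∈ S, bt v z : ℤ) : ℝ) := by
    exact_mod_cast hN
  have he' : (e : ℝ) = (mu z : ℝ) + (S.card : ℝ) := by
    rw [he]
    push_cast
    rfl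
  refine le_of_mul_le_mul_left ?_ hc
  rw [he', hmu] at hN'
  nlinarith

end TabLP

end Pool.Agent.Lib.MP_f04ccf_co
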