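import Pool.Agent.Lib.MP_f04ccf_co.M.LemFE

/-!
MP_f04ccf_co: the tail test and the number bound for two classes.  `CSys.tail_test`: property (P) on a
slot part and any set of outside points, in terms of the class points which they miss.
`CSys.pair_num`: property (P) on two class parts and a set of outside points.  `CSys.pair_rect`: a
double of the two rows misses `κ` and `β` class points with `κ β ≤ t t' + κ + β`.  `CSys.pair_two`: two
such doubles with `κ, β ≥ 2` need `r - 1 ≤ t t' + 5`.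
-/

set_option autoImplicit false

namespace Pool.Agent.Lib.MP_f04ccf_co

open Finset

attribute [local instance] Classical.propDecidable

section Tail

variable {V : Type*} {G : SimpleGraph V} {Z T : Finset V} {hm : V → V} {r m t : ℕ}
  {A : Finset V} {S : V → Finset V}

/-- twice the number of non-edges inside a set is at most `k (k - 1)` -/
lemma NE_le_card (K : Finset V) : (NE G K : ℤ) ≤ (K.card : ℤ) * (K.card - 1) := by
  have h1 := E_add_NE (G := G) K
  have h2 : (0 : ℤ) ≤ E G K := by positivity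
  linarith

/-- **the tail test**: `K` outside the slot part `S z`, every point of `K` misses at most `β` points of
the class part -/
theorem PG.tail_test (hP : PG G r) {z : V} {K : Finset V} (hK : Disjoint (S z) K) {β : V → ℤ}
    (hβ : ∀ v ∈ K, (nd G (CP G Z T S z) v : ℤ) ≤ β v) :
    2 * ((r : ℤ) - 1) * (((S z).card : ℤ) - r + K.card)
      ≤ NE G (S z) + NE G K + 2 * ∑ v ∈ K, β v + 2 * ∑ v ∈ K, (nd G (HP G Z T S z) v : ℤ) := by
  have h1 := hP.one (S z ∪ K)
  have h2 := E_add_NE (G := G) (S z ∪ K)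
  have h3 : (NE G (S z ∪ K) : ℤ) = NE G (S z) + NE G K + 2 * ∑ v ∈ K, (nd G (S z) v : ℤ) := by
    rw [NE_union hK]
    push_cast
    ring
  have h4 : ((S z ∪ K).card : ℤ) = (S z).card + K.card := by
    rw [card_union_of_disjoint hK]
    push_cast
    ring
  have h5 : ∑ v ∈ K, (nd G (S z) v : ℤ)
      ≤ ∑ v ∈ K, β v + ∑ v ∈ K, (nd G (HP G Z T S z) v : ℤ) := by
    rw [← sum_add_distrib]
    refine sum_le_sum fun v hv => ?_
    have h6 := hβ v hv
    have h7 : nd G (S z) v = nd G (CP G Z T S z) v + nd G (HP G Z T S z) v := by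
      conv_lhs => rw [← CP_union_HP (G := G) (Z := Z) (T := T) (S := S) (x := z)]
      exact nd_union CP_HP_disjoint v
    rw [h7]
    push_cast
    linarith
  rw [h4] at h1 h2
  linarith

/-- the tail test with all pairs of doubles counted as missing:
`R (s + k) ≤ e + Σ β + k h + k (k - 1) / 2` -/
theorem PG.tail_num (hP : PG G r) {z : V} {K : Finset V} (hK : Disjoint (S z) K) {β : V → ℤ}
    (hβ : ∀ v ∈ K, (nd G (CP G Z T S z) v : ℤ) ≤ β v) :
    2 * ((r : ℤ) - 1) * (((S z).card : ℤ) - r + K.card)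
      ≤ NE G (S z) + K.card * (K.card - 1) + 2 * ∑ v ∈ K, β v
        + 2 * (K.card * (HP G Z T S z).card) := by
  have h1 := hP.tail_test (Z := Z) (T := T) hK hβ
  have h2 := NE_le_card (G := G) K
  have h3 : ∑ v ∈ K, (nd G (HP G Z T S z) v : ℤ) ≤ K.card * (HP G Z T S z).card := by
    rw [← nsmul_eq_mul, ← sum_const]
    exact sum_le_sum fun v _ => by exact_mod_cast card_filter_le _ _
  linarith

/-- **the number bound**: property (P) on two class parts and outside points -/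
theorem CSys.pair_num (hF : PFrame G r m t Z T) (hP : PG G r) (h : CSys G Z T hm A S) {x z : V}
    (hx : x ∈ A) (hz : z ∈ A) (hxz : x ≠ z) {K : Finset V}
    (hKx : Disjoint (CP G Z T S x) K) (hKz : Disjoint (CP G Z T S z) K) :
    2 * ((r : ℤ) - 1) * (K.card - 1) + 2 * ∑ a ∈ CP G Z T S x, (dg G (CP G Z T S z) a : ℤ)
      ≤ 2 * (((r : ℤ) - 1 - (CP G Z T S x).card) * ((r : ℤ) - 1 - (CP G Z T S z).card))
        + 2 * ∑ v ∈ K, ((nd G (CP G Z T S x) v : ℤ) + nd G (CP G Z T S z) v) + NE G K := by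
  have hd : Disjoint (CP G Z T S x) (CP G Z T S z) :=
    ((h.disj hx hz hxz).mono_left CP_sub).mono_right CP_sub
  have hd2 : Disjoint (CP G Z T S x ∪ CP G Z T S z) K := disjoint_union_left.2 ⟨hKx, hKz⟩
  have h1 := hP.one (CP G Z T S x ∪ CP G Z T S z ∪ K)
  have h2 := E_add_NE (G := G) (CP G Z T S x ∪ CP G Z T S z ∪ K)
  have h3 : (NE G (CP G Z T S x ∪ CP G Z T S z ∪ K) : ℤ)
      = 2 * ∑ a ∈ CP G Z T S x, (nd G (CP G Z T S z) a : ℤ) + NE G K
        + 2 * ∑ v ∈ K, ((nd G (CP G Z T S x) v : ℤ) + nd G (CP G Z T S z) v) := by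
    rw [NE_union hd2, union_comm (CP G Z T S x), NE_union hd.symm, NE_clq (h.CP_clq hF hx),
      NE_clq (h.CP_clq hF hz)]
    have h4 : ∑ v ∈ K, nd G (CP G Z T S z ∪ CP G Z T S x) v
        = ∑ v ∈ K, (nd G (CP G Z T S x) v + nd G (CP G Z T S z) v) := by
      refine sum_congr rfl fun v _ => ?_
      rw [nd_union hd.symm]
      ring
    rw [h4]
    push_cast
    ring
  have h5 : ((CP G Z T S x ∪ CP G Z T S z ∪ K).card : ℤ)
      = (CP G Z T S x).card + (CP G Z T S z).card + K.card := by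
    rw [card_union_of_disjoint hd2, card_union_of_disjoint hd]
    push_cast
    ring
  have h6 : ∑ a ∈ CP G Z T S x, (nd G (CP G Z T S z) a : ℤ)
      = (CP G Z T S x).card * (CP G Z T S z).card
        - ∑ a ∈ CP G Z T S x, (dg G (CP G Z T S z) a : ℤ) := by
    have h7 : ∀ a ∈ CP G Z T S x, (nd G (CP G Z T S z) a : ℤ)
        = (CP G Z T S z).card - dg G (CP G Z T S z) a := by
      intro a ha
      have h8 := nd_of_notMem (G := G) (A := CP G Z T S z) (x := a)
        (fun h9 => disjoint_left.1 hd ha h9)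
      have h9 : (dg G (CP G Z T S z) a : ℤ) + nd G (CP G Z T S z) a = (CP G Z T S z).card := by
        exact_mod_cast h8
      linarith
    rw [sum_congr rfl h7, sum_sub_distrib, sum_const, nsmul_eq_mul]
  rw [h5] at h1 h2
  rw [h6] at h3
  nlinarith

/-- cells of two class parts are counted by the degrees -/
lemma cells_ge {C D : Finset V} {U : Finset (V × V)}
    (hU : ∀ p ∈ U, p.1 ∈ C ∧ p.2 ∈ D ∧ G.Adj p.1 p.2) : U.card ≤ ∑ a ∈ C, dg G D a := by
  have h1 : U ⊆ (C ×ˢ D).filter (fun p => G.Adj p.1 p.2) := fun p hp => by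
    obtain ⟨a, b, c⟩ := hU p hp
    exact mem_filter.2 ⟨mem_product.2 ⟨a, b⟩, c⟩
  have h2 : ((C ×ˢ D).filter (fun p => G.Adj p.1 p.2)).card = ∑ a ∈ C, dg G D a := by
    rw [card_filter, sum_product]
    refine sum_congr rfl fun a _ => ?_
    unfold dg
    rw [card_filter]
  exact (card_le_card h1).trans h2.le

/-- a double of two rows is in no class part -/
lemma BB_notMem_CP {x z v : V} (hxz : x ≠ z) (hx : x ∈ T) (hv : v ∈ BB G Z T)
    (he : ends G T v = {x, z}) : v ∉ CP G Z T S x := by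
  intro h1
  obtain ⟨-, h2⟩ := mem_Cl.1 (mem_CP.1 h1).2
  rcases h2 with h2 | ⟨-, h2⟩
  · exact (mem_BB.1 hv).1.2 (h2 ▸ hx)
  · rw [he] at h2
    have h3 : z ∈ ({x} : Finset V) := h2 ▸ mem_insert_of_mem (mem_singleton_self _)
    exact hxz (mem_singleton.1 h3).symm

variable (G) in
/-- the points of `C` missed by `v` -/
noncomputable def msd (C : Finset V) (v : V) : Finset V := C.filter (fun a => a ≠ v ∧ ¬ G.Adj v a)

lemma msd_card {C : Finset V} {v : V} : (msd G C v).card = nd G C v := rfl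

/-- the rectangle of a double consists of cells -/
lemma CSys.msd_adj (hF : PFrame G r m t Z T) (h : CSys G Z T hm A S) {x z v : V} (hx : x ∈ A)
    (hz : z ∈ A) (hxz : x ≠ z) (hv : v ∈ BB G Z T) (he : ends G T v = {x, z}) {a c : V}
    (ha : a ∈ msd G (CP G Z T S x) v) (hc : c ∈ msd G (CP G Z T S z) v) : G.Adj a c := by
  obtain ⟨a1, a2, a3⟩ := mem_filter.1 ha
  obtain ⟨c1, c2, c3⟩ := mem_filter.1 hc
  rcases hF.srv_PC (h.sub hx) (h.sub hz) hxz hv he (mem_CP.1 a1).2 a3 (mem_CP.1 c1).2 with h1 | h1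
  · exact absurd h1 c3
  · exact h1

/-- **one double**: `κ β ≤ t t' + κ + β` -/
theorem CSys.pair_rect (hF : PFrame G r m t Z T) (hP : PG G r) (h : CSys G Z T hm A S) {x z v : V}
    (hx : x ∈ A) (hz : z ∈ A) (hxz : x ≠ z) (hv : v ∈ BB G Z T) (he : ends G T v = {x, z}) :
    (nd G (CP G Z T S x) v : ℤ) * nd G (CP G Z T S z) v
      ≤ ((r : ℤ) - 1 - (CP G Z T S x).card) * ((r : ℤ) - 1 - (CP G Z T S z).card)
        + nd G (CP G Z T S x) v + nd G (CP G Z T S z) v := by
  have he' : ends G T v = {z, x} := by rw [he, pair_comm]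
  have n1 : v ∉ CP G Z T S x := BB_notMem_CP hxz (h.sub hx) hv he
  have n2 : v ∉ CP G Z T S z := BB_notMem_CP hxz.symm (h.sub hz) hv he'
  have h1 := h.pair_num hF hP hx hz hxz (K := {v}) (disjoint_singleton_right.2 n1)
    (disjoint_singleton_right.2 n2)
  have h2 : (NE G {v} : ℤ) = 0 := by
    have := NE_le_card (G := G) {v}
    rw [card_singleton] at this
    have h3 : (0 : ℤ) ≤ NE G {v} := by positivity
    push_cast at this
    linarith
  have h3 : ((msd G (CP G Z T S x) v ×ˢ msd G (CP G Z T S z) v).card : ℤ)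
      ≤ ∑ a ∈ CP G Z T S x, (dg G (CP G Z T S z) a : ℤ) := by
    have h4 := cells_ge (G := G) (C := CP G Z T S x) (D := CP G Z T S z)
      (U := msd G (CP G Z T S x) v ×ˢ msd G (CP G Z T S z) v) (fun p hp => by
        obtain ⟨a, b⟩ := mem_product.1 hp
        exact ⟨(mem_filter.1 a).1, (mem_filter.1 b).1, h.msd_adj hF hx hz hxz hv he a b⟩)
    exact_mod_cast h4
  rw [card_product, msd_card, msd_card] at h3
  rw [card_singleton, sum_singleton, h2] at h1
  push_cast at h1 h3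
  linarith

/-- **two doubles** of the same two rows which miss at least two points in both classes:
`r - 1 ≤ t t' + 5` -/
theorem CSys.pair_two (hF : PFrame G r m t Z T) (hP : PG G r) (h : CSys G Z T hm A S)
    {x z v w : V} (hx : x ∈ A) (hz : z ∈ A) (hxz : x ≠ z) (hvw : v ≠ w) (hv : v ∈ BB G Z T)
    (he : ends G T v = {x, z}) (hw : w ∈ BB G Z T) (he' : ends G T w = {x, z})
    (h1 : 2 ≤ nd G (CP G Z T S x) v) (h2 : 2 ≤ nd G (CP G Z T S z) v)
    (h3 : 2 ≤ nd G (CP G Z T S x) w) (h4 : 2 ≤ nd G (CP G Z T S z) w) :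
    (r : ℤ) - 1 ≤ ((r : ℤ) - 1 - (CP G Z T S x).card) * ((r : ℤ) - 1 - (CP G Z T S z).card) + 5 := by
  have n1 : v ∉ CP G Z T S x := BB_notMem_CP hxz (h.sub hx) hv he
  have n2 : v ∉ CP G Z T S z := BB_notMem_CP hxz.symm (h.sub hz) hv (by rw [he, pair_comm])
  have n3 : w ∉ CP G Z T S x := BB_notMem_CP hxz (h.sub hx) hw he'
  have n4 : w ∉ CP G Z T S z := BB_notMem_CP hxz.symm (h.sub hz) hw (by rw [he', pair_comm])
  have h5 := h.pair_num hF hP hx hz hxz (K := {v, w})
    (disjoint_insert_right.2 ⟨n1, disjoint_singleton_right.2 n3⟩)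
    (disjoint_insert_right.2 ⟨n2, disjoint_singleton_right.2 n4⟩)
  have h6 := NE_le_card (G := G) {v, w}
  have h7 : ({v, w} : Finset V).card = 2 := card_pair hvw
  set A1 := msd G (CP G Z T S x) v with hA1
  set B1 := msd G (CP G Z T S z) v with hB1
  set A2 := msd G (CP G Z T S x) w with hA2
  set B2 := msd G (CP G Z T S z) w with hB2
  have c1 : A1.card = nd G (CP G Z T S x) v := msd_card
  have c2 : B1.card = nd G (CP G Z T S z) v := msd_card
  have c3 : A2.card = nd G (CP G Z T S x) w := msd_card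
  have c4 : B2.card = nd G (CP G Z T S z) w := msd_card
  have h8 : (A1 ×ˢ B1 ∪ A2 ×ˢ B2).card ≤ ∑ a ∈ CP G Z T S x, dg G (CP G Z T S z) a := by
    refine cells_ge fun p hp => ?_
    rcases mem_union.1 hp with hp | hp
    · obtain ⟨a, b⟩ := mem_product.1 hp
      exact ⟨(mem_filter.1 a).1, (mem_filter.1 b).1, h.msd_adj hF hx hz hxz hv he a b⟩
    · obtain ⟨a, b⟩ := mem_product.1 hp
      exact ⟨(mem_filter.1 a).1, (mem_filter.1 b).1, h.msd_adj hF hx hz hxz hw he' a b⟩
  have h9 : (A1 ×ˢ B1 ∪ A2 ×ˢ B2).card + (A1 ∩ A2).card * (B1 ∩ B2).card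
      = A1.card * B1.card + A2.card * B2.card := by
    have h10 := card_union_add_card_inter (A1 ×ˢ B1) (A2 ×ˢ B2)
    rw [product_inter_product, card_product, card_product, card_product] at h10
    exact h10
  have i1 : (A1 ∩ A2).card ≤ A1.card := card_le_card inter_subset_left
  have i2 : (A1 ∩ A2).card ≤ A2.card := card_le_card inter_subset_right
  have j1 : (B1 ∩ B2).card ≤ B1.card := card_le_card inter_subset_left
  have j2 : (B1 ∩ B2).card ≤ B2.card := card_le_card inter_subset_right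
  rw [c1] at i1 h9
  rw [c2] at j1 h9
  rw [c3] at i2 h9
  rw [c4] at j2 h9
  rw [sum_pair hvw, h7] at h5
  rw [h7] at h6
  have h8' : ((A1 ×ˢ B1 ∪ A2 ×ˢ B2).card : ℤ)
      ≤ ∑ a ∈ CP G Z T S x, (dg G (CP G Z T S z) a : ℤ) := by exact_mod_cast h8
  have h9' : ((A1 ×ˢ B1 ∪ A2 ×ˢ B2).card : ℤ) + ((A1 ∩ A2).card : ℤ) * (B1 ∩ B2).card
      = (nd G (CP G Z T S x) v : ℤ) * nd G (CP G Z T S z) v
        + (nd G (CP G Z T S x) w : ℤ) * nd G (CP G Z T S z) w := by exact_mod_cast h9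
  have key : ∀ k1 b1 k2 b2 i j : ℤ, 2 ≤ k1 → 2 ≤ b1 → 2 ≤ k2 → 2 ≤ b2 → 0 ≤ i → 0 ≤ j →
      i ≤ k1 → i ≤ k2 → j ≤ b1 → j ≤ b2 →
      k1 + b1 + k2 + b2 - 4 ≤ k1 * b1 + k2 * b2 - i * j := by
    intro k1 b1 k2 b2 i j a1 a2 a3 a4 a5 a6 a7 a8 a9 a10
    have u1 : (k1 - i) * (b1 - 1) ≥ 0 := mul_nonneg (by linarith) (by linarith)
    have u2 : 0 ≤ (k2 - 2) * (b2 - 2) := mul_nonneg (by linarith) (by linarith)
    have u3 : 0 ≤ (k1 - 2) * (b1 - 2) := mul_nonneg (by linarith) (by linarith)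
    rcases le_total k1 k2 with e1 | e1 <;> rcases le_total b1 b2 with e2 | e2
    · have u4 : i * j ≤ k1 * b1 := mul_le_mul a7 a9 a6 (by linarith)
      nlinarith
    · have u4 : i * j ≤ k1 * b2 := mul_le_mul a7 a10 a6 (by linarith)
      nlinarith [mul_nonneg (sub_nonneg.2 e1) (show (0:ℤ) ≤ b2 - 1 by linarith),
        mul_nonneg (sub_nonneg.2 e2) (show (0:ℤ) ≤ k1 - 1 by linarith),
        mul_nonneg (show (0:ℤ) ≤ k1 - 2 by linarith) (show (0:ℤ) ≤ b2 - 2 by linarith)]
    · have u4 : i * j ≤ k2 * b1 := mul_le_mul a8 a9 a6 (by linarith)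
      nlinarith [mul_nonneg (sub_nonneg.2 e1) (show (0:ℤ) ≤ b1 - 1 by linarith),
        mul_nonneg (sub_nonneg.2 e2) (show (0:ℤ) ≤ k2 - 1 by linarith),
        mul_nonneg (show (0:ℤ) ≤ k2 - 2 by linarith) (show (0:ℤ) ≤ b1 - 2 by linarith)]
    · have u4 : i * j ≤ k2 * b2 := mul_le_mul a8 a10 a6 (by linarith)
      nlinarith
  have h11 := key (nd G (CP G Z T S x) v) (nd G (CP G Z T S z) v) (nd G (CP G Z T S x) w)
    (nd G (CP G Z T S z) w) ((A1 ∩ A2).card) ((B1 ∩ B2).card) (by exact_mod_cast h1)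
    (by exact_mod_cast h2) (by exact_mod_cast h3) (by exact_mod_cast h4) (by positivity)
    (by positivity) (by exact_mod_cast i1) (by exact_mod_cast i2) (by exact_mod_cast j1)
    (by exact_mod_cast j2)
  push_cast at h5 h6
  linarith

end Tail

end Pool.Agent.Lib.MP_f04ccf_co
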