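import Pool.Agent.Lib.MP_f04ccf_co.M.JFront

/-!
MP_f04ccf_co, note 16158: the front for three residual loads.  A family of sets of at most three
points with transversal number at least three has a front of at most ten points.

* `Tau.crit_three`: a minimal family with transversal number at least three; every member `e` has a
  transversal `X e` of two points of the others.
* `Tau.ten_A`, `Tau.ten_B`, `Tau.ten_C`: three disjoint `X e`, two disjoint ones, none.
* `Tau.front_hyp_three`, `Blkn.three`, `Blk.three`.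
-/

set_option autoImplicit false

namespace Pool.Agent.Lib.MP_f04ccf_co

open Finset

attribute [local instance] Classical.propDecidable

namespace Tau

variable {V : Type*}

/-- a minimal family with transversal number at least three: the two-point transversals -/
structure Crit3 (F : Finset (Finset V)) (X : Finset V → Finset V) : Prop where
  rank : ∀ e ∈ F, e.card ≤ 3
  tau : ∀ Y : Finset V, Trv F Y → 3 ≤ Y.card
  two : ∀ e ∈ F, (X e).card = 2
  dis : ∀ e ∈ F, Disjoint e (X e)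
  hit : ∀ e ∈ F, ∀ f ∈ F, f ≠ e → (f ∩ X e).Nonempty

theorem crit_three (F : Finset (Finset V)) (h3 : ∀ e ∈ F, e.card ≤ 3)
    (h2 : ∀ X : Finset V, Trv F X → 3 ≤ X.card) (h0 : ∀ e ∈ F, e.Nonempty) :
    ∃ F' ⊆ F, ∃ X, Crit3 F' X := by
  set Q : Finset (Finset (Finset V)) :=
    F.powerset.filter (fun F' => ∀ X : Finset V, Trv F' X → 3 ≤ X.card) with hQ
  have hF : F ∈ Q := mem_filter.mpr ⟨mem_powerset_self F, h2⟩
  obtain ⟨F', hF', hmin⟩ := exists_min_image Q card ⟨F, hF⟩
  rw [hQ, mem_filter, mem_powerset] at hF'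
  obtain ⟨hsub, hno⟩ := hF'
  have hcr : ∀ e ∈ F', ∃ Y : Finset V, Trv (F'.erase e) Y ∧ Y.card ≤ 2 := by
    intro e he
    by_contra hcon
    push Not at hcon
    have hm : F'.erase e ∈ Q := by
      rw [hQ, mem_filter, mem_powerset]
      exact ⟨(erase_subset e F').trans hsub, fun Y hY => hcon Y hY⟩
    have h5 := hmin _ hm
    rw [card_erase_of_mem he] at h5
    have : 0 < F'.card := card_pos.mpr ⟨e, he⟩
    omega
  have hNV : Nonempty V := by
    by_contra hV
    rw [not_nonempty_iff] at hV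
    have h5 := h2 ∅ (fun e he => by
      obtain ⟨y, -⟩ := h0 e he
      exact (hV.false y).elim)
    rw [card_empty] at h5
    omega
  choose! X hX1 hX2 using hcr
  refine ⟨F', hsub, X, fun e he => h3 e (hsub he), hno, fun e he => ?_, fun e he => ?_,
    fun e he f hf hfe => ?_⟩
  · refine le_antisymm (hX2 e he) ?_
    obtain ⟨v, hv⟩ := h0 e (hsub he)
    have h5 := hno (insert v (X e)) (fun f hf => by
      by_cases hfe : f = e
      · exact ⟨v, mem_inter.mpr ⟨hfe ▸ hv, mem_insert_self _ _⟩⟩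
      · obtain ⟨w, hw⟩ := hX1 e he f (mem_erase.mpr ⟨hfe, hf⟩)
        obtain ⟨h6, h7⟩ := mem_inter.mp hw
        exact ⟨w, mem_inter.mpr ⟨h6, mem_insert_of_mem h7⟩⟩)
    have h6 := card_insert_le v (X e)
    omega
  · by_contra hcon
    have h5 := hno (X e) (fun f hf => by
      by_cases hfe : f = e
      · rw [hfe]
        rw [not_disjoint_iff] at hcon
        obtain ⟨w, h6, h7⟩ := hcon
        exact ⟨w, mem_inter.mpr ⟨h6, h7⟩⟩
      · exact hX1 e he f (mem_erase.mpr ⟨hfe, hf⟩))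
    have := hX2 e he
    omega
  · exact hX1 e he f (mem_erase.mpr ⟨hfe, hf⟩)

/-- a set of at most three points which meets two disjoint parts of `Q` has at most one point
outside -/
lemma out_one {e A B Q : Finset V} (he : e.card ≤ 3) (hAB : Disjoint A B) (hA : A ⊆ Q)
    (hB : B ⊆ Q) (h1 : (e ∩ A).Nonempty) (h2 : (e ∩ B).Nonempty) : (e \ Q).card ≤ 1 := by
  obtain ⟨a, ha⟩ := h1
  obtain ⟨b, hb⟩ := h2
  obtain ⟨ha1, ha2⟩ := mem_inter.mp ha
  obtain ⟨hb1, hb2⟩ := mem_inter.mp hb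
  have hab : a ≠ b := by
    rintro rfl
    exact disjoint_left.mp hAB ha2 hb2
  have h3 : ({a, b} : Finset V) ⊆ e ∩ Q := by
    intro v hv
    simp only [mem_insert, mem_singleton] at hv
    rcases hv with rfl | rfl
    · exact mem_inter.mpr ⟨ha1, hA ha2⟩
    · exact mem_inter.mpr ⟨hb1, hB hb2⟩
  have h4 := card_le_card h3
  rw [card_pair hab] at h4
  have h5 := card_sdiff_add_card_inter e Q
  omega

lemma out_two {e A Q : Finset V} (he : e.card ≤ 3) (hA : A ⊆ Q) (h1 : (e ∩ A).Nonempty) :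
    (e \ Q).card ≤ 2 := by
  obtain ⟨a, ha⟩ := h1
  obtain ⟨ha1, ha2⟩ := mem_inter.mp ha
  have h4 : 0 < (e ∩ Q).card := card_pos.mpr ⟨a, mem_inter.mpr ⟨ha1, hA ha2⟩⟩
  have h5 := card_sdiff_add_card_inter e Q
  omega

variable {F : Finset (Finset V)} {X : Finset V → Finset V}

/-- three pairwise disjoint `X e`: at most nine points -/
theorem Crit3.ten_A (h : Crit3 F X) {e₁ e₂ e₃ : Finset V} (h1 : e₁ ∈ F) (h2 : e₂ ∈ F)
    (h3 : e₃ ∈ F) (h12 : Disjoint (X e₁) (X e₂)) (h13 : Disjoint (X e₁) (X e₃))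
    (h23 : Disjoint (X e₂) (X e₃)) : (F.biUnion id).card ≤ 10 := by
  have hne : ∀ {e f : Finset V}, e ∈ F → Disjoint (X e) (X f) → e ≠ f := by
    rintro e f he hd rfl
    rw [disjoint_self_iff_empty] at hd
    have := h.two e he
    rw [hd, card_empty] at this
    omega
  have n12 := hne h1 h12
  have n13 := hne h1 h13
  have n23 := hne h2 h23
  set Q : Finset V := X e₁ ∪ (X e₂ ∪ X e₃) with hQ
  have q1 : X e₁ ⊆ Q := subset_union_left
  have q2 : X e₂ ⊆ Q := subset_union_left.trans subset_union_right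
  have q3 : X e₃ ⊆ Q := subset_union_right.trans subset_union_right
  have hQc : Q.card ≤ 6 := by
    rw [hQ]
    have a1 := card_union_le (X e₁) (X e₂ ∪ X e₃)
    have a2 := card_union_le (X e₂) (X e₃)
    have := h.two e₁ h1
    have := h.two e₂ h2
    have := h.two e₃ h3
    omega
  have hsub : F.biUnion id ⊆ Q ∪ ((e₁ \ Q) ∪ ((e₂ \ Q) ∪ (e₃ \ Q))) := by
    intro v hv
    rw [mem_biUnion] at hv
    obtain ⟨f, hf, hvf⟩ := hv
    have hvf : v ∈ f := hvf
    by_cases hvQ : v ∈ Q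
    · exact mem_union_left _ hvQ
    by_cases f1 : f = e₁
    · exact mem_union_right _ (mem_union_left _ (mem_sdiff.mpr ⟨f1 ▸ hvf, hvQ⟩))
    by_cases f2 : f = e₂
    · exact mem_union_right _ (mem_union_right _ (mem_union_left _
        (mem_sdiff.mpr ⟨f2 ▸ hvf, hvQ⟩)))
    by_cases f3 : f = e₃
    · exact mem_union_right _ (mem_union_right _ (mem_union_right _
        (mem_sdiff.mpr ⟨f3 ▸ hvf, hvQ⟩)))
    exfalso
    obtain ⟨a, ha⟩ := h.hit e₁ h1 f hf f1
    obtain ⟨b, hb⟩ := h.hit e₂ h2 f hf f2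
    obtain ⟨c, hc⟩ := h.hit e₃ h3 f hf f3
    obtain ⟨ha1, ha2⟩ := mem_inter.mp ha
    obtain ⟨hb1, hb2⟩ := mem_inter.mp hb
    obtain ⟨hc1, hc2⟩ := mem_inter.mp hc
    have hab : a ≠ b := fun he => disjoint_left.mp h12 ha2 (he ▸ hb2)
    have hac : a ≠ c := fun he => disjoint_left.mp h13 ha2 (he ▸ hc2)
    have hbc : b ≠ c := fun he => disjoint_left.mp h23 hb2 (he ▸ hc2)
    have hva : v ≠ a := fun he => hvQ (he ▸ q1 ha2)
    have hvb : v ≠ b := fun he => hvQ (he ▸ q2 hb2)
    have hvc : v ≠ c := fun he => hvQ (he ▸ q3 hc2)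
    have h4 : ({v, a, b, c} : Finset V) ⊆ f := by
      intro w hw
      simp only [mem_insert, mem_singleton] at hw
      rcases hw with rfl | rfl | rfl | rfl <;> assumption
    have h5 := card_le_card h4
    have h6 : ({v, a, b, c} : Finset V).card = 4 := by
      rw [card_insert_of_notMem, card_insert_of_notMem, card_pair hbc]
      · simp only [mem_insert, mem_singleton, not_or]
        exact ⟨hab, hac⟩
      · simp only [mem_insert, mem_singleton, not_or]
        exact ⟨hva, hvb, hvc⟩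
    have := h.rank f hf
    omega
  have o1 : (e₁ \ Q).card ≤ 1 :=
    out_one (h.rank e₁ h1) h23 q2 q3 (h.hit e₂ h2 e₁ h1 n12) (h.hit e₃ h3 e₁ h1 n13)
  have o2 : (e₂ \ Q).card ≤ 1 :=
    out_one (h.rank e₂ h2) h13 q1 q3 (h.hit e₁ h1 e₂ h2 n12.symm) (h.hit e₃ h3 e₂ h2 n23)
  have o3 : (e₃ \ Q).card ≤ 1 :=
    out_one (h.rank e₃ h3) h12 q1 q2 (h.hit e₁ h1 e₃ h3 n13.symm) (h.hit e₂ h2 e₃ h3 n23.symm)
  have a1 := (card_le_card hsub).trans (card_union_le _ _)
  have a2 := card_union_le (e₁ \ Q) ((e₂ \ Q) ∪ (e₃ \ Q))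
  have a3 := card_union_le (e₂ \ Q) (e₃ \ Q)
  omega

/-- no two disjoint `X e`: at most three members -/
theorem Crit3.ten_C (h : Crit3 F X) (h0 : ∀ e ∈ F, e.Nonempty)
    (hno : ∀ e ∈ F, ∀ f ∈ F, ¬ Disjoint (X e) (X f)) : (F.biUnion id).card ≤ 10 := by
  have hne : F.Nonempty := by
    by_contra hcon
    rw [not_nonempty_iff_eq_empty] at hcon
    have := h.tau ∅ (by intro e he; rw [hcon] at he; exact absurd he (notMem_empty e))
    rw [card_empty] at this
    omega
  obtain ⟨e₁, h1⟩ := hne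
  -- a point of `X e₁` is not in all `X e`
  have hstar : ∀ x y : V, X e₁ = {x, y} → ∃ e ∈ F, x ∉ X e := by
    intro x y hxy
    by_contra hcon
    push Not at hcon
    obtain ⟨v, hv⟩ := h0 e₁ h1
    have h5 := h.tau {y, v} (fun f hf => by
      by_cases hfe : f = e₁
      · exact ⟨v, mem_inter.mpr ⟨hfe ▸ hv, by simp⟩⟩
      · obtain ⟨w, hw⟩ := h.hit e₁ h1 f hf hfe
        obtain ⟨hw1, hw2⟩ := mem_inter.mp hw
        rw [hxy] at hw2
        simp only [mem_insert, mem_singleton] at hw2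
        rcases hw2 with rfl | rfl
        · exact absurd (hcon f hf) (disjoint_left.mp (h.dis f hf) hw1)
        · exact ⟨w, mem_inter.mpr ⟨hw1, by simp⟩⟩)
    have h6 := card_le_two (a := y) (b := v)
    omega
  obtain ⟨x, y, hxy, hX1⟩ := card_eq_two.mp (h.two e₁ h1)
  obtain ⟨e₂, h2, hx2⟩ := hstar x y hX1
  obtain ⟨e₃, h3, hy3⟩ := hstar y x (by rw [hX1, pair_comm])
  -- common points
  have hmeet : ∀ {e f : Finset V}, e ∈ F → f ∈ F → ∃ v, v ∈ X e ∧ v ∈ X f := by
    intro e f he hf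
    have h5 := hno e he f hf
    rw [not_disjoint_iff] at h5
    exact h5
  have hy2 : y ∈ X e₂ := by
    obtain ⟨v, hv1, hv2⟩ := hmeet h1 h2
    rw [hX1] at hv1
    simp only [mem_insert, mem_singleton] at hv1
    rcases hv1 with rfl | rfl
    · exact absurd hv2 hx2
    · exact hv2
  have hx3 : x ∈ X e₃ := by
    obtain ⟨v, hv1, hv2⟩ := hmeet h1 h3
    rw [hX1] at hv1
    simp only [mem_insert, mem_singleton] at hv1
    rcases hv1 with rfl | rfl
    · exact hv2
    · exact absurd hv2 hy3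
  obtain ⟨z, hz2, hz3⟩ := hmeet h2 h3
  have hzx : z ≠ x := fun he => hx2 (he ▸ hz2)
  have hzy : z ≠ y := fun he => hy3 (he ▸ hz3)
  have hpair : ∀ {e : Finset V} {a b : V}, e ∈ F → a ∈ X e → b ∈ X e → a ≠ b →
      X e = {a, b} := by
    intro e a b he ha hb hab
    refine (eq_of_subset_of_card_le ?_ ?_).symm
    · intro v hv
      simp only [mem_insert, mem_singleton] at hv
      rcases hv with rfl | rfl <;> assumption
    · rw [h.two e he, card_pair hab]
  have hX2 := hpair h2 hy2 hz2 hzy.symm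
  have hX3 := hpair h3 hx3 hz3 hzx.symm
  have hinj : ∀ {e f : Finset V}, e ∈ F → f ∈ F → X f = X e → f = e := by
    intro e f he hf hef
    by_contra hne
    obtain ⟨v, hv⟩ := h.hit f hf e he (Ne.symm hne)
    obtain ⟨hv1, hv2⟩ := mem_inter.mp hv
    rw [hef] at hv2
    exact disjoint_left.mp (h.dis e he) hv1 hv2
  have hsub : F ⊆ {e₁, e₂, e₃} := by
    intro f hf
    simp only [mem_insert, mem_singleton]
    obtain ⟨u, hu1, hu2⟩ := hmeet hf h1
    obtain ⟨v, hv1, hv2⟩ := hmeet hf h2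
    obtain ⟨w, hw1, hw2⟩ := hmeet hf h3
    rw [hX1] at hu2
    rw [hX2] at hv2
    rw [hX3] at hw2
    simp only [mem_insert, mem_singleton] at hu2 hv2 hw2
    have hxyf : x ∈ X f → y ∈ X f → f = e₁ := fun ha hb =>
      hinj h1 hf ((hpair hf ha hb hxy).trans hX1.symm)
    have hyzf : y ∈ X f → z ∈ X f → f = e₂ := fun ha hb =>
      hinj h2 hf ((hpair hf ha hb hzy.symm).trans hX2.symm)
    have hxzf : x ∈ X f → z ∈ X f → f = e₃ := fun ha hb =>
      hinj h3 hf ((hpair hf ha hb hzx.symm).trans hX3.symm)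
    rcases hu2 with rfl | rfl
    · rcases hv2 with rfl | rfl
      · exact Or.inl (hxyf hu1 hv1)
      · exact Or.inr (Or.inr (hxzf hu1 hv1))
    · rcases hw2 with rfl | rfl
      · exact Or.inl (hxyf hw1 hu1)
      · exact Or.inr (Or.inl (hyzf hu1 hw1))
  have h5 : (F.biUnion id).card ≤ F.card * 3 := card_biUnion_le_card_mul _ _ _ h.rank
  have h6 := (card_le_card hsub).trans card_le_three
  omega

/-- two disjoint `X e`, all others meet them: at most ten points -/
theorem Crit3.ten_B (h : Crit3 F X) {e₁ e₂ : Finset V} (h1 : e₁ ∈ F) (h2 : e₂ ∈ F)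
    (h12 : Disjoint (X e₁) (X e₂))
    (hno : ∀ f ∈ F, (X f ∩ (X e₁ ∪ X e₂)).Nonempty) : (F.biUnion id).card ≤ 10 := by
  obtain ⟨a, b, hab, hX1⟩ := card_eq_two.mp (h.two e₁ h1)
  obtain ⟨c, d, hcd, hX2⟩ := card_eq_two.mp (h.two e₂ h2)
  set Q : Finset V := X e₁ ∪ X e₂ with hQ
  have hQc : Q.card ≤ 4 := by
    rw [hQ]
    have := card_union_le (X e₁) (X e₂)
    have := h.two e₁ h1
    have := h.two e₂ h2
    omega
  have n12 : e₁ ≠ e₂ := by
    rintro rfl
    rw [disjoint_self_iff_empty] at h12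
    have := h.two e₁ h1
    rw [h12, card_empty] at this
    omega
  have o1 : (e₁ \ Q).card ≤ 2 :=
    out_two (h.rank e₁ h1) subset_union_right (h.hit e₂ h2 e₁ h1 n12)
  have o2 : (e₂ \ Q).card ≤ 2 :=
    out_two (h.rank e₂ h2) subset_union_left (h.hit e₁ h1 e₂ h2 n12.symm)
  set O : Finset V := (e₁ \ Q) ∪ (e₂ \ Q) with hO
  set N : Finset V := (F.biUnion id \ Q) \ O with hN
  have hNm : ∀ o ∈ N, o ∉ Q ∧ o ∉ e₁ ∧ o ∉ e₂ ∧ ∃ f ∈ F, o ∈ f := by
    intro o ho
    rw [hN] at ho
    obtain ⟨ho0, ho2⟩ := mem_sdiff.mp ho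
    obtain ⟨ho3, ho1⟩ := mem_sdiff.mp ho0
    obtain ⟨f, hf, hof⟩ := mem_biUnion.mp ho3
    exact ⟨ho1, fun h5 => ho2 (mem_union_left _ (mem_sdiff.mpr ⟨h5, ho1⟩)),
      fun h5 => ho2 (mem_union_right _ (mem_sdiff.mpr ⟨h5, ho1⟩)), f, hf, hof⟩
  -- the members with a point of `N`
  have hform : ∀ o ∈ N, ∃ α ∈ X e₁, ∃ β ∈ X e₂, ({α, β, o} : Finset V) ∈ F := by
    intro o ho
    obtain ⟨hoQ, ho1, ho2, f, hf, hof⟩ := hNm o ho
    obtain ⟨α, hα⟩ := h.hit e₁ h1 f hf (fun he => ho1 (he ▸ hof))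
    obtain ⟨β, hβ⟩ := h.hit e₂ h2 f hf (fun he => ho2 (he ▸ hof))
    obtain ⟨hα1, hα2⟩ := mem_inter.mp hα
    obtain ⟨hβ1, hβ2⟩ := mem_inter.mp hβ
    have n1 : α ≠ β := fun he => disjoint_left.mp h12 hα2 (he ▸ hβ2)
    have n2 : α ≠ o := fun he => hoQ (he ▸ mem_union_left _ hα2)
    have n3 : β ≠ o := fun he => hoQ (he ▸ mem_union_right _ hβ2)
    have h5 : ({α, β, o} : Finset V) ⊆ f := by
      intro w hw
      simp only [mem_insert, mem_singleton] at hw
      rcases hw with rfl | rfl | rfl <;> assumption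
    have h6 := eq_of_subset_of_card_le h5 (by
      rw [card_triple n1 n2 n3]
      exact h.rank f hf)
    exact ⟨α, hα2, β, hβ2, h6 ▸ hf⟩
  -- no point of `N` is in an `X e`
  have hNX : ∀ o ∈ N, ∀ e ∈ F, o ∉ X e := by
    intro o ho e he hoX
    obtain ⟨hoQ, ho1, ho2, -⟩ := hNm o ho
    obtain ⟨q, hq⟩ := hno e he
    obtain ⟨hq1, hq2⟩ := mem_inter.mp hq
    have hqo : q ≠ o := fun h5 => hoQ (h5 ▸ hq2)
    have hXe : X e = {q, o} := by
      refine (eq_of_subset_of_card_le ?_ ?_).symm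
      · intro v hv
        simp only [mem_insert, mem_singleton] at hv
        rcases hv with rfl | rfl <;> assumption
      · rw [h.two e he, card_pair hqo]
    rcases mem_union.mp hq2 with h5 | h5
    · by_cases hee : e₁ = e
      · subst hee
        exact hoQ (mem_union_left _ hoX)
      · obtain ⟨v, hv⟩ := h.hit e he e₁ h1 hee
        obtain ⟨hv1, hv2⟩ := mem_inter.mp hv
        rw [hXe] at hv2
        simp only [mem_insert, mem_singleton] at hv2
        rcases hv2 with rfl | rfl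
        · exact disjoint_left.mp (h.dis e₁ h1) hv1 h5
        · exact ho1 hv1
    · by_cases hee : e₂ = e
      · subst hee
        exact hoQ (mem_union_right _ hoX)
      · obtain ⟨v, hv⟩ := h.hit e he e₂ h2 hee
        obtain ⟨hv1, hv2⟩ := mem_inter.mp hv
        rw [hXe] at hv2
        simp only [mem_insert, mem_singleton] at hv2
        rcases hv2 with rfl | rfl
        · exact disjoint_left.mp (h.dis e₂ h2) hv1 h5
        · exact ho2 hv1
  -- an `X e` meets another member with a point of `N` in one of its two other points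
  have hmeet : ∀ {e : Finset V} {α β o : V}, e ∈ F → o ∈ N → ({α, β, o} : Finset V) ∈ F →
      ({α, β, o} : Finset V) ≠ e → α ∈ X e ∨ β ∈ X e := by
    intro e α β o he ho hf hne
    obtain ⟨v, hv⟩ := h.hit e he _ hf hne
    obtain ⟨hv1, hv2⟩ := mem_inter.mp hv
    simp only [mem_insert, mem_singleton] at hv1
    rcases hv1 with rfl | rfl | rfl
    · exact Or.inl hv2
    · exact Or.inr hv2
    · exact absurd hv2 (hNX v ho e he)
  -- a pair has at most one point of `N`
  have huniq : ∀ {α β o o' : V}, o ∈ N → o' ∈ N → ({α, β, o} : Finset V) ∈ F →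
      ({α, β, o'} : Finset V) ∈ F → α ∈ X e₁ → β ∈ X e₂ → o' = o := by
    intro α β o o' ho ho' hf hf' hα hβ
    by_contra hne
    have hne' : ({α, β, o'} : Finset V) ≠ {α, β, o} := by
      intro h5
      have h6 : o' ∈ ({α, β, o} : Finset V) := by rw [← h5]; simp
      simp only [mem_insert, mem_singleton] at h6
      have hQ' := (hNm o' ho').1
      rcases h6 with h6 | h6 | h6
      · exact hQ' (h6 ▸ mem_union_left _ hα)
      · exact hQ' (h6 ▸ mem_union_right _ hβ)
      · exact hne h6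
    have hd := h.dis _ hf
    rcases hmeet hf ho' hf' hne' with h5 | h5
    · exact disjoint_left.mp hd (by simp) h5
    · exact disjoint_left.mp hd (by simp) h5
  -- the diagonal with a third pair
  have hdiag : ∀ {α α' β β' o o' p : V}, α ∈ X e₁ → α' ∈ X e₁ → α ≠ α' → β ∈ X e₂ → β' ∈ X e₂ →
      β ≠ β' → o ∈ N → o' ∈ N → p ∈ N → ({α, β, o} : Finset V) ∈ F →
      ({α', β', o'} : Finset V) ∈ F → ({α, β', p} : Finset V) ∈ F →
      β ∈ e₁ ∧ α' ∈ e₂ ∧ O.card ≤ 3 := by
    intro α α' β β' o o' p hα hα' hαα hβ hβ' hββ ho ho' hp hi hi' hk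
    have hoQ := (hNm o ho).1
    have ho'Q := (hNm o' ho').1
    have hpQ := (hNm p hp).1
    have nαβ : ∀ u ∈ X e₁, ∀ v ∈ X e₂, u ≠ v := fun u hu v hv he =>
      disjoint_left.mp h12 hu (he ▸ hv)
    have hαe : ∀ u ∈ X e₁, u ∉ e₁ := fun u hu hu' => disjoint_left.mp (h.dis e₁ h1) hu' hu
    have hβe : ∀ u ∈ X e₂, u ∉ e₂ := fun u hu hu' => disjoint_left.mp (h.dis e₂ h2) hu' hu
    -- `X k = {α', β}`
    have hdk := h.dis _ hk
    have hik : ({α, β, o} : Finset V) ≠ {α, β', p} := by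
      intro h5
      have h6 : β' ∈ ({α, β, o} : Finset V) := by rw [h5]; simp
      simp only [mem_insert, mem_singleton] at h6
      rcases h6 with h6 | h6 | h6
      · exact nαβ α hα β' hβ' h6.symm
      · exact hββ h6.symm
      · exact hoQ (h6 ▸ mem_union_right _ hβ')
    have hi'k : ({α', β', o'} : Finset V) ≠ {α, β', p} := by
      intro h5
      have h6 : α ∈ ({α', β', o'} : Finset V) := by rw [h5]; simp
      simp only [mem_insert, mem_singleton] at h6
      rcases h6 with h6 | h6 | h6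
      · exact hαα h6
      · exact nαβ α hα β' hβ' h6
      · exact ho'Q (h6 ▸ mem_union_left _ hα)
    have hβk : β ∈ X {α, β', p} := by
      rcases hmeet hk ho hi hik with h5 | h5
      · exact absurd h5 (disjoint_left.mp hdk (by simp))
      · exact h5
    have hα'k : α' ∈ X {α, β', p} := by
      rcases hmeet hk ho' hi' hi'k with h5 | h5
      · exact h5
      · exact absurd h5 (disjoint_left.mp hdk (by simp))
    have hXk : X {α, β', p} = {α', β} := by
      refine (eq_of_subset_of_card_le ?_ ?_).symm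
      · intro v hv
        simp only [mem_insert, mem_singleton] at hv
        rcases hv with rfl | rfl <;> assumption
      · rw [h.two _ hk, card_pair (nαβ α' hα' β hβ)]
    have he1k : e₁ ≠ {α, β', p} := by
      intro h5
      exact hαe α hα (by rw [h5]; simp)
    have he2k : e₂ ≠ {α, β', p} := by
      intro h5
      exact hβe β' hβ' (by rw [h5]; simp)
    have hβ1 : β ∈ e₁ := by
      obtain ⟨v, hv⟩ := h.hit _ hk e₁ h1 he1k
      obtain ⟨hv1, hv2⟩ := mem_inter.mp hv
      rw [hXk] at hv2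
      simp only [mem_insert, mem_singleton] at hv2
      rcases hv2 with rfl | rfl
      · exact absurd hv1 (hαe _ hα')
      · exact hv1
    have hα'2 : α' ∈ e₂ := by
      obtain ⟨v, hv⟩ := h.hit _ hk e₂ h2 he2k
      obtain ⟨hv1, hv2⟩ := mem_inter.mp hv
      rw [hXk] at hv2
      simp only [mem_insert, mem_singleton] at hv2
      rcases hv2 with rfl | rfl
      · exact hv1
      · exact absurd hv1 (hβe _ hβ)
    refine ⟨hβ1, hα'2, ?_⟩
    -- `X i` contains `β'`
    have hdi := h.dis _ hi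
    have hβ'i : β' ∈ X {α, β, o} := by
      rcases hmeet hi hp hk hik.symm with h5 | h5
      · exact absurd h5 (disjoint_left.mp hdi (by simp))
      · exact h5
    obtain ⟨w, hw⟩ : ∃ w, w ∈ (X {α, β, o}).erase β' := by
      refine card_pos.mp ?_
      rw [card_erase_of_mem hβ'i, h.two _ hi]
      norm_num
    obtain ⟨hwβ, hwi⟩ := mem_erase.mp hw
    have hXi : X {α, β, o} = {β', w} := by
      refine (eq_of_subset_of_card_le ?_ ?_).symm
      · intro v hv
        simp only [mem_insert, mem_singleton] at hv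
        rcases hv with rfl | rfl <;> assumption
      · rw [h.two _ hi, card_pair hwβ.symm]
    have he1i : e₁ ≠ {α, β, o} := by
      intro h5
      exact hαe α hα (by rw [h5]; simp)
    have he2i : e₂ ≠ {α, β, o} := by
      intro h5
      exact hβe β hβ (by rw [h5]; simp)
    have hw2 : w ∈ e₂ := by
      obtain ⟨v, hv⟩ := h.hit _ hi e₂ h2 he2i
      obtain ⟨hv1, hv2⟩ := mem_inter.mp hv
      rw [hXi] at hv2
      simp only [mem_insert, mem_singleton] at hv2
      rcases hv2 with rfl | rfl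
      · exact absurd hv1 (hβe _ hβ')
      · exact hv1
    have hOc := card_union_add_card_inter (e₁ \ Q) (e₂ \ Q)
    rw [← hO] at hOc
    obtain ⟨v, hv⟩ := h.hit _ hi e₁ h1 he1i
    obtain ⟨hv1, hv2⟩ := mem_inter.mp hv
    rw [hXi] at hv2
    simp only [mem_insert, mem_singleton] at hv2
    rcases hv2 with rfl | rfl
    · -- both points of `X e₂` are in `e₁`
      have h5 : ({β, v} : Finset V) ⊆ e₁ ∩ Q := by
        intro u hu
        simp only [mem_insert, mem_singleton] at hu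
        rcases hu with rfl | rfl
        · exact mem_inter.mpr ⟨hβ1, mem_union_right _ hβ⟩
        · exact mem_inter.mpr ⟨hv1, mem_union_right _ hβ'⟩
      have h6 := card_le_card h5
      rw [card_pair hββ] at h6
      have h7 := card_sdiff_add_card_inter e₁ Q
      have h8 := h.rank e₁ h1
      omega
    · have h5 : v ∉ Q := by
        intro h6
        rcases mem_union.mp h6 with h7 | h7
        · exact hαe v h7 hv1
        · exact hβe v h7 hw2
      have h6 : 0 < ((e₁ \ Q) ∩ (e₂ \ Q)).card :=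
        card_pos.mpr ⟨v, mem_inter.mpr ⟨mem_sdiff.mpr ⟨hv1, h5⟩, mem_sdiff.mpr ⟨hw2, h5⟩⟩⟩
      omega
  -- the number of points
  have htot : F.biUnion id ⊆ Q ∪ (O ∪ N) := by
    intro v hv
    by_cases hvQ : v ∈ Q
    · exact mem_union_left _ hvQ
    by_cases hvO : v ∈ O
    · exact mem_union_right _ (mem_union_left _ hvO)
    · exact mem_union_right _ (mem_union_right _ (mem_sdiff.mpr ⟨mem_sdiff.mpr ⟨hv, hvQ⟩, hvO⟩))
  have ht1 := (card_le_card htot).trans (card_union_le _ _)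
  have ht2 := card_union_le O N
  have hOc : O.card ≤ (e₁ \ Q).card + (e₂ \ Q).card := card_union_le _ _
  -- the four groups
  have ha : a ∈ X e₁ := by rw [hX1]; simp
  have hb : b ∈ X e₁ := by rw [hX1]; simp
  have hc : c ∈ X e₂ := by rw [hX2]; simp
  have hd : d ∈ X e₂ := by rw [hX2]; simp
  set g : V → V → Finset V := fun α β => N.filter fun o => ({α, β, o} : Finset V) ∈ F with hg
  have hg1 : ∀ α ∈ X e₁, ∀ β ∈ X e₂, (g α β).card ≤ 1 := by
    intro α hα β hβ
    refine card_le_one.mpr fun o ho o' ho' => ?_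
    obtain ⟨p1, p2⟩ := mem_filter.mp ho
    obtain ⟨p3, p4⟩ := mem_filter.mp ho'
    exact huniq p3 p1 p4 p2 hα hβ
  have hNsub : N ⊆ (g a c ∪ g b d) ∪ (g a d ∪ g b c) := by
    intro o ho
    obtain ⟨α, hα, β, hβ, hf⟩ := hform o ho
    rw [hX1] at hα
    rw [hX2] at hβ
    simp only [mem_insert, mem_singleton] at hα hβ
    have h5 : o ∈ g α β := mem_filter.mpr ⟨ho, hf⟩
    simp only [mem_union]
    rcases hα with rfl | rfl <;> rcases hβ with rfl | rfl
    · exact Or.inl (Or.inl h5)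
    · exact Or.inr (Or.inl h5)
    · exact Or.inr (Or.inr h5)
    · exact Or.inl (Or.inr h5)
  have hN1 := (card_le_card hNsub).trans (card_union_le _ _)
  have hN2 := card_union_le (g a c) (g b d)
  have hN3 := card_union_le (g a d) (g b c)
  have gac := hg1 a ha c hc
  have gbd := hg1 b hb d hd
  have gad := hg1 a ha d hd
  have gbc := hg1 b hb c hc
  have hex : ∀ {α β : V}, (g α β).card ≠ 0 → ∃ o ∈ N, ({α, β, o} : Finset V) ∈ F := by
    intro α β hne
    obtain ⟨o, ho⟩ := card_pos.mp (Nat.pos_of_ne_zero hne)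
    obtain ⟨p1, p2⟩ := mem_filter.mp ho
    exact ⟨o, p1, p2⟩
  have D1 : (g a c).card ≠ 0 → (g b d).card ≠ 0 → (g a d).card ≠ 0 →
      c ∈ e₁ ∧ b ∈ e₂ ∧ O.card ≤ 3 := by
    intro z1 z2 z3
    obtain ⟨o, ho, hfo⟩ := hex z1
    obtain ⟨o', ho', hfo'⟩ := hex z2
    obtain ⟨p, hp, hfp⟩ := hex z3
    exact hdiag ha hb hab hc hd hcd ho ho' hp hfo hfo' hfp
  have D2 : (g a c).card ≠ 0 → (g b d).card ≠ 0 → (g b c).card ≠ 0 →
      d ∈ e₁ ∧ a ∈ e₂ ∧ O.card ≤ 3 := by
    intro z1 z2 z3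
    obtain ⟨o, ho, hfo⟩ := hex z1
    obtain ⟨o', ho', hfo'⟩ := hex z2
    obtain ⟨p, hp, hfp⟩ := hex z3
    exact hdiag hb ha hab.symm hd hc hcd.symm ho' ho hp hfo' hfo hfp
  have D3 : (g a c).card ≠ 0 → (g a d).card ≠ 0 → (g b c).card ≠ 0 → O.card ≤ 3 := by
    intro z1 z2 z3
    obtain ⟨o, ho, hfo⟩ := hex z1
    obtain ⟨o', ho', hfo'⟩ := hex z2
    obtain ⟨p, hp, hfp⟩ := hex z3
    exact (hdiag ha hb hab hd hc hcd.symm ho' hp ho hfo' hfp hfo).2.2
  have D4 : (g b d).card ≠ 0 → (g a d).card ≠ 0 → (g b c).card ≠ 0 → O.card ≤ 3 := by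
    intro z1 z2 z3
    obtain ⟨o, ho, hfo⟩ := hex z1
    obtain ⟨o', ho', hfo'⟩ := hex z2
    obtain ⟨p, hp, hfp⟩ := hex z3
    exact (hdiag hb ha hab.symm hc hd hcd hp ho' ho hfp hfo' hfo).2.2
  by_cases z1 : (g a c).card = 0
  · by_cases z2 : (g b d).card = 0
    · omega
    · by_cases z3 : (g a d).card = 0
      · omega
      · by_cases z4 : (g b c).card = 0
        · omega
        · have := D4 z2 z3 z4
          omega
  · by_cases z2 : (g b d).card = 0
    · by_cases z3 : (g a d).card = 0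
      · omega
      · by_cases z4 : (g b c).card = 0
        · omega
        · have := D3 z1 z3 z4
          omega
    · by_cases z3 : (g a d).card = 0
      · by_cases z4 : (g b c).card = 0
        · omega
        · have := (D2 z1 z2 z4).2.2
          omega
      · by_cases z4 : (g b c).card = 0
        · have := (D1 z1 z2 z3).2.2
          omega
        · obtain ⟨c1, b2, -⟩ := D1 z1 z2 z3
          obtain ⟨d1, a2, -⟩ := D2 z1 z2 z4
          have h5 : ({c, d} : Finset V) ⊆ e₁ ∩ Q := by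
            intro u hu
            simp only [mem_insert, mem_singleton] at hu
            rcases hu with rfl | rfl
            · exact mem_inter.mpr ⟨c1, mem_union_right _ hc⟩
            · exact mem_inter.mpr ⟨d1, mem_union_right _ hd⟩
          have h6 : ({a, b} : Finset V) ⊆ e₂ ∩ Q := by
            intro u hu
            simp only [mem_insert, mem_singleton] at hu
            rcases hu with rfl | rfl
            · exact mem_inter.mpr ⟨a2, mem_union_left _ ha⟩
            · exact mem_inter.mpr ⟨b2, mem_union_left _ hb⟩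
          have h7 := card_le_card h5
          have h8 := card_le_card h6
          rw [card_pair hcd] at h7
          rw [card_pair hab] at h8
          have h9 := card_sdiff_add_card_inter e₁ Q
          have h10 := card_sdiff_add_card_inter e₂ Q
          have h11 := h.rank e₁ h1
          have h12 := h.rank e₂ h2
          omega

/-- a critical family with transversal number three has at most ten points -/
theorem Crit3.ten (h : Crit3 F X) (h0 : ∀ e ∈ F, e.Nonempty) : (F.biUnion id).card ≤ 10 := by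
  by_cases hA : ∃ e₁ ∈ F, ∃ e₂ ∈ F, Disjoint (X e₁) (X e₂)
  · obtain ⟨e₁, h1, e₂, h2, h12⟩ := hA
    by_cases hB : ∃ e₃ ∈ F, Disjoint (X e₁) (X e₃) ∧ Disjoint (X e₂) (X e₃)
    · obtain ⟨e₃, h3, h13, h23⟩ := hB
      exact h.ten_A h1 h2 h3 h12 h13 h23
    · refine h.ten_B h1 h2 h12 fun f hf => ?_
      by_contra hcon
      refine hB ⟨f, hf, ?_, ?_⟩
      · rw [disjoint_left]
        intro v hv hv'
        exact hcon ⟨v, mem_inter.mpr ⟨hv', mem_union_left _ hv⟩⟩
      · rw [disjoint_left]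
        intro v hv hv'
        exact hcon ⟨v, mem_inter.mpr ⟨hv', mem_union_right _ hv⟩⟩
  · refine h.ten_C h0 fun e he f hf hd => hA ⟨e, he, f, hf, hd⟩

/-- **transversal number at least `3`, members of size at most `3`: a front of at most `10`
points** -/
theorem front_hyp_three (F : Finset (Finset V)) (h3 : ∀ e ∈ F, e.card ≤ 3)
    (h2 : ∀ X : Finset V, Trv F X → 3 ≤ X.card) :
    ∃ P : Finset V, (∀ v ∈ P, ∃ e ∈ F, v ∈ e) ∧ P.card ≤ 10 ∧
      ∀ X : Finset V, Trv F X → 3 ≤ (X ∩ P).card := by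
  by_cases h0 : ∃ e ∈ F, e = ∅
  · obtain ⟨e, he, rfl⟩ := h0
    refine ⟨∅, by simp, by simp, fun X hX => ?_⟩
    have := hX ∅ he
    rw [empty_inter] at this
    exact absurd this Finset.not_nonempty_empty
  · push Not at h0
    obtain ⟨F', hsub, X, hX⟩ := crit_three F h3 h2 (fun e he => h0 e he)
    refine ⟨F'.biUnion id, fun v hv => ?_, hX.ten (fun e he => h0 e (hsub he)), fun Y hY => ?_⟩
    · rw [mem_biUnion] at hv
      obtain ⟨e, he, hve⟩ := hv
      exact ⟨e, hsub he, hve⟩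
    · refine hX.tau _ fun e he => ?_
      obtain ⟨v, hv⟩ := hY e (hsub he)
      obtain ⟨hv1, hv2⟩ := mem_inter.mp hv
      exact ⟨v, mem_inter.mpr ⟨hv1, mem_inter.mpr ⟨hv2, mem_biUnion.mpr ⟨e, he, hv1⟩⟩⟩⟩

end Tau

section Blk3

variable {V : Type*} {G : SimpleGraph V}

/-- **at most ten points outside `W`, three of them seen by every point of `C`** (rank three) -/
theorem Blkn.three {C U : Finset V} {k : ℕ} (h : Blkn G 3 C U k) {W : Finset V}
    (hW : W.card + 3 ≤ k) :
    ∃ P ⊆ U \ W, P.card ≤ 10 ∧ ∀ c ∈ C, 3 ≤ dg G P c := by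
  obtain ⟨P, hP1, hP2, hP3⟩ := Tau.front_hyp_three ((BFn G 3 C U).filter fun e => Disjoint e W)
    (fun e he => (mem_BFn.1 (mem_filter.1 he).1).2.1)
    (fun X hX => by
      have := h.rest hX
      omega)
  refine ⟨P, fun v hv => ?_, hP2, fun c hc => ?_⟩
  · obtain ⟨e, he, hve⟩ := hP1 v hv
    obtain ⟨h1, h2⟩ := mem_filter.1 he
    exact mem_sdiff.2 ⟨(mem_BFn.1 h1).1 hve, disjoint_left.1 h2 hve⟩
  · refine (hP3 (U.filter fun v => G.Adj c v) fun e he => ?_).trans (card_le_card fun v hv => ?_)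
    · obtain ⟨h3, -, -, h6⟩ := mem_BFn.1 (mem_filter.1 he).1
      obtain ⟨v, hv, hcv⟩ := h6 c hc
      exact ⟨v, mem_inter.2 ⟨hv, mem_filter.2 ⟨h3 hv, hcv⟩⟩⟩
    · obtain ⟨h1, h2⟩ := mem_inter.1 hv
      exact mem_filter.2 ⟨h2, (mem_filter.1 h1).2⟩

theorem Blk.three {C U : Finset V} {k : ℕ} (h : Blk G C U k) {W : Finset V}
    (hW : W.card + 3 ≤ k) :
    ∃ P ⊆ U \ W, P.card ≤ 10 ∧ ∀ c ∈ C, 3 ≤ dg G P c :=
  Blkn.three (k := k) (fun X hX => h X hX) hW

/-- the sizes of the fronts of rank three: `0, 3, 6, 10` -/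
def sz3 (l : ℕ) : ℕ := (l + 1) * (l + 2) / 2 - (if l = 0 then 1 else 0)

lemma sz3_zero : sz3 0 = 0 := rfl

lemma sz3_one : sz3 1 = 3 := rfl

lemma sz3_two : sz3 2 = 6 := rfl

lemma sz3_three : sz3 3 = 10 := rfl

/-- for `l ≤ 3` residual loads (rank three) there are at most `sz3 l` points -/
theorem Blkn.front3 {C U : Finset V} {k l : ℕ} (h : Blkn G 3 C U k) {W : Finset V}
    (hW : W.card + l ≤ k) (hl : l ≤ 3) :
    ∃ P ⊆ U \ W, P.card ≤ sz3 l ∧ ∀ c ∈ C, l ≤ dg G P c := by
  interval_cases l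
  · exact ⟨∅, empty_subset _, by simp, fun c _ => Nat.zero_le _⟩
  · obtain ⟨e, h1, h2, -, h3⟩ := h.one (W := W) (by omega)
    exact ⟨e, h1, h2, h3⟩
  · exact h.two hW
  · exact h.three hW

theorem Blk.front3 {C U : Finset V} {k l : ℕ} (h : Blk G C U k) {W : Finset V}
    (hW : W.card + l ≤ k) (hl : l ≤ 3) :
    ∃ P ⊆ U \ W, P.card ≤ sz3 l ∧ ∀ c ∈ C, l ≤ dg G P c :=
  Blkn.front3 (k := k) (fun X hX => h X hX) hW hl

end Blk3

end Pool.Agent.Lib.MP_f04ccf_co
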