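import Pool.Agent.Lib.MP_f04ccf_co.M.CmbR
import Pool.Agent.Lib.MP_f04ccf_co.M.Tau3

/-!
MP_f04ccf_co, notes 16158, 16227 (E5): the row test of a minimal system with located kills `W` and a
residual front of `sz3 l` points, `l ≤ 3` (3, 6, 10 points), `j = 2`.
-/

set_option autoImplicit false

namespace Pool.Agent.Lib.MP_f04ccf_co

open Finset

attribute [local instance] Classical.propDecidable

section Tau3R

variable {V : Type*} {G : SimpleGraph V} {Z T : Finset V} {hm : V → V} {r m t : ℕ}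

lemma le_sz3 {l : ℕ} (hl : l ≤ 3) : l ≤ sz3 l := by
  interval_cases l
  · exact Nat.zero_le _
  · rw [sz3_one]
    norm_num
  · rw [sz3_two]
    norm_num
  · rw [sz3_three]
    norm_num

/-- **(D3H) in a minimal system, `l ≤ 3` residual loads**: fronts of `0, 3, 6, 10` points -/
theorem MQSys.d3h3 (hF : PFrame G r m t Z T) (hP : PG G r) {A S : Finset V}
    (h : MQSys r (JSys G Z T 2) A S) (hh : ∀ v ∈ S, hm v ∈ A ∧ hm v ∈ rws G T v) {y : V}
    (hy : y ∈ A) {W : Finset V} (hW : Disjoint (S.filter fun v => hm v = y) W) {l : ℕ}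
    (hl : l ≤ 3) (hWl : (S.filter fun v => hm v = y).card + W.card + l ≤ r + 1) :
    ∃ W' ⊆ S.filter fun v => hm v ≠ y ∧ v ∉ A, Disjoint W W' ∧ W'.card ≤ sz3 l ∧
      (∀ c ∈ S, c ∈ Cl G Z T y → l ≤ dg G W' c) ∧
      2 * ((r : ℤ) - 1) * (((S.filter fun v => hm v = y).card : ℤ) - r)
        + 2 * ∑ c ∈ S.filter fun v => v ∈ Cl G Z T y, (dg G W c : ℤ)
        + 2 * l * (S.filter fun v => v ∈ Cl G Z T y).card
        + 2 * ∑ v ∈ W ∪ W', (dg G (HP G Z T (fun x => S.filter fun v => hm v = x) y) v : ℤ)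
        ≤ NE G (S.filter fun v => hm v = y) + NE G (W ∪ W')
          + 2 * ((W.card : ℤ) + W'.card)
            * (((S.filter fun v => hm v = y).card : ℤ) - r + 1) := by
  obtain ⟨P, h1, h2, h3⟩ := (h.blkn hF hh hy).front3 (W := W) (l := l) (by omega) hl
  have h4 : P ⊆ S.filter fun v => hm v ≠ y ∧ v ∉ A := h1.trans sdiff_subset
  have h5 : Disjoint W P := by
    rw [disjoint_left]
    intro v hv hv'
    exact (mem_sdiff.1 (h1 hv')).2 hv
  have h6 : Disjoint (S.filter fun v => hm v = y) P := by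
    rw [disjoint_left]
    intro v hv hv'
    exact (mem_filter.1 (h4 hv')).2.1 (mem_filter.1 hv).2
  have hH := h.q.hsys hF le_rfl
  have hcp := hH.CP_eq hh hy
  have h7 := (hH.csys hF hh).d3h hF hP hy (W := W) (W' := P) (l := l) hW h6 h5 (by
    rw [hcp]
    exact h3)
  rw [hcp] at h7
  exact ⟨P, h4, h5, h2, fun c hc hcC => h3 c (mem_filter.2 ⟨hc, hcC⟩), h7⟩

/-- **located kills and residual front, `l ≤ 3`, `j = 2`**: `q = sz3 l - l = 0, 2, 4, 7` -/
theorem MQSys.row_loc3 (hF : PFrame G r m t Z T) (hP : PG G r) {A S : Finset V}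
    (h : MQSys r (JSys G Z T 2) A S) (hh : ∀ v ∈ S, hm v ∈ A ∧ hm v ∈ rws G T v) {y : V}
    (hy : y ∈ A) {W : Finset V} (hW : Disjoint (S.filter fun v => hm v = y) W) {l : ℕ}
    (hl : l ≤ 3) (hWl : (S.filter fun v => hm v = y).card + W.card + l = r + 1) :
    2 * ∑ c ∈ S.filter fun v => v ∈ Cl G Z T y, (dg G W c : ℤ)
      + 2 * ∑ v ∈ W, (dg G (HP G Z T (fun x => S.filter fun v => hm v = x) y) v : ℤ)
      + (2 * ((r : ℤ) - 1) - 2 * ((W.card : ℤ) + l)
          * ((r : ℤ) - 1 - (S.filter fun v => v ∈ Cl G Z T y).card)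
        - NE G (S.filter fun v => hm v = y)
        - ((W.card : ℤ) + l) * (3 - ((W.card : ℤ) + l))
        - (sz3 l - l) * ((sz3 l - l) + 3))
      ≤ 2 * (W.card : ℤ) * (S.filter fun v => v ∈ Cl G Z T y).card := by
  obtain ⟨W', h1, h2, h3, h4, -⟩ := h.d3h3 hF hP hh hy hW hl (by omega)
  have h6 : Disjoint (S.filter fun v => hm v = y) W' := by
    rw [disjoint_left]
    intro v hv hv'
    exact (mem_filter.1 (h1 hv')).2.1 (mem_filter.1 hv).2
  have hH : HSys G Z T A S := h.q.hsys hF le_rfl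
  have hcp := hH.CP_eq hh hy
  have h7 : l ≤ W'.card :=
    (h4 y (hH.ctr hy) (hF.self_mem_Cl (hH.sub hy))).trans (card_filter_le _ _)
  have h10 := le_sz3 hl
  have h8 := (hH.csys hF hh).row_loc hF hP hy (W := W) (W' := W') (l := l)
    (q := sz3 l - l) hW h6 h2 (by
      rw [hcp]
      exact fun c hc => h4 c (mem_filter.1 hc).1 (mem_filter.1 hc).2) h7 (by omega) hWl
  rw [hcp] at h8
  have h9 : ∑ v ∈ W, (dg G (HP G Z T (fun x => S.filter fun v => hm v = x) y) v : ℤ)
      ≤ ∑ v ∈ W ∪ W', (dg G (HP G Z T (fun x => S.filter fun v => hm v = x) y) v : ℤ) :=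
    sum_le_sum_of_subset_of_nonneg subset_union_left fun v _ _ => by positivity
  rw [Nat.cast_sub h10] at h8
  linarith

/-- the spare row without located kills: `|S y| + l = r + 1`, `l ≤ 3` -/
theorem MQSys.row_small3 (hF : PFrame G r m t Z T) (hP : PG G r) {A S : Finset V}
    (h : MQSys r (JSys G Z T 2) A S) (hh : ∀ v ∈ S, hm v ∈ A ∧ hm v ∈ rws G T v) {y : V}
    (hy : y ∈ A) {l : ℕ} (hl : l ≤ 3) (hWl : (S.filter fun v => hm v = y).card + l = r + 1) :
    2 * ((r : ℤ) - 1) ≤ 2 * (l : ℤ) * ((r : ℤ) - 1 - (S.filter fun v => v ∈ Cl G Z T y).card)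
        + NE G (S.filter fun v => hm v = y) + (l : ℤ) * (3 - l)
        + (sz3 l - l) * ((sz3 l - l) + 3) := by
  have h1 := h.row_loc3 hF hP hh hy (W := ∅) (disjoint_empty_right _) hl (by
    rw [card_empty]
    omega)
  have h2 : ∀ c : V, dg G ∅ c = 0 := fun c => by simp [dg]
  simp only [h2, card_empty, Nat.cast_zero, sum_const_zero, sum_empty, mul_zero, zero_mul,
    zero_add] at h1
  linarith

end Tau3R

end Pool.Agent.Lib.MP_f04ccf_co
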