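import Pool.Agent.Lib.MP_f04ccf_co.M.CmbR
import Pool.Agent.Lib.MP_f04ccf_co.M.Tau3

/-!
MP_f04ccf_co, note 16304 (F4): fronts for every number `l` of residual loads (rank three).

* `Tau.Frn t f`: every family of sets of at most three points with transversal number at least `t`
  has a front of at most `f` points (met in at least `t` points by every transversal).
* `Tau.Frn.step`: `Frn t f` implies `Frn (t + 1) (3 + 3 * f)`.
* `szg l = 0, 3, 6, 10, 33, 102, ..`, `Tau.frn_szg`, `Blkn.frontg`, `Blk.frontg` (every `l`).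
* `MQSys.d3hg`, `MQSys.row_locg`, `MQSys.row_smallg`: the row test for every `l` (`j = 2`).
-/

set_option autoImplicit false

namespace Pool.Agent.Lib.MP_f04ccf_co

open Finset

attribute [local instance] Classical.propDecidable

namespace Tau

variable (V : Type*)

/-- every family of rank three with transversal number at least `t` has a front of `f` points -/
def Frn (t f : ℕ) : Prop :=
  ∀ F : Finset (Finset V), (∀ e ∈ F, e.card ≤ 3) → (∀ X : Finset V, Trv F X → t ≤ X.card) →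
    ∃ P : Finset V, (∀ v ∈ P, ∃ e ∈ F, v ∈ e) ∧ P.card ≤ f ∧
      ∀ X : Finset V, Trv F X → t ≤ (X ∩ P).card

variable {V}

/-- **the recursion of the fronts** -/
theorem Frn.step {t f : ℕ} (h : Frn V t f) : Frn V (t + 1) (3 + 3 * f) := by
  intro F h3 h2
  have hne : F.Nonempty := by
    rw [nonempty_iff_ne_empty]
    rintro rfl
    have := h2 ∅ (fun e he => absurd he (notMem_empty e))
    rw [card_empty] at this
    omega
  obtain ⟨e, he⟩ := hne
  have hv : ∀ v ∈ e, ∃ P : Finset V, (∀ u ∈ P, ∃ e' ∈ F, u ∈ e') ∧ P.card ≤ f ∧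
      ∀ X : Finset V, Trv (F.filter fun g => v ∉ g) X → t ≤ (X ∩ P).card := by
    intro v _
    obtain ⟨P, h4, h5, h6⟩ := h (F.filter fun g => v ∉ g) (fun g hg => h3 g (mem_filter.1 hg).1)
      (fun X hX => by
        have h7 : Trv F (insert v X) := by
          intro g hg
          by_cases hvg : v ∈ g
          · exact ⟨v, mem_inter.2 ⟨hvg, mem_insert_self _ _⟩⟩
          · obtain ⟨u, hu⟩ := hX g (mem_filter.2 ⟨hg, hvg⟩)
            obtain ⟨h8, h9⟩ := mem_inter.1 hu
            exact ⟨u, mem_inter.2 ⟨h8, mem_insert_of_mem h9⟩⟩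
        have h8 := h2 _ h7
        have h9 := card_insert_le v X
        omega)
    exact ⟨P, fun u hu => by
      obtain ⟨g, hg, hug⟩ := h4 u hu
      exact ⟨g, (mem_filter.1 hg).1, hug⟩, h5, h6⟩
  choose! P hP1 hP2 hP3 using hv
  refine ⟨e ∪ e.biUnion P, fun v hv => ?_, ?_, fun X hX => ?_⟩
  · rcases mem_union.1 hv with h4 | h4
    · exact ⟨e, he, h4⟩
    · obtain ⟨u, hu, hvu⟩ := mem_biUnion.1 h4
      exact hP1 u hu v hvu
  · have h4 := card_union_le e (e.biUnion P)
    have h5 : (e.biUnion P).card ≤ e.card * f := card_biUnion_le_card_mul _ _ _ hP2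
    have h6 := h3 e he
    have h7 : e.card * f ≤ 3 * f := Nat.mul_le_mul_right f h6
    omega
  · obtain ⟨v, hv⟩ := hX e he
    obtain ⟨hve, hvX⟩ := mem_inter.1 hv
    have h4 : Trv (F.filter fun g => v ∉ g) (X.erase v) := by
      intro g hg
      obtain ⟨h5, h6⟩ := mem_filter.1 hg
      obtain ⟨u, hu⟩ := hX g h5
      obtain ⟨h7, h8⟩ := mem_inter.1 hu
      exact ⟨u, mem_inter.2 ⟨h7, mem_erase.2 ⟨fun h9 => h6 (h9 ▸ h7), h8⟩⟩⟩
    have h5 := hP3 v hve _ h4
    have h6 : insert v (X.erase v ∩ P v) ⊆ X ∩ (e ∪ e.biUnion P) := by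
      intro u hu
      rcases mem_insert.1 hu with rfl | hu
      · exact mem_inter.2 ⟨hvX, mem_union_left _ hve⟩
      · obtain ⟨h7, h8⟩ := mem_inter.1 hu
        exact mem_inter.2 ⟨(mem_erase.1 h7).2,
          mem_union_right _ (mem_biUnion.2 ⟨v, hve, h8⟩)⟩
    have h7 := card_le_card h6
    rw [card_insert_of_notMem fun h8 => (mem_erase.1 (mem_inter.1 h8).1).1 rfl] at h7
    omega

/-- the sizes of the fronts: `0, 3, 6, 10, 33, 102, ..` -/
def szg : ℕ → ℕ
  | 0 => 0
  | 1 => 3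
  | 2 => 6
  | 3 => 10
  | (l + 1) => 3 + 3 * szg l

theorem frn_zero : Frn V 0 0 := fun F _ _ =>
  ⟨∅, by simp, by simp, fun X _ => Nat.zero_le _⟩

theorem frn_one : Frn V 1 3 := fun F h3 h2 => by
  have hne : F.Nonempty := by
    rw [nonempty_iff_ne_empty]
    rintro rfl
    have := h2 ∅ (fun e he => absurd he (notMem_empty e))
    rw [card_empty] at this
    omega
  obtain ⟨e, he⟩ := hne
  refine ⟨e, fun v hv => ⟨e, he, hv⟩, h3 e he, fun X hX => ?_⟩
  rw [inter_comm]
  exact card_pos.2 (hX e he)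

theorem frn_two : Frn V 2 6 := fun F h3 h2 => by
  obtain ⟨P, h4, h5, h6⟩ := front_hyp_two_gen F h3 h2
  exact ⟨P, h4, by omega, h6⟩

theorem frn_three : Frn V 3 10 := fun F h3 h2 => front_hyp_three F h3 h2

lemma szg_succ {l : ℕ} (hl : 3 ≤ l) : szg (l + 1) = 3 + 3 * szg l := by
  obtain ⟨k, rfl⟩ := Nat.exists_eq_add_of_le hl
  rw [Nat.add_comm 3 k]
  rfl

lemma szg_four : szg 4 = 33 := rfl

/-- **a front of `szg t` points for every `t`** -/
theorem frn_szg (t : ℕ) : Frn V t (szg t) := by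
  rcases Nat.lt_or_ge t 3 with h | h
  · interval_cases t
    · exact frn_zero
    · exact frn_one
    · exact frn_two
  · induction t, h using Nat.le_induction with
    | base => exact frn_three
    | succ l hl ih =>
      rw [szg_succ hl]
      exact ih.step

lemma le_szg (l : ℕ) : l ≤ szg l := by
  rcases Nat.lt_or_ge l 3 with h | h
  · interval_cases l <;> decide
  · induction l, h using Nat.le_induction with
    | base => decide
    | succ k hk ih =>
      rw [szg_succ hk]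
      omega

end Tau

section Blkg

variable {V : Type*} {G : SimpleGraph V} {Z T : Finset V} {hm : V → V} {r m t : ℕ}

/-- **a front outside `W` for every number `l` of residual loads** (rank three) -/
theorem Blkn.frontg {C U : Finset V} {k l : ℕ} (h : Blkn G 3 C U k) {W : Finset V}
    (hW : W.card + l ≤ k) :
    ∃ P ⊆ U \ W, P.card ≤ Tau.szg l ∧ ∀ c ∈ C, l ≤ dg G P c := by
  obtain ⟨P, hP1, hP2, hP3⟩ := Tau.frn_szg l ((BFn G 3 C U).filter fun e => Disjoint e W)
    (fun e he => (mem_BFn.1 (mem_filter.1 he).1).2.1)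
    (fun X hX => by
      have := h.rest hX
      omega)
  refine ⟨P, fun v hv => ?_, hP2, fun c hc => ?_⟩
  · obtain ⟨e, he, hve⟩ := hP1 v hv
    obtain ⟨h1, h2⟩ := mem_filter.1 he
    exact mem_sdiff.2 ⟨(mem_BFn.1 h1).1 hve, disjoint_left.1 h2 hve⟩
  · refine (hP3 (U.filter fun v => G.Adj c v) fun e he => ?_).trans (card_le_card fun v hv => ?_)
    · obtain ⟨h3, -, -, h6⟩ := mem_BFn.1 (mem_filter.1 he).1
      obtain ⟨v, hv, hcv⟩ := h6 c hc
      exact ⟨v, mem_inter.2 ⟨hv, mem_filter.2 ⟨h3 hv, hcv⟩⟩⟩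
    · obtain ⟨h1, h2⟩ := mem_inter.1 hv
      exact mem_filter.2 ⟨h2, (mem_filter.1 h1).2⟩

theorem Blk.frontg {C U : Finset V} {k l : ℕ} (h : Blk G C U k) {W : Finset V}
    (hW : W.card + l ≤ k) :
    ∃ P ⊆ U \ W, P.card ≤ Tau.szg l ∧ ∀ c ∈ C, l ≤ dg G P c :=
  Blkn.frontg (k := k) (fun X hX => h X hX) hW

/-- **(D3H) in a minimal system, every `l`**: fronts of `0, 3, 6, 10, 33, ..` points -/
theorem MQSys.d3hg (hF : PFrame G r m t Z T) (hP : PG G r) {A S : Finset V}
    (h : MQSys r (JSys G Z T 2) A S) (hh : ∀ v ∈ S, hm v ∈ A ∧ hm v ∈ rws G T v) {y : V}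
    (hy : y ∈ A) {W : Finset V} (hW : Disjoint (S.filter fun v => hm v = y) W) {l : ℕ}
    (hWl : (S.filter fun v => hm v = y).card + W.card + l ≤ r + 1) :
    ∃ W' ⊆ S.filter fun v => hm v ≠ y ∧ v ∉ A, Disjoint W W' ∧ W'.card ≤ Tau.szg l ∧
      (∀ c ∈ S, c ∈ Cl G Z T y → l ≤ dg G W' c) ∧
      2 * ((r : ℤ) - 1) * (((S.filter fun v => hm v = y).card : ℤ) - r)
        + 2 * ∑ c ∈ S.filter fun v => v ∈ Cl G Z T y, (dg G W c : ℤ)
        + 2 * l * (S.filter fun v => v ∈ Cl G Z T y).card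
        + 2 * ∑ v ∈ W ∪ W', (dg G (HP G Z T (fun x => S.filter fun v => hm v = x) y) v : ℤ)
        ≤ NE G (S.filter fun v => hm v = y) + NE G (W ∪ W')
          + 2 * ((W.card : ℤ) + W'.card)
            * (((S.filter fun v => hm v = y).card : ℤ) - r + 1) := by
  obtain ⟨P, h1, h2, h3⟩ := (h.blkn hF hh hy).frontg (W := W) (l := l) (by omega)
  have h4 : P ⊆ S.filter fun v => hm v ≠ y ∧ v ∉ A := h1.trans sdiff_subset
  have h5 : Disjoint W P := by
    rw [disjoint_left]
    intro v hv hv'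
    exact (mem_sdiff.1 (h1 hv')).2 hv
  have h6 : Disjoint (S.filter fun v => hm v = y) P := by
    rw [disjoint_left]
    intro v hv hv'
    exact (mem_filter.1 (h4 hv')).2.1 (mem_filter.1 hv).2
  have hH := h.q.hsys hF le_rfl
  have hcp := hH.CP_eq hh hy
  have h7 := (hH.csys hF hh).d3h hF hP hy (W := W) (W' := P) (l := l) hW h6 h5 (by
    rw [hcp]
    exact h3)
  rw [hcp] at h7
  exact ⟨P, h4, h5, h2, fun c hc hcC => h3 c (mem_filter.2 ⟨hc, hcC⟩), h7⟩

/-- **located kills and residual front for every `l`, `j = 2`**: `q = szg l - l` -/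
theorem MQSys.row_locg (hF : PFrame G r m t Z T) (hP : PG G r) {A S : Finset V}
    (h : MQSys r (JSys G Z T 2) A S) (hh : ∀ v ∈ S, hm v ∈ A ∧ hm v ∈ rws G T v) {y : V}
    (hy : y ∈ A) {W : Finset V} (hW : Disjoint (S.filter fun v => hm v = y) W) {l : ℕ}
    (hWl : (S.filter fun v => hm v = y).card + W.card + l = r + 1) :
    2 * ∑ c ∈ S.filter fun v => v ∈ Cl G Z T y, (dg G W c : ℤ)
      + 2 * ∑ v ∈ W, (dg G (HP G Z T (fun x => S.filter fun v => hm v = x) y) v : ℤ)
      + (2 * ((r : ℤ) - 1) - 2 * ((W.card : ℤ) + l)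
          * ((r : ℤ) - 1 - (S.filter fun v => v ∈ Cl G Z T y).card)
        - NE G (S.filter fun v => hm v = y)
        - ((W.card : ℤ) + l) * (3 - ((W.card : ℤ) + l))
        - (Tau.szg l - l) * ((Tau.szg l - l) + 3))
      ≤ 2 * (W.card : ℤ) * (S.filter fun v => v ∈ Cl G Z T y).card := by
  obtain ⟨W', h1, h2, h3, h4, -⟩ := h.d3hg hF hP hh hy hW (l := l) (by omega)
  have h6 : Disjoint (S.filter fun v => hm v = y) W' := by
    rw [disjoint_left]
    intro v hv hv'
    exact (mem_filter.1 (h1 hv')).2.1 (mem_filter.1 hv).2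
  have hH : HSys G Z T A S := h.q.hsys hF le_rfl
  have hcp := hH.CP_eq hh hy
  have h7 : l ≤ W'.card :=
    (h4 y (hH.ctr hy) (hF.self_mem_Cl (hH.sub hy))).trans (card_filter_le _ _)
  have h10 := Tau.le_szg l
  have h8 := (hH.csys hF hh).row_loc hF hP hy (W := W) (W' := W') (l := l)
    (q := Tau.szg l - l) hW h6 h2 (by
      rw [hcp]
      exact fun c hc => h4 c (mem_filter.1 hc).1 (mem_filter.1 hc).2) h7 (by omega) hWl
  rw [hcp] at h8
  have h9 : ∑ v ∈ W, (dg G (HP G Z T (fun x => S.filter fun v => hm v = x) y) v : ℤ)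
      ≤ ∑ v ∈ W ∪ W', (dg G (HP G Z T (fun x => S.filter fun v => hm v = x) y) v : ℤ) :=
    sum_le_sum_of_subset_of_nonneg subset_union_left fun v _ _ => by positivity
  rw [Nat.cast_sub h10] at h8
  linarith

/-- the spare row without located kills: `|S y| + l = r + 1`, every `l` -/
theorem MQSys.row_smallg (hF : PFrame G r m t Z T) (hP : PG G r) {A S : Finset V}
    (h : MQSys r (JSys G Z T 2) A S) (hh : ∀ v ∈ S, hm v ∈ A ∧ hm v ∈ rws G T v) {y : V}
    (hy : y ∈ A) {l : ℕ} (hWl : (S.filter fun v => hm v = y).card + l = r + 1) :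
    2 * ((r : ℤ) - 1) ≤ 2 * (l : ℤ) * ((r : ℤ) - 1 - (S.filter fun v => v ∈ Cl G Z T y).card)
        + NE G (S.filter fun v => hm v = y) + (l : ℤ) * (3 - l)
        + (Tau.szg l - l) * ((Tau.szg l - l) + 3) := by
  have h1 := h.row_locg hF hP hh hy (W := ∅) (disjoint_empty_right _) (l := l) (by
    rw [card_empty]
    omega)
  have h2 : ∀ c : V, dg G ∅ c = 0 := fun c => by simp [dg]
  simp only [h2, card_empty, Nat.cast_zero, sum_const_zero, sum_empty, mul_zero, zero_mul,
    zero_add] at h1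
  linarith

end Blkg

end Pool.Agent.Lib.MP_f04ccf_co
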