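import Pool.Agent.Lib.MP_f04ccf_co.M.ArcK
import Pool.Agent.Lib.MP_f04ccf_co.M.EnuK

/-!
MP_f04ccf_co, TEXT D, middle range: **the tables of a box in the kernel, with the rectangle** (note 19308): the
ingredients, for a later run (the middle range is stopped, note 19479).

Row `A`, a box of states (`D = d + n` in `D0 .. D1`, block pairs `P0 .. P1`, at most `pm` in a cell, at most `PK` PC
pairs of the row with one tail, `jn` plain hosted items of value one, served PC pairs of a cell at most `q`).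

* `Qd`, `Kern.quad`: a corner of the rectangle inequality (`RecJ`, `RecB`) as an affine function of the size `C`;
  `Kern.formP`, `formsP`: the forms; **`Kern.formL_lt`**: the corners are enough (affine in `D`, convex in `c`);
* `Kern.Blk`: a block of sizes of the other end with the rectangle numbers `E` by the number of PC pairs of the row
  with it; `Kern.runB`, **`runB_spec`**: the blocks of a row, upper ends `his`, from the table `nls` (excess by size and
  PC pairs);
* `Kern.impB`, **`impB_false`**: no half with `e` misses (or more) beside `m` PC pairs of the host with the other end;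
* `Kern.rowE`, **`rowE_spec`**: the table of one size `B` (first impossible number of misses by `m`).

Missing for the use in a leaf: the loop over the sizes `B` (limits `M1`, `M2`), the numbers `bS`, `a1`, `L2`, `Wm` of a
table and the link to `WSv` (`HalfF` from `WSv`, `TDat` from `recJ`, `recB`, `RowV.nnb`).  Measured in the tree program
(R = 24): with blocks and the three lines `kha <= a1 kh`, `khb + 2 kha <= L2 kh`, `khb + kha <= Wm kh` three per cent
more leaves than with the exact hull; without the rectangle 27 triples fail.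
-/

set_option autoImplicit false

namespace Pool.Agent.Lib.MP_f04ccf_co

open Finset

attribute [local instance] Classical.propDecidable

namespace Kern

variable {α γ β : Type}

/-- the program `Q` delivers something with the property `p` -/
def Del (Q : (α → β) → β) (p : α → Prop) : Prop := ∃ r : α, (∀ k, Q k = k r) ∧ p r

lemma Del.imp {Q : (α → β) → β} {p p' : α → Prop} (h : Del Q p) (hp : ∀ r, p r → p' r) :
    Del Q p' := by
  obtain ⟨r, h1, h2⟩ := h
  exact ⟨r, h1, hp r h2⟩

/-- a disjunction, one step -/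
noncomputable def bor (a b : Bool) : Bool := Bool.rec (motive := fun _ => Bool) b true a

lemma bor_true {a b : Bool} (h : bor a b = true) : a = true ∨ b = true := by
  cases a
  · exact Or.inr h
  · exact Or.inl rfl

/-- a list by a program -/
noncomputable def mapP (f : α → (γ → β) → β) (l : List α) : (List γ → β) → β :=
  List.rec (motive := fun _ => (List γ → β) → β) (fun k => k [])
    (fun a _ ih k => f a fun x => ih fun r => k (x :: r)) l

lemma mapP_eq {f : α → (γ → β) → β} {g : α → γ} (h : ∀ a k, f a k = k (g a)) :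
    ∀ (l : List α) (k : List γ → β), mapP f l k = k (l.map g) := by
  intro l
  induction l with
  | nil => intro k; rfl
  | cons a l ih =>
    intro k
    have e1 : mapP f (a :: l) k = f a fun x => mapP f l fun r => k (x :: r) := rfl
    rw [e1, h, ih]
    rfl

/-! ### the rectangle -/

/-- a corner of the rectangle inequality: positive and negative part, affine in the size -/
structure Qd where
  (p0 p1 n0 n1 : ℕ)

/-- its value at the size `C` and the excess `nw` -/
noncomputable def Qd.val (q : Qd) (C nw : ℕ) : ℕ :=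
  Nat.sub (Nat.add q.p0 (Nat.add (Nat.mul C q.p1) nw)) (Nat.add q.n0 (Nat.mul C q.n1))

/-- the corner -/
def quad (R A bt u v j T S D : ℕ) : Qd :=
  ⟨2 * (u * (A + v)) + (2 * v + T) + (2 * (R + 1) + (j + 1)), 2 * (D + bt),
    2 * (D * (u + 1)) + S + (2 * ((R + 1) * bt) + (u * (u + 1) + j * j)), 2 * (v + 1)⟩

/-- the corner, program -/
noncomputable def mkQ (R A bt u v j T S D : ℕ) (k : Qd → β) : β :=
  Mid.frN (Nat.add (Nat.add (Nat.mul 2 (Nat.mul u (Nat.add A v))) (Nat.add (Nat.mul 2 v) T))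
      (Nat.add (Nat.mul 2 (Nat.succ R)) (Nat.succ j))) fun p0 =>
  Mid.frN (Nat.mul 2 (Nat.add D bt)) fun p1 =>
  Mid.frN (Nat.add (Nat.add (Nat.mul 2 (Nat.mul D (Nat.succ u))) S)
      (Nat.add (Nat.mul 2 (Nat.mul (Nat.succ R) bt))
        (Nat.add (Nat.mul u (Nat.succ u)) (Nat.mul j j)))) fun n0 =>
  Mid.frN (Nat.mul 2 (Nat.succ v)) fun n1 => k ⟨p0, p1, n0, n1⟩

lemma mkQ_eq (R A bt u v j T S D : ℕ) (k : Qd → β) :
    mkQ R A bt u v j T S D k = k (quad R A bt u v j T S D) := by
  unfold mkQ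
  rw [Mid.frN_eq, Mid.frN_eq, Mid.frN_eq, Mid.frN_eq]
  rfl

/-- the ends of an interval -/
noncomputable def dd (a b : ℕ) : List ℕ :=
  Bool.rec (motive := fun _ => List ℕ) [a, b] [a] (Nat.beq a b)

lemma dd_mem (a b : ℕ) : a ∈ dd a b ∧ b ∈ dd a b := by
  unfold dd
  rcases h : Nat.beq a b with _ | _
  · exact ⟨List.mem_cons_self, List.mem_cons_of_mem _ List.mem_cons_self⟩
  · have := Nat.eq_of_beq_eq_true h
    subst this
    exact ⟨List.mem_cons_self, List.mem_cons_self⟩

/-- the numbers of a box -/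
structure RcB where
  (D0 D1 P0 P1 pm PK jn q M1 M1l M2 : ℕ)

/-- the form `(ty, j)` at `bt` PC pairs: `ty = 0`: block pairs of the other tails out, else kept -/
noncomputable def formL (R A : ℕ) (x : RcB) (bt : ℕ) (f : ℕ × ℕ) : List (List Qd) :=
  if f.1 = 0 then [(dd x.D0 x.D1).map fun D =>
    quad R A bt (f.2 + bt) (f.2 + (f.2 + bt)) f.2 (2 * (x.pm * (A + 2 * f.2))) (2 * (x.pm * D)) D]
  else (dd (x.P0 - miN bt x.pm) x.P1).map fun c => (dd x.D0 x.D1).map fun D =>
    quad R A bt (f.2 + bt + c) (f.2 + (f.2 + bt + c)) f.2 (c * (x.pm + 1)) 0 D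

/-- the form, program -/
noncomputable def formP (R A : ℕ) (x : RcB) (bt : ℕ) (f : ℕ × ℕ) (k : List (List Qd) → β) : β :=
  Bool.rec (motive := fun _ => β)
    (Mid.frN (Nat.sub x.P0 (miN bt x.pm)) fun c0 =>
      mapP (fun c k => Mid.frN (Nat.mul c (Nat.succ x.pm)) fun T =>
        Mid.frN (Nat.add (Nat.add f.2 bt) c) fun u => Mid.frN (Nat.add f.2 u) fun v =>
          mapP (fun D k => mkQ R A bt u v f.2 T 0 D k) (dd x.D0 x.D1) k) (dd c0 x.P1) k)
    (Mid.frN (Nat.mul 2 (Nat.mul x.pm (Nat.add A (Nat.mul 2 f.2)))) fun T =>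
      Mid.frN (Nat.add f.2 bt) fun u => Mid.frN (Nat.add f.2 u) fun v =>
        mapP (fun D k => Mid.frN (Nat.mul 2 (Nat.mul x.pm D)) fun S =>
          mkQ R A bt u v f.2 T S D k) (dd x.D0 x.D1) fun l => k [l])
    (Nat.beq f.1 0)

lemma formP_eq (R A : ℕ) (x : RcB) (bt : ℕ) (f : ℕ × ℕ) (k : List (List Qd) → β) :
    formP R A x bt f k = k (formL R A x bt f) := by
  unfold formP formL
  rcases h : Nat.beq f.1 0 with _ | _
  · have h1 : f.1 ≠ 0 := fun h2 => by
      rw [h2] at h
      exact absurd h (by decide)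
    rw [if_neg h1]
    show (Mid.frN _ _ : β) = _
    rw [Mid.frN_eq]
    refine mapP_eq (fun c k => ?_) _ k
    rw [Mid.frN_eq, Mid.frN_eq, Mid.frN_eq]
    exact mapP_eq (g := fun D => quad R A bt (f.2 + bt + c) (f.2 + (f.2 + bt + c)) f.2
      (c * (x.pm + 1)) 0 D) (fun D k => mkQ_eq _ _ _ _ _ _ _ _ _ k) _ k
  · rw [if_pos (Nat.eq_of_beq_eq_true h)]
    show (Mid.frN _ _ : β) = _
    rw [Mid.frN_eq, Mid.frN_eq, Mid.frN_eq]
    rw [mapP_eq (g := fun D => quad R A bt (f.2 + bt) (f.2 + (f.2 + bt)) f.2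
      (2 * (x.pm * (A + 2 * f.2))) (2 * (x.pm * D)) D) (fun D k => by
        rw [Mid.frN_eq, mkQ_eq]
        rfl)]

/-- the list of forms -/
noncomputable def flB (x : RcB) : List (ℕ × ℕ) :=
  Bool.rec (motive := fun _ => List (ℕ × ℕ))
    (Bool.rec (motive := fun _ => List (ℕ × ℕ)) [(0, 0), (0, x.jn), (1, 0), (1, x.jn)]
      [(0, 0), (0, x.jn)] (Nat.beq x.pm 0))
    (Bool.rec (motive := fun _ => List (ℕ × ℕ)) [(0, 0), (1, 0)] [(0, 0)] (Nat.beq x.pm 0))
    (Nat.beq x.jn 0)

lemma flB_mem {x : RcB} {f : ℕ × ℕ} (h : f ∈ flB x) : f.2 = 0 ∨ f.2 = x.jn := by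
  unfold flB at h
  rcases h1 : Nat.beq x.jn 0 with _ | _ <;> rcases h2 : Nat.beq x.pm 0 with _ | _ <;>
    rw [h1, h2] at h <;> simp at h <;> rcases h with h | h | h | h <;> simp_all

/-- the forms of all numbers of PC pairs -/
noncomputable def formsL (R A : ℕ) (x : RcB) : ℕ → ℕ → List (List (List (List Qd)))
  | 0, _ => []
  | n + 1, bt => ((flB x).map fun f => formL R A x bt f) :: formsL R A x n (bt + 1)

/-- the forms, program -/
noncomputable def formsP (R A : ℕ) (x : RcB) (n : ℕ) :
    ℕ → (List (List (List (List Qd))) → β) → β :=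
  Nat.rec (motive := fun _ => ℕ → (List (List (List (List Qd))) → β) → β) (fun _ k => k [])
    (fun _ ih bt k => mapP (fun f k => formP R A x bt f k) (flB x) fun F =>
      Mid.frN (Nat.succ bt) fun bt' => ih bt' fun r => k (F :: r)) n

lemma formsP_eq (R A : ℕ) (x : RcB) : ∀ (n bt : ℕ) (k : List (List (List (List Qd))) → β),
    formsP R A x n bt k = k (formsL R A x n bt) := by
  intro n
  induction n with
  | zero => intro bt k; rfl
  | succ n ih =>
    intro bt k
    have e1 : formsP R A x (n + 1) bt k = mapP (fun f k => formP R A x bt f k) (flB x) fun F =>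
      Mid.frN (Nat.succ bt) fun bt' => formsP R A x n bt' fun r => k (F :: r) := rfl
    rw [e1, mapP_eq (fun f k => formP_eq R A x bt f k), Mid.frN_eq, ih]
    rfl

lemma formsL_get (R A : ℕ) (x : RcB) : ∀ (n bt i : ℕ), i < n →
    (formsL R A x n bt)[i]? = some ((flB x).map fun f => formL R A x (bt + i) f) := by
  intro n
  induction n with
  | zero => intro bt i h; omega
  | succ n ih =>
    intro bt i h
    cases i with
    | zero => rfl
    | succ i =>
      show (formsL R A x n (bt + 1))[i]? = _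
      rw [ih (bt + 1) i (by omega)]
      have : bt + 1 + i = bt + (i + 1) := by ring
      rw [this]

/-- maximum over corners -/
noncomputable def mxQ (C nw : ℕ) (l : List Qd) : ℕ → ℕ :=
  List.rec (motive := fun _ => ℕ → ℕ) (fun a => a)
    (fun q _ ih a => Mid.frN (q.val C nw) fun v =>
      Bool.rec (motive := fun _ => ℕ) (ih a) (ih v) (Nat.ble a v)) l

/-- maximum over lists of corners -/
noncomputable def mxQQ (C nw : ℕ) (l : List (List Qd)) : ℕ → ℕ :=
  List.rec (motive := fun _ => ℕ → ℕ) (fun a => a)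
    (fun q _ ih a => Mid.frN (mxQ C nw q a) ih) l

/-- minimum over the forms -/
noncomputable def mnF (C nw : ℕ) (l : List (List (List Qd))) : ℕ → ℕ :=
  List.rec (motive := fun _ => ℕ → ℕ) (fun a => a)
    (fun q _ ih a => Mid.frN (mxQQ C nw q 0) fun v =>
      Bool.rec (motive := fun _ => ℕ) (ih a) (ih v) (Nat.ble v a)) l

lemma mxQ_le {C nw : ℕ} : ∀ (l : List Qd) (a : ℕ), a ≤ mxQ C nw l a := by
  intro l
  induction l with
  | nil => intro a; exact le_rfl
  | cons q l ih =>
    intro a
    have e1 : mxQ C nw (q :: l) a = Mid.frN (q.val C nw) fun v =>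
      Bool.rec (motive := fun _ => ℕ) (mxQ C nw l a) (mxQ C nw l v) (Nat.ble a v) := rfl
    rw [e1, Mid.frN_eq]
    rcases h : Nat.ble a (q.val C nw) with _ | _
    · exact ih a
    · exact (Nat.le_of_ble_eq_true h).trans (ih _)

lemma mxQ_mem {C nw : ℕ} {q : Qd} : ∀ (l : List Qd) (a : ℕ), q ∈ l → q.val C nw ≤ mxQ C nw l a := by
  intro l
  induction l with
  | nil => intro a h; exact absurd h (by simp)
  | cons p l ih =>
    intro a hq
    have e1 : mxQ C nw (p :: l) a = Mid.frN (p.val C nw) fun v =>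
      Bool.rec (motive := fun _ => ℕ) (mxQ C nw l a) (mxQ C nw l v) (Nat.ble a v) := rfl
    rw [e1, Mid.frN_eq]
    rcases h : Nat.ble a (p.val C nw) with _ | _
    · rcases List.mem_cons.1 hq with h1 | h1
      · rw [h1]
        have h2 : p.val C nw < a := by
          by_contra h3
          rw [Nat.ble_eq_true_of_le (not_lt.1 h3)] at h
          exact absurd h (by decide)
        exact h2.le.trans (mxQ_le l a)
      · exact ih a h1
    · rcases List.mem_cons.1 hq with h1 | h1
      · rw [h1]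
        exact mxQ_le l _
      · exact ih _ h1

lemma mxQQ_le {C nw : ℕ} : ∀ (l : List (List Qd)) (a : ℕ), a ≤ mxQQ C nw l a := by
  intro l
  induction l with
  | nil => intro a; exact le_rfl
  | cons q l ih =>
    intro a
    have e1 : mxQQ C nw (q :: l) a = Mid.frN (mxQ C nw q a) fun v => mxQQ C nw l v := rfl
    rw [e1, Mid.frN_eq]
    exact (mxQ_le q a).trans (ih _)

lemma mxQQ_mem {C nw : ℕ} {q : Qd} {m : List Qd} (hq : q ∈ m) : ∀ (l : List (List Qd)) (a : ℕ),
    m ∈ l → q.val C nw ≤ mxQQ C nw l a := by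
  intro l
  induction l with
  | nil => intro a h; exact absurd h (by simp)
  | cons p l ih =>
    intro a hm
    have e1 : mxQQ C nw (p :: l) a = Mid.frN (mxQ C nw p a) fun v => mxQQ C nw l v := rfl
    rw [e1, Mid.frN_eq]
    rcases List.mem_cons.1 hm with h1 | h1
    · rw [h1] at hq
      exact (mxQ_mem p a hq).trans (mxQQ_le l _)
    · exact ih _ h1

lemma mnF_lt {C nw X : ℕ} : ∀ (l : List (List (List Qd))) (a : ℕ), X < a →
    (∀ f ∈ l, X < mxQQ C nw f 0) → X < mnF C nw l a := by
  intro l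
  induction l with
  | nil => intro a h _; exact h
  | cons f l ih =>
    intro a ha hf
    have e1 : mnF C nw (f :: l) a = Mid.frN (mxQQ C nw f 0) fun v =>
      Bool.rec (motive := fun _ => ℕ) (mnF C nw l a) (mnF C nw l v) (Nat.ble v a) := rfl
    rw [e1, Mid.frN_eq]
    rcases h : Nat.ble (mxQQ C nw f 0) a with _ | _
    · exact ih a ha fun g hg => hf g (List.mem_cons_of_mem _ hg)
    · exact ih _ (hf f List.mem_cons_self) fun g hg => hf g (List.mem_cons_of_mem _ hg)

/-! ### the convexity -/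

/-- a convex parabola on an interval -/
lemma conv_end {a b c lo x hi : ℤ} (ha : 0 ≤ a) (h1 : lo ≤ x) (h2 : x ≤ hi) :
    a * x ^ 2 + b * x + c ≤ a * lo ^ 2 + b * lo + c ∨
      a * x ^ 2 + b * x + c ≤ a * hi ^ 2 + b * hi + c := by
  by_cases h : a * (x + lo) + b ≤ 0
  · left
    nlinarith [mul_nonneg (sub_nonneg.2 h1) (neg_nonneg.2 h)]
  · right
    push Not at h
    have h3 : 0 ≤ a * (x + hi) + b := by nlinarith [mul_nonneg ha (sub_nonneg.2 (h1.trans h2))]
    nlinarith [mul_nonneg (sub_nonneg.2 h2) h3]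

/-- the corner in integers -/
lemma quad_val {R A bt u v j T S D C nw X : ℕ}
    (h : 2 * (X : ℤ) + 2 * (((R : ℤ) + 1 - C) * (bt - 1)) + (u : ℤ) * (u + 1) + (j : ℤ) * (j - 1)
      ≤ 2 * ((A : ℤ) * u) + 2 * (((C : ℤ) - 1 - u) * (D - v)) + nw + T - S) :
    2 * X < (quad R A bt u v j T S D).val C nw := by
  have h1 : ((2 * (D * (u + 1)) + S + (2 * ((R + 1) * bt) + (u * (u + 1) + j * j))
      + C * (2 * (v + 1)) + (2 * X + 1) : ℕ) : ℤ)
      ≤ ((2 * (u * (A + v)) + (2 * v + T) + (2 * (R + 1) + (j + 1)) + (C * (2 * (D + bt)) + nw) : ℕ)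
        : ℤ) := by
    push_cast
    nlinarith [h]
  have h2 : (2 * (D * (u + 1)) + S + (2 * ((R + 1) * bt) + (u * (u + 1) + j * j)))
      + C * (2 * (v + 1)) + (2 * X + 1)
      ≤ 2 * (u * (A + v)) + (2 * v + T) + (2 * (R + 1) + (j + 1)) + (C * (2 * (D + bt)) + nw) := by
    exact_mod_cast h1
  show 2 * X < (2 * (u * (A + v)) + (2 * v + T) + (2 * (R + 1) + (j + 1)) + (C * (2 * (D + bt)) + nw))
    - ((2 * (D * (u + 1)) + S + (2 * ((R + 1) * bt) + (u * (u + 1) + j * j))) + C * (2 * (v + 1)))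
  omega

/-- a form: the value at the true numbers is below its maximum over the corners -/
lemma formL_lt {R A : ℕ} {x : RcB} {bt : ℕ} {f : ℕ × ℕ} {C nw X D c : ℕ}
    (hD0 : x.D0 ≤ D) (hD1 : D ≤ x.D1) (hc0 : x.P0 - miN bt x.pm ≤ c) (hc1 : c ≤ x.P1)
    (hJ : f.1 = 0 → 2 * (X : ℤ) + 2 * (((R : ℤ) + 1 - C) * (bt - 1))
        + ((f.2 : ℤ) + bt) * (f.2 + bt + 1) + (f.2 : ℤ) * (f.2 - 1)
      ≤ 2 * ((A : ℤ) * (f.2 + bt)) + 2 * (((C : ℤ) - 1 - (f.2 + bt)) * (D - (f.2 + (f.2 + bt))))
        + nw + 2 * ((x.pm : ℤ) * ((A : ℤ) + 2 * f.2)) - 2 * ((x.pm : ℤ) * D))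
    (hB : f.1 ≠ 0 → 2 * (X : ℤ) + 2 * (((R : ℤ) + 1 - C) * (bt - 1))
        + ((f.2 : ℤ) + bt + c) * (f.2 + bt + c + 1) + (f.2 : ℤ) * (f.2 - 1)
      ≤ 2 * ((A : ℤ) * (f.2 + bt + c))
        + 2 * (((C : ℤ) - 1 - (f.2 + bt + c)) * (D - (f.2 + (f.2 + bt + c))))
        + nw + (c : ℤ) * (x.pm + 1)) :
    2 * X < mxQQ C nw (formL R A x bt f) 0 := by
  by_cases h0 : f.1 = 0
  · have hJ := hJ h0
    unfold formL
    rw [if_pos h0]
    -- affine in D
    have key : ∀ D' : ℕ, D' = x.D0 ∨ D' = x.D1 →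
        2 * (X : ℤ) + 2 * (((R : ℤ) + 1 - C) * (bt - 1))
        + ((f.2 : ℤ) + bt) * (f.2 + bt + 1) + (f.2 : ℤ) * (f.2 - 1)
      ≤ 2 * ((A : ℤ) * (f.2 + bt)) + 2 * (((C : ℤ) - 1 - (f.2 + bt)) * (D' - (f.2 + (f.2 + bt))))
        + nw + 2 * ((x.pm : ℤ) * ((A : ℤ) + 2 * f.2)) - 2 * ((x.pm : ℤ) * D') →
        2 * X < mxQQ C nw [(dd x.D0 x.D1).map fun D => quad R A bt (f.2 + bt) (f.2 + (f.2 + bt)) f.2
          (2 * (x.pm * (A + 2 * f.2))) (2 * (x.pm * D)) D] 0 := by
      intro D' hD' h
      have h1 : 2 * X < (quad R A bt (f.2 + bt) (f.2 + (f.2 + bt)) f.2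
          (2 * (x.pm * (A + 2 * f.2))) (2 * (x.pm * D')) D').val C nw := by
        refine quad_val ?_
        push_cast
        linarith
      have h3 : D' ∈ dd x.D0 x.D1 := by
        rcases hD' with h2 | h2
        · rw [h2]; exact (dd_mem _ _).1
        · rw [h2]; exact (dd_mem _ _).2
      have h4 : quad R A bt (f.2 + bt) (f.2 + (f.2 + bt)) f.2 (2 * (x.pm * (A + 2 * f.2)))
          (2 * (x.pm * D')) D' ∈ (dd x.D0 x.D1).map fun D => quad R A bt (f.2 + bt)
          (f.2 + (f.2 + bt)) f.2 (2 * (x.pm * (A + 2 * f.2))) (2 * (x.pm * D)) D :=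
        List.mem_map.2 ⟨D', h3, rfl⟩
      exact h1.trans_le (mxQQ_mem h4 _ 0 List.mem_cons_self)
    have hz0 : (x.D0 : ℤ) ≤ D := by exact_mod_cast hD0
    have hz1 : (D : ℤ) ≤ x.D1 := by exact_mod_cast hD1
    rcases conv_end (a := 0) (b := 2 * ((C : ℤ) - 1 - (f.2 + bt)) - 2 * x.pm) (c := 0) le_rfl hz0 hz1
      with h | h
    · exact key x.D0 (Or.inl rfl) (by nlinarith [h])
    · exact key x.D1 (Or.inr rfl) (by nlinarith [h])
  · have hB := hB h0
    unfold formL
    rw [if_neg h0]
    have key : ∀ c' D' : ℕ, (c' = x.P0 - miN bt x.pm ∨ c' = x.P1) → (D' = x.D0 ∨ D' = x.D1) →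
        2 * (X : ℤ) + 2 * (((R : ℤ) + 1 - C) * (bt - 1))
        + ((f.2 : ℤ) + bt + c') * (f.2 + bt + c' + 1) + (f.2 : ℤ) * (f.2 - 1)
      ≤ 2 * ((A : ℤ) * (f.2 + bt + c'))
        + 2 * (((C : ℤ) - 1 - (f.2 + bt + c')) * (D' - (f.2 + (f.2 + bt + c'))))
        + nw + (c' : ℤ) * (x.pm + 1) →
        2 * X < mxQQ C nw ((dd (x.P0 - miN bt x.pm) x.P1).map fun c => (dd x.D0 x.D1).map fun D =>
          quad R A bt (f.2 + bt + c) (f.2 + (f.2 + bt + c)) f.2 (c * (x.pm + 1)) 0 D) 0 := by
      intro c' D' hc' hD' h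
      have h1 : 2 * X < (quad R A bt (f.2 + bt + c') (f.2 + (f.2 + bt + c')) f.2
          (c' * (x.pm + 1)) 0 D').val C nw := by
        refine quad_val ?_
        push_cast
        linarith
      refine h1.trans_le (mxQQ_mem (List.mem_map.2 ⟨D', ?_, rfl⟩) _ 0 (List.mem_map.2 ⟨c', ?_, rfl⟩))
      · rcases hD' with h2 | h2
        · rw [h2]; exact (dd_mem _ _).1
        · rw [h2]; exact (dd_mem _ _).2
      · rcases hc' with h2 | h2
        · rw [h2]; exact (dd_mem _ _).1
        · rw [h2]; exact (dd_mem _ _).2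
    have hz0 : (x.D0 : ℤ) ≤ D := by exact_mod_cast hD0
    have hz1 : (D : ℤ) ≤ x.D1 := by exact_mod_cast hD1
    have hy0 : ((x.P0 - miN bt x.pm : ℕ) : ℤ) ≤ c := by exact_mod_cast hc0
    have hy1 : (c : ℤ) ≤ x.P1 := by exact_mod_cast hc1
    -- first D, then c
    have step : ∀ c' : ℕ, (c' = x.P0 - miN bt x.pm ∨ c' = x.P1) →
        2 * (X : ℤ) + 2 * (((R : ℤ) + 1 - C) * (bt - 1))
        + ((f.2 : ℤ) + bt + c') * (f.2 + bt + c' + 1) + (f.2 : ℤ) * (f.2 - 1)
      ≤ 2 * ((A : ℤ) * (f.2 + bt + c'))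
        + 2 * (((C : ℤ) - 1 - (f.2 + bt + c')) * (D - (f.2 + (f.2 + bt + c'))))
        + nw + (c' : ℤ) * (x.pm + 1) →
        2 * X < mxQQ C nw ((dd (x.P0 - miN bt x.pm) x.P1).map fun c => (dd x.D0 x.D1).map fun D =>
          quad R A bt (f.2 + bt + c) (f.2 + (f.2 + bt + c)) f.2 (c * (x.pm + 1)) 0 D) 0 := by
      intro c' hc' h
      rcases conv_end (a := 0) (b := 2 * ((C : ℤ) - 1 - (f.2 + bt + c'))) (c := 0) le_rfl hz0 hz1
        with h1 | h1
      · exact key c' x.D0 hc' (Or.inl rfl) (by nlinarith [h, h1])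
      · exact key c' x.D1 hc' (Or.inr rfl) (by nlinarith [h, h1])
    obtain ⟨c0, ec0⟩ : ∃ c0 : ℕ, c0 = x.P0 - miN bt x.pm := ⟨_, rfl⟩
    rw [← ec0] at hy0
    rcases conv_end (a := 1)
      (b := 2 * (A : ℤ) - 2 * ((D : ℤ) - (f.2 + (f.2 + bt))) - 2 * ((C : ℤ) - 1 - (f.2 + bt))
        + (x.pm + 1) - 2 * (f.2 + bt) - 1) (c := 0) (by norm_num) hy0 hy1 with h | h
    · exact step c0 (Or.inl ec0) (by nlinarith [h, hB])
    · exact step x.P1 (Or.inr rfl) (by nlinarith [h, hB])

/-! ### the blocks -/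

/-- a block of sizes `lo .. hi` with the rectangle numbers by the number of PC pairs of the row with the tail -/
structure Blk where
  (lo hi : ℕ)
  (E : List ℕ)

/-- one size `C`: forms `fs` and excess `ns` by the number of PC pairs, `E` the list so far -/
noncomputable def stE (C big : ℕ) (fs : List (List (List (List Qd)))) :
    List ℕ → List ℕ → (List ℕ → β) → β :=
  List.rec (motive := fun _ => List ℕ → List ℕ → (List ℕ → β) → β) (fun _ E k => k E)
    (fun f _ ih ns E k => List.casesOn (motive := fun _ => β) ns (k E)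
      (fun nw ns' => Mid.frN (mnF C nw f big) fun v =>
        List.casesOn (motive := fun _ => β) E (ih ns' [] fun r => k (v :: r))
          (fun e E' => Bool.rec (motive := fun _ => β) (ih ns' E' fun r => k (e :: r))
            (ih ns' E' fun r => k (v :: r)) (Nat.ble e v)))) fs

lemma stE_spec (C big : ℕ) : ∀ (fs : List (List (List (List Qd)))) (ns E : List ℕ),
    Del (β := β) (stE C big fs ns E) fun r => (∀ i, E.getD i 0 ≤ r.getD i 0) ∧
      ∀ (i : ℕ) (F : List (List (List Qd))) (nw : ℕ), fs[i]? = some F → ns[i]? = some nw →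
        mnF C nw F big ≤ r.getD i 0 := by
  intro fs
  induction fs with
  | nil =>
    intro ns E
    exact ⟨E, fun k => rfl, fun i => le_rfl, fun i F nw h => by simp at h⟩
  | cons f fs ih =>
    intro ns E
    cases ns with
    | nil => exact ⟨E, fun k => rfl, fun i => le_rfl, fun i F nw _ h => by simp at h⟩
    | cons nw ns =>
      have e1 : ∀ k : List ℕ → β, stE C big (f :: fs) (nw :: ns) E k
          = Mid.frN (mnF C nw f big) fun v =>
        List.casesOn (motive := fun _ => β) E (stE C big fs ns [] fun r => k (v :: r))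
          (fun e E' => Bool.rec (motive := fun _ => β) (stE C big fs ns E' fun r => k (e :: r))
            (stE C big fs ns E' fun r => k (v :: r)) (Nat.ble e v)) := fun _ => rfl
      cases E with
      | nil =>
        obtain ⟨r, h1, h2, h3⟩ := ih ns []
        refine ⟨mnF C nw f big :: r, fun k => ?_, fun i => ?_, fun i F w hF hw => ?_⟩
        · rw [e1, Mid.frN_eq]
          exact h1 _
        · simp
        · cases i with
          | zero =>
            rw [List.getElem?_cons_zero] at hF hw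
            obtain rfl := Option.some.inj hF
            obtain rfl := Option.some.inj hw
            exact le_rfl
          | succ i =>
            rw [List.getElem?_cons_succ] at hF hw
            exact h3 i F w hF hw
      | cons e E =>
        obtain ⟨r, h1, h2, h3⟩ := ih ns E
        obtain ⟨m, hm1, hm2, hm3⟩ : ∃ m : ℕ, e ≤ m ∧ mnF C nw f big ≤ m ∧
            ∀ k : List ℕ → β, (Bool.rec (motive := fun _ => β) (stE C big fs ns E fun r => k (e :: r))
              (stE C big fs ns E fun r => k (mnF C nw f big :: r)) (Nat.ble e (mnF C nw f big)) : β)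
              = stE C big fs ns E fun r => k (m :: r) := by
          rcases h : Nat.ble e (mnF C nw f big) with _ | _
          · refine ⟨e, le_rfl, ?_, fun k => rfl⟩
            by_contra h4
            rw [Nat.ble_eq_true_of_le (by omega : e ≤ mnF C nw f big)] at h
            exact absurd h (by decide)
          · exact ⟨mnF C nw f big, Nat.le_of_ble_eq_true h, le_rfl, fun k => rfl⟩
        refine ⟨m :: r, fun k => ?_, fun i => ?_, fun i F w hF hw => ?_⟩
        · rw [e1, Mid.frN_eq]
          refine (hm3 k).trans ?_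
          exact h1 _
        · cases i with
          | zero => exact hm1
          | succ i => exact h2 i
        · cases i with
          | zero =>
            rw [List.getElem?_cons_zero] at hF hw
            obtain rfl := Option.some.inj hF
            obtain rfl := Option.some.inj hw
            exact hm2
          | succ i =>
            rw [List.getElem?_cons_succ] at hF hw
            exact h3 i F w hF hw

/-- **the blocks**: `nls` the root table of the sizes `C, C + 1, ..`, `his` the upper ends, `lo`, `E` the open block -/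
noncomputable def runB (big : ℕ) (fs : List (List (List (List Qd)))) (nls : List (List ℕ)) :
    ℕ → List ℕ → ℕ → List ℕ → List Blk → (List Blk → ℕ → β) → β :=
  List.rec (motive := fun _ => ℕ → List ℕ → ℕ → List ℕ → List Blk → (List Blk → ℕ → β) → β)
    (fun _ _ lo _ acc k => k acc lo)
    (fun ns _ ih C his lo E acc k => List.casesOn (motive := fun _ => β) his (k acc lo)
      (fun h his' => stE C big fs ns E fun E' => Mid.frN (Nat.succ C) fun C' =>
        Bool.rec (motive := fun _ => β) (ih C' his lo E' acc k)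
          (ih C' his' C' [] (⟨lo, C, E'⟩ :: acc) k) (Nat.ble h C))) nls

/-- the data of the true halves: sizes, PC pairs, misses -/
structure TDat (big : ℕ) (fs : List (List (List (List Qd)))) (L : List ℕ) (C bt X : ℕ) : Prop where
  f : ∃ F nw, fs[bt]? = some F ∧ L[bt]? = some nw ∧ X < mnF C nw F big

/-- a block is valid for the relation `T` (size, PC pairs, twice the product) -/
def BOk (T : ℕ → ℕ → ℕ → ℕ → Prop) (b : Blk) : Prop :=
  ∀ C bt e e' : ℕ, T C bt e e' → b.lo ≤ C → C ≤ b.hi → 2 * ((e - bt) * e') < b.E.getD bt 0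

lemma runB_spec {T : ℕ → ℕ → ℕ → ℕ → Prop} (big : ℕ) (fs : List (List (List (List Qd)))) :
    ∀ (nls : List (List ℕ)) (C : ℕ) (his : List ℕ) (lo : ℕ) (E : List ℕ) (acc : List Blk),
    (∀ (i : ℕ) (L : List ℕ), nls[i]? = some L → ∀ bt e e' : ℕ, T (C + i) bt e e' →
      TDat big fs L (C + i) bt (2 * ((e - bt) * e'))) →
    lo ≤ C →
    (∀ D bt e e' : ℕ, T D bt e e' → lo ≤ D → D < C → 2 * ((e - bt) * e') < E.getD bt 0) →
    (∀ b ∈ acc, BOk T b) → (∀ D, 1 ≤ D → D < lo → ∃ b ∈ acc, b.lo ≤ D ∧ D ≤ b.hi) →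
    ∃ (acc' : List Blk) (lo' : ℕ), (∀ k : List Blk → ℕ → β,
        runB big fs nls C his lo E acc k = k acc' lo') ∧ (∀ b ∈ acc', BOk T b) ∧
      ∀ D, 1 ≤ D → D < lo' → ∃ b ∈ acc', b.lo ≤ D ∧ D ≤ b.hi := by
  intro nls
  induction nls with
  | nil =>
    intro C his lo E acc _ _ _ h4 h5
    exact ⟨acc, lo, fun k => rfl, h4, h5⟩
  | cons ns nls ih =>
    intro C his lo E acc h1 h2 h3 h4 h5
    cases his with
    | nil => exact ⟨acc, lo, fun k => rfl, h4, h5⟩
    | cons h his =>
      obtain ⟨E', g1, g2, g3⟩ := stE_spec (β := β) C big fs ns E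
      have e1 : ∀ k : List Blk → ℕ → β, runB big fs (ns :: nls) C (h :: his) lo E acc k
          = stE C big fs ns E fun E' => Mid.frN (Nat.succ C) fun C' =>
            Bool.rec (motive := fun _ => β) (runB big fs nls C' (h :: his) lo E' acc k)
              (runB big fs nls C' his C' [] (⟨lo, C, E'⟩ :: acc) k) (Nat.ble h C) := fun _ => rfl
      have h1' : ∀ (i : ℕ) (L : List ℕ), nls[i]? = some L → ∀ bt e e' : ℕ, T (C + 1 + i) bt e e' →
          TDat big fs L (C + 1 + i) bt (2 * ((e - bt) * e')) := by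
        intro i L hL bt e e' hT
        have e2 : C + 1 + i = C + (i + 1) := by ring
        rw [e2] at hT ⊢
        exact h1 (i + 1) L (by rw [List.getElem?_cons_succ]; exact hL) bt e e' hT
      have h3' : ∀ D bt e e' : ℕ, T D bt e e' → lo ≤ D → D < C + 1 →
          2 * ((e - bt) * e') < E'.getD bt 0 := by
        intro D bt e e' hT hlo hD
        rcases Nat.lt_succ_iff_lt_or_eq.1 hD with h6 | h6
        · exact (h3 D bt e e' hT hlo h6).trans_le (g2 bt)
        · rw [h6] at hT
          obtain ⟨F, nw, k1, k2, k3⟩ := (h1 0 ns (by rw [List.getElem?_cons_zero]) bt e e' hT).f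
          exact k3.trans_le (g3 bt F nw k1 k2)
      rcases hb : Nat.ble h C with _ | _
      · obtain ⟨acc', lo', k1, k2, k3⟩ := ih (C + 1) (h :: his) lo E' acc h1' (by omega) h3' h4 h5
        refine ⟨acc', lo', fun k => ?_, k2, k3⟩
        rw [e1, g1, Mid.frN_eq, hb]
        exact k1 k
      · obtain ⟨acc', lo', k1, k2, k3⟩ := ih (C + 1) his (C + 1) [] (⟨lo, C, E'⟩ :: acc) h1' le_rfl
          (fun D bt e e' _ h6 h7 => by omega)
          (fun b hb' => by
            rcases List.mem_cons.1 hb' with h6 | h6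
            · rw [h6]
              intro D bt e e' hT hlo hhi
              exact h3' D bt e e' hT hlo (by show D < C + 1; exact Nat.lt_succ_of_le hhi)
            · exact h4 b h6)
          (fun D hD1 hD2 => by
            rcases Nat.lt_or_ge D lo with h6 | h6
            · obtain ⟨b, h7, h8⟩ := h5 D hD1 h6
              exact ⟨b, List.mem_cons_of_mem _ h7, h8⟩
            · exact ⟨_, List.mem_cons_self, h6, by show D ≤ C; omega⟩)
        refine ⟨acc', lo', fun k => ?_, k2, k3⟩
        rw [e1, g1, Mid.frN_eq, hb]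
        exact k1 k

/-- the blocks which meet `1 .. M` -/
noncomputable def drB (M : ℕ) (l : List Blk) : List Blk :=
  List.rec (motive := fun _ => List Blk) []
    (fun b l ih => Bool.rec (motive := fun _ => List Blk) ih (b :: l) (Nat.ble b.lo M)) l

lemma drB_mem {M : ℕ} {b : Blk} : ∀ {l : List Blk}, b ∈ drB M l → b ∈ l := by
  intro l
  induction l with
  | nil => intro h; exact h
  | cons c l ih =>
    intro h
    have e1 : drB M (c :: l) = Bool.rec (motive := fun _ => List Blk) (drB M l) (c :: l)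
      (Nat.ble c.lo M) := rfl
    rw [e1] at h
    rcases h1 : Nat.ble c.lo M with _ | _
    · rw [h1] at h
      exact List.mem_cons_of_mem _ (ih h)
    · rw [h1] at h
      exact h

lemma mem_drB {M : ℕ} {b : Blk} (hM : b.lo ≤ M) : ∀ {l : List Blk}, b ∈ l → b ∈ drB M l := by
  intro l
  induction l with
  | nil => intro h; exact h
  | cons c l ih =>
    intro h
    have e1 : drB M (c :: l) = Bool.rec (motive := fun _ => List Blk) (drB M l) (c :: l)
      (Nat.ble c.lo M) := rfl
    rw [e1]
    rcases h1 : Nat.ble c.lo M with _ | _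
    · rcases List.mem_cons.1 h with h2 | h2
      · rw [h2] at hM
        rw [Nat.ble_eq_true_of_le hM] at h1
        exact absurd h1 (by decide)
      · exact ih h2
    · exact h

/-! ### no half -/

/-- `E[bt] ≤ 2 (e - bt) t` for all `bt` -/
noncomputable def allE (t : ℕ) (l : List ℕ) : ℕ → Bool :=
  List.rec (motive := fun _ => ℕ → Bool) (fun _ => true)
    (fun x _ ih e => Bool.rec (motive := fun _ => Bool) false (Mid.frN (Nat.sub e 1) ih)
      (Nat.ble x (Nat.mul 2 (Nat.mul e t)))) l

lemma allE_get {t : ℕ} : ∀ (l : List ℕ) (e : ℕ), allE t l e = true →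
    ∀ i, l.getD i 0 ≤ 2 * ((e - i) * t) := by
  intro l
  induction l with
  | nil => intro e _ i; simp
  | cons x l ih =>
    intro e h i
    have e1 : allE t (x :: l) e = Bool.rec (motive := fun _ => Bool) false
      (Mid.frN (Nat.sub e 1) fun e' => allE t l e') (Nat.ble x (Nat.mul 2 (Nat.mul e t))) := rfl
    rw [e1] at h
    rcases h1 : Nat.ble x (Nat.mul 2 (Nat.mul e t)) with _ | _
    · rw [h1] at h
      exact (Bool.false_ne_true h).elim
    · rw [h1] at h
      have h2 : allE t l (e - 1) = true := by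
        have h3 : Mid.frN (Nat.sub e 1) (fun e' => allE t l e') = true := h
        rw [Mid.frN_eq] at h3
        exact h3
      cases i with
      | zero => exact Nat.le_of_ble_eq_true h1
      | succ i =>
        have h3 := ih (e - 1) h2 i
        have h4 : e - 1 - i = e - (i + 1) := by omega
        rw [h4] at h3
        exact h3

/-- no half of the host `B` with `e` misses (or more), other end in the block, `m` PC pairs -/
noncomputable def impB (R A B q m e : ℕ) (b : Blk) : Bool :=
  Mid.frN (Nat.sub (Nat.sub R (Nat.add A 2)) B) fun c =>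
  Mid.frN (Bool.rec (motive := fun _ => ℕ) c b.hi (Nat.ble b.hi c)) fun hi =>
  bor (Nat.ble (Nat.succ hi) b.lo) <| bor (Nat.ble (Nat.succ hi) m) <|
  Mid.frN (Nat.mul (Nat.sub B 1) (Nat.sub hi 1)) fun bh => Mid.frN (Nat.mul m R) fun mR =>
  bor (Nat.ble (Nat.succ (Nat.add bh (Nat.add (Nat.mul m m) R))) mR) <|
  Mid.frN (Nat.sub (Nat.add mR (Bool.rec (motive := fun _ => ℕ) b.lo hi (Nat.ble 2 B)))
    (Nat.succ (Nat.add bh (Nat.add (Nat.mul (Nat.succ m) (Nat.succ m)) q)))) fun nd =>
  Mid.frN (Bool.rec (motive := fun _ => ℕ) nd e (Nat.ble nd e)) fun t =>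
  bor (Nat.ble (Nat.succ R) (Nat.add t e)) <|
  bor (Nat.ble (Nat.succ (Nat.add R (Nat.mul (Nat.sub A 1) (Nat.sub hi 1)))) (Nat.mul e t)) <|
  bor (Nat.ble (Nat.add R 2) (Nat.add t b.lo)) <| bor (Nat.ble (Nat.add R 2) (Nat.add e A)) <|
  allE t b.E e

/-- the facts of one half -/
structure HalfF (T : ℕ → ℕ → ℕ → ℕ → Prop) (R A B q C bt m b b' : ℕ) : Prop where
  A1 : 1 ≤ A
  B1 : 1 ≤ B
  C1 : 1 ≤ C
  sz : A + B + C + 2 ≤ R
  T : T C bt b b'
  mm : m ≤ B ∧ m ≤ C
  j : ∀ m' : ℕ, m' ≤ m → m' * R ≤ (B - 1) * (C - 1) + m' * m' + R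
  c : ∀ m' : ℕ, m' ≤ m → m' * R + C ≤ (B - 1) * (C - 1) + (m' + 1) * (m' + 1) + b' + q + 1
  le : b ≤ b'
  pr : b * b' ≤ R + (A - 1) * (C - 1)
  su : b + b' ≤ R
  bA : b + A ≤ R + 1
  bC : b' + C ≤ R + 1

lemma impB_false {T : ℕ → ℕ → ℕ → ℕ → Prop} {R A B q C bt m b b' m' e : ℕ} {k : Blk}
    (h : HalfF T R A B q C bt m b b') (hk : BOk T k) (hlo : k.lo ≤ C) (hhi : C ≤ k.hi)
    (hm : m' ≤ m) (he : e ≤ b) : impB R A B q m' e k = false := by
  rcases himp : impB R A B q m' e k with _ | _
  · rfl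
  · exfalso
    unfold impB at himp
    rw [Mid.frN_eq, Mid.frN_eq] at himp
    obtain ⟨hi, ehi⟩ : ∃ hi : ℕ, hi = (Bool.rec (motive := fun _ => ℕ)
      (Nat.sub (Nat.sub R (Nat.add A 2)) B) k.hi (Nat.ble k.hi (Nat.sub (Nat.sub R (Nat.add A 2)) B)) : ℕ)
      := ⟨_, rfl⟩
    have hhi' : C ≤ hi := by
      rw [ehi]
      have h1 := h.sz
      rcases Nat.ble k.hi (Nat.sub (Nat.sub R (Nat.add A 2)) B) with _ | _
      · show C ≤ R - (A + 2) - B
        omega
      · exact hhi
    rw [← ehi] at himp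
    rcases bor_true himp with h1 | himp
    · have := Nat.le_of_ble_eq_true h1
      have h2 : hi + 1 ≤ k.lo := this
      omega
    rcases bor_true himp with h1 | himp
    · have h2 : hi + 1 ≤ m' := Nat.le_of_ble_eq_true h1
      have := h.mm.2
      omega
    rw [Mid.frN_eq, Mid.frN_eq] at himp
    have hbh : (B - 1) * (C - 1) ≤ (B - 1) * (hi - 1) := Nat.mul_le_mul_left _ (by omega)
    rcases bor_true himp with h1 | himp
    · have h2 : (B - 1) * (hi - 1) + (m' * m' + R) + 1 ≤ m' * R := Nat.le_of_ble_eq_true h1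
      have := h.j m' hm
      omega
    rw [Mid.frN_eq, Mid.frN_eq] at himp
    obtain ⟨nd, end'⟩ : ∃ nd : ℕ, nd = Nat.sub (Nat.add (Nat.mul m' R)
      (Bool.rec (motive := fun _ => ℕ) k.lo hi (Nat.ble 2 B)))
      (Nat.succ (Nat.add (Nat.mul (Nat.sub B 1) (Nat.sub hi 1))
        (Nat.add (Nat.mul (Nat.succ m') (Nat.succ m')) q))) := ⟨_, rfl⟩
    have hnd : nd ≤ b' := by
      have h1 := h.c m' hm
      rw [end']
      rcases hB : Nat.ble 2 B with _ | _
      · show m' * R + k.lo - ((B - 1) * (hi - 1) + ((m' + 1) * (m' + 1) + q) + 1) ≤ b'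
        omega
      · show m' * R + hi - ((B - 1) * (hi - 1) + ((m' + 1) * (m' + 1) + q) + 1) ≤ b'
        have h2 : 2 ≤ B := Nat.le_of_ble_eq_true hB
        have h3 : (B - 1) * (C - 1) + hi ≤ (B - 1) * (hi - 1) + C := by
          obtain ⟨B', rfl⟩ : ∃ B', B = B' + 2 := ⟨B - 2, by omega⟩
          obtain ⟨C', rfl⟩ : ∃ C', C = C' + 1 := ⟨C - 1, by have := h.C1; omega⟩
          obtain ⟨d, rfl⟩ : ∃ d, hi = C' + 1 + d := ⟨hi - (C' + 1), by omega⟩
          have e1 : B' + 2 - 1 = B' + 1 := rfl
          have e2 : C' + 1 - 1 = C' := rfl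
          have e3 : C' + 1 + d - 1 = C' + d := by omega
          rw [e1, e2, e3]
          nlinarith [Nat.zero_le (B' * d)]
        omega
    rw [← end'] at himp
    obtain ⟨t, et⟩ : ∃ t : ℕ, t = (Bool.rec (motive := fun _ => ℕ) nd e (Nat.ble nd e) : ℕ) :=
      ⟨_, rfl⟩
    have ht : t ≤ b' := by
      rw [et]
      rcases Nat.ble nd e with _ | _
      · exact hnd
      · exact he.trans h.le
    rw [← et] at himp
    rcases bor_true himp with h1 | himp
    · have h2 : R + 1 ≤ t + e := Nat.le_of_ble_eq_true h1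
      have := h.su
      omega
    rcases bor_true himp with h1 | himp
    · have h2 : R + (A - 1) * (hi - 1) + 1 ≤ e * t := Nat.le_of_ble_eq_true h1
      have h3 : e * t ≤ b * b' := Nat.mul_le_mul he ht
      have h4 : (A - 1) * (C - 1) ≤ (A - 1) * (hi - 1) := Nat.mul_le_mul_left _ (by omega)
      have := h.pr
      omega
    rcases bor_true himp with h1 | himp
    · have h2 : R + 2 ≤ t + k.lo := Nat.le_of_ble_eq_true h1
      have := h.bC
      omega
    rcases bor_true himp with h1 | himp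
    · have h2 : R + 2 ≤ e + A := Nat.le_of_ble_eq_true h1
      have := h.bA
      omega
    have h1 := allE_get _ _ himp bt
    have h2 := hk C bt b b' h.T hlo hhi
    have h3 : (e - bt) * t ≤ (b - bt) * b' := Nat.mul_le_mul (by omega) ht
    omega

/-- the same for all blocks -/
noncomputable def impL (R A B q m e : ℕ) (l : List Blk) : Bool :=
  List.rec (motive := fun _ => Bool) true
    (fun b _ ih => Bool.rec (motive := fun _ => Bool) false ih (impB R A B q m e b)) l

lemma impL_mem {R A B q m e : ℕ} {b : Blk} : ∀ {l : List Blk}, impL R A B q m e l = true → b ∈ l →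
    impB R A B q m e b = true := by
  intro l
  induction l with
  | nil => intro _ h; exact absurd h (by simp)
  | cons c l ih =>
    intro h hb
    have e1 : impL R A B q m e (c :: l) = Bool.rec (motive := fun _ => Bool) false
      (impL R A B q m e l) (impB R A B q m e c) := rfl
    rw [e1] at h
    rcases h1 : impB R A B q m e c with _ | _
    · rw [h1] at h
      exact (Bool.false_ne_true h).elim
    · rw [h1] at h
      rcases List.mem_cons.1 hb with h2 | h2
      · rw [h2]; exact h1
      · exact ih h h2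

/-! ### the table of one size -/

/-- the first impossible number -/
noncomputable def upE (imp : ℕ → Bool) (fb n : ℕ) : ℕ → ℕ :=
  Nat.rec (motive := fun _ => ℕ → ℕ) (fun _ => fb)
    (fun _ ih e => Bool.rec (motive := fun _ => ℕ) (Mid.frN (Nat.succ e) ih) e (imp e)) n

lemma upE_spec {imp : ℕ → Bool} {fb : ℕ} : ∀ (n e : ℕ),
    imp (upE imp fb n e) = true ∨ upE imp fb n e = fb := by
  intro n
  induction n with
  | zero => intro e; exact Or.inr rfl
  | succ n ih =>
    intro e
    have e1 : upE imp fb (n + 1) e = Bool.rec (motive := fun _ => ℕ)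
      (Mid.frN (Nat.succ e) fun e' => upE imp fb n e') e (imp e) := rfl
    rw [e1, Mid.frN_eq]
    rcases h : imp e with _ | _
    · exact ih (e + 1)
    · exact Or.inl h

/-- head and tail of a list -/
noncomputable def hdN (l : List ℕ) : ℕ := List.casesOn (motive := fun _ => ℕ) l 0 (fun e _ => e)
noncomputable def tlN (l : List ℕ) : List ℕ :=
  List.casesOn (motive := fun _ => List ℕ) l [] (fun _ l => l)

/-- the table of one size: first impossible number of misses by the number of PC pairs -/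
noncomputable def rowE (imp : ℕ → ℕ → Bool) (fb n : ℕ) :
    ℕ → List ℕ → (List ℕ → β) → β :=
  Nat.rec (motive := fun _ => ℕ → List ℕ → (List ℕ → β) → β) (fun _ _ k => k [])
    (fun _ ih m es k => Mid.frN (upE (imp m) fb fb (hdN es)) fun e =>
      Bool.rec (motive := fun _ => β)
        (Mid.frN (Nat.succ m) fun m' => ih m' (tlN es) fun r => k (e :: r)) (k [])
        (Nat.beq e 0)) n

/-- the table holds for a pair (misses, PC pairs) -/
def EOk (r : List ℕ) (m b : ℕ) : Prop := ∀ m' : ℕ, m' ≤ m → b < r.getD m' 0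

lemma rowE_spec (imp : ℕ → ℕ → Bool) (fb : ℕ) : ∀ (n m0 : ℕ) (es : List ℕ),
    Del (β := β) (rowE imp fb n m0 es) fun r => ∀ m b : ℕ, m < n → b < fb →
      (∀ m' : ℕ, m' ≤ m → ∀ e : ℕ, e ≤ b → imp (m0 + m') e = false) → EOk r m b := by
  intro n
  induction n with
  | zero => intro m0 es; exact ⟨[], fun k => rfl, fun m b h => by omega⟩
  | succ n ih =>
    intro m0 es
    obtain ⟨r, h1, h2⟩ := ih (m0 + 1) (tlN es)
    obtain ⟨e, ee⟩ : ∃ e, e = upE (imp m0) fb fb (hdN es) := ⟨_, rfl⟩
    have e1 : ∀ k : List ℕ → β, rowE imp fb (n + 1) m0 es k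
        = Bool.rec (motive := fun _ => β) (rowE imp fb n (m0 + 1) (tlN es) fun r => k (e :: r))
          (k []) (Nat.beq e 0) := by
      intro k
      have e2 : rowE imp fb (n + 1) m0 es k = Mid.frN (upE (imp m0) fb fb (hdN es)) fun e =>
        Bool.rec (motive := fun _ => β)
        (Mid.frN (Nat.succ m0) fun m' => rowE imp fb n m' (tlN es) fun r => k (e :: r)) (k [])
        (Nat.beq e 0) := rfl
      rw [e2, Mid.frN_eq, Mid.frN_eq, ← ee]
    have h3 := upE_spec (imp := imp m0) (fb := fb) fb (hdN es)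
    rw [← ee] at h3
    have h4 : ∀ m b : ℕ, b < fb →
        (∀ m' : ℕ, m' ≤ m → ∀ e : ℕ, e ≤ b → imp (m0 + m') e = false) → b < e := by
      intro m b hb hi
      by_contra h5
      rcases h3 with h6 | h6
      · have h7 := hi 0 (Nat.zero_le _) e (by omega)
        rw [Nat.add_zero, h6] at h7
        exact absurd h7 (by decide)
      · omega
    rcases h5 : Nat.beq e 0 with _ | _
    · refine ⟨e :: r, fun k => ?_, fun m b hm hb hi => ?_⟩
      · rw [e1, h5]
        exact h1 _
      · intro m' hm'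
        cases m' with
        | zero => exact h4 m b hb hi
        | succ m' =>
          have h6 := h2 (m - 1) b (by omega) hb (fun m2 hm2 e2 he2 => by
            have h7 := hi (m2 + 1) (by omega) e2 he2
            have h8 : m0 + (m2 + 1) = m0 + 1 + m2 := by ring
            rw [h8] at h7
            exact h7)
          exact h6 m' (by omega)
    · refine ⟨[], fun k => by rw [e1, h5], fun m b hm hb hi => ?_⟩
      have h6 := h4 m b hb hi
      have h7 := Nat.eq_of_beq_eq_true h5
      omega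

end Kern

end Pool.Agent.Lib.MP_f04ccf_co
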