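import Pool.Agent.Lib.MP_f04ccf_co.M.PA

/-!
MP_f04ccf_co: the threshold lemma of helper38 (note 15094 (1)).  `S` is a graph of missing pairs on `L`
which are served by the clique `C` (every point of `C` sees one of the two ends), `H` are the testers
already used.  If `|H ∪ L| ≤ r` and the ends of every edge of `S` have at most `r - |C| - 1` common
missing neighbours, then the points of `L` with nonnegative net value pay for all edges of `S`.
-/

set_option autoImplicit false

namespace Pool.Agent.Lib.MP_f04ccf_co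

open Finset

attribute [local instance] Classical.propDecidable

section Thr

variable {V : Type*} {G : SimpleGraph V} {r : ℕ}

/-- the net value of a tester -/
noncomputable def etaT (G : SimpleGraph V) (r : ℕ) (C A : Finset V) (w : V) : ℤ :=
  ((r : ℤ) - 1) - nd G C w - nd G A w

/-- exact form: the testers `Z' ⊆ L` besides `H` -/
lemma val_union (C : Finset V) {H L Z' : Finset V} (hHL : Disjoint H L) (hZ' : Z' ⊆ L) :
    2 * ∑ v ∈ H ∪ Z', (((r : ℤ) - 1) - nd G C v) - NE G (H ∪ Z')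
      = 2 * ∑ v ∈ H, (((r : ℤ) - 1) - nd G C v) - NE G H
        + 2 * ∑ v ∈ Z', etaT G r C (H ∪ L) v + NE G Z'
        + 2 * ∑ v ∈ Z', (nd G (L \ Z') v : ℤ) := by
  have hd : Disjoint H Z' := hHL.mono_right hZ'
  have h1 : (NE G (H ∪ Z') : ℤ) = NE G H + NE G Z' + 2 * ∑ v ∈ Z', (nd G H v : ℤ) := by
    have := NE_union (G := G) hd
    exact_mod_cast this
  have h2 : ∑ v ∈ Z', etaT G r C (H ∪ L) v = ∑ v ∈ Z', (((r : ℤ) - 1) - nd G C v)
      - ∑ v ∈ Z', (nd G H v : ℤ) - ∑ v ∈ Z', (nd G (L \ Z') v : ℤ) - NE G Z' := by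
    unfold NE
    push_cast
    rw [← sum_sub_distrib, ← sum_sub_distrib, ← sum_sub_distrib]
    refine sum_congr rfl fun v _ => ?_
    have e1 := nd_union (G := G) hHL v
    have e2 : nd G L v = nd G (L \ Z') v + nd G Z' v := by
      rw [← nd_union (G := G) sdiff_disjoint v, sdiff_union_of_subset hZ']
    unfold etaT
    rw [e1, e2]
    push_cast
    ring
  rw [sum_union hd, h1, h2]
  ring

/-- the missing degrees of a missing pair -/
lemma nd_add_nd_le {A : Finset V} {w w' : V} (hw : w ∈ A) (hw' : w' ∈ A) (hne : w ≠ w')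
    (hn : ¬ G.Adj w w') :
    nd G A w + nd G A w' ≤ A.card
      + (A.filter (fun u => (u ≠ w ∧ ¬ G.Adj w u) ∧ (u ≠ w' ∧ ¬ G.Adj w' u))).card := by
  unfold nd
  rw [← card_union_add_card_inter, ← filter_or, ← filter_and]
  exact Nat.add_le_add_right (card_filter_le _ _) _

/-- **THRESHOLD LEMMA** -/
theorem PG.threshold (hP : PG G r) (hr : 1 ≤ r) {C H L : Finset V} (hC : Clq G C)
    (hCH : Disjoint C H) (hCL : Disjoint C L) (hHL : Disjoint H L) (S : SimpleGraph V)
    (hS : ∀ w ∈ L, ∀ w' ∈ L, S.Adj w w' → ¬ G.Adj w w')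
    (hcov : ∀ w ∈ L, ∀ w' ∈ L, S.Adj w w' → ∀ c ∈ C, G.Adj w c ∨ G.Adj w' c)
    (hcard : (H ∪ L).card ≤ r)
    (hcom : ∀ w ∈ L, ∀ w' ∈ L, S.Adj w w' →
      ((H ∪ L).filter (fun u => (u ≠ w ∧ ¬ G.Adj w u) ∧ (u ≠ w' ∧ ¬ G.Adj w' u))).card
        + C.card + 1 ≤ r) :
    2 * ∑ v ∈ H, (((r : ℤ) - 1) - nd G C v) - NE G H + E S L
      ≤ 2 * ((r : ℤ) - 1) * (r - C.card) := by
  set Z' := L.filter (fun w => 0 ≤ etaT G r C (H ∪ L) w) with hZ'
  have hZL : Z' ⊆ L := filter_subset _ _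
  have hCZ : Disjoint C (H ∪ Z') := disjoint_union_right.2 ⟨hCH, hCL.mono_right hZL⟩
  have h1 := hP.val hC hCZ
  rw [val_union C hHL hZL] at h1
  -- `Z'` is a vertex cover of `S`
  have hvc : ∀ w ∈ L, ∀ w' ∈ L, S.Adj w w' → w ∈ Z' ∨ w' ∈ Z' := by
    intro w hw w' hw' hww
    by_contra hcon
    push Not at hcon
    have n1 : etaT G r C (H ∪ L) w < 0 := by
      by_contra h
      exact hcon.1 (mem_filter.2 ⟨hw, not_lt.1 h⟩)
    have n2 : etaT G r C (H ∪ L) w' < 0 := by
      by_contra h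
      exact hcon.2 (mem_filter.2 ⟨hw', not_lt.1 h⟩)
    have e1 := nd_add_nd_le (G := G) (mem_union_right H hw) (mem_union_right H hw')
      (S.ne_of_adj hww) (hS w hw w' hw' hww)
    have e2 := hcom w hw w' hw' hww
    have e3 : nd G C w + nd G C w' ≤ C.card := by
      unfold nd
      rw [← card_union_of_disjoint, ← filter_or]
      · exact card_filter_le _ _
      · rw [disjoint_filter]
        intro c hc h2 h3
        rcases hcov w hw w' hw' hww c hc with h4 | h4
        · exact h2.2 h4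
        · exact h3.2 h4
    unfold etaT at n1 n2
    omega
  -- the edges of `S` touch `Z'`
  have h2 : (E S L : ℤ) ≤ NE G Z' + 2 * ∑ v ∈ Z', (nd G (L \ Z') v : ℤ) := by
    have e1 := E_sdiff S hZL
    have e2 : E S (L \ Z') = 0 := by
      unfold E dg
      refine sum_eq_zero fun v hv => ?_
      rw [card_eq_zero, filter_eq_empty_iff]
      intro u hu huv
      obtain ⟨hv1, hv2⟩ := mem_sdiff.1 hv
      obtain ⟨hu1, hu2⟩ := mem_sdiff.1 hu
      rcases hvc v hv1 u hu1 huv with h | h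
      · exact hv2 h
      · exact hu2 h
    have hle : ∀ X ⊆ L, ∀ v ∈ L, dg S X v ≤ nd G X v := by
      intro X hX v hv
      unfold dg nd
      refine card_le_card fun u hu => ?_
      obtain ⟨h3, h4⟩ := mem_filter.1 hu
      exact mem_filter.2 ⟨h3, (S.ne_of_adj h4).symm, hS v hv u (hX h3) h4⟩
    have e3 : ∑ v ∈ Z', dg S L v = ∑ v ∈ Z', dg S (L \ Z') v + E S Z' := by
      unfold E
      rw [← sum_add_distrib]
      exact sum_congr rfl fun v _ => dg_sdiff S hZL v
    have e4 : E S Z' ≤ NE G Z' := sum_le_sum fun v hv => hle Z' hZL v (hZL hv)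
    have e5 : ∑ v ∈ Z', dg S (L \ Z') v ≤ ∑ v ∈ Z', nd G (L \ Z') v :=
      sum_le_sum fun v hv => hle _ sdiff_subset v (hZL hv)
    have e6 : E S L ≤ NE G Z' + 2 * ∑ v ∈ Z', nd G (L \ Z') v := by omega
    exact_mod_cast e6
  have h3 : 0 ≤ ∑ v ∈ Z', etaT G r C (H ∪ L) v := sum_nonneg fun v hv => (mem_filter.1 hv).2
  linarith

end Thr

end Pool.Agent.Lib.MP_f04ccf_co
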