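import Mathlib

/-!
MP_f04ccf_co, TEXT D, regime H, rows `z ≠ 0`: **any number of thirds, one letter** (helper12, note 19081).

Letters: `c = R - A`, `x` the size of a third row, `p` its column content, `F p = c p + p (d - p)`,
`g x = (x - 1) d + R - x + 1`.

* `RowThr.le_of_F`: `F p ≤ F q`, `2 p ≤ c + d` gives `p ≤ q`;
* `RowThr.conc`: if `g ≤ F (u (A + ·))` at `1` and at `x₁`, then at every `x` between;
* `RowThr.third_le`: `F p ≤ g x` gives `p ≤ u (A + x)`;
* `RowThr.thirds_u`: `∑ x/(A + x) p ≤ u ∑ x` over all thirds;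
* `RowThr.thirds_two`: the largest third apart: `∑ x/(A + x) p ≤ x₁/(A + x₁) p₁ + u (s - x₁)`;
* `RowThr.pair_le`: the two displays: `S ≤ s₁ e + (1 - s₁) p₀` and `S ≤ p₀ + s₁ p₁ + u (s - x₁)`.
-/

set_option autoImplicit false

namespace Pool.Agent.Lib.MP_f04ccf_co

open Finset

namespace RowThr

/-- the column function is increasing up to `(c + d)/2` -/
lemma le_of_F {c d p q : ℝ} (hp : 2 * p ≤ c + d) (h : c * p + p * (d - p) ≤ c * q + q * (d - q)) :
    p ≤ q := by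
  by_contra hcon
  push Not at hcon
  have h1 : 0 < (p - q) * (c + d - p - q) := mul_pos (by linarith) (by linarith)
  nlinarith [h1]

/-- the comparison of two columns is concave in the size of the third -/
lemma conc {R c d A u x x₁ : ℝ} (h1 : 1 ≤ x) (h2 : x ≤ x₁)
    (g1 : R ≤ c * (u * (A + 1)) + u * (A + 1) * (d - u * (A + 1)))
    (g2 : (x₁ - 1) * d + R - x₁ + 1
      ≤ c * (u * (A + x₁)) + u * (A + x₁) * (d - u * (A + x₁))) :
    (x - 1) * d + R - x + 1 ≤ c * (u * (A + x)) + u * (A + x) * (d - u * (A + x)) := by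
  rcases eq_or_lt_of_le (le_trans h1 h2) with h3 | h3
  · have h4 : x = 1 := le_antisymm (by linarith) h1
    subst h4
    linarith
  · have h4 : 0 ≤ (x₁ - x) * (c * (u * (A + 1)) + u * (A + 1) * (d - u * (A + 1)) - R) :=
      mul_nonneg (by linarith) (by linarith)
    have h5 : 0 ≤ (x - 1) * (c * (u * (A + x₁)) + u * (A + x₁) * (d - u * (A + x₁))
        - ((x₁ - 1) * d + R - x₁ + 1)) := mul_nonneg (by linarith) (by linarith)
    have h6 : 0 ≤ u ^ 2 * ((x - 1) * (x₁ - x) * (x₁ - 1)) := by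
      have := mul_nonneg (mul_nonneg (sub_nonneg.2 h1) (sub_nonneg.2 h2)) (sub_nonneg.2 h3.le)
      positivity
    have h7 : (x₁ - 1) * (c * (u * (A + x)) + u * (A + x) * (d - u * (A + x))
        - ((x - 1) * d + R - x + 1))
        = (x₁ - x) * (c * (u * (A + 1)) + u * (A + 1) * (d - u * (A + 1)) - R)
          + (x - 1) * (c * (u * (A + x₁)) + u * (A + x₁) * (d - u * (A + x₁))
            - ((x₁ - 1) * d + R - x₁ + 1))
          + u ^ 2 * ((x - 1) * (x₁ - x) * (x₁ - 1)) := by ring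
    have h8 : 0 ≤ (x₁ - 1) * (c * (u * (A + x)) + u * (A + x) * (d - u * (A + x))
        - ((x - 1) * d + R - x + 1)) := by
      rw [h7]
      linarith
    have h9 := nonneg_of_mul_nonneg_right h8 (by linarith : (0 : ℝ) < x₁ - 1)
    linarith

/-- **one third**: its column content is at most `u (A + x)` -/
lemma third_le {R c d A u x x₁ p : ℝ} (h1 : 1 ≤ x) (h2 : x ≤ x₁) (hp : 2 * p ≤ c + d)
    (hF : c * p + p * (d - p) ≤ (x - 1) * d + R - x + 1)
    (g1 : R ≤ c * (u * (A + 1)) + u * (A + 1) * (d - u * (A + 1)))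
    (g2 : (x₁ - 1) * d + R - x₁ + 1
      ≤ c * (u * (A + x₁)) + u * (A + x₁) * (d - u * (A + x₁))) :
    p ≤ u * (A + x) :=
  le_of_F hp (hF.trans (conc h1 h2 g1 g2))

/-- **all thirds**: the weighted contents are at most `u` times the mass -/
theorem thirds_u {κ : Type*} {T : Finset κ} {x p : κ → ℝ} {R c d A u x₁ : ℝ} (hA : 0 < A)
    (h1 : ∀ i ∈ T, 1 ≤ x i) (h2 : ∀ i ∈ T, x i ≤ x₁) (hp : ∀ i ∈ T, 2 * p i ≤ c + d)
    (hF : ∀ i ∈ T, c * p i + p i * (d - p i) ≤ (x i - 1) * d + R - x i + 1)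
    (g1 : R ≤ c * (u * (A + 1)) + u * (A + 1) * (d - u * (A + 1)))
    (g2 : (x₁ - 1) * d + R - x₁ + 1
      ≤ c * (u * (A + x₁)) + u * (A + x₁) * (d - u * (A + x₁))) :
    ∑ i ∈ T, x i / (A + x i) * p i ≤ u * ∑ i ∈ T, x i := by
  rw [mul_sum]
  refine sum_le_sum fun i hi => ?_
  have h3 := third_le (h1 i hi) (h2 i hi) (hp i hi) (hF i hi) g1 g2
  have h4 : 0 < A + x i := by linarith [h1 i hi]
  have h5 : 0 ≤ x i / (A + x i) := div_nonneg (by linarith [h1 i hi]) h4.le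
  calc x i / (A + x i) * p i ≤ x i / (A + x i) * (u * (A + x i)) :=
        mul_le_mul_of_nonneg_left h3 h5
    _ = u * x i := by field_simp

/-- **the largest third apart** -/
theorem thirds_two {κ : Type*} [DecidableEq κ] {T : Finset κ} {x p : κ → ℝ}
    {R c d A u s : ℝ} {j : κ} (hA : 0 < A) (hu : 0 ≤ u) (hj : j ∈ T)
    (h1 : ∀ i ∈ T, 1 ≤ x i) (h2 : ∀ i ∈ T, x i ≤ x j) (hs : ∑ i ∈ T, x i ≤ s)
    (hp : ∀ i ∈ T, 2 * p i ≤ c + d)
    (hF : ∀ i ∈ T, c * p i + p i * (d - p i) ≤ (x i - 1) * d + R - x i + 1)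
    (g1 : R ≤ c * (u * (A + 1)) + u * (A + 1) * (d - u * (A + 1)))
    (g2 : (x j - 1) * d + R - x j + 1
      ≤ c * (u * (A + x j)) + u * (A + x j) * (d - u * (A + x j))) :
    ∑ i ∈ T, x i / (A + x i) * p i ≤ x j / (A + x j) * p j + u * (s - x j) := by
  have e1 : ∀ f : κ → ℝ, ∑ i ∈ T, f i = f j + ∑ i ∈ T.erase j, f i := fun f =>
    (add_sum_erase T f hj).symm
  have h3 := thirds_u (T := T.erase j) hA (fun i hi => h1 i (mem_of_mem_erase hi))
    (fun i hi => h2 i (mem_of_mem_erase hi)) (fun i hi => hp i (mem_of_mem_erase hi))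
    (fun i hi => hF i (mem_of_mem_erase hi)) g1 g2
  have h4 : ∑ i ∈ T.erase j, x i ≤ s - x j := by
    have := e1 x
    linarith
  have h5 := mul_le_mul_of_nonneg_left h4 hu
  rw [e1]
  linarith

/-- **the two displays** (81's (I) and (II), any number of thirds): `E i` the shares' units of the third `i`
(`S ≤ E₀ + ∑ x/(A + x) E`), `e = E₀ + ∑ E` all units -/
theorem pair_le {κ : Type*} [DecidableEq κ] {T : Finset κ} {x E : κ → ℝ}
    {R c d A u s S E₀ e : ℝ} {j : κ} (hA : 0 < A) (hu : 0 ≤ u) (hj : j ∈ T)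
    (h1 : ∀ i ∈ T, 1 ≤ x i) (h2 : ∀ i ∈ T, x i ≤ x j) (hs : ∑ i ∈ T, x i ≤ s)
    (hE : ∀ i ∈ T, 0 ≤ E i) (hp : ∀ i ∈ T, 2 * E i ≤ c + d)
    (hF : ∀ i ∈ T, c * E i + E i * (d - E i) ≤ (x i - 1) * d + R - x i + 1)
    (g1 : R ≤ c * (u * (A + 1)) + u * (A + 1) * (d - u * (A + 1)))
    (g2 : (x j - 1) * d + R - x j + 1
      ≤ c * (u * (A + x j)) + u * (A + x j) * (d - u * (A + x j)))
    (he : E₀ + ∑ i ∈ T, E i ≤ e) (hS : S ≤ E₀ + ∑ i ∈ T, x i / (A + x i) * E i) :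
    S ≤ x j / (A + x j) * e + (1 - x j / (A + x j)) * E₀
    ∧ S ≤ E₀ + x j / (A + x j) * E j + u * (s - x j) := by
  have hx := h1 j hj
  refine ⟨?_, ?_⟩
  · have h3 : ∑ i ∈ T, x i / (A + x i) * E i ≤ x j / (A + x j) * ∑ i ∈ T, E i := by
      rw [mul_sum]
      refine sum_le_sum fun i hi => mul_le_mul_of_nonneg_right ?_ (hE i hi)
      have h4 := h1 i hi
      have h5 := h2 i hi
      rw [div_le_div_iff₀ (by linarith) (by linarith)]
      nlinarith
    have h6 : 0 ≤ x j / (A + x j) := div_nonneg (by linarith) (by linarith)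
    have h7 := mul_le_mul_of_nonneg_left (show ∑ i ∈ T, E i ≤ e - E₀ by linarith) h6
    nlinarith
  · have h3 := thirds_two hA hu hj h1 h2 hs hp hF g1 g2
    linarith

end RowThr

end Pool.Agent.Lib.MP_f04ccf_co
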