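import Pool.Agent.Lib.MP_f04ccf_co.M.MPr

/-!
MP_f04ccf_co: the top level `k = r`, for all `r >= 3`, without Brooks' theorem.
-/

set_option autoImplicit false

namespace Pool.Agent.Lib.MP_f04ccf_co.Mn

open Finset

attribute [local instance] Classical.propDecidable

variable {V : Type*} {r : ℕ} {c : V → V → Fin r} (hc : ∀ x y, c x y = c y x)

/-- no subset of `U` of size at least `l r + 1` has independence number at most `l`, `l < k` -/
def Her (G : SimpleGraph V) (r k : ℕ) (U : Finset V) : Prop :=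
  ∀ W ⊆ U, ∀ l < k, l * r + 1 ≤ W.card → ¬ AlphaLe G W l

/-- the situation at the top level -/
structure TopHyp (hc : ∀ x y, c x y = c y x) (U : Finset V) : Prop where
  hs : Sees c
  hr : 3 ≤ r
  hU : U.card = r ^ 2 + 1
  reg : ∀ k : Fin r, ∀ v ∈ U, dg (col c hc k) U v = r
  her : ∀ k : Fin r, Her (col c hc k) r r U

lemma sq_eq2 {r : ℕ} (hr : 2 ≤ r) : r ^ 2 = (r - 2) * r + 2 * r := by
  obtain ⟨q, rfl⟩ : ∃ q, r = q + 2 := ⟨r - 2, by omega⟩
  simp only [Nat.add_sub_cancel]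
  ring

section U

variable {hc} {U : Finset V}

lemma regular (H : TopHyp hc U) (k : Fin r) : ∀ v ∈ U, dg (col c hc k) U v = r := H.reg k

lemma E_U (H : TopHyp hc U) (k : Fin r) : E (col c hc k) U = r * (r ^ 2 + 1) := by
  unfold E
  rw [sum_congr rfl (fun v hv => H.reg k v hv), sum_const, H.hU, smul_eq_mul]
  ring

lemma line_exists (H : TopHyp hc U) (k : Fin r) :
    ∃ K ⊆ U, Clq (col c hc k) K ∧ K.card = r := by
  have hs := H.hs
  have hr := H.hr
  have hU := H.hU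
  by_contra hcon
  push Not at hcon
  have hω : ∀ K : Finset V, K ⊆ U → Clq (col c hc k) K → K.card ≤ r - 1 := by
    intro K hK hKq
    by_contra hlt
    obtain ⟨K', hK', hKc'⟩ := exists_subset_card_eq (show r ≤ K.card by omega)
    exact hcon K' (hK'.trans hK) (fun x hx y hy => hKq x (hK' hx) y (hK' hy)) hKc'
  have hE := E_U H k
  have hm := mprime (col c hc k) (r - 1) U.card U rfl r (alpha_le hc hs k U) hω
  have e2 : ((r - 1 : ℕ) : ℤ) = r - 1 := by omega
  have e3 : (U.card : ℤ) = r ^ 2 + 1 := by rw [hU]; push_cast; rfl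
  have e4 : (3 : ℤ) ≤ r := by exact_mod_cast hr
  rw [hE, e2, e3] at hm
  push_cast at hm
  have hr3 : r = 3 := by
    by_contra hne
    have e5 : (4 : ℤ) ≤ r := by
      have : 4 ≤ r := by omega
      exact_mod_cast this
    nlinarith
  -- r = 3
  obtain ⟨v, hv⟩ : U.Nonempty := card_pos.1 (by omega)
  set G := col c hc k with hG
  have h1 : AlphaLe G (U \ nb G U v) 2 := by
    refine AlphaLe.sdiff_nb G hv ?_
    exact (alpha_le hc hs k U).le _ (by omega)
  have h2 : (nb G U v).card = 4 := by rw [nb_card G hv, H.reg k v hv]; omega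
  have h3 := card_sdiff_add_card_eq_card (nb_sub G U v)
  have hU10 : U.card = 10 := by rw [hU, hr3]; norm_num
  have h4 : (U \ nb G U v).card = 6 := by omega
  have hω2 : ∀ K ⊆ U, Clq G K → K.card ≤ 2 := fun K hK hq => by
    have := hω K hK hq
    omega
  have h5 := mprime G 2 _ (U \ nb G U v) rfl 2 h1 (fun K hK hq => hω2 K (hK.trans sdiff_subset) hq)
  rw [h4] at h5
  have h6 : E G (U \ nb G U v) ≤ 6 * 2 := by
    unfold E
    rw [← h4, ← smul_eq_mul, ← sum_const]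
    refine sum_le_sum fun z hz => ?_
    refine h1 _ (filter_subset _ _) fun x hx y hy hxy => ?_
    have hx' := mem_filter.1 hx
    have hy' := mem_filter.1 hy
    have h7 : ({z, x, y} : Finset V).card = 3 := by
      rw [card_insert_of_notMem, card_insert_of_notMem, card_singleton]
      · rw [mem_singleton]; exact hxy.ne
      · rw [mem_insert, mem_singleton]
        rintro (h | h)
        · exact hx'.2.ne h
        · exact hy'.2.ne h
    have h8 : Clq G {z, x, y} := by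
      intro a ha b hb hab
      simp only [mem_insert, mem_singleton] at ha hb
      rcases ha with rfl | rfl | rfl <;> rcases hb with rfl | rfl | rfl
      · exact absurd rfl hab
      · exact hx'.2
      · exact hy'.2
      · exact hx'.2.symm
      · exact absurd rfl hab
      · exact hxy
      · exact hy'.2.symm
      · exact hxy.symm
      · exact absurd rfl hab
    have h9 := hω2 {z, x, y} (by
      intro a ha
      simp only [mem_insert, mem_singleton] at ha
      rcases ha with rfl | rfl | rfl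
      · exact (mem_sdiff.1 hz).1
      · exact (mem_sdiff.1 hx'.1).1
      · exact (mem_sdiff.1 hy'.1).1) h8
    omega
  have h7 : (E G (U \ nb G U v) : ℤ) ≤ 12 := by exact_mod_cast h6
  norm_num at h5
  linarith

/-- the outer neighbourhood of `K` -/
noncomputable def outer (G : SimpleGraph V) (U K : Finset V) : Finset V :=
  (U \ K).filter (fun z => ∃ v ∈ K, G.Adj v z)

lemma dg_out (H : TopHyp hc U) (k : Fin r)
    {K : Finset V} (hK : K ⊆ U) (hq : Clq (col c hc k) K) (hKc : K.card = r) {v : V} (hv : v ∈ K) :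
    dg (col c hc k) (U \ K) v = 1 := by
  have hs := H.hs
  have hr := H.hr
  have hU := H.hU
  have h1 := dg_sdiff (col c hc k) hK v
  rw [regular H k v (hK hv), dg_clq _ hq hv, hKc] at h1
  omega

lemma uniq (H : TopHyp hc U) (k : Fin r)
    {K : Finset V} (hK : K ⊆ U) (hq : Clq (col c hc k) K) (hKc : K.card = r)
    {I : Finset V} (hI : I ⊆ U \ K) (hi : Ind (col c hc k) I) (hIc : I.card = r) :
    I = outer (col c hc k) U K := by
  have hs := H.hs
  have hr := H.hr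
  have hU := H.hU
  set G := col c hc k with hG
  have hr2 : 2 ≤ r := by omega
  have h1 : ∀ v ∈ K, ∃ x ∈ I, G.Adj v x := by
    intro v hv
    by_contra hcon
    push Not at hcon
    have hvn : v ∉ I := fun h => (mem_sdiff.1 (hI h)).2 hv
    have := alpha_le hc hs k (insert v I) (insert v I) (Subset.refl _) (Ind.insert_of G hi hcon)
    rw [card_insert_of_notMem hvn, hIc] at this
    omega
  have h2 : ∀ x ∈ I, dg G K x ≤ 1 := fun x hx =>
    line_nbr hc hs hr2 k hq hKc (mem_sdiff.1 (hI hx)).2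
  have h3 : ∀ v ∈ K, 1 ≤ dg G I v := by
    intro v hv
    obtain ⟨x, hx, hvx⟩ := h1 v hv
    exact card_pos.2 ⟨x, mem_filter.2 ⟨hx, hvx⟩⟩
  have h4 : ∑ v ∈ K, 1 ≤ ∑ v ∈ K, dg G I v := sum_le_sum h3
  rw [dg_comm, ← card_eq_sum_ones, hKc] at h4
  have h5 : ∑ x ∈ I, dg G K x = ∑ x ∈ I, 1 := by
    refine le_antisymm (sum_le_sum h2) ?_
    rw [← card_eq_sum_ones, hIc]; exact h4
  have h6 := (sum_eq_sum_iff_of_le h2).1 h5
  refine Subset.antisymm ?_ ?_
  · intro x hx
    refine mem_filter.2 ⟨hI hx, ?_⟩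
    have h7 := h6 x hx
    have h8 : 0 < dg G K x := by omega
    obtain ⟨v, hv⟩ := card_pos.1 h8
    rw [mem_filter] at hv
    exact ⟨v, hv.1, hv.2.symm⟩
  · intro z hz
    obtain ⟨hz1, v, hv, hvz⟩ := mem_filter.1 hz
    obtain ⟨x, hx, hvx⟩ := h1 v hv
    have h7 := dg_out H k hK hq hKc hv
    have h8 : z = x := by
      refine card_le_one.1 (le_of_eq h7) z (mem_filter.2 ⟨hz1, hvz⟩) x (mem_filter.2 ⟨hI hx, hvx⟩)
    rw [h8]; exact hx

lemma two_lines (H : TopHyp hc U) (j : Fin r) :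
    ∃ K₁ K₂ : Finset V, K₁ ⊆ U ∧ K₂ ⊆ U ∧ Clq (col c hc j) K₁ ∧ Clq (col c hc j) K₂ ∧
      K₁.card = r ∧ K₂.card = r ∧ Disjoint K₁ K₂ := by
  have hs := H.hs
  have hr := H.hr
  have hU := H.hU
  obtain ⟨i, hij⟩ := exists_other (show 2 ≤ r by omega) j
  obtain ⟨L, hL, hLq, hLc⟩ := line_exists H i
  set G := col c hc j with hG
  have hLi : Ind G L := clq_ind hc hij.symm hLq
  set S1 := (U \ L).filter (fun z => dg G L z = 1) with hS1
  set C : V → Finset V := fun u => insert u (S1.filter (fun z => G.Adj u z)) with hC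
  have hS1L : ∀ z ∈ S1, z ∉ L := fun z hz => (mem_sdiff.1 (mem_filter.1 hz).1).2
  have hS1U : ∀ z ∈ S1, z ∈ U := fun z hz => (mem_sdiff.1 (mem_filter.1 hz).1).1
  have hCc : ∀ u ∈ L, (C u).card = dg G S1 u + 1 := by
    intro u hu
    simp only [hC]
    rw [card_insert_of_notMem]
    · rfl
    · intro h; exact hS1L u (mem_filter.1 h).1 hu
  have hone : ∀ z ∈ S1, ∀ u ∈ L, ∀ w ∈ L, G.Adj u z → G.Adj w z → u = w := by
    intro z hz u hu w hw h1 h2
    have := (mem_filter.1 hz).2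
    exact card_le_one.1 (le_of_eq this) u (mem_filter.2 ⟨hu, h1.symm⟩) w (mem_filter.2 ⟨hw, h2.symm⟩)
  have hCq : ∀ u ∈ L, Clq G (C u) := by
    intro u hu z hz z' hz' hne
    simp only [hC, mem_insert, mem_filter] at hz hz'
    rcases hz with rfl | ⟨hz1, hz2⟩
    · rcases hz' with rfl | ⟨hz1', hz2'⟩
      · exact absurd rfl hne
      · exact hz2'
    · rcases hz' with rfl | ⟨hz1', hz2'⟩
      · exact hz2.symm
      · by_contra hadj
        have hi0 : Ind G (L.erase u) := fun a ha b hb => hLi a (mem_erase.1 ha).2 b (mem_erase.1 hb).2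
        have hi1 : Ind G (insert z (L.erase u)) := by
          refine Ind.insert_of G hi0 fun w hw hzw => ?_
          exact (mem_erase.1 hw).1 (hone z hz1 w (mem_erase.1 hw).2 u hu hzw.symm hz2)
        have hi2 : Ind G (insert z' (insert z (L.erase u))) := by
          refine Ind.insert_of G hi1 fun w hw hzw => ?_
          rw [mem_insert] at hw
          rcases hw with rfl | hw
          · exact hadj hzw.symm
          · exact (mem_erase.1 hw).1 (hone z' hz1' w (mem_erase.1 hw).2 u hu hzw.symm hz2')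
        have h := alpha_le hc hs j _ _ (Subset.refl _) hi2
        rw [card_insert_of_notMem, card_insert_of_notMem, card_erase_of_mem hu, hLc] at h
        · omega
        · intro h'; exact hS1L z hz1 (mem_erase.1 h').2
        · intro h'
          rw [mem_insert] at h'
          rcases h' with h' | h'
          · exact hne h'.symm
          · exact hS1L z' hz1' (mem_erase.1 h').2
  have hCle : ∀ u ∈ L, (C u).card ≤ r := fun u hu => clq_card_le hc hs (by omega) j (hCq u hu)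
  -- count
  have hsumC : ∑ u ∈ L, (C u).card = r + S1.card := by
    have e1 : ∑ z ∈ S1, dg G L z = S1.card := by
      rw [card_eq_sum_ones]
      exact sum_congr rfl (fun z hz => (mem_filter.1 hz).2)
    have e2 : ∑ u ∈ L, (C u).card = ∑ u ∈ L, dg G S1 u + ∑ u ∈ L, 1 := by
      rw [← sum_add_distrib]
      exact sum_congr rfl hCc
    rw [e2, dg_comm, e1, ← card_eq_sum_ones, hLc, add_comm]
  have hUL := card_sdiff_add_card_eq_card hL
  have hdL : ∀ z ∈ U \ L, 1 ≤ dg G L z := by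
    intro z hz
    by_contra hlt
    have h0 : dg G L z = 0 := by omega
    have h1 : ∀ x ∈ L, ¬ G.Adj z x := by
      intro x hx hzx
      have : 0 < dg G L z := card_pos.2 ⟨x, mem_filter.2 ⟨hx, hzx⟩⟩
      omega
    have h := alpha_le hc hs j _ _ (Subset.refl _) (Ind.insert_of G hLi h1)
    rw [card_insert_of_notMem (mem_sdiff.1 hz).2, hLc] at h
    omega
  have hsumL : ∑ z ∈ U \ L, dg G L z = r * r := by
    rw [dg_comm]
    have : ∀ u ∈ L, dg G (U \ L) u = r := by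
      intro u hu
      have h1 := dg_sdiff G hL u
      have h2 : dg G L u = 0 := by
        unfold dg
        rw [card_eq_zero, filter_eq_empty_iff]
        exact fun x hx => hLi u hu x hx
      rw [regular H j u (hL hu), h2] at h1
      omega
    rw [sum_congr rfl this, sum_const, hLc, smul_eq_mul]
  have hS1c : 2 * (U \ L).card ≤ r * r + S1.card := by
    rw [← hsumL, hS1, card_filter, ← sum_add_distrib, mul_comm, ← smul_eq_mul, ← sum_const]
    refine sum_le_sum fun z hz => ?_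
    have := hdL z hz
    split_ifs <;> omega
  set A := L.filter (fun u => (C u).card = r) with hA
  have hAc : ∑ u ∈ L, (C u).card ≤ r * (r - 1) + A.card := by
    rw [hA, card_filter, ← hLc, ← smul_eq_mul (L.card), ← sum_const, ← sum_add_distrib, hLc]
    refine sum_le_sum fun u hu => ?_
    have := hCle u hu
    split_ifs <;> omega
  have hA2 : 1 < A.card := by
    have h3 := sq_eq2 (show 2 ≤ r by omega)
    have h4 : r ^ 2 = r * r := by ring
    have h5 : r * (r - 1) + r = r * r := by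
      obtain ⟨q, rfl⟩ : ∃ q, r = q + 1 := ⟨r - 1, by omega⟩
      simp only [Nat.add_sub_cancel]
      ring
    omega
  obtain ⟨u, hu, w, hw, huw⟩ := one_lt_card.1 hA2
  rw [hA, mem_filter] at hu hw
  have hCU : ∀ u ∈ L, C u ⊆ U := by
    intro u hu x hx
    simp only [hC, mem_insert, mem_filter] at hx
    rcases hx with rfl | hx
    · exact hL hu
    · exact hS1U x hx.1
  refine ⟨C u, C w, hCU u hu.1, hCU w hw.1, hCq u hu.1, hCq w hw.1, hu.2, hw.2, ?_⟩
  rw [disjoint_left]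
  intro x hx hx'
  simp only [hC, mem_insert, mem_filter] at hx hx'
  rcases hx with rfl | hx
  · rcases hx' with rfl | hx'
    · exact huw rfl
    · exact hS1L x hx'.1 hu.1
  · rcases hx' with rfl | hx'
    · exact hS1L x hx.1 hw.1
    · exact huw (hone x hx.1 u hu.1 w hw.1 hx.2 hx'.2)

lemma pair_ex (H : TopHyp hc U) (k : Fin r)
    {K₁ K₂ : Finset V} (hK₁ : K₁ ⊆ U) (hK₂ : K₂ ⊆ U)
    (hc₁ : K₁.card = r) (hc₂ : K₂.card = r) (hd : Disjoint K₁ K₂) :
    ∃ J ⊆ (U \ K₁) \ K₂, Ind (col c hc k) J ∧ J.card = r - 1 := by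
  have hr := H.hr
  have hU := H.hU
  by_contra hcon
  push Not at hcon
  have hK₂' : K₂ ⊆ U \ K₁ := fun x hx => mem_sdiff.2 ⟨hK₂ hx, fun h => disjoint_left.1 hd h hx⟩
  refine H.her k ((U \ K₁) \ K₂) (sdiff_subset.trans sdiff_subset) (r - 2) (by omega) ?_ ?_
  · have h1 := card_sdiff_add_card_eq_card hK₁
    have h2 := card_sdiff_add_card_eq_card hK₂'
    have h3 := sq_eq2 (show 2 ≤ r by omega)
    omega
  · intro I hI hi
    by_contra hlt
    obtain ⟨J, hJ, hJc⟩ := exists_subset_card_eq (show r - 1 ≤ I.card by omega)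
    exact hcon J (hJ.trans hI) (fun x hx y hy => hi x (hJ hx) y (hJ hy)) hJc

lemma pair_eq (H : TopHyp hc U) (k : Fin r)
    {K₁ K₂ : Finset V} (hK₁ : K₁ ⊆ U) (hK₂ : K₂ ⊆ U) (hq₁ : Clq (col c hc k) K₁)
    (hq₂ : Clq (col c hc k) K₂) (hc₁ : K₁.card = r) (hc₂ : K₂.card = r) (hd : Disjoint K₁ K₂)
    {J : Finset V} (hJ : J ⊆ (U \ K₁) \ K₂) (hi : Ind (col c hc k) J) (hJc : J.card = r - 1) :
    ∃ v ∈ K₂, insert v J = outer (col c hc k) U K₁ := by
  have hs := H.hs
  have hr := H.hr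
  have hU := H.hU
  set G := col c hc k with hG
  have h1 : ∑ v ∈ K₂, dg G J v ≤ r - 1 := by
    rw [dg_comm, ← hJc, card_eq_sum_ones]
    refine sum_le_sum fun x hx => line_nbr hc hs (by omega) k hq₂ hc₂ ?_
    exact (mem_sdiff.1 (hJ hx)).2
  have h2 : ∃ v ∈ K₂, dg G J v = 0 := by
    by_contra hcon
    push Not at hcon
    have : ∑ v ∈ K₂, 1 ≤ ∑ v ∈ K₂, dg G J v :=
      sum_le_sum fun v hv => Nat.one_le_iff_ne_zero.2 (hcon v hv)
    rw [← card_eq_sum_ones, hc₂] at this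
    omega
  obtain ⟨v, hv, hv0⟩ := h2
  refine ⟨v, hv, ?_⟩
  have hvJ : ∀ x ∈ J, ¬ G.Adj v x := by
    intro x hx hvx
    unfold dg at hv0
    rw [card_eq_zero, filter_eq_empty_iff] at hv0
    exact hv0 hx hvx
  have hvn : v ∉ J := fun h => (mem_sdiff.1 (hJ h)).2 hv
  refine uniq H k hK₁ hq₁ hc₁ ?_ (Ind.insert_of G hi hvJ)
    (by rw [card_insert_of_notMem hvn, hJc]; omega)
  intro x hx
  rw [mem_insert] at hx
  rcases hx with rfl | hx
  · exact mem_sdiff.2 ⟨hK₂ hv, fun h => disjoint_left.1 hd h hv⟩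
  · exact (mem_sdiff.1 (hJ hx)).1

lemma pair_eq' (H : TopHyp hc U) (k : Fin r)
    {K₁ K₂ : Finset V} (hK₁ : K₁ ⊆ U) (hK₂ : K₂ ⊆ U) (hq₁ : Clq (col c hc k) K₁)
    (hq₂ : Clq (col c hc k) K₂) (hc₁ : K₁.card = r) (hc₂ : K₂.card = r) (hd : Disjoint K₁ K₂)
    {J : Finset V} (hJ : J ⊆ (U \ K₁) \ K₂) (hi : Ind (col c hc k) J) (hJc : J.card = r - 1) :
    J = outer (col c hc k) U K₁ \ K₂ := by
  have hs := H.hs
  have hr := H.hr
  have hU := H.hU
  obtain ⟨v, hv, he⟩ := pair_eq H k hK₁ hK₂ hq₁ hq₂ hc₁ hc₂ hd hJ hi hJc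
  rw [← he]
  ext x
  rw [mem_sdiff, mem_insert]
  constructor
  · intro hx; exact ⟨Or.inr hx, (mem_sdiff.1 (hJ hx)).2⟩
  · rintro ⟨rfl | hx, h⟩
    · exact absurd hv h
    · exact hx

lemma no_three (H : TopHyp hc U) (k : Fin r)
    {K₁ K₂ K₃ : Finset V} (hK₁ : K₁ ⊆ U) (hK₂ : K₂ ⊆ U) (hK₃ : K₃ ⊆ U) (hq₁ : Clq (col c hc k) K₁)
    (hq₂ : Clq (col c hc k) K₂) (hq₃ : Clq (col c hc k) K₃) (hc₁ : K₁.card = r) (hc₂ : K₂.card = r)
    (hc₃ : K₃.card = r) (h12 : Disjoint K₁ K₂) (h13 : Disjoint K₁ K₃) (h23 : Disjoint K₂ K₃) :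
    False := by
  have hs := H.hs
  have hr := H.hr
  have hU := H.hU
  set G := col c hc k with hG
  obtain ⟨J, hJ, hJi, hJc⟩ := pair_ex H k hK₁ hK₂ hc₁ hc₂ h12
  have e1 := pair_eq' H k hK₁ hK₂ hq₁ hq₂ hc₁ hc₂ h12 hJ hJi hJc
  have e2 := pair_eq' H k hK₂ hK₁ hq₂ hq₁ hc₂ hc₁ h12.symm
    (by rw [sdiff_right_comm]; exact hJ) hJi hJc
  obtain ⟨J', hJ', hJi', hJc'⟩ := pair_ex H k hK₁ hK₃ hc₁ hc₃ h13
  obtain ⟨v, hv, he⟩ := pair_eq H k hK₁ hK₃ hq₁ hq₃ hc₁ hc₃ h13 hJ' hJi' hJc'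
  have hv1 : v ∈ outer G U K₁ := by rw [← he]; exact mem_insert_self _ _
  have hvJ : v ∈ J := by
    rw [e1, mem_sdiff]; exact ⟨hv1, fun h => disjoint_left.1 h23 h hv⟩
  have hv2 : v ∈ outer G U K₂ := by
    rw [e2, mem_sdiff] at hvJ; exact hvJ.1
  obtain ⟨-, a, ha, hav⟩ := mem_filter.1 hv1
  obtain ⟨-, b, hb, hbv⟩ := mem_filter.1 hv2
  have h1 := dg_out H k hK₃ hq₃ hc₃ hv
  have h2 : a = b := by
    refine card_le_one.1 (le_of_eq h1) a (mem_filter.2 ⟨?_, hav.symm⟩) b (mem_filter.2 ⟨?_, hbv.symm⟩)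
    · exact mem_sdiff.2 ⟨hK₁ ha, fun h => disjoint_left.1 h13 ha h⟩
    · exact mem_sdiff.2 ⟨hK₂ hb, fun h => disjoint_left.1 h23 hb h⟩
  rw [h2] at ha
  exact disjoint_left.1 h12 ha hb

include hc in
theorem top (H : TopHyp hc U) : False := by
  have hs := H.hs
  have hr := H.hr
  have hU := H.hU
  have hr0 : 0 < r := by omega
  set k : Fin r := ⟨0, hr0⟩ with hk
  set G := col c hc k with hG
  obtain ⟨K₁, K₂, hK₁, hK₂, hq₁, hq₂, hc₁, hc₂, h12⟩ := two_lines H k
  obtain ⟨J, hJ, hJi, hJc⟩ := pair_ex H k hK₁ hK₂ hc₁ hc₂ h12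
  have e1 := pair_eq' H k hK₁ hK₂ hq₁ hq₂ hc₁ hc₂ h12 hJ hJi hJc
  have e2 := pair_eq' H k hK₂ hK₁ hq₂ hq₁ hc₂ hc₁ h12.symm
    (by rw [sdiff_right_comm]; exact hJ) hJi hJc
  obtain ⟨x, hx⟩ : J.Nonempty := card_pos.1 (by omega)
  set Z := (U \ K₁) \ K₂ with hZ
  have hK₂' : K₂ ⊆ U \ K₁ := fun x hx => mem_sdiff.2 ⟨hK₂ hx, fun h => disjoint_left.1 h12 h hx⟩
  have hxZ : x ∈ Z := hJ hx
  have hZc : Z.card = (r - 2) * r + 1 := by
    have h1 := card_sdiff_add_card_eq_card hK₁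
    have h2 := card_sdiff_add_card_eq_card hK₂'
    rw [← hZ] at h2
    have h3 := sq_eq2 (show 2 ≤ r by omega)
    omega
  set S := Z.erase x with hS
  have hSc : S.card = (r - 2) * r := by rw [hS, card_erase_of_mem hxZ, hZc]; rfl
  have hSZ : S ⊆ Z := erase_subset _ _
  have hα : AlphaLe G S (r - 2) := by
    intro I hI hi
    by_contra hlt
    obtain ⟨J', hJ', hJc'⟩ := exists_subset_card_eq (show r - 1 ≤ I.card by omega)
    have e3 := pair_eq' H k hK₁ hK₂ hq₁ hq₂ hc₁ hc₂ h12 ((hJ'.trans hI).trans hSZ)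
      (fun x hx y hy => hi x (hJ' hx) y (hJ' hy)) hJc'
    rw [← e1] at e3
    rw [← e3] at hx
    exact (mem_erase.1 (hI (hJ' hx))).1 rfl
  have hω : ∀ K : Finset V, K ⊆ S → Clq G K → K.card ≤ r - 1 := by
    intro K hK hKq
    by_contra hlt
    obtain ⟨K', hK', hKc'⟩ := exists_subset_card_eq (show r ≤ K.card by omega)
    have hsub : K' ⊆ Z := (hK'.trans hK).trans hSZ
    refine no_three H k hK₁ hK₂ (fun y hy => (mem_sdiff.1 (mem_sdiff.1 (hsub hy)).1).1)
      hq₁ hq₂ (fun x hx y hy => hKq x (hK' hx) y (hK' hy)) hc₁ hc₂ hKc' h12 ?_ ?_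
    · rw [disjoint_right]; intro y hy; exact (mem_sdiff.1 (mem_sdiff.1 (hsub hy)).1).2
    · rw [disjoint_right]; intro y hy; exact (mem_sdiff.1 (hsub hy)).2
  -- degrees
  have hdeg : ∀ z ∈ Z, dg G Z z + dg G K₁ z + dg G K₂ z = r := by
    intro z hz
    have h1 := dg_sdiff G hK₁ z
    have h2 := dg_sdiff G hK₂' z
    rw [regular H k z (mem_sdiff.1 (mem_sdiff.1 hz).1).1] at h1
    rw [← hZ] at h2
    omega
  have hdeg2 : ∀ z, dg G Z z = dg G S z + dg G {x} z := by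
    intro z
    have := dg_sdiff G (singleton_subset_iff.2 hxZ) z
    rw [sdiff_singleton_eq_erase] at this
    exact this
  have hJ1 : ∀ z ∈ J, 1 ≤ dg G K₁ z := by
    intro z hz
    rw [e1, mem_sdiff] at hz
    obtain ⟨-, v, hv, hvz⟩ := mem_filter.1 hz.1
    exact card_pos.2 ⟨v, mem_filter.2 ⟨hv, hvz.symm⟩⟩
  have hJ2 : ∀ z ∈ J, 1 ≤ dg G K₂ z := by
    intro z hz
    rw [e2, mem_sdiff] at hz
    obtain ⟨-, v, hv, hvz⟩ := mem_filter.1 hz.1
    exact card_pos.2 ⟨v, mem_filter.2 ⟨hv, hvz.symm⟩⟩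
  have hJS : J.erase x ⊆ S := fun z hz => mem_erase.2 ⟨(mem_erase.1 hz).1, hJ (mem_erase.1 hz).2⟩
  have hs1 : r - 2 ≤ ∑ z ∈ S, dg G K₁ z := by
    calc r - 2 = (J.erase x).card := by rw [card_erase_of_mem hx, hJc]; omega
      _ = ∑ z ∈ J.erase x, 1 := card_eq_sum_ones _
      _ ≤ ∑ z ∈ J.erase x, dg G K₁ z := sum_le_sum fun z hz => hJ1 z (mem_erase.1 hz).2
      _ ≤ ∑ z ∈ S, dg G K₁ z := sum_le_sum_of_subset hJS
  have hs2 : r - 2 ≤ ∑ z ∈ S, dg G K₂ z := by
    calc r - 2 = (J.erase x).card := by rw [card_erase_of_mem hx, hJc]; omega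
      _ = ∑ z ∈ J.erase x, 1 := card_eq_sum_ones _
      _ ≤ ∑ z ∈ J.erase x, dg G K₂ z := sum_le_sum fun z hz => hJ2 z (mem_erase.1 hz).2
      _ ≤ ∑ z ∈ S, dg G K₂ z := sum_le_sum_of_subset hJS
  have hs3 : r - 2 ≤ ∑ z ∈ S, dg G {x} z := by
    rw [dg_comm, sum_singleton]
    have h1 := hdeg x hxZ
    have h2 := hdeg2 x
    have h3 : dg G {x} x = 0 := by unfold dg; simp
    have h4 : dg G K₁ x ≤ 1 := line_nbr hc hs (by omega) k hq₁ hc₁
      (mem_sdiff.1 (mem_sdiff.1 hxZ).1).2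
    have h5 : dg G K₂ x ≤ 1 := line_nbr hc hs (by omega) k hq₂ hc₂ (mem_sdiff.1 hxZ).2
    omega
  have hES : E G S + 3 * (r - 2) ≤ r * ((r - 2) * r) := by
    have h1 : E G S + ∑ z ∈ S, dg G K₁ z + ∑ z ∈ S, dg G K₂ z + ∑ z ∈ S, dg G {x} z
        = r * ((r - 2) * r) := by
      unfold E
      rw [← sum_add_distrib, ← sum_add_distrib, ← sum_add_distrib, ← hSc, mul_comm r S.card,
        ← smul_eq_mul, ← sum_const]
      refine sum_congr rfl fun z hz => ?_
      have h1 := hdeg z (hSZ hz)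
      have h2 := hdeg2 z
      omega
    omega
  have hm := mprime G (r - 1) S.card S rfl (r - 2) hα hω
  have hE' : (E G S : ℤ) + 3 * ((r - 2 : ℕ) : ℤ) ≤ r * (((r - 2) * r : ℕ) : ℤ) := by exact_mod_cast hES
  have e1 : ((r - 2 : ℕ) : ℤ) = r - 2 := by omega
  have e2 : ((r - 1 : ℕ) : ℤ) = r - 1 := by omega
  have e3 : (S.card : ℤ) = (r - 2) * r := by rw [hSc]; push_cast; rw [e1]
  rw [e1, e2, e3] at hm
  push_cast at hE'
  rw [e1] at hE'
  have e4 : (3 : ℤ) ≤ r := by exact_mod_cast hr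
  nlinarith


end U

end Pool.Agent.Lib.MP_f04ccf_co.Mn
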