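import Pool.Agent.Lib.MP_f04ccf_co.M.Code
import Pool.Agent.Lib.MP_f04ccf_co.S2Api

/-!
MP_f04ccf_co: note 14780 (a): property (P) on one or two private cliques and a set `J`.
`a_x(v) = nd G (pn G U T x) v`, `t_x = r - 1 - |pn G U T x|`, `2 ne(J) = NE G J`.
-/

set_option autoImplicit false

namespace Pool.Agent.Lib.MP_f04ccf_co.Mn

open Finset

attribute [local instance] Classical.propDecidable

variable {V : Type*} {r : ℕ} {c : V → V → Fin r} {hc : ∀ x y, c x y = c y x}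
  {U0 U : Finset V} {i : Fin r} {k : ℕ}

/-- **(a), first form**: `∑_J a_x ≥ R (|J| - 1 - t_x) - ne(J)` -/
theorem MinU.one_row (hs : Sees c) (h : MinU hc U0 i k U) {T J : Finset V} (hT : T ⊆ U)
    (hi : Ind (col c hc i) T) (hTc : T.card = k) {x : V} (hx : x ∈ T)
    (hJ : Disjoint (pn (col c hc i) U T x) J) :
    2 * (((r : ℤ) - 1) * (J.card - 1 - ((r : ℤ) - 1 - (pn (col c hc i) U T x).card))) ≤
      2 * ∑ v ∈ J, (nd (col c hc i) (pn (col c hc i) U T x) v : ℤ) + NE (col c hc i) J := by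
  have h1 := (PG_col hc hs i).val (pn_clq h.alpha hT hi hTc hx) hJ
  rw [sum_sub_distrib, sum_const, nsmul_eq_mul] at h1
  linarith

/-- **(a), second form**: `∑_J (a_x + a_y) ≥ R (|J| - 1) + e(C_x, C_y) - t_x t_y - ne(J)` -/
theorem MinU.two_rows (hs : Sees c) (h : MinU hc U0 i k U) {T J : Finset V} (hT : T ⊆ U)
    (hi : Ind (col c hc i) T) (hTc : T.card = k) {x y : V} (hx : x ∈ T) (hy : y ∈ T)
    (hxy : x ≠ y) (hJx : Disjoint (pn (col c hc i) U T x) J)
    (hJy : Disjoint (pn (col c hc i) U T y) J) :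
    2 * (((r : ℤ) - 1) * (J.card - 1)) +
        2 * ∑ v ∈ pn (col c hc i) U T y, (dg (col c hc i) (pn (col c hc i) U T x) v : ℤ) ≤
      2 * ∑ v ∈ J, ((nd (col c hc i) (pn (col c hc i) U T x) v : ℤ) +
          nd (col c hc i) (pn (col c hc i) U T y) v) + NE (col c hc i) J +
        2 * ((((r : ℤ) - 1 - (pn (col c hc i) U T x).card)) *
          ((r : ℤ) - 1 - (pn (col c hc i) U T y).card)) := by
  have h1 := (PG_col hc hs i).pair (pn_clq h.alpha hT hi hTc hx) (pn_clq h.alpha hT hi hTc hy)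
    (pn_disj hi hx hy hxy) hJx hJy
  rw [sum_sub_distrib, sum_sub_distrib, sum_const, nsmul_eq_mul] at h1
  rw [sum_add_distrib]
  have e1 : ((r : ℤ) - (pn (col c hc i) U T x).card - 1) *
      ((r : ℤ) - (pn (col c hc i) U T y).card - 1) =
      ((r : ℤ) - 1 - (pn (col c hc i) U T x).card) *
        ((r : ℤ) - 1 - (pn (col c hc i) U T y).card) := by ring
  rw [e1] at h1
  linarith

end Pool.Agent.Lib.MP_f04ccf_co.Mn
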