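import Mathlib

/-!
MP_f04ccf_co, TEXT D (STATE 10, note 17622 (ii)): the row test with the columns of another row and with
dropped parts in d-form.  Letters: a slot with the numbers `s, mu, h = t + s + 1, e` (the kept hosted
items), `d = mu - s`; columns `c` (`c = R - t_y` for one column `y`, `c = 0` for the row test), slope `A`
(`A = R`), `w` used points, `W = mu + w`; `SK`, `SA` the hits of the used and of the kept hosted items,
`sv` the saving, `N` the excess of the kept items, `co` arcs and other costs.

* `TwoD.form`: the raw test in d-form, exact;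
* `TwoD.form_sub`: the same for the sub-slot: `mu - g`, `s - q`, so `d + q - g` (whole parts: the number of
  the dropped parts);
* `TwoD.cell`: content `E` of the cell: `2 (ty - W) (d - E) ≥ 2 (R - t - ty - 1) E + (2 E - W) (W + 1) + ..`;
* `TwoD.cell_full`, `TwoD.cell_pc`: full units (`W = m + 2 k`) and all-PC cells;
* `TwoD.lt_of`, `TwoD.whole`: consequences; `TwoD.tz_share`: tzN in shares.
-/

set_option autoImplicit false

namespace Pool.Agent.Lib.MP_f04ccf_co

namespace TwoD

section Ring

variable {K : Type*} [CommRing K] [LinearOrder K] [IsStrictOrderedRing K]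

/-- **the raw test in d-form**: row test (`c = 0`), row test with columns (`A - c = t_y`) -/
theorem form {A c s mu h t e w SK SA sv N co : K}
    (hT : 2 * (A * s) + 2 * SK + 2 * SA + sv
      ≤ 2 * e + 2 * ((w + c) * (s + 1)) + w * (w - 1) + co)
    (he : 2 * e + mu * (mu + 1) ≤ 2 * (mu * h) + N) (hh : h = t + s + 1) :
    2 * ((A - c - t) * mu) + 2 * SK + 2 * SA + sv - (mu + w) * (mu + w + 1) - 2 * c - N - co
      ≤ 2 * ((A - c - (mu + w)) * (mu - s)) := by
  rw [hh] at he
  nlinarith

/-- **the sub-slot**: `g` the value and `q` the points of the dropped parts, `d = mu - s` of the whole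
row -/
theorem form_sub {A c s mu h t e w SK SA sv N co g q : K}
    (hT : 2 * (A * (s - q)) + 2 * SK + 2 * SA + sv
      ≤ 2 * e + 2 * ((w + c) * (s - q + 1)) + w * (w - 1) + co)
    (he : 2 * e + (mu - g) * (mu - g + 1) ≤ 2 * ((mu - g) * (h - q)) + N) (hh : h = t + s + 1) :
    2 * ((A - c - t) * (mu - g)) + 2 * SK + 2 * SA + sv - (mu - g + w) * (mu - g + w + 1)
        - 2 * c - N - co
      ≤ 2 * ((A - c - (mu - g + w)) * (mu - s + (q - g))) := by
  have h1 := form (t := t) hT he (by rw [hh]; ring)
  have e1 : mu - g - (s - q) = mu - s + (q - g) := by ring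
  rw [e1] at h1
  exact h1

/-- **the cell**: one column `y`, the kept hosted items have the main tail `y`; `E` the content of the cell
(all its items), `mi` all misses, `X` what else is on the left (savings, rectangles, minus excess, minus arcs):
the d-form with `R - t` hits for every unit of `E` -/
theorem cell {R t ty W E d X : K}
    (h : 2 * ((R - t) * E) - W * (W + 1) - 2 * (R - ty) + X ≤ 2 * ((ty - W) * d)) :
    2 * ((R - t - ty - 1) * E) + (2 * E - W) * (W + 1) - 2 * (R - ty) + X
      ≤ 2 * ((ty - W) * (d - E)) := by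
  nlinarith

/-- **full units**: `m` kept hosted units with the main tail `y` (misses `ma`), `k` used units of the host `y`
(two points each, misses `mk`) -/
theorem cell_full {R t ty s mu h e m k ma mk sv N co g q : K}
    (hT : 2 * (R * (s - q)) + 2 * ((R - t) * k - mk) + 2 * ((R - ty) * m - ma) + sv
      ≤ 2 * e + 2 * ((2 * k + (R - ty)) * (s - q + 1)) + 2 * k * (2 * k - 1) + co)
    (he : 2 * e + m * (m + 1) ≤ 2 * (m * (h - q)) + N) (hh : h = t + s + 1) (hm : mu - g = m) :
    2 * ((R - t - ty - 1) * (m + k)) + m * (m + 2 * k + 1) - 2 * (R - ty)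
        + (sv - N - co - 2 * ma - 2 * mk)
      ≤ 2 * ((ty - (m + 2 * k)) * (mu - s + (q - g) - (m + k))) := by
  subst hm
  have h1 := form_sub (t := t) (mu := mu) (g := g) (w := 2 * k) (A := R) (c := R - ty) hT he hh
  have h2 := cell (R := R) (t := t) (ty := ty) (W := mu - g + 2 * k) (E := mu - g + k)
    (d := mu - s + (q - g)) (X := sv - N - co - 2 * ma - 2 * mk) (by
      have e1 : R - (R - ty) - (mu - g + 2 * k) = ty - (mu - g + 2 * k) := by ring
      have e2 : R - (R - ty) - t = ty - t := by ring
      rw [e1, e2] at h1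
      nlinarith)
  have e3 : 2 * (mu - g + k) - (mu - g + 2 * k) = mu - g := by ring
  rw [e3] at h2
  nlinarith

/-- **PC pairs of both homes in joint form** (`rowG`): `a` kept hosted units which are no PC pairs, `b` kept
hosted PC pairs, `k` used units (two points), `p` used PC pairs (one point), `M = b + p`: the excess and the
arcs of the PC pairs cost `M (M + 1)` -/
theorem cell_pc {R t ty d a b k p X : K}
    (h : 2 * ((R - t) * (a + b + k + p)) - (a + b + 2 * k + p) * (a + b + 2 * k + p + 1)
        - 2 * (R - ty) - (b + p) * (b + p + 1) + X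
      ≤ 2 * ((ty - (a + b + 2 * k + p)) * d)) :
    2 * ((R - t - ty - 1) * (a + b + k + p)) + a * (a + 2 * (b + p) + 2 * k + 1)
        + 2 * (k * (b + p)) - 2 * (R - ty) + X
      ≤ 2 * ((ty - (a + b + 2 * k + p)) * (d - (a + b + k + p))) := by
  have h1 := cell (R := R) (t := t) (ty := ty) (W := a + b + 2 * k + p) (E := a + b + k + p) (d := d)
    (X := X - (b + p) * (b + p + 1)) (by linarith)
  nlinarith

end Ring

section Field

variable {K : Type*} [Field K] [LinearOrder K] [IsStrictOrderedRing K]

/-- a test with a positive left side and `W ≥ ty` gives `d < E` -/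
theorem lt_of {ty W E d L : K} (h : L ≤ 2 * ((ty - W) * (d - E))) (hL : 0 < L) (hW : ty ≤ W) :
    d < E := by
  by_contra hcon
  push Not at hcon
  nlinarith [mul_nonneg (sub_nonneg.2 hW) (sub_nonneg.2 hcon)]

/-- **the quotient form**: `d ≥ E + L / (2 (ty - W))` -/
theorem whole {ty W E d L : K} (h : L ≤ 2 * ((ty - W) * (d - E))) (hW : W < ty) :
    E + L / (2 * (ty - W)) ≤ d := by
  have h1 : 0 < 2 * (ty - W) := by linarith
  have h2 : L / (2 * (ty - W)) ≤ d - E := by
    rw [div_le_iff₀ h1]
    linarith
  linarith

/-- the quotient form with any smaller demand `q`: if `2 (ty - W) q ≤ L` then `d ≥ E + q` -/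
theorem whole' {ty W E d L q : K} (h : L ≤ 2 * ((ty - W) * (d - E))) (hW : W < ty)
    (hq : 2 * ((ty - W) * q) ≤ L) : E + q ≤ d := by
  have h1 : 0 < ty - W := by linarith
  have h2 : (ty - W) * q ≤ (ty - W) * (d - E) := by linarith
  have h3 := le_of_mul_le_mul_left h2 h1
  linarith

/-- **tzN in shares, half units included** (exact equivalence): `e` units, `B` the misses of the served ones,
`P` the sum of the surpluses `ρ u = R - A - A u - b u` (`A = t + 1`); the shares of the row (surplus split in
halves) have the sum `e (R - A) - B - P / 2` in units of `R` -/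
theorem tz_share {R A e B P d : K} (hR : 0 < R) (he : 2 * e < R)
    (h : e * (R - A - 2 * e) - B ≤ d * (R - 2 * e))
    (hP : 4 * (e * (e * A + B)) ≤ (R - 2 * e) * P) :
    (e * (R - A) - B - P / 2) / R ≤ d := by
  have h1 : 0 < R - 2 * e := by linarith
  rw [div_le_iff₀ hR]
  have h2 : (R - 2 * e) * (e * (R - A) - B - P / 2) ≤ (R - 2 * e) * (d * R) := by
    have h3 := mul_le_mul_of_nonneg_left h hR.le
    nlinarith
  exact le_of_mul_le_mul_left h2 h1

/-- the same with any split of the surpluses: `Q` the part of the surpluses which the row gives away -/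
theorem tz_share' {R A e B Q d : K} (hR : 0 < R) (he : 2 * e < R)
    (h : e * (R - A - 2 * e) - B ≤ d * (R - 2 * e))
    (hQ : 2 * (e * (e * A + B)) ≤ (R - 2 * e) * Q) :
    (e * (R - A) - B - Q) / R ≤ d := by
  have h1 := tz_share (P := 2 * Q) hR he h (by nlinarith)
  have e1 : e * (R - A) - B - 2 * Q / 2 = e * (R - A) - B - Q := by ring
  rwa [e1] at h1

end Field

end TwoD

end Pool.Agent.Lib.MP_f04ccf_co
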