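import Pool.Agent.Lib.MP_f04ccf_co.M.RowNX
import Pool.Agent.Lib.MP_f04ccf_co.M.RowMS

/-!
MP_f04ccf_co, PLAN W: LEMMA N and LEMMA N+ AT LEVELS (contract `PCon.tN` of helper24): an item which is used
below its full level is replaced by `g + 1` of its members with tail `z` (no misses).

* `WCoreK.tzlXF`, `WCoreK.slkXF`: the theorems `tzlXZ`, `slkXZ` for any families of items at the other homes;
* `cutI`: the item at the level `g`; `Fam.cut`;
* `WCoreK.tzLv`, `WCoreK.slLv`: at levels, any packings with the least number of parts;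
* `WCoreK.tzLvN`, `WCoreK.slLvN`: over the row indices.
-/

set_option autoImplicit false

namespace Pool.Agent.Lib.MP_f04ccf_co

open Finset

attribute [local instance] Classical.propDecidable

section TzF

variable {V : Type*} {G : SimpleGraph V} {Z T : Finset V} {hm : V → V} {r m n p : ℕ}
  {φ : Finset (V × V) → Finset (Finset V) → ℕ}

/-- **LEMMA N, any choice of the other points**, the fewest PC pairs only at the row `z` -/
theorem WCoreK.tzlXF (hp : 2 * r ≤ p) (h : WCoreK G Z T r m n p hm) {B : V → Finset (V × V)}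
    {Ps : V → Finset (Finset V)}
    {Uf : V → Finset (Itm V)}
    (hfam : ∀ x ∈ T, Fam (co G) (cz G Z T hm) (hz G Z T hm) (tlo G T hm) x (Uf x))
    {z : V} (hzT : z ∈ T)
    (hpk : PkPP G (cz G Z T hm z) (hz G Z T hm z) (tlo G T hm) φ (B z) (Ps z))
    {K : Finset (Itm V)}
    (hK : K ⊆ (T.erase z).biUnion Uf)
    {X : Finset V → Finset V} (hX : ∀ Q, X Q ⊆ oth (tlo G T hm) z Q)
    (hX1 : ∀ Q, (X Q).card ≤ 1)
    (h0 : 0 ≤ sI hm r Z z + ∑ u ∈ K, (ikp (tlo G T hm) z u : ℤ)) :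
    ((r : ℤ) - 1) * (sI hm r Z z + ∑ u ∈ K, (ikp (tlo G T hm) z u : ℤ))
      ≤ (∑ u ∈ pkf (B z) (Ps z), (ivl u : ℤ) + ∑ u ∈ K, (ikp (tlo G T hm) z u : ℤ))
          * (tI G Z T hm r Z z
            + 2 * (sI hm r Z z + ∑ u ∈ K, (ikp (tlo G T hm) z u : ℤ)) + 1)
        + ∑ u ∈ K, ((rcl G (cz G Z T hm) (tlo G T hm) X z u).card : ℤ) := by
  set C := cz G Z T hm with hCdef
  set H := hz G Z T hm with hHdef
  set tl := tlo G T hm with htl
  have hF := h.F.toPFrame
  have hcard : ((C z).card : ℤ) = (r : ℤ) - 1 - tI G Z T hm r Z z := card_CP_eq Z z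
  have ht0 : 0 ≤ tI G Z T hm r Z z := by
    have h1 := h.hom (C z) (fun c hc => (mem_filter.1 (mem_CP.1 hc).1).1)
      (h.csys.CP_clq hF hzT)
    have := h.hr
    have h2 : ((C z).card : ℤ) ≤ (r : ℤ) - 1 := by omega
    linarith
  have hmu0 : 0 ≤ ∑ u ∈ pkf (B z) (Ps z), (ivl u : ℤ) := sum_nonneg fun _ _ => Nat.cast_nonneg _
  have hrm0 : 0 ≤ ∑ u ∈ K, ((rcl G C tl X z u).card : ℤ) := sum_nonneg fun _ _ => Nat.cast_nonneg _
  have hk0 : 0 ≤ ∑ u ∈ K, (ikp tl z u : ℤ) := sum_nonneg fun _ _ => Nat.cast_nonneg _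
  set K' := K.filter fun u => ikp tl z u ≠ 0 with hK'
  have e1 : ∑ u ∈ K, ((rcl G C tl X z u).card : ℤ) = ∑ u ∈ K', ((rcl G C tl X z u).card : ℤ) := by
    rw [hK', sum_filter]
    refine sum_congr rfl fun u hu => ?_
    by_cases h1 : ikp tl z u = 0
    · have h2 := rcl_card_le (G := G) (C := C) (tl := tl) (X := X)
        (z := z) (u := u)
      rw [h1, Nat.zero_mul] at h2
      have h3 : (rcl G C tl X z u).card = 0 := Nat.le_zero.1 h2
      rw [h3, h1]
      simp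
    · simp only [ne_eq, h1, not_false_iff, if_true]
  have e2 : ∑ u ∈ K, (ikp tl z u : ℤ) = ∑ u ∈ K', (ikp tl z u : ℤ) := by
    rw [hK', sum_filter]
    refine sum_congr rfl fun u _ => ?_
    by_cases h1 : ikp tl z u = 0
    · rw [h1]
      simp
    · simp only [ne_eq, h1, not_false_iff, if_true]
  have hK'K : K' ⊆ (T.erase z).biUnion Uf := (filter_subset _ _).trans hK
  have hk' : ∀ u ∈ K', ikp tl z u ≠ 0 := fun u hu => (mem_filter.1 hu).2
  rw [e1] at hrm0 ⊢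
  rw [e2] at h0 hk0 ⊢
  -- the test without extra points
  have h5 := two_eI (G := G) (hm := hm) Z z
  have h6 : (((Z.filter fun v => hm v = z).card : ℤ) - r) = sI hm r Z z := rfl
  have e3 : ∑ u ∈ K', (((C z).card : ℤ) * ikp tl z u
      - (rcl G C tl X z u).card)
      = ((r : ℤ) - 1 - tI G Z T hm r Z z) * ∑ u ∈ K', (ikp tl z u : ℤ)
        - ∑ u ∈ K', ((rcl G C tl X z u).card : ℤ) := by
    rw [sum_sub_distrib, ← mul_sum, hcard]
  have hh0 : 0 ≤ ((Z.filter fun v => hm v = z).card : ℤ) - r + 1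
      + ∑ u ∈ K', (ikp tl z u : ℤ) := by
    rw [h6]
    linarith
  have h1 := Fam.row_one h.gp.P h.csys h.wsysT hfam hzT hK'K hk'
    (X := X) hX hX1 hh0
  -- the energy
  have hYt : ∀ v ∈ H z, tl v ∈ T.erase z := h.toWHom.ht z hzT
  have h32 := h.csys.h32 hF h.hh h.toWHom.ht hzT
  have en := PkPP.energyK hF h.hh h.csys h.toWHom.ht hzT hpk
  have hex := hpk.toPk.excess hYt
  have hcn := hpk.toPk.sum_card_ntl hpk.min h32 hYt
  have hiv := hpk.toPk.sum_ivl
  have hmu : ∑ j ∈ T.erase z, ((ntl G (C z) (H z) tl (B z) j).card : ℤ)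
      ≤ ∑ u ∈ pkf (B z) (Ps z), (ivl u : ℤ) := by
    have h2 : ∑ j ∈ T.erase z, (ntl G (C z) (H z) tl (B z) j).card
        ≤ ∑ u ∈ pkf (B z) (Ps z), ivl u := by omega
    exact_mod_cast h2
  have hh := hI_eq (G := G) (Z := Z) (T := T) (hm := hm) (r := r) Z z
  by_contra hcon
  push Not at hcon
  by_cases hm1 : 1 ≤ sI hm r Z z + 2 * ∑ u ∈ K', (ikp tl z u : ℤ)
  swap
  · have h2 : ∑ u ∈ K', (ikp tl z u : ℤ) = 0 := by omega
    have h3 : sI hm r Z z = 0 := by omega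
    rw [h2, h3] at hcon
    simp only [add_zero, mul_zero] at hcon
    have h4 := mul_nonneg hmu0 (by linarith : 0 ≤ tI G Z T hm r Z z + 1)
    linarith
  obtain ⟨Δ, hΔ⟩ : ∃ Δ : ℤ, Δ = 2 * ((r : ℤ) - 1) * sI hm r Z z
      + 2 * (((r : ℤ) - 1 - tI G Z T hm r Z z) * ∑ u ∈ K', (ikp tl z u : ℤ)
        - ∑ u ∈ K', ((rcl G C tl X z u).card : ℤ))
      - (2 * eI G hm Z z + 4 * (∑ u ∈ K', (ikp tl z u : ℤ)) * (sI hm r Z z + 1)
        + 2 * (∑ u ∈ K', (ikp tl z u : ℤ)) * (2 * (∑ u ∈ K', (ikp tl z u : ℤ)) - 1)) :=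
    ⟨_, rfl⟩
  have hΔ0 : Δ ≤ 0 := by
    rw [e3, h6, ← h5] at h1
    linarith
  refine tail_final (T.erase z) (fun j => ((btl tl (B z) j).card : ℤ))
    (fun j => ((ntl G (C z) (H z) tl (B z) j).card : ℤ))
    (fun j => (kpl G (C z) (H z) tl (B z) j : ℤ)) (Δ := Δ - 1)
    (fun j _ => Nat.cast_nonneg _) (fun j _ => ?_) hm1 hmu ?_ (by linarith) ?_
  · show ((btl tl (B z) j).card : ℤ) ≤ ((ntl G (C z) (H z) tl (B z) j).card : ℤ)
    have h2 := hpk.toPk.card_ntl j
    have h3 : (btl tl (B z) j).card ≤ (ntl G (C z) (H z) tl (B z) j).card := by omega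
    exact_mod_cast h3
  · show _ ≤ Δ - 1 + ∑ j ∈ T.erase z, ((btl tl (B z) j).card : ℤ) * ((btl tl (B z) j).card + 1)
      + 2 * ∑ j ∈ T.erase z, ((ntl G (C z) (H z) tl (B z) j).card : ℤ)
        * kpl G (C z) (H z) tl (B z) j
    rw [hh] at en
    have en' : 2 * eI G hm Z z + (∑ u ∈ pkf (B z) (Ps z), (ivl u : ℤ))
        * (∑ u ∈ pkf (B z) (Ps z), (ivl u : ℤ) + 1)
      ≤ 2 * ((∑ u ∈ pkf (B z) (Ps z), (ivl u : ℤ))
          * (tI G Z T hm r Z z + sI hm r Z z + 1))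
        + nbk G (C z) (H z) tl (B z) (Ps z)
        + 2 * ∑ j ∈ T.erase z, nxk G (C z) (H z) tl (B z) j := en
    generalize ∑ j ∈ T.erase z, ((btl tl (B z) j).card : ℤ) * ((btl tl (B z) j).card + 1) = a1 at *
    generalize ∑ j ∈ T.erase z, ((ntl G (C z) (H z) tl (B z) j).card : ℤ)
        * kpl G (C z) (H z) tl (B z) j = a2 at *
    generalize ∑ j ∈ T.erase z, nxk G (C z) (H z) tl (B z) j = a3 at *
    generalize nbk G (C z) (H z) tl (B z) (Ps z) = a4 at *
    generalize ∑ u ∈ pkf (B z) (Ps z), (ivl u : ℤ) = μ at *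
    generalize ∑ u ∈ K', (ikp tl z u : ℤ) = k at *
    generalize ∑ u ∈ K', ((rcl G C tl X z u).card : ℤ) = ρ at *
    generalize tI G Z T hm r Z z = τ at *
    generalize sI hm r Z z = s at *
    generalize eI G hm Z z = e at *
    rw [hΔ]
    nlinarith
  · intro j hj hG1 hκ
    have hG1' : (1 : ℤ) ≤ ((ntl G (C z) (H z) tl (B z) j).card : ℤ) := hG1
    have hne : (ntl G (C z) (H z) tl (B z) j).Nonempty := by
      rw [← card_pos]
      have : (0 : ℤ) < ((ntl G (C z) (H z) tl (B z) j).card : ℤ) := by linarith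
      exact_mod_cast this
    obtain ⟨v, hv, hvκ⟩ := exists_mem_eq_sup _ hne
      fun v => (frC G (C z) tl (B z) v).card
    have hvκ' : kpl G (C z) (H z) tl (B z) j = (frC G (C z) tl (B z) v).card := hvκ
    obtain ⟨hvH, hvj⟩ := hpk.toPk.ntl_sub hv
    have hfr := h.frC_le hp (B := B z) hzT hvH
    have hfr' : (frC G (C z) tl (B z) v).card ≤ (msd G (C j) v).card := by
      rw [← hvj]
      exact hfr
    set W : Finset V := K'.biUnion (rpts tl X z) with hW
    set Y : Finset V := msd G (C j) v \ W with hY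
    have hYC : Y ⊆ C j := fun y hy => (mem_filter.1 (mem_sdiff.1 hy).1).1
    have hYW : Disjoint W Y := disjoint_sdiff
    have hgk := Fam.card_cls h.wsysT hfam (z := z) (mem_of_mem_erase hj) hK'K hk'
      (X := X) hX
    have hq : ∀ y ∈ Y, ((btl tl (B z) j).card : ℤ) + (frC G (C z) tl (B z) v).card
        ≤ (dg G (Z.filter fun w => hm w = z) y : ℤ) := by
      intro y hy
      have h7 : ¬ G.Adj v y := (mem_filter.1 (mem_sdiff.1 hy).1).2.2
      have h8 := hpk.toPk.slot_hits h.wsysT hzT hvH (y := y) (by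
        show y ∈ C (tl v)
        rw [hvj]
        exact hYC hy) h7
      have h9 : (btl tl (B z) j).card + (frC G (C z) tl (B z) v).card
          ≤ dg G (Z.filter fun w => hm w = z) y := by
        rw [← hvj]
        exact h8
      exact_mod_cast h9
    have h2 := Fam.row_x hF h.gp.P h.csys h.wsysT hfam hzT hj hK'K hk'
      (X := X) hX hX1 hYC hYW hq hh0
    have hYc : (msd G (C j) v).card ≤ Y.card + (W ∩ C j).card := by
      have h3 : msd G (C j) v ⊆ Y ∪ (W ∩ C j) := by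
        intro y hy
        by_cases hyW : y ∈ W
        · exact mem_union_right _ (mem_inter.2 ⟨hyW, (mem_filter.1 hy).1⟩)
        · exact mem_union_left _ (mem_sdiff.2 ⟨hy, hyW⟩)
      exact (card_le_card h3).trans (card_union_le _ _)
    have hκ' : sI hm r Z z + 2 * ∑ u ∈ K', (ikp tl z u : ℤ)
        < ((frC G (C z) tl (B z) v).card : ℤ) := by
      rw [← hvκ']
      exact hκ
    refine ⟨((W ∩ C j).card : ℤ), Nat.cast_nonneg _, ?_, ?_⟩
    · have h3 : ((W ∩ C j).card : ℤ) ≤ ∑ u ∈ K', (ikp tl z u : ℤ) := by exact_mod_cast hgk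
      linarith
    · show Δ - 1 + 2 * (((kpl G (C z) (H z) tl (B z) j : ℕ) - (W ∩ C j).card : ℤ)
        * ((kpl G (C z) (H z) tl (B z) j : ℕ) - 1
          - (sI hm r Z z + 2 * ∑ u ∈ K', (ikp tl z u : ℤ))
          + (btl tl (B z) j).card + (W ∩ C j).card)) < 0
      rw [hvκ']
      rw [e3, h6, ← h5] at h2
      have h2' : 2 * ((r : ℤ) - 1) * sI hm r Z z
        + 2 * (((r : ℤ) - 1 - tI G Z T hm r Z z) * ∑ u ∈ K', (ikp tl z u : ℤ)
          - ∑ u ∈ K', ((rcl G C tl X z u).card : ℤ))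
        + 2 * (Y.card * (((btl tl (B z) j).card : ℤ) + (frC G (C z) tl (B z) v).card
          + ((W ∩ C j).card : ℤ) - (sI hm r Z z + 1) - 2 * ∑ u ∈ K', (ikp tl z u : ℤ)))
        ≤ 2 * eI G hm Z z + 4 * (∑ u ∈ K', (ikp tl z u : ℤ)) * (sI hm r Z z + 1)
          + 2 * (∑ u ∈ K', (ikp tl z u : ℤ)) * (2 * (∑ u ∈ K', (ikp tl z u : ℤ)) - 1) := h2
      have h7 : ((frC G (C z) tl (B z) v).card : ℤ) - (W ∩ C j).card ≤ Y.card := by omega
      have h8 : (0 : ℤ) ≤ (btl tl (B z) j).card := Nat.cast_nonneg _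
      have h9 : (0 : ℤ) ≤ (W ∩ C j).card := Nat.cast_nonneg _
      have h10 : (((frC G (C z) tl (B z) v).card : ℤ) - (W ∩ C j).card)
          * (((btl tl (B z) j).card : ℤ) + (frC G (C z) tl (B z) v).card
          + ((W ∩ C j).card : ℤ) - (sI hm r Z z + 1) - 2 * ∑ u ∈ K', (ikp tl z u : ℤ))
          ≤ Y.card * (((btl tl (B z) j).card : ℤ) + (frC G (C z) tl (B z) v).card
          + ((W ∩ C j).card : ℤ) - (sI hm r Z z + 1) - 2 * ∑ u ∈ K', (ikp tl z u : ℤ)) :=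
        mul_le_mul_of_nonneg_right h7 (by linarith)
      generalize (((W ∩ C j).card : ℕ) : ℤ) = d at *
      generalize ((Y.card : ℕ) : ℤ) = y at *
      generalize (((btl tl (B z) j).card : ℕ) : ℤ) = g at *
      generalize (((frC G (C z) tl (B z) v).card : ℕ) : ℤ) = κ at *
      generalize ∑ u ∈ K', (ikp tl z u : ℤ) = k at *
      generalize ∑ u ∈ K', ((rcl G C tl X z u).card : ℤ) = ρ at *
      generalize tI G Z T hm r Z z = τ at *
      generalize sI hm r Z z = s at *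
      generalize eI G hm Z z = e at *
      have e4 : (κ - d) * (κ - 1 - (s + 2 * k) + g + d)
          = (κ - d) * (g + κ + d - (s + 1) - 2 * k) := by ring
      rw [e4]
      linarith

/-- **LEMMA N+, any choice of the other points**, the fewest PC pairs only at the row `z` -/
theorem WCoreK.slkXF (hp : 2 * r ≤ p) (h : WCoreK G Z T r m n p hm) {B : V → Finset (V × V)}
    {Ps : V → Finset (Finset V)}
    {Uf : V → Finset (Itm V)}
    (hfam : ∀ x ∈ T, Fam (co G) (cz G Z T hm) (hz G Z T hm) (tlo G T hm) x (Uf x))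
    {z : V} (hzT : z ∈ T)
    (hpk : PkPP G (cz G Z T hm z) (hz G Z T hm z) (tlo G T hm) φ (B z) (Ps z))
    {K : Finset (Itm V)}
    (hK : K ⊆ (T.erase z).biUnion Uf)
    {X : Finset V → Finset V} (hX : ∀ Q, X Q ⊆ oth (tlo G T hm) z Q)
    (hX1 : ∀ Q, (X Q).card ≤ 1)
    (h0 : 0 ≤ sI hm r Z z + ∑ u ∈ K, (ikp (tlo G T hm) z u : ℤ)) :
    eI G hm Z z + (∑ u ∈ K, (ikp (tlo G T hm) z u : ℤ)) * tI G Z T hm r Z z
        + 2 * (∑ u ∈ K, (ikp (tlo G T hm) z u : ℤ)) * (sI hm r Z z + 1)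
        + (∑ u ∈ K, (ikp (tlo G T hm) z u : ℤ))
          * (2 * (∑ u ∈ K, (ikp (tlo G T hm) z u : ℤ)) - 1)
        + ((r : ℤ) - 1) * (sI hm r Z z + ∑ u ∈ K, (ikp (tlo G T hm) z u : ℤ))
      ≤ 2 * ((∑ u ∈ pkf (B z) (Ps z), (ivl u : ℤ) + ∑ u ∈ K, (ikp (tlo G T hm) z u : ℤ))
          * (tI G Z T hm r Z z
            + 2 * (sI hm r Z z + ∑ u ∈ K, (ikp (tlo G T hm) z u : ℤ)) + 1))
        + ∑ u ∈ K, ((rcl G (cz G Z T hm) (tlo G T hm) X z u).card : ℤ) := by
  set C := cz G Z T hm with hCdef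
  set H := hz G Z T hm with hHdef
  set tl := tlo G T hm with htl
  have hF := h.F.toPFrame
  have hcard : ((C z).card : ℤ) = (r : ℤ) - 1 - tI G Z T hm r Z z := card_CP_eq Z z
  have hmu0 : 0 ≤ ∑ u ∈ pkf (B z) (Ps z), (ivl u : ℤ) := sum_nonneg fun _ _ => Nat.cast_nonneg _
  have hk0 : 0 ≤ ∑ u ∈ K, (ikp tl z u : ℤ) := sum_nonneg fun _ _ => Nat.cast_nonneg _
  set K' := K.filter fun u => ikp tl z u ≠ 0 with hK'
  have e1 : ∑ u ∈ K, ((rcl G C tl X z u).card : ℤ) = ∑ u ∈ K', ((rcl G C tl X z u).card : ℤ) := by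
    rw [hK', sum_filter]
    refine sum_congr rfl fun u hu => ?_
    by_cases h1 : ikp tl z u = 0
    · have h2 := rcl_card_le (G := G) (C := C) (tl := tl) (X := X)
        (z := z) (u := u)
      rw [h1, Nat.zero_mul] at h2
      have h3 : (rcl G C tl X z u).card = 0 := Nat.le_zero.1 h2
      rw [h3, h1]
      simp
    · simp only [ne_eq, h1, not_false_iff, if_true]
  have e2 : ∑ u ∈ K, (ikp tl z u : ℤ) = ∑ u ∈ K', (ikp tl z u : ℤ) := by
    rw [hK', sum_filter]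
    refine sum_congr rfl fun u _ => ?_
    by_cases h1 : ikp tl z u = 0
    · rw [h1]
      simp
    · simp only [ne_eq, h1, not_false_iff, if_true]
  have hK'K : K' ⊆ (T.erase z).biUnion Uf := (filter_subset _ _).trans hK
  have hk' : ∀ u ∈ K', ikp tl z u ≠ 0 := fun u hu => (mem_filter.1 hu).2
  rw [e1]
  rw [e2] at h0 hk0 ⊢
  have h5 := two_eI (G := G) (hm := hm) Z z
  have h6 : (((Z.filter fun v => hm v = z).card : ℤ) - r) = sI hm r Z z := rfl
  have e3 : ∑ u ∈ K', (((C z).card : ℤ) * ikp tl z u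
      - (rcl G C tl X z u).card)
      = ((r : ℤ) - 1 - tI G Z T hm r Z z) * ∑ u ∈ K', (ikp tl z u : ℤ)
        - ∑ u ∈ K', ((rcl G C tl X z u).card : ℤ) := by
    rw [sum_sub_distrib, ← mul_sum, hcard]
  have hh0 : 0 ≤ ((Z.filter fun v => hm v = z).card : ℤ) - r + 1
      + ∑ u ∈ K', (ikp tl z u : ℤ) := by
    rw [h6]
    linarith
  have h1 := Fam.row_one h.gp.P h.csys h.wsysT hfam hzT hK'K hk'
    (X := X) hX hX1 hh0
  -- the energy
  have hYt : ∀ v ∈ H z, tl v ∈ T.erase z := h.toWHom.ht z hzT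
  have hHC : Disjoint (H z) (C z) := (h.csys.dCH hzT hzT).symm
  have h32 := h.csys.h32 hF h.hh h.toWHom.ht hzT
  have en := PkPP.energyK hF h.hh h.csys h.toWHom.ht hzT hpk
  have hex := hpk.toPk.excess2 hYt
  have hcn := hpk.toPk.card_ntp_le hpk.min h32 hYt
  have hiv := hpk.toPk.sum_ivl
  have hmu : ((ntp G (C z) (H z) tl (B z)).card : ℤ)
      ≤ ∑ u ∈ pkf (B z) (Ps z), (ivl u : ℤ) := by
    have h2 : (ntp G (C z) (H z) tl (B z)).card
        ≤ ∑ u ∈ pkf (B z) (Ps z), ivl u := by omega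
    exact_mod_cast h2
  have hh := hI_eq (G := G) (Z := Z) (T := T) (hm := hm) (r := r) Z z
  obtain ⟨Δ, hΔ⟩ : ∃ Δ : ℤ, Δ = 2 * eI G hm Z z
      + 4 * (∑ u ∈ K', (ikp tl z u : ℤ)) * (sI hm r Z z + 1)
      + 2 * (∑ u ∈ K', (ikp tl z u : ℤ)) * (2 * (∑ u ∈ K', (ikp tl z u : ℤ)) - 1)
      - 2 * ((r : ℤ) - 1) * sI hm r Z z
      - 2 * (((r : ℤ) - 1 - tI G Z T hm r Z z) * ∑ u ∈ K', (ikp tl z u : ℤ)
        - ∑ u ∈ K', ((rcl G C tl X z u).card : ℤ)) :=
    ⟨_, rfl⟩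
  have hΔ0 : 0 ≤ Δ := by
    rw [e3, h6, ← h5] at h1
    linarith
  set N := ntp G (C z) (H z) tl (B z) with hN
  obtain ⟨om, hom⟩ : ∃ om : V → ℤ, om = fun v => (2 * ((frC G (C z) tl (B z) v).card : ℤ)
      + if v ∈ (B z).image Prod.fst then 2 + ((usC G (C z) tl (B z) v).card : ℤ) else 0)
      - 2 * (sI hm r Z z + 2 * ∑ u ∈ K', (ikp tl z u : ℤ)) - (N.card + 1) := ⟨_, rfl⟩
  have hsum : ∑ v ∈ N, om v = ∑ v ∈ N, (2 * ((frC G (C z) tl (B z) v).card : ℤ)
      + if v ∈ (B z).image Prod.fst then 2 + ((usC G (C z) tl (B z) v).card : ℤ) else 0)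
      - N.card * (2 * (sI hm r Z z + 2 * ∑ u ∈ K', (ikp tl z u : ℤ)) + (N.card + 1)) := by
    rw [hom]
    simp only [sum_sub_distrib, sum_const, nsmul_eq_mul]
    ring
  have key := slk_int N om (D := Δ)
    (S := 2 * ((∑ u ∈ pkf (B z) (Ps z), (ivl u : ℤ) + ∑ u ∈ K', (ikp tl z u : ℤ))
        * (tI G Z T hm r Z z + 2 * (sI hm r Z z + ∑ u ∈ K', (ikp tl z u : ℤ)) + 1))
      + 2 * ∑ u ∈ K', ((rcl G C tl X z u).card : ℤ)
      - 2 * (((r : ℤ) - 1) * (sI hm r Z z + ∑ u ∈ K', (ikp tl z u : ℤ)))) hΔ0 ?_ ?_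
  · rw [hΔ] at key
    generalize ∑ u ∈ pkf (B z) (Ps z), (ivl u : ℤ) = μ at *
    generalize ∑ u ∈ K', (ikp tl z u : ℤ) = k at *
    generalize ∑ u ∈ K', ((rcl G C tl X z u).card : ℤ) = ρ at *
    generalize tI G Z T hm r Z z = τ at *
    generalize sI hm r Z z = s at *
    generalize eI G hm Z z = e at *
    nlinarith
  · rw [hsum]
    rw [hh] at en
    have en' : 2 * eI G hm Z z + (∑ u ∈ pkf (B z) (Ps z), (ivl u : ℤ))
        * (∑ u ∈ pkf (B z) (Ps z), (ivl u : ℤ) + 1)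
      ≤ 2 * ((∑ u ∈ pkf (B z) (Ps z), (ivl u : ℤ))
          * (tI G Z T hm r Z z + sI hm r Z z + 1))
        + nbk G (C z) (H z) tl (B z) (Ps z)
        + 2 * ∑ j ∈ T.erase z, nxk G (C z) (H z) tl (B z) j := en
    have hc0 : (0 : ℤ) ≤ N.card := Nat.cast_nonneg _
    generalize ∑ v ∈ N, (2 * ((frC G (C z) tl (B z) v).card : ℤ)
      + if v ∈ (B z).image Prod.fst then 2 + ((usC G (C z) tl (B z) v).card : ℤ) else 0)
        = a1 at *
    generalize ∑ j ∈ T.erase z, nxk G (C z) (H z) tl (B z) j = a3 at *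
    generalize nbk G (C z) (H z) tl (B z) (Ps z) = a4 at *
    generalize ((N.card : ℕ) : ℤ) = c at *
    generalize ∑ u ∈ pkf (B z) (Ps z), (ivl u : ℤ) = μ at *
    generalize ∑ u ∈ K', (ikp tl z u : ℤ) = k at *
    generalize ∑ u ∈ K', ((rcl G C tl X z u).card : ℤ) = ρ at *
    generalize tI G Z T hm r Z z = τ at *
    generalize sI hm r Z z = s at *
    generalize eI G hm Z z = e at *
    rw [hΔ]
    have h7 : 0 ≤ (μ - c) * (μ + c + 1 + 2 * (s + 2 * k)) :=
      mul_nonneg (by linarith) (by linarith)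
    nlinarith
  · intro v hv hv1
    have hvH : v ∈ H z := hpk.toPk.ntp_sub hv
    have hnd := h.nd_le_tail hp hzT hvH
    have hge := hpk.toPk.nd_ge hHC hvH
    have hj := hYt v hvH
    set W : Finset V := K'.biUnion (rpts tl X z) with hW
    set Y : Finset V := msd G (C (tl v)) v \ W with hY
    have hYC : Y ⊆ C (tl v) := fun y hy => (mem_filter.1 (mem_sdiff.1 hy).1).1
    have hYW : Disjoint W Y := disjoint_sdiff
    have hgk := Fam.card_cls h.wsysT hfam (z := z) (mem_of_mem_erase hj) hK'K hk'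
      (X := X) hX
    have hq : ∀ y ∈ Y, ((btl tl (B z) (tl v)).card : ℤ) + (frC G (C z) tl (B z) v).card
        ≤ (dg G (Z.filter fun w => hm w = z) y : ℤ) := by
      intro y hy
      have h7 : ¬ G.Adj v y := (mem_filter.1 (mem_sdiff.1 hy).1).2.2
      have h8 := hpk.toPk.slot_hits h.wsysT hzT hvH (y := y) (hYC hy) h7
      have h9 : (btl tl (B z) (tl v)).card + (frC G (C z) tl (B z) v).card
          ≤ dg G (Z.filter fun w => hm w = z) y := h8
      exact_mod_cast h9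
    have h2 := Fam.row_x hF h.gp.P h.csys h.wsysT hfam hzT hj hK'K hk'
      (X := X) hX hX1 hYC hYW hq hh0
    have hYc : (msd G (C (tl v)) v).card ≤ Y.card + (W ∩ C (tl v)).card := by
      have h3 : msd G (C (tl v)) v ⊆ Y ∪ (W ∩ C (tl v)) := by
        intro y hy
        by_cases hyW : y ∈ W
        · exact mem_union_right _ (mem_inter.2 ⟨hyW, (mem_filter.1 hy).1⟩)
        · exact mem_union_left _ (mem_sdiff.2 ⟨hy, hyW⟩)
      exact (card_le_card h3).trans (card_union_le _ _)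
    have hgk' : ((W ∩ C (tl v)).card : ℤ) ≤ ∑ u ∈ K', (ikp tl z u : ℤ) := by exact_mod_cast hgk
    rw [e3, h6, ← h5] at h2
    have h2' : 2 * (Y.card * (((btl tl (B z) (tl v)).card : ℤ)
        + (sI hm r Z z + 2 * ∑ u ∈ K', (ikp tl z u : ℤ) + (((frC G (C z) tl (B z) v).card : ℤ)
          - (sI hm r Z z + 2 * ∑ u ∈ K', (ikp tl z u : ℤ))))
        + ((W ∩ C (tl v)).card : ℤ) - 1 - (sI hm r Z z + 2 * ∑ u ∈ K', (ikp tl z u : ℤ))))
        ≤ Δ := by
      have e4 : ((btl tl (B z) (tl v)).card : ℤ)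
        + (sI hm r Z z + 2 * ∑ u ∈ K', (ikp tl z u : ℤ) + (((frC G (C z) tl (B z) v).card : ℤ)
          - (sI hm r Z z + 2 * ∑ u ∈ K', (ikp tl z u : ℤ))))
        + ((W ∩ C (tl v)).card : ℤ) - 1 - (sI hm r Z z + 2 * ∑ u ∈ K', (ikp tl z u : ℤ))
        = ((btl tl (B z) (tl v)).card : ℤ) + (frC G (C z) tl (B z) v).card
          + ((W ∩ C (tl v)).card : ℤ) - (sI hm r Z z + 1)
          - 2 * ∑ u ∈ K', (ikp tl z u : ℤ) := by ring
      rw [e4, hΔ]
      have h2'' : 2 * ((r : ℤ) - 1) * sI hm r Z z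
        + 2 * (((r : ℤ) - 1 - tI G Z T hm r Z z) * ∑ u ∈ K', (ikp tl z u : ℤ)
          - ∑ u ∈ K', ((rcl G C tl X z u).card : ℤ))
        + 2 * (Y.card * (((btl tl (B z) (tl v)).card : ℤ) + (frC G (C z) tl (B z) v).card
          + ((W ∩ C (tl v)).card : ℤ) - (sI hm r Z z + 1) - 2 * ∑ u ∈ K', (ikp tl z u : ℤ)))
        ≤ 2 * eI G hm Z z + 4 * (∑ u ∈ K', (ikp tl z u : ℤ)) * (sI hm r Z z + 1)
          + 2 * (∑ u ∈ K', (ikp tl z u : ℤ)) * (2 * (∑ u ∈ K', (ikp tl z u : ℤ)) - 1) := h2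
      linarith
    have hd0 : (0 : ℤ) ≤ ((W ∩ C (tl v)).card : ℤ) := Nat.cast_nonneg _
    have hdm : ((W ∩ C (tl v)).card : ℤ) ≤ sI hm r Z z + 2 * ∑ u ∈ K', (ikp tl z u : ℤ) := by
      linarith
    have hu0 : (0 : ℤ) ≤ ((usC G (C z) tl (B z) v).card : ℤ) := Nat.cast_nonneg _
    have hc1 : 1 ≤ N.card := card_pos.2 ⟨v, hv⟩
    rw [hom] at hv1 ⊢
    by_cases hpc : v ∈ (B z).image Prod.fst
    · simp only [hpc, if_true] at hv1 hge ⊢
      obtain ⟨e, he, hev⟩ := mem_image.1 hpc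
      have hus := hpk.toPk.usC_le (e := e) he
      rw [hev] at hus
      have hbt : (btl tl (B z) (tl v)).card ≤ N.card := by
        have h7 : N.card = (B z).card + (Nend G (C z) (H z) tl (B z)).card :=
          hpk.toPk.card_ntp
        have h8 : (btl tl (B z) (tl v)).card ≤ (B z).card := card_filter_le _ _
        omega
      have hY1 : ((frC G (C z) tl (B z) v).card : ℤ) + (usC G (C z) tl (B z) v).card + 1
          - (W ∩ C (tl v)).card ≤ Y.card := by
        have h9 : (frC G (C z) tl (B z) v).card + (usC G (C z) tl (B z) v).card + 1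
          ≤ Y.card + (W ∩ C (tl v)).card := by
          have : (frC G (C z) tl (B z) v).card + (usC G (C z) tl (B z) v).card + 1
            ≤ nd G (C z) v := hge
          exact this.trans (hnd.trans hYc)
        have h10 : ((frC G (C z) tl (B z) v).card : ℤ) + (usC G (C z) tl (B z) v).card + 1
          ≤ Y.card + (W ∩ C (tl v)).card := by exact_mod_cast h9
        linarith
      have h11 := slk_pc (x := ((frC G (C z) tl (B z) v).card : ℤ)
          - (sI hm r Z z + 2 * ∑ u ∈ K', (ikp tl z u : ℤ)))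
        (u := ((usC G (C z) tl (B z) v).card : ℤ)) (g := ((btl tl (B z) (tl v)).card : ℤ))
        (c := (N.card : ℤ)) (m := sI hm r Z z + 2 * ∑ u ∈ K', (ikp tl z u : ℤ))
        (d := ((W ∩ C (tl v)).card : ℤ)) (y := (Y.card : ℤ)) (D := Δ) hu0
        (by exact_mod_cast hus) (by exact_mod_cast hbt) hd0 hdm (by linarith) (by linarith) h2'
      have e5 : ∀ a b c m : ℤ, 2 * (c * (2 * a + (2 + b) - 2 * m - (c + 1)))
          = 2 * (c * (2 * (a - m) + 1 + b - c)) := fun a b c m => by ring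
      rw [e5]
      exact h11
    · simp only [hpc, if_false] at hv1 hge ⊢
      have hY1 : ((frC G (C z) tl (B z) v).card : ℤ) - (W ∩ C (tl v)).card ≤ Y.card := by
        have h9 : (frC G (C z) tl (B z) v).card ≤ Y.card + (W ∩ C (tl v)).card := by
          have : (frC G (C z) tl (B z) v).card + (usC G (C z) tl (B z) v).card + 0
            ≤ nd G (C z) v := hge
          exact (by omega : (frC G (C z) tl (B z) v).card ≤ nd G (C z) v).trans
            (hnd.trans hYc)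
        have h10 : ((frC G (C z) tl (B z) v).card : ℤ)
          ≤ Y.card + (W ∩ C (tl v)).card := by exact_mod_cast h9
        linarith
      have h11 := slk_ne (x := ((frC G (C z) tl (B z) v).card : ℤ)
          - (sI hm r Z z + 2 * ∑ u ∈ K', (ikp tl z u : ℤ)))
        (g := ((btl tl (B z) (tl v)).card : ℤ))
        (c := (N.card : ℤ)) (m := sI hm r Z z + 2 * ∑ u ∈ K', (ikp tl z u : ℤ))
        (d := ((W ∩ C (tl v)).card : ℤ)) (y := (Y.card : ℤ)) (D := Δ)
        (Nat.cast_nonneg _) (by exact_mod_cast hc1) hd0 hdm (by linarith) (by linarith) h2'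
      have e5 : ∀ a c m : ℤ, 2 * (c * (2 * a + 0 - 2 * m - (c + 1)))
          = 2 * (c * (2 * (a - m) - 1 - c)) := fun a c m => by ring
      rw [e5]
      exact h11


end TzF

section Cut

variable {V : Type*} {G F : SimpleGraph V}

/-- the item `u` at the level `g`: below its full level `g + 1` members with tail `z` -/
noncomputable def cutI (tl : V → V) (z : V) (g : Itm V → ℕ) : Itm V → Itm V
  | Sum.inl Q => if h : g (Sum.inl Q) < ikp tl z (Sum.inl Q) ∧
      g (Sum.inl Q) + 1 ≤ (tlp tl Q z).card then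
      Sum.inl (exists_subset_card_eq h.2).choose else Sum.inl Q
  | Sum.inr e => Sum.inr e

lemma ikp_le_tlp {tl : V → V} {z : V} {Q : Finset V} :
    ikp tl z (Sum.inl Q) ≤ (tlp tl Q z).card := by
  simp only [ikp]
  split_ifs with h
  · rw [h]
    omega
  · exact le_rfl

/-- below the full level: `g + 1` members with tail `z` -/
lemma cutI_lt {tl : V → V} {z : V} {g : Itm V → ℕ} {Q : Finset V}
    (h : g (Sum.inl Q) < ikp tl z (Sum.inl Q)) :
    ∃ P ⊆ tlp tl Q z, P.card = g (Sum.inl Q) + 1 ∧ cutI tl z g (Sum.inl Q) = Sum.inl P := by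
  have h1 : g (Sum.inl Q) + 1 ≤ (tlp tl Q z).card := by
    have := ikp_le_tlp (tl := tl) (z := z) (Q := Q)
    omega
  have h2 := (exists_subset_card_eq h1).choose_spec
  refine ⟨_, h2.1, h2.2, ?_⟩
  simp only [cutI]
  rw [dif_pos ⟨h, h1⟩]

lemma cutI_ge {tl : V → V} {z : V} {g : Itm V → ℕ} {Q : Finset V}
    (h : ikp tl z (Sum.inl Q) ≤ g (Sum.inl Q)) :
    cutI tl z g (Sum.inl Q) = Sum.inl Q := by
  simp only [cutI]
  rw [dif_neg fun h1 => absurd h1.1 (not_lt.2 h)]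

lemma tlp_self {tl : V → V} {z : V} {P Q : Finset V} (h : P ⊆ tlp tl Q z) : tlp tl P z = P := by
  ext v
  rw [mem_tlp]
  exact ⟨fun h1 => h1.1, fun h1 => ⟨h1, (mem_tlp.1 (h h1)).2⟩⟩

lemma cutI_imem {tl : V → V} {z : V} {g : Itm V → ℕ} {u : Itm V} :
    imem (cutI tl z g u) ⊆ imem u := by
  rcases u with Q | e
  · rcases lt_or_ge (g (Sum.inl Q)) (ikp tl z (Sum.inl Q)) with h | h
    · obtain ⟨P, hP, -, e1⟩ := cutI_lt h
      rw [e1]
      exact hP.trans tlp_sub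
    · rw [cutI_ge h]
  · exact subset_rfl

/-- the items at their levels form a family -/
lemma Fam.cut {C H : V → Finset V} {tl : V → V} {x z : V} {U : Finset (Itm V)}
    (h : Fam F C H tl x U) {g : Itm V → ℕ} (hg : ∀ u ∈ U, 1 ≤ g u ∨ ikp tl z u ≤ g u) :
    Fam F C H tl x (U.image (cutI tl z g)) := by
  have key : ∀ P, Sum.inl P ∈ U.image (cutI tl z g) →
      ∃ Q, Sum.inl Q ∈ U ∧ P ⊆ Q ∧ 2 ≤ P.card := by
    intro P hP
    obtain ⟨u, hu, hu1⟩ := mem_image.1 hP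
    rcases u with Q | e
    · rcases lt_or_ge (g (Sum.inl Q)) (ikp tl z (Sum.inl Q)) with h1 | h1
      · obtain ⟨P', hP', hc, e1⟩ := cutI_lt h1
        rw [e1] at hu1
        obtain rfl := Sum.inl_injective hu1
        refine ⟨Q, hu, hP'.trans tlp_sub, ?_⟩
        rcases hg _ hu with h2 | h2
        · omega
        · omega
      · rw [cutI_ge h1] at hu1
        obtain rfl := Sum.inl_injective hu1
        exact ⟨Q, hu, subset_rfl, h.two Q hu⟩
    · exact absurd hu1 (by simp [cutI])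
  have keyr : ∀ e, Sum.inr e ∈ U.image (cutI tl z g) → Sum.inr e ∈ U := by
    intro e he
    obtain ⟨u, hu, hu1⟩ := mem_image.1 he
    rcases u with Q | f
    · exfalso
      rcases lt_or_ge (g (Sum.inl Q)) (ikp tl z (Sum.inl Q)) with h1 | h1
      · obtain ⟨P', -, -, e1⟩ := cutI_lt h1
        rw [e1] at hu1
        exact Sum.inl_ne_inr hu1
      · rw [cutI_ge h1] at hu1
        exact Sum.inl_ne_inr hu1
    · have : f = e := Sum.inr_injective hu1
      rwa [← this]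
  refine ⟨?_, ?_, ?_, ?_, ?_, ?_, ?_, ?_⟩
  · intro P hP
    obtain ⟨Q, hQ, hPQ, -⟩ := key P hP
    exact hPQ.trans (h.sub Q hQ)
  · intro P hP
    obtain ⟨Q, -, -, h1⟩ := key P hP
    exact h1
  · intro P hP u hu v hv huv
    obtain ⟨Q, hQ, hPQ, -⟩ := key P hP
    exact h.clq Q hQ u (hPQ hu) v (hPQ hv) huv
  · exact fun e he => h.pcH e (keyr e he)
  · exact fun e he => h.pcC e (keyr e he)
  · exact fun e he => h.pcF e (keyr e he)
  · intro u hu v hv huv
    obtain ⟨u', hu', rfl⟩ := mem_image.1 hu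
    obtain ⟨v', hv', rfl⟩ := mem_image.1 hv
    have h1 : u' ≠ v' := fun h2 => huv (by rw [h2])
    exact (h.dis u' hu' v' hv' h1).mono cutI_imem cutI_imem
  · exact fun e he f hf h1 h2 => h.cop e (keyr e he) f (keyr f hf) h1 h2

/-- the load at the level `g` -/
lemma cutI_ikp {tl : V → V} {z : V} {g : Itm V → ℕ} {u : Itm V} (h1 : 1 ≤ g u)
    (h2 : g u ≤ ikp tl z u) : ikp tl z (cutI tl z g u) = g u := by
  rcases u with Q | e
  · rcases lt_or_ge (g (Sum.inl Q)) (ikp tl z (Sum.inl Q)) with h3 | h3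
    · obtain ⟨P, hP, hc, e1⟩ := cutI_lt h3
      rw [e1]
      simp only [ikp, tlp_self hP, if_true, hc]
      rfl
    · rw [cutI_ge h3]
      exact le_antisymm h3 h2
  · show ikp tl z (Sum.inr e) = _
    have h3 : ikp tl z (Sum.inr e) ≤ 1 := by
      simp only [ikp]
      split_ifs <;> omega
    omega

/-- the misses at the level `g` -/
lemma cutI_rcl {C : V → Finset V} {tl : V → V} {z : V} {g : Itm V → ℕ} {u : Itm V}
    (h2 : g u ≤ ikp tl z u) :
    (((rcl G C tl (xmn G C tl z) z (cutI tl z g u)).card : ℕ) : ℤ)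
      = if (ikp tl z u : ℤ) ≤ (g u : ℤ) then (imn G C tl z u : ℤ) else 0 := by
  rcases u with Q | e
  · rcases lt_or_ge (g (Sum.inl Q)) (ikp tl z (Sum.inl Q)) with h3 | h3
    · obtain ⟨P, hP, hc, e1⟩ := cutI_lt h3
      rw [e1, if_neg (by exact_mod_cast not_le.2 h3)]
      simp only [rcl, tlp_self hP, if_true, card_empty, Nat.cast_zero]
    · rw [cutI_ge h3, if_pos (by exact_mod_cast h3)]
      rfl
  · have h3 : (rcl G C tl (xmn G C tl z) z (cutI tl z g (Sum.inr e))) = ∅ := rfl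
    have h4 : imn G C tl z (Sum.inr e) = 0 := rfl
    rw [h3, h4]
    simp

end Cut

section TzL

variable {V : Type*} {G : SimpleGraph V} {Z T : Finset V} {hm : V → V} {r m n p : ℕ}
  {B : V → Finset (V × V)} {Ps : V → Finset (Finset V)}

/-- an item at its level has a member -/
lemma Fam.cut_ne {F : SimpleGraph V} {C H : V → Finset V} {tl : V → V} {x z : V}
    {U : Finset (Itm V)} (h : Fam F C H tl x U) {g : Itm V → ℕ} {u : Itm V} (hu : u ∈ U) :
    (imem (cutI tl z g u)).Nonempty := by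
  rcases u with Q | e
  · rcases lt_or_ge (g (Sum.inl Q)) (ikp tl z (Sum.inl Q)) with h1 | h1
    · obtain ⟨P, -, hc, e1⟩ := cutI_lt h1
      rw [e1]
      show P.Nonempty
      exact card_pos.1 (by omega)
    · rw [cutI_ge h1]
      show Q.Nonempty
      exact card_pos.1 (by have := h.two Q hu; omega)
  · exact singleton_nonempty _

/-- the sums over the items at their levels -/
lemma sum_cut (h : WCoreK G Z T r m n p hm)
    (hB : ∀ x ∈ T, Pk G (cz G Z T hm x) (hz G Z T hm x) (tlo G T hm) (B x) (Ps x))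
    {z : V} {K : Finset (Itm V)}
    (hK : K ⊆ (T.erase z).biUnion fun x => pkf (B x) (Ps x)) {g : Itm V → ℕ} (f : Itm V → ℤ) :
    ∑ u ∈ K.image (cutI (tlo G T hm) z g), f u = ∑ u ∈ K, f (cutI (tlo G T hm) z g u) := by
  refine sum_image fun u hu v hv huv => ?_
  have hfam : ∀ x ∈ T, Fam (co G) (cz G Z T hm) (hz G Z T hm) (tlo G T hm) x (pkf (B x) (Ps x)) :=
    fun x hx => (hB x hx).fam (h.csys.dCH hx hx).symm
  by_contra hne
  obtain ⟨x, hx, hux⟩ := mem_biUnion.1 (hK (by exact_mod_cast hu))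
  obtain ⟨y, hy, hvy⟩ := mem_biUnion.1 (hK (by exact_mod_cast hv))
  have hd : Disjoint (imem u) (imem v) := by
    by_cases hxy : x = y
    · subst hxy
      exact (hfam x (mem_of_mem_erase hx)).dis u hux v hvy hne
    · exact (h.wsysT.dHH x (mem_of_mem_erase hx) y (mem_of_mem_erase hy) hxy).mono
        ((hfam x (mem_of_mem_erase hx)).imem_sub hux) ((hfam y (mem_of_mem_erase hy)).imem_sub hvy)
  obtain ⟨v', hv'⟩ := (hfam x (mem_of_mem_erase hx)).cut_ne (z := z) (g := g) hux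
  exact disjoint_left.1 hd (cutI_imem hv') (cutI_imem (huv ▸ hv'))

/-- the families at their levels, `g'` is the level where the item is used -/
lemma fam_cut (h : WCoreK G Z T r m n p hm)
    (hB : ∀ x ∈ T, Pk G (cz G Z T hm x) (hz G Z T hm x) (tlo G T hm) (B x) (Ps x))
    {z : V} {K : Finset (Itm V)} {g : Itm V → ℕ} (hg1 : ∀ u ∈ K, 1 ≤ g u) {x : V} (hx : x ∈ T) :
    Fam (co G) (cz G Z T hm) (hz G Z T hm) (tlo G T hm) x
      ((pkf (B x) (Ps x)).image (cutI (tlo G T hm) z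
        fun u => if u ∈ K then g u else ikp (tlo G T hm) z u)) := by
  refine ((hB x hx).fam (h.csys.dCH hx hx).symm).cut fun u _ => ?_
  by_cases hu : u ∈ K
  · left
    simp only [hu, if_true]
    exact hg1 u hu
  · right
    simp only [hu, if_false]
    exact le_rfl

/-- **LEMMA N AT LEVELS, any packings with the least number of parts** -/
theorem WCoreK.tzLv (hp : 2 * r ≤ p) (h : WCoreK G Z T r m n p hm)
    (hB : ∀ x ∈ T, Pk G (cz G Z T hm x) (hz G Z T hm x) (tlo G T hm) (B x) (Ps x))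
    {z : V} (hzT : z ∈ T)
    (hmin : ∀ B' Ps', Pk G (cz G Z T hm z) (hz G Z T hm z) (tlo G T hm) B' Ps' →
      (Ps z).card ≤ Ps'.card)
    {K : Finset (Itm V)}
    (hK : K ⊆ (T.erase z).biUnion fun x => pkf (B x) (Ps x)) {g : Itm V → ℕ}
    (hg1 : ∀ u ∈ K, 1 ≤ g u) (hg2 : ∀ u ∈ K, g u ≤ ikp (tlo G T hm) z u)
    (h0 : 0 ≤ sI hm r Z z + ∑ u ∈ K, (g u : ℤ)) :
    ((r : ℤ) - 1) * (sI hm r Z z + ∑ u ∈ K, (g u : ℤ))
      ≤ (∑ u ∈ pkf (B z) (Ps z), (ivl u : ℤ) + ∑ u ∈ K, (g u : ℤ))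
          * (tI G Z T hm r Z z + 2 * (sI hm r Z z + ∑ u ∈ K, (g u : ℤ)) + 1)
        + ∑ u ∈ K, (if (ikp (tlo G T hm) z u : ℤ) ≤ (g u : ℤ)
            then (imn G (cz G Z T hm) (tlo G T hm) z u : ℤ) else 0) := by
  obtain ⟨g', hg'⟩ : ∃ g' : Itm V → ℕ, g' = fun u => if u ∈ K then g u else ikp (tlo G T hm) z u :=
    ⟨_, rfl⟩
  have hgK : ∀ u ∈ K, g' u = g u := fun u hu => by rw [hg']; simp only [hu, if_true]
  obtain ⟨B', Ps', hpk⟩ := exists_pkpp (G := G) (C := cz G Z T hm z) (H := hz G Z T hm z)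
    (tl := tlo G T hm) fun _ _ => 0
  have hc : (Ps z).card = Ps'.card := le_antisymm (hmin _ _ hpk.toPk) (hpk.min _ _ (hB z hzT))
  have e1 : ∑ u ∈ pkf (B z) (Ps z), (ivl u : ℤ) = ∑ u ∈ pkf B' Ps', (ivl u : ℤ) := by
    have h1 := (hB z hzT).sum_ivl
    have h2 := hpk.toPk.sum_ivl
    have h3 : ∑ u ∈ pkf (B z) (Ps z), ivl u = ∑ u ∈ pkf B' Ps', ivl u := by omega
    exact_mod_cast h3
  have e2 : ∑ u ∈ K.image (cutI (tlo G T hm) z g'), (ikp (tlo G T hm) z u : ℤ)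
      = ∑ u ∈ K, (g u : ℤ) := by
    rw [sum_cut h hB hK]
    refine sum_congr rfl fun u hu => ?_
    rw [cutI_ikp (by rw [hgK u hu]; exact hg1 u hu) (by rw [hgK u hu]; exact hg2 u hu), hgK u hu]
  have e3 : ∑ u ∈ K.image (cutI (tlo G T hm) z g'),
      ((rcl G (cz G Z T hm) (tlo G T hm) (xmn G (cz G Z T hm) (tlo G T hm) z) z u).card : ℤ)
      = ∑ u ∈ K, (if (ikp (tlo G T hm) z u : ℤ) ≤ (g u : ℤ)
            then (imn G (cz G Z T hm) (tlo G T hm) z u : ℤ) else 0) := by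
    rw [sum_cut h hB hK]
    refine sum_congr rfl fun u hu => ?_
    rw [cutI_rcl (by rw [hgK u hu]; exact hg2 u hu), hgK u hu]
  have h1 := h.tzlXF hp (B := Function.update B z B') (Ps := Function.update Ps z Ps')
    (φ := fun _ _ => 0)
    (Uf := fun x => (pkf (B x) (Ps x)).image (cutI (tlo G T hm) z g'))
    (fun x hx => by
      rw [hg']
      exact fam_cut h hB hg1 hx) hzT (by
      rw [Function.update_self, Function.update_self]
      exact hpk) (K := K.image (cutI (tlo G T hm) z g')) (fun u hu1 => by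
      obtain ⟨v, hv, rfl⟩ := mem_image.1 hu1
      obtain ⟨x, hx, hvx⟩ := mem_biUnion.1 (hK hv)
      exact mem_biUnion.2 ⟨x, hx, mem_image_of_mem _ hvx⟩)
    (X := xmn G (cz G Z T hm) (tlo G T hm) z) (fun Q => xmn_sub) (fun Q => card_xmn_le)
    (by rw [e2]; exact h0)
  rw [Function.update_self, Function.update_self, ← e1, e2, e3] at h1
  exact h1

/-- **LEMMA N+ AT LEVELS, any packings with the least number of parts** -/
theorem WCoreK.slLv (hp : 2 * r ≤ p) (h : WCoreK G Z T r m n p hm)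
    (hB : ∀ x ∈ T, Pk G (cz G Z T hm x) (hz G Z T hm x) (tlo G T hm) (B x) (Ps x))
    {z : V} (hzT : z ∈ T)
    (hmin : ∀ B' Ps', Pk G (cz G Z T hm z) (hz G Z T hm z) (tlo G T hm) B' Ps' →
      (Ps z).card ≤ Ps'.card)
    {K : Finset (Itm V)}
    (hK : K ⊆ (T.erase z).biUnion fun x => pkf (B x) (Ps x)) {g : Itm V → ℕ}
    (hg1 : ∀ u ∈ K, 1 ≤ g u) (hg2 : ∀ u ∈ K, g u ≤ ikp (tlo G T hm) z u)
    (h0 : 0 ≤ sI hm r Z z + ∑ u ∈ K, (g u : ℤ)) :
    eI G hm Z z + (∑ u ∈ K, (g u : ℤ)) * tI G Z T hm r Z z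
        + 2 * (∑ u ∈ K, (g u : ℤ)) * (sI hm r Z z + 1)
        + (∑ u ∈ K, (g u : ℤ)) * (2 * (∑ u ∈ K, (g u : ℤ)) - 1)
        + ((r : ℤ) - 1) * (sI hm r Z z + ∑ u ∈ K, (g u : ℤ))
      ≤ 2 * ((∑ u ∈ pkf (B z) (Ps z), (ivl u : ℤ) + ∑ u ∈ K, (g u : ℤ))
          * (tI G Z T hm r Z z + 2 * (sI hm r Z z + ∑ u ∈ K, (g u : ℤ)) + 1))
        + ∑ u ∈ K, (if (ikp (tlo G T hm) z u : ℤ) ≤ (g u : ℤ)
            then (imn G (cz G Z T hm) (tlo G T hm) z u : ℤ) else 0) := by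
  obtain ⟨g', hg'⟩ : ∃ g' : Itm V → ℕ, g' = fun u => if u ∈ K then g u else ikp (tlo G T hm) z u :=
    ⟨_, rfl⟩
  have hgK : ∀ u ∈ K, g' u = g u := fun u hu => by rw [hg']; simp only [hu, if_true]
  obtain ⟨B', Ps', hpk⟩ := exists_pkpp (G := G) (C := cz G Z T hm z) (H := hz G Z T hm z)
    (tl := tlo G T hm) fun _ _ => 0
  have hc : (Ps z).card = Ps'.card := le_antisymm (hmin _ _ hpk.toPk) (hpk.min _ _ (hB z hzT))
  have e1 : ∑ u ∈ pkf (B z) (Ps z), (ivl u : ℤ) = ∑ u ∈ pkf B' Ps', (ivl u : ℤ) := by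
    have h1 := (hB z hzT).sum_ivl
    have h2 := hpk.toPk.sum_ivl
    have h3 : ∑ u ∈ pkf (B z) (Ps z), ivl u = ∑ u ∈ pkf B' Ps', ivl u := by omega
    exact_mod_cast h3
  have e2 : ∑ u ∈ K.image (cutI (tlo G T hm) z g'), (ikp (tlo G T hm) z u : ℤ)
      = ∑ u ∈ K, (g u : ℤ) := by
    rw [sum_cut h hB hK]
    refine sum_congr rfl fun u hu => ?_
    rw [cutI_ikp (by rw [hgK u hu]; exact hg1 u hu) (by rw [hgK u hu]; exact hg2 u hu), hgK u hu]
  have e3 : ∑ u ∈ K.image (cutI (tlo G T hm) z g'),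
      ((rcl G (cz G Z T hm) (tlo G T hm) (xmn G (cz G Z T hm) (tlo G T hm) z) z u).card : ℤ)
      = ∑ u ∈ K, (if (ikp (tlo G T hm) z u : ℤ) ≤ (g u : ℤ)
            then (imn G (cz G Z T hm) (tlo G T hm) z u : ℤ) else 0) := by
    rw [sum_cut h hB hK]
    refine sum_congr rfl fun u hu => ?_
    rw [cutI_rcl (by rw [hgK u hu]; exact hg2 u hu), hgK u hu]
  have h1 := h.slkXF hp (B := Function.update B z B') (Ps := Function.update Ps z Ps')
    (φ := fun _ _ => 0)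
    (Uf := fun x => (pkf (B x) (Ps x)).image (cutI (tlo G T hm) z g'))
    (fun x hx => by
      rw [hg']
      exact fam_cut h hB hg1 hx) hzT (by
      rw [Function.update_self, Function.update_self]
      exact hpk) (K := K.image (cutI (tlo G T hm) z g')) (fun u hu1 => by
      obtain ⟨v, hv, rfl⟩ := mem_image.1 hu1
      obtain ⟨x, hx, hvx⟩ := mem_biUnion.1 (hK hv)
      exact mem_biUnion.2 ⟨x, hx, mem_image_of_mem _ hvx⟩)
    (X := xmn G (cz G Z T hm) (tlo G T hm) z) (fun Q => xmn_sub) (fun Q => card_xmn_le)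
    (by rw [e2]; exact h0)
  rw [Function.update_self, Function.update_self, ← e1, e2, e3] at h1
  exact h1

end TzL

end Pool.Agent.Lib.MP_f04ccf_co
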