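import Pool.Agent.Lib.MP_f04ccf_co.M.PA

/-!
MP_f04ccf_co: the uniform-`c` inequality (notes 15024, 15082): (P) on `C ∪ N_D(c)`, averaged over the
points `c` of the clique `C`, and helper24's theorem 15082 (3): one host, one serving far row.
-/

set_option autoImplicit false

namespace Pool.Agent.Lib.MP_f04ccf_co

open Finset

attribute [local instance] Classical.propDecidable

section Uc

variable {V : Type*} {G : SimpleGraph V} {r : ℕ}

/-- the sum over the (ordered) missing pairs of `D` of the number of points of `C` which see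
neither end -/
noncomputable def both (G : SimpleGraph V) (C D : Finset V) : ℕ :=
  ∑ w ∈ D, ∑ u ∈ D.filter (fun u => u ≠ w ∧ ¬ G.Adj w u),
    (C.filter (fun c => ¬ G.Adj w c ∧ ¬ G.Adj u c)).card

lemma both_eq_zero {C D : Finset V} (h : ∀ w ∈ D, ∀ u ∈ D, u ≠ w → ¬ G.Adj w u →
    ∀ c ∈ C, G.Adj w c ∨ G.Adj u c) : both G C D = 0 := by
  unfold both
  refine sum_eq_zero fun w hw => sum_eq_zero fun u hu => ?_
  obtain ⟨h1, h2, h3⟩ := mem_filter.1 hu
  rw [card_eq_zero, filter_eq_empty_iff]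
  rintro c hc ⟨h4, h5⟩
  rcases h w hw u h1 h2 h3 c hc with h6 | h6
  · exact h4 h6
  · exact h5 h6

/-- inclusion and exclusion on `C` -/
lemma card_see (C : Finset V) (w u : V) :
    (C.filter (fun c => G.Adj w c ∧ G.Adj u c)).card + C.card
      = dg G C w + dg G C u + (C.filter (fun c => ¬ G.Adj w c ∧ ¬ G.Adj u c)).card := by
  have h1 : dg G C w + dg G C u = (C.filter (fun c => G.Adj w c ∨ G.Adj u c)).card
      + (C.filter (fun c => G.Adj w c ∧ G.Adj u c)).card := by
    unfold dg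
    rw [← card_union_add_card_inter, ← filter_or, ← filter_and]
  have h2 := card_filter_add_card_filter_not (s := C) (fun c => G.Adj w c ∨ G.Adj u c)
  have h3 : (C.filter (fun c => ¬ (G.Adj w c ∨ G.Adj u c))).card
      = (C.filter (fun c => ¬ G.Adj w c ∧ ¬ G.Adj u c)).card := by
    congr 1
    apply filter_congr
    intro c _
    exact not_or
  omega

/-- the average of `NE (N_D(c))` -/
lemma sum_NE_nb (C D : Finset V) :
    (∑ c ∈ C, NE G (D.filter (fun w => G.Adj w c)) : ℤ)
      = 2 * ∑ w ∈ D, (dg G C w : ℤ) * nd G D w - C.card * NE G D + both G C D := by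
  have h1 : ∑ c ∈ C, NE G (D.filter (fun w => G.Adj w c))
      = ∑ w ∈ D, ∑ u ∈ D.filter (fun u => u ≠ w ∧ ¬ G.Adj w u),
          (C.filter (fun c => G.Adj w c ∧ G.Adj u c)).card := by
    have e1 : ∀ c ∈ C, NE G (D.filter (fun w => G.Adj w c))
        = ∑ w ∈ D, ∑ u ∈ D.filter (fun u => u ≠ w ∧ ¬ G.Adj w u),
          if G.Adj w c ∧ G.Adj u c then 1 else 0 := by
      intro c _
      unfold NE
      rw [sum_filter]
      refine sum_congr rfl fun w _ => ?_
      by_cases hw : G.Adj w c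
      · rw [if_pos hw]
        unfold nd
        rw [card_filter, sum_filter, sum_filter]
        refine sum_congr rfl fun u _ => ?_
        by_cases h2 : u ≠ w ∧ ¬ G.Adj w u
        · by_cases h3 : G.Adj u c
          · simp [h2, h3, hw]
          · simp [h3, hw]
        · by_cases h3 : G.Adj u c
          · rw [if_pos h3, if_neg h2, if_neg h2]
          · rw [if_neg h3, if_neg h2]
      · rw [if_neg hw]
        symm
        refine sum_eq_zero fun u _ => ?_
        rw [if_neg]
        exact fun h => hw h.1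
    rw [sum_congr rfl e1, sum_comm]
    refine sum_congr rfl fun w _ => ?_
    rw [sum_comm]
    refine sum_congr rfl fun u _ => ?_
    rw [card_filter]
  have h2 : ∀ w u : V, ((C.filter (fun c => G.Adj w c ∧ G.Adj u c)).card : ℤ)
      = dg G C w + dg G C u - C.card
        + (C.filter (fun c => ¬ G.Adj w c ∧ ¬ G.Adj u c)).card := by
    intro w u
    have := card_see (G := G) C w u
    have h : ((C.filter (fun c => G.Adj w c ∧ G.Adj u c)).card : ℤ) + C.card
        = dg G C w + dg G C u + (C.filter (fun c => ¬ G.Adj w c ∧ ¬ G.Adj u c)).card := by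
      exact_mod_cast this
    linarith
  have h3 : ∑ w ∈ D, ∑ u ∈ D.filter (fun u => u ≠ w ∧ ¬ G.Adj w u), (dg G C w : ℤ)
      = ∑ w ∈ D, (dg G C w : ℤ) * nd G D w := by
    refine sum_congr rfl fun w _ => ?_
    rw [sum_const, nsmul_eq_mul]
    unfold nd
    ring
  have h4 : ∑ w ∈ D, ∑ u ∈ D.filter (fun u => u ≠ w ∧ ¬ G.Adj w u), (dg G C u : ℤ)
      = ∑ w ∈ D, (dg G C w : ℤ) * nd G D w := by
    rw [← h3]
    rw [sum_congr rfl fun w _ => sum_filter _ _, sum_congr rfl fun w _ => sum_filter _ _, sum_comm]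
    refine sum_congr rfl fun w _ => sum_congr rfl fun u _ => ?_
    by_cases h : w ≠ u ∧ ¬ G.Adj u w
    · rw [if_pos h, if_pos ⟨h.1.symm, fun h' => h.2 h'.symm⟩]
    · rw [if_neg h, if_neg fun h' => h ⟨h'.1.symm, fun h'' => h'.2 h''.symm⟩]
  have h5 : ∑ w ∈ D, ∑ u ∈ D.filter (fun u => u ≠ w ∧ ¬ G.Adj w u), (C.card : ℤ)
      = C.card * NE G D := by
    unfold NE
    push_cast
    rw [mul_sum]
    refine sum_congr rfl fun w _ => ?_
    rw [sum_const, nsmul_eq_mul]
    unfold nd
    ring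
  have h6 : (∑ c ∈ C, NE G (D.filter (fun w => G.Adj w c)) : ℤ)
      = ∑ w ∈ D, ∑ u ∈ D.filter (fun u => u ≠ w ∧ ¬ G.Adj w u),
          ((C.filter (fun c => G.Adj w c ∧ G.Adj u c)).card : ℤ) := by
    exact_mod_cast h1
  rw [h6, sum_congr rfl fun w _ => sum_congr rfl fun u _ => h2 w u]
  simp only [sum_add_distrib, sum_sub_distrib]
  rw [h3, h4, h5]
  unfold both
  push_cast
  ring

/-- **the uniform-`c` inequality** -/
theorem PG.unif (hP : PG G r) {C D : Finset V} (hC : Clq G C) (hCD : Disjoint C D) :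
    2 * ∑ w ∈ D, (dg G C w : ℤ) * (((r : ℤ) - 1) - nd G C w - nd G D w)
        + C.card * NE G D - both G C D
      ≤ C.card * (2 * ((r : ℤ) - 1) * (r - C.card)) := by
  have h1 : ∀ c ∈ C, 2 * ∑ w ∈ D.filter (fun w => G.Adj w c), (((r : ℤ) - 1) - nd G C w)
      - NE G (D.filter (fun w => G.Adj w c)) ≤ 2 * ((r : ℤ) - 1) * (r - C.card) :=
    fun c _ => hP.val hC (hCD.mono_right (filter_subset _ _))
  have h2 := sum_le_sum h1
  rw [sum_sub_distrib, sum_const, nsmul_eq_mul, ← mul_sum] at h2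
  have h3 : ∑ c ∈ C, ∑ w ∈ D.filter (fun w => G.Adj w c), (((r : ℤ) - 1) - nd G C w)
      = ∑ w ∈ D, (dg G C w : ℤ) * (((r : ℤ) - 1) - nd G C w) := by
    rw [sum_congr rfl fun c _ => sum_filter _ _, sum_comm]
    refine sum_congr rfl fun w _ => ?_
    rw [← sum_filter, sum_const, nsmul_eq_mul]
    rfl
  have h4 := sum_NE_nb (G := G) C D
  rw [h3, h4] at h2
  have h5 : ∑ w ∈ D, (dg G C w : ℤ) * (((r : ℤ) - 1) - nd G C w - nd G D w)
      = ∑ w ∈ D, (dg G C w : ℤ) * (((r : ℤ) - 1) - nd G C w)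
        - ∑ w ∈ D, (dg G C w : ℤ) * nd G D w := by
    rw [← sum_sub_distrib]
    exact sum_congr rfl fun w _ => by ring
  rw [h5]
  linarith

/-- **helper24's theorem, 15082 (3)**: `X` is the common full host, `Y` the far row which serves all
missing pairs of `D`; `T'` is the sum of the deficits of the other rows.  The last hypothesis is the
neighbourhood inequality `d(w) ≤ 1 + u_y(w) + T'` for the partial servers. -/
theorem PG.one_host (hP : PG G r) (hr : 2 ≤ r) {X Y D : Finset V} (hX : Clq G X) (hY : Clq G Y)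
    (hXD : Disjoint X D) (hYD : Disjoint Y D) (T' : ℕ)
    (hD : (D.card : ℤ) = 1 + (r - X.card) + (r - Y.card) + T') (hDr : D.card ≤ r)
    (hXr : X.card ≤ r) (hYr : Y.card + 1 ≤ r)
    (hfull : ∀ w ∈ D, nd G X w = 0)
    (hserv : ∀ w ∈ D, ∀ u ∈ D, u ≠ w → ¬ G.Adj w u → ∀ c ∈ Y, G.Adj w c ∨ G.Adj u c)
    (hN : ∀ w ∈ D, nd G Y w ≠ 0 → nd G D w + nd G Y w ≤ r + T') : False := by
  have hr' : (2 : ℤ) ≤ r := by exact_mod_cast hr
  have h1 := hP.val hX hXD
  rw [sum_congr rfl fun w hw => by rw [hfull w hw]] at h1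
  simp only [Nat.cast_zero, sub_zero, sum_const, nsmul_eq_mul] at h1
  have h2 := hP.unif hY hYD
  rw [both_eq_zero hserv] at h2
  -- the partial servers
  have hY0 : 1 ≤ Y.card := by
    by_contra h
    have h3 : Y.card = 0 := by omega
    rw [h3] at hD
    have h4 : (D.card : ℤ) ≤ r := by exact_mod_cast hDr
    have h5 : (X.card : ℤ) ≤ r := by exact_mod_cast hXr
    push_cast at hD
    have h6 : (0 : ℤ) ≤ T' := by positivity
    linarith
  have hYr' : (Y.card : ℤ) + 1 ≤ r := by exact_mod_cast hYr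
  have hY0' : (1 : ℤ) ≤ Y.card := by exact_mod_cast hY0
  have hDr' : (D.card : ℤ) ≤ r := by exact_mod_cast hDr
  have h3 : ∀ w ∈ D, -((1 + T' : ℤ) * (Y.card - 1))
      ≤ (dg G Y w : ℤ) * (((r : ℤ) - 1) - nd G Y w - nd G D w) := by
    intro w hw
    have hwY : w ∉ Y := fun h => (disjoint_left.1 hYD h) hw
    have e1 := nd_of_notMem (G := G) hwY
    have e1' : (dg G Y w : ℤ) + nd G Y w = Y.card := by exact_mod_cast e1
    have e0 : (0 : ℤ) ≤ dg G Y w := by positivity
    by_cases h0 : nd G Y w = 0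
    · have e2 := dg_add_nd (G := G) hw
      have e3 : (nd G D w : ℤ) + 1 ≤ D.card := by
        have : nd G D w + 1 ≤ D.card := by omega
        exact_mod_cast this
      rw [h0]
      have e4 : (0 : ℤ) ≤ (dg G Y w : ℤ) * (((r : ℤ) - 1) - (0 : ℕ) - nd G D w) := by
        apply mul_nonneg e0
        push_cast
        linarith
      have e5 : (0 : ℤ) ≤ (1 + T' : ℤ) * (Y.card - 1) := by
        apply mul_nonneg (by positivity)
        linarith
      linarith
    · have e2 : (nd G D w : ℤ) + nd G Y w ≤ r + T' := by exact_mod_cast hN w hw h0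
      have e3 : (dg G Y w : ℤ) ≤ Y.card - 1 := by
        have : 1 ≤ nd G Y w := Nat.one_le_iff_ne_zero.2 h0
        have : (1 : ℤ) ≤ nd G Y w := by exact_mod_cast this
        linarith
      have e4 : -(1 + T' : ℤ) ≤ ((r : ℤ) - 1) - nd G Y w - nd G D w := by linarith
      have e5 : (0 : ℤ) ≤ 1 + T' := by positivity
      calc -((1 + T' : ℤ) * (Y.card - 1)) ≤ -((1 + T' : ℤ) * dg G Y w) := by
            have := mul_le_mul_of_nonneg_left e3 e5
            linarith
        _ = (dg G Y w : ℤ) * (-(1 + T' : ℤ)) := by ring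
        _ ≤ _ := mul_le_mul_of_nonneg_left e4 e0
  have h4 := sum_le_sum h3
  rw [sum_const, nsmul_eq_mul] at h4
  have h5 : (D.card : ℤ) * ((1 + T' : ℤ) * (Y.card - 1)) ≤ r * ((1 + T' : ℤ) * (Y.card - 1)) := by
    apply mul_le_mul_of_nonneg_right hDr'
    apply mul_nonneg (by positivity)
    linarith
  -- `NE(D) ≥ 2 R (1 + T_y + T')`
  have h6 : 2 * ((r : ℤ) - 1) * (1 + (r - Y.card) + T') ≤ NE G D := by
    rw [hD] at h1
    nlinarith
  have h7 : (Y.card : ℤ) * (2 * ((r : ℤ) - 1) * (1 + (r - Y.card) + T')) ≤ Y.card * NE G D :=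
    mul_le_mul_of_nonneg_left h6 (by linarith)
  have h8 : (1 + T' : ℤ) * (Y.card * ((r : ℤ) - 1)) ≤ (1 + T' : ℤ) * (r * (Y.card - 1)) := by
    push_cast at h2
    nlinarith
  have h9 : (0 : ℤ) < 1 + T' := by positivity
  have h10 := le_of_mul_le_mul_left h8 h9
  nlinarith

end Uc

end Pool.Agent.Lib.MP_f04ccf_co
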