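import Pool.Agent.Lib.MP_f04ccf_co.M.Host

/-!
MP_f04ccf_co: the exact laws for the family of all maximum independent sets (notes 14850, 14888):
`MT G U k J B` = independent `k`-subsets `T` of `U` with `J ⊆ T`, `T ∩ B = ∅`.
Everything comes from one involution `(T, y, b) ↦ (T - y + b, b, y)`, `y ∈ T \ J`, `b ∈ C_y (T) \ B`.
-/

set_option autoImplicit false

namespace Pool.Agent.Lib.MP_f04ccf_co.Mn

open Finset

attribute [local instance] Classical.propDecidable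

variable {V : Type*} {G : SimpleGraph V} {U J B : Finset V} {k : ℕ}

/-- the family -/
noncomputable def MT (G : SimpleGraph V) (U : Finset V) (k : ℕ) (J B : Finset V) :
    Finset (Finset V) :=
  (U.powersetCard k).filter (fun T => Ind G T ∧ J ⊆ T ∧ Disjoint T B)

lemma mem_MT {T : Finset V} :
    T ∈ MT G U k J B ↔ (T ⊆ U ∧ T.card = k) ∧ Ind G T ∧ J ⊆ T ∧ Disjoint T B := by
  unfold MT
  rw [mem_filter, mem_powersetCard]

/-- the triples `(T, y, b)` -/
noncomputable def TR (G : SimpleGraph V) (U : Finset V) (k : ℕ) (J B : Finset V) :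
    Finset (Finset V × V × V) :=
  (MT G U k J B ×ˢ U ×ˢ U).filter (fun p => (p.2.1 ∈ p.1 ∧ p.2.1 ∉ J) ∧
    p.2.2 ∈ pn G U p.1 p.2.1 ∧ p.2.2 ∉ B)

/-- the involution -/
noncomputable def sw (p : Finset V × V × V) : Finset V × V × V :=
  (insert p.2.2 (p.1.erase p.2.1), p.2.2, p.2.1)

lemma mem_TR {p : Finset V × V × V} : p ∈ TR G U k J B ↔
    p.1 ∈ MT G U k J B ∧ (p.2.1 ∈ p.1 ∧ p.2.1 ∉ J) ∧ p.2.2 ∈ pn G U p.1 p.2.1 ∧ p.2.2 ∉ B := by
  unfold TR
  rw [mem_filter, mem_product, mem_product]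
  constructor
  · rintro ⟨⟨h1, _⟩, h2⟩
    exact ⟨h1, h2⟩
  · rintro ⟨h1, h2⟩
    exact ⟨⟨h1, (mem_MT.1 h1).1.1 h2.1.1, pn_sub _ _ _ h2.2.1⟩, h2⟩

lemma sw_mem {p : Finset V × V × V} (hp : p ∈ TR G U k J B) : sw p ∈ TR G U k J B := by
  obtain ⟨T, y, b⟩ := p
  obtain ⟨h1, ⟨hy, hyJ⟩, hb, hbB⟩ := mem_TR.1 hp
  simp only at h1 hy hyJ hb hbB
  obtain ⟨⟨hTU, hTc⟩, hTi, hJT, hTB⟩ := mem_MT.1 h1
  refine mem_TR.2 ⟨mem_MT.2 ⟨⟨?_, ?_⟩, ?_, ?_, ?_⟩, ⟨mem_insert_self _ _, ?_⟩, ?_, ?_⟩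
  · exact swap_sub hTU hb
  · show (insert b (T.erase y)).card = k
    rw [swap_card hTi hy hb, hTc]
  · exact swap_ind hTi hy hb
  · intro z hz
    refine mem_insert_of_mem (mem_erase.2 ⟨?_, hJT hz⟩)
    rintro rfl
    exact hyJ hz
  · rw [disjoint_left]
    intro z hz hzB
    rcases mem_insert.1 hz with h | h
    · rw [h] at hzB; exact hbB hzB
    · exact disjoint_left.1 hTB (mem_erase.1 h).2 hzB
  · show b ∉ J
    intro hbJ
    by_cases hby : b = y
    · rw [hby] at hbJ; exact hyJ hbJ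
    · exact pn_notMem hTi hy hb (mem_erase.2 ⟨hby, hJT hbJ⟩)
  · show y ∈ pn G U (insert b (T.erase y)) b
    rw [mem_pn]
    refine ⟨hTU hy, ?_⟩
    rcases (mem_pn.1 hb).2 with h2 | ⟨h2, h3⟩
    · exact Or.inl h2.symm
    · refine Or.inr ⟨h2.symm, fun w hw hyw => ?_⟩
      rcases mem_insert.1 hw with h4 | h4
      · exact h4
      · exact absurd hyw (hTi y hy w (mem_erase.1 h4).2)
  · show y ∉ B
    exact disjoint_left.1 hTB hy

lemma sw_sw {p : Finset V × V × V} (hp : p ∈ TR G U k J B) : sw (sw p) = p := by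
  obtain ⟨T, y, b⟩ := p
  obtain ⟨h1, ⟨hy, hyJ⟩, hb, hbB⟩ := mem_TR.1 hp
  simp only at h1 hy hyJ hb hbB
  obtain ⟨⟨hTU, hTc⟩, hTi, hJT, hTB⟩ := mem_MT.1 h1
  have h2 : b ∉ T.erase y := pn_notMem hTi hy hb
  show (insert y ((insert b (T.erase y)).erase b), y, b) = (T, y, b)
  rw [erase_insert h2, insert_erase hy]

/-- **the involution law** -/
theorem sum_sw {M : Type*} [AddCommMonoid M] (φ : Finset V × V × V → M) :
    ∑ p ∈ TR G U k J B, φ p = ∑ p ∈ TR G U k J B, φ (sw p) := by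
  symm
  refine sum_nbij' sw sw (fun p hp => sw_mem hp) (fun p hp => sw_mem hp) (fun p hp => sw_sw hp)
    (fun p hp => sw_sw hp) (fun p hp => rfl)

/-- the sum over the triples as an iterated sum -/
lemma sum_TR {M : Type*} [AddCommMonoid M] (φ : Finset V → V → V → M) :
    ∑ p ∈ TR G U k J B, φ p.1 p.2.1 p.2.2 =
      ∑ T ∈ MT G U k J B, ∑ y ∈ T \ J, ∑ b ∈ pn G U T y \ B, φ T y b := by
  have h1 : ∀ T ∈ MT G U k J B, ∑ y ∈ T \ J, ∑ b ∈ pn G U T y \ B, φ T y b =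
      ∑ q ∈ (U ×ˢ U).filter (fun q => (q.1 ∈ T ∧ q.1 ∉ J) ∧ q.2 ∈ pn G U T q.1 ∧ q.2 ∉ B),
        φ T q.1 q.2 := by
    intro T hT
    rw [sum_sigma']
    refine sum_nbij' (fun s => (s.1, s.2)) (fun q => ⟨q.1, q.2⟩) ?_ ?_ ?_ ?_ ?_
    · intro s hs
      rw [mem_sigma, mem_sdiff, mem_sdiff] at hs
      rw [mem_filter, mem_product]
      exact ⟨⟨(mem_MT.1 hT).1.1 hs.1.1, pn_sub _ _ _ hs.2.1⟩, hs.1, hs.2⟩
    · intro q hq
      rw [mem_filter, mem_product] at hq
      rw [mem_sigma, mem_sdiff, mem_sdiff]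
      exact ⟨hq.2.1, hq.2.2⟩
    · intro s _; rfl
    · intro q _; rfl
    · intro s _; rfl
  rw [sum_congr rfl h1, sum_sigma']
  refine sum_nbij' (fun p => ⟨p.1, p.2⟩) (fun s => (s.1, s.2)) ?_ ?_ ?_ ?_ ?_
  · intro p hp
    have h2 := mem_TR.1 hp
    rw [mem_sigma, mem_filter, mem_product]
    exact ⟨h2.1, ⟨(mem_MT.1 h2.1).1.1 h2.2.1.1, pn_sub _ _ _ h2.2.2.1⟩, h2.2⟩
  · intro s hs
    rw [mem_sigma, mem_filter] at hs
    exact mem_TR.2 ⟨hs.1, hs.2.2⟩
  · intro p _; rfl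
  · intro s _; rfl
  · intro p _; rfl

/-- the involution law, iterated sums -/
theorem law {M : Type*} [AddCommMonoid M] (φ : Finset V → V → V → M) :
    ∑ T ∈ MT G U k J B, ∑ y ∈ T \ J, ∑ b ∈ pn G U T y \ B, φ T y b =
      ∑ T ∈ MT G U k J B, ∑ y ∈ T \ J, ∑ b ∈ pn G U T y \ B,
        φ (insert b (T.erase y)) b y := by
  rw [← sum_TR, ← sum_TR (φ := fun T y b => φ (insert b (T.erase y)) b y), sum_sw]
  rfl

/-- **E1.** -/
theorem E1 (ψ : V → ℤ) :
    ∑ T ∈ MT G U k J B, ∑ y ∈ T \ J, ∑ b ∈ pn G U T y \ B, ψ b =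
      ∑ T ∈ MT G U k J B, ∑ y ∈ T \ J, ((pn G U T y \ B).card : ℤ) * ψ y := by
  rw [law (fun _ _ b => ψ b)]
  refine sum_congr rfl fun T _ => sum_congr rfl fun y _ => ?_
  rw [sum_const, nsmul_eq_mul]

/-- nonneighbours of `w` in the rows of its `T`-neighbours -/
noncomputable def inn (G : SimpleGraph V) (U J B T : Finset V) (w : V) : ℕ :=
  ∑ y ∈ (T \ J).filter (fun y => G.Adj w y), ((pn G U T y \ B).filter (fun b => ¬ G.Adj w b)).card

/-- neighbours of `w` in the other rows -/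
noncomputable def outt (G : SimpleGraph V) (U J B T : Finset V) (w : V) : ℕ :=
  ∑ y ∈ (T \ J).filter (fun y => ¬ G.Adj w y), ((pn G U T y \ B).filter (fun b => G.Adj w b)).card

lemma dg_swap {T : Finset V} {y b w : V} (hy : y ∈ T) (hb : b ∉ T.erase y) (hyw : ¬ G.Adj w y)
    (hbw : G.Adj w b) : dg G (insert b (T.erase y)) w = dg G T w + 1 := by
  unfold dg
  rw [filter_insert, if_pos hbw, card_insert_of_notMem (fun h => hb (mem_filter.1 h).1)]
  congr 2
  ext x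
  rw [mem_filter, mem_filter, mem_erase]
  constructor
  · rintro ⟨⟨_, h1⟩, h2⟩; exact ⟨h1, h2⟩
  · rintro ⟨h1, h2⟩
    refine ⟨⟨?_, h1⟩, h2⟩
    rintro rfl
    exact hyw h2

/-- the indicator version of `outt` -/
lemma outt_eq (T : Finset V) (w : V) : outt G U J B T w =
    ∑ y ∈ T \ J, ∑ b ∈ pn G U T y \ B, (if ¬ G.Adj w y ∧ G.Adj w b then 1 else 0 : ℕ) := by
  unfold outt
  rw [sum_filter]
  refine sum_congr rfl fun y _ => ?_
  by_cases h : G.Adj w y
  · rw [if_neg (not_not.2 h)]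
    symm
    refine sum_eq_zero fun b _ => if_neg fun h2 => h2.1 h
  · rw [if_pos h, card_filter]
    refine sum_congr rfl fun b _ => ?_
    by_cases h2 : G.Adj w b
    · rw [if_pos h2, if_pos ⟨h, h2⟩]
    · rw [if_neg h2, if_neg fun h3 => h2 h3.2]

/-- the indicator version of `inn` -/
lemma inn_eq (T : Finset V) (w : V) : inn G U J B T w =
    ∑ y ∈ T \ J, ∑ b ∈ pn G U T y \ B, (if G.Adj w y ∧ ¬ G.Adj w b then 1 else 0 : ℕ) := by
  unfold inn
  rw [sum_filter]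
  refine sum_congr rfl fun y _ => ?_
  by_cases h : G.Adj w y
  · rw [if_pos h, card_filter]
    refine sum_congr rfl fun b _ => ?_
    by_cases h2 : G.Adj w b
    · rw [if_neg (not_not.2 h2), if_neg fun h3 => h3.2 h2]
    · rw [if_pos h2, if_pos ⟨h, h2⟩]
  · rw [if_neg h]
    symm
    refine sum_eq_zero fun b _ => if_neg fun h2 => h h2.1

/-- **E2**, pointwise in `w` -/
theorem E2 (w : V) (j : ℕ) :
    ∑ T ∈ (MT G U k J B).filter (fun T => dg G T w = j), outt G U J B T w =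
      ∑ T ∈ (MT G U k J B).filter (fun T => dg G T w = j + 1), inn G U J B T w := by
  have h1 : ∑ T ∈ (MT G U k J B).filter (fun T => dg G T w = j), outt G U J B T w =
      ∑ T ∈ MT G U k J B, ∑ y ∈ T \ J, ∑ b ∈ pn G U T y \ B,
        (if dg G T w = j ∧ ¬ G.Adj w y ∧ G.Adj w b then 1 else 0 : ℕ) := by
    rw [sum_filter]
    refine sum_congr rfl fun T _ => ?_
    by_cases h : dg G T w = j
    · rw [if_pos h, outt_eq]
      refine sum_congr rfl fun y _ => sum_congr rfl fun b _ => ?_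
      by_cases h2 : ¬ G.Adj w y ∧ G.Adj w b
      · rw [if_pos h2, if_pos ⟨h, h2⟩]
      · rw [if_neg h2, if_neg fun h3 => h2 h3.2]
    · rw [if_neg h]
      symm
      exact sum_eq_zero fun y _ => sum_eq_zero fun b _ => if_neg fun h3 => h h3.1
  have h2 : ∑ T ∈ (MT G U k J B).filter (fun T => dg G T w = j + 1), inn G U J B T w =
      ∑ T ∈ MT G U k J B, ∑ y ∈ T \ J, ∑ b ∈ pn G U T y \ B,
        (if dg G T w = j + 1 ∧ G.Adj w y ∧ ¬ G.Adj w b then 1 else 0 : ℕ) := by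
    rw [sum_filter]
    refine sum_congr rfl fun T _ => ?_
    by_cases h : dg G T w = j + 1
    · rw [if_pos h, inn_eq]
      refine sum_congr rfl fun y _ => sum_congr rfl fun b _ => ?_
      by_cases h2 : G.Adj w y ∧ ¬ G.Adj w b
      · rw [if_pos h2, if_pos ⟨h, h2⟩]
      · rw [if_neg h2, if_neg fun h3 => h2 h3.2]
    · rw [if_neg h]
      symm
      exact sum_eq_zero fun y _ => sum_eq_zero fun b _ => if_neg fun h3 => h h3.1
  rw [h1, h2, law]
  refine sum_congr rfl fun T hT => sum_congr rfl fun y hy => sum_congr rfl fun b hb => ?_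
  obtain ⟨⟨hTU, hTc⟩, hTi, hJT, hTB⟩ := mem_MT.1 hT
  rw [mem_sdiff] at hy hb
  have hbT : b ∉ T.erase y := pn_notMem hTi hy.1 hb.1
  by_cases hyw : G.Adj w y
  · by_cases hbw : G.Adj w b
    · rw [if_neg (fun h => h.2.1 hbw), if_neg (fun h => h.2.2 hbw)]
    · have h3 : dg G T w = dg G (insert b (T.erase y)) w + 1 := by
        have h4 : y ∉ (insert b (T.erase y)).erase b := by
          intro h5
          rw [erase_insert hbT] at h5
          exact (mem_erase.1 h5).1 rfl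
        have h5 := dg_swap (G := G) (T := insert b (T.erase y)) (y := b) (b := y) (w := w)
          (mem_insert_self _ _) h4 hbw hyw
        rw [erase_insert hbT, insert_erase hy.1] at h5
        exact h5
      by_cases h6 : dg G T w = j + 1
      · rw [if_pos ⟨by omega, hbw, hyw⟩, if_pos ⟨h6, hyw, hbw⟩]
      · rw [if_neg (fun h => h6 (by omega)), if_neg (fun h => h6 h.1)]
  · rw [if_neg (fun h => hyw h.2.2), if_neg (fun h => hyw h.2.1)]

/-- **(3)**, pointwise in `w`: over the `T` with `f (w) ≥ 2`, inflow - outflow is the inflow over the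
`T` with `f (w) = 2`. -/
theorem E3 (w : V) (m : ℕ) :
    ∑ j ∈ Icc 2 m, ∑ T ∈ (MT G U k J B).filter (fun T => dg G T w = j), (inn G U J B T w : ℤ) =
      ∑ T ∈ (MT G U k J B).filter (fun T => dg G T w = 2), (inn G U J B T w : ℤ) * (if 2 ≤ m then 1 else 0) +
      ∑ j ∈ Ico 2 m, ∑ T ∈ (MT G U k J B).filter (fun T => dg G T w = j), (outt G U J B T w : ℤ) := by
  by_cases hm : 2 ≤ m
  · rw [if_pos hm]
    simp only [mul_one]
    rw [show Icc 2 m = insert 2 (Icc 3 m) from ?_, sum_insert ?_]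
    · congr 1
      refine sum_nbij' (fun j => j - 1) (fun j => j + 1) ?_ ?_ ?_ ?_ ?_
      · intro j hj; rw [mem_Icc] at hj; rw [mem_Ico]; omega
      · intro j hj; rw [mem_Ico] at hj; rw [mem_Icc]; omega
      · intro j hj; rw [mem_Icc] at hj; show j - 1 + 1 = j; omega
      · intro j hj; show j + 1 - 1 = j; omega
      · intro j hj
        rw [mem_Icc] at hj
        have := E2 (G := G) (U := U) (k := k) (J := J) (B := B) w (j - 1)
        rw [Nat.sub_add_cancel (by omega)] at this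
        exact_mod_cast this.symm
    · rw [mem_Icc]; omega
    · ext j; rw [mem_insert, mem_Icc, mem_Icc]; omega
  · rw [if_neg hm]
    have h1 : Icc 2 m = ∅ := Icc_eq_empty (by omega)
    have h2 : Ico 2 m = ∅ := Ico_eq_empty (by omega)
    rw [h1, h2]
    simp

end Pool.Agent.Lib.MP_f04ccf_co.Mn
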