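import Mathlib

/-!
MP_f04ccf_co, PLAN W, closed form on the final set `V` of rows (notes 16792, 16785, 16808): the pure
inequality, real numbers, explicit losses.

`VI.gap`: the error of the full row test is `(2 y - mu) (2 p + 1 - mu) / 2`.
`VI.t_low`: from the row test `t ≥ R / y - (3 + l)`.
`VI.jensen`: `Σ (Y - y) t` over the rows of `W` by the tangent at `y = (Y + 2 q) / m`.
`VI.dense`: `Σ (O - y) z + Σ z² / 2 ≥ Z² / 4` if `Σ y ≤ 2 O`, `y ≤ O`, `Z = Σ z ≤ O`.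
-/

set_option autoImplicit false

namespace Pool.Agent.Lib.MP_f04ccf_co

open Finset

namespace VI

/-- the error of the full row test -/
lemma gap (p k mu : ℝ) :
    (p + k + 1) * (p + k) / 2 - (mu + k - p) * (mu + k - p - 1) / 2
      = (2 * (mu + k) - mu) * (2 * p + 1 - mu) / 2 := by
  ring

/-- the error is at most `(2 p + 1) y` -/
lemma gap_le {p k mu : ℝ} (hk : 0 ≤ k) (hm : 0 ≤ mu) (hp : 0 ≤ p) :
    (2 * (mu + k) - mu) * (2 * p + 1 - mu) / 2 ≤ (2 * p + 1) * (mu + k) := by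
  nlinarith [mul_nonneg hm hk, mul_nonneg hm hp, mul_nonneg hm hm]

/-- the row test gives `R ≤ y (t + 3 + l)` -/
lemma t_low {R y p t l : ℝ} (hy : 0 < y) (hp : 1 ≤ p) (ht : 0 ≤ t) (hl : 0 ≤ l)
    (hT : R * p ≤ y * t + (2 * p + 1 + l) * y) : R ≤ y * (t + 3 + l) := by
  rcases le_total (2 * y) R with h | h
  · nlinarith [mul_nonneg (sub_nonneg.2 hp) (sub_nonneg.2 h)]
  · nlinarith [mul_nonneg hy.le ht, mul_nonneg hy.le hl]

/-- one row: the tangent form -/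
lemma row_tan {R y t c Y lam : ℝ} (hy : 0 < y) (hyY : y ≤ Y) (hR : 0 ≤ R)
    (hT : R ≤ y * (t + c)) :
    R * Y * (2 * lam - lam ^ 2 * y) - R - c * Y + c * y ≤ (Y - y) * t := by
  have h1 : R / y ≤ t + c := by
    rw [div_le_iff₀ hy]
    linarith [mul_comm y (t + c)]
  have h2 : (Y - y) * (R / y - c) ≤ (Y - y) * t :=
    mul_le_mul_of_nonneg_left (by linarith) (by linarith)
  have h3 : 2 * lam - lam ^ 2 * y ≤ 1 / y := by
    rw [le_div_iff₀ hy]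
    nlinarith [sq_nonneg (lam * y - 1)]
  have h4 : R * Y * (2 * lam - lam ^ 2 * y) ≤ R * Y * (1 / y) :=
    mul_le_mul_of_nonneg_left h3 (mul_nonneg hR (by linarith))
  have h5 : (Y - y) * (R / y - c) = R * Y * (1 / y) - R - c * Y + c * y := by
    field_simp
    ring
  linarith

/-- **Jensen.** `m = |W|`, `Σ_W y ≤ S`, tangent at `S / m`. -/
lemma jensen {ι : Type*} (W : Finset ι) (y t : ι → ℝ) {R c Y S : ℝ} (hR : 0 ≤ R) (hS : 0 < S)
    (hy : ∀ z ∈ W, 0 < y z) (hyY : ∀ z ∈ W, y z ≤ Y) (hT : ∀ z ∈ W, R ≤ y z * (t z + c))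
    (hs : ∑ z ∈ W, y z ≤ S) (hc : c * S ^ 2 ≤ (W.card : ℝ) ^ 2 * (R * Y)) :
    R * ((W.card : ℝ) ^ 2 * Y / S - W.card) - c * (W.card * Y - S) ≤ ∑ z ∈ W, (Y - y z) * t z := by
  set m : ℝ := (W.card : ℝ) with hm
  set lam : ℝ := m / S with hlam
  have h1 : ∑ z ∈ W, (R * Y * (2 * lam - lam ^ 2 * y z) - R - c * Y + c * y z)
      ≤ ∑ z ∈ W, (Y - y z) * t z :=
    sum_le_sum fun z hz => row_tan (hy z hz) (hyY z hz) hR (hT z hz)
  have h2 : ∑ z ∈ W, (R * Y * (2 * lam - lam ^ 2 * y z) - R - c * Y + c * y z)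
      = m * (R * Y * (2 * lam) - R - c * Y) - (R * Y * lam ^ 2 - c) * ∑ z ∈ W, y z := by
    have h3 : ∀ z ∈ W, R * Y * (2 * lam - lam ^ 2 * y z) - R - c * Y + c * y z
        = (R * Y * (2 * lam) - R - c * Y) - (R * Y * lam ^ 2 - c) * y z := fun z _ => by ring
    rw [sum_congr rfl h3, sum_sub_distrib, sum_const, nsmul_eq_mul, ← mul_sum]
  have h4 : 0 ≤ R * Y * lam ^ 2 - c := by
    have h5 : c ≤ m ^ 2 * (R * Y) / S ^ 2 := by
      rw [le_div_iff₀ (by positivity)]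
      exact hc
    have h6 : m ^ 2 * (R * Y) / S ^ 2 = R * Y * lam ^ 2 := by
      rw [hlam]
      field_simp
    linarith
  have h7 : (R * Y * lam ^ 2 - c) * ∑ z ∈ W, y z ≤ (R * Y * lam ^ 2 - c) * S :=
    mul_le_mul_of_nonneg_left hs h4
  have h8 : m * (R * Y * (2 * lam) - R - c * Y) - (R * Y * lam ^ 2 - c) * S
      = R * (m ^ 2 * Y / S - m) - c * (m * Y - S) := by
    rw [hlam]
    field_simp
    ring
  linarith

/-- **dense worlds.** Proof: `Σ y z ≤ O (z₁ + z₂)`, `z₁`, `z₂` the two largest. -/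
lemma dense {ι : Type*} [DecidableEq ι] (V : Finset ι) (y z : ι → ℝ) {O : ℝ} (hO : 0 < O)
    (hy0 : ∀ u ∈ V, 0 ≤ y u) (hy : ∀ u ∈ V, y u ≤ O) (hs : ∑ u ∈ V, y u ≤ 2 * O)
    (hz : ∀ u ∈ V, 0 ≤ z u) (hZ : ∑ u ∈ V, z u ≤ O) :
    (∑ u ∈ V, z u) ^ 2 / 4 ≤ ∑ u ∈ V, (O - y u) * z u + (∑ u ∈ V, (z u) ^ 2) / 2 := by
  rcases V.eq_empty_or_nonempty with h0 | h0
  · subst h0
    simp
  obtain ⟨a, ha, ham⟩ := V.exists_max_image z h0
  have e1 : ∀ g : ι → ℝ, ∑ u ∈ V, g u = g a + ∑ u ∈ V.erase a, g u := fun g =>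
    (add_sum_erase V g ha).symm
  rcases (V.erase a).eq_empty_or_nonempty with h1 | h1
  · rw [e1, e1, e1, h1]
    simp only [sum_empty, add_zero]
    nlinarith [mul_nonneg (sub_nonneg.2 (hy a ha)) (hz a ha), sq_nonneg (z a)]
  obtain ⟨b, hb, hbm⟩ := (V.erase a).exists_max_image z h1
  have e2 : ∀ g : ι → ℝ, ∑ u ∈ V, g u = g a + (g b + ∑ u ∈ (V.erase a).erase b, g u) := fun g => by
    rw [e1, add_sum_erase (V.erase a) g hb]
  set V2 := (V.erase a).erase b with hV2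
  have hm2 : ∀ u ∈ V2, u ∈ V.erase a := fun u hu => mem_of_mem_erase hu
  have hm : ∀ u ∈ V2, u ∈ V := fun u hu => mem_of_mem_erase (hm2 u hu)
  have hbV : b ∈ V := mem_of_mem_erase hb
  have h2 : ∑ u ∈ V2, y u * z u ≤ z b * ∑ u ∈ V2, y u := by
    rw [mul_sum]
    refine sum_le_sum fun u hu => ?_
    rw [mul_comm]
    exact mul_le_mul_of_nonneg_right (hbm u (hm2 u hu)) (hy0 u (hm u hu))
  have h3 : ∑ u ∈ V2, (O - y u) * z u = O * ∑ u ∈ V2, z u - ∑ u ∈ V2, y u * z u := by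
    rw [mul_sum, ← sum_sub_distrib]
    exact sum_congr rfl fun u _ => by ring
  have h4 : 0 ≤ ∑ u ∈ V2, (z u) ^ 2 := sum_nonneg fun u _ => sq_nonneg _
  have h5 : 0 ≤ ∑ u ∈ V2, z u := sum_nonneg fun u hu => hz u (hm u hu)
  rw [e2] at hs hZ
  rw [e2, e2, e2, h3]
  have hab : z b ≤ z a := ham b hbV
  have hza := hz a ha
  have hzb := hz b hbV
  have hya := hy a ha
  have hyb := hy b hbV
  set A := z a
  set B := z b
  set Zr := ∑ u ∈ V2, z u
  set Yr := ∑ u ∈ V2, y u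
  have k1 : 0 ≤ (O - y a) * (A - B) := mul_nonneg (by linarith) (by linarith)
  have k2 : 0 ≤ B * (2 * O - (y a + (y b + Yr))) := mul_nonneg hzb (by linarith)
  have k3 : 0 ≤ Zr * (O - (A + (B + Zr))) := mul_nonneg h5 (by linarith)
  have k4 : 0 ≤ (A - B) ^ 2 := sq_nonneg _
  have k5 : 0 ≤ Zr * (A + B) := mul_nonneg h5 (by linarith)
  have k6 : 0 ≤ Zr * Zr := mul_nonneg h5 h5
  have k7 : 0 ≤ Zr * O := mul_nonneg h5 hO.le
  nlinarith

end VI

end Pool.Agent.Lib.MP_f04ccf_co
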