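import Pool.Agent.Lib.MP_f04ccf_co.M.RowQC
import Pool.Agent.Lib.MP_f04ccf_co.M.TabM

/-!
MP_f04ccf_co, TEXT D, middle range: **the content of a cell by types** and the ways of using and keeping.

Row `z`, another row `y`, levels `g` with cut ends `f` (`LevC`):

* `vHF`, `vHH`, `vHC`: full items | items of value one with two ends | cliques hosted at `z` with a unit at the main
  end `y`; `vSF`, `vSH`, `vSC`: full items | items of value one with two ends | cliques of the host `y` which touch `z`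
  (cliques: with a main unit at `z`); `lvQ`: the levels of use (value one: every end, cliques: the main units);
* `LevC.use_v`: `q'` PC pairs, `kf'` full items, `kh'` halves (misses | misses and arcs at most the average), all or no
  cliques; `LevC.kep_v`: everything kept; `LevC.kep_o`: the items booked at `y`; `LevC.kep_p`: `mf'` full items and
  `mh'` halves booked at `y`.
-/

set_option autoImplicit false

namespace Pool.Agent.Lib.MP_f04ccf_co

open Finset

attribute [local instance] Classical.propDecidable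

section VSet

variable {ι : Type*} {R : ℤ} {n : ℕ} {t s mu : ℕ → ℤ} {U : Finset ι} {ho : ι → ℕ} {vl : ι → ℤ}
  {kp mn : ℕ → ι → ℤ} {pc ar : ι → ℤ} {be kq NN sg : ℕ → ℕ → ℤ} {nu : ℕ → ι → ℤ} {z y : ℕ}
  {φ : ι → ℕ → ℤ} {g : ℕ → ι → ℕ} {f : ι → ℕ}

/-- the plain hosted items -/
noncomputable def vP0 (U : Finset ι) (ho : ι → ℕ) (pc : ι → ℤ) (z : ℕ) : Finset ι :=
  U.filter fun u => ho u = z ∧ pc u = 0

/-- full items hosted at `z`, end `y` -/
noncomputable def vHF (U : Finset ι) (ho : ι → ℕ) (vl : ι → ℤ) (kp : ℕ → ι → ℤ) (pc : ι → ℤ)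
    (g : ℕ → ι → ℕ) (f : ι → ℕ) (z y : ℕ) : Finset ι :=
  U.filter fun u => ho u = z ∧ pc u = 0 ∧ vl u = 1 ∧ g y u = 1 ∧ ¬ twoE vl kp g f u

/-- items of value one with two ends hosted at `z`, main end `y` -/
noncomputable def vHH (U : Finset ι) (ho : ι → ℕ) (vl : ι → ℤ) (kp : ℕ → ι → ℤ) (pc : ι → ℤ)
    (g : ℕ → ι → ℕ) (f : ι → ℕ) (z y : ℕ) : Finset ι :=
  U.filter fun u => ho u = z ∧ pc u = 0 ∧ vl u = 1 ∧ g y u = 1 ∧ twoE vl kp g f u

/-- cliques hosted at `z` with a unit at `y` -/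
noncomputable def vHC (U : Finset ι) (ho : ι → ℕ) (vl : ι → ℤ) (pc : ι → ℤ)
    (g : ℕ → ι → ℕ) (z y : ℕ) : Finset ι :=
  U.filter fun u => ho u = z ∧ pc u = 0 ∧ vl u ≠ 1 ∧ g y u ≠ 0

/-- full items of the host `y`, end `z` -/
noncomputable def vSF (U : Finset ι) (ho : ι → ℕ) (vl : ι → ℤ) (kp : ℕ → ι → ℤ) (pc : ι → ℤ)
    (g : ℕ → ι → ℕ) (f : ι → ℕ) (z y : ℕ) : Finset ι :=
  U.filter fun u => ho u = y ∧ pc u = 0 ∧ vl u = 1 ∧ kp z u ≠ 0 ∧ ¬ twoE vl kp g f u

/-- items of value one with two ends of the host `y`, one of the ends is `z` -/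
noncomputable def vSH (U : Finset ι) (ho : ι → ℕ) (vl : ι → ℤ) (kp : ℕ → ι → ℤ) (pc : ι → ℤ)
    (g : ℕ → ι → ℕ) (f : ι → ℕ) (z y : ℕ) : Finset ι :=
  U.filter fun u => ho u = y ∧ pc u = 0 ∧ vl u = 1 ∧ kp z u ≠ 0 ∧ twoE vl kp g f u

/-- cliques of the host `y` with a unit at `z` -/
noncomputable def vSC (U : Finset ι) (ho : ι → ℕ) (vl : ι → ℤ) (pc : ι → ℤ)
    (g : ℕ → ι → ℕ) (z y : ℕ) : Finset ι :=
  U.filter fun u => ho u = y ∧ pc u = 0 ∧ vl u ≠ 1 ∧ g z u ≠ 0

/-- the levels of use at `z` -/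
noncomputable def lvQ (vl : ι → ℤ) (kp : ℕ → ι → ℤ) (g : ℕ → ι → ℕ) (z : ℕ) (u : ι) : ℕ :=
  if vl u = 1 then (kp z u).toNat else g z u

lemma LevC.lvQ_le (Lv : LevC n U ho vl kp mn pc φ g f)
    (H : PCon R n t s mu U ho vl kp mn pc ar be kq NN sg nu) (hz : z < n) :
    ∀ u ∈ U, (lvQ vl kp g z u : ℤ) ≤ kp z u := by
  intro u hu
  have h1 := H.k0 u hu z hz
  have h2 := Lv.le u hu z hz
  unfold lvQ
  split_ifs
  · rw [Int.toNat_of_nonneg h1]
  · exact h2

/-- a full item: one end, no misses -/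
lemma LevC.full_fact (Lv : LevC n U ho vl kp mn pc φ g f) {u : ι} (hu : u ∈ U) (h1 : vl u = 1)
    (h2 : ¬ twoE vl kp g f u) :
    g (f u) u = 1 ∧ kp (f u) u = 1 ∧ mn (f u) u = 0 ∧ ∀ j < n, j ≠ f u → kp j u = 0 := by
  rcases Lv.typ u hu with ⟨-, h3, h4, h5, h6⟩ | ⟨-, h3, -⟩
  · exact ⟨h3, h4, h5, h6⟩
  · exact absurd ⟨h1, h3⟩ h2

lemma LevC.full_at (Lv : LevC n U ho vl kp mn pc φ g f)
    {u : ι} (hu : u ∈ U) (h1 : vl u = 1)
    (h2 : ¬ twoE vl kp g f u) (hy : y < n) (h3 : kp y u ≠ 0) : y = f u ∧ mn y u = 0 ∧ kp y u = 1 ∧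
      g y u = 1 := by
  obtain ⟨h4, h5, h6, h7⟩ := Lv.full_fact hu h1 h2
  have h8 : y = f u := by
    by_contra h9
    exact h3 (h7 y hy h9)
  rw [h8]
  exact ⟨rfl, h6, h5, h4⟩

/-- an item with two ends which touches `z`: main end or cut end, full level -/
lemma LevC.half_at (Lv : LevC n U ho vl kp mn pc φ g f)
    (H : PCon R n t s mu U ho vl kp mn pc ar be kq NN sg nu) {u : ι} (hu : u ∈ U)
    (h1 : twoE vl kp g f u) (hz : z < n) (h3 : kp z u ≠ 0) :
    kp z u = 1 ∧ ((z ≠ f u ∧ g z u = 1) ∨ (z = f u ∧ g z u = 0)) := by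
  have h2 := H.kp_one hu h1.1 hz h3
  refine ⟨h2, ?_⟩
  have h4 := Lv.typ u hu
  by_cases h5 : z = f u
  · right
    refine ⟨h5, ?_⟩
    have h6 := h1.2
    rw [← h5, h2] at h6
    omega
  · left
    refine ⟨h5, ?_⟩
    rcases h4 with ⟨-, -, h7, -, h8⟩ | ⟨-, h7, h8, -⟩
    · exact absurd (h8 z hz h5) h3
    · have := h8 z hz h5
      rw [h2] at this
      exact_mod_cast this

/-- the used items of the host `y` by types -/
lemma LevC.rnK_split (Lv : LevC n U ho vl kp mn pc φ g f)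
    (H : PCon R n t s mu U ho vl kp mn pc ar be kq NN sg nu) (hz : z < n) (y : ℕ) :
    rnK U ho pc (fun _ => lvQ vl kp g z) z y
      = (vSF U ho vl kp pc g f z y ∪ vSH U ho vl kp pc g f z y) ∪ vSC U ho vl pc g z y := by
  ext u
  simp only [rnK, vSF, vSH, vSC, mem_union, mem_filter]
  constructor
  · rintro ⟨h1, h2, h3, h4⟩
    by_cases h5 : vl u = 1
    · have h6 : kp z u ≠ 0 := by
        intro h7
        unfold lvQ at h4
        rw [if_pos h5, h7] at h4
        exact h4 rfl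
      by_cases h7 : twoE vl kp g f u
      · exact Or.inl (Or.inr ⟨h1, h2, h3, h5, h6, h7⟩)
      · exact Or.inl (Or.inl ⟨h1, h2, h3, h5, h6, h7⟩)
    · unfold lvQ at h4
      rw [if_neg h5] at h4
      exact Or.inr ⟨h1, h2, h3, h5, h4⟩
  · have h0 : ∀ u ∈ U, vl u = 1 → kp z u ≠ 0 → lvQ vl kp g z u ≠ 0 := by
      intro u hu h5 h6
      have h7 := H.kp_one hu h5 hz h6
      unfold lvQ
      rw [if_pos h5, h7]
      decide
    rintro ((⟨h1, h2, h3, h4, h5, h6⟩ | ⟨h1, h2, h3, h4, h5, h6⟩) | ⟨h1, h2, h3, h4, h5⟩)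
    · exact ⟨h1, h2, h3, h0 u h1 h4 h5⟩
    · exact ⟨h1, h2, h3, h0 u h1 h4 h5⟩
    · refine ⟨h1, h2, h3, ?_⟩
      unfold lvQ
      rw [if_neg h4]
      exact h5

lemma vS_disj (U : Finset ι) (ho : ι → ℕ) (vl : ι → ℤ) (kp : ℕ → ι → ℤ) (pc : ι → ℤ)
    (g : ℕ → ι → ℕ) (f : ι → ℕ) (z y : ℕ) :
    Disjoint (vSF U ho vl kp pc g f z y) (vSH U ho vl kp pc g f z y) ∧
      Disjoint (vSF U ho vl kp pc g f z y ∪ vSH U ho vl kp pc g f z y) (vSC U ho vl pc g z y) := by
  constructor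
  · rw [disjoint_left]
    intro u h1 h2
    exact (mem_filter.1 h1).2.2.2.2.2 (mem_filter.1 h2).2.2.2.2.2
  · rw [disjoint_left]
    intro u h1 h2
    have h3 := (mem_filter.1 h2).2.2.2.1
    rcases mem_union.1 h1 with h4 | h4
    · exact h3 (mem_filter.1 h4).2.2.2.1
    · exact h3 (mem_filter.1 h4).2.2.2.1

/-- value and misses of the used items by types -/
lemma LevC.use_fact (Lv : LevC n U ho vl kp mn pc φ g f)
    (H : PCon R n t s mu U ho vl kp mn pc ar be kq NN sg nu) (hz : z < n) (y : ℕ) :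
    (∀ u ∈ vSF U ho vl kp pc g f z y, lvQ vl kp g z u = 1 ∧ vl u = 1 ∧
      msP kp mn z (lvQ vl kp g z) u = 0 ∧ rnA n kp be z y u = 0) ∧
    (∀ u ∈ vSH U ho vl kp pc g f z y, lvQ vl kp g z u = 1 ∧ vl u = 1 ∧
      msP kp mn z (lvQ vl kp g z) u = mn z u ∧ ∃ l < n, l ≠ z ∧ kp l u ≠ 0) ∧
    (∀ u ∈ vSC U ho vl pc g z y, lvQ vl kp g z u = g z u ∧ vl u ≠ 1 ∧
      msP kp mn z (lvQ vl kp g z) u = msP kp mn z (g z) u ∧ ∃ l < n, l ≠ z ∧ kp l u ≠ 0) := by
  refine ⟨fun u hu => ?_, fun u hu => ?_, fun u hu => ?_⟩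
  · obtain ⟨h1, h2, h3, h4, h5, h6⟩ := mem_filter.1 hu
    obtain ⟨h7, h8, h9, h10⟩ := Lv.full_at h1 h4 h6 hz h5
    have e1 : lvQ vl kp g z u = 1 := by
      unfold lvQ
      rw [if_pos h4, h9]
      rfl
    refine ⟨e1, h4, ?_, ?_⟩
    · unfold msP
      rw [h8, ite_self]
    · unfold rnA
      rw [if_neg]
      rintro ⟨l, hl, hlz, hkl⟩
      obtain ⟨-, -, -, h11⟩ := Lv.full_fact h1 h4 h6
      exact hkl (h11 l hl (by rw [← h7]; exact hlz))
  · obtain ⟨h1, h2, h3, h4, h5, h6⟩ := mem_filter.1 hu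
    have h7 := (Lv.half_at H h1 h6 hz h5).1
    have e1 : lvQ vl kp g z u = 1 := by
      unfold lvQ
      rw [if_pos h4, h7]
      rfl
    refine ⟨e1, h4, ?_, ?_⟩
    · unfold msP
      rw [e1, h7]
      exact if_pos (by norm_num)
    · rcases H.one u h1 with ⟨i, hi, h8, -, -, h9⟩ | ⟨-, h8⟩
      · exfalso
        have h10 : i = f u := by
          by_contra h11
          have h12 := Lv.f1 u h1
          have h13 := Lv.fn u h1
          rw [h9 (f u) h13 (fun h => h11 h.symm)] at h12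
          exact absurd h12 (by norm_num)
        have h11 := Lv.sum u h1
        rw [h4] at h11
        have h12 : ∑ i ∈ range n, (g i u : ℤ) ≤ ∑ j ∈ range n, if j = f u then (g (f u) u : ℤ)
            else 0 := by
          refine sum_le_sum fun j hj => ?_
          by_cases h13 : j = f u
          · rw [h13, if_pos rfl]
          · rw [if_neg h13]
            have h14 := Lv.le u h1 j (mem_range.1 hj)
            rw [h9 j (mem_range.1 hj) (by rw [h10]; exact h13)] at h14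
            exact h14
        rw [sum_ite_eq' (range n), if_pos (mem_range.2 (Lv.fn u h1))] at h12
        have h13 := h6.2
        rw [← h10, h8, h10] at h13
        rw [h11] at h12
        rw [h10] at h8
        linarith
      · by_contra hcon
        push Not at hcon
        have h9 : ∑ i ∈ range n, kp i u = kp z u :=
          sum_eq_single z (fun j hj hjz => hcon j (mem_range.1 hj) hjz)
            (fun h => absurd (mem_range.2 hz) h)
        rw [h9, h7, h4] at h8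
        norm_num at h8
  · obtain ⟨h1, h2, h3, h4, h5⟩ := mem_filter.1 hu
    have e1 : lvQ vl kp g z u = g z u := by
      unfold lvQ
      rw [if_neg h4]
    refine ⟨e1, h4, ?_, ?_⟩
    · unfold msP
      rw [e1]
    · rcases H.one u h1 with ⟨i, hi, -, h8, -⟩ | ⟨-, h8⟩
      · exact absurd h8 h4
      · by_contra hcon
        push Not at hcon
        have h9 : ∑ i ∈ range n, kp i u = kp z u :=
          sum_eq_single z (fun j hj hjz => hcon j (mem_range.1 hj) hjz)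
            (fun h => absurd (mem_range.2 hz) h)
        rw [h9] at h8
        have h10 := H.kv u h1 z hz
        linarith

/-- **the ways of using**: `q` PC pairs, `kf` full items, `kh` halves of a set `S`, the lightest by the weight `w0`;
`c`: all cliques or none -/
lemma LevC.use_s (Lv : LevC n U ho vl kp mn pc φ g f)
    (H : PCon R n t s mu U ho vl kp mn pc ar be kq NN sg nu) (hz : z < n) (hy : y < n)
    (w0 : ι → ℤ) {S : Finset ι} (hS : S ⊆ vSH U ho vl kp pc g f z y) {q kf kh c : ℕ}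
    (hq : (q : ℤ) ≤ be y z)
    (hkf : kf ≤ (vSF U ho vl kp pc g f z y).card) (hkh : kh ≤ S.card)
    (hc : c ≤ 1) :
    ∃ K ⊆ S, K.card = kh ∧
      (S.card : ℤ) * ∑ u ∈ K, w0 u ≤ (kh : ℤ) * ∑ u ∈ S, w0 u ∧
      UseC n U ho vl kp mn pc be (lvQ vl kp g z) z y q
        (kf + kh + c * ∑ u ∈ vSC U ho vl pc g z y, (g z u : ℤ))
        (kf + kh + c * ((vSC U ho vl pc g z y).card : ℤ)) (kf + kh)
        (∑ u ∈ K, mn z u + c * ∑ u ∈ vSC U ho vl pc g z y, msP kp mn z (g z) u)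
        (∑ u ∈ K, (mn z u + rnA n kp be z y u) + c * (∑ u ∈ vSC U ho vl pc g z y,
          msP kp mn z (g z) u + ∑ u ∈ vSC U ho vl pc g z y, rnA n kp be z y u)) kf := by
  have h4 : q ≤ (rnQ U ho kp pc z y).card := by
    have h5 : ((rnQ U ho kp pc z y).card : ℤ) = be y z := H.pc_cell hz hy
    rw [← h5] at hq
    exact_mod_cast hq
  obtain ⟨Q, hQ, hQc⟩ := exists_subset_card_eq h4
  obtain ⟨F, hF, hFc⟩ := exists_subset_card_eq hkf
  obtain ⟨K, hKS, hKc, hKs⟩ := exists_lowN w0 kh _ S rfl hkh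
  have hK := hKS.trans hS
  obtain ⟨f1, f2, f3⟩ := Lv.use_fact (be := be) H hz y
  obtain ⟨d1, d2⟩ := vS_disj U ho vl kp pc g f z y
  have hsub := Lv.rnK_split H hz y
  set C : Finset ι := if c = 1 then vSC U ho vl pc g z y else ∅ with hC
  have hCs : C ⊆ vSC U ho vl pc g z y := by
    rw [hC]
    split_ifs
    · exact Subset.refl _
    · exact empty_subset _
  have hCsum : ∀ F : ι → ℤ, ∑ u ∈ C, F u = c * ∑ u ∈ vSC U ho vl pc g z y, F u := by
    intro F
    rw [hC]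
    rcases Nat.le_one_iff_eq_zero_or_eq_one.1 hc with h5 | h5
    · rw [h5, if_neg (by norm_num), sum_empty]
      simp
    · rw [h5, if_pos rfl]
      simp
  have hCcard : (C.card : ℤ) = c * ((vSC U ho vl pc g z y).card : ℤ) := by
    have h5 := hCsum fun _ => 1
    simpa using h5
  have dFK : Disjoint F K := disjoint_of_subset_left hF (disjoint_of_subset_right hK d1)
  have dC : Disjoint (F ∪ K) C :=
    disjoint_of_subset_left (union_subset_union hF hK) (disjoint_of_subset_right hCs d2)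
  have hsum : ∀ G : ι → ℤ, ∑ u ∈ (F ∪ K) ∪ C, G u = ∑ u ∈ F, G u + ∑ u ∈ K, G u + ∑ u ∈ C, G u := by
    intro G
    rw [sum_union dC, sum_union dFK]
  refine ⟨K, hKS, hKc, hKs, Q, (F ∪ K) ∪ C, hQ, ?_, by exact_mod_cast hQc, ?_, ?_, ?_, ?_, ?_, ?_⟩
  · rw [hsub]
    exact union_subset_union (union_subset_union hF hK) hCs
  · rw [hsum, sum_congr rfl fun u hu => by rw [(f1 u (hF hu)).1],
      sum_congr (s₁ := K) rfl fun u hu => by rw [(f2 u (hK hu)).1], hCsum,
      sum_congr (s₁ := vSC U ho vl pc g z y) rfl fun u hu => by rw [(f3 u hu).1]]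
    simp [hFc, hKc]
  · rw [card_union_of_disjoint dC, card_union_of_disjoint dFK, hFc, hKc]
    push_cast
    rw [hCcard]
  · have h5 : (((F ∪ K) ∪ C).filter fun u => vl u = 1) = F ∪ K := by
      rw [filter_union, filter_true_of_mem, filter_false_of_mem, union_empty]
      · intro u hu
        exact (f3 u (hCs hu)).2.1
      · intro u hu
        rcases mem_union.1 hu with h6 | h6
        · exact (f1 u (hF h6)).2.1
        · exact (f2 u (hK h6)).2.1
    rw [h5, card_union_of_disjoint dFK, hFc, hKc]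
    push_cast
    rfl
  · rw [hsum, sum_eq_zero fun u hu => (f1 u (hF hu)).2.2.1,
      sum_congr (s₁ := K) rfl fun u hu => (f2 u (hK hu)).2.2.1, hCsum,
      sum_congr (s₁ := vSC U ho vl pc g z y) rfl fun u hu => (f3 u hu).2.2.1, zero_add]
  · have h5 : ∑ u ∈ F, (msP kp mn z (lvQ vl kp g z) u + rnA n kp be z y u) = 0 :=
      sum_eq_zero fun u hu => by
        obtain ⟨-, -, h6, h7⟩ := f1 u (hF hu)
        rw [h6, h7, add_zero]
    rw [hsum, h5, sum_congr (s₁ := K) rfl fun u hu => by rw [(f2 u (hK hu)).2.2.1], hCsum,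
      sum_congr (s₁ := vSC U ho vl pc g z y) rfl fun u hu => by rw [(f3 u hu).2.2.1], zero_add,
      sum_add_distrib (s := vSC U ho vl pc g z y)]
  · rw [← hFc]
    refine Int.ofNat_le.2 (card_le_card fun u hu => ?_)
    obtain ⟨h5, h6⟩ := mem_filter.1 hu
    rcases mem_union.1 h5 with h7 | h7
    · rcases mem_union.1 h7 with h8 | h8
      · exact h8
      · exact absurd (f2 u (hK h8)).2.2.2 h6
    · exact absurd (f3 u (hCs h7)).2.2.2 h6

/-- **the ways of using**, all served halves -/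
lemma LevC.use_v (Lv : LevC n U ho vl kp mn pc φ g f)
    (H : PCon R n t s mu U ho vl kp mn pc ar be kq NN sg nu) (hz : z < n) (hy : y < n)
    (w0 : ι → ℤ) {q kf kh c : ℕ} (hq : (q : ℤ) ≤ be y z)
    (hkf : kf ≤ (vSF U ho vl kp pc g f z y).card) (hkh : kh ≤ (vSH U ho vl kp pc g f z y).card)
    (hc : c ≤ 1) :
    ∃ K ⊆ vSH U ho vl kp pc g f z y, K.card = kh ∧
      ((vSH U ho vl kp pc g f z y).card : ℤ) * ∑ u ∈ K, w0 u
        ≤ (kh : ℤ) * ∑ u ∈ vSH U ho vl kp pc g f z y, w0 u ∧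
      UseC n U ho vl kp mn pc be (lvQ vl kp g z) z y q
        (kf + kh + c * ∑ u ∈ vSC U ho vl pc g z y, (g z u : ℤ))
        (kf + kh + c * ((vSC U ho vl pc g z y).card : ℤ)) (kf + kh)
        (∑ u ∈ K, mn z u + c * ∑ u ∈ vSC U ho vl pc g z y, msP kp mn z (g z) u)
        (∑ u ∈ K, (mn z u + rnA n kp be z y u) + c * (∑ u ∈ vSC U ho vl pc g z y,
          msP kp mn z (g z) u + ∑ u ∈ vSC U ho vl pc g z y, rnA n kp be z y u)) kf :=
  Lv.use_s H hz hy w0 (Subset.refl _) hq hkf hkh hc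

/-! ### ways of keeping -/

lemma vH_disj (U : Finset ι) (ho : ι → ℕ) (vl : ι → ℤ) (kp : ℕ → ι → ℤ) (pc : ι → ℤ)
    (g : ℕ → ι → ℕ) (f : ι → ℕ) (z y : ℕ) :
    Disjoint (vHF U ho vl kp pc g f z y) (vHH U ho vl kp pc g f z y) ∧
      Disjoint (vHF U ho vl kp pc g f z y ∪ vHH U ho vl kp pc g f z y) (vHC U ho vl pc g z y) := by
  constructor
  · rw [disjoint_left]
    intro u h1 h2
    exact (mem_filter.1 h1).2.2.2.2.2 (mem_filter.1 h2).2.2.2.2.2
  · rw [disjoint_left]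
    intro u h1 h2
    have h3 := (mem_filter.1 h2).2.2.2.1
    rcases mem_union.1 h1 with h4 | h4
    · exact h3 (mem_filter.1 h4).2.2.2.1
    · exact h3 (mem_filter.1 h4).2.2.2.1

lemma LevC.hf_fact (Lv : LevC n U ho vl kp mn pc φ g f) (hy : y < n) {u : ι}
    (hu : u ∈ vHF U ho vl kp pc g f z y) :
    u ∈ U ∧ kp y u = 1 ∧ mn y u = 0 ∧ vl u = 1 ∧ g y u = 1 ∧ ∀ l < n, l ≠ y → kp l u = 0 := by
  obtain ⟨h1, h2, h3, h4, h5, h6⟩ := mem_filter.1 hu
  have h7 := Lv.le u h1 y hy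
  have h8 : kp y u ≠ 0 := by
    intro h9
    rw [h5, h9] at h7
    norm_num at h7
  obtain ⟨h9, h10, h11, h12⟩ := Lv.full_at h1 h4 h6 hy h8
  refine ⟨h1, h11, h10, h4, h5, fun l hl hly => ?_⟩
  exact (Lv.full_fact h1 h4 h6).2.2.2 l hl (by rw [← h9]; exact hly)

lemma LevC.hh_fact (Lv : LevC n U ho vl kp mn pc φ g f)
    (H : PCon R n t s mu U ho vl kp mn pc ar be kq NN sg nu) (hy : y < n) {u : ι}
    (hu : u ∈ vHH U ho vl kp pc g f z y) :
    u ∈ U ∧ kp y u = 1 ∧ vl u = 1 ∧ g y u = 1 ∧ y ≠ f u := by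
  obtain ⟨h1, h2, h3, h4, h5, h6⟩ := mem_filter.1 hu
  have h7 := Lv.le u h1 y hy
  have h8 : kp y u ≠ 0 := by
    intro h9
    rw [h5, h9] at h7
    norm_num at h7
  obtain ⟨h9, h10 | h10⟩ := Lv.half_at H h1 h6 hy h8
  · exact ⟨h1, h9, h4, h5, h10.1⟩
  · rw [h10.2] at h5
    exact absurd h5 (by norm_num)

/-- sums over the plain hosted items which are booked at `y` -/
lemma LevC.bk_split (Lv : LevC n U ho vl kp mn pc φ g f)
    (H : PCon R n t s mu U ho vl kp mn pc ar be kq NN sg nu) (hy : y < n) {G : ι → ℤ}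
    (hG : ∀ u ∈ U, g y u = 0 → G u = 0) :
    ∑ u ∈ vP0 U ho pc z, G u = ∑ u ∈ vHF U ho vl kp pc g f z y, G u
      + ∑ u ∈ vHH U ho vl kp pc g f z y, G u + ∑ u ∈ vHC U ho vl pc g z y, G u := by
  obtain ⟨d1, d2⟩ := vH_disj U ho vl kp pc g f z y
  rw [← sum_union d1, ← sum_union d2]
  refine (sum_subset (fun u hu => ?_) fun u hu hu' => ?_).symm
  · rcases mem_union.1 hu with h1 | h1
    · rcases mem_union.1 h1 with h2 | h2
      · obtain ⟨h3, h4, h5, -⟩ := mem_filter.1 h2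
        exact mem_filter.2 ⟨h3, h4, h5⟩
      · obtain ⟨h3, h4, h5, -⟩ := mem_filter.1 h2
        exact mem_filter.2 ⟨h3, h4, h5⟩
    · obtain ⟨h3, h4, h5, -⟩ := mem_filter.1 h1
      exact mem_filter.2 ⟨h3, h4, h5⟩
  · obtain ⟨h1, h2, h3⟩ := mem_filter.1 hu
    refine hG u h1 ?_
    by_contra h4
    apply hu'
    by_cases h5 : vl u = 1
    · have h6 : g y u = 1 := (Lv.lev01 H h1 h5 hy).resolve_left h4
      by_cases h7 : twoE vl kp g f u
      · exact mem_union_left _ (mem_union_right _ (mem_filter.2 ⟨h1, h2, h3, h5, h6, h7⟩))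
      · exact mem_union_left _ (mem_union_left _ (mem_filter.2 ⟨h1, h2, h3, h5, h6, h7⟩))
    · exact mem_union_right _ (mem_filter.2 ⟨h1, h2, h3, h5, h4⟩)

/-- **everything is kept** -/
lemma LevC.kep_v (Lv : LevC n U ho vl kp mn pc φ g f)
    (H : PConC R n t s mu U ho vl kp mn pc ar be kq NN sg nu) (hy : y < n) :
    KepC R n t U ho vl kp mn pc z y (∑ u ∈ vP0 U ho pc z, vl u)
      ((((vHF U ho vl kp pc g f z y).card : ℤ) + ((vHH U ho vl kp pc g f z y).card : ℤ)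
          + ∑ u ∈ vHC U ho vl pc g z y, (g y u : ℤ)) * (R - t y)
        - (∑ u ∈ vHH U ho vl kp pc g f z y, mn y u
          + ∑ u ∈ vHC U ho vl pc g z y, msP kp mn y (g y) u)) 0
      (((vP0 U ho pc z).card : ℤ) * (((vP0 U ho pc z).card : ℤ) - 1))
      (rnEl U ho kp pc z) := by
  have h1 := H.kep_all (z := z) hy (a := g y) fun u hu => Lv.le u hu y hy
  have h2 : ∑ u ∈ vP0 U ho pc z, (g y u : ℤ) = ((vHF U ho vl kp pc g f z y).card : ℤ)
      + ((vHH U ho vl kp pc g f z y).card : ℤ) + ∑ u ∈ vHC U ho vl pc g z y, (g y u : ℤ) := by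
    rw [Lv.bk_split H.toPCon hy (G := fun u => (g y u : ℤ)) fun u _ h => by rw [h]; rfl,
      sum_congr rfl fun u hu => by rw [(Lv.hf_fact hy hu).2.2.2.2.1],
      sum_congr (s₁ := vHH U ho vl kp pc g f z y) rfl fun u hu => by
        rw [(Lv.hh_fact H.toPCon hy hu).2.2.2.1]]
    simp
  have h3 : ∑ u ∈ vP0 U ho pc z, msP kp mn y (g y) u
      ≤ ∑ u ∈ vHH U ho vl kp pc g f z y, mn y u
        + ∑ u ∈ vHC U ho vl pc g z y, msP kp mn y (g y) u := by
    have h4 := Lv.bk_split (z := z) (pc := pc) (ho := ho) H.toPCon hy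
      (G := fun u => if g y u = 0 then 0 else msP kp mn y (g y) u) fun u _ h => if_pos h
    have h5 : ∑ u ∈ vP0 U ho pc z, msP kp mn y (g y) u
        = ∑ u ∈ vP0 U ho pc z, if g y u = 0 then 0 else msP kp mn y (g y) u := by
      refine sum_congr rfl fun u hu => ?_
      by_cases h6 : g y u = 0
      · rw [if_pos h6]
        obtain ⟨h7, h8, h9⟩ := mem_filter.1 hu
        unfold msP
        split_ifs with h10
        · have h11 := H.k0 u h7 y hy
          rw [h6] at h10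
          push_cast at h10
          exact H.mnz u h7 y hy (by linarith)
        · rfl
      · rw [if_neg h6]
    rw [h5, h4]
    refine add_le_add ?_ ?_
    · rw [sum_eq_zero fun u hu => ?_, zero_add]
      · refine sum_le_sum fun u hu => ?_
        obtain ⟨h6, h7, h8, h9, -⟩ := Lv.hh_fact H.toPCon hy hu
        rw [if_neg (by rw [h9]; norm_num)]
        unfold msP
        split_ifs
        · exact le_rfl
        · exact H.m0 u h6 y hy
      · obtain ⟨h6, h7, h8, h9, -⟩ := Lv.hf_fact hy hu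
        unfold msP
        rw [h8, ite_self, ite_self]
    · exact sum_le_sum fun u hu => by rw [if_neg (mem_filter.1 hu).2.2.2.2]
  obtain ⟨P, hP, f1, f2, f3, f4, f5⟩ := h1
  refine ⟨P, hP, f1, ?_, f3, f4, f5⟩
  refine le_trans ?_ f2
  have h6 : ∑ u ∈ U.filter (fun u => ho u = z ∧ pc u = 0), (g y u : ℤ)
      = ∑ u ∈ vP0 U ho pc z, (g y u : ℤ) := rfl
  rw [h6, h2]
  have h7 : ∑ u ∈ U.filter (fun u => ho u = z ∧ pc u = 0), msP kp mn y (g y) u
      = ∑ u ∈ vP0 U ho pc z, msP kp mn y (g y) u := rfl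
  rw [h7]
  linarith

/-- **the items which are booked at `y` are kept** -/
lemma LevC.kep_o (Lv : LevC n U ho vl kp mn pc φ g f)
    (H : PConC R n t s mu U ho vl kp mn pc ar be kq NN sg nu) (hy : y < n) :
    KepC R n t U ho vl kp mn pc z y
      (((vHF U ho vl kp pc g f z y).card : ℤ) + ((vHH U ho vl kp pc g f z y).card : ℤ)
        + ∑ u ∈ vHC U ho vl pc g z y, vl u)
      ((((vHF U ho vl kp pc g f z y).card : ℤ) + ((vHH U ho vl kp pc g f z y).card : ℤ)
          + ∑ u ∈ vHC U ho vl pc g z y, (g y u : ℤ)) * (R - t y)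
        - (∑ u ∈ vHH U ho vl kp pc g f z y, mn y u
          + ∑ u ∈ vHC U ho vl pc g z y, msP kp mn y (g y) u))
      (((vP0 U ho pc z).card : ℤ) - (((vHF U ho vl kp pc g f z y).card : ℤ)
        + ((vHH U ho vl kp pc g f z y).card : ℤ) + ((vHC U ho vl pc g z y).card : ℤ)))
      ((((vHF U ho vl kp pc g f z y).card : ℤ)
        + ((vHH U ho vl kp pc g f z y).card : ℤ) + ((vHC U ho vl pc g z y).card : ℤ))
        * ((((vHF U ho vl kp pc g f z y).card : ℤ)
        + ((vHH U ho vl kp pc g f z y).card : ℤ) + ((vHC U ho vl pc g z y).card : ℤ)) - 1))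
      (rnEl U ho kp pc z) := by
  obtain ⟨d1, d2⟩ := vH_disj U ho vl kp pc g f z y
  have hsub : (vHF U ho vl kp pc g f z y ∪ vHH U ho vl kp pc g f z y) ∪ vHC U ho vl pc g z y
      ⊆ vP0 U ho pc z := by
    intro u hu
    rcases mem_union.1 hu with h1 | h1
    · rcases mem_union.1 h1 with h2 | h2
      · obtain ⟨h3, h4, h5, -⟩ := mem_filter.1 h2
        exact mem_filter.2 ⟨h3, h4, h5⟩
      · obtain ⟨h3, h4, h5, -⟩ := mem_filter.1 h2
        exact mem_filter.2 ⟨h3, h4, h5⟩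
    · obtain ⟨h3, h4, h5, -⟩ := mem_filter.1 h1
      exact mem_filter.2 ⟨h3, h4, h5⟩
  have hcard : ((((vHF U ho vl kp pc g f z y ∪ vHH U ho vl kp pc g f z y)
      ∪ vHC U ho vl pc g z y).card : ℕ) : ℤ) = ((vHF U ho vl kp pc g f z y).card : ℤ)
        + ((vHH U ho vl kp pc g f z y).card : ℤ) + ((vHC U ho vl pc g z y).card : ℤ) := by
    rw [card_union_of_disjoint d2, card_union_of_disjoint d1]
    push_cast
    rfl
  refine ⟨_, hsub, ?_, ?_, ?_, ?_, ?_⟩
  · rw [sum_union d2, sum_union d1, sum_congr rfl fun u hu => (Lv.hf_fact hy hu).2.2.2.1,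
      sum_congr (s₁ := vHH U ho vl kp pc g f z y) rfl fun u hu =>
        (Lv.hh_fact H.toPCon hy hu).2.2.1]
    simp
  · rw [sum_union d2, sum_union d1]
    have e1 : ∑ u ∈ vHF U ho vl kp pc g f z y, (kp y u * (R - t y) - mn y u)
        = ((vHF U ho vl kp pc g f z y).card : ℤ) * (R - t y) := by
      rw [← nsmul_eq_mul, ← sum_const]
      refine sum_congr rfl fun u hu => ?_
      obtain ⟨-, h2, h3, -⟩ := Lv.hf_fact hy hu
      rw [h2, h3]
      ring
    have e2 : ∑ u ∈ vHH U ho vl kp pc g f z y, (kp y u * (R - t y) - mn y u)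
        = ((vHH U ho vl kp pc g f z y).card : ℤ) * (R - t y)
          - ∑ u ∈ vHH U ho vl kp pc g f z y, mn y u := by
      rw [← nsmul_eq_mul, ← sum_const, ← sum_sub_distrib]
      refine sum_congr rfl fun u hu => ?_
      obtain ⟨-, h2, -⟩ := Lv.hh_fact H.toPCon hy hu
      rw [h2]
      ring
    have e3 : ∑ u ∈ vHC U ho vl pc g z y, ((g y u : ℤ) * (R - t y) - msP kp mn y (g y) u)
        ≤ ∑ u ∈ vHC U ho vl pc g z y, (kp y u * (R - t y) - mn y u) := by
      refine sum_le_sum fun u hu => ?_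
      have h1 := (mem_filter.1 hu).1
      have h2 := Lv.le u h1 y hy
      have h3 := H.mnc u h1 y hy
      have h4 : 0 ≤ R - t y := by linarith [H.m0 u h1 y hy]
      unfold msP
      split_ifs with h5
      · have h6 : kp y u = (g y u : ℤ) := le_antisymm h5 h2
        rw [h6]
      · have h6 : (g y u : ℤ) + 1 ≤ kp y u := by
          push Not at h5
          exact Int.add_one_le_of_lt h5
        have h7 := mul_le_mul_of_nonneg_right h6 h4
        linarith
    rw [sum_sub_distrib, ← sum_mul] at e3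
    rw [e1, e2]
    linarith
  · rw [hcard]
    rfl
  · rw [← hcard]
    exact H.off_ge (hsub.trans (filter_subset _ _))
  · intro l _ _ _
    unfold rnEl
    refine Int.ofNat_le.2 (card_le_card fun u hu => ?_)
    obtain ⟨h1, h2⟩ := mem_filter.1 hu
    obtain ⟨h3, h4, h5⟩ := mem_filter.1 (hsub h1)
    exact mem_filter.2 ⟨h3, h4, h5, h2⟩

/-- **`mf` full items and `mh` halves which are booked at `y` are kept** -/
lemma LevC.kep_p (Lv : LevC n U ho vl kp mn pc φ g f)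
    (H : PConC R n t s mu U ho vl kp mn pc ar be kq NN sg nu) (hy : y < n) {mf mh : ℕ}
    (hmf : mf ≤ (vHF U ho vl kp pc g f z y).card) (hmh : mh ≤ (vHH U ho vl kp pc g f z y).card) :
    ∃ b : ℤ, 0 ≤ b ∧ b ≤ ∑ u ∈ vHH U ho vl kp pc g f z y, mn y u ∧
      ((vHH U ho vl kp pc g f z y).card : ℤ) * b
        ≤ (mh : ℤ) * ∑ u ∈ vHH U ho vl kp pc g f z y, mn y u ∧
      ∃ en : ℕ → ℤ, (∀ l, 0 ≤ en l) ∧ ∑ l ∈ ((range n).erase z).erase y, en l ≤ mh ∧
      KepC R n t U ho vl kp mn pc z y (mf + mh) ((mf + mh) * (R - t y) - b)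
        (((vP0 U ho pc z).card : ℤ) - (mf + mh)) ((mf + mh) * ((mf + mh) - 1)) en := by
  obtain ⟨F, hF, hFc⟩ := exists_subset_card_eq hmf
  obtain ⟨S, hS, hSc, hSs⟩ := exists_lowN (fun u => mn y u) mh _ (vHH U ho vl kp pc g f z y) rfl hmh
  have d0 := (vH_disj U ho vl kp pc g f z y).1
  have dFS : Disjoint F S := disjoint_of_subset_left hF (disjoint_of_subset_right hS d0)
  have hU : ∀ u ∈ F ∪ S, u ∈ U ∧ vl u = 1 ∧ kp y u = 1 := by
    intro u hu
    rcases mem_union.1 hu with h1 | h1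
    · obtain ⟨h2, h3, h4, h5, -⟩ := Lv.hf_fact hy (hF h1)
      exact ⟨h2, h5, h3⟩
    · obtain ⟨h2, h3, h4, -⟩ := Lv.hh_fact H.toPCon hy (hS h1)
      exact ⟨h2, h4, h3⟩
  have hcard : (((F ∪ S).card : ℕ) : ℤ) = mf + mh := by
    rw [card_union_of_disjoint dFS, hFc, hSc]
    push_cast
    rfl
  refine ⟨∑ u ∈ S, mn y u, sum_nonneg fun u hu =>
      H.m0 u (Lv.hh_fact H.toPCon hy (hS hu)).1 y hy,
    sum_le_sum_of_subset_of_nonneg hS fun u hu _ =>
      H.m0 u (Lv.hh_fact H.toPCon hy hu).1 y hy, hSs,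
    fun l => (((F ∪ S).filter fun u => kp l u ≠ 0).card : ℤ), fun l => Nat.cast_nonneg _, ?_,
    F ∪ S, ?_, ?_, ?_, ?_, ?_, fun l _ _ _ => le_rfl⟩
  · refine (H.other_ends hy z (fun u hu => ?_)).trans ?_
    · obtain ⟨h1, h2, h3⟩ := hU u hu
      exact ⟨h1, h2, by rw [h3]; norm_num⟩
    · rw [← hSc]
      refine Int.ofNat_le.2 (card_le_card fun u hu => ?_)
      obtain ⟨h1, l, hl, hly, hkl⟩ := mem_filter.1 hu
      rcases mem_union.1 h1 with h2 | h2
      · exact absurd ((Lv.hf_fact hy (hF h2)).2.2.2.2.2 l hl hly) hkl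
      · exact h2
  · intro u hu
    rcases mem_union.1 hu with h1 | h1
    · obtain ⟨h3, h4, h5, -⟩ := mem_filter.1 (hF h1)
      exact mem_filter.2 ⟨h3, h4, h5⟩
    · obtain ⟨h3, h4, h5, -⟩ := mem_filter.1 (hS h1)
      exact mem_filter.2 ⟨h3, h4, h5⟩
  · rw [sum_congr rfl fun u hu => (hU u hu).2.1, sum_const, nsmul_eq_mul, mul_one, hcard]
  · have h1 : ∑ u ∈ F ∪ S, kp y u * (R - t y) = ((mf : ℤ) + mh) * (R - t y) := by
      rw [← hcard, ← nsmul_eq_mul, ← sum_const]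
      exact sum_congr rfl fun u hu => by rw [(hU u hu).2.2, one_mul]
    have h2 : ∑ u ∈ F ∪ S, mn y u = ∑ u ∈ S, mn y u := by
      rw [sum_union dFS, sum_eq_zero fun u hu => (Lv.hf_fact hy (hF hu)).2.2.1, zero_add]
    rw [sum_sub_distrib, h1, h2]
  · rw [hcard]
    rfl
  · rw [← hcard]
    exact H.off_ge fun u hu => (hU u hu).1

end VSet

end Pool.Agent.Lib.MP_f04ccf_co
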