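import Pool.Agent.Lib.MP_f04ccf_co.M.WCore
import Pool.Agent.Lib.MP_f04ccf_co.M.ItE
import Pool.Agent.Lib.MP_f04ccf_co.M.MatP
import Pool.Agent.Lib.MP_f04ccf_co.M.EnN
import Pool.Agent.Lib.MP_f04ccf_co.M.KernB

/-!
MP_f04ccf_co, PLAN W (notes 16444, 16616): the bridge from the whole frame (`WCore`) to the items over
the basic integers (`ItE`).  `ISys.ite`: the transport of `ItE` from energies and pairs of the rows.
`Pk.sum_iht`: the hits of the items of a packing.  `PkOpt.energyF`: the energy with free arcs over the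
basic integers.  `WCore.ite`: every `WCore` gives an `ItE`.
-/

set_option autoImplicit false

namespace Pool.Agent.Lib.MP_f04ccf_co

open Finset

attribute [local instance] Classical.propDecidable

section Trans

variable {ι V : Type*} {G : SimpleGraph V} {Z T : Finset V} {hm : V → V} {r m t : ℕ}

/-- sums over the other rows -/
lemma Rank.sum_er {A : Finset V} {f : V → ℤ} {ρ : V → ℕ} {σ : ℕ → V} (hσ : Rank A f ρ σ)
    {i : ℕ} (hi : i < A.card) (g : V → ℤ) :
    ∑ z ∈ A.erase (σ i), g z = ∑ j ∈ (range A.card).erase i, g (σ j) := by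
  have h1 := add_sum_erase A g (hσ.mem i hi)
  have h2 := add_sum_erase (range A.card) (fun j => g (σ j)) (mem_range.2 hi)
  have h3 := hσ.sum g
  have h4 : g (σ i) + ∑ j ∈ (range A.card).erase i, g (σ j) = ∑ j ∈ range A.card, g (σ j) := h2
  linarith

/-- **the transport with energies**: `muX` the value, `NbX` (doubled) and `NxX` the N-excess -/
theorem ISys.ite {A S : Finset V} {U : Finset ι} {host : ι → V} {vl : ι → ℤ}
    {kp ms mr : V → ι → ℤ} (h : ISys G Z T hm r A S U host vl kp ms mr) {ρ : V → ℕ} {σ : ℕ → V}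
    (hσ : Rank A (tI G Z T hm r S) ρ σ)
    (hb : BI ((r : ℤ) - 1) A.card (fun i => tI G Z T hm r S (σ i)) (fun i => sI hm r S (σ i))
      (fun i => hI G Z T hm S (σ i)) (fun i => eI G hm S (σ i))
      (fun i j => EI G hm S (σ i) (σ j)))
    {muX NbX : V → ℤ} {NxX : V → V → ℤ}
    (hmu : ∀ x ∈ A, muX x = ∑ u ∈ U.filter (fun u => host u = x), vl u)
    (muh : ∀ x ∈ A, muX x ≤ hI G Z T hm S x)
    (en : ∀ x ∈ A, 2 * eI G hm S x + muX x * (muX x + 1)
      ≤ 2 * (muX x * hI G Z T hm S x) + NbX x + 2 * ∑ z ∈ A.erase x, NxX x z)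
    (pn : ∀ x ∈ A, ∀ z ∈ A, x ≠ z →
      ∑ u ∈ U.filter (fun u => host u = x),
          (kp z u * ((r : ℤ) - 1 - tI G Z T hm r S z) - ms z u)
        + ∑ u ∈ U.filter (fun u => host u = z),
          (kp x u * ((r : ℤ) - 1 - tI G Z T hm r S x) - ms x u)
        + NxX x z + NxX z x ≤ EI G hm S x z) :
    ItE ((r : ℤ) - 1) A.card (fun i => tI G Z T hm r S (σ i)) (fun i => sI hm r S (σ i))
      (fun i => hI G Z T hm S (σ i)) (fun i => eI G hm S (σ i))
      (fun i j => EI G hm S (σ i) (σ j)) U (fun u => ρ (host u)) vl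
      (fun i u => kp (σ i) u) (fun i u => ms (σ i) u) (fun i u => mr (σ i) u)
      (fun i => muX (σ i)) (fun i => NbX (σ i)) (fun i j => NxX (σ i) (σ j)) := by
  have hfil : ∀ i < A.card, U.filter (fun u => ρ (host u) = i)
      = U.filter (fun u => host u = σ i) := by
    intro i hi
    refine filter_congr fun u hu => ?_
    constructor
    · rintro rfl
      exact (hσ.left _ (h.hA u hu)).symm
    · intro h1
      rw [h1, hσ.right i hi]
  refine ⟨h.itn hσ hb, fun i hi => ?_, fun i hi => muh _ (hσ.mem i hi), fun i hi => ?_,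
    fun i hi j hj hij => ?_⟩
  · show muX (σ i) = ∑ u ∈ U.filter (fun u => ρ (host u) = i), vl u
    rw [hfil i hi]
    exact hmu _ (hσ.mem i hi)
  · have h1 := en _ (hσ.mem i hi)
    rw [hσ.sum_er hi] at h1
    exact h1
  · have h1 := pn _ (hσ.mem i hi) _ (hσ.mem j hj) fun h2 => hij (hσ.sinj hi hj h2)
    show ∑ u ∈ U.filter (fun u => ρ (host u) = i), _ + ∑ u ∈ U.filter (fun u => ρ (host u) = j), _
      + _ + _ ≤ _
    rw [hfil i hi, hfil j hj]
    exact h1

end Trans

section Hits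

variable {ι V : Type*} {G : SimpleGraph V} {A : Finset ι} {C H : ι → Finset V} {tl : V → ι}

/-- **the hits of the items of a packing at the row `z`** -/
theorem Pk.sum_iht (hW : WSysT G (co G) A C H tl) {x : ι} (hx : x ∈ A) (z : ι)
    {B : Finset (V × V)} {Ps : Finset (Finset V)} (h : Pk G (C x) (H x) tl B Ps) :
    ∑ u ∈ pkf B Ps, iht G C tl z u ≤ ∑ c ∈ C z, (dg G (H x \ B.image Prod.fst) c : ℤ)
      + ∑ e ∈ B.filter (fun e => tl e.1 = z),
        (((C z).card : ℤ) - (rst G (C z) e.1 e.2).card) := by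
  have hHC : Disjoint (H x) (C x) := hW.dHC x hx x hx
  have hfam := h.fam hHC
  have e1 : ∑ u ∈ pkf B Ps, iht G C tl z u
      = ∑ Q ∈ Ps.filter (fun P => 2 ≤ P.card), iht G C tl z (Sum.inl Q)
        + ∑ e ∈ B, iht G C tl z (Sum.inr e) := by
    unfold pkf
    rw [sum_disjSum]
  rw [e1]
  refine add_le_add ?_ ?_
  · have h1 : ∀ Q ∈ Ps.filter (fun P => 2 ≤ P.card),
        iht G C tl z (Sum.inl Q) ≤ ∑ c ∈ C z, (dg G Q c : ℤ) := by
      intro Q hQ
      have hQ' : (Sum.inl Q : Itm V) ∈ pkf B Ps := inl_mem_pkf.2 (mem_filter.1 hQ)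
      have h2 : ∑ c ∈ C z, ((ikp tl z (Sum.inl Q) : ℤ)
          - if c ∈ rcl G C tl (oth tl z) z (Sum.inl Q) then 1 else 0)
          ≤ ∑ c ∈ C z, (dg G Q c : ℤ) := by
        refine sum_le_sum fun c hc => ?_
        have h3 := hfam.see hW hx (X := oth tl z) (fun _ => Subset.refl _) hQ' hc
        rw [rpts_oth] at h3
        have h4 : ipts (Sum.inl Q : Itm V) = Q := rfl
        rw [h4] at h3
        linarith
      rw [sum_sub_distrib, sum_rcl, sum_const, nsmul_eq_mul] at h2
      exact h2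
    refine (sum_le_sum h1).trans ?_
    rw [sum_comm]
    refine sum_le_sum fun c _ => ?_
    have h2 : ∑ Q ∈ Ps.filter (fun P => 2 ≤ P.card), (Q.filter fun v => G.Adj c v).card
        = (((Ps.filter fun P => 2 ≤ P.card).biUnion id).filter fun v => G.Adj c v).card := by
      rw [filter_biUnion, card_biUnion]
      · rfl
      · intro P hP Q hQ hPQ
        exact disjoint_filter_filter (h.dis P (mem_filter.1 hP).1 Q (mem_filter.1 hQ).1 hPQ)
    have h3 : (((Ps.filter fun P => 2 ≤ P.card).biUnion id).filter fun v => G.Adj c v).card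
        ≤ dg G (H x \ B.image Prod.fst) c := by
      refine card_le_card (filter_subset_filter _ fun v hv => ?_)
      rw [h.union_eq]
      obtain ⟨P, hP, hvP⟩ := mem_biUnion.1 hv
      exact mem_biUnion.2 ⟨P, (mem_filter.1 hP).1, hvP⟩
    have h4 : ∑ Q ∈ Ps.filter (fun P => 2 ≤ P.card), (dg G Q c : ℤ)
        = ((∑ Q ∈ Ps.filter (fun P => 2 ≤ P.card),
          (Q.filter fun v => G.Adj c v).card : ℕ) : ℤ) := by
      rw [Nat.cast_sum]
      rfl
    rw [h4, h2]
    exact_mod_cast h3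
  · rw [sum_filter]
    refine sum_le_sum fun e he => ?_
    by_cases hz : tl e.1 = z
    · rw [if_pos hz]
      have h1 : rst G (C z) e.1 e.2 = ∅ := by
        unfold rst
        rw [filter_eq_empty_iff]
        rintro c hc ⟨h2, h3⟩
        have hF : (co G).Adj e.1 e.2 := co_adj.2 ⟨fun h4 =>
          disjoint_left.1 hHC (h.bH e he) (h4 ▸ h.bC e he), h.bN e he⟩
        rcases (hW.pc x hx e.1 (h.bH e he) e.2 (h.bC e he) hF).2 c (hz ▸ hc) with h4 | h4
        · exact h2 h4
        · exact h3 h4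
      rw [h1, card_empty]
      have h2 : iht G C tl z (Sum.inr e) = (C z).card := by
        have h3 : ims G C tl z (Sum.inr e : Itm V) = 0 := rfl
        unfold iht
        rw [h3]
        simp only [ikp, hz, if_true]
        simp
      rw [h2]
      simp
    · rw [if_neg hz]
      refine le_of_eq (iht_zero ?_)
      simp only [ikp, hz, if_false]

end Hits

section En

variable {V : Type*} {G : SimpleGraph V} {Z T : Finset V} {hm : V → V} {r m t : ℕ}
  {A : Finset V} {B : Finset (V × V)} {Ps : Finset (Finset V)}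
  {φ : Finset (V × V) → Finset (Finset V) → ℕ}

/-- the free missed points of a member of tail `tl v` -/
lemma frC_eq {ι : Type*} {C : Finset V} {tl : V → ι} {v : V} (hv : v ∉ C) :
    frC G C tl B v = msd G (C \ (B.filter fun e => tl e.1 = tl v).image Prod.snd) v := by
  ext a
  simp only [frC, msd, mem_filter, mem_sdiff, mem_image]
  constructor
  · rintro ⟨h1, h2, h3⟩
    refine ⟨⟨h1, ?_⟩, fun h4 => hv (h4 ▸ h1), h2⟩
    rintro ⟨e, ⟨h4, h5⟩, h6⟩
    exact h3 e h4 h6 h5
  · rintro ⟨⟨h1, h2⟩, -, h3⟩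
    exact ⟨h1, h3, fun e he h4 h5 => h2 ⟨e, ⟨he, h5⟩, h4⟩⟩

/-- there are no N-ends outside the PC pairs of an optimal packing -/
lemma PkOpt.frC_zero {ι : Type*} {C H : Finset V} {tl : V → ι} (h : PkOpt G C H tl φ B Ps) :
    Nend G C H tl B = ∅ := by
  rw [eq_empty_iff_forall_notMem]
  intro v hv
  obtain ⟨h1, a, ha⟩ := mem_Nend.1 hv
  rw [h.toPk.union_eq] at h1
  obtain ⟨P, hP, hvP⟩ := mem_biUnion.1 h1
  obtain ⟨h2, h3, h4⟩ := mem_frC.1 ha
  obtain ⟨e, he, h5, h6⟩ := h.used hP hvP h2 h3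
  exact h4 e he h5 h6

/-- **the energy of an optimal packing with free arcs**: `2 e + mu (mu + 1) ≤ 2 mu h + (2 be + both)
+ 2 (free arcs)` -/
theorem PkOpt.energyF {S : Finset V} (hF : PFrame G r m t Z T) (hh : Homes G Z T hm)
    (hC : CSys G Z T hm A fun x => S.filter fun v => hm v = x)
    (ht : ∀ x ∈ A, ∀ v ∈ HP G Z T (fun x => S.filter fun v => hm v = x) x,
      tlo G T hm v ∈ A.erase x) {x : V} (hx : x ∈ A)
    (h : PkOpt G (CP G Z T (fun x => S.filter fun v => hm v = x) x)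
      (HP G Z T (fun x => S.filter fun v => hm v = x) x) (tlo G T hm) φ B Ps) :
    2 * eI G hm S x + (∑ u ∈ pkf B Ps, (ivl u : ℤ)) * (∑ u ∈ pkf B Ps, (ivl u : ℤ) + 1)
      ≤ 2 * ((∑ u ∈ pkf B Ps, (ivl u : ℤ)) * hI G Z T hm S x)
        + (2 * (B.card : ℤ) + bothB G (tlo G T hm) B)
        + 2 * ∑ z ∈ A.erase x, (farc G (CP G Z T (fun x => S.filter fun v => hm v = x) x)
          ((HP G Z T (fun x => S.filter fun v => hm v = x) x).filter
            fun v => tlo G T hm v = z) (B.filter fun e => tlo G T hm e.1 = z) : ℤ) := by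
  have hCH := (hC.dCH hx hx).symm
  have h1 := h.toPk.energyN h.min (hC.h32 hF hh ht hx) (hC.CP_clq hF hx) hCH
  have h2 := h.toPk.sum_ivl
  have h3 : ∑ u ∈ pkf B Ps, (ivl u : ℤ) + Ps.card
      = ((HP G Z T (fun x => S.filter fun v => hm v = x) x).card : ℤ) := by exact_mod_cast h2
  have h5 := two_eI (G := G) (hm := hm) S x
  have h6 : ∑ e ∈ B, (frC G (CP G Z T (fun x => S.filter fun v => hm v = x) x)
      (tlo G T hm) B e.1).card
      = ∑ z ∈ A.erase x, farc G (CP G Z T (fun x => S.filter fun v => hm v = x) x)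
          ((HP G Z T (fun x => S.filter fun v => hm v = x) x).filter
            fun v => tlo G T hm v = z) (B.filter fun e => tlo G T hm e.1 = z) := by
    rw [← sum_fiberwise_of_maps_to (s := B) (t := A.erase x) (g := fun e => tlo G T hm e.1)
      fun e he => ht x hx e.1 (h.bH e he)]
    refine sum_congr rfl fun z _ => ?_
    rw [(h.pcx hCH z).farc_eq]
    refine sum_congr rfl fun e he => ?_
    obtain ⟨he1, he2⟩ := mem_filter.1 he
    rw [frC_eq fun h7 => disjoint_left.1 hCH (h.bH e he1) h7, he2]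
  rw [h.frC_zero] at h1
  rw [union_comm, CP_union_HP] at h1
  have h7 : (∑ e ∈ B, (1 + ((frC G (CP G Z T (fun x => S.filter fun v => hm v = x) x)
      (tlo G T hm) B e.1).card : ℤ)))
      = B.card + ∑ z ∈ A.erase x, (farc G (CP G Z T (fun x => S.filter fun v => hm v = x) x)
          ((HP G Z T (fun x => S.filter fun v => hm v = x) x).filter
            fun v => tlo G T hm v = z) (B.filter fun e => tlo G T hm e.1 = z) : ℤ) := by
    rw [sum_add_distrib, sum_const, nsmul_eq_mul, mul_one]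
    congr 1
    exact_mod_cast h6
  rw [h7, sum_empty] at h1
  have h8 : (E G (∅ : Finset V) : ℤ) = 0 := by
    have : E G (∅ : Finset V) = 0 := rfl
    rw [this]
    rfl
  rw [h8] at h1
  rw [h5]
  have h9 : hI G Z T hm S x
      = ((HP G Z T (fun x => S.filter fun v => hm v = x) x).card : ℤ) := rfl
  rw [h9]
  set μ : ℤ := ∑ u ∈ pkf B Ps, (ivl u : ℤ) with hμ
  have h4 : (Ps.card : ℤ)
      = (HP G Z T (fun x => S.filter fun v => hm v = x) x).card - μ := by linarith
  rw [h4] at h1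
  nlinarith

end En

section Bridge

variable {V : Type*} {G : SimpleGraph V} {Z T : Finset V} {hm : V → V} {r m n : ℕ}
  {φ : Finset (V × V) → Finset (Finset V) → ℕ}

variable (G Z T hm) in
/-- the class parts of the whole frame -/
noncomputable abbrev cz : V → Finset V := CP G Z T fun x => Z.filter fun v => hm v = x

variable (G Z T hm) in
/-- the members of the whole frame -/
noncomputable abbrev hz : V → Finset V := HP G Z T fun x => Z.filter fun v => hm v = x

variable (G Z T hm) in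
/-- the free arcs of the host `x` with tail `z` -/
noncomputable def far (B : V → Finset (V × V)) (x z : V) : ℤ :=
  (farc G (cz G Z T hm x) ((hz G Z T hm x).filter fun v => tlo G T hm v = z)
    ((B x).filter fun e => tlo G T hm e.1 = z) : ℤ)

/-- the tails of the members are rows -/
lemma WHom.ht (h : WHom G Z T r m n hm) :
    ∀ x ∈ T, ∀ v ∈ hz G Z T hm x, tlo G T hm v ∈ T.erase x := h.wsysT.tlA

/-- **(pair) for optimal packings of all hosts, with the free arcs of both hosts** -/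
theorem WCore.pairF (h : WCore G Z T r m n hm) {B : V → Finset (V × V)}
    {Ps : V → Finset (Finset V)}
    (hB : ∀ x ∈ T, PkOpt G (cz G Z T hm x) (hz G Z T hm x) (tlo G T hm) φ (B x) (Ps x))
    {x z : V} (hx : x ∈ T) (hz' : z ∈ T) (hxz : x ≠ z) :
    ∑ u ∈ pkf (B x) (Ps x), iht G (cz G Z T hm) (tlo G T hm) z u
      + ∑ u ∈ pkf (B z) (Ps z), iht G (cz G Z T hm) (tlo G T hm) x u
      + far G Z T hm B x z + far G Z T hm B z x ≤ EI G hm Z x z := by
  have h1 := Pk.sum_iht h.wsysT hx z (hB x hx).toPk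
  have h2 := Pk.sum_iht h.wsysT hz' x (hB z hz').toPk
  have h3 := HSys.pair_pk h.F.toPFrame h.hh h.hsys h.ok h.h3 hx hz' hxz
    (P := hz G Z T hm x \ (B x).image Prod.fst) (P' := hz G Z T hm z \ (B z).image Prod.fst)
    sdiff_subset sdiff_subset (hB x hx) (hB z hz')
    (fun e he h4 => (mem_sdiff.1 h4).2 (mem_image_of_mem _ he))
    (fun e he h4 => (mem_sdiff.1 h4).2 (mem_image_of_mem _ he))
  have h4 : EI G hm Z x z
      = ∑ v ∈ Z.filter (fun v => hm v = z), (dg G (Z.filter fun v => hm v = x) v : ℤ) := rfl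
  rw [h4]
  unfold far
  linarith

/-- **packings of all hosts with hosts of the items** -/
theorem WHom.exists_packs (h : WHom G Z T r m n hm)
    (φ : Finset (V × V) → Finset (Finset V) → ℕ) :
    ∃ (B : V → Finset (V × V)) (Ps : V → Finset (Finset V)) (host : Itm V → V),
      (∀ x ∈ T, PkOpt G (cz G Z T hm x) (hz G Z T hm x) (tlo G T hm) φ (B x) (Ps x)) ∧
      ∀ x ∈ T, ∀ u ∈ pkf (B x) (Ps x), host u = x := by
  choose B Ps hB using fun x => exists_pkopt (G := G) (C := cz G Z T hm x)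
    (H := hz G Z T hm x) (tl := tlo G T hm) φ
  have hfam : ∀ x ∈ T, Fam (co G) (cz G Z T hm) (hz G Z T hm) (tlo G T hm) x
      (pkf (B x) (Ps x)) := fun x hx =>
    (hB x).toPk.fam (h.csys.dCH hx hx).symm
  have hne : T.Nonempty := by
    rw [← card_pos, h.cardT]
    have := h.five
    omega
  obtain ⟨host, hhost⟩ := Fam.exists_host h.csys hne hfam
  exact ⟨B, Ps, host, fun x _ => hB x, hhost⟩

variable (G Z T hm r n) in
/-- the items of optimal packings of all hosts over the basic integers: `B x`, `Ps x` the packing of the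
host `x` -/
structure WIt (φ : Finset (V × V) → Finset (Finset V) → ℕ) (B : V → Finset (V × V))
    (Ps : V → Finset (Finset V)) (host : Itm V → V) (ρ : V → ℕ) (σ : ℕ → V) : Prop where
  pk : ∀ x ∈ T, PkOpt G (cz G Z T hm x) (hz G Z T hm x) (tlo G T hm) φ (B x) (Ps x)
  hst : ∀ x ∈ T, ∀ u ∈ pkf (B x) (Ps x), host u = x
  rk : Rank T (tI G Z T hm r Z) ρ σ
  cT : T.card = n
  bic : BIC ((r : ℤ) - 1) n (fun i => tI G Z T hm r Z (σ i)) (fun i => sI hm r Z (σ i))
    (fun i => hI G Z T hm Z (σ i)) (fun i => eI G hm Z (σ i))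
    (fun i j => EI G hm Z (σ i) (σ j))
  it : ItE ((r : ℤ) - 1) n (fun i => tI G Z T hm r Z (σ i)) (fun i => sI hm r Z (σ i))
    (fun i => hI G Z T hm Z (σ i)) (fun i => eI G hm Z (σ i))
    (fun i j => EI G hm Z (σ i) (σ j)) (T.biUnion fun x => pkf (B x) (Ps x))
    (fun u => ρ (host u)) (fun u => (ivl u : ℤ)) (fun i u => (ikp (tlo G T hm) (σ i) u : ℤ))
    (fun i u => (ims G (cz G Z T hm) (tlo G T hm) (σ i) u : ℤ))
    (fun i u => (rmr G (cz G Z T hm) (tlo G T hm) (σ i) u : ℤ))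
    (fun i => ∑ u ∈ pkf (B (σ i)) (Ps (σ i)), (ivl u : ℤ))
    (fun i => 2 * ((B (σ i)).card : ℤ) + bothB G (tlo G T hm) (B (σ i)))
    (fun i j => far G Z T hm B (σ i) (σ j))

/-- the basic integers with the cap for a given rank -/
theorem WHom.bic_rank (h : WHom G Z T r m n hm) {ρ : V → ℕ} {σ : ℕ → V}
    (hσ : Rank T (tI G Z T hm r Z) ρ σ) :
    BIC ((r : ℤ) - 1) n (fun i => tI G Z T hm r Z (σ i)) (fun i => sI hm r Z (σ i))
      (fun i => hI G Z T hm Z (σ i)) (fun i => eI G hm Z (σ i))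
      (fun i j => EI G hm Z (σ i) (σ j)) := by
  have h1 := h.hsys.bic_rank h.F h.gp.P h.gp.M h.gp.cap h.hmr (by
    rw [h.F.cardT]
    have := h.five
    omega) (by rw [h.F.cardT]; exact h.F.cardZ) (by rw [h.F.cardT]; exact h.F.alpha) h.ok hσ
  rwa [h.F.cardT] at h1

/-- **the bridge**: the whole frame gives the items over the basic integers, for any optimal packings,
hosts and rank -/
theorem WCore.wit (h : WCore G Z T r m n hm) {B : V → Finset (V × V)}
    {Ps : V → Finset (Finset V)} {host : Itm V → V}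
    (hB : ∀ x ∈ T, PkOpt G (cz G Z T hm x) (hz G Z T hm x) (tlo G T hm) φ (B x) (Ps x))
    (hhost : ∀ x ∈ T, ∀ u ∈ pkf (B x) (Ps x), host u = x) {ρ : V → ℕ} {σ : ℕ → V}
    (hσ : Rank T (tI G Z T hm r Z) ρ σ) : WIt G Z T hm r n φ B Ps host ρ σ := by
  have hbic := h.toWHom.bic_rank hσ
  have hfam : ∀ x ∈ T, Fam (co G) (cz G Z T hm) (hz G Z T hm) (tlo G T hm) x
      (pkf (B x) (Ps x)) := fun x hx =>
    (hB x hx).toPk.fam (h.csys.dCH hx hx).symm
  have his := h.toWHom.isys hfam hhost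
  have hfil : ∀ x ∈ T, (T.biUnion fun x => pkf (B x) (Ps x)).filter (fun u => host u = x)
      = pkf (B x) (Ps x) := by
    intro x hx
    ext u
    simp only [mem_filter, mem_biUnion]
    constructor
    · rintro ⟨⟨y, hy, hu⟩, h1⟩
      have h2 : x = y := h1.symm.trans (hhost y hy u hu)
      rw [h2]
      exact hu
    · intro hu
      exact ⟨⟨x, hx, hu⟩, hhost x hx u hu⟩
  have hcard := h.cardT
  have hbi := hbic.toBI
  rw [← hcard] at hbi
  have hite := his.ite hσ hbi (muX := fun x => ∑ u ∈ pkf (B x) (Ps x), (ivl u : ℤ))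
    (NbX := fun x => 2 * ((B x).card : ℤ) + bothB G (tlo G T hm) (B x))
    (NxX := fun x z => far G Z T hm B x z)
    (fun x hx => by rw [hfil x hx])
    (fun x hx => (hB x hx).toPk.mu_le)
    (fun x hx => PkOpt.energyF h.F.toPFrame h.hh h.csys h.toWHom.ht hx (hB x hx))
    (fun x hx z hz' hxz => by
      have h1 := h.pairF hB hx hz' hxz
      rw [hfil x hx, hfil z hz']
      have h2 : ∀ (y : V) (u : Itm V), (ikp (tlo G T hm) y u : ℤ)
          * ((r : ℤ) - 1 - tI G Z T hm r Z y) - (ims G (cz G Z T hm) (tlo G T hm) y u : ℤ)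
          = iht G (cz G Z T hm) (tlo G T hm) y u := by
        intro y u
        unfold iht tI
        ring
      simp only [h2]
      exact h1)
  rw [hcard] at hite
  exact ⟨hB, hhost, hσ, hcard, hbic, hite⟩

/-- **the bridge** -/
theorem WCore.exists_wit (h : WCore G Z T r m n hm)
    (φ : Finset (V × V) → Finset (Finset V) → ℕ) :
    ∃ B Ps host ρ σ, WIt G Z T hm r n φ B Ps host ρ σ := by
  obtain ⟨B, Ps, host, hB, hhost⟩ := h.exists_packs φ
  obtain ⟨ρ, σ, hσ, -⟩ := h.bic
  exact ⟨B, Ps, host, ρ, σ, h.wit hB hhost hσ⟩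

/-- **the bridge with a lexicographic rank** `(t, b, c)`; the functions `b`, `c` may depend on the
packings -/
theorem WCore.exists_wit3 (h : WCore G Z T r m n hm)
    (φ : Finset (V × V) → Finset (Finset V) → ℕ)
    (b c : (V → Finset (V × V)) → (V → Finset (Finset V)) → V → ℤ) :
    ∃ B Ps host ρ σ, WIt G Z T hm r n φ B Ps host ρ σ ∧
      ∀ i j, i ≤ j → j < n → tI G Z T hm r Z (σ j) < tI G Z T hm r Z (σ i) ∨
        tI G Z T hm r Z (σ j) = tI G Z T hm r Z (σ i) ∧
          (b B Ps (σ j) < b B Ps (σ i) ∨ b B Ps (σ j) = b B Ps (σ i) ∧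
            c B Ps (σ j) ≤ c B Ps (σ i)) := by
  obtain ⟨B, Ps, host, hB, hhost⟩ := h.exists_packs φ
  have hne : T.Nonempty := by
    rw [← card_pos, h.cardT]
    have := h.five
    omega
  obtain ⟨ρ, σ, hσ, hlex⟩ := exists_rank3 T hne (tI G Z T hm r Z) (b B Ps) (c B Ps)
  rw [h.cardT] at hlex
  exact ⟨B, Ps, host, ρ, σ, h.wit hB hhost hσ, hlex⟩

/-- **the bridge with the rank `(t, h, mu)`** -/
theorem WCore.exists_witM (h : WCore G Z T r m n hm)
    (φ : Finset (V × V) → Finset (Finset V) → ℕ) :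
    ∃ B Ps host ρ σ, WIt G Z T hm r n φ B Ps host ρ σ ∧
      ∀ i j, i ≤ j → j < n → tI G Z T hm r Z (σ j) < tI G Z T hm r Z (σ i) ∨
        tI G Z T hm r Z (σ j) = tI G Z T hm r Z (σ i) ∧
          (hI G Z T hm Z (σ j) < hI G Z T hm Z (σ i) ∨
            hI G Z T hm Z (σ j) = hI G Z T hm Z (σ i) ∧
            ∑ u ∈ pkf (B (σ j)) (Ps (σ j)), (ivl u : ℤ)
              ≤ ∑ u ∈ pkf (B (σ i)) (Ps (σ i)), (ivl u : ℤ)) :=
  h.exists_wit3 φ (fun _ _ => hI G Z T hm Z) fun B Ps x => ∑ u ∈ pkf (B x) (Ps x), (ivl u : ℤ)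

end Bridge

end Pool.Agent.Lib.MP_f04ccf_co
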