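import Pool.Agent.Lib.MP_f04ccf_co.M.WgtA

/-!
MP_f04ccf_co: the combined load statement (*_L), one transversal.  `WSys.single`: the split cover of the
host `x` given by a transversal of the other rows.  `WSys.layer`: the closing set of the rows of
smaller rank than `j` given by a transversal of the rows of rank at least that of `j`.
-/

set_option autoImplicit false

namespace Pool.Agent.Lib.MP_f04ccf_co

open Finset

attribute [local instance] Classical.propDecidable

section Job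

variable {ι V : Type*}

/-- the members of home `s` with tail `t` -/
noncomputable def arc (H : ι → Finset V) (tl : V → ι) (s t : ι) : Finset V :=
  (H s).filter (fun v => tl v = t)

/-- the neighbours of the partner of `a` in the home `x` with tail `s`, or with tail `t` outside the
Koenig cover -/
noncomputable def NK (G : SimpleGraph V) (H : ι → Finset V) (tl : V → ι) (X L : ι → ι → Finset V)
    (w : ι → ι → V → V) (x s t : ι) (a : V) : Finset V :=
  (H x).filter (fun q => G.Adj (w s t a) q ∧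
    (tl q = s ∨ (tl q = t ∧ q ∉ (X x t \ L x t).image (w x t))))

/-- the neighbours of the partner of `a` in the home `x` with tail `s` or `t` -/
noncomputable def N0 (G : SimpleGraph V) (H : ι → Finset V) (tl : V → ι)
    (w : ι → ι → V → V) (x s t : ι) (a : V) : Finset V :=
  (H x).filter (fun q => G.Adj (w s t a) q ∧ (tl q = s ∨ tl q = t))

/-- Koenig data for all arcs -/
def KDs (F : SimpleGraph V) (A : Finset ι) (C H : ι → Finset V) (tl : V → ι)
    (X L : ι → ι → Finset V) (w : ι → ι → V → V) : Prop :=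
  ∀ s ∈ A, ∀ t ∈ A, s ≠ t → KD F (C s) (arc H tl s t) (X s t) (L s t) (w s t)

/-- covers of the half-served pairs -/
def LMs (F : SimpleGraph V) (A : Finset ι) (H : ι → Finset V) (tl : V → ι) (ρ : ι → ℕ)
    (Lm : ι → ι → ι → Finset V) : Prop :=
  ∀ x ∈ A, ∀ y ∈ A, ∀ z ∈ A, x ≠ y → x ≠ z → ρ y < ρ z → Lm x y z ⊆ H x ∧
    ∀ p ∈ H x, ∀ q ∈ H x, F.Adj p q → tl p = y → tl q = z → p ∈ Lm x y z ∨ q ∈ Lm x y z

variable {G F : SimpleGraph V} {A : Finset ι} {C H : ι → Finset V} {tl : V → ι} {ρ : ι → ℕ}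
  {X L : ι → ι → Finset V} {w : ι → ι → V → V} {Lm : ι → ι → ι → Finset V}

lemma mem_arc {s t : ι} {v : V} : v ∈ arc H tl s t ↔ v ∈ H s ∧ tl v = t := mem_filter

lemma mem_NK {x s t : ι} {a q : V} : q ∈ NK G H tl X L w x s t a ↔ q ∈ H x ∧ G.Adj (w s t a) q ∧
    (tl q = s ∨ (tl q = t ∧ q ∉ (X x t \ L x t).image (w x t))) := mem_filter

lemma mem_N0 {x s t : ι} {a q : V} : q ∈ N0 G H tl w x s t a ↔ q ∈ H x ∧ G.Adj (w s t a) q ∧
    (tl q = s ∨ tl q = t) := mem_filter

/-- a partner of a point of `X s t` -/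
lemma KDs.part (hK : KDs F A C H tl X L w) {s t : ι} (hs : s ∈ A) (ht : t ∈ A) (hst : s ≠ t)
    {a : V} (ha : a ∈ X s t) : w s t a ∈ H s ∧ tl (w s t a) = t ∧ F.Adj (w s t a) a ∧ a ∈ C s := by
  have h := hK s hs t ht hst
  obtain ⟨h1, h2⟩ := h.mem a ha
  exact ⟨(mem_arc.1 h1).1, (mem_arc.1 h1).2, h2, h.XP ha⟩

/-- the partner of `a` sees a point of every half-served pair with the far rows `s`, `t` which `a`
does not see -/
lemma WSys.hit (h : WSys G F A C H tl) (hK : KDs F A C H tl X L w) {x s t : ι} (hx : x ∈ A)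
    (hs : s ∈ A) (ht : t ∈ A) (hxs : x ≠ s) (hxt : x ≠ t) (hst : s ≠ t) {p q : V} (hp : p ∈ H x)
    (hq : q ∈ H x) (hpq : F.Adj p q) (hps : tl p = s) (hqt : tl q = t) {a : V} (ha : a ∈ X s t)
    (h1 : ¬ G.Adj a p) (h2 : ¬ G.Adj a q) : G.Adj (w s t a) p ∨ G.Adj (w s t a) q := by
  obtain ⟨w1, w2, w3, w4⟩ := hK.part hs ht hst ha
  exact h.four x hx s hs t ht hxs hxt hst p hp q hq hpq hps hqt _ w1 w2 a w4
    (fun h' => h.FG _ _ w3 h'.symm) h1 h2

/-- the partner of `c` sees every member of home `x` with tail `z` which `c` does not see -/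
lemma WSys.hit3 (h : WSys G F A C H tl) (hK : KDs F A C H tl X L w) {x z : ι} (hx : x ∈ A)
    (hz : z ∈ A) (hxz : x ≠ z) {c v : V} (hc : c ∈ X z x) (hv : v ∈ H x) (hvz : tl v = z)
    (h1 : ¬ G.Adj c v) : G.Adj (w z x c) v := by
  obtain ⟨w1, w2, w3, w4⟩ := hK.part hz hx hxz.symm hc
  exact h.three x hx z hz hxz v hv hvz _ w1 w2 c w4 h1 (fun h' => h.FG _ _ w3 h'.symm)

/-- **one host**: the split cover given by a transversal of the other rows -/
theorem WSys.single (h : WSys G F A C H tl) (hK : KDs F A C H tl X L w)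
    (hρ : ∀ x ∈ A, ∀ y ∈ A, ρ x = ρ y → x = y) (hLm : LMs F A H tl ρ Lm) {x : ι} (hx : x ∈ A)
    {c : ι → V} (hc : ∀ z ∈ A.erase x, c z ∈ C z) :
    spn F tl (H x) (C x) (A.erase x) ≤ ∑ z ∈ A.erase x, (dg G (H x) (c z)
        + (if ρ x < ρ z ∧ c z ∈ X z x then dg G (arc H tl x z) (w z x (c z))
            else dg G (X x z) (c z))
        + ∑ y ∈ A.erase x, (if ρ y < ρ z ∧ c z ∈ X z y then (NK G H tl X L w x z y (c z)).card
            else 0))
      + ∑ y ∈ A.erase x, ∑ z ∈ A.erase x,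
          (if ρ y < ρ z ∧ G.Adj (c y) (c z) ∧ c z ∉ X z y then
            (if c y ∈ X y z then (NK G H tl X L w x y z (c y)).card else (Lm x y z).card)
            else 0) := by
  set KP : ι → Finset V := fun z => if ρ x < ρ z ∧ c z ∈ X z x then
      (arc H tl x z).filter (fun v => ¬ G.Adj (c z) v ∧ ∃ a ∈ C x, F.Adj v a)
    else ((X x z \ L x z).image (w x z)).filter (fun v => ¬ G.Adj (c z) v) with hKP
  set LP : ι → Finset V := fun z => if ρ x < ρ z ∧ c z ∈ X z x then ∅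
    else (L x z).filter (fun a => ∃ v ∈ arc H tl x z, F.Adj v a ∧ ¬ G.Adj (c z) v) with hLP
  set N1 : ι → ι → Finset V := fun z y => if ρ y < ρ z ∧ c z ∈ X z y then
      NK G H tl X L w x z y (c z) else ∅ with hN1
  set N2 : ι → ι → Finset V := fun y z =>
    if ρ y < ρ z ∧ G.Adj (c y) (c z) ∧ c z ∉ X z y then
      (if c y ∈ X y z then NK G H tl X L w x y z (c y) else Lm x y z) else ∅ with hN2
  set Xc : Finset V := (A.erase x).biUnion (fun z => ((H x).filter (fun v => G.Adj (c z) v) ∪ KP z)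
      ∪ (A.erase x).biUnion (N1 z)) ∪ (A.erase x).biUnion (fun y => (A.erase x).biUnion (N2 y))
    with hXc
  have iS : ∀ z ∈ A.erase x, ∀ v ∈ H x, G.Adj (c z) v → v ∈ Xc := fun z hz v hv hcv =>
    mem_union_left _ (mem_biUnion.2 ⟨z, hz, mem_union_left _ (mem_union_left _
      (mem_filter.2 ⟨hv, hcv⟩))⟩)
  have iK : ∀ z ∈ A.erase x, ∀ v ∈ KP z, v ∈ Xc := fun z hz v hv =>
    mem_union_left _ (mem_biUnion.2 ⟨z, hz, mem_union_left _ (mem_union_right _ hv)⟩)
  have i1 : ∀ z ∈ A.erase x, ∀ y ∈ A.erase x, ∀ v ∈ N1 z y, v ∈ Xc := fun z hz y hy v hv =>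
    mem_union_left _ (mem_biUnion.2 ⟨z, hz, mem_union_right _ (mem_biUnion.2 ⟨y, hy, hv⟩)⟩)
  have i2 : ∀ y ∈ A.erase x, ∀ z ∈ A.erase x, ∀ v ∈ N2 y z, v ∈ Xc := fun y hy z hz v hv =>
    mem_union_right _ (mem_biUnion.2 ⟨y, hy, mem_biUnion.2 ⟨z, hz, hv⟩⟩)
  -- members of the Koenig cover which are not seen
  have iK' : ∀ z ∈ A.erase x, ∀ v ∈ (X x z \ L x z).image (w x z), ¬ G.Adj (c z) v → v ∈ Xc := by
    intro z hz v hv hcv
    refine iK z hz v ?_
    rw [hKP]
    by_cases h1 : ρ x < ρ z ∧ c z ∈ X z x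
    · simp only [if_pos h1]
      obtain ⟨a, ha, rfl⟩ := mem_image.1 hv
      obtain ⟨w1, w2, w3, w4⟩ := hK.part hx (mem_of_mem_erase hz) (ne_of_mem_erase hz).symm
        (mem_sdiff.1 ha).1
      exact mem_filter.2 ⟨mem_arc.2 ⟨w1, w2⟩, hcv, a, w4, w3⟩
    · simp only [if_neg h1]
      exact mem_filter.2 ⟨hv, hcv⟩
  have halfc : ∀ p ∈ H x, ∀ q ∈ H x, F.Adj p q → tl p ∈ A.erase x → tl q ∈ A.erase x →
      ρ (tl p) < ρ (tl q) → p ∈ Xc ∨ q ∈ Xc := by
    intro p hp q hq hpq hy hz hlt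
    have hne : tl p ≠ tl q := fun h' => by
      rw [h'] at hlt
      exact lt_irrefl _ hlt
    by_cases s1 : G.Adj (c (tl p)) p
    · exact Or.inl (iS _ hy p hp s1)
    by_cases s2 : G.Adj (c (tl p)) q
    · exact Or.inr (iS _ hy q hq s2)
    by_cases s3 : G.Adj (c (tl q)) p
    · exact Or.inl (iS _ hz p hp s3)
    by_cases s4 : G.Adj (c (tl q)) q
    · exact Or.inr (iS _ hz q hq s4)
    have had := h.half x hx p hp q hq hpq hy hz hne _ (hc _ hy) _ (hc _ hz) s1 s2 s3 s4
    have hyA := mem_of_mem_erase hy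
    have hzA := mem_of_mem_erase hz
    have hxy := (ne_of_mem_erase hy).symm
    have hxz := (ne_of_mem_erase hz).symm
    by_cases c1 : c (tl q) ∈ X (tl q) (tl p)
    · have hm : ∀ v ∈ NK G H tl X L w x (tl q) (tl p) (c (tl q)), v ∈ Xc := fun v hv =>
        i1 _ hz _ hy v (by
          rw [hN1]
          simp only [if_pos (And.intro hlt c1)]
          exact hv)
      rcases h.hit hK hx hzA hyA hxz hxy hne.symm hq hp hpq.symm rfl rfl c1 s4 s3 with h1 | h1
      · exact Or.inr (hm q (mem_NK.2 ⟨hq, h1, Or.inl rfl⟩))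
      · left
        by_cases hpK : p ∈ (X x (tl p) \ L x (tl p)).image (w x (tl p))
        · exact iK' _ hy p hpK s1
        · exact hm p (mem_NK.2 ⟨hp, h1, Or.inr ⟨rfl, hpK⟩⟩)
    · by_cases c2 : c (tl p) ∈ X (tl p) (tl q)
      · have hm : ∀ v ∈ NK G H tl X L w x (tl p) (tl q) (c (tl p)), v ∈ Xc := fun v hv =>
          i2 _ hy _ hz v (by
            rw [hN2]
            simp only [if_pos (And.intro hlt (And.intro had c1)), if_pos c2]
            exact hv)
        rcases h.hit hK hx hyA hzA hxy hxz hne hp hq hpq rfl rfl c2 s1 s2 with h1 | h1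
        · exact Or.inl (hm p (mem_NK.2 ⟨hp, h1, Or.inl rfl⟩))
        · right
          by_cases hqK : q ∈ (X x (tl q) \ L x (tl q)).image (w x (tl q))
          · exact iK' _ hz q hqK s4
          · exact hm q (mem_NK.2 ⟨hq, h1, Or.inr ⟨rfl, hqK⟩⟩)
      · have hm : ∀ v ∈ Lm x (tl p) (tl q), v ∈ Xc := fun v hv =>
          i2 _ hy _ hz v (by
            rw [hN2]
            simp only [if_pos (And.intro hlt (And.intro had c1)), if_neg c2]
            exact hv)
        rcases (hLm x hx _ hyA _ hzA hxy hxz hlt).2 p hp q hq hpq rfl rfl with h1 | h1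
        · exact Or.inl (hm p h1)
        · exact Or.inr (hm q h1)
  have hcov : SpCov F tl (H x) (C x) Xc LP := by
    refine ⟨fun p hp q hq hpq => ?_, fun v hv a ha hva => ?_⟩
    · rcases h.pp x hx p hp q hq hpq with ⟨y, hy, h1⟩ | ⟨hy, hz, hne⟩
      · rcases h1 _ (hc y hy) with h2 | h2
        · exact Or.inl (iS y hy p hp h2)
        · exact Or.inr (iS y hy q hq h2)
      · rcases lt_trichotomy (ρ (tl p)) (ρ (tl q)) with h1 | h1 | h1
        · exact halfc p hp q hq hpq hy hz h1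
        · exact absurd (hρ _ (mem_of_mem_erase hy) _ (mem_of_mem_erase hz) h1) hne
        · exact (halfc q hq p hp hpq.symm hz hy h1).symm
    · obtain ⟨hz, h1⟩ := h.pc x hx v hv a ha hva
      by_cases h2 : G.Adj (c (tl v)) v
      · exact Or.inl (iS _ hz v hv h2)
      have hxz := (ne_of_mem_erase hz).symm
      by_cases h3 : ρ x < ρ (tl v) ∧ c (tl v) ∈ X (tl v) x
      · left
        refine iK _ hz v ?_
        rw [hKP]
        simp only [if_pos h3]
        exact mem_filter.2 ⟨mem_arc.2 ⟨hv, rfl⟩, h2, a, ha, hva⟩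
      · rcases (hK x hx _ (mem_of_mem_erase hz) hxz).cov v (mem_arc.2 ⟨hv, rfl⟩) a ha hva
          with h4 | h4
        · exact Or.inl (iK' _ hz v h4 h2)
        · right
          rw [hLP]
          simp only [if_neg h3]
          exact mem_filter.2 ⟨h4, v, mem_arc.2 ⟨hv, rfl⟩, hva, h2⟩
  have h1 := spn_le (B := A.erase x) hcov
  -- counting
  have hKL : ∀ z ∈ A.erase x, (KP z).card + (LP z).card
      ≤ (if ρ x < ρ z ∧ c z ∈ X z x then dg G (arc H tl x z) (w z x (c z))
            else dg G (X x z) (c z)) := by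
    intro z hz
    have hzA := mem_of_mem_erase hz
    have hxz := (ne_of_mem_erase hz).symm
    rw [hKP, hLP]
    by_cases h2 : ρ x < ρ z ∧ c z ∈ X z x
    · simp only [if_pos h2, card_empty, add_zero]
      unfold dg
      refine card_le_card fun v hv => ?_
      obtain ⟨v1, v2, -⟩ := mem_filter.1 hv
      exact mem_filter.2 ⟨v1, h.hit3 hK hx hzA hxz h2.2 (mem_arc.1 v1).1 (mem_arc.1 v1).2 v2⟩
    · simp only [if_neg h2]
      refine (hK x hx z hzA hxz).col fun v hv a ha hva => ?_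
      obtain ⟨v1, v2⟩ := mem_arc.1 hv
      have h3 := (h.pc x hx v v1 a ha hva).2
      rw [v2] at h3
      exact h3 _ (hc z hz)
  have hN1c : ∀ z y, (N1 z y).card
      = (if ρ y < ρ z ∧ c z ∈ X z y then (NK G H tl X L w x z y (c z)).card else 0) := by
    intro z y
    rw [hN1]
    by_cases h2 : ρ y < ρ z ∧ c z ∈ X z y
    · simp only [if_pos h2]
    · simp only [if_neg h2, card_empty]
  have hN2c : ∀ y z, (N2 y z).card = (if ρ y < ρ z ∧ G.Adj (c y) (c z) ∧ c z ∉ X z y then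
      (if c y ∈ X y z then (NK G H tl X L w x y z (c y)).card else (Lm x y z).card) else 0) := by
    intro y z
    rw [hN2]
    by_cases h2 : ρ y < ρ z ∧ G.Adj (c y) (c z) ∧ c z ∉ X z y
    · simp only [if_pos h2]
      split_ifs <;> rfl
    · simp only [if_neg h2, card_empty]
  have h2 : Xc.card ≤ ∑ z ∈ A.erase x, (dg G (H x) (c z) + (KP z).card
      + ∑ y ∈ A.erase x, (N1 z y).card)
      + ∑ y ∈ A.erase x, ∑ z ∈ A.erase x, (N2 y z).card := by
    refine (card_union_le _ _).trans (add_le_add ?_ ?_)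
    · refine card_biUnion_le.trans (sum_le_sum fun z _ => ?_)
      refine (card_union_le _ _).trans (add_le_add ?_ card_biUnion_le)
      exact card_union_le _ _
    · exact card_biUnion_le.trans (sum_le_sum fun y _ => card_biUnion_le)
  simp only [hN1c, hN2c] at h2
  have h3 := sum_le_sum hKL
  rw [sum_add_distrib] at h3
  simp only [sum_add_distrib] at h2 ⊢
  omega

/-- **one layer**: the closing set of the rows `B` of rank less than `k` given by a transversal of the
other rows -/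
theorem WSys.layer (h : WSys G F A C H tl) (hK : KDs F A C H tl X L w)
    (hρ : ∀ x ∈ A, ∀ y ∈ A, ρ x = ρ y → x = y) (hLm : LMs F A H tl ρ Lm) {k : ℕ} {B Q : Finset ι}
    (hB : B = A.filter (fun x => ρ x < k)) (hQ : Q = A.filter (fun x => k ≤ ρ x))
    {c : ι → V} (hc : ∀ z ∈ Q, c z ∈ C z) {vl : ℚ}
    (hv : ∀ D : Finset V, Clo G F C H tl B D → vl ≤ D.card) :
    vl ≤ ∑ x ∈ B, ((∑ z ∈ Q, (dg G (H x) (c z)
        + (if c z ∈ X z x then dg G (arc H tl x z) (w z x (c z)) else dg G (C x) (c z))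
        + ∑ y ∈ A.erase x, (if ρ y < ρ z ∧ c z ∈ X z y then (N0 G H tl w x z y (c z)).card
            else 0))
      + ∑ y ∈ Q, ∑ z ∈ Q,
          (if ρ y < ρ z ∧ G.Adj (c y) (c z) ∧ c z ∉ X z y then
            (if c y ∈ X y z then (N0 G H tl w x y z (c y)).card else (Lm x y z).card)
            else 0) : ℕ) : ℚ) := by
  have hBA : ∀ x ∈ B, x ∈ A ∧ ρ x < k := fun x hx => by
    rw [hB] at hx
    exact mem_filter.1 hx
  have hQA : ∀ x ∈ Q, x ∈ A ∧ k ≤ ρ x := fun x hx => by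
    rw [hQ] at hx
    exact mem_filter.1 hx
  have hAB : ∀ x ∈ A, x ∉ B → x ∈ Q := fun x hx hxB => by
    rw [hQ]
    refine mem_filter.2 ⟨hx, ?_⟩
    by_contra hcon
    exact hxB (by
      rw [hB]
      exact mem_filter.2 ⟨hx, not_le.1 hcon⟩)
  have hBQ : ∀ x ∈ B, ∀ z ∈ Q, ρ x < ρ z ∧ x ≠ z := by
    intro x hx z hz
    have h1 := (hBA x hx).2
    have h2 := (hQA z hz).2
    refine ⟨by omega, fun h' => ?_⟩
    rw [h'] at h1
    omega
  set KP : ι → ι → Finset V := fun x z => if c z ∈ X z x then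
      (arc H tl x z).filter (fun v => ¬ G.Adj (c z) v ∧ ∃ a ∈ C x, F.Adj v a)
    else (C x).filter (fun v => G.Adj (c z) v) with hKP
  set N1 : ι → ι → ι → Finset V := fun x z y => if ρ y < ρ z ∧ c z ∈ X z y then
      N0 G H tl w x z y (c z) else ∅ with hN1
  set N2 : ι → ι → ι → Finset V := fun x y z =>
    if ρ y < ρ z ∧ G.Adj (c y) (c z) ∧ c z ∉ X z y then
      (if c y ∈ X y z then N0 G H tl w x y z (c y) else Lm x y z) else ∅ with hN2
  set Dx : ι → Finset V := fun x =>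
    Q.biUnion (fun z => ((H x).filter (fun v => G.Adj (c z) v) ∪ KP x z)
      ∪ (A.erase x).biUnion (N1 x z)) ∪ Q.biUnion (fun y => Q.biUnion (N2 x y)) with hDx
  have iS : ∀ x ∈ B, ∀ z ∈ Q, ∀ v ∈ H x, G.Adj (c z) v → v ∈ B.biUnion Dx :=
    fun x hx z hz v hv hcv => mem_biUnion.2 ⟨x, hx,
    mem_union_left _ (mem_biUnion.2 ⟨z, hz, mem_union_left _ (mem_union_left _
      (mem_filter.2 ⟨hv, hcv⟩))⟩)⟩
  have iK : ∀ x ∈ B, ∀ z ∈ Q, ∀ v ∈ KP x z, v ∈ B.biUnion Dx := fun x hx z hz v hv =>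
    mem_biUnion.2 ⟨x, hx, mem_union_left _ (mem_biUnion.2 ⟨z, hz, mem_union_left _
      (mem_union_right _ hv)⟩)⟩
  have i1 : ∀ x ∈ B, ∀ z ∈ Q, ∀ y ∈ A.erase x, ∀ v ∈ N1 x z y, v ∈ B.biUnion Dx :=
    fun x hx z hz y hy v hv => mem_biUnion.2 ⟨x, hx, mem_union_left _ (mem_biUnion.2 ⟨z, hz,
      mem_union_right _ (mem_biUnion.2 ⟨y, hy, hv⟩)⟩)⟩
  have i2 : ∀ x ∈ B, ∀ y ∈ Q, ∀ z ∈ Q, ∀ v ∈ N2 x y z, v ∈ B.biUnion Dx :=
    fun x hx y hy z hz v hv => mem_biUnion.2 ⟨x, hx, mem_union_right _ (mem_biUnion.2 ⟨y, hy,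
      mem_biUnion.2 ⟨z, hz, hv⟩⟩)⟩
  -- a half-served pair with far rows `y`, `z`, the row `z` outside `B`
  have key : ∀ x ∈ B, ∀ p ∈ H x, ∀ q ∈ H x, F.Adj p q → tl p ∈ A.erase x → tl q ∈ Q →
      ρ (tl p) < ρ (tl q) → (∀ v ∈ Q, ¬ G.Adj (c v) p ∧ ¬ G.Adj (c v) q) →
      p ∈ B.biUnion Dx ∨ q ∈ B.biUnion Dx ∨ (c (tl q) ∉ X (tl q) (tl p)) := by
    intro x hx p hp q hq hpq hy hz hlt hun
    by_cases c1 : c (tl q) ∈ X (tl q) (tl p)
    · have hm : ∀ v ∈ N0 G H tl w x (tl q) (tl p) (c (tl q)), v ∈ B.biUnion Dx := fun v hv =>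
        i1 x hx _ hz _ hy v (by
          rw [hN1]
          simp only [if_pos (And.intro hlt c1)]
          exact hv)
      have hne : tl p ≠ tl q := fun h' => by
        rw [h'] at hlt
        exact lt_irrefl _ hlt
      rcases h.hit hK (hBA x hx).1 (hQA _ hz).1 (mem_of_mem_erase hy) (hBQ x hx _ hz).2
        (ne_of_mem_erase hy).symm hne.symm hq hp hpq.symm rfl rfl c1 (hun _ hz).2 (hun _ hz).1
        with h1 | h1
      · exact Or.inr (Or.inl (hm q (mem_N0.2 ⟨hq, h1, Or.inl rfl⟩)))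
      · exact Or.inl (hm p (mem_N0.2 ⟨hp, h1, Or.inr rfl⟩))
    · exact Or.inr (Or.inr c1)
  have halfQ : ∀ x ∈ B, ∀ p ∈ H x, ∀ q ∈ H x, F.Adj p q → tl p ∈ Q → tl q ∈ Q →
      ρ (tl p) < ρ (tl q) → p ∈ B.biUnion Dx ∨ q ∈ B.biUnion Dx := by
    intro x hx p hp q hq hpq hy hz hlt
    have hxA := (hBA x hx).1
    have hxy := (hBQ x hx _ hy).2
    have hxz := (hBQ x hx _ hz).2
    have hy' : tl p ∈ A.erase x := mem_erase.2 ⟨hxy.symm, (hQA _ hy).1⟩
    have hz' : tl q ∈ A.erase x := mem_erase.2 ⟨hxz.symm, (hQA _ hz).1⟩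
    have hne : tl p ≠ tl q := fun h' => by
      rw [h'] at hlt
      exact lt_irrefl _ hlt
    by_cases hun : ∀ v ∈ Q, ¬ G.Adj (c v) p ∧ ¬ G.Adj (c v) q
    · rcases key x hx p hp q hq hpq hy' hz hlt hun with h1 | h1 | c1
      · exact Or.inl h1
      · exact Or.inr h1
      · have had := h.half x hxA p hp q hq hpq hy' hz' hne _ (hc _ hy) _ (hc _ hz)
          (hun _ hy).1 (hun _ hy).2 (hun _ hz).1 (hun _ hz).2
        by_cases c2 : c (tl p) ∈ X (tl p) (tl q)
        · have hm : ∀ v ∈ N0 G H tl w x (tl p) (tl q) (c (tl p)), v ∈ B.biUnion Dx := fun v hv =>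
            i2 x hx _ hy _ hz v (by
              rw [hN2]
              simp only [if_pos (And.intro hlt (And.intro had c1)), if_pos c2]
              exact hv)
          rcases h.hit hK hxA (hQA _ hy).1 (hQA _ hz).1 hxy hxz hne hp hq hpq rfl rfl c2
            (hun _ hy).1 (hun _ hy).2 with h1 | h1
          · exact Or.inl (hm p (mem_N0.2 ⟨hp, h1, Or.inl rfl⟩))
          · exact Or.inr (hm q (mem_N0.2 ⟨hq, h1, Or.inr rfl⟩))
        · have hm : ∀ v ∈ Lm x (tl p) (tl q), v ∈ B.biUnion Dx := fun v hv =>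
            i2 x hx _ hy _ hz v (by
              rw [hN2]
              simp only [if_pos (And.intro hlt (And.intro had c1)), if_neg c2]
              exact hv)
          rcases (hLm x hxA _ (hQA _ hy).1 _ (hQA _ hz).1 hxy hxz hlt).2 p hp q hq hpq rfl rfl
            with h1 | h1
          · exact Or.inl (hm p h1)
          · exact Or.inr (hm q h1)
    · push Not at hun
      obtain ⟨v, hvQ, h1⟩ := hun
      by_cases h2 : G.Adj (c v) p
      · exact Or.inl (iS x hx v hvQ p hp h2)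
      · exact Or.inr (iS x hx v hvQ q hq (h1 h2))
  have hclo : Clo G F C H tl B (B.biUnion Dx) := by
    -- a member and a class point
    have PC : ∀ x ∈ B, ∀ p ∈ H x, ∀ a ∈ C x, F.Adj p a → p ∉ B.biUnion Dx → a ∉ B.biUnion Dx →
        ∃ y ∈ B.erase x, ∀ d ∈ C y, G.Adj d p ∨ G.Adj d a := by
      intro x hx p hp a ha hpa hpD haD
      obtain ⟨hz, h1⟩ := h.pc x (hBA x hx).1 p hp a ha hpa
      by_cases hzB : tl p ∈ B
      · exact ⟨_, mem_erase.2 ⟨ne_of_mem_erase hz, hzB⟩, h1⟩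
      · exfalso
        have hzQ := hAB _ (mem_of_mem_erase hz) hzB
        by_cases h2 : G.Adj (c (tl p)) p
        · exact hpD (iS x hx _ hzQ p hp h2)
        have h3 := (h1 _ (hc _ hzQ)).resolve_left h2
        by_cases h4 : c (tl p) ∈ X (tl p) x
        · refine hpD (iK x hx _ hzQ p ?_)
          rw [hKP]
          simp only [if_pos h4]
          exact mem_filter.2 ⟨mem_arc.2 ⟨hp, rfl⟩, h2, a, ha, hpa⟩
        · refine haD (iK x hx _ hzQ a ?_)
          rw [hKP]
          simp only [if_neg h4]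
          exact mem_filter.2 ⟨ha, h3⟩
    -- a half-served pair, one far row in `B`
    have HM : ∀ x ∈ B, ∀ p ∈ H x, ∀ q ∈ H x, F.Adj p q → p ∉ B.biUnion Dx → q ∉ B.biUnion Dx →
        tl p ∈ B.erase x → tl q ∈ Q → ∀ b ∈ C (tl p), b ∉ B.biUnion Dx →
        G.Adj b p ∨ G.Adj b q := by
      intro x hx p hp q hq hpq hpD hqD hy hz b hb hbD
      by_contra hcon
      push Not at hcon
      have hxA := (hBA x hx).1
      have hxz := (hBQ x hx _ hz).2
      have hyB := mem_of_mem_erase hy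
      have hy' : tl p ∈ A.erase x := mem_erase.2 ⟨ne_of_mem_erase hy, (hBA _ hyB).1⟩
      have hz' : tl q ∈ A.erase x := mem_erase.2 ⟨hxz.symm, (hQA _ hz).1⟩
      have hlt := (hBQ _ hyB _ hz).1
      have hun : ∀ v ∈ Q, ¬ G.Adj (c v) p ∧ ¬ G.Adj (c v) q := fun v hv =>
        ⟨fun h' => hpD (iS x hx v hv p hp h'), fun h' => hqD (iS x hx v hv q hq h')⟩
      rcases key x hx p hp q hq hpq hy' hz hlt hun with h1 | h1 | c1
      · exact hpD h1
      · exact hqD h1
      · have had := h.half x hxA p hp q hq hpq hy' hz' (hBQ _ hyB _ hz).2 b hb _ (hc _ hz)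
          hcon.1 hcon.2 (hun _ hz).1 (hun _ hz).2
        refine hbD (iK _ hyB _ hz b ?_)
        rw [hKP]
        simp only [if_neg c1]
        exact mem_filter.2 ⟨hb, had.symm⟩
    intro x hx p hp q hq hpq hpD hqD
    have hxA := (hBA x hx).1
    rcases mem_union.1 hp with hp1 | hp1 <;> rcases mem_union.1 hq with hq1 | hq1
    · rcases h.pp x hxA p hp1 q hq1 hpq with ⟨y, hy, h1⟩ | ⟨hy, hz, hne⟩
      · by_cases hyB : y ∈ B
        · exact Or.inl ⟨y, mem_erase.2 ⟨ne_of_mem_erase hy, hyB⟩, fun d hd _ => h1 d hd⟩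
        · exfalso
          have hyQ := hAB _ (mem_of_mem_erase hy) hyB
          rcases h1 _ (hc y hyQ) with h2 | h2
          · exact hpD (iS x hx y hyQ p hp1 h2)
          · exact hqD (iS x hx y hyQ q hq1 h2)
      · by_cases hyB : tl p ∈ B <;> by_cases hzB : tl q ∈ B
        · exact Or.inr ⟨hp1, hq1, mem_erase.2 ⟨ne_of_mem_erase hy, hyB⟩,
            mem_erase.2 ⟨ne_of_mem_erase hz, hzB⟩, hne⟩
        · have hzQ := hAB _ (mem_of_mem_erase hz) hzB
          have hy2 : tl p ∈ B.erase x := mem_erase.2 ⟨ne_of_mem_erase hy, hyB⟩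
          exact Or.inl ⟨_, hy2, HM x hx p hp1 q hq1 hpq hpD hqD hy2 hzQ⟩
        · have hyQ := hAB _ (mem_of_mem_erase hy) hyB
          have hz2 : tl q ∈ B.erase x := mem_erase.2 ⟨ne_of_mem_erase hz, hzB⟩
          exact Or.inl ⟨_, hz2, fun b hb hbD =>
            (HM x hx q hq1 p hp1 hpq.symm hqD hpD hz2 hyQ b hb hbD).symm⟩
        · exfalso
          have hyQ := hAB _ (mem_of_mem_erase hy) hyB
          have hzQ := hAB _ (mem_of_mem_erase hz) hzB
          rcases lt_trichotomy (ρ (tl p)) (ρ (tl q)) with h1 | h1 | h1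
          · rcases halfQ x hx p hp1 q hq1 hpq hyQ hzQ h1 with h2 | h2
            · exact hpD h2
            · exact hqD h2
          · exact hne (hρ _ (hQA _ hyQ).1 _ (hQA _ hzQ).1 h1)
          · rcases halfQ x hx q hq1 p hp1 hpq.symm hzQ hyQ h1 with h2 | h2
            · exact hqD h2
            · exact hpD h2
    · obtain ⟨y, hy, h1⟩ := PC x hx p hp1 q hq1 hpq hpD hqD
      exact Or.inl ⟨y, hy, fun d hd _ => h1 d hd⟩
    · obtain ⟨y, hy, h1⟩ := PC x hx q hq1 p hp1 hpq.symm hqD hpD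
      exact Or.inl ⟨y, hy, fun d hd _ => (h1 d hd).symm⟩
    · exact absurd hpq (h.FC x hxA p hp1 q hq1)
  have h1 := hv _ hclo
  refine h1.trans ?_
  have h2 : (B.biUnion Dx).card ≤ ∑ x ∈ B, (Dx x).card := card_biUnion_le
  refine (show ((B.biUnion Dx).card : ℚ) ≤ ((∑ x ∈ B, (Dx x).card : ℕ) : ℚ) by
    exact_mod_cast h2).trans ?_
  rw [← Nat.cast_sum]
  refine Nat.cast_le.2 (sum_le_sum fun x hx => ?_)
  have hxA := (hBA x hx).1
  have hKL : ∀ z ∈ Q, (KP x z).card
      ≤ (if c z ∈ X z x then dg G (arc H tl x z) (w z x (c z)) else dg G (C x) (c z)) := by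
    intro z hz
    have hxz := (hBQ x hx z hz).2
    rw [hKP]
    by_cases h2 : c z ∈ X z x
    · simp only [if_pos h2]
      unfold dg
      refine card_le_card fun v hv => ?_
      obtain ⟨v1, v2, -⟩ := mem_filter.1 hv
      exact mem_filter.2 ⟨v1, h.hit3 hK hxA (hQA z hz).1 hxz h2 (mem_arc.1 v1).1
        (mem_arc.1 v1).2 v2⟩
    · simp only [if_neg h2]
      exact le_refl _
  have hN1c : ∀ z y, (N1 x z y).card
      = (if ρ y < ρ z ∧ c z ∈ X z y then (N0 G H tl w x z y (c z)).card else 0) := by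
    intro z y
    rw [hN1]
    by_cases h2 : ρ y < ρ z ∧ c z ∈ X z y
    · simp only [if_pos h2]
    · simp only [if_neg h2, card_empty]
  have hN2c : ∀ y z, (N2 x y z).card = (if ρ y < ρ z ∧ G.Adj (c y) (c z) ∧ c z ∉ X z y then
      (if c y ∈ X y z then (N0 G H tl w x y z (c y)).card else (Lm x y z).card) else 0) := by
    intro y z
    rw [hN2]
    by_cases h2 : ρ y < ρ z ∧ G.Adj (c y) (c z) ∧ c z ∉ X z y
    · simp only [if_pos h2]
      split_ifs <;> rfl
    · simp only [if_neg h2, card_empty]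
  have h3 : (Dx x).card ≤ ∑ z ∈ Q, (dg G (H x) (c z) + (KP x z).card
      + ∑ y ∈ A.erase x, (N1 x z y).card) + ∑ y ∈ Q, ∑ z ∈ Q, (N2 x y z).card := by
    refine (card_union_le _ _).trans (add_le_add ?_ ?_)
    · refine card_biUnion_le.trans (sum_le_sum fun z _ => ?_)
      refine (card_union_le _ _).trans (add_le_add ?_ card_biUnion_le)
      exact card_union_le _ _
    · exact card_biUnion_le.trans (sum_le_sum fun y _ => card_biUnion_le)
  simp only [hN1c, hN2c] at h3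
  refine h3.trans (Nat.add_le_add_right (sum_le_sum fun z hz => ?_) _)
  have := hKL z hz
  omega

end Job

end Pool.Agent.Lib.MP_f04ccf_co
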