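import Pool.Agent.Lib.MP_f04ccf_co.M.WgtB

/-!
MP_f04ccf_co: the combined load statement (*_L), averages.  `avgA`: uniform transversals of a finite set
of rows.  `job_avg`: the average cost of one host.
-/

set_option autoImplicit false

namespace Pool.Agent.Lib.MP_f04ccf_co

open Finset

attribute [local instance] Classical.propDecidable

section AvgA

variable {ι V : Type*}

/-- uniform transversals -/
theorem avgF {κ : Type*} [Fintype κ] {C : κ → Finset V} (hC : ∀ z, (C z).Nonempty) {τ : ℚ}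
    {k : κ → V → ℚ} {g : κ → κ → V → V → ℚ} (hg : ∀ z a b, g z z a b = 0)
    (h : ∀ c : κ → V, (∀ z, c z ∈ C z) → τ ≤ ∑ z, k z (c z) + ∑ y, ∑ z, g y z (c y) (c z)) :
    τ ≤ ∑ z, (∑ c ∈ C z, k z c) / (C z).card
      + ∑ y, ∑ z, (∑ p ∈ C y, ∑ c ∈ C z, g y z p c) / ((C y).card * (C z).card) := by
  have hc0 : ∀ y, (0 : ℚ) < (C y).card := fun y => by exact_mod_cast card_pos.2 (hC y)
  set Pr : ℚ := ∏ y, ((C y).card : ℚ) with hPr
  have hP0 : 0 < Pr := prod_pos fun y _ => hc0 y
  have hPc : ((Fintype.piFinset C).card : ℚ) = Pr := by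
    rw [Fintype.card_piFinset, hPr]
    push_cast
    rfl
  have h1 := sum_le_sum fun c (hc : c ∈ Fintype.piFinset C) =>
    h c (fun z => Fintype.mem_piFinset.1 hc z)
  rw [sum_const, nsmul_eq_mul, hPc, sum_add_distrib, sum_comm] at h1
  have h2 : ∑ z, ∑ c ∈ Fintype.piFinset C, k z (c z)
      = Pr * ∑ z, (∑ c ∈ C z, k z c) / (C z).card := by
    rw [mul_sum]
    refine sum_congr rfl fun z _ => ?_
    have g1 := tr_one C z (fun a => k z a)
    rw [← mul_div_assoc, eq_div_iff (hc0 z).ne', mul_comm]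
    exact g1
  have h3 : ∑ c ∈ Fintype.piFinset C, ∑ y, ∑ z, g y z (c y) (c z)
      = Pr * ∑ y, ∑ z, (∑ p ∈ C y, ∑ c ∈ C z, g y z p c) / ((C y).card * (C z).card) := by
    rw [sum_comm, mul_sum]
    refine sum_congr rfl fun y _ => ?_
    rw [sum_comm, mul_sum]
    refine sum_congr rfl fun z _ => ?_
    by_cases hyz : y = z
    · subst hyz
      simp only [hg, sum_const_zero, zero_div, mul_zero]
    · have g1 := tr_two C hyz (fun a b => g y z a b)
      rw [← mul_div_assoc, eq_div_iff (mul_pos (hc0 y) (hc0 z)).ne', mul_comm]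
      exact g1
  rw [h2, h3, ← mul_add] at h1
  exact le_of_mul_le_mul_left h1 hP0

/-- uniform transversals of the rows of `A'` -/
theorem avgA {A' : Finset ι} {C : ι → Finset V} (hC : ∀ z ∈ A', (C z).Nonempty) (v0 : V) {τ : ℚ}
    {k : ι → V → ℚ} {g : ι → ι → V → V → ℚ} (hg : ∀ z a b, g z z a b = 0)
    (h : ∀ c : ι → V, (∀ z ∈ A', c z ∈ C z) → τ ≤ ∑ z ∈ A', k z (c z)
      + ∑ y ∈ A', ∑ z ∈ A', g y z (c y) (c z)) :
    τ ≤ ∑ z ∈ A', (∑ c ∈ C z, k z c) / (C z).card
      + ∑ y ∈ A', ∑ z ∈ A', (∑ p ∈ C y, ∑ c ∈ C z, g y z p c)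
        / ((C y).card * (C z).card) := by
  have h1 := avgF (κ := {z // z ∈ A'}) (C := fun z => C z.1) (τ := τ) (k := fun z => k z.1)
    (g := fun y z => g y.1 z.1) (fun z => hC z.1 z.2) (fun z a b => hg z.1 a b) (fun c hcm => by
    have h2 := h (fun z => if hz : z ∈ A' then c ⟨z, hz⟩ else v0) (fun z hz => by
      simp only [dif_pos hz]
      exact hcm ⟨z, hz⟩)
    have e1 : ∑ z ∈ A', k z ((fun z => if hz : z ∈ A' then c ⟨z, hz⟩ else v0) z)
        = ∑ z : {z // z ∈ A'}, k z.1 (c z) := by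
      rw [← sum_coe_sort A']
      refine sum_congr rfl fun z _ => ?_
      simp only [dif_pos z.2]
    have e2 : ∑ y ∈ A', ∑ z ∈ A', g y z
        ((fun z => if hz : z ∈ A' then c ⟨z, hz⟩ else v0) y)
        ((fun z => if hz : z ∈ A' then c ⟨z, hz⟩ else v0) z)
        = ∑ y : {z // z ∈ A'}, ∑ z : {z // z ∈ A'}, g y.1 z.1 (c y) (c z) := by
      rw [← sum_coe_sort A']
      refine sum_congr rfl fun y _ => ?_
      rw [← sum_coe_sort A']
      refine sum_congr rfl fun z _ => ?_
      simp only [dif_pos z.2, dif_pos y.2]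
    rw [e1, e2] at h2
    exact h2)
  rw [← sum_coe_sort A' (fun z => (∑ c ∈ C z, k z c) / ((C z).card : ℚ)),
    ← sum_coe_sort A' (fun y => ∑ z ∈ A', (∑ p ∈ C y, ∑ c ∈ C z, g y z p c)
        / (((C y).card : ℚ) * (C z).card))]
  refine h1.trans (le_of_eq ?_)
  congr 1
  refine sum_congr rfl fun y _ => ?_
  rw [← sum_coe_sort A' (fun z => (∑ p ∈ C y, ∑ c ∈ C z, g y z p c)
        / (((C y).card : ℚ) * (C z).card))]

end AvgA

section EE

variable {V : Type*} {G : SimpleGraph V}

variable (G) in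
/-- edges between `P` and `Q` -/
noncomputable def ee (P Q : Finset V) : ℚ := ∑ p ∈ P, (dg G Q p : ℚ)

lemma ee_comm (P Q : Finset V) : ee G P Q = ee G Q P := by
  unfold ee
  have := dg_comm G P Q
  exact_mod_cast this

lemma ee_nonneg (P Q : Finset V) : 0 ≤ ee G P Q := sum_nonneg fun _ _ => Nat.cast_nonneg _

lemma ee_split {P X : Finset V} (h : X ⊆ P) (Q : Finset V) :
    ee G P Q = ee G X Q + ee G (P \ X) Q := by
  unfold ee
  rw [add_comm, sum_sdiff h]

lemma ee_split' {Q X : Finset V} (h : X ⊆ Q) (P : Finset V) :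
    ee G P Q = ee G P X + ee G P (Q \ X) := by
  rw [ee_comm, ee_split h, ee_comm X, ee_comm (Q \ X)]

lemma dg_sum (P : Finset V) (c : V) : (dg G P c : ℚ) = ∑ p ∈ P, (if G.Adj c p then 1 else 0) := by
  unfold dg
  rw [card_filter]
  push_cast
  rfl

/-- **the cells between two rows** -/
theorem cells {P Q X X' : Finset V} (hX : X ⊆ P) (hX' : X' ⊆ Q) {uy uz om cy cz Λ : ℚ}
    (hcy : 0 < cy) (hcz : 0 < cz) (h1 : uy + om ≤ cz) (h2 : uz ≤ cy)
    (h3 : cy * om + Λ ≤ cy * cz) :
    (uy / cz * ee G (Q \ X') X + om / cz * ee G (Q \ X') P) + uz / cy * ee G P X'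
      + Λ / (cy * cz) * ee G (P \ X) (Q \ X') ≤ ee G P Q := by
  have e1 : ee G (Q \ X') P = ee G X (Q \ X') + ee G (P \ X) (Q \ X') := by
    rw [ee_comm, ee_split hX]
  have e2 : ee G P Q = ee G P X' + (ee G X (Q \ X') + ee G (P \ X) (Q \ X')) := by
    rw [ee_split' hX', ee_split hX (Q \ X')]
  have n1 := ee_nonneg (G := G) X (Q \ X')
  have n2 := ee_nonneg (G := G) (P \ X) (Q \ X')
  have n3 := ee_nonneg (G := G) P X'
  rw [e1, e2, ee_comm (Q \ X') X]
  have a1 : uy / cz + om / cz ≤ 1 := by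
    rw [← add_div, div_le_one hcz]
    exact h1
  have a2 : uz / cy ≤ 1 := (div_le_one hcy).2 h2
  have a3 : om / cz + Λ / (cy * cz) ≤ 1 := by
    have : om / cz = (cy * om) / (cy * cz) := by
      rw [mul_div_mul_left _ _ hcy.ne']
    rw [this, ← add_div, div_le_one (mul_pos hcy hcz)]
    exact h3
  have b1 := mul_le_mul_of_nonneg_right a1 n1
  have b2 := mul_le_mul_of_nonneg_right a2 n3
  have b3 := mul_le_mul_of_nonneg_right a3 n2
  nlinarith

end EE

section JobAvg

variable {ι V : Type*} {G F : SimpleGraph V} {A : Finset ι} {C H : ι → Finset V} {tl : V → ι}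
  {ρ : ι → ℕ} {X L : ι → ι → Finset V} {w : ι → ι → V → V} {Lm : ι → ι → ι → Finset V}

variable (G A C H tl ρ X w Lm) in
/-- the cost of the server `z` for the host `x`; `Y` = class points used by the columns of `z`,
`NN` = number of members seen by a partner -/
noncomputable def JJ (x : ι) (Y : ι → Finset V) (NN : ι → ι → V → ℕ) (z : ι) : ℚ :=
  (ee G (C z) (H x) + (if ρ x < ρ z then ∑ c ∈ X z x, (dg G (arc H tl x z) (w z x c) : ℚ)
      + ee G (C z \ X z x) (Y z) else ee G (C z) (Y z))) / (C z).card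
    + (∑ t ∈ A.erase x, (if z = t then 0 else ∑ a ∈ X z t, (NN z t a : ℚ))) / (C z).card
    + ∑ t ∈ A.erase x, (if ρ z < ρ t then ((Lm x z t).card : ℚ) / ((C z).card * (C t).card)
        * ee G (C z \ X z t) (C t \ X t z) else 0)

/-- the average cost of one host -/
theorem job_avg (hC : ∀ z ∈ A, (C z).Nonempty) (hXC : ∀ s ∈ A, ∀ t ∈ A, s ≠ t → X s t ⊆ C s)
    {x : ι} (hx : x ∈ A) {Q : Finset ι} (hQ : Q ⊆ A.erase x) (Y : ι → Finset V)
    (NN : ι → ι → V → ℕ) :
    ∑ z ∈ Q, (∑ c ∈ C z, ((dg G (H x) c : ℚ)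
        + (if ρ x < ρ z ∧ c ∈ X z x then (dg G (arc H tl x z) (w z x c) : ℚ) else dg G (Y z) c)
        + ∑ y ∈ A.erase x, (if ρ y < ρ z ∧ c ∈ X z y then (NN z y c : ℚ) else 0))) / (C z).card
      + ∑ y ∈ Q, ∑ z ∈ Q, (∑ p ∈ C y, ∑ c ∈ C z,
          (if ρ y < ρ z ∧ G.Adj p c ∧ c ∉ X z y then
            (if p ∈ X y z then (NN y z p : ℚ) else (Lm x y z).card) else 0))
            / ((C y).card * (C z).card)
      ≤ ∑ z ∈ Q, JJ G A C H tl ρ X w Lm x Y NN z := by
  have hc0 : ∀ z ∈ A, (0 : ℚ) < (C z).card := fun z hz => by exact_mod_cast card_pos.2 (hC z hz)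
  have hQA : ∀ z ∈ Q, z ∈ A ∧ z ≠ x := fun z hz =>
    ⟨mem_of_mem_erase (hQ hz), ne_of_mem_erase (hQ hz)⟩
  -- first part
  have p1 : ∀ z ∈ Q, ∑ c ∈ C z, ((dg G (H x) c : ℚ)
        + (if ρ x < ρ z ∧ c ∈ X z x then (dg G (arc H tl x z) (w z x c) : ℚ) else dg G (Y z) c)
        + ∑ y ∈ A.erase x, (if ρ y < ρ z ∧ c ∈ X z y then (NN z y c : ℚ) else 0))
      = (ee G (C z) (H x) + (if ρ x < ρ z then ∑ c ∈ X z x, (dg G (arc H tl x z) (w z x c) : ℚ)
          + ee G (C z \ X z x) (Y z) else ee G (C z) (Y z)))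
        + ∑ y ∈ A.erase x, (if ρ y < ρ z then ∑ a ∈ X z y, (NN z y a : ℚ) else 0) := by
    intro z hz
    obtain ⟨hzA, hzx⟩ := hQA z hz
    rw [sum_add_distrib, sum_add_distrib]
    congr 1
    · congr 1
      by_cases h1 : ρ x < ρ z
      · rw [if_pos h1]
        simp only [h1, true_and]
        rw [← sum_sdiff (hXC z hzA x hx hzx), add_comm]
        congr 1
        · exact sum_congr rfl fun c hc => by rw [if_pos hc]
        · unfold ee
          exact sum_congr rfl fun c hc => by rw [if_neg (mem_sdiff.1 hc).2]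
      · rw [if_neg h1]
        simp only [h1, false_and, if_false]
        rfl
    · rw [sum_comm]
      refine sum_congr rfl fun y hy => ?_
      by_cases h1 : ρ y < ρ z
      · rw [if_pos h1]
        simp only [h1, true_and]
        rw [← sum_filter]
        refine sum_congr ?_ fun _ _ => rfl
        rw [filter_mem_eq_inter]
        refine inter_eq_right.2 (hXC z hzA y (mem_of_mem_erase hy) ?_)
        rintro rfl
        exact lt_irrefl _ h1
      · rw [if_neg h1]
        simp only [h1, false_and, if_false, sum_const_zero]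
  -- second part
  have p2 : ∀ y ∈ Q, ∀ z ∈ Q, (∑ p ∈ C y, ∑ c ∈ C z,
          (if ρ y < ρ z ∧ G.Adj p c ∧ c ∉ X z y then
            (if p ∈ X y z then (NN y z p : ℚ) else (Lm x y z).card) else 0))
            / (((C y).card : ℚ) * (C z).card)
      ≤ (if ρ y < ρ z then (∑ a ∈ X y z, (NN y z a : ℚ)) / (C y).card
          + ((Lm x y z).card : ℚ) / ((C y).card * (C z).card)
            * ee G (C y \ X y z) (C z \ X z y) else 0) := by
    intro y hy z hz
    obtain ⟨hyA, hyx⟩ := hQA y hy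
    obtain ⟨hzA, hzx⟩ := hQA z hz
    have cy := hc0 y hyA
    have cz := hc0 z hzA
    by_cases h1 : ρ y < ρ z
    · have hyz : y ≠ z := by
        rintro rfl
        exact lt_irrefl _ h1
      rw [if_pos h1]
      have h2 : ∑ p ∈ C y, ∑ c ∈ C z, (if ρ y < ρ z ∧ G.Adj p c ∧ c ∉ X z y then
            (if p ∈ X y z then (NN y z p : ℚ) else (Lm x y z).card) else 0)
          ≤ (∑ a ∈ X y z, (NN y z a : ℚ)) * (C z).card
            + (Lm x y z).card * ee G (C y \ X y z) (C z \ X z y) := by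
        rw [← sum_sdiff (hXC y hyA z hzA hyz), add_comm]
        refine add_le_add ?_ ?_
        · rw [sum_mul]
          refine sum_le_sum fun p hp => ?_
          simp only [if_pos hp]
          calc ∑ c ∈ C z, (if ρ y < ρ z ∧ G.Adj p c ∧ c ∉ X z y then (NN y z p : ℚ) else 0)
              ≤ ∑ c ∈ C z, (NN y z p : ℚ) := by
                refine sum_le_sum fun c _ => ?_
                split_ifs
                · exact le_refl _
                · exact Nat.cast_nonneg _
            _ = (NN y z p : ℚ) * (C z).card := by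
                rw [sum_const, nsmul_eq_mul, mul_comm]
        · unfold ee
          rw [mul_sum]
          refine sum_le_sum fun p hp => ?_
          have hpX := (mem_sdiff.1 hp).2
          simp only [if_neg hpX]
          rw [dg_sum, mul_sum]
          refine le_of_eq ?_
          have e1 : C z \ X z y = (C z).filter (fun c => c ∉ X z y) := by
            ext c
            simp only [mem_sdiff, mem_filter]
          rw [e1, sum_filter]
          refine sum_congr rfl fun c _ => ?_
          by_cases h3 : c ∈ X z y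
          · simp only [h3, not_true_eq_false, and_false, if_false]
          · by_cases h4 : G.Adj p c
            · simp only [h1, h3, h4, not_false_eq_true, and_self, if_true, mul_one]
            · simp only [h1, h3, h4, not_false_eq_true, if_true, false_and, and_false, if_false,
                mul_zero]
      refine (div_le_div_of_nonneg_right h2 (mul_pos cy cz).le).trans (le_of_eq ?_)
      field_simp
    · rw [if_neg h1]
      simp only [h1, false_and, if_false, sum_const_zero, zero_div, le_refl]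
  have q1 : ∑ z ∈ Q, (∑ c ∈ C z, ((dg G (H x) c : ℚ)
        + (if ρ x < ρ z ∧ c ∈ X z x then (dg G (arc H tl x z) (w z x c) : ℚ) else dg G (Y z) c)
        + ∑ y ∈ A.erase x, (if ρ y < ρ z ∧ c ∈ X z y then (NN z y c : ℚ) else 0))) / (C z).card
      = ∑ z ∈ Q, ((ee G (C z) (H x) + (if ρ x < ρ z then
          ∑ c ∈ X z x, (dg G (arc H tl x z) (w z x c) : ℚ)
          + ee G (C z \ X z x) (Y z) else ee G (C z) (Y z)))
        + ∑ y ∈ A.erase x, (if ρ y < ρ z then ∑ a ∈ X z y, (NN z y a : ℚ) else 0))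
          / (C z).card := sum_congr rfl fun z hz => by rw [p1 z hz]
  have q2 := sum_le_sum fun y hy => sum_le_sum fun z hz => p2 y hy z hz
  rw [q1]
  refine (add_le_add_right q2 _).trans ?_
  rw [← sum_add_distrib]
  refine sum_le_sum fun z hz => ?_
  obtain ⟨hzA, hzx⟩ := hQA z hz
  have cz := hc0 z hzA
  unfold JJ
  rw [add_div, add_assoc, add_assoc]
  refine add_le_add_right ?_ _
  have r1 : ∑ t ∈ Q, (if ρ z < ρ t then (∑ a ∈ X z t, (NN z t a : ℚ)) / (C z).card
          + ((Lm x z t).card : ℚ) / ((C z).card * (C t).card)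
            * ee G (C z \ X z t) (C t \ X t z) else 0)
      ≤ ∑ t ∈ A.erase x, (if ρ z < ρ t then (∑ a ∈ X z t, (NN z t a : ℚ)) / (C z).card
          + ((Lm x z t).card : ℚ) / ((C z).card * (C t).card)
            * ee G (C z \ X z t) (C t \ X t z) else 0) := by
    refine sum_le_sum_of_subset_of_nonneg hQ fun t ht _ => ?_
    have ct := hc0 t (mem_of_mem_erase ht)
    split_ifs
    · have := ee_nonneg (G := G) (C z \ X z t) (C t \ X t z)
      positivity
    · exact le_refl _
  refine (add_le_add_right r1 _).trans ?_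
  rw [sum_div, ← sum_add_distrib, sum_div, ← sum_add_distrib]
  refine sum_le_sum fun t ht => ?_
  have ct := hc0 t (mem_of_mem_erase ht)
  have hn : 0 ≤ (∑ a ∈ X z t, (NN z t a : ℚ)) / (C z).card := by positivity
  rcases lt_trichotomy (ρ z) (ρ t) with h1 | h1 | h1
  · have h2 : z ≠ t := by
      rintro rfl
      exact lt_irrefl _ h1
    rw [if_neg (not_lt.2 h1.le), if_pos h1, if_neg h2, if_pos h1, zero_div, zero_add]
  · have h2 : ¬ ρ t < ρ z := by omega
    have h3 : ¬ ρ z < ρ t := by omega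
    rw [if_neg h2, if_neg h3, if_neg h3, zero_div]
    split_ifs
    · simp
    · simpa using hn
  · have h2 : z ≠ t := by
      rintro rfl
      exact lt_irrefl _ h1
    have h3 : ¬ ρ z < ρ t := by omega
    rw [if_pos h1, if_neg h3, if_neg h2, if_neg h3]

end JobAvg

end Pool.Agent.Lib.MP_f04ccf_co
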