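import Pool.Agent.Lib.MP_f04ccf_co.M.WgtD

/-!
MP_f04ccf_co: the combined load statement (*_L), averaged costs.  `JW`: the average cost of the server `z`
for the host `x`; `host_avg`: one host, `layer_avg`: one layer.
-/

set_option autoImplicit false

namespace Pool.Agent.Lib.MP_f04ccf_co

open Finset

attribute [local instance] Classical.propDecidable

section JW

variable {ι V : Type*} {G : SimpleGraph V} {A : Finset ι} {C H : ι → Finset V}
  {ρ : ι → ℕ} {X : ι → ι → Finset V} {w : ι → ι → V → V}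

variable (G A C H ρ X w) in
/-- the average cost of the server `z` for the host `x`: members seen, partners `Ar`, columns `ku`,
corrections `NN` (paid by partners) and `lm` (paid by cells) -/
noncomputable def JW (x : ι) (Ar : ι → Finset V) (ku : ι → V → ℚ) (NN : ι → ι → V → ℚ)
    (lm : ι → ι → ℚ) (z : ι) : ℚ :=
  (ee G (C z) (H x) + (if ρ x < ρ z then ∑ c ∈ X z x, (dg G (Ar z) (w z x c) : ℚ)
      + ∑ c ∈ C z \ X z x, ku z c else ∑ c ∈ C z, ku z c)) / (C z).card
    + (∑ t ∈ A.erase x, (if z = t then 0 else ∑ a ∈ X z t, NN z t a)) / (C z).card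
    + ∑ t ∈ A.erase x, (if ρ z < ρ t then lm z t / ((C z).card * (C t).card)
        * ee G (C z \ X z t) (C t \ X t z) else 0)

/-- the average cost of one host -/
theorem job_avg' (hC : ∀ z ∈ A, (C z).Nonempty) (hXC : ∀ s ∈ A, ∀ t ∈ A, s ≠ t → X s t ⊆ C s)
    {x : ι} (hx : x ∈ A) {Q : Finset ι} (hQ : Q ⊆ A.erase x) (Ar : ι → Finset V)
    (ku : ι → V → ℚ) {NN : ι → ι → V → ℚ} {lm : ι → ι → ℚ} (hNN : ∀ z t a, 0 ≤ NN z t a)
    (hlm : ∀ z t, 0 ≤ lm z t) :
    ∑ z ∈ Q, (∑ c ∈ C z, ((dg G (H x) c : ℚ)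
        + (if ρ x < ρ z ∧ c ∈ X z x then (dg G (Ar z) (w z x c) : ℚ) else ku z c)
        + ∑ y ∈ A.erase x, (if ρ y < ρ z ∧ c ∈ X z y then NN z y c else 0))) / (C z).card
      + ∑ y ∈ Q, ∑ z ∈ Q, (∑ p ∈ C y, ∑ c ∈ C z,
          (if ρ y < ρ z ∧ G.Adj p c ∧ c ∉ X z y then
            (if p ∈ X y z then NN y z p else lm y z) else 0))
            / ((C y).card * (C z).card)
      ≤ ∑ z ∈ Q, JW G A C H ρ X w x Ar ku NN lm z := by
  have hc0 : ∀ z ∈ A, (0 : ℚ) < (C z).card := fun z hz => by exact_mod_cast card_pos.2 (hC z hz)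
  have hQA : ∀ z ∈ Q, z ∈ A ∧ z ≠ x := fun z hz =>
    ⟨mem_of_mem_erase (hQ hz), ne_of_mem_erase (hQ hz)⟩
  -- first part
  have p1 : ∀ z ∈ Q, ∑ c ∈ C z, ((dg G (H x) c : ℚ)
        + (if ρ x < ρ z ∧ c ∈ X z x then (dg G (Ar z) (w z x c) : ℚ) else ku z c)
        + ∑ y ∈ A.erase x, (if ρ y < ρ z ∧ c ∈ X z y then NN z y c else 0))
      = (ee G (C z) (H x) + (if ρ x < ρ z then ∑ c ∈ X z x, (dg G (Ar z) (w z x c) : ℚ)
          + ∑ c ∈ C z \ X z x, ku z c else ∑ c ∈ C z, ku z c))
        + ∑ y ∈ A.erase x, (if ρ y < ρ z then ∑ a ∈ X z y, NN z y a else 0) := by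
    intro z hz
    obtain ⟨hzA, hzx⟩ := hQA z hz
    rw [sum_add_distrib, sum_add_distrib]
    congr 1
    · congr 1
      by_cases h1 : ρ x < ρ z
      · rw [if_pos h1]
        simp only [h1, true_and]
        rw [← sum_sdiff (hXC z hzA x hx hzx), add_comm]
        congr 1
        · exact sum_congr rfl fun c hc => by rw [if_pos hc]
        · exact sum_congr rfl fun c hc => by rw [if_neg (mem_sdiff.1 hc).2]
      · rw [if_neg h1]
        simp only [h1, false_and, if_false]
    · rw [sum_comm]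
      refine sum_congr rfl fun y hy => ?_
      by_cases h1 : ρ y < ρ z
      · rw [if_pos h1]
        simp only [h1, true_and]
        rw [← sum_filter]
        refine sum_congr ?_ fun _ _ => rfl
        rw [filter_mem_eq_inter]
        refine inter_eq_right.2 (hXC z hzA y (mem_of_mem_erase hy) ?_)
        rintro rfl
        exact lt_irrefl _ h1
      · rw [if_neg h1]
        simp only [h1, false_and, if_false, sum_const_zero]
  -- second part
  have p2 : ∀ y ∈ Q, ∀ z ∈ Q, (∑ p ∈ C y, ∑ c ∈ C z,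
          (if ρ y < ρ z ∧ G.Adj p c ∧ c ∉ X z y then
            (if p ∈ X y z then NN y z p else lm y z) else 0))
            / (((C y).card : ℚ) * (C z).card)
      ≤ (if ρ y < ρ z then (∑ a ∈ X y z, NN y z a) / (C y).card
          + lm y z / ((C y).card * (C z).card)
            * ee G (C y \ X y z) (C z \ X z y) else 0) := by
    intro y hy z hz
    obtain ⟨hyA, hyx⟩ := hQA y hy
    obtain ⟨hzA, hzx⟩ := hQA z hz
    have cy := hc0 y hyA
    have cz := hc0 z hzA
    by_cases h1 : ρ y < ρ z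
    · have hyz : y ≠ z := by
        rintro rfl
        exact lt_irrefl _ h1
      rw [if_pos h1]
      have h2 : ∑ p ∈ C y, ∑ c ∈ C z, (if ρ y < ρ z ∧ G.Adj p c ∧ c ∉ X z y then
            (if p ∈ X y z then NN y z p else lm y z) else 0)
          ≤ (∑ a ∈ X y z, NN y z a) * (C z).card
            + lm y z * ee G (C y \ X y z) (C z \ X z y) := by
        rw [← sum_sdiff (hXC y hyA z hzA hyz), add_comm]
        refine add_le_add ?_ ?_
        · rw [sum_mul]
          refine sum_le_sum fun p hp => ?_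
          simp only [if_pos hp]
          calc ∑ c ∈ C z, (if ρ y < ρ z ∧ G.Adj p c ∧ c ∉ X z y then NN y z p else 0)
              ≤ ∑ c ∈ C z, NN y z p := by
                refine sum_le_sum fun c _ => ?_
                split_ifs
                · exact le_refl _
                · exact hNN _ _ _
            _ = NN y z p * (C z).card := by
                rw [sum_const, nsmul_eq_mul, mul_comm]
        · unfold ee
          rw [mul_sum]
          refine sum_le_sum fun p hp => ?_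
          have hpX := (mem_sdiff.1 hp).2
          simp only [if_neg hpX]
          rw [dg_sum, mul_sum]
          refine le_of_eq ?_
          have e1 : C z \ X z y = (C z).filter (fun c => c ∉ X z y) := by
            ext c
            simp only [mem_sdiff, mem_filter]
          rw [e1, sum_filter]
          refine sum_congr rfl fun c _ => ?_
          by_cases h3 : c ∈ X z y
          · simp only [h3, not_true_eq_false, and_false, if_false]
          · by_cases h4 : G.Adj p c
            · simp only [h1, h3, h4, not_false_eq_true, and_self, if_true, mul_one]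
            · simp only [h1, h3, h4, not_false_eq_true, if_true, false_and, and_false, if_false,
                mul_zero]
      refine (div_le_div_of_nonneg_right h2 (mul_pos cy cz).le).trans (le_of_eq ?_)
      field_simp
    · rw [if_neg h1]
      simp only [h1, false_and, if_false, sum_const_zero, zero_div, le_refl]
  have q1 : ∑ z ∈ Q, (∑ c ∈ C z, ((dg G (H x) c : ℚ)
        + (if ρ x < ρ z ∧ c ∈ X z x then (dg G (Ar z) (w z x c) : ℚ) else ku z c)
        + ∑ y ∈ A.erase x, (if ρ y < ρ z ∧ c ∈ X z y then NN z y c else 0))) / (C z).card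
      = ∑ z ∈ Q, ((ee G (C z) (H x) + (if ρ x < ρ z then
          ∑ c ∈ X z x, (dg G (Ar z) (w z x c) : ℚ)
          + ∑ c ∈ C z \ X z x, ku z c else ∑ c ∈ C z, ku z c))
        + ∑ y ∈ A.erase x, (if ρ y < ρ z then ∑ a ∈ X z y, NN z y a else 0))
          / (C z).card := sum_congr rfl fun z hz => by rw [p1 z hz]
  have q2 := sum_le_sum fun y hy => sum_le_sum fun z hz => p2 y hy z hz
  rw [q1]
  refine (add_le_add_right q2 _).trans ?_
  rw [← sum_add_distrib]
  refine sum_le_sum fun z hz => ?_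
  obtain ⟨hzA, hzx⟩ := hQA z hz
  have cz := hc0 z hzA
  unfold JW
  rw [add_div, add_assoc, add_assoc]
  refine add_le_add_right ?_ _
  have r1 : ∑ t ∈ Q, (if ρ z < ρ t then (∑ a ∈ X z t, NN z t a) / (C z).card
          + lm z t / ((C z).card * (C t).card)
            * ee G (C z \ X z t) (C t \ X t z) else 0)
      ≤ ∑ t ∈ A.erase x, (if ρ z < ρ t then (∑ a ∈ X z t, NN z t a) / (C z).card
          + lm z t / ((C z).card * (C t).card)
            * ee G (C z \ X z t) (C t \ X t z) else 0) := by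
    refine sum_le_sum_of_subset_of_nonneg hQ fun t ht _ => ?_
    have ct := hc0 t (mem_of_mem_erase ht)
    split_ifs
    · have h1 := ee_nonneg (G := G) (C z \ X z t) (C t \ X t z)
      have h2 : 0 ≤ ∑ a ∈ X z t, NN z t a := sum_nonneg fun a _ => hNN _ _ _
      have h3 := hlm z t
      positivity
    · exact le_refl _
  refine (add_le_add_right r1 _).trans ?_
  rw [sum_div, ← sum_add_distrib, sum_div, ← sum_add_distrib]
  refine sum_le_sum fun t ht => ?_
  have ct := hc0 t (mem_of_mem_erase ht)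
  have hn : 0 ≤ (∑ a ∈ X z t, NN z t a) / (C z).card :=
    div_nonneg (sum_nonneg fun a _ => hNN _ _ _) cz.le
  rcases lt_trichotomy (ρ z) (ρ t) with h1 | h1 | h1
  · have h2 : z ≠ t := by
      rintro rfl
      exact lt_irrefl _ h1
    rw [if_neg (not_lt.2 h1.le), if_pos h1, if_neg h2, if_pos h1, zero_div, zero_add]
  · have h2 : ¬ ρ t < ρ z := by omega
    have h3 : ¬ ρ z < ρ t := by omega
    rw [if_neg h2, if_neg h3, if_neg h3, zero_div]
    split_ifs
    · simp
    · simpa using hn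
  · have h2 : z ≠ t := by
      rintro rfl
      exact lt_irrefl _ h1
    have h3 : ¬ ρ z < ρ t := by omega
    rw [if_pos h1, if_neg h3, if_neg h2, if_neg h3]

/-- **one host**, from one transversal to the average -/
theorem host_avg (hC : ∀ z ∈ A, (C z).Nonempty) (hXC : ∀ s ∈ A, ∀ t ∈ A, s ≠ t → X s t ⊆ C s)
    {x : ι} (hx : x ∈ A) (Ar : ι → Finset V) (ku : ι → V → ℚ) {NN : ι → ι → V → ℚ}
    {lm : ι → ι → ℚ} (hNN : ∀ z t a, 0 ≤ NN z t a) (hlm : ∀ z t, 0 ≤ lm z t) {τ : ℚ}
    (h : ∀ c : ι → V, (∀ z ∈ A.erase x, c z ∈ C z) → τ ≤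
      ∑ z ∈ A.erase x, ((dg G (H x) (c z) : ℚ)
        + (if ρ x < ρ z ∧ c z ∈ X z x then (dg G (Ar z) (w z x (c z)) : ℚ) else ku z (c z))
        + ∑ y ∈ A.erase x, (if ρ y < ρ z ∧ c z ∈ X z y then NN z y (c z) else 0))
      + ∑ y ∈ A.erase x, ∑ z ∈ A.erase x,
          (if ρ y < ρ z ∧ G.Adj (c y) (c z) ∧ c z ∉ X z y then
            (if c y ∈ X y z then NN y z (c y) else lm y z) else 0)) :
    τ ≤ ∑ z ∈ A.erase x, JW G A C H ρ X w x Ar ku NN lm z := by
  obtain ⟨v0, -⟩ := hC x hx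
  refine (avgA (A' := A.erase x) (C := C) (fun z hz => hC z (mem_of_mem_erase hz)) v0
    (k := fun z c => (dg G (H x) c : ℚ)
        + (if ρ x < ρ z ∧ c ∈ X z x then (dg G (Ar z) (w z x c) : ℚ) else ku z c)
        + ∑ y ∈ A.erase x, (if ρ y < ρ z ∧ c ∈ X z y then NN z y c else 0))
    (g := fun y z p c => if ρ y < ρ z ∧ G.Adj p c ∧ c ∉ X z y then
            (if p ∈ X y z then NN y z p else lm y z) else 0)
    (fun z a b => by
      simp only [lt_self_iff_false, false_and, if_false]) h).trans ?_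
  exact job_avg' hC hXC hx (Subset.refl _) Ar ku hNN hlm

/-- **one layer**, from one transversal to the average -/
theorem layer_avg (hC : ∀ z ∈ A, (C z).Nonempty) (hXC : ∀ s ∈ A, ∀ t ∈ A, s ≠ t → X s t ⊆ C s)
    {k : ℕ} (Ar : ι → ι → Finset V) (ku : ι → ι → V → ℚ) {NN : ι → ι → ι → V → ℚ}
    {lm : ι → ι → ι → ℚ} (hNN : ∀ x z t a, 0 ≤ NN x z t a) (hlm : ∀ x z t, 0 ≤ lm x z t) {τ : ℚ}
    (v0 : V)
    (h : ∀ c : ι → V, (∀ z ∈ A.filter (fun z => k ≤ ρ z), c z ∈ C z) → τ ≤
      ∑ x ∈ A.filter (fun x => ρ x < k), (∑ z ∈ A.filter (fun z => k ≤ ρ z),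
        ((dg G (H x) (c z) : ℚ)
        + (if ρ x < ρ z ∧ c z ∈ X z x then (dg G (Ar x z) (w z x (c z)) : ℚ) else ku x z (c z))
        + ∑ y ∈ A.erase x, (if ρ y < ρ z ∧ c z ∈ X z y then NN x z y (c z) else 0))
      + ∑ y ∈ A.filter (fun z => k ≤ ρ z), ∑ z ∈ A.filter (fun z => k ≤ ρ z),
          (if ρ y < ρ z ∧ G.Adj (c y) (c z) ∧ c z ∉ X z y then
            (if c y ∈ X y z then NN x y z (c y) else lm x y z) else 0))) :
    τ ≤ ∑ x ∈ A.filter (fun x => ρ x < k), ∑ z ∈ A.filter (fun z => k ≤ ρ z),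
      JW G A C H ρ X w x (Ar x) (ku x) (NN x) (lm x) z := by
  set B := A.filter (fun x => ρ x < k) with hB
  set Q := A.filter (fun z => k ≤ ρ z) with hQ
  have h1 := avgA (A' := Q) (C := C) (fun z hz => hC z (mem_filter.1 hz).1) v0 (τ := τ)
    (k := fun z c => ∑ x ∈ B, ((dg G (H x) c : ℚ)
        + (if ρ x < ρ z ∧ c ∈ X z x then (dg G (Ar x z) (w z x c) : ℚ) else ku x z c)
        + ∑ y ∈ A.erase x, (if ρ y < ρ z ∧ c ∈ X z y then NN x z y c else 0)))
    (g := fun y z p c => ∑ x ∈ B, (if ρ y < ρ z ∧ G.Adj p c ∧ c ∉ X z y then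
            (if p ∈ X y z then NN x y z p else lm x y z) else 0))
    (fun z a b => by
      simp only [lt_self_iff_false, false_and, if_false, sum_const_zero]) (fun c hc => by
      refine (h c hc).trans (le_of_eq ?_)
      rw [sum_add_distrib, sum_comm]
      congr 1
      rw [sum_comm]
      exact sum_congr rfl fun y _ => sum_comm)
  refine h1.trans ?_
  have e1 : ∑ z ∈ Q, (∑ c ∈ C z, ∑ x ∈ B, ((dg G (H x) c : ℚ)
        + (if ρ x < ρ z ∧ c ∈ X z x then (dg G (Ar x z) (w z x c) : ℚ) else ku x z c)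
        + ∑ y ∈ A.erase x, (if ρ y < ρ z ∧ c ∈ X z y then NN x z y c else 0)))
          / ((C z).card : ℚ)
      = ∑ x ∈ B, ∑ z ∈ Q, (∑ c ∈ C z, ((dg G (H x) c : ℚ)
        + (if ρ x < ρ z ∧ c ∈ X z x then (dg G (Ar x z) (w z x c) : ℚ) else ku x z c)
        + ∑ y ∈ A.erase x, (if ρ y < ρ z ∧ c ∈ X z y then NN x z y c else 0)))
          / ((C z).card : ℚ) := by
    rw [sum_comm (s := B)]
    refine sum_congr rfl fun z _ => ?_
    rw [← sum_div, sum_comm]
  have e2 : ∑ y ∈ Q, ∑ z ∈ Q, (∑ p ∈ C y, ∑ c ∈ C z, ∑ x ∈ B,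
      (if ρ y < ρ z ∧ G.Adj p c ∧ c ∉ X z y then
            (if p ∈ X y z then NN x y z p else lm x y z) else 0))
            / (((C y).card : ℚ) * (C z).card)
      = ∑ x ∈ B, ∑ y ∈ Q, ∑ z ∈ Q, (∑ p ∈ C y, ∑ c ∈ C z,
      (if ρ y < ρ z ∧ G.Adj p c ∧ c ∉ X z y then
            (if p ∈ X y z then NN x y z p else lm x y z) else 0))
            / (((C y).card : ℚ) * (C z).card) := by
    rw [sum_comm (s := B)]
    refine sum_congr rfl fun y _ => ?_
    rw [sum_comm (s := B)]
    refine sum_congr rfl fun z _ => ?_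
    rw [← sum_div, sum_comm (s := B)]
    congr 1
    refine sum_congr rfl fun p _ => ?_
    rw [sum_comm]
  rw [e1, e2, ← sum_add_distrib]
  refine sum_le_sum fun x hx => ?_
  obtain ⟨hxA, hxk⟩ := mem_filter.1 hx
  refine job_avg' hC hXC hxA (fun z hz => ?_) (Ar x) (ku x) (hNN x) (hlm x)
  obtain ⟨hzA, hzk⟩ := mem_filter.1 hz
  refine mem_erase.2 ⟨?_, hzA⟩
  rintro rfl
  omega

end JW

end Pool.Agent.Lib.MP_f04ccf_co
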