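import Pool.Agent.Lib.MP_f04ccf_co.M.WgtB

/-!
MP_f04ccf_co: deletion sets in legal shape (note 15873).  In a home-free system the deletion of the
rows outside `B` together with a closing set of the slots is not enough; `LegD` is the shape which is
sufficient for every kind of closed system.  `LegD.clo`: it closes the slots.  `WSys.layerL`: one
layer of the combined load statement with the law for sets of legal shape.
-/

set_option autoImplicit false

namespace Pool.Agent.Lib.MP_f04ccf_co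

open Finset

attribute [local instance] Classical.propDecidable

section WgtL

variable {ι V : Type*}

/-- the members of the home `x` with tail in `A` -/
noncomputable def Hin (H : ι → Finset V) (tl : V → ι) (A : Finset ι) (x : ι) : Finset V :=
  (H x).filter (fun v => tl v ∈ A)

lemma mem_Hin {H : ι → Finset V} {tl : V → ι} {A : Finset ι} {x : ι} {v : V} :
    v ∈ Hin H tl A x ↔ v ∈ H x ∧ tl v ∈ A := mem_filter

/-- **legal shape** of a deletion set for the rows `B` of `A` and the transversal `c` of `A \ B` -/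
structure LegD (G : SimpleGraph V) (C H : ι → Finset V) (tl : V → ι) (X : ι → ι → Finset V)
    (w : ι → ι → V → V) (A B : Finset ι) (c : ι → V) (D : Finset V) : Prop where
  seen : ∀ z ∈ A \ B, ∀ x ∈ B, ∀ v ∈ H x, G.Adj (c z) v → v ∈ D
  cls : ∀ z ∈ A \ B, ∀ y ∈ B, c z ∉ X z y → ∀ b ∈ C y, G.Adj (c z) b → b ∈ D
  prt : ∀ z ∈ A \ B, ∀ y ∈ B, c z ∈ X z y → ∀ x ∈ B, ∀ v ∈ Hin H tl (insert z B) x,
    G.Adj (w z y (c z)) v → v ∈ D
  two : ∀ y ∈ A \ B, ∀ z ∈ A \ B, y ≠ z → G.Adj (c y) (c z) →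
    (c y ∈ X y z ∧ ∀ x ∈ B, ∀ v ∈ Hin H tl (insert y (insert z B)) x,
      G.Adj (w y z (c y)) v → v ∈ D) ∨
    (c z ∈ X z y ∧ ∀ x ∈ B, ∀ v ∈ Hin H tl (insert y (insert z B)) x,
      G.Adj (w z y (c z)) v → v ∈ D) ∨
    (∀ x ∈ B, ∀ v ∈ H x, tl v = y → v ∈ D) ∨ (∀ x ∈ B, ∀ v ∈ H x, tl v = z → v ∈ D)

variable {G F : SimpleGraph V} {A : Finset ι} {C H : ι → Finset V} {tl : V → ι} {ρ : ι → ℕ}
  {X L : ι → ι → Finset V} {w : ι → ι → V → V}

/-- **a set in legal shape closes the slots** -/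
theorem LegD.clo (h : WSys G F A C H tl) (hK : KDs F A C H tl X L w) {B : Finset ι} (hB : B ⊆ A)
    {c : ι → V} (hc : ∀ z ∈ A \ B, c z ∈ C z) {D : Finset V} (hD : LegD G C H tl X w A B c D) :
    Clo G F C H tl B D := by
  have hQ : ∀ z ∈ A, z ∉ B → z ∈ A \ B := fun z hz hzB => mem_sdiff.2 ⟨hz, hzB⟩
  -- a member and a class point
  have PC : ∀ x ∈ B, ∀ p ∈ H x, ∀ a ∈ C x, F.Adj p a → p ∉ D → a ∉ D →
      ∃ y ∈ B.erase x, ∀ d ∈ C y, G.Adj d p ∨ G.Adj d a := by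
    intro x hx p hp a ha hpa hpD haD
    obtain ⟨hz, h1⟩ := h.pc x (hB hx) p hp a ha hpa
    by_cases hzB : tl p ∈ B
    · exact ⟨_, mem_erase.2 ⟨ne_of_mem_erase hz, hzB⟩, h1⟩
    · exfalso
      have hzQ := hQ _ (mem_of_mem_erase hz) hzB
      have h2 : ¬ G.Adj (c (tl p)) p := fun h' => hpD (hD.seen _ hzQ x hx p hp h')
      have h3 := (h1 _ (hc _ hzQ)).resolve_left h2
      by_cases h4 : c (tl p) ∈ X (tl p) x
      · exact hpD (hD.prt _ hzQ x hx h4 x hx p (mem_Hin.2 ⟨hp, mem_insert_self _ _⟩)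
          (h.hit3 hK (hB hx) (mem_of_mem_erase hz) (ne_of_mem_erase hz).symm h4 hp rfl h2))
      · exact haD (hD.cls _ hzQ x hx h4 a ha h3)
  -- a half-served pair, one far row in `B`
  have HM : ∀ x ∈ B, ∀ p ∈ H x, ∀ q ∈ H x, F.Adj p q → p ∉ D → q ∉ D →
      tl p ∈ B.erase x → tl q ∈ A.erase x → tl q ∉ B → ∀ b ∈ C (tl p), b ∉ D →
      G.Adj b p ∨ G.Adj b q := by
    intro x hx p hp q hq hpq hpD hqD hy hz hzB b hb hbD
    by_contra hcon
    push Not at hcon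
    have hzQ := hQ _ (mem_of_mem_erase hz) hzB
    have hyB := mem_of_mem_erase hy
    have hyz : tl p ≠ tl q := fun h' => hzB (h' ▸ hyB)
    have n1 : ¬ G.Adj (c (tl q)) p := fun h' => hpD (hD.seen _ hzQ x hx p hp h')
    have n2 : ¬ G.Adj (c (tl q)) q := fun h' => hqD (hD.seen _ hzQ x hx q hq h')
    have had := h.half x (hB hx) p hp q hq hpq (mem_erase.2 ⟨ne_of_mem_erase hy, hB hyB⟩) hz hyz
      b hb _ (hc _ hzQ) hcon.1 hcon.2 n1 n2
    by_cases c1 : c (tl q) ∈ X (tl q) (tl p)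
    · rcases h.hit hK (hB hx) (mem_of_mem_erase hz) (hB hyB) (ne_of_mem_erase hz).symm
        (ne_of_mem_erase hy).symm hyz.symm hq hp hpq.symm rfl rfl c1 n2 n1 with h1 | h1
      · exact hqD (hD.prt _ hzQ _ hyB c1 x hx q (mem_Hin.2 ⟨hq, mem_insert_self _ _⟩) h1)
      · exact hpD (hD.prt _ hzQ _ hyB c1 x hx p (mem_Hin.2 ⟨hp, mem_insert_of_mem hyB⟩) h1)
    · exact hbD (hD.cls _ hzQ _ hyB c1 b hb had.symm)
  intro x hx p hp q hq hpq hpD hqD
  have hxA := hB hx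
  rcases mem_union.1 hp with hp1 | hp1 <;> rcases mem_union.1 hq with hq1 | hq1
  · rcases h.pp x hxA p hp1 q hq1 hpq with ⟨y, hy, h1⟩ | ⟨hy, hz, hne⟩
    · by_cases hyB : y ∈ B
      · exact Or.inl ⟨y, mem_erase.2 ⟨ne_of_mem_erase hy, hyB⟩, fun d hd _ => h1 d hd⟩
      · exfalso
        have hyQ := hQ _ (mem_of_mem_erase hy) hyB
        rcases h1 _ (hc y hyQ) with h2 | h2
        · exact hpD (hD.seen _ hyQ x hx p hp1 h2)
        · exact hqD (hD.seen _ hyQ x hx q hq1 h2)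
    · by_cases hyB : tl p ∈ B <;> by_cases hzB : tl q ∈ B
      · exact Or.inr ⟨hp1, hq1, mem_erase.2 ⟨ne_of_mem_erase hy, hyB⟩,
          mem_erase.2 ⟨ne_of_mem_erase hz, hzB⟩, hne⟩
      · have hy2 : tl p ∈ B.erase x := mem_erase.2 ⟨ne_of_mem_erase hy, hyB⟩
        exact Or.inl ⟨_, hy2, HM x hx p hp1 q hq1 hpq hpD hqD hy2 hz hzB⟩
      · have hz2 : tl q ∈ B.erase x := mem_erase.2 ⟨ne_of_mem_erase hz, hzB⟩
        exact Or.inl ⟨_, hz2, fun b hb hbD =>
          (HM x hx q hq1 p hp1 hpq.symm hqD hpD hz2 hy hyB b hb hbD).symm⟩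
      · exfalso
        have hyA := mem_of_mem_erase hy
        have hzA := mem_of_mem_erase hz
        have hyQ := hQ _ hyA hyB
        have hzQ := hQ _ hzA hzB
        have n1 : ¬ G.Adj (c (tl p)) p := fun h' => hpD (hD.seen _ hyQ x hx p hp1 h')
        have n2 : ¬ G.Adj (c (tl p)) q := fun h' => hqD (hD.seen _ hyQ x hx q hq1 h')
        have n3 : ¬ G.Adj (c (tl q)) p := fun h' => hpD (hD.seen _ hzQ x hx p hp1 h')
        have n4 : ¬ G.Adj (c (tl q)) q := fun h' => hqD (hD.seen _ hzQ x hx q hq1 h')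
        have had := h.half x hxA p hp1 q hq1 hpq hy hz hne _ (hc _ hyQ) _ (hc _ hzQ) n1 n2 n3 n4
        rcases hD.two _ hyQ _ hzQ hne had with ⟨c1, h1⟩ | ⟨c1, h1⟩ | h1 | h1
        · rcases h.hit hK hxA hyA hzA (ne_of_mem_erase hy).symm (ne_of_mem_erase hz).symm hne hp1
            hq1 hpq rfl rfl c1 n1 n2 with h2 | h2
          · exact hpD (h1 x hx p (mem_Hin.2 ⟨hp1, mem_insert_self _ _⟩) h2)
          · exact hqD (h1 x hx q (mem_Hin.2 ⟨hq1, mem_insert_of_mem (mem_insert_self _ _)⟩) h2)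
        · rcases h.hit hK hxA hzA hyA (ne_of_mem_erase hz).symm (ne_of_mem_erase hy).symm hne.symm
            hq1 hp1 hpq.symm rfl rfl c1 n4 n3 with h2 | h2
          · exact hqD (h1 x hx q (mem_Hin.2 ⟨hq1, mem_insert_of_mem (mem_insert_self _ _)⟩) h2)
          · exact hpD (h1 x hx p (mem_Hin.2 ⟨hp1, mem_insert_self _ _⟩) h2)
        · exact hpD (h1 x hx p hp1 rfl)
        · exact hqD (h1 x hx q hq1 rfl)
  · obtain ⟨y, hy, h1⟩ := PC x hx p hp1 q hq1 hpq hpD hqD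
    exact Or.inl ⟨y, hy, fun d hd _ => h1 d hd⟩
  · obtain ⟨y, hy, h1⟩ := PC x hx q hq1 p hp1 hpq.symm hqD hpD
    exact Or.inl ⟨y, hy, fun d hd _ => (h1 d hd).symm⟩
  · exact absurd hpq (h.FC x hxA p hp1 q hq1)

/-- **one layer, legal shape, sharp form** (no structure is used): the deletion set of the rows `B` of
rank less than `k` given by a transversal of the other rows; the partner of `c z` in `H z` with tail
`y` pays only for its neighbours with tail in `B` or `y` or `z` -/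
theorem layerL' (hρ : ∀ x ∈ A, ∀ y ∈ A, ρ x = ρ y → x = y) {k : ℕ} {B Q : Finset ι}
    (hB : B = A.filter (fun x => ρ x < k)) (hQ : Q = A.filter (fun x => k ≤ ρ x))
    {Lm : ι → ι → ι → Finset V}
    (hL : ∀ y ∈ Q, ∀ z ∈ Q, ρ y < ρ z → (∀ x ∈ B, ∀ v ∈ H x, tl v = y → v ∈ Lm x y z) ∨
      (∀ x ∈ B, ∀ v ∈ H x, tl v = z → v ∈ Lm x y z))
    {c : ι → V} {vl : ℚ} (hv : ∀ D : Finset V, LegD G C H tl X w A B c D → vl ≤ D.card) :
    vl ≤ ∑ x ∈ B, ((∑ z ∈ Q, (dg G (H x) (c z)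
        + (if c z ∈ X z x then 0 else dg G (C x) (c z))
        + ∑ y ∈ A, (if ρ y < ρ z ∧ c z ∈ X z y then dg G (Hin H tl (insert y (insert z B)) x) (w z y (c z)) else 0))
      + ∑ y ∈ Q, ∑ z ∈ Q,
          (if ρ y < ρ z ∧ G.Adj (c y) (c z) ∧ c z ∉ X z y then
            (if c y ∈ X y z then dg G (Hin H tl (insert y (insert z B)) x) (w y z (c y)) else (Lm x y z).card)
            else 0) : ℕ) : ℚ) := by
  have hBA : ∀ x ∈ B, x ∈ A ∧ ρ x < k := fun x hx => by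
    rw [hB] at hx
    exact mem_filter.1 hx
  have hQA : ∀ x ∈ Q, x ∈ A ∧ k ≤ ρ x := fun x hx => by
    rw [hQ] at hx
    exact mem_filter.1 hx
  have hQB : A \ B = Q := by
    ext x
    rw [hB, hQ, mem_sdiff, mem_filter, mem_filter]
    constructor
    · rintro ⟨h1, h2⟩
      exact ⟨h1, not_lt.1 fun h3 => h2 ⟨h1, h3⟩⟩
    · rintro ⟨h1, h2⟩
      exact ⟨h1, fun h3 => absurd h3.2 (not_lt.2 h2)⟩
  set KP : ι → ι → Finset V := fun x z => if c z ∈ X z x then ∅
    else (C x).filter (fun v => G.Adj (c z) v) with hKP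
  set N1 : ι → ι → ι → Finset V := fun x z y => if ρ y < ρ z ∧ c z ∈ X z y then
      (Hin H tl (insert y (insert z B)) x).filter (fun v => G.Adj (w z y (c z)) v) else ∅ with hN1
  set N2 : ι → ι → ι → Finset V := fun x y z =>
    if ρ y < ρ z ∧ G.Adj (c y) (c z) ∧ c z ∉ X z y then
      (if c y ∈ X y z then (Hin H tl (insert y (insert z B)) x).filter (fun v => G.Adj (w y z (c y)) v)
        else Lm x y z) else ∅ with hN2
  set Dx : ι → Finset V := fun x =>
    Q.biUnion (fun z => ((H x).filter (fun v => G.Adj (c z) v) ∪ KP x z)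
      ∪ A.biUnion (N1 x z)) ∪ Q.biUnion (fun y => Q.biUnion (N2 x y)) with hDx
  have iS : ∀ x ∈ B, ∀ z ∈ Q, ∀ v ∈ H x, G.Adj (c z) v → v ∈ B.biUnion Dx :=
    fun x hx z hz v hv hcv => mem_biUnion.2 ⟨x, hx,
    mem_union_left _ (mem_biUnion.2 ⟨z, hz, mem_union_left _ (mem_union_left _
      (mem_filter.2 ⟨hv, hcv⟩))⟩)⟩
  have iK : ∀ x ∈ B, ∀ z ∈ Q, ∀ v ∈ KP x z, v ∈ B.biUnion Dx := fun x hx z hz v hv =>
    mem_biUnion.2 ⟨x, hx, mem_union_left _ (mem_biUnion.2 ⟨z, hz, mem_union_left _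
      (mem_union_right _ hv)⟩)⟩
  have i1 : ∀ x ∈ B, ∀ z ∈ Q, ∀ y ∈ A, ∀ v ∈ N1 x z y, v ∈ B.biUnion Dx :=
    fun x hx z hz y hy v hv => mem_biUnion.2 ⟨x, hx, mem_union_left _ (mem_biUnion.2 ⟨z, hz,
      mem_union_right _ (mem_biUnion.2 ⟨y, hy, hv⟩)⟩)⟩
  have i2 : ∀ x ∈ B, ∀ y ∈ Q, ∀ z ∈ Q, ∀ v ∈ N2 x y z, v ∈ B.biUnion Dx :=
    fun x hx y hy z hz v hv => mem_biUnion.2 ⟨x, hx, mem_union_right _ (mem_biUnion.2 ⟨y, hy,
      mem_biUnion.2 ⟨z, hz, hv⟩⟩)⟩
  have j1 : ∀ z ∈ Q, ∀ y ∈ A, ρ y < ρ z → c z ∈ X z y → ∀ x ∈ B,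
      ∀ v ∈ Hin H tl (insert y (insert z B)) x, G.Adj (w z y (c z)) v → v ∈ B.biUnion Dx := by
    intro z hz y hy hyz c1 x hx v hv hwv
    refine i1 x hx z hz y hy v ?_
    rw [hN1]
    simp only [if_pos (And.intro hyz c1)]
    exact mem_filter.2 ⟨hv, hwv⟩
  have half : ∀ y ∈ Q, ∀ z ∈ Q, ρ y < ρ z → G.Adj (c y) (c z) →
      (c y ∈ X y z ∧ ∀ x ∈ B, ∀ v ∈ Hin H tl (insert y (insert z B)) x,
        G.Adj (w y z (c y)) v → v ∈ B.biUnion Dx) ∨
      (c z ∈ X z y ∧ ∀ x ∈ B, ∀ v ∈ Hin H tl (insert y (insert z B)) x,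
        G.Adj (w z y (c z)) v → v ∈ B.biUnion Dx) ∨
      (∀ x ∈ B, ∀ v ∈ H x, tl v = y → v ∈ B.biUnion Dx) ∨
      (∀ x ∈ B, ∀ v ∈ H x, tl v = z → v ∈ B.biUnion Dx) := by
    intro y hy z hz hyz had
    by_cases c1 : c z ∈ X z y
    · exact Or.inr (Or.inl ⟨c1, j1 z hz y (hQA y hy).1 hyz c1⟩)
    · by_cases c2 : c y ∈ X y z
      · refine Or.inl ⟨c2, fun x hx v hv hwv => i2 x hx y hy z hz v ?_⟩
        rw [hN2]
        simp only [if_pos (And.intro hyz (And.intro had c1)), if_pos c2]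
        exact mem_filter.2 ⟨hv, hwv⟩
      · have hm : ∀ x ∈ B, ∀ v ∈ Lm x y z, v ∈ B.biUnion Dx := fun x hx v hv =>
          i2 x hx y hy z hz v (by
            rw [hN2]
            simp only [if_pos (And.intro hyz (And.intro had c1)), if_neg c2]
            exact hv)
        rcases hL y hy z hz hyz with h1 | h1
        · exact Or.inr (Or.inr (Or.inl fun x hx v hv ht => hm x hx v (h1 x hx v hv ht)))
        · exact Or.inr (Or.inr (Or.inr fun x hx v hv ht => hm x hx v (h1 x hx v hv ht)))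
  have hleg : LegD G C H tl X w A B c (B.biUnion Dx) := by
    refine ⟨?_, ?_, ?_, ?_⟩
    · rw [hQB]
      exact fun z hz x hx v hv => iS x hx z hz v hv
    · rw [hQB]
      intro z hz y hy c1 b hb hcb
      refine iK y hy z hz b ?_
      rw [hKP]
      simp only [if_neg c1]
      exact mem_filter.2 ⟨hb, hcb⟩
    · rw [hQB]
      intro z hz y hy c1 x hx v hv hwv
      have h1 := (hBA y hy).2
      have h2 := (hQA z hz).2
      refine j1 z hz y (hBA y hy).1 (by omega) c1 x hx v (mem_Hin.2 ⟨(mem_Hin.1 hv).1, ?_⟩) hwv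
      exact mem_insert_of_mem (mem_Hin.1 hv).2
    · rw [hQB]
      intro y hy z hz hyz had
      rcases lt_trichotomy (ρ y) (ρ z) with h1 | h1 | h1
      · exact half y hy z hz h1 had
      · exact absurd (hρ _ (hQA y hy).1 _ (hQA z hz).1 h1) hyz
      · have h3 := half z hz y hy h1 had.symm
        rw [insert_comm z y B] at h3
        rcases h3 with h2 | h2 | h2 | h2
        · exact Or.inr (Or.inl h2)
        · exact Or.inl h2
        · exact Or.inr (Or.inr (Or.inr h2))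
        · exact Or.inr (Or.inr (Or.inl h2))
  refine (hv _ hleg).trans ?_
  have h2 : (B.biUnion Dx).card ≤ ∑ x ∈ B, (Dx x).card := card_biUnion_le
  refine (show ((B.biUnion Dx).card : ℚ) ≤ ((∑ x ∈ B, (Dx x).card : ℕ) : ℚ) by
    exact_mod_cast h2).trans ?_
  rw [← Nat.cast_sum]
  refine Nat.cast_le.2 (sum_le_sum fun x hx => ?_)
  have hKL : ∀ z, (KP x z).card = (if c z ∈ X z x then 0 else dg G (C x) (c z)) := by
    intro z
    rw [hKP]
    by_cases h2 : c z ∈ X z x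
    · simp only [if_pos h2, card_empty]
    · simp only [if_neg h2]
      rfl
  have hN1c : ∀ z y, (N1 x z y).card
      = (if ρ y < ρ z ∧ c z ∈ X z y then dg G (Hin H tl (insert y (insert z B)) x) (w z y (c z)) else 0) := by
    intro z y
    rw [hN1]
    by_cases h2 : ρ y < ρ z ∧ c z ∈ X z y
    · simp only [if_pos h2]
      rfl
    · simp only [if_neg h2, card_empty]
  have hN2c : ∀ y z, (N2 x y z).card = (if ρ y < ρ z ∧ G.Adj (c y) (c z) ∧ c z ∉ X z y then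
      (if c y ∈ X y z then dg G (Hin H tl (insert y (insert z B)) x) (w y z (c y)) else (Lm x y z).card) else 0) := by
    intro y z
    rw [hN2]
    by_cases h2 : ρ y < ρ z ∧ G.Adj (c y) (c z) ∧ c z ∉ X z y
    · simp only [if_pos h2]
      split_ifs <;> rfl
    · simp only [if_neg h2, card_empty]
  have h3 : (Dx x).card ≤ ∑ z ∈ Q, (dg G (H x) (c z) + (KP x z).card
      + ∑ y ∈ A, (N1 x z y).card) + ∑ y ∈ Q, ∑ z ∈ Q, (N2 x y z).card := by
    refine (card_union_le _ _).trans (add_le_add ?_ ?_)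
    · refine card_biUnion_le.trans (sum_le_sum fun z _ => ?_)
      refine (card_union_le _ _).trans (add_le_add ?_ card_biUnion_le)
      exact card_union_le _ _
    · exact card_biUnion_le.trans (sum_le_sum fun y _ => card_biUnion_le)
  simp only [hN1c, hN2c, hKL] at h3
  exact h3

/-- **one layer, legal shape**: the partners pay for all neighbours with tail in `A` -/
theorem layerL (hρ : ∀ x ∈ A, ∀ y ∈ A, ρ x = ρ y → x = y) {k : ℕ} {B Q : Finset ι}
    (hB : B = A.filter (fun x => ρ x < k)) (hQ : Q = A.filter (fun x => k ≤ ρ x))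
    {Lm : ι → ι → ι → Finset V}
    (hL : ∀ y ∈ Q, ∀ z ∈ Q, ρ y < ρ z → (∀ x ∈ B, ∀ v ∈ H x, tl v = y → v ∈ Lm x y z) ∨
      (∀ x ∈ B, ∀ v ∈ H x, tl v = z → v ∈ Lm x y z))
    {c : ι → V} {vl : ℚ} (hv : ∀ D : Finset V, LegD G C H tl X w A B c D → vl ≤ D.card) :
    vl ≤ ∑ x ∈ B, ((∑ z ∈ Q, (dg G (H x) (c z)
        + (if c z ∈ X z x then 0 else dg G (C x) (c z))
        + ∑ y ∈ A, (if ρ y < ρ z ∧ c z ∈ X z y then dg G (Hin H tl A x) (w z y (c z)) else 0))
      + ∑ y ∈ Q, ∑ z ∈ Q,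
          (if ρ y < ρ z ∧ G.Adj (c y) (c z) ∧ c z ∉ X z y then
            (if c y ∈ X y z then dg G (Hin H tl A x) (w y z (c y)) else (Lm x y z).card)
            else 0) : ℕ) : ℚ) := by
  have hBA : B ⊆ A := by
    rw [hB]
    exact filter_subset _ _
  have hQA : Q ⊆ A := by
    rw [hQ]
    exact filter_subset _ _
  have hmono : ∀ x, ∀ y ∈ A, ∀ z ∈ A, ∀ v, dg G (Hin H tl (insert y (insert z B)) x) v
      ≤ dg G (Hin H tl A x) v := by
    intro x y hy z hz v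
    unfold dg
    refine card_le_card (filter_subset_filter _ fun u hu => ?_)
    obtain ⟨h1, h2⟩ := mem_Hin.1 hu
    refine mem_Hin.2 ⟨h1, ?_⟩
    rcases mem_insert.1 h2 with h3 | h3
    · rw [h3]
      exact hy
    · rcases mem_insert.1 h3 with h4 | h4
      · rw [h4]
        exact hz
      · exact hBA h4
  refine (layerL' hρ hB hQ hL hv).trans (sum_le_sum fun x _ => Nat.cast_le.2 ?_)
  refine add_le_add (sum_le_sum fun z hz => add_le_add le_rfl (sum_le_sum fun y hy => ?_))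
    (sum_le_sum fun y hy => sum_le_sum fun z hz => ?_)
  · split_ifs with h1
    · exact hmono x y hy z (hQA hz) _
    · exact le_rfl
  · split_ifs with h1 h2
    · exact hmono x y (hQA hy) z (hQA hz) _
    · exact le_rfl
    · exact le_rfl

end WgtL

end Pool.Agent.Lib.MP_f04ccf_co
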