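import Pool.Agent.Lib.MP_f04ccf_co.M.WgtE
import Pool.Agent.Lib.MP_f04ccf_co.M.WgtL

/-!
MP_f04ccf_co: the combined load statement (*_L), raw accounting.  `cw`: the weight of a cell, `chg`: the
charge of an edge between two homes.  `wgt_raw`: weighted hosts and layers against the weighted
edges.
-/

set_option autoImplicit false

namespace Pool.Agent.Lib.MP_f04ccf_co

open Finset

attribute [local instance] Classical.propDecidable

section DefF

variable {ι V : Type*}

/-- the layers between the ranks of `x` and `z` -/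
noncomputable def Om (A : Finset ι) (ρ : ι → ℕ) (om : ι → ℚ) (x z : ι) : ℚ :=
  ∑ j ∈ A, (if ρ x < ρ j ∧ ρ j ≤ ρ z then om j else 0)

/-- the corrections of the pair of rows `y`, `z` -/
noncomputable def LLc (A : Finset ι) (ρ : ι → ℕ) (u om : ι → ℚ) (lm : ι → ι → ι → ℚ)
    (lmJ : ι → ι → ι → ι → ℚ) (y z : ι) : ℚ :=
  ∑ x ∈ (A.erase y).erase z, u x * lm x y z
    + ∑ j ∈ A, (if ρ j ≤ ρ y then om j * ∑ x ∈ A, (if ρ x < ρ j then lmJ j x y z else 0) else 0)

/-- the weight of the cell `p`, `c` between the rows `y`, `z` -/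
noncomputable def cw (A : Finset ι) (C : ι → Finset V) (ρ : ι → ℕ) (X : ι → ι → Finset V)
    (Us : ι → ι → V → Finset V) (u om : ι → ℚ) (lm : ι → ι → ι → ℚ) (lmJ : ι → ι → ι → ι → ℚ)
    (y z : ι) (p c : V) : ℚ :=
  if c ∈ X z y then (if c ∈ Us z y p then u z / (C y).card else 0)
  else (if p ∈ Us y z c then u y / (C z).card else 0) + Om A ρ om y z / (C z).card
    + (if p ∈ X y z then 0 else LLc A ρ u om lm lmJ y z / ((C y).card * (C z).card))

/-- the charge of the edge `g`, `q` (`g` in the home `s`, `q` in the home `x`) by the partners in the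
home `s` -/
noncomputable def chg (A : Finset ι) (C : ι → Finset V) (tl : V → ι) (ρ : ι → ℕ)
    (X L : ι → ι → Finset V) (w : ι → ι → V → V) (u om : ι → ℚ) (f : ι → V → ℚ) (s x : ι)
    (g q : V) : ℚ :=
  ∑ t ∈ A.erase s, (if g ∈ (X s t).image (w s t) then
    (u x * (if t = x then (if ρ x < ρ s ∧ tl q = s then 1 else 0) else
        (if (tl q = s ∧ q ∉ KX X L w x s) ∨ (tl q = t ∧ q ∉ KX X L w x t) then f x q else 0))
      + Om A ρ om x s * (if tl q ∈ A then 1 else 0)) / (C s).card else 0)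

end DefF

section Raw

variable {ι V : Type*} {G F : SimpleGraph V} {A : Finset ι} {C H : ι → Finset V} {tl : V → ι}
  {ρ : ι → ℕ} {X L : ι → ι → Finset V} {w : ι → ι → V → V} {Us : ι → ι → V → Finset V}
  {u om : ι → ℚ} {lm : ι → ι → ι → ℚ} {lmJ : ι → ι → ι → ι → ℚ} {f : ι → V → ℚ}

lemma Om_zero {x z : ι} (h : ρ z ≤ ρ x) : Om A ρ om x z = 0 := by
  unfold Om
  refine sum_eq_zero fun j _ => ?_
  rw [if_neg]
  rintro ⟨h1, h2⟩
  omega

lemma Om_nonneg (hom : ∀ j ∈ A, 0 ≤ om j) (x z : ι) : 0 ≤ Om A ρ om x z := by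
  unfold Om
  refine sum_nonneg fun j hj => ?_
  split_ifs
  · exact hom j hj
  · exact le_refl _

/-- ordered pairs of rows -/
lemma sum_rank (hρ : ∀ x ∈ A, ∀ y ∈ A, ρ x = ρ y → x = y) (φ : ι → ι → ℚ) :
    ∑ x ∈ A, ∑ z ∈ A.erase x, φ x z
      = ∑ y ∈ A, ∑ z ∈ A, (if ρ y < ρ z then φ y z + φ z y else 0) := by
  have h1 : ∀ x ∈ A, ∑ z ∈ A.erase x, φ x z
      = ∑ z ∈ A, ((if ρ x < ρ z then φ x z else 0) + (if ρ z < ρ x then φ x z else 0)) := by
    intro x hx
    rw [← add_sum_erase A _ hx]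
    simp only [lt_self_iff_false, if_false, zero_add]
    refine sum_congr rfl fun z hz => ?_
    rcases lt_trichotomy (ρ x) (ρ z) with h | h | h
    · rw [if_pos h, if_neg (not_lt.2 h.le), add_zero]
    · exact absurd (hρ x hx z (mem_of_mem_erase hz) h).symm (ne_of_mem_erase hz)
    · rw [if_neg (not_lt.2 h.le), if_pos h, zero_add]
  have h2 : ∑ x ∈ A, ∑ z ∈ A, (if ρ z < ρ x then φ x z else 0)
      = ∑ y ∈ A, ∑ z ∈ A, (if ρ y < ρ z then φ z y else 0) := sum_comm
  rw [sum_congr rfl h1]
  simp only [sum_add_distrib]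
  rw [h2, ← sum_add_distrib]
  refine sum_congr rfl fun y _ => ?_
  rw [← sum_add_distrib]
  refine sum_congr rfl fun z _ => ?_
  split_ifs
  · rfl
  · rw [add_zero]

/-- the layers, row by row -/
lemma lay_swap (φ : ι → ι → ℚ) :
    ∑ j ∈ A, om j * ∑ x ∈ A.filter (fun x => ρ x < ρ j), ∑ z ∈ A.filter (fun z => ρ j ≤ ρ z),
      φ x z = ∑ x ∈ A, ∑ z ∈ A, Om A ρ om x z * φ x z := by
  have h1 : ∀ j ∈ A, om j * ∑ x ∈ A.filter (fun x => ρ x < ρ j),
      ∑ z ∈ A.filter (fun z => ρ j ≤ ρ z), φ x z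
      = ∑ x ∈ A, ∑ z ∈ A, (if ρ x < ρ j ∧ ρ j ≤ ρ z then om j else 0) * φ x z := by
    intro j _
    rw [sum_filter, mul_sum]
    refine sum_congr rfl fun x _ => ?_
    by_cases hx : ρ x < ρ j
    · rw [if_pos hx, sum_filter, mul_sum]
      refine sum_congr rfl fun z _ => ?_
      by_cases hz : ρ j ≤ ρ z
      · rw [if_pos hz, if_pos ⟨hx, hz⟩]
      · rw [if_neg hz, if_neg (fun h => hz h.2), mul_zero, zero_mul]
    · rw [if_neg hx, mul_zero]
      symm
      refine sum_eq_zero fun z _ => ?_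
      rw [if_neg (fun h => hx h.1), zero_mul]
  rw [sum_congr rfl h1, sum_comm]
  refine sum_congr rfl fun x _ => ?_
  rw [sum_comm]
  refine sum_congr rfl fun z _ => ?_
  unfold Om
  rw [sum_mul]

/-- the corrections of the layers, pair by pair -/
lemma lay_swap' (ν : ι → ι → ι → ι → ℚ) (κ : ι → ι → ℚ) :
    ∑ j ∈ A, om j * ∑ x ∈ A.filter (fun x => ρ x < ρ j), ∑ z ∈ A.filter (fun z => ρ j ≤ ρ z),
      ∑ t ∈ A.erase x, (if ρ z < ρ t then ν j x z t * κ z t else 0)
      = ∑ y ∈ A, ∑ z ∈ A, (if ρ y < ρ z then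
        (∑ j ∈ A, (if ρ j ≤ ρ y then om j * ∑ x ∈ A, (if ρ x < ρ j then ν j x y z else 0)
          else 0)) * κ y z else 0) := by
  have h1 : ∀ j ∈ A, om j * ∑ x ∈ A.filter (fun x => ρ x < ρ j),
      ∑ z ∈ A.filter (fun z => ρ j ≤ ρ z),
      ∑ t ∈ A.erase x, (if ρ z < ρ t then ν j x z t * κ z t else 0)
      = ∑ y ∈ A, ∑ z ∈ A, ∑ x ∈ A, (if ρ j ≤ ρ y ∧ ρ y < ρ z ∧ ρ x < ρ j then
          om j * (ν j x y z * κ y z) else 0) := by
    intro j _
    rw [sum_filter, mul_sum]
    have e1 : ∀ x ∈ A, om j * (if ρ x < ρ j then ∑ z ∈ A.filter (fun z => ρ j ≤ ρ z),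
        ∑ t ∈ A.erase x, (if ρ z < ρ t then ν j x z t * κ z t else 0) else 0)
        = ∑ y ∈ A, ∑ z ∈ A, (if ρ j ≤ ρ y ∧ ρ y < ρ z ∧ ρ x < ρ j then
          om j * (ν j x y z * κ y z) else 0) := by
      intro x hx
      by_cases hxj : ρ x < ρ j
      · rw [if_pos hxj, sum_filter, mul_sum]
        refine sum_congr rfl fun y _ => ?_
        by_cases hy : ρ j ≤ ρ y
        · rw [if_pos hy, ← add_sum_erase A _ hx, mul_sum]
          have e2 : (if ρ j ≤ ρ y ∧ ρ y < ρ x ∧ ρ x < ρ j then
              om j * (ν j x y x * κ y x) else 0) = 0 := by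
            rw [if_neg]
            rintro ⟨h2, h3, h4⟩
            omega
          rw [e2, zero_add]
          refine sum_congr rfl fun z _ => ?_
          by_cases hz : ρ y < ρ z
          · rw [if_pos hz, if_pos ⟨hy, hz, hxj⟩]
          · rw [if_neg hz, if_neg (fun h => hz h.2.1), mul_zero]
        · rw [if_neg hy, mul_zero]
          symm
          refine sum_eq_zero fun z _ => ?_
          rw [if_neg (fun h => hy h.1)]
      · rw [if_neg hxj, mul_zero]
        symm
        refine sum_eq_zero fun y _ => sum_eq_zero fun z _ => ?_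
        rw [if_neg (fun h => hxj h.2.2)]
    rw [sum_congr rfl e1, sum_comm]
    exact sum_congr rfl fun y _ => sum_comm
  rw [sum_congr rfl h1, sum_comm]
  refine sum_congr rfl fun y _ => ?_
  rw [sum_comm]
  refine sum_congr rfl fun z _ => ?_
  by_cases hyz : ρ y < ρ z
  · rw [if_pos hyz, sum_mul]
    refine sum_congr rfl fun j _ => ?_
    by_cases hj : ρ j ≤ ρ y
    · rw [if_pos hj, mul_sum, sum_mul]
      refine sum_congr rfl fun x _ => ?_
      by_cases hx : ρ x < ρ j
      · rw [if_pos ⟨hj, hyz, hx⟩, if_pos hx, mul_assoc]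
      · rw [if_neg (fun h => hx h.2.2), if_neg hx, mul_zero, zero_mul]
    · rw [if_neg hj, zero_mul]
      refine sum_eq_zero fun x _ => ?_
      rw [if_neg (fun h => hj h.1)]
  · rw [if_neg hyz]
    refine sum_eq_zero fun j _ => sum_eq_zero fun x _ => ?_
    rw [if_neg (fun h => hyz h.2.1)]

/-- the corrections of the hosts, pair by pair -/
lemma host_swap (ν : ι → ι → ι → ℚ) (κ : ι → ι → ℚ) :
    ∑ x ∈ A, u x * ∑ z ∈ A.erase x, ∑ t ∈ A.erase x, (if ρ z < ρ t then ν x z t * κ z t else 0)
      = ∑ y ∈ A, ∑ z ∈ A, (if ρ y < ρ z then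
        (∑ x ∈ (A.erase y).erase z, u x * ν x y z) * κ y z else 0) := by
  have h1 : ∀ x ∈ A, u x * ∑ z ∈ A.erase x, ∑ t ∈ A.erase x,
      (if ρ z < ρ t then ν x z t * κ z t else 0)
      = ∑ y ∈ A, ∑ z ∈ A, (if y ≠ x ∧ z ≠ x ∧ ρ y < ρ z then u x * (ν x y z * κ y z)
        else 0) := by
    intro x hx
    rw [← add_sum_erase A _ hx, mul_sum]
    have e1 : ∑ z ∈ A, (if x ≠ x ∧ z ≠ x ∧ ρ x < ρ z then u x * (ν x x z * κ x z) else 0) = 0 :=
      sum_eq_zero fun z _ => by rw [if_neg (fun h => h.1 rfl)]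
    rw [e1, zero_add]
    refine sum_congr rfl fun y hy => ?_
    rw [← add_sum_erase A _ hx, mul_sum, if_neg (fun h => h.2.1 rfl), zero_add]
    refine sum_congr rfl fun z hz => ?_
    by_cases h : ρ y < ρ z
    · rw [if_pos h, if_pos ⟨ne_of_mem_erase hy, ne_of_mem_erase hz, h⟩]
    · rw [if_neg h, if_neg (fun h' => h h'.2.2), mul_zero]
  rw [sum_congr rfl h1, sum_comm]
  refine sum_congr rfl fun y hy => ?_
  rw [sum_comm]
  refine sum_congr rfl fun z hz => ?_
  by_cases h : ρ y < ρ z
  · have hyz : z ≠ y := by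
      rintro rfl
      exact lt_irrefl _ h
    rw [if_pos h, ← add_sum_erase A _ hy, if_neg (fun h' => h'.1 rfl), zero_add,
      ← add_sum_erase (A.erase y) _ (mem_erase.2 ⟨hyz, hz⟩), if_neg (fun h' => h'.2.1 rfl),
      zero_add, sum_mul]
    refine sum_congr rfl fun x hx => ?_
    have hxz := ne_of_mem_erase hx
    have hxy := ne_of_mem_erase (mem_of_mem_erase hx)
    rw [if_pos ⟨hxy.symm, hxz.symm, h⟩, mul_assoc]
  · rw [if_neg h]
    refine sum_eq_zero fun x _ => ?_
    rw [if_neg (fun h' => h h'.2.2)]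

/-- the charges of the partners in the home `s` on the home `x` -/
lemma chg_sum (hK : KDs F A C H tl X L w) {s x : ι} (hs : s ∈ A) :
    ∑ g ∈ H s, ∑ q ∈ H x, (if G.Adj g q then chg A C tl ρ X L w u om f s x g q else 0)
      = ∑ t ∈ A.erase s, (∑ a ∈ X s t,
        (u x * (if t = x then (if ρ x < ρ s then (dg G (arc H tl x s) (w s t a) : ℚ) else 0)
            else ∑ q ∈ NF G H tl X L w x s t a, f x q)
          + Om A ρ om x s * (dg G (Hin H tl A x) (w s t a) : ℚ))) / (C s).card := by
  have h1 : ∀ g ∈ H s, ∑ q ∈ H x, (if G.Adj g q then chg A C tl ρ X L w u om f s x g q else 0)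
      = ∑ t ∈ A.erase s, (if g ∈ (X s t).image (w s t) then (∑ q ∈ H x, (if G.Adj g q then
        (u x * (if t = x then (if ρ x < ρ s ∧ tl q = s then 1 else 0) else
        (if (tl q = s ∧ q ∉ KX X L w x s) ∨ (tl q = t ∧ q ∉ KX X L w x t) then f x q else 0))
      + Om A ρ om x s * (if tl q ∈ A then 1 else 0)) else 0)) / ((C s).card : ℚ) else 0) := by
    intro g _
    have e1 : ∀ q ∈ H x, (if G.Adj g q then chg A C tl ρ X L w u om f s x g q else 0)
        = ∑ t ∈ A.erase s, (if g ∈ (X s t).image (w s t) then ((if G.Adj g q then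
        (u x * (if t = x then (if ρ x < ρ s ∧ tl q = s then 1 else 0) else
        (if (tl q = s ∧ q ∉ KX X L w x s) ∨ (tl q = t ∧ q ∉ KX X L w x t) then f x q else 0))
      + Om A ρ om x s * (if tl q ∈ A then 1 else 0)) else 0)) / ((C s).card : ℚ) else 0) := by
      intro q _
      by_cases h : G.Adj g q
      · simp only [if_pos h]
        rfl
      · simp only [if_neg h, zero_div, ite_self, sum_const_zero]
    rw [sum_congr rfl e1, sum_comm]
    refine sum_congr rfl fun t _ => ?_
    by_cases h : g ∈ (X s t).image (w s t)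
    · simp only [if_pos h]
      rw [sum_div]
    · simp only [if_neg h, sum_const_zero]
  rw [sum_congr rfl h1, sum_comm]
  refine sum_congr rfl fun t ht => ?_
  have htA := mem_of_mem_erase ht
  have hst := (ne_of_mem_erase ht).symm
  have hkd := hK s hs t htA hst
  have hW : (X s t).image (w s t) ⊆ H s := by
    intro g hg
    obtain ⟨a, ha, rfl⟩ := mem_image.1 hg
    exact (mem_arc.1 (hkd.mem a ha).1).1
  rw [← sum_filter, filter_mem_eq_inter, inter_eq_right.2 hW, sum_image hkd.inj, sum_div]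
  refine sum_congr rfl fun a ha => ?_
  congr 1
  have e2 : ∀ q ∈ H x, (if G.Adj (w s t a) q then
        (u x * (if t = x then (if ρ x < ρ s ∧ tl q = s then 1 else 0) else
        (if (tl q = s ∧ q ∉ KX X L w x s) ∨ (tl q = t ∧ q ∉ KX X L w x t) then f x q else 0))
      + Om A ρ om x s * (if tl q ∈ A then 1 else 0)) else 0)
      = u x * (if G.Adj (w s t a) q then (if t = x then (if ρ x < ρ s ∧ tl q = s then 1 else 0)
          else (if (tl q = s ∧ q ∉ KX X L w x s) ∨ (tl q = t ∧ q ∉ KX X L w x t) then f x q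
            else 0)) else 0)
        + Om A ρ om x s * (if G.Adj (w s t a) q ∧ tl q ∈ A then 1 else 0) := by
    intro q _
    by_cases h : G.Adj (w s t a) q
    · simp only [h, if_true, true_and]
    · simp only [h, false_and, if_false, mul_zero, add_zero]
  rw [sum_congr rfl e2, sum_add_distrib, ← mul_sum, ← mul_sum]
  congr 1
  · congr 1
    by_cases htx : t = x
    · simp only [if_pos htx]
      by_cases hlt : ρ x < ρ s
      · simp only [hlt, true_and, if_true]
        unfold dg arc
        rw [filter_filter, card_filter]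
        push_cast
        refine sum_congr rfl fun q _ => ?_
        by_cases h3 : G.Adj (w s t a) q <;> by_cases h4 : tl q = s <;> simp [h3, h4]
      · simp only [hlt, false_and, if_false, ite_self, sum_const_zero]
    · simp only [if_neg htx]
      unfold NF
      rw [sum_filter]
      refine sum_congr rfl fun q _ => ?_
      by_cases h3 : G.Adj (w s t a) q
      · simp only [h3, true_and, if_true]
      · simp only [h3, false_and, if_false]
  · congr 1
    unfold dg Hin
    rw [filter_filter, card_filter]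
    push_cast
    refine sum_congr rfl fun q _ => ?_
    by_cases h3 : G.Adj (w s t a) q <;> by_cases h4 : tl q ∈ A <;> simp [h3, h4]

/-- the weights of the cells between two rows -/
lemma cw_sum {y z : ι} (hyz : ρ y < ρ z) (hXy : X y z ⊆ C y) (hXz : X z y ⊆ C z)
    (hU1 : ∀ c ∈ C z, ∀ a ∈ Us y z c, a ∈ X y z ∧ G.Adj c a)
    (hU2 : ∀ p ∈ C y, ∀ a ∈ Us z y p, a ∈ X z y ∧ G.Adj p a) :
    ∑ p ∈ C y, ∑ c ∈ C z, (if G.Adj p c then cw A C ρ X Us u om lm lmJ y z p c else 0)
      = (u y * (∑ c ∈ C z \ X z y, ((Us y z c).card : ℚ)) / (C z).card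
          + Om A ρ om y z * (∑ c ∈ C z \ X z y, (dg G (C y) c : ℚ)) / (C z).card)
        + u z * (∑ p ∈ C y, ((Us z y p).card : ℚ)) / (C y).card
        + LLc A ρ u om lm lmJ y z * (ee G (C y \ X y z) (C z \ X z y)
            / ((C y).card * (C z).card)) := by
  have h1 : ∀ p ∈ C y, ∑ c ∈ C z, (if G.Adj p c then cw A C ρ X Us u om lm lmJ y z p c else 0)
      = ∑ c ∈ X z y, (if G.Adj p c ∧ c ∈ Us z y p then u z / (C y).card else 0)
        + ∑ c ∈ C z \ X z y, ((if G.Adj p c ∧ p ∈ Us y z c then u y / (C z).card else 0)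
          + (if G.Adj p c then Om A ρ om y z / (C z).card else 0)
          + (if G.Adj p c ∧ p ∉ X y z then LLc A ρ u om lm lmJ y z / ((C y).card * (C z).card)
            else 0)) := by
    intro p _
    rw [← sum_sdiff hXz, add_comm]
    congr 1
    · refine sum_congr rfl fun c hc => ?_
      unfold cw
      rw [if_pos hc]
      by_cases h2 : G.Adj p c <;> by_cases h3 : c ∈ Us z y p <;> simp [h2, h3]
    · refine sum_congr rfl fun c hc => ?_
      unfold cw
      rw [if_neg (mem_sdiff.1 hc).2]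
      by_cases h2 : G.Adj p c
      · simp only [h2, true_and, if_true]
        by_cases h3 : p ∈ X y z
        · simp only [h3, not_true_eq_false, if_true, if_false]
        · simp only [h3, not_false_eq_true, if_true, if_false]
      · simp only [h2, false_and, if_false, add_zero]
  rw [sum_congr rfl h1, sum_add_distrib]
  have p1 : ∑ p ∈ C y, ∑ c ∈ X z y, (if G.Adj p c ∧ c ∈ Us z y p then u z / (C y).card else 0)
      = u z * (∑ p ∈ C y, ((Us z y p).card : ℚ)) / (C y).card := by
    rw [mul_div_assoc, sum_div, mul_sum]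
    refine sum_congr rfl fun p hp => ?_
    rw [← sum_filter, sum_const, nsmul_eq_mul]
    have e1 : (X z y).filter (fun c => G.Adj p c ∧ c ∈ Us z y p) = Us z y p := by
      ext c
      rw [mem_filter]
      exact ⟨fun h => h.2.2, fun h => ⟨(hU2 p hp c h).1, (hU2 p hp c h).2, h⟩⟩
    rw [e1]
    ring
  have p2 : ∑ p ∈ C y, ∑ c ∈ C z \ X z y,
      ((if G.Adj p c ∧ p ∈ Us y z c then u y / (C z).card else 0)
          + (if G.Adj p c then Om A ρ om y z / (C z).card else 0)
          + (if G.Adj p c ∧ p ∉ X y z then LLc A ρ u om lm lmJ y z / ((C y).card * (C z).card)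
            else 0))
      = (u y * (∑ c ∈ C z \ X z y, ((Us y z c).card : ℚ)) / (C z).card
          + Om A ρ om y z * (∑ c ∈ C z \ X z y, (dg G (C y) c : ℚ)) / (C z).card)
        + LLc A ρ u om lm lmJ y z * (ee G (C y \ X y z) (C z \ X z y)
            / ((C y).card * (C z).card)) := by
    simp only [sum_add_distrib]
    congr 1
    · congr 1
      · rw [sum_comm, mul_div_assoc, sum_div, mul_sum]
        refine sum_congr rfl fun c hc => ?_
        rw [← sum_filter, sum_const, nsmul_eq_mul]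
        have hcC := (mem_sdiff.1 hc).1
        have e1 : (C y).filter (fun p => G.Adj p c ∧ p ∈ Us y z c) = Us y z c := by
          ext p
          rw [mem_filter]
          exact ⟨fun h => h.2.2, fun h => ⟨hXy (hU1 c hcC p h).1, (hU1 c hcC p h).2.symm, h⟩⟩
        rw [e1]
        ring
      · rw [sum_comm, mul_div_assoc, sum_div, mul_sum]
        refine sum_congr rfl fun c _ => ?_
        rw [dg_sum, ← sum_filter, ← sum_filter, sum_const, sum_const, nsmul_eq_mul, nsmul_eq_mul]
        have e1 : (C y).filter (fun p => G.Adj p c) = (C y).filter (fun p => G.Adj c p) :=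
          filter_congr fun p _ => ⟨fun h => h.symm, fun h => h.symm⟩
        rw [e1]
        ring
    · unfold ee
      rw [sum_div, mul_sum]
      have e0 : C y \ X y z = (C y).filter (fun p => p ∉ X y z) := by
        ext p
        simp only [mem_sdiff, mem_filter]
      rw [e0, sum_filter]
      refine sum_congr rfl fun p _ => ?_
      by_cases h2 : p ∈ X y z
      · simp only [h2, not_true_eq_false, and_false, if_false, sum_const_zero]
      · simp only [h2, not_false_eq_true, and_true, if_true]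
        rw [dg_sum, ← sum_filter, ← sum_filter, sum_const, sum_const, nsmul_eq_mul, nsmul_eq_mul]
        ring
  rw [p1, p2]
  ring

end Raw

end Pool.Agent.Lib.MP_f04ccf_co
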