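import Pool.Agent.Lib.MP_f04ccf_co.M.WgtG

/-!
MP_f04ccf_co: the combined load statement (*_L), the budget.  `ovl`: the overload of an edge between two
homes.  `wgt_budget`: every edge has weight at most one, general factors `f`, the overload is explicit.
`ovl_le`: the overload for `f ≤ 1`, only edges between a partner and a partner of a point of `L`.
`WSys.budget`: the budget with the explicit loss.
-/

set_option autoImplicit false

namespace Pool.Agent.Lib.MP_f04ccf_co

open Finset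

attribute [local instance] Classical.propDecidable

section DefH

variable {ι V : Type*}

/-- the overload of the edge `g`, `q` between the homes `s` and `x` -/
noncomputable def ovl (A : Finset ι) (C : ι → Finset V) (tl : V → ι) (ρ : ι → ℕ)
    (X L : ι → ι → Finset V) (w : ι → ι → V → V) (u om : ι → ℚ) (f : ι → V → ℚ) (s x : ι)
    (g q : V) : ℚ :=
  max 0 (chg A C tl ρ X L w u om f s x g q + chg A C tl ρ X L w u om f x s q g - 1)

/-- the partners of `L` -/
noncomputable def WL (L : ι → ι → Finset V) (w : ι → ι → V → V) (x z : ι) : Finset V :=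
  (L x z).image (w x z)

/-- the first overload -/
noncomputable def th1 (A : Finset ι) (C : ι → Finset V) (ρ : ι → ℕ) (u om : ι → ℚ) (s x : ι) : ℚ :=
  max 0 (u x / (C s).card + (u s + Om A ρ om s x) / (C x).card - 1)

/-- the second overload (only layers) -/
noncomputable def th2 (A : Finset ι) (C : ι → Finset V) (ρ : ι → ℕ) (u om : ι → ℚ) (s x : ι) : ℚ :=
  max 0 (u x / (C s).card + Om A ρ om s x / (C x).card - 1)

/-- the loss of the pair of homes `s`, `x` -/
noncomputable def lossP (G : SimpleGraph V) (A : Finset ι) (C : ι → Finset V) (ρ : ι → ℕ)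
    (X L : ι → ι → Finset V) (w : ι → ι → V → V) (u om : ι → ℚ) (s x : ι) : ℚ :=
  ∑ t ∈ (A.erase s).erase x, (th1 A C ρ u om s x * ee G (WL L w s t) (WL L w x t)
    + th2 A C ρ u om s x * (ee G (KX X L w s t) (WL L w x t)
      + ee G (WL X w s t) (WL L w x s)))

end DefH

section Budget

variable {ι V : Type*} {G F : SimpleGraph V} {A : Finset ι} {C H : ι → Finset V} {tl : V → ι}
  {ρ : ι → ℕ} {X L : ι → ι → Finset V} {w : ι → ι → V → V} {Us : ι → ι → V → Finset V}
  {u om : ι → ℚ} {lm : ι → ι → ι → ℚ} {lmJ : ι → ι → ι → ι → ℚ} {f : ι → V → ℚ}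

/-- **the budget, general factors** -/
theorem wgt_budget (hρ : ∀ x ∈ A, ∀ y ∈ A, ρ x = ρ y → x = y) (hK : KDs F A C H tl X L w)
    (hXC : ∀ s ∈ A, ∀ t ∈ A, s ≠ t → X s t ⊆ C s)
    (hU : ∀ x ∈ A, ∀ z ∈ A, x ≠ z → ∀ c ∈ C z, ∀ a ∈ Us x z c, a ∈ X x z ∧ G.Adj c a)
    (hu : ∀ x ∈ A, 0 ≤ u x) (hom : ∀ j ∈ A, 0 ≤ om j) {T R vl : ι → ℚ}
    (hT : ∀ x ∈ A, T x ≤ ∑ z ∈ A.erase x, JW G A C H ρ X w x (fun z => arc H tl x z)
        (fun z c => ((Us x z c).card : ℚ))
        (fun s t a => ∑ q ∈ NF G H tl X L w x s t a, f x q) (lm x) z + R x)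
    (hV : ∀ j ∈ A, vl j ≤ ∑ x ∈ A.filter (fun x => ρ x < ρ j),
        ∑ z ∈ A.filter (fun z => ρ j ≤ ρ z), JW G A C H ρ X w x (fun _ => Hin H tl A x)
        (fun _ c => (dg G (C x) c : ℚ)) (fun s t a => (dg G (Hin H tl A x) (w s t a) : ℚ))
        (lmJ j x) z)
    {o : ι → ι → V → V → ℚ} (ho : ∀ y ∈ A, ∀ z ∈ A, ρ y < ρ z → ∀ p ∈ C y, ∀ c ∈ C z,
      G.Adj p c → cw A C ρ X Us u om lm lmJ y z p c + o y z p c ≤ 1) :
    ∑ x ∈ A, u x * T x + ∑ j ∈ A, om j * vl j
      + ∑ y ∈ A, ∑ z ∈ A, (if ρ y < ρ z then ∑ p ∈ C y, ∑ c ∈ C z,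
            (if G.Adj p c then o y z p c else 0) else 0)
      ≤ ∑ x ∈ A, ∑ z ∈ A.erase x, (u x + Om A ρ om x z) / (C z).card * ee G (C z) (H x)
        + ∑ y ∈ A, ∑ z ∈ A, (if ρ y < ρ z then ee G (C y) (C z) else 0)
        + ∑ s ∈ A, ∑ x ∈ A, (if ρ s < ρ x then ee G (H s) (H x) else 0)
        + ∑ x ∈ A, u x * R x
        + ∑ s ∈ A, ∑ x ∈ A, (if ρ s < ρ x then ∑ g ∈ H s, ∑ q ∈ H x,
            (if G.Adj g q then ovl A C tl ρ X L w u om f s x g q else 0) else 0) := by
  have h1 := wgt_raw hρ hK hXC hU hu hom hT hV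
  have h2 : ∑ y ∈ A, ∑ z ∈ A, (if ρ y < ρ z then ∑ p ∈ C y, ∑ c ∈ C z,
            (if G.Adj p c then cw A C ρ X Us u om lm lmJ y z p c else 0) else 0)
      + ∑ y ∈ A, ∑ z ∈ A, (if ρ y < ρ z then ∑ p ∈ C y, ∑ c ∈ C z,
            (if G.Adj p c then o y z p c else 0) else 0)
      ≤ ∑ y ∈ A, ∑ z ∈ A, (if ρ y < ρ z then ee G (C y) (C z) else 0) := by
    rw [← sum_add_distrib]
    refine sum_le_sum fun y hy => ?_
    rw [← sum_add_distrib]
    refine sum_le_sum fun z hz => ?_
    by_cases h : ρ y < ρ z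
    · simp only [if_pos h]
      unfold ee
      rw [← sum_add_distrib]
      refine sum_le_sum fun p hp => ?_
      rw [dg_sum, ← sum_add_distrib]
      refine sum_le_sum fun c hc => ?_
      by_cases h3 : G.Adj p c
      · simp only [if_pos h3]
        exact ho y hy z hz h p hp c hc h3
      · simp only [if_neg h3, add_zero, le_refl]
    · simp only [if_neg h, add_zero, le_refl]
  have h3 : ∑ s ∈ A, ∑ x ∈ A, (if ρ s < ρ x then ∑ g ∈ H s, ∑ q ∈ H x,
            (if G.Adj g q then chg A C tl ρ X L w u om f s x g q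
              + chg A C tl ρ X L w u om f x s q g else 0) else 0)
      ≤ ∑ s ∈ A, ∑ x ∈ A, (if ρ s < ρ x then ee G (H s) (H x) else 0)
        + ∑ s ∈ A, ∑ x ∈ A, (if ρ s < ρ x then ∑ g ∈ H s, ∑ q ∈ H x,
            (if G.Adj g q then ovl A C tl ρ X L w u om f s x g q else 0) else 0) := by
    rw [← sum_add_distrib]
    refine sum_le_sum fun s _ => ?_
    rw [← sum_add_distrib]
    refine sum_le_sum fun x _ => ?_
    by_cases h : ρ s < ρ x
    · simp only [if_pos h]
      unfold ee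
      rw [← sum_add_distrib]
      refine sum_le_sum fun g _ => ?_
      rw [dg_sum, ← sum_add_distrib]
      refine sum_le_sum fun q _ => ?_
      by_cases h4 : G.Adj g q
      · simp only [if_pos h4]
        unfold ovl
        have := le_max_right (0 : ℚ) (chg A C tl ρ X L w u om f s x g q
          + chg A C tl ρ X L w u om f x s q g - 1)
        linarith
      · simp only [if_neg h4, add_zero, le_refl]
    · simp only [if_neg h, add_zero, le_refl]
  linarith

/-- the charge: only the tail of `g` counts -/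
lemma chg_eq (hK : KDs F A C H tl X L w) {s x : ι} (hs : s ∈ A) {g q : V} :
    chg A C tl ρ X L w u om f s x g q
      = if tl g ∈ A.erase s ∧ g ∈ WL X w s (tl g) then
        (u x * (if tl g = x then (if ρ x < ρ s ∧ tl q = s then 1 else 0) else
          (if (tl q = s ∧ q ∉ KX X L w x s) ∨ (tl q = tl g ∧ q ∉ KX X L w x (tl g)) then f x q
            else 0)) + Om A ρ om x s * (if tl q ∈ A then 1 else 0)) / (C s).card else 0 := by
  unfold chg
  have h1 : ∀ t ∈ A.erase s, t ≠ tl g → g ∉ (X s t).image (w s t) := by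
    intro t ht hne hg
    obtain ⟨a, ha, rfl⟩ := mem_image.1 hg
    exact hne (mem_arc.1 ((hK s hs t (mem_of_mem_erase ht) (ne_of_mem_erase ht).symm).mem a
      ha).1).2.symm
  by_cases h2 : tl g ∈ A.erase s
  · rw [sum_eq_single_of_mem _ h2 fun t ht hne => if_neg (h1 t ht hne)]
    unfold WL
    simp only [h2, true_and]
  · have h3 : ¬ (tl g ∈ A.erase s ∧ g ∈ WL X w s (tl g)) := fun h => h2 h.1
    rw [if_neg h3]
    refine sum_eq_zero fun t ht => ?_
    rw [if_neg (h1 t ht ?_)]
    rintro rfl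
    exact h2 ht

lemma WL_of {x z : ι} {q : V} (h1 : q ∈ WL X w x z) (h2 : q ∉ KX X L w x z) :
    q ∈ WL L w x z := by
  obtain ⟨a, ha, rfl⟩ := mem_image.1 h1
  refine mem_image.2 ⟨a, ?_, rfl⟩
  by_contra hcon
  exact h2 (mem_image.2 ⟨a, mem_sdiff.2 ⟨ha, hcon⟩, rfl⟩)

/-- **the overload for factors at most one** -/
lemma ovl_le (hK : KDs F A C H tl X L w) (hC : ∀ z ∈ A, (C z).Nonempty)
    (hu : ∀ x ∈ A, 0 ≤ u x) (hom : ∀ j ∈ A, 0 ≤ om j)
    (hf : ∀ x ∈ A, ∀ q ∈ H x, f x q ≤ 1)
    (hw : ∀ x ∈ A, ∀ z ∈ A, x ≠ z → u x + Om A ρ om x z ≤ (C z).card)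
    {s x : ι} (hs : s ∈ A) (hx : x ∈ A) (hsx : ρ s < ρ x) {g q : V} (hg : g ∈ H s) (hq : q ∈ H x) :
    ovl A C tl ρ X L w u om f s x g q ≤ ∑ t ∈ (A.erase s).erase x,
      ((if g ∈ WL L w s t ∧ q ∈ WL L w x t then th1 A C ρ u om s x else 0)
        + ((if g ∈ KX X L w s t ∧ q ∈ WL L w x t then th2 A C ρ u om s x else 0)
          + (if g ∈ WL X w s t ∧ q ∈ WL L w x s then th2 A C ρ u om s x else 0))) := by
  have hne : s ≠ x := by
    rintro rfl
    exact lt_irrefl _ hsx
  have cs : (0 : ℚ) < (C s).card := by exact_mod_cast card_pos.2 (hC s hs)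
  have cx : (0 : ℚ) < (C x).card := by exact_mod_cast card_pos.2 (hC x hx)
  have t1 : 0 ≤ th1 A C ρ u om s x := le_max_left _ _
  have t2 : 0 ≤ th2 A C ρ u om s x := le_max_left _ _
  have t1' : u x / (C s).card + (u s + Om A ρ om s x) / (C x).card - 1 ≤ th1 A C ρ u om s x :=
    le_max_right _ _
  have t2' : u x / (C s).card + Om A ρ om s x / (C x).card - 1 ≤ th2 A C ρ u om s x :=
    le_max_right _ _
  have hO := Om_nonneg (ρ := ρ) hom s x
  have hux := hu x hx
  have hus := hu s hs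
  have k0 : ∀ t ∈ (A.erase s).erase x,
      0 ≤ ((if g ∈ WL L w s t ∧ q ∈ WL L w x t then th1 A C ρ u om s x else 0)
        + ((if g ∈ KX X L w s t ∧ q ∈ WL L w x t then th2 A C ρ u om s x else 0)
          + (if g ∈ WL X w s t ∧ q ∈ WL L w x s then th2 A C ρ u om s x else 0))) := by
    intro t _
    refine add_nonneg ?_ (add_nonneg ?_ ?_) <;> split_ifs <;> first | assumption | exact le_refl _
  unfold ovl
  refine max_le (sum_nonneg k0) ?_
  -- bounds of the two charges
  have b2 : chg A C tl ρ X L w u om f x s q g ≤ (u s + Om A ρ om s x) / (C x).card := by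
    rw [chg_eq hK hx]
    by_cases h1 : tl q ∈ A.erase x ∧ q ∈ WL X w x (tl q)
    · rw [if_pos h1]
      refine div_le_div_of_nonneg_right (add_le_add ?_ ?_) cx.le
      · refine mul_le_of_le_one_right hus ?_
        split_ifs
        · exact le_refl _
        · exact zero_le_one
        · exact hf s hs g hg
        · exact zero_le_one
      · refine mul_le_of_le_one_right hO ?_
        split_ifs
        · exact le_refl _
        · exact zero_le_one
    · rw [if_neg h1]
      exact div_nonneg (add_nonneg hus hO) cx.le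
  have b2' : (u s + Om A ρ om s x) / (C x).card ≤ 1 := by
    rw [div_le_one cx]
    exact hw s hs x hx hne
  have b1' : u x / (C s).card ≤ 1 := by
    rw [div_le_one cs]
    have h1 := hw x hx s hs hne.symm
    have h2 := Om_nonneg (ρ := ρ) hom x s
    linarith
  by_cases P1 : (tl g ∈ A.erase s ∧ g ∈ WL X w s (tl g)) ∧ tl g ≠ x ∧
      ((tl q = s ∧ q ∉ KX X L w x s) ∨ (tl q = tl g ∧ q ∉ KX X L w x (tl g)))
  · obtain ⟨⟨g1, g2⟩, g3, g4⟩ := P1
    have e1 : chg A C tl ρ X L w u om f s x g q = u x * f x q / (C s).card := by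
      rw [chg_eq hK hs, if_pos ⟨g1, g2⟩, if_neg g3, if_pos g4, Om_zero hsx.le]
      ring
    have e2 : u x * f x q / (C s).card ≤ u x / (C s).card :=
      div_le_div_of_nonneg_right (mul_le_of_le_one_right hux (hf x hx q hq)) cs.le
    have hmem : tl g ∈ (A.erase s).erase x := mem_erase.2 ⟨g3, g1⟩
    have k1 := single_le_sum k0 hmem
    refine le_trans ?_ k1
    have m1 : 0 ≤ (if g ∈ WL L w s (tl g) ∧ q ∈ WL L w x (tl g) then th1 A C ρ u om s x
        else 0) := by
      split_ifs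
      · exact t1
      · exact le_refl _
    have m2 : 0 ≤ (if g ∈ KX X L w s (tl g) ∧ q ∈ WL L w x (tl g) then th2 A C ρ u om s x
        else 0) := by
      split_ifs
      · exact t2
      · exact le_refl _
    have m3 : 0 ≤ (if g ∈ WL X w s (tl g) ∧ q ∈ WL L w x s then th2 A C ρ u om s x
        else 0) := by
      split_ifs
      · exact t2
      · exact le_refl _
    by_cases P2 : tl q ∈ A.erase x ∧ q ∈ WL X w x (tl q)
    · obtain ⟨q1, q2⟩ := P2
      have e3 : chg A C tl ρ X L w u om f x s q g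
          = (u s * (if tl q = s then (if ρ s < ρ x ∧ tl g = x then 1 else 0) else
          (if (tl g = x ∧ g ∉ KX X L w s x) ∨ (tl g = tl q ∧ g ∉ KX X L w s (tl q)) then f s g
            else 0)) + Om A ρ om s x * (if tl g ∈ A then 1 else 0)) / (C x).card := by
        rw [chg_eq hK hx, if_pos ⟨q1, q2⟩]
      rw [if_pos (mem_of_mem_erase g1), mul_one] at e3
      rcases g4 with ⟨h1, h2⟩ | ⟨h1, h2⟩
      · -- the tail of `q` is `s`
        rw [if_pos h1, if_neg (fun h' => g3 h'.2), mul_zero, zero_add] at e3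
        rw [h1] at q2
        have h3 : q ∈ WL L w x s := WL_of q2 h2
        rw [if_pos (And.intro g2 h3)]
        linarith
      · have h4 : tl q ≠ s := by
          rw [h1]
          exact ne_of_mem_erase g1
        rw [h1] at q2
        have h3 : q ∈ WL L w x (tl g) := WL_of q2 h2
        by_cases h5 : g ∈ KX X L w s (tl g)
        · rw [if_neg h4, if_neg, mul_zero, zero_add] at e3
          · rw [if_pos (And.intro h5 h3)]
            linarith
          · rintro (h6 | h6)
            · exact g3 h6.1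
            · rw [h1] at h6
              exact h6.2 h5
        · have h6 : g ∈ WL L w s (tl g) := WL_of g2 h5
          rw [if_pos (And.intro h6 h3)]
          linarith
    · have e3 : chg A C tl ρ X L w u om f x s q g = 0 := by
        rw [chg_eq hK hx, if_neg P2]
      linarith
  · have e1 : chg A C tl ρ X L w u om f s x g q = 0 := by
      rw [chg_eq hK hs]
      by_cases h1 : tl g ∈ A.erase s ∧ g ∈ WL X w s (tl g)
      · rw [if_pos h1, Om_zero hsx.le]
        by_cases h2 : tl g = x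
        · rw [if_pos h2, if_neg (fun h' => absurd h'.1 (not_lt.2 hsx.le))]
          simp
        · rw [if_neg h2, if_neg (fun h' => P1 ⟨h1, h2, h'⟩)]
          simp
      · rw [if_neg h1]
    have := sum_nonneg k0
    linarith

/-- the overload of a pair of homes -/
lemma ovl_sum (hK : KDs F A C H tl X L w) (hC : ∀ z ∈ A, (C z).Nonempty)
    (hu : ∀ x ∈ A, 0 ≤ u x) (hom : ∀ j ∈ A, 0 ≤ om j)
    (hf : ∀ x ∈ A, ∀ q ∈ H x, f x q ≤ 1)
    (hw : ∀ x ∈ A, ∀ z ∈ A, x ≠ z → u x + Om A ρ om x z ≤ (C z).card)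
    (hLX : ∀ s ∈ A, ∀ t ∈ A, s ≠ t → L s t ⊆ X s t)
    {s x : ι} (hs : s ∈ A) (hx : x ∈ A) (hsx : ρ s < ρ x) :
    ∑ g ∈ H s, ∑ q ∈ H x, (if G.Adj g q then ovl A C tl ρ X L w u om f s x g q else 0)
      ≤ lossP G A C ρ X L w u om s x := by
  have hne : s ≠ x := by
    rintro rfl
    exact lt_irrefl _ hsx
  have h1 : ∀ g ∈ H s, ∀ q ∈ H x, (if G.Adj g q then ovl A C tl ρ X L w u om f s x g q else 0)
      ≤ ∑ t ∈ (A.erase s).erase x,
      (th1 A C ρ u om s x * (if G.Adj g q ∧ g ∈ WL L w s t ∧ q ∈ WL L w x t then 1 else 0)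
        + th2 A C ρ u om s x * ((if G.Adj g q ∧ g ∈ KX X L w s t ∧ q ∈ WL L w x t then 1 else 0)
          + (if G.Adj g q ∧ g ∈ WL X w s t ∧ q ∈ WL L w x s then 1 else 0))) := by
    intro g hg q hq
    by_cases h2 : G.Adj g q
    · rw [if_pos h2]
      refine (ovl_le hK hC hu hom hf hw hs hx hsx hg hq).trans (le_of_eq ?_)
      refine sum_congr rfl fun t _ => ?_
      simp only [h2, true_and, mul_add, mul_ite, mul_one, mul_zero]
    · simp only [h2, false_and, if_false, add_zero, mul_zero, sum_const_zero, le_refl]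
  refine (sum_le_sum fun g hg => sum_le_sum fun q hq => h1 g hg q hq).trans ?_
  have h2 : ∀ P Q : Finset V, P ⊆ H s → Q ⊆ H x →
      ∑ g ∈ H s, ∑ q ∈ H x, (if G.Adj g q ∧ g ∈ P ∧ q ∈ Q then (1 : ℚ) else 0) = ee G P Q := by
    intro P Q hP hQ
    have eP : P = (H s).filter (fun g => g ∈ P) := by
      rw [filter_mem_eq_inter, inter_eq_right.2 hP]
    have eQ : Q = (H x).filter (fun q => q ∈ Q) := by
      rw [filter_mem_eq_inter, inter_eq_right.2 hQ]
    unfold ee
    conv_rhs => rw [eP]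
    rw [sum_filter]
    refine sum_congr rfl fun g _ => ?_
    by_cases h3 : g ∈ P
    · rw [if_pos h3, dg_sum]
      conv_rhs => rw [eQ]
      rw [sum_filter]
      refine sum_congr rfl fun q _ => ?_
      by_cases h4 : q ∈ Q
      · simp only [h3, h4, and_true, if_true]
      · simp only [h4, and_false, if_false]
    · simp only [h3, false_and, and_false, if_false, sum_const_zero]
  have hW : ∀ a ∈ A, ∀ b ∈ A, a ≠ b → WL X w a b ⊆ H a := by
    intro a ha b hb hab g hg
    obtain ⟨c, hc, rfl⟩ := mem_image.1 hg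
    exact (mem_arc.1 ((hK a ha b hb hab).mem c hc).1).1
  have hWL : ∀ a ∈ A, ∀ b ∈ A, a ≠ b → WL L w a b ⊆ H a := fun a ha b hb hab =>
    (image_subset_image (hLX a ha b hb hab)).trans (hW a ha b hb hab)
  have hWK : ∀ a ∈ A, ∀ b ∈ A, a ≠ b → KX X L w a b ⊆ H a := fun a ha b hb hab =>
    (image_subset_image sdiff_subset).trans (hW a ha b hb hab)
  unfold lossP
  rw [sum_congr rfl fun g _ => sum_comm, sum_comm]
  refine sum_le_sum fun t ht => le_of_eq ?_
  have htx := ne_of_mem_erase ht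
  have hts := ne_of_mem_erase (mem_of_mem_erase ht)
  have htA := mem_of_mem_erase (mem_of_mem_erase ht)
  rw [← h2 _ _ (hWL s hs t htA hts.symm) (hWL x hx t htA htx.symm),
    ← h2 _ _ (hWK s hs t htA hts.symm) (hWL x hx t htA htx.symm),
    ← h2 _ _ (hW s hs t htA hts.symm) (hWL x hx s hs hne.symm)]
  simp only [sum_add_distrib, ← mul_sum]

end Budget

end Pool.Agent.Lib.MP_f04ccf_co
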