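import Pool.Agent.Lib.MP_f04ccf_co.M.WgtH

/-!
MP_f04ccf_co: the combined load statement (*_L).  `WSys.budget`: hosts with arbitrary values and layers
against all adjacent pairs between the slots.  `WSys.host_T`, `layer_V`: the hypotheses for the split
cover numbers and for the law in legal shape.  `WSys.star`: the combined load statement.
-/

set_option autoImplicit false

namespace Pool.Agent.Lib.MP_f04ccf_co

open Finset

attribute [local instance] Classical.propDecidable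

section BudgetI

variable {ι V : Type*} {G F : SimpleGraph V} {A : Finset ι} {C H : ι → Finset V} {tl : V → ι}
  {ρ : ι → ℕ} {X L : ι → ι → Finset V} {w : ι → ι → V → V} {Us : ι → ι → V → Finset V}
  {u om : ι → ℚ} {lm : ι → ι → ι → ℚ} {lmJ : ι → ι → ι → ι → ℚ} {f : ι → V → ℚ}

lemma ee_union_left {P Q : Finset V} (h : Disjoint P Q) (R : Finset V) :
    ee G (P ∪ Q) R = ee G P R + ee G Q R := by
  unfold ee
  rw [sum_union h]

lemma ee_union_right {P Q : Finset V} (h : Disjoint P Q) (R : Finset V) :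
    ee G R (P ∪ Q) = ee G R P + ee G R Q := by
  rw [ee_comm, ee_union_left h, ee_comm P R, ee_comm Q R]

/-- the adjacent pairs between the slots -/
lemma WSys.ee_slots (h : WSys G F A C H tl) (hρ : ∀ x ∈ A, ∀ y ∈ A, ρ x = ρ y → x = y) :
    ∑ x ∈ A, ∑ z ∈ A.erase x, ee G (C z) (H x)
        + ∑ y ∈ A, ∑ z ∈ A, (if ρ y < ρ z then ee G (C y) (C z) else 0)
        + ∑ s ∈ A, ∑ x ∈ A, (if ρ s < ρ x then ee G (H s) (H x) else 0)
      = ∑ y ∈ A, ∑ z ∈ A, (if ρ y < ρ z then ee G (C y ∪ H y) (C z ∪ H z) else 0) := by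
  rw [sum_rank hρ, ← sum_add_distrib, ← sum_add_distrib]
  refine sum_congr rfl fun y hy => ?_
  rw [← sum_add_distrib, ← sum_add_distrib]
  refine sum_congr rfl fun z hz => ?_
  by_cases h1 : ρ y < ρ z
  · simp only [if_pos h1]
    rw [ee_union_left (h.dHC y hy y hy).symm, ee_union_right (h.dHC z hz z hz).symm,
      ee_union_right (h.dHC z hz z hz).symm, ee_comm (C z) (H y)]
    ring
  · simp only [if_neg h1, add_zero]

/-- **the budget** -/
theorem WSys.budget (h : WSys G F A C H tl) (hρ : ∀ x ∈ A, ∀ y ∈ A, ρ x = ρ y → x = y)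
    (hK : KDs F A C H tl X L w)
    (hU : ∀ x ∈ A, ∀ z ∈ A, x ≠ z → ∀ c ∈ C z, ∀ a ∈ Us x z c, a ∈ X x z ∧ G.Adj c a)
    (hu : ∀ x ∈ A, 0 ≤ u x) (hom : ∀ j ∈ A, 0 ≤ om j)
    (hf : ∀ x ∈ A, ∀ q ∈ H x, f x q ≤ 1)
    (hw : ∀ x ∈ A, ∀ z ∈ A, x ≠ z → u x + Om A ρ om x z ≤ (C z).card) {T R vl : ι → ℚ}
    (hT : ∀ x ∈ A, T x ≤ ∑ z ∈ A.erase x, JW G A C H ρ X w x (fun z => arc H tl x z)
        (fun z c => ((Us x z c).card : ℚ))
        (fun s t a => ∑ q ∈ NF G H tl X L w x s t a, f x q) (lm x) z + R x)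
    (hV : ∀ j ∈ A, vl j ≤ ∑ x ∈ A.filter (fun x => ρ x < ρ j),
        ∑ z ∈ A.filter (fun z => ρ j ≤ ρ z), JW G A C H ρ X w x (fun _ => Hin H tl A x)
        (fun _ c => (dg G (C x) c : ℚ)) (fun s t a => (dg G (Hin H tl A x) (w s t a) : ℚ))
        (lmJ j x) z)
    {o : ι → ι → V → V → ℚ} (ho : ∀ y ∈ A, ∀ z ∈ A, ρ y < ρ z → ∀ p ∈ C y, ∀ c ∈ C z,
      G.Adj p c → cw A C ρ X Us u om lm lmJ y z p c + o y z p c ≤ 1) :
    ∑ x ∈ A, u x * T x + ∑ j ∈ A, om j * vl j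
      + ∑ y ∈ A, ∑ z ∈ A, (if ρ y < ρ z then ∑ p ∈ C y, ∑ c ∈ C z,
            (if G.Adj p c then o y z p c else 0) else 0)
      + ∑ x ∈ A, ∑ z ∈ A.erase x, (1 - (u x + Om A ρ om x z) / (C z).card) * ee G (C z) (H x)
      ≤ ∑ y ∈ A, ∑ z ∈ A, (if ρ y < ρ z then ee G (C y ∪ H y) (C z ∪ H z) else 0)
        + ∑ x ∈ A, u x * R x
        + ∑ s ∈ A, ∑ x ∈ A, (if ρ s < ρ x then lossP G A C ρ X L w u om s x else 0) := by
  have hXC : ∀ s ∈ A, ∀ t ∈ A, s ≠ t → X s t ⊆ C s := fun s hs t ht hst => (hK s hs t ht hst).XP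
  have hLX : ∀ s ∈ A, ∀ t ∈ A, s ≠ t → L s t ⊆ X s t := fun s hs t ht hst =>
    (hK s hs t ht hst).LX
  have h1 := wgt_budget hρ hK hXC hU hu hom hT hV ho
  have h2 : ∑ s ∈ A, ∑ x ∈ A, (if ρ s < ρ x then ∑ g ∈ H s, ∑ q ∈ H x,
            (if G.Adj g q then ovl A C tl ρ X L w u om f s x g q else 0) else 0)
      ≤ ∑ s ∈ A, ∑ x ∈ A, (if ρ s < ρ x then lossP G A C ρ X L w u om s x else 0) := by
    refine sum_le_sum fun s hs => sum_le_sum fun x hx => ?_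
    by_cases h3 : ρ s < ρ x
    · simp only [if_pos h3]
      exact ovl_sum hK h.ne hu hom hf hw hLX hs hx h3
    · simp only [if_neg h3, le_refl]
  have h3 := h.ee_slots hρ
  have h4 : ∑ x ∈ A, ∑ z ∈ A.erase x, (1 - (u x + Om A ρ om x z) / (C z).card) * ee G (C z) (H x)
      + ∑ x ∈ A, ∑ z ∈ A.erase x, (u x + Om A ρ om x z) / (C z).card * ee G (C z) (H x)
      = ∑ x ∈ A, ∑ z ∈ A.erase x, ee G (C z) (H x) := by
    rw [← sum_add_distrib]
    refine sum_congr rfl fun x _ => ?_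
    rw [← sum_add_distrib]
    refine sum_congr rfl fun z _ => ?_
    ring
  linarith

/-- the values of the hosts: split cover numbers -/
theorem WSys.host_T {KP LP : ι → ι → V → Finset V} {Lm : ι → ι → ι → Finset V}
    (h : WSys G F A C H tl) (hK : KDs F A C H tl X L w)
    (hU : UDs G F A C H tl X L w KP LP Us)
    (hρ : ∀ x ∈ A, ∀ y ∈ A, ρ x = ρ y → x = y) (hLm : LMs F A H tl ρ Lm) {x : ι} (hx : x ∈ A) :
    (spn F tl (H x) (C x) (A.erase x) : ℚ) ≤ ∑ z ∈ A.erase x,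
      JW G A C H ρ X w x (fun z => arc H tl x z) (fun z c => ((Us x z c).card : ℚ))
        (fun s t a => ∑ _q ∈ NF G H tl X L w x s t a, (1 : ℚ))
        (fun y z => ((Lm x y z).card : ℚ)) z := by
  refine host_avg h.ne (fun s hs t ht hst => (hK s hs t ht hst).XP) hx _ _
    (fun _ _ _ => sum_nonneg fun _ _ => zero_le_one) (fun _ _ => Nat.cast_nonneg _) fun c hc => ?_
  have h1 := h.single' hK hU hρ hLm hx hc
  have h2 : (spn F tl (H x) (C x) (A.erase x) : ℚ) ≤ ((∑ z ∈ A.erase x, (dg G (H x) (c z)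
        + (if ρ x < ρ z ∧ c z ∈ X z x then dg G (arc H tl x z) (w z x (c z))
            else (Us x z (c z)).card)
        + ∑ y ∈ A.erase x, (if ρ y < ρ z ∧ c z ∈ X z y then (NF G H tl X L w x z y (c z)).card
            else 0))
      + ∑ y ∈ A.erase x, ∑ z ∈ A.erase x,
          (if ρ y < ρ z ∧ G.Adj (c y) (c z) ∧ c z ∉ X z y then
            (if c y ∈ X y z then (NF G H tl X L w x y z (c y)).card else (Lm x y z).card)
            else 0) : ℕ) : ℚ) := by exact_mod_cast h1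
  refine h2.trans (le_of_eq ?_)
  push_cast
  simp only [sum_const, nsmul_eq_mul, mul_one]

/-- the values of the layers: the law for sets of legal shape -/
theorem layer_V (hC : ∀ z ∈ A, (C z).Nonempty) (hXC : ∀ s ∈ A, ∀ t ∈ A, s ≠ t → X s t ⊆ C s)
    (hρ : ∀ x ∈ A, ∀ y ∈ A, ρ x = ρ y → x = y) {k : ℕ} {Lj : ι → ι → ι → Finset V}
    (hL : ∀ y ∈ A, ∀ z ∈ A, k ≤ ρ y → ρ y < ρ z →
      (∀ x ∈ A, ρ x < k → ∀ v ∈ H x, tl v = y → v ∈ Lj x y z) ∨
      (∀ x ∈ A, ρ x < k → ∀ v ∈ H x, tl v = z → v ∈ Lj x y z)) {vl : ℚ} (v0 : V)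
    (hv : ∀ c : ι → V, (∀ z ∈ A, k ≤ ρ z → c z ∈ C z) → ∀ D : Finset V,
      LegD G C H tl X w A (A.filter fun x => ρ x < k) c D → vl ≤ D.card) :
    vl ≤ ∑ x ∈ A.filter (fun x => ρ x < k), ∑ z ∈ A.filter (fun z => k ≤ ρ z),
      JW G A C H ρ X w x (fun _ => Hin H tl A x)
        (fun _ c => (dg G (C x) c : ℚ)) (fun s t a => (dg G (Hin H tl A x) (w s t a) : ℚ))
        (fun y z => ((Lj x y z).card : ℚ)) z := by
  refine layer_avg hC hXC (fun x _ => Hin H tl A x) (fun x _ c => (dg G (C x) c : ℚ))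
    (NN := fun x s t a => (dg G (Hin H tl A x) (w s t a) : ℚ))
    (lm := fun x y z => ((Lj x y z).card : ℚ))
    (fun _ _ _ _ => Nat.cast_nonneg _) (fun _ _ _ => Nat.cast_nonneg _) v0 fun c hc => ?_
  have h1 := layerL (G := G) (C := C) (tl := tl) (X := X) (w := w) hρ
    (B := A.filter fun x => ρ x < k) (Q := A.filter fun x => k ≤ ρ x) rfl rfl (Lm := Lj)
    (fun y hy z hz hyz => by
      obtain ⟨hyA, hyk⟩ := mem_filter.1 hy
      obtain ⟨hzA, hzk⟩ := mem_filter.1 hz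
      rcases hL y hyA z hzA hyk hyz with h2 | h2
      · exact Or.inl fun x hx => h2 x (mem_filter.1 hx).1 (mem_filter.1 hx).2
      · exact Or.inr fun x hx => h2 x (mem_filter.1 hx).1 (mem_filter.1 hx).2)
    (c := c) (vl := vl) (hv c fun z hz hzk => hc z (mem_filter.2 ⟨hz, hzk⟩))
  refine h1.trans (le_of_eq ?_)
  refine sum_congr rfl fun x hx => ?_
  obtain ⟨hxA, hxk⟩ := mem_filter.1 hx
  push_cast
  congr 1
  refine sum_congr rfl fun z hz => ?_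
  obtain ⟨hzA, hzk⟩ := mem_filter.1 hz
  have hxz : ρ x < ρ z := by omega
  rw [← add_sum_erase A _ hxA]
  by_cases h2 : c z ∈ X z x
  · rw [if_pos h2, if_pos ⟨hxz, h2⟩, if_pos ⟨hxz, h2⟩]
    ring
  · rw [if_neg h2, if_neg (fun h3 => h2 h3.2), if_neg (fun h3 => h2 h3.2)]
    ring

/-- **the combined load statement (*_L)** -/
theorem WSys.star {KP LP : ι → ι → V → Finset V} {Lm : ι → ι → ι → Finset V}
    {Lj : ι → ι → ι → ι → Finset V} (h : WSys G F A C H tl)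
    (hρ : ∀ x ∈ A, ∀ y ∈ A, ρ x = ρ y → x = y) (hK : KDs F A C H tl X L w)
    (hU : UDs G F A C H tl X L w KP LP Us) (hLm : LMs F A H tl ρ Lm)
    (hLj : ∀ j ∈ A, ∀ y ∈ A, ∀ z ∈ A, ρ j ≤ ρ y → ρ y < ρ z →
      (∀ x ∈ A, ρ x < ρ j → ∀ v ∈ H x, tl v = y → v ∈ Lj j x y z) ∨
      (∀ x ∈ A, ρ x < ρ j → ∀ v ∈ H x, tl v = z → v ∈ Lj j x y z))
    (hu : ∀ x ∈ A, 0 ≤ u x) (hom : ∀ j ∈ A, 0 ≤ om j)
    (hw : ∀ x ∈ A, ∀ z ∈ A, x ≠ z → u x + Om A ρ om x z ≤ (C z).card) {vl : ι → ℚ}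
    (hvl : ∀ j ∈ A, ∀ c : ι → V, (∀ z ∈ A, ρ j ≤ ρ z → c z ∈ C z) → ∀ D : Finset V,
      LegD G C H tl X w A (A.filter fun x => ρ x < ρ j) c D → vl j ≤ D.card)
    {o : ι → ι → V → V → ℚ} (ho : ∀ y ∈ A, ∀ z ∈ A, ρ y < ρ z → ∀ p ∈ C y, ∀ c ∈ C z,
      G.Adj p c → cw A C ρ X Us u om (fun x y z => ((Lm x y z).card : ℚ))
        (fun j x y z => ((Lj j x y z).card : ℚ)) y z p c + o y z p c ≤ 1) :
    ∑ x ∈ A, u x * (spn F tl (H x) (C x) (A.erase x) : ℚ) + ∑ j ∈ A, om j * vl j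
      + ∑ y ∈ A, ∑ z ∈ A, (if ρ y < ρ z then ∑ p ∈ C y, ∑ c ∈ C z,
            (if G.Adj p c then o y z p c else 0) else 0)
      + ∑ x ∈ A, ∑ z ∈ A.erase x, (1 - (u x + Om A ρ om x z) / (C z).card) * ee G (C z) (H x)
      ≤ ∑ y ∈ A, ∑ z ∈ A, (if ρ y < ρ z then ee G (C y ∪ H y) (C z ∪ H z) else 0)
        + ∑ s ∈ A, ∑ x ∈ A, (if ρ s < ρ x then lossP G A C ρ X L w u om s x else 0) := by
  have hXC : ∀ s ∈ A, ∀ t ∈ A, s ≠ t → X s t ⊆ C s := fun s hs t ht hst => (hK s hs t ht hst).XP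
  have h1 := h.budget (f := fun _ _ => 1) (R := fun _ => 0)
    (T := fun x => (spn F tl (H x) (C x) (A.erase x) : ℚ)) (vl := vl)
    (lm := fun x y z => ((Lm x y z).card : ℚ)) (lmJ := fun j x y z => ((Lj j x y z).card : ℚ))
    (u := u) (om := om) (o := o)
    hρ hK hU.sub hu hom (fun _ _ _ _ => le_refl _) hw (fun x hx => by
      rw [add_zero]
      exact h.host_T hK hU hρ hLm hx) (fun j hj => by
      obtain ⟨v0, -⟩ := h.ne j hj
      exact layer_V h.ne hXC hρ (hLj j hj) v0 (hvl j hj)) ho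
  simp only [mul_zero, sum_const_zero, add_zero] at h1
  exact h1

end BudgetI

end Pool.Agent.Lib.MP_f04ccf_co
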