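import Pool.Agent.Lib.MP_f04ccf_co.M.WgtI
import Pool.Agent.Lib.MP_f04ccf_co.M.Srt

/-!
MP_f04ccf_co: the combined load statement (*_L), the weights.  `stU`, `stO`: `u_1 = c_2`, `u_x = c_1` for
the other hosts, `om_j = c_j - c_(j-1)` for `j ≥ 3` (in rank order).  `st_hw`: the condition of the
budget.  `st_sum`: the values.  `cw_le`: the cells under the condition (LAM).  `lossP_le`: the loss in
terms of the sizes of `X`, `L`.
-/

set_option autoImplicit false

namespace Pool.Agent.Lib.MP_f04ccf_co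

open Finset

attribute [local instance] Classical.propDecidable

section Wts

variable {ι V : Type*} {G F : SimpleGraph V} {A : Finset ι} {C H : ι → Finset V} {tl : V → ι}
  {ρ : ι → ℕ} {σ : ℕ → ι} {tt : ι → ℤ} {X L : ι → ι → Finset V} {w : ι → ι → V → V}
  {Us : ι → ι → V → Finset V} {u om : ι → ℚ} {lm : ι → ι → ι → ℚ} {lmJ : ι → ι → ι → ι → ℚ}

/-- the weights of the hosts -/
noncomputable def stU (C : ι → Finset V) (ρ : ι → ℕ) (σ : ℕ → ι) (x : ι) : ℚ :=
  if ρ x = 0 then (C (σ 1)).card else (C (σ 0)).card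

/-- the weights of the layers -/
noncomputable def stO (C : ι → Finset V) (ρ : ι → ℕ) (σ : ℕ → ι) (j : ι) : ℚ :=
  if 2 ≤ ρ j then ((C j).card : ℚ) - (C (σ (ρ j - 1))).card else 0

lemma tele (g : ℕ → ℚ) {a b : ℕ} (h : a ≤ b) : ∑ i ∈ Ioc a b, (g i - g (i - 1)) = g b - g a := by
  induction b, h using Nat.le_induction with
  | base => simp
  | succ n hn ih =>
    have e1 : Ioc a (n + 1) = insert (n + 1) (Ioc a n) := by
      ext i
      simp only [mem_Ioc, mem_insert]
      omega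
    rw [e1, sum_insert (by simp), ih, Nat.add_sub_cancel]
    ring

/-- the layers between two rows -/
lemma stOm (hR : Rank A tt ρ σ) {x z : ι} (hz : z ∈ A) :
    Om A ρ (stO C ρ σ) x z = if max (ρ x) 1 < ρ z then
      ((C z).card : ℚ) - (C (σ (max (ρ x) 1))).card else 0 := by
  unfold Om
  rw [hR.sum (fun j => if ρ x < ρ j ∧ ρ j ≤ ρ z then stO C ρ σ j else 0)]
  have hzn := hR.lt z hz
  set g : ℕ → ℚ := fun i => ((C (σ i)).card : ℚ) with hg
  have e1 : ∀ i ∈ range A.card, (if ρ x < ρ (σ i) ∧ ρ (σ i) ≤ ρ z then stO C ρ σ (σ i) else 0)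
      = (if max (ρ x) 1 < i ∧ i ≤ ρ z then g i - g (i - 1) else 0) := by
    intro i hi
    rw [hR.right i (mem_range.1 hi)]
    unfold stO
    rw [hR.right i (mem_range.1 hi)]
    by_cases h1 : ρ x < i ∧ i ≤ ρ z
    · rw [if_pos h1]
      by_cases h2 : 2 ≤ i
      · rw [if_pos h2, if_pos ⟨by omega, h1.2⟩]
      · rw [if_neg h2, if_neg (by omega)]
    · rw [if_neg h1, if_neg (by omega)]
  rw [sum_congr rfl e1, ← sum_filter]
  have e2 : (range A.card).filter (fun i => max (ρ x) 1 < i ∧ i ≤ ρ z)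
      = Ioc (max (ρ x) 1) (ρ z) := by
    ext i
    simp only [mem_filter, mem_range, mem_Ioc]
    omega
  rw [e2]
  by_cases h1 : max (ρ x) 1 < ρ z
  · rw [if_pos h1, tele g h1.le, hg]
    simp only
    rw [hR.left z hz]
  · rw [if_neg h1, Ioc_eq_empty (by omega), sum_empty]

lemma stU_nonneg (x : ι) : 0 ≤ stU C ρ σ x := by
  unfold stU
  split_ifs <;> exact Nat.cast_nonneg _

lemma stO_nonneg (hR : Rank A tt ρ σ)
    (hm : ∀ x ∈ A, ∀ y ∈ A, ρ x ≤ ρ y → (C x).card ≤ (C y).card) {j : ι} (hj : j ∈ A) :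
    0 ≤ stO C ρ σ j := by
  unfold stO
  split_ifs with h
  · have h1 := hR.lt j hj
    have h2 := hm (σ (ρ j - 1)) (hR.mem _ (by omega)) j hj (by rw [hR.right _ (by omega)]; omega)
    have h3 : ((C (σ (ρ j - 1))).card : ℚ) ≤ (C j).card := by exact_mod_cast h2
    linarith
  · exact le_refl _

/-- **the condition of the budget** -/
lemma st_hw (hR : Rank A tt ρ σ)
    (hm : ∀ x ∈ A, ∀ y ∈ A, ρ x ≤ ρ y → (C x).card ≤ (C y).card) :
    ∀ x ∈ A, ∀ z ∈ A, x ≠ z → stU C ρ σ x + Om A ρ (stO C ρ σ) x z ≤ (C z).card := by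
  intro x hx z hz hxz
  have hne : ρ x ≠ ρ z := fun h => hxz (hR.inj hx hz h)
  have hxn := hR.lt x hx
  have hzn := hR.lt z hz
  rw [stOm hR hz]
  unfold stU
  by_cases h0 : ρ x = 0
  · have h2 : 1 < A.card := by omega
    rw [if_pos h0, h0, max_eq_right (by norm_num)]
    by_cases h1 : 1 < ρ z
    · rw [if_pos h1]
      linarith
    · rw [if_neg h1, add_zero]
      have h3 := hm (σ 1) (hR.mem _ h2) z hz (by rw [hR.right _ h2]; omega)
      exact_mod_cast h3
  · rw [if_neg h0, max_eq_left (by omega)]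
    have h2 : 0 < A.card := by omega
    have h4 : ∀ y ∈ A, ((C (σ 0)).card : ℚ) ≤ (C y).card := fun y hy => by
      exact_mod_cast hm (σ 0) (hR.mem _ h2) y hy (by rw [hR.right _ h2]; omega)
    by_cases h1 : ρ x < ρ z
    · rw [if_pos h1, hR.left x hx]
      have := h4 x hx
      linarith
    · rw [if_neg h1, add_zero]
      exact h4 z hz

/-- **the values** -/
lemma st_sum (hR : Rank A tt ρ σ) (h2 : 2 ≤ A.card) (T vl : ι → ℚ) :
    ∑ x ∈ A, stU C ρ σ x * T x + ∑ j ∈ A, stO C ρ σ j * vl j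
      = (C (σ 0)).card * ∑ x ∈ A, T x + ((C (σ 1)).card - (C (σ 0)).card) * T (σ 0)
        + ∑ i ∈ Ico 2 A.card, ((C (σ i)).card - (C (σ (i - 1))).card) * vl (σ i) := by
  congr 1
  · have h3 : σ 0 ∈ A := hR.mem 0 (by omega)
    rw [← add_sum_erase A _ h3, ← add_sum_erase A T h3]
    have e1 : stU C ρ σ (σ 0) = (C (σ 1)).card := by
      unfold stU
      rw [if_pos (hR.right 0 (by omega))]
    have e2 : ∑ x ∈ A.erase (σ 0), stU C ρ σ x * T x
        = (C (σ 0)).card * ∑ x ∈ A.erase (σ 0), T x := by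
      rw [mul_sum]
      refine sum_congr rfl fun x hx => ?_
      unfold stU
      rw [if_neg]
      intro h4
      refine ne_of_mem_erase hx (hR.inj (mem_of_mem_erase hx) h3 ?_)
      rw [h4, hR.right 0 (by omega)]
    rw [e1, e2]
    ring
  · rw [hR.sum (fun j => stO C ρ σ j * vl j)]
    have e1 : ∀ i ∈ range A.card, stO C ρ σ (σ i) * vl (σ i)
        = if 2 ≤ i then (((C (σ i)).card : ℚ) - (C (σ (i - 1))).card) * vl (σ i) else 0 := by
      intro i hi
      unfold stO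
      rw [hR.right i (mem_range.1 hi)]
      split_ifs
      · rfl
      · rw [zero_mul]
    rw [sum_congr rfl e1, ← sum_filter]
    refine sum_congr ?_ fun _ _ => rfl
    ext i
    simp only [mem_filter, mem_range, mem_Ico]
    omega

/-- **the cells**: outside `X` the condition (LAM) is needed -/
lemma cw_le (hC : ∀ z ∈ A, (C z).Nonempty) (hu : ∀ x ∈ A, 0 ≤ u x) (hom : ∀ j ∈ A, 0 ≤ om j)
    (hw : ∀ x ∈ A, ∀ z ∈ A, x ≠ z → u x + Om A ρ om x z ≤ (C z).card) {y z : ι} (hy : y ∈ A)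
    (hz : z ∈ A) (hyz : ρ y < ρ z)
    (hL : LLc A ρ u om lm lmJ y z ≤ (C y).card * ((C z).card - Om A ρ om y z)) (p c : V)
    (hp : p ∈ Us y z c → p ∈ X y z) :
    cw A C ρ X Us u om lm lmJ y z p c ≤ 1 := by
  have hne : y ≠ z := by
    rintro rfl
    exact lt_irrefl _ hyz
  have cy : (0 : ℚ) < (C y).card := by exact_mod_cast card_pos.2 (hC y hy)
  have cz : (0 : ℚ) < (C z).card := by exact_mod_cast card_pos.2 (hC z hz)
  have h1 := hw y hy z hz hne
  have h2 := hw z hz y hy hne.symm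
  have h3 := Om_nonneg (ρ := ρ) hom z y
  have h4 := Om_nonneg (ρ := ρ) hom y z
  have h5 := hu y hy
  have h6 := hu z hz
  unfold cw
  by_cases c1 : c ∈ X z y
  · rw [if_pos c1]
    split_ifs
    · rw [div_le_one cy]
      linarith
    · exact zero_le_one
  · rw [if_neg c1]
    by_cases c2 : p ∈ X y z
    · rw [if_pos c2, add_zero]
      split_ifs
      · rw [← add_div, div_le_one cz]
        exact h1
      · rw [zero_add, div_le_one cz]
        linarith
    · rw [if_neg c2, if_neg (fun h => c2 (hp h)), zero_add]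
      have e1 : Om A ρ om y z / (C z).card + LLc A ρ u om lm lmJ y z / ((C y).card * (C z).card)
          = ((C y).card * Om A ρ om y z + LLc A ρ u om lm lmJ y z) / ((C y).card * (C z).card) := by
        field_simp
      rw [e1, div_le_one (mul_pos cy cz)]
      linarith

lemma th1_le (hC : ∀ z ∈ A, (C z).Nonempty) (hu : ∀ x ∈ A, 0 ≤ u x)
    (hw : ∀ x ∈ A, ∀ z ∈ A, x ≠ z → u x + Om A ρ om x z ≤ (C z).card) {s x : ι} (hs : s ∈ A)
    (hx : x ∈ A) (hsx : s ≠ x) : th1 A C ρ u om s x ≤ u x / (C s).card := by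
  have cx : (0 : ℚ) < (C x).card := by exact_mod_cast card_pos.2 (hC x hx)
  have h1 : (u s + Om A ρ om s x) / (C x).card ≤ 1 := by
    rw [div_le_one cx]
    exact hw s hs x hx hsx
  unfold th1
  refine max_le (div_nonneg (hu x hx) (Nat.cast_nonneg _)) ?_
  linarith

lemma th2_le (hC : ∀ z ∈ A, (C z).Nonempty) (hu : ∀ x ∈ A, 0 ≤ u x) {s x : ι} (hs : s ∈ A)
    (hx : x ∈ A) : th2 A C ρ u om s x ≤ th1 A C ρ u om s x := by
  have cx : (0 : ℚ) < (C x).card := by exact_mod_cast card_pos.2 (hC x hx)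
  unfold th1 th2
  refine max_le_max (le_refl _) ?_
  have h1 : Om A ρ om s x / (C x).card ≤ (u s + Om A ρ om s x) / (C x).card :=
    div_le_div_of_nonneg_right (by linarith [hu s hs]) cx.le
  linarith

lemma ee_le (P Q : Finset V) : ee G P Q ≤ P.card * Q.card := by
  unfold ee
  rw [← nsmul_eq_mul, ← sum_const]
  refine sum_le_sum fun p _ => ?_
  unfold dg
  exact_mod_cast card_le_card (filter_subset _ _)

/-- **the loss of a pair of homes** in terms of sizes -/
lemma lossP_le (hK : KDs F A C H tl X L w) {s x : ι} (hs : s ∈ A) (hx : x ∈ A) :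
    lossP G A C ρ X L w u om s x ≤ ∑ t ∈ (A.erase s).erase x,
      (th1 A C ρ u om s x * ((L s t).card * (L x t).card)
        + th2 A C ρ u om s x * (((X s t).card - (L s t).card) * (L x t).card
          + (X s t).card * (L x s).card)) := by
  unfold lossP
  refine sum_le_sum fun t ht => ?_
  have hts := ne_of_mem_erase (mem_of_mem_erase ht)
  have htA := mem_of_mem_erase (mem_of_mem_erase ht)
  have hk := hK s hs t htA hts.symm
  have w1 : ∀ (L' : ι → ι → Finset V) (a b : ι), ((WL L' w a b).card : ℚ) ≤ (L' a b).card :=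
    fun L' a b => by exact_mod_cast card_image_le
  have w2 : ((KX X L w s t).card : ℚ) ≤ (X s t).card - (L s t).card := by
    have h1 : (KX X L w s t).card ≤ (X s t \ L s t).card := card_image_le
    have h2 := card_sdiff_add_card_eq_card hk.LX
    have h3 : ((KX X L w s t).card : ℚ) ≤ ((X s t \ L s t).card : ℚ) := by exact_mod_cast h1
    have h4 : ((X s t \ L s t).card : ℚ) + (L s t).card = (X s t).card := by exact_mod_cast h2
    linarith
  have t1 : 0 ≤ th1 A C ρ u om s x := le_max_left _ _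
  have t2 : 0 ≤ th2 A C ρ u om s x := le_max_left _ _
  have n0 : ∀ P : Finset V, (0 : ℚ) ≤ P.card := fun P => Nat.cast_nonneg _
  refine add_le_add (mul_le_mul_of_nonneg_left ?_ t1) (mul_le_mul_of_nonneg_left
    (add_le_add ?_ ?_) t2)
  · exact (ee_le _ _).trans (mul_le_mul (w1 L s t) (w1 L x t) (n0 _) (n0 _))
  · refine (ee_le _ _).trans (mul_le_mul w2 (w1 L x t) (n0 _) ?_)
    exact (n0 _).trans w2
  · exact (ee_le _ _).trans (mul_le_mul (w1 X s t) (w1 L x s) (n0 _) (n0 _))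

/-- **(*_L) with the standard weights** under the condition (LAM), without leftover -/
theorem WSys.star_st {KP LP : ι → ι → V → Finset V} {Lm : ι → ι → ι → Finset V}
    {Lj : ι → ι → ι → ι → Finset V} (h : WSys G F A C H tl) (hR : Rank A tt ρ σ)
    (h2 : 2 ≤ A.card) (hm : ∀ x ∈ A, ∀ y ∈ A, ρ x ≤ ρ y → (C x).card ≤ (C y).card)
    (hK : KDs F A C H tl X L w) (hU : UDs G F A C H tl X L w KP LP Us) (hLm : LMs F A H tl ρ Lm)
    (hLj : ∀ j ∈ A, ∀ y ∈ A, ∀ z ∈ A, ρ j ≤ ρ y → ρ y < ρ z →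
      (∀ x ∈ A, ρ x < ρ j → ∀ v ∈ H x, tl v = y → v ∈ Lj j x y z) ∨
      (∀ x ∈ A, ρ x < ρ j → ∀ v ∈ H x, tl v = z → v ∈ Lj j x y z)) {vl : ι → ℚ}
    (hvl : ∀ j ∈ A, ∀ c : ι → V, (∀ z ∈ A, ρ j ≤ ρ z → c z ∈ C z) → ∀ D : Finset V,
      LegD G C H tl X w A (A.filter fun x => ρ x < ρ j) c D → vl j ≤ D.card)
    (hLAM : ∀ y ∈ A, ∀ z ∈ A, ρ y < ρ z →
      LLc A ρ (stU C ρ σ) (stO C ρ σ) (fun x y z => ((Lm x y z).card : ℚ))
        (fun j x y z => ((Lj j x y z).card : ℚ)) y z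
      ≤ (C y).card * ((C z).card - Om A ρ (stO C ρ σ) y z)) :
    (C (σ 0)).card * ∑ x ∈ A, (spn F tl (H x) (C x) (A.erase x) : ℚ)
      + ((C (σ 1)).card - (C (σ 0)).card)
        * (spn F tl (H (σ 0)) (C (σ 0)) (A.erase (σ 0)) : ℚ)
      + ∑ i ∈ Ico 2 A.card, (((C (σ i)).card : ℚ) - (C (σ (i - 1))).card) * vl (σ i)
      ≤ ∑ y ∈ A, ∑ z ∈ A, (if ρ y < ρ z then ee G (C y ∪ H y) (C z ∪ H z) else 0)
        + ∑ s ∈ A, ∑ x ∈ A, (if ρ s < ρ x then
          lossP G A C ρ X L w (stU C ρ σ) (stO C ρ σ) s x else 0) := by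
  have hρ : ∀ x ∈ A, ∀ y ∈ A, ρ x = ρ y → x = y := fun x hx y hy => hR.inj hx hy
  have hw := st_hw (C := C) hR hm
  have h1 := h.star (u := stU C ρ σ) (om := stO C ρ σ) hρ hK hU hLm hLj
    (fun x _ => stU_nonneg x) (fun j hj => stO_nonneg hR hm hj) hw hvl (o := fun _ _ _ _ => 0)
    (fun y hy z hz hyz p hp c hc _ => by
      rw [add_zero]
      refine cw_le h.ne (fun x _ => stU_nonneg x) (fun j hj => stO_nonneg hR hm hj) hw hy hz hyz
        (hLAM y hy z hz hyz) p c fun h5 => ?_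
      have hne : y ≠ z := by
        rintro rfl
        exact lt_irrefl _ hyz
      exact (hU.sub y hy z hz hne c hc p h5).1)
  rw [← st_sum hR h2]
  have h3 : ∑ y ∈ A, ∑ z ∈ A, (if ρ y < ρ z then ∑ p ∈ C y, ∑ c ∈ C z,
            (if G.Adj p c then (0 : ℚ) else 0) else 0) = 0 := by
    simp only [ite_self, sum_const_zero]
  have h4 : 0 ≤ ∑ x ∈ A, ∑ z ∈ A.erase x,
      (1 - (stU C ρ σ x + Om A ρ (stO C ρ σ) x z) / (C z).card) * ee G (C z) (H x) := by
    refine sum_nonneg fun x hx => sum_nonneg fun z hz => mul_nonneg ?_ (ee_nonneg _ _)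
    have hzA := mem_of_mem_erase hz
    have cz : (0 : ℚ) < (C z).card := by exact_mod_cast card_pos.2 (h.ne z hzA)
    rw [sub_nonneg, div_le_one cz]
    exact hw x hx z hzA (ne_of_mem_erase hz).symm
  linarith

end Wts

end Pool.Agent.Lib.MP_f04ccf_co
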