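import Pool.Agent.Lib.MP_f04ccf_co.M.WgtJ
import Pool.Agent.Lib.MP_f04ccf_co.M.WgtS
import Pool.Agent.Lib.MP_f04ccf_co.M.LegJ
import Pool.Agent.Lib.MP_f04ccf_co.M.Enum

/-!
MP_f04ccf_co: the combined load statement (*_L) for minimal `j`-closed systems.  `MQSys.wsys`: the slots
of such a system.  `exists_lms`, `LjS`: the data.  `MQSys.lay_V`: the layers.
`MQSys.star_int`: the budget in the basic integers, arbitrary values of the hosts.
-/

set_option autoImplicit false

namespace Pool.Agent.Lib.MP_f04ccf_co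

open Finset

attribute [local instance] Classical.propDecidable

section Data

variable {ι V : Type*} {G F : SimpleGraph V} {A : Finset ι} {C H : ι → Finset V} {tl : V → ι}
  {ρ : ι → ℕ}

/-- smallest covers of the half-served pairs exist -/
theorem exists_lms (F : SimpleGraph V) (A : Finset ι) (H : ι → Finset V) (tl : V → ι)
    (ρ : ι → ℕ) : ∃ Lm : ι → ι → ι → Finset V, LMs F A H tl ρ Lm ∧
      ∀ x y z, (Lm x y z).card ≤ (arc H tl x y).card ∧ (Lm x y z).card ≤ (arc H tl x z).card := by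
  have key : ∀ x y z, ∃ D : Finset V, D ⊆ H x ∧ (∀ p ∈ H x, ∀ q ∈ H x, F.Adj p q → tl p = y →
      tl q = z → p ∈ D ∨ q ∈ D) ∧ D.card ≤ (arc H tl x y).card ∧
      D.card ≤ (arc H tl x z).card := by
    intro x y z
    obtain ⟨K, hK, L, hL, hcov, ⟨m, hm, hm2⟩, m', hm', hm2'⟩ := konig F (arc H tl x y)
      (arc H tl x z)
    refine ⟨K ∪ L, union_subset (hK.trans (filter_subset _ _)) (hL.trans (filter_subset _ _)),
      fun p hp q hq hpq h1 h2 => ?_, ?_, ?_⟩
    · rcases hcov p (mem_arc.2 ⟨hp, h1⟩) q (mem_arc.2 ⟨hq, h2⟩) hpq with h3 | h3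
      · exact Or.inl (mem_union_left _ h3)
      · exact Or.inr (mem_union_right _ h3)
    · have h1 : L.card ≤ (arc H tl x y \ K).card := by
        rw [← card_image_of_injOn hm']
        refine card_le_card fun v hv => ?_
        obtain ⟨a, ha, rfl⟩ := mem_image.1 hv
        exact (hm2' a ha).1
      have h2 := card_union_le K L
      have h3 := card_sdiff_add_card_eq_card hK
      omega
    · have h1 : K.card ≤ (arc H tl x z \ L).card := by
        rw [← card_image_of_injOn hm]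
        refine card_le_card fun v hv => ?_
        obtain ⟨a, ha, rfl⟩ := mem_image.1 hv
        exact (hm2 a ha).1
      have h2 := card_union_le K L
      have h3 := card_sdiff_add_card_eq_card hL
      omega
  choose D h1 h2 h3 h4 using key
  exact ⟨D, fun x _ y _ z _ _ _ _ => ⟨h1 x y z, h2 x y z⟩, fun x y z => ⟨h3 x y z, h4 x y z⟩⟩

/-- the corrections of the layers: the smaller one of the two sets of arcs -/
noncomputable def LjS (A : Finset ι) (H : ι → Finset V) (tl : V → ι) (ρ : ι → ℕ) (j x y z : ι) :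
    Finset V :=
  if ∑ x ∈ A.filter (fun x => ρ x < ρ j), (arc H tl x y).card
    ≤ ∑ x ∈ A.filter (fun x => ρ x < ρ j), (arc H tl x z).card then arc H tl x y
  else arc H tl x z

lemma LjS_ok (j : ι) {y z : ι} :
    (∀ x ∈ A, ρ x < ρ j → ∀ v ∈ H x, tl v = y → v ∈ LjS A H tl ρ j x y z) ∨
      (∀ x ∈ A, ρ x < ρ j → ∀ v ∈ H x, tl v = z → v ∈ LjS A H tl ρ j x y z) := by
  unfold LjS
  split_ifs
  · exact Or.inl fun x _ _ v hv ht => mem_arc.2 ⟨hv, ht⟩
  · exact Or.inr fun x _ _ v hv ht => mem_arc.2 ⟨hv, ht⟩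

/-- the sum of the corrections of a layer -/
lemma LjS_sum (j : ι) {y z : ι} : ∑ x ∈ A, (if ρ x < ρ j then
      ((LjS A H tl ρ j x y z).card : ℚ) else 0)
      ≤ min (∑ x ∈ A.filter (fun x => ρ x < ρ j), ((arc H tl x y).card : ℚ))
        (∑ x ∈ A.filter (fun x => ρ x < ρ j), ((arc H tl x z).card : ℚ)) := by
  rw [← sum_filter]
  unfold LjS
  split_ifs with h
  · refine le_min (le_refl _) ?_
    exact_mod_cast h
  · refine le_min ?_ (le_refl _)
    exact_mod_cast (not_le.1 h).le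

end Data

section SysK

variable {V : Type*} {G : SimpleGraph V} {Z T : Finset V} {hm : V → V} {r m t j : ℕ}

/-- **the slots of a minimal `j`-closed system** -/
theorem MQSys.wsys (hF : PFrame G r m t Z T) (hh : Homes G Z T hm) (hj : 2 ≤ j)
    {A S : Finset V} (h : MQSys r (JSys G Z T j) A S) (hS : ∀ v ∈ S, hm v ∈ A ∧ hm v ∈ rws G T v) :
    WSys G (co G) A (CP G Z T (fun x => S.filter fun v => hm v = x))
      (HP G Z T (fun x => S.filter fun v => hm v = x)) (tlo G T hm) := by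
  refine ((h.q.hsys hF hj).csys hF hS).wsys hF hh fun y hy => ?_
  have h1 := (hS y (h.q.ctr hy)).2
  rw [rws_of_mem (h.q.sub hy), mem_singleton] at h1
  exact mem_filter.2 ⟨h.q.ctr hy, h1⟩

/-- **the layers of a minimal `j`-closed system** -/
theorem MQSys.lay_V (hF : PFrame G r m t Z T) (hh : Homes G Z T hm) (hj : 2 ≤ j)
    {A S : Finset V} (h : MQSys r (JSys G Z T j) A S) (hS : ∀ v ∈ S, hm v ∈ A ∧ hm v ∈ rws G T v)
    {ρ : V → ℕ} (hρ : ∀ x ∈ A, ∀ y ∈ A, ρ x = ρ y → x = y)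
    {X L : V → V → Finset V} {w : V → V → V → V}
    (hK : KDs (co G) A (CP G Z T (fun x => S.filter fun v => hm v = x))
      (HP G Z T (fun x => S.filter fun v => hm v = x)) (tlo G T hm) X L w)
    {i : V} (hi : i ∈ A) {Lj : V → V → V → Finset V}
    (hL : ∀ y ∈ A, ∀ z ∈ A, ρ i ≤ ρ y → ρ y < ρ z →
      (∀ x ∈ A, ρ x < ρ i → ∀ v ∈ HP G Z T (fun x => S.filter fun v => hm v = x) x,
        tlo G T hm v = y → v ∈ Lj x y z) ∨
      (∀ x ∈ A, ρ x < ρ i → ∀ v ∈ HP G Z T (fun x => S.filter fun v => hm v = x) x,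
        tlo G T hm v = z → v ∈ Lj x y z)) :
    ((∑ x ∈ A.filter (fun x => ρ x < ρ i), sI hm r S x : ℤ) : ℚ)
      ≤ ∑ x ∈ A.filter (fun x => ρ x < ρ i), ∑ z ∈ A.filter (fun z => ρ i ≤ ρ z),
      JW G A (CP G Z T (fun x => S.filter fun v => hm v = x))
        (HP G Z T (fun x => S.filter fun v => hm v = x)) ρ X w x
        (fun _ => Hin (HP G Z T (fun x => S.filter fun v => hm v = x)) (tlo G T hm) A x)
        (fun _ c => (dg G (CP G Z T (fun x => S.filter fun v => hm v = x) x) c : ℚ))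
        (fun s t a => (dg G (Hin (HP G Z T (fun x => S.filter fun v => hm v = x)) (tlo G T hm)
          A x) (w s t a) : ℚ))
        (fun y z => ((Lj x y z).card : ℚ)) z := by
  have hW := h.wsys hF hh hj hS
  refine layer_V hW.ne (fun s hs t ht hst => (hK s hs t ht hst).XP) hρ hL i fun c hc D hD => ?_
  have hB : A.filter (fun x => ρ x < ρ i) ⊂ A := by
    refine ⟨filter_subset _ _, fun h1 => ?_⟩
    exact lt_irrefl _ (mem_filter.1 (h1 hi)).2
  have h1 := h.leg_val hF hh hj hS hK hB (c := c) (fun z hz => ?_) hD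
  · refine le_trans (le_of_eq ?_) h1
    rw [Int.cast_sum]
    refine sum_congr rfl fun x _ => ?_
    unfold sI
    push_cast
    rfl
  · obtain ⟨hzA, hzB⟩ := mem_sdiff.1 hz
    exact hc z hzA (not_lt.1 fun h3 => hzB (mem_filter.2 ⟨hzA, h3⟩))

/-- the adjacent pairs between two slots -/
lemma EI_ee (S : Finset V) (y z : V) :
    ((EI G hm S y z : ℤ) : ℚ) = ee G (CP G Z T (fun x => S.filter fun v => hm v = x) y
        ∪ HP G Z T (fun x => S.filter fun v => hm v = x) y)
      (CP G Z T (fun x => S.filter fun v => hm v = x) z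
        ∪ HP G Z T (fun x => S.filter fun v => hm v = x) z) := by
  rw [CP_union_HP, CP_union_HP, ee_comm]
  unfold EI ee
  push_cast
  rfl

/-- the size of a class part -/
lemma card_CP_tI (S : Finset V) (x : V) :
    ((CP G Z T (fun x => S.filter fun v => hm v = x) x).card : ℚ)
      = (r : ℚ) - 1 - (tI G Z T hm r S x : ℤ) := by
  unfold tI
  push_cast
  ring

lemma Rank.mono_C {A S : Finset V} {ρ : V → ℕ} {σ : ℕ → V}
    (hR : Rank A (tI G Z T hm r S) ρ σ) : ∀ x ∈ A, ∀ y ∈ A, ρ x ≤ ρ y →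
      (CP G Z T (fun x => S.filter fun v => hm v = x) x).card
        ≤ (CP G Z T (fun x => S.filter fun v => hm v = x) y).card := by
  intro x hx y hy hxy
  have h1 := hR.anti' hx hy hxy
  unfold tI at h1
  have h2 : ((CP G Z T (fun x => S.filter fun v => hm v = x) x).card : ℤ)
      ≤ (CP G Z T (fun x => S.filter fun v => hm v = x) y).card := by linarith
  exact_mod_cast h2

/-- **the budget in the basic integers**: the standard weights, arbitrary values of the hosts, all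
adjacent pairs counted twice -/
theorem MQSys.star_int (hF : PFrame G r m t Z T) (hh : Homes G Z T hm) (hj : 2 ≤ j)
    {A S : Finset V} (h : MQSys r (JSys G Z T j) A S) (hS : ∀ v ∈ S, hm v ∈ A ∧ hm v ∈ rws G T v)
    {ρ : V → ℕ} {σ : ℕ → V} (hR : Rank A (tI G Z T hm r S) ρ σ)
    {C H : V → Finset V} (hC : C = CP G Z T (fun x => S.filter fun v => hm v = x))
    (hH : H = HP G Z T (fun x => S.filter fun v => hm v = x))
    {X L : V → V → Finset V} {w : V → V → V → V} (hK : KDs (co G) A C H (tlo G T hm) X L w)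
    {Us : V → V → V → Finset V}
    (hU : ∀ x ∈ A, ∀ z ∈ A, x ≠ z → ∀ c ∈ C z, ∀ a ∈ Us x z c, a ∈ X x z ∧ G.Adj c a)
    {f : V → V → ℚ} (hf : ∀ x ∈ A, ∀ q ∈ H x, f x q ≤ 1) {lm : V → V → V → ℚ} {τ R : V → ℚ}
    (hT : ∀ x ∈ A, τ x ≤ ∑ z ∈ A.erase x, JW G A C H ρ X w x (fun z => arc H (tlo G T hm) x z)
        (fun z c => ((Us x z c).card : ℚ))
        (fun s t a => ∑ q ∈ NF G H (tlo G T hm) X L w x s t a, f x q) (lm x) z + R x)
    {o : V → V → V → V → ℚ} (ho : ∀ y ∈ A, ∀ z ∈ A, ρ y < ρ z → ∀ p ∈ C y, ∀ c ∈ C z,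
      G.Adj p c → cw A C ρ X Us (stU C ρ σ) (stO C ρ σ) lm
        (fun i x y z => ((LjS A H (tlo G T hm) ρ i x y z).card : ℚ)) y z p c + o y z p c ≤ 1) :
    2 * (((r : ℚ) - 1 - (tI G Z T hm r S (σ 0) : ℤ)) * ∑ x ∈ A, τ x
        + ((tI G Z T hm r S (σ 0) : ℤ) - (tI G Z T hm r S (σ 1) : ℤ)) * τ (σ 0)
        + ∑ i ∈ Ico 2 A.card, ((tI G Z T hm r S (σ (i - 1)) : ℤ) - (tI G Z T hm r S (σ i) : ℤ))
          * ((∑ k ∈ range i, sI hm r S (σ k) : ℤ) : ℚ)
        + ∑ y ∈ A, ∑ z ∈ A, (if ρ y < ρ z then ∑ p ∈ C y, ∑ c ∈ C z,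
            (if G.Adj p c then o y z p c else 0) else 0)
        + ∑ x ∈ A, ∑ z ∈ A.erase x,
          (1 - (stU C ρ σ x + Om A ρ (stO C ρ σ) x z) / (C z).card) * ee G (C z) (H x))
      ≤ ((∑ i ∈ range A.card, ∑ k ∈ (range A.card).erase i, EI G hm S (σ i) (σ k) : ℤ) : ℚ)
        + 2 * (∑ x ∈ A, stU C ρ σ x * R x
        + ∑ s ∈ A, ∑ x ∈ A, (if ρ s < ρ x then
          lossP G A C ρ X L w (stU C ρ σ) (stO C ρ σ) s x else 0)) := by
  subst hC hH
  have hρ : ∀ x ∈ A, ∀ y ∈ A, ρ x = ρ y → x = y := fun x hx y hy => hR.inj hx hy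
  have hW := h.wsys hF hh hj hS
  have hm' := hR.mono_C
  have h1 := hW.budget (f := f) (R := R) (T := τ) (lm := lm)
    (vl := fun i => ((∑ x ∈ A.filter (fun x => ρ x < ρ i), sI hm r S x : ℤ) : ℚ))
    (lmJ := fun i x y z => ((LjS A (HP G Z T (fun x => S.filter fun v => hm v = x))
      (tlo G T hm) ρ i x y z).card : ℚ))
    (u := stU (CP G Z T (fun x => S.filter fun v => hm v = x)) ρ σ)
    (om := stO (CP G Z T (fun x => S.filter fun v => hm v = x)) ρ σ) (o := o)
    hρ hK hU (fun x _ => stU_nonneg x) (fun i hi => stO_nonneg hR hm' hi) hf (st_hw hR hm') hT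
    (fun i hi => h.lay_V hF hh hj hS hρ hK hi fun y _ z _ _ _ => LjS_ok i) ho
  rw [st_sum hR h.two] at h1
  simp only [← EI_ee] at h1
  have h2 : 2 * ∑ y ∈ A, ∑ z ∈ A, (if ρ y < ρ z then ((EI G hm S y z : ℤ) : ℚ) else 0)
      = ((∑ i ∈ range A.card, ∑ k ∈ (range A.card).erase i, EI G hm S (σ i) (σ k) : ℤ) : ℚ) := by
    have e1 := sum_rank hρ fun y z => ((EI G hm S y z : ℤ) : ℚ)
    have e2 := hR.sum2 fun y z => EI G hm S y z
    rw [← e2]
    push_cast
    rw [e1, mul_sum]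
    refine sum_congr rfl fun y _ => ?_
    rw [mul_sum]
    refine sum_congr rfl fun z _ => ?_
    rw [EI_comm S z y]
    split_ifs
    · ring
    · ring
  have h3 : ∀ i ∈ Ico 2 A.card, ∑ x ∈ A.filter (fun x => ρ x < ρ (σ i)), sI hm r S x
      = ∑ k ∈ range i, sI hm r S (σ k) := by
    intro i hi
    have hi' := (mem_Ico.1 hi).2
    rw [hR.right i hi']
    exact hR.sum_lt _ hi'.le
  have h4 : ∑ i ∈ Ico 2 A.card,
      (((CP G Z T (fun x => S.filter fun v => hm v = x) (σ i)).card : ℚ)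
        - (CP G Z T (fun x => S.filter fun v => hm v = x) (σ (i - 1))).card)
        * ((∑ x ∈ A.filter (fun x => ρ x < ρ (σ i)), sI hm r S x : ℤ) : ℚ)
      = ∑ i ∈ Ico 2 A.card, ((tI G Z T hm r S (σ (i - 1)) : ℤ) - (tI G Z T hm r S (σ i) : ℤ))
          * ((∑ k ∈ range i, sI hm r S (σ k) : ℤ) : ℚ) := by
    refine sum_congr rfl fun i hi => ?_
    rw [h3 i hi, card_CP_tI (r := r), card_CP_tI (r := r)]
    ring
  rw [h4, card_CP_tI (r := r), card_CP_tI (r := r)] at h1
  rw [← h2]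
  linarith

end SysK

end Pool.Agent.Lib.MP_f04ccf_co
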