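import Pool.Agent.Lib.MP_f04ccf_co.M.WgtK
import Pool.Agent.Lib.MP_f04ccf_co.M.EnumU

/-!
MP_f04ccf_co: the combined load statement (*_L) with pair weights (note 16467).  `W x z` is the weight of
the adjacent pairs between the slots `x` and `z`; the hosts and layers have to satisfy
`u x + Om x z ≤ c_z W x z`.  `cw_le_pw`: the cells.  `WSys.budget_pw`, `WSys.star_pw`: the budget with
pair weights, `HSys.star_pw`: the same over the basic integers without layers, for every
home-free closed system with homes.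
-/

set_option autoImplicit false

namespace Pool.Agent.Lib.MP_f04ccf_co

open Finset

attribute [local instance] Classical.propDecidable

section DefP

variable {ι V : Type*}

/-- the overload of the edge `g`, `q` between the homes `s` and `x`, pair weights -/
noncomputable def ovlW (A : Finset ι) (C : ι → Finset V) (tl : V → ι) (ρ : ι → ℕ)
    (X L : ι → ι → Finset V) (w : ι → ι → V → V) (u om : ι → ℚ) (W : ι → ι → ℚ) (f : ι → V → ℚ)
    (s x : ι) (g q : V) : ℚ :=
  max 0 (chg A C tl ρ X L w u om f s x g q + chg A C tl ρ X L w u om f x s q g - W s x)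

/-- the first overload, pair weights -/
noncomputable def th1W (A : Finset ι) (C : ι → Finset V) (ρ : ι → ℕ) (u om : ι → ℚ)
    (W : ι → ι → ℚ) (s x : ι) : ℚ :=
  max 0 (u x / (C s).card + (u s + Om A ρ om s x) / (C x).card - W s x)

/-- the second overload (only layers), pair weights -/
noncomputable def th2W (A : Finset ι) (C : ι → Finset V) (ρ : ι → ℕ) (u om : ι → ℚ)
    (W : ι → ι → ℚ) (s x : ι) : ℚ :=
  max 0 (u x / (C s).card + Om A ρ om s x / (C x).card - W s x)

/-- the loss of the pair of homes `s`, `x`, pair weights -/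
noncomputable def lossW (G : SimpleGraph V) (A : Finset ι) (C : ι → Finset V) (ρ : ι → ℕ)
    (X L : ι → ι → Finset V) (w : ι → ι → V → V) (u om : ι → ℚ) (W : ι → ι → ℚ) (s x : ι) : ℚ :=
  ∑ t ∈ (A.erase s).erase x, (th1W A C ρ u om W s x * ee G (WL L w s t) (WL L w x t)
    + th2W A C ρ u om W s x * (ee G (KX X L w s t) (WL L w x t)
      + ee G (WL X w s t) (WL L w x s)))

end DefP

section BudgetP

variable {ι V : Type*} {G F : SimpleGraph V} {A : Finset ι} {C H : ι → Finset V} {tl : V → ι}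
  {ρ : ι → ℕ} {X L : ι → ι → Finset V} {w : ι → ι → V → V} {Us : ι → ι → V → Finset V}
  {u om : ι → ℚ} {W : ι → ι → ℚ} {lm : ι → ι → ι → ℚ} {lmJ : ι → ι → ι → ι → ℚ} {f : ι → V → ℚ}

/-- **the overload for factors at most one, pair weights** -/
lemma ovlW_le (hK : KDs F A C H tl X L w) (hC : ∀ z ∈ A, (C z).Nonempty)
    (hWs : ∀ x z, W x z = W z x)
    (hu : ∀ x ∈ A, 0 ≤ u x) (hom : ∀ j ∈ A, 0 ≤ om j)
    (hf : ∀ x ∈ A, ∀ q ∈ H x, f x q ≤ 1)
    (hw : ∀ x ∈ A, ∀ z ∈ A, x ≠ z → u x + Om A ρ om x z ≤ (C z).card * W x z)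
    {s x : ι} (hs : s ∈ A) (hx : x ∈ A) (hsx : ρ s < ρ x) {g q : V} (hg : g ∈ H s) (hq : q ∈ H x) :
    ovlW A C tl ρ X L w u om W f s x g q ≤ ∑ t ∈ (A.erase s).erase x,
      ((if g ∈ WL L w s t ∧ q ∈ WL L w x t then th1W A C ρ u om W s x else 0)
        + ((if g ∈ KX X L w s t ∧ q ∈ WL L w x t then th2W A C ρ u om W s x else 0)
          + (if g ∈ WL X w s t ∧ q ∈ WL L w x s then th2W A C ρ u om W s x else 0))) := by
  have hne : s ≠ x := by
    rintro rfl
    exact lt_irrefl _ hsx
  have cs : (0 : ℚ) < (C s).card := by exact_mod_cast card_pos.2 (hC s hs)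
  have cx : (0 : ℚ) < (C x).card := by exact_mod_cast card_pos.2 (hC x hx)
  have t1 : 0 ≤ th1W A C ρ u om W s x := le_max_left _ _
  have t2 : 0 ≤ th2W A C ρ u om W s x := le_max_left _ _
  have t1' : u x / (C s).card + (u s + Om A ρ om s x) / (C x).card - W s x
      ≤ th1W A C ρ u om W s x := le_max_right _ _
  have t2' : u x / (C s).card + Om A ρ om s x / (C x).card - W s x
      ≤ th2W A C ρ u om W s x := le_max_right _ _
  have hO := Om_nonneg (ρ := ρ) hom s x
  have hux := hu x hx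
  have hus := hu s hs
  have k0 : ∀ t ∈ (A.erase s).erase x,
      0 ≤ ((if g ∈ WL L w s t ∧ q ∈ WL L w x t then th1W A C ρ u om W s x else 0)
        + ((if g ∈ KX X L w s t ∧ q ∈ WL L w x t then th2W A C ρ u om W s x else 0)
          + (if g ∈ WL X w s t ∧ q ∈ WL L w x s then th2W A C ρ u om W s x else 0))) := by
    intro t _
    refine add_nonneg ?_ (add_nonneg ?_ ?_) <;> split_ifs <;> first | assumption | exact le_refl _
  unfold ovlW
  refine max_le (sum_nonneg k0) ?_
  -- bounds of the two charges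
  have b2 : chg A C tl ρ X L w u om f x s q g ≤ (u s + Om A ρ om s x) / (C x).card := by
    rw [chg_eq hK hx]
    by_cases h1 : tl q ∈ A.erase x ∧ q ∈ WL X w x (tl q)
    · rw [if_pos h1]
      refine div_le_div_of_nonneg_right (add_le_add ?_ ?_) cx.le
      · refine mul_le_of_le_one_right hus ?_
        split_ifs
        · exact le_refl _
        · exact zero_le_one
        · exact hf s hs g hg
        · exact zero_le_one
      · refine mul_le_of_le_one_right hO ?_
        split_ifs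
        · exact le_refl _
        · exact zero_le_one
    · rw [if_neg h1]
      exact div_nonneg (add_nonneg hus hO) cx.le
  have b2' : (u s + Om A ρ om s x) / (C x).card ≤ W s x := by
    rw [div_le_iff₀ cx, mul_comm]
    exact hw s hs x hx hne
  have b1' : u x / (C s).card ≤ W s x := by
    rw [div_le_iff₀ cs, mul_comm, hWs s x]
    have h1 := hw x hx s hs hne.symm
    have h2 := Om_nonneg (ρ := ρ) hom x s
    linarith
  by_cases P1 : (tl g ∈ A.erase s ∧ g ∈ WL X w s (tl g)) ∧ tl g ≠ x ∧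
      ((tl q = s ∧ q ∉ KX X L w x s) ∨ (tl q = tl g ∧ q ∉ KX X L w x (tl g)))
  · obtain ⟨⟨g1, g2⟩, g3, g4⟩ := P1
    have e1 : chg A C tl ρ X L w u om f s x g q = u x * f x q / (C s).card := by
      rw [chg_eq hK hs, if_pos ⟨g1, g2⟩, if_neg g3, if_pos g4, Om_zero hsx.le]
      ring
    have e2 : u x * f x q / (C s).card ≤ u x / (C s).card :=
      div_le_div_of_nonneg_right (mul_le_of_le_one_right hux (hf x hx q hq)) cs.le
    have hmem : tl g ∈ (A.erase s).erase x := mem_erase.2 ⟨g3, g1⟩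
    have k1 := single_le_sum k0 hmem
    refine le_trans ?_ k1
    have m1 : 0 ≤ (if g ∈ WL L w s (tl g) ∧ q ∈ WL L w x (tl g) then th1W A C ρ u om W s x
        else 0) := by
      split_ifs
      · exact t1
      · exact le_refl _
    have m2 : 0 ≤ (if g ∈ KX X L w s (tl g) ∧ q ∈ WL L w x (tl g) then th2W A C ρ u om W s x
        else 0) := by
      split_ifs
      · exact t2
      · exact le_refl _
    have m3 : 0 ≤ (if g ∈ WL X w s (tl g) ∧ q ∈ WL L w x s then th2W A C ρ u om W s x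
        else 0) := by
      split_ifs
      · exact t2
      · exact le_refl _
    by_cases P2 : tl q ∈ A.erase x ∧ q ∈ WL X w x (tl q)
    · obtain ⟨q1, q2⟩ := P2
      have e3 : chg A C tl ρ X L w u om f x s q g
          = (u s * (if tl q = s then (if ρ s < ρ x ∧ tl g = x then 1 else 0) else
          (if (tl g = x ∧ g ∉ KX X L w s x) ∨ (tl g = tl q ∧ g ∉ KX X L w s (tl q)) then f s g
            else 0)) + Om A ρ om s x * (if tl g ∈ A then 1 else 0)) / (C x).card := by
        rw [chg_eq hK hx, if_pos ⟨q1, q2⟩]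
      rw [if_pos (mem_of_mem_erase g1), mul_one] at e3
      rcases g4 with ⟨h1, h2⟩ | ⟨h1, h2⟩
      · -- the tail of `q` is `s`
        rw [if_pos h1, if_neg (fun h' => g3 h'.2), mul_zero, zero_add] at e3
        rw [h1] at q2
        have h3 : q ∈ WL L w x s := WL_of q2 h2
        rw [if_pos (And.intro g2 h3)]
        linarith
      · have h4 : tl q ≠ s := by
          rw [h1]
          exact ne_of_mem_erase g1
        rw [h1] at q2
        have h3 : q ∈ WL L w x (tl g) := WL_of q2 h2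
        by_cases h5 : g ∈ KX X L w s (tl g)
        · rw [if_neg h4, if_neg, mul_zero, zero_add] at e3
          · rw [if_pos (And.intro h5 h3)]
            linarith
          · rintro (h6 | h6)
            · exact g3 h6.1
            · rw [h1] at h6
              exact h6.2 h5
        · have h6 : g ∈ WL L w s (tl g) := WL_of g2 h5
          rw [if_pos (And.intro h6 h3)]
          linarith
    · have e3 : chg A C tl ρ X L w u om f x s q g = 0 := by
        rw [chg_eq hK hx, if_neg P2]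
      linarith
  · have e1 : chg A C tl ρ X L w u om f s x g q = 0 := by
      rw [chg_eq hK hs]
      by_cases h1 : tl g ∈ A.erase s ∧ g ∈ WL X w s (tl g)
      · rw [if_pos h1, Om_zero hsx.le]
        by_cases h2 : tl g = x
        · rw [if_pos h2, if_neg (fun h' => absurd h'.1 (not_lt.2 hsx.le))]
          simp
        · rw [if_neg h2, if_neg (fun h' => P1 ⟨h1, h2, h'⟩)]
          simp
      · rw [if_neg h1]
    have := sum_nonneg k0
    linarith

/-- the overload of a pair of homes, pair weights -/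
lemma ovlW_sum (hK : KDs F A C H tl X L w) (hC : ∀ z ∈ A, (C z).Nonempty)
    (hWs : ∀ x z, W x z = W z x)
    (hu : ∀ x ∈ A, 0 ≤ u x) (hom : ∀ j ∈ A, 0 ≤ om j)
    (hf : ∀ x ∈ A, ∀ q ∈ H x, f x q ≤ 1)
    (hw : ∀ x ∈ A, ∀ z ∈ A, x ≠ z → u x + Om A ρ om x z ≤ (C z).card * W x z)
    (hLX : ∀ s ∈ A, ∀ t ∈ A, s ≠ t → L s t ⊆ X s t)
    {s x : ι} (hs : s ∈ A) (hx : x ∈ A) (hsx : ρ s < ρ x) :
    ∑ g ∈ H s, ∑ q ∈ H x, (if G.Adj g q then ovlW A C tl ρ X L w u om W f s x g q else 0)
      ≤ lossW G A C ρ X L w u om W s x := by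
  have hne : s ≠ x := by
    rintro rfl
    exact lt_irrefl _ hsx
  have h1 : ∀ g ∈ H s, ∀ q ∈ H x, (if G.Adj g q then ovlW A C tl ρ X L w u om W f s x g q else 0)
      ≤ ∑ t ∈ (A.erase s).erase x,
      (th1W A C ρ u om W s x * (if G.Adj g q ∧ g ∈ WL L w s t ∧ q ∈ WL L w x t then 1 else 0)
        + th2W A C ρ u om W s x
          * ((if G.Adj g q ∧ g ∈ KX X L w s t ∧ q ∈ WL L w x t then 1 else 0)
          + (if G.Adj g q ∧ g ∈ WL X w s t ∧ q ∈ WL L w x s then 1 else 0))) := by
    intro g hg q hq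
    by_cases h2 : G.Adj g q
    · rw [if_pos h2]
      refine (ovlW_le hK hC hWs hu hom hf hw hs hx hsx hg hq).trans (le_of_eq ?_)
      refine sum_congr rfl fun t _ => ?_
      simp only [h2, true_and, mul_add, mul_ite, mul_one, mul_zero]
    · simp only [h2, false_and, if_false, add_zero, mul_zero, sum_const_zero, le_refl]
  refine (sum_le_sum fun g hg => sum_le_sum fun q hq => h1 g hg q hq).trans ?_
  have h2 : ∀ P Q : Finset V, P ⊆ H s → Q ⊆ H x →
      ∑ g ∈ H s, ∑ q ∈ H x, (if G.Adj g q ∧ g ∈ P ∧ q ∈ Q then (1 : ℚ) else 0) = ee G P Q := by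
    intro P Q hP hQ
    have eP : P = (H s).filter (fun g => g ∈ P) := by
      rw [filter_mem_eq_inter, inter_eq_right.2 hP]
    have eQ : Q = (H x).filter (fun q => q ∈ Q) := by
      rw [filter_mem_eq_inter, inter_eq_right.2 hQ]
    unfold ee
    conv_rhs => rw [eP]
    rw [sum_filter]
    refine sum_congr rfl fun g _ => ?_
    by_cases h3 : g ∈ P
    · rw [if_pos h3, dg_sum]
      conv_rhs => rw [eQ]
      rw [sum_filter]
      refine sum_congr rfl fun q _ => ?_
      by_cases h4 : q ∈ Q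
      · simp only [h3, h4, and_true, if_true]
      · simp only [h4, and_false, if_false]
    · simp only [h3, false_and, and_false, if_false, sum_const_zero]
  have hW : ∀ a ∈ A, ∀ b ∈ A, a ≠ b → WL X w a b ⊆ H a := by
    intro a ha b hb hab g hg
    obtain ⟨c, hc, rfl⟩ := mem_image.1 hg
    exact (mem_arc.1 ((hK a ha b hb hab).mem c hc).1).1
  have hWL : ∀ a ∈ A, ∀ b ∈ A, a ≠ b → WL L w a b ⊆ H a := fun a ha b hb hab =>
    (image_subset_image (hLX a ha b hb hab)).trans (hW a ha b hb hab)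
  have hWK : ∀ a ∈ A, ∀ b ∈ A, a ≠ b → KX X L w a b ⊆ H a := fun a ha b hb hab =>
    (image_subset_image sdiff_subset).trans (hW a ha b hb hab)
  unfold lossW
  rw [sum_congr rfl fun g _ => sum_comm, sum_comm]
  refine sum_le_sum fun t ht => le_of_eq ?_
  have htx := ne_of_mem_erase ht
  have hts := ne_of_mem_erase (mem_of_mem_erase ht)
  have htA := mem_of_mem_erase (mem_of_mem_erase ht)
  rw [← h2 _ _ (hWL s hs t htA hts.symm) (hWL x hx t htA htx.symm),
    ← h2 _ _ (hWK s hs t htA hts.symm) (hWL x hx t htA htx.symm),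
    ← h2 _ _ (hW s hs t htA hts.symm) (hWL x hx s hs hne.symm)]
  simp only [sum_add_distrib, ← mul_sum]

/-- the adjacent pairs between the slots, pair weights -/
lemma WSys.ee_slotsW (h : WSys G F A C H tl) (hρ : ∀ x ∈ A, ∀ y ∈ A, ρ x = ρ y → x = y)
    (hWs : ∀ x z, W x z = W z x) :
    ∑ x ∈ A, ∑ z ∈ A.erase x, W x z * ee G (C z) (H x)
        + ∑ y ∈ A, ∑ z ∈ A, (if ρ y < ρ z then W y z * ee G (C y) (C z) else 0)
        + ∑ s ∈ A, ∑ x ∈ A, (if ρ s < ρ x then W s x * ee G (H s) (H x) else 0)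
      = ∑ y ∈ A, ∑ z ∈ A, (if ρ y < ρ z then W y z * ee G (C y ∪ H y) (C z ∪ H z) else 0) := by
  rw [sum_rank hρ, ← sum_add_distrib, ← sum_add_distrib]
  refine sum_congr rfl fun y hy => ?_
  rw [← sum_add_distrib, ← sum_add_distrib]
  refine sum_congr rfl fun z hz => ?_
  by_cases h1 : ρ y < ρ z
  · simp only [if_pos h1]
    rw [ee_union_left (h.dHC y hy y hy).symm, ee_union_right (h.dHC z hz z hz).symm,
      ee_union_right (h.dHC z hz z hz).symm, ee_comm (C z) (H y), hWs z y]
    ring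
  · simp only [if_neg h1, add_zero]

/-- **the budget with pair weights** -/
theorem WSys.budget_pw (h : WSys G F A C H tl) (hρ : ∀ x ∈ A, ∀ y ∈ A, ρ x = ρ y → x = y)
    (hK : KDs F A C H tl X L w) (hWs : ∀ x z, W x z = W z x)
    (hU : ∀ x ∈ A, ∀ z ∈ A, x ≠ z → ∀ c ∈ C z, ∀ a ∈ Us x z c, a ∈ X x z ∧ G.Adj c a)
    (hu : ∀ x ∈ A, 0 ≤ u x) (hom : ∀ j ∈ A, 0 ≤ om j)
    (hf : ∀ x ∈ A, ∀ q ∈ H x, f x q ≤ 1)
    (hw : ∀ x ∈ A, ∀ z ∈ A, x ≠ z → u x + Om A ρ om x z ≤ (C z).card * W x z) {T R vl : ι → ℚ}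
    (hT : ∀ x ∈ A, T x ≤ ∑ z ∈ A.erase x, JW G A C H ρ X w x (fun z => arc H tl x z)
        (fun z c => ((Us x z c).card : ℚ))
        (fun s t a => ∑ q ∈ NF G H tl X L w x s t a, f x q) (lm x) z + R x)
    (hV : ∀ j ∈ A, vl j ≤ ∑ x ∈ A.filter (fun x => ρ x < ρ j),
        ∑ z ∈ A.filter (fun z => ρ j ≤ ρ z), JW G A C H ρ X w x (fun _ => Hin H tl A x)
        (fun _ c => (dg G (C x) c : ℚ)) (fun s t a => (dg G (Hin H tl A x) (w s t a) : ℚ))
        (lmJ j x) z)
    {o : ι → ι → V → V → ℚ} (ho : ∀ y ∈ A, ∀ z ∈ A, ρ y < ρ z → ∀ p ∈ C y, ∀ c ∈ C z,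
      G.Adj p c → cw A C ρ X Us u om lm lmJ y z p c + o y z p c ≤ W y z) :
    ∑ x ∈ A, u x * T x + ∑ j ∈ A, om j * vl j
      + ∑ y ∈ A, ∑ z ∈ A, (if ρ y < ρ z then ∑ p ∈ C y, ∑ c ∈ C z,
            (if G.Adj p c then o y z p c else 0) else 0)
      + ∑ x ∈ A, ∑ z ∈ A.erase x, (W x z - (u x + Om A ρ om x z) / (C z).card) * ee G (C z) (H x)
      ≤ ∑ y ∈ A, ∑ z ∈ A, (if ρ y < ρ z then W y z * ee G (C y ∪ H y) (C z ∪ H z) else 0)
        + ∑ x ∈ A, u x * R x
        + ∑ s ∈ A, ∑ x ∈ A, (if ρ s < ρ x then lossW G A C ρ X L w u om W s x else 0) := by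
  have hXC : ∀ s ∈ A, ∀ t ∈ A, s ≠ t → X s t ⊆ C s := fun s hs t ht hst => (hK s hs t ht hst).XP
  have hLX : ∀ s ∈ A, ∀ t ∈ A, s ≠ t → L s t ⊆ X s t := fun s hs t ht hst =>
    (hK s hs t ht hst).LX
  have h1 := wgt_raw hρ hK hXC hU hu hom hT hV
  -- the cells
  have h2 : ∑ y ∈ A, ∑ z ∈ A, (if ρ y < ρ z then ∑ p ∈ C y, ∑ c ∈ C z,
            (if G.Adj p c then cw A C ρ X Us u om lm lmJ y z p c else 0) else 0)
      + ∑ y ∈ A, ∑ z ∈ A, (if ρ y < ρ z then ∑ p ∈ C y, ∑ c ∈ C z,
            (if G.Adj p c then o y z p c else 0) else 0)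
      ≤ ∑ y ∈ A, ∑ z ∈ A, (if ρ y < ρ z then W y z * ee G (C y) (C z) else 0) := by
    rw [← sum_add_distrib]
    refine sum_le_sum fun y hy => ?_
    rw [← sum_add_distrib]
    refine sum_le_sum fun z hz => ?_
    by_cases h : ρ y < ρ z
    · simp only [if_pos h]
      unfold ee
      rw [← sum_add_distrib, mul_sum]
      refine sum_le_sum fun p hp => ?_
      rw [dg_sum, ← sum_add_distrib, mul_sum]
      refine sum_le_sum fun c hc => ?_
      by_cases h3 : G.Adj p c
      · simp only [if_pos h3, mul_one]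
        exact ho y hy z hz h p hp c hc h3
      · simp only [if_neg h3, add_zero, mul_zero, le_refl]
    · simp only [if_neg h, add_zero, le_refl]
  -- the edges between the homes
  have h3 : ∑ s ∈ A, ∑ x ∈ A, (if ρ s < ρ x then ∑ g ∈ H s, ∑ q ∈ H x,
            (if G.Adj g q then chg A C tl ρ X L w u om f s x g q
              + chg A C tl ρ X L w u om f x s q g else 0) else 0)
      ≤ ∑ s ∈ A, ∑ x ∈ A, (if ρ s < ρ x then W s x * ee G (H s) (H x) else 0)
        + ∑ s ∈ A, ∑ x ∈ A, (if ρ s < ρ x then lossW G A C ρ X L w u om W s x else 0) := by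
    rw [← sum_add_distrib]
    refine sum_le_sum fun s hs => ?_
    rw [← sum_add_distrib]
    refine sum_le_sum fun x hx => ?_
    by_cases h5 : ρ s < ρ x
    · simp only [if_pos h5]
      refine le_trans ?_ (add_le_add_right
        (ovlW_sum hK h.ne hWs hu hom hf hw hLX hs hx h5) _)
      unfold ee
      rw [mul_sum, ← sum_add_distrib]
      refine sum_le_sum fun g _ => ?_
      rw [dg_sum, mul_sum, ← sum_add_distrib]
      refine sum_le_sum fun q _ => ?_
      by_cases h4 : G.Adj g q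
      · simp only [if_pos h4]
        unfold ovlW
        have := le_max_right (0 : ℚ) (chg A C tl ρ X L w u om f s x g q
          + chg A C tl ρ X L w u om f x s q g - W s x)
        linarith
      · simp only [if_neg h4, add_zero, mul_zero, le_refl]
    · simp only [if_neg h5, add_zero, le_refl]
  have h4 := h.ee_slotsW hρ hWs
  have h5 : ∑ x ∈ A, ∑ z ∈ A.erase x,
        (W x z - (u x + Om A ρ om x z) / (C z).card) * ee G (C z) (H x)
      + ∑ x ∈ A, ∑ z ∈ A.erase x, (u x + Om A ρ om x z) / (C z).card * ee G (C z) (H x)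
      = ∑ x ∈ A, ∑ z ∈ A.erase x, W x z * ee G (C z) (H x) := by
    rw [← sum_add_distrib]
    refine sum_congr rfl fun x _ => ?_
    rw [← sum_add_distrib]
    refine sum_congr rfl fun z _ => ?_
    ring
  linarith

/-- **the cells, pair weights** -/
lemma cw_le_pw (hC : ∀ z ∈ A, (C z).Nonempty) (hWs : ∀ x z, W x z = W z x)
    (hu : ∀ x ∈ A, 0 ≤ u x) (hom : ∀ j ∈ A, 0 ≤ om j)
    (hw : ∀ x ∈ A, ∀ z ∈ A, x ≠ z → u x + Om A ρ om x z ≤ (C z).card * W x z) {y z : ι}
    (hy : y ∈ A) (hz : z ∈ A) (hyz : ρ y < ρ z)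
    (hL : LLc A ρ u om lm lmJ y z ≤ (C y).card * ((C z).card * W y z - Om A ρ om y z)) (p c : V)
    (hp : p ∈ Us y z c → p ∈ X y z) :
    cw A C ρ X Us u om lm lmJ y z p c ≤ W y z := by
  have hne : y ≠ z := by
    rintro rfl
    exact lt_irrefl _ hyz
  have cy : (0 : ℚ) < (C y).card := by exact_mod_cast card_pos.2 (hC y hy)
  have cz : (0 : ℚ) < (C z).card := by exact_mod_cast card_pos.2 (hC z hz)
  have h1 := hw y hy z hz hne
  have h2 := hw z hz y hy hne.symm
  have h3 := Om_nonneg (ρ := ρ) hom z y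
  have h4 := Om_nonneg (ρ := ρ) hom y z
  have h5 := hu y hy
  have h6 := hu z hz
  have h0 : 0 ≤ W y z := by
    by_contra hcon
    have : (C z).card * W y z < 0 := mul_neg_of_pos_of_neg cz (not_le.1 hcon)
    linarith
  unfold cw
  by_cases c1 : c ∈ X z y
  · rw [if_pos c1]
    split_ifs
    · rw [div_le_iff₀ cy, mul_comm, hWs y z]
      linarith
    · exact h0
  · rw [if_neg c1]
    by_cases c2 : p ∈ X y z
    · rw [if_pos c2, add_zero]
      split_ifs
      · rw [← add_div, div_le_iff₀ cz, mul_comm (W y z)]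
        exact h1
      · rw [zero_add, div_le_iff₀ cz, mul_comm (W y z)]
        linarith
    · rw [if_neg c2, if_neg (fun h => c2 (hp h)), zero_add]
      have e1 : Om A ρ om y z / (C z).card + LLc A ρ u om lm lmJ y z / ((C y).card * (C z).card)
          = ((C y).card * Om A ρ om y z + LLc A ρ u om lm lmJ y z) / ((C y).card * (C z).card) := by
        field_simp
      rw [e1, div_le_iff₀ (mul_pos cy cz)]
      nlinarith [hL]

/-- **the combined load statement with pair weights** -/
theorem WSys.star_pw {KP LP : ι → ι → V → Finset V} {Lm : ι → ι → ι → Finset V}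
    {Lj : ι → ι → ι → ι → Finset V} (h : WSys G F A C H tl)
    (hρ : ∀ x ∈ A, ∀ y ∈ A, ρ x = ρ y → x = y) (hK : KDs F A C H tl X L w)
    (hWs : ∀ x z, W x z = W z x)
    (hU : UDs G F A C H tl X L w KP LP Us) (hLm : LMs F A H tl ρ Lm)
    (hLj : ∀ j ∈ A, ∀ y ∈ A, ∀ z ∈ A, ρ j ≤ ρ y → ρ y < ρ z →
      (∀ x ∈ A, ρ x < ρ j → ∀ v ∈ H x, tl v = y → v ∈ Lj j x y z) ∨
      (∀ x ∈ A, ρ x < ρ j → ∀ v ∈ H x, tl v = z → v ∈ Lj j x y z))
    (hu : ∀ x ∈ A, 0 ≤ u x) (hom : ∀ j ∈ A, 0 ≤ om j)
    (hw : ∀ x ∈ A, ∀ z ∈ A, x ≠ z → u x + Om A ρ om x z ≤ (C z).card * W x z) {vl : ι → ℚ}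
    (hvl : ∀ j ∈ A, ∀ c : ι → V, (∀ z ∈ A, ρ j ≤ ρ z → c z ∈ C z) → ∀ D : Finset V,
      LegD G C H tl X w A (A.filter fun x => ρ x < ρ j) c D → vl j ≤ D.card)
    {o : ι → ι → V → V → ℚ} (ho : ∀ y ∈ A, ∀ z ∈ A, ρ y < ρ z → ∀ p ∈ C y, ∀ c ∈ C z,
      G.Adj p c → cw A C ρ X Us u om (fun x y z => ((Lm x y z).card : ℚ))
        (fun j x y z => ((Lj j x y z).card : ℚ)) y z p c + o y z p c ≤ W y z) :
    ∑ x ∈ A, u x * (spn F tl (H x) (C x) (A.erase x) : ℚ) + ∑ j ∈ A, om j * vl j
      + ∑ y ∈ A, ∑ z ∈ A, (if ρ y < ρ z then ∑ p ∈ C y, ∑ c ∈ C z,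
            (if G.Adj p c then o y z p c else 0) else 0)
      + ∑ x ∈ A, ∑ z ∈ A.erase x, (W x z - (u x + Om A ρ om x z) / (C z).card) * ee G (C z) (H x)
      ≤ ∑ y ∈ A, ∑ z ∈ A, (if ρ y < ρ z then W y z * ee G (C y ∪ H y) (C z ∪ H z) else 0)
        + ∑ s ∈ A, ∑ x ∈ A, (if ρ s < ρ x then lossW G A C ρ X L w u om W s x else 0) := by
  have hXC : ∀ s ∈ A, ∀ t ∈ A, s ≠ t → X s t ⊆ C s := fun s hs t ht hst => (hK s hs t ht hst).XP
  have h1 := h.budget_pw (f := fun _ _ => 1) (R := fun _ => 0) (W := W)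
    (T := fun x => (spn F tl (H x) (C x) (A.erase x) : ℚ)) (vl := vl)
    (lm := fun x y z => ((Lm x y z).card : ℚ)) (lmJ := fun j x y z => ((Lj j x y z).card : ℚ))
    (u := u) (om := om) (o := o)
    hρ hK hWs hU.sub hu hom (fun _ _ _ _ => le_refl _) hw (fun x hx => by
      rw [add_zero]
      exact h.host_T hK hU hρ hLm hx) (fun j hj => by
      obtain ⟨v0, -⟩ := h.ne j hj
      exact layer_V h.ne hXC hρ (hLj j hj) v0 (hvl j hj)) ho
  simp only [mul_zero, sum_const_zero, add_zero] at h1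
  exact h1

/-- the partial matchings of the arcs are together at most the split cover number -/
lemma KDs.sum_le_spn (hK : KDs F A C H tl X L w) {s : ι} (hs : s ∈ A) :
    ∑ t ∈ A.erase s, (X s t).card ≤ spn F tl (H s) (C s) (A.erase s) := by
  obtain ⟨X', Y', h1, -, h3, h4⟩ := exists_spn F tl (H s) (C s) (A.erase s)
  have key : ∀ t ∈ A.erase s, (X s t).card
      ≤ (X'.filter fun v => v ∈ arc H tl s t).card + (Y' t).card := by
    intro t ht
    have hk := hK s hs t (mem_of_mem_erase ht) (ne_of_mem_erase ht).symm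
    have h5 : ((X s t).filter fun a => w s t a ∈ X').card
        ≤ (X'.filter fun v => v ∈ arc H tl s t).card := by
      refine card_le_card_of_injOn (w s t) ?_ ?_
      · intro a ha
        obtain ⟨ha1, ha2⟩ := mem_filter.1 (by exact_mod_cast ha : a ∈ (X s t).filter _)
        have : w s t a ∈ X'.filter fun v => v ∈ arc H tl s t :=
          mem_filter.2 ⟨ha2, (hk.mem a ha1).1⟩
        exact_mod_cast this
      · refine hk.inj.mono ?_
        intro a ha
        have := (mem_filter.1 (by exact_mod_cast ha : a ∈ (X s t).filter _)).1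
        exact_mod_cast this
    have h6 : ((X s t).filter fun a => ¬ w s t a ∈ X').card ≤ (Y' t).card := by
      refine card_le_card fun a ha => ?_
      obtain ⟨ha1, ha2⟩ := mem_filter.1 ha
      obtain ⟨h7, h8⟩ := hk.mem a ha1
      obtain ⟨h9, h10⟩ := mem_arc.1 h7
      have := (h3.2 _ h9 a (hk.XP ha1) h8).resolve_left ha2
      rwa [h10] at this
    have h7 := card_filter_add_card_filter_not (s := X s t) (p := fun a => w s t a ∈ X')
    omega
  have h5 : ∑ t ∈ A.erase s, (X'.filter fun v => v ∈ arc H tl s t).card ≤ X'.card := by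
    rw [← card_biUnion]
    · exact card_le_card (biUnion_subset.2 fun t _ => filter_subset _ _)
    · intro t _ t' _ htt
      rw [Function.onFun, disjoint_left]
      intro v hv hv'
      exact htt ((mem_arc.1 (mem_filter.1 hv).2).2.symm.trans (mem_arc.1 (mem_filter.1 hv').2).2)
  calc ∑ t ∈ A.erase s, (X s t).card
      ≤ ∑ t ∈ A.erase s, ((X'.filter fun v => v ∈ arc H tl s t).card + (Y' t).card) :=
        sum_le_sum key
    _ ≤ X'.card + ∑ t ∈ A.erase s, (Y' t).card := by
        rw [sum_add_distrib]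
        exact Nat.add_le_add_right h5 _
    _ = spn F tl (H s) (C s) (A.erase s) := h4

end BudgetP

section IntP

variable {V : Type*} {G : SimpleGraph V} {Z T : Finset V} {hm : V → V} {r m t : ℕ}

/-- **the budget with pair weights and without layers, over the basic integers**, for every home-free
closed system with homes (the whole frame included).  `τ` split cover numbers, `EI` adjacent pairs
between the slots, `W` symmetric pair weights, `0 ≤ u x ≤ c_z W x z`. -/
theorem HSys.star_pw (hF : PFrame G r m t Z T) (hh : Homes G Z T hm) {A S : Finset V}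
    (h : HSys G Z T A S) (hS : ∀ v ∈ S, hm v ∈ A ∧ hm v ∈ rws G T v)
    {ρ : V → ℕ} (hρ : ∀ x ∈ A, ∀ y ∈ A, ρ x = ρ y → x = y)
    {C H : V → Finset V} (hC : C = CP G Z T (fun x => S.filter fun v => hm v = x))
    (hH : H = HP G Z T (fun x => S.filter fun v => hm v = x))
    {u : V → ℚ} {W : V → V → ℚ} (hu : ∀ x ∈ A, 0 ≤ u x) (hWs : ∀ x z, W x z = W z x)
    (hw : ∀ x ∈ A, ∀ z ∈ A, x ≠ z → u x ≤ (C z).card * W x z)
    (hLAM : ∀ y ∈ A, ∀ z ∈ A, ρ y < ρ z → ∑ x ∈ (A.erase y).erase z,
      u x * min ((arc H (tlo G T hm) x y).card : ℚ) (arc H (tlo G T hm) x z).card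
        ≤ (C y).card * ((C z).card * W y z)) :
    ∃ L : V → V → Finset V, (∀ s ∈ A, ∀ t ∈ A, s ≠ t → L s t ⊆ C s) ∧
      (∀ s ∈ A, ∑ t ∈ A.erase s, ((L s t).card : ℤ) ≤ tauI G Z T hm A S s) ∧
      2 * ∑ x ∈ A, u x * (tauI G Z T hm A S x : ℤ)
        + 2 * ∑ x ∈ A, ∑ z ∈ A.erase x, (W x z - u x / (C z).card) * ee G (C z) (H x)
      ≤ ∑ x ∈ A, ∑ z ∈ A.erase x, W x z * (EI G hm S x z : ℤ)
        + 2 * ∑ s ∈ A, ∑ x ∈ A, (if ρ s < ρ x then ∑ t ∈ (A.erase s).erase x,
          max 0 (u x / (C s).card + u s / (C x).card - W s x)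
            * (((L s t).card : ℚ) * (L x t).card) else 0) := by
  subst hC hH
  have hWS : WSys G (co G) A (CP G Z T (fun x => S.filter fun v => hm v = x))
      (HP G Z T (fun x => S.filter fun v => hm v = x)) (tlo G T hm) := by
    refine (h.csys hF hS).wsys hF hh fun y hy => ?_
    have h1 := (hS y (h.ctr hy)).2
    rw [rws_of_mem (h.sub hy), mem_singleton] at h1
    exact mem_filter.2 ⟨h.ctr hy, h1⟩
  have key : ∀ s t : V, ∃ (X L : Finset V) (w : V → V),
      KD (co G) (CP G Z T (fun x => S.filter fun v => hm v = x) s)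
        (arc (HP G Z T (fun x => S.filter fun v => hm v = x)) (tlo G T hm) s t) X L w :=
    fun s t => exists_kd _ _ _
  choose X L w hk using key
  have hK : KDs (co G) A (CP G Z T (fun x => S.filter fun v => hm v = x))
      (HP G Z T (fun x => S.filter fun v => hm v = x)) (tlo G T hm) X L w :=
    fun s _ t _ _ => hk s t
  obtain ⟨KP, LP, Us, hUD, -⟩ := exists_uds hWS hK
  obtain ⟨Lm, hLm, hLm2⟩ := exists_lms (co G) A
    (HP G Z T (fun x => S.filter fun v => hm v = x)) (tlo G T hm) ρ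
  have hOm : ∀ x z, Om A ρ (fun _ => (0 : ℚ)) x z = 0 := by
    intro x z
    unfold Om
    simp
  have hw' : ∀ x ∈ A, ∀ z ∈ A, x ≠ z → u x + Om A ρ (fun _ => (0 : ℚ)) x z
      ≤ (CP G Z T (fun x => S.filter fun v => hm v = x) z).card * W x z := by
    intro x hx z hz hxz
    rw [hOm, add_zero]
    exact hw x hx z hz hxz
  have h1 := hWS.star_pw (u := u) (om := fun _ => 0) (W := W) (KP := KP) (LP := LP) (Us := Us)
    (Lm := Lm) (Lj := fun j x y z => LjS A (HP G Z T (fun x => S.filter fun v => hm v = x))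
      (tlo G T hm) ρ j x y z) (vl := fun _ => 0) (o := fun _ _ _ _ => 0)
    hρ hK hWs hUD hLm (fun j _ y _ z _ _ _ => LjS_ok j) hu (fun _ _ => le_refl _) hw'
    (fun j _ c _ D _ => Nat.cast_nonneg _) (fun y hy z hz hyz p hp c hc _ => by
      rw [add_zero]
      refine cw_le_pw hWS.ne hWs hu (fun _ _ => le_refl _) hw' hy hz hyz ?_ p c fun h5 => ?_
      · rw [hOm, sub_zero]
        refine le_trans (le_of_eq_of_le ?_ (sum_le_sum fun x hx =>
          mul_le_mul_of_nonneg_left (le_min (Nat.cast_le.2 (hLm2 x y z).1)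
            (Nat.cast_le.2 (hLm2 x y z).2)) (hu x (mem_of_mem_erase (mem_of_mem_erase hx)))))
          (hLAM y hy z hz hyz)
        unfold LLc
        simp
      · have hne : y ≠ z := by
          rintro rfl
          exact lt_irrefl _ hyz
        exact (hUD.sub y hy z hz hne c hc p h5).1)
  refine ⟨L, fun s hs t ht hst => ((hk s t).LX).trans (hk s t).XP, fun s hs => ?_, ?_⟩
  · have h2 := hK.sum_le_spn hs
    have h3 : ∑ t ∈ A.erase s, (L s t).card ≤ ∑ t ∈ A.erase s, (X s t).card :=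
      sum_le_sum fun t _ => card_le_card (hk s t).LX
    have h4 := h3.trans h2
    unfold tauI tcv
    exact_mod_cast h4
  · simp only [hOm, add_zero, zero_mul, sum_const_zero, ite_self] at h1
    have e2 : 2 * ∑ y ∈ A, ∑ z ∈ A, (if ρ y < ρ z then W y z *
          ee G (CP G Z T (fun x => S.filter fun v => hm v = x) y
            ∪ HP G Z T (fun x => S.filter fun v => hm v = x) y)
          (CP G Z T (fun x => S.filter fun v => hm v = x) z
            ∪ HP G Z T (fun x => S.filter fun v => hm v = x) z) else 0)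
        = ∑ x ∈ A, ∑ z ∈ A.erase x, W x z * ((EI G hm S x z : ℤ) : ℚ) := by
      rw [sum_rank hρ fun x z => W x z * ((EI G hm S x z : ℤ) : ℚ), mul_sum]
      refine sum_congr rfl fun y _ => ?_
      rw [mul_sum]
      refine sum_congr rfl fun z _ => ?_
      rw [← EI_ee, EI_comm S z y, hWs z y]
      split_ifs
      · ring
      · ring
    have e3 : ∀ s ∈ A, ∀ x ∈ A, ρ s < ρ x →
        lossW G A (CP G Z T (fun x => S.filter fun v => hm v = x)) ρ X L w u (fun _ => 0) W s x
        ≤ ∑ t ∈ (A.erase s).erase x,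
          max 0 (u x / (CP G Z T (fun x => S.filter fun v => hm v = x) s).card
            + u s / (CP G Z T (fun x => S.filter fun v => hm v = x) x).card - W s x)
            * (((L s t).card : ℚ) * (L x t).card) := by
      intro s hs x hx hsx
      have hne : s ≠ x := by
        rintro rfl
        exact lt_irrefl _ hsx
      have cs : (0 : ℚ) < (CP G Z T (fun x => S.filter fun v => hm v = x) s).card := by
        exact_mod_cast card_pos.2 (hWS.ne s hs)
      have t2 : th2W A (CP G Z T (fun x => S.filter fun v => hm v = x)) ρ u (fun _ => 0) W s x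
          = 0 := by
        unfold th2W
        rw [hOm, zero_div, add_zero]
        refine max_eq_left ?_
        have := hw x hx s hs hne.symm
        rw [sub_nonpos, div_le_iff₀ cs, mul_comm, hWs s x]
        exact this
      unfold lossW
      refine sum_le_sum fun t _ => ?_
      rw [t2, zero_mul, add_zero]
      unfold th1W
      rw [hOm, add_zero]
      refine mul_le_mul_of_nonneg_left ?_ (le_max_left _ _)
      refine (ee_le _ _).trans (mul_le_mul ?_ ?_ (Nat.cast_nonneg _) (Nat.cast_nonneg _))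
      · exact_mod_cast card_image_le
      · exact_mod_cast card_image_le
    have e4 : ∑ s ∈ A, ∑ x ∈ A, (if ρ s < ρ x then
          lossW G A (CP G Z T (fun x => S.filter fun v => hm v = x)) ρ X L w u (fun _ => 0) W s x
          else 0) ≤ ∑ s ∈ A, ∑ x ∈ A, (if ρ s < ρ x then ∑ t ∈ (A.erase s).erase x,
          max 0 (u x / (CP G Z T (fun x => S.filter fun v => hm v = x) s).card
            + u s / (CP G Z T (fun x => S.filter fun v => hm v = x) x).card - W s x)
            * (((L s t).card : ℚ) * (L x t).card) else 0) := by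
      refine sum_le_sum fun s hs => sum_le_sum fun x hx => ?_
      by_cases h5 : ρ s < ρ x
      · simp only [if_pos h5]
        exact e3 s hs x hx h5
      · simp only [if_neg h5, le_refl]
    have e5 : ∑ x ∈ A, u x * (spn (co G) (tlo G T hm)
        (HP G Z T (fun x => S.filter fun v => hm v = x) x)
        (CP G Z T (fun x => S.filter fun v => hm v = x) x) (A.erase x) : ℚ)
        = ∑ x ∈ A, u x * ((tauI G Z T hm A S x : ℤ) : ℚ) := by
      refine sum_congr rfl fun x _ => ?_
      unfold tauI tcv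
      push_cast
      rfl
    rw [e5] at h1
    rw [← e2]
    linarith

end IntP

end Pool.Agent.Lib.MP_f04ccf_co
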