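import Pool.Agent.Lib.MP_f04ccf_co.M.Back

/-!
MP_f04ccf_co: the matching lemma of helper81 (note 15231 (1)).  `M` is a graph on `H`, `F y` are
subgraphs such that every clique `J` of `M` with at least two points contains edges of at least
`|J| - 1` of the `F y`.  Then there are matchings `N y` of `F y` with
`Σ (n |N y| - e_M (V (N y))) ≥ e (M)` and `Σ ((n-1) |N y| - e_M (V (N y))) ≥ e (M) - n/2`.
-/

set_option autoImplicit false

namespace Pool.Agent.Lib.MP_f04ccf_co

open Finset

attribute [local instance] Classical.propDecidable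

section ZM

variable {V : Type*}

/-- `N` is a matching of `F` inside `H` -/
structure Mt (F : SimpleGraph V) (H : Finset V) (N : Finset (V × V)) : Prop where
  adj : ∀ e ∈ N, F.Adj e.1 e.2
  mem1 : ∀ e ∈ N, e.1 ∈ H
  mem2 : ∀ e ∈ N, e.2 ∈ H
  disj : ∀ e ∈ N, ∀ f ∈ N, e ≠ f → Disjoint ({e.1, e.2} : Finset V) {f.1, f.2}

/-- the vertices of a matching -/
noncomputable def Kt (N : Finset (V × V)) : Finset V := N.biUnion (fun e => {e.1, e.2})

variable {F M : SimpleGraph V} {H : Finset V} {N : Finset (V × V)}

lemma mem_Kt {v : V} : v ∈ Kt N ↔ ∃ e ∈ N, v = e.1 ∨ v = e.2 := by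
  simp [Kt]

lemma Mt.empty (F : SimpleGraph V) (H : Finset V) : Mt F H ∅ :=
  ⟨by simp, by simp, by simp, by simp⟩

lemma Kt_empty : Kt (∅ : Finset (V × V)) = ∅ := rfl

lemma Mt.Kt_sub (h : Mt F H N) : Kt N ⊆ H := by
  intro v hv
  obtain ⟨e, he, h1 | h1⟩ := mem_Kt.1 hv
  · rw [h1]; exact h.mem1 e he
  · rw [h1]; exact h.mem2 e he

lemma Mt.mono (h : Mt F H N) {H' : Finset V} (hs : H ⊆ H') : Mt F H' N :=
  ⟨h.adj, fun e he => hs (h.mem1 e he), fun e he => hs (h.mem2 e he), h.disj⟩

/-- sums over the vertices of a matching -/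
lemma Mt.sum_Kt (h : Mt F H N) {A : Type*} [AddCommMonoid A] (f : V → A) :
    ∑ v ∈ Kt N, f v = ∑ e ∈ N, (f e.1 + f e.2) := by
  rw [Kt, sum_biUnion (fun e he g hg heg => h.disj e he g hg heg)]
  exact sum_congr rfl fun e he => sum_pair (F.ne_of_adj (h.adj e he))

lemma Mt.card_Kt (h : Mt F H N) : (Kt N).card = 2 * N.card := by
  rw [card_eq_sum_ones, h.sum_Kt (fun _ => 1), sum_const, smul_eq_mul, mul_comm]

/-- adding an edge -/
lemma Mt.insert' {H' : Finset V} (h : Mt F H' N) {a b : V} (hab : F.Adj a b) (ha : a ∈ H)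
    (hb : b ∈ H) (hs : H' ⊆ H) (ha' : a ∉ H') (hb' : b ∉ H') : Mt F H (insert (a, b) N) := by
  have hd : ∀ f ∈ N, Disjoint ({a, b} : Finset V) {f.1, f.2} := by
    intro f hf
    rw [disjoint_left]
    intro v hv hv'
    have h1 : v ∈ H' := by
      rcases mem_insert.1 hv' with rfl | hv'
      · exact h.mem1 f hf
      · rw [mem_singleton.1 hv']; exact h.mem2 f hf
    rcases mem_insert.1 hv with rfl | hv
    · exact ha' h1
    · exact hb' (mem_singleton.1 hv ▸ h1)
  refine ⟨?_, ?_, ?_, ?_⟩
  · intro e he
    rcases mem_insert.1 he with rfl | he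
    · exact hab
    · exact h.adj e he
  · intro e he
    rcases mem_insert.1 he with rfl | he
    · exact ha
    · exact hs (h.mem1 e he)
  · intro e he
    rcases mem_insert.1 he with rfl | he
    · exact hb
    · exact hs (h.mem2 e he)
  · intro e he f hf hef
    rcases mem_insert.1 he with rfl | he <;> rcases mem_insert.1 hf with rfl | hf
    · exact absurd rfl hef
    · exact hd f hf
    · exact (hd e he).symm
    · exact h.disj e he f hf hef

lemma Kt_insert (a b : V) (N : Finset (V × V)) : Kt (insert (a, b) N) = {a, b} ∪ Kt N := by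
  rw [Kt, biUnion_insert, Kt]

private lemma clq3 {a b c : V} (hab : M.Adj a b) (hac : M.Adj a c) (hbc : M.Adj b c) :
    Clq M {a, b, c} := by
  have hba := hab.symm
  have hca := hac.symm
  have hcb := hbc.symm
  intro x hx y hy hxy
  simp only [mem_insert, mem_singleton] at hx hy
  rcases hx with rfl | rfl | rfl <;> rcases hy with rfl | rfl | rfl <;>
    first
    | exact absurd rfl hxy
    | assumption

private lemma card3 {a b c : V} (hab : M.Adj a b) (hac : M.Adj a c) (hbc : M.Adj b c) :
    ({a, b, c} : Finset V).card = 3 :=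
  card_eq_three.2 ⟨a, b, c, M.ne_of_adj hab, M.ne_of_adj hac, M.ne_of_adj hbc, rfl⟩

private lemma clq4 {a b c d : V} (hab : M.Adj a b) (hac : M.Adj a c) (hbc : M.Adj b c)
    (had : M.Adj a d) (hbd : M.Adj b d) (hcd : M.Adj c d) : Clq M {a, b, c, d} := by
  have hba := hab.symm
  have hca := hac.symm
  have hcb := hbc.symm
  have hda := had.symm
  have hdb := hbd.symm
  have hdc := hcd.symm
  intro x hx y hy hxy
  simp only [mem_insert, mem_singleton] at hx hy
  rcases hx with rfl | rfl | rfl | rfl <;> rcases hy with rfl | rfl | rfl | rfl <;>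
    first
    | exact absurd rfl hxy
    | assumption

private lemma card4 {a b c d : V} (hab : M.Adj a b) (hac : M.Adj a c) (hbc : M.Adj b c)
    (had : M.Adj a d) (hbd : M.Adj b d) (hcd : M.Adj c d) :
    ({a, b, c, d} : Finset V).card = 4 := by
  rw [card_insert_of_notMem, card3 hbc hbd hcd]
  simp only [mem_insert, mem_singleton, not_or]
  exact ⟨M.ne_of_adj hab, M.ne_of_adj hac, M.ne_of_adj had⟩

lemma dg_pair {c d : V} (hcd : c ≠ d) (a : V) :
    dg M {c, d} a = (if M.Adj a c then 1 else 0) + (if M.Adj a d then 1 else 0) := by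
  unfold dg
  rw [card_filter, sum_pair hcd]

/-- between two disjoint edges there are at most `ω` edges -/
lemma cross_le {j : ℕ} (hj : 2 ≤ j) (hmax : ∀ J : Finset V, J ⊆ H → Clq M J → J.card ≤ j)
    {a b c d : V} (ha : a ∈ H) (hb : b ∈ H) (hc : c ∈ H) (hd : d ∈ H) (hab : M.Adj a b)
    (hcd : M.Adj c d) : dg M {c, d} a + dg M {c, d} b ≤ j := by
  rw [dg_pair (M.ne_of_adj hcd), dg_pair (M.ne_of_adj hcd)]
  have t3 : ∀ {x y z : V}, x ∈ H → y ∈ H → z ∈ H → M.Adj x y → M.Adj x z → M.Adj y z → 3 ≤ j := by
    intro x y z hx hy hz h1 h2 h3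
    rw [← card3 h1 h2 h3]
    refine hmax _ ?_ (clq3 h1 h2 h3)
    intro v hv
    simp only [mem_insert, mem_singleton] at hv
    rcases hv with rfl | rfl | rfl <;> assumption
  by_cases h1 : M.Adj a c <;> by_cases h2 : M.Adj a d <;> by_cases h3 : M.Adj b c <;>
    by_cases h4 : M.Adj b d
  · have : 4 ≤ j := by
      rw [← card4 hab h1 h3 h2 h4 hcd]
      refine hmax _ ?_ (clq4 hab h1 h3 h2 h4 hcd)
      intro v hv
      simp only [mem_insert, mem_singleton] at hv
      rcases hv with rfl | rfl | rfl | rfl <;> assumption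
    simp [h1, h2, h3, h4]
    omega
  · have := t3 ha hc hd h1 h2 hcd
    simp [h1, h2, h3, h4]
    omega
  · have := t3 ha hc hd h1 h2 hcd
    simp [h1, h2, h3, h4]
    omega
  · simp [h1, h2, h3, h4]
    omega
  · have := t3 hb hc hd h3 h4 hcd
    simp [h1, h2, h3, h4]
    omega
  · simp [h1, h2, h3, h4]
    omega
  · simp [h1, h2, h3, h4]
    omega
  · simp [h1, h2, h3, h4]
    omega
  · have := t3 hb hc hd h3 h4 hcd
    simp [h1, h2, h3, h4]
    omega
  · simp [h1, h2, h3, h4]
    omega
  · simp [h1, h2, h3, h4]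
    omega
  · simp [h1, h2, h3, h4]
    omega
  · simp [h1, h2, h3, h4]
    omega
  · simp [h1, h2, h3, h4]
    omega
  · simp [h1, h2, h3, h4]
    omega
  · simp [h1, h2, h3, h4]

/-- the value of a matching after adding an edge of a maximum clique -/
private lemma val_insert {H' : Finset V} {j : ℕ} (hj : 2 ≤ j)
    (hmax : ∀ J : Finset V, J ⊆ H → Clq M J → J.card ≤ j) (hF : F ≤ M) (hs : H' ⊆ H)
    (h : Mt F H' N) {a b : V} (hab : F.Adj a b) (ha : a ∈ H) (hb : b ∈ H) (ha' : a ∉ H')
    (hb' : b ∉ H') :
    (E M (Kt (insert (a, b) N)) : ℤ) ≤ E M (Kt N) + 2 + 2 * j * N.card ∧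
      (insert (a, b) N).card = N.card + 1 := by
  have hne := F.ne_of_adj hab
  have hsub := h.Kt_sub
  have hd : Disjoint ({a, b} : Finset V) (Kt N) := by
    rw [disjoint_left]
    intro v hv hv'
    rcases mem_insert.1 hv with rfl | hv
    · exact ha' (hsub hv')
    · exact hb' (hsub (mem_singleton.1 hv ▸ hv'))
  have h1 := E_union M hd.symm
  have h2 : E M ({a, b} : Finset V) = 2 := by
    unfold E
    rw [sum_pair hne, dg_pair hne, dg_pair hne, if_neg (M.loopless.irrefl a), if_pos (hF hab),
      if_pos (hF hab).symm, if_neg (M.loopless.irrefl b)]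
  have h3 : ∑ v ∈ ({a, b} : Finset V), dg M (Kt N) v ≤ j * N.card := by
    rw [dg_comm, h.sum_Kt]
    have e1 : ∀ e ∈ N, dg M {a, b} e.1 + dg M {a, b} e.2 ≤ j := fun e he =>
      cross_le hj hmax (hs (h.mem1 e he)) (hs (h.mem2 e he)) ha hb (hF (h.adj e he)) (hF hab)
    have e2 := sum_le_sum e1
    rw [sum_const, smul_eq_mul, mul_comm] at e2
    exact e2
  constructor
  · rw [Kt_insert, union_comm, h1, h2]
    have h4 : ((∑ v ∈ ({a, b} : Finset V), dg M (Kt N) v : ℕ) : ℤ) ≤ j * N.card := by
      exact_mod_cast h3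
    push_cast at h4 ⊢
    linarith
  · refine card_insert_of_notMem fun h' => ha' (h.mem1 _ h')

/-- **the matching lemma** (both forms with the same matchings) -/
theorem zmat {ι : Type*} (M : SimpleGraph V) (Y : Finset ι) (F : ι → SimpleGraph V)
    (hF : ∀ y ∈ Y, F y ≤ M) : ∀ (n : ℕ) (H : Finset V), H.card = n →
      (∀ J : Finset V, J ⊆ H → Clq M J → 2 ≤ J.card →
        J.card ≤ (Y.filter (fun y => ∃ a ∈ J, ∃ b ∈ J, (F y).Adj a b)).card + 1) →
      ∃ N : ι → Finset (V × V), (∀ y ∈ Y, Mt (F y) H (N y)) ∧
        (E M H : ℤ) ≤ ∑ y ∈ Y, (2 * (n : ℤ) * (N y).card - E M (Kt (N y))) ∧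
        (E M H : ℤ) - n ≤ ∑ y ∈ Y, (2 * ((n : ℤ) - 1) * (N y).card - E M (Kt (N y))) := by
  intro n
  induction n using Nat.strong_induction_on with
  | _ n ih =>
    intro H hHn hcl
    -- a maximum clique
    obtain ⟨J, hJ, hJmax⟩ := exists_max_image (H.powerset.filter (fun J => Clq M J)) card
      ⟨∅, mem_filter.2 ⟨mem_powerset.2 (empty_subset _), by intro x hx; simp at hx⟩⟩
    obtain ⟨hJ1, hJc⟩ := mem_filter.1 hJ
    have hJH := mem_powerset.1 hJ1
    have hmax : ∀ K : Finset V, K ⊆ H → Clq M K → K.card ≤ J.card := fun K hK hKc =>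
      hJmax K (mem_filter.2 ⟨mem_powerset.2 hK, hKc⟩)
    by_cases hj : 2 ≤ J.card
    · -- remove the clique
      have hlt : (H \ J).card < n := by
        have := card_sdiff_add_card_eq_card hJH
        omega
      obtain ⟨N', hN', hv1, hv2⟩ := ih (H \ J).card hlt (H \ J) rfl
        (fun K hK => hcl K (hK.trans sdiff_subset))
      have hcard : ((H \ J).card : ℤ) = n - J.card := by
        have := card_sdiff_add_card_eq_card hJH
        omega
      rw [hcard] at hv1 hv2
      set P := Y.filter (fun y => ∃ a ∈ J, ∃ b ∈ J, (F y).Adj a b) with hP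
      have hPc : (J.card : ℤ) - 1 ≤ P.card := by
        have := hcl J hJH hJc hj
        rw [← hP] at this
        omega
      have hex : ∀ y, ∃ e : V × V, y ∈ P → e.1 ∈ J ∧ e.2 ∈ J ∧ (F y).Adj e.1 e.2 := by
        intro y
        by_cases hy : y ∈ P
        · obtain ⟨a, ha, b, hb, hab⟩ := (mem_filter.1 hy).2
          exact ⟨(a, b), fun _ => ⟨ha, hb, hab⟩⟩
        · by_cases hV : Nonempty V
          · exact ⟨(hV.some, hV.some), fun h => absurd h hy⟩
          · exfalso
            have : J = ∅ := by
              rw [eq_empty_iff_forall_notMem]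
              exact fun x _ => hV ⟨x⟩
            rw [this] at hj
            simp at hj
      choose e he using hex
      have hn2 : (2 : ℤ) ≤ n := by
        have := card_le_card hJH
        omega
      have hnj : (J.card : ℤ) ≤ n := by
        have := card_le_card hJH
        omega
      refine ⟨fun y => if y ∈ P then insert (e y) (N' y) else N' y, ?_, ?_⟩
      · intro y hy
        by_cases hyP : y ∈ P
        · obtain ⟨h1, h2, h3⟩ := he y hyP
          simp only [if_pos hyP]
          exact (hN' y hy).insert' h3 (hJH h1) (hJH h2) sdiff_subset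
            (fun h => (mem_sdiff.1 h).2 h1) (fun h => (mem_sdiff.1 h).2 h2)
        · simp only [if_neg hyP]
          exact (hN' y hy).mono sdiff_subset
      · -- values
        have hval : ∀ y ∈ Y, ∀ μ : ℤ, 0 ≤ μ → μ ≤ 1 →
            (2 * ((n : ℤ) - J.card - μ) * (N' y).card - E M (Kt (N' y)))
              + (if y ∈ P then 2 * ((n : ℤ) - 1 - μ) else 0)
            ≤ 2 * ((n : ℤ) - μ) * ((if y ∈ P then insert (e y) (N' y) else N' y)).card
              - E M (Kt (if y ∈ P then insert (e y) (N' y) else N' y)) := by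
          intro y hy μ hμ0 hμ1
          by_cases hyP : y ∈ P
          · obtain ⟨h1, h2, h3⟩ := he y hyP
            obtain ⟨h4, h5⟩ := val_insert (M := M) (H := H) hj hmax (hF y hy) sdiff_subset
              (hN' y hy) h3 (hJH h1) (hJH h2) (fun h => (mem_sdiff.1 h).2 h1)
              (fun h => (mem_sdiff.1 h).2 h2)
            rw [if_pos hyP, if_pos hyP]
            rw [show ((e y).1, (e y).2) = e y from rfl] at h4 h5
            rw [h5]
            push_cast
            nlinarith
          · rw [if_neg hyP, if_neg hyP]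
            have h6 : (0 : ℤ) ≤ (N' y).card := by positivity
            have h7 : (0 : ℤ) ≤ J.card := by positivity
            nlinarith
        have hsum : ∀ c : ℤ, ∑ y ∈ Y, (if y ∈ P then c else 0) = P.card * c := by
          intro c
          rw [← sum_filter, sum_const, nsmul_eq_mul, filter_mem_eq_inter,
            inter_eq_right.2 (hP ▸ filter_subset _ _)]
        -- edges which meet the clique
        have hE : (E M H : ℤ) ≤ E M (H \ J) + J.card * (J.card - 1)
            + 2 * ((n : ℤ) - J.card) * (J.card - 1) := by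
          have e1 := E_union M (sdiff_disjoint : Disjoint (H \ J) J).symm
          rw [union_sdiff_of_subset hJH] at e1
          have e2 : (E M J : ℤ) = J.card * (J.card - 1) := by
            rw [E_clq M hJc]
            push_cast
            rw [Nat.cast_sub (by omega)]
            simp
          have e3 : ∑ v ∈ H \ J, (dg M J v : ℤ) ≤ ((n : ℤ) - J.card) * (J.card - 1) := by
            have e4 : ∀ v ∈ H \ J, (dg M J v : ℤ) ≤ J.card - 1 := by
              intro v hv
              obtain ⟨hv1, hv2⟩ := mem_sdiff.1 hv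
              by_contra hcon
              have e5 : J.card ≤ dg M J v := by omega
              have e6 : J.filter (fun w => M.Adj v w) = J :=
                eq_of_subset_of_card_le (filter_subset _ _) e5
              have e7 : ∀ w ∈ J, M.Adj v w := fun w hw => (mem_filter.1 (e6 ▸ hw)).2
              have e8 := hmax (insert v J) (insert_subset hv1 hJH) (by
                intro x hx y hy hxy
                rcases mem_insert.1 hx with h1 | h1 <;> rcases mem_insert.1 hy with h2 | h2
                · exact absurd (h1.trans h2.symm) hxy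
                · exact h1 ▸ e7 y h2
                · exact (h2 ▸ e7 x h1).symm
                · exact hJc x h1 y h2 hxy)
              rw [card_insert_of_notMem hv2] at e8
              omega
            have e9 := sum_le_sum e4
            rw [sum_const, nsmul_eq_mul, hcard] at e9
            exact e9
          have e10 : ((∑ v ∈ H \ J, dg M J v : ℕ) : ℤ) = ∑ v ∈ H \ J, (dg M J v : ℤ) := by
            push_cast; rfl
          have e11 : (E M H : ℤ) = E M J + 2 * ((∑ v ∈ H \ J, dg M J v : ℕ) : ℤ) + E M (H \ J) := by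
            exact_mod_cast e1
          rw [e11, e10, e2]
          linarith
        have hj' : (2 : ℤ) ≤ J.card := by exact_mod_cast hj
        have hsq : (0 : ℤ) ≤ ((J.card : ℤ) - 2) ^ 2 := sq_nonneg _
        constructor
        · have s1 := sum_le_sum fun y hy => hval y hy 0 le_rfl (by norm_num)
          rw [sum_add_distrib, hsum] at s1
          simp only [sub_zero] at s1
          have s2 : ((J.card : ℤ) - 1) * (2 * ((n : ℤ) - 1)) ≤ P.card * (2 * ((n : ℤ) - 1)) :=
            mul_le_mul_of_nonneg_right hPc (by linarith)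
          nlinarith
        · have s1 := sum_le_sum fun y hy => hval y hy 1 (by norm_num) le_rfl
          rw [sum_add_distrib, hsum] at s1
          have s2 : ((J.card : ℤ) - 1) * (2 * ((n : ℤ) - 1 - 1)) ≤ P.card * (2 * ((n : ℤ) - 1 - 1)) :=
            mul_le_mul_of_nonneg_right hPc (by linarith)
          nlinarith
    · -- no edges
      refine ⟨fun _ => ∅, fun y _ => Mt.empty _ _, ?_⟩
      have h0 : E M H = 0 := by
        unfold E dg
        refine sum_eq_zero fun v hv => ?_
        rw [card_eq_zero, filter_eq_empty_iff]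
        intro w hw hvw
        have h1 := hmax {v, w} (by
          intro x hx
          rcases mem_insert.1 hx with rfl | hx
          · exact hv
          · rw [mem_singleton.1 hx]; exact hw) (by
          intro x hx y hy hxy
          simp only [mem_insert, mem_singleton] at hx hy
          rcases hx with rfl | rfl <;> rcases hy with rfl | rfl
          · exact absurd rfl hxy
          · exact hvw
          · exact hvw.symm
          · exact absurd rfl hxy)
        rw [card_pair (M.ne_of_adj hvw)] at h1
        omega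
      have h1 : E M (Kt (∅ : Finset (V × V))) = 0 := rfl
      rw [h0]
      simp [h1]

end ZM

end Pool.Agent.Lib.MP_f04ccf_co
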